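import Pool.Agent.Lib.MP_6947cd_al.C.LeafF
import Pool.Agent.Lib.MP_6947cd_al.TC.E
import Pool.Agent.Lib.MP_6947cd_al.TC.F

/-!
Problem MP_6947cd_al (Chollet).  CASE C, tables and certificates.  Trees of leaves (part 25 of root 14).
-/

set_option autoImplicit false
set_option linter.all false
set_option maxRecDepth 100000
set_option maxHeartbeats 4000000
namespace Pool.Agent.Lib.MP_6947cd_al
namespace TC
open C1
noncomputable def c14_38 : Tr Lf :=
 (.trX (nat_lit 3) (nat_lit 0) (nat_lit 1) (nat_lit 48) (nat_lit 71) (nat_lit 100) (nat_lit 360) (.spl (nat_lit 1) (nat_lit 260) (.trX (nat_lit 3) (nat_lit 0) (nat_lit 1) (nat_lit 46) (nat_lit 76) (nat_lit 100) (nat_lit 340) (.spl (nat_lit 5) (nat_lit 120) (.spl (nat_lit 0) (nat_lit 390) (.leaf ⟨(nat_lit 886), (nat_lit 70), (nat_lit 0), (nat_lit 44), (nat_lit 0), (nat_lit 2885), (nat_lit 1147), (nat_lit 614), (nat_lit 0), (nat_lit 0), (nat_lit 354400), [((nat_lit 390), [((nat_lit 28), (nat_lit 1), (nat_lit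 886))])], ⟨(nat_lit 7), false, true, true, (nat_lit 284), (nat_lit 1581), (nat_lit 2237), [(nat_lit 1659578), (nat_lit 1655900), (nat_lit 1682352), (nat_lit 1679215), (nat_lit 1745101), (nat_lit 1737854), (nat_lit 1767876), (nat_lit 1761169)]⟩, ⟨(nat_lit 4), false, false, false, (nat_lit 169), (nat_lit 1581), (nat_lit 2237), [(nat_lit 1320243), (nat_lit 1326247), (nat_lit 1365701), (nat_lit 1372786), (nat_lit 1477224), (nat_lit 1476683), (nat_lit 1522729), (nat_lit 1523269)]⟩, (nat_lit 5105137), (nat_lit 37995588), (nat_lit 20218802), (nat_lit 8785610), (nat_lit 4), (nat_lit 0), [⟨(nat_lit 1), (nat_lit 83), (nat_lit 39), (nat_lit 100), (nat_lit 126796525)⟩, ⟨(nat_lit 1), (nat_lit 76), (nat_lit 46), (nat_lit 100), (nat_lit 206432840)⟩], [], [⟨(nat_lit 0), (nat_lit 100), (nat_lit 96), (nat_lit 40), (nat_lit 59518766)⟩], [⟨(nat_lit 0), (nat_lit 100), (nat_lit 87), (nat_lit 31), (nat_lit 6946544)⟩],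
 ⟨⟨[(nat_lit 40), (nat_lit 60)], [(nat_lit 0), (nat_lit 1539)], [((nat_lit 0), (nat_lit 0), (nat_lit 0)), ((nat_lit 1000), (nat_lit 478), (nat_lit 704))], ((nat_lit 48), (nat_lit 100), (nat_lit 69))⟩, (nat_lit 775), (nat_lit 86), (nat_lit 86), (nat_lit 0), (nat_lit 0), [(nat_lit 1441119209), (nat_lit 661920800)], [(nat_lit 0), (nat_lit 0)], [(nat_lit 24607870127), (nat_lit 25210862358), (nat_lit 27162039593), (nat_lit 27743531907), (nat_lit 26014367693), (nat_lit 26536844791), (nat_lit 28248318548), (nat_lit 28708557908)], (nat_lit 0), (nat_lit 0), (nat_lit 0), (nat_lit 0), (nat_lit 0), (nat_lit 0), [], [(nat_lit 1), (nat_lit 38), (nat_lit 260), (nat_lit 50), (nat_lit 13)]⟩,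
 ⟨⟨[(nat_lit 80), (nat_lit 120), (nat_lit 160)], [(nat_lit 0), (nat_lit 0), (nat_lit 2132)], [((nat_lit 0), (nat_lit 0), (nat_lit 0)), ((nat_lit 0), (nat_lit 0), (nat_lit 0)), ((nat_lit 858), (nat_lit 1000), (nat_lit 713))], ((nat_lit 100), (nat_lit 91), (nat_lit 64))⟩, (nat_lit 445044), (nat_lit 805), (nat_lit 805), (nat_lit 0), (nat_lit 1199710), [(nat_lit 534432000), (nat_lit 908352000), (nat_lit 1353408000)], [], [(nat_lit 3920364214), (nat_lit 3948992816), (nat_lit 4054897354), (nat_lit 4073166927), (nat_lit 3277301621), (nat_lit 3299349957), (nat_lit 3387945814), (nat_lit 3400758598)], (nat_lit 1271251), (nat_lit 1271251), (nat_lit 1271251), (nat_lit 1271251), (nat_lit 0), (nat_lit 780000), [(nat_lit 1100000), (nat_lit 1785001), (nat_lit 1271251)], [(nat_lit 18), (nat_lit 59), (nat_lit 428), (nat_lit 200), (nat_lit 11)]⟩,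
 ⟨⟨[(nat_lit 120), (nat_lit 160), (nat_lit 180)], [(nat_lit 0), (nat_lit 533), (nat_lit 2066)], [((nat_lit 0), (nat_lit 0), (nat_lit 0)), ((nat_lit 960), (nat_lit 1000), (nat_lit 200)), ((nat_lit 615), (nat_lit 1000), (nat_lit 729))], ((nat_lit 100), (nat_lit 72), (nat_lit 63))⟩, (nat_lit 104230), (nat_lit 300), (nat_lit 1368), (nat_lit 2921600), (nat_lit 2067450), [(nat_lit 350592000), (nat_lit 522368000), (nat_lit 618552000)], [], [(nat_lit 2502087538), (nat_lit 2350337557), (nat_lit 2164566374), (nat_lit 2120702186), (nat_lit 1893704402), (nat_lit 1855895642), (nat_lit 2135169889), (nat_lit 1638316021)], (nat_lit 1271251), (nat_lit 1271251), (nat_lit 559688), (nat_lit 1429376), (nat_lit 0), (nat_lit 780000), [(nat_lit 1695001), (nat_lit 1271251), (nat_lit 1271251)], [(nat_lit 28), (nat_lit 65), (nat_lit 410), (nat_lit 150), (nat_lit 10)]⟩⟩) (.trX (nat_lit 3) (nat_lit 0) (nat_lit 1) (nat_lit 33) (nat_lit 85) (nat_lit 100) (nat_lit 320) (.trZ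 (nat_lit 0) (nat_lit 2) (nat_lit 4) (nat_lit 100) (nat_lit 31) (nat_lit 92) (nat_lit 110) (.leaf ⟨(nat_lit 920), (nat_lit 47), (nat_lit 0), (nat_lit 33), (nat_lit 0), (nat_lit 3094), (nat_lit 825), (nat_lit 473), (nat_lit 0), (nat_lit 0), (nat_lit 230000), [((nat_lit 400), [((nat_lit 28), (nat_lit 0), (nat_lit 920))])], ⟨(nat_lit 7), false, true, true, (nat_lit 276), (nat_lit 0), (nat_lit 1582), [(nat_lit 1655899), (nat_lit 1649997), (nat_lit 1679215), (nat_lit 1674999), (nat_lit 1710533), (nat_lit 1699996), (nat_lit 1733849), (nat_lit 1724997)]⟩, ⟨(nat_lit 4), false, false, false, (nat_lit 176), (nat_lit 0), (nat_lit 1582), [(nat_lit 1351461), (nat_lit 1360206), (nat_lit 1396777), (nat_lit 1408893), (nat_lit 1476683), (nat_lit 1474999), (nat_lit 1522658), (nat_lit 1524343)]⟩, (nat_lit 5133506), (nat_lit 38256249), (nat_lit 19376482), (nat_lit 9367269), (nat_lit 4), (nat_lit 0), [⟨(nat_lit 1), (nat_lit 85), (nat_lit 33), (nat_lit 100), (nat_lit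 400530745)⟩], [], [⟨(nat_lit 0), (nat_lit 100), (nat_lit 96), (nat_lit 40), (nat_lit 5934198)⟩], [⟨(nat_lit 0), (nat_lit 100), (nat_lit 89), (nat_lit 30), (nat_lit 48680751)⟩],
 ⟨⟨[(nat_lit 40), (nat_lit 60)], [(nat_lit 0), (nat_lit 2136)], [((nat_lit 0), (nat_lit 0), (nat_lit 0)), ((nat_lit 1000), (nat_lit 343), (nat_lit 808))], ((nat_lit 37), (nat_lit 100), (nat_lit 75))⟩, (nat_lit 655), (nat_lit 79), (nat_lit 79), (nat_lit 0), (nat_lit 0), [(nat_lit 1581984031), (nat_lit 1224880000)], [(nat_lit 0), (nat_lit 0)], [(nat_lit 25553249020), (nat_lit 26160787055), (nat_lit 27099584503), (nat_lit 27715379646), (nat_lit 26678307951), (nat_lit 27215948730), (nat_lit 28055100350), (nat_lit 28549231254)], (nat_lit 0), (nat_lit 0), (nat_lit 0), (nat_lit 0), (nat_lit 0), (nat_lit 0), [], [(nat_lit 1), (nat_lit 38), (nat_lit 260), (nat_lit 50), (nat_lit 12)]⟩,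
 ⟨⟨[(nat_lit 80), (nat_lit 120), (nat_lit 160)], [(nat_lit 0), (nat_lit 0), (nat_lit 2132)], [((nat_lit 0), (nat_lit 0), (nat_lit 0)), ((nat_lit 0), (nat_lit 0), (nat_lit 0)), ((nat_lit 858), (nat_lit 1000), (nat_lit 713))], ((nat_lit 100), (nat_lit 91), (nat_lit 64))⟩, (nat_lit 307930), (nat_lit 871), (nat_lit 871), (nat_lit 0), (nat_lit 1370261), [(nat_lit 375040000), (nat_lit 637440000), (nat_lit 949760000)], [], [(nat_lit 2692420180), (nat_lit 2699357955), (nat_lit 2716096040), (nat_lit 2731278905), (nat_lit 2241166685), (nat_lit 2244579384), (nat_lit 2254509240), (nat_lit 2254663360)], (nat_lit 1271251), (nat_lit 1271251), (nat_lit 1271251), (nat_lit 1271251), (nat_lit 0), (nat_lit 780000), [(nat_lit 1100000), (nat_lit 1785001), (nat_lit 1271251)], [(nat_lit 18), (nat_lit 59), (nat_lit 401), (nat_lit 175), (nat_lit 10)]⟩,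
 ⟨⟨[(nat_lit 120), (nat_lit 160), (nat_lit 180)], [(nat_lit 0), (nat_lit 533), (nat_lit 2066)], [((nat_lit 0), (nat_lit 0), (nat_lit 0)), ((nat_lit 960), (nat_lit 1000), (nat_lit 200)), ((nat_lit 615), (nat_lit 1000), (nat_lit 729))], ((nat_lit 100), (nat_lit 72), (nat_lit 63))⟩, (nat_lit 77971), (nat_lit 300), (nat_lit 1485), (nat_lit 2191200), (nat_lit 2339264), [(nat_lit 262944000), (nat_lit 391776000), (nat_lit 463914000)], [], [(nat_lit 1800658173), (nat_lit 1707900397), (nat_lit 1604634356), (nat_lit 1586503622), (nat_lit 1358444592), (nat_lit 1328126747), (nat_lit 1615260862), (nat_lit 1197239885)], (nat_lit 1271251), (nat_lit 1271251), (nat_lit 704688), (nat_lit 1433125), (nat_lit 0), (nat_lit 780000), [(nat_lit 1695001), (nat_lit 1271251), (nat_lit 1271251)], [(nat_lit 28), (nat_lit 65), (nat_lit 439), (nat_lit 150), (nat_lit 10)]⟩⟩)))) (.spl (nat_lit 0) (nat_lit 390) (.leaf ⟨(nat_lit 933), (nat_lit 13), (nat_lit 0), (nat_lit 54), (nat_lit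 0), (nat_lit 2927), (nat_lit 658), (nat_lit 526), (nat_lit 0), (nat_lit 0), (nat_lit 322950), [((nat_lit 390), [((nat_lit 28), (nat_lit 0), (nat_lit 335)), ((nat_lit 28), (nat_lit 1), (nat_lit 598))])], ⟨(nat_lit 7), false, true, true, (nat_lit 284), (nat_lit 1581), (nat_lit 2237), [(nat_lit 1659578), (nat_lit 1655900), (nat_lit 1682352), (nat_lit 1679215), (nat_lit 1745101), (nat_lit 1737854), (nat_lit 1767876), (nat_lit 1761169)]⟩, ⟨(nat_lit 4), false, false, false, (nat_lit 169), (nat_lit 1581), (nat_lit 2237), [(nat_lit 1320243), (nat_lit 1326247), (nat_lit 1365701), (nat_lit 1372786), (nat_lit 1477224), (nat_lit 1476683), (nat_lit 1522729), (nat_lit 1523269)]⟩, (nat_lit 5105137), (nat_lit 37995588), (nat_lit 20218802), (nat_lit 8785610), (nat_lit 4), (nat_lit 0), [⟨(nat_lit 1), (nat_lit 76), (nat_lit 46), (nat_lit 100), (nat_lit 387543659)⟩], [], [], [],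
 ⟨⟨[(nat_lit 40), (nat_lit 60)], [(nat_lit 0), (nat_lit 1539)], [((nat_lit 0), (nat_lit 0), (nat_lit 0)), ((nat_lit 1000), (nat_lit 478), (nat_lit 704))], ((nat_lit 48), (nat_lit 100), (nat_lit 69))⟩, (nat_lit 0), (nat_lit 86), (nat_lit 86), (nat_lit 0), (nat_lit 0), [(nat_lit 1478467798), (nat_lit 764534400)], [(nat_lit 0), (nat_lit 0)], [(nat_lit 24665054051), (nat_lit 25271860984), (nat_lit 27230620241), (nat_lit 27815593590), (nat_lit 26057830101), (nat_lit 26583354446), (nat_lit 28300571472), (nat_lit 28763238369)], (nat_lit 0), (nat_lit 0), (nat_lit 0), (nat_lit 0), (nat_lit 0), (nat_lit 0), [], [(nat_lit 1), (nat_lit 38), (nat_lit 260), (nat_lit 50), (nat_lit 13)]⟩,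
 ⟨⟨[(nat_lit 80), (nat_lit 120), (nat_lit 160)], [(nat_lit 0), (nat_lit 0), (nat_lit 2132)], [((nat_lit 0), (nat_lit 0), (nat_lit 0)), ((nat_lit 0), (nat_lit 0), (nat_lit 0)), ((nat_lit 858), (nat_lit 1000), (nat_lit 713))], ((nat_lit 100), (nat_lit 91), (nat_lit 64))⟩, (nat_lit 119398), (nat_lit 885), (nat_lit 885), (nat_lit 0), (nat_lit 1590366), [(nat_lit 314096000), (nat_lit 533856000), (nat_lit 795424000)], [], [(nat_lit 2095325115), (nat_lit 2094167628), (nat_lit 2111611140), (nat_lit 2114161522), (nat_lit 2318515197), (nat_lit 2345535042), (nat_lit 2488611607), (nat_lit 2533270708)], (nat_lit 1271251), (nat_lit 1271251), (nat_lit 1271251), (nat_lit 1271251), (nat_lit 780000), (nat_lit 2990626), [(nat_lit 1100000), (nat_lit 1785001), (nat_lit 1271251)], [(nat_lit 18), (nat_lit 59), (nat_lit 483), (nat_lit 250), (nat_lit 12)]⟩,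
 ⟨⟨[(nat_lit 120), (nat_lit 160), (nat_lit 180)], [(nat_lit 0), (nat_lit 533), (nat_lit 2066)], [((nat_lit 0), (nat_lit 0), (nat_lit 0)), ((nat_lit 960), (nat_lit 1000), (nat_lit 200)), ((nat_lit 615), (nat_lit 1000), (nat_lit 729))], ((nat_lit 100), (nat_lit 72), (nat_lit 63))⟩, (nat_lit 126439), (nat_lit 300), (nat_lit 1292), (nat_lit 3585601), (nat_lit 2067450), [(nat_lit 430272000), (nat_lit 641088000), (nat_lit 759132000)], [], [(nat_lit 3174636519), (nat_lit 3114802806), (nat_lit 2973269843), (nat_lit 2913110508), (nat_lit 3628888787), (nat_lit 3149323261), (nat_lit 4344136125), (nat_lit 3881171505)], (nat_lit 1271251), (nat_lit 1271251), (nat_lit 559688), (nat_lit 1429376), (nat_lit 780000), (nat_lit 2990626), [(nat_lit 1695001), (nat_lit 1271251), (nat_lit 1271251)], [(nat_lit 28), (nat_lit 65), (nat_lit 456), (nat_lit 225), (nat_lit 11)]⟩⟩) (.trX (nat_lit 3) (nat_lit 0) (nat_lit 1) (nat_lit 33) (nat_lit 85) (nat_lit 100) (nat_lit 320)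 (.trZ (nat_lit 0) (nat_lit 2) (nat_lit 4) (nat_lit 100) (nat_lit 31) (nat_lit 92) (nat_lit 110) (.leaf ⟨(nat_lit 947), (nat_lit 8), (nat_lit 0), (nat_lit 45), (nat_lit 0), (nat_lit 3112), (nat_lit 529), (nat_lit 426), (nat_lit 0), (nat_lit 0), (nat_lit 236750), [((nat_lit 400), [((nat_lit 28), (nat_lit 0), (nat_lit 947))])], ⟨(nat_lit 7), false, true, true, (nat_lit 276), (nat_lit 0), (nat_lit 1582), [(nat_lit 1655899), (nat_lit 1649997), (nat_lit 1679215), (nat_lit 1674999), (nat_lit 1710533), (nat_lit 1699996), (nat_lit 1733849), (nat_lit 1724997)]⟩, ⟨(nat_lit 4), false, false, false, (nat_lit 176), (nat_lit 0), (nat_lit 1582), [(nat_lit 1351461), (nat_lit 1360206), (nat_lit 1396777), (nat_lit 1408893), (nat_lit 1476683), (nat_lit 1474999), (nat_lit 1522658), (nat_lit 1524343)]⟩, (nat_lit 5133506), (nat_lit 38256249), (nat_lit 19376482), (nat_lit 9367269), (nat_lit 4), (nat_lit 0), [⟨(nat_lit 1), (nat_lit 85), (nat_lit 33), (nat_lit 100), (nat_lit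 474502668)⟩], [], [], [],
 ⟨⟨[(nat_lit 40), (nat_lit 60)], [(nat_lit 0), (nat_lit 2136)], [((nat_lit 0), (nat_lit 0), (nat_lit 0)), ((nat_lit 1000), (nat_lit 343), (nat_lit 808))], ((nat_lit 37), (nat_lit 100), (nat_lit 75))⟩, (nat_lit 0), (nat_lit 79), (nat_lit 79), (nat_lit 0), (nat_lit 0), [(nat_lit 1575644412), (nat_lit 1164508000)], [(nat_lit 0), (nat_lit 0)], [(nat_lit 25533112508), (nat_lit 26142229714), (nat_lit 27125638012), (nat_lit 27743413908), (nat_lit 26653548346), (nat_lit 27192495088), (nat_lit 28032206598), (nat_lit 28527466840)], (nat_lit 0), (nat_lit 0), (nat_lit 0), (nat_lit 0), (nat_lit 0), (nat_lit 0), [], [(nat_lit 1), (nat_lit 38), (nat_lit 260), (nat_lit 50), (nat_lit 12)]⟩,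
 ⟨⟨[(nat_lit 80), (nat_lit 120), (nat_lit 160)], [(nat_lit 0), (nat_lit 0), (nat_lit 2132)], [((nat_lit 0), (nat_lit 0), (nat_lit 0)), ((nat_lit 0), (nat_lit 0), (nat_lit 0)), ((nat_lit 858), (nat_lit 1000), (nat_lit 713))], ((nat_lit 100), (nat_lit 91), (nat_lit 64))⟩, (nat_lit 93291), (nat_lit 988), (nat_lit 988), (nat_lit 0), (nat_lit 1796694), [(nat_lit 248464000), (nat_lit 422304000), (nat_lit 629216000)], [], [(nat_lit 1620810216), (nat_lit 1617783665), (nat_lit 1617995830), (nat_lit 1613349921), (nat_lit 1833110660), (nat_lit 1854455686), (nat_lit 1899303947), (nat_lit 1938794569)], (nat_lit 1271251), (nat_lit 1271251), (nat_lit 1271251), (nat_lit 1271251), (nat_lit 780000), (nat_lit 2990626), [(nat_lit 1100000), (nat_lit 1785001), (nat_lit 1271251)], [(nat_lit 18), (nat_lit 59), (nat_lit 483), (nat_lit 250), (nat_lit 12)]⟩,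
 ⟨⟨[(nat_lit 120), (nat_lit 160), (nat_lit 180)], [(nat_lit 0), (nat_lit 533), (nat_lit 2066)], [((nat_lit 0), (nat_lit 0), (nat_lit 0)), ((nat_lit 960), (nat_lit 1000), (nat_lit 200)), ((nat_lit 615), (nat_lit 1000), (nat_lit 729))], ((nat_lit 100), (nat_lit 72), (nat_lit 63))⟩, (nat_lit 105366), (nat_lit 300), (nat_lit 1403), (nat_lit 2988000), (nat_lit 2339264), [(nat_lit 358560000), (nat_lit 534240000), (nat_lit 632610000)], [], [(nat_lit 2716554635), (nat_lit 2667965319), (nat_lit 2588563182), (nat_lit 2539833902), (nat_lit 3077927367), (nat_lit 2692025642), (nat_lit 3589057670), (nat_lit 3214109137)], (nat_lit 1271251), (nat_lit 1271251), (nat_lit 704688), (nat_lit 1433125), (nat_lit 780000), (nat_lit 2990626), [(nat_lit 1695001), (nat_lit 1271251), (nat_lit 1271251)], [(nat_lit 28), (nat_lit 65), (nat_lit 456), (nat_lit 225), (nat_lit 10)]⟩⟩)))))) (.stt (nat_lit 3) (.spl (nat_lit 0) (nat_lit 390) (.leaf ⟨(nat_lit 810), (nat_lit 61), (nat_lit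 0), (nat_lit 129), (nat_lit 0), (nat_lit 2989), (nat_lit 1373), (nat_lit 1682), (nat_lit 0), (nat_lit 0), (nat_lit 324000), [((nat_lit 390), [((nat_lit 28), (nat_lit 1), (nat_lit 810))])], ⟨(nat_lit 7), false, true, true, (nat_lit 299), (nat_lit 1581), (nat_lit 2237), [(nat_lit 1682352), (nat_lit 1679215), (nat_lit 1705117), (nat_lit 1702521), (nat_lit 1796384), (nat_lit 1788487), (nat_lit 1819158), (nat_lit 1811802)]⟩, ⟨(nat_lit 4), true, false, false, (nat_lit 169), (nat_lit 1581), (nat_lit 2237), [(nat_lit 1320243), (nat_lit 1326247), (nat_lit 1365701), (nat_lit 1372786), (nat_lit 1477224), (nat_lit 1476683), (nat_lit 1522729), (nat_lit 1523269)]⟩, (nat_lit 5142931), (nat_lit 36872992), (nat_lit 21526473), (nat_lit 8600535), (nat_lit 4), (nat_lit 0), [⟨(nat_lit 1), (nat_lit 78), (nat_lit 41), (nat_lit 100), (nat_lit 286258662)⟩], [⟨(nat_lit 0), (nat_lit 100), (nat_lit 38), (nat_lit 92), (nat_lit 129348087)⟩], [⟨(nat_lit 0), (nat_lit 100), (nat_lit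 94), (nat_lit 35), (nat_lit 64927812)⟩], [],
 ⟨⟨[(nat_lit 40), (nat_lit 60)], [(nat_lit 0), (nat_lit 1539)], [((nat_lit 0), (nat_lit 0), (nat_lit 0)), ((nat_lit 1000), (nat_lit 478), (nat_lit 704))], ((nat_lit 48), (nat_lit 100), (nat_lit 69))⟩, (nat_lit 0), (nat_lit 91), (nat_lit 91), (nat_lit 0), (nat_lit 0), [(nat_lit 1471732001), (nat_lit 886668000)], [(nat_lit 0), (nat_lit 0)], [(nat_lit 25084226534), (nat_lit 25661690275), (nat_lit 28466927250), (nat_lit 28949962824), (nat_lit 26485542501), (nat_lit 26986226041), (nat_lit 29444500586), (nat_lit 29867238389)], (nat_lit 0), (nat_lit 0), (nat_lit 0), (nat_lit 0), (nat_lit 0), (nat_lit 0), [], [(nat_lit 1), (nat_lit 38), (nat_lit 260), (nat_lit 50), (nat_lit 13)]⟩,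
 ⟨⟨[(nat_lit 80), (nat_lit 120), (nat_lit 140)], [(nat_lit 0), (nat_lit 528), (nat_lit 1572)], [((nat_lit 0), (nat_lit 0), (nat_lit 0)), ((nat_lit 1000), (nat_lit 959), (nat_lit 206)), ((nat_lit 966), (nat_lit 1000), (nat_lit 679))], ((nat_lit 100), (nat_lit 98), (nat_lit 66))⟩, (nat_lit 1164692), (nat_lit 835), (nat_lit 835), (nat_lit 0), (nat_lit 1432669), [(nat_lit 890720000), (nat_lit 1513920000), (nat_lit 1869980000)], [], [(nat_lit 6176719039), (nat_lit 6215312360), (nat_lit 6443782143), (nat_lit 6535949238), (nat_lit 6071288811), (nat_lit 6220590960), (nat_lit 6838401516), (nat_lit 6945581743)], (nat_lit 1271251), (nat_lit 1271251), (nat_lit 1271251), (nat_lit 1271251), (nat_lit 0), (nat_lit 2754376), [(nat_lit 1100000), (nat_lit 1785001), (nat_lit 1271251)], [(nat_lit 17), (nat_lit 58), (nat_lit 401), (nat_lit 175), (nat_lit 11)]⟩,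
 ⟨⟨[(nat_lit 120), (nat_lit 160), (nat_lit 180)], [(nat_lit 0), (nat_lit 533), (nat_lit 2066)], [((nat_lit 0), (nat_lit 0), (nat_lit 0)), ((nat_lit 960), (nat_lit 1000), (nat_lit 200)), ((nat_lit 615), (nat_lit 1000), (nat_lit 729))], ((nat_lit 100), (nat_lit 72), (nat_lit 63))⟩, (nat_lit 302049), (nat_lit 300), (nat_lit 386), (nat_lit 8565600), (nat_lit 0), [(nat_lit 1027872000), (nat_lit 1531488000), (nat_lit 1813482000)], [], [(nat_lit 6715052103), (nat_lit 6724811399), (nat_lit 6272342956), (nat_lit 6252600644), (nat_lit 5801002124), (nat_lit 5683478302), (nat_lit 5162401127), (nat_lit 5031972443)], (nat_lit 0), (nat_lit 0), (nat_lit 0), (nat_lit 0), (nat_lit 0), (nat_lit 0), [], [(nat_lit 28), (nat_lit 65), (nat_lit 456), (nat_lit 225), (nat_lit 11)]⟩⟩) (.trX (nat_lit 3) (nat_lit 0) (nat_lit 1) (nat_lit 34) (nat_lit 81) (nat_lit 100) (nat_lit 340) (.trZ (nat_lit 0) (nat_lit 2) (nat_lit 4) (nat_lit 100) (nat_lit 31) (nat_lit 92) (nat_lit 110)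 (.leaf ⟨(nat_lit 852), (nat_lit 23), (nat_lit 0), (nat_lit 125), (nat_lit 0), (nat_lit 3019), (nat_lit 1120), (nat_lit 1895), (nat_lit 0), (nat_lit 0), (nat_lit 247800), [((nat_lit 400), [((nat_lit 28), (nat_lit 0), (nat_lit 620)), ((nat_lit 28), (nat_lit 1), (nat_lit 232))])], ⟨(nat_lit 7), false, true, true, (nat_lit 291), (nat_lit 0), (nat_lit 1582), [(nat_lit 1679215), (nat_lit 1674999), (nat_lit 1702515), (nat_lit 1699984), (nat_lit 1761166), (nat_lit 1749996), (nat_lit 1784482), (nat_lit 1774996)]⟩, ⟨(nat_lit 4), true, false, false, (nat_lit 176), (nat_lit 0), (nat_lit 1582), [(nat_lit 1351461), (nat_lit 1360206), (nat_lit 1396777), (nat_lit 1408893), (nat_lit 1476683), (nat_lit 1474999), (nat_lit 1522658), (nat_lit 1524343)]⟩, (nat_lit 5176852), (nat_lit 37137729), (nat_lit 20689403), (nat_lit 9172868), (nat_lit 4), (nat_lit 0), [⟨(nat_lit 1), (nat_lit 81), (nat_lit 34), (nat_lit 100), (nat_lit 364632792)⟩], [⟨(nat_lit 0), (nat_lit 100),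 (nat_lit 31), (nat_lit 92), (nat_lit 156635310)⟩], [⟨(nat_lit 0), (nat_lit 100), (nat_lit 94), (nat_lit 35), (nat_lit 74413147)⟩], [],
 ⟨⟨[(nat_lit 40), (nat_lit 60)], [(nat_lit 0), (nat_lit 2136)], [((nat_lit 0), (nat_lit 0), (nat_lit 0)), ((nat_lit 1000), (nat_lit 343), (nat_lit 808))], ((nat_lit 37), (nat_lit 100), (nat_lit 75))⟩, (nat_lit 0), (nat_lit 84), (nat_lit 84), (nat_lit 0), (nat_lit 0), [(nat_lit 1558974401), (nat_lit 1209609600)], [(nat_lit 0), (nat_lit 0)], [(nat_lit 25538301735), (nat_lit 26139259889), (nat_lit 27998969952), (nat_lit 28578462347), (nat_lit 26682623554), (nat_lit 27214822820), (nat_lit 28880405433), (nat_lit 29348389792)], (nat_lit 0), (nat_lit 0), (nat_lit 0), (nat_lit 0), (nat_lit 0), (nat_lit 0), [], [(nat_lit 1), (nat_lit 38), (nat_lit 260), (nat_lit 50), (nat_lit 12)]⟩,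
 ⟨⟨[(nat_lit 80), (nat_lit 120), (nat_lit 140)], [(nat_lit 0), (nat_lit 528), (nat_lit 1572)], [((nat_lit 0), (nat_lit 0), (nat_lit 0)), ((nat_lit 1000), (nat_lit 959), (nat_lit 206)), ((nat_lit 966), (nat_lit 1000), (nat_lit 679))], ((nat_lit 100), (nat_lit 98), (nat_lit 66))⟩, (nat_lit 849302), (nat_lit 909), (nat_lit 909), (nat_lit 0), (nat_lit 1602671), [(nat_lit 693824000), (nat_lit 1179264000), (nat_lit 1456616000)], [], [(nat_lit 4701875444), (nat_lit 4722989320), (nat_lit 4808387706), (nat_lit 4835759452), (nat_lit 4779027588), (nat_lit 4897144274), (nat_lit 5210524955), (nat_lit 5303409219)], (nat_lit 1271251), (nat_lit 1271251), (nat_lit 1271251), (nat_lit 1271251), (nat_lit 0), (nat_lit 2754376), [(nat_lit 1100000), (nat_lit 1785001), (nat_lit 1271251)], [(nat_lit 17), (nat_lit 58), (nat_lit 401), (nat_lit 175), (nat_lit 11)]⟩,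
 ⟨⟨[(nat_lit 120), (nat_lit 160), (nat_lit 180)], [(nat_lit 0), (nat_lit 533), (nat_lit 2066)], [((nat_lit 0), (nat_lit 0), (nat_lit 0)), ((nat_lit 960), (nat_lit 1000), (nat_lit 200)), ((nat_lit 615), (nat_lit 1000), (nat_lit 729))], ((nat_lit 100), (nat_lit 72), (nat_lit 63))⟩, (nat_lit 292683), (nat_lit 300), (nat_lit 373), (nat_lit 8300000), (nat_lit 0), [(nat_lit 996000000), (nat_lit 1484000000), (nat_lit 1757250000)], [], [(nat_lit 6414048296), (nat_lit 6402733562), (nat_lit 6017511430), (nat_lit 5978041770), (nat_lit 5203046195), (nat_lit 5054469278), (nat_lit 4618492316), (nat_lit 4508908590)], (nat_lit 0), (nat_lit 0), (nat_lit 0), (nat_lit 0), (nat_lit 0), (nat_lit 0), [], [(nat_lit 28), (nat_lit 65), (nat_lit 456), (nat_lit 225), (nat_lit 11)]⟩⟩)))) (.leaf ⟨(nat_lit 691), (nat_lit 209), (nat_lit 0), (nat_lit 100), (nat_lit 0), (nat_lit 3238), (nat_lit 2168), (nat_lit 1015), (nat_lit 0), (nat_lit 0), (nat_lit 237550), [((nat_lit 400),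 [((nat_lit 28), (nat_lit 0), (nat_lit 259)), ((nat_lit 28), (nat_lit 1), (nat_lit 432))])], ⟨(nat_lit 7), false, true, true, (nat_lit 298), (nat_lit 0), (nat_lit 2237), [(nat_lit 1682352), (nat_lit 1674999), (nat_lit 1705063), (nat_lit 1699935), (nat_lit 1796379), (nat_lit 1774994), (nat_lit 1819154), (nat_lit 1799995)]⟩, ⟨(nat_lit 4), false, false, false, (nat_lit 169), (nat_lit 0), (nat_lit 2237), [(nat_lit 1316293), (nat_lit 1333360), (nat_lit 1359989), (nat_lit 1381507), (nat_lit 1477224), (nat_lit 1474999), (nat_lit 1521847), (nat_lit 1524073)]⟩, (nat_lit 5141155), (nat_lit 36983243), (nat_lit 21380230), (nat_lit 8636527), (nat_lit 4), (nat_lit 0), [⟨(nat_lit 1), (nat_lit 83), (nat_lit 33), (nat_lit 100), (nat_lit 498311343)⟩], [], [], [],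
 ⟨⟨[(nat_lit 40), (nat_lit 60)], [(nat_lit 0), (nat_lit 1539)], [((nat_lit 0), (nat_lit 0), (nat_lit 0)), ((nat_lit 1000), (nat_lit 478), (nat_lit 704))], ((nat_lit 48), (nat_lit 100), (nat_lit 69))⟩, (nat_lit 0), (nat_lit 94), (nat_lit 94), (nat_lit 0), (nat_lit 0), [(nat_lit 1563177201), (nat_lit 1425365600)], [(nat_lit 0), (nat_lit 0)], [(nat_lit 25069206470), (nat_lit 26279771505), (nat_lit 28829993235), (nat_lit 29986517632), (nat_lit 26395528913), (nat_lit 27430175279), (nat_lit 29424578568), (nat_lit 30428861558)], (nat_lit 0), (nat_lit 0), (nat_lit 0), (nat_lit 0), (nat_lit 0), (nat_lit 0), [], [(nat_lit 1), (nat_lit 38), (nat_lit 260), (nat_lit 50), (nat_lit 13)]⟩,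
 ⟨⟨[(nat_lit 80), (nat_lit 120), (nat_lit 140)], [(nat_lit 0), (nat_lit 528), (nat_lit 1572)], [((nat_lit 0), (nat_lit 0), (nat_lit 0)), ((nat_lit 1000), (nat_lit 959), (nat_lit 206)), ((nat_lit 966), (nat_lit 1000), (nat_lit 679))], ((nat_lit 100), (nat_lit 98), (nat_lit 66))⟩, (nat_lit 2013285), (nat_lit 748), (nat_lit 748), (nat_lit 0), (nat_lit 1238520), [(nat_lit 1448592000), (nat_lit 2462112000), (nat_lit 3041178000)], [], [(nat_lit 9905233671), (nat_lit 9989839051), (nat_lit 10443847439), (nat_lit 10539912801), (nat_lit 9809791091), (nat_lit 10050266021), (nat_lit 11040844075), (nat_lit 11214459170)], (nat_lit 1271251), (nat_lit 1271251), (nat_lit 1271251), (nat_lit 1271251), (nat_lit 0), (nat_lit 2754376), [(nat_lit 1100000), (nat_lit 1785001), (nat_lit 1271251)], [(nat_lit 17), (nat_lit 58), (nat_lit 401), (nat_lit 175), (nat_lit 11)]⟩,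
 ⟨⟨[(nat_lit 120), (nat_lit 160), (nat_lit 180)], [(nat_lit 0), (nat_lit 533), (nat_lit 2066)], [((nat_lit 0), (nat_lit 0), (nat_lit 0)), ((nat_lit 960), (nat_lit 1000), (nat_lit 200)), ((nat_lit 615), (nat_lit 1000), (nat_lit 729))], ((nat_lit 100), (nat_lit 72), (nat_lit 63))⟩, (nat_lit 234146), (nat_lit 300), (nat_lit 1549), (nat_lit 6640002), (nat_lit 2457206), [(nat_lit 796800000), (nat_lit 1187200000), (nat_lit 1405800000)], [], [(nat_lit 6208869076), (nat_lit 6102569166), (nat_lit 5809723238), (nat_lit 5705349393), (nat_lit 5751945566), (nat_lit 4927791701), (nat_lit 7117512118), (nat_lit 6224148830)], (nat_lit 1271251), (nat_lit 1271251), (nat_lit 559688), (nat_lit 1429376), (nat_lit 0), (nat_lit 2754376), [(nat_lit 1695001), (nat_lit 1271251), (nat_lit 1271251)], [(nat_lit 28), (nat_lit 65), (nat_lit 489), (nat_lit 225), (nat_lit 12)]⟩⟩))))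
noncomputable def c14_39 : Tr Lf :=
 (.spl (nat_lit 1) (nat_lit 300) (.trX (nat_lit 3) (nat_lit 0) (nat_lit 1) (nat_lit 50) (nat_lit 65) (nat_lit 100) (nat_lit 370) (.stt (nat_lit 3) (.spl (nat_lit 5) (nat_lit 120) (.leaf ⟨(nat_lit 777), (nat_lit 145), (nat_lit 0), (nat_lit 78), (nat_lit 0), (nat_lit 2952), (nat_lit 1755), (nat_lit 3240), (nat_lit 0), (nat_lit 0), (nat_lit 310800), [((nat_lit 400), [((nat_lit 28), (nat_lit 1), (nat_lit 777))])], ⟨(nat_lit 7), false, true, true, (nat_lit 310), (nat_lit 0), (nat_lit 2237), [(nat_lit 1705063), (nat_lit 1699935), (nat_lit 1726954), (nat_lit 1724051), (nat_lit 1833408), (nat_lit 1812495), (nat_lit 1856183), (nat_lit 1837496)]⟩, ⟨(nat_lit 4), true, false, false, (nat_lit 169), (nat_lit 0), (nat_lit 2237), [(nat_lit 1316293), (nat_lit 1333360), (nat_lit 1359989), (nat_lit 1381507), (nat_lit 1477224), (nat_lit 1474999), (nat_lit 1521847), (nat_lit 1524073)]⟩, (nat_lit 5164995), (nat_lit 36076428), (nat_lit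 22441495), (nat_lit 8482077), (nat_lit 4), (nat_lit 0), [⟨(nat_lit 1), (nat_lit 79), (nat_lit 35), (nat_lit 100), (nat_lit 300098471)⟩], [⟨(nat_lit 0), (nat_lit 100), (nat_lit 31), (nat_lit 95), (nat_lit 118125431)⟩], [⟨(nat_lit 0), (nat_lit 100), (nat_lit 92), (nat_lit 31), (nat_lit 201696561)⟩], [],
 ⟨⟨[(nat_lit 40), (nat_lit 60)], [(nat_lit 0), (nat_lit 1539)], [((nat_lit 0), (nat_lit 0), (nat_lit 0)), ((nat_lit 1000), (nat_lit 478), (nat_lit 704))], ((nat_lit 48), (nat_lit 100), (nat_lit 69))⟩, (nat_lit 0), (nat_lit 97), (nat_lit 97), (nat_lit 0), (nat_lit 0), [(nat_lit 1485024403), (nat_lit 984255600)], [(nat_lit 0), (nat_lit 0)], [(nat_lit 25167100364), (nat_lit 26315825243), (nat_lit 28993493471), (nat_lit 29932849869), (nat_lit 26579559947), (nat_lit 27575981913), (nat_lit 29929678010), (nat_lit 30752184487)], (nat_lit 0), (nat_lit 0), (nat_lit 0), (nat_lit 0), (nat_lit 0), (nat_lit 0), [], [(nat_lit 1), (nat_lit 38), (nat_lit 260), (nat_lit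 50), (nat_lit 13)]⟩,
 ⟨⟨[(nat_lit 60), (nat_lit 100), (nat_lit 140)], [(nat_lit 0), (nat_lit 0), (nat_lit 2047)], [((nat_lit 0), (nat_lit 0), (nat_lit 0)), ((nat_lit 0), (nat_lit 0), (nat_lit 0)), ((nat_lit 1000), (nat_lit 993), (nat_lit 781))], ((nat_lit 95), (nat_lit 100), (nat_lit 65))⟩, (nat_lit 454202), (nat_lit 706), (nat_lit 706), (nat_lit 0), (nat_lit 1145841), [(nat_lit 731886000), (nat_lit 1393750000), (nat_lit 2194766000)], [], [(nat_lit 8077972657), (nat_lit 8139705385), (nat_lit 8531706170), (nat_lit 8585648904), (nat_lit 7238563034), (nat_lit 7306664011), (nat_lit 7644769062), (nat_lit 7688260829)], (nat_lit 1271251), (nat_lit 1271251), (nat_lit 1271251), (nat_lit 1271251), (nat_lit 0), (nat_lit 780000), [(nat_lit 780000), (nat_lit 1435001), (nat_lit 1271251)], [(nat_lit 11), (nat_lit 55), (nat_lit 276), (nat_lit 30), (nat_lit 7)]⟩,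
 ⟨⟨[(nat_lit 120), (nat_lit 160), (nat_lit 180)], [(nat_lit 0), (nat_lit 533), (nat_lit 2066)], [((nat_lit 0), (nat_lit 0), (nat_lit 0)), ((nat_lit 960), (nat_lit 1000), (nat_lit 200)), ((nat_lit 615), (nat_lit 1000), (nat_lit 729))], ((nat_lit 100), (nat_lit 72), (nat_lit 63))⟩, (nat_lit 541052), (nat_lit 300), (nat_lit 386), (nat_lit 5179200), (nat_lit 0), [(nat_lit 621504000), (nat_lit 926016000), (nat_lit 1096524000)], [], [(nat_lit 4509857775), (nat_lit 4375915723), (nat_lit 3286705536), (nat_lit 3427669301), (nat_lit 1459274734), (nat_lit 1326149696), (nat_lit 325965231), (nat_lit 304662682)], (nat_lit 0), (nat_lit 0), (nat_lit 0), (nat_lit 0), (nat_lit 0), (nat_lit 0), [], [(nat_lit 28), (nat_lit 65), (nat_lit 373), (nat_lit 150), (nat_lit 9)]⟩⟩) (.leaf ⟨(nat_lit 0), (nat_lit 0), (nat_lit 0), (nat_lit 1000), (nat_lit 0), (nat_lit 3924), (nat_lit 7541), (nat_lit 16863), (nat_lit 0), (nat_lit 0), (nat_lit 0), [], Pd.none, Pd.none, (nat_lit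 0), (nat_lit 1), (nat_lit 0), (nat_lit 0), (nat_lit 0), (nat_lit 0), [], [⟨(nat_lit 0), (nat_lit 100), (nat_lit 31), (nat_lit 95), (nat_lit 1633284023)⟩], [], [],
 ⟨⟨[(nat_lit 40), (nat_lit 60)], [(nat_lit 0), (nat_lit 1539)], [((nat_lit 0), (nat_lit 0), (nat_lit 0)), ((nat_lit 1000), (nat_lit 478), (nat_lit 704))], ((nat_lit 48), (nat_lit 100), (nat_lit 69))⟩, (nat_lit 753289), (nat_lit 97), (nat_lit 97), (nat_lit 0), (nat_lit 0), [(nat_lit 2032000042), (nat_lit 3282000000)], [], [(nat_lit 25773398421), (nat_lit 27331205591), (nat_lit 30636798953), (nat_lit 31859704579), (nat_lit 26848063634), (nat_lit 27924613397), (nat_lit 30800292146), (nat_lit 31859627085)], (nat_lit 0), (nat_lit 0), (nat_lit 0), (nat_lit 0), (nat_lit 0), (nat_lit 0), [], [(nat_lit 1), (nat_lit 38), (nat_lit 260), (nat_lit 50), (nat_lit 13)]⟩,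
 ⟨⟨[(nat_lit 60), (nat_lit 100), (nat_lit 140)], [(nat_lit 0), (nat_lit 0), (nat_lit 2047)], [((nat_lit 0), (nat_lit 0), (nat_lit 0)), ((nat_lit 0), (nat_lit 0), (nat_lit 0)), ((nat_lit 1000), (nat_lit 993), (nat_lit 781))], ((nat_lit 95), (nat_lit 100), (nat_lit 65))⟩, (nat_lit 2015214), (nat_lit 760), (nat_lit 760), (nat_lit 0), (nat_lit 1470914), [(nat_lit 3282000000), (nat_lit 6250000000), (nat_lit 9842000000)], [], [(nat_lit 34280029135), (nat_lit 34587747679), (nat_lit 36094965920), (nat_lit 36296158169), (nat_lit 35588055517), (nat_lit 35665519694), (nat_lit 37522851612), (nat_lit 38060486436)], (nat_lit 1271251), (nat_lit 1271251), (nat_lit 1271251), (nat_lit 1271251), (nat_lit 780000), (nat_lit 2990626), [(nat_lit 780000), (nat_lit 1435001), (nat_lit 1271251)], [(nat_lit 11), (nat_lit 55), (nat_lit 323), (nat_lit 100), (nat_lit 8)]⟩,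
 ⟨⟨[(nat_lit 120), (nat_lit 160), (nat_lit 180)], [(nat_lit 0), (nat_lit 533), (nat_lit 2066)], [((nat_lit 0), (nat_lit 0), (nat_lit 0)), ((nat_lit 960), (nat_lit 1000), (nat_lit 200)), ((nat_lit 615), (nat_lit 1000), (nat_lit 729))], ((nat_lit 100), (nat_lit 72), (nat_lit 63))⟩, (nat_lit 12440410), (nat_lit 226), (nat_lit 226), (nat_lit 0), (nat_lit 0), [(nat_lit 7968000000), (nat_lit 11872000000), (nat_lit 14058000000)], [], [(nat_lit 11040276020), (nat_lit 13731858760), (nat_lit 11470215981), (nat_lit 13416345887), (nat_lit 39334713210), (nat_lit 40550763451), (nat_lit 35903661684), (nat_lit 36691969831)], (nat_lit 0), (nat_lit 0), (nat_lit 0), (nat_lit 0), (nat_lit 0), (nat_lit 0), [], [(nat_lit 28), (nat_lit 65), (nat_lit 456), (nat_lit 225), (nat_lit 11)]⟩⟩)) (.spl (nat_lit 3) (nat_lit 320) (.leaf ⟨(nat_lit 811), (nat_lit 132), (nat_lit 0), (nat_lit 57), (nat_lit 0), (nat_lit 3018), (nat_lit 1414), (nat_lit 598), (nat_lit 0), (nat_lit 0),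 (nat_lit 324400), [((nat_lit 400), [((nat_lit 28), (nat_lit 1), (nat_lit 811))])], ⟨(nat_lit 7), false, true, true, (nat_lit 296), (nat_lit 0), (nat_lit 2237), [(nat_lit 1705063), (nat_lit 1699935), (nat_lit 1726954), (nat_lit 1724051), (nat_lit 1762141), (nat_lit 1749998), (nat_lit 1784917), (nat_lit 1774999)]⟩, ⟨(nat_lit 4), false, false, false, (nat_lit 169), (nat_lit 0), (nat_lit 2237), [(nat_lit 1316293), (nat_lit 1333360), (nat_lit 1359989), (nat_lit 1381507), (nat_lit 1477224), (nat_lit 1474999), (nat_lit 1521847), (nat_lit 1524073)]⟩, (nat_lit 5138314), (nat_lit 37076727), (nat_lit 21271084), (nat_lit 8652189), (nat_lit 4), (nat_lit 0), [⟨(nat_lit 1), (nat_lit 79), (nat_lit 35), (nat_lit 100), (nat_lit 134252010)⟩], [], [], [],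
 ⟨⟨[(nat_lit 40), (nat_lit 60)], [(nat_lit 0), (nat_lit 1539)], [((nat_lit 0), (nat_lit 0), (nat_lit 0)), ((nat_lit 1000), (nat_lit 478), (nat_lit 704))], ((nat_lit 48), (nat_lit 100), (nat_lit 69))⟩, (nat_lit 0), (nat_lit 84), (nat_lit 84), (nat_lit 0), (nat_lit 0), [(nat_lit 1471329236), (nat_lit 883710800)], [(nat_lit 0), (nat_lit 0)], [(nat_lit 24612831542), (nat_lit 25942576900), (nat_lit 26317782203), (nat_lit 27564614254), (nat_lit 25975877642), (nat_lit 27040131068), (nat_lit 27387556120), (nat_lit 28366954560)], (nat_lit 0), (nat_lit 0), (nat_lit 0), (nat_lit 0), (nat_lit 0), (nat_lit 0), [], [(nat_lit 1), (nat_lit 38), (nat_lit 260), (nat_lit 50), (nat_lit 13)]⟩,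
 ⟨⟨[(nat_lit 60), (nat_lit 100), (nat_lit 140)], [(nat_lit 0), (nat_lit 0), (nat_lit 2047)], [((nat_lit 0), (nat_lit 0), (nat_lit 0)), ((nat_lit 0), (nat_lit 0), (nat_lit 0)), ((nat_lit 1000), (nat_lit 993), (nat_lit 781))], ((nat_lit 95), (nat_lit 100), (nat_lit 65))⟩, (nat_lit 415707), (nat_lit 706), (nat_lit 706), (nat_lit 0), (nat_lit 1145841), [(nat_lit 620298000), (nat_lit 1181250000), (nat_lit 1860138000)], [], [(nat_lit 6801995591), (nat_lit 6877929078), (nat_lit 6953862565), (nat_lit 7037709420), (nat_lit 6564764726), (nat_lit 6593487291), (nat_lit 6622209855), (nat_lit 6667194940)], (nat_lit 1271251), (nat_lit 1271251), (nat_lit 1271251), (nat_lit 1271251), (nat_lit 0), (nat_lit 2754376), [(nat_lit 780000), (nat_lit 1435001), (nat_lit 1271251)], [(nat_lit 11), (nat_lit 55), (nat_lit 317), (nat_lit 100), (nat_lit 9)]⟩,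
 ⟨⟨[(nat_lit 120), (nat_lit 160), (nat_lit 180)], [(nat_lit 0), (nat_lit 533), (nat_lit 2066)], [((nat_lit 0), (nat_lit 0), (nat_lit 0)), ((nat_lit 960), (nat_lit 1000), (nat_lit 200)), ((nat_lit 615), (nat_lit 1000), (nat_lit 729))], ((nat_lit 100), (nat_lit 72), (nat_lit 63))⟩, (nat_lit 133464), (nat_lit 300), (nat_lit 1622), (nat_lit 3784800), (nat_lit 2606371), [(nat_lit 454176000), (nat_lit 676704000), (nat_lit 801306000)], [], [(nat_lit 3457466311), (nat_lit 3396641953), (nat_lit 3222503253), (nat_lit 3159998854), (nat_lit 3300841660), (nat_lit 2755632184), (nat_lit 4098716167), (nat_lit 3572379964)], (nat_lit 1271251), (nat_lit 1271251), (nat_lit 559688), (nat_lit 1429376), (nat_lit 0), (nat_lit 2754376), [(nat_lit 1695001), (nat_lit 1271251), (nat_lit 1271251)], [(nat_lit 28), (nat_lit 65), (nat_lit 507), (nat_lit 225), (nat_lit 12)]⟩⟩) (.trX (nat_lit 5) (nat_lit 3) (nat_lit 4) (nat_lit 80) (nat_lit 60) (nat_lit 100) (nat_lit 360) (.spl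 (nat_lit 0) (nat_lit 390) (.leaf ⟨(nat_lit 657), (nat_lit 244), (nat_lit 0), (nat_lit 99), (nat_lit 0), (nat_lit 3147), (nat_lit 2612), (nat_lit 1084), (nat_lit 0), (nat_lit 0), (nat_lit 394200), [((nat_lit 390), [((nat_lit 43), (nat_lit 2), (nat_lit 657))])], ⟨(nat_lit 8), false, true, true, (nat_lit 322), (nat_lit 1581), (nat_lit 2237), [(nat_lit 1762142), (nat_lit 1757166), (nat_lit 1784917), (nat_lit 1780481), (nat_lit 1833412), (nat_lit 1825461), (nat_lit 1856186), (nat_lit 1848776)]⟩, ⟨(nat_lit 4), false, false, false, (nat_lit 169), (nat_lit 1581), (nat_lit 2237), [(nat_lit 1320243), (nat_lit 1326247), (nat_lit 1365701), (nat_lit 1372786), (nat_lit 1477224), (nat_lit 1476683), (nat_lit 1522729), (nat_lit 1523269)]⟩, (nat_lit 5180748), (nat_lit 35156584), (nat_lit 23539368), (nat_lit 8304048), (nat_lit 4), (nat_lit 0), [⟨(nat_lit 1), (nat_lit 73), (nat_lit 43), (nat_lit 100), (nat_lit 389829202)⟩], [], [], [],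
 ⟨⟨[(nat_lit 40), (nat_lit 60)], [(nat_lit 0), (nat_lit 1539)], [((nat_lit 0), (nat_lit 0), (nat_lit 0)), ((nat_lit 1000), (nat_lit 478), (nat_lit 704))], ((nat_lit 48), (nat_lit 100), (nat_lit 69))⟩, (nat_lit 155774), (nat_lit 94), (nat_lit 94), (nat_lit 0), (nat_lit 0), [(nat_lit 1531258012), (nat_lit 709713600)], [(nat_lit 0), (nat_lit 0)], [(nat_lit 26646912842), (nat_lit 27188561256), (nat_lit 29208488440), (nat_lit 29763949334), (nat_lit 27795502564), (nat_lit 28266429719), (nat_lit 29846575526), (nat_lit 30266908879)], (nat_lit 0), (nat_lit 0), (nat_lit 0), (nat_lit 0), (nat_lit 0), (nat_lit 0), [], [(nat_lit 1), (nat_lit 38), (nat_lit 260), (nat_lit 50), (nat_lit 12)]⟩,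
 ⟨⟨[(nat_lit 60), (nat_lit 100), (nat_lit 140)], [(nat_lit 0), (nat_lit 0), (nat_lit 2047)], [((nat_lit 0), (nat_lit 0), (nat_lit 0)), ((nat_lit 0), (nat_lit 0), (nat_lit 0)), ((nat_lit 1000), (nat_lit 993), (nat_lit 781))], ((nat_lit 95), (nat_lit 100), (nat_lit 65))⟩, (nat_lit 1001607), (nat_lit 634), (nat_lit 634), (nat_lit 0), (nat_lit 1026573), [(nat_lit 1125726000), (nat_lit 2143750000), (nat_lit 3375806000)], [], [(nat_lit 12440875784), (nat_lit 12593289722), (nat_lit 13058612792), (nat_lit 13181066361), (nat_lit 11578961441), (nat_lit 11629219383), (nat_lit 12265497494), (nat_lit 12483340887)], (nat_lit 1271251), (nat_lit 1271251), (nat_lit 1271251), (nat_lit 1271251), (nat_lit 0), (nat_lit 2542501), [(nat_lit 780000), (nat_lit 1435001), (nat_lit 1271251)], [(nat_lit 11), (nat_lit 55), (nat_lit 317), (nat_lit 100), (nat_lit 8)]⟩,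
 ⟨⟨[(nat_lit 120), (nat_lit 160), (nat_lit 180)], [(nat_lit 0), (nat_lit 533), (nat_lit 2066)], [((nat_lit 0), (nat_lit 0), (nat_lit 0)), ((nat_lit 960), (nat_lit 1000), (nat_lit 200)), ((nat_lit 615), (nat_lit 1000), (nat_lit 729))], ((nat_lit 100), (nat_lit 72), (nat_lit 63))⟩, (nat_lit 425634), (nat_lit 300), (nat_lit 1504), (nat_lit 6573600), (nat_lit 2357221), [(nat_lit 788832000), (nat_lit 1175328000), (nat_lit 1391742000)], [], [(nat_lit 5846368164), (nat_lit 5755434256), (nat_lit 5438058237), (nat_lit 5341466695), (nat_lit 5535918206), (nat_lit 4585103545), (nat_lit 6940648427), (nat_lit 5977354537)], (nat_lit 1271251), (nat_lit 1271251), (nat_lit 559688), (nat_lit 1429376), (nat_lit 0), (nat_lit 2542501), [(nat_lit 1695001), (nat_lit 1271251), (nat_lit 1271251)], [(nat_lit 28), (nat_lit 65), (nat_lit 474), (nat_lit 200), (nat_lit 11)]⟩⟩) (.trX (nat_lit 3) (nat_lit 0) (nat_lit 1) (nat_lit 36) (nat_lit 77) (nat_lit 100) (nat_lit 350) (.trZ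 (nat_lit 0) (nat_lit 2) (nat_lit 4) (nat_lit 100) (nat_lit 31) (nat_lit 92) (nat_lit 110) (.leaf ⟨(nat_lit 700), (nat_lit 214), (nat_lit 0), (nat_lit 86), (nat_lit 0), (nat_lit 3005), (nat_lit 2260), (nat_lit 936), (nat_lit 0), (nat_lit 0), (nat_lit 420000), [((nat_lit 400), [((nat_lit 43), (nat_lit 2), (nat_lit 700))])], ⟨(nat_lit 8), false, true, true, (nat_lit 314), (nat_lit 0), (nat_lit 1582), [(nat_lit 1757165), (nat_lit 1749998), (nat_lit 1780481), (nat_lit 1774999), (nat_lit 1798140), (nat_lit 1787496), (nat_lit 1821456), (nat_lit 1812497)]⟩, ⟨(nat_lit 4), false, false, false, (nat_lit 176), (nat_lit 0), (nat_lit 1582), [(nat_lit 1351461), (nat_lit 1360206), (nat_lit 1396777), (nat_lit 1408893), (nat_lit 1476683), (nat_lit 1474999), (nat_lit 1522658), (nat_lit 1524343)]⟩, (nat_lit 5221763), (nat_lit 35466323), (nat_lit 22665203), (nat_lit 8868474), (nat_lit 4), (nat_lit 0), [⟨(nat_lit 1), (nat_lit 86), (nat_lit 25), (nat_lit 100), (nat_lit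 566197048)⟩], [], [], [],
 ⟨⟨[(nat_lit 40), (nat_lit 60)], [(nat_lit 0), (nat_lit 2136)], [((nat_lit 0), (nat_lit 0), (nat_lit 0)), ((nat_lit 1000), (nat_lit 343), (nat_lit 808))], ((nat_lit 37), (nat_lit 100), (nat_lit 75))⟩, (nat_lit 67964), (nat_lit 87), (nat_lit 87), (nat_lit 0), (nat_lit 0), [(nat_lit 1513800036), (nat_lit 541360000)], [(nat_lit 0), (nat_lit 0)], [(nat_lit 26987837200), (nat_lit 27576765795), (nat_lit 28480414861), (nat_lit 29044116588), (nat_lit 27969237457), (nat_lit 28457784412), (nat_lit 29210474685), (nat_lit 29668263554)], (nat_lit 0), (nat_lit 0), (nat_lit 0), (nat_lit 0), (nat_lit 0), (nat_lit 0), [], [(nat_lit 1), (nat_lit 38), (nat_lit 260), (nat_lit 50), (nat_lit 12)]⟩,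
 ⟨⟨[(nat_lit 60), (nat_lit 100), (nat_lit 140)], [(nat_lit 0), (nat_lit 0), (nat_lit 2047)], [((nat_lit 0), (nat_lit 0), (nat_lit 0)), ((nat_lit 0), (nat_lit 0), (nat_lit 0)), ((nat_lit 1000), (nat_lit 993), (nat_lit 781))], ((nat_lit 95), (nat_lit 100), (nat_lit 65))⟩, (nat_lit 932279), (nat_lit 699), (nat_lit 699), (nat_lit 0), (nat_lit 1145642), [(nat_lit 984600000), (nat_lit 1875000000), (nat_lit 2952600000)], [], [(nat_lit 10977114760), (nat_lit 11110291380), (nat_lit 11299897915), (nat_lit 11417491808), (nat_lit 10249882400), (nat_lit 10294453940), (nat_lit 10411214938), (nat_lit 10526817290)], (nat_lit 1271251), (nat_lit 1271251), (nat_lit 1271251), (nat_lit 1271251), (nat_lit 0), (nat_lit 2542501), [(nat_lit 780000), (nat_lit 1435001), (nat_lit 1271251)], [(nat_lit 11), (nat_lit 55), (nat_lit 317), (nat_lit 100), (nat_lit 8)]⟩,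
 ⟨⟨[(nat_lit 120), (nat_lit 160), (nat_lit 180)], [(nat_lit 0), (nat_lit 533), (nat_lit 2066)], [((nat_lit 0), (nat_lit 0), (nat_lit 0)), ((nat_lit 960), (nat_lit 1000), (nat_lit 200)), ((nat_lit 615), (nat_lit 1000), (nat_lit 729))], ((nat_lit 100), (nat_lit 72), (nat_lit 63))⟩, (nat_lit 244819), (nat_lit 300), (nat_lit 1607), (nat_lit 5710400), (nat_lit 2606371), [(nat_lit 685248000), (nat_lit 1020992000), (nat_lit 1208988000)], [], [(nat_lit 5015484933), (nat_lit 4936737222), (nat_lit 4740917138), (nat_lit 4657824790), (nat_lit 4966570116), (nat_lit 4110234363), (nat_lit 6033438570), (nat_lit 5201664510)], (nat_lit 1271251), (nat_lit 1271251), (nat_lit 704688), (nat_lit 1433125), (nat_lit 0), (nat_lit 2542501), [(nat_lit 1695001), (nat_lit 1271251), (nat_lit 1271251)], [(nat_lit 28), (nat_lit 65), (nat_lit 500), (nat_lit 200), (nat_lit 12)]⟩⟩)))))))) (.trZ (nat_lit 1) (nat_lit 2) (nat_lit 5) (nat_lit 100) (nat_lit 87) (nat_lit 41) (nat_lit 10)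 (.spl (nat_lit 3) (nat_lit 320) (.leaf ⟨(nat_lit 653), (nat_lit 239), (nat_lit 0), (nat_lit 108), (nat_lit 0), (nat_lit 2997), (nat_lit 2012), (nat_lit 999), (nat_lit 0), (nat_lit 0), (nat_lit 261200), [((nat_lit 400), [((nat_lit 28), (nat_lit 1), (nat_lit 653))])], ⟨(nat_lit 7), false, true, false, (nat_lit 306), (nat_lit 0), (nat_lit 2237), [(nat_lit 1726954), (nat_lit 1724051), (nat_lit 1748802), (nat_lit 1748125), (nat_lit 1784917), (nat_lit 1774999), (nat_lit 1807594), (nat_lit 1799902)]⟩, ⟨(nat_lit 4), false, false, false, (nat_lit 169), (nat_lit 0), (nat_lit 2237), [(nat_lit 1316293), (nat_lit 1333360), (nat_lit 1359989), (nat_lit 1381507), (nat_lit 1477224), (nat_lit 1474999), (nat_lit 1521847), (nat_lit 1524073)]⟩, (nat_lit 5157896), (nat_lit 36374656), (nat_lit 22091973), (nat_lit 8533371), (nat_lit 4), (nat_lit 0), [], [], [], [],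
 ⟨⟨[(nat_lit 40), (nat_lit 60)], [(nat_lit 0), (nat_lit 1539)], [((nat_lit 0), (nat_lit 0), (nat_lit 0)), ((nat_lit 1000), (nat_lit 478), (nat_lit 704))], ((nat_lit 48), (nat_lit 100), (nat_lit 69))⟩, (nat_lit 0), (nat_lit 84), (nat_lit 84), (nat_lit 0), (nat_lit 0), [(nat_lit 1534971601), (nat_lit 1350948400)], [(nat_lit 0), (nat_lit 0)], [(nat_lit 24748872899), (nat_lit 25975202442), (nat_lit 26366277096), (nat_lit 27529415041), (nat_lit 26118779757), (nat_lit 27179985936), (nat_lit 27528075344), (nat_lit 28504165398)], (nat_lit 0), (nat_lit 0), (nat_lit 0), (nat_lit 0), (nat_lit 0), (nat_lit 0), [], [(nat_lit 1), (nat_lit 38), (nat_lit 260), (nat_lit 50), (nat_lit 13)]⟩,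
 ⟨⟨[(nat_lit 60), (nat_lit 100), (nat_lit 120)], [(nat_lit 0), (nat_lit 609), (nat_lit 1609)], [((nat_lit 0), (nat_lit 0), (nat_lit 0)), ((nat_lit 1000), (nat_lit 905), (nat_lit 238)), ((nat_lit 1000), (nat_lit 882), (nat_lit 668))], ((nat_lit 88), (nat_lit 100), (nat_lit 63))⟩, (nat_lit 1795639), (nat_lit 732), (nat_lit 732), (nat_lit 0), (nat_lit 1380773), [(nat_lit 1138854000), (nat_lit 2168750000), (nat_lit 2764896000)], [], [(nat_lit 10777795187), (nat_lit 10930955836), (nat_lit 11068429411), (nat_lit 11227277004), (nat_lit 11482326364), (nat_lit 11572393294), (nat_lit 11651546730), (nat_lit 11811597446)], (nat_lit 1271251), (nat_lit 1271251), (nat_lit 1271251), (nat_lit 1271251), (nat_lit 54688), (nat_lit 2774063), [(nat_lit 780000), (nat_lit 1435001), (nat_lit 1271251)], [(nat_lit 10), (nat_lit 54), (nat_lit 317), (nat_lit 100), (nat_lit 10)]⟩,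
 ⟨⟨[(nat_lit 120), (nat_lit 160), (nat_lit 180)], [(nat_lit 0), (nat_lit 533), (nat_lit 2066)], [((nat_lit 0), (nat_lit 0), (nat_lit 0)), ((nat_lit 960), (nat_lit 1000), (nat_lit 200)), ((nat_lit 615), (nat_lit 1000), (nat_lit 729))], ((nat_lit 100), (nat_lit 72), (nat_lit 63))⟩, (nat_lit 252878), (nat_lit 300), (nat_lit 1698), (nat_lit 7171201), (nat_lit 2784697), [(nat_lit 860544000), (nat_lit 1282176000), (nat_lit 1518264000)], [], [(nat_lit 7541888587), (nat_lit 7424452573), (nat_lit 7169423076), (nat_lit 7052343081), (nat_lit 6371520412), (nat_lit 6253672551), (nat_lit 7565523109), (nat_lit 6686242395)], (nat_lit 1271251), (nat_lit 1271251), (nat_lit 559688), (nat_lit 1429376), (nat_lit 54688), (nat_lit 2774063), [(nat_lit 1695001), (nat_lit 1271251), (nat_lit 1271251)], [(nat_lit 28), (nat_lit 65), (nat_lit 526), (nat_lit 225), (nat_lit 12)]⟩⟩) (.trX (nat_lit 5) (nat_lit 3) (nat_lit 4) (nat_lit 80) (nat_lit 60) (nat_lit 100) (nat_lit 360)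 (.leaf ⟨(nat_lit 553), (nat_lit 316), (nat_lit 0), (nat_lit 131), (nat_lit 0), (nat_lit 3267), (nat_lit 2594), (nat_lit 1249), (nat_lit 0), (nat_lit 0), (nat_lit 292400), [((nat_lit 400), [((nat_lit 28), (nat_lit 1), (nat_lit 197)), ((nat_lit 43), (nat_lit 2), (nat_lit 356))])], ⟨(nat_lit 8), false, true, true, (nat_lit 333), (nat_lit 0), (nat_lit 2237), [(nat_lit 1784917), (nat_lit 1774999), (nat_lit 1807594), (nat_lit 1799902), (nat_lit 1870437), (nat_lit 1849996), (nat_lit 1893212), (nat_lit 1874997)]⟩, ⟨(nat_lit 4), false, false, false, (nat_lit 169), (nat_lit 0), (nat_lit 2237), [(nat_lit 1316293), (nat_lit 1333360), (nat_lit 1359989), (nat_lit 1381507), (nat_lit 1477224), (nat_lit 1474999), (nat_lit 1521847), (nat_lit 1524073)]⟩, (nat_lit 5191613), (nat_lit 34396981), (nat_lit 24418555), (nat_lit 8184464), (nat_lit 4), (nat_lit 0), [⟨(nat_lit 1), (nat_lit 74), (nat_lit 37), (nat_lit 100), (nat_lit 441438456)⟩], [], [], [],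
 ⟨⟨[(nat_lit 40), (nat_lit 60)], [(nat_lit 0), (nat_lit 1539)], [((nat_lit 0), (nat_lit 0), (nat_lit 0)), ((nat_lit 1000), (nat_lit 478), (nat_lit 704))], ((nat_lit 48), (nat_lit 100), (nat_lit 69))⟩, (nat_lit 0), (nat_lit 99), (nat_lit 99), (nat_lit 0), (nat_lit 0), [(nat_lit 1574112401), (nat_lit 1305620400)], [(nat_lit 0), (nat_lit 0)], [(nat_lit 26690276896), (nat_lit 27981976351), (nat_lit 29976836944), (nat_lit 31072356960), (nat_lit 27760988611), (nat_lit 28716730521), (nat_lit 30415253566), (nat_lit 31372225901)], (nat_lit 0), (nat_lit 0), (nat_lit 0), (nat_lit 0), (nat_lit 0), (nat_lit 0), [], [(nat_lit 1), (nat_lit 38), (nat_lit 260), (nat_lit 50), (nat_lit 12)]⟩,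
 ⟨⟨[(nat_lit 60), (nat_lit 100), (nat_lit 120)], [(nat_lit 0), (nat_lit 609), (nat_lit 1609)], [((nat_lit 0), (nat_lit 0), (nat_lit 0)), ((nat_lit 1000), (nat_lit 905), (nat_lit 238)), ((nat_lit 1000), (nat_lit 882), (nat_lit 668))], ((nat_lit 88), (nat_lit 100), (nat_lit 63))⟩, (nat_lit 2423073), (nat_lit 726), (nat_lit 726), (nat_lit 0), (nat_lit 1380773), [(nat_lit 1467054000), (nat_lit 2793750000), (nat_lit 3561696000)], [], [(nat_lit 14178487026), (nat_lit 14414186917), (nat_lit 15141798508), (nat_lit 15656152173), (nat_lit 14698902741), (nat_lit 14813769512), (nat_lit 15552642659), (nat_lit 15809956202)], (nat_lit 1271251), (nat_lit 1271251), (nat_lit 1271251), (nat_lit 1271251), (nat_lit 54688), (nat_lit 2559376), [(nat_lit 780000), (nat_lit 1435001), (nat_lit 1271251)], [(nat_lit 10), (nat_lit 54), (nat_lit 317), (nat_lit 100), (nat_lit 9)]⟩,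
 ⟨⟨[(nat_lit 120), (nat_lit 160), (nat_lit 180)], [(nat_lit 0), (nat_lit 533), (nat_lit 2066)], [((nat_lit 0), (nat_lit 0), (nat_lit 0)), ((nat_lit 960), (nat_lit 1000), (nat_lit 200)), ((nat_lit 615), (nat_lit 1000), (nat_lit 729))], ((nat_lit 100), (nat_lit 72), (nat_lit 63))⟩, (nat_lit 306732), (nat_lit 300), (nat_lit 1698), (nat_lit 8698400), (nat_lit 2784697), [(nat_lit 1043808000), (nat_lit 1555232000), (nat_lit 1841598000)], [], [(nat_lit 8732965966), (nat_lit 8584732944), (nat_lit 8263630788), (nat_lit 8115875678), (nat_lit 7327493551), (nat_lit 7179518910), (nat_lit 8912228974), (nat_lit 7802308246)], (nat_lit 1271251), (nat_lit 1271251), (nat_lit 559688), (nat_lit 1429376), (nat_lit 54688), (nat_lit 2559376), [(nat_lit 1695001), (nat_lit 1271251), (nat_lit 1271251)], [(nat_lit 28), (nat_lit 65), (nat_lit 522), (nat_lit 200), (nat_lit 12)]⟩⟩)))))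
noncomputable def c14_40 : Tr Lf :=
 (.spl (nat_lit 1) (nat_lit 280) (.trX (nat_lit 3) (nat_lit 0) (nat_lit 1) (nat_lit 48) (nat_lit 71) (nat_lit 100) (nat_lit 360) (.spl (nat_lit 1) (nat_lit 260) (.trX (nat_lit 3) (nat_lit 0) (nat_lit 1) (nat_lit 46) (nat_lit 76) (nat_lit 100) (nat_lit 340) (.spl (nat_lit 0) (nat_lit 390) (.leaf ⟨(nat_lit 893), (nat_lit 45), (nat_lit 0), (nat_lit 62), (nat_lit 0), (nat_lit 2964), (nat_lit 1132), (nat_lit 701), (nat_lit 0), (nat_lit 0), (nat_lit 357200), [((nat_lit 390), [((nat_lit 28), (nat_lit 1), (nat_lit 893))])], ⟨(nat_lit 7), false, true, true, (nat_lit 284), (nat_lit 1581), (nat_lit 2237), [(nat_lit 1659578), (nat_lit 1655900), (nat_lit 1682352), (nat_lit 1679215), (nat_lit 1745101), (nat_lit 1737854), (nat_lit 1767876), (nat_lit 1761169)]⟩, ⟨(nat_lit 5), false, true, true, (nat_lit 231), (nat_lit 1581), (nat_lit 2237), [(nat_lit 1477224), (nat_lit 1476683), (nat_lit 1522729), (nat_lit 1523269), (nat_lit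 1634017), (nat_lit 1626932), (nat_lit 1679566), (nat_lit 1673562)]⟩, (nat_lit 5515133), (nat_lit 34745375), (nat_lit 18850416), (nat_lit 13404209), (nat_lit 5), (nat_lit 0), [⟨(nat_lit 1), (nat_lit 83), (nat_lit 39), (nat_lit 100), (nat_lit 154610919)⟩], [⟨(nat_lit 1), (nat_lit 93), (nat_lit 38), (nat_lit 100), (nat_lit 80074014)⟩], [], [⟨(nat_lit 0), (nat_lit 100), (nat_lit 87), (nat_lit 79), (nat_lit 101149572)⟩],
 ⟨⟨[(nat_lit 40), (nat_lit 60)], [(nat_lit 0), (nat_lit 1539)], [((nat_lit 0), (nat_lit 0), (nat_lit 0)), ((nat_lit 1000), (nat_lit 478), (nat_lit 704))], ((nat_lit 48), (nat_lit 100), (nat_lit 69))⟩, (nat_lit 0), (nat_lit 65), (nat_lit 65), (nat_lit 0), (nat_lit 0), [(nat_lit 1438299602), (nat_lit 641220400)], [(nat_lit 0), (nat_lit 0)], [(nat_lit 25949977364), (nat_lit 26478186188), (nat_lit 28200462761), (nat_lit 28665268203), (nat_lit 28920267989), (nat_lit 29354143986), (nat_lit 30836852688), (nat_lit 31256760205)], (nat_lit 0),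 (nat_lit 0), (nat_lit 0), (nat_lit 0), (nat_lit 0), (nat_lit 0), [], [(nat_lit 1), (nat_lit 38), (nat_lit 203), (nat_lit 0), (nat_lit 8)]⟩,
 ⟨⟨[(nat_lit 80), (nat_lit 120), (nat_lit 160)], [(nat_lit 0), (nat_lit 0), (nat_lit 2132)], [((nat_lit 0), (nat_lit 0), (nat_lit 0)), ((nat_lit 0), (nat_lit 0), (nat_lit 0)), ((nat_lit 858), (nat_lit 1000), (nat_lit 713))], ((nat_lit 100), (nat_lit 91), (nat_lit 64))⟩, (nat_lit 397213), (nat_lit 794), (nat_lit 794), (nat_lit 0), (nat_lit 1199710), [(nat_lit 501616000), (nat_lit 852576000), (nat_lit 1270304000)], [], [(nat_lit 3381430911), (nat_lit 3407243060), (nat_lit 3686442422), (nat_lit 3794608086), (nat_lit 2803517960), (nat_lit 2823329329), (nat_lit 2915877311), (nat_lit 2946282051)], (nat_lit 1271251), (nat_lit 1271251), (nat_lit 1271251), (nat_lit 1271251), (nat_lit 54688), (nat_lit 780000), [(nat_lit 1100000), (nat_lit 1785001), (nat_lit 1271251)], [(nat_lit 18), (nat_lit 59), (nat_lit 428), (nat_lit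 200), (nat_lit 11)]⟩,
 ⟨⟨[(nat_lit 120), (nat_lit 160), (nat_lit 180)], [(nat_lit 0), (nat_lit 533), (nat_lit 2066)], [((nat_lit 0), (nat_lit 0), (nat_lit 0)), ((nat_lit 960), (nat_lit 1000), (nat_lit 200)), ((nat_lit 615), (nat_lit 1000), (nat_lit 729))], ((nat_lit 100), (nat_lit 72), (nat_lit 63))⟩, (nat_lit 145171), (nat_lit 300), (nat_lit 1307), (nat_lit 4116800), (nat_lit 2067450), [(nat_lit 494016000), (nat_lit 736064000), (nat_lit 871596000)], [], [(nat_lit 3290262468), (nat_lit 3226812907), (nat_lit 3225637158), (nat_lit 3170947572), (nat_lit 2835268461), (nat_lit 2772664698), (nat_lit 2738322326), (nat_lit 2684541519)], (nat_lit 1271251), (nat_lit 1271251), (nat_lit 1271251), (nat_lit 1271251), (nat_lit 54688), (nat_lit 780000), [(nat_lit 1695001), (nat_lit 1271251), (nat_lit 1271251)], [(nat_lit 28), (nat_lit 65), (nat_lit 408), (nat_lit 175), (nat_lit 9)]⟩⟩) (.trX (nat_lit 3) (nat_lit 0) (nat_lit 1) (nat_lit 33) (nat_lit 85) (nat_lit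 100) (nat_lit 320) (.trX (nat_lit 4) (nat_lit 0) (nat_lit 2) (nat_lit 31) (nat_lit 92) (nat_lit 100) (nat_lit 290) (.leaf ⟨(nat_lit 891), (nat_lit 47), (nat_lit 0), (nat_lit 62), (nat_lit 0), (nat_lit 3000), (nat_lit 1170), (nat_lit 708), (nat_lit 0), (nat_lit 0), (nat_lit 356400), [((nat_lit 400), [((nat_lit 28), (nat_lit 1), (nat_lit 891))])], ⟨(nat_lit 7), false, true, true, (nat_lit 276), (nat_lit 0), (nat_lit 1582), [(nat_lit 1655899), (nat_lit 1649997), (nat_lit 1679215), (nat_lit 1674999), (nat_lit 1710533), (nat_lit 1699996), (nat_lit 1733849), (nat_lit 1724997)]⟩, ⟨(nat_lit 5), false, true, true, (nat_lit 223), (nat_lit 0), (nat_lit 1582), [(nat_lit 1476683), (nat_lit 1474999), (nat_lit 1522658), (nat_lit 1524343), (nat_lit 1599609), (nat_lit 1587494), (nat_lit 1646241), (nat_lit 1637496)]⟩, (nat_lit 5454270), (nat_lit 35650254), (nat_lit 18354964), (nat_lit 12994782), (nat_lit 5), (nat_lit 0), [⟨(nat_lit 1), (nat_lit 92), (nat_lit 23),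 (nat_lit 100), (nat_lit 321410460)⟩], [⟨(nat_lit 1), (nat_lit 98), (nat_lit 22), (nat_lit 100), (nat_lit 183786318)⟩], [], [⟨(nat_lit 0), (nat_lit 100), (nat_lit 89), (nat_lit 70), (nat_lit 90161373)⟩],
 ⟨⟨[(nat_lit 40), (nat_lit 60)], [(nat_lit 0), (nat_lit 2136)], [((nat_lit 0), (nat_lit 0), (nat_lit 0)), ((nat_lit 1000), (nat_lit 343), (nat_lit 808))], ((nat_lit 37), (nat_lit 100), (nat_lit 75))⟩, (nat_lit 0), (nat_lit 63), (nat_lit 63), (nat_lit 0), (nat_lit 0), [(nat_lit 1439105203), (nat_lit 647134800)], [(nat_lit 0), (nat_lit 0)], [(nat_lit 26455636656), (nat_lit 26986457406), (nat_lit 27822685156), (nat_lit 28345608000), (nat_lit 28742255438), (nat_lit 29236144250), (nat_lit 29975872438), (nat_lit 30435397500)], (nat_lit 0), (nat_lit 0), (nat_lit 0), (nat_lit 0), (nat_lit 0), (nat_lit 0), [], [(nat_lit 1), (nat_lit 38), (nat_lit 203), (nat_lit 0), (nat_lit 8)]⟩,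
 ⟨⟨[(nat_lit 80), (nat_lit 120), (nat_lit 160)], [(nat_lit 0), (nat_lit 0), (nat_lit 2132)], [((nat_lit 0), (nat_lit 0), (nat_lit 0)), ((nat_lit 0), (nat_lit 0), (nat_lit 0)), ((nat_lit 858), (nat_lit 1000), (nat_lit 713))], ((nat_lit 100), (nat_lit 91), (nat_lit 64))⟩, (nat_lit 470620), (nat_lit 864), (nat_lit 864), (nat_lit 0), (nat_lit 1370261), [(nat_lit 510992000), (nat_lit 868512000), (nat_lit 1294048000)], [], [(nat_lit 3372712089), (nat_lit 3398804117), (nat_lit 3463395689), (nat_lit 3528793820), (nat_lit 2779745008), (nat_lit 2793026520), (nat_lit 2825066992), (nat_lit 2858409518)], (nat_lit 1271251), (nat_lit 1271251), (nat_lit 1271251), (nat_lit 1271251), (nat_lit 54688), (nat_lit 780000), [(nat_lit 1100000), (nat_lit 1785001), (nat_lit 1271251)], [(nat_lit 18), (nat_lit 59), (nat_lit 401), (nat_lit 175), (nat_lit 10)]⟩,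
 ⟨⟨[(nat_lit 120), (nat_lit 160), (nat_lit 180)], [(nat_lit 0), (nat_lit 533), (nat_lit 2066)], [((nat_lit 0), (nat_lit 0), (nat_lit 0)), ((nat_lit 960), (nat_lit 1000), (nat_lit 200)), ((nat_lit 615), (nat_lit 1000), (nat_lit 729))], ((nat_lit 100), (nat_lit 72), (nat_lit 63))⟩, (nat_lit 145171), (nat_lit 300), (nat_lit 1430), (nat_lit 4116800), (nat_lit 2339264), [(nat_lit 494016000), (nat_lit 736064000), (nat_lit 871596000)], [], [(nat_lit 3268734132), (nat_lit 3204278672), (nat_lit 3206971918), (nat_lit 3154011763), (nat_lit 2808412117), (nat_lit 2744822075), (nat_lit 2716153374), (nat_lit 2663924999)], (nat_lit 1271251), (nat_lit 1271251), (nat_lit 1271251), (nat_lit 1271251), (nat_lit 54688), (nat_lit 780000), [(nat_lit 1695001), (nat_lit 1271251), (nat_lit 1271251)], [(nat_lit 28), (nat_lit 65), (nat_lit 437), (nat_lit 175), (nat_lit 10)]⟩⟩))))) (.leaf ⟨(nat_lit 583), (nat_lit 278), (nat_lit 0), (nat_lit 139), (nat_lit 0), (nat_lit 3099),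 (nat_lit 3423), (nat_lit 1641), (nat_lit 0), (nat_lit 0), (nat_lit 349800), [((nat_lit 400), [((nat_lit 43), (nat_lit 2), (nat_lit 583))])], ⟨(nat_lit 7), false, true, true, (nat_lit 298), (nat_lit 0), (nat_lit 2237), [(nat_lit 1682352), (nat_lit 1674999), (nat_lit 1705063), (nat_lit 1699935), (nat_lit 1796379), (nat_lit 1774994), (nat_lit 1819154), (nat_lit 1799995)]⟩, ⟨(nat_lit 5), false, true, true, (nat_lit 229), (nat_lit 0), (nat_lit 2237), [(nat_lit 1477224), (nat_lit 1474999), (nat_lit 1521847), (nat_lit 1524073), (nat_lit 1634011), (nat_lit 1612493), (nat_lit 1679562), (nat_lit 1662495)]⟩, (nat_lit 5538795), (nat_lit 33984187), (nat_lit 19966929), (nat_lit 13048884), (nat_lit 5), (nat_lit 0), [⟨(nat_lit 1), (nat_lit 83), (nat_lit 33), (nat_lit 100), (nat_lit 376534751)⟩], [⟨(nat_lit 1), (nat_lit 95), (nat_lit 31), (nat_lit 100), (nat_lit 13748713)⟩], [], [⟨(nat_lit 0), (nat_lit 100), (nat_lit 83), (nat_lit 83), (nat_lit 179387938)⟩],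
 ⟨⟨[(nat_lit 40), (nat_lit 60)], [(nat_lit 0), (nat_lit 1539)], [((nat_lit 0), (nat_lit 0), (nat_lit 0)), ((nat_lit 1000), (nat_lit 478), (nat_lit 704))], ((nat_lit 48), (nat_lit 100), (nat_lit 69))⟩, (nat_lit 54889), (nat_lit 72), (nat_lit 72), (nat_lit 0), (nat_lit 0), [(nat_lit 1561302009), (nat_lit 999438400)], [(nat_lit 0), (nat_lit 0)], [(nat_lit 26095584703), (nat_lit 27171591796), (nat_lit 29246636007), (nat_lit 30236952459), (nat_lit 29079047439), (nat_lit 29961399598), (nat_lit 31764984034), (nat_lit 32577246262)], (nat_lit 0), (nat_lit 0), (nat_lit 0), (nat_lit 0), (nat_lit 0), (nat_lit 0), [], [(nat_lit 1), (nat_lit 38), (nat_lit 203), (nat_lit 0), (nat_lit 8)]⟩,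
 ⟨⟨[(nat_lit 80), (nat_lit 120), (nat_lit 140)], [(nat_lit 0), (nat_lit 528), (nat_lit 1572)], [((nat_lit 0), (nat_lit 0), (nat_lit 0)), ((nat_lit 1000), (nat_lit 959), (nat_lit 206)), ((nat_lit 966), (nat_lit 1000), (nat_lit 679))], ((nat_lit 100), (nat_lit 98), (nat_lit 66))⟩, (nat_lit 3499623), (nat_lit 740), (nat_lit 740), (nat_lit 0), (nat_lit 1238520), [(nat_lit 1954896000), (nat_lit 3322656000), (nat_lit 4104114000)], [], [(nat_lit 10254701956), (nat_lit 10928448952), (nat_lit 14229521676), (nat_lit 14861389235), (nat_lit 9025313754), (nat_lit 9209046435), (nat_lit 11261322495), (nat_lit 11844391941)], (nat_lit 1271251), (nat_lit 1271251), (nat_lit 1271251), (nat_lit 1271251), (nat_lit 54688), (nat_lit 780000), [(nat_lit 1100000), (nat_lit 1785001), (nat_lit 1271251)], [(nat_lit 17), (nat_lit 58), (nat_lit 317), (nat_lit 100), (nat_lit 9)]⟩,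
 ⟨⟨[(nat_lit 120), (nat_lit 160), (nat_lit 180)], [(nat_lit 0), (nat_lit 533), (nat_lit 2066)], [((nat_lit 0), (nat_lit 0), (nat_lit 0)), ((nat_lit 960), (nat_lit 1000), (nat_lit 200)), ((nat_lit 615), (nat_lit 1000), (nat_lit 729))], ((nat_lit 100), (nat_lit 72), (nat_lit 63))⟩, (nat_lit 382176), (nat_lit 300), (nat_lit 1487), (nat_lit 9229600), (nat_lit 2457206), [(nat_lit 1107552000), (nat_lit 1650208000), (nat_lit 1954062000)], [], [(nat_lit 7163108179), (nat_lit 7059441728), (nat_lit 7107049460), (nat_lit 6974966555), (nat_lit 6090215129), (nat_lit 5940082825), (nat_lit 5957958839), (nat_lit 5828131287)], (nat_lit 1271251), (nat_lit 1271251), (nat_lit 1271251), (nat_lit 1271251), (nat_lit 54688), (nat_lit 780000), [(nat_lit 1695001), (nat_lit 1271251), (nat_lit 1271251)], [(nat_lit 28), (nat_lit 65), (nat_lit 453), (nat_lit 175), (nat_lit 10)]⟩⟩))) (.spl (nat_lit 6) (nat_lit 24) (.leaf ⟨(nat_lit 637), (nat_lit 263), (nat_lit 0), (nat_lit 100),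 (nat_lit 0), (nat_lit 3070), (nat_lit 2820), (nat_lit 1153), (nat_lit 0), (nat_lit 0), (nat_lit 382200), [((nat_lit 400), [((nat_lit 43), (nat_lit 2), (nat_lit 637))])], ⟨(nat_lit 7), false, true, true, (nat_lit 317), (nat_lit 0), (nat_lit 2237), [(nat_lit 1705063), (nat_lit 1699935), (nat_lit 1748802), (nat_lit 1748125), (nat_lit 1847661), (nat_lit 1824994), (nat_lit 1893212), (nat_lit 1874997)]⟩, ⟨(nat_lit 5), false, true, true, (nat_lit 229), (nat_lit 0), (nat_lit 2237), [(nat_lit 1477224), (nat_lit 1474999), (nat_lit 1521847), (nat_lit 1524073), (nat_lit 1634011), (nat_lit 1612493), (nat_lit 1679562), (nat_lit 1662495)]⟩, (nat_lit 5570179), (nat_lit 32771736), (nat_lit 21552834), (nat_lit 12675430), (nat_lit 5), (nat_lit 0), [], [⟨(nat_lit 1), (nat_lit 95), (nat_lit 31), (nat_lit 100), (nat_lit 180177135)⟩], [], [⟨(nat_lit 0), (nat_lit 100), (nat_lit 79), (nat_lit 87), (nat_lit 137315329)⟩],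
 ⟨⟨[(nat_lit 40), (nat_lit 60)], [(nat_lit 0), (nat_lit 1539)], [((nat_lit 0), (nat_lit 0), (nat_lit 0)), ((nat_lit 1000), (nat_lit 478), (nat_lit 704))], ((nat_lit 54), (nat_lit 100), (nat_lit 59))⟩, (nat_lit 204778), (nat_lit 76), (nat_lit 76), (nat_lit 0), (nat_lit 0), [(nat_lit 1539378027), (nat_lit 788017600)], [(nat_lit 0), (nat_lit 0)], [(nat_lit 26073303604), (nat_lit 27145102594), (nat_lit 30145580808), (nat_lit 31081059605), (nat_lit 29053936775), (nat_lit 29932498762), (nat_lit 32499738307), (nat_lit 33270056843)], (nat_lit 0), (nat_lit 0), (nat_lit 0), (nat_lit 0), (nat_lit 0), (nat_lit 0), [], [(nat_lit 1), (nat_lit 38), (nat_lit 203), (nat_lit 0), (nat_lit 8)]⟩,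
 ⟨⟨[(nat_lit 60), (nat_lit 100), (nat_lit 120)], [(nat_lit 0), (nat_lit 0), (nat_lit 1164)], [((nat_lit 0), (nat_lit 0), (nat_lit 0)), ((nat_lit 0), (nat_lit 0), (nat_lit 0)), ((nat_lit 1000), (nat_lit 933), (nat_lit 572))], ((nat_lit 92), (nat_lit 100), (nat_lit 48))⟩, (nat_lit 1638912), (nat_lit 629), (nat_lit 629), (nat_lit 0), (nat_lit 1145738), [(nat_lit 1191366000), (nat_lit 2268750000), (nat_lit 2892384000)], [], [(nat_lit 12431150250), (nat_lit 12799729921), (nat_lit 13583654045), (nat_lit 14478596937), (nat_lit 11227063352), (nat_lit 11545586571), (nat_lit 12239297603), (nat_lit 12446393841)], (nat_lit 1271251), (nat_lit 1271251), (nat_lit 1271251), (nat_lit 1271251), (nat_lit 54688), (nat_lit 780000), [(nat_lit 780000), (nat_lit 1435001), (nat_lit 1271251)], [(nat_lit 10), (nat_lit 54), (nat_lit 260), (nat_lit 30), (nat_lit 8)]⟩,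
 ⟨⟨[(nat_lit 120), (nat_lit 140), (nat_lit 160)], [(nat_lit 0), (nat_lit 266), (nat_lit 862)], [((nat_lit 0), (nat_lit 0), (nat_lit 0)), ((nat_lit 960), (nat_lit 1000), (nat_lit 200)), ((nat_lit 874), (nat_lit 1000), (nat_lit 406))], ((nat_lit 100), (nat_lit 83), (nat_lit 48))⟩, (nat_lit 425962), (nat_lit 300), (nat_lit 1566), (nat_lit 6640000), (nat_lit 2767327), [(nat_lit 796800000), (nat_lit 984200000), (nat_lit 1187200000)], [], [(nat_lit 4437984408), (nat_lit 4371028428), (nat_lit 4423304983), (nat_lit 4370052451), (nat_lit 3938027138), (nat_lit 3665061834), (nat_lit 3670458209), (nat_lit 3609564244)], (nat_lit 1271251), (nat_lit 1271251), (nat_lit 1271251), (nat_lit 1271251), (nat_lit 54688), (nat_lit 780000), [(nat_lit 1695001), (nat_lit 1271251), (nat_lit 1271251)], [(nat_lit 27), (nat_lit 62), (nat_lit 473), (nat_lit 175), (nat_lit 12)]⟩⟩) (.leaf ⟨(nat_lit 22), (nat_lit 765), (nat_lit 0), (nat_lit 213), (nat_lit 0), (nat_lit 3495), (nat_lit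 7427), (nat_lit 3037), (nat_lit 0), (nat_lit 0), (nat_lit 88000), [((nat_lit 400), [((nat_lit 43), (nat_lit 5), (nat_lit 22))])], ⟨(nat_lit 7), false, true, true, (nat_lit 317), (nat_lit 0), (nat_lit 2237), [(nat_lit 1705063), (nat_lit 1699935), (nat_lit 1748802), (nat_lit 1748125), (nat_lit 1847661), (nat_lit 1824994), (nat_lit 1893212), (nat_lit 1874997)]⟩, ⟨(nat_lit 5), false, true, true, (nat_lit 229), (nat_lit 0), (nat_lit 2237), [(nat_lit 1477224), (nat_lit 1474999), (nat_lit 1521847), (nat_lit 1524073), (nat_lit 1634011), (nat_lit 1612493), (nat_lit 1679562), (nat_lit 1662495)]⟩, (nat_lit 5570179), (nat_lit 32771736), (nat_lit 21552834), (nat_lit 12675430), (nat_lit 5), (nat_lit 0), [], [⟨(nat_lit 1), (nat_lit 95), (nat_lit 31), (nat_lit 100), (nat_lit 476346083)⟩], [⟨(nat_lit 0), (nat_lit 100), (nat_lit 92), (nat_lit 31), (nat_lit 209213035)⟩], [⟨(nat_lit 0), (nat_lit 100), (nat_lit 79), (nat_lit 87), (nat_lit 91564627)⟩],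
 ⟨⟨[(nat_lit 40), (nat_lit 60)], [(nat_lit 0), (nat_lit 1539)], [((nat_lit 0), (nat_lit 0), (nat_lit 0)), ((nat_lit 1000), (nat_lit 478), (nat_lit 704))], ((nat_lit 48), (nat_lit 100), (nat_lit 69))⟩, (nat_lit 629474), (nat_lit 76), (nat_lit 76), (nat_lit 0), (nat_lit 0), [(nat_lit 1823484006), (nat_lit 2838752800)], [(nat_lit 0), (nat_lit 0)], [(nat_lit 26374190773), (nat_lit 27459659495), (nat_lit 30727362139), (nat_lit 31709210243), (nat_lit 29394501747), (nat_lit 30410810989), (nat_lit 33051991621), (nat_lit 33853363074)], (nat_lit 0), (nat_lit 0), (nat_lit 0), (nat_lit 0), (nat_lit 0), (nat_lit 0), [], [(nat_lit 1), (nat_lit 38), (nat_lit 203), (nat_lit 0), (nat_lit 8)]⟩,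
 ⟨⟨[(nat_lit 60), (nat_lit 100), (nat_lit 140)], [(nat_lit 0), (nat_lit 0), (nat_lit 2047)], [((nat_lit 0), (nat_lit 0), (nat_lit 0)), ((nat_lit 0), (nat_lit 0), (nat_lit 0)), ((nat_lit 1000), (nat_lit 993), (nat_lit 781))], ((nat_lit 95), (nat_lit 100), (nat_lit 65))⟩, (nat_lit 2496179), (nat_lit 519), (nat_lit 519), (nat_lit 0), (nat_lit 788614), [(nat_lit 3209796000), (nat_lit 6112500000), (nat_lit 9625476000)], [], [(nat_lit 31967961772), (nat_lit 33310635369), (nat_lit 36022900579), (nat_lit 38586309905), (nat_lit 28710232951), (nat_lit 29886918603), (nat_lit 32295757896), (nat_lit 33095338692)], (nat_lit 1271251), (nat_lit 1271251), (nat_lit 1271251), (nat_lit 1271251), (nat_lit 54688), (nat_lit 780000), [(nat_lit 780000), (nat_lit 1435001), (nat_lit 1271251)], [(nat_lit 11), (nat_lit 55), (nat_lit 238), (nat_lit 30), (nat_lit 6)]⟩,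
 ⟨⟨[(nat_lit 120), (nat_lit 160), (nat_lit 180)], [(nat_lit 0), (nat_lit 533), (nat_lit 2066)], [((nat_lit 0), (nat_lit 0), (nat_lit 0)), ((nat_lit 960), (nat_lit 1000), (nat_lit 200)), ((nat_lit 615), (nat_lit 1000), (nat_lit 729))], ((nat_lit 100), (nat_lit 72), (nat_lit 63))⟩, (nat_lit 498732), (nat_lit 300), (nat_lit 1288), (nat_lit 14143200), (nat_lit 2023584), [(nat_lit 1697184000), (nat_lit 2528736000), (nat_lit 2994354000)], [], [(nat_lit 10142816873), (nat_lit 9983511572), (nat_lit 10456745640), (nat_lit 10307268309), (nat_lit 8313114516), (nat_lit 7767955583), (nat_lit 8122441675), (nat_lit 7974350268)], (nat_lit 1271251), (nat_lit 1271251), (nat_lit 1271251), (nat_lit 1271251), (nat_lit 54688), (nat_lit 780000), [(nat_lit 1695001), (nat_lit 1271251), (nat_lit 1271251)], [(nat_lit 28), (nat_lit 65), (nat_lit 404), (nat_lit 175), (nat_lit 9)]⟩⟩)))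
noncomputable def c14_41 : Tr Lf :=
 (.stt (nat_lit 3) (.leaf ⟨(nat_lit 0), (nat_lit 0), (nat_lit 0), (nat_lit 1000), (nat_lit 0), (nat_lit 3659), (nat_lit 8074), (nat_lit 14261), (nat_lit 0), (nat_lit 0), (nat_lit 0), [], Pd.none, Pd.none, (nat_lit 0), (nat_lit 1), (nat_lit 0), (nat_lit 0), (nat_lit 0), (nat_lit 0), [], [⟨(nat_lit 1), (nat_lit 95), (nat_lit 31), (nat_lit 100), (nat_lit 592714073)⟩], [], [],
 ⟨⟨[(nat_lit 40), (nat_lit 60)], [(nat_lit 0), (nat_lit 1539)], [((nat_lit 0), (nat_lit 0), (nat_lit 0)), ((nat_lit 1000), (nat_lit 478), (nat_lit 704))], ((nat_lit 48), (nat_lit 100), (nat_lit 69))⟩, (nat_lit 6125961), (nat_lit 76), (nat_lit 76), (nat_lit 0), (nat_lit 0), [(nat_lit 2032000001), (nat_lit 3282000000)], [], [(nat_lit 26620517087), (nat_lit 27777784100), (nat_lit 30951861288), (nat_lit 31951602489), (nat_lit 29658619688), (nat_lit 30597248520), (nat_lit 33265096430), (nat_lit 34078450655)], (nat_lit 0), (nat_lit 0), (nat_lit 0),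 (nat_lit 0), (nat_lit 0), (nat_lit 0), [], [(nat_lit 1), (nat_lit 38), (nat_lit 203), (nat_lit 0), (nat_lit 8)]⟩,
 ⟨⟨[(nat_lit 80), (nat_lit 120), (nat_lit 160)], [(nat_lit 0), (nat_lit 0), (nat_lit 2132)], [((nat_lit 0), (nat_lit 0), (nat_lit 0)), ((nat_lit 0), (nat_lit 0), (nat_lit 0)), ((nat_lit 858), (nat_lit 1000), (nat_lit 713))], ((nat_lit 100), (nat_lit 91), (nat_lit 64))⟩, (nat_lit 10219235), (nat_lit 1010), (nat_lit 1010), (nat_lit 0), (nat_lit 1850848), [(nat_lit 4688000000), (nat_lit 7968000000), (nat_lit 11872000000)], [], [(nat_lit 43943168734), (nat_lit 43982452194), (nat_lit 44562264083), (nat_lit 44329682995), (nat_lit 42511866452), (nat_lit 41997232668), (nat_lit 42345288994), (nat_lit 41647057238)], (nat_lit 1271251), (nat_lit 1271251), (nat_lit 1271251), (nat_lit 1271251), (nat_lit 780000), (nat_lit 3072501), [(nat_lit 1100000), (nat_lit 1785001), (nat_lit 1271251)], [(nat_lit 18), (nat_lit 59), (nat_lit 538), (nat_lit 300),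 (nat_lit 13)]⟩,
 ⟨⟨[(nat_lit 120), (nat_lit 160), (nat_lit 180)], [(nat_lit 0), (nat_lit 533), (nat_lit 2066)], [((nat_lit 0), (nat_lit 0), (nat_lit 0)), ((nat_lit 960), (nat_lit 1000), (nat_lit 200)), ((nat_lit 615), (nat_lit 1000), (nat_lit 729))], ((nat_lit 100), (nat_lit 72), (nat_lit 63))⟩, (nat_lit 418703), (nat_lit 139), (nat_lit 139), (nat_lit 0), (nat_lit 0), [(nat_lit 7968000000), (nat_lit 11872000000), (nat_lit 14058000000)], [], [(nat_lit 5058957213), (nat_lit 7982981121), (nat_lit 17058849199), (nat_lit 19356504097), (nat_lit 35524040449), (nat_lit 36180079218), (nat_lit 41089792869), (nat_lit 41012674743)], (nat_lit 0), (nat_lit 0), (nat_lit 0), (nat_lit 0), (nat_lit 0), (nat_lit 0), [], [(nat_lit 28), (nat_lit 65), (nat_lit 483), (nat_lit 250), (nat_lit 11)]⟩⟩) (.spl (nat_lit 1) (nat_lit 280) (.trX (nat_lit 3) (nat_lit 0) (nat_lit 1) (nat_lit 48) (nat_lit 71) (nat_lit 100) (nat_lit 360) (.spl (nat_lit 1) (nat_lit 260) (.trX (nat_lit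 3) (nat_lit 0) (nat_lit 1) (nat_lit 46) (nat_lit 76) (nat_lit 100) (nat_lit 340) (.leaf ⟨(nat_lit 806), (nat_lit 70), (nat_lit 0), (nat_lit 124), (nat_lit 0), (nat_lit 2962), (nat_lit 2151), (nat_lit 1261), (nat_lit 0), (nat_lit 0), (nat_lit 483600), [((nat_lit 400), [((nat_lit 43), (nat_lit 2), (nat_lit 806))])], ⟨(nat_lit 7), false, true, true, (nat_lit 283), (nat_lit 0), (nat_lit 2237), [(nat_lit 1659577), (nat_lit 1649997), (nat_lit 1682352), (nat_lit 1674999), (nat_lit 1745097), (nat_lit 1724995), (nat_lit 1767872), (nat_lit 1749995)]⟩, ⟨(nat_lit 5), false, true, true, (nat_lit 229), (nat_lit 0), (nat_lit 2237), [(nat_lit 1477224), (nat_lit 1474999), (nat_lit 1521847), (nat_lit 1524073), (nat_lit 1634011), (nat_lit 1612493), (nat_lit 1679562), (nat_lit 1662495)]⟩, (nat_lit 5503543), (nat_lit 34926964), (nat_lit 18741435), (nat_lit 13331601), (nat_lit 5), (nat_lit 0), [⟨(nat_lit 1), (nat_lit 87), (nat_lit 32), (nat_lit 100), (nat_lit 462323366)⟩],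 [⟨(nat_lit 1), (nat_lit 95), (nat_lit 31), (nat_lit 100), (nat_lit 282439278)⟩], [], [],
 ⟨⟨[(nat_lit 40), (nat_lit 60)], [(nat_lit 0), (nat_lit 1539)], [((nat_lit 0), (nat_lit 0), (nat_lit 0)), ((nat_lit 1000), (nat_lit 478), (nat_lit 704))], ((nat_lit 48), (nat_lit 100), (nat_lit 69))⟩, (nat_lit 193733), (nat_lit 67), (nat_lit 67), (nat_lit 0), (nat_lit 0), [(nat_lit 1470764012), (nat_lit 126348800)], [(nat_lit 0), (nat_lit 0)], [(nat_lit 26016393554), (nat_lit 27072520988), (nat_lit 28266460355), (nat_lit 29195840044), (nat_lit 28986489037), (nat_lit 29854037069), (nat_lit 30834546112), (nat_lit 31674179339)], (nat_lit 0), (nat_lit 0), (nat_lit 0), (nat_lit 0), (nat_lit 0), (nat_lit 0), [], [(nat_lit 1), (nat_lit 38), (nat_lit 203), (nat_lit 0), (nat_lit 8)]⟩,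
 ⟨⟨[(nat_lit 80), (nat_lit 120), (nat_lit 160)], [(nat_lit 0), (nat_lit 0), (nat_lit 2132)], [((nat_lit 0), (nat_lit 0), (nat_lit 0)), ((nat_lit 0), (nat_lit 0), (nat_lit 0)), ((nat_lit 858), (nat_lit 1000), (nat_lit 713))], ((nat_lit 100), (nat_lit 91), (nat_lit 64))⟩, (nat_lit 1054192), (nat_lit 792), (nat_lit 792), (nat_lit 0), (nat_lit 1370537), [(nat_lit 909472000), (nat_lit 1545792000), (nat_lit 2303168000)], [], [(nat_lit 4598257449), (nat_lit 4657254806), (nat_lit 4973870566), (nat_lit 5124554464), (nat_lit 6983548082), (nat_lit 7151487909), (nat_lit 7672145301), (nat_lit 7796132309)], (nat_lit 1271251), (nat_lit 1271251), (nat_lit 1271251), (nat_lit 1271251), (nat_lit 780000), (nat_lit 3072501), [(nat_lit 1100000), (nat_lit 1785001), (nat_lit 1271251)], [(nat_lit 18), (nat_lit 59), (nat_lit 483), (nat_lit 250), (nat_lit 12)]⟩,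
 ⟨⟨[(nat_lit 120), (nat_lit 160), (nat_lit 180)], [(nat_lit 0), (nat_lit 533), (nat_lit 2066)], [((nat_lit 0), (nat_lit 0), (nat_lit 0)), ((nat_lit 960), (nat_lit 1000), (nat_lit 200)), ((nat_lit 615), (nat_lit 1000), (nat_lit 729))], ((nat_lit 100), (nat_lit 72), (nat_lit 63))⟩, (nat_lit 488978), (nat_lit 300), (nat_lit 1359), (nat_lit 8233600), (nat_lit 2339264), [(nat_lit 988032000), (nat_lit 1472128000), (nat_lit 1743192000)], [], [(nat_lit 6387946153), (nat_lit 6248133528), (nat_lit 6102093473), (nat_lit 5966289257), (nat_lit 6004975710), (nat_lit 5596290008), (nat_lit 5518072660), (nat_lit 5388201878)], (nat_lit 1271251), (nat_lit 1271251), (nat_lit 1271251), (nat_lit 1271251), (nat_lit 780000), (nat_lit 3072501), [(nat_lit 1695001), (nat_lit 1271251), (nat_lit 1271251)], [(nat_lit 28), (nat_lit 65), (nat_lit 483), (nat_lit 250), (nat_lit 11)]⟩⟩)) (.leaf ⟨(nat_lit 22), (nat_lit 632), (nat_lit 0), (nat_lit 346), (nat_lit 0), (nat_lit 3411),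 (nat_lit 6695), (nat_lit 3429), (nat_lit 0), (nat_lit 0), (nat_lit 88000), [((nat_lit 400), [((nat_lit 43), (nat_lit 5), (nat_lit 22))])], ⟨(nat_lit 7), false, true, true, (nat_lit 298), (nat_lit 0), (nat_lit 2237), [(nat_lit 1682352), (nat_lit 1674999), (nat_lit 1705063), (nat_lit 1699935), (nat_lit 1796379), (nat_lit 1774994), (nat_lit 1819154), (nat_lit 1799995)]⟩, ⟨(nat_lit 5), false, true, true, (nat_lit 229), (nat_lit 0), (nat_lit 2237), [(nat_lit 1477224), (nat_lit 1474999), (nat_lit 1521847), (nat_lit 1524073), (nat_lit 1634011), (nat_lit 1612493), (nat_lit 1679562), (nat_lit 1662495)]⟩, (nat_lit 5538795), (nat_lit 33984187), (nat_lit 19966929), (nat_lit 13048884), (nat_lit 5), (nat_lit 0), [⟨(nat_lit 1), (nat_lit 83), (nat_lit 33), (nat_lit 100), (nat_lit 157990220)⟩], [⟨(nat_lit 1), (nat_lit 95), (nat_lit 31), (nat_lit 100), (nat_lit 311912504)⟩], [], [],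
 ⟨⟨[(nat_lit 40), (nat_lit 60)], [(nat_lit 0), (nat_lit 1539)], [((nat_lit 0), (nat_lit 0), (nat_lit 0)), ((nat_lit 1000), (nat_lit 478), (nat_lit 704))], ((nat_lit 48), (nat_lit 100), (nat_lit 69))⟩, (nat_lit 1449150), (nat_lit 72), (nat_lit 72), (nat_lit 0), (nat_lit 0), [(nat_lit 1823484076), (nat_lit 2838752800)], [(nat_lit 0), (nat_lit 0)], [(nat_lit 26387919117), (nat_lit 27509199594), (nat_lit 29639691423), (nat_lit 30667712451), (nat_lit 29401824063), (nat_lit 30315481300), (nat_lit 32147606443), (nat_lit 32985447874)], (nat_lit 0), (nat_lit 0), (nat_lit 0), (nat_lit 0), (nat_lit 0), (nat_lit 0), [], [(nat_lit 1), (nat_lit 38), (nat_lit 203), (nat_lit 0), (nat_lit 8)]⟩,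
 ⟨⟨[(nat_lit 80), (nat_lit 120), (nat_lit 140)], [(nat_lit 0), (nat_lit 528), (nat_lit 1572)], [((nat_lit 0), (nat_lit 0), (nat_lit 0)), ((nat_lit 1000), (nat_lit 959), (nat_lit 206)), ((nat_lit 966), (nat_lit 1000), (nat_lit 679))], ((nat_lit 100), (nat_lit 98), (nat_lit 66))⟩, (nat_lit 7908978), (nat_lit 658), (nat_lit 658), (nat_lit 0), (nat_lit 1238520), [(nat_lit 4584864000), (nat_lit 7792704000), (nat_lit 9625476000)], [], [(nat_lit 28888309290), (nat_lit 29310088563), (nat_lit 30995114119), (nat_lit 31314916877), (nat_lit 32123104247), (nat_lit 32385196471), (nat_lit 35360027042), (nat_lit 35877829022)], (nat_lit 1271251), (nat_lit 1271251), (nat_lit 1271251), (nat_lit 1271251), (nat_lit 780000), (nat_lit 3072501), [(nat_lit 1100000), (nat_lit 1785001), (nat_lit 1271251)], [(nat_lit 17), (nat_lit 58), (nat_lit 401), (nat_lit 175), (nat_lit 11)]⟩,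
 ⟨⟨[(nat_lit 120), (nat_lit 160), (nat_lit 180)], [(nat_lit 0), (nat_lit 533), (nat_lit 2066)], [((nat_lit 0), (nat_lit 0), (nat_lit 0)), ((nat_lit 960), (nat_lit 1000), (nat_lit 200)), ((nat_lit 615), (nat_lit 1000), (nat_lit 729))], ((nat_lit 100), (nat_lit 72), (nat_lit 63))⟩, (nat_lit 985900), (nat_lit 300), (nat_lit 1412), (nat_lit 22974400), (nat_lit 2457206), [(nat_lit 2756928000), (nat_lit 4107712000), (nat_lit 4864068000)], [], [(nat_lit 18552991263), (nat_lit 18158325028), (nat_lit 17657610022), (nat_lit 17253624815), (nat_lit 16640057106), (nat_lit 16043930028), (nat_lit 15694343681), (nat_lit 15346128093)], (nat_lit 1271251), (nat_lit 1271251), (nat_lit 1271251), (nat_lit 1271251), (nat_lit 780000), (nat_lit 3072501), [(nat_lit 1695001), (nat_lit 1271251), (nat_lit 1271251)], [(nat_lit 28), (nat_lit 65), (nat_lit 483), (nat_lit 250), (nat_lit 11)]⟩⟩))) (.spl (nat_lit 0) (nat_lit 390) (.leaf ⟨(nat_lit 23), (nat_lit 667), (nat_lit 0),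 (nat_lit 310), (nat_lit 0), (nat_lit 3323), (nat_lit 7037), (nat_lit 3033), (nat_lit 0), (nat_lit 0), (nat_lit 92000), [((nat_lit 390), [((nat_lit 43), (nat_lit 5), (nat_lit 23))])], ⟨(nat_lit 7), false, true, true, (nat_lit 319), (nat_lit 1581), (nat_lit 2237), [(nat_lit 1705117), (nat_lit 1702521), (nat_lit 1750574), (nat_lit 1749059), (nat_lit 1847666), (nat_lit 1839120), (nat_lit 1893214), (nat_lit 1885750)]⟩, ⟨(nat_lit 5), false, true, true, (nat_lit 231), (nat_lit 1581), (nat_lit 2237), [(nat_lit 1477224), (nat_lit 1476683), (nat_lit 1522729), (nat_lit 1523269), (nat_lit 1634017), (nat_lit 1626932), (nat_lit 1679566), (nat_lit 1673562)]⟩, (nat_lit 5578966), (nat_lit 32615344), (nat_lit 21638340), (nat_lit 12746316), (nat_lit 5), (nat_lit 0), [], [⟨(nat_lit 1), (nat_lit 93), (nat_lit 38), (nat_lit 100), (nat_lit 286813038)⟩], [⟨(nat_lit 1), (nat_lit 50), (nat_lit 87), (nat_lit 100), (nat_lit 47954009)⟩], [],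
 ⟨⟨[(nat_lit 40), (nat_lit 60)], [(nat_lit 0), (nat_lit 1539)], [((nat_lit 0), (nat_lit 0), (nat_lit 0)), ((nat_lit 1000), (nat_lit 478), (nat_lit 704))], ((nat_lit 48), (nat_lit 100), (nat_lit 69))⟩, (nat_lit 2776827), (nat_lit 74), (nat_lit 74), (nat_lit 0), (nat_lit 0), [(nat_lit 1821966004), (nat_lit 2818605200)], [(nat_lit 0), (nat_lit 0)], [(nat_lit 26450327253), (nat_lit 27004582784), (nat_lit 30534623124), (nat_lit 30974291247), (nat_lit 29455645935), (nat_lit 29907827532), (nat_lit 32828491457), (nat_lit 33222893534)], (nat_lit 0), (nat_lit 0), (nat_lit 0), (nat_lit 0), (nat_lit 0), (nat_lit 0), [], [(nat_lit 1), (nat_lit 38), (nat_lit 203), (nat_lit 0), (nat_lit 8)]⟩,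
 ⟨⟨[(nat_lit 60), (nat_lit 100), (nat_lit 140)], [(nat_lit 0), (nat_lit 0), (nat_lit 2047)], [((nat_lit 0), (nat_lit 0), (nat_lit 0)), ((nat_lit 0), (nat_lit 0), (nat_lit 0)), ((nat_lit 1000), (nat_lit 993), (nat_lit 781))], ((nat_lit 95), (nat_lit 100), (nat_lit 65))⟩, (nat_lit 3612806), (nat_lit 569), (nat_lit 569), (nat_lit 0), (nat_lit 1033827), [(nat_lit 3206514000), (nat_lit 6106250000), (nat_lit 9615634000)], [], [(nat_lit 30099013982), (nat_lit 31257703122), (nat_lit 33608332635), (nat_lit 34406410783), (nat_lit 34232834875), (nat_lit 34682167770), (nat_lit 37347889370), (nat_lit 38279244484)], (nat_lit 1271251), (nat_lit 1271251), (nat_lit 1271251), (nat_lit 1271251), (nat_lit 780000), (nat_lit 3072501), [(nat_lit 780000), (nat_lit 1435001), (nat_lit 1271251)], [(nat_lit 11), (nat_lit 55), (nat_lit 317), (nat_lit 100), (nat_lit 8)]⟩,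
 ⟨⟨[(nat_lit 120), (nat_lit 160), (nat_lit 180)], [(nat_lit 0), (nat_lit 533), (nat_lit 2066)], [((nat_lit 0), (nat_lit 0), (nat_lit 0)), ((nat_lit 960), (nat_lit 1000), (nat_lit 200)), ((nat_lit 615), (nat_lit 1000), (nat_lit 729))], ((nat_lit 100), (nat_lit 72), (nat_lit 63))⟩, (nat_lit 1499130), (nat_lit 300), (nat_lit 1460), (nat_lit 20584000), (nat_lit 2546002), [(nat_lit 2470080000), (nat_lit 3680320000), (nat_lit 4357980000)], [], [(nat_lit 17075042117), (nat_lit 16719708492), (nat_lit 16241468879), (nat_lit 15880934672), (nat_lit 14948615276), (nat_lit 14601173579), (nat_lit 14254298068), (nat_lit 13913378827)], (nat_lit 1271251), (nat_lit 1271251), (nat_lit 1271251), (nat_lit 1271251), (nat_lit 780000), (nat_lit 3072501), [(nat_lit 1695001), (nat_lit 1271251), (nat_lit 1271251)], [(nat_lit 28), (nat_lit 65), (nat_lit 483), (nat_lit 250), (nat_lit 11)]⟩⟩) (.trX (nat_lit 3) (nat_lit 0) (nat_lit 1) (nat_lit 39) (nat_lit 72) (nat_lit 100)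 (nat_lit 370) (.trX (nat_lit 4) (nat_lit 0) (nat_lit 2) (nat_lit 31) (nat_lit 92) (nat_lit 100) (nat_lit 290) (.leaf ⟨(nat_lit 56), (nat_lit 637), (nat_lit 0), (nat_lit 307), (nat_lit 0), (nat_lit 3294), (nat_lit 7052), (nat_lit 3001), (nat_lit 0), (nat_lit 0), (nat_lit 89000), [((nat_lit 400), [((nat_lit 28), (nat_lit 2), (nat_lit 45)), ((nat_lit 43), (nat_lit 5), (nat_lit 11))])], ⟨(nat_lit 7), false, true, true, (nat_lit 314), (nat_lit 0), (nat_lit 1582), [(nat_lit 1702515), (nat_lit 1699984), (nat_lit 1747842), (nat_lit 1748680), (nat_lit 1825457), (nat_lit 1812495), (nat_lit 1872089), (nat_lit 1862497)]⟩, ⟨(nat_lit 5), false, true, true, (nat_lit 223), (nat_lit 0), (nat_lit 1582), [(nat_lit 1476683), (nat_lit 1474999), (nat_lit 1522658), (nat_lit 1524343), (nat_lit 1599609), (nat_lit 1587494), (nat_lit 1646241), (nat_lit 1637496)]⟩, (nat_lit 5534547), (nat_lit 33269564), (nat_lit 21418203), (nat_lit 12312233), (nat_lit 5), (nat_lit 0), [⟨(nat_lit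 1), (nat_lit 85), (nat_lit 26), (nat_lit 100), (nat_lit 181202572)⟩], [⟨(nat_lit 1), (nat_lit 98), (nat_lit 22), (nat_lit 100), (nat_lit 516859384)⟩], [⟨(nat_lit 1), (nat_lit 50), (nat_lit 87), (nat_lit 100), (nat_lit 3009234)⟩], [],
 ⟨⟨[(nat_lit 40), (nat_lit 60)], [(nat_lit 0), (nat_lit 2136)], [((nat_lit 0), (nat_lit 0), (nat_lit 0)), ((nat_lit 1000), (nat_lit 343), (nat_lit 808))], ((nat_lit 37), (nat_lit 100), (nat_lit 75))⟩, (nat_lit 2918990), (nat_lit 74), (nat_lit 74), (nat_lit 0), (nat_lit 0), [(nat_lit 1798608169), (nat_lit 2797954400)], [(nat_lit 0), (nat_lit 0)], [(nat_lit 26977329927), (nat_lit 27529481406), (nat_lit 30509246790), (nat_lit 30959154698), (nat_lit 29276844771), (nat_lit 29746449117), (nat_lit 32294921256), (nat_lit 32715589906)], (nat_lit 0), (nat_lit 0), (nat_lit 0), (nat_lit 0), (nat_lit 0), (nat_lit 0), [], [(nat_lit 1), (nat_lit 38), (nat_lit 203), (nat_lit 0), (nat_lit 8)]⟩,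
 ⟨⟨[(nat_lit 60), (nat_lit 100), (nat_lit 140)], [(nat_lit 0), (nat_lit 0), (nat_lit 2047)], [((nat_lit 0), (nat_lit 0), (nat_lit 0)), ((nat_lit 0), (nat_lit 0), (nat_lit 0)), ((nat_lit 1000), (nat_lit 993), (nat_lit 781))], ((nat_lit 95), (nat_lit 100), (nat_lit 65))⟩, (nat_lit 3279834), (nat_lit 614), (nat_lit 614), (nat_lit 0), (nat_lit 1152493), [(nat_lit 3098208000), (nat_lit 5900000000), (nat_lit 9290848000)], [], [(nat_lit 30498929520), (nat_lit 31324135916), (nat_lit 32806990491), (nat_lit 33380255562), (nat_lit 33056350876), (nat_lit 33321916992), (nat_lit 35914451172), (nat_lit 36868492574)], (nat_lit 1271251), (nat_lit 1271251), (nat_lit 1271251), (nat_lit 1271251), (nat_lit 780000), (nat_lit 3072501), [(nat_lit 780000), (nat_lit 1435001), (nat_lit 1271251)], [(nat_lit 11), (nat_lit 55), (nat_lit 317), (nat_lit 100), (nat_lit 8)]⟩,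
 ⟨⟨[(nat_lit 120), (nat_lit 160), (nat_lit 180)], [(nat_lit 0), (nat_lit 533), (nat_lit 2066)], [((nat_lit 0), (nat_lit 0), (nat_lit 0)), ((nat_lit 960), (nat_lit 1000), (nat_lit 200)), ((nat_lit 615), (nat_lit 1000), (nat_lit 729))], ((nat_lit 100), (nat_lit 72), (nat_lit 63))⟩, (nat_lit 1590839), (nat_lit 300), (nat_lit 1570), (nat_lit 20384800), (nat_lit 2784697), [(nat_lit 2446176000), (nat_lit 3644704000), (nat_lit 4315806000)], [], [(nat_lit 16936325852), (nat_lit 16584843082), (nat_lit 16247137877), (nat_lit 15891665022), (nat_lit 14822383116), (nat_lit 14476869527), (nat_lit 14217244999), (nat_lit 13884112514)], (nat_lit 1271251), (nat_lit 1271251), (nat_lit 1271251), (nat_lit 1271251), (nat_lit 780000), (nat_lit 3072501), [(nat_lit 1695001), (nat_lit 1271251), (nat_lit 1271251)], [(nat_lit 28), (nat_lit 65), (nat_lit 507), (nat_lit 250), (nat_lit 11)]⟩⟩))))))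
noncomputable def c14_42 : Tr Lf :=
 (.spl (nat_lit 5) (nat_lit 120) (.leaf ⟨(nat_lit 22), (nat_lit 663), (nat_lit 0), (nat_lit 315), (nat_lit 0), (nat_lit 4027), (nat_lit 8887), (nat_lit 3988), (nat_lit 0), (nat_lit 0), (nat_lit 88000), [((nat_lit 400), [((nat_lit 43), (nat_lit 5), (nat_lit 22))])], ⟨(nat_lit 7), false, true, true, (nat_lit 308), (nat_lit 0), (nat_lit 2237), [(nat_lit 1659577), (nat_lit 1649997), (nat_lit 1748802), (nat_lit 1748125), (nat_lit 1802110), (nat_lit 1774991), (nat_lit 1893212), (nat_lit 1874997)]⟩, ⟨(nat_lit 4), false, false, true, (nat_lit 199), (nat_lit 0), (nat_lit 2237), [(nat_lit 1316293), (nat_lit 1333360), (nat_lit 1359989), (nat_lit 1381507), (nat_lit 1634011), (nat_lit 1612493), (nat_lit 1679562), (nat_lit 1662495)]⟩, (nat_lit 5378086), (nat_lit 34833903), (nat_lit 21543836), (nat_lit 10622261), (nat_lit 4), (nat_lit 0), [⟨(nat_lit 1), (nat_lit 81), (nat_lit 34), (nat_lit 100), (nat_lit 405025881)⟩], [], [⟨(nat_lit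 0), (nat_lit 100), (nat_lit 98), (nat_lit 10), (nat_lit 209496908)⟩], [⟨(nat_lit 0), (nat_lit 100), (nat_lit 76), (nat_lit 65), (nat_lit 25346238)⟩],
 ⟨⟨[(nat_lit 40), (nat_lit 60)], [(nat_lit 0), (nat_lit 1539)], [((nat_lit 0), (nat_lit 0), (nat_lit 0)), ((nat_lit 1000), (nat_lit 478), (nat_lit 704))], ((nat_lit 48), (nat_lit 100), (nat_lit 69))⟩, (nat_lit 676653), (nat_lit 224), (nat_lit 224), (nat_lit 0), (nat_lit 495902), [(nat_lit 1823484044), (nat_lit 2838752800)], [(nat_lit 0), (nat_lit 0)], [(nat_lit 26443295737), (nat_lit 27489073975), (nat_lit 31425923196), (nat_lit 32625494765), (nat_lit 30028300114), (nat_lit 31014565686), (nat_lit 33743282829), (nat_lit 34583525227)], (nat_lit 1271251), (nat_lit 1271251), (nat_lit 1271251), (nat_lit 1271251), (nat_lit 559688), (nat_lit 2299063), [(nat_lit 490000), (nat_lit 780000)], [(nat_lit 1), (nat_lit 38), (nat_lit 317), (nat_lit 100), (nat_lit 16)]⟩,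
 ⟨⟨[(nat_lit 80), (nat_lit 120), (nat_lit 160)], [(nat_lit 0), (nat_lit 0), (nat_lit 2132)], [((nat_lit 0), (nat_lit 0), (nat_lit 0)), ((nat_lit 0), (nat_lit 0), (nat_lit 0)), ((nat_lit 858), (nat_lit 1000), (nat_lit 713))], ((nat_lit 100), (nat_lit 91), (nat_lit 64))⟩, (nat_lit 3115369), (nat_lit 484), (nat_lit 484), (nat_lit 0), (nat_lit 484622), [(nat_lit 4584864000), (nat_lit 7792704000), (nat_lit 11610816000)], [], [(nat_lit 33322021050), (nat_lit 36145862752), (nat_lit 38251524079), (nat_lit 43236327402), (nat_lit 28083606321), (nat_lit 30529128104), (nat_lit 32406415146), (nat_lit 33946554081)], (nat_lit 1271251), (nat_lit 1271251), (nat_lit 1271251), (nat_lit 1271251), (nat_lit 0), (nat_lit 780000), [(nat_lit 1100000), (nat_lit 1785001), (nat_lit 1271251)], [(nat_lit 18), (nat_lit 59), (nat_lit 456), (nat_lit 225), (nat_lit 11)]⟩,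
 ⟨⟨[(nat_lit 120), (nat_lit 160), (nat_lit 180)], [(nat_lit 0), (nat_lit 533), (nat_lit 2066)], [((nat_lit 0), (nat_lit 0), (nat_lit 0)), ((nat_lit 960), (nat_lit 1000), (nat_lit 200)), ((nat_lit 615), (nat_lit 1000), (nat_lit 729))], ((nat_lit 100), (nat_lit 72), (nat_lit 63))⟩, (nat_lit 737561), (nat_lit 300), (nat_lit 802), (nat_lit 20916000), (nat_lit 813504), [(nat_lit 2509920000), (nat_lit 3739680000), (nat_lit 4428270000)], [], [(nat_lit 17512340612), (nat_lit 17284059372), (nat_lit 17549939193), (nat_lit 15816939521), (nat_lit 14343457704), (nat_lit 14118649994), (nat_lit 19605242252), (nat_lit 15908373730)], (nat_lit 1271251), (nat_lit 1271251), (nat_lit 559688), (nat_lit 2299063), (nat_lit 0), (nat_lit 780000), [(nat_lit 1695001), (nat_lit 1271251), (nat_lit 1271251)], [(nat_lit 28), (nat_lit 65), (nat_lit 401), (nat_lit 175), (nat_lit 10)]⟩⟩) (.leaf ⟨(nat_lit 22), (nat_lit 0), (nat_lit 0), (nat_lit 978), (nat_lit 0), (nat_lit 4027),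 (nat_lit 11091), (nat_lit 7681), (nat_lit 0), (nat_lit 0), (nat_lit 88000), [((nat_lit 400), [((nat_lit 43), (nat_lit 5), (nat_lit 22))])], ⟨(nat_lit 7), false, true, true, (nat_lit 308), (nat_lit 0), (nat_lit 2237), [(nat_lit 1659577), (nat_lit 1649997), (nat_lit 1748802), (nat_lit 1748125), (nat_lit 1802110), (nat_lit 1774991), (nat_lit 1893212), (nat_lit 1874997)]⟩, ⟨(nat_lit 4), false, false, true, (nat_lit 199), (nat_lit 0), (nat_lit 2237), [(nat_lit 1316293), (nat_lit 1333360), (nat_lit 1359989), (nat_lit 1381507), (nat_lit 1634011), (nat_lit 1612493), (nat_lit 1679562), (nat_lit 1662495)]⟩, (nat_lit 5378086), (nat_lit 34833903), (nat_lit 21543836), (nat_lit 10622261), (nat_lit 0), (nat_lit 0), [⟨(nat_lit 1), (nat_lit 81), (nat_lit 34), (nat_lit 100), (nat_lit 643783829)⟩], [⟨(nat_lit 0), (nat_lit 100), (nat_lit 31), (nat_lit 95), (nat_lit 1581714203)⟩], [], [],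
 ⟨⟨[(nat_lit 40), (nat_lit 60)], [(nat_lit 0), (nat_lit 1539)], [((nat_lit 0), (nat_lit 0), (nat_lit 0)), ((nat_lit 1000), (nat_lit 478), (nat_lit 704))], ((nat_lit 48), (nat_lit 100), (nat_lit 69))⟩, (nat_lit 1265888), (nat_lit 224), (nat_lit 224), (nat_lit 0), (nat_lit 495902), [(nat_lit 1823484029), (nat_lit 2838752800)], [(nat_lit 0), (nat_lit 0)], [(nat_lit 26394221451), (nat_lit 27489073975), (nat_lit 31425923196), (nat_lit 32625494765), (nat_lit 30028300024), (nat_lit 31014565686), (nat_lit 33743282829), (nat_lit 34583525227)], (nat_lit 1271251), (nat_lit 1271251), (nat_lit 1271251), (nat_lit 1271251), (nat_lit 559688), (nat_lit 2299063), [(nat_lit 490000), (nat_lit 780000)], [(nat_lit 1), (nat_lit 38), (nat_lit 317), (nat_lit 100), (nat_lit 16)]⟩,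
 ⟨⟨[(nat_lit 80), (nat_lit 120), (nat_lit 160)], [(nat_lit 0), (nat_lit 0), (nat_lit 2132)], [((nat_lit 0), (nat_lit 0), (nat_lit 0)), ((nat_lit 0), (nat_lit 0), (nat_lit 0)), ((nat_lit 858), (nat_lit 1000), (nat_lit 713))], ((nat_lit 100), (nat_lit 91), (nat_lit 64))⟩, (nat_lit 3671078), (nat_lit 583), (nat_lit 583), (nat_lit 0), (nat_lit 959590), [(nat_lit 4584864000), (nat_lit 7792704000), (nat_lit 11610816000)], [], [(nat_lit 22142504346), (nat_lit 25612032509), (nat_lit 30673506632), (nat_lit 36626302352), (nat_lit 35459324394), (nat_lit 38876738172), (nat_lit 41998750035), (nat_lit 43873912779)], (nat_lit 1271251), (nat_lit 1271251), (nat_lit 1271251), (nat_lit 1271251), (nat_lit 780000), (nat_lit 3072501), [(nat_lit 1100000), (nat_lit 1785001), (nat_lit 1271251)], [(nat_lit 18), (nat_lit 59), (nat_lit 538), (nat_lit 300), (nat_lit 13)]⟩,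
 ⟨⟨[(nat_lit 120), (nat_lit 160), (nat_lit 180)], [(nat_lit 0), (nat_lit 533), (nat_lit 2066)], [((nat_lit 0), (nat_lit 0), (nat_lit 0)), ((nat_lit 960), (nat_lit 1000), (nat_lit 200)), ((nat_lit 615), (nat_lit 1000), (nat_lit 729))], ((nat_lit 100), (nat_lit 72), (nat_lit 63))⟩, (nat_lit 2407067), (nat_lit 300), (nat_lit 693), (nat_lit 64939200), (nat_lit 813504), [(nat_lit 7792704000), (nat_lit 11610816000), (nat_lit 13748724000)], [], [(nat_lit 57946459439), (nat_lit 57554206269), (nat_lit 55321714847), (nat_lit 54774498233), (nat_lit 56908715869), (nat_lit 56259800747), (nat_lit 60194967096), (nat_lit 53169571170)], (nat_lit 1271251), (nat_lit 1271251), (nat_lit 559688), (nat_lit 2299063), (nat_lit 780000), (nat_lit 3072501), [(nat_lit 1695001), (nat_lit 1271251), (nat_lit 1271251)], [(nat_lit 28), (nat_lit 65), (nat_lit 483), (nat_lit 250), (nat_lit 11)]⟩⟩))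
noncomputable def c14_43 : Tr Lf :=
 (.stt (nat_lit 2) (.spl (nat_lit 5) (nat_lit 200) (.leaf ⟨(nat_lit 0), (nat_lit 1000), (nat_lit 0), (nat_lit 0), (nat_lit 8118), (nat_lit 4933), (nat_lit 8578), (nat_lit 0), (nat_lit 0), (nat_lit 0), (nat_lit 0), [], Pd.none, Pd.none, (nat_lit 0), (nat_lit 1), (nat_lit 0), (nat_lit 0), (nat_lit 3), (nat_lit 0), [⟨(nat_lit 0), (nat_lit 95), (nat_lit 31), (nat_lit 100), (nat_lit 12384098)⟩, ⟨(nat_lit 0), (nat_lit 100), (nat_lit 44), (nat_lit 99), (nat_lit 596839306)⟩], [], [], [],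
 ⟨⟨[(nat_lit 40), (nat_lit 80), (nat_lit 100)], [(nat_lit 0), (nat_lit 2514), (nat_lit 3562)], [((nat_lit 0), (nat_lit 0), (nat_lit 0)), ((nat_lit 1000), (nat_lit 446), (nat_lit 804)), ((nat_lit 1000), (nat_lit 443), (nat_lit 819))], ((nat_lit 44), (nat_lit 100), (nat_lit 84))⟩, (nat_lit 1125855), (nat_lit 295), (nat_lit 295), (nat_lit 0), (nat_lit 436783), [(nat_lit 2032000014), (nat_lit 4688000045), (nat_lit 6250000000)], [], [(nat_lit 24724119395), (nat_lit 27140228125), (nat_lit 27071510352), (nat_lit 29101201178), (nat_lit 22701279578), (nat_lit 24676518476), (nat_lit 24821534878), (nat_lit 26595391100)], (nat_lit 1271251), (nat_lit 1271251), (nat_lit 1017188), (nat_lit 1779376), (nat_lit 230000), (nat_lit 1100000), [(nat_lit 490000), (nat_lit 1100000), (nat_lit 1442501)], [(nat_lit 3), (nat_lit 50), (nat_lit 317), (nat_lit 100), (nat_lit 11)]⟩,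
 ⟨⟨[(nat_lit 80), (nat_lit 140), (nat_lit 180)], [(nat_lit 0), (nat_lit 0), (nat_lit 3656)], [((nat_lit 0), (nat_lit 0), (nat_lit 0)), ((nat_lit 0), (nat_lit 0), (nat_lit 0)), ((nat_lit 637), (nat_lit 1000), (nat_lit 908))], ((nat_lit 100), (nat_lit 73), (nat_lit 85))⟩, (nat_lit 2956675), (nat_lit 273), (nat_lit 273), (nat_lit 0), (nat_lit 0), [(nat_lit 4688000000), (nat_lit 9842000000), (nat_lit 14058000000)], [], [(nat_lit 28467141317), (nat_lit 31206630293), (nat_lit 30397189176), (nat_lit 32625969596), (nat_lit 22216802266), (nat_lit 24375827914), (nat_lit 24146715316), (nat_lit 26480493182)], (nat_lit 0), (nat_lit 0), (nat_lit 0), (nat_lit 0), (nat_lit 0), (nat_lit 0), [], [(nat_lit 19), (nat_lit 63), (nat_lit 428), (nat_lit 200), (nat_lit 10)]⟩,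
 Rw.none⟩) (.leaf ⟨(nat_lit 22), (nat_lit 978), (nat_lit 0), (nat_lit 0), (nat_lit 2953), (nat_lit 4587), (nat_lit 5789), (nat_lit 0), (nat_lit 0), (nat_lit 0), (nat_lit 88000), [((nat_lit 400), [((nat_lit 43), (nat_lit 5), (nat_lit 22))])], ⟨(nat_lit 6), true, false, false, (nat_lit 225), (nat_lit 0), (nat_lit 2237), [(nat_lit 1470123), (nat_lit 1483344), (nat_lit 1513819), (nat_lit 1531491), (nat_lit 1602531), (nat_lit 1599967), (nat_lit 1646249), (nat_lit 1648136)]⟩, ⟨(nat_lit 3), false, false, false, (nat_lit 122), (nat_lit 0), (nat_lit 2237), [(nat_lit 1177178), (nat_lit 1196337), (nat_lit 1242721), (nat_lit 1268557), (nat_lit 1351885), (nat_lit 1349998), (nat_lit 1419294), (nat_lit 1424084)]⟩, (nat_lit 4335472), (nat_lit 45690105), (nat_lit 15432208), (nat_lit 5877687), (nat_lit 5), (nat_lit 0), [⟨(nat_lit 0), (nat_lit 100), (nat_lit 44), (nat_lit 99), (nat_lit 636755057)⟩], [], [⟨(nat_lit 1), (nat_lit 30), (nat_lit 98), (nat_lit 100), (nat_lit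 556728430)⟩], [],
 ⟨⟨[(nat_lit 40), (nat_lit 80), (nat_lit 100)], [(nat_lit 0), (nat_lit 2514), (nat_lit 3562)], [((nat_lit 0), (nat_lit 0), (nat_lit 0)), ((nat_lit 1000), (nat_lit 446), (nat_lit 804)), ((nat_lit 1000), (nat_lit 443), (nat_lit 819))], ((nat_lit 44), (nat_lit 100), (nat_lit 84))⟩, (nat_lit 993154), (nat_lit 295), (nat_lit 295), (nat_lit 0), (nat_lit 436783), [(nat_lit 1823484001), (nat_lit 3969858403), (nat_lit 5224571200)], [(nat_lit 0), (nat_lit 0), (nat_lit 0)], [(nat_lit 24118548811), (nat_lit 26427009156), (nat_lit 26475059809), (nat_lit 28418451142), (nat_lit 22288184861), (nat_lit 24299145964), (nat_lit 24543293442), (nat_lit 26244304900)], (nat_lit 1271251), (nat_lit 1271251), (nat_lit 1017188), (nat_lit 1779376), (nat_lit 230000), (nat_lit 1100000), [(nat_lit 490000), (nat_lit 1100000), (nat_lit 1442501)], [(nat_lit 3), (nat_lit 50), (nat_lit 317), (nat_lit 100), (nat_lit 11)]⟩,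
 ⟨⟨[(nat_lit 80), (nat_lit 140), (nat_lit 180)], [(nat_lit 0), (nat_lit 0), (nat_lit 3656)], [((nat_lit 0), (nat_lit 0), (nat_lit 0)), ((nat_lit 0), (nat_lit 0), (nat_lit 0)), ((nat_lit 637), (nat_lit 1000), (nat_lit 908))], ((nat_lit 100), (nat_lit 73), (nat_lit 85))⟩, (nat_lit 0), (nat_lit 122), (nat_lit 122), (nat_lit 0), (nat_lit 0), [(nat_lit 4584864000), (nat_lit 9625476000), (nat_lit 13748724000)], [], [(nat_lit 12950831393), (nat_lit 15996789583), (nat_lit 16578529022), (nat_lit 19100024160), (nat_lit 27094793470), (nat_lit 28946644879), (nat_lit 28475006448), (nat_lit 30022176414)], (nat_lit 0), (nat_lit 0), (nat_lit 0), (nat_lit 0), (nat_lit 0), (nat_lit 0), [], [(nat_lit 19), (nat_lit 63), (nat_lit 483), (nat_lit 250), (nat_lit 11)]⟩,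
 Rw.none⟩)) (.spl (nat_lit 5) (nat_lit 200) (.spl (nat_lit 4) (nat_lit 120) (.leaf ⟨(nat_lit 902), (nat_lit 98), (nat_lit 0), (nat_lit 0), (nat_lit 0), (nat_lit 3649), (nat_lit 1098), (nat_lit 0), (nat_lit 0), (nat_lit 0), (nat_lit 334100), [((nat_lit 400), [((nat_lit 29), (nat_lit 0), (nat_lit 178)), ((nat_lit 29), (nat_lit 1), (nat_lit 724))])], ⟨(nat_lit 6), false, false, false, (nat_lit 225), (nat_lit 0), (nat_lit 2237), [(nat_lit 1470123), (nat_lit 1483344), (nat_lit 1513819), (nat_lit 1531491), (nat_lit 1602531), (nat_lit 1599967), (nat_lit 1646249), (nat_lit 1648136)]⟩, ⟨(nat_lit 3), false, false, false, (nat_lit 111), (nat_lit 0), (nat_lit 2237), [(nat_lit 1177178), (nat_lit 1196337), (nat_lit 1242721), (nat_lit 1268557), (nat_lit 1294870), (nat_lit 1299999), (nat_lit 1360436), (nat_lit 1372242)]⟩, (nat_lit 4205189), (nat_lit 46338558), (nat_lit 15538817), (nat_lit 5122625), (nat_lit 3), (nat_lit 0), [], [⟨(nat_lit 0), (nat_lit 100), (nat_lit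 32), (nat_lit 87), (nat_lit 238957874)⟩], [], [],
 ⟨⟨[(nat_lit 40), (nat_lit 80), (nat_lit 100)], [(nat_lit 0), (nat_lit 2514), (nat_lit 3562)], [((nat_lit 0), (nat_lit 0), (nat_lit 0)), ((nat_lit 1000), (nat_lit 446), (nat_lit 804)), ((nat_lit 1000), (nat_lit 443), (nat_lit 819))], ((nat_lit 44), (nat_lit 100), (nat_lit 84))⟩, (nat_lit 0), (nat_lit 213), (nat_lit 213), (nat_lit 0), (nat_lit 202288), [(nat_lit 1465736805), (nat_lit 847485615), (nat_lit 998535200)], [(nat_lit 0), (nat_lit 0), (nat_lit 0)], [(nat_lit 22476857459), (nat_lit 24493484899), (nat_lit 24858092730), (nat_lit 26567527634), (nat_lit 21775952809), (nat_lit 23196062003), (nat_lit 23754126170), (nat_lit 25238025770)], (nat_lit 1271251), (nat_lit 1271251), (nat_lit 1017188), (nat_lit 1779376), (nat_lit 230000), (nat_lit 780000), [(nat_lit 490000), (nat_lit 1100000), (nat_lit 1442501)], [(nat_lit 3), (nat_lit 50), (nat_lit 317), (nat_lit 100), (nat_lit 11)]⟩,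
 ⟨⟨[(nat_lit 80), (nat_lit 140), (nat_lit 180)], [(nat_lit 0), (nat_lit 0), (nat_lit 3656)], [((nat_lit 0), (nat_lit 0), (nat_lit 0)), ((nat_lit 0), (nat_lit 0), (nat_lit 0)), ((nat_lit 637), (nat_lit 1000), (nat_lit 908))], ((nat_lit 100), (nat_lit 73), (nat_lit 85))⟩, (nat_lit 38977), (nat_lit 840), (nat_lit 840), (nat_lit 0), (nat_lit 1061330), [(nat_lit 459424000), (nat_lit 964516000), (nat_lit 1377684000)], [], [(nat_lit 4849189313), (nat_lit 4459015156), (nat_lit 4293444024), (nat_lit 4368068096), (nat_lit 3501337868), (nat_lit 3517360413), (nat_lit 4756624804), (nat_lit 3755533186)], (nat_lit 1271251), (nat_lit 1271251), (nat_lit 1017188), (nat_lit 1779376), (nat_lit 0), (nat_lit 1412501), [(nat_lit 1100000), (nat_lit 2127501), (nat_lit 1271251)], [(nat_lit 19), (nat_lit 63), (nat_lit 428), (nat_lit 200), (nat_lit 10)]⟩,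
 Rw.none⟩) (.leaf ⟨(nat_lit 905), (nat_lit 95), (nat_lit 0), (nat_lit 0), (nat_lit 0), (nat_lit 3596), (nat_lit 1062), (nat_lit 0), (nat_lit 0), (nat_lit 0), (nat_lit 325400), [((nat_lit 400), [((nat_lit 29), (nat_lit 0), (nat_lit 244)), ((nat_lit 29), (nat_lit 1), (nat_lit 661))])], ⟨(nat_lit 6), false, false, false, (nat_lit 225), (nat_lit 0), (nat_lit 2237), [(nat_lit 1470123), (nat_lit 1483344), (nat_lit 1513819), (nat_lit 1531491), (nat_lit 1602531), (nat_lit 1599967), (nat_lit 1646249), (nat_lit 1648136)]⟩, ⟨(nat_lit 3), false, false, false, (nat_lit 144), (nat_lit 0), (nat_lit 2237), [(nat_lit 1294870), (nat_lit 1299999), (nat_lit 1360436), (nat_lit 1372242), (nat_lit 1351885), (nat_lit 1349998), (nat_lit 1419294), (nat_lit 1424084)]⟩, (nat_lit 4580759), (nat_lit 44319945), (nat_lit 15186388), (nat_lit 7493667), (nat_lit 3), (nat_lit 0), [⟨(nat_lit 0), (nat_lit 95), (nat_lit 31), (nat_lit 100), (nat_lit 17654596)⟩], [⟨(nat_lit 1), (nat_lit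 100), (nat_lit 31), (nat_lit 97), (nat_lit 7619781)⟩], [], [],
 ⟨⟨[(nat_lit 40), (nat_lit 80), (nat_lit 100)], [(nat_lit 0), (nat_lit 2514), (nat_lit 3562)], [((nat_lit 0), (nat_lit 0), (nat_lit 0)), ((nat_lit 1000), (nat_lit 446), (nat_lit 804)), ((nat_lit 1000), (nat_lit 443), (nat_lit 819))], ((nat_lit 44), (nat_lit 100), (nat_lit 84))⟩, (nat_lit 0), (nat_lit 178), (nat_lit 178), (nat_lit 0), (nat_lit 274897), [(nat_lit 1475515605), (nat_lit 913077196), (nat_lit 1091765600)], [(nat_lit 0), (nat_lit 0), (nat_lit 0)], [(nat_lit 22049591220), (nat_lit 23291035559), (nat_lit 23933863486), (nat_lit 25172903080), (nat_lit 22346322208), (nat_lit 23542738870), (nat_lit 24174212686), (nat_lit 25238737200)], (nat_lit 1271251), (nat_lit 1271251), (nat_lit 1017188), (nat_lit 1779376), (nat_lit 780000), (nat_lit 1100000), [(nat_lit 490000), (nat_lit 1100000), (nat_lit 1442501)], [(nat_lit 3), (nat_lit 50), (nat_lit 317), (nat_lit 100), (nat_lit 11)]⟩,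
 ⟨⟨[(nat_lit 80), (nat_lit 140), (nat_lit 180)], [(nat_lit 0), (nat_lit 0), (nat_lit 3656)], [((nat_lit 0), (nat_lit 0), (nat_lit 0)), ((nat_lit 0), (nat_lit 0), (nat_lit 0)), ((nat_lit 637), (nat_lit 1000), (nat_lit 908))], ((nat_lit 100), (nat_lit 73), (nat_lit 85))⟩, (nat_lit 37898), (nat_lit 840), (nat_lit 840), (nat_lit 0), (nat_lit 1061330), [(nat_lit 445360000), (nat_lit 934990000), (nat_lit 1335510000)], [], [(nat_lit 4696459967), (nat_lit 4329120031), (nat_lit 4166104036), (nat_lit 4235337744), (nat_lit 3403276813), (nat_lit 3418923425), (nat_lit 4609913224), (nat_lit 3641644282)], (nat_lit 1271251), (nat_lit 1271251), (nat_lit 1017188), (nat_lit 1779376), (nat_lit 0), (nat_lit 1412501), [(nat_lit 1100000), (nat_lit 2127501), (nat_lit 1271251)], [(nat_lit 19), (nat_lit 63), (nat_lit 428), (nat_lit 200), (nat_lit 10)]⟩,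
 Rw.none⟩)) (.spl (nat_lit 0) (nat_lit 390) (.spl (nat_lit 0) (nat_lit 385) (.leaf ⟨(nat_lit 893), (nat_lit 74), (nat_lit 0), (nat_lit 33), (nat_lit 0), (nat_lit 3385), (nat_lit 1120), (nat_lit 384), (nat_lit 0), (nat_lit 0), (nat_lit 343250), [((nat_lit 385), [((nat_lit 29), (nat_lit 0), (nat_lit 93)), ((nat_lit 29), (nat_lit 1), (nat_lit 800))])], ⟨(nat_lit 6), false, false, false, (nat_lit 225), (nat_lit 1936), (nat_lit 2237), [(nat_lit 1474241), (nat_lit 1476122), (nat_lit 1519772), (nat_lit 1522127), (nat_lit 1602562), (nat_lit 1601908), (nat_lit 1648093), (nat_lit 1647913)]⟩, ⟨(nat_lit 3), false, false, false, (nat_lit 121), (nat_lit 1936), (nat_lit 2237), [(nat_lit 1180811), (nat_lit 1184371), (nat_lit 1249108), (nat_lit 1253377), (nat_lit 1351886), (nat_lit 1352066), (nat_lit 1420202), (nat_lit 1421092)]⟩, (nat_lit 4324372), (nat_lit 45755077), (nat_lit 15426910), (nat_lit 5818013), (nat_lit 5), (nat_lit 0), [], [⟨(nat_lit 0), (nat_lit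 100), (nat_lit 42), (nat_lit 81), (nat_lit 55853027)⟩], [], [⟨(nat_lit 1), (nat_lit 48), (nat_lit 100), (nat_lit 87), (nat_lit 6850839)⟩],
 ⟨⟨[(nat_lit 40), (nat_lit 80), (nat_lit 100)], [(nat_lit 0), (nat_lit 2514), (nat_lit 3562)], [((nat_lit 0), (nat_lit 0), (nat_lit 0)), ((nat_lit 1000), (nat_lit 446), (nat_lit 804)), ((nat_lit 1000), (nat_lit 443), (nat_lit 819))], ((nat_lit 44), (nat_lit 100), (nat_lit 84))⟩, (nat_lit 0), (nat_lit 210), (nat_lit 210), (nat_lit 0), (nat_lit 224352), [(nat_lit 1455203601), (nat_lit 794319800), (nat_lit 910085200)], [(nat_lit 0), (nat_lit 0), (nat_lit 0)], [(nat_lit 22368335282), (nat_lit 22676241202), (nat_lit 24404122297), (nat_lit 24813894491), (nat_lit 22481943984), (nat_lit 22780180801), (nat_lit 24351873337), (nat_lit 24610793344)], (nat_lit 1271251), (nat_lit 1271251), (nat_lit 1017188), (nat_lit 1779376), (nat_lit 230000), (nat_lit 1100000), [(nat_lit 490000), (nat_lit 1100000), (nat_lit 1442501)], [(nat_lit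 3), (nat_lit 50), (nat_lit 317), (nat_lit 100), (nat_lit 11)]⟩,
 ⟨⟨[(nat_lit 80), (nat_lit 140), (nat_lit 180)], [(nat_lit 0), (nat_lit 0), (nat_lit 3656)], [((nat_lit 0), (nat_lit 0), (nat_lit 0)), ((nat_lit 0), (nat_lit 0), (nat_lit 0)), ((nat_lit 637), (nat_lit 1000), (nat_lit 908))], ((nat_lit 100), (nat_lit 73), (nat_lit 85))⟩, (nat_lit 212703), (nat_lit 562), (nat_lit 562), (nat_lit 0), (nat_lit 736117), [(nat_lit 501616000), (nat_lit 1053094000), (nat_lit 1504206000)], [], [(nat_lit 3356819636), (nat_lit 3465478176), (nat_lit 4463863532), (nat_lit 3442713612), (nat_lit 3878899157), (nat_lit 3923854644), (nat_lit 3720004468), (nat_lit 3789122682)], (nat_lit 1271251), (nat_lit 1271251), (nat_lit 1017188), (nat_lit 1779376), (nat_lit 1271251), (nat_lit 1271251), [(nat_lit 1100000), (nat_lit 2127501), (nat_lit 1271251)], [(nat_lit 19), (nat_lit 63), (nat_lit 483), (nat_lit 250), (nat_lit 11)]⟩,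
 ⟨⟨[(nat_lit 140), (nat_lit 180), (nat_lit 200)], [(nat_lit 0), (nat_lit 0), (nat_lit 2835)], [((nat_lit 0), (nat_lit 0), (nat_lit 0)), ((nat_lit 0), (nat_lit 0), (nat_lit 0)), ((nat_lit 363), (nat_lit 1000), (nat_lit 798))], ((nat_lit 0), (nat_lit 0), (nat_lit 0))⟩, (nat_lit 9079), (nat_lit 300), (nat_lit 1668), (nat_lit 2577306), (nat_lit 2690249), [(nat_lit 324786000), (nat_lit 463914000), (nat_lit 541200000)], [], [(nat_lit 2272072194), (nat_lit 2183405007), (nat_lit 2032834224), (nat_lit 1946443305), (nat_lit 2182399338), (nat_lit 2091736511), (nat_lit 1911457272), (nat_lit 1824217395)], (nat_lit 780000), (nat_lit 1271251), (nat_lit 230000), (nat_lit 1100000), (nat_lit 1271251), (nat_lit 1271251), [(nat_lit 1977501), (nat_lit 1271251), (nat_lit 1271251)], [(nat_lit 32), (nat_lit 67), (nat_lit 510), (nat_lit 200), (nat_lit 11)]⟩⟩) (.trZ (nat_lit 0) (nat_lit 1) (nat_lit 3) (nat_lit 100) (nat_lit 39) (nat_lit 100) (nat_lit 160) (.trZ (nat_lit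 0) (nat_lit 2) (nat_lit 4) (nat_lit 100) (nat_lit 41) (nat_lit 76) (nat_lit 50) (.leaf ⟨(nat_lit 890), (nat_lit 83), (nat_lit 0), (nat_lit 27), (nat_lit 0), (nat_lit 3511), (nat_lit 1120), (nat_lit 314), (nat_lit 0), (nat_lit 0), (nat_lit 222500), [((nat_lit 390), [((nat_lit 29), (nat_lit 0), (nat_lit 890))])], ⟨(nat_lit 6), false, false, false, (nat_lit 228), (nat_lit 1581), (nat_lit 1937), [(nat_lit 1490075), (nat_lit 1491937), (nat_lit 1536068), (nat_lit 1538538), (nat_lit 1601908), (nat_lit 1601263), (nat_lit 1647901), (nat_lit 1647865)]⟩, ⟨(nat_lit 3), false, false, false, (nat_lit 124), (nat_lit 1581), (nat_lit 1937), [(nat_lit 1198326), (nat_lit 1201810), (nat_lit 1267315), (nat_lit 1271711), (nat_lit 1352066), (nat_lit 1352103), (nat_lit 1421086), (nat_lit 1422035)]⟩, (nat_lit 4389514), (nat_lit 45250178), (nat_lit 15689520), (nat_lit 6060302), (nat_lit 5), (nat_lit 0), [], [⟨(nat_lit 0), (nat_lit 100), (nat_lit 36), (nat_lit 85), (nat_lit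 16805702)⟩], [], [⟨(nat_lit 1), (nat_lit 47), (nat_lit 100), (nat_lit 88), (nat_lit 11189491)⟩],
 ⟨⟨[(nat_lit 40), (nat_lit 60), (nat_lit 80)], [(nat_lit 0), (nat_lit 1803), (nat_lit 2780)], [((nat_lit 0), (nat_lit 0), (nat_lit 0)), ((nat_lit 1000), (nat_lit 417), (nat_lit 754)), ((nat_lit 1000), (nat_lit 413), (nat_lit 764))], ((nat_lit 39), (nat_lit 100), (nat_lit 85))⟩, (nat_lit 0), (nat_lit 172), (nat_lit 172), (nat_lit 0), (nat_lit 240784), [(nat_lit 1589028001), (nat_lit 1335252780), (nat_lit 1740676000)], [(nat_lit 0), (nat_lit 0), (nat_lit 0)], [(nat_lit 22641518548), (nat_lit 23003695724), (nat_lit 24719159359), (nat_lit 25135280001), (nat_lit 22917071327), (nat_lit 23235724240), (nat_lit 24785467544), (nat_lit 25064794718)], (nat_lit 1271251), (nat_lit 1271251), (nat_lit 1100000), (nat_lit 1785001), (nat_lit 292188), (nat_lit 1100000), [(nat_lit 490000), (nat_lit 780000), (nat_lit 1100000)], [(nat_lit 2), (nat_lit 44), (nat_lit 249),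 (nat_lit 40), (nat_lit 10)]⟩,
 ⟨⟨[(nat_lit 80), (nat_lit 140), (nat_lit 180)], [(nat_lit 0), (nat_lit 0), (nat_lit 3656)], [((nat_lit 0), (nat_lit 0), (nat_lit 0)), ((nat_lit 0), (nat_lit 0), (nat_lit 0)), ((nat_lit 637), (nat_lit 1000), (nat_lit 908))], ((nat_lit 100), (nat_lit 73), (nat_lit 85))⟩, (nat_lit 210447), (nat_lit 599), (nat_lit 599), (nat_lit 0), (nat_lit 839587), [(nat_lit 515680000), (nat_lit 1082620000), (nat_lit 1546380000)], [], [(nat_lit 3536070448), (nat_lit 3624649580), (nat_lit 4619961200), (nat_lit 3605531620), (nat_lit 4038505560), (nat_lit 4067955800), (nat_lit 3922303240), (nat_lit 3935331380)], (nat_lit 1271251), (nat_lit 1271251), (nat_lit 1100000), (nat_lit 1785001), (nat_lit 1271251), (nat_lit 1271251), [(nat_lit 1100000), (nat_lit 2127501), (nat_lit 1271251)], [(nat_lit 19), (nat_lit 63), (nat_lit 483), (nat_lit 250), (nat_lit 11)]⟩,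
 ⟨⟨[(nat_lit 140), (nat_lit 180), (nat_lit 200)], [(nat_lit 0), (nat_lit 0), (nat_lit 2835)], [((nat_lit 0), (nat_lit 0), (nat_lit 0)), ((nat_lit 0), (nat_lit 0), (nat_lit 0)), ((nat_lit 363), (nat_lit 1000), (nat_lit 798))], ((nat_lit 0), (nat_lit 0), (nat_lit 0))⟩, (nat_lit 7429), (nat_lit 300), (nat_lit 1800), (nat_lit 2108700), (nat_lit 2976577), [(nat_lit 265734000), (nat_lit 379566000), (nat_lit 442800000)], [], [(nat_lit 1838791180), (nat_lit 1766576059), (nat_lit 1664242492), (nat_lit 1593610370), (nat_lit 1760514805), (nat_lit 1686840581), (nat_lit 1564391240), (nat_lit 1493066985)], (nat_lit 780000), (nat_lit 1271251), (nat_lit 292188), (nat_lit 1100000), (nat_lit 1271251), (nat_lit 1271251), [(nat_lit 1977501), (nat_lit 1271251), (nat_lit 1271251)], [(nat_lit 32), (nat_lit 67), (nat_lit 543), (nat_lit 200), (nat_lit 11)]⟩⟩)))) (.trZ (nat_lit 0) (nat_lit 1) (nat_lit 3) (nat_lit 99) (nat_lit 31) (nat_lit 100) (nat_lit 170) (.trZ (nat_lit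 0) (nat_lit 2) (nat_lit 4) (nat_lit 100) (nat_lit 34) (nat_lit 81) (nat_lit 60) (.leaf ⟨(nat_lit 886), (nat_lit 87), (nat_lit 0), (nat_lit 27), (nat_lit 0), (nat_lit 3785), (nat_lit 1197), (nat_lit 315), (nat_lit 0), (nat_lit 0), (nat_lit 225700), [((nat_lit 400), [((nat_lit 29), (nat_lit 0), (nat_lit 858)), ((nat_lit 29), (nat_lit 1), (nat_lit 28))])], ⟨(nat_lit 6), false, false, false, (nat_lit 231), (nat_lit 0), (nat_lit 1582), [(nat_lit 1503356), (nat_lit 1510203), (nat_lit 1548673), (nat_lit 1558889), (nat_lit 1601257), (nat_lit 1599992), (nat_lit 1646579), (nat_lit 1648683)]⟩, ⟨(nat_lit 3), false, false, false, (nat_lit 128), (nat_lit 0), (nat_lit 1582), [(nat_lit 1213552), (nat_lit 1223038), (nat_lit 1281527), (nat_lit 1296068), (nat_lit 1352101), (nat_lit 1349997), (nat_lit 1421394), (nat_lit 1424345)]⟩, (nat_lit 4453697), (nat_lit 44745840), (nat_lit 15943621), (nat_lit 6310539), (nat_lit 5), (nat_lit 0), [⟨(nat_lit 0), (nat_lit 96), (nat_lit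 22), (nat_lit 100), (nat_lit 158639518)⟩], [⟨(nat_lit 0), (nat_lit 100), (nat_lit 23), (nat_lit 92), (nat_lit 98487557)⟩], [⟨(nat_lit 1), (nat_lit 55), (nat_lit 99), (nat_lit 100), (nat_lit 10934108)⟩], [],
 ⟨⟨[(nat_lit 40), (nat_lit 60), (nat_lit 80)], [(nat_lit 0), (nat_lit 2136), (nat_lit 3185)], [((nat_lit 0), (nat_lit 0), (nat_lit 0)), ((nat_lit 1000), (nat_lit 343), (nat_lit 808)), ((nat_lit 1000), (nat_lit 338), (nat_lit 820))], ((nat_lit 32), (nat_lit 100), (nat_lit 86))⟩, (nat_lit 576), (nat_lit 181), (nat_lit 181), (nat_lit 0), (nat_lit 272716), [(nat_lit 1585308003), (nat_lit 1361383211), (nat_lit 1720916000)], [(nat_lit 0), (nat_lit 0), (nat_lit 0)], [(nat_lit 23289957696), (nat_lit 24274029617), (nat_lit 25247182881), (nat_lit 26107821205), (nat_lit 23351316726), (nat_lit 23960574152), (nat_lit 24888382089), (nat_lit 25431053529)], (nat_lit 1271251), (nat_lit 1271251), (nat_lit 1184688), (nat_lit 1790626), (nat_lit 356250), (nat_lit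 1100000), [(nat_lit 490000), (nat_lit 780000), (nat_lit 1100000)], [(nat_lit 2), (nat_lit 44), (nat_lit 249), (nat_lit 40), (nat_lit 10)]⟩,
 ⟨⟨[(nat_lit 80), (nat_lit 140), (nat_lit 180)], [(nat_lit 0), (nat_lit 0), (nat_lit 3656)], [((nat_lit 0), (nat_lit 0), (nat_lit 0)), ((nat_lit 0), (nat_lit 0), (nat_lit 0)), ((nat_lit 637), (nat_lit 1000), (nat_lit 908))], ((nat_lit 100), (nat_lit 73), (nat_lit 85))⟩, (nat_lit 226732), (nat_lit 702), (nat_lit 702), (nat_lit 0), (nat_lit 1059735), [(nat_lit 534432000), (nat_lit 1121988000), (nat_lit 1602612000)], [], [(nat_lit 3842680807), (nat_lit 3889578540), (nat_lit 3772038954), (nat_lit 3802136493), (nat_lit 4069004879), (nat_lit 4118777605), (nat_lit 3957157852), (nat_lit 4035502074)], (nat_lit 1271251), (nat_lit 1271251), (nat_lit 1184688), (nat_lit 1790626), (nat_lit 1271251), (nat_lit 1271251), [(nat_lit 1100000), (nat_lit 2127501), (nat_lit 1271251)], [(nat_lit 19), (nat_lit 63), (nat_lit 483), (nat_lit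 250), (nat_lit 11)]⟩,
 ⟨⟨[(nat_lit 140), (nat_lit 180), (nat_lit 200)], [(nat_lit 0), (nat_lit 0), (nat_lit 2835)], [((nat_lit 0), (nat_lit 0), (nat_lit 0)), ((nat_lit 0), (nat_lit 0), (nat_lit 0)), ((nat_lit 363), (nat_lit 1000), (nat_lit 798))], ((nat_lit 0), (nat_lit 0), (nat_lit 0))⟩, (nat_lit 7429), (nat_lit 300), (nat_lit 2087), (nat_lit 2108700), (nat_lit 3570166), [(nat_lit 265734000), (nat_lit 379566000), (nat_lit 442800000)], [], [(nat_lit 1812703752), (nat_lit 1740478674), (nat_lit 1658635794), (nat_lit 1587721208), (nat_lit 1733147928), (nat_lit 1659618408), (nat_lit 1561780944), (nat_lit 1490160645)], (nat_lit 780000), (nat_lit 1271251), (nat_lit 356250), (nat_lit 1100000), (nat_lit 1271251), (nat_lit 1271251), [(nat_lit 1977501), (nat_lit 1271251), (nat_lit 1271251)], [(nat_lit 32), (nat_lit 67), (nat_lit 615), (nat_lit 200), (nat_lit 13)]⟩⟩))))))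
noncomputable def c14_44 : Tr Lf :=
 (.trZ (nat_lit 0) (nat_lit 2) (nat_lit 4) (nat_lit 100) (nat_lit 44) (nat_lit 86) (nat_lit 90) (.spl (nat_lit 5) (nat_lit 200) (.stt (nat_lit 2) (.leaf ⟨(nat_lit 0), (nat_lit 944), (nat_lit 0), (nat_lit 56), (nat_lit 12406), (nat_lit 4524), (nat_lit 7118), (nat_lit 992), (nat_lit 0), (nat_lit 0), (nat_lit 0), [], Pd.none, Pd.none, (nat_lit 0), (nat_lit 1), (nat_lit 0), (nat_lit 0), (nat_lit 4), (nat_lit 0), [⟨(nat_lit 0), (nat_lit 95), (nat_lit 31), (nat_lit 100), (nat_lit 338860025)⟩, ⟨(nat_lit 0), (nat_lit 100), (nat_lit 44), (nat_lit 99), (nat_lit 353407853)⟩], [], [], [],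
 ⟨⟨[(nat_lit 40), (nat_lit 80), (nat_lit 100)], [(nat_lit 0), (nat_lit 2514), (nat_lit 3562)], [((nat_lit 0), (nat_lit 0), (nat_lit 0)), ((nat_lit 1000), (nat_lit 446), (nat_lit 804)), ((nat_lit 1000), (nat_lit 443), (nat_lit 819))], ((nat_lit 44), (nat_lit 100), (nat_lit 84))⟩, (nat_lit 1274781), (nat_lit 219), (nat_lit 219), (nat_lit 0), (nat_lit 327430), [(nat_lit 2032000012), (nat_lit 4764470504), (nat_lit 6250000000)], [], [(nat_lit 22152180822), (nat_lit 24350482925), (nat_lit 24558496123), (nat_lit 26412753810), (nat_lit 22335471748), (nat_lit 24230433628), (nat_lit 24492630984), (nat_lit 26180378800)], (nat_lit 1271251), (nat_lit 1271251), (nat_lit 1017188), (nat_lit 1779376), (nat_lit 559688), (nat_lit 1100000), [(nat_lit 490000), (nat_lit 1100000), (nat_lit 1442501)], [(nat_lit 3), (nat_lit 50), (nat_lit 317), (nat_lit 100), (nat_lit 11)]⟩,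
 ⟨⟨[(nat_lit 80), (nat_lit 140), (nat_lit 180)], [(nat_lit 0), (nat_lit 0), (nat_lit 3656)], [((nat_lit 0), (nat_lit 0), (nat_lit 0)), ((nat_lit 0), (nat_lit 0), (nat_lit 0)), ((nat_lit 637), (nat_lit 1000), (nat_lit 908))], ((nat_lit 100), (nat_lit 73), (nat_lit 85))⟩, (nat_lit 3125645), (nat_lit 273), (nat_lit 273), (nat_lit 0), (nat_lit 0), [(nat_lit 4688000000), (nat_lit 9842000000), (nat_lit 14058000000)], [], [(nat_lit 26942177307), (nat_lit 29422275748), (nat_lit 29278454776), (nat_lit 31911838024), (nat_lit 24242761350), (nat_lit 26389730352), (nat_lit 26351494732), (nat_lit 28117525344)], (nat_lit 0), (nat_lit 0), (nat_lit 0), (nat_lit 0), (nat_lit 0), (nat_lit 0), [], [(nat_lit 19), (nat_lit 63), (nat_lit 428), (nat_lit 200), (nat_lit 10)]⟩,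
 ⟨⟨[(nat_lit 120), (nat_lit 160), (nat_lit 200)], [(nat_lit 0), (nat_lit 533), (nat_lit 3597)], [((nat_lit 0), (nat_lit 0), (nat_lit 0)), ((nat_lit 960), (nat_lit 1000), (nat_lit 200)), ((nat_lit 612), (nat_lit 1000), (nat_lit 732))], ((nat_lit 0), (nat_lit 0), (nat_lit 0))⟩, (nat_lit 29808), (nat_lit 300), (nat_lit 1289), (nat_lit 4055904), (nat_lit 1751519), [(nat_lit 446208000), (nat_lit 664832000), (nat_lit 918400000)], [], [(nat_lit 3841179222), (nat_lit 3779748298), (nat_lit 3500037568), (nat_lit 3435860544), (nat_lit 2658287679), (nat_lit 2593002548), (nat_lit 3132878352), (nat_lit 2280112036)], (nat_lit 1271251), (nat_lit 1271251), (nat_lit 559688), (nat_lit 1100000), (nat_lit 0), (nat_lit 1412501), [(nat_lit 1695001), (nat_lit 1271251), (nat_lit 1271251)], [(nat_lit 29), (nat_lit 66), (nat_lit 395), (nat_lit 150), (nat_lit 9)]⟩⟩) (.spl (nat_lit 0) (nat_lit 390) (.spl (nat_lit 1) (nat_lit 260) (.leaf ⟨(nat_lit 907), (nat_lit 82), (nat_lit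 0), (nat_lit 11), (nat_lit 1776), (nat_lit 3490), (nat_lit 1066), (nat_lit 212), (nat_lit 0), (nat_lit 0), (nat_lit 353500), [((nat_lit 390), [((nat_lit 29), (nat_lit 0), (nat_lit 62)), ((nat_lit 29), (nat_lit 1), (nat_lit 845))])], ⟨(nat_lit 6), false, false, false, (nat_lit 220), (nat_lit 1581), (nat_lit 2237), [(nat_lit 1474080), (nat_lit 1478137), (nat_lit 1496810), (nat_lit 1501407), (nat_lit 1602558), (nat_lit 1601260), (nat_lit 1625287), (nat_lit 1624529)]⟩, ⟨(nat_lit 4), false, false, false, (nat_lit 158), (nat_lit 1581), (nat_lit 2237), [(nat_lit 1320243), (nat_lit 1326247), (nat_lit 1365701), (nat_lit 1372786), (nat_lit 1420170), (nat_lit 1422009), (nat_lit 1465627), (nat_lit 1468548)]⟩, (nat_lit 4694774), (nat_lit 43774981), (nat_lit 14588274), (nat_lit 8636745), (nat_lit 4), (nat_lit 0), [], [⟨(nat_lit 0), (nat_lit 100), (nat_lit 38), (nat_lit 92), (nat_lit 26468940)⟩], [], [],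
 ⟨⟨[(nat_lit 40), (nat_lit 80), (nat_lit 100)], [(nat_lit 0), (nat_lit 2514), (nat_lit 3562)], [((nat_lit 0), (nat_lit 0), (nat_lit 0)), ((nat_lit 1000), (nat_lit 446), (nat_lit 804)), ((nat_lit 1000), (nat_lit 443), (nat_lit 819))], ((nat_lit 44), (nat_lit 100), (nat_lit 84))⟩, (nat_lit 0), (nat_lit 144), (nat_lit 144), (nat_lit 0), (nat_lit 152227), [(nat_lit 1444428446), (nat_lit 891456329), (nat_lit 771436800)], [(nat_lit 0), (nat_lit 0), (nat_lit 0)], [(nat_lit 21316021404), (nat_lit 22066119731), (nat_lit 23425491368), (nat_lit 24172224272), (nat_lit 21850447795), (nat_lit 22499773476), (nat_lit 23768875510), (nat_lit 24396151170)], (nat_lit 1271251), (nat_lit 1271251), (nat_lit 1017188), (nat_lit 1779376), (nat_lit 559688), (nat_lit 1100000), [(nat_lit 490000), (nat_lit 1100000), (nat_lit 1442501)], [(nat_lit 3), (nat_lit 50), (nat_lit 317), (nat_lit 100), (nat_lit 11)]⟩,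
 ⟨⟨[(nat_lit 80), (nat_lit 140), (nat_lit 180)], [(nat_lit 0), (nat_lit 0), (nat_lit 3656)], [((nat_lit 0), (nat_lit 0), (nat_lit 0)), ((nat_lit 0), (nat_lit 0), (nat_lit 0)), ((nat_lit 637), (nat_lit 1000), (nat_lit 908))], ((nat_lit 100), (nat_lit 73), (nat_lit 85))⟩, (nat_lit 57250), (nat_lit 608), (nat_lit 608), (nat_lit 0), (nat_lit 547771), [(nat_lit 435984000), (nat_lit 915306000), (nat_lit 1307394000)], [], [(nat_lit 4644885801), (nat_lit 4083307541), (nat_lit 3954950572), (nat_lit 3988451586), (nat_lit 3244101961), (nat_lit 3156503084), (nat_lit 4525011880), (nat_lit 4039053927)], (nat_lit 1271251), (nat_lit 1271251), (nat_lit 1017188), (nat_lit 1779376), (nat_lit 0), (nat_lit 1412501), [(nat_lit 1100000), (nat_lit 2127501), (nat_lit 1271251)], [(nat_lit 19), (nat_lit 63), (nat_lit 401), (nat_lit 175), (nat_lit 9)]⟩,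
 ⟨⟨[(nat_lit 120), (nat_lit 160), (nat_lit 200)], [(nat_lit 0), (nat_lit 533), (nat_lit 3597)], [((nat_lit 0), (nat_lit 0), (nat_lit 0)), ((nat_lit 960), (nat_lit 1000), (nat_lit 200)), ((nat_lit 612), (nat_lit 1000), (nat_lit 732))], ((nat_lit 0), (nat_lit 0), (nat_lit 0))⟩, (nat_lit 5855), (nat_lit 300), (nat_lit 872), (nat_lit 796698), (nat_lit 810293), [(nat_lit 87648000), (nat_lit 130592000), (nat_lit 180400000)], [], [(nat_lit 765882346), (nat_lit 751955995), (nat_lit 691801288), (nat_lit 677310264), (nat_lit 510020656), (nat_lit 495327673), (nat_lit 628193142), (nat_lit 427368279)], (nat_lit 1271251), (nat_lit 1271251), (nat_lit 559688), (nat_lit 1100000), (nat_lit 0), (nat_lit 1412501), [(nat_lit 1695001), (nat_lit 1271251), (nat_lit 1271251)], [(nat_lit 29), (nat_lit 66), (nat_lit 373), (nat_lit 150), (nat_lit 8)]⟩⟩) (.trZ (nat_lit 0) (nat_lit 1) (nat_lit 3) (nat_lit 96) (nat_lit 44) (nat_lit 100) (nat_lit 170) (.spl (nat_lit 0) (nat_lit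 385) (.leaf ⟨(nat_lit 846), (nat_lit 141), (nat_lit 0), (nat_lit 13), (nat_lit 2476), (nat_lit 3560), (nat_lit 1250), (nat_lit 250), (nat_lit 0), (nat_lit 0), (nat_lit 357600), [((nat_lit 385), [((nat_lit 29), (nat_lit 1), (nat_lit 750)), ((nat_lit 43), (nat_lit 2), (nat_lit 96))])], ⟨(nat_lit 6), false, false, false, (nat_lit 235), (nat_lit 1936), (nat_lit 2237), [(nat_lit 1525522), (nat_lit 1527077), (nat_lit 1548288), (nat_lit 1550079), (nat_lit 1625327), (nat_lit 1624911), (nat_lit 1648093), (nat_lit 1647913)]⟩, ⟨(nat_lit 4), false, false, false, (nat_lit 158), (nat_lit 1936), (nat_lit 2237), [(nat_lit 1320397), (nat_lit 1323258), (nat_lit 1365928), (nat_lit 1369262), (nat_lit 1420202), (nat_lit 1421092), (nat_lit 1465734), (nat_lit 1467097)]⟩, (nat_lit 4784872), (nat_lit 42596702), (nat_lit 15934212), (nat_lit 8469086), (nat_lit 4), (nat_lit 0), [], [⟨(nat_lit 0), (nat_lit 100), (nat_lit 38), (nat_lit 96), (nat_lit 3123551)⟩], [], [],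
 ⟨⟨[(nat_lit 40), (nat_lit 80), (nat_lit 100)], [(nat_lit 0), (nat_lit 2514), (nat_lit 3562)], [((nat_lit 0), (nat_lit 0), (nat_lit 0)), ((nat_lit 1000), (nat_lit 446), (nat_lit 804)), ((nat_lit 1000), (nat_lit 443), (nat_lit 819))], ((nat_lit 44), (nat_lit 100), (nat_lit 84))⟩, (nat_lit 0), (nat_lit 140), (nat_lit 140), (nat_lit 0), (nat_lit 160313), [(nat_lit 1458124024), (nat_lit 1030197410), (nat_lit 825486400)], [(nat_lit 0), (nat_lit 0), (nat_lit 0)], [(nat_lit 21687476620), (nat_lit 22055129820), (nat_lit 23468648495), (nat_lit 23854951619), (nat_lit 22144835019), (nat_lit 22479571727), (nat_lit 23790576640), (nat_lit 24088613220)], (nat_lit 1271251), (nat_lit 1271251), (nat_lit 1184688), (nat_lit 1790626), (nat_lit 559688), (nat_lit 1100000), [(nat_lit 490000), (nat_lit 1100000), (nat_lit 1442501)], [(nat_lit 3), (nat_lit 50), (nat_lit 317), (nat_lit 100), (nat_lit 11)]⟩,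
 ⟨⟨[(nat_lit 80), (nat_lit 140), (nat_lit 180)], [(nat_lit 0), (nat_lit 792), (nat_lit 4228)], [((nat_lit 0), (nat_lit 0), (nat_lit 0)), ((nat_lit 1000), (nat_lit 959), (nat_lit 206)), ((nat_lit 709), (nat_lit 1000), (nat_lit 949))], ((nat_lit 100), (nat_lit 82), (nat_lit 87))⟩, (nat_lit 310167), (nat_lit 575), (nat_lit 575), (nat_lit 0), (nat_lit 493041), [(nat_lit 721952000), (nat_lit 1515668000), (nat_lit 2164932000)], [], [(nat_lit 6600653146), (nat_lit 6183737796), (nat_lit 6123797490), (nat_lit 6182352992), (nat_lit 5201053034), (nat_lit 5273607359), (nat_lit 6503240735), (nat_lit 5933402610)], (nat_lit 1271251), (nat_lit 1271251), (nat_lit 1184688), (nat_lit 1790626), (nat_lit 0), (nat_lit 1412501), [(nat_lit 1100000), (nat_lit 2127501), (nat_lit 1271251)], [(nat_lit 19), (nat_lit 63), (nat_lit 428), (nat_lit 200), (nat_lit 10)]⟩,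
 ⟨⟨[(nat_lit 120), (nat_lit 160), (nat_lit 200)], [(nat_lit 0), (nat_lit 533), (nat_lit 3597)], [((nat_lit 0), (nat_lit 0), (nat_lit 0)), ((nat_lit 960), (nat_lit 1000), (nat_lit 200)), ((nat_lit 612), (nat_lit 1000), (nat_lit 732))], ((nat_lit 0), (nat_lit 0), (nat_lit 0))⟩, (nat_lit 6920), (nat_lit 300), (nat_lit 880), (nat_lit 941548), (nat_lit 831517), [(nat_lit 103584000), (nat_lit 154336000), (nat_lit 213200000)], [], [(nat_lit 904770428), (nat_lit 888371181), (nat_lit 817445076), (nat_lit 800379292), (nat_lit 603136412), (nat_lit 585831449), (nat_lit 742002603), (nat_lit 505722581)], (nat_lit 1271251), (nat_lit 1271251), (nat_lit 559688), (nat_lit 1100000), (nat_lit 0), (nat_lit 1412501), [(nat_lit 1695001), (nat_lit 1271251), (nat_lit 1271251)], [(nat_lit 29), (nat_lit 66), (nat_lit 373), (nat_lit 150), (nat_lit 8)]⟩⟩) (.trZ (nat_lit 0) (nat_lit 1) (nat_lit 3) (nat_lit 96) (nat_lit 38) (nat_lit 100) (nat_lit 180) (.trZ (nat_lit 0) (nat_lit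 2) (nat_lit 4) (nat_lit 100) (nat_lit 38) (nat_lit 89) (nat_lit 100) (.leaf ⟨(nat_lit 873), (nat_lit 119), (nat_lit 0), (nat_lit 8), (nat_lit 0), (nat_lit 3719), (nat_lit 1365), (nat_lit 123), (nat_lit 0), (nat_lit 0), (nat_lit 218250), [((nat_lit 390), [((nat_lit 29), (nat_lit 0), (nat_lit 873))])], ⟨(nat_lit 6), false, true, false, (nat_lit 238), (nat_lit 1581), (nat_lit 1937), [(nat_lit 1541029), (nat_lit 1542569), (nat_lit 1564026), (nat_lit 1565870), (nat_lit 1624905), (nat_lit 1624564), (nat_lit 1647901), (nat_lit 1647865)]⟩, ⟨(nat_lit 4), false, false, false, (nat_lit 161), (nat_lit 1581), (nat_lit 1937), [(nat_lit 1337211), (nat_lit 1340040), (nat_lit 1383204), (nat_lit 1386641), (nat_lit 1421086), (nat_lit 1422035), (nat_lit 1467079), (nat_lit 1468637)]⟩, (nat_lit 4836937), (nat_lit 42119720), (nat_lit 16162346), (nat_lit 8717934), (nat_lit 4), (nat_lit 0), [], [⟨(nat_lit 0), (nat_lit 100), (nat_lit 31), (nat_lit 98), (nat_lit 7283528)⟩],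 [], [],
 ⟨⟨[(nat_lit 40), (nat_lit 60), (nat_lit 80)], [(nat_lit 0), (nat_lit 1803), (nat_lit 2780)], [((nat_lit 0), (nat_lit 0), (nat_lit 0)), ((nat_lit 1000), (nat_lit 417), (nat_lit 754)), ((nat_lit 1000), (nat_lit 413), (nat_lit 764))], ((nat_lit 39), (nat_lit 100), (nat_lit 85))⟩, (nat_lit 4948), (nat_lit 121), (nat_lit 121), (nat_lit 0), (nat_lit 178450), [(nat_lit 1593019606), (nat_lit 1652055465), (nat_lit 1796973200)], [(nat_lit 0), (nat_lit 0), (nat_lit 0)], [(nat_lit 22437553687), (nat_lit 22827786770), (nat_lit 24072793720), (nat_lit 24483290032), (nat_lit 22799583487), (nat_lit 23159924319), (nat_lit 24280116260), (nat_lit 24604411327)], (nat_lit 1271251), (nat_lit 1271251), (nat_lit 1271251), (nat_lit 1271251), (nat_lit 631250), (nat_lit 1100000), [(nat_lit 490000), (nat_lit 780000), (nat_lit 1100000)], [(nat_lit 2), (nat_lit 44), (nat_lit 249), (nat_lit 40), (nat_lit 10)]⟩,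
 ⟨⟨[(nat_lit 80), (nat_lit 140), (nat_lit 180)], [(nat_lit 0), (nat_lit 792), (nat_lit 4228)], [((nat_lit 0), (nat_lit 0), (nat_lit 0)), ((nat_lit 1000), (nat_lit 959), (nat_lit 206)), ((nat_lit 709), (nat_lit 1000), (nat_lit 949))], ((nat_lit 100), (nat_lit 82), (nat_lit 87))⟩, (nat_lit 415749), (nat_lit 599), (nat_lit 599), (nat_lit 0), (nat_lit 563071), [(nat_lit 595376000), (nat_lit 1249934000), (nat_lit 1785366000)], [], [(nat_lit 4383557069), (nat_lit 4031683918), (nat_lit 3975015594), (nat_lit 4047243148), (nat_lit 4057952544), (nat_lit 3423126363), (nat_lit 2904192997), (nat_lit 2977636594)], (nat_lit 1271251), (nat_lit 1271251), (nat_lit 1271251), (nat_lit 1271251), (nat_lit 0), (nat_lit 1412501), [(nat_lit 1100000), (nat_lit 2127501), (nat_lit 1271251)], [(nat_lit 19), (nat_lit 63), (nat_lit 428), (nat_lit 200), (nat_lit 10)]⟩,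
 ⟨⟨[(nat_lit 120), (nat_lit 160), (nat_lit 200)], [(nat_lit 0), (nat_lit 533), (nat_lit 3597)], [((nat_lit 0), (nat_lit 0), (nat_lit 0)), ((nat_lit 960), (nat_lit 1000), (nat_lit 200)), ((nat_lit 612), (nat_lit 1000), (nat_lit 732))], ((nat_lit 0), (nat_lit 0), (nat_lit 0))⟩, (nat_lit 4258), (nat_lit 300), (nat_lit 922), (nat_lit 579420), (nat_lit 953158), [(nat_lit 63744000), (nat_lit 94976000), (nat_lit 131200000)], [], [(nat_lit 530476958), (nat_lit 523679031), (nat_lit 495321030), (nat_lit 488210482), (nat_lit 387711523), (nat_lit 380356650), (nat_lit 433573815), (nat_lit 348124506)], (nat_lit 1271251), (nat_lit 1271251), (nat_lit 631250), (nat_lit 1100000), (nat_lit 0), (nat_lit 1412501), [(nat_lit 1695001), (nat_lit 1271251), (nat_lit 1271251)], [(nat_lit 29), (nat_lit 66), (nat_lit 373), (nat_lit 150), (nat_lit 8)]⟩⟩)))))) (.trZ (nat_lit 0) (nat_lit 1) (nat_lit 3) (nat_lit 99) (nat_lit 31) (nat_lit 100) (nat_lit 170) (.trZ (nat_lit 0) (nat_lit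 2) (nat_lit 4) (nat_lit 100) (nat_lit 31) (nat_lit 92) (nat_lit 110) (.leaf ⟨(nat_lit 898), (nat_lit 55), (nat_lit 0), (nat_lit 47), (nat_lit 0), (nat_lit 3733), (nat_lit 1210), (nat_lit 680), (nat_lit 0), (nat_lit 0), (nat_lit 226600), [((nat_lit 400), [((nat_lit 29), (nat_lit 0), (nat_lit 884)), ((nat_lit 29), (nat_lit 1), (nat_lit 14))])], ⟨(nat_lit 6), false, false, false, (nat_lit 231), (nat_lit 0), (nat_lit 1582), [(nat_lit 1503356), (nat_lit 1510203), (nat_lit 1548673), (nat_lit 1558889), (nat_lit 1601257), (nat_lit 1599992), (nat_lit 1646579), (nat_lit 1648683)]⟩, ⟨(nat_lit 4), false, false, false, (nat_lit 165), (nat_lit 0), (nat_lit 1582), [(nat_lit 1351461), (nat_lit 1360206), (nat_lit 1396777), (nat_lit 1408893), (nat_lit 1421394), (nat_lit 1424345), (nat_lit 1466711), (nat_lit 1473031)]⟩, (nat_lit 4830583), (nat_lit 42448776), (nat_lit 15465076), (nat_lit 9086148), (nat_lit 4), (nat_lit 0), [], [⟨(nat_lit 0), (nat_lit 100), (nat_lit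 22), (nat_lit 98), (nat_lit 244558956)⟩, ⟨(nat_lit 0), (nat_lit 100), (nat_lit 31), (nat_lit 92), (nat_lit 25051621)⟩], [⟨(nat_lit 0), (nat_lit 100), (nat_lit 92), (nat_lit 49), (nat_lit 56296589)⟩], [],
 ⟨⟨[(nat_lit 40), (nat_lit 60), (nat_lit 80)], [(nat_lit 0), (nat_lit 2136), (nat_lit 3185)], [((nat_lit 0), (nat_lit 0), (nat_lit 0)), ((nat_lit 1000), (nat_lit 343), (nat_lit 808)), ((nat_lit 1000), (nat_lit 338), (nat_lit 820))], ((nat_lit 32), (nat_lit 100), (nat_lit 86))⟩, (nat_lit 728), (nat_lit 133), (nat_lit 133), (nat_lit 0), (nat_lit 212794), [(nat_lit 1584820001), (nat_lit 1323269352), (nat_lit 1697680000)], [(nat_lit 0), (nat_lit 0), (nat_lit 0)], [(nat_lit 22632635470), (nat_lit 23523057125), (nat_lit 24519816781), (nat_lit 25332111088), (nat_lit 23018683539), (nat_lit 23665241439), (nat_lit 24617143389), (nat_lit 25377751100)], (nat_lit 1271251), (nat_lit 1271251), (nat_lit 1184688), (nat_lit 1790626), (nat_lit 704688), (nat_lit 1100000),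 [(nat_lit 490000), (nat_lit 780000), (nat_lit 1100000)], [(nat_lit 2), (nat_lit 44), (nat_lit 249), (nat_lit 40), (nat_lit 10)]⟩,
 ⟨⟨[(nat_lit 80), (nat_lit 140), (nat_lit 180)], [(nat_lit 0), (nat_lit 0), (nat_lit 3656)], [((nat_lit 0), (nat_lit 0), (nat_lit 0)), ((nat_lit 0), (nat_lit 0), (nat_lit 0)), ((nat_lit 637), (nat_lit 1000), (nat_lit 908))], ((nat_lit 100), (nat_lit 73), (nat_lit 85))⟩, (nat_lit 232988), (nat_lit 704), (nat_lit 704), (nat_lit 0), (nat_lit 767189), [(nat_lit 478176000), (nat_lit 1003884000), (nat_lit 1433916000)], [], [(nat_lit 4522791650), (nat_lit 3891831930), (nat_lit 3766004152), (nat_lit 3815562240), (nat_lit 4297681902), (nat_lit 3168490391), (nat_lit 2784780716), (nat_lit 2812587138)], (nat_lit 1271251), (nat_lit 1271251), (nat_lit 1271251), (nat_lit 1271251), (nat_lit 0), (nat_lit 1412501), [(nat_lit 1100000), (nat_lit 2127501), (nat_lit 1271251)], [(nat_lit 19), (nat_lit 63), (nat_lit 428), (nat_lit 200), (nat_lit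 10)]⟩,
 ⟨⟨[(nat_lit 120), (nat_lit 160), (nat_lit 200)], [(nat_lit 0), (nat_lit 533), (nat_lit 3597)], [((nat_lit 0), (nat_lit 0), (nat_lit 0)), ((nat_lit 960), (nat_lit 1000), (nat_lit 200)), ((nat_lit 612), (nat_lit 1000), (nat_lit 732))], ((nat_lit 0), (nat_lit 0), (nat_lit 0))⟩, (nat_lit 25017), (nat_lit 300), (nat_lit 1038), (nat_lit 3404070), (nat_lit 1201710), [(nat_lit 374496000), (nat_lit 557984000), (nat_lit 770800000)], [], [(nat_lit 3099464445), (nat_lit 3029002982), (nat_lit 2931055729), (nat_lit 2862240048), (nat_lit 2322609741), (nat_lit 2252598903), (nat_lit 2515403772), (nat_lit 2096224455)], (nat_lit 1271251), (nat_lit 1271251), (nat_lit 704688), (nat_lit 1100000), (nat_lit 0), (nat_lit 1412501), [(nat_lit 1695001), (nat_lit 1271251), (nat_lit 1271251)], [(nat_lit 29), (nat_lit 66), (nat_lit 373), (nat_lit 150), (nat_lit 8)]⟩⟩))))) (.leaf ⟨(nat_lit 869), (nat_lit 59), (nat_lit 0), (nat_lit 72), (nat_lit 0), (nat_lit 3628), (nat_lit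 1529), (nat_lit 784), (nat_lit 0), (nat_lit 0), (nat_lit 325250), [((nat_lit 400), [((nat_lit 29), (nat_lit 0), (nat_lit 149)), ((nat_lit 29), (nat_lit 1), (nat_lit 720))])], ⟨(nat_lit 6), false, false, false, (nat_lit 225), (nat_lit 0), (nat_lit 2237), [(nat_lit 1470123), (nat_lit 1483344), (nat_lit 1513819), (nat_lit 1531491), (nat_lit 1602531), (nat_lit 1599967), (nat_lit 1646249), (nat_lit 1648136)]⟩, ⟨(nat_lit 4), false, false, false, (nat_lit 158), (nat_lit 0), (nat_lit 2237), [(nat_lit 1316293), (nat_lit 1333360), (nat_lit 1359989), (nat_lit 1381507), (nat_lit 1419294), (nat_lit 1424084), (nat_lit 1462989), (nat_lit 1472231)]⟩, (nat_lit 4729694), (nat_lit 43371062), (nat_lit 15000902), (nat_lit 8628036), (nat_lit 5), (nat_lit 0), [], [⟨(nat_lit 0), (nat_lit 100), (nat_lit 31), (nat_lit 95), (nat_lit 202325314)⟩], [], [],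
 ⟨⟨[(nat_lit 40), (nat_lit 80), (nat_lit 100)], [(nat_lit 0), (nat_lit 2514), (nat_lit 3562)], [((nat_lit 0), (nat_lit 0), (nat_lit 0)), ((nat_lit 1000), (nat_lit 446), (nat_lit 804)), ((nat_lit 1000), (nat_lit 443), (nat_lit 819))], ((nat_lit 44), (nat_lit 100), (nat_lit 84))⟩, (nat_lit 4782), (nat_lit 219), (nat_lit 219), (nat_lit 0), (nat_lit 327430), [(nat_lit 1474150909), (nat_lit 963803979), (nat_lit 1152603600)], [(nat_lit 0), (nat_lit 0), (nat_lit 0)], [(nat_lit 21848092167), (nat_lit 23194183606), (nat_lit 23768150952), (nat_lit 25167983570), (nat_lit 22359616611), (nat_lit 23530057514), (nat_lit 24154629602), (nat_lit 25271501396)], (nat_lit 1271251), (nat_lit 1271251), (nat_lit 1017188), (nat_lit 1779376), (nat_lit 559688), (nat_lit 1100000), [(nat_lit 490000), (nat_lit 1100000), (nat_lit 1442501)], [(nat_lit 3), (nat_lit 50), (nat_lit 317), (nat_lit 100), (nat_lit 11)]⟩,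
 ⟨⟨[(nat_lit 80), (nat_lit 140), (nat_lit 180)], [(nat_lit 0), (nat_lit 0), (nat_lit 3656)], [((nat_lit 0), (nat_lit 0), (nat_lit 0)), ((nat_lit 0), (nat_lit 0), (nat_lit 0)), ((nat_lit 637), (nat_lit 1000), (nat_lit 908))], ((nat_lit 100), (nat_lit 73), (nat_lit 85))⟩, (nat_lit 143482), (nat_lit 576), (nat_lit 576), (nat_lit 0), (nat_lit 768684), [(nat_lit 614128000), (nat_lit 1289302000), (nat_lit 1841598000)], [], [(nat_lit 4097586756), (nat_lit 4182226497), (nat_lit 5448685154), (nat_lit 4054737900), (nat_lit 5104489013), (nat_lit 5230147892), (nat_lit 4932793512), (nat_lit 5020242100)], (nat_lit 1271251), (nat_lit 1271251), (nat_lit 1017188), (nat_lit 1779376), (nat_lit 1271251), (nat_lit 1271251), [(nat_lit 1100000), (nat_lit 2127501), (nat_lit 1271251)], [(nat_lit 19), (nat_lit 63), (nat_lit 483), (nat_lit 250), (nat_lit 11)]⟩,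
 ⟨⟨[(nat_lit 120), (nat_lit 160), (nat_lit 200)], [(nat_lit 0), (nat_lit 533), (nat_lit 3597)], [((nat_lit 0), (nat_lit 0), (nat_lit 0)), ((nat_lit 960), (nat_lit 1000), (nat_lit 200)), ((nat_lit 612), (nat_lit 1000), (nat_lit 732))], ((nat_lit 0), (nat_lit 0), (nat_lit 0))⟩, (nat_lit 168585), (nat_lit 300), (nat_lit 1153), (nat_lit 4780802), (nat_lit 1751519), [(nat_lit 573696000), (nat_lit 854784000), (nat_lit 1180800000)], [], [(nat_lit 4012831181), (nat_lit 3924715082), (nat_lit 3772343132), (nat_lit 3684040980), (nat_lit 3886810542), (nat_lit 3796930666), (nat_lit 3631077960), (nat_lit 3541257080)], (nat_lit 1271251), (nat_lit 1271251), (nat_lit 559688), (nat_lit 1100000), (nat_lit 1271251), (nat_lit 1271251), [(nat_lit 1695001), (nat_lit 1271251), (nat_lit 1271251)], [(nat_lit 29), (nat_lit 66), (nat_lit 428), (nat_lit 200), (nat_lit 9)]⟩⟩)))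
noncomputable def c14_45 : Tr Lf :=
 (.spl (nat_lit 5) (nat_lit 200) (.leaf ⟨(nat_lit 0), (nat_lit 1000), (nat_lit 0), (nat_lit 0), (nat_lit 0), (nat_lit 4917), (nat_lit 7736), (nat_lit 0), (nat_lit 0), (nat_lit 0), (nat_lit 0), [], Pd.none, Pd.none, (nat_lit 0), (nat_lit 1), (nat_lit 0), (nat_lit 0), (nat_lit 3), (nat_lit 0), [], [], [], [],
 ⟨⟨[(nat_lit 40), (nat_lit 80), (nat_lit 100)], [(nat_lit 0), (nat_lit 2514), (nat_lit 3562)], [((nat_lit 0), (nat_lit 0), (nat_lit 0)), ((nat_lit 1000), (nat_lit 446), (nat_lit 804)), ((nat_lit 1000), (nat_lit 443), (nat_lit 819))], ((nat_lit 44), (nat_lit 100), (nat_lit 84))⟩, (nat_lit 800791), (nat_lit 281), (nat_lit 281), (nat_lit 0), (nat_lit 436783), [(nat_lit 2032000033), (nat_lit 4688000093), (nat_lit 6250000000)], [], [(nat_lit 27379450256), (nat_lit 29069628922), (nat_lit 31291490684), (nat_lit 32937238706), (nat_lit 26159904769), (nat_lit 27136836878), (nat_lit 28820709305), (nat_lit 30072123908)],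 (nat_lit 1271251), (nat_lit 1271251), (nat_lit 1271251), (nat_lit 1271251), (nat_lit 230000), (nat_lit 1100000), [(nat_lit 490000), (nat_lit 1100000), (nat_lit 1442501)], [(nat_lit 3), (nat_lit 50), (nat_lit 249), (nat_lit 40), (nat_lit 8)]⟩,
 ⟨⟨[(nat_lit 80), (nat_lit 140), (nat_lit 180)], [(nat_lit 0), (nat_lit 0), (nat_lit 3656)], [((nat_lit 0), (nat_lit 0), (nat_lit 0)), ((nat_lit 0), (nat_lit 0), (nat_lit 0)), ((nat_lit 637), (nat_lit 1000), (nat_lit 908))], ((nat_lit 100), (nat_lit 73), (nat_lit 85))⟩, (nat_lit 2499548), (nat_lit 269), (nat_lit 269), (nat_lit 0), (nat_lit 0), [(nat_lit 4688000000), (nat_lit 9842000000), (nat_lit 14058000000)], [], [(nat_lit 31580765824), (nat_lit 33701862864), (nat_lit 35822959904), (nat_lit 37437228864), (nat_lit 25810052752), (nat_lit 27452179344), (nat_lit 29476827376), (nat_lit 31187627664)], (nat_lit 0), (nat_lit 0), (nat_lit 0), (nat_lit 0), (nat_lit 0), (nat_lit 0), [], [(nat_lit 19), (nat_lit 63),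 (nat_lit 428), (nat_lit 200), (nat_lit 10)]⟩,
 Rw.none⟩) (.leaf ⟨(nat_lit 22), (nat_lit 978), (nat_lit 0), (nat_lit 0), (nat_lit 0), (nat_lit 4323), (nat_lit 5805), (nat_lit 0), (nat_lit 0), (nat_lit 0), (nat_lit 88000), [((nat_lit 400), [((nat_lit 43), (nat_lit 5), (nat_lit 22))])], ⟨(nat_lit 6), true, false, true, (nat_lit 271), (nat_lit 0), (nat_lit 2237), [(nat_lit 1602531), (nat_lit 1599967), (nat_lit 1646249), (nat_lit 1648136), (nat_lit 1716590), (nat_lit 1699995), (nat_lit 1762141), (nat_lit 1749998)]⟩, ⟨(nat_lit 3), false, false, false, (nat_lit 122), (nat_lit 0), (nat_lit 2237), [(nat_lit 1177178), (nat_lit 1196337), (nat_lit 1242721), (nat_lit 1268557), (nat_lit 1351885), (nat_lit 1349998), (nat_lit 1419294), (nat_lit 1424084)]⟩, (nat_lit 4601460), (nat_lit 41530737), (nat_lit 19889907), (nat_lit 5579356), (nat_lit 5), (nat_lit 0), [], [], [⟨(nat_lit 1), (nat_lit 30), (nat_lit 98), (nat_lit 100), (nat_lit 223240203)⟩], [],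
 ⟨⟨[(nat_lit 40), (nat_lit 80), (nat_lit 100)], [(nat_lit 0), (nat_lit 2514), (nat_lit 3562)], [((nat_lit 0), (nat_lit 0), (nat_lit 0)), ((nat_lit 1000), (nat_lit 446), (nat_lit 804)), ((nat_lit 1000), (nat_lit 443), (nat_lit 819))], ((nat_lit 44), (nat_lit 100), (nat_lit 84))⟩, (nat_lit 948450), (nat_lit 281), (nat_lit 281), (nat_lit 0), (nat_lit 436783), [(nat_lit 1823484015), (nat_lit 3969858447), (nat_lit 5224571200)], [(nat_lit 0), (nat_lit 0), (nat_lit 0)], [(nat_lit 26019964597), (nat_lit 27897508918), (nat_lit 30056830796), (nat_lit 31590867614), (nat_lit 24916703593), (nat_lit 25976424100), (nat_lit 27965142595), (nat_lit 29323253852)], (nat_lit 1271251), (nat_lit 1271251), (nat_lit 1271251), (nat_lit 1271251), (nat_lit 230000), (nat_lit 1100000), [(nat_lit 490000), (nat_lit 1100000), (nat_lit 1442501)], [(nat_lit 3), (nat_lit 50), (nat_lit 249), (nat_lit 40), (nat_lit 8)]⟩,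
 ⟨⟨[(nat_lit 80), (nat_lit 140), (nat_lit 180)], [(nat_lit 0), (nat_lit 0), (nat_lit 3656)], [((nat_lit 0), (nat_lit 0), (nat_lit 0)), ((nat_lit 0), (nat_lit 0), (nat_lit 0)), ((nat_lit 637), (nat_lit 1000), (nat_lit 908))], ((nat_lit 100), (nat_lit 73), (nat_lit 85))⟩, (nat_lit 0), (nat_lit 101), (nat_lit 101), (nat_lit 0), (nat_lit 0), [(nat_lit 4584864000), (nat_lit 9625476000), (nat_lit 13748724000)], [], [(nat_lit 16556953566), (nat_lit 19082088768), (nat_lit 21607223970), (nat_lit 23608462794), (nat_lit 27659138670), (nat_lit 29283052851), (nat_lit 30906967032), (nat_lit 32175330905)], (nat_lit 0), (nat_lit 0), (nat_lit 0), (nat_lit 0), (nat_lit 0), (nat_lit 0), [], [(nat_lit 19), (nat_lit 63), (nat_lit 483), (nat_lit 250), (nat_lit 10)]⟩,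
 Rw.none⟩))
noncomputable def c14_46 : Tr Lf :=
 (.spl (nat_lit 1) (nat_lit 260) (.spl (nat_lit 5) (nat_lit 120) (.spl (nat_lit 0) (nat_lit 385) (.leaf ⟨(nat_lit 762), (nat_lit 238), (nat_lit 0), (nat_lit 0), (nat_lit 0), (nat_lit 3086), (nat_lit 2480), (nat_lit 0), (nat_lit 0), (nat_lit 0), (nat_lit 362600), [((nat_lit 385), [((nat_lit 29), (nat_lit 1), (nat_lit 473)), ((nat_lit 43), (nat_lit 2), (nat_lit 289))])], ⟨(nat_lit 6), false, true, true, (nat_lit 268), (nat_lit 1936), (nat_lit 2237), [(nat_lit 1602562), (nat_lit 1601908), (nat_lit 1625327), (nat_lit 1624911), (nat_lit 1716594), (nat_lit 1713688), (nat_lit 1739368), (nat_lit 1736698)]⟩, ⟨(nat_lit 3), false, false, false, (nat_lit 121), (nat_lit 1936), (nat_lit 2237), [(nat_lit 1180811), (nat_lit 1184371), (nat_lit 1249108), (nat_lit 1253377), (nat_lit 1351886), (nat_lit 1352066), (nat_lit 1420202), (nat_lit 1421092)]⟩, (nat_lit 4578085), (nat_lit 41858661), (nat_lit 19596090), (nat_lit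 5545249), (nat_lit 3), (nat_lit 0), [], [], [], [⟨(nat_lit 0), (nat_lit 100), (nat_lit 82), (nat_lit 44), (nat_lit 46964570)⟩],
 ⟨⟨[(nat_lit 40), (nat_lit 80), (nat_lit 100)], [(nat_lit 0), (nat_lit 2514), (nat_lit 3562)], [((nat_lit 0), (nat_lit 0), (nat_lit 0)), ((nat_lit 1000), (nat_lit 446), (nat_lit 804)), ((nat_lit 1000), (nat_lit 443), (nat_lit 819))], ((nat_lit 44), (nat_lit 100), (nat_lit 84))⟩, (nat_lit 0), (nat_lit 140), (nat_lit 140), (nat_lit 0), (nat_lit 0), [(nat_lit 1490898402), (nat_lit 963726370), (nat_lit 907259600)], [(nat_lit 0), (nat_lit 0), (nat_lit 0)], [(nat_lit 24445902174), (nat_lit 24745191969), (nat_lit 27485661972), (nat_lit 27811011766), (nat_lit 24439625830), (nat_lit 24703840147), (nat_lit 27047783548), (nat_lit 27273757862)], (nat_lit 0), (nat_lit 0), (nat_lit 0), (nat_lit 0), (nat_lit 0), (nat_lit 0), [], [(nat_lit 3), (nat_lit 50), (nat_lit 249), (nat_lit 40), (nat_lit 8)]⟩,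
 ⟨⟨[(nat_lit 80), (nat_lit 140), (nat_lit 180)], [(nat_lit 0), (nat_lit 0), (nat_lit 3656)], [((nat_lit 0), (nat_lit 0), (nat_lit 0)), ((nat_lit 0), (nat_lit 0), (nat_lit 0)), ((nat_lit 637), (nat_lit 1000), (nat_lit 908))], ((nat_lit 100), (nat_lit 73), (nat_lit 85))⟩, (nat_lit 429853), (nat_lit 598), (nat_lit 598), (nat_lit 0), (nat_lit 601348), [(nat_lit 1115744000), (nat_lit 2342396000), (nat_lit 3345804000)], [], [(nat_lit 9553813232), (nat_lit 9640690240), (nat_lit 9901321264), (nat_lit 9953813840), (nat_lit 7838967780), (nat_lit 7911198224), (nat_lit 8171152768), (nat_lit 8248170969)], (nat_lit 1271251), (nat_lit 1271251), (nat_lit 1271251), (nat_lit 1271251), (nat_lit 0), (nat_lit 780000), [(nat_lit 1100000), (nat_lit 2127501), (nat_lit 1271251)], [(nat_lit 19), (nat_lit 63), (nat_lit 401), (nat_lit 175), (nat_lit 9)]⟩,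
 Rw.none⟩) (.trZ (nat_lit 0) (nat_lit 2) (nat_lit 4) (nat_lit 100) (nat_lit 41) (nat_lit 76) (nat_lit 50) (.leaf ⟨(nat_lit 839), (nat_lit 161), (nat_lit 0), (nat_lit 0), (nat_lit 0), (nat_lit 3128), (nat_lit 1679), (nat_lit 0), (nat_lit 0), (nat_lit 0), (nat_lit 247850), [((nat_lit 390), [((nat_lit 29), (nat_lit 0), (nat_lit 585)), ((nat_lit 29), (nat_lit 1), (nat_lit 254))])], ⟨(nat_lit 6), false, true, true, (nat_lit 267), (nat_lit 1581), (nat_lit 1937), [(nat_lit 1601908), (nat_lit 1601263), (nat_lit 1624905), (nat_lit 1624564), (nat_lit 1713688), (nat_lit 1710536), (nat_lit 1736698), (nat_lit 1733851)]⟩, ⟨(nat_lit 3), false, false, false, (nat_lit 124), (nat_lit 1581), (nat_lit 1937), [(nat_lit 1198326), (nat_lit 1201810), (nat_lit 1267315), (nat_lit 1271711), (nat_lit 1352066), (nat_lit 1352103), (nat_lit 1421086), (nat_lit 1422035)]⟩, (nat_lit 4615071), (nat_lit 41730163), (nat_lit 19473666), (nat_lit 5796171), (nat_lit 3), (nat_lit 0), [],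 [], [], [⟨(nat_lit 0), (nat_lit 100), (nat_lit 82), (nat_lit 44), (nat_lit 31815685)⟩],
 ⟨⟨[(nat_lit 40), (nat_lit 60), (nat_lit 80)], [(nat_lit 0), (nat_lit 1803), (nat_lit 2780)], [((nat_lit 0), (nat_lit 0), (nat_lit 0)), ((nat_lit 1000), (nat_lit 417), (nat_lit 754)), ((nat_lit 1000), (nat_lit 413), (nat_lit 764))], ((nat_lit 39), (nat_lit 100), (nat_lit 85))⟩, (nat_lit 0), (nat_lit 116), (nat_lit 116), (nat_lit 0), (nat_lit 0), [(nat_lit 1558737201), (nat_lit 1321752333), (nat_lit 1610152400)], [(nat_lit 0), (nat_lit 0), (nat_lit 0)], [(nat_lit 24548782768), (nat_lit 24866693438), (nat_lit 27619892460), (nat_lit 27945436416), (nat_lit 24700686639), (nat_lit 24982677429), (nat_lit 27432453525), (nat_lit 27672734265)], (nat_lit 0), (nat_lit 0), (nat_lit 0), (nat_lit 0), (nat_lit 0), (nat_lit 0), [], [(nat_lit 2), (nat_lit 44), (nat_lit 249), (nat_lit 40), (nat_lit 10)]⟩,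
 ⟨⟨[(nat_lit 80), (nat_lit 140), (nat_lit 180)], [(nat_lit 0), (nat_lit 0), (nat_lit 3656)], [((nat_lit 0), (nat_lit 0), (nat_lit 0)), ((nat_lit 0), (nat_lit 0), (nat_lit 0)), ((nat_lit 637), (nat_lit 1000), (nat_lit 908))], ((nat_lit 100), (nat_lit 73), (nat_lit 85))⟩, (nat_lit 290801), (nat_lit 633), (nat_lit 633), (nat_lit 0), (nat_lit 692055), [(nat_lit 754768000), (nat_lit 1584562000), (nat_lit 2263338000)], [], [(nat_lit 6460252432), (nat_lit 6519015937), (nat_lit 6695306452), (nat_lit 6731469421), (nat_lit 5299061736), (nat_lit 5347911678), (nat_lit 5523723792), (nat_lit 5575814894)], (nat_lit 1271251), (nat_lit 1271251), (nat_lit 1271251), (nat_lit 1271251), (nat_lit 0), (nat_lit 780000), [(nat_lit 1100000), (nat_lit 2127501), (nat_lit 1271251)], [(nat_lit 19), (nat_lit 63), (nat_lit 401), (nat_lit 175), (nat_lit 9)]⟩,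
 Rw.none⟩))) (.spl (nat_lit 0) (nat_lit 385) (.leaf ⟨(nat_lit 832), (nat_lit 153), (nat_lit 0), (nat_lit 15), (nat_lit 0), (nat_lit 2981), (nat_lit 1881), (nat_lit 226), (nat_lit 0), (nat_lit 0), (nat_lit 354600), [((nat_lit 385), [((nat_lit 29), (nat_lit 1), (nat_lit 723)), ((nat_lit 43), (nat_lit 2), (nat_lit 109))])], ⟨(nat_lit 6), false, true, true, (nat_lit 268), (nat_lit 1936), (nat_lit 2237), [(nat_lit 1602562), (nat_lit 1601908), (nat_lit 1625327), (nat_lit 1624911), (nat_lit 1716594), (nat_lit 1713688), (nat_lit 1739368), (nat_lit 1736698)]⟩, ⟨(nat_lit 3), false, false, false, (nat_lit 121), (nat_lit 1936), (nat_lit 2237), [(nat_lit 1180811), (nat_lit 1184371), (nat_lit 1249108), (nat_lit 1253377), (nat_lit 1351886), (nat_lit 1352066), (nat_lit 1420202), (nat_lit 1421092)]⟩, (nat_lit 4578085), (nat_lit 41858661), (nat_lit 19596090), (nat_lit 5545249), (nat_lit 3), (nat_lit 0), [], [], [], [],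
 ⟨⟨[(nat_lit 40), (nat_lit 80), (nat_lit 100)], [(nat_lit 0), (nat_lit 2514), (nat_lit 3562)], [((nat_lit 0), (nat_lit 0), (nat_lit 0)), ((nat_lit 1000), (nat_lit 446), (nat_lit 804)), ((nat_lit 1000), (nat_lit 443), (nat_lit 819))], ((nat_lit 44), (nat_lit 100), (nat_lit 84))⟩, (nat_lit 0), (nat_lit 140), (nat_lit 140), (nat_lit 0), (nat_lit 0), [(nat_lit 1463678407), (nat_lit 862168750), (nat_lit 882347600)], [(nat_lit 0), (nat_lit 0), (nat_lit 0)], [(nat_lit 24446243719), (nat_lit 24741021664), (nat_lit 27328988779), (nat_lit 27587827074), (nat_lit 24514491545), (nat_lit 24774964240), (nat_lit 27103422398), (nat_lit 27326556751)], (nat_lit 0), (nat_lit 0), (nat_lit 0), (nat_lit 0), (nat_lit 0), (nat_lit 0), [], [(nat_lit 3), (nat_lit 50), (nat_lit 249), (nat_lit 40), (nat_lit 8)]⟩,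
 ⟨⟨[(nat_lit 80), (nat_lit 140), (nat_lit 180)], [(nat_lit 0), (nat_lit 0), (nat_lit 3656)], [((nat_lit 0), (nat_lit 0), (nat_lit 0)), ((nat_lit 0), (nat_lit 0), (nat_lit 0)), ((nat_lit 637), (nat_lit 1000), (nat_lit 908))], ((nat_lit 100), (nat_lit 73), (nat_lit 85))⟩, (nat_lit 304248), (nat_lit 559), (nat_lit 559), (nat_lit 0), (nat_lit 720275), [(nat_lit 787584000), (nat_lit 1653456000), (nat_lit 2361744000)], [], [(nat_lit 5173418634), (nat_lit 5223264575), (nat_lit 5399587632), (nat_lit 5453127969), (nat_lit 4866965766), (nat_lit 4915464173), (nat_lit 5106076248), (nat_lit 5146894890)], (nat_lit 1271251), (nat_lit 1271251), (nat_lit 1271251), (nat_lit 1271251), (nat_lit 780000), (nat_lit 1435001), [(nat_lit 1100000), (nat_lit 2127501), (nat_lit 1271251)], [(nat_lit 19), (nat_lit 63), (nat_lit 428), (nat_lit 200), (nat_lit 9)]⟩,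
 ⟨⟨[(nat_lit 140), (nat_lit 180), (nat_lit 200)], [(nat_lit 0), (nat_lit 0), (nat_lit 2835)], [((nat_lit 0), (nat_lit 0), (nat_lit 0)), ((nat_lit 0), (nat_lit 0), (nat_lit 0)), ((nat_lit 363), (nat_lit 1000), (nat_lit 798))], ((nat_lit 0), (nat_lit 0), (nat_lit 0))⟩, (nat_lit 4127), (nat_lit 300), (nat_lit 1538), (nat_lit 1171500), (nat_lit 2329458), [(nat_lit 147630000), (nat_lit 210870000), (nat_lit 246000000)], [], [(nat_lit 994973956), (nat_lit 945198418), (nat_lit 833158734), (nat_lit 800644899), (nat_lit 927683396), (nat_lit 877592949), (nat_lit 849788136), (nat_lit 1005934388)], (nat_lit 780000), (nat_lit 1271251), (nat_lit 230000), (nat_lit 1100000), (nat_lit 780000), (nat_lit 1435001), [(nat_lit 1977501), (nat_lit 1271251), (nat_lit 1271251)], [(nat_lit 32), (nat_lit 67), (nat_lit 452), (nat_lit 150), (nat_lit 10)]⟩⟩) (.trZ (nat_lit 0) (nat_lit 2) (nat_lit 4) (nat_lit 100) (nat_lit 41) (nat_lit 76) (nat_lit 50) (.leaf ⟨(nat_lit 876), (nat_lit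 99), (nat_lit 0), (nat_lit 25), (nat_lit 0), (nat_lit 3107), (nat_lit 1387), (nat_lit 401), (nat_lit 0), (nat_lit 0), (nat_lit 237300), [((nat_lit 390), [((nat_lit 29), (nat_lit 0), (nat_lit 754)), ((nat_lit 29), (nat_lit 1), (nat_lit 122))])], ⟨(nat_lit 6), false, true, true, (nat_lit 267), (nat_lit 1581), (nat_lit 1937), [(nat_lit 1601908), (nat_lit 1601263), (nat_lit 1624905), (nat_lit 1624564), (nat_lit 1713688), (nat_lit 1710536), (nat_lit 1736698), (nat_lit 1733851)]⟩, ⟨(nat_lit 3), false, false, false, (nat_lit 124), (nat_lit 1581), (nat_lit 1937), [(nat_lit 1198326), (nat_lit 1201810), (nat_lit 1267315), (nat_lit 1271711), (nat_lit 1352066), (nat_lit 1352103), (nat_lit 1421086), (nat_lit 1422035)]⟩, (nat_lit 4615071), (nat_lit 41730163), (nat_lit 19473666), (nat_lit 5796171), (nat_lit 3), (nat_lit 0), [⟨(nat_lit 1), (nat_lit 85), (nat_lit 36), (nat_lit 100), (nat_lit 272971534)⟩], [⟨(nat_lit 0), (nat_lit 100), (nat_lit 36), (nat_lit 85),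 (nat_lit 9216925)⟩, ⟨(nat_lit 0), (nat_lit 100), (nat_lit 31), (nat_lit 92), (nat_lit 9124574)⟩], [], [],
 ⟨⟨[(nat_lit 40), (nat_lit 60), (nat_lit 80)], [(nat_lit 0), (nat_lit 1803), (nat_lit 2780)], [((nat_lit 0), (nat_lit 0), (nat_lit 0)), ((nat_lit 1000), (nat_lit 417), (nat_lit 754)), ((nat_lit 1000), (nat_lit 413), (nat_lit 764))], ((nat_lit 39), (nat_lit 100), (nat_lit 85))⟩, (nat_lit 0), (nat_lit 116), (nat_lit 116), (nat_lit 0), (nat_lit 0), [(nat_lit 1572014420), (nat_lit 1322870342), (nat_lit 1643224800)], [(nat_lit 0), (nat_lit 0), (nat_lit 0)], [(nat_lit 24605786286), (nat_lit 24922715850), (nat_lit 27630778356), (nat_lit 27902587601), (nat_lit 24770554242), (nat_lit 25051722252), (nat_lit 27497997895), (nat_lit 27738336876)], (nat_lit 0), (nat_lit 0), (nat_lit 0), (nat_lit 0), (nat_lit 0), (nat_lit 0), [], [(nat_lit 2), (nat_lit 44), (nat_lit 249), (nat_lit 40), (nat_lit 10)]⟩,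
 ⟨⟨[(nat_lit 80), (nat_lit 140), (nat_lit 180)], [(nat_lit 0), (nat_lit 0), (nat_lit 3656)], [((nat_lit 0), (nat_lit 0), (nat_lit 0)), ((nat_lit 0), (nat_lit 0), (nat_lit 0)), ((nat_lit 637), (nat_lit 1000), (nat_lit 908))], ((nat_lit 100), (nat_lit 73), (nat_lit 85))⟩, (nat_lit 224148), (nat_lit 602), (nat_lit 602), (nat_lit 0), (nat_lit 827342), [(nat_lit 581312000), (nat_lit 1220408000), (nat_lit 1743192000)], [], [(nat_lit 3823711334), (nat_lit 3860514252), (nat_lit 3989242512), (nat_lit 4028707056), (nat_lit 3597902434), (nat_lit 3632278830), (nat_lit 3772977088), (nat_lit 3801527103)], (nat_lit 1271251), (nat_lit 1271251), (nat_lit 1271251), (nat_lit 1271251), (nat_lit 780000), (nat_lit 1435001), [(nat_lit 1100000), (nat_lit 2127501), (nat_lit 1271251)], [(nat_lit 19), (nat_lit 63), (nat_lit 428), (nat_lit 200), (nat_lit 9)]⟩,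
 ⟨⟨[(nat_lit 140), (nat_lit 180), (nat_lit 200)], [(nat_lit 0), (nat_lit 0), (nat_lit 2835)], [((nat_lit 0), (nat_lit 0), (nat_lit 0)), ((nat_lit 0), (nat_lit 0), (nat_lit 0)), ((nat_lit 363), (nat_lit 1000), (nat_lit 798))], ((nat_lit 0), (nat_lit 0), (nat_lit 0))⟩, (nat_lit 6878), (nat_lit 300), (nat_lit 1674), (nat_lit 1952505), (nat_lit 2629039), [(nat_lit 246050000), (nat_lit 351450000), (nat_lit 410000000)], [], [(nat_lit 1598537506), (nat_lit 1509324919), (nat_lit 1343185254), (nat_lit 1346015932), (nat_lit 1477980318), (nat_lit 1400416817), (nat_lit 1432154706), (nat_lit 1706037098)], (nat_lit 780000), (nat_lit 1271251), (nat_lit 292188), (nat_lit 1100000), (nat_lit 780000), (nat_lit 1435001), [(nat_lit 1977501), (nat_lit 1271251), (nat_lit 1271251)], [(nat_lit 32), (nat_lit 67), (nat_lit 486), (nat_lit 150), (nat_lit 10)]⟩⟩)))) (.leaf ⟨(nat_lit 620), (nat_lit 380), (nat_lit 0), (nat_lit 0), (nat_lit 0), (nat_lit 3451), (nat_lit 3081),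 (nat_lit 0), (nat_lit 0), (nat_lit 0), (nat_lit 347800), [((nat_lit 390), [((nat_lit 29), (nat_lit 1), (nat_lit 121)), ((nat_lit 43), (nat_lit 2), (nat_lit 499))])], ⟨(nat_lit 6), false, true, true, (nat_lit 277), (nat_lit 1581), (nat_lit 2237), [(nat_lit 1625287), (nat_lit 1624529), (nat_lit 1648016), (nat_lit 1647799), (nat_lit 1739368), (nat_lit 1733851), (nat_lit 1762142), (nat_lit 1757166)]⟩, ⟨(nat_lit 3), false, false, false, (nat_lit 121), (nat_lit 1581), (nat_lit 2237), [(nat_lit 1180680), (nat_lit 1188036), (nat_lit 1248867), (nat_lit 1257845), (nat_lit 1351886), (nat_lit 1352103), (nat_lit 1420170), (nat_lit 1422009)]⟩, (nat_lit 4619783), (nat_lit 41058204), (nat_lit 20430955), (nat_lit 5510841), (nat_lit 3), (nat_lit 0), [], [], [], [],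
 ⟨⟨[(nat_lit 40), (nat_lit 80), (nat_lit 100)], [(nat_lit 0), (nat_lit 2514), (nat_lit 3562)], [((nat_lit 0), (nat_lit 0), (nat_lit 0)), ((nat_lit 1000), (nat_lit 446), (nat_lit 804)), ((nat_lit 1000), (nat_lit 443), (nat_lit 819))], ((nat_lit 44), (nat_lit 100), (nat_lit 84))⟩, (nat_lit 0), (nat_lit 142), (nat_lit 142), (nat_lit 0), (nat_lit 0), [(nat_lit 1546861091), (nat_lit 1385351154), (nat_lit 1307735600)], [(nat_lit 0), (nat_lit 0), (nat_lit 0)], [(nat_lit 24822290243), (nat_lit 25489004470), (nat_lit 28244333452), (nat_lit 28929355085), (nat_lit 24454596289), (nat_lit 25009038108), (nat_lit 27129590252), (nat_lit 27614837615)], (nat_lit 0), (nat_lit 0), (nat_lit 0), (nat_lit 0), (nat_lit 0), (nat_lit 0), [], [(nat_lit 3), (nat_lit 50), (nat_lit 249), (nat_lit 40), (nat_lit 8)]⟩,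
 ⟨⟨[(nat_lit 80), (nat_lit 140), (nat_lit 180)], [(nat_lit 0), (nat_lit 792), (nat_lit 4228)], [((nat_lit 0), (nat_lit 0), (nat_lit 0)), ((nat_lit 1000), (nat_lit 959), (nat_lit 206)), ((nat_lit 709), (nat_lit 1000), (nat_lit 949))], ((nat_lit 100), (nat_lit 82), (nat_lit 87))⟩, (nat_lit 2117912), (nat_lit 671), (nat_lit 671), (nat_lit 0), (nat_lit 799826), [(nat_lit 1781440000), (nat_lit 3739960000), (nat_lit 5342040000)], [], [(nat_lit 11991316247), (nat_lit 12100417142), (nat_lit 12606348421), (nat_lit 12802293478), (nat_lit 9792831252), (nat_lit 9862787107), (nat_lit 10258295440), (nat_lit 10400285092)], (nat_lit 1271251), (nat_lit 1271251), (nat_lit 1271251), (nat_lit 1271251), (nat_lit 0), (nat_lit 1412501), [(nat_lit 1100000), (nat_lit 2127501), (nat_lit 1271251)], [(nat_lit 19), (nat_lit 63), (nat_lit 428), (nat_lit 200), (nat_lit 10)]⟩,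
 Rw.none⟩))
noncomputable def c14_47 : Tr Lf :=
 (.trZ (nat_lit 0) (nat_lit 2) (nat_lit 4) (nat_lit 100) (nat_lit 34) (nat_lit 81) (nat_lit 60) (.spl (nat_lit 1) (nat_lit 260) (.spl (nat_lit 1) (nat_lit 250) (.trX (nat_lit 3) (nat_lit 0) (nat_lit 1) (nat_lit 32) (nat_lit 87) (nat_lit 100) (nat_lit 310) (.leaf ⟨(nat_lit 897), (nat_lit 103), (nat_lit 0), (nat_lit 0), (nat_lit 0), (nat_lit 3287), (nat_lit 1131), (nat_lit 0), (nat_lit 0), (nat_lit 0), (nat_lit 224250), [((nat_lit 400), [((nat_lit 29), (nat_lit 0), (nat_lit 897))])], ⟨(nat_lit 6), false, true, true, (nat_lit 261), (nat_lit 0), (nat_lit 1582), [(nat_lit 1601257), (nat_lit 1599992), (nat_lit 1612591), (nat_lit 1612168), (nat_lit 1696874), (nat_lit 1687496), (nat_lit 1708532), (nat_lit 1699997)]⟩, ⟨(nat_lit 3), false, false, false, (nat_lit 128), (nat_lit 0), (nat_lit 1582), [(nat_lit 1213552), (nat_lit 1223038), (nat_lit 1281527), (nat_lit 1296068), (nat_lit 1352101), (nat_lit 1349997),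 (nat_lit 1421394), (nat_lit 1424345)]⟩, (nat_lit 4626114), (nat_lit 42093955), (nat_lit 18805309), (nat_lit 6100736), (nat_lit 3), (nat_lit 0), [⟨(nat_lit 1), (nat_lit 92), (nat_lit 23), (nat_lit 100), (nat_lit 454049167)⟩, ⟨(nat_lit 1), (nat_lit 87), (nat_lit 32), (nat_lit 100), (nat_lit 15999921)⟩], [], [⟨(nat_lit 0), (nat_lit 100), (nat_lit 97), (nat_lit 15), (nat_lit 6783709)⟩], [],
 ⟨⟨[(nat_lit 40), (nat_lit 60), (nat_lit 80)], [(nat_lit 0), (nat_lit 2136), (nat_lit 3185)], [((nat_lit 0), (nat_lit 0), (nat_lit 0)), ((nat_lit 1000), (nat_lit 343), (nat_lit 808)), ((nat_lit 1000), (nat_lit 338), (nat_lit 820))], ((nat_lit 32), (nat_lit 100), (nat_lit 86))⟩, (nat_lit 0), (nat_lit 112), (nat_lit 112), (nat_lit 0), (nat_lit 0), [(nat_lit 1587384425), (nat_lit 1410153255), (nat_lit 1717494800)], [(nat_lit 0), (nat_lit 0), (nat_lit 0)], [(nat_lit 24755165835), (nat_lit 25400994092), (nat_lit 27528062756), (nat_lit 28207492033), (nat_lit 24946831937),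 (nat_lit 25523272757), (nat_lit 27327976618), (nat_lit 27828831908)], (nat_lit 0), (nat_lit 0), (nat_lit 0), (nat_lit 0), (nat_lit 0), (nat_lit 0), [], [(nat_lit 2), (nat_lit 44), (nat_lit 249), (nat_lit 40), (nat_lit 10)]⟩,
 ⟨⟨[(nat_lit 80), (nat_lit 140), (nat_lit 180)], [(nat_lit 0), (nat_lit 0), (nat_lit 3656)], [((nat_lit 0), (nat_lit 0), (nat_lit 0)), ((nat_lit 0), (nat_lit 0), (nat_lit 0)), ((nat_lit 637), (nat_lit 1000), (nat_lit 908))], ((nat_lit 100), (nat_lit 73), (nat_lit 85))⟩, (nat_lit 191700), (nat_lit 800), (nat_lit 800), (nat_lit 0), (nat_lit 1045010), [(nat_lit 482864000), (nat_lit 1013726000), (nat_lit 1447974000)], [], [(nat_lit 4165891312), (nat_lit 4167680293), (nat_lit 4184728012), (nat_lit 4193776290), (nat_lit 3263201520), (nat_lit 3260291485), (nat_lit 3242831275), (nat_lit 3243549805)], (nat_lit 1271251), (nat_lit 1271251), (nat_lit 1271251), (nat_lit 1271251), (nat_lit 0), (nat_lit 1412501), [(nat_lit 1100000), (nat_lit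 2127501), (nat_lit 1271251)], [(nat_lit 19), (nat_lit 63), (nat_lit 428), (nat_lit 200), (nat_lit 10)]⟩,
 Rw.none⟩)) (.leaf ⟨(nat_lit 881), (nat_lit 119), (nat_lit 0), (nat_lit 0), (nat_lit 0), (nat_lit 3312), (nat_lit 1239), (nat_lit 0), (nat_lit 0), (nat_lit 0), (nat_lit 220250), [((nat_lit 400), [((nat_lit 29), (nat_lit 0), (nat_lit 881))])], ⟨(nat_lit 6), false, true, true, (nat_lit 268), (nat_lit 0), (nat_lit 1582), [(nat_lit 1612591), (nat_lit 1612168), (nat_lit 1623921), (nat_lit 1624340), (nat_lit 1722191), (nat_lit 1712497), (nat_lit 1733849), (nat_lit 1724997)]⟩, ⟨(nat_lit 3), false, false, false, (nat_lit 128), (nat_lit 0), (nat_lit 1582), [(nat_lit 1213552), (nat_lit 1223038), (nat_lit 1281527), (nat_lit 1296068), (nat_lit 1352101), (nat_lit 1349997), (nat_lit 1421394), (nat_lit 1424345)]⟩, (nat_lit 4659660), (nat_lit 41451357), (nat_lit 19504052), (nat_lit 6044591), (nat_lit 3), (nat_lit 0), [⟨(nat_lit 1), (nat_lit 91), (nat_lit 23),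 (nat_lit 100), (nat_lit 444932911)⟩], [⟨(nat_lit 0), (nat_lit 100), (nat_lit 23), (nat_lit 92), (nat_lit 28862531)⟩], [⟨(nat_lit 0), (nat_lit 100), (nat_lit 96), (nat_lit 20), (nat_lit 6122679)⟩], [],
 ⟨⟨[(nat_lit 40), (nat_lit 60), (nat_lit 80)], [(nat_lit 0), (nat_lit 2136), (nat_lit 3185)], [((nat_lit 0), (nat_lit 0), (nat_lit 0)), ((nat_lit 1000), (nat_lit 343), (nat_lit 808)), ((nat_lit 1000), (nat_lit 338), (nat_lit 820))], ((nat_lit 32), (nat_lit 100), (nat_lit 86))⟩, (nat_lit 45548), (nat_lit 114), (nat_lit 114), (nat_lit 0), (nat_lit 0), [(nat_lit 1591141207), (nat_lit 1409803893), (nat_lit 1770480400)], [(nat_lit 0), (nat_lit 0), (nat_lit 0)], [(nat_lit 24652858371), (nat_lit 25300999619), (nat_lit 28014381529), (nat_lit 28678984408), (nat_lit 24831485839), (nat_lit 25409885659), (nat_lit 27557707783), (nat_lit 28049360613)], (nat_lit 0), (nat_lit 0), (nat_lit 0), (nat_lit 0), (nat_lit 0), (nat_lit 0), [], [(nat_lit 2), (nat_lit 44),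 (nat_lit 249), (nat_lit 40), (nat_lit 10)]⟩,
 ⟨⟨[(nat_lit 80), (nat_lit 140), (nat_lit 180)], [(nat_lit 0), (nat_lit 395), (nat_lit 3941)], [((nat_lit 0), (nat_lit 0), (nat_lit 0)), ((nat_lit 1000), (nat_lit 979), (nat_lit 103)), ((nat_lit 672), (nat_lit 1000), (nat_lit 927))], ((nat_lit 100), (nat_lit 77), (nat_lit 86))⟩, (nat_lit 270576), (nat_lit 783), (nat_lit 783), (nat_lit 0), (nat_lit 1007299), [(nat_lit 557872000), (nat_lit 1171198000), (nat_lit 1672902000)], [], [(nat_lit 4533638630), (nat_lit 4549108784), (nat_lit 4650233248), (nat_lit 4658536788), (nat_lit 3562517390), (nat_lit 3570482034), (nat_lit 3620465252), (nat_lit 3622660608)], (nat_lit 1271251), (nat_lit 1271251), (nat_lit 1271251), (nat_lit 1271251), (nat_lit 0), (nat_lit 1412501), [(nat_lit 1100000), (nat_lit 2127501), (nat_lit 1271251)], [(nat_lit 19), (nat_lit 63), (nat_lit 428), (nat_lit 200), (nat_lit 10)]⟩,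
 Rw.none⟩)) (.spl (nat_lit 0) (nat_lit 395) (.leaf ⟨(nat_lit 696), (nat_lit 304), (nat_lit 0), (nat_lit 0), (nat_lit 0), (nat_lit 3526), (nat_lit 2412), (nat_lit 0), (nat_lit 0), (nat_lit 0), (nat_lit 174000), [((nat_lit 395), [((nat_lit 29), (nat_lit 0), (nat_lit 696))])], ⟨(nat_lit 6), false, true, true, (nat_lit 276), (nat_lit 1118), (nat_lit 1582), [(nat_lit 1624546), (nat_lit 1624345), (nat_lit 1647829), (nat_lit 1648063), (nat_lit 1733851), (nat_lit 1730633), (nat_lit 1757166), (nat_lit 1754383)]⟩, ⟨(nat_lit 3), false, false, false, (nat_lit 128), (nat_lit 1118), (nat_lit 1582), [(nat_lit 1215422), (nat_lit 1218958), (nat_lit 1285268), (nat_lit 1290113), (nat_lit 1352103), (nat_lit 1351868), (nat_lit 1422017), (nat_lit 1423090)]⟩, (nat_lit 4689522), (nat_lit 40792704), (nat_lit 20233669), (nat_lit 5973627), (nat_lit 3), (nat_lit 0), [⟨(nat_lit 1), (nat_lit 86), (nat_lit 29), (nat_lit 100), (nat_lit 99186400)⟩], [], [], [],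
 ⟨⟨[(nat_lit 40), (nat_lit 60), (nat_lit 80)], [(nat_lit 0), (nat_lit 2136), (nat_lit 3185)], [((nat_lit 0), (nat_lit 0), (nat_lit 0)), ((nat_lit 1000), (nat_lit 343), (nat_lit 808)), ((nat_lit 1000), (nat_lit 338), (nat_lit 820))], ((nat_lit 32), (nat_lit 100), (nat_lit 86))⟩, (nat_lit 129295), (nat_lit 112), (nat_lit 112), (nat_lit 0), (nat_lit 0), [(nat_lit 1634579207), (nat_lit 1866031395), (nat_lit 2383126400)], [(nat_lit 0), (nat_lit 0), (nat_lit 0)], [(nat_lit 24956299781), (nat_lit 25310535980), (nat_lit 28422747992), (nat_lit 28764979513), (nat_lit 24989560708), (nat_lit 25287145138), (nat_lit 27757844245), (nat_lit 28010701216)], (nat_lit 0), (nat_lit 0), (nat_lit 0), (nat_lit 0), (nat_lit 0), (nat_lit 0), [], [(nat_lit 2), (nat_lit 44), (nat_lit 249), (nat_lit 40), (nat_lit 10)]⟩,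
 ⟨⟨[(nat_lit 80), (nat_lit 140), (nat_lit 180)], [(nat_lit 0), (nat_lit 792), (nat_lit 4228)], [((nat_lit 0), (nat_lit 0), (nat_lit 0)), ((nat_lit 1000), (nat_lit 959), (nat_lit 206)), ((nat_lit 709), (nat_lit 1000), (nat_lit 949))], ((nat_lit 100), (nat_lit 82), (nat_lit 87))⟩, (nat_lit 1737741), (nat_lit 735), (nat_lit 735), (nat_lit 0), (nat_lit 889837), [(nat_lit 1425152000), (nat_lit 2991968000), (nat_lit 4273632000)], [], [(nat_lit 9624945940), (nat_lit 9712847848), (nat_lit 10086846164), (nat_lit 10210548248), (nat_lit 7922038058), (nat_lit 7978546940), (nat_lit 8267857714), (nat_lit 8351159436)], (nat_lit 1271251), (nat_lit 1271251), (nat_lit 1271251), (nat_lit 1271251), (nat_lit 0), (nat_lit 1412501), [(nat_lit 1100000), (nat_lit 2127501), (nat_lit 1271251)], [(nat_lit 19), (nat_lit 63), (nat_lit 428), (nat_lit 200), (nat_lit 10)]⟩,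
 Rw.none⟩) (.trZ (nat_lit 0) (nat_lit 2) (nat_lit 4) (nat_lit 100) (nat_lit 24) (nat_lit 88) (nat_lit 80) (.leaf ⟨(nat_lit 788), (nat_lit 212), (nat_lit 0), (nat_lit 0), (nat_lit 0), (nat_lit 3480), (nat_lit 1790), (nat_lit 0), (nat_lit 0), (nat_lit 0), (nat_lit 197000), [((nat_lit 400), [((nat_lit 29), (nat_lit 0), (nat_lit 788))])], ⟨(nat_lit 6), false, true, true, (nat_lit 275), (nat_lit 0), (nat_lit 1119), [(nat_lit 1623914), (nat_lit 1624534), (nat_lit 1647199), (nat_lit 1649068), (nat_lit 1730630), (nat_lit 1724996), (nat_lit 1754382), (nat_lit 1749998)]⟩, ⟨(nat_lit 3), false, false, false, (nat_lit 134), (nat_lit 0), (nat_lit 1119), [(nat_lit 1244686), (nat_lit 1249071), (nat_lit 1314543), (nat_lit 1322675), (nat_lit 1351866), (nat_lit 1349997), (nat_lit 1422657), (nat_lit 1424535)]⟩, (nat_lit 4749088), (nat_lit 40555068), (nat_lit 20053900), (nat_lit 6391032), (nat_lit 3), (nat_lit 0), [⟨(nat_lit 1), (nat_lit 93), (nat_lit 17), (nat_lit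 100), (nat_lit 390121942)⟩], [⟨(nat_lit 1), (nat_lit 100), (nat_lit 16), (nat_lit 97), (nat_lit 78591815)⟩], [], [],
 ⟨⟨[(nat_lit 40), (nat_lit 60), (nat_lit 80)], [(nat_lit 0), (nat_lit 2600), (nat_lit 3731)], [((nat_lit 0), (nat_lit 0), (nat_lit 0)), ((nat_lit 1000), (nat_lit 245), (nat_lit 872)), ((nat_lit 1000), (nat_lit 240), (nat_lit 884))], ((nat_lit 24), (nat_lit 100), (nat_lit 89))⟩, (nat_lit 33623), (nat_lit 102), (nat_lit 102), (nat_lit 0), (nat_lit 0), [(nat_lit 1612977611), (nat_lit 1771516616), (nat_lit 2078459200)], [(nat_lit 0), (nat_lit 0), (nat_lit 0)], [(nat_lit 24848561058), (nat_lit 25175376118), (nat_lit 28013896260), (nat_lit 28350216000), (nat_lit 25295144528), (nat_lit 25590926678), (nat_lit 28009396538), (nat_lit 28260463520)], (nat_lit 0), (nat_lit 0), (nat_lit 0), (nat_lit 0), (nat_lit 0), (nat_lit 0), [], [(nat_lit 2), (nat_lit 44), (nat_lit 249), (nat_lit 40), (nat_lit 9)]⟩,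
 ⟨⟨[(nat_lit 80), (nat_lit 140), (nat_lit 180)], [(nat_lit 0), (nat_lit 792), (nat_lit 4228)], [((nat_lit 0), (nat_lit 0), (nat_lit 0)), ((nat_lit 1000), (nat_lit 959), (nat_lit 206)), ((nat_lit 709), (nat_lit 1000), (nat_lit 949))], ((nat_lit 100), (nat_lit 82), (nat_lit 87))⟩, (nat_lit 1034152), (nat_lit 771), (nat_lit 771), (nat_lit 0), (nat_lit 981624), [(nat_lit 993856000), (nat_lit 2086504000), (nat_lit 2980296000)], [], [(nat_lit 6928694430), (nat_lit 6988724444), (nat_lit 7241958190), (nat_lit 7325380052), (nat_lit 5626895717), (nat_lit 5664036494), (nat_lit 5851902029), (nat_lit 5908540562)], (nat_lit 1271251), (nat_lit 1271251), (nat_lit 1271251), (nat_lit 1271251), (nat_lit 0), (nat_lit 1412501), [(nat_lit 1100000), (nat_lit 2127501), (nat_lit 1271251)], [(nat_lit 19), (nat_lit 63), (nat_lit 428), (nat_lit 200), (nat_lit 10)]⟩,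
 Rw.none⟩)))))
noncomputable def c14_48 : Tr Lf :=
 (.leaf ⟨(nat_lit 655), (nat_lit 345), (nat_lit 0), (nat_lit 0), (nat_lit 0), (nat_lit 3545), (nat_lit 3641), (nat_lit 0), (nat_lit 0), (nat_lit 0), (nat_lit 343000), [((nat_lit 400), [((nat_lit 29), (nat_lit 1), (nat_lit 250)), ((nat_lit 43), (nat_lit 2), (nat_lit 405))])], ⟨(nat_lit 6), false, true, true, (nat_lit 271), (nat_lit 0), (nat_lit 2237), [(nat_lit 1602531), (nat_lit 1599967), (nat_lit 1646249), (nat_lit 1648136), (nat_lit 1716590), (nat_lit 1699995), (nat_lit 1762141), (nat_lit 1749998)]⟩, ⟨(nat_lit 3), false, false, false, (nat_lit 122), (nat_lit 0), (nat_lit 2237), [(nat_lit 1177178), (nat_lit 1196337), (nat_lit 1242721), (nat_lit 1268557), (nat_lit 1351885), (nat_lit 1349998), (nat_lit 1419294), (nat_lit 1424084)]⟩, (nat_lit 4601460), (nat_lit 41530737), (nat_lit 19889907), (nat_lit 5579356), (nat_lit 3), (nat_lit 0), [⟨(nat_lit 1), (nat_lit 85), (nat_lit 33), (nat_lit 100), (nat_lit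 42222028)⟩], [⟨(nat_lit 0), (nat_lit 100), (nat_lit 32), (nat_lit 87), (nat_lit 12046936)⟩], [⟨(nat_lit 0), (nat_lit 100), (nat_lit 99), (nat_lit 5), (nat_lit 18261883)⟩, ⟨(nat_lit 0), (nat_lit 100), (nat_lit 92), (nat_lit 31), (nat_lit 585405)⟩], [],
 ⟨⟨[(nat_lit 40), (nat_lit 80), (nat_lit 100)], [(nat_lit 0), (nat_lit 2514), (nat_lit 3562)], [((nat_lit 0), (nat_lit 0), (nat_lit 0)), ((nat_lit 1000), (nat_lit 446), (nat_lit 804)), ((nat_lit 1000), (nat_lit 443), (nat_lit 819))], ((nat_lit 44), (nat_lit 100), (nat_lit 84))⟩, (nat_lit 0), (nat_lit 234), (nat_lit 234), (nat_lit 0), (nat_lit 274897), [(nat_lit 1533270033), (nat_lit 1137528621), (nat_lit 1304302000)], [(nat_lit 0), (nat_lit 0), (nat_lit 0)], [(nat_lit 25196500125), (nat_lit 26362307970), (nat_lit 28439717340), (nat_lit 29827438810), (nat_lit 25105184657), (nat_lit 26045603459), (nat_lit 27490654349), (nat_lit 28342410580)], (nat_lit 1271251), (nat_lit 1271251), (nat_lit 1271251),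 (nat_lit 1271251), (nat_lit 230000), (nat_lit 1100000), [(nat_lit 490000), (nat_lit 1100000), (nat_lit 1442501)], [(nat_lit 3), (nat_lit 50), (nat_lit 249), (nat_lit 40), (nat_lit 8)]⟩,
 ⟨⟨[(nat_lit 80), (nat_lit 140), (nat_lit 180)], [(nat_lit 0), (nat_lit 0), (nat_lit 3656)], [((nat_lit 0), (nat_lit 0), (nat_lit 0)), ((nat_lit 0), (nat_lit 0), (nat_lit 0)), ((nat_lit 637), (nat_lit 1000), (nat_lit 908))], ((nat_lit 100), (nat_lit 73), (nat_lit 85))⟩, (nat_lit 678038), (nat_lit 565), (nat_lit 565), (nat_lit 0), (nat_lit 517532), [(nat_lit 1617360000), (nat_lit 3395490000), (nat_lit 4850010000)], [], [(nat_lit 13561231904), (nat_lit 13812677806), (nat_lit 14203441152), (nat_lit 14472395264), (nat_lit 10649328812), (nat_lit 10911200169), (nat_lit 11173071526), (nat_lit 11337808847)], (nat_lit 1271251), (nat_lit 1271251), (nat_lit 1271251), (nat_lit 1271251), (nat_lit 0), (nat_lit 1412501), [(nat_lit 1100000), (nat_lit 2127501), (nat_lit 1271251)],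 [(nat_lit 19), (nat_lit 63), (nat_lit 428), (nat_lit 200), (nat_lit 10)]⟩,
 Rw.none⟩)
noncomputable def c14_49 : Tr Lf :=
 (.spl (nat_lit 4) (nat_lit 120) (.trX (nat_lit 5) (nat_lit 3) (nat_lit 4) (nat_lit 100) (nat_lit 59) (nat_lit 94) (nat_lit 370) (.leaf ⟨(nat_lit 864), (nat_lit 65), (nat_lit 0), (nat_lit 71), (nat_lit 0), (nat_lit 3117), (nat_lit 1472), (nat_lit 1147), (nat_lit 0), (nat_lit 0), (nat_lit 343650), [((nat_lit 400), [((nat_lit 29), (nat_lit 0), (nat_lit 13)), ((nat_lit 29), (nat_lit 1), (nat_lit 851))])], ⟨(nat_lit 6), false, true, true, (nat_lit 271), (nat_lit 0), (nat_lit 2237), [(nat_lit 1602531), (nat_lit 1599967), (nat_lit 1646249), (nat_lit 1648136), (nat_lit 1716590), (nat_lit 1699995), (nat_lit 1762141), (nat_lit 1749998)]⟩, ⟨(nat_lit 3), false, false, false, (nat_lit 111), (nat_lit 0), (nat_lit 2237), [(nat_lit 1177178), (nat_lit 1196337), (nat_lit 1242721), (nat_lit 1268557), (nat_lit 1294870), (nat_lit 1299999), (nat_lit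 1360436), (nat_lit 1372242)]⟩, (nat_lit 4480147), (nat_lit 42071466), (nat_lit 20059102), (nat_lit 4869432), (nat_lit 5), (nat_lit 0), [⟨(nat_lit 1), (nat_lit 85), (nat_lit 33), (nat_lit 100), (nat_lit 43387354)⟩], [⟨(nat_lit 0), (nat_lit 100), (nat_lit 32), (nat_lit 87), (nat_lit 400028345)⟩], [], [],
 ⟨⟨[(nat_lit 40), (nat_lit 80), (nat_lit 100)], [(nat_lit 0), (nat_lit 2514), (nat_lit 3562)], [((nat_lit 0), (nat_lit 0), (nat_lit 0)), ((nat_lit 1000), (nat_lit 446), (nat_lit 804)), ((nat_lit 1000), (nat_lit 443), (nat_lit 819))], ((nat_lit 44), (nat_lit 100), (nat_lit 84))⟩, (nat_lit 0), (nat_lit 213), (nat_lit 213), (nat_lit 0), (nat_lit 202288), [(nat_lit 1453526401), (nat_lit 865380968), (nat_lit 953217200)], [(nat_lit 0), (nat_lit 0), (nat_lit 0)], [(nat_lit 24793807916), (nat_lit 25910637938), (nat_lit 27566812313), (nat_lit 28857326306), (nat_lit 24591253242), (nat_lit 25637796068), (nat_lit 27198103753), (nat_lit 28099848382)], (nat_lit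 1271251), (nat_lit 1271251), (nat_lit 1271251), (nat_lit 1271251), (nat_lit 230000), (nat_lit 780000), [(nat_lit 490000), (nat_lit 1100000), (nat_lit 1442501)], [(nat_lit 3), (nat_lit 50), (nat_lit 238), (nat_lit 30), (nat_lit 8)]⟩,
 ⟨⟨[(nat_lit 80), (nat_lit 140), (nat_lit 180)], [(nat_lit 0), (nat_lit 0), (nat_lit 3656)], [((nat_lit 0), (nat_lit 0), (nat_lit 0)), ((nat_lit 0), (nat_lit 0), (nat_lit 0)), ((nat_lit 637), (nat_lit 1000), (nat_lit 908))], ((nat_lit 100), (nat_lit 73), (nat_lit 85))⟩, (nat_lit 219847), (nat_lit 663), (nat_lit 663), (nat_lit 0), (nat_lit 1061330), [(nat_lit 637568000), (nat_lit 1338512000), (nat_lit 1911888000)], [], [(nat_lit 4313149920), (nat_lit 4347207888), (nat_lit 4381265856), (nat_lit 4388073872), (nat_lit 4638244784), (nat_lit 4757386658), (nat_lit 4876528532), (nat_lit 4954602514)], (nat_lit 1271251), (nat_lit 1271251), (nat_lit 1271251), (nat_lit 1271251), (nat_lit 1271251), (nat_lit 1271251), [(nat_lit 1100000),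 (nat_lit 2127501), (nat_lit 1271251)], [(nat_lit 19), (nat_lit 63), (nat_lit 483), (nat_lit 250), (nat_lit 10)]⟩,
 ⟨⟨[(nat_lit 140), (nat_lit 180), (nat_lit 200)], [(nat_lit 0), (nat_lit 0), (nat_lit 2835)], [((nat_lit 0), (nat_lit 0), (nat_lit 0)), ((nat_lit 0), (nat_lit 0), (nat_lit 0)), ((nat_lit 363), (nat_lit 1000), (nat_lit 798))], ((nat_lit 0), (nat_lit 0), (nat_lit 0))⟩, (nat_lit 19534), (nat_lit 300), (nat_lit 905), (nat_lit 5545106), (nat_lit 1023967), [(nat_lit 698782000), (nat_lit 998118000), (nat_lit 1164400000)], [], [(nat_lit 4286823345), (nat_lit 4079044104), (nat_lit 3680858437), (nat_lit 3579556939), (nat_lit 4482469454), (nat_lit 4219405459), (nat_lit 3825073621), (nat_lit 3572603286)], (nat_lit 780000), (nat_lit 1271251), (nat_lit 230000), (nat_lit 780000), (nat_lit 1271251), (nat_lit 1271251), [(nat_lit 1977501), (nat_lit 1271251), (nat_lit 1271251)], [(nat_lit 32), (nat_lit 67), (nat_lit 401), (nat_lit 175), (nat_lit 9)]⟩⟩))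 (.spl (nat_lit 3) (nat_lit 280) (.spl (nat_lit 0) (nat_lit 390) (.leaf ⟨(nat_lit 885), (nat_lit 87), (nat_lit 0), (nat_lit 28), (nat_lit 0), (nat_lit 3610), (nat_lit 1232), (nat_lit 327), (nat_lit 0), (nat_lit 0), (nat_lit 314550), [((nat_lit 390), [((nat_lit 29), (nat_lit 0), (nat_lit 263)), ((nat_lit 29), (nat_lit 1), (nat_lit 622))])], ⟨(nat_lit 6), false, true, false, (nat_lit 261), (nat_lit 1581), (nat_lit 2237), [(nat_lit 1602558), (nat_lit 1601260), (nat_lit 1648016), (nat_lit 1647799), (nat_lit 1659578), (nat_lit 1655900), (nat_lit 1705117), (nat_lit 1702521)]⟩, ⟨(nat_lit 3), false, false, false, (nat_lit 143), (nat_lit 1581), (nat_lit 2237), [(nat_lit 1294870), (nat_lit 1297467), (nat_lit 1363068), (nat_lit 1367287), (nat_lit 1351886), (nat_lit 1352103), (nat_lit 1420170), (nat_lit 1422009)]⟩, (nat_lit 4784968), (nat_lit 41245374), (nat_lit 18580043), (nat_lit 7174583), (nat_lit 5), (nat_lit 0), [], [], [⟨(nat_lit 1), (nat_lit 55), (nat_lit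 99), (nat_lit 100), (nat_lit 18798204)⟩], [],
 ⟨⟨[(nat_lit 40), (nat_lit 80), (nat_lit 100)], [(nat_lit 0), (nat_lit 2514), (nat_lit 3562)], [((nat_lit 0), (nat_lit 0), (nat_lit 0)), ((nat_lit 1000), (nat_lit 446), (nat_lit 804)), ((nat_lit 1000), (nat_lit 443), (nat_lit 819))], ((nat_lit 44), (nat_lit 100), (nat_lit 84))⟩, (nat_lit 526), (nat_lit 162), (nat_lit 162), (nat_lit 0), (nat_lit 241420), [(nat_lit 1486701351), (nat_lit 1080581467), (nat_lit 1247041200)], [(nat_lit 0), (nat_lit 0), (nat_lit 0)], [(nat_lit 24120774632), (nat_lit 24645236885), (nat_lit 25492614758), (nat_lit 26124391013), (nat_lit 24325543312), (nat_lit 24856010525), (nat_lit 25611965645), (nat_lit 26153716138)], (nat_lit 1271251), (nat_lit 1271251), (nat_lit 1271251), (nat_lit 1271251), (nat_lit 780000), (nat_lit 1100000), [(nat_lit 490000), (nat_lit 1100000), (nat_lit 1442501)], [(nat_lit 3), (nat_lit 50), (nat_lit 249), (nat_lit 40), (nat_lit 8)]⟩,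
 ⟨⟨[(nat_lit 80), (nat_lit 140), (nat_lit 180)], [(nat_lit 0), (nat_lit 0), (nat_lit 3656)], [((nat_lit 0), (nat_lit 0), (nat_lit 0)), ((nat_lit 0), (nat_lit 0), (nat_lit 0)), ((nat_lit 637), (nat_lit 1000), (nat_lit 908))], ((nat_lit 100), (nat_lit 73), (nat_lit 85))⟩, (nat_lit 199275), (nat_lit 573), (nat_lit 573), (nat_lit 0), (nat_lit 840376), [(nat_lit 539120000), (nat_lit 1131830000), (nat_lit 1616670000)], [], [(nat_lit 3532248220), (nat_lit 3582462975), (nat_lit 3582462975), (nat_lit 3651134141), (nat_lit 4021151053), (nat_lit 4107130726), (nat_lit 4107130726), (nat_lit 4175008222)], (nat_lit 1271251), (nat_lit 1271251), (nat_lit 1271251), (nat_lit 1271251), (nat_lit 1271251), (nat_lit 1271251), [(nat_lit 1100000), (nat_lit 2127501), (nat_lit 1271251)], [(nat_lit 19), (nat_lit 63), (nat_lit 483), (nat_lit 250), (nat_lit 10)]⟩,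
 ⟨⟨[(nat_lit 140), (nat_lit 180), (nat_lit 200)], [(nat_lit 0), (nat_lit 0), (nat_lit 2835)], [((nat_lit 0), (nat_lit 0), (nat_lit 0)), ((nat_lit 0), (nat_lit 0), (nat_lit 0)), ((nat_lit 363), (nat_lit 1000), (nat_lit 798))], ((nat_lit 0), (nat_lit 0), (nat_lit 0))⟩, (nat_lit 7704), (nat_lit 300), (nat_lit 1753), (nat_lit 2186800), (nat_lit 2976577), [(nat_lit 275576000), (nat_lit 393624000), (nat_lit 459200000)], [], [(nat_lit 1776239787), (nat_lit 1702213836), (nat_lit 1718197850), (nat_lit 1644562643), (nat_lit 1678678814), (nat_lit 1604437501), (nat_lit 1616759213), (nat_lit 1542804264)], (nat_lit 780000), (nat_lit 1271251), (nat_lit 780000), (nat_lit 1100000), (nat_lit 1271251), (nat_lit 1271251), [(nat_lit 1977501), (nat_lit 1271251), (nat_lit 1271251)], [(nat_lit 32), (nat_lit 67), (nat_lit 530), (nat_lit 200), (nat_lit 11)]⟩⟩) (.leaf ⟨(nat_lit 902), (nat_lit 74), (nat_lit 0), (nat_lit 24), (nat_lit 0), (nat_lit 3558), (nat_lit 1011), (nat_lit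 278), (nat_lit 0), (nat_lit 0), (nat_lit 225500), [((nat_lit 400), [((nat_lit 29), (nat_lit 0), (nat_lit 902))])], ⟨(nat_lit 6), false, true, false, (nat_lit 260), (nat_lit 0), (nat_lit 1582), [(nat_lit 1601257), (nat_lit 1599992), (nat_lit 1646579), (nat_lit 1648683), (nat_lit 1655899), (nat_lit 1649997), (nat_lit 1702515), (nat_lit 1699984)]⟩, ⟨(nat_lit 3), false, false, false, (nat_lit 144), (nat_lit 0), (nat_lit 1582), [(nat_lit 1297467), (nat_lit 1299999), (nat_lit 1365448), (nat_lit 1373034), (nat_lit 1352101), (nat_lit 1349997), (nat_lit 1421394), (nat_lit 1424345)]⟩, (nat_lit 4788271), (nat_lit 41279076), (nat_lit 18484882), (nat_lit 7236042), (nat_lit 5), (nat_lit 0), [], [⟨(nat_lit 1), (nat_lit 100), (nat_lit 22), (nat_lit 97), (nat_lit 49739116)⟩], [⟨(nat_lit 1), (nat_lit 55), (nat_lit 99), (nat_lit 100), (nat_lit 8221672)⟩], [],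
 ⟨⟨[(nat_lit 40), (nat_lit 60), (nat_lit 80)], [(nat_lit 0), (nat_lit 2136), (nat_lit 3185)], [((nat_lit 0), (nat_lit 0), (nat_lit 0)), ((nat_lit 1000), (nat_lit 343), (nat_lit 808)), ((nat_lit 1000), (nat_lit 338), (nat_lit 820))], ((nat_lit 32), (nat_lit 100), (nat_lit 86))⟩, (nat_lit 0), (nat_lit 160), (nat_lit 160), (nat_lit 0), (nat_lit 272716), [(nat_lit 1586210516), (nat_lit 1349745399), (nat_lit 1700936800)], [(nat_lit 0), (nat_lit 0), (nat_lit 0)], [(nat_lit 24682720296), (nat_lit 25274123356), (nat_lit 26070018877), (nat_lit 26774201918), (nat_lit 24935988991), (nat_lit 25498025624), (nat_lit 26259233483), (nat_lit 26779489296)], (nat_lit 1271251), (nat_lit 1271251), (nat_lit 1271251), (nat_lit 1271251), (nat_lit 780000), (nat_lit 1100000), [(nat_lit 490000), (nat_lit 780000), (nat_lit 1100000)], [(nat_lit 2), (nat_lit 44), (nat_lit 249), (nat_lit 40), (nat_lit 9)]⟩,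
 ⟨⟨[(nat_lit 80), (nat_lit 140), (nat_lit 180)], [(nat_lit 0), (nat_lit 0), (nat_lit 3656)], [((nat_lit 0), (nat_lit 0), (nat_lit 0)), ((nat_lit 0), (nat_lit 0), (nat_lit 0)), ((nat_lit 637), (nat_lit 1000), (nat_lit 908))], ((nat_lit 100), (nat_lit 73), (nat_lit 85))⟩, (nat_lit 184111), (nat_lit 662), (nat_lit 662), (nat_lit 0), (nat_lit 1059735), [(nat_lit 459424000), (nat_lit 964516000), (nat_lit 1377684000)], [], [(nat_lit 3319058950), (nat_lit 3345688219), (nat_lit 3345688219), (nat_lit 3362888290), (nat_lit 3432380392), (nat_lit 3460239399), (nat_lit 3460239399), (nat_lit 3518741086)], (nat_lit 1271251), (nat_lit 1271251), (nat_lit 1271251), (nat_lit 1271251), (nat_lit 1271251), (nat_lit 1271251), [(nat_lit 1100000), (nat_lit 2127501), (nat_lit 1271251)], [(nat_lit 19), (nat_lit 63), (nat_lit 483), (nat_lit 250), (nat_lit 10)]⟩,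
 ⟨⟨[(nat_lit 140), (nat_lit 180), (nat_lit 200)], [(nat_lit 0), (nat_lit 0), (nat_lit 2835)], [((nat_lit 0), (nat_lit 0), (nat_lit 0)), ((nat_lit 0), (nat_lit 0), (nat_lit 0)), ((nat_lit 363), (nat_lit 1000), (nat_lit 798))], ((nat_lit 0), (nat_lit 0), (nat_lit 0))⟩, (nat_lit 6603), (nat_lit 300), (nat_lit 2053), (nat_lit 1874403), (nat_lit 3570166), [(nat_lit 236208000), (nat_lit 337392000), (nat_lit 393600000)], [], [(nat_lit 1534819446), (nat_lit 1472018320), (nat_lit 1485559324), (nat_lit 1423089065), (nat_lit 1447645003), (nat_lit 1382523034), (nat_lit 1395828501), (nat_lit 1331132640)], (nat_lit 780000), (nat_lit 1271251), (nat_lit 780000), (nat_lit 1100000), (nat_lit 1271251), (nat_lit 1271251), [(nat_lit 1977501), (nat_lit 1271251), (nat_lit 1271251)], [(nat_lit 32), (nat_lit 67), (nat_lit 605), (nat_lit 200), (nat_lit 12)]⟩⟩)) (.trX (nat_lit 5) (nat_lit 3) (nat_lit 4) (nat_lit 94) (nat_lit 59) (nat_lit 100) (nat_lit 370) (.spl (nat_lit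 0) (nat_lit 390) (.leaf ⟨(nat_lit 857), (nat_lit 112), (nat_lit 0), (nat_lit 31), (nat_lit 0), (nat_lit 3508), (nat_lit 1430), (nat_lit 370), (nat_lit 0), (nat_lit 0), (nat_lit 306350), [((nat_lit 390), [((nat_lit 29), (nat_lit 0), (nat_lit 243)), ((nat_lit 29), (nat_lit 1), (nat_lit 614))])], ⟨(nat_lit 7), false, true, true, (nat_lit 283), (nat_lit 1581), (nat_lit 2237), [(nat_lit 1659578), (nat_lit 1655900), (nat_lit 1705117), (nat_lit 1702521), (nat_lit 1716594), (nat_lit 1710536), (nat_lit 1762142), (nat_lit 1757166)]⟩, ⟨(nat_lit 3), false, false, false, (nat_lit 143), (nat_lit 1581), (nat_lit 2237), [(nat_lit 1294870), (nat_lit 1297467), (nat_lit 1363068), (nat_lit 1367287), (nat_lit 1351886), (nat_lit 1352103), (nat_lit 1420170), (nat_lit 1422009)]⟩, (nat_lit 4871644), (nat_lit 39389276), (nat_lit 20644828), (nat_lit 6965896), (nat_lit 5), (nat_lit 0), [], [], [], [⟨(nat_lit 1), (nat_lit 77), (nat_lit 91), (nat_lit 100), (nat_lit 16162373)⟩],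
 ⟨⟨[(nat_lit 40), (nat_lit 80), (nat_lit 100)], [(nat_lit 0), (nat_lit 2514), (nat_lit 3562)], [((nat_lit 0), (nat_lit 0), (nat_lit 0)), ((nat_lit 1000), (nat_lit 446), (nat_lit 804)), ((nat_lit 1000), (nat_lit 443), (nat_lit 819))], ((nat_lit 44), (nat_lit 100), (nat_lit 84))⟩, (nat_lit 0), (nat_lit 167), (nat_lit 167), (nat_lit 0), (nat_lit 241420), [(nat_lit 1494606801), (nat_lit 1186667550), (nat_lit 1385561200)], [(nat_lit 0), (nat_lit 0), (nat_lit 0)], [(nat_lit 25808830175), (nat_lit 26274550059), (nat_lit 27120306412), (nat_lit 27702647049), (nat_lit 25972549905), (nat_lit 26440543189), (nat_lit 27233098642), (nat_lit 27682197418)], (nat_lit 1271251), (nat_lit 1271251), (nat_lit 1271251), (nat_lit 1271251), (nat_lit 780000), (nat_lit 1100000), [(nat_lit 490000), (nat_lit 1100000), (nat_lit 1442501)], [(nat_lit 3), (nat_lit 50), (nat_lit 249), (nat_lit 40), (nat_lit 8)]⟩,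
 ⟨⟨[(nat_lit 80), (nat_lit 140), (nat_lit 180)], [(nat_lit 0), (nat_lit 0), (nat_lit 3656)], [((nat_lit 0), (nat_lit 0), (nat_lit 0)), ((nat_lit 0), (nat_lit 0), (nat_lit 0)), ((nat_lit 637), (nat_lit 1000), (nat_lit 908))], ((nat_lit 100), (nat_lit 73), (nat_lit 85))⟩, (nat_lit 264027), (nat_lit 566), (nat_lit 566), (nat_lit 0), (nat_lit 840376), [(nat_lit 670384000), (nat_lit 1407406000), (nat_lit 2010294000)], [], [(nat_lit 4767672052), (nat_lit 4857314319), (nat_lit 4876542242), (nat_lit 4946956586), (nat_lit 5085218174), (nat_lit 5104596444), (nat_lit 5118232906), (nat_lit 5131430625)], (nat_lit 1271251), (nat_lit 1271251), (nat_lit 1271251), (nat_lit 1271251), (nat_lit 1271251), (nat_lit 1271251), [(nat_lit 1100000), (nat_lit 2127501), (nat_lit 1271251)], [(nat_lit 19), (nat_lit 63), (nat_lit 483), (nat_lit 250), (nat_lit 10)]⟩,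
 ⟨⟨[(nat_lit 140), (nat_lit 180), (nat_lit 200)], [(nat_lit 0), (nat_lit 0), (nat_lit 2835)], [((nat_lit 0), (nat_lit 0), (nat_lit 0)), ((nat_lit 0), (nat_lit 0), (nat_lit 0)), ((nat_lit 363), (nat_lit 1000), (nat_lit 798))], ((nat_lit 0), (nat_lit 0), (nat_lit 0))⟩, (nat_lit 8529), (nat_lit 300), (nat_lit 1753), (nat_lit 2421102), (nat_lit 2976577), [(nat_lit 305102000), (nat_lit 435798000), (nat_lit 508400000)], [], [(nat_lit 1927302585), (nat_lit 1845791916), (nat_lit 1860631294), (nat_lit 1779507249), (nat_lit 1834109200), (nat_lit 1751023676), (nat_lit 1764271510), (nat_lit 1681703410)], (nat_lit 780000), (nat_lit 1271251), (nat_lit 780000), (nat_lit 1100000), (nat_lit 1271251), (nat_lit 1271251), [(nat_lit 1977501), (nat_lit 1271251), (nat_lit 1271251)], [(nat_lit 32), (nat_lit 67), (nat_lit 527), (nat_lit 200), (nat_lit 11)]⟩⟩) (.leaf ⟨(nat_lit 886), (nat_lit 89), (nat_lit 0), (nat_lit 25), (nat_lit 0), (nat_lit 3520), (nat_lit 1151), (nat_lit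 296), (nat_lit 0), (nat_lit 0), (nat_lit 221500), [((nat_lit 400), [((nat_lit 29), (nat_lit 0), (nat_lit 886))])], ⟨(nat_lit 7), false, true, true, (nat_lit 281), (nat_lit 0), (nat_lit 1582), [(nat_lit 1655899), (nat_lit 1649997), (nat_lit 1702515), (nat_lit 1699984), (nat_lit 1710533), (nat_lit 1699996), (nat_lit 1757165), (nat_lit 1749998)]⟩, ⟨(nat_lit 3), false, false, false, (nat_lit 144), (nat_lit 0), (nat_lit 1582), [(nat_lit 1297467), (nat_lit 1299999), (nat_lit 1365448), (nat_lit 1373034), (nat_lit 1352101), (nat_lit 1349997), (nat_lit 1421394), (nat_lit 1424345)]⟩, (nat_lit 4871638), (nat_lit 39530225), (nat_lit 20431206), (nat_lit 7038569), (nat_lit 5), (nat_lit 0), [⟨(nat_lit 1), (nat_lit 91), (nat_lit 23), (nat_lit 100), (nat_lit 491219772)⟩], [], [], [⟨(nat_lit 1), (nat_lit 77), (nat_lit 91), (nat_lit 100), (nat_lit 8810136)⟩],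
 ⟨⟨[(nat_lit 40), (nat_lit 60), (nat_lit 80)], [(nat_lit 0), (nat_lit 2136), (nat_lit 3185)], [((nat_lit 0), (nat_lit 0), (nat_lit 0)), ((nat_lit 1000), (nat_lit 343), (nat_lit 808)), ((nat_lit 1000), (nat_lit 338), (nat_lit 820))], ((nat_lit 32), (nat_lit 100), (nat_lit 86))⟩, (nat_lit 0), (nat_lit 166), (nat_lit 166), (nat_lit 0), (nat_lit 272716), [(nat_lit 1589967218), (nat_lit 1349715090), (nat_lit 1753922400)], [(nat_lit 0), (nat_lit 0), (nat_lit 0)], [(nat_lit 26188415806), (nat_lit 26732474676), (nat_lit 27719596560), (nat_lit 28365264240), (nat_lit 26383781306), (nat_lit 26901560036), (nat_lit 27703619316), (nat_lit 28310892480)], (nat_lit 1271251), (nat_lit 1271251), (nat_lit 1271251), (nat_lit 1271251), (nat_lit 780000), (nat_lit 1100000), [(nat_lit 490000), (nat_lit 780000), (nat_lit 1100000)], [(nat_lit 2), (nat_lit 44), (nat_lit 249), (nat_lit 40), (nat_lit 9)]⟩,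
 ⟨⟨[(nat_lit 80), (nat_lit 140), (nat_lit 180)], [(nat_lit 0), (nat_lit 0), (nat_lit 3656)], [((nat_lit 0), (nat_lit 0), (nat_lit 0)), ((nat_lit 0), (nat_lit 0), (nat_lit 0)), ((nat_lit 637), (nat_lit 1000), (nat_lit 908))], ((nat_lit 100), (nat_lit 73), (nat_lit 85))⟩, (nat_lit 213440), (nat_lit 654), (nat_lit 654), (nat_lit 0), (nat_lit 1059735), [(nat_lit 534432000), (nat_lit 1121988000), (nat_lit 1602612000)], [], [(nat_lit 3999386839), (nat_lit 4020643610), (nat_lit 4031416240), (nat_lit 4041900381), (nat_lit 4055470821), (nat_lit 4036755066), (nat_lit 4044652241), (nat_lit 4075491483)], (nat_lit 1271251), (nat_lit 1271251), (nat_lit 1271251), (nat_lit 1271251), (nat_lit 1271251), (nat_lit 1271251), [(nat_lit 1100000), (nat_lit 2127501), (nat_lit 1271251)], [(nat_lit 19), (nat_lit 63), (nat_lit 483), (nat_lit 250), (nat_lit 10)]⟩,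
 ⟨⟨[(nat_lit 140), (nat_lit 180), (nat_lit 200)], [(nat_lit 0), (nat_lit 0), (nat_lit 2835)], [((nat_lit 0), (nat_lit 0), (nat_lit 0)), ((nat_lit 0), (nat_lit 0), (nat_lit 0)), ((nat_lit 363), (nat_lit 1000), (nat_lit 798))], ((nat_lit 0), (nat_lit 0), (nat_lit 0))⟩, (nat_lit 6878), (nat_lit 300), (nat_lit 2053), (nat_lit 1952505), (nat_lit 3570166), [(nat_lit 246050000), (nat_lit 351450000), (nat_lit 410000000)], [], [(nat_lit 1564171700), (nat_lit 1497943034), (nat_lit 1511483192), (nat_lit 1445011288), (nat_lit 1484737796), (nat_lit 1418434194), (nat_lit 1429265899), (nat_lit 1363080185)], (nat_lit 780000), (nat_lit 1271251), (nat_lit 780000), (nat_lit 1100000), (nat_lit 1271251), (nat_lit 1271251), [(nat_lit 1977501), (nat_lit 1271251), (nat_lit 1271251)], [(nat_lit 32), (nat_lit 67), (nat_lit 602), (nat_lit 200), (nat_lit 12)]⟩⟩)))))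
noncomputable def c14_50 : Tr Lf :=
 (.spl (nat_lit 1) (nat_lit 260) (.trX (nat_lit 3) (nat_lit 0) (nat_lit 1) (nat_lit 46) (nat_lit 76) (nat_lit 100) (nat_lit 340) (.spl (nat_lit 4) (nat_lit 120) (.trX (nat_lit 5) (nat_lit 3) (nat_lit 4) (nat_lit 87) (nat_lit 95) (nat_lit 100) (nat_lit 300) (.spl (nat_lit 0) (nat_lit 390) (.leaf ⟨(nat_lit 831), (nat_lit 169), (nat_lit 0), (nat_lit 0), (nat_lit 0), (nat_lit 2860), (nat_lit 1782), (nat_lit 0), (nat_lit 0), (nat_lit 0), (nat_lit 360200), [((nat_lit 390), [((nat_lit 29), (nat_lit 1), (nat_lit 692)), ((nat_lit 43), (nat_lit 2), (nat_lit 139))])], ⟨(nat_lit 8), false, true, true, (nat_lit 296), (nat_lit 1581), (nat_lit 2237), [(nat_lit 1716594), (nat_lit 1710536), (nat_lit 1739368), (nat_lit 1733851), (nat_lit 1745101), (nat_lit 1737854), (nat_lit 1767876), (nat_lit 1761169)]⟩, ⟨(nat_lit 3), false, false, false, (nat_lit 105), (nat_lit 1581), (nat_lit 2237), [(nat_lit 1180680), (nat_lit 1188036), (nat_lit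 1226138), (nat_lit 1234575), (nat_lit 1294870), (nat_lit 1297467), (nat_lit 1340340), (nat_lit 1344018)]⟩, (nat_lit 4510341), (nat_lit 40137530), (nat_lit 22474500), (nat_lit 4387970), (nat_lit 3), (nat_lit 0), [⟨(nat_lit 1), (nat_lit 83), (nat_lit 39), (nat_lit 100), (nat_lit 338362165)⟩, ⟨(nat_lit 1), (nat_lit 76), (nat_lit 46), (nat_lit 100), (nat_lit 115254656)⟩], [⟨(nat_lit 0), (nat_lit 100), (nat_lit 40), (nat_lit 81), (nat_lit 4562230)⟩], [], [⟨(nat_lit 1), (nat_lit 100), (nat_lit 78), (nat_lit 82), (nat_lit 5464266)⟩],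
 ⟨⟨[(nat_lit 40), (nat_lit 80), (nat_lit 100)], [(nat_lit 0), (nat_lit 2514), (nat_lit 3562)], [((nat_lit 0), (nat_lit 0), (nat_lit 0)), ((nat_lit 1000), (nat_lit 446), (nat_lit 804)), ((nat_lit 1000), (nat_lit 443), (nat_lit 819))], ((nat_lit 44), (nat_lit 100), (nat_lit 84))⟩, (nat_lit 0), (nat_lit 148), (nat_lit 148), (nat_lit 0), (nat_lit 0), [(nat_lit 1463935605), (nat_lit 808080768), (nat_lit 820835600)], [(nat_lit 0), (nat_lit 0), (nat_lit 0)], [(nat_lit 27299495025), (nat_lit 27792455815), (nat_lit 28155923870), (nat_lit 28683781672), (nat_lit 26953239945), (nat_lit 27456900340), (nat_lit 27829766015), (nat_lit 28311627290)], (nat_lit 0), (nat_lit 0), (nat_lit 0), (nat_lit 0), (nat_lit 0), (nat_lit 0), [], [(nat_lit 3), (nat_lit 50), (nat_lit 238), (nat_lit 30), (nat_lit 7)]⟩,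
 ⟨⟨[(nat_lit 80), (nat_lit 140), (nat_lit 180)], [(nat_lit 0), (nat_lit 0), (nat_lit 3656)], [((nat_lit 0), (nat_lit 0), (nat_lit 0)), ((nat_lit 0), (nat_lit 0), (nat_lit 0)), ((nat_lit 637), (nat_lit 1000), (nat_lit 908))], ((nat_lit 100), (nat_lit 73), (nat_lit 85))⟩, (nat_lit 300503), (nat_lit 669), (nat_lit 669), (nat_lit 0), (nat_lit 824334), [(nat_lit 792272000), (nat_lit 1663298000), (nat_lit 2375802000)], [], [(nat_lit 7126752472), (nat_lit 7149854007), (nat_lit 7217495177), (nat_lit 7327537155), (nat_lit 5550233659), (nat_lit 5540024331), (nat_lit 5639265591), (nat_lit 5706040901)], (nat_lit 1271251), (nat_lit 1271251), (nat_lit 1271251), (nat_lit 1271251), (nat_lit 0), (nat_lit 2118750), [(nat_lit 1100000), (nat_lit 2127501), (nat_lit 1271251)], [(nat_lit 19), (nat_lit 63), (nat_lit 456), (nat_lit 225), (nat_lit 10)]⟩,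
 Rw.none⟩) (.emL (nat_lit 3) (nat_lit 0) (nat_lit 1) (nat_lit 33) (nat_lit 85) (nat_lit 100)))) (.spl (nat_lit 0) (nat_lit 390) (.leaf ⟨(nat_lit 874), (nat_lit 113), (nat_lit 0), (nat_lit 13), (nat_lit 0), (nat_lit 3329), (nat_lit 1289), (nat_lit 171), (nat_lit 0), (nat_lit 0), (nat_lit 320050), [((nat_lit 390), [((nat_lit 29), (nat_lit 0), (nat_lit 197)), ((nat_lit 29), (nat_lit 1), (nat_lit 677))])], ⟨(nat_lit 8), false, true, true, (nat_lit 296), (nat_lit 1581), (nat_lit 2237), [(nat_lit 1716594), (nat_lit 1710536), (nat_lit 1739368), (nat_lit 1733851), (nat_lit 1745101), (nat_lit 1737854), (nat_lit 1767876), (nat_lit 1761169)]⟩, ⟨(nat_lit 3), false, false, false, (nat_lit 139), (nat_lit 1581), (nat_lit 2237), [(nat_lit 1294870), (nat_lit 1297467), (nat_lit 1340340), (nat_lit 1344018), (nat_lit 1351886), (nat_lit 1352103), (nat_lit 1397434), (nat_lit 1398733)]⟩, (nat_lit 4862884), (nat_lit 38617057), (nat_lit 21846152), (nat_lit 6536791), (nat_lit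 3), (nat_lit 0), [⟨(nat_lit 1), (nat_lit 83), (nat_lit 39), (nat_lit 100), (nat_lit 28301088)⟩, ⟨(nat_lit 1), (nat_lit 76), (nat_lit 46), (nat_lit 100), (nat_lit 365312861)⟩], [], [], [],
 ⟨⟨[(nat_lit 40), (nat_lit 80), (nat_lit 100)], [(nat_lit 0), (nat_lit 2514), (nat_lit 3562)], [((nat_lit 0), (nat_lit 0), (nat_lit 0)), ((nat_lit 1000), (nat_lit 446), (nat_lit 804)), ((nat_lit 1000), (nat_lit 443), (nat_lit 819))], ((nat_lit 44), (nat_lit 100), (nat_lit 84))⟩, (nat_lit 0), (nat_lit 107), (nat_lit 107), (nat_lit 0), (nat_lit 0), [(nat_lit 1480132001), (nat_lit 1248096605), (nat_lit 1203058800)], [(nat_lit 0), (nat_lit 0), (nat_lit 0)], [(nat_lit 26949475972), (nat_lit 27463311792), (nat_lit 27889704695), (nat_lit 28487442675), (nat_lit 27083403820), (nat_lit 27548497411), (nat_lit 27893264275), (nat_lit 28463597127)], (nat_lit 0), (nat_lit 0), (nat_lit 0), (nat_lit 0), (nat_lit 0), (nat_lit 0), [], [(nat_lit 3), (nat_lit 50), (nat_lit 249), (nat_lit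 40), (nat_lit 7)]⟩,
 ⟨⟨[(nat_lit 80), (nat_lit 140), (nat_lit 180)], [(nat_lit 0), (nat_lit 0), (nat_lit 3656)], [((nat_lit 0), (nat_lit 0), (nat_lit 0)), ((nat_lit 0), (nat_lit 0), (nat_lit 0)), ((nat_lit 637), (nat_lit 1000), (nat_lit 908))], ((nat_lit 100), (nat_lit 73), (nat_lit 85))⟩, (nat_lit 197288), (nat_lit 669), (nat_lit 669), (nat_lit 0), (nat_lit 824334), [(nat_lit 590688000), (nat_lit 1240092000), (nat_lit 1771308000)], [], [(nat_lit 5441872756), (nat_lit 5459950181), (nat_lit 5509008231), (nat_lit 5523019095), (nat_lit 4387251495), (nat_lit 4431536189), (nat_lit 4500754451), (nat_lit 4538851003)], (nat_lit 1271251), (nat_lit 1271251), (nat_lit 1271251), (nat_lit 1271251), (nat_lit 0), (nat_lit 2401251), [(nat_lit 1100000), (nat_lit 2127501), (nat_lit 1271251)], [(nat_lit 19), (nat_lit 63), (nat_lit 483), (nat_lit 250), (nat_lit 11)]⟩,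
 ⟨⟨[(nat_lit 140), (nat_lit 180), (nat_lit 200)], [(nat_lit 0), (nat_lit 0), (nat_lit 2835)], [((nat_lit 0), (nat_lit 0), (nat_lit 0)), ((nat_lit 0), (nat_lit 0), (nat_lit 0)), ((nat_lit 363), (nat_lit 1000), (nat_lit 798))], ((nat_lit 0), (nat_lit 0), (nat_lit 0))⟩, (nat_lit 3577), (nat_lit 300), (nat_lit 2318), (nat_lit 1015300), (nat_lit 3865902), [(nat_lit 127946000), (nat_lit 182754000), (nat_lit 213200000)], [], [(nat_lit 945817010), (nat_lit 917132344), (nat_lit 912341500), (nat_lit 883979948), (nat_lit 797771719), (nat_lit 877370328), (nat_lit 876363736), (nat_lit 958003401)], (nat_lit 780000), (nat_lit 1100000), (nat_lit 780000), (nat_lit 1100000), (nat_lit 0), (nat_lit 2401251), [(nat_lit 1977501), (nat_lit 1271251), (nat_lit 1271251)], [(nat_lit 32), (nat_lit 67), (nat_lit 662), (nat_lit 175), (nat_lit 14)]⟩⟩) (.emL (nat_lit 3) (nat_lit 0) (nat_lit 1) (nat_lit 33) (nat_lit 85) (nat_lit 100))))) (.spl (nat_lit 6) (nat_lit 68) (.spl (nat_lit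 0) (nat_lit 390) (.leaf ⟨(nat_lit 822), (nat_lit 178), (nat_lit 0), (nat_lit 0), (nat_lit 0), (nat_lit 3270), (nat_lit 1416), (nat_lit 0), (nat_lit 0), (nat_lit 0), (nat_lit 298950), [((nat_lit 390), [((nat_lit 28), (nat_lit 0), (nat_lit 199)), ((nat_lit 28), (nat_lit 1), (nat_lit 623))])], ⟨(nat_lit 8), false, true, true, (nat_lit 310), (nat_lit 1581), (nat_lit 2237), [(nat_lit 1739368), (nat_lit 1733851), (nat_lit 1762142), (nat_lit 1757166), (nat_lit 1796384), (nat_lit 1788487), (nat_lit 1819158), (nat_lit 1811802)]⟩, ⟨(nat_lit 3), false, false, false, (nat_lit 116), (nat_lit 1581), (nat_lit 2237), [(nat_lit 1180680), (nat_lit 1188036), (nat_lit 1226138), (nat_lit 1234575), (nat_lit 1351886), (nat_lit 1352103), (nat_lit 1397434), (nat_lit 1398733)]⟩, (nat_lit 4670732), (nat_lit 38378665), (nat_lit 23650887), (nat_lit 4970448), (nat_lit 3), (nat_lit 0), [⟨(nat_lit 1), (nat_lit 78), (nat_lit 41), (nat_lit 100), (nat_lit 467092628)⟩], [], [], [⟨(nat_lit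 1), (nat_lit 100), (nat_lit 74), (nat_lit 90), (nat_lit 32110747)⟩],
 ⟨⟨[(nat_lit 40), (nat_lit 60), (nat_lit 80)], [(nat_lit 0), (nat_lit 1539), (nat_lit 2453)], [((nat_lit 0), (nat_lit 0), (nat_lit 0)), ((nat_lit 1000), (nat_lit 478), (nat_lit 704)), ((nat_lit 1000), (nat_lit 474), (nat_lit 714))], ((nat_lit 45), (nat_lit 100), (nat_lit 78))⟩, (nat_lit 0), (nat_lit 133), (nat_lit 133), (nat_lit 0), (nat_lit 0), [(nat_lit 1500330422), (nat_lit 1094349336), (nat_lit 1231472400)], [(nat_lit 0), (nat_lit 0), (nat_lit 0)], [(nat_lit 27868115540), (nat_lit 28536117200), (nat_lit 30124562728), (nat_lit 30723304479), (nat_lit 26938339784), (nat_lit 27400858474), (nat_lit 28836775005), (nat_lit 29373685903)], (nat_lit 0), (nat_lit 0), (nat_lit 0), (nat_lit 0), (nat_lit 0), (nat_lit 0), [], [(nat_lit 2), (nat_lit 44), (nat_lit 249), (nat_lit 40), (nat_lit 9)]⟩,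
 ⟨⟨[(nat_lit 80), (nat_lit 120), (nat_lit 160)], [(nat_lit 0), (nat_lit 528), (nat_lit 2577)], [((nat_lit 0), (nat_lit 0), (nat_lit 0)), ((nat_lit 1000), (nat_lit 959), (nat_lit 206)), ((nat_lit 929), (nat_lit 1000), (nat_lit 742))], ((nat_lit 100), (nat_lit 90), (nat_lit 79))⟩, (nat_lit 418803), (nat_lit 589), (nat_lit 589), (nat_lit 0), (nat_lit 791483), [(nat_lit 834464000), (nat_lit 1418304000), (nat_lit 2113216000)], [], [(nat_lit 6590305641), (nat_lit 6639303205), (nat_lit 6796790249), (nat_lit 6884306951), (nat_lit 5767575909), (nat_lit 5789412447), (nat_lit 6018792499), (nat_lit 6084312827)], (nat_lit 1271251), (nat_lit 1271251), (nat_lit 1271251), (nat_lit 1271251), (nat_lit 0), (nat_lit 2401251), [(nat_lit 1100000), (nat_lit 1785001), (nat_lit 1271251)], [(nat_lit 18), (nat_lit 59), (nat_lit 401), (nat_lit 175), (nat_lit 10)]⟩,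
 Rw.none⟩) (.trX (nat_lit 3) (nat_lit 0) (nat_lit 1) (nat_lit 34) (nat_lit 81) (nat_lit 100) (nat_lit 340) (.trZ (nat_lit 0) (nat_lit 2) (nat_lit 4) (nat_lit 100) (nat_lit 34) (nat_lit 81) (nat_lit 60) (.leaf ⟨(nat_lit 862), (nat_lit 138), (nat_lit 0), (nat_lit 0), (nat_lit 0), (nat_lit 3527), (nat_lit 1101), (nat_lit 0), (nat_lit 0), (nat_lit 0), (nat_lit 215500), [((nat_lit 400), [((nat_lit 28), (nat_lit 0), (nat_lit 862))])], ⟨(nat_lit 8), false, true, true, (nat_lit 302), (nat_lit 0), (nat_lit 1582), [(nat_lit 1733849), (nat_lit 1724997), (nat_lit 1757165), (nat_lit 1749998), (nat_lit 1761166), (nat_lit 1749996), (nat_lit 1784482), (nat_lit 1774996)]⟩, ⟨(nat_lit 3), false, false, false, (nat_lit 123), (nat_lit 0), (nat_lit 1582), [(nat_lit 1213552), (nat_lit 1223038), (nat_lit 1258869), (nat_lit 1271724), (nat_lit 1352101), (nat_lit 1349997), (nat_lit 1398733), (nat_lit 1399999)]⟩, (nat_lit 4723629), (nat_lit 38806622), (nat_lit 22722479),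 (nat_lit 5470899), (nat_lit 3), (nat_lit 0), [⟨(nat_lit 1), (nat_lit 81), (nat_lit 34), (nat_lit 100), (nat_lit 576280011)⟩], [], [], [⟨(nat_lit 1), (nat_lit 100), (nat_lit 82), (nat_lit 97), (nat_lit 21811027)⟩],
 ⟨⟨[(nat_lit 40), (nat_lit 60), (nat_lit 80)], [(nat_lit 0), (nat_lit 2136), (nat_lit 3185)], [((nat_lit 0), (nat_lit 0), (nat_lit 0)), ((nat_lit 1000), (nat_lit 343), (nat_lit 808)), ((nat_lit 1000), (nat_lit 338), (nat_lit 820))], ((nat_lit 34), (nat_lit 100), (nat_lit 82))⟩, (nat_lit 0), (nat_lit 119), (nat_lit 119), (nat_lit 0), (nat_lit 0), [(nat_lit 1595602419), (nat_lit 1418431225), (nat_lit 1833400800)], [(nat_lit 0), (nat_lit 0), (nat_lit 0)], [(nat_lit 28424656247), (nat_lit 29109212093), (nat_lit 29542767457), (nat_lit 30191466091), (nat_lit 27783197161), (nat_lit 28319717548), (nat_lit 28720153671), (nat_lit 29305008214)], (nat_lit 0), (nat_lit 0), (nat_lit 0), (nat_lit 0), (nat_lit 0), (nat_lit 0), [], [(nat_lit 2), (nat_lit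 44), (nat_lit 249), (nat_lit 40), (nat_lit 9)]⟩,
 ⟨⟨[(nat_lit 80), (nat_lit 120), (nat_lit 160)], [(nat_lit 0), (nat_lit 528), (nat_lit 2577)], [((nat_lit 0), (nat_lit 0), (nat_lit 0)), ((nat_lit 1000), (nat_lit 959), (nat_lit 206)), ((nat_lit 929), (nat_lit 1000), (nat_lit 742))], ((nat_lit 100), (nat_lit 90), (nat_lit 79))⟩, (nat_lit 353830), (nat_lit 684), (nat_lit 684), (nat_lit 0), (nat_lit 973199), [(nat_lit 646944000), (nat_lit 1099584000), (nat_lit 1638336000)], [], [(nat_lit 4978062714), (nat_lit 5019713286), (nat_lit 5065148007), (nat_lit 5113635689), (nat_lit 4396165242), (nat_lit 4412807421), (nat_lit 4469235438), (nat_lit 4526162555)], (nat_lit 1271251), (nat_lit 1271251), (nat_lit 1271251), (nat_lit 1271251), (nat_lit 0), (nat_lit 2401251), [(nat_lit 1100000), (nat_lit 1785001), (nat_lit 1271251)], [(nat_lit 18), (nat_lit 59), (nat_lit 401), (nat_lit 175), (nat_lit 10)]⟩,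
 Rw.none⟩)))) (.spl (nat_lit 4) (nat_lit 120) (.trX (nat_lit 5) (nat_lit 3) (nat_lit 4) (nat_lit 87) (nat_lit 95) (nat_lit 100) (nat_lit 300) (.leaf ⟨(nat_lit 737), (nat_lit 252), (nat_lit 0), (nat_lit 11), (nat_lit 0), (nat_lit 3266), (nat_lit 2457), (nat_lit 139), (nat_lit 0), (nat_lit 0), (nat_lit 319600), [((nat_lit 400), [((nat_lit 29), (nat_lit 1), (nat_lit 613)), ((nat_lit 43), (nat_lit 2), (nat_lit 124))])], ⟨(nat_lit 8), false, true, true, (nat_lit 308), (nat_lit 0), (nat_lit 2237), [(nat_lit 1739366), (nat_lit 1724997), (nat_lit 1762141), (nat_lit 1749998), (nat_lit 1796379), (nat_lit 1774994), (nat_lit 1819154), (nat_lit 1799995)]⟩, ⟨(nat_lit 3), false, false, false, (nat_lit 106), (nat_lit 0), (nat_lit 2237), [(nat_lit 1177178), (nat_lit 1196337), (nat_lit 1220873), (nat_lit 1244484), (nat_lit 1294870), (nat_lit 1299999), (nat_lit 1338589), (nat_lit 1348168)]⟩, (nat_lit 4552737), (nat_lit 38988494), (nat_lit 23660763), (nat_lit 4350743),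 (nat_lit 3), (nat_lit 0), [⟨(nat_lit 1), (nat_lit 83), (nat_lit 33), (nat_lit 100), (nat_lit 783593267)⟩], [⟨(nat_lit 0), (nat_lit 100), (nat_lit 33), (nat_lit 85), (nat_lit 69338444)⟩], [], [],
 ⟨⟨[(nat_lit 40), (nat_lit 80), (nat_lit 100)], [(nat_lit 0), (nat_lit 2514), (nat_lit 3562)], [((nat_lit 0), (nat_lit 0), (nat_lit 0)), ((nat_lit 1000), (nat_lit 446), (nat_lit 804)), ((nat_lit 1000), (nat_lit 443), (nat_lit 819))], ((nat_lit 44), (nat_lit 100), (nat_lit 84))⟩, (nat_lit 2647), (nat_lit 157), (nat_lit 157), (nat_lit 0), (nat_lit 0), [(nat_lit 1501720406), (nat_lit 1185748381), (nat_lit 1433333600)], [(nat_lit 0), (nat_lit 0), (nat_lit 0)], [(nat_lit 27981633427), (nat_lit 29195052388), (nat_lit 30115110895), (nat_lit 31311964434), (nat_lit 27533142296), (nat_lit 28448789478), (nat_lit 29129342425), (nat_lit 29982185286)], (nat_lit 0), (nat_lit 0), (nat_lit 0), (nat_lit 0), (nat_lit 0), (nat_lit 0), [], [(nat_lit 3), (nat_lit 50), (nat_lit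 238), (nat_lit 30), (nat_lit 7)]⟩,
 ⟨⟨[(nat_lit 80), (nat_lit 140), (nat_lit 180)], [(nat_lit 0), (nat_lit 792), (nat_lit 4228)], [((nat_lit 0), (nat_lit 0), (nat_lit 0)), ((nat_lit 1000), (nat_lit 959), (nat_lit 206)), ((nat_lit 709), (nat_lit 1000), (nat_lit 949))], ((nat_lit 100), (nat_lit 82), (nat_lit 87))⟩, (nat_lit 591480), (nat_lit 604), (nat_lit 604), (nat_lit 0), (nat_lit 661522), [(nat_lit 1232944000), (nat_lit 2588446000), (nat_lit 3697254000)], [], [(nat_lit 10157324239), (nat_lit 10260209654), (nat_lit 10705247322), (nat_lit 10891242047), (nat_lit 8249993296), (nat_lit 8285725678), (nat_lit 8591758241), (nat_lit 8734050908)], (nat_lit 1271251), (nat_lit 1271251), (nat_lit 1271251), (nat_lit 1271251), (nat_lit 0), (nat_lit 2118750), [(nat_lit 1100000), (nat_lit 2127501), (nat_lit 1271251)], [(nat_lit 19), (nat_lit 63), (nat_lit 483), (nat_lit 250), (nat_lit 11)]⟩,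
 ⟨⟨[(nat_lit 140), (nat_lit 180), (nat_lit 200)], [(nat_lit 0), (nat_lit 0), (nat_lit 2835)], [((nat_lit 0), (nat_lit 0), (nat_lit 0)), ((nat_lit 0), (nat_lit 0), (nat_lit 0)), ((nat_lit 363), (nat_lit 1000), (nat_lit 798))], ((nat_lit 0), (nat_lit 0), (nat_lit 0))⟩, (nat_lit 3026), (nat_lit 300), (nat_lit 1472), (nat_lit 859107), (nat_lit 1999581), [(nat_lit 108262000), (nat_lit 154638000), (nat_lit 180400000)], [], [(nat_lit 966355105), (nat_lit 886454353), (nat_lit 807290856), (nat_lit 783187640), (nat_lit 700481354), (nat_lit 677200930), (nat_lit 629834036), (nat_lit 692382322)], (nat_lit 780000), (nat_lit 1100000), (nat_lit 230000), (nat_lit 780000), (nat_lit 0), (nat_lit 2118750), [(nat_lit 1977501), (nat_lit 1271251), (nat_lit 1271251)], [(nat_lit 32), (nat_lit 67), (nat_lit 441), (nat_lit 150), (nat_lit 10)]⟩⟩)) (.spl (nat_lit 1) (nat_lit 270) (.trX (nat_lit 3) (nat_lit 0) (nat_lit 1) (nat_lit 47) (nat_lit 74) (nat_lit 100) (nat_lit 350)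 (.leaf ⟨(nat_lit 792), (nat_lit 185), (nat_lit 0), (nat_lit 23), (nat_lit 0), (nat_lit 3376), (nat_lit 1912), (nat_lit 292), (nat_lit 0), (nat_lit 0), (nat_lit 322200), [((nat_lit 400), [((nat_lit 29), (nat_lit 1), (nat_lit 765)), ((nat_lit 43), (nat_lit 2), (nat_lit 27))])], ⟨(nat_lit 8), false, true, true, (nat_lit 303), (nat_lit 0), (nat_lit 2237), [(nat_lit 1739366), (nat_lit 1724997), (nat_lit 1750753), (nat_lit 1737497), (nat_lit 1782126), (nat_lit 1762495), (nat_lit 1793513), (nat_lit 1774995)]⟩, ⟨(nat_lit 3), false, false, false, (nat_lit 139), (nat_lit 0), (nat_lit 2237), [(nat_lit 1294870), (nat_lit 1299999), (nat_lit 1338589), (nat_lit 1348168), (nat_lit 1351885), (nat_lit 1349998), (nat_lit 1397434), (nat_lit 1399999)]⟩, (nat_lit 4883535), (nat_lit 37982613), (nat_lit 22539647), (nat_lit 6477740), (nat_lit 3), (nat_lit 0), [⟨(nat_lit 1), (nat_lit 84), (nat_lit 33), (nat_lit 100), (nat_lit 713066065)⟩], [], [], [],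
 ⟨⟨[(nat_lit 40), (nat_lit 80), (nat_lit 100)], [(nat_lit 0), (nat_lit 2514), (nat_lit 3562)], [((nat_lit 0), (nat_lit 0), (nat_lit 0)), ((nat_lit 1000), (nat_lit 446), (nat_lit 804)), ((nat_lit 1000), (nat_lit 443), (nat_lit 819))], ((nat_lit 44), (nat_lit 100), (nat_lit 84))⟩, (nat_lit 0), (nat_lit 113), (nat_lit 113), (nat_lit 0), (nat_lit 0), [(nat_lit 1480120001), (nat_lit 1349369478), (nat_lit 1313546800)], [(nat_lit 0), (nat_lit 0), (nat_lit 0)], [(nat_lit 27056876764), (nat_lit 28149536112), (nat_lit 28495837998), (nat_lit 29666828100), (nat_lit 27145639537), (nat_lit 28129348224), (nat_lit 28464953168), (nat_lit 29582741136)], (nat_lit 0), (nat_lit 0), (nat_lit 0), (nat_lit 0), (nat_lit 0), (nat_lit 0), [], [(nat_lit 3), (nat_lit 50), (nat_lit 249), (nat_lit 40), (nat_lit 7)]⟩,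
 ⟨⟨[(nat_lit 80), (nat_lit 140), (nat_lit 180)], [(nat_lit 0), (nat_lit 792), (nat_lit 4228)], [((nat_lit 0), (nat_lit 0), (nat_lit 0)), ((nat_lit 1000), (nat_lit 959), (nat_lit 206)), ((nat_lit 709), (nat_lit 1000), (nat_lit 949))], ((nat_lit 100), (nat_lit 82), (nat_lit 87))⟩, (nat_lit 414554), (nat_lit 601), (nat_lit 601), (nat_lit 0), (nat_lit 654310), [(nat_lit 975104000), (nat_lit 2047136000), (nat_lit 2924064000)], [], [(nat_lit 8221601000), (nat_lit 8262325620), (nat_lit 8501381775), (nat_lit 8578657731), (nat_lit 6881474180), (nat_lit 6890542906), (nat_lit 7106019375), (nat_lit 7136391791)], (nat_lit 1271251), (nat_lit 1271251), (nat_lit 1271251), (nat_lit 1271251), (nat_lit 0), (nat_lit 2401251), [(nat_lit 1100000), (nat_lit 2127501), (nat_lit 1271251)], [(nat_lit 19), (nat_lit 63), (nat_lit 483), (nat_lit 250), (nat_lit 11)]⟩,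
 ⟨⟨[(nat_lit 140), (nat_lit 180), (nat_lit 200)], [(nat_lit 0), (nat_lit 0), (nat_lit 2835)], [((nat_lit 0), (nat_lit 0), (nat_lit 0)), ((nat_lit 0), (nat_lit 0), (nat_lit 0)), ((nat_lit 363), (nat_lit 1000), (nat_lit 798))], ((nat_lit 0), (nat_lit 0), (nat_lit 0))⟩, (nat_lit 6328), (nat_lit 300), (nat_lit 2101), (nat_lit 1796301), (nat_lit 3439560), [(nat_lit 226366000), (nat_lit 323334000), (nat_lit 377200000)], [], [(nat_lit 1684721778), (nat_lit 1634030720), (nat_lit 1627889784), (nat_lit 1577665536), (nat_lit 1401877906), (nat_lit 1538826174), (nat_lit 1537107316), (nat_lit 1677540896)], (nat_lit 780000), (nat_lit 1100000), (nat_lit 780000), (nat_lit 1100000), (nat_lit 0), (nat_lit 2401251), [(nat_lit 1977501), (nat_lit 1271251), (nat_lit 1271251)], [(nat_lit 32), (nat_lit 67), (nat_lit 608), (nat_lit 175), (nat_lit 13)]⟩⟩)) (.leaf ⟨(nat_lit 22), (nat_lit 865), (nat_lit 0), (nat_lit 113), (nat_lit 0), (nat_lit 3759), (nat_lit 7164), (nat_lit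 1252), (nat_lit 0), (nat_lit 0), (nat_lit 88000), [((nat_lit 400), [((nat_lit 43), (nat_lit 5), (nat_lit 22))])], ⟨(nat_lit 8), false, true, true, (nat_lit 311), (nat_lit 0), (nat_lit 2237), [(nat_lit 1750753), (nat_lit 1737497), (nat_lit 1762141), (nat_lit 1749998), (nat_lit 1807767), (nat_lit 1787495), (nat_lit 1819154), (nat_lit 1799995)]⟩, ⟨(nat_lit 3), false, false, false, (nat_lit 139), (nat_lit 0), (nat_lit 2237), [(nat_lit 1294870), (nat_lit 1299999), (nat_lit 1338589), (nat_lit 1348168), (nat_lit 1351885), (nat_lit 1349998), (nat_lit 1397434), (nat_lit 1399999)]⟩, (nat_lit 4898801), (nat_lit 37381680), (nat_lit 23212206), (nat_lit 6406114), (nat_lit 3), (nat_lit 0), [⟨(nat_lit 1), (nat_lit 82), (nat_lit 34), (nat_lit 100), (nat_lit 2561097729)⟩], [], [], [⟨(nat_lit 1), (nat_lit 92), (nat_lit 75), (nat_lit 100), (nat_lit 46889662)⟩],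
 ⟨⟨[(nat_lit 40), (nat_lit 80), (nat_lit 100)], [(nat_lit 0), (nat_lit 2514), (nat_lit 3562)], [((nat_lit 0), (nat_lit 0), (nat_lit 0)), ((nat_lit 1000), (nat_lit 446), (nat_lit 804)), ((nat_lit 1000), (nat_lit 443), (nat_lit 819))], ((nat_lit 44), (nat_lit 100), (nat_lit 84))⟩, (nat_lit 946659), (nat_lit 116), (nat_lit 116), (nat_lit 0), (nat_lit 0), [(nat_lit 1823484326), (nat_lit 4325950231), (nat_lit 5224571200)], [(nat_lit 0), (nat_lit 0), (nat_lit 0)], [(nat_lit 27580065909), (nat_lit 28723313008), (nat_lit 29641355057), (nat_lit 30835553989), (nat_lit 27634921917), (nat_lit 28612205516), (nat_lit 29493761909), (nat_lit 30633064960)], (nat_lit 0), (nat_lit 0), (nat_lit 0), (nat_lit 0), (nat_lit 0), (nat_lit 0), [], [(nat_lit 3), (nat_lit 50), (nat_lit 249), (nat_lit 40), (nat_lit 7)]⟩,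
 ⟨⟨[(nat_lit 80), (nat_lit 120), (nat_lit 160)], [(nat_lit 0), (nat_lit 796), (nat_lit 2802)], [((nat_lit 0), (nat_lit 0), (nat_lit 0)), ((nat_lit 1000), (nat_lit 938), (nat_lit 310)), ((nat_lit 969), (nat_lit 1000), (nat_lit 759))], ((nat_lit 100), (nat_lit 87), (nat_lit 88))⟩, (nat_lit 2815455), (nat_lit 540), (nat_lit 540), (nat_lit 0), (nat_lit 658258), [(nat_lit 4584864000), (nat_lit 7792704000), (nat_lit 11610816000)], [], [(nat_lit 32776960890), (nat_lit 32994908874), (nat_lit 34908575312), (nat_lit 35295695436), (nat_lit 30057958533), (nat_lit 30182984286), (nat_lit 32446491598), (nat_lit 32801967255)], (nat_lit 1271251), (nat_lit 1271251), (nat_lit 1271251), (nat_lit 1271251), (nat_lit 0), (nat_lit 2401251), [(nat_lit 1100000), (nat_lit 1785001), (nat_lit 1271251)], [(nat_lit 18), (nat_lit 59), (nat_lit 401), (nat_lit 175), (nat_lit 10)]⟩,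
 ⟨⟨[(nat_lit 140), (nat_lit 180), (nat_lit 200)], [(nat_lit 0), (nat_lit 0), (nat_lit 2835)], [((nat_lit 0), (nat_lit 0), (nat_lit 0)), ((nat_lit 0), (nat_lit 0), (nat_lit 0)), ((nat_lit 363), (nat_lit 1000), (nat_lit 798))], ((nat_lit 0), (nat_lit 0), (nat_lit 0))⟩, (nat_lit 31084), (nat_lit 300), (nat_lit 2253), (nat_lit 8825385), (nat_lit 3736174), [(nat_lit 1112146000), (nat_lit 1588554000), (nat_lit 1853200000)], [], [(nat_lit 8938957330), (nat_lit 8763680503), (nat_lit 8756385015), (nat_lit 8582008330), (nat_lit 7500979288), (nat_lit 7331651290), (nat_lit 7325107489), (nat_lit 7940531576)], (nat_lit 780000), (nat_lit 1100000), (nat_lit 780000), (nat_lit 1100000), (nat_lit 0), (nat_lit 2401251), [(nat_lit 1977501), (nat_lit 1271251), (nat_lit 1271251)], [(nat_lit 32), (nat_lit 67), (nat_lit 646), (nat_lit 175), (nat_lit 14)]⟩⟩)))))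
noncomputable def c14_51 : Tr Lf :=
 (.trZ (nat_lit 0) (nat_lit 2) (nat_lit 4) (nat_lit 100) (nat_lit 44) (nat_lit 81) (nat_lit 70) (.spl (nat_lit 5) (nat_lit 120) (.leaf ⟨(nat_lit 711), (nat_lit 289), (nat_lit 0), (nat_lit 0), (nat_lit 0), (nat_lit 3214), (nat_lit 2953), (nat_lit 0), (nat_lit 0), (nat_lit 0), (nat_lit 364000), [((nat_lit 400), [((nat_lit 29), (nat_lit 1), (nat_lit 313)), ((nat_lit 43), (nat_lit 2), (nat_lit 398))])], ⟨(nat_lit 8), false, true, true, (nat_lit 304), (nat_lit 0), (nat_lit 2237), [(nat_lit 1716590), (nat_lit 1699995), (nat_lit 1762141), (nat_lit 1749998), (nat_lit 1773604), (nat_lit 1749994), (nat_lit 1819154), (nat_lit 1799995)]⟩, ⟨(nat_lit 4), false, false, false, (nat_lit 139), (nat_lit 0), (nat_lit 2237), [(nat_lit 1265016), (nat_lit 1283365), (nat_lit 1286864), (nat_lit 1307439), (nat_lit 1397434), (nat_lit 1399999), (nat_lit 1419294), (nat_lit 1424084)]⟩, (nat_lit 4885400), (nat_lit 37953589), (nat_lit 22562931),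 (nat_lit 6483480), (nat_lit 4), (nat_lit 0), [⟨(nat_lit 1), (nat_lit 85), (nat_lit 33), (nat_lit 100), (nat_lit 717701744)⟩], [], [], [⟨(nat_lit 0), (nat_lit 100), (nat_lit 79), (nat_lit 36), (nat_lit 60117288)⟩],
 ⟨⟨[(nat_lit 40), (nat_lit 80), (nat_lit 100)], [(nat_lit 0), (nat_lit 2514), (nat_lit 3562)], [((nat_lit 0), (nat_lit 0), (nat_lit 0)), ((nat_lit 1000), (nat_lit 446), (nat_lit 804)), ((nat_lit 1000), (nat_lit 443), (nat_lit 819))], ((nat_lit 44), (nat_lit 100), (nat_lit 84))⟩, (nat_lit 0), (nat_lit 137), (nat_lit 137), (nat_lit 0), (nat_lit 0), [(nat_lit 1510836401), (nat_lit 1001034550), (nat_lit 975355200)], [(nat_lit 0), (nat_lit 0), (nat_lit 0)], [(nat_lit 26881938511), (nat_lit 28185726813), (nat_lit 29091481810), (nat_lit 30262592343), (nat_lit 27004439355), (nat_lit 27925110936), (nat_lit 28761537241), (nat_lit 29827860160)], (nat_lit 0), (nat_lit 0), (nat_lit 0), (nat_lit 0), (nat_lit 0), (nat_lit 0), [], [(nat_lit 3), (nat_lit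 50), (nat_lit 249), (nat_lit 40), (nat_lit 8)]⟩,
 ⟨⟨[(nat_lit 80), (nat_lit 140), (nat_lit 180)], [(nat_lit 0), (nat_lit 0), (nat_lit 3656)], [((nat_lit 0), (nat_lit 0), (nat_lit 0)), ((nat_lit 0), (nat_lit 0), (nat_lit 0)), ((nat_lit 637), (nat_lit 1000), (nat_lit 908))], ((nat_lit 100), (nat_lit 73), (nat_lit 85))⟩, (nat_lit 507911), (nat_lit 610), (nat_lit 610), (nat_lit 0), (nat_lit 666317), [(nat_lit 1354832000), (nat_lit 2844338000), (nat_lit 4062762000)], [], [(nat_lit 12185834388), (nat_lit 12315256630), (nat_lit 12716112652), (nat_lit 13135942627), (nat_lit 10087117296), (nat_lit 10274977395), (nat_lit 10535679583), (nat_lit 10675792224)], (nat_lit 1271251), (nat_lit 1271251), (nat_lit 1271251), (nat_lit 1271251), (nat_lit 0), (nat_lit 780000), [(nat_lit 1100000), (nat_lit 2127501), (nat_lit 1271251)], [(nat_lit 19), (nat_lit 63), (nat_lit 428), (nat_lit 200), (nat_lit 9)]⟩,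
 Rw.none⟩) (.spl (nat_lit 0) (nat_lit 390) (.leaf ⟨(nat_lit 799), (nat_lit 143), (nat_lit 0), (nat_lit 58), (nat_lit 0), (nat_lit 2980), (nat_lit 2036), (nat_lit 647), (nat_lit 0), (nat_lit 0), (nat_lit 354800), [((nat_lit 390), [((nat_lit 29), (nat_lit 1), (nat_lit 623)), ((nat_lit 43), (nat_lit 2), (nat_lit 176))])], ⟨(nat_lit 8), false, true, true, (nat_lit 306), (nat_lit 1581), (nat_lit 2237), [(nat_lit 1716594), (nat_lit 1710536), (nat_lit 1762142), (nat_lit 1757166), (nat_lit 1773609), (nat_lit 1765172), (nat_lit 1819158), (nat_lit 1811802)]⟩, ⟨(nat_lit 4), false, false, false, (nat_lit 139), (nat_lit 1581), (nat_lit 2237), [(nat_lit 1268963), (nat_lit 1275616), (nat_lit 1291693), (nat_lit 1298886), (nat_lit 1397434), (nat_lit 1398733), (nat_lit 1420170), (nat_lit 1422009)]⟩, (nat_lit 4885443), (nat_lit 37795330), (nat_lit 22775673), (nat_lit 6428997), (nat_lit 4), (nat_lit 0), [⟨(nat_lit 1), (nat_lit 81), (nat_lit 40), (nat_lit 100), (nat_lit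 455602474)⟩], [⟨(nat_lit 0), (nat_lit 100), (nat_lit 31), (nat_lit 92), (nat_lit 5834475)⟩], [], [],
 ⟨⟨[(nat_lit 40), (nat_lit 80), (nat_lit 100)], [(nat_lit 0), (nat_lit 2514), (nat_lit 3562)], [((nat_lit 0), (nat_lit 0), (nat_lit 0)), ((nat_lit 1000), (nat_lit 446), (nat_lit 804)), ((nat_lit 1000), (nat_lit 443), (nat_lit 819))], ((nat_lit 44), (nat_lit 100), (nat_lit 84))⟩, (nat_lit 1352), (nat_lit 134), (nat_lit 134), (nat_lit 0), (nat_lit 0), [(nat_lit 1476596404), (nat_lit 923201076), (nat_lit 934370400)], [(nat_lit 0), (nat_lit 0), (nat_lit 0)], [(nat_lit 26923617240), (nat_lit 27414667855), (nat_lit 28631965202), (nat_lit 29199415589), (nat_lit 27164573760), (nat_lit 27610788370), (nat_lit 28824498302), (nat_lit 29271060877)], (nat_lit 0), (nat_lit 0), (nat_lit 0), (nat_lit 0), (nat_lit 0), (nat_lit 0), [], [(nat_lit 3), (nat_lit 50), (nat_lit 249), (nat_lit 40), (nat_lit 8)]⟩,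
 ⟨⟨[(nat_lit 80), (nat_lit 140), (nat_lit 180)], [(nat_lit 0), (nat_lit 0), (nat_lit 3656)], [((nat_lit 0), (nat_lit 0), (nat_lit 0)), ((nat_lit 0), (nat_lit 0), (nat_lit 0)), ((nat_lit 637), (nat_lit 1000), (nat_lit 908))], ((nat_lit 100), (nat_lit 73), (nat_lit 85))⟩, (nat_lit 357082), (nat_lit 475), (nat_lit 475), (nat_lit 0), (nat_lit 626776), [(nat_lit 942288000), (nat_lit 1978242000), (nat_lit 2825658000)], [], [(nat_lit 7065921920), (nat_lit 7196827735), (nat_lit 7376713853), (nat_lit 7474659289), (nat_lit 6970625695), (nat_lit 6994877592), (nat_lit 7213416045), (nat_lit 7315859104)], (nat_lit 1271251), (nat_lit 1271251), (nat_lit 1271251), (nat_lit 1271251), (nat_lit 780000), (nat_lit 2581251), [(nat_lit 1100000), (nat_lit 2127501), (nat_lit 1271251)], [(nat_lit 19), (nat_lit 63), (nat_lit 483), (nat_lit 250), (nat_lit 10)]⟩,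
 ⟨⟨[(nat_lit 120), (nat_lit 160), (nat_lit 200)], [(nat_lit 0), (nat_lit 0), (nat_lit 3198)], [((nat_lit 0), (nat_lit 0), (nat_lit 0)), ((nat_lit 0), (nat_lit 0), (nat_lit 0)), ((nat_lit 572), (nat_lit 1000), (nat_lit 714))], ((nat_lit 0), (nat_lit 0), (nat_lit 0))⟩, (nat_lit 28293), (nat_lit 300), (nat_lit 1311), (nat_lit 4303600), (nat_lit 1939700), [(nat_lit 462144000), (nat_lit 688576000), (nat_lit 951200000)], [], [(nat_lit 3864664333), (nat_lit 3824193229), (nat_lit 3592945350), (nat_lit 3552763347), (nat_lit 3491615188), (nat_lit 3579450309), (nat_lit 3951883162), (nat_lit 4141793902)], (nat_lit 1100000), (nat_lit 1271251), (nat_lit 422188), (nat_lit 1100000), (nat_lit 780000), (nat_lit 2581251), [(nat_lit 1695001), (nat_lit 1271251), (nat_lit 1271251)], [(nat_lit 29), (nat_lit 66), (nat_lit 413), (nat_lit 175), (nat_lit 9)]⟩⟩) (.trX (nat_lit 3) (nat_lit 0) (nat_lit 1) (nat_lit 34) (nat_lit 81) (nat_lit 100) (nat_lit 340) (.trZ (nat_lit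 0) (nat_lit 2) (nat_lit 4) (nat_lit 100) (nat_lit 32) (nat_lit 89) (nat_lit 100) (.leaf ⟨(nat_lit 871), (nat_lit 88), (nat_lit 0), (nat_lit 41), (nat_lit 0), (nat_lit 2937), (nat_lit 1318), (nat_lit 445), (nat_lit 0), (nat_lit 0), (nat_lit 302050), [((nat_lit 400), [((nat_lit 29), (nat_lit 0), (nat_lit 309)), ((nat_lit 29), (nat_lit 1), (nat_lit 562))])], ⟨(nat_lit 8), false, true, true, (nat_lit 297), (nat_lit 0), (nat_lit 1582), [(nat_lit 1710533), (nat_lit 1699996), (nat_lit 1757165), (nat_lit 1749998), (nat_lit 1737850), (nat_lit 1724995), (nat_lit 1784482), (nat_lit 1774996)]⟩, ⟨(nat_lit 4), false, false, false, (nat_lit 148), (nat_lit 0), (nat_lit 1582), [(nat_lit 1314816), (nat_lit 1323036), (nat_lit 1337475), (nat_lit 1347379), (nat_lit 1398733), (nat_lit 1399999), (nat_lit 1421394), (nat_lit 1424345)]⟩, (nat_lit 4956440), (nat_lit 38053922), (nat_lit 21777301), (nat_lit 7168777), (nat_lit 4), (nat_lit 0), [⟨(nat_lit 1), (nat_lit 81), (nat_lit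 34), (nat_lit 100), (nat_lit 564265143)⟩], [], [], [],
 ⟨⟨[(nat_lit 40), (nat_lit 60), (nat_lit 80)], [(nat_lit 0), (nat_lit 2136), (nat_lit 3185)], [((nat_lit 0), (nat_lit 0), (nat_lit 0)), ((nat_lit 1000), (nat_lit 343), (nat_lit 808)), ((nat_lit 1000), (nat_lit 338), (nat_lit 820))], ((nat_lit 32), (nat_lit 100), (nat_lit 86))⟩, (nat_lit 0), (nat_lit 101), (nat_lit 101), (nat_lit 0), (nat_lit 0), [(nat_lit 1499972507), (nat_lit 1063392093), (nat_lit 1141110800)], [(nat_lit 0), (nat_lit 0), (nat_lit 0)], [(nat_lit 27000902734), (nat_lit 27503228605), (nat_lit 27851296023), (nat_lit 28429795662), (nat_lit 27313805301), (nat_lit 27782959783), (nat_lit 28123261929), (nat_lit 28613935265)], (nat_lit 0), (nat_lit 0), (nat_lit 0), (nat_lit 0), (nat_lit 0), (nat_lit 0), [], [(nat_lit 2), (nat_lit 44), (nat_lit 249), (nat_lit 40), (nat_lit 9)]⟩,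
 ⟨⟨[(nat_lit 80), (nat_lit 140), (nat_lit 180)], [(nat_lit 0), (nat_lit 0), (nat_lit 3656)], [((nat_lit 0), (nat_lit 0), (nat_lit 0)), ((nat_lit 0), (nat_lit 0), (nat_lit 0)), ((nat_lit 637), (nat_lit 1000), (nat_lit 908))], ((nat_lit 100), (nat_lit 73), (nat_lit 85))⟩, (nat_lit 238061), (nat_lit 588), (nat_lit 588), (nat_lit 0), (nat_lit 828184), [(nat_lit 604752000), (nat_lit 1269618000), (nat_lit 1813482000)], [], [(nat_lit 4502896096), (nat_lit 4586752295), (nat_lit 4603003725), (nat_lit 4676204327), (nat_lit 4436829977), (nat_lit 4451745768), (nat_lit 4491692316), (nat_lit 4554760602)], (nat_lit 1271251), (nat_lit 1271251), (nat_lit 1271251), (nat_lit 1271251), (nat_lit 780000), (nat_lit 2581251), [(nat_lit 1100000), (nat_lit 2127501), (nat_lit 1271251)], [(nat_lit 19), (nat_lit 63), (nat_lit 483), (nat_lit 250), (nat_lit 10)]⟩,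
 ⟨⟨[(nat_lit 120), (nat_lit 160), (nat_lit 200)], [(nat_lit 0), (nat_lit 0), (nat_lit 3198)], [((nat_lit 0), (nat_lit 0), (nat_lit 0)), ((nat_lit 0), (nat_lit 0), (nat_lit 0)), ((nat_lit 572), (nat_lit 1000), (nat_lit 714))], ((nat_lit 0), (nat_lit 0), (nat_lit 0))⟩, (nat_lit 20000), (nat_lit 300), (nat_lit 1508), (nat_lit 3042200), (nat_lit 2403196), [(nat_lit 326688000), (nat_lit 486752000), (nat_lit 672400000)], [], [(nat_lit 2731040945), (nat_lit 2702289647), (nat_lit 2616734688), (nat_lit 2588115783), (nat_lit 2479327622), (nat_lit 2606666282), (nat_lit 2769818642), (nat_lit 2901196428)], (nat_lit 1100000), (nat_lit 1271251), (nat_lit 631250), (nat_lit 1100000), (nat_lit 780000), (nat_lit 2581251), [(nat_lit 1695001), (nat_lit 1271251), (nat_lit 1271251)], [(nat_lit 29), (nat_lit 66), (nat_lit 462), (nat_lit 175), (nat_lit 10)]⟩⟩))))))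
noncomputable def c14_52 : Tr Lf :=
 (.leaf ⟨(nat_lit 209), (nat_lit 738), (nat_lit 0), (nat_lit 53), (nat_lit 0), (nat_lit 3961), (nat_lit 8133), (nat_lit 582), (nat_lit 0), (nat_lit 0), (nat_lit 125400), [((nat_lit 400), [((nat_lit 43), (nat_lit 2), (nat_lit 209))])], ⟨(nat_lit 8), false, true, true, (nat_lit 304), (nat_lit 0), (nat_lit 2237), [(nat_lit 1716590), (nat_lit 1699995), (nat_lit 1762141), (nat_lit 1749998), (nat_lit 1773604), (nat_lit 1749994), (nat_lit 1819154), (nat_lit 1799995)]⟩, ⟨(nat_lit 3), false, false, false, (nat_lit 122), (nat_lit 0), (nat_lit 2237), [(nat_lit 1177178), (nat_lit 1196337), (nat_lit 1242721), (nat_lit 1268557), (nat_lit 1351885), (nat_lit 1349998), (nat_lit 1419294), (nat_lit 1424084)]⟩, (nat_lit 4708118), (nat_lit 38743101), (nat_lit 22920388), (nat_lit 5336511), (nat_lit 3), (nat_lit 0), [⟨(nat_lit 1), (nat_lit 85), (nat_lit 33), (nat_lit 100), (nat_lit 1339034192)⟩], [], [], [],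
 ⟨⟨[(nat_lit 40), (nat_lit 80), (nat_lit 100)], [(nat_lit 0), (nat_lit 2514), (nat_lit 3562)], [((nat_lit 0), (nat_lit 0), (nat_lit 0)), ((nat_lit 1000), (nat_lit 446), (nat_lit 804)), ((nat_lit 1000), (nat_lit 443), (nat_lit 819))], ((nat_lit 44), (nat_lit 100), (nat_lit 84))⟩, (nat_lit 726479), (nat_lit 298), (nat_lit 298), (nat_lit 0), (nat_lit 436783), [(nat_lit 1713146002), (nat_lit 3421460058), (nat_lit 4491975600)], [(nat_lit 0), (nat_lit 0), (nat_lit 0)], [(nat_lit 29304394972), (nat_lit 30770351898), (nat_lit 31757366879), (nat_lit 33063676489), (nat_lit 28030383439), (nat_lit 28867564114), (nat_lit 29765155272), (nat_lit 30931507840)], (nat_lit 1271251), (nat_lit 1271251), (nat_lit 1271251), (nat_lit 1271251), (nat_lit 230000), (nat_lit 1100000), [(nat_lit 490000), (nat_lit 1100000), (nat_lit 1442501)], [(nat_lit 3), (nat_lit 50), (nat_lit 249), (nat_lit 40), (nat_lit 8)]⟩,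
 ⟨⟨[(nat_lit 80), (nat_lit 140), (nat_lit 180)], [(nat_lit 0), (nat_lit 0), (nat_lit 3656)], [((nat_lit 0), (nat_lit 0), (nat_lit 0)), ((nat_lit 0), (nat_lit 0), (nat_lit 0)), ((nat_lit 637), (nat_lit 1000), (nat_lit 908))], ((nat_lit 100), (nat_lit 73), (nat_lit 85))⟩, (nat_lit 1499279), (nat_lit 554), (nat_lit 554), (nat_lit 0), (nat_lit 517532), [(nat_lit 3708208000), (nat_lit 7785022000), (nat_lit 11119878000)], [], [(nat_lit 32991476376), (nat_lit 33606549374), (nat_lit 34458501548), (nat_lit 35609797219), (nat_lit 27038528266), (nat_lit 27127045872), (nat_lit 27998935580), (nat_lit 28912581498)], (nat_lit 1271251), (nat_lit 1271251), (nat_lit 1271251), (nat_lit 1271251), (nat_lit 0), (nat_lit 2401251), [(nat_lit 1100000), (nat_lit 2127501), (nat_lit 1271251)], [(nat_lit 19), (nat_lit 63), (nat_lit 483), (nat_lit 250), (nat_lit 11)]⟩,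
 ⟨⟨[(nat_lit 140), (nat_lit 180), (nat_lit 200)], [(nat_lit 0), (nat_lit 0), (nat_lit 2835)], [((nat_lit 0), (nat_lit 0), (nat_lit 0)), ((nat_lit 0), (nat_lit 0), (nat_lit 0)), ((nat_lit 363), (nat_lit 1000), (nat_lit 798))], ((nat_lit 0), (nat_lit 0), (nat_lit 0))⟩, (nat_lit 14582), (nat_lit 300), (nat_lit 1843), (nat_lit 4139301), (nat_lit 2806307), [(nat_lit 521626000), (nat_lit 745074000), (nat_lit 869200000)], [], [(nat_lit 4431050778), (nat_lit 4292556847), (nat_lit 4084567873), (nat_lit 3959563836), (nat_lit 3664706627), (nat_lit 3541437543), (nat_lit 3426638276), (nat_lit 3893776597)], (nat_lit 780000), (nat_lit 1271251), (nat_lit 230000), (nat_lit 1100000), (nat_lit 0), (nat_lit 2401251), [(nat_lit 1977501), (nat_lit 1271251), (nat_lit 1271251)], [(nat_lit 32), (nat_lit 67), (nat_lit 546), (nat_lit 175), (nat_lit 12)]⟩⟩)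
noncomputable def c14_53 : Tr Lf :=
 (.trZ (nat_lit 0) (nat_lit 2) (nat_lit 4) (nat_lit 100) (nat_lit 44) (nat_lit 86) (nat_lit 90) (.spl (nat_lit 5) (nat_lit 120) (.spl (nat_lit 1) (nat_lit 260) (.trX (nat_lit 3) (nat_lit 0) (nat_lit 1) (nat_lit 46) (nat_lit 76) (nat_lit 100) (nat_lit 340) (.spl (nat_lit 6) (nat_lit 68) (.spl (nat_lit 6) (nat_lit 56) (.leaf ⟨(nat_lit 618), (nat_lit 312), (nat_lit 0), (nat_lit 70), (nat_lit 0), (nat_lit 3879), (nat_lit 2775), (nat_lit 1173), (nat_lit 0), (nat_lit 0), (nat_lit 226650), [((nat_lit 400), [((nat_lit 28), (nat_lit 0), (nat_lit 137)), ((nat_lit 28), (nat_lit 1), (nat_lit 481))])], ⟨(nat_lit 6), false, true, true, (nat_lit 272), (nat_lit 0), (nat_lit 2237), [(nat_lit 1602531), (nat_lit 1599967), (nat_lit 1624400), (nat_lit 1624062), (nat_lit 1745097), (nat_lit 1724995), (nat_lit 1767872), (nat_lit 1749995)]⟩, ⟨(nat_lit 4), false, false, false, (nat_lit 158), (nat_lit 0), (nat_lit 2237), [(nat_lit 1316293),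 (nat_lit 1333360), (nat_lit 1359989), (nat_lit 1381507), (nat_lit 1419294), (nat_lit 1424084), (nat_lit 1462989), (nat_lit 1472231)]⟩, (nat_lit 4971130), (nat_lit 39541191), (nat_lit 19308267), (nat_lit 8150542), (nat_lit 4), (nat_lit 0), [⟨(nat_lit 1), (nat_lit 87), (nat_lit 32), (nat_lit 100), (nat_lit 311138101)⟩], [⟨(nat_lit 0), (nat_lit 100), (nat_lit 31), (nat_lit 95), (nat_lit 287819077)⟩], [⟨(nat_lit 0), (nat_lit 100), (nat_lit 97), (nat_lit 25), (nat_lit 91813516)⟩], [],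
 ⟨⟨[(nat_lit 40), (nat_lit 60), (nat_lit 80)], [(nat_lit 0), (nat_lit 1539), (nat_lit 2453)], [((nat_lit 0), (nat_lit 0), (nat_lit 0)), ((nat_lit 1000), (nat_lit 478), (nat_lit 704)), ((nat_lit 1000), (nat_lit 474), (nat_lit 714))], ((nat_lit 46), (nat_lit 100), (nat_lit 74))⟩, (nat_lit 0), (nat_lit 182), (nat_lit 182), (nat_lit 0), (nat_lit 282152), [(nat_lit 1572085605), (nat_lit 1553254808), (nat_lit 2074428400)], [(nat_lit 0), (nat_lit 0), (nat_lit 0)], [(nat_lit 24061152885), (nat_lit 25516685948), (nat_lit 28785114920), (nat_lit 30112868529), (nat_lit 24477393180), (nat_lit 25525921206), (nat_lit 28565583312), (nat_lit 29786925078)], (nat_lit 1271251), (nat_lit 1271251), (nat_lit 1271251), (nat_lit 1271251), (nat_lit 559688), (nat_lit 1100000), [(nat_lit 490000), (nat_lit 780000), (nat_lit 1100000)], [(nat_lit 2), (nat_lit 44), (nat_lit 249), (nat_lit 40), (nat_lit 10)]⟩,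
 ⟨⟨[(nat_lit 80), (nat_lit 120), (nat_lit 160)], [(nat_lit 0), (nat_lit 0), (nat_lit 2132)], [((nat_lit 0), (nat_lit 0), (nat_lit 0)), ((nat_lit 0), (nat_lit 0), (nat_lit 0)), ((nat_lit 858), (nat_lit 1000), (nat_lit 713))], ((nat_lit 100), (nat_lit 86), (nat_lit 71))⟩, (nat_lit 1087530), (nat_lit 521), (nat_lit 521), (nat_lit 0), (nat_lit 585524), [(nat_lit 1790816000), (nat_lit 3043776000), (nat_lit 4535104000)], [], [(nat_lit 14250581424), (nat_lit 14433736896), (nat_lit 15421018979), (nat_lit 15627824373), (nat_lit 12816651146), (nat_lit 13022297519), (nat_lit 13923605096), (nat_lit 14069495311)], (nat_lit 1271251), (nat_lit 1271251), (nat_lit 1271251), (nat_lit 1271251), (nat_lit 0), (nat_lit 780000), [(nat_lit 1100000), (nat_lit 1785001), (nat_lit 1271251)], [(nat_lit 18), (nat_lit 59), (nat_lit 428), (nat_lit 200), (nat_lit 11)]⟩,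
 ⟨⟨[(nat_lit 120), (nat_lit 160), (nat_lit 180)], [(nat_lit 0), (nat_lit 533), (nat_lit 2066)], [((nat_lit 0), (nat_lit 0), (nat_lit 0)), ((nat_lit 960), (nat_lit 1000), (nat_lit 200)), ((nat_lit 615), (nat_lit 1000), (nat_lit 729))], ((nat_lit 100), (nat_lit 65), (nat_lit 70))⟩, (nat_lit 33511), (nat_lit 300), (nat_lit 920), (nat_lit 5082369), (nat_lit 1058835), [(nat_lit 557760000), (nat_lit 831040000), (nat_lit 984060000)], [], [(nat_lit 4303549274), (nat_lit 3996915646), (nat_lit 3526021488), (nat_lit 3506210696), (nat_lit 2868914271), (nat_lit 2813177169), (nat_lit 2994764882), (nat_lit 2508068909)], (nat_lit 1271251), (nat_lit 1271251), (nat_lit 559688), (nat_lit 1100000), (nat_lit 0), (nat_lit 780000), [(nat_lit 1695001), (nat_lit 1271251), (nat_lit 1271251)], [(nat_lit 28), (nat_lit 65), (nat_lit 345), (nat_lit 125), (nat_lit 8)]⟩⟩) (.leaf ⟨(nat_lit 683), (nat_lit 317), (nat_lit 0), (nat_lit 0), (nat_lit 0), (nat_lit 3774), (nat_lit 3337),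 (nat_lit 0), (nat_lit 0), (nat_lit 0), (nat_lit 205100), [((nat_lit 400), [((nat_lit 28), (nat_lit 0), (nat_lit 454)), ((nat_lit 28), (nat_lit 1), (nat_lit 229))])], ⟨(nat_lit 6), false, true, true, (nat_lit 272), (nat_lit 0), (nat_lit 2237), [(nat_lit 1602531), (nat_lit 1599967), (nat_lit 1624400), (nat_lit 1624062), (nat_lit 1745097), (nat_lit 1724995), (nat_lit 1767872), (nat_lit 1749995)]⟩, ⟨(nat_lit 4), false, false, false, (nat_lit 158), (nat_lit 0), (nat_lit 2237), [(nat_lit 1316293), (nat_lit 1333360), (nat_lit 1359989), (nat_lit 1381507), (nat_lit 1419294), (nat_lit 1424084), (nat_lit 1462989), (nat_lit 1472231)]⟩, (nat_lit 4971130), (nat_lit 39541191), (nat_lit 19308267), (nat_lit 8150542), (nat_lit 4), (nat_lit 0), [⟨(nat_lit 1), (nat_lit 87), (nat_lit 32), (nat_lit 100), (nat_lit 360838934)⟩], [⟨(nat_lit 0), (nat_lit 100), (nat_lit 31), (nat_lit 95), (nat_lit 417572928)⟩], [⟨(nat_lit 0), (nat_lit 100), (nat_lit 97), (nat_lit 25), (nat_lit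 52004823)⟩], [],
 ⟨⟨[(nat_lit 40), (nat_lit 60), (nat_lit 80)], [(nat_lit 0), (nat_lit 1539), (nat_lit 2453)], [((nat_lit 0), (nat_lit 0), (nat_lit 0)), ((nat_lit 1000), (nat_lit 478), (nat_lit 704)), ((nat_lit 1000), (nat_lit 474), (nat_lit 714))], ((nat_lit 45), (nat_lit 100), (nat_lit 78))⟩, (nat_lit 0), (nat_lit 164), (nat_lit 164), (nat_lit 0), (nat_lit 212166), [(nat_lit 1599159654), (nat_lit 1589657248), (nat_lit 2156232000)], [(nat_lit 0), (nat_lit 0), (nat_lit 0)], [(nat_lit 24089043738), (nat_lit 25418228952), (nat_lit 28613663301), (nat_lit 29924011736), (nat_lit 24508813886), (nat_lit 25612200102), (nat_lit 28437231496), (nat_lit 29643171468)], (nat_lit 1271251), (nat_lit 1271251), (nat_lit 1271251), (nat_lit 1271251), (nat_lit 559688), (nat_lit 1100000), [(nat_lit 490000), (nat_lit 780000), (nat_lit 1100000)], [(nat_lit 2), (nat_lit 44), (nat_lit 249), (nat_lit 40), (nat_lit 10)]⟩,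
 ⟨⟨[(nat_lit 80), (nat_lit 140), (nat_lit 180)], [(nat_lit 0), (nat_lit 0), (nat_lit 3656)], [((nat_lit 0), (nat_lit 0), (nat_lit 0)), ((nat_lit 0), (nat_lit 0), (nat_lit 0)), ((nat_lit 637), (nat_lit 1000), (nat_lit 908))], ((nat_lit 100), (nat_lit 81), (nat_lit 77))⟩, (nat_lit 640249), (nat_lit 489), (nat_lit 489), (nat_lit 0), (nat_lit 426170), [(nat_lit 1486096000), (nat_lit 3119914000), (nat_lit 4456386000)], [], [(nat_lit 12413630040), (nat_lit 12529231722), (nat_lit 13352195617), (nat_lit 13460120221), (nat_lit 10178331986), (nat_lit 10330737850), (nat_lit 11037218846), (nat_lit 11126131744)], (nat_lit 1271251), (nat_lit 1271251), (nat_lit 1271251), (nat_lit 1271251), (nat_lit 0), (nat_lit 780000), [(nat_lit 1100000), (nat_lit 2127501), (nat_lit 1271251)], [(nat_lit 19), (nat_lit 63), (nat_lit 428), (nat_lit 200), (nat_lit 10)]⟩,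
 Rw.none⟩)) (.leaf ⟨(nat_lit 0), (nat_lit 1000), (nat_lit 0), (nat_lit 0), (nat_lit 0), (nat_lit 4466), (nat_lit 7212), (nat_lit 0), (nat_lit 0), (nat_lit 0), (nat_lit 0), [], Pd.none, Pd.none, (nat_lit 0), (nat_lit 1), (nat_lit 0), (nat_lit 0), (nat_lit 4), (nat_lit 0), [], [⟨(nat_lit 0), (nat_lit 100), (nat_lit 31), (nat_lit 95), (nat_lit 511644090)⟩], [⟨(nat_lit 0), (nat_lit 100), (nat_lit 97), (nat_lit 25), (nat_lit 50171635)⟩], [],
 ⟨⟨[(nat_lit 40), (nat_lit 80), (nat_lit 100)], [(nat_lit 0), (nat_lit 2514), (nat_lit 3562)], [((nat_lit 0), (nat_lit 0), (nat_lit 0)), ((nat_lit 1000), (nat_lit 446), (nat_lit 804)), ((nat_lit 1000), (nat_lit 443), (nat_lit 819))], ((nat_lit 44), (nat_lit 100), (nat_lit 84))⟩, (nat_lit 1124830), (nat_lit 160), (nat_lit 160), (nat_lit 0), (nat_lit 148165), [(nat_lit 2032000002), (nat_lit 4695713994), (nat_lit 6250000000)], [], [(nat_lit 24745537920), (nat_lit 26332177165), (nat_lit 29743611115), (nat_lit 31168667935),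 (nat_lit 24789764154), (nat_lit 26121526200), (nat_lit 29283131085), (nat_lit 30590576212)], (nat_lit 1271251), (nat_lit 1271251), (nat_lit 1271251), (nat_lit 1271251), (nat_lit 559688), (nat_lit 1100000), [(nat_lit 490000), (nat_lit 1100000), (nat_lit 1442501)], [(nat_lit 3), (nat_lit 50), (nat_lit 249), (nat_lit 40), (nat_lit 8)]⟩,
 ⟨⟨[(nat_lit 80), (nat_lit 140), (nat_lit 180)], [(nat_lit 0), (nat_lit 0), (nat_lit 3656)], [((nat_lit 0), (nat_lit 0), (nat_lit 0)), ((nat_lit 0), (nat_lit 0), (nat_lit 0)), ((nat_lit 637), (nat_lit 1000), (nat_lit 908))], ((nat_lit 100), (nat_lit 73), (nat_lit 85))⟩, (nat_lit 2260432), (nat_lit 435), (nat_lit 435), (nat_lit 0), (nat_lit 293167), [(nat_lit 4688000000), (nat_lit 9842000000), (nat_lit 14058000000)], [], [(nat_lit 38824226080), (nat_lit 39466346360), (nat_lit 42965669580), (nat_lit 43582770694), (nat_lit 34539607040), (nat_lit 35172770344), (nat_lit 38135387768), (nat_lit 38685558405)], (nat_lit 1271251),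 (nat_lit 1271251), (nat_lit 1271251), (nat_lit 1271251), (nat_lit 0), (nat_lit 780000), [(nat_lit 1100000), (nat_lit 2127501), (nat_lit 1271251)], [(nat_lit 19), (nat_lit 63), (nat_lit 428), (nat_lit 200), (nat_lit 10)]⟩,
 Rw.none⟩))) (.leaf ⟨(nat_lit 22), (nat_lit 978), (nat_lit 0), (nat_lit 0), (nat_lit 0), (nat_lit 4441), (nat_lit 7525), (nat_lit 0), (nat_lit 0), (nat_lit 0), (nat_lit 88000), [((nat_lit 400), [((nat_lit 43), (nat_lit 5), (nat_lit 22))])], ⟨(nat_lit 6), false, true, true, (nat_lit 287), (nat_lit 0), (nat_lit 2237), [(nat_lit 1624400), (nat_lit 1624062), (nat_lit 1646249), (nat_lit 1648136), (nat_lit 1796379), (nat_lit 1774994), (nat_lit 1819154), (nat_lit 1799995)]⟩, ⟨(nat_lit 4), false, false, false, (nat_lit 158), (nat_lit 0), (nat_lit 2237), [(nat_lit 1316293), (nat_lit 1333360), (nat_lit 1359989), (nat_lit 1381507), (nat_lit 1419294), (nat_lit 1424084), (nat_lit 1462989), (nat_lit 1472231)]⟩, (nat_lit 5019887), (nat_lit 38374578),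 (nat_lit 20638176), (nat_lit 7987246), (nat_lit 4), (nat_lit 0), [], [⟨(nat_lit 0), (nat_lit 100), (nat_lit 31), (nat_lit 95), (nat_lit 383012551)⟩], [⟨(nat_lit 0), (nat_lit 100), (nat_lit 94), (nat_lit 35), (nat_lit 64660172)⟩], [],
 ⟨⟨[(nat_lit 40), (nat_lit 80), (nat_lit 100)], [(nat_lit 0), (nat_lit 2514), (nat_lit 3562)], [((nat_lit 0), (nat_lit 0), (nat_lit 0)), ((nat_lit 1000), (nat_lit 446), (nat_lit 804)), ((nat_lit 1000), (nat_lit 443), (nat_lit 819))], ((nat_lit 44), (nat_lit 100), (nat_lit 84))⟩, (nat_lit 846132), (nat_lit 228), (nat_lit 228), (nat_lit 0), (nat_lit 327231), [(nat_lit 1823484001), (nat_lit 3969858402), (nat_lit 5224571200)], [(nat_lit 0), (nat_lit 0), (nat_lit 0)], [(nat_lit 24716721565), (nat_lit 26297445853), (nat_lit 30959041583), (nat_lit 32297624090), (nat_lit 24769019078), (nat_lit 26096387676), (nat_lit 30410050392), (nat_lit 31640679040)], (nat_lit 1271251), (nat_lit 1271251), (nat_lit 1271251), (nat_lit 1271251),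 (nat_lit 559688), (nat_lit 1100000), [(nat_lit 490000), (nat_lit 1100000), (nat_lit 1442501)], [(nat_lit 3), (nat_lit 50), (nat_lit 249), (nat_lit 40), (nat_lit 8)]⟩,
 ⟨⟨[(nat_lit 80), (nat_lit 140), (nat_lit 180)], [(nat_lit 0), (nat_lit 792), (nat_lit 4228)], [((nat_lit 0), (nat_lit 0), (nat_lit 0)), ((nat_lit 1000), (nat_lit 959), (nat_lit 206)), ((nat_lit 709), (nat_lit 1000), (nat_lit 949))], ((nat_lit 100), (nat_lit 82), (nat_lit 87))⟩, (nat_lit 6257898), (nat_lit 581), (nat_lit 581), (nat_lit 0), (nat_lit 565952), [(nat_lit 4584864000), (nat_lit 9625476000), (nat_lit 13748724000)], [], [(nat_lit 29383043034), (nat_lit 29903443040), (nat_lit 33631034242), (nat_lit 34650230606), (nat_lit 24875509567), (nat_lit 25329374858), (nat_lit 28168149598), (nat_lit 28665680204)], (nat_lit 1271251), (nat_lit 1271251), (nat_lit 1271251), (nat_lit 1271251), (nat_lit 0), (nat_lit 780000), [(nat_lit 1100000), (nat_lit 2127501), (nat_lit 1271251)], [(nat_lit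 19), (nat_lit 63), (nat_lit 428), (nat_lit 200), (nat_lit 10)]⟩,
 Rw.none⟩)) (.stt (nat_lit 3) (.leaf ⟨(nat_lit 0), (nat_lit 0), (nat_lit 0), (nat_lit 1000), (nat_lit 0), (nat_lit 4643), (nat_lit 10508), (nat_lit 18133), (nat_lit 0), (nat_lit 0), (nat_lit 0), [], Pd.none, Pd.none, (nat_lit 0), (nat_lit 1), (nat_lit 0), (nat_lit 0), (nat_lit 0), (nat_lit 0), [], [⟨(nat_lit 0), (nat_lit 100), (nat_lit 31), (nat_lit 95), (nat_lit 2982155256)⟩], [], [],
 ⟨⟨[(nat_lit 40), (nat_lit 80), (nat_lit 100)], [(nat_lit 0), (nat_lit 2514), (nat_lit 3562)], [((nat_lit 0), (nat_lit 0), (nat_lit 0)), ((nat_lit 1000), (nat_lit 446), (nat_lit 804)), ((nat_lit 1000), (nat_lit 443), (nat_lit 819))], ((nat_lit 44), (nat_lit 100), (nat_lit 84))⟩, (nat_lit 1108398), (nat_lit 228), (nat_lit 228), (nat_lit 0), (nat_lit 327430), [(nat_lit 2032000004), (nat_lit 4688000007), (nat_lit 6250000000)], [], [(nat_lit 24776526309), (nat_lit 26578074858), (nat_lit 31316537648), (nat_lit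 32685690178), (nat_lit 24766499521), (nat_lit 26301128100), (nat_lit 30681443755), (nat_lit 31939121920)], (nat_lit 1271251), (nat_lit 1271251), (nat_lit 1271251), (nat_lit 1271251), (nat_lit 559688), (nat_lit 1100000), [(nat_lit 490000), (nat_lit 1100000), (nat_lit 1442501)], [(nat_lit 3), (nat_lit 50), (nat_lit 249), (nat_lit 40), (nat_lit 8)]⟩,
 ⟨⟨[(nat_lit 80), (nat_lit 140), (nat_lit 180)], [(nat_lit 0), (nat_lit 0), (nat_lit 3656)], [((nat_lit 0), (nat_lit 0), (nat_lit 0)), ((nat_lit 0), (nat_lit 0), (nat_lit 0)), ((nat_lit 637), (nat_lit 1000), (nat_lit 908))], ((nat_lit 100), (nat_lit 73), (nat_lit 85))⟩, (nat_lit 1952322), (nat_lit 578), (nat_lit 578), (nat_lit 0), (nat_lit 768684), [(nat_lit 4688000000), (nat_lit 9842000000), (nat_lit 14058000000)], [], [(nat_lit 32161877200), (nat_lit 33123206536), (nat_lit 35655925472), (nat_lit 36132656876), (nat_lit 34867699742), (nat_lit 34977674209), (nat_lit 39463782211), (nat_lit 40662125548)],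 (nat_lit 1271251), (nat_lit 1271251), (nat_lit 1271251), (nat_lit 1271251), (nat_lit 780000), (nat_lit 2990626), [(nat_lit 1100000), (nat_lit 2127501), (nat_lit 1271251)], [(nat_lit 19), (nat_lit 63), (nat_lit 538), (nat_lit 300), (nat_lit 12)]⟩,
 ⟨⟨[(nat_lit 120), (nat_lit 160), (nat_lit 200)], [(nat_lit 0), (nat_lit 533), (nat_lit 3597)], [((nat_lit 0), (nat_lit 0), (nat_lit 0)), ((nat_lit 960), (nat_lit 1000), (nat_lit 200)), ((nat_lit 612), (nat_lit 1000), (nat_lit 732))], ((nat_lit 0), (nat_lit 0), (nat_lit 0))⟩, (nat_lit 7482122), (nat_lit 266), (nat_lit 266), (nat_lit 0), (nat_lit 0), [(nat_lit 7968000000), (nat_lit 11872000000), (nat_lit 16400000000)], [], [(nat_lit 15042467854), (nat_lit 16050718830), (nat_lit 10852790248), (nat_lit 13251068834), (nat_lit 40933647496), (nat_lit 42159188924), (nat_lit 36140788721), (nat_lit 37188915300)], (nat_lit 0), (nat_lit 0), (nat_lit 0), (nat_lit 0), (nat_lit 0), (nat_lit 0), [], [(nat_lit 29), (nat_lit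 66), (nat_lit 428), (nat_lit 200), (nat_lit 9)]⟩⟩) (.spl (nat_lit 0) (nat_lit 390) (.leaf ⟨(nat_lit 184), (nat_lit 515), (nat_lit 0), (nat_lit 301), (nat_lit 0), (nat_lit 3774), (nat_lit 7849), (nat_lit 2548), (nat_lit 0), (nat_lit 0), (nat_lit 110400), [((nat_lit 390), [((nat_lit 43), (nat_lit 2), (nat_lit 184))])], ⟨(nat_lit 6), false, true, true, (nat_lit 283), (nat_lit 1581), (nat_lit 2237), [(nat_lit 1602558), (nat_lit 1601260), (nat_lit 1648016), (nat_lit 1647799), (nat_lit 1773609), (nat_lit 1765172), (nat_lit 1819158), (nat_lit 1811802)]⟩, ⟨(nat_lit 4), false, false, false, (nat_lit 158), (nat_lit 1581), (nat_lit 2237), [(nat_lit 1320243), (nat_lit 1326247), (nat_lit 1365701), (nat_lit 1372786), (nat_lit 1420170), (nat_lit 1422009), (nat_lit 1465627), (nat_lit 1468548)]⟩, (nat_lit 5006574), (nat_lit 38648177), (nat_lit 20358660), (nat_lit 7993163), (nat_lit 4), (nat_lit 0), [], [⟨(nat_lit 0), (nat_lit 100), (nat_lit 38), (nat_lit 92), (nat_lit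 4609359)⟩], [], [],
 ⟨⟨[(nat_lit 40), (nat_lit 80), (nat_lit 100)], [(nat_lit 0), (nat_lit 2514), (nat_lit 3562)], [((nat_lit 0), (nat_lit 0), (nat_lit 0)), ((nat_lit 1000), (nat_lit 446), (nat_lit 804)), ((nat_lit 1000), (nat_lit 443), (nat_lit 819))], ((nat_lit 44), (nat_lit 100), (nat_lit 84))⟩, (nat_lit 1018959), (nat_lit 179), (nat_lit 179), (nat_lit 0), (nat_lit 212366), [(nat_lit 1723296026), (nat_lit 3682808298), (nat_lit 4702265600)], [(nat_lit 0), (nat_lit 0), (nat_lit 0)], [(nat_lit 23939459763), (nat_lit 24532964889), (nat_lit 29778596655), (nat_lit 30397417103), (nat_lit 24313330288), (nat_lit 24856623543), (nat_lit 29513914881), (nat_lit 30084570721)], (nat_lit 1271251), (nat_lit 1271251), (nat_lit 1271251), (nat_lit 1271251), (nat_lit 559688), (nat_lit 1100000), [(nat_lit 490000), (nat_lit 1100000), (nat_lit 1442501)], [(nat_lit 3), (nat_lit 50), (nat_lit 249), (nat_lit 40), (nat_lit 8)]⟩,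
 ⟨⟨[(nat_lit 80), (nat_lit 140), (nat_lit 180)], [(nat_lit 0), (nat_lit 0), (nat_lit 3656)], [((nat_lit 0), (nat_lit 0), (nat_lit 0)), ((nat_lit 0), (nat_lit 0), (nat_lit 0)), ((nat_lit 637), (nat_lit 1000), (nat_lit 908))], ((nat_lit 100), (nat_lit 73), (nat_lit 85))⟩, (nat_lit 1602347), (nat_lit 408), (nat_lit 408), (nat_lit 0), (nat_lit 453176), [(nat_lit 3825408000), (nat_lit 8031072000), (nat_lit 11471328000)], [], [(nat_lit 25586974038), (nat_lit 26586777010), (nat_lit 29120786010), (nat_lit 29825047055), (nat_lit 29184637319), (nat_lit 29667804982), (nat_lit 31310084391), (nat_lit 32272427839)], (nat_lit 1271251), (nat_lit 1271251), (nat_lit 1271251), (nat_lit 1271251), (nat_lit 780000), (nat_lit 2990626), [(nat_lit 1100000), (nat_lit 2127501), (nat_lit 1271251)], [(nat_lit 19), (nat_lit 63), (nat_lit 538), (nat_lit 300), (nat_lit 12)]⟩,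
 ⟨⟨[(nat_lit 120), (nat_lit 160), (nat_lit 200)], [(nat_lit 0), (nat_lit 533), (nat_lit 3597)], [((nat_lit 0), (nat_lit 0), (nat_lit 0)), ((nat_lit 960), (nat_lit 1000), (nat_lit 200)), ((nat_lit 612), (nat_lit 1000), (nat_lit 732))], ((nat_lit 0), (nat_lit 0), (nat_lit 0))⟩, (nat_lit 704780), (nat_lit 300), (nat_lit 1046), (nat_lit 19986402), (nat_lit 1395309), [(nat_lit 2398368000), (nat_lit 3573472000), (nat_lit 4936400000)], [], [(nat_lit 21348329429), (nat_lit 21063911438), (nat_lit 20625067537), (nat_lit 20341082033), (nat_lit 19819384517), (nat_lit 19511651582), (nat_lit 21531023294), (nat_lit 19260117657)], (nat_lit 1271251), (nat_lit 1271251), (nat_lit 559688), (nat_lit 1100000), (nat_lit 780000), (nat_lit 2990626), [(nat_lit 1695001), (nat_lit 1271251), (nat_lit 1271251)], [(nat_lit 29), (nat_lit 66), (nat_lit 428), (nat_lit 200), (nat_lit 9)]⟩⟩) (.trX (nat_lit 3) (nat_lit 0) (nat_lit 1) (nat_lit 34) (nat_lit 81) (nat_lit 100) (nat_lit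 340) (.trZ (nat_lit 0) (nat_lit 2) (nat_lit 4) (nat_lit 100) (nat_lit 31) (nat_lit 92) (nat_lit 110) (.leaf ⟨(nat_lit 718), (nat_lit 179), (nat_lit 0), (nat_lit 103), (nat_lit 0), (nat_lit 3339), (nat_lit 2669), (nat_lit 842), (nat_lit 0), (nat_lit 0), (nat_lit 260650), [((nat_lit 400), [((nat_lit 29), (nat_lit 0), (nat_lit 177)), ((nat_lit 29), (nat_lit 1), (nat_lit 541))])], ⟨(nat_lit 6), false, true, true, (nat_lit 276), (nat_lit 0), (nat_lit 1582), [(nat_lit 1601257), (nat_lit 1599992), (nat_lit 1646579), (nat_lit 1648683), (nat_lit 1737850), (nat_lit 1724995), (nat_lit 1784482), (nat_lit 1774996)]⟩, ⟨(nat_lit 4), false, false, false, (nat_lit 165), (nat_lit 0), (nat_lit 1582), [(nat_lit 1351461), (nat_lit 1360206), (nat_lit 1396777), (nat_lit 1408893), (nat_lit 1421394), (nat_lit 1424345), (nat_lit 1466711), (nat_lit 1473031)]⟩, (nat_lit 5043609), (nat_lit 38869010), (nat_lit 19541467), (nat_lit 8589523), (nat_lit 4), (nat_lit 0), [⟨(nat_lit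 1), (nat_lit 91), (nat_lit 23), (nat_lit 100), (nat_lit 264565190)⟩], [⟨(nat_lit 0), (nat_lit 100), (nat_lit 22), (nat_lit 98), (nat_lit 280696378)⟩], [], [],
 ⟨⟨[(nat_lit 40), (nat_lit 60), (nat_lit 80)], [(nat_lit 0), (nat_lit 2136), (nat_lit 3185)], [((nat_lit 0), (nat_lit 0), (nat_lit 0)), ((nat_lit 1000), (nat_lit 343), (nat_lit 808)), ((nat_lit 1000), (nat_lit 338), (nat_lit 820))], ((nat_lit 32), (nat_lit 100), (nat_lit 86))⟩, (nat_lit 372), (nat_lit 168), (nat_lit 168), (nat_lit 0), (nat_lit 252211), [(nat_lit 1539391203), (nat_lit 1320828809), (nat_lit 1672540400)], [(nat_lit 0), (nat_lit 0), (nat_lit 0)], [(nat_lit 24843733293), (nat_lit 25425148955), (nat_lit 28509361565), (nat_lit 29114752387), (nat_lit 25201524696), (nat_lit 25747801322), (nat_lit 28600779230), (nat_lit 29047620798)], (nat_lit 1271251), (nat_lit 1271251), (nat_lit 1271251), (nat_lit 1271251), (nat_lit 704688), (nat_lit 1100000), [(nat_lit 490000), (nat_lit 780000),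 (nat_lit 1100000)], [(nat_lit 2), (nat_lit 44), (nat_lit 249), (nat_lit 40), (nat_lit 9)]⟩,
 ⟨⟨[(nat_lit 80), (nat_lit 140), (nat_lit 180)], [(nat_lit 0), (nat_lit 0), (nat_lit 3656)], [((nat_lit 0), (nat_lit 0), (nat_lit 0)), ((nat_lit 0), (nat_lit 0), (nat_lit 0)), ((nat_lit 637), (nat_lit 1000), (nat_lit 908))], ((nat_lit 100), (nat_lit 73), (nat_lit 85))⟩, (nat_lit 556543), (nat_lit 470), (nat_lit 470), (nat_lit 0), (nat_lit 600947), [(nat_lit 1322016000), (nat_lit 2775444000), (nat_lit 3964356000)], [], [(nat_lit 8899830990), (nat_lit 9243925178), (nat_lit 9851022074), (nat_lit 10069885995), (nat_lit 10164224315), (nat_lit 10332168130), (nat_lit 10665059758), (nat_lit 10744909561)], (nat_lit 1271251), (nat_lit 1271251), (nat_lit 1271251), (nat_lit 1271251), (nat_lit 780000), (nat_lit 2990626), [(nat_lit 1100000), (nat_lit 2127501), (nat_lit 1271251)], [(nat_lit 19), (nat_lit 63), (nat_lit 538), (nat_lit 300), (nat_lit 12)]⟩,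
 ⟨⟨[(nat_lit 120), (nat_lit 160), (nat_lit 200)], [(nat_lit 0), (nat_lit 533), (nat_lit 3597)], [((nat_lit 0), (nat_lit 0), (nat_lit 0)), ((nat_lit 960), (nat_lit 1000), (nat_lit 200)), ((nat_lit 612), (nat_lit 1000), (nat_lit 732))], ((nat_lit 0), (nat_lit 0), (nat_lit 0))⟩, (nat_lit 241171), (nat_lit 300), (nat_lit 1201), (nat_lit 6839200), (nat_lit 1751519), [(nat_lit 820704000), (nat_lit 1222816000), (nat_lit 1689200000)], [], [(nat_lit 7710434055), (nat_lit 7612531974), (nat_lit 7542784184), (nat_lit 7445170090), (nat_lit 7162360882), (nat_lit 7059639968), (nat_lit 7288238487), (nat_lit 6891746444)], (nat_lit 1271251), (nat_lit 1271251), (nat_lit 704688), (nat_lit 1100000), (nat_lit 780000), (nat_lit 2990626), [(nat_lit 1695001), (nat_lit 1271251), (nat_lit 1271251)], [(nat_lit 29), (nat_lit 66), (nat_lit 428), (nat_lit 200), (nat_lit 9)]⟩⟩)))))))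
noncomputable def c14_54 : Tr Lf :=
 (.spl (nat_lit 5) (nat_lit 200) (.leaf ⟨(nat_lit 22), (nat_lit 978), (nat_lit 0), (nat_lit 0), (nat_lit 0), (nat_lit 5694), (nat_lit 6957), (nat_lit 0), (nat_lit 0), (nat_lit 0), (nat_lit 88000), [((nat_lit 400), [((nat_lit 43), (nat_lit 5), (nat_lit 22))])], ⟨(nat_lit 7), true, false, false, (nat_lit 292), (nat_lit 0), (nat_lit 2237), [(nat_lit 1572676), (nat_lit 1583333), (nat_lit 1616372), (nat_lit 1631480), (nat_lit 1847661), (nat_lit 1824994), (nat_lit 1893212), (nat_lit 1874997)]⟩, ⟨(nat_lit 3), false, false, false, (nat_lit 131), (nat_lit 0), (nat_lit 2237), [(nat_lit 1177178), (nat_lit 1196337), (nat_lit 1286416), (nat_lit 1316704), (nat_lit 1351885), (nat_lit 1349998), (nat_lit 1462989), (nat_lit 1472231)]⟩, (nat_lit 4772568), (nat_lit 39281680), (nat_lit 21694815), (nat_lit 6023505), (nat_lit 3), (nat_lit 0), [⟨(nat_lit 0), (nat_lit 88), (nat_lit 32), (nat_lit 100), (nat_lit 232151747)⟩], [⟨(nat_lit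 0), (nat_lit 100), (nat_lit 32), (nat_lit 90), (nat_lit 131054190)⟩], [], [],
 ⟨⟨[(nat_lit 40), (nat_lit 80), (nat_lit 100)], [(nat_lit 0), (nat_lit 2514), (nat_lit 3562)], [((nat_lit 0), (nat_lit 0), (nat_lit 0)), ((nat_lit 1000), (nat_lit 446), (nat_lit 804)), ((nat_lit 1000), (nat_lit 443), (nat_lit 819))], ((nat_lit 44), (nat_lit 100), (nat_lit 84))⟩, (nat_lit 186935), (nat_lit 300), (nat_lit 344), (nat_lit 45587101), (nat_lit 571866), [(nat_lit 1823484001), (nat_lit 4057569397), (nat_lit 5224571200)], [(nat_lit 0), (nat_lit 0), (nat_lit 0)], [(nat_lit 31442379007), (nat_lit 32529628811), (nat_lit 37325297495), (nat_lit 38798221463), (nat_lit 29842697735), (nat_lit 30788504708), (nat_lit 34089692129), (nat_lit 34712608670)], (nat_lit 1271251), (nat_lit 1271251), (nat_lit 1271251), (nat_lit 1271251), (nat_lit 230000), (nat_lit 1100000), [(nat_lit 490000), (nat_lit 1100000), (nat_lit 1442501)], [(nat_lit 3), (nat_lit 50), (nat_lit 373), (nat_lit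 150), (nat_lit 13)]⟩,
 ⟨⟨[(nat_lit 60), (nat_lit 120), (nat_lit 160)], [(nat_lit 0), (nat_lit 0), (nat_lit 3243)], [((nat_lit 0), (nat_lit 0), (nat_lit 0)), ((nat_lit 0), (nat_lit 0), (nat_lit 0)), ((nat_lit 878), (nat_lit 1000), (nat_lit 945))], ((nat_lit 100), (nat_lit 92), (nat_lit 90))⟩, (nat_lit 2418556), (nat_lit 247), (nat_lit 247), (nat_lit 0), (nat_lit 0), [(nat_lit 3209796000), (nat_lit 7792704000), (nat_lit 11610816000)], [], [(nat_lit 26855988779), (nat_lit 29494574150), (nat_lit 37328344104), (nat_lit 39150667236), (nat_lit 22568535497), (nat_lit 24612568437), (nat_lit 31612674153), (nat_lit 33038022996)], (nat_lit 0), (nat_lit 0), (nat_lit 0), (nat_lit 0), (nat_lit 0), (nat_lit 0), [], [(nat_lit 12), (nat_lit 59), (nat_lit 456), (nat_lit 225), (nat_lit 11)]⟩,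
 Rw.none⟩) (.spl (nat_lit 2) (nat_lit 180) (.trX (nat_lit 5) (nat_lit 1) (nat_lit 2) (nat_lit 92) (nat_lit 49) (nat_lit 100) (nat_lit 380) (.spl (nat_lit 0) (nat_lit 390) (.leaf ⟨(nat_lit 22), (nat_lit 978), (nat_lit 0), (nat_lit 0), (nat_lit 0), (nat_lit 6083), (nat_lit 8499), (nat_lit 0), (nat_lit 0), (nat_lit 0), (nat_lit 88000), [((nat_lit 390), [((nat_lit 43), (nat_lit 5), (nat_lit 22))])], ⟨(nat_lit 7), true, false, false, (nat_lit 293), (nat_lit 1581), (nat_lit 2237), [(nat_lit 1576639), (nat_lit 1579397), (nat_lit 1622097), (nat_lit 1625936), (nat_lit 1847666), (nat_lit 1839120), (nat_lit 1893214), (nat_lit 1885750)]⟩, ⟨(nat_lit 3), false, false, false, (nat_lit 121), (nat_lit 1581), (nat_lit 2237), [(nat_lit 1180680), (nat_lit 1188036), (nat_lit 1248867), (nat_lit 1257845), (nat_lit 1351886), (nat_lit 1352103), (nat_lit 1420170), (nat_lit 1422009)]⟩, (nat_lit 4676614), (nat_lit 39620929), (nat_lit 21991668), (nat_lit 5387403), (nat_lit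 5), (nat_lit 0), [⟨(nat_lit 0), (nat_lit 84), (nat_lit 33), (nat_lit 100), (nat_lit 147230188)⟩], [], [⟨(nat_lit 1), (nat_lit 49), (nat_lit 92), (nat_lit 100), (nat_lit 467823920)⟩], [],
 ⟨⟨[(nat_lit 40), (nat_lit 80), (nat_lit 100)], [(nat_lit 0), (nat_lit 2514), (nat_lit 3562)], [((nat_lit 0), (nat_lit 0), (nat_lit 0)), ((nat_lit 1000), (nat_lit 446), (nat_lit 804)), ((nat_lit 1000), (nat_lit 443), (nat_lit 819))], ((nat_lit 44), (nat_lit 100), (nat_lit 84))⟩, (nat_lit 186935), (nat_lit 300), (nat_lit 328), (nat_lit 45587101), (nat_lit 527536), [(nat_lit 1823484012), (nat_lit 4074556898), (nat_lit 5224571200)], [(nat_lit 0), (nat_lit 0), (nat_lit 0)], [(nat_lit 30390251053), (nat_lit 30972502087), (nat_lit 38299805270), (nat_lit 39063925762), (nat_lit 28523058233), (nat_lit 29028328861), (nat_lit 33972509175), (nat_lit 34650699205)], (nat_lit 1271251), (nat_lit 1271251), (nat_lit 1271251), (nat_lit 1271251), (nat_lit 230000), (nat_lit 1100000),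 [(nat_lit 490000), (nat_lit 1100000), (nat_lit 1442501)], [(nat_lit 3), (nat_lit 50), (nat_lit 373), (nat_lit 150), (nat_lit 13)]⟩,
 ⟨⟨[(nat_lit 60), (nat_lit 120), (nat_lit 160)], [(nat_lit 0), (nat_lit 0), (nat_lit 3243)], [((nat_lit 0), (nat_lit 0), (nat_lit 0)), ((nat_lit 0), (nat_lit 0), (nat_lit 0)), ((nat_lit 878), (nat_lit 1000), (nat_lit 945))], ((nat_lit 100), (nat_lit 92), (nat_lit 90))⟩, (nat_lit 0), (nat_lit 99), (nat_lit 99), (nat_lit 0), (nat_lit 0), [(nat_lit 3209796000), (nat_lit 7792704000), (nat_lit 11610816000)], [], [(nat_lit 20247121077), (nat_lit 23181428862), (nat_lit 30937707600), (nat_lit 32463264084), (nat_lit 30857652725), (nat_lit 32422370067), (nat_lit 38124059870), (nat_lit 39194720932)], (nat_lit 0), (nat_lit 0), (nat_lit 0), (nat_lit 0), (nat_lit 0), (nat_lit 0), [], [(nat_lit 12), (nat_lit 59), (nat_lit 538), (nat_lit 300), (nat_lit 13)]⟩,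
 Rw.none⟩) (.trZ (nat_lit 0) (nat_lit 1) (nat_lit 3) (nat_lit 92) (nat_lit 31) (nat_lit 100) (nat_lit 210) (.trX (nat_lit 3) (nat_lit 0) (nat_lit 1) (nat_lit 39) (nat_lit 72) (nat_lit 100) (nat_lit 370) (.trZ (nat_lit 0) (nat_lit 2) (nat_lit 4) (nat_lit 100) (nat_lit 34) (nat_lit 81) (nat_lit 60) (.leaf ⟨(nat_lit 22), (nat_lit 978), (nat_lit 0), (nat_lit 0), (nat_lit 0), (nat_lit 4254), (nat_lit 7479), (nat_lit 0), (nat_lit 0), (nat_lit 0), (nat_lit 88000), [((nat_lit 400), [((nat_lit 43), (nat_lit 5), (nat_lit 22))])], ⟨(nat_lit 7), true, false, false, (nat_lit 295), (nat_lit 0), (nat_lit 1582), [(nat_lit 1604619), (nat_lit 1610200), (nat_lit 1649935), (nat_lit 1658886), (nat_lit 1825457), (nat_lit 1812495), (nat_lit 1872089), (nat_lit 1862497)]⟩, ⟨(nat_lit 3), false, false, false, (nat_lit 128), (nat_lit 0), (nat_lit 1582), [(nat_lit 1213552), (nat_lit 1223038), (nat_lit 1281527), (nat_lit 1296068), (nat_lit 1352101), (nat_lit 1349997), (nat_lit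 1421394), (nat_lit 1424345)]⟩, (nat_lit 4753556), (nat_lit 39185963), (nat_lit 21982212), (nat_lit 5831825), (nat_lit 5), (nat_lit 0), [⟨(nat_lit 0), (nat_lit 91), (nat_lit 23), (nat_lit 100), (nat_lit 215055143)⟩], [], [⟨(nat_lit 1), (nat_lit 49), (nat_lit 92), (nat_lit 100), (nat_lit 431514851)⟩], [],
 ⟨⟨[(nat_lit 40), (nat_lit 60), (nat_lit 80)], [(nat_lit 0), (nat_lit 2136), (nat_lit 3185)], [((nat_lit 0), (nat_lit 0), (nat_lit 0)), ((nat_lit 1000), (nat_lit 343), (nat_lit 808)), ((nat_lit 1000), (nat_lit 338), (nat_lit 820))], ((nat_lit 32), (nat_lit 100), (nat_lit 86))⟩, (nat_lit 795204), (nat_lit 288), (nat_lit 288), (nat_lit 0), (nat_lit 564840), [(nat_lit 1823484002), (nat_lit 3163293831), (nat_lit 3969858400)], [(nat_lit 0), (nat_lit 0), (nat_lit 0)], [(nat_lit 25150122767), (nat_lit 26126141583), (nat_lit 32849318739), (nat_lit 33498091725), (nat_lit 24639213058), (nat_lit 25167182992), (nat_lit 31311327450), (nat_lit 31896431226)],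 (nat_lit 1271251), (nat_lit 1271251), (nat_lit 1271251), (nat_lit 1271251), (nat_lit 356250), (nat_lit 1100000), [(nat_lit 490000), (nat_lit 780000), (nat_lit 1100000)], [(nat_lit 2), (nat_lit 44), (nat_lit 249), (nat_lit 40), (nat_lit 10)]⟩,
 ⟨⟨[(nat_lit 60), (nat_lit 120), (nat_lit 160)], [(nat_lit 0), (nat_lit 0), (nat_lit 3243)], [((nat_lit 0), (nat_lit 0), (nat_lit 0)), ((nat_lit 0), (nat_lit 0), (nat_lit 0)), ((nat_lit 878), (nat_lit 1000), (nat_lit 945))], ((nat_lit 100), (nat_lit 92), (nat_lit 90))⟩, (nat_lit 0), (nat_lit 97), (nat_lit 97), (nat_lit 0), (nat_lit 0), [(nat_lit 3209796000), (nat_lit 7792704000), (nat_lit 11610816000)], [], [(nat_lit 21996861212), (nat_lit 24597982642), (nat_lit 30693942444), (nat_lit 32222937498), (nat_lit 31480099406), (nat_lit 32904097297), (nat_lit 36223994224), (nat_lit 37340563542)], (nat_lit 0), (nat_lit 0), (nat_lit 0), (nat_lit 0), (nat_lit 0), (nat_lit 0), [], [(nat_lit 12), (nat_lit 59), (nat_lit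 538), (nat_lit 300), (nat_lit 13)]⟩,
 Rw.none⟩)))))) (.trZ (nat_lit 0) (nat_lit 2) (nat_lit 4) (nat_lit 100) (nat_lit 44) (nat_lit 86) (nat_lit 90) (.leaf ⟨(nat_lit 7), (nat_lit 872), (nat_lit 0), (nat_lit 121), (nat_lit 0), (nat_lit 4568), (nat_lit 7174), (nat_lit 1213), (nat_lit 0), (nat_lit 0), (nat_lit 28000), [((nat_lit 400), [((nat_lit 43), (nat_lit 5), (nat_lit 7))])], ⟨(nat_lit 7), true, false, false, (nat_lit 292), (nat_lit 0), (nat_lit 2237), [(nat_lit 1572676), (nat_lit 1583333), (nat_lit 1616372), (nat_lit 1631480), (nat_lit 1847661), (nat_lit 1824994), (nat_lit 1893212), (nat_lit 1874997)]⟩, ⟨(nat_lit 4), false, false, false, (nat_lit 158), (nat_lit 0), (nat_lit 2237), [(nat_lit 1316293), (nat_lit 1333360), (nat_lit 1359989), (nat_lit 1381507), (nat_lit 1419294), (nat_lit 1424084), (nat_lit 1462989), (nat_lit 1472231)]⟩, (nat_lit 5035290), (nat_lit 37938231), (nat_lit 21137537), (nat_lit 7924232), (nat_lit 5), (nat_lit 0), [⟨(nat_lit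 0), (nat_lit 88), (nat_lit 32), (nat_lit 100), (nat_lit 240439293)⟩], [], [⟨(nat_lit 1), (nat_lit 50), (nat_lit 87), (nat_lit 100), (nat_lit 338832493)⟩], [],
 ⟨⟨[(nat_lit 40), (nat_lit 80), (nat_lit 100)], [(nat_lit 0), (nat_lit 2514), (nat_lit 3562)], [((nat_lit 0), (nat_lit 0), (nat_lit 0)), ((nat_lit 1000), (nat_lit 446), (nat_lit 804)), ((nat_lit 1000), (nat_lit 443), (nat_lit 819))], ((nat_lit 44), (nat_lit 100), (nat_lit 84))⟩, (nat_lit 1105695), (nat_lit 265), (nat_lit 265), (nat_lit 0), (nat_lit 442797), [(nat_lit 1965654012), (nat_lit 4459500452), (nat_lit 5923727200)], [(nat_lit 0), (nat_lit 0), (nat_lit 0)], [(nat_lit 23606831851), (nat_lit 25167032588), (nat_lit 32457443805), (nat_lit 33731083649), (nat_lit 23856971876), (nat_lit 24997513640), (nat_lit 31753542078), (nat_lit 32926405264)], (nat_lit 1271251), (nat_lit 1271251), (nat_lit 1271251), (nat_lit 1271251), (nat_lit 559688), (nat_lit 1100000), [(nat_lit 490000), (nat_lit 1100000),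 (nat_lit 1442501)], [(nat_lit 3), (nat_lit 50), (nat_lit 373), (nat_lit 150), (nat_lit 13)]⟩,
 ⟨⟨[(nat_lit 60), (nat_lit 120), (nat_lit 160)], [(nat_lit 0), (nat_lit 0), (nat_lit 3243)], [((nat_lit 0), (nat_lit 0), (nat_lit 0)), ((nat_lit 0), (nat_lit 0), (nat_lit 0)), ((nat_lit 878), (nat_lit 1000), (nat_lit 945))], ((nat_lit 100), (nat_lit 92), (nat_lit 90))⟩, (nat_lit 0), (nat_lit 103), (nat_lit 103), (nat_lit 0), (nat_lit 0), [(nat_lit 3259026000), (nat_lit 7912224000), (nat_lit 11788896000)], [], [(nat_lit 22150516235), (nat_lit 24828422090), (nat_lit 32049251512), (nat_lit 33503629274), (nat_lit 33327148751), (nat_lit 34678032533), (nat_lit 38186657399), (nat_lit 38935999607)], (nat_lit 0), (nat_lit 0), (nat_lit 0), (nat_lit 0), (nat_lit 0), (nat_lit 0), [], [(nat_lit 12), (nat_lit 59), (nat_lit 538), (nat_lit 300), (nat_lit 13)]⟩,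
 ⟨⟨[(nat_lit 120), (nat_lit 160), (nat_lit 200)], [(nat_lit 0), (nat_lit 533), (nat_lit 3597)], [((nat_lit 0), (nat_lit 0), (nat_lit 0)), ((nat_lit 960), (nat_lit 1000), (nat_lit 200)), ((nat_lit 612), (nat_lit 1000), (nat_lit 732))], ((nat_lit 0), (nat_lit 0), (nat_lit 0))⟩, (nat_lit 283317), (nat_lit 300), (nat_lit 1450), (nat_lit 8034401), (nat_lit 2367889), [(nat_lit 964128000), (nat_lit 1436512000), (nat_lit 1984400000)], [], [(nat_lit 7233124159), (nat_lit 7085057325), (nat_lit 6879660727), (nat_lit 6727496709), (nat_lit 6836990251), (nat_lit 6687206139), (nat_lit 6455974241), (nat_lit 6306852875)], (nat_lit 1271251), (nat_lit 1271251), (nat_lit 559688), (nat_lit 1100000), (nat_lit 1271251), (nat_lit 1271251), [(nat_lit 1695001), (nat_lit 1271251), (nat_lit 1271251)], [(nat_lit 29), (nat_lit 66), (nat_lit 460), (nat_lit 200), (nat_lit 10)]⟩⟩))))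
noncomputable def c14_55 : Tr Lf :=
 (.trX (nat_lit 5) (nat_lit 1) (nat_lit 2) (nat_lit 92) (nat_lit 49) (nat_lit 100) (nat_lit 380) (.spl (nat_lit 5) (nat_lit 200) (.spl (nat_lit 1) (nat_lit 300) (.spl (nat_lit 0) (nat_lit 390) (.leaf ⟨(nat_lit 821), (nat_lit 179), (nat_lit 0), (nat_lit 0), (nat_lit 0), (nat_lit 3613), (nat_lit 1743), (nat_lit 0), (nat_lit 0), (nat_lit 0), (nat_lit 328400), [((nat_lit 390), [((nat_lit 29), (nat_lit 1), (nat_lit 821))])], ⟨(nat_lit 7), false, true, false, (nat_lit 261), (nat_lit 1581), (nat_lit 2237), [(nat_lit 1576639), (nat_lit 1579397), (nat_lit 1599369), (nat_lit 1602667), (nat_lit 1705117), (nat_lit 1702521), (nat_lit 1727846), (nat_lit 1725790)]⟩, ⟨(nat_lit 3), false, false, false, (nat_lit 121), (nat_lit 1581), (nat_lit 2237), [(nat_lit 1180680), (nat_lit 1188036), (nat_lit 1248867), (nat_lit 1257845), (nat_lit 1351886), (nat_lit 1352103), (nat_lit 1420170), (nat_lit 1422009)]⟩, (nat_lit 4549833), (nat_lit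 42464032), (nat_lit 18912702), (nat_lit 5623266), (nat_lit 3), (nat_lit 0), [⟨(nat_lit 0), (nat_lit 88), (nat_lit 32), (nat_lit 100), (nat_lit 5281214)⟩], [⟨(nat_lit 0), (nat_lit 100), (nat_lit 31), (nat_lit 92), (nat_lit 72416944)⟩], [⟨(nat_lit 0), (nat_lit 100), (nat_lit 92), (nat_lit 22), (nat_lit 1261125)⟩], [],
 ⟨⟨[(nat_lit 40), (nat_lit 80), (nat_lit 100)], [(nat_lit 0), (nat_lit 2514), (nat_lit 3562)], [((nat_lit 0), (nat_lit 0), (nat_lit 0)), ((nat_lit 1000), (nat_lit 446), (nat_lit 804)), ((nat_lit 1000), (nat_lit 443), (nat_lit 819))], ((nat_lit 44), (nat_lit 100), (nat_lit 84))⟩, (nat_lit 6155), (nat_lit 226), (nat_lit 226), (nat_lit 0), (nat_lit 274898), [(nat_lit 1468614802), (nat_lit 1001381654), (nat_lit 1195924000)], [(nat_lit 0), (nat_lit 0), (nat_lit 0)], [(nat_lit 23546680511), (nat_lit 24260132996), (nat_lit 26688546584), (nat_lit 27463788015), (nat_lit 23539942018), (nat_lit 24032868259), (nat_lit 25780072707), (nat_lit 26244852540)],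 (nat_lit 1271251), (nat_lit 1271251), (nat_lit 1271251), (nat_lit 1271251), (nat_lit 230000), (nat_lit 1100000), [(nat_lit 490000), (nat_lit 1100000), (nat_lit 1442501)], [(nat_lit 3), (nat_lit 50), (nat_lit 345), (nat_lit 125), (nat_lit 12)]⟩,
 ⟨⟨[(nat_lit 60), (nat_lit 120), (nat_lit 160)], [(nat_lit 0), (nat_lit 0), (nat_lit 3243)], [((nat_lit 0), (nat_lit 0), (nat_lit 0)), ((nat_lit 0), (nat_lit 0), (nat_lit 0)), ((nat_lit 878), (nat_lit 1000), (nat_lit 945))], ((nat_lit 100), (nat_lit 92), (nat_lit 90))⟩, (nat_lit 325353), (nat_lit 645), (nat_lit 645), (nat_lit 0), (nat_lit 802592), [(nat_lit 587478000), (nat_lit 1426272000), (nat_lit 2125088000)], [], [(nat_lit 6154149452), (nat_lit 6235587722), (nat_lit 6335008536), (nat_lit 6418802975), (nat_lit 4992901439), (nat_lit 5070088175), (nat_lit 5097608469), (nat_lit 5151615956)], (nat_lit 1271251), (nat_lit 1271251), (nat_lit 1271251), (nat_lit 1271251), (nat_lit 0), (nat_lit 1412501), [(nat_lit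 780000), (nat_lit 1762501), (nat_lit 1271251)], [(nat_lit 12), (nat_lit 59), (nat_lit 428), (nat_lit 200), (nat_lit 11)]⟩,
 Rw.none⟩) (.trZ (nat_lit 0) (nat_lit 1) (nat_lit 3) (nat_lit 92) (nat_lit 31) (nat_lit 100) (nat_lit 210) (.trZ (nat_lit 0) (nat_lit 2) (nat_lit 4) (nat_lit 100) (nat_lit 34) (nat_lit 81) (nat_lit 60) (.leaf ⟨(nat_lit 865), (nat_lit 135), (nat_lit 0), (nat_lit 0), (nat_lit 0), (nat_lit 3716), (nat_lit 1294), (nat_lit 0), (nat_lit 0), (nat_lit 0), (nat_lit 216250), [((nat_lit 400), [((nat_lit 29), (nat_lit 0), (nat_lit 865))])], ⟨(nat_lit 7), false, true, false, (nat_lit 266), (nat_lit 0), (nat_lit 1582), [(nat_lit 1604619), (nat_lit 1610200), (nat_lit 1627277), (nat_lit 1634543), (nat_lit 1702515), (nat_lit 1699984), (nat_lit 1725184), (nat_lit 1724337)]⟩, ⟨(nat_lit 3), false, false, false, (nat_lit 128), (nat_lit 0), (nat_lit 1582), [(nat_lit 1213552), (nat_lit 1223038), (nat_lit 1281527), (nat_lit 1296068), (nat_lit 1352101),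 (nat_lit 1349997), (nat_lit 1421394), (nat_lit 1424345)]⟩, (nat_lit 4651368), (nat_lit 41615881), (nat_lit 19324968), (nat_lit 6059151), (nat_lit 3), (nat_lit 0), [⟨(nat_lit 0), (nat_lit 92), (nat_lit 23), (nat_lit 100), (nat_lit 104306347)⟩], [⟨(nat_lit 0), (nat_lit 100), (nat_lit 23), (nat_lit 92), (nat_lit 41543128)⟩], [⟨(nat_lit 0), (nat_lit 100), (nat_lit 87), (nat_lit 41), (nat_lit 2572496)⟩], [],
 ⟨⟨[(nat_lit 40), (nat_lit 60), (nat_lit 80)], [(nat_lit 0), (nat_lit 2136), (nat_lit 3185)], [((nat_lit 0), (nat_lit 0), (nat_lit 0)), ((nat_lit 1000), (nat_lit 343), (nat_lit 808)), ((nat_lit 1000), (nat_lit 338), (nat_lit 820))], ((nat_lit 32), (nat_lit 100), (nat_lit 86))⟩, (nat_lit 0), (nat_lit 192), (nat_lit 192), (nat_lit 0), (nat_lit 302331), [(nat_lit 1594898001), (nat_lit 1425693534), (nat_lit 1823466000)], [(nat_lit 0), (nat_lit 0), (nat_lit 0)], [(nat_lit 24299244589), (nat_lit 25203590817), (nat_lit 26961561780), (nat_lit 27738690276),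 (nat_lit 24529236334), (nat_lit 25095527185), (nat_lit 26459026275), (nat_lit 26959247792)], (nat_lit 1271251), (nat_lit 1271251), (nat_lit 1271251), (nat_lit 1271251), (nat_lit 356250), (nat_lit 1100000), [(nat_lit 490000), (nat_lit 780000), (nat_lit 1100000)], [(nat_lit 2), (nat_lit 44), (nat_lit 249), (nat_lit 40), (nat_lit 10)]⟩,
 ⟨⟨[(nat_lit 60), (nat_lit 120), (nat_lit 160)], [(nat_lit 0), (nat_lit 0), (nat_lit 3243)], [((nat_lit 0), (nat_lit 0), (nat_lit 0)), ((nat_lit 0), (nat_lit 0), (nat_lit 0)), ((nat_lit 878), (nat_lit 1000), (nat_lit 945))], ((nat_lit 100), (nat_lit 92), (nat_lit 90))⟩, (nat_lit 221457), (nat_lit 693), (nat_lit 693), (nat_lit 0), (nat_lit 945770), [(nat_lit 443070000), (nat_lit 1075680000), (nat_lit 1602720000)], [], [(nat_lit 4778591022), (nat_lit 4836093831), (nat_lit 4861130664), (nat_lit 4905590817), (nat_lit 3848128207), (nat_lit 3902646428), (nat_lit 3929570345), (nat_lit 3970463092)], (nat_lit 1271251), (nat_lit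 1271251), (nat_lit 1271251), (nat_lit 1271251), (nat_lit 0), (nat_lit 1412501), [(nat_lit 780000), (nat_lit 1762501), (nat_lit 1271251)], [(nat_lit 12), (nat_lit 59), (nat_lit 428), (nat_lit 200), (nat_lit 11)]⟩,
 Rw.none⟩)))) (.trZ (nat_lit 0) (nat_lit 1) (nat_lit 3) (nat_lit 87) (nat_lit 44) (nat_lit 100) (nat_lit 210) (.leaf ⟨(nat_lit 22), (nat_lit 978), (nat_lit 0), (nat_lit 0), (nat_lit 0), (nat_lit 4158), (nat_lit 6416), (nat_lit 0), (nat_lit 0), (nat_lit 0), (nat_lit 88000), [((nat_lit 400), [((nat_lit 43), (nat_lit 5), (nat_lit 22))])], ⟨(nat_lit 7), false, true, false, (nat_lit 275), (nat_lit 0), (nat_lit 2237), [(nat_lit 1623954), (nat_lit 1633328), (nat_lit 1645800), (nat_lit 1657401), (nat_lit 1726954), (nat_lit 1724051), (nat_lit 1748802), (nat_lit 1748125)]⟩, ⟨(nat_lit 3), false, false, false, (nat_lit 122), (nat_lit 0), (nat_lit 2237), [(nat_lit 1177178), (nat_lit 1196337), (nat_lit 1242721), (nat_lit 1268557), (nat_lit 1351885),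 (nat_lit 1349998), (nat_lit 1419294), (nat_lit 1424084)]⟩, (nat_lit 4618487), (nat_lit 41167495), (nat_lit 20283008), (nat_lit 5549497), (nat_lit 3), (nat_lit 0), [⟨(nat_lit 0), (nat_lit 87), (nat_lit 32), (nat_lit 100), (nat_lit 890670976)⟩], [⟨(nat_lit 1), (nat_lit 100), (nat_lit 31), (nat_lit 97), (nat_lit 241834081)⟩], [], [],
 ⟨⟨[(nat_lit 40), (nat_lit 80), (nat_lit 100)], [(nat_lit 0), (nat_lit 2514), (nat_lit 3562)], [((nat_lit 0), (nat_lit 0), (nat_lit 0)), ((nat_lit 1000), (nat_lit 446), (nat_lit 804)), ((nat_lit 1000), (nat_lit 443), (nat_lit 819))], ((nat_lit 44), (nat_lit 100), (nat_lit 84))⟩, (nat_lit 870137), (nat_lit 249), (nat_lit 249), (nat_lit 0), (nat_lit 338886), [(nat_lit 1823484096), (nat_lit 3969858481), (nat_lit 5224571200)], [(nat_lit 0), (nat_lit 0), (nat_lit 0)], [(nat_lit 25236968141), (nat_lit 26797589322), (nat_lit 27724699903), (nat_lit 29394397836), (nat_lit 24854395999), (nat_lit 25870547462), (nat_lit 26566080608),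 (nat_lit 27462116496)], (nat_lit 1271251), (nat_lit 1271251), (nat_lit 1271251), (nat_lit 1271251), (nat_lit 230000), (nat_lit 1100000), [(nat_lit 490000), (nat_lit 1100000), (nat_lit 1442501)], [(nat_lit 3), (nat_lit 50), (nat_lit 249), (nat_lit 40), (nat_lit 8)]⟩,
 ⟨⟨[(nat_lit 60), (nat_lit 120), (nat_lit 160)], [(nat_lit 0), (nat_lit 913), (nat_lit 3885)], [((nat_lit 0), (nat_lit 0), (nat_lit 0)), ((nat_lit 1000), (nat_lit 905), (nat_lit 238)), ((nat_lit 886), (nat_lit 948), (nat_lit 1000))], ((nat_lit 96), (nat_lit 100), (nat_lit 92))⟩, (nat_lit 5088546), (nat_lit 684), (nat_lit 684), (nat_lit 0), (nat_lit 929042), [(nat_lit 3209796000), (nat_lit 7792704000), (nat_lit 11610816000)], [], [(nat_lit 25101096013), (nat_lit 25628624708), (nat_lit 26421912207), (nat_lit 27807937816), (nat_lit 22024951200), (nat_lit 22410860680), (nat_lit 22778589587), (nat_lit 23477257440)], (nat_lit 1271251), (nat_lit 1271251), (nat_lit 1271251), (nat_lit 1271251),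 (nat_lit 0), (nat_lit 1412501), [(nat_lit 780000), (nat_lit 1762501), (nat_lit 1271251)], [(nat_lit 12), (nat_lit 59), (nat_lit 428), (nat_lit 200), (nat_lit 11)]⟩,
 Rw.none⟩))) (.stt (nat_lit 3) (.leaf ⟨(nat_lit 22), (nat_lit 0), (nat_lit 0), (nat_lit 978), (nat_lit 0), (nat_lit 4012), (nat_lit 10030), (nat_lit 18866), (nat_lit 0), (nat_lit 0), (nat_lit 88000), [((nat_lit 400), [((nat_lit 43), (nat_lit 5), (nat_lit 22))])], ⟨(nat_lit 7), false, true, false, (nat_lit 265), (nat_lit 0), (nat_lit 2237), [(nat_lit 1572676), (nat_lit 1583333), (nat_lit 1616372), (nat_lit 1631480), (nat_lit 1705063), (nat_lit 1699935), (nat_lit 1748802), (nat_lit 1748125)]⟩, ⟨(nat_lit 3), true, false, false, (nat_lit 122), (nat_lit 0), (nat_lit 2237), [(nat_lit 1177178), (nat_lit 1196337), (nat_lit 1242721), (nat_lit 1268557), (nat_lit 1351885), (nat_lit 1349998), (nat_lit 1419294), (nat_lit 1424084)]⟩, (nat_lit 4574982), (nat_lit 42058953), (nat_lit 19319285), (nat_lit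 5621762), (nat_lit 0), (nat_lit 0), [⟨(nat_lit 0), (nat_lit 88), (nat_lit 32), (nat_lit 100), (nat_lit 1227542281)⟩], [⟨(nat_lit 0), (nat_lit 100), (nat_lit 32), (nat_lit 87), (nat_lit 544210096)⟩, ⟨(nat_lit 0), (nat_lit 100), (nat_lit 48), (nat_lit 71), (nat_lit 2039902586)⟩], [], [],
 ⟨⟨[(nat_lit 40), (nat_lit 80), (nat_lit 100)], [(nat_lit 0), (nat_lit 2514), (nat_lit 3562)], [((nat_lit 0), (nat_lit 0), (nat_lit 0)), ((nat_lit 1000), (nat_lit 446), (nat_lit 804)), ((nat_lit 1000), (nat_lit 443), (nat_lit 819))], ((nat_lit 44), (nat_lit 100), (nat_lit 84))⟩, (nat_lit 1058442), (nat_lit 249), (nat_lit 249), (nat_lit 0), (nat_lit 339024), [(nat_lit 1823484022), (nat_lit 3978473892), (nat_lit 5224571200)], [(nat_lit 0), (nat_lit 0), (nat_lit 0)], [(nat_lit 24003516670), (nat_lit 25990890207), (nat_lit 27447124885), (nat_lit 29084886304), (nat_lit 23830092013), (nat_lit 24971151708), (nat_lit 26144437826), (nat_lit 27296010544)], (nat_lit 1271251),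 (nat_lit 1271251), (nat_lit 1271251), (nat_lit 1271251), (nat_lit 230000), (nat_lit 1100000), [(nat_lit 490000), (nat_lit 1100000), (nat_lit 1442501)], [(nat_lit 3), (nat_lit 50), (nat_lit 345), (nat_lit 125), (nat_lit 12)]⟩,
 ⟨⟨[(nat_lit 60), (nat_lit 120), (nat_lit 160)], [(nat_lit 0), (nat_lit 0), (nat_lit 3243)], [((nat_lit 0), (nat_lit 0), (nat_lit 0)), ((nat_lit 0), (nat_lit 0), (nat_lit 0)), ((nat_lit 878), (nat_lit 1000), (nat_lit 945))], ((nat_lit 100), (nat_lit 92), (nat_lit 90))⟩, (nat_lit 1615323), (nat_lit 566), (nat_lit 566), (nat_lit 0), (nat_lit 958114), [(nat_lit 3209796000), (nat_lit 7792704000), (nat_lit 11610816000)], [], [(nat_lit 25238946999), (nat_lit 26085769452), (nat_lit 25756672102), (nat_lit 27642461863), (nat_lit 31665376386), (nat_lit 33977986412), (nat_lit 34083116377), (nat_lit 35941401131)], (nat_lit 1271251), (nat_lit 1271251), (nat_lit 1271251), (nat_lit 1271251), (nat_lit 1271251), (nat_lit 1271251), [(nat_lit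 780000), (nat_lit 1762501), (nat_lit 1271251)], [(nat_lit 12), (nat_lit 59), (nat_lit 483), (nat_lit 250), (nat_lit 11)]⟩,
 ⟨⟨[(nat_lit 140), (nat_lit 180), (nat_lit 200)], [(nat_lit 0), (nat_lit 0), (nat_lit 2835)], [((nat_lit 0), (nat_lit 0), (nat_lit 0)), ((nat_lit 0), (nat_lit 0), (nat_lit 0)), ((nat_lit 363), (nat_lit 1000), (nat_lit 798))], ((nat_lit 0), (nat_lit 0), (nat_lit 0))⟩, (nat_lit 269079), (nat_lit 300), (nat_lit 364), (nat_lit 76381806), (nat_lit 0), [(nat_lit 9625476000), (nat_lit 13748724000), (nat_lit 16039200000)], [], [(nat_lit 52603334870), (nat_lit 49600831520), (nat_lit 39322739357), (nat_lit 36403230460), (nat_lit 65327514390), (nat_lit 61655024398), (nat_lit 49749968249), (nat_lit 46347280378)], (nat_lit 0), (nat_lit 0), (nat_lit 0), (nat_lit 0), (nat_lit 0), (nat_lit 0), [], [(nat_lit 32), (nat_lit 67), (nat_lit 428), (nat_lit 200), (nat_lit 9)]⟩⟩) (.spl (nat_lit 6) (nat_lit 68) (.spl (nat_lit 1) (nat_lit 300) (.spl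 (nat_lit 0) (nat_lit 390) (.leaf ⟨(nat_lit 760), (nat_lit 204), (nat_lit 0), (nat_lit 36), (nat_lit 0), (nat_lit 3191), (nat_lit 2121), (nat_lit 422), (nat_lit 0), (nat_lit 0), (nat_lit 279400), [((nat_lit 390), [((nat_lit 28), (nat_lit 0), (nat_lit 164)), ((nat_lit 28), (nat_lit 1), (nat_lit 596))])], ⟨(nat_lit 7), false, true, false, (nat_lit 261), (nat_lit 1581), (nat_lit 2237), [(nat_lit 1576639), (nat_lit 1579397), (nat_lit 1599369), (nat_lit 1602667), (nat_lit 1705117), (nat_lit 1702521), (nat_lit 1727846), (nat_lit 1725790)]⟩, ⟨(nat_lit 3), false, false, false, (nat_lit 121), (nat_lit 1581), (nat_lit 2237), [(nat_lit 1180680), (nat_lit 1188036), (nat_lit 1248867), (nat_lit 1257845), (nat_lit 1351886), (nat_lit 1352103), (nat_lit 1420170), (nat_lit 1422009)]⟩, (nat_lit 4549833), (nat_lit 42464032), (nat_lit 18912702), (nat_lit 5623266), (nat_lit 5), (nat_lit 0), [⟨(nat_lit 0), (nat_lit 88), (nat_lit 32), (nat_lit 100), (nat_lit 16154519)⟩],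 [], [⟨(nat_lit 1), (nat_lit 68), (nat_lit 92), (nat_lit 100), (nat_lit 55385790)⟩], [],
 ⟨⟨[(nat_lit 40), (nat_lit 60), (nat_lit 80)], [(nat_lit 0), (nat_lit 1539), (nat_lit 2453)], [((nat_lit 0), (nat_lit 0), (nat_lit 0)), ((nat_lit 1000), (nat_lit 478), (nat_lit 704)), ((nat_lit 1000), (nat_lit 474), (nat_lit 714))], ((nat_lit 45), (nat_lit 100), (nat_lit 78))⟩, (nat_lit 0), (nat_lit 173), (nat_lit 173), (nat_lit 0), (nat_lit 199232), [(nat_lit 1519424002), (nat_lit 1192230514), (nat_lit 1468619200)], [(nat_lit 0), (nat_lit 0), (nat_lit 0)], [(nat_lit 23209821152), (nat_lit 23873316132), (nat_lit 26023313778), (nat_lit 26615327317), (nat_lit 23494621509), (nat_lit 24076205111), (nat_lit 26114549125), (nat_lit 26628567122)], (nat_lit 1271251), (nat_lit 1271251), (nat_lit 1271251), (nat_lit 1271251), (nat_lit 230000), (nat_lit 1100000), [(nat_lit 490000), (nat_lit 780000), (nat_lit 1100000)], [(nat_lit 2), (nat_lit 44), (nat_lit 249), (nat_lit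 40), (nat_lit 10)]⟩,
 ⟨⟨[(nat_lit 60), (nat_lit 120), (nat_lit 160)], [(nat_lit 0), (nat_lit 0), (nat_lit 3243)], [((nat_lit 0), (nat_lit 0), (nat_lit 0)), ((nat_lit 0), (nat_lit 0), (nat_lit 0)), ((nat_lit 878), (nat_lit 1000), (nat_lit 945))], ((nat_lit 100), (nat_lit 99), (nat_lit 82))⟩, (nat_lit 380446), (nat_lit 417), (nat_lit 417), (nat_lit 0), (nat_lit 673318), [(nat_lit 787680000), (nat_lit 1912320000), (nat_lit 2849280000)], [], [(nat_lit 7140579361), (nat_lit 7262789678), (nat_lit 7351211343), (nat_lit 7440709884), (nat_lit 8034870621), (nat_lit 8113197086), (nat_lit 8148713871), (nat_lit 8252989248)], (nat_lit 1271251), (nat_lit 1271251), (nat_lit 1271251), (nat_lit 1271251), (nat_lit 1271251), (nat_lit 1271251), [(nat_lit 780000), (nat_lit 1762501), (nat_lit 1271251)], [(nat_lit 12), (nat_lit 59), (nat_lit 483), (nat_lit 250), (nat_lit 11)]⟩,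
 ⟨⟨[(nat_lit 140), (nat_lit 180), (nat_lit 200)], [(nat_lit 0), (nat_lit 0), (nat_lit 2835)], [((nat_lit 0), (nat_lit 0), (nat_lit 0)), ((nat_lit 0), (nat_lit 0), (nat_lit 0)), ((nat_lit 363), (nat_lit 1000), (nat_lit 798))], ((nat_lit 0), (nat_lit 0), (nat_lit 0))⟩, (nat_lit 9905), (nat_lit 300), (nat_lit 2001), (nat_lit 2811600), (nat_lit 3370032), [(nat_lit 354312000), (nat_lit 506088000), (nat_lit 590400000)], [], [(nat_lit 2465840640), (nat_lit 2371089749), (nat_lit 2200300996), (nat_lit 2105183285), (nat_lit 2367483893), (nat_lit 2269405460), (nat_lit 2074191710), (nat_lit 1977040166)], (nat_lit 780000), (nat_lit 1271251), (nat_lit 230000), (nat_lit 1100000), (nat_lit 1271251), (nat_lit 1271251), [(nat_lit 1977501), (nat_lit 1271251), (nat_lit 1271251)], [(nat_lit 32), (nat_lit 67), (nat_lit 591), (nat_lit 200), (nat_lit 12)]⟩⟩) (.trZ (nat_lit 0) (nat_lit 1) (nat_lit 3) (nat_lit 92) (nat_lit 31) (nat_lit 100) (nat_lit 210) (.trZ (nat_lit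 0) (nat_lit 2) (nat_lit 4) (nat_lit 100) (nat_lit 34) (nat_lit 81) (nat_lit 60) (.leaf ⟨(nat_lit 876), (nat_lit 124), (nat_lit 0), (nat_lit 0), (nat_lit 0), (nat_lit 3594), (nat_lit 1082), (nat_lit 0), (nat_lit 0), (nat_lit 0), (nat_lit 219000), [((nat_lit 400), [((nat_lit 28), (nat_lit 0), (nat_lit 876))])], ⟨(nat_lit 7), false, true, false, (nat_lit 266), (nat_lit 0), (nat_lit 1582), [(nat_lit 1604619), (nat_lit 1610200), (nat_lit 1627277), (nat_lit 1634543), (nat_lit 1702515), (nat_lit 1699984), (nat_lit 1725184), (nat_lit 1724337)]⟩, ⟨(nat_lit 3), false, false, false, (nat_lit 128), (nat_lit 0), (nat_lit 1582), [(nat_lit 1213552), (nat_lit 1223038), (nat_lit 1281527), (nat_lit 1296068), (nat_lit 1352101), (nat_lit 1349997), (nat_lit 1421394), (nat_lit 1424345)]⟩, (nat_lit 4651368), (nat_lit 41615881), (nat_lit 19324968), (nat_lit 6059151), (nat_lit 5), (nat_lit 0), [⟨(nat_lit 0), (nat_lit 92), (nat_lit 23), (nat_lit 100), (nat_lit 103890152)⟩],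 [], [⟨(nat_lit 1), (nat_lit 68), (nat_lit 92), (nat_lit 100), (nat_lit 32201377)⟩], [⟨(nat_lit 1), (nat_lit 66), (nat_lit 100), (nat_lit 92), (nat_lit 12906480)⟩],
 ⟨⟨[(nat_lit 40), (nat_lit 60), (nat_lit 80)], [(nat_lit 0), (nat_lit 2136), (nat_lit 3185)], [((nat_lit 0), (nat_lit 0), (nat_lit 0)), ((nat_lit 1000), (nat_lit 343), (nat_lit 808)), ((nat_lit 1000), (nat_lit 338), (nat_lit 820))], ((nat_lit 34), (nat_lit 100), (nat_lit 82))⟩, (nat_lit 0), (nat_lit 171), (nat_lit 171), (nat_lit 0), (nat_lit 220402), [(nat_lit 1592315253), (nat_lit 1376418523), (nat_lit 1787038400)], [(nat_lit 0), (nat_lit 0), (nat_lit 0)], [(nat_lit 24106294518), (nat_lit 24994387855), (nat_lit 26748463823), (nat_lit 27512436884), (nat_lit 24284836051), (nat_lit 24879455612), (nat_lit 26296866728), (nat_lit 26820446928)], (nat_lit 1271251), (nat_lit 1271251), (nat_lit 1271251), (nat_lit 1271251), (nat_lit 356250), (nat_lit 1100000), [(nat_lit 490000), (nat_lit 780000),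 (nat_lit 1100000)], [(nat_lit 2), (nat_lit 44), (nat_lit 249), (nat_lit 40), (nat_lit 10)]⟩,
 ⟨⟨[(nat_lit 60), (nat_lit 120), (nat_lit 160)], [(nat_lit 0), (nat_lit 0), (nat_lit 3243)], [((nat_lit 0), (nat_lit 0), (nat_lit 0)), ((nat_lit 0), (nat_lit 0), (nat_lit 0)), ((nat_lit 878), (nat_lit 1000), (nat_lit 945))], ((nat_lit 100), (nat_lit 99), (nat_lit 82))⟩, (nat_lit 202875), (nat_lit 496), (nat_lit 496), (nat_lit 0), (nat_lit 794225), [(nat_lit 406968000), (nat_lit 988032000), (nat_lit 1472128000)], [], [(nat_lit 3716614167), (nat_lit 3776120164), (nat_lit 3819749221), (nat_lit 3866033055), (nat_lit 4181772920), (nat_lit 4219592090), (nat_lit 4221778119), (nat_lit 4249989298)], (nat_lit 1271251), (nat_lit 1271251), (nat_lit 1271251), (nat_lit 1271251), (nat_lit 1271251), (nat_lit 1271251), [(nat_lit 780000), (nat_lit 1762501), (nat_lit 1271251)], [(nat_lit 12), (nat_lit 59), (nat_lit 483), (nat_lit 250), (nat_lit 11)]⟩,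
 Rw.none⟩)))) (.trZ (nat_lit 0) (nat_lit 1) (nat_lit 3) (nat_lit 87) (nat_lit 44) (nat_lit 100) (nat_lit 210) (.trX (nat_lit 5) (nat_lit 1) (nat_lit 2) (nat_lit 87) (nat_lit 59) (nat_lit 100) (nat_lit 370) (.leaf ⟨(nat_lit 573), (nat_lit 427), (nat_lit 0), (nat_lit 0), (nat_lit 0), (nat_lit 3778), (nat_lit 2605), (nat_lit 0), (nat_lit 0), (nat_lit 0), (nat_lit 229200), [((nat_lit 400), [((nat_lit 28), (nat_lit 1), (nat_lit 573))])], ⟨(nat_lit 7), false, true, false, (nat_lit 275), (nat_lit 0), (nat_lit 2237), [(nat_lit 1623954), (nat_lit 1633328), (nat_lit 1645800), (nat_lit 1657401), (nat_lit 1726954), (nat_lit 1724051), (nat_lit 1748802), (nat_lit 1748125)]⟩, ⟨(nat_lit 3), false, false, false, (nat_lit 122), (nat_lit 0), (nat_lit 2237), [(nat_lit 1177178), (nat_lit 1196337), (nat_lit 1242721), (nat_lit 1268557), (nat_lit 1351885), (nat_lit 1349998), (nat_lit 1419294), (nat_lit 1424084)]⟩, (nat_lit 4618487), (nat_lit 41167495), (nat_lit 20283008),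 (nat_lit 5549497), (nat_lit 5), (nat_lit 0), [⟨(nat_lit 0), (nat_lit 87), (nat_lit 32), (nat_lit 100), (nat_lit 199179055)⟩], [], [⟨(nat_lit 1), (nat_lit 59), (nat_lit 87), (nat_lit 100), (nat_lit 176488605)⟩], [],
 ⟨⟨[(nat_lit 40), (nat_lit 60), (nat_lit 80)], [(nat_lit 0), (nat_lit 1539), (nat_lit 2453)], [((nat_lit 0), (nat_lit 0), (nat_lit 0)), ((nat_lit 1000), (nat_lit 478), (nat_lit 704)), ((nat_lit 1000), (nat_lit 474), (nat_lit 714))], ((nat_lit 45), (nat_lit 100), (nat_lit 78))⟩, (nat_lit 0), (nat_lit 190), (nat_lit 190), (nat_lit 0), (nat_lit 246894), [(nat_lit 1567195615), (nat_lit 1587524415), (nat_lit 2115000800)], [(nat_lit 0), (nat_lit 0), (nat_lit 0)], [(nat_lit 24194914267), (nat_lit 26044028707), (nat_lit 27002244378), (nat_lit 28588819876), (nat_lit 24153711160), (nat_lit 25243593300), (nat_lit 26070157609), (nat_lit 27030851073)], (nat_lit 1271251), (nat_lit 1271251), (nat_lit 1271251), (nat_lit 1271251), (nat_lit 230000), (nat_lit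 1100000), [(nat_lit 490000), (nat_lit 780000), (nat_lit 1100000)], [(nat_lit 2), (nat_lit 44), (nat_lit 249), (nat_lit 40), (nat_lit 10)]⟩,
 ⟨⟨[(nat_lit 60), (nat_lit 100), (nat_lit 140)], [(nat_lit 0), (nat_lit 609), (nat_lit 2558)], [((nat_lit 0), (nat_lit 0), (nat_lit 0)), ((nat_lit 1000), (nat_lit 905), (nat_lit 238)), ((nat_lit 1000), (nat_lit 904), (nat_lit 760))], ((nat_lit 91), (nat_lit 100), (nat_lit 79))⟩, (nat_lit 1243272), (nat_lit 430), (nat_lit 430), (nat_lit 0), (nat_lit 783008), [(nat_lit 1401414000), (nat_lit 2668750000), (nat_lit 4202534000)], [], [(nat_lit 10932259404), (nat_lit 11220659137), (nat_lit 11586598119), (nat_lit 11829758176), (nat_lit 12835161386), (nat_lit 13035254790), (nat_lit 13228983985), (nat_lit 13575895294)], (nat_lit 1271251), (nat_lit 1271251), (nat_lit 1271251), (nat_lit 1271251), (nat_lit 1271251), (nat_lit 1271251), [(nat_lit 780000), (nat_lit 1435001), (nat_lit 1271251)], [(nat_lit 11), (nat_lit 55),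 (nat_lit 401), (nat_lit 175), (nat_lit 10)]⟩,
 Rw.none⟩)))) (.leaf ⟨(nat_lit 677), (nat_lit 286), (nat_lit 0), (nat_lit 37), (nat_lit 0), (nat_lit 3416), (nat_lit 2691), (nat_lit 470), (nat_lit 0), (nat_lit 0), (nat_lit 321000), [((nat_lit 400), [((nat_lit 29), (nat_lit 1), (nat_lit 426)), ((nat_lit 43), (nat_lit 2), (nat_lit 251))])], ⟨(nat_lit 7), false, true, false, (nat_lit 265), (nat_lit 0), (nat_lit 2237), [(nat_lit 1572676), (nat_lit 1583333), (nat_lit 1616372), (nat_lit 1631480), (nat_lit 1705063), (nat_lit 1699935), (nat_lit 1748802), (nat_lit 1748125)]⟩, ⟨(nat_lit 3), false, false, false, (nat_lit 122), (nat_lit 0), (nat_lit 2237), [(nat_lit 1177178), (nat_lit 1196337), (nat_lit 1242721), (nat_lit 1268557), (nat_lit 1351885), (nat_lit 1349998), (nat_lit 1419294), (nat_lit 1424084)]⟩, (nat_lit 4574982), (nat_lit 42058953), (nat_lit 19319285), (nat_lit 5621762), (nat_lit 5), (nat_lit 0), [⟨(nat_lit 0), (nat_lit 88), (nat_lit 32), (nat_lit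 100), (nat_lit 223571887)⟩], [], [⟨(nat_lit 1), (nat_lit 72), (nat_lit 89), (nat_lit 100), (nat_lit 92696603)⟩], [],
 ⟨⟨[(nat_lit 40), (nat_lit 80), (nat_lit 100)], [(nat_lit 0), (nat_lit 2514), (nat_lit 3562)], [((nat_lit 0), (nat_lit 0), (nat_lit 0)), ((nat_lit 1000), (nat_lit 446), (nat_lit 804)), ((nat_lit 1000), (nat_lit 443), (nat_lit 819))], ((nat_lit 44), (nat_lit 100), (nat_lit 84))⟩, (nat_lit 0), (nat_lit 207), (nat_lit 207), (nat_lit 0), (nat_lit 195289), [(nat_lit 1525182932), (nat_lit 1254029945), (nat_lit 1516232400)], [(nat_lit 0), (nat_lit 0), (nat_lit 0)], [(nat_lit 24222245977), (nat_lit 25387098693), (nat_lit 26656272107), (nat_lit 27821400872), (nat_lit 24227633424), (nat_lit 25251895133), (nat_lit 26397733685), (nat_lit 27276572285)], (nat_lit 1271251), (nat_lit 1271251), (nat_lit 1271251), (nat_lit 1271251), (nat_lit 230000), (nat_lit 1100000), [(nat_lit 490000), (nat_lit 1100000), (nat_lit 1442501)], [(nat_lit 3), (nat_lit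 50), (nat_lit 345), (nat_lit 125), (nat_lit 12)]⟩,
 ⟨⟨[(nat_lit 60), (nat_lit 120), (nat_lit 160)], [(nat_lit 0), (nat_lit 0), (nat_lit 3243)], [((nat_lit 0), (nat_lit 0), (nat_lit 0)), ((nat_lit 0), (nat_lit 0), (nat_lit 0)), ((nat_lit 878), (nat_lit 1000), (nat_lit 945))], ((nat_lit 100), (nat_lit 92), (nat_lit 90))⟩, (nat_lit 519487), (nat_lit 391), (nat_lit 391), (nat_lit 0), (nat_lit 607372), [(nat_lit 1060086000), (nat_lit 2573664000), (nat_lit 3834656000)], [], [(nat_lit 9129068189), (nat_lit 9625291876), (nat_lit 9689870334), (nat_lit 10070978583), (nat_lit 10918588564), (nat_lit 11165334411), (nat_lit 11042990502), (nat_lit 11295139405)], (nat_lit 1271251), (nat_lit 1271251), (nat_lit 1271251), (nat_lit 1271251), (nat_lit 1271251), (nat_lit 1271251), [(nat_lit 780000), (nat_lit 1762501), (nat_lit 1271251)], [(nat_lit 12), (nat_lit 59), (nat_lit 483), (nat_lit 250), (nat_lit 11)]⟩,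
 ⟨⟨[(nat_lit 140), (nat_lit 180), (nat_lit 200)], [(nat_lit 0), (nat_lit 0), (nat_lit 2835)], [((nat_lit 0), (nat_lit 0), (nat_lit 0)), ((nat_lit 0), (nat_lit 0), (nat_lit 0)), ((nat_lit 363), (nat_lit 1000), (nat_lit 798))], ((nat_lit 0), (nat_lit 0), (nat_lit 0))⟩, (nat_lit 10180), (nat_lit 300), (nat_lit 2009), (nat_lit 2889700), (nat_lit 3386216), [(nat_lit 364154000), (nat_lit 520146000), (nat_lit 606800000)], [], [(nat_lit 2421736376), (nat_lit 2313972445), (nat_lit 2110792618), (nat_lit 2043254132), (nat_lit 2369083428), (nat_lit 2258049455), (nat_lit 2034964059), (nat_lit 1927251765)], (nat_lit 780000), (nat_lit 1271251), (nat_lit 230000), (nat_lit 1100000), (nat_lit 1271251), (nat_lit 1271251), [(nat_lit 1977501), (nat_lit 1271251), (nat_lit 1271251)], [(nat_lit 32), (nat_lit 67), (nat_lit 593), (nat_lit 200), (nat_lit 12)]⟩⟩)))))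
noncomputable def c14_56 : Tr Lf :=
 (.trZ (nat_lit 0) (nat_lit 2) (nat_lit 4) (nat_lit 100) (nat_lit 44) (nat_lit 86) (nat_lit 90) (.spl (nat_lit 5) (nat_lit 120) (.leaf ⟨(nat_lit 22), (nat_lit 978), (nat_lit 0), (nat_lit 0), (nat_lit 0), (nat_lit 3874), (nat_lit 6210), (nat_lit 0), (nat_lit 0), (nat_lit 0), (nat_lit 88000), [((nat_lit 400), [((nat_lit 43), (nat_lit 5), (nat_lit 22))])], ⟨(nat_lit 7), false, true, false, (nat_lit 265), (nat_lit 0), (nat_lit 2237), [(nat_lit 1572676), (nat_lit 1583333), (nat_lit 1616372), (nat_lit 1631480), (nat_lit 1705063), (nat_lit 1699935), (nat_lit 1748802), (nat_lit 1748125)]⟩, ⟨(nat_lit 4), false, false, false, (nat_lit 158), (nat_lit 0), (nat_lit 2237), [(nat_lit 1316293), (nat_lit 1333360), (nat_lit 1359989), (nat_lit 1381507), (nat_lit 1419294), (nat_lit 1424084), (nat_lit 1462989), (nat_lit 1472231)]⟩, (nat_lit 4945121), (nat_lit 40074201), (nat_lit 18703254), (nat_lit 8222545), (nat_lit 4), (nat_lit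 0), [⟨(nat_lit 0), (nat_lit 88), (nat_lit 32), (nat_lit 100), (nat_lit 777519083)⟩], [⟨(nat_lit 0), (nat_lit 100), (nat_lit 31), (nat_lit 95), (nat_lit 504919741)⟩], [⟨(nat_lit 0), (nat_lit 100), (nat_lit 92), (nat_lit 31), (nat_lit 8022481)⟩], [],
 ⟨⟨[(nat_lit 40), (nat_lit 80), (nat_lit 100)], [(nat_lit 0), (nat_lit 2514), (nat_lit 3562)], [((nat_lit 0), (nat_lit 0), (nat_lit 0)), ((nat_lit 1000), (nat_lit 446), (nat_lit 804)), ((nat_lit 1000), (nat_lit 443), (nat_lit 819))], ((nat_lit 44), (nat_lit 100), (nat_lit 84))⟩, (nat_lit 1028738), (nat_lit 196), (nat_lit 196), (nat_lit 0), (nat_lit 276520), [(nat_lit 1823484002), (nat_lit 3969858448), (nat_lit 5224571200)], [(nat_lit 0), (nat_lit 0), (nat_lit 0)], [(nat_lit 23319902492), (nat_lit 24562953875), (nat_lit 25890187520), (nat_lit 27254570454), (nat_lit 23704813095), (nat_lit 24902033147), (nat_lit 26122058055), (nat_lit 27139191588)], (nat_lit 1271251), (nat_lit 1271251), (nat_lit 1271251),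 (nat_lit 1271251), (nat_lit 559688), (nat_lit 1100000), [(nat_lit 490000), (nat_lit 1100000), (nat_lit 1442501)], [(nat_lit 3), (nat_lit 50), (nat_lit 345), (nat_lit 125), (nat_lit 12)]⟩,
 ⟨⟨[(nat_lit 60), (nat_lit 120), (nat_lit 160)], [(nat_lit 0), (nat_lit 0), (nat_lit 3243)], [((nat_lit 0), (nat_lit 0), (nat_lit 0)), ((nat_lit 0), (nat_lit 0), (nat_lit 0)), ((nat_lit 878), (nat_lit 1000), (nat_lit 945))], ((nat_lit 100), (nat_lit 92), (nat_lit 90))⟩, (nat_lit 1871569), (nat_lit 529), (nat_lit 529), (nat_lit 0), (nat_lit 581083), [(nat_lit 3209796000), (nat_lit 7792704000), (nat_lit 11610816000)], [], [(nat_lit 38591254647), (nat_lit 39840090732), (nat_lit 40138759392), (nat_lit 41400374724), (nat_lit 35285730885), (nat_lit 36514780157), (nat_lit 36913281828), (nat_lit 37983818190)], (nat_lit 1271251), (nat_lit 1271251), (nat_lit 1271251), (nat_lit 1271251), (nat_lit 0), (nat_lit 780000), [(nat_lit 780000), (nat_lit 1762501), (nat_lit 1271251)],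 [(nat_lit 12), (nat_lit 59), (nat_lit 428), (nat_lit 200), (nat_lit 11)]⟩,
 Rw.none⟩) (.leaf ⟨(nat_lit 741), (nat_lit 144), (nat_lit 0), (nat_lit 115), (nat_lit 0), (nat_lit 3555), (nat_lit 2201), (nat_lit 1016), (nat_lit 0), (nat_lit 0), (nat_lit 347400), [((nat_lit 400), [((nat_lit 29), (nat_lit 1), (nat_lit 486)), ((nat_lit 43), (nat_lit 2), (nat_lit 255))])], ⟨(nat_lit 7), false, true, false, (nat_lit 265), (nat_lit 0), (nat_lit 2237), [(nat_lit 1572676), (nat_lit 1583333), (nat_lit 1616372), (nat_lit 1631480), (nat_lit 1705063), (nat_lit 1699935), (nat_lit 1748802), (nat_lit 1748125)]⟩, ⟨(nat_lit 4), false, false, false, (nat_lit 158), (nat_lit 0), (nat_lit 2237), [(nat_lit 1316293), (nat_lit 1333360), (nat_lit 1359989), (nat_lit 1381507), (nat_lit 1419294), (nat_lit 1424084), (nat_lit 1462989), (nat_lit 1472231)]⟩, (nat_lit 4945121), (nat_lit 40074201), (nat_lit 18703254), (nat_lit 8222545), (nat_lit 4), (nat_lit 0), [⟨(nat_lit 0), (nat_lit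 88), (nat_lit 32), (nat_lit 100), (nat_lit 223953865)⟩], [⟨(nat_lit 0), (nat_lit 100), (nat_lit 31), (nat_lit 95), (nat_lit 201787374)⟩], [], [],
 ⟨⟨[(nat_lit 40), (nat_lit 80), (nat_lit 100)], [(nat_lit 0), (nat_lit 2514), (nat_lit 3562)], [((nat_lit 0), (nat_lit 0), (nat_lit 0)), ((nat_lit 1000), (nat_lit 446), (nat_lit 804)), ((nat_lit 1000), (nat_lit 443), (nat_lit 819))], ((nat_lit 44), (nat_lit 100), (nat_lit 84))⟩, (nat_lit 0), (nat_lit 196), (nat_lit 196), (nat_lit 0), (nat_lit 276520), [(nat_lit 1499486801), (nat_lit 963459600), (nat_lit 1113226000)], [(nat_lit 0), (nat_lit 0), (nat_lit 0)], [(nat_lit 22741287489), (nat_lit 23936000736), (nat_lit 25283459918), (nat_lit 26765638277), (nat_lit 23210858229), (nat_lit 24360487095), (nat_lit 25605284905), (nat_lit 26776076160)], (nat_lit 1271251), (nat_lit 1271251), (nat_lit 1271251), (nat_lit 1271251), (nat_lit 559688), (nat_lit 1100000), [(nat_lit 490000), (nat_lit 1100000), (nat_lit 1442501)],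 [(nat_lit 3), (nat_lit 50), (nat_lit 345), (nat_lit 125), (nat_lit 12)]⟩,
 ⟨⟨[(nat_lit 60), (nat_lit 120), (nat_lit 160)], [(nat_lit 0), (nat_lit 0), (nat_lit 3243)], [((nat_lit 0), (nat_lit 0), (nat_lit 0)), ((nat_lit 0), (nat_lit 0), (nat_lit 0)), ((nat_lit 878), (nat_lit 1000), (nat_lit 945))], ((nat_lit 100), (nat_lit 92), (nat_lit 90))⟩, (nat_lit 362773), (nat_lit 506), (nat_lit 506), (nat_lit 0), (nat_lit 730803), [(nat_lit 850038000), (nat_lit 2063712000), (nat_lit 3074848000)], [], [(nat_lit 8260289098), (nat_lit 8574534117), (nat_lit 8581405942), (nat_lit 8818538505), (nat_lit 10512383391), (nat_lit 9339284398), (nat_lit 9250452039), (nat_lit 9448591678)], (nat_lit 1271251), (nat_lit 1271251), (nat_lit 1271251), (nat_lit 1271251), (nat_lit 780000), (nat_lit 3072501), [(nat_lit 780000), (nat_lit 1762501), (nat_lit 1271251)], [(nat_lit 12), (nat_lit 59), (nat_lit 483), (nat_lit 250), (nat_lit 12)]⟩,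
 ⟨⟨[(nat_lit 120), (nat_lit 160), (nat_lit 200)], [(nat_lit 0), (nat_lit 533), (nat_lit 3597)], [((nat_lit 0), (nat_lit 0), (nat_lit 0)), ((nat_lit 960), (nat_lit 1000), (nat_lit 200)), ((nat_lit 612), (nat_lit 1000), (nat_lit 732))], ((nat_lit 0), (nat_lit 0), (nat_lit 0))⟩, (nat_lit 269268), (nat_lit 300), (nat_lit 1110), (nat_lit 7636001), (nat_lit 1553351), [(nat_lit 916320000), (nat_lit 1365280000), (nat_lit 1886000000)], [], [(nat_lit 7927476515), (nat_lit 7810716669), (nat_lit 7639602389), (nat_lit 7523100318), (nat_lit 7645600343), (nat_lit 7162789286), (nat_lit 8479510104), (nat_lit 7576950568)], (nat_lit 1271251), (nat_lit 1271251), (nat_lit 559688), (nat_lit 1100000), (nat_lit 780000), (nat_lit 3072501), [(nat_lit 1695001), (nat_lit 1271251), (nat_lit 1271251)], [(nat_lit 29), (nat_lit 66), (nat_lit 428), (nat_lit 200), (nat_lit 9)]⟩⟩)))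
noncomputable def c14_57 : Tr Lf :=
 (.spl (nat_lit 0) (nat_lit 390) (.leaf ⟨(nat_lit 332), (nat_lit 668), (nat_lit 0), (nat_lit 0), (nat_lit 0), (nat_lit 3516), (nat_lit 6058), (nat_lit 0), (nat_lit 0), (nat_lit 0), (nat_lit 199200), [((nat_lit 390), [((nat_lit 43), (nat_lit 2), (nat_lit 332))])], ⟨(nat_lit 7), false, true, false, (nat_lit 302), (nat_lit 1581), (nat_lit 2237), [(nat_lit 1705117), (nat_lit 1702521), (nat_lit 1750574), (nat_lit 1749059), (nat_lit 1762142), (nat_lit 1757166), (nat_lit 1807675), (nat_lit 1803781)]⟩, ⟨(nat_lit 3), false, false, false, (nat_lit 116), (nat_lit 1581), (nat_lit 2237), [(nat_lit 1180680), (nat_lit 1188036), (nat_lit 1226138), (nat_lit 1234575), (nat_lit 1351886), (nat_lit 1352103), (nat_lit 1397434), (nat_lit 1398733)]⟩, (nat_lit 4650827), (nat_lit 39104572), (nat_lit 22862113), (nat_lit 5033315), (nat_lit 3), (nat_lit 0), [], [], [⟨(nat_lit 0), (nat_lit 100), (nat_lit 91), (nat_lit 23), (nat_lit 44672264)⟩],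 [⟨(nat_lit 0), (nat_lit 100), (nat_lit 82), (nat_lit 44), (nat_lit 22083681)⟩],
 ⟨⟨[(nat_lit 40), (nat_lit 80), (nat_lit 100)], [(nat_lit 0), (nat_lit 2514), (nat_lit 3562)], [((nat_lit 0), (nat_lit 0), (nat_lit 0)), ((nat_lit 1000), (nat_lit 446), (nat_lit 804)), ((nat_lit 1000), (nat_lit 443), (nat_lit 819))], ((nat_lit 44), (nat_lit 100), (nat_lit 84))⟩, (nat_lit 687286), (nat_lit 142), (nat_lit 142), (nat_lit 0), (nat_lit 0), [(nat_lit 1663208008), (nat_lit 2829426972), (nat_lit 3457348800)], [(nat_lit 0), (nat_lit 0), (nat_lit 0)], [(nat_lit 26504130305), (nat_lit 27268762689), (nat_lit 28379439332), (nat_lit 29070573110), (nat_lit 25537274198), (nat_lit 26055466045), (nat_lit 27076421740), (nat_lit 27691135662)], (nat_lit 0), (nat_lit 0), (nat_lit 0), (nat_lit 0), (nat_lit 0), (nat_lit 0), [], [(nat_lit 3), (nat_lit 50), (nat_lit 249), (nat_lit 40), (nat_lit 8)]⟩,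
 ⟨⟨[(nat_lit 60), (nat_lit 120), (nat_lit 160)], [(nat_lit 0), (nat_lit 0), (nat_lit 3243)], [((nat_lit 0), (nat_lit 0), (nat_lit 0)), ((nat_lit 0), (nat_lit 0), (nat_lit 0)), ((nat_lit 878), (nat_lit 1000), (nat_lit 945))], ((nat_lit 100), (nat_lit 92), (nat_lit 90))⟩, (nat_lit 1069799), (nat_lit 558), (nat_lit 558), (nat_lit 0), (nat_lit 702755), [(nat_lit 2192376000), (nat_lit 5322624000), (nat_lit 7930496000)], [], [(nat_lit 25216893445), (nat_lit 25647642267), (nat_lit 25647642267), (nat_lit 26318762587), (nat_lit 21539034389), (nat_lit 22045269260), (nat_lit 22045269260), (nat_lit 22474292604)], (nat_lit 1271251), (nat_lit 1271251), (nat_lit 1271251), (nat_lit 1271251), (nat_lit 0), (nat_lit 780000), [(nat_lit 780000), (nat_lit 1762501), (nat_lit 1271251)], [(nat_lit 12), (nat_lit 59), (nat_lit 428), (nat_lit 200), (nat_lit 10)]⟩,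
 Rw.none⟩) (.trZ (nat_lit 0) (nat_lit 2) (nat_lit 4) (nat_lit 100) (nat_lit 34) (nat_lit 81) (nat_lit 60) (.leaf ⟨(nat_lit 774), (nat_lit 226), (nat_lit 0), (nat_lit 0), (nat_lit 0), (nat_lit 3343), (nat_lit 2029), (nat_lit 0), (nat_lit 0), (nat_lit 0), (nat_lit 193500), [((nat_lit 400), [((nat_lit 29), (nat_lit 0), (nat_lit 774))])], ⟨(nat_lit 7), false, true, false, (nat_lit 300), (nat_lit 0), (nat_lit 1582), [(nat_lit 1702515), (nat_lit 1699984), (nat_lit 1747842), (nat_lit 1748680), (nat_lit 1757165), (nat_lit 1749998), (nat_lit 1803773), (nat_lit 1799976)]⟩, ⟨(nat_lit 3), false, false, false, (nat_lit 123), (nat_lit 0), (nat_lit 1582), [(nat_lit 1213552), (nat_lit 1223038), (nat_lit 1258869), (nat_lit 1271724), (nat_lit 1352101), (nat_lit 1349997), (nat_lit 1398733), (nat_lit 1399999)]⟩, (nat_lit 4720267), (nat_lit 38919448), (nat_lit 22599008), (nat_lit 5481544), (nat_lit 3), (nat_lit 0), [⟨(nat_lit 1), (nat_lit 85), (nat_lit 26), (nat_lit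 100), (nat_lit 80524772)⟩], [⟨(nat_lit 1), (nat_lit 100), (nat_lit 22), (nat_lit 96), (nat_lit 88442095)⟩], [], [⟨(nat_lit 0), (nat_lit 100), (nat_lit 82), (nat_lit 44), (nat_lit 24871502)⟩],
 ⟨⟨[(nat_lit 40), (nat_lit 60), (nat_lit 80)], [(nat_lit 0), (nat_lit 2136), (nat_lit 3185)], [((nat_lit 0), (nat_lit 0), (nat_lit 0)), ((nat_lit 1000), (nat_lit 343), (nat_lit 808)), ((nat_lit 1000), (nat_lit 338), (nat_lit 820))], ((nat_lit 32), (nat_lit 100), (nat_lit 86))⟩, (nat_lit 144518), (nat_lit 114), (nat_lit 114), (nat_lit 0), (nat_lit 0), [(nat_lit 1616264847), (nat_lit 1659915905), (nat_lit 2124821600)], [(nat_lit 0), (nat_lit 0), (nat_lit 0)], [(nat_lit 26310040978), (nat_lit 27046948348), (nat_lit 28073537419), (nat_lit 28741017237), (nat_lit 26228386275), (nat_lit 26765501673), (nat_lit 27594543764), (nat_lit 28087981529)], (nat_lit 0), (nat_lit 0), (nat_lit 0), (nat_lit 0), (nat_lit 0), (nat_lit 0), [], [(nat_lit 2), (nat_lit 44), (nat_lit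 249), (nat_lit 40), (nat_lit 9)]⟩,
 ⟨⟨[(nat_lit 60), (nat_lit 120), (nat_lit 160)], [(nat_lit 0), (nat_lit 0), (nat_lit 3243)], [((nat_lit 0), (nat_lit 0), (nat_lit 0)), ((nat_lit 0), (nat_lit 0), (nat_lit 0)), ((nat_lit 878), (nat_lit 1000), (nat_lit 945))], ((nat_lit 100), (nat_lit 92), (nat_lit 90))⟩, (nat_lit 353381), (nat_lit 597), (nat_lit 597), (nat_lit 0), (nat_lit 807548), [(nat_lit 741732000), (nat_lit 1800768000), (nat_lit 2683072000)], [], [(nat_lit 8623541606), (nat_lit 8769585869), (nat_lit 8769585869), (nat_lit 8915399933), (nat_lit 7395277116), (nat_lit 7538308414), (nat_lit 7538308414), (nat_lit 7683738166)], (nat_lit 1271251), (nat_lit 1271251), (nat_lit 1271251), (nat_lit 1271251), (nat_lit 0), (nat_lit 780000), [(nat_lit 780000), (nat_lit 1762501), (nat_lit 1271251)], [(nat_lit 12), (nat_lit 59), (nat_lit 428), (nat_lit 200), (nat_lit 10)]⟩,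
 Rw.none⟩)))
noncomputable def c14_58 : Tr Lf :=
 (.spl (nat_lit 0) (nat_lit 390) (.spl (nat_lit 5) (nat_lit 240) (.leaf ⟨(nat_lit 559), (nat_lit 378), (nat_lit 0), (nat_lit 63), (nat_lit 0), (nat_lit 3090), (nat_lit 3549), (nat_lit 735), (nat_lit 0), (nat_lit 0), (nat_lit 335400), [((nat_lit 390), [((nat_lit 43), (nat_lit 2), (nat_lit 559))])], ⟨(nat_lit 7), false, true, false, (nat_lit 302), (nat_lit 1581), (nat_lit 2237), [(nat_lit 1705117), (nat_lit 1702521), (nat_lit 1750574), (nat_lit 1749059), (nat_lit 1762142), (nat_lit 1757166), (nat_lit 1807675), (nat_lit 1803781)]⟩, ⟨(nat_lit 3), false, false, false, (nat_lit 116), (nat_lit 1581), (nat_lit 2237), [(nat_lit 1180680), (nat_lit 1188036), (nat_lit 1226138), (nat_lit 1234575), (nat_lit 1351886), (nat_lit 1352103), (nat_lit 1397434), (nat_lit 1398733)]⟩, (nat_lit 4650827), (nat_lit 39104572), (nat_lit 22862113), (nat_lit 5033315), (nat_lit 3), (nat_lit 0), [], [], [], [],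
 ⟨⟨[(nat_lit 40), (nat_lit 80), (nat_lit 100)], [(nat_lit 0), (nat_lit 2514), (nat_lit 3562)], [((nat_lit 0), (nat_lit 0), (nat_lit 0)), ((nat_lit 1000), (nat_lit 446), (nat_lit 804)), ((nat_lit 1000), (nat_lit 443), (nat_lit 819))], ((nat_lit 44), (nat_lit 100), (nat_lit 84))⟩, (nat_lit 129127), (nat_lit 142), (nat_lit 142), (nat_lit 0), (nat_lit 0), [(nat_lit 1571046002), (nat_lit 1379580732), (nat_lit 1547915600)], [(nat_lit 0), (nat_lit 0), (nat_lit 0)], [(nat_lit 26159059608), (nat_lit 26712521413), (nat_lit 27613362808), (nat_lit 28145051900), (nat_lit 26000086133), (nat_lit 26490525491), (nat_lit 27304531218), (nat_lit 27756696223)], (nat_lit 0), (nat_lit 0), (nat_lit 0), (nat_lit 0), (nat_lit 0), (nat_lit 0), [], [(nat_lit 3), (nat_lit 50), (nat_lit 249), (nat_lit 40), (nat_lit 8)]⟩,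
 ⟨⟨[(nat_lit 60), (nat_lit 120), (nat_lit 160)], [(nat_lit 0), (nat_lit 0), (nat_lit 3243)], [((nat_lit 0), (nat_lit 0), (nat_lit 0)), ((nat_lit 0), (nat_lit 0), (nat_lit 0)), ((nat_lit 878), (nat_lit 1000), (nat_lit 945))], ((nat_lit 100), (nat_lit 92), (nat_lit 90))⟩, (nat_lit 705175), (nat_lit 526), (nat_lit 526), (nat_lit 0), (nat_lit 827618), [(nat_lit 1447362000), (nat_lit 3513888000), (nat_lit 5235552000)], [], [(nat_lit 14879185895), (nat_lit 15281073531), (nat_lit 15281073531), (nat_lit 15623279451), (nat_lit 14546207049), (nat_lit 14837409387), (nat_lit 14837409387), (nat_lit 15160927068)], (nat_lit 1271251), (nat_lit 1271251), (nat_lit 1271251), (nat_lit 1271251), (nat_lit 780000), (nat_lit 1762501), [(nat_lit 780000), (nat_lit 1762501), (nat_lit 1271251)], [(nat_lit 12), (nat_lit 59), (nat_lit 456), (nat_lit 225), (nat_lit 11)]⟩,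
 ⟨⟨[(nat_lit 140), (nat_lit 180), (nat_lit 200)], [(nat_lit 0), (nat_lit 0), (nat_lit 2835)], [((nat_lit 0), (nat_lit 0), (nat_lit 0)), ((nat_lit 0), (nat_lit 0), (nat_lit 0)), ((nat_lit 363), (nat_lit 1000), (nat_lit 798))], ((nat_lit 0), (nat_lit 0), (nat_lit 0))⟩, (nat_lit 17333), (nat_lit 300), (nat_lit 2300), (nat_lit 4920305), (nat_lit 3878636), [(nat_lit 620046000), (nat_lit 885654000), (nat_lit 1033200000)], [], [(nat_lit 4557584432), (nat_lit 4434163022), (nat_lit 4093213028), (nat_lit 3973525376), (nat_lit 4241185966), (nat_lit 4119269668), (nat_lit 3777699284), (nat_lit 4115641656)], (nat_lit 780000), (nat_lit 1100000), (nat_lit 230000), (nat_lit 1100000), (nat_lit 780000), (nat_lit 1762501), [(nat_lit 1977501), (nat_lit 1271251), (nat_lit 1271251)], [(nat_lit 32), (nat_lit 67), (nat_lit 645), (nat_lit 150), (nat_lit 14)]⟩⟩) (.spl (nat_lit 0) (nat_lit 385) (.leaf ⟨(nat_lit 706), (nat_lit 255), (nat_lit 0), (nat_lit 39), (nat_lit 0),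 (nat_lit 3224), (nat_lit 2467), (nat_lit 517), (nat_lit 0), (nat_lit 0), (nat_lit 370000), [((nat_lit 385), [((nat_lit 29), (nat_lit 1), (nat_lit 268)), ((nat_lit 43), (nat_lit 2), (nat_lit 438))])], ⟨(nat_lit 7), false, true, false, (nat_lit 302), (nat_lit 1936), (nat_lit 2237), [(nat_lit 1705125), (nat_lit 1703818), (nat_lit 1750656), (nat_lit 1749823), (nat_lit 1762142), (nat_lit 1759709), (nat_lit 1807688), (nat_lit 1805728)]⟩, ⟨(nat_lit 3), false, false, false, (nat_lit 116), (nat_lit 1936), (nat_lit 2237), [(nat_lit 1180811), (nat_lit 1184371), (nat_lit 1226342), (nat_lit 1230374), (nat_lit 1351886), (nat_lit 1352066), (nat_lit 1397434), (nat_lit 1398088)]⟩, (nat_lit 4647279), (nat_lit 39093865), (nat_lit 22900871), (nat_lit 5005264), (nat_lit 6), (nat_lit 0), [], [], [⟨(nat_lit 1), (nat_lit 77), (nat_lit 91), (nat_lit 100), (nat_lit 45563178)⟩], [⟨(nat_lit 1), (nat_lit 97), (nat_lit 98), (nat_lit 100), (nat_lit 31726233)⟩],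
 ⟨⟨[(nat_lit 40), (nat_lit 80), (nat_lit 100)], [(nat_lit 0), (nat_lit 2514), (nat_lit 3562)], [((nat_lit 0), (nat_lit 0), (nat_lit 0)), ((nat_lit 1000), (nat_lit 446), (nat_lit 804)), ((nat_lit 1000), (nat_lit 443), (nat_lit 819))], ((nat_lit 44), (nat_lit 100), (nat_lit 84))⟩, (nat_lit 1176), (nat_lit 140), (nat_lit 140), (nat_lit 0), (nat_lit 0), [(nat_lit 1512650406), (nat_lit 953510650), (nat_lit 915911200)], [(nat_lit 0), (nat_lit 0), (nat_lit 0)], [(nat_lit 25948980270), (nat_lit 26315328205), (nat_lit 27772502148), (nat_lit 28104340219), (nat_lit 25615642902), (nat_lit 25865062258), (nat_lit 26932356558), (nat_lit 27162063392)], (nat_lit 0), (nat_lit 0), (nat_lit 0), (nat_lit 0), (nat_lit 0), (nat_lit 0), [], [(nat_lit 3), (nat_lit 50), (nat_lit 249), (nat_lit 40), (nat_lit 8)]⟩,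
 ⟨⟨[(nat_lit 60), (nat_lit 120), (nat_lit 160)], [(nat_lit 0), (nat_lit 0), (nat_lit 3243)], [((nat_lit 0), (nat_lit 0), (nat_lit 0)), ((nat_lit 0), (nat_lit 0), (nat_lit 0)), ((nat_lit 878), (nat_lit 1000), (nat_lit 945))], ((nat_lit 100), (nat_lit 92), (nat_lit 90))⟩, (nat_lit 451635), (nat_lit 433), (nat_lit 433), (nat_lit 0), (nat_lit 775141), [(nat_lit 964908000), (nat_lit 2342592000), (nat_lit 3490368000)], [], [(nat_lit 9441446586), (nat_lit 9634049611), (nat_lit 9634049611), (nat_lit 9792499331), (nat_lit 10218232882), (nat_lit 10360980984), (nat_lit 10360980984), (nat_lit 10473470294)], (nat_lit 1271251), (nat_lit 1271251), (nat_lit 1271251), (nat_lit 1271251), (nat_lit 1271251), (nat_lit 1271251), [(nat_lit 780000), (nat_lit 1762501), (nat_lit 1271251)], [(nat_lit 12), (nat_lit 59), (nat_lit 538), (nat_lit 300), (nat_lit 12)]⟩,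
 ⟨⟨[(nat_lit 140), (nat_lit 180), (nat_lit 200)], [(nat_lit 0), (nat_lit 0), (nat_lit 2835)], [((nat_lit 0), (nat_lit 0), (nat_lit 0)), ((nat_lit 0), (nat_lit 0), (nat_lit 0)), ((nat_lit 363), (nat_lit 1000), (nat_lit 798))], ((nat_lit 0), (nat_lit 0), (nat_lit 0))⟩, (nat_lit 10730), (nat_lit 300), (nat_lit 2104), (nat_lit 3045903), (nat_lit 3617398), [(nat_lit 383838000), (nat_lit 548262000), (nat_lit 639600000)], [], [(nat_lit 2462744882), (nat_lit 2377790576), (nat_lit 2106065192), (nat_lit 2024448180), (nat_lit 2469923131), (nat_lit 2382493800), (nat_lit 2086409839), (nat_lit 2000300415)], (nat_lit 780000), (nat_lit 1100000), (nat_lit 230000), (nat_lit 1100000), (nat_lit 1271251), (nat_lit 1271251), [(nat_lit 1977501), (nat_lit 1271251), (nat_lit 1271251)], [(nat_lit 32), (nat_lit 67), (nat_lit 613), (nat_lit 175), (nat_lit 13)]⟩⟩) (.trZ (nat_lit 0) (nat_lit 2) (nat_lit 4) (nat_lit 100) (nat_lit 41) (nat_lit 76) (nat_lit 50) (.leaf ⟨(nat_lit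 783), (nat_lit 187), (nat_lit 0), (nat_lit 30), (nat_lit 0), (nat_lit 3273), (nat_lit 1826), (nat_lit 379), (nat_lit 0), (nat_lit 0), (nat_lit 271800), [((nat_lit 390), [((nat_lit 29), (nat_lit 0), (nat_lit 276)), ((nat_lit 29), (nat_lit 1), (nat_lit 507))])], ⟨(nat_lit 7), false, true, false, (nat_lit 302), (nat_lit 1581), (nat_lit 1937), [(nat_lit 1703818), (nat_lit 1702528), (nat_lit 1749811), (nat_lit 1749129), (nat_lit 1759709), (nat_lit 1757166), (nat_lit 1805728), (nat_lit 1803793)]⟩, ⟨(nat_lit 3), false, false, false, (nat_lit 120), (nat_lit 1581), (nat_lit 1937), [(nat_lit 1198326), (nat_lit 1201810), (nat_lit 1244318), (nat_lit 1248410), (nat_lit 1352066), (nat_lit 1352103), (nat_lit 1398088), (nat_lit 1398733)]⟩, (nat_lit 4684181), (nat_lit 38991266), (nat_lit 22771271), (nat_lit 5237463), (nat_lit 6), (nat_lit 0), [], [], [⟨(nat_lit 1), (nat_lit 77), (nat_lit 91), (nat_lit 100), (nat_lit 30460245)⟩], [⟨(nat_lit 1), (nat_lit 97), (nat_lit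 98), (nat_lit 100), (nat_lit 12277095)⟩, ⟨(nat_lit 1), (nat_lit 97), (nat_lit 98), (nat_lit 100), (nat_lit 12277095)⟩],
 ⟨⟨[(nat_lit 40), (nat_lit 60), (nat_lit 80)], [(nat_lit 0), (nat_lit 1803), (nat_lit 2780)], [((nat_lit 0), (nat_lit 0), (nat_lit 0)), ((nat_lit 1000), (nat_lit 417), (nat_lit 754)), ((nat_lit 1000), (nat_lit 413), (nat_lit 764))], ((nat_lit 39), (nat_lit 100), (nat_lit 85))⟩, (nat_lit 0), (nat_lit 116), (nat_lit 116), (nat_lit 0), (nat_lit 0), [(nat_lit 1529786804), (nat_lit 1299227445), (nat_lit 1497365600)], [(nat_lit 0), (nat_lit 0), (nat_lit 0)], [(nat_lit 26117129311), (nat_lit 26483982873), (nat_lit 27908980464), (nat_lit 28241297280), (nat_lit 25777372254), (nat_lit 26043513509), (nat_lit 27158181145), (nat_lit 27404248067)], (nat_lit 0), (nat_lit 0), (nat_lit 0), (nat_lit 0), (nat_lit 0), (nat_lit 0), [], [(nat_lit 2), (nat_lit 44), (nat_lit 249), (nat_lit 40), (nat_lit 9)]⟩,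
 ⟨⟨[(nat_lit 60), (nat_lit 120), (nat_lit 160)], [(nat_lit 0), (nat_lit 0), (nat_lit 3243)], [((nat_lit 0), (nat_lit 0), (nat_lit 0)), ((nat_lit 0), (nat_lit 0), (nat_lit 0)), ((nat_lit 878), (nat_lit 1000), (nat_lit 945))], ((nat_lit 100), (nat_lit 92), (nat_lit 90))⟩, (nat_lit 322482), (nat_lit 484), (nat_lit 484), (nat_lit 0), (nat_lit 827099), [(nat_lit 712194000), (nat_lit 1729056000), (nat_lit 2576224000)], [], [(nat_lit 6987916487), (nat_lit 7129998222), (nat_lit 7129998222), (nat_lit 7246813162), (nat_lit 7526330273), (nat_lit 7631527901), (nat_lit 7631527901), (nat_lit 7735206198)], (nat_lit 1271251), (nat_lit 1271251), (nat_lit 1271251), (nat_lit 1271251), (nat_lit 1271251), (nat_lit 1271251), [(nat_lit 780000), (nat_lit 1762501), (nat_lit 1271251)], [(nat_lit 12), (nat_lit 59), (nat_lit 538), (nat_lit 300), (nat_lit 12)]⟩,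
 ⟨⟨[(nat_lit 140), (nat_lit 180), (nat_lit 200)], [(nat_lit 0), (nat_lit 0), (nat_lit 2835)], [((nat_lit 0), (nat_lit 0), (nat_lit 0)), ((nat_lit 0), (nat_lit 0), (nat_lit 0)), ((nat_lit 363), (nat_lit 1000), (nat_lit 798))], ((nat_lit 0), (nat_lit 0), (nat_lit 0))⟩, (nat_lit 8254), (nat_lit 300), (nat_lit 2234), (nat_lit 2343000), (nat_lit 3878636), [(nat_lit 295260000), (nat_lit 421740000), (nat_lit 492000000)], [], [(nat_lit 1897001694), (nat_lit 1833198231), (nat_lit 1675060700), (nat_lit 1613047108), (nat_lit 1890652865), (nat_lit 1824513282), (nat_lit 1653244755), (nat_lit 1589462366)], (nat_lit 780000), (nat_lit 1100000), (nat_lit 292188), (nat_lit 1100000), (nat_lit 1271251), (nat_lit 1271251), [(nat_lit 1977501), (nat_lit 1271251), (nat_lit 1271251)], [(nat_lit 32), (nat_lit 67), (nat_lit 645), (nat_lit 175), (nat_lit 13)]⟩⟩)))) (.trZ (nat_lit 0) (nat_lit 2) (nat_lit 4) (nat_lit 100) (nat_lit 34) (nat_lit 81) (nat_lit 60) (.stt (nat_lit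 3) (.leaf ⟨(nat_lit 846), (nat_lit 84), (nat_lit 0), (nat_lit 70), (nat_lit 0), (nat_lit 3142), (nat_lit 1471), (nat_lit 1476), (nat_lit 0), (nat_lit 0), (nat_lit 211500), [((nat_lit 400), [((nat_lit 29), (nat_lit 0), (nat_lit 846))])], ⟨(nat_lit 7), false, true, false, (nat_lit 300), (nat_lit 0), (nat_lit 1582), [(nat_lit 1702515), (nat_lit 1699984), (nat_lit 1747842), (nat_lit 1748680), (nat_lit 1757165), (nat_lit 1749998), (nat_lit 1803773), (nat_lit 1799976)]⟩, ⟨(nat_lit 3), true, false, false, (nat_lit 123), (nat_lit 0), (nat_lit 1582), [(nat_lit 1213552), (nat_lit 1223038), (nat_lit 1258869), (nat_lit 1271724), (nat_lit 1352101), (nat_lit 1349997), (nat_lit 1398733), (nat_lit 1399999)]⟩, (nat_lit 4720267), (nat_lit 38919448), (nat_lit 22599008), (nat_lit 5481544), (nat_lit 3), (nat_lit 0), [⟨(nat_lit 1), (nat_lit 85), (nat_lit 26), (nat_lit 100), (nat_lit 2123317)⟩], [⟨(nat_lit 0), (nat_lit 100), (nat_lit 23), (nat_lit 91), (nat_lit 187951875)⟩],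 [], [],
 ⟨⟨[(nat_lit 40), (nat_lit 60), (nat_lit 80)], [(nat_lit 0), (nat_lit 2136), (nat_lit 3185)], [((nat_lit 0), (nat_lit 0), (nat_lit 0)), ((nat_lit 1000), (nat_lit 343), (nat_lit 808)), ((nat_lit 1000), (nat_lit 338), (nat_lit 820))], ((nat_lit 32), (nat_lit 100), (nat_lit 86))⟩, (nat_lit 57458), (nat_lit 114), (nat_lit 114), (nat_lit 0), (nat_lit 0), [(nat_lit 1599359201), (nat_lit 1482142594), (nat_lit 1886386400)], [(nat_lit 0), (nat_lit 0), (nat_lit 0)], [(nat_lit 26318858490), (nat_lit 26902475358), (nat_lit 27803607597), (nat_lit 28338804378), (nat_lit 26447803828), (nat_lit 26971041935), (nat_lit 27794208092), (nat_lit 28275605687)], (nat_lit 0), (nat_lit 0), (nat_lit 0), (nat_lit 0), (nat_lit 0), (nat_lit 0), [], [(nat_lit 2), (nat_lit 44), (nat_lit 249), (nat_lit 40), (nat_lit 9)]⟩,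
 ⟨⟨[(nat_lit 60), (nat_lit 120), (nat_lit 160)], [(nat_lit 0), (nat_lit 0), (nat_lit 3243)], [((nat_lit 0), (nat_lit 0), (nat_lit 0)), ((nat_lit 0), (nat_lit 0), (nat_lit 0)), ((nat_lit 878), (nat_lit 1000), (nat_lit 945))], ((nat_lit 100), (nat_lit 92), (nat_lit 90))⟩, (nat_lit 234799), (nat_lit 575), (nat_lit 575), (nat_lit 0), (nat_lit 953685), [(nat_lit 505428000), (nat_lit 1227072000), (nat_lit 1828288000)], [], [(nat_lit 4713186534), (nat_lit 4793314879), (nat_lit 4793314879), (nat_lit 4891184794), (nat_lit 5127665560), (nat_lit 5418084110), (nat_lit 5418084110), (nat_lit 5672765999)], (nat_lit 1271251), (nat_lit 1271251), (nat_lit 1271251), (nat_lit 1271251), (nat_lit 780000), (nat_lit 2826876), [(nat_lit 780000), (nat_lit 1762501), (nat_lit 1271251)], [(nat_lit 12), (nat_lit 59), (nat_lit 538), (nat_lit 300), (nat_lit 13)]⟩,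
 ⟨⟨[(nat_lit 140), (nat_lit 180), (nat_lit 200)], [(nat_lit 0), (nat_lit 0), (nat_lit 2835)], [((nat_lit 0), (nat_lit 0), (nat_lit 0)), ((nat_lit 0), (nat_lit 0), (nat_lit 0)), ((nat_lit 363), (nat_lit 1000), (nat_lit 798))], ((nat_lit 0), (nat_lit 0), (nat_lit 0))⟩, (nat_lit 19259), (nat_lit 300), (nat_lit 415), (nat_lit 5467004), (nat_lit 0), [(nat_lit 688940000), (nat_lit 984060000), (nat_lit 1148000000)], [], [(nat_lit 4320033487), (nat_lit 4091179616), (nat_lit 3486391584), (nat_lit 3266457048), (nat_lit 4413481162), (nat_lit 4178540757), (nat_lit 3521320699), (nat_lit 3299533066)], (nat_lit 0), (nat_lit 0), (nat_lit 0), (nat_lit 0), (nat_lit 0), (nat_lit 0), [], [(nat_lit 32), (nat_lit 67), (nat_lit 401), (nat_lit 175), (nat_lit 9)]⟩⟩) (.spl (nat_lit 1) (nat_lit 300) (.spl (nat_lit 0) (nat_lit 395) (.leaf ⟨(nat_lit 802), (nat_lit 167), (nat_lit 0), (nat_lit 31), (nat_lit 0), (nat_lit 3494), (nat_lit 1643), (nat_lit 322), (nat_lit 0), (nat_lit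 0), (nat_lit 200500), [((nat_lit 395), [((nat_lit 29), (nat_lit 0), (nat_lit 802))])], ⟨(nat_lit 7), false, true, true, (nat_lit 296), (nat_lit 1118), (nat_lit 1582), [(nat_lit 1702528), (nat_lit 1701254), (nat_lit 1725811), (nat_lit 1724973), (nat_lit 1757166), (nat_lit 1754383), (nat_lit 1780481), (nat_lit 1778134)]⟩, ⟨(nat_lit 3), false, false, false, (nat_lit 123), (nat_lit 1118), (nat_lit 1582), [(nat_lit 1215422), (nat_lit 1218958), (nat_lit 1261986), (nat_lit 1266394), (nat_lit 1352103), (nat_lit 1351868), (nat_lit 1398733), (nat_lit 1399370)]⟩, (nat_lit 4707250), (nat_lit 39287857), (nat_lit 22207076), (nat_lit 5505067), (nat_lit 3), (nat_lit 0), [], [], [⟨(nat_lit 1), (nat_lit 73), (nat_lit 94), (nat_lit 100), (nat_lit 9755515)⟩], [⟨(nat_lit 1), (nat_lit 94), (nat_lit 97), (nat_lit 100), (nat_lit 12080553)⟩],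
 ⟨⟨[(nat_lit 40), (nat_lit 60), (nat_lit 80)], [(nat_lit 0), (nat_lit 2136), (nat_lit 3185)], [((nat_lit 0), (nat_lit 0), (nat_lit 0)), ((nat_lit 1000), (nat_lit 343), (nat_lit 808)), ((nat_lit 1000), (nat_lit 338), (nat_lit 820))], ((nat_lit 32), (nat_lit 100), (nat_lit 86))⟩, (nat_lit 31018), (nat_lit 112), (nat_lit 112), (nat_lit 0), (nat_lit 0), [(nat_lit 1609690410), (nat_lit 1740646292), (nat_lit 2032096800)], [(nat_lit 0), (nat_lit 0), (nat_lit 0)], [(nat_lit 26573793367), (nat_lit 26950388326), (nat_lit 28361683848), (nat_lit 28702430497), (nat_lit 26342234701), (nat_lit 26616005015), (nat_lit 27723231677), (nat_lit 27974769718)], (nat_lit 0), (nat_lit 0), (nat_lit 0), (nat_lit 0), (nat_lit 0), (nat_lit 0), [], [(nat_lit 2), (nat_lit 44), (nat_lit 249), (nat_lit 40), (nat_lit 9)]⟩,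
 ⟨⟨[(nat_lit 60), (nat_lit 120), (nat_lit 160)], [(nat_lit 0), (nat_lit 0), (nat_lit 3243)], [((nat_lit 0), (nat_lit 0), (nat_lit 0)), ((nat_lit 0), (nat_lit 0), (nat_lit 0)), ((nat_lit 878), (nat_lit 1000), (nat_lit 945))], ((nat_lit 100), (nat_lit 92), (nat_lit 90))⟩, (nat_lit 269578), (nat_lit 490), (nat_lit 490), (nat_lit 0), (nat_lit 733029), [(nat_lit 649836000), (nat_lit 1577664000), (nat_lit 2350656000)], [], [(nat_lit 6695399286), (nat_lit 6785853358), (nat_lit 6876307430), (nat_lit 6953019416), (nat_lit 6992995766), (nat_lit 7022631909), (nat_lit 7052268053), (nat_lit 7073273158)], (nat_lit 1271251), (nat_lit 1271251), (nat_lit 1271251), (nat_lit 1271251), (nat_lit 780000), (nat_lit 2826876), [(nat_lit 780000), (nat_lit 1762501), (nat_lit 1271251)], [(nat_lit 12), (nat_lit 59), (nat_lit 483), (nat_lit 250), (nat_lit 11)]⟩,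
 ⟨⟨[(nat_lit 140), (nat_lit 180), (nat_lit 200)], [(nat_lit 0), (nat_lit 0), (nat_lit 2835)], [((nat_lit 0), (nat_lit 0), (nat_lit 0)), ((nat_lit 0), (nat_lit 0), (nat_lit 0)), ((nat_lit 363), (nat_lit 1000), (nat_lit 798))], ((nat_lit 0), (nat_lit 0), (nat_lit 0))⟩, (nat_lit 8529), (nat_lit 300), (nat_lit 2179), (nat_lit 2421102), (nat_lit 3675690), [(nat_lit 305102000), (nat_lit 435798000), (nat_lit 508400000)], [], [(nat_lit 2651378953), (nat_lit 2606879941), (nat_lit 2530624694), (nat_lit 2486725756), (nat_lit 2419956568), (nat_lit 2376097724), (nat_lit 2364554400), (nat_lit 2529399503)], (nat_lit 780000), (nat_lit 1100000), (nat_lit 356250), (nat_lit 1100000), (nat_lit 780000), (nat_lit 2826876), [(nat_lit 1977501), (nat_lit 1271251), (nat_lit 1271251)], [(nat_lit 32), (nat_lit 67), (nat_lit 631), (nat_lit 175), (nat_lit 13)]⟩⟩) (.trZ (nat_lit 0) (nat_lit 2) (nat_lit 4) (nat_lit 100) (nat_lit 24) (nat_lit 88) (nat_lit 80) (.leaf ⟨(nat_lit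 778), (nat_lit 187), (nat_lit 0), (nat_lit 35), (nat_lit 0), (nat_lit 3186), (nat_lit 1858), (nat_lit 364), (nat_lit 0), (nat_lit 0), (nat_lit 194500), [((nat_lit 400), [((nat_lit 29), (nat_lit 0), (nat_lit 778))])], ⟨(nat_lit 7), false, true, true, (nat_lit 295), (nat_lit 0), (nat_lit 1119), [(nat_lit 1701253), (nat_lit 1699996), (nat_lit 1724541), (nat_lit 1724533), (nat_lit 1754382), (nat_lit 1749998), (nat_lit 1778134), (nat_lit 1774999)]⟩, ⟨(nat_lit 3), false, false, false, (nat_lit 129), (nat_lit 0), (nat_lit 1119), [(nat_lit 1244686), (nat_lit 1249071), (nat_lit 1291258), (nat_lit 1298141), (nat_lit 1351866), (nat_lit 1349997), (nat_lit 1399370), (nat_lit 1399999)]⟩, (nat_lit 4766594), (nat_lit 39085240), (nat_lit 22014613), (nat_lit 5900147), (nat_lit 3), (nat_lit 0), [⟨(nat_lit 1), (nat_lit 91), (nat_lit 18), (nat_lit 100), (nat_lit 211989166)⟩], [⟨(nat_lit 1), (nat_lit 100), (nat_lit 16), (nat_lit 96), (nat_lit 220966108)⟩], [⟨(nat_lit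 1), (nat_lit 73), (nat_lit 94), (nat_lit 100), (nat_lit 24147168)⟩], [],
 ⟨⟨[(nat_lit 40), (nat_lit 60), (nat_lit 80)], [(nat_lit 0), (nat_lit 2600), (nat_lit 3731)], [((nat_lit 0), (nat_lit 0), (nat_lit 0)), ((nat_lit 1000), (nat_lit 245), (nat_lit 872)), ((nat_lit 1000), (nat_lit 240), (nat_lit 884))], ((nat_lit 24), (nat_lit 100), (nat_lit 89))⟩, (nat_lit 207603), (nat_lit 102), (nat_lit 102), (nat_lit 0), (nat_lit 0), [(nat_lit 1615325636), (nat_lit 1735831457), (nat_lit 2111575200)], [(nat_lit 0), (nat_lit 0), (nat_lit 0)], [(nat_lit 25894690297), (nat_lit 26184093003), (nat_lit 27517120932), (nat_lit 27839979000), (nat_lit 26317306194), (nat_lit 26580444155), (nat_lit 27646909279), (nat_lit 27889810664)], (nat_lit 0), (nat_lit 0), (nat_lit 0), (nat_lit 0), (nat_lit 0), (nat_lit 0), [], [(nat_lit 2), (nat_lit 44), (nat_lit 249), (nat_lit 40), (nat_lit 9)]⟩,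
 ⟨⟨[(nat_lit 60), (nat_lit 120), (nat_lit 160)], [(nat_lit 0), (nat_lit 0), (nat_lit 3243)], [((nat_lit 0), (nat_lit 0), (nat_lit 0)), ((nat_lit 0), (nat_lit 0), (nat_lit 0)), ((nat_lit 878), (nat_lit 1000), (nat_lit 945))], ((nat_lit 100), (nat_lit 92), (nat_lit 90))⟩, (nat_lit 314829), (nat_lit 515), (nat_lit 515), (nat_lit 0), (nat_lit 798881), [(nat_lit 728604000), (nat_lit 1768896000), (nat_lit 2635584000)], [], [(nat_lit 7422198822), (nat_lit 7523691964), (nat_lit 7625185105), (nat_lit 7711160425), (nat_lit 7749939070), (nat_lit 7784613684), (nat_lit 7838585884), (nat_lit 7881513937)], (nat_lit 1271251), (nat_lit 1271251), (nat_lit 1271251), (nat_lit 1271251), (nat_lit 780000), (nat_lit 2826876), [(nat_lit 780000), (nat_lit 1762501), (nat_lit 1271251)], [(nat_lit 12), (nat_lit 59), (nat_lit 483), (nat_lit 250), (nat_lit 11)]⟩,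
 ⟨⟨[(nat_lit 140), (nat_lit 180), (nat_lit 200)], [(nat_lit 0), (nat_lit 0), (nat_lit 2835)], [((nat_lit 0), (nat_lit 0), (nat_lit 0)), ((nat_lit 0), (nat_lit 0), (nat_lit 0)), ((nat_lit 363), (nat_lit 1000), (nat_lit 798))], ((nat_lit 0), (nat_lit 0), (nat_lit 0))⟩, (nat_lit 9630), (nat_lit 300), (nat_lit 2318), (nat_lit 2733500), (nat_lit 3962504), [(nat_lit 344470000), (nat_lit 492030000), (nat_lit 574000000)], [], [(nat_lit 3019207315), (nat_lit 2970163345), (nat_lit 2917685679), (nat_lit 2869105886), (nat_lit 2761017995), (nat_lit 2712723154), (nat_lit 2670695776), (nat_lit 2856986762)], (nat_lit 780000), (nat_lit 1100000), (nat_lit 490000), (nat_lit 1100000), (nat_lit 780000), (nat_lit 2826876), [(nat_lit 1977501), (nat_lit 1271251), (nat_lit 1271251)], [(nat_lit 32), (nat_lit 67), (nat_lit 666), (nat_lit 175), (nat_lit 14)]⟩⟩))) (.trX (nat_lit 5) (nat_lit 1) (nat_lit 2) (nat_lit 88) (nat_lit 68) (nat_lit 100) (nat_lit 350) (.leaf ⟨(nat_lit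 454), (nat_lit 546), (nat_lit 0), (nat_lit 0), (nat_lit 0), (nat_lit 3582), (nat_lit 3535), (nat_lit 0), (nat_lit 0), (nat_lit 0), (nat_lit 113500), [((nat_lit 400), [((nat_lit 29), (nat_lit 0), (nat_lit 454))])], ⟨(nat_lit 7), false, true, false, (nat_lit 305), (nat_lit 0), (nat_lit 1582), [(nat_lit 1725184), (nat_lit 1724337), (nat_lit 1747842), (nat_lit 1748680), (nat_lit 1780481), (nat_lit 1774999), (nat_lit 1803773), (nat_lit 1799976)]⟩, ⟨(nat_lit 3), false, false, false, (nat_lit 123), (nat_lit 0), (nat_lit 1582), [(nat_lit 1213552), (nat_lit 1223038), (nat_lit 1258869), (nat_lit 1271724), (nat_lit 1352101), (nat_lit 1349997), (nat_lit 1398733), (nat_lit 1399999)]⟩, (nat_lit 4731834), (nat_lit 38517776), (nat_lit 23038799), (nat_lit 5443425), (nat_lit 3), (nat_lit 0), [], [⟨(nat_lit 1), (nat_lit 100), (nat_lit 22), (nat_lit 96), (nat_lit 28099317)⟩], [⟨(nat_lit 1), (nat_lit 81), (nat_lit 88), (nat_lit 100), (nat_lit 163654509)⟩], [],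
 ⟨⟨[(nat_lit 40), (nat_lit 60), (nat_lit 80)], [(nat_lit 0), (nat_lit 2136), (nat_lit 3185)], [((nat_lit 0), (nat_lit 0), (nat_lit 0)), ((nat_lit 1000), (nat_lit 343), (nat_lit 808)), ((nat_lit 1000), (nat_lit 338), (nat_lit 820))], ((nat_lit 32), (nat_lit 100), (nat_lit 86))⟩, (nat_lit 344934), (nat_lit 114), (nat_lit 114), (nat_lit 0), (nat_lit 0), [(nat_lit 1691400812), (nat_lit 2476102465), (nat_lit 3184533600)], [(nat_lit 0), (nat_lit 0), (nat_lit 0)], [(nat_lit 26727503368), (nat_lit 27490182452), (nat_lit 28529610244), (nat_lit 29219270338), (nat_lit 26490103909), (nat_lit 27043720166), (nat_lit 27879749063), (nat_lit 28389057368)], (nat_lit 0), (nat_lit 0), (nat_lit 0), (nat_lit 0), (nat_lit 0), (nat_lit 0), [], [(nat_lit 2), (nat_lit 44), (nat_lit 249), (nat_lit 40), (nat_lit 9)]⟩,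
 ⟨⟨[(nat_lit 60), (nat_lit 120), (nat_lit 160)], [(nat_lit 0), (nat_lit 913), (nat_lit 3885)], [((nat_lit 0), (nat_lit 0), (nat_lit 0)), ((nat_lit 1000), (nat_lit 905), (nat_lit 238)), ((nat_lit 886), (nat_lit 948), (nat_lit 1000))], ((nat_lit 96), (nat_lit 100), (nat_lit 92))⟩, (nat_lit 1834905), (nat_lit 509), (nat_lit 509), (nat_lit 0), (nat_lit 787042), [(nat_lit 1791972000), (nat_lit 4350528000), (nat_lit 6482112000)], [], [(nat_lit 15677622858), (nat_lit 15990336365), (nat_lit 16266044385), (nat_lit 16541752405), (nat_lit 17008913009), (nat_lit 17173219854), (nat_lit 17313518621), (nat_lit 17701227285)], (nat_lit 1271251), (nat_lit 1271251), (nat_lit 1271251), (nat_lit 1271251), (nat_lit 780000), (nat_lit 2663126), [(nat_lit 780000), (nat_lit 1762501), (nat_lit 1271251)], [(nat_lit 12), (nat_lit 59), (nat_lit 483), (nat_lit 250), (nat_lit 11)]⟩,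
 Rw.none⟩))))))
noncomputable def c14_59 : Tr Lf :=
 (.trZ (nat_lit 0) (nat_lit 2) (nat_lit 4) (nat_lit 100) (nat_lit 44) (nat_lit 81) (nat_lit 70) (.spl (nat_lit 5) (nat_lit 120) (.leaf ⟨(nat_lit 22), (nat_lit 978), (nat_lit 0), (nat_lit 0), (nat_lit 0), (nat_lit 3670), (nat_lit 6255), (nat_lit 0), (nat_lit 0), (nat_lit 0), (nat_lit 88000), [((nat_lit 400), [((nat_lit 43), (nat_lit 5), (nat_lit 22))])], ⟨(nat_lit 7), false, true, false, (nat_lit 301), (nat_lit 0), (nat_lit 2237), [(nat_lit 1705063), (nat_lit 1699935), (nat_lit 1748802), (nat_lit 1748125), (nat_lit 1762141), (nat_lit 1749998), (nat_lit 1807594), (nat_lit 1799902)]⟩, ⟨(nat_lit 4), false, false, false, (nat_lit 139), (nat_lit 0), (nat_lit 2237), [(nat_lit 1265016), (nat_lit 1283365), (nat_lit 1286864), (nat_lit 1307439), (nat_lit 1397434), (nat_lit 1399999), (nat_lit 1419294), (nat_lit 1424084)]⟩, (nat_lit 4879701), (nat_lit 38156047), (nat_lit 22336635), (nat_lit 6507318), (nat_lit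 4), (nat_lit 0), [], [], [], [],
 ⟨⟨[(nat_lit 40), (nat_lit 80), (nat_lit 100)], [(nat_lit 0), (nat_lit 2514), (nat_lit 3562)], [((nat_lit 0), (nat_lit 0), (nat_lit 0)), ((nat_lit 1000), (nat_lit 446), (nat_lit 804)), ((nat_lit 1000), (nat_lit 443), (nat_lit 819))], ((nat_lit 44), (nat_lit 100), (nat_lit 84))⟩, (nat_lit 1091387), (nat_lit 126), (nat_lit 126), (nat_lit 0), (nat_lit 0), [(nat_lit 1823484002), (nat_lit 4160904290), (nat_lit 5224571200)], [(nat_lit 0), (nat_lit 0), (nat_lit 0)], [(nat_lit 25793289956), (nat_lit 27300139360), (nat_lit 27649796455), (nat_lit 29037662265), (nat_lit 25853201223), (nat_lit 26906913040), (nat_lit 27256643396), (nat_lit 28500001080)], (nat_lit 0), (nat_lit 0), (nat_lit 0), (nat_lit 0), (nat_lit 0), (nat_lit 0), [], [(nat_lit 3), (nat_lit 50), (nat_lit 249), (nat_lit 40), (nat_lit 8)]⟩,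
 ⟨⟨[(nat_lit 60), (nat_lit 120), (nat_lit 160)], [(nat_lit 0), (nat_lit 0), (nat_lit 3243)], [((nat_lit 0), (nat_lit 0), (nat_lit 0)), ((nat_lit 0), (nat_lit 0), (nat_lit 0)), ((nat_lit 878), (nat_lit 1000), (nat_lit 945))], ((nat_lit 100), (nat_lit 92), (nat_lit 90))⟩, (nat_lit 1872641), (nat_lit 533), (nat_lit 533), (nat_lit 0), (nat_lit 635235), [(nat_lit 3209796000), (nat_lit 7792704000), (nat_lit 11610816000)], [], [(nat_lit 40047907482), (nat_lit 41312047104), (nat_lit 41312047104), (nat_lit 42426724584), (nat_lit 36999456902), (nat_lit 37862610762), (nat_lit 37862610762), (nat_lit 38844411600)], (nat_lit 1271251), (nat_lit 1271251), (nat_lit 1271251), (nat_lit 1271251), (nat_lit 0), (nat_lit 780000), [(nat_lit 780000), (nat_lit 1762501), (nat_lit 1271251)], [(nat_lit 12), (nat_lit 59), (nat_lit 428), (nat_lit 200), (nat_lit 10)]⟩,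
 Rw.none⟩) (.spl (nat_lit 0) (nat_lit 390) (.leaf ⟨(nat_lit 22), (nat_lit 677), (nat_lit 0), (nat_lit 301), (nat_lit 0), (nat_lit 3368), (nat_lit 8474), (nat_lit 3115), (nat_lit 0), (nat_lit 0), (nat_lit 88000), [((nat_lit 390), [((nat_lit 43), (nat_lit 5), (nat_lit 22))])], ⟨(nat_lit 7), false, true, false, (nat_lit 302), (nat_lit 1581), (nat_lit 2237), [(nat_lit 1705117), (nat_lit 1702521), (nat_lit 1750574), (nat_lit 1749059), (nat_lit 1762142), (nat_lit 1757166), (nat_lit 1807675), (nat_lit 1803781)]⟩, ⟨(nat_lit 4), false, false, false, (nat_lit 139), (nat_lit 1581), (nat_lit 2237), [(nat_lit 1268963), (nat_lit 1275616), (nat_lit 1291693), (nat_lit 1298886), (nat_lit 1397434), (nat_lit 1398733), (nat_lit 1420170), (nat_lit 1422009)]⟩, (nat_lit 4876804), (nat_lit 38112051), (nat_lit 22421732), (nat_lit 6466217), (nat_lit 4), (nat_lit 0), [], [], [], [],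
 ⟨⟨[(nat_lit 40), (nat_lit 80), (nat_lit 100)], [(nat_lit 0), (nat_lit 2514), (nat_lit 3562)], [((nat_lit 0), (nat_lit 0), (nat_lit 0)), ((nat_lit 1000), (nat_lit 446), (nat_lit 804)), ((nat_lit 1000), (nat_lit 443), (nat_lit 819))], ((nat_lit 44), (nat_lit 100), (nat_lit 84))⟩, (nat_lit 1235736), (nat_lit 121), (nat_lit 121), (nat_lit 0), (nat_lit 0), [(nat_lit 1823484001), (nat_lit 4329814492), (nat_lit 5224571200)], [(nat_lit 0), (nat_lit 0), (nat_lit 0)], [(nat_lit 25483010568), (nat_lit 26045473230), (nat_lit 27141258957), (nat_lit 27807350407), (nat_lit 25676649625), (nat_lit 26184514509), (nat_lit 27138148218), (nat_lit 27681403614)], (nat_lit 0), (nat_lit 0), (nat_lit 0), (nat_lit 0), (nat_lit 0), (nat_lit 0), [], [(nat_lit 3), (nat_lit 50), (nat_lit 249), (nat_lit 40), (nat_lit 8)]⟩,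
 ⟨⟨[(nat_lit 60), (nat_lit 120), (nat_lit 160)], [(nat_lit 0), (nat_lit 0), (nat_lit 3243)], [((nat_lit 0), (nat_lit 0), (nat_lit 0)), ((nat_lit 0), (nat_lit 0), (nat_lit 0)), ((nat_lit 878), (nat_lit 1000), (nat_lit 945))], ((nat_lit 100), (nat_lit 92), (nat_lit 90))⟩, (nat_lit 1566871), (nat_lit 433), (nat_lit 433), (nat_lit 0), (nat_lit 676493), [(nat_lit 3209796000), (nat_lit 7792704000), (nat_lit 11610816000)], [], [(nat_lit 31312933626), (nat_lit 32209901267), (nat_lit 32209901267), (nat_lit 32966134931), (nat_lit 33171069505), (nat_lit 33637353662), (nat_lit 33637353662), (nat_lit 35117627755)], (nat_lit 1271251), (nat_lit 1271251), (nat_lit 1271251), (nat_lit 1271251), (nat_lit 780000), (nat_lit 2826876), [(nat_lit 780000), (nat_lit 1762501), (nat_lit 1271251)], [(nat_lit 12), (nat_lit 59), (nat_lit 538), (nat_lit 300), (nat_lit 13)]⟩,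
 ⟨⟨[(nat_lit 120), (nat_lit 160), (nat_lit 200)], [(nat_lit 0), (nat_lit 0), (nat_lit 3198)], [((nat_lit 0), (nat_lit 0), (nat_lit 0)), ((nat_lit 0), (nat_lit 0), (nat_lit 0)), ((nat_lit 572), (nat_lit 1000), (nat_lit 714))], ((nat_lit 0), (nat_lit 0), (nat_lit 0))⟩, (nat_lit 146829), (nat_lit 300), (nat_lit 1254), (nat_lit 22334205), (nat_lit 1802886), [(nat_lit 2398368000), (nat_lit 3573472000), (nat_lit 4936400000)], [], [(nat_lit 21548854857), (nat_lit 21349696881), (nat_lit 20301646128), (nat_lit 20104256838), (nat_lit 19390604761), (nat_lit 19381462724), (nat_lit 21269086447), (nat_lit 22211891108)], (nat_lit 1100000), (nat_lit 1271251), (nat_lit 422188), (nat_lit 1100000), (nat_lit 780000), (nat_lit 2826876), [(nat_lit 1695001), (nat_lit 1271251), (nat_lit 1271251)], [(nat_lit 29), (nat_lit 66), (nat_lit 428), (nat_lit 200), (nat_lit 9)]⟩⟩) (.trZ (nat_lit 0) (nat_lit 2) (nat_lit 4) (nat_lit 100) (nat_lit 32) (nat_lit 89) (nat_lit 100) (.leaf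 ⟨(nat_lit 771), (nat_lit 155), (nat_lit 0), (nat_lit 74), (nat_lit 0), (nat_lit 3037), (nat_lit 1922), (nat_lit 700), (nat_lit 0), (nat_lit 0), (nat_lit 308400), [((nat_lit 400), [((nat_lit 29), (nat_lit 1), (nat_lit 771))])], ⟨(nat_lit 7), false, true, false, (nat_lit 300), (nat_lit 0), (nat_lit 1582), [(nat_lit 1702515), (nat_lit 1699984), (nat_lit 1747842), (nat_lit 1748680), (nat_lit 1757165), (nat_lit 1749998), (nat_lit 1803773), (nat_lit 1799976)]⟩, ⟨(nat_lit 4), false, false, false, (nat_lit 148), (nat_lit 0), (nat_lit 1582), [(nat_lit 1314816), (nat_lit 1323036), (nat_lit 1337475), (nat_lit 1347379), (nat_lit 1398733), (nat_lit 1399999), (nat_lit 1421394), (nat_lit 1424345)]⟩, (nat_lit 4964753), (nat_lit 37775614), (nat_lit 22092080), (nat_lit 7132306), (nat_lit 4), (nat_lit 0), [], [⟨(nat_lit 0), (nat_lit 100), (nat_lit 22), (nat_lit 94), (nat_lit 133804828)⟩], [], [],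
 ⟨⟨[(nat_lit 40), (nat_lit 60), (nat_lit 80)], [(nat_lit 0), (nat_lit 2136), (nat_lit 3185)], [((nat_lit 0), (nat_lit 0), (nat_lit 0)), ((nat_lit 1000), (nat_lit 343), (nat_lit 808)), ((nat_lit 1000), (nat_lit 338), (nat_lit 820))], ((nat_lit 32), (nat_lit 100), (nat_lit 86))⟩, (nat_lit 22649), (nat_lit 96), (nat_lit 96), (nat_lit 0), (nat_lit 0), [(nat_lit 1488674848), (nat_lit 1238703160), (nat_lit 1225901600)], [(nat_lit 0), (nat_lit 0), (nat_lit 0)], [(nat_lit 25515129843), (nat_lit 26069291599), (nat_lit 26993348466), (nat_lit 27611532822), (nat_lit 25890658511), (nat_lit 26406647287), (nat_lit 27226743927), (nat_lit 27701962788)], (nat_lit 0), (nat_lit 0), (nat_lit 0), (nat_lit 0), (nat_lit 0), (nat_lit 0), [], [(nat_lit 2), (nat_lit 44), (nat_lit 249), (nat_lit 40), (nat_lit 9)]⟩,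
 ⟨⟨[(nat_lit 60), (nat_lit 120), (nat_lit 160)], [(nat_lit 0), (nat_lit 0), (nat_lit 3243)], [((nat_lit 0), (nat_lit 0), (nat_lit 0)), ((nat_lit 0), (nat_lit 0), (nat_lit 0)), ((nat_lit 878), (nat_lit 1000), (nat_lit 945))], ((nat_lit 100), (nat_lit 92), (nat_lit 90))⟩, (nat_lit 342645), (nat_lit 508), (nat_lit 508), (nat_lit 0), (nat_lit 778959), [(nat_lit 751578000), (nat_lit 1824672000), (nat_lit 2718688000)], [], [(nat_lit 7583191810), (nat_lit 7792629765), (nat_lit 7792629765), (nat_lit 7969978297), (nat_lit 7957795878), (nat_lit 8068970399), (nat_lit 8068970399), (nat_lit 8157751368)], (nat_lit 1271251), (nat_lit 1271251), (nat_lit 1271251), (nat_lit 1271251), (nat_lit 780000), (nat_lit 2826876), [(nat_lit 780000), (nat_lit 1762501), (nat_lit 1271251)], [(nat_lit 12), (nat_lit 59), (nat_lit 538), (nat_lit 300), (nat_lit 13)]⟩,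
 ⟨⟨[(nat_lit 120), (nat_lit 160), (nat_lit 200)], [(nat_lit 0), (nat_lit 0), (nat_lit 3198)], [((nat_lit 0), (nat_lit 0), (nat_lit 0)), ((nat_lit 0), (nat_lit 0), (nat_lit 0)), ((nat_lit 572), (nat_lit 1000), (nat_lit 714))], ((nat_lit 0), (nat_lit 0), (nat_lit 0))⟩, (nat_lit 36098), (nat_lit 300), (nat_lit 1358), (nat_lit 5490800), (nat_lit 2095061), [(nat_lit 589632000), (nat_lit 878528000), (nat_lit 1213600000)], [], [(nat_lit 5673618456), (nat_lit 5630537934), (nat_lit 5506006285), (nat_lit 5463108248), (nat_lit 5199468809), (nat_lit 5155313376), (nat_lit 5082815948), (nat_lit 5299038482)], (nat_lit 1100000), (nat_lit 1271251), (nat_lit 631250), (nat_lit 1100000), (nat_lit 780000), (nat_lit 2826876), [(nat_lit 1695001), (nat_lit 1271251), (nat_lit 1271251)], [(nat_lit 29), (nat_lit 66), (nat_lit 429), (nat_lit 200), (nat_lit 9)]⟩⟩)))))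
noncomputable def c14_60 : Tr Lf :=
 (.leaf ⟨(nat_lit 23), (nat_lit 847), (nat_lit 0), (nat_lit 130), (nat_lit 0), (nat_lit 3987), (nat_lit 8667), (nat_lit 1332), (nat_lit 0), (nat_lit 0), (nat_lit 92000), [((nat_lit 400), [((nat_lit 43), (nat_lit 5), (nat_lit 23))])], ⟨(nat_lit 7), false, true, false, (nat_lit 301), (nat_lit 0), (nat_lit 2237), [(nat_lit 1705063), (nat_lit 1699935), (nat_lit 1748802), (nat_lit 1748125), (nat_lit 1762141), (nat_lit 1749998), (nat_lit 1807594), (nat_lit 1799902)]⟩, ⟨(nat_lit 3), false, false, false, (nat_lit 122), (nat_lit 0), (nat_lit 2237), [(nat_lit 1177178), (nat_lit 1196337), (nat_lit 1242721), (nat_lit 1268557), (nat_lit 1351885), (nat_lit 1349998), (nat_lit 1419294), (nat_lit 1424084)]⟩, (nat_lit 4701935), (nat_lit 38954492), (nat_lit 22689520), (nat_lit 5355988), (nat_lit 3), (nat_lit 0), [], [⟨(nat_lit 0), (nat_lit 100), (nat_lit 32), (nat_lit 87), (nat_lit 116506410)⟩], [], [],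
 ⟨⟨[(nat_lit 40), (nat_lit 80), (nat_lit 100)], [(nat_lit 0), (nat_lit 2514), (nat_lit 3562)], [((nat_lit 0), (nat_lit 0), (nat_lit 0)), ((nat_lit 1000), (nat_lit 446), (nat_lit 804)), ((nat_lit 1000), (nat_lit 443), (nat_lit 819))], ((nat_lit 44), (nat_lit 100), (nat_lit 84))⟩, (nat_lit 1017542), (nat_lit 252), (nat_lit 252), (nat_lit 0), (nat_lit 339024), [(nat_lit 1821966001), (nat_lit 4024544687), (nat_lit 5177960800)], [(nat_lit 0), (nat_lit 0), (nat_lit 0)], [(nat_lit 27399594917), (nat_lit 29031887754), (nat_lit 29358437324), (nat_lit 30829283966), (nat_lit 26300402988), (nat_lit 27269430793), (nat_lit 27596573864), (nat_lit 28899650588)], (nat_lit 1271251), (nat_lit 1271251), (nat_lit 1271251), (nat_lit 1271251), (nat_lit 230000), (nat_lit 1100000), [(nat_lit 490000), (nat_lit 1100000), (nat_lit 1442501)], [(nat_lit 3), (nat_lit 50), (nat_lit 249), (nat_lit 40), (nat_lit 8)]⟩,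
 ⟨⟨[(nat_lit 60), (nat_lit 120), (nat_lit 160)], [(nat_lit 0), (nat_lit 0), (nat_lit 3243)], [((nat_lit 0), (nat_lit 0), (nat_lit 0)), ((nat_lit 0), (nat_lit 0), (nat_lit 0)), ((nat_lit 878), (nat_lit 1000), (nat_lit 945))], ((nat_lit 100), (nat_lit 92), (nat_lit 90))⟩, (nat_lit 1589144), (nat_lit 463), (nat_lit 463), (nat_lit 0), (nat_lit 487420), [(nat_lit 3206514000), (nat_lit 7784736000), (nat_lit 11598944000)], [], [(nat_lit 36224604224), (nat_lit 37265702846), (nat_lit 37265702846), (nat_lit 38257710004), (nat_lit 32519405083), (nat_lit 33719973106), (nat_lit 33719973106), (nat_lit 35292753314)], (nat_lit 1271251), (nat_lit 1271251), (nat_lit 1271251), (nat_lit 1271251), (nat_lit 0), (nat_lit 2613125), [(nat_lit 780000), (nat_lit 1762501), (nat_lit 1271251)], [(nat_lit 12), (nat_lit 59), (nat_lit 538), (nat_lit 300), (nat_lit 13)]⟩,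
 ⟨⟨[(nat_lit 140), (nat_lit 180), (nat_lit 200)], [(nat_lit 0), (nat_lit 0), (nat_lit 2835)], [((nat_lit 0), (nat_lit 0), (nat_lit 0)), ((nat_lit 0), (nat_lit 0), (nat_lit 0)), ((nat_lit 363), (nat_lit 1000), (nat_lit 798))], ((nat_lit 0), (nat_lit 0), (nat_lit 0))⟩, (nat_lit 35767), (nat_lit 300), (nat_lit 1144), (nat_lit 10153003), (nat_lit 1262308), [(nat_lit 1279460000), (nat_lit 1827540000), (nat_lit 2132000000)], [], [(nat_lit 11218883958), (nat_lit 10911728559), (nat_lit 10394638412), (nat_lit 10095921105), (nat_lit 9403059817), (nat_lit 9100697911), (nat_lit 8624379565), (nat_lit 9726931525)], (nat_lit 780000), (nat_lit 1271251), (nat_lit 230000), (nat_lit 1100000), (nat_lit 0), (nat_lit 2613125), [(nat_lit 1977501), (nat_lit 1271251), (nat_lit 1271251)], [(nat_lit 32), (nat_lit 67), (nat_lit 428), (nat_lit 200), (nat_lit 10)]⟩⟩)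
noncomputable def c14_61 : Tr Lf :=
 (.trX (nat_lit 5) (nat_lit 3) (nat_lit 4) (nat_lit 87) (nat_lit 95) (nat_lit 100) (nat_lit 300) (.spl (nat_lit 5) (nat_lit 160) (.spl (nat_lit 0) (nat_lit 390) (.leaf ⟨(nat_lit 648), (nat_lit 352), (nat_lit 0), (nat_lit 0), (nat_lit 0), (nat_lit 2903), (nat_lit 3001), (nat_lit 0), (nat_lit 0), (nat_lit 0), (nat_lit 388800), [((nat_lit 390), [((nat_lit 43), (nat_lit 2), (nat_lit 648))])], ⟨(nat_lit 8), false, true, true, (nat_lit 322), (nat_lit 1581), (nat_lit 2237), [(nat_lit 1762142), (nat_lit 1757166), (nat_lit 1784917), (nat_lit 1780481), (nat_lit 1833412), (nat_lit 1825461), (nat_lit 1856186), (nat_lit 1848776)]⟩, ⟨(nat_lit 3), false, false, false, (nat_lit 110), (nat_lit 1581), (nat_lit 2237), [(nat_lit 1180680), (nat_lit 1188036), (nat_lit 1248867), (nat_lit 1257845), (nat_lit 1294870), (nat_lit 1297467), (nat_lit 1363068), (nat_lit 1367287)]⟩, (nat_lit 4622819), (nat_lit 37627875), (nat_lit 24885262),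 (nat_lit 4486863), (nat_lit 3), (nat_lit 0), [⟨(nat_lit 1), (nat_lit 73), (nat_lit 43), (nat_lit 100), (nat_lit 291654682)⟩], [], [], [⟨(nat_lit 0), (nat_lit 100), (nat_lit 86), (nat_lit 21), (nat_lit 19356346)⟩],
 ⟨⟨[(nat_lit 40), (nat_lit 80), (nat_lit 100)], [(nat_lit 0), (nat_lit 2514), (nat_lit 3562)], [((nat_lit 0), (nat_lit 0), (nat_lit 0)), ((nat_lit 1000), (nat_lit 446), (nat_lit 804)), ((nat_lit 1000), (nat_lit 443), (nat_lit 819))], ((nat_lit 44), (nat_lit 100), (nat_lit 84))⟩, (nat_lit 99628), (nat_lit 156), (nat_lit 156), (nat_lit 0), (nat_lit 0), [(nat_lit 1534912001), (nat_lit 909743349), (nat_lit 799283200)], [(nat_lit 0), (nat_lit 0), (nat_lit 0)], [(nat_lit 27439449086), (nat_lit 27909677931), (nat_lit 29795374574), (nat_lit 30349304435), (nat_lit 27185327575), (nat_lit 27623607055), (nat_lit 29319753039), (nat_lit 29771320025)], (nat_lit 0), (nat_lit 0), (nat_lit 0), (nat_lit 0), (nat_lit 0), (nat_lit 0), [], [(nat_lit 3), (nat_lit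 50), (nat_lit 238), (nat_lit 30), (nat_lit 7)]⟩,
 ⟨⟨[(nat_lit 60), (nat_lit 120), (nat_lit 160)], [(nat_lit 0), (nat_lit 0), (nat_lit 3243)], [((nat_lit 0), (nat_lit 0), (nat_lit 0)), ((nat_lit 0), (nat_lit 0), (nat_lit 0)), ((nat_lit 878), (nat_lit 1000), (nat_lit 945))], ((nat_lit 100), (nat_lit 92), (nat_lit 90))⟩, (nat_lit 516893), (nat_lit 590), (nat_lit 590), (nat_lit 0), (nat_lit 802592), [(nat_lit 1155264000), (nat_lit 2804736000), (nat_lit 4178944000)], [], [(nat_lit 14267965949), (nat_lit 14362191509), (nat_lit 14761031477), (nat_lit 14827376647), (nat_lit 12107249249), (nat_lit 12175845253), (nat_lit 12568332374), (nat_lit 12644599215)], (nat_lit 1271251), (nat_lit 1271251), (nat_lit 1271251), (nat_lit 1271251), (nat_lit 0), (nat_lit 1100000), [(nat_lit 780000), (nat_lit 1762501), (nat_lit 1271251)], [(nat_lit 12), (nat_lit 59), (nat_lit 345), (nat_lit 125), (nat_lit 8)]⟩,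
 Rw.none⟩) (.trX (nat_lit 3) (nat_lit 0) (nat_lit 1) (nat_lit 36) (nat_lit 77) (nat_lit 100) (nat_lit 350) (.trZ (nat_lit 0) (nat_lit 2) (nat_lit 4) (nat_lit 100) (nat_lit 34) (nat_lit 81) (nat_lit 60) (.leaf ⟨(nat_lit 725), (nat_lit 275), (nat_lit 0), (nat_lit 0), (nat_lit 0), (nat_lit 3071), (nat_lit 2426), (nat_lit 0), (nat_lit 0), (nat_lit 0), (nat_lit 290000), [((nat_lit 400), [((nat_lit 29), (nat_lit 1), (nat_lit 725))])], ⟨(nat_lit 8), false, true, true, (nat_lit 314), (nat_lit 0), (nat_lit 1582), [(nat_lit 1757165), (nat_lit 1749998), (nat_lit 1780481), (nat_lit 1774999), (nat_lit 1798140), (nat_lit 1787496), (nat_lit 1821456), (nat_lit 1812497)]⟩, ⟨(nat_lit 3), false, false, false, (nat_lit 118), (nat_lit 0), (nat_lit 1582), [(nat_lit 1213552), (nat_lit 1223038), (nat_lit 1281527), (nat_lit 1296068), (nat_lit 1297467), (nat_lit 1299999), (nat_lit 1365448), (nat_lit 1373034)]⟩, (nat_lit 4689029), (nat_lit 38024357), (nat_lit 23969695),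 (nat_lit 5005948), (nat_lit 3), (nat_lit 0), [⟨(nat_lit 1), (nat_lit 86), (nat_lit 25), (nat_lit 100), (nat_lit 625516902)⟩], [⟨(nat_lit 0), (nat_lit 100), (nat_lit 23), (nat_lit 92), (nat_lit 50775521)⟩], [⟨(nat_lit 0), (nat_lit 100), (nat_lit 92), (nat_lit 22), (nat_lit 13312407)⟩, ⟨(nat_lit 0), (nat_lit 100), (nat_lit 87), (nat_lit 41), (nat_lit 685684)⟩], [],
 ⟨⟨[(nat_lit 40), (nat_lit 60), (nat_lit 80)], [(nat_lit 0), (nat_lit 2136), (nat_lit 3185)], [((nat_lit 0), (nat_lit 0), (nat_lit 0)), ((nat_lit 1000), (nat_lit 343), (nat_lit 808)), ((nat_lit 1000), (nat_lit 338), (nat_lit 820))], ((nat_lit 32), (nat_lit 100), (nat_lit 86))⟩, (nat_lit 102936), (nat_lit 122), (nat_lit 122), (nat_lit 0), (nat_lit 0), [(nat_lit 1507130001), (nat_lit 1265517656), (nat_lit 1432460000)], [(nat_lit 0), (nat_lit 0), (nat_lit 0)], [(nat_lit 27554492195), (nat_lit 28196729189), (nat_lit 29140553052), (nat_lit 29734125743), (nat_lit 27395655243), (nat_lit 27877893115),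 (nat_lit 28673840009), (nat_lit 29157705416)], (nat_lit 0), (nat_lit 0), (nat_lit 0), (nat_lit 0), (nat_lit 0), (nat_lit 0), [], [(nat_lit 2), (nat_lit 44), (nat_lit 238), (nat_lit 30), (nat_lit 9)]⟩,
 ⟨⟨[(nat_lit 60), (nat_lit 120), (nat_lit 160)], [(nat_lit 0), (nat_lit 0), (nat_lit 3243)], [((nat_lit 0), (nat_lit 0), (nat_lit 0)), ((nat_lit 0), (nat_lit 0), (nat_lit 0)), ((nat_lit 878), (nat_lit 1000), (nat_lit 945))], ((nat_lit 100), (nat_lit 92), (nat_lit 90))⟩, (nat_lit 430783), (nat_lit 670), (nat_lit 670), (nat_lit 0), (nat_lit 945770), [(nat_lit 902550000), (nat_lit 2191200000), (nat_lit 3264800000)], [], [(nat_lit 10803319639), (nat_lit 10875858113), (nat_lit 11061698477), (nat_lit 11152499274), (nat_lit 9095229960), (nat_lit 9175483758), (nat_lit 9333759234), (nat_lit 9400770072)], (nat_lit 1271251), (nat_lit 1271251), (nat_lit 1271251), (nat_lit 1271251), (nat_lit 0), (nat_lit 1100000), [(nat_lit 780000), (nat_lit 1762501), (nat_lit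 1271251)], [(nat_lit 12), (nat_lit 59), (nat_lit 345), (nat_lit 125), (nat_lit 8)]⟩,
 Rw.none⟩)))) (.spl (nat_lit 0) (nat_lit 390) (.leaf ⟨(nat_lit 350), (nat_lit 467), (nat_lit 0), (nat_lit 183), (nat_lit 0), (nat_lit 2997), (nat_lit 3906), (nat_lit 2425), (nat_lit 0), (nat_lit 0), (nat_lit 210000), [((nat_lit 390), [((nat_lit 43), (nat_lit 2), (nat_lit 350))])], ⟨(nat_lit 8), false, true, true, (nat_lit 322), (nat_lit 1581), (nat_lit 2237), [(nat_lit 1762142), (nat_lit 1757166), (nat_lit 1784917), (nat_lit 1780481), (nat_lit 1833412), (nat_lit 1825461), (nat_lit 1856186), (nat_lit 1848776)]⟩, ⟨(nat_lit 3), false, false, false, (nat_lit 110), (nat_lit 1581), (nat_lit 2237), [(nat_lit 1180680), (nat_lit 1188036), (nat_lit 1248867), (nat_lit 1257845), (nat_lit 1294870), (nat_lit 1297467), (nat_lit 1363068), (nat_lit 1367287)]⟩, (nat_lit 4622819), (nat_lit 37627875), (nat_lit 24885262), (nat_lit 4486863), (nat_lit 4), (nat_lit 0), [⟨(nat_lit 1),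 (nat_lit 73), (nat_lit 43), (nat_lit 100), (nat_lit 125070748)⟩], [⟨(nat_lit 0), (nat_lit 100), (nat_lit 39), (nat_lit 83), (nat_lit 589239)⟩], [], [⟨(nat_lit 1), (nat_lit 100), (nat_lit 69), (nat_lit 81), (nat_lit 315947)⟩],
 ⟨⟨[(nat_lit 40), (nat_lit 80), (nat_lit 100)], [(nat_lit 0), (nat_lit 2514), (nat_lit 3562)], [((nat_lit 0), (nat_lit 0), (nat_lit 0)), ((nat_lit 1000), (nat_lit 446), (nat_lit 804)), ((nat_lit 1000), (nat_lit 443), (nat_lit 819))], ((nat_lit 44), (nat_lit 100), (nat_lit 84))⟩, (nat_lit 758112), (nat_lit 156), (nat_lit 156), (nat_lit 0), (nat_lit 0), [(nat_lit 1655900001), (nat_lit 2679271691), (nat_lit 3305940000)], [(nat_lit 0), (nat_lit 0), (nat_lit 0)], [(nat_lit 27746508589), (nat_lit 28222425069), (nat_lit 30039801809), (nat_lit 30585148863), (nat_lit 27442054449), (nat_lit 27885526577), (nat_lit 29600234730), (nat_lit 30057057826)], (nat_lit 0), (nat_lit 0), (nat_lit 0), (nat_lit 0), (nat_lit 0), (nat_lit 0), [], [(nat_lit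 3), (nat_lit 50), (nat_lit 238), (nat_lit 30), (nat_lit 7)]⟩,
 ⟨⟨[(nat_lit 60), (nat_lit 120), (nat_lit 160)], [(nat_lit 0), (nat_lit 0), (nat_lit 3243)], [((nat_lit 0), (nat_lit 0), (nat_lit 0)), ((nat_lit 0), (nat_lit 0), (nat_lit 0)), ((nat_lit 878), (nat_lit 1000), (nat_lit 945))], ((nat_lit 100), (nat_lit 92), (nat_lit 90))⟩, (nat_lit 1045462), (nat_lit 494), (nat_lit 494), (nat_lit 0), (nat_lit 802592), [(nat_lit 2133300000), (nat_lit 5179200000), (nat_lit 7716800000)], [], [(nat_lit 25872917142), (nat_lit 26111475742), (nat_lit 26840693447), (nat_lit 27051444027), (nat_lit 26642610574), (nat_lit 26852801997), (nat_lit 27522018516), (nat_lit 27691785091)], (nat_lit 1271251), (nat_lit 1271251), (nat_lit 1271251), (nat_lit 1271251), (nat_lit 1100000), (nat_lit 2298751), [(nat_lit 780000), (nat_lit 1762501), (nat_lit 1271251)], [(nat_lit 12), (nat_lit 59), (nat_lit 373), (nat_lit 150), (nat_lit 8)]⟩,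
 ⟨⟨[(nat_lit 140), (nat_lit 180), (nat_lit 200)], [(nat_lit 0), (nat_lit 0), (nat_lit 2835)], [((nat_lit 0), (nat_lit 0), (nat_lit 0)), ((nat_lit 0), (nat_lit 0), (nat_lit 0)), ((nat_lit 363), (nat_lit 1000), (nat_lit 798))], ((nat_lit 0), (nat_lit 0), (nat_lit 0))⟩, (nat_lit 50349), (nat_lit 300), (nat_lit 909), (nat_lit 14292303), (nat_lit 992206), [(nat_lit 1801086000), (nat_lit 2572614000), (nat_lit 3001200000)], [], [(nat_lit 12024164072), (nat_lit 11513943074), (nat_lit 10786869930), (nat_lit 10289843284), (nat_lit 11463288178), (nat_lit 12947847008), (nat_lit 12417818016), (nat_lit 14203574133)], (nat_lit 780000), (nat_lit 1271251), (nat_lit 230000), (nat_lit 780000), (nat_lit 1100000), (nat_lit 2298751), [(nat_lit 1977501), (nat_lit 1271251), (nat_lit 1271251)], [(nat_lit 32), (nat_lit 67), (nat_lit 373), (nat_lit 150), (nat_lit 8)]⟩⟩) (.trX (nat_lit 3) (nat_lit 0) (nat_lit 1) (nat_lit 36) (nat_lit 77) (nat_lit 100) (nat_lit 350) (.trZ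 (nat_lit 0) (nat_lit 2) (nat_lit 4) (nat_lit 100) (nat_lit 34) (nat_lit 81) (nat_lit 60) (.leaf ⟨(nat_lit 760), (nat_lit 137), (nat_lit 0), (nat_lit 103), (nat_lit 0), (nat_lit 2932), (nat_lit 2126), (nat_lit 1439), (nat_lit 0), (nat_lit 0), (nat_lit 304000), [((nat_lit 400), [((nat_lit 29), (nat_lit 1), (nat_lit 760))])], ⟨(nat_lit 8), false, true, true, (nat_lit 314), (nat_lit 0), (nat_lit 1582), [(nat_lit 1757165), (nat_lit 1749998), (nat_lit 1780481), (nat_lit 1774999), (nat_lit 1798140), (nat_lit 1787496), (nat_lit 1821456), (nat_lit 1812497)]⟩, ⟨(nat_lit 3), false, false, false, (nat_lit 118), (nat_lit 0), (nat_lit 1582), [(nat_lit 1213552), (nat_lit 1223038), (nat_lit 1281527), (nat_lit 1296068), (nat_lit 1297467), (nat_lit 1299999), (nat_lit 1365448), (nat_lit 1373034)]⟩, (nat_lit 4689029), (nat_lit 38024357), (nat_lit 23969695), (nat_lit 5005948), (nat_lit 4), (nat_lit 0), [⟨(nat_lit 1), (nat_lit 77), (nat_lit 36), (nat_lit 100), (nat_lit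 382203688)⟩], [⟨(nat_lit 0), (nat_lit 100), (nat_lit 23), (nat_lit 92), (nat_lit 281089828)⟩, ⟨(nat_lit 0), (nat_lit 100), (nat_lit 34), (nat_lit 81), (nat_lit 2738011)⟩], [], [],
 ⟨⟨[(nat_lit 40), (nat_lit 60), (nat_lit 80)], [(nat_lit 0), (nat_lit 2136), (nat_lit 3185)], [((nat_lit 0), (nat_lit 0), (nat_lit 0)), ((nat_lit 1000), (nat_lit 343), (nat_lit 808)), ((nat_lit 1000), (nat_lit 338), (nat_lit 820))], ((nat_lit 32), (nat_lit 100), (nat_lit 86))⟩, (nat_lit 51054), (nat_lit 122), (nat_lit 122), (nat_lit 0), (nat_lit 0), [(nat_lit 1493088053), (nat_lit 1152126856), (nat_lit 1275296000)], [(nat_lit 0), (nat_lit 0), (nat_lit 0)], [(nat_lit 27594094309), (nat_lit 28086460748), (nat_lit 28848189373), (nat_lit 29429768372), (nat_lit 27573398789), (nat_lit 28038110308), (nat_lit 28762291610), (nat_lit 29235363482)], (nat_lit 0), (nat_lit 0), (nat_lit 0), (nat_lit 0), (nat_lit 0), (nat_lit 0), [], [(nat_lit 2), (nat_lit 44), (nat_lit 238), (nat_lit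 30), (nat_lit 9)]⟩,
 ⟨⟨[(nat_lit 60), (nat_lit 120), (nat_lit 160)], [(nat_lit 0), (nat_lit 0), (nat_lit 3243)], [((nat_lit 0), (nat_lit 0), (nat_lit 0)), ((nat_lit 0), (nat_lit 0), (nat_lit 0)), ((nat_lit 878), (nat_lit 1000), (nat_lit 945))], ((nat_lit 100), (nat_lit 92), (nat_lit 90))⟩, (nat_lit 345131), (nat_lit 548), (nat_lit 548), (nat_lit 0), (nat_lit 945770), [(nat_lit 787680000), (nat_lit 1912320000), (nat_lit 2849280000)], [], [(nat_lit 7950214695), (nat_lit 7995454191), (nat_lit 8115444294), (nat_lit 8168916147), (nat_lit 7928891814), (nat_lit 7963422785), (nat_lit 8073932310), (nat_lit 8125864373)], (nat_lit 1271251), (nat_lit 1271251), (nat_lit 1271251), (nat_lit 1271251), (nat_lit 1100000), (nat_lit 2298751), [(nat_lit 780000), (nat_lit 1762501), (nat_lit 1271251)], [(nat_lit 12), (nat_lit 59), (nat_lit 373), (nat_lit 150), (nat_lit 8)]⟩,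
 ⟨⟨[(nat_lit 140), (nat_lit 180), (nat_lit 200)], [(nat_lit 0), (nat_lit 0), (nat_lit 2835)], [((nat_lit 0), (nat_lit 0), (nat_lit 0)), ((nat_lit 0), (nat_lit 0), (nat_lit 0)), ((nat_lit 363), (nat_lit 1000), (nat_lit 798))], ((nat_lit 0), (nat_lit 0), (nat_lit 0))⟩, (nat_lit 28339), (nat_lit 300), (nat_lit 953), (nat_lit 8044300), (nat_lit 1133823), [(nat_lit 1013726000), (nat_lit 1447974000), (nat_lit 1689200000)], [], [(nat_lit 6433629644), (nat_lit 6129839505), (nat_lit 5931677202), (nat_lit 5633023314), (nat_lit 6506695135), (nat_lit 7515440582), (nat_lit 7094615976), (nat_lit 8143297901)], (nat_lit 780000), (nat_lit 1271251), (nat_lit 356250), (nat_lit 780000), (nat_lit 1100000), (nat_lit 2298751), [(nat_lit 1977501), (nat_lit 1271251), (nat_lit 1271251)], [(nat_lit 32), (nat_lit 67), (nat_lit 373), (nat_lit 150), (nat_lit 8)]⟩⟩))))))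
noncomputable def c14_62 : Tr Lf :=
 (.spl (nat_lit 2) (nat_lit 160) (.spl (nat_lit 5) (nat_lit 160) (.spl (nat_lit 1) (nat_lit 290) (.trX (nat_lit 3) (nat_lit 0) (nat_lit 1) (nat_lit 49) (nat_lit 68) (nat_lit 100) (nat_lit 360) (.leaf ⟨(nat_lit 795), (nat_lit 205), (nat_lit 0), (nat_lit 0), (nat_lit 0), (nat_lit 3024), (nat_lit 1804), (nat_lit 0), (nat_lit 0), (nat_lit 0), (nat_lit 385200), [((nat_lit 400), [((nat_lit 29), (nat_lit 1), (nat_lit 459)), ((nat_lit 43), (nat_lit 2), (nat_lit 336))])], ⟨(nat_lit 8), false, true, true, (nat_lit 316), (nat_lit 0), (nat_lit 2237), [(nat_lit 1762141), (nat_lit 1749998), (nat_lit 1773529), (nat_lit 1762499), (nat_lit 1819154), (nat_lit 1799995), (nat_lit 1830542), (nat_lit 1812496)]⟩, ⟨(nat_lit 3), false, false, false, (nat_lit 139), (nat_lit 0), (nat_lit 2237), [(nat_lit 1294870), (nat_lit 1299999), (nat_lit 1338589), (nat_lit 1348168), (nat_lit 1351885), (nat_lit 1349998), (nat_lit 1397434), (nat_lit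 1399999)]⟩, (nat_lit 4907146), (nat_lit 36999807), (nat_lit 23640396), (nat_lit 6359797), (nat_lit 3), (nat_lit 0), [⟨(nat_lit 1), (nat_lit 80), (nat_lit 34), (nat_lit 100), (nat_lit 607769487)⟩], [⟨(nat_lit 1), (nat_lit 100), (nat_lit 31), (nat_lit 95), (nat_lit 1480357)⟩], [], [⟨(nat_lit 0), (nat_lit 100), (nat_lit 75), (nat_lit 48), (nat_lit 12189946)⟩],
 ⟨⟨[(nat_lit 40), (nat_lit 80), (nat_lit 100)], [(nat_lit 0), (nat_lit 2514), (nat_lit 3562)], [((nat_lit 0), (nat_lit 0), (nat_lit 0)), ((nat_lit 1000), (nat_lit 446), (nat_lit 804)), ((nat_lit 1000), (nat_lit 443), (nat_lit 819))], ((nat_lit 44), (nat_lit 100), (nat_lit 84))⟩, (nat_lit 0), (nat_lit 116), (nat_lit 116), (nat_lit 0), (nat_lit 0), [(nat_lit 1477433215), (nat_lit 830450539), (nat_lit 598098400)], [(nat_lit 0), (nat_lit 0), (nat_lit 0)], [(nat_lit 26598779591), (nat_lit 27622200688), (nat_lit 28474833984), (nat_lit 29563290304), (nat_lit 26788793279), (nat_lit 27685982815), (nat_lit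 28506266256), (nat_lit 29547146560)], (nat_lit 0), (nat_lit 0), (nat_lit 0), (nat_lit 0), (nat_lit 0), (nat_lit 0), [], [(nat_lit 3), (nat_lit 50), (nat_lit 249), (nat_lit 40), (nat_lit 7)]⟩,
 ⟨⟨[(nat_lit 60), (nat_lit 120), (nat_lit 160)], [(nat_lit 0), (nat_lit 0), (nat_lit 3243)], [((nat_lit 0), (nat_lit 0), (nat_lit 0)), ((nat_lit 0), (nat_lit 0), (nat_lit 0)), ((nat_lit 878), (nat_lit 1000), (nat_lit 945))], ((nat_lit 100), (nat_lit 92), (nat_lit 90))⟩, (nat_lit 325006), (nat_lit 668), (nat_lit 668), (nat_lit 0), (nat_lit 940155), [(nat_lit 672810000), (nat_lit 1633440000), (nat_lit 2433760000)], [], [(nat_lit 8054871074), (nat_lit 8081941218), (nat_lit 8332112209), (nat_lit 8364522847), (nat_lit 6798214920), (nat_lit 6828149061), (nat_lit 7035119398), (nat_lit 7058485872)], (nat_lit 1271251), (nat_lit 1271251), (nat_lit 1271251), (nat_lit 1271251), (nat_lit 0), (nat_lit 1100000), [(nat_lit 780000), (nat_lit 1762501), (nat_lit 1271251)], [(nat_lit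 12), (nat_lit 59), (nat_lit 345), (nat_lit 125), (nat_lit 8)]⟩,
 Rw.none⟩)) (.leaf ⟨(nat_lit 655), (nat_lit 345), (nat_lit 0), (nat_lit 0), (nat_lit 0), (nat_lit 3241), (nat_lit 2673), (nat_lit 0), (nat_lit 0), (nat_lit 0), (nat_lit 368600), [((nat_lit 400), [((nat_lit 29), (nat_lit 1), (nat_lit 122)), ((nat_lit 43), (nat_lit 2), (nat_lit 533))])], ⟨(nat_lit 8), false, true, true, (nat_lit 323), (nat_lit 0), (nat_lit 2237), [(nat_lit 1773529), (nat_lit 1762499), (nat_lit 1784917), (nat_lit 1774999), (nat_lit 1844795), (nat_lit 1824995), (nat_lit 1856183), (nat_lit 1837496)]⟩, ⟨(nat_lit 3), false, false, false, (nat_lit 139), (nat_lit 0), (nat_lit 2237), [(nat_lit 1294870), (nat_lit 1299999), (nat_lit 1338589), (nat_lit 1348168), (nat_lit 1351885), (nat_lit 1349998), (nat_lit 1397434), (nat_lit 1399999)]⟩, (nat_lit 4917988), (nat_lit 36409533), (nat_lit 24303457), (nat_lit 6287010), (nat_lit 3), (nat_lit 0), [⟨(nat_lit 1), (nat_lit 78), (nat_lit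 35), (nat_lit 100), (nat_lit 508800687)⟩], [⟨(nat_lit 1), (nat_lit 100), (nat_lit 31), (nat_lit 95), (nat_lit 256554650)⟩], [], [⟨(nat_lit 0), (nat_lit 100), (nat_lit 72), (nat_lit 51), (nat_lit 7130740)⟩],
 ⟨⟨[(nat_lit 40), (nat_lit 80), (nat_lit 100)], [(nat_lit 0), (nat_lit 2514), (nat_lit 3562)], [((nat_lit 0), (nat_lit 0), (nat_lit 0)), ((nat_lit 1000), (nat_lit 446), (nat_lit 804)), ((nat_lit 1000), (nat_lit 443), (nat_lit 819))], ((nat_lit 44), (nat_lit 100), (nat_lit 84))⟩, (nat_lit 351), (nat_lit 119), (nat_lit 119), (nat_lit 0), (nat_lit 0), [(nat_lit 1532655612), (nat_lit 1037509772), (nat_lit 1015585200)], [(nat_lit 0), (nat_lit 0), (nat_lit 0)], [(nat_lit 26887415809), (nat_lit 27947290992), (nat_lit 29348106838), (nat_lit 30436816016), (nat_lit 27037525801), (nat_lit 27959150484), (nat_lit 29303872274), (nat_lit 30344901179)], (nat_lit 0), (nat_lit 0), (nat_lit 0), (nat_lit 0), (nat_lit 0), (nat_lit 0), [], [(nat_lit 3), (nat_lit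 50), (nat_lit 249), (nat_lit 40), (nat_lit 7)]⟩,
 ⟨⟨[(nat_lit 60), (nat_lit 120), (nat_lit 160)], [(nat_lit 0), (nat_lit 453), (nat_lit 3555)], [((nat_lit 0), (nat_lit 0), (nat_lit 0)), ((nat_lit 1000), (nat_lit 953), (nat_lit 118)), ((nat_lit 904), (nat_lit 1000), (nat_lit 997))], ((nat_lit 100), (nat_lit 98), (nat_lit 93))⟩, (nat_lit 1196565), (nat_lit 663), (nat_lit 663), (nat_lit 0), (nat_lit 929946), [(nat_lit 1132290000), (nat_lit 2748960000), (nat_lit 4095840000)], [], [(nat_lit 12563557320), (nat_lit 12630288744), (nat_lit 13129578887), (nat_lit 13181555526), (nat_lit 10796594877), (nat_lit 10848705534), (nat_lit 11264357147), (nat_lit 11304039810)], (nat_lit 1271251), (nat_lit 1271251), (nat_lit 1271251), (nat_lit 1271251), (nat_lit 0), (nat_lit 1100000), [(nat_lit 780000), (nat_lit 1762501), (nat_lit 1271251)], [(nat_lit 12), (nat_lit 59), (nat_lit 345), (nat_lit 125), (nat_lit 8)]⟩,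
 Rw.none⟩)) (.spl (nat_lit 0) (nat_lit 390) (.leaf ⟨(nat_lit 762), (nat_lit 203), (nat_lit 0), (nat_lit 35), (nat_lit 0), (nat_lit 2953), (nat_lit 1966), (nat_lit 460), (nat_lit 0), (nat_lit 0), (nat_lit 373400), [((nat_lit 390), [((nat_lit 29), (nat_lit 1), (nat_lit 419)), ((nat_lit 43), (nat_lit 2), (nat_lit 343))])], ⟨(nat_lit 8), false, true, true, (nat_lit 322), (nat_lit 1581), (nat_lit 2237), [(nat_lit 1762142), (nat_lit 1757166), (nat_lit 1784917), (nat_lit 1780481), (nat_lit 1833412), (nat_lit 1825461), (nat_lit 1856186), (nat_lit 1848776)]⟩, ⟨(nat_lit 3), false, false, false, (nat_lit 139), (nat_lit 1581), (nat_lit 2237), [(nat_lit 1294870), (nat_lit 1297467), (nat_lit 1340340), (nat_lit 1344018), (nat_lit 1351886), (nat_lit 1352103), (nat_lit 1397434), (nat_lit 1398733)]⟩, (nat_lit 4915353), (nat_lit 36460900), (nat_lit 24259950), (nat_lit 6279150), (nat_lit 4), (nat_lit 0), [⟨(nat_lit 1), (nat_lit 73), (nat_lit 43), (nat_lit 100), (nat_lit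 226988546)⟩], [], [], [⟨(nat_lit 1), (nat_lit 94), (nat_lit 72), (nat_lit 100), (nat_lit 41743013)⟩],
 ⟨⟨[(nat_lit 40), (nat_lit 80), (nat_lit 100)], [(nat_lit 0), (nat_lit 2514), (nat_lit 3562)], [((nat_lit 0), (nat_lit 0), (nat_lit 0)), ((nat_lit 1000), (nat_lit 446), (nat_lit 804)), ((nat_lit 1000), (nat_lit 443), (nat_lit 819))], ((nat_lit 44), (nat_lit 100), (nat_lit 84))⟩, (nat_lit 3579), (nat_lit 115), (nat_lit 115), (nat_lit 0), (nat_lit 0), [(nat_lit 1490639245), (nat_lit 1019140975), (nat_lit 785457200)], [(nat_lit 0), (nat_lit 0), (nat_lit 0)], [(nat_lit 26846413594), (nat_lit 27311839849), (nat_lit 28875106824), (nat_lit 29396905083), (nat_lit 27049483330), (nat_lit 27494237389), (nat_lit 28993205414), (nat_lit 29402130606)], (nat_lit 0), (nat_lit 0), (nat_lit 0), (nat_lit 0), (nat_lit 0), (nat_lit 0), [], [(nat_lit 3), (nat_lit 50), (nat_lit 249), (nat_lit 40), (nat_lit 7)]⟩,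
 ⟨⟨[(nat_lit 60), (nat_lit 120), (nat_lit 160)], [(nat_lit 0), (nat_lit 0), (nat_lit 3243)], [((nat_lit 0), (nat_lit 0), (nat_lit 0)), ((nat_lit 0), (nat_lit 0), (nat_lit 0)), ((nat_lit 878), (nat_lit 1000), (nat_lit 945))], ((nat_lit 100), (nat_lit 92), (nat_lit 90))⟩, (nat_lit 336534), (nat_lit 493), (nat_lit 493), (nat_lit 0), (nat_lit 799843), [(nat_lit 781116000), (nat_lit 1896384000), (nat_lit 2825536000)], [], [(nat_lit 8044506518), (nat_lit 8129082886), (nat_lit 8436467543), (nat_lit 8500211344), (nat_lit 8307656307), (nat_lit 8342685538), (nat_lit 8595101579), (nat_lit 8635605394)], (nat_lit 1271251), (nat_lit 1271251), (nat_lit 1271251), (nat_lit 1271251), (nat_lit 1100000), (nat_lit 2641251), [(nat_lit 780000), (nat_lit 1762501), (nat_lit 1271251)], [(nat_lit 12), (nat_lit 59), (nat_lit 401), (nat_lit 175), (nat_lit 9)]⟩,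
 ⟨⟨[(nat_lit 140), (nat_lit 180), (nat_lit 200)], [(nat_lit 0), (nat_lit 0), (nat_lit 2835)], [((nat_lit 0), (nat_lit 0), (nat_lit 0)), ((nat_lit 0), (nat_lit 0), (nat_lit 0)), ((nat_lit 363), (nat_lit 1000), (nat_lit 798))], ((nat_lit 0), (nat_lit 0), (nat_lit 0))⟩, (nat_lit 9630), (nat_lit 300), (nat_lit 1979), (nat_lit 2733500), (nat_lit 3395125), [(nat_lit 344470000), (nat_lit 492030000), (nat_lit 574000000)], [], [(nat_lit 2243335360), (nat_lit 2000296940), (nat_lit 1991742360), (nat_lit 1916235340), (nat_lit 1962890655), (nat_lit 1885705745), (nat_lit 1875715065), (nat_lit 1810699040)], (nat_lit 780000), (nat_lit 1100000), (nat_lit 780000), (nat_lit 1100000), (nat_lit 1100000), (nat_lit 2641251), [(nat_lit 1977501), (nat_lit 1271251), (nat_lit 1271251)], [(nat_lit 32), (nat_lit 67), (nat_lit 578), (nat_lit 175), (nat_lit 12)]⟩⟩) (.trX (nat_lit 3) (nat_lit 0) (nat_lit 1) (nat_lit 36) (nat_lit 77) (nat_lit 100) (nat_lit 350) (.leaf ⟨(nat_lit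 824), (nat_lit 147), (nat_lit 0), (nat_lit 29), (nat_lit 0), (nat_lit 3108), (nat_lit 1529), (nat_lit 351), (nat_lit 0), (nat_lit 0), (nat_lit 206000), [((nat_lit 400), [((nat_lit 29), (nat_lit 0), (nat_lit 824))])], ⟨(nat_lit 8), false, true, true, (nat_lit 314), (nat_lit 0), (nat_lit 1582), [(nat_lit 1757165), (nat_lit 1749998), (nat_lit 1780481), (nat_lit 1774999), (nat_lit 1798140), (nat_lit 1787496), (nat_lit 1821456), (nat_lit 1812497)]⟩, ⟨(nat_lit 3), false, false, false, (nat_lit 139), (nat_lit 0), (nat_lit 1582), [(nat_lit 1297467), (nat_lit 1299999), (nat_lit 1342789), (nat_lit 1348691), (nat_lit 1352101), (nat_lit 1349997), (nat_lit 1398733), (nat_lit 1399999)]⟩, (nat_lit 4909002), (nat_lit 37092737), (nat_lit 23504933), (nat_lit 6402330), (nat_lit 4), (nat_lit 0), [⟨(nat_lit 1), (nat_lit 86), (nat_lit 25), (nat_lit 100), (nat_lit 559373081)⟩], [], [], [⟨(nat_lit 1), (nat_lit 91), (nat_lit 77), (nat_lit 100), (nat_lit 22098163)⟩],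
 ⟨⟨[(nat_lit 40), (nat_lit 60), (nat_lit 80)], [(nat_lit 0), (nat_lit 2136), (nat_lit 3185)], [((nat_lit 0), (nat_lit 0), (nat_lit 0)), ((nat_lit 1000), (nat_lit 343), (nat_lit 808)), ((nat_lit 1000), (nat_lit 338), (nat_lit 820))], ((nat_lit 32), (nat_lit 100), (nat_lit 86))⟩, (nat_lit 188412), (nat_lit 98), (nat_lit 98), (nat_lit 0), (nat_lit 0), [(nat_lit 1604524803), (nat_lit 1642847309), (nat_lit 1959241600)], [(nat_lit 0), (nat_lit 0), (nat_lit 0)], [(nat_lit 27308340021), (nat_lit 27810640999), (nat_lit 28653231792), (nat_lit 29218529425), (nat_lit 27485202337), (nat_lit 27964569367), (nat_lit 28704676622), (nat_lit 29201307188)], (nat_lit 0), (nat_lit 0), (nat_lit 0), (nat_lit 0), (nat_lit 0), (nat_lit 0), [], [(nat_lit 2), (nat_lit 44), (nat_lit 249), (nat_lit 40), (nat_lit 9)]⟩,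
 ⟨⟨[(nat_lit 60), (nat_lit 120), (nat_lit 160)], [(nat_lit 0), (nat_lit 0), (nat_lit 3243)], [((nat_lit 0), (nat_lit 0), (nat_lit 0)), ((nat_lit 0), (nat_lit 0), (nat_lit 0)), ((nat_lit 878), (nat_lit 1000), (nat_lit 945))], ((nat_lit 100), (nat_lit 92), (nat_lit 90))⟩, (nat_lit 264521), (nat_lit 547), (nat_lit 547), (nat_lit 0), (nat_lit 942874), [(nat_lit 577632000), (nat_lit 1402368000), (nat_lit 2089472000)], [], [(nat_lit 5916794136), (nat_lit 5968382376), (nat_lit 6068742661), (nat_lit 6111963887), (nat_lit 6040307042), (nat_lit 6058096699), (nat_lit 6132253243), (nat_lit 6159190315)], (nat_lit 1271251), (nat_lit 1271251), (nat_lit 1271251), (nat_lit 1271251), (nat_lit 1100000), (nat_lit 2641251), [(nat_lit 780000), (nat_lit 1762501), (nat_lit 1271251)], [(nat_lit 12), (nat_lit 59), (nat_lit 401), (nat_lit 175), (nat_lit 9)]⟩,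
 ⟨⟨[(nat_lit 140), (nat_lit 180), (nat_lit 200)], [(nat_lit 0), (nat_lit 0), (nat_lit 2835)], [((nat_lit 0), (nat_lit 0), (nat_lit 0)), ((nat_lit 0), (nat_lit 0), (nat_lit 0)), ((nat_lit 363), (nat_lit 1000), (nat_lit 798))], ((nat_lit 0), (nat_lit 0), (nat_lit 0))⟩, (nat_lit 7979), (nat_lit 300), (nat_lit 2276), (nat_lit 2264900), (nat_lit 3962504), [(nat_lit 285418000), (nat_lit 407682000), (nat_lit 475600000)], [], [(nat_lit 1825634262), (nat_lit 1768790744), (nat_lit 1762231128), (nat_lit 1705771012), (nat_lit 1696612508), (nat_lit 1638968544), (nat_lit 1631307410), (nat_lit 1574124196)], (nat_lit 780000), (nat_lit 1100000), (nat_lit 780000), (nat_lit 1100000), (nat_lit 1100000), (nat_lit 2641251), [(nat_lit 1977501), (nat_lit 1271251), (nat_lit 1271251)], [(nat_lit 32), (nat_lit 67), (nat_lit 652), (nat_lit 175), (nat_lit 14)]⟩⟩)))) (.spl (nat_lit 0) (nat_lit 390) (.leaf ⟨(nat_lit 107), (nat_lit 718), (nat_lit 0), (nat_lit 175), (nat_lit 0),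 (nat_lit 3193), (nat_lit 5369), (nat_lit 2155), (nat_lit 0), (nat_lit 0), (nat_lit 88200), [((nat_lit 390), [((nat_lit 43), (nat_lit 2), (nat_lit 47)), ((nat_lit 29), (nat_lit 2), (nat_lit 60))])], ⟨(nat_lit 8), false, true, true, (nat_lit 322), (nat_lit 1581), (nat_lit 2237), [(nat_lit 1762142), (nat_lit 1757166), (nat_lit 1784917), (nat_lit 1780481), (nat_lit 1833412), (nat_lit 1825461), (nat_lit 1856186), (nat_lit 1848776)]⟩, ⟨(nat_lit 4), false, false, false, (nat_lit 153), (nat_lit 1581), (nat_lit 2237), [(nat_lit 1340340), (nat_lit 1344018), (nat_lit 1363068), (nat_lit 1367287), (nat_lit 1397434), (nat_lit 1398733), (nat_lit 1420170), (nat_lit 1422009)]⟩, (nat_lit 5041365), (nat_lit 35876536), (nat_lit 23939811), (nat_lit 7183653), (nat_lit 4), (nat_lit 0), [], [], [], [],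
 ⟨⟨[(nat_lit 40), (nat_lit 80), (nat_lit 100)], [(nat_lit 0), (nat_lit 2514), (nat_lit 3562)], [((nat_lit 0), (nat_lit 0), (nat_lit 0)), ((nat_lit 1000), (nat_lit 446), (nat_lit 804)), ((nat_lit 1000), (nat_lit 443), (nat_lit 819))], ((nat_lit 44), (nat_lit 100), (nat_lit 84))⟩, (nat_lit 1176608), (nat_lit 115), (nat_lit 115), (nat_lit 0), (nat_lit 0), [(nat_lit 1761854056), (nat_lit 4163363115), (nat_lit 5079622800)], [(nat_lit 0), (nat_lit 0), (nat_lit 0)], [(nat_lit 27031264467), (nat_lit 27510737082), (nat_lit 29317249128), (nat_lit 29809978248), (nat_lit 27190201083), (nat_lit 27647937822), (nat_lit 29411201578), (nat_lit 29882125488)], (nat_lit 0), (nat_lit 0), (nat_lit 0), (nat_lit 0), (nat_lit 0), (nat_lit 0), [], [(nat_lit 3), (nat_lit 50), (nat_lit 249), (nat_lit 40), (nat_lit 7)]⟩,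
 ⟨⟨[(nat_lit 60), (nat_lit 120), (nat_lit 160)], [(nat_lit 0), (nat_lit 0), (nat_lit 3243)], [((nat_lit 0), (nat_lit 0), (nat_lit 0)), ((nat_lit 0), (nat_lit 0), (nat_lit 0)), ((nat_lit 878), (nat_lit 1000), (nat_lit 945))], ((nat_lit 100), (nat_lit 92), (nat_lit 90))⟩, (nat_lit 1527305), (nat_lit 531), (nat_lit 531), (nat_lit 0), (nat_lit 636980), [(nat_lit 2930826000), (nat_lit 7115424000), (nat_lit 10601696000)], [], [(nat_lit 38721444919), (nat_lit 39116217032), (nat_lit 40286974463), (nat_lit 40690264037), (nat_lit 37363659472), (nat_lit 37610565647), (nat_lit 38452932696), (nat_lit 38649316953)], (nat_lit 1271251), (nat_lit 1271251), (nat_lit 1271251), (nat_lit 1271251), (nat_lit 0), (nat_lit 2401251), [(nat_lit 780000), (nat_lit 1762501), (nat_lit 1271251)], [(nat_lit 12), (nat_lit 59), (nat_lit 401), (nat_lit 175), (nat_lit 10)]⟩,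
 ⟨⟨[(nat_lit 120), (nat_lit 160), (nat_lit 200)], [(nat_lit 0), (nat_lit 0), (nat_lit 3198)], [((nat_lit 0), (nat_lit 0), (nat_lit 0)), ((nat_lit 0), (nat_lit 0), (nat_lit 0)), ((nat_lit 572), (nat_lit 1000), (nat_lit 714))], ((nat_lit 0), (nat_lit 0), (nat_lit 0))⟩, (nat_lit 85366), (nat_lit 300), (nat_lit 1190), (nat_lit 12985000), (nat_lit 1539602), [(nat_lit 1394400000), (nat_lit 2077600000), (nat_lit 2870000000)], [], [(nat_lit 12066764920), (nat_lit 11963685205), (nat_lit 11655523820), (nat_lit 11551891760), (nat_lit 9657653670), (nat_lit 10264704025), (nat_lit 10635955390), (nat_lit 11256045919)], (nat_lit 1100000), (nat_lit 1271251), (nat_lit 780000), (nat_lit 1100000), (nat_lit 0), (nat_lit 2401251), [(nat_lit 1695001), (nat_lit 1271251), (nat_lit 1271251)], [(nat_lit 29), (nat_lit 66), (nat_lit 401), (nat_lit 175), (nat_lit 9)]⟩⟩) (.trX (nat_lit 3) (nat_lit 0) (nat_lit 1) (nat_lit 36) (nat_lit 77) (nat_lit 100) (nat_lit 350) (.leaf ⟨(nat_lit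 771), (nat_lit 192), (nat_lit 0), (nat_lit 37), (nat_lit 0), (nat_lit 2957), (nat_lit 1994), (nat_lit 562), (nat_lit 0), (nat_lit 0), (nat_lit 308400), [((nat_lit 400), [((nat_lit 29), (nat_lit 1), (nat_lit 771))])], ⟨(nat_lit 8), false, true, true, (nat_lit 314), (nat_lit 0), (nat_lit 1582), [(nat_lit 1757165), (nat_lit 1749998), (nat_lit 1780481), (nat_lit 1774999), (nat_lit 1798140), (nat_lit 1787496), (nat_lit 1821456), (nat_lit 1812497)]⟩, ⟨(nat_lit 4), false, false, false, (nat_lit 154), (nat_lit 0), (nat_lit 1582), [(nat_lit 1342789), (nat_lit 1348691), (nat_lit 1365448), (nat_lit 1373034), (nat_lit 1398733), (nat_lit 1399999), (nat_lit 1421394), (nat_lit 1424345)]⟩, (nat_lit 5039226), (nat_lit 36466111), (nat_lit 23185502), (nat_lit 7348387), (nat_lit 4), (nat_lit 0), [⟨(nat_lit 1), (nat_lit 86), (nat_lit 25), (nat_lit 100), (nat_lit 575870791)⟩], [], [], [],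
 ⟨⟨[(nat_lit 40), (nat_lit 60), (nat_lit 80)], [(nat_lit 0), (nat_lit 2136), (nat_lit 3185)], [((nat_lit 0), (nat_lit 0), (nat_lit 0)), ((nat_lit 1000), (nat_lit 343), (nat_lit 808)), ((nat_lit 1000), (nat_lit 338), (nat_lit 820))], ((nat_lit 32), (nat_lit 100), (nat_lit 86))⟩, (nat_lit 4882), (nat_lit 98), (nat_lit 98), (nat_lit 0), (nat_lit 0), [(nat_lit 1488674803), (nat_lit 1169424509), (nat_lit 1225901600)], [(nat_lit 0), (nat_lit 0), (nat_lit 0)], [(nat_lit 27149176235), (nat_lit 27641735297), (nat_lit 28412025487), (nat_lit 28965943232), (nat_lit 27354065737), (nat_lit 27824414669), (nat_lit 28553930246), (nat_lit 29007884327)], (nat_lit 0), (nat_lit 0), (nat_lit 0), (nat_lit 0), (nat_lit 0), (nat_lit 0), [], [(nat_lit 2), (nat_lit 44), (nat_lit 249), (nat_lit 40), (nat_lit 9)]⟩,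
 ⟨⟨[(nat_lit 60), (nat_lit 120), (nat_lit 160)], [(nat_lit 0), (nat_lit 0), (nat_lit 3243)], [((nat_lit 0), (nat_lit 0), (nat_lit 0)), ((nat_lit 0), (nat_lit 0), (nat_lit 0)), ((nat_lit 878), (nat_lit 1000), (nat_lit 945))], ((nat_lit 100), (nat_lit 92), (nat_lit 90))⟩, (nat_lit 345974), (nat_lit 574), (nat_lit 574), (nat_lit 0), (nat_lit 759013), [(nat_lit 751578000), (nat_lit 1824672000), (nat_lit 2718688000)], [], [(nat_lit 9119917650), (nat_lit 9180664424), (nat_lit 9313498400), (nat_lit 9366916766), (nat_lit 7839500626), (nat_lit 7862521837), (nat_lit 7959124105), (nat_lit 8018258698)], (nat_lit 1271251), (nat_lit 1271251), (nat_lit 1271251), (nat_lit 1271251), (nat_lit 0), (nat_lit 2401251), [(nat_lit 780000), (nat_lit 1762501), (nat_lit 1271251)], [(nat_lit 12), (nat_lit 59), (nat_lit 401), (nat_lit 175), (nat_lit 10)]⟩,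
 ⟨⟨[(nat_lit 120), (nat_lit 160), (nat_lit 200)], [(nat_lit 0), (nat_lit 0), (nat_lit 3198)], [((nat_lit 0), (nat_lit 0), (nat_lit 0)), ((nat_lit 0), (nat_lit 0), (nat_lit 0)), ((nat_lit 572), (nat_lit 1000), (nat_lit 714))], ((nat_lit 0), (nat_lit 0), (nat_lit 0))⟩, (nat_lit 18049), (nat_lit 300), (nat_lit 1320), (nat_lit 2745400), (nat_lit 1845769), [(nat_lit 294816000), (nat_lit 439264000), (nat_lit 606800000)], [], [(nat_lit 2456956768), (nat_lit 2427197094), (nat_lit 2344639064), (nat_lit 2315371140), (nat_lit 2132478552), (nat_lit 2284873425), (nat_lit 2376552040), (nat_lit 2532347645)], (nat_lit 1100000), (nat_lit 1271251), (nat_lit 780000), (nat_lit 1100000), (nat_lit 0), (nat_lit 2401251), [(nat_lit 1695001), (nat_lit 1271251), (nat_lit 1271251)], [(nat_lit 29), (nat_lit 66), (nat_lit 415), (nat_lit 175), (nat_lit 9)]⟩⟩))))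
noncomputable def c14_63 : Tr Lf :=
 (.spl (nat_lit 6) (nat_lit 68) (.stt (nat_lit 3) (.leaf ⟨(nat_lit 23), (nat_lit 816), (nat_lit 0), (nat_lit 161), (nat_lit 0), (nat_lit 3246), (nat_lit 5796), (nat_lit 2163), (nat_lit 0), (nat_lit 0), (nat_lit 92000), [((nat_lit 400), [((nat_lit 43), (nat_lit 5), (nat_lit 23))])], ⟨(nat_lit 8), false, true, true, (nat_lit 333), (nat_lit 0), (nat_lit 2237), [(nat_lit 1784917), (nat_lit 1774999), (nat_lit 1807594), (nat_lit 1799902), (nat_lit 1870437), (nat_lit 1849996), (nat_lit 1893212), (nat_lit 1874997)]⟩, ⟨(nat_lit 3), true, false, false, (nat_lit 122), (nat_lit 0), (nat_lit 2237), [(nat_lit 1177178), (nat_lit 1196337), (nat_lit 1242721), (nat_lit 1268557), (nat_lit 1351885), (nat_lit 1349998), (nat_lit 1419294), (nat_lit 1424084)]⟩, (nat_lit 4757309), (nat_lit 36325213), (nat_lit 25572393), (nat_lit 5102394), (nat_lit 3), (nat_lit 0), [⟨(nat_lit 1), (nat_lit 74), (nat_lit 37), (nat_lit 100), (nat_lit 377392587)⟩],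 [⟨(nat_lit 0), (nat_lit 100), (nat_lit 32), (nat_lit 87), (nat_lit 108684567)⟩], [], [],
 ⟨⟨[(nat_lit 40), (nat_lit 60), (nat_lit 80)], [(nat_lit 0), (nat_lit 1539), (nat_lit 2453)], [((nat_lit 0), (nat_lit 0), (nat_lit 0)), ((nat_lit 1000), (nat_lit 478), (nat_lit 704)), ((nat_lit 1000), (nat_lit 474), (nat_lit 714))], ((nat_lit 45), (nat_lit 100), (nat_lit 78))⟩, (nat_lit 988819), (nat_lit 141), (nat_lit 141), (nat_lit 0), (nat_lit 0), [(nat_lit 1821966002), (nat_lit 2969263614), (nat_lit 3937215600)], [(nat_lit 0), (nat_lit 0), (nat_lit 0)], [(nat_lit 28108215639), (nat_lit 29149720028), (nat_lit 31192662449), (nat_lit 32317473167), (nat_lit 27901400289), (nat_lit 28823800213), (nat_lit 30441043205), (nat_lit 31318403010)], (nat_lit 0), (nat_lit 0), (nat_lit 0), (nat_lit 0), (nat_lit 0), (nat_lit 0), [], [(nat_lit 2), (nat_lit 44), (nat_lit 249), (nat_lit 40), (nat_lit 9)]⟩,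
 ⟨⟨[(nat_lit 60), (nat_lit 100), (nat_lit 140)], [(nat_lit 0), (nat_lit 609), (nat_lit 2558)], [((nat_lit 0), (nat_lit 0), (nat_lit 0)), ((nat_lit 1000), (nat_lit 905), (nat_lit 238)), ((nat_lit 1000), (nat_lit 904), (nat_lit 760))], ((nat_lit 91), (nat_lit 100), (nat_lit 79))⟩, (nat_lit 3669875), (nat_lit 596), (nat_lit 596), (nat_lit 0), (nat_lit 924819), [(nat_lit 3206514000), (nat_lit 6106250000), (nat_lit 9615634000)], [], [(nat_lit 30981718867), (nat_lit 31416809532), (nat_lit 34025646708), (nat_lit 35164486871), (nat_lit 30034106898), (nat_lit 30611946903), (nat_lit 33165390451), (nat_lit 33779287920)], (nat_lit 1271251), (nat_lit 1271251), (nat_lit 1271251), (nat_lit 1271251), (nat_lit 0), (nat_lit 2401251), [(nat_lit 780000), (nat_lit 1435001), (nat_lit 1271251)], [(nat_lit 11), (nat_lit 55), (nat_lit 317), (nat_lit 100), (nat_lit 8)]⟩,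
 ⟨⟨[(nat_lit 140), (nat_lit 180), (nat_lit 200)], [(nat_lit 0), (nat_lit 0), (nat_lit 2835)], [((nat_lit 0), (nat_lit 0), (nat_lit 0)), ((nat_lit 0), (nat_lit 0), (nat_lit 0)), ((nat_lit 363), (nat_lit 1000), (nat_lit 798))], ((nat_lit 0), (nat_lit 0), (nat_lit 0))⟩, (nat_lit 44296), (nat_lit 300), (nat_lit 569), (nat_lit 12574105), (nat_lit 0), [(nat_lit 1584562000), (nat_lit 2263338000), (nat_lit 2640400000)], [], [(nat_lit 12355962893), (nat_lit 11958502747), (nat_lit 10738766387), (nat_lit 10304842761), (nat_lit 9991254502), (nat_lit 9546879131), (nat_lit 8400015321), (nat_lit 7975331068)], (nat_lit 0), (nat_lit 0), (nat_lit 0), (nat_lit 0), (nat_lit 0), (nat_lit 0), [], [(nat_lit 32), (nat_lit 67), (nat_lit 401), (nat_lit 175), (nat_lit 9)]⟩⟩) (.leaf ⟨(nat_lit 22), (nat_lit 978), (nat_lit 0), (nat_lit 0), (nat_lit 0), (nat_lit 3913), (nat_lit 5854), (nat_lit 0), (nat_lit 0), (nat_lit 0), (nat_lit 88000), [((nat_lit 400), [((nat_lit 43), (nat_lit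 5), (nat_lit 22))])], ⟨(nat_lit 8), false, true, true, (nat_lit 333), (nat_lit 0), (nat_lit 2237), [(nat_lit 1784917), (nat_lit 1774999), (nat_lit 1807594), (nat_lit 1799902), (nat_lit 1870437), (nat_lit 1849996), (nat_lit 1893212), (nat_lit 1874997)]⟩, ⟨(nat_lit 3), false, false, false, (nat_lit 122), (nat_lit 0), (nat_lit 2237), [(nat_lit 1177178), (nat_lit 1196337), (nat_lit 1242721), (nat_lit 1268557), (nat_lit 1351885), (nat_lit 1349998), (nat_lit 1419294), (nat_lit 1424084)]⟩, (nat_lit 4757309), (nat_lit 36325213), (nat_lit 25572393), (nat_lit 5102394), (nat_lit 3), (nat_lit 0), [⟨(nat_lit 1), (nat_lit 74), (nat_lit 37), (nat_lit 100), (nat_lit 444127209)⟩], [⟨(nat_lit 1), (nat_lit 100), (nat_lit 31), (nat_lit 97), (nat_lit 98084619)⟩], [⟨(nat_lit 1), (nat_lit 77), (nat_lit 86), (nat_lit 100), (nat_lit 192981953)⟩], [],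
 ⟨⟨[(nat_lit 40), (nat_lit 60), (nat_lit 80)], [(nat_lit 0), (nat_lit 1539), (nat_lit 2453)], [((nat_lit 0), (nat_lit 0), (nat_lit 0)), ((nat_lit 1000), (nat_lit 478), (nat_lit 704)), ((nat_lit 1000), (nat_lit 474), (nat_lit 714))], ((nat_lit 45), (nat_lit 100), (nat_lit 78))⟩, (nat_lit 591287), (nat_lit 141), (nat_lit 141), (nat_lit 0), (nat_lit 0), [(nat_lit 1823484024), (nat_lit 2847565587), (nat_lit 3969858400)], [(nat_lit 0), (nat_lit 0), (nat_lit 0)], [(nat_lit 29204624476), (nat_lit 30661554234), (nat_lit 32863605086), (nat_lit 34083265289), (nat_lit 27842780122), (nat_lit 28806842085), (nat_lit 30794186667), (nat_lit 31887707574)], (nat_lit 0), (nat_lit 0), (nat_lit 0), (nat_lit 0), (nat_lit 0), (nat_lit 0), [], [(nat_lit 2), (nat_lit 44), (nat_lit 249), (nat_lit 40), (nat_lit 9)]⟩,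
 ⟨⟨[(nat_lit 60), (nat_lit 100), (nat_lit 140)], [(nat_lit 0), (nat_lit 609), (nat_lit 2558)], [((nat_lit 0), (nat_lit 0), (nat_lit 0)), ((nat_lit 1000), (nat_lit 905), (nat_lit 238)), ((nat_lit 1000), (nat_lit 904), (nat_lit 760))], ((nat_lit 91), (nat_lit 100), (nat_lit 79))⟩, (nat_lit 3465909), (nat_lit 525), (nat_lit 525), (nat_lit 0), (nat_lit 783008), [(nat_lit 3209796000), (nat_lit 6112500000), (nat_lit 9625476000)], [], [(nat_lit 30755130368), (nat_lit 31250516724), (nat_lit 34191439042), (nat_lit 35336102454), (nat_lit 29905426170), (nat_lit 30690297542), (nat_lit 33258832771), (nat_lit 33874464043)], (nat_lit 1271251), (nat_lit 1271251), (nat_lit 1271251), (nat_lit 1271251), (nat_lit 0), (nat_lit 2401251), [(nat_lit 780000), (nat_lit 1435001), (nat_lit 1271251)], [(nat_lit 11), (nat_lit 55), (nat_lit 317), (nat_lit 100), (nat_lit 8)]⟩,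
 Rw.none⟩)) (.spl (nat_lit 0) (nat_lit 390) (.leaf ⟨(nat_lit 22), (nat_lit 861), (nat_lit 0), (nat_lit 117), (nat_lit 0), (nat_lit 3955), (nat_lit 6198), (nat_lit 1278), (nat_lit 0), (nat_lit 0), (nat_lit 88000), [((nat_lit 390), [((nat_lit 43), (nat_lit 5), (nat_lit 22))])], ⟨(nat_lit 8), false, true, true, (nat_lit 334), (nat_lit 1581), (nat_lit 2237), [(nat_lit 1784917), (nat_lit 1780481), (nat_lit 1807675), (nat_lit 1803781), (nat_lit 1870440), (nat_lit 1862435), (nat_lit 1893214), (nat_lit 1885750)]⟩, ⟨(nat_lit 3), false, false, false, (nat_lit 121), (nat_lit 1581), (nat_lit 2237), [(nat_lit 1180680), (nat_lit 1188036), (nat_lit 1248867), (nat_lit 1257845), (nat_lit 1351886), (nat_lit 1352103), (nat_lit 1420170), (nat_lit 1422009)]⟩, (nat_lit 4754582), (nat_lit 36209537), (nat_lit 25726879), (nat_lit 5063584), (nat_lit 3), (nat_lit 0), [], [], [], [⟨(nat_lit 1), (nat_lit 100), (nat_lit 67), (nat_lit 88), (nat_lit 47936373)⟩],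
 ⟨⟨[(nat_lit 40), (nat_lit 80), (nat_lit 100)], [(nat_lit 0), (nat_lit 2514), (nat_lit 3562)], [((nat_lit 0), (nat_lit 0), (nat_lit 0)), ((nat_lit 1000), (nat_lit 446), (nat_lit 804)), ((nat_lit 1000), (nat_lit 443), (nat_lit 819))], ((nat_lit 44), (nat_lit 100), (nat_lit 84))⟩, (nat_lit 890131), (nat_lit 159), (nat_lit 159), (nat_lit 0), (nat_lit 0), [(nat_lit 1823484020), (nat_lit 4010922432), (nat_lit 5224571200)], [(nat_lit 0), (nat_lit 0), (nat_lit 0)], [(nat_lit 29291923660), (nat_lit 30024337925), (nat_lit 32968821864), (nat_lit 33581638231), (nat_lit 27796262216), (nat_lit 28257575301), (nat_lit 30855702587), (nat_lit 31405006839)], (nat_lit 0), (nat_lit 0), (nat_lit 0), (nat_lit 0), (nat_lit 0), (nat_lit 0), [], [(nat_lit 3), (nat_lit 50), (nat_lit 249), (nat_lit 40), (nat_lit 8)]⟩,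
 ⟨⟨[(nat_lit 60), (nat_lit 120), (nat_lit 160)], [(nat_lit 0), (nat_lit 913), (nat_lit 3885)], [((nat_lit 0), (nat_lit 0), (nat_lit 0)), ((nat_lit 1000), (nat_lit 905), (nat_lit 238)), ((nat_lit 886), (nat_lit 948), (nat_lit 1000))], ((nat_lit 96), (nat_lit 100), (nat_lit 92))⟩, (nat_lit 2889799), (nat_lit 515), (nat_lit 515), (nat_lit 0), (nat_lit 596963), [(nat_lit 3209796000), (nat_lit 7792704000), (nat_lit 11610816000)], [], [(nat_lit 34065054333), (nat_lit 34621339371), (nat_lit 36474436557), (nat_lit 36913934517), (nat_lit 32276351973), (nat_lit 32542234287), (nat_lit 33652324287), (nat_lit 34274846933)], (nat_lit 1271251), (nat_lit 1271251), (nat_lit 1271251), (nat_lit 1271251), (nat_lit 0), (nat_lit 2401251), [(nat_lit 780000), (nat_lit 1762501), (nat_lit 1271251)], [(nat_lit 12), (nat_lit 59), (nat_lit 401), (nat_lit 175), (nat_lit 10)]⟩,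
 ⟨⟨[(nat_lit 140), (nat_lit 180), (nat_lit 200)], [(nat_lit 0), (nat_lit 0), (nat_lit 2835)], [((nat_lit 0), (nat_lit 0), (nat_lit 0)), ((nat_lit 0), (nat_lit 0), (nat_lit 0)), ((nat_lit 363), (nat_lit 1000), (nat_lit 798))], ((nat_lit 0), (nat_lit 0), (nat_lit 0))⟩, (nat_lit 32190), (nat_lit 300), (nat_lit 1866), (nat_lit 9137707), (nat_lit 2856580), [(nat_lit 1151514000), (nat_lit 1644786000), (nat_lit 1918800000)], [], [(nat_lit 9806438842), (nat_lit 9502768839), (nat_lit 9098968757), (nat_lit 8825875109), (nat_lit 8180833264), (nat_lit 7911546359), (nat_lit 7555840164), (nat_lit 8582833593)], (nat_lit 780000), (nat_lit 1271251), (nat_lit 230000), (nat_lit 1100000), (nat_lit 0), (nat_lit 2401251), [(nat_lit 1977501), (nat_lit 1271251), (nat_lit 1271251)], [(nat_lit 32), (nat_lit 67), (nat_lit 552), (nat_lit 175), (nat_lit 12)]⟩⟩) (.trX (nat_lit 3) (nat_lit 0) (nat_lit 1) (nat_lit 39) (nat_lit 72) (nat_lit 100) (nat_lit 370) (.trZ (nat_lit 0)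 (nat_lit 2) (nat_lit 4) (nat_lit 100) (nat_lit 34) (nat_lit 81) (nat_lit 60) (.leaf ⟨(nat_lit 0), (nat_lit 888), (nat_lit 0), (nat_lit 112), (nat_lit 0), (nat_lit 4192), (nat_lit 6103), (nat_lit 1238), (nat_lit 0), (nat_lit 0), (nat_lit 0), [], Pd.none, Pd.none, (nat_lit 0), (nat_lit 1), (nat_lit 0), (nat_lit 0), (nat_lit 3), (nat_lit 0), [⟨(nat_lit 1), (nat_lit 83), (nat_lit 27), (nat_lit 100), (nat_lit 318331176)⟩], [⟨(nat_lit 1), (nat_lit 100), (nat_lit 22), (nat_lit 97), (nat_lit 210771379)⟩], [], [⟨(nat_lit 1), (nat_lit 100), (nat_lit 72), (nat_lit 93), (nat_lit 64287340)⟩],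
 ⟨⟨[(nat_lit 40), (nat_lit 60), (nat_lit 80)], [(nat_lit 0), (nat_lit 2136), (nat_lit 3185)], [((nat_lit 0), (nat_lit 0), (nat_lit 0)), ((nat_lit 1000), (nat_lit 343), (nat_lit 808)), ((nat_lit 1000), (nat_lit 338), (nat_lit 820))], ((nat_lit 32), (nat_lit 100), (nat_lit 86))⟩, (nat_lit 499457), (nat_lit 127), (nat_lit 127), (nat_lit 0), (nat_lit 0), [(nat_lit 2032000035), (nat_lit 3282000074), (nat_lit 4688000000)], [], [(nat_lit 29693645489), (nat_lit 30439916328), (nat_lit 32710361604), (nat_lit 33354541288), (nat_lit 28881064832), (nat_lit 29371808292), (nat_lit 31220320219), (nat_lit 31801470848)], (nat_lit 0), (nat_lit 0), (nat_lit 0), (nat_lit 0), (nat_lit 0), (nat_lit 0), [], [(nat_lit 2), (nat_lit 44), (nat_lit 249), (nat_lit 40), (nat_lit 9)]⟩,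
 ⟨⟨[(nat_lit 60), (nat_lit 120), (nat_lit 160)], [(nat_lit 0), (nat_lit 913), (nat_lit 3885)], [((nat_lit 0), (nat_lit 0), (nat_lit 0)), ((nat_lit 1000), (nat_lit 905), (nat_lit 238)), ((nat_lit 886), (nat_lit 948), (nat_lit 1000))], ((nat_lit 96), (nat_lit 100), (nat_lit 92))⟩, (nat_lit 3935448), (nat_lit 552), (nat_lit 552), (nat_lit 0), (nat_lit 702335), [(nat_lit 3282000000), (nat_lit 7968000000), (nat_lit 11872000000)], [], [(nat_lit 33645538093), (nat_lit 34035477556), (nat_lit 35129359553), (nat_lit 35480609898), (nat_lit 31314659616), (nat_lit 31486861357), (nat_lit 33563610968), (nat_lit 34225276332)], (nat_lit 1271251), (nat_lit 1271251), (nat_lit 1271251), (nat_lit 1271251), (nat_lit 0), (nat_lit 2401251), [(nat_lit 780000), (nat_lit 1762501), (nat_lit 1271251)], [(nat_lit 12), (nat_lit 59), (nat_lit 401), (nat_lit 175), (nat_lit 10)]⟩,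
 ⟨⟨[(nat_lit 140), (nat_lit 180), (nat_lit 200)], [(nat_lit 0), (nat_lit 0), (nat_lit 2835)], [((nat_lit 0), (nat_lit 0), (nat_lit 0)), ((nat_lit 0), (nat_lit 0), (nat_lit 0)), ((nat_lit 363), (nat_lit 1000), (nat_lit 798))], ((nat_lit 0), (nat_lit 0), (nat_lit 0))⟩, (nat_lit 30815), (nat_lit 300), (nat_lit 2109), (nat_lit 8747200), (nat_lit 3386216), [(nat_lit 1102304000), (nat_lit 1574496000), (nat_lit 1836800000)], [], [(nat_lit 9155159974), (nat_lit 8862735638), (nat_lit 8618887043), (nat_lit 8363709603), (nat_lit 7640469454), (nat_lit 7390106723), (nat_lit 7251500504), (nat_lit 8243720933)], (nat_lit 780000), (nat_lit 1271251), (nat_lit 356250), (nat_lit 1100000), (nat_lit 0), (nat_lit 2401251), [(nat_lit 1977501), (nat_lit 1271251), (nat_lit 1271251)], [(nat_lit 32), (nat_lit 67), (nat_lit 613), (nat_lit 175), (nat_lit 13)]⟩⟩)))))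
noncomputable def c14_64 : Tr Lf :=
 (.leaf ⟨(nat_lit 22), (nat_lit 861), (nat_lit 0), (nat_lit 117), (nat_lit 0), (nat_lit 4021), (nat_lit 8403), (nat_lit 1303), (nat_lit 0), (nat_lit 0), (nat_lit 88000), [((nat_lit 400), [((nat_lit 43), (nat_lit 5), (nat_lit 22))])], ⟨(nat_lit 8), false, true, true, (nat_lit 328), (nat_lit 0), (nat_lit 2237), [(nat_lit 1762141), (nat_lit 1749998), (nat_lit 1807594), (nat_lit 1799902), (nat_lit 1847661), (nat_lit 1824994), (nat_lit 1893212), (nat_lit 1874997)]⟩, ⟨(nat_lit 3), false, false, false, (nat_lit 122), (nat_lit 0), (nat_lit 2237), [(nat_lit 1177178), (nat_lit 1196337), (nat_lit 1242721), (nat_lit 1268557), (nat_lit 1351885), (nat_lit 1349998), (nat_lit 1419294), (nat_lit 1424084)]⟩, (nat_lit 4752059), (nat_lit 36712776), (nat_lit 25145950), (nat_lit 5141274), (nat_lit 3), (nat_lit 0), [⟨(nat_lit 1), (nat_lit 77), (nat_lit 36), (nat_lit 100), (nat_lit 495493659)⟩], [⟨(nat_lit 0), (nat_lit 100), (nat_lit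 32), (nat_lit 87), (nat_lit 222596588)⟩], [], [],
 ⟨⟨[(nat_lit 40), (nat_lit 80), (nat_lit 100)], [(nat_lit 0), (nat_lit 2514), (nat_lit 3562)], [((nat_lit 0), (nat_lit 0), (nat_lit 0)), ((nat_lit 1000), (nat_lit 446), (nat_lit 804)), ((nat_lit 1000), (nat_lit 443), (nat_lit 819))], ((nat_lit 44), (nat_lit 100), (nat_lit 84))⟩, (nat_lit 985708), (nat_lit 264), (nat_lit 264), (nat_lit 0), (nat_lit 339024), [(nat_lit 1823484001), (nat_lit 4156676337), (nat_lit 5224571200)], [(nat_lit 0), (nat_lit 0), (nat_lit 0)], [(nat_lit 29429108092), (nat_lit 30906348978), (nat_lit 33134162514), (nat_lit 34369180655), (nat_lit 28101068974), (nat_lit 28943253852), (nat_lit 30952370460), (nat_lit 32058973758)], (nat_lit 1271251), (nat_lit 1271251), (nat_lit 1271251), (nat_lit 1271251), (nat_lit 230000), (nat_lit 1100000), [(nat_lit 490000), (nat_lit 1100000), (nat_lit 1442501)], [(nat_lit 3), (nat_lit 50), (nat_lit 249), (nat_lit 40), (nat_lit 8)]⟩,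
 ⟨⟨[(nat_lit 60), (nat_lit 120), (nat_lit 160)], [(nat_lit 0), (nat_lit 0), (nat_lit 3243)], [((nat_lit 0), (nat_lit 0), (nat_lit 0)), ((nat_lit 0), (nat_lit 0), (nat_lit 0)), ((nat_lit 878), (nat_lit 1000), (nat_lit 945))], ((nat_lit 100), (nat_lit 92), (nat_lit 90))⟩, (nat_lit 1481457), (nat_lit 475), (nat_lit 475), (nat_lit 0), (nat_lit 487420), [(nat_lit 3209796000), (nat_lit 7792704000), (nat_lit 11610816000)], [], [(nat_lit 38182354311), (nat_lit 39060992961), (nat_lit 41058886158), (nat_lit 42533524947), (nat_lit 33033661275), (nat_lit 33493154823), (nat_lit 35501755883), (nat_lit 36841254702)], (nat_lit 1271251), (nat_lit 1271251), (nat_lit 1271251), (nat_lit 1271251), (nat_lit 0), (nat_lit 2401251), [(nat_lit 780000), (nat_lit 1762501), (nat_lit 1271251)], [(nat_lit 12), (nat_lit 59), (nat_lit 401), (nat_lit 175), (nat_lit 10)]⟩,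
 ⟨⟨[(nat_lit 140), (nat_lit 180), (nat_lit 200)], [(nat_lit 0), (nat_lit 0), (nat_lit 2835)], [((nat_lit 0), (nat_lit 0), (nat_lit 0)), ((nat_lit 0), (nat_lit 0), (nat_lit 0)), ((nat_lit 363), (nat_lit 1000), (nat_lit 798))], ((nat_lit 0), (nat_lit 0), (nat_lit 0))⟩, (nat_lit 32190), (nat_lit 300), (nat_lit 1144), (nat_lit 9137707), (nat_lit 1262308), [(nat_lit 1151514000), (nat_lit 1644786000), (nat_lit 1918800000)], [], [(nat_lit 9715601092), (nat_lit 9404342214), (nat_lit 8855008872), (nat_lit 8553482589), (nat_lit 7930427867), (nat_lit 7625815466), (nat_lit 7587586664), (nat_lit 8630172581)], (nat_lit 780000), (nat_lit 1271251), (nat_lit 230000), (nat_lit 1100000), (nat_lit 0), (nat_lit 2401251), [(nat_lit 1977501), (nat_lit 1271251), (nat_lit 1271251)], [(nat_lit 32), (nat_lit 67), (nat_lit 401), (nat_lit 175), (nat_lit 9)]⟩⟩)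
noncomputable def c14_65 : Tr Lf :=
 (.trZ (nat_lit 0) (nat_lit 2) (nat_lit 4) (nat_lit 100) (nat_lit 44) (nat_lit 86) (nat_lit 90) (.spl (nat_lit 5) (nat_lit 120) (.leaf ⟨(nat_lit 22), (nat_lit 978), (nat_lit 0), (nat_lit 0), (nat_lit 0), (nat_lit 4143), (nat_lit 6425), (nat_lit 0), (nat_lit 0), (nat_lit 0), (nat_lit 88000), [((nat_lit 400), [((nat_lit 43), (nat_lit 5), (nat_lit 22))])], ⟨(nat_lit 7), false, true, true, (nat_lit 317), (nat_lit 0), (nat_lit 2237), [(nat_lit 1705063), (nat_lit 1699935), (nat_lit 1748802), (nat_lit 1748125), (nat_lit 1847661), (nat_lit 1824994), (nat_lit 1893212), (nat_lit 1874997)]⟩, ⟨(nat_lit 4), false, false, false, (nat_lit 158), (nat_lit 0), (nat_lit 2237), [(nat_lit 1316293), (nat_lit 1333360), (nat_lit 1359989), (nat_lit 1381507), (nat_lit 1419294), (nat_lit 1424084), (nat_lit 1462989), (nat_lit 1472231)]⟩, (nat_lit 5085099), (nat_lit 36023525), (nat_lit 23340486), (nat_lit 7635989), (nat_lit 4), (nat_lit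 0), [⟨(nat_lit 1), (nat_lit 77), (nat_lit 36), (nat_lit 100), (nat_lit 106684546)⟩], [⟨(nat_lit 0), (nat_lit 100), (nat_lit 31), (nat_lit 95), (nat_lit 493227803)⟩], [], [⟨(nat_lit 0), (nat_lit 100), (nat_lit 82), (nat_lit 34), (nat_lit 20097770)⟩],
 ⟨⟨[(nat_lit 40), (nat_lit 80), (nat_lit 100)], [(nat_lit 0), (nat_lit 2514), (nat_lit 3562)], [((nat_lit 0), (nat_lit 0), (nat_lit 0)), ((nat_lit 1000), (nat_lit 446), (nat_lit 804)), ((nat_lit 1000), (nat_lit 443), (nat_lit 819))], ((nat_lit 44), (nat_lit 100), (nat_lit 84))⟩, (nat_lit 879310), (nat_lit 217), (nat_lit 217), (nat_lit 0), (nat_lit 276520), [(nat_lit 1823484010), (nat_lit 3969858542), (nat_lit 5224571200)], [(nat_lit 0), (nat_lit 0), (nat_lit 0)], [(nat_lit 26415768883), (nat_lit 27666867494), (nat_lit 31647099519), (nat_lit 32862552640), (nat_lit 26551844402), (nat_lit 27445934060), (nat_lit 31131059560), (nat_lit 32252441114)], (nat_lit 1271251), (nat_lit 1271251), (nat_lit 1271251),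 (nat_lit 1271251), (nat_lit 559688), (nat_lit 1100000), [(nat_lit 490000), (nat_lit 1100000), (nat_lit 1442501)], [(nat_lit 3), (nat_lit 50), (nat_lit 249), (nat_lit 40), (nat_lit 8)]⟩,
 ⟨⟨[(nat_lit 60), (nat_lit 120), (nat_lit 160)], [(nat_lit 0), (nat_lit 0), (nat_lit 3243)], [((nat_lit 0), (nat_lit 0), (nat_lit 0)), ((nat_lit 0), (nat_lit 0), (nat_lit 0)), ((nat_lit 878), (nat_lit 1000), (nat_lit 945))], ((nat_lit 100), (nat_lit 92), (nat_lit 90))⟩, (nat_lit 1876710), (nat_lit 513), (nat_lit 513), (nat_lit 0), (nat_lit 581083), [(nat_lit 3209796000), (nat_lit 7792704000), (nat_lit 11610816000)], [], [(nat_lit 39704678047), (nat_lit 40978364984), (nat_lit 43544728268), (nat_lit 44425213535), (nat_lit 36261799957), (nat_lit 37385103820), (nat_lit 39674082377), (nat_lit 40452328762)], (nat_lit 1271251), (nat_lit 1271251), (nat_lit 1271251), (nat_lit 1271251), (nat_lit 0), (nat_lit 780000), [(nat_lit 780000), (nat_lit 1762501), (nat_lit 1271251)],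 [(nat_lit 12), (nat_lit 59), (nat_lit 456), (nat_lit 225), (nat_lit 11)]⟩,
 Rw.none⟩) (.leaf ⟨(nat_lit 22), (nat_lit 558), (nat_lit 0), (nat_lit 420), (nat_lit 0), (nat_lit 4143), (nat_lit 7848), (nat_lit 3762), (nat_lit 0), (nat_lit 0), (nat_lit 88000), [((nat_lit 400), [((nat_lit 43), (nat_lit 5), (nat_lit 22))])], ⟨(nat_lit 7), false, true, true, (nat_lit 317), (nat_lit 0), (nat_lit 2237), [(nat_lit 1705063), (nat_lit 1699935), (nat_lit 1748802), (nat_lit 1748125), (nat_lit 1847661), (nat_lit 1824994), (nat_lit 1893212), (nat_lit 1874997)]⟩, ⟨(nat_lit 4), false, false, false, (nat_lit 158), (nat_lit 0), (nat_lit 2237), [(nat_lit 1316293), (nat_lit 1333360), (nat_lit 1359989), (nat_lit 1381507), (nat_lit 1419294), (nat_lit 1424084), (nat_lit 1462989), (nat_lit 1472231)]⟩, (nat_lit 5085099), (nat_lit 36023525), (nat_lit 23340486), (nat_lit 7635989), (nat_lit 4), (nat_lit 0), [], [⟨(nat_lit 0), (nat_lit 100), (nat_lit 31), (nat_lit 95), (nat_lit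 784462553)⟩], [], [],
 ⟨⟨[(nat_lit 40), (nat_lit 80), (nat_lit 100)], [(nat_lit 0), (nat_lit 2514), (nat_lit 3562)], [((nat_lit 0), (nat_lit 0), (nat_lit 0)), ((nat_lit 1000), (nat_lit 446), (nat_lit 804)), ((nat_lit 1000), (nat_lit 443), (nat_lit 819))], ((nat_lit 44), (nat_lit 100), (nat_lit 84))⟩, (nat_lit 879310), (nat_lit 217), (nat_lit 217), (nat_lit 0), (nat_lit 276520), [(nat_lit 1823484004), (nat_lit 3969858513), (nat_lit 5224571200)], [(nat_lit 0), (nat_lit 0), (nat_lit 0)], [(nat_lit 26415768842), (nat_lit 27666867494), (nat_lit 31647099519), (nat_lit 32862552640), (nat_lit 26551844361), (nat_lit 27445934019), (nat_lit 31131059560), (nat_lit 32252441114)], (nat_lit 1271251), (nat_lit 1271251), (nat_lit 1271251), (nat_lit 1271251), (nat_lit 559688), (nat_lit 1100000), [(nat_lit 490000), (nat_lit 1100000), (nat_lit 1442501)], [(nat_lit 3), (nat_lit 50), (nat_lit 249), (nat_lit 40), (nat_lit 8)]⟩,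
 ⟨⟨[(nat_lit 60), (nat_lit 120), (nat_lit 160)], [(nat_lit 0), (nat_lit 0), (nat_lit 3243)], [((nat_lit 0), (nat_lit 0), (nat_lit 0)), ((nat_lit 0), (nat_lit 0), (nat_lit 0)), ((nat_lit 878), (nat_lit 1000), (nat_lit 945))], ((nat_lit 100), (nat_lit 92), (nat_lit 90))⟩, (nat_lit 1696788), (nat_lit 489), (nat_lit 489), (nat_lit 0), (nat_lit 730803), [(nat_lit 3209796000), (nat_lit 7792704000), (nat_lit 11610816000)], [], [(nat_lit 32628926181), (nat_lit 33519973740), (nat_lit 35918565879), (nat_lit 36692086125), (nat_lit 35090845224), (nat_lit 35577192759), (nat_lit 36942867470), (nat_lit 37808587413)], (nat_lit 1271251), (nat_lit 1271251), (nat_lit 1271251), (nat_lit 1271251), (nat_lit 780000), (nat_lit 2826876), [(nat_lit 780000), (nat_lit 1762501), (nat_lit 1271251)], [(nat_lit 12), (nat_lit 59), (nat_lit 538), (nat_lit 300), (nat_lit 13)]⟩,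
 ⟨⟨[(nat_lit 120), (nat_lit 160), (nat_lit 200)], [(nat_lit 0), (nat_lit 533), (nat_lit 3597)], [((nat_lit 0), (nat_lit 0), (nat_lit 0)), ((nat_lit 960), (nat_lit 1000), (nat_lit 200)), ((nat_lit 612), (nat_lit 1000), (nat_lit 732))], ((nat_lit 0), (nat_lit 0), (nat_lit 0))⟩, (nat_lit 983415), (nat_lit 300), (nat_lit 1110), (nat_lit 27888000), (nat_lit 1553351), [(nat_lit 3346560000), (nat_lit 4986240000), (nat_lit 6888000000)], [], [(nat_lit 28634711952), (nat_lit 28205861735), (nat_lit 27562992630), (nat_lit 27129021635), (nat_lit 26541867712), (nat_lit 25951658594), (nat_lit 29557303806), (nat_lit 26182568788)], (nat_lit 1271251), (nat_lit 1271251), (nat_lit 559688), (nat_lit 1100000), (nat_lit 780000), (nat_lit 2826876), [(nat_lit 1695001), (nat_lit 1271251), (nat_lit 1271251)], [(nat_lit 29), (nat_lit 66), (nat_lit 428), (nat_lit 200), (nat_lit 9)]⟩⟩)))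
noncomputable def c14_66 : Tr Lf :=
 (.spl (nat_lit 5) (nat_lit 200) (.leaf ⟨(nat_lit 0), (nat_lit 1000), (nat_lit 0), (nat_lit 0), (nat_lit 13610), (nat_lit 4603), (nat_lit 8269), (nat_lit 0), (nat_lit 0), (nat_lit 0), (nat_lit 0), [], Pd.none, Pd.none, (nat_lit 0), (nat_lit 1), (nat_lit 0), (nat_lit 0), (nat_lit 4), (nat_lit 0), [⟨(nat_lit 0), (nat_lit 100), (nat_lit 44), (nat_lit 99), (nat_lit 575031368)⟩], [⟨(nat_lit 1), (nat_lit 99), (nat_lit 44), (nat_lit 100), (nat_lit 699088235)⟩], [], [],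
 ⟨⟨[(nat_lit 40), (nat_lit 80), (nat_lit 100)], [(nat_lit 0), (nat_lit 2514), (nat_lit 3562)], [((nat_lit 0), (nat_lit 0), (nat_lit 0)), ((nat_lit 1000), (nat_lit 446), (nat_lit 804)), ((nat_lit 1000), (nat_lit 443), (nat_lit 819))], ((nat_lit 44), (nat_lit 100), (nat_lit 84))⟩, (nat_lit 1144045), (nat_lit 231), (nat_lit 231), (nat_lit 0), (nat_lit 435246), [(nat_lit 2032000027), (nat_lit 4688000194), (nat_lit 6250000000)], [], [(nat_lit 23129709190), (nat_lit 24354140048), (nat_lit 24740482923), (nat_lit 26260540100), (nat_lit 25041489211), (nat_lit 26729983459), (nat_lit 26806703232), (nat_lit 28245795612)], (nat_lit 1271251), (nat_lit 1271251), (nat_lit 1017188), (nat_lit 1779376), (nat_lit 1100000), (nat_lit 1870626), [(nat_lit 490000), (nat_lit 1100000), (nat_lit 1442501)], [(nat_lit 3), (nat_lit 50), (nat_lit 345), (nat_lit 125), (nat_lit 12)]⟩,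
 ⟨⟨[(nat_lit 80), (nat_lit 140), (nat_lit 180)], [(nat_lit 0), (nat_lit 0), (nat_lit 3656)], [((nat_lit 0), (nat_lit 0), (nat_lit 0)), ((nat_lit 0), (nat_lit 0), (nat_lit 0)), ((nat_lit 637), (nat_lit 1000), (nat_lit 908))], ((nat_lit 100), (nat_lit 73), (nat_lit 85))⟩, (nat_lit 3075367), (nat_lit 273), (nat_lit 273), (nat_lit 0), (nat_lit 0), [(nat_lit 4688000000), (nat_lit 9842000000), (nat_lit 14058000000)], [], [(nat_lit 27841198027), (nat_lit 30525788595), (nat_lit 29784280896), (nat_lit 32124851292), (nat_lit 21956067466), (nat_lit 24660049822), (nat_lit 24478358218), (nat_lit 26767888211)], (nat_lit 0), (nat_lit 0), (nat_lit 0), (nat_lit 0), (nat_lit 0), (nat_lit 0), [], [(nat_lit 19), (nat_lit 63), (nat_lit 428), (nat_lit 200), (nat_lit 10)]⟩,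
 Rw.none⟩) (.leaf ⟨(nat_lit 22), (nat_lit 978), (nat_lit 0), (nat_lit 0), (nat_lit 4629), (nat_lit 4303), (nat_lit 5914), (nat_lit 0), (nat_lit 0), (nat_lit 0), (nat_lit 88000), [((nat_lit 400), [((nat_lit 43), (nat_lit 5), (nat_lit 22))])], ⟨(nat_lit 6), true, false, false, (nat_lit 225), (nat_lit 0), (nat_lit 2237), [(nat_lit 1470123), (nat_lit 1483344), (nat_lit 1513819), (nat_lit 1531491), (nat_lit 1602531), (nat_lit 1599967), (nat_lit 1646249), (nat_lit 1648136)]⟩, ⟨(nat_lit 4), false, false, true, (nat_lit 174), (nat_lit 0), (nat_lit 2237), [(nat_lit 1351885), (nat_lit 1349998), (nat_lit 1397434), (nat_lit 1399999), (nat_lit 1480164), (nat_lit 1462492), (nat_lit 1525715), (nat_lit 1512494)]⟩, (nat_lit 4871604), (nat_lit 42360589), (nat_lit 14790666), (nat_lit 9848745), (nat_lit 5), (nat_lit 0), [⟨(nat_lit 0), (nat_lit 100), (nat_lit 44), (nat_lit 99), (nat_lit 407606054)⟩], [⟨(nat_lit 1), (nat_lit 99), (nat_lit 44), (nat_lit 100), (nat_lit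 657249796)⟩], [⟨(nat_lit 1), (nat_lit 40), (nat_lit 100), (nat_lit 100), (nat_lit 595089063)⟩], [],
 ⟨⟨[(nat_lit 40), (nat_lit 80), (nat_lit 100)], [(nat_lit 0), (nat_lit 2514), (nat_lit 3562)], [((nat_lit 0), (nat_lit 0), (nat_lit 0)), ((nat_lit 1000), (nat_lit 446), (nat_lit 804)), ((nat_lit 1000), (nat_lit 443), (nat_lit 819))], ((nat_lit 44), (nat_lit 100), (nat_lit 84))⟩, (nat_lit 964393), (nat_lit 231), (nat_lit 231), (nat_lit 0), (nat_lit 435246), [(nat_lit 1823484026), (nat_lit 3969860190), (nat_lit 5224571200)], [(nat_lit 0), (nat_lit 0), (nat_lit 0)], [(nat_lit 22882535261), (nat_lit 24031747922), (nat_lit 24488953344), (nat_lit 25956130100), (nat_lit 24773574344), (nat_lit 26400076328), (nat_lit 26568202557), (nat_lit 27957414462)], (nat_lit 1271251), (nat_lit 1271251), (nat_lit 1017188), (nat_lit 1779376), (nat_lit 1100000), (nat_lit 1870626), [(nat_lit 490000), (nat_lit 1100000), (nat_lit 1442501)], [(nat_lit 3), (nat_lit 50), (nat_lit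 345), (nat_lit 125), (nat_lit 12)]⟩,
 ⟨⟨[(nat_lit 80), (nat_lit 140), (nat_lit 180)], [(nat_lit 0), (nat_lit 0), (nat_lit 3656)], [((nat_lit 0), (nat_lit 0), (nat_lit 0)), ((nat_lit 0), (nat_lit 0), (nat_lit 0)), ((nat_lit 637), (nat_lit 1000), (nat_lit 908))], ((nat_lit 100), (nat_lit 73), (nat_lit 85))⟩, (nat_lit 0), (nat_lit 116), (nat_lit 116), (nat_lit 0), (nat_lit 0), [(nat_lit 4584864000), (nat_lit 9625476000), (nat_lit 13748724000)], [], [(nat_lit 12757438643), (nat_lit 15840908739), (nat_lit 16409970772), (nat_lit 18959903910), (nat_lit 26231738249), (nat_lit 28192728268), (nat_lit 27752233717), (nat_lit 29386635170)], (nat_lit 0), (nat_lit 0), (nat_lit 0), (nat_lit 0), (nat_lit 0), (nat_lit 0), [], [(nat_lit 19), (nat_lit 63), (nat_lit 483), (nat_lit 250), (nat_lit 11)]⟩,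
 Rw.none⟩))
noncomputable def c14_67 : Tr Lf :=
 (.spl (nat_lit 5) (nat_lit 200) (.spl (nat_lit 0) (nat_lit 390) (.spl (nat_lit 4) (nat_lit 200) (.leaf ⟨(nat_lit 895), (nat_lit 105), (nat_lit 0), (nat_lit 0), (nat_lit 0), (nat_lit 3481), (nat_lit 1173), (nat_lit 0), (nat_lit 0), (nat_lit 0), (nat_lit 341200), [((nat_lit 390), [((nat_lit 29), (nat_lit 0), (nat_lit 112)), ((nat_lit 29), (nat_lit 1), (nat_lit 783))])], ⟨(nat_lit 6), false, false, false, (nat_lit 225), (nat_lit 1581), (nat_lit 2237), [(nat_lit 1474080), (nat_lit 1478137), (nat_lit 1519538), (nat_lit 1524676), (nat_lit 1602558), (nat_lit 1601260), (nat_lit 1648016), (nat_lit 1647799)]⟩, ⟨(nat_lit 4), false, false, true, (nat_lit 161), (nat_lit 1581), (nat_lit 2237), [(nat_lit 1351886), (nat_lit 1352103), (nat_lit 1397434), (nat_lit 1398733), (nat_lit 1408901), (nat_lit 1406738), (nat_lit 1454450), (nat_lit 1453368)]⟩, (nat_lit 4755468), (nat_lit 43195269), (nat_lit 14967418), (nat_lit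 8837313), (nat_lit 4), (nat_lit 0), [], [], [], [],
 ⟨⟨[(nat_lit 40), (nat_lit 80), (nat_lit 100)], [(nat_lit 0), (nat_lit 2514), (nat_lit 3562)], [((nat_lit 0), (nat_lit 0), (nat_lit 0)), ((nat_lit 1000), (nat_lit 446), (nat_lit 804)), ((nat_lit 1000), (nat_lit 443), (nat_lit 819))], ((nat_lit 44), (nat_lit 100), (nat_lit 84))⟩, (nat_lit 0), (nat_lit 149), (nat_lit 149), (nat_lit 0), (nat_lit 240052), [(nat_lit 1460001546), (nat_lit 1078672036), (nat_lit 929928800)], [(nat_lit 0), (nat_lit 0), (nat_lit 0)], [(nat_lit 22034920258), (nat_lit 22678616640), (nat_lit 23953644884), (nat_lit 24521312230), (nat_lit 22964967998), (nat_lit 23570273746), (nat_lit 24737433500), (nat_lit 25287086450)], (nat_lit 1271251), (nat_lit 1271251), (nat_lit 1017188), (nat_lit 1779376), (nat_lit 1100000), (nat_lit 1442501), [(nat_lit 490000), (nat_lit 1100000), (nat_lit 1442501)], [(nat_lit 3), (nat_lit 50), (nat_lit 345), (nat_lit 125), (nat_lit 12)]⟩,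
 ⟨⟨[(nat_lit 80), (nat_lit 140), (nat_lit 180)], [(nat_lit 0), (nat_lit 0), (nat_lit 3656)], [((nat_lit 0), (nat_lit 0), (nat_lit 0)), ((nat_lit 0), (nat_lit 0), (nat_lit 0)), ((nat_lit 637), (nat_lit 1000), (nat_lit 908))], ((nat_lit 100), (nat_lit 73), (nat_lit 85))⟩, (nat_lit 52370), (nat_lit 753), (nat_lit 753), (nat_lit 0), (nat_lit 836599), [(nat_lit 492240000), (nat_lit 1033410000), (nat_lit 1476090000)], [], [(nat_lit 5189407481), (nat_lit 4748813954), (nat_lit 4567807376), (nat_lit 4643736422), (nat_lit 3726345900), (nat_lit 3743677400), (nat_lit 5094803346), (nat_lit 4025331153)], (nat_lit 1271251), (nat_lit 1271251), (nat_lit 1017188), (nat_lit 1779376), (nat_lit 0), (nat_lit 1412501), [(nat_lit 1100000), (nat_lit 2127501), (nat_lit 1271251)], [(nat_lit 19), (nat_lit 63), (nat_lit 428), (nat_lit 200), (nat_lit 10)]⟩,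
 Rw.none⟩) (.spl (nat_lit 3) (nat_lit 200) (.spl (nat_lit 1) (nat_lit 260) (.leaf ⟨(nat_lit 921), (nat_lit 79), (nat_lit 0), (nat_lit 0), (nat_lit 1843), (nat_lit 3471), (nat_lit 962), (nat_lit 0), (nat_lit 0), (nat_lit 0), (nat_lit 344550), [((nat_lit 390), [((nat_lit 29), (nat_lit 0), (nat_lit 159)), ((nat_lit 29), (nat_lit 1), (nat_lit 762))])], ⟨(nat_lit 6), false, false, false, (nat_lit 209), (nat_lit 1581), (nat_lit 2237), [(nat_lit 1474080), (nat_lit 1478137), (nat_lit 1496810), (nat_lit 1501407), (nat_lit 1545457), (nat_lit 1546538), (nat_lit 1568186), (nat_lit 1569808)]⟩, ⟨(nat_lit 5), false, false, true, (nat_lit 186), (nat_lit 1581), (nat_lit 2237), [(nat_lit 1408901), (nat_lit 1406738), (nat_lit 1454450), (nat_lit 1453368), (nat_lit 1480171), (nat_lit 1475033), (nat_lit 1525719), (nat_lit 1521663)]⟩, (nat_lit 4869111), (nat_lit 42743999), (nat_lit 13232612), (nat_lit 11023389), (nat_lit 5), (nat_lit 0), [⟨(nat_lit 0), (nat_lit 98),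 (nat_lit 38), (nat_lit 100), (nat_lit 17902191)⟩], [⟨(nat_lit 1), (nat_lit 99), (nat_lit 44), (nat_lit 100), (nat_lit 323637957)⟩], [⟨(nat_lit 0), (nat_lit 100), (nat_lit 97), (nat_lit 11), (nat_lit 3808265)⟩], [],
 ⟨⟨[(nat_lit 40), (nat_lit 80), (nat_lit 100)], [(nat_lit 0), (nat_lit 2514), (nat_lit 3562)], [((nat_lit 0), (nat_lit 0), (nat_lit 0)), ((nat_lit 1000), (nat_lit 446), (nat_lit 804)), ((nat_lit 1000), (nat_lit 443), (nat_lit 819))], ((nat_lit 44), (nat_lit 100), (nat_lit 84))⟩, (nat_lit 0), (nat_lit 139), (nat_lit 139), (nat_lit 0), (nat_lit 212272), [(nat_lit 1454952402), (nat_lit 972255496), (nat_lit 849415600)], [(nat_lit 0), (nat_lit 0), (nat_lit 0)], [(nat_lit 22891033891), (nat_lit 23493952857), (nat_lit 23812745337), (nat_lit 24378081354), (nat_lit 24159987847), (nat_lit 24757801447), (nat_lit 24987616225), (nat_lit 25659230430)], (nat_lit 1271251), (nat_lit 1271251), (nat_lit 1017188), (nat_lit 1440626), (nat_lit 1271251), (nat_lit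 1271251), [(nat_lit 490000), (nat_lit 1100000), (nat_lit 1442501)], [(nat_lit 3), (nat_lit 50), (nat_lit 260), (nat_lit 50), (nat_lit 8)]⟩,
 ⟨⟨[(nat_lit 80), (nat_lit 140), (nat_lit 180)], [(nat_lit 0), (nat_lit 0), (nat_lit 3656)], [((nat_lit 0), (nat_lit 0), (nat_lit 0)), ((nat_lit 0), (nat_lit 0), (nat_lit 0)), ((nat_lit 637), (nat_lit 1000), (nat_lit 908))], ((nat_lit 100), (nat_lit 73), (nat_lit 85))⟩, (nat_lit 0), (nat_lit 748), (nat_lit 748), (nat_lit 0), (nat_lit 824334), [(nat_lit 370352000), (nat_lit 777518000), (nat_lit 1110582000)], [], [(nat_lit 4046995477), (nat_lit 3541005681), (nat_lit 3450277368), (nat_lit 3516817853), (nat_lit 2728935711), (nat_lit 2701405306), (nat_lit 3360008336), (nat_lit 2915558324)], (nat_lit 1271251), (nat_lit 1271251), (nat_lit 1017188), (nat_lit 1440626), (nat_lit 0), (nat_lit 1412501), [(nat_lit 1100000), (nat_lit 2127501), (nat_lit 1271251)], [(nat_lit 19), (nat_lit 63), (nat_lit 401), (nat_lit 175),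 (nat_lit 9)]⟩,
 Rw.none⟩) (.trZ (nat_lit 0) (nat_lit 1) (nat_lit 3) (nat_lit 96) (nat_lit 44) (nat_lit 100) (nat_lit 170) (.leaf ⟨(nat_lit 863), (nat_lit 121), (nat_lit 0), (nat_lit 16), (nat_lit 0), (nat_lit 4292), (nat_lit 1442), (nat_lit 244), (nat_lit 0), (nat_lit 0), (nat_lit 257600), [((nat_lit 390), [((nat_lit 29), (nat_lit 0), (nat_lit 584)), ((nat_lit 29), (nat_lit 1), (nat_lit 279))])], ⟨(nat_lit 6), false, false, false, (nat_lit 224), (nat_lit 1581), (nat_lit 2237), [(nat_lit 1525360), (nat_lit 1528768), (nat_lit 1548089), (nat_lit 1552036), (nat_lit 1568186), (nat_lit 1569808), (nat_lit 1590915), (nat_lit 1593078)]⟩, ⟨(nat_lit 5), false, false, true, (nat_lit 186), (nat_lit 1581), (nat_lit 2237), [(nat_lit 1408901), (nat_lit 1406738), (nat_lit 1454450), (nat_lit 1453368), (nat_lit 1480171), (nat_lit 1475033), (nat_lit 1525719), (nat_lit 1521663)]⟩, (nat_lit 4967883), (nat_lit 41624166), (nat_lit 14527927), (nat_lit 10847907), (nat_lit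 5), (nat_lit 0), [⟨(nat_lit 0), (nat_lit 96), (nat_lit 44), (nat_lit 100), (nat_lit 63201774)⟩], [⟨(nat_lit 1), (nat_lit 99), (nat_lit 44), (nat_lit 100), (nat_lit 322219409)⟩], [], [],
 ⟨⟨[(nat_lit 40), (nat_lit 80), (nat_lit 100)], [(nat_lit 0), (nat_lit 2514), (nat_lit 3562)], [((nat_lit 0), (nat_lit 0), (nat_lit 0)), ((nat_lit 1000), (nat_lit 446), (nat_lit 804)), ((nat_lit 1000), (nat_lit 443), (nat_lit 819))], ((nat_lit 44), (nat_lit 100), (nat_lit 84))⟩, (nat_lit 3232), (nat_lit 144), (nat_lit 144), (nat_lit 0), (nat_lit 240019), [(nat_lit 1615623000), (nat_lit 1856323547), (nat_lit 1925733600)], [(nat_lit 0), (nat_lit 0), (nat_lit 0)], [(nat_lit 23820188544), (nat_lit 24510840921), (nat_lit 24460790901), (nat_lit 25117103805), (nat_lit 25098344198), (nat_lit 25772322019), (nat_lit 25659837398), (nat_lit 26406962158)], (nat_lit 1271251), (nat_lit 1271251), (nat_lit 1184688), (nat_lit 1444376), (nat_lit 1271251), (nat_lit 1271251), [(nat_lit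 490000), (nat_lit 1100000), (nat_lit 1442501)], [(nat_lit 3), (nat_lit 50), (nat_lit 260), (nat_lit 50), (nat_lit 8)]⟩,
 ⟨⟨[(nat_lit 80), (nat_lit 140), (nat_lit 180)], [(nat_lit 0), (nat_lit 792), (nat_lit 4228)], [((nat_lit 0), (nat_lit 0), (nat_lit 0)), ((nat_lit 1000), (nat_lit 959), (nat_lit 206)), ((nat_lit 709), (nat_lit 1000), (nat_lit 949))], ((nat_lit 100), (nat_lit 82), (nat_lit 87))⟩, (nat_lit 312863), (nat_lit 725), (nat_lit 725), (nat_lit 0), (nat_lit 796860), [(nat_lit 642256000), (nat_lit 1348354000), (nat_lit 1925946000)], [], [(nat_lit 5089708280), (nat_lit 4795566304), (nat_lit 4722121991), (nat_lit 4764746523), (nat_lit 4292745480), (nat_lit 3668795487), (nat_lit 4926979556), (nat_lit 4260766543)], (nat_lit 1271251), (nat_lit 1271251), (nat_lit 1184688), (nat_lit 1444376), (nat_lit 0), (nat_lit 1412501), [(nat_lit 1100000), (nat_lit 2127501), (nat_lit 1271251)], [(nat_lit 19), (nat_lit 63), (nat_lit 401), (nat_lit 175), (nat_lit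 9)]⟩,
 ⟨⟨[(nat_lit 140), (nat_lit 180), (nat_lit 200)], [(nat_lit 0), (nat_lit 0), (nat_lit 2835)], [((nat_lit 0), (nat_lit 0), (nat_lit 0)), ((nat_lit 0), (nat_lit 0), (nat_lit 0)), ((nat_lit 363), (nat_lit 1000), (nat_lit 798))], ((nat_lit 0), (nat_lit 0), (nat_lit 0))⟩, (nat_lit 4402), (nat_lit 300), (nat_lit 1833), (nat_lit 1249602), (nat_lit 2976577), [(nat_lit 157472000), (nat_lit 224928000), (nat_lit 262400000)], [], [(nat_lit 1066567552), (nat_lit 1024270856), (nat_lit 1046252000), (nat_lit 1007784578), (nat_lit 834598040), (nat_lit 940441440), (nat_lit 764162347), (nat_lit 728345067)], (nat_lit 780000), (nat_lit 1100000), (nat_lit 1271251), (nat_lit 1271251), (nat_lit 0), (nat_lit 1412501), [(nat_lit 1977501), (nat_lit 1271251), (nat_lit 1271251)], [(nat_lit 32), (nat_lit 67), (nat_lit 535), (nat_lit 175), (nat_lit 11)]⟩⟩))) (.spl (nat_lit 1) (nat_lit 260) (.leaf ⟨(nat_lit 897), (nat_lit 103), (nat_lit 0), (nat_lit 0), (nat_lit 0), (nat_lit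 4281), (nat_lit 1259), (nat_lit 0), (nat_lit 0), (nat_lit 0), (nat_lit 230850), [((nat_lit 390), [((nat_lit 29), (nat_lit 0), (nat_lit 853)), ((nat_lit 29), (nat_lit 1), (nat_lit 44))])], ⟨(nat_lit 6), false, true, false, (nat_lit 234), (nat_lit 1581), (nat_lit 2237), [(nat_lit 1545457), (nat_lit 1546538), (nat_lit 1568186), (nat_lit 1569808), (nat_lit 1602558), (nat_lit 1601260), (nat_lit 1625287), (nat_lit 1624529)]⟩, ⟨(nat_lit 5), false, false, true, (nat_lit 186), (nat_lit 1581), (nat_lit 2237), [(nat_lit 1408901), (nat_lit 1406738), (nat_lit 1454450), (nat_lit 1453368), (nat_lit 1480171), (nat_lit 1475033), (nat_lit 1525719), (nat_lit 1521663)]⟩, (nat_lit 5029136), (nat_lit 40840734), (nat_lit 15440473), (nat_lit 10718793), (nat_lit 5), (nat_lit 0), [], [⟨(nat_lit 1), (nat_lit 99), (nat_lit 44), (nat_lit 100), (nat_lit 318457817)⟩], [], [⟨(nat_lit 0), (nat_lit 99), (nat_lit 100), (nat_lit 45), (nat_lit 3262033)⟩],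
 ⟨⟨[(nat_lit 40), (nat_lit 80), (nat_lit 100)], [(nat_lit 0), (nat_lit 2514), (nat_lit 3562)], [((nat_lit 0), (nat_lit 0), (nat_lit 0)), ((nat_lit 1000), (nat_lit 446), (nat_lit 804)), ((nat_lit 1000), (nat_lit 443), (nat_lit 819))], ((nat_lit 44), (nat_lit 100), (nat_lit 84))⟩, (nat_lit 33839), (nat_lit 134), (nat_lit 134), (nat_lit 0), (nat_lit 212272), [(nat_lit 1638790458), (nat_lit 1958303527), (nat_lit 2171685200)], [(nat_lit 0), (nat_lit 0), (nat_lit 0)], [(nat_lit 24602942356), (nat_lit 25258398210), (nat_lit 25457317811), (nat_lit 26067075732), (nat_lit 25802000812), (nat_lit 26399555594), (nat_lit 26551081845), (nat_lit 27243489509)], (nat_lit 1271251), (nat_lit 1271251), (nat_lit 1271251), (nat_lit 1271251), (nat_lit 1271251), (nat_lit 1271251), [(nat_lit 490000), (nat_lit 1100000), (nat_lit 1442501)], [(nat_lit 3), (nat_lit 50), (nat_lit 203), (nat_lit 0), (nat_lit 6)]⟩,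
 ⟨⟨[(nat_lit 80), (nat_lit 140), (nat_lit 180)], [(nat_lit 0), (nat_lit 0), (nat_lit 3656)], [((nat_lit 0), (nat_lit 0), (nat_lit 0)), ((nat_lit 0), (nat_lit 0), (nat_lit 0)), ((nat_lit 637), (nat_lit 1000), (nat_lit 908))], ((nat_lit 100), (nat_lit 73), (nat_lit 85))⟩, (nat_lit 233530), (nat_lit 729), (nat_lit 729), (nat_lit 0), (nat_lit 824334), [(nat_lit 482864000), (nat_lit 1013726000), (nat_lit 1447974000)], [], [(nat_lit 3719483348), (nat_lit 3750199741), (nat_lit 3684199740), (nat_lit 3747359974), (nat_lit 3458215802), (nat_lit 2876549934), (nat_lit 2654395698), (nat_lit 2686469672)], (nat_lit 1271251), (nat_lit 1271251), (nat_lit 1271251), (nat_lit 1271251), (nat_lit 0), (nat_lit 1412501), [(nat_lit 1100000), (nat_lit 2127501), (nat_lit 1271251)], [(nat_lit 19), (nat_lit 63), (nat_lit 401), (nat_lit 175), (nat_lit 9)]⟩,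
 Rw.none⟩) (.leaf ⟨(nat_lit 830), (nat_lit 170), (nat_lit 0), (nat_lit 0), (nat_lit 0), (nat_lit 3520), (nat_lit 1910), (nat_lit 0), (nat_lit 0), (nat_lit 0), (nat_lit 335400), [((nat_lit 390), [((nat_lit 29), (nat_lit 1), (nat_lit 813)), ((nat_lit 43), (nat_lit 2), (nat_lit 17))])], ⟨(nat_lit 6), false, true, false, (nat_lit 243), (nat_lit 1581), (nat_lit 2237), [(nat_lit 1568186), (nat_lit 1569808), (nat_lit 1590915), (nat_lit 1593078), (nat_lit 1625287), (nat_lit 1624529), (nat_lit 1648016), (nat_lit 1647799)]⟩, ⟨(nat_lit 5), false, false, true, (nat_lit 186), (nat_lit 1581), (nat_lit 2237), [(nat_lit 1408901), (nat_lit 1406738), (nat_lit 1454450), (nat_lit 1453368), (nat_lit 1480171), (nat_lit 1475033), (nat_lit 1525719), (nat_lit 1521663)]⟩, (nat_lit 5078100), (nat_lit 40148045), (nat_lit 16251454), (nat_lit 10600501), (nat_lit 5), (nat_lit 0), [], [⟨(nat_lit 1), (nat_lit 100), (nat_lit 38), (nat_lit 96), (nat_lit 455814041)⟩], [], [⟨(nat_lit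 0), (nat_lit 100), (nat_lit 100), (nat_lit 22), (nat_lit 2221784)⟩],
 ⟨⟨[(nat_lit 40), (nat_lit 80), (nat_lit 100)], [(nat_lit 0), (nat_lit 2514), (nat_lit 3562)], [((nat_lit 0), (nat_lit 0), (nat_lit 0)), ((nat_lit 1000), (nat_lit 446), (nat_lit 804)), ((nat_lit 1000), (nat_lit 443), (nat_lit 819))], ((nat_lit 44), (nat_lit 100), (nat_lit 84))⟩, (nat_lit 0), (nat_lit 142), (nat_lit 142), (nat_lit 0), (nat_lit 240019), [(nat_lit 1464923814), (nat_lit 1101399245), (nat_lit 1102174800)], [(nat_lit 0), (nat_lit 0), (nat_lit 0)], [(nat_lit 24015611534), (nat_lit 24611396735), (nat_lit 24886141520), (nat_lit 25442697360), (nat_lit 25215118908), (nat_lit 25761113229), (nat_lit 25993493780), (nat_lit 26575227728)], (nat_lit 1271251), (nat_lit 1271251), (nat_lit 1271251), (nat_lit 1271251), (nat_lit 1271251), (nat_lit 1271251), [(nat_lit 490000), (nat_lit 1100000), (nat_lit 1442501)], [(nat_lit 3), (nat_lit 50), (nat_lit 203), (nat_lit 0), (nat_lit 6)]⟩,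
 ⟨⟨[(nat_lit 80), (nat_lit 140), (nat_lit 180)], [(nat_lit 0), (nat_lit 792), (nat_lit 4228)], [((nat_lit 0), (nat_lit 0), (nat_lit 0)), ((nat_lit 1000), (nat_lit 959), (nat_lit 206)), ((nat_lit 709), (nat_lit 1000), (nat_lit 949))], ((nat_lit 100), (nat_lit 82), (nat_lit 87))⟩, (nat_lit 558390), (nat_lit 692), (nat_lit 692), (nat_lit 0), (nat_lit 796860), [(nat_lit 796960000), (nat_lit 1673140000), (nat_lit 2389860000)], [], [(nat_lit 5126777840), (nat_lit 5238395960), (nat_lit 5162399660), (nat_lit 5342717800), (nat_lit 4489759363), (nat_lit 3762602065), (nat_lit 3690427800), (nat_lit 3820464220)], (nat_lit 1271251), (nat_lit 1271251), (nat_lit 1271251), (nat_lit 1271251), (nat_lit 0), (nat_lit 1412501), [(nat_lit 1100000), (nat_lit 2127501), (nat_lit 1271251)], [(nat_lit 19), (nat_lit 63), (nat_lit 428), (nat_lit 200), (nat_lit 10)]⟩,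
 Rw.none⟩)))) (.trZ (nat_lit 0) (nat_lit 1) (nat_lit 3) (nat_lit 99) (nat_lit 31) (nat_lit 100) (nat_lit 170) (.trX (nat_lit 4) (nat_lit 0) (nat_lit 2) (nat_lit 31) (nat_lit 100) (nat_lit 99) (nat_lit 230) (.leaf ⟨(nat_lit 905), (nat_lit 95), (nat_lit 0), (nat_lit 0), (nat_lit 0), (nat_lit 3622), (nat_lit 1127), (nat_lit 0), (nat_lit 0), (nat_lit 0), (nat_lit 235400), [((nat_lit 400), [((nat_lit 29), (nat_lit 0), (nat_lit 844)), ((nat_lit 29), (nat_lit 1), (nat_lit 61))])], ⟨(nat_lit 6), false, false, false, (nat_lit 231), (nat_lit 0), (nat_lit 1582), [(nat_lit 1503356), (nat_lit 1510203), (nat_lit 1548673), (nat_lit 1558889), (nat_lit 1601257), (nat_lit 1599992), (nat_lit 1646579), (nat_lit 1648683)]⟩, ⟨(nat_lit 4), false, false, true, (nat_lit 168), (nat_lit 0), (nat_lit 1582), [(nat_lit 1352101), (nat_lit 1349997), (nat_lit 1398733), (nat_lit 1399999), (nat_lit 1447710), (nat_lit 1437494), (nat_lit 1494343), (nat_lit 1487497)]⟩, (nat_lit 4859916),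 (nat_lit 42241474), (nat_lit 15418448), (nat_lit 9340078), (nat_lit 4), (nat_lit 0), [], [⟨(nat_lit 1), (nat_lit 100), (nat_lit 31), (nat_lit 99), (nat_lit 413625317)⟩], [], [⟨(nat_lit 0), (nat_lit 100), (nat_lit 99), (nat_lit 35), (nat_lit 5161941)⟩],
 ⟨⟨[(nat_lit 40), (nat_lit 60), (nat_lit 80)], [(nat_lit 0), (nat_lit 2136), (nat_lit 3185)], [((nat_lit 0), (nat_lit 0), (nat_lit 0)), ((nat_lit 1000), (nat_lit 343), (nat_lit 808)), ((nat_lit 1000), (nat_lit 338), (nat_lit 820))], ((nat_lit 32), (nat_lit 100), (nat_lit 86))⟩, (nat_lit 0), (nat_lit 135), (nat_lit 135), (nat_lit 0), (nat_lit 271332), [(nat_lit 1575355682), (nat_lit 1284836328), (nat_lit 1619095200)], [(nat_lit 0), (nat_lit 0), (nat_lit 0)], [(nat_lit 23119460696), (nat_lit 23756476842), (nat_lit 24718828795), (nat_lit 25285471092), (nat_lit 24689165560), (nat_lit 25257154474), (nat_lit 26081693651), (nat_lit 26745052407)], (nat_lit 1271251), (nat_lit 1271251), (nat_lit 1184688),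 (nat_lit 1790626), (nat_lit 1100000), (nat_lit 1699376), [(nat_lit 490000), (nat_lit 780000), (nat_lit 1100000)], [(nat_lit 2), (nat_lit 44), (nat_lit 203), (nat_lit 0), (nat_lit 7)]⟩,
 ⟨⟨[(nat_lit 80), (nat_lit 140), (nat_lit 180)], [(nat_lit 0), (nat_lit 0), (nat_lit 3656)], [((nat_lit 0), (nat_lit 0), (nat_lit 0)), ((nat_lit 0), (nat_lit 0), (nat_lit 0)), ((nat_lit 637), (nat_lit 1000), (nat_lit 908))], ((nat_lit 100), (nat_lit 73), (nat_lit 85))⟩, (nat_lit 217209), (nat_lit 830), (nat_lit 830), (nat_lit 0), (nat_lit 1055771), [(nat_lit 445360000), (nat_lit 934990000), (nat_lit 1335510000)], [], [(nat_lit 4212453459), (nat_lit 3624625667), (nat_lit 3507427516), (nat_lit 3553620804), (nat_lit 4002745573), (nat_lit 2951011001), (nat_lit 2593501802), (nat_lit 2619445063)], (nat_lit 1271251), (nat_lit 1271251), (nat_lit 1271251), (nat_lit 1271251), (nat_lit 0), (nat_lit 1412501), [(nat_lit 1100000), (nat_lit 2127501), (nat_lit 1271251)], [(nat_lit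 19), (nat_lit 63), (nat_lit 428), (nat_lit 200), (nat_lit 10)]⟩,
 Rw.none⟩)))) (.leaf ⟨(nat_lit 929), (nat_lit 38), (nat_lit 0), (nat_lit 33), (nat_lit 0), (nat_lit 3715), (nat_lit 949), (nat_lit 377), (nat_lit 0), (nat_lit 0), (nat_lit 309950), [((nat_lit 400), [((nat_lit 29), (nat_lit 0), (nat_lit 411)), ((nat_lit 29), (nat_lit 1), (nat_lit 518))])], ⟨(nat_lit 6), false, false, false, (nat_lit 225), (nat_lit 0), (nat_lit 2237), [(nat_lit 1470123), (nat_lit 1483344), (nat_lit 1513819), (nat_lit 1531491), (nat_lit 1602531), (nat_lit 1599967), (nat_lit 1646249), (nat_lit 1648136)]⟩, ⟨(nat_lit 4), false, false, true, (nat_lit 174), (nat_lit 0), (nat_lit 2237), [(nat_lit 1351885), (nat_lit 1349998), (nat_lit 1397434), (nat_lit 1399999), (nat_lit 1480164), (nat_lit 1462492), (nat_lit 1525715), (nat_lit 1512494)]⟩, (nat_lit 4871604), (nat_lit 42360589), (nat_lit 14790666), (nat_lit 9848745), (nat_lit 5), (nat_lit 0), [], [⟨(nat_lit 1), (nat_lit 100),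 (nat_lit 31), (nat_lit 95), (nat_lit 357024762)⟩], [⟨(nat_lit 1), (nat_lit 60), (nat_lit 100), (nat_lit 100), (nat_lit 3545163)⟩], [],
 ⟨⟨[(nat_lit 40), (nat_lit 80), (nat_lit 100)], [(nat_lit 0), (nat_lit 2514), (nat_lit 3562)], [((nat_lit 0), (nat_lit 0), (nat_lit 0)), ((nat_lit 1000), (nat_lit 446), (nat_lit 804)), ((nat_lit 1000), (nat_lit 443), (nat_lit 819))], ((nat_lit 44), (nat_lit 100), (nat_lit 84))⟩, (nat_lit 0), (nat_lit 165), (nat_lit 165), (nat_lit 0), (nat_lit 273360), [(nat_lit 1493675612), (nat_lit 1028655494), (nat_lit 1226652400)], [(nat_lit 0), (nat_lit 0), (nat_lit 0)], [(nat_lit 22362629188), (nat_lit 23592704838), (nat_lit 24120113885), (nat_lit 25359486500), (nat_lit 24441053831), (nat_lit 25753458351), (nat_lit 26100741234), (nat_lit 27392187408)], (nat_lit 1271251), (nat_lit 1271251), (nat_lit 1017188), (nat_lit 1779376), (nat_lit 1100000), (nat_lit 1870626), [(nat_lit 490000), (nat_lit 1100000), (nat_lit 1442501)], [(nat_lit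 3), (nat_lit 50), (nat_lit 345), (nat_lit 125), (nat_lit 12)]⟩,
 ⟨⟨[(nat_lit 80), (nat_lit 140), (nat_lit 180)], [(nat_lit 0), (nat_lit 0), (nat_lit 3656)], [((nat_lit 0), (nat_lit 0), (nat_lit 0)), ((nat_lit 0), (nat_lit 0), (nat_lit 0)), ((nat_lit 637), (nat_lit 1000), (nat_lit 908))], ((nat_lit 100), (nat_lit 73), (nat_lit 85))⟩, (nat_lit 81446), (nat_lit 723), (nat_lit 723), (nat_lit 0), (nat_lit 1057326), [(nat_lit 332848000), (nat_lit 698782000), (nat_lit 998118000)], [], [(nat_lit 1930192186), (nat_lit 2047589357), (nat_lit 2940585434), (nat_lit 2075359594), (nat_lit 2690028886), (nat_lit 2765198150), (nat_lit 2576178196), (nat_lit 2627217165)], (nat_lit 1271251), (nat_lit 1271251), (nat_lit 1017188), (nat_lit 1779376), (nat_lit 1271251), (nat_lit 1271251), [(nat_lit 1100000), (nat_lit 2127501), (nat_lit 1271251)], [(nat_lit 19), (nat_lit 63), (nat_lit 483), (nat_lit 250), (nat_lit 11)]⟩,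
 ⟨⟨[(nat_lit 140), (nat_lit 180), (nat_lit 200)], [(nat_lit 0), (nat_lit 0), (nat_lit 2835)], [((nat_lit 0), (nat_lit 0), (nat_lit 0)), ((nat_lit 0), (nat_lit 0), (nat_lit 0)), ((nat_lit 363), (nat_lit 1000), (nat_lit 798))], ((nat_lit 0), (nat_lit 0), (nat_lit 0))⟩, (nat_lit 9079), (nat_lit 300), (nat_lit 2031), (nat_lit 2577306), (nat_lit 3570166), [(nat_lit 324786000), (nat_lit 463914000), (nat_lit 541200000)], [], [(nat_lit 2072081110), (nat_lit 2016228126), (nat_lit 1969162264), (nat_lit 1910853947), (nat_lit 1942309065), (nat_lit 1879020288), (nat_lit 1837927443), (nat_lit 1774550167)], (nat_lit 780000), (nat_lit 1100000), (nat_lit 1100000), (nat_lit 1870626), (nat_lit 1271251), (nat_lit 1271251), [(nat_lit 1977501), (nat_lit 1271251), (nat_lit 1271251)], [(nat_lit 32), (nat_lit 67), (nat_lit 608), (nat_lit 200), (nat_lit 12)]⟩⟩))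
noncomputable def c14_68 : Tr Lf :=
 (.leaf ⟨(nat_lit 0), (nat_lit 943), (nat_lit 0), (nat_lit 57), (nat_lit 15834), (nat_lit 4379), (nat_lit 7673), (nat_lit 711), (nat_lit 0), (nat_lit 0), (nat_lit 0), [], Pd.none, Pd.none, (nat_lit 0), (nat_lit 1), (nat_lit 0), (nat_lit 0), (nat_lit 4), (nat_lit 0), [⟨(nat_lit 0), (nat_lit 100), (nat_lit 44), (nat_lit 99), (nat_lit 636934849)⟩], [⟨(nat_lit 1), (nat_lit 94), (nat_lit 44), (nat_lit 100), (nat_lit 615207466)⟩], [], [],
 ⟨⟨[(nat_lit 40), (nat_lit 80), (nat_lit 100)], [(nat_lit 0), (nat_lit 2514), (nat_lit 3562)], [((nat_lit 0), (nat_lit 0), (nat_lit 0)), ((nat_lit 1000), (nat_lit 446), (nat_lit 804)), ((nat_lit 1000), (nat_lit 443), (nat_lit 819))], ((nat_lit 44), (nat_lit 100), (nat_lit 84))⟩, (nat_lit 1177237), (nat_lit 204), (nat_lit 204), (nat_lit 0), (nat_lit 351841), [(nat_lit 2032000026), (nat_lit 4688000052), (nat_lit 6250000000)], [], [(nat_lit 23022861019), (nat_lit 24305270048), (nat_lit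 24767867207), (nat_lit 26033247300), (nat_lit 25764875259), (nat_lit 27333588118), (nat_lit 27414257268), (nat_lit 28755516147)], (nat_lit 1271251), (nat_lit 1271251), (nat_lit 1017188), (nat_lit 1779376), (nat_lit 1100000), (nat_lit 2041876), [(nat_lit 490000), (nat_lit 1100000), (nat_lit 1442501)], [(nat_lit 3), (nat_lit 50), (nat_lit 373), (nat_lit 150), (nat_lit 13)]⟩,
 ⟨⟨[(nat_lit 80), (nat_lit 140), (nat_lit 180)], [(nat_lit 0), (nat_lit 0), (nat_lit 3656)], [((nat_lit 0), (nat_lit 0), (nat_lit 0)), ((nat_lit 0), (nat_lit 0), (nat_lit 0)), ((nat_lit 637), (nat_lit 1000), (nat_lit 908))], ((nat_lit 100), (nat_lit 73), (nat_lit 85))⟩, (nat_lit 3052955), (nat_lit 273), (nat_lit 273), (nat_lit 0), (nat_lit 0), [(nat_lit 4688000000), (nat_lit 9842000000), (nat_lit 14058000000)], [], [(nat_lit 27552795905), (nat_lit 30131498282), (nat_lit 29521020736), (nat_lit 32014550764), (nat_lit 23110902814), (nat_lit 25340420435), (nat_lit 25219335802), (nat_lit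 27322216487)], (nat_lit 0), (nat_lit 0), (nat_lit 0), (nat_lit 0), (nat_lit 0), (nat_lit 0), [], [(nat_lit 19), (nat_lit 63), (nat_lit 428), (nat_lit 200), (nat_lit 10)]⟩,
 ⟨⟨[(nat_lit 120), (nat_lit 160), (nat_lit 200)], [(nat_lit 0), (nat_lit 0), (nat_lit 3198)], [((nat_lit 0), (nat_lit 0), (nat_lit 0)), ((nat_lit 0), (nat_lit 0), (nat_lit 0)), ((nat_lit 572), (nat_lit 1000), (nat_lit 714))], ((nat_lit 0), (nat_lit 0), (nat_lit 0))⟩, (nat_lit 27805), (nat_lit 300), (nat_lit 1549), (nat_lit 4229400), (nat_lit 2403196), [(nat_lit 454176000), (nat_lit 676704000), (nat_lit 934800000)], [], [(nat_lit 3786148860), (nat_lit 3751715106), (nat_lit 3634377453), (nat_lit 3596313506), (nat_lit 3008872218), (nat_lit 2972745197), (nat_lit 3828201999), (nat_lit 4029042165)], (nat_lit 1100000), (nat_lit 1271251), (nat_lit 1100000), (nat_lit 2041876), (nat_lit 0), (nat_lit 1412501), [(nat_lit 1695001), (nat_lit 1271251), (nat_lit 1271251)], [(nat_lit 29), (nat_lit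 66), (nat_lit 469), (nat_lit 175), (nat_lit 10)]⟩⟩)
noncomputable def c14_69 : Tr Lf :=
 (.spl (nat_lit 0) (nat_lit 390) (.leaf ⟨(nat_lit 898), (nat_lit 91), (nat_lit 0), (nat_lit 11), (nat_lit 466), (nat_lit 3531), (nat_lit 1169), (nat_lit 162), (nat_lit 0), (nat_lit 0), (nat_lit 337150), [((nat_lit 390), [((nat_lit 29), (nat_lit 0), (nat_lit 147)), ((nat_lit 29), (nat_lit 1), (nat_lit 751))])], ⟨(nat_lit 6), false, false, false, (nat_lit 225), (nat_lit 1581), (nat_lit 2237), [(nat_lit 1474080), (nat_lit 1478137), (nat_lit 1519538), (nat_lit 1524676), (nat_lit 1602558), (nat_lit 1601260), (nat_lit 1648016), (nat_lit 1647799)]⟩, ⟨(nat_lit 4), false, false, true, (nat_lit 175), (nat_lit 1581), (nat_lit 2237), [(nat_lit 1397434), (nat_lit 1398733), (nat_lit 1420170), (nat_lit 1422009), (nat_lit 1454450), (nat_lit 1453368), (nat_lit 1477224), (nat_lit 1476683)]⟩, (nat_lit 4880339), (nat_lit 42293758), (nat_lit 14778464), (nat_lit 9927778), (nat_lit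 4), (nat_lit 0), [], [], [], [],
 ⟨⟨[(nat_lit 40), (nat_lit 80), (nat_lit 100)], [(nat_lit 0), (nat_lit 2514), (nat_lit 3562)], [((nat_lit 0), (nat_lit 0), (nat_lit 0)), ((nat_lit 1000), (nat_lit 446), (nat_lit 804)), ((nat_lit 1000), (nat_lit 443), (nat_lit 819))], ((nat_lit 44), (nat_lit 100), (nat_lit 84))⟩, (nat_lit 0), (nat_lit 135), (nat_lit 135), (nat_lit 0), (nat_lit 192251), [(nat_lit 1462362180), (nat_lit 1031713214), (nat_lit 970694800)], [(nat_lit 0), (nat_lit 0), (nat_lit 0)], [(nat_lit 22020228211), (nat_lit 22686450290), (nat_lit 23949186549), (nat_lit 24542831705), (nat_lit 22949953444), (nat_lit 23594877513), (nat_lit 24749200554), (nat_lit 25330526248)], (nat_lit 1271251), (nat_lit 1271251), (nat_lit 1017188), (nat_lit 1779376), (nat_lit 1100000), (nat_lit 1442501), [(nat_lit 490000), (nat_lit 1100000), (nat_lit 1442501)], [(nat_lit 3), (nat_lit 50), (nat_lit 345), (nat_lit 125), (nat_lit 12)]⟩,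
 ⟨⟨[(nat_lit 80), (nat_lit 140), (nat_lit 180)], [(nat_lit 0), (nat_lit 0), (nat_lit 3656)], [((nat_lit 0), (nat_lit 0), (nat_lit 0)), ((nat_lit 0), (nat_lit 0), (nat_lit 0)), ((nat_lit 637), (nat_lit 1000), (nat_lit 908))], ((nat_lit 100), (nat_lit 73), (nat_lit 85))⟩, (nat_lit 143223), (nat_lit 639), (nat_lit 639), (nat_lit 0), (nat_lit 626776), [(nat_lit 478176000), (nat_lit 1003884000), (nat_lit 1433916000)], [], [(nat_lit 5094101447), (nat_lit 4221828806), (nat_lit 4043930460), (nat_lit 4155659716), (nat_lit 3558123874), (nat_lit 3201449427), (nat_lit 4962841910), (nat_lit 3897016681)], (nat_lit 1271251), (nat_lit 1271251), (nat_lit 1017188), (nat_lit 1779376), (nat_lit 0), (nat_lit 1412501), [(nat_lit 1100000), (nat_lit 2127501), (nat_lit 1271251)], [(nat_lit 19), (nat_lit 63), (nat_lit 428), (nat_lit 200), (nat_lit 10)]⟩,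
 ⟨⟨[(nat_lit 120), (nat_lit 160), (nat_lit 200)], [(nat_lit 0), (nat_lit 0), (nat_lit 3198)], [((nat_lit 0), (nat_lit 0), (nat_lit 0)), ((nat_lit 0), (nat_lit 0), (nat_lit 0)), ((nat_lit 572), (nat_lit 1000), (nat_lit 714))], ((nat_lit 0), (nat_lit 0), (nat_lit 0))⟩, (nat_lit 5366), (nat_lit 300), (nat_lit 1064), (nat_lit 816200), (nat_lit 1313320), [(nat_lit 87648000), (nat_lit 130592000), (nat_lit 180400000)], [], [(nat_lit 702771256), (nat_lit 694272711), (nat_lit 685774166), (nat_lit 677573352), (nat_lit 549210912), (nat_lit 590841367), (nat_lit 632471130), (nat_lit 675123522)], (nat_lit 1100000), (nat_lit 1271251), (nat_lit 1100000), (nat_lit 1442501), (nat_lit 0), (nat_lit 1412501), [(nat_lit 1695001), (nat_lit 1271251), (nat_lit 1271251)], [(nat_lit 29), (nat_lit 66), (nat_lit 373), (nat_lit 150), (nat_lit 8)]⟩⟩) (.trZ (nat_lit 0) (nat_lit 1) (nat_lit 3) (nat_lit 99) (nat_lit 31) (nat_lit 100) (nat_lit 170) (.leaf ⟨(nat_lit 908), (nat_lit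 92), (nat_lit 0), (nat_lit 0), (nat_lit 0), (nat_lit 3567), (nat_lit 1091), (nat_lit 0), (nat_lit 0), (nat_lit 0), (nat_lit 241700), [((nat_lit 400), [((nat_lit 29), (nat_lit 0), (nat_lit 810)), ((nat_lit 29), (nat_lit 1), (nat_lit 98))])], ⟨(nat_lit 6), false, false, false, (nat_lit 231), (nat_lit 0), (nat_lit 1582), [(nat_lit 1503356), (nat_lit 1510203), (nat_lit 1548673), (nat_lit 1558889), (nat_lit 1601257), (nat_lit 1599992), (nat_lit 1646579), (nat_lit 1648683)]⟩, ⟨(nat_lit 4), false, false, true, (nat_lit 175), (nat_lit 0), (nat_lit 1582), [(nat_lit 1398733), (nat_lit 1399999), (nat_lit 1421394), (nat_lit 1424345), (nat_lit 1453367), (nat_lit 1449998), (nat_lit 1476683), (nat_lit 1474999)]⟩, (nat_lit 4917384), (nat_lit 41820038), (nat_lit 15322012), (nat_lit 9857950), (nat_lit 4), (nat_lit 0), [⟨(nat_lit 0), (nat_lit 96), (nat_lit 22), (nat_lit 100), (nat_lit 206501662)⟩], [], [⟨(nat_lit 0), (nat_lit 100), (nat_lit 92), (nat_lit 31), (nat_lit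 9871033)⟩], [],
 ⟨⟨[(nat_lit 40), (nat_lit 60), (nat_lit 80)], [(nat_lit 0), (nat_lit 2136), (nat_lit 3185)], [((nat_lit 0), (nat_lit 0), (nat_lit 0)), ((nat_lit 1000), (nat_lit 343), (nat_lit 808)), ((nat_lit 1000), (nat_lit 338), (nat_lit 820))], ((nat_lit 32), (nat_lit 100), (nat_lit 86))⟩, (nat_lit 0), (nat_lit 124), (nat_lit 124), (nat_lit 0), (nat_lit 225588), [(nat_lit 1568494468), (nat_lit 1245954964), (nat_lit 1565544800)], [(nat_lit 0), (nat_lit 0), (nat_lit 0)], [(nat_lit 23149291070), (nat_lit 23781579319), (nat_lit 24749188640), (nat_lit 25311872944), (nat_lit 24046732789), (nat_lit 24640007957), (nat_lit 25529132117), (nat_lit 26058127544)], (nat_lit 1271251), (nat_lit 1271251), (nat_lit 1184688), (nat_lit 1790626), (nat_lit 1100000), (nat_lit 1442501), [(nat_lit 490000), (nat_lit 780000), (nat_lit 1100000)], [(nat_lit 2), (nat_lit 44), (nat_lit 203), (nat_lit 0), (nat_lit 7)]⟩,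
 ⟨⟨[(nat_lit 80), (nat_lit 140), (nat_lit 180)], [(nat_lit 0), (nat_lit 0), (nat_lit 3656)], [((nat_lit 0), (nat_lit 0), (nat_lit 0)), ((nat_lit 0), (nat_lit 0), (nat_lit 0)), ((nat_lit 637), (nat_lit 1000), (nat_lit 908))], ((nat_lit 100), (nat_lit 73), (nat_lit 85))⟩, (nat_lit 209753), (nat_lit 741), (nat_lit 741), (nat_lit 0), (nat_lit 828184), [(nat_lit 431296000), (nat_lit 905464000), (nat_lit 1293336000)], [], [(nat_lit 4078910727), (nat_lit 3511417486), (nat_lit 3397979080), (nat_lit 3442687298), (nat_lit 3876315601), (nat_lit 2858176809), (nat_lit 2513344862), (nat_lit 2537996497)], (nat_lit 1271251), (nat_lit 1271251), (nat_lit 1271251), (nat_lit 1271251), (nat_lit 0), (nat_lit 1412501), [(nat_lit 1100000), (nat_lit 2127501), (nat_lit 1271251)], [(nat_lit 19), (nat_lit 63), (nat_lit 428), (nat_lit 200), (nat_lit 10)]⟩,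
 Rw.none⟩)))
noncomputable def c14_70 : Tr Lf :=
 (.spl (nat_lit 5) (nat_lit 120) (.spl (nat_lit 1) (nat_lit 260) (.spl (nat_lit 3) (nat_lit 200) (.spl (nat_lit 6) (nat_lit 68) (.leaf ⟨(nat_lit 910), (nat_lit 44), (nat_lit 0), (nat_lit 46), (nat_lit 0), (nat_lit 3489), (nat_lit 1209), (nat_lit 640), (nat_lit 0), (nat_lit 0), (nat_lit 243700), [((nat_lit 390), [((nat_lit 28), (nat_lit 0), (nat_lit 802)), ((nat_lit 28), (nat_lit 1), (nat_lit 108))])], ⟨(nat_lit 6), false, false, false, (nat_lit 209), (nat_lit 1581), (nat_lit 2237), [(nat_lit 1474080), (nat_lit 1478137), (nat_lit 1496810), (nat_lit 1501407), (nat_lit 1545457), (nat_lit 1546538), (nat_lit 1568186), (nat_lit 1569808)]⟩, ⟨(nat_lit 5), false, false, true, (nat_lit 206), (nat_lit 1581), (nat_lit 2237), [(nat_lit 1454450), (nat_lit 1453368), (nat_lit 1477224), (nat_lit 1476683), (nat_lit 1554227), (nat_lit 1548981), (nat_lit 1577001), (nat_lit 1572296)]⟩, (nat_lit 5016602), (nat_lit 41382764),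 (nat_lit 12971564), (nat_lit 12645672), (nat_lit 5), (nat_lit 0), [], [⟨(nat_lit 1), (nat_lit 98), (nat_lit 38), (nat_lit 100), (nat_lit 292439614)⟩], [⟨(nat_lit 0), (nat_lit 100), (nat_lit 96), (nat_lit 20), (nat_lit 18033486)⟩], [],
 ⟨⟨[(nat_lit 40), (nat_lit 60), (nat_lit 80)], [(nat_lit 0), (nat_lit 1539), (nat_lit 2453)], [((nat_lit 0), (nat_lit 0), (nat_lit 0)), ((nat_lit 1000), (nat_lit 478), (nat_lit 704)), ((nat_lit 1000), (nat_lit 474), (nat_lit 714))], ((nat_lit 45), (nat_lit 100), (nat_lit 78))⟩, (nat_lit 0), (nat_lit 109), (nat_lit 109), (nat_lit 0), (nat_lit 162815), [(nat_lit 1566188043), (nat_lit 1319327260), (nat_lit 1547133600)], [(nat_lit 0), (nat_lit 0), (nat_lit 0)], [(nat_lit 22879737516), (nat_lit 23523181952), (nat_lit 23872446994), (nat_lit 24468056770), (nat_lit 24959667779), (nat_lit 25600771346), (nat_lit 25794693074), (nat_lit 26439887358)], (nat_lit 1271251), (nat_lit 1271251), (nat_lit 1017188), (nat_lit 1440626),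 (nat_lit 1271251), (nat_lit 1271251), [(nat_lit 490000), (nat_lit 780000), (nat_lit 1100000)], [(nat_lit 2), (nat_lit 44), (nat_lit 260), (nat_lit 50), (nat_lit 10)]⟩,
 ⟨⟨[(nat_lit 80), (nat_lit 140), (nat_lit 180)], [(nat_lit 0), (nat_lit 0), (nat_lit 3656)], [((nat_lit 0), (nat_lit 0), (nat_lit 0)), ((nat_lit 0), (nat_lit 0), (nat_lit 0)), ((nat_lit 637), (nat_lit 1000), (nat_lit 908))], ((nat_lit 100), (nat_lit 81), (nat_lit 77))⟩, (nat_lit 232752), (nat_lit 581), (nat_lit 581), (nat_lit 0), (nat_lit 479581), [(nat_lit 421920000), (nat_lit 885780000), (nat_lit 1265220000)], [], [(nat_lit 3029464077), (nat_lit 3122222097), (nat_lit 3762763434), (nat_lit 3196779756), (nat_lit 3634516713), (nat_lit 3081514749), (nat_lit 4449413853), (nat_lit 3905291616)], (nat_lit 1271251), (nat_lit 1271251), (nat_lit 1017188), (nat_lit 1440626), (nat_lit 0), (nat_lit 780000), [(nat_lit 1100000), (nat_lit 2127501), (nat_lit 1271251)], [(nat_lit 19), (nat_lit 63),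 (nat_lit 373), (nat_lit 150), (nat_lit 9)]⟩,
 ⟨⟨[(nat_lit 120), (nat_lit 160), (nat_lit 200)], [(nat_lit 0), (nat_lit 0), (nat_lit 3198)], [((nat_lit 0), (nat_lit 0), (nat_lit 0)), ((nat_lit 0), (nat_lit 0), (nat_lit 0)), ((nat_lit 572), (nat_lit 1000), (nat_lit 714))], ((nat_lit 0), (nat_lit 0), (nat_lit 0))⟩, (nat_lit 22439), (nat_lit 300), (nat_lit 944), (nat_lit 3413201), (nat_lit 1114045), [(nat_lit 366528000), (nat_lit 546112000), (nat_lit 754400000)], [], [(nat_lit 2915521916), (nat_lit 2881796062), (nat_lit 2834678578), (nat_lit 2811497002), (nat_lit 2382296240), (nat_lit 2349845605), (nat_lit 2302874197), (nat_lit 2268309131)], (nat_lit 1100000), (nat_lit 1271251), (nat_lit 1271251), (nat_lit 1271251), (nat_lit 0), (nat_lit 780000), [(nat_lit 1695001), (nat_lit 1271251), (nat_lit 1271251)], [(nat_lit 29), (nat_lit 66), (nat_lit 373), (nat_lit 150), (nat_lit 8)]⟩⟩) (.spl (nat_lit 0) (nat_lit 385) (.leaf ⟨(nat_lit 886), (nat_lit 62), (nat_lit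 0), (nat_lit 52), (nat_lit 6468), (nat_lit 3602), (nat_lit 1462), (nat_lit 764), (nat_lit 0), (nat_lit 0), (nat_lit 221500), [((nat_lit 385), [((nat_lit 29), (nat_lit 0), (nat_lit 886))])], ⟨(nat_lit 6), false, false, false, (nat_lit 209), (nat_lit 1936), (nat_lit 2237), [(nat_lit 1474241), (nat_lit 1476122), (nat_lit 1497007), (nat_lit 1499125), (nat_lit 1545531), (nat_lit 1546004), (nat_lit 1568296), (nat_lit 1569006)]⟩, ⟨(nat_lit 5), false, false, true, (nat_lit 206), (nat_lit 1936), (nat_lit 2237), [(nat_lit 1454450), (nat_lit 1453977), (nat_lit 1477224), (nat_lit 1476988), (nat_lit 1554227), (nat_lit 1551783), (nat_lit 1577001), (nat_lit 1574794)]⟩, (nat_lit 5017031), (nat_lit 41379003), (nat_lit 12945620), (nat_lit 12675377), (nat_lit 5), (nat_lit 0), [⟨(nat_lit 0), (nat_lit 98), (nat_lit 41), (nat_lit 100), (nat_lit 49086563)⟩], [⟨(nat_lit 1), (nat_lit 97), (nat_lit 41), (nat_lit 100), (nat_lit 284045578)⟩], [⟨(nat_lit 0), (nat_lit 100),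 (nat_lit 96), (nat_lit 20), (nat_lit 18876536)⟩], [],
 ⟨⟨[(nat_lit 40), (nat_lit 80), (nat_lit 100)], [(nat_lit 0), (nat_lit 2514), (nat_lit 3562)], [((nat_lit 0), (nat_lit 0), (nat_lit 0)), ((nat_lit 1000), (nat_lit 446), (nat_lit 804)), ((nat_lit 1000), (nat_lit 443), (nat_lit 819))], ((nat_lit 44), (nat_lit 100), (nat_lit 84))⟩, (nat_lit 0), (nat_lit 79), (nat_lit 79), (nat_lit 0), (nat_lit 51272), [(nat_lit 1589967381), (nat_lit 1753922454), (nat_lit 2295250400)], [(nat_lit 0), (nat_lit 0), (nat_lit 0)], [(nat_lit 22983096622), (nat_lit 23309835952), (nat_lit 23970551190), (nat_lit 24272824260), (nat_lit 25073048684), (nat_lit 25366979271), (nat_lit 25894357994), (nat_lit 26221857381)], (nat_lit 1271251), (nat_lit 1271251), (nat_lit 1017188), (nat_lit 1440626), (nat_lit 1271251), (nat_lit 1271251), [(nat_lit 490000), (nat_lit 1100000), (nat_lit 1442501)], [(nat_lit 3), (nat_lit 50), (nat_lit 260), (nat_lit 50), (nat_lit 8)]⟩,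
 ⟨⟨[(nat_lit 80), (nat_lit 140), (nat_lit 180)], [(nat_lit 0), (nat_lit 0), (nat_lit 3656)], [((nat_lit 0), (nat_lit 0), (nat_lit 0)), ((nat_lit 0), (nat_lit 0), (nat_lit 0)), ((nat_lit 637), (nat_lit 1000), (nat_lit 908))], ((nat_lit 100), (nat_lit 73), (nat_lit 85))⟩, (nat_lit 254979), (nat_lit 401), (nat_lit 401), (nat_lit 0), (nat_lit 146421), [(nat_lit 534432000), (nat_lit 1121988000), (nat_lit 1602612000)], [], [(nat_lit 4016920753), (nat_lit 4131716928), (nat_lit 4785008700), (nat_lit 4102203887), (nat_lit 4637292934), (nat_lit 3968567647), (nat_lit 5631468942), (nat_lit 4973481588)], (nat_lit 1271251), (nat_lit 1271251), (nat_lit 1017188), (nat_lit 1440626), (nat_lit 0), (nat_lit 780000), [(nat_lit 1100000), (nat_lit 2127501), (nat_lit 1271251)], [(nat_lit 19), (nat_lit 63), (nat_lit 373), (nat_lit 150), (nat_lit 9)]⟩,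
 ⟨⟨[(nat_lit 120), (nat_lit 160), (nat_lit 200)], [(nat_lit 0), (nat_lit 0), (nat_lit 3198)], [((nat_lit 0), (nat_lit 0), (nat_lit 0)), ((nat_lit 0), (nat_lit 0), (nat_lit 0)), ((nat_lit 572), (nat_lit 1000), (nat_lit 714))], ((nat_lit 0), (nat_lit 0), (nat_lit 0))⟩, (nat_lit 25366), (nat_lit 300), (nat_lit 608), (nat_lit 3858400), (nat_lit 338202), [(nat_lit 414336000), (nat_lit 617344000), (nat_lit 852800000)], [], [(nat_lit 3244158912), (nat_lit 3202958312), (nat_lit 3207316094), (nat_lit 3178545823), (nat_lit 2603431264), (nat_lit 2563782941), (nat_lit 2520499194), (nat_lit 2493151557)], (nat_lit 1100000), (nat_lit 1271251), (nat_lit 1271251), (nat_lit 1271251), (nat_lit 0), (nat_lit 780000), [(nat_lit 1695001), (nat_lit 1271251), (nat_lit 1271251)], [(nat_lit 29), (nat_lit 66), (nat_lit 373), (nat_lit 150), (nat_lit 8)]⟩⟩) (.trZ (nat_lit 0) (nat_lit 1) (nat_lit 3) (nat_lit 100) (nat_lit 39) (nat_lit 100) (nat_lit 160) (.trX (nat_lit 4) (nat_lit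 0) (nat_lit 2) (nat_lit 38) (nat_lit 96) (nat_lit 100) (nat_lit 260) (.leaf ⟨(nat_lit 897), (nat_lit 56), (nat_lit 0), (nat_lit 47), (nat_lit 4093), (nat_lit 3582), (nat_lit 1321), (nat_lit 691), (nat_lit 0), (nat_lit 0), (nat_lit 224250), [((nat_lit 390), [((nat_lit 29), (nat_lit 0), (nat_lit 897))])], ⟨(nat_lit 6), false, false, false, (nat_lit 212), (nat_lit 1581), (nat_lit 1937), [(nat_lit 1490075), (nat_lit 1491937), (nat_lit 1513071), (nat_lit 1515237), (nat_lit 1545992), (nat_lit 1546601), (nat_lit 1568988), (nat_lit 1569901)]⟩, ⟨(nat_lit 5), false, false, true, (nat_lit 203), (nat_lit 1581), (nat_lit 1937), [(nat_lit 1453977), (nat_lit 1453368), (nat_lit 1476988), (nat_lit 1476683), (nat_lit 1537811), (nat_lit 1535322), (nat_lit 1560821), (nat_lit 1558637)]⟩, (nat_lit 5015955), (nat_lit 41375342), (nat_lit 13275589), (nat_lit 12349069), (nat_lit 5), (nat_lit 0), [], [⟨(nat_lit 1), (nat_lit 99), (nat_lit 35), (nat_lit 100), (nat_lit 311105549)⟩],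 [⟨(nat_lit 0), (nat_lit 100), (nat_lit 96), (nat_lit 20), (nat_lit 9948206)⟩], [⟨(nat_lit 0), (nat_lit 95), (nat_lit 100), (nat_lit 30), (nat_lit 7522841)⟩],
 ⟨⟨[(nat_lit 40), (nat_lit 60), (nat_lit 80)], [(nat_lit 0), (nat_lit 1803), (nat_lit 2780)], [((nat_lit 0), (nat_lit 0), (nat_lit 0)), ((nat_lit 1000), (nat_lit 417), (nat_lit 754)), ((nat_lit 1000), (nat_lit 413), (nat_lit 764))], ((nat_lit 39), (nat_lit 100), (nat_lit 85))⟩, (nat_lit 0), (nat_lit 82), (nat_lit 82), (nat_lit 0), (nat_lit 73263), [(nat_lit 1587384466), (nat_lit 1470330095), (nat_lit 1717494800)], [(nat_lit 0), (nat_lit 0), (nat_lit 0)], [(nat_lit 23363622138), (nat_lit 23685133490), (nat_lit 24256467818), (nat_lit 24557950059), (nat_lit 25034547656), (nat_lit 25322840976), (nat_lit 25811448271), (nat_lit 26145153070)], (nat_lit 1271251), (nat_lit 1271251), (nat_lit 1100000), (nat_lit 1442501), (nat_lit 1271251), (nat_lit 1271251), [(nat_lit 490000), (nat_lit 780000), (nat_lit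 1100000)], [(nat_lit 2), (nat_lit 44), (nat_lit 203), (nat_lit 0), (nat_lit 7)]⟩,
 ⟨⟨[(nat_lit 80), (nat_lit 140), (nat_lit 180)], [(nat_lit 0), (nat_lit 0), (nat_lit 3656)], [((nat_lit 0), (nat_lit 0), (nat_lit 0)), ((nat_lit 0), (nat_lit 0), (nat_lit 0)), ((nat_lit 637), (nat_lit 1000), (nat_lit 908))], ((nat_lit 100), (nat_lit 73), (nat_lit 85))⟩, (nat_lit 227750), (nat_lit 423), (nat_lit 423), (nat_lit 0), (nat_lit 214408), [(nat_lit 482864000), (nat_lit 1013726000), (nat_lit 1447974000)], [], [(nat_lit 3636561560), (nat_lit 3700562866), (nat_lit 4333958282), (nat_lit 3716022807), (nat_lit 4352290258), (nat_lit 3750085328), (nat_lit 5098766093), (nat_lit 4504237164)], (nat_lit 1271251), (nat_lit 1271251), (nat_lit 1100000), (nat_lit 1442501), (nat_lit 0), (nat_lit 780000), [(nat_lit 1100000), (nat_lit 2127501), (nat_lit 1271251)], [(nat_lit 19), (nat_lit 63), (nat_lit 373), (nat_lit 150), (nat_lit 9)]⟩,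
 ⟨⟨[(nat_lit 120), (nat_lit 160), (nat_lit 200)], [(nat_lit 0), (nat_lit 0), (nat_lit 3198)], [((nat_lit 0), (nat_lit 0), (nat_lit 0)), ((nat_lit 0), (nat_lit 0), (nat_lit 0)), ((nat_lit 572), (nat_lit 1000), (nat_lit 714))], ((nat_lit 0), (nat_lit 0), (nat_lit 0))⟩, (nat_lit 22927), (nat_lit 300), (nat_lit 671), (nat_lit 3487400), (nat_lit 498337), [(nat_lit 374496000), (nat_lit 557984000), (nat_lit 770800000)], [], [(nat_lit 2931632292), (nat_lit 2894923205), (nat_lit 2891958389), (nat_lit 2866757410), (nat_lit 2352080816), (nat_lit 2316211061), (nat_lit 2271928254), (nat_lit 2247956810)], (nat_lit 1100000), (nat_lit 1271251), (nat_lit 1271251), (nat_lit 1271251), (nat_lit 0), (nat_lit 780000), [(nat_lit 1695001), (nat_lit 1271251), (nat_lit 1271251)], [(nat_lit 29), (nat_lit 66), (nat_lit 373), (nat_lit 150), (nat_lit 8)]⟩⟩))))) (.leaf ⟨(nat_lit 818), (nat_lit 110), (nat_lit 0), (nat_lit 72), (nat_lit 0), (nat_lit 3527), (nat_lit 2334), (nat_lit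 1004), (nat_lit 0), (nat_lit 0), (nat_lit 340800), [((nat_lit 390), [((nat_lit 29), (nat_lit 1), (nat_lit 750)), ((nat_lit 43), (nat_lit 2), (nat_lit 68))])], ⟨(nat_lit 6), false, true, false, (nat_lit 234), (nat_lit 1581), (nat_lit 2237), [(nat_lit 1545457), (nat_lit 1546538), (nat_lit 1568186), (nat_lit 1569808), (nat_lit 1602558), (nat_lit 1601260), (nat_lit 1625287), (nat_lit 1624529)]⟩, ⟨(nat_lit 5), false, false, true, (nat_lit 206), (nat_lit 1581), (nat_lit 2237), [(nat_lit 1454450), (nat_lit 1453368), (nat_lit 1477224), (nat_lit 1476683), (nat_lit 1554227), (nat_lit 1548981), (nat_lit 1577001), (nat_lit 1572296)]⟩, (nat_lit 5170384), (nat_lit 39594259), (nat_lit 15121079), (nat_lit 12284662), (nat_lit 5), (nat_lit 0), [], [⟨(nat_lit 1), (nat_lit 98), (nat_lit 38), (nat_lit 100), (nat_lit 1478388)⟩, ⟨(nat_lit 1), (nat_lit 94), (nat_lit 44), (nat_lit 100), (nat_lit 150803418)⟩], [], [⟨(nat_lit 0), (nat_lit 99), (nat_lit 100), (nat_lit 27),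 (nat_lit 135926685)⟩],
 ⟨⟨[(nat_lit 40), (nat_lit 80), (nat_lit 100)], [(nat_lit 0), (nat_lit 2514), (nat_lit 3562)], [((nat_lit 0), (nat_lit 0), (nat_lit 0)), ((nat_lit 1000), (nat_lit 446), (nat_lit 804)), ((nat_lit 1000), (nat_lit 443), (nat_lit 819))], ((nat_lit 44), (nat_lit 100), (nat_lit 84))⟩, (nat_lit 321), (nat_lit 121), (nat_lit 121), (nat_lit 0), (nat_lit 165007), [(nat_lit 1469492936), (nat_lit 1162021238), (nat_lit 1061011200)], [(nat_lit 0), (nat_lit 0), (nat_lit 0)], [(nat_lit 23969603065), (nat_lit 24566312045), (nat_lit 24840359358), (nat_lit 25397404573), (nat_lit 25828208711), (nat_lit 26476700080), (nat_lit 26691418125), (nat_lit 27295727565)], (nat_lit 1271251), (nat_lit 1271251), (nat_lit 1271251), (nat_lit 1271251), (nat_lit 1271251), (nat_lit 1271251), [(nat_lit 490000), (nat_lit 1100000), (nat_lit 1442501)], [(nat_lit 3), (nat_lit 50), (nat_lit 203), (nat_lit 0), (nat_lit 6)]⟩,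
 ⟨⟨[(nat_lit 80), (nat_lit 140), (nat_lit 180)], [(nat_lit 0), (nat_lit 0), (nat_lit 3656)], [((nat_lit 0), (nat_lit 0), (nat_lit 0)), ((nat_lit 0), (nat_lit 0), (nat_lit 0)), ((nat_lit 637), (nat_lit 1000), (nat_lit 908))], ((nat_lit 100), (nat_lit 73), (nat_lit 85))⟩, (nat_lit 463329), (nat_lit 565), (nat_lit 565), (nat_lit 0), (nat_lit 485105), [(nat_lit 853216000), (nat_lit 1791244000), (nat_lit 2558556000)], [], [(nat_lit 6453642200), (nat_lit 6343410147), (nat_lit 6253307392), (nat_lit 6505543362), (nat_lit 4648003410), (nat_lit 4752895034), (nat_lit 4653072956), (nat_lit 4743039349)], (nat_lit 1271251), (nat_lit 1271251), (nat_lit 1271251), (nat_lit 1271251), (nat_lit 0), (nat_lit 780000), [(nat_lit 1100000), (nat_lit 2127501), (nat_lit 1271251)], [(nat_lit 19), (nat_lit 63), (nat_lit 401), (nat_lit 175), (nat_lit 9)]⟩,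
 ⟨⟨[(nat_lit 120), (nat_lit 160), (nat_lit 200)], [(nat_lit 0), (nat_lit 0), (nat_lit 3198)], [((nat_lit 0), (nat_lit 0), (nat_lit 0)), ((nat_lit 0), (nat_lit 0), (nat_lit 0)), ((nat_lit 572), (nat_lit 1000), (nat_lit 714))], ((nat_lit 0), (nat_lit 0), (nat_lit 0))⟩, (nat_lit 35122), (nat_lit 300), (nat_lit 948), (nat_lit 5342400), (nat_lit 1126270), [(nat_lit 573696000), (nat_lit 854784000), (nat_lit 1180800000)], [], [(nat_lit 4560543032), (nat_lit 4507583132), (nat_lit 4437049234), (nat_lit 4400621916), (nat_lit 3723811504), (nat_lit 3672853776), (nat_lit 3599031986), (nat_lit 3544758843)], (nat_lit 1100000), (nat_lit 1271251), (nat_lit 1271251), (nat_lit 1271251), (nat_lit 0), (nat_lit 780000), [(nat_lit 1695001), (nat_lit 1271251), (nat_lit 1271251)], [(nat_lit 29), (nat_lit 66), (nat_lit 373), (nat_lit 150), (nat_lit 8)]⟩⟩)) (.trZ (nat_lit 0) (nat_lit 1) (nat_lit 3) (nat_lit 96) (nat_lit 44) (nat_lit 100) (nat_lit 170) (.spl (nat_lit 6) (nat_lit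 68) (.leaf ⟨(nat_lit 582), (nat_lit 340), (nat_lit 0), (nat_lit 78), (nat_lit 0), (nat_lit 3589), (nat_lit 2675), (nat_lit 1120), (nat_lit 0), (nat_lit 0), (nat_lit 270400), [((nat_lit 390), [((nat_lit 28), (nat_lit 1), (nat_lit 394)), ((nat_lit 43), (nat_lit 2), (nat_lit 188))])], ⟨(nat_lit 6), false, false, false, (nat_lit 235), (nat_lit 1581), (nat_lit 2237), [(nat_lit 1525360), (nat_lit 1528768), (nat_lit 1548089), (nat_lit 1552036), (nat_lit 1625287), (nat_lit 1624529), (nat_lit 1648016), (nat_lit 1647799)]⟩, ⟨(nat_lit 5), false, false, true, (nat_lit 206), (nat_lit 1581), (nat_lit 2237), [(nat_lit 1454450), (nat_lit 1453368), (nat_lit 1477224), (nat_lit 1476683), (nat_lit 1554227), (nat_lit 1548981), (nat_lit 1577001), (nat_lit 1572296)]⟩, (nat_lit 5174738), (nat_lit 39536609), (nat_lit 15190850), (nat_lit 12272541), (nat_lit 5), (nat_lit 0), [⟨(nat_lit 0), (nat_lit 94), (nat_lit 38), (nat_lit 100), (nat_lit 271012499)⟩], [⟨(nat_lit 1), (nat_lit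 98), (nat_lit 38), (nat_lit 100), (nat_lit 425436532)⟩], [⟨(nat_lit 0), (nat_lit 100), (nat_lit 95), (nat_lit 21), (nat_lit 96215501)⟩], [],
 ⟨⟨[(nat_lit 40), (nat_lit 60), (nat_lit 80)], [(nat_lit 0), (nat_lit 1539), (nat_lit 2453)], [((nat_lit 0), (nat_lit 0), (nat_lit 0)), ((nat_lit 1000), (nat_lit 478), (nat_lit 704)), ((nat_lit 1000), (nat_lit 474), (nat_lit 714))], ((nat_lit 45), (nat_lit 100), (nat_lit 78))⟩, (nat_lit 1088), (nat_lit 112), (nat_lit 112), (nat_lit 0), (nat_lit 189769), [(nat_lit 1562968876), (nat_lit 1519550826), (nat_lit 1779502400)], [(nat_lit 0), (nat_lit 0), (nat_lit 0)], [(nat_lit 23297096024), (nat_lit 23930699827), (nat_lit 24894512273), (nat_lit 25458454512), (nat_lit 25325789610), (nat_lit 25924469170), (nat_lit 26744019095), (nat_lit 27353154639)], (nat_lit 1271251), (nat_lit 1271251), (nat_lit 1184688), (nat_lit 1790626), (nat_lit 1271251), (nat_lit 1271251), [(nat_lit 490000), (nat_lit 780000), (nat_lit 1100000)],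 [(nat_lit 2), (nat_lit 44), (nat_lit 203), (nat_lit 0), (nat_lit 7)]⟩,
 ⟨⟨[(nat_lit 80), (nat_lit 120), (nat_lit 160)], [(nat_lit 0), (nat_lit 528), (nat_lit 2577)], [((nat_lit 0), (nat_lit 0), (nat_lit 0)), ((nat_lit 1000), (nat_lit 959), (nat_lit 206)), ((nat_lit 929), (nat_lit 1000), (nat_lit 742))], ((nat_lit 100), (nat_lit 90), (nat_lit 79))⟩, (nat_lit 1336841), (nat_lit 501), (nat_lit 501), (nat_lit 0), (nat_lit 490993), [(nat_lit 1959584000), (nat_lit 3330624000), (nat_lit 4962496000)], [], [(nat_lit 14256487679), (nat_lit 14548369324), (nat_lit 14704004471), (nat_lit 14954135938), (nat_lit 13114846315), (nat_lit 13371028349), (nat_lit 13630850314), (nat_lit 13713785764)], (nat_lit 1271251), (nat_lit 1271251), (nat_lit 1184688), (nat_lit 1790626), (nat_lit 0), (nat_lit 780000), [(nat_lit 1100000), (nat_lit 1785001), (nat_lit 1271251)], [(nat_lit 18), (nat_lit 59), (nat_lit 401), (nat_lit 175), (nat_lit 10)]⟩,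
 ⟨⟨[(nat_lit 120), (nat_lit 160), (nat_lit 200)], [(nat_lit 0), (nat_lit 0), (nat_lit 3198)], [((nat_lit 0), (nat_lit 0), (nat_lit 0)), ((nat_lit 0), (nat_lit 0), (nat_lit 0)), ((nat_lit 572), (nat_lit 1000), (nat_lit 714))], ((nat_lit 0), (nat_lit 0), (nat_lit 0))⟩, (nat_lit 38049), (nat_lit 300), (nat_lit 1041), (nat_lit 5787600), (nat_lit 1299639), [(nat_lit 621504000), (nat_lit 926016000), (nat_lit 1279200000)], [], [(nat_lit 4899377188), (nat_lit 4839549766), (nat_lit 4809115154), (nat_lit 4767605538), (nat_lit 3962636120), (nat_lit 3905066069), (nat_lit 3820783125), (nat_lit 3765665005)], (nat_lit 1100000), (nat_lit 1271251), (nat_lit 1271251), (nat_lit 1271251), (nat_lit 0), (nat_lit 780000), [(nat_lit 1695001), (nat_lit 1271251), (nat_lit 1271251)], [(nat_lit 29), (nat_lit 66), (nat_lit 373), (nat_lit 150), (nat_lit 8)]⟩⟩) (.leaf ⟨(nat_lit 0), (nat_lit 815), (nat_lit 0), (nat_lit 185), (nat_lit 6494), (nat_lit 7515), (nat_lit 6919), (nat_lit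 2761), (nat_lit 0), (nat_lit 0), (nat_lit 0), [], Pd.none, Pd.none, (nat_lit 0), (nat_lit 1), (nat_lit 0), (nat_lit 0), (nat_lit 5), (nat_lit 0), [⟨(nat_lit 0), (nat_lit 94), (nat_lit 38), (nat_lit 100), (nat_lit 992952500)⟩], [⟨(nat_lit 1), (nat_lit 98), (nat_lit 38), (nat_lit 100), (nat_lit 436701385)⟩], [], [⟨(nat_lit 0), (nat_lit 98), (nat_lit 100), (nat_lit 20), (nat_lit 162927132)⟩],
 ⟨⟨[(nat_lit 40), (nat_lit 80), (nat_lit 100)], [(nat_lit 0), (nat_lit 2514), (nat_lit 3562)], [((nat_lit 0), (nat_lit 0), (nat_lit 0)), ((nat_lit 1000), (nat_lit 446), (nat_lit 804)), ((nat_lit 1000), (nat_lit 443), (nat_lit 819))], ((nat_lit 44), (nat_lit 100), (nat_lit 84))⟩, (nat_lit 0), (nat_lit 106), (nat_lit 106), (nat_lit 0), (nat_lit 101333), [(nat_lit 2897728521), (nat_lit 5208585543), (nat_lit 6250000000)], [], [(nat_lit 26678439985), (nat_lit 27639552924), (nat_lit 28050642978), (nat_lit 28886492264), (nat_lit 28874453363), (nat_lit 29852983313),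 (nat_lit 30074848292), (nat_lit 30989585147)], (nat_lit 1271251), (nat_lit 1271251), (nat_lit 1184688), (nat_lit 1790626), (nat_lit 1271251), (nat_lit 1271251), [(nat_lit 490000), (nat_lit 1100000), (nat_lit 1442501)], [(nat_lit 3), (nat_lit 50), (nat_lit 272), (nat_lit 60), (nat_lit 9)]⟩,
 ⟨⟨[(nat_lit 80), (nat_lit 140), (nat_lit 180)], [(nat_lit 0), (nat_lit 792), (nat_lit 4228)], [((nat_lit 0), (nat_lit 0), (nat_lit 0)), ((nat_lit 1000), (nat_lit 959), (nat_lit 206)), ((nat_lit 709), (nat_lit 1000), (nat_lit 949))], ((nat_lit 100), (nat_lit 82), (nat_lit 87))⟩, (nat_lit 2506121), (nat_lit 439), (nat_lit 439), (nat_lit 0), (nat_lit 259595), [(nat_lit 4688000000), (nat_lit 9842000000), (nat_lit 14058000000)], [], [(nat_lit 34487035246), (nat_lit 35319946376), (nat_lit 35701973115), (nat_lit 36412074054), (nat_lit 30956765560), (nat_lit 31691337019), (nat_lit 34615442684), (nat_lit 32631028612)], (nat_lit 1271251), (nat_lit 1271251), (nat_lit 1184688),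 (nat_lit 1790626), (nat_lit 0), (nat_lit 780000), [(nat_lit 1100000), (nat_lit 2127501), (nat_lit 1271251)], [(nat_lit 19), (nat_lit 63), (nat_lit 401), (nat_lit 175), (nat_lit 9)]⟩,
 ⟨⟨[(nat_lit 120), (nat_lit 160), (nat_lit 200)], [(nat_lit 0), (nat_lit 0), (nat_lit 3198)], [((nat_lit 0), (nat_lit 0), (nat_lit 0)), ((nat_lit 0), (nat_lit 0), (nat_lit 0)), ((nat_lit 572), (nat_lit 1000), (nat_lit 714))], ((nat_lit 0), (nat_lit 0), (nat_lit 0))⟩, (nat_lit 90244), (nat_lit 300), (nat_lit 745), (nat_lit 13727000), (nat_lit 687236), [(nat_lit 1474080000), (nat_lit 2196320000), (nat_lit 3034000000)], [], [(nat_lit 11487010740), (nat_lit 11400577700), (nat_lit 11413712775), (nat_lit 11308639988), (nat_lit 9167299136), (nat_lit 9023101900), (nat_lit 8926938999), (nat_lit 8827045937)], (nat_lit 1100000), (nat_lit 1271251), (nat_lit 1271251), (nat_lit 1271251), (nat_lit 0), (nat_lit 780000), [(nat_lit 1695001), (nat_lit 1271251), (nat_lit 1271251)], [(nat_lit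 29), (nat_lit 66), (nat_lit 373), (nat_lit 150), (nat_lit 8)]⟩⟩)))) (.leaf ⟨(nat_lit 881), (nat_lit 48), (nat_lit 0), (nat_lit 71), (nat_lit 0), (nat_lit 3493), (nat_lit 1516), (nat_lit 870), (nat_lit 0), (nat_lit 0), (nat_lit 334100), [((nat_lit 390), [((nat_lit 29), (nat_lit 0), (nat_lit 122)), ((nat_lit 29), (nat_lit 1), (nat_lit 759))])], ⟨(nat_lit 6), false, false, false, (nat_lit 225), (nat_lit 1581), (nat_lit 2237), [(nat_lit 1474080), (nat_lit 1478137), (nat_lit 1519538), (nat_lit 1524676), (nat_lit 1602558), (nat_lit 1601260), (nat_lit 1648016), (nat_lit 1647799)]⟩, ⟨(nat_lit 5), false, false, true, (nat_lit 206), (nat_lit 1581), (nat_lit 2237), [(nat_lit 1454450), (nat_lit 1453368), (nat_lit 1477224), (nat_lit 1476683), (nat_lit 1554227), (nat_lit 1548981), (nat_lit 1577001), (nat_lit 1572296)]⟩, (nat_lit 5117408), (nat_lit 40260154), (nat_lit 14317327), (nat_lit 12422519), (nat_lit 5), (nat_lit 0), [], [⟨(nat_lit 1), (nat_lit 98), (nat_lit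 38), (nat_lit 100), (nat_lit 270319569)⟩], [], [],
 ⟨⟨[(nat_lit 40), (nat_lit 80), (nat_lit 100)], [(nat_lit 0), (nat_lit 2514), (nat_lit 3562)], [((nat_lit 0), (nat_lit 0), (nat_lit 0)), ((nat_lit 1000), (nat_lit 446), (nat_lit 804)), ((nat_lit 1000), (nat_lit 443), (nat_lit 819))], ((nat_lit 44), (nat_lit 100), (nat_lit 84))⟩, (nat_lit 602), (nat_lit 136), (nat_lit 136), (nat_lit 0), (nat_lit 192251), [(nat_lit 1464843692), (nat_lit 1056065428), (nat_lit 1033036800)], [(nat_lit 0), (nat_lit 0), (nat_lit 0)], [(nat_lit 23056819935), (nat_lit 23667358486), (nat_lit 24828333804), (nat_lit 25382931637), (nat_lit 25041441698), (nat_lit 25605157202), (nat_lit 26662572431), (nat_lit 27264235299)], (nat_lit 1271251), (nat_lit 1271251), (nat_lit 1017188), (nat_lit 1779376), (nat_lit 1271251), (nat_lit 1271251), [(nat_lit 490000), (nat_lit 1100000), (nat_lit 1442501)], [(nat_lit 3), (nat_lit 50), (nat_lit 272), (nat_lit 60), (nat_lit 9)]⟩,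
 ⟨⟨[(nat_lit 80), (nat_lit 140), (nat_lit 180)], [(nat_lit 0), (nat_lit 0), (nat_lit 3656)], [((nat_lit 0), (nat_lit 0), (nat_lit 0)), ((nat_lit 0), (nat_lit 0), (nat_lit 0)), ((nat_lit 637), (nat_lit 1000), (nat_lit 908))], ((nat_lit 100), (nat_lit 73), (nat_lit 85))⟩, (nat_lit 72739), (nat_lit 551), (nat_lit 551), (nat_lit 0), (nat_lit 626776), [(nat_lit 557872000), (nat_lit 1171198000), (nat_lit 1672902000)], [], [(nat_lit 3812758004), (nat_lit 3949756974), (nat_lit 4562378784), (nat_lit 3908449867), (nat_lit 4226063627), (nat_lit 3759362326), (nat_lit 6007272236), (nat_lit 4625072880)], (nat_lit 1271251), (nat_lit 1271251), (nat_lit 1017188), (nat_lit 1779376), (nat_lit 780000), (nat_lit 1435001), [(nat_lit 1100000), (nat_lit 2127501), (nat_lit 1271251)], [(nat_lit 19), (nat_lit 63), (nat_lit 428), (nat_lit 200), (nat_lit 10)]⟩,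
 ⟨⟨[(nat_lit 120), (nat_lit 160), (nat_lit 200)], [(nat_lit 0), (nat_lit 0), (nat_lit 3198)], [((nat_lit 0), (nat_lit 0), (nat_lit 0)), ((nat_lit 0), (nat_lit 0), (nat_lit 0)), ((nat_lit 572), (nat_lit 1000), (nat_lit 714))], ((nat_lit 0), (nat_lit 0), (nat_lit 0))⟩, (nat_lit 34634), (nat_lit 300), (nat_lit 942), (nat_lit 5268203), (nat_lit 1313320), [(nat_lit 565728000), (nat_lit 842912000), (nat_lit 1164400000)], [], [(nat_lit 3968345767), (nat_lit 3917033321), (nat_lit 3839290301), (nat_lit 3794867335), (nat_lit 3708923553), (nat_lit 3657191751), (nat_lit 3593656827), (nat_lit 3547894556)], (nat_lit 1100000), (nat_lit 1271251), (nat_lit 1271251), (nat_lit 1271251), (nat_lit 780000), (nat_lit 1435001), [(nat_lit 1695001), (nat_lit 1271251), (nat_lit 1271251)], [(nat_lit 29), (nat_lit 66), (nat_lit 401), (nat_lit 175), (nat_lit 8)]⟩⟩))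
noncomputable def c14_71 : Tr Lf :=
 (.trZ (nat_lit 0) (nat_lit 1) (nat_lit 3) (nat_lit 99) (nat_lit 31) (nat_lit 100) (nat_lit 170) (.trX (nat_lit 4) (nat_lit 0) (nat_lit 2) (nat_lit 31) (nat_lit 98) (nat_lit 100) (nat_lit 250) (.spl (nat_lit 0) (nat_lit 395) (.leaf ⟨(nat_lit 907), (nat_lit 53), (nat_lit 0), (nat_lit 40), (nat_lit 0), (nat_lit 3516), (nat_lit 1103), (nat_lit 588), (nat_lit 0), (nat_lit 0), (nat_lit 226750), [((nat_lit 395), [((nat_lit 29), (nat_lit 0), (nat_lit 907))])], ⟨(nat_lit 6), false, false, false, (nat_lit 231), (nat_lit 1118), (nat_lit 1582), [(nat_lit 1505540), (nat_lit 1507543), (nat_lit 1552105), (nat_lit 1554980), (nat_lit 1601263), (nat_lit 1600626), (nat_lit 1647829), (nat_lit 1648063)]⟩, ⟨(nat_lit 5), false, false, true, (nat_lit 199), (nat_lit 1118), (nat_lit 1582), [(nat_lit 1453368), (nat_lit 1452497), (nat_lit 1476683), (nat_lit 1476248), (nat_lit 1521663), (nat_lit 1518906), (nat_lit 1544978), (nat_lit 1542657)]⟩,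 (nat_lit 5108278), (nat_lit 40241613), (nat_lit 14943797), (nat_lit 11814590), (nat_lit 5), (nat_lit 0), [], [⟨(nat_lit 1), (nat_lit 100), (nat_lit 27), (nat_lit 100), (nat_lit 258383376)⟩, ⟨(nat_lit 1), (nat_lit 98), (nat_lit 31), (nat_lit 100), (nat_lit 74387445)⟩], [⟨(nat_lit 0), (nat_lit 100), (nat_lit 92), (nat_lit 31), (nat_lit 23094646)⟩], [⟨(nat_lit 0), (nat_lit 99), (nat_lit 100), (nat_lit 45), (nat_lit 24520559)⟩],
 ⟨⟨[(nat_lit 40), (nat_lit 60), (nat_lit 80)], [(nat_lit 0), (nat_lit 2136), (nat_lit 3185)], [((nat_lit 0), (nat_lit 0), (nat_lit 0)), ((nat_lit 1000), (nat_lit 343), (nat_lit 808)), ((nat_lit 1000), (nat_lit 338), (nat_lit 820))], ((nat_lit 32), (nat_lit 100), (nat_lit 86))⟩, (nat_lit 1206), (nat_lit 116), (nat_lit 116), (nat_lit 0), (nat_lit 208642), [(nat_lit 1585036402), (nat_lit 1473023339), (nat_lit 1684378800)], [(nat_lit 0), (nat_lit 0), (nat_lit 0)], [(nat_lit 23935321433), (nat_lit 24249017423), (nat_lit 25464756879),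 (nat_lit 25743864742), (nat_lit 25201663263), (nat_lit 25488775766), (nat_lit 26572490755), (nat_lit 26886304880)], (nat_lit 1271251), (nat_lit 1271251), (nat_lit 1184688), (nat_lit 1790626), (nat_lit 1271251), (nat_lit 1271251), [(nat_lit 490000), (nat_lit 780000), (nat_lit 1100000)], [(nat_lit 2), (nat_lit 44), (nat_lit 203), (nat_lit 0), (nat_lit 7)]⟩,
 ⟨⟨[(nat_lit 80), (nat_lit 140), (nat_lit 180)], [(nat_lit 0), (nat_lit 0), (nat_lit 3656)], [((nat_lit 0), (nat_lit 0), (nat_lit 0)), ((nat_lit 0), (nat_lit 0), (nat_lit 0)), ((nat_lit 637), (nat_lit 1000), (nat_lit 908))], ((nat_lit 100), (nat_lit 73), (nat_lit 85))⟩, (nat_lit 212431), (nat_lit 667), (nat_lit 667), (nat_lit 0), (nat_lit 720804), [(nat_lit 435984000), (nat_lit 915306000), (nat_lit 1307394000)], [], [(nat_lit 4123424971), (nat_lit 3549153546), (nat_lit 3434461892), (nat_lit 3479652744), (nat_lit 3918458925), (nat_lit 2889121540), (nat_lit 2540063842), (nat_lit 2565146019)], (nat_lit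 1271251), (nat_lit 1271251), (nat_lit 1271251), (nat_lit 1271251), (nat_lit 0), (nat_lit 1412501), [(nat_lit 1100000), (nat_lit 2127501), (nat_lit 1271251)], [(nat_lit 19), (nat_lit 63), (nat_lit 428), (nat_lit 200), (nat_lit 10)]⟩,
 ⟨⟨[(nat_lit 120), (nat_lit 160), (nat_lit 200)], [(nat_lit 0), (nat_lit 0), (nat_lit 3198)], [((nat_lit 0), (nat_lit 0), (nat_lit 0)), ((nat_lit 0), (nat_lit 0), (nat_lit 0)), ((nat_lit 572), (nat_lit 1000), (nat_lit 714))], ((nat_lit 0), (nat_lit 0), (nat_lit 0))⟩, (nat_lit 19512), (nat_lit 300), (nat_lit 1110), (nat_lit 2968004), (nat_lit 1471896), [(nat_lit 318720000), (nat_lit 474880000), (nat_lit 656000000)], [], [(nat_lit 2495117080), (nat_lit 2463754296), (nat_lit 2455282774), (nat_lit 2434548543), (nat_lit 1868670476), (nat_lit 2023533601), (nat_lit 1786206605), (nat_lit 1764375992)], (nat_lit 1100000), (nat_lit 1271251), (nat_lit 1271251), (nat_lit 1271251), (nat_lit 0), (nat_lit 1412501), [(nat_lit 1695001),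 (nat_lit 1271251), (nat_lit 1271251)], [(nat_lit 29), (nat_lit 66), (nat_lit 401), (nat_lit 175), (nat_lit 9)]⟩⟩) (.trZ (nat_lit 0) (nat_lit 1) (nat_lit 3) (nat_lit 98) (nat_lit 22) (nat_lit 100) (nat_lit 190) (.trX (nat_lit 4) (nat_lit 0) (nat_lit 2) (nat_lit 22) (nat_lit 100) (nat_lit 100) (nat_lit 230) (.leaf ⟨(nat_lit 907), (nat_lit 54), (nat_lit 0), (nat_lit 39), (nat_lit 0), (nat_lit 3572), (nat_lit 1101), (nat_lit 569), (nat_lit 0), (nat_lit 0), (nat_lit 226750), [((nat_lit 400), [((nat_lit 29), (nat_lit 0), (nat_lit 907))])], ⟨(nat_lit 6), false, true, false, (nat_lit 237), (nat_lit 0), (nat_lit 1119), [(nat_lit 1533057), (nat_lit 1536337), (nat_lit 1579627), (nat_lit 1585406), (nat_lit 1600626), (nat_lit 1599998), (nat_lit 1647199), (nat_lit 1649068)]⟩, ⟨(nat_lit 5), false, false, true, (nat_lit 193), (nat_lit 0), (nat_lit 1119), [(nat_lit 1452495), (nat_lit 1449997), (nat_lit 1476247), (nat_lit 1474998), (nat_lit 1492339), (nat_lit 1487496),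 (nat_lit 1516091), (nat_lit 1512496)]⟩, (nat_lit 5094110), (nat_lit 40228742), (nat_lit 15538971), (nat_lit 11232287), (nat_lit 5), (nat_lit 0), [], [⟨(nat_lit 1), (nat_lit 100), (nat_lit 22), (nat_lit 100), (nat_lit 361500898)⟩], [⟨(nat_lit 0), (nat_lit 100), (nat_lit 92), (nat_lit 31), (nat_lit 20111531)⟩], [⟨(nat_lit 0), (nat_lit 100), (nat_lit 99), (nat_lit 35), (nat_lit 32098150)⟩],
 ⟨⟨[(nat_lit 40), (nat_lit 60), (nat_lit 80)], [(nat_lit 0), (nat_lit 2600), (nat_lit 3731)], [((nat_lit 0), (nat_lit 0), (nat_lit 0)), ((nat_lit 1000), (nat_lit 245), (nat_lit 872)), ((nat_lit 1000), (nat_lit 240), (nat_lit 884))], ((nat_lit 24), (nat_lit 100), (nat_lit 89))⟩, (nat_lit 37586), (nat_lit 121), (nat_lit 121), (nat_lit 0), (nat_lit 225080), [(nat_lit 1585036402), (nat_lit 1356609390), (nat_lit 1684378800)], [(nat_lit 0), (nat_lit 0), (nat_lit 0)], [(nat_lit 24760687032), (nat_lit 25048327916), (nat_lit 25796454307), (nat_lit 26061931304), (nat_lit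 25394462213), (nat_lit 25668029554), (nat_lit 26368655408), (nat_lit 26697591482)], (nat_lit 1271251), (nat_lit 1271251), (nat_lit 1271251), (nat_lit 1271251), (nat_lit 1271251), (nat_lit 1271251), [(nat_lit 490000), (nat_lit 780000), (nat_lit 1100000)], [(nat_lit 2), (nat_lit 44), (nat_lit 203), (nat_lit 0), (nat_lit 7)]⟩,
 ⟨⟨[(nat_lit 80), (nat_lit 140), (nat_lit 180)], [(nat_lit 0), (nat_lit 0), (nat_lit 3656)], [((nat_lit 0), (nat_lit 0), (nat_lit 0)), ((nat_lit 0), (nat_lit 0), (nat_lit 0)), ((nat_lit 637), (nat_lit 1000), (nat_lit 908))], ((nat_lit 100), (nat_lit 73), (nat_lit 85))⟩, (nat_lit 210273), (nat_lit 734), (nat_lit 734), (nat_lit 0), (nat_lit 827446), [(nat_lit 435984000), (nat_lit 915306000), (nat_lit 1307394000)], [], [(nat_lit 3543143379), (nat_lit 3535499081), (nat_lit 3440855796), (nat_lit 3486093708), (nat_lit 3402900705), (nat_lit 2634982547), (nat_lit 2548555950), (nat_lit 2571336861)], (nat_lit 1271251), (nat_lit 1271251),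 (nat_lit 1271251), (nat_lit 1271251), (nat_lit 0), (nat_lit 1412501), [(nat_lit 1100000), (nat_lit 2127501), (nat_lit 1271251)], [(nat_lit 19), (nat_lit 63), (nat_lit 428), (nat_lit 200), (nat_lit 10)]⟩,
 ⟨⟨[(nat_lit 120), (nat_lit 160), (nat_lit 200)], [(nat_lit 0), (nat_lit 0), (nat_lit 3198)], [((nat_lit 0), (nat_lit 0), (nat_lit 0)), ((nat_lit 0), (nat_lit 0), (nat_lit 0)), ((nat_lit 572), (nat_lit 1000), (nat_lit 714))], ((nat_lit 0), (nat_lit 0), (nat_lit 0))⟩, (nat_lit 19024), (nat_lit 300), (nat_lit 1189), (nat_lit 2893807), (nat_lit 1634612), [(nat_lit 310752000), (nat_lit 463008000), (nat_lit 639600000)], [], [(nat_lit 2438221664), (nat_lit 2407624826), (nat_lit 2395553815), (nat_lit 2376739411), (nat_lit 1820781977), (nat_lit 1970841397), (nat_lit 1753033461), (nat_lit 1732747720)], (nat_lit 1100000), (nat_lit 1271251), (nat_lit 1271251), (nat_lit 1271251), (nat_lit 0), (nat_lit 1412501), [(nat_lit 1695001), (nat_lit 1271251), (nat_lit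 1271251)], [(nat_lit 29), (nat_lit 66), (nat_lit 401), (nat_lit 175), (nat_lit 9)]⟩⟩))))))
noncomputable def c14_72 : Tr Lf :=
 (.spl (nat_lit 1) (nat_lit 260) (.leaf ⟨(nat_lit 898), (nat_lit 48), (nat_lit 0), (nat_lit 54), (nat_lit 0), (nat_lit 3619), (nat_lit 1431), (nat_lit 621), (nat_lit 0), (nat_lit 0), (nat_lit 310300), [((nat_lit 400), [((nat_lit 29), (nat_lit 0), (nat_lit 326)), ((nat_lit 29), (nat_lit 1), (nat_lit 572))])], ⟨(nat_lit 6), false, false, false, (nat_lit 220), (nat_lit 0), (nat_lit 2237), [(nat_lit 1470123), (nat_lit 1483344), (nat_lit 1491970), (nat_lit 1507417), (nat_lit 1602531), (nat_lit 1599967), (nat_lit 1624400), (nat_lit 1624062)]⟩, ⟨(nat_lit 4), false, false, true, (nat_lit 194), (nat_lit 0), (nat_lit 2237), [(nat_lit 1397434), (nat_lit 1399999), (nat_lit 1419294), (nat_lit 1424084), (nat_lit 1554222), (nat_lit 1537494), (nat_lit 1576997), (nat_lit 1562495)]⟩, (nat_lit 5001913), (nat_lit 41406670), (nat_lit 14104434),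 (nat_lit 11488896), (nat_lit 5), (nat_lit 0), [], [⟨(nat_lit 1), (nat_lit 100), (nat_lit 32), (nat_lit 100), (nat_lit 314584150)⟩], [], [],
 ⟨⟨[(nat_lit 40), (nat_lit 80), (nat_lit 100)], [(nat_lit 0), (nat_lit 2514), (nat_lit 3562)], [((nat_lit 0), (nat_lit 0), (nat_lit 0)), ((nat_lit 1000), (nat_lit 446), (nat_lit 804)), ((nat_lit 1000), (nat_lit 443), (nat_lit 819))], ((nat_lit 44), (nat_lit 100), (nat_lit 84))⟩, (nat_lit 0), (nat_lit 175), (nat_lit 175), (nat_lit 0), (nat_lit 307469), [(nat_lit 1491968824), (nat_lit 1040779870), (nat_lit 1273634400)], [(nat_lit 0), (nat_lit 0), (nat_lit 0)], [(nat_lit 22623579532), (nat_lit 23737541403), (nat_lit 24345389837), (nat_lit 25412335340), (nat_lit 25264984598), (nat_lit 26449969320), (nat_lit 26769471178), (nat_lit 27992412687)], (nat_lit 1271251), (nat_lit 1271251), (nat_lit 1017188), (nat_lit 1779376), (nat_lit 1100000), (nat_lit 2041876), [(nat_lit 490000), (nat_lit 1100000), (nat_lit 1442501)],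 [(nat_lit 3), (nat_lit 50), (nat_lit 373), (nat_lit 150), (nat_lit 13)]⟩,
 ⟨⟨[(nat_lit 80), (nat_lit 140), (nat_lit 180)], [(nat_lit 0), (nat_lit 0), (nat_lit 3656)], [((nat_lit 0), (nat_lit 0), (nat_lit 0)), ((nat_lit 0), (nat_lit 0), (nat_lit 0)), ((nat_lit 637), (nat_lit 1000), (nat_lit 908))], ((nat_lit 100), (nat_lit 73), (nat_lit 85))⟩, (nat_lit 0), (nat_lit 596), (nat_lit 596), (nat_lit 0), (nat_lit 818363), [(nat_lit 478176000), (nat_lit 1003884000), (nat_lit 1433916000)], [], [(nat_lit 3090568642), (nat_lit 3198302031), (nat_lit 4217463714), (nat_lit 3565113029), (nat_lit 4379848629), (nat_lit 4429304783), (nat_lit 4182753972), (nat_lit 4214809584)], (nat_lit 1271251), (nat_lit 1271251), (nat_lit 1017188), (nat_lit 1779376), (nat_lit 1271251), (nat_lit 1271251), [(nat_lit 1100000), (nat_lit 2127501), (nat_lit 1271251)], [(nat_lit 19), (nat_lit 63), (nat_lit 456), (nat_lit 225), (nat_lit 10)]⟩,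
 ⟨⟨[(nat_lit 120), (nat_lit 160), (nat_lit 200)], [(nat_lit 0), (nat_lit 0), (nat_lit 3198)], [((nat_lit 0), (nat_lit 0), (nat_lit 0)), ((nat_lit 0), (nat_lit 0), (nat_lit 0)), ((nat_lit 572), (nat_lit 1000), (nat_lit 714))], ((nat_lit 0), (nat_lit 0), (nat_lit 0))⟩, (nat_lit 26341), (nat_lit 300), (nat_lit 1292), (nat_lit 4006808), (nat_lit 2102273), [(nat_lit 430272000), (nat_lit 641088000), (nat_lit 885600000)], [], [(nat_lit 3064828186), (nat_lit 3029056399), (nat_lit 2890418318), (nat_lit 2853135672), (nat_lit 2916542208), (nat_lit 2880123150), (nat_lit 2741569775), (nat_lit 2703460483)], (nat_lit 1100000), (nat_lit 1271251), (nat_lit 1100000), (nat_lit 2041876), (nat_lit 1271251), (nat_lit 1271251), [(nat_lit 1695001), (nat_lit 1271251), (nat_lit 1271251)], [(nat_lit 29), (nat_lit 66), (nat_lit 456), (nat_lit 225), (nat_lit 9)]⟩⟩) (.trZ (nat_lit 0) (nat_lit 1) (nat_lit 3) (nat_lit 96) (nat_lit 44) (nat_lit 100) (nat_lit 170) (.trX (nat_lit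 5) (nat_lit 1) (nat_lit 2) (nat_lit 96) (nat_lit 40) (nat_lit 100) (nat_lit 390) (.leaf ⟨(nat_lit 770), (nat_lit 161), (nat_lit 0), (nat_lit 69), (nat_lit 0), (nat_lit 3708), (nat_lit 2204), (nat_lit 743), (nat_lit 0), (nat_lit 0), (nat_lit 332000), [((nat_lit 400), [((nat_lit 29), (nat_lit 1), (nat_lit 650)), ((nat_lit 43), (nat_lit 2), (nat_lit 120))])], ⟨(nat_lit 6), false, false, false, (nat_lit 235), (nat_lit 0), (nat_lit 2237), [(nat_lit 1521399), (nat_lit 1533338), (nat_lit 1543247), (nat_lit 1557412), (nat_lit 1624400), (nat_lit 1624062), (nat_lit 1646249), (nat_lit 1648136)]⟩, ⟨(nat_lit 4), false, false, true, (nat_lit 194), (nat_lit 0), (nat_lit 2237), [(nat_lit 1397434), (nat_lit 1399999), (nat_lit 1419294), (nat_lit 1424084), (nat_lit 1554222), (nat_lit 1537494), (nat_lit 1576997), (nat_lit 1562495)]⟩, (nat_lit 5088801), (nat_lit 40319248), (nat_lit 15386481), (nat_lit 11294271), (nat_lit 5), (nat_lit 0), [⟨(nat_lit 0), (nat_lit 94),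 (nat_lit 31), (nat_lit 100), (nat_lit 171785974)⟩], [⟨(nat_lit 1), (nat_lit 100), (nat_lit 32), (nat_lit 100), (nat_lit 390575786)⟩], [⟨(nat_lit 1), (nat_lit 49), (nat_lit 95), (nat_lit 100), (nat_lit 21837398)⟩], [],
 ⟨⟨[(nat_lit 40), (nat_lit 80), (nat_lit 100)], [(nat_lit 0), (nat_lit 2514), (nat_lit 3562)], [((nat_lit 0), (nat_lit 0), (nat_lit 0)), ((nat_lit 1000), (nat_lit 446), (nat_lit 804)), ((nat_lit 1000), (nat_lit 443), (nat_lit 819))], ((nat_lit 44), (nat_lit 100), (nat_lit 84))⟩, (nat_lit 0), (nat_lit 199), (nat_lit 199), (nat_lit 0), (nat_lit 351638), [(nat_lit 1488500107), (nat_lit 1042040108), (nat_lit 1239208000)], [(nat_lit 0), (nat_lit 0), (nat_lit 0)], [(nat_lit 22667448588), (nat_lit 23862181788), (nat_lit 24135904332), (nat_lit 25352383600), (nat_lit 25384259608), (nat_lit 26742089303), (nat_lit 26844979022), (nat_lit 28081776118)], (nat_lit 1271251), (nat_lit 1271251), (nat_lit 1184688), (nat_lit 1790626), (nat_lit 1100000),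 (nat_lit 2041876), [(nat_lit 490000), (nat_lit 1100000), (nat_lit 1442501)], [(nat_lit 3), (nat_lit 50), (nat_lit 373), (nat_lit 150), (nat_lit 13)]⟩,
 ⟨⟨[(nat_lit 80), (nat_lit 140), (nat_lit 180)], [(nat_lit 0), (nat_lit 792), (nat_lit 4228)], [((nat_lit 0), (nat_lit 0), (nat_lit 0)), ((nat_lit 1000), (nat_lit 959), (nat_lit 206)), ((nat_lit 709), (nat_lit 1000), (nat_lit 949))], ((nat_lit 100), (nat_lit 82), (nat_lit 87))⟩, (nat_lit 489788), (nat_lit 567), (nat_lit 567), (nat_lit 0), (nat_lit 775977), [(nat_lit 1078240000), (nat_lit 2263660000), (nat_lit 3233340000)], [], [(nat_lit 6706646350), (nat_lit 6817206940), (nat_lit 6713956994), (nat_lit 6801707848), (nat_lit 7679703094), (nat_lit 7791120003), (nat_lit 7596740672), (nat_lit 7684233536)], (nat_lit 1271251), (nat_lit 1271251), (nat_lit 1184688), (nat_lit 1790626), (nat_lit 1271251), (nat_lit 1271251), [(nat_lit 1100000), (nat_lit 2127501), (nat_lit 1271251)], [(nat_lit 19), (nat_lit 63),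 (nat_lit 483), (nat_lit 250), (nat_lit 10)]⟩,
 ⟨⟨[(nat_lit 120), (nat_lit 160), (nat_lit 200)], [(nat_lit 0), (nat_lit 0), (nat_lit 3198)], [((nat_lit 0), (nat_lit 0), (nat_lit 0)), ((nat_lit 0), (nat_lit 0), (nat_lit 0)), ((nat_lit 572), (nat_lit 1000), (nat_lit 714))], ((nat_lit 0), (nat_lit 0), (nat_lit 0))⟩, (nat_lit 33659), (nat_lit 300), (nat_lit 1437), (nat_lit 5119800), (nat_lit 2403196), [(nat_lit 549792000), (nat_lit 819168000), (nat_lit 1131600000)], [], [(nat_lit 4234111828), (nat_lit 4185901260), (nat_lit 3984096198), (nat_lit 3935705006), (nat_lit 3921705387), (nat_lit 3875122497), (nat_lit 3689838489), (nat_lit 3642129031)], (nat_lit 1100000), (nat_lit 1271251), (nat_lit 1100000), (nat_lit 2041876), (nat_lit 1271251), (nat_lit 1271251), [(nat_lit 1695001), (nat_lit 1271251), (nat_lit 1271251)], [(nat_lit 29), (nat_lit 66), (nat_lit 465), (nat_lit 225), (nat_lit 9)]⟩⟩))))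
noncomputable def c14_73 : Tr Lf :=
 (.trX (nat_lit 4) (nat_lit 0) (nat_lit 2) (nat_lit 44) (nat_lit 100) (nat_lit 96) (nat_lit 230) (.trX (nat_lit 5) (nat_lit 1) (nat_lit 2) (nat_lit 100) (nat_lit 49) (nat_lit 97) (nat_lit 380) (.stt (nat_lit 2) (.leaf ⟨(nat_lit 0), (nat_lit 1000), (nat_lit 0), (nat_lit 0), (nat_lit 9176), (nat_lit 5846), (nat_lit 12710), (nat_lit 0), (nat_lit 0), (nat_lit 0), (nat_lit 0), [], Pd.none, Pd.none, (nat_lit 0), (nat_lit 1), (nat_lit 0), (nat_lit 0), (nat_lit 4), (nat_lit 0), [], [⟨(nat_lit 1), (nat_lit 100), (nat_lit 44), (nat_lit 96), (nat_lit 598957716)⟩], [⟨(nat_lit 1), (nat_lit 49), (nat_lit 100), (nat_lit 97), (nat_lit 122821510)⟩], [],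
 ⟨⟨[(nat_lit 40), (nat_lit 80), (nat_lit 100)], [(nat_lit 0), (nat_lit 2514), (nat_lit 3562)], [((nat_lit 0), (nat_lit 0), (nat_lit 0)), ((nat_lit 1000), (nat_lit 446), (nat_lit 804)), ((nat_lit 1000), (nat_lit 443), (nat_lit 819))], ((nat_lit 44), (nat_lit 100), (nat_lit 84))⟩, (nat_lit 0), (nat_lit 78), (nat_lit 78), (nat_lit 0), (nat_lit 0), [(nat_lit 2411069553), (nat_lit 4688000223), (nat_lit 6250000000)], [], [(nat_lit 25993889785), (nat_lit 27650635903), (nat_lit 29642369190), (nat_lit 31243336504), (nat_lit 27401359876), (nat_lit 28856625751), (nat_lit 30671743335), (nat_lit 32078786182)], (nat_lit 0), (nat_lit 0), (nat_lit 0), (nat_lit 0), (nat_lit 0), (nat_lit 0), [], [(nat_lit 3), (nat_lit 50), (nat_lit 272), (nat_lit 60), (nat_lit 8)]⟩,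
 ⟨⟨[(nat_lit 80), (nat_lit 140), (nat_lit 180)], [(nat_lit 0), (nat_lit 0), (nat_lit 3656)], [((nat_lit 0), (nat_lit 0), (nat_lit 0)), ((nat_lit 0), (nat_lit 0), (nat_lit 0)), ((nat_lit 637), (nat_lit 1000), (nat_lit 908))], ((nat_lit 100), (nat_lit 73), (nat_lit 85))⟩, (nat_lit 1667998), (nat_lit 269), (nat_lit 269), (nat_lit 0), (nat_lit 0), [(nat_lit 4688000000), (nat_lit 9842000000), (nat_lit 14058000000)], [], [(nat_lit 37501813632), (nat_lit 40259035532), (nat_lit 43016257432), (nat_lit 44994175532), (nat_lit 33893212412), (nat_lit 35097557630), (nat_lit 37558585840), (nat_lit 39297752560)], (nat_lit 0), (nat_lit 0), (nat_lit 0), (nat_lit 0), (nat_lit 0), (nat_lit 0), [], [(nat_lit 19), (nat_lit 63), (nat_lit 483), (nat_lit 250), (nat_lit 11)]⟩,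
 Rw.none⟩) (.spl (nat_lit 5) (nat_lit 120) (.spl (nat_lit 0) (nat_lit 390) (.leaf ⟨(nat_lit 863), (nat_lit 137), (nat_lit 0), (nat_lit 0), (nat_lit 0), (nat_lit 3417), (nat_lit 1403), (nat_lit 0), (nat_lit 0), (nat_lit 0), (nat_lit 215750), [((nat_lit 390), [((nat_lit 29), (nat_lit 0), (nat_lit 863))])], ⟨(nat_lit 6), false, true, true, (nat_lit 272), (nat_lit 1581), (nat_lit 2237), [(nat_lit 1602558), (nat_lit 1601260), (nat_lit 1648016), (nat_lit 1647799), (nat_lit 1716594), (nat_lit 1710536), (nat_lit 1762142), (nat_lit 1757166)]⟩, ⟨(nat_lit 4), false, false, true, (nat_lit 165), (nat_lit 1581), (nat_lit 2237), [(nat_lit 1351886), (nat_lit 1352103), (nat_lit 1374660), (nat_lit 1375418), (nat_lit 1451663), (nat_lit 1447715), (nat_lit 1474437), (nat_lit 1471030)]⟩, (nat_lit 5029098), (nat_lit 39164079), (nat_lit 19218247), (nat_lit 8617674), (nat_lit 4), (nat_lit 0), [], [⟨(nat_lit 1), (nat_lit 100), (nat_lit 38), (nat_lit 94), (nat_lit 295864658)⟩],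 [], [⟨(nat_lit 0), (nat_lit 100), (nat_lit 81), (nat_lit 72), (nat_lit 27918227)⟩],
 ⟨⟨[(nat_lit 40), (nat_lit 80), (nat_lit 100)], [(nat_lit 0), (nat_lit 2514), (nat_lit 3562)], [((nat_lit 0), (nat_lit 0), (nat_lit 0)), ((nat_lit 1000), (nat_lit 446), (nat_lit 804)), ((nat_lit 1000), (nat_lit 443), (nat_lit 819))], ((nat_lit 44), (nat_lit 100), (nat_lit 84))⟩, (nat_lit 0), (nat_lit 74), (nat_lit 74), (nat_lit 0), (nat_lit 0), [(nat_lit 1595367732), (nat_lit 1830089331), (nat_lit 2397913200)], [(nat_lit 0), (nat_lit 0), (nat_lit 0)], [(nat_lit 24340288035), (nat_lit 24926915655), (nat_lit 27175954014), (nat_lit 27673775297), (nat_lit 25815739346), (nat_lit 26340333489), (nat_lit 28345914817), (nat_lit 28793406644)], (nat_lit 0), (nat_lit 0), (nat_lit 0), (nat_lit 0), (nat_lit 0), (nat_lit 0), [], [(nat_lit 3), (nat_lit 50), (nat_lit 272), (nat_lit 60), (nat_lit 8)]⟩,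
 ⟨⟨[(nat_lit 80), (nat_lit 140), (nat_lit 180)], [(nat_lit 0), (nat_lit 0), (nat_lit 3656)], [((nat_lit 0), (nat_lit 0), (nat_lit 0)), ((nat_lit 0), (nat_lit 0), (nat_lit 0)), ((nat_lit 637), (nat_lit 1000), (nat_lit 908))], ((nat_lit 100), (nat_lit 73), (nat_lit 85))⟩, (nat_lit 241561), (nat_lit 637), (nat_lit 637), (nat_lit 0), (nat_lit 701830), [(nat_lit 642256000), (nat_lit 1348354000), (nat_lit 1925946000)], [], [(nat_lit 5567332800), (nat_lit 5667577290), (nat_lit 5767821780), (nat_lit 5831974354), (nat_lit 4601061488), (nat_lit 4684647079), (nat_lit 4772929104), (nat_lit 4861940115)], (nat_lit 1271251), (nat_lit 1271251), (nat_lit 1271251), (nat_lit 1271251), (nat_lit 0), (nat_lit 780000), [(nat_lit 1100000), (nat_lit 2127501), (nat_lit 1271251)], [(nat_lit 19), (nat_lit 63), (nat_lit 428), (nat_lit 200), (nat_lit 10)]⟩,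
 Rw.none⟩) (.trX (nat_lit 4) (nat_lit 0) (nat_lit 2) (nat_lit 31) (nat_lit 100) (nat_lit 95) (nat_lit 210) (.leaf ⟨(nat_lit 867), (nat_lit 133), (nat_lit 0), (nat_lit 0), (nat_lit 0), (nat_lit 3423), (nat_lit 1377), (nat_lit 0), (nat_lit 0), (nat_lit 0), (nat_lit 216750), [((nat_lit 400), [((nat_lit 29), (nat_lit 0), (nat_lit 867))])], ⟨(nat_lit 6), false, true, true, (nat_lit 271), (nat_lit 0), (nat_lit 1582), [(nat_lit 1601257), (nat_lit 1599992), (nat_lit 1646579), (nat_lit 1648683), (nat_lit 1710533), (nat_lit 1699996), (nat_lit 1757165), (nat_lit 1749998)]⟩, ⟨(nat_lit 4), false, false, true, (nat_lit 158), (nat_lit 0), (nat_lit 1582), [(nat_lit 1352101), (nat_lit 1349997), (nat_lit 1375418), (nat_lit 1374999), (nat_lit 1420394), (nat_lit 1412496), (nat_lit 1443710), (nat_lit 1437497)]⟩, (nat_lit 4965087), (nat_lit 39648380), (nat_lit 19199009), (nat_lit 8152611), (nat_lit 4), (nat_lit 0), [], [⟨(nat_lit 1), (nat_lit 100), (nat_lit 22), (nat_lit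 95), (nat_lit 510822250)⟩], [], [⟨(nat_lit 0), (nat_lit 100), (nat_lit 80), (nat_lit 64), (nat_lit 25239748)⟩],
 ⟨⟨[(nat_lit 40), (nat_lit 60), (nat_lit 80)], [(nat_lit 0), (nat_lit 2136), (nat_lit 3185)], [((nat_lit 0), (nat_lit 0), (nat_lit 0)), ((nat_lit 1000), (nat_lit 343), (nat_lit 808)), ((nat_lit 1000), (nat_lit 338), (nat_lit 820))], ((nat_lit 32), (nat_lit 100), (nat_lit 86))⟩, (nat_lit 0), (nat_lit 75), (nat_lit 75), (nat_lit 0), (nat_lit 0), [(nat_lit 1594428402), (nat_lit 1573297531), (nat_lit 1816842800)], [(nat_lit 0), (nat_lit 0), (nat_lit 0)], [(nat_lit 24906245450), (nat_lit 25493343230), (nat_lit 27654284389), (nat_lit 28188602252), (nat_lit 25915606021), (nat_lit 26458339490), (nat_lit 28453554363), (nat_lit 29011914637)], (nat_lit 0), (nat_lit 0), (nat_lit 0), (nat_lit 0), (nat_lit 0), (nat_lit 0), [], [(nat_lit 2), (nat_lit 44), (nat_lit 203), (nat_lit 0), (nat_lit 7)]⟩,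
 ⟨⟨[(nat_lit 80), (nat_lit 140), (nat_lit 180)], [(nat_lit 0), (nat_lit 0), (nat_lit 3656)], [((nat_lit 0), (nat_lit 0), (nat_lit 0)), ((nat_lit 0), (nat_lit 0), (nat_lit 0)), ((nat_lit 637), (nat_lit 1000), (nat_lit 908))], ((nat_lit 100), (nat_lit 73), (nat_lit 85))⟩, (nat_lit 214284), (nat_lit 739), (nat_lit 739), (nat_lit 0), (nat_lit 888407), [(nat_lit 623504000), (nat_lit 1308986000), (nat_lit 1869714000)], [], [(nat_lit 5580713164), (nat_lit 5621689876), (nat_lit 5691033268), (nat_lit 5728489868), (nat_lit 4695417328), (nat_lit 4749650587), (nat_lit 4803883846), (nat_lit 4829562173)], (nat_lit 1271251), (nat_lit 1271251), (nat_lit 1271251), (nat_lit 1271251), (nat_lit 0), (nat_lit 780000), [(nat_lit 1100000), (nat_lit 2127501), (nat_lit 1271251)], [(nat_lit 19), (nat_lit 63), (nat_lit 428), (nat_lit 200), (nat_lit 10)]⟩,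
 Rw.none⟩))) (.spl (nat_lit 0) (nat_lit 390) (.leaf ⟨(nat_lit 886), (nat_lit 85), (nat_lit 0), (nat_lit 29), (nat_lit 0), (nat_lit 3378), (nat_lit 1130), (nat_lit 326), (nat_lit 0), (nat_lit 0), (nat_lit 221500), [((nat_lit 390), [((nat_lit 29), (nat_lit 0), (nat_lit 886))])], ⟨(nat_lit 6), false, true, true, (nat_lit 272), (nat_lit 1581), (nat_lit 2237), [(nat_lit 1602558), (nat_lit 1601260), (nat_lit 1648016), (nat_lit 1647799), (nat_lit 1716594), (nat_lit 1710536), (nat_lit 1762142), (nat_lit 1757166)]⟩, ⟨(nat_lit 4), false, false, true, (nat_lit 165), (nat_lit 1581), (nat_lit 2237), [(nat_lit 1351886), (nat_lit 1352103), (nat_lit 1374660), (nat_lit 1375418), (nat_lit 1451663), (nat_lit 1447715), (nat_lit 1474437), (nat_lit 1471030)]⟩, (nat_lit 5029098), (nat_lit 39164079), (nat_lit 19218247), (nat_lit 8617674), (nat_lit 4), (nat_lit 0), [], [⟨(nat_lit 1), (nat_lit 100), (nat_lit 38), (nat_lit 94), (nat_lit 282416263)⟩], [], [],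
 ⟨⟨[(nat_lit 40), (nat_lit 80), (nat_lit 100)], [(nat_lit 0), (nat_lit 2514), (nat_lit 3562)], [((nat_lit 0), (nat_lit 0), (nat_lit 0)), ((nat_lit 1000), (nat_lit 446), (nat_lit 804)), ((nat_lit 1000), (nat_lit 443), (nat_lit 819))], ((nat_lit 44), (nat_lit 100), (nat_lit 84))⟩, (nat_lit 0), (nat_lit 74), (nat_lit 74), (nat_lit 0), (nat_lit 0), [(nat_lit 1589967755), (nat_lit 1753923040), (nat_lit 2295250400)], [(nat_lit 0), (nat_lit 0), (nat_lit 0)], [(nat_lit 24303926043), (nat_lit 24887497623), (nat_lit 27131199729), (nat_lit 27626691834), (nat_lit 25780914446), (nat_lit 26302950177), (nat_lit 28305010514), (nat_lit 28750989611)], (nat_lit 0), (nat_lit 0), (nat_lit 0), (nat_lit 0), (nat_lit 0), (nat_lit 0), [], [(nat_lit 3), (nat_lit 50), (nat_lit 272), (nat_lit 60), (nat_lit 8)]⟩,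
 ⟨⟨[(nat_lit 80), (nat_lit 140), (nat_lit 180)], [(nat_lit 0), (nat_lit 0), (nat_lit 3656)], [((nat_lit 0), (nat_lit 0), (nat_lit 0)), ((nat_lit 0), (nat_lit 0), (nat_lit 0)), ((nat_lit 637), (nat_lit 1000), (nat_lit 908))], ((nat_lit 100), (nat_lit 73), (nat_lit 85))⟩, (nat_lit 208950), (nat_lit 605), (nat_lit 605), (nat_lit 0), (nat_lit 833654), [(nat_lit 534432000), (nat_lit 1121988000), (nat_lit 1602612000)], [], [(nat_lit 3902116104), (nat_lit 3972324138), (nat_lit 4077421664), (nat_lit 4152012310), (nat_lit 4093022596), (nat_lit 4115986226), (nat_lit 4138949856), (nat_lit 4148995552)], (nat_lit 1271251), (nat_lit 1271251), (nat_lit 1271251), (nat_lit 1271251), (nat_lit 780000), (nat_lit 2908751), [(nat_lit 1100000), (nat_lit 2127501), (nat_lit 1271251)], [(nat_lit 19), (nat_lit 63), (nat_lit 483), (nat_lit 250), (nat_lit 11)]⟩,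
 ⟨⟨[(nat_lit 140), (nat_lit 180), (nat_lit 200)], [(nat_lit 0), (nat_lit 0), (nat_lit 2835)], [((nat_lit 0), (nat_lit 0), (nat_lit 0)), ((nat_lit 0), (nat_lit 0), (nat_lit 0)), ((nat_lit 363), (nat_lit 1000), (nat_lit 798))], ((nat_lit 0), (nat_lit 0), (nat_lit 0))⟩, (nat_lit 7979), (nat_lit 300), (nat_lit 1772), (nat_lit 2264900), (nat_lit 2976577), [(nat_lit 285418000), (nat_lit 407682000), (nat_lit 475600000)], [], [(nat_lit 1959608014), (nat_lit 1934744302), (nat_lit 1884541701), (nat_lit 1859792129), (nat_lit 1731823541), (nat_lit 1704678215), (nat_lit 1659722310), (nat_lit 1721387724)], (nat_lit 780000), (nat_lit 936250), (nat_lit 1100000), (nat_lit 1699376), (nat_lit 780000), (nat_lit 2908751), [(nat_lit 1977501), (nat_lit 1271251), (nat_lit 1271251)], [(nat_lit 32), (nat_lit 67), (nat_lit 537), (nat_lit 200), (nat_lit 11)]⟩⟩) (.trX (nat_lit 4) (nat_lit 0) (nat_lit 2) (nat_lit 31) (nat_lit 100) (nat_lit 95) (nat_lit 210) (.leaf ⟨(nat_lit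 892), (nat_lit 81), (nat_lit 0), (nat_lit 27), (nat_lit 0), (nat_lit 3381), (nat_lit 1097), (nat_lit 316), (nat_lit 0), (nat_lit 0), (nat_lit 223000), [((nat_lit 400), [((nat_lit 29), (nat_lit 0), (nat_lit 892))])], ⟨(nat_lit 6), false, true, true, (nat_lit 271), (nat_lit 0), (nat_lit 1582), [(nat_lit 1601257), (nat_lit 1599992), (nat_lit 1646579), (nat_lit 1648683), (nat_lit 1710533), (nat_lit 1699996), (nat_lit 1757165), (nat_lit 1749998)]⟩, ⟨(nat_lit 4), false, false, true, (nat_lit 158), (nat_lit 0), (nat_lit 1582), [(nat_lit 1352101), (nat_lit 1349997), (nat_lit 1375418), (nat_lit 1374999), (nat_lit 1420394), (nat_lit 1412496), (nat_lit 1443710), (nat_lit 1437497)]⟩, (nat_lit 4965087), (nat_lit 39648380), (nat_lit 19199009), (nat_lit 8152611), (nat_lit 4), (nat_lit 0), [], [⟨(nat_lit 1), (nat_lit 100), (nat_lit 22), (nat_lit 95), (nat_lit 477391109)⟩], [], [],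
 ⟨⟨[(nat_lit 40), (nat_lit 60), (nat_lit 80)], [(nat_lit 0), (nat_lit 2136), (nat_lit 3185)], [((nat_lit 0), (nat_lit 0), (nat_lit 0)), ((nat_lit 1000), (nat_lit 343), (nat_lit 808)), ((nat_lit 1000), (nat_lit 338), (nat_lit 820))], ((nat_lit 32), (nat_lit 100), (nat_lit 86))⟩, (nat_lit 0), (nat_lit 75), (nat_lit 75), (nat_lit 0), (nat_lit 0), [(nat_lit 1588558409), (nat_lit 1476014767), (nat_lit 1734052800)], [(nat_lit 0), (nat_lit 0), (nat_lit 0)], [(nat_lit 24862975865), (nat_lit 25446782525), (nat_lit 27602759725), (nat_lit 28135651844), (nat_lit 25873901606), (nat_lit 26413726745), (nat_lit 28405296616), (nat_lit 28962891439)], (nat_lit 0), (nat_lit 0), (nat_lit 0), (nat_lit 0), (nat_lit 0), (nat_lit 0), [], [(nat_lit 2), (nat_lit 44), (nat_lit 203), (nat_lit 0), (nat_lit 7)]⟩,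
 ⟨⟨[(nat_lit 80), (nat_lit 140), (nat_lit 180)], [(nat_lit 0), (nat_lit 0), (nat_lit 3656)], [((nat_lit 0), (nat_lit 0), (nat_lit 0)), ((nat_lit 0), (nat_lit 0), (nat_lit 0)), ((nat_lit 637), (nat_lit 1000), (nat_lit 908))], ((nat_lit 100), (nat_lit 73), (nat_lit 85))⟩, (nat_lit 187515), (nat_lit 723), (nat_lit 723), (nat_lit 0), (nat_lit 1052737), [(nat_lit 506304000), (nat_lit 1062936000), (nat_lit 1518264000)], [], [(nat_lit 3896874208), (nat_lit 3941575617), (nat_lit 3986277026), (nat_lit 4008161218), (nat_lit 3841023913), (nat_lit 3827650820), (nat_lit 3904554723), (nat_lit 3958436938)], (nat_lit 1271251), (nat_lit 1271251), (nat_lit 1271251), (nat_lit 1271251), (nat_lit 780000), (nat_lit 2908751), [(nat_lit 1100000), (nat_lit 2127501), (nat_lit 1271251)], [(nat_lit 19), (nat_lit 63), (nat_lit 483), (nat_lit 250), (nat_lit 11)]⟩,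
 ⟨⟨[(nat_lit 140), (nat_lit 180), (nat_lit 200)], [(nat_lit 0), (nat_lit 0), (nat_lit 2835)], [((nat_lit 0), (nat_lit 0), (nat_lit 0)), ((nat_lit 0), (nat_lit 0), (nat_lit 0)), ((nat_lit 363), (nat_lit 1000), (nat_lit 798))], ((nat_lit 0), (nat_lit 0), (nat_lit 0))⟩, (nat_lit 7429), (nat_lit 300), (nat_lit 2072), (nat_lit 2108700), (nat_lit 3570166), [(nat_lit 265734000), (nat_lit 379566000), (nat_lit 442800000)], [], [(nat_lit 1749006780), (nat_lit 1723258833), (nat_lit 1699177815), (nat_lit 1673420122), (nat_lit 1557829129), (nat_lit 1531259922), (nat_lit 1509634554), (nat_lit 1543456177)], (nat_lit 780000), (nat_lit 936250), (nat_lit 1100000), (nat_lit 1528126), (nat_lit 780000), (nat_lit 2908751), [(nat_lit 1977501), (nat_lit 1271251), (nat_lit 1271251)], [(nat_lit 32), (nat_lit 67), (nat_lit 610), (nat_lit 200), (nat_lit 13)]⟩⟩)))))))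
noncomputable def c14_74 : Tr Lf :=
 (.spl (nat_lit 5) (nat_lit 120) (.spl (nat_lit 1) (nat_lit 260) (.spl (nat_lit 0) (nat_lit 390) (.leaf ⟨(nat_lit 854), (nat_lit 105), (nat_lit 0), (nat_lit 41), (nat_lit 0), (nat_lit 3406), (nat_lit 1554), (nat_lit 517), (nat_lit 0), (nat_lit 0), (nat_lit 213500), [((nat_lit 390), [((nat_lit 29), (nat_lit 0), (nat_lit 854))])], ⟨(nat_lit 6), false, true, true, (nat_lit 268), (nat_lit 1581), (nat_lit 2237), [(nat_lit 1602558), (nat_lit 1601260), (nat_lit 1625287), (nat_lit 1624529), (nat_lit 1716594), (nat_lit 1710536), (nat_lit 1739368), (nat_lit 1733851)]⟩, ⟨(nat_lit 4), false, false, true, (nat_lit 180), (nat_lit 1581), (nat_lit 2237), [(nat_lit 1374660), (nat_lit 1375418), (nat_lit 1397434), (nat_lit 1398733), (nat_lit 1502945), (nat_lit 1498348), (nat_lit 1525719), (nat_lit 1521663)]⟩, (nat_lit 5133832), (nat_lit 38702418), (nat_lit 18521146), (nat_lit 9776436), (nat_lit 4), (nat_lit 0), [⟨(nat_lit 1), (nat_lit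 83), (nat_lit 39), (nat_lit 100), (nat_lit 42443411)⟩], [⟨(nat_lit 1), (nat_lit 100), (nat_lit 38), (nat_lit 98), (nat_lit 110383485)⟩], [], [⟨(nat_lit 0), (nat_lit 100), (nat_lit 83), (nat_lit 81), (nat_lit 69167381)⟩],
 ⟨⟨[(nat_lit 40), (nat_lit 80), (nat_lit 100)], [(nat_lit 0), (nat_lit 2514), (nat_lit 3562)], [((nat_lit 0), (nat_lit 0), (nat_lit 0)), ((nat_lit 1000), (nat_lit 446), (nat_lit 804)), ((nat_lit 1000), (nat_lit 443), (nat_lit 819))], ((nat_lit 44), (nat_lit 100), (nat_lit 84))⟩, (nat_lit 0), (nat_lit 74), (nat_lit 74), (nat_lit 0), (nat_lit 0), [(nat_lit 1597480824), (nat_lit 1859893623), (nat_lit 2438085600)], [(nat_lit 0), (nat_lit 0), (nat_lit 0)], [(nat_lit 24384955343), (nat_lit 24970721003), (nat_lit 27218254265), (nat_lit 27715418600), (nat_lit 26382294943), (nat_lit 26887918391), (nat_lit 28817655669), (nat_lit 29249679374)], (nat_lit 0), (nat_lit 0), (nat_lit 0), (nat_lit 0), (nat_lit 0), (nat_lit 0), [], [(nat_lit 3),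 (nat_lit 50), (nat_lit 289), (nat_lit 75), (nat_lit 9)]⟩,
 ⟨⟨[(nat_lit 80), (nat_lit 140), (nat_lit 180)], [(nat_lit 0), (nat_lit 0), (nat_lit 3656)], [((nat_lit 0), (nat_lit 0), (nat_lit 0)), ((nat_lit 0), (nat_lit 0), (nat_lit 0)), ((nat_lit 637), (nat_lit 1000), (nat_lit 908))], ((nat_lit 100), (nat_lit 73), (nat_lit 85))⟩, (nat_lit 276161), (nat_lit 587), (nat_lit 587), (nat_lit 0), (nat_lit 572122), [(nat_lit 684448000), (nat_lit 1436932000), (nat_lit 2052468000)], [], [(nat_lit 5753482072), (nat_lit 5806625862), (nat_lit 5984594688), (nat_lit 6042549456), (nat_lit 4673804736), (nat_lit 4717828645), (nat_lit 4920336352), (nat_lit 4967354811)], (nat_lit 1271251), (nat_lit 1271251), (nat_lit 1271251), (nat_lit 1271251), (nat_lit 0), (nat_lit 780000), [(nat_lit 1100000), (nat_lit 2127501), (nat_lit 1271251)], [(nat_lit 19), (nat_lit 63), (nat_lit 401), (nat_lit 175), (nat_lit 9)]⟩,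
 ⟨⟨[(nat_lit 140), (nat_lit 180), (nat_lit 200)], [(nat_lit 0), (nat_lit 608), (nat_lit 3317)], [((nat_lit 0), (nat_lit 0), (nat_lit 0)), ((nat_lit 913), (nat_lit 1000), (nat_lit 217)), ((nat_lit 385), (nat_lit 1000), (nat_lit 814))], ((nat_lit 0), (nat_lit 0), (nat_lit 0))⟩, (nat_lit 15828), (nat_lit 300), (nat_lit 1238), (nat_lit 3148637), (nat_lit 1668463), [(nat_lit 403522000), (nat_lit 576378000), (nat_lit 672400000)], [], [(nat_lit 2823921640), (nat_lit 2780955916), (nat_lit 2719975334), (nat_lit 2676733813), (nat_lit 2423514181), (nat_lit 2381214128), (nat_lit 2500130947), (nat_lit 2622765367)], (nat_lit 936250), (nat_lit 1100000), (nat_lit 1100000), (nat_lit 1870626), (nat_lit 0), (nat_lit 780000), [(nat_lit 1977501), (nat_lit 1271251), (nat_lit 1271251)], [(nat_lit 32), (nat_lit 67), (nat_lit 376), (nat_lit 150), (nat_lit 8)]⟩⟩) (.trX (nat_lit 4) (nat_lit 0) (nat_lit 2) (nat_lit 31) (nat_lit 100) (nat_lit 99) (nat_lit 230) (.leaf ⟨(nat_lit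 878), (nat_lit 106), (nat_lit 0), (nat_lit 16), (nat_lit 0), (nat_lit 3392), (nat_lit 1298), (nat_lit 239), (nat_lit 0), (nat_lit 0), (nat_lit 219500), [((nat_lit 400), [((nat_lit 29), (nat_lit 0), (nat_lit 878))])], ⟨(nat_lit 6), false, true, true, (nat_lit 266), (nat_lit 0), (nat_lit 1582), [(nat_lit 1601257), (nat_lit 1599992), (nat_lit 1623921), (nat_lit 1624340), (nat_lit 1710533), (nat_lit 1699996), (nat_lit 1733849), (nat_lit 1724997)]⟩, ⟨(nat_lit 4), false, false, true, (nat_lit 173), (nat_lit 0), (nat_lit 1582), [(nat_lit 1375418), (nat_lit 1374999), (nat_lit 1398733), (nat_lit 1399999), (nat_lit 1471027), (nat_lit 1462495), (nat_lit 1494343), (nat_lit 1487497)]⟩, (nat_lit 5074769), (nat_lit 39201534), (nat_lit 18490445), (nat_lit 9308021), (nat_lit 4), (nat_lit 0), [⟨(nat_lit 1), (nat_lit 92), (nat_lit 23), (nat_lit 100), (nat_lit 243965296)⟩], [⟨(nat_lit 1), (nat_lit 100), (nat_lit 22), (nat_lit 97), (nat_lit 224715264)⟩, ⟨(nat_lit 1),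 (nat_lit 100), (nat_lit 31), (nat_lit 99), (nat_lit 95106053)⟩], [], [⟨(nat_lit 0), (nat_lit 100), (nat_lit 81), (nat_lit 72), (nat_lit 38250472)⟩],
 ⟨⟨[(nat_lit 40), (nat_lit 60), (nat_lit 80)], [(nat_lit 0), (nat_lit 2136), (nat_lit 3185)], [((nat_lit 0), (nat_lit 0), (nat_lit 0)), ((nat_lit 1000), (nat_lit 343), (nat_lit 808)), ((nat_lit 1000), (nat_lit 338), (nat_lit 820))], ((nat_lit 32), (nat_lit 100), (nat_lit 86))⟩, (nat_lit 0), (nat_lit 75), (nat_lit 75), (nat_lit 0), (nat_lit 0), [(nat_lit 1591845708), (nat_lit 1554738612), (nat_lit 1780415200)], [(nat_lit 0), (nat_lit 0), (nat_lit 0)], [(nat_lit 24900737600), (nat_lit 25485406220), (nat_lit 27642683504), (nat_lit 28149519808), (nat_lit 26315459741), (nat_lit 26838413876), (nat_lit 28765876098), (nat_lit 29306215264)], (nat_lit 0), (nat_lit 0), (nat_lit 0), (nat_lit 0), (nat_lit 0), (nat_lit 0), [], [(nat_lit 2), (nat_lit 44), (nat_lit 203), (nat_lit 0), (nat_lit 7)]⟩,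
 ⟨⟨[(nat_lit 80), (nat_lit 140), (nat_lit 180)], [(nat_lit 0), (nat_lit 0), (nat_lit 3656)], [((nat_lit 0), (nat_lit 0), (nat_lit 0)), ((nat_lit 0), (nat_lit 0), (nat_lit 0)), ((nat_lit 637), (nat_lit 1000), (nat_lit 908))], ((nat_lit 100), (nat_lit 73), (nat_lit 85))⟩, (nat_lit 210481), (nat_lit 656), (nat_lit 656), (nat_lit 0), (nat_lit 751396), [(nat_lit 571936000), (nat_lit 1200724000), (nat_lit 1715076000)], [], [(nat_lit 4981597096), (nat_lit 5012990760), (nat_lit 5107171752), (nat_lit 5123598752), (nat_lit 4168527072), (nat_lit 4192855075), (nat_lit 4265839084), (nat_lit 4276765323)], (nat_lit 1271251), (nat_lit 1271251), (nat_lit 1271251), (nat_lit 1271251), (nat_lit 0), (nat_lit 780000), [(nat_lit 1100000), (nat_lit 2127501), (nat_lit 1271251)], [(nat_lit 19), (nat_lit 63), (nat_lit 401), (nat_lit 175), (nat_lit 9)]⟩,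
 ⟨⟨[(nat_lit 140), (nat_lit 180), (nat_lit 200)], [(nat_lit 0), (nat_lit 608), (nat_lit 3317)], [((nat_lit 0), (nat_lit 0), (nat_lit 0)), ((nat_lit 913), (nat_lit 1000), (nat_lit 217)), ((nat_lit 385), (nat_lit 1000), (nat_lit 814))], ((nat_lit 0), (nat_lit 0), (nat_lit 0))⟩, (nat_lit 4725), (nat_lit 300), (nat_lit 1439), (nat_lit 1233640), (nat_lit 2116658), [(nat_lit 157472000), (nat_lit 224928000), (nat_lit 262400000)], [], [(nat_lit 1066772576), (nat_lit 1046292524), (nat_lit 1022866412), (nat_lit 1002146993), (nat_lit 863742715), (nat_lit 844501562), (nat_lit 952193767), (nat_lit 1006186107)], (nat_lit 936250), (nat_lit 1100000), (nat_lit 1100000), (nat_lit 1699376), (nat_lit 0), (nat_lit 780000), [(nat_lit 1977501), (nat_lit 1271251), (nat_lit 1271251)], [(nat_lit 32), (nat_lit 67), (nat_lit 424), (nat_lit 150), (nat_lit 9)]⟩⟩))) (.leaf ⟨(nat_lit 400), (nat_lit 600), (nat_lit 0), (nat_lit 0), (nat_lit 0), (nat_lit 4559), (nat_lit 4677), (nat_lit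 0), (nat_lit 0), (nat_lit 0), (nat_lit 100000), [((nat_lit 400), [((nat_lit 29), (nat_lit 0), (nat_lit 400))])], ⟨(nat_lit 6), false, true, true, (nat_lit 276), (nat_lit 0), (nat_lit 2237), [(nat_lit 1624400), (nat_lit 1624062), (nat_lit 1646249), (nat_lit 1648136), (nat_lit 1739366), (nat_lit 1724997), (nat_lit 1762141), (nat_lit 1749998)]⟩, ⟨(nat_lit 4), false, false, true, (nat_lit 179), (nat_lit 0), (nat_lit 2237), [(nat_lit 1374660), (nat_lit 1374999), (nat_lit 1397434), (nat_lit 1399999), (nat_lit 1502940), (nat_lit 1487494), (nat_lit 1525715), (nat_lit 1512494)]⟩, (nat_lit 5155427), (nat_lit 38133222), (nat_lit 19271002), (nat_lit 9595776), (nat_lit 4), (nat_lit 0), [], [⟨(nat_lit 1), (nat_lit 100), (nat_lit 31), (nat_lit 97), (nat_lit 733484226)⟩], [], [⟨(nat_lit 0), (nat_lit 100), (nat_lit 92), (nat_lit 42), (nat_lit 42772802)⟩],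
 ⟨⟨[(nat_lit 40), (nat_lit 80), (nat_lit 100)], [(nat_lit 0), (nat_lit 2514), (nat_lit 3562)], [((nat_lit 0), (nat_lit 0), (nat_lit 0)), ((nat_lit 1000), (nat_lit 446), (nat_lit 804)), ((nat_lit 1000), (nat_lit 443), (nat_lit 819))], ((nat_lit 44), (nat_lit 100), (nat_lit 84))⟩, (nat_lit 0), (nat_lit 78), (nat_lit 78), (nat_lit 0), (nat_lit 0), [(nat_lit 1873567066), (nat_lit 3363360008), (nat_lit 4464560000)], [(nat_lit 0), (nat_lit 0), (nat_lit 0)], [(nat_lit 25193898981), (nat_lit 26632198728), (nat_lit 28422466191), (nat_lit 29620784716), (nat_lit 27211488103), (nat_lit 28434875268), (nat_lit 29923486500), (nat_lit 31063380817)], (nat_lit 0), (nat_lit 0), (nat_lit 0), (nat_lit 0), (nat_lit 0), (nat_lit 0), [], [(nat_lit 3), (nat_lit 50), (nat_lit 289), (nat_lit 75), (nat_lit 9)]⟩,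
 ⟨⟨[(nat_lit 80), (nat_lit 140), (nat_lit 180)], [(nat_lit 0), (nat_lit 792), (nat_lit 4228)], [((nat_lit 0), (nat_lit 0), (nat_lit 0)), ((nat_lit 1000), (nat_lit 959), (nat_lit 206)), ((nat_lit 709), (nat_lit 1000), (nat_lit 949))], ((nat_lit 100), (nat_lit 82), (nat_lit 87))⟩, (nat_lit 4104329), (nat_lit 637), (nat_lit 637), (nat_lit 0), (nat_lit 712192), [(nat_lit 2812800000), (nat_lit 5905200000), (nat_lit 8434800000)], [], [(nat_lit 17274359250), (nat_lit 17594347680), (nat_lit 18732705237), (nat_lit 19143154326), (nat_lit 14459365188), (nat_lit 14738166480), (nat_lit 15545354163), (nat_lit 15909529158)], (nat_lit 1271251), (nat_lit 1271251), (nat_lit 1271251), (nat_lit 1271251), (nat_lit 0), (nat_lit 780000), [(nat_lit 1100000), (nat_lit 2127501), (nat_lit 1271251)], [(nat_lit 19), (nat_lit 63), (nat_lit 428), (nat_lit 200), (nat_lit 10)]⟩,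
 Rw.none⟩)) (.stt (nat_lit 2) (.leaf ⟨(nat_lit 0), (nat_lit 924), (nat_lit 0), (nat_lit 76), (nat_lit 0), (nat_lit 5823), (nat_lit 5935), (nat_lit 737), (nat_lit 0), (nat_lit 0), (nat_lit 0), [], Pd.none, Pd.none, (nat_lit 0), (nat_lit 1), (nat_lit 0), (nat_lit 0), (nat_lit 4), (nat_lit 0), [], [⟨(nat_lit 1), (nat_lit 100), (nat_lit 31), (nat_lit 97), (nat_lit 780400461)⟩], [⟨(nat_lit 1), (nat_lit 55), (nat_lit 99), (nat_lit 100), (nat_lit 248060890)⟩, ⟨(nat_lit 1), (nat_lit 40), (nat_lit 100), (nat_lit 100), (nat_lit 99396894)⟩], [],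
 ⟨⟨[(nat_lit 40), (nat_lit 80), (nat_lit 100)], [(nat_lit 0), (nat_lit 2514), (nat_lit 3562)], [((nat_lit 0), (nat_lit 0), (nat_lit 0)), ((nat_lit 1000), (nat_lit 446), (nat_lit 804)), ((nat_lit 1000), (nat_lit 443), (nat_lit 819))], ((nat_lit 44), (nat_lit 100), (nat_lit 84))⟩, (nat_lit 0), (nat_lit 78), (nat_lit 78), (nat_lit 0), (nat_lit 0), [(nat_lit 2429883089), (nat_lit 4688000005), (nat_lit 6250000000)], [], [(nat_lit 26003265586), (nat_lit 27656107845), (nat_lit 29617040095), (nat_lit 31214339852), (nat_lit 27985410410), (nat_lit 29418545622), (nat_lit 31134273314), (nat_lit 32480278049)], (nat_lit 0), (nat_lit 0), (nat_lit 0), (nat_lit 0), (nat_lit 0), (nat_lit 0), [], [(nat_lit 3), (nat_lit 50), (nat_lit 289), (nat_lit 75), (nat_lit 9)]⟩,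
 ⟨⟨[(nat_lit 80), (nat_lit 140), (nat_lit 180)], [(nat_lit 0), (nat_lit 0), (nat_lit 3656)], [((nat_lit 0), (nat_lit 0), (nat_lit 0)), ((nat_lit 0), (nat_lit 0), (nat_lit 0)), ((nat_lit 637), (nat_lit 1000), (nat_lit 908))], ((nat_lit 100), (nat_lit 73), (nat_lit 85))⟩, (nat_lit 0), (nat_lit 101), (nat_lit 101), (nat_lit 0), (nat_lit 0), [(nat_lit 4688000000), (nat_lit 9842000000), (nat_lit 14058000000)], [], [(nat_lit 14874295500), (nat_lit 17854582095), (nat_lit 20834868690), (nat_lit 23187340415), (nat_lit 28281252000), (nat_lit 29941217978), (nat_lit 31601605850), (nat_lit 32898473575)], (nat_lit 0), (nat_lit 0), (nat_lit 0), (nat_lit 0), (nat_lit 0), (nat_lit 0), [], [(nat_lit 19), (nat_lit 63), (nat_lit 483), (nat_lit 250), (nat_lit 11)]⟩,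
 ⟨⟨[(nat_lit 140), (nat_lit 180), (nat_lit 200)], [(nat_lit 0), (nat_lit 608), (nat_lit 3317)], [((nat_lit 0), (nat_lit 0), (nat_lit 0)), ((nat_lit 913), (nat_lit 1000), (nat_lit 217)), ((nat_lit 385), (nat_lit 1000), (nat_lit 814))], ((nat_lit 0), (nat_lit 0), (nat_lit 0))⟩, (nat_lit 175500), (nat_lit 300), (nat_lit 2018), (nat_lit 5342800), (nat_lit 3482628), [(nat_lit 747992000), (nat_lit 1068408000), (nat_lit 1246400000)], [], [(nat_lit 5575928416), (nat_lit 5524843268), (nat_lit 5375635025), (nat_lit 5324870368), (nat_lit 5020546256), (nat_lit 4970129992), (nat_lit 4820877178), (nat_lit 4771453433)], (nat_lit 936250), (nat_lit 1100000), (nat_lit 1100000), (nat_lit 1870626), (nat_lit 780000), (nat_lit 2990626), [(nat_lit 1977501), (nat_lit 1271251), (nat_lit 1271251)], [(nat_lit 32), (nat_lit 67), (nat_lit 605), (nat_lit 200), (nat_lit 13)]⟩⟩) (.spl (nat_lit 1) (nat_lit 260) (.leaf ⟨(nat_lit 855), (nat_lit 84), (nat_lit 0), (nat_lit 61), (nat_lit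 0), (nat_lit 3426), (nat_lit 1490), (nat_lit 646), (nat_lit 0), (nat_lit 0), (nat_lit 213750), [((nat_lit 400), [((nat_lit 29), (nat_lit 0), (nat_lit 855))])], ⟨(nat_lit 6), false, true, true, (nat_lit 267), (nat_lit 0), (nat_lit 2237), [(nat_lit 1602531), (nat_lit 1599967), (nat_lit 1624400), (nat_lit 1624062), (nat_lit 1716590), (nat_lit 1699995), (nat_lit 1739366), (nat_lit 1724997)]⟩, ⟨(nat_lit 4), false, false, true, (nat_lit 179), (nat_lit 0), (nat_lit 2237), [(nat_lit 1374660), (nat_lit 1374999), (nat_lit 1397434), (nat_lit 1399999), (nat_lit 1502940), (nat_lit 1487494), (nat_lit 1525715), (nat_lit 1512494)]⟩, (nat_lit 5122110), (nat_lit 38839610), (nat_lit 18442014), (nat_lit 9718376), (nat_lit 4), (nat_lit 0), [⟨(nat_lit 1), (nat_lit 87), (nat_lit 32), (nat_lit 100), (nat_lit 268042438)⟩], [⟨(nat_lit 1), (nat_lit 100), (nat_lit 31), (nat_lit 97), (nat_lit 290055015)⟩], [], [],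
 ⟨⟨[(nat_lit 40), (nat_lit 80), (nat_lit 100)], [(nat_lit 0), (nat_lit 2514), (nat_lit 3562)], [((nat_lit 0), (nat_lit 0), (nat_lit 0)), ((nat_lit 1000), (nat_lit 446), (nat_lit 804)), ((nat_lit 1000), (nat_lit 443), (nat_lit 819))], ((nat_lit 44), (nat_lit 100), (nat_lit 84))⟩, (nat_lit 0), (nat_lit 78), (nat_lit 78), (nat_lit 0), (nat_lit 0), [(nat_lit 1597246053), (nat_lit 1856582055), (nat_lit 2433622000)], [(nat_lit 0), (nat_lit 0), (nat_lit 0)], [(nat_lit 24358227324), (nat_lit 25532893044), (nat_lit 27195829986), (nat_lit 28192547556), (nat_lit 26355034589), (nat_lit 27368754140), (nat_lit 28793145320), (nat_lit 29793329738)], (nat_lit 0), (nat_lit 0), (nat_lit 0), (nat_lit 0), (nat_lit 0), (nat_lit 0), [], [(nat_lit 3), (nat_lit 50), (nat_lit 289), (nat_lit 75), (nat_lit 9)]⟩,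
 ⟨⟨[(nat_lit 80), (nat_lit 140), (nat_lit 180)], [(nat_lit 0), (nat_lit 0), (nat_lit 3656)], [((nat_lit 0), (nat_lit 0), (nat_lit 0)), ((nat_lit 0), (nat_lit 0), (nat_lit 0)), ((nat_lit 637), (nat_lit 1000), (nat_lit 908))], ((nat_lit 100), (nat_lit 73), (nat_lit 85))⟩, (nat_lit 248517), (nat_lit 637), (nat_lit 637), (nat_lit 0), (nat_lit 913052), [(nat_lit 679760000), (nat_lit 1427090000), (nat_lit 2038410000)], [], [(nat_lit 4881990278), (nat_lit 4926179173), (nat_lit 5058745858), (nat_lit 5084383028), (nat_lit 5099853853), (nat_lit 5154416614), (nat_lit 5318104896), (nat_lit 5350241915)], (nat_lit 1271251), (nat_lit 1271251), (nat_lit 1271251), (nat_lit 1271251), (nat_lit 780000), (nat_lit 2990626), [(nat_lit 1100000), (nat_lit 2127501), (nat_lit 1271251)], [(nat_lit 19), (nat_lit 63), (nat_lit 483), (nat_lit 250), (nat_lit 11)]⟩,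
 ⟨⟨[(nat_lit 140), (nat_lit 180), (nat_lit 200)], [(nat_lit 0), (nat_lit 608), (nat_lit 3317)], [((nat_lit 0), (nat_lit 0), (nat_lit 0)), ((nat_lit 913), (nat_lit 1000), (nat_lit 217)), ((nat_lit 385), (nat_lit 1000), (nat_lit 814))], ((nat_lit 0), (nat_lit 0), (nat_lit 0))⟩, (nat_lit 138242), (nat_lit 300), (nat_lit 1353), (nat_lit 4297150), (nat_lit 2116658), [(nat_lit 600362000), (nat_lit 857538000), (nat_lit 1000400000)], [], [(nat_lit 3788100069), (nat_lit 3736761654), (nat_lit 3617557069), (nat_lit 3566075804), (nat_lit 3386878727), (nat_lit 3333679534), (nat_lit 3800843233), (nat_lit 3959478426)], (nat_lit 936250), (nat_lit 1100000), (nat_lit 1100000), (nat_lit 1870626), (nat_lit 780000), (nat_lit 2990626), [(nat_lit 1977501), (nat_lit 1271251), (nat_lit 1271251)], [(nat_lit 32), (nat_lit 67), (nat_lit 439), (nat_lit 200), (nat_lit 9)]⟩⟩) (.trX (nat_lit 5) (nat_lit 1) (nat_lit 2) (nat_lit 97) (nat_lit 49) (nat_lit 100) (nat_lit 380) (.leaf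 ⟨(nat_lit 745), (nat_lit 182), (nat_lit 0), (nat_lit 73), (nat_lit 0), (nat_lit 3432), (nat_lit 2087), (nat_lit 773), (nat_lit 0), (nat_lit 0), (nat_lit 228400), [((nat_lit 400), [((nat_lit 29), (nat_lit 0), (nat_lit 464)), ((nat_lit 29), (nat_lit 1), (nat_lit 281))])], ⟨(nat_lit 6), false, true, true, (nat_lit 276), (nat_lit 0), (nat_lit 2237), [(nat_lit 1624400), (nat_lit 1624062), (nat_lit 1646249), (nat_lit 1648136), (nat_lit 1739366), (nat_lit 1724997), (nat_lit 1762141), (nat_lit 1749998)]⟩, ⟨(nat_lit 4), false, false, true, (nat_lit 179), (nat_lit 0), (nat_lit 2237), [(nat_lit 1374660), (nat_lit 1374999), (nat_lit 1397434), (nat_lit 1399999), (nat_lit 1502940), (nat_lit 1487494), (nat_lit 1525715), (nat_lit 1512494)]⟩, (nat_lit 5155427), (nat_lit 38133222), (nat_lit 19271002), (nat_lit 9595776), (nat_lit 4), (nat_lit 0), [⟨(nat_lit 1), (nat_lit 83), (nat_lit 33), (nat_lit 100), (nat_lit 94081974)⟩], [⟨(nat_lit 1), (nat_lit 100), (nat_lit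 31), (nat_lit 97), (nat_lit 521474319)⟩], [], [],
 ⟨⟨[(nat_lit 40), (nat_lit 80), (nat_lit 100)], [(nat_lit 0), (nat_lit 2514), (nat_lit 3562)], [((nat_lit 0), (nat_lit 0), (nat_lit 0)), ((nat_lit 1000), (nat_lit 446), (nat_lit 804)), ((nat_lit 1000), (nat_lit 443), (nat_lit 819))], ((nat_lit 44), (nat_lit 100), (nat_lit 84))⟩, (nat_lit 0), (nat_lit 78), (nat_lit 78), (nat_lit 0), (nat_lit 0), [(nat_lit 1576315604), (nat_lit 1889615205), (nat_lit 2449053600)], [(nat_lit 0), (nat_lit 0), (nat_lit 0)], [(nat_lit 24363375521), (nat_lit 25538981561), (nat_lit 27202269305), (nat_lit 28199948768), (nat_lit 26360023085), (nat_lit 27374484433), (nat_lit 28798958818), (nat_lit 29800055516)], (nat_lit 0), (nat_lit 0), (nat_lit 0), (nat_lit 0), (nat_lit 0), (nat_lit 0), [], [(nat_lit 3), (nat_lit 50), (nat_lit 289), (nat_lit 75), (nat_lit 9)]⟩,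
 ⟨⟨[(nat_lit 80), (nat_lit 140), (nat_lit 180)], [(nat_lit 0), (nat_lit 792), (nat_lit 4228)], [((nat_lit 0), (nat_lit 0), (nat_lit 0)), ((nat_lit 1000), (nat_lit 959), (nat_lit 206)), ((nat_lit 709), (nat_lit 1000), (nat_lit 949))], ((nat_lit 100), (nat_lit 82), (nat_lit 87))⟩, (nat_lit 804021), (nat_lit 613), (nat_lit 613), (nat_lit 0), (nat_lit 862024), [(nat_lit 1195440000), (nat_lit 2509710000), (nat_lit 3584790000)], [], [(nat_lit 8097317569), (nat_lit 8216393443), (nat_lit 8541045431), (nat_lit 8627545669), (nat_lit 8665601036), (nat_lit 8702706425), (nat_lit 8793875030), (nat_lit 8844947560)], (nat_lit 1271251), (nat_lit 1271251), (nat_lit 1271251), (nat_lit 1271251), (nat_lit 780000), (nat_lit 2908751), [(nat_lit 1100000), (nat_lit 2127501), (nat_lit 1271251)], [(nat_lit 19), (nat_lit 63), (nat_lit 483), (nat_lit 250), (nat_lit 11)]⟩,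
 ⟨⟨[(nat_lit 140), (nat_lit 180), (nat_lit 200)], [(nat_lit 0), (nat_lit 608), (nat_lit 3317)], [((nat_lit 0), (nat_lit 0), (nat_lit 0)), ((nat_lit 913), (nat_lit 1000), (nat_lit 217)), ((nat_lit 385), (nat_lit 1000), (nat_lit 814))], ((nat_lit 0), (nat_lit 0), (nat_lit 0))⟩, (nat_lit 168572), (nat_lit 300), (nat_lit 1464), (nat_lit 5131902), (nat_lit 2346673), [(nat_lit 718466000), (nat_lit 1026234000), (nat_lit 1197200000)], [], [(nat_lit 4523147642), (nat_lit 4461718112), (nat_lit 4319085180), (nat_lit 4257484669), (nat_lit 4048647583), (nat_lit 3985260271), (nat_lit 4455331544), (nat_lit 4643896462)], (nat_lit 936250), (nat_lit 1100000), (nat_lit 1100000), (nat_lit 1870626), (nat_lit 780000), (nat_lit 2908751), [(nat_lit 1977501), (nat_lit 1271251), (nat_lit 1271251)], [(nat_lit 32), (nat_lit 67), (nat_lit 465), (nat_lit 200), (nat_lit 10)]⟩⟩)))))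
noncomputable def c14_75 : Tr Lf :=
 (.spl (nat_lit 5) (nat_lit 200) (.leaf ⟨(nat_lit 567), (nat_lit 433), (nat_lit 0), (nat_lit 0), (nat_lit 0), (nat_lit 3639), (nat_lit 4651), (nat_lit 0), (nat_lit 0), (nat_lit 0), (nat_lit 340200), [((nat_lit 400), [((nat_lit 43), (nat_lit 2), (nat_lit 567))])], ⟨(nat_lit 6), false, true, true, (nat_lit 271), (nat_lit 0), (nat_lit 2237), [(nat_lit 1602531), (nat_lit 1599967), (nat_lit 1646249), (nat_lit 1648136), (nat_lit 1716590), (nat_lit 1699995), (nat_lit 1762141), (nat_lit 1749998)]⟩, ⟨(nat_lit 4), false, false, true, (nat_lit 174), (nat_lit 0), (nat_lit 2237), [(nat_lit 1351885), (nat_lit 1349998), (nat_lit 1397434), (nat_lit 1399999), (nat_lit 1480164), (nat_lit 1462492), (nat_lit 1525715), (nat_lit 1512494)]⟩, (nat_lit 5101170), (nat_lit 38748753), (nat_lit 18951069), (nat_lit 9300178), (nat_lit 4), (nat_lit 0), [⟨(nat_lit 1), (nat_lit 85), (nat_lit 33), (nat_lit 100), (nat_lit 748745)⟩], [⟨(nat_lit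 1), (nat_lit 100), (nat_lit 31), (nat_lit 95), (nat_lit 623978341)⟩], [], [⟨(nat_lit 0), (nat_lit 100), (nat_lit 92), (nat_lit 42), (nat_lit 33893562)⟩],
 ⟨⟨[(nat_lit 40), (nat_lit 80), (nat_lit 100)], [(nat_lit 0), (nat_lit 2514), (nat_lit 3562)], [((nat_lit 0), (nat_lit 0), (nat_lit 0)), ((nat_lit 1000), (nat_lit 446), (nat_lit 804)), ((nat_lit 1000), (nat_lit 443), (nat_lit 819))], ((nat_lit 44), (nat_lit 100), (nat_lit 84))⟩, (nat_lit 19561), (nat_lit 226), (nat_lit 226), (nat_lit 0), (nat_lit 435246), [(nat_lit 1567798079), (nat_lit 1251980792), (nat_lit 1480622800)], [(nat_lit 0), (nat_lit 0), (nat_lit 0)], [(nat_lit 25080936888), (nat_lit 26029086067), (nat_lit 27476810505), (nat_lit 28460918636), (nat_lit 26745929962), (nat_lit 27617976216), (nat_lit 28959119606), (nat_lit 30032094857)], (nat_lit 1271251), (nat_lit 1271251), (nat_lit 1271251), (nat_lit 1271251), (nat_lit 1100000), (nat_lit 1870626), [(nat_lit 490000), (nat_lit 1100000),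 (nat_lit 1442501)], [(nat_lit 3), (nat_lit 50), (nat_lit 289), (nat_lit 75), (nat_lit 9)]⟩,
 ⟨⟨[(nat_lit 80), (nat_lit 140), (nat_lit 180)], [(nat_lit 0), (nat_lit 0), (nat_lit 3656)], [((nat_lit 0), (nat_lit 0), (nat_lit 0)), ((nat_lit 0), (nat_lit 0), (nat_lit 0)), ((nat_lit 637), (nat_lit 1000), (nat_lit 908))], ((nat_lit 100), (nat_lit 73), (nat_lit 85))⟩, (nat_lit 822526), (nat_lit 564), (nat_lit 564), (nat_lit 0), (nat_lit 513528), [(nat_lit 2029904000), (nat_lit 4261586000), (nat_lit 6087114000)], [], [(nat_lit 16970878136), (nat_lit 17285711714), (nat_lit 17665386120), (nat_lit 18341767508), (nat_lit 13114415064), (nat_lit 13442747471), (nat_lit 13771079878), (nat_lit 13975648333)], (nat_lit 1271251), (nat_lit 1271251), (nat_lit 1271251), (nat_lit 1271251), (nat_lit 0), (nat_lit 1412501), [(nat_lit 1100000), (nat_lit 2127501), (nat_lit 1271251)], [(nat_lit 19), (nat_lit 63), (nat_lit 428), (nat_lit 200), (nat_lit 10)]⟩,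
 Rw.none⟩) (.leaf ⟨(nat_lit 622), (nat_lit 311), (nat_lit 0), (nat_lit 67), (nat_lit 0), (nat_lit 3598), (nat_lit 3728), (nat_lit 776), (nat_lit 0), (nat_lit 0), (nat_lit 336800), [((nat_lit 400), [((nat_lit 29), (nat_lit 1), (nat_lit 182)), ((nat_lit 43), (nat_lit 2), (nat_lit 440))])], ⟨(nat_lit 6), false, true, true, (nat_lit 271), (nat_lit 0), (nat_lit 2237), [(nat_lit 1602531), (nat_lit 1599967), (nat_lit 1646249), (nat_lit 1648136), (nat_lit 1716590), (nat_lit 1699995), (nat_lit 1762141), (nat_lit 1749998)]⟩, ⟨(nat_lit 4), false, false, true, (nat_lit 174), (nat_lit 0), (nat_lit 2237), [(nat_lit 1351885), (nat_lit 1349998), (nat_lit 1397434), (nat_lit 1399999), (nat_lit 1480164), (nat_lit 1462492), (nat_lit 1525715), (nat_lit 1512494)]⟩, (nat_lit 5101170), (nat_lit 38748753), (nat_lit 18951069), (nat_lit 9300178), (nat_lit 5), (nat_lit 0), [⟨(nat_lit 1), (nat_lit 85), (nat_lit 33), (nat_lit 100), (nat_lit 1529645)⟩], [⟨(nat_lit 1), (nat_lit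 100), (nat_lit 31), (nat_lit 95), (nat_lit 448809146)⟩], [⟨(nat_lit 1), (nat_lit 60), (nat_lit 100), (nat_lit 100), (nat_lit 77294204)⟩], [],
 ⟨⟨[(nat_lit 40), (nat_lit 80), (nat_lit 100)], [(nat_lit 0), (nat_lit 2514), (nat_lit 3562)], [((nat_lit 0), (nat_lit 0), (nat_lit 0)), ((nat_lit 1000), (nat_lit 446), (nat_lit 804)), ((nat_lit 1000), (nat_lit 443), (nat_lit 819))], ((nat_lit 44), (nat_lit 100), (nat_lit 84))⟩, (nat_lit 0), (nat_lit 226), (nat_lit 226), (nat_lit 0), (nat_lit 435246), [(nat_lit 1546341602), (nat_lit 1204347202), (nat_lit 1428504000)], [(nat_lit 0), (nat_lit 0), (nat_lit 0)], [(nat_lit 25172807074), (nat_lit 26081620142), (nat_lit 27527732306), (nat_lit 28409228952), (nat_lit 26805213969), (nat_lit 27673417467), (nat_lit 28918285676), (nat_lit 29986135374)], (nat_lit 1271251), (nat_lit 1271251), (nat_lit 1271251), (nat_lit 1271251), (nat_lit 1100000), (nat_lit 1870626), [(nat_lit 490000), (nat_lit 1100000), (nat_lit 1442501)],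 [(nat_lit 3), (nat_lit 50), (nat_lit 289), (nat_lit 75), (nat_lit 9)]⟩,
 ⟨⟨[(nat_lit 80), (nat_lit 140), (nat_lit 180)], [(nat_lit 0), (nat_lit 0), (nat_lit 3656)], [((nat_lit 0), (nat_lit 0), (nat_lit 0)), ((nat_lit 0), (nat_lit 0), (nat_lit 0)), ((nat_lit 637), (nat_lit 1000), (nat_lit 908))], ((nat_lit 100), (nat_lit 73), (nat_lit 85))⟩, (nat_lit 680280), (nat_lit 400), (nat_lit 400), (nat_lit 0), (nat_lit 513528), [(nat_lit 1772064000), (nat_lit 3720276000), (nat_lit 5313924000)], [], [(nat_lit 11567750708), (nat_lit 11949118572), (nat_lit 12330486436), (nat_lit 12590450176), (nat_lit 13353598338), (nat_lit 13575373587), (nat_lit 13797261389), (nat_lit 14060180540)], (nat_lit 1271251), (nat_lit 1271251), (nat_lit 1271251), (nat_lit 1271251), (nat_lit 1271251), (nat_lit 1271251), [(nat_lit 1100000), (nat_lit 2127501), (nat_lit 1271251)], [(nat_lit 19), (nat_lit 63), (nat_lit 483), (nat_lit 250), (nat_lit 10)]⟩,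
 ⟨⟨[(nat_lit 140), (nat_lit 180), (nat_lit 200)], [(nat_lit 0), (nat_lit 0), (nat_lit 2835)], [((nat_lit 0), (nat_lit 0), (nat_lit 0)), ((nat_lit 0), (nat_lit 0), (nat_lit 0)), ((nat_lit 363), (nat_lit 1000), (nat_lit 798))], ((nat_lit 0), (nat_lit 0), (nat_lit 0))⟩, (nat_lit 18434), (nat_lit 300), (nat_lit 1652), (nat_lit 5232700), (nat_lit 2806307), [(nat_lit 659414000), (nat_lit 941886000), (nat_lit 1098800000)], [], [(nat_lit 4147645296), (nat_lit 4022282742), (nat_lit 3934821676), (nat_lit 3809256506), (nat_lit 3897046967), (nat_lit 3766350321), (nat_lit 3693888776), (nat_lit 3563299183)], (nat_lit 780000), (nat_lit 1100000), (nat_lit 1100000), (nat_lit 1870626), (nat_lit 1271251), (nat_lit 1271251), [(nat_lit 1977501), (nat_lit 1271251), (nat_lit 1271251)], [(nat_lit 32), (nat_lit 67), (nat_lit 513), (nat_lit 200), (nat_lit 11)]⟩⟩))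
noncomputable def c14_76 : Tr Lf :=
 (.spl (nat_lit 5) (nat_lit 200) (.leaf ⟨(nat_lit 0), (nat_lit 1000), (nat_lit 0), (nat_lit 0), (nat_lit 4014), (nat_lit 4558), (nat_lit 7027), (nat_lit 0), (nat_lit 0), (nat_lit 0), (nat_lit 0), [], Pd.none, Pd.none, (nat_lit 0), (nat_lit 1), (nat_lit 0), (nat_lit 0), (nat_lit 4), (nat_lit 0), [⟨(nat_lit 1), (nat_lit 71), (nat_lit 48), (nat_lit 100), (nat_lit 188814744)⟩], [⟨(nat_lit 1), (nat_lit 99), (nat_lit 44), (nat_lit 100), (nat_lit 597104789)⟩], [], [],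
 ⟨⟨[(nat_lit 40), (nat_lit 80), (nat_lit 100)], [(nat_lit 0), (nat_lit 2514), (nat_lit 3562)], [((nat_lit 0), (nat_lit 0), (nat_lit 0)), ((nat_lit 1000), (nat_lit 446), (nat_lit 804)), ((nat_lit 1000), (nat_lit 443), (nat_lit 819))], ((nat_lit 44), (nat_lit 100), (nat_lit 84))⟩, (nat_lit 815377), (nat_lit 234), (nat_lit 234), (nat_lit 0), (nat_lit 435246), [(nat_lit 2032000072), (nat_lit 4688000136), (nat_lit 6250000000)], [], [(nat_lit 29119157094), (nat_lit 29987586030), (nat_lit 30776942626), (nat_lit 31813539520), (nat_lit 30235023404), (nat_lit 31198151478), (nat_lit 31881159499), (nat_lit 32945795307)], (nat_lit 1271251), (nat_lit 1271251), (nat_lit 1271251), (nat_lit 1271251), (nat_lit 1100000), (nat_lit 1870626), [(nat_lit 490000), (nat_lit 1100000), (nat_lit 1442501)], [(nat_lit 3), (nat_lit 50), (nat_lit 289), (nat_lit 75), (nat_lit 9)]⟩,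
 ⟨⟨[(nat_lit 80), (nat_lit 140), (nat_lit 180)], [(nat_lit 0), (nat_lit 0), (nat_lit 3656)], [((nat_lit 0), (nat_lit 0), (nat_lit 0)), ((nat_lit 0), (nat_lit 0), (nat_lit 0)), ((nat_lit 637), (nat_lit 1000), (nat_lit 908))], ((nat_lit 100), (nat_lit 73), (nat_lit 85))⟩, (nat_lit 2172444), (nat_lit 271), (nat_lit 271), (nat_lit 0), (nat_lit 0), [(nat_lit 4688000000), (nat_lit 9842000000), (nat_lit 14058000000)], [], [(nat_lit 35807403982), (nat_lit 37363104774), (nat_lit 38495700427), (nat_lit 39804240054), (nat_lit 30631628454), (nat_lit 31852954790), (nat_lit 32783123550), (nat_lit 34131980965)], (nat_lit 0), (nat_lit 0), (nat_lit 0), (nat_lit 0), (nat_lit 0), (nat_lit 0), [], [(nat_lit 19), (nat_lit 63), (nat_lit 456), (nat_lit 225), (nat_lit 10)]⟩,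
 Rw.none⟩) (.leaf ⟨(nat_lit 0), (nat_lit 1000), (nat_lit 0), (nat_lit 0), (nat_lit 3221), (nat_lit 4391), (nat_lit 5547), (nat_lit 0), (nat_lit 0), (nat_lit 0), (nat_lit 0), [], Pd.none, Pd.none, (nat_lit 0), (nat_lit 1), (nat_lit 0), (nat_lit 0), (nat_lit 5), (nat_lit 0), [⟨(nat_lit 1), (nat_lit 85), (nat_lit 33), (nat_lit 100), (nat_lit 130996085)⟩, ⟨(nat_lit 1), (nat_lit 71), (nat_lit 48), (nat_lit 100), (nat_lit 106650053)⟩], [⟨(nat_lit 1), (nat_lit 99), (nat_lit 44), (nat_lit 100), (nat_lit 572245345)⟩], [⟨(nat_lit 1), (nat_lit 40), (nat_lit 100), (nat_lit 100), (nat_lit 437893597)⟩], [],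
 ⟨⟨[(nat_lit 40), (nat_lit 80), (nat_lit 100)], [(nat_lit 0), (nat_lit 2514), (nat_lit 3562)], [((nat_lit 0), (nat_lit 0), (nat_lit 0)), ((nat_lit 1000), (nat_lit 446), (nat_lit 804)), ((nat_lit 1000), (nat_lit 443), (nat_lit 819))], ((nat_lit 44), (nat_lit 100), (nat_lit 84))⟩, (nat_lit 981691), (nat_lit 234), (nat_lit 234), (nat_lit 0), (nat_lit 435246), [(nat_lit 2032000055), (nat_lit 4688000446), (nat_lit 6250000000)], [], [(nat_lit 28561482897), (nat_lit 29419693166), (nat_lit 30342873817), (nat_lit 31566807040), (nat_lit 29708073630), (nat_lit 30875059033), (nat_lit 31683379014), (nat_lit 32730809277)], (nat_lit 1271251), (nat_lit 1271251), (nat_lit 1271251), (nat_lit 1271251), (nat_lit 1100000), (nat_lit 1870626), [(nat_lit 490000), (nat_lit 1100000), (nat_lit 1442501)], [(nat_lit 3), (nat_lit 50), (nat_lit 289), (nat_lit 75), (nat_lit 9)]⟩,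
 ⟨⟨[(nat_lit 80), (nat_lit 140), (nat_lit 180)], [(nat_lit 0), (nat_lit 0), (nat_lit 3656)], [((nat_lit 0), (nat_lit 0), (nat_lit 0)), ((nat_lit 0), (nat_lit 0), (nat_lit 0)), ((nat_lit 637), (nat_lit 1000), (nat_lit 908))], ((nat_lit 100), (nat_lit 73), (nat_lit 85))⟩, (nat_lit 0), (nat_lit 111), (nat_lit 111), (nat_lit 0), (nat_lit 0), [(nat_lit 4688000000), (nat_lit 9842000000), (nat_lit 14058000000)], [], [(nat_lit 22440458474), (nat_lit 24426738736), (nat_lit 25431644313), (nat_lit 27159353417), (nat_lit 31248717328), (nat_lit 32473887115), (nat_lit 33362008943), (nat_lit 34454334470)], (nat_lit 0), (nat_lit 0), (nat_lit 0), (nat_lit 0), (nat_lit 0), (nat_lit 0), [], [(nat_lit 19), (nat_lit 63), (nat_lit 538), (nat_lit 300), (nat_lit 11)]⟩,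
 Rw.none⟩))
noncomputable def c14_77 : Tr Lf :=
 (.spl (nat_lit 5) (nat_lit 120) (.spl (nat_lit 1) (nat_lit 260) (.trX (nat_lit 3) (nat_lit 0) (nat_lit 1) (nat_lit 46) (nat_lit 76) (nat_lit 100) (nat_lit 340) (.spl (nat_lit 0) (nat_lit 390) (.leaf ⟨(nat_lit 769), (nat_lit 211), (nat_lit 0), (nat_lit 20), (nat_lit 0), (nat_lit 3510), (nat_lit 2424), (nat_lit 319), (nat_lit 0), (nat_lit 0), (nat_lit 302200), [((nat_lit 390), [((nat_lit 29), (nat_lit 0), (nat_lit 36)), ((nat_lit 29), (nat_lit 1), (nat_lit 733))])], ⟨(nat_lit 8), false, true, true, (nat_lit 296), (nat_lit 1581), (nat_lit 2237), [(nat_lit 1716594), (nat_lit 1710536), (nat_lit 1739368), (nat_lit 1733851), (nat_lit 1745101), (nat_lit 1737854), (nat_lit 1767876), (nat_lit 1761169)]⟩, ⟨(nat_lit 4), false, false, true, (nat_lit 175), (nat_lit 1581), (nat_lit 2237), [(nat_lit 1351886), (nat_lit 1352103), (nat_lit 1397434), (nat_lit 1398733), (nat_lit 1480171), (nat_lit 1475033), (nat_lit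 1525719), (nat_lit 1521663)]⟩, (nat_lit 5181930), (nat_lit 36854886), (nat_lit 21076345), (nat_lit 9068769), (nat_lit 4), (nat_lit 0), [⟨(nat_lit 1), (nat_lit 83), (nat_lit 39), (nat_lit 100), (nat_lit 433254810)⟩], [⟨(nat_lit 1), (nat_lit 100), (nat_lit 38), (nat_lit 96), (nat_lit 245741685)⟩], [], [⟨(nat_lit 0), (nat_lit 100), (nat_lit 76), (nat_lit 67), (nat_lit 60665698)⟩],
 ⟨⟨[(nat_lit 40), (nat_lit 80), (nat_lit 100)], [(nat_lit 0), (nat_lit 2514), (nat_lit 3562)], [((nat_lit 0), (nat_lit 0), (nat_lit 0)), ((nat_lit 1000), (nat_lit 446), (nat_lit 804)), ((nat_lit 1000), (nat_lit 443), (nat_lit 819))], ((nat_lit 44), (nat_lit 100), (nat_lit 84))⟩, (nat_lit 1073), (nat_lit 151), (nat_lit 151), (nat_lit 0), (nat_lit 212272), [(nat_lit 1495467628), (nat_lit 1281018719), (nat_lit 1576962400)], [(nat_lit 0), (nat_lit 0), (nat_lit 0)], [(nat_lit 27418940430), (nat_lit 27868138650), (nat_lit 28231337829), (nat_lit 28709227327), (nat_lit 28873432206),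 (nat_lit 29359066375), (nat_lit 29735793292), (nat_lit 30238934658)], (nat_lit 1271251), (nat_lit 1271251), (nat_lit 1271251), (nat_lit 1271251), (nat_lit 1100000), (nat_lit 1870626), [(nat_lit 490000), (nat_lit 1100000), (nat_lit 1442501)], [(nat_lit 3), (nat_lit 50), (nat_lit 289), (nat_lit 75), (nat_lit 9)]⟩,
 ⟨⟨[(nat_lit 80), (nat_lit 140), (nat_lit 180)], [(nat_lit 0), (nat_lit 0), (nat_lit 3656)], [((nat_lit 0), (nat_lit 0), (nat_lit 0)), ((nat_lit 0), (nat_lit 0), (nat_lit 0)), ((nat_lit 637), (nat_lit 1000), (nat_lit 908))], ((nat_lit 100), (nat_lit 73), (nat_lit 85))⟩, (nat_lit 416202), (nat_lit 612), (nat_lit 612), (nat_lit 0), (nat_lit 692229), [(nat_lit 1082928000), (nat_lit 2273502000), (nat_lit 3247398000)], [], [(nat_lit 9405465732), (nat_lit 9455957256), (nat_lit 9594517060), (nat_lit 9751843672), (nat_lit 7882982592), (nat_lit 7957617269), (nat_lit 8064366854), (nat_lit 8129238772)], (nat_lit 1271251), (nat_lit 1271251), (nat_lit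 1271251), (nat_lit 1271251), (nat_lit 54688), (nat_lit 780000), [(nat_lit 1100000), (nat_lit 2127501), (nat_lit 1271251)], [(nat_lit 19), (nat_lit 63), (nat_lit 428), (nat_lit 200), (nat_lit 9)]⟩,
 ⟨⟨[(nat_lit 140), (nat_lit 180), (nat_lit 200)], [(nat_lit 0), (nat_lit 0), (nat_lit 2835)], [((nat_lit 0), (nat_lit 0), (nat_lit 0)), ((nat_lit 0), (nat_lit 0), (nat_lit 0)), ((nat_lit 363), (nat_lit 1000), (nat_lit 798))], ((nat_lit 0), (nat_lit 0), (nat_lit 0))⟩, (nat_lit 5503), (nat_lit 300), (nat_lit 1679), (nat_lit 1562000), (nat_lit 2629039), [(nat_lit 196840000), (nat_lit 281160000), (nat_lit 328000000)], [], [(nat_lit 1325698327), (nat_lit 1270573485), (nat_lit 1282302866), (nat_lit 1231851603), (nat_lit 1077905316), (nat_lit 1025738866), (nat_lit 1226670805), (nat_lit 1360896685)], (nat_lit 780000), (nat_lit 1100000), (nat_lit 1100000), (nat_lit 1870626), (nat_lit 54688), (nat_lit 780000), [(nat_lit 1977501), (nat_lit 1271251), (nat_lit 1271251)],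 [(nat_lit 32), (nat_lit 67), (nat_lit 486), (nat_lit 150), (nat_lit 10)]⟩⟩) (.emL (nat_lit 3) (nat_lit 0) (nat_lit 1) (nat_lit 33) (nat_lit 85) (nat_lit 100)))) (.leaf ⟨(nat_lit 22), (nat_lit 978), (nat_lit 0), (nat_lit 0), (nat_lit 0), (nat_lit 3992), (nat_lit 7455), (nat_lit 0), (nat_lit 0), (nat_lit 0), (nat_lit 88000), [((nat_lit 400), [((nat_lit 43), (nat_lit 5), (nat_lit 22))])], ⟨(nat_lit 8), false, true, true, (nat_lit 308), (nat_lit 0), (nat_lit 2237), [(nat_lit 1739366), (nat_lit 1724997), (nat_lit 1762141), (nat_lit 1749998), (nat_lit 1796379), (nat_lit 1774994), (nat_lit 1819154), (nat_lit 1799995)]⟩, ⟨(nat_lit 4), false, false, true, (nat_lit 174), (nat_lit 0), (nat_lit 2237), [(nat_lit 1351885), (nat_lit 1349998), (nat_lit 1397434), (nat_lit 1399999), (nat_lit 1480164), (nat_lit 1462492), (nat_lit 1525715), (nat_lit 1512494)]⟩, (nat_lit 5198726), (nat_lit 35969393), (nat_lit 22210894), (nat_lit 8819713), (nat_lit 4), (nat_lit 0),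 [⟨(nat_lit 1), (nat_lit 83), (nat_lit 33), (nat_lit 100), (nat_lit 952632821)⟩], [⟨(nat_lit 1), (nat_lit 100), (nat_lit 31), (nat_lit 95), (nat_lit 826568805)⟩], [], [⟨(nat_lit 0), (nat_lit 100), (nat_lit 71), (nat_lit 72), (nat_lit 87340877)⟩],
 ⟨⟨[(nat_lit 40), (nat_lit 80), (nat_lit 100)], [(nat_lit 0), (nat_lit 2514), (nat_lit 3562)], [((nat_lit 0), (nat_lit 0), (nat_lit 0)), ((nat_lit 1000), (nat_lit 446), (nat_lit 804)), ((nat_lit 1000), (nat_lit 443), (nat_lit 819))], ((nat_lit 44), (nat_lit 100), (nat_lit 84))⟩, (nat_lit 872731), (nat_lit 175), (nat_lit 175), (nat_lit 0), (nat_lit 273229), [(nat_lit 1823484008), (nat_lit 3969858438), (nat_lit 5224571200)], [(nat_lit 0), (nat_lit 0), (nat_lit 0)], [(nat_lit 27784195338), (nat_lit 28905954208), (nat_lit 29806804748), (nat_lit 30977308480), (nat_lit 29310689779), (nat_lit 30427794796), (nat_lit 31211266204), (nat_lit 32217160018)], (nat_lit 1271251), (nat_lit 1271251), (nat_lit 1271251), (nat_lit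 1271251), (nat_lit 1100000), (nat_lit 1870626), [(nat_lit 490000), (nat_lit 1100000), (nat_lit 1442501)], [(nat_lit 3), (nat_lit 50), (nat_lit 289), (nat_lit 75), (nat_lit 9)]⟩,
 ⟨⟨[(nat_lit 80), (nat_lit 140), (nat_lit 180)], [(nat_lit 0), (nat_lit 792), (nat_lit 4228)], [((nat_lit 0), (nat_lit 0), (nat_lit 0)), ((nat_lit 1000), (nat_lit 959), (nat_lit 206)), ((nat_lit 709), (nat_lit 1000), (nat_lit 949))], ((nat_lit 100), (nat_lit 82), (nat_lit 87))⟩, (nat_lit 6140181), (nat_lit 659), (nat_lit 659), (nat_lit 0), (nat_lit 827055), [(nat_lit 4584864000), (nat_lit 9625476000), (nat_lit 13748724000)], [], [(nat_lit 31254822810), (nat_lit 31638736712), (nat_lit 33171456199), (nat_lit 33917159971), (nat_lit 27050070933), (nat_lit 27385659714), (nat_lit 28460540739), (nat_lit 28957464077)], (nat_lit 1271251), (nat_lit 1271251), (nat_lit 1271251), (nat_lit 1271251), (nat_lit 54688), (nat_lit 780000), [(nat_lit 1100000), (nat_lit 2127501), (nat_lit 1271251)],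 [(nat_lit 19), (nat_lit 63), (nat_lit 428), (nat_lit 200), (nat_lit 9)]⟩,
 Rw.none⟩)) (.stt (nat_lit 3) (.leaf ⟨(nat_lit 0), (nat_lit 0), (nat_lit 0), (nat_lit 1000), (nat_lit 0), (nat_lit 4021), (nat_lit 10456), (nat_lit 28005), (nat_lit 0), (nat_lit 0), (nat_lit 0), [], Pd.none, Pd.none, (nat_lit 0), (nat_lit 1), (nat_lit 0), (nat_lit 0), (nat_lit 0), (nat_lit 0), [⟨(nat_lit 1), (nat_lit 85), (nat_lit 33), (nat_lit 100), (nat_lit 3584235730)⟩], [], [], [],
 ⟨⟨[(nat_lit 40), (nat_lit 80), (nat_lit 100)], [(nat_lit 0), (nat_lit 2514), (nat_lit 3562)], [((nat_lit 0), (nat_lit 0), (nat_lit 0)), ((nat_lit 1000), (nat_lit 446), (nat_lit 804)), ((nat_lit 1000), (nat_lit 443), (nat_lit 819))], ((nat_lit 44), (nat_lit 100), (nat_lit 84))⟩, (nat_lit 1204896), (nat_lit 175), (nat_lit 175), (nat_lit 0), (nat_lit 273360), [(nat_lit 2032000083), (nat_lit 4837139396), (nat_lit 6250000000)], [], [(nat_lit 27993240694), (nat_lit 28942515204), (nat_lit 29845767162),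 (nat_lit 31020154240), (nat_lit 29502766386), (nat_lit 30460302723), (nat_lit 31245580168), (nat_lit 32254492922)], (nat_lit 1271251), (nat_lit 1271251), (nat_lit 1271251), (nat_lit 1271251), (nat_lit 1100000), (nat_lit 1870626), [(nat_lit 490000), (nat_lit 1100000), (nat_lit 1442501)], [(nat_lit 3), (nat_lit 50), (nat_lit 289), (nat_lit 75), (nat_lit 9)]⟩,
 ⟨⟨[(nat_lit 80), (nat_lit 140), (nat_lit 180)], [(nat_lit 0), (nat_lit 0), (nat_lit 3656)], [((nat_lit 0), (nat_lit 0), (nat_lit 0)), ((nat_lit 0), (nat_lit 0), (nat_lit 0)), ((nat_lit 637), (nat_lit 1000), (nat_lit 908))], ((nat_lit 100), (nat_lit 73), (nat_lit 85))⟩, (nat_lit 1396982), (nat_lit 679), (nat_lit 679), (nat_lit 0), (nat_lit 1057326), [(nat_lit 4688000000), (nat_lit 9842000000), (nat_lit 14058000000)], [], [(nat_lit 35915799440), (nat_lit 35893757688), (nat_lit 36740608120), (nat_lit 37346748980), (nat_lit 37775281928), (nat_lit 38211919104), (nat_lit 39399824902), (nat_lit 40597056986)],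 (nat_lit 1271251), (nat_lit 1271251), (nat_lit 1271251), (nat_lit 1271251), (nat_lit 780000), (nat_lit 2990626), [(nat_lit 1100000), (nat_lit 2127501), (nat_lit 1271251)], [(nat_lit 19), (nat_lit 63), (nat_lit 538), (nat_lit 300), (nat_lit 12)]⟩,
 ⟨⟨[(nat_lit 140), (nat_lit 180), (nat_lit 200)], [(nat_lit 0), (nat_lit 0), (nat_lit 2835)], [((nat_lit 0), (nat_lit 0), (nat_lit 0)), ((nat_lit 0), (nat_lit 0), (nat_lit 0)), ((nat_lit 363), (nat_lit 1000), (nat_lit 798))], ((nat_lit 0), (nat_lit 0), (nat_lit 0))⟩, (nat_lit 6316159), (nat_lit 258), (nat_lit 258), (nat_lit 0), (nat_lit 0), [(nat_lit 9842000000), (nat_lit 14058000000), (nat_lit 16400000000)], [], [(nat_lit 21777116740), (nat_lit 20211189210), (nat_lit 27684356269), (nat_lit 25352738114), (nat_lit 47518412428), (nat_lit 44600314535), (nat_lit 51406681359), (nat_lit 47931102266)], (nat_lit 0), (nat_lit 0), (nat_lit 0), (nat_lit 0), (nat_lit 0), (nat_lit 0), [], [(nat_lit 32), (nat_lit 67),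 (nat_lit 428), (nat_lit 200), (nat_lit 9)]⟩⟩) (.spl (nat_lit 2) (nat_lit 140) (.trX (nat_lit 4) (nat_lit 0) (nat_lit 2) (nat_lit 44) (nat_lit 100) (nat_lit 96) (nat_lit 230) (.trX (nat_lit 5) (nat_lit 1) (nat_lit 2) (nat_lit 100) (nat_lit 49) (nat_lit 97) (nat_lit 380) (.spl (nat_lit 1) (nat_lit 260) (.trX (nat_lit 3) (nat_lit 0) (nat_lit 1) (nat_lit 46) (nat_lit 76) (nat_lit 100) (nat_lit 340) (.leaf ⟨(nat_lit 786), (nat_lit 166), (nat_lit 0), (nat_lit 48), (nat_lit 0), (nat_lit 3361), (nat_lit 2120), (nat_lit 537), (nat_lit 0), (nat_lit 0), (nat_lit 328800), [((nat_lit 400), [((nat_lit 29), (nat_lit 1), (nat_lit 714)), ((nat_lit 43), (nat_lit 2), (nat_lit 72))])], ⟨(nat_lit 8), false, true, true, (nat_lit 293), (nat_lit 0), (nat_lit 2237), [(nat_lit 1716590), (nat_lit 1699995), (nat_lit 1739366), (nat_lit 1724997), (nat_lit 1745097), (nat_lit 1724995), (nat_lit 1767872), (nat_lit 1749995)]⟩, ⟨(nat_lit 4), false, false, true, (nat_lit 164), (nat_lit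 0), (nat_lit 2237), [(nat_lit 1351885), (nat_lit 1349998), (nat_lit 1374660), (nat_lit 1374999), (nat_lit 1451658), (nat_lit 1437494), (nat_lit 1474433), (nat_lit 1462494)]⟩, (nat_lit 5084794), (nat_lit 37577635), (nat_lit 21130991), (nat_lit 8291374), (nat_lit 4), (nat_lit 0), [⟨(nat_lit 1), (nat_lit 87), (nat_lit 32), (nat_lit 100), (nat_lit 333513312)⟩, ⟨(nat_lit 1), (nat_lit 76), (nat_lit 46), (nat_lit 100), (nat_lit 180787247)⟩], [⟨(nat_lit 1), (nat_lit 100), (nat_lit 31), (nat_lit 94), (nat_lit 347909687)⟩], [⟨(nat_lit 1), (nat_lit 59), (nat_lit 100), (nat_lit 97), (nat_lit 5379659)⟩], [],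
 ⟨⟨[(nat_lit 40), (nat_lit 80), (nat_lit 100)], [(nat_lit 0), (nat_lit 2514), (nat_lit 3562)], [((nat_lit 0), (nat_lit 0), (nat_lit 0)), ((nat_lit 1000), (nat_lit 446), (nat_lit 804)), ((nat_lit 1000), (nat_lit 443), (nat_lit 819))], ((nat_lit 44), (nat_lit 100), (nat_lit 84))⟩, (nat_lit 0), (nat_lit 146), (nat_lit 146), (nat_lit 0), (nat_lit 184378), [(nat_lit 1482311215), (nat_lit 1249468893), (nat_lit 1248980800)], [(nat_lit 0), (nat_lit 0), (nat_lit 0)], [(nat_lit 27098660586), (nat_lit 28110437364), (nat_lit 27933287451), (nat_lit 29077740602), (nat_lit 28194635385), (nat_lit 29271190937), (nat_lit 29117293105), (nat_lit 30142549380)], (nat_lit 1271251), (nat_lit 1271251), (nat_lit 1271251), (nat_lit 1271251), (nat_lit 1100000), (nat_lit 1699376), [(nat_lit 490000), (nat_lit 1100000), (nat_lit 1442501)], [(nat_lit 3), (nat_lit 50), (nat_lit 272), (nat_lit 60), (nat_lit 8)]⟩,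
 ⟨⟨[(nat_lit 80), (nat_lit 140), (nat_lit 180)], [(nat_lit 0), (nat_lit 0), (nat_lit 3656)], [((nat_lit 0), (nat_lit 0), (nat_lit 0)), ((nat_lit 0), (nat_lit 0), (nat_lit 0)), ((nat_lit 637), (nat_lit 1000), (nat_lit 908))], ((nat_lit 100), (nat_lit 73), (nat_lit 85))⟩, (nat_lit 380698), (nat_lit 609), (nat_lit 609), (nat_lit 0), (nat_lit 879890), [(nat_lit 1003232000), (nat_lit 2106188000), (nat_lit 3008412000)], [], [(nat_lit 7657575424), (nat_lit 7727594517), (nat_lit 7821437655), (nat_lit 7882849680), (nat_lit 7773590606), (nat_lit 7776778889), (nat_lit 7885483772), (nat_lit 7931223991)], (nat_lit 1271251), (nat_lit 1271251), (nat_lit 1271251), (nat_lit 1271251), (nat_lit 780000), (nat_lit 2908751), [(nat_lit 1100000), (nat_lit 2127501), (nat_lit 1271251)], [(nat_lit 19), (nat_lit 63), (nat_lit 483), (nat_lit 250), (nat_lit 10)]⟩,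
 ⟨⟨[(nat_lit 140), (nat_lit 180), (nat_lit 200)], [(nat_lit 0), (nat_lit 0), (nat_lit 2835)], [((nat_lit 0), (nat_lit 0), (nat_lit 0)), ((nat_lit 0), (nat_lit 0), (nat_lit 0)), ((nat_lit 363), (nat_lit 1000), (nat_lit 798))], ((nat_lit 0), (nat_lit 0), (nat_lit 0))⟩, (nat_lit 13206), (nat_lit 300), (nat_lit 1909), (nat_lit 3748805), (nat_lit 3249385), [(nat_lit 472416000), (nat_lit 674784000), (nat_lit 787200000)], [], [(nat_lit 3287224735), (nat_lit 3248360474), (nat_lit 3166867980), (nat_lit 3128206952), (nat_lit 2881013696), (nat_lit 2840285920), (nat_lit 2759205828), (nat_lit 2844281976)], (nat_lit 780000), (nat_lit 936250), (nat_lit 1100000), (nat_lit 1699376), (nat_lit 780000), (nat_lit 2908751), [(nat_lit 1977501), (nat_lit 1271251), (nat_lit 1271251)], [(nat_lit 32), (nat_lit 67), (nat_lit 571), (nat_lit 200), (nat_lit 12)]⟩⟩)) (.trX (nat_lit 5) (nat_lit 1) (nat_lit 2) (nat_lit 100) (nat_lit 60) (nat_lit 100) (nat_lit 370) (.leaf ⟨(nat_lit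 717), (nat_lit 235), (nat_lit 0), (nat_lit 48), (nat_lit 0), (nat_lit 3269), (nat_lit 2407), (nat_lit 542), (nat_lit 0), (nat_lit 0), (nat_lit 384400), [((nat_lit 400), [((nat_lit 29), (nat_lit 1), (nat_lit 229)), ((nat_lit 43), (nat_lit 2), (nat_lit 488))])], ⟨(nat_lit 8), false, true, true, (nat_lit 308), (nat_lit 0), (nat_lit 2237), [(nat_lit 1739366), (nat_lit 1724997), (nat_lit 1762141), (nat_lit 1749998), (nat_lit 1796379), (nat_lit 1774994), (nat_lit 1819154), (nat_lit 1799995)]⟩, ⟨(nat_lit 4), false, false, true, (nat_lit 164), (nat_lit 0), (nat_lit 2237), [(nat_lit 1351885), (nat_lit 1349998), (nat_lit 1374660), (nat_lit 1374999), (nat_lit 1451658), (nat_lit 1437494), (nat_lit 1474433), (nat_lit 1462494)]⟩, (nat_lit 5116713), (nat_lit 36442516), (nat_lit 22446331), (nat_lit 8111153), (nat_lit 4), (nat_lit 0), [⟨(nat_lit 1), (nat_lit 83), (nat_lit 33), (nat_lit 100), (nat_lit 366671500)⟩, ⟨(nat_lit 1), (nat_lit 71), (nat_lit 48), (nat_lit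 100), (nat_lit 11155222)⟩], [⟨(nat_lit 1), (nat_lit 100), (nat_lit 31), (nat_lit 94), (nat_lit 426929211)⟩], [], [⟨(nat_lit 1), (nat_lit 72), (nat_lit 71), (nat_lit 100), (nat_lit 26992290)⟩],
 ⟨⟨[(nat_lit 40), (nat_lit 80), (nat_lit 100)], [(nat_lit 0), (nat_lit 2514), (nat_lit 3562)], [((nat_lit 0), (nat_lit 0), (nat_lit 0)), ((nat_lit 1000), (nat_lit 446), (nat_lit 804)), ((nat_lit 1000), (nat_lit 443), (nat_lit 819))], ((nat_lit 44), (nat_lit 100), (nat_lit 84))⟩, (nat_lit 367), (nat_lit 156), (nat_lit 156), (nat_lit 0), (nat_lit 202205), [(nat_lit 1507997201), (nat_lit 861182071), (nat_lit 735415200)], [(nat_lit 0), (nat_lit 0), (nat_lit 0)], [(nat_lit 27021781468), (nat_lit 27994450756), (nat_lit 28835431474), (nat_lit 29909119360), (nat_lit 28102927565), (nat_lit 29167247773), (nat_lit 29929827825), (nat_lit 30893567981)], (nat_lit 1271251), (nat_lit 1271251), (nat_lit 1271251), (nat_lit 1271251), (nat_lit 1100000), (nat_lit 1699376), [(nat_lit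 490000), (nat_lit 1100000), (nat_lit 1442501)], [(nat_lit 3), (nat_lit 50), (nat_lit 272), (nat_lit 60), (nat_lit 8)]⟩,
 ⟨⟨[(nat_lit 80), (nat_lit 140), (nat_lit 180)], [(nat_lit 0), (nat_lit 792), (nat_lit 4228)], [((nat_lit 0), (nat_lit 0), (nat_lit 0)), ((nat_lit 1000), (nat_lit 959), (nat_lit 206)), ((nat_lit 709), (nat_lit 1000), (nat_lit 949))], ((nat_lit 100), (nat_lit 82), (nat_lit 87))⟩, (nat_lit 552857), (nat_lit 584), (nat_lit 584), (nat_lit 0), (nat_lit 827055), [(nat_lit 1326704000), (nat_lit 2785286000), (nat_lit 3978414000)], [], [(nat_lit 10028250089), (nat_lit 10123614153), (nat_lit 10415287981), (nat_lit 10490648148), (nat_lit 10208316650), (nat_lit 10227702900), (nat_lit 10405317710), (nat_lit 10411710162)], (nat_lit 1271251), (nat_lit 1271251), (nat_lit 1271251), (nat_lit 1271251), (nat_lit 780000), (nat_lit 2826876), [(nat_lit 1100000), (nat_lit 2127501), (nat_lit 1271251)], [(nat_lit 19), (nat_lit 63), (nat_lit 538), (nat_lit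 300), (nat_lit 12)]⟩,
 ⟨⟨[(nat_lit 140), (nat_lit 180), (nat_lit 200)], [(nat_lit 0), (nat_lit 0), (nat_lit 2835)], [((nat_lit 0), (nat_lit 0), (nat_lit 0)), ((nat_lit 0), (nat_lit 0), (nat_lit 0)), ((nat_lit 363), (nat_lit 1000), (nat_lit 798))], ((nat_lit 0), (nat_lit 0), (nat_lit 0))⟩, (nat_lit 13206), (nat_lit 300), (nat_lit 2072), (nat_lit 3748805), (nat_lit 3570166), [(nat_lit 472416000), (nat_lit 674784000), (nat_lit 787200000)], [], [(nat_lit 3253228033), (nat_lit 3214950594), (nat_lit 3133385157), (nat_lit 3095315847), (nat_lit 2858735999), (nat_lit 2818203350), (nat_lit 2739544715), (nat_lit 2790477290)], (nat_lit 780000), (nat_lit 936250), (nat_lit 1100000), (nat_lit 1699376), (nat_lit 780000), (nat_lit 2826876), [(nat_lit 1977501), (nat_lit 1271251), (nat_lit 1271251)], [(nat_lit 32), (nat_lit 67), (nat_lit 611), (nat_lit 200), (nat_lit 13)]⟩⟩))))) (.spl (nat_lit 0) (nat_lit 390) (.leaf ⟨(nat_lit 594), (nat_lit 289), (nat_lit 0), (nat_lit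 117), (nat_lit 0), (nat_lit 3285), (nat_lit 3773), (nat_lit 1117), (nat_lit 0), (nat_lit 0), (nat_lit 356400), [((nat_lit 390), [((nat_lit 43), (nat_lit 2), (nat_lit 594))])], ⟨(nat_lit 8), false, true, true, (nat_lit 306), (nat_lit 1581), (nat_lit 2237), [(nat_lit 1716594), (nat_lit 1710536), (nat_lit 1762142), (nat_lit 1757166), (nat_lit 1773609), (nat_lit 1765172), (nat_lit 1819158), (nat_lit 1811802)]⟩, ⟨(nat_lit 4), false, false, true, (nat_lit 180), (nat_lit 1581), (nat_lit 2237), [(nat_lit 1374660), (nat_lit 1375418), (nat_lit 1397434), (nat_lit 1398733), (nat_lit 1502945), (nat_lit 1498348), (nat_lit 1525719), (nat_lit 1521663)]⟩, (nat_lit 5238496), (nat_lit 35882749), (nat_lit 21856036), (nat_lit 9261215), (nat_lit 4), (nat_lit 0), [⟨(nat_lit 1), (nat_lit 81), (nat_lit 40), (nat_lit 100), (nat_lit 344200168)⟩], [⟨(nat_lit 1), (nat_lit 100), (nat_lit 38), (nat_lit 98), (nat_lit 227952385)⟩], [], [⟨(nat_lit 1), (nat_lit 68), (nat_lit 71),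 (nat_lit 100), (nat_lit 3823205)⟩],
 ⟨⟨[(nat_lit 40), (nat_lit 80), (nat_lit 100)], [(nat_lit 0), (nat_lit 2514), (nat_lit 3562)], [((nat_lit 0), (nat_lit 0), (nat_lit 0)), ((nat_lit 1000), (nat_lit 446), (nat_lit 804)), ((nat_lit 1000), (nat_lit 443), (nat_lit 819))], ((nat_lit 44), (nat_lit 100), (nat_lit 84))⟩, (nat_lit 12927), (nat_lit 139), (nat_lit 139), (nat_lit 0), (nat_lit 151106), [(nat_lit 1556836011), (nat_lit 1235362804), (nat_lit 1253509600)], [(nat_lit 0), (nat_lit 0), (nat_lit 0)], [(nat_lit 27209673772), (nat_lit 27672387205), (nat_lit 28856927978), (nat_lit 29394843189), (nat_lit 28717373999), (nat_lit 29120913719), (nat_lit 30374715436), (nat_lit 30840862507)], (nat_lit 1271251), (nat_lit 1271251), (nat_lit 1271251), (nat_lit 1271251), (nat_lit 1100000), (nat_lit 1870626), [(nat_lit 490000), (nat_lit 1100000), (nat_lit 1442501)], [(nat_lit 3), (nat_lit 50), (nat_lit 289), (nat_lit 75), (nat_lit 9)]⟩,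
 ⟨⟨[(nat_lit 80), (nat_lit 140), (nat_lit 180)], [(nat_lit 0), (nat_lit 0), (nat_lit 3656)], [((nat_lit 0), (nat_lit 0), (nat_lit 0)), ((nat_lit 0), (nat_lit 0), (nat_lit 0)), ((nat_lit 637), (nat_lit 1000), (nat_lit 908))], ((nat_lit 100), (nat_lit 73), (nat_lit 85))⟩, (nat_lit 648799), (nat_lit 457), (nat_lit 457), (nat_lit 0), (nat_lit 581267), [(nat_lit 1903328000), (nat_lit 3995852000), (nat_lit 5707548000)], [], [(nat_lit 14464791494), (nat_lit 14818045220), (nat_lit 15215376182), (nat_lit 15493319323), (nat_lit 15245587396), (nat_lit 15390974340), (nat_lit 15774618408), (nat_lit 15905067103)], (nat_lit 1271251), (nat_lit 1271251), (nat_lit 1271251), (nat_lit 1271251), (nat_lit 780000), (nat_lit 2990626), [(nat_lit 1100000), (nat_lit 2127501), (nat_lit 1271251)], [(nat_lit 19), (nat_lit 63), (nat_lit 538), (nat_lit 300), (nat_lit 12)]⟩,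
 ⟨⟨[(nat_lit 140), (nat_lit 180), (nat_lit 200)], [(nat_lit 0), (nat_lit 608), (nat_lit 3317)], [((nat_lit 0), (nat_lit 0), (nat_lit 0)), ((nat_lit 913), (nat_lit 1000), (nat_lit 217)), ((nat_lit 385), (nat_lit 1000), (nat_lit 814))], ((nat_lit 0), (nat_lit 0), (nat_lit 0))⟩, (nat_lit 270178), (nat_lit 300), (nat_lit 1266), (nat_lit 8225100), (nat_lit 1918817), [(nat_lit 1151514000), (nat_lit 1644786000), (nat_lit 1918800000)], [], [(nat_lit 8126981084), (nat_lit 8041864206), (nat_lit 7825009873), (nat_lit 7740019945), (nat_lit 7336183938), (nat_lit 7250416619), (nat_lit 7022384925), (nat_lit 7303611538)], (nat_lit 936250), (nat_lit 1100000), (nat_lit 1100000), (nat_lit 1870626), (nat_lit 780000), (nat_lit 2990626), [(nat_lit 1977501), (nat_lit 1271251), (nat_lit 1271251)], [(nat_lit 32), (nat_lit 67), (nat_lit 428), (nat_lit 200), (nat_lit 9)]⟩⟩) (.trX (nat_lit 3) (nat_lit 0) (nat_lit 1) (nat_lit 34) (nat_lit 81) (nat_lit 100) (nat_lit 340) (.trX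 (nat_lit 4) (nat_lit 0) (nat_lit 2) (nat_lit 31) (nat_lit 100) (nat_lit 99) (nat_lit 230) (.trX (nat_lit 5) (nat_lit 3) (nat_lit 4) (nat_lit 81) (nat_lit 48) (nat_lit 100) (nat_lit 380) (.leaf ⟨(nat_lit 761), (nat_lit 170), (nat_lit 0), (nat_lit 69), (nat_lit 0), (nat_lit 3650), (nat_lit 2333), (nat_lit 690), (nat_lit 0), (nat_lit 0), (nat_lit 190250), [((nat_lit 400), [((nat_lit 29), (nat_lit 0), (nat_lit 761))])], ⟨(nat_lit 8), false, true, true, (nat_lit 297), (nat_lit 0), (nat_lit 1582), [(nat_lit 1710533), (nat_lit 1699996), (nat_lit 1757165), (nat_lit 1749998), (nat_lit 1737850), (nat_lit 1724995), (nat_lit 1784482), (nat_lit 1774996)]⟩, ⟨(nat_lit 4), false, false, true, (nat_lit 173), (nat_lit 0), (nat_lit 1582), [(nat_lit 1375418), (nat_lit 1374999), (nat_lit 1398733), (nat_lit 1399999), (nat_lit 1471027), (nat_lit 1462495), (nat_lit 1494343), (nat_lit 1487497)]⟩, (nat_lit 5169977), (nat_lit 36846577), (nat_lit 21240090), (nat_lit 8913333),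 (nat_lit 4), (nat_lit 0), [⟨(nat_lit 1), (nat_lit 81), (nat_lit 34), (nat_lit 100), (nat_lit 573622778)⟩], [⟨(nat_lit 1), (nat_lit 100), (nat_lit 22), (nat_lit 97), (nat_lit 9372383)⟩, ⟨(nat_lit 1), (nat_lit 100), (nat_lit 31), (nat_lit 99), (nat_lit 247557876)⟩], [], [],
 ⟨⟨[(nat_lit 40), (nat_lit 60), (nat_lit 80)], [(nat_lit 0), (nat_lit 2136), (nat_lit 3185)], [((nat_lit 0), (nat_lit 0), (nat_lit 0)), ((nat_lit 1000), (nat_lit 343), (nat_lit 808)), ((nat_lit 1000), (nat_lit 338), (nat_lit 820))], ((nat_lit 32), (nat_lit 100), (nat_lit 86))⟩, (nat_lit 0), (nat_lit 124), (nat_lit 124), (nat_lit 0), (nat_lit 174805), [(nat_lit 1619317203), (nat_lit 1645203033), (nat_lit 2167872400)], [(nat_lit 0), (nat_lit 0), (nat_lit 0)], [(nat_lit 27968808656), (nat_lit 28474786600), (nat_lit 28879529707), (nat_lit 29473405300), (nat_lit 29040212804), (nat_lit 29597708050), (nat_lit 29964559544), (nat_lit 30494819969)], (nat_lit 1271251), (nat_lit 1271251),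 (nat_lit 1271251), (nat_lit 1271251), (nat_lit 1100000), (nat_lit 1699376), [(nat_lit 490000), (nat_lit 780000), (nat_lit 1100000)], [(nat_lit 2), (nat_lit 44), (nat_lit 203), (nat_lit 0), (nat_lit 6)]⟩,
 ⟨⟨[(nat_lit 80), (nat_lit 140), (nat_lit 180)], [(nat_lit 0), (nat_lit 0), (nat_lit 3656)], [((nat_lit 0), (nat_lit 0), (nat_lit 0)), ((nat_lit 0), (nat_lit 0), (nat_lit 0)), ((nat_lit 637), (nat_lit 1000), (nat_lit 908))], ((nat_lit 100), (nat_lit 73), (nat_lit 85))⟩, (nat_lit 406367), (nat_lit 562), (nat_lit 562), (nat_lit 0), (nat_lit 759808), [(nat_lit 1120432000), (nat_lit 2352238000), (nat_lit 3359862000)], [], [(nat_lit 8690905330), (nat_lit 8806924245), (nat_lit 8831895735), (nat_lit 8969793740), (nat_lit 8794144126), (nat_lit 8828108160), (nat_lit 8886742365), (nat_lit 8989236749)], (nat_lit 1271251), (nat_lit 1271251), (nat_lit 1271251), (nat_lit 1271251), (nat_lit 780000), (nat_lit 2908751), [(nat_lit 1100000), (nat_lit 2127501), (nat_lit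 1271251)], [(nat_lit 19), (nat_lit 63), (nat_lit 483), (nat_lit 250), (nat_lit 10)]⟩,
 ⟨⟨[(nat_lit 140), (nat_lit 180), (nat_lit 200)], [(nat_lit 0), (nat_lit 608), (nat_lit 3317)], [((nat_lit 0), (nat_lit 0), (nat_lit 0)), ((nat_lit 913), (nat_lit 1000), (nat_lit 217)), ((nat_lit 385), (nat_lit 1000), (nat_lit 814))], ((nat_lit 0), (nat_lit 0), (nat_lit 0))⟩, (nat_lit 159336), (nat_lit 300), (nat_lit 1464), (nat_lit 4850700), (nat_lit 2346673), [(nat_lit 679098000), (nat_lit 970002000), (nat_lit 1131600000)], [], [(nat_lit 4601352423), (nat_lit 4548640080), (nat_lit 4447256586), (nat_lit 4394713776), (nat_lit 4098731480), (nat_lit 4046093001), (nat_lit 3941904006), (nat_lit 4101639847)], (nat_lit 936250), (nat_lit 1100000), (nat_lit 1100000), (nat_lit 1699376), (nat_lit 780000), (nat_lit 2908751), [(nat_lit 1977501), (nat_lit 1271251), (nat_lit 1271251)], [(nat_lit 32), (nat_lit 67), (nat_lit 463), (nat_lit 200), (nat_lit 10)]⟩⟩))))))))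
def l025 : List St := [⟨⟨(nat_lit 380), (nat_lit 400), (nat_lit 240), (nat_lit 280), (nat_lit 180), (nat_lit 220), (nat_lit 280), (nat_lit 380), (nat_lit 90), (nat_lit 200), (nat_lit 0), (nat_lit 390), (nat_lit 0), (nat_lit 44)⟩, (nat_lit 0), (nat_lit 1), (nat_lit 3), false, false, false⟩,
  ⟨⟨(nat_lit 380), (nat_lit 400), (nat_lit 280), (nat_lit 320), (nat_lit 180), (nat_lit 220), (nat_lit 280), (nat_lit 380), (nat_lit 90), (nat_lit 200), (nat_lit 0), (nat_lit 390), (nat_lit 0), (nat_lit 44)⟩, (nat_lit 0), (nat_lit 1), (nat_lit 3), false, false, false⟩,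
  ⟨⟨(nat_lit 380), (nat_lit 400), (nat_lit 240), (nat_lit 320), (nat_lit 180), (nat_lit 220), (nat_lit 280), (nat_lit 380), (nat_lit 200), (nat_lit 310), (nat_lit 10), (nat_lit 120), (nat_lit 0), (nat_lit 44)⟩, (nat_lit 0), (nat_lit 1), (nat_lit 3), false, false, true⟩,
  ⟨⟨(nat_lit 380), (nat_lit 400), (nat_lit 240), (nat_lit 320), (nat_lit 180), (nat_lit 220), (nat_lit 280), (nat_lit 380), (nat_lit 200), (nat_lit 310), (nat_lit 120), (nat_lit 400), (nat_lit 0), (nat_lit 44)⟩, (nat_lit 0), (nat_lit 1), (nat_lit 3), false, false, false⟩,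
  ⟨⟨(nat_lit 380), (nat_lit 400), (nat_lit 240), (nat_lit 320), (nat_lit 180), (nat_lit 220), (nat_lit 280), (nat_lit 380), (nat_lit 90), (nat_lit 310), (nat_lit 0), (nat_lit 400), (nat_lit 0), (nat_lit 44)⟩, (nat_lit 1), (nat_lit 1), (nat_lit 3), false, false, false⟩,
  ⟨⟨(nat_lit 380), (nat_lit 400), (nat_lit 240), (nat_lit 280), (nat_lit 120), (nat_lit 180), (nat_lit 150), (nat_lit 240), (nat_lit 40), (nat_lit 160), (nat_lit 0), (nat_lit 400), (nat_lit 44), (nat_lit 88)⟩, (nat_lit 3), (nat_lit 3), (nat_lit 3), false, false, false⟩,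
  ⟨⟨(nat_lit 380), (nat_lit 400), (nat_lit 240), (nat_lit 280), (nat_lit 180), (nat_lit 220), (nat_lit 150), (nat_lit 240), (nat_lit 40), (nat_lit 160), (nat_lit 0), (nat_lit 400), (nat_lit 44), (nat_lit 88)⟩, (nat_lit 3), (nat_lit 3), (nat_lit 3), false, false, false⟩,
  ⟨⟨(nat_lit 380), (nat_lit 400), (nat_lit 240), (nat_lit 280), (nat_lit 120), (nat_lit 180), (nat_lit 240), (nat_lit 320), (nat_lit 40), (nat_lit 160), (nat_lit 0), (nat_lit 390), (nat_lit 44), (nat_lit 88)⟩, (nat_lit 3), (nat_lit 0), (nat_lit 3), false, false, false⟩,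
  ⟨⟨(nat_lit 380), (nat_lit 390), (nat_lit 240), (nat_lit 280), (nat_lit 120), (nat_lit 180), (nat_lit 240), (nat_lit 320), (nat_lit 40), (nat_lit 160), (nat_lit 0), (nat_lit 200), (nat_lit 44), (nat_lit 88)⟩, (nat_lit 0), (nat_lit 1), (nat_lit 3), false, false, false⟩,
  ⟨⟨(nat_lit 390), (nat_lit 400), (nat_lit 240), (nat_lit 280), (nat_lit 120), (nat_lit 180), (nat_lit 240), (nat_lit 320), (nat_lit 40), (nat_lit 160), (nat_lit 0), (nat_lit 200), (nat_lit 44), (nat_lit 88)⟩, (nat_lit 0), (nat_lit 1), (nat_lit 3), false, false, false⟩,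
  ⟨⟨(nat_lit 380), (nat_lit 400), (nat_lit 240), (nat_lit 280), (nat_lit 120), (nat_lit 180), (nat_lit 240), (nat_lit 320), (nat_lit 40), (nat_lit 160), (nat_lit 0), (nat_lit 200), (nat_lit 44), (nat_lit 88)⟩, (nat_lit 1), (nat_lit 1), (nat_lit 3), false, false, false⟩,
  ⟨⟨(nat_lit 380), (nat_lit 400), (nat_lit 240), (nat_lit 280), (nat_lit 120), (nat_lit 180), (nat_lit 240), (nat_lit 320), (nat_lit 40), (nat_lit 160), (nat_lit 200), (nat_lit 390), (nat_lit 44), (nat_lit 88)⟩, (nat_lit 3), (nat_lit 1), (nat_lit 3), false, false, false⟩,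
  ⟨⟨(nat_lit 380), (nat_lit 400), (nat_lit 240), (nat_lit 280), (nat_lit 120), (nat_lit 160), (nat_lit 320), (nat_lit 360), (nat_lit 40), (nat_lit 160), (nat_lit 0), (nat_lit 340), (nat_lit 44), (nat_lit 88)⟩, (nat_lit 0), (nat_lit 3), (nat_lit 3), false, false, false⟩,
  ⟨⟨(nat_lit 380), (nat_lit 400), (nat_lit 240), (nat_lit 280), (nat_lit 160), (nat_lit 180), (nat_lit 320), (nat_lit 360), (nat_lit 40), (nat_lit 160), (nat_lit 0), (nat_lit 340), (nat_lit 44), (nat_lit 88)⟩, (nat_lit 0), (nat_lit 3), (nat_lit 3), false, false, false⟩,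
  ⟨⟨(nat_lit 380), (nat_lit 400), (nat_lit 240), (nat_lit 280), (nat_lit 120), (nat_lit 180), (nat_lit 320), (nat_lit 360), (nat_lit 40), (nat_lit 160), (nat_lit 0), (nat_lit 340), (nat_lit 44), (nat_lit 88)⟩, (nat_lit 1), (nat_lit 3), (nat_lit 3), false, false, false⟩,
  ⟨⟨(nat_lit 380), (nat_lit 400), (nat_lit 240), (nat_lit 280), (nat_lit 180), (nat_lit 220), (nat_lit 240), (nat_lit 360), (nat_lit 40), (nat_lit 160), (nat_lit 0), (nat_lit 390), (nat_lit 44), (nat_lit 88)⟩, (nat_lit 3), (nat_lit 3), (nat_lit 3), false, false, false⟩,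
  ⟨⟨(nat_lit 380), (nat_lit 400), (nat_lit 280), (nat_lit 320), (nat_lit 120), (nat_lit 220), (nat_lit 190), (nat_lit 380), (nat_lit 40), (nat_lit 160), (nat_lit 0), (nat_lit 400), (nat_lit 44), (nat_lit 88)⟩, (nat_lit 3), (nat_lit 0), (nat_lit 3), false, false, false⟩,
  ⟨⟨(nat_lit 380), (nat_lit 400), (nat_lit 280), (nat_lit 320), (nat_lit 120), (nat_lit 180), (nat_lit 190), (nat_lit 280), (nat_lit 40), (nat_lit 160), (nat_lit 0), (nat_lit 400), (nat_lit 44), (nat_lit 88)⟩, (nat_lit 3), (nat_lit 1), (nat_lit 3), false, false, false⟩,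
  ⟨⟨(nat_lit 380), (nat_lit 400), (nat_lit 280), (nat_lit 320), (nat_lit 180), (nat_lit 220), (nat_lit 190), (nat_lit 280), (nat_lit 40), (nat_lit 160), (nat_lit 0), (nat_lit 400), (nat_lit 44), (nat_lit 88)⟩, (nat_lit 3), (nat_lit 1), (nat_lit 3), false, false, false⟩,
  ⟨⟨(nat_lit 380), (nat_lit 400), (nat_lit 280), (nat_lit 320), (nat_lit 120), (nat_lit 160), (nat_lit 280), (nat_lit 320), (nat_lit 40), (nat_lit 160), (nat_lit 0), (nat_lit 120), (nat_lit 44), (nat_lit 88)⟩, (nat_lit 0), (nat_lit 1), (nat_lit 3), false, false, true⟩,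
  ⟨⟨(nat_lit 380), (nat_lit 400), (nat_lit 280), (nat_lit 320), (nat_lit 120), (nat_lit 160), (nat_lit 280), (nat_lit 320), (nat_lit 40), (nat_lit 160), (nat_lit 120), (nat_lit 370), (nat_lit 44), (nat_lit 88)⟩, (nat_lit 0), (nat_lit 1), (nat_lit 3), false, false, false⟩,
  ⟨⟨(nat_lit 380), (nat_lit 400), (nat_lit 280), (nat_lit 320), (nat_lit 160), (nat_lit 180), (nat_lit 280), (nat_lit 320), (nat_lit 40), (nat_lit 160), (nat_lit 0), (nat_lit 370), (nat_lit 44), (nat_lit 88)⟩, (nat_lit 0), (nat_lit 1), (nat_lit 3), false, false, false⟩,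
  ⟨⟨(nat_lit 380), (nat_lit 400), (nat_lit 280), (nat_lit 320), (nat_lit 120), (nat_lit 180), (nat_lit 280), (nat_lit 320), (nat_lit 40), (nat_lit 160), (nat_lit 0), (nat_lit 370), (nat_lit 44), (nat_lit 88)⟩, (nat_lit 1), (nat_lit 1), (nat_lit 3), false, false, false⟩,
  ⟨⟨(nat_lit 380), (nat_lit 400), (nat_lit 280), (nat_lit 300), (nat_lit 120), (nat_lit 180), (nat_lit 320), (nat_lit 370), (nat_lit 40), (nat_lit 120), (nat_lit 0), (nat_lit 340), (nat_lit 44), (nat_lit 88)⟩, (nat_lit 0), (nat_lit 1), (nat_lit 3), false, true, false⟩,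
  ⟨⟨(nat_lit 380), (nat_lit 400), (nat_lit 280), (nat_lit 300), (nat_lit 120), (nat_lit 180), (nat_lit 320), (nat_lit 370), (nat_lit 120), (nat_lit 160), (nat_lit 0), (nat_lit 340), (nat_lit 44), (nat_lit 88)⟩, (nat_lit 0), (nat_lit 1), (nat_lit 3), false, false, false⟩,
  ⟨⟨(nat_lit 380), (nat_lit 400), (nat_lit 300), (nat_lit 320), (nat_lit 120), (nat_lit 180), (nat_lit 320), (nat_lit 380), (nat_lit 40), (nat_lit 160), (nat_lit 0), (nat_lit 340), (nat_lit 44), (nat_lit 88)⟩, (nat_lit 0), (nat_lit 1), (nat_lit 3), false, false, false⟩,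
  ⟨⟨(nat_lit 380), (nat_lit 400), (nat_lit 280), (nat_lit 320), (nat_lit 120), (nat_lit 180), (nat_lit 320), (nat_lit 380), (nat_lit 40), (nat_lit 160), (nat_lit 0), (nat_lit 340), (nat_lit 44), (nat_lit 88)⟩, (nat_lit 1), (nat_lit 1), (nat_lit 3), false, false, false⟩,
  ⟨⟨(nat_lit 380), (nat_lit 400), (nat_lit 280), (nat_lit 320), (nat_lit 180), (nat_lit 220), (nat_lit 280), (nat_lit 380), (nat_lit 40), (nat_lit 160), (nat_lit 0), (nat_lit 370), (nat_lit 44), (nat_lit 88)⟩, (nat_lit 3), (nat_lit 1), (nat_lit 3), false, false, false⟩,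
  ⟨⟨(nat_lit 380), (nat_lit 400), (nat_lit 240), (nat_lit 280), (nat_lit 120), (nat_lit 160), (nat_lit 150), (nat_lit 240), (nat_lit 160), (nat_lit 250), (nat_lit 0), (nat_lit 390), (nat_lit 44), (nat_lit 88)⟩, (nat_lit 3), (nat_lit 0), (nat_lit 3), false, false, false⟩,
  ⟨⟨(nat_lit 380), (nat_lit 400), (nat_lit 240), (nat_lit 280), (nat_lit 120), (nat_lit 160), (nat_lit 150), (nat_lit 240), (nat_lit 160), (nat_lit 250), (nat_lit 0), (nat_lit 390), (nat_lit 44), (nat_lit 88)⟩, (nat_lit 3), (nat_lit 1), (nat_lit 3), false, false, false⟩,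
  ⟨⟨(nat_lit 380), (nat_lit 400), (nat_lit 240), (nat_lit 280), (nat_lit 160), (nat_lit 180), (nat_lit 150), (nat_lit 240), (nat_lit 160), (nat_lit 270), (nat_lit 0), (nat_lit 200), (nat_lit 44), (nat_lit 88)⟩, (nat_lit 3), (nat_lit 0), (nat_lit 3), false, false, false⟩,
  ⟨⟨(nat_lit 380), (nat_lit 400), (nat_lit 240), (nat_lit 280), (nat_lit 160), (nat_lit 180), (nat_lit 150), (nat_lit 240), (nat_lit 160), (nat_lit 200), (nat_lit 0), (nat_lit 200), (nat_lit 44), (nat_lit 88)⟩, (nat_lit 3), (nat_lit 1), (nat_lit 3), false, false, false⟩,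
  ⟨⟨(nat_lit 380), (nat_lit 390), (nat_lit 240), (nat_lit 280), (nat_lit 160), (nat_lit 180), (nat_lit 150), (nat_lit 240), (nat_lit 200), (nat_lit 270), (nat_lit 0), (nat_lit 200), (nat_lit 44), (nat_lit 88)⟩, (nat_lit 3), (nat_lit 1), (nat_lit 3), false, false, false⟩,
  ⟨⟨(nat_lit 390), (nat_lit 400), (nat_lit 240), (nat_lit 280), (nat_lit 160), (nat_lit 180), (nat_lit 150), (nat_lit 240), (nat_lit 200), (nat_lit 270), (nat_lit 0), (nat_lit 200), (nat_lit 44), (nat_lit 88)⟩, (nat_lit 3), (nat_lit 1), (nat_lit 3), false, false, false⟩,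
  ⟨⟨(nat_lit 380), (nat_lit 400), (nat_lit 240), (nat_lit 280), (nat_lit 160), (nat_lit 180), (nat_lit 150), (nat_lit 240), (nat_lit 160), (nat_lit 270), (nat_lit 200), (nat_lit 400), (nat_lit 44), (nat_lit 88)⟩, (nat_lit 3), (nat_lit 3), (nat_lit 3), false, false, false⟩,
  ⟨⟨(nat_lit 380), (nat_lit 400), (nat_lit 240), (nat_lit 280), (nat_lit 120), (nat_lit 140), (nat_lit 240), (nat_lit 320), (nat_lit 160), (nat_lit 250), (nat_lit 0), (nat_lit 390), (nat_lit 44), (nat_lit 88)⟩, (nat_lit 0), (nat_lit 3), (nat_lit 3), false, false, false⟩,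
  ⟨⟨(nat_lit 380), (nat_lit 400), (nat_lit 240), (nat_lit 280), (nat_lit 140), (nat_lit 160), (nat_lit 240), (nat_lit 320), (nat_lit 160), (nat_lit 250), (nat_lit 0), (nat_lit 390), (nat_lit 44), (nat_lit 88)⟩, (nat_lit 0), (nat_lit 3), (nat_lit 3), false, false, false⟩,
  ⟨⟨(nat_lit 380), (nat_lit 400), (nat_lit 240), (nat_lit 280), (nat_lit 120), (nat_lit 160), (nat_lit 240), (nat_lit 320), (nat_lit 160), (nat_lit 250), (nat_lit 0), (nat_lit 390), (nat_lit 44), (nat_lit 88)⟩, (nat_lit 1), (nat_lit 3), (nat_lit 3), false, false, false⟩,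
  ⟨⟨(nat_lit 380), (nat_lit 400), (nat_lit 240), (nat_lit 280), (nat_lit 120), (nat_lit 160), (nat_lit 320), (nat_lit 360), (nat_lit 160), (nat_lit 250), (nat_lit 10), (nat_lit 390), (nat_lit 44), (nat_lit 88)⟩, (nat_lit 3), (nat_lit 0), (nat_lit 3), false, false, false⟩,
  ⟨⟨(nat_lit 380), (nat_lit 400), (nat_lit 240), (nat_lit 280), (nat_lit 120), (nat_lit 160), (nat_lit 320), (nat_lit 360), (nat_lit 160), (nat_lit 250), (nat_lit 10), (nat_lit 390), (nat_lit 44), (nat_lit 88)⟩, (nat_lit 3), (nat_lit 1), (nat_lit 3), false, false, false⟩]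
theorem t025 (h : EC env Ei) : ∀ τ ∈ l025, Dead τ :=
  List.forall_mem_cons.mpr ⟨chkT_sound0 h (T := c14_38) (by decide +kernel),
  List.forall_mem_cons.mpr ⟨chkT_sound0 h (T := c14_39) (by decide +kernel),
  List.forall_mem_cons.mpr ⟨chkT_sound0 h (T := c14_40) (by decide +kernel),
  List.forall_mem_cons.mpr ⟨chkT_sound0 h (T := c14_41) (by decide +kernel),
  List.forall_mem_cons.mpr ⟨chkT_sound0 h (T := c14_42) (by decide +kernel),
  List.forall_mem_cons.mpr ⟨chkT_sound0 h (T := c14_43) (by decide +kernel),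
  List.forall_mem_cons.mpr ⟨chkT_sound0 h (T := c14_44) (by decide +kernel),
  List.forall_mem_cons.mpr ⟨chkT_sound0 h (T := c14_45) (by decide +kernel),
  List.forall_mem_cons.mpr ⟨chkT_sound0 h (T := c14_46) (by decide +kernel),
  List.forall_mem_cons.mpr ⟨chkT_sound0 h (T := c14_47) (by decide +kernel),
  List.forall_mem_cons.mpr ⟨chkT_sound0 h (T := c14_48) (by decide +kernel),
  List.forall_mem_cons.mpr ⟨chkT_sound0 h (T := c14_49) (by decide +kernel),
  List.forall_mem_cons.mpr ⟨chkT_sound0 h (T := c14_50) (by decide +kernel),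
  List.forall_mem_cons.mpr ⟨chkT_sound0 h (T := c14_51) (by decide +kernel),
  List.forall_mem_cons.mpr ⟨chkT_sound0 h (T := c14_52) (by decide +kernel),
  List.forall_mem_cons.mpr ⟨chkT_sound0 h (T := c14_53) (by decide +kernel),
  List.forall_mem_cons.mpr ⟨chkT_sound0 h (T := c14_54) (by decide +kernel),
  List.forall_mem_cons.mpr ⟨chkT_sound0 h (T := c14_55) (by decide +kernel),
  List.forall_mem_cons.mpr ⟨chkT_sound0 h (T := c14_56) (by decide +kernel),
  List.forall_mem_cons.mpr ⟨chkT_sound0 h (T := c14_57) (by decide +kernel),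
  List.forall_mem_cons.mpr ⟨chkT_sound0 h (T := c14_58) (by decide +kernel),
  List.forall_mem_cons.mpr ⟨chkT_sound0 h (T := c14_59) (by decide +kernel),
  List.forall_mem_cons.mpr ⟨chkT_sound0 h (T := c14_60) (by decide +kernel),
  List.forall_mem_cons.mpr ⟨chkT_sound0 h (T := c14_61) (by decide +kernel),
  List.forall_mem_cons.mpr ⟨chkT_sound0 h (T := c14_62) (by decide +kernel),
  List.forall_mem_cons.mpr ⟨chkT_sound0 h (T := c14_63) (by decide +kernel),
  List.forall_mem_cons.mpr ⟨chkT_sound0 h (T := c14_64) (by decide +kernel),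
  List.forall_mem_cons.mpr ⟨chkT_sound0 h (T := c14_65) (by decide +kernel),
  List.forall_mem_cons.mpr ⟨chkT_sound0 h (T := c14_66) (by decide +kernel),
  List.forall_mem_cons.mpr ⟨chkT_sound0 h (T := c14_67) (by decide +kernel),
  List.forall_mem_cons.mpr ⟨chkT_sound0 h (T := c14_68) (by decide +kernel),
  List.forall_mem_cons.mpr ⟨chkT_sound0 h (T := c14_69) (by decide +kernel),
  List.forall_mem_cons.mpr ⟨chkT_sound0 h (T := c14_70) (by decide +kernel),
  List.forall_mem_cons.mpr ⟨chkT_sound0 h (T := c14_71) (by decide +kernel),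
  List.forall_mem_cons.mpr ⟨chkT_sound0 h (T := c14_72) (by decide +kernel),
  List.forall_mem_cons.mpr ⟨chkT_sound0 h (T := c14_73) (by decide +kernel),
  List.forall_mem_cons.mpr ⟨chkT_sound0 h (T := c14_74) (by decide +kernel),
  List.forall_mem_cons.mpr ⟨chkT_sound0 h (T := c14_75) (by decide +kernel),
  List.forall_mem_cons.mpr ⟨chkT_sound0 h (T := c14_76) (by decide +kernel),
  List.forall_mem_cons.mpr ⟨chkT_sound0 h (T := c14_77) (by decide +kernel),
  List.forall_mem_nil _⟩⟩⟩⟩⟩⟩⟩⟩⟩⟩⟩⟩⟩⟩⟩⟩⟩⟩⟩⟩⟩⟩⟩⟩⟩⟩⟩⟩⟩⟩⟩⟩⟩⟩⟩⟩⟩⟩⟩⟩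
end TC
end Pool.Agent.Lib.MP_6947cd_al
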