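import Pool.Agent.Lib.MP_6947cd_al.C.LeafF
import Pool.Agent.Lib.MP_6947cd_al.TC.E
import Pool.Agent.Lib.MP_6947cd_al.TC.F

/-!
Problem MP_6947cd_al (Chollet).  CASE C, tables and certificates.  Trees of leaves (part 26 of root 14).
-/

set_option autoImplicit false
set_option linter.all false
set_option maxRecDepth 100000
set_option maxHeartbeats 4000000
namespace Pool.Agent.Lib.MP_6947cd_al
namespace TC
open C1
noncomputable def c14_78 : Tr Lf :=
 (.trX (nat_lit 3) (nat_lit 0) (nat_lit 1) (nat_lit 46) (nat_lit 76) (nat_lit 100) (nat_lit 340) (.spl (nat_lit 0) (nat_lit 390) (.stt (nat_lit 1) (.spl (nat_lit 3) (nat_lit 280) (.leaf ⟨(nat_lit 846), (nat_lit 98), (nat_lit 0), (nat_lit 56), (nat_lit 0), (nat_lit 3512), (nat_lit 1754), (nat_lit 769), (nat_lit 0), (nat_lit 0), (nat_lit 211500), [((nat_lit 390), [((nat_lit 29), (nat_lit 0), (nat_lit 846))])], ⟨(nat_lit 6), false, true, true, (nat_lit 257), (nat_lit 1581), (nat_lit 2237), [(nat_lit 1602558),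 (nat_lit 1601260), (nat_lit 1625287), (nat_lit 1624529), (nat_lit 1659578), (nat_lit 1655900), (nat_lit 1682352), (nat_lit 1679215)]⟩, ⟨(nat_lit 4), false, false, true, (nat_lit 195), (nat_lit 1581), (nat_lit 2237), [(nat_lit 1397434), (nat_lit 1398733), (nat_lit 1420170), (nat_lit 1422009), (nat_lit 1554227), (nat_lit 1548981), (nat_lit 1577001), (nat_lit 1572296)]⟩, (nat_lit 5200250), (nat_lit 38677782), (nat_lit 17255798), (nat_lit 11066420), (nat_lit 4), (nat_lit 0), [], [⟨(nat_lit 1), (nat_lit 98), (nat_lit 38), (nat_lit 100), (nat_lit 79126893)⟩], [], [⟨(nat_lit 0), (nat_lit 100), (nat_lit 98), (nat_lit 74), (nat_lit 71268836)⟩],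
 ⟨⟨[(nat_lit 40), (nat_lit 80), (nat_lit 100)], [(nat_lit 0), (nat_lit 2514), (nat_lit 3562)], [((nat_lit 0), (nat_lit 0), (nat_lit 0)), ((nat_lit 1000), (nat_lit 446), (nat_lit 804)), ((nat_lit 1000), (nat_lit 443), (nat_lit 819))], ((nat_lit 44), (nat_lit 100), (nat_lit 84))⟩, (nat_lit 0), (nat_lit 67), (nat_lit 67), (nat_lit 0), (nat_lit 0), [(nat_lit 1599359202), (nat_lit 1886386402), (nat_lit 2473794400)], [(nat_lit 0), (nat_lit 0), (nat_lit 0)], [(nat_lit 24290463596), (nat_lit 24884535416), (nat_lit 25718517968), (nat_lit 26267301338), (nat_lit 26910116300), (nat_lit 27403062092), (nat_lit 28084482010), (nat_lit 28616779770)], (nat_lit 0), (nat_lit 0), (nat_lit 0), (nat_lit 0), (nat_lit 0), (nat_lit 0), [], [(nat_lit 3), (nat_lit 50), (nat_lit 289), (nat_lit 75), (nat_lit 9)]⟩,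
 ⟨⟨[(nat_lit 80), (nat_lit 140), (nat_lit 180)], [(nat_lit 0), (nat_lit 0), (nat_lit 3656)], [((nat_lit 0), (nat_lit 0), (nat_lit 0)), ((nat_lit 0), (nat_lit 0), (nat_lit 0)), ((nat_lit 637), (nat_lit 1000), (nat_lit 908))], ((nat_lit 100), (nat_lit 73), (nat_lit 85))⟩, (nat_lit 320515), (nat_lit 553), (nat_lit 553), (nat_lit 0), (nat_lit 485105), [(nat_lit 721952000), (nat_lit 1515668000), (nat_lit 2164932000)], [], [(nat_lit 5745007688), (nat_lit 5818304484), (nat_lit 5907072152), (nat_lit 5995518539), (nat_lit 4566316132), (nat_lit 4641138979), (nat_lit 4715961826), (nat_lit 4777769717)], (nat_lit 1271251), (nat_lit 1271251), (nat_lit 1271251), (nat_lit 1271251), (nat_lit 0), (nat_lit 780000), [(nat_lit 1100000), (nat_lit 2127501), (nat_lit 1271251)], [(nat_lit 19), (nat_lit 63), (nat_lit 401), (nat_lit 175), (nat_lit 9)]⟩,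
 ⟨⟨[(nat_lit 120), (nat_lit 160), (nat_lit 200)], [(nat_lit 0), (nat_lit 0), (nat_lit 3198)], [((nat_lit 0), (nat_lit 0), (nat_lit 0)), ((nat_lit 0), (nat_lit 0), (nat_lit 0)), ((nat_lit 572), (nat_lit 1000), (nat_lit 714))], ((nat_lit 0), (nat_lit 0), (nat_lit 0))⟩, (nat_lit 27317), (nat_lit 300), (nat_lit 971), (nat_lit 4155202), (nat_lit 1126270), [(nat_lit 446208000), (nat_lit 664832000), (nat_lit 918400000)], [], [(nat_lit 3640440964), (nat_lit 3601342205), (nat_lit 3465874511), (nat_lit 3422940222), (nat_lit 2997759622), (nat_lit 2960173233), (nat_lit 3239638583), (nat_lit 3443485059)], (nat_lit 1100000), (nat_lit 1271251), (nat_lit 1100000), (nat_lit 2041876), (nat_lit 0), (nat_lit 780000), [(nat_lit 1695001), (nat_lit 1271251), (nat_lit 1271251)], [(nat_lit 29), (nat_lit 66), (nat_lit 373), (nat_lit 150), (nat_lit 8)]⟩⟩) (.leaf ⟨(nat_lit 775), (nat_lit 141), (nat_lit 0), (nat_lit 84), (nat_lit 0), (nat_lit 3037), (nat_lit 2338), (nat_lit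 990), (nat_lit 0), (nat_lit 0), (nat_lit 310000), [((nat_lit 390), [((nat_lit 29), (nat_lit 1), (nat_lit 775))])], ⟨(nat_lit 7), false, true, true, (nat_lit 284), (nat_lit 1581), (nat_lit 2237), [(nat_lit 1659578), (nat_lit 1655900), (nat_lit 1682352), (nat_lit 1679215), (nat_lit 1745101), (nat_lit 1737854), (nat_lit 1767876), (nat_lit 1761169)]⟩, ⟨(nat_lit 4), false, false, true, (nat_lit 195), (nat_lit 1581), (nat_lit 2237), [(nat_lit 1397434), (nat_lit 1398733), (nat_lit 1420170), (nat_lit 1422009), (nat_lit 1554227), (nat_lit 1548981), (nat_lit 1577001), (nat_lit 1572296)]⟩, (nat_lit 5297351), (nat_lit 36670404), (nat_lit 19675962), (nat_lit 10653634), (nat_lit 4), (nat_lit 0), [⟨(nat_lit 1), (nat_lit 83), (nat_lit 39), (nat_lit 100), (nat_lit 65498440)⟩], [⟨(nat_lit 1), (nat_lit 98), (nat_lit 38), (nat_lit 100), (nat_lit 4086921)⟩], [], [⟨(nat_lit 0), (nat_lit 100), (nat_lit 84), (nat_lit 61), (nat_lit 142432368)⟩],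
 ⟨⟨[(nat_lit 40), (nat_lit 80), (nat_lit 100)], [(nat_lit 0), (nat_lit 2514), (nat_lit 3562)], [((nat_lit 0), (nat_lit 0), (nat_lit 0)), ((nat_lit 1000), (nat_lit 446), (nat_lit 804)), ((nat_lit 1000), (nat_lit 443), (nat_lit 819))], ((nat_lit 44), (nat_lit 100), (nat_lit 84))⟩, (nat_lit 0), (nat_lit 79), (nat_lit 79), (nat_lit 0), (nat_lit 0), [(nat_lit 1487070028), (nat_lit 1207940031), (nat_lit 1479100000)], [(nat_lit 0), (nat_lit 0), (nat_lit 0)], [(nat_lit 25427240411), (nat_lit 25943229187), (nat_lit 27631511962), (nat_lit 28086150466), (nat_lit 27811500206), (nat_lit 28244495823), (nat_lit 29787290873), (nat_lit 30245731726)], (nat_lit 0), (nat_lit 0), (nat_lit 0), (nat_lit 0), (nat_lit 0), (nat_lit 0), [], [(nat_lit 3), (nat_lit 50), (nat_lit 289), (nat_lit 75), (nat_lit 9)]⟩,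
 ⟨⟨[(nat_lit 80), (nat_lit 140), (nat_lit 180)], [(nat_lit 0), (nat_lit 0), (nat_lit 3656)], [((nat_lit 0), (nat_lit 0), (nat_lit 0)), ((nat_lit 0), (nat_lit 0), (nat_lit 0)), ((nat_lit 637), (nat_lit 1000), (nat_lit 908))], ((nat_lit 100), (nat_lit 73), (nat_lit 85))⟩, (nat_lit 429813), (nat_lit 547), (nat_lit 547), (nat_lit 0), (nat_lit 485105), [(nat_lit 1054800000), (nat_lit 2214450000), (nat_lit 3163050000)], [], [(nat_lit 9122942464), (nat_lit 9188889653), (nat_lit 9536429167), (nat_lit 9613369880), (nat_lit 7527303221), (nat_lit 7617728950), (nat_lit 7919199705), (nat_lit 7982627689)], (nat_lit 1271251), (nat_lit 1271251), (nat_lit 1271251), (nat_lit 1271251), (nat_lit 0), (nat_lit 780000), [(nat_lit 1100000), (nat_lit 2127501), (nat_lit 1271251)], [(nat_lit 19), (nat_lit 63), (nat_lit 428), (nat_lit 200), (nat_lit 10)]⟩,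
 ⟨⟨[(nat_lit 120), (nat_lit 160), (nat_lit 200)], [(nat_lit 0), (nat_lit 0), (nat_lit 3198)], [((nat_lit 0), (nat_lit 0), (nat_lit 0)), ((nat_lit 0), (nat_lit 0), (nat_lit 0)), ((nat_lit 572), (nat_lit 1000), (nat_lit 714))], ((nat_lit 0), (nat_lit 0), (nat_lit 0))⟩, (nat_lit 40976), (nat_lit 300), (nat_lit 971), (nat_lit 6232800), (nat_lit 1126270), [(nat_lit 669312000), (nat_lit 997248000), (nat_lit 1377600000)], [], [(nat_lit 5715633792), (nat_lit 5656991940), (nat_lit 5441815602), (nat_lit 5390262714), (nat_lit 4959953400), (nat_lit 4903217694), (nat_lit 4685777996), (nat_lit 4956363053)], (nat_lit 1100000), (nat_lit 1271251), (nat_lit 1100000), (nat_lit 2041876), (nat_lit 0), (nat_lit 780000), [(nat_lit 1695001), (nat_lit 1271251), (nat_lit 1271251)], [(nat_lit 29), (nat_lit 66), (nat_lit 373), (nat_lit 150), (nat_lit 8)]⟩⟩)) (.leaf ⟨(nat_lit 0), (nat_lit 854), (nat_lit 0), (nat_lit 146), (nat_lit 0), (nat_lit 4542), (nat_lit 12660), (nat_lit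 2216), (nat_lit 0), (nat_lit 0), (nat_lit 0), [], Pd.none, Pd.none, (nat_lit 0), (nat_lit 1), (nat_lit 0), (nat_lit 0), (nat_lit 4), (nat_lit 0), [], [], [], [⟨(nat_lit 0), (nat_lit 100), (nat_lit 90), (nat_lit 52), (nat_lit 382746602)⟩],
 ⟨⟨[(nat_lit 40), (nat_lit 80), (nat_lit 100)], [(nat_lit 0), (nat_lit 2514), (nat_lit 3562)], [((nat_lit 0), (nat_lit 0), (nat_lit 0)), ((nat_lit 1000), (nat_lit 446), (nat_lit 804)), ((nat_lit 1000), (nat_lit 443), (nat_lit 819))], ((nat_lit 44), (nat_lit 100), (nat_lit 84))⟩, (nat_lit 1011581), (nat_lit 161), (nat_lit 161), (nat_lit 0), (nat_lit 249183), [(nat_lit 2032000119), (nat_lit 4688000124), (nat_lit 6250000000)], [], [(nat_lit 25287935481), (nat_lit 25829720647), (nat_lit 29376033352), (nat_lit 30035329898), (nat_lit 27660041078), (nat_lit 28235864337), (nat_lit 31459083909), (nat_lit 31997796053)], (nat_lit 1271251), (nat_lit 1271251), (nat_lit 1271251), (nat_lit 1271251), (nat_lit 1100000), (nat_lit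 2041876), [(nat_lit 490000), (nat_lit 1100000), (nat_lit 1442501)], [(nat_lit 3), (nat_lit 50), (nat_lit 289), (nat_lit 75), (nat_lit 9)]⟩,
 ⟨⟨[(nat_lit 80), (nat_lit 140), (nat_lit 180)], [(nat_lit 0), (nat_lit 0), (nat_lit 3656)], [((nat_lit 0), (nat_lit 0), (nat_lit 0)), ((nat_lit 0), (nat_lit 0), (nat_lit 0)), ((nat_lit 637), (nat_lit 1000), (nat_lit 908))], ((nat_lit 100), (nat_lit 73), (nat_lit 85))⟩, (nat_lit 2869485), (nat_lit 399), (nat_lit 399), (nat_lit 0), (nat_lit 199244), [(nat_lit 4688000000), (nat_lit 9842000000), (nat_lit 14058000000)], [], [(nat_lit 33148159800), (nat_lit 34455631260), (nat_lit 40540899000), (nat_lit 41424331115), (nat_lit 24113736760), (nat_lit 25094293150), (nat_lit 29453531240), (nat_lit 30079456998)], (nat_lit 1271251), (nat_lit 1271251), (nat_lit 1271251), (nat_lit 1271251), (nat_lit 0), (nat_lit 780000), [(nat_lit 1100000), (nat_lit 2127501), (nat_lit 1271251)], [(nat_lit 19), (nat_lit 63), (nat_lit 428),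 (nat_lit 200), (nat_lit 10)]⟩,
 ⟨⟨[(nat_lit 120), (nat_lit 160), (nat_lit 200)], [(nat_lit 0), (nat_lit 0), (nat_lit 3198)], [((nat_lit 0), (nat_lit 0), (nat_lit 0)), ((nat_lit 0), (nat_lit 0), (nat_lit 0)), ((nat_lit 572), (nat_lit 1000), (nat_lit 714))], ((nat_lit 0), (nat_lit 0), (nat_lit 0))⟩, (nat_lit 71220), (nat_lit 300), (nat_lit 639), (nat_lit 10833200), (nat_lit 379006), [(nat_lit 1163328000), (nat_lit 1733312000), (nat_lit 2394400000)], [], [(nat_lit 9253643392), (nat_lit 9135923494), (nat_lit 9010227690), (nat_lit 8924960218), (nat_lit 7379212060), (nat_lit 7266013138), (nat_lit 8670451738), (nat_lit 9247338182)], (nat_lit 1100000), (nat_lit 1271251), (nat_lit 1100000), (nat_lit 2041876), (nat_lit 0), (nat_lit 780000), [(nat_lit 1695001), (nat_lit 1271251), (nat_lit 1271251)], [(nat_lit 29), (nat_lit 66), (nat_lit 373), (nat_lit 150), (nat_lit 8)]⟩⟩)) (.trX (nat_lit 3) (nat_lit 0) (nat_lit 1) (nat_lit 33) (nat_lit 85) (nat_lit 100) (nat_lit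 320) (.trX (nat_lit 4) (nat_lit 0) (nat_lit 2) (nat_lit 31) (nat_lit 98) (nat_lit 100) (nat_lit 250) (.spl (nat_lit 3) (nat_lit 280) (.spl (nat_lit 0) (nat_lit 395) (.leaf ⟨(nat_lit 852), (nat_lit 96), (nat_lit 0), (nat_lit 52), (nat_lit 0), (nat_lit 3260), (nat_lit 1681), (nat_lit 731), (nat_lit 0), (nat_lit 0), (nat_lit 301500), [((nat_lit 395), [((nat_lit 29), (nat_lit 0), (nat_lit 262)), ((nat_lit 29), (nat_lit 1), (nat_lit 590))])], ⟨(nat_lit 6), false, true, true, (nat_lit 256), (nat_lit 1118), (nat_lit 1582), [(nat_lit 1601263), (nat_lit 1600626), (nat_lit 1624546), (nat_lit 1624345), (nat_lit 1655900), (nat_lit 1653755), (nat_lit 1679215), (nat_lit 1677505)]⟩, ⟨(nat_lit 4), false, false, true, (nat_lit 189), (nat_lit 1118), (nat_lit 1582), [(nat_lit 1398733), (nat_lit 1399370), (nat_lit 1422017), (nat_lit 1423090), (nat_lit 1521663), (nat_lit 1518906), (nat_lit 1544978), (nat_lit 1542657)]⟩, (nat_lit 5153738), (nat_lit 39080006), (nat_lit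 17308997), (nat_lit 10610997), (nat_lit 4), (nat_lit 0), [], [⟨(nat_lit 1), (nat_lit 100), (nat_lit 27), (nat_lit 100), (nat_lit 82114479)⟩], [], [⟨(nat_lit 0), (nat_lit 100), (nat_lit 95), (nat_lit 64), (nat_lit 76242034)⟩],
 ⟨⟨[(nat_lit 40), (nat_lit 60), (nat_lit 80)], [(nat_lit 0), (nat_lit 2136), (nat_lit 3185)], [((nat_lit 0), (nat_lit 0), (nat_lit 0)), ((nat_lit 1000), (nat_lit 343), (nat_lit 808)), ((nat_lit 1000), (nat_lit 338), (nat_lit 820))], ((nat_lit 32), (nat_lit 100), (nat_lit 86))⟩, (nat_lit 0), (nat_lit 137), (nat_lit 137), (nat_lit 0), (nat_lit 276776), [(nat_lit 1499774460), (nat_lit 1090343745), (nat_lit 1171024800)], [(nat_lit 0), (nat_lit 0), (nat_lit 0)], [(nat_lit 24762196450), (nat_lit 25032492205), (nat_lit 26058726955), (nat_lit 26309367138), (nat_lit 26625953899), (nat_lit 26860425320), (nat_lit 27759179739), (nat_lit 28000855949)], (nat_lit 1271251), (nat_lit 1271251), (nat_lit 1271251), (nat_lit 1271251), (nat_lit 1100000),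 (nat_lit 1870626), [(nat_lit 490000), (nat_lit 780000), (nat_lit 1100000)], [(nat_lit 2), (nat_lit 44), (nat_lit 203), (nat_lit 0), (nat_lit 7)]⟩,
 ⟨⟨[(nat_lit 80), (nat_lit 140), (nat_lit 180)], [(nat_lit 0), (nat_lit 0), (nat_lit 3656)], [((nat_lit 0), (nat_lit 0), (nat_lit 0)), ((nat_lit 0), (nat_lit 0), (nat_lit 0)), ((nat_lit 637), (nat_lit 1000), (nat_lit 908))], ((nat_lit 100), (nat_lit 73), (nat_lit 85))⟩, (nat_lit 309833), (nat_lit 586), (nat_lit 586), (nat_lit 0), (nat_lit 570334), [(nat_lit 693824000), (nat_lit 1456616000), (nat_lit 2080584000)], [], [(nat_lit 5523380004), (nat_lit 5601037074), (nat_lit 5686290360), (nat_lit 5757678265), (nat_lit 4401684184), (nat_lit 4473564366), (nat_lit 4545444548), (nat_lit 4604846871)], (nat_lit 1271251), (nat_lit 1271251), (nat_lit 1271251), (nat_lit 1271251), (nat_lit 0), (nat_lit 780000), [(nat_lit 1100000), (nat_lit 2127501), (nat_lit 1271251)], [(nat_lit 19), (nat_lit 63), (nat_lit 401), (nat_lit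 175), (nat_lit 9)]⟩,
 ⟨⟨[(nat_lit 120), (nat_lit 160), (nat_lit 200)], [(nat_lit 0), (nat_lit 0), (nat_lit 3198)], [((nat_lit 0), (nat_lit 0), (nat_lit 0)), ((nat_lit 0), (nat_lit 0), (nat_lit 0)), ((nat_lit 572), (nat_lit 1000), (nat_lit 714))], ((nat_lit 0), (nat_lit 0), (nat_lit 0))⟩, (nat_lit 25366), (nat_lit 300), (nat_lit 1056), (nat_lit 3858400), (nat_lit 1293919), [(nat_lit 414336000), (nat_lit 617344000), (nat_lit 852800000)], [], [(nat_lit 3361363100), (nat_lit 3323791411), (nat_lit 3205101047), (nat_lit 3164821814), (nat_lit 2748640346), (nat_lit 2712519351), (nat_lit 2836751053), (nat_lit 3027374374)], (nat_lit 1100000), (nat_lit 1271251), (nat_lit 1100000), (nat_lit 1870626), (nat_lit 0), (nat_lit 780000), [(nat_lit 1695001), (nat_lit 1271251), (nat_lit 1271251)], [(nat_lit 29), (nat_lit 66), (nat_lit 373), (nat_lit 150), (nat_lit 8)]⟩⟩) (.trX (nat_lit 4) (nat_lit 0) (nat_lit 2) (nat_lit 22) (nat_lit 100) (nat_lit 100) (nat_lit 230)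 (.leaf ⟨(nat_lit 851), (nat_lit 117), (nat_lit 0), (nat_lit 32), (nat_lit 0), (nat_lit 3380), (nat_lit 1692), (nat_lit 486), (nat_lit 0), (nat_lit 0), (nat_lit 212750), [((nat_lit 400), [((nat_lit 29), (nat_lit 0), (nat_lit 851))])], ⟨(nat_lit 6), false, true, true, (nat_lit 255), (nat_lit 0), (nat_lit 1119), [(nat_lit 1600626), (nat_lit 1599998), (nat_lit 1623914), (nat_lit 1624534), (nat_lit 1653753), (nat_lit 1649996), (nat_lit 1677505), (nat_lit 1674999)]⟩, ⟨(nat_lit 4), false, false, true, (nat_lit 183), (nat_lit 0), (nat_lit 1119), [(nat_lit 1399370), (nat_lit 1399999), (nat_lit 1422657), (nat_lit 1424535), (nat_lit 1492339), (nat_lit 1487496), (nat_lit 1516091), (nat_lit 1512496)]⟩, (nat_lit 5106704), (nat_lit 39467602), (nat_lit 17364127), (nat_lit 10168271), (nat_lit 4), (nat_lit 0), [], [⟨(nat_lit 1), (nat_lit 100), (nat_lit 16), (nat_lit 99), (nat_lit 356717102)⟩], [], [⟨(nat_lit 0), (nat_lit 100), (nat_lit 93), (nat_lit 54), (nat_lit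 64522578)⟩],
 ⟨⟨[(nat_lit 40), (nat_lit 60), (nat_lit 80)], [(nat_lit 0), (nat_lit 2600), (nat_lit 3731)], [((nat_lit 0), (nat_lit 0), (nat_lit 0)), ((nat_lit 1000), (nat_lit 245), (nat_lit 872)), ((nat_lit 1000), (nat_lit 240), (nat_lit 884))], ((nat_lit 24), (nat_lit 100), (nat_lit 89))⟩, (nat_lit 175574), (nat_lit 153), (nat_lit 153), (nat_lit 0), (nat_lit 303860), [(nat_lit 1598185278), (nat_lit 1544092959), (nat_lit 1869828400)], [(nat_lit 0), (nat_lit 0), (nat_lit 0)], [(nat_lit 25064351917), (nat_lit 25338965482), (nat_lit 26351473665), (nat_lit 26605921162), (nat_lit 26410524538), (nat_lit 26663360464), (nat_lit 27651927433), (nat_lit 27903999495)], (nat_lit 1271251), (nat_lit 1271251), (nat_lit 1271251), (nat_lit 1271251), (nat_lit 1100000), (nat_lit 1699376), [(nat_lit 490000), (nat_lit 780000), (nat_lit 1100000)], [(nat_lit 2), (nat_lit 44), (nat_lit 203), (nat_lit 0), (nat_lit 7)]⟩,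
 ⟨⟨[(nat_lit 80), (nat_lit 140), (nat_lit 180)], [(nat_lit 0), (nat_lit 0), (nat_lit 3656)], [((nat_lit 0), (nat_lit 0), (nat_lit 0)), ((nat_lit 0), (nat_lit 0), (nat_lit 0)), ((nat_lit 637), (nat_lit 1000), (nat_lit 908))], ((nat_lit 100), (nat_lit 73), (nat_lit 85))⟩, (nat_lit 311697), (nat_lit 620), (nat_lit 620), (nat_lit 0), (nat_lit 657101), [(nat_lit 698512000), (nat_lit 1466458000), (nat_lit 2094642000)], [], [(nat_lit 5562215372), (nat_lit 5639605440), (nat_lit 5725430468), (nat_lit 5797625944), (nat_lit 4432445042), (nat_lit 4504808790), (nat_lit 4577172537), (nat_lit 4636976422)], (nat_lit 1271251), (nat_lit 1271251), (nat_lit 1271251), (nat_lit 1271251), (nat_lit 0), (nat_lit 780000), [(nat_lit 1100000), (nat_lit 2127501), (nat_lit 1271251)], [(nat_lit 19), (nat_lit 63), (nat_lit 401), (nat_lit 175), (nat_lit 9)]⟩,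
 ⟨⟨[(nat_lit 120), (nat_lit 160), (nat_lit 200)], [(nat_lit 0), (nat_lit 0), (nat_lit 3198)], [((nat_lit 0), (nat_lit 0), (nat_lit 0)), ((nat_lit 0), (nat_lit 0), (nat_lit 0)), ((nat_lit 572), (nat_lit 1000), (nat_lit 714))], ((nat_lit 0), (nat_lit 0), (nat_lit 0))⟩, (nat_lit 15610), (nat_lit 300), (nat_lit 1123), (nat_lit 2374400), (nat_lit 1463961), [(nat_lit 254976000), (nat_lit 379904000), (nat_lit 524800000)], [], [(nat_lit 2027856760), (nat_lit 2002469612), (nat_lit 1967741482), (nat_lit 1951165335), (nat_lit 1616738596), (nat_lit 1591906166), (nat_lit 1655528590), (nat_lit 1778923938)], (nat_lit 1100000), (nat_lit 1271251), (nat_lit 1100000), (nat_lit 1699376), (nat_lit 0), (nat_lit 780000), [(nat_lit 1695001), (nat_lit 1271251), (nat_lit 1271251)], [(nat_lit 29), (nat_lit 66), (nat_lit 373), (nat_lit 150), (nat_lit 8)]⟩⟩))) (.spl (nat_lit 0) (nat_lit 395) (.leaf ⟨(nat_lit 839), (nat_lit 106), (nat_lit 0), (nat_lit 55), (nat_lit 0), (nat_lit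 3343), (nat_lit 1723), (nat_lit 754), (nat_lit 0), (nat_lit 0), (nat_lit 266750), [((nat_lit 395), [((nat_lit 29), (nat_lit 0), (nat_lit 459)), ((nat_lit 29), (nat_lit 1), (nat_lit 380))])], ⟨(nat_lit 7), false, true, true, (nat_lit 277), (nat_lit 1118), (nat_lit 1582), [(nat_lit 1655900), (nat_lit 1653755), (nat_lit 1679215), (nat_lit 1677505), (nat_lit 1710536), (nat_lit 1706882), (nat_lit 1733851), (nat_lit 1730633)]⟩, ⟨(nat_lit 4), false, false, true, (nat_lit 189), (nat_lit 1118), (nat_lit 1582), [(nat_lit 1398733), (nat_lit 1399370), (nat_lit 1422017), (nat_lit 1423090), (nat_lit 1521663), (nat_lit 1518906), (nat_lit 1544978), (nat_lit 1542657)]⟩, (nat_lit 5234065), (nat_lit 37496262), (nat_lit 19195148), (nat_lit 10308590), (nat_lit 4), (nat_lit 0), [⟨(nat_lit 1), (nat_lit 89), (nat_lit 28), (nat_lit 100), (nat_lit 267295737)⟩], [⟨(nat_lit 1), (nat_lit 100), (nat_lit 27), (nat_lit 100), (nat_lit 106879399)⟩], [], [⟨(nat_lit 0), (nat_lit 100),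 (nat_lit 87), (nat_lit 52), (nat_lit 87397864)⟩],
 ⟨⟨[(nat_lit 40), (nat_lit 60), (nat_lit 80)], [(nat_lit 0), (nat_lit 2136), (nat_lit 3185)], [((nat_lit 0), (nat_lit 0), (nat_lit 0)), ((nat_lit 1000), (nat_lit 343), (nat_lit 808)), ((nat_lit 1000), (nat_lit 338), (nat_lit 820))], ((nat_lit 32), (nat_lit 100), (nat_lit 86))⟩, (nat_lit 1228), (nat_lit 145), (nat_lit 145), (nat_lit 0), (nat_lit 276776), [(nat_lit 1537770871), (nat_lit 1277748795), (nat_lit 1461623600)], [(nat_lit 0), (nat_lit 0), (nat_lit 0)], [(nat_lit 26281511292), (nat_lit 26534784867), (nat_lit 27585482269), (nat_lit 27818747180), (nat_lit 27963474425), (nat_lit 28183590838), (nat_lit 29182304182), (nat_lit 29441296996)], (nat_lit 1271251), (nat_lit 1271251), (nat_lit 1271251), (nat_lit 1271251), (nat_lit 1100000), (nat_lit 1870626), [(nat_lit 490000), (nat_lit 780000), (nat_lit 1100000)], [(nat_lit 2), (nat_lit 44), (nat_lit 203), (nat_lit 0), (nat_lit 6)]⟩,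
 ⟨⟨[(nat_lit 80), (nat_lit 140), (nat_lit 180)], [(nat_lit 0), (nat_lit 0), (nat_lit 3656)], [((nat_lit 0), (nat_lit 0), (nat_lit 0)), ((nat_lit 0), (nat_lit 0), (nat_lit 0)), ((nat_lit 637), (nat_lit 1000), (nat_lit 908))], ((nat_lit 100), (nat_lit 73), (nat_lit 85))⟩, (nat_lit 308870), (nat_lit 580), (nat_lit 580), (nat_lit 0), (nat_lit 570334), [(nat_lit 754768000), (nat_lit 1584562000), (nat_lit 2263338000)], [], [(nat_lit 6428217474), (nat_lit 6474909898), (nat_lit 6580910856), (nat_lit 6655648050), (nat_lit 5244325013), (nat_lit 5309002479), (nat_lit 5399467088), (nat_lit 5451250982)], (nat_lit 1271251), (nat_lit 1271251), (nat_lit 1271251), (nat_lit 1271251), (nat_lit 0), (nat_lit 780000), [(nat_lit 1100000), (nat_lit 2127501), (nat_lit 1271251)], [(nat_lit 19), (nat_lit 63), (nat_lit 401), (nat_lit 175), (nat_lit 9)]⟩,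
 ⟨⟨[(nat_lit 120), (nat_lit 160), (nat_lit 200)], [(nat_lit 0), (nat_lit 0), (nat_lit 3198)], [((nat_lit 0), (nat_lit 0), (nat_lit 0)), ((nat_lit 0), (nat_lit 0), (nat_lit 0)), ((nat_lit 572), (nat_lit 1000), (nat_lit 714))], ((nat_lit 0), (nat_lit 0), (nat_lit 0))⟩, (nat_lit 26829), (nat_lit 300), (nat_lit 1056), (nat_lit 4081005), (nat_lit 1293919), [(nat_lit 438240000), (nat_lit 652960000), (nat_lit 902000000)], [], [(nat_lit 3576861296), (nat_lit 3538555523), (nat_lit 3417715502), (nat_lit 3376599418), (nat_lit 2946850766), (nat_lit 2910026885), (nat_lit 2984078126), (nat_lit 3181633438)], (nat_lit 1100000), (nat_lit 1271251), (nat_lit 1100000), (nat_lit 1870626), (nat_lit 0), (nat_lit 780000), [(nat_lit 1695001), (nat_lit 1271251), (nat_lit 1271251)], [(nat_lit 29), (nat_lit 66), (nat_lit 373), (nat_lit 150), (nat_lit 8)]⟩⟩) (.trX (nat_lit 3) (nat_lit 0) (nat_lit 1) (nat_lit 23) (nat_lit 91) (nat_lit 100) (nat_lit 310) (.trX (nat_lit 4) (nat_lit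 0) (nat_lit 2) (nat_lit 22) (nat_lit 100) (nat_lit 100) (nat_lit 230) (.leaf ⟨(nat_lit 831), (nat_lit 115), (nat_lit 0), (nat_lit 54), (nat_lit 0), (nat_lit 3550), (nat_lit 1830), (nat_lit 777), (nat_lit 0), (nat_lit 0), (nat_lit 207750), [((nat_lit 400), [((nat_lit 29), (nat_lit 0), (nat_lit 831))])], ⟨(nat_lit 7), false, true, true, (nat_lit 273), (nat_lit 0), (nat_lit 1119), [(nat_lit 1653753), (nat_lit 1649996), (nat_lit 1677505), (nat_lit 1674999), (nat_lit 1693597), (nat_lit 1687496), (nat_lit 1717349), (nat_lit 1712497)]⟩, ⟨(nat_lit 4), false, false, true, (nat_lit 183), (nat_lit 0), (nat_lit 1119), [(nat_lit 1399370), (nat_lit 1399999), (nat_lit 1422657), (nat_lit 1424535), (nat_lit 1492339), (nat_lit 1487496), (nat_lit 1516091), (nat_lit 1512496)]⟩, (nat_lit 5177307), (nat_lit 38112092), (nat_lit 18960689), (nat_lit 9927219), (nat_lit 4), (nat_lit 0), [⟨(nat_lit 1), (nat_lit 95), (nat_lit 16), (nat_lit 100), (nat_lit 605286374)⟩], [⟨(nat_lit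 1), (nat_lit 100), (nat_lit 16), (nat_lit 99), (nat_lit 111331771)⟩], [], [⟨(nat_lit 0), (nat_lit 100), (nat_lit 88), (nat_lit 45), (nat_lit 95051254)⟩],
 ⟨⟨[(nat_lit 40), (nat_lit 60), (nat_lit 80)], [(nat_lit 0), (nat_lit 2600), (nat_lit 3731)], [((nat_lit 0), (nat_lit 0), (nat_lit 0)), ((nat_lit 1000), (nat_lit 245), (nat_lit 872)), ((nat_lit 1000), (nat_lit 240), (nat_lit 884))], ((nat_lit 24), (nat_lit 100), (nat_lit 89))⟩, (nat_lit 58512), (nat_lit 160), (nat_lit 160), (nat_lit 0), (nat_lit 303860), [(nat_lit 1602881215), (nat_lit 1537927611), (nat_lit 1936060400)], [(nat_lit 0), (nat_lit 0), (nat_lit 0)], [(nat_lit 26582715365), (nat_lit 26842556558), (nat_lit 27637675243), (nat_lit 27954132550), (nat_lit 27779872276), (nat_lit 28080717513), (nat_lit 28851666243), (nat_lit 29133724141)], (nat_lit 1271251), (nat_lit 1271251), (nat_lit 1271251), (nat_lit 1271251), (nat_lit 1100000), (nat_lit 1699376), [(nat_lit 490000), (nat_lit 780000), (nat_lit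 1100000)], [(nat_lit 2), (nat_lit 44), (nat_lit 203), (nat_lit 0), (nat_lit 6)]⟩,
 ⟨⟨[(nat_lit 80), (nat_lit 140), (nat_lit 180)], [(nat_lit 0), (nat_lit 0), (nat_lit 3656)], [((nat_lit 0), (nat_lit 0), (nat_lit 0)), ((nat_lit 0), (nat_lit 0), (nat_lit 0)), ((nat_lit 637), (nat_lit 1000), (nat_lit 908))], ((nat_lit 100), (nat_lit 73), (nat_lit 85))⟩, (nat_lit 327219), (nat_lit 613), (nat_lit 613), (nat_lit 0), (nat_lit 657101), [(nat_lit 792272000), (nat_lit 1663298000), (nat_lit 2375802000)], [], [(nat_lit 6696074904), (nat_lit 6753795400), (nat_lit 6817337116), (nat_lit 6894844956), (nat_lit 5444268573), (nat_lit 5512148214), (nat_lit 5566595952), (nat_lit 5624221633)], (nat_lit 1271251), (nat_lit 1271251), (nat_lit 1271251), (nat_lit 1271251), (nat_lit 0), (nat_lit 780000), [(nat_lit 1100000), (nat_lit 2127501), (nat_lit 1271251)], [(nat_lit 19), (nat_lit 63), (nat_lit 401), (nat_lit 175), (nat_lit 9)]⟩,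
 ⟨⟨[(nat_lit 120), (nat_lit 160), (nat_lit 200)], [(nat_lit 0), (nat_lit 0), (nat_lit 3198)], [((nat_lit 0), (nat_lit 0), (nat_lit 0)), ((nat_lit 0), (nat_lit 0), (nat_lit 0)), ((nat_lit 572), (nat_lit 1000), (nat_lit 714))], ((nat_lit 0), (nat_lit 0), (nat_lit 0))⟩, (nat_lit 26341), (nat_lit 300), (nat_lit 1123), (nat_lit 4006808), (nat_lit 1463961), [(nat_lit 430272000), (nat_lit 641088000), (nat_lit 885600000)], [], [(nat_lit 3470530260), (nat_lit 3430176327), (nat_lit 3329291495), (nat_lit 3290289509), (nat_lit 2817393402), (nat_lit 2778594927), (nat_lit 2765758881), (nat_lit 2964984171)], (nat_lit 1100000), (nat_lit 1271251), (nat_lit 1100000), (nat_lit 1699376), (nat_lit 0), (nat_lit 780000), [(nat_lit 1695001), (nat_lit 1271251), (nat_lit 1271251)], [(nat_lit 29), (nat_lit 66), (nat_lit 373), (nat_lit 150), (nat_lit 8)]⟩⟩)))))))))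
noncomputable def c14_79 : Tr Lf :=
 (.spl (nat_lit 0) (nat_lit 390) (.leaf ⟨(nat_lit 22), (nat_lit 791), (nat_lit 0), (nat_lit 187), (nat_lit 0), (nat_lit 4060), (nat_lit 8353), (nat_lit 2887), (nat_lit 0), (nat_lit 0), (nat_lit 88000), [((nat_lit 390), [((nat_lit 43), (nat_lit 5), (nat_lit 22))])], ⟨(nat_lit 6), false, true, true, (nat_lit 288), (nat_lit 1581), (nat_lit 2237), [(nat_lit 1625287), (nat_lit 1624529), (nat_lit 1648016), (nat_lit 1647799), (nat_lit 1796384), (nat_lit 1788487), (nat_lit 1819158), (nat_lit 1811802)]⟩, ⟨(nat_lit 4), false, false, true, (nat_lit 195), (nat_lit 1581), (nat_lit 2237), [(nat_lit 1397434), (nat_lit 1398733), (nat_lit 1420170), (nat_lit 1422009), (nat_lit 1554227), (nat_lit 1548981), (nat_lit 1577001), (nat_lit 1572296)]⟩, (nat_lit 5307006), (nat_lit 36413742), (nat_lit 19987457), (nat_lit 10598801), (nat_lit 4), (nat_lit 0), [], [⟨(nat_lit 1), (nat_lit 98), (nat_lit 38), (nat_lit 100), (nat_lit 23976932)⟩],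 [], [⟨(nat_lit 0), (nat_lit 100), (nat_lit 87), (nat_lit 57), (nat_lit 251903526)⟩],
 ⟨⟨[(nat_lit 40), (nat_lit 80), (nat_lit 100)], [(nat_lit 0), (nat_lit 2514), (nat_lit 3562)], [((nat_lit 0), (nat_lit 0), (nat_lit 0)), ((nat_lit 1000), (nat_lit 446), (nat_lit 804)), ((nat_lit 1000), (nat_lit 443), (nat_lit 819))], ((nat_lit 44), (nat_lit 100), (nat_lit 84))⟩, (nat_lit 914680), (nat_lit 179), (nat_lit 179), (nat_lit 0), (nat_lit 297978), [(nat_lit 1823484010), (nat_lit 3969858408), (nat_lit 5224571200)], [(nat_lit 0), (nat_lit 0), (nat_lit 0)], [(nat_lit 24984871358), (nat_lit 25493762728), (nat_lit 29898164890), (nat_lit 30487969645), (nat_lit 27211963280), (nat_lit 27789415150), (nat_lit 31842321058), (nat_lit 32328486869)], (nat_lit 1271251), (nat_lit 1271251), (nat_lit 1271251), (nat_lit 1271251), (nat_lit 1100000), (nat_lit 2041876), [(nat_lit 490000), (nat_lit 1100000), (nat_lit 1442501)], [(nat_lit 3), (nat_lit 50), (nat_lit 289), (nat_lit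 75), (nat_lit 9)]⟩,
 ⟨⟨[(nat_lit 80), (nat_lit 140), (nat_lit 180)], [(nat_lit 0), (nat_lit 792), (nat_lit 4228)], [((nat_lit 0), (nat_lit 0), (nat_lit 0)), ((nat_lit 1000), (nat_lit 959), (nat_lit 206)), ((nat_lit 709), (nat_lit 1000), (nat_lit 949))], ((nat_lit 100), (nat_lit 82), (nat_lit 87))⟩, (nat_lit 6715734), (nat_lit 554), (nat_lit 554), (nat_lit 0), (nat_lit 496266), [(nat_lit 4584864000), (nat_lit 9625476000), (nat_lit 13748724000)], [], [(nat_lit 26622335154), (nat_lit 27449500710), (nat_lit 34951204867), (nat_lit 36472613894), (nat_lit 21434760319), (nat_lit 21893507498), (nat_lit 27015597093), (nat_lit 28092790576)], (nat_lit 1271251), (nat_lit 1271251), (nat_lit 1271251), (nat_lit 1271251), (nat_lit 0), (nat_lit 780000), [(nat_lit 1100000), (nat_lit 2127501), (nat_lit 1271251)], [(nat_lit 19), (nat_lit 63), (nat_lit 428), (nat_lit 200), (nat_lit 10)]⟩,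
 ⟨⟨[(nat_lit 120), (nat_lit 160), (nat_lit 200)], [(nat_lit 0), (nat_lit 0), (nat_lit 3198)], [((nat_lit 0), (nat_lit 0), (nat_lit 0)), ((nat_lit 0), (nat_lit 0), (nat_lit 0)), ((nat_lit 572), (nat_lit 1000), (nat_lit 714))], ((nat_lit 0), (nat_lit 0), (nat_lit 0))⟩, (nat_lit 91220), (nat_lit 300), (nat_lit 1064), (nat_lit 13875400), (nat_lit 1313320), [(nat_lit 1490016000), (nat_lit 2220064000), (nat_lit 3066800000)], [], [(nat_lit 11797481564), (nat_lit 11713685790), (nat_lit 11543979038), (nat_lit 11431683985), (nat_lit 9350793260), (nat_lit 9202297886), (nat_lit 11157035340), (nat_lit 11906403925)], (nat_lit 1100000), (nat_lit 1271251), (nat_lit 1100000), (nat_lit 2041876), (nat_lit 0), (nat_lit 780000), [(nat_lit 1695001), (nat_lit 1271251), (nat_lit 1271251)], [(nat_lit 29), (nat_lit 66), (nat_lit 373), (nat_lit 150), (nat_lit 8)]⟩⟩) (.trX (nat_lit 3) (nat_lit 0) (nat_lit 1) (nat_lit 34) (nat_lit 81) (nat_lit 100) (nat_lit 340) (.trX (nat_lit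 4) (nat_lit 0) (nat_lit 2) (nat_lit 31) (nat_lit 98) (nat_lit 100) (nat_lit 250) (.leaf ⟨(nat_lit 0), (nat_lit 1000), (nat_lit 0), (nat_lit 0), (nat_lit 0), (nat_lit 4637), (nat_lit 7727), (nat_lit 0), (nat_lit 0), (nat_lit 0), (nat_lit 0), [], Pd.none, Pd.none, (nat_lit 0), (nat_lit 1), (nat_lit 0), (nat_lit 0), (nat_lit 4), (nat_lit 0), [], [⟨(nat_lit 1), (nat_lit 100), (nat_lit 22), (nat_lit 99), (nat_lit 1261087280)⟩], [], [⟨(nat_lit 0), (nat_lit 100), (nat_lit 89), (nat_lit 47), (nat_lit 71103005)⟩],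
 ⟨⟨[(nat_lit 40), (nat_lit 60), (nat_lit 80)], [(nat_lit 0), (nat_lit 2136), (nat_lit 3185)], [((nat_lit 0), (nat_lit 0), (nat_lit 0)), ((nat_lit 1000), (nat_lit 343), (nat_lit 808)), ((nat_lit 1000), (nat_lit 338), (nat_lit 820))], ((nat_lit 32), (nat_lit 100), (nat_lit 86))⟩, (nat_lit 457706), (nat_lit 178), (nat_lit 178), (nat_lit 0), (nat_lit 348845), [(nat_lit 2032000001), (nat_lit 3282000002), (nat_lit 4688000000)], [], [(nat_lit 25863025703), (nat_lit 26480487350), (nat_lit 30158425210), (nat_lit 30824689234), (nat_lit 27661263447), (nat_lit 28278478809), (nat_lit 31531461127), (nat_lit 32099155609)], (nat_lit 1271251), (nat_lit 1271251), (nat_lit 1271251), (nat_lit 1271251), (nat_lit 1100000), (nat_lit 1870626), [(nat_lit 490000), (nat_lit 780000), (nat_lit 1100000)], [(nat_lit 2), (nat_lit 44), (nat_lit 203), (nat_lit 0), (nat_lit 7)]⟩,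
 ⟨⟨[(nat_lit 80), (nat_lit 140), (nat_lit 180)], [(nat_lit 0), (nat_lit 792), (nat_lit 4228)], [((nat_lit 0), (nat_lit 0), (nat_lit 0)), ((nat_lit 1000), (nat_lit 959), (nat_lit 206)), ((nat_lit 709), (nat_lit 1000), (nat_lit 949))], ((nat_lit 100), (nat_lit 82), (nat_lit 87))⟩, (nat_lit 7405768), (nat_lit 604), (nat_lit 604), (nat_lit 0), (nat_lit 625647), [(nat_lit 4688000000), (nat_lit 9842000000), (nat_lit 14058000000)], [], [(nat_lit 27585023886), (nat_lit 28117522616), (nat_lit 31884469806), (nat_lit 32989095534), (nat_lit 22949215924), (nat_lit 23413483816), (nat_lit 26141286242), (nat_lit 26809528458)], (nat_lit 1271251), (nat_lit 1271251), (nat_lit 1271251), (nat_lit 1271251), (nat_lit 0), (nat_lit 780000), [(nat_lit 1100000), (nat_lit 2127501), (nat_lit 1271251)], [(nat_lit 19), (nat_lit 63), (nat_lit 428), (nat_lit 200), (nat_lit 10)]⟩,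
 Rw.none⟩))))
noncomputable def c14_80 : Tr Lf :=
 (.stt (nat_lit 2) (.spl (nat_lit 1) (nat_lit 260) (.trX (nat_lit 3) (nat_lit 0) (nat_lit 1) (nat_lit 46) (nat_lit 76) (nat_lit 100) (nat_lit 340) (.leaf ⟨(nat_lit 0), (nat_lit 871), (nat_lit 0), (nat_lit 129), (nat_lit 0), (nat_lit 4360), (nat_lit 5750), (nat_lit 1237), (nat_lit 0), (nat_lit 0), (nat_lit 0), [], Pd.none, Pd.none, (nat_lit 0), (nat_lit 1), (nat_lit 0), (nat_lit 0), (nat_lit 4), (nat_lit 0), [], [⟨(nat_lit 1), (nat_lit 100), (nat_lit 32), (nat_lit 100), (nat_lit 683203922)⟩], [⟨(nat_lit 1), (nat_lit 40), (nat_lit 98), (nat_lit 100), (nat_lit 306684355)⟩], [],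
 ⟨⟨[(nat_lit 40), (nat_lit 80), (nat_lit 100)], [(nat_lit 0), (nat_lit 2514), (nat_lit 3562)], [((nat_lit 0), (nat_lit 0), (nat_lit 0)), ((nat_lit 1000), (nat_lit 446), (nat_lit 804)), ((nat_lit 1000), (nat_lit 443), (nat_lit 819))], ((nat_lit 44), (nat_lit 100), (nat_lit 84))⟩, (nat_lit 1109753), (nat_lit 180), (nat_lit 180), (nat_lit 0), (nat_lit 307469), [(nat_lit 2032000138), (nat_lit 4691226903), (nat_lit 6250000000)], [], [(nat_lit 25095013333), (nat_lit 26207725414), (nat_lit 29153556870), (nat_lit 30445453520), (nat_lit 27398137615), (nat_lit 28736438560), (nat_lit 31256913588), (nat_lit 32314923425)], (nat_lit 1271251), (nat_lit 1271251), (nat_lit 1271251), (nat_lit 1271251), (nat_lit 1100000), (nat_lit 2041876), [(nat_lit 490000), (nat_lit 1100000), (nat_lit 1442501)], [(nat_lit 3), (nat_lit 50), (nat_lit 289), (nat_lit 75), (nat_lit 9)]⟩,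
 ⟨⟨[(nat_lit 80), (nat_lit 140), (nat_lit 180)], [(nat_lit 0), (nat_lit 0), (nat_lit 3656)], [((nat_lit 0), (nat_lit 0), (nat_lit 0)), ((nat_lit 0), (nat_lit 0), (nat_lit 0)), ((nat_lit 637), (nat_lit 1000), (nat_lit 908))], ((nat_lit 100), (nat_lit 73), (nat_lit 85))⟩, (nat_lit 0), (nat_lit 109), (nat_lit 109), (nat_lit 0), (nat_lit 0), [(nat_lit 4688000000), (nat_lit 9842000000), (nat_lit 14058000000)], [], [(nat_lit 15123435000), (nat_lit 16587619375), (nat_lit 22716783375), (nat_lit 23797623469), (nat_lit 29059404000), (nat_lit 29740596000), (nat_lit 33155442250), (nat_lit 33723311875)], (nat_lit 0), (nat_lit 0), (nat_lit 0), (nat_lit 0), (nat_lit 0), (nat_lit 0), [], [(nat_lit 19), (nat_lit 63), (nat_lit 483), (nat_lit 250), (nat_lit 11)]⟩,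
 ⟨⟨[(nat_lit 120), (nat_lit 160), (nat_lit 200)], [(nat_lit 0), (nat_lit 0), (nat_lit 3198)], [((nat_lit 0), (nat_lit 0), (nat_lit 0)), ((nat_lit 0), (nat_lit 0), (nat_lit 0)), ((nat_lit 572), (nat_lit 1000), (nat_lit 714))], ((nat_lit 0), (nat_lit 0), (nat_lit 0))⟩, (nat_lit 62927), (nat_lit 300), (nat_lit 1330), (nat_lit 9571800), (nat_lit 2102273), [(nat_lit 1027872000), (nat_lit 1531488000), (nat_lit 2115600000)], [], [(nat_lit 9444458459), (nat_lit 9368264435), (nat_lit 9053247169), (nat_lit 8976350450), (nat_lit 8542039646), (nat_lit 8463390943), (nat_lit 8134384872), (nat_lit 8316287328)], (nat_lit 1100000), (nat_lit 1271251), (nat_lit 1100000), (nat_lit 2041876), (nat_lit 780000), (nat_lit 3072501), [(nat_lit 1695001), (nat_lit 1271251), (nat_lit 1271251)], [(nat_lit 29), (nat_lit 66), (nat_lit 456), (nat_lit 225), (nat_lit 10)]⟩⟩)) (.trX (nat_lit 5) (nat_lit 1) (nat_lit 2) (nat_lit 96) (nat_lit 40) (nat_lit 100) (nat_lit 390) (.leaf ⟨(nat_lit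 22), (nat_lit 843), (nat_lit 0), (nat_lit 135), (nat_lit 0), (nat_lit 4211), (nat_lit 8584), (nat_lit 1309), (nat_lit 0), (nat_lit 0), (nat_lit 88000), [((nat_lit 400), [((nat_lit 43), (nat_lit 5), (nat_lit 22))])], ⟨(nat_lit 6), true, false, true, (nat_lit 287), (nat_lit 0), (nat_lit 2237), [(nat_lit 1624400), (nat_lit 1624062), (nat_lit 1646249), (nat_lit 1648136), (nat_lit 1796379), (nat_lit 1774994), (nat_lit 1819154), (nat_lit 1799995)]⟩, ⟨(nat_lit 4), false, false, true, (nat_lit 194), (nat_lit 0), (nat_lit 2237), [(nat_lit 1397434), (nat_lit 1399999), (nat_lit 1419294), (nat_lit 1424084), (nat_lit 1554222), (nat_lit 1537494), (nat_lit 1576997), (nat_lit 1562495)]⟩, (nat_lit 5296791), (nat_lit 36562523), (nat_lit 19887703), (nat_lit 10549774), (nat_lit 4), (nat_lit 0), [], [⟨(nat_lit 1), (nat_lit 100), (nat_lit 32), (nat_lit 100), (nat_lit 583796733)⟩], [⟨(nat_lit 1), (nat_lit 49), (nat_lit 95), (nat_lit 100), (nat_lit 216031701)⟩], [],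
 ⟨⟨[(nat_lit 40), (nat_lit 80), (nat_lit 100)], [(nat_lit 0), (nat_lit 2514), (nat_lit 3562)], [((nat_lit 0), (nat_lit 0), (nat_lit 0)), ((nat_lit 1000), (nat_lit 446), (nat_lit 804)), ((nat_lit 1000), (nat_lit 443), (nat_lit 819))], ((nat_lit 44), (nat_lit 100), (nat_lit 84))⟩, (nat_lit 861852), (nat_lit 209), (nat_lit 209), (nat_lit 0), (nat_lit 351638), [(nat_lit 1823484050), (nat_lit 3969858484), (nat_lit 5224571200)], [(nat_lit 0), (nat_lit 0), (nat_lit 0)], [(nat_lit 25322457358), (nat_lit 26293959484), (nat_lit 30101038147), (nat_lit 31300867840), (nat_lit 27327639070), (nat_lit 28586830119), (nat_lit 32023160376), (nat_lit 33010098096)], (nat_lit 1271251), (nat_lit 1271251), (nat_lit 1271251), (nat_lit 1271251), (nat_lit 1100000), (nat_lit 2041876), [(nat_lit 490000), (nat_lit 1100000), (nat_lit 1442501)], [(nat_lit 3), (nat_lit 50), (nat_lit 289), (nat_lit 75), (nat_lit 9)]⟩,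
 ⟨⟨[(nat_lit 80), (nat_lit 140), (nat_lit 180)], [(nat_lit 0), (nat_lit 792), (nat_lit 4228)], [((nat_lit 0), (nat_lit 0), (nat_lit 0)), ((nat_lit 1000), (nat_lit 959), (nat_lit 206)), ((nat_lit 709), (nat_lit 1000), (nat_lit 949))], ((nat_lit 100), (nat_lit 82), (nat_lit 87))⟩, (nat_lit 2108605), (nat_lit 181), (nat_lit 181), (nat_lit 0), (nat_lit 0), [(nat_lit 4584864000), (nat_lit 9625476000), (nat_lit 13748724000)], [], [(nat_lit 25676094113), (nat_lit 26668483718), (nat_lit 31982717172), (nat_lit 32601105419), (nat_lit 32441996968), (nat_lit 33005732541), (nat_lit 37081394942), (nat_lit 37649296798)], (nat_lit 0), (nat_lit 0), (nat_lit 0), (nat_lit 0), (nat_lit 0), (nat_lit 0), [], [(nat_lit 19), (nat_lit 63), (nat_lit 538), (nat_lit 300), (nat_lit 12)]⟩,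
 ⟨⟨[(nat_lit 120), (nat_lit 160), (nat_lit 200)], [(nat_lit 0), (nat_lit 0), (nat_lit 3198)], [((nat_lit 0), (nat_lit 0), (nat_lit 0)), ((nat_lit 0), (nat_lit 0), (nat_lit 0)), ((nat_lit 572), (nat_lit 1000), (nat_lit 714))], ((nat_lit 0), (nat_lit 0), (nat_lit 0))⟩, (nat_lit 65854), (nat_lit 300), (nat_lit 1476), (nat_lit 10017000), (nat_lit 2403196), [(nat_lit 1075680000), (nat_lit 1602720000), (nat_lit 2214000000)], [], [(nat_lit 10028297867), (nat_lit 9946180687), (nat_lit 9602821946), (nat_lit 9520365677), (nat_lit 9059912426), (nat_lit 8976438620), (nat_lit 8624450926), (nat_lit 8579115769)], (nat_lit 1100000), (nat_lit 1271251), (nat_lit 1100000), (nat_lit 2041876), (nat_lit 780000), (nat_lit 2990626), [(nat_lit 1695001), (nat_lit 1271251), (nat_lit 1271251)], [(nat_lit 29), (nat_lit 66), (nat_lit 474), (nat_lit 225), (nat_lit 10)]⟩⟩))) (.stt (nat_lit 3) (.leaf ⟨(nat_lit 0), (nat_lit 0), (nat_lit 0), (nat_lit 1000), (nat_lit 0), (nat_lit 4360),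 (nat_lit 7596), (nat_lit 19835), (nat_lit 0), (nat_lit 0), (nat_lit 0), [], Pd.none, Pd.none, (nat_lit 0), (nat_lit 1), (nat_lit 0), (nat_lit 0), (nat_lit 0), (nat_lit 0), [], [], [], [],
 ⟨⟨[(nat_lit 40), (nat_lit 80), (nat_lit 100)], [(nat_lit 0), (nat_lit 2514), (nat_lit 3562)], [((nat_lit 0), (nat_lit 0), (nat_lit 0)), ((nat_lit 1000), (nat_lit 446), (nat_lit 804)), ((nat_lit 1000), (nat_lit 443), (nat_lit 819))], ((nat_lit 44), (nat_lit 100), (nat_lit 84))⟩, (nat_lit 1164197), (nat_lit 163), (nat_lit 163), (nat_lit 0), (nat_lit 227497), [(nat_lit 2032000010), (nat_lit 4752373195), (nat_lit 6250000000)], [], [(nat_lit 24850331466), (nat_lit 26013968000), (nat_lit 30301224340), (nat_lit 31521006400), (nat_lit 27398137615), (nat_lit 28736438560), (nat_lit 32201604470), (nat_lit 33202954830)], (nat_lit 1271251), (nat_lit 1271251), (nat_lit 1271251), (nat_lit 1271251), (nat_lit 1100000), (nat_lit 2041876), [(nat_lit 490000), (nat_lit 1100000), (nat_lit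 1442501)], [(nat_lit 3), (nat_lit 50), (nat_lit 289), (nat_lit 75), (nat_lit 9)]⟩,
 ⟨⟨[(nat_lit 80), (nat_lit 140), (nat_lit 180)], [(nat_lit 0), (nat_lit 0), (nat_lit 3656)], [((nat_lit 0), (nat_lit 0), (nat_lit 0)), ((nat_lit 0), (nat_lit 0), (nat_lit 0)), ((nat_lit 637), (nat_lit 1000), (nat_lit 908))], ((nat_lit 100), (nat_lit 73), (nat_lit 85))⟩, (nat_lit 1864385), (nat_lit 603), (nat_lit 603), (nat_lit 0), (nat_lit 829669), [(nat_lit 4688000000), (nat_lit 9842000000), (nat_lit 14058000000)], [], [(nat_lit 40454097664), (nat_lit 41381079432), (nat_lit 43685957664), (nat_lit 44243896012), (nat_lit 43727175280), (nat_lit 43994664648), (nat_lit 44919527272), (nat_lit 44966744272)], (nat_lit 1271251), (nat_lit 1271251), (nat_lit 1271251), (nat_lit 1271251), (nat_lit 780000), (nat_lit 3072501), [(nat_lit 1100000), (nat_lit 2127501), (nat_lit 1271251)], [(nat_lit 19), (nat_lit 63), (nat_lit 538), (nat_lit 300), (nat_lit 12)]⟩,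
 ⟨⟨[(nat_lit 120), (nat_lit 160), (nat_lit 200)], [(nat_lit 0), (nat_lit 0), (nat_lit 3198)], [((nat_lit 0), (nat_lit 0), (nat_lit 0)), ((nat_lit 0), (nat_lit 0), (nat_lit 0)), ((nat_lit 572), (nat_lit 1000), (nat_lit 714))], ((nat_lit 0), (nat_lit 0), (nat_lit 0))⟩, (nat_lit 7894298), (nat_lit 233), (nat_lit 233), (nat_lit 0), (nat_lit 0), [(nat_lit 7968000000), (nat_lit 11872000000), (nat_lit 16400000000)], [], [(nat_lit 12061944796), (nat_lit 13321790520), (nat_lit 20892785959), (nat_lit 21537761995), (nat_lit 40122625580), (nat_lit 40521081810), (nat_lit 44402633265), (nat_lit 44370632630)], (nat_lit 0), (nat_lit 0), (nat_lit 0), (nat_lit 0), (nat_lit 0), (nat_lit 0), [], [(nat_lit 29), (nat_lit 66), (nat_lit 456), (nat_lit 225), (nat_lit 10)]⟩⟩) (.spl (nat_lit 1) (nat_lit 260) (.trX (nat_lit 3) (nat_lit 0) (nat_lit 1) (nat_lit 46) (nat_lit 76) (nat_lit 100) (nat_lit 340) (.spl (nat_lit 0) (nat_lit 390) (.leaf ⟨(nat_lit 22), (nat_lit 541), (nat_lit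 0), (nat_lit 437), (nat_lit 0), (nat_lit 3797), (nat_lit 9687), (nat_lit 4321), (nat_lit 0), (nat_lit 0), (nat_lit 88000), [((nat_lit 390), [((nat_lit 43), (nat_lit 5), (nat_lit 22))])], ⟨(nat_lit 6), false, true, true, (nat_lit 273), (nat_lit 1581), (nat_lit 2237), [(nat_lit 1602558), (nat_lit 1601260), (nat_lit 1625287), (nat_lit 1624529), (nat_lit 1745101), (nat_lit 1737854), (nat_lit 1767876), (nat_lit 1761169)]⟩, ⟨(nat_lit 4), false, false, true, (nat_lit 195), (nat_lit 1581), (nat_lit 2237), [(nat_lit 1397434), (nat_lit 1398733), (nat_lit 1420170), (nat_lit 1422009), (nat_lit 1554227), (nat_lit 1548981), (nat_lit 1577001), (nat_lit 1572296)]⟩, (nat_lit 5263402), (nat_lit 37467906), (nat_lit 18710989), (nat_lit 10821105), (nat_lit 4), (nat_lit 0), [], [], [], [],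
 ⟨⟨[(nat_lit 40), (nat_lit 80), (nat_lit 100)], [(nat_lit 0), (nat_lit 2514), (nat_lit 3562)], [((nat_lit 0), (nat_lit 0), (nat_lit 0)), ((nat_lit 1000), (nat_lit 446), (nat_lit 804)), ((nat_lit 1000), (nat_lit 443), (nat_lit 819))], ((nat_lit 44), (nat_lit 100), (nat_lit 84))⟩, (nat_lit 1160661), (nat_lit 123), (nat_lit 123), (nat_lit 0), (nat_lit 112990), [(nat_lit 1823484001), (nat_lit 4195518857), (nat_lit 5224571200)], [(nat_lit 0), (nat_lit 0), (nat_lit 0)], [(nat_lit 24095292625), (nat_lit 24675347101), (nat_lit 28465346656), (nat_lit 29070003505), (nat_lit 26920486867), (nat_lit 27545813209), (nat_lit 30631518585), (nat_lit 31130495107)], (nat_lit 1271251), (nat_lit 1271251), (nat_lit 1271251), (nat_lit 1271251), (nat_lit 1100000), (nat_lit 2041876), [(nat_lit 490000), (nat_lit 1100000), (nat_lit 1442501)], [(nat_lit 3), (nat_lit 50), (nat_lit 289), (nat_lit 75), (nat_lit 9)]⟩,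
 ⟨⟨[(nat_lit 80), (nat_lit 140), (nat_lit 180)], [(nat_lit 0), (nat_lit 0), (nat_lit 3656)], [((nat_lit 0), (nat_lit 0), (nat_lit 0)), ((nat_lit 0), (nat_lit 0), (nat_lit 0)), ((nat_lit 637), (nat_lit 1000), (nat_lit 908))], ((nat_lit 100), (nat_lit 73), (nat_lit 85))⟩, (nat_lit 2328978), (nat_lit 420), (nat_lit 420), (nat_lit 0), (nat_lit 485105), [(nat_lit 4584864000), (nat_lit 9625476000), (nat_lit 13748724000)], [], [(nat_lit 28740222180), (nat_lit 29343214980), (nat_lit 33099439158), (nat_lit 33674127468), (nat_lit 35563998384), (nat_lit 35211010491), (nat_lit 37291978437), (nat_lit 37901588433)], (nat_lit 1271251), (nat_lit 1271251), (nat_lit 1271251), (nat_lit 1271251), (nat_lit 780000), (nat_lit 3072501), [(nat_lit 1100000), (nat_lit 2127501), (nat_lit 1271251)], [(nat_lit 19), (nat_lit 63), (nat_lit 483), (nat_lit 250), (nat_lit 11)]⟩,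
 ⟨⟨[(nat_lit 120), (nat_lit 160), (nat_lit 200)], [(nat_lit 0), (nat_lit 0), (nat_lit 3198)], [((nat_lit 0), (nat_lit 0), (nat_lit 0)), ((nat_lit 0), (nat_lit 0), (nat_lit 0)), ((nat_lit 572), (nat_lit 1000), (nat_lit 714))], ((nat_lit 0), (nat_lit 0), (nat_lit 0))⟩, (nat_lit 213171), (nat_lit 300), (nat_lit 883), (nat_lit 32425400), (nat_lit 1126270), [(nat_lit 3482016000), (nat_lit 5188064000), (nat_lit 7166800000)], [], [(nat_lit 28909877212), (nat_lit 28674364835), (nat_lit 27776258659), (nat_lit 27535522599), (nat_lit 26588582268), (nat_lit 26324429437), (nat_lit 27270839927), (nat_lit 28527499904)], (nat_lit 1100000), (nat_lit 1271251), (nat_lit 1100000), (nat_lit 2041876), (nat_lit 780000), (nat_lit 3072501), [(nat_lit 1695001), (nat_lit 1271251), (nat_lit 1271251)], [(nat_lit 29), (nat_lit 66), (nat_lit 456), (nat_lit 225), (nat_lit 10)]⟩⟩) (.trX (nat_lit 3) (nat_lit 0) (nat_lit 1) (nat_lit 33) (nat_lit 85) (nat_lit 100) (nat_lit 320) (.trX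 (nat_lit 4) (nat_lit 0) (nat_lit 2) (nat_lit 31) (nat_lit 98) (nat_lit 100) (nat_lit 250) (.leaf ⟨(nat_lit 780), (nat_lit 112), (nat_lit 0), (nat_lit 108), (nat_lit 0), (nat_lit 3341), (nat_lit 2530), (nat_lit 1103), (nat_lit 0), (nat_lit 0), (nat_lit 195000), [((nat_lit 400), [((nat_lit 29), (nat_lit 0), (nat_lit 780))])], ⟨(nat_lit 6), false, true, true, (nat_lit 266), (nat_lit 0), (nat_lit 1582), [(nat_lit 1601257), (nat_lit 1599992), (nat_lit 1623921), (nat_lit 1624340), (nat_lit 1710533), (nat_lit 1699996), (nat_lit 1733849), (nat_lit 1724997)]⟩, ⟨(nat_lit 4), false, false, true, (nat_lit 188), (nat_lit 0), (nat_lit 1582), [(nat_lit 1398733), (nat_lit 1399999), (nat_lit 1421394), (nat_lit 1424345), (nat_lit 1521659), (nat_lit 1512494), (nat_lit 1544976), (nat_lit 1537497)]⟩, (nat_lit 5190633), (nat_lit 38364803), (nat_lit 18203586), (nat_lit 10431611), (nat_lit 4), (nat_lit 0), [⟨(nat_lit 1), (nat_lit 92), (nat_lit 23), (nat_lit 100), (nat_lit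 367550784)⟩], [⟨(nat_lit 1), (nat_lit 100), (nat_lit 22), (nat_lit 99), (nat_lit 307934896)⟩], [], [],
 ⟨⟨[(nat_lit 40), (nat_lit 60), (nat_lit 80)], [(nat_lit 0), (nat_lit 2136), (nat_lit 3185)], [((nat_lit 0), (nat_lit 0), (nat_lit 0)), ((nat_lit 1000), (nat_lit 343), (nat_lit 808)), ((nat_lit 1000), (nat_lit 338), (nat_lit 820))], ((nat_lit 32), (nat_lit 100), (nat_lit 86))⟩, (nat_lit 138970), (nat_lit 111), (nat_lit 111), (nat_lit 0), (nat_lit 138897), [(nat_lit 1614856031), (nat_lit 1665047307), (nat_lit 2104952000)], [(nat_lit 0), (nat_lit 0), (nat_lit 0)], [(nat_lit 24860782197), (nat_lit 25441454457), (nat_lit 27592704077), (nat_lit 28086126049), (nat_lit 26780785010), (nat_lit 27282390393), (nat_lit 29219675392), (nat_lit 29698047883)], (nat_lit 1271251), (nat_lit 1271251), (nat_lit 1271251), (nat_lit 1271251), (nat_lit 1100000), (nat_lit 1870626), [(nat_lit 490000), (nat_lit 780000), (nat_lit 1100000)], [(nat_lit 2), (nat_lit 44), (nat_lit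 203), (nat_lit 0), (nat_lit 7)]⟩,
 ⟨⟨[(nat_lit 80), (nat_lit 140), (nat_lit 180)], [(nat_lit 0), (nat_lit 0), (nat_lit 3656)], [((nat_lit 0), (nat_lit 0), (nat_lit 0)), ((nat_lit 0), (nat_lit 0), (nat_lit 0)), ((nat_lit 637), (nat_lit 1000), (nat_lit 908))], ((nat_lit 100), (nat_lit 73), (nat_lit 85))⟩, (nat_lit 424523), (nat_lit 494), (nat_lit 494), (nat_lit 0), (nat_lit 657256), [(nat_lit 1031360000), (nat_lit 2165240000), (nat_lit 3092760000)], [], [(nat_lit 6631550200), (nat_lit 6561185730), (nat_lit 6882284640), (nat_lit 6953472647), (nat_lit 7910515360), (nat_lit 7785940030), (nat_lit 8465684920), (nat_lit 8625668480)], (nat_lit 1271251), (nat_lit 1271251), (nat_lit 1271251), (nat_lit 1271251), (nat_lit 780000), (nat_lit 3072501), [(nat_lit 1100000), (nat_lit 2127501), (nat_lit 1271251)], [(nat_lit 19), (nat_lit 63), (nat_lit 483), (nat_lit 250), (nat_lit 11)]⟩,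
 ⟨⟨[(nat_lit 120), (nat_lit 160), (nat_lit 200)], [(nat_lit 0), (nat_lit 0), (nat_lit 3198)], [((nat_lit 0), (nat_lit 0), (nat_lit 0)), ((nat_lit 0), (nat_lit 0), (nat_lit 0)), ((nat_lit 572), (nat_lit 1000), (nat_lit 714))], ((nat_lit 0), (nat_lit 0), (nat_lit 0))⟩, (nat_lit 52683), (nat_lit 300), (nat_lit 1045), (nat_lit 8013600), (nat_lit 1463961), [(nat_lit 860544000), (nat_lit 1282176000), (nat_lit 1771200000)], [], [(nat_lit 7242496842), (nat_lit 7176153506), (nat_lit 6955184745), (nat_lit 6887663798), (nat_lit 6507261820), (nat_lit 6435848282), (nat_lit 6514205307), (nat_lit 6829172488)], (nat_lit 1100000), (nat_lit 1271251), (nat_lit 1100000), (nat_lit 1870626), (nat_lit 780000), (nat_lit 3072501), [(nat_lit 1695001), (nat_lit 1271251), (nat_lit 1271251)], [(nat_lit 29), (nat_lit 66), (nat_lit 456), (nat_lit 225), (nat_lit 10)]⟩⟩))))) (.trX (nat_lit 5) (nat_lit 1) (nat_lit 2) (nat_lit 96) (nat_lit 40) (nat_lit 100) (nat_lit 390) (.leaf ⟨(nat_lit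 365), (nat_lit 429), (nat_lit 0), (nat_lit 206), (nat_lit 0), (nat_lit 3458), (nat_lit 5230), (nat_lit 2023), (nat_lit 0), (nat_lit 0), (nat_lit 219000), [((nat_lit 400), [((nat_lit 43), (nat_lit 2), (nat_lit 365))])], ⟨(nat_lit 6), false, true, true, (nat_lit 287), (nat_lit 0), (nat_lit 2237), [(nat_lit 1624400), (nat_lit 1624062), (nat_lit 1646249), (nat_lit 1648136), (nat_lit 1796379), (nat_lit 1774994), (nat_lit 1819154), (nat_lit 1799995)]⟩, ⟨(nat_lit 4), false, false, true, (nat_lit 194), (nat_lit 0), (nat_lit 2237), [(nat_lit 1397434), (nat_lit 1399999), (nat_lit 1419294), (nat_lit 1424084), (nat_lit 1554222), (nat_lit 1537494), (nat_lit 1576997), (nat_lit 1562495)]⟩, (nat_lit 5296791), (nat_lit 36562523), (nat_lit 19887703), (nat_lit 10549774), (nat_lit 4), (nat_lit 0), [], [⟨(nat_lit 1), (nat_lit 100), (nat_lit 32), (nat_lit 100), (nat_lit 278091737)⟩], [], [],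
 ⟨⟨[(nat_lit 40), (nat_lit 80), (nat_lit 100)], [(nat_lit 0), (nat_lit 2514), (nat_lit 3562)], [((nat_lit 0), (nat_lit 0), (nat_lit 0)), ((nat_lit 1000), (nat_lit 446), (nat_lit 804)), ((nat_lit 1000), (nat_lit 443), (nat_lit 819))], ((nat_lit 44), (nat_lit 100), (nat_lit 84))⟩, (nat_lit 578584), (nat_lit 143), (nat_lit 143), (nat_lit 0), (nat_lit 156039), [(nat_lit 1649810010), (nat_lit 2603432006), (nat_lit 3179766000)], [(nat_lit 0), (nat_lit 0), (nat_lit 0)], [(nat_lit 24360192886), (nat_lit 25470074290), (nat_lit 29089358927), (nat_lit 30188355520), (nat_lit 26813933987), (nat_lit 27830755243), (nat_lit 31121359010), (nat_lit 32035459699)], (nat_lit 1271251), (nat_lit 1271251), (nat_lit 1271251), (nat_lit 1271251), (nat_lit 1100000), (nat_lit 2041876), [(nat_lit 490000), (nat_lit 1100000), (nat_lit 1442501)], [(nat_lit 3), (nat_lit 50), (nat_lit 289), (nat_lit 75), (nat_lit 9)]⟩,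
 ⟨⟨[(nat_lit 80), (nat_lit 140), (nat_lit 180)], [(nat_lit 0), (nat_lit 792), (nat_lit 4228)], [((nat_lit 0), (nat_lit 0), (nat_lit 0)), ((nat_lit 1000), (nat_lit 959), (nat_lit 206)), ((nat_lit 709), (nat_lit 1000), (nat_lit 949))], ((nat_lit 100), (nat_lit 82), (nat_lit 87))⟩, (nat_lit 1830259), (nat_lit 478), (nat_lit 478), (nat_lit 0), (nat_lit 625902), [(nat_lit 2976880000), (nat_lit 6249670000), (nat_lit 8926830000)], [], [(nat_lit 20478704059), (nat_lit 20775420671), (nat_lit 22442303686), (nat_lit 22613780521), (nat_lit 22052850970), (nat_lit 22135229093), (nat_lit 23650262820), (nat_lit 24015322682)], (nat_lit 1271251), (nat_lit 1271251), (nat_lit 1271251), (nat_lit 1271251), (nat_lit 780000), (nat_lit 2990626), [(nat_lit 1100000), (nat_lit 2127501), (nat_lit 1271251)], [(nat_lit 19), (nat_lit 63), (nat_lit 538), (nat_lit 300), (nat_lit 12)]⟩,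
 ⟨⟨[(nat_lit 120), (nat_lit 160), (nat_lit 200)], [(nat_lit 0), (nat_lit 0), (nat_lit 3198)], [((nat_lit 0), (nat_lit 0), (nat_lit 0)), ((nat_lit 0), (nat_lit 0), (nat_lit 0)), ((nat_lit 572), (nat_lit 1000), (nat_lit 714))], ((nat_lit 0), (nat_lit 0), (nat_lit 0))⟩, (nat_lit 100488), (nat_lit 300), (nat_lit 1115), (nat_lit 15285200), (nat_lit 1634612), [(nat_lit 1641408000), (nat_lit 2445632000), (nat_lit 3378400000)], [], [(nat_lit 14253529912), (nat_lit 14133422745), (nat_lit 13656262952), (nat_lit 13533388129), (nat_lit 12954414357), (nat_lit 12825712274), (nat_lit 12572246362), (nat_lit 13158338131)], (nat_lit 1100000), (nat_lit 1271251), (nat_lit 1100000), (nat_lit 2041876), (nat_lit 780000), (nat_lit 2990626), [(nat_lit 1695001), (nat_lit 1271251), (nat_lit 1271251)], [(nat_lit 29), (nat_lit 66), (nat_lit 456), (nat_lit 225), (nat_lit 10)]⟩⟩)))))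
noncomputable def c14_81 : Tr Lf :=
 (.spl (nat_lit 5) (nat_lit 120) (.spl (nat_lit 3) (nat_lit 280) (.stt (nat_lit 1) (.spl (nat_lit 1) (nat_lit 300) (.leaf ⟨(nat_lit 803), (nat_lit 131), (nat_lit 0), (nat_lit 66), (nat_lit 0), (nat_lit 3613), (nat_lit 1918), (nat_lit 907), (nat_lit 0), (nat_lit 0), (nat_lit 219200), [((nat_lit 400), [((nat_lit 29), (nat_lit 0), (nat_lit 680)), ((nat_lit 29), (nat_lit 1), (nat_lit 123))])], ⟨(nat_lit 7), false, true, false, (nat_lit 261), (nat_lit 0), (nat_lit 2237), [(nat_lit 1572676), (nat_lit 1583333), (nat_lit 1594524), (nat_lit 1607407), (nat_lit 1705063), (nat_lit 1699935), (nat_lit 1726954), (nat_lit 1724051)]⟩, ⟨(nat_lit 4), true, false, true, (nat_lit 184), (nat_lit 0), (nat_lit 2237), [(nat_lit 1351885), (nat_lit 1349998), (nat_lit 1419294), (nat_lit 1424084), (nat_lit 1508671), (nat_lit 1487491), (nat_lit 1576997), (nat_lit 1562495)]⟩, (nat_lit 5139796), (nat_lit 38983877), (nat_lit 17819848), (nat_lit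 10196275), (nat_lit 4), (nat_lit 0), [⟨(nat_lit 0), (nat_lit 90), (nat_lit 32), (nat_lit 100), (nat_lit 17471141)⟩], [⟨(nat_lit 1), (nat_lit 100), (nat_lit 31), (nat_lit 97), (nat_lit 359364044)⟩], [⟨(nat_lit 0), (nat_lit 100), (nat_lit 87), (nat_lit 41), (nat_lit 116174371)⟩], [],
 ⟨⟨[(nat_lit 40), (nat_lit 80), (nat_lit 100)], [(nat_lit 0), (nat_lit 2514), (nat_lit 3562)], [((nat_lit 0), (nat_lit 0), (nat_lit 0)), ((nat_lit 1000), (nat_lit 446), (nat_lit 804)), ((nat_lit 1000), (nat_lit 443), (nat_lit 819))], ((nat_lit 44), (nat_lit 100), (nat_lit 84))⟩, (nat_lit 525), (nat_lit 72), (nat_lit 72), (nat_lit 0), (nat_lit 0), [(nat_lit 1588988408), (nat_lit 1883792813), (nat_lit 2457564000)], [(nat_lit 0), (nat_lit 0), (nat_lit 0)], [(nat_lit 22926026157), (nat_lit 24239339844), (nat_lit 25603109409), (nat_lit 26842063456), (nat_lit 25816540298), (nat_lit 27023360799), (nat_lit 28155822607), (nat_lit 29280604714)], (nat_lit 0), (nat_lit 0), (nat_lit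 0), (nat_lit 0), (nat_lit 0), (nat_lit 0), [], [(nat_lit 3), (nat_lit 50), (nat_lit 373), (nat_lit 150), (nat_lit 13)]⟩,
 ⟨⟨[(nat_lit 60), (nat_lit 120), (nat_lit 160)], [(nat_lit 0), (nat_lit 0), (nat_lit 3243)], [((nat_lit 0), (nat_lit 0), (nat_lit 0)), ((nat_lit 0), (nat_lit 0), (nat_lit 0)), ((nat_lit 878), (nat_lit 1000), (nat_lit 945))], ((nat_lit 100), (nat_lit 92), (nat_lit 90))⟩, (nat_lit 358070), (nat_lit 643), (nat_lit 643), (nat_lit 0), (nat_lit 799225), [(nat_lit 646554000), (nat_lit 1569696000), (nat_lit 2338784000)], [], [(nat_lit 6773827391), (nat_lit 6863453818), (nat_lit 6972903412), (nat_lit 7064096496), (nat_lit 5657938945), (nat_lit 5762598388), (nat_lit 5838899648), (nat_lit 5914851023)], (nat_lit 1271251), (nat_lit 1271251), (nat_lit 1271251), (nat_lit 1271251), (nat_lit 0), (nat_lit 780000), [(nat_lit 780000), (nat_lit 1762501), (nat_lit 1271251)], [(nat_lit 12), (nat_lit 59), (nat_lit 401), (nat_lit 175), (nat_lit 10)]⟩,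
 ⟨⟨[(nat_lit 140), (nat_lit 180), (nat_lit 200)], [(nat_lit 0), (nat_lit 0), (nat_lit 2835)], [((nat_lit 0), (nat_lit 0), (nat_lit 0)), ((nat_lit 0), (nat_lit 0), (nat_lit 0)), ((nat_lit 363), (nat_lit 1000), (nat_lit 798))], ((nat_lit 0), (nat_lit 0), (nat_lit 0))⟩, (nat_lit 18159), (nat_lit 300), (nat_lit 462), (nat_lit 5154600), (nat_lit 0), [(nat_lit 649572000), (nat_lit 927828000), (nat_lit 1082400000)], [], [(nat_lit 4371304489), (nat_lit 4209169958), (nat_lit 4310930096), (nat_lit 4136754091), (nat_lit 3573354078), (nat_lit 3420603629), (nat_lit 3490753863), (nat_lit 3329886683)], (nat_lit 0), (nat_lit 0), (nat_lit 0), (nat_lit 0), (nat_lit 0), (nat_lit 0), [], [(nat_lit 32), (nat_lit 67), (nat_lit 373), (nat_lit 150), (nat_lit 8)]⟩⟩) (.trZ (nat_lit 0) (nat_lit 1) (nat_lit 3) (nat_lit 87) (nat_lit 44) (nat_lit 100) (nat_lit 210) (.leaf ⟨(nat_lit 0), (nat_lit 940), (nat_lit 0), (nat_lit 60), (nat_lit 0), (nat_lit 5745), (nat_lit 6759), (nat_lit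 819), (nat_lit 0), (nat_lit 0), (nat_lit 0), [], Pd.none, Pd.none, (nat_lit 0), (nat_lit 1), (nat_lit 0), (nat_lit 0), (nat_lit 4), (nat_lit 0), [⟨(nat_lit 0), (nat_lit 87), (nat_lit 32), (nat_lit 100), (nat_lit 718789419)⟩], [⟨(nat_lit 1), (nat_lit 100), (nat_lit 31), (nat_lit 97), (nat_lit 882804275)⟩], [⟨(nat_lit 0), (nat_lit 100), (nat_lit 86), (nat_lit 33), (nat_lit 99909647)⟩], [],
 ⟨⟨[(nat_lit 40), (nat_lit 80), (nat_lit 100)], [(nat_lit 0), (nat_lit 2514), (nat_lit 3562)], [((nat_lit 0), (nat_lit 0), (nat_lit 0)), ((nat_lit 1000), (nat_lit 446), (nat_lit 804)), ((nat_lit 1000), (nat_lit 443), (nat_lit 819))], ((nat_lit 44), (nat_lit 100), (nat_lit 84))⟩, (nat_lit 0), (nat_lit 72), (nat_lit 72), (nat_lit 0), (nat_lit 0), [(nat_lit 2440016958), (nat_lit 4688000042), (nat_lit 6250000000)], [], [(nat_lit 25271919556), (nat_lit 27013262175), (nat_lit 27787034832), (nat_lit 29282329552), (nat_lit 28231683299), (nat_lit 29631744755), (nat_lit 30151847111),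 (nat_lit 31566898087)], (nat_lit 0), (nat_lit 0), (nat_lit 0), (nat_lit 0), (nat_lit 0), (nat_lit 0), [], [(nat_lit 3), (nat_lit 50), (nat_lit 289), (nat_lit 75), (nat_lit 9)]⟩,
 ⟨⟨[(nat_lit 60), (nat_lit 120), (nat_lit 160)], [(nat_lit 0), (nat_lit 913), (nat_lit 3885)], [((nat_lit 0), (nat_lit 0), (nat_lit 0)), ((nat_lit 1000), (nat_lit 905), (nat_lit 238)), ((nat_lit 886), (nat_lit 948), (nat_lit 1000))], ((nat_lit 96), (nat_lit 100), (nat_lit 92))⟩, (nat_lit 4778092), (nat_lit 600), (nat_lit 600), (nat_lit 0), (nat_lit 787231), [(nat_lit 3282000000), (nat_lit 7968000000), (nat_lit 11872000000)], [], [(nat_lit 26607071670), (nat_lit 27149696987), (nat_lit 27784587202), (nat_lit 28781377742), (nat_lit 23214852714), (nat_lit 23688153796), (nat_lit 24137262816), (nat_lit 24611262050)], (nat_lit 1271251), (nat_lit 1271251), (nat_lit 1271251), (nat_lit 1271251), (nat_lit 0), (nat_lit 780000), [(nat_lit 780000), (nat_lit 1762501), (nat_lit 1271251)],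 [(nat_lit 12), (nat_lit 59), (nat_lit 428), (nat_lit 200), (nat_lit 11)]⟩,
 ⟨⟨[(nat_lit 140), (nat_lit 180), (nat_lit 200)], [(nat_lit 0), (nat_lit 0), (nat_lit 2835)], [((nat_lit 0), (nat_lit 0), (nat_lit 0)), ((nat_lit 0), (nat_lit 0), (nat_lit 0)), ((nat_lit 363), (nat_lit 1000), (nat_lit 798))], ((nat_lit 0), (nat_lit 0), (nat_lit 0))⟩, (nat_lit 16508), (nat_lit 300), (nat_lit 462), (nat_lit 4686000), (nat_lit 0), [(nat_lit 590520000), (nat_lit 843480000), (nat_lit 984000000)], [], [(nat_lit 3973931096), (nat_lit 3825249857), (nat_lit 3917486256), (nat_lit 3760640066), (nat_lit 3254065261), (nat_lit 3116555463), (nat_lit 3177543447), (nat_lit 3032701872)], (nat_lit 0), (nat_lit 0), (nat_lit 0), (nat_lit 0), (nat_lit 0), (nat_lit 0), [], [(nat_lit 32), (nat_lit 67), (nat_lit 373), (nat_lit 150), (nat_lit 8)]⟩⟩))) (.leaf ⟨(nat_lit 0), (nat_lit 906), (nat_lit 0), (nat_lit 94), (nat_lit 0), (nat_lit 5701), (nat_lit 10315), (nat_lit 1313), (nat_lit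 0), (nat_lit 0), (nat_lit 0), [], Pd.none, Pd.none, (nat_lit 0), (nat_lit 1), (nat_lit 0), (nat_lit 0), (nat_lit 4), (nat_lit 0), [⟨(nat_lit 0), (nat_lit 92), (nat_lit 44), (nat_lit 100), (nat_lit 469521005)⟩], [⟨(nat_lit 1), (nat_lit 94), (nat_lit 44), (nat_lit 100), (nat_lit 400465796)⟩], [], [⟨(nat_lit 0), (nat_lit 100), (nat_lit 99), (nat_lit 25), (nat_lit 287227439)⟩],
 ⟨⟨[(nat_lit 40), (nat_lit 80), (nat_lit 100)], [(nat_lit 0), (nat_lit 2514), (nat_lit 3562)], [((nat_lit 0), (nat_lit 0), (nat_lit 0)), ((nat_lit 1000), (nat_lit 446), (nat_lit 804)), ((nat_lit 1000), (nat_lit 443), (nat_lit 819))], ((nat_lit 44), (nat_lit 100), (nat_lit 84))⟩, (nat_lit 664644), (nat_lit 268), (nat_lit 268), (nat_lit 0), (nat_lit 567973), [(nat_lit 2288962977), (nat_lit 4773465023), (nat_lit 6250000000)], [], [(nat_lit 24706309276), (nat_lit 26383623047), (nat_lit 27478572157), (nat_lit 29217606112), (nat_lit 27548108477), (nat_lit 29254139675), (nat_lit 30110653360),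 (nat_lit 31519713796)], (nat_lit 1271251), (nat_lit 1271251), (nat_lit 1271251), (nat_lit 1271251), (nat_lit 1100000), (nat_lit 2041876), [(nat_lit 490000), (nat_lit 1100000), (nat_lit 1442501)], [(nat_lit 3), (nat_lit 50), (nat_lit 373), (nat_lit 150), (nat_lit 13)]⟩,
 ⟨⟨[(nat_lit 60), (nat_lit 120), (nat_lit 160)], [(nat_lit 0), (nat_lit 0), (nat_lit 3243)], [((nat_lit 0), (nat_lit 0), (nat_lit 0)), ((nat_lit 0), (nat_lit 0), (nat_lit 0)), ((nat_lit 878), (nat_lit 1000), (nat_lit 945))], ((nat_lit 100), (nat_lit 92), (nat_lit 90))⟩, (nat_lit 2687484), (nat_lit 402), (nat_lit 402), (nat_lit 0), (nat_lit 344729), [(nat_lit 3282000000), (nat_lit 7968000000), (nat_lit 11872000000)], [], [(nat_lit 28808624576), (nat_lit 31422171371), (nat_lit 32117796735), (nat_lit 35008424470), (nat_lit 21772985133), (nat_lit 24403835835), (nat_lit 25064528583), (nat_lit 27091440470)], (nat_lit 1271251), (nat_lit 1271251), (nat_lit 1271251), (nat_lit 1271251), (nat_lit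 0), (nat_lit 780000), [(nat_lit 780000), (nat_lit 1762501), (nat_lit 1271251)], [(nat_lit 12), (nat_lit 59), (nat_lit 428), (nat_lit 200), (nat_lit 11)]⟩,
 ⟨⟨[(nat_lit 140), (nat_lit 180), (nat_lit 200)], [(nat_lit 0), (nat_lit 0), (nat_lit 2835)], [((nat_lit 0), (nat_lit 0), (nat_lit 0)), ((nat_lit 0), (nat_lit 0), (nat_lit 0)), ((nat_lit 363), (nat_lit 1000), (nat_lit 798))], ((nat_lit 0), (nat_lit 0), (nat_lit 0))⟩, (nat_lit 25862), (nat_lit 300), (nat_lit 462), (nat_lit 7341407), (nat_lit 0), [(nat_lit 925148000), (nat_lit 1321452000), (nat_lit 1541600000)], [], [(nat_lit 6225731974), (nat_lit 6000193122), (nat_lit 6145707264), (nat_lit 5891917412), (nat_lit 5068052004), (nat_lit 4845318158), (nat_lit 4955881503), (nat_lit 4721407412)], (nat_lit 0), (nat_lit 0), (nat_lit 0), (nat_lit 0), (nat_lit 0), (nat_lit 0), [], [(nat_lit 32), (nat_lit 67), (nat_lit 373), (nat_lit 150), (nat_lit 8)]⟩⟩)) (.spl (nat_lit 0) (nat_lit 390) (.spl (nat_lit 0) (nat_lit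 385) (.leaf ⟨(nat_lit 22), (nat_lit 913), (nat_lit 0), (nat_lit 65), (nat_lit 0), (nat_lit 4218), (nat_lit 6287), (nat_lit 908), (nat_lit 0), (nat_lit 0), (nat_lit 88000), [((nat_lit 385), [((nat_lit 43), (nat_lit 5), (nat_lit 22))])], ⟨(nat_lit 7), false, true, true, (nat_lit 319), (nat_lit 1936), (nat_lit 2237), [(nat_lit 1705125), (nat_lit 1703818), (nat_lit 1750656), (nat_lit 1749823), (nat_lit 1847666), (nat_lit 1843543), (nat_lit 1893214), (nat_lit 1889565)]⟩, ⟨(nat_lit 4), true, false, true, (nat_lit 186), (nat_lit 1936), (nat_lit 2237), [(nat_lit 1351886), (nat_lit 1352066), (nat_lit 1420202), (nat_lit 1421092), (nat_lit 1508679), (nat_lit 1505761), (nat_lit 1577001), (nat_lit 1574794)]⟩, (nat_lit 5301459), (nat_lit 34660220), (nat_lit 22855490), (nat_lit 9484290), (nat_lit 4), (nat_lit 0), [], [⟨(nat_lit 1), (nat_lit 100), (nat_lit 41), (nat_lit 98), (nat_lit 488401645)⟩], [], [⟨(nat_lit 0), (nat_lit 100), (nat_lit 76), (nat_lit 71), (nat_lit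 125535568)⟩],
 ⟨⟨[(nat_lit 40), (nat_lit 80), (nat_lit 100)], [(nat_lit 0), (nat_lit 2514), (nat_lit 3562)], [((nat_lit 0), (nat_lit 0), (nat_lit 0)), ((nat_lit 1000), (nat_lit 446), (nat_lit 804)), ((nat_lit 1000), (nat_lit 443), (nat_lit 819))], ((nat_lit 44), (nat_lit 100), (nat_lit 84))⟩, (nat_lit 897625), (nat_lit 256), (nat_lit 256), (nat_lit 0), (nat_lit 507031), [(nat_lit 1823484009), (nat_lit 3970172930), (nat_lit 5224571200)], [(nat_lit 0), (nat_lit 0), (nat_lit 0)], [(nat_lit 26233381585), (nat_lit 26459272996), (nat_lit 31240909416), (nat_lit 31523526053), (nat_lit 28722236690), (nat_lit 29024024696), (nat_lit 32963911006), (nat_lit 33197002843)], (nat_lit 1271251), (nat_lit 1271251), (nat_lit 1271251), (nat_lit 1271251), (nat_lit 1100000), (nat_lit 2041876), [(nat_lit 490000), (nat_lit 1100000), (nat_lit 1442501)], [(nat_lit 3), (nat_lit 50), (nat_lit 289), (nat_lit 75), (nat_lit 9)]⟩,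
 ⟨⟨[(nat_lit 60), (nat_lit 120), (nat_lit 160)], [(nat_lit 0), (nat_lit 0), (nat_lit 3243)], [((nat_lit 0), (nat_lit 0), (nat_lit 0)), ((nat_lit 0), (nat_lit 0), (nat_lit 0)), ((nat_lit 878), (nat_lit 1000), (nat_lit 945))], ((nat_lit 100), (nat_lit 92), (nat_lit 90))⟩, (nat_lit 1804239), (nat_lit 542), (nat_lit 542), (nat_lit 0), (nat_lit 657388), [(nat_lit 3209796000), (nat_lit 7792704000), (nat_lit 11610816000)], [], [(nat_lit 40207604384), (nat_lit 41249236352), (nat_lit 43791164528), (nat_lit 44670744377), (nat_lit 36860603830), (nat_lit 37769394904), (nat_lit 40038285664), (nat_lit 40816990381)], (nat_lit 1271251), (nat_lit 1271251), (nat_lit 1271251), (nat_lit 1271251), (nat_lit 0), (nat_lit 780000), [(nat_lit 780000), (nat_lit 1762501), (nat_lit 1271251)], [(nat_lit 12), (nat_lit 59), (nat_lit 456), (nat_lit 225), (nat_lit 11)]⟩,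
 ⟨⟨[(nat_lit 140), (nat_lit 180), (nat_lit 200)], [(nat_lit 0), (nat_lit 0), (nat_lit 2835)], [((nat_lit 0), (nat_lit 0), (nat_lit 0)), ((nat_lit 0), (nat_lit 0), (nat_lit 0)), ((nat_lit 363), (nat_lit 1000), (nat_lit 798))], ((nat_lit 0), (nat_lit 0), (nat_lit 0))⟩, (nat_lit 17884), (nat_lit 300), (nat_lit 462), (nat_lit 5076500), (nat_lit 0), [(nat_lit 639730000), (nat_lit 913770000), (nat_lit 1066000000)], [], [(nat_lit 4305024952), (nat_lit 4149086424), (nat_lit 4249709952), (nat_lit 4074196885), (nat_lit 3504427125), (nat_lit 3350390854), (nat_lit 3426881929), (nat_lit 3264726772)], (nat_lit 0), (nat_lit 0), (nat_lit 0), (nat_lit 0), (nat_lit 0), (nat_lit 0), [], [(nat_lit 32), (nat_lit 67), (nat_lit 373), (nat_lit 150), (nat_lit 8)]⟩⟩) (.trX (nat_lit 4) (nat_lit 0) (nat_lit 2) (nat_lit 38) (nat_lit 96) (nat_lit 100) (nat_lit 260) (.leaf ⟨(nat_lit 162), (nat_lit 838), (nat_lit 0), (nat_lit 0), (nat_lit 0), (nat_lit 4360), (nat_lit 7265), (nat_lit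 0), (nat_lit 0), (nat_lit 0), (nat_lit 83600), [((nat_lit 390), [((nat_lit 29), (nat_lit 1), (nat_lit 68)), ((nat_lit 43), (nat_lit 2), (nat_lit 94))])], ⟨(nat_lit 7), false, true, true, (nat_lit 318), (nat_lit 1581), (nat_lit 1937), [(nat_lit 1703818), (nat_lit 1702528), (nat_lit 1749811), (nat_lit 1749129), (nat_lit 1843543), (nat_lit 1839120), (nat_lit 1889565), (nat_lit 1885750)]⟩, ⟨(nat_lit 4), true, false, true, (nat_lit 182), (nat_lit 1581), (nat_lit 1937), [(nat_lit 1352066), (nat_lit 1352103), (nat_lit 1421086), (nat_lit 1422035), (nat_lit 1491789), (nat_lit 1488692), (nat_lit 1560821), (nat_lit 1558637)]⟩, (nat_lit 5276759), (nat_lit 34876839), (nat_lit 22850467), (nat_lit 9272694), (nat_lit 4), (nat_lit 0), [], [⟨(nat_lit 1), (nat_lit 100), (nat_lit 35), (nat_lit 97), (nat_lit 678279343)⟩], [], [⟨(nat_lit 0), (nat_lit 100), (nat_lit 76), (nat_lit 69), (nat_lit 88679497)⟩],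
 ⟨⟨[(nat_lit 40), (nat_lit 60), (nat_lit 80)], [(nat_lit 0), (nat_lit 1803), (nat_lit 2780)], [((nat_lit 0), (nat_lit 0), (nat_lit 0)), ((nat_lit 1000), (nat_lit 417), (nat_lit 754)), ((nat_lit 1000), (nat_lit 413), (nat_lit 764))], ((nat_lit 39), (nat_lit 100), (nat_lit 85))⟩, (nat_lit 292440), (nat_lit 239), (nat_lit 239), (nat_lit 0), (nat_lit 526650), [(nat_lit 1732554473), (nat_lit 2713371428), (nat_lit 3813012800)], [(nat_lit 0), (nat_lit 0), (nat_lit 0)], [(nat_lit 26906768157), (nat_lit 27147090550), (nat_lit 31735808678), (nat_lit 32022725545), (nat_lit 28857249177), (nat_lit 29127115480), (nat_lit 33130051877), (nat_lit 33371231948)], (nat_lit 1271251), (nat_lit 1271251), (nat_lit 1271251), (nat_lit 1271251), (nat_lit 1100000), (nat_lit 1956251), [(nat_lit 490000), (nat_lit 780000), (nat_lit 1100000)], [(nat_lit 2), (nat_lit 44), (nat_lit 203), (nat_lit 0), (nat_lit 6)]⟩,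
 ⟨⟨[(nat_lit 60), (nat_lit 120), (nat_lit 160)], [(nat_lit 0), (nat_lit 0), (nat_lit 3243)], [((nat_lit 0), (nat_lit 0), (nat_lit 0)), ((nat_lit 0), (nat_lit 0), (nat_lit 0)), ((nat_lit 878), (nat_lit 1000), (nat_lit 945))], ((nat_lit 100), (nat_lit 92), (nat_lit 90))⟩, (nat_lit 1386436), (nat_lit 558), (nat_lit 558), (nat_lit 0), (nat_lit 702341), [(nat_lit 2750316000), (nat_lit 6677184000), (nat_lit 9948736000)], [], [(nat_lit 32537504009), (nat_lit 33216716934), (nat_lit 34982282126), (nat_lit 36136292846), (nat_lit 28308166438), (nat_lit 28955800846), (nat_lit 30501210116), (nat_lit 30876488172)], (nat_lit 1271251), (nat_lit 1271251), (nat_lit 1271251), (nat_lit 1271251), (nat_lit 0), (nat_lit 780000), [(nat_lit 780000), (nat_lit 1762501), (nat_lit 1271251)], [(nat_lit 12), (nat_lit 59), (nat_lit 456), (nat_lit 225), (nat_lit 11)]⟩,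
 Rw.none⟩))) (.trX (nat_lit 3) (nat_lit 0) (nat_lit 1) (nat_lit 39) (nat_lit 72) (nat_lit 100) (nat_lit 370) (.trX (nat_lit 4) (nat_lit 0) (nat_lit 2) (nat_lit 31) (nat_lit 98) (nat_lit 100) (nat_lit 250) (.spl (nat_lit 3) (nat_lit 320) (.leaf ⟨(nat_lit 463), (nat_lit 537), (nat_lit 0), (nat_lit 0), (nat_lit 0), (nat_lit 4037), (nat_lit 4889), (nat_lit 0), (nat_lit 0), (nat_lit 0), (nat_lit 115750), [((nat_lit 400), [((nat_lit 29), (nat_lit 0), (nat_lit 463))])], ⟨(nat_lit 7), false, true, false, (nat_lit 300), (nat_lit 0), (nat_lit 1582), [(nat_lit 1702515), (nat_lit 1699984), (nat_lit 1747842), (nat_lit 1748680), (nat_lit 1757165), (nat_lit 1749998), (nat_lit 1803773), (nat_lit 1799976)]⟩, ⟨(nat_lit 4), true, false, true, (nat_lit 178), (nat_lit 0), (nat_lit 1582), [(nat_lit 1352101), (nat_lit 1349997), (nat_lit 1421394), (nat_lit 1424345), (nat_lit 1475027), (nat_lit 1462493), (nat_lit 1544976), (nat_lit 1537497)]⟩, (nat_lit 5217907), (nat_lit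 36334842), (nat_lit 21427882), (nat_lit 9237276), (nat_lit 4), (nat_lit 0), [], [⟨(nat_lit 1), (nat_lit 100), (nat_lit 22), (nat_lit 97), (nat_lit 844812267)⟩], [], [⟨(nat_lit 0), (nat_lit 100), (nat_lit 87), (nat_lit 52), (nat_lit 59235342)⟩],
 ⟨⟨[(nat_lit 40), (nat_lit 60), (nat_lit 80)], [(nat_lit 0), (nat_lit 2136), (nat_lit 3185)], [((nat_lit 0), (nat_lit 0), (nat_lit 0)), ((nat_lit 1000), (nat_lit 343), (nat_lit 808)), ((nat_lit 1000), (nat_lit 338), (nat_lit 820))], ((nat_lit 32), (nat_lit 100), (nat_lit 86))⟩, (nat_lit 252215), (nat_lit 241), (nat_lit 241), (nat_lit 0), (nat_lit 564840), [(nat_lit 1689287735), (nat_lit 2246732381), (nat_lit 3154729200)], [(nat_lit 0), (nat_lit 0), (nat_lit 0)], [(nat_lit 26898677597), (nat_lit 27383950635), (nat_lit 28306433797), (nat_lit 28962686788), (nat_lit 28473048527), (nat_lit 29089977320), (nat_lit 29916872819), (nat_lit 30478238131)], (nat_lit 1271251), (nat_lit 1271251), (nat_lit 1271251), (nat_lit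 1271251), (nat_lit 1100000), (nat_lit 1870626), [(nat_lit 490000), (nat_lit 780000), (nat_lit 1100000)], [(nat_lit 2), (nat_lit 44), (nat_lit 203), (nat_lit 0), (nat_lit 6)]⟩,
 ⟨⟨[(nat_lit 60), (nat_lit 120), (nat_lit 160)], [(nat_lit 0), (nat_lit 0), (nat_lit 3243)], [((nat_lit 0), (nat_lit 0), (nat_lit 0)), ((nat_lit 0), (nat_lit 0), (nat_lit 0)), ((nat_lit 878), (nat_lit 1000), (nat_lit 945))], ((nat_lit 100), (nat_lit 92), (nat_lit 90))⟩, (nat_lit 859827), (nat_lit 597), (nat_lit 597), (nat_lit 0), (nat_lit 807548), [(nat_lit 1762434000), (nat_lit 4278816000), (nat_lit 6375264000)], [], [(nat_lit 20212731657), (nat_lit 20558718791), (nat_lit 20558718791), (nat_lit 21173376867), (nat_lit 17241291124), (nat_lit 17648131116), (nat_lit 17648131116), (nat_lit 17992759588)], (nat_lit 1271251), (nat_lit 1271251), (nat_lit 1271251), (nat_lit 1271251), (nat_lit 0), (nat_lit 780000), [(nat_lit 780000), (nat_lit 1762501), (nat_lit 1271251)], [(nat_lit 12),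 (nat_lit 59), (nat_lit 428), (nat_lit 200), (nat_lit 10)]⟩,
 Rw.none⟩) (.trZ (nat_lit 3) (nat_lit 4) (nat_lit 5) (nat_lit 100) (nat_lit 82) (nat_lit 44) (nat_lit 10) (.leaf ⟨(nat_lit 312), (nat_lit 688), (nat_lit 0), (nat_lit 0), (nat_lit 0), (nat_lit 3922), (nat_lit 5967), (nat_lit 0), (nat_lit 0), (nat_lit 0), (nat_lit 124800), [((nat_lit 400), [((nat_lit 29), (nat_lit 1), (nat_lit 312))])], ⟨(nat_lit 8), false, true, true, (nat_lit 324), (nat_lit 0), (nat_lit 1582), [(nat_lit 1757165), (nat_lit 1749998), (nat_lit 1803773), (nat_lit 1799976), (nat_lit 1825457), (nat_lit 1812495), (nat_lit 1872089), (nat_lit 1862497)]⟩, ⟨(nat_lit 4), true, false, true, (nat_lit 178), (nat_lit 0), (nat_lit 1582), [(nat_lit 1352101), (nat_lit 1349997), (nat_lit 1421394), (nat_lit 1424345), (nat_lit 1475027), (nat_lit 1462493), (nat_lit 1544976), (nat_lit 1537497)]⟩, (nat_lit 5253738), (nat_lit 34628886), (nat_lit 23460130), (nat_lit 8910984), (nat_lit 4), (nat_lit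 0), [⟨(nat_lit 1), (nat_lit 85), (nat_lit 26), (nat_lit 100), (nat_lit 241765227)⟩], [⟨(nat_lit 1), (nat_lit 100), (nat_lit 22), (nat_lit 97), (nat_lit 928958469)⟩], [], [⟨(nat_lit 0), (nat_lit 100), (nat_lit 69), (nat_lit 74), (nat_lit 74978345)⟩],
 ⟨⟨[(nat_lit 40), (nat_lit 60), (nat_lit 80)], [(nat_lit 0), (nat_lit 2136), (nat_lit 3185)], [((nat_lit 0), (nat_lit 0), (nat_lit 0)), ((nat_lit 1000), (nat_lit 343), (nat_lit 808)), ((nat_lit 1000), (nat_lit 338), (nat_lit 820))], ((nat_lit 32), (nat_lit 100), (nat_lit 86))⟩, (nat_lit 298584), (nat_lit 251), (nat_lit 251), (nat_lit 0), (nat_lit 564840), [(nat_lit 1672825606), (nat_lit 2361600022), (nat_lit 3286995200)], [(nat_lit 0), (nat_lit 0), (nat_lit 0)], [(nat_lit 28374847565), (nat_lit 28817703528), (nat_lit 30823998408), (nat_lit 31387933718), (nat_lit 29795150350), (nat_lit 30349327386), (nat_lit 32085890856), (nat_lit 32571475795)], (nat_lit 1271251), (nat_lit 1271251), (nat_lit 1271251),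 (nat_lit 1271251), (nat_lit 1100000), (nat_lit 1870626), [(nat_lit 490000), (nat_lit 780000), (nat_lit 1100000)], [(nat_lit 2), (nat_lit 44), (nat_lit 203), (nat_lit 0), (nat_lit 6)]⟩,
 ⟨⟨[(nat_lit 60), (nat_lit 120), (nat_lit 160)], [(nat_lit 0), (nat_lit 0), (nat_lit 3243)], [((nat_lit 0), (nat_lit 0), (nat_lit 0)), ((nat_lit 0), (nat_lit 0), (nat_lit 0)), ((nat_lit 878), (nat_lit 1000), (nat_lit 945))], ((nat_lit 100), (nat_lit 92), (nat_lit 90))⟩, (nat_lit 1101536), (nat_lit 585), (nat_lit 585), (nat_lit 0), (nat_lit 807548), [(nat_lit 2258016000), (nat_lit 5481984000), (nat_lit 8167936000)], [], [(nat_lit 26900161308), (nat_lit 27424792762), (nat_lit 28097961192), (nat_lit 28744101348), (nat_lit 23763389902), (nat_lit 24208982198), (nat_lit 24820853612), (nat_lit 25151805916)], (nat_lit 1271251), (nat_lit 1271251), (nat_lit 1271251), (nat_lit 1271251), (nat_lit 54688), (nat_lit 780000), [(nat_lit 780000), (nat_lit 1762501), (nat_lit 1271251)],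 [(nat_lit 12), (nat_lit 59), (nat_lit 345), (nat_lit 125), (nat_lit 8)]⟩,
 Rw.none⟩))))))) (.leaf ⟨(nat_lit 0), (nat_lit 0), (nat_lit 0), (nat_lit 1000), (nat_lit 0), (nat_lit 4773), (nat_lit 8124), (nat_lit 29919), (nat_lit 0), (nat_lit 0), (nat_lit 0), [], Pd.none, Pd.none, (nat_lit 0), (nat_lit 1), (nat_lit 0), (nat_lit 0), (nat_lit 0), (nat_lit 0), [⟨(nat_lit 0), (nat_lit 88), (nat_lit 32), (nat_lit 100), (nat_lit 685859994)⟩], [⟨(nat_lit 1), (nat_lit 100), (nat_lit 31), (nat_lit 97), (nat_lit 1359753029)⟩], [], [],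
 ⟨⟨[(nat_lit 40), (nat_lit 80), (nat_lit 100)], [(nat_lit 0), (nat_lit 2514), (nat_lit 3562)], [((nat_lit 0), (nat_lit 0), (nat_lit 0)), ((nat_lit 1000), (nat_lit 446), (nat_lit 804)), ((nat_lit 1000), (nat_lit 443), (nat_lit 819))], ((nat_lit 44), (nat_lit 100), (nat_lit 84))⟩, (nat_lit 1065981), (nat_lit 276), (nat_lit 276), (nat_lit 0), (nat_lit 567973), [(nat_lit 2032000046), (nat_lit 4688000112), (nat_lit 6250000000)], [], [(nat_lit 24160938196), (nat_lit 25209243986), (nat_lit 32053798352), (nat_lit 33251493854), (nat_lit 26721829007), (nat_lit 28262682397), (nat_lit 33676751237), (nat_lit 34657284505)], (nat_lit 1271251), (nat_lit 1271251), (nat_lit 1271251), (nat_lit 1271251), (nat_lit 1100000), (nat_lit 2041876), [(nat_lit 490000), (nat_lit 1100000), (nat_lit 1442501)], [(nat_lit 3), (nat_lit 50), (nat_lit 401), (nat_lit 175), (nat_lit 14)]⟩,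
 ⟨⟨[(nat_lit 60), (nat_lit 120), (nat_lit 160)], [(nat_lit 0), (nat_lit 0), (nat_lit 3243)], [((nat_lit 0), (nat_lit 0), (nat_lit 0)), ((nat_lit 0), (nat_lit 0), (nat_lit 0)), ((nat_lit 878), (nat_lit 1000), (nat_lit 945))], ((nat_lit 100), (nat_lit 92), (nat_lit 90))⟩, (nat_lit 1755925), (nat_lit 596), (nat_lit 596), (nat_lit 0), (nat_lit 958114), [(nat_lit 3282000000), (nat_lit 7968000000), (nat_lit 11872000000)], [], [(nat_lit 34848090669), (nat_lit 35872570470), (nat_lit 38477747425), (nat_lit 38943593744), (nat_lit 38340599769), (nat_lit 37772008835), (nat_lit 38401545686), (nat_lit 39338564731)], (nat_lit 1271251), (nat_lit 1271251), (nat_lit 1271251), (nat_lit 1271251), (nat_lit 780000), (nat_lit 2908751), [(nat_lit 780000), (nat_lit 1762501), (nat_lit 1271251)], [(nat_lit 12), (nat_lit 59), (nat_lit 538), (nat_lit 300), (nat_lit 13)]⟩,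
 ⟨⟨[(nat_lit 140), (nat_lit 180), (nat_lit 200)], [(nat_lit 0), (nat_lit 0), (nat_lit 2835)], [((nat_lit 0), (nat_lit 0), (nat_lit 0)), ((nat_lit 0), (nat_lit 0), (nat_lit 0)), ((nat_lit 363), (nat_lit 1000), (nat_lit 798))], ((nat_lit 0), (nat_lit 0), (nat_lit 0))⟩, (nat_lit 6654166), (nat_lit 253), (nat_lit 253), (nat_lit 0), (nat_lit 0), [(nat_lit 9842000000), (nat_lit 14058000000), (nat_lit 16400000000)], [], [(nat_lit 20998019212), (nat_lit 20239881143), (nat_lit 30227021847), (nat_lit 27642244428), (nat_lit 45548440821), (nat_lit 42792175629), (nat_lit 52896130648), (nat_lit 49117318755)], (nat_lit 0), (nat_lit 0), (nat_lit 0), (nat_lit 0), (nat_lit 0), (nat_lit 0), [], [(nat_lit 32), (nat_lit 67), (nat_lit 456), (nat_lit 225), (nat_lit 10)]⟩⟩))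
noncomputable def c14_82 : Tr Lf :=
 (.spl (nat_lit 5) (nat_lit 200) (.spl (nat_lit 1) (nat_lit 300) (.leaf ⟨(nat_lit 768), (nat_lit 232), (nat_lit 0), (nat_lit 0), (nat_lit 0), (nat_lit 3806), (nat_lit 2259), (nat_lit 0), (nat_lit 0), (nat_lit 0), (nat_lit 331200), [((nat_lit 400), [((nat_lit 29), (nat_lit 1), (nat_lit 648)), ((nat_lit 43), (nat_lit 2), (nat_lit 120))])], ⟨(nat_lit 7), false, true, false, (nat_lit 261), (nat_lit 0), (nat_lit 2237), [(nat_lit 1572676), (nat_lit 1583333), (nat_lit 1594524), (nat_lit 1607407), (nat_lit 1705063), (nat_lit 1699935), (nat_lit 1726954), (nat_lit 1724051)]⟩, ⟨(nat_lit 4), false, false, true, (nat_lit 174), (nat_lit 0), (nat_lit 2237), [(nat_lit 1351885), (nat_lit 1349998), (nat_lit 1397434), (nat_lit 1399999), (nat_lit 1480164), (nat_lit 1462492), (nat_lit 1525715), (nat_lit 1512494)]⟩, (nat_lit 5059994), (nat_lit 39561371), (nat_lit 18007068), (nat_lit 9431561), (nat_lit 4), (nat_lit 0), [⟨(nat_lit 0),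 (nat_lit 90), (nat_lit 32), (nat_lit 100), (nat_lit 22848393)⟩], [⟨(nat_lit 1), (nat_lit 100), (nat_lit 31), (nat_lit 95), (nat_lit 470435845)⟩, ⟨(nat_lit 1), (nat_lit 99), (nat_lit 44), (nat_lit 100), (nat_lit 47770863)⟩], [⟨(nat_lit 0), (nat_lit 100), (nat_lit 88), (nat_lit 32), (nat_lit 3395873)⟩], [],
 ⟨⟨[(nat_lit 40), (nat_lit 80), (nat_lit 100)], [(nat_lit 0), (nat_lit 2514), (nat_lit 3562)], [((nat_lit 0), (nat_lit 0), (nat_lit 0)), ((nat_lit 1000), (nat_lit 446), (nat_lit 804)), ((nat_lit 1000), (nat_lit 443), (nat_lit 819))], ((nat_lit 44), (nat_lit 100), (nat_lit 84))⟩, (nat_lit 2706), (nat_lit 219), (nat_lit 219), (nat_lit 0), (nat_lit 416368), [(nat_lit 1489302442), (nat_lit 1051020954), (nat_lit 1251520000)], [(nat_lit 0), (nat_lit 0), (nat_lit 0)], [(nat_lit 23168868955), (nat_lit 24263191078), (nat_lit 25655514193), (nat_lit 27061641872), (nat_lit 25033850162), (nat_lit 26463797770), (nat_lit 27649264806), (nat_lit 28849479351)], (nat_lit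 1271251), (nat_lit 1271251), (nat_lit 1271251), (nat_lit 1271251), (nat_lit 1100000), (nat_lit 1870626), [(nat_lit 490000), (nat_lit 1100000), (nat_lit 1442501)], [(nat_lit 3), (nat_lit 50), (nat_lit 373), (nat_lit 150), (nat_lit 13)]⟩,
 ⟨⟨[(nat_lit 60), (nat_lit 120), (nat_lit 160)], [(nat_lit 0), (nat_lit 0), (nat_lit 3243)], [((nat_lit 0), (nat_lit 0), (nat_lit 0)), ((nat_lit 0), (nat_lit 0), (nat_lit 0)), ((nat_lit 878), (nat_lit 1000), (nat_lit 945))], ((nat_lit 100), (nat_lit 92), (nat_lit 90))⟩, (nat_lit 421686), (nat_lit 643), (nat_lit 643), (nat_lit 0), (nat_lit 799225), [(nat_lit 761424000), (nat_lit 1848576000), (nat_lit 2754304000)], [], [(nat_lit 7976582095), (nat_lit 8082133015), (nat_lit 8210999028), (nat_lit 8319291323), (nat_lit 6471583991), (nat_lit 6571624621), (nat_lit 6607302811), (nat_lit 6677301998)], (nat_lit 1271251), (nat_lit 1271251), (nat_lit 1271251), (nat_lit 1271251), (nat_lit 0), (nat_lit 1412501), [(nat_lit 780000),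 (nat_lit 1762501), (nat_lit 1271251)], [(nat_lit 12), (nat_lit 59), (nat_lit 428), (nat_lit 200), (nat_lit 11)]⟩,
 Rw.none⟩) (.trZ (nat_lit 0) (nat_lit 1) (nat_lit 3) (nat_lit 87) (nat_lit 44) (nat_lit 100) (nat_lit 210) (.leaf ⟨(nat_lit 0), (nat_lit 1000), (nat_lit 0), (nat_lit 0), (nat_lit 0), (nat_lit 4631), (nat_lit 7414), (nat_lit 0), (nat_lit 0), (nat_lit 0), (nat_lit 0), [], Pd.none, Pd.none, (nat_lit 0), (nat_lit 1), (nat_lit 0), (nat_lit 0), (nat_lit 4), (nat_lit 0), [⟨(nat_lit 0), (nat_lit 87), (nat_lit 32), (nat_lit 100), (nat_lit 647262786)⟩], [⟨(nat_lit 1), (nat_lit 100), (nat_lit 31), (nat_lit 95), (nat_lit 1006033844)⟩], [], [],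
 ⟨⟨[(nat_lit 40), (nat_lit 80), (nat_lit 100)], [(nat_lit 0), (nat_lit 2514), (nat_lit 3562)], [((nat_lit 0), (nat_lit 0), (nat_lit 0)), ((nat_lit 1000), (nat_lit 446), (nat_lit 804)), ((nat_lit 1000), (nat_lit 443), (nat_lit 819))], ((nat_lit 44), (nat_lit 100), (nat_lit 84))⟩, (nat_lit 997743), (nat_lit 237), (nat_lit 237), (nat_lit 0), (nat_lit 478410), [(nat_lit 2032000033), (nat_lit 4688000067), (nat_lit 6250000000)], [], [(nat_lit 24913778333), (nat_lit 25982504160), (nat_lit 26680392569), (nat_lit 28000254272), (nat_lit 26502256681), (nat_lit 27689235995), (nat_lit 28388032403), (nat_lit 29708400670)], (nat_lit 1271251), (nat_lit 1271251), (nat_lit 1271251), (nat_lit 1271251), (nat_lit 1100000), (nat_lit 1870626), [(nat_lit 490000), (nat_lit 1100000), (nat_lit 1442501)], [(nat_lit 3), (nat_lit 50), (nat_lit 289), (nat_lit 75), (nat_lit 9)]⟩,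
 ⟨⟨[(nat_lit 60), (nat_lit 120), (nat_lit 160)], [(nat_lit 0), (nat_lit 913), (nat_lit 3885)], [((nat_lit 0), (nat_lit 0), (nat_lit 0)), ((nat_lit 1000), (nat_lit 905), (nat_lit 238)), ((nat_lit 886), (nat_lit 948), (nat_lit 1000))], ((nat_lit 96), (nat_lit 100), (nat_lit 92))⟩, (nat_lit 4372054), (nat_lit 600), (nat_lit 600), (nat_lit 0), (nat_lit 787231), [(nat_lit 3282000000), (nat_lit 7968000000), (nat_lit 11872000000)], [], [(nat_lit 26077245978), (nat_lit 26699526101), (nat_lit 27940321451), (nat_lit 29928373132), (nat_lit 21763530553), (nat_lit 22364568353), (nat_lit 23151119696), (nat_lit 24042298322)], (nat_lit 1271251), (nat_lit 1271251), (nat_lit 1271251), (nat_lit 1271251), (nat_lit 0), (nat_lit 1412501), [(nat_lit 780000), (nat_lit 1762501), (nat_lit 1271251)], [(nat_lit 12), (nat_lit 59), (nat_lit 428), (nat_lit 200), (nat_lit 11)]⟩,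
 Rw.none⟩))) (.stt (nat_lit 1) (.spl (nat_lit 1) (nat_lit 300) (.spl (nat_lit 2) (nat_lit 140) (.trX (nat_lit 4) (nat_lit 0) (nat_lit 2) (nat_lit 44) (nat_lit 100) (nat_lit 96) (nat_lit 230) (.trX (nat_lit 5) (nat_lit 1) (nat_lit 2) (nat_lit 96) (nat_lit 69) (nat_lit 100) (nat_lit 360) (.leaf ⟨(nat_lit 826), (nat_lit 174), (nat_lit 0), (nat_lit 0), (nat_lit 0), (nat_lit 3695), (nat_lit 1597), (nat_lit 0), (nat_lit 0), (nat_lit 0), (nat_lit 206500), [((nat_lit 400), [((nat_lit 29), (nat_lit 0), (nat_lit 826))])], ⟨(nat_lit 7), false, true, false, (nat_lit 261), (nat_lit 0), (nat_lit 2237), [(nat_lit 1572676), (nat_lit 1583333), (nat_lit 1594524), (nat_lit 1607407), (nat_lit 1705063), (nat_lit 1699935), (nat_lit 1726954), (nat_lit 1724051)]⟩, ⟨(nat_lit 4), false, false, true, (nat_lit 164), (nat_lit 0), (nat_lit 2237), [(nat_lit 1351885), (nat_lit 1349998), (nat_lit 1374660), (nat_lit 1374999), (nat_lit 1451658), (nat_lit 1437494), (nat_lit 1474433),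 (nat_lit 1462494)]⟩, (nat_lit 4973859), (nat_lit 40138807), (nat_lit 18190015), (nat_lit 8671178), (nat_lit 5), (nat_lit 0), [], [⟨(nat_lit 1), (nat_lit 100), (nat_lit 31), (nat_lit 94), (nat_lit 277394474)⟩, ⟨(nat_lit 1), (nat_lit 100), (nat_lit 44), (nat_lit 96), (nat_lit 129283895)⟩], [⟨(nat_lit 1), (nat_lit 78), (nat_lit 95), (nat_lit 100), (nat_lit 61422806)⟩], [],
 ⟨⟨[(nat_lit 40), (nat_lit 80), (nat_lit 100)], [(nat_lit 0), (nat_lit 2514), (nat_lit 3562)], [((nat_lit 0), (nat_lit 0), (nat_lit 0)), ((nat_lit 1000), (nat_lit 446), (nat_lit 804)), ((nat_lit 1000), (nat_lit 443), (nat_lit 819))], ((nat_lit 44), (nat_lit 100), (nat_lit 84))⟩, (nat_lit 0), (nat_lit 72), (nat_lit 72), (nat_lit 0), (nat_lit 0), [(nat_lit 1604055236), (nat_lit 1952618431), (nat_lit 2563066400)], [(nat_lit 0), (nat_lit 0), (nat_lit 0)], [(nat_lit 22915803450), (nat_lit 24283788544), (nat_lit 25649347121), (nat_lit 26935355840), (nat_lit 24544280283), (nat_lit 25792634062),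 (nat_lit 27001161421), (nat_lit 28231447587)], (nat_lit 0), (nat_lit 0), (nat_lit 0), (nat_lit 0), (nat_lit 0), (nat_lit 0), [], [(nat_lit 3), (nat_lit 50), (nat_lit 373), (nat_lit 150), (nat_lit 13)]⟩,
 ⟨⟨[(nat_lit 60), (nat_lit 120), (nat_lit 160)], [(nat_lit 0), (nat_lit 0), (nat_lit 3243)], [((nat_lit 0), (nat_lit 0), (nat_lit 0)), ((nat_lit 0), (nat_lit 0), (nat_lit 0)), ((nat_lit 878), (nat_lit 1000), (nat_lit 945))], ((nat_lit 100), (nat_lit 92), (nat_lit 90))⟩, (nat_lit 289150), (nat_lit 503), (nat_lit 503), (nat_lit 0), (nat_lit 799225), [(nat_lit 571068000), (nat_lit 1386432000), (nat_lit 2065728000)], [], [(nat_lit 4959355168), (nat_lit 5048530804), (nat_lit 5106270861), (nat_lit 5170973610), (nat_lit 5514202919), (nat_lit 5578894766), (nat_lit 5654735532), (nat_lit 5740784073)], (nat_lit 1271251), (nat_lit 1271251), (nat_lit 1271251), (nat_lit 1271251), (nat_lit 1271251), (nat_lit 1271251), [(nat_lit 780000), (nat_lit 1762501), (nat_lit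 1271251)], [(nat_lit 12), (nat_lit 59), (nat_lit 483), (nat_lit 250), (nat_lit 11)]⟩,
 Rw.none⟩))) (.leaf ⟨(nat_lit 790), (nat_lit 176), (nat_lit 0), (nat_lit 34), (nat_lit 0), (nat_lit 3628), (nat_lit 1895), (nat_lit 364), (nat_lit 0), (nat_lit 0), (nat_lit 236050), [((nat_lit 400), [((nat_lit 29), (nat_lit 0), (nat_lit 533)), ((nat_lit 29), (nat_lit 1), (nat_lit 257))])], ⟨(nat_lit 7), false, true, false, (nat_lit 261), (nat_lit 0), (nat_lit 2237), [(nat_lit 1572676), (nat_lit 1583333), (nat_lit 1594524), (nat_lit 1607407), (nat_lit 1705063), (nat_lit 1699935), (nat_lit 1726954), (nat_lit 1724051)]⟩, ⟨(nat_lit 4), false, false, true, (nat_lit 179), (nat_lit 0), (nat_lit 2237), [(nat_lit 1374660), (nat_lit 1374999), (nat_lit 1397434), (nat_lit 1399999), (nat_lit 1502940), (nat_lit 1487494), (nat_lit 1525715), (nat_lit 1512494)]⟩, (nat_lit 5098671), (nat_lit 39287048), (nat_lit 17918655), (nat_lit 9794297), (nat_lit 5), (nat_lit 0), [], [⟨(nat_lit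 1), (nat_lit 100), (nat_lit 31), (nat_lit 97), (nat_lit 446645274)⟩], [⟨(nat_lit 1), (nat_lit 68), (nat_lit 92), (nat_lit 100), (nat_lit 46696788)⟩], [],
 ⟨⟨[(nat_lit 40), (nat_lit 80), (nat_lit 100)], [(nat_lit 0), (nat_lit 2514), (nat_lit 3562)], [((nat_lit 0), (nat_lit 0), (nat_lit 0)), ((nat_lit 1000), (nat_lit 446), (nat_lit 804)), ((nat_lit 1000), (nat_lit 443), (nat_lit 819))], ((nat_lit 44), (nat_lit 100), (nat_lit 84))⟩, (nat_lit 0), (nat_lit 72), (nat_lit 72), (nat_lit 0), (nat_lit 0), [(nat_lit 1569743201), (nat_lit 1768884401), (nat_lit 2288809200)], [(nat_lit 0), (nat_lit 0), (nat_lit 0)], [(nat_lit 22775734765), (nat_lit 24114658671), (nat_lit 25485930834), (nat_lit 26859129136), (nat_lit 24980761984), (nat_lit 26283326318), (nat_lit 27489870100), (nat_lit 28664160569)], (nat_lit 0), (nat_lit 0), (nat_lit 0), (nat_lit 0), (nat_lit 0), (nat_lit 0), [], [(nat_lit 3), (nat_lit 50), (nat_lit 373), (nat_lit 150), (nat_lit 13)]⟩,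
 ⟨⟨[(nat_lit 60), (nat_lit 120), (nat_lit 160)], [(nat_lit 0), (nat_lit 0), (nat_lit 3243)], [((nat_lit 0), (nat_lit 0), (nat_lit 0)), ((nat_lit 0), (nat_lit 0), (nat_lit 0)), ((nat_lit 878), (nat_lit 1000), (nat_lit 945))], ((nat_lit 100), (nat_lit 92), (nat_lit 90))⟩, (nat_lit 339035), (nat_lit 425), (nat_lit 425), (nat_lit 0), (nat_lit 694431), [(nat_lit 689220000), (nat_lit 1673280000), (nat_lit 2493120000)], [], [(nat_lit 6113000504), (nat_lit 6220312848), (nat_lit 6293480100), (nat_lit 6371670075), (nat_lit 6833706701), (nat_lit 6906385546), (nat_lit 6983060329), (nat_lit 7080228134)], (nat_lit 1271251), (nat_lit 1271251), (nat_lit 1271251), (nat_lit 1271251), (nat_lit 1271251), (nat_lit 1271251), [(nat_lit 780000), (nat_lit 1762501), (nat_lit 1271251)], [(nat_lit 12), (nat_lit 59), (nat_lit 483), (nat_lit 250), (nat_lit 11)]⟩,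
 ⟨⟨[(nat_lit 140), (nat_lit 180), (nat_lit 200)], [(nat_lit 0), (nat_lit 608), (nat_lit 3317)], [((nat_lit 0), (nat_lit 0), (nat_lit 0)), ((nat_lit 913), (nat_lit 1000), (nat_lit 217)), ((nat_lit 385), (nat_lit 1000), (nat_lit 814))], ((nat_lit 0), (nat_lit 0), (nat_lit 0))⟩, (nat_lit 78513), (nat_lit 300), (nat_lit 2243), (nat_lit 2390201), (nat_lit 3996602), [(nat_lit 334628000), (nat_lit 477972000), (nat_lit 557600000)], [], [(nat_lit 1977766510), (nat_lit 1948927404), (nat_lit 1880597451), (nat_lit 1851695819), (nat_lit 1869647588), (nat_lit 1839838460), (nat_lit 1772729528), (nat_lit 1742834815)], (nat_lit 936250), (nat_lit 1100000), (nat_lit 1100000), (nat_lit 1870626), (nat_lit 1271251), (nat_lit 1271251), [(nat_lit 1977501), (nat_lit 1271251), (nat_lit 1271251)], [(nat_lit 32), (nat_lit 67), (nat_lit 659), (nat_lit 200), (nat_lit 13)]⟩⟩)) (.trZ (nat_lit 0) (nat_lit 1) (nat_lit 3) (nat_lit 87) (nat_lit 44) (nat_lit 100) (nat_lit 210) (.trX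 (nat_lit 5) (nat_lit 1) (nat_lit 2) (nat_lit 88) (nat_lit 68) (nat_lit 100) (nat_lit 350) (.spl (nat_lit 6) (nat_lit 68) (.leaf ⟨(nat_lit 559), (nat_lit 441), (nat_lit 0), (nat_lit 0), (nat_lit 0), (nat_lit 3618), (nat_lit 2886), (nat_lit 0), (nat_lit 0), (nat_lit 0), (nat_lit 267800), [((nat_lit 400), [((nat_lit 28), (nat_lit 1), (nat_lit 338)), ((nat_lit 43), (nat_lit 2), (nat_lit 221))])], ⟨(nat_lit 7), false, true, false, (nat_lit 275), (nat_lit 0), (nat_lit 2237), [(nat_lit 1623954), (nat_lit 1633328), (nat_lit 1645800), (nat_lit 1657401), (nat_lit 1726954), (nat_lit 1724051), (nat_lit 1748802), (nat_lit 1748125)]⟩, ⟨(nat_lit 4), false, false, true, (nat_lit 174), (nat_lit 0), (nat_lit 2237), [(nat_lit 1351885), (nat_lit 1349998), (nat_lit 1397434), (nat_lit 1399999), (nat_lit 1480164), (nat_lit 1462492), (nat_lit 1525715), (nat_lit 1512494)]⟩, (nat_lit 5115599), (nat_lit 38432876), (nat_lit 19319175), (nat_lit 9247949), (nat_lit 5), (nat_lit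 0), [⟨(nat_lit 0), (nat_lit 87), (nat_lit 32), (nat_lit 100), (nat_lit 104685400)⟩, ⟨(nat_lit 0), (nat_lit 87), (nat_lit 44), (nat_lit 100), (nat_lit 31509424)⟩], [⟨(nat_lit 1), (nat_lit 99), (nat_lit 44), (nat_lit 100), (nat_lit 447518416)⟩], [⟨(nat_lit 1), (nat_lit 68), (nat_lit 88), (nat_lit 100), (nat_lit 169206106)⟩], [],
 ⟨⟨[(nat_lit 40), (nat_lit 60), (nat_lit 80)], [(nat_lit 0), (nat_lit 1539), (nat_lit 2453)], [((nat_lit 0), (nat_lit 0), (nat_lit 0)), ((nat_lit 1000), (nat_lit 478), (nat_lit 704)), ((nat_lit 1000), (nat_lit 474), (nat_lit 714))], ((nat_lit 45), (nat_lit 100), (nat_lit 78))⟩, (nat_lit 0), (nat_lit 62), (nat_lit 62), (nat_lit 0), (nat_lit 0), [(nat_lit 1572127763), (nat_lit 1567484637), (nat_lit 1830984800)], [(nat_lit 0), (nat_lit 0), (nat_lit 0)], [(nat_lit 23345101945), (nat_lit 24636845773), (nat_lit 25550163456), (nat_lit 26847752016), (nat_lit 25464727490), (nat_lit 26683490151), (nat_lit 27480915341), (nat_lit 28653749402)],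 (nat_lit 0), (nat_lit 0), (nat_lit 0), (nat_lit 0), (nat_lit 0), (nat_lit 0), [], [(nat_lit 2), (nat_lit 44), (nat_lit 203), (nat_lit 0), (nat_lit 7)]⟩,
 ⟨⟨[(nat_lit 60), (nat_lit 100), (nat_lit 140)], [(nat_lit 0), (nat_lit 609), (nat_lit 2558)], [((nat_lit 0), (nat_lit 0), (nat_lit 0)), ((nat_lit 1000), (nat_lit 905), (nat_lit 238)), ((nat_lit 1000), (nat_lit 904), (nat_lit 760))], ((nat_lit 91), (nat_lit 100), (nat_lit 79))⟩, (nat_lit 1052301), (nat_lit 430), (nat_lit 430), (nat_lit 0), (nat_lit 783008), [(nat_lit 1447362000), (nat_lit 2756250000), (nat_lit 4340322000)], [], [(nat_lit 11257856984), (nat_lit 11540246586), (nat_lit 11860673689), (nat_lit 12096594213), (nat_lit 12783242352), (nat_lit 13006974065), (nat_lit 13222996173), (nat_lit 13623878584)], (nat_lit 1271251), (nat_lit 1271251), (nat_lit 1271251), (nat_lit 1271251), (nat_lit 1271251), (nat_lit 1271251), [(nat_lit 780000), (nat_lit 1435001), (nat_lit 1271251)], [(nat_lit 11), (nat_lit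 55), (nat_lit 401), (nat_lit 175), (nat_lit 10)]⟩,
 Rw.none⟩) (.leaf ⟨(nat_lit 275), (nat_lit 725), (nat_lit 0), (nat_lit 0), (nat_lit 0), (nat_lit 5110), (nat_lit 5594), (nat_lit 0), (nat_lit 0), (nat_lit 0), (nat_lit 68750), [((nat_lit 400), [((nat_lit 29), (nat_lit 0), (nat_lit 275))])], ⟨(nat_lit 7), false, true, false, (nat_lit 275), (nat_lit 0), (nat_lit 2237), [(nat_lit 1623954), (nat_lit 1633328), (nat_lit 1645800), (nat_lit 1657401), (nat_lit 1726954), (nat_lit 1724051), (nat_lit 1748802), (nat_lit 1748125)]⟩, ⟨(nat_lit 4), false, false, true, (nat_lit 174), (nat_lit 0), (nat_lit 2237), [(nat_lit 1351885), (nat_lit 1349998), (nat_lit 1397434), (nat_lit 1399999), (nat_lit 1480164), (nat_lit 1462492), (nat_lit 1525715), (nat_lit 1512494)]⟩, (nat_lit 5115599), (nat_lit 38432876), (nat_lit 19319175), (nat_lit 9247949), (nat_lit 5), (nat_lit 0), [⟨(nat_lit 0), (nat_lit 87), (nat_lit 32), (nat_lit 100), (nat_lit 423471972)⟩], [⟨(nat_lit 1), (nat_lit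 100), (nat_lit 31), (nat_lit 95), (nat_lit 753225790)⟩, ⟨(nat_lit 1), (nat_lit 99), (nat_lit 44), (nat_lit 100), (nat_lit 37702681)⟩], [⟨(nat_lit 1), (nat_lit 68), (nat_lit 88), (nat_lit 100), (nat_lit 289630137)⟩], [],
 ⟨⟨[(nat_lit 40), (nat_lit 80), (nat_lit 100)], [(nat_lit 0), (nat_lit 2514), (nat_lit 3562)], [((nat_lit 0), (nat_lit 0), (nat_lit 0)), ((nat_lit 1000), (nat_lit 446), (nat_lit 804)), ((nat_lit 1000), (nat_lit 443), (nat_lit 819))], ((nat_lit 44), (nat_lit 100), (nat_lit 84))⟩, (nat_lit 0), (nat_lit 72), (nat_lit 72), (nat_lit 0), (nat_lit 0), [(nat_lit 2069955924), (nat_lit 3777310045), (nat_lit 5022510000)], [(nat_lit 0), (nat_lit 0), (nat_lit 0)], [(nat_lit 24621553444), (nat_lit 26246051380), (nat_lit 27061484165), (nat_lit 28545218320), (nat_lit 26791904788), (nat_lit 28164805846), (nat_lit 28816965347), (nat_lit 30207095593)], (nat_lit 0), (nat_lit 0), (nat_lit 0), (nat_lit 0), (nat_lit 0), (nat_lit 0), [], [(nat_lit 3), (nat_lit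 50), (nat_lit 289), (nat_lit 75), (nat_lit 9)]⟩,
 ⟨⟨[(nat_lit 60), (nat_lit 120), (nat_lit 160)], [(nat_lit 0), (nat_lit 913), (nat_lit 3885)], [((nat_lit 0), (nat_lit 0), (nat_lit 0)), ((nat_lit 1000), (nat_lit 905), (nat_lit 238)), ((nat_lit 886), (nat_lit 948), (nat_lit 1000))], ((nat_lit 96), (nat_lit 100), (nat_lit 92))⟩, (nat_lit 1438086), (nat_lit 382), (nat_lit 382), (nat_lit 0), (nat_lit 598202), [(nat_lit 2379450000), (nat_lit 5776800000), (nat_lit 8607200000)], [], [(nat_lit 18884111769), (nat_lit 19400155456), (nat_lit 19886650241), (nat_lit 20306874300), (nat_lit 21639675266), (nat_lit 22100931794), (nat_lit 22428515117), (nat_lit 23136087965)], (nat_lit 1271251), (nat_lit 1271251), (nat_lit 1271251), (nat_lit 1271251), (nat_lit 1271251), (nat_lit 1271251), [(nat_lit 780000), (nat_lit 1762501), (nat_lit 1271251)], [(nat_lit 12), (nat_lit 59), (nat_lit 483), (nat_lit 250), (nat_lit 11)]⟩,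
 Rw.none⟩))))) (.leaf ⟨(nat_lit 0), (nat_lit 883), (nat_lit 0), (nat_lit 117), (nat_lit 0), (nat_lit 4616), (nat_lit 10082), (nat_lit 1358), (nat_lit 0), (nat_lit 0), (nat_lit 0), [], Pd.none, Pd.none, (nat_lit 0), (nat_lit 1), (nat_lit 0), (nat_lit 0), (nat_lit 5), (nat_lit 0), [⟨(nat_lit 0), (nat_lit 88), (nat_lit 32), (nat_lit 100), (nat_lit 717486254)⟩], [⟨(nat_lit 1), (nat_lit 100), (nat_lit 31), (nat_lit 95), (nat_lit 401193901)⟩, ⟨(nat_lit 1), (nat_lit 99), (nat_lit 44), (nat_lit 100), (nat_lit 171693776)⟩], [⟨(nat_lit 1), (nat_lit 77), (nat_lit 91), (nat_lit 100), (nat_lit 377904752)⟩], [],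
 ⟨⟨[(nat_lit 40), (nat_lit 80), (nat_lit 100)], [(nat_lit 0), (nat_lit 2514), (nat_lit 3562)], [((nat_lit 0), (nat_lit 0), (nat_lit 0)), ((nat_lit 1000), (nat_lit 446), (nat_lit 804)), ((nat_lit 1000), (nat_lit 443), (nat_lit 819))], ((nat_lit 44), (nat_lit 100), (nat_lit 84))⟩, (nat_lit 1110507), (nat_lit 239), (nat_lit 239), (nat_lit 0), (nat_lit 478590), [(nat_lit 2032000004), (nat_lit 4688000006), (nat_lit 6250000000)], [], [(nat_lit 23898111758), (nat_lit 25093318666), (nat_lit 26427213748), (nat_lit 27983188592), (nat_lit 25701780319), (nat_lit 27285044266), (nat_lit 28374600264), (nat_lit 29692783918)], (nat_lit 1271251), (nat_lit 1271251), (nat_lit 1271251), (nat_lit 1271251), (nat_lit 1100000), (nat_lit 1870626), [(nat_lit 490000), (nat_lit 1100000), (nat_lit 1442501)], [(nat_lit 3), (nat_lit 50), (nat_lit 373), (nat_lit 150), (nat_lit 13)]⟩,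
 ⟨⟨[(nat_lit 60), (nat_lit 120), (nat_lit 160)], [(nat_lit 0), (nat_lit 0), (nat_lit 3243)], [((nat_lit 0), (nat_lit 0), (nat_lit 0)), ((nat_lit 0), (nat_lit 0), (nat_lit 0)), ((nat_lit 878), (nat_lit 1000), (nat_lit 945))], ((nat_lit 100), (nat_lit 92), (nat_lit 90))⟩, (nat_lit 1489977), (nat_lit 252), (nat_lit 252), (nat_lit 0), (nat_lit 344729), [(nat_lit 3282000000), (nat_lit 7968000000), (nat_lit 11872000000)], [], [(nat_lit 25415096153), (nat_lit 27072373359), (nat_lit 27106076541), (nat_lit 28890835187), (nat_lit 32270042418), (nat_lit 33571773143), (nat_lit 33708143247), (nat_lit 35702810164)], (nat_lit 1271251), (nat_lit 1271251), (nat_lit 1271251), (nat_lit 1271251), (nat_lit 1271251), (nat_lit 1271251), [(nat_lit 780000), (nat_lit 1762501), (nat_lit 1271251)], [(nat_lit 12), (nat_lit 59), (nat_lit 483), (nat_lit 250), (nat_lit 11)]⟩,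
 ⟨⟨[(nat_lit 140), (nat_lit 180), (nat_lit 200)], [(nat_lit 0), (nat_lit 0), (nat_lit 2835)], [((nat_lit 0), (nat_lit 0), (nat_lit 0)), ((nat_lit 0), (nat_lit 0), (nat_lit 0)), ((nat_lit 363), (nat_lit 1000), (nat_lit 798))], ((nat_lit 0), (nat_lit 0), (nat_lit 0))⟩, (nat_lit 32190), (nat_lit 300), (nat_lit 2142), (nat_lit 9137707), (nat_lit 3789513), [(nat_lit 1151514000), (nat_lit 1644786000), (nat_lit 1918800000)], [], [(nat_lit 7226675660), (nat_lit 7007181762), (nat_lit 6853969655), (nat_lit 6634124096), (nat_lit 6807678524), (nat_lit 6580686278), (nat_lit 6435303442), (nat_lit 6207801367)], (nat_lit 780000), (nat_lit 1100000), (nat_lit 1100000), (nat_lit 1870626), (nat_lit 1271251), (nat_lit 1271251), [(nat_lit 1977501), (nat_lit 1271251), (nat_lit 1271251)], [(nat_lit 32), (nat_lit 67), (nat_lit 633), (nat_lit 200), (nat_lit 13)]⟩⟩)))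
noncomputable def c14_83 : Tr Lf :=
 (.trX (nat_lit 3) (nat_lit 0) (nat_lit 1) (nat_lit 50) (nat_lit 65) (nat_lit 100) (nat_lit 370) (.spl (nat_lit 5) (nat_lit 200) (.spl (nat_lit 3) (nat_lit 320) (.leaf ⟨(nat_lit 561), (nat_lit 439), (nat_lit 0), (nat_lit 0), (nat_lit 0), (nat_lit 3716), (nat_lit 4027), (nat_lit 0), (nat_lit 0), (nat_lit 0), (nat_lit 326200), [((nat_lit 400), [((nat_lit 29), (nat_lit 1), (nat_lit 52)), ((nat_lit 43), (nat_lit 2), (nat_lit 509))])], ⟨(nat_lit 7), false, true, true, (nat_lit 296), (nat_lit 0), (nat_lit 2237), [(nat_lit 1705063), (nat_lit 1699935), (nat_lit 1726954), (nat_lit 1724051), (nat_lit 1762141), (nat_lit 1749998), (nat_lit 1784917), (nat_lit 1774999)]⟩, ⟨(nat_lit 4), false, false, true, (nat_lit 174), (nat_lit 0), (nat_lit 2237), [(nat_lit 1351885), (nat_lit 1349998), (nat_lit 1397434), (nat_lit 1399999), (nat_lit 1480164), (nat_lit 1462492), (nat_lit 1525715), (nat_lit 1512494)]⟩, (nat_lit 5174835), (nat_lit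 36852418), (nat_lit 21170246), (nat_lit 8977336), (nat_lit 4), (nat_lit 0), [], [⟨(nat_lit 1), (nat_lit 100), (nat_lit 31), (nat_lit 95), (nat_lit 662654375)⟩], [], [⟨(nat_lit 0), (nat_lit 100), (nat_lit 87), (nat_lit 52), (nat_lit 8039569)⟩],
 ⟨⟨[(nat_lit 40), (nat_lit 80), (nat_lit 100)], [(nat_lit 0), (nat_lit 2514), (nat_lit 3562)], [((nat_lit 0), (nat_lit 0), (nat_lit 0)), ((nat_lit 1000), (nat_lit 446), (nat_lit 804)), ((nat_lit 1000), (nat_lit 443), (nat_lit 819))], ((nat_lit 44), (nat_lit 100), (nat_lit 84))⟩, (nat_lit 976), (nat_lit 221), (nat_lit 221), (nat_lit 0), (nat_lit 416368), [(nat_lit 1570483665), (nat_lit 1369959728), (nat_lit 1648383600)], [(nat_lit 0), (nat_lit 0), (nat_lit 0)], [(nat_lit 26387854376), (nat_lit 27243833715), (nat_lit 27535279083), (nat_lit 28557994384), (nat_lit 27846473443), (nat_lit 28755778843), (nat_lit 29035807717), (nat_lit 30118409008)], (nat_lit 1271251), (nat_lit 1271251), (nat_lit 1271251), (nat_lit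 1271251), (nat_lit 1100000), (nat_lit 1870626), [(nat_lit 490000), (nat_lit 1100000), (nat_lit 1442501)], [(nat_lit 3), (nat_lit 50), (nat_lit 289), (nat_lit 75), (nat_lit 9)]⟩,
 ⟨⟨[(nat_lit 60), (nat_lit 120), (nat_lit 160)], [(nat_lit 0), (nat_lit 0), (nat_lit 3243)], [((nat_lit 0), (nat_lit 0), (nat_lit 0)), ((nat_lit 0), (nat_lit 0), (nat_lit 0)), ((nat_lit 878), (nat_lit 1000), (nat_lit 945))], ((nat_lit 100), (nat_lit 92), (nat_lit 90))⟩, (nat_lit 702626), (nat_lit 594), (nat_lit 594), (nat_lit 0), (nat_lit 799225), [(nat_lit 1440798000), (nat_lit 3497952000), (nat_lit 5211808000)], [], [(nat_lit 16430394428), (nat_lit 16571588303), (nat_lit 16712782178), (nat_lit 16881417736), (nat_lit 13526548239), (nat_lit 13660941043), (nat_lit 13795333847), (nat_lit 13904073675)], (nat_lit 1271251), (nat_lit 1271251), (nat_lit 1271251), (nat_lit 1271251), (nat_lit 0), (nat_lit 1412501), [(nat_lit 780000), (nat_lit 1762501), (nat_lit 1271251)], [(nat_lit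 12), (nat_lit 59), (nat_lit 456), (nat_lit 225), (nat_lit 11)]⟩,
 Rw.none⟩) (.trZ (nat_lit 3) (nat_lit 4) (nat_lit 5) (nat_lit 100) (nat_lit 82) (nat_lit 44) (nat_lit 10) (.leaf ⟨(nat_lit 426), (nat_lit 574), (nat_lit 0), (nat_lit 0), (nat_lit 0), (nat_lit 3747), (nat_lit 4991), (nat_lit 0), (nat_lit 0), (nat_lit 0), (nat_lit 255600), [((nat_lit 400), [((nat_lit 43), (nat_lit 2), (nat_lit 426))])], ⟨(nat_lit 8), false, true, true, (nat_lit 321), (nat_lit 0), (nat_lit 2237), [(nat_lit 1762141), (nat_lit 1749998), (nat_lit 1784917), (nat_lit 1774999), (nat_lit 1833408), (nat_lit 1812495), (nat_lit 1856183), (nat_lit 1837496)]⟩, ⟨(nat_lit 4), false, false, true, (nat_lit 174), (nat_lit 0), (nat_lit 2237), [(nat_lit 1351885), (nat_lit 1349998), (nat_lit 1397434), (nat_lit 1399999), (nat_lit 1480164), (nat_lit 1462492), (nat_lit 1525715), (nat_lit 1512494)]⟩, (nat_lit 5216274), (nat_lit 35079697), (nat_lit 23263805), (nat_lit 8656498), (nat_lit 4), (nat_lit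 0), [⟨(nat_lit 1), (nat_lit 79), (nat_lit 35), (nat_lit 100), (nat_lit 380837169)⟩], [⟨(nat_lit 1), (nat_lit 100), (nat_lit 31), (nat_lit 95), (nat_lit 730887559)⟩], [], [],
 ⟨⟨[(nat_lit 40), (nat_lit 80), (nat_lit 100)], [(nat_lit 0), (nat_lit 2514), (nat_lit 3562)], [((nat_lit 0), (nat_lit 0), (nat_lit 0)), ((nat_lit 1000), (nat_lit 446), (nat_lit 804)), ((nat_lit 1000), (nat_lit 443), (nat_lit 819))], ((nat_lit 44), (nat_lit 100), (nat_lit 84))⟩, (nat_lit 257288), (nat_lit 230), (nat_lit 230), (nat_lit 0), (nat_lit 416368), [(nat_lit 1625044007), (nat_lit 2106440121), (nat_lit 2666658400)], [(nat_lit 0), (nat_lit 0), (nat_lit 0)], [(nat_lit 27730458916), (nat_lit 28600195277), (nat_lit 30014345925), (nat_lit 31119900393), (nat_lit 29095626345), (nat_lit 30153158861), (nat_lit 31385044929), (nat_lit 32338911973)], (nat_lit 1271251), (nat_lit 1271251), (nat_lit 1271251), (nat_lit 1271251), (nat_lit 1100000), (nat_lit 1870626), [(nat_lit 490000),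 (nat_lit 1100000), (nat_lit 1442501)], [(nat_lit 3), (nat_lit 50), (nat_lit 289), (nat_lit 75), (nat_lit 9)]⟩,
 ⟨⟨[(nat_lit 60), (nat_lit 120), (nat_lit 160)], [(nat_lit 0), (nat_lit 0), (nat_lit 3243)], [((nat_lit 0), (nat_lit 0), (nat_lit 0)), ((nat_lit 0), (nat_lit 0), (nat_lit 0)), ((nat_lit 878), (nat_lit 1000), (nat_lit 945))], ((nat_lit 100), (nat_lit 92), (nat_lit 90))⟩, (nat_lit 909538), (nat_lit 582), (nat_lit 582), (nat_lit 0), (nat_lit 799225), [(nat_lit 1883868000), (nat_lit 4573632000), (nat_lit 6814528000)], [], [(nat_lit 22432644941), (nat_lit 22621140615), (nat_lit 23402626588), (nat_lit 23567852398), (nat_lit 19176699206), (nat_lit 19322488017), (nat_lit 19934874080), (nat_lit 20037749767)], (nat_lit 1271251), (nat_lit 1271251), (nat_lit 1271251), (nat_lit 1271251), (nat_lit 54688), (nat_lit 1414376), [(nat_lit 780000), (nat_lit 1762501), (nat_lit 1271251)], [(nat_lit 12), (nat_lit 59), (nat_lit 345), (nat_lit 125), (nat_lit 8)]⟩,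
 Rw.none⟩))) (.stt (nat_lit 2) (.leaf ⟨(nat_lit 0), (nat_lit 1000), (nat_lit 0), (nat_lit 0), (nat_lit 0), (nat_lit 4574), (nat_lit 7755), (nat_lit 0), (nat_lit 0), (nat_lit 0), (nat_lit 0), [], Pd.none, Pd.none, (nat_lit 0), (nat_lit 1), (nat_lit 0), (nat_lit 0), (nat_lit 5), (nat_lit 0), [], [⟨(nat_lit 1), (nat_lit 99), (nat_lit 44), (nat_lit 100), (nat_lit 560298633)⟩], [⟨(nat_lit 1), (nat_lit 59), (nat_lit 94), (nat_lit 100), (nat_lit 418926151)⟩], [],
 ⟨⟨[(nat_lit 40), (nat_lit 80), (nat_lit 100)], [(nat_lit 0), (nat_lit 2514), (nat_lit 3562)], [((nat_lit 0), (nat_lit 0), (nat_lit 0)), ((nat_lit 1000), (nat_lit 446), (nat_lit 804)), ((nat_lit 1000), (nat_lit 443), (nat_lit 819))], ((nat_lit 44), (nat_lit 100), (nat_lit 84))⟩, (nat_lit 911263), (nat_lit 230), (nat_lit 230), (nat_lit 0), (nat_lit 416368), [(nat_lit 2032000367), (nat_lit 4688000532), (nat_lit 6250000000)], [], [(nat_lit 27325895369), (nat_lit 28258606722), (nat_lit 31175535074),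 (nat_lit 32386549306), (nat_lit 28621199749), (nat_lit 29677098823), (nat_lit 32402306849), (nat_lit 33437942149)], (nat_lit 1271251), (nat_lit 1271251), (nat_lit 1271251), (nat_lit 1271251), (nat_lit 1100000), (nat_lit 1870626), [(nat_lit 490000), (nat_lit 1100000), (nat_lit 1442501)], [(nat_lit 3), (nat_lit 50), (nat_lit 289), (nat_lit 75), (nat_lit 9)]⟩,
 ⟨⟨[(nat_lit 60), (nat_lit 120), (nat_lit 160)], [(nat_lit 0), (nat_lit 0), (nat_lit 3243)], [((nat_lit 0), (nat_lit 0), (nat_lit 0)), ((nat_lit 0), (nat_lit 0), (nat_lit 0)), ((nat_lit 878), (nat_lit 1000), (nat_lit 945))], ((nat_lit 100), (nat_lit 92), (nat_lit 90))⟩, (nat_lit 0), (nat_lit 94), (nat_lit 94), (nat_lit 0), (nat_lit 0), [(nat_lit 3282000000), (nat_lit 7968000000), (nat_lit 11872000000)], [], [(nat_lit 25561520548), (nat_lit 26667322314), (nat_lit 31331352362), (nat_lit 32116973181), (nat_lit 33015215577), (nat_lit 33636645200), (nat_lit 36547305345), (nat_lit 37152135006)], (nat_lit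 0), (nat_lit 0), (nat_lit 0), (nat_lit 0), (nat_lit 0), (nat_lit 0), [], [(nat_lit 12), (nat_lit 59), (nat_lit 538), (nat_lit 300), (nat_lit 13)]⟩,
 Rw.none⟩) (.spl (nat_lit 3) (nat_lit 320) (.leaf ⟨(nat_lit 712), (nat_lit 243), (nat_lit 0), (nat_lit 45), (nat_lit 0), (nat_lit 3246), (nat_lit 2467), (nat_lit 526), (nat_lit 0), (nat_lit 0), (nat_lit 381000), [((nat_lit 400), [((nat_lit 29), (nat_lit 1), (nat_lit 231)), ((nat_lit 43), (nat_lit 2), (nat_lit 481))])], ⟨(nat_lit 7), false, true, true, (nat_lit 296), (nat_lit 0), (nat_lit 2237), [(nat_lit 1705063), (nat_lit 1699935), (nat_lit 1726954), (nat_lit 1724051), (nat_lit 1762141), (nat_lit 1749998), (nat_lit 1784917), (nat_lit 1774999)]⟩, ⟨(nat_lit 4), false, false, true, (nat_lit 174), (nat_lit 0), (nat_lit 2237), [(nat_lit 1351885), (nat_lit 1349998), (nat_lit 1397434), (nat_lit 1399999), (nat_lit 1480164), (nat_lit 1462492), (nat_lit 1525715), (nat_lit 1512494)]⟩, (nat_lit 5174835), (nat_lit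 36852418), (nat_lit 21170246), (nat_lit 8977336), (nat_lit 5), (nat_lit 0), [], [⟨(nat_lit 1), (nat_lit 100), (nat_lit 31), (nat_lit 95), (nat_lit 469812827)⟩], [⟨(nat_lit 1), (nat_lit 73), (nat_lit 94), (nat_lit 100), (nat_lit 56744192)⟩], [],
 ⟨⟨[(nat_lit 40), (nat_lit 80), (nat_lit 100)], [(nat_lit 0), (nat_lit 2514), (nat_lit 3562)], [((nat_lit 0), (nat_lit 0), (nat_lit 0)), ((nat_lit 1000), (nat_lit 446), (nat_lit 804)), ((nat_lit 1000), (nat_lit 443), (nat_lit 819))], ((nat_lit 44), (nat_lit 100), (nat_lit 84))⟩, (nat_lit 5628), (nat_lit 153), (nat_lit 153), (nat_lit 0), (nat_lit 224026), [(nat_lit 1510036810), (nat_lit 849270010), (nat_lit 781984400)], [(nat_lit 0), (nat_lit 0), (nat_lit 0)], [(nat_lit 25835172637), (nat_lit 26779989144), (nat_lit 27093469164), (nat_lit 27965612388), (nat_lit 27477788105), (nat_lit 28301609538), (nat_lit 28592836201), (nat_lit 29591556398)], (nat_lit 1271251), (nat_lit 1271251), (nat_lit 1271251), (nat_lit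 1271251), (nat_lit 1100000), (nat_lit 1870626), [(nat_lit 490000), (nat_lit 1100000), (nat_lit 1442501)], [(nat_lit 3), (nat_lit 50), (nat_lit 289), (nat_lit 75), (nat_lit 9)]⟩,
 ⟨⟨[(nat_lit 60), (nat_lit 120), (nat_lit 160)], [(nat_lit 0), (nat_lit 0), (nat_lit 3243)], [((nat_lit 0), (nat_lit 0), (nat_lit 0)), ((nat_lit 0), (nat_lit 0), (nat_lit 0)), ((nat_lit 878), (nat_lit 1000), (nat_lit 945))], ((nat_lit 100), (nat_lit 92), (nat_lit 90))⟩, (nat_lit 443774), (nat_lit 485), (nat_lit 485), (nat_lit 0), (nat_lit 799225), [(nat_lit 945216000), (nat_lit 2294784000), (nat_lit 3419136000)], [], [(nat_lit 9100491033), (nat_lit 9208131624), (nat_lit 9315772215), (nat_lit 9405186345), (nat_lit 9855296829), (nat_lit 9924407454), (nat_lit 9993518079), (nat_lit 10083422245)], (nat_lit 1271251), (nat_lit 1271251), (nat_lit 1271251), (nat_lit 1271251), (nat_lit 1271251), (nat_lit 1271251), [(nat_lit 780000), (nat_lit 1762501), (nat_lit 1271251)], [(nat_lit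 12), (nat_lit 59), (nat_lit 483), (nat_lit 250), (nat_lit 11)]⟩,
 ⟨⟨[(nat_lit 140), (nat_lit 180), (nat_lit 200)], [(nat_lit 0), (nat_lit 0), (nat_lit 2835)], [((nat_lit 0), (nat_lit 0), (nat_lit 0)), ((nat_lit 0), (nat_lit 0), (nat_lit 0)), ((nat_lit 363), (nat_lit 1000), (nat_lit 798))], ((nat_lit 0), (nat_lit 0), (nat_lit 0))⟩, (nat_lit 12381), (nat_lit 300), (nat_lit 2235), (nat_lit 3514500), (nat_lit 3962504), [(nat_lit 442890000), (nat_lit 632610000), (nat_lit 738000000)], [], [(nat_lit 2758786292), (nat_lit 2673629530), (nat_lit 2614087685), (nat_lit 2528846742), (nat_lit 2602266184), (nat_lit 2514196638), (nat_lit 2463387642), (nat_lit 2375752925)], (nat_lit 780000), (nat_lit 1100000), (nat_lit 1100000), (nat_lit 1870626), (nat_lit 1271251), (nat_lit 1271251), [(nat_lit 1977501), (nat_lit 1271251), (nat_lit 1271251)], [(nat_lit 32), (nat_lit 67), (nat_lit 657), (nat_lit 200), (nat_lit 13)]⟩⟩) (.spl (nat_lit 0) (nat_lit 390) (.leaf ⟨(nat_lit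 476), (nat_lit 452), (nat_lit 0), (nat_lit 72), (nat_lit 0), (nat_lit 3345), (nat_lit 4265), (nat_lit 850), (nat_lit 0), (nat_lit 0), (nat_lit 285600), [((nat_lit 390), [((nat_lit 43), (nat_lit 2), (nat_lit 476))])], ⟨(nat_lit 8), false, true, true, (nat_lit 322), (nat_lit 1581), (nat_lit 2237), [(nat_lit 1762142), (nat_lit 1757166), (nat_lit 1784917), (nat_lit 1780481), (nat_lit 1833412), (nat_lit 1825461), (nat_lit 1856186), (nat_lit 1848776)]⟩, ⟨(nat_lit 4), false, false, true, (nat_lit 175), (nat_lit 1581), (nat_lit 2237), [(nat_lit 1351886), (nat_lit 1352103), (nat_lit 1397434), (nat_lit 1398733), (nat_lit 1480171), (nat_lit 1475033), (nat_lit 1525719), (nat_lit 1521663)]⟩, (nat_lit 5227080), (nat_lit 34896938), (nat_lit 23393385), (nat_lit 8709677), (nat_lit 5), (nat_lit 0), [], [⟨(nat_lit 1), (nat_lit 100), (nat_lit 38), (nat_lit 96), (nat_lit 541816864)⟩], [⟨(nat_lit 1), (nat_lit 73), (nat_lit 94), (nat_lit 100), (nat_lit 3636534)⟩], [⟨(nat_lit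 1), (nat_lit 71), (nat_lit 69), (nat_lit 100), (nat_lit 136606828)⟩],
 ⟨⟨[(nat_lit 40), (nat_lit 80), (nat_lit 100)], [(nat_lit 0), (nat_lit 2514), (nat_lit 3562)], [((nat_lit 0), (nat_lit 0), (nat_lit 0)), ((nat_lit 1000), (nat_lit 446), (nat_lit 804)), ((nat_lit 1000), (nat_lit 443), (nat_lit 819))], ((nat_lit 44), (nat_lit 100), (nat_lit 84))⟩, (nat_lit 353252), (nat_lit 155), (nat_lit 155), (nat_lit 0), (nat_lit 201759), [(nat_lit 1604744057), (nat_lit 1939992170), (nat_lit 2246078400)], [(nat_lit 0), (nat_lit 0), (nat_lit 0)], [(nat_lit 27337518490), (nat_lit 27778512580), (nat_lit 29449898479), (nat_lit 29977044017), (nat_lit 28798636845), (nat_lit 29184421094), (nat_lit 30890559691), (nat_lit 31347619671)], (nat_lit 1271251), (nat_lit 1271251), (nat_lit 1271251), (nat_lit 1271251), (nat_lit 1100000), (nat_lit 1870626), [(nat_lit 490000), (nat_lit 1100000), (nat_lit 1442501)], [(nat_lit 3), (nat_lit 50), (nat_lit 289), (nat_lit 75), (nat_lit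 9)]⟩,
 ⟨⟨[(nat_lit 60), (nat_lit 120), (nat_lit 160)], [(nat_lit 0), (nat_lit 0), (nat_lit 3243)], [((nat_lit 0), (nat_lit 0), (nat_lit 0)), ((nat_lit 0), (nat_lit 0), (nat_lit 0)), ((nat_lit 878), (nat_lit 1000), (nat_lit 945))], ((nat_lit 100), (nat_lit 92), (nat_lit 90))⟩, (nat_lit 730147), (nat_lit 407), (nat_lit 407), (nat_lit 0), (nat_lit 678025), [(nat_lit 1719768000), (nat_lit 4175232000), (nat_lit 6220928000)], [], [(nat_lit 17880955222), (nat_lit 18045703145), (nat_lit 18672686457), (nat_lit 18794814247), (nat_lit 18875444478), (nat_lit 18978466354), (nat_lit 19488884907), (nat_lit 19712772924)], (nat_lit 1271251), (nat_lit 1271251), (nat_lit 1271251), (nat_lit 1271251), (nat_lit 1271251), (nat_lit 1271251), [(nat_lit 780000), (nat_lit 1762501), (nat_lit 1271251)], [(nat_lit 12), (nat_lit 59), (nat_lit 401), (nat_lit 175), (nat_lit 9)]⟩,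
 ⟨⟨[(nat_lit 140), (nat_lit 180), (nat_lit 200)], [(nat_lit 0), (nat_lit 0), (nat_lit 2835)], [((nat_lit 0), (nat_lit 0), (nat_lit 0)), ((nat_lit 0), (nat_lit 0), (nat_lit 0)), ((nat_lit 363), (nat_lit 1000), (nat_lit 798))], ((nat_lit 0), (nat_lit 0), (nat_lit 0))⟩, (nat_lit 19810), (nat_lit 300), (nat_lit 1939), (nat_lit 5623200), (nat_lit 3395125), [(nat_lit 708624000), (nat_lit 1012176000), (nat_lit 1180800000)], [], [(nat_lit 4366961804), (nat_lit 4229036512), (nat_lit 4146455816), (nat_lit 4008966141), (nat_lit 4127067653), (nat_lit 3984416379), (nat_lit 3916753917), (nat_lit 3774769798)], (nat_lit 780000), (nat_lit 1100000), (nat_lit 1100000), (nat_lit 1870626), (nat_lit 1271251), (nat_lit 1271251), [(nat_lit 1977501), (nat_lit 1271251), (nat_lit 1271251)], [(nat_lit 32), (nat_lit 67), (nat_lit 583), (nat_lit 200), (nat_lit 12)]⟩⟩) (.trX (nat_lit 3) (nat_lit 0) (nat_lit 1) (nat_lit 36) (nat_lit 77) (nat_lit 100) (nat_lit 350) (.trX (nat_lit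 4) (nat_lit 0) (nat_lit 2) (nat_lit 31) (nat_lit 100) (nat_lit 99) (nat_lit 230) (.leaf ⟨(nat_lit 530), (nat_lit 404), (nat_lit 0), (nat_lit 66), (nat_lit 0), (nat_lit 3322), (nat_lit 3905), (nat_lit 781), (nat_lit 0), (nat_lit 0), (nat_lit 212000), [((nat_lit 400), [((nat_lit 29), (nat_lit 1), (nat_lit 530))])], ⟨(nat_lit 8), false, true, true, (nat_lit 314), (nat_lit 0), (nat_lit 1582), [(nat_lit 1757165), (nat_lit 1749998), (nat_lit 1780481), (nat_lit 1774999), (nat_lit 1798140), (nat_lit 1787496), (nat_lit 1821456), (nat_lit 1812497)]⟩, ⟨(nat_lit 4), false, false, true, (nat_lit 168), (nat_lit 0), (nat_lit 1582), [(nat_lit 1352101), (nat_lit 1349997), (nat_lit 1398733), (nat_lit 1399999), (nat_lit 1447710), (nat_lit 1437494), (nat_lit 1494343), (nat_lit 1487497)]⟩, (nat_lit 5163179), (nat_lit 35804959), (nat_lit 22842850), (nat_lit 8352191), (nat_lit 5), (nat_lit 0), [⟨(nat_lit 1), (nat_lit 86), (nat_lit 25), (nat_lit 100), (nat_lit 156538476)⟩],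 [⟨(nat_lit 1), (nat_lit 100), (nat_lit 22), (nat_lit 96), (nat_lit 894413270)⟩], [], [⟨(nat_lit 1), (nat_lit 69), (nat_lit 74), (nat_lit 100), (nat_lit 117330262)⟩],
 ⟨⟨[(nat_lit 40), (nat_lit 60), (nat_lit 80)], [(nat_lit 0), (nat_lit 2136), (nat_lit 3185)], [((nat_lit 0), (nat_lit 0), (nat_lit 0)), ((nat_lit 1000), (nat_lit 343), (nat_lit 808)), ((nat_lit 1000), (nat_lit 338), (nat_lit 820))], ((nat_lit 32), (nat_lit 100), (nat_lit 86))⟩, (nat_lit 298494), (nat_lit 138), (nat_lit 138), (nat_lit 0), (nat_lit 222835), [(nat_lit 1585364020), (nat_lit 1838336514), (nat_lit 2308088000)], [(nat_lit 0), (nat_lit 0), (nat_lit 0)], [(nat_lit 27613853628), (nat_lit 28079229562), (nat_lit 28950779054), (nat_lit 29505885042), (nat_lit 28719525202), (nat_lit 29227128074), (nat_lit 30031421831), (nat_lit 30528952664)], (nat_lit 1271251), (nat_lit 1271251), (nat_lit 1271251), (nat_lit 1271251), (nat_lit 1100000), (nat_lit 1699376), [(nat_lit 490000), (nat_lit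 780000), (nat_lit 1100000)], [(nat_lit 2), (nat_lit 44), (nat_lit 203), (nat_lit 0), (nat_lit 6)]⟩,
 ⟨⟨[(nat_lit 60), (nat_lit 120), (nat_lit 160)], [(nat_lit 0), (nat_lit 0), (nat_lit 3243)], [((nat_lit 0), (nat_lit 0), (nat_lit 0)), ((nat_lit 0), (nat_lit 0), (nat_lit 0)), ((nat_lit 878), (nat_lit 1000), (nat_lit 945))], ((nat_lit 100), (nat_lit 92), (nat_lit 90))⟩, (nat_lit 668498), (nat_lit 480), (nat_lit 480), (nat_lit 0), (nat_lit 798992), [(nat_lit 1542540000), (nat_lit 3744960000), (nat_lit 5579840000)], [], [(nat_lit 15752006191), (nat_lit 15899042159), (nat_lit 16180831563), (nat_lit 16304534882), (nat_lit 16683840753), (nat_lit 16774572868), (nat_lit 17048946158), (nat_lit 17199789151)], (nat_lit 1271251), (nat_lit 1271251), (nat_lit 1271251), (nat_lit 1271251), (nat_lit 1271251), (nat_lit 1271251), [(nat_lit 780000), (nat_lit 1762501), (nat_lit 1271251)], [(nat_lit 12), (nat_lit 59), (nat_lit 401), (nat_lit 175), (nat_lit 9)]⟩,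
 ⟨⟨[(nat_lit 140), (nat_lit 180), (nat_lit 200)], [(nat_lit 0), (nat_lit 0), (nat_lit 2835)], [((nat_lit 0), (nat_lit 0), (nat_lit 0)), ((nat_lit 0), (nat_lit 0), (nat_lit 0)), ((nat_lit 363), (nat_lit 1000), (nat_lit 798))], ((nat_lit 0), (nat_lit 0), (nat_lit 0))⟩, (nat_lit 18159), (nat_lit 300), (nat_lit 2235), (nat_lit 5154600), (nat_lit 3962504), [(nat_lit 649572000), (nat_lit 927828000), (nat_lit 1082400000)], [], [(nat_lit 3992769374), (nat_lit 3865972396), (nat_lit 3828897875), (nat_lit 3702914639), (nat_lit 3775166368), (nat_lit 3644397746), (nat_lit 3618284903), (nat_lit 3488268143)], (nat_lit 780000), (nat_lit 1100000), (nat_lit 1100000), (nat_lit 1699376), (nat_lit 1271251), (nat_lit 1271251), [(nat_lit 1977501), (nat_lit 1271251), (nat_lit 1271251)], [(nat_lit 32), (nat_lit 67), (nat_lit 654), (nat_lit 200), (nat_lit 13)]⟩⟩))))))))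
noncomputable def c14_84 : Tr Lf :=
 (.trX (nat_lit 5) (nat_lit 1) (nat_lit 2) (nat_lit 88) (nat_lit 68) (nat_lit 100) (nat_lit 350) (.spl (nat_lit 6) (nat_lit 68) (.spl (nat_lit 3) (nat_lit 320) (.leaf ⟨(nat_lit 385), (nat_lit 615), (nat_lit 0), (nat_lit 0), (nat_lit 0), (nat_lit 3938), (nat_lit 3855), (nat_lit 0), (nat_lit 0), (nat_lit 0), (nat_lit 211800), [((nat_lit 400), [((nat_lit 28), (nat_lit 1), (nat_lit 96)), ((nat_lit 43), (nat_lit 2), (nat_lit 289))])], ⟨(nat_lit 7), false, true, false, (nat_lit 306), (nat_lit 0), (nat_lit 2237), [(nat_lit 1726954), (nat_lit 1724051), (nat_lit 1748802), (nat_lit 1748125), (nat_lit 1784917), (nat_lit 1774999), (nat_lit 1807594), (nat_lit 1799902)]⟩, ⟨(nat_lit 4), false, false, true, (nat_lit 174), (nat_lit 0), (nat_lit 2237), [(nat_lit 1351885), (nat_lit 1349998), (nat_lit 1397434), (nat_lit 1399999), (nat_lit 1480164), (nat_lit 1462492), (nat_lit 1525715), (nat_lit 1512494)]⟩, (nat_lit 5194138), (nat_lit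 36159234), (nat_lit 21986792), (nat_lit 8853974), (nat_lit 4), (nat_lit 0), [], [⟨(nat_lit 1), (nat_lit 100), (nat_lit 31), (nat_lit 95), (nat_lit 740644565)⟩], [⟨(nat_lit 1), (nat_lit 68), (nat_lit 88), (nat_lit 100), (nat_lit 122973507)⟩], [],
 ⟨⟨[(nat_lit 40), (nat_lit 60), (nat_lit 80)], [(nat_lit 0), (nat_lit 1539), (nat_lit 2453)], [((nat_lit 0), (nat_lit 0), (nat_lit 0)), ((nat_lit 1000), (nat_lit 478), (nat_lit 704)), ((nat_lit 1000), (nat_lit 474), (nat_lit 714))], ((nat_lit 45), (nat_lit 100), (nat_lit 78))⟩, (nat_lit 0), (nat_lit 207), (nat_lit 207), (nat_lit 0), (nat_lit 475747), [(nat_lit 1641997215), (nat_lit 1866616052), (nat_lit 2505581600)], [(nat_lit 0), (nat_lit 0), (nat_lit 0)], [(nat_lit 26477391326), (nat_lit 27455378870), (nat_lit 27749645006), (nat_lit 28837875112), (nat_lit 28047344358), (nat_lit 28986906762), (nat_lit 29256908506), (nat_lit 30367262794)], (nat_lit 1271251), (nat_lit 1271251), (nat_lit 1271251), (nat_lit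 1271251), (nat_lit 1100000), (nat_lit 1870626), [(nat_lit 490000), (nat_lit 780000), (nat_lit 1100000)], [(nat_lit 2), (nat_lit 44), (nat_lit 203), (nat_lit 0), (nat_lit 7)]⟩,
 ⟨⟨[(nat_lit 60), (nat_lit 100), (nat_lit 140)], [(nat_lit 0), (nat_lit 609), (nat_lit 2558)], [((nat_lit 0), (nat_lit 0), (nat_lit 0)), ((nat_lit 1000), (nat_lit 905), (nat_lit 238)), ((nat_lit 1000), (nat_lit 904), (nat_lit 760))], ((nat_lit 91), (nat_lit 100), (nat_lit 79))⟩, (nat_lit 1755149), (nat_lit 520), (nat_lit 520), (nat_lit 0), (nat_lit 783008), [(nat_lit 2018430000), (nat_lit 3843750000), (nat_lit 6052830000)], [], [(nat_lit 19067458139), (nat_lit 19420985916), (nat_lit 19734954246), (nat_lit 20048922576), (nat_lit 18840196249), (nat_lit 19006821940), (nat_lit 19334720245), (nat_lit 19817695898)], (nat_lit 1271251), (nat_lit 1271251), (nat_lit 1271251), (nat_lit 1271251), (nat_lit 0), (nat_lit 2471876), [(nat_lit 780000), (nat_lit 1435001), (nat_lit 1271251)],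 [(nat_lit 11), (nat_lit 55), (nat_lit 317), (nat_lit 100), (nat_lit 8)]⟩,
 Rw.none⟩) (.trZ (nat_lit 3) (nat_lit 4) (nat_lit 5) (nat_lit 100) (nat_lit 82) (nat_lit 44) (nat_lit 10) (.leaf ⟨(nat_lit 22), (nat_lit 978), (nat_lit 0), (nat_lit 0), (nat_lit 0), (nat_lit 4346), (nat_lit 5747), (nat_lit 0), (nat_lit 0), (nat_lit 0), (nat_lit 88000), [((nat_lit 400), [((nat_lit 43), (nat_lit 5), (nat_lit 22))])], ⟨(nat_lit 8), false, true, true, (nat_lit 333), (nat_lit 0), (nat_lit 2237), [(nat_lit 1784917), (nat_lit 1774999), (nat_lit 1807594), (nat_lit 1799902), (nat_lit 1870437), (nat_lit 1849996), (nat_lit 1893212), (nat_lit 1874997)]⟩, ⟨(nat_lit 4), false, false, true, (nat_lit 174), (nat_lit 0), (nat_lit 2237), [(nat_lit 1351885), (nat_lit 1349998), (nat_lit 1397434), (nat_lit 1399999), (nat_lit 1480164), (nat_lit 1462492), (nat_lit 1525715), (nat_lit 1512494)]⟩, (nat_lit 5227233), (nat_lit 34206044), (nat_lit 24301849), (nat_lit 8492107), (nat_lit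 4), (nat_lit 0), [], [⟨(nat_lit 1), (nat_lit 100), (nat_lit 31), (nat_lit 95), (nat_lit 1167076278)⟩], [⟨(nat_lit 1), (nat_lit 68), (nat_lit 88), (nat_lit 100), (nat_lit 79709223)⟩], [⟨(nat_lit 1), (nat_lit 73), (nat_lit 66), (nat_lit 100), (nat_lit 164346467)⟩],
 ⟨⟨[(nat_lit 40), (nat_lit 60), (nat_lit 80)], [(nat_lit 0), (nat_lit 1539), (nat_lit 2453)], [((nat_lit 0), (nat_lit 0), (nat_lit 0)), ((nat_lit 1000), (nat_lit 478), (nat_lit 704)), ((nat_lit 1000), (nat_lit 474), (nat_lit 714))], ((nat_lit 45), (nat_lit 100), (nat_lit 78))⟩, (nat_lit 314167), (nat_lit 219), (nat_lit 219), (nat_lit 0), (nat_lit 475747), [(nat_lit 1823484043), (nat_lit 2838752887), (nat_lit 3969858400)], [(nat_lit 0), (nat_lit 0), (nat_lit 0)], [(nat_lit 28583231788), (nat_lit 29466231285), (nat_lit 31428386504), (nat_lit 32574358108), (nat_lit 29863715182), (nat_lit 30824615698), (nat_lit 32613571862), (nat_lit 33597010515)], (nat_lit 1271251), (nat_lit 1271251), (nat_lit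 1271251), (nat_lit 1271251), (nat_lit 1100000), (nat_lit 1870626), [(nat_lit 490000), (nat_lit 780000), (nat_lit 1100000)], [(nat_lit 2), (nat_lit 44), (nat_lit 203), (nat_lit 0), (nat_lit 6)]⟩,
 ⟨⟨[(nat_lit 60), (nat_lit 100), (nat_lit 140)], [(nat_lit 0), (nat_lit 609), (nat_lit 2558)], [((nat_lit 0), (nat_lit 0), (nat_lit 0)), ((nat_lit 1000), (nat_lit 905), (nat_lit 238)), ((nat_lit 1000), (nat_lit 904), (nat_lit 760))], ((nat_lit 91), (nat_lit 100), (nat_lit 79))⟩, (nat_lit 3381718), (nat_lit 516), (nat_lit 516), (nat_lit 0), (nat_lit 783008), [(nat_lit 3209796000), (nat_lit 6112500000), (nat_lit 9625476000)], [], [(nat_lit 31078583412), (nat_lit 31568312442), (nat_lit 33299575805), (nat_lit 34431325505), (nat_lit 30829829340), (nat_lit 31150430349), (nat_lit 33625855955), (nat_lit 34214540417)], (nat_lit 1271251), (nat_lit 1271251), (nat_lit 1271251), (nat_lit 1271251), (nat_lit 54688), (nat_lit 2487813), [(nat_lit 780000), (nat_lit 1435001),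 (nat_lit 1271251)], [(nat_lit 11), (nat_lit 55), (nat_lit 317), (nat_lit 100), (nat_lit 8)]⟩,
 Rw.none⟩))) (.stt (nat_lit 2) (.leaf ⟨(nat_lit 0), (nat_lit 1000), (nat_lit 0), (nat_lit 0), (nat_lit 0), (nat_lit 4472), (nat_lit 6489), (nat_lit 0), (nat_lit 0), (nat_lit 0), (nat_lit 0), [], Pd.none, Pd.none, (nat_lit 0), (nat_lit 1), (nat_lit 0), (nat_lit 0), (nat_lit 4), (nat_lit 0), [], [⟨(nat_lit 1), (nat_lit 99), (nat_lit 44), (nat_lit 100), (nat_lit 583949875)⟩], [⟨(nat_lit 1), (nat_lit 81), (nat_lit 88), (nat_lit 100), (nat_lit 58247213)⟩, ⟨(nat_lit 1), (nat_lit 68), (nat_lit 88), (nat_lit 100), (nat_lit 103485050)⟩], [],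
 ⟨⟨[(nat_lit 40), (nat_lit 80), (nat_lit 100)], [(nat_lit 0), (nat_lit 2514), (nat_lit 3562)], [((nat_lit 0), (nat_lit 0), (nat_lit 0)), ((nat_lit 1000), (nat_lit 446), (nat_lit 804)), ((nat_lit 1000), (nat_lit 443), (nat_lit 819))], ((nat_lit 44), (nat_lit 100), (nat_lit 84))⟩, (nat_lit 1010257), (nat_lit 217), (nat_lit 217), (nat_lit 0), (nat_lit 364657), [(nat_lit 2032000010), (nat_lit 4688000029), (nat_lit 6250000000)], [], [(nat_lit 27006600165), (nat_lit 27930171349), (nat_lit 31612934262), (nat_lit 32774168656), (nat_lit 28313728248), (nat_lit 29542863106), (nat_lit 32774459427), (nat_lit 33769697389)], (nat_lit 1271251), (nat_lit 1271251), (nat_lit 1271251), (nat_lit 1271251), (nat_lit 1100000), (nat_lit 1870626), [(nat_lit 490000), (nat_lit 1100000), (nat_lit 1442501)], [(nat_lit 3), (nat_lit 50), (nat_lit 289), (nat_lit 75), (nat_lit 9)]⟩,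
 ⟨⟨[(nat_lit 60), (nat_lit 120), (nat_lit 160)], [(nat_lit 0), (nat_lit 913), (nat_lit 3885)], [((nat_lit 0), (nat_lit 0), (nat_lit 0)), ((nat_lit 1000), (nat_lit 905), (nat_lit 238)), ((nat_lit 886), (nat_lit 948), (nat_lit 1000))], ((nat_lit 96), (nat_lit 100), (nat_lit 92))⟩, (nat_lit 1898365), (nat_lit 247), (nat_lit 247), (nat_lit 0), (nat_lit 0), [(nat_lit 3282000000), (nat_lit 7968000000), (nat_lit 11872000000)], [], [(nat_lit 32326871021), (nat_lit 33347310823), (nat_lit 38031500778), (nat_lit 38726330027), (nat_lit 31905914161), (nat_lit 32406698371), (nat_lit 35281672230), (nat_lit 35719413309)], (nat_lit 0), (nat_lit 0), (nat_lit 0), (nat_lit 0), (nat_lit 0), (nat_lit 0), [], [(nat_lit 12), (nat_lit 59), (nat_lit 538), (nat_lit 300), (nat_lit 13)]⟩,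
 Rw.none⟩) (.leaf ⟨(nat_lit 22), (nat_lit 861), (nat_lit 0), (nat_lit 117), (nat_lit 0), (nat_lit 3924), (nat_lit 7167), (nat_lit 1278), (nat_lit 0), (nat_lit 0), (nat_lit 88000), [((nat_lit 400), [((nat_lit 43), (nat_lit 5), (nat_lit 22))])], ⟨(nat_lit 7), false, true, true, (nat_lit 322), (nat_lit 0), (nat_lit 2237), [(nat_lit 1726954), (nat_lit 1724051), (nat_lit 1748802), (nat_lit 1748125), (nat_lit 1870437), (nat_lit 1849996), (nat_lit 1893212), (nat_lit 1874997)]⟩, ⟨(nat_lit 4), false, false, true, (nat_lit 174), (nat_lit 0), (nat_lit 2237), [(nat_lit 1351885), (nat_lit 1349998), (nat_lit 1397434), (nat_lit 1399999), (nat_lit 1480164), (nat_lit 1462492), (nat_lit 1525715), (nat_lit 1512494)]⟩, (nat_lit 5217686), (nat_lit 34989844), (nat_lit 23370380), (nat_lit 8639776), (nat_lit 4), (nat_lit 0), [], [⟨(nat_lit 1), (nat_lit 100), (nat_lit 31), (nat_lit 95), (nat_lit 1017567041)⟩], [⟨(nat_lit 1), (nat_lit 81), (nat_lit 88), (nat_lit 100), (nat_lit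 24024481)⟩], [],
 ⟨⟨[(nat_lit 40), (nat_lit 80), (nat_lit 100)], [(nat_lit 0), (nat_lit 2514), (nat_lit 3562)], [((nat_lit 0), (nat_lit 0), (nat_lit 0)), ((nat_lit 1000), (nat_lit 446), (nat_lit 804)), ((nat_lit 1000), (nat_lit 443), (nat_lit 819))], ((nat_lit 44), (nat_lit 100), (nat_lit 84))⟩, (nat_lit 893030), (nat_lit 158), (nat_lit 158), (nat_lit 0), (nat_lit 195207), [(nat_lit 1823484001), (nat_lit 3969858403), (nat_lit 5224571200)], [(nat_lit 0), (nat_lit 0), (nat_lit 0)], [(nat_lit 26608721086), (nat_lit 27537713982), (nat_lit 30810297979), (nat_lit 31905151352), (nat_lit 28099315794), (nat_lit 28983967218), (nat_lit 32074726207), (nat_lit 33018646538)], (nat_lit 1271251), (nat_lit 1271251), (nat_lit 1271251), (nat_lit 1271251), (nat_lit 1100000), (nat_lit 1870626), [(nat_lit 490000), (nat_lit 1100000), (nat_lit 1442501)], [(nat_lit 3), (nat_lit 50), (nat_lit 289), (nat_lit 75), (nat_lit 9)]⟩,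
 ⟨⟨[(nat_lit 60), (nat_lit 120), (nat_lit 160)], [(nat_lit 0), (nat_lit 913), (nat_lit 3885)], [((nat_lit 0), (nat_lit 0), (nat_lit 0)), ((nat_lit 1000), (nat_lit 905), (nat_lit 238)), ((nat_lit 886), (nat_lit 948), (nat_lit 1000))], ((nat_lit 96), (nat_lit 100), (nat_lit 92))⟩, (nat_lit 1548247), (nat_lit 518), (nat_lit 518), (nat_lit 0), (nat_lit 598202), [(nat_lit 3209796000), (nat_lit 7792704000), (nat_lit 11610816000)], [], [(nat_lit 36013167399), (nat_lit 36518218513), (nat_lit 39267836237), (nat_lit 39970435155), (nat_lit 32723968173), (nat_lit 32919789436), (nat_lit 35302762976), (nat_lit 35916725125)], (nat_lit 1271251), (nat_lit 1271251), (nat_lit 1271251), (nat_lit 1271251), (nat_lit 0), (nat_lit 2471876), [(nat_lit 780000), (nat_lit 1762501), (nat_lit 1271251)], [(nat_lit 12), (nat_lit 59), (nat_lit 538), (nat_lit 300), (nat_lit 13)]⟩,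
 ⟨⟨[(nat_lit 140), (nat_lit 180), (nat_lit 200)], [(nat_lit 0), (nat_lit 0), (nat_lit 2835)], [((nat_lit 0), (nat_lit 0), (nat_lit 0)), ((nat_lit 0), (nat_lit 0), (nat_lit 0)), ((nat_lit 363), (nat_lit 1000), (nat_lit 798))], ((nat_lit 0), (nat_lit 0), (nat_lit 0))⟩, (nat_lit 32190), (nat_lit 300), (nat_lit 2053), (nat_lit 9137707), (nat_lit 3386216), [(nat_lit 1151514000), (nat_lit 1644786000), (nat_lit 1918800000)], [], [(nat_lit 9198503036), (nat_lit 9014561819), (nat_lit 8836027217), (nat_lit 8653333554), (nat_lit 7663459349), (nat_lit 8301648087), (nat_lit 9406614200), (nat_lit 10077960506)], (nat_lit 780000), (nat_lit 1100000), (nat_lit 1100000), (nat_lit 1870626), (nat_lit 0), (nat_lit 2471876), [(nat_lit 1977501), (nat_lit 1271251), (nat_lit 1271251)], [(nat_lit 32), (nat_lit 67), (nat_lit 609), (nat_lit 200), (nat_lit 13)]⟩⟩))))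
noncomputable def c14_85 : Tr Lf :=
 (.spl (nat_lit 5) (nat_lit 200) (.spl (nat_lit 3) (nat_lit 280) (.stt (nat_lit 1) (.leaf ⟨(nat_lit 536), (nat_lit 401), (nat_lit 0), (nat_lit 63), (nat_lit 0), (nat_lit 3520), (nat_lit 4366), (nat_lit 861), (nat_lit 0), (nat_lit 0), (nat_lit 272400), [((nat_lit 400), [((nat_lit 29), (nat_lit 1), (nat_lit 246)), ((nat_lit 43), (nat_lit 2), (nat_lit 290))])], ⟨(nat_lit 7), false, true, false, (nat_lit 265), (nat_lit 0), (nat_lit 2237), [(nat_lit 1572676), (nat_lit 1583333), (nat_lit 1616372), (nat_lit 1631480), (nat_lit 1705063), (nat_lit 1699935), (nat_lit 1748802), (nat_lit 1748125)]⟩, ⟨(nat_lit 4), false, false, true, (nat_lit 194), (nat_lit 0), (nat_lit 2237), [(nat_lit 1397434), (nat_lit 1399999), (nat_lit 1419294), (nat_lit 1424084), (nat_lit 1554222), (nat_lit 1537494), (nat_lit 1576997), (nat_lit 1562495)]⟩, (nat_lit 5228461), (nat_lit 38097083), (nat_lit 18036334), (nat_lit 10866583), (nat_lit 4), (nat_lit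 0), [⟨(nat_lit 0), (nat_lit 88), (nat_lit 32), (nat_lit 100), (nat_lit 274037705)⟩], [⟨(nat_lit 1), (nat_lit 100), (nat_lit 32), (nat_lit 100), (nat_lit 471194969)⟩], [⟨(nat_lit 0), (nat_lit 100), (nat_lit 88), (nat_lit 37), (nat_lit 36500230)⟩], [],
 ⟨⟨[(nat_lit 40), (nat_lit 80), (nat_lit 100)], [(nat_lit 0), (nat_lit 2514), (nat_lit 3562)], [((nat_lit 0), (nat_lit 0), (nat_lit 0)), ((nat_lit 1000), (nat_lit 446), (nat_lit 804)), ((nat_lit 1000), (nat_lit 443), (nat_lit 819))], ((nat_lit 44), (nat_lit 100), (nat_lit 84))⟩, (nat_lit 445), (nat_lit 72), (nat_lit 72), (nat_lit 0), (nat_lit 0), [(nat_lit 1581564803), (nat_lit 1825961603), (nat_lit 2296260000)], [(nat_lit 0), (nat_lit 0), (nat_lit 0)], [(nat_lit 22969209721), (nat_lit 24265917096), (nat_lit 25630768116), (nat_lit 26736256240), (nat_lit 25854057430), (nat_lit 26924959701), (nat_lit 28068753995), (nat_lit 29180874280)], (nat_lit 0), (nat_lit 0), (nat_lit 0), (nat_lit 0), (nat_lit 0),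 (nat_lit 0), [], [(nat_lit 3), (nat_lit 50), (nat_lit 373), (nat_lit 150), (nat_lit 13)]⟩,
 ⟨⟨[(nat_lit 60), (nat_lit 120), (nat_lit 160)], [(nat_lit 0), (nat_lit 0), (nat_lit 3243)], [((nat_lit 0), (nat_lit 0), (nat_lit 0)), ((nat_lit 0), (nat_lit 0), (nat_lit 0)), ((nat_lit 878), (nat_lit 1000), (nat_lit 945))], ((nat_lit 100), (nat_lit 92), (nat_lit 90))⟩, (nat_lit 921823), (nat_lit 550), (nat_lit 550), (nat_lit 0), (nat_lit 635235), [(nat_lit 1522848000), (nat_lit 3697152000), (nat_lit 5508608000)], [], [(nat_lit 15514230267), (nat_lit 16183383374), (nat_lit 16176909009), (nat_lit 16855449163), (nat_lit 12477132589), (nat_lit 13120679899), (nat_lit 13151674403), (nat_lit 13635229234)], (nat_lit 1271251), (nat_lit 1271251), (nat_lit 1271251), (nat_lit 1271251), (nat_lit 0), (nat_lit 1412501), [(nat_lit 780000), (nat_lit 1762501), (nat_lit 1271251)], [(nat_lit 12), (nat_lit 59), (nat_lit 428), (nat_lit 200), (nat_lit 11)]⟩,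
 ⟨⟨[(nat_lit 120), (nat_lit 160), (nat_lit 200)], [(nat_lit 0), (nat_lit 0), (nat_lit 3198)], [((nat_lit 0), (nat_lit 0), (nat_lit 0)), ((nat_lit 0), (nat_lit 0), (nat_lit 0)), ((nat_lit 572), (nat_lit 1000), (nat_lit 714))], ((nat_lit 0), (nat_lit 0), (nat_lit 0))⟩, (nat_lit 30732), (nat_lit 300), (nat_lit 1944), (nat_lit 4674600), (nat_lit 3223769), [(nat_lit 501984000), (nat_lit 747936000), (nat_lit 1033200000)], [], [(nat_lit 4100135508), (nat_lit 4056457818), (nat_lit 3905238351), (nat_lit 3857261436), (nat_lit 3140906832), (nat_lit 3333994094), (nat_lit 4359918885), (nat_lit 4599003028)], (nat_lit 1100000), (nat_lit 1271251), (nat_lit 1100000), (nat_lit 2041876), (nat_lit 0), (nat_lit 1412501), [(nat_lit 1695001), (nat_lit 1271251), (nat_lit 1271251)], [(nat_lit 29), (nat_lit 66), (nat_lit 568), (nat_lit 175), (nat_lit 12)]⟩⟩) (.leaf ⟨(nat_lit 0), (nat_lit 872), (nat_lit 0), (nat_lit 128), (nat_lit 0), (nat_lit 5765), (nat_lit 10607), (nat_lit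 1758), (nat_lit 0), (nat_lit 0), (nat_lit 0), [], Pd.none, Pd.none, (nat_lit 0), (nat_lit 1), (nat_lit 0), (nat_lit 0), (nat_lit 4), (nat_lit 0), [⟨(nat_lit 0), (nat_lit 88), (nat_lit 32), (nat_lit 100), (nat_lit 434712351)⟩], [⟨(nat_lit 1), (nat_lit 100), (nat_lit 32), (nat_lit 100), (nat_lit 41562717)⟩, ⟨(nat_lit 1), (nat_lit 94), (nat_lit 44), (nat_lit 100), (nat_lit 408117337)⟩], [⟨(nat_lit 0), (nat_lit 100), (nat_lit 88), (nat_lit 37), (nat_lit 106276122)⟩], [],
 ⟨⟨[(nat_lit 40), (nat_lit 80), (nat_lit 100)], [(nat_lit 0), (nat_lit 2514), (nat_lit 3562)], [((nat_lit 0), (nat_lit 0), (nat_lit 0)), ((nat_lit 1000), (nat_lit 446), (nat_lit 804)), ((nat_lit 1000), (nat_lit 443), (nat_lit 819))], ((nat_lit 44), (nat_lit 100), (nat_lit 84))⟩, (nat_lit 542088), (nat_lit 208), (nat_lit 208), (nat_lit 0), (nat_lit 381089), [(nat_lit 2203859367), (nat_lit 4730239120), (nat_lit 6250000000)], [], [(nat_lit 25180685032), (nat_lit 26802597919), (nat_lit 27891890069),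 (nat_lit 29290606404), (nat_lit 27957138323), (nat_lit 29322516039), (nat_lit 30170571544), (nat_lit 31588345492)], (nat_lit 1271251), (nat_lit 1271251), (nat_lit 1271251), (nat_lit 1271251), (nat_lit 1100000), (nat_lit 2041876), [(nat_lit 490000), (nat_lit 1100000), (nat_lit 1442501)], [(nat_lit 3), (nat_lit 50), (nat_lit 373), (nat_lit 150), (nat_lit 13)]⟩,
 ⟨⟨[(nat_lit 60), (nat_lit 120), (nat_lit 160)], [(nat_lit 0), (nat_lit 0), (nat_lit 3243)], [((nat_lit 0), (nat_lit 0), (nat_lit 0)), ((nat_lit 0), (nat_lit 0), (nat_lit 0)), ((nat_lit 878), (nat_lit 1000), (nat_lit 945))], ((nat_lit 100), (nat_lit 92), (nat_lit 90))⟩, (nat_lit 2494244), (nat_lit 376), (nat_lit 376), (nat_lit 0), (nat_lit 275550), [(nat_lit 3282000000), (nat_lit 7968000000), (nat_lit 11872000000)], [], [(nat_lit 29213852746), (nat_lit 32227598097), (nat_lit 32908655617), (nat_lit 35519756766), (nat_lit 21893843314), (nat_lit 23680323202), (nat_lit 24077110230), (nat_lit 25794979220)],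 (nat_lit 1271251), (nat_lit 1271251), (nat_lit 1271251), (nat_lit 1271251), (nat_lit 0), (nat_lit 1412501), [(nat_lit 780000), (nat_lit 1762501), (nat_lit 1271251)], [(nat_lit 12), (nat_lit 59), (nat_lit 428), (nat_lit 200), (nat_lit 11)]⟩,
 ⟨⟨[(nat_lit 120), (nat_lit 160), (nat_lit 200)], [(nat_lit 0), (nat_lit 0), (nat_lit 3198)], [((nat_lit 0), (nat_lit 0), (nat_lit 0)), ((nat_lit 0), (nat_lit 0), (nat_lit 0)), ((nat_lit 572), (nat_lit 1000), (nat_lit 714))], ((nat_lit 0), (nat_lit 0), (nat_lit 0))⟩, (nat_lit 62439), (nat_lit 300), (nat_lit 1285), (nat_lit 9497601), (nat_lit 1812886), [(nat_lit 1019904000), (nat_lit 1519616000), (nat_lit 2099200000)], [], [(nat_lit 8320684336), (nat_lit 8231294382), (nat_lit 7921572090), (nat_lit 7823414119), (nat_lit 6360437304), (nat_lit 6780303577), (nat_lit 8873094214), (nat_lit 9360824657)], (nat_lit 1100000), (nat_lit 1271251), (nat_lit 1100000), (nat_lit 2041876), (nat_lit 0), (nat_lit 1412501), [(nat_lit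 1695001), (nat_lit 1271251), (nat_lit 1271251)], [(nat_lit 29), (nat_lit 66), (nat_lit 403), (nat_lit 175), (nat_lit 9)]⟩⟩)) (.spl (nat_lit 0) (nat_lit 390) (.leaf ⟨(nat_lit 22), (nat_lit 872), (nat_lit 0), (nat_lit 106), (nat_lit 0), (nat_lit 4090), (nat_lit 7677), (nat_lit 1475), (nat_lit 0), (nat_lit 0), (nat_lit 88000), [((nat_lit 390), [((nat_lit 43), (nat_lit 5), (nat_lit 22))])], ⟨(nat_lit 7), false, true, true, (nat_lit 319), (nat_lit 1581), (nat_lit 2237), [(nat_lit 1705117), (nat_lit 1702521), (nat_lit 1750574), (nat_lit 1749059), (nat_lit 1847666), (nat_lit 1839120), (nat_lit 1893214), (nat_lit 1885750)]⟩, ⟨(nat_lit 4), false, false, true, (nat_lit 195), (nat_lit 1581), (nat_lit 2237), [(nat_lit 1397434), (nat_lit 1398733), (nat_lit 1420170), (nat_lit 1422009), (nat_lit 1554227), (nat_lit 1548981), (nat_lit 1577001), (nat_lit 1572296)]⟩, (nat_lit 5363791), (nat_lit 34287423), (nat_lit 22584647), (nat_lit 10127930), (nat_lit 4), (nat_lit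 0), [], [⟨(nat_lit 1), (nat_lit 98), (nat_lit 38), (nat_lit 100), (nat_lit 496624346)⟩], [], [⟨(nat_lit 0), (nat_lit 100), (nat_lit 76), (nat_lit 71), (nat_lit 29739705)⟩],
 ⟨⟨[(nat_lit 40), (nat_lit 80), (nat_lit 100)], [(nat_lit 0), (nat_lit 2514), (nat_lit 3562)], [((nat_lit 0), (nat_lit 0), (nat_lit 0)), ((nat_lit 1000), (nat_lit 446), (nat_lit 804)), ((nat_lit 1000), (nat_lit 443), (nat_lit 819))], ((nat_lit 44), (nat_lit 100), (nat_lit 84))⟩, (nat_lit 904131), (nat_lit 209), (nat_lit 209), (nat_lit 0), (nat_lit 346306), [(nat_lit 1823484172), (nat_lit 3969859399), (nat_lit 5224571200)], [(nat_lit 0), (nat_lit 0), (nat_lit 0)], [(nat_lit 26547663172), (nat_lit 26992333350), (nat_lit 31053432328), (nat_lit 31610913074), (nat_lit 28602400322), (nat_lit 29197262822), (nat_lit 32799508214), (nat_lit 33260137621)], (nat_lit 1271251), (nat_lit 1271251), (nat_lit 1271251), (nat_lit 1271251), (nat_lit 1100000), (nat_lit 2041876), [(nat_lit 490000),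 (nat_lit 1100000), (nat_lit 1442501)], [(nat_lit 3), (nat_lit 50), (nat_lit 289), (nat_lit 75), (nat_lit 9)]⟩,
 ⟨⟨[(nat_lit 60), (nat_lit 120), (nat_lit 160)], [(nat_lit 0), (nat_lit 0), (nat_lit 3243)], [((nat_lit 0), (nat_lit 0), (nat_lit 0)), ((nat_lit 0), (nat_lit 0), (nat_lit 0)), ((nat_lit 878), (nat_lit 1000), (nat_lit 945))], ((nat_lit 100), (nat_lit 92), (nat_lit 90))⟩, (nat_lit 1806963), (nat_lit 502), (nat_lit 502), (nat_lit 0), (nat_lit 549563), [(nat_lit 3209796000), (nat_lit 7792704000), (nat_lit 11610816000)], [], [(nat_lit 37499964522), (nat_lit 38520903741), (nat_lit 41308944228), (nat_lit 42197643867), (nat_lit 32378787929), (nat_lit 33366292473), (nat_lit 35522592558), (nat_lit 36155871834)], (nat_lit 1271251), (nat_lit 1271251), (nat_lit 1271251), (nat_lit 1271251), (nat_lit 0), (nat_lit 1412501), [(nat_lit 780000), (nat_lit 1762501), (nat_lit 1271251)], [(nat_lit 12), (nat_lit 59), (nat_lit 456), (nat_lit 225), (nat_lit 11)]⟩,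
 ⟨⟨[(nat_lit 120), (nat_lit 160), (nat_lit 200)], [(nat_lit 0), (nat_lit 0), (nat_lit 3198)], [((nat_lit 0), (nat_lit 0), (nat_lit 0)), ((nat_lit 0), (nat_lit 0), (nat_lit 0)), ((nat_lit 572), (nat_lit 1000), (nat_lit 714))], ((nat_lit 0), (nat_lit 0), (nat_lit 0))⟩, (nat_lit 51707), (nat_lit 300), (nat_lit 1733), (nat_lit 7865206), (nat_lit 2789503), [(nat_lit 844608000), (nat_lit 1258432000), (nat_lit 1738400000)], [], [(nat_lit 6869018348), (nat_lit 6793560037), (nat_lit 6532102441), (nat_lit 6478670265), (nat_lit 5246202262), (nat_lit 5629249299), (nat_lit 7380846511), (nat_lit 7789107475)], (nat_lit 1100000), (nat_lit 1271251), (nat_lit 1100000), (nat_lit 2041876), (nat_lit 0), (nat_lit 1412501), [(nat_lit 1695001), (nat_lit 1271251), (nat_lit 1271251)], [(nat_lit 29), (nat_lit 66), (nat_lit 515), (nat_lit 175), (nat_lit 11)]⟩⟩) (.trX (nat_lit 3) (nat_lit 0) (nat_lit 1) (nat_lit 39) (nat_lit 72) (nat_lit 100) (nat_lit 370) (.trX (nat_lit 4)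 (nat_lit 0) (nat_lit 2) (nat_lit 31) (nat_lit 98) (nat_lit 100) (nat_lit 250) (.leaf ⟨(nat_lit 22), (nat_lit 882), (nat_lit 0), (nat_lit 96), (nat_lit 0), (nat_lit 4052), (nat_lit 6662), (nat_lit 1338), (nat_lit 0), (nat_lit 0), (nat_lit 88000), [((nat_lit 400), [((nat_lit 43), (nat_lit 5), (nat_lit 22))])], ⟨(nat_lit 7), false, true, true, (nat_lit 314), (nat_lit 0), (nat_lit 1582), [(nat_lit 1702515), (nat_lit 1699984), (nat_lit 1747842), (nat_lit 1748680), (nat_lit 1825457), (nat_lit 1812495), (nat_lit 1872089), (nat_lit 1862497)]⟩, ⟨(nat_lit 4), false, false, true, (nat_lit 188), (nat_lit 0), (nat_lit 1582), [(nat_lit 1398733), (nat_lit 1399999), (nat_lit 1421394), (nat_lit 1424345), (nat_lit 1521659), (nat_lit 1512494), (nat_lit 1544976), (nat_lit 1537497)]⟩, (nat_lit 5312051), (nat_lit 34937609), (nat_lit 22319880), (nat_lit 9742511), (nat_lit 4), (nat_lit 0), [⟨(nat_lit 1), (nat_lit 85), (nat_lit 26), (nat_lit 100), (nat_lit 1924944)⟩], [⟨(nat_lit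 1), (nat_lit 100), (nat_lit 22), (nat_lit 99), (nat_lit 866214435)⟩], [], [],
 ⟨⟨[(nat_lit 40), (nat_lit 60), (nat_lit 80)], [(nat_lit 0), (nat_lit 2136), (nat_lit 3185)], [((nat_lit 0), (nat_lit 0), (nat_lit 0)), ((nat_lit 1000), (nat_lit 343), (nat_lit 808)), ((nat_lit 1000), (nat_lit 338), (nat_lit 820))], ((nat_lit 32), (nat_lit 100), (nat_lit 86))⟩, (nat_lit 444601), (nat_lit 192), (nat_lit 192), (nat_lit 0), (nat_lit 378916), [(nat_lit 1823484020), (nat_lit 2838752919), (nat_lit 3969858400)], [(nat_lit 0), (nat_lit 0), (nat_lit 0)], [(nat_lit 27112631602), (nat_lit 27607866331), (nat_lit 31014820021), (nat_lit 31587044188), (nat_lit 28656234342), (nat_lit 29105594071), (nat_lit 32252225785), (nat_lit 32744237491)], (nat_lit 1271251), (nat_lit 1271251), (nat_lit 1271251), (nat_lit 1271251), (nat_lit 1100000), (nat_lit 1870626), [(nat_lit 490000), (nat_lit 780000), (nat_lit 1100000)], [(nat_lit 2), (nat_lit 44), (nat_lit 203), (nat_lit 0), (nat_lit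 6)]⟩,
 ⟨⟨[(nat_lit 60), (nat_lit 120), (nat_lit 160)], [(nat_lit 0), (nat_lit 0), (nat_lit 3243)], [((nat_lit 0), (nat_lit 0), (nat_lit 0)), ((nat_lit 0), (nat_lit 0), (nat_lit 0)), ((nat_lit 878), (nat_lit 1000), (nat_lit 945))], ((nat_lit 100), (nat_lit 92), (nat_lit 90))⟩, (nat_lit 1837254), (nat_lit 533), (nat_lit 533), (nat_lit 0), (nat_lit 634458), [(nat_lit 3209796000), (nat_lit 7792704000), (nat_lit 11610816000)], [], [(nat_lit 39372441614), (nat_lit 40513172852), (nat_lit 42686779457), (nat_lit 43610100491), (nat_lit 35478221871), (nat_lit 36444626088), (nat_lit 38146479828), (nat_lit 38829733118)], (nat_lit 1271251), (nat_lit 1271251), (nat_lit 1271251), (nat_lit 1271251), (nat_lit 0), (nat_lit 1412501), [(nat_lit 780000), (nat_lit 1762501), (nat_lit 1271251)], [(nat_lit 12), (nat_lit 59), (nat_lit 456), (nat_lit 225), (nat_lit 11)]⟩,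
 ⟨⟨[(nat_lit 120), (nat_lit 160), (nat_lit 200)], [(nat_lit 0), (nat_lit 0), (nat_lit 3198)], [((nat_lit 0), (nat_lit 0), (nat_lit 0)), ((nat_lit 0), (nat_lit 0), (nat_lit 0)), ((nat_lit 572), (nat_lit 1000), (nat_lit 714))], ((nat_lit 0), (nat_lit 0), (nat_lit 0))⟩, (nat_lit 46829), (nat_lit 300), (nat_lit 1944), (nat_lit 7123205), (nat_lit 3223769), [(nat_lit 764928000), (nat_lit 1139712000), (nat_lit 1574400000)], [], [(nat_lit 6218577600), (nat_lit 6150077178), (nat_lit 5933783706), (nat_lit 5860316899), (nat_lit 4752431652), (nat_lit 5099794875), (nat_lit 6323986518), (nat_lit 6690227667)], (nat_lit 1100000), (nat_lit 1271251), (nat_lit 1100000), (nat_lit 1870626), (nat_lit 0), (nat_lit 1412501), [(nat_lit 1695001), (nat_lit 1271251), (nat_lit 1271251)], [(nat_lit 29), (nat_lit 66), (nat_lit 565), (nat_lit 175), (nat_lit 12)]⟩⟩))))) (.stt (nat_lit 2) (.leaf ⟨(nat_lit 0), (nat_lit 908), (nat_lit 0), (nat_lit 92), (nat_lit 0), (nat_lit 4545),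 (nat_lit 8735), (nat_lit 997), (nat_lit 0), (nat_lit 0), (nat_lit 0), [], Pd.none, Pd.none, (nat_lit 0), (nat_lit 1), (nat_lit 0), (nat_lit 0), (nat_lit 5), (nat_lit 0), [⟨(nat_lit 0), (nat_lit 88), (nat_lit 32), (nat_lit 100), (nat_lit 79149029)⟩], [⟨(nat_lit 1), (nat_lit 100), (nat_lit 32), (nat_lit 100), (nat_lit 703902646)⟩], [⟨(nat_lit 1), (nat_lit 63), (nat_lit 88), (nat_lit 100), (nat_lit 416343719)⟩], [],
 ⟨⟨[(nat_lit 40), (nat_lit 80), (nat_lit 100)], [(nat_lit 0), (nat_lit 2514), (nat_lit 3562)], [((nat_lit 0), (nat_lit 0), (nat_lit 0)), ((nat_lit 1000), (nat_lit 446), (nat_lit 804)), ((nat_lit 1000), (nat_lit 443), (nat_lit 819))], ((nat_lit 44), (nat_lit 100), (nat_lit 84))⟩, (nat_lit 1069644), (nat_lit 221), (nat_lit 221), (nat_lit 0), (nat_lit 381089), [(nat_lit 2032000001), (nat_lit 4688000003), (nat_lit 6250000000)], [], [(nat_lit 24344547791), (nat_lit 25439386564), (nat_lit 31719854789), (nat_lit 32889931910), (nat_lit 26594586704),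 (nat_lit 28019091600), (nat_lit 33383908763), (nat_lit 34344654952)], (nat_lit 1271251), (nat_lit 1271251), (nat_lit 1271251), (nat_lit 1271251), (nat_lit 1100000), (nat_lit 2041876), [(nat_lit 490000), (nat_lit 1100000), (nat_lit 1442501)], [(nat_lit 3), (nat_lit 50), (nat_lit 401), (nat_lit 175), (nat_lit 14)]⟩,
 ⟨⟨[(nat_lit 60), (nat_lit 120), (nat_lit 160)], [(nat_lit 0), (nat_lit 0), (nat_lit 3243)], [((nat_lit 0), (nat_lit 0), (nat_lit 0)), ((nat_lit 0), (nat_lit 0), (nat_lit 0)), ((nat_lit 878), (nat_lit 1000), (nat_lit 945))], ((nat_lit 100), (nat_lit 92), (nat_lit 90))⟩, (nat_lit 0), (nat_lit 99), (nat_lit 99), (nat_lit 0), (nat_lit 0), [(nat_lit 3282000000), (nat_lit 7968000000), (nat_lit 11872000000)], [], [(nat_lit 20653527565), (nat_lit 23663123752), (nat_lit 31614030948), (nat_lit 33239720608), (nat_lit 31532872135), (nat_lit 33135870809), (nat_lit 39039386088), (nat_lit 40134804809)], (nat_lit 0), (nat_lit 0), (nat_lit 0), (nat_lit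 0), (nat_lit 0), (nat_lit 0), [], [(nat_lit 12), (nat_lit 59), (nat_lit 538), (nat_lit 300), (nat_lit 13)]⟩,
 ⟨⟨[(nat_lit 120), (nat_lit 160), (nat_lit 200)], [(nat_lit 0), (nat_lit 0), (nat_lit 3198)], [((nat_lit 0), (nat_lit 0), (nat_lit 0)), ((nat_lit 0), (nat_lit 0), (nat_lit 0)), ((nat_lit 572), (nat_lit 1000), (nat_lit 714))], ((nat_lit 0), (nat_lit 0), (nat_lit 0))⟩, (nat_lit 44878), (nat_lit 300), (nat_lit 1834), (nat_lit 6826401), (nat_lit 3223769), [(nat_lit 733056000), (nat_lit 1092224000), (nat_lit 1508800000)], [], [(nat_lit 5616072588), (nat_lit 5552404651), (nat_lit 5280983991), (nat_lit 5217466304), (nat_lit 5205134909), (nat_lit 5142927356), (nat_lit 4895796911), (nat_lit 4832022744)], (nat_lit 1100000), (nat_lit 1271251), (nat_lit 1100000), (nat_lit 2041876), (nat_lit 1271251), (nat_lit 1271251), [(nat_lit 1695001), (nat_lit 1271251), (nat_lit 1271251)], [(nat_lit 29), (nat_lit 66), (nat_lit 563), (nat_lit 225), (nat_lit 11)]⟩⟩)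 (.leaf ⟨(nat_lit 22), (nat_lit 745), (nat_lit 0), (nat_lit 233), (nat_lit 0), (nat_lit 3684), (nat_lit 7428), (nat_lit 2574), (nat_lit 0), (nat_lit 0), (nat_lit 88000), [((nat_lit 400), [((nat_lit 43), (nat_lit 5), (nat_lit 22))])], ⟨(nat_lit 7), false, true, false, (nat_lit 292), (nat_lit 0), (nat_lit 2237), [(nat_lit 1572676), (nat_lit 1583333), (nat_lit 1616372), (nat_lit 1631480), (nat_lit 1847661), (nat_lit 1824994), (nat_lit 1893212), (nat_lit 1874997)]⟩, ⟨(nat_lit 4), false, false, true, (nat_lit 194), (nat_lit 0), (nat_lit 2237), [(nat_lit 1397434), (nat_lit 1399999), (nat_lit 1419294), (nat_lit 1424084), (nat_lit 1554222), (nat_lit 1537494), (nat_lit 1576997), (nat_lit 1562495)]⟩, (nat_lit 5310791), (nat_lit 36168035), (nat_lit 20366261), (nat_lit 10465704), (nat_lit 5), (nat_lit 0), [⟨(nat_lit 0), (nat_lit 88), (nat_lit 32), (nat_lit 100), (nat_lit 418197391)⟩], [⟨(nat_lit 1), (nat_lit 100), (nat_lit 32), (nat_lit 100), (nat_lit 381060988)⟩],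 [⟨(nat_lit 1), (nat_lit 63), (nat_lit 88), (nat_lit 100), (nat_lit 164318797)⟩], [],
 ⟨⟨[(nat_lit 40), (nat_lit 80), (nat_lit 100)], [(nat_lit 0), (nat_lit 2514), (nat_lit 3562)], [((nat_lit 0), (nat_lit 0), (nat_lit 0)), ((nat_lit 1000), (nat_lit 446), (nat_lit 804)), ((nat_lit 1000), (nat_lit 443), (nat_lit 819))], ((nat_lit 44), (nat_lit 100), (nat_lit 84))⟩, (nat_lit 1178817), (nat_lit 159), (nat_lit 159), (nat_lit 0), (nat_lit 199103), [(nat_lit 1823484001), (nat_lit 4169243072), (nat_lit 5224571200)], [(nat_lit 0), (nat_lit 0), (nat_lit 0)], [(nat_lit 23528195890), (nat_lit 24697080182), (nat_lit 30458778439), (nat_lit 31524559832), (nat_lit 26127602219), (nat_lit 27099215828), (nat_lit 32278043108), (nat_lit 33164067034)], (nat_lit 1271251), (nat_lit 1271251), (nat_lit 1271251), (nat_lit 1271251), (nat_lit 1100000), (nat_lit 2041876), [(nat_lit 490000), (nat_lit 1100000), (nat_lit 1442501)], [(nat_lit 3), (nat_lit 50), (nat_lit 401), (nat_lit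 175), (nat_lit 14)]⟩,
 ⟨⟨[(nat_lit 60), (nat_lit 120), (nat_lit 160)], [(nat_lit 0), (nat_lit 0), (nat_lit 3243)], [((nat_lit 0), (nat_lit 0), (nat_lit 0)), ((nat_lit 0), (nat_lit 0), (nat_lit 0)), ((nat_lit 878), (nat_lit 1000), (nat_lit 945))], ((nat_lit 100), (nat_lit 92), (nat_lit 90))⟩, (nat_lit 1641861), (nat_lit 402), (nat_lit 402), (nat_lit 0), (nat_lit 635235), [(nat_lit 3209796000), (nat_lit 7792704000), (nat_lit 11610816000)], [], [(nat_lit 28747221446), (nat_lit 30199966209), (nat_lit 34028810762), (nat_lit 34803581646), (nat_lit 34039263251), (nat_lit 34792486331), (nat_lit 37349333853), (nat_lit 37799020239)], (nat_lit 1271251), (nat_lit 1271251), (nat_lit 1271251), (nat_lit 1271251), (nat_lit 1271251), (nat_lit 1271251), [(nat_lit 780000), (nat_lit 1762501), (nat_lit 1271251)], [(nat_lit 12), (nat_lit 59), (nat_lit 538), (nat_lit 300), (nat_lit 13)]⟩,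
 ⟨⟨[(nat_lit 120), (nat_lit 160), (nat_lit 200)], [(nat_lit 0), (nat_lit 0), (nat_lit 3198)], [((nat_lit 0), (nat_lit 0), (nat_lit 0)), ((nat_lit 0), (nat_lit 0), (nat_lit 0)), ((nat_lit 572), (nat_lit 1000), (nat_lit 714))], ((nat_lit 0), (nat_lit 0), (nat_lit 0))⟩, (nat_lit 113659), (nat_lit 300), (nat_lit 1289), (nat_lit 17288600), (nat_lit 2095061), [(nat_lit 1856544000), (nat_lit 2766176000), (nat_lit 3821200000)], [], [(nat_lit 13802827058), (nat_lit 13642748430), (nat_lit 12997424003), (nat_lit 12834010209), (nat_lit 12958279256), (nat_lit 12796566664), (nat_lit 12160498560), (nat_lit 12008280738)], (nat_lit 1100000), (nat_lit 1271251), (nat_lit 1100000), (nat_lit 2041876), (nat_lit 1271251), (nat_lit 1271251), [(nat_lit 1695001), (nat_lit 1271251), (nat_lit 1271251)], [(nat_lit 29), (nat_lit 66), (nat_lit 456), (nat_lit 225), (nat_lit 9)]⟩⟩)))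
noncomputable def c14_86 : Tr Lf :=
 (.spl (nat_lit 4) (nat_lit 200) (.leaf ⟨(nat_lit 682), (nat_lit 232), (nat_lit 0), (nat_lit 86), (nat_lit 0), (nat_lit 3780), (nat_lit 2057), (nat_lit 808), (nat_lit 0), (nat_lit 0), (nat_lit 343200), [((nat_lit 400), [((nat_lit 29), (nat_lit 1), (nat_lit 330)), ((nat_lit 43), (nat_lit 2), (nat_lit 352))])], ⟨(nat_lit 6), true, false, false, (nat_lit 225), (nat_lit 0), (nat_lit 2237), [(nat_lit 1470123), (nat_lit 1483344), (nat_lit 1513819), (nat_lit 1531491), (nat_lit 1602531), (nat_lit 1599967), (nat_lit 1646249), (nat_lit 1648136)]⟩, ⟨(nat_lit 4), false, false, false, (nat_lit 189), (nat_lit 0), (nat_lit 2237), [(nat_lit 1419294), (nat_lit 1424084), (nat_lit 1462989), (nat_lit 1472231), (nat_lit 1477224), (nat_lit 1474999), (nat_lit 1521847), (nat_lit 1524073)]⟩, (nat_lit 4993878), (nat_lit 41382937), (nat_lit 14575566), (nat_lit 11041497), (nat_lit 4), (nat_lit 0), [⟨(nat_lit 0), (nat_lit 95), (nat_lit 31),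 (nat_lit 100), (nat_lit 267152309)⟩], [], [], [],
 ⟨⟨[(nat_lit 40), (nat_lit 80), (nat_lit 100)], [(nat_lit 0), (nat_lit 2514), (nat_lit 3562)], [((nat_lit 0), (nat_lit 0), (nat_lit 0)), ((nat_lit 1000), (nat_lit 446), (nat_lit 804)), ((nat_lit 1000), (nat_lit 443), (nat_lit 819))], ((nat_lit 44), (nat_lit 100), (nat_lit 84))⟩, (nat_lit 1884), (nat_lit 184), (nat_lit 184), (nat_lit 0), (nat_lit 327430), [(nat_lit 1522692007), (nat_lit 1073048030), (nat_lit 1257636800)], [(nat_lit 0), (nat_lit 0), (nat_lit 0)], [(nat_lit 22317754511), (nat_lit 23603303242), (nat_lit 24114349612), (nat_lit 25425442000), (nat_lit 23127711045), (nat_lit 24461622807), (nat_lit 24905815322), (nat_lit 26265205960)], (nat_lit 1271251), (nat_lit 1271251), (nat_lit 1017188), (nat_lit 1779376), (nat_lit 1100000), (nat_lit 1442501), [(nat_lit 490000), (nat_lit 1100000), (nat_lit 1442501)], [(nat_lit 3), (nat_lit 50), (nat_lit 345), (nat_lit 125), (nat_lit 12)]⟩,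
 ⟨⟨[(nat_lit 80), (nat_lit 140), (nat_lit 180)], [(nat_lit 0), (nat_lit 0), (nat_lit 3656)], [((nat_lit 0), (nat_lit 0), (nat_lit 0)), ((nat_lit 0), (nat_lit 0), (nat_lit 0)), ((nat_lit 637), (nat_lit 1000), (nat_lit 908))], ((nat_lit 100), (nat_lit 73), (nat_lit 85))⟩, (nat_lit 593462), (nat_lit 273), (nat_lit 273), (nat_lit 0), (nat_lit 0), [(nat_lit 1490784000), (nat_lit 3129756000), (nat_lit 4470444000)], [], [(nat_lit 9903486034), (nat_lit 10655465303), (nat_lit 10545538784), (nat_lit 11168501834), (nat_lit 11515948929), (nat_lit 11813614203), (nat_lit 11535437900), (nat_lit 11775091684)], (nat_lit 0), (nat_lit 0), (nat_lit 0), (nat_lit 0), (nat_lit 0), (nat_lit 0), [], [(nat_lit 19), (nat_lit 63), (nat_lit 483), (nat_lit 250), (nat_lit 11)]⟩,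
 ⟨⟨[(nat_lit 120), (nat_lit 160), (nat_lit 200)], [(nat_lit 0), (nat_lit 533), (nat_lit 3597)], [((nat_lit 0), (nat_lit 0), (nat_lit 0)), ((nat_lit 960), (nat_lit 1000), (nat_lit 200)), ((nat_lit 612), (nat_lit 1000), (nat_lit 732))], ((nat_lit 0), (nat_lit 0), (nat_lit 0))⟩, (nat_lit 46761), (nat_lit 300), (nat_lit 1251), (nat_lit 6225428), (nat_lit 1751519), [(nat_lit 685248000), (nat_lit 1020992000), (nat_lit 1410400000)], [], [(nat_lit 6672337299), (nat_lit 6570867276), (nat_lit 6570724776), (nat_lit 6468969752), (nat_lit 5589193848), (nat_lit 5480504931), (nat_lit 6100643512), (nat_lit 5391759256)], (nat_lit 1271251), (nat_lit 1271251), (nat_lit 1100000), (nat_lit 1442501), (nat_lit 0), (nat_lit 2825001), [(nat_lit 1695001), (nat_lit 1271251), (nat_lit 1271251)], [(nat_lit 29), (nat_lit 66), (nat_lit 456), (nat_lit 225), (nat_lit 10)]⟩⟩) (.leaf ⟨(nat_lit 683), (nat_lit 230), (nat_lit 0), (nat_lit 87), (nat_lit 0), (nat_lit 3743), (nat_lit 2050),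 (nat_lit 862), (nat_lit 0), (nat_lit 0), (nat_lit 333600), [((nat_lit 400), [((nat_lit 29), (nat_lit 1), (nat_lit 381)), ((nat_lit 43), (nat_lit 2), (nat_lit 302))])], ⟨(nat_lit 6), true, false, false, (nat_lit 225), (nat_lit 0), (nat_lit 2237), [(nat_lit 1470123), (nat_lit 1483344), (nat_lit 1513819), (nat_lit 1531491), (nat_lit 1602531), (nat_lit 1599967), (nat_lit 1646249), (nat_lit 1648136)]⟩, ⟨(nat_lit 5), false, true, true, (nat_lit 211), (nat_lit 0), (nat_lit 2237), [(nat_lit 1477224), (nat_lit 1474999), (nat_lit 1521847), (nat_lit 1524073), (nat_lit 1534237), (nat_lit 1524996), (nat_lit 1579788), (nat_lit 1574999)]⟩, (nat_lit 5149997), (nat_lit 39935279), (nat_lit 14237421), (nat_lit 12827300), (nat_lit 5), (nat_lit 0), [⟨(nat_lit 0), (nat_lit 95), (nat_lit 31), (nat_lit 100), (nat_lit 277422624)⟩], [], [], [],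
 ⟨⟨[(nat_lit 40), (nat_lit 80), (nat_lit 100)], [(nat_lit 0), (nat_lit 2514), (nat_lit 3562)], [((nat_lit 0), (nat_lit 0), (nat_lit 0)), ((nat_lit 1000), (nat_lit 446), (nat_lit 804)), ((nat_lit 1000), (nat_lit 443), (nat_lit 819))], ((nat_lit 44), (nat_lit 100), (nat_lit 84))⟩, (nat_lit 749), (nat_lit 179), (nat_lit 179), (nat_lit 0), (nat_lit 327430), [(nat_lit 1522530875), (nat_lit 1147038029), (nat_lit 1364260800)], [(nat_lit 0), (nat_lit 0), (nat_lit 0)], [(nat_lit 23394277132), (nat_lit 24581009033), (nat_lit 25034850898), (nat_lit 26229046526), (nat_lit 24204998773), (nat_lit 25440263615), (nat_lit 25827586836), (nat_lit 27070194952)], (nat_lit 1271251), (nat_lit 1271251), (nat_lit 1017188), (nat_lit 1779376), (nat_lit 1271251), (nat_lit 1271251), [(nat_lit 490000), (nat_lit 1100000), (nat_lit 1442501)], [(nat_lit 3), (nat_lit 50), (nat_lit 272), (nat_lit 60), (nat_lit 9)]⟩,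
 ⟨⟨[(nat_lit 80), (nat_lit 140), (nat_lit 180)], [(nat_lit 0), (nat_lit 0), (nat_lit 3656)], [((nat_lit 0), (nat_lit 0), (nat_lit 0)), ((nat_lit 0), (nat_lit 0), (nat_lit 0)), ((nat_lit 637), (nat_lit 1000), (nat_lit 908))], ((nat_lit 100), (nat_lit 73), (nat_lit 85))⟩, (nat_lit 669363), (nat_lit 273), (nat_lit 273), (nat_lit 0), (nat_lit 0), [(nat_lit 1486096000), (nat_lit 3119914000), (nat_lit 4456386000)], [], [(nat_lit 9588101339), (nat_lit 10337215900), (nat_lit 10227751900), (nat_lit 10848687980), (nat_lit 11214110738), (nat_lit 11617500921), (nat_lit 11407956960), (nat_lit 11738259042)], (nat_lit 0), (nat_lit 0), (nat_lit 0), (nat_lit 0), (nat_lit 0), (nat_lit 0), [], [(nat_lit 19), (nat_lit 63), (nat_lit 483), (nat_lit 250), (nat_lit 11)]⟩,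
 ⟨⟨[(nat_lit 120), (nat_lit 160), (nat_lit 200)], [(nat_lit 0), (nat_lit 533), (nat_lit 3597)], [((nat_lit 0), (nat_lit 0), (nat_lit 0)), ((nat_lit 960), (nat_lit 1000), (nat_lit 200)), ((nat_lit 612), (nat_lit 1000), (nat_lit 732))], ((nat_lit 0), (nat_lit 0), (nat_lit 0))⟩, (nat_lit 171912), (nat_lit 300), (nat_lit 1234), (nat_lit 5882719), (nat_lit 1751519), [(nat_lit 693216000), (nat_lit 1032864000), (nat_lit 1426800000)], [], [(nat_lit 5850341587), (nat_lit 5739514509), (nat_lit 5739677461), (nat_lit 5632269444), (nat_lit 5622195348), (nat_lit 4865935164), (nat_lit 4861188130), (nat_lit 4455725644)], (nat_lit 1271251), (nat_lit 1271251), (nat_lit 1271251), (nat_lit 1271251), (nat_lit 0), (nat_lit 2825001), [(nat_lit 1695001), (nat_lit 1271251), (nat_lit 1271251)], [(nat_lit 29), (nat_lit 66), (nat_lit 456), (nat_lit 225), (nat_lit 10)]⟩⟩))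
noncomputable def c14_87 : Tr Lf :=
 (.spl (nat_lit 5) (nat_lit 200) (.spl (nat_lit 5) (nat_lit 120) (.spl (nat_lit 1) (nat_lit 260) (.spl (nat_lit 0) (nat_lit 390) (.spl (nat_lit 6) (nat_lit 68) (.leaf ⟨(nat_lit 900), (nat_lit 39), (nat_lit 0), (nat_lit 61), (nat_lit 0), (nat_lit 3197), (nat_lit 1159), (nat_lit 814), (nat_lit 0), (nat_lit 0), (nat_lit 305400), [((nat_lit 390), [((nat_lit 28), (nat_lit 0), (nat_lit 364)), ((nat_lit 28), (nat_lit 1), (nat_lit 536))])], ⟨(nat_lit 6), false, false, false, (nat_lit 220), (nat_lit 1581), (nat_lit 2237), [(nat_lit 1474080), (nat_lit 1478137), (nat_lit 1496810), (nat_lit 1501407), (nat_lit 1602558), (nat_lit 1601260), (nat_lit 1625287), (nat_lit 1624529)]⟩, ⟨(nat_lit 4), false, false, true, (nat_lit 200), (nat_lit 1581), (nat_lit 2237), [(nat_lit 1420170), (nat_lit 1422009), (nat_lit 1465627), (nat_lit 1468548), (nat_lit 1534240), (nat_lit 1531319), (nat_lit 1579788), (nat_lit 1577949)]⟩, (nat_lit 5049209),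 (nat_lit 40974780), (nat_lit 14010852), (nat_lit 12014368), (nat_lit 4), (nat_lit 0), [], [], [⟨(nat_lit 0), (nat_lit 100), (nat_lit 97), (nat_lit 25), (nat_lit 1491029)⟩, ⟨(nat_lit 0), (nat_lit 100), (nat_lit 96), (nat_lit 40), (nat_lit 12082697)⟩], [],
 ⟨⟨[(nat_lit 40), (nat_lit 60), (nat_lit 80)], [(nat_lit 0), (nat_lit 1539), (nat_lit 2453)], [((nat_lit 0), (nat_lit 0), (nat_lit 0)), ((nat_lit 1000), (nat_lit 478), (nat_lit 704)), ((nat_lit 1000), (nat_lit 474), (nat_lit 714))], ((nat_lit 45), (nat_lit 100), (nat_lit 78))⟩, (nat_lit 0), (nat_lit 101), (nat_lit 101), (nat_lit 0), (nat_lit 150451), [(nat_lit 1496632017), (nat_lit 1041363640), (nat_lit 1075723200)], [(nat_lit 0), (nat_lit 0), (nat_lit 0)], [(nat_lit 21671292362), (nat_lit 22329612172), (nat_lit 23742184669), (nat_lit 24311573089), (nat_lit 23663684388), (nat_lit 24240395162), (nat_lit 25438324198), (nat_lit 25942350851)], (nat_lit 1271251), (nat_lit 1271251), (nat_lit 1017188),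 (nat_lit 1779376), (nat_lit 1100000), (nat_lit 1785001), [(nat_lit 490000), (nat_lit 780000), (nat_lit 1100000)], [(nat_lit 2), (nat_lit 44), (nat_lit 272), (nat_lit 60), (nat_lit 11)]⟩,
 ⟨⟨[(nat_lit 80), (nat_lit 140), (nat_lit 180)], [(nat_lit 0), (nat_lit 0), (nat_lit 3656)], [((nat_lit 0), (nat_lit 0), (nat_lit 0)), ((nat_lit 0), (nat_lit 0), (nat_lit 0)), ((nat_lit 637), (nat_lit 1000), (nat_lit 908))], ((nat_lit 100), (nat_lit 81), (nat_lit 77))⟩, (nat_lit 57278), (nat_lit 559), (nat_lit 559), (nat_lit 0), (nat_lit 424815), [(nat_lit 468800000), (nat_lit 984200000), (nat_lit 1405800000)], [], [(nat_lit 4320214214), (nat_lit 4370863723), (nat_lit 4837070508), (nat_lit 4301801425), (nat_lit 4127521863), (nat_lit 3597390120), (nat_lit 5581196704), (nat_lit 5066312113)], (nat_lit 1271251), (nat_lit 1271251), (nat_lit 1017188), (nat_lit 1779376), (nat_lit 0), (nat_lit 780000), [(nat_lit 1100000), (nat_lit 2127501), (nat_lit 1271251)], [(nat_lit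 19), (nat_lit 63), (nat_lit 401), (nat_lit 175), (nat_lit 9)]⟩,
 ⟨⟨[(nat_lit 120), (nat_lit 160), (nat_lit 200)], [(nat_lit 0), (nat_lit 533), (nat_lit 3597)], [((nat_lit 0), (nat_lit 0), (nat_lit 0)), ((nat_lit 960), (nat_lit 1000), (nat_lit 200)), ((nat_lit 612), (nat_lit 1000), (nat_lit 732))], ((nat_lit 0), (nat_lit 0), (nat_lit 0))⟩, (nat_lit 70922), (nat_lit 300), (nat_lit 830), (nat_lit 4289942), (nat_lit 802488), [(nat_lit 486048000), (nat_lit 724192000), (nat_lit 1000400000)], [], [(nat_lit 3809522705), (nat_lit 3727881347), (nat_lit 3643701525), (nat_lit 3556983239), (nat_lit 3133330823), (nat_lit 3054854705), (nat_lit 3397211313), (nat_lit 2890368826)], (nat_lit 1271251), (nat_lit 1271251), (nat_lit 1100000), (nat_lit 1785001), (nat_lit 0), (nat_lit 780000), [(nat_lit 1695001), (nat_lit 1271251), (nat_lit 1271251)], [(nat_lit 29), (nat_lit 66), (nat_lit 373), (nat_lit 150), (nat_lit 8)]⟩⟩) (.leaf ⟨(nat_lit 887), (nat_lit 40), (nat_lit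 0), (nat_lit 73), (nat_lit 3749), (nat_lit 3641), (nat_lit 1382), (nat_lit 1031), (nat_lit 0), (nat_lit 0), (nat_lit 221750), [((nat_lit 390), [((nat_lit 29), (nat_lit 0), (nat_lit 887))])], ⟨(nat_lit 6), false, false, false, (nat_lit 220), (nat_lit 1581), (nat_lit 2237), [(nat_lit 1474080), (nat_lit 1478137), (nat_lit 1496810), (nat_lit 1501407), (nat_lit 1602558), (nat_lit 1601260), (nat_lit 1625287), (nat_lit 1624529)]⟩, ⟨(nat_lit 4), false, false, true, (nat_lit 200), (nat_lit 1581), (nat_lit 2237), [(nat_lit 1420170), (nat_lit 1422009), (nat_lit 1465627), (nat_lit 1468548), (nat_lit 1534240), (nat_lit 1531319), (nat_lit 1579788), (nat_lit 1577949)]⟩, (nat_lit 5049209), (nat_lit 40974780), (nat_lit 14010852), (nat_lit 12014368), (nat_lit 4), (nat_lit 0), [], [], [⟨(nat_lit 0), (nat_lit 100), (nat_lit 96), (nat_lit 40), (nat_lit 22835808)⟩], [],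
 ⟨⟨[(nat_lit 40), (nat_lit 80), (nat_lit 100)], [(nat_lit 0), (nat_lit 2514), (nat_lit 3562)], [((nat_lit 0), (nat_lit 0), (nat_lit 0)), ((nat_lit 1000), (nat_lit 446), (nat_lit 804)), ((nat_lit 1000), (nat_lit 443), (nat_lit 819))], ((nat_lit 44), (nat_lit 100), (nat_lit 84))⟩, (nat_lit 0), (nat_lit 78), (nat_lit 78), (nat_lit 0), (nat_lit 56996), [(nat_lit 1589732735), (nat_lit 1750610925), (nat_lit 2290786800)], [(nat_lit 0), (nat_lit 0), (nat_lit 0)], [(nat_lit 21936932601), (nat_lit 22638629740), (nat_lit 23995539816), (nat_lit 24599720076), (nat_lit 23934360252), (nat_lit 24554289555), (nat_lit 25671680253), (nat_lit 26321563703)], (nat_lit 1271251), (nat_lit 1271251), (nat_lit 1017188), (nat_lit 1779376), (nat_lit 1100000), (nat_lit 1785001), [(nat_lit 490000), (nat_lit 1100000), (nat_lit 1442501)], [(nat_lit 3), (nat_lit 50), (nat_lit 345), (nat_lit 125), (nat_lit 12)]⟩,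
 ⟨⟨[(nat_lit 80), (nat_lit 140), (nat_lit 180)], [(nat_lit 0), (nat_lit 0), (nat_lit 3656)], [((nat_lit 0), (nat_lit 0), (nat_lit 0)), ((nat_lit 0), (nat_lit 0), (nat_lit 0)), ((nat_lit 637), (nat_lit 1000), (nat_lit 908))], ((nat_lit 100), (nat_lit 73), (nat_lit 85))⟩, (nat_lit 18649), (nat_lit 406), (nat_lit 406), (nat_lit 0), (nat_lit 159657), [(nat_lit 529744000), (nat_lit 1112146000), (nat_lit 1588554000)], [], [(nat_lit 4870385641), (nat_lit 4981563974), (nat_lit 5475626160), (nat_lit 4979526592), (nat_lit 4629110574), (nat_lit 3996977642), (nat_lit 6343456568), (nat_lit 5729504450)], (nat_lit 1271251), (nat_lit 1271251), (nat_lit 1017188), (nat_lit 1779376), (nat_lit 0), (nat_lit 780000), [(nat_lit 1100000), (nat_lit 2127501), (nat_lit 1271251)], [(nat_lit 19), (nat_lit 63), (nat_lit 401), (nat_lit 175), (nat_lit 9)]⟩,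
 ⟨⟨[(nat_lit 120), (nat_lit 160), (nat_lit 200)], [(nat_lit 0), (nat_lit 533), (nat_lit 3597)], [((nat_lit 0), (nat_lit 0), (nat_lit 0)), ((nat_lit 960), (nat_lit 1000), (nat_lit 200)), ((nat_lit 612), (nat_lit 1000), (nat_lit 732))], ((nat_lit 0), (nat_lit 0), (nat_lit 0))⟩, (nat_lit 38857), (nat_lit 300), (nat_lit 601), (nat_lit 5287158), (nat_lit 300281), [(nat_lit 581664000), (nat_lit 866656000), (nat_lit 1197200000)], [], [(nat_lit 4582681378), (nat_lit 4476475598), (nat_lit 4380632685), (nat_lit 4312604503), (nat_lit 3720051684), (nat_lit 3617945228), (nat_lit 4119940689), (nat_lit 3404327150)], (nat_lit 1271251), (nat_lit 1271251), (nat_lit 1100000), (nat_lit 1785001), (nat_lit 0), (nat_lit 780000), [(nat_lit 1695001), (nat_lit 1271251), (nat_lit 1271251)], [(nat_lit 29), (nat_lit 66), (nat_lit 373), (nat_lit 150), (nat_lit 8)]⟩⟩)) (.trZ (nat_lit 0) (nat_lit 1) (nat_lit 3) (nat_lit 99) (nat_lit 31) (nat_lit 100) (nat_lit 170) (.leaf ⟨(nat_lit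 892), (nat_lit 53), (nat_lit 0), (nat_lit 55), (nat_lit 0), (nat_lit 3505), (nat_lit 1238), (nat_lit 749), (nat_lit 0), (nat_lit 0), (nat_lit 223000), [((nat_lit 400), [((nat_lit 29), (nat_lit 0), (nat_lit 892))])], ⟨(nat_lit 6), false, false, false, (nat_lit 226), (nat_lit 0), (nat_lit 1582), [(nat_lit 1503356), (nat_lit 1510203), (nat_lit 1526014), (nat_lit 1534546), (nat_lit 1601257), (nat_lit 1599992), (nat_lit 1623921), (nat_lit 1624340)]⟩, ⟨(nat_lit 4), false, false, true, (nat_lit 200), (nat_lit 0), (nat_lit 1582), [(nat_lit 1421394), (nat_lit 1424345), (nat_lit 1466711), (nat_lit 1473031), (nat_lit 1531317), (nat_lit 1524997), (nat_lit 1577949), (nat_lit 1574999)]⟩, (nat_lit 5083820), (nat_lit 40557955), (nat_lit 14530069), (nat_lit 11911976), (nat_lit 4), (nat_lit 0), [⟨(nat_lit 0), (nat_lit 97), (nat_lit 22), (nat_lit 100), (nat_lit 14536137)⟩], [], [⟨(nat_lit 0), (nat_lit 100), (nat_lit 97), (nat_lit 25), (nat_lit 67680573)⟩], [],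
 ⟨⟨[(nat_lit 40), (nat_lit 60), (nat_lit 80)], [(nat_lit 0), (nat_lit 2136), (nat_lit 3185)], [((nat_lit 0), (nat_lit 0), (nat_lit 0)), ((nat_lit 1000), (nat_lit 343), (nat_lit 808)), ((nat_lit 1000), (nat_lit 338), (nat_lit 820))], ((nat_lit 32), (nat_lit 100), (nat_lit 86))⟩, (nat_lit 4254), (nat_lit 115), (nat_lit 115), (nat_lit 0), (nat_lit 190176), [(nat_lit 1588558408), (nat_lit 1509044512), (nat_lit 1734052800)], [(nat_lit 0), (nat_lit 0), (nat_lit 0)], [(nat_lit 23064704057), (nat_lit 23733114993), (nat_lit 24715417098), (nat_lit 25308940398), (nat_lit 24916678051), (nat_lit 25501179018), (nat_lit 26325504721), (nat_lit 26846849358)], (nat_lit 1271251), (nat_lit 1271251), (nat_lit 1184688), (nat_lit 1790626), (nat_lit 1100000), (nat_lit 1785001), [(nat_lit 490000), (nat_lit 780000), (nat_lit 1100000)], [(nat_lit 2), (nat_lit 44), (nat_lit 203), (nat_lit 0), (nat_lit 7)]⟩,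
 ⟨⟨[(nat_lit 80), (nat_lit 140), (nat_lit 180)], [(nat_lit 0), (nat_lit 0), (nat_lit 3656)], [((nat_lit 0), (nat_lit 0), (nat_lit 0)), ((nat_lit 0), (nat_lit 0), (nat_lit 0)), ((nat_lit 637), (nat_lit 1000), (nat_lit 908))], ((nat_lit 100), (nat_lit 73), (nat_lit 85))⟩, (nat_lit 159609), (nat_lit 617), (nat_lit 617), (nat_lit 0), (nat_lit 593609), [(nat_lit 506304000), (nat_lit 1062936000), (nat_lit 1518264000)], [], [(nat_lit 4734370366), (nat_lit 4339225962), (nat_lit 4252258512), (nat_lit 4291162618), (nat_lit 3423146880), (nat_lit 3466305491), (nat_lit 4228306044), (nat_lit 3648746248)], (nat_lit 1271251), (nat_lit 1271251), (nat_lit 1184688), (nat_lit 1790626), (nat_lit 0), (nat_lit 780000), [(nat_lit 1100000), (nat_lit 2127501), (nat_lit 1271251)], [(nat_lit 19), (nat_lit 63), (nat_lit 401), (nat_lit 175), (nat_lit 9)]⟩,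
 ⟨⟨[(nat_lit 120), (nat_lit 160), (nat_lit 200)], [(nat_lit 0), (nat_lit 533), (nat_lit 3597)], [((nat_lit 0), (nat_lit 0), (nat_lit 0)), ((nat_lit 960), (nat_lit 1000), (nat_lit 200)), ((nat_lit 612), (nat_lit 1000), (nat_lit 732))], ((nat_lit 0), (nat_lit 0), (nat_lit 0))⟩, (nat_lit 29276), (nat_lit 300), (nat_lit 936), (nat_lit 3983475), (nat_lit 1073501), [(nat_lit 438240000), (nat_lit 652960000), (nat_lit 902000000)], [], [(nat_lit 3486036538), (nat_lit 3410172662), (nat_lit 3331985778), (nat_lit 3251862889), (nat_lit 2862204360), (nat_lit 2789276888), (nat_lit 3077477670), (nat_lit 2636526131)], (nat_lit 1271251), (nat_lit 1271251), (nat_lit 1100000), (nat_lit 1785001), (nat_lit 0), (nat_lit 780000), [(nat_lit 1695001), (nat_lit 1271251), (nat_lit 1271251)], [(nat_lit 29), (nat_lit 66), (nat_lit 373), (nat_lit 150), (nat_lit 8)]⟩⟩))) (.trZ (nat_lit 0) (nat_lit 1) (nat_lit 3) (nat_lit 96) (nat_lit 44) (nat_lit 100) (nat_lit 170) (.spl (nat_lit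 6) (nat_lit 68) (.leaf ⟨(nat_lit 556), (nat_lit 316), (nat_lit 0), (nat_lit 128), (nat_lit 0), (nat_lit 3540), (nat_lit 3226), (nat_lit 1691), (nat_lit 0), (nat_lit 0), (nat_lit 271400), [((nat_lit 400), [((nat_lit 28), (nat_lit 1), (nat_lit 311)), ((nat_lit 43), (nat_lit 2), (nat_lit 245))])], ⟨(nat_lit 6), false, false, false, (nat_lit 235), (nat_lit 0), (nat_lit 2237), [(nat_lit 1521399), (nat_lit 1533338), (nat_lit 1543247), (nat_lit 1557412), (nat_lit 1624400), (nat_lit 1624062), (nat_lit 1646249), (nat_lit 1648136)]⟩, ⟨(nat_lit 4), false, false, true, (nat_lit 200), (nat_lit 0), (nat_lit 2237), [(nat_lit 1419294), (nat_lit 1424084), (nat_lit 1462989), (nat_lit 1472231), (nat_lit 1534237), (nat_lit 1524996), (nat_lit 1579788), (nat_lit 1574999)]⟩, (nat_lit 5132419), (nat_lit 39932837), (nat_lit 15286501), (nat_lit 11780662), (nat_lit 4), (nat_lit 0), [⟨(nat_lit 0), (nat_lit 94), (nat_lit 31), (nat_lit 100), (nat_lit 715213045)⟩], [⟨(nat_lit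 1), (nat_lit 95), (nat_lit 31), (nat_lit 100), (nat_lit 38783135)⟩], [⟨(nat_lit 0), (nat_lit 100), (nat_lit 94), (nat_lit 35), (nat_lit 79755048)⟩], [],
 ⟨⟨[(nat_lit 40), (nat_lit 60), (nat_lit 80)], [(nat_lit 0), (nat_lit 1539), (nat_lit 2453)], [((nat_lit 0), (nat_lit 0), (nat_lit 0)), ((nat_lit 1000), (nat_lit 478), (nat_lit 704)), ((nat_lit 1000), (nat_lit 474), (nat_lit 714))], ((nat_lit 45), (nat_lit 100), (nat_lit 78))⟩, (nat_lit 349), (nat_lit 120), (nat_lit 120), (nat_lit 0), (nat_lit 212114), [(nat_lit 1573259208), (nat_lit 1487445668), (nat_lit 1806785600)], [(nat_lit 0), (nat_lit 0), (nat_lit 0)], [(nat_lit 22425618556), (nat_lit 23768995911), (nat_lit 24151452351), (nat_lit 25343984151), (nat_lit 24361538574), (nat_lit 25535898111), (nat_lit 25832142131), (nat_lit 26879402560)], (nat_lit 1271251), (nat_lit 1271251), (nat_lit 1184688), (nat_lit 1790626), (nat_lit 1100000), (nat_lit 1785001), [(nat_lit 490000), (nat_lit 780000), (nat_lit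 1100000)], [(nat_lit 2), (nat_lit 44), (nat_lit 203), (nat_lit 0), (nat_lit 7)]⟩,
 ⟨⟨[(nat_lit 80), (nat_lit 120), (nat_lit 160)], [(nat_lit 0), (nat_lit 528), (nat_lit 2577)], [((nat_lit 0), (nat_lit 0), (nat_lit 0)), ((nat_lit 1000), (nat_lit 959), (nat_lit 206)), ((nat_lit 929), (nat_lit 1000), (nat_lit 742))], ((nat_lit 100), (nat_lit 90), (nat_lit 79))⟩, (nat_lit 1352570), (nat_lit 527), (nat_lit 527), (nat_lit 0), (nat_lit 560629), [(nat_lit 2081472000), (nat_lit 3537792000), (nat_lit 5271168000)], [], [(nat_lit 15425975297), (nat_lit 14543117658), (nat_lit 14556319314), (nat_lit 14831141820), (nat_lit 12645302100), (nat_lit 12898549720), (nat_lit 13991779052), (nat_lit 13230137464)], (nat_lit 1271251), (nat_lit 1271251), (nat_lit 1184688), (nat_lit 1790626), (nat_lit 0), (nat_lit 780000), [(nat_lit 1100000), (nat_lit 1785001), (nat_lit 1271251)], [(nat_lit 18), (nat_lit 59), (nat_lit 401), (nat_lit 175), (nat_lit 10)]⟩,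
 ⟨⟨[(nat_lit 120), (nat_lit 160), (nat_lit 200)], [(nat_lit 0), (nat_lit 533), (nat_lit 3597)], [((nat_lit 0), (nat_lit 0), (nat_lit 0)), ((nat_lit 960), (nat_lit 1000), (nat_lit 200)), ((nat_lit 612), (nat_lit 1000), (nat_lit 732))], ((nat_lit 0), (nat_lit 0), (nat_lit 0))⟩, (nat_lit 299707), (nat_lit 300), (nat_lit 1007), (nat_lit 8499202), (nat_lit 1190785), [(nat_lit 1019904000), (nat_lit 1519616000), (nat_lit 2099200000)], [], [(nat_lit 7712641783), (nat_lit 7543880653), (nat_lit 7369831683), (nat_lit 7264353908), (nat_lit 6309776899), (nat_lit 6147564133), (nat_lit 7112242199), (nat_lit 5807447182)], (nat_lit 1271251), (nat_lit 1271251), (nat_lit 1100000), (nat_lit 1785001), (nat_lit 0), (nat_lit 780000), [(nat_lit 1695001), (nat_lit 1271251), (nat_lit 1271251)], [(nat_lit 29), (nat_lit 66), (nat_lit 373), (nat_lit 150), (nat_lit 8)]⟩⟩) (.leaf ⟨(nat_lit 0), (nat_lit 735), (nat_lit 0), (nat_lit 265), (nat_lit 4), (nat_lit 7551), (nat_lit 7090),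 (nat_lit 3710), (nat_lit 0), (nat_lit 0), (nat_lit 0), [], Pd.none, Pd.none, (nat_lit 0), (nat_lit 1), (nat_lit 0), (nat_lit 0), (nat_lit 4), (nat_lit 0), [⟨(nat_lit 0), (nat_lit 94), (nat_lit 31), (nat_lit 100), (nat_lit 1216413221)⟩], [], [⟨(nat_lit 0), (nat_lit 100), (nat_lit 94), (nat_lit 35), (nat_lit 161498339)⟩], [],
 ⟨⟨[(nat_lit 40), (nat_lit 80), (nat_lit 100)], [(nat_lit 0), (nat_lit 2514), (nat_lit 3562)], [((nat_lit 0), (nat_lit 0), (nat_lit 0)), ((nat_lit 1000), (nat_lit 446), (nat_lit 804)), ((nat_lit 1000), (nat_lit 443), (nat_lit 819))], ((nat_lit 44), (nat_lit 100), (nat_lit 84))⟩, (nat_lit 0), (nat_lit 118), (nat_lit 118), (nat_lit 0), (nat_lit 123816), [(nat_lit 2704681290), (nat_lit 5359214066), (nat_lit 6250000000)], [], [(nat_lit 25787606164), (nat_lit 27869032311), (nat_lit 27370765329), (nat_lit 29251875700), (nat_lit 27536266678), (nat_lit 29426540871), (nat_lit 28694776118), (nat_lit 30649197064)], (nat_lit 1271251), (nat_lit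 1271251), (nat_lit 1184688), (nat_lit 1790626), (nat_lit 1100000), (nat_lit 1785001), [(nat_lit 490000), (nat_lit 1100000), (nat_lit 1442501)], [(nat_lit 3), (nat_lit 50), (nat_lit 345), (nat_lit 125), (nat_lit 12)]⟩,
 ⟨⟨[(nat_lit 80), (nat_lit 140), (nat_lit 180)], [(nat_lit 0), (nat_lit 792), (nat_lit 4228)], [((nat_lit 0), (nat_lit 0), (nat_lit 0)), ((nat_lit 1000), (nat_lit 959), (nat_lit 206)), ((nat_lit 709), (nat_lit 1000), (nat_lit 949))], ((nat_lit 100), (nat_lit 82), (nat_lit 87))⟩, (nat_lit 2463554), (nat_lit 463), (nat_lit 463), (nat_lit 0), (nat_lit 317697), [(nat_lit 4688000000), (nat_lit 9842000000), (nat_lit 14058000000)], [], [(nat_lit 34613351214), (nat_lit 35368593053), (nat_lit 35437920060), (nat_lit 36287438084), (nat_lit 30566375397), (nat_lit 31307365512), (nat_lit 34543197992), (nat_lit 32234600824)], (nat_lit 1271251), (nat_lit 1271251), (nat_lit 1184688), (nat_lit 1790626), (nat_lit 0), (nat_lit 780000), [(nat_lit 1100000),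 (nat_lit 2127501), (nat_lit 1271251)], [(nat_lit 19), (nat_lit 63), (nat_lit 401), (nat_lit 175), (nat_lit 9)]⟩,
 ⟨⟨[(nat_lit 120), (nat_lit 160), (nat_lit 200)], [(nat_lit 0), (nat_lit 533), (nat_lit 3597)], [((nat_lit 0), (nat_lit 0), (nat_lit 0)), ((nat_lit 960), (nat_lit 1000), (nat_lit 200)), ((nat_lit 612), (nat_lit 1000), (nat_lit 732))], ((nat_lit 0), (nat_lit 0), (nat_lit 0))⟩, (nat_lit 141056), (nat_lit 300), (nat_lit 752), (nat_lit 19193108), (nat_lit 685653), [(nat_lit 2111520000), (nat_lit 3146080000), (nat_lit 4346000000)], [], [(nat_lit 16674960325), (nat_lit 16294304255), (nat_lit 15902225625), (nat_lit 15658450395), (nat_lit 13574184195), (nat_lit 13208230325), (nat_lit 14924681545), (nat_lit 12442404308)], (nat_lit 1271251), (nat_lit 1271251), (nat_lit 1100000), (nat_lit 1785001), (nat_lit 0), (nat_lit 780000), [(nat_lit 1695001), (nat_lit 1271251), (nat_lit 1271251)], [(nat_lit 29), (nat_lit 66), (nat_lit 373), (nat_lit 150), (nat_lit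 8)]⟩⟩)))) (.leaf ⟨(nat_lit 895), (nat_lit 19), (nat_lit 0), (nat_lit 86), (nat_lit 0), (nat_lit 3242), (nat_lit 1289), (nat_lit 973), (nat_lit 0), (nat_lit 0), (nat_lit 355150), [((nat_lit 400), [((nat_lit 29), (nat_lit 0), (nat_lit 19)), ((nat_lit 29), (nat_lit 1), (nat_lit 876))])], ⟨(nat_lit 6), false, false, false, (nat_lit 225), (nat_lit 0), (nat_lit 2237), [(nat_lit 1470123), (nat_lit 1483344), (nat_lit 1513819), (nat_lit 1531491), (nat_lit 1602531), (nat_lit 1599967), (nat_lit 1646249), (nat_lit 1648136)]⟩, ⟨(nat_lit 4), false, false, true, (nat_lit 200), (nat_lit 0), (nat_lit 2237), [(nat_lit 1419294), (nat_lit 1424084), (nat_lit 1462989), (nat_lit 1472231), (nat_lit 1534237), (nat_lit 1524996), (nat_lit 1579788), (nat_lit 1574999)]⟩, (nat_lit 5074737), (nat_lit 40666372), (nat_lit 14411016), (nat_lit 11922612), (nat_lit 4), (nat_lit 0), [⟨(nat_lit 0), (nat_lit 95), (nat_lit 31), (nat_lit 100), (nat_lit 853338)⟩], [], [], [],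
 ⟨⟨[(nat_lit 40), (nat_lit 80), (nat_lit 100)], [(nat_lit 0), (nat_lit 2514), (nat_lit 3562)], [((nat_lit 0), (nat_lit 0), (nat_lit 0)), ((nat_lit 1000), (nat_lit 446), (nat_lit 804)), ((nat_lit 1000), (nat_lit 443), (nat_lit 819))], ((nat_lit 44), (nat_lit 100), (nat_lit 84))⟩, (nat_lit 783), (nat_lit 148), (nat_lit 148), (nat_lit 0), (nat_lit 214782), [(nat_lit 1442087602), (nat_lit 842900749), (nat_lit 772535600)], [(nat_lit 0), (nat_lit 0), (nat_lit 0)], [(nat_lit 22133197364), (nat_lit 23378036506), (nat_lit 24064619672), (nat_lit 25143712868), (nat_lit 23996376004), (nat_lit 25089149888), (nat_lit 25647791414), (nat_lit 26600300662)], (nat_lit 1271251), (nat_lit 1271251), (nat_lit 1017188), (nat_lit 1779376), (nat_lit 1100000), (nat_lit 1785001), [(nat_lit 490000), (nat_lit 1100000), (nat_lit 1442501)], [(nat_lit 3), (nat_lit 50), (nat_lit 345), (nat_lit 125), (nat_lit 12)]⟩,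
 ⟨⟨[(nat_lit 80), (nat_lit 140), (nat_lit 180)], [(nat_lit 0), (nat_lit 0), (nat_lit 3656)], [((nat_lit 0), (nat_lit 0), (nat_lit 0)), ((nat_lit 0), (nat_lit 0), (nat_lit 0)), ((nat_lit 637), (nat_lit 1000), (nat_lit 908))], ((nat_lit 100), (nat_lit 73), (nat_lit 85))⟩, (nat_lit 165181), (nat_lit 609), (nat_lit 609), (nat_lit 0), (nat_lit 768684), [(nat_lit 492240000), (nat_lit 1033410000), (nat_lit 1476090000)], [], [(nat_lit 3117670601), (nat_lit 3207282027), (nat_lit 4035187194), (nat_lit 3147552002), (nat_lit 3747593356), (nat_lit 3025117356), (nat_lit 5273732618), (nat_lit 4098498469)], (nat_lit 1271251), (nat_lit 1271251), (nat_lit 1017188), (nat_lit 1779376), (nat_lit 780000), (nat_lit 1435001), [(nat_lit 1100000), (nat_lit 2127501), (nat_lit 1271251)], [(nat_lit 19), (nat_lit 63), (nat_lit 428), (nat_lit 200), (nat_lit 10)]⟩,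
 ⟨⟨[(nat_lit 120), (nat_lit 160), (nat_lit 200)], [(nat_lit 0), (nat_lit 533), (nat_lit 3597)], [((nat_lit 0), (nat_lit 0), (nat_lit 0)), ((nat_lit 960), (nat_lit 1000), (nat_lit 200)), ((nat_lit 612), (nat_lit 1000), (nat_lit 732))], ((nat_lit 0), (nat_lit 0), (nat_lit 0))⟩, (nat_lit 201366), (nat_lit 300), (nat_lit 905), (nat_lit 5710400), (nat_lit 1201710), [(nat_lit 685248000), (nat_lit 1020992000), (nat_lit 1410400000)], [], [(nat_lit 4636522825), (nat_lit 4526865971), (nat_lit 4415614792), (nat_lit 4322473551), (nat_lit 4353907391), (nat_lit 4243236524), (nat_lit 4150903553), (nat_lit 4055704943)], (nat_lit 1271251), (nat_lit 1271251), (nat_lit 1100000), (nat_lit 1785001), (nat_lit 780000), (nat_lit 1435001), [(nat_lit 1695001), (nat_lit 1271251), (nat_lit 1271251)], [(nat_lit 29), (nat_lit 66), (nat_lit 401), (nat_lit 175), (nat_lit 8)]⟩⟩)) (.leaf ⟨(nat_lit 801), (nat_lit 32), (nat_lit 0), (nat_lit 167), (nat_lit 0), (nat_lit 3309), (nat_lit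 2289), (nat_lit 1914), (nat_lit 0), (nat_lit 0), (nat_lit 383000), [((nat_lit 400), [((nat_lit 29), (nat_lit 1), (nat_lit 488)), ((nat_lit 43), (nat_lit 2), (nat_lit 313))])], ⟨(nat_lit 6), false, false, false, (nat_lit 225), (nat_lit 0), (nat_lit 2237), [(nat_lit 1470123), (nat_lit 1483344), (nat_lit 1513819), (nat_lit 1531491), (nat_lit 1602531), (nat_lit 1599967), (nat_lit 1646249), (nat_lit 1648136)]⟩, ⟨(nat_lit 4), false, false, true, (nat_lit 200), (nat_lit 0), (nat_lit 2237), [(nat_lit 1419294), (nat_lit 1424084), (nat_lit 1462989), (nat_lit 1472231), (nat_lit 1534237), (nat_lit 1524996), (nat_lit 1579788), (nat_lit 1574999)]⟩, (nat_lit 5074737), (nat_lit 40666372), (nat_lit 14411016), (nat_lit 11922612), (nat_lit 5), (nat_lit 0), [⟨(nat_lit 0), (nat_lit 95), (nat_lit 31), (nat_lit 100), (nat_lit 107683657)⟩], [], [], [],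
 ⟨⟨[(nat_lit 40), (nat_lit 80), (nat_lit 100)], [(nat_lit 0), (nat_lit 2514), (nat_lit 3562)], [((nat_lit 0), (nat_lit 0), (nat_lit 0)), ((nat_lit 1000), (nat_lit 446), (nat_lit 804)), ((nat_lit 1000), (nat_lit 443), (nat_lit 819))], ((nat_lit 44), (nat_lit 100), (nat_lit 84))⟩, (nat_lit 0), (nat_lit 148), (nat_lit 148), (nat_lit 0), (nat_lit 214782), [(nat_lit 1475136404), (nat_lit 739254028), (nat_lit 613041200)], [(nat_lit 0), (nat_lit 0), (nat_lit 0)], [(nat_lit 21932063779), (nat_lit 23188832179), (nat_lit 23859926486), (nat_lit 24948569728), (nat_lit 23794378102), (nat_lit 24915703118), (nat_lit 25547539678), (nat_lit 26662293976)], (nat_lit 1271251), (nat_lit 1271251), (nat_lit 1017188), (nat_lit 1779376), (nat_lit 1100000), (nat_lit 1785001), [(nat_lit 490000), (nat_lit 1100000), (nat_lit 1442501)], [(nat_lit 3), (nat_lit 50), (nat_lit 345), (nat_lit 125), (nat_lit 12)]⟩,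
 ⟨⟨[(nat_lit 80), (nat_lit 140), (nat_lit 180)], [(nat_lit 0), (nat_lit 0), (nat_lit 3656)], [((nat_lit 0), (nat_lit 0), (nat_lit 0)), ((nat_lit 0), (nat_lit 0), (nat_lit 0)), ((nat_lit 637), (nat_lit 1000), (nat_lit 908))], ((nat_lit 100), (nat_lit 73), (nat_lit 85))⟩, (nat_lit 225107), (nat_lit 576), (nat_lit 576), (nat_lit 0), (nat_lit 768684), [(nat_lit 932912000), (nat_lit 1958558000), (nat_lit 2797542000)], [], [(nat_lit 6292299401), (nat_lit 6421307358), (nat_lit 8280514882), (nat_lit 6193570764), (nat_lit 7728454179), (nat_lit 7919190568), (nat_lit 7476514608), (nat_lit 7609913548)], (nat_lit 1271251), (nat_lit 1271251), (nat_lit 1017188), (nat_lit 1779376), (nat_lit 1271251), (nat_lit 1271251), [(nat_lit 1100000), (nat_lit 2127501), (nat_lit 1271251)], [(nat_lit 19), (nat_lit 63), (nat_lit 483), (nat_lit 250), (nat_lit 11)]⟩,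
 ⟨⟨[(nat_lit 120), (nat_lit 160), (nat_lit 200)], [(nat_lit 0), (nat_lit 533), (nat_lit 3597)], [((nat_lit 0), (nat_lit 0), (nat_lit 0)), ((nat_lit 960), (nat_lit 1000), (nat_lit 200)), ((nat_lit 612), (nat_lit 1000), (nat_lit 732))], ((nat_lit 0), (nat_lit 0), (nat_lit 0))⟩, (nat_lit 391024), (nat_lit 300), (nat_lit 867), (nat_lit 11088802), (nat_lit 1201710), [(nat_lit 1330656000), (nat_lit 1982624000), (nat_lit 2738800000)], [], [(nat_lit 8352556765), (nat_lit 8174592318), (nat_lit 7991645877), (nat_lit 7803084334), (nat_lit 8195440867), (nat_lit 8018958137), (nat_lit 7836240367), (nat_lit 7647287557)], (nat_lit 1271251), (nat_lit 1271251), (nat_lit 1100000), (nat_lit 1785001), (nat_lit 1271251), (nat_lit 1271251), [(nat_lit 1695001), (nat_lit 1271251), (nat_lit 1271251)], [(nat_lit 29), (nat_lit 66), (nat_lit 456), (nat_lit 225), (nat_lit 9)]⟩⟩))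
noncomputable def c14_88 : Tr Lf :=
 (.spl (nat_lit 1) (nat_lit 260) (.spl (nat_lit 3) (nat_lit 200) (.spl (nat_lit 6) (nat_lit 68) (.spl (nat_lit 2) (nat_lit 200) (.trX (nat_lit 4) (nat_lit 0) (nat_lit 2) (nat_lit 44) (nat_lit 90) (nat_lit 100) (nat_lit 290) (.leaf ⟨(nat_lit 921), (nat_lit 25), (nat_lit 0), (nat_lit 54), (nat_lit 0), (nat_lit 3503), (nat_lit 1065), (nat_lit 713), (nat_lit 0), (nat_lit 0), (nat_lit 230250), [((nat_lit 400), [((nat_lit 28), (nat_lit 0), (nat_lit 921))])], ⟨(nat_lit 6), false, false, false, (nat_lit 209), (nat_lit 0), (nat_lit 2237), [(nat_lit 1470123), (nat_lit 1483344), (nat_lit 1491970), (nat_lit 1507417), (nat_lit 1543695), (nat_lit 1548146), (nat_lit 1565543), (nat_lit 1572220)]⟩, ⟨(nat_lit 6), false, true, true, (nat_lit 230), (nat_lit 0), (nat_lit 2237), [(nat_lit 1534237), (nat_lit 1524996), (nat_lit 1557013), (nat_lit 1549998), (nat_lit 1605504), (nat_lit 1587494), (nat_lit 1628279), (nat_lit 1612494)]⟩, (nat_lit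 5170143), (nat_lit 39667742), (nat_lit 12626159), (nat_lit 14706099), (nat_lit 6), (nat_lit 0), [⟨(nat_lit 0), (nat_lit 100), (nat_lit 44), (nat_lit 99), (nat_lit 19012615)⟩], [⟨(nat_lit 1), (nat_lit 90), (nat_lit 44), (nat_lit 100), (nat_lit 336632850)⟩], [⟨(nat_lit 0), (nat_lit 100), (nat_lit 95), (nat_lit 30), (nat_lit 30887672)⟩], [],
 ⟨⟨[(nat_lit 40), (nat_lit 60), (nat_lit 80)], [(nat_lit 0), (nat_lit 1539), (nat_lit 2453)], [((nat_lit 0), (nat_lit 0), (nat_lit 0)), ((nat_lit 1000), (nat_lit 478), (nat_lit 704)), ((nat_lit 1000), (nat_lit 474), (nat_lit 714))], ((nat_lit 45), (nat_lit 100), (nat_lit 78))⟩, (nat_lit 0), (nat_lit 72), (nat_lit 72), (nat_lit 0), (nat_lit 0), [(nat_lit 1581749207), (nat_lit 1435154086), (nat_lit 1638016400)], [(nat_lit 0), (nat_lit 0), (nat_lit 0)], [(nat_lit 23968352325), (nat_lit 25170672788), (nat_lit 24876093541), (nat_lit 25994498846), (nat_lit 25773753390), (nat_lit 27109878398), (nat_lit 26600284766), (nat_lit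 27836765668)], (nat_lit 0), (nat_lit 0), (nat_lit 0), (nat_lit 0), (nat_lit 0), (nat_lit 0), [], [(nat_lit 2), (nat_lit 44), (nat_lit 260), (nat_lit 50), (nat_lit 10)]⟩,
 ⟨⟨[(nat_lit 80), (nat_lit 140), (nat_lit 180)], [(nat_lit 0), (nat_lit 0), (nat_lit 3656)], [((nat_lit 0), (nat_lit 0), (nat_lit 0)), ((nat_lit 0), (nat_lit 0), (nat_lit 0)), ((nat_lit 637), (nat_lit 1000), (nat_lit 908))], ((nat_lit 100), (nat_lit 81), (nat_lit 77))⟩, (nat_lit 196656), (nat_lit 623), (nat_lit 623), (nat_lit 0), (nat_lit 587735), [(nat_lit 370352000), (nat_lit 777518000), (nat_lit 1110582000)], [], [(nat_lit 2685316992), (nat_lit 2767189228), (nat_lit 3301847498), (nat_lit 2803642631), (nat_lit 3188475905), (nat_lit 2701340180), (nat_lit 3905838413), (nat_lit 3426524780)], (nat_lit 1271251), (nat_lit 1271251), (nat_lit 1017188), (nat_lit 1440626), (nat_lit 0), (nat_lit 780000), [(nat_lit 1100000), (nat_lit 2127501), (nat_lit 1271251)], [(nat_lit 19), (nat_lit 63),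 (nat_lit 373), (nat_lit 150), (nat_lit 9)]⟩,
 ⟨⟨[(nat_lit 120), (nat_lit 160), (nat_lit 200)], [(nat_lit 0), (nat_lit 533), (nat_lit 3597)], [((nat_lit 0), (nat_lit 0), (nat_lit 0)), ((nat_lit 960), (nat_lit 1000), (nat_lit 200)), ((nat_lit 612), (nat_lit 1000), (nat_lit 732))], ((nat_lit 0), (nat_lit 0), (nat_lit 0))⟩, (nat_lit 28744), (nat_lit 300), (nat_lit 899), (nat_lit 3911047), (nat_lit 1062675), [(nat_lit 430272000), (nat_lit 641088000), (nat_lit 885600000)], [], [(nat_lit 3305001819), (nat_lit 3267203054), (nat_lit 3276921850), (nat_lit 3250389489), (nat_lit 2719080217), (nat_lit 2682685884), (nat_lit 2688698151), (nat_lit 2650170818)], (nat_lit 1271251), (nat_lit 1271251), (nat_lit 1271251), (nat_lit 1271251), (nat_lit 0), (nat_lit 780000), [(nat_lit 1695001), (nat_lit 1271251), (nat_lit 1271251)], [(nat_lit 29), (nat_lit 66), (nat_lit 401), (nat_lit 175), (nat_lit 8)]⟩⟩)) (.leaf ⟨(nat_lit 888), (nat_lit 11), (nat_lit 0), (nat_lit 101),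 (nat_lit 0), (nat_lit 3597), (nat_lit 1510), (nat_lit 1294), (nat_lit 0), (nat_lit 0), (nat_lit 222000), [((nat_lit 400), [((nat_lit 28), (nat_lit 0), (nat_lit 888))])], ⟨(nat_lit 6), false, false, false, (nat_lit 209), (nat_lit 0), (nat_lit 2237), [(nat_lit 1470123), (nat_lit 1483344), (nat_lit 1491970), (nat_lit 1507417), (nat_lit 1543695), (nat_lit 1548146), (nat_lit 1565543), (nat_lit 1572220)]⟩, ⟨(nat_lit 6), false, true, true, (nat_lit 245), (nat_lit 0), (nat_lit 2237), [(nat_lit 1557013), (nat_lit 1549998), (nat_lit 1579788), (nat_lit 1574999), (nat_lit 1656786), (nat_lit 1637494), (nat_lit 1679562), (nat_lit 1662495)]⟩, (nat_lit 5247076), (nat_lit 38623757), (nat_lit 12396543), (nat_lit 15979700), (nat_lit 6), (nat_lit 0), [⟨(nat_lit 0), (nat_lit 97), (nat_lit 31), (nat_lit 100), (nat_lit 42734707)⟩], [⟨(nat_lit 1), (nat_lit 93), (nat_lit 31), (nat_lit 100), (nat_lit 449772182)⟩], [⟨(nat_lit 0), (nat_lit 100), (nat_lit 97), (nat_lit 30),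 (nat_lit 68416173)⟩], [],
 ⟨⟨[(nat_lit 40), (nat_lit 60), (nat_lit 80)], [(nat_lit 0), (nat_lit 1539), (nat_lit 2453)], [((nat_lit 0), (nat_lit 0), (nat_lit 0)), ((nat_lit 1000), (nat_lit 478), (nat_lit 704)), ((nat_lit 1000), (nat_lit 474), (nat_lit 714))], ((nat_lit 45), (nat_lit 100), (nat_lit 78))⟩, (nat_lit 0), (nat_lit 78), (nat_lit 78), (nat_lit 0), (nat_lit 0), [(nat_lit 1589497602), (nat_lit 1474730664), (nat_lit 1747299200)], [(nat_lit 0), (nat_lit 0), (nat_lit 0)], [(nat_lit 23980096623), (nat_lit 25223346878), (nat_lit 24882053819), (nat_lit 26086363354), (nat_lit 26736039298), (nat_lit 28025782886), (nat_lit 27488437166), (nat_lit 28682697380)], (nat_lit 0), (nat_lit 0), (nat_lit 0), (nat_lit 0), (nat_lit 0), (nat_lit 0), [], [(nat_lit 2), (nat_lit 44), (nat_lit 260), (nat_lit 50), (nat_lit 10)]⟩,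
 ⟨⟨[(nat_lit 80), (nat_lit 140), (nat_lit 180)], [(nat_lit 0), (nat_lit 0), (nat_lit 3656)], [((nat_lit 0), (nat_lit 0), (nat_lit 0)), ((nat_lit 0), (nat_lit 0), (nat_lit 0)), ((nat_lit 637), (nat_lit 1000), (nat_lit 908))], ((nat_lit 100), (nat_lit 81), (nat_lit 77))⟩, (nat_lit 265592), (nat_lit 610), (nat_lit 610), (nat_lit 0), (nat_lit 552452), [(nat_lit 525056000), (nat_lit 1102304000), (nat_lit 1574496000)], [], [(nat_lit 3855270808), (nat_lit 3971494652), (nat_lit 4681065884), (nat_lit 4023168175), (nat_lit 4520309670), (nat_lit 3829628970), (nat_lit 5537399294), (nat_lit 4857809072)], (nat_lit 1271251), (nat_lit 1271251), (nat_lit 1017188), (nat_lit 1440626), (nat_lit 0), (nat_lit 780000), [(nat_lit 1100000), (nat_lit 2127501), (nat_lit 1271251)], [(nat_lit 19), (nat_lit 63), (nat_lit 373), (nat_lit 150), (nat_lit 9)]⟩,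
 ⟨⟨[(nat_lit 100), (nat_lit 140), (nat_lit 180)], [(nat_lit 0), (nat_lit 0), (nat_lit 2434)], [((nat_lit 0), (nat_lit 0), (nat_lit 0)), ((nat_lit 0), (nat_lit 0), (nat_lit 0)), ((nat_lit 726), (nat_lit 1000), (nat_lit 688))], ((nat_lit 100), (nat_lit 66), (nat_lit 75))⟩, (nat_lit 58260), (nat_lit 300), (nat_lit 729), (nat_lit 7100300), (nat_lit 825799), [(nat_lit 631250000), (nat_lit 994042000), (nat_lit 1419858000)], [], [(nat_lit 5224921922), (nat_lit 5178186679), (nat_lit 5239591408), (nat_lit 5207651330), (nat_lit 4221286015), (nat_lit 4175139224), (nat_lit 4222643231), (nat_lit 4168700582)], (nat_lit 1271251), (nat_lit 1271251), (nat_lit 1271251), (nat_lit 1271251), (nat_lit 0), (nat_lit 780000), [(nat_lit 1412501), (nat_lit 1271251), (nat_lit 1271251)], [(nat_lit 24), (nat_lit 63), (nat_lit 401), (nat_lit 175), (nat_lit 9)]⟩⟩)) (.spl (nat_lit 0) (nat_lit 390) (.leaf ⟨(nat_lit 835), (nat_lit 0), (nat_lit 0), (nat_lit 165), (nat_lit 2107), (nat_lit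 3674), (nat_lit 2224), (nat_lit 1765), (nat_lit 0), (nat_lit 0), (nat_lit 208750), [((nat_lit 390), [((nat_lit 29), (nat_lit 0), (nat_lit 835))])], ⟨(nat_lit 6), false, false, false, (nat_lit 209), (nat_lit 1581), (nat_lit 2237), [(nat_lit 1474080), (nat_lit 1478137), (nat_lit 1496810), (nat_lit 1501407), (nat_lit 1545457), (nat_lit 1546538), (nat_lit 1568186), (nat_lit 1569808)]⟩, ⟨(nat_lit 6), false, true, true, (nat_lit 242), (nat_lit 1581), (nat_lit 2237), [(nat_lit 1534240), (nat_lit 1531319), (nat_lit 1579788), (nat_lit 1577949), (nat_lit 1634017), (nat_lit 1626932), (nat_lit 1679566), (nat_lit 1673562)]⟩, (nat_lit 5231751), (nat_lit 38842436), (nat_lit 12435797), (nat_lit 15721767), (nat_lit 0), (nat_lit 0), [⟨(nat_lit 0), (nat_lit 98), (nat_lit 38), (nat_lit 100), (nat_lit 115970155)⟩], [⟨(nat_lit 1), (nat_lit 93), (nat_lit 38), (nat_lit 100), (nat_lit 264744951)⟩], [⟨(nat_lit 0), (nat_lit 100), (nat_lit 97), (nat_lit 25), (nat_lit 113378749)⟩],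 [],
 ⟨⟨[(nat_lit 40), (nat_lit 80), (nat_lit 100)], [(nat_lit 0), (nat_lit 2514), (nat_lit 3562)], [((nat_lit 0), (nat_lit 0), (nat_lit 0)), ((nat_lit 1000), (nat_lit 446), (nat_lit 804)), ((nat_lit 1000), (nat_lit 443), (nat_lit 819))], ((nat_lit 44), (nat_lit 100), (nat_lit 84))⟩, (nat_lit 0), (nat_lit 75), (nat_lit 75), (nat_lit 0), (nat_lit 0), [(nat_lit 1601942001), (nat_lit 1922814001), (nat_lit 2522894000)], [(nat_lit 0), (nat_lit 0), (nat_lit 0)], [(nat_lit 24081810173), (nat_lit 24717305152), (nat_lit 24979029395), (nat_lit 25574281801), (nat_lit 26822253226), (nat_lit 27473628696), (nat_lit 27566181424), (nat_lit 28169093251)], (nat_lit 0), (nat_lit 0), (nat_lit 0), (nat_lit 0), (nat_lit 0), (nat_lit 0), [], [(nat_lit 3), (nat_lit 50), (nat_lit 260), (nat_lit 50), (nat_lit 8)]⟩,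
 ⟨⟨[(nat_lit 80), (nat_lit 140), (nat_lit 180)], [(nat_lit 0), (nat_lit 0), (nat_lit 3656)], [((nat_lit 0), (nat_lit 0), (nat_lit 0)), ((nat_lit 0), (nat_lit 0), (nat_lit 0)), ((nat_lit 637), (nat_lit 1000), (nat_lit 908))], ((nat_lit 100), (nat_lit 73), (nat_lit 85))⟩, (nat_lit 174231), (nat_lit 406), (nat_lit 406), (nat_lit 0), (nat_lit 159657), [(nat_lit 773520000), (nat_lit 1623930000), (nat_lit 2319570000)], [], [(nat_lit 6473419731), (nat_lit 6643978452), (nat_lit 6896363424), (nat_lit 6720136328), (nat_lit 6659652568), (nat_lit 5642385099), (nat_lit 8157740208), (nat_lit 7156807324)], (nat_lit 1271251), (nat_lit 1271251), (nat_lit 1017188), (nat_lit 1440626), (nat_lit 0), (nat_lit 780000), [(nat_lit 1100000), (nat_lit 2127501), (nat_lit 1271251)], [(nat_lit 19), (nat_lit 63), (nat_lit 373), (nat_lit 150), (nat_lit 9)]⟩,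
 ⟨⟨[(nat_lit 120), (nat_lit 160), (nat_lit 200)], [(nat_lit 0), (nat_lit 533), (nat_lit 3597)], [((nat_lit 0), (nat_lit 0), (nat_lit 0)), ((nat_lit 960), (nat_lit 1000), (nat_lit 200)), ((nat_lit 612), (nat_lit 1000), (nat_lit 732))], ((nat_lit 0), (nat_lit 0), (nat_lit 0))⟩, (nat_lit 87827), (nat_lit 300), (nat_lit 527), (nat_lit 11950432), (nat_lit 300281), [(nat_lit 1314720000), (nat_lit 1958880000), (nat_lit 2706000000)], [], [(nat_lit 9924651461), (nat_lit 9801402675), (nat_lit 10064960530), (nat_lit 9947965105), (nat_lit 8531247496), (nat_lit 8411280824), (nat_lit 8563214424), (nat_lit 8429413522)], (nat_lit 1271251), (nat_lit 1271251), (nat_lit 1271251), (nat_lit 1271251), (nat_lit 0), (nat_lit 780000), [(nat_lit 1695001), (nat_lit 1271251), (nat_lit 1271251)], [(nat_lit 29), (nat_lit 66), (nat_lit 401), (nat_lit 175), (nat_lit 8)]⟩⟩) (.trZ (nat_lit 0) (nat_lit 1) (nat_lit 3) (nat_lit 99) (nat_lit 31) (nat_lit 100) (nat_lit 170) (.trX (nat_lit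 4) (nat_lit 0) (nat_lit 2) (nat_lit 31) (nat_lit 92) (nat_lit 100) (nat_lit 290) (.leaf ⟨(nat_lit 819), (nat_lit 47), (nat_lit 0), (nat_lit 134), (nat_lit 0), (nat_lit 3648), (nat_lit 2321), (nat_lit 1824), (nat_lit 0), (nat_lit 0), (nat_lit 204750), [((nat_lit 400), [((nat_lit 29), (nat_lit 0), (nat_lit 819))])], ⟨(nat_lit 6), false, false, false, (nat_lit 215), (nat_lit 0), (nat_lit 1582), [(nat_lit 1503356), (nat_lit 1510203), (nat_lit 1526014), (nat_lit 1534546), (nat_lit 1545316), (nat_lit 1548686), (nat_lit 1567974), (nat_lit 1573029)]⟩, ⟨(nat_lit 6), false, true, true, (nat_lit 234), (nat_lit 0), (nat_lit 1582), [(nat_lit 1531317), (nat_lit 1524997), (nat_lit 1577949), (nat_lit 1574999), (nat_lit 1599609), (nat_lit 1587494), (nat_lit 1646241), (nat_lit 1637496)]⟩, (nat_lit 5232274), (nat_lit 38978094), (nat_lit 13083152), (nat_lit 14938754), (nat_lit 6), (nat_lit 0), [⟨(nat_lit 0), (nat_lit 97), (nat_lit 22), (nat_lit 100), (nat_lit 384374114)⟩],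 [⟨(nat_lit 1), (nat_lit 98), (nat_lit 22), (nat_lit 100), (nat_lit 565160464)⟩], [⟨(nat_lit 0), (nat_lit 100), (nat_lit 97), (nat_lit 25), (nat_lit 91700762)⟩], [],
 ⟨⟨[(nat_lit 40), (nat_lit 60), (nat_lit 80)], [(nat_lit 0), (nat_lit 2136), (nat_lit 3185)], [((nat_lit 0), (nat_lit 0), (nat_lit 0)), ((nat_lit 1000), (nat_lit 343), (nat_lit 808)), ((nat_lit 1000), (nat_lit 338), (nat_lit 820))], ((nat_lit 32), (nat_lit 100), (nat_lit 86))⟩, (nat_lit 0), (nat_lit 64), (nat_lit 64), (nat_lit 0), (nat_lit 0), [(nat_lit 1606778763), (nat_lit 1695304440), (nat_lit 1975799600)], [(nat_lit 0), (nat_lit 0), (nat_lit 0)], [(nat_lit 25034584858), (nat_lit 25655572972), (nat_lit 25636490724), (nat_lit 26238141568), (nat_lit 26817016692), (nat_lit 27458953959), (nat_lit 27367404606), (nat_lit 27997379376)], (nat_lit 0), (nat_lit 0), (nat_lit 0), (nat_lit 0), (nat_lit 0), (nat_lit 0), [], [(nat_lit 2), (nat_lit 44), (nat_lit 203), (nat_lit 0), (nat_lit 7)]⟩,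
 ⟨⟨[(nat_lit 80), (nat_lit 140), (nat_lit 180)], [(nat_lit 0), (nat_lit 0), (nat_lit 3656)], [((nat_lit 0), (nat_lit 0), (nat_lit 0)), ((nat_lit 0), (nat_lit 0), (nat_lit 0)), ((nat_lit 637), (nat_lit 1000), (nat_lit 908))], ((nat_lit 100), (nat_lit 73), (nat_lit 85))⟩, (nat_lit 54692), (nat_lit 453), (nat_lit 453), (nat_lit 0), (nat_lit 293456), [(nat_lit 848528000), (nat_lit 1781402000), (nat_lit 2544498000)], [], [(nat_lit 7599217910), (nat_lit 7772980550), (nat_lit 7634847338), (nat_lit 7793111003), (nat_lit 7966861791), (nat_lit 6912158048), (nat_lit 8978706149), (nat_lit 7934117470)], (nat_lit 1271251), (nat_lit 1271251), (nat_lit 1184688), (nat_lit 1444376), (nat_lit 0), (nat_lit 780000), [(nat_lit 1100000), (nat_lit 2127501), (nat_lit 1271251)], [(nat_lit 19), (nat_lit 63), (nat_lit 373), (nat_lit 150), (nat_lit 9)]⟩,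
 ⟨⟨[(nat_lit 120), (nat_lit 160), (nat_lit 200)], [(nat_lit 0), (nat_lit 533), (nat_lit 3597)], [((nat_lit 0), (nat_lit 0), (nat_lit 0)), ((nat_lit 960), (nat_lit 1000), (nat_lit 200)), ((nat_lit 612), (nat_lit 1000), (nat_lit 732))], ((nat_lit 0), (nat_lit 0), (nat_lit 0))⟩, (nat_lit 71327), (nat_lit 300), (nat_lit 671), (nat_lit 9705192), (nat_lit 556071), [(nat_lit 1067712000), (nat_lit 1590848000), (nat_lit 2197600000)], [], [(nat_lit 8119183506), (nat_lit 7923160998), (nat_lit 8131445758), (nat_lit 7992613644), (nat_lit 6614445663), (nat_lit 6425691653), (nat_lit 6533232003), (nat_lit 6372886844)], (nat_lit 1271251), (nat_lit 1271251), (nat_lit 1271251), (nat_lit 1271251), (nat_lit 0), (nat_lit 780000), [(nat_lit 1695001), (nat_lit 1271251), (nat_lit 1271251)], [(nat_lit 29), (nat_lit 66), (nat_lit 401), (nat_lit 175), (nat_lit 8)]⟩⟩))))) (.spl (nat_lit 0) (nat_lit 390) (.leaf ⟨(nat_lit 839), (nat_lit 65), (nat_lit 0), (nat_lit 96), (nat_lit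 4), (nat_lit 3569), (nat_lit 2121), (nat_lit 1228), (nat_lit 0), (nat_lit 0), (nat_lit 209750), [((nat_lit 390), [((nat_lit 29), (nat_lit 0), (nat_lit 839))])], ⟨(nat_lit 6), false, true, false, (nat_lit 234), (nat_lit 1581), (nat_lit 2237), [(nat_lit 1545457), (nat_lit 1546538), (nat_lit 1568186), (nat_lit 1569808), (nat_lit 1602558), (nat_lit 1601260), (nat_lit 1625287), (nat_lit 1624529)]⟩, ⟨(nat_lit 6), false, true, true, (nat_lit 242), (nat_lit 1581), (nat_lit 2237), [(nat_lit 1534240), (nat_lit 1531319), (nat_lit 1579788), (nat_lit 1577949), (nat_lit 1634017), (nat_lit 1626932), (nat_lit 1679566), (nat_lit 1673562)]⟩, (nat_lit 5377068), (nat_lit 37264425), (nat_lit 14480060), (nat_lit 15255515), (nat_lit 6), (nat_lit 0), [], [⟨(nat_lit 1), (nat_lit 93), (nat_lit 38), (nat_lit 100), (nat_lit 143459908)⟩], [], [⟨(nat_lit 0), (nat_lit 93), (nat_lit 100), (nat_lit 47), (nat_lit 162956505)⟩],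
 ⟨⟨[(nat_lit 40), (nat_lit 80), (nat_lit 100)], [(nat_lit 0), (nat_lit 2514), (nat_lit 3562)], [((nat_lit 0), (nat_lit 0), (nat_lit 0)), ((nat_lit 1000), (nat_lit 446), (nat_lit 804)), ((nat_lit 1000), (nat_lit 443), (nat_lit 819))], ((nat_lit 44), (nat_lit 100), (nat_lit 84))⟩, (nat_lit 0), (nat_lit 68), (nat_lit 68), (nat_lit 0), (nat_lit 0), [(nat_lit 1601002909), (nat_lit 1909567654), (nat_lit 2505039600)], [(nat_lit 0), (nat_lit 0), (nat_lit 0)], [(nat_lit 25088912534), (nat_lit 25650894903), (nat_lit 25928604300), (nat_lit 26454030698), (nat_lit 27460166527), (nat_lit 28055194190), (nat_lit 28211811309), (nat_lit 28767376508)], (nat_lit 0), (nat_lit 0), (nat_lit 0), (nat_lit 0), (nat_lit 0), (nat_lit 0), [], [(nat_lit 3), (nat_lit 50), (nat_lit 203), (nat_lit 0), (nat_lit 6)]⟩,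
 ⟨⟨[(nat_lit 80), (nat_lit 140), (nat_lit 180)], [(nat_lit 0), (nat_lit 0), (nat_lit 3656)], [((nat_lit 0), (nat_lit 0), (nat_lit 0)), ((nat_lit 0), (nat_lit 0), (nat_lit 0)), ((nat_lit 637), (nat_lit 1000), (nat_lit 908))], ((nat_lit 100), (nat_lit 73), (nat_lit 85))⟩, (nat_lit 450531), (nat_lit 544), (nat_lit 544), (nat_lit 0), (nat_lit 429289), [(nat_lit 754768000), (nat_lit 1584562000), (nat_lit 2263338000)], [], [(nat_lit 5735702420), (nat_lit 5500148577), (nat_lit 5415720820), (nat_lit 5642453235), (nat_lit 3954684027), (nat_lit 4048118522), (nat_lit 3955838138), (nat_lit 4035755784)], (nat_lit 1271251), (nat_lit 1271251), (nat_lit 1271251), (nat_lit 1271251), (nat_lit 0), (nat_lit 780000), [(nat_lit 1100000), (nat_lit 2127501), (nat_lit 1271251)], [(nat_lit 19), (nat_lit 63), (nat_lit 401), (nat_lit 175), (nat_lit 9)]⟩,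
 ⟨⟨[(nat_lit 120), (nat_lit 160), (nat_lit 200)], [(nat_lit 0), (nat_lit 533), (nat_lit 3597)], [((nat_lit 0), (nat_lit 0), (nat_lit 0)), ((nat_lit 960), (nat_lit 1000), (nat_lit 200)), ((nat_lit 612), (nat_lit 1000), (nat_lit 732))], ((nat_lit 0), (nat_lit 0), (nat_lit 0))⟩, (nat_lit 51100), (nat_lit 300), (nat_lit 801), (nat_lit 6952974), (nat_lit 810293), [(nat_lit 764928000), (nat_lit 1139712000), (nat_lit 1574400000)], [], [(nat_lit 5934938268), (nat_lit 5806637300), (nat_lit 5869851950), (nat_lit 5757834014), (nat_lit 4930021304), (nat_lit 4806498136), (nat_lit 4860296569), (nat_lit 4726424594)], (nat_lit 1271251), (nat_lit 1271251), (nat_lit 1271251), (nat_lit 1271251), (nat_lit 0), (nat_lit 780000), [(nat_lit 1695001), (nat_lit 1271251), (nat_lit 1271251)], [(nat_lit 29), (nat_lit 66), (nat_lit 401), (nat_lit 175), (nat_lit 8)]⟩⟩) (.trX (nat_lit 4) (nat_lit 0) (nat_lit 2) (nat_lit 31) (nat_lit 92) (nat_lit 100) (nat_lit 290) (.leaf ⟨(nat_lit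 855), (nat_lit 59), (nat_lit 0), (nat_lit 86), (nat_lit 0), (nat_lit 3246), (nat_lit 1859), (nat_lit 1152), (nat_lit 0), (nat_lit 0), (nat_lit 213750), [((nat_lit 400), [((nat_lit 29), (nat_lit 0), (nat_lit 855))])], ⟨(nat_lit 6), false, true, false, (nat_lit 234), (nat_lit 0), (nat_lit 1582), [(nat_lit 1545316), (nat_lit 1548686), (nat_lit 1567974), (nat_lit 1573029), (nat_lit 1601257), (nat_lit 1599992), (nat_lit 1623921), (nat_lit 1624340)]⟩, ⟨(nat_lit 6), false, true, true, (nat_lit 234), (nat_lit 0), (nat_lit 1582), [(nat_lit 1531317), (nat_lit 1524997), (nat_lit 1577949), (nat_lit 1574999), (nat_lit 1599609), (nat_lit 1587494), (nat_lit 1646241), (nat_lit 1637496)]⟩, (nat_lit 5338425), (nat_lit 37767281), (nat_lit 14627466), (nat_lit 14605253), (nat_lit 6), (nat_lit 0), [], [⟨(nat_lit 1), (nat_lit 98), (nat_lit 22), (nat_lit 100), (nat_lit 550828258)⟩, ⟨(nat_lit 1), (nat_lit 92), (nat_lit 31), (nat_lit 100), (nat_lit 19714847)⟩], [⟨(nat_lit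 0), (nat_lit 100), (nat_lit 96), (nat_lit 40), (nat_lit 84050344)⟩], [⟨(nat_lit 0), (nat_lit 95), (nat_lit 100), (nat_lit 42), (nat_lit 61739461)⟩],
 ⟨⟨[(nat_lit 40), (nat_lit 60), (nat_lit 80)], [(nat_lit 0), (nat_lit 2136), (nat_lit 3185)], [((nat_lit 0), (nat_lit 0), (nat_lit 0)), ((nat_lit 1000), (nat_lit 343), (nat_lit 808)), ((nat_lit 1000), (nat_lit 338), (nat_lit 820))], ((nat_lit 32), (nat_lit 100), (nat_lit 86))⟩, (nat_lit 0), (nat_lit 60), (nat_lit 60), (nat_lit 0), (nat_lit 0), [(nat_lit 1597246006), (nat_lit 1391085234), (nat_lit 1856582000)], [(nat_lit 0), (nat_lit 0), (nat_lit 0)], [(nat_lit 25214271422), (nat_lit 25807941708), (nat_lit 26101315937), (nat_lit 26656245860), (nat_lit 26954957036), (nat_lit 27552091715), (nat_lit 27736288132), (nat_lit 28294427539)], (nat_lit 0), (nat_lit 0), (nat_lit 0), (nat_lit 0), (nat_lit 0), (nat_lit 0), [], [(nat_lit 2), (nat_lit 44), (nat_lit 203), (nat_lit 0), (nat_lit 6)]⟩,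
 ⟨⟨[(nat_lit 80), (nat_lit 140), (nat_lit 180)], [(nat_lit 0), (nat_lit 0), (nat_lit 3656)], [((nat_lit 0), (nat_lit 0), (nat_lit 0)), ((nat_lit 0), (nat_lit 0), (nat_lit 0)), ((nat_lit 637), (nat_lit 1000), (nat_lit 908))], ((nat_lit 100), (nat_lit 73), (nat_lit 85))⟩, (nat_lit 369138), (nat_lit 608), (nat_lit 608), (nat_lit 0), (nat_lit 593609), [(nat_lit 679760000), (nat_lit 1427090000), (nat_lit 2038410000)], [], [(nat_lit 5141398220), (nat_lit 5053928954), (nat_lit 4981729580), (nat_lit 5182654485), (nat_lit 3704489187), (nat_lit 3788050893), (nat_lit 3708558010), (nat_lit 3780231552)], (nat_lit 1271251), (nat_lit 1271251), (nat_lit 1271251), (nat_lit 1271251), (nat_lit 0), (nat_lit 780000), [(nat_lit 1100000), (nat_lit 2127501), (nat_lit 1271251)], [(nat_lit 19), (nat_lit 63), (nat_lit 401), (nat_lit 175), (nat_lit 9)]⟩,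
 ⟨⟨[(nat_lit 120), (nat_lit 160), (nat_lit 200)], [(nat_lit 0), (nat_lit 533), (nat_lit 3597)], [((nat_lit 0), (nat_lit 0), (nat_lit 0)), ((nat_lit 960), (nat_lit 1000), (nat_lit 200)), ((nat_lit 612), (nat_lit 1000), (nat_lit 732))], ((nat_lit 0), (nat_lit 0), (nat_lit 0))⟩, (nat_lit 45777), (nat_lit 300), (nat_lit 903), (nat_lit 6228706), (nat_lit 1073501), [(nat_lit 685248000), (nat_lit 1020992000), (nat_lit 1410400000)], [], [(nat_lit 5238781266), (nat_lit 5115845766), (nat_lit 5218749152), (nat_lit 5132083570), (nat_lit 4290346263), (nat_lit 4171974029), (nat_lit 4240206183), (nat_lit 4114959954)], (nat_lit 1271251), (nat_lit 1271251), (nat_lit 1271251), (nat_lit 1271251), (nat_lit 0), (nat_lit 780000), [(nat_lit 1695001), (nat_lit 1271251), (nat_lit 1271251)], [(nat_lit 29), (nat_lit 66), (nat_lit 401), (nat_lit 175), (nat_lit 8)]⟩⟩)))) (.trZ (nat_lit 0) (nat_lit 1) (nat_lit 3) (nat_lit 96) (nat_lit 44) (nat_lit 100) (nat_lit 170) (.spl (nat_lit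 6) (nat_lit 68) (.leaf ⟨(nat_lit 22), (nat_lit 702), (nat_lit 0), (nat_lit 276), (nat_lit 0), (nat_lit 3898), (nat_lit 6437), (nat_lit 3382), (nat_lit 0), (nat_lit 0), (nat_lit 88000), [((nat_lit 400), [((nat_lit 43), (nat_lit 5), (nat_lit 22))])], ⟨(nat_lit 6), false, false, false, (nat_lit 235), (nat_lit 0), (nat_lit 2237), [(nat_lit 1521399), (nat_lit 1533338), (nat_lit 1543247), (nat_lit 1557412), (nat_lit 1624400), (nat_lit 1624062), (nat_lit 1646249), (nat_lit 1648136)]⟩, ⟨(nat_lit 6), false, true, true, (nat_lit 240), (nat_lit 0), (nat_lit 2237), [(nat_lit 1534237), (nat_lit 1524996), (nat_lit 1579788), (nat_lit 1574999), (nat_lit 1634011), (nat_lit 1612493), (nat_lit 1679562), (nat_lit 1662495)]⟩, (nat_lit 5372471), (nat_lit 37330123), (nat_lit 14571878), (nat_lit 15097999), (nat_lit 6), (nat_lit 0), [⟨(nat_lit 0), (nat_lit 94), (nat_lit 31), (nat_lit 100), (nat_lit 1188918028)⟩], [⟨(nat_lit 1), (nat_lit 95), (nat_lit 31), (nat_lit 100),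 (nat_lit 574518391)⟩], [⟨(nat_lit 0), (nat_lit 100), (nat_lit 94), (nat_lit 35), (nat_lit 310811046)⟩], [],
 ⟨⟨[(nat_lit 40), (nat_lit 60), (nat_lit 80)], [(nat_lit 0), (nat_lit 1539), (nat_lit 2453)], [((nat_lit 0), (nat_lit 0), (nat_lit 0)), ((nat_lit 1000), (nat_lit 478), (nat_lit 704)), ((nat_lit 1000), (nat_lit 474), (nat_lit 714))], ((nat_lit 45), (nat_lit 100), (nat_lit 78))⟩, (nat_lit 693388), (nat_lit 70), (nat_lit 70), (nat_lit 0), (nat_lit 0), [(nat_lit 1823484012), (nat_lit 3047878920), (nat_lit 3969858400)], [(nat_lit 0), (nat_lit 0), (nat_lit 0)], [(nat_lit 24657843765), (nat_lit 25887003928), (nat_lit 26114337602), (nat_lit 27228665732), (nat_lit 27242051434), (nat_lit 28544574168), (nat_lit 28526073343), (nat_lit 29681456131)], (nat_lit 0), (nat_lit 0), (nat_lit 0), (nat_lit 0), (nat_lit 0), (nat_lit 0), [], [(nat_lit 2), (nat_lit 44), (nat_lit 203), (nat_lit 0), (nat_lit 7)]⟩,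
 ⟨⟨[(nat_lit 80), (nat_lit 120), (nat_lit 160)], [(nat_lit 0), (nat_lit 528), (nat_lit 2577)], [((nat_lit 0), (nat_lit 0), (nat_lit 0)), ((nat_lit 1000), (nat_lit 959), (nat_lit 206)), ((nat_lit 929), (nat_lit 1000), (nat_lit 742))], ((nat_lit 100), (nat_lit 90), (nat_lit 79))⟩, (nat_lit 2952229), (nat_lit 527), (nat_lit 527), (nat_lit 0), (nat_lit 560629), [(nat_lit 4584864000), (nat_lit 7792704000), (nat_lit 11610816000)], [], [(nat_lit 33485011642), (nat_lit 34030144584), (nat_lit 34139419617), (nat_lit 34728888414), (nat_lit 30363483545), (nat_lit 30908526233), (nat_lit 31666587574), (nat_lit 31695421292)], (nat_lit 1271251), (nat_lit 1271251), (nat_lit 1184688), (nat_lit 1790626), (nat_lit 0), (nat_lit 780000), [(nat_lit 1100000), (nat_lit 1785001), (nat_lit 1271251)], [(nat_lit 18), (nat_lit 59), (nat_lit 401), (nat_lit 175), (nat_lit 10)]⟩,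
 ⟨⟨[(nat_lit 120), (nat_lit 160), (nat_lit 200)], [(nat_lit 0), (nat_lit 533), (nat_lit 3597)], [((nat_lit 0), (nat_lit 0), (nat_lit 0)), ((nat_lit 960), (nat_lit 1000), (nat_lit 200)), ((nat_lit 612), (nat_lit 1000), (nat_lit 732))], ((nat_lit 0), (nat_lit 0), (nat_lit 0))⟩, (nat_lit 646244), (nat_lit 300), (nat_lit 949), (nat_lit 18326400), (nat_lit 1190785), [(nat_lit 2199168000), (nat_lit 3276672000), (nat_lit 4526400000)], [], [(nat_lit 16287827106), (nat_lit 15941842406), (nat_lit 16164286585), (nat_lit 15910619361), (nat_lit 13536550958), (nat_lit 13203492514), (nat_lit 13358215373), (nat_lit 12996413203)], (nat_lit 1271251), (nat_lit 1271251), (nat_lit 1271251), (nat_lit 1271251), (nat_lit 0), (nat_lit 780000), [(nat_lit 1695001), (nat_lit 1271251), (nat_lit 1271251)], [(nat_lit 29), (nat_lit 66), (nat_lit 401), (nat_lit 175), (nat_lit 8)]⟩⟩) (.leaf ⟨(nat_lit 0), (nat_lit 672), (nat_lit 0), (nat_lit 328), (nat_lit 3716), (nat_lit 5794), (nat_lit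 7090), (nat_lit 4465), (nat_lit 0), (nat_lit 0), (nat_lit 0), [], Pd.none, Pd.none, (nat_lit 0), (nat_lit 1), (nat_lit 0), (nat_lit 0), (nat_lit 6), (nat_lit 0), [⟨(nat_lit 0), (nat_lit 94), (nat_lit 31), (nat_lit 100), (nat_lit 1236000714)⟩], [⟨(nat_lit 1), (nat_lit 95), (nat_lit 31), (nat_lit 100), (nat_lit 600051155)⟩], [⟨(nat_lit 0), (nat_lit 100), (nat_lit 94), (nat_lit 35), (nat_lit 322709770)⟩], [],
 ⟨⟨[(nat_lit 40), (nat_lit 80), (nat_lit 100)], [(nat_lit 0), (nat_lit 2514), (nat_lit 3562)], [((nat_lit 0), (nat_lit 0), (nat_lit 0)), ((nat_lit 1000), (nat_lit 446), (nat_lit 804)), ((nat_lit 1000), (nat_lit 443), (nat_lit 819))], ((nat_lit 44), (nat_lit 100), (nat_lit 84))⟩, (nat_lit 0), (nat_lit 75), (nat_lit 75), (nat_lit 0), (nat_lit 0), [(nat_lit 2459415199), (nat_lit 4688000001), (nat_lit 6250000000)], [], [(nat_lit 26216467319), (nat_lit 27835810017), (nat_lit 27626125913), (nat_lit 29045427489), (nat_lit 29233822453), (nat_lit 30843357208),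 (nat_lit 30337139653), (nat_lit 31747545343)], (nat_lit 0), (nat_lit 0), (nat_lit 0), (nat_lit 0), (nat_lit 0), (nat_lit 0), [], [(nat_lit 3), (nat_lit 50), (nat_lit 272), (nat_lit 60), (nat_lit 8)]⟩,
 ⟨⟨[(nat_lit 80), (nat_lit 140), (nat_lit 180)], [(nat_lit 0), (nat_lit 792), (nat_lit 4228)], [((nat_lit 0), (nat_lit 0), (nat_lit 0)), ((nat_lit 1000), (nat_lit 959), (nat_lit 206)), ((nat_lit 709), (nat_lit 1000), (nat_lit 949))], ((nat_lit 100), (nat_lit 82), (nat_lit 87))⟩, (nat_lit 2463554), (nat_lit 463), (nat_lit 463), (nat_lit 0), (nat_lit 317697), [(nat_lit 4688000000), (nat_lit 9842000000), (nat_lit 14058000000)], [], [(nat_lit 34613351214), (nat_lit 35368593053), (nat_lit 35437920060), (nat_lit 36287438084), (nat_lit 30566375397), (nat_lit 31307365512), (nat_lit 34543197992), (nat_lit 32234600824)], (nat_lit 1271251), (nat_lit 1271251), (nat_lit 1184688), (nat_lit 1790626), (nat_lit 0), (nat_lit 780000), [(nat_lit 1100000), (nat_lit 2127501),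 (nat_lit 1271251)], [(nat_lit 19), (nat_lit 63), (nat_lit 401), (nat_lit 175), (nat_lit 9)]⟩,
 ⟨⟨[(nat_lit 120), (nat_lit 160), (nat_lit 200)], [(nat_lit 0), (nat_lit 533), (nat_lit 3597)], [((nat_lit 0), (nat_lit 0), (nat_lit 0)), ((nat_lit 960), (nat_lit 1000), (nat_lit 200)), ((nat_lit 612), (nat_lit 1000), (nat_lit 732))], ((nat_lit 0), (nat_lit 0), (nat_lit 0))⟩, (nat_lit 174590), (nat_lit 300), (nat_lit 722), (nat_lit 23755999), (nat_lit 685653), [(nat_lit 2613504000), (nat_lit 3894016000), (nat_lit 5379200000)], [], [(nat_lit 19873400601), (nat_lit 19393540619), (nat_lit 19993932994), (nat_lit 19632325274), (nat_lit 16189898438), (nat_lit 15727831550), (nat_lit 15996084052), (nat_lit 15653479632)], (nat_lit 1271251), (nat_lit 1271251), (nat_lit 1271251), (nat_lit 1271251), (nat_lit 0), (nat_lit 780000), [(nat_lit 1695001), (nat_lit 1271251), (nat_lit 1271251)], [(nat_lit 29), (nat_lit 66), (nat_lit 401), (nat_lit 175), (nat_lit 8)]⟩⟩))))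
noncomputable def c14_89 : Tr Lf :=
 (.spl (nat_lit 3) (nat_lit 200) (.spl (nat_lit 6) (nat_lit 68) (.leaf ⟨(nat_lit 618), (nat_lit 142), (nat_lit 0), (nat_lit 240), (nat_lit 0), (nat_lit 3797), (nat_lit 4905), (nat_lit 3359), (nat_lit 0), (nat_lit 0), (nat_lit 246300), [((nat_lit 400), [((nat_lit 28), (nat_lit 0), (nat_lit 6)), ((nat_lit 28), (nat_lit 1), (nat_lit 612))])], ⟨(nat_lit 6), false, false, false, (nat_lit 214), (nat_lit 0), (nat_lit 2237), [(nat_lit 1470123), (nat_lit 1483344), (nat_lit 1513819), (nat_lit 1531491), (nat_lit 1543695), (nat_lit 1548146), (nat_lit 1587391), (nat_lit 1596294)]⟩, ⟨(nat_lit 6), false, true, true, (nat_lit 240), (nat_lit 0), (nat_lit 2237), [(nat_lit 1534237), (nat_lit 1524996), (nat_lit 1579788), (nat_lit 1574999), (nat_lit 1634011), (nat_lit 1612493), (nat_lit 1679562), (nat_lit 1662495)]⟩, (nat_lit 5252923), (nat_lit 38667927), (nat_lit 12843105), (nat_lit 15488968), (nat_lit 6), (nat_lit 0), [⟨(nat_lit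 0), (nat_lit 95), (nat_lit 31), (nat_lit 100), (nat_lit 25988967)⟩, ⟨(nat_lit 0), (nat_lit 100), (nat_lit 44), (nat_lit 99), (nat_lit 403984820)⟩], [⟨(nat_lit 1), (nat_lit 95), (nat_lit 31), (nat_lit 100), (nat_lit 216214641)⟩], [⟨(nat_lit 0), (nat_lit 100), (nat_lit 98), (nat_lit 10), (nat_lit 2401342)⟩], [⟨(nat_lit 0), (nat_lit 93), (nat_lit 100), (nat_lit 26), (nat_lit 141023955)⟩],
 ⟨⟨[(nat_lit 40), (nat_lit 60), (nat_lit 80)], [(nat_lit 0), (nat_lit 1539), (nat_lit 2453)], [((nat_lit 0), (nat_lit 0), (nat_lit 0)), ((nat_lit 1000), (nat_lit 478), (nat_lit 704)), ((nat_lit 1000), (nat_lit 474), (nat_lit 714))], ((nat_lit 45), (nat_lit 100), (nat_lit 78))⟩, (nat_lit 705), (nat_lit 169), (nat_lit 169), (nat_lit 0), (nat_lit 324885), [(nat_lit 1550077658), (nat_lit 1468453624), (nat_lit 1920005600)], [(nat_lit 0), (nat_lit 0), (nat_lit 0)], [(nat_lit 24015560942), (nat_lit 25436988378), (nat_lit 24912992843), (nat_lit 26281819754), (nat_lit 26959971579),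 (nat_lit 28283500499), (nat_lit 27690370303), (nat_lit 28914665430)], (nat_lit 1271251), (nat_lit 1271251), (nat_lit 1017188), (nat_lit 1440626), (nat_lit 1271251), (nat_lit 1271251), [(nat_lit 490000), (nat_lit 780000), (nat_lit 1100000)], [(nat_lit 2), (nat_lit 44), (nat_lit 260), (nat_lit 50), (nat_lit 10)]⟩,
 ⟨⟨[(nat_lit 80), (nat_lit 140), (nat_lit 180)], [(nat_lit 0), (nat_lit 0), (nat_lit 3656)], [((nat_lit 0), (nat_lit 0), (nat_lit 0)), ((nat_lit 0), (nat_lit 0), (nat_lit 0)), ((nat_lit 637), (nat_lit 1000), (nat_lit 908))], ((nat_lit 100), (nat_lit 81), (nat_lit 77))⟩, (nat_lit 235798), (nat_lit 435), (nat_lit 435), (nat_lit 0), (nat_lit 229511), [(nat_lit 1790816000), (nat_lit 3759644000), (nat_lit 5370156000)], [], [(nat_lit 15718885967), (nat_lit 16489126095), (nat_lit 16032342794), (nat_lit 16604878763), (nat_lit 15536088185), (nat_lit 12618940749), (nat_lit 18870747149), (nat_lit 14455661002)], (nat_lit 1271251), (nat_lit 1271251),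 (nat_lit 1017188), (nat_lit 1440626), (nat_lit 0), (nat_lit 780000), [(nat_lit 1100000), (nat_lit 2127501), (nat_lit 1271251)], [(nat_lit 19), (nat_lit 63), (nat_lit 373), (nat_lit 150), (nat_lit 9)]⟩,
 ⟨⟨[(nat_lit 120), (nat_lit 160), (nat_lit 200)], [(nat_lit 0), (nat_lit 533), (nat_lit 3597)], [((nat_lit 0), (nat_lit 0), (nat_lit 0)), ((nat_lit 960), (nat_lit 1000), (nat_lit 200)), ((nat_lit 612), (nat_lit 1000), (nat_lit 732))], ((nat_lit 0), (nat_lit 0), (nat_lit 0))⟩, (nat_lit 132181), (nat_lit 300), (nat_lit 612), (nat_lit 17367673), (nat_lit 405342), [(nat_lit 1912320000), (nat_lit 2849280000), (nat_lit 3936000000)], [], [(nat_lit 14395399964), (nat_lit 14175427364), (nat_lit 14622456832), (nat_lit 14345463210), (nat_lit 11614072294), (nat_lit 11262312038), (nat_lit 11604353819), (nat_lit 11341824967)], (nat_lit 1271251), (nat_lit 1271251), (nat_lit 1271251), (nat_lit 1271251), (nat_lit 0), (nat_lit 780000), [(nat_lit 1695001), (nat_lit 1271251),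 (nat_lit 1271251)], [(nat_lit 29), (nat_lit 66), (nat_lit 401), (nat_lit 175), (nat_lit 8)]⟩⟩) (.spl (nat_lit 0) (nat_lit 390) (.leaf ⟨(nat_lit 0), (nat_lit 559), (nat_lit 0), (nat_lit 441), (nat_lit 6365), (nat_lit 5972), (nat_lit 6461), (nat_lit 4799), (nat_lit 0), (nat_lit 0), (nat_lit 0), [], Pd.none, Pd.none, (nat_lit 0), (nat_lit 1), (nat_lit 0), (nat_lit 0), (nat_lit 6), (nat_lit 0), [⟨(nat_lit 0), (nat_lit 92), (nat_lit 31), (nat_lit 100), (nat_lit 67813914)⟩], [⟨(nat_lit 1), (nat_lit 93), (nat_lit 38), (nat_lit 100), (nat_lit 298108063)⟩], [⟨(nat_lit 0), (nat_lit 100), (nat_lit 98), (nat_lit 10), (nat_lit 150946085)⟩], [],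
 ⟨⟨[(nat_lit 40), (nat_lit 80), (nat_lit 100)], [(nat_lit 0), (nat_lit 2514), (nat_lit 3562)], [((nat_lit 0), (nat_lit 0), (nat_lit 0)), ((nat_lit 1000), (nat_lit 446), (nat_lit 804)), ((nat_lit 1000), (nat_lit 443), (nat_lit 819))], ((nat_lit 44), (nat_lit 100), (nat_lit 84))⟩, (nat_lit 578911), (nat_lit 124), (nat_lit 124), (nat_lit 0), (nat_lit 126848), [(nat_lit 2312922381), (nat_lit 5263783934), (nat_lit 6250000000)], [], [(nat_lit 26097999724), (nat_lit 26891489377), (nat_lit 26754586660), (nat_lit 27482897526), (nat_lit 29395235137), (nat_lit 30240707336), (nat_lit 29886393174), (nat_lit 30661855574)], (nat_lit 1271251), (nat_lit 1271251), (nat_lit 1017188), (nat_lit 1440626), (nat_lit 1271251), (nat_lit 1271251), [(nat_lit 490000), (nat_lit 1100000), (nat_lit 1442501)], [(nat_lit 3), (nat_lit 50), (nat_lit 260), (nat_lit 50), (nat_lit 8)]⟩,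
 ⟨⟨[(nat_lit 80), (nat_lit 140), (nat_lit 180)], [(nat_lit 0), (nat_lit 0), (nat_lit 3656)], [((nat_lit 0), (nat_lit 0), (nat_lit 0)), ((nat_lit 0), (nat_lit 0), (nat_lit 0)), ((nat_lit 637), (nat_lit 1000), (nat_lit 908))], ((nat_lit 100), (nat_lit 73), (nat_lit 85))⟩, (nat_lit 0), (nat_lit 380), (nat_lit 380), (nat_lit 0), (nat_lit 92962), [(nat_lit 4688000000), (nat_lit 9842000000), (nat_lit 14058000000)], [], [(nat_lit 38770955323), (nat_lit 40324663767), (nat_lit 43701429266), (nat_lit 41078585499), (nat_lit 43756336477), (nat_lit 37845756336), (nat_lit 48990328817), (nat_lit 43174656728)], (nat_lit 1271251), (nat_lit 1271251), (nat_lit 1017188), (nat_lit 1440626), (nat_lit 0), (nat_lit 780000), [(nat_lit 1100000), (nat_lit 2127501), (nat_lit 1271251)], [(nat_lit 19), (nat_lit 63), (nat_lit 373), (nat_lit 150), (nat_lit 9)]⟩,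
 ⟨⟨[(nat_lit 120), (nat_lit 160), (nat_lit 200)], [(nat_lit 0), (nat_lit 533), (nat_lit 3597)], [((nat_lit 0), (nat_lit 0), (nat_lit 0)), ((nat_lit 960), (nat_lit 1000), (nat_lit 200)), ((nat_lit 612), (nat_lit 1000), (nat_lit 732))], ((nat_lit 0), (nat_lit 0), (nat_lit 0))⟩, (nat_lit 234739), (nat_lit 300), (nat_lit 471), (nat_lit 31940226), (nat_lit 165231), [(nat_lit 3513888000), (nat_lit 5235552000), (nat_lit 7232400000)], [], [(nat_lit 26427635197), (nat_lit 26188709383), (nat_lit 26899693041), (nat_lit 26575981942), (nat_lit 22497269076), (nat_lit 22212161362), (nat_lit 22740846653), (nat_lit 22435350806)], (nat_lit 1271251), (nat_lit 1271251), (nat_lit 1271251), (nat_lit 1271251), (nat_lit 0), (nat_lit 780000), [(nat_lit 1695001), (nat_lit 1271251), (nat_lit 1271251)], [(nat_lit 29), (nat_lit 66), (nat_lit 401), (nat_lit 175), (nat_lit 8)]⟩⟩) (.trZ (nat_lit 0) (nat_lit 1) (nat_lit 3) (nat_lit 99) (nat_lit 31) (nat_lit 100) (nat_lit 170) (.trX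 (nat_lit 4) (nat_lit 0) (nat_lit 2) (nat_lit 31) (nat_lit 92) (nat_lit 100) (nat_lit 290) (.leaf ⟨(nat_lit 0), (nat_lit 150), (nat_lit 0), (nat_lit 850), (nat_lit 2344), (nat_lit 6005), (nat_lit 13957), (nat_lit 9250), (nat_lit 0), (nat_lit 0), (nat_lit 0), [], Pd.none, Pd.none, (nat_lit 0), (nat_lit 1), (nat_lit 0), (nat_lit 0), (nat_lit 6), (nat_lit 0), [⟨(nat_lit 0), (nat_lit 99), (nat_lit 31), (nat_lit 100), (nat_lit 1319755129)⟩], [⟨(nat_lit 1), (nat_lit 92), (nat_lit 31), (nat_lit 100), (nat_lit 800141182)⟩], [⟨(nat_lit 0), (nat_lit 100), (nat_lit 98), (nat_lit 10), (nat_lit 567146051)⟩], [],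
 ⟨⟨[(nat_lit 40), (nat_lit 60), (nat_lit 80)], [(nat_lit 0), (nat_lit 2136), (nat_lit 3185)], [((nat_lit 0), (nat_lit 0), (nat_lit 0)), ((nat_lit 1000), (nat_lit 343), (nat_lit 808)), ((nat_lit 1000), (nat_lit 338), (nat_lit 820))], ((nat_lit 32), (nat_lit 100), (nat_lit 86))⟩, (nat_lit 0), (nat_lit 117), (nat_lit 117), (nat_lit 0), (nat_lit 184251), [(nat_lit 2532856416), (nat_lit 3971961693), (nat_lit 4688000000)], [], [(nat_lit 26956344997), (nat_lit 27872276728), (nat_lit 27512561284), (nat_lit 28439658410), (nat_lit 29309673719), (nat_lit 30177208845), (nat_lit 29787464741), (nat_lit 30608182904)], (nat_lit 1271251), (nat_lit 1271251), (nat_lit 1184688), (nat_lit 1444376), (nat_lit 1271251), (nat_lit 1271251), [(nat_lit 490000), (nat_lit 780000), (nat_lit 1100000)], [(nat_lit 2), (nat_lit 44), (nat_lit 203), (nat_lit 0), (nat_lit 7)]⟩,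
 ⟨⟨[(nat_lit 80), (nat_lit 140), (nat_lit 180)], [(nat_lit 0), (nat_lit 0), (nat_lit 3656)], [((nat_lit 0), (nat_lit 0), (nat_lit 0)), ((nat_lit 0), (nat_lit 0), (nat_lit 0)), ((nat_lit 637), (nat_lit 1000), (nat_lit 908))], ((nat_lit 100), (nat_lit 73), (nat_lit 85))⟩, (nat_lit 375475), (nat_lit 391), (nat_lit 391), (nat_lit 0), (nat_lit 139315), [(nat_lit 4688000000), (nat_lit 9842000000), (nat_lit 14058000000)], [], [(nat_lit 41096513525), (nat_lit 44640175780), (nat_lit 41890665242), (nat_lit 45165627963), (nat_lit 43703167718), (nat_lit 32170208355), (nat_lit 49695904529), (nat_lit 37132936668)], (nat_lit 1271251), (nat_lit 1271251), (nat_lit 1184688), (nat_lit 1444376), (nat_lit 0), (nat_lit 780000), [(nat_lit 1100000), (nat_lit 2127501), (nat_lit 1271251)], [(nat_lit 19), (nat_lit 63), (nat_lit 373), (nat_lit 150), (nat_lit 9)]⟩,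
 ⟨⟨[(nat_lit 120), (nat_lit 160), (nat_lit 200)], [(nat_lit 0), (nat_lit 533), (nat_lit 3597)], [((nat_lit 0), (nat_lit 0), (nat_lit 0)), ((nat_lit 960), (nat_lit 1000), (nat_lit 200)), ((nat_lit 612), (nat_lit 1000), (nat_lit 732))], ((nat_lit 0), (nat_lit 0), (nat_lit 0))⟩, (nat_lit 452444), (nat_lit 300), (nat_lit 507), (nat_lit 61562796), (nat_lit 250657), [(nat_lit 6772800000), (nat_lit 10091200000), (nat_lit 13940000000)], [], [(nat_lit 50937625450), (nat_lit 50477083550), (nat_lit 51587520450), (nat_lit 51010248800), (nat_lit 43522964852), (nat_lit 42916216353), (nat_lit 43701011728), (nat_lit 43060896272)], (nat_lit 1271251), (nat_lit 1271251), (nat_lit 1271251), (nat_lit 1271251), (nat_lit 0), (nat_lit 780000), [(nat_lit 1695001), (nat_lit 1271251), (nat_lit 1271251)], [(nat_lit 29), (nat_lit 66), (nat_lit 401), (nat_lit 175), (nat_lit 8)]⟩⟩))))) (.leaf ⟨(nat_lit 0), (nat_lit 499), (nat_lit 0), (nat_lit 501), (nat_lit 0), (nat_lit 4438),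 (nat_lit 10684), (nat_lit 7015), (nat_lit 0), (nat_lit 0), (nat_lit 0), [], Pd.none, Pd.none, (nat_lit 0), (nat_lit 1), (nat_lit 0), (nat_lit 0), (nat_lit 6), (nat_lit 0), [], [⟨(nat_lit 1), (nat_lit 95), (nat_lit 31), (nat_lit 100), (nat_lit 135324860)⟩], [⟨(nat_lit 0), (nat_lit 100), (nat_lit 98), (nat_lit 10), (nat_lit 827451252)⟩], [],
 ⟨⟨[(nat_lit 40), (nat_lit 80), (nat_lit 100)], [(nat_lit 0), (nat_lit 2514), (nat_lit 3562)], [((nat_lit 0), (nat_lit 0), (nat_lit 0)), ((nat_lit 1000), (nat_lit 446), (nat_lit 804)), ((nat_lit 1000), (nat_lit 443), (nat_lit 819))], ((nat_lit 44), (nat_lit 100), (nat_lit 84))⟩, (nat_lit 1098175), (nat_lit 175), (nat_lit 175), (nat_lit 0), (nat_lit 327430), [(nat_lit 2032000016), (nat_lit 4700287779), (nat_lit 6250000000)], [], [(nat_lit 25666524893), (nat_lit 26908257516), (nat_lit 26435401134), (nat_lit 27723400432), (nat_lit 28337566009), (nat_lit 29658123030), (nat_lit 29041883368), (nat_lit 30269899261)],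 (nat_lit 1271251), (nat_lit 1271251), (nat_lit 1271251), (nat_lit 1271251), (nat_lit 1271251), (nat_lit 1271251), [(nat_lit 490000), (nat_lit 1100000), (nat_lit 1442501)], [(nat_lit 3), (nat_lit 50), (nat_lit 203), (nat_lit 0), (nat_lit 6)]⟩,
 ⟨⟨[(nat_lit 80), (nat_lit 140), (nat_lit 180)], [(nat_lit 0), (nat_lit 0), (nat_lit 3656)], [((nat_lit 0), (nat_lit 0), (nat_lit 0)), ((nat_lit 0), (nat_lit 0), (nat_lit 0)), ((nat_lit 637), (nat_lit 1000), (nat_lit 908))], ((nat_lit 100), (nat_lit 73), (nat_lit 85))⟩, (nat_lit 2758609), (nat_lit 422), (nat_lit 422), (nat_lit 0), (nat_lit 236001), [(nat_lit 4688000000), (nat_lit 9842000000), (nat_lit 14058000000)], [], [(nat_lit 34444315920), (nat_lit 36418851840), (nat_lit 35035980096), (nat_lit 37103963912), (nat_lit 26920565204), (nat_lit 28942174130), (nat_lit 27711270024), (nat_lit 29518881196)], (nat_lit 1271251), (nat_lit 1271251), (nat_lit 1271251), (nat_lit 1271251), (nat_lit 0), (nat_lit 780000),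 [(nat_lit 1100000), (nat_lit 2127501), (nat_lit 1271251)], [(nat_lit 19), (nat_lit 63), (nat_lit 401), (nat_lit 175), (nat_lit 9)]⟩,
 ⟨⟨[(nat_lit 120), (nat_lit 160), (nat_lit 200)], [(nat_lit 0), (nat_lit 533), (nat_lit 3597)], [((nat_lit 0), (nat_lit 0), (nat_lit 0)), ((nat_lit 960), (nat_lit 1000), (nat_lit 200)), ((nat_lit 612), (nat_lit 1000), (nat_lit 732))], ((nat_lit 0), (nat_lit 0), (nat_lit 0))⟩, (nat_lit 266676), (nat_lit 300), (nat_lit 617), (nat_lit 36285836), (nat_lit 416267), [(nat_lit 3991968000), (nat_lit 5947872000), (nat_lit 8216400000)], [], [(nat_lit 30062803033), (nat_lit 29603238619), (nat_lit 30536660937), (nat_lit 29958020192), (nat_lit 24255366019), (nat_lit 23520607608), (nat_lit 24233252470), (nat_lit 23684825735)], (nat_lit 1271251), (nat_lit 1271251), (nat_lit 1271251), (nat_lit 1271251), (nat_lit 0), (nat_lit 780000), [(nat_lit 1695001), (nat_lit 1271251), (nat_lit 1271251)], [(nat_lit 29), (nat_lit 66), (nat_lit 401),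 (nat_lit 175), (nat_lit 8)]⟩⟩))
noncomputable def c14_90 : Tr Lf :=
 (.stt (nat_lit 2) (.leaf ⟨(nat_lit 0), (nat_lit 460), (nat_lit 0), (nat_lit 540), (nat_lit 0), (nat_lit 4410), (nat_lit 5670), (nat_lit 5279), (nat_lit 0), (nat_lit 0), (nat_lit 0), [], Pd.none, Pd.none, (nat_lit 0), (nat_lit 1), (nat_lit 0), (nat_lit 0), (nat_lit 6), (nat_lit 0), [⟨(nat_lit 0), (nat_lit 95), (nat_lit 31), (nat_lit 100), (nat_lit 894618476)⟩], [⟨(nat_lit 1), (nat_lit 95), (nat_lit 31), (nat_lit 100), (nat_lit 3091360831)⟩], [], [],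
 ⟨⟨[(nat_lit 40), (nat_lit 80), (nat_lit 100)], [(nat_lit 0), (nat_lit 2514), (nat_lit 3562)], [((nat_lit 0), (nat_lit 0), (nat_lit 0)), ((nat_lit 1000), (nat_lit 446), (nat_lit 804)), ((nat_lit 1000), (nat_lit 443), (nat_lit 819))], ((nat_lit 44), (nat_lit 100), (nat_lit 84))⟩, (nat_lit 1151830), (nat_lit 189), (nat_lit 189), (nat_lit 0), (nat_lit 327430), [(nat_lit 2032000014), (nat_lit 4723943608), (nat_lit 6250000000)], [], [(nat_lit 24770052153), (nat_lit 26091799575), (nat_lit 26259622820), (nat_lit 27697084240), (nat_lit 27646324021), (nat_lit 29073404981), (nat_lit 29015137663), (nat_lit 30239387395)], (nat_lit 1271251), (nat_lit 1271251), (nat_lit 1017188), (nat_lit 1779376), (nat_lit 1271251), (nat_lit 1271251), [(nat_lit 490000), (nat_lit 1100000), (nat_lit 1442501)], [(nat_lit 3), (nat_lit 50), (nat_lit 272), (nat_lit 60), (nat_lit 9)]⟩,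
 ⟨⟨[(nat_lit 80), (nat_lit 140), (nat_lit 180)], [(nat_lit 0), (nat_lit 0), (nat_lit 3656)], [((nat_lit 0), (nat_lit 0), (nat_lit 0)), ((nat_lit 0), (nat_lit 0), (nat_lit 0)), ((nat_lit 637), (nat_lit 1000), (nat_lit 908))], ((nat_lit 100), (nat_lit 73), (nat_lit 85))⟩, (nat_lit 0), (nat_lit 122), (nat_lit 122), (nat_lit 0), (nat_lit 0), [(nat_lit 4688000000), (nat_lit 9842000000), (nat_lit 14058000000)], [], [(nat_lit 10910205555), (nat_lit 14423568925), (nat_lit 15231171000), (nat_lit 18137088790), (nat_lit 27752112680), (nat_lit 29374643125), (nat_lit 29084815840), (nat_lit 30442147680)], (nat_lit 0), (nat_lit 0), (nat_lit 0), (nat_lit 0), (nat_lit 0), (nat_lit 0), [], [(nat_lit 19), (nat_lit 63), (nat_lit 483), (nat_lit 250), (nat_lit 11)]⟩,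
 ⟨⟨[(nat_lit 120), (nat_lit 160), (nat_lit 200)], [(nat_lit 0), (nat_lit 533), (nat_lit 3597)], [((nat_lit 0), (nat_lit 0), (nat_lit 0)), ((nat_lit 960), (nat_lit 1000), (nat_lit 200)), ((nat_lit 612), (nat_lit 1000), (nat_lit 732))], ((nat_lit 0), (nat_lit 0), (nat_lit 0))⟩, (nat_lit 1264390), (nat_lit 300), (nat_lit 1120), (nat_lit 35856001), (nat_lit 1751519), [(nat_lit 4302720000), (nat_lit 6410880000), (nat_lit 8856000000)], [], [(nat_lit 31716180502), (nat_lit 31082730846), (nat_lit 30993575088), (nat_lit 30344456577), (nat_lit 28154450565), (nat_lit 27502496418), (nat_lit 27425720221), (nat_lit 26757637433)], (nat_lit 1271251), (nat_lit 1271251), (nat_lit 1271251), (nat_lit 1271251), (nat_lit 780000), (nat_lit 3072501), [(nat_lit 1695001), (nat_lit 1271251), (nat_lit 1271251)], [(nat_lit 29), (nat_lit 66), (nat_lit 483), (nat_lit 250), (nat_lit 10)]⟩⟩) (.spl (nat_lit 0) (nat_lit 390) (.leaf ⟨(nat_lit 635), (nat_lit 0), (nat_lit 0), (nat_lit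 365), (nat_lit 0), (nat_lit 3407), (nat_lit 2987), (nat_lit 3220), (nat_lit 0), (nat_lit 0), (nat_lit 381000), [((nat_lit 390), [((nat_lit 43), (nat_lit 2), (nat_lit 635))])], ⟨(nat_lit 6), false, false, false, (nat_lit 225), (nat_lit 1581), (nat_lit 2237), [(nat_lit 1474080), (nat_lit 1478137), (nat_lit 1519538), (nat_lit 1524676), (nat_lit 1602558), (nat_lit 1601260), (nat_lit 1648016), (nat_lit 1647799)]⟩, ⟨(nat_lit 6), false, true, true, (nat_lit 242), (nat_lit 1581), (nat_lit 2237), [(nat_lit 1534240), (nat_lit 1531319), (nat_lit 1579788), (nat_lit 1577949), (nat_lit 1634017), (nat_lit 1626932), (nat_lit 1679566), (nat_lit 1673562)]⟩, (nat_lit 5326918), (nat_lit 37852398), (nat_lit 13715364), (nat_lit 15432238), (nat_lit 0), (nat_lit 0), [⟨(nat_lit 0), (nat_lit 92), (nat_lit 31), (nat_lit 100), (nat_lit 376828137)⟩], [⟨(nat_lit 1), (nat_lit 93), (nat_lit 38), (nat_lit 100), (nat_lit 86986184)⟩], [], [],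
 ⟨⟨[(nat_lit 40), (nat_lit 80), (nat_lit 100)], [(nat_lit 0), (nat_lit 2514), (nat_lit 3562)], [((nat_lit 0), (nat_lit 0), (nat_lit 0)), ((nat_lit 1000), (nat_lit 446), (nat_lit 804)), ((nat_lit 1000), (nat_lit 443), (nat_lit 819))], ((nat_lit 44), (nat_lit 100), (nat_lit 84))⟩, (nat_lit 10619), (nat_lit 138), (nat_lit 138), (nat_lit 0), (nat_lit 179012), [(nat_lit 1540190016), (nat_lit 964808286), (nat_lit 908634000)], [(nat_lit 0), (nat_lit 0), (nat_lit 0)], [(nat_lit 24002610796), (nat_lit 24560990753), (nat_lit 25636622481), (nat_lit 26122453795), (nat_lit 26523303630), (nat_lit 27152127392), (nat_lit 28057068302), (nat_lit 28601738534)], (nat_lit 1271251), (nat_lit 1271251), (nat_lit 1017188), (nat_lit 1779376), (nat_lit 1271251), (nat_lit 1271251), [(nat_lit 490000), (nat_lit 1100000), (nat_lit 1442501)], [(nat_lit 3), (nat_lit 50), (nat_lit 272), (nat_lit 60), (nat_lit 9)]⟩,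
 ⟨⟨[(nat_lit 80), (nat_lit 140), (nat_lit 180)], [(nat_lit 0), (nat_lit 0), (nat_lit 3656)], [((nat_lit 0), (nat_lit 0), (nat_lit 0)), ((nat_lit 0), (nat_lit 0), (nat_lit 0)), ((nat_lit 637), (nat_lit 1000), (nat_lit 908))], ((nat_lit 100), (nat_lit 73), (nat_lit 85))⟩, (nat_lit 804934), (nat_lit 486), (nat_lit 486), (nat_lit 0), (nat_lit 575323), [(nat_lit 1711120000), (nat_lit 3592330000), (nat_lit 5131170000)], [], [(nat_lit 11683049069), (nat_lit 12220113935), (nat_lit 14320603902), (nat_lit 12365095043), (nat_lit 21783144384), (nat_lit 19154538086), (nat_lit 26090308352), (nat_lit 23534260764)], (nat_lit 1271251), (nat_lit 1271251), (nat_lit 1017188), (nat_lit 1779376), (nat_lit 780000), (nat_lit 3072501), [(nat_lit 1100000), (nat_lit 2127501), (nat_lit 1271251)], [(nat_lit 19), (nat_lit 63), (nat_lit 483), (nat_lit 250), (nat_lit 11)]⟩,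
 ⟨⟨[(nat_lit 120), (nat_lit 160), (nat_lit 200)], [(nat_lit 0), (nat_lit 533), (nat_lit 3597)], [((nat_lit 0), (nat_lit 0), (nat_lit 0)), ((nat_lit 960), (nat_lit 1000), (nat_lit 200)), ((nat_lit 612), (nat_lit 1000), (nat_lit 732))], ((nat_lit 0), (nat_lit 0), (nat_lit 0))⟩, (nat_lit 854634), (nat_lit 300), (nat_lit 742), (nat_lit 24236001), (nat_lit 953158), [(nat_lit 2908320000), (nat_lit 4333280000), (nat_lit 5986000000)], [], [(nat_lit 21321332784), (nat_lit 21028663429), (nat_lit 21135449149), (nat_lit 20821291020), (nat_lit 19933816725), (nat_lit 19591713815), (nat_lit 19658984935), (nat_lit 19299109419)], (nat_lit 1271251), (nat_lit 1271251), (nat_lit 1271251), (nat_lit 1271251), (nat_lit 780000), (nat_lit 3072501), [(nat_lit 1695001), (nat_lit 1271251), (nat_lit 1271251)], [(nat_lit 29), (nat_lit 66), (nat_lit 483), (nat_lit 250), (nat_lit 10)]⟩⟩) (.trZ (nat_lit 0) (nat_lit 1) (nat_lit 3) (nat_lit 99) (nat_lit 31) (nat_lit 100) (nat_lit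 170) (.trX (nat_lit 4) (nat_lit 0) (nat_lit 2) (nat_lit 31) (nat_lit 92) (nat_lit 100) (nat_lit 290) (.leaf ⟨(nat_lit 784), (nat_lit 0), (nat_lit 0), (nat_lit 216), (nat_lit 0), (nat_lit 3793), (nat_lit 2742), (nat_lit 2446), (nat_lit 0), (nat_lit 0), (nat_lit 196000), [((nat_lit 400), [((nat_lit 29), (nat_lit 0), (nat_lit 784))])], ⟨(nat_lit 6), false, false, false, (nat_lit 231), (nat_lit 0), (nat_lit 1582), [(nat_lit 1503356), (nat_lit 1510203), (nat_lit 1548673), (nat_lit 1558889), (nat_lit 1601257), (nat_lit 1599992), (nat_lit 1646579), (nat_lit 1648683)]⟩, ⟨(nat_lit 6), false, true, true, (nat_lit 234), (nat_lit 0), (nat_lit 1582), [(nat_lit 1531317), (nat_lit 1524997), (nat_lit 1577949), (nat_lit 1574999), (nat_lit 1599609), (nat_lit 1587494), (nat_lit 1646241), (nat_lit 1637496)]⟩, (nat_lit 5320923), (nat_lit 37982789), (nat_lit 14351534), (nat_lit 14665677), (nat_lit 0), (nat_lit 0), [⟨(nat_lit 0), (nat_lit 96), (nat_lit 22), (nat_lit 100),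 (nat_lit 605149164)⟩], [⟨(nat_lit 1), (nat_lit 98), (nat_lit 22), (nat_lit 100), (nat_lit 721222353)⟩], [], [],
 ⟨⟨[(nat_lit 40), (nat_lit 60), (nat_lit 80)], [(nat_lit 0), (nat_lit 2136), (nat_lit 3185)], [((nat_lit 0), (nat_lit 0), (nat_lit 0)), ((nat_lit 1000), (nat_lit 343), (nat_lit 808)), ((nat_lit 1000), (nat_lit 338), (nat_lit 820))], ((nat_lit 32), (nat_lit 100), (nat_lit 86))⟩, (nat_lit 19281), (nat_lit 124), (nat_lit 124), (nat_lit 0), (nat_lit 212794), [(nat_lit 1613916810), (nat_lit 1590069678), (nat_lit 2091705600)], [(nat_lit 0), (nat_lit 0), (nat_lit 0)], [(nat_lit 25096922028), (nat_lit 25674125517), (nat_lit 26451859015), (nat_lit 27117188152), (nat_lit 26951553855), (nat_lit 27626177955), (nat_lit 28269257514), (nat_lit 28867079925)], (nat_lit 1271251), (nat_lit 1271251), (nat_lit 1184688), (nat_lit 1790626), (nat_lit 1271251), (nat_lit 1271251), [(nat_lit 490000), (nat_lit 780000), (nat_lit 1100000)], [(nat_lit 2), (nat_lit 44),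 (nat_lit 203), (nat_lit 0), (nat_lit 7)]⟩,
 ⟨⟨[(nat_lit 80), (nat_lit 140), (nat_lit 180)], [(nat_lit 0), (nat_lit 0), (nat_lit 3656)], [((nat_lit 0), (nat_lit 0), (nat_lit 0)), ((nat_lit 0), (nat_lit 0), (nat_lit 0)), ((nat_lit 637), (nat_lit 1000), (nat_lit 908))], ((nat_lit 100), (nat_lit 73), (nat_lit 85))⟩, (nat_lit 482700), (nat_lit 600), (nat_lit 600), (nat_lit 0), (nat_lit 767189), [(nat_lit 1012608000), (nat_lit 2125872000), (nat_lit 3036528000)], [], [(nat_lit 6888363929), (nat_lit 5863360917), (nat_lit 5602123728), (nat_lit 5815486848), (nat_lit 16192786506), (nat_lit 13794893796), (nat_lit 11983599888), (nat_lit 9637204680)], (nat_lit 1271251), (nat_lit 1271251), (nat_lit 1271251), (nat_lit 1271251), (nat_lit 780000), (nat_lit 3072501), [(nat_lit 1100000), (nat_lit 2127501), (nat_lit 1271251)], [(nat_lit 19), (nat_lit 63), (nat_lit 483), (nat_lit 250), (nat_lit 11)]⟩,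
 ⟨⟨[(nat_lit 120), (nat_lit 160), (nat_lit 200)], [(nat_lit 0), (nat_lit 533), (nat_lit 3597)], [((nat_lit 0), (nat_lit 0), (nat_lit 0)), ((nat_lit 960), (nat_lit 1000), (nat_lit 200)), ((nat_lit 612), (nat_lit 1000), (nat_lit 732))], ((nat_lit 0), (nat_lit 0), (nat_lit 0))⟩, (nat_lit 505756), (nat_lit 300), (nat_lit 872), (nat_lit 14342401), (nat_lit 1201710), [(nat_lit 1721088000), (nat_lit 2564352000), (nat_lit 3542400000)], [], [(nat_lit 11081623232), (nat_lit 10850809912), (nat_lit 11003298186), (nat_lit 10757391494), (nat_lit 10179918934), (nat_lit 9940084482), (nat_lit 10108978351), (nat_lit 9853106031)], (nat_lit 1271251), (nat_lit 1271251), (nat_lit 1271251), (nat_lit 1271251), (nat_lit 780000), (nat_lit 3072501), [(nat_lit 1695001), (nat_lit 1271251), (nat_lit 1271251)], [(nat_lit 29), (nat_lit 66), (nat_lit 483), (nat_lit 250), (nat_lit 10)]⟩⟩)))))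
noncomputable def c14_91 : Tr Lf :=
 (.spl (nat_lit 6) (nat_lit 68) (.spl (nat_lit 1) (nat_lit 250) (.trX (nat_lit 3) (nat_lit 0) (nat_lit 1) (nat_lit 45) (nat_lit 79) (nat_lit 100) (nat_lit 330) (.spl (nat_lit 2) (nat_lit 200) (.spl (nat_lit 3) (nat_lit 280) (.spl (nat_lit 0) (nat_lit 390) (.leaf ⟨(nat_lit 605), (nat_lit 279), (nat_lit 0), (nat_lit 116), (nat_lit 0), (nat_lit 3572), (nat_lit 2859), (nat_lit 1605), (nat_lit 0), (nat_lit 0), (nat_lit 267200), [((nat_lit 390), [((nat_lit 28), (nat_lit 1), (nat_lit 479)), ((nat_lit 43), (nat_lit 2), (nat_lit 126))])], ⟨(nat_lit 6), false, true, true, (nat_lit 254), (nat_lit 1581), (nat_lit 2237), [(nat_lit 1602558), (nat_lit 1601260), (nat_lit 1613923), (nat_lit 1612895), (nat_lit 1659578), (nat_lit 1655900), (nat_lit 1670965), (nat_lit 1667558)]⟩, ⟨(nat_lit 4), false, false, true, (nat_lit 195), (nat_lit 1581), (nat_lit 2237), [(nat_lit 1420170), (nat_lit 1422009), (nat_lit 1442898), (nat_lit 1445278),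 (nat_lit 1534240), (nat_lit 1531319), (nat_lit 1557014), (nat_lit 1554634)]⟩, (nat_lit 5196341), (nat_lit 38795444), (nat_lit 17039583), (nat_lit 11164973), (nat_lit 4), (nat_lit 0), [], [], [], [⟨(nat_lit 0), (nat_lit 100), (nat_lit 95), (nat_lit 30), (nat_lit 126047649)⟩],
 ⟨⟨[(nat_lit 40), (nat_lit 60), (nat_lit 80)], [(nat_lit 0), (nat_lit 1539), (nat_lit 2453)], [((nat_lit 0), (nat_lit 0), (nat_lit 0)), ((nat_lit 1000), (nat_lit 478), (nat_lit 704)), ((nat_lit 1000), (nat_lit 474), (nat_lit 714))], ((nat_lit 45), (nat_lit 100), (nat_lit 78))⟩, (nat_lit 7296), (nat_lit 118), (nat_lit 118), (nat_lit 0), (nat_lit 206257), [(nat_lit 1553902804), (nat_lit 1524995601), (nat_lit 1773538400)], [(nat_lit 0), (nat_lit 0), (nat_lit 0)], [(nat_lit 24044717068), (nat_lit 24643490488), (nat_lit 25488231636), (nat_lit 26113998015), (nat_lit 25723965472), (nat_lit 26262665412), (nat_lit 27100866416), (nat_lit 27695667348)], (nat_lit 1271251), (nat_lit 1271251),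 (nat_lit 1271251), (nat_lit 1271251), (nat_lit 1100000), (nat_lit 1785001), [(nat_lit 490000), (nat_lit 780000), (nat_lit 1100000)], [(nat_lit 2), (nat_lit 44), (nat_lit 203), (nat_lit 0), (nat_lit 7)]⟩,
 ⟨⟨[(nat_lit 80), (nat_lit 140), (nat_lit 180)], [(nat_lit 0), (nat_lit 0), (nat_lit 3656)], [((nat_lit 0), (nat_lit 0), (nat_lit 0)), ((nat_lit 0), (nat_lit 0), (nat_lit 0)), ((nat_lit 637), (nat_lit 1000), (nat_lit 908))], ((nat_lit 100), (nat_lit 81), (nat_lit 77))⟩, (nat_lit 895916), (nat_lit 487), (nat_lit 487), (nat_lit 0), (nat_lit 421829), [(nat_lit 1851760000), (nat_lit 3887590000), (nat_lit 5552910000)], [], [(nat_lit 15327281464), (nat_lit 15444874563), (nat_lit 15825680028), (nat_lit 15976499506), (nat_lit 13925685316), (nat_lit 14027442231), (nat_lit 14332712974), (nat_lit 14422590460)], (nat_lit 1271251), (nat_lit 1271251), (nat_lit 1271251), (nat_lit 1271251), (nat_lit 0), (nat_lit 780000), [(nat_lit 1100000), (nat_lit 2127501), (nat_lit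 1271251)], [(nat_lit 19), (nat_lit 63), (nat_lit 401), (nat_lit 175), (nat_lit 9)]⟩,
 ⟨⟨[(nat_lit 120), (nat_lit 160), (nat_lit 200)], [(nat_lit 0), (nat_lit 533), (nat_lit 3597)], [((nat_lit 0), (nat_lit 0), (nat_lit 0)), ((nat_lit 960), (nat_lit 1000), (nat_lit 200)), ((nat_lit 612), (nat_lit 1000), (nat_lit 732))], ((nat_lit 0), (nat_lit 0), (nat_lit 0))⟩, (nat_lit 61745), (nat_lit 300), (nat_lit 808), (nat_lit 8401517), (nat_lit 745164), [(nat_lit 924288000), (nat_lit 1377152000), (nat_lit 1902400000)], [], [(nat_lit 7322027517), (nat_lit 7240134686), (nat_lit 6989499297), (nat_lit 6908118856), (nat_lit 5982553193), (nat_lit 5903826180), (nat_lit 6514884474), (nat_lit 5753250181)], (nat_lit 1271251), (nat_lit 1271251), (nat_lit 1100000), (nat_lit 1785001), (nat_lit 0), (nat_lit 780000), [(nat_lit 1695001), (nat_lit 1271251), (nat_lit 1271251)], [(nat_lit 29), (nat_lit 66), (nat_lit 373), (nat_lit 150), (nat_lit 8)]⟩⟩) (.leaf ⟨(nat_lit 868), (nat_lit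 70), (nat_lit 0), (nat_lit 62), (nat_lit 0), (nat_lit 3243), (nat_lit 1536), (nat_lit 861), (nat_lit 0), (nat_lit 0), (nat_lit 309850), [((nat_lit 400), [((nat_lit 28), (nat_lit 0), (nat_lit 249)), ((nat_lit 28), (nat_lit 1), (nat_lit 619))])], ⟨(nat_lit 6), false, true, true, (nat_lit 253), (nat_lit 0), (nat_lit 1582), [(nat_lit 1601257), (nat_lit 1599992), (nat_lit 1612591), (nat_lit 1612168), (nat_lit 1655899), (nat_lit 1649997), (nat_lit 1667557), (nat_lit 1662498)]⟩, ⟨(nat_lit 4), false, false, true, (nat_lit 195), (nat_lit 0), (nat_lit 1582), [(nat_lit 1421394), (nat_lit 1424345), (nat_lit 1444052), (nat_lit 1448688), (nat_lit 1531317), (nat_lit 1524997), (nat_lit 1554633), (nat_lit 1549998)]⟩, (nat_lit 5188477), (nat_lit 38902153), (nat_lit 16948470), (nat_lit 11149377), (nat_lit 4), (nat_lit 0), [⟨(nat_lit 1), (nat_lit 92), (nat_lit 23), (nat_lit 100), (nat_lit 266281680)⟩], [], [], [⟨(nat_lit 0), (nat_lit 100), (nat_lit 95), (nat_lit 30),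 (nat_lit 71601038)⟩, ⟨(nat_lit 0), (nat_lit 100), (nat_lit 94), (nat_lit 59), (nat_lit 22649598)⟩],
 ⟨⟨[(nat_lit 40), (nat_lit 60), (nat_lit 80)], [(nat_lit 0), (nat_lit 2136), (nat_lit 3185)], [((nat_lit 0), (nat_lit 0), (nat_lit 0)), ((nat_lit 1000), (nat_lit 343), (nat_lit 808)), ((nat_lit 1000), (nat_lit 338), (nat_lit 820))], ((nat_lit 34), (nat_lit 100), (nat_lit 82))⟩, (nat_lit 0), (nat_lit 136), (nat_lit 136), (nat_lit 0), (nat_lit 263299), [(nat_lit 1490201602), (nat_lit 1004931639), (nat_lit 1083854000)], [(nat_lit 0), (nat_lit 0), (nat_lit 0)], [(nat_lit 24686057306), (nat_lit 25225425436), (nat_lit 25981063859), (nat_lit 26481265484), (nat_lit 26265056857), (nat_lit 26743201430), (nat_lit 27466879455), (nat_lit 27953082070)], (nat_lit 1271251), (nat_lit 1271251), (nat_lit 1271251), (nat_lit 1271251), (nat_lit 1100000), (nat_lit 1785001), [(nat_lit 490000), (nat_lit 780000), (nat_lit 1100000)], [(nat_lit 2), (nat_lit 44), (nat_lit 203),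 (nat_lit 0), (nat_lit 7)]⟩,
 ⟨⟨[(nat_lit 80), (nat_lit 140), (nat_lit 180)], [(nat_lit 0), (nat_lit 0), (nat_lit 3656)], [((nat_lit 0), (nat_lit 0), (nat_lit 0)), ((nat_lit 0), (nat_lit 0), (nat_lit 0)), ((nat_lit 637), (nat_lit 1000), (nat_lit 908))], ((nat_lit 100), (nat_lit 81), (nat_lit 77))⟩, (nat_lit 290712), (nat_lit 592), (nat_lit 592), (nat_lit 0), (nat_lit 585779), [(nat_lit 618816000), (nat_lit 1299144000), (nat_lit 1855656000)], [], [(nat_lit 4844833776), (nat_lit 4883072328), (nat_lit 4997787984), (nat_lit 5030673543), (nat_lit 3821234856), (nat_lit 3853397811), (nat_lit 3949886676), (nat_lit 3976366929)], (nat_lit 1271251), (nat_lit 1271251), (nat_lit 1271251), (nat_lit 1271251), (nat_lit 0), (nat_lit 780000), [(nat_lit 1100000), (nat_lit 2127501), (nat_lit 1271251)], [(nat_lit 19), (nat_lit 63), (nat_lit 401), (nat_lit 175), (nat_lit 9)]⟩,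
 ⟨⟨[(nat_lit 120), (nat_lit 160), (nat_lit 200)], [(nat_lit 0), (nat_lit 533), (nat_lit 3597)], [((nat_lit 0), (nat_lit 0), (nat_lit 0)), ((nat_lit 960), (nat_lit 1000), (nat_lit 200)), ((nat_lit 612), (nat_lit 1000), (nat_lit 732))], ((nat_lit 0), (nat_lit 0), (nat_lit 0))⟩, (nat_lit 33002), (nat_lit 300), (nat_lit 912), (nat_lit 4490463), (nat_lit 1011614), [(nat_lit 494016000), (nat_lit 736064000), (nat_lit 1016800000)], [], [(nat_lit 3909710091), (nat_lit 3865703882), (nat_lit 3731028711), (nat_lit 3692159228), (nat_lit 3190820531), (nat_lit 3148515036), (nat_lit 3485113038), (nat_lit 3076535389)], (nat_lit 1271251), (nat_lit 1271251), (nat_lit 1100000), (nat_lit 1785001), (nat_lit 0), (nat_lit 780000), [(nat_lit 1695001), (nat_lit 1271251), (nat_lit 1271251)], [(nat_lit 29), (nat_lit 66), (nat_lit 373), (nat_lit 150), (nat_lit 8)]⟩⟩)) (.leaf ⟨(nat_lit 857), (nat_lit 90), (nat_lit 0), (nat_lit 53), (nat_lit 0), (nat_lit 3321), (nat_lit 1573),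 (nat_lit 778), (nat_lit 0), (nat_lit 0), (nat_lit 279200), [((nat_lit 400), [((nat_lit 28), (nat_lit 0), (nat_lit 424)), ((nat_lit 28), (nat_lit 1), (nat_lit 433))])], ⟨(nat_lit 7), false, true, true, (nat_lit 278), (nat_lit 0), (nat_lit 2237), [(nat_lit 1659577), (nat_lit 1649997), (nat_lit 1670965), (nat_lit 1662499), (nat_lit 1730844), (nat_lit 1712494), (nat_lit 1742231), (nat_lit 1724995)]⟩, ⟨(nat_lit 4), false, false, true, (nat_lit 195), (nat_lit 0), (nat_lit 2237), [(nat_lit 1419294), (nat_lit 1424084), (nat_lit 1441142), (nat_lit 1448157), (nat_lit 1534237), (nat_lit 1524996), (nat_lit 1557013), (nat_lit 1549998)]⟩, (nat_lit 5280343), (nat_lit 37130971), (nat_lit 19082984), (nat_lit 10786045), (nat_lit 4), (nat_lit 0), [⟨(nat_lit 1), (nat_lit 88), (nat_lit 32), (nat_lit 100), (nat_lit 406811738)⟩], [], [], [⟨(nat_lit 0), (nat_lit 100), (nat_lit 85), (nat_lit 53), (nat_lit 94522187)⟩],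
 ⟨⟨[(nat_lit 40), (nat_lit 60), (nat_lit 80)], [(nat_lit 0), (nat_lit 1539), (nat_lit 2453)], [((nat_lit 0), (nat_lit 0), (nat_lit 0)), ((nat_lit 1000), (nat_lit 478), (nat_lit 704)), ((nat_lit 1000), (nat_lit 474), (nat_lit 714))], ((nat_lit 45), (nat_lit 100), (nat_lit 78))⟩, (nat_lit 0), (nat_lit 148), (nat_lit 148), (nat_lit 0), (nat_lit 265892), [(nat_lit 1524032411), (nat_lit 1157731710), (nat_lit 1339538400)], [(nat_lit 0), (nat_lit 0), (nat_lit 0)], [(nat_lit 25667790112), (nat_lit 26678092382), (nat_lit 27414918934), (nat_lit 28541492863), (nat_lit 27145077261), (nat_lit 28038901078), (nat_lit 28791448137), (nat_lit 29819666998)], (nat_lit 1271251), (nat_lit 1271251), (nat_lit 1271251), (nat_lit 1271251), (nat_lit 1100000), (nat_lit 1785001), [(nat_lit 490000), (nat_lit 780000), (nat_lit 1100000)], [(nat_lit 2), (nat_lit 44), (nat_lit 203), (nat_lit 0), (nat_lit 7)]⟩,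
 ⟨⟨[(nat_lit 80), (nat_lit 140), (nat_lit 180)], [(nat_lit 0), (nat_lit 0), (nat_lit 3656)], [((nat_lit 0), (nat_lit 0), (nat_lit 0)), ((nat_lit 0), (nat_lit 0), (nat_lit 0)), ((nat_lit 637), (nat_lit 1000), (nat_lit 908))], ((nat_lit 100), (nat_lit 81), (nat_lit 77))⟩, (nat_lit 279210), (nat_lit 586), (nat_lit 586), (nat_lit 0), (nat_lit 585857), [(nat_lit 670384000), (nat_lit 1407406000), (nat_lit 2010294000)], [], [(nat_lit 5610814078), (nat_lit 5631313093), (nat_lit 5925687065), (nat_lit 5988657017), (nat_lit 4537102427), (nat_lit 4565814075), (nat_lit 4732748128), (nat_lit 4754022559)], (nat_lit 1271251), (nat_lit 1271251), (nat_lit 1271251), (nat_lit 1271251), (nat_lit 0), (nat_lit 780000), [(nat_lit 1100000), (nat_lit 2127501), (nat_lit 1271251)], [(nat_lit 19), (nat_lit 63), (nat_lit 401), (nat_lit 175), (nat_lit 9)]⟩,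
 ⟨⟨[(nat_lit 120), (nat_lit 160), (nat_lit 200)], [(nat_lit 0), (nat_lit 533), (nat_lit 3597)], [((nat_lit 0), (nat_lit 0), (nat_lit 0)), ((nat_lit 960), (nat_lit 1000), (nat_lit 200)), ((nat_lit 612), (nat_lit 1000), (nat_lit 732))], ((nat_lit 0), (nat_lit 0), (nat_lit 0))⟩, (nat_lit 28211), (nat_lit 300), (nat_lit 912), (nat_lit 3838626), (nat_lit 1011614), [(nat_lit 422304000), (nat_lit 629216000), (nat_lit 869200000)], [], [(nat_lit 3291801797), (nat_lit 3251044578), (nat_lit 3181207077), (nat_lit 3154738666), (nat_lit 2637832059), (nat_lit 2598643628), (nat_lit 3019389587), (nat_lit 2650198634)], (nat_lit 1271251), (nat_lit 1271251), (nat_lit 1100000), (nat_lit 1785001), (nat_lit 0), (nat_lit 780000), [(nat_lit 1695001), (nat_lit 1271251), (nat_lit 1271251)], [(nat_lit 29), (nat_lit 66), (nat_lit 373), (nat_lit 150), (nat_lit 8)]⟩⟩)) (.leaf ⟨(nat_lit 827), (nat_lit 84), (nat_lit 0), (nat_lit 89), (nat_lit 0), (nat_lit 3519), (nat_lit 1869),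 (nat_lit 1265), (nat_lit 0), (nat_lit 0), (nat_lit 254750), [((nat_lit 400), [((nat_lit 28), (nat_lit 0), (nat_lit 507)), ((nat_lit 28), (nat_lit 1), (nat_lit 320))])], ⟨(nat_lit 6), false, true, true, (nat_lit 267), (nat_lit 0), (nat_lit 2237), [(nat_lit 1602531), (nat_lit 1599967), (nat_lit 1613477), (nat_lit 1612026), (nat_lit 1730844), (nat_lit 1712494), (nat_lit 1742231), (nat_lit 1724995)]⟩, ⟨(nat_lit 5), false, false, false, (nat_lit 204), (nat_lit 0), (nat_lit 2237), [(nat_lit 1441142), (nat_lit 1448157), (nat_lit 1462989), (nat_lit 1472231), (nat_lit 1557013), (nat_lit 1549998), (nat_lit 1579788), (nat_lit 1574999)]⟩, (nat_lit 5307612), (nat_lit 37369457), (nat_lit 17960436), (nat_lit 11670107), (nat_lit 5), (nat_lit 0), [⟨(nat_lit 1), (nat_lit 88), (nat_lit 32), (nat_lit 100), (nat_lit 235946064)⟩], [], [], [⟨(nat_lit 0), (nat_lit 100), (nat_lit 91), (nat_lit 43), (nat_lit 147378249)⟩],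
 ⟨⟨[(nat_lit 40), (nat_lit 60), (nat_lit 80)], [(nat_lit 0), (nat_lit 1539), (nat_lit 2453)], [((nat_lit 0), (nat_lit 0), (nat_lit 0)), ((nat_lit 1000), (nat_lit 478), (nat_lit 704)), ((nat_lit 1000), (nat_lit 474), (nat_lit 714))], ((nat_lit 45), (nat_lit 100), (nat_lit 78))⟩, (nat_lit 0), (nat_lit 143), (nat_lit 143), (nat_lit 0), (nat_lit 256340), [(nat_lit 1550060405), (nat_lit 1297088122), (nat_lit 1572090800)], [(nat_lit 0), (nat_lit 0), (nat_lit 0)], [(nat_lit 24244843153), (nat_lit 25363303266), (nat_lit 27602622739), (nat_lit 28801843657), (nat_lit 25874295652), (nat_lit 26859665416), (nat_lit 28995475579), (nat_lit 30048217903)], (nat_lit 1271251), (nat_lit 1271251), (nat_lit 1271251), (nat_lit 1271251), (nat_lit 1100000), (nat_lit 1785001), [(nat_lit 490000), (nat_lit 780000), (nat_lit 1100000)], [(nat_lit 2), (nat_lit 44), (nat_lit 203), (nat_lit 0), (nat_lit 7)]⟩,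
 ⟨⟨[(nat_lit 80), (nat_lit 140), (nat_lit 180)], [(nat_lit 0), (nat_lit 0), (nat_lit 3656)], [((nat_lit 0), (nat_lit 0), (nat_lit 0)), ((nat_lit 0), (nat_lit 0), (nat_lit 0)), ((nat_lit 637), (nat_lit 1000), (nat_lit 908))], ((nat_lit 100), (nat_lit 81), (nat_lit 77))⟩, (nat_lit 355930), (nat_lit 578), (nat_lit 578), (nat_lit 0), (nat_lit 550739), [(nat_lit 811024000), (nat_lit 1702666000), (nat_lit 2432034000)], [], [(nat_lit 6660406848), (nat_lit 6691829082), (nat_lit 7115196893), (nat_lit 7147903427), (nat_lit 5418446834), (nat_lit 5460175018), (nat_lit 5821084069), (nat_lit 5846969949)], (nat_lit 1271251), (nat_lit 1271251), (nat_lit 1271251), (nat_lit 1271251), (nat_lit 0), (nat_lit 780000), [(nat_lit 1100000), (nat_lit 2127501), (nat_lit 1271251)], [(nat_lit 19), (nat_lit 63), (nat_lit 401), (nat_lit 175), (nat_lit 9)]⟩,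
 ⟨⟨[(nat_lit 100), (nat_lit 140), (nat_lit 180)], [(nat_lit 0), (nat_lit 0), (nat_lit 2434)], [((nat_lit 0), (nat_lit 0), (nat_lit 0)), ((nat_lit 0), (nat_lit 0), (nat_lit 0)), ((nat_lit 726), (nat_lit 1000), (nat_lit 688))], ((nat_lit 100), (nat_lit 66), (nat_lit 75))⟩, (nat_lit 51338), (nat_lit 300), (nat_lit 743), (nat_lit 6256700), (nat_lit 787815), [(nat_lit 556250000), (nat_lit 875938000), (nat_lit 1251162000)], [], [(nat_lit 4576885670), (nat_lit 4534397973), (nat_lit 4396133524), (nat_lit 4379272986), (nat_lit 3578967451), (nat_lit 3536828409), (nat_lit 3499428999), (nat_lit 3349634073)], (nat_lit 1271251), (nat_lit 1271251), (nat_lit 1100000), (nat_lit 1785001), (nat_lit 0), (nat_lit 780000), [(nat_lit 1412501), (nat_lit 1271251), (nat_lit 1271251)], [(nat_lit 24), (nat_lit 63), (nat_lit 373), (nat_lit 150), (nat_lit 9)]⟩⟩))) (.leaf ⟨(nat_lit 437), (nat_lit 412), (nat_lit 0), (nat_lit 151), (nat_lit 0), (nat_lit 3777), (nat_lit 4447), (nat_lit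 2180), (nat_lit 0), (nat_lit 0), (nat_lit 254000), [((nat_lit 400), [((nat_lit 28), (nat_lit 1), (nat_lit 41)), ((nat_lit 43), (nat_lit 2), (nat_lit 396))])], ⟨(nat_lit 6), false, true, true, (nat_lit 274), (nat_lit 0), (nat_lit 2237), [(nat_lit 1613477), (nat_lit 1612026), (nat_lit 1624400), (nat_lit 1624062), (nat_lit 1756485), (nat_lit 1737495), (nat_lit 1767872), (nat_lit 1749995)]⟩, ⟨(nat_lit 4), false, false, true, (nat_lit 200), (nat_lit 0), (nat_lit 2237), [(nat_lit 1419294), (nat_lit 1424084), (nat_lit 1462989), (nat_lit 1472231), (nat_lit 1534237), (nat_lit 1524996), (nat_lit 1579788), (nat_lit 1574999)]⟩, (nat_lit 5301685), (nat_lit 37114860), (nat_lit 18690929), (nat_lit 11194211), (nat_lit 4), (nat_lit 0), [], [], [⟨(nat_lit 0), (nat_lit 100), (nat_lit 96), (nat_lit 27), (nat_lit 47127302)⟩], [⟨(nat_lit 0), (nat_lit 100), (nat_lit 89), (nat_lit 45), (nat_lit 126094378)⟩],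
 ⟨⟨[(nat_lit 40), (nat_lit 60), (nat_lit 80)], [(nat_lit 0), (nat_lit 1539), (nat_lit 2453)], [((nat_lit 0), (nat_lit 0), (nat_lit 0)), ((nat_lit 1000), (nat_lit 478), (nat_lit 704)), ((nat_lit 1000), (nat_lit 474), (nat_lit 714))], ((nat_lit 45), (nat_lit 100), (nat_lit 78))⟩, (nat_lit 0), (nat_lit 161), (nat_lit 161), (nat_lit 0), (nat_lit 282976), [(nat_lit 1620709225), (nat_lit 1610558522), (nat_lit 2104133600)], [(nat_lit 0), (nat_lit 0), (nat_lit 0)], [(nat_lit 24493083579), (nat_lit 25597224298), (nat_lit 28440898691), (nat_lit 29647278714), (nat_lit 26059324136), (nat_lit 27102257104), (nat_lit 29735421628), (nat_lit 30792816183)], (nat_lit 1271251), (nat_lit 1271251), (nat_lit 1271251), (nat_lit 1271251), (nat_lit 1100000), (nat_lit 1785001), [(nat_lit 490000), (nat_lit 780000), (nat_lit 1100000)], [(nat_lit 2), (nat_lit 44), (nat_lit 203), (nat_lit 0), (nat_lit 7)]⟩,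
 ⟨⟨[(nat_lit 80), (nat_lit 120), (nat_lit 160)], [(nat_lit 0), (nat_lit 264), (nat_lit 2353)], [((nat_lit 0), (nat_lit 0), (nat_lit 0)), ((nat_lit 1000), (nat_lit 979), (nat_lit 103)), ((nat_lit 893), (nat_lit 1000), (nat_lit 726))], ((nat_lit 100), (nat_lit 85), (nat_lit 78))⟩, (nat_lit 1867819), (nat_lit 514), (nat_lit 514), (nat_lit 0), (nat_lit 569289), [(nat_lit 2639344000), (nat_lit 4485984000), (nat_lit 6683936000)], [], [(nat_lit 18433331002), (nat_lit 18652364793), (nat_lit 20713781901), (nat_lit 20868590874), (nat_lit 16212876515), (nat_lit 16367235490), (nat_lit 18028518415), (nat_lit 18163529278)], (nat_lit 1271251), (nat_lit 1271251), (nat_lit 1271251), (nat_lit 1271251), (nat_lit 0), (nat_lit 780000), [(nat_lit 1100000), (nat_lit 1785001), (nat_lit 1271251)], [(nat_lit 18), (nat_lit 59), (nat_lit 428), (nat_lit 200), (nat_lit 11)]⟩,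
 ⟨⟨[(nat_lit 120), (nat_lit 160), (nat_lit 200)], [(nat_lit 0), (nat_lit 533), (nat_lit 3597)], [((nat_lit 0), (nat_lit 0), (nat_lit 0)), ((nat_lit 960), (nat_lit 1000), (nat_lit 200)), ((nat_lit 612), (nat_lit 1000), (nat_lit 732))], ((nat_lit 0), (nat_lit 0), (nat_lit 0))⟩, (nat_lit 80376), (nat_lit 300), (nat_lit 932), (nat_lit 10936448), (nat_lit 1062675), [(nat_lit 1203168000), (nat_lit 1792672000), (nat_lit 2476400000)], [], [(nat_lit 9422392837), (nat_lit 9195621455), (nat_lit 9062507423), (nat_lit 8916088509), (nat_lit 7593542223), (nat_lit 7375509737), (nat_lit 8567416846), (nat_lit 6982529610)], (nat_lit 1271251), (nat_lit 1271251), (nat_lit 1100000), (nat_lit 1785001), (nat_lit 0), (nat_lit 780000), [(nat_lit 1695001), (nat_lit 1271251), (nat_lit 1271251)], [(nat_lit 29), (nat_lit 66), (nat_lit 373), (nat_lit 150), (nat_lit 8)]⟩⟩)) (.leaf ⟨(nat_lit 382), (nat_lit 459), (nat_lit 0), (nat_lit 159), (nat_lit 0), (nat_lit 3718), (nat_lit 4388),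 (nat_lit 2296), (nat_lit 0), (nat_lit 0), (nat_lit 365200), [((nat_lit 400), [((nat_lit 43), (nat_lit 2), (nat_lit 42)), ((nat_lit 29), (nat_lit 2), (nat_lit 340))])], ⟨(nat_lit 6), false, true, true, (nat_lit 272), (nat_lit 0), (nat_lit 2237), [(nat_lit 1602531), (nat_lit 1599967), (nat_lit 1624400), (nat_lit 1624062), (nat_lit 1745097), (nat_lit 1724995), (nat_lit 1767872), (nat_lit 1749995)]⟩, ⟨(nat_lit 4), false, false, true, (nat_lit 200), (nat_lit 0), (nat_lit 2237), [(nat_lit 1419294), (nat_lit 1424084), (nat_lit 1462989), (nat_lit 1472231), (nat_lit 1534237), (nat_lit 1524996), (nat_lit 1579788), (nat_lit 1574999)]⟩, (nat_lit 5293943), (nat_lit 37280502), (nat_lit 18489120), (nat_lit 11230378), (nat_lit 4), (nat_lit 0), [], [], [⟨(nat_lit 0), (nat_lit 100), (nat_lit 97), (nat_lit 25), (nat_lit 55041764)⟩], [⟨(nat_lit 0), (nat_lit 100), (nat_lit 89), (nat_lit 45), (nat_lit 122696146)⟩],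
 ⟨⟨[(nat_lit 40), (nat_lit 80), (nat_lit 100)], [(nat_lit 0), (nat_lit 2514), (nat_lit 3562)], [((nat_lit 0), (nat_lit 0), (nat_lit 0)), ((nat_lit 1000), (nat_lit 446), (nat_lit 804)), ((nat_lit 1000), (nat_lit 443), (nat_lit 819))], ((nat_lit 44), (nat_lit 100), (nat_lit 84))⟩, (nat_lit 793), (nat_lit 136), (nat_lit 136), (nat_lit 0), (nat_lit 148165), [(nat_lit 1684252092), (nat_lit 1554189580), (nat_lit 1504864800)], [(nat_lit 0), (nat_lit 0), (nat_lit 0)], [(nat_lit 24463354790), (nat_lit 25610296074), (nat_lit 28368777194), (nat_lit 29566502876), (nat_lit 26015468008), (nat_lit 27046736774), (nat_lit 29671761852), (nat_lit 30722164922)], (nat_lit 1271251), (nat_lit 1271251), (nat_lit 1271251), (nat_lit 1271251), (nat_lit 1100000), (nat_lit 1785001), [(nat_lit 490000), (nat_lit 1100000), (nat_lit 1442501)], [(nat_lit 3), (nat_lit 50), (nat_lit 272), (nat_lit 60), (nat_lit 8)]⟩,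
 ⟨⟨[(nat_lit 80), (nat_lit 140), (nat_lit 180)], [(nat_lit 0), (nat_lit 0), (nat_lit 3656)], [((nat_lit 0), (nat_lit 0), (nat_lit 0)), ((nat_lit 0), (nat_lit 0), (nat_lit 0)), ((nat_lit 637), (nat_lit 1000), (nat_lit 908))], ((nat_lit 100), (nat_lit 73), (nat_lit 85))⟩, (nat_lit 1433118), (nat_lit 435), (nat_lit 435), (nat_lit 0), (nat_lit 293167), [(nat_lit 2897184000), (nat_lit 6082356000), (nat_lit 8687844000)], [], [(nat_lit 23904827520), (nat_lit 24300091880), (nat_lit 26599527302), (nat_lit 26979515678), (nat_lit 21536139372), (nat_lit 21925709446), (nat_lit 23677652572), (nat_lit 24016698350)], (nat_lit 1271251), (nat_lit 1271251), (nat_lit 1271251), (nat_lit 1271251), (nat_lit 0), (nat_lit 780000), [(nat_lit 1100000), (nat_lit 2127501), (nat_lit 1271251)], [(nat_lit 19), (nat_lit 63), (nat_lit 428), (nat_lit 200), (nat_lit 10)]⟩,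
 ⟨⟨[(nat_lit 120), (nat_lit 160), (nat_lit 200)], [(nat_lit 0), (nat_lit 533), (nat_lit 3597)], [((nat_lit 0), (nat_lit 0), (nat_lit 0)), ((nat_lit 960), (nat_lit 1000), (nat_lit 200)), ((nat_lit 612), (nat_lit 1000), (nat_lit 732))], ((nat_lit 0), (nat_lit 0), (nat_lit 0))⟩, (nat_lit 84634), (nat_lit 300), (nat_lit 701), (nat_lit 11515863), (nat_lit 556071), [(nat_lit 1266912000), (nat_lit 1887648000), (nat_lit 2607600000)], [], [(nat_lit 9920988905), (nat_lit 9682262176), (nat_lit 9542653223), (nat_lit 9388416437), (nat_lit 7994772787), (nat_lit 7765116405), (nat_lit 9021801412), (nat_lit 7351915252)], (nat_lit 1271251), (nat_lit 1271251), (nat_lit 1100000), (nat_lit 1785001), (nat_lit 0), (nat_lit 780000), [(nat_lit 1695001), (nat_lit 1271251), (nat_lit 1271251)], [(nat_lit 29), (nat_lit 66), (nat_lit 373), (nat_lit 150), (nat_lit 8)]⟩⟩))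
noncomputable def c14_92 : Tr Lf :=
 (.trZ (nat_lit 3) (nat_lit 4) (nat_lit 5) (nat_lit 100) (nat_lit 100) (nat_lit 40) (nat_lit 10) (.spl (nat_lit 0) (nat_lit 390) (.leaf ⟨(nat_lit 389), (nat_lit 429), (nat_lit 0), (nat_lit 182), (nat_lit 0), (nat_lit 3555), (nat_lit 4595), (nat_lit 2418), (nat_lit 0), (nat_lit 0), (nat_lit 233400), [((nat_lit 390), [((nat_lit 43), (nat_lit 2), (nat_lit 389))])], ⟨(nat_lit 6), false, true, true, (nat_lit 273), (nat_lit 1581), (nat_lit 2237), [(nat_lit 1602558), (nat_lit 1601260), (nat_lit 1625287), (nat_lit 1624529), (nat_lit 1745101), (nat_lit 1737854), (nat_lit 1767876), (nat_lit 1761169)]⟩, ⟨(nat_lit 6), false, true, true, (nat_lit 242), (nat_lit 1581), (nat_lit 2237), [(nat_lit 1534240), (nat_lit 1531319), (nat_lit 1579788), (nat_lit 1577949), (nat_lit 1634017), (nat_lit 1626932), (nat_lit 1679566), (nat_lit 1673562)]⟩, (nat_lit 5537252), (nat_lit 34833165), (nat_lit 17676996), (nat_lit 14489839), (nat_lit 6),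 (nat_lit 0), [], [⟨(nat_lit 1), (nat_lit 93), (nat_lit 38), (nat_lit 100), (nat_lit 22403313)⟩], [], [⟨(nat_lit 0), (nat_lit 100), (nat_lit 96), (nat_lit 81), (nat_lit 239094993)⟩],
 ⟨⟨[(nat_lit 40), (nat_lit 80), (nat_lit 100)], [(nat_lit 0), (nat_lit 2514), (nat_lit 3562)], [((nat_lit 0), (nat_lit 0), (nat_lit 0)), ((nat_lit 1000), (nat_lit 446), (nat_lit 804)), ((nat_lit 1000), (nat_lit 443), (nat_lit 819))], ((nat_lit 44), (nat_lit 100), (nat_lit 84))⟩, (nat_lit 533549), (nat_lit 144), (nat_lit 144), (nat_lit 0), (nat_lit 226915), [(nat_lit 1640066015), (nat_lit 2494285095), (nat_lit 2977887600)], [(nat_lit 0), (nat_lit 0), (nat_lit 0)], [(nat_lit 25754412272), (nat_lit 26248707705), (nat_lit 29495888234), (nat_lit 30011432040), (nat_lit 28198438457), (nat_lit 28753062115), (nat_lit 31518446007), (nat_lit 31965215527)], (nat_lit 1271251), (nat_lit 1271251), (nat_lit 1271251), (nat_lit 1271251), (nat_lit 1271251), (nat_lit 1271251), [(nat_lit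 490000), (nat_lit 1100000), (nat_lit 1442501)], [(nat_lit 3), (nat_lit 50), (nat_lit 203), (nat_lit 0), (nat_lit 5)]⟩,
 ⟨⟨[(nat_lit 80), (nat_lit 140), (nat_lit 180)], [(nat_lit 0), (nat_lit 0), (nat_lit 3656)], [((nat_lit 0), (nat_lit 0), (nat_lit 0)), ((nat_lit 0), (nat_lit 0), (nat_lit 0)), ((nat_lit 637), (nat_lit 1000), (nat_lit 908))], ((nat_lit 100), (nat_lit 73), (nat_lit 85))⟩, (nat_lit 1465628), (nat_lit 482), (nat_lit 482), (nat_lit 0), (nat_lit 429289), [(nat_lit 2864368000), (nat_lit 6013462000), (nat_lit 8589438000)], [], [(nat_lit 22951744074), (nat_lit 23467113872), (nat_lit 25783143775), (nat_lit 26161592795), (nat_lit 20911327940), (nat_lit 21228376441), (nat_lit 23000381960), (nat_lit 23339156890)], (nat_lit 1271251), (nat_lit 1271251), (nat_lit 1271251), (nat_lit 1271251), (nat_lit 54688), (nat_lit 780000), [(nat_lit 1100000), (nat_lit 2127501), (nat_lit 1271251)], [(nat_lit 19), (nat_lit 63), (nat_lit 428), (nat_lit 200), (nat_lit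 10)]⟩,
 ⟨⟨[(nat_lit 120), (nat_lit 160), (nat_lit 200)], [(nat_lit 0), (nat_lit 533), (nat_lit 3597)], [((nat_lit 0), (nat_lit 0), (nat_lit 0)), ((nat_lit 960), (nat_lit 1000), (nat_lit 200)), ((nat_lit 612), (nat_lit 1000), (nat_lit 732))], ((nat_lit 0), (nat_lit 0), (nat_lit 0))⟩, (nat_lit 426146), (nat_lit 300), (nat_lit 769), (nat_lit 12084802), (nat_lit 810293), [(nat_lit 1450176000), (nat_lit 2160704000), (nat_lit 2984800000)], [], [(nat_lit 10264777969), (nat_lit 10114019124), (nat_lit 10440315808), (nat_lit 10249429234), (nat_lit 8469919995), (nat_lit 8222376881), (nat_lit 8498121014), (nat_lit 8315686499)], (nat_lit 1271251), (nat_lit 1271251), (nat_lit 1271251), (nat_lit 1271251), (nat_lit 54688), (nat_lit 780000), [(nat_lit 1695001), (nat_lit 1271251), (nat_lit 1271251)], [(nat_lit 29), (nat_lit 66), (nat_lit 401), (nat_lit 175), (nat_lit 8)]⟩⟩) (.trX (nat_lit 3) (nat_lit 0) (nat_lit 1) (nat_lit 33) (nat_lit 85) (nat_lit 100) (nat_lit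 320) (.trX (nat_lit 4) (nat_lit 0) (nat_lit 2) (nat_lit 31) (nat_lit 92) (nat_lit 100) (nat_lit 290) (.spl (nat_lit 0) (nat_lit 395) (.leaf ⟨(nat_lit 775), (nat_lit 113), (nat_lit 0), (nat_lit 112), (nat_lit 0), (nat_lit 3773), (nat_lit 2751), (nat_lit 1446), (nat_lit 0), (nat_lit 0), (nat_lit 193750), [((nat_lit 395), [((nat_lit 29), (nat_lit 0), (nat_lit 775))])], ⟨(nat_lit 6), false, true, true, (nat_lit 267), (nat_lit 1118), (nat_lit 1582), [(nat_lit 1601263), (nat_lit 1600626), (nat_lit 1624546), (nat_lit 1624345), (nat_lit 1710536), (nat_lit 1706882), (nat_lit 1733851), (nat_lit 1730633)]⟩, ⟨(nat_lit 6), false, true, true, (nat_lit 235), (nat_lit 1118), (nat_lit 1582), [(nat_lit 1531319), (nat_lit 1529375), (nat_lit 1577949), (nat_lit 1576877), (nat_lit 1599614), (nat_lit 1595784), (nat_lit 1646244), (nat_lit 1643285)]⟩, (nat_lit 5482659), (nat_lit 35634389), (nat_lit 17283913), (nat_lit 14081698), (nat_lit 6), (nat_lit 0), [], [⟨(nat_lit 1),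 (nat_lit 96), (nat_lit 27), (nat_lit 100), (nat_lit 158415570)⟩], [], [⟨(nat_lit 0), (nat_lit 100), (nat_lit 97), (nat_lit 71), (nat_lit 183218830)⟩],
 ⟨⟨[(nat_lit 40), (nat_lit 60), (nat_lit 80)], [(nat_lit 0), (nat_lit 2136), (nat_lit 3185)], [((nat_lit 0), (nat_lit 0), (nat_lit 0)), ((nat_lit 1000), (nat_lit 343), (nat_lit 808)), ((nat_lit 1000), (nat_lit 338), (nat_lit 820))], ((nat_lit 32), (nat_lit 100), (nat_lit 86))⟩, (nat_lit 20157), (nat_lit 131), (nat_lit 131), (nat_lit 0), (nat_lit 254666), [(nat_lit 1616030006), (nat_lit 1617471102), (nat_lit 2121510000)], [(nat_lit 0), (nat_lit 0), (nat_lit 0)], [(nat_lit 26518081250), (nat_lit 26771765485), (nat_lit 29339051230), (nat_lit 29616921949), (nat_lit 28249770516), (nat_lit 28547956256), (nat_lit 30830996924), (nat_lit 31081672874)], (nat_lit 1271251), (nat_lit 1271251), (nat_lit 1271251), (nat_lit 1271251), (nat_lit 1271251), (nat_lit 1271251), [(nat_lit 490000), (nat_lit 780000), (nat_lit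 1100000)], [(nat_lit 2), (nat_lit 44), (nat_lit 203), (nat_lit 0), (nat_lit 6)]⟩,
 ⟨⟨[(nat_lit 80), (nat_lit 140), (nat_lit 180)], [(nat_lit 0), (nat_lit 0), (nat_lit 3656)], [((nat_lit 0), (nat_lit 0), (nat_lit 0)), ((nat_lit 0), (nat_lit 0), (nat_lit 0)), ((nat_lit 637), (nat_lit 1000), (nat_lit 908))], ((nat_lit 100), (nat_lit 73), (nat_lit 85))⟩, (nat_lit 519825), (nat_lit 554), (nat_lit 554), (nat_lit 0), (nat_lit 510269), [(nat_lit 1054800000), (nat_lit 2214450000), (nat_lit 3163050000)], [], [(nat_lit 7794747387), (nat_lit 7925413711), (nat_lit 8794260879), (nat_lit 9011796242), (nat_lit 6135255450), (nat_lit 6245684984), (nat_lit 6576973584), (nat_lit 6767308092)], (nat_lit 1271251), (nat_lit 1271251), (nat_lit 1271251), (nat_lit 1271251), (nat_lit 54688), (nat_lit 780000), [(nat_lit 1100000), (nat_lit 2127501), (nat_lit 1271251)], [(nat_lit 19), (nat_lit 63), (nat_lit 401), (nat_lit 175), (nat_lit 9)]⟩,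
 ⟨⟨[(nat_lit 120), (nat_lit 160), (nat_lit 200)], [(nat_lit 0), (nat_lit 533), (nat_lit 3597)], [((nat_lit 0), (nat_lit 0), (nat_lit 0)), ((nat_lit 960), (nat_lit 1000), (nat_lit 200)), ((nat_lit 612), (nat_lit 1000), (nat_lit 732))], ((nat_lit 0), (nat_lit 0), (nat_lit 0))⟩, (nat_lit 262244), (nat_lit 300), (nat_lit 844), (nat_lit 7436800), (nat_lit 940956), [(nat_lit 892416000), (nat_lit 1329664000), (nat_lit 1836800000)], [], [(nat_lit 6383540263), (nat_lit 6232629858), (nat_lit 6398016785), (nat_lit 6293248558), (nat_lit 5314296468), (nat_lit 5168204452), (nat_lit 5254773697), (nat_lit 5145815355)], (nat_lit 1271251), (nat_lit 1271251), (nat_lit 1271251), (nat_lit 1271251), (nat_lit 54688), (nat_lit 780000), [(nat_lit 1695001), (nat_lit 1271251), (nat_lit 1271251)], [(nat_lit 29), (nat_lit 66), (nat_lit 401), (nat_lit 175), (nat_lit 8)]⟩⟩) (.trX (nat_lit 3) (nat_lit 0) (nat_lit 1) (nat_lit 23) (nat_lit 91) (nat_lit 100) (nat_lit 310) (.trX (nat_lit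 4) (nat_lit 0) (nat_lit 2) (nat_lit 22) (nat_lit 95) (nat_lit 100) (nat_lit 270) (.leaf ⟨(nat_lit 808), (nat_lit 93), (nat_lit 0), (nat_lit 99), (nat_lit 0), (nat_lit 3753), (nat_lit 2123), (nat_lit 1283), (nat_lit 0), (nat_lit 0), (nat_lit 202000), [((nat_lit 400), [((nat_lit 29), (nat_lit 0), (nat_lit 808))])], ⟨(nat_lit 6), false, true, true, (nat_lit 263), (nat_lit 0), (nat_lit 1119), [(nat_lit 1600626), (nat_lit 1599998), (nat_lit 1623914), (nat_lit 1624534), (nat_lit 1693597), (nat_lit 1687496), (nat_lit 1717349), (nat_lit 1712497)]⟩, ⟨(nat_lit 6), false, true, true, (nat_lit 228), (nat_lit 0), (nat_lit 1119), [(nat_lit 1529372), (nat_lit 1524996), (nat_lit 1576876), (nat_lit 1574998), (nat_lit 1569216), (nat_lit 1562495), (nat_lit 1616720), (nat_lit 1612497)]⟩, (nat_lit 5435550), (nat_lit 36251000), (nat_lit 17125925), (nat_lit 13623075), (nat_lit 6), (nat_lit 0), [], [⟨(nat_lit 1), (nat_lit 99), (nat_lit 16), (nat_lit 100), (nat_lit 729541623)⟩],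 [], [⟨(nat_lit 0), (nat_lit 100), (nat_lit 96), (nat_lit 64), (nat_lit 153226678)⟩],
 ⟨⟨[(nat_lit 40), (nat_lit 60), (nat_lit 80)], [(nat_lit 0), (nat_lit 2600), (nat_lit 3731)], [((nat_lit 0), (nat_lit 0), (nat_lit 0)), ((nat_lit 1000), (nat_lit 245), (nat_lit 872)), ((nat_lit 1000), (nat_lit 240), (nat_lit 884))], ((nat_lit 24), (nat_lit 100), (nat_lit 89))⟩, (nat_lit 0), (nat_lit 137), (nat_lit 137), (nat_lit 0), (nat_lit 281938), [(nat_lit 1608281601), (nat_lit 1641761115), (nat_lit 2012227200)], [(nat_lit 0), (nat_lit 0), (nat_lit 0)], [(nat_lit 26748407296), (nat_lit 27079593592), (nat_lit 29239478390), (nat_lit 29523448254), (nat_lit 27816009194), (nat_lit 28126959876), (nat_lit 30141350790), (nat_lit 30408569053)], (nat_lit 1271251), (nat_lit 1271251), (nat_lit 1271251), (nat_lit 1271251), (nat_lit 1271251), (nat_lit 1271251), [(nat_lit 490000), (nat_lit 780000), (nat_lit 1100000)], [(nat_lit 2), (nat_lit 44), (nat_lit 203), (nat_lit 0),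 (nat_lit 6)]⟩,
 ⟨⟨[(nat_lit 80), (nat_lit 140), (nat_lit 180)], [(nat_lit 0), (nat_lit 0), (nat_lit 3656)], [((nat_lit 0), (nat_lit 0), (nat_lit 0)), ((nat_lit 0), (nat_lit 0), (nat_lit 0)), ((nat_lit 637), (nat_lit 1000), (nat_lit 908))], ((nat_lit 100), (nat_lit 73), (nat_lit 85))⟩, (nat_lit 389847), (nat_lit 587), (nat_lit 587), (nat_lit 0), (nat_lit 593457), [(nat_lit 900096000), (nat_lit 1889664000), (nat_lit 2699136000)], [], [(nat_lit 7166063274), (nat_lit 7234948588), (nat_lit 7507161670), (nat_lit 7601716285), (nat_lit 5874761136), (nat_lit 5967670568), (nat_lit 6199944148), (nat_lit 6265176286)], (nat_lit 1271251), (nat_lit 1271251), (nat_lit 1271251), (nat_lit 1271251), (nat_lit 54688), (nat_lit 780000), [(nat_lit 1100000), (nat_lit 2127501), (nat_lit 1271251)], [(nat_lit 19), (nat_lit 63), (nat_lit 401), (nat_lit 175), (nat_lit 9)]⟩,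
 ⟨⟨[(nat_lit 120), (nat_lit 160), (nat_lit 200)], [(nat_lit 0), (nat_lit 533), (nat_lit 3597)], [((nat_lit 0), (nat_lit 0), (nat_lit 0)), ((nat_lit 960), (nat_lit 1000), (nat_lit 200)), ((nat_lit 612), (nat_lit 1000), (nat_lit 732))], ((nat_lit 0), (nat_lit 0), (nat_lit 0))⟩, (nat_lit 231805), (nat_lit 300), (nat_lit 896), (nat_lit 6573600), (nat_lit 1073501), [(nat_lit 788832000), (nat_lit 1175328000), (nat_lit 1623600000)], [], [(nat_lit 5634902092), (nat_lit 5507796057), (nat_lit 5627083369), (nat_lit 5540116030), (nat_lit 4685701470), (nat_lit 4555847329), (nat_lit 4653824169), (nat_lit 4525462869)], (nat_lit 1271251), (nat_lit 1271251), (nat_lit 1271251), (nat_lit 1271251), (nat_lit 54688), (nat_lit 780000), [(nat_lit 1695001), (nat_lit 1271251), (nat_lit 1271251)], [(nat_lit 29), (nat_lit 66), (nat_lit 401), (nat_lit 175), (nat_lit 8)]⟩⟩))))))))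
noncomputable def c14_93 : Tr Lf :=
 (.spl (nat_lit 6) (nat_lit 68) (.leaf ⟨(nat_lit 22), (nat_lit 740), (nat_lit 0), (nat_lit 238), (nat_lit 0), (nat_lit 4299), (nat_lit 7649), (nat_lit 3437), (nat_lit 0), (nat_lit 0), (nat_lit 88000), [((nat_lit 400), [((nat_lit 43), (nat_lit 5), (nat_lit 22))])], ⟨(nat_lit 6), false, true, true, (nat_lit 287), (nat_lit 0), (nat_lit 2237), [(nat_lit 1624400), (nat_lit 1624062), (nat_lit 1646249), (nat_lit 1648136), (nat_lit 1796379), (nat_lit 1774994), (nat_lit 1819154), (nat_lit 1799995)]⟩, ⟨(nat_lit 4), false, false, true, (nat_lit 218), (nat_lit 0), (nat_lit 2237), [(nat_lit 1419294), (nat_lit 1424084), (nat_lit 1462989), (nat_lit 1472231), (nat_lit 1634011), (nat_lit 1612493), (nat_lit 1679562), (nat_lit 1662495)]⟩, (nat_lit 5453943), (nat_lit 35258470), (nat_lit 19322926), (nat_lit 12418604), (nat_lit 4), (nat_lit 0), [], [⟨(nat_lit 1), (nat_lit 95), (nat_lit 31), (nat_lit 100), (nat_lit 505115597)⟩], [⟨(nat_lit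 0), (nat_lit 100), (nat_lit 94), (nat_lit 35), (nat_lit 979088)⟩, ⟨(nat_lit 0), (nat_lit 100), (nat_lit 96), (nat_lit 20), (nat_lit 137529870)⟩], [],
 ⟨⟨[(nat_lit 40), (nat_lit 60), (nat_lit 80)], [(nat_lit 0), (nat_lit 1539), (nat_lit 2453)], [((nat_lit 0), (nat_lit 0), (nat_lit 0)), ((nat_lit 1000), (nat_lit 478), (nat_lit 704)), ((nat_lit 1000), (nat_lit 474), (nat_lit 714))], ((nat_lit 45), (nat_lit 100), (nat_lit 78))⟩, (nat_lit 549777), (nat_lit 176), (nat_lit 176), (nat_lit 0), (nat_lit 324690), [(nat_lit 1823484015), (nat_lit 2838752830), (nat_lit 3969858400)], [(nat_lit 0), (nat_lit 0), (nat_lit 0)], [(nat_lit 24851676998), (nat_lit 25952071300), (nat_lit 30219268919), (nat_lit 31430882560), (nat_lit 28909110047), (nat_lit 30118429641), (nat_lit 33236608684), (nat_lit 34147252462)], (nat_lit 1271251), (nat_lit 1271251), (nat_lit 1271251), (nat_lit 1271251), (nat_lit 1100000), (nat_lit 2384376), [(nat_lit 490000), (nat_lit 780000), (nat_lit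 1100000)], [(nat_lit 2), (nat_lit 44), (nat_lit 203), (nat_lit 0), (nat_lit 7)]⟩,
 ⟨⟨[(nat_lit 80), (nat_lit 120), (nat_lit 160)], [(nat_lit 0), (nat_lit 528), (nat_lit 2577)], [((nat_lit 0), (nat_lit 0), (nat_lit 0)), ((nat_lit 1000), (nat_lit 959), (nat_lit 206)), ((nat_lit 929), (nat_lit 1000), (nat_lit 742))], ((nat_lit 100), (nat_lit 90), (nat_lit 79))⟩, (nat_lit 4369560), (nat_lit 511), (nat_lit 511), (nat_lit 0), (nat_lit 560629), [(nat_lit 4584864000), (nat_lit 7792704000), (nat_lit 11610816000)], [], [(nat_lit 28210346309), (nat_lit 28969648950), (nat_lit 33475951043), (nat_lit 34923147910), (nat_lit 24366626025), (nat_lit 24901708748), (nat_lit 28272190537), (nat_lit 28699991673)], (nat_lit 1271251), (nat_lit 1271251), (nat_lit 1271251), (nat_lit 1271251), (nat_lit 0), (nat_lit 780000), [(nat_lit 1100000), (nat_lit 1785001), (nat_lit 1271251)], [(nat_lit 18), (nat_lit 59), (nat_lit 428), (nat_lit 200), (nat_lit 11)]⟩,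
 ⟨⟨[(nat_lit 120), (nat_lit 160), (nat_lit 200)], [(nat_lit 0), (nat_lit 533), (nat_lit 3597)], [((nat_lit 0), (nat_lit 0), (nat_lit 0)), ((nat_lit 960), (nat_lit 1000), (nat_lit 200)), ((nat_lit 612), (nat_lit 1000), (nat_lit 732))], ((nat_lit 0), (nat_lit 0), (nat_lit 0))⟩, (nat_lit 126684), (nat_lit 300), (nat_lit 1007), (nat_lit 17237589), (nat_lit 1190785), [(nat_lit 1896384000), (nat_lit 2825536000), (nat_lit 3903200000)], [], [(nat_lit 14850025915), (nat_lit 14492979982), (nat_lit 14977955286), (nat_lit 14215926346), (nat_lit 11966552259), (nat_lit 11622758165), (nat_lit 16644836503), (nat_lit 13458743947)], (nat_lit 1271251), (nat_lit 1271251), (nat_lit 1100000), (nat_lit 2384376), (nat_lit 0), (nat_lit 780000), [(nat_lit 1695001), (nat_lit 1271251), (nat_lit 1271251)], [(nat_lit 29), (nat_lit 66), (nat_lit 401), (nat_lit 175), (nat_lit 9)]⟩⟩) (.leaf ⟨(nat_lit 0), (nat_lit 768), (nat_lit 0), (nat_lit 232), (nat_lit 0), (nat_lit 4360), (nat_lit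 7100), (nat_lit 3267), (nat_lit 0), (nat_lit 0), (nat_lit 0), [], Pd.none, Pd.none, (nat_lit 0), (nat_lit 1), (nat_lit 0), (nat_lit 0), (nat_lit 4), (nat_lit 0), [], [⟨(nat_lit 1), (nat_lit 95), (nat_lit 31), (nat_lit 100), (nat_lit 495024062)⟩], [⟨(nat_lit 0), (nat_lit 100), (nat_lit 94), (nat_lit 35), (nat_lit 130264487)⟩, ⟨(nat_lit 0), (nat_lit 100), (nat_lit 96), (nat_lit 20), (nat_lit 7366122)⟩], [],
 ⟨⟨[(nat_lit 40), (nat_lit 80), (nat_lit 100)], [(nat_lit 0), (nat_lit 2514), (nat_lit 3562)], [((nat_lit 0), (nat_lit 0), (nat_lit 0)), ((nat_lit 1000), (nat_lit 446), (nat_lit 804)), ((nat_lit 1000), (nat_lit 443), (nat_lit 819))], ((nat_lit 44), (nat_lit 100), (nat_lit 84))⟩, (nat_lit 1110312), (nat_lit 152), (nat_lit 152), (nat_lit 0), (nat_lit 186612), [(nat_lit 2032000006), (nat_lit 4688000196), (nat_lit 6250000000)], [], [(nat_lit 25088390010), (nat_lit 26205734256), (nat_lit 30301224340), (nat_lit 31521006400), (nat_lit 28967377475), (nat_lit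 30184901920), (nat_lit 33311416270), (nat_lit 34227061110)], (nat_lit 1271251), (nat_lit 1271251), (nat_lit 1271251), (nat_lit 1271251), (nat_lit 1100000), (nat_lit 2384376), [(nat_lit 490000), (nat_lit 1100000), (nat_lit 1442501)], [(nat_lit 3), (nat_lit 50), (nat_lit 317), (nat_lit 100), (nat_lit 10)]⟩,
 ⟨⟨[(nat_lit 80), (nat_lit 140), (nat_lit 180)], [(nat_lit 0), (nat_lit 792), (nat_lit 4228)], [((nat_lit 0), (nat_lit 0), (nat_lit 0)), ((nat_lit 1000), (nat_lit 959), (nat_lit 206)), ((nat_lit 709), (nat_lit 1000), (nat_lit 949))], ((nat_lit 100), (nat_lit 82), (nat_lit 87))⟩, (nat_lit 2467439), (nat_lit 444), (nat_lit 444), (nat_lit 0), (nat_lit 317697), [(nat_lit 4688000000), (nat_lit 9842000000), (nat_lit 14058000000)], [], [(nat_lit 35412312820), (nat_lit 36272698424), (nat_lit 40836399624), (nat_lit 41400080824), (nat_lit 31570956824), (nat_lit 32201321024), (nat_lit 35928141249), (nat_lit 36431708274)], (nat_lit 1271251), (nat_lit 1271251),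 (nat_lit 1271251), (nat_lit 1271251), (nat_lit 0), (nat_lit 780000), [(nat_lit 1100000), (nat_lit 2127501), (nat_lit 1271251)], [(nat_lit 19), (nat_lit 63), (nat_lit 428), (nat_lit 200), (nat_lit 10)]⟩,
 ⟨⟨[(nat_lit 120), (nat_lit 160), (nat_lit 200)], [(nat_lit 0), (nat_lit 533), (nat_lit 3597)], [((nat_lit 0), (nat_lit 0), (nat_lit 0)), ((nat_lit 960), (nat_lit 1000), (nat_lit 200)), ((nat_lit 612), (nat_lit 1000), (nat_lit 732))], ((nat_lit 0), (nat_lit 0), (nat_lit 0))⟩, (nat_lit 123491), (nat_lit 300), (nat_lit 752), (nat_lit 16803021), (nat_lit 685653), [(nat_lit 1848576000), (nat_lit 2754304000), (nat_lit 3804800000)], [], [(nat_lit 14575658463), (nat_lit 14239563701), (nat_lit 14480685153), (nat_lit 13870003464), (nat_lit 11843170171), (nat_lit 11520050813), (nat_lit 16083127835), (nat_lit 13054624961)], (nat_lit 1271251), (nat_lit 1271251), (nat_lit 1100000), (nat_lit 2384376), (nat_lit 0), (nat_lit 780000), [(nat_lit 1695001), (nat_lit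 1271251), (nat_lit 1271251)], [(nat_lit 29), (nat_lit 66), (nat_lit 401), (nat_lit 175), (nat_lit 9)]⟩⟩))
noncomputable def c14_94 : Tr Lf :=
 (.stt (nat_lit 2) (.leaf ⟨(nat_lit 23), (nat_lit 755), (nat_lit 0), (nat_lit 222), (nat_lit 0), (nat_lit 3866), (nat_lit 9556), (nat_lit 2104), (nat_lit 0), (nat_lit 0), (nat_lit 92000), [((nat_lit 400), [((nat_lit 43), (nat_lit 5), (nat_lit 23))])], ⟨(nat_lit 6), true, false, true, (nat_lit 282), (nat_lit 0), (nat_lit 2237), [(nat_lit 1602531), (nat_lit 1599967), (nat_lit 1646249), (nat_lit 1648136), (nat_lit 1773604), (nat_lit 1749994), (nat_lit 1819154), (nat_lit 1799995)]⟩, ⟨(nat_lit 4), false, false, true, (nat_lit 218), (nat_lit 0), (nat_lit 2237), [(nat_lit 1419294), (nat_lit 1424084), (nat_lit 1462989), (nat_lit 1472231), (nat_lit 1634011), (nat_lit 1612493), (nat_lit 1679562), (nat_lit 1662495)]⟩, (nat_lit 5441469), (nat_lit 35567463), (nat_lit 18930945), (nat_lit 12501592), (nat_lit 4), (nat_lit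 0), [], [⟨(nat_lit 1), (nat_lit 95), (nat_lit 31), (nat_lit 100), (nat_lit 508086575)⟩], [⟨(nat_lit 1), (nat_lit 30), (nat_lit 95), (nat_lit 100), (nat_lit 146506741)⟩], [],
 ⟨⟨[(nat_lit 40), (nat_lit 80), (nat_lit 100)], [(nat_lit 0), (nat_lit 2514), (nat_lit 3562)], [((nat_lit 0), (nat_lit 0), (nat_lit 0)), ((nat_lit 1000), (nat_lit 446), (nat_lit 804)), ((nat_lit 1000), (nat_lit 443), (nat_lit 819))], ((nat_lit 44), (nat_lit 100), (nat_lit 84))⟩, (nat_lit 924416), (nat_lit 202), (nat_lit 202), (nat_lit 0), (nat_lit 327430), [(nat_lit 1821966020), (nat_lit 3937215690), (nat_lit 5177960800)], [(nat_lit 0), (nat_lit 0), (nat_lit 0)], [(nat_lit 25271684756), (nat_lit 26267695070), (nat_lit 29637519779), (nat_lit 30791151040), (nat_lit 28642984375), (nat_lit 29646585427), (nat_lit 32705597456), (nat_lit 33580741891)], (nat_lit 1271251), (nat_lit 1271251), (nat_lit 1271251), (nat_lit 1271251), (nat_lit 1100000), (nat_lit 2384376), [(nat_lit 490000),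 (nat_lit 1100000), (nat_lit 1442501)], [(nat_lit 3), (nat_lit 50), (nat_lit 317), (nat_lit 100), (nat_lit 10)]⟩,
 ⟨⟨[(nat_lit 80), (nat_lit 140), (nat_lit 180)], [(nat_lit 0), (nat_lit 0), (nat_lit 3656)], [((nat_lit 0), (nat_lit 0), (nat_lit 0)), ((nat_lit 0), (nat_lit 0), (nat_lit 0)), ((nat_lit 637), (nat_lit 1000), (nat_lit 908))], ((nat_lit 100), (nat_lit 73), (nat_lit 85))⟩, (nat_lit 1921711), (nat_lit 181), (nat_lit 181), (nat_lit 0), (nat_lit 0), [(nat_lit 4580176000), (nat_lit 9615634000), (nat_lit 13734666000)], [], [(nat_lit 26108622816), (nat_lit 28198426381), (nat_lit 33180676560), (nat_lit 34450353828), (nat_lit 34186091556), (nat_lit 34868890182), (nat_lit 38488459700), (nat_lit 39563148863)], (nat_lit 0), (nat_lit 0), (nat_lit 0), (nat_lit 0), (nat_lit 0), (nat_lit 0), [], [(nat_lit 19), (nat_lit 63), (nat_lit 538), (nat_lit 300), (nat_lit 12)]⟩,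
 ⟨⟨[(nat_lit 120), (nat_lit 160), (nat_lit 200)], [(nat_lit 0), (nat_lit 533), (nat_lit 3597)], [((nat_lit 0), (nat_lit 0), (nat_lit 0)), ((nat_lit 960), (nat_lit 1000), (nat_lit 200)), ((nat_lit 612), (nat_lit 1000), (nat_lit 732))], ((nat_lit 0), (nat_lit 0), (nat_lit 0))⟩, (nat_lit 519805), (nat_lit 300), (nat_lit 1154), (nat_lit 14740800), (nat_lit 1751519), [(nat_lit 1768896000), (nat_lit 2635584000), (nat_lit 3640800000)], [], [(nat_lit 13918999657), (nat_lit 13673462787), (nat_lit 13143916836), (nat_lit 12888255609), (nat_lit 12562892520), (nat_lit 12295107182), (nat_lit 11694002529), (nat_lit 11422863278)], (nat_lit 1271251), (nat_lit 1271251), (nat_lit 1271251), (nat_lit 1271251), (nat_lit 780000), (nat_lit 3072501), [(nat_lit 1695001), (nat_lit 1271251), (nat_lit 1271251)], [(nat_lit 29), (nat_lit 66), (nat_lit 483), (nat_lit 250), (nat_lit 10)]⟩⟩) (.spl (nat_lit 0) (nat_lit 390) (.leaf ⟨(nat_lit 22), (nat_lit 464), (nat_lit 0), (nat_lit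 514), (nat_lit 0), (nat_lit 3949), (nat_lit 9468), (nat_lit 5818), (nat_lit 0), (nat_lit 0), (nat_lit 88000), [((nat_lit 390), [((nat_lit 43), (nat_lit 5), (nat_lit 22))])], ⟨(nat_lit 6), false, true, true, (nat_lit 283), (nat_lit 1581), (nat_lit 2237), [(nat_lit 1602558), (nat_lit 1601260), (nat_lit 1648016), (nat_lit 1647799), (nat_lit 1773609), (nat_lit 1765172), (nat_lit 1819158), (nat_lit 1811802)]⟩, ⟨(nat_lit 4), false, false, true, (nat_lit 220), (nat_lit 1581), (nat_lit 2237), [(nat_lit 1420170), (nat_lit 1422009), (nat_lit 1465627), (nat_lit 1468548), (nat_lit 1634017), (nat_lit 1626932), (nat_lit 1679566), (nat_lit 1673562)]⟩, (nat_lit 5452179), (nat_lit 35406939), (nat_lit 19028675), (nat_lit 12564386), (nat_lit 4), (nat_lit 0), [], [], [], [],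
 ⟨⟨[(nat_lit 40), (nat_lit 80), (nat_lit 100)], [(nat_lit 0), (nat_lit 2514), (nat_lit 3562)], [((nat_lit 0), (nat_lit 0), (nat_lit 0)), ((nat_lit 1000), (nat_lit 446), (nat_lit 804)), ((nat_lit 1000), (nat_lit 443), (nat_lit 819))], ((nat_lit 44), (nat_lit 100), (nat_lit 84))⟩, (nat_lit 1144002), (nat_lit 147), (nat_lit 147), (nat_lit 0), (nat_lit 179012), [(nat_lit 1823484002), (nat_lit 4168045382), (nat_lit 5224571200)], [(nat_lit 0), (nat_lit 0), (nat_lit 0)], [(nat_lit 24258884099), (nat_lit 24813628042), (nat_lit 29749032894), (nat_lit 30331405727), (nat_lit 28574788734), (nat_lit 29155910025), (nat_lit 32807384828), (nat_lit 33248359407)], (nat_lit 1271251), (nat_lit 1271251), (nat_lit 1271251), (nat_lit 1271251), (nat_lit 1100000), (nat_lit 2384376), [(nat_lit 490000), (nat_lit 1100000), (nat_lit 1442501)], [(nat_lit 3), (nat_lit 50), (nat_lit 317), (nat_lit 100), (nat_lit 10)]⟩,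
 ⟨⟨[(nat_lit 80), (nat_lit 140), (nat_lit 180)], [(nat_lit 0), (nat_lit 0), (nat_lit 3656)], [((nat_lit 0), (nat_lit 0), (nat_lit 0)), ((nat_lit 0), (nat_lit 0), (nat_lit 0)), ((nat_lit 637), (nat_lit 1000), (nat_lit 908))], ((nat_lit 100), (nat_lit 73), (nat_lit 85))⟩, (nat_lit 2246960), (nat_lit 459), (nat_lit 459), (nat_lit 0), (nat_lit 575323), [(nat_lit 4584864000), (nat_lit 9625476000), (nat_lit 13748724000)], [], [(nat_lit 29378881448), (nat_lit 30579197460), (nat_lit 34626031092), (nat_lit 35654804325), (nat_lit 35619894192), (nat_lit 35868075540), (nat_lit 38402318928), (nat_lit 39476739342)], (nat_lit 1271251), (nat_lit 1271251), (nat_lit 1271251), (nat_lit 1271251), (nat_lit 780000), (nat_lit 3072501), [(nat_lit 1100000), (nat_lit 2127501), (nat_lit 1271251)], [(nat_lit 19), (nat_lit 63), (nat_lit 538), (nat_lit 300), (nat_lit 12)]⟩,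
 ⟨⟨[(nat_lit 120), (nat_lit 160), (nat_lit 200)], [(nat_lit 0), (nat_lit 533), (nat_lit 3597)], [((nat_lit 0), (nat_lit 0), (nat_lit 0)), ((nat_lit 960), (nat_lit 1000), (nat_lit 200)), ((nat_lit 612), (nat_lit 1000), (nat_lit 732))], ((nat_lit 0), (nat_lit 0), (nat_lit 0))⟩, (nat_lit 1203512), (nat_lit 300), (nat_lit 804), (nat_lit 34129601), (nat_lit 953158), [(nat_lit 4095552000), (nat_lit 6102208000), (nat_lit 8429600000)], [], [(nat_lit 27701388393), (nat_lit 27045575355), (nat_lit 26115856893), (nat_lit 25516723448), (nat_lit 31214580130), (nat_lit 25617396502), (nat_lit 23992345663), (nat_lit 23368613808)], (nat_lit 1271251), (nat_lit 1271251), (nat_lit 1271251), (nat_lit 1271251), (nat_lit 780000), (nat_lit 3072501), [(nat_lit 1695001), (nat_lit 1271251), (nat_lit 1271251)], [(nat_lit 29), (nat_lit 66), (nat_lit 483), (nat_lit 250), (nat_lit 10)]⟩⟩) (.trX (nat_lit 3) (nat_lit 0) (nat_lit 1) (nat_lit 34) (nat_lit 81) (nat_lit 100) (nat_lit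 340) (.trX (nat_lit 4) (nat_lit 0) (nat_lit 2) (nat_lit 31) (nat_lit 92) (nat_lit 100) (nat_lit 290) (.leaf ⟨(nat_lit 617), (nat_lit 153), (nat_lit 0), (nat_lit 230), (nat_lit 0), (nat_lit 3692), (nat_lit 4346), (nat_lit 2571), (nat_lit 0), (nat_lit 0), (nat_lit 170300), [((nat_lit 400), [((nat_lit 29), (nat_lit 0), (nat_lit 510)), ((nat_lit 29), (nat_lit 1), (nat_lit 107))])], ⟨(nat_lit 6), false, true, true, (nat_lit 276), (nat_lit 0), (nat_lit 1582), [(nat_lit 1601257), (nat_lit 1599992), (nat_lit 1646579), (nat_lit 1648683), (nat_lit 1737850), (nat_lit 1724995), (nat_lit 1784482), (nat_lit 1774996)]⟩, ⟨(nat_lit 4), false, false, true, (nat_lit 213), (nat_lit 0), (nat_lit 1582), [(nat_lit 1421394), (nat_lit 1424345), (nat_lit 1466711), (nat_lit 1473031), (nat_lit 1599609), (nat_lit 1587494), (nat_lit 1646241), (nat_lit 1637496)]⟩, (nat_lit 5391132), (nat_lit 36273158), (nat_lit 18546860), (nat_lit 12179982), (nat_lit 4), (nat_lit 0), [⟨(nat_lit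 1), (nat_lit 91), (nat_lit 23), (nat_lit 100), (nat_lit 267781641)⟩], [⟨(nat_lit 1), (nat_lit 98), (nat_lit 22), (nat_lit 100), (nat_lit 10624979)⟩], [], [],
 ⟨⟨[(nat_lit 40), (nat_lit 60), (nat_lit 80)], [(nat_lit 0), (nat_lit 2136), (nat_lit 3185)], [((nat_lit 0), (nat_lit 0), (nat_lit 0)), ((nat_lit 1000), (nat_lit 343), (nat_lit 808)), ((nat_lit 1000), (nat_lit 338), (nat_lit 820))], ((nat_lit 32), (nat_lit 100), (nat_lit 86))⟩, (nat_lit 101440), (nat_lit 133), (nat_lit 133), (nat_lit 0), (nat_lit 212794), [(nat_lit 1635323617), (nat_lit 1826002063), (nat_lit 2518611200)], [(nat_lit 0), (nat_lit 0), (nat_lit 0)], [(nat_lit 25316384876), (nat_lit 25862614242), (nat_lit 28933950792), (nat_lit 29530906744), (nat_lit 28304168735), (nat_lit 28761343378), (nat_lit 31568850482), (nat_lit 32042036788)], (nat_lit 1271251), (nat_lit 1271251), (nat_lit 1271251), (nat_lit 1271251), (nat_lit 1100000), (nat_lit 2213126), [(nat_lit 490000), (nat_lit 780000),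 (nat_lit 1100000)], [(nat_lit 2), (nat_lit 44), (nat_lit 203), (nat_lit 0), (nat_lit 7)]⟩,
 ⟨⟨[(nat_lit 80), (nat_lit 140), (nat_lit 180)], [(nat_lit 0), (nat_lit 0), (nat_lit 3656)], [((nat_lit 0), (nat_lit 0), (nat_lit 0)), ((nat_lit 0), (nat_lit 0), (nat_lit 0)), ((nat_lit 637), (nat_lit 1000), (nat_lit 908))], ((nat_lit 100), (nat_lit 73), (nat_lit 85))⟩, (nat_lit 728030), (nat_lit 578), (nat_lit 578), (nat_lit 0), (nat_lit 767189), [(nat_lit 1795504000), (nat_lit 3769486000), (nat_lit 5384214000)], [], [(nat_lit 11517174800), (nat_lit 11774657323), (nat_lit 12458237652), (nat_lit 13039360891), (nat_lit 13786419176), (nat_lit 13889080634), (nat_lit 15265629988), (nat_lit 15757841240)], (nat_lit 1271251), (nat_lit 1271251), (nat_lit 1271251), (nat_lit 1271251), (nat_lit 780000), (nat_lit 3072501), [(nat_lit 1100000), (nat_lit 2127501), (nat_lit 1271251)], [(nat_lit 19), (nat_lit 63), (nat_lit 538), (nat_lit 300), (nat_lit 12)]⟩,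
 ⟨⟨[(nat_lit 120), (nat_lit 160), (nat_lit 200)], [(nat_lit 0), (nat_lit 533), (nat_lit 3597)], [((nat_lit 0), (nat_lit 0), (nat_lit 0)), ((nat_lit 960), (nat_lit 1000), (nat_lit 200)), ((nat_lit 612), (nat_lit 1000), (nat_lit 732))], ((nat_lit 0), (nat_lit 0), (nat_lit 0))⟩, (nat_lit 538537), (nat_lit 300), (nat_lit 905), (nat_lit 15272000), (nat_lit 1201710), [(nat_lit 1832640000), (nat_lit 2730560000), (nat_lit 3772000000)], [], [(nat_lit 12517852413), (nat_lit 12229596671), (nat_lit 11801521051), (nat_lit 11544823151), (nat_lit 13894824767), (nat_lit 11421404501), (nat_lit 10818094692), (nat_lit 10550978133)], (nat_lit 1271251), (nat_lit 1271251), (nat_lit 1271251), (nat_lit 1271251), (nat_lit 780000), (nat_lit 3072501), [(nat_lit 1695001), (nat_lit 1271251), (nat_lit 1271251)], [(nat_lit 29), (nat_lit 66), (nat_lit 483), (nat_lit 250), (nat_lit 10)]⟩⟩)))))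
noncomputable def c14_95 : Tr Lf :=
 (.trZ (nat_lit 0) (nat_lit 1) (nat_lit 3) (nat_lit 92) (nat_lit 44) (nat_lit 100) (nat_lit 190) (.spl (nat_lit 5) (nat_lit 120) (.spl (nat_lit 3) (nat_lit 280) (.spl (nat_lit 4) (nat_lit 240) (.leaf ⟨(nat_lit 663), (nat_lit 247), (nat_lit 0), (nat_lit 90), (nat_lit 0), (nat_lit 3653), (nat_lit 3171), (nat_lit 1186), (nat_lit 0), (nat_lit 0), (nat_lit 323400), [((nat_lit 400), [((nat_lit 29), (nat_lit 1), (nat_lit 372)), ((nat_lit 43), (nat_lit 2), (nat_lit 291))])], ⟨(nat_lit 7), false, true, false, (nat_lit 265), (nat_lit 0), (nat_lit 2237), [(nat_lit 1572676), (nat_lit 1583333), (nat_lit 1616372), (nat_lit 1631480), (nat_lit 1705063), (nat_lit 1699935), (nat_lit 1748802), (nat_lit 1748125)]⟩, ⟨(nat_lit 4), false, false, true, (nat_lit 200), (nat_lit 0), (nat_lit 2237), [(nat_lit 1419294), (nat_lit 1424084), (nat_lit 1462989), (nat_lit 1472231), (nat_lit 1534237), (nat_lit 1524996), (nat_lit 1579788), (nat_lit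 1574999)]⟩, (nat_lit 5270406), (nat_lit 37752514), (nat_lit 17915164), (nat_lit 11332322), (nat_lit 4), (nat_lit 0), [⟨(nat_lit 0), (nat_lit 88), (nat_lit 32), (nat_lit 100), (nat_lit 226532586)⟩], [⟨(nat_lit 1), (nat_lit 95), (nat_lit 31), (nat_lit 100), (nat_lit 82069987)⟩], [⟨(nat_lit 0), (nat_lit 100), (nat_lit 87), (nat_lit 50), (nat_lit 94949683)⟩, ⟨(nat_lit 0), (nat_lit 100), (nat_lit 92), (nat_lit 31), (nat_lit 30394958)⟩], [],
 ⟨⟨[(nat_lit 40), (nat_lit 80), (nat_lit 100)], [(nat_lit 0), (nat_lit 2514), (nat_lit 3562)], [((nat_lit 0), (nat_lit 0), (nat_lit 0)), ((nat_lit 1000), (nat_lit 446), (nat_lit 804)), ((nat_lit 1000), (nat_lit 443), (nat_lit 819))], ((nat_lit 44), (nat_lit 100), (nat_lit 84))⟩, (nat_lit 0), (nat_lit 228), (nat_lit 228), (nat_lit 0), (nat_lit 442797), [(nat_lit 1530607624), (nat_lit 1254111336), (nat_lit 1512192400)], [(nat_lit 0), (nat_lit 0), (nat_lit 0)], [(nat_lit 24158688339), (nat_lit 25149096993), (nat_lit 26236288899),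 (nat_lit 27139701428), (nat_lit 25609771463), (nat_lit 26485332643), (nat_lit 27506612477), (nat_lit 28373532970)], (nat_lit 1271251), (nat_lit 1271251), (nat_lit 1271251), (nat_lit 1271251), (nat_lit 1100000), (nat_lit 1785001), [(nat_lit 490000), (nat_lit 1100000), (nat_lit 1442501)], [(nat_lit 3), (nat_lit 50), (nat_lit 373), (nat_lit 150), (nat_lit 13)]⟩,
 ⟨⟨[(nat_lit 60), (nat_lit 120), (nat_lit 160)], [(nat_lit 0), (nat_lit 0), (nat_lit 3243)], [((nat_lit 0), (nat_lit 0), (nat_lit 0)), ((nat_lit 0), (nat_lit 0), (nat_lit 0)), ((nat_lit 878), (nat_lit 1000), (nat_lit 945))], ((nat_lit 100), (nat_lit 92), (nat_lit 90))⟩, (nat_lit 669513), (nat_lit 529), (nat_lit 529), (nat_lit 0), (nat_lit 581083), [(nat_lit 1106034000), (nat_lit 2685216000), (nat_lit 4000864000)], [], [(nat_lit 11267872526), (nat_lit 11753874046), (nat_lit 11749171309), (nat_lit 12242001733), (nat_lit 9275860352), (nat_lit 9710753973), (nat_lit 9791321674), (nat_lit 10217022227)],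 (nat_lit 1271251), (nat_lit 1271251), (nat_lit 1271251), (nat_lit 1271251), (nat_lit 0), (nat_lit 780000), [(nat_lit 780000), (nat_lit 1762501), (nat_lit 1271251)], [(nat_lit 12), (nat_lit 59), (nat_lit 428), (nat_lit 200), (nat_lit 11)]⟩,
 ⟨⟨[(nat_lit 120), (nat_lit 160), (nat_lit 200)], [(nat_lit 0), (nat_lit 533), (nat_lit 3597)], [((nat_lit 0), (nat_lit 0), (nat_lit 0)), ((nat_lit 960), (nat_lit 1000), (nat_lit 200)), ((nat_lit 612), (nat_lit 1000), (nat_lit 732))], ((nat_lit 0), (nat_lit 0), (nat_lit 0))⟩, (nat_lit 210732), (nat_lit 300), (nat_lit 1151), (nat_lit 5976000), (nat_lit 1553351), [(nat_lit 717120000), (nat_lit 1068480000), (nat_lit 1476000000)], [], [(nat_lit 5426531072), (nat_lit 5308317168), (nat_lit 5186392032), (nat_lit 5108031926), (nat_lit 4442944900), (nat_lit 4329318972), (nat_lit 4997939143), (nat_lit 4091054527)], (nat_lit 1271251), (nat_lit 1271251), (nat_lit 1100000), (nat_lit 1785001), (nat_lit 0), (nat_lit 780000),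 [(nat_lit 1695001), (nat_lit 1271251), (nat_lit 1271251)], [(nat_lit 29), (nat_lit 66), (nat_lit 373), (nat_lit 150), (nat_lit 8)]⟩⟩) (.leaf ⟨(nat_lit 22), (nat_lit 675), (nat_lit 0), (nat_lit 303), (nat_lit 0), (nat_lit 4181), (nat_lit 9380), (nat_lit 4003), (nat_lit 0), (nat_lit 0), (nat_lit 88000), [((nat_lit 400), [((nat_lit 43), (nat_lit 5), (nat_lit 22))])], ⟨(nat_lit 7), false, true, false, (nat_lit 265), (nat_lit 0), (nat_lit 2237), [(nat_lit 1572676), (nat_lit 1583333), (nat_lit 1616372), (nat_lit 1631480), (nat_lit 1705063), (nat_lit 1699935), (nat_lit 1748802), (nat_lit 1748125)]⟩, ⟨(nat_lit 6), false, true, true, (nat_lit 240), (nat_lit 0), (nat_lit 2237), [(nat_lit 1534237), (nat_lit 1524996), (nat_lit 1579788), (nat_lit 1574999), (nat_lit 1634011), (nat_lit 1612493), (nat_lit 1679562), (nat_lit 1662495)]⟩, (nat_lit 5502592), (nat_lit 35426063), (nat_lit 17062300), (nat_lit 14511637), (nat_lit 6), (nat_lit 0), [⟨(nat_lit 0), (nat_lit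 88), (nat_lit 32), (nat_lit 100), (nat_lit 821679752)⟩], [⟨(nat_lit 1), (nat_lit 95), (nat_lit 31), (nat_lit 100), (nat_lit 1215794780)⟩], [⟨(nat_lit 0), (nat_lit 100), (nat_lit 92), (nat_lit 31), (nat_lit 518307139)⟩], [],
 ⟨⟨[(nat_lit 40), (nat_lit 80), (nat_lit 100)], [(nat_lit 0), (nat_lit 2514), (nat_lit 3562)], [((nat_lit 0), (nat_lit 0), (nat_lit 0)), ((nat_lit 1000), (nat_lit 446), (nat_lit 804)), ((nat_lit 1000), (nat_lit 443), (nat_lit 819))], ((nat_lit 44), (nat_lit 100), (nat_lit 84))⟩, (nat_lit 935621), (nat_lit 223), (nat_lit 223), (nat_lit 0), (nat_lit 442797), [(nat_lit 1823484022), (nat_lit 3969858460), (nat_lit 5224571200)], [(nat_lit 0), (nat_lit 0), (nat_lit 0)], [(nat_lit 25431384247), (nat_lit 26452143443), (nat_lit 27633804143), (nat_lit 28914991690), (nat_lit 27898503408), (nat_lit 29202594127), (nat_lit 30092652951), (nat_lit 31189336783)], (nat_lit 1271251), (nat_lit 1271251), (nat_lit 1271251), (nat_lit 1271251), (nat_lit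 1271251), (nat_lit 1271251), [(nat_lit 490000), (nat_lit 1100000), (nat_lit 1442501)], [(nat_lit 3), (nat_lit 50), (nat_lit 289), (nat_lit 75), (nat_lit 9)]⟩,
 ⟨⟨[(nat_lit 60), (nat_lit 120), (nat_lit 160)], [(nat_lit 0), (nat_lit 0), (nat_lit 3243)], [((nat_lit 0), (nat_lit 0), (nat_lit 0)), ((nat_lit 0), (nat_lit 0), (nat_lit 0)), ((nat_lit 878), (nat_lit 1000), (nat_lit 945))], ((nat_lit 100), (nat_lit 92), (nat_lit 90))⟩, (nat_lit 2066889), (nat_lit 529), (nat_lit 529), (nat_lit 0), (nat_lit 581083), [(nat_lit 3209796000), (nat_lit 7792704000), (nat_lit 11610816000)], [], [(nat_lit 31962677167), (nat_lit 33427487544), (nat_lit 33738583282), (nat_lit 35249798413), (nat_lit 26061702660), (nat_lit 27693904893), (nat_lit 27913725776), (nat_lit 29156262130)], (nat_lit 1271251), (nat_lit 1271251), (nat_lit 1271251), (nat_lit 1271251), (nat_lit 0), (nat_lit 780000), [(nat_lit 780000), (nat_lit 1762501), (nat_lit 1271251)], [(nat_lit 12), (nat_lit 59),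 (nat_lit 428), (nat_lit 200), (nat_lit 11)]⟩,
 ⟨⟨[(nat_lit 120), (nat_lit 160), (nat_lit 200)], [(nat_lit 0), (nat_lit 533), (nat_lit 3597)], [((nat_lit 0), (nat_lit 0), (nat_lit 0)), ((nat_lit 960), (nat_lit 1000), (nat_lit 200)), ((nat_lit 612), (nat_lit 1000), (nat_lit 732))], ((nat_lit 0), (nat_lit 0), (nat_lit 0))⟩, (nat_lit 709463), (nat_lit 300), (nat_lit 1117), (nat_lit 20119202), (nat_lit 1553351), [(nat_lit 2414304000), (nat_lit 3597216000), (nat_lit 4969200000)], [], [(nat_lit 17445642792), (nat_lit 17196078505), (nat_lit 17741333794), (nat_lit 17423704474), (nat_lit 14155857004), (nat_lit 13747093179), (nat_lit 14171097731), (nat_lit 13870282153)], (nat_lit 1271251), (nat_lit 1271251), (nat_lit 1271251), (nat_lit 1271251), (nat_lit 0), (nat_lit 780000), [(nat_lit 1695001), (nat_lit 1271251), (nat_lit 1271251)], [(nat_lit 29), (nat_lit 66), (nat_lit 401), (nat_lit 175), (nat_lit 8)]⟩⟩)) (.spl (nat_lit 0) (nat_lit 390) (.leaf ⟨(nat_lit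 22), (nat_lit 727), (nat_lit 0), (nat_lit 251), (nat_lit 0), (nat_lit 4195), (nat_lit 8716), (nat_lit 3203), (nat_lit 0), (nat_lit 0), (nat_lit 88000), [((nat_lit 390), [((nat_lit 43), (nat_lit 5), (nat_lit 22))])], ⟨(nat_lit 7), false, true, true, (nat_lit 319), (nat_lit 1581), (nat_lit 2237), [(nat_lit 1705117), (nat_lit 1702521), (nat_lit 1750574), (nat_lit 1749059), (nat_lit 1847666), (nat_lit 1839120), (nat_lit 1893214), (nat_lit 1885750)]⟩, ⟨(nat_lit 4), false, false, true, (nat_lit 220), (nat_lit 1581), (nat_lit 2237), [(nat_lit 1420170), (nat_lit 1422009), (nat_lit 1465627), (nat_lit 1468548), (nat_lit 1634017), (nat_lit 1626932), (nat_lit 1679566), (nat_lit 1673562)]⟩, (nat_lit 5518954), (nat_lit 33134973), (nat_lit 21935578), (nat_lit 11929449), (nat_lit 4), (nat_lit 0), [], [], [⟨(nat_lit 0), (nat_lit 100), (nat_lit 87), (nat_lit 50), (nat_lit 54456651)⟩], [⟨(nat_lit 0), (nat_lit 100), (nat_lit 77), (nat_lit 79), (nat_lit 191279189)⟩],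
 ⟨⟨[(nat_lit 40), (nat_lit 80), (nat_lit 100)], [(nat_lit 0), (nat_lit 2514), (nat_lit 3562)], [((nat_lit 0), (nat_lit 0), (nat_lit 0)), ((nat_lit 1000), (nat_lit 446), (nat_lit 804)), ((nat_lit 1000), (nat_lit 443), (nat_lit 819))], ((nat_lit 44), (nat_lit 100), (nat_lit 84))⟩, (nat_lit 896897), (nat_lit 225), (nat_lit 225), (nat_lit 0), (nat_lit 399934), [(nat_lit 1823484002), (nat_lit 3976456971), (nat_lit 5224571200)], [(nat_lit 0), (nat_lit 0), (nat_lit 0)], [(nat_lit 26307720821), (nat_lit 26765486745), (nat_lit 31207222127), (nat_lit 31771062369), (nat_lit 30106900935), (nat_lit 30656063000), (nat_lit 33961585315), (nat_lit 34387844032)], (nat_lit 1271251), (nat_lit 1271251), (nat_lit 1271251), (nat_lit 1271251), (nat_lit 1100000), (nat_lit 2384376), [(nat_lit 490000), (nat_lit 1100000), (nat_lit 1442501)], [(nat_lit 3), (nat_lit 50), (nat_lit 317), (nat_lit 100), (nat_lit 10)]⟩,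
 ⟨⟨[(nat_lit 60), (nat_lit 120), (nat_lit 160)], [(nat_lit 0), (nat_lit 0), (nat_lit 3243)], [((nat_lit 0), (nat_lit 0), (nat_lit 0)), ((nat_lit 0), (nat_lit 0), (nat_lit 0)), ((nat_lit 878), (nat_lit 1000), (nat_lit 945))], ((nat_lit 100), (nat_lit 92), (nat_lit 90))⟩, (nat_lit 1820584), (nat_lit 484), (nat_lit 484), (nat_lit 0), (nat_lit 499421), [(nat_lit 3209796000), (nat_lit 7792704000), (nat_lit 11610816000)], [], [(nat_lit 35438482726), (nat_lit 36481507708), (nat_lit 40284018215), (nat_lit 42790914126), (nat_lit 29818529205), (nat_lit 31005314882), (nat_lit 33627779990), (nat_lit 34398417391)], (nat_lit 1271251), (nat_lit 1271251), (nat_lit 1271251), (nat_lit 1271251), (nat_lit 0), (nat_lit 780000), [(nat_lit 780000), (nat_lit 1762501), (nat_lit 1271251)], [(nat_lit 12), (nat_lit 59), (nat_lit 456), (nat_lit 225), (nat_lit 11)]⟩,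
 ⟨⟨[(nat_lit 120), (nat_lit 160), (nat_lit 200)], [(nat_lit 0), (nat_lit 533), (nat_lit 3597)], [((nat_lit 0), (nat_lit 0), (nat_lit 0)), ((nat_lit 960), (nat_lit 1000), (nat_lit 200)), ((nat_lit 612), (nat_lit 1000), (nat_lit 732))], ((nat_lit 0), (nat_lit 0), (nat_lit 0))⟩, (nat_lit 218497), (nat_lit 300), (nat_lit 1061), (nat_lit 17896332), (nat_lit 1328182), [(nat_lit 1999968000), (nat_lit 2979872000), (nat_lit 4116400000)], [], [(nat_lit 15997477468), (nat_lit 15683436604), (nat_lit 15190569229), (nat_lit 14942370376), (nat_lit 13352635738), (nat_lit 13050817318), (nat_lit 16835080227), (nat_lit 13865905233)], (nat_lit 1271251), (nat_lit 1271251), (nat_lit 1100000), (nat_lit 2384376), (nat_lit 0), (nat_lit 780000), [(nat_lit 1695001), (nat_lit 1271251), (nat_lit 1271251)], [(nat_lit 29), (nat_lit 66), (nat_lit 401), (nat_lit 175), (nat_lit 9)]⟩⟩) (.trX (nat_lit 3) (nat_lit 0) (nat_lit 1) (nat_lit 39) (nat_lit 72) (nat_lit 100) (nat_lit 370)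 (.trX (nat_lit 4) (nat_lit 0) (nat_lit 2) (nat_lit 31) (nat_lit 92) (nat_lit 100) (nat_lit 290) (.leaf ⟨(nat_lit 23), (nat_lit 769), (nat_lit 0), (nat_lit 208), (nat_lit 0), (nat_lit 4134), (nat_lit 7875), (nat_lit 3010), (nat_lit 0), (nat_lit 0), (nat_lit 92000), [((nat_lit 400), [((nat_lit 43), (nat_lit 5), (nat_lit 23))])], ⟨(nat_lit 7), false, true, true, (nat_lit 314), (nat_lit 0), (nat_lit 1582), [(nat_lit 1702515), (nat_lit 1699984), (nat_lit 1747842), (nat_lit 1748680), (nat_lit 1825457), (nat_lit 1812495), (nat_lit 1872089), (nat_lit 1862497)]⟩, ⟨(nat_lit 4), false, false, true, (nat_lit 213), (nat_lit 0), (nat_lit 1582), [(nat_lit 1421394), (nat_lit 1424345), (nat_lit 1466711), (nat_lit 1473031), (nat_lit 1599609), (nat_lit 1587494), (nat_lit 1646241), (nat_lit 1637496)]⟩, (nat_lit 5473868), (nat_lit 33774667), (nat_lit 21694461), (nat_lit 11530872), (nat_lit 4), (nat_lit 0), [], [⟨(nat_lit 1), (nat_lit 98), (nat_lit 22), (nat_lit 100),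 (nat_lit 600966605)⟩], [⟨(nat_lit 0), (nat_lit 100), (nat_lit 92), (nat_lit 31), (nat_lit 134916857)⟩], [⟨(nat_lit 0), (nat_lit 100), (nat_lit 79), (nat_lit 72), (nat_lit 32967934)⟩],
 ⟨⟨[(nat_lit 40), (nat_lit 60), (nat_lit 80)], [(nat_lit 0), (nat_lit 2136), (nat_lit 3185)], [((nat_lit 0), (nat_lit 0), (nat_lit 0)), ((nat_lit 1000), (nat_lit 343), (nat_lit 808)), ((nat_lit 1000), (nat_lit 338), (nat_lit 820))], ((nat_lit 32), (nat_lit 100), (nat_lit 86))⟩, (nat_lit 428640), (nat_lit 208), (nat_lit 208), (nat_lit 0), (nat_lit 439986), [(nat_lit 1821966001), (nat_lit 2818605204), (nat_lit 3937215600)], [(nat_lit 0), (nat_lit 0), (nat_lit 0)], [(nat_lit 26934993654), (nat_lit 27434811408), (nat_lit 31135184423), (nat_lit 31712636946), (nat_lit 29915930418), (nat_lit 30487653583), (nat_lit 33382104709), (nat_lit 33838322671)], (nat_lit 1271251), (nat_lit 1271251), (nat_lit 1271251), (nat_lit 1271251), (nat_lit 1100000), (nat_lit 2213126), [(nat_lit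 490000), (nat_lit 780000), (nat_lit 1100000)], [(nat_lit 2), (nat_lit 44), (nat_lit 203), (nat_lit 0), (nat_lit 6)]⟩,
 ⟨⟨[(nat_lit 60), (nat_lit 120), (nat_lit 160)], [(nat_lit 0), (nat_lit 0), (nat_lit 3243)], [((nat_lit 0), (nat_lit 0), (nat_lit 0)), ((nat_lit 0), (nat_lit 0), (nat_lit 0)), ((nat_lit 878), (nat_lit 1000), (nat_lit 945))], ((nat_lit 100), (nat_lit 92), (nat_lit 90))⟩, (nat_lit 1909548), (nat_lit 513), (nat_lit 513), (nat_lit 0), (nat_lit 580339), [(nat_lit 3206514000), (nat_lit 7784736000), (nat_lit 11598944000)], [], [(nat_lit 36723291098), (nat_lit 38077457706), (nat_lit 40428831149), (nat_lit 41365393894), (nat_lit 32109461082), (nat_lit 33290742355), (nat_lit 35372960531), (nat_lit 36187281525)], (nat_lit 1271251), (nat_lit 1271251), (nat_lit 1271251), (nat_lit 1271251), (nat_lit 0), (nat_lit 780000), [(nat_lit 780000), (nat_lit 1762501), (nat_lit 1271251)], [(nat_lit 12), (nat_lit 59), (nat_lit 456), (nat_lit 225), (nat_lit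 11)]⟩,
 ⟨⟨[(nat_lit 120), (nat_lit 160), (nat_lit 200)], [(nat_lit 0), (nat_lit 533), (nat_lit 3597)], [((nat_lit 0), (nat_lit 0), (nat_lit 0)), ((nat_lit 960), (nat_lit 1000), (nat_lit 200)), ((nat_lit 612), (nat_lit 1000), (nat_lit 732))], ((nat_lit 0), (nat_lit 0), (nat_lit 0))⟩, (nat_lit 296449), (nat_lit 300), (nat_lit 1151), (nat_lit 14446055), (nat_lit 1553351), [(nat_lit 1657344000), (nat_lit 2469376000), (nat_lit 3411200000)], [], [(nat_lit 12599455586), (nat_lit 12419518172), (nat_lit 12373883561), (nat_lit 12135014231), (nat_lit 10073588234), (nat_lit 9772231286), (nat_lit 13771914082), (nat_lit 10962661893)], (nat_lit 1271251), (nat_lit 1271251), (nat_lit 1100000), (nat_lit 2213126), (nat_lit 0), (nat_lit 780000), [(nat_lit 1695001), (nat_lit 1271251), (nat_lit 1271251)], [(nat_lit 29), (nat_lit 66), (nat_lit 401), (nat_lit 175), (nat_lit 9)]⟩⟩))))) (.stt (nat_lit 2) (.spl (nat_lit 1) (nat_lit 300) (.trX (nat_lit 3) (nat_lit 0) (nat_lit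 1) (nat_lit 50) (nat_lit 65) (nat_lit 100) (nat_lit 370) (.leaf ⟨(nat_lit 22), (nat_lit 802), (nat_lit 0), (nat_lit 176), (nat_lit 0), (nat_lit 4073), (nat_lit 7178), (nat_lit 1675), (nat_lit 0), (nat_lit 0), (nat_lit 88000), [((nat_lit 400), [((nat_lit 43), (nat_lit 5), (nat_lit 22))])], ⟨(nat_lit 7), true, false, false, (nat_lit 285), (nat_lit 0), (nat_lit 2237), [(nat_lit 1572676), (nat_lit 1583333), (nat_lit 1594524), (nat_lit 1607407), (nat_lit 1833408), (nat_lit 1812495), (nat_lit 1856183), (nat_lit 1837496)]⟩, ⟨(nat_lit 4), false, false, true, (nat_lit 218), (nat_lit 0), (nat_lit 2237), [(nat_lit 1419294), (nat_lit 1424084), (nat_lit 1462989), (nat_lit 1472231), (nat_lit 1634011), (nat_lit 1612493), (nat_lit 1679562), (nat_lit 1662495)]⟩, (nat_lit 5449296), (nat_lit 35376477), (nat_lit 19173139), (nat_lit 12450384), (nat_lit 4), (nat_lit 0), [⟨(nat_lit 0), (nat_lit 90), (nat_lit 32), (nat_lit 100), (nat_lit 387604686)⟩], [⟨(nat_lit 1), (nat_lit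 95), (nat_lit 31), (nat_lit 100), (nat_lit 594070113)⟩], [⟨(nat_lit 1), (nat_lit 45), (nat_lit 89), (nat_lit 100), (nat_lit 209380278)⟩], [],
 ⟨⟨[(nat_lit 40), (nat_lit 80), (nat_lit 100)], [(nat_lit 0), (nat_lit 2514), (nat_lit 3562)], [((nat_lit 0), (nat_lit 0), (nat_lit 0)), ((nat_lit 1000), (nat_lit 446), (nat_lit 804)), ((nat_lit 1000), (nat_lit 443), (nat_lit 819))], ((nat_lit 44), (nat_lit 100), (nat_lit 84))⟩, (nat_lit 870123), (nat_lit 219), (nat_lit 219), (nat_lit 0), (nat_lit 379655), [(nat_lit 1823484059), (nat_lit 3969858536), (nat_lit 5224571200)], [(nat_lit 0), (nat_lit 0), (nat_lit 0)], [(nat_lit 24713530419), (nat_lit 25753110205), (nat_lit 30472081914), (nat_lit 31619208187), (nat_lit 28036044917), (nat_lit 29075437850), (nat_lit 33381254418), (nat_lit 34249113755)], (nat_lit 1271251), (nat_lit 1271251), (nat_lit 1271251), (nat_lit 1271251), (nat_lit 1100000), (nat_lit 2384376), [(nat_lit 490000), (nat_lit 1100000), (nat_lit 1442501)],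 [(nat_lit 3), (nat_lit 50), (nat_lit 401), (nat_lit 175), (nat_lit 14)]⟩,
 ⟨⟨[(nat_lit 60), (nat_lit 120), (nat_lit 160)], [(nat_lit 0), (nat_lit 0), (nat_lit 3243)], [((nat_lit 0), (nat_lit 0), (nat_lit 0)), ((nat_lit 0), (nat_lit 0), (nat_lit 0)), ((nat_lit 878), (nat_lit 1000), (nat_lit 945))], ((nat_lit 100), (nat_lit 92), (nat_lit 90))⟩, (nat_lit 0), (nat_lit 103), (nat_lit 103), (nat_lit 0), (nat_lit 0), [(nat_lit 3209796000), (nat_lit 7792704000), (nat_lit 11610816000)], [], [(nat_lit 20346619473), (nat_lit 21893670176), (nat_lit 30985162801), (nat_lit 31862099277), (nat_lit 32788872060), (nat_lit 33457072235), (nat_lit 37190270661), (nat_lit 37530865105)], (nat_lit 0), (nat_lit 0), (nat_lit 0), (nat_lit 0), (nat_lit 0), (nat_lit 0), [], [(nat_lit 12), (nat_lit 59), (nat_lit 538), (nat_lit 300), (nat_lit 13)]⟩,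
 ⟨⟨[(nat_lit 120), (nat_lit 160), (nat_lit 200)], [(nat_lit 0), (nat_lit 533), (nat_lit 3597)], [((nat_lit 0), (nat_lit 0), (nat_lit 0)), ((nat_lit 960), (nat_lit 1000), (nat_lit 200)), ((nat_lit 612), (nat_lit 1000), (nat_lit 732))], ((nat_lit 0), (nat_lit 0), (nat_lit 0))⟩, (nat_lit 412098), (nat_lit 300), (nat_lit 1292), (nat_lit 11686400), (nat_lit 2031818), [(nat_lit 1402368000), (nat_lit 2089472000), (nat_lit 2886400000)], [], [(nat_lit 11171288051), (nat_lit 10964954936), (nat_lit 10494207568), (nat_lit 10283513201), (nat_lit 9975422831), (nat_lit 9755121444), (nat_lit 9249826898), (nat_lit 9032411554)], (nat_lit 1271251), (nat_lit 1271251), (nat_lit 1271251), (nat_lit 1271251), (nat_lit 780000), (nat_lit 3072501), [(nat_lit 1695001), (nat_lit 1271251), (nat_lit 1271251)], [(nat_lit 29), (nat_lit 66), (nat_lit 483), (nat_lit 250), (nat_lit 10)]⟩⟩)) (.trZ (nat_lit 0) (nat_lit 1) (nat_lit 3) (nat_lit 87) (nat_lit 44) (nat_lit 100) (nat_lit 210)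 (.trX (nat_lit 5) (nat_lit 1) (nat_lit 2) (nat_lit 87) (nat_lit 41) (nat_lit 100) (nat_lit 390) (.leaf ⟨(nat_lit 0), (nat_lit 828), (nat_lit 0), (nat_lit 172), (nat_lit 0), (nat_lit 4441), (nat_lit 6096), (nat_lit 1661), (nat_lit 0), (nat_lit 0), (nat_lit 0), [], Pd.none, Pd.none, (nat_lit 0), (nat_lit 1), (nat_lit 0), (nat_lit 0), (nat_lit 4), (nat_lit 0), [⟨(nat_lit 0), (nat_lit 87), (nat_lit 32), (nat_lit 100), (nat_lit 282654117)⟩], [⟨(nat_lit 1), (nat_lit 95), (nat_lit 31), (nat_lit 100), (nat_lit 605122220)⟩], [⟨(nat_lit 1), (nat_lit 55), (nat_lit 84), (nat_lit 100), (nat_lit 206408942)⟩], [],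
 ⟨⟨[(nat_lit 40), (nat_lit 80), (nat_lit 100)], [(nat_lit 0), (nat_lit 2514), (nat_lit 3562)], [((nat_lit 0), (nat_lit 0), (nat_lit 0)), ((nat_lit 1000), (nat_lit 446), (nat_lit 804)), ((nat_lit 1000), (nat_lit 443), (nat_lit 819))], ((nat_lit 44), (nat_lit 100), (nat_lit 84))⟩, (nat_lit 1011395), (nat_lit 239), (nat_lit 239), (nat_lit 0), (nat_lit 442583), [(nat_lit 2032000039), (nat_lit 4688000093), (nat_lit 6250000000)], [], [(nat_lit 25363425680), (nat_lit 26411032841), (nat_lit 31567529655), (nat_lit 32725008918), (nat_lit 28557904164), (nat_lit 29814494011), (nat_lit 34281242528), (nat_lit 35151734121)], (nat_lit 1271251), (nat_lit 1271251), (nat_lit 1271251), (nat_lit 1271251), (nat_lit 1100000), (nat_lit 2384376), [(nat_lit 490000), (nat_lit 1100000), (nat_lit 1442501)], [(nat_lit 3), (nat_lit 50), (nat_lit 317), (nat_lit 100), (nat_lit 10)]⟩,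
 ⟨⟨[(nat_lit 60), (nat_lit 120), (nat_lit 160)], [(nat_lit 0), (nat_lit 913), (nat_lit 3885)], [((nat_lit 0), (nat_lit 0), (nat_lit 0)), ((nat_lit 1000), (nat_lit 905), (nat_lit 238)), ((nat_lit 886), (nat_lit 948), (nat_lit 1000))], ((nat_lit 96), (nat_lit 100), (nat_lit 92))⟩, (nat_lit 2045503), (nat_lit 161), (nat_lit 161), (nat_lit 0), (nat_lit 0), [(nat_lit 3282000000), (nat_lit 7968000000), (nat_lit 11872000000)], [], [(nat_lit 24714134697), (nat_lit 25789214719), (nat_lit 32136660886), (nat_lit 32764616821), (nat_lit 32285241139), (nat_lit 32936866866), (nat_lit 36814868228), (nat_lit 37178441090)], (nat_lit 0), (nat_lit 0), (nat_lit 0), (nat_lit 0), (nat_lit 0), (nat_lit 0), [], [(nat_lit 12), (nat_lit 59), (nat_lit 538), (nat_lit 300), (nat_lit 13)]⟩,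
 ⟨⟨[(nat_lit 120), (nat_lit 160), (nat_lit 200)], [(nat_lit 0), (nat_lit 533), (nat_lit 3597)], [((nat_lit 0), (nat_lit 0), (nat_lit 0)), ((nat_lit 960), (nat_lit 1000), (nat_lit 200)), ((nat_lit 612), (nat_lit 1000), (nat_lit 732))], ((nat_lit 0), (nat_lit 0), (nat_lit 0))⟩, (nat_lit 402732), (nat_lit 300), (nat_lit 1452), (nat_lit 11420800), (nat_lit 2367889), [(nat_lit 1370496000), (nat_lit 2041984000), (nat_lit 2820800000)], [], [(nat_lit 10820852254), (nat_lit 10611349026), (nat_lit 10116488044), (nat_lit 9904906629), (nat_lit 9610539048), (nat_lit 9379205828), (nat_lit 8865265790), (nat_lit 8650792469)], (nat_lit 1271251), (nat_lit 1271251), (nat_lit 1271251), (nat_lit 1271251), (nat_lit 780000), (nat_lit 2990626), [(nat_lit 1695001), (nat_lit 1271251), (nat_lit 1271251)], [(nat_lit 29), (nat_lit 66), (nat_lit 483), (nat_lit 250), (nat_lit 10)]⟩⟩)))) (.spl (nat_lit 0) (nat_lit 390) (.leaf ⟨(nat_lit 22), (nat_lit 502), (nat_lit 0), (nat_lit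 476), (nat_lit 0), (nat_lit 3938), (nat_lit 8949), (nat_lit 4522), (nat_lit 0), (nat_lit 0), (nat_lit 88000), [((nat_lit 390), [((nat_lit 43), (nat_lit 5), (nat_lit 22))])], ⟨(nat_lit 7), false, true, false, (nat_lit 293), (nat_lit 1581), (nat_lit 2237), [(nat_lit 1576639), (nat_lit 1579397), (nat_lit 1622097), (nat_lit 1625936), (nat_lit 1847666), (nat_lit 1839120), (nat_lit 1893214), (nat_lit 1885750)]⟩, ⟨(nat_lit 4), false, false, true, (nat_lit 220), (nat_lit 1581), (nat_lit 2237), [(nat_lit 1420170), (nat_lit 1422009), (nat_lit 1465627), (nat_lit 1468548), (nat_lit 1634017), (nat_lit 1626932), (nat_lit 1679566), (nat_lit 1673562)]⟩, (nat_lit 5476861), (nat_lit 34751222), (nat_lit 19863774), (nat_lit 12385004), (nat_lit 4), (nat_lit 0), [⟨(nat_lit 0), (nat_lit 84), (nat_lit 33), (nat_lit 100), (nat_lit 365633864)⟩], [], [], [],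
 ⟨⟨[(nat_lit 40), (nat_lit 80), (nat_lit 100)], [(nat_lit 0), (nat_lit 2514), (nat_lit 3562)], [((nat_lit 0), (nat_lit 0), (nat_lit 0)), ((nat_lit 1000), (nat_lit 446), (nat_lit 804)), ((nat_lit 1000), (nat_lit 443), (nat_lit 819))], ((nat_lit 44), (nat_lit 100), (nat_lit 84))⟩, (nat_lit 1168265), (nat_lit 170), (nat_lit 170), (nat_lit 0), (nat_lit 248987), [(nat_lit 1823484001), (nat_lit 4089926755), (nat_lit 5224571200)], [(nat_lit 0), (nat_lit 0), (nat_lit 0)], [(nat_lit 23087207157), (nat_lit 23690652217), (nat_lit 30830803286), (nat_lit 31379077905), (nat_lit 27649846083), (nat_lit 28283169293), (nat_lit 33627634488), (nat_lit 34044504264)], (nat_lit 1271251), (nat_lit 1271251), (nat_lit 1271251), (nat_lit 1271251), (nat_lit 1100000), (nat_lit 2384376), [(nat_lit 490000), (nat_lit 1100000), (nat_lit 1442501)], [(nat_lit 3), (nat_lit 50), (nat_lit 401), (nat_lit 175), (nat_lit 14)]⟩,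
 ⟨⟨[(nat_lit 60), (nat_lit 120), (nat_lit 160)], [(nat_lit 0), (nat_lit 0), (nat_lit 3243)], [((nat_lit 0), (nat_lit 0), (nat_lit 0)), ((nat_lit 0), (nat_lit 0), (nat_lit 0)), ((nat_lit 878), (nat_lit 1000), (nat_lit 945))], ((nat_lit 100), (nat_lit 92), (nat_lit 90))⟩, (nat_lit 1860260), (nat_lit 427), (nat_lit 427), (nat_lit 0), (nat_lit 629875), [(nat_lit 3209796000), (nat_lit 7792704000), (nat_lit 11610816000)], [], [(nat_lit 27873849632), (nat_lit 29084977934), (nat_lit 33012857050), (nat_lit 33784282829), (nat_lit 39592445357), (nat_lit 34799023545), (nat_lit 39998561271), (nat_lit 40933351617)], (nat_lit 1271251), (nat_lit 1271251), (nat_lit 1271251), (nat_lit 1271251), (nat_lit 780000), (nat_lit 3072501), [(nat_lit 780000), (nat_lit 1762501), (nat_lit 1271251)], [(nat_lit 12), (nat_lit 59), (nat_lit 538), (nat_lit 300), (nat_lit 13)]⟩,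
 ⟨⟨[(nat_lit 120), (nat_lit 160), (nat_lit 200)], [(nat_lit 0), (nat_lit 533), (nat_lit 3597)], [((nat_lit 0), (nat_lit 0), (nat_lit 0)), ((nat_lit 960), (nat_lit 1000), (nat_lit 200)), ((nat_lit 612), (nat_lit 1000), (nat_lit 732))], ((nat_lit 0), (nat_lit 0), (nat_lit 0))⟩, (nat_lit 1114537), (nat_lit 300), (nat_lit 957), (nat_lit 31606400), (nat_lit 1328182), [(nat_lit 3792768000), (nat_lit 5651072000), (nat_lit 7806400000)], [], [(nat_lit 28923059242), (nat_lit 28454800430), (nat_lit 27550648114), (nat_lit 27043297415), (nat_lit 26960748290), (nat_lit 26027834700), (nat_lit 24868049812), (nat_lit 24301973833)], (nat_lit 1271251), (nat_lit 1271251), (nat_lit 1271251), (nat_lit 1271251), (nat_lit 780000), (nat_lit 3072501), [(nat_lit 1695001), (nat_lit 1271251), (nat_lit 1271251)], [(nat_lit 29), (nat_lit 66), (nat_lit 483), (nat_lit 250), (nat_lit 10)]⟩⟩) (.trZ (nat_lit 0) (nat_lit 1) (nat_lit 3) (nat_lit 92) (nat_lit 31) (nat_lit 100) (nat_lit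 210) (.trX (nat_lit 3) (nat_lit 0) (nat_lit 1) (nat_lit 39) (nat_lit 72) (nat_lit 100) (nat_lit 370) (.trX (nat_lit 4) (nat_lit 0) (nat_lit 2) (nat_lit 31) (nat_lit 92) (nat_lit 100) (nat_lit 290) (.leaf ⟨(nat_lit 23), (nat_lit 601), (nat_lit 0), (nat_lit 376), (nat_lit 0), (nat_lit 3802), (nat_lit 7608), (nat_lit 3838), (nat_lit 0), (nat_lit 0), (nat_lit 92000), [((nat_lit 400), [((nat_lit 43), (nat_lit 5), (nat_lit 23))])], ⟨(nat_lit 7), false, true, false, (nat_lit 295), (nat_lit 0), (nat_lit 1582), [(nat_lit 1604619), (nat_lit 1610200), (nat_lit 1649935), (nat_lit 1658886), (nat_lit 1825457), (nat_lit 1812495), (nat_lit 1872089), (nat_lit 1862497)]⟩, ⟨(nat_lit 4), false, false, true, (nat_lit 213), (nat_lit 0), (nat_lit 1582), [(nat_lit 1421394), (nat_lit 1424345), (nat_lit 1466711), (nat_lit 1473031), (nat_lit 1599609), (nat_lit 1587494), (nat_lit 1646241), (nat_lit 1637496)]⟩, (nat_lit 5440783), (nat_lit 35008511), (nat_lit 20134448), (nat_lit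 11857041), (nat_lit 4), (nat_lit 0), [⟨(nat_lit 0), (nat_lit 91), (nat_lit 23), (nat_lit 100), (nat_lit 601227211)⟩], [], [], [],
 ⟨⟨[(nat_lit 40), (nat_lit 60), (nat_lit 80)], [(nat_lit 0), (nat_lit 2136), (nat_lit 3185)], [((nat_lit 0), (nat_lit 0), (nat_lit 0)), ((nat_lit 1000), (nat_lit 343), (nat_lit 808)), ((nat_lit 1000), (nat_lit 338), (nat_lit 820))], ((nat_lit 32), (nat_lit 100), (nat_lit 86))⟩, (nat_lit 627429), (nat_lit 165), (nat_lit 165), (nat_lit 0), (nat_lit 274717), [(nat_lit 1821966003), (nat_lit 2895128834), (nat_lit 3937215600)], [(nat_lit 0), (nat_lit 0), (nat_lit 0)], [(nat_lit 24527582526), (nat_lit 25138418339), (nat_lit 30647855380), (nat_lit 31204139438), (nat_lit 27842490492), (nat_lit 28345810633), (nat_lit 32952408392), (nat_lit 33394575911)], (nat_lit 1271251), (nat_lit 1271251), (nat_lit 1271251), (nat_lit 1271251), (nat_lit 1100000), (nat_lit 2213126), [(nat_lit 490000), (nat_lit 780000), (nat_lit 1100000)], [(nat_lit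 2), (nat_lit 44), (nat_lit 203), (nat_lit 0), (nat_lit 7)]⟩,
 ⟨⟨[(nat_lit 60), (nat_lit 120), (nat_lit 160)], [(nat_lit 0), (nat_lit 0), (nat_lit 3243)], [((nat_lit 0), (nat_lit 0), (nat_lit 0)), ((nat_lit 0), (nat_lit 0), (nat_lit 0)), ((nat_lit 878), (nat_lit 1000), (nat_lit 945))], ((nat_lit 100), (nat_lit 92), (nat_lit 90))⟩, (nat_lit 1538542), (nat_lit 500), (nat_lit 500), (nat_lit 0), (nat_lit 729803), [(nat_lit 3206514000), (nat_lit 7784736000), (nat_lit 11598944000)], [], [(nat_lit 32636740035), (nat_lit 33738608571), (nat_lit 36310480729), (nat_lit 36898131608), (nat_lit 36387094412), (nat_lit 36894042189), (nat_lit 38070390080), (nat_lit 38572748584)], (nat_lit 1271251), (nat_lit 1271251), (nat_lit 1271251), (nat_lit 1271251), (nat_lit 780000), (nat_lit 3072501), [(nat_lit 780000), (nat_lit 1762501), (nat_lit 1271251)], [(nat_lit 12), (nat_lit 59), (nat_lit 538), (nat_lit 300), (nat_lit 13)]⟩,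
 ⟨⟨[(nat_lit 120), (nat_lit 160), (nat_lit 200)], [(nat_lit 0), (nat_lit 533), (nat_lit 3597)], [((nat_lit 0), (nat_lit 0), (nat_lit 0)), ((nat_lit 960), (nat_lit 1000), (nat_lit 200)), ((nat_lit 612), (nat_lit 1000), (nat_lit 732))], ((nat_lit 0), (nat_lit 0), (nat_lit 0))⟩, (nat_lit 880390), (nat_lit 300), (nat_lit 1073), (nat_lit 24966401), (nat_lit 1553351), [(nat_lit 2995968000), (nat_lit 4463872000), (nat_lit 6166400000)], [], [(nat_lit 22062274140), (nat_lit 21600673564), (nat_lit 20750209003), (nat_lit 20291685995), (nat_lit 21894586342), (nat_lit 19280384488), (nat_lit 18569645500), (nat_lit 18115418326)], (nat_lit 1271251), (nat_lit 1271251), (nat_lit 1271251), (nat_lit 1271251), (nat_lit 780000), (nat_lit 3072501), [(nat_lit 1695001), (nat_lit 1271251), (nat_lit 1271251)], [(nat_lit 29), (nat_lit 66), (nat_lit 483), (nat_lit 250), (nat_lit 10)]⟩⟩))))))))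
noncomputable def c14_96 : Tr Lf :=
 (.spl (nat_lit 6) (nat_lit 112) (.spl (nat_lit 5) (nat_lit 200) (.leaf ⟨(nat_lit 767), (nat_lit 233), (nat_lit 0), (nat_lit 0), (nat_lit 4367), (nat_lit 3782), (nat_lit 1870), (nat_lit 0), (nat_lit 0), (nat_lit 0), (nat_lit 315200), [((nat_lit 390), [((nat_lit 29), (nat_lit 1), (nat_lit 725)), ((nat_lit 43), (nat_lit 2), (nat_lit 42))])], ⟨(nat_lit 6), false, false, false, (nat_lit 214), (nat_lit 1581), (nat_lit 2237), [(nat_lit 1474080), (nat_lit 1478137), (nat_lit 1519538), (nat_lit 1524676), (nat_lit 1545457), (nat_lit 1546538), (nat_lit 1590915), (nat_lit 1593078)]⟩, ⟨(nat_lit 3), false, false, false, (nat_lit 121), (nat_lit 1581), (nat_lit 2237), [(nat_lit 1180680), (nat_lit 1188036), (nat_lit 1248867), (nat_lit 1257845), (nat_lit 1351886), (nat_lit 1352103), (nat_lit 1420170), (nat_lit 1422009)]⟩, (nat_lit 4244904), (nat_lit 46726966), (nat_lit 14366731), (nat_lit 5906303), (nat_lit 3), (nat_lit 0), [⟨(nat_lit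 0), (nat_lit 96), (nat_lit 38), (nat_lit 100), (nat_lit 191533772)⟩], [], [], [],
 ⟨⟨[(nat_lit 40), (nat_lit 80), (nat_lit 100)], [(nat_lit 0), (nat_lit 2514), (nat_lit 3562)], [((nat_lit 0), (nat_lit 0), (nat_lit 0)), ((nat_lit 1000), (nat_lit 446), (nat_lit 804)), ((nat_lit 1000), (nat_lit 443), (nat_lit 819))], ((nat_lit 44), (nat_lit 100), (nat_lit 90))⟩, (nat_lit 0), (nat_lit 176), (nat_lit 176), (nat_lit 0), (nat_lit 156324), [(nat_lit 1490078043), (nat_lit 1177940044), (nat_lit 1433612800)], [(nat_lit 0), (nat_lit 0), (nat_lit 0)], [(nat_lit 22936457041), (nat_lit 23752287361), (nat_lit 24020954997), (nat_lit 24849594211), (nat_lit 22573215104), (nat_lit 23141674652), (nat_lit 23438696957), (nat_lit 24015357971)], (nat_lit 1271251), (nat_lit 1271251), (nat_lit 1017188), (nat_lit 1440626), (nat_lit 230000), (nat_lit 1100000), [(nat_lit 490000), (nat_lit 1100000), (nat_lit 1442501)], [(nat_lit 3), (nat_lit 50), (nat_lit 317), (nat_lit 100),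 (nat_lit 11)]⟩,
 ⟨⟨[(nat_lit 80), (nat_lit 140), (nat_lit 180)], [(nat_lit 0), (nat_lit 0), (nat_lit 3656)], [((nat_lit 0), (nat_lit 0), (nat_lit 0)), ((nat_lit 0), (nat_lit 0), (nat_lit 0)), ((nat_lit 637), (nat_lit 1000), (nat_lit 908))], ((nat_lit 100), (nat_lit 62), (nat_lit 92))⟩, (nat_lit 0), (nat_lit 478), (nat_lit 478), (nat_lit 0), (nat_lit 335214), [(nat_lit 1092304000), (nat_lit 2293186000), (nat_lit 3275514000)], [], [(nat_lit 10662193133), (nat_lit 11044533189), (nat_lit 10737044166), (nat_lit 11079003465), (nat_lit 9337783096), (nat_lit 9626372550), (nat_lit 9869053168), (nat_lit 9623045009)], (nat_lit 1271251), (nat_lit 1271251), (nat_lit 1017188), (nat_lit 1440626), (nat_lit 0), (nat_lit 1412501), [(nat_lit 1100000), (nat_lit 2127501), (nat_lit 1271251)], [(nat_lit 19), (nat_lit 63), (nat_lit 401), (nat_lit 175), (nat_lit 9)]⟩,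
 Rw.none⟩) (.spl (nat_lit 4) (nat_lit 120) (.leaf ⟨(nat_lit 869), (nat_lit 58), (nat_lit 0), (nat_lit 73), (nat_lit 0), (nat_lit 3453), (nat_lit 2212), (nat_lit 917), (nat_lit 0), (nat_lit 0), (nat_lit 334400), [((nat_lit 390), [((nat_lit 29), (nat_lit 0), (nat_lit 88)), ((nat_lit 29), (nat_lit 1), (nat_lit 781))])], ⟨(nat_lit 6), false, false, false, (nat_lit 214), (nat_lit 1581), (nat_lit 2237), [(nat_lit 1474080), (nat_lit 1478137), (nat_lit 1519538), (nat_lit 1524676), (nat_lit 1545457), (nat_lit 1546538), (nat_lit 1590915), (nat_lit 1593078)]⟩, ⟨(nat_lit 3), false, false, false, (nat_lit 110), (nat_lit 1581), (nat_lit 2237), [(nat_lit 1180680), (nat_lit 1188036), (nat_lit 1248867), (nat_lit 1257845), (nat_lit 1294870), (nat_lit 1297467), (nat_lit 1363068), (nat_lit 1367287)]⟩, (nat_lit 4108240), (nat_lit 47417963), (nat_lit 14459726), (nat_lit 5122311), (nat_lit 5), (nat_lit 0), [⟨(nat_lit 0), (nat_lit 96), (nat_lit 38), (nat_lit 100), (nat_lit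 313418110)⟩], [⟨(nat_lit 0), (nat_lit 100), (nat_lit 39), (nat_lit 83), (nat_lit 290136105)⟩], [], [],
 ⟨⟨[(nat_lit 40), (nat_lit 80), (nat_lit 100)], [(nat_lit 0), (nat_lit 2514), (nat_lit 3562)], [((nat_lit 0), (nat_lit 0), (nat_lit 0)), ((nat_lit 1000), (nat_lit 446), (nat_lit 804)), ((nat_lit 1000), (nat_lit 443), (nat_lit 819))], ((nat_lit 44), (nat_lit 100), (nat_lit 90))⟩, (nat_lit 1947), (nat_lit 169), (nat_lit 169), (nat_lit 0), (nat_lit 130280), [(nat_lit 1464000408), (nat_lit 890638506), (nat_lit 1049367200)], [(nat_lit 0), (nat_lit 0), (nat_lit 0)], [(nat_lit 22498911752), (nat_lit 23204441281), (nat_lit 23525323016), (nat_lit 24242417178), (nat_lit 22244812376), (nat_lit 22818473776), (nat_lit 23177189009), (nat_lit 23764496575)], (nat_lit 1271251), (nat_lit 1271251), (nat_lit 1017188), (nat_lit 1440626), (nat_lit 230000), (nat_lit 780000), [(nat_lit 490000), (nat_lit 1100000), (nat_lit 1442501)], [(nat_lit 3), (nat_lit 50), (nat_lit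 317), (nat_lit 100), (nat_lit 11)]⟩,
 ⟨⟨[(nat_lit 80), (nat_lit 140), (nat_lit 180)], [(nat_lit 0), (nat_lit 0), (nat_lit 3656)], [((nat_lit 0), (nat_lit 0), (nat_lit 0)), ((nat_lit 0), (nat_lit 0), (nat_lit 0)), ((nat_lit 637), (nat_lit 1000), (nat_lit 908))], ((nat_lit 100), (nat_lit 62), (nat_lit 92))⟩, (nat_lit 0), (nat_lit 310), (nat_lit 310), (nat_lit 0), (nat_lit 335214), [(nat_lit 614128000), (nat_lit 1289302000), (nat_lit 1841598000)], [], [(nat_lit 3716446662), (nat_lit 4124285679), (nat_lit 4273908748), (nat_lit 4085872653), (nat_lit 5620303145), (nat_lit 5749003935), (nat_lit 5393899766), (nat_lit 5494511196)], (nat_lit 1271251), (nat_lit 1271251), (nat_lit 1017188), (nat_lit 1440626), (nat_lit 1271251), (nat_lit 1271251), [(nat_lit 1100000), (nat_lit 2127501), (nat_lit 1271251)], [(nat_lit 19), (nat_lit 63), (nat_lit 456), (nat_lit 225), (nat_lit 10)]⟩,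
 ⟨⟨[(nat_lit 140), (nat_lit 180), (nat_lit 200)], [(nat_lit 0), (nat_lit 0), (nat_lit 2835)], [((nat_lit 0), (nat_lit 0), (nat_lit 0)), ((nat_lit 0), (nat_lit 0), (nat_lit 0)), ((nat_lit 363), (nat_lit 1000), (nat_lit 798))], ((nat_lit 0), (nat_lit 0), (nat_lit 0))⟩, (nat_lit 20085), (nat_lit 300), (nat_lit 891), (nat_lit 5701300), (nat_lit 991024), [(nat_lit 718466000), (nat_lit 1026234000), (nat_lit 1197200000)], [], [(nat_lit 4809981416), (nat_lit 4599990800), (nat_lit 4371531659), (nat_lit 4166570744), (nat_lit 4716052512), (nat_lit 4511154175), (nat_lit 4230134928), (nat_lit 4015633579)], (nat_lit 780000), (nat_lit 1271251), (nat_lit 230000), (nat_lit 780000), (nat_lit 1271251), (nat_lit 1271251), [(nat_lit 1977501), (nat_lit 1271251), (nat_lit 1271251)], [(nat_lit 32), (nat_lit 67), (nat_lit 401), (nat_lit 175), (nat_lit 9)]⟩⟩) (.leaf ⟨(nat_lit 889), (nat_lit 70), (nat_lit 0), (nat_lit 41), (nat_lit 0), (nat_lit 4764), (nat_lit 1874), (nat_lit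 470), (nat_lit 0), (nat_lit 0), (nat_lit 222250), [((nat_lit 390), [((nat_lit 29), (nat_lit 0), (nat_lit 889))])], ⟨(nat_lit 6), false, false, false, (nat_lit 214), (nat_lit 1581), (nat_lit 2237), [(nat_lit 1474080), (nat_lit 1478137), (nat_lit 1519538), (nat_lit 1524676), (nat_lit 1545457), (nat_lit 1546538), (nat_lit 1590915), (nat_lit 1593078)]⟩, ⟨(nat_lit 3), false, false, false, (nat_lit 143), (nat_lit 1581), (nat_lit 2237), [(nat_lit 1294870), (nat_lit 1297467), (nat_lit 1363068), (nat_lit 1367287), (nat_lit 1351886), (nat_lit 1352103), (nat_lit 1420170), (nat_lit 1422009)]⟩, (nat_lit 4498042), (nat_lit 45288494), (nat_lit 14150644), (nat_lit 7560862), (nat_lit 5), (nat_lit 0), [⟨(nat_lit 0), (nat_lit 96), (nat_lit 38), (nat_lit 100), (nat_lit 261748741)⟩], [], [⟨(nat_lit 1), (nat_lit 55), (nat_lit 99), (nat_lit 100), (nat_lit 21066422)⟩], [],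
 ⟨⟨[(nat_lit 40), (nat_lit 80), (nat_lit 100)], [(nat_lit 0), (nat_lit 2514), (nat_lit 3562)], [((nat_lit 0), (nat_lit 0), (nat_lit 0)), ((nat_lit 1000), (nat_lit 446), (nat_lit 804)), ((nat_lit 1000), (nat_lit 443), (nat_lit 819))], ((nat_lit 44), (nat_lit 100), (nat_lit 90))⟩, (nat_lit 0), (nat_lit 137), (nat_lit 137), (nat_lit 0), (nat_lit 156324), [(nat_lit 1706516929), (nat_lit 2173979561), (nat_lit 2281859600)], [(nat_lit 0), (nat_lit 0), (nat_lit 0)], [(nat_lit 22733514388), (nat_lit 23588114360), (nat_lit 23735749415), (nat_lit 24595400178), (nat_lit 22811302340), (nat_lit 23619258945), (nat_lit 23760476336), (nat_lit 24503127792)], (nat_lit 1271251), (nat_lit 1271251), (nat_lit 1017188), (nat_lit 1440626), (nat_lit 780000), (nat_lit 1100000), [(nat_lit 490000), (nat_lit 1100000), (nat_lit 1442501)], [(nat_lit 3), (nat_lit 50), (nat_lit 317), (nat_lit 100), (nat_lit 11)]⟩,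
 ⟨⟨[(nat_lit 80), (nat_lit 140), (nat_lit 180)], [(nat_lit 0), (nat_lit 0), (nat_lit 3656)], [((nat_lit 0), (nat_lit 0), (nat_lit 0)), ((nat_lit 0), (nat_lit 0), (nat_lit 0)), ((nat_lit 637), (nat_lit 1000), (nat_lit 908))], ((nat_lit 100), (nat_lit 62), (nat_lit 92))⟩, (nat_lit 0), (nat_lit 310), (nat_lit 310), (nat_lit 0), (nat_lit 335214), [(nat_lit 520368000), (nat_lit 1092462000), (nat_lit 1560438000)], [], [(nat_lit 3149212821), (nat_lit 3494751509), (nat_lit 3621555240), (nat_lit 3462227175), (nat_lit 4762245315), (nat_lit 4871295837), (nat_lit 4570453706), (nat_lit 4655592879)], (nat_lit 1271251), (nat_lit 1271251), (nat_lit 1017188), (nat_lit 1440626), (nat_lit 1271251), (nat_lit 1271251), [(nat_lit 1100000), (nat_lit 2127501), (nat_lit 1271251)], [(nat_lit 19), (nat_lit 63), (nat_lit 456), (nat_lit 225), (nat_lit 10)]⟩,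
 ⟨⟨[(nat_lit 140), (nat_lit 180), (nat_lit 200)], [(nat_lit 0), (nat_lit 0), (nat_lit 2835)], [((nat_lit 0), (nat_lit 0), (nat_lit 0)), ((nat_lit 0), (nat_lit 0), (nat_lit 0)), ((nat_lit 363), (nat_lit 1000), (nat_lit 798))], ((nat_lit 0), (nat_lit 0), (nat_lit 0))⟩, (nat_lit 11280), (nat_lit 300), (nat_lit 1202), (nat_lit 3202106), (nat_lit 1791614), [(nat_lit 403522000), (nat_lit 576378000), (nat_lit 672400000)], [], [(nat_lit 2648496114), (nat_lit 2542608366), (nat_lit 2565397652), (nat_lit 2460066410), (nat_lit 2491289728), (nat_lit 2380948145), (nat_lit 2403586120), (nat_lit 2293980813)], (nat_lit 780000), (nat_lit 1271251), (nat_lit 780000), (nat_lit 1100000), (nat_lit 1271251), (nat_lit 1271251), [(nat_lit 1977501), (nat_lit 1271251), (nat_lit 1271251)], [(nat_lit 32), (nat_lit 67), (nat_lit 428), (nat_lit 200), (nat_lit 9)]⟩⟩))) (.spl (nat_lit 3) (nat_lit 180) (.leaf ⟨(nat_lit 1000), (nat_lit 0), (nat_lit 0), (nat_lit 0), (nat_lit 300000),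 (nat_lit 3073), (nat_lit 0), (nat_lit 0), (nat_lit 0), (nat_lit 0), (nat_lit 451000), [((nat_lit 390), [((nat_lit 43), (nat_lit 1), (nat_lit 745)), ((nat_lit 43), (nat_lit 2), (nat_lit 255))])], ⟨(nat_lit 6), false, false, false, (nat_lit 208), (nat_lit 1581), (nat_lit 2237), [(nat_lit 1474080), (nat_lit 1478137), (nat_lit 1519538), (nat_lit 1524676), (nat_lit 1516906), (nat_lit 1519178), (nat_lit 1562365), (nat_lit 1565717)]⟩, ⟨(nat_lit 3), false, false, false, (nat_lit 121), (nat_lit 1581), (nat_lit 2237), [(nat_lit 1180680), (nat_lit 1188036), (nat_lit 1248867), (nat_lit 1257845), (nat_lit 1351886), (nat_lit 1352103), (nat_lit 1420170), (nat_lit 1422009)]⟩, (nat_lit 4198720), (nat_lit 47233517), (nat_lit 13833144), (nat_lit 5933339), (nat_lit 0), (nat_lit 0), [⟨(nat_lit 0), (nat_lit 92), (nat_lit 31), (nat_lit 100), (nat_lit 14055647690)⟩], [⟨(nat_lit 0), (nat_lit 100), (nat_lit 39), (nat_lit 83), (nat_lit 657730)⟩], [], [],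
 ⟨⟨[(nat_lit 40), (nat_lit 80), (nat_lit 120)], [(nat_lit 0), (nat_lit 2514), (nat_lit 4610)], [((nat_lit 0), (nat_lit 0), (nat_lit 0)), ((nat_lit 1000), (nat_lit 446), (nat_lit 804)), ((nat_lit 1000), (nat_lit 443), (nat_lit 819))], ((nat_lit 44), (nat_lit 100), (nat_lit 95))⟩, (nat_lit 0), (nat_lit 172), (nat_lit 172), (nat_lit 0), (nat_lit 59536), [(nat_lit 1390808001), (nat_lit 188395976), (nat_lit 0)], [(nat_lit 0), (nat_lit 0), (nat_lit 730554000)], [(nat_lit 21816869832), (nat_lit 22460526104), (nat_lit 22369550672), (nat_lit 22985504446), (nat_lit 21890472270), (nat_lit 22457275421), (nat_lit 22399241085), (nat_lit 22942443109)], (nat_lit 1271251), (nat_lit 1271251), (nat_lit 1017188), (nat_lit 1271251), (nat_lit 230000), (nat_lit 1100000), [(nat_lit 490000), (nat_lit 1100000), (nat_lit 1785001)], [(nat_lit 4), (nat_lit 51), (nat_lit 317), (nat_lit 100), (nat_lit 10)]⟩,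
 Rw.none,
 Rw.none⟩) (.spl (nat_lit 5) (nat_lit 200) (.spl (nat_lit 1) (nat_lit 260) (.spl (nat_lit 6) (nat_lit 120) (.leaf ⟨(nat_lit 813), (nat_lit 187), (nat_lit 0), (nat_lit 0), (nat_lit 16500), (nat_lit 3682), (nat_lit 1595), (nat_lit 0), (nat_lit 0), (nat_lit 0), (nat_lit 377400), [((nat_lit 390), [((nat_lit 29), (nat_lit 1), (nat_lit 552)), ((nat_lit 43), (nat_lit 2), (nat_lit 261))])], ⟨(nat_lit 6), false, true, false, (nat_lit 217), (nat_lit 1581), (nat_lit 2237), [(nat_lit 1516906), (nat_lit 1519178), (nat_lit 1539635), (nat_lit 1542447), (nat_lit 1545457), (nat_lit 1546538), (nat_lit 1568186), (nat_lit 1569808)]⟩, ⟨(nat_lit 3), false, false, false, (nat_lit 121), (nat_lit 1581), (nat_lit 2237), [(nat_lit 1180680), (nat_lit 1188036), (nat_lit 1248867), (nat_lit 1257845), (nat_lit 1351886), (nat_lit 1352103), (nat_lit 1420170), (nat_lit 1422009)]⟩, (nat_lit 4274930), (nat_lit 46383789), (nat_lit 14729092), (nat_lit 5887119), (nat_lit 3),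 (nat_lit 0), [⟨(nat_lit 0), (nat_lit 95), (nat_lit 31), (nat_lit 100), (nat_lit 224748384)⟩], [], [], [],
 ⟨⟨[(nat_lit 40), (nat_lit 80), (nat_lit 120)], [(nat_lit 0), (nat_lit 2514), (nat_lit 4610)], [((nat_lit 0), (nat_lit 0), (nat_lit 0)), ((nat_lit 1000), (nat_lit 446), (nat_lit 804)), ((nat_lit 1000), (nat_lit 443), (nat_lit 819))], ((nat_lit 44), (nat_lit 100), (nat_lit 92))⟩, (nat_lit 0), (nat_lit 160), (nat_lit 160), (nat_lit 0), (nat_lit 31386), [(nat_lit 1470571659), (nat_lit 2048584321), (nat_lit 232152027)], [(nat_lit 0), (nat_lit 0), (nat_lit 0)], [(nat_lit 23507549369), (nat_lit 24218155163), (nat_lit 23977659040), (nat_lit 24664839549), (nat_lit 22848358552), (nat_lit 23472853258), (nat_lit 23306993257), (nat_lit 23918646932)], (nat_lit 1271251), (nat_lit 1271251), (nat_lit 1271251), (nat_lit 1271251), (nat_lit 230000), (nat_lit 1100000), [(nat_lit 490000), (nat_lit 1100000), (nat_lit 1785001)], [(nat_lit 4), (nat_lit 51), (nat_lit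 317), (nat_lit 100), (nat_lit 10)]⟩,
 ⟨⟨[(nat_lit 80), (nat_lit 140), (nat_lit 200)], [(nat_lit 0), (nat_lit 0), (nat_lit 5481)], [((nat_lit 0), (nat_lit 0), (nat_lit 0)), ((nat_lit 0), (nat_lit 0), (nat_lit 0)), ((nat_lit 637), (nat_lit 1000), (nat_lit 908))], ((nat_lit 0), (nat_lit 0), (nat_lit 0))⟩, (nat_lit 328187), (nat_lit 433), (nat_lit 433), (nat_lit 0), (nat_lit 82778), [(nat_lit 876656000), (nat_lit 1840454000), (nat_lit 3066800000)], [], [(nat_lit 7771511588), (nat_lit 7891095941), (nat_lit 7792472143), (nat_lit 7905893347), (nat_lit 7464014932), (nat_lit 6722221703), (nat_lit 6717328442), (nat_lit 6537795289)], (nat_lit 1271251), (nat_lit 1271251), (nat_lit 1271251), (nat_lit 1271251), (nat_lit 0), (nat_lit 1412501), [(nat_lit 1100000), (nat_lit 2127501), (nat_lit 1271251)], [(nat_lit 20), (nat_lit 64), (nat_lit 401), (nat_lit 175), (nat_lit 8)]⟩,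
 Rw.none⟩) (.dle (nat_lit 0))) (.leaf ⟨(nat_lit 0), (nat_lit 1000), (nat_lit 0), (nat_lit 0), (nat_lit 32433), (nat_lit 6458), (nat_lit 11360), (nat_lit 0), (nat_lit 0), (nat_lit 0), (nat_lit 0), [], Pd.none, Pd.none, (nat_lit 0), (nat_lit 1), (nat_lit 0), (nat_lit 0), (nat_lit 3), (nat_lit 0), [⟨(nat_lit 0), (nat_lit 94), (nat_lit 38), (nat_lit 100), (nat_lit 2200992904)⟩], [], [], [],
 ⟨⟨[(nat_lit 40), (nat_lit 80), (nat_lit 120)], [(nat_lit 0), (nat_lit 2514), (nat_lit 4610)], [((nat_lit 0), (nat_lit 0), (nat_lit 0)), ((nat_lit 1000), (nat_lit 446), (nat_lit 804)), ((nat_lit 1000), (nat_lit 443), (nat_lit 819))], ((nat_lit 44), (nat_lit 100), (nat_lit 95))⟩, (nat_lit 995155), (nat_lit 168), (nat_lit 168), (nat_lit 0), (nat_lit 59536), [(nat_lit 2287005378), (nat_lit 5878486036), (nat_lit 7968000000)], [], [(nat_lit 27868687290), (nat_lit 29237741828), (nat_lit 28479249773), (nat_lit 29793628980), (nat_lit 24831516541), (nat_lit 25680625388), (nat_lit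 25226291705), (nat_lit 26044198042)], (nat_lit 1271251), (nat_lit 1271251), (nat_lit 1271251), (nat_lit 1271251), (nat_lit 230000), (nat_lit 1100000), [(nat_lit 490000), (nat_lit 1100000), (nat_lit 1785001)], [(nat_lit 4), (nat_lit 51), (nat_lit 317), (nat_lit 100), (nat_lit 10)]⟩,
 ⟨⟨[(nat_lit 80), (nat_lit 140), (nat_lit 180)], [(nat_lit 0), (nat_lit 792), (nat_lit 4228)], [((nat_lit 0), (nat_lit 0), (nat_lit 0)), ((nat_lit 1000), (nat_lit 959), (nat_lit 206)), ((nat_lit 709), (nat_lit 1000), (nat_lit 949))], ((nat_lit 100), (nat_lit 64), (nat_lit 99))⟩, (nat_lit 1459979), (nat_lit 382), (nat_lit 382), (nat_lit 0), (nat_lit 123780), [(nat_lit 4688000000), (nat_lit 9842000000), (nat_lit 14058000000)], [], [(nat_lit 37525565410), (nat_lit 38408837440), (nat_lit 37640119600), (nat_lit 38474380420), (nat_lit 33001891052), (nat_lit 28307832080), (nat_lit 27718648992), (nat_lit 28266814580)], (nat_lit 1271251), (nat_lit 1271251), (nat_lit 1271251), (nat_lit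 1271251), (nat_lit 0), (nat_lit 1412501), [(nat_lit 1100000), (nat_lit 2127501), (nat_lit 1271251)], [(nat_lit 19), (nat_lit 63), (nat_lit 401), (nat_lit 175), (nat_lit 9)]⟩,
 Rw.none⟩)) (.spl (nat_lit 1) (nat_lit 260) (.spl (nat_lit 6) (nat_lit 120) (.leaf ⟨(nat_lit 42), (nat_lit 456), (nat_lit 0), (nat_lit 502), (nat_lit 52825), (nat_lit 3594), (nat_lit 14670), (nat_lit 5658), (nat_lit 0), (nat_lit 0), (nat_lit 85500), [((nat_lit 390), [((nat_lit 29), (nat_lit 0), (nat_lit 22)), ((nat_lit 43), (nat_lit 5), (nat_lit 20))])], ⟨(nat_lit 6), false, true, false, (nat_lit 217), (nat_lit 1581), (nat_lit 2237), [(nat_lit 1516906), (nat_lit 1519178), (nat_lit 1539635), (nat_lit 1542447), (nat_lit 1545457), (nat_lit 1546538), (nat_lit 1568186), (nat_lit 1569808)]⟩, ⟨(nat_lit 3), false, false, false, (nat_lit 121), (nat_lit 1581), (nat_lit 2237), [(nat_lit 1180680), (nat_lit 1188036), (nat_lit 1248867), (nat_lit 1257845), (nat_lit 1351886), (nat_lit 1352103),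 (nat_lit 1420170), (nat_lit 1422009)]⟩, (nat_lit 4274930), (nat_lit 46383789), (nat_lit 14729092), (nat_lit 5887119), (nat_lit 5), (nat_lit 0), [⟨(nat_lit 0), (nat_lit 95), (nat_lit 31), (nat_lit 100), (nat_lit 1433615755)⟩], [⟨(nat_lit 0), (nat_lit 100), (nat_lit 39), (nat_lit 83), (nat_lit 916386165)⟩], [], [],
 ⟨⟨[(nat_lit 40), (nat_lit 80), (nat_lit 120)], [(nat_lit 0), (nat_lit 2514), (nat_lit 4610)], [((nat_lit 0), (nat_lit 0), (nat_lit 0)), ((nat_lit 1000), (nat_lit 446), (nat_lit 804)), ((nat_lit 1000), (nat_lit 443), (nat_lit 819))], ((nat_lit 44), (nat_lit 100), (nat_lit 92))⟩, (nat_lit 1340538), (nat_lit 160), (nat_lit 160), (nat_lit 0), (nat_lit 31386), [(nat_lit 1814640803), (nat_lit 4712728802), (nat_lit 6289736000)], [(nat_lit 0), (nat_lit 0), (nat_lit 0)], [(nat_lit 23393053261), (nat_lit 24055869470), (nat_lit 23858404514), (nat_lit 24502862632), (nat_lit 23053734092), (nat_lit 23635862306), (nat_lit 23473298456), (nat_lit 24056545357)],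 (nat_lit 1271251), (nat_lit 1271251), (nat_lit 1271251), (nat_lit 1271251), (nat_lit 230000), (nat_lit 1100000), [(nat_lit 490000), (nat_lit 1100000), (nat_lit 1785001)], [(nat_lit 4), (nat_lit 51), (nat_lit 317), (nat_lit 100), (nat_lit 10)]⟩,
 ⟨⟨[(nat_lit 80), (nat_lit 140), (nat_lit 200)], [(nat_lit 0), (nat_lit 0), (nat_lit 5481)], [((nat_lit 0), (nat_lit 0), (nat_lit 0)), ((nat_lit 0), (nat_lit 0), (nat_lit 0)), ((nat_lit 637), (nat_lit 1000), (nat_lit 908))], ((nat_lit 0), (nat_lit 0), (nat_lit 0))⟩, (nat_lit 1462097), (nat_lit 233), (nat_lit 233), (nat_lit 0), (nat_lit 82778), [(nat_lit 4491104000), (nat_lit 9428636000), (nat_lit 15711200000)], [], [(nat_lit 28322127208), (nat_lit 28913362738), (nat_lit 27963695649), (nat_lit 28914938756), (nat_lit 37460648557), (nat_lit 37705201237), (nat_lit 36945673251), (nat_lit 37255917381)], (nat_lit 1271251), (nat_lit 1271251), (nat_lit 1271251), (nat_lit 1271251), (nat_lit 1271251), (nat_lit 1271251),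 [(nat_lit 1100000), (nat_lit 2127501), (nat_lit 1271251)], [(nat_lit 20), (nat_lit 64), (nat_lit 456), (nat_lit 225), (nat_lit 9)]⟩,
 ⟨⟨[(nat_lit 140), (nat_lit 180), (nat_lit 200)], [(nat_lit 0), (nat_lit 0), (nat_lit 2835)], [((nat_lit 0), (nat_lit 0), (nat_lit 0)), ((nat_lit 0), (nat_lit 0), (nat_lit 0)), ((nat_lit 363), (nat_lit 1000), (nat_lit 798))], ((nat_lit 0), (nat_lit 0), (nat_lit 0))⟩, (nat_lit 138116), (nat_lit 300), (nat_lit 561), (nat_lit 39206206), (nat_lit 326297), [(nat_lit 4940684000), (nat_lit 7057116000), (nat_lit 8232800000)], [], [(nat_lit 32101621634), (nat_lit 31061978778), (nat_lit 28404328130), (nat_lit 27394537143), (nat_lit 32447734888), (nat_lit 31233410963), (nat_lit 28510835423), (nat_lit 27292030185)], (nat_lit 780000), (nat_lit 1271251), (nat_lit 230000), (nat_lit 1100000), (nat_lit 1271251), (nat_lit 1271251), [(nat_lit 1977501), (nat_lit 1271251), (nat_lit 1271251)], [(nat_lit 32), (nat_lit 67), (nat_lit 428),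 (nat_lit 200), (nat_lit 9)]⟩⟩) (.dle (nat_lit 0))) (.trX (nat_lit 5) (nat_lit 1) (nat_lit 2) (nat_lit 96) (nat_lit 40) (nat_lit 100) (nat_lit 390) (.leaf ⟨(nat_lit 23), (nat_lit 704), (nat_lit 0), (nat_lit 273), (nat_lit 27346), (nat_lit 3599), (nat_lit 17255), (nat_lit 3459), (nat_lit 0), (nat_lit 0), (nat_lit 92000), [((nat_lit 390), [((nat_lit 43), (nat_lit 5), (nat_lit 23))])], ⟨(nat_lit 6), false, true, false, (nat_lit 227), (nat_lit 1581), (nat_lit 2237), [(nat_lit 1539635), (nat_lit 1542447), (nat_lit 1562365), (nat_lit 1565717), (nat_lit 1568186), (nat_lit 1569808), (nat_lit 1590915), (nat_lit 1593078)]⟩, ⟨(nat_lit 3), false, false, false, (nat_lit 121), (nat_lit 1581), (nat_lit 2237), [(nat_lit 1180680), (nat_lit 1188036), (nat_lit 1248867), (nat_lit 1257845), (nat_lit 1351886), (nat_lit 1352103), (nat_lit 1420170), (nat_lit 1422009)]⟩, (nat_lit 4343696), (nat_lit 45550469), (nat_lit 15611802), (nat_lit 5837729), (nat_lit 5), (nat_lit 0),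 [⟨(nat_lit 0), (nat_lit 94), (nat_lit 38), (nat_lit 100), (nat_lit 2153781333)⟩], [⟨(nat_lit 0), (nat_lit 100), (nat_lit 39), (nat_lit 83), (nat_lit 384926418)⟩], [⟨(nat_lit 1), (nat_lit 59), (nat_lit 97), (nat_lit 100), (nat_lit 259346269)⟩], [],
 ⟨⟨[(nat_lit 40), (nat_lit 80), (nat_lit 120)], [(nat_lit 0), (nat_lit 2514), (nat_lit 4610)], [((nat_lit 0), (nat_lit 0), (nat_lit 0)), ((nat_lit 1000), (nat_lit 446), (nat_lit 804)), ((nat_lit 1000), (nat_lit 443), (nat_lit 819))], ((nat_lit 44), (nat_lit 100), (nat_lit 95))⟩, (nat_lit 1394179), (nat_lit 168), (nat_lit 168), (nat_lit 0), (nat_lit 59536), [(nat_lit 1821966075), (nat_lit 4579941382), (nat_lit 6543186800)], [(nat_lit 0), (nat_lit 0), (nat_lit 0)], [(nat_lit 23404233958), (nat_lit 24067500285), (nat_lit 23869556834), (nat_lit 24511493179), (nat_lit 23061373430), (nat_lit 23643875216), (nat_lit 23480881491), (nat_lit 24044995922)], (nat_lit 1271251), (nat_lit 1271251), (nat_lit 1271251), (nat_lit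 1271251), (nat_lit 230000), (nat_lit 1100000), [(nat_lit 490000), (nat_lit 1100000), (nat_lit 1785001)], [(nat_lit 4), (nat_lit 51), (nat_lit 317), (nat_lit 100), (nat_lit 10)]⟩,
 ⟨⟨[(nat_lit 80), (nat_lit 140), (nat_lit 180)], [(nat_lit 0), (nat_lit 792), (nat_lit 4228)], [((nat_lit 0), (nat_lit 0), (nat_lit 0)), ((nat_lit 1000), (nat_lit 959), (nat_lit 206)), ((nat_lit 709), (nat_lit 1000), (nat_lit 949))], ((nat_lit 100), (nat_lit 64), (nat_lit 99))⟩, (nat_lit 0), (nat_lit 213), (nat_lit 213), (nat_lit 0), (nat_lit 123780), [(nat_lit 4580176000), (nat_lit 9615634000), (nat_lit 13734666000)], [], [(nat_lit 28515905483), (nat_lit 29965684984), (nat_lit 28711213992), (nat_lit 30075707054), (nat_lit 40107565211), (nat_lit 40581951873), (nat_lit 39595473049), (nat_lit 40020687470)], (nat_lit 1271251), (nat_lit 1271251), (nat_lit 1271251), (nat_lit 1271251), (nat_lit 1271251), (nat_lit 1271251), [(nat_lit 1100000), (nat_lit 2127501), (nat_lit 1271251)],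 [(nat_lit 19), (nat_lit 63), (nat_lit 456), (nat_lit 225), (nat_lit 10)]⟩,
 ⟨⟨[(nat_lit 140), (nat_lit 180), (nat_lit 200)], [(nat_lit 0), (nat_lit 0), (nat_lit 2835)], [((nat_lit 0), (nat_lit 0), (nat_lit 0)), ((nat_lit 0), (nat_lit 0), (nat_lit 0)), ((nat_lit 363), (nat_lit 1000), (nat_lit 798))], ((nat_lit 0), (nat_lit 0), (nat_lit 0))⟩, (nat_lit 75111), (nat_lit 300), (nat_lit 744), (nat_lit 21321302), (nat_lit 684154), [(nat_lit 2686866000), (nat_lit 3837834000), (nat_lit 4477200000)], [], [(nat_lit 17815399527), (nat_lit 17088445332), (nat_lit 15445313340), (nat_lit 15070983870), (nat_lit 17524111871), (nat_lit 16762308339), (nat_lit 15056887899), (nat_lit 14258172962)], (nat_lit 780000), (nat_lit 1271251), (nat_lit 230000), (nat_lit 1100000), (nat_lit 1271251), (nat_lit 1271251), [(nat_lit 1977501), (nat_lit 1271251), (nat_lit 1271251)], [(nat_lit 32), (nat_lit 67), (nat_lit 428), (nat_lit 200), (nat_lit 9)]⟩⟩))))))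
noncomputable def c14_97 : Tr Lf :=
 (.trZ (nat_lit 0) (nat_lit 1) (nat_lit 3) (nat_lit 99) (nat_lit 31) (nat_lit 100) (nat_lit 170) (.trZ (nat_lit 0) (nat_lit 2) (nat_lit 4) (nat_lit 100) (nat_lit 34) (nat_lit 81) (nat_lit 60) (.spl (nat_lit 1) (nat_lit 260) (.spl (nat_lit 4) (nat_lit 120) (.leaf ⟨(nat_lit 1000), (nat_lit 0), (nat_lit 0), (nat_lit 0), (nat_lit 6194), (nat_lit 3695), (nat_lit 0), (nat_lit 0), (nat_lit 0), (nat_lit 0), (nat_lit 260000), [((nat_lit 400), [((nat_lit 42), (nat_lit 0), (nat_lit 1000))])], ⟨(nat_lit 6), false, false, false, (nat_lit 215), (nat_lit 0), (nat_lit 1582), [(nat_lit 1503356), (nat_lit 1510203), (nat_lit 1526014), (nat_lit 1534546), (nat_lit 1545316), (nat_lit 1548686), (nat_lit 1567974), (nat_lit 1573029)]⟩, ⟨(nat_lit 3), false, false, false, (nat_lit 118), (nat_lit 0), (nat_lit 1582), [(nat_lit 1213552), (nat_lit 1223038), (nat_lit 1281527), (nat_lit 1296068), (nat_lit 1297467), (nat_lit 1299999), (nat_lit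 1365448), (nat_lit 1373034)]⟩, (nat_lit 4216726), (nat_lit 46782491), (nat_lit 14573939), (nat_lit 5643570), (nat_lit 0), (nat_lit 0), [⟨(nat_lit 0), (nat_lit 99), (nat_lit 31), (nat_lit 100), (nat_lit 541447869)⟩], [⟨(nat_lit 0), (nat_lit 100), (nat_lit 34), (nat_lit 81), (nat_lit 184338834)⟩], [], [],
 ⟨⟨[(nat_lit 40), (nat_lit 80), (nat_lit 100)], [(nat_lit 0), (nat_lit 3225), (nat_lit 4371)], [((nat_lit 0), (nat_lit 0), (nat_lit 0)), ((nat_lit 1000), (nat_lit 321), (nat_lit 877)), ((nat_lit 1000), (nat_lit 317), (nat_lit 896))], ((nat_lit 31), (nat_lit 100), (nat_lit 94))⟩, (nat_lit 108542), (nat_lit 163), (nat_lit 163), (nat_lit 0), (nat_lit 144457), [(nat_lit 1526400101), (nat_lit 1347454398), (nat_lit 1673600000)], [(nat_lit 0), (nat_lit 0), (nat_lit 0)], [(nat_lit 23252377735), (nat_lit 24118887719), (nat_lit 23986826916), (nat_lit 24905407283), (nat_lit 22973244397), (nat_lit 23661561562), (nat_lit 23643112865), (nat_lit 24328609263)], (nat_lit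 1271251), (nat_lit 1271251), (nat_lit 1184688), (nat_lit 1444376), (nat_lit 356250), (nat_lit 780000), [(nat_lit 490000), (nat_lit 1100000), (nat_lit 1442501)], [(nat_lit 3), (nat_lit 50), (nat_lit 317), (nat_lit 100), (nat_lit 11)]⟩,
 Rw.none,
 Rw.none⟩) (.spl (nat_lit 1) (nat_lit 250) (.leaf ⟨(nat_lit 1000), (nat_lit 0), (nat_lit 0), (nat_lit 0), (nat_lit 5685), (nat_lit 3580), (nat_lit 0), (nat_lit 0), (nat_lit 0), (nat_lit 0), (nat_lit 260000), [((nat_lit 400), [((nat_lit 42), (nat_lit 0), (nat_lit 1000))])], ⟨(nat_lit 6), false, false, false, (nat_lit 213), (nat_lit 0), (nat_lit 1582), [(nat_lit 1503356), (nat_lit 1510203), (nat_lit 1514685), (nat_lit 1522374), (nat_lit 1545316), (nat_lit 1548686), (nat_lit 1556645), (nat_lit 1560857)]⟩, ⟨(nat_lit 3), false, false, false, (nat_lit 144), (nat_lit 0), (nat_lit 1582), [(nat_lit 1297467), (nat_lit 1299999), (nat_lit 1365448), (nat_lit 1373034), (nat_lit 1352101), (nat_lit 1349997), (nat_lit 1421394),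 (nat_lit 1424345)]⟩, (nat_lit 4502084), (nat_lit 45283458), (nat_lit 14095063), (nat_lit 7621479), (nat_lit 0), (nat_lit 0), [⟨(nat_lit 0), (nat_lit 97), (nat_lit 22), (nat_lit 100), (nat_lit 641877317)⟩], [], [], [],
 ⟨⟨[(nat_lit 40), (nat_lit 80), (nat_lit 100)], [(nat_lit 0), (nat_lit 3225), (nat_lit 4371)], [((nat_lit 0), (nat_lit 0), (nat_lit 0)), ((nat_lit 1000), (nat_lit 321), (nat_lit 877)), ((nat_lit 1000), (nat_lit 317), (nat_lit 896))], ((nat_lit 31), (nat_lit 100), (nat_lit 94))⟩, (nat_lit 169689), (nat_lit 140), (nat_lit 140), (nat_lit 0), (nat_lit 155674), [(nat_lit 1526400102), (nat_lit 1432936000), (nat_lit 1673600000)], [(nat_lit 0), (nat_lit 0), (nat_lit 0)], [(nat_lit 22693805610), (nat_lit 23403844956), (nat_lit 23397575559), (nat_lit 24126511460), (nat_lit 22929399893), (nat_lit 23588301761), (nat_lit 23587899443), (nat_lit 24228711941)], (nat_lit 1271251), (nat_lit 1271251), (nat_lit 1184688), (nat_lit 1444376), (nat_lit 780000),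 (nat_lit 1100000), [(nat_lit 490000), (nat_lit 1100000), (nat_lit 1442501)], [(nat_lit 3), (nat_lit 50), (nat_lit 317), (nat_lit 100), (nat_lit 11)]⟩,
 Rw.none,
 Rw.none⟩) (.trZ (nat_lit 0) (nat_lit 1) (nat_lit 3) (nat_lit 97) (nat_lit 31) (nat_lit 100) (nat_lit 180) (.trX (nat_lit 5) (nat_lit 1) (nat_lit 2) (nat_lit 97) (nat_lit 35) (nat_lit 100) (nat_lit 390) (.leaf ⟨(nat_lit 1000), (nat_lit 0), (nat_lit 0), (nat_lit 0), (nat_lit 5515), (nat_lit 3580), (nat_lit 0), (nat_lit 0), (nat_lit 0), (nat_lit 0), (nat_lit 260000), [((nat_lit 400), [((nat_lit 42), (nat_lit 0), (nat_lit 1000))])], ⟨(nat_lit 6), false, true, false, (nat_lit 220), (nat_lit 0), (nat_lit 1582), [(nat_lit 1528672), (nat_lit 1535202), (nat_lit 1540000), (nat_lit 1547373), (nat_lit 1556645), (nat_lit 1560857), (nat_lit 1567974), (nat_lit 1573029)]⟩, ⟨(nat_lit 3), false, false, false, (nat_lit 144), (nat_lit 0), (nat_lit 1582), [(nat_lit 1297467), (nat_lit 1299999), (nat_lit 1365448),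 (nat_lit 1373034), (nat_lit 1352101), (nat_lit 1349997), (nat_lit 1421394), (nat_lit 1424345)]⟩, (nat_lit 4556506), (nat_lit 44652282), (nat_lit 14780167), (nat_lit 7567551), (nat_lit 0), (nat_lit 0), [⟨(nat_lit 0), (nat_lit 97), (nat_lit 31), (nat_lit 100), (nat_lit 774717217)⟩], [], [], [],
 ⟨⟨[(nat_lit 40), (nat_lit 80), (nat_lit 100)], [(nat_lit 0), (nat_lit 3225), (nat_lit 4371)], [((nat_lit 0), (nat_lit 0), (nat_lit 0)), ((nat_lit 1000), (nat_lit 321), (nat_lit 877)), ((nat_lit 1000), (nat_lit 317), (nat_lit 896))], ((nat_lit 31), (nat_lit 100), (nat_lit 94))⟩, (nat_lit 206670), (nat_lit 144), (nat_lit 144), (nat_lit 0), (nat_lit 173385), [(nat_lit 1526400012), (nat_lit 1423487383), (nat_lit 1673600000)], [(nat_lit 0), (nat_lit 0), (nat_lit 0)], [(nat_lit 22766751642), (nat_lit 23613145490), (nat_lit 23279448410), (nat_lit 24126511460), (nat_lit 22987255702), (nat_lit 23731519880), (nat_lit 23426255402), (nat_lit 24228513920)], (nat_lit 1271251),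 (nat_lit 1271251), (nat_lit 1271251), (nat_lit 1271251), (nat_lit 780000), (nat_lit 1100000), [(nat_lit 490000), (nat_lit 1100000), (nat_lit 1442501)], [(nat_lit 3), (nat_lit 50), (nat_lit 317), (nat_lit 100), (nat_lit 11)]⟩,
 Rw.none,
 Rw.none⟩))))) (.trZ (nat_lit 0) (nat_lit 1) (nat_lit 3) (nat_lit 95) (nat_lit 31) (nat_lit 100) (nat_lit 190) (.trX (nat_lit 5) (nat_lit 1) (nat_lit 2) (nat_lit 96) (nat_lit 40) (nat_lit 100) (nat_lit 390) (.spl (nat_lit 4) (nat_lit 120) (.leaf ⟨(nat_lit 1000), (nat_lit 0), (nat_lit 0), (nat_lit 0), (nat_lit 6247), (nat_lit 3695), (nat_lit 0), (nat_lit 0), (nat_lit 0), (nat_lit 0), (nat_lit 260000), [((nat_lit 400), [((nat_lit 42), (nat_lit 0), (nat_lit 1000))])], ⟨(nat_lit 6), false, true, false, (nat_lit 230), (nat_lit 0), (nat_lit 1582), [(nat_lit 1553987), (nat_lit 1560201), (nat_lit 1576645), (nat_lit 1584544), (nat_lit 1567974), (nat_lit 1573029), (nat_lit 1590632), (nat_lit 1597372)]⟩, ⟨(nat_lit 3), false,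 false, false, (nat_lit 118), (nat_lit 0), (nat_lit 1582), [(nat_lit 1213552), (nat_lit 1223038), (nat_lit 1281527), (nat_lit 1296068), (nat_lit 1297467), (nat_lit 1299999), (nat_lit 1365448), (nat_lit 1373034)]⟩, (nat_lit 4327304), (nat_lit 45434233), (nat_lit 15997371), (nat_lit 5568396), (nat_lit 0), (nat_lit 0), [⟨(nat_lit 0), (nat_lit 95), (nat_lit 31), (nat_lit 100), (nat_lit 1420119176)⟩], [⟨(nat_lit 0), (nat_lit 100), (nat_lit 34), (nat_lit 81), (nat_lit 180696677)⟩], [], [],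
 ⟨⟨[(nat_lit 40), (nat_lit 80), (nat_lit 100)], [(nat_lit 0), (nat_lit 3225), (nat_lit 4371)], [((nat_lit 0), (nat_lit 0), (nat_lit 0)), ((nat_lit 1000), (nat_lit 321), (nat_lit 877)), ((nat_lit 1000), (nat_lit 317), (nat_lit 896))], ((nat_lit 31), (nat_lit 100), (nat_lit 94))⟩, (nat_lit 108542), (nat_lit 172), (nat_lit 172), (nat_lit 0), (nat_lit 181745), [(nat_lit 1526400002), (nat_lit 1348401999), (nat_lit 1673600000)], [(nat_lit 0), (nat_lit 0), (nat_lit 0)], [(nat_lit 23742010522), (nat_lit 24643234095), (nat_lit 23986826916), (nat_lit 24905407283), (nat_lit 23419823178), (nat_lit 24106260030), (nat_lit 23643112667), (nat_lit 24328609263)], (nat_lit 1271251), (nat_lit 1271251), (nat_lit 1271251), (nat_lit 1271251), (nat_lit 356250), (nat_lit 780000), [(nat_lit 490000), (nat_lit 1100000), (nat_lit 1442501)], [(nat_lit 3), (nat_lit 50), (nat_lit 317), (nat_lit 100), (nat_lit 11)]⟩,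
 Rw.none,
 Rw.none⟩) (.leaf ⟨(nat_lit 1000), (nat_lit 0), (nat_lit 0), (nat_lit 0), (nat_lit 5213), (nat_lit 3745), (nat_lit 0), (nat_lit 0), (nat_lit 0), (nat_lit 0), (nat_lit 260000), [((nat_lit 400), [((nat_lit 42), (nat_lit 0), (nat_lit 1000))])], ⟨(nat_lit 6), false, true, false, (nat_lit 230), (nat_lit 0), (nat_lit 1582), [(nat_lit 1553987), (nat_lit 1560201), (nat_lit 1576645), (nat_lit 1584544), (nat_lit 1567974), (nat_lit 1573029), (nat_lit 1590632), (nat_lit 1597372)]⟩, ⟨(nat_lit 3), false, false, false, (nat_lit 144), (nat_lit 0), (nat_lit 1582), [(nat_lit 1297467), (nat_lit 1299999), (nat_lit 1365448), (nat_lit 1373034), (nat_lit 1352101), (nat_lit 1349997), (nat_lit 1421394), (nat_lit 1424345)]⟩, (nat_lit 4622681), (nat_lit 43821232), (nat_lit 15686325), (nat_lit 7492443), (nat_lit 0), (nat_lit 0), [⟨(nat_lit 0), (nat_lit 95), (nat_lit 31), (nat_lit 100), (nat_lit 1460881172)⟩], [], [], [],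
 ⟨⟨[(nat_lit 40), (nat_lit 80), (nat_lit 100)], [(nat_lit 0), (nat_lit 3225), (nat_lit 4371)], [((nat_lit 0), (nat_lit 0), (nat_lit 0)), ((nat_lit 1000), (nat_lit 321), (nat_lit 877)), ((nat_lit 1000), (nat_lit 317), (nat_lit 896))], ((nat_lit 31), (nat_lit 100), (nat_lit 94))⟩, (nat_lit 158720), (nat_lit 156), (nat_lit 156), (nat_lit 0), (nat_lit 216713), [(nat_lit 1526400014), (nat_lit 1414862303), (nat_lit 1673600000)], [(nat_lit 0), (nat_lit 0), (nat_lit 0)], [(nat_lit 23190378894), (nat_lit 24074333807), (nat_lit 23462836959), (nat_lit 24330663815), (nat_lit 23362299180), (nat_lit 24149942975), (nat_lit 23575800650), (nat_lit 24397939880)], (nat_lit 1271251), (nat_lit 1271251), (nat_lit 1271251), (nat_lit 1271251), (nat_lit 780000), (nat_lit 1100000), [(nat_lit 490000), (nat_lit 1100000), (nat_lit 1442501)], [(nat_lit 3), (nat_lit 50), (nat_lit 317), (nat_lit 100), (nat_lit 11)]⟩,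
 Rw.none,
 Rw.none⟩)))))))
noncomputable def c14_98 : Tr Lf :=
 (.spl (nat_lit 0) (nat_lit 390) (.spl (nat_lit 1) (nat_lit 260) (.spl (nat_lit 6) (nat_lit 120) (.spl (nat_lit 0) (nat_lit 385) (.spl (nat_lit 6) (nat_lit 108) (.leaf ⟨(nat_lit 0), (nat_lit 1000), (nat_lit 0), (nat_lit 0), (nat_lit 8856), (nat_lit 7381), (nat_lit 8346), (nat_lit 0), (nat_lit 0), (nat_lit 0), (nat_lit 0), [], Pd.none, Pd.none, (nat_lit 0), (nat_lit 1), (nat_lit 0), (nat_lit 0), (nat_lit 3), (nat_lit 0), [], [], [], [],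
 ⟨⟨[(nat_lit 40), (nat_lit 80), (nat_lit 100)], [(nat_lit 0), (nat_lit 2514), (nat_lit 3562)], [((nat_lit 0), (nat_lit 0), (nat_lit 0)), ((nat_lit 1000), (nat_lit 446), (nat_lit 804)), ((nat_lit 1000), (nat_lit 443), (nat_lit 819))], ((nat_lit 44), (nat_lit 100), (nat_lit 89))⟩, (nat_lit 0), (nat_lit 153), (nat_lit 153), (nat_lit 0), (nat_lit 72833), [(nat_lit 2736890890), (nat_lit 4815684114), (nat_lit 6250000000)], [], [(nat_lit 30056450252), (nat_lit 30777682383), (nat_lit 33852263474), (nat_lit 34445940331), (nat_lit 26543113119), (nat_lit 27026860588), (nat_lit 29236336885), (nat_lit 29640814125)], (nat_lit 1271251), (nat_lit 1271251), (nat_lit 1271251), (nat_lit 1271251), (nat_lit 230000), (nat_lit 1100000), [(nat_lit 490000), (nat_lit 1100000), (nat_lit 1442501)], [(nat_lit 3), (nat_lit 50), (nat_lit 249), (nat_lit 40), (nat_lit 8)]⟩,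
 ⟨⟨[(nat_lit 80), (nat_lit 140), (nat_lit 180)], [(nat_lit 0), (nat_lit 0), (nat_lit 3656)], [((nat_lit 0), (nat_lit 0), (nat_lit 0)), ((nat_lit 0), (nat_lit 0), (nat_lit 0)), ((nat_lit 637), (nat_lit 1000), (nat_lit 908))], ((nat_lit 100), (nat_lit 64), (nat_lit 91))⟩, (nat_lit 986516), (nat_lit 397), (nat_lit 397), (nat_lit 0), (nat_lit 173610), [(nat_lit 4688000000), (nat_lit 9842000000), (nat_lit 14058000000)], [], [(nat_lit 42288047100), (nat_lit 43031512677), (nat_lit 44099379160), (nat_lit 44678900893), (nat_lit 36038059196), (nat_lit 36591976771), (nat_lit 37295281380), (nat_lit 37719256352)], (nat_lit 1271251), (nat_lit 1271251), (nat_lit 1271251), (nat_lit 1271251), (nat_lit 0), (nat_lit 1412501), [(nat_lit 1100000), (nat_lit 2127501), (nat_lit 1271251)], [(nat_lit 19), (nat_lit 63), (nat_lit 428), (nat_lit 200), (nat_lit 10)]⟩,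
 Rw.none⟩) (.dle (nat_lit 0))) (.trZ (nat_lit 0) (nat_lit 2) (nat_lit 4) (nat_lit 100) (nat_lit 41) (nat_lit 76) (nat_lit 50) (.leaf ⟨(nat_lit 653), (nat_lit 347), (nat_lit 0), (nat_lit 0), (nat_lit 9141), (nat_lit 4059), (nat_lit 2553), (nat_lit 0), (nat_lit 0), (nat_lit 0), (nat_lit 163250), [((nat_lit 390), [((nat_lit 29), (nat_lit 0), (nat_lit 653))])], ⟨(nat_lit 6), false, true, false, (nat_lit 245), (nat_lit 1581), (nat_lit 1937), [(nat_lit 1545992), (nat_lit 1546601), (nat_lit 1568988), (nat_lit 1569901), (nat_lit 1657798), (nat_lit 1655900), (nat_lit 1680809), (nat_lit 1679215)]⟩, ⟨(nat_lit 3), false, false, false, (nat_lit 124), (nat_lit 1581), (nat_lit 1937), [(nat_lit 1198326), (nat_lit 1201810), (nat_lit 1267315), (nat_lit 1271711), (nat_lit 1352066), (nat_lit 1352103), (nat_lit 1421086), (nat_lit 1422035)]⟩, (nat_lit 4501737), (nat_lit 43685598), (nat_lit 17363825), (nat_lit 5950577), (nat_lit 3), (nat_lit 0), [], [], [], [],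
 ⟨⟨[(nat_lit 40), (nat_lit 80), (nat_lit 100)], [(nat_lit 0), (nat_lit 2833), (nat_lit 3923)], [((nat_lit 0), (nat_lit 0), (nat_lit 0)), ((nat_lit 1000), (nat_lit 389), (nat_lit 842)), ((nat_lit 1000), (nat_lit 387), (nat_lit 852))], ((nat_lit 38), (nat_lit 100), (nat_lit 92))⟩, (nat_lit 379137), (nat_lit 158), (nat_lit 158), (nat_lit 0), (nat_lit 107365), [(nat_lit 1661688528), (nat_lit 2552077207), (nat_lit 3335269200)], [(nat_lit 0), (nat_lit 0), (nat_lit 0)], [(nat_lit 24618978838), (nat_lit 25005907115), (nat_lit 27551057960), (nat_lit 27960591924), (nat_lit 23993766092), (nat_lit 24327977514), (nat_lit 26331684315), (nat_lit 26623513365)], (nat_lit 1271251), (nat_lit 1271251), (nat_lit 1271251), (nat_lit 1271251), (nat_lit 292188), (nat_lit 1100000), [(nat_lit 490000), (nat_lit 1100000), (nat_lit 1442501)], [(nat_lit 3), (nat_lit 50), (nat_lit 249), (nat_lit 40), (nat_lit 8)]⟩,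
 ⟨⟨[(nat_lit 80), (nat_lit 140), (nat_lit 200)], [(nat_lit 0), (nat_lit 0), (nat_lit 5481)], [((nat_lit 0), (nat_lit 0), (nat_lit 0)), ((nat_lit 0), (nat_lit 0), (nat_lit 0)), ((nat_lit 637), (nat_lit 1000), (nat_lit 908))], ((nat_lit 0), (nat_lit 0), (nat_lit 0))⟩, (nat_lit 722654), (nat_lit 494), (nat_lit 494), (nat_lit 0), (nat_lit 261861), [(nat_lit 1626736000), (nat_lit 3415174000), (nat_lit 5690800000)], [], [(nat_lit 13979095884), (nat_lit 14183131948), (nat_lit 14454182738), (nat_lit 14613690541), (nat_lit 12723144910), (nat_lit 12146164408), (nat_lit 12325949083), (nat_lit 12444333043)], (nat_lit 1271251), (nat_lit 1271251), (nat_lit 1271251), (nat_lit 1271251), (nat_lit 0), (nat_lit 1412501), [(nat_lit 1100000), (nat_lit 2127501), (nat_lit 1271251)], [(nat_lit 20), (nat_lit 64), (nat_lit 428), (nat_lit 200), (nat_lit 9)]⟩,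
 Rw.none⟩))) (.dle (nat_lit 0))) (.leaf ⟨(nat_lit 85), (nat_lit 915), (nat_lit 0), (nat_lit 0), (nat_lit 7670), (nat_lit 5902), (nat_lit 7345), (nat_lit 0), (nat_lit 0), (nat_lit 0), (nat_lit 340000), [((nat_lit 390), [((nat_lit 43), (nat_lit 5), (nat_lit 85))])], ⟨(nat_lit 6), false, true, false, (nat_lit 255), (nat_lit 1581), (nat_lit 2237), [(nat_lit 1568186), (nat_lit 1569808), (nat_lit 1590915), (nat_lit 1593078), (nat_lit 1682352), (nat_lit 1679215), (nat_lit 1705117), (nat_lit 1702521)]⟩, ⟨(nat_lit 3), false, false, false, (nat_lit 121), (nat_lit 1581), (nat_lit 2237), [(nat_lit 1180680), (nat_lit 1188036), (nat_lit 1248867), (nat_lit 1257845), (nat_lit 1351886), (nat_lit 1352103), (nat_lit 1420170), (nat_lit 1422009)]⟩, (nat_lit 4517265), (nat_lit 43034731), (nat_lit 18298864), (nat_lit 5666405), (nat_lit 3), (nat_lit 0), [⟨(nat_lit 0), (nat_lit 92), (nat_lit 31), (nat_lit 100), (nat_lit 448709418)⟩], [], [], [],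
 ⟨⟨[(nat_lit 40), (nat_lit 80), (nat_lit 120)], [(nat_lit 0), (nat_lit 2514), (nat_lit 4610)], [((nat_lit 0), (nat_lit 0), (nat_lit 0)), ((nat_lit 1000), (nat_lit 446), (nat_lit 804)), ((nat_lit 1000), (nat_lit 443), (nat_lit 819))], ((nat_lit 44), (nat_lit 100), (nat_lit 95))⟩, (nat_lit 5377), (nat_lit 196), (nat_lit 196), (nat_lit 0), (nat_lit 157478), [(nat_lit 2094564881), (nat_lit 2594719624), (nat_lit 2702386000)], [(nat_lit 0), (nat_lit 0), (nat_lit 0)], [(nat_lit 27529170178), (nat_lit 28766393056), (nat_lit 31040390523), (nat_lit 32065983604), (nat_lit 24763580875), (nat_lit 25538697869), (nat_lit 27652405881), (nat_lit 28549346053)], (nat_lit 1271251), (nat_lit 1271251), (nat_lit 1271251), (nat_lit 1271251), (nat_lit 230000), (nat_lit 1100000), [(nat_lit 490000), (nat_lit 1100000), (nat_lit 1785001)], [(nat_lit 4), (nat_lit 51), (nat_lit 345), (nat_lit 125), (nat_lit 10)]⟩,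
 ⟨⟨[(nat_lit 80), (nat_lit 140), (nat_lit 180)], [(nat_lit 0), (nat_lit 792), (nat_lit 4228)], [((nat_lit 0), (nat_lit 0), (nat_lit 0)), ((nat_lit 1000), (nat_lit 959), (nat_lit 206)), ((nat_lit 709), (nat_lit 1000), (nat_lit 949))], ((nat_lit 100), (nat_lit 64), (nat_lit 99))⟩, (nat_lit 1778174), (nat_lit 458), (nat_lit 458), (nat_lit 0), (nat_lit 325946), [(nat_lit 4289520000), (nat_lit 9005430000), (nat_lit 12863070000)], [], [(nat_lit 33909001220), (nat_lit 34580488220), (nat_lit 35422238143), (nat_lit 35948458945), (nat_lit 28358313996), (nat_lit 28861176035), (nat_lit 29408056767), (nat_lit 29795958073)], (nat_lit 1271251), (nat_lit 1271251), (nat_lit 1271251), (nat_lit 1271251), (nat_lit 0), (nat_lit 1412501), [(nat_lit 1100000), (nat_lit 2127501), (nat_lit 1271251)], [(nat_lit 19), (nat_lit 63), (nat_lit 428), (nat_lit 200), (nat_lit 10)]⟩,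
 Rw.none⟩)) (.trZ (nat_lit 0) (nat_lit 2) (nat_lit 4) (nat_lit 100) (nat_lit 34) (nat_lit 81) (nat_lit 60) (.spl (nat_lit 2) (nat_lit 160) (.spl (nat_lit 5) (nat_lit 120) (.spl (nat_lit 6) (nat_lit 112) (.leaf ⟨(nat_lit 469), (nat_lit 531), (nat_lit 0), (nat_lit 0), (nat_lit 0), (nat_lit 3968), (nat_lit 3624), (nat_lit 0), (nat_lit 0), (nat_lit 0), (nat_lit 117250), [((nat_lit 400), [((nat_lit 29), (nat_lit 0), (nat_lit 469))])], ⟨(nat_lit 6), false, true, false, (nat_lit 250), (nat_lit 0), (nat_lit 1582), [(nat_lit 1545316), (nat_lit 1548686), (nat_lit 1590632), (nat_lit 1597372), (nat_lit 1655899), (nat_lit 1649997), (nat_lit 1702515), (nat_lit 1699984)]⟩, ⟨(nat_lit 3), false, false, false, (nat_lit 123), (nat_lit 0), (nat_lit 1582), [(nat_lit 1213552), (nat_lit 1223038), (nat_lit 1258869), (nat_lit 1271724), (nat_lit 1352101), (nat_lit 1349997), (nat_lit 1398733), (nat_lit 1399999)]⟩, (nat_lit 4515767), (nat_lit 43357474), (nat_lit 17783982),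 (nat_lit 5858544), (nat_lit 3), (nat_lit 0), [⟨(nat_lit 0), (nat_lit 96), (nat_lit 22), (nat_lit 100), (nat_lit 185056529)⟩], [⟨(nat_lit 1), (nat_lit 100), (nat_lit 22), (nat_lit 96), (nat_lit 8295677)⟩], [], [],
 ⟨⟨[(nat_lit 40), (nat_lit 80), (nat_lit 100)], [(nat_lit 0), (nat_lit 3225), (nat_lit 4371)], [((nat_lit 0), (nat_lit 0), (nat_lit 0)), ((nat_lit 1000), (nat_lit 321), (nat_lit 877)), ((nat_lit 1000), (nat_lit 317), (nat_lit 896))], ((nat_lit 32), (nat_lit 100), (nat_lit 91))⟩, (nat_lit 552113), (nat_lit 193), (nat_lit 193), (nat_lit 0), (nat_lit 213882), [(nat_lit 1687879086), (nat_lit 3134861380), (nat_lit 4156571600)], [(nat_lit 0), (nat_lit 0), (nat_lit 0)], [(nat_lit 24586107089), (nat_lit 25374157428), (nat_lit 27401731329), (nat_lit 28206033348), (nat_lit 24256753131), (nat_lit 24931015053), (nat_lit 26545737983), (nat_lit 27245951216)], (nat_lit 1271251), (nat_lit 1271251), (nat_lit 1271251), (nat_lit 1271251), (nat_lit 356250),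 (nat_lit 1100000), [(nat_lit 490000), (nat_lit 1100000), (nat_lit 1442501)], [(nat_lit 3), (nat_lit 50), (nat_lit 249), (nat_lit 40), (nat_lit 8)]⟩,
 ⟨⟨[(nat_lit 80), (nat_lit 140), (nat_lit 180)], [(nat_lit 0), (nat_lit 0), (nat_lit 3656)], [((nat_lit 0), (nat_lit 0), (nat_lit 0)), ((nat_lit 0), (nat_lit 0), (nat_lit 0)), ((nat_lit 637), (nat_lit 1000), (nat_lit 908))], ((nat_lit 100), (nat_lit 62), (nat_lit 92))⟩, (nat_lit 1078198), (nat_lit 491), (nat_lit 491), (nat_lit 0), (nat_lit 406048), [(nat_lit 2489328000), (nat_lit 5226102000), (nat_lit 7464798000)], [], [(nat_lit 20993789512), (nat_lit 21640726117), (nat_lit 21864789736), (nat_lit 22457850844), (nat_lit 19250633463), (nat_lit 19846674920), (nat_lit 20061773511), (nat_lit 20542311833)], (nat_lit 1271251), (nat_lit 1271251), (nat_lit 1271251), (nat_lit 1271251), (nat_lit 0), (nat_lit 780000), [(nat_lit 1100000), (nat_lit 2127501), (nat_lit 1271251)], [(nat_lit 19), (nat_lit 63), (nat_lit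 401), (nat_lit 175), (nat_lit 9)]⟩,
 Rw.none⟩) (.leaf ⟨(nat_lit 0), (nat_lit 1000), (nat_lit 0), (nat_lit 0), (nat_lit 11089), (nat_lit 7161), (nat_lit 6728), (nat_lit 0), (nat_lit 0), (nat_lit 0), (nat_lit 0), [], Pd.none, Pd.none, (nat_lit 0), (nat_lit 1), (nat_lit 0), (nat_lit 0), (nat_lit 3), (nat_lit 0), [⟨(nat_lit 0), (nat_lit 96), (nat_lit 22), (nat_lit 100), (nat_lit 802814944)⟩], [], [], [],
 ⟨⟨[(nat_lit 40), (nat_lit 80), (nat_lit 100)], [(nat_lit 0), (nat_lit 3225), (nat_lit 4371)], [((nat_lit 0), (nat_lit 0), (nat_lit 0)), ((nat_lit 1000), (nat_lit 321), (nat_lit 877)), ((nat_lit 1000), (nat_lit 317), (nat_lit 896))], ((nat_lit 31), (nat_lit 100), (nat_lit 94))⟩, (nat_lit 0), (nat_lit 160), (nat_lit 160), (nat_lit 0), (nat_lit 123113), [(nat_lit 2609636795), (nat_lit 4740458112), (nat_lit 6250000000)], [], [(nat_lit 29737940920), (nat_lit 30856645394), (nat_lit 32978958998), (nat_lit 34127566796), (nat_lit 27591366646), (nat_lit 28539959952),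 (nat_lit 30110212375), (nat_lit 30904246564)], (nat_lit 1271251), (nat_lit 1271251), (nat_lit 1271251), (nat_lit 1271251), (nat_lit 356250), (nat_lit 1100000), [(nat_lit 490000), (nat_lit 1100000), (nat_lit 1442501)], [(nat_lit 3), (nat_lit 50), (nat_lit 249), (nat_lit 40), (nat_lit 8)]⟩,
 ⟨⟨[(nat_lit 80), (nat_lit 140), (nat_lit 200)], [(nat_lit 0), (nat_lit 0), (nat_lit 5481)], [((nat_lit 0), (nat_lit 0), (nat_lit 0)), ((nat_lit 0), (nat_lit 0), (nat_lit 0)), ((nat_lit 637), (nat_lit 1000), (nat_lit 908))], ((nat_lit 0), (nat_lit 0), (nat_lit 0))⟩, (nat_lit 2364661), (nat_lit 484), (nat_lit 484), (nat_lit 0), (nat_lit 236426), [(nat_lit 4688000000), (nat_lit 9842000000), (nat_lit 16400000000)], [], [(nat_lit 38959621747), (nat_lit 40115722107), (nat_lit 40745716016), (nat_lit 41999275136), (nat_lit 35210253152), (nat_lit 36573913112), (nat_lit 37118830112), (nat_lit 38225050588)], (nat_lit 1271251), (nat_lit 1271251), (nat_lit 1271251), (nat_lit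 1271251), (nat_lit 0), (nat_lit 780000), [(nat_lit 1100000), (nat_lit 2127501), (nat_lit 1271251)], [(nat_lit 20), (nat_lit 64), (nat_lit 401), (nat_lit 175), (nat_lit 8)]⟩,
 Rw.none⟩)) (.spl (nat_lit 0) (nat_lit 395) (.leaf ⟨(nat_lit 655), (nat_lit 305), (nat_lit 0), (nat_lit 40), (nat_lit 0), (nat_lit 3849), (nat_lit 3726), (nat_lit 653), (nat_lit 0), (nat_lit 0), (nat_lit 170300), [((nat_lit 395), [((nat_lit 42), (nat_lit 0), (nat_lit 655))])], ⟨(nat_lit 6), false, true, false, (nat_lit 250), (nat_lit 1118), (nat_lit 1582), [(nat_lit 1546564), (nat_lit 1547436), (nat_lit 1593129), (nat_lit 1594873), (nat_lit 1655900), (nat_lit 1653755), (nat_lit 1702528), (nat_lit 1701254)]⟩, ⟨(nat_lit 3), false, false, false, (nat_lit 123), (nat_lit 1118), (nat_lit 1582), [(nat_lit 1215422), (nat_lit 1218958), (nat_lit 1261986), (nat_lit 1266394), (nat_lit 1352103), (nat_lit 1351868), (nat_lit 1398733), (nat_lit 1399370)]⟩, (nat_lit 4515400), (nat_lit 43343815),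 (nat_lit 17810257), (nat_lit 5845928), (nat_lit 3), (nat_lit 0), [], [], [], [],
 ⟨⟨[(nat_lit 40), (nat_lit 80), (nat_lit 100)], [(nat_lit 0), (nat_lit 3225), (nat_lit 4371)], [((nat_lit 0), (nat_lit 0), (nat_lit 0)), ((nat_lit 1000), (nat_lit 321), (nat_lit 877)), ((nat_lit 1000), (nat_lit 317), (nat_lit 896))], ((nat_lit 31), (nat_lit 100), (nat_lit 94))⟩, (nat_lit 376480), (nat_lit 174), (nat_lit 174), (nat_lit 0), (nat_lit 185856), [(nat_lit 1620102035), (nat_lit 2467550067), (nat_lit 3252458000)], [(nat_lit 0), (nat_lit 0), (nat_lit 0)], [(nat_lit 24425642357), (nat_lit 24799134507), (nat_lit 27193873487), (nat_lit 27589608526), (nat_lit 24202899940), (nat_lit 24496033359), (nat_lit 26444432591), (nat_lit 26757042856)], (nat_lit 1271251), (nat_lit 1271251), (nat_lit 1271251), (nat_lit 1271251), (nat_lit 356250), (nat_lit 1100000), [(nat_lit 490000), (nat_lit 1100000), (nat_lit 1442501)], [(nat_lit 3), (nat_lit 50), (nat_lit 249), (nat_lit 40),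 (nat_lit 8)]⟩,
 ⟨⟨[(nat_lit 80), (nat_lit 140), (nat_lit 200)], [(nat_lit 0), (nat_lit 0), (nat_lit 5481)], [((nat_lit 0), (nat_lit 0), (nat_lit 0)), ((nat_lit 0), (nat_lit 0), (nat_lit 0)), ((nat_lit 637), (nat_lit 1000), (nat_lit 908))], ((nat_lit 0), (nat_lit 0), (nat_lit 0))⟩, (nat_lit 372393), (nat_lit 459), (nat_lit 459), (nat_lit 0), (nat_lit 408581), [(nat_lit 1617360000), (nat_lit 3395490000), (nat_lit 5658000000)], [], [(nat_lit 12458385597), (nat_lit 12847255487), (nat_lit 12805865457), (nat_lit 13084800821), (nat_lit 12261678396), (nat_lit 12267075335), (nat_lit 12181208388), (nat_lit 12509521497)], (nat_lit 1271251), (nat_lit 1271251), (nat_lit 1271251), (nat_lit 1271251), (nat_lit 780000), (nat_lit 1435001), [(nat_lit 1100000), (nat_lit 2127501), (nat_lit 1271251)], [(nat_lit 20), (nat_lit 64), (nat_lit 428), (nat_lit 200), (nat_lit 9)]⟩,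
 ⟨⟨[(nat_lit 140), (nat_lit 180), (nat_lit 200)], [(nat_lit 0), (nat_lit 0), (nat_lit 2835)], [((nat_lit 0), (nat_lit 0), (nat_lit 0)), ((nat_lit 0), (nat_lit 0), (nat_lit 0)), ((nat_lit 363), (nat_lit 1000), (nat_lit 798))], ((nat_lit 0), (nat_lit 0), (nat_lit 0))⟩, (nat_lit 11005), (nat_lit 300), (nat_lit 1475), (nat_lit 3124005), (nat_lit 2218670), [(nat_lit 393680000), (nat_lit 562320000), (nat_lit 656000000)], [], [(nat_lit 2488655379), (nat_lit 2378027419), (nat_lit 2127817692), (nat_lit 2020474742), (nat_lit 2293139427), (nat_lit 2197442041), (nat_lit 2298868998), (nat_lit 2570397728)], (nat_lit 780000), (nat_lit 1100000), (nat_lit 356250), (nat_lit 1100000), (nat_lit 780000), (nat_lit 1435001), [(nat_lit 1977501), (nat_lit 1271251), (nat_lit 1271251)], [(nat_lit 32), (nat_lit 67), (nat_lit 434), (nat_lit 150), (nat_lit 9)]⟩⟩) (.trZ (nat_lit 0) (nat_lit 2) (nat_lit 4) (nat_lit 100) (nat_lit 24) (nat_lit 88) (nat_lit 80) (.leaf ⟨(nat_lit 783),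 (nat_lit 186), (nat_lit 0), (nat_lit 31), (nat_lit 0), (nat_lit 3832), (nat_lit 2344), (nat_lit 411), (nat_lit 0), (nat_lit 0), (nat_lit 203580), [((nat_lit 400), [((nat_lit 42), (nat_lit 0), (nat_lit 783))])], ⟨(nat_lit 6), false, true, false, (nat_lit 250), (nat_lit 0), (nat_lit 1119), [(nat_lit 1546570), (nat_lit 1549069), (nat_lit 1593142), (nat_lit 1598139), (nat_lit 1653753), (nat_lit 1649996), (nat_lit 1701253), (nat_lit 1699996)]⟩, ⟨(nat_lit 3), false, false, false, (nat_lit 129), (nat_lit 0), (nat_lit 1119), [(nat_lit 1244686), (nat_lit 1249071), (nat_lit 1291258), (nat_lit 1298141), (nat_lit 1351866), (nat_lit 1349997), (nat_lit 1399370), (nat_lit 1399999)]⟩, (nat_lit 4580048), (nat_lit 43026811), (nat_lit 17711278), (nat_lit 6261911), (nat_lit 3), (nat_lit 0), [], [], [], [],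
 ⟨⟨[(nat_lit 40), (nat_lit 80), (nat_lit 100)], [(nat_lit 0), (nat_lit 3758), (nat_lit 4955)], [((nat_lit 0), (nat_lit 0), (nat_lit 0)), ((nat_lit 1000), (nat_lit 228), (nat_lit 923)), ((nat_lit 1000), (nat_lit 226), (nat_lit 935))], ((nat_lit 22), (nat_lit 100), (nat_lit 95))⟩, (nat_lit 199101), (nat_lit 171), (nat_lit 171), (nat_lit 0), (nat_lit 214645), [(nat_lit 1585337233), (nat_lit 2033630007), (nat_lit 2666678800)], [(nat_lit 0), (nat_lit 0), (nat_lit 0)], [(nat_lit 24318690878), (nat_lit 24685896465), (nat_lit 26814296125), (nat_lit 27204336160), (nat_lit 24574812930), (nat_lit 24906101569), (nat_lit 26806850176), (nat_lit 27091222384)], (nat_lit 1271251), (nat_lit 1271251), (nat_lit 1271251), (nat_lit 1271251), (nat_lit 490000), (nat_lit 1100000), [(nat_lit 490000), (nat_lit 1100000), (nat_lit 1442501)], [(nat_lit 3), (nat_lit 50), (nat_lit 249), (nat_lit 40), (nat_lit 8)]⟩,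
 ⟨⟨[(nat_lit 80), (nat_lit 140), (nat_lit 200)], [(nat_lit 0), (nat_lit 0), (nat_lit 5481)], [((nat_lit 0), (nat_lit 0), (nat_lit 0)), ((nat_lit 0), (nat_lit 0), (nat_lit 0)), ((nat_lit 637), (nat_lit 1000), (nat_lit 908))], ((nat_lit 0), (nat_lit 0), (nat_lit 0))⟩, (nat_lit 379661), (nat_lit 488), (nat_lit 488), (nat_lit 0), (nat_lit 481605), [(nat_lit 1017296000), (nat_lit 2135714000), (nat_lit 3558800000)], [], [(nat_lit 7038516657), (nat_lit 7283118646), (nat_lit 7257051105), (nat_lit 7432786821), (nat_lit 7712199896), (nat_lit 6918077971), (nat_lit 6864031452), (nat_lit 7071080276)], (nat_lit 1271251), (nat_lit 1271251), (nat_lit 1271251), (nat_lit 1271251), (nat_lit 780000), (nat_lit 1435001), [(nat_lit 1100000), (nat_lit 2127501), (nat_lit 1271251)], [(nat_lit 20), (nat_lit 64), (nat_lit 428), (nat_lit 200), (nat_lit 9)]⟩,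
 ⟨⟨[(nat_lit 140), (nat_lit 180), (nat_lit 200)], [(nat_lit 0), (nat_lit 0), (nat_lit 2835)], [((nat_lit 0), (nat_lit 0), (nat_lit 0)), ((nat_lit 0), (nat_lit 0), (nat_lit 0)), ((nat_lit 363), (nat_lit 1000), (nat_lit 798))], ((nat_lit 0), (nat_lit 0), (nat_lit 0))⟩, (nat_lit 8529), (nat_lit 300), (nat_lit 1658), (nat_lit 2421102), (nat_lit 2637791), [(nat_lit 305102000), (nat_lit 435798000), (nat_lit 508400000)], [], [(nat_lit 1979379730), (nat_lit 1911218368), (nat_lit 1826560102), (nat_lit 1762393100), (nat_lit 1862051710), (nat_lit 1796905344), (nat_lit 1719729078), (nat_lit 1898084588)], (nat_lit 780000), (nat_lit 1100000), (nat_lit 490000), (nat_lit 1100000), (nat_lit 780000), (nat_lit 1435001), [(nat_lit 1977501), (nat_lit 1271251), (nat_lit 1271251)], [(nat_lit 32), (nat_lit 67), (nat_lit 480), (nat_lit 150), (nat_lit 10)]⟩⟩)))) (.trZ (nat_lit 0) (nat_lit 2) (nat_lit 4) (nat_lit 100) (nat_lit 32) (nat_lit 89) (nat_lit 100) (.spl (nat_lit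 6) (nat_lit 120) (.leaf ⟨(nat_lit 655), (nat_lit 330), (nat_lit 0), (nat_lit 15), (nat_lit 7290), (nat_lit 3686), (nat_lit 2366), (nat_lit 232), (nat_lit 0), (nat_lit 0), (nat_lit 163750), [((nat_lit 400), [((nat_lit 29), (nat_lit 0), (nat_lit 655))])], ⟨(nat_lit 6), false, true, false, (nat_lit 250), (nat_lit 0), (nat_lit 1582), [(nat_lit 1545316), (nat_lit 1548686), (nat_lit 1590632), (nat_lit 1597372), (nat_lit 1655899), (nat_lit 1649997), (nat_lit 1702515), (nat_lit 1699984)]⟩, ⟨(nat_lit 4), false, false, false, (nat_lit 148), (nat_lit 0), (nat_lit 1582), [(nat_lit 1314816), (nat_lit 1323036), (nat_lit 1337475), (nat_lit 1347379), (nat_lit 1398733), (nat_lit 1399999), (nat_lit 1421394), (nat_lit 1424345)]⟩, (nat_lit 4776928), (nat_lit 41940668), (nat_lit 17423128), (nat_lit 7636204), (nat_lit 4), (nat_lit 0), [⟨(nat_lit 0), (nat_lit 96), (nat_lit 22), (nat_lit 100), (nat_lit 38228244)⟩], [], [], [],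
 ⟨⟨[(nat_lit 40), (nat_lit 80), (nat_lit 100)], [(nat_lit 0), (nat_lit 3225), (nat_lit 4371)], [((nat_lit 0), (nat_lit 0), (nat_lit 0)), ((nat_lit 1000), (nat_lit 321), (nat_lit 877)), ((nat_lit 1000), (nat_lit 317), (nat_lit 896))], ((nat_lit 31), (nat_lit 100), (nat_lit 92))⟩, (nat_lit 422162), (nat_lit 138), (nat_lit 138), (nat_lit 0), (nat_lit 117571), [(nat_lit 1644206077), (nat_lit 2800034218), (nat_lit 3326342000)], [(nat_lit 0), (nat_lit 0), (nat_lit 0)], [(nat_lit 23840624228), (nat_lit 24543070281), (nat_lit 26269755572), (nat_lit 26960521493), (nat_lit 24135953232), (nat_lit 24748090650), (nat_lit 26366741135), (nat_lit 26925116432)], (nat_lit 1271251), (nat_lit 1271251), (nat_lit 1271251), (nat_lit 1271251), (nat_lit 631250), (nat_lit 1100000), [(nat_lit 490000), (nat_lit 1100000), (nat_lit 1442501)], [(nat_lit 3), (nat_lit 50), (nat_lit 249), (nat_lit 40), (nat_lit 8)]⟩,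
 ⟨⟨[(nat_lit 80), (nat_lit 140), (nat_lit 200)], [(nat_lit 0), (nat_lit 0), (nat_lit 5481)], [((nat_lit 0), (nat_lit 0), (nat_lit 0)), ((nat_lit 0), (nat_lit 0), (nat_lit 0)), ((nat_lit 637), (nat_lit 1000), (nat_lit 908))], ((nat_lit 0), (nat_lit 0), (nat_lit 0))⟩, (nat_lit 774620), (nat_lit 495), (nat_lit 495), (nat_lit 0), (nat_lit 265132), [(nat_lit 1617360000), (nat_lit 3395490000), (nat_lit 5658000000)], [], [(nat_lit 13651135966), (nat_lit 14051408431), (nat_lit 14132851030), (nat_lit 14454586932), (nat_lit 12759261036), (nat_lit 12527693644), (nat_lit 12668639994), (nat_lit 12994638918)], (nat_lit 1271251), (nat_lit 1271251), (nat_lit 1271251), (nat_lit 1271251), (nat_lit 0), (nat_lit 1412501), [(nat_lit 1100000), (nat_lit 2127501), (nat_lit 1271251)], [(nat_lit 20), (nat_lit 64), (nat_lit 428), (nat_lit 200), (nat_lit 9)]⟩,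
 ⟨⟨[(nat_lit 120), (nat_lit 160), (nat_lit 200)], [(nat_lit 0), (nat_lit 0), (nat_lit 3198)], [((nat_lit 0), (nat_lit 0), (nat_lit 0)), ((nat_lit 0), (nat_lit 0), (nat_lit 0)), ((nat_lit 572), (nat_lit 1000), (nat_lit 714))], ((nat_lit 0), (nat_lit 0), (nat_lit 0))⟩, (nat_lit 7317), (nat_lit 300), (nat_lit 871), (nat_lit 1113002), (nat_lit 801724), [(nat_lit 119520000), (nat_lit 178080000), (nat_lit 246000000)], [], [(nat_lit 1015638288), (nat_lit 1006110558), (nat_lit 946448784), (nat_lit 939707056), (nat_lit 746892882), (nat_lit 736546886), (nat_lit 754875020), (nat_lit 813978076)], (nat_lit 1100000), (nat_lit 1271251), (nat_lit 631250), (nat_lit 1100000), (nat_lit 0), (nat_lit 1412501), [(nat_lit 1695001), (nat_lit 1271251), (nat_lit 1271251)], [(nat_lit 29), (nat_lit 66), (nat_lit 373), (nat_lit 150), (nat_lit 8)]⟩⟩) (.dle (nat_lit 0)))))))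
noncomputable def c14_99 : Tr Lf :=
 (.leaf ⟨(nat_lit 0), (nat_lit 930), (nat_lit 0), (nat_lit 70), (nat_lit 12013), (nat_lit 4343), (nat_lit 5867), (nat_lit 809), (nat_lit 0), (nat_lit 0), (nat_lit 0), [], Pd.none, Pd.none, (nat_lit 0), (nat_lit 1), (nat_lit 0), (nat_lit 0), (nat_lit 5), (nat_lit 0), [⟨(nat_lit 0), (nat_lit 95), (nat_lit 31), (nat_lit 100), (nat_lit 555360332)⟩], [], [⟨(nat_lit 1), (nat_lit 55), (nat_lit 99), (nat_lit 100), (nat_lit 448062993)⟩], [],
 ⟨⟨[(nat_lit 40), (nat_lit 80), (nat_lit 120)], [(nat_lit 0), (nat_lit 2514), (nat_lit 4610)], [((nat_lit 0), (nat_lit 0), (nat_lit 0)), ((nat_lit 1000), (nat_lit 446), (nat_lit 804)), ((nat_lit 1000), (nat_lit 443), (nat_lit 819))], ((nat_lit 44), (nat_lit 100), (nat_lit 95))⟩, (nat_lit 1387732), (nat_lit 250), (nat_lit 250), (nat_lit 0), (nat_lit 219565), [(nat_lit 2032000041), (nat_lit 5017821772), (nat_lit 7968000000)], [], [(nat_lit 25550021130), (nat_lit 27045533149), (nat_lit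 28076421672), (nat_lit 29786587106), (nat_lit 24481121935), (nat_lit 25640393594), (nat_lit 26541241606), (nat_lit 27672593216)], (nat_lit 1271251), (nat_lit 1271251), (nat_lit 1271251), (nat_lit 1271251), (nat_lit 230000), (nat_lit 1100000), [(nat_lit 490000), (nat_lit 1100000), (nat_lit 1785001)], [(nat_lit 4), (nat_lit 51), (nat_lit 345), (nat_lit 125), (nat_lit 10)]⟩,
 ⟨⟨[(nat_lit 80), (nat_lit 140), (nat_lit 200)], [(nat_lit 0), (nat_lit 0), (nat_lit 5481)], [((nat_lit 0), (nat_lit 0), (nat_lit 0)), ((nat_lit 0), (nat_lit 0), (nat_lit 0)), ((nat_lit 637), (nat_lit 1000), (nat_lit 908))], ((nat_lit 0), (nat_lit 0), (nat_lit 0))⟩, (nat_lit 0), (nat_lit 109), (nat_lit 109), (nat_lit 0), (nat_lit 0), [(nat_lit 4688000000), (nat_lit 9842000000), (nat_lit 16400000000)], [], [(nat_lit 15247152092), (nat_lit 18055357573), (nat_lit 19588216946), (nat_lit 21889219921), (nat_lit 28333939272), (nat_lit 30025217067), (nat_lit 30643967830), (nat_lit 32048980399)],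 (nat_lit 0), (nat_lit 0), (nat_lit 0), (nat_lit 0), (nat_lit 0), (nat_lit 0), [], [(nat_lit 20), (nat_lit 64), (nat_lit 483), (nat_lit 250), (nat_lit 10)]⟩,
 ⟨⟨[(nat_lit 140), (nat_lit 180), (nat_lit 200)], [(nat_lit 0), (nat_lit 0), (nat_lit 2835)], [((nat_lit 0), (nat_lit 0), (nat_lit 0)), ((nat_lit 0), (nat_lit 0), (nat_lit 0)), ((nat_lit 363), (nat_lit 1000), (nat_lit 798))], ((nat_lit 0), (nat_lit 0), (nat_lit 0))⟩, (nat_lit 19259), (nat_lit 300), (nat_lit 1644), (nat_lit 5467004), (nat_lit 2637791), [(nat_lit 688940000), (nat_lit 984060000), (nat_lit 1148000000)], [], [(nat_lit 4846593326), (nat_lit 4660119469), (nat_lit 4343155558), (nat_lit 4161468488), (nat_lit 4639208482), (nat_lit 4448596042), (nat_lit 4074759576), (nat_lit 3885697354)], (nat_lit 780000), (nat_lit 1271251), (nat_lit 230000), (nat_lit 1100000), (nat_lit 1271251), (nat_lit 1271251), [(nat_lit 1977501), (nat_lit 1271251), (nat_lit 1271251)], [(nat_lit 32), (nat_lit 67), (nat_lit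 504), (nat_lit 200), (nat_lit 11)]⟩⟩)
noncomputable def c14_100 : Tr Lf :=
 (.spl (nat_lit 4) (nat_lit 120) (.trX (nat_lit 5) (nat_lit 3) (nat_lit 4) (nat_lit 100) (nat_lit 40) (nat_lit 92) (nat_lit 390) (.spl (nat_lit 0) (nat_lit 390) (.leaf ⟨(nat_lit 22), (nat_lit 464), (nat_lit 0), (nat_lit 514), (nat_lit 2648), (nat_lit 3839), (nat_lit 11129), (nat_lit 8274), (nat_lit 0), (nat_lit 0), (nat_lit 88000), [((nat_lit 390), [((nat_lit 43), (nat_lit 5), (nat_lit 22))])], ⟨(nat_lit 6), false, true, false, (nat_lit 250), (nat_lit 1581), (nat_lit 2237), [(nat_lit 1545457), (nat_lit 1546538), (nat_lit 1590915), (nat_lit 1593078), (nat_lit 1659578), (nat_lit 1655900), (nat_lit 1705117), (nat_lit 1702521)]⟩, ⟨(nat_lit 3), false, false, false, (nat_lit 110), (nat_lit 1581), (nat_lit 2237), [(nat_lit 1180680), (nat_lit 1188036), (nat_lit 1248867), (nat_lit 1257845), (nat_lit 1294870), (nat_lit 1297467), (nat_lit 1363068), (nat_lit 1367287)]⟩, (nat_lit 4363500),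 (nat_lit 44051036), (nat_lit 18001308), (nat_lit 4947656), (nat_lit 5), (nat_lit 0), [], [⟨(nat_lit 0), (nat_lit 100), (nat_lit 48), (nat_lit 71), (nat_lit 1105973746)⟩], [], [],
 ⟨⟨[(nat_lit 40), (nat_lit 80), (nat_lit 120)], [(nat_lit 0), (nat_lit 2514), (nat_lit 4610)], [((nat_lit 0), (nat_lit 0), (nat_lit 0)), ((nat_lit 1000), (nat_lit 446), (nat_lit 804)), ((nat_lit 1000), (nat_lit 443), (nat_lit 819))], ((nat_lit 44), (nat_lit 100), (nat_lit 95))⟩, (nat_lit 1334471), (nat_lit 175), (nat_lit 175), (nat_lit 0), (nat_lit 76640), [(nat_lit 1823484001), (nat_lit 4453388652), (nat_lit 6605135200)], [(nat_lit 0), (nat_lit 0), (nat_lit 0)], [(nat_lit 24255025342), (nat_lit 24955553316), (nat_lit 27118217502), (nat_lit 27918176920), (nat_lit 23690613630), (nat_lit 24265987133), (nat_lit 25817007677), (nat_lit 26413853024)], (nat_lit 1271251), (nat_lit 1271251), (nat_lit 1271251), (nat_lit 1271251), (nat_lit 230000), (nat_lit 780000), [(nat_lit 490000),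 (nat_lit 1100000), (nat_lit 1785001)], [(nat_lit 4), (nat_lit 51), (nat_lit 317), (nat_lit 100), (nat_lit 9)]⟩,
 ⟨⟨[(nat_lit 80), (nat_lit 140), (nat_lit 200)], [(nat_lit 0), (nat_lit 0), (nat_lit 5481)], [((nat_lit 0), (nat_lit 0), (nat_lit 0)), ((nat_lit 0), (nat_lit 0), (nat_lit 0)), ((nat_lit 637), (nat_lit 1000), (nat_lit 908))], ((nat_lit 0), (nat_lit 0), (nat_lit 0))⟩, (nat_lit 2238284), (nat_lit 320), (nat_lit 320), (nat_lit 0), (nat_lit 338262), [(nat_lit 4584864000), (nat_lit 9625476000), (nat_lit 16039200000)], [], [(nat_lit 26520155422), (nat_lit 27416434877), (nat_lit 27543612998), (nat_lit 28811152992), (nat_lit 33174005719), (nat_lit 33931369431), (nat_lit 34342431417), (nat_lit 36171894451)], (nat_lit 1271251), (nat_lit 1271251), (nat_lit 1271251), (nat_lit 1271251), (nat_lit 1271251), (nat_lit 1271251), [(nat_lit 1100000), (nat_lit 2127501), (nat_lit 1271251)], [(nat_lit 20), (nat_lit 64), (nat_lit 483), (nat_lit 250), (nat_lit 10)]⟩,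
 ⟨⟨[(nat_lit 140), (nat_lit 180), (nat_lit 200)], [(nat_lit 0), (nat_lit 0), (nat_lit 2835)], [((nat_lit 0), (nat_lit 0), (nat_lit 0)), ((nat_lit 0), (nat_lit 0), (nat_lit 0)), ((nat_lit 363), (nat_lit 1000), (nat_lit 798))], ((nat_lit 0), (nat_lit 0), (nat_lit 0))⟩, (nat_lit 141418), (nat_lit 300), (nat_lit 631), (nat_lit 40143400), (nat_lit 427014), [(nat_lit 5058788000), (nat_lit 7225812000), (nat_lit 8429600000)], [], [(nat_lit 31034437310), (nat_lit 29537620366), (nat_lit 26706870382), (nat_lit 25907477874), (nat_lit 32923566469), (nat_lit 31197875343), (nat_lit 28138000251), (nat_lit 26260088389)], (nat_lit 780000), (nat_lit 1271251), (nat_lit 230000), (nat_lit 780000), (nat_lit 1271251), (nat_lit 1271251), [(nat_lit 1977501), (nat_lit 1271251), (nat_lit 1271251)], [(nat_lit 32), (nat_lit 67), (nat_lit 401), (nat_lit 175), (nat_lit 9)]⟩⟩) (.trZ (nat_lit 0) (nat_lit 2) (nat_lit 4) (nat_lit 100) (nat_lit 34) (nat_lit 81) (nat_lit 60) (.leaf ⟨(nat_lit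 0), (nat_lit 460), (nat_lit 0), (nat_lit 540), (nat_lit 0), (nat_lit 4186), (nat_lit 10368), (nat_lit 8813), (nat_lit 0), (nat_lit 0), (nat_lit 0), [], Pd.none, Pd.none, (nat_lit 0), (nat_lit 1), (nat_lit 0), (nat_lit 0), (nat_lit 5), (nat_lit 0), [⟨(nat_lit 0), (nat_lit 96), (nat_lit 22), (nat_lit 100), (nat_lit 1066748974)⟩], [⟨(nat_lit 0), (nat_lit 100), (nat_lit 23), (nat_lit 92), (nat_lit 2426835740)⟩], [], [],
 ⟨⟨[(nat_lit 40), (nat_lit 80), (nat_lit 100)], [(nat_lit 0), (nat_lit 3225), (nat_lit 4371)], [((nat_lit 0), (nat_lit 0), (nat_lit 0)), ((nat_lit 1000), (nat_lit 321), (nat_lit 877)), ((nat_lit 1000), (nat_lit 317), (nat_lit 896))], ((nat_lit 31), (nat_lit 100), (nat_lit 94))⟩, (nat_lit 953812), (nat_lit 155), (nat_lit 155), (nat_lit 0), (nat_lit 106515), [(nat_lit 2032000110), (nat_lit 4746676072), (nat_lit 6250000000)], [], [(nat_lit 24993941339), (nat_lit 25748816752), (nat_lit 27782512924), (nat_lit 28610322196), (nat_lit 24718555119),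 (nat_lit 25363474286), (nat_lit 26966117976), (nat_lit 27630430306)], (nat_lit 1271251), (nat_lit 1271251), (nat_lit 1271251), (nat_lit 1271251), (nat_lit 356250), (nat_lit 780000), [(nat_lit 490000), (nat_lit 1100000), (nat_lit 1442501)], [(nat_lit 3), (nat_lit 50), (nat_lit 238), (nat_lit 30), (nat_lit 8)]⟩,
 ⟨⟨[(nat_lit 80), (nat_lit 140), (nat_lit 200)], [(nat_lit 0), (nat_lit 0), (nat_lit 5481)], [((nat_lit 0), (nat_lit 0), (nat_lit 0)), ((nat_lit 0), (nat_lit 0), (nat_lit 0)), ((nat_lit 637), (nat_lit 1000), (nat_lit 908))], ((nat_lit 0), (nat_lit 0), (nat_lit 0))⟩, (nat_lit 2356743), (nat_lit 456), (nat_lit 456), (nat_lit 0), (nat_lit 486174), [(nat_lit 4688000000), (nat_lit 9842000000), (nat_lit 16400000000)], [], [(nat_lit 28330640689), (nat_lit 29231945037), (nat_lit 29376323584), (nat_lit 30653314752), (nat_lit 34654484506), (nat_lit 35341025162), (nat_lit 34992236586), (nat_lit 35951682836)], (nat_lit 1271251), (nat_lit 1271251), (nat_lit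 1271251), (nat_lit 1271251), (nat_lit 1271251), (nat_lit 1271251), [(nat_lit 1100000), (nat_lit 2127501), (nat_lit 1271251)], [(nat_lit 20), (nat_lit 64), (nat_lit 483), (nat_lit 250), (nat_lit 10)]⟩,
 ⟨⟨[(nat_lit 140), (nat_lit 180), (nat_lit 200)], [(nat_lit 0), (nat_lit 0), (nat_lit 2835)], [((nat_lit 0), (nat_lit 0), (nat_lit 0)), ((nat_lit 0), (nat_lit 0), (nat_lit 0)), ((nat_lit 363), (nat_lit 1000), (nat_lit 798))], ((nat_lit 0), (nat_lit 0), (nat_lit 0))⟩, (nat_lit 148571), (nat_lit 300), (nat_lit 695), (nat_lit 42174007), (nat_lit 615824), [(nat_lit 5314680000), (nat_lit 7591320000), (nat_lit 8856000000)], [], [(nat_lit 30957886317), (nat_lit 29389078082), (nat_lit 27815695447), (nat_lit 27244388108), (nat_lit 32924010676), (nat_lit 31042780035), (nat_lit 29478945486), (nat_lit 27505561504)], (nat_lit 780000), (nat_lit 1271251), (nat_lit 356250), (nat_lit 780000), (nat_lit 1271251), (nat_lit 1271251), [(nat_lit 1977501), (nat_lit 1271251),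 (nat_lit 1271251)], [(nat_lit 32), (nat_lit 67), (nat_lit 401), (nat_lit 175), (nat_lit 9)]⟩⟩)))) (.spl (nat_lit 0) (nat_lit 390) (.spl (nat_lit 1) (nat_lit 260) (.spl (nat_lit 6) (nat_lit 120) (.leaf ⟨(nat_lit 521), (nat_lit 290), (nat_lit 0), (nat_lit 189), (nat_lit 0), (nat_lit 3618), (nat_lit 4905), (nat_lit 2032), (nat_lit 0), (nat_lit 0), (nat_lit 451000), [((nat_lit 390), [((nat_lit 43), (nat_lit 2), (nat_lit 175)), ((nat_lit 29), (nat_lit 2), (nat_lit 346))])], ⟨(nat_lit 6), false, true, false, (nat_lit 245), (nat_lit 1581), (nat_lit 2237), [(nat_lit 1545457), (nat_lit 1546538), (nat_lit 1568186), (nat_lit 1569808), (nat_lit 1659578), (nat_lit 1655900), (nat_lit 1682352), (nat_lit 1679215)]⟩, ⟨(nat_lit 3), false, false, false, (nat_lit 143), (nat_lit 1581), (nat_lit 2237), [(nat_lit 1294870), (nat_lit 1297467), (nat_lit 1363068), (nat_lit 1367287), (nat_lit 1351886), (nat_lit 1352103), (nat_lit 1420170), (nat_lit 1422009)]⟩, (nat_lit 4705728),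 (nat_lit 42578268), (nat_lit 17108808), (nat_lit 7312924), (nat_lit 5), (nat_lit 0), [], [], [⟨(nat_lit 1), (nat_lit 50), (nat_lit 100), (nat_lit 100), (nat_lit 38587179)⟩], [],
 ⟨⟨[(nat_lit 40), (nat_lit 80), (nat_lit 120)], [(nat_lit 0), (nat_lit 2514), (nat_lit 4610)], [((nat_lit 0), (nat_lit 0), (nat_lit 0)), ((nat_lit 1000), (nat_lit 446), (nat_lit 804)), ((nat_lit 1000), (nat_lit 443), (nat_lit 819))], ((nat_lit 44), (nat_lit 100), (nat_lit 92))⟩, (nat_lit 0), (nat_lit 133), (nat_lit 133), (nat_lit 0), (nat_lit 72103), [(nat_lit 1628547614), (nat_lit 1615285033), (nat_lit 0)], [(nat_lit 0), (nat_lit 0), (nat_lit 213639411)], [(nat_lit 22728753400), (nat_lit 23323640988), (nat_lit 25412999267), (nat_lit 26134503223), (nat_lit 22939200127), (nat_lit 23585358323), (nat_lit 25476403679), (nat_lit 26162077848)], (nat_lit 1271251), (nat_lit 1271251), (nat_lit 1271251), (nat_lit 1271251), (nat_lit 780000), (nat_lit 1100000), [(nat_lit 490000), (nat_lit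 1100000), (nat_lit 1785001)], [(nat_lit 4), (nat_lit 51), (nat_lit 345), (nat_lit 125), (nat_lit 10)]⟩,
 ⟨⟨[(nat_lit 80), (nat_lit 140), (nat_lit 200)], [(nat_lit 0), (nat_lit 0), (nat_lit 5481)], [((nat_lit 0), (nat_lit 0), (nat_lit 0)), ((nat_lit 0), (nat_lit 0), (nat_lit 0)), ((nat_lit 637), (nat_lit 1000), (nat_lit 908))], ((nat_lit 0), (nat_lit 0), (nat_lit 0))⟩, (nat_lit 1089730), (nat_lit 293), (nat_lit 293), (nat_lit 0), (nat_lit 261644), [(nat_lit 2245552000), (nat_lit 4714318000), (nat_lit 7855600000)], [], [(nat_lit 13643907854), (nat_lit 13209981979), (nat_lit 13705279334), (nat_lit 14007217021), (nat_lit 16591622844), (nat_lit 16729249380), (nat_lit 17006507704), (nat_lit 17229241839)], (nat_lit 1271251), (nat_lit 1271251), (nat_lit 1271251), (nat_lit 1271251), (nat_lit 1271251), (nat_lit 1271251), [(nat_lit 1100000), (nat_lit 2127501), (nat_lit 1271251)], [(nat_lit 20), (nat_lit 64), (nat_lit 483), (nat_lit 250), (nat_lit 10)]⟩,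
 ⟨⟨[(nat_lit 140), (nat_lit 180), (nat_lit 200)], [(nat_lit 0), (nat_lit 0), (nat_lit 2835)], [((nat_lit 0), (nat_lit 0), (nat_lit 0)), ((nat_lit 0), (nat_lit 0), (nat_lit 0)), ((nat_lit 363), (nat_lit 1000), (nat_lit 798))], ((nat_lit 0), (nat_lit 0), (nat_lit 0))⟩, (nat_lit 52000), (nat_lit 300), (nat_lit 762), (nat_lit 14760900), (nat_lit 862516), [(nat_lit 1860138000), (nat_lit 2656962000), (nat_lit 3099600000)], [], [(nat_lit 12175714001), (nat_lit 11760203289), (nat_lit 11827187651), (nat_lit 11413050014), (nat_lit 11764718062), (nat_lit 11311473453), (nat_lit 11394510453), (nat_lit 10939284980)], (nat_lit 780000), (nat_lit 1271251), (nat_lit 780000), (nat_lit 1100000), (nat_lit 1271251), (nat_lit 1271251), [(nat_lit 1977501), (nat_lit 1271251), (nat_lit 1271251)], [(nat_lit 32), (nat_lit 67), (nat_lit 428), (nat_lit 200), (nat_lit 9)]⟩⟩) (.dle (nat_lit 0))) (.trX (nat_lit 5) (nat_lit 1) (nat_lit 2) (nat_lit 96) (nat_lit 40) (nat_lit 100) (nat_lit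 390) (.leaf ⟨(nat_lit 123), (nat_lit 640), (nat_lit 0), (nat_lit 237), (nat_lit 0), (nat_lit 4056), (nat_lit 8636), (nat_lit 2764), (nat_lit 0), (nat_lit 0), (nat_lit 492000), [((nat_lit 390), [((nat_lit 43), (nat_lit 5), (nat_lit 123))])], ⟨(nat_lit 6), false, true, false, (nat_lit 255), (nat_lit 1581), (nat_lit 2237), [(nat_lit 1568186), (nat_lit 1569808), (nat_lit 1590915), (nat_lit 1593078), (nat_lit 1682352), (nat_lit 1679215), (nat_lit 1705117), (nat_lit 1702521)]⟩, ⟨(nat_lit 3), false, false, false, (nat_lit 143), (nat_lit 1581), (nat_lit 2237), [(nat_lit 1294870), (nat_lit 1297467), (nat_lit 1363068), (nat_lit 1367287), (nat_lit 1351886), (nat_lit 1352103), (nat_lit 1420170), (nat_lit 1422009)]⟩, (nat_lit 4753821), (nat_lit 41798974), (nat_lit 17967762), (nat_lit 7233264), (nat_lit 5), (nat_lit 0), [⟨(nat_lit 0), (nat_lit 94), (nat_lit 38), (nat_lit 100), (nat_lit 197611040)⟩], [], [⟨(nat_lit 1), (nat_lit 59), (nat_lit 97), (nat_lit 100),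 (nat_lit 186384459)⟩], [],
 ⟨⟨[(nat_lit 40), (nat_lit 80), (nat_lit 120)], [(nat_lit 0), (nat_lit 2514), (nat_lit 4610)], [((nat_lit 0), (nat_lit 0), (nat_lit 0)), ((nat_lit 1000), (nat_lit 446), (nat_lit 804)), ((nat_lit 1000), (nat_lit 443), (nat_lit 819))], ((nat_lit 44), (nat_lit 100), (nat_lit 95))⟩, (nat_lit 0), (nat_lit 141), (nat_lit 141), (nat_lit 0), (nat_lit 102721), [(nat_lit 1926166022), (nat_lit 1372342738), (nat_lit 348346800)], [(nat_lit 0), (nat_lit 0), (nat_lit 0)], [(nat_lit 23141869250), (nat_lit 23808758166), (nat_lit 25923107864), (nat_lit 26688146720), (nat_lit 23277412914), (nat_lit 23874005764), (nat_lit 25893693068), (nat_lit 26619881470)], (nat_lit 1271251), (nat_lit 1271251), (nat_lit 1271251), (nat_lit 1271251), (nat_lit 780000), (nat_lit 1100000), [(nat_lit 490000), (nat_lit 1100000), (nat_lit 1785001)], [(nat_lit 4), (nat_lit 51), (nat_lit 345), (nat_lit 125), (nat_lit 10)]⟩,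
 ⟨⟨[(nat_lit 80), (nat_lit 140), (nat_lit 180)], [(nat_lit 0), (nat_lit 792), (nat_lit 4228)], [((nat_lit 0), (nat_lit 0), (nat_lit 0)), ((nat_lit 1000), (nat_lit 959), (nat_lit 206)), ((nat_lit 709), (nat_lit 1000), (nat_lit 949))], ((nat_lit 100), (nat_lit 64), (nat_lit 99))⟩, (nat_lit 1961497), (nat_lit 286), (nat_lit 286), (nat_lit 0), (nat_lit 325946), [(nat_lit 4111376000), (nat_lit 8631434000), (nat_lit 12328866000)], [], [(nat_lit 21405790540), (nat_lit 22292045304), (nat_lit 23444511168), (nat_lit 24133570460), (nat_lit 28701240421), (nat_lit 29086809136), (nat_lit 30290813393), (nat_lit 31062706576)], (nat_lit 1271251), (nat_lit 1271251), (nat_lit 1271251), (nat_lit 1271251), (nat_lit 1271251), (nat_lit 1271251), [(nat_lit 1100000), (nat_lit 2127501), (nat_lit 1271251)], [(nat_lit 19), (nat_lit 63), (nat_lit 483), (nat_lit 250), (nat_lit 10)]⟩,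
 ⟨⟨[(nat_lit 140), (nat_lit 180), (nat_lit 200)], [(nat_lit 0), (nat_lit 0), (nat_lit 2835)], [((nat_lit 0), (nat_lit 0), (nat_lit 0)), ((nat_lit 0), (nat_lit 0), (nat_lit 0)), ((nat_lit 363), (nat_lit 1000), (nat_lit 798))], ((nat_lit 0), (nat_lit 0), (nat_lit 0))⟩, (nat_lit 65206), (nat_lit 300), (nat_lit 936), (nat_lit 18509705), (nat_lit 1227604), [(nat_lit 2332554000), (nat_lit 3331746000), (nat_lit 3886800000)], [], [(nat_lit 14970878323), (nat_lit 14366143048), (nat_lit 14475474542), (nat_lit 13873580710), (nat_lit 14217868095), (nat_lit 13590602691), (nat_lit 13701488976), (nat_lit 13069807042)], (nat_lit 780000), (nat_lit 1271251), (nat_lit 780000), (nat_lit 1100000), (nat_lit 1271251), (nat_lit 1271251), [(nat_lit 1977501), (nat_lit 1271251), (nat_lit 1271251)], [(nat_lit 32), (nat_lit 67), (nat_lit 428), (nat_lit 200), (nat_lit 9)]⟩⟩))) (.spl (nat_lit 1) (nat_lit 260) (.spl (nat_lit 1) (nat_lit 250) (.leaf ⟨(nat_lit 695), (nat_lit 213),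 (nat_lit 0), (nat_lit 92), (nat_lit 0), (nat_lit 3560), (nat_lit 3163), (nat_lit 1067), (nat_lit 0), (nat_lit 0), (nat_lit 180700), [((nat_lit 400), [((nat_lit 42), (nat_lit 0), (nat_lit 695))])], ⟨(nat_lit 6), false, true, false, (nat_lit 242), (nat_lit 0), (nat_lit 1582), [(nat_lit 1545316), (nat_lit 1548686), (nat_lit 1556645), (nat_lit 1560857), (nat_lit 1655899), (nat_lit 1649997), (nat_lit 1667557), (nat_lit 1662498)]⟩, ⟨(nat_lit 3), false, false, false, (nat_lit 144), (nat_lit 0), (nat_lit 1582), [(nat_lit 1297467), (nat_lit 1299999), (nat_lit 1365448), (nat_lit 1373034), (nat_lit 1352101), (nat_lit 1349997), (nat_lit 1421394), (nat_lit 1424345)]⟩, (nat_lit 4696598), (nat_lit 42787120), (nat_lit 16820073), (nat_lit 7392807), (nat_lit 5), (nat_lit 0), [], [], [⟨(nat_lit 1), (nat_lit 47), (nat_lit 100), (nat_lit 99), (nat_lit 7980091)⟩], [⟨(nat_lit 1), (nat_lit 49), (nat_lit 100), (nat_lit 97), (nat_lit 30035203)⟩],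
 ⟨⟨[(nat_lit 40), (nat_lit 80), (nat_lit 100)], [(nat_lit 0), (nat_lit 3225), (nat_lit 4371)], [((nat_lit 0), (nat_lit 0), (nat_lit 0)), ((nat_lit 1000), (nat_lit 321), (nat_lit 877)), ((nat_lit 1000), (nat_lit 317), (nat_lit 896))], ((nat_lit 31), (nat_lit 100), (nat_lit 94))⟩, (nat_lit 402811), (nat_lit 128), (nat_lit 128), (nat_lit 0), (nat_lit 105769), [(nat_lit 1609238106), (nat_lit 2614169839), (nat_lit 3069402000)], [(nat_lit 0), (nat_lit 0), (nat_lit 0)], [(nat_lit 23834960225), (nat_lit 24469007505), (nat_lit 26142682319), (nat_lit 26776928760), (nat_lit 24070003695), (nat_lit 24672141305), (nat_lit 26253493525), (nat_lit 26781764720)], (nat_lit 1271251), (nat_lit 1271251), (nat_lit 1271251), (nat_lit 1271251), (nat_lit 780000), (nat_lit 1100000), [(nat_lit 490000), (nat_lit 1100000), (nat_lit 1442501)], [(nat_lit 3), (nat_lit 50), (nat_lit 249), (nat_lit 40), (nat_lit 8)]⟩,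
 ⟨⟨[(nat_lit 80), (nat_lit 140), (nat_lit 200)], [(nat_lit 0), (nat_lit 0), (nat_lit 5481)], [((nat_lit 0), (nat_lit 0), (nat_lit 0)), ((nat_lit 0), (nat_lit 0), (nat_lit 0)), ((nat_lit 637), (nat_lit 1000), (nat_lit 908))], ((nat_lit 0), (nat_lit 0), (nat_lit 0))⟩, (nat_lit 639819), (nat_lit 434), (nat_lit 434), (nat_lit 0), (nat_lit 428361), [(nat_lit 1429840000), (nat_lit 3001810000), (nat_lit 5002000000)], [], [(nat_lit 9072583673), (nat_lit 9141308887), (nat_lit 9283839224), (nat_lit 9331653792), (nat_lit 10859514959), (nat_lit 10903018997), (nat_lit 10854858599), (nat_lit 10883651657)], (nat_lit 1271251), (nat_lit 1271251), (nat_lit 1271251), (nat_lit 1271251), (nat_lit 1271251), (nat_lit 1271251), [(nat_lit 1100000), (nat_lit 2127501), (nat_lit 1271251)], [(nat_lit 20), (nat_lit 64), (nat_lit 483), (nat_lit 250), (nat_lit 10)]⟩,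
 ⟨⟨[(nat_lit 140), (nat_lit 180), (nat_lit 200)], [(nat_lit 0), (nat_lit 0), (nat_lit 2835)], [((nat_lit 0), (nat_lit 0), (nat_lit 0)), ((nat_lit 0), (nat_lit 0), (nat_lit 0)), ((nat_lit 363), (nat_lit 1000), (nat_lit 798))], ((nat_lit 0), (nat_lit 0), (nat_lit 0))⟩, (nat_lit 25312), (nat_lit 300), (nat_lit 992), (nat_lit 7185203), (nat_lit 1340734), [(nat_lit 905464000), (nat_lit 1293336000), (nat_lit 1508800000)], [], [(nat_lit 5833195264), (nat_lit 5600138666), (nat_lit 5642201250), (nat_lit 5410237152), (nat_lit 5541755254), (nat_lit 5297886987), (nat_lit 5338898968), (nat_lit 5095993040)], (nat_lit 780000), (nat_lit 1271251), (nat_lit 780000), (nat_lit 1100000), (nat_lit 1271251), (nat_lit 1271251), [(nat_lit 1977501), (nat_lit 1271251), (nat_lit 1271251)], [(nat_lit 32), (nat_lit 67), (nat_lit 428), (nat_lit 200), (nat_lit 9)]⟩⟩) (.trX (nat_lit 5) (nat_lit 1) (nat_lit 2) (nat_lit 97) (nat_lit 35) (nat_lit 100) (nat_lit 390) (.leaf ⟨(nat_lit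 666), (nat_lit 243), (nat_lit 0), (nat_lit 91), (nat_lit 0), (nat_lit 3650), (nat_lit 3306), (nat_lit 1056), (nat_lit 0), (nat_lit 0), (nat_lit 173160), [((nat_lit 400), [((nat_lit 42), (nat_lit 0), (nat_lit 666))])], ⟨(nat_lit 6), false, true, false, (nat_lit 247), (nat_lit 0), (nat_lit 1582), [(nat_lit 1556645), (nat_lit 1560857), (nat_lit 1567974), (nat_lit 1573029), (nat_lit 1667557), (nat_lit 1662498), (nat_lit 1679215), (nat_lit 1674999)]⟩, ⟨(nat_lit 3), false, false, false, (nat_lit 144), (nat_lit 0), (nat_lit 1582), [(nat_lit 1297467), (nat_lit 1299999), (nat_lit 1365448), (nat_lit 1373034), (nat_lit 1352101), (nat_lit 1349997), (nat_lit 1421394), (nat_lit 1424345)]⟩, (nat_lit 4722994), (nat_lit 42383268), (nat_lit 17264611), (nat_lit 7352121), (nat_lit 5), (nat_lit 0), [], [], [⟨(nat_lit 1), (nat_lit 52), (nat_lit 99), (nat_lit 100), (nat_lit 47726409)⟩], [],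
 ⟨⟨[(nat_lit 40), (nat_lit 80), (nat_lit 100)], [(nat_lit 0), (nat_lit 3225), (nat_lit 4371)], [((nat_lit 0), (nat_lit 0), (nat_lit 0)), ((nat_lit 1000), (nat_lit 321), (nat_lit 877)), ((nat_lit 1000), (nat_lit 317), (nat_lit 896))], ((nat_lit 31), (nat_lit 100), (nat_lit 94))⟩, (nat_lit 405296), (nat_lit 131), (nat_lit 131), (nat_lit 0), (nat_lit 116264), [(nat_lit 1617114416), (nat_lit 2741656073), (nat_lit 3202117600)], [(nat_lit 0), (nat_lit 0), (nat_lit 0)], [(nat_lit 23882834203), (nat_lit 24564475934), (nat_lit 26255282409), (nat_lit 26899636650), (nat_lit 24098751375), (nat_lit 24708025400), (nat_lit 26326861459), (nat_lit 26884158800)], (nat_lit 1271251), (nat_lit 1271251), (nat_lit 1271251), (nat_lit 1271251), (nat_lit 780000), (nat_lit 1100000), [(nat_lit 490000), (nat_lit 1100000), (nat_lit 1442501)], [(nat_lit 3), (nat_lit 50), (nat_lit 249), (nat_lit 40), (nat_lit 8)]⟩,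
 ⟨⟨[(nat_lit 80), (nat_lit 140), (nat_lit 200)], [(nat_lit 0), (nat_lit 395), (nat_lit 5707)], [((nat_lit 0), (nat_lit 0), (nat_lit 0)), ((nat_lit 1000), (nat_lit 979), (nat_lit 103)), ((nat_lit 672), (nat_lit 1000), (nat_lit 927))], ((nat_lit 0), (nat_lit 0), (nat_lit 0))⟩, (nat_lit 730341), (nat_lit 437), (nat_lit 437), (nat_lit 0), (nat_lit 439334), [(nat_lit 1565792000), (nat_lit 3287228000), (nat_lit 5477600000)], [], [(nat_lit 9641657361), (nat_lit 9716759911), (nat_lit 9865122422), (nat_lit 9918206431), (nat_lit 11436844044), (nat_lit 11490314064), (nat_lit 11469850254), (nat_lit 11553068372)], (nat_lit 1271251), (nat_lit 1271251), (nat_lit 1271251), (nat_lit 1271251), (nat_lit 1271251), (nat_lit 1271251), [(nat_lit 1100000), (nat_lit 2127501), (nat_lit 1271251)], [(nat_lit 20), (nat_lit 64), (nat_lit 483), (nat_lit 250), (nat_lit 10)]⟩,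
 ⟨⟨[(nat_lit 140), (nat_lit 180), (nat_lit 200)], [(nat_lit 0), (nat_lit 0), (nat_lit 2835)], [((nat_lit 0), (nat_lit 0), (nat_lit 0)), ((nat_lit 0), (nat_lit 0), (nat_lit 0)), ((nat_lit 363), (nat_lit 1000), (nat_lit 798))], ((nat_lit 0), (nat_lit 0), (nat_lit 0))⟩, (nat_lit 25037), (nat_lit 300), (nat_lit 1056), (nat_lit 7107101), (nat_lit 1477007), [(nat_lit 895622000), (nat_lit 1279278000), (nat_lit 1492400000)], [], [(nat_lit 5809178164), (nat_lit 5570512437), (nat_lit 5621989224), (nat_lit 5384581435), (nat_lit 5480998418), (nat_lit 5233510922), (nat_lit 5284095439), (nat_lit 5038227745)], (nat_lit 780000), (nat_lit 1271251), (nat_lit 780000), (nat_lit 1100000), (nat_lit 1271251), (nat_lit 1271251), [(nat_lit 1977501), (nat_lit 1271251), (nat_lit 1271251)], [(nat_lit 32), (nat_lit 67), (nat_lit 428), (nat_lit 200), (nat_lit 9)]⟩⟩))) (.trX (nat_lit 5) (nat_lit 1) (nat_lit 2) (nat_lit 96) (nat_lit 40) (nat_lit 100) (nat_lit 390) (.spl (nat_lit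 0) (nat_lit 395) (.leaf ⟨(nat_lit 353), (nat_lit 500), (nat_lit 0), (nat_lit 147), (nat_lit 0), (nat_lit 3787), (nat_lit 5986), (nat_lit 1721), (nat_lit 0), (nat_lit 0), (nat_lit 91780), [((nat_lit 395), [((nat_lit 42), (nat_lit 0), (nat_lit 353))])], ⟨(nat_lit 6), false, true, false, (nat_lit 254), (nat_lit 1118), (nat_lit 1582), [(nat_lit 1569847), (nat_lit 1571155), (nat_lit 1593129), (nat_lit 1594873), (nat_lit 1679215), (nat_lit 1677505), (nat_lit 1702528), (nat_lit 1701254)]⟩, ⟨(nat_lit 3), false, false, false, (nat_lit 144), (nat_lit 1118), (nat_lit 1582), [(nat_lit 1297467), (nat_lit 1298741), (nat_lit 1367318), (nat_lit 1369899), (nat_lit 1352103), (nat_lit 1351868), (nat_lit 1422017), (nat_lit 1423090)]⟩, (nat_lit 4760201), (nat_lit 41767536), (nat_lit 17949228), (nat_lit 7283236), (nat_lit 5), (nat_lit 0), [⟨(nat_lit 0), (nat_lit 94), (nat_lit 27), (nat_lit 100), (nat_lit 460032619)⟩], [], [⟨(nat_lit 1), (nat_lit 59), (nat_lit 97), (nat_lit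 100), (nat_lit 121845095)⟩], [],
 ⟨⟨[(nat_lit 40), (nat_lit 80), (nat_lit 100)], [(nat_lit 0), (nat_lit 3225), (nat_lit 4371)], [((nat_lit 0), (nat_lit 0), (nat_lit 0)), ((nat_lit 1000), (nat_lit 321), (nat_lit 877)), ((nat_lit 1000), (nat_lit 317), (nat_lit 896))], ((nat_lit 31), (nat_lit 100), (nat_lit 94))⟩, (nat_lit 708426), (nat_lit 130), (nat_lit 130), (nat_lit 0), (nat_lit 122128), [(nat_lit 1702125227), (nat_lit 3833772872), (nat_lit 4634530800)], [(nat_lit 0), (nat_lit 0), (nat_lit 0)], [(nat_lit 23963999831), (nat_lit 24311163531), (nat_lit 26348628382), (nat_lit 26717274493), (nat_lit 24137476663), (nat_lit 24447545280), (nat_lit 26393865346), (nat_lit 26689372158)], (nat_lit 1271251), (nat_lit 1271251), (nat_lit 1271251), (nat_lit 1271251), (nat_lit 780000), (nat_lit 1100000), [(nat_lit 490000), (nat_lit 1100000), (nat_lit 1442501)], [(nat_lit 3), (nat_lit 50), (nat_lit 249), (nat_lit 40), (nat_lit 8)]⟩,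
 ⟨⟨[(nat_lit 80), (nat_lit 140), (nat_lit 180)], [(nat_lit 0), (nat_lit 792), (nat_lit 4228)], [((nat_lit 0), (nat_lit 0), (nat_lit 0)), ((nat_lit 1000), (nat_lit 959), (nat_lit 206)), ((nat_lit 709), (nat_lit 1000), (nat_lit 949))], ((nat_lit 100), (nat_lit 64), (nat_lit 99))⟩, (nat_lit 1321619), (nat_lit 361), (nat_lit 361), (nat_lit 0), (nat_lit 399276), [(nat_lit 3033136000), (nat_lit 6367774000), (nat_lit 9095526000)], [], [(nat_lit 18363597960), (nat_lit 18729616587), (nat_lit 19055604557), (nat_lit 19329988312), (nat_lit 21786155345), (nat_lit 22070800321), (nat_lit 22123706223), (nat_lit 22522543123)], (nat_lit 1271251), (nat_lit 1271251), (nat_lit 1271251), (nat_lit 1271251), (nat_lit 1271251), (nat_lit 1271251), [(nat_lit 1100000), (nat_lit 2127501), (nat_lit 1271251)], [(nat_lit 19), (nat_lit 63), (nat_lit 483), (nat_lit 250), (nat_lit 10)]⟩,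
 ⟨⟨[(nat_lit 140), (nat_lit 180), (nat_lit 200)], [(nat_lit 0), (nat_lit 0), (nat_lit 2835)], [((nat_lit 0), (nat_lit 0), (nat_lit 0)), ((nat_lit 0), (nat_lit 0), (nat_lit 0)), ((nat_lit 363), (nat_lit 1000), (nat_lit 798))], ((nat_lit 0), (nat_lit 0), (nat_lit 0))⟩, (nat_lit 40444), (nat_lit 300), (nat_lit 1073), (nat_lit 11480707), (nat_lit 1515429), [(nat_lit 1446774000), (nat_lit 2066526000), (nat_lit 2410800000)], [], [(nat_lit 9302348713), (nat_lit 8912504455), (nat_lit 8996717246), (nat_lit 8608931933), (nat_lit 8803005248), (nat_lit 8411976869), (nat_lit 8475812001), (nat_lit 8087417362)], (nat_lit 780000), (nat_lit 1271251), (nat_lit 780000), (nat_lit 1100000), (nat_lit 1271251), (nat_lit 1271251), [(nat_lit 1977501), (nat_lit 1271251), (nat_lit 1271251)], [(nat_lit 32), (nat_lit 67), (nat_lit 428), (nat_lit 200), (nat_lit 9)]⟩⟩) (.trZ (nat_lit 0) (nat_lit 1) (nat_lit 3) (nat_lit 96) (nat_lit 22) (nat_lit 100) (nat_lit 210) (.leaf ⟨(nat_lit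 584), (nat_lit 329), (nat_lit 0), (nat_lit 87), (nat_lit 0), (nat_lit 3674), (nat_lit 3840), (nat_lit 1017), (nat_lit 0), (nat_lit 0), (nat_lit 151840), [((nat_lit 400), [((nat_lit 42), (nat_lit 0), (nat_lit 584))])], ⟨(nat_lit 6), false, true, false, (nat_lit 257), (nat_lit 0), (nat_lit 1119), [(nat_lit 1583371), (nat_lit 1586336), (nat_lit 1606656), (nat_lit 1610871), (nat_lit 1677505), (nat_lit 1674999), (nat_lit 1701253), (nat_lit 1699996)]⟩, ⟨(nat_lit 3), false, false, false, (nat_lit 144), (nat_lit 0), (nat_lit 1119), [(nat_lit 1298741), (nat_lit 1299999), (nat_lit 1368599), (nat_lit 1373605), (nat_lit 1351866), (nat_lit 1349997), (nat_lit 1422657), (nat_lit 1424535)]⟩, (nat_lit 4776402), (nat_lit 41529962), (nat_lit 18182787), (nat_lit 7287251), (nat_lit 5), (nat_lit 0), [⟨(nat_lit 0), (nat_lit 96), (nat_lit 16), (nat_lit 100), (nat_lit 157994906)⟩], [], [⟨(nat_lit 1), (nat_lit 59), (nat_lit 97), (nat_lit 100), (nat_lit 84572527)⟩], [],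
 ⟨⟨[(nat_lit 40), (nat_lit 80), (nat_lit 100)], [(nat_lit 0), (nat_lit 3758), (nat_lit 4955)], [((nat_lit 0), (nat_lit 0), (nat_lit 0)), ((nat_lit 1000), (nat_lit 228), (nat_lit 923)), ((nat_lit 1000), (nat_lit 226), (nat_lit 935))], ((nat_lit 22), (nat_lit 100), (nat_lit 95))⟩, (nat_lit 434687), (nat_lit 138), (nat_lit 138), (nat_lit 0), (nat_lit 140899), [(nat_lit 1639385673), (nat_lit 3051615111), (nat_lit 3577382400)], [(nat_lit 0), (nat_lit 0), (nat_lit 0)], [(nat_lit 24441488955), (nat_lit 24777497780), (nat_lit 26568823724), (nat_lit 26932358754), (nat_lit 24606635777), (nat_lit 24907119028), (nat_lit 26591492495), (nat_lit 26911463888)], (nat_lit 1271251), (nat_lit 1271251), (nat_lit 1271251), (nat_lit 1271251), (nat_lit 780000), (nat_lit 1100000), [(nat_lit 490000), (nat_lit 1100000), (nat_lit 1442501)], [(nat_lit 3), (nat_lit 50), (nat_lit 249), (nat_lit 40), (nat_lit 8)]⟩,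
 ⟨⟨[(nat_lit 80), (nat_lit 140), (nat_lit 180)], [(nat_lit 0), (nat_lit 792), (nat_lit 4228)], [((nat_lit 0), (nat_lit 0), (nat_lit 0)), ((nat_lit 1000), (nat_lit 959), (nat_lit 206)), ((nat_lit 709), (nat_lit 1000), (nat_lit 949))], ((nat_lit 100), (nat_lit 64), (nat_lit 99))⟩, (nat_lit 848621), (nat_lit 390), (nat_lit 390), (nat_lit 0), (nat_lit 472886), [(nat_lit 1950208000), (nat_lit 4094272000), (nat_lit 5848128000)], [], [(nat_lit 11843351644), (nat_lit 12071770428), (nat_lit 12273580836), (nat_lit 12449999604), (nat_lit 14005887555), (nat_lit 14173857456), (nat_lit 14232571190), (nat_lit 14472264208)], (nat_lit 1271251), (nat_lit 1271251), (nat_lit 1271251), (nat_lit 1271251), (nat_lit 1271251), (nat_lit 1271251), [(nat_lit 1100000), (nat_lit 2127501), (nat_lit 1271251)], [(nat_lit 19), (nat_lit 63), (nat_lit 483), (nat_lit 250), (nat_lit 10)]⟩,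
 ⟨⟨[(nat_lit 140), (nat_lit 180), (nat_lit 200)], [(nat_lit 0), (nat_lit 0), (nat_lit 2835)], [((nat_lit 0), (nat_lit 0), (nat_lit 0)), ((nat_lit 0), (nat_lit 0), (nat_lit 0)), ((nat_lit 363), (nat_lit 1000), (nat_lit 798))], ((nat_lit 0), (nat_lit 0), (nat_lit 0))⟩, (nat_lit 23937), (nat_lit 300), (nat_lit 1208), (nat_lit 6794700), (nat_lit 1805217), [(nat_lit 856254000), (nat_lit 1223046000), (nat_lit 1426800000)], [], [(nat_lit 5513831073), (nat_lit 5283547781), (nat_lit 5333279718), (nat_lit 5104212233), (nat_lit 5213611746), (nat_lit 4982647162), (nat_lit 5020329843), (nat_lit 4790920399)], (nat_lit 780000), (nat_lit 1271251), (nat_lit 780000), (nat_lit 1100000), (nat_lit 1271251), (nat_lit 1271251), [(nat_lit 1977501), (nat_lit 1271251), (nat_lit 1271251)], [(nat_lit 32), (nat_lit 67), (nat_lit 428), (nat_lit 200), (nat_lit 9)]⟩⟩)))))))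
noncomputable def c14_101 : Tr Lf :=
 (.spl (nat_lit 0) (nat_lit 390) (.leaf ⟨(nat_lit 0), (nat_lit 1000), (nat_lit 0), (nat_lit 0), (nat_lit 0), (nat_lit 6144), (nat_lit 9221), (nat_lit 0), (nat_lit 0), (nat_lit 0), (nat_lit 0), [], Pd.none, Pd.none, (nat_lit 0), (nat_lit 1), (nat_lit 0), (nat_lit 0), (nat_lit 3), (nat_lit 0), [⟨(nat_lit 0), (nat_lit 87), (nat_lit 38), (nat_lit 100), (nat_lit 551869125)⟩], [], [], [],
 ⟨⟨[(nat_lit 40), (nat_lit 80), (nat_lit 120)], [(nat_lit 0), (nat_lit 2514), (nat_lit 4610)], [((nat_lit 0), (nat_lit 0), (nat_lit 0)), ((nat_lit 1000), (nat_lit 446), (nat_lit 804)), ((nat_lit 1000), (nat_lit 443), (nat_lit 819))], ((nat_lit 44), (nat_lit 100), (nat_lit 95))⟩, (nat_lit 895882), (nat_lit 267), (nat_lit 267), (nat_lit 0), (nat_lit 288417), [(nat_lit 2246504114), (nat_lit 5162953867), (nat_lit 7968000000)], [], [(nat_lit 28229231737), (nat_lit 29160857189), (nat_lit 31500480620), (nat_lit 32552541634), (nat_lit 25620219352),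 (nat_lit 26428941020), (nat_lit 28132355884), (nat_lit 28802287780)], (nat_lit 1271251), (nat_lit 1271251), (nat_lit 1271251), (nat_lit 1271251), (nat_lit 230000), (nat_lit 1100000), [(nat_lit 490000), (nat_lit 1100000), (nat_lit 1785001)], [(nat_lit 4), (nat_lit 51), (nat_lit 345), (nat_lit 125), (nat_lit 10)]⟩,
 ⟨⟨[(nat_lit 60), (nat_lit 120), (nat_lit 180)], [(nat_lit 0), (nat_lit 0), (nat_lit 4796)], [((nat_lit 0), (nat_lit 0), (nat_lit 0)), ((nat_lit 0), (nat_lit 0), (nat_lit 0)), ((nat_lit 802), (nat_lit 1000), (nat_lit 999))], ((nat_lit 97), (nat_lit 73), (nat_lit 100))⟩, (nat_lit 2266441), (nat_lit 552), (nat_lit 552), (nat_lit 0), (nat_lit 460171), [(nat_lit 3282000000), (nat_lit 7968000000), (nat_lit 14058000000)], [], [(nat_lit 33708513195), (nat_lit 34902498572), (nat_lit 35244556757), (nat_lit 37054227086), (nat_lit 27458159517), (nat_lit 28835359885), (nat_lit 28919682381), (nat_lit 29957908139)], (nat_lit 1271251), (nat_lit 1271251),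 (nat_lit 1271251), (nat_lit 1271251), (nat_lit 0), (nat_lit 1412501), [(nat_lit 780000), (nat_lit 1762501), (nat_lit 1271251)], [(nat_lit 13), (nat_lit 60), (nat_lit 428), (nat_lit 200), (nat_lit 10)]⟩,
 Rw.none⟩) (.trZ (nat_lit 0) (nat_lit 1) (nat_lit 3) (nat_lit 92) (nat_lit 31) (nat_lit 100) (nat_lit 210) (.trZ (nat_lit 0) (nat_lit 2) (nat_lit 4) (nat_lit 100) (nat_lit 34) (nat_lit 81) (nat_lit 60) (.leaf ⟨(nat_lit 0), (nat_lit 1000), (nat_lit 0), (nat_lit 0), (nat_lit 0), (nat_lit 4456), (nat_lit 8879), (nat_lit 0), (nat_lit 0), (nat_lit 0), (nat_lit 0), [], Pd.none, Pd.none, (nat_lit 0), (nat_lit 1), (nat_lit 0), (nat_lit 0), (nat_lit 3), (nat_lit 0), [⟨(nat_lit 0), (nat_lit 91), (nat_lit 23), (nat_lit 100), (nat_lit 1138070324)⟩], [⟨(nat_lit 1), (nat_lit 100), (nat_lit 22), (nat_lit 97), (nat_lit 448134458)⟩], [], [],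
 ⟨⟨[(nat_lit 40), (nat_lit 80), (nat_lit 100)], [(nat_lit 0), (nat_lit 3225), (nat_lit 4371)], [((nat_lit 0), (nat_lit 0), (nat_lit 0)), ((nat_lit 1000), (nat_lit 321), (nat_lit 877)), ((nat_lit 1000), (nat_lit 317), (nat_lit 896))], ((nat_lit 31), (nat_lit 100), (nat_lit 94))⟩, (nat_lit 850590), (nat_lit 235), (nat_lit 235), (nat_lit 0), (nat_lit 336065), [(nat_lit 2032000006), (nat_lit 4688000005), (nat_lit 6250000000)], [], [(nat_lit 25748889538), (nat_lit 26510354531), (nat_lit 28254123156), (nat_lit 29111046916), (nat_lit 25530169997), (nat_lit 26054807209), (nat_lit 27265537500), (nat_lit 27801154672)], (nat_lit 1271251), (nat_lit 1271251), (nat_lit 1271251), (nat_lit 1271251), (nat_lit 356250), (nat_lit 1100000), [(nat_lit 490000), (nat_lit 1100000), (nat_lit 1442501)], [(nat_lit 3), (nat_lit 50), (nat_lit 249), (nat_lit 40), (nat_lit 8)]⟩,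
 ⟨⟨[(nat_lit 60), (nat_lit 120), (nat_lit 180)], [(nat_lit 0), (nat_lit 0), (nat_lit 4796)], [((nat_lit 0), (nat_lit 0), (nat_lit 0)), ((nat_lit 0), (nat_lit 0), (nat_lit 0)), ((nat_lit 802), (nat_lit 1000), (nat_lit 999))], ((nat_lit 97), (nat_lit 73), (nat_lit 100))⟩, (nat_lit 2087556), (nat_lit 582), (nat_lit 582), (nat_lit 0), (nat_lit 562662), [(nat_lit 3282000000), (nat_lit 7968000000), (nat_lit 14058000000)], [], [(nat_lit 35238609690), (nat_lit 36357376968), (nat_lit 36214568037), (nat_lit 37601595502), (nat_lit 28666205504), (nat_lit 29956407987), (nat_lit 29964023670), (nat_lit 30995139761)], (nat_lit 1271251), (nat_lit 1271251), (nat_lit 1271251), (nat_lit 1271251), (nat_lit 0), (nat_lit 1412501), [(nat_lit 780000), (nat_lit 1762501), (nat_lit 1271251)], [(nat_lit 13), (nat_lit 60), (nat_lit 428), (nat_lit 200), (nat_lit 10)]⟩,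
 Rw.none⟩))))
noncomputable def c14_102 : Tr Lf :=
 (.stt (nat_lit 2) (.leaf ⟨(nat_lit 0), (nat_lit 1000), (nat_lit 0), (nat_lit 0), (nat_lit 13433), (nat_lit 4612), (nat_lit 4565), (nat_lit 0), (nat_lit 0), (nat_lit 0), (nat_lit 0), [], Pd.none, Pd.none, (nat_lit 0), (nat_lit 1), (nat_lit 0), (nat_lit 0), (nat_lit 5), (nat_lit 0), [⟨(nat_lit 0), (nat_lit 88), (nat_lit 32), (nat_lit 100), (nat_lit 664385081)⟩], [], [⟨(nat_lit 1), (nat_lit 49), (nat_lit 92), (nat_lit 100), (nat_lit 514504525)⟩], [],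
 ⟨⟨[(nat_lit 40), (nat_lit 80), (nat_lit 120)], [(nat_lit 0), (nat_lit 2514), (nat_lit 4610)], [((nat_lit 0), (nat_lit 0), (nat_lit 0)), ((nat_lit 1000), (nat_lit 446), (nat_lit 804)), ((nat_lit 1000), (nat_lit 443), (nat_lit 819))], ((nat_lit 44), (nat_lit 100), (nat_lit 95))⟩, (nat_lit 1304163), (nat_lit 286), (nat_lit 286), (nat_lit 0), (nat_lit 339128), [(nat_lit 2032000171), (nat_lit 4984432141), (nat_lit 7968000000)], [], [(nat_lit 25798973944), (nat_lit 27372328125), (nat_lit 28587844135), (nat_lit 30356851504), (nat_lit 24436648171), (nat_lit 25765784454), (nat_lit 26825479412), (nat_lit 27979213018)], (nat_lit 1271251), (nat_lit 1271251), (nat_lit 1271251), (nat_lit 1271251), (nat_lit 230000), (nat_lit 1100000), [(nat_lit 490000), (nat_lit 1100000), (nat_lit 1785001)], [(nat_lit 4), (nat_lit 51), (nat_lit 345), (nat_lit 125), (nat_lit 10)]⟩,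
 ⟨⟨[(nat_lit 60), (nat_lit 120), (nat_lit 180)], [(nat_lit 0), (nat_lit 0), (nat_lit 4796)], [((nat_lit 0), (nat_lit 0), (nat_lit 0)), ((nat_lit 0), (nat_lit 0), (nat_lit 0)), ((nat_lit 802), (nat_lit 1000), (nat_lit 999))], ((nat_lit 97), (nat_lit 73), (nat_lit 100))⟩, (nat_lit 0), (nat_lit 90), (nat_lit 90), (nat_lit 0), (nat_lit 0), [(nat_lit 3282000000), (nat_lit 7968000000), (nat_lit 14058000000)], [], [(nat_lit 17117283167), (nat_lit 19798133927), (nat_lit 21212694643), (nat_lit 23392309990), (nat_lit 27112152995), (nat_lit 28730711333), (nat_lit 29406284119), (nat_lit 30842542090)], (nat_lit 0), (nat_lit 0), (nat_lit 0), (nat_lit 0), (nat_lit 0), (nat_lit 0), [], [(nat_lit 13), (nat_lit 60), (nat_lit 483), (nat_lit 250), (nat_lit 10)]⟩,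
 Rw.none⟩) (.spl (nat_lit 4) (nat_lit 120) (.leaf ⟨(nat_lit 23), (nat_lit 562), (nat_lit 0), (nat_lit 415), (nat_lit 0), (nat_lit 3842), (nat_lit 8645), (nat_lit 5510), (nat_lit 0), (nat_lit 0), (nat_lit 92000), [((nat_lit 400), [((nat_lit 43), (nat_lit 5), (nat_lit 23))])], ⟨(nat_lit 7), false, true, false, (nat_lit 265), (nat_lit 0), (nat_lit 2237), [(nat_lit 1572676), (nat_lit 1583333), (nat_lit 1616372), (nat_lit 1631480), (nat_lit 1705063), (nat_lit 1699935), (nat_lit 1748802), (nat_lit 1748125)]⟩, ⟨(nat_lit 3), false, false, false, (nat_lit 111), (nat_lit 0), (nat_lit 2237), [(nat_lit 1177178), (nat_lit 1196337), (nat_lit 1242721), (nat_lit 1268557), (nat_lit 1294870), (nat_lit 1299999), (nat_lit 1360436), (nat_lit 1372242)]⟩, (nat_lit 4452654), (nat_lit 42613381), (nat_lit 19480772), (nat_lit 4905847), (nat_lit 5), (nat_lit 0), [⟨(nat_lit 0), (nat_lit 88), (nat_lit 32), (nat_lit 100), (nat_lit 919639044)⟩], [⟨(nat_lit 0), (nat_lit 100), (nat_lit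 32), (nat_lit 87), (nat_lit 951096294)⟩, ⟨(nat_lit 0), (nat_lit 100), (nat_lit 48), (nat_lit 71), (nat_lit 140750107)⟩], [], [],
 ⟨⟨[(nat_lit 40), (nat_lit 80), (nat_lit 120)], [(nat_lit 0), (nat_lit 2514), (nat_lit 4610)], [((nat_lit 0), (nat_lit 0), (nat_lit 0)), ((nat_lit 1000), (nat_lit 446), (nat_lit 804)), ((nat_lit 1000), (nat_lit 443), (nat_lit 819))], ((nat_lit 44), (nat_lit 100), (nat_lit 95))⟩, (nat_lit 1138129), (nat_lit 200), (nat_lit 200), (nat_lit 0), (nat_lit 158537), [(nat_lit 1821966005), (nat_lit 4075921341), (nat_lit 6543186800)], [(nat_lit 0), (nat_lit 0), (nat_lit 0)], [(nat_lit 24864804088), (nat_lit 26291754178), (nat_lit 27523609412), (nat_lit 28724496164), (nat_lit 24312919030), (nat_lit 25483030855), (nat_lit 26652183761), (nat_lit 27647159056)], (nat_lit 1271251), (nat_lit 1271251), (nat_lit 1271251), (nat_lit 1271251), (nat_lit 230000), (nat_lit 780000), [(nat_lit 490000), (nat_lit 1100000), (nat_lit 1785001)], [(nat_lit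 4), (nat_lit 51), (nat_lit 317), (nat_lit 100), (nat_lit 10)]⟩,
 ⟨⟨[(nat_lit 60), (nat_lit 120), (nat_lit 180)], [(nat_lit 0), (nat_lit 0), (nat_lit 4796)], [((nat_lit 0), (nat_lit 0), (nat_lit 0)), ((nat_lit 0), (nat_lit 0), (nat_lit 0)), ((nat_lit 802), (nat_lit 1000), (nat_lit 999))], ((nat_lit 97), (nat_lit 73), (nat_lit 100))⟩, (nat_lit 1674620), (nat_lit 425), (nat_lit 425), (nat_lit 0), (nat_lit 563731), [(nat_lit 3206514000), (nat_lit 7784736000), (nat_lit 13734666000)], [], [(nat_lit 28130083123), (nat_lit 29422886835), (nat_lit 29381162180), (nat_lit 30348988993), (nat_lit 33315579956), (nat_lit 34261383480), (nat_lit 33810254013), (nat_lit 34477548342)], (nat_lit 1271251), (nat_lit 1271251), (nat_lit 1271251), (nat_lit 1271251), (nat_lit 1271251), (nat_lit 1271251), [(nat_lit 780000), (nat_lit 1762501), (nat_lit 1271251)], [(nat_lit 13), (nat_lit 60), (nat_lit 483), (nat_lit 250), (nat_lit 10)]⟩,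
 ⟨⟨[(nat_lit 140), (nat_lit 180), (nat_lit 200)], [(nat_lit 0), (nat_lit 0), (nat_lit 2835)], [((nat_lit 0), (nat_lit 0), (nat_lit 0)), ((nat_lit 0), (nat_lit 0), (nat_lit 0)), ((nat_lit 363), (nat_lit 1000), (nat_lit 798))], ((nat_lit 0), (nat_lit 0), (nat_lit 0))⟩, (nat_lit 114180), (nat_lit 300), (nat_lit 855), (nat_lit 32411500), (nat_lit 906178), [(nat_lit 4084430000), (nat_lit 5834070000), (nat_lit 6806000000)], [], [(nat_lit 26723441600), (nat_lit 25547273504), (nat_lit 23915033150), (nat_lit 22773643742), (nat_lit 26455523503), (nat_lit 25243796550), (nat_lit 23360780993), (nat_lit 22199666214)], (nat_lit 780000), (nat_lit 1271251), (nat_lit 230000), (nat_lit 780000), (nat_lit 1271251), (nat_lit 1271251), [(nat_lit 1977501), (nat_lit 1271251), (nat_lit 1271251)], [(nat_lit 32), (nat_lit 67), (nat_lit 401), (nat_lit 175), (nat_lit 9)]⟩⟩) (.spl (nat_lit 0) (nat_lit 390) (.spl (nat_lit 0) (nat_lit 385) (.spl (nat_lit 1) (nat_lit 300) (.leaf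 ⟨(nat_lit 22), (nat_lit 750), (nat_lit 0), (nat_lit 228), (nat_lit 0), (nat_lit 3906), (nat_lit 9632), (nat_lit 2678), (nat_lit 0), (nat_lit 0), (nat_lit 88000), [((nat_lit 385), [((nat_lit 43), (nat_lit 5), (nat_lit 22))])], ⟨(nat_lit 7), false, true, false, (nat_lit 261), (nat_lit 1936), (nat_lit 2237), [(nat_lit 1576804), (nat_lit 1578032), (nat_lit 1599570), (nat_lit 1601034), (nat_lit 1705125), (nat_lit 1703818), (nat_lit 1727891), (nat_lit 1726821)]⟩, ⟨(nat_lit 3), false, false, false, (nat_lit 143), (nat_lit 1936), (nat_lit 2237), [(nat_lit 1294870), (nat_lit 1296177), (nat_lit 1363171), (nat_lit 1365187), (nat_lit 1351886), (nat_lit 1352066), (nat_lit 1420202), (nat_lit 1421092)]⟩, (nat_lit 4782056), (nat_lit 41272292), (nat_lit 18566509), (nat_lit 7161199), (nat_lit 5), (nat_lit 0), [⟨(nat_lit 0), (nat_lit 89), (nat_lit 41), (nat_lit 100), (nat_lit 305578677)⟩], [], [⟨(nat_lit 1), (nat_lit 68), (nat_lit 92), (nat_lit 100), (nat_lit 229334290)⟩],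 [],
 ⟨⟨[(nat_lit 40), (nat_lit 80), (nat_lit 120)], [(nat_lit 0), (nat_lit 2514), (nat_lit 4610)], [((nat_lit 0), (nat_lit 0), (nat_lit 0)), ((nat_lit 1000), (nat_lit 446), (nat_lit 804)), ((nat_lit 1000), (nat_lit 443), (nat_lit 819))], ((nat_lit 44), (nat_lit 100), (nat_lit 95))⟩, (nat_lit 1438046), (nat_lit 144), (nat_lit 144), (nat_lit 0), (nat_lit 119486), [(nat_lit 1823484115), (nat_lit 4878686930), (nat_lit 6605135200)], [(nat_lit 0), (nat_lit 0), (nat_lit 0)], [(nat_lit 22600592886), (nat_lit 22917017516), (nat_lit 25748413139), (nat_lit 26123477961), (nat_lit 22771342667), (nat_lit 23069185576), (nat_lit 25750785743), (nat_lit 26106942576)], (nat_lit 1271251), (nat_lit 1271251), (nat_lit 1271251), (nat_lit 1271251), (nat_lit 780000), (nat_lit 1100000), [(nat_lit 490000), (nat_lit 1100000), (nat_lit 1785001)], [(nat_lit 4), (nat_lit 51), (nat_lit 345), (nat_lit 125), (nat_lit 10)]⟩,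
 ⟨⟨[(nat_lit 60), (nat_lit 120), (nat_lit 180)], [(nat_lit 0), (nat_lit 0), (nat_lit 4796)], [((nat_lit 0), (nat_lit 0), (nat_lit 0)), ((nat_lit 0), (nat_lit 0), (nat_lit 0)), ((nat_lit 802), (nat_lit 1000), (nat_lit 999))], ((nat_lit 97), (nat_lit 73), (nat_lit 100))⟩, (nat_lit 1938254), (nat_lit 274), (nat_lit 274), (nat_lit 0), (nat_lit 328109), [(nat_lit 3209796000), (nat_lit 7792704000), (nat_lit 13748724000)], [], [(nat_lit 25237628165), (nat_lit 25906691246), (nat_lit 26864634676), (nat_lit 27633092451), (nat_lit 31879226545), (nat_lit 32356132923), (nat_lit 33702391766), (nat_lit 34615317335)], (nat_lit 1271251), (nat_lit 1271251), (nat_lit 1271251), (nat_lit 1271251), (nat_lit 1271251), (nat_lit 1271251), [(nat_lit 780000), (nat_lit 1762501), (nat_lit 1271251)], [(nat_lit 13), (nat_lit 60), (nat_lit 483), (nat_lit 250), (nat_lit 10)]⟩,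
 ⟨⟨[(nat_lit 140), (nat_lit 180), (nat_lit 200)], [(nat_lit 0), (nat_lit 0), (nat_lit 2835)], [((nat_lit 0), (nat_lit 0), (nat_lit 0)), ((nat_lit 0), (nat_lit 0), (nat_lit 0)), ((nat_lit 363), (nat_lit 1000), (nat_lit 798))], ((nat_lit 0), (nat_lit 0), (nat_lit 0))⟩, (nat_lit 62730), (nat_lit 300), (nat_lit 1021), (nat_lit 17806803), (nat_lit 1396567), [(nat_lit 2243976000), (nat_lit 3205224000), (nat_lit 3739200000)], [], [(nat_lit 14381245062), (nat_lit 13774117522), (nat_lit 13905340252), (nat_lit 13301421605), (nat_lit 13612229342), (nat_lit 13008507302), (nat_lit 13113239534), (nat_lit 12505862930)], (nat_lit 780000), (nat_lit 1271251), (nat_lit 780000), (nat_lit 1100000), (nat_lit 1271251), (nat_lit 1271251), [(nat_lit 1977501), (nat_lit 1271251), (nat_lit 1271251)], [(nat_lit 32), (nat_lit 67), (nat_lit 428), (nat_lit 200), (nat_lit 9)]⟩⟩) (.trZ (nat_lit 0) (nat_lit 1) (nat_lit 3) (nat_lit 87) (nat_lit 44) (nat_lit 100) (nat_lit 210) (.trX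 (nat_lit 5) (nat_lit 1) (nat_lit 2) (nat_lit 87) (nat_lit 59) (nat_lit 100) (nat_lit 370) (.leaf ⟨(nat_lit 0), (nat_lit 834), (nat_lit 0), (nat_lit 166), (nat_lit 0), (nat_lit 5125), (nat_lit 7591), (nat_lit 1964), (nat_lit 0), (nat_lit 0), (nat_lit 0), [], Pd.none, Pd.none, (nat_lit 0), (nat_lit 1), (nat_lit 0), (nat_lit 0), (nat_lit 5), (nat_lit 0), [⟨(nat_lit 0), (nat_lit 85), (nat_lit 41), (nat_lit 100), (nat_lit 355861356)⟩], [], [⟨(nat_lit 1), (nat_lit 77), (nat_lit 86), (nat_lit 100), (nat_lit 278289185)⟩], [],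
 ⟨⟨[(nat_lit 40), (nat_lit 80), (nat_lit 120)], [(nat_lit 0), (nat_lit 2514), (nat_lit 4610)], [((nat_lit 0), (nat_lit 0), (nat_lit 0)), ((nat_lit 1000), (nat_lit 446), (nat_lit 804)), ((nat_lit 1000), (nat_lit 443), (nat_lit 819))], ((nat_lit 44), (nat_lit 100), (nat_lit 95))⟩, (nat_lit 1212321), (nat_lit 156), (nat_lit 156), (nat_lit 0), (nat_lit 162145), [(nat_lit 2242549161), (nat_lit 6186861081), (nat_lit 7968000000)], [], [(nat_lit 25117631058), (nat_lit 25488592888), (nat_lit 27283183378), (nat_lit 27603744860), (nat_lit 25006017956), (nat_lit 25357194702), (nat_lit 27056228503), (nat_lit 27360183425)], (nat_lit 1271251), (nat_lit 1271251), (nat_lit 1271251), (nat_lit 1271251), (nat_lit 780000), (nat_lit 1100000), [(nat_lit 490000), (nat_lit 1100000), (nat_lit 1785001)], [(nat_lit 4), (nat_lit 51), (nat_lit 345), (nat_lit 125), (nat_lit 10)]⟩,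
 ⟨⟨[(nat_lit 60), (nat_lit 120), (nat_lit 180)], [(nat_lit 0), (nat_lit 913), (nat_lit 5370)], [((nat_lit 0), (nat_lit 0), (nat_lit 0)), ((nat_lit 1000), (nat_lit 905), (nat_lit 238)), ((nat_lit 862), (nat_lit 939), (nat_lit 1000))], ((nat_lit 92), (nat_lit 81), (nat_lit 100))⟩, (nat_lit 2238323), (nat_lit 291), (nat_lit 291), (nat_lit 0), (nat_lit 397047), [(nat_lit 3282000000), (nat_lit 7968000000), (nat_lit 14058000000)], [], [(nat_lit 25850059383), (nat_lit 26452831372), (nat_lit 26943192255), (nat_lit 27525764672), (nat_lit 30552810078), (nat_lit 31315306942), (nat_lit 32372941359), (nat_lit 33256954557)], (nat_lit 1271251), (nat_lit 1271251), (nat_lit 1271251), (nat_lit 1271251), (nat_lit 1271251), (nat_lit 1271251), [(nat_lit 780000), (nat_lit 1762501), (nat_lit 1271251)], [(nat_lit 13), (nat_lit 60), (nat_lit 483), (nat_lit 250), (nat_lit 10)]⟩,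
 ⟨⟨[(nat_lit 140), (nat_lit 180), (nat_lit 200)], [(nat_lit 0), (nat_lit 0), (nat_lit 2835)], [((nat_lit 0), (nat_lit 0), (nat_lit 0)), ((nat_lit 0), (nat_lit 0), (nat_lit 0)), ((nat_lit 363), (nat_lit 1000), (nat_lit 798))], ((nat_lit 0), (nat_lit 0), (nat_lit 0))⟩, (nat_lit 45672), (nat_lit 300), (nat_lit 1253), (nat_lit 12964600), (nat_lit 1906471), [(nat_lit 1633772000), (nat_lit 2333628000), (nat_lit 2722400000)], [], [(nat_lit 10393831764), (nat_lit 9951984740), (nat_lit 10044288840), (nat_lit 9600833821), (nat_lit 9862026519), (nat_lit 9422193388), (nat_lit 9496566133), (nat_lit 9054974209)], (nat_lit 780000), (nat_lit 1271251), (nat_lit 780000), (nat_lit 1100000), (nat_lit 1271251), (nat_lit 1271251), [(nat_lit 1977501), (nat_lit 1271251), (nat_lit 1271251)], [(nat_lit 32), (nat_lit 67), (nat_lit 428), (nat_lit 200), (nat_lit 9)]⟩⟩)))) (.trZ (nat_lit 0) (nat_lit 1) (nat_lit 3) (nat_lit 92) (nat_lit 38) (nat_lit 100) (nat_lit 200) (.spl (nat_lit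 1) (nat_lit 300) (.leaf ⟨(nat_lit 0), (nat_lit 804), (nat_lit 0), (nat_lit 196), (nat_lit 0), (nat_lit 4190), (nat_lit 8594), (nat_lit 2302), (nat_lit 0), (nat_lit 0), (nat_lit 0), [], Pd.none, Pd.none, (nat_lit 0), (nat_lit 1), (nat_lit 0), (nat_lit 0), (nat_lit 5), (nat_lit 0), [⟨(nat_lit 0), (nat_lit 90), (nat_lit 35), (nat_lit 100), (nat_lit 650794078)⟩], [], [⟨(nat_lit 1), (nat_lit 68), (nat_lit 92), (nat_lit 100), (nat_lit 215510798)⟩], [],
 ⟨⟨[(nat_lit 40), (nat_lit 80), (nat_lit 120)], [(nat_lit 0), (nat_lit 2833), (nat_lit 5014)], [((nat_lit 0), (nat_lit 0), (nat_lit 0)), ((nat_lit 1000), (nat_lit 389), (nat_lit 842)), ((nat_lit 1000), (nat_lit 387), (nat_lit 852))], ((nat_lit 38), (nat_lit 100), (nat_lit 94))⟩, (nat_lit 1443235), (nat_lit 151), (nat_lit 151), (nat_lit 0), (nat_lit 137578), [(nat_lit 2032000005), (nat_lit 5641954506), (nat_lit 7968000000)], [], [(nat_lit 23829889799), (nat_lit 24168978269), (nat_lit 26468347362), (nat_lit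 26857526238), (nat_lit 23911242702), (nat_lit 24214300733), (nat_lit 26390648529), (nat_lit 26759940113)], (nat_lit 1271251), (nat_lit 1271251), (nat_lit 1271251), (nat_lit 1271251), (nat_lit 780000), (nat_lit 1100000), [(nat_lit 490000), (nat_lit 1100000), (nat_lit 1785001)], [(nat_lit 4), (nat_lit 51), (nat_lit 345), (nat_lit 125), (nat_lit 10)]⟩,
 ⟨⟨[(nat_lit 60), (nat_lit 120), (nat_lit 180)], [(nat_lit 0), (nat_lit 0), (nat_lit 4796)], [((nat_lit 0), (nat_lit 0), (nat_lit 0)), ((nat_lit 0), (nat_lit 0), (nat_lit 0)), ((nat_lit 802), (nat_lit 1000), (nat_lit 999))], ((nat_lit 97), (nat_lit 73), (nat_lit 100))⟩, (nat_lit 1966032), (nat_lit 292), (nat_lit 292), (nat_lit 0), (nat_lit 387762), [(nat_lit 3282000000), (nat_lit 7968000000), (nat_lit 14058000000)], [], [(nat_lit 28079176676), (nat_lit 28718165941), (nat_lit 29314927644), (nat_lit 29808493587), (nat_lit 32918588059), (nat_lit 33387555592), (nat_lit 33717904891), (nat_lit 34142651359)],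 (nat_lit 1271251), (nat_lit 1271251), (nat_lit 1271251), (nat_lit 1271251), (nat_lit 1271251), (nat_lit 1271251), [(nat_lit 780000), (nat_lit 1762501), (nat_lit 1271251)], [(nat_lit 13), (nat_lit 60), (nat_lit 483), (nat_lit 250), (nat_lit 10)]⟩,
 ⟨⟨[(nat_lit 140), (nat_lit 180), (nat_lit 200)], [(nat_lit 0), (nat_lit 0), (nat_lit 2835)], [((nat_lit 0), (nat_lit 0), (nat_lit 0)), ((nat_lit 0), (nat_lit 0), (nat_lit 0)), ((nat_lit 363), (nat_lit 1000), (nat_lit 798))], ((nat_lit 0), (nat_lit 0), (nat_lit 0))⟩, (nat_lit 53926), (nat_lit 300), (nat_lit 1136), (nat_lit 15307600), (nat_lit 1661377), [(nat_lit 1929032000), (nat_lit 2755368000), (nat_lit 3214400000)], [], [(nat_lit 12363578934), (nat_lit 11841702170), (nat_lit 11954497876), (nat_lit 11435379385), (nat_lit 11702282174), (nat_lit 11183123013), (nat_lit 11273396230), (nat_lit 10751057636)], (nat_lit 780000), (nat_lit 1271251), (nat_lit 780000), (nat_lit 1100000), (nat_lit 1271251), (nat_lit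 1271251), [(nat_lit 1977501), (nat_lit 1271251), (nat_lit 1271251)], [(nat_lit 32), (nat_lit 67), (nat_lit 428), (nat_lit 200), (nat_lit 9)]⟩⟩) (.trZ (nat_lit 0) (nat_lit 1) (nat_lit 3) (nat_lit 87) (nat_lit 38) (nat_lit 100) (nat_lit 220) (.trX (nat_lit 5) (nat_lit 1) (nat_lit 2) (nat_lit 87) (nat_lit 59) (nat_lit 100) (nat_lit 370) (.leaf ⟨(nat_lit 0), (nat_lit 847), (nat_lit 0), (nat_lit 153), (nat_lit 0), (nat_lit 4238), (nat_lit 7259), (nat_lit 1813), (nat_lit 0), (nat_lit 0), (nat_lit 0), [], Pd.none, Pd.none, (nat_lit 0), (nat_lit 1), (nat_lit 0), (nat_lit 0), (nat_lit 5), (nat_lit 0), [⟨(nat_lit 0), (nat_lit 86), (nat_lit 36), (nat_lit 100), (nat_lit 642872457)⟩], [], [⟨(nat_lit 1), (nat_lit 77), (nat_lit 86), (nat_lit 100), (nat_lit 273593394)⟩], [],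
 ⟨⟨[(nat_lit 40), (nat_lit 80), (nat_lit 120)], [(nat_lit 0), (nat_lit 2833), (nat_lit 5014)], [((nat_lit 0), (nat_lit 0), (nat_lit 0)), ((nat_lit 1000), (nat_lit 389), (nat_lit 842)), ((nat_lit 1000), (nat_lit 387), (nat_lit 852))], ((nat_lit 38), (nat_lit 100), (nat_lit 94))⟩, (nat_lit 1340674), (nat_lit 162), (nat_lit 162), (nat_lit 0), (nat_lit 177807), [(nat_lit 2036907463), (nat_lit 5688244075), (nat_lit 7968000000)], [], [(nat_lit 24765417173), (nat_lit 25094529205), (nat_lit 26603187688), (nat_lit 26918199498), (nat_lit 24783982148), (nat_lit 25096297818), (nat_lit 26533093965), (nat_lit 26810211482)], (nat_lit 1271251), (nat_lit 1271251), (nat_lit 1271251), (nat_lit 1271251), (nat_lit 780000), (nat_lit 1100000), [(nat_lit 490000), (nat_lit 1100000), (nat_lit 1785001)], [(nat_lit 4), (nat_lit 51), (nat_lit 345), (nat_lit 125), (nat_lit 10)]⟩,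
 ⟨⟨[(nat_lit 60), (nat_lit 120), (nat_lit 180)], [(nat_lit 0), (nat_lit 913), (nat_lit 5370)], [((nat_lit 0), (nat_lit 0), (nat_lit 0)), ((nat_lit 1000), (nat_lit 905), (nat_lit 238)), ((nat_lit 862), (nat_lit 939), (nat_lit 1000))], ((nat_lit 92), (nat_lit 81), (nat_lit 100))⟩, (nat_lit 2092190), (nat_lit 373), (nat_lit 373), (nat_lit 0), (nat_lit 447067), [(nat_lit 3282000000), (nat_lit 7968000000), (nat_lit 14058000000)], [], [(nat_lit 27407141816), (nat_lit 27988776661), (nat_lit 28446894792), (nat_lit 28931336677), (nat_lit 31440281174), (nat_lit 31940868271), (nat_lit 32287006819), (nat_lit 32930971393)], (nat_lit 1271251), (nat_lit 1271251), (nat_lit 1271251), (nat_lit 1271251), (nat_lit 1271251), (nat_lit 1271251), [(nat_lit 780000), (nat_lit 1762501), (nat_lit 1271251)], [(nat_lit 13), (nat_lit 60), (nat_lit 483), (nat_lit 250), (nat_lit 10)]⟩,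
 ⟨⟨[(nat_lit 140), (nat_lit 180), (nat_lit 200)], [(nat_lit 0), (nat_lit 0), (nat_lit 2835)], [((nat_lit 0), (nat_lit 0), (nat_lit 0)), ((nat_lit 0), (nat_lit 0), (nat_lit 0)), ((nat_lit 363), (nat_lit 1000), (nat_lit 798))], ((nat_lit 0), (nat_lit 0), (nat_lit 0))⟩, (nat_lit 42095), (nat_lit 300), (nat_lit 1363), (nat_lit 11949304), (nat_lit 2156836), [(nat_lit 1505826000), (nat_lit 2150874000), (nat_lit 2509200000)], [], [(nat_lit 9564723637), (nat_lit 9161563044), (nat_lit 9241952622), (nat_lit 8837296106), (nat_lit 9083097775), (nat_lit 8676885203), (nat_lit 8741465710), (nat_lit 8337778022)], (nat_lit 780000), (nat_lit 1271251), (nat_lit 780000), (nat_lit 1100000), (nat_lit 1271251), (nat_lit 1271251), [(nat_lit 1977501), (nat_lit 1271251), (nat_lit 1271251)], [(nat_lit 32), (nat_lit 67), (nat_lit 430), (nat_lit 200), (nat_lit 9)]⟩⟩)))))) (.trZ (nat_lit 0) (nat_lit 1) (nat_lit 3) (nat_lit 92) (nat_lit 31) (nat_lit 100) (nat_lit 210) (.leaf ⟨(nat_lit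 212), (nat_lit 665), (nat_lit 0), (nat_lit 123), (nat_lit 0), (nat_lit 3962), (nat_lit 6625), (nat_lit 1460), (nat_lit 0), (nat_lit 0), (nat_lit 55120), [((nat_lit 400), [((nat_lit 42), (nat_lit 0), (nat_lit 212))])], ⟨(nat_lit 7), false, true, false, (nat_lit 271), (nat_lit 0), (nat_lit 1582), [(nat_lit 1604619), (nat_lit 1610200), (nat_lit 1649935), (nat_lit 1658886), (nat_lit 1702515), (nat_lit 1699984), (nat_lit 1747842), (nat_lit 1748680)]⟩, ⟨(nat_lit 3), false, false, false, (nat_lit 144), (nat_lit 0), (nat_lit 1582), [(nat_lit 1297467), (nat_lit 1299999), (nat_lit 1365448), (nat_lit 1373034), (nat_lit 1352101), (nat_lit 1349997), (nat_lit 1421394), (nat_lit 1424345)]⟩, (nat_lit 4834590), (nat_lit 40370513), (nat_lit 19494029), (nat_lit 7135458), (nat_lit 5), (nat_lit 0), [⟨(nat_lit 0), (nat_lit 91), (nat_lit 23), (nat_lit 100), (nat_lit 817992703)⟩], [⟨(nat_lit 1), (nat_lit 100), (nat_lit 22), (nat_lit 97), (nat_lit 81968458)⟩], [⟨(nat_lit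 1), (nat_lit 72), (nat_lit 89), (nat_lit 100), (nat_lit 196914765)⟩], [],
 ⟨⟨[(nat_lit 40), (nat_lit 80), (nat_lit 100)], [(nat_lit 0), (nat_lit 3225), (nat_lit 4371)], [((nat_lit 0), (nat_lit 0), (nat_lit 0)), ((nat_lit 1000), (nat_lit 321), (nat_lit 877)), ((nat_lit 1000), (nat_lit 317), (nat_lit 896))], ((nat_lit 31), (nat_lit 100), (nat_lit 94))⟩, (nat_lit 782831), (nat_lit 157), (nat_lit 157), (nat_lit 0), (nat_lit 208261), [(nat_lit 1759368009), (nat_lit 3969411533), (nat_lit 5279803200)], [(nat_lit 0), (nat_lit 0), (nat_lit 0)], [(nat_lit 24578719010), (nat_lit 25181950788), (nat_lit 26650683464), (nat_lit 27325024002), (nat_lit 24736276859), (nat_lit 25321628830), (nat_lit 26662271778), (nat_lit 27239351387)], (nat_lit 1271251), (nat_lit 1271251), (nat_lit 1271251), (nat_lit 1271251), (nat_lit 780000), (nat_lit 1100000), [(nat_lit 490000), (nat_lit 1100000), (nat_lit 1442501)], [(nat_lit 3), (nat_lit 50), (nat_lit 249), (nat_lit 40), (nat_lit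 8)]⟩,
 ⟨⟨[(nat_lit 60), (nat_lit 120), (nat_lit 180)], [(nat_lit 0), (nat_lit 0), (nat_lit 4796)], [((nat_lit 0), (nat_lit 0), (nat_lit 0)), ((nat_lit 0), (nat_lit 0), (nat_lit 0)), ((nat_lit 802), (nat_lit 1000), (nat_lit 999))], ((nat_lit 97), (nat_lit 73), (nat_lit 100))⟩, (nat_lit 1468391), (nat_lit 419), (nat_lit 419), (nat_lit 0), (nat_lit 562662), [(nat_lit 2586216000), (nat_lit 6278784000), (nat_lit 11077704000)], [], [(nat_lit 22818264950), (nat_lit 23793005493), (nat_lit 23748278522), (nat_lit 24524128121), (nat_lit 26345051155), (nat_lit 27061563208), (nat_lit 26833594513), (nat_lit 27447019196)], (nat_lit 1271251), (nat_lit 1271251), (nat_lit 1271251), (nat_lit 1271251), (nat_lit 1271251), (nat_lit 1271251), [(nat_lit 780000), (nat_lit 1762501), (nat_lit 1271251)], [(nat_lit 13), (nat_lit 60), (nat_lit 483), (nat_lit 250), (nat_lit 10)]⟩,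
 ⟨⟨[(nat_lit 140), (nat_lit 180), (nat_lit 200)], [(nat_lit 0), (nat_lit 0), (nat_lit 2835)], [((nat_lit 0), (nat_lit 0), (nat_lit 0)), ((nat_lit 0), (nat_lit 0), (nat_lit 0)), ((nat_lit 363), (nat_lit 1000), (nat_lit 798))], ((nat_lit 0), (nat_lit 0), (nat_lit 0))⟩, (nat_lit 33841), (nat_lit 300), (nat_lit 1613), (nat_lit 9606304), (nat_lit 2676459), [(nat_lit 1210566000), (nat_lit 1729134000), (nat_lit 2017200000)], [], [(nat_lit 7676491205), (nat_lit 7355374383), (nat_lit 7415844056), (nat_lit 7094142951), (nat_lit 7307356913), (nat_lit 6977151145), (nat_lit 7030519411), (nat_lit 6702456368)], (nat_lit 780000), (nat_lit 1271251), (nat_lit 780000), (nat_lit 1100000), (nat_lit 1271251), (nat_lit 1271251), [(nat_lit 1977501), (nat_lit 1271251), (nat_lit 1271251)], [(nat_lit 32), (nat_lit 67), (nat_lit 494), (nat_lit 200), (nat_lit 10)]⟩⟩)))))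
noncomputable def c14_103 : Tr Lf :=
 (.spl (nat_lit 2) (nat_lit 160) (.trX (nat_lit 4) (nat_lit 0) (nat_lit 2) (nat_lit 44) (nat_lit 99) (nat_lit 100) (nat_lit 250) (.trX (nat_lit 5) (nat_lit 1) (nat_lit 2) (nat_lit 100) (nat_lit 40) (nat_lit 100) (nat_lit 390) (.spl (nat_lit 6) (nat_lit 112) (.spl (nat_lit 5) (nat_lit 200) (.spl (nat_lit 1) (nat_lit 260) (.leaf ⟨(nat_lit 879), (nat_lit 121), (nat_lit 0), (nat_lit 0), (nat_lit 9369), (nat_lit 3495), (nat_lit 1451), (nat_lit 0), (nat_lit 0), (nat_lit 0), (nat_lit 336300), [((nat_lit 390), [((nat_lit 29), (nat_lit 0), (nat_lit 102)), ((nat_lit 29), (nat_lit 1), (nat_lit 777))])], ⟨(nat_lit 6), false, false, false, (nat_lit 209), (nat_lit 1581), (nat_lit 2237), [(nat_lit 1474080), (nat_lit 1478137), (nat_lit 1496810), (nat_lit 1501407), (nat_lit 1545457), (nat_lit 1546538), (nat_lit 1568186), (nat_lit 1569808)]⟩, ⟨(nat_lit 4), false, false, true, (nat_lit 175), (nat_lit 1581), (nat_lit 2237), [(nat_lit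 1351886), (nat_lit 1352103), (nat_lit 1397434), (nat_lit 1398733), (nat_lit 1480171), (nat_lit 1475033), (nat_lit 1525719), (nat_lit 1521663)]⟩, (nat_lit 4773886), (nat_lit 43521264), (nat_lit 13372699), (nat_lit 10106037), (nat_lit 4), (nat_lit 0), [⟨(nat_lit 0), (nat_lit 98), (nat_lit 38), (nat_lit 100), (nat_lit 70500500)⟩], [⟨(nat_lit 1), (nat_lit 100), (nat_lit 38), (nat_lit 96), (nat_lit 374907077)⟩], [], [],
 ⟨⟨[(nat_lit 40), (nat_lit 80), (nat_lit 100)], [(nat_lit 0), (nat_lit 2514), (nat_lit 3562)], [((nat_lit 0), (nat_lit 0), (nat_lit 0)), ((nat_lit 1000), (nat_lit 446), (nat_lit 804)), ((nat_lit 1000), (nat_lit 443), (nat_lit 819))], ((nat_lit 44), (nat_lit 100), (nat_lit 90))⟩, (nat_lit 0), (nat_lit 110), (nat_lit 110), (nat_lit 0), (nat_lit 107317), [(nat_lit 1462318218), (nat_lit 1057915818), (nat_lit 1011500800)], [(nat_lit 0), (nat_lit 0), (nat_lit 0)], [(nat_lit 22102619699), (nat_lit 22747562421), (nat_lit 23101817613), (nat_lit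 23698801146), (nat_lit 24312317503), (nat_lit 24899300028), (nat_lit 25136340242), (nat_lit 25681088605)], (nat_lit 1271251), (nat_lit 1271251), (nat_lit 1017188), (nat_lit 1440626), (nat_lit 1100000), (nat_lit 1870626), [(nat_lit 490000), (nat_lit 1100000), (nat_lit 1442501)], [(nat_lit 3), (nat_lit 50), (nat_lit 345), (nat_lit 125), (nat_lit 12)]⟩,
 ⟨⟨[(nat_lit 80), (nat_lit 140), (nat_lit 180)], [(nat_lit 0), (nat_lit 0), (nat_lit 3656)], [((nat_lit 0), (nat_lit 0), (nat_lit 0)), ((nat_lit 0), (nat_lit 0), (nat_lit 0)), ((nat_lit 637), (nat_lit 1000), (nat_lit 908))], ((nat_lit 100), (nat_lit 62), (nat_lit 92))⟩, (nat_lit 0), (nat_lit 447), (nat_lit 447), (nat_lit 0), (nat_lit 259634), [(nat_lit 567248000), (nat_lit 1190882000), (nat_lit 1701018000)], [], [(nat_lit 6158289144), (nat_lit 5420233944), (nat_lit 5295698028), (nat_lit 5398946304), (nat_lit 4190415614), (nat_lit 4152232703), (nat_lit 5145394202), (nat_lit 4475023134)], (nat_lit 1271251),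 (nat_lit 1271251), (nat_lit 1017188), (nat_lit 1440626), (nat_lit 0), (nat_lit 1412501), [(nat_lit 1100000), (nat_lit 2127501), (nat_lit 1271251)], [(nat_lit 19), (nat_lit 63), (nat_lit 401), (nat_lit 175), (nat_lit 9)]⟩,
 Rw.none⟩) (.trZ (nat_lit 0) (nat_lit 1) (nat_lit 3) (nat_lit 96) (nat_lit 44) (nat_lit 100) (nat_lit 170) (.spl (nat_lit 1) (nat_lit 270) (.leaf ⟨(nat_lit 811), (nat_lit 189), (nat_lit 0), (nat_lit 0), (nat_lit 7424), (nat_lit 4814), (nat_lit 2175), (nat_lit 0), (nat_lit 0), (nat_lit 0), (nat_lit 202750), [((nat_lit 390), [((nat_lit 29), (nat_lit 0), (nat_lit 811))])], ⟨(nat_lit 6), false, false, false, (nat_lit 222), (nat_lit 1581), (nat_lit 2237), [(nat_lit 1525360), (nat_lit 1528768), (nat_lit 1536725), (nat_lit 1540402), (nat_lit 1568186), (nat_lit 1569808), (nat_lit 1579550), (nat_lit 1581443)]⟩, ⟨(nat_lit 4), false, false, true, (nat_lit 175), (nat_lit 1581), (nat_lit 2237), [(nat_lit 1351886), (nat_lit 1352103), (nat_lit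 1397434), (nat_lit 1398733), (nat_lit 1480171), (nat_lit 1475033), (nat_lit 1525719), (nat_lit 1521663)]⟩, (nat_lit 4860350), (nat_lit 42542626), (nat_lit 14482980), (nat_lit 9974394), (nat_lit 4), (nat_lit 0), [⟨(nat_lit 0), (nat_lit 95), (nat_lit 38), (nat_lit 100), (nat_lit 54376340)⟩], [⟨(nat_lit 1), (nat_lit 100), (nat_lit 38), (nat_lit 96), (nat_lit 426228878)⟩], [], [],
 ⟨⟨[(nat_lit 40), (nat_lit 80), (nat_lit 100)], [(nat_lit 0), (nat_lit 2514), (nat_lit 3562)], [((nat_lit 0), (nat_lit 0), (nat_lit 0)), ((nat_lit 1000), (nat_lit 446), (nat_lit 804)), ((nat_lit 1000), (nat_lit 443), (nat_lit 819))], ((nat_lit 44), (nat_lit 100), (nat_lit 90))⟩, (nat_lit 0), (nat_lit 113), (nat_lit 113), (nat_lit 0), (nat_lit 129956), [(nat_lit 1733764209), (nat_lit 2356588936), (nat_lit 2630020400)], [(nat_lit 0), (nat_lit 0), (nat_lit 0)], [(nat_lit 23388769221), (nat_lit 24176416538), (nat_lit 24085987086), (nat_lit 24832934367), (nat_lit 25580839152), (nat_lit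 26260508405), (nat_lit 26127262001), (nat_lit 26882377459)], (nat_lit 1271251), (nat_lit 1271251), (nat_lit 1184688), (nat_lit 1444376), (nat_lit 1100000), (nat_lit 1870626), [(nat_lit 490000), (nat_lit 1100000), (nat_lit 1442501)], [(nat_lit 3), (nat_lit 50), (nat_lit 345), (nat_lit 125), (nat_lit 12)]⟩,
 ⟨⟨[(nat_lit 80), (nat_lit 140), (nat_lit 180)], [(nat_lit 0), (nat_lit 792), (nat_lit 4228)], [((nat_lit 0), (nat_lit 0), (nat_lit 0)), ((nat_lit 1000), (nat_lit 959), (nat_lit 206)), ((nat_lit 709), (nat_lit 1000), (nat_lit 949))], ((nat_lit 100), (nat_lit 72), (nat_lit 94))⟩, (nat_lit 205485), (nat_lit 450), (nat_lit 450), (nat_lit 0), (nat_lit 287316), [(nat_lit 886032000), (nat_lit 1860138000), (nat_lit 2656962000)], [], [(nat_lit 7420876925), (nat_lit 7507161003), (nat_lit 7452163944), (nat_lit 7531422732), (nat_lit 5962706526), (nat_lit 5599692552), (nat_lit 6901011921), (nat_lit 6398580124)], (nat_lit 1271251), (nat_lit 1271251), (nat_lit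 1184688), (nat_lit 1444376), (nat_lit 0), (nat_lit 1412501), [(nat_lit 1100000), (nat_lit 2127501), (nat_lit 1271251)], [(nat_lit 19), (nat_lit 63), (nat_lit 401), (nat_lit 175), (nat_lit 9)]⟩,
 Rw.none⟩) (.trZ (nat_lit 0) (nat_lit 1) (nat_lit 3) (nat_lit 94) (nat_lit 44) (nat_lit 100) (nat_lit 180) (.leaf ⟨(nat_lit 0), (nat_lit 1000), (nat_lit 0), (nat_lit 0), (nat_lit 20057), (nat_lit 7669), (nat_lit 10109), (nat_lit 0), (nat_lit 0), (nat_lit 0), (nat_lit 0), [], Pd.none, Pd.none, (nat_lit 0), (nat_lit 1), (nat_lit 0), (nat_lit 0), (nat_lit 4), (nat_lit 0), [⟨(nat_lit 0), (nat_lit 93), (nat_lit 38), (nat_lit 100), (nat_lit 3774188656)⟩], [⟨(nat_lit 1), (nat_lit 100), (nat_lit 38), (nat_lit 96), (nat_lit 874673585)⟩], [], [],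
 ⟨⟨[(nat_lit 40), (nat_lit 80), (nat_lit 100)], [(nat_lit 0), (nat_lit 2514), (nat_lit 3562)], [((nat_lit 0), (nat_lit 0), (nat_lit 0)), ((nat_lit 1000), (nat_lit 446), (nat_lit 804)), ((nat_lit 1000), (nat_lit 443), (nat_lit 819))], ((nat_lit 44), (nat_lit 100), (nat_lit 90))⟩, (nat_lit 0), (nat_lit 120), (nat_lit 120), (nat_lit 0), (nat_lit 155163), [(nat_lit 2806125165), (nat_lit 5289581006), (nat_lit 6250000000)], [], [(nat_lit 25960855721), (nat_lit 26992684332), (nat_lit 26412648831), (nat_lit 27404887720), (nat_lit 28079462523), (nat_lit 29114576471), (nat_lit 28422221732), (nat_lit 29482589497)], (nat_lit 1271251), (nat_lit 1271251), (nat_lit 1271251), (nat_lit 1271251), (nat_lit 1100000), (nat_lit 1870626), [(nat_lit 490000), (nat_lit 1100000), (nat_lit 1442501)], [(nat_lit 3), (nat_lit 50), (nat_lit 345), (nat_lit 125), (nat_lit 12)]⟩,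
 ⟨⟨[(nat_lit 80), (nat_lit 140), (nat_lit 180)], [(nat_lit 0), (nat_lit 1192), (nat_lit 4513)], [((nat_lit 0), (nat_lit 0), (nat_lit 0)), ((nat_lit 1000), (nat_lit 938), (nat_lit 310)), ((nat_lit 752), (nat_lit 1000), (nat_lit 973))], ((nat_lit 100), (nat_lit 78), (nat_lit 96))⟩, (nat_lit 2514987), (nat_lit 460), (nat_lit 460), (nat_lit 0), (nat_lit 317735), [(nat_lit 4688000000), (nat_lit 9842000000), (nat_lit 14058000000)], [], [(nat_lit 31584399116), (nat_lit 32004867116), (nat_lit 31712241505), (nat_lit 32385502800), (nat_lit 29600502614), (nat_lit 27249785449), (nat_lit 24914574859), (nat_lit 23497465888)], (nat_lit 1271251), (nat_lit 1271251), (nat_lit 1271251), (nat_lit 1271251), (nat_lit 0), (nat_lit 1412501), [(nat_lit 1100000), (nat_lit 2127501), (nat_lit 1271251)], [(nat_lit 19), (nat_lit 63), (nat_lit 401), (nat_lit 175), (nat_lit 9)]⟩,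
 Rw.none⟩))))) (.leaf ⟨(nat_lit 909), (nat_lit 39), (nat_lit 0), (nat_lit 52), (nat_lit 0), (nat_lit 4427), (nat_lit 1609), (nat_lit 597), (nat_lit 0), (nat_lit 0), (nat_lit 227250), [((nat_lit 390), [((nat_lit 29), (nat_lit 0), (nat_lit 909))])], ⟨(nat_lit 6), false, false, false, (nat_lit 214), (nat_lit 1581), (nat_lit 2237), [(nat_lit 1474080), (nat_lit 1478137), (nat_lit 1519538), (nat_lit 1524676), (nat_lit 1545457), (nat_lit 1546538), (nat_lit 1590915), (nat_lit 1593078)]⟩, ⟨(nat_lit 4), false, false, true, (nat_lit 175), (nat_lit 1581), (nat_lit 2237), [(nat_lit 1351886), (nat_lit 1352103), (nat_lit 1397434), (nat_lit 1398733), (nat_lit 1480171), (nat_lit 1475033), (nat_lit 1525719), (nat_lit 1521663)]⟩, (nat_lit 4806881), (nat_lit 43160825), (nat_lit 13780691), (nat_lit 10058484), (nat_lit 5), (nat_lit 0), [⟨(nat_lit 0), (nat_lit 96), (nat_lit 38), (nat_lit 100), (nat_lit 392870012)⟩], [⟨(nat_lit 1), (nat_lit 100), (nat_lit 38), (nat_lit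 96), (nat_lit 243479337)⟩], [], [],
 ⟨⟨[(nat_lit 40), (nat_lit 80), (nat_lit 100)], [(nat_lit 0), (nat_lit 2514), (nat_lit 3562)], [((nat_lit 0), (nat_lit 0), (nat_lit 0)), ((nat_lit 1000), (nat_lit 446), (nat_lit 804)), ((nat_lit 1000), (nat_lit 443), (nat_lit 819))], ((nat_lit 44), (nat_lit 100), (nat_lit 90))⟩, (nat_lit 0), (nat_lit 124), (nat_lit 124), (nat_lit 0), (nat_lit 155136), [(nat_lit 1669633162), (nat_lit 2022314152), (nat_lit 2192587600)], [(nat_lit 0), (nat_lit 0), (nat_lit 0)], [(nat_lit 22857952171), (nat_lit 23633398154), (nat_lit 23823865673), (nat_lit 24537563269), (nat_lit 25127317790), (nat_lit 25785427613), (nat_lit 25873968977), (nat_lit 26529914391)], (nat_lit 1271251), (nat_lit 1271251), (nat_lit 1017188), (nat_lit 1440626), (nat_lit 1100000), (nat_lit 1870626), [(nat_lit 490000), (nat_lit 1100000), (nat_lit 1442501)], [(nat_lit 3), (nat_lit 50), (nat_lit 345), (nat_lit 125), (nat_lit 12)]⟩,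
 ⟨⟨[(nat_lit 80), (nat_lit 140), (nat_lit 180)], [(nat_lit 0), (nat_lit 0), (nat_lit 3656)], [((nat_lit 0), (nat_lit 0), (nat_lit 0)), ((nat_lit 0), (nat_lit 0), (nat_lit 0)), ((nat_lit 637), (nat_lit 1000), (nat_lit 908))], ((nat_lit 100), (nat_lit 62), (nat_lit 92))⟩, (nat_lit 0), (nat_lit 306), (nat_lit 306), (nat_lit 0), (nat_lit 331937), [(nat_lit 426608000), (nat_lit 895622000), (nat_lit 1279278000)], [], [(nat_lit 2541060436), (nat_lit 2833064278), (nat_lit 2931039230), (nat_lit 2800361525), (nat_lit 3807040985), (nat_lit 3907564677), (nat_lit 3648020229), (nat_lit 3729405472)], (nat_lit 1271251), (nat_lit 1271251), (nat_lit 1017188), (nat_lit 1440626), (nat_lit 1271251), (nat_lit 1271251), [(nat_lit 1100000), (nat_lit 2127501), (nat_lit 1271251)], [(nat_lit 19), (nat_lit 63), (nat_lit 456), (nat_lit 225), (nat_lit 10)]⟩,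
 ⟨⟨[(nat_lit 140), (nat_lit 180), (nat_lit 200)], [(nat_lit 0), (nat_lit 0), (nat_lit 2835)], [((nat_lit 0), (nat_lit 0), (nat_lit 0)), ((nat_lit 0), (nat_lit 0), (nat_lit 0)), ((nat_lit 363), (nat_lit 1000), (nat_lit 798))], ((nat_lit 0), (nat_lit 0), (nat_lit 0))⟩, (nat_lit 14307), (nat_lit 300), (nat_lit 1170), (nat_lit 4061200), (nat_lit 1791614), [(nat_lit 511784000), (nat_lit 731016000), (nat_lit 852800000)], [], [(nat_lit 3248607758), (nat_lit 3152361712), (nat_lit 3085357775), (nat_lit 2988950544), (nat_lit 3047699030), (nat_lit 2947359451), (nat_lit 2882490460), (nat_lit 2782255188)], (nat_lit 780000), (nat_lit 1100000), (nat_lit 1100000), (nat_lit 1870626), (nat_lit 1271251), (nat_lit 1271251), [(nat_lit 1977501), (nat_lit 1271251), (nat_lit 1271251)], [(nat_lit 32), (nat_lit 67), (nat_lit 428), (nat_lit 200), (nat_lit 9)]⟩⟩)) (.spl (nat_lit 0) (nat_lit 385) (.spl (nat_lit 6) (nat_lit 120) (.leaf ⟨(nat_lit 1000), (nat_lit 0), (nat_lit 0),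 (nat_lit 0), (nat_lit 13402), (nat_lit 3449), (nat_lit 0), (nat_lit 0), (nat_lit 0), (nat_lit 0), (nat_lit 250000), [((nat_lit 385), [((nat_lit 29), (nat_lit 0), (nat_lit 1000))])], ⟨(nat_lit 6), false, false, false, (nat_lit 213), (nat_lit 1936), (nat_lit 2237), [(nat_lit 1474241), (nat_lit 1476122), (nat_lit 1519772), (nat_lit 1522127), (nat_lit 1545531), (nat_lit 1546004), (nat_lit 1591062), (nat_lit 1592008)]⟩, ⟨(nat_lit 4), false, false, true, (nat_lit 175), (nat_lit 1936), (nat_lit 2237), [(nat_lit 1351886), (nat_lit 1352066), (nat_lit 1397434), (nat_lit 1398088), (nat_lit 1480171), (nat_lit 1477817), (nat_lit 1525719), (nat_lit 1523838)]⟩, (nat_lit 4806808), (nat_lit 43167965), (nat_lit 13753315), (nat_lit 10078720), (nat_lit 0), (nat_lit 0), [⟨(nat_lit 0), (nat_lit 92), (nat_lit 38), (nat_lit 100), (nat_lit 296937815)⟩], [⟨(nat_lit 1), (nat_lit 100), (nat_lit 41), (nat_lit 96), (nat_lit 298314813)⟩], [], [],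
 ⟨⟨[(nat_lit 40), (nat_lit 80), (nat_lit 120)], [(nat_lit 0), (nat_lit 2514), (nat_lit 4610)], [((nat_lit 0), (nat_lit 0), (nat_lit 0)), ((nat_lit 1000), (nat_lit 446), (nat_lit 804)), ((nat_lit 1000), (nat_lit 443), (nat_lit 819))], ((nat_lit 44), (nat_lit 100), (nat_lit 92))⟩, (nat_lit 0), (nat_lit 70), (nat_lit 70), (nat_lit 0), (nat_lit 31386), [(nat_lit 1563200002), (nat_lit 1376400002), (nat_lit 2234000000)], [(nat_lit 0), (nat_lit 0), (nat_lit 0)], [(nat_lit 21753420601), (nat_lit 22094890288), (nat_lit 22831495894), (nat_lit 23147215296), (nat_lit 24108256578), (nat_lit 24400993696), (nat_lit 24993097326), (nat_lit 25304405317)], (nat_lit 1271251), (nat_lit 1271251), (nat_lit 1017188), (nat_lit 1440626), (nat_lit 1100000), (nat_lit 1870626), [(nat_lit 490000), (nat_lit 1100000), (nat_lit 1785001)], [(nat_lit 4), (nat_lit 51), (nat_lit 345), (nat_lit 125), (nat_lit 10)]⟩,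
 Rw.none,
 Rw.none⟩) (.dle (nat_lit 0))) (.trZ (nat_lit 0) (nat_lit 1) (nat_lit 3) (nat_lit 100) (nat_lit 39) (nat_lit 100) (nat_lit 160) (.trX (nat_lit 4) (nat_lit 0) (nat_lit 2) (nat_lit 39) (nat_lit 100) (nat_lit 100) (nat_lit 240) (.leaf ⟨(nat_lit 1000), (nat_lit 0), (nat_lit 0), (nat_lit 0), (nat_lit 12960), (nat_lit 3401), (nat_lit 0), (nat_lit 0), (nat_lit 0), (nat_lit 0), (nat_lit 260000), [((nat_lit 390), [((nat_lit 42), (nat_lit 0), (nat_lit 1000))])], ⟨(nat_lit 6), false, false, false, (nat_lit 217), (nat_lit 1581), (nat_lit 1937), [(nat_lit 1490075), (nat_lit 1491937), (nat_lit 1536068), (nat_lit 1538538), (nat_lit 1545992), (nat_lit 1546601), (nat_lit 1591984), (nat_lit 1593201)]⟩, ⟨(nat_lit 4), false, false, true, (nat_lit 172), (nat_lit 1581), (nat_lit 1937), [(nat_lit 1352066), (nat_lit 1352103), (nat_lit 1398088), (nat_lit 1398733), (nat_lit 1463844), (nat_lit 1461374), (nat_lit 1509866), (nat_lit 1508004)]⟩, (nat_lit 4802447), (nat_lit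 43115863), (nat_lit 14094413), (nat_lit 9789724), (nat_lit 0), (nat_lit 0), [⟨(nat_lit 0), (nat_lit 96), (nat_lit 35), (nat_lit 100), (nat_lit 1016332420)⟩], [⟨(nat_lit 1), (nat_lit 100), (nat_lit 35), (nat_lit 96), (nat_lit 325130322)⟩], [], [],
 ⟨⟨[(nat_lit 40), (nat_lit 80), (nat_lit 120)], [(nat_lit 0), (nat_lit 2833), (nat_lit 5014)], [((nat_lit 0), (nat_lit 0), (nat_lit 0)), ((nat_lit 1000), (nat_lit 389), (nat_lit 842)), ((nat_lit 1000), (nat_lit 387), (nat_lit 852))], ((nat_lit 38), (nat_lit 100), (nat_lit 94))⟩, (nat_lit 0), (nat_lit 76), (nat_lit 76), (nat_lit 0), (nat_lit 59122), [(nat_lit 1526400043), (nat_lit 1298000042), (nat_lit 2145600000)], [(nat_lit 0), (nat_lit 0), (nat_lit 0)], [(nat_lit 22121024206), (nat_lit 22455595423), (nat_lit 23085743769), (nat_lit 23399372842), (nat_lit 24050463331), (nat_lit 24343150261), (nat_lit 24876438521), (nat_lit 25215897708)], (nat_lit 1271251), (nat_lit 1271251), (nat_lit 1100000), (nat_lit 1442501),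 (nat_lit 1100000), (nat_lit 1785001), [(nat_lit 490000), (nat_lit 1100000), (nat_lit 1785001)], [(nat_lit 4), (nat_lit 51), (nat_lit 345), (nat_lit 125), (nat_lit 10)]⟩,
 Rw.none,
 Rw.none⟩))))))) (.spl (nat_lit 6) (nat_lit 104) (.spl (nat_lit 1) (nat_lit 260) (.spl (nat_lit 6) (nat_lit 92) (.leaf ⟨(nat_lit 400), (nat_lit 318), (nat_lit 0), (nat_lit 282), (nat_lit 31166), (nat_lit 4805), (nat_lit 3103), (nat_lit 1402), (nat_lit 0), (nat_lit 0), (nat_lit 100000), [((nat_lit 390), [((nat_lit 29), (nat_lit 0), (nat_lit 400))])], ⟨(nat_lit 6), false, false, false, (nat_lit 209), (nat_lit 1581), (nat_lit 2237), [(nat_lit 1474080), (nat_lit 1478137), (nat_lit 1496810), (nat_lit 1501407), (nat_lit 1545457), (nat_lit 1546538), (nat_lit 1568186), (nat_lit 1569808)]⟩, ⟨(nat_lit 4), false, false, true, (nat_lit 195), (nat_lit 1581), (nat_lit 2237), [(nat_lit 1397434), (nat_lit 1398733), (nat_lit 1420170), (nat_lit 1422009), (nat_lit 1554227), (nat_lit 1548981),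 (nat_lit 1577001), (nat_lit 1572296)]⟩, (nat_lit 4934518), (nat_lit 42167206), (nat_lit 13124371), (nat_lit 11708423), (nat_lit 4), (nat_lit 0), [⟨(nat_lit 0), (nat_lit 95), (nat_lit 31), (nat_lit 100), (nat_lit 804063621)⟩], [⟨(nat_lit 1), (nat_lit 98), (nat_lit 38), (nat_lit 100), (nat_lit 807746)⟩], [], [],
 ⟨⟨[(nat_lit 40), (nat_lit 80), (nat_lit 100)], [(nat_lit 0), (nat_lit 2514), (nat_lit 3562)], [((nat_lit 0), (nat_lit 0), (nat_lit 0)), ((nat_lit 1000), (nat_lit 446), (nat_lit 804)), ((nat_lit 1000), (nat_lit 443), (nat_lit 819))], ((nat_lit 44), (nat_lit 100), (nat_lit 85))⟩, (nat_lit 0), (nat_lit 76), (nat_lit 76), (nat_lit 0), (nat_lit 30351), [(nat_lit 2018849441), (nat_lit 3363360001), (nat_lit 4464560000)], [(nat_lit 0), (nat_lit 0), (nat_lit 0)], [(nat_lit 23035755568), (nat_lit 23906107502), (nat_lit 24078982364), (nat_lit 24877890478), (nat_lit 26341019794), (nat_lit 27043736480), (nat_lit 27067110562), (nat_lit 27714770048)], (nat_lit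 1271251), (nat_lit 1271251), (nat_lit 1017188), (nat_lit 1440626), (nat_lit 1100000), (nat_lit 2041876), [(nat_lit 490000), (nat_lit 1100000), (nat_lit 1442501)], [(nat_lit 3), (nat_lit 50), (nat_lit 345), (nat_lit 125), (nat_lit 12)]⟩,
 ⟨⟨[(nat_lit 80), (nat_lit 140), (nat_lit 180)], [(nat_lit 0), (nat_lit 0), (nat_lit 3656)], [((nat_lit 0), (nat_lit 0), (nat_lit 0)), ((nat_lit 0), (nat_lit 0), (nat_lit 0)), ((nat_lit 637), (nat_lit 1000), (nat_lit 908))], ((nat_lit 100), (nat_lit 71), (nat_lit 86))⟩, (nat_lit 0), (nat_lit 374), (nat_lit 374), (nat_lit 0), (nat_lit 80186), [(nat_lit 2812800000), (nat_lit 5905200000), (nat_lit 8434800000)], [], [(nat_lit 23210381735), (nat_lit 23763094886), (nat_lit 23770640618), (nat_lit 24275620612), (nat_lit 29333915156), (nat_lit 27968571108), (nat_lit 32185938392), (nat_lit 30841631908)], (nat_lit 1271251), (nat_lit 1271251), (nat_lit 1017188), (nat_lit 1440626), (nat_lit 0), (nat_lit 2825001), [(nat_lit 1100000),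 (nat_lit 2127501), (nat_lit 1271251)], [(nat_lit 19), (nat_lit 63), (nat_lit 456), (nat_lit 225), (nat_lit 11)]⟩,
 ⟨⟨[(nat_lit 120), (nat_lit 160), (nat_lit 200)], [(nat_lit 0), (nat_lit 0), (nat_lit 3198)], [((nat_lit 0), (nat_lit 0), (nat_lit 0)), ((nat_lit 0), (nat_lit 0), (nat_lit 0)), ((nat_lit 572), (nat_lit 1000), (nat_lit 714))], ((nat_lit 0), (nat_lit 0), (nat_lit 0))⟩, (nat_lit 137561), (nat_lit 300), (nat_lit 512), (nat_lit 20924400), (nat_lit 184584), [(nat_lit 2246976000), (nat_lit 3347904000), (nat_lit 4624800000)], [], [(nat_lit 18855021899), (nat_lit 18869846420), (nat_lit 19028731374), (nat_lit 19029159126), (nat_lit 18589514710), (nat_lit 18566790107), (nat_lit 18533648917), (nat_lit 19082890498)], (nat_lit 1100000), (nat_lit 1271251), (nat_lit 1100000), (nat_lit 2041876), (nat_lit 0), (nat_lit 2825001), [(nat_lit 1695001), (nat_lit 1271251), (nat_lit 1271251)], [(nat_lit 29), (nat_lit 66), (nat_lit 456), (nat_lit 225), (nat_lit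 10)]⟩⟩) (.dle (nat_lit 0))) (.trZ (nat_lit 0) (nat_lit 1) (nat_lit 3) (nat_lit 96) (nat_lit 44) (nat_lit 100) (nat_lit 170) (.trX (nat_lit 5) (nat_lit 1) (nat_lit 2) (nat_lit 96) (nat_lit 40) (nat_lit 100) (nat_lit 390) (.leaf ⟨(nat_lit 369), (nat_lit 352), (nat_lit 0), (nat_lit 279), (nat_lit 14356), (nat_lit 4887), (nat_lit 2527), (nat_lit 1711), (nat_lit 0), (nat_lit 0), (nat_lit 92250), [((nat_lit 390), [((nat_lit 29), (nat_lit 0), (nat_lit 369))])], ⟨(nat_lit 6), false, false, false, (nat_lit 224), (nat_lit 1581), (nat_lit 2237), [(nat_lit 1525360), (nat_lit 1528768), (nat_lit 1548089), (nat_lit 1552036), (nat_lit 1568186), (nat_lit 1569808), (nat_lit 1590915), (nat_lit 1593078)]⟩, ⟨(nat_lit 4), false, false, true, (nat_lit 195), (nat_lit 1581), (nat_lit 2237), [(nat_lit 1397434), (nat_lit 1398733), (nat_lit 1420170), (nat_lit 1422009), (nat_lit 1554227), (nat_lit 1548981), (nat_lit 1577001), (nat_lit 1572296)]⟩, (nat_lit 5031564), (nat_lit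 41076122), (nat_lit 14405004), (nat_lit 11518874), (nat_lit 4), (nat_lit 0), [⟨(nat_lit 0), (nat_lit 94), (nat_lit 38), (nat_lit 100), (nat_lit 789544587)⟩], [], [], [],
 ⟨⟨[(nat_lit 40), (nat_lit 80), (nat_lit 100)], [(nat_lit 0), (nat_lit 2514), (nat_lit 3562)], [((nat_lit 0), (nat_lit 0), (nat_lit 0)), ((nat_lit 1000), (nat_lit 446), (nat_lit 804)), ((nat_lit 1000), (nat_lit 443), (nat_lit 819))], ((nat_lit 44), (nat_lit 100), (nat_lit 88))⟩, (nat_lit 0), (nat_lit 78), (nat_lit 78), (nat_lit 0), (nat_lit 54961), [(nat_lit 1957057653), (nat_lit 3466019615), (nat_lit 4602931600)], [(nat_lit 0), (nat_lit 0), (nat_lit 0)], [(nat_lit 23386797762), (nat_lit 24238191321), (nat_lit 24147962323), (nat_lit 24954609822), (nat_lit 26586692254), (nat_lit 27274551410), (nat_lit 27140407580), (nat_lit 27794208028)], (nat_lit 1271251), (nat_lit 1271251), (nat_lit 1184688), (nat_lit 1444376), (nat_lit 1100000), (nat_lit 2041876), [(nat_lit 490000), (nat_lit 1100000),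 (nat_lit 1442501)], [(nat_lit 3), (nat_lit 50), (nat_lit 345), (nat_lit 125), (nat_lit 12)]⟩,
 ⟨⟨[(nat_lit 80), (nat_lit 140), (nat_lit 180)], [(nat_lit 0), (nat_lit 792), (nat_lit 4228)], [((nat_lit 0), (nat_lit 0), (nat_lit 0)), ((nat_lit 1000), (nat_lit 959), (nat_lit 206)), ((nat_lit 709), (nat_lit 1000), (nat_lit 949))], ((nat_lit 100), (nat_lit 76), (nat_lit 92))⟩, (nat_lit 882595), (nat_lit 381), (nat_lit 381), (nat_lit 0), (nat_lit 113923), [(nat_lit 2958128000), (nat_lit 6210302000), (nat_lit 8870598000)], [], [(nat_lit 22681188135), (nat_lit 22296252521), (nat_lit 22198204185), (nat_lit 22686262949), (nat_lit 29294597505), (nat_lit 28186110713), (nat_lit 30917365322), (nat_lit 29819116907)], (nat_lit 1271251), (nat_lit 1271251), (nat_lit 1184688), (nat_lit 1444376), (nat_lit 0), (nat_lit 2754376), [(nat_lit 1100000), (nat_lit 2127501), (nat_lit 1271251)], [(nat_lit 19), (nat_lit 63), (nat_lit 456), (nat_lit 225), (nat_lit 10)]⟩,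
 ⟨⟨[(nat_lit 120), (nat_lit 160), (nat_lit 200)], [(nat_lit 0), (nat_lit 0), (nat_lit 3198)], [((nat_lit 0), (nat_lit 0), (nat_lit 0)), ((nat_lit 0), (nat_lit 0), (nat_lit 0)), ((nat_lit 572), (nat_lit 1000), (nat_lit 714))], ((nat_lit 0), (nat_lit 0), (nat_lit 0))⟩, (nat_lit 136098), (nat_lit 300), (nat_lit 629), (nat_lit 20701800), (nat_lit 354706), [(nat_lit 2223072000), (nat_lit 3312288000), (nat_lit 4575600000)], [], [(nat_lit 20853264561), (nat_lit 20814100515), (nat_lit 20730090158), (nat_lit 20680496162), (nat_lit 19560124088), (nat_lit 19496125748), (nat_lit 19279593259), (nat_lit 19704405805)], (nat_lit 1100000), (nat_lit 1271251), (nat_lit 1100000), (nat_lit 2041876), (nat_lit 0), (nat_lit 2754376), [(nat_lit 1695001), (nat_lit 1271251), (nat_lit 1271251)], [(nat_lit 29), (nat_lit 66), (nat_lit 456), (nat_lit 225), (nat_lit 10)]⟩⟩)))) (.dle (nat_lit 0))))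
noncomputable def c14_104 : Tr Lf :=
 (.trZ (nat_lit 0) (nat_lit 1) (nat_lit 3) (nat_lit 99) (nat_lit 31) (nat_lit 100) (nat_lit 170) (.trX (nat_lit 4) (nat_lit 0) (nat_lit 2) (nat_lit 31) (nat_lit 98) (nat_lit 100) (nat_lit 250) (.spl (nat_lit 3) (nat_lit 180) (.leaf ⟨(nat_lit 1000), (nat_lit 0), (nat_lit 0), (nat_lit 0), (nat_lit 11997), (nat_lit 3526), (nat_lit 0), (nat_lit 0), (nat_lit 0), (nat_lit 0), (nat_lit 260000), [((nat_lit 400), [((nat_lit 42), (nat_lit 0), (nat_lit 1000))])], ⟨(nat_lit 6), false, false, false, (nat_lit 215), (nat_lit 0), (nat_lit 1582), [(nat_lit 1503356), (nat_lit 1510203), (nat_lit 1548673), (nat_lit 1558889), (nat_lit 1517342), (nat_lit 1523030), (nat_lit 1562659), (nat_lit 1571717)]⟩, ⟨(nat_lit 4), false, false, true, (nat_lit 178), (nat_lit 0), (nat_lit 1582), [(nat_lit 1352101), (nat_lit 1349997), (nat_lit 1421394), (nat_lit 1424345), (nat_lit 1475027), (nat_lit 1462493), (nat_lit 1544976), (nat_lit 1537497)]⟩,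 (nat_lit 4843308), (nat_lit 42847415), (nat_lit 13842548), (nat_lit 10310037), (nat_lit 0), (nat_lit 0), [⟨(nat_lit 0), (nat_lit 99), (nat_lit 31), (nat_lit 100), (nat_lit 1686490116)⟩], [⟨(nat_lit 1), (nat_lit 98), (nat_lit 31), (nat_lit 100), (nat_lit 344392975)⟩], [], [],
 ⟨⟨[(nat_lit 40), (nat_lit 80), (nat_lit 100)], [(nat_lit 0), (nat_lit 3225), (nat_lit 4371)], [((nat_lit 0), (nat_lit 0), (nat_lit 0)), ((nat_lit 1000), (nat_lit 321), (nat_lit 877)), ((nat_lit 1000), (nat_lit 317), (nat_lit 896))], ((nat_lit 31), (nat_lit 100), (nat_lit 94))⟩, (nat_lit 156606), (nat_lit 145), (nat_lit 145), (nat_lit 0), (nat_lit 216765), [(nat_lit 1526400013), (nat_lit 1595019118), (nat_lit 1673600000)], [(nat_lit 0), (nat_lit 0), (nat_lit 0)], [(nat_lit 23046518571), (nat_lit 23675701179), (nat_lit 23266237222), (nat_lit 23885506171), (nat_lit 25092303816), (nat_lit 25767671217), (nat_lit 25274472171), (nat_lit 25973790655)], (nat_lit 1271251), (nat_lit 1271251),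 (nat_lit 1184688), (nat_lit 1271251), (nat_lit 1100000), (nat_lit 1870626), [(nat_lit 490000), (nat_lit 1100000), (nat_lit 1442501)], [(nat_lit 3), (nat_lit 50), (nat_lit 345), (nat_lit 125), (nat_lit 12)]⟩,
 Rw.none,
 Rw.none⟩) (.spl (nat_lit 2) (nat_lit 160) (.trX (nat_lit 4) (nat_lit 0) (nat_lit 2) (nat_lit 31) (nat_lit 100) (nat_lit 99) (nat_lit 230) (.trX (nat_lit 5) (nat_lit 1) (nat_lit 2) (nat_lit 100) (nat_lit 40) (nat_lit 100) (nat_lit 390) (.spl (nat_lit 6) (nat_lit 112) (.spl (nat_lit 1) (nat_lit 260) (.leaf ⟨(nat_lit 1000), (nat_lit 0), (nat_lit 0), (nat_lit 0), (nat_lit 6523), (nat_lit 3629), (nat_lit 0), (nat_lit 0), (nat_lit 0), (nat_lit 0), (nat_lit 250000), [((nat_lit 400), [((nat_lit 29), (nat_lit 0), (nat_lit 1000))])], ⟨(nat_lit 6), false, true, false, (nat_lit 218), (nat_lit 0), (nat_lit 1582), [(nat_lit 1517342), (nat_lit 1523030), (nat_lit 1540000), (nat_lit 1547373), (nat_lit 1545316), (nat_lit 1548686), (nat_lit 1567974),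 (nat_lit 1573029)]⟩, ⟨(nat_lit 4), false, false, true, (nat_lit 168), (nat_lit 0), (nat_lit 1582), [(nat_lit 1352101), (nat_lit 1349997), (nat_lit 1398733), (nat_lit 1399999), (nat_lit 1447710), (nat_lit 1437494), (nat_lit 1494343), (nat_lit 1487497)]⟩, (nat_lit 4777803), (nat_lit 43258812), (nat_lit 14270610), (nat_lit 9470578), (nat_lit 0), (nat_lit 0), [⟨(nat_lit 0), (nat_lit 99), (nat_lit 31), (nat_lit 100), (nat_lit 512239144)⟩], [⟨(nat_lit 1), (nat_lit 100), (nat_lit 31), (nat_lit 99), (nat_lit 377279145)⟩], [], [],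
 ⟨⟨[(nat_lit 40), (nat_lit 80), (nat_lit 100)], [(nat_lit 0), (nat_lit 3225), (nat_lit 4371)], [((nat_lit 0), (nat_lit 0), (nat_lit 0)), ((nat_lit 1000), (nat_lit 321), (nat_lit 877)), ((nat_lit 1000), (nat_lit 317), (nat_lit 896))], ((nat_lit 32), (nat_lit 100), (nat_lit 91))⟩, (nat_lit 160133), (nat_lit 131), (nat_lit 131), (nat_lit 0), (nat_lit 170728), [(nat_lit 1563200385), (nat_lit 1596518356), (nat_lit 1786400000)], [(nat_lit 0), (nat_lit 0), (nat_lit 0)], [(nat_lit 23285687137), (nat_lit 23943214879), (nat_lit 23724367757), (nat_lit 24369503985), (nat_lit 24785109715), (nat_lit 25455829584), (nat_lit 25173605357), (nat_lit 25887785368)], (nat_lit 1271251), (nat_lit 1271251), (nat_lit 1271251), (nat_lit 1271251), (nat_lit 1100000), (nat_lit 1699376), [(nat_lit 490000), (nat_lit 1100000), (nat_lit 1442501)], [(nat_lit 3), (nat_lit 50), (nat_lit 345), (nat_lit 125), (nat_lit 12)]⟩,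
 Rw.none,
 Rw.none⟩) (.trZ (nat_lit 0) (nat_lit 1) (nat_lit 3) (nat_lit 95) (nat_lit 31) (nat_lit 100) (nat_lit 190) (.trX (nat_lit 5) (nat_lit 1) (nat_lit 2) (nat_lit 97) (nat_lit 49) (nat_lit 100) (nat_lit 380) (.leaf ⟨(nat_lit 1000), (nat_lit 0), (nat_lit 0), (nat_lit 0), (nat_lit 6807), (nat_lit 3629), (nat_lit 0), (nat_lit 0), (nat_lit 0), (nat_lit 0), (nat_lit 250000), [((nat_lit 400), [((nat_lit 29), (nat_lit 0), (nat_lit 1000))])], ⟨(nat_lit 6), false, true, false, (nat_lit 230), (nat_lit 0), (nat_lit 1582), [(nat_lit 1553987), (nat_lit 1560201), (nat_lit 1576645), (nat_lit 1584544), (nat_lit 1567974), (nat_lit 1573029), (nat_lit 1590632), (nat_lit 1597372)]⟩, ⟨(nat_lit 4), false, false, true, (nat_lit 168), (nat_lit 0), (nat_lit 1582), [(nat_lit 1352101), (nat_lit 1349997), (nat_lit 1398733), (nat_lit 1399999), (nat_lit 1447710), (nat_lit 1437494), (nat_lit 1494343), (nat_lit 1487497)]⟩, (nat_lit 4855900), (nat_lit 42294272), (nat_lit 15358683),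 (nat_lit 9347045), (nat_lit 0), (nat_lit 0), [⟨(nat_lit 0), (nat_lit 95), (nat_lit 31), (nat_lit 100), (nat_lit 1533094482)⟩], [⟨(nat_lit 1), (nat_lit 100), (nat_lit 31), (nat_lit 99), (nat_lit 348128790)⟩], [], [],
 ⟨⟨[(nat_lit 40), (nat_lit 80), (nat_lit 100)], [(nat_lit 0), (nat_lit 3225), (nat_lit 4371)], [((nat_lit 0), (nat_lit 0), (nat_lit 0)), ((nat_lit 1000), (nat_lit 321), (nat_lit 877)), ((nat_lit 1000), (nat_lit 317), (nat_lit 896))], ((nat_lit 32), (nat_lit 100), (nat_lit 91))⟩, (nat_lit 160134), (nat_lit 143), (nat_lit 143), (nat_lit 0), (nat_lit 213833), [(nat_lit 1563200004), (nat_lit 1589734078), (nat_lit 1786400000)], [(nat_lit 0), (nat_lit 0), (nat_lit 0)], [(nat_lit 23504983693), (nat_lit 24156355061), (nat_lit 23724363386), (nat_lit 24369499614), (nat_lit 24979287092), (nat_lit 25671807476), (nat_lit 25173605357), (nat_lit 25887785368)], (nat_lit 1271251), (nat_lit 1271251), (nat_lit 1271251), (nat_lit 1271251), (nat_lit 1100000),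 (nat_lit 1699376), [(nat_lit 490000), (nat_lit 1100000), (nat_lit 1442501)], [(nat_lit 3), (nat_lit 50), (nat_lit 345), (nat_lit 125), (nat_lit 12)]⟩,
 Rw.none,
 Rw.none⟩)))) (.leaf ⟨(nat_lit 1000), (nat_lit 0), (nat_lit 0), (nat_lit 0), (nat_lit 13646), (nat_lit 3580), (nat_lit 0), (nat_lit 0), (nat_lit 0), (nat_lit 0), (nat_lit 260000), [((nat_lit 400), [((nat_lit 42), (nat_lit 0), (nat_lit 1000))])], ⟨(nat_lit 6), false, true, false, (nat_lit 223), (nat_lit 0), (nat_lit 1582), [(nat_lit 1517342), (nat_lit 1523030), (nat_lit 1562659), (nat_lit 1571717), (nat_lit 1545316), (nat_lit 1548686), (nat_lit 1590632), (nat_lit 1597372)]⟩, ⟨(nat_lit 4), false, false, true, (nat_lit 168), (nat_lit 0), (nat_lit 1582), [(nat_lit 1352101), (nat_lit 1349997), (nat_lit 1398733), (nat_lit 1399999), (nat_lit 1447710), (nat_lit 1437494), (nat_lit 1494343), (nat_lit 1487497)]⟩, (nat_lit 4809287), (nat_lit 42883291), (nat_lit 14693371), (nat_lit 9423338), (nat_lit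 0), (nat_lit 0), [⟨(nat_lit 0), (nat_lit 99), (nat_lit 31), (nat_lit 100), (nat_lit 1392420125)⟩], [⟨(nat_lit 1), (nat_lit 100), (nat_lit 31), (nat_lit 99), (nat_lit 346172368)⟩], [], [],
 ⟨⟨[(nat_lit 40), (nat_lit 80), (nat_lit 100)], [(nat_lit 0), (nat_lit 3225), (nat_lit 4371)], [((nat_lit 0), (nat_lit 0), (nat_lit 0)), ((nat_lit 1000), (nat_lit 321), (nat_lit 877)), ((nat_lit 1000), (nat_lit 317), (nat_lit 896))], ((nat_lit 31), (nat_lit 100), (nat_lit 94))⟩, (nat_lit 148874), (nat_lit 117), (nat_lit 117), (nat_lit 0), (nat_lit 123113), [(nat_lit 1526400002), (nat_lit 1506487091), (nat_lit 1673600000)], [(nat_lit 0), (nat_lit 0), (nat_lit 0)], [(nat_lit 23239882008), (nat_lit 23892754186), (nat_lit 23678881708), (nat_lit 24319694306), (nat_lit 24741112458), (nat_lit 25406800043), (nat_lit 25130422627), (nat_lit 25839595105)], (nat_lit 1271251), (nat_lit 1271251), (nat_lit 1271251), (nat_lit 1271251), (nat_lit 1100000), (nat_lit 1699376), [(nat_lit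 490000), (nat_lit 1100000), (nat_lit 1442501)], [(nat_lit 3), (nat_lit 50), (nat_lit 345), (nat_lit 125), (nat_lit 12)]⟩,
 Rw.none,
 Rw.none⟩)))) (.spl (nat_lit 6) (nat_lit 120) (.spl (nat_lit 5) (nat_lit 200) (.leaf ⟨(nat_lit 852), (nat_lit 113), (nat_lit 0), (nat_lit 35), (nat_lit 12985), (nat_lit 3675), (nat_lit 1601), (nat_lit 499), (nat_lit 0), (nat_lit 0), (nat_lit 213000), [((nat_lit 400), [((nat_lit 29), (nat_lit 0), (nat_lit 852))])], ⟨(nat_lit 6), false, true, false, (nat_lit 223), (nat_lit 0), (nat_lit 1582), [(nat_lit 1517342), (nat_lit 1523030), (nat_lit 1562659), (nat_lit 1571717), (nat_lit 1545316), (nat_lit 1548686), (nat_lit 1590632), (nat_lit 1597372)]⟩, ⟨(nat_lit 4), false, false, true, (nat_lit 188), (nat_lit 0), (nat_lit 1582), [(nat_lit 1398733), (nat_lit 1399999), (nat_lit 1421394), (nat_lit 1424345), (nat_lit 1521659), (nat_lit 1512494), (nat_lit 1544976), (nat_lit 1537497)]⟩, (nat_lit 4975695), (nat_lit 41581096), (nat_lit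 14416712), (nat_lit 11002192), (nat_lit 4), (nat_lit 0), [⟨(nat_lit 0), (nat_lit 99), (nat_lit 31), (nat_lit 100), (nat_lit 911935937)⟩], [⟨(nat_lit 1), (nat_lit 98), (nat_lit 31), (nat_lit 100), (nat_lit 295740400)⟩], [], [],
 ⟨⟨[(nat_lit 40), (nat_lit 80), (nat_lit 100)], [(nat_lit 0), (nat_lit 3225), (nat_lit 4371)], [((nat_lit 0), (nat_lit 0), (nat_lit 0)), ((nat_lit 1000), (nat_lit 321), (nat_lit 877)), ((nat_lit 1000), (nat_lit 317), (nat_lit 896))], ((nat_lit 31), (nat_lit 100), (nat_lit 92))⟩, (nat_lit 274027), (nat_lit 115), (nat_lit 115), (nat_lit 0), (nat_lit 117571), [(nat_lit 1597950527), (nat_lit 2130652318), (nat_lit 2447012800)], [(nat_lit 0), (nat_lit 0), (nat_lit 0)], [(nat_lit 23431979004), (nat_lit 24093674433), (nat_lit 23870263996), (nat_lit 24519352383), (nat_lit 25476964866), (nat_lit 26126427354), (nat_lit 25845024915), (nat_lit 26535530432)], (nat_lit 1271251), (nat_lit 1271251), (nat_lit 1271251), (nat_lit 1271251), (nat_lit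 1100000), (nat_lit 1870626), [(nat_lit 490000), (nat_lit 1100000), (nat_lit 1442501)], [(nat_lit 3), (nat_lit 50), (nat_lit 345), (nat_lit 125), (nat_lit 12)]⟩,
 ⟨⟨[(nat_lit 80), (nat_lit 140), (nat_lit 200)], [(nat_lit 0), (nat_lit 0), (nat_lit 5481)], [((nat_lit 0), (nat_lit 0), (nat_lit 0)), ((nat_lit 0), (nat_lit 0), (nat_lit 0)), ((nat_lit 637), (nat_lit 1000), (nat_lit 908))], ((nat_lit 0), (nat_lit 0), (nat_lit 0))⟩, (nat_lit 417627), (nat_lit 501), (nat_lit 501), (nat_lit 0), (nat_lit 265132), [(nat_lit 693824000), (nat_lit 1456616000), (nat_lit 2427200000)], [], [(nat_lit 5947273858), (nat_lit 5381441060), (nat_lit 5183474089), (nat_lit 5374390286), (nat_lit 5850749956), (nat_lit 4361582608), (nat_lit 5101254614), (nat_lit 4164123382)], (nat_lit 1271251), (nat_lit 1271251), (nat_lit 1271251), (nat_lit 1271251), (nat_lit 0), (nat_lit 1412501), [(nat_lit 1100000), (nat_lit 2127501), (nat_lit 1271251)], [(nat_lit 20), (nat_lit 64), (nat_lit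 401), (nat_lit 175), (nat_lit 8)]⟩,
 ⟨⟨[(nat_lit 120), (nat_lit 160), (nat_lit 200)], [(nat_lit 0), (nat_lit 0), (nat_lit 3198)], [((nat_lit 0), (nat_lit 0), (nat_lit 0)), ((nat_lit 0), (nat_lit 0), (nat_lit 0)), ((nat_lit 572), (nat_lit 1000), (nat_lit 714))], ((nat_lit 0), (nat_lit 0), (nat_lit 0))⟩, (nat_lit 17073), (nat_lit 300), (nat_lit 838), (nat_lit 2597003), (nat_lit 801724), [(nat_lit 278880000), (nat_lit 415520000), (nat_lit 574000000)], [], [(nat_lit 2254604116), (nat_lit 2228793548), (nat_lit 2147195347), (nat_lit 2129925810), (nat_lit 1738660250), (nat_lit 1867657675), (nat_lit 2322289001), (nat_lit 2458326848)], (nat_lit 1100000), (nat_lit 1271251), (nat_lit 1100000), (nat_lit 1870626), (nat_lit 0), (nat_lit 1412501), [(nat_lit 1695001), (nat_lit 1271251), (nat_lit 1271251)], [(nat_lit 29), (nat_lit 66), (nat_lit 401), (nat_lit 175), (nat_lit 9)]⟩⟩) (.leaf ⟨(nat_lit 0), (nat_lit 0), (nat_lit 0), (nat_lit 1000), (nat_lit 39168), (nat_lit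 4250), (nat_lit 16470), (nat_lit 15388), (nat_lit 0), (nat_lit 0), (nat_lit 0), [], Pd.none, Pd.none, (nat_lit 0), (nat_lit 1), (nat_lit 0), (nat_lit 0), (nat_lit 0), (nat_lit 0), [⟨(nat_lit 0), (nat_lit 96), (nat_lit 22), (nat_lit 100), (nat_lit 12165869257)⟩], [], [], [],
 ⟨⟨[(nat_lit 40), (nat_lit 80), (nat_lit 100)], [(nat_lit 0), (nat_lit 3225), (nat_lit 4371)], [((nat_lit 0), (nat_lit 0), (nat_lit 0)), ((nat_lit 1000), (nat_lit 321), (nat_lit 877)), ((nat_lit 1000), (nat_lit 317), (nat_lit 896))], ((nat_lit 31), (nat_lit 100), (nat_lit 92))⟩, (nat_lit 1016271), (nat_lit 115), (nat_lit 115), (nat_lit 0), (nat_lit 117571), [(nat_lit 2032000042), (nat_lit 5351206500), (nat_lit 6250000000)], [], [(nat_lit 23784162189), (nat_lit 24498280959), (nat_lit 24217829084), (nat_lit 24916486000), (nat_lit 25944931887), (nat_lit 26715461594), (nat_lit 26368710352), (nat_lit 27112463438)], (nat_lit 1271251), (nat_lit 1271251), (nat_lit 1271251), (nat_lit 1271251),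 (nat_lit 1100000), (nat_lit 1870626), [(nat_lit 490000), (nat_lit 1100000), (nat_lit 1442501)], [(nat_lit 3), (nat_lit 50), (nat_lit 345), (nat_lit 125), (nat_lit 12)]⟩,
 ⟨⟨[(nat_lit 80), (nat_lit 140), (nat_lit 200)], [(nat_lit 0), (nat_lit 0), (nat_lit 5481)], [((nat_lit 0), (nat_lit 0), (nat_lit 0)), ((nat_lit 0), (nat_lit 0), (nat_lit 0)), ((nat_lit 637), (nat_lit 1000), (nat_lit 908))], ((nat_lit 0), (nat_lit 0), (nat_lit 0))⟩, (nat_lit 2949962), (nat_lit 301), (nat_lit 301), (nat_lit 0), (nat_lit 265132), [(nat_lit 4688000000), (nat_lit 9842000000), (nat_lit 16400000000)], [], [(nat_lit 28716841960), (nat_lit 23167870761), (nat_lit 21006766938), (nat_lit 23067081273), (nat_lit 38484449770), (nat_lit 41481529555), (nat_lit 38666914540), (nat_lit 41493432470)], (nat_lit 1271251), (nat_lit 1271251), (nat_lit 1271251), (nat_lit 1271251), (nat_lit 1271251), (nat_lit 1271251), [(nat_lit 1100000), (nat_lit 2127501), (nat_lit 1271251)], [(nat_lit 20),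 (nat_lit 64), (nat_lit 456), (nat_lit 225), (nat_lit 9)]⟩,
 ⟨⟨[(nat_lit 120), (nat_lit 160), (nat_lit 200)], [(nat_lit 0), (nat_lit 0), (nat_lit 3198)], [((nat_lit 0), (nat_lit 0), (nat_lit 0)), ((nat_lit 0), (nat_lit 0), (nat_lit 0)), ((nat_lit 572), (nat_lit 1000), (nat_lit 714))], ((nat_lit 0), (nat_lit 0), (nat_lit 0))⟩, (nat_lit 487805), (nat_lit 300), (nat_lit 681), (nat_lit 74200000), (nat_lit 801724), [(nat_lit 7968000000), (nat_lit 11872000000), (nat_lit 16400000000)], [], [(nat_lit 45667712160), (nat_lit 45181477550), (nat_lit 43787484025), (nat_lit 43199550062), (nat_lit 48304954032), (nat_lit 47787383794), (nat_lit 46597640344), (nat_lit 46037165283)], (nat_lit 1100000), (nat_lit 1271251), (nat_lit 1100000), (nat_lit 1870626), (nat_lit 1271251), (nat_lit 1271251), [(nat_lit 1695001), (nat_lit 1271251), (nat_lit 1271251)], [(nat_lit 29), (nat_lit 66), (nat_lit 456), (nat_lit 225), (nat_lit 9)]⟩⟩)) (.dle (nat_lit 0)))))))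
noncomputable def c14_105 : Tr Lf :=
 (.stt (nat_lit 1) (.spl (nat_lit 6) (nat_lit 112) (.spl (nat_lit 0) (nat_lit 390) (.leaf ⟨(nat_lit 607), (nat_lit 393), (nat_lit 0), (nat_lit 0), (nat_lit 7170), (nat_lit 4339), (nat_lit 3034), (nat_lit 0), (nat_lit 0), (nat_lit 0), (nat_lit 151750), [((nat_lit 390), [((nat_lit 29), (nat_lit 0), (nat_lit 607))])], ⟨(nat_lit 6), false, true, false, (nat_lit 250), (nat_lit 1581), (nat_lit 2237), [(nat_lit 1545457), (nat_lit 1546538), (nat_lit 1590915), (nat_lit 1593078), (nat_lit 1659578), (nat_lit 1655900), (nat_lit 1705117), (nat_lit 1702521)]⟩, ⟨(nat_lit 4), false, false, true, (nat_lit 175), (nat_lit 1581), (nat_lit 2237), [(nat_lit 1351886), (nat_lit 1352103), (nat_lit 1397434), (nat_lit 1398733), (nat_lit 1480171), (nat_lit 1475033), (nat_lit 1525719), (nat_lit 1521663)]⟩, (nat_lit 5021076), (nat_lit 40325489), (nat_lit 17026359), (nat_lit 9648152), (nat_lit 4), (nat_lit 0), [], [⟨(nat_lit 1), (nat_lit 100),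 (nat_lit 38), (nat_lit 96), (nat_lit 548742888)⟩], [], [],
 ⟨⟨[(nat_lit 40), (nat_lit 80), (nat_lit 100)], [(nat_lit 0), (nat_lit 2514), (nat_lit 3562)], [((nat_lit 0), (nat_lit 0), (nat_lit 0)), ((nat_lit 1000), (nat_lit 446), (nat_lit 804)), ((nat_lit 1000), (nat_lit 443), (nat_lit 819))], ((nat_lit 44), (nat_lit 100), (nat_lit 90))⟩, (nat_lit 0), (nat_lit 67), (nat_lit 67), (nat_lit 0), (nat_lit 0), [(nat_lit 1741482047), (nat_lit 2677858878), (nat_lit 3540594800)], [(nat_lit 0), (nat_lit 0), (nat_lit 0)], [(nat_lit 23584880256), (nat_lit 24339806008), (nat_lit 26186824216), (nat_lit 26915676962), (nat_lit 25808553462), (nat_lit 26450050340), (nat_lit 28126553447), (nat_lit 28765474013)], (nat_lit 0), (nat_lit 0), (nat_lit 0), (nat_lit 0), (nat_lit 0), (nat_lit 0), [], [(nat_lit 3), (nat_lit 50), (nat_lit 289), (nat_lit 75), (nat_lit 9)]⟩,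
 ⟨⟨[(nat_lit 80), (nat_lit 140), (nat_lit 180)], [(nat_lit 0), (nat_lit 0), (nat_lit 3656)], [((nat_lit 0), (nat_lit 0), (nat_lit 0)), ((nat_lit 0), (nat_lit 0), (nat_lit 0)), ((nat_lit 637), (nat_lit 1000), (nat_lit 908))], ((nat_lit 100), (nat_lit 62), (nat_lit 92))⟩, (nat_lit 655631), (nat_lit 461), (nat_lit 461), (nat_lit 0), (nat_lit 331937), [(nat_lit 1842384000), (nat_lit 3867906000), (nat_lit 5524794000)], [], [(nat_lit 15783269814), (nat_lit 16352813829), (nat_lit 16496080168), (nat_lit 16944765494), (nat_lit 14319220692), (nat_lit 14039676537), (nat_lit 14117226122), (nat_lit 14450410062)], (nat_lit 1271251), (nat_lit 1271251), (nat_lit 1271251), (nat_lit 1271251), (nat_lit 0), (nat_lit 1412501), [(nat_lit 1100000), (nat_lit 2127501), (nat_lit 1271251)], [(nat_lit 19), (nat_lit 63), (nat_lit 428), (nat_lit 200), (nat_lit 10)]⟩,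
 Rw.none⟩) (.trX (nat_lit 4) (nat_lit 0) (nat_lit 2) (nat_lit 31) (nat_lit 100) (nat_lit 99) (nat_lit 230) (.leaf ⟨(nat_lit 688), (nat_lit 312), (nat_lit 0), (nat_lit 0), (nat_lit 377), (nat_lit 3911), (nat_lit 3486), (nat_lit 0), (nat_lit 0), (nat_lit 0), (nat_lit 172000), [((nat_lit 400), [((nat_lit 29), (nat_lit 0), (nat_lit 688))])], ⟨(nat_lit 6), false, true, false, (nat_lit 250), (nat_lit 0), (nat_lit 1582), [(nat_lit 1545316), (nat_lit 1548686), (nat_lit 1590632), (nat_lit 1597372), (nat_lit 1655899), (nat_lit 1649997), (nat_lit 1702515), (nat_lit 1699984)]⟩, ⟨(nat_lit 4), false, false, true, (nat_lit 168), (nat_lit 0), (nat_lit 1582), [(nat_lit 1352101), (nat_lit 1349997), (nat_lit 1398733), (nat_lit 1399999), (nat_lit 1447710), (nat_lit 1437494), (nat_lit 1494343), (nat_lit 1487497)]⟩, (nat_lit 4961814), (nat_lit 40761901), (nat_lit 17101484), (nat_lit 9136615), (nat_lit 4), (nat_lit 0), [], [⟨(nat_lit 1), (nat_lit 100), (nat_lit 22), (nat_lit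 96), (nat_lit 770295323)⟩], [], [],
 ⟨⟨[(nat_lit 40), (nat_lit 80), (nat_lit 100)], [(nat_lit 0), (nat_lit 3225), (nat_lit 4371)], [((nat_lit 0), (nat_lit 0), (nat_lit 0)), ((nat_lit 1000), (nat_lit 321), (nat_lit 877)), ((nat_lit 1000), (nat_lit 317), (nat_lit 896))], ((nat_lit 32), (nat_lit 100), (nat_lit 91))⟩, (nat_lit 0), (nat_lit 72), (nat_lit 72), (nat_lit 0), (nat_lit 0), [(nat_lit 1656800164), (nat_lit 2409619203), (nat_lit 3179043200)], [(nat_lit 0), (nat_lit 0), (nat_lit 0)], [(nat_lit 24206961886), (nat_lit 24921491821), (nat_lit 26654059273), (nat_lit 27264747181), (nat_lit 25755756482), (nat_lit 26389227460), (nat_lit 27899113144), (nat_lit 28455983421)], (nat_lit 0), (nat_lit 0), (nat_lit 0), (nat_lit 0), (nat_lit 0), (nat_lit 0), [], [(nat_lit 3), (nat_lit 50), (nat_lit 272), (nat_lit 60), (nat_lit 9)]⟩,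
 ⟨⟨[(nat_lit 80), (nat_lit 140), (nat_lit 180)], [(nat_lit 0), (nat_lit 0), (nat_lit 3656)], [((nat_lit 0), (nat_lit 0), (nat_lit 0)), ((nat_lit 0), (nat_lit 0), (nat_lit 0)), ((nat_lit 637), (nat_lit 1000), (nat_lit 908))], ((nat_lit 100), (nat_lit 62), (nat_lit 92))⟩, (nat_lit 508864), (nat_lit 563), (nat_lit 563), (nat_lit 0), (nat_lit 477979), [(nat_lit 1462656000), (nat_lit 3070704000), (nat_lit 4386096000)], [], [(nat_lit 12331441720), (nat_lit 12597737632), (nat_lit 12506072044), (nat_lit 12954481036), (nat_lit 10683532308), (nat_lit 9535595464), (nat_lit 9397918576), (nat_lit 9588957193)], (nat_lit 1271251), (nat_lit 1271251), (nat_lit 1271251), (nat_lit 1271251), (nat_lit 0), (nat_lit 1412501), [(nat_lit 1100000), (nat_lit 2127501), (nat_lit 1271251)], [(nat_lit 19), (nat_lit 63), (nat_lit 428), (nat_lit 200), (nat_lit 10)]⟩,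
 Rw.none⟩))) (.spl (nat_lit 0) (nat_lit 390) (.leaf ⟨(nat_lit 476), (nat_lit 524), (nat_lit 0), (nat_lit 0), (nat_lit 21437), (nat_lit 4658), (nat_lit 4283), (nat_lit 0), (nat_lit 0), (nat_lit 0), (nat_lit 123760), [((nat_lit 390), [((nat_lit 42), (nat_lit 0), (nat_lit 476))])], ⟨(nat_lit 6), false, true, false, (nat_lit 250), (nat_lit 1581), (nat_lit 2237), [(nat_lit 1545457), (nat_lit 1546538), (nat_lit 1590915), (nat_lit 1593078), (nat_lit 1659578), (nat_lit 1655900), (nat_lit 1705117), (nat_lit 1702521)]⟩, ⟨(nat_lit 4), false, false, true, (nat_lit 175), (nat_lit 1581), (nat_lit 2237), [(nat_lit 1351886), (nat_lit 1352103), (nat_lit 1397434), (nat_lit 1398733), (nat_lit 1480171), (nat_lit 1475033), (nat_lit 1525719), (nat_lit 1521663)]⟩, (nat_lit 5021076), (nat_lit 40325489), (nat_lit 17026359), (nat_lit 9648152), (nat_lit 4), (nat_lit 0), [⟨(nat_lit 0), (nat_lit 92), (nat_lit 31), (nat_lit 100), (nat_lit 176948655)⟩], [⟨(nat_lit 1), (nat_lit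 100), (nat_lit 38), (nat_lit 96), (nat_lit 626725848)⟩], [], [],
 ⟨⟨[(nat_lit 40), (nat_lit 80), (nat_lit 120)], [(nat_lit 0), (nat_lit 2514), (nat_lit 4610)], [((nat_lit 0), (nat_lit 0), (nat_lit 0)), ((nat_lit 1000), (nat_lit 446), (nat_lit 804)), ((nat_lit 1000), (nat_lit 443), (nat_lit 819))], ((nat_lit 44), (nat_lit 100), (nat_lit 95))⟩, (nat_lit 0), (nat_lit 67), (nat_lit 67), (nat_lit 0), (nat_lit 0), [(nat_lit 1877361743), (nat_lit 3074360330), (nat_lit 5196537600)], [(nat_lit 0), (nat_lit 0), (nat_lit 0)], [(nat_lit 23850359635), (nat_lit 24635393485), (nat_lit 26490318666), (nat_lit 27249100148), (nat_lit 26075170295), (nat_lit 26740470406), (nat_lit 28412210251), (nat_lit 29074360537)], (nat_lit 0), (nat_lit 0), (nat_lit 0), (nat_lit 0), (nat_lit 0), (nat_lit 0), [], [(nat_lit 4), (nat_lit 51), (nat_lit 373), (nat_lit 150), (nat_lit 11)]⟩,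
 ⟨⟨[(nat_lit 80), (nat_lit 140), (nat_lit 200)], [(nat_lit 0), (nat_lit 0), (nat_lit 5481)], [((nat_lit 0), (nat_lit 0), (nat_lit 0)), ((nat_lit 0), (nat_lit 0), (nat_lit 0)), ((nat_lit 637), (nat_lit 1000), (nat_lit 908))], ((nat_lit 0), (nat_lit 0), (nat_lit 0))⟩, (nat_lit 1222937), (nat_lit 444), (nat_lit 444), (nat_lit 0), (nat_lit 126457), [(nat_lit 2456512000), (nat_lit 5157208000), (nat_lit 8593600000)], [], [(nat_lit 20238348211), (nat_lit 20868097835), (nat_lit 20932515417), (nat_lit 21415835813), (nat_lit 18941310802), (nat_lit 17396923125), (nat_lit 17647165534), (nat_lit 18274798821)], (nat_lit 1271251), (nat_lit 1271251), (nat_lit 1271251), (nat_lit 1271251), (nat_lit 0), (nat_lit 1412501), [(nat_lit 1100000), (nat_lit 2127501), (nat_lit 1271251)], [(nat_lit 20), (nat_lit 64), (nat_lit 428), (nat_lit 200), (nat_lit 9)]⟩,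
 Rw.none⟩) (.trX (nat_lit 4) (nat_lit 0) (nat_lit 2) (nat_lit 31) (nat_lit 100) (nat_lit 99) (nat_lit 230) (.leaf ⟨(nat_lit 604), (nat_lit 396), (nat_lit 0), (nat_lit 0), (nat_lit 12304), (nat_lit 4157), (nat_lit 2907), (nat_lit 0), (nat_lit 0), (nat_lit 0), (nat_lit 157040), [((nat_lit 400), [((nat_lit 42), (nat_lit 0), (nat_lit 604))])], ⟨(nat_lit 6), false, true, false, (nat_lit 250), (nat_lit 0), (nat_lit 1582), [(nat_lit 1545316), (nat_lit 1548686), (nat_lit 1590632), (nat_lit 1597372), (nat_lit 1655899), (nat_lit 1649997), (nat_lit 1702515), (nat_lit 1699984)]⟩, ⟨(nat_lit 4), false, false, true, (nat_lit 168), (nat_lit 0), (nat_lit 1582), [(nat_lit 1352101), (nat_lit 1349997), (nat_lit 1398733), (nat_lit 1399999), (nat_lit 1447710), (nat_lit 1437494), (nat_lit 1494343), (nat_lit 1487497)]⟩, (nat_lit 4961814), (nat_lit 40761901), (nat_lit 17101484), (nat_lit 9136615), (nat_lit 4), (nat_lit 0), [⟨(nat_lit 0), (nat_lit 96), (nat_lit 22), (nat_lit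 100), (nat_lit 51287044)⟩], [⟨(nat_lit 1), (nat_lit 100), (nat_lit 22), (nat_lit 96), (nat_lit 944435104)⟩], [], [],
 ⟨⟨[(nat_lit 40), (nat_lit 80), (nat_lit 100)], [(nat_lit 0), (nat_lit 3225), (nat_lit 4371)], [((nat_lit 0), (nat_lit 0), (nat_lit 0)), ((nat_lit 1000), (nat_lit 321), (nat_lit 877)), ((nat_lit 1000), (nat_lit 317), (nat_lit 896))], ((nat_lit 31), (nat_lit 100), (nat_lit 94))⟩, (nat_lit 0), (nat_lit 72), (nat_lit 72), (nat_lit 0), (nat_lit 0), [(nat_lit 1697892020), (nat_lit 2640440023), (nat_lit 3485854400)], [(nat_lit 0), (nat_lit 0), (nat_lit 0)], [(nat_lit 24359961898), (nat_lit 25097709989), (nat_lit 26831527613), (nat_lit 27460978784), (nat_lit 25900491216), (nat_lit 26553429942), (nat_lit 28060822958), (nat_lit 28711704787)], (nat_lit 0), (nat_lit 0), (nat_lit 0), (nat_lit 0), (nat_lit 0), (nat_lit 0), [], [(nat_lit 3), (nat_lit 50), (nat_lit 272), (nat_lit 60), (nat_lit 9)]⟩,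
 ⟨⟨[(nat_lit 80), (nat_lit 140), (nat_lit 200)], [(nat_lit 0), (nat_lit 0), (nat_lit 5481)], [((nat_lit 0), (nat_lit 0), (nat_lit 0)), ((nat_lit 0), (nat_lit 0), (nat_lit 0)), ((nat_lit 637), (nat_lit 1000), (nat_lit 908))], ((nat_lit 0), (nat_lit 0), (nat_lit 0))⟩, (nat_lit 832634), (nat_lit 500), (nat_lit 500), (nat_lit 0), (nat_lit 278439), [(nat_lit 1856448000), (nat_lit 3897432000), (nat_lit 6494400000)], [], [(nat_lit 15911881578), (nat_lit 16377371874), (nat_lit 16454409552), (nat_lit 16818449436), (nat_lit 14523920658), (nat_lit 14004118008), (nat_lit 14033817540), (nat_lit 14445258309)], (nat_lit 1271251), (nat_lit 1271251), (nat_lit 1271251), (nat_lit 1271251), (nat_lit 0), (nat_lit 1412501), [(nat_lit 1100000), (nat_lit 2127501), (nat_lit 1271251)], [(nat_lit 20), (nat_lit 64), (nat_lit 428), (nat_lit 200), (nat_lit 9)]⟩,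
 Rw.none⟩)))) (.spl (nat_lit 5) (nat_lit 120) (.spl (nat_lit 6) (nat_lit 112) (.leaf ⟨(nat_lit 0), (nat_lit 1000), (nat_lit 0), (nat_lit 0), (nat_lit 8569), (nat_lit 7539), (nat_lit 12284), (nat_lit 0), (nat_lit 0), (nat_lit 0), (nat_lit 0), [], Pd.none, Pd.none, (nat_lit 0), (nat_lit 1), (nat_lit 0), (nat_lit 0), (nat_lit 4), (nat_lit 0), [], [⟨(nat_lit 1), (nat_lit 100), (nat_lit 31), (nat_lit 95), (nat_lit 1077717691)⟩], [], [],
 ⟨⟨[(nat_lit 40), (nat_lit 80), (nat_lit 100)], [(nat_lit 0), (nat_lit 2514), (nat_lit 3562)], [((nat_lit 0), (nat_lit 0), (nat_lit 0)), ((nat_lit 1000), (nat_lit 446), (nat_lit 804)), ((nat_lit 1000), (nat_lit 443), (nat_lit 819))], ((nat_lit 44), (nat_lit 100), (nat_lit 90))⟩, (nat_lit 0), (nat_lit 146), (nat_lit 146), (nat_lit 0), (nat_lit 216402), [(nat_lit 2677678368), (nat_lit 5392196296), (nat_lit 6250000000)], [], [(nat_lit 26471538961), (nat_lit 28433678448), (nat_lit 29212001155), (nat_lit 31308720768), (nat_lit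 28450650154), (nat_lit 30412520234), (nat_lit 30992076247), (nat_lit 32735968179)], (nat_lit 1271251), (nat_lit 1271251), (nat_lit 1271251), (nat_lit 1271251), (nat_lit 1100000), (nat_lit 1870626), [(nat_lit 490000), (nat_lit 1100000), (nat_lit 1442501)], [(nat_lit 3), (nat_lit 50), (nat_lit 289), (nat_lit 75), (nat_lit 9)]⟩,
 ⟨⟨[(nat_lit 80), (nat_lit 140), (nat_lit 180)], [(nat_lit 0), (nat_lit 0), (nat_lit 3656)], [((nat_lit 0), (nat_lit 0), (nat_lit 0)), ((nat_lit 0), (nat_lit 0), (nat_lit 0)), ((nat_lit 637), (nat_lit 1000), (nat_lit 908))], ((nat_lit 100), (nat_lit 62), (nat_lit 92))⟩, (nat_lit 2295481), (nat_lit 399), (nat_lit 399), (nat_lit 0), (nat_lit 180035), [(nat_lit 4688000000), (nat_lit 9842000000), (nat_lit 14058000000)], [], [(nat_lit 35203323920), (nat_lit 36927541420), (nat_lit 37663740752), (nat_lit 39988497752), (nat_lit 25801346268), (nat_lit 27302592070), (nat_lit 27324000272), (nat_lit 28914231558)], (nat_lit 1271251), (nat_lit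 1271251), (nat_lit 1271251), (nat_lit 1271251), (nat_lit 0), (nat_lit 780000), [(nat_lit 1100000), (nat_lit 2127501), (nat_lit 1271251)], [(nat_lit 19), (nat_lit 63), (nat_lit 401), (nat_lit 175), (nat_lit 9)]⟩,
 Rw.none⟩) (.leaf ⟨(nat_lit 32), (nat_lit 968), (nat_lit 0), (nat_lit 0), (nat_lit 21990), (nat_lit 7856), (nat_lit 10468), (nat_lit 0), (nat_lit 0), (nat_lit 0), (nat_lit 128000), [((nat_lit 400), [((nat_lit 43), (nat_lit 5), (nat_lit 32))])], ⟨(nat_lit 6), false, true, false, (nat_lit 250), (nat_lit 0), (nat_lit 2237), [(nat_lit 1543695), (nat_lit 1548146), (nat_lit 1587391), (nat_lit 1596294), (nat_lit 1659577), (nat_lit 1649997), (nat_lit 1705063), (nat_lit 1699935)]⟩, ⟨(nat_lit 4), false, false, true, (nat_lit 174), (nat_lit 0), (nat_lit 2237), [(nat_lit 1351885), (nat_lit 1349998), (nat_lit 1397434), (nat_lit 1399999), (nat_lit 1480164), (nat_lit 1462492), (nat_lit 1525715), (nat_lit 1512494)]⟩, (nat_lit 5009525), (nat_lit 40427903),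 (nat_lit 17005343), (nat_lit 9566754), (nat_lit 4), (nat_lit 0), [⟨(nat_lit 0), (nat_lit 95), (nat_lit 31), (nat_lit 100), (nat_lit 372540453)⟩], [⟨(nat_lit 1), (nat_lit 100), (nat_lit 31), (nat_lit 95), (nat_lit 995794907)⟩], [], [],
 ⟨⟨[(nat_lit 40), (nat_lit 80), (nat_lit 120)], [(nat_lit 0), (nat_lit 2514), (nat_lit 4610)], [((nat_lit 0), (nat_lit 0), (nat_lit 0)), ((nat_lit 1000), (nat_lit 446), (nat_lit 804)), ((nat_lit 1000), (nat_lit 443), (nat_lit 819))], ((nat_lit 44), (nat_lit 100), (nat_lit 95))⟩, (nat_lit 0), (nat_lit 138), (nat_lit 138), (nat_lit 0), (nat_lit 124790), [(nat_lit 2696466234), (nat_lit 5191221101), (nat_lit 5985651200)], [(nat_lit 0), (nat_lit 0), (nat_lit 0)], [(nat_lit 27228087360), (nat_lit 29079078096), (nat_lit 29637130296), (nat_lit 31669375472), (nat_lit 28887191468), (nat_lit 30730585908), (nat_lit 31275942099), (nat_lit 33066002188)], (nat_lit 1271251), (nat_lit 1271251), (nat_lit 1271251), (nat_lit 1271251),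 (nat_lit 1100000), (nat_lit 1870626), [(nat_lit 490000), (nat_lit 1100000), (nat_lit 1785001)], [(nat_lit 4), (nat_lit 51), (nat_lit 373), (nat_lit 150), (nat_lit 11)]⟩,
 ⟨⟨[(nat_lit 80), (nat_lit 140), (nat_lit 200)], [(nat_lit 0), (nat_lit 0), (nat_lit 5481)], [((nat_lit 0), (nat_lit 0), (nat_lit 0)), ((nat_lit 0), (nat_lit 0), (nat_lit 0)), ((nat_lit 637), (nat_lit 1000), (nat_lit 908))], ((nat_lit 0), (nat_lit 0), (nat_lit 0))⟩, (nat_lit 2731508), (nat_lit 437), (nat_lit 437), (nat_lit 0), (nat_lit 109066), [(nat_lit 4537984000), (nat_lit 9527056000), (nat_lit 15875200000)], [], [(nat_lit 33903904460), (nat_lit 35148207472), (nat_lit 35808551896), (nat_lit 37553602672), (nat_lit 25831348156), (nat_lit 27800221998), (nat_lit 28354862900), (nat_lit 29878092934)], (nat_lit 1271251), (nat_lit 1271251), (nat_lit 1271251), (nat_lit 1271251), (nat_lit 0), (nat_lit 780000), [(nat_lit 1100000), (nat_lit 2127501), (nat_lit 1271251)], [(nat_lit 20), (nat_lit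 64), (nat_lit 401), (nat_lit 175), (nat_lit 8)]⟩,
 Rw.none⟩)) (.leaf ⟨(nat_lit 0), (nat_lit 878), (nat_lit 0), (nat_lit 122), (nat_lit 1671), (nat_lit 9506), (nat_lit 9074), (nat_lit 1539), (nat_lit 0), (nat_lit 0), (nat_lit 0), [], Pd.none, Pd.none, (nat_lit 0), (nat_lit 1), (nat_lit 0), (nat_lit 0), (nat_lit 4), (nat_lit 0), [], [⟨(nat_lit 1), (nat_lit 100), (nat_lit 31), (nat_lit 95), (nat_lit 604044290)⟩], [], [],
 ⟨⟨[(nat_lit 40), (nat_lit 80), (nat_lit 120)], [(nat_lit 0), (nat_lit 2514), (nat_lit 4610)], [((nat_lit 0), (nat_lit 0), (nat_lit 0)), ((nat_lit 1000), (nat_lit 446), (nat_lit 804)), ((nat_lit 1000), (nat_lit 443), (nat_lit 819))], ((nat_lit 44), (nat_lit 100), (nat_lit 95))⟩, (nat_lit 4433), (nat_lit 164), (nat_lit 164), (nat_lit 0), (nat_lit 218103), [(nat_lit 3119117176), (nat_lit 6564770795), (nat_lit 7968000000)], [], [(nat_lit 28477690905), (nat_lit 30582647166), (nat_lit 31085992543), (nat_lit 33546600272), (nat_lit 30046444107),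 (nat_lit 32386132796), (nat_lit 32753477293), (nat_lit 34783844826)], (nat_lit 1271251), (nat_lit 1271251), (nat_lit 1271251), (nat_lit 1271251), (nat_lit 1100000), (nat_lit 1870626), [(nat_lit 490000), (nat_lit 1100000), (nat_lit 1785001)], [(nat_lit 4), (nat_lit 51), (nat_lit 373), (nat_lit 150), (nat_lit 11)]⟩,
 ⟨⟨[(nat_lit 80), (nat_lit 140), (nat_lit 200)], [(nat_lit 0), (nat_lit 0), (nat_lit 5481)], [((nat_lit 0), (nat_lit 0), (nat_lit 0)), ((nat_lit 0), (nat_lit 0), (nat_lit 0)), ((nat_lit 637), (nat_lit 1000), (nat_lit 908))], ((nat_lit 0), (nat_lit 0), (nat_lit 0))⟩, (nat_lit 568860), (nat_lit 313), (nat_lit 313), (nat_lit 0), (nat_lit 256026), [(nat_lit 4688000000), (nat_lit 9842000000), (nat_lit 16400000000)], [], [(nat_lit 36962693640), (nat_lit 38829201696), (nat_lit 39264133908), (nat_lit 40723621377), (nat_lit 36482239724), (nat_lit 38066684469), (nat_lit 38346899424), (nat_lit 39571414255)], (nat_lit 1271251), (nat_lit 1271251), (nat_lit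 1271251), (nat_lit 1271251), (nat_lit 780000), (nat_lit 1435001), [(nat_lit 1100000), (nat_lit 2127501), (nat_lit 1271251)], [(nat_lit 20), (nat_lit 64), (nat_lit 428), (nat_lit 200), (nat_lit 9)]⟩,
 ⟨⟨[(nat_lit 140), (nat_lit 180), (nat_lit 200)], [(nat_lit 0), (nat_lit 0), (nat_lit 2835)], [((nat_lit 0), (nat_lit 0), (nat_lit 0)), ((nat_lit 0), (nat_lit 0), (nat_lit 0)), ((nat_lit 363), (nat_lit 1000), (nat_lit 798))], ((nat_lit 0), (nat_lit 0), (nat_lit 0))⟩, (nat_lit 33566), (nat_lit 300), (nat_lit 1062), (nat_lit 9528202), (nat_lit 1448399), [(nat_lit 1200724000), (nat_lit 1715076000), (nat_lit 2000800000)], [], [(nat_lit 7651710694), (nat_lit 7210580076), (nat_lit 7076610673), (nat_lit 6822481670), (nat_lit 7001474582), (nat_lit 6750533958), (nat_lit 6608871811), (nat_lit 6365684491)], (nat_lit 780000), (nat_lit 1100000), (nat_lit 1100000), (nat_lit 1870626), (nat_lit 780000), (nat_lit 1435001), [(nat_lit 1977501), (nat_lit 1271251), (nat_lit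 1271251)], [(nat_lit 32), (nat_lit 67), (nat_lit 401), (nat_lit 175), (nat_lit 9)]⟩⟩)))
noncomputable def c14_106 : Tr Lf :=
 (.stt (nat_lit 1) (.stt (nat_lit 2) (.leaf ⟨(nat_lit 0), (nat_lit 936), (nat_lit 0), (nat_lit 64), (nat_lit 11190), (nat_lit 6018), (nat_lit 6005), (nat_lit 736), (nat_lit 0), (nat_lit 0), (nat_lit 0), [], Pd.none, Pd.none, (nat_lit 0), (nat_lit 1), (nat_lit 0), (nat_lit 0), (nat_lit 5), (nat_lit 0), [], [⟨(nat_lit 1), (nat_lit 100), (nat_lit 31), (nat_lit 95), (nat_lit 878854831)⟩], [⟨(nat_lit 1), (nat_lit 60), (nat_lit 100), (nat_lit 100), (nat_lit 493432414)⟩], [],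
 ⟨⟨[(nat_lit 40), (nat_lit 80), (nat_lit 120)], [(nat_lit 0), (nat_lit 2514), (nat_lit 4610)], [((nat_lit 0), (nat_lit 0), (nat_lit 0)), ((nat_lit 1000), (nat_lit 446), (nat_lit 804)), ((nat_lit 1000), (nat_lit 443), (nat_lit 819))], ((nat_lit 44), (nat_lit 100), (nat_lit 95))⟩, (nat_lit 0), (nat_lit 72), (nat_lit 72), (nat_lit 0), (nat_lit 0), [(nat_lit 2484372450), (nat_lit 4688000007), (nat_lit 7968000000)], [], [(nat_lit 24905409912), (nat_lit 26732198691), (nat_lit 27762920879), (nat_lit 29578260816), (nat_lit 27135069907), (nat_lit 28886407012), (nat_lit 29630057441), (nat_lit 31152429602)], (nat_lit 0), (nat_lit 0), (nat_lit 0), (nat_lit 0), (nat_lit 0), (nat_lit 0), [], [(nat_lit 4), (nat_lit 51), (nat_lit 373), (nat_lit 150), (nat_lit 11)]⟩,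
 ⟨⟨[(nat_lit 80), (nat_lit 140), (nat_lit 200)], [(nat_lit 0), (nat_lit 0), (nat_lit 5481)], [((nat_lit 0), (nat_lit 0), (nat_lit 0)), ((nat_lit 0), (nat_lit 0), (nat_lit 0)), ((nat_lit 637), (nat_lit 1000), (nat_lit 908))], ((nat_lit 0), (nat_lit 0), (nat_lit 0))⟩, (nat_lit 0), (nat_lit 103), (nat_lit 103), (nat_lit 0), (nat_lit 0), [(nat_lit 4688000000), (nat_lit 9842000000), (nat_lit 16400000000)], [], [(nat_lit 15046179380), (nat_lit 17890339588), (nat_lit 19433524190), (nat_lit 21760874815), (nat_lit 27512561284), (nat_lit 29332370901), (nat_lit 30007738733), (nat_lit 31491406479)], (nat_lit 0), (nat_lit 0), (nat_lit 0), (nat_lit 0), (nat_lit 0), (nat_lit 0), [], [(nat_lit 20), (nat_lit 64), (nat_lit 483), (nat_lit 250), (nat_lit 10)]⟩,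
 ⟨⟨[(nat_lit 140), (nat_lit 180), (nat_lit 200)], [(nat_lit 0), (nat_lit 0), (nat_lit 2835)], [((nat_lit 0), (nat_lit 0), (nat_lit 0)), ((nat_lit 0), (nat_lit 0), (nat_lit 0)), ((nat_lit 363), (nat_lit 1000), (nat_lit 798))], ((nat_lit 0), (nat_lit 0), (nat_lit 0))⟩, (nat_lit 17608), (nat_lit 300), (nat_lit 1566), (nat_lit 4998407), (nat_lit 2637791), [(nat_lit 629888000), (nat_lit 899712000), (nat_lit 1049600000)], [], [(nat_lit 3991392920), (nat_lit 3872690904), (nat_lit 3790019816), (nat_lit 3671120336), (nat_lit 3745617680), (nat_lit 3621866640), (nat_lit 3544042510), (nat_lit 3420414890)], (nat_lit 780000), (nat_lit 1100000), (nat_lit 1100000), (nat_lit 1870626), (nat_lit 1271251), (nat_lit 1271251), [(nat_lit 1977501), (nat_lit 1271251), (nat_lit 1271251)], [(nat_lit 32), (nat_lit 67), (nat_lit 492), (nat_lit 200), (nat_lit 10)]⟩⟩) (.spl (nat_lit 0) (nat_lit 390) (.leaf ⟨(nat_lit 623), (nat_lit 256), (nat_lit 0), (nat_lit 121), (nat_lit 0),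 (nat_lit 4190), (nat_lit 3972), (nat_lit 1411), (nat_lit 0), (nat_lit 0), (nat_lit 161980), [((nat_lit 390), [((nat_lit 42), (nat_lit 0), (nat_lit 623))])], ⟨(nat_lit 6), false, true, false, (nat_lit 250), (nat_lit 1581), (nat_lit 2237), [(nat_lit 1545457), (nat_lit 1546538), (nat_lit 1590915), (nat_lit 1593078), (nat_lit 1659578), (nat_lit 1655900), (nat_lit 1705117), (nat_lit 1702521)]⟩, ⟨(nat_lit 4), false, false, true, (nat_lit 175), (nat_lit 1581), (nat_lit 2237), [(nat_lit 1351886), (nat_lit 1352103), (nat_lit 1397434), (nat_lit 1398733), (nat_lit 1480171), (nat_lit 1475033), (nat_lit 1525719), (nat_lit 1521663)]⟩, (nat_lit 5021076), (nat_lit 40325489), (nat_lit 17026359), (nat_lit 9648152), (nat_lit 5), (nat_lit 0), [], [⟨(nat_lit 1), (nat_lit 100), (nat_lit 38), (nat_lit 96), (nat_lit 269808045)⟩], [⟨(nat_lit 1), (nat_lit 60), (nat_lit 100), (nat_lit 100), (nat_lit 38836423)⟩], [],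
 ⟨⟨[(nat_lit 40), (nat_lit 80), (nat_lit 120)], [(nat_lit 0), (nat_lit 2514), (nat_lit 4610)], [((nat_lit 0), (nat_lit 0), (nat_lit 0)), ((nat_lit 1000), (nat_lit 446), (nat_lit 804)), ((nat_lit 1000), (nat_lit 443), (nat_lit 819))], ((nat_lit 44), (nat_lit 100), (nat_lit 95))⟩, (nat_lit 0), (nat_lit 67), (nat_lit 67), (nat_lit 0), (nat_lit 0), [(nat_lit 1683680324), (nat_lit 2576030006), (nat_lit 4340644800)], [(nat_lit 0), (nat_lit 0), (nat_lit 0)], [(nat_lit 23544249781), (nat_lit 24285112504), (nat_lit 26128437486), (nat_lit 26759960556), (nat_lit 25767391700), (nat_lit 26397770454), (nat_lit 27993127542), (nat_lit 28621197862)], (nat_lit 0), (nat_lit 0), (nat_lit 0), (nat_lit 0), (nat_lit 0), (nat_lit 0), [], [(nat_lit 4), (nat_lit 51), (nat_lit 373), (nat_lit 150), (nat_lit 11)]⟩,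
 ⟨⟨[(nat_lit 80), (nat_lit 140), (nat_lit 200)], [(nat_lit 0), (nat_lit 0), (nat_lit 5481)], [((nat_lit 0), (nat_lit 0), (nat_lit 0)), ((nat_lit 0), (nat_lit 0), (nat_lit 0)), ((nat_lit 637), (nat_lit 1000), (nat_lit 908))], ((nat_lit 0), (nat_lit 0), (nat_lit 0))⟩, (nat_lit 831875), (nat_lit 319), (nat_lit 319), (nat_lit 0), (nat_lit 334986), [(nat_lit 1767376000), (nat_lit 3710434000), (nat_lit 6182800000)], [], [(nat_lit 10891674167), (nat_lit 11231718077), (nat_lit 11147212606), (nat_lit 11434569540), (nat_lit 12978325095), (nat_lit 13214865467), (nat_lit 13076767563), (nat_lit 13618458948)], (nat_lit 1271251), (nat_lit 1271251), (nat_lit 1271251), (nat_lit 1271251), (nat_lit 1271251), (nat_lit 1271251), [(nat_lit 1100000), (nat_lit 2127501), (nat_lit 1271251)], [(nat_lit 20), (nat_lit 64), (nat_lit 483), (nat_lit 250), (nat_lit 10)]⟩,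
 ⟨⟨[(nat_lit 140), (nat_lit 180), (nat_lit 200)], [(nat_lit 0), (nat_lit 0), (nat_lit 2835)], [((nat_lit 0), (nat_lit 0), (nat_lit 0)), ((nat_lit 0), (nat_lit 0), (nat_lit 0)), ((nat_lit 363), (nat_lit 1000), (nat_lit 798))], ((nat_lit 0), (nat_lit 0), (nat_lit 0))⟩, (nat_lit 33291), (nat_lit 300), (nat_lit 913), (nat_lit 9450101), (nat_lit 1227604), [(nat_lit 1190882000), (nat_lit 1701018000), (nat_lit 1984400000)], [], [(nat_lit 7391035640), (nat_lit 7165510034), (nat_lit 7042164531), (nat_lit 6814644487), (nat_lit 6995958956), (nat_lit 6757933397), (nat_lit 6642741040), (nat_lit 6404870281)], (nat_lit 780000), (nat_lit 1100000), (nat_lit 1100000), (nat_lit 1870626), (nat_lit 1271251), (nat_lit 1271251), [(nat_lit 1977501), (nat_lit 1271251), (nat_lit 1271251)], [(nat_lit 32), (nat_lit 67), (nat_lit 428), (nat_lit 200), (nat_lit 9)]⟩⟩) (.trX (nat_lit 4) (nat_lit 0) (nat_lit 2) (nat_lit 31) (nat_lit 100) (nat_lit 99) (nat_lit 230) (.leaf ⟨(nat_lit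 728), (nat_lit 194), (nat_lit 0), (nat_lit 78), (nat_lit 0), (nat_lit 3768), (nat_lit 2782), (nat_lit 913), (nat_lit 0), (nat_lit 0), (nat_lit 189280), [((nat_lit 400), [((nat_lit 42), (nat_lit 0), (nat_lit 728))])], ⟨(nat_lit 6), false, true, false, (nat_lit 250), (nat_lit 0), (nat_lit 1582), [(nat_lit 1545316), (nat_lit 1548686), (nat_lit 1590632), (nat_lit 1597372), (nat_lit 1655899), (nat_lit 1649997), (nat_lit 1702515), (nat_lit 1699984)]⟩, ⟨(nat_lit 4), false, false, true, (nat_lit 168), (nat_lit 0), (nat_lit 1582), [(nat_lit 1352101), (nat_lit 1349997), (nat_lit 1398733), (nat_lit 1399999), (nat_lit 1447710), (nat_lit 1437494), (nat_lit 1494343), (nat_lit 1487497)]⟩, (nat_lit 4961814), (nat_lit 40761901), (nat_lit 17101484), (nat_lit 9136615), (nat_lit 5), (nat_lit 0), [], [⟨(nat_lit 1), (nat_lit 100), (nat_lit 22), (nat_lit 96), (nat_lit 442617933)⟩], [⟨(nat_lit 1), (nat_lit 60), (nat_lit 100), (nat_lit 100), (nat_lit 32030749)⟩], [],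
 ⟨⟨[(nat_lit 40), (nat_lit 80), (nat_lit 100)], [(nat_lit 0), (nat_lit 3225), (nat_lit 4371)], [((nat_lit 0), (nat_lit 0), (nat_lit 0)), ((nat_lit 1000), (nat_lit 321), (nat_lit 877)), ((nat_lit 1000), (nat_lit 317), (nat_lit 896))], ((nat_lit 31), (nat_lit 100), (nat_lit 94))⟩, (nat_lit 0), (nat_lit 72), (nat_lit 72), (nat_lit 0), (nat_lit 0), [(nat_lit 1618397965), (nat_lit 2220080001), (nat_lit 2918380800)], [(nat_lit 0), (nat_lit 0), (nat_lit 0)], [(nat_lit 24062659983), (nat_lit 24763693185), (nat_lit 26495533911), (nat_lit 27095542865), (nat_lit 25616259191), (nat_lit 26238413551), (nat_lit 27752866141), (nat_lit 28307332382)], (nat_lit 0), (nat_lit 0), (nat_lit 0), (nat_lit 0), (nat_lit 0), (nat_lit 0), [], [(nat_lit 3), (nat_lit 50), (nat_lit 272), (nat_lit 60), (nat_lit 9)]⟩,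
 ⟨⟨[(nat_lit 80), (nat_lit 140), (nat_lit 200)], [(nat_lit 0), (nat_lit 0), (nat_lit 5481)], [((nat_lit 0), (nat_lit 0), (nat_lit 0)), ((nat_lit 0), (nat_lit 0), (nat_lit 0)), ((nat_lit 637), (nat_lit 1000), (nat_lit 908))], ((nat_lit 0), (nat_lit 0), (nat_lit 0))⟩, (nat_lit 557701), (nat_lit 455), (nat_lit 455), (nat_lit 0), (nat_lit 482376), [(nat_lit 1275136000), (nat_lit 2677024000), (nat_lit 4460800000)], [], [(nat_lit 8222476391), (nat_lit 8467479323), (nat_lit 8414350775), (nat_lit 8585626521), (nat_lit 9602010007), (nat_lit 9774214313), (nat_lit 9631869598), (nat_lit 9739912353)], (nat_lit 1271251), (nat_lit 1271251), (nat_lit 1271251), (nat_lit 1271251), (nat_lit 1271251), (nat_lit 1271251), [(nat_lit 1100000), (nat_lit 2127501), (nat_lit 1271251)], [(nat_lit 20), (nat_lit 64), (nat_lit 483), (nat_lit 250), (nat_lit 10)]⟩,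
 ⟨⟨[(nat_lit 140), (nat_lit 180), (nat_lit 200)], [(nat_lit 0), (nat_lit 0), (nat_lit 2835)], [((nat_lit 0), (nat_lit 0), (nat_lit 0)), ((nat_lit 0), (nat_lit 0), (nat_lit 0)), ((nat_lit 363), (nat_lit 1000), (nat_lit 798))], ((nat_lit 0), (nat_lit 0), (nat_lit 0))⟩, (nat_lit 21460), (nat_lit 300), (nat_lit 1176), (nat_lit 6091805), (nat_lit 1805217), [(nat_lit 767676000), (nat_lit 1096524000), (nat_lit 1279200000)], [], [(nat_lit 4774799422), (nat_lit 4626941868), (nat_lit 4572339143), (nat_lit 4424452167), (nat_lit 4497848285), (nat_lit 4345072774), (nat_lit 4312188973), (nat_lit 4158672050)], (nat_lit 780000), (nat_lit 1100000), (nat_lit 1100000), (nat_lit 1699376), (nat_lit 1271251), (nat_lit 1271251), [(nat_lit 1977501), (nat_lit 1271251), (nat_lit 1271251)], [(nat_lit 32), (nat_lit 67), (nat_lit 428), (nat_lit 200), (nat_lit 9)]⟩⟩)))) (.spl (nat_lit 0) (nat_lit 390) (.leaf ⟨(nat_lit 118), (nat_lit 584), (nat_lit 0), (nat_lit 298), (nat_lit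 0), (nat_lit 4062), (nat_lit 9831), (nat_lit 3474), (nat_lit 0), (nat_lit 0), (nat_lit 472000), [((nat_lit 390), [((nat_lit 43), (nat_lit 5), (nat_lit 118))])], ⟨(nat_lit 6), false, true, false, (nat_lit 250), (nat_lit 1581), (nat_lit 2237), [(nat_lit 1545457), (nat_lit 1546538), (nat_lit 1590915), (nat_lit 1593078), (nat_lit 1659578), (nat_lit 1655900), (nat_lit 1705117), (nat_lit 1702521)]⟩, ⟨(nat_lit 4), false, false, true, (nat_lit 175), (nat_lit 1581), (nat_lit 2237), [(nat_lit 1351886), (nat_lit 1352103), (nat_lit 1397434), (nat_lit 1398733), (nat_lit 1480171), (nat_lit 1475033), (nat_lit 1525719), (nat_lit 1521663)]⟩, (nat_lit 5021076), (nat_lit 40325489), (nat_lit 17026359), (nat_lit 9648152), (nat_lit 5), (nat_lit 0), [⟨(nat_lit 0), (nat_lit 92), (nat_lit 31), (nat_lit 100), (nat_lit 317432932)⟩], [⟨(nat_lit 1), (nat_lit 100), (nat_lit 38), (nat_lit 96), (nat_lit 133188785)⟩], [⟨(nat_lit 1), (nat_lit 60), (nat_lit 100), (nat_lit 100), (nat_lit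 105046302)⟩], [],
 ⟨⟨[(nat_lit 40), (nat_lit 80), (nat_lit 120)], [(nat_lit 0), (nat_lit 2514), (nat_lit 4610)], [((nat_lit 0), (nat_lit 0), (nat_lit 0)), ((nat_lit 1000), (nat_lit 446), (nat_lit 804)), ((nat_lit 1000), (nat_lit 443), (nat_lit 819))], ((nat_lit 44), (nat_lit 100), (nat_lit 95))⟩, (nat_lit 0), (nat_lit 143), (nat_lit 143), (nat_lit 0), (nat_lit 156233), [(nat_lit 1920956228), (nat_lit 1493817498), (nat_lit 658088800)], [(nat_lit 0), (nat_lit 0), (nat_lit 0)], [(nat_lit 23574855487), (nat_lit 24171916219), (nat_lit 25899409361), (nat_lit 26626152753), (nat_lit 25471144537), (nat_lit 26197487983), (nat_lit 27878506630), (nat_lit 28497255934)], (nat_lit 1271251), (nat_lit 1271251), (nat_lit 1271251), (nat_lit 1271251), (nat_lit 1100000), (nat_lit 1870626), [(nat_lit 490000), (nat_lit 1100000), (nat_lit 1785001)], [(nat_lit 4), (nat_lit 51), (nat_lit 373), (nat_lit 150), (nat_lit 11)]⟩,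
 ⟨⟨[(nat_lit 80), (nat_lit 140), (nat_lit 200)], [(nat_lit 0), (nat_lit 0), (nat_lit 5481)], [((nat_lit 0), (nat_lit 0), (nat_lit 0)), ((nat_lit 0), (nat_lit 0), (nat_lit 0)), ((nat_lit 637), (nat_lit 1000), (nat_lit 908))], ((nat_lit 0), (nat_lit 0), (nat_lit 0))⟩, (nat_lit 2032399), (nat_lit 262), (nat_lit 262), (nat_lit 0), (nat_lit 181015), [(nat_lit 4134816000), (nat_lit 8680644000), (nat_lit 14464800000)], [], [(nat_lit 24163705698), (nat_lit 24703651841), (nat_lit 24831738399), (nat_lit 25968477746), (nat_lit 29855344724), (nat_lit 30396009419), (nat_lit 30776030568), (nat_lit 32411112600)], (nat_lit 1271251), (nat_lit 1271251), (nat_lit 1271251), (nat_lit 1271251), (nat_lit 1271251), (nat_lit 1271251), [(nat_lit 1100000), (nat_lit 2127501), (nat_lit 1271251)], [(nat_lit 20), (nat_lit 64), (nat_lit 483), (nat_lit 250), (nat_lit 10)]⟩,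
 ⟨⟨[(nat_lit 140), (nat_lit 180), (nat_lit 200)], [(nat_lit 0), (nat_lit 0), (nat_lit 2835)], [((nat_lit 0), (nat_lit 0), (nat_lit 0)), ((nat_lit 0), (nat_lit 0), (nat_lit 0)), ((nat_lit 363), (nat_lit 1000), (nat_lit 798))], ((nat_lit 0), (nat_lit 0), (nat_lit 0))⟩, (nat_lit 81989), (nat_lit 300), (nat_lit 815), (nat_lit 23273806), (nat_lit 1001797), [(nat_lit 2932916000), (nat_lit 4189284000), (nat_lit 4887200000)], [], [(nat_lit 18206688296), (nat_lit 17651469052), (nat_lit 17347844889), (nat_lit 16787713841), (nat_lit 17234217966), (nat_lit 16648219559), (nat_lit 16362843339), (nat_lit 15777230302)], (nat_lit 780000), (nat_lit 1100000), (nat_lit 1100000), (nat_lit 1870626), (nat_lit 1271251), (nat_lit 1271251), [(nat_lit 1977501), (nat_lit 1271251), (nat_lit 1271251)], [(nat_lit 32), (nat_lit 67), (nat_lit 428), (nat_lit 200), (nat_lit 9)]⟩⟩) (.trX (nat_lit 4) (nat_lit 0) (nat_lit 2) (nat_lit 31) (nat_lit 100) (nat_lit 99) (nat_lit 230) (.leaf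 ⟨(nat_lit 647), (nat_lit 246), (nat_lit 0), (nat_lit 107), (nat_lit 0), (nat_lit 3699), (nat_lit 3672), (nat_lit 1250), (nat_lit 0), (nat_lit 0), (nat_lit 168220), [((nat_lit 400), [((nat_lit 42), (nat_lit 0), (nat_lit 647))])], ⟨(nat_lit 6), false, true, false, (nat_lit 250), (nat_lit 0), (nat_lit 1582), [(nat_lit 1545316), (nat_lit 1548686), (nat_lit 1590632), (nat_lit 1597372), (nat_lit 1655899), (nat_lit 1649997), (nat_lit 1702515), (nat_lit 1699984)]⟩, ⟨(nat_lit 4), false, false, true, (nat_lit 168), (nat_lit 0), (nat_lit 1582), [(nat_lit 1352101), (nat_lit 1349997), (nat_lit 1398733), (nat_lit 1399999), (nat_lit 1447710), (nat_lit 1437494), (nat_lit 1494343), (nat_lit 1487497)]⟩, (nat_lit 4961814), (nat_lit 40761901), (nat_lit 17101484), (nat_lit 9136615), (nat_lit 5), (nat_lit 0), [], [⟨(nat_lit 1), (nat_lit 100), (nat_lit 22), (nat_lit 96), (nat_lit 442821473)⟩], [⟨(nat_lit 1), (nat_lit 60), (nat_lit 100), (nat_lit 100), (nat_lit 49855683)⟩],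 [],
 ⟨⟨[(nat_lit 40), (nat_lit 80), (nat_lit 100)], [(nat_lit 0), (nat_lit 3225), (nat_lit 4371)], [((nat_lit 0), (nat_lit 0), (nat_lit 0)), ((nat_lit 1000), (nat_lit 321), (nat_lit 877)), ((nat_lit 1000), (nat_lit 317), (nat_lit 896))], ((nat_lit 31), (nat_lit 100), (nat_lit 94))⟩, (nat_lit 431480), (nat_lit 146), (nat_lit 146), (nat_lit 0), (nat_lit 215437), [(nat_lit 1626470562), (nat_lit 2736511999), (nat_lit 3289069200)], [(nat_lit 0), (nat_lit 0), (nat_lit 0)], [(nat_lit 24025629608), (nat_lit 24666433688), (nat_lit 26284903116), (nat_lit 26939906688), (nat_lit 25460747064), (nat_lit 26040076993), (nat_lit 27620153149), (nat_lit 28235605658)], (nat_lit 1271251), (nat_lit 1271251), (nat_lit 1271251), (nat_lit 1271251), (nat_lit 1100000), (nat_lit 1699376), [(nat_lit 490000), (nat_lit 1100000), (nat_lit 1442501)], [(nat_lit 3), (nat_lit 50), (nat_lit 272), (nat_lit 60), (nat_lit 9)]⟩,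
 ⟨⟨[(nat_lit 80), (nat_lit 140), (nat_lit 200)], [(nat_lit 0), (nat_lit 0), (nat_lit 5481)], [((nat_lit 0), (nat_lit 0), (nat_lit 0)), ((nat_lit 0), (nat_lit 0), (nat_lit 0)), ((nat_lit 637), (nat_lit 1000), (nat_lit 908))], ((nat_lit 0), (nat_lit 0), (nat_lit 0))⟩, (nat_lit 772684), (nat_lit 290), (nat_lit 290), (nat_lit 0), (nat_lit 256816), [(nat_lit 1654864000), (nat_lit 3474226000), (nat_lit 5789200000)], [], [(nat_lit 9986188640), (nat_lit 10179539592), (nat_lit 10247911586), (nat_lit 10694715309), (nat_lit 12189368712), (nat_lit 12411500407), (nat_lit 12259860583), (nat_lit 12703309731)], (nat_lit 1271251), (nat_lit 1271251), (nat_lit 1271251), (nat_lit 1271251), (nat_lit 1271251), (nat_lit 1271251), [(nat_lit 1100000), (nat_lit 2127501), (nat_lit 1271251)], [(nat_lit 20), (nat_lit 64), (nat_lit 483), (nat_lit 250), (nat_lit 10)]⟩,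
 ⟨⟨[(nat_lit 140), (nat_lit 180), (nat_lit 200)], [(nat_lit 0), (nat_lit 0), (nat_lit 2835)], [((nat_lit 0), (nat_lit 0), (nat_lit 0)), ((nat_lit 0), (nat_lit 0), (nat_lit 0)), ((nat_lit 363), (nat_lit 1000), (nat_lit 798))], ((nat_lit 0), (nat_lit 0), (nat_lit 0))⟩, (nat_lit 29439), (nat_lit 300), (nat_lit 1021), (nat_lit 8356703), (nat_lit 1448399), [(nat_lit 1053094000), (nat_lit 1504206000), (nat_lit 1754800000)], [], [(nat_lit 6563770724), (nat_lit 6361428622), (nat_lit 6286750950), (nat_lit 6084366690), (nat_lit 6176607914), (nat_lit 5967436872), (nat_lit 5922513584), (nat_lit 5712438748)], (nat_lit 780000), (nat_lit 1100000), (nat_lit 1100000), (nat_lit 1699376), (nat_lit 1271251), (nat_lit 1271251), [(nat_lit 1977501), (nat_lit 1271251), (nat_lit 1271251)], [(nat_lit 32), (nat_lit 67), (nat_lit 428), (nat_lit 200), (nat_lit 9)]⟩⟩))))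
noncomputable def c14_107 : Tr Lf :=
 (.spl (nat_lit 6) (nat_lit 120) (.spl (nat_lit 5) (nat_lit 120) (.spl (nat_lit 1) (nat_lit 260) (.spl (nat_lit 6) (nat_lit 108) (.leaf ⟨(nat_lit 398), (nat_lit 602), (nat_lit 0), (nat_lit 0), (nat_lit 12670), (nat_lit 5850), (nat_lit 6648), (nat_lit 0), (nat_lit 0), (nat_lit 0), (nat_lit 99500), [((nat_lit 400), [((nat_lit 29), (nat_lit 0), (nat_lit 398))])], ⟨(nat_lit 6), false, true, false, (nat_lit 245), (nat_lit 0), (nat_lit 2237), [(nat_lit 1543695), (nat_lit 1548146), (nat_lit 1565543), (nat_lit 1572220), (nat_lit 1659577), (nat_lit 1649997), (nat_lit 1682352), (nat_lit 1674999)]⟩, ⟨(nat_lit 4), false, false, true, (nat_lit 194), (nat_lit 0), (nat_lit 2237), [(nat_lit 1397434), (nat_lit 1399999), (nat_lit 1419294), (nat_lit 1424084), (nat_lit 1554222), (nat_lit 1537494), (nat_lit 1576997), (nat_lit 1562495)]⟩, (nat_lit 5140124), (nat_lit 39589899), (nat_lit 16251920), (nat_lit 11158181), (nat_lit 4), (nat_lit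 0), [⟨(nat_lit 0), (nat_lit 97), (nat_lit 31), (nat_lit 100), (nat_lit 96715130)⟩], [⟨(nat_lit 1), (nat_lit 100), (nat_lit 32), (nat_lit 100), (nat_lit 773877567)⟩], [⟨(nat_lit 0), (nat_lit 100), (nat_lit 98), (nat_lit 10), (nat_lit 124837395)⟩], [],
 ⟨⟨[(nat_lit 40), (nat_lit 80), (nat_lit 100)], [(nat_lit 0), (nat_lit 2514), (nat_lit 3562)], [((nat_lit 0), (nat_lit 0), (nat_lit 0)), ((nat_lit 1000), (nat_lit 446), (nat_lit 804)), ((nat_lit 1000), (nat_lit 443), (nat_lit 819))], ((nat_lit 44), (nat_lit 100), (nat_lit 89))⟩, (nat_lit 0), (nat_lit 107), (nat_lit 107), (nat_lit 0), (nat_lit 79487), [(nat_lit 2119306364), (nat_lit 3813481567), (nat_lit 4473487200)], [(nat_lit 0), (nat_lit 0), (nat_lit 0)], [(nat_lit 25460144850), (nat_lit 27132058400), (nat_lit 28015446950), (nat_lit 29425692600), (nat_lit 28231914582), (nat_lit 29577283763), (nat_lit 30250150382), (nat_lit 31679496963)], (nat_lit 1271251), (nat_lit 1271251), (nat_lit 1271251), (nat_lit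 1271251), (nat_lit 1100000), (nat_lit 2041876), [(nat_lit 490000), (nat_lit 1100000), (nat_lit 1442501)], [(nat_lit 3), (nat_lit 50), (nat_lit 289), (nat_lit 75), (nat_lit 9)]⟩,
 ⟨⟨[(nat_lit 80), (nat_lit 140), (nat_lit 180)], [(nat_lit 0), (nat_lit 0), (nat_lit 3656)], [((nat_lit 0), (nat_lit 0), (nat_lit 0)), ((nat_lit 0), (nat_lit 0), (nat_lit 0)), ((nat_lit 637), (nat_lit 1000), (nat_lit 908))], ((nat_lit 100), (nat_lit 64), (nat_lit 91))⟩, (nat_lit 1622206), (nat_lit 393), (nat_lit 393), (nat_lit 0), (nat_lit 163542), [(nat_lit 2822176000), (nat_lit 5924884000), (nat_lit 8462916000)], [], [(nat_lit 20838054320), (nat_lit 21246292905), (nat_lit 22150933372), (nat_lit 22698688666), (nat_lit 15814969210), (nat_lit 16433741976), (nat_lit 17393489024), (nat_lit 17871136734)], (nat_lit 1271251), (nat_lit 1271251), (nat_lit 1271251), (nat_lit 1271251), (nat_lit 0), (nat_lit 780000), [(nat_lit 1100000), (nat_lit 2127501), (nat_lit 1271251)], [(nat_lit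 19), (nat_lit 63), (nat_lit 401), (nat_lit 175), (nat_lit 9)]⟩,
 Rw.none⟩) (.dle (nat_lit 0))) (.leaf ⟨(nat_lit 37), (nat_lit 963), (nat_lit 0), (nat_lit 0), (nat_lit 20183), (nat_lit 4210), (nat_lit 9791), (nat_lit 0), (nat_lit 0), (nat_lit 0), (nat_lit 9250), [((nat_lit 400), [((nat_lit 29), (nat_lit 0), (nat_lit 37))])], ⟨(nat_lit 6), false, true, false, (nat_lit 254), (nat_lit 0), (nat_lit 2237), [(nat_lit 1565543), (nat_lit 1572220), (nat_lit 1587391), (nat_lit 1596294), (nat_lit 1682352), (nat_lit 1674999), (nat_lit 1705063), (nat_lit 1699935)]⟩, ⟨(nat_lit 4), false, false, true, (nat_lit 194), (nat_lit 0), (nat_lit 2237), [(nat_lit 1397434), (nat_lit 1399999), (nat_lit 1419294), (nat_lit 1424084), (nat_lit 1554222), (nat_lit 1537494), (nat_lit 1576997), (nat_lit 1562495)]⟩, (nat_lit 5183431), (nat_lit 38904391), (nat_lit 17069211), (nat_lit 11026398), (nat_lit 4), (nat_lit 0), [⟨(nat_lit 0), (nat_lit 94), (nat_lit 31), (nat_lit 100), (nat_lit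 489724022)⟩], [⟨(nat_lit 1), (nat_lit 100), (nat_lit 32), (nat_lit 100), (nat_lit 982414301)⟩], [⟨(nat_lit 0), (nat_lit 100), (nat_lit 95), (nat_lit 21), (nat_lit 164985756)⟩], [],
 ⟨⟨[(nat_lit 40), (nat_lit 80), (nat_lit 120)], [(nat_lit 0), (nat_lit 2514), (nat_lit 4610)], [((nat_lit 0), (nat_lit 0), (nat_lit 0)), ((nat_lit 1000), (nat_lit 446), (nat_lit 804)), ((nat_lit 1000), (nat_lit 443), (nat_lit 819))], ((nat_lit 44), (nat_lit 100), (nat_lit 92))⟩, (nat_lit 1277379), (nat_lit 136), (nat_lit 136), (nat_lit 0), (nat_lit 119080), [(nat_lit 1990506306), (nat_lit 5920102778), (nat_lit 7229184008)], [(nat_lit 0), (nat_lit 0), (nat_lit 0)], [(nat_lit 24156890293), (nat_lit 25446694178), (nat_lit 26361097303), (nat_lit 27521381552), (nat_lit 26650005877), (nat_lit 27846112463), (nat_lit 28714746917), (nat_lit 29920809753)], (nat_lit 1271251), (nat_lit 1271251), (nat_lit 1271251), (nat_lit 1271251), (nat_lit 1100000), (nat_lit 2041876), [(nat_lit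 490000), (nat_lit 1100000), (nat_lit 1785001)], [(nat_lit 4), (nat_lit 51), (nat_lit 373), (nat_lit 150), (nat_lit 11)]⟩,
 ⟨⟨[(nat_lit 80), (nat_lit 140), (nat_lit 180)], [(nat_lit 0), (nat_lit 792), (nat_lit 4228)], [((nat_lit 0), (nat_lit 0), (nat_lit 0)), ((nat_lit 1000), (nat_lit 959), (nat_lit 206)), ((nat_lit 709), (nat_lit 1000), (nat_lit 949))], ((nat_lit 100), (nat_lit 69), (nat_lit 96))⟩, (nat_lit 2684211), (nat_lit 411), (nat_lit 411), (nat_lit 0), (nat_lit 209359), [(nat_lit 4514544000), (nat_lit 9477846000), (nat_lit 13537854000)], [], [(nat_lit 30466695011), (nat_lit 31235629633), (nat_lit 32751483840), (nat_lit 33596331264), (nat_lit 23522918066), (nat_lit 24472688242), (nat_lit 25781958595), (nat_lit 26521582007)], (nat_lit 1271251), (nat_lit 1271251), (nat_lit 1271251), (nat_lit 1271251), (nat_lit 0), (nat_lit 780000), [(nat_lit 1100000), (nat_lit 2127501), (nat_lit 1271251)], [(nat_lit 19), (nat_lit 63), (nat_lit 401), (nat_lit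 175), (nat_lit 9)]⟩,
 Rw.none⟩)) (.spl (nat_lit 1) (nat_lit 260) (.spl (nat_lit 6) (nat_lit 108) (.leaf ⟨(nat_lit 0), (nat_lit 312), (nat_lit 0), (nat_lit 688), (nat_lit 0), (nat_lit 5743), (nat_lit 6945), (nat_lit 6707), (nat_lit 0), (nat_lit 0), (nat_lit 0), [], Pd.none, Pd.none, (nat_lit 0), (nat_lit 1), (nat_lit 0), (nat_lit 0), (nat_lit 4), (nat_lit 0), [⟨(nat_lit 0), (nat_lit 97), (nat_lit 31), (nat_lit 100), (nat_lit 664668216)⟩], [], [], [],
 ⟨⟨[(nat_lit 40), (nat_lit 80), (nat_lit 100)], [(nat_lit 0), (nat_lit 2514), (nat_lit 3562)], [((nat_lit 0), (nat_lit 0), (nat_lit 0)), ((nat_lit 1000), (nat_lit 446), (nat_lit 804)), ((nat_lit 1000), (nat_lit 443), (nat_lit 819))], ((nat_lit 44), (nat_lit 100), (nat_lit 89))⟩, (nat_lit 550637), (nat_lit 107), (nat_lit 107), (nat_lit 0), (nat_lit 79487), [(nat_lit 2542789373), (nat_lit 5221161574), (nat_lit 6250000000)], [], [(nat_lit 25323759763), (nat_lit 26977287182), (nat_lit 27869422661), (nat_lit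 29265390016), (nat_lit 28093553860), (nat_lit 29464226539), (nat_lit 30149974668), (nat_lit 31564753346)], (nat_lit 1271251), (nat_lit 1271251), (nat_lit 1271251), (nat_lit 1271251), (nat_lit 1100000), (nat_lit 2041876), [(nat_lit 490000), (nat_lit 1100000), (nat_lit 1442501)], [(nat_lit 3), (nat_lit 50), (nat_lit 289), (nat_lit 75), (nat_lit 9)]⟩,
 ⟨⟨[(nat_lit 80), (nat_lit 140), (nat_lit 180)], [(nat_lit 0), (nat_lit 0), (nat_lit 3656)], [((nat_lit 0), (nat_lit 0), (nat_lit 0)), ((nat_lit 0), (nat_lit 0), (nat_lit 0)), ((nat_lit 637), (nat_lit 1000), (nat_lit 908))], ((nat_lit 100), (nat_lit 64), (nat_lit 91))⟩, (nat_lit 0), (nat_lit 241), (nat_lit 241), (nat_lit 0), (nat_lit 201054), [(nat_lit 4688000000), (nat_lit 9842000000), (nat_lit 14058000000)], [], [(nat_lit 34344159140), (nat_lit 35189166033), (nat_lit 36987630660), (nat_lit 37799687047), (nat_lit 58175065980), (nat_lit 55166297520), (nat_lit 46139992140), (nat_lit 44030510575)], (nat_lit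 1271251), (nat_lit 1271251), (nat_lit 1271251), (nat_lit 1271251), (nat_lit 780000), (nat_lit 3072501), [(nat_lit 1100000), (nat_lit 2127501), (nat_lit 1271251)], [(nat_lit 19), (nat_lit 63), (nat_lit 483), (nat_lit 250), (nat_lit 11)]⟩,
 ⟨⟨[(nat_lit 120), (nat_lit 160), (nat_lit 200)], [(nat_lit 0), (nat_lit 0), (nat_lit 3198)], [((nat_lit 0), (nat_lit 0), (nat_lit 0)), ((nat_lit 0), (nat_lit 0), (nat_lit 0)), ((nat_lit 572), (nat_lit 1000), (nat_lit 714))], ((nat_lit 0), (nat_lit 0), (nat_lit 0))⟩, (nat_lit 335610), (nat_lit 300), (nat_lit 609), (nat_lit 51049600), (nat_lit 537897), [(nat_lit 5481984000), (nat_lit 8167936000), (nat_lit 11283200000)], [], [(nat_lit 42545705023), (nat_lit 42278537295), (nat_lit 41401682880), (nat_lit 41099623077), (nat_lit 40561072896), (nat_lit 40196980900), (nat_lit 42694777477), (nat_lit 44651989372)], (nat_lit 1100000), (nat_lit 1271251), (nat_lit 1100000), (nat_lit 2041876), (nat_lit 780000), (nat_lit 3072501),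 [(nat_lit 1695001), (nat_lit 1271251), (nat_lit 1271251)], [(nat_lit 29), (nat_lit 66), (nat_lit 456), (nat_lit 225), (nat_lit 10)]⟩⟩) (.dle (nat_lit 0))) (.trX (nat_lit 5) (nat_lit 1) (nat_lit 2) (nat_lit 96) (nat_lit 40) (nat_lit 100) (nat_lit 390) (.leaf ⟨(nat_lit 36), (nat_lit 553), (nat_lit 0), (nat_lit 411), (nat_lit 0), (nat_lit 4198), (nat_lit 6901), (nat_lit 3728), (nat_lit 0), (nat_lit 0), (nat_lit 9000), [((nat_lit 400), [((nat_lit 29), (nat_lit 0), (nat_lit 36))])], ⟨(nat_lit 6), false, true, false, (nat_lit 254), (nat_lit 0), (nat_lit 2237), [(nat_lit 1565543), (nat_lit 1572220), (nat_lit 1587391), (nat_lit 1596294), (nat_lit 1682352), (nat_lit 1674999), (nat_lit 1705063), (nat_lit 1699935)]⟩, ⟨(nat_lit 4), false, false, true, (nat_lit 194), (nat_lit 0), (nat_lit 2237), [(nat_lit 1397434), (nat_lit 1399999), (nat_lit 1419294), (nat_lit 1424084), (nat_lit 1554222), (nat_lit 1537494), (nat_lit 1576997), (nat_lit 1562495)]⟩, (nat_lit 5183431),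 (nat_lit 38904391), (nat_lit 17069211), (nat_lit 11026398), (nat_lit 4), (nat_lit 0), [⟨(nat_lit 0), (nat_lit 94), (nat_lit 31), (nat_lit 100), (nat_lit 624687004)⟩], [], [], [],
 ⟨⟨[(nat_lit 40), (nat_lit 80), (nat_lit 120)], [(nat_lit 0), (nat_lit 2514), (nat_lit 4610)], [((nat_lit 0), (nat_lit 0), (nat_lit 0)), ((nat_lit 1000), (nat_lit 446), (nat_lit 804)), ((nat_lit 1000), (nat_lit 443), (nat_lit 819))], ((nat_lit 44), (nat_lit 100), (nat_lit 92))⟩, (nat_lit 1273381), (nat_lit 136), (nat_lit 136), (nat_lit 0), (nat_lit 119080), [(nat_lit 1986510406), (nat_lit 5892605009), (nat_lit 7249152000)], [(nat_lit 0), (nat_lit 0), (nat_lit 0)], [(nat_lit 24200488107), (nat_lit 25488426358), (nat_lit 26404002333), (nat_lit 27507631382), (nat_lit 26693852264), (nat_lit 27833446208), (nat_lit 28703512257), (nat_lit 29907941310)], (nat_lit 1271251), (nat_lit 1271251), (nat_lit 1271251), (nat_lit 1271251), (nat_lit 1100000), (nat_lit 2041876), [(nat_lit 490000),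 (nat_lit 1100000), (nat_lit 1785001)], [(nat_lit 4), (nat_lit 51), (nat_lit 373), (nat_lit 150), (nat_lit 11)]⟩,
 ⟨⟨[(nat_lit 80), (nat_lit 140), (nat_lit 180)], [(nat_lit 0), (nat_lit 792), (nat_lit 4228)], [((nat_lit 0), (nat_lit 0), (nat_lit 0)), ((nat_lit 1000), (nat_lit 959), (nat_lit 206)), ((nat_lit 709), (nat_lit 1000), (nat_lit 949))], ((nat_lit 100), (nat_lit 69), (nat_lit 96))⟩, (nat_lit 1026311), (nat_lit 268), (nat_lit 268), (nat_lit 0), (nat_lit 256095), [(nat_lit 4519232000), (nat_lit 9487688000), (nat_lit 13551912000)], [], [(nat_lit 30805890365), (nat_lit 30480334832), (nat_lit 32040539666), (nat_lit 32832111743), (nat_lit 37175010362), (nat_lit 37299400567), (nat_lit 37623128178), (nat_lit 37947477458)], (nat_lit 1271251), (nat_lit 1271251), (nat_lit 1271251), (nat_lit 1271251), (nat_lit 780000), (nat_lit 2990626), [(nat_lit 1100000), (nat_lit 2127501), (nat_lit 1271251)], [(nat_lit 19), (nat_lit 63), (nat_lit 483), (nat_lit 250),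 (nat_lit 11)]⟩,
 ⟨⟨[(nat_lit 120), (nat_lit 160), (nat_lit 200)], [(nat_lit 0), (nat_lit 0), (nat_lit 3198)], [((nat_lit 0), (nat_lit 0), (nat_lit 0)), ((nat_lit 0), (nat_lit 0), (nat_lit 0)), ((nat_lit 572), (nat_lit 1000), (nat_lit 714))], ((nat_lit 0), (nat_lit 0), (nat_lit 0))⟩, (nat_lit 200488), (nat_lit 300), (nat_lit 719), (nat_lit 30496200), (nat_lit 801724), [(nat_lit 3274848000), (nat_lit 4879392000), (nat_lit 6740400000)], [], [(nat_lit 26683570165), (nat_lit 26524362243), (nat_lit 25965747861), (nat_lit 25791041982), (nat_lit 25302245768), (nat_lit 25101640531), (nat_lit 24340588417), (nat_lit 25442139378)], (nat_lit 1100000), (nat_lit 1271251), (nat_lit 1100000), (nat_lit 2041876), (nat_lit 780000), (nat_lit 2990626), [(nat_lit 1695001), (nat_lit 1271251), (nat_lit 1271251)], [(nat_lit 29), (nat_lit 66), (nat_lit 456), (nat_lit 225), (nat_lit 10)]⟩⟩)))) (.dle (nat_lit 0)))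
noncomputable def c14_108 : Tr Lf :=
 (.spl (nat_lit 2) (nat_lit 160) (.trX (nat_lit 4) (nat_lit 0) (nat_lit 2) (nat_lit 44) (nat_lit 99) (nat_lit 100) (nat_lit 250) (.trX (nat_lit 5) (nat_lit 1) (nat_lit 2) (nat_lit 94) (nat_lit 59) (nat_lit 100) (nat_lit 370) (.stt (nat_lit 2) (.spl (nat_lit 5) (nat_lit 200) (.leaf ⟨(nat_lit 0), (nat_lit 1000), (nat_lit 0), (nat_lit 0), (nat_lit 23790), (nat_lit 5808), (nat_lit 6889), (nat_lit 0), (nat_lit 0), (nat_lit 0), (nat_lit 0), [], Pd.none, Pd.none, (nat_lit 0), (nat_lit 1), (nat_lit 0), (nat_lit 0), (nat_lit 4), (nat_lit 0), [⟨(nat_lit 0), (nat_lit 92), (nat_lit 44), (nat_lit 100), (nat_lit 466794698)⟩], [⟨(nat_lit 1), (nat_lit 99), (nat_lit 44), (nat_lit 100), (nat_lit 659010769)⟩], [], [],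
 ⟨⟨[(nat_lit 40), (nat_lit 80), (nat_lit 120)], [(nat_lit 0), (nat_lit 2514), (nat_lit 4610)], [((nat_lit 0), (nat_lit 0), (nat_lit 0)), ((nat_lit 1000), (nat_lit 446), (nat_lit 804)), ((nat_lit 1000), (nat_lit 443), (nat_lit 819))], ((nat_lit 44), (nat_lit 100), (nat_lit 95))⟩, (nat_lit 0), (nat_lit 72), (nat_lit 72), (nat_lit 0), (nat_lit 0), [(nat_lit 2338657261), (nat_lit 4688000005), (nat_lit 7968000000)], [], [(nat_lit 24737233261), (nat_lit 26558594225), (nat_lit 27768666641), (nat_lit 29339341296), (nat_lit 27027730901), (nat_lit 28557872160), (nat_lit 29442007507), (nat_lit 30933795084)], (nat_lit 0), (nat_lit 0), (nat_lit 0), (nat_lit 0), (nat_lit 0), (nat_lit 0), [], [(nat_lit 4), (nat_lit 51), (nat_lit 373), (nat_lit 150), (nat_lit 11)]⟩,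
 ⟨⟨[(nat_lit 60), (nat_lit 120), (nat_lit 180)], [(nat_lit 0), (nat_lit 0), (nat_lit 4796)], [((nat_lit 0), (nat_lit 0), (nat_lit 0)), ((nat_lit 0), (nat_lit 0), (nat_lit 0)), ((nat_lit 802), (nat_lit 1000), (nat_lit 999))], ((nat_lit 97), (nat_lit 73), (nat_lit 100))⟩, (nat_lit 2395003), (nat_lit 259), (nat_lit 259), (nat_lit 0), (nat_lit 0), [(nat_lit 3282000000), (nat_lit 7968000000), (nat_lit 14058000000)], [], [(nat_lit 29691141577), (nat_lit 31948982585), (nat_lit 32537437010), (nat_lit 34319996510), (nat_lit 24776444919), (nat_lit 26544017357), (nat_lit 26975261648), (nat_lit 28435600224)], (nat_lit 0), (nat_lit 0), (nat_lit 0), (nat_lit 0), (nat_lit 0), (nat_lit 0), [], [(nat_lit 13), (nat_lit 60), (nat_lit 428), (nat_lit 200), (nat_lit 10)]⟩,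
 Rw.none⟩) (.leaf ⟨(nat_lit 0), (nat_lit 1000), (nat_lit 0), (nat_lit 0), (nat_lit 17716), (nat_lit 6089), (nat_lit 4755), (nat_lit 0), (nat_lit 0), (nat_lit 0), (nat_lit 0), [], Pd.none, Pd.none, (nat_lit 0), (nat_lit 1), (nat_lit 0), (nat_lit 0), (nat_lit 5), (nat_lit 0), [⟨(nat_lit 0), (nat_lit 92), (nat_lit 44), (nat_lit 100), (nat_lit 343769396)⟩], [⟨(nat_lit 1), (nat_lit 99), (nat_lit 44), (nat_lit 100), (nat_lit 670929843)⟩], [⟨(nat_lit 1), (nat_lit 59), (nat_lit 94), (nat_lit 100), (nat_lit 509652168)⟩], [],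
 ⟨⟨[(nat_lit 40), (nat_lit 80), (nat_lit 120)], [(nat_lit 0), (nat_lit 2514), (nat_lit 4610)], [((nat_lit 0), (nat_lit 0), (nat_lit 0)), ((nat_lit 1000), (nat_lit 446), (nat_lit 804)), ((nat_lit 1000), (nat_lit 443), (nat_lit 819))], ((nat_lit 44), (nat_lit 100), (nat_lit 95))⟩, (nat_lit 0), (nat_lit 72), (nat_lit 72), (nat_lit 0), (nat_lit 0), [(nat_lit 2444746467), (nat_lit 4688000340), (nat_lit 7968000000)], [], [(nat_lit 24621603185), (nat_lit 26563923095), (nat_lit 27830563680), (nat_lit 29659038368), (nat_lit 26915323179), (nat_lit 28778496227), (nat_lit 29693636228), (nat_lit 31226348891)], (nat_lit 0), (nat_lit 0), (nat_lit 0), (nat_lit 0), (nat_lit 0), (nat_lit 0), [], [(nat_lit 4), (nat_lit 51), (nat_lit 373), (nat_lit 150), (nat_lit 11)]⟩,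
 ⟨⟨[(nat_lit 60), (nat_lit 120), (nat_lit 180)], [(nat_lit 0), (nat_lit 0), (nat_lit 4796)], [((nat_lit 0), (nat_lit 0), (nat_lit 0)), ((nat_lit 0), (nat_lit 0), (nat_lit 0)), ((nat_lit 802), (nat_lit 1000), (nat_lit 999))], ((nat_lit 97), (nat_lit 73), (nat_lit 100))⟩, (nat_lit 0), (nat_lit 86), (nat_lit 86), (nat_lit 0), (nat_lit 0), [(nat_lit 3282000000), (nat_lit 7968000000), (nat_lit 14058000000)], [], [(nat_lit 16896789569), (nat_lit 19633724884), (nat_lit 21053597098), (nat_lit 23273340730), (nat_lit 26400676841), (nat_lit 28252752061), (nat_lit 28962354904), (nat_lit 30472351385)], (nat_lit 0), (nat_lit 0), (nat_lit 0), (nat_lit 0), (nat_lit 0), (nat_lit 0), [], [(nat_lit 13), (nat_lit 60), (nat_lit 483), (nat_lit 250), (nat_lit 10)]⟩,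
 Rw.none⟩)) (.spl (nat_lit 5) (nat_lit 200) (.leaf ⟨(nat_lit 0), (nat_lit 1000), (nat_lit 0), (nat_lit 0), (nat_lit 0), (nat_lit 5756), (nat_lit 9502), (nat_lit 0), (nat_lit 0), (nat_lit 0), (nat_lit 0), [], Pd.none, Pd.none, (nat_lit 0), (nat_lit 1), (nat_lit 0), (nat_lit 0), (nat_lit 4), (nat_lit 0), [⟨(nat_lit 0), (nat_lit 88), (nat_lit 32), (nat_lit 100), (nat_lit 682416226)⟩], [⟨(nat_lit 1), (nat_lit 100), (nat_lit 31), (nat_lit 95), (nat_lit 1020616418)⟩], [], [],
 ⟨⟨[(nat_lit 40), (nat_lit 80), (nat_lit 120)], [(nat_lit 0), (nat_lit 2514), (nat_lit 4610)], [((nat_lit 0), (nat_lit 0), (nat_lit 0)), ((nat_lit 1000), (nat_lit 446), (nat_lit 804)), ((nat_lit 1000), (nat_lit 443), (nat_lit 819))], ((nat_lit 44), (nat_lit 100), (nat_lit 95))⟩, (nat_lit 0), (nat_lit 72), (nat_lit 72), (nat_lit 0), (nat_lit 0), [(nat_lit 2438114022), (nat_lit 4688000006), (nat_lit 7968000000)], [], [(nat_lit 24758631061), (nat_lit 26569928796), (nat_lit 27783827658),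 (nat_lit 29280765294), (nat_lit 27048532393), (nat_lit 28570713123), (nat_lit 29460288228), (nat_lit 30879657013)], (nat_lit 0), (nat_lit 0), (nat_lit 0), (nat_lit 0), (nat_lit 0), (nat_lit 0), [], [(nat_lit 4), (nat_lit 51), (nat_lit 373), (nat_lit 150), (nat_lit 11)]⟩,
 ⟨⟨[(nat_lit 60), (nat_lit 120), (nat_lit 180)], [(nat_lit 0), (nat_lit 0), (nat_lit 4796)], [((nat_lit 0), (nat_lit 0), (nat_lit 0)), ((nat_lit 0), (nat_lit 0), (nat_lit 0)), ((nat_lit 802), (nat_lit 1000), (nat_lit 999))], ((nat_lit 97), (nat_lit 73), (nat_lit 100))⟩, (nat_lit 2415696), (nat_lit 588), (nat_lit 588), (nat_lit 0), (nat_lit 560495), [(nat_lit 3282000000), (nat_lit 7968000000), (nat_lit 14058000000)], [], [(nat_lit 32496514891), (nat_lit 34352562829), (nat_lit 34677222534), (nat_lit 36593571148), (nat_lit 26611671991), (nat_lit 28003415689), (nat_lit 28061612491), (nat_lit 29105679818)], (nat_lit 1271251), (nat_lit 1271251), (nat_lit 1271251), (nat_lit 1271251), (nat_lit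 0), (nat_lit 1412501), [(nat_lit 780000), (nat_lit 1762501), (nat_lit 1271251)], [(nat_lit 13), (nat_lit 60), (nat_lit 428), (nat_lit 200), (nat_lit 10)]⟩,
 Rw.none⟩) (.leaf ⟨(nat_lit 0), (nat_lit 835), (nat_lit 0), (nat_lit 165), (nat_lit 0), (nat_lit 5756), (nat_lit 8541), (nat_lit 1947), (nat_lit 0), (nat_lit 0), (nat_lit 0), [], Pd.none, Pd.none, (nat_lit 0), (nat_lit 1), (nat_lit 0), (nat_lit 0), (nat_lit 5), (nat_lit 0), [⟨(nat_lit 0), (nat_lit 88), (nat_lit 32), (nat_lit 100), (nat_lit 912986798)⟩], [⟨(nat_lit 1), (nat_lit 100), (nat_lit 31), (nat_lit 95), (nat_lit 550101147)⟩], [⟨(nat_lit 1), (nat_lit 77), (nat_lit 91), (nat_lit 100), (nat_lit 231217890)⟩], [],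
 ⟨⟨[(nat_lit 40), (nat_lit 80), (nat_lit 120)], [(nat_lit 0), (nat_lit 2514), (nat_lit 4610)], [((nat_lit 0), (nat_lit 0), (nat_lit 0)), ((nat_lit 1000), (nat_lit 446), (nat_lit 804)), ((nat_lit 1000), (nat_lit 443), (nat_lit 819))], ((nat_lit 44), (nat_lit 100), (nat_lit 95))⟩, (nat_lit 0), (nat_lit 72), (nat_lit 72), (nat_lit 0), (nat_lit 0), [(nat_lit 2428454689), (nat_lit 4688000137), (nat_lit 7968000000)], [], [(nat_lit 24758631192), (nat_lit 26569928927), (nat_lit 27783827789), (nat_lit 29280765425), (nat_lit 27048532524), (nat_lit 28570713254), (nat_lit 29460288359), (nat_lit 30879657013)], (nat_lit 0), (nat_lit 0), (nat_lit 0), (nat_lit 0), (nat_lit 0), (nat_lit 0), [], [(nat_lit 4), (nat_lit 51), (nat_lit 373), (nat_lit 150), (nat_lit 11)]⟩,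
 ⟨⟨[(nat_lit 60), (nat_lit 120), (nat_lit 180)], [(nat_lit 0), (nat_lit 0), (nat_lit 4796)], [((nat_lit 0), (nat_lit 0), (nat_lit 0)), ((nat_lit 0), (nat_lit 0), (nat_lit 0)), ((nat_lit 802), (nat_lit 1000), (nat_lit 999))], ((nat_lit 97), (nat_lit 73), (nat_lit 100))⟩, (nat_lit 1903256), (nat_lit 424), (nat_lit 424), (nat_lit 0), (nat_lit 560495), [(nat_lit 3282000000), (nat_lit 7968000000), (nat_lit 14058000000)], [], [(nat_lit 28408315978), (nat_lit 29717721490), (nat_lit 29709839748), (nat_lit 30696247177), (nat_lit 32709620644), (nat_lit 33733517834), (nat_lit 33364961649), (nat_lit 34189737707)], (nat_lit 1271251), (nat_lit 1271251), (nat_lit 1271251), (nat_lit 1271251), (nat_lit 1271251), (nat_lit 1271251), [(nat_lit 780000), (nat_lit 1762501), (nat_lit 1271251)], [(nat_lit 13), (nat_lit 60), (nat_lit 483), (nat_lit 250), (nat_lit 10)]⟩,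
 ⟨⟨[(nat_lit 140), (nat_lit 180), (nat_lit 200)], [(nat_lit 0), (nat_lit 0), (nat_lit 2835)], [((nat_lit 0), (nat_lit 0), (nat_lit 0)), ((nat_lit 0), (nat_lit 0), (nat_lit 0)), ((nat_lit 363), (nat_lit 1000), (nat_lit 798))], ((nat_lit 0), (nat_lit 0), (nat_lit 0))⟩, (nat_lit 45397), (nat_lit 300), (nat_lit 1586), (nat_lit 12886500), (nat_lit 2676459), [(nat_lit 1623930000), (nat_lit 2319570000), (nat_lit 2706000000)], [], [(nat_lit 10012760274), (nat_lit 9696864210), (nat_lit 9506167193), (nat_lit 9191272357), (nat_lit 9461852862), (nat_lit 9135133574), (nat_lit 8978586153), (nat_lit 8653398879)], (nat_lit 780000), (nat_lit 1100000), (nat_lit 1100000), (nat_lit 1870626), (nat_lit 1271251), (nat_lit 1271251), [(nat_lit 1977501), (nat_lit 1271251), (nat_lit 1271251)], [(nat_lit 32), (nat_lit 67), (nat_lit 494), (nat_lit 200), (nat_lit 10)]⟩⟩))))) (.spl (nat_lit 5) (nat_lit 200) (.leaf ⟨(nat_lit 0), (nat_lit 856), (nat_lit 0), (nat_lit 144), (nat_lit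 5723), (nat_lit 5721), (nat_lit 9352), (nat_lit 2220), (nat_lit 0), (nat_lit 0), (nat_lit 0), [], Pd.none, Pd.none, (nat_lit 0), (nat_lit 1), (nat_lit 0), (nat_lit 0), (nat_lit 4), (nat_lit 0), [⟨(nat_lit 0), (nat_lit 88), (nat_lit 32), (nat_lit 100), (nat_lit 755581616)⟩], [⟨(nat_lit 1), (nat_lit 100), (nat_lit 32), (nat_lit 100), (nat_lit 584605121)⟩], [⟨(nat_lit 0), (nat_lit 100), (nat_lit 88), (nat_lit 37), (nat_lit 54546848)⟩], [],
 ⟨⟨[(nat_lit 40), (nat_lit 80), (nat_lit 120)], [(nat_lit 0), (nat_lit 2514), (nat_lit 4610)], [((nat_lit 0), (nat_lit 0), (nat_lit 0)), ((nat_lit 1000), (nat_lit 446), (nat_lit 804)), ((nat_lit 1000), (nat_lit 443), (nat_lit 819))], ((nat_lit 44), (nat_lit 100), (nat_lit 95))⟩, (nat_lit 0), (nat_lit 72), (nat_lit 72), (nat_lit 0), (nat_lit 0), [(nat_lit 2411987028), (nat_lit 4688000001), (nat_lit 7968000000)], [], [(nat_lit 24773033420), (nat_lit 26577557829), (nat_lit 27794032183), (nat_lit 29285742359), (nat_lit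 27886995582), (nat_lit 29336136770), (nat_lit 30136310289), (nat_lit 31541161201)], (nat_lit 0), (nat_lit 0), (nat_lit 0), (nat_lit 0), (nat_lit 0), (nat_lit 0), [], [(nat_lit 4), (nat_lit 51), (nat_lit 373), (nat_lit 150), (nat_lit 11)]⟩,
 ⟨⟨[(nat_lit 60), (nat_lit 120), (nat_lit 180)], [(nat_lit 0), (nat_lit 0), (nat_lit 4796)], [((nat_lit 0), (nat_lit 0), (nat_lit 0)), ((nat_lit 0), (nat_lit 0), (nat_lit 0)), ((nat_lit 802), (nat_lit 1000), (nat_lit 999))], ((nat_lit 97), (nat_lit 73), (nat_lit 100))⟩, (nat_lit 2419718), (nat_lit 468), (nat_lit 468), (nat_lit 0), (nat_lit 381707), [(nat_lit 3282000000), (nat_lit 7968000000), (nat_lit 14058000000)], [], [(nat_lit 32742139070), (nat_lit 34644344404), (nat_lit 34980069984), (nat_lit 36438635728), (nat_lit 27063533659), (nat_lit 28447514014), (nat_lit 28519656916), (nat_lit 29560605968)], (nat_lit 1271251), (nat_lit 1271251), (nat_lit 1271251), (nat_lit 1271251), (nat_lit 0), (nat_lit 1412501), [(nat_lit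 780000), (nat_lit 1762501), (nat_lit 1271251)], [(nat_lit 13), (nat_lit 60), (nat_lit 428), (nat_lit 200), (nat_lit 10)]⟩,
 ⟨⟨[(nat_lit 120), (nat_lit 160), (nat_lit 200)], [(nat_lit 0), (nat_lit 0), (nat_lit 3198)], [((nat_lit 0), (nat_lit 0), (nat_lit 0)), ((nat_lit 0), (nat_lit 0), (nat_lit 0)), ((nat_lit 572), (nat_lit 1000), (nat_lit 714))], ((nat_lit 0), (nat_lit 0), (nat_lit 0))⟩, (nat_lit 70244), (nat_lit 300), (nat_lit 1157), (nat_lit 10684800), (nat_lit 1549234), [(nat_lit 1147392000), (nat_lit 1709568000), (nat_lit 2361600000)], [], [(nat_lit 9088229232), (nat_lit 9019377048), (nat_lit 8889256362), (nat_lit 8802982205), (nat_lit 7242936888), (nat_lit 7808810874), (nat_lit 10397214204), (nat_lit 11001037287)], (nat_lit 1100000), (nat_lit 1271251), (nat_lit 1100000), (nat_lit 2041876), (nat_lit 0), (nat_lit 1412501), [(nat_lit 1695001), (nat_lit 1271251), (nat_lit 1271251)], [(nat_lit 29), (nat_lit 66), (nat_lit 401), (nat_lit 175), (nat_lit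 9)]⟩⟩) (.leaf ⟨(nat_lit 0), (nat_lit 743), (nat_lit 0), (nat_lit 257), (nat_lit 0), (nat_lit 5615), (nat_lit 9073), (nat_lit 2827), (nat_lit 0), (nat_lit 0), (nat_lit 0), [], Pd.none, Pd.none, (nat_lit 0), (nat_lit 1), (nat_lit 0), (nat_lit 0), (nat_lit 5), (nat_lit 0), [⟨(nat_lit 0), (nat_lit 88), (nat_lit 32), (nat_lit 100), (nat_lit 952193803)⟩], [⟨(nat_lit 1), (nat_lit 100), (nat_lit 32), (nat_lit 100), (nat_lit 320736227)⟩], [⟨(nat_lit 1), (nat_lit 63), (nat_lit 88), (nat_lit 100), (nat_lit 185365251)⟩], [],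
 ⟨⟨[(nat_lit 40), (nat_lit 80), (nat_lit 120)], [(nat_lit 0), (nat_lit 2514), (nat_lit 4610)], [((nat_lit 0), (nat_lit 0), (nat_lit 0)), ((nat_lit 1000), (nat_lit 446), (nat_lit 804)), ((nat_lit 1000), (nat_lit 443), (nat_lit 819))], ((nat_lit 44), (nat_lit 100), (nat_lit 95))⟩, (nat_lit 0), (nat_lit 72), (nat_lit 72), (nat_lit 0), (nat_lit 0), [(nat_lit 2302201405), (nat_lit 4688000020), (nat_lit 7968000000)], [], [(nat_lit 24816652029), (nat_lit 26600662933), (nat_lit 27824937350), (nat_lit 29300815790), (nat_lit 27923958412), (nat_lit 29357886790), (nat_lit 30171423914), (nat_lit 31427489954)], (nat_lit 0), (nat_lit 0), (nat_lit 0), (nat_lit 0), (nat_lit 0), (nat_lit 0), [], [(nat_lit 4), (nat_lit 51), (nat_lit 373), (nat_lit 150), (nat_lit 11)]⟩,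
 ⟨⟨[(nat_lit 60), (nat_lit 120), (nat_lit 180)], [(nat_lit 0), (nat_lit 0), (nat_lit 4796)], [((nat_lit 0), (nat_lit 0), (nat_lit 0)), ((nat_lit 0), (nat_lit 0), (nat_lit 0)), ((nat_lit 802), (nat_lit 1000), (nat_lit 999))], ((nat_lit 97), (nat_lit 73), (nat_lit 100))⟩, (nat_lit 1646969), (nat_lit 293), (nat_lit 293), (nat_lit 0), (nat_lit 381707), [(nat_lit 3282000000), (nat_lit 7968000000), (nat_lit 14058000000)], [], [(nat_lit 28731860125), (nat_lit 30065196061), (nat_lit 29997067048), (nat_lit 30990746385), (nat_lit 34372385890), (nat_lit 35342070938), (nat_lit 34844890084), (nat_lit 35522858158)], (nat_lit 1271251), (nat_lit 1271251), (nat_lit 1271251), (nat_lit 1271251), (nat_lit 1271251), (nat_lit 1271251), [(nat_lit 780000), (nat_lit 1762501), (nat_lit 1271251)], [(nat_lit 13), (nat_lit 60), (nat_lit 483), (nat_lit 250), (nat_lit 10)]⟩,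
 ⟨⟨[(nat_lit 120), (nat_lit 160), (nat_lit 200)], [(nat_lit 0), (nat_lit 0), (nat_lit 3198)], [((nat_lit 0), (nat_lit 0), (nat_lit 0)), ((nat_lit 0), (nat_lit 0), (nat_lit 0)), ((nat_lit 572), (nat_lit 1000), (nat_lit 714))], ((nat_lit 0), (nat_lit 0), (nat_lit 0))⟩, (nat_lit 125366), (nat_lit 300), (nat_lit 1041), (nat_lit 19069400), (nat_lit 1549234), [(nat_lit 2047776000), (nat_lit 3051104000), (nat_lit 4214800000)], [], [(nat_lit 15295022442), (nat_lit 15119463558), (nat_lit 14411873875), (nat_lit 14232643312), (nat_lit 14348586789), (nat_lit 14171248694), (nat_lit 13466157147), (nat_lit 13285208378)], (nat_lit 1100000), (nat_lit 1271251), (nat_lit 1100000), (nat_lit 2041876), (nat_lit 1271251), (nat_lit 1271251), [(nat_lit 1695001), (nat_lit 1271251), (nat_lit 1271251)], [(nat_lit 29), (nat_lit 66), (nat_lit 456), (nat_lit 225), (nat_lit 9)]⟩⟩)))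
def l026 : List St := [⟨⟨(nat_lit 380), (nat_lit 400), (nat_lit 240), (nat_lit 260), (nat_lit 160), (nat_lit 180), (nat_lit 240), (nat_lit 360), (nat_lit 160), (nat_lit 270), (nat_lit 0), (nat_lit 120), (nat_lit 44), (nat_lit 88)⟩, (nat_lit 3), (nat_lit 3), (nat_lit 3), false, false, true⟩,
  ⟨⟨(nat_lit 380), (nat_lit 400), (nat_lit 260), (nat_lit 280), (nat_lit 160), (nat_lit 180), (nat_lit 240), (nat_lit 360), (nat_lit 160), (nat_lit 270), (nat_lit 0), (nat_lit 120), (nat_lit 44), (nat_lit 88)⟩, (nat_lit 3), (nat_lit 3), (nat_lit 3), false, false, true⟩,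
  ⟨⟨(nat_lit 380), (nat_lit 400), (nat_lit 240), (nat_lit 280), (nat_lit 160), (nat_lit 180), (nat_lit 240), (nat_lit 360), (nat_lit 160), (nat_lit 270), (nat_lit 120), (nat_lit 400), (nat_lit 44), (nat_lit 88)⟩, (nat_lit 3), (nat_lit 3), (nat_lit 3), false, false, false⟩,
  ⟨⟨(nat_lit 380), (nat_lit 400), (nat_lit 280), (nat_lit 320), (nat_lit 120), (nat_lit 180), (nat_lit 190), (nat_lit 380), (nat_lit 160), (nat_lit 270), (nat_lit 0), (nat_lit 380), (nat_lit 44), (nat_lit 88)⟩, (nat_lit 3), (nat_lit 3), (nat_lit 0), false, false, false⟩,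
  ⟨⟨(nat_lit 380), (nat_lit 400), (nat_lit 280), (nat_lit 320), (nat_lit 120), (nat_lit 160), (nat_lit 190), (nat_lit 280), (nat_lit 160), (nat_lit 250), (nat_lit 0), (nat_lit 370), (nat_lit 44), (nat_lit 88)⟩, (nat_lit 3), (nat_lit 3), (nat_lit 1), false, false, false⟩,
  ⟨⟨(nat_lit 380), (nat_lit 400), (nat_lit 280), (nat_lit 300), (nat_lit 120), (nat_lit 160), (nat_lit 280), (nat_lit 380), (nat_lit 160), (nat_lit 250), (nat_lit 0), (nat_lit 370), (nat_lit 44), (nat_lit 88)⟩, (nat_lit 3), (nat_lit 3), (nat_lit 1), false, false, false⟩,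
  ⟨⟨(nat_lit 380), (nat_lit 400), (nat_lit 300), (nat_lit 320), (nat_lit 120), (nat_lit 160), (nat_lit 280), (nat_lit 380), (nat_lit 160), (nat_lit 250), (nat_lit 0), (nat_lit 370), (nat_lit 44), (nat_lit 88)⟩, (nat_lit 3), (nat_lit 3), (nat_lit 1), false, false, false⟩,
  ⟨⟨(nat_lit 380), (nat_lit 400), (nat_lit 280), (nat_lit 320), (nat_lit 160), (nat_lit 180), (nat_lit 190), (nat_lit 380), (nat_lit 160), (nat_lit 270), (nat_lit 0), (nat_lit 380), (nat_lit 44), (nat_lit 88)⟩, (nat_lit 3), (nat_lit 3), (nat_lit 1), false, false, false⟩,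
  ⟨⟨(nat_lit 380), (nat_lit 400), (nat_lit 240), (nat_lit 280), (nat_lit 180), (nat_lit 220), (nat_lit 150), (nat_lit 240), (nat_lit 160), (nat_lit 240), (nat_lit 0), (nat_lit 400), (nat_lit 44), (nat_lit 88)⟩, (nat_lit 3), (nat_lit 0), (nat_lit 3), false, false, false⟩,
  ⟨⟨(nat_lit 380), (nat_lit 400), (nat_lit 240), (nat_lit 280), (nat_lit 180), (nat_lit 220), (nat_lit 150), (nat_lit 240), (nat_lit 160), (nat_lit 240), (nat_lit 0), (nat_lit 400), (nat_lit 44), (nat_lit 88)⟩, (nat_lit 3), (nat_lit 1), (nat_lit 3), false, false, false⟩,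
  ⟨⟨(nat_lit 380), (nat_lit 400), (nat_lit 240), (nat_lit 280), (nat_lit 180), (nat_lit 220), (nat_lit 150), (nat_lit 240), (nat_lit 240), (nat_lit 310), (nat_lit 0), (nat_lit 120), (nat_lit 44), (nat_lit 88)⟩, (nat_lit 0), (nat_lit 3), (nat_lit 3), false, false, true⟩,
  ⟨⟨(nat_lit 380), (nat_lit 400), (nat_lit 240), (nat_lit 280), (nat_lit 180), (nat_lit 220), (nat_lit 150), (nat_lit 240), (nat_lit 240), (nat_lit 310), (nat_lit 0), (nat_lit 120), (nat_lit 44), (nat_lit 88)⟩, (nat_lit 1), (nat_lit 3), (nat_lit 3), false, false, true⟩,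
  ⟨⟨(nat_lit 380), (nat_lit 400), (nat_lit 240), (nat_lit 280), (nat_lit 180), (nat_lit 220), (nat_lit 150), (nat_lit 240), (nat_lit 240), (nat_lit 310), (nat_lit 120), (nat_lit 400), (nat_lit 44), (nat_lit 88)⟩, (nat_lit 3), (nat_lit 3), (nat_lit 3), false, false, false⟩,
  ⟨⟨(nat_lit 380), (nat_lit 400), (nat_lit 240), (nat_lit 260), (nat_lit 180), (nat_lit 220), (nat_lit 240), (nat_lit 340), (nat_lit 160), (nat_lit 240), (nat_lit 0), (nat_lit 120), (nat_lit 44), (nat_lit 88)⟩, (nat_lit 3), (nat_lit 3), (nat_lit 3), false, false, true⟩,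
  ⟨⟨(nat_lit 380), (nat_lit 400), (nat_lit 240), (nat_lit 260), (nat_lit 180), (nat_lit 220), (nat_lit 240), (nat_lit 340), (nat_lit 240), (nat_lit 310), (nat_lit 0), (nat_lit 120), (nat_lit 44), (nat_lit 88)⟩, (nat_lit 3), (nat_lit 3), (nat_lit 3), false, false, true⟩,
  ⟨⟨(nat_lit 380), (nat_lit 400), (nat_lit 260), (nat_lit 280), (nat_lit 180), (nat_lit 220), (nat_lit 240), (nat_lit 360), (nat_lit 160), (nat_lit 310), (nat_lit 0), (nat_lit 120), (nat_lit 44), (nat_lit 88)⟩, (nat_lit 3), (nat_lit 3), (nat_lit 3), false, false, true⟩,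
  ⟨⟨(nat_lit 380), (nat_lit 400), (nat_lit 240), (nat_lit 280), (nat_lit 180), (nat_lit 220), (nat_lit 240), (nat_lit 360), (nat_lit 160), (nat_lit 310), (nat_lit 120), (nat_lit 400), (nat_lit 44), (nat_lit 88)⟩, (nat_lit 3), (nat_lit 3), (nat_lit 3), false, false, false⟩,
  ⟨⟨(nat_lit 380), (nat_lit 400), (nat_lit 280), (nat_lit 320), (nat_lit 180), (nat_lit 220), (nat_lit 150), (nat_lit 380), (nat_lit 160), (nat_lit 310), (nat_lit 0), (nat_lit 400), (nat_lit 44), (nat_lit 88)⟩, (nat_lit 3), (nat_lit 3), (nat_lit 3), false, false, false⟩,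
  ⟨⟨(nat_lit 380), (nat_lit 390), (nat_lit 240), (nat_lit 280), (nat_lit 120), (nat_lit 180), (nat_lit 150), (nat_lit 200), (nat_lit 40), (nat_lit 160), (nat_lit 0), (nat_lit 400), (nat_lit 88), (nat_lit 132)⟩, (nat_lit 3), (nat_lit 3), (nat_lit 3), false, false, false⟩,
  ⟨⟨(nat_lit 390), (nat_lit 400), (nat_lit 240), (nat_lit 280), (nat_lit 120), (nat_lit 180), (nat_lit 150), (nat_lit 200), (nat_lit 40), (nat_lit 160), (nat_lit 0), (nat_lit 400), (nat_lit 88), (nat_lit 132)⟩, (nat_lit 3), (nat_lit 3), (nat_lit 3), false, false, false⟩,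
  ⟨⟨(nat_lit 380), (nat_lit 400), (nat_lit 240), (nat_lit 280), (nat_lit 120), (nat_lit 180), (nat_lit 200), (nat_lit 280), (nat_lit 40), (nat_lit 160), (nat_lit 0), (nat_lit 200), (nat_lit 88), (nat_lit 132)⟩, (nat_lit 3), (nat_lit 3), (nat_lit 3), false, false, false⟩,
  ⟨⟨(nat_lit 380), (nat_lit 400), (nat_lit 240), (nat_lit 280), (nat_lit 120), (nat_lit 180), (nat_lit 200), (nat_lit 280), (nat_lit 40), (nat_lit 160), (nat_lit 200), (nat_lit 400), (nat_lit 88), (nat_lit 132)⟩, (nat_lit 3), (nat_lit 0), (nat_lit 3), false, false, false⟩,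
  ⟨⟨(nat_lit 380), (nat_lit 400), (nat_lit 240), (nat_lit 280), (nat_lit 120), (nat_lit 180), (nat_lit 200), (nat_lit 280), (nat_lit 40), (nat_lit 160), (nat_lit 200), (nat_lit 400), (nat_lit 88), (nat_lit 132)⟩, (nat_lit 3), (nat_lit 1), (nat_lit 3), false, false, false⟩,
  ⟨⟨(nat_lit 380), (nat_lit 400), (nat_lit 280), (nat_lit 320), (nat_lit 120), (nat_lit 180), (nat_lit 190), (nat_lit 280), (nat_lit 40), (nat_lit 160), (nat_lit 0), (nat_lit 200), (nat_lit 88), (nat_lit 132)⟩, (nat_lit 3), (nat_lit 3), (nat_lit 3), false, false, false⟩,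
  ⟨⟨(nat_lit 380), (nat_lit 400), (nat_lit 280), (nat_lit 320), (nat_lit 120), (nat_lit 180), (nat_lit 190), (nat_lit 280), (nat_lit 40), (nat_lit 160), (nat_lit 200), (nat_lit 380), (nat_lit 88), (nat_lit 132)⟩, (nat_lit 3), (nat_lit 3), (nat_lit 3), false, false, false⟩,
  ⟨⟨(nat_lit 380), (nat_lit 390), (nat_lit 240), (nat_lit 280), (nat_lit 120), (nat_lit 180), (nat_lit 150), (nat_lit 200), (nat_lit 160), (nat_lit 270), (nat_lit 0), (nat_lit 400), (nat_lit 88), (nat_lit 132)⟩, (nat_lit 3), (nat_lit 3), (nat_lit 3), false, false, false⟩,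
  ⟨⟨(nat_lit 390), (nat_lit 400), (nat_lit 240), (nat_lit 280), (nat_lit 120), (nat_lit 180), (nat_lit 150), (nat_lit 200), (nat_lit 160), (nat_lit 270), (nat_lit 0), (nat_lit 400), (nat_lit 88), (nat_lit 132)⟩, (nat_lit 3), (nat_lit 3), (nat_lit 3), false, false, false⟩,
  ⟨⟨(nat_lit 380), (nat_lit 400), (nat_lit 240), (nat_lit 280), (nat_lit 120), (nat_lit 160), (nat_lit 200), (nat_lit 280), (nat_lit 160), (nat_lit 250), (nat_lit 0), (nat_lit 200), (nat_lit 88), (nat_lit 132)⟩, (nat_lit 3), (nat_lit 3), (nat_lit 3), false, false, false⟩,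
  ⟨⟨(nat_lit 380), (nat_lit 400), (nat_lit 240), (nat_lit 280), (nat_lit 120), (nat_lit 160), (nat_lit 200), (nat_lit 280), (nat_lit 160), (nat_lit 250), (nat_lit 200), (nat_lit 390), (nat_lit 88), (nat_lit 132)⟩, (nat_lit 3), (nat_lit 3), (nat_lit 3), false, false, false⟩,
  ⟨⟨(nat_lit 380), (nat_lit 400), (nat_lit 240), (nat_lit 280), (nat_lit 160), (nat_lit 180), (nat_lit 200), (nat_lit 280), (nat_lit 160), (nat_lit 270), (nat_lit 0), (nat_lit 400), (nat_lit 88), (nat_lit 132)⟩, (nat_lit 3), (nat_lit 3), (nat_lit 3), false, false, false⟩,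
  ⟨⟨(nat_lit 380), (nat_lit 400), (nat_lit 280), (nat_lit 320), (nat_lit 120), (nat_lit 180), (nat_lit 190), (nat_lit 280), (nat_lit 160), (nat_lit 270), (nat_lit 0), (nat_lit 380), (nat_lit 88), (nat_lit 132)⟩, (nat_lit 0), (nat_lit 3), (nat_lit 3), false, false, false⟩]
theorem t026 (h : EC env Ei) : ∀ τ ∈ l026, Dead τ :=
  List.forall_mem_cons.mpr ⟨chkT_sound0 h (T := c14_78) (by decide +kernel),
  List.forall_mem_cons.mpr ⟨chkT_sound0 h (T := c14_79) (by decide +kernel),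
  List.forall_mem_cons.mpr ⟨chkT_sound0 h (T := c14_80) (by decide +kernel),
  List.forall_mem_cons.mpr ⟨chkT_sound0 h (T := c14_81) (by decide +kernel),
  List.forall_mem_cons.mpr ⟨chkT_sound0 h (T := c14_82) (by decide +kernel),
  List.forall_mem_cons.mpr ⟨chkT_sound0 h (T := c14_83) (by decide +kernel),
  List.forall_mem_cons.mpr ⟨chkT_sound0 h (T := c14_84) (by decide +kernel),
  List.forall_mem_cons.mpr ⟨chkT_sound0 h (T := c14_85) (by decide +kernel),
  List.forall_mem_cons.mpr ⟨chkT_sound0 h (T := c14_86) (by decide +kernel),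
  List.forall_mem_cons.mpr ⟨chkT_sound0 h (T := c14_87) (by decide +kernel),
  List.forall_mem_cons.mpr ⟨chkT_sound0 h (T := c14_88) (by decide +kernel),
  List.forall_mem_cons.mpr ⟨chkT_sound0 h (T := c14_89) (by decide +kernel),
  List.forall_mem_cons.mpr ⟨chkT_sound0 h (T := c14_90) (by decide +kernel),
  List.forall_mem_cons.mpr ⟨chkT_sound0 h (T := c14_91) (by decide +kernel),
  List.forall_mem_cons.mpr ⟨chkT_sound0 h (T := c14_92) (by decide +kernel),
  List.forall_mem_cons.mpr ⟨chkT_sound0 h (T := c14_93) (by decide +kernel),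
  List.forall_mem_cons.mpr ⟨chkT_sound0 h (T := c14_94) (by decide +kernel),
  List.forall_mem_cons.mpr ⟨chkT_sound0 h (T := c14_95) (by decide +kernel),
  List.forall_mem_cons.mpr ⟨chkT_sound0 h (T := c14_96) (by decide +kernel),
  List.forall_mem_cons.mpr ⟨chkT_sound0 h (T := c14_97) (by decide +kernel),
  List.forall_mem_cons.mpr ⟨chkT_sound0 h (T := c14_98) (by decide +kernel),
  List.forall_mem_cons.mpr ⟨chkT_sound0 h (T := c14_99) (by decide +kernel),
  List.forall_mem_cons.mpr ⟨chkT_sound0 h (T := c14_100) (by decide +kernel),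
  List.forall_mem_cons.mpr ⟨chkT_sound0 h (T := c14_101) (by decide +kernel),
  List.forall_mem_cons.mpr ⟨chkT_sound0 h (T := c14_102) (by decide +kernel),
  List.forall_mem_cons.mpr ⟨chkT_sound0 h (T := c14_103) (by decide +kernel),
  List.forall_mem_cons.mpr ⟨chkT_sound0 h (T := c14_104) (by decide +kernel),
  List.forall_mem_cons.mpr ⟨chkT_sound0 h (T := c14_105) (by decide +kernel),
  List.forall_mem_cons.mpr ⟨chkT_sound0 h (T := c14_106) (by decide +kernel),
  List.forall_mem_cons.mpr ⟨chkT_sound0 h (T := c14_107) (by decide +kernel),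
  List.forall_mem_cons.mpr ⟨chkT_sound0 h (T := c14_108) (by decide +kernel),
  List.forall_mem_nil _⟩⟩⟩⟩⟩⟩⟩⟩⟩⟩⟩⟩⟩⟩⟩⟩⟩⟩⟩⟩⟩⟩⟩⟩⟩⟩⟩⟩⟩⟩⟩
end TC
end Pool.Agent.Lib.MP_6947cd_al
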