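import Pool.Agent.Lib.MP_6947cd_al.C.LeafF
import Pool.Agent.Lib.MP_6947cd_al.TC.E
import Pool.Agent.Lib.MP_6947cd_al.TC.F

/-!
Problem MP_6947cd_al (Chollet).  CASE C, tables and certificates.  Trees of leaves (part 27 of root 14).
-/

set_option autoImplicit false
set_option linter.all false
set_option maxRecDepth 100000
set_option maxHeartbeats 4000000
namespace Pool.Agent.Lib.MP_6947cd_al
namespace TC
open C1
noncomputable def c14_109 : Tr Lf :=
 (.spl (nat_lit 5) (nat_lit 200) (.leaf ⟨(nat_lit 0), (nat_lit 1000), (nat_lit 0), (nat_lit 0), (nat_lit 18781), (nat_lit 6799), (nat_lit 8497), (nat_lit 0), (nat_lit 0), (nat_lit 0), (nat_lit 0), [], Pd.none, Pd.none, (nat_lit 0), (nat_lit 1), (nat_lit 0), (nat_lit 0), (nat_lit 4), (nat_lit 0), [⟨(nat_lit 0), (nat_lit 88), (nat_lit 32), (nat_lit 100), (nat_lit 753793676)⟩], [⟨(nat_lit 1), (nat_lit 100), (nat_lit 31), (nat_lit 97), (nat_lit 1043204614)⟩], [⟨(nat_lit 0), (nat_lit 100), (nat_lit 89), (nat_lit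 28), (nat_lit 1759554)⟩], [],
 ⟨⟨[(nat_lit 40), (nat_lit 80), (nat_lit 120)], [(nat_lit 0), (nat_lit 2514), (nat_lit 4610)], [((nat_lit 0), (nat_lit 0), (nat_lit 0)), ((nat_lit 1000), (nat_lit 446), (nat_lit 804)), ((nat_lit 1000), (nat_lit 443), (nat_lit 819))], ((nat_lit 44), (nat_lit 100), (nat_lit 95))⟩, (nat_lit 643791), (nat_lit 199), (nat_lit 199), (nat_lit 0), (nat_lit 339128), [(nat_lit 2511954933), (nat_lit 5303258889), (nat_lit 7968000000)], [], [(nat_lit 26503531831), (nat_lit 28224381408), (nat_lit 29048528812), (nat_lit 30466945186), (nat_lit 29014867608), (nat_lit 30427221670), (nat_lit 31138624704), (nat_lit 32697176330)], (nat_lit 1271251), (nat_lit 1271251), (nat_lit 1271251), (nat_lit 1271251), (nat_lit 1100000), (nat_lit 2041876), [(nat_lit 490000), (nat_lit 1100000), (nat_lit 1785001)], [(nat_lit 4), (nat_lit 51), (nat_lit 373), (nat_lit 150), (nat_lit 11)]⟩,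
 ⟨⟨[(nat_lit 60), (nat_lit 120), (nat_lit 180)], [(nat_lit 0), (nat_lit 0), (nat_lit 4796)], [((nat_lit 0), (nat_lit 0), (nat_lit 0)), ((nat_lit 0), (nat_lit 0), (nat_lit 0)), ((nat_lit 802), (nat_lit 1000), (nat_lit 999))], ((nat_lit 97), (nat_lit 73), (nat_lit 100))⟩, (nat_lit 2376000), (nat_lit 442), (nat_lit 442), (nat_lit 0), (nat_lit 307544), [(nat_lit 3282000000), (nat_lit 7968000000), (nat_lit 14058000000)], [], [(nat_lit 32619911715), (nat_lit 34365897560), (nat_lit 34534302566), (nat_lit 35871995110), (nat_lit 26215935689), (nat_lit 27721440039), (nat_lit 28248541195), (nat_lit 29815668620)], (nat_lit 1271251), (nat_lit 1271251), (nat_lit 1271251), (nat_lit 1271251), (nat_lit 0), (nat_lit 1412501), [(nat_lit 780000), (nat_lit 1762501), (nat_lit 1271251)], [(nat_lit 13), (nat_lit 60), (nat_lit 428), (nat_lit 200), (nat_lit 10)]⟩,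
 Rw.none⟩) (.spl (nat_lit 6) (nat_lit 112) (.leaf ⟨(nat_lit 0), (nat_lit 818), (nat_lit 0), (nat_lit 182), (nat_lit 0), (nat_lit 7180), (nat_lit 8189), (nat_lit 2080), (nat_lit 0), (nat_lit 0), (nat_lit 0), [], Pd.none, Pd.none, (nat_lit 0), (nat_lit 1), (nat_lit 0), (nat_lit 0), (nat_lit 5), (nat_lit 0), [⟨(nat_lit 0), (nat_lit 88), (nat_lit 32), (nat_lit 100), (nat_lit 952031594)⟩], [⟨(nat_lit 1), (nat_lit 100), (nat_lit 31), (nat_lit 97), (nat_lit 525430226)⟩], [⟨(nat_lit 1), (nat_lit 72), (nat_lit 89), (nat_lit 100), (nat_lit 263231964)⟩], [],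
 ⟨⟨[(nat_lit 40), (nat_lit 80), (nat_lit 100)], [(nat_lit 0), (nat_lit 2514), (nat_lit 3562)], [((nat_lit 0), (nat_lit 0), (nat_lit 0)), ((nat_lit 1000), (nat_lit 446), (nat_lit 804)), ((nat_lit 1000), (nat_lit 443), (nat_lit 819))], ((nat_lit 44), (nat_lit 100), (nat_lit 90))⟩, (nat_lit 0), (nat_lit 180), (nat_lit 180), (nat_lit 0), (nat_lit 337328), [(nat_lit 2688723727), (nat_lit 4833685918), (nat_lit 6250000000)], [], [(nat_lit 26447137368), (nat_lit 28345062500), (nat_lit 29309282800), (nat_lit 30900282160), (nat_lit 29289748543), (nat_lit 30834274712), (nat_lit 31495325143), (nat_lit 33105749395)], (nat_lit 1271251), (nat_lit 1271251), (nat_lit 1271251), (nat_lit 1271251), (nat_lit 1100000), (nat_lit 2041876), [(nat_lit 490000), (nat_lit 1100000), (nat_lit 1442501)], [(nat_lit 3), (nat_lit 50), (nat_lit 373), (nat_lit 150), (nat_lit 13)]⟩,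
 ⟨⟨[(nat_lit 60), (nat_lit 120), (nat_lit 180)], [(nat_lit 0), (nat_lit 0), (nat_lit 4796)], [((nat_lit 0), (nat_lit 0), (nat_lit 0)), ((nat_lit 0), (nat_lit 0), (nat_lit 0)), ((nat_lit 802), (nat_lit 1000), (nat_lit 999))], ((nat_lit 100), (nat_lit 83), (nat_lit 98))⟩, (nat_lit 2026194), (nat_lit 266), (nat_lit 266), (nat_lit 0), (nat_lit 304032), [(nat_lit 3282000000), (nat_lit 7968000000), (nat_lit 14058000000)], [], [(nat_lit 25877229358), (nat_lit 27779113896), (nat_lit 28090584962), (nat_lit 29563019954), (nat_lit 32747282051), (nat_lit 33710603681), (nat_lit 33407821016), (nat_lit 34604565754)], (nat_lit 1271251), (nat_lit 1271251), (nat_lit 1271251), (nat_lit 1271251), (nat_lit 1271251), (nat_lit 1271251), [(nat_lit 780000), (nat_lit 1762501), (nat_lit 1271251)], [(nat_lit 13), (nat_lit 60), (nat_lit 483), (nat_lit 250), (nat_lit 10)]⟩,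
 ⟨⟨[(nat_lit 140), (nat_lit 180), (nat_lit 200)], [(nat_lit 0), (nat_lit 0), (nat_lit 2835)], [((nat_lit 0), (nat_lit 0), (nat_lit 0)), ((nat_lit 0), (nat_lit 0), (nat_lit 0)), ((nat_lit 363), (nat_lit 1000), (nat_lit 798))], ((nat_lit 0), (nat_lit 0), (nat_lit 0))⟩, (nat_lit 50074), (nat_lit 300), (nat_lit 1415), (nat_lit 14214202), (nat_lit 2305251), [(nat_lit 1791244000), (nat_lit 2558556000), (nat_lit 2984800000)], [], [(nat_lit 11423392784), (nat_lit 10957616070), (nat_lit 10765922523), (nat_lit 10296028041), (nat_lit 10719782282), (nat_lit 10239769957), (nat_lit 10062538608), (nat_lit 9577612219)], (nat_lit 780000), (nat_lit 1271251), (nat_lit 1100000), (nat_lit 2041876), (nat_lit 1271251), (nat_lit 1271251), [(nat_lit 1977501), (nat_lit 1271251), (nat_lit 1271251)], [(nat_lit 32), (nat_lit 67), (nat_lit 458), (nat_lit 225), (nat_lit 9)]⟩⟩) (.leaf ⟨(nat_lit 0), (nat_lit 770), (nat_lit 0), (nat_lit 230), (nat_lit 0), (nat_lit 8931), (nat_lit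 13681), (nat_lit 2694), (nat_lit 0), (nat_lit 0), (nat_lit 0), [], Pd.none, Pd.none, (nat_lit 0), (nat_lit 1), (nat_lit 0), (nat_lit 0), (nat_lit 5), (nat_lit 0), [⟨(nat_lit 0), (nat_lit 88), (nat_lit 32), (nat_lit 100), (nat_lit 1111653467)⟩], [⟨(nat_lit 1), (nat_lit 100), (nat_lit 31), (nat_lit 97), (nat_lit 395200267)⟩], [⟨(nat_lit 1), (nat_lit 72), (nat_lit 89), (nat_lit 100), (nat_lit 211831649)⟩], [],
 ⟨⟨[(nat_lit 40), (nat_lit 80), (nat_lit 120)], [(nat_lit 0), (nat_lit 2514), (nat_lit 4610)], [((nat_lit 0), (nat_lit 0), (nat_lit 0)), ((nat_lit 1000), (nat_lit 446), (nat_lit 804)), ((nat_lit 1000), (nat_lit 443), (nat_lit 819))], ((nat_lit 44), (nat_lit 100), (nat_lit 95))⟩, (nat_lit 0), (nat_lit 171), (nat_lit 171), (nat_lit 0), (nat_lit 239816), [(nat_lit 3336138773), (nat_lit 5611888621), (nat_lit 7968000000)], [], [(nat_lit 28563836994), (nat_lit 30621269942), (nat_lit 31215793484), (nat_lit 32892415872), (nat_lit 31046005812), (nat_lit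 32705009296), (nat_lit 33134649208), (nat_lit 34983469703)], (nat_lit 1271251), (nat_lit 1271251), (nat_lit 1271251), (nat_lit 1271251), (nat_lit 1100000), (nat_lit 2041876), [(nat_lit 490000), (nat_lit 1100000), (nat_lit 1785001)], [(nat_lit 4), (nat_lit 51), (nat_lit 373), (nat_lit 150), (nat_lit 11)]⟩,
 ⟨⟨[(nat_lit 60), (nat_lit 120), (nat_lit 180)], [(nat_lit 0), (nat_lit 0), (nat_lit 4796)], [((nat_lit 0), (nat_lit 0), (nat_lit 0)), ((nat_lit 0), (nat_lit 0), (nat_lit 0)), ((nat_lit 802), (nat_lit 1000), (nat_lit 999))], ((nat_lit 97), (nat_lit 73), (nat_lit 100))⟩, (nat_lit 275983), (nat_lit 238), (nat_lit 238), (nat_lit 0), (nat_lit 222117), [(nat_lit 3282000000), (nat_lit 7968000000), (nat_lit 14058000000)], [], [(nat_lit 31449098853), (nat_lit 33918400355), (nat_lit 33723875612), (nat_lit 35524086894), (nat_lit 39938152986), (nat_lit 40941008434), (nat_lit 39716530236), (nat_lit 40305751686)], (nat_lit 1271251), (nat_lit 1271251), (nat_lit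 1271251), (nat_lit 1271251), (nat_lit 1271251), (nat_lit 1271251), [(nat_lit 780000), (nat_lit 1762501), (nat_lit 1271251)], [(nat_lit 13), (nat_lit 60), (nat_lit 483), (nat_lit 250), (nat_lit 10)]⟩,
 ⟨⟨[(nat_lit 140), (nat_lit 180), (nat_lit 200)], [(nat_lit 0), (nat_lit 0), (nat_lit 2835)], [((nat_lit 0), (nat_lit 0), (nat_lit 0)), ((nat_lit 0), (nat_lit 0), (nat_lit 0)), ((nat_lit 363), (nat_lit 1000), (nat_lit 798))], ((nat_lit 0), (nat_lit 0), (nat_lit 0))⟩, (nat_lit 63280), (nat_lit 300), (nat_lit 1111), (nat_lit 17963006), (nat_lit 1655853), [(nat_lit 2263660000), (nat_lit 3233340000), (nat_lit 3772000000)], [], [(nat_lit 14069320948), (nat_lit 13462220775), (nat_lit 13245986269), (nat_lit 12646024938), (nat_lit 13261012188), (nat_lit 12637186709), (nat_lit 12504364458), (nat_lit 11886704194)], (nat_lit 780000), (nat_lit 1271251), (nat_lit 1100000), (nat_lit 2041876), (nat_lit 1271251), (nat_lit 1271251), [(nat_lit 1977501), (nat_lit 1271251),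 (nat_lit 1271251)], [(nat_lit 32), (nat_lit 67), (nat_lit 456), (nat_lit 225), (nat_lit 9)]⟩⟩)))
noncomputable def c14_110 : Tr Lf :=
 (.spl (nat_lit 0) (nat_lit 390) (.spl (nat_lit 0) (nat_lit 385) (.spl (nat_lit 6) (nat_lit 120) (.leaf ⟨(nat_lit 20), (nat_lit 980), (nat_lit 0), (nat_lit 0), (nat_lit 11394), (nat_lit 4276), (nat_lit 7496), (nat_lit 0), (nat_lit 0), (nat_lit 0), (nat_lit 5000), [((nat_lit 385), [((nat_lit 29), (nat_lit 0), (nat_lit 20))])], ⟨(nat_lit 7), false, true, true, (nat_lit 295), (nat_lit 1936), (nat_lit 2237), [(nat_lit 1659578), (nat_lit 1657798), (nat_lit 1705125), (nat_lit 1703818), (nat_lit 1773609), (nat_lit 1769577), (nat_lit 1819158), (nat_lit 1815598)]⟩, ⟨(nat_lit 3), false, false, false, (nat_lit 121), (nat_lit 1936), (nat_lit 2237), [(nat_lit 1180811), (nat_lit 1184371), (nat_lit 1249108), (nat_lit 1253377), (nat_lit 1351886), (nat_lit 1352066), (nat_lit 1420202), (nat_lit 1421092)]⟩, (nat_lit 4677034), (nat_lit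 39493023), (nat_lit 22160482), (nat_lit 5346495), (nat_lit 3), (nat_lit 0), [], [], [], [],
 ⟨⟨[(nat_lit 40), (nat_lit 80), (nat_lit 120)], [(nat_lit 0), (nat_lit 2514), (nat_lit 4610)], [((nat_lit 0), (nat_lit 0), (nat_lit 0)), ((nat_lit 1000), (nat_lit 446), (nat_lit 804)), ((nat_lit 1000), (nat_lit 443), (nat_lit 819))], ((nat_lit 44), (nat_lit 100), (nat_lit 92))⟩, (nat_lit 1283470), (nat_lit 200), (nat_lit 200), (nat_lit 0), (nat_lit 124184), [(nat_lit 2006728078), (nat_lit 5254966800), (nat_lit 7568640000)], [(nat_lit 0), (nat_lit 0), (nat_lit 0)], [(nat_lit 28071253017), (nat_lit 28386827513), (nat_lit 32501698727), (nat_lit 32840678527), (nat_lit 26692731924), (nat_lit 26926558920), (nat_lit 30188367694), (nat_lit 30490501131)], (nat_lit 1271251), (nat_lit 1271251), (nat_lit 1271251), (nat_lit 1271251), (nat_lit 230000), (nat_lit 1100000), [(nat_lit 490000), (nat_lit 1100000), (nat_lit 1785001)], [(nat_lit 4), (nat_lit 51), (nat_lit 249),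 (nat_lit 40), (nat_lit 7)]⟩,
 ⟨⟨[(nat_lit 80), (nat_lit 140), (nat_lit 200)], [(nat_lit 0), (nat_lit 0), (nat_lit 5481)], [((nat_lit 0), (nat_lit 0), (nat_lit 0)), ((nat_lit 0), (nat_lit 0), (nat_lit 0)), ((nat_lit 637), (nat_lit 1000), (nat_lit 908))], ((nat_lit 0), (nat_lit 0), (nat_lit 0))⟩, (nat_lit 2098657), (nat_lit 478), (nat_lit 478), (nat_lit 0), (nat_lit 264130), [(nat_lit 4594240000), (nat_lit 9645160000), (nat_lit 16072000000)], [], [(nat_lit 40389670143), (nat_lit 41291691575), (nat_lit 43039041439), (nat_lit 44098478172), (nat_lit 34020413019), (nat_lit 35167444824), (nat_lit 37141320556), (nat_lit 37974084808)], (nat_lit 1271251), (nat_lit 1271251), (nat_lit 1271251), (nat_lit 1271251), (nat_lit 0), (nat_lit 1412501), [(nat_lit 1100000), (nat_lit 2127501), (nat_lit 1271251)], [(nat_lit 20), (nat_lit 64), (nat_lit 456), (nat_lit 225), (nat_lit 9)]⟩,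
 Rw.none⟩) (.dle (nat_lit 0))) (.trX (nat_lit 3) (nat_lit 0) (nat_lit 1) (nat_lit 41) (nat_lit 76) (nat_lit 100) (nat_lit 350) (.trZ (nat_lit 0) (nat_lit 2) (nat_lit 4) (nat_lit 100) (nat_lit 41) (nat_lit 76) (nat_lit 50) (.leaf ⟨(nat_lit 0), (nat_lit 1000), (nat_lit 0), (nat_lit 0), (nat_lit 10225), (nat_lit 4290), (nat_lit 7450), (nat_lit 0), (nat_lit 0), (nat_lit 0), (nat_lit 0), [], Pd.none, Pd.none, (nat_lit 0), (nat_lit 1), (nat_lit 0), (nat_lit 0), (nat_lit 3), (nat_lit 0), [], [], [], [],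
 ⟨⟨[(nat_lit 40), (nat_lit 80), (nat_lit 120)], [(nat_lit 0), (nat_lit 2833), (nat_lit 5014)], [((nat_lit 0), (nat_lit 0), (nat_lit 0)), ((nat_lit 1000), (nat_lit 389), (nat_lit 842)), ((nat_lit 1000), (nat_lit 387), (nat_lit 852))], ((nat_lit 38), (nat_lit 100), (nat_lit 94))⟩, (nat_lit 1300668), (nat_lit 203), (nat_lit 203), (nat_lit 0), (nat_lit 156661), [(nat_lit 2032000047), (nat_lit 5163116257), (nat_lit 7968000000)], [], [(nat_lit 27972479738), (nat_lit 28394557179), (nat_lit 31806020581), (nat_lit 32154341998), (nat_lit 26746500376), (nat_lit 26994839645), (nat_lit 29949087721), (nat_lit 30260592377)], (nat_lit 1271251), (nat_lit 1271251), (nat_lit 1271251), (nat_lit 1271251), (nat_lit 292188), (nat_lit 1100000), [(nat_lit 490000), (nat_lit 1100000), (nat_lit 1785001)], [(nat_lit 4), (nat_lit 51), (nat_lit 249), (nat_lit 40), (nat_lit 7)]⟩,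
 ⟨⟨[(nat_lit 80), (nat_lit 140), (nat_lit 200)], [(nat_lit 0), (nat_lit 0), (nat_lit 5481)], [((nat_lit 0), (nat_lit 0), (nat_lit 0)), ((nat_lit 0), (nat_lit 0), (nat_lit 0)), ((nat_lit 637), (nat_lit 1000), (nat_lit 908))], ((nat_lit 0), (nat_lit 0), (nat_lit 0))⟩, (nat_lit 2086141), (nat_lit 505), (nat_lit 505), (nat_lit 0), (nat_lit 339046), [(nat_lit 4688000000), (nat_lit 9842000000), (nat_lit 16400000000)], [], [(nat_lit 41597720679), (nat_lit 42517416079), (nat_lit 43874485104), (nat_lit 44579512475), (nat_lit 35348202879), (nat_lit 36268016550), (nat_lit 37797915488), (nat_lit 38688995857)], (nat_lit 1271251), (nat_lit 1271251), (nat_lit 1271251), (nat_lit 1271251), (nat_lit 0), (nat_lit 1412501), [(nat_lit 1100000), (nat_lit 2127501), (nat_lit 1271251)], [(nat_lit 20), (nat_lit 64), (nat_lit 456), (nat_lit 225), (nat_lit 9)]⟩,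
 Rw.none⟩)))) (.trX (nat_lit 3) (nat_lit 0) (nat_lit 1) (nat_lit 34) (nat_lit 81) (nat_lit 100) (nat_lit 340) (.trZ (nat_lit 0) (nat_lit 2) (nat_lit 4) (nat_lit 100) (nat_lit 34) (nat_lit 81) (nat_lit 60) (.spl (nat_lit 5) (nat_lit 120) (.spl (nat_lit 1) (nat_lit 260) (.trX (nat_lit 3) (nat_lit 0) (nat_lit 1) (nat_lit 33) (nat_lit 85) (nat_lit 100) (nat_lit 320) (.leaf ⟨(nat_lit 0), (nat_lit 1000), (nat_lit 0), (nat_lit 0), (nat_lit 5151), (nat_lit 4324), (nat_lit 7080), (nat_lit 0), (nat_lit 0), (nat_lit 0), (nat_lit 0), [], Pd.none, Pd.none, (nat_lit 0), (nat_lit 1), (nat_lit 0), (nat_lit 0), (nat_lit 3), (nat_lit 0), [⟨(nat_lit 1), (nat_lit 92), (nat_lit 23), (nat_lit 100), (nat_lit 308508599)⟩], [], [], [⟨(nat_lit 0), (nat_lit 100), (nat_lit 97), (nat_lit 6), (nat_lit 15605995)⟩],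
 ⟨⟨[(nat_lit 40), (nat_lit 80), (nat_lit 100)], [(nat_lit 0), (nat_lit 3225), (nat_lit 4371)], [((nat_lit 0), (nat_lit 0), (nat_lit 0)), ((nat_lit 1000), (nat_lit 321), (nat_lit 877)), ((nat_lit 1000), (nat_lit 317), (nat_lit 896))], ((nat_lit 31), (nat_lit 100), (nat_lit 94))⟩, (nat_lit 891731), (nat_lit 178), (nat_lit 178), (nat_lit 0), (nat_lit 173409), [(nat_lit 2032000120), (nat_lit 4749263868), (nat_lit 6250000000)], [], [(nat_lit 28023558154), (nat_lit 28866248164), (nat_lit 29945535083), (nat_lit 30704056116), (nat_lit 27049959150), (nat_lit 27651272375), (nat_lit 28645379218), (nat_lit 29324514576)], (nat_lit 1271251), (nat_lit 1271251), (nat_lit 1271251), (nat_lit 1271251), (nat_lit 356250), (nat_lit 1100000), [(nat_lit 490000), (nat_lit 1100000), (nat_lit 1442501)], [(nat_lit 3), (nat_lit 50), (nat_lit 249), (nat_lit 40), (nat_lit 8)]⟩,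
 ⟨⟨[(nat_lit 80), (nat_lit 140), (nat_lit 200)], [(nat_lit 0), (nat_lit 0), (nat_lit 5481)], [((nat_lit 0), (nat_lit 0), (nat_lit 0)), ((nat_lit 0), (nat_lit 0), (nat_lit 0)), ((nat_lit 637), (nat_lit 1000), (nat_lit 908))], ((nat_lit 0), (nat_lit 0), (nat_lit 0))⟩, (nat_lit 2313438), (nat_lit 517), (nat_lit 517), (nat_lit 0), (nat_lit 373517), [(nat_lit 4688000000), (nat_lit 9842000000), (nat_lit 16400000000)], [], [(nat_lit 40501448722), (nat_lit 40961519460), (nat_lit 41917143360), (nat_lit 42582665920), (nat_lit 36857328080), (nat_lit 37311412940), (nat_lit 37883666240), (nat_lit 38278666880)], (nat_lit 1271251), (nat_lit 1271251), (nat_lit 1271251), (nat_lit 1271251), (nat_lit 0), (nat_lit 780000), [(nat_lit 1100000), (nat_lit 2127501), (nat_lit 1271251)], [(nat_lit 20), (nat_lit 64), (nat_lit 401), (nat_lit 175), (nat_lit 8)]⟩,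
 Rw.none⟩)) (.leaf ⟨(nat_lit 0), (nat_lit 1000), (nat_lit 0), (nat_lit 0), (nat_lit 0), (nat_lit 5451), (nat_lit 7518), (nat_lit 0), (nat_lit 0), (nat_lit 0), (nat_lit 0), [], Pd.none, Pd.none, (nat_lit 0), (nat_lit 1), (nat_lit 0), (nat_lit 0), (nat_lit 3), (nat_lit 0), [⟨(nat_lit 1), (nat_lit 89), (nat_lit 24), (nat_lit 100), (nat_lit 99375419)⟩], [], [], [⟨(nat_lit 0), (nat_lit 100), (nat_lit 94), (nat_lit 13), (nat_lit 74392267)⟩],
 ⟨⟨[(nat_lit 40), (nat_lit 80), (nat_lit 100)], [(nat_lit 0), (nat_lit 3225), (nat_lit 4371)], [((nat_lit 0), (nat_lit 0), (nat_lit 0)), ((nat_lit 1000), (nat_lit 321), (nat_lit 877)), ((nat_lit 1000), (nat_lit 317), (nat_lit 896))], ((nat_lit 31), (nat_lit 100), (nat_lit 94))⟩, (nat_lit 453070), (nat_lit 208), (nat_lit 208), (nat_lit 0), (nat_lit 216713), [(nat_lit 2253743260), (nat_lit 4764057819), (nat_lit 6250000000)], [], [(nat_lit 30095391530), (nat_lit 30956310236), (nat_lit 33470517918), (nat_lit 34283366280),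 (nat_lit 28634456710), (nat_lit 29312519554), (nat_lit 31213157672), (nat_lit 31939121982)], (nat_lit 1271251), (nat_lit 1271251), (nat_lit 1271251), (nat_lit 1271251), (nat_lit 356250), (nat_lit 1100000), [(nat_lit 490000), (nat_lit 1100000), (nat_lit 1442501)], [(nat_lit 3), (nat_lit 50), (nat_lit 249), (nat_lit 40), (nat_lit 8)]⟩,
 ⟨⟨[(nat_lit 80), (nat_lit 140), (nat_lit 180)], [(nat_lit 0), (nat_lit 792), (nat_lit 4228)], [((nat_lit 0), (nat_lit 0), (nat_lit 0)), ((nat_lit 1000), (nat_lit 959), (nat_lit 206)), ((nat_lit 709), (nat_lit 1000), (nat_lit 949))], ((nat_lit 100), (nat_lit 64), (nat_lit 99))⟩, (nat_lit 2349326), (nat_lit 474), (nat_lit 474), (nat_lit 0), (nat_lit 400766), [(nat_lit 4688000000), (nat_lit 9842000000), (nat_lit 14058000000)], [], [(nat_lit 36967178967), (nat_lit 37658434232), (nat_lit 39660308182), (nat_lit 40283528378), (nat_lit 32006962078), (nat_lit 32698159685), (nat_lit 34480843673), (nat_lit 35035269278)], (nat_lit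 1271251), (nat_lit 1271251), (nat_lit 1271251), (nat_lit 1271251), (nat_lit 0), (nat_lit 780000), [(nat_lit 1100000), (nat_lit 2127501), (nat_lit 1271251)], [(nat_lit 19), (nat_lit 63), (nat_lit 428), (nat_lit 200), (nat_lit 10)]⟩,
 Rw.none⟩)) (.leaf ⟨(nat_lit 17), (nat_lit 879), (nat_lit 0), (nat_lit 104), (nat_lit 0), (nat_lit 4059), (nat_lit 7821), (nat_lit 1371), (nat_lit 0), (nat_lit 0), (nat_lit 68000), [((nat_lit 400), [((nat_lit 43), (nat_lit 5), (nat_lit 17))])], ⟨(nat_lit 7), false, true, true, (nat_lit 287), (nat_lit 0), (nat_lit 1582), [(nat_lit 1655899), (nat_lit 1649997), (nat_lit 1702515), (nat_lit 1699984), (nat_lit 1737850), (nat_lit 1724995), (nat_lit 1784482), (nat_lit 1774996)]⟩, ⟨(nat_lit 3), false, false, false, (nat_lit 128), (nat_lit 0), (nat_lit 1582), [(nat_lit 1213552), (nat_lit 1223038), (nat_lit 1281527), (nat_lit 1296068), (nat_lit 1352101), (nat_lit 1349997), (nat_lit 1421394), (nat_lit 1424345)]⟩, (nat_lit 4728510),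 (nat_lit 39886349), (nat_lit 21213675), (nat_lit 5899976), (nat_lit 3), (nat_lit 0), [⟨(nat_lit 1), (nat_lit 91), (nat_lit 23), (nat_lit 100), (nat_lit 28168608)⟩], [], [], [],
 ⟨⟨[(nat_lit 40), (nat_lit 80), (nat_lit 100)], [(nat_lit 0), (nat_lit 3225), (nat_lit 4371)], [((nat_lit 0), (nat_lit 0), (nat_lit 0)), ((nat_lit 1000), (nat_lit 321), (nat_lit 877)), ((nat_lit 1000), (nat_lit 317), (nat_lit 896))], ((nat_lit 31), (nat_lit 100), (nat_lit 94))⟩, (nat_lit 775723), (nat_lit 208), (nat_lit 208), (nat_lit 0), (nat_lit 216765), [(nat_lit 1870874018), (nat_lit 4196124845), (nat_lit 5457623200)], [(nat_lit 0), (nat_lit 0), (nat_lit 0)], [(nat_lit 27560681445), (nat_lit 28374796124), (nat_lit 30628819040), (nat_lit 31322906268), (nat_lit 26907467436), (nat_lit 27426685993), (nat_lit 29409487418), (nat_lit 30033359838)], (nat_lit 1271251), (nat_lit 1271251), (nat_lit 1271251), (nat_lit 1271251), (nat_lit 356250), (nat_lit 1100000), [(nat_lit 490000),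 (nat_lit 1100000), (nat_lit 1442501)], [(nat_lit 3), (nat_lit 50), (nat_lit 249), (nat_lit 40), (nat_lit 8)]⟩,
 ⟨⟨[(nat_lit 80), (nat_lit 140), (nat_lit 200)], [(nat_lit 0), (nat_lit 0), (nat_lit 5481)], [((nat_lit 0), (nat_lit 0), (nat_lit 0)), ((nat_lit 0), (nat_lit 0), (nat_lit 0)), ((nat_lit 637), (nat_lit 1000), (nat_lit 908))], ((nat_lit 0), (nat_lit 0), (nat_lit 0))⟩, (nat_lit 2037958), (nat_lit 473), (nat_lit 473), (nat_lit 0), (nat_lit 486174), [(nat_lit 4608304000), (nat_lit 9674686000), (nat_lit 16121200000)], [], [(nat_lit 34936622206), (nat_lit 35742634555), (nat_lit 36609366783), (nat_lit 37423193846), (nat_lit 33991296199), (nat_lit 34693901547), (nat_lit 35785018447), (nat_lit 36706475626)], (nat_lit 1271251), (nat_lit 1271251), (nat_lit 1271251), (nat_lit 1271251), (nat_lit 780000), (nat_lit 1435001), [(nat_lit 1100000), (nat_lit 2127501), (nat_lit 1271251)], [(nat_lit 20), (nat_lit 64), (nat_lit 456), (nat_lit 225), (nat_lit 9)]⟩,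
 ⟨⟨[(nat_lit 140), (nat_lit 180), (nat_lit 200)], [(nat_lit 0), (nat_lit 0), (nat_lit 2835)], [((nat_lit 0), (nat_lit 0), (nat_lit 0)), ((nat_lit 0), (nat_lit 0), (nat_lit 0)), ((nat_lit 363), (nat_lit 1000), (nat_lit 798))], ((nat_lit 0), (nat_lit 0), (nat_lit 0))⟩, (nat_lit 28614), (nat_lit 300), (nat_lit 1671), (nat_lit 8122400), (nat_lit 2637791), [(nat_lit 1023568000), (nat_lit 1462032000), (nat_lit 1705600000)], [], [(nat_lit 6872657379), (nat_lit 6586556120), (nat_lit 6155180202), (nat_lit 5863056347), (nat_lit 6485910034), (nat_lit 6197793754), (nat_lit 5764918628), (nat_lit 6737105582)], (nat_lit 780000), (nat_lit 1271251), (nat_lit 356250), (nat_lit 1100000), (nat_lit 780000), (nat_lit 1435001), [(nat_lit 1977501), (nat_lit 1271251), (nat_lit 1271251)], [(nat_lit 32), (nat_lit 67), (nat_lit 486), (nat_lit 150), (nat_lit 10)]⟩⟩)))))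
noncomputable def c14_111 : Tr Lf :=
 (.stt (nat_lit 2) (.leaf ⟨(nat_lit 0), (nat_lit 954), (nat_lit 0), (nat_lit 46), (nat_lit 4630), (nat_lit 4416), (nat_lit 5766), (nat_lit 542), (nat_lit 0), (nat_lit 0), (nat_lit 0), [], Pd.none, Pd.none, (nat_lit 0), (nat_lit 1), (nat_lit 0), (nat_lit 0), (nat_lit 5), (nat_lit 0), [⟨(nat_lit 1), (nat_lit 85), (nat_lit 33), (nat_lit 100), (nat_lit 213434643)⟩], [], [], [⟨(nat_lit 1), (nat_lit 100), (nat_lit 88), (nat_lit 98), (nat_lit 7264477)⟩],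
 ⟨⟨[(nat_lit 40), (nat_lit 80), (nat_lit 120)], [(nat_lit 0), (nat_lit 2514), (nat_lit 4610)], [((nat_lit 0), (nat_lit 0), (nat_lit 0)), ((nat_lit 1000), (nat_lit 446), (nat_lit 804)), ((nat_lit 1000), (nat_lit 443), (nat_lit 819))], ((nat_lit 44), (nat_lit 100), (nat_lit 95))⟩, (nat_lit 1363391), (nat_lit 257), (nat_lit 257), (nat_lit 0), (nat_lit 219565), [(nat_lit 2032000018), (nat_lit 5025944828), (nat_lit 7968000000)], [], [(nat_lit 28215209180), (nat_lit 29941342872), (nat_lit 32832512882), (nat_lit 34210480784), (nat_lit 26794901952), (nat_lit 27756053154), (nat_lit 30376462104), (nat_lit 31603743040)], (nat_lit 1271251), (nat_lit 1271251), (nat_lit 1271251), (nat_lit 1271251), (nat_lit 230000), (nat_lit 1100000), [(nat_lit 490000), (nat_lit 1100000), (nat_lit 1785001)], [(nat_lit 4), (nat_lit 51), (nat_lit 249), (nat_lit 40), (nat_lit 7)]⟩,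
 ⟨⟨[(nat_lit 80), (nat_lit 140), (nat_lit 200)], [(nat_lit 0), (nat_lit 0), (nat_lit 5481)], [((nat_lit 0), (nat_lit 0), (nat_lit 0)), ((nat_lit 0), (nat_lit 0), (nat_lit 0)), ((nat_lit 637), (nat_lit 1000), (nat_lit 908))], ((nat_lit 0), (nat_lit 0), (nat_lit 0))⟩, (nat_lit 0), (nat_lit 105), (nat_lit 105), (nat_lit 0), (nat_lit 0), [(nat_lit 4688000000), (nat_lit 9842000000), (nat_lit 16400000000)], [], [(nat_lit 19701434108), (nat_lit 21983153658), (nat_lit 25303393314), (nat_lit 27056701437), (nat_lit 28477620515), (nat_lit 29863047980), (nat_lit 32414188885), (nat_lit 33617630783)], (nat_lit 0), (nat_lit 0), (nat_lit 0), (nat_lit 0), (nat_lit 0), (nat_lit 0), [], [(nat_lit 20), (nat_lit 64), (nat_lit 538), (nat_lit 300), (nat_lit 10)]⟩,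
 ⟨⟨[(nat_lit 140), (nat_lit 180), (nat_lit 200)], [(nat_lit 0), (nat_lit 0), (nat_lit 2835)], [((nat_lit 0), (nat_lit 0), (nat_lit 0)), ((nat_lit 0), (nat_lit 0), (nat_lit 0)), ((nat_lit 363), (nat_lit 1000), (nat_lit 798))], ((nat_lit 0), (nat_lit 0), (nat_lit 0))⟩, (nat_lit 12656), (nat_lit 300), (nat_lit 1644), (nat_lit 3592602), (nat_lit 2637791), [(nat_lit 452732000), (nat_lit 646668000), (nat_lit 754400000)], [], [(nat_lit 3142176240), (nat_lit 3020296189), (nat_lit 2795923556), (nat_lit 2673599635), (nat_lit 3015239323), (nat_lit 2890212475), (nat_lit 2641333226), (nat_lit 2515847993)], (nat_lit 780000), (nat_lit 1271251), (nat_lit 230000), (nat_lit 1100000), (nat_lit 1271251), (nat_lit 1271251), [(nat_lit 1977501), (nat_lit 1271251), (nat_lit 1271251)], [(nat_lit 32), (nat_lit 67), (nat_lit 500), (nat_lit 200), (nat_lit 11)]⟩⟩) (.spl (nat_lit 0) (nat_lit 390) (.leaf ⟨(nat_lit 22), (nat_lit 743), (nat_lit 0), (nat_lit 235), (nat_lit 0), (nat_lit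 4005), (nat_lit 10327), (nat_lit 2786), (nat_lit 0), (nat_lit 0), (nat_lit 88000), [((nat_lit 390), [((nat_lit 43), (nat_lit 5), (nat_lit 22))])], ⟨(nat_lit 7), false, true, true, (nat_lit 295), (nat_lit 1581), (nat_lit 2237), [(nat_lit 1659578), (nat_lit 1655900), (nat_lit 1705117), (nat_lit 1702521), (nat_lit 1773609), (nat_lit 1765172), (nat_lit 1819158), (nat_lit 1811802)]⟩, ⟨(nat_lit 3), false, false, false, (nat_lit 121), (nat_lit 1581), (nat_lit 2237), [(nat_lit 1180680), (nat_lit 1188036), (nat_lit 1248867), (nat_lit 1257845), (nat_lit 1351886), (nat_lit 1352103), (nat_lit 1420170), (nat_lit 1422009)]⟩, (nat_lit 4679986), (nat_lit 39522167), (nat_lit 22099210), (nat_lit 5378623), (nat_lit 5), (nat_lit 0), [], [], [], [⟨(nat_lit 1), (nat_lit 100), (nat_lit 88), (nat_lit 98), (nat_lit 160216055)⟩],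
 ⟨⟨[(nat_lit 40), (nat_lit 80), (nat_lit 120)], [(nat_lit 0), (nat_lit 2514), (nat_lit 4610)], [((nat_lit 0), (nat_lit 0), (nat_lit 0)), ((nat_lit 1000), (nat_lit 446), (nat_lit 804)), ((nat_lit 1000), (nat_lit 443), (nat_lit 819))], ((nat_lit 44), (nat_lit 100), (nat_lit 95))⟩, (nat_lit 1148468), (nat_lit 196), (nat_lit 196), (nat_lit 0), (nat_lit 102684), [(nat_lit 1823484052), (nat_lit 4315142453), (nat_lit 6605135200)], [(nat_lit 0), (nat_lit 0), (nat_lit 0)], [(nat_lit 27610085399), (nat_lit 28251931602), (nat_lit 31861337042), (nat_lit 32517956644), (nat_lit 26465894917), (nat_lit 26948445677), (nat_lit 29824270658), (nat_lit 30410392929)], (nat_lit 1271251), (nat_lit 1271251), (nat_lit 1271251), (nat_lit 1271251), (nat_lit 230000), (nat_lit 1100000), [(nat_lit 490000), (nat_lit 1100000), (nat_lit 1785001)], [(nat_lit 4), (nat_lit 51), (nat_lit 249), (nat_lit 40), (nat_lit 7)]⟩,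
 ⟨⟨[(nat_lit 80), (nat_lit 140), (nat_lit 200)], [(nat_lit 0), (nat_lit 0), (nat_lit 5481)], [((nat_lit 0), (nat_lit 0), (nat_lit 0)), ((nat_lit 0), (nat_lit 0), (nat_lit 0)), ((nat_lit 637), (nat_lit 1000), (nat_lit 908))], ((nat_lit 0), (nat_lit 0), (nat_lit 0))⟩, (nat_lit 2093788), (nat_lit 316), (nat_lit 316), (nat_lit 0), (nat_lit 338262), [(nat_lit 4584864000), (nat_lit 9625476000), (nat_lit 16039200000)], [], [(nat_lit 29231635120), (nat_lit 29841812773), (nat_lit 32321628178), (nat_lit 33110776473), (nat_lit 33153758979), (nat_lit 33621266051), (nat_lit 36961600246), (nat_lit 38307867025)], (nat_lit 1271251), (nat_lit 1271251), (nat_lit 1271251), (nat_lit 1271251), (nat_lit 1271251), (nat_lit 1271251), [(nat_lit 1100000), (nat_lit 2127501), (nat_lit 1271251)], [(nat_lit 20), (nat_lit 64), (nat_lit 538), (nat_lit 300), (nat_lit 10)]⟩,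
 ⟨⟨[(nat_lit 140), (nat_lit 180), (nat_lit 200)], [(nat_lit 0), (nat_lit 0), (nat_lit 2835)], [((nat_lit 0), (nat_lit 0), (nat_lit 0)), ((nat_lit 0), (nat_lit 0), (nat_lit 0)), ((nat_lit 363), (nat_lit 1000), (nat_lit 798))], ((nat_lit 0), (nat_lit 0), (nat_lit 0))⟩, (nat_lit 64656), (nat_lit 300), (nat_lit 1004), (nat_lit 18353502), (nat_lit 1227604), [(nat_lit 2312870000), (nat_lit 3303630000), (nat_lit 3854000000)], [], [(nat_lit 15999380616), (nat_lit 15371753245), (nat_lit 14187712892), (nat_lit 13568106523), (nat_lit 15373827116), (nat_lit 14729943630), (nat_lit 13423002296), (nat_lit 12802572481)], (nat_lit 780000), (nat_lit 1271251), (nat_lit 230000), (nat_lit 1100000), (nat_lit 1271251), (nat_lit 1271251), [(nat_lit 1977501), (nat_lit 1271251), (nat_lit 1271251)], [(nat_lit 32), (nat_lit 67), (nat_lit 428), (nat_lit 200), (nat_lit 9)]⟩⟩) (.trX (nat_lit 3) (nat_lit 0) (nat_lit 1) (nat_lit 34) (nat_lit 81) (nat_lit 100) (nat_lit 340) (.trZ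 (nat_lit 0) (nat_lit 2) (nat_lit 4) (nat_lit 100) (nat_lit 34) (nat_lit 81) (nat_lit 60) (.spl (nat_lit 1) (nat_lit 260) (.trX (nat_lit 3) (nat_lit 0) (nat_lit 1) (nat_lit 33) (nat_lit 85) (nat_lit 100) (nat_lit 320) (.leaf ⟨(nat_lit 627), (nat_lit 276), (nat_lit 0), (nat_lit 97), (nat_lit 0), (nat_lit 3729), (nat_lit 3996), (nat_lit 1173), (nat_lit 0), (nat_lit 0), (nat_lit 163020), [((nat_lit 400), [((nat_lit 42), (nat_lit 0), (nat_lit 627))])], ⟨(nat_lit 7), false, true, true, (nat_lit 276), (nat_lit 0), (nat_lit 1582), [(nat_lit 1655899), (nat_lit 1649997), (nat_lit 1679215), (nat_lit 1674999), (nat_lit 1710533), (nat_lit 1699996), (nat_lit 1733849), (nat_lit 1724997)]⟩, ⟨(nat_lit 3), false, false, false, (nat_lit 128), (nat_lit 0), (nat_lit 1582), [(nat_lit 1213552), (nat_lit 1223038), (nat_lit 1281527), (nat_lit 1296068), (nat_lit 1352101), (nat_lit 1349997), (nat_lit 1421394), (nat_lit 1424345)]⟩, (nat_lit 4692858), (nat_lit 40747412), (nat_lit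 20271697), (nat_lit 5980891), (nat_lit 5), (nat_lit 0), [⟨(nat_lit 1), (nat_lit 92), (nat_lit 23), (nat_lit 100), (nat_lit 402003958)⟩], [], [], [⟨(nat_lit 1), (nat_lit 94), (nat_lit 97), (nat_lit 100), (nat_lit 54280999)⟩],
 ⟨⟨[(nat_lit 40), (nat_lit 80), (nat_lit 100)], [(nat_lit 0), (nat_lit 3225), (nat_lit 4371)], [((nat_lit 0), (nat_lit 0), (nat_lit 0)), ((nat_lit 1000), (nat_lit 321), (nat_lit 877)), ((nat_lit 1000), (nat_lit 317), (nat_lit 896))], ((nat_lit 31), (nat_lit 100), (nat_lit 94))⟩, (nat_lit 360909), (nat_lit 163), (nat_lit 163), (nat_lit 0), (nat_lit 116280), [(nat_lit 1627706804), (nat_lit 2581896755), (nat_lit 3380597200)], [(nat_lit 0), (nat_lit 0), (nat_lit 0)], [(nat_lit 27098878961), (nat_lit 27762799244), (nat_lit 28810123656), (nat_lit 29513426011), (nat_lit 26737066141), (nat_lit 27237321757), (nat_lit 28053103557), (nat_lit 28574383796)], (nat_lit 1271251), (nat_lit 1271251), (nat_lit 1271251), (nat_lit 1271251), (nat_lit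 356250), (nat_lit 1100000), [(nat_lit 490000), (nat_lit 1100000), (nat_lit 1442501)], [(nat_lit 3), (nat_lit 50), (nat_lit 249), (nat_lit 40), (nat_lit 8)]⟩,
 ⟨⟨[(nat_lit 80), (nat_lit 140), (nat_lit 200)], [(nat_lit 0), (nat_lit 0), (nat_lit 5481)], [((nat_lit 0), (nat_lit 0), (nat_lit 0)), ((nat_lit 0), (nat_lit 0), (nat_lit 0)), ((nat_lit 637), (nat_lit 1000), (nat_lit 908))], ((nat_lit 0), (nat_lit 0), (nat_lit 0))⟩, (nat_lit 823883), (nat_lit 422), (nat_lit 422), (nat_lit 0), (nat_lit 442996), [(nat_lit 1748624000), (nat_lit 3671066000), (nat_lit 6117200000)], [], [(nat_lit 10914622754), (nat_lit 11030400688), (nat_lit 11309411577), (nat_lit 11505297103), (nat_lit 12490983463), (nat_lit 12579177108), (nat_lit 12903465727), (nat_lit 13225880756)], (nat_lit 1271251), (nat_lit 1271251), (nat_lit 1271251), (nat_lit 1271251), (nat_lit 1271251), (nat_lit 1271251), [(nat_lit 1100000), (nat_lit 2127501), (nat_lit 1271251)], [(nat_lit 20), (nat_lit 64),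 (nat_lit 483), (nat_lit 250), (nat_lit 9)]⟩,
 ⟨⟨[(nat_lit 140), (nat_lit 180), (nat_lit 200)], [(nat_lit 0), (nat_lit 0), (nat_lit 2835)], [((nat_lit 0), (nat_lit 0), (nat_lit 0)), ((nat_lit 0), (nat_lit 0), (nat_lit 0)), ((nat_lit 363), (nat_lit 1000), (nat_lit 798))], ((nat_lit 0), (nat_lit 0), (nat_lit 0))⟩, (nat_lit 26688), (nat_lit 300), (nat_lit 1094), (nat_lit 7575700), (nat_lit 1477007), [(nat_lit 954674000), (nat_lit 1363626000), (nat_lit 1590800000)], [], [(nat_lit 6359676965), (nat_lit 6096473615), (nat_lit 5762867396), (nat_lit 5504709670), (nat_lit 6115182300), (nat_lit 5845763347), (nat_lit 5481019978), (nat_lit 5218215492)], (nat_lit 780000), (nat_lit 1271251), (nat_lit 356250), (nat_lit 1100000), (nat_lit 1271251), (nat_lit 1271251), [(nat_lit 1977501), (nat_lit 1271251), (nat_lit 1271251)], [(nat_lit 32), (nat_lit 67), (nat_lit 428), (nat_lit 200), (nat_lit 9)]⟩⟩)) (.leaf ⟨(nat_lit 320), (nat_lit 549), (nat_lit 0), (nat_lit 131),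 (nat_lit 0), (nat_lit 3842), (nat_lit 6047), (nat_lit 1556), (nat_lit 0), (nat_lit 0), (nat_lit 83200), [((nat_lit 400), [((nat_lit 42), (nat_lit 0), (nat_lit 320))])], ⟨(nat_lit 7), false, true, true, (nat_lit 291), (nat_lit 0), (nat_lit 1582), [(nat_lit 1679215), (nat_lit 1674999), (nat_lit 1702515), (nat_lit 1699984), (nat_lit 1761166), (nat_lit 1749996), (nat_lit 1784482), (nat_lit 1774996)]⟩, ⟨(nat_lit 3), false, false, false, (nat_lit 128), (nat_lit 0), (nat_lit 1582), [(nat_lit 1213552), (nat_lit 1223038), (nat_lit 1281527), (nat_lit 1296068), (nat_lit 1352101), (nat_lit 1349997), (nat_lit 1421394), (nat_lit 1424345)]⟩, (nat_lit 4743596), (nat_lit 39476423), (nat_lit 21663240), (nat_lit 5860337), (nat_lit 5), (nat_lit 0), [], [], [⟨(nat_lit 1), (nat_lit 59), (nat_lit 97), (nat_lit 100), (nat_lit 56488015)⟩], [⟨(nat_lit 1), (nat_lit 97), (nat_lit 94), (nat_lit 100), (nat_lit 57641329)⟩],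
 ⟨⟨[(nat_lit 40), (nat_lit 80), (nat_lit 100)], [(nat_lit 0), (nat_lit 3225), (nat_lit 4371)], [((nat_lit 0), (nat_lit 0), (nat_lit 0)), ((nat_lit 1000), (nat_lit 321), (nat_lit 877)), ((nat_lit 1000), (nat_lit 317), (nat_lit 896))], ((nat_lit 31), (nat_lit 100), (nat_lit 94))⟩, (nat_lit 707296), (nat_lit 175), (nat_lit 175), (nat_lit 0), (nat_lit 141462), [(nat_lit 1711088020), (nat_lit 3718496905), (nat_lit 4785552000)], [(nat_lit 0), (nat_lit 0), (nat_lit 0)], [(nat_lit 27181646555), (nat_lit 27972361812), (nat_lit 30185824315), (nat_lit 30861397775), (nat_lit 26595746550), (nat_lit 27102599504), (nat_lit 29128311811), (nat_lit 29736269044)], (nat_lit 1271251), (nat_lit 1271251), (nat_lit 1271251), (nat_lit 1271251), (nat_lit 356250), (nat_lit 1100000), [(nat_lit 490000), (nat_lit 1100000), (nat_lit 1442501)], [(nat_lit 3), (nat_lit 50), (nat_lit 249), (nat_lit 40), (nat_lit 8)]⟩,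
 ⟨⟨[(nat_lit 80), (nat_lit 140), (nat_lit 180)], [(nat_lit 0), (nat_lit 792), (nat_lit 4228)], [((nat_lit 0), (nat_lit 0), (nat_lit 0)), ((nat_lit 1000), (nat_lit 959), (nat_lit 206)), ((nat_lit 709), (nat_lit 1000), (nat_lit 949))], ((nat_lit 100), (nat_lit 64), (nat_lit 99))⟩, (nat_lit 1267093), (nat_lit 379), (nat_lit 379), (nat_lit 0), (nat_lit 473061), [(nat_lit 3187840000), (nat_lit 6692560000), (nat_lit 9559440000)], [], [(nat_lit 21076369172), (nat_lit 21364717781), (nat_lit 22209920374), (nat_lit 22421192150), (nat_lit 23248245789), (nat_lit 23443834675), (nat_lit 24231223211), (nat_lit 24403214854)], (nat_lit 1271251), (nat_lit 1271251), (nat_lit 1271251), (nat_lit 1271251), (nat_lit 1271251), (nat_lit 1271251), [(nat_lit 1100000), (nat_lit 2127501), (nat_lit 1271251)], [(nat_lit 19), (nat_lit 63), (nat_lit 483), (nat_lit 250), (nat_lit 10)]⟩,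
 ⟨⟨[(nat_lit 140), (nat_lit 180), (nat_lit 200)], [(nat_lit 0), (nat_lit 0), (nat_lit 2835)], [((nat_lit 0), (nat_lit 0), (nat_lit 0)), ((nat_lit 0), (nat_lit 0), (nat_lit 0)), ((nat_lit 363), (nat_lit 1000), (nat_lit 798))], ((nat_lit 0), (nat_lit 0), (nat_lit 0))⟩, (nat_lit 36042), (nat_lit 300), (nat_lit 1245), (nat_lit 10231105), (nat_lit 1805217), [(nat_lit 1289302000), (nat_lit 1841598000), (nat_lit 2148400000)], [], [(nat_lit 8680843144), (nat_lit 8333518781), (nat_lit 7892341504), (nat_lit 7551225699), (nat_lit 8313300735), (nat_lit 7957860943), (nat_lit 7474978773), (nat_lit 7128261585)], (nat_lit 780000), (nat_lit 1271251), (nat_lit 356250), (nat_lit 1100000), (nat_lit 1271251), (nat_lit 1271251), [(nat_lit 1977501), (nat_lit 1271251), (nat_lit 1271251)], [(nat_lit 32), (nat_lit 67), (nat_lit 428), (nat_lit 200), (nat_lit 9)]⟩⟩))))))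
noncomputable def c14_112 : Tr Lf :=
 (.spl (nat_lit 6) (nat_lit 112) (.spl (nat_lit 0) (nat_lit 390) (.leaf ⟨(nat_lit 0), (nat_lit 1000), (nat_lit 0), (nat_lit 0), (nat_lit 8367), (nat_lit 7015), (nat_lit 8374), (nat_lit 0), (nat_lit 0), (nat_lit 0), (nat_lit 0), [], Pd.none, Pd.none, (nat_lit 0), (nat_lit 1), (nat_lit 0), (nat_lit 0), (nat_lit 4), (nat_lit 0), [], [⟨(nat_lit 1), (nat_lit 100), (nat_lit 38), (nat_lit 98), (nat_lit 596196499)⟩], [], [⟨(nat_lit 0), (nat_lit 100), (nat_lit 80), (nat_lit 66), (nat_lit 152230366)⟩],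
 ⟨⟨[(nat_lit 40), (nat_lit 80), (nat_lit 100)], [(nat_lit 0), (nat_lit 2514), (nat_lit 3562)], [((nat_lit 0), (nat_lit 0), (nat_lit 0)), ((nat_lit 1000), (nat_lit 446), (nat_lit 804)), ((nat_lit 1000), (nat_lit 443), (nat_lit 819))], ((nat_lit 44), (nat_lit 100), (nat_lit 90))⟩, (nat_lit 0), (nat_lit 140), (nat_lit 140), (nat_lit 0), (nat_lit 156324), [(nat_lit 2567236356), (nat_lit 5247204850), (nat_lit 6250000000)], [], [(nat_lit 29369163775), (nat_lit 30153296318), (nat_lit 33868300473), (nat_lit 34655955037), (nat_lit 31403389245), (nat_lit 32134828440), (nat_lit 35381262671), (nat_lit 36010345765)], (nat_lit 1271251), (nat_lit 1271251), (nat_lit 1271251), (nat_lit 1271251), (nat_lit 1100000), (nat_lit 2041876), [(nat_lit 490000), (nat_lit 1100000), (nat_lit 1442501)], [(nat_lit 3), (nat_lit 50), (nat_lit 289), (nat_lit 75), (nat_lit 9)]⟩,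
 ⟨⟨[(nat_lit 80), (nat_lit 140), (nat_lit 180)], [(nat_lit 0), (nat_lit 0), (nat_lit 3656)], [((nat_lit 0), (nat_lit 0), (nat_lit 0)), ((nat_lit 0), (nat_lit 0), (nat_lit 0)), ((nat_lit 637), (nat_lit 1000), (nat_lit 908))], ((nat_lit 100), (nat_lit 62), (nat_lit 92))⟩, (nat_lit 2142502), (nat_lit 432), (nat_lit 432), (nat_lit 0), (nat_lit 280463), [(nat_lit 4688000000), (nat_lit 9842000000), (nat_lit 14058000000)], [], [(nat_lit 39856636952), (nat_lit 41016456606), (nat_lit 43425835612), (nat_lit 44588964288), (nat_lit 33817256076), (nat_lit 34977171017), (nat_lit 37394066424), (nat_lit 38423305011)], (nat_lit 1271251), (nat_lit 1271251), (nat_lit 1271251), (nat_lit 1271251), (nat_lit 0), (nat_lit 780000), [(nat_lit 1100000), (nat_lit 2127501), (nat_lit 1271251)], [(nat_lit 19), (nat_lit 63), (nat_lit 428), (nat_lit 200), (nat_lit 10)]⟩,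
 Rw.none⟩) (.trX (nat_lit 3) (nat_lit 0) (nat_lit 1) (nat_lit 34) (nat_lit 81) (nat_lit 100) (nat_lit 340) (.trX (nat_lit 4) (nat_lit 0) (nat_lit 2) (nat_lit 31) (nat_lit 98) (nat_lit 100) (nat_lit 250) (.leaf ⟨(nat_lit 0), (nat_lit 1000), (nat_lit 0), (nat_lit 0), (nat_lit 6322), (nat_lit 4324), (nat_lit 7512), (nat_lit 0), (nat_lit 0), (nat_lit 0), (nat_lit 0), [], Pd.none, Pd.none, (nat_lit 0), (nat_lit 1), (nat_lit 0), (nat_lit 0), (nat_lit 4), (nat_lit 0), [], [⟨(nat_lit 1), (nat_lit 100), (nat_lit 22), (nat_lit 97), (nat_lit 1125236977)⟩], [], [⟨(nat_lit 0), (nat_lit 100), (nat_lit 84), (nat_lit 57), (nat_lit 105188437)⟩],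
 ⟨⟨[(nat_lit 40), (nat_lit 80), (nat_lit 100)], [(nat_lit 0), (nat_lit 3225), (nat_lit 4371)], [((nat_lit 0), (nat_lit 0), (nat_lit 0)), ((nat_lit 1000), (nat_lit 321), (nat_lit 877)), ((nat_lit 1000), (nat_lit 317), (nat_lit 896))], ((nat_lit 32), (nat_lit 100), (nat_lit 91))⟩, (nat_lit 836171), (nat_lit 155), (nat_lit 155), (nat_lit 0), (nat_lit 215210), [(nat_lit 2032006660), (nat_lit 4688240597), (nat_lit 6250000000)], [], [(nat_lit 27292824990), (nat_lit 27894125135), (nat_lit 29752858551), (nat_lit 30396166568), (nat_lit 28839712170), (nat_lit 29388777827), (nat_lit 31172489712), (nat_lit 31722255954)], (nat_lit 1271251), (nat_lit 1271251), (nat_lit 1271251), (nat_lit 1271251), (nat_lit 1100000), (nat_lit 1870626), [(nat_lit 490000), (nat_lit 1100000), (nat_lit 1442501)], [(nat_lit 3), (nat_lit 50), (nat_lit 289), (nat_lit 75), (nat_lit 9)]⟩,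
 ⟨⟨[(nat_lit 80), (nat_lit 140), (nat_lit 180)], [(nat_lit 0), (nat_lit 0), (nat_lit 3656)], [((nat_lit 0), (nat_lit 0), (nat_lit 0)), ((nat_lit 0), (nat_lit 0), (nat_lit 0)), ((nat_lit 637), (nat_lit 1000), (nat_lit 908))], ((nat_lit 100), (nat_lit 62), (nat_lit 92))⟩, (nat_lit 2096476), (nat_lit 478), (nat_lit 478), (nat_lit 0), (nat_lit 406048), [(nat_lit 4688000000), (nat_lit 9842000000), (nat_lit 14058000000)], [], [(nat_lit 40531560576), (nat_lit 41667484728), (nat_lit 42764066600), (nat_lit 44008684508), (nat_lit 35293731088), (nat_lit 36429601796), (nat_lit 37657311968), (nat_lit 38765996316)], (nat_lit 1271251), (nat_lit 1271251), (nat_lit 1271251), (nat_lit 1271251), (nat_lit 0), (nat_lit 780000), [(nat_lit 1100000), (nat_lit 2127501), (nat_lit 1271251)], [(nat_lit 19), (nat_lit 63), (nat_lit 428), (nat_lit 200), (nat_lit 10)]⟩,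
 Rw.none⟩)))) (.spl (nat_lit 0) (nat_lit 390) (.leaf ⟨(nat_lit 0), (nat_lit 1000), (nat_lit 0), (nat_lit 0), (nat_lit 22112), (nat_lit 8452), (nat_lit 9990), (nat_lit 0), (nat_lit 0), (nat_lit 0), (nat_lit 0), [], Pd.none, Pd.none, (nat_lit 0), (nat_lit 1), (nat_lit 0), (nat_lit 0), (nat_lit 4), (nat_lit 0), [], [⟨(nat_lit 1), (nat_lit 100), (nat_lit 38), (nat_lit 98), (nat_lit 442622473)⟩], [], [⟨(nat_lit 0), (nat_lit 100), (nat_lit 80), (nat_lit 66), (nat_lit 212170690)⟩],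
 ⟨⟨[(nat_lit 40), (nat_lit 80), (nat_lit 120)], [(nat_lit 0), (nat_lit 2514), (nat_lit 4610)], [((nat_lit 0), (nat_lit 0), (nat_lit 0)), ((nat_lit 1000), (nat_lit 446), (nat_lit 804)), ((nat_lit 1000), (nat_lit 443), (nat_lit 819))], ((nat_lit 44), (nat_lit 100), (nat_lit 95))⟩, (nat_lit 0), (nat_lit 130), (nat_lit 130), (nat_lit 0), (nat_lit 59536), [(nat_lit 3072066746), (nat_lit 6610793446), (nat_lit 7968000000)], [], [(nat_lit 31395668282), (nat_lit 32204904045), (nat_lit 35798955238), (nat_lit 36682823059), (nat_lit 32983523024), (nat_lit 33624907981), (nat_lit 37102230217), (nat_lit 37800813187)], (nat_lit 1271251), (nat_lit 1271251), (nat_lit 1271251), (nat_lit 1271251), (nat_lit 1100000), (nat_lit 2041876), [(nat_lit 490000), (nat_lit 1100000), (nat_lit 1785001)], [(nat_lit 4), (nat_lit 51), (nat_lit 289), (nat_lit 75), (nat_lit 8)]⟩,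
 ⟨⟨[(nat_lit 80), (nat_lit 140), (nat_lit 200)], [(nat_lit 0), (nat_lit 0), (nat_lit 5481)], [((nat_lit 0), (nat_lit 0), (nat_lit 0)), ((nat_lit 0), (nat_lit 0), (nat_lit 0)), ((nat_lit 637), (nat_lit 1000), (nat_lit 908))], ((nat_lit 0), (nat_lit 0), (nat_lit 0))⟩, (nat_lit 2461045), (nat_lit 422), (nat_lit 422), (nat_lit 0), (nat_lit 107592), [(nat_lit 4688000000), (nat_lit 9842000000), (nat_lit 16400000000)], [], [(nat_lit 38516280055), (nat_lit 39445804385), (nat_lit 42573917935), (nat_lit 43676832955), (nat_lit 30728475310), (nat_lit 32254284545), (nat_lit 34934637240), (nat_lit 35991914235)], (nat_lit 1271251), (nat_lit 1271251), (nat_lit 1271251), (nat_lit 1271251), (nat_lit 0), (nat_lit 780000), [(nat_lit 1100000), (nat_lit 2127501), (nat_lit 1271251)], [(nat_lit 20), (nat_lit 64), (nat_lit 428), (nat_lit 200), (nat_lit 9)]⟩,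
 Rw.none⟩) (.trX (nat_lit 3) (nat_lit 0) (nat_lit 1) (nat_lit 34) (nat_lit 81) (nat_lit 100) (nat_lit 340) (.trX (nat_lit 4) (nat_lit 0) (nat_lit 2) (nat_lit 31) (nat_lit 98) (nat_lit 100) (nat_lit 250) (.leaf ⟨(nat_lit 0), (nat_lit 1000), (nat_lit 0), (nat_lit 0), (nat_lit 18880), (nat_lit 6863), (nat_lit 6370), (nat_lit 0), (nat_lit 0), (nat_lit 0), (nat_lit 0), [], Pd.none, Pd.none, (nat_lit 0), (nat_lit 1), (nat_lit 0), (nat_lit 0), (nat_lit 4), (nat_lit 0), [], [⟨(nat_lit 1), (nat_lit 100), (nat_lit 22), (nat_lit 97), (nat_lit 1251325405)⟩], [], [⟨(nat_lit 0), (nat_lit 100), (nat_lit 84), (nat_lit 57), (nat_lit 17979263)⟩],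
 ⟨⟨[(nat_lit 40), (nat_lit 80), (nat_lit 100)], [(nat_lit 0), (nat_lit 3225), (nat_lit 4371)], [((nat_lit 0), (nat_lit 0), (nat_lit 0)), ((nat_lit 1000), (nat_lit 321), (nat_lit 877)), ((nat_lit 1000), (nat_lit 317), (nat_lit 896))], ((nat_lit 31), (nat_lit 100), (nat_lit 94))⟩, (nat_lit 0), (nat_lit 130), (nat_lit 130), (nat_lit 0), (nat_lit 123740), [(nat_lit 2548024331), (nat_lit 5256656440), (nat_lit 6250000000)], [], [(nat_lit 30198150834), (nat_lit 30971974812), (nat_lit 33042742728), (nat_lit 33872265766), (nat_lit 31478047696), (nat_lit 32127768099), (nat_lit 34084401608), (nat_lit 34779598517)], (nat_lit 1271251), (nat_lit 1271251), (nat_lit 1271251), (nat_lit 1271251), (nat_lit 1100000), (nat_lit 1870626), [(nat_lit 490000), (nat_lit 1100000), (nat_lit 1442501)], [(nat_lit 3), (nat_lit 50), (nat_lit 289), (nat_lit 75), (nat_lit 9)]⟩,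
 ⟨⟨[(nat_lit 80), (nat_lit 140), (nat_lit 200)], [(nat_lit 0), (nat_lit 0), (nat_lit 5481)], [((nat_lit 0), (nat_lit 0), (nat_lit 0)), ((nat_lit 0), (nat_lit 0), (nat_lit 0)), ((nat_lit 637), (nat_lit 1000), (nat_lit 908))], ((nat_lit 0), (nat_lit 0), (nat_lit 0))⟩, (nat_lit 2138405), (nat_lit 468), (nat_lit 468), (nat_lit 0), (nat_lit 236426), [(nat_lit 4688000000), (nat_lit 9842000000), (nat_lit 16400000000)], [], [(nat_lit 41747765295), (nat_lit 42663523800), (nat_lit 43726437780), (nat_lit 44736506645), (nat_lit 38089939480), (nat_lit 39184089270), (nat_lit 40131507460), (nat_lit 41026865558)], (nat_lit 1271251), (nat_lit 1271251), (nat_lit 1271251), (nat_lit 1271251), (nat_lit 0), (nat_lit 780000), [(nat_lit 1100000), (nat_lit 2127501), (nat_lit 1271251)], [(nat_lit 20), (nat_lit 64), (nat_lit 428), (nat_lit 200), (nat_lit 9)]⟩,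
 Rw.none⟩)))))
noncomputable def c14_113 : Tr Lf :=
 (.spl (nat_lit 5) (nat_lit 280) (.spl (nat_lit 0) (nat_lit 390) (.leaf ⟨(nat_lit 0), (nat_lit 832), (nat_lit 0), (nat_lit 168), (nat_lit 6598), (nat_lit 4091), (nat_lit 11141), (nat_lit 1952), (nat_lit 0), (nat_lit 0), (nat_lit 0), [], Pd.none, Pd.none, (nat_lit 0), (nat_lit 1), (nat_lit 0), (nat_lit 0), (nat_lit 4), (nat_lit 0), [], [⟨(nat_lit 1), (nat_lit 100), (nat_lit 38), (nat_lit 98), (nat_lit 400566139)⟩], [], [],
 ⟨⟨[(nat_lit 40), (nat_lit 80), (nat_lit 120)], [(nat_lit 0), (nat_lit 2514), (nat_lit 4610)], [((nat_lit 0), (nat_lit 0), (nat_lit 0)), ((nat_lit 1000), (nat_lit 446), (nat_lit 804)), ((nat_lit 1000), (nat_lit 443), (nat_lit 819))], ((nat_lit 44), (nat_lit 100), (nat_lit 95))⟩, (nat_lit 1304861), (nat_lit 157), (nat_lit 157), (nat_lit 0), (nat_lit 157421), [(nat_lit 2032000010), (nat_lit 5445600127), (nat_lit 7968000000)], [], [(nat_lit 27067014398), (nat_lit 27582730301), (nat_lit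 30079785563), (nat_lit 30531694704), (nat_lit 29044954207), (nat_lit 29495943219), (nat_lit 31879447011), (nat_lit 32367112123)], (nat_lit 1271251), (nat_lit 1271251), (nat_lit 1271251), (nat_lit 1271251), (nat_lit 1100000), (nat_lit 2041876), [(nat_lit 490000), (nat_lit 1100000), (nat_lit 1785001)], [(nat_lit 4), (nat_lit 51), (nat_lit 289), (nat_lit 75), (nat_lit 8)]⟩,
 ⟨⟨[(nat_lit 80), (nat_lit 140), (nat_lit 200)], [(nat_lit 0), (nat_lit 0), (nat_lit 5481)], [((nat_lit 0), (nat_lit 0), (nat_lit 0)), ((nat_lit 0), (nat_lit 0), (nat_lit 0)), ((nat_lit 637), (nat_lit 1000), (nat_lit 908))], ((nat_lit 0), (nat_lit 0), (nat_lit 0))⟩, (nat_lit 2320323), (nat_lit 416), (nat_lit 416), (nat_lit 0), (nat_lit 338262), [(nat_lit 4688000000), (nat_lit 9842000000), (nat_lit 16400000000)], [], [(nat_lit 29852963167), (nat_lit 31124370458), (nat_lit 34142411478), (nat_lit 35159340699), (nat_lit 29215895324), (nat_lit 30170854139), (nat_lit 32281641808), (nat_lit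 33606440072)], (nat_lit 1271251), (nat_lit 1271251), (nat_lit 1271251), (nat_lit 1271251), (nat_lit 780000), (nat_lit 2090001), [(nat_lit 1100000), (nat_lit 2127501), (nat_lit 1271251)], [(nat_lit 20), (nat_lit 64), (nat_lit 483), (nat_lit 250), (nat_lit 10)]⟩,
 ⟨⟨[(nat_lit 140), (nat_lit 180), (nat_lit 200)], [(nat_lit 0), (nat_lit 0), (nat_lit 2835)], [((nat_lit 0), (nat_lit 0), (nat_lit 0)), ((nat_lit 0), (nat_lit 0), (nat_lit 0)), ((nat_lit 363), (nat_lit 1000), (nat_lit 798))], ((nat_lit 0), (nat_lit 0), (nat_lit 0))⟩, (nat_lit 46222), (nat_lit 300), (nat_lit 1225), (nat_lit 13120804), (nat_lit 1802387), [(nat_lit 1653456000), (nat_lit 2361744000), (nat_lit 2755200000)], [], [(nat_lit 10957027264), (nat_lit 10516587372), (nat_lit 10341927382), (nat_lit 9897198621), (nat_lit 9953661232), (nat_lit 9510826264), (nat_lit 9370989988), (nat_lit 9843430694)], (nat_lit 780000), (nat_lit 1271251), (nat_lit 1100000), (nat_lit 2041876), (nat_lit 780000),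 (nat_lit 2090001), [(nat_lit 1977501), (nat_lit 1271251), (nat_lit 1271251)], [(nat_lit 32), (nat_lit 67), (nat_lit 428), (nat_lit 200), (nat_lit 9)]⟩⟩) (.trX (nat_lit 3) (nat_lit 0) (nat_lit 1) (nat_lit 34) (nat_lit 81) (nat_lit 100) (nat_lit 340) (.trX (nat_lit 4) (nat_lit 0) (nat_lit 2) (nat_lit 31) (nat_lit 98) (nat_lit 100) (nat_lit 250) (.leaf ⟨(nat_lit 104), (nat_lit 767), (nat_lit 0), (nat_lit 129), (nat_lit 0), (nat_lit 4141), (nat_lit 9252), (nat_lit 1622), (nat_lit 0), (nat_lit 0), (nat_lit 27040), [((nat_lit 400), [((nat_lit 42), (nat_lit 0), (nat_lit 104))])], ⟨(nat_lit 7), false, true, true, (nat_lit 287), (nat_lit 0), (nat_lit 1582), [(nat_lit 1655899), (nat_lit 1649997), (nat_lit 1702515), (nat_lit 1699984), (nat_lit 1737850), (nat_lit 1724995), (nat_lit 1784482), (nat_lit 1774996)]⟩, ⟨(nat_lit 4), false, false, true, (nat_lit 178), (nat_lit 0), (nat_lit 1582), [(nat_lit 1352101), (nat_lit 1349997), (nat_lit 1421394), (nat_lit 1424345),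 (nat_lit 1475027), (nat_lit 1462493), (nat_lit 1544976), (nat_lit 1537497)]⟩, (nat_lit 5184334), (nat_lit 37364644), (nat_lit 20209342), (nat_lit 9426014), (nat_lit 4), (nat_lit 0), [], [⟨(nat_lit 1), (nat_lit 100), (nat_lit 22), (nat_lit 97), (nat_lit 1056483941)⟩], [], [],
 ⟨⟨[(nat_lit 40), (nat_lit 80), (nat_lit 100)], [(nat_lit 0), (nat_lit 3225), (nat_lit 4371)], [((nat_lit 0), (nat_lit 0), (nat_lit 0)), ((nat_lit 1000), (nat_lit 321), (nat_lit 877)), ((nat_lit 1000), (nat_lit 317), (nat_lit 896))], ((nat_lit 31), (nat_lit 100), (nat_lit 94))⟩, (nat_lit 839765), (nat_lit 155), (nat_lit 155), (nat_lit 0), (nat_lit 216765), [(nat_lit 1898256003), (nat_lit 4429225660), (nat_lit 5774054400)], [(nat_lit 0), (nat_lit 0), (nat_lit 0)], [(nat_lit 26854842370), (nat_lit 27444061669), (nat_lit 29515738108), (nat_lit 30145624562), (nat_lit 28573751343), (nat_lit 29198253462), (nat_lit 30962611856), (nat_lit 31501896093)], (nat_lit 1271251), (nat_lit 1271251),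 (nat_lit 1271251), (nat_lit 1271251), (nat_lit 1100000), (nat_lit 1870626), [(nat_lit 490000), (nat_lit 1100000), (nat_lit 1442501)], [(nat_lit 3), (nat_lit 50), (nat_lit 289), (nat_lit 75), (nat_lit 9)]⟩,
 ⟨⟨[(nat_lit 80), (nat_lit 140), (nat_lit 200)], [(nat_lit 0), (nat_lit 0), (nat_lit 5481)], [((nat_lit 0), (nat_lit 0), (nat_lit 0)), ((nat_lit 0), (nat_lit 0), (nat_lit 0)), ((nat_lit 637), (nat_lit 1000), (nat_lit 908))], ((nat_lit 0), (nat_lit 0), (nat_lit 0))⟩, (nat_lit 1861011), (nat_lit 473), (nat_lit 473), (nat_lit 0), (nat_lit 486174), [(nat_lit 4200448000), (nat_lit 8818432000), (nat_lit 14694400000)], [], [(nat_lit 28936850557), (nat_lit 29662983389), (nat_lit 30559326925), (nat_lit 31506970574), (nat_lit 27652954497), (nat_lit 28481159005), (nat_lit 29484601703), (nat_lit 30056228393)], (nat_lit 1271251), (nat_lit 1271251), (nat_lit 1271251), (nat_lit 1271251), (nat_lit 780000), (nat_lit 2090001), [(nat_lit 1100000), (nat_lit 2127501),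 (nat_lit 1271251)], [(nat_lit 20), (nat_lit 64), (nat_lit 456), (nat_lit 225), (nat_lit 9)]⟩,
 ⟨⟨[(nat_lit 140), (nat_lit 180), (nat_lit 200)], [(nat_lit 0), (nat_lit 0), (nat_lit 2835)], [((nat_lit 0), (nat_lit 0), (nat_lit 0)), ((nat_lit 0), (nat_lit 0), (nat_lit 0)), ((nat_lit 363), (nat_lit 1000), (nat_lit 798))], ((nat_lit 0), (nat_lit 0), (nat_lit 0))⟩, (nat_lit 35492), (nat_lit 300), (nat_lit 1614), (nat_lit 10074901), (nat_lit 2637791), [(nat_lit 1269618000), (nat_lit 1813482000), (nat_lit 2115600000)], [], [(nat_lit 8076921732), (nat_lit 7548608463), (nat_lit 7503015221), (nat_lit 7137002098), (nat_lit 7129222918), (nat_lit 6786256097), (nat_lit 6773645774), (nat_lit 7358152447)], (nat_lit 780000), (nat_lit 1271251), (nat_lit 1100000), (nat_lit 1870626), (nat_lit 780000), (nat_lit 2090001), [(nat_lit 1977501), (nat_lit 1271251), (nat_lit 1271251)], [(nat_lit 32), (nat_lit 67), (nat_lit 493), (nat_lit 200), (nat_lit 10)]⟩⟩)))) (.stt (nat_lit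 2) (.leaf ⟨(nat_lit 0), (nat_lit 944), (nat_lit 0), (nat_lit 56), (nat_lit 18364), (nat_lit 4253), (nat_lit 5670), (nat_lit 634), (nat_lit 0), (nat_lit 0), (nat_lit 0), [], Pd.none, Pd.none, (nat_lit 0), (nat_lit 1), (nat_lit 0), (nat_lit 0), (nat_lit 7), (nat_lit 0), [⟨(nat_lit 1), (nat_lit 85), (nat_lit 33), (nat_lit 100), (nat_lit 110498920)⟩], [⟨(nat_lit 1), (nat_lit 100), (nat_lit 31), (nat_lit 97), (nat_lit 730193899)⟩], [⟨(nat_lit 1), (nat_lit 55), (nat_lit 99), (nat_lit 100), (nat_lit 493519877)⟩], [],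
 ⟨⟨[(nat_lit 40), (nat_lit 80), (nat_lit 120)], [(nat_lit 0), (nat_lit 2514), (nat_lit 4610)], [((nat_lit 0), (nat_lit 0), (nat_lit 0)), ((nat_lit 1000), (nat_lit 446), (nat_lit 804)), ((nat_lit 1000), (nat_lit 443), (nat_lit 819))], ((nat_lit 44), (nat_lit 100), (nat_lit 95))⟩, (nat_lit 1286705), (nat_lit 176), (nat_lit 176), (nat_lit 0), (nat_lit 219565), [(nat_lit 2032000552), (nat_lit 4883525200), (nat_lit 7968000000)], [], [(nat_lit 27155577535), (nat_lit 28151058462), (nat_lit 30157466470), (nat_lit 31362920320), (nat_lit 29052202260), (nat_lit 29967627525), (nat_lit 32073460053), (nat_lit 33064460397)], (nat_lit 1271251), (nat_lit 1271251), (nat_lit 1271251), (nat_lit 1271251), (nat_lit 1100000), (nat_lit 2041876), [(nat_lit 490000), (nat_lit 1100000), (nat_lit 1785001)], [(nat_lit 4), (nat_lit 51), (nat_lit 289), (nat_lit 75), (nat_lit 8)]⟩,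
 ⟨⟨[(nat_lit 80), (nat_lit 140), (nat_lit 200)], [(nat_lit 0), (nat_lit 0), (nat_lit 5481)], [((nat_lit 0), (nat_lit 0), (nat_lit 0)), ((nat_lit 0), (nat_lit 0), (nat_lit 0)), ((nat_lit 637), (nat_lit 1000), (nat_lit 908))], ((nat_lit 0), (nat_lit 0), (nat_lit 0))⟩, (nat_lit 0), (nat_lit 114), (nat_lit 114), (nat_lit 0), (nat_lit 0), [(nat_lit 4688000000), (nat_lit 9842000000), (nat_lit 16400000000)], [], [(nat_lit 23241361000), (nat_lit 25103934515), (nat_lit 27878590510), (nat_lit 29311602495), (nat_lit 30442147680), (nat_lit 31834644990), (nat_lit 34116708140), (nat_lit 35159151800)], (nat_lit 0), (nat_lit 0), (nat_lit 0), (nat_lit 0), (nat_lit 0), (nat_lit 0), [], [(nat_lit 20), (nat_lit 64), (nat_lit 538), (nat_lit 300), (nat_lit 10)]⟩,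
 ⟨⟨[(nat_lit 140), (nat_lit 180), (nat_lit 200)], [(nat_lit 0), (nat_lit 0), (nat_lit 2835)], [((nat_lit 0), (nat_lit 0), (nat_lit 0)), ((nat_lit 0), (nat_lit 0), (nat_lit 0)), ((nat_lit 363), (nat_lit 1000), (nat_lit 798))], ((nat_lit 0), (nat_lit 0), (nat_lit 0))⟩, (nat_lit 15407), (nat_lit 300), (nat_lit 1532), (nat_lit 4373606), (nat_lit 2637791), [(nat_lit 551152000), (nat_lit 787248000), (nat_lit 918400000)], [], [(nat_lit 3416247944), (nat_lit 3273258181), (nat_lit 3211590106), (nat_lit 3067639319), (nat_lit 3317992016), (nat_lit 3170627632), (nat_lit 3114988255), (nat_lit 2967884286)], (nat_lit 780000), (nat_lit 1271251), (nat_lit 1100000), (nat_lit 2041876), (nat_lit 1271251), (nat_lit 1271251), [(nat_lit 1977501), (nat_lit 1271251), (nat_lit 1271251)], [(nat_lit 32), (nat_lit 67), (nat_lit 490), (nat_lit 225), (nat_lit 10)]⟩⟩) (.spl (nat_lit 6) (nat_lit 112) (.spl (nat_lit 0) (nat_lit 390) (.leaf ⟨(nat_lit 0), (nat_lit 757), (nat_lit 0),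 (nat_lit 243), (nat_lit 0), (nat_lit 4808), (nat_lit 9165), (nat_lit 2820), (nat_lit 0), (nat_lit 0), (nat_lit 0), [], Pd.none, Pd.none, (nat_lit 0), (nat_lit 1), (nat_lit 0), (nat_lit 0), (nat_lit 7), (nat_lit 0), [], [⟨(nat_lit 1), (nat_lit 100), (nat_lit 38), (nat_lit 98), (nat_lit 261649829)⟩], [⟨(nat_lit 1), (nat_lit 55), (nat_lit 99), (nat_lit 100), (nat_lit 282802836)⟩], [],
 ⟨⟨[(nat_lit 40), (nat_lit 80), (nat_lit 100)], [(nat_lit 0), (nat_lit 2514), (nat_lit 3562)], [((nat_lit 0), (nat_lit 0), (nat_lit 0)), ((nat_lit 1000), (nat_lit 446), (nat_lit 804)), ((nat_lit 1000), (nat_lit 443), (nat_lit 819))], ((nat_lit 44), (nat_lit 100), (nat_lit 90))⟩, (nat_lit 739945), (nat_lit 126), (nat_lit 126), (nat_lit 0), (nat_lit 101587), [(nat_lit 2182634390), (nat_lit 5080737443), (nat_lit 6250000000)], [], [(nat_lit 27534433090), (nat_lit 28168887996), (nat_lit 31023943910), (nat_lit 31543012986), (nat_lit 29717276974), (nat_lit 30235892027), (nat_lit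 32738134366), (nat_lit 33260476870)], (nat_lit 1271251), (nat_lit 1271251), (nat_lit 1271251), (nat_lit 1271251), (nat_lit 1100000), (nat_lit 2041876), [(nat_lit 490000), (nat_lit 1100000), (nat_lit 1442501)], [(nat_lit 3), (nat_lit 50), (nat_lit 289), (nat_lit 75), (nat_lit 9)]⟩,
 ⟨⟨[(nat_lit 80), (nat_lit 140), (nat_lit 180)], [(nat_lit 0), (nat_lit 0), (nat_lit 3656)], [((nat_lit 0), (nat_lit 0), (nat_lit 0)), ((nat_lit 0), (nat_lit 0), (nat_lit 0)), ((nat_lit 637), (nat_lit 1000), (nat_lit 908))], ((nat_lit 100), (nat_lit 62), (nat_lit 92))⟩, (nat_lit 1851678), (nat_lit 278), (nat_lit 278), (nat_lit 0), (nat_lit 335214), [(nat_lit 4688000000), (nat_lit 9842000000), (nat_lit 14058000000)], [], [(nat_lit 30812759102), (nat_lit 31989249705), (nat_lit 34235972497), (nat_lit 35015250515), (nat_lit 36291646292), (nat_lit 36864760722), (nat_lit 38804538090), (nat_lit 39695102600)], (nat_lit 1271251), (nat_lit 1271251), (nat_lit 1271251), (nat_lit 1271251),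 (nat_lit 1271251), (nat_lit 1271251), [(nat_lit 1100000), (nat_lit 2127501), (nat_lit 1271251)], [(nat_lit 19), (nat_lit 63), (nat_lit 538), (nat_lit 300), (nat_lit 11)]⟩,
 ⟨⟨[(nat_lit 140), (nat_lit 180), (nat_lit 200)], [(nat_lit 0), (nat_lit 0), (nat_lit 2835)], [((nat_lit 0), (nat_lit 0), (nat_lit 0)), ((nat_lit 0), (nat_lit 0), (nat_lit 0)), ((nat_lit 363), (nat_lit 1000), (nat_lit 798))], ((nat_lit 0), (nat_lit 0), (nat_lit 0))⟩, (nat_lit 66857), (nat_lit 300), (nat_lit 878), (nat_lit 18978303), (nat_lit 1216831), [(nat_lit 2391606000), (nat_lit 3416094000), (nat_lit 3985200000)], [], [(nat_lit 14397687132), (nat_lit 13771924713), (nat_lit 13570116872), (nat_lit 12933607611), (nat_lit 14095184736), (nat_lit 13455042705), (nat_lit 13303402356), (nat_lit 12649366985)], (nat_lit 780000), (nat_lit 1271251), (nat_lit 1100000), (nat_lit 2041876), (nat_lit 1271251), (nat_lit 1271251), [(nat_lit 1977501), (nat_lit 1271251), (nat_lit 1271251)], [(nat_lit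 32), (nat_lit 67), (nat_lit 456), (nat_lit 225), (nat_lit 9)]⟩⟩) (.trX (nat_lit 3) (nat_lit 0) (nat_lit 1) (nat_lit 34) (nat_lit 81) (nat_lit 100) (nat_lit 340) (.trX (nat_lit 4) (nat_lit 0) (nat_lit 2) (nat_lit 31) (nat_lit 98) (nat_lit 100) (nat_lit 250) (.leaf ⟨(nat_lit 372), (nat_lit 497), (nat_lit 0), (nat_lit 131), (nat_lit 0), (nat_lit 3682), (nat_lit 5946), (nat_lit 1530), (nat_lit 0), (nat_lit 0), (nat_lit 93000), [((nat_lit 400), [((nat_lit 29), (nat_lit 0), (nat_lit 372))])], ⟨(nat_lit 7), false, true, true, (nat_lit 287), (nat_lit 0), (nat_lit 1582), [(nat_lit 1655899), (nat_lit 1649997), (nat_lit 1702515), (nat_lit 1699984), (nat_lit 1737850), (nat_lit 1724995), (nat_lit 1784482), (nat_lit 1774996)]⟩, ⟨(nat_lit 4), false, false, true, (nat_lit 178), (nat_lit 0), (nat_lit 1582), [(nat_lit 1352101), (nat_lit 1349997), (nat_lit 1421394), (nat_lit 1424345), (nat_lit 1475027), (nat_lit 1462493), (nat_lit 1544976), (nat_lit 1537497)]⟩, (nat_lit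 5184334), (nat_lit 37364644), (nat_lit 20209342), (nat_lit 9426014), (nat_lit 7), (nat_lit 0), [⟨(nat_lit 1), (nat_lit 91), (nat_lit 23), (nat_lit 100), (nat_lit 116423997)⟩], [⟨(nat_lit 1), (nat_lit 100), (nat_lit 22), (nat_lit 97), (nat_lit 645012831)⟩], [⟨(nat_lit 1), (nat_lit 55), (nat_lit 99), (nat_lit 100), (nat_lit 133886716)⟩], [⟨(nat_lit 1), (nat_lit 73), (nat_lit 85), (nat_lit 100), (nat_lit 24834556)⟩],
 ⟨⟨[(nat_lit 40), (nat_lit 80), (nat_lit 100)], [(nat_lit 0), (nat_lit 3225), (nat_lit 4371)], [((nat_lit 0), (nat_lit 0), (nat_lit 0)), ((nat_lit 1000), (nat_lit 321), (nat_lit 877)), ((nat_lit 1000), (nat_lit 317), (nat_lit 896))], ((nat_lit 32), (nat_lit 100), (nat_lit 91))⟩, (nat_lit 711708), (nat_lit 134), (nat_lit 134), (nat_lit 0), (nat_lit 139940), [(nat_lit 1710654410), (nat_lit 3784738736), (nat_lit 4589540800)], [(nat_lit 0), (nat_lit 0), (nat_lit 0)], [(nat_lit 26396117665), (nat_lit 26923664618), (nat_lit 28920993391), (nat_lit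 29517215924), (nat_lit 28129303336), (nat_lit 28720380874), (nat_lit 30436196905), (nat_lit 30949190210)], (nat_lit 1271251), (nat_lit 1271251), (nat_lit 1271251), (nat_lit 1271251), (nat_lit 1100000), (nat_lit 1870626), [(nat_lit 490000), (nat_lit 1100000), (nat_lit 1442501)], [(nat_lit 3), (nat_lit 50), (nat_lit 289), (nat_lit 75), (nat_lit 9)]⟩,
 ⟨⟨[(nat_lit 80), (nat_lit 140), (nat_lit 180)], [(nat_lit 0), (nat_lit 0), (nat_lit 3656)], [((nat_lit 0), (nat_lit 0), (nat_lit 0)), ((nat_lit 0), (nat_lit 0), (nat_lit 0)), ((nat_lit 637), (nat_lit 1000), (nat_lit 908))], ((nat_lit 100), (nat_lit 62), (nat_lit 92))⟩, (nat_lit 1008022), (nat_lit 369), (nat_lit 369), (nat_lit 0), (nat_lit 481777), [(nat_lit 2944064000), (nat_lit 6180776000), (nat_lit 8828424000)], [], [(nat_lit 21186612916), (nat_lit 21564461961), (nat_lit 22061380819), (nat_lit 22309956321), (nat_lit 23301430680), (nat_lit 23655852556), (nat_lit 24175388782), (nat_lit 24393303602)],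 (nat_lit 1271251), (nat_lit 1271251), (nat_lit 1271251), (nat_lit 1271251), (nat_lit 1271251), (nat_lit 1271251), [(nat_lit 1100000), (nat_lit 2127501), (nat_lit 1271251)], [(nat_lit 19), (nat_lit 63), (nat_lit 538), (nat_lit 300), (nat_lit 11)]⟩,
 ⟨⟨[(nat_lit 140), (nat_lit 180), (nat_lit 200)], [(nat_lit 0), (nat_lit 0), (nat_lit 2835)], [((nat_lit 0), (nat_lit 0), (nat_lit 0)), ((nat_lit 0), (nat_lit 0), (nat_lit 0)), ((nat_lit 363), (nat_lit 1000), (nat_lit 798))], ((nat_lit 0), (nat_lit 0), (nat_lit 0))⟩, (nat_lit 36042), (nat_lit 300), (nat_lit 1136), (nat_lit 10231105), (nat_lit 1789048), [(nat_lit 1289302000), (nat_lit 1841598000), (nat_lit 2148400000)], [], [(nat_lit 7721275964), (nat_lit 7381146066), (nat_lit 7326784717), (nat_lit 6982782725), (nat_lit 7573182272), (nat_lit 7225197785), (nat_lit 7189566941), (nat_lit 6836609899)], (nat_lit 780000), (nat_lit 1271251), (nat_lit 1100000), (nat_lit 1870626), (nat_lit 1271251), (nat_lit 1271251),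 [(nat_lit 1977501), (nat_lit 1271251), (nat_lit 1271251)], [(nat_lit 32), (nat_lit 67), (nat_lit 456), (nat_lit 225), (nat_lit 9)]⟩⟩)))) (.leaf ⟨(nat_lit 0), (nat_lit 724), (nat_lit 0), (nat_lit 276), (nat_lit 0), (nat_lit 4086), (nat_lit 8971), (nat_lit 3225), (nat_lit 0), (nat_lit 0), (nat_lit 0), [], Pd.none, Pd.none, (nat_lit 0), (nat_lit 1), (nat_lit 0), (nat_lit 0), (nat_lit 7), (nat_lit 0), [], [⟨(nat_lit 1), (nat_lit 100), (nat_lit 31), (nat_lit 97), (nat_lit 279777916)⟩], [⟨(nat_lit 1), (nat_lit 55), (nat_lit 99), (nat_lit 100), (nat_lit 228372898)⟩], [],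
 ⟨⟨[(nat_lit 40), (nat_lit 80), (nat_lit 120)], [(nat_lit 0), (nat_lit 2514), (nat_lit 4610)], [((nat_lit 0), (nat_lit 0), (nat_lit 0)), ((nat_lit 1000), (nat_lit 446), (nat_lit 804)), ((nat_lit 1000), (nat_lit 443), (nat_lit 819))], ((nat_lit 44), (nat_lit 100), (nat_lit 95))⟩, (nat_lit 1434306), (nat_lit 139), (nat_lit 139), (nat_lit 0), (nat_lit 83002), [(nat_lit 2032000024), (nat_lit 5281977555), (nat_lit 7968000000)], [], [(nat_lit 26475925072), (nat_lit 27513118684), (nat_lit 29933096709), (nat_lit 31116187840), (nat_lit 28598655435), (nat_lit 29787835842), (nat_lit 31873458954), (nat_lit 32848305533)], (nat_lit 1271251), (nat_lit 1271251), (nat_lit 1271251), (nat_lit 1271251), (nat_lit 1100000), (nat_lit 2041876), [(nat_lit 490000), (nat_lit 1100000), (nat_lit 1785001)], [(nat_lit 4), (nat_lit 51), (nat_lit 289), (nat_lit 75), (nat_lit 8)]⟩,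
 ⟨⟨[(nat_lit 80), (nat_lit 140), (nat_lit 200)], [(nat_lit 0), (nat_lit 0), (nat_lit 5481)], [((nat_lit 0), (nat_lit 0), (nat_lit 0)), ((nat_lit 0), (nat_lit 0), (nat_lit 0)), ((nat_lit 637), (nat_lit 1000), (nat_lit 908))], ((nat_lit 0), (nat_lit 0), (nat_lit 0))⟩, (nat_lit 1971881), (nat_lit 284), (nat_lit 284), (nat_lit 0), (nat_lit 280342), [(nat_lit 4688000000), (nat_lit 9842000000), (nat_lit 16400000000)], [], [(nat_lit 31959621736), (nat_lit 32879687857), (nat_lit 34795079140), (nat_lit 35371099258), (nat_lit 36546319435), (nat_lit 36942444538), (nat_lit 38862166566), (nat_lit 39443321640)], (nat_lit 1271251), (nat_lit 1271251), (nat_lit 1271251), (nat_lit 1271251), (nat_lit 1271251), (nat_lit 1271251), [(nat_lit 1100000), (nat_lit 2127501), (nat_lit 1271251)], [(nat_lit 20), (nat_lit 64), (nat_lit 538), (nat_lit 300), (nat_lit 10)]⟩,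
 ⟨⟨[(nat_lit 140), (nat_lit 180), (nat_lit 200)], [(nat_lit 0), (nat_lit 0), (nat_lit 2835)], [((nat_lit 0), (nat_lit 0), (nat_lit 0)), ((nat_lit 0), (nat_lit 0), (nat_lit 0)), ((nat_lit 363), (nat_lit 1000), (nat_lit 798))], ((nat_lit 0), (nat_lit 0), (nat_lit 0))⟩, (nat_lit 75937), (nat_lit 300), (nat_lit 795), (nat_lit 21555600), (nat_lit 1033218), [(nat_lit 2716392000), (nat_lit 3880008000), (nat_lit 4526400000)], [], [(nat_lit 16147022477), (nat_lit 15434887745), (nat_lit 15209078645), (nat_lit 14484011742), (nat_lit 15951820392), (nat_lit 15218221560), (nat_lit 15043317905), (nat_lit 14293891602)], (nat_lit 780000), (nat_lit 1271251), (nat_lit 1100000), (nat_lit 2041876), (nat_lit 1271251), (nat_lit 1271251), [(nat_lit 1977501), (nat_lit 1271251), (nat_lit 1271251)], [(nat_lit 32), (nat_lit 67), (nat_lit 456), (nat_lit 225), (nat_lit 9)]⟩⟩))))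
noncomputable def c14_114 : Tr Lf :=
 (.spl (nat_lit 5) (nat_lit 200) (.spl (nat_lit 0) (nat_lit 385) (.leaf ⟨(nat_lit 0), (nat_lit 1000), (nat_lit 0), (nat_lit 0), (nat_lit 0), (nat_lit 4439), (nat_lit 8545), (nat_lit 0), (nat_lit 0), (nat_lit 0), (nat_lit 0), [], Pd.none, Pd.none, (nat_lit 0), (nat_lit 1), (nat_lit 0), (nat_lit 0), (nat_lit 3), (nat_lit 0), [], [⟨(nat_lit 1), (nat_lit 100), (nat_lit 41), (nat_lit 96), (nat_lit 347323166)⟩], [], [⟨(nat_lit 0), (nat_lit 100), (nat_lit 79), (nat_lit 43), (nat_lit 15287918)⟩],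
 ⟨⟨[(nat_lit 40), (nat_lit 80), (nat_lit 120)], [(nat_lit 0), (nat_lit 2514), (nat_lit 4610)], [((nat_lit 0), (nat_lit 0), (nat_lit 0)), ((nat_lit 1000), (nat_lit 446), (nat_lit 804)), ((nat_lit 1000), (nat_lit 443), (nat_lit 819))], ((nat_lit 44), (nat_lit 100), (nat_lit 95))⟩, (nat_lit 1086868), (nat_lit 269), (nat_lit 269), (nat_lit 0), (nat_lit 260973), [(nat_lit 2032000242), (nat_lit 4800442872), (nat_lit 7968000000)], [], [(nat_lit 29449138615), (nat_lit 29770639760), (nat_lit 34181319969), (nat_lit 34504934731), (nat_lit 29345302917), (nat_lit 29588052984), (nat_lit 32789442411), (nat_lit 32980359124)], (nat_lit 1271251), (nat_lit 1271251), (nat_lit 1271251), (nat_lit 1271251), (nat_lit 230000), (nat_lit 1791876), [(nat_lit 490000), (nat_lit 1100000), (nat_lit 1785001)], [(nat_lit 4), (nat_lit 51), (nat_lit 289), (nat_lit 75), (nat_lit 8)]⟩,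
 ⟨⟨[(nat_lit 60), (nat_lit 120), (nat_lit 180)], [(nat_lit 0), (nat_lit 0), (nat_lit 4796)], [((nat_lit 0), (nat_lit 0), (nat_lit 0)), ((nat_lit 0), (nat_lit 0), (nat_lit 0)), ((nat_lit 802), (nat_lit 1000), (nat_lit 999))], ((nat_lit 97), (nat_lit 73), (nat_lit 100))⟩, (nat_lit 1903594), (nat_lit 463), (nat_lit 463), (nat_lit 0), (nat_lit 406907), [(nat_lit 3282000000), (nat_lit 7968000000), (nat_lit 14058000000)], [], [(nat_lit 37716504291), (nat_lit 38589091366), (nat_lit 42287260399), (nat_lit 43519883841), (nat_lit 30983935923), (nat_lit 32008108655), (nat_lit 34291059819), (nat_lit 34926434330)], (nat_lit 1271251), (nat_lit 1271251), (nat_lit 1271251), (nat_lit 1271251), (nat_lit 0), (nat_lit 1412501), [(nat_lit 780000), (nat_lit 1762501), (nat_lit 1271251)], [(nat_lit 13), (nat_lit 60), (nat_lit 456), (nat_lit 225), (nat_lit 10)]⟩,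
 Rw.none⟩) (.trZ (nat_lit 0) (nat_lit 2) (nat_lit 4) (nat_lit 100) (nat_lit 41) (nat_lit 76) (nat_lit 50) (.trX (nat_lit 4) (nat_lit 0) (nat_lit 2) (nat_lit 39) (nat_lit 100) (nat_lit 100) (nat_lit 240) (.leaf ⟨(nat_lit 0), (nat_lit 1000), (nat_lit 0), (nat_lit 0), (nat_lit 0), (nat_lit 4418), (nat_lit 7979), (nat_lit 0), (nat_lit 0), (nat_lit 0), (nat_lit 0), [], Pd.none, Pd.none, (nat_lit 0), (nat_lit 1), (nat_lit 0), (nat_lit 0), (nat_lit 3), (nat_lit 0), [], [⟨(nat_lit 1), (nat_lit 100), (nat_lit 35), (nat_lit 96), (nat_lit 428508616)⟩], [], [],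
 ⟨⟨[(nat_lit 40), (nat_lit 80), (nat_lit 120)], [(nat_lit 0), (nat_lit 2833), (nat_lit 5014)], [((nat_lit 0), (nat_lit 0), (nat_lit 0)), ((nat_lit 1000), (nat_lit 389), (nat_lit 842)), ((nat_lit 1000), (nat_lit 387), (nat_lit 852))], ((nat_lit 38), (nat_lit 100), (nat_lit 94))⟩, (nat_lit 1214848), (nat_lit 270), (nat_lit 270), (nat_lit 0), (nat_lit 286113), [(nat_lit 2032000021), (nat_lit 4981381307), (nat_lit 7968000000)], [], [(nat_lit 28337945764), (nat_lit 28656565921), (nat_lit 33983513780), (nat_lit 34304862548), (nat_lit 28291609639), (nat_lit 28499870563), (nat_lit 32700468600), (nat_lit 32953070963)], (nat_lit 1271251), (nat_lit 1271251), (nat_lit 1271251), (nat_lit 1271251), (nat_lit 292188), (nat_lit 1723125), [(nat_lit 490000), (nat_lit 1100000), (nat_lit 1785001)], [(nat_lit 4), (nat_lit 51), (nat_lit 272), (nat_lit 60), (nat_lit 8)]⟩,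
 ⟨⟨[(nat_lit 60), (nat_lit 120), (nat_lit 180)], [(nat_lit 0), (nat_lit 0), (nat_lit 4796)], [((nat_lit 0), (nat_lit 0), (nat_lit 0)), ((nat_lit 0), (nat_lit 0), (nat_lit 0)), ((nat_lit 802), (nat_lit 1000), (nat_lit 999))], ((nat_lit 97), (nat_lit 73), (nat_lit 100))⟩, (nat_lit 1833204), (nat_lit 479), (nat_lit 479), (nat_lit 0), (nat_lit 456556), [(nat_lit 3282000000), (nat_lit 7968000000), (nat_lit 14058000000)], [], [(nat_lit 39104167929), (nat_lit 39975150394), (nat_lit 42042307699), (nat_lit 43169140739), (nat_lit 33013987244), (nat_lit 33724696661), (nat_lit 35944035227), (nat_lit 36589300446)], (nat_lit 1271251), (nat_lit 1271251), (nat_lit 1271251), (nat_lit 1271251), (nat_lit 0), (nat_lit 1412501), [(nat_lit 780000), (nat_lit 1762501), (nat_lit 1271251)], [(nat_lit 13), (nat_lit 60), (nat_lit 456), (nat_lit 225), (nat_lit 10)]⟩,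
 Rw.none⟩)))) (.stt (nat_lit 2) (.leaf ⟨(nat_lit 0), (nat_lit 940), (nat_lit 0), (nat_lit 60), (nat_lit 5075), (nat_lit 4439), (nat_lit 7974), (nat_lit 696), (nat_lit 0), (nat_lit 0), (nat_lit 0), [], Pd.none, Pd.none, (nat_lit 0), (nat_lit 1), (nat_lit 0), (nat_lit 0), (nat_lit 5), (nat_lit 0), [], [⟨(nat_lit 1), (nat_lit 100), (nat_lit 38), (nat_lit 96), (nat_lit 207114034)⟩], [⟨(nat_lit 1), (nat_lit 77), (nat_lit 91), (nat_lit 100), (nat_lit 379998202)⟩], [],
 ⟨⟨[(nat_lit 40), (nat_lit 80), (nat_lit 120)], [(nat_lit 0), (nat_lit 2514), (nat_lit 4610)], [((nat_lit 0), (nat_lit 0), (nat_lit 0)), ((nat_lit 1000), (nat_lit 446), (nat_lit 804)), ((nat_lit 1000), (nat_lit 443), (nat_lit 819))], ((nat_lit 44), (nat_lit 100), (nat_lit 95))⟩, (nat_lit 1074343), (nat_lit 277), (nat_lit 277), (nat_lit 0), (nat_lit 286908), [(nat_lit 2032000078), (nat_lit 4797210449), (nat_lit 7968000000)], [], [(nat_lit 29506878865), (nat_lit 30149881155), (nat_lit 34181319969),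 (nat_lit 34828549493), (nat_lit 29403043167), (nat_lit 29888543300), (nat_lit 32847182661), (nat_lit 33228396041)], (nat_lit 1271251), (nat_lit 1271251), (nat_lit 1271251), (nat_lit 1271251), (nat_lit 230000), (nat_lit 1791876), [(nat_lit 490000), (nat_lit 1100000), (nat_lit 1785001)], [(nat_lit 4), (nat_lit 51), (nat_lit 289), (nat_lit 75), (nat_lit 8)]⟩,
 ⟨⟨[(nat_lit 60), (nat_lit 120), (nat_lit 180)], [(nat_lit 0), (nat_lit 0), (nat_lit 4796)], [((nat_lit 0), (nat_lit 0), (nat_lit 0)), ((nat_lit 0), (nat_lit 0), (nat_lit 0)), ((nat_lit 802), (nat_lit 1000), (nat_lit 999))], ((nat_lit 97), (nat_lit 73), (nat_lit 100))⟩, (nat_lit 0), (nat_lit 97), (nat_lit 97), (nat_lit 0), (nat_lit 0), [(nat_lit 3282000000), (nat_lit 7968000000), (nat_lit 14058000000)], [], [(nat_lit 25362741803), (nat_lit 27605592584), (nat_lit 31947137009), (nat_lit 33460469136), (nat_lit 32903448188), (nat_lit 34154660723), (nat_lit 37446147907), (nat_lit 38594984709)], (nat_lit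 0), (nat_lit 0), (nat_lit 0), (nat_lit 0), (nat_lit 0), (nat_lit 0), [], [(nat_lit 13), (nat_lit 60), (nat_lit 538), (nat_lit 300), (nat_lit 11)]⟩,
 ⟨⟨[(nat_lit 140), (nat_lit 180), (nat_lit 200)], [(nat_lit 0), (nat_lit 0), (nat_lit 2835)], [((nat_lit 0), (nat_lit 0), (nat_lit 0)), ((nat_lit 0), (nat_lit 0), (nat_lit 0)), ((nat_lit 363), (nat_lit 1000), (nat_lit 798))], ((nat_lit 0), (nat_lit 0), (nat_lit 0))⟩, (nat_lit 16508), (nat_lit 300), (nat_lit 1968), (nat_lit 4686000), (nat_lit 3315123), [(nat_lit 590520000), (nat_lit 843480000), (nat_lit 984000000)], [], [(nat_lit 4141674024), (nat_lit 4025841300), (nat_lit 3517302843), (nat_lit 3729849270), (nat_lit 3952935102), (nat_lit 3832683936), (nat_lit 3302090644), (nat_lit 3185507587)], (nat_lit 780000), (nat_lit 1100000), (nat_lit 230000), (nat_lit 1791876), (nat_lit 1271251), (nat_lit 1271251), [(nat_lit 1977501), (nat_lit 1271251), (nat_lit 1271251)], [(nat_lit 32), (nat_lit 67), (nat_lit 590),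 (nat_lit 200), (nat_lit 12)]⟩⟩) (.spl (nat_lit 0) (nat_lit 385) (.leaf ⟨(nat_lit 0), (nat_lit 841), (nat_lit 0), (nat_lit 159), (nat_lit 0), (nat_lit 4439), (nat_lit 8161), (nat_lit 1778), (nat_lit 0), (nat_lit 0), (nat_lit 0), [], Pd.none, Pd.none, (nat_lit 0), (nat_lit 1), (nat_lit 0), (nat_lit 0), (nat_lit 5), (nat_lit 0), [], [], [⟨(nat_lit 1), (nat_lit 77), (nat_lit 91), (nat_lit 100), (nat_lit 210907162)⟩], [],
 ⟨⟨[(nat_lit 40), (nat_lit 80), (nat_lit 120)], [(nat_lit 0), (nat_lit 2514), (nat_lit 4610)], [((nat_lit 0), (nat_lit 0), (nat_lit 0)), ((nat_lit 1000), (nat_lit 446), (nat_lit 804)), ((nat_lit 1000), (nat_lit 443), (nat_lit 819))], ((nat_lit 44), (nat_lit 100), (nat_lit 95))⟩, (nat_lit 1098219), (nat_lit 241), (nat_lit 241), (nat_lit 0), (nat_lit 160701), [(nat_lit 2032000033), (nat_lit 4900606665), (nat_lit 7968000000)], [], [(nat_lit 29396810505), (nat_lit 29718311650), (nat_lit 34181319969), (nat_lit 34504934731), (nat_lit 29292974807),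 (nat_lit 29535724874), (nat_lit 32737114301), (nat_lit 32980359124)], (nat_lit 1271251), (nat_lit 1271251), (nat_lit 1271251), (nat_lit 1271251), (nat_lit 230000), (nat_lit 1791876), [(nat_lit 490000), (nat_lit 1100000), (nat_lit 1785001)], [(nat_lit 4), (nat_lit 51), (nat_lit 289), (nat_lit 75), (nat_lit 8)]⟩,
 ⟨⟨[(nat_lit 60), (nat_lit 120), (nat_lit 180)], [(nat_lit 0), (nat_lit 0), (nat_lit 4796)], [((nat_lit 0), (nat_lit 0), (nat_lit 0)), ((nat_lit 0), (nat_lit 0), (nat_lit 0)), ((nat_lit 802), (nat_lit 1000), (nat_lit 999))], ((nat_lit 97), (nat_lit 73), (nat_lit 100))⟩, (nat_lit 1773257), (nat_lit 299), (nat_lit 299), (nat_lit 0), (nat_lit 406907), [(nat_lit 3282000000), (nat_lit 7968000000), (nat_lit 14058000000)], [], [(nat_lit 31006118632), (nat_lit 31987331841), (nat_lit 34256668273), (nat_lit 34885338209), (nat_lit 34138009840), (nat_lit 34880264675), (nat_lit 37679238685), (nat_lit 38832167538)], (nat_lit 1271251), (nat_lit 1271251),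 (nat_lit 1271251), (nat_lit 1271251), (nat_lit 1271251), (nat_lit 1271251), [(nat_lit 780000), (nat_lit 1762501), (nat_lit 1271251)], [(nat_lit 13), (nat_lit 60), (nat_lit 538), (nat_lit 300), (nat_lit 11)]⟩,
 ⟨⟨[(nat_lit 140), (nat_lit 180), (nat_lit 200)], [(nat_lit 0), (nat_lit 0), (nat_lit 2835)], [((nat_lit 0), (nat_lit 0), (nat_lit 0)), ((nat_lit 0), (nat_lit 0), (nat_lit 0)), ((nat_lit 363), (nat_lit 1000), (nat_lit 798))], ((nat_lit 0), (nat_lit 0), (nat_lit 0))⟩, (nat_lit 43746), (nat_lit 300), (nat_lit 1304), (nat_lit 12417901), (nat_lit 1906471), [(nat_lit 1564878000), (nat_lit 2235222000), (nat_lit 2607600000)], [], [(nat_lit 11312707218), (nat_lit 11023077600), (nat_lit 9759598014), (nat_lit 9815825347), (nat_lit 10713023224), (nat_lit 10408057970), (nat_lit 9064190889), (nat_lit 8768950196)], (nat_lit 780000), (nat_lit 1100000), (nat_lit 230000), (nat_lit 1791876), (nat_lit 1271251), (nat_lit 1271251), [(nat_lit 1977501), (nat_lit 1271251),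 (nat_lit 1271251)], [(nat_lit 32), (nat_lit 67), (nat_lit 428), (nat_lit 200), (nat_lit 9)]⟩⟩) (.trZ (nat_lit 0) (nat_lit 2) (nat_lit 4) (nat_lit 100) (nat_lit 41) (nat_lit 76) (nat_lit 50) (.trX (nat_lit 4) (nat_lit 0) (nat_lit 2) (nat_lit 39) (nat_lit 100) (nat_lit 100) (nat_lit 240) (.leaf ⟨(nat_lit 0), (nat_lit 858), (nat_lit 0), (nat_lit 142), (nat_lit 0), (nat_lit 4437), (nat_lit 7997), (nat_lit 1631), (nat_lit 0), (nat_lit 0), (nat_lit 0), [], Pd.none, Pd.none, (nat_lit 0), (nat_lit 1), (nat_lit 0), (nat_lit 0), (nat_lit 5), (nat_lit 0), [], [⟨(nat_lit 1), (nat_lit 100), (nat_lit 35), (nat_lit 96), (nat_lit 33374817)⟩], [⟨(nat_lit 1), (nat_lit 77), (nat_lit 91), (nat_lit 100), (nat_lit 224915780)⟩], [],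
 ⟨⟨[(nat_lit 40), (nat_lit 80), (nat_lit 120)], [(nat_lit 0), (nat_lit 2833), (nat_lit 5014)], [((nat_lit 0), (nat_lit 0), (nat_lit 0)), ((nat_lit 1000), (nat_lit 389), (nat_lit 842)), ((nat_lit 1000), (nat_lit 387), (nat_lit 852))], ((nat_lit 38), (nat_lit 100), (nat_lit 94))⟩, (nat_lit 1209668), (nat_lit 238), (nat_lit 238), (nat_lit 0), (nat_lit 176363), [(nat_lit 2032000048), (nat_lit 5177629706), (nat_lit 7968000000)], [], [(nat_lit 28370965042), (nat_lit 28690270161), (nat_lit 34029240922), (nat_lit 34351261546), (nat_lit 28269584411), (nat_lit 28517673821), (nat_lit 32725119172), (nat_lit 32978182643)], (nat_lit 1271251), (nat_lit 1271251), (nat_lit 1271251), (nat_lit 1271251), (nat_lit 292188), (nat_lit 1723125), [(nat_lit 490000), (nat_lit 1100000), (nat_lit 1785001)], [(nat_lit 4), (nat_lit 51), (nat_lit 272), (nat_lit 60), (nat_lit 8)]⟩,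
 ⟨⟨[(nat_lit 60), (nat_lit 120), (nat_lit 180)], [(nat_lit 0), (nat_lit 0), (nat_lit 4796)], [((nat_lit 0), (nat_lit 0), (nat_lit 0)), ((nat_lit 0), (nat_lit 0), (nat_lit 0)), ((nat_lit 802), (nat_lit 1000), (nat_lit 999))], ((nat_lit 97), (nat_lit 73), (nat_lit 100))⟩, (nat_lit 1635972), (nat_lit 370), (nat_lit 370), (nat_lit 0), (nat_lit 456556), [(nat_lit 3282000000), (nat_lit 7968000000), (nat_lit 14058000000)], [], [(nat_lit 31954905396), (nat_lit 32933876889), (nat_lit 35185025434), (nat_lit 35781356800), (nat_lit 35093685253), (nat_lit 35605607507), (nat_lit 37573601996), (nat_lit 38624156928)], (nat_lit 1271251), (nat_lit 1271251), (nat_lit 1271251), (nat_lit 1271251), (nat_lit 1271251), (nat_lit 1271251), [(nat_lit 780000), (nat_lit 1762501), (nat_lit 1271251)], [(nat_lit 13), (nat_lit 60), (nat_lit 538), (nat_lit 300), (nat_lit 11)]⟩,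
 ⟨⟨[(nat_lit 140), (nat_lit 180), (nat_lit 200)], [(nat_lit 0), (nat_lit 0), (nat_lit 2835)], [((nat_lit 0), (nat_lit 0), (nat_lit 0)), ((nat_lit 0), (nat_lit 0), (nat_lit 0)), ((nat_lit 363), (nat_lit 1000), (nat_lit 798))], ((nat_lit 0), (nat_lit 0), (nat_lit 0))⟩, (nat_lit 39069), (nat_lit 300), (nat_lit 1414), (nat_lit 11090200), (nat_lit 2156836), [(nat_lit 1397564000), (nat_lit 1996236000), (nat_lit 2328800000)], [], [(nat_lit 9771768395), (nat_lit 9502049406), (nat_lit 8456240770), (nat_lit 8690030252), (nat_lit 9294939541), (nat_lit 9014698978), (nat_lit 7924687340), (nat_lit 7652557597)], (nat_lit 780000), (nat_lit 1100000), (nat_lit 292188), (nat_lit 1723125), (nat_lit 1271251), (nat_lit 1271251), [(nat_lit 1977501), (nat_lit 1271251), (nat_lit 1271251)], [(nat_lit 32), (nat_lit 67), (nat_lit 450), (nat_lit 200), (nat_lit 10)]⟩⟩))))))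
noncomputable def c14_115 : Tr Lf :=
 (.trX (nat_lit 3) (nat_lit 0) (nat_lit 1) (nat_lit 39) (nat_lit 72) (nat_lit 100) (nat_lit 370) (.trZ (nat_lit 0) (nat_lit 2) (nat_lit 4) (nat_lit 100) (nat_lit 34) (nat_lit 81) (nat_lit 60) (.trX (nat_lit 4) (nat_lit 0) (nat_lit 2) (nat_lit 31) (nat_lit 100) (nat_lit 99) (nat_lit 230) (.spl (nat_lit 1) (nat_lit 300) (.trX (nat_lit 3) (nat_lit 0) (nat_lit 1) (nat_lit 36) (nat_lit 77) (nat_lit 100) (nat_lit 350) (.spl (nat_lit 5) (nat_lit 200) (.leaf ⟨(nat_lit 0), (nat_lit 1000), (nat_lit 0), (nat_lit 0), (nat_lit 0), (nat_lit 4413), (nat_lit 8227), (nat_lit 0), (nat_lit 0), (nat_lit 0), (nat_lit 0), [], Pd.none, Pd.none, (nat_lit 0), (nat_lit 1), (nat_lit 0), (nat_lit 0), (nat_lit 3), (nat_lit 0), [], [⟨(nat_lit 1), (nat_lit 100), (nat_lit 22), (nat_lit 96), (nat_lit 859830340)⟩], [], [],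
 ⟨⟨[(nat_lit 40), (nat_lit 80), (nat_lit 100)], [(nat_lit 0), (nat_lit 3225), (nat_lit 4371)], [((nat_lit 0), (nat_lit 0), (nat_lit 0)), ((nat_lit 1000), (nat_lit 321), (nat_lit 877)), ((nat_lit 1000), (nat_lit 317), (nat_lit 896))], ((nat_lit 31), (nat_lit 100), (nat_lit 94))⟩, (nat_lit 780772), (nat_lit 226), (nat_lit 226), (nat_lit 0), (nat_lit 269581), [(nat_lit 2032000001), (nat_lit 4688000002), (nat_lit 6250000000)], [], [(nat_lit 28343561588), (nat_lit 29031301868), (nat_lit 31969553825), (nat_lit 32672597628), (nat_lit 28737156366), (nat_lit 29148324407), (nat_lit 31346313271), (nat_lit 31907415413)], (nat_lit 1271251), (nat_lit 1271251), (nat_lit 1271251), (nat_lit 1271251), (nat_lit 356250), (nat_lit 1652501), [(nat_lit 490000), (nat_lit 1100000), (nat_lit 1442501)], [(nat_lit 3), (nat_lit 50), (nat_lit 272), (nat_lit 60), (nat_lit 9)]⟩,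
 ⟨⟨[(nat_lit 60), (nat_lit 120), (nat_lit 180)], [(nat_lit 0), (nat_lit 0), (nat_lit 4796)], [((nat_lit 0), (nat_lit 0), (nat_lit 0)), ((nat_lit 0), (nat_lit 0), (nat_lit 0)), ((nat_lit 802), (nat_lit 1000), (nat_lit 999))], ((nat_lit 97), (nat_lit 73), (nat_lit 100))⟩, (nat_lit 1882000), (nat_lit 549), (nat_lit 549), (nat_lit 0), (nat_lit 507459), [(nat_lit 3282000000), (nat_lit 7968000000), (nat_lit 14058000000)], [], [(nat_lit 38410039569), (nat_lit 38845882342), (nat_lit 40326748347), (nat_lit 40722738096), (nat_lit 32038375164), (nat_lit 32463771099), (nat_lit 34096157705), (nat_lit 34474395628)], (nat_lit 1271251), (nat_lit 1271251), (nat_lit 1271251), (nat_lit 1271251), (nat_lit 0), (nat_lit 1412501), [(nat_lit 780000), (nat_lit 1762501), (nat_lit 1271251)], [(nat_lit 13), (nat_lit 60), (nat_lit 456), (nat_lit 225), (nat_lit 10)]⟩,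
 Rw.none⟩) (.stt (nat_lit 2) (.leaf ⟨(nat_lit 0), (nat_lit 938), (nat_lit 0), (nat_lit 62), (nat_lit 1308), (nat_lit 4696), (nat_lit 8245), (nat_lit 724), (nat_lit 0), (nat_lit 0), (nat_lit 0), [], Pd.none, Pd.none, (nat_lit 0), (nat_lit 1), (nat_lit 0), (nat_lit 0), (nat_lit 5), (nat_lit 0), [], [⟨(nat_lit 1), (nat_lit 100), (nat_lit 31), (nat_lit 99), (nat_lit 266463476)⟩], [⟨(nat_lit 1), (nat_lit 73), (nat_lit 94), (nat_lit 100), (nat_lit 393330212)⟩], [],
 ⟨⟨[(nat_lit 40), (nat_lit 80), (nat_lit 100)], [(nat_lit 0), (nat_lit 3225), (nat_lit 4371)], [((nat_lit 0), (nat_lit 0), (nat_lit 0)), ((nat_lit 1000), (nat_lit 321), (nat_lit 877)), ((nat_lit 1000), (nat_lit 317), (nat_lit 896))], ((nat_lit 31), (nat_lit 100), (nat_lit 94))⟩, (nat_lit 607339), (nat_lit 226), (nat_lit 226), (nat_lit 0), (nat_lit 269581), [(nat_lit 2032000019), (nat_lit 4688000024), (nat_lit 6250000000)], [], [(nat_lit 29188730481), (nat_lit 29893386323), (nat_lit 32566131484),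 (nat_lit 33292260477), (nat_lit 29253770669), (nat_lit 29809760023), (nat_lit 31795546281), (nat_lit 32264996645)], (nat_lit 1271251), (nat_lit 1271251), (nat_lit 1271251), (nat_lit 1271251), (nat_lit 356250), (nat_lit 1652501), [(nat_lit 490000), (nat_lit 1100000), (nat_lit 1442501)], [(nat_lit 3), (nat_lit 50), (nat_lit 272), (nat_lit 60), (nat_lit 9)]⟩,
 ⟨⟨[(nat_lit 60), (nat_lit 120), (nat_lit 180)], [(nat_lit 0), (nat_lit 0), (nat_lit 4796)], [((nat_lit 0), (nat_lit 0), (nat_lit 0)), ((nat_lit 0), (nat_lit 0), (nat_lit 0)), ((nat_lit 802), (nat_lit 1000), (nat_lit 999))], ((nat_lit 97), (nat_lit 73), (nat_lit 100))⟩, (nat_lit 0), (nat_lit 90), (nat_lit 90), (nat_lit 0), (nat_lit 0), [(nat_lit 3282000000), (nat_lit 7968000000), (nat_lit 14058000000)], [], [(nat_lit 25116764453), (nat_lit 26257523187), (nat_lit 29613398202), (nat_lit 30492873421), (nat_lit 32765142424), (nat_lit 33395917051), (nat_lit 35841522340), (nat_lit 36522558364)], (nat_lit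 0), (nat_lit 0), (nat_lit 0), (nat_lit 0), (nat_lit 0), (nat_lit 0), [], [(nat_lit 13), (nat_lit 60), (nat_lit 538), (nat_lit 300), (nat_lit 11)]⟩,
 ⟨⟨[(nat_lit 140), (nat_lit 180), (nat_lit 200)], [(nat_lit 0), (nat_lit 0), (nat_lit 2835)], [((nat_lit 0), (nat_lit 0), (nat_lit 0)), ((nat_lit 0), (nat_lit 0), (nat_lit 0)), ((nat_lit 363), (nat_lit 1000), (nat_lit 798))], ((nat_lit 0), (nat_lit 0), (nat_lit 0))⟩, (nat_lit 17058), (nat_lit 300), (nat_lit 1949), (nat_lit 4842203), (nat_lit 3300539), [(nat_lit 610204000), (nat_lit 871596000), (nat_lit 1016800000)], [], [(nat_lit 4159155706), (nat_lit 4039450629), (nat_lit 3644555527), (nat_lit 3751027204), (nat_lit 3962257855), (nat_lit 3837966590), (nat_lit 3427379498), (nat_lit 3306622669)], (nat_lit 780000), (nat_lit 1100000), (nat_lit 356250), (nat_lit 1652501), (nat_lit 1271251), (nat_lit 1271251), [(nat_lit 1977501), (nat_lit 1271251), (nat_lit 1271251)], [(nat_lit 32), (nat_lit 67), (nat_lit 583),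 (nat_lit 200), (nat_lit 12)]⟩⟩) (.leaf ⟨(nat_lit 22), (nat_lit 837), (nat_lit 0), (nat_lit 141), (nat_lit 0), (nat_lit 3970), (nat_lit 7974), (nat_lit 1815), (nat_lit 0), (nat_lit 0), (nat_lit 88000), [((nat_lit 400), [((nat_lit 43), (nat_lit 5), (nat_lit 22))])], ⟨(nat_lit 7), false, true, true, (nat_lit 304), (nat_lit 0), (nat_lit 1582), [(nat_lit 1702515), (nat_lit 1699984), (nat_lit 1725184), (nat_lit 1724337), (nat_lit 1798140), (nat_lit 1787496), (nat_lit 1821456), (nat_lit 1812497)]⟩, ⟨(nat_lit 3), false, false, true, (nat_lit 142), (nat_lit 0), (nat_lit 1582), [(nat_lit 1213552), (nat_lit 1223038), (nat_lit 1258869), (nat_lit 1271724), (nat_lit 1447710), (nat_lit 1437494), (nat_lit 1494343), (nat_lit 1487497)]⟩, (nat_lit 4909625), (nat_lit 37837232), (nat_lit 22510366), (nat_lit 6652402), (nat_lit 5), (nat_lit 0), [], [⟨(nat_lit 1), (nat_lit 100), (nat_lit 22), (nat_lit 96), (nat_lit 230953351)⟩], [⟨(nat_lit 1), (nat_lit 73), (nat_lit 94),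 (nat_lit 100), (nat_lit 220931320)⟩], [],
 ⟨⟨[(nat_lit 40), (nat_lit 80), (nat_lit 100)], [(nat_lit 0), (nat_lit 3225), (nat_lit 4371)], [((nat_lit 0), (nat_lit 0), (nat_lit 0)), ((nat_lit 1000), (nat_lit 321), (nat_lit 877)), ((nat_lit 1000), (nat_lit 317), (nat_lit 896))], ((nat_lit 31), (nat_lit 100), (nat_lit 94))⟩, (nat_lit 693414), (nat_lit 193), (nat_lit 193), (nat_lit 0), (nat_lit 170875), [(nat_lit 1823484044), (nat_lit 4011353368), (nat_lit 5224571200)], [(nat_lit 0), (nat_lit 0), (nat_lit 0)], [(nat_lit 27563641356), (nat_lit 28210252046), (nat_lit 31035688443), (nat_lit 31702595359), (nat_lit 28194687552), (nat_lit 28654996764), (nat_lit 30812402265), (nat_lit 31347691309)], (nat_lit 1271251), (nat_lit 1271251), (nat_lit 1271251), (nat_lit 1271251), (nat_lit 356250), (nat_lit 1652501), [(nat_lit 490000), (nat_lit 1100000), (nat_lit 1442501)], [(nat_lit 3), (nat_lit 50), (nat_lit 272), (nat_lit 60), (nat_lit 9)]⟩,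
 ⟨⟨[(nat_lit 60), (nat_lit 120), (nat_lit 180)], [(nat_lit 0), (nat_lit 0), (nat_lit 4796)], [((nat_lit 0), (nat_lit 0), (nat_lit 0)), ((nat_lit 0), (nat_lit 0), (nat_lit 0)), ((nat_lit 802), (nat_lit 1000), (nat_lit 999))], ((nat_lit 97), (nat_lit 73), (nat_lit 100))⟩, (nat_lit 1751091), (nat_lit 388), (nat_lit 388), (nat_lit 0), (nat_lit 507459), [(nat_lit 3209796000), (nat_lit 7792704000), (nat_lit 13748724000)], [], [(nat_lit 30256396923), (nat_lit 30736159211), (nat_lit 32325213461), (nat_lit 32673487037), (nat_lit 33319178795), (nat_lit 33722551667), (nat_lit 35109469850), (nat_lit 35617283824)], (nat_lit 1271251), (nat_lit 1271251), (nat_lit 1271251), (nat_lit 1271251), (nat_lit 1271251), (nat_lit 1271251), [(nat_lit 780000), (nat_lit 1762501), (nat_lit 1271251)], [(nat_lit 13), (nat_lit 60), (nat_lit 538), (nat_lit 300), (nat_lit 11)]⟩,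
 ⟨⟨[(nat_lit 140), (nat_lit 180), (nat_lit 200)], [(nat_lit 0), (nat_lit 0), (nat_lit 2835)], [((nat_lit 0), (nat_lit 0), (nat_lit 0)), ((nat_lit 0), (nat_lit 0), (nat_lit 0)), ((nat_lit 363), (nat_lit 1000), (nat_lit 798))], ((nat_lit 0), (nat_lit 0), (nat_lit 0))⟩, (nat_lit 38794), (nat_lit 300), (nat_lit 1430), (nat_lit 11012100), (nat_lit 2207401), [(nat_lit 1387722000), (nat_lit 1982178000), (nat_lit 2312400000)], [], [(nat_lit 8885316447), (nat_lit 8580777926), (nat_lit 7854302991), (nat_lit 8686694691), (nat_lit 8675724356), (nat_lit 8359524454), (nat_lit 7309707046), (nat_lit 7006333131)], (nat_lit 780000), (nat_lit 1100000), (nat_lit 356250), (nat_lit 1652501), (nat_lit 1271251), (nat_lit 1271251), [(nat_lit 1977501), (nat_lit 1271251), (nat_lit 1271251)], [(nat_lit 32), (nat_lit 67), (nat_lit 453), (nat_lit 200), (nat_lit 10)]⟩⟩)))) (.trX (nat_lit 5) (nat_lit 1) (nat_lit 2) (nat_lit 88) (nat_lit 68) (nat_lit 100) (nat_lit 350) (.stt (nat_lit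 2) (.leaf ⟨(nat_lit 0), (nat_lit 1000), (nat_lit 0), (nat_lit 0), (nat_lit 7312), (nat_lit 4725), (nat_lit 8553), (nat_lit 0), (nat_lit 0), (nat_lit 0), (nat_lit 0), [], Pd.none, Pd.none, (nat_lit 0), (nat_lit 1), (nat_lit 0), (nat_lit 0), (nat_lit 3), (nat_lit 0), [], [⟨(nat_lit 1), (nat_lit 100), (nat_lit 31), (nat_lit 99), (nat_lit 456617864)⟩], [⟨(nat_lit 1), (nat_lit 68), (nat_lit 88), (nat_lit 100), (nat_lit 126602635)⟩], [],
 ⟨⟨[(nat_lit 40), (nat_lit 80), (nat_lit 100)], [(nat_lit 0), (nat_lit 3225), (nat_lit 4371)], [((nat_lit 0), (nat_lit 0), (nat_lit 0)), ((nat_lit 1000), (nat_lit 321), (nat_lit 877)), ((nat_lit 1000), (nat_lit 317), (nat_lit 896))], ((nat_lit 31), (nat_lit 100), (nat_lit 94))⟩, (nat_lit 585721), (nat_lit 249), (nat_lit 249), (nat_lit 0), (nat_lit 334508), [(nat_lit 2032000001), (nat_lit 4688000001), (nat_lit 6250000000)], [], [(nat_lit 29292147509), (nat_lit 29999121959), (nat_lit 33904944714), (nat_lit 34588611979),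 (nat_lit 29336759213), (nat_lit 29894410303), (nat_lit 32748379873), (nat_lit 33294530630)], (nat_lit 1271251), (nat_lit 1271251), (nat_lit 1271251), (nat_lit 1271251), (nat_lit 356250), (nat_lit 1652501), [(nat_lit 490000), (nat_lit 1100000), (nat_lit 1442501)], [(nat_lit 3), (nat_lit 50), (nat_lit 272), (nat_lit 60), (nat_lit 9)]⟩,
 ⟨⟨[(nat_lit 60), (nat_lit 120), (nat_lit 180)], [(nat_lit 0), (nat_lit 913), (nat_lit 5370)], [((nat_lit 0), (nat_lit 0), (nat_lit 0)), ((nat_lit 1000), (nat_lit 905), (nat_lit 238)), ((nat_lit 862), (nat_lit 939), (nat_lit 1000))], ((nat_lit 92), (nat_lit 81), (nat_lit 100))⟩, (nat_lit 1636821), (nat_lit 271), (nat_lit 271), (nat_lit 0), (nat_lit 0), [(nat_lit 3282000000), (nat_lit 7968000000), (nat_lit 14058000000)], [], [(nat_lit 37552854826), (nat_lit 38527750576), (nat_lit 42605036052), (nat_lit 43258225894), (nat_lit 33219928558), (nat_lit 33636825519), (nat_lit 36872382079), (nat_lit 37560075649)], (nat_lit 0),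 (nat_lit 0), (nat_lit 0), (nat_lit 0), (nat_lit 0), (nat_lit 0), [], [(nat_lit 13), (nat_lit 60), (nat_lit 538), (nat_lit 300), (nat_lit 12)]⟩,
 Rw.none⟩) (.spl (nat_lit 4) (nat_lit 160) (.leaf ⟨(nat_lit 0), (nat_lit 869), (nat_lit 0), (nat_lit 131), (nat_lit 0), (nat_lit 4444), (nat_lit 7025), (nat_lit 1425), (nat_lit 0), (nat_lit 0), (nat_lit 0), [], Pd.none, Pd.none, (nat_lit 0), (nat_lit 1), (nat_lit 0), (nat_lit 0), (nat_lit 3), (nat_lit 0), [], [], [], [],
 ⟨⟨[(nat_lit 40), (nat_lit 80), (nat_lit 100)], [(nat_lit 0), (nat_lit 3225), (nat_lit 4371)], [((nat_lit 0), (nat_lit 0), (nat_lit 0)), ((nat_lit 1000), (nat_lit 321), (nat_lit 877)), ((nat_lit 1000), (nat_lit 317), (nat_lit 896))], ((nat_lit 31), (nat_lit 100), (nat_lit 94))⟩, (nat_lit 837378), (nat_lit 212), (nat_lit 212), (nat_lit 0), (nat_lit 206725), [(nat_lit 2032000005), (nat_lit 4724878346), (nat_lit 6250000000)], [], [(nat_lit 28233162701), (nat_lit 29088792484), (nat_lit 33275155119),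 (nat_lit 33938004354), (nat_lit 27359072673), (nat_lit 27861576218), (nat_lit 31590220577), (nat_lit 32187438836)], (nat_lit 1271251), (nat_lit 1271251), (nat_lit 1271251), (nat_lit 1271251), (nat_lit 356250), (nat_lit 1100000), [(nat_lit 490000), (nat_lit 1100000), (nat_lit 1442501)], [(nat_lit 3), (nat_lit 50), (nat_lit 249), (nat_lit 40), (nat_lit 8)]⟩,
 ⟨⟨[(nat_lit 60), (nat_lit 120), (nat_lit 180)], [(nat_lit 0), (nat_lit 913), (nat_lit 5370)], [((nat_lit 0), (nat_lit 0), (nat_lit 0)), ((nat_lit 1000), (nat_lit 905), (nat_lit 238)), ((nat_lit 862), (nat_lit 939), (nat_lit 1000))], ((nat_lit 92), (nat_lit 81), (nat_lit 100))⟩, (nat_lit 1890746), (nat_lit 559), (nat_lit 559), (nat_lit 0), (nat_lit 547737), [(nat_lit 3282000000), (nat_lit 7968000000), (nat_lit 14058000000)], [], [(nat_lit 36494456397), (nat_lit 36928595334), (nat_lit 39470823671), (nat_lit 40096223968), (nat_lit 33468672480), (nat_lit 33762636019), (nat_lit 35164581645), (nat_lit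 35791558230)], (nat_lit 1271251), (nat_lit 1271251), (nat_lit 1271251), (nat_lit 1271251), (nat_lit 0), (nat_lit 2471876), [(nat_lit 780000), (nat_lit 1762501), (nat_lit 1271251)], [(nat_lit 13), (nat_lit 60), (nat_lit 538), (nat_lit 300), (nat_lit 12)]⟩,
 ⟨⟨[(nat_lit 140), (nat_lit 180), (nat_lit 200)], [(nat_lit 0), (nat_lit 0), (nat_lit 2835)], [((nat_lit 0), (nat_lit 0), (nat_lit 0)), ((nat_lit 0), (nat_lit 0), (nat_lit 0)), ((nat_lit 363), (nat_lit 1000), (nat_lit 798))], ((nat_lit 0), (nat_lit 0), (nat_lit 0))⟩, (nat_lit 36042), (nat_lit 300), (nat_lit 1763), (nat_lit 10231105), (nat_lit 2676459), [(nat_lit 1289302000), (nat_lit 1841598000), (nat_lit 2148400000)], [], [(nat_lit 10822041621), (nat_lit 10592492801), (nat_lit 10185924756), (nat_lit 9964231000), (nat_lit 8961614938), (nat_lit 8751152337), (nat_lit 8571449712), (nat_lit 9284876925)], (nat_lit 780000), (nat_lit 1100000), (nat_lit 356250), (nat_lit 1100000), (nat_lit 0), (nat_lit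 2471876), [(nat_lit 1977501), (nat_lit 1271251), (nat_lit 1271251)], [(nat_lit 32), (nat_lit 67), (nat_lit 525), (nat_lit 175), (nat_lit 12)]⟩⟩) (.leaf ⟨(nat_lit 0), (nat_lit 865), (nat_lit 0), (nat_lit 135), (nat_lit 0), (nat_lit 4357), (nat_lit 7267), (nat_lit 1456), (nat_lit 0), (nat_lit 0), (nat_lit 0), [], Pd.none, Pd.none, (nat_lit 0), (nat_lit 1), (nat_lit 0), (nat_lit 0), (nat_lit 4), (nat_lit 0), [], [⟨(nat_lit 1), (nat_lit 100), (nat_lit 22), (nat_lit 96), (nat_lit 1380016413)⟩], [], [],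
 ⟨⟨[(nat_lit 40), (nat_lit 80), (nat_lit 100)], [(nat_lit 0), (nat_lit 3225), (nat_lit 4371)], [((nat_lit 0), (nat_lit 0), (nat_lit 0)), ((nat_lit 1000), (nat_lit 321), (nat_lit 877)), ((nat_lit 1000), (nat_lit 317), (nat_lit 896))], ((nat_lit 31), (nat_lit 100), (nat_lit 94))⟩, (nat_lit 772699), (nat_lit 159), (nat_lit 159), (nat_lit 0), (nat_lit 206725), [(nat_lit 2032000120), (nat_lit 4688000118), (nat_lit 6250000000)], [], [(nat_lit 27677978719), (nat_lit 28164061139), (nat_lit 31462516882), (nat_lit 32054187983), (nat_lit 28665117365), (nat_lit 29202021029), (nat_lit 32270048264), (nat_lit 32796774589)], (nat_lit 1271251), (nat_lit 1271251), (nat_lit 1271251), (nat_lit 1271251), (nat_lit 1100000), (nat_lit 1699376), [(nat_lit 490000), (nat_lit 1100000), (nat_lit 1442501)], [(nat_lit 3), (nat_lit 50), (nat_lit 272), (nat_lit 60), (nat_lit 8)]⟩,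
 ⟨⟨[(nat_lit 60), (nat_lit 120), (nat_lit 180)], [(nat_lit 0), (nat_lit 913), (nat_lit 5370)], [((nat_lit 0), (nat_lit 0), (nat_lit 0)), ((nat_lit 1000), (nat_lit 905), (nat_lit 238)), ((nat_lit 862), (nat_lit 939), (nat_lit 1000))], ((nat_lit 92), (nat_lit 81), (nat_lit 100))⟩, (nat_lit 1829258), (nat_lit 559), (nat_lit 559), (nat_lit 0), (nat_lit 547737), [(nat_lit 3282000000), (nat_lit 7968000000), (nat_lit 14058000000)], [], [(nat_lit 36488295854), (nat_lit 36922777826), (nat_lit 40081442046), (nat_lit 40711243567), (nat_lit 32885915499), (nat_lit 33177363911), (nat_lit 35411754491), (nat_lit 36071650649)], (nat_lit 1271251), (nat_lit 1271251), (nat_lit 1271251), (nat_lit 1271251), (nat_lit 0), (nat_lit 2471876), [(nat_lit 780000), (nat_lit 1762501), (nat_lit 1271251)], [(nat_lit 13), (nat_lit 60), (nat_lit 538), (nat_lit 300), (nat_lit 12)]⟩,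
 ⟨⟨[(nat_lit 140), (nat_lit 180), (nat_lit 200)], [(nat_lit 0), (nat_lit 0), (nat_lit 2835)], [((nat_lit 0), (nat_lit 0), (nat_lit 0)), ((nat_lit 0), (nat_lit 0), (nat_lit 0)), ((nat_lit 363), (nat_lit 1000), (nat_lit 798))], ((nat_lit 0), (nat_lit 0), (nat_lit 0))⟩, (nat_lit 37143), (nat_lit 300), (nat_lit 1707), (nat_lit 10543500), (nat_lit 2676459), [(nat_lit 1328670000), (nat_lit 1897830000), (nat_lit 2214000000)], [], [(nat_lit 10619133348), (nat_lit 10394030364), (nat_lit 10279985909), (nat_lit 10059678358), (nat_lit 8816565568), (nat_lit 9546985176), (nat_lit 10359897058), (nat_lit 11118956186)], (nat_lit 780000), (nat_lit 1100000), (nat_lit 1100000), (nat_lit 1699376), (nat_lit 0), (nat_lit 2471876), [(nat_lit 1977501), (nat_lit 1271251), (nat_lit 1271251)], [(nat_lit 32), (nat_lit 67), (nat_lit 520), (nat_lit 200), (nat_lit 11)]⟩⟩))))))))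
noncomputable def c14_116 : Tr Lf :=
 (.trZ (nat_lit 0) (nat_lit 2) (nat_lit 4) (nat_lit 100) (nat_lit 44) (nat_lit 81) (nat_lit 70) (.spl (nat_lit 5) (nat_lit 200) (.spl (nat_lit 0) (nat_lit 390) (.leaf ⟨(nat_lit 0), (nat_lit 860), (nat_lit 0), (nat_lit 140), (nat_lit 5825), (nat_lit 4221), (nat_lit 8086), (nat_lit 1918), (nat_lit 0), (nat_lit 0), (nat_lit 0), [], Pd.none, Pd.none, (nat_lit 0), (nat_lit 1), (nat_lit 0), (nat_lit 0), (nat_lit 4), (nat_lit 0), [], [⟨(nat_lit 1), (nat_lit 98), (nat_lit 38), (nat_lit 100), (nat_lit 47091670)⟩], [], [⟨(nat_lit 0), (nat_lit 100), (nat_lit 77), (nat_lit 53), (nat_lit 111926928)⟩],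
 ⟨⟨[(nat_lit 40), (nat_lit 80), (nat_lit 120)], [(nat_lit 0), (nat_lit 2514), (nat_lit 4610)], [((nat_lit 0), (nat_lit 0), (nat_lit 0)), ((nat_lit 1000), (nat_lit 446), (nat_lit 804)), ((nat_lit 1000), (nat_lit 443), (nat_lit 819))], ((nat_lit 44), (nat_lit 100), (nat_lit 95))⟩, (nat_lit 1328850), (nat_lit 200), (nat_lit 200), (nat_lit 0), (nat_lit 175975), [(nat_lit 2032000026), (nat_lit 5075562561), (nat_lit 7968000000)], [], [(nat_lit 27281734555), (nat_lit 27896544891), (nat_lit 32314648928), (nat_lit 32937486282), (nat_lit 28919495894), (nat_lit 29329415786), (nat_lit 32967764196), (nat_lit 33434078049)], (nat_lit 1271251), (nat_lit 1271251), (nat_lit 1271251), (nat_lit 1271251), (nat_lit 422188), (nat_lit 1965938), [(nat_lit 490000), (nat_lit 1100000), (nat_lit 1785001)], [(nat_lit 4), (nat_lit 51), (nat_lit 289), (nat_lit 75), (nat_lit 8)]⟩,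
 ⟨⟨[(nat_lit 60), (nat_lit 120), (nat_lit 180)], [(nat_lit 0), (nat_lit 0), (nat_lit 4796)], [((nat_lit 0), (nat_lit 0), (nat_lit 0)), ((nat_lit 0), (nat_lit 0), (nat_lit 0)), ((nat_lit 802), (nat_lit 1000), (nat_lit 999))], ((nat_lit 97), (nat_lit 73), (nat_lit 100))⟩, (nat_lit 2206484), (nat_lit 423), (nat_lit 423), (nat_lit 0), (nat_lit 283290), [(nat_lit 3282000000), (nat_lit 7968000000), (nat_lit 14058000000)], [], [(nat_lit 35580552844), (nat_lit 36899710084), (nat_lit 40289716239), (nat_lit 41601792016), (nat_lit 29061152140), (nat_lit 30598845560), (nat_lit 33737072096), (nat_lit 34759048108)], (nat_lit 1271251), (nat_lit 1271251), (nat_lit 1271251), (nat_lit 1271251), (nat_lit 0), (nat_lit 1412501), [(nat_lit 780000), (nat_lit 1762501), (nat_lit 1271251)], [(nat_lit 13), (nat_lit 60), (nat_lit 456), (nat_lit 225), (nat_lit 10)]⟩,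
 ⟨⟨[(nat_lit 120), (nat_lit 160), (nat_lit 200)], [(nat_lit 0), (nat_lit 0), (nat_lit 3198)], [((nat_lit 0), (nat_lit 0), (nat_lit 0)), ((nat_lit 0), (nat_lit 0), (nat_lit 0)), ((nat_lit 572), (nat_lit 1000), (nat_lit 714))], ((nat_lit 0), (nat_lit 0), (nat_lit 0))⟩, (nat_lit 68293), (nat_lit 300), (nat_lit 1044), (nat_lit 10388000), (nat_lit 1133169), [(nat_lit 1115520000), (nat_lit 1662080000), (nat_lit 2296000000)], [], [(nat_lit 10032156022), (nat_lit 9934761830), (nat_lit 8671371506), (nat_lit 8564389413), (nat_lit 7820259430), (nat_lit 7723818802), (nat_lit 9071581190), (nat_lit 9603941231)], (nat_lit 1100000), (nat_lit 1271251), (nat_lit 422188), (nat_lit 1965938), (nat_lit 0), (nat_lit 1412501), [(nat_lit 1695001), (nat_lit 1271251), (nat_lit 1271251)], [(nat_lit 29), (nat_lit 66), (nat_lit 401), (nat_lit 175), (nat_lit 9)]⟩⟩) (.trX (nat_lit 3) (nat_lit 0) (nat_lit 1) (nat_lit 39) (nat_lit 72) (nat_lit 100) (nat_lit 370) (.trZ (nat_lit 0)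 (nat_lit 2) (nat_lit 4) (nat_lit 100) (nat_lit 32) (nat_lit 89) (nat_lit 100) (.trX (nat_lit 4) (nat_lit 0) (nat_lit 2) (nat_lit 31) (nat_lit 98) (nat_lit 100) (nat_lit 250) (.leaf ⟨(nat_lit 0), (nat_lit 938), (nat_lit 0), (nat_lit 62), (nat_lit 0), (nat_lit 4281), (nat_lit 8442), (nat_lit 884), (nat_lit 0), (nat_lit 0), (nat_lit 0), [], Pd.none, Pd.none, (nat_lit 0), (nat_lit 1), (nat_lit 0), (nat_lit 0), (nat_lit 4), (nat_lit 0), [], [⟨(nat_lit 1), (nat_lit 100), (nat_lit 22), (nat_lit 99), (nat_lit 575011675)⟩], [], [⟨(nat_lit 0), (nat_lit 100), (nat_lit 79), (nat_lit 53), (nat_lit 46738679)⟩],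
 ⟨⟨[(nat_lit 40), (nat_lit 80), (nat_lit 100)], [(nat_lit 0), (nat_lit 3225), (nat_lit 4371)], [((nat_lit 0), (nat_lit 0), (nat_lit 0)), ((nat_lit 1000), (nat_lit 321), (nat_lit 877)), ((nat_lit 1000), (nat_lit 317), (nat_lit 896))], ((nat_lit 31), (nat_lit 100), (nat_lit 94))⟩, (nat_lit 779601), (nat_lit 193), (nat_lit 193), (nat_lit 0), (nat_lit 227401), [(nat_lit 2032000009), (nat_lit 4688000015), (nat_lit 6250000000)], [], [(nat_lit 27764046773), (nat_lit 28283542980), (nat_lit 31847475855), (nat_lit 32477461325), (nat_lit 29104196032), (nat_lit 29617176377), (nat_lit 32545231159), (nat_lit 33048563864)], (nat_lit 1271251), (nat_lit 1271251), (nat_lit 1271251), (nat_lit 1271251), (nat_lit 631250), (nat_lit 1831251), [(nat_lit 490000), (nat_lit 1100000), (nat_lit 1442501)], [(nat_lit 3), (nat_lit 50), (nat_lit 289), (nat_lit 75), (nat_lit 9)]⟩,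
 ⟨⟨[(nat_lit 60), (nat_lit 120), (nat_lit 180)], [(nat_lit 0), (nat_lit 0), (nat_lit 4796)], [((nat_lit 0), (nat_lit 0), (nat_lit 0)), ((nat_lit 0), (nat_lit 0), (nat_lit 0)), ((nat_lit 802), (nat_lit 1000), (nat_lit 999))], ((nat_lit 97), (nat_lit 73), (nat_lit 100))⟩, (nat_lit 2019329), (nat_lit 454), (nat_lit 454), (nat_lit 0), (nat_lit 382693), [(nat_lit 3282000000), (nat_lit 7968000000), (nat_lit 14058000000)], [], [(nat_lit 37352530290), (nat_lit 38224825360), (nat_lit 40930265858), (nat_lit 42232608055), (nat_lit 31298459761), (nat_lit 32320491278), (nat_lit 34213303795), (nat_lit 34889836572)], (nat_lit 1271251), (nat_lit 1271251), (nat_lit 1271251), (nat_lit 1271251), (nat_lit 0), (nat_lit 1412501), [(nat_lit 780000), (nat_lit 1762501), (nat_lit 1271251)], [(nat_lit 13), (nat_lit 60), (nat_lit 456), (nat_lit 225), (nat_lit 10)]⟩,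
 ⟨⟨[(nat_lit 120), (nat_lit 160), (nat_lit 200)], [(nat_lit 0), (nat_lit 0), (nat_lit 3198)], [((nat_lit 0), (nat_lit 0), (nat_lit 0)), ((nat_lit 0), (nat_lit 0), (nat_lit 0)), ((nat_lit 572), (nat_lit 1000), (nat_lit 714))], ((nat_lit 0), (nat_lit 0), (nat_lit 0))⟩, (nat_lit 30244), (nat_lit 300), (nat_lit 1210), (nat_lit 4600400), (nat_lit 1549234), [(nat_lit 494016000), (nat_lit 736064000), (nat_lit 1016800000)], [], [(nat_lit 4255461928), (nat_lit 4210008189), (nat_lit 3803517436), (nat_lit 3773010430), (nat_lit 3244516332), (nat_lit 3199369824), (nat_lit 3964859228), (nat_lit 4205853390)], (nat_lit 1100000), (nat_lit 1271251), (nat_lit 631250), (nat_lit 1831251), (nat_lit 0), (nat_lit 1412501), [(nat_lit 1695001), (nat_lit 1271251), (nat_lit 1271251)], [(nat_lit 29), (nat_lit 66), (nat_lit 401), (nat_lit 175), (nat_lit 9)]⟩⟩))))) (.leaf ⟨(nat_lit 22), (nat_lit 788), (nat_lit 0), (nat_lit 190), (nat_lit 0), (nat_lit 4045), (nat_lit 7895), (nat_lit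 2067), (nat_lit 0), (nat_lit 0), (nat_lit 88000), [((nat_lit 400), [((nat_lit 43), (nat_lit 5), (nat_lit 22))])], ⟨(nat_lit 7), false, true, true, (nat_lit 317), (nat_lit 0), (nat_lit 2237), [(nat_lit 1705063), (nat_lit 1699935), (nat_lit 1748802), (nat_lit 1748125), (nat_lit 1847661), (nat_lit 1824994), (nat_lit 1893212), (nat_lit 1874997)]⟩, ⟨(nat_lit 4), false, false, true, (nat_lit 169), (nat_lit 0), (nat_lit 2237), [(nat_lit 1265016), (nat_lit 1283365), (nat_lit 1286864), (nat_lit 1307439), (nat_lit 1554222), (nat_lit 1537494), (nat_lit 1576997), (nat_lit 1562495)]⟩, (nat_lit 5169879), (nat_lit 35568107), (nat_lit 23097593), (nat_lit 8334300), (nat_lit 5), (nat_lit 0), [], [⟨(nat_lit 1), (nat_lit 100), (nat_lit 32), (nat_lit 100), (nat_lit 127794120)⟩], [⟨(nat_lit 1), (nat_lit 63), (nat_lit 88), (nat_lit 100), (nat_lit 199267651)⟩], [],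
 ⟨⟨[(nat_lit 40), (nat_lit 80), (nat_lit 120)], [(nat_lit 0), (nat_lit 2514), (nat_lit 4610)], [((nat_lit 0), (nat_lit 0), (nat_lit 0)), ((nat_lit 1000), (nat_lit 446), (nat_lit 804)), ((nat_lit 1000), (nat_lit 443), (nat_lit 819))], ((nat_lit 44), (nat_lit 100), (nat_lit 95))⟩, (nat_lit 942233), (nat_lit 243), (nat_lit 243), (nat_lit 0), (nat_lit 229689), [(nat_lit 1823484042), (nat_lit 4113353575), (nat_lit 6605135200)], [(nat_lit 0), (nat_lit 0), (nat_lit 0)], [(nat_lit 27774621333), (nat_lit 28884955377), (nat_lit 31981404019), (nat_lit 33165451202), (nat_lit 29506931165), (nat_lit 30273672497), (nat_lit 32741710357), (nat_lit 33659063827)], (nat_lit 1271251), (nat_lit 1271251), (nat_lit 1271251), (nat_lit 1271251), (nat_lit 422188), (nat_lit 1965938), [(nat_lit 490000), (nat_lit 1100000), (nat_lit 1785001)], [(nat_lit 4), (nat_lit 51), (nat_lit 289), (nat_lit 75), (nat_lit 8)]⟩,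
 ⟨⟨[(nat_lit 60), (nat_lit 120), (nat_lit 180)], [(nat_lit 0), (nat_lit 0), (nat_lit 4796)], [((nat_lit 0), (nat_lit 0), (nat_lit 0)), ((nat_lit 0), (nat_lit 0), (nat_lit 0)), ((nat_lit 802), (nat_lit 1000), (nat_lit 999))], ((nat_lit 97), (nat_lit 73), (nat_lit 100))⟩, (nat_lit 1708559), (nat_lit 290), (nat_lit 290), (nat_lit 0), (nat_lit 381707), [(nat_lit 3209796000), (nat_lit 7792704000), (nat_lit 13748724000)], [], [(nat_lit 30600252739), (nat_lit 31558697463), (nat_lit 33768520150), (nat_lit 34349807077), (nat_lit 33971448984), (nat_lit 34653290716), (nat_lit 37346015760), (nat_lit 38407603081)], (nat_lit 1271251), (nat_lit 1271251), (nat_lit 1271251), (nat_lit 1271251), (nat_lit 1271251), (nat_lit 1271251), [(nat_lit 780000), (nat_lit 1762501), (nat_lit 1271251)], [(nat_lit 13), (nat_lit 60), (nat_lit 538), (nat_lit 300), (nat_lit 11)]⟩,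
 ⟨⟨[(nat_lit 120), (nat_lit 160), (nat_lit 200)], [(nat_lit 0), (nat_lit 0), (nat_lit 3198)], [((nat_lit 0), (nat_lit 0), (nat_lit 0)), ((nat_lit 0), (nat_lit 0), (nat_lit 0)), ((nat_lit 572), (nat_lit 1000), (nat_lit 714))], ((nat_lit 0), (nat_lit 0), (nat_lit 0))⟩, (nat_lit 92683), (nat_lit 300), (nat_lit 1091), (nat_lit 14098000), (nat_lit 1549234), [(nat_lit 1513920000), (nat_lit 2255680000), (nat_lit 3116000000)], [], [(nat_lit 12295548008), (nat_lit 12166772497), (nat_lit 10798116453), (nat_lit 10881366490), (nat_lit 11612685853), (nat_lit 11482402686), (nat_lit 10070871637), (nat_lit 9938479781)], (nat_lit 1100000), (nat_lit 1271251), (nat_lit 422188), (nat_lit 1965938), (nat_lit 1271251), (nat_lit 1271251), [(nat_lit 1695001), (nat_lit 1271251), (nat_lit 1271251)], [(nat_lit 29), (nat_lit 66), (nat_lit 456), (nat_lit 225), (nat_lit 10)]⟩⟩)))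
noncomputable def c14_117 : Tr Lf :=
 (.spl (nat_lit 4) (nat_lit 200) (.spl (nat_lit 5) (nat_lit 200) (.spl (nat_lit 3) (nat_lit 200) (.leaf ⟨(nat_lit 883), (nat_lit 87), (nat_lit 0), (nat_lit 30), (nat_lit 53103), (nat_lit 3771), (nat_lit 1437), (nat_lit 434), (nat_lit 0), (nat_lit 0), (nat_lit 308800), [((nat_lit 400), [((nat_lit 29), (nat_lit 0), (nat_lit 296)), ((nat_lit 29), (nat_lit 1), (nat_lit 587))])], ⟨(nat_lit 6), false, false, false, (nat_lit 214), (nat_lit 0), (nat_lit 2237), [(nat_lit 1470123), (nat_lit 1483344), (nat_lit 1513819), (nat_lit 1531491), (nat_lit 1543695), (nat_lit 1548146), (nat_lit 1587391), (nat_lit 1596294)]⟩, ⟨(nat_lit 4), false, false, false, (nat_lit 169), (nat_lit 0), (nat_lit 2237), [(nat_lit 1316293), (nat_lit 1333360), (nat_lit 1359989), (nat_lit 1381507), (nat_lit 1477224), (nat_lit 1474999), (nat_lit 1521847), (nat_lit 1524073)]⟩, (nat_lit 4756702), (nat_lit 43539619), (nat_lit 13860435), (nat_lit 9599946),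 (nat_lit 4), (nat_lit 0), [⟨(nat_lit 0), (nat_lit 95), (nat_lit 31), (nat_lit 100), (nat_lit 2609220841)⟩], [], [], [],
 ⟨⟨[(nat_lit 40), (nat_lit 80), (nat_lit 100)], [(nat_lit 0), (nat_lit 2514), (nat_lit 3562)], [((nat_lit 0), (nat_lit 0), (nat_lit 0)), ((nat_lit 1000), (nat_lit 446), (nat_lit 804)), ((nat_lit 1000), (nat_lit 443), (nat_lit 819))], ((nat_lit 44), (nat_lit 100), (nat_lit 89))⟩, (nat_lit 0), (nat_lit 133), (nat_lit 133), (nat_lit 0), (nat_lit 86810), [(nat_lit 1550895072), (nat_lit 1457843336), (nat_lit 1315202400)], [(nat_lit 0), (nat_lit 0), (nat_lit 0)], [(nat_lit 21826421942), (nat_lit 23388149290), (nat_lit 22907253782), (nat_lit 24346209743), (nat_lit 23195592651), (nat_lit 24528020140), (nat_lit 24109104462), (nat_lit 25340544271)], (nat_lit 1271251), (nat_lit 1271251), (nat_lit 1017188), (nat_lit 1440626), (nat_lit 559688), (nat_lit 1429376), [(nat_lit 490000), (nat_lit 1100000), (nat_lit 1442501)], [(nat_lit 3), (nat_lit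 50), (nat_lit 317), (nat_lit 100), (nat_lit 11)]⟩,
 ⟨⟨[(nat_lit 80), (nat_lit 140), (nat_lit 180)], [(nat_lit 0), (nat_lit 0), (nat_lit 3656)], [((nat_lit 0), (nat_lit 0), (nat_lit 0)), ((nat_lit 0), (nat_lit 0), (nat_lit 0)), ((nat_lit 637), (nat_lit 1000), (nat_lit 908))], ((nat_lit 100), (nat_lit 64), (nat_lit 91))⟩, (nat_lit 126146), (nat_lit 421), (nat_lit 421), (nat_lit 0), (nat_lit 195463), [(nat_lit 548496000), (nat_lit 1151514000), (nat_lit 1644786000)], [], [(nat_lit 6015662285), (nat_lit 4879919823), (nat_lit 4639611440), (nat_lit 4841328134), (nat_lit 4035765957), (nat_lit 3581484937), (nat_lit 4976732814), (nat_lit 3648926852)], (nat_lit 1271251), (nat_lit 1271251), (nat_lit 1017188), (nat_lit 1440626), (nat_lit 0), (nat_lit 1412501), [(nat_lit 1100000), (nat_lit 2127501), (nat_lit 1271251)], [(nat_lit 19), (nat_lit 63), (nat_lit 401), (nat_lit 175), (nat_lit 9)]⟩,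
 ⟨⟨[(nat_lit 120), (nat_lit 160), (nat_lit 200)], [(nat_lit 0), (nat_lit 533), (nat_lit 3597)], [((nat_lit 0), (nat_lit 0), (nat_lit 0)), ((nat_lit 960), (nat_lit 1000), (nat_lit 200)), ((nat_lit 612), (nat_lit 1000), (nat_lit 732))], ((nat_lit 0), (nat_lit 0), (nat_lit 0))⟩, (nat_lit 15969), (nat_lit 300), (nat_lit 703), (nat_lit 2172804), (nat_lit 458559), [(nat_lit 239040000), (nat_lit 356160000), (nat_lit 492000000)], [], [(nat_lit 2021408851), (nat_lit 1976526861), (nat_lit 1825571053), (nat_lit 1799138487), (nat_lit 1522521419), (nat_lit 1477991689), (nat_lit 1807705306), (nat_lit 1401281449)], (nat_lit 1271251), (nat_lit 1271251), (nat_lit 559688), (nat_lit 1429376), (nat_lit 0), (nat_lit 1412501), [(nat_lit 1695001), (nat_lit 1271251), (nat_lit 1271251)], [(nat_lit 29), (nat_lit 66), (nat_lit 401), (nat_lit 175), (nat_lit 9)]⟩⟩) (.spl (nat_lit 1) (nat_lit 260) (.spl (nat_lit 6) (nat_lit 100) (.leaf ⟨(nat_lit 0), (nat_lit 830), (nat_lit 0),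 (nat_lit 170), (nat_lit 18795), (nat_lit 4284), (nat_lit 6313), (nat_lit 2383), (nat_lit 0), (nat_lit 0), (nat_lit 0), [], Pd.none, Pd.none, (nat_lit 0), (nat_lit 1), (nat_lit 0), (nat_lit 0), (nat_lit 4), (nat_lit 0), [⟨(nat_lit 0), (nat_lit 97), (nat_lit 31), (nat_lit 100), (nat_lit 875040976)⟩], [], [], [],
 ⟨⟨[(nat_lit 40), (nat_lit 80), (nat_lit 100)], [(nat_lit 0), (nat_lit 2514), (nat_lit 3562)], [((nat_lit 0), (nat_lit 0), (nat_lit 0)), ((nat_lit 1000), (nat_lit 446), (nat_lit 804)), ((nat_lit 1000), (nat_lit 443), (nat_lit 819))], ((nat_lit 44), (nat_lit 100), (nat_lit 87))⟩, (nat_lit 1190254), (nat_lit 117), (nat_lit 117), (nat_lit 0), (nat_lit 49984), [(nat_lit 2034857936), (nat_lit 4989064115), (nat_lit 6250000000)], [], [(nat_lit 23521409367), (nat_lit 25060508923), (nat_lit 24540818060), (nat_lit 26079333210), (nat_lit 24560682747), (nat_lit 25872061936), (nat_lit 25414993026), (nat_lit 26757756088)], (nat_lit 1271251), (nat_lit 1271251),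 (nat_lit 1271251), (nat_lit 1271251), (nat_lit 559688), (nat_lit 1429376), [(nat_lit 490000), (nat_lit 1100000), (nat_lit 1442501)], [(nat_lit 3), (nat_lit 50), (nat_lit 260), (nat_lit 50), (nat_lit 9)]⟩,
 ⟨⟨[(nat_lit 80), (nat_lit 140), (nat_lit 180)], [(nat_lit 0), (nat_lit 0), (nat_lit 3656)], [((nat_lit 0), (nat_lit 0), (nat_lit 0)), ((nat_lit 0), (nat_lit 0), (nat_lit 0)), ((nat_lit 637), (nat_lit 1000), (nat_lit 908))], ((nat_lit 100), (nat_lit 68), (nat_lit 88))⟩, (nat_lit 646591), (nat_lit 378), (nat_lit 378), (nat_lit 0), (nat_lit 127423), [(nat_lit 4688000000), (nat_lit 9842000000), (nat_lit 14058000000)], [], [(nat_lit 36567178382), (nat_lit 37545880055), (nat_lit 37530986400), (nat_lit 38500541185), (nat_lit 37329571238), (nat_lit 34412925782), (nat_lit 34097988652), (nat_lit 34742222607)], (nat_lit 1271251), (nat_lit 1271251), (nat_lit 1271251), (nat_lit 1271251), (nat_lit 0), (nat_lit 1412501), [(nat_lit 1100000), (nat_lit 2127501),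 (nat_lit 1271251)], [(nat_lit 19), (nat_lit 63), (nat_lit 401), (nat_lit 175), (nat_lit 9)]⟩,
 ⟨⟨[(nat_lit 120), (nat_lit 160), (nat_lit 200)], [(nat_lit 0), (nat_lit 533), (nat_lit 3597)], [((nat_lit 0), (nat_lit 0), (nat_lit 0)), ((nat_lit 960), (nat_lit 1000), (nat_lit 200)), ((nat_lit 612), (nat_lit 1000), (nat_lit 732))], ((nat_lit 0), (nat_lit 0), (nat_lit 0))⟩, (nat_lit 90489), (nat_lit 300), (nat_lit 628), (nat_lit 12312559), (nat_lit 266030), [(nat_lit 1354560000), (nat_lit 2018240000), (nat_lit 2788000000)], [], [(nat_lit 11514393123), (nat_lit 11271507934), (nat_lit 10445234131), (nat_lit 10193385534), (nat_lit 8789270324), (nat_lit 8548099585), (nat_lit 10158034898), (nat_lit 7926449526)], (nat_lit 1271251), (nat_lit 1271251), (nat_lit 559688), (nat_lit 1429376), (nat_lit 0), (nat_lit 1412501), [(nat_lit 1695001), (nat_lit 1271251), (nat_lit 1271251)], [(nat_lit 29), (nat_lit 66), (nat_lit 401), (nat_lit 175), (nat_lit 9)]⟩⟩) (.dle (nat_lit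 0))) (.leaf ⟨(nat_lit 0), (nat_lit 951), (nat_lit 0), (nat_lit 49), (nat_lit 14194), (nat_lit 7370), (nat_lit 10437), (nat_lit 708), (nat_lit 0), (nat_lit 0), (nat_lit 0), [], Pd.none, Pd.none, (nat_lit 0), (nat_lit 1), (nat_lit 0), (nat_lit 0), (nat_lit 4), (nat_lit 0), [⟨(nat_lit 0), (nat_lit 94), (nat_lit 31), (nat_lit 100), (nat_lit 980230952)⟩], [], [⟨(nat_lit 0), (nat_lit 100), (nat_lit 94), (nat_lit 35), (nat_lit 398474)⟩], [],
 ⟨⟨[(nat_lit 40), (nat_lit 80), (nat_lit 100)], [(nat_lit 0), (nat_lit 2514), (nat_lit 3562)], [((nat_lit 0), (nat_lit 0), (nat_lit 0)), ((nat_lit 1000), (nat_lit 446), (nat_lit 804)), ((nat_lit 1000), (nat_lit 443), (nat_lit 819))], ((nat_lit 44), (nat_lit 100), (nat_lit 89))⟩, (nat_lit 0), (nat_lit 128), (nat_lit 128), (nat_lit 0), (nat_lit 86810), [(nat_lit 2754917246), (nat_lit 5318489906), (nat_lit 6250000000)], [], [(nat_lit 27274088019), (nat_lit 29415610843), (nat_lit 28300300378), (nat_lit 30366566425), (nat_lit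 27335362288), (nat_lit 29127624370), (nat_lit 28122628445), (nat_lit 29774052900)], (nat_lit 1271251), (nat_lit 1271251), (nat_lit 1271251), (nat_lit 1271251), (nat_lit 559688), (nat_lit 1429376), [(nat_lit 490000), (nat_lit 1100000), (nat_lit 1442501)], [(nat_lit 3), (nat_lit 50), (nat_lit 260), (nat_lit 50), (nat_lit 9)]⟩,
 ⟨⟨[(nat_lit 80), (nat_lit 140), (nat_lit 180)], [(nat_lit 0), (nat_lit 792), (nat_lit 4228)], [((nat_lit 0), (nat_lit 0), (nat_lit 0)), ((nat_lit 1000), (nat_lit 959), (nat_lit 206)), ((nat_lit 709), (nat_lit 1000), (nat_lit 949))], ((nat_lit 100), (nat_lit 74), (nat_lit 93))⟩, (nat_lit 2811860), (nat_lit 402), (nat_lit 402), (nat_lit 0), (nat_lit 187527), [(nat_lit 4688000000), (nat_lit 9842000000), (nat_lit 14058000000)], [], [(nat_lit 31364787769), (nat_lit 32171355130), (nat_lit 31840019457), (nat_lit 32862047426), (nat_lit 27660748911), (nat_lit 24410940892), (nat_lit 24043445661), (nat_lit 24787079266)], (nat_lit 1271251),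 (nat_lit 1271251), (nat_lit 1271251), (nat_lit 1271251), (nat_lit 0), (nat_lit 1412501), [(nat_lit 1100000), (nat_lit 2127501), (nat_lit 1271251)], [(nat_lit 19), (nat_lit 63), (nat_lit 428), (nat_lit 200), (nat_lit 10)]⟩,
 ⟨⟨[(nat_lit 120), (nat_lit 160), (nat_lit 200)], [(nat_lit 0), (nat_lit 533), (nat_lit 3597)], [((nat_lit 0), (nat_lit 0), (nat_lit 0)), ((nat_lit 960), (nat_lit 1000), (nat_lit 200)), ((nat_lit 612), (nat_lit 1000), (nat_lit 732))], ((nat_lit 0), (nat_lit 0), (nat_lit 0))⟩, (nat_lit 26082), (nat_lit 300), (nat_lit 703), (nat_lit 3548916), (nat_lit 458559), [(nat_lit 390432000), (nat_lit 581728000), (nat_lit 803600000)], [], [(nat_lit 3302314421), (nat_lit 3229137126), (nat_lit 2982143649), (nat_lit 2938574298), (nat_lit 2488621960), (nat_lit 2416016824), (nat_lit 2951613131), (nat_lit 2288599097)], (nat_lit 1271251), (nat_lit 1271251), (nat_lit 559688), (nat_lit 1429376), (nat_lit 0), (nat_lit 1412501), [(nat_lit 1695001), (nat_lit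 1271251), (nat_lit 1271251)], [(nat_lit 29), (nat_lit 66), (nat_lit 401), (nat_lit 175), (nat_lit 9)]⟩⟩))) (.leaf ⟨(nat_lit 0), (nat_lit 0), (nat_lit 0), (nat_lit 1000), (nat_lit 58895), (nat_lit 4254), (nat_lit 21896), (nat_lit 11592), (nat_lit 0), (nat_lit 0), (nat_lit 0), [], Pd.none, Pd.none, (nat_lit 0), (nat_lit 1), (nat_lit 0), (nat_lit 0), (nat_lit 0), (nat_lit 0), [⟨(nat_lit 0), (nat_lit 95), (nat_lit 31), (nat_lit 100), (nat_lit 1503107485)⟩], [⟨(nat_lit 0), (nat_lit 100), (nat_lit 31), (nat_lit 95), (nat_lit 1887738540)⟩], [], [],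
 ⟨⟨[(nat_lit 40), (nat_lit 80), (nat_lit 100)], [(nat_lit 0), (nat_lit 2514), (nat_lit 3562)], [((nat_lit 0), (nat_lit 0), (nat_lit 0)), ((nat_lit 1000), (nat_lit 446), (nat_lit 804)), ((nat_lit 1000), (nat_lit 443), (nat_lit 819))], ((nat_lit 44), (nat_lit 100), (nat_lit 89))⟩, (nat_lit 1239360), (nat_lit 133), (nat_lit 133), (nat_lit 0), (nat_lit 86810), [(nat_lit 2032000032), (nat_lit 5202616175), (nat_lit 6250000000)], [], [(nat_lit 22289269311), (nat_lit 23957183071), (nat_lit 24370570691), (nat_lit 26037655635), (nat_lit 23543574605), (nat_lit 24934394485), (nat_lit 25254970999), (nat_lit 26728437628)], (nat_lit 1271251), (nat_lit 1271251), (nat_lit 1017188), (nat_lit 1779376), (nat_lit 559688), (nat_lit 1429376), [(nat_lit 490000), (nat_lit 1100000), (nat_lit 1442501)], [(nat_lit 3), (nat_lit 50), (nat_lit 345), (nat_lit 125), (nat_lit 12)]⟩,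
 ⟨⟨[(nat_lit 80), (nat_lit 140), (nat_lit 180)], [(nat_lit 0), (nat_lit 0), (nat_lit 3656)], [((nat_lit 0), (nat_lit 0), (nat_lit 0)), ((nat_lit 0), (nat_lit 0), (nat_lit 0)), ((nat_lit 637), (nat_lit 1000), (nat_lit 908))], ((nat_lit 100), (nat_lit 64), (nat_lit 91))⟩, (nat_lit 0), (nat_lit 255), (nat_lit 255), (nat_lit 0), (nat_lit 195463), [(nat_lit 4688000000), (nat_lit 9842000000), (nat_lit 14058000000)], [], [(nat_lit 25561294162), (nat_lit 29276205974), (nat_lit 40529102032), (nat_lit 28627466752), (nat_lit 44770475920), (nat_lit 48676293018), (nat_lit 44131546144), (nat_lit 47081547040)], (nat_lit 1271251), (nat_lit 1271251), (nat_lit 1017188), (nat_lit 1779376), (nat_lit 1271251), (nat_lit 1271251), [(nat_lit 1100000), (nat_lit 2127501), (nat_lit 1271251)], [(nat_lit 19), (nat_lit 63), (nat_lit 483), (nat_lit 250), (nat_lit 11)]⟩,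
 ⟨⟨[(nat_lit 120), (nat_lit 160), (nat_lit 200)], [(nat_lit 0), (nat_lit 533), (nat_lit 3597)], [((nat_lit 0), (nat_lit 0), (nat_lit 0)), ((nat_lit 960), (nat_lit 1000), (nat_lit 200)), ((nat_lit 612), (nat_lit 1000), (nat_lit 732))], ((nat_lit 0), (nat_lit 0), (nat_lit 0))⟩, (nat_lit 532287), (nat_lit 300), (nat_lit 526), (nat_lit 72426819), (nat_lit 458559), [(nat_lit 7968000000), (nat_lit 11872000000), (nat_lit 16400000000)], [], [(nat_lit 51951742258), (nat_lit 51308161954), (nat_lit 49917646534), (nat_lit 47389832326), (nat_lit 55144758458), (nat_lit 54079744798), (nat_lit 50232961584), (nat_lit 49118968432)], (nat_lit 1271251), (nat_lit 1271251), (nat_lit 559688), (nat_lit 1429376), (nat_lit 1271251), (nat_lit 1271251), [(nat_lit 1695001), (nat_lit 1271251), (nat_lit 1271251)], [(nat_lit 29), (nat_lit 66), (nat_lit 456), (nat_lit 225), (nat_lit 9)]⟩⟩)) (.spl (nat_lit 5) (nat_lit 120) (.spl (nat_lit 1) (nat_lit 260) (.spl (nat_lit 6) (nat_lit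 100) (.spl (nat_lit 0) (nat_lit 390) (.dle (nat_lit 0)) (.trZ (nat_lit 0) (nat_lit 1) (nat_lit 3) (nat_lit 99) (nat_lit 31) (nat_lit 100) (nat_lit 170) (.trX (nat_lit 4) (nat_lit 0) (nat_lit 2) (nat_lit 31) (nat_lit 92) (nat_lit 100) (nat_lit 290) (.leaf ⟨(nat_lit 0), (nat_lit 687), (nat_lit 0), (nat_lit 313), (nat_lit 36009), (nat_lit 5743), (nat_lit 6158), (nat_lit 3473), (nat_lit 0), (nat_lit 0), (nat_lit 0), [], Pd.none, Pd.none, (nat_lit 0), (nat_lit 1), (nat_lit 0), (nat_lit 0), (nat_lit 5), (nat_lit 0), [⟨(nat_lit 0), (nat_lit 97), (nat_lit 22), (nat_lit 100), (nat_lit 1487018425)⟩], [⟨(nat_lit 1), (nat_lit 98), (nat_lit 22), (nat_lit 100), (nat_lit 494503653)⟩], [⟨(nat_lit 0), (nat_lit 100), (nat_lit 97), (nat_lit 25), (nat_lit 176086131)⟩], [],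
 ⟨⟨[(nat_lit 40), (nat_lit 60), (nat_lit 80)], [(nat_lit 0), (nat_lit 2136), (nat_lit 3185)], [((nat_lit 0), (nat_lit 0), (nat_lit 0)), ((nat_lit 1000), (nat_lit 343), (nat_lit 808)), ((nat_lit 1000), (nat_lit 338), (nat_lit 820))], ((nat_lit 32), (nat_lit 100), (nat_lit 88))⟩, (nat_lit 0), (nat_lit 84), (nat_lit 84), (nat_lit 0), (nat_lit 49684), [(nat_lit 2441757849), (nat_lit 3694297637), (nat_lit 4688000000)], [], [(nat_lit 26118262216), (nat_lit 26990131516), (nat_lit 27605504016), (nat_lit 28368384488), (nat_lit 29102384525), (nat_lit 29875052384), (nat_lit 30169239770), (nat_lit 30908528100)], (nat_lit 1271251), (nat_lit 1271251), (nat_lit 1184688), (nat_lit 1790626), (nat_lit 1271251), (nat_lit 1271251), [(nat_lit 490000), (nat_lit 780000), (nat_lit 1100000)], [(nat_lit 2), (nat_lit 44), (nat_lit 203), (nat_lit 0), (nat_lit 7)]⟩,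
 ⟨⟨[(nat_lit 80), (nat_lit 140), (nat_lit 180)], [(nat_lit 0), (nat_lit 0), (nat_lit 3656)], [((nat_lit 0), (nat_lit 0), (nat_lit 0)), ((nat_lit 0), (nat_lit 0), (nat_lit 0)), ((nat_lit 637), (nat_lit 1000), (nat_lit 908))], ((nat_lit 100), (nat_lit 68), (nat_lit 88))⟩, (nat_lit 325952), (nat_lit 374), (nat_lit 374), (nat_lit 0), (nat_lit 100869), [(nat_lit 4688000000), (nat_lit 9842000000), (nat_lit 14058000000)], [], [(nat_lit 37144461686), (nat_lit 38101037214), (nat_lit 38750382048), (nat_lit 39573123012), (nat_lit 33701513510), (nat_lit 34559822544), (nat_lit 39954651948), (nat_lit 37071833512)], (nat_lit 1271251), (nat_lit 1271251), (nat_lit 1184688), (nat_lit 1790626), (nat_lit 0), (nat_lit 780000), [(nat_lit 1100000), (nat_lit 2127501), (nat_lit 1271251)], [(nat_lit 19), (nat_lit 63), (nat_lit 401), (nat_lit 175), (nat_lit 9)]⟩,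
 ⟨⟨[(nat_lit 120), (nat_lit 160), (nat_lit 200)], [(nat_lit 0), (nat_lit 533), (nat_lit 3597)], [((nat_lit 0), (nat_lit 0), (nat_lit 0)), ((nat_lit 960), (nat_lit 1000), (nat_lit 200)), ((nat_lit 612), (nat_lit 1000), (nat_lit 732))], ((nat_lit 0), (nat_lit 0), (nat_lit 0))⟩, (nat_lit 166606), (nat_lit 300), (nat_lit 495), (nat_lit 22669594), (nat_lit 189944), [(nat_lit 2493984000), (nat_lit 3715936000), (nat_lit 5133200000)], [], [(nat_lit 18901718907), (nat_lit 18747050059), (nat_lit 18996131087), (nat_lit 18774821530), (nat_lit 16081255116), (nat_lit 15874645416), (nat_lit 15989809642), (nat_lit 15780625150)], (nat_lit 1271251), (nat_lit 1271251), (nat_lit 1271251), (nat_lit 1271251), (nat_lit 0), (nat_lit 780000), [(nat_lit 1695001), (nat_lit 1271251), (nat_lit 1271251)], [(nat_lit 29), (nat_lit 66), (nat_lit 401), (nat_lit 175), (nat_lit 9)]⟩⟩)))) (.dle (nat_lit 0))) (.trZ (nat_lit 0) (nat_lit 1) (nat_lit 3) (nat_lit 96) (nat_lit 44) (nat_lit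 100) (nat_lit 170) (.leaf ⟨(nat_lit 0), (nat_lit 676), (nat_lit 0), (nat_lit 324), (nat_lit 24206), (nat_lit 7067), (nat_lit 7277), (nat_lit 3595), (nat_lit 0), (nat_lit 0), (nat_lit 0), [], Pd.none, Pd.none, (nat_lit 0), (nat_lit 1), (nat_lit 0), (nat_lit 0), (nat_lit 5), (nat_lit 0), [⟨(nat_lit 0), (nat_lit 94), (nat_lit 31), (nat_lit 100), (nat_lit 1577851398)⟩], [⟨(nat_lit 1), (nat_lit 95), (nat_lit 31), (nat_lit 100), (nat_lit 105951396)⟩], [], [⟨(nat_lit 0), (nat_lit 96), (nat_lit 100), (nat_lit 30), (nat_lit 284710300)⟩],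
 ⟨⟨[(nat_lit 40), (nat_lit 80), (nat_lit 100)], [(nat_lit 0), (nat_lit 2514), (nat_lit 3562)], [((nat_lit 0), (nat_lit 0), (nat_lit 0)), ((nat_lit 1000), (nat_lit 446), (nat_lit 804)), ((nat_lit 1000), (nat_lit 443), (nat_lit 819))], ((nat_lit 44), (nat_lit 100), (nat_lit 89))⟩, (nat_lit 0), (nat_lit 112), (nat_lit 112), (nat_lit 0), (nat_lit 86810), [(nat_lit 2817160618), (nat_lit 5248075632), (nat_lit 6250000000)], [], [(nat_lit 26883817661), (nat_lit 28730855000), (nat_lit 28273053250), (nat_lit 29882111790), (nat_lit 30772470309), (nat_lit 32386791180), (nat_lit 31553114027), (nat_lit 33134745537)], (nat_lit 1271251), (nat_lit 1271251), (nat_lit 1184688), (nat_lit 1790626), (nat_lit 1271251), (nat_lit 1271251), [(nat_lit 490000), (nat_lit 1100000), (nat_lit 1442501)], [(nat_lit 3), (nat_lit 50), (nat_lit 272), (nat_lit 60), (nat_lit 9)]⟩,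
 ⟨⟨[(nat_lit 80), (nat_lit 140), (nat_lit 180)], [(nat_lit 0), (nat_lit 792), (nat_lit 4228)], [((nat_lit 0), (nat_lit 0), (nat_lit 0)), ((nat_lit 1000), (nat_lit 959), (nat_lit 206)), ((nat_lit 709), (nat_lit 1000), (nat_lit 949))], ((nat_lit 100), (nat_lit 74), (nat_lit 93))⟩, (nat_lit 2417090), (nat_lit 395), (nat_lit 395), (nat_lit 0), (nat_lit 149248), [(nat_lit 4688000000), (nat_lit 9842000000), (nat_lit 14058000000)], [], [(nat_lit 34751486221), (nat_lit 35512919953), (nat_lit 35557014442), (nat_lit 36200609572), (nat_lit 30139321470), (nat_lit 30887330817), (nat_lit 34464125548), (nat_lit 31800944348)], (nat_lit 1271251), (nat_lit 1271251), (nat_lit 1184688), (nat_lit 1790626), (nat_lit 0), (nat_lit 780000), [(nat_lit 1100000), (nat_lit 2127501), (nat_lit 1271251)], [(nat_lit 19), (nat_lit 63), (nat_lit 401), (nat_lit 175), (nat_lit 9)]⟩,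
 ⟨⟨[(nat_lit 120), (nat_lit 160), (nat_lit 200)], [(nat_lit 0), (nat_lit 533), (nat_lit 3597)], [((nat_lit 0), (nat_lit 0), (nat_lit 0)), ((nat_lit 960), (nat_lit 1000), (nat_lit 200)), ((nat_lit 612), (nat_lit 1000), (nat_lit 732))], ((nat_lit 0), (nat_lit 0), (nat_lit 0))⟩, (nat_lit 172461), (nat_lit 300), (nat_lit 549), (nat_lit 23466290), (nat_lit 320658), [(nat_lit 2581632000), (nat_lit 3846528000), (nat_lit 5313600000)], [], [(nat_lit 19566292988), (nat_lit 19405891241), (nat_lit 19762028513), (nat_lit 19514863057), (nat_lit 16741928518), (nat_lit 16492202515), (nat_lit 16636652214), (nat_lit 16403290906)], (nat_lit 1271251), (nat_lit 1271251), (nat_lit 1271251), (nat_lit 1271251), (nat_lit 0), (nat_lit 780000), [(nat_lit 1695001), (nat_lit 1271251), (nat_lit 1271251)], [(nat_lit 29), (nat_lit 66), (nat_lit 401), (nat_lit 175), (nat_lit 9)]⟩⟩))) (.leaf ⟨(nat_lit 0), (nat_lit 0), (nat_lit 0), (nat_lit 1000), (nat_lit 0), (nat_lit 7370), (nat_lit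 7270), (nat_lit 11583), (nat_lit 0), (nat_lit 0), (nat_lit 0), [], Pd.none, Pd.none, (nat_lit 0), (nat_lit 1), (nat_lit 0), (nat_lit 0), (nat_lit 0), (nat_lit 0), [⟨(nat_lit 0), (nat_lit 95), (nat_lit 31), (nat_lit 100), (nat_lit 1257009491)⟩], [], [], [],
 ⟨⟨[(nat_lit 40), (nat_lit 80), (nat_lit 100)], [(nat_lit 0), (nat_lit 2514), (nat_lit 3562)], [((nat_lit 0), (nat_lit 0), (nat_lit 0)), ((nat_lit 1000), (nat_lit 446), (nat_lit 804)), ((nat_lit 1000), (nat_lit 443), (nat_lit 819))], ((nat_lit 44), (nat_lit 100), (nat_lit 89))⟩, (nat_lit 0), (nat_lit 117), (nat_lit 117), (nat_lit 0), (nat_lit 86810), [(nat_lit 3514532458), (nat_lit 5498850548), (nat_lit 6250000000)], [], [(nat_lit 26651809257), (nat_lit 28614683698), (nat_lit 28122628445), (nat_lit 29774052900), (nat_lit 30960521783), (nat_lit 32887625646), (nat_lit 31842540763), (nat_lit 33464927515)], (nat_lit 1271251), (nat_lit 1271251), (nat_lit 1017188), (nat_lit 1779376), (nat_lit 1271251),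 (nat_lit 1271251), [(nat_lit 490000), (nat_lit 1100000), (nat_lit 1442501)], [(nat_lit 3), (nat_lit 50), (nat_lit 272), (nat_lit 60), (nat_lit 9)]⟩,
 ⟨⟨[(nat_lit 80), (nat_lit 140), (nat_lit 180)], [(nat_lit 0), (nat_lit 0), (nat_lit 3656)], [((nat_lit 0), (nat_lit 0), (nat_lit 0)), ((nat_lit 0), (nat_lit 0), (nat_lit 0)), ((nat_lit 637), (nat_lit 1000), (nat_lit 908))], ((nat_lit 100), (nat_lit 64), (nat_lit 91))⟩, (nat_lit 0), (nat_lit 255), (nat_lit 255), (nat_lit 0), (nat_lit 195463), [(nat_lit 4688000000), (nat_lit 9842000000), (nat_lit 14058000000)], [], [(nat_lit 33129229458), (nat_lit 35397605472), (nat_lit 39414040620), (nat_lit 36880571760), (nat_lit 58260308040), (nat_lit 51862595355), (nat_lit 69083772520), (nat_lit 62862659040)], (nat_lit 1271251), (nat_lit 1271251), (nat_lit 1017188), (nat_lit 1779376), (nat_lit 780000), (nat_lit 3072501), [(nat_lit 1100000), (nat_lit 2127501), (nat_lit 1271251)], [(nat_lit 19), (nat_lit 63), (nat_lit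 483), (nat_lit 250), (nat_lit 11)]⟩,
 ⟨⟨[(nat_lit 120), (nat_lit 160), (nat_lit 200)], [(nat_lit 0), (nat_lit 533), (nat_lit 3597)], [((nat_lit 0), (nat_lit 0), (nat_lit 0)), ((nat_lit 960), (nat_lit 1000), (nat_lit 200)), ((nat_lit 612), (nat_lit 1000), (nat_lit 732))], ((nat_lit 0), (nat_lit 0), (nat_lit 0))⟩, (nat_lit 532287), (nat_lit 300), (nat_lit 508), (nat_lit 72426819), (nat_lit 458559), [(nat_lit 7968000000), (nat_lit 11872000000), (nat_lit 16400000000)], [], [(nat_lit 50552862898), (nat_lit 49917092089), (nat_lit 50848363162), (nat_lit 50065331928), (nat_lit 50253703197), (nat_lit 49132488943), (nat_lit 48653001443), (nat_lit 47396945519)], (nat_lit 1271251), (nat_lit 1271251), (nat_lit 1271251), (nat_lit 1271251), (nat_lit 780000), (nat_lit 3072501), [(nat_lit 1695001), (nat_lit 1271251), (nat_lit 1271251)], [(nat_lit 29), (nat_lit 66), (nat_lit 483), (nat_lit 250), (nat_lit 10)]⟩⟩)))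
noncomputable def c14_118 : Tr Lf :=
 (.spl (nat_lit 5) (nat_lit 120) (.spl (nat_lit 0) (nat_lit 390) (.spl (nat_lit 6) (nat_lit 96) (.leaf ⟨(nat_lit 0), (nat_lit 803), (nat_lit 0), (nat_lit 197), (nat_lit 27620), (nat_lit 4286), (nat_lit 11771), (nat_lit 2222), (nat_lit 0), (nat_lit 0), (nat_lit 0), [], Pd.none, Pd.none, (nat_lit 0), (nat_lit 1), (nat_lit 0), (nat_lit 0), (nat_lit 4), (nat_lit 0), [], [], [⟨(nat_lit 0), (nat_lit 100), (nat_lit 95), (nat_lit 30), (nat_lit 183803201)⟩], [⟨(nat_lit 0), (nat_lit 100), (nat_lit 87), (nat_lit 50), (nat_lit 223141438)⟩],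
 ⟨⟨[(nat_lit 40), (nat_lit 80), (nat_lit 100)], [(nat_lit 0), (nat_lit 2514), (nat_lit 3562)], [((nat_lit 0), (nat_lit 0), (nat_lit 0)), ((nat_lit 1000), (nat_lit 446), (nat_lit 804)), ((nat_lit 1000), (nat_lit 443), (nat_lit 819))], ((nat_lit 44), (nat_lit 100), (nat_lit 86))⟩, (nat_lit 1025982), (nat_lit 132), (nat_lit 132), (nat_lit 0), (nat_lit 32715), [(nat_lit 2073812392), (nat_lit 4973088503), (nat_lit 6250000000)], [], [(nat_lit 25125643711), (nat_lit 25839684905), (nat_lit 30684725295), (nat_lit 31342287951), (nat_lit 29010293414), (nat_lit 29500477908), (nat_lit 33220666084), (nat_lit 33675455073)], (nat_lit 1271251), (nat_lit 1271251), (nat_lit 1271251), (nat_lit 1271251), (nat_lit 559688), (nat_lit 2299063), [(nat_lit 490000), (nat_lit 1100000), (nat_lit 1442501)], [(nat_lit 3), (nat_lit 50), (nat_lit 317), (nat_lit 100), (nat_lit 11)]⟩,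
 ⟨⟨[(nat_lit 80), (nat_lit 140), (nat_lit 180)], [(nat_lit 0), (nat_lit 0), (nat_lit 3656)], [((nat_lit 0), (nat_lit 0), (nat_lit 0)), ((nat_lit 0), (nat_lit 0), (nat_lit 0)), ((nat_lit 637), (nat_lit 1000), (nat_lit 908))], ((nat_lit 100), (nat_lit 69), (nat_lit 87))⟩, (nat_lit 2604552), (nat_lit 304), (nat_lit 304), (nat_lit 0), (nat_lit 63889), [(nat_lit 4688000000), (nat_lit 9842000000), (nat_lit 14058000000)], [], [(nat_lit 34679619864), (nat_lit 36171044110), (nat_lit 42534732868), (nat_lit 44402337366), (nat_lit 25732262606), (nat_lit 27624315199), (nat_lit 32224090596), (nat_lit 33312268832)], (nat_lit 1271251), (nat_lit 1271251), (nat_lit 1271251), (nat_lit 1271251), (nat_lit 0), (nat_lit 780000), [(nat_lit 1100000), (nat_lit 2127501), (nat_lit 1271251)], [(nat_lit 19), (nat_lit 63), (nat_lit 428), (nat_lit 200), (nat_lit 10)]⟩,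
 ⟨⟨[(nat_lit 120), (nat_lit 160), (nat_lit 200)], [(nat_lit 0), (nat_lit 533), (nat_lit 3597)], [((nat_lit 0), (nat_lit 0), (nat_lit 0)), ((nat_lit 960), (nat_lit 1000), (nat_lit 200)), ((nat_lit 612), (nat_lit 1000), (nat_lit 732))], ((nat_lit 0), (nat_lit 0), (nat_lit 0))⟩, (nat_lit 104861), (nat_lit 300), (nat_lit 515), (nat_lit 14268082), (nat_lit 106297), [(nat_lit 1569696000), (nat_lit 2338784000), (nat_lit 3230800000)], [], [(nat_lit 12672350639), (nat_lit 12593760098), (nat_lit 12015272004), (nat_lit 11860111843), (nat_lit 10827449004), (nat_lit 10703870871), (nat_lit 11890088541), (nat_lit 9931905965)], (nat_lit 1271251), (nat_lit 1271251), (nat_lit 559688), (nat_lit 2299063), (nat_lit 0), (nat_lit 780000), [(nat_lit 1695001), (nat_lit 1271251), (nat_lit 1271251)], [(nat_lit 29), (nat_lit 66), (nat_lit 401), (nat_lit 175), (nat_lit 9)]⟩⟩) (.dle (nat_lit 0))) (.trX (nat_lit 3) (nat_lit 0) (nat_lit 1) (nat_lit 34) (nat_lit 81) (nat_lit 100)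 (nat_lit 340) (.trZ (nat_lit 0) (nat_lit 2) (nat_lit 4) (nat_lit 100) (nat_lit 31) (nat_lit 92) (nat_lit 110) (.trX (nat_lit 4) (nat_lit 0) (nat_lit 2) (nat_lit 31) (nat_lit 92) (nat_lit 100) (nat_lit 290) (.leaf ⟨(nat_lit 0), (nat_lit 779), (nat_lit 0), (nat_lit 221), (nat_lit 7834), (nat_lit 4094), (nat_lit 11771), (nat_lit 3329), (nat_lit 0), (nat_lit 0), (nat_lit 0), [], Pd.none, Pd.none, (nat_lit 0), (nat_lit 1), (nat_lit 0), (nat_lit 0), (nat_lit 4), (nat_lit 0), [], [⟨(nat_lit 1), (nat_lit 98), (nat_lit 22), (nat_lit 100), (nat_lit 70253020)⟩], [⟨(nat_lit 0), (nat_lit 100), (nat_lit 95), (nat_lit 30), (nat_lit 264950563)⟩], [⟨(nat_lit 0), (nat_lit 100), (nat_lit 89), (nat_lit 45), (nat_lit 115730478)⟩],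
 ⟨⟨[(nat_lit 40), (nat_lit 80), (nat_lit 100)], [(nat_lit 0), (nat_lit 3225), (nat_lit 4371)], [((nat_lit 0), (nat_lit 0), (nat_lit 0)), ((nat_lit 1000), (nat_lit 321), (nat_lit 877)), ((nat_lit 1000), (nat_lit 317), (nat_lit 896))], ((nat_lit 32), (nat_lit 100), (nat_lit 90))⟩, (nat_lit 899927), (nat_lit 137), (nat_lit 137), (nat_lit 0), (nat_lit 86024), [(nat_lit 2032000075), (nat_lit 5084973036), (nat_lit 6250000000)], [], [(nat_lit 25641363841), (nat_lit 26281865242), (nat_lit 29714153027), (nat_lit 30380061700), (nat_lit 28688552687), (nat_lit 29182410008), (nat_lit 32043793847), (nat_lit 32536836579)], (nat_lit 1271251), (nat_lit 1271251), (nat_lit 1271251), (nat_lit 1271251), (nat_lit 704688), (nat_lit 2161563), [(nat_lit 490000), (nat_lit 1100000), (nat_lit 1442501)], [(nat_lit 3), (nat_lit 50), (nat_lit 289), (nat_lit 75), (nat_lit 9)]⟩,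
 ⟨⟨[(nat_lit 80), (nat_lit 140), (nat_lit 180)], [(nat_lit 0), (nat_lit 0), (nat_lit 3656)], [((nat_lit 0), (nat_lit 0), (nat_lit 0)), ((nat_lit 0), (nat_lit 0), (nat_lit 0)), ((nat_lit 637), (nat_lit 1000), (nat_lit 908))], ((nat_lit 100), (nat_lit 64), (nat_lit 91))⟩, (nat_lit 2604552), (nat_lit 383), (nat_lit 383), (nat_lit 0), (nat_lit 155059), [(nat_lit 4688000000), (nat_lit 9842000000), (nat_lit 14058000000)], [], [(nat_lit 34679619864), (nat_lit 36171044110), (nat_lit 40671455084), (nat_lit 42386387935), (nat_lit 25732262606), (nat_lit 27624315199), (nat_lit 30870229194), (nat_lit 32097357397)], (nat_lit 1271251), (nat_lit 1271251), (nat_lit 1271251), (nat_lit 1271251), (nat_lit 0), (nat_lit 780000), [(nat_lit 1100000), (nat_lit 2127501), (nat_lit 1271251)], [(nat_lit 19), (nat_lit 63), (nat_lit 428), (nat_lit 200), (nat_lit 10)]⟩,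
 ⟨⟨[(nat_lit 120), (nat_lit 160), (nat_lit 200)], [(nat_lit 0), (nat_lit 533), (nat_lit 3597)], [((nat_lit 0), (nat_lit 0), (nat_lit 0)), ((nat_lit 960), (nat_lit 1000), (nat_lit 200)), ((nat_lit 612), (nat_lit 1000), (nat_lit 732))], ((nat_lit 0), (nat_lit 0), (nat_lit 0))⟩, (nat_lit 117635), (nat_lit 300), (nat_lit 638), (nat_lit 16006335), (nat_lit 320658), [(nat_lit 1760928000), (nat_lit 2623712000), (nat_lit 3624400000)], [], [(nat_lit 14455417369), (nat_lit 14273233192), (nat_lit 13409791685), (nat_lit 13138879971), (nat_lit 11594172777), (nat_lit 11258186870), (nat_lit 14095608495), (nat_lit 10988631573)], (nat_lit 1271251), (nat_lit 1271251), (nat_lit 704688), (nat_lit 2161563), (nat_lit 0), (nat_lit 780000), [(nat_lit 1695001), (nat_lit 1271251), (nat_lit 1271251)], [(nat_lit 29), (nat_lit 66), (nat_lit 401), (nat_lit 175), (nat_lit 9)]⟩⟩))))) (.leaf ⟨(nat_lit 0), (nat_lit 561), (nat_lit 0), (nat_lit 439), (nat_lit 0), (nat_lit 4394), (nat_lit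 6952), (nat_lit 3536), (nat_lit 0), (nat_lit 0), (nat_lit 0), [], Pd.none, Pd.none, (nat_lit 0), (nat_lit 1), (nat_lit 0), (nat_lit 0), (nat_lit 4), (nat_lit 0), [], [⟨(nat_lit 0), (nat_lit 100), (nat_lit 31), (nat_lit 95), (nat_lit 58380494)⟩], [], [],
 ⟨⟨[(nat_lit 40), (nat_lit 80), (nat_lit 100)], [(nat_lit 0), (nat_lit 2514), (nat_lit 3562)], [((nat_lit 0), (nat_lit 0), (nat_lit 0)), ((nat_lit 1000), (nat_lit 446), (nat_lit 804)), ((nat_lit 1000), (nat_lit 443), (nat_lit 819))], ((nat_lit 44), (nat_lit 100), (nat_lit 89))⟩, (nat_lit 1014883), (nat_lit 149), (nat_lit 149), (nat_lit 0), (nat_lit 86810), [(nat_lit 2032000035), (nat_lit 4688000014), (nat_lit 6250000000)], [], [(nat_lit 25443710773), (nat_lit 26597376635), (nat_lit 30875861805), (nat_lit 32207331485), (nat_lit 29004958507), (nat_lit 30221952043), (nat_lit 33353112302), (nat_lit 34271544619)], (nat_lit 1271251), (nat_lit 1271251), (nat_lit 1271251), (nat_lit 1271251), (nat_lit 559688),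 (nat_lit 2299063), [(nat_lit 490000), (nat_lit 1100000), (nat_lit 1442501)], [(nat_lit 3), (nat_lit 50), (nat_lit 317), (nat_lit 100), (nat_lit 11)]⟩,
 ⟨⟨[(nat_lit 80), (nat_lit 140), (nat_lit 180)], [(nat_lit 0), (nat_lit 0), (nat_lit 3656)], [((nat_lit 0), (nat_lit 0), (nat_lit 0)), ((nat_lit 0), (nat_lit 0), (nat_lit 0)), ((nat_lit 637), (nat_lit 1000), (nat_lit 908))], ((nat_lit 100), (nat_lit 64), (nat_lit 91))⟩, (nat_lit 1599169), (nat_lit 259), (nat_lit 259), (nat_lit 0), (nat_lit 195463), [(nat_lit 4688000000), (nat_lit 9842000000), (nat_lit 14058000000)], [], [(nat_lit 29308549208), (nat_lit 31138762912), (nat_lit 35398344040), (nat_lit 36599364460), (nat_lit 37117683136), (nat_lit 37863307864), (nat_lit 39859351544), (nat_lit 40266699488)], (nat_lit 1271251), (nat_lit 1271251), (nat_lit 1271251), (nat_lit 1271251), (nat_lit 780000), (nat_lit 3072501), [(nat_lit 1100000), (nat_lit 2127501), (nat_lit 1271251)], [(nat_lit 19), (nat_lit 63),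 (nat_lit 538), (nat_lit 300), (nat_lit 12)]⟩,
 ⟨⟨[(nat_lit 120), (nat_lit 160), (nat_lit 200)], [(nat_lit 0), (nat_lit 533), (nat_lit 3597)], [((nat_lit 0), (nat_lit 0), (nat_lit 0)), ((nat_lit 960), (nat_lit 1000), (nat_lit 200)), ((nat_lit 612), (nat_lit 1000), (nat_lit 732))], ((nat_lit 0), (nat_lit 0), (nat_lit 0))⟩, (nat_lit 233674), (nat_lit 300), (nat_lit 609), (nat_lit 31795374), (nat_lit 458559), [(nat_lit 3497952000), (nat_lit 5211808000), (nat_lit 7199600000)], [], [(nat_lit 29109345744), (nat_lit 28883448284), (nat_lit 27660093340), (nat_lit 27368862864), (nat_lit 28451094040), (nat_lit 28109478057), (nat_lit 27268747960), (nat_lit 26064589868)], (nat_lit 1271251), (nat_lit 1271251), (nat_lit 559688), (nat_lit 2299063), (nat_lit 780000), (nat_lit 3072501), [(nat_lit 1695001), (nat_lit 1271251), (nat_lit 1271251)], [(nat_lit 29), (nat_lit 66), (nat_lit 483), (nat_lit 250), (nat_lit 10)]⟩⟩))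
noncomputable def c14_119 : Tr Lf :=
 (.trZ (nat_lit 0) (nat_lit 1) (nat_lit 3) (nat_lit 92) (nat_lit 44) (nat_lit 100) (nat_lit 190) (.spl (nat_lit 5) (nat_lit 120) (.spl (nat_lit 0) (nat_lit 390) (.spl (nat_lit 6) (nat_lit 120) (.leaf ⟨(nat_lit 15), (nat_lit 760), (nat_lit 0), (nat_lit 225), (nat_lit 13012), (nat_lit 4287), (nat_lit 7964), (nat_lit 2902), (nat_lit 0), (nat_lit 0), (nat_lit 3750), [((nat_lit 390), [((nat_lit 29), (nat_lit 0), (nat_lit 15))])], ⟨(nat_lit 7), false, true, false, (nat_lit 293), (nat_lit 1581), (nat_lit 2237), [(nat_lit 1576639), (nat_lit 1579397), (nat_lit 1622097), (nat_lit 1625936), (nat_lit 1847666), (nat_lit 1839120), (nat_lit 1893214), (nat_lit 1885750)]⟩, ⟨(nat_lit 4), false, false, true, (nat_lit 200), (nat_lit 1581), (nat_lit 2237), [(nat_lit 1320243), (nat_lit 1326247), (nat_lit 1365701), (nat_lit 1372786), (nat_lit 1634017), (nat_lit 1626932), (nat_lit 1679566), (nat_lit 1673562)]⟩, (nat_lit 5356817), (nat_lit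 35755431), (nat_lit 20326896), (nat_lit 10917673), (nat_lit 4), (nat_lit 0), [⟨(nat_lit 0), (nat_lit 84), (nat_lit 33), (nat_lit 100), (nat_lit 314651031)⟩], [], [⟨(nat_lit 0), (nat_lit 100), (nat_lit 87), (nat_lit 50), (nat_lit 1129671)⟩, ⟨(nat_lit 0), (nat_lit 100), (nat_lit 92), (nat_lit 31), (nat_lit 169310242)⟩], [⟨(nat_lit 0), (nat_lit 100), (nat_lit 91), (nat_lit 43), (nat_lit 86442638)⟩],
 ⟨⟨[(nat_lit 40), (nat_lit 80), (nat_lit 120)], [(nat_lit 0), (nat_lit 2514), (nat_lit 4610)], [((nat_lit 0), (nat_lit 0), (nat_lit 0)), ((nat_lit 1000), (nat_lit 446), (nat_lit 804)), ((nat_lit 1000), (nat_lit 443), (nat_lit 819))], ((nat_lit 44), (nat_lit 100), (nat_lit 92))⟩, (nat_lit 1282637), (nat_lit 181), (nat_lit 181), (nat_lit 0), (nat_lit 138160), [(nat_lit 2013046008), (nat_lit 5048365960), (nat_lit 7668480014)], [(nat_lit 0), (nat_lit 0), (nat_lit 0)], [(nat_lit 24371248153), (nat_lit 24949829202), (nat_lit 31921663230), (nat_lit 32539247306),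 (nat_lit 28170957459), (nat_lit 28667842381), (nat_lit 34081131915), (nat_lit 34510751654)], (nat_lit 1271251), (nat_lit 1271251), (nat_lit 1271251), (nat_lit 1271251), (nat_lit 559688), (nat_lit 2299063), [(nat_lit 490000), (nat_lit 1100000), (nat_lit 1785001)], [(nat_lit 4), (nat_lit 51), (nat_lit 401), (nat_lit 175), (nat_lit 12)]⟩,
 ⟨⟨[(nat_lit 60), (nat_lit 120), (nat_lit 180)], [(nat_lit 0), (nat_lit 0), (nat_lit 4796)], [((nat_lit 0), (nat_lit 0), (nat_lit 0)), ((nat_lit 0), (nat_lit 0), (nat_lit 0)), ((nat_lit 802), (nat_lit 1000), (nat_lit 999))], ((nat_lit 100), (nat_lit 80), (nat_lit 100))⟩, (nat_lit 2524589), (nat_lit 397), (nat_lit 397), (nat_lit 0), (nat_lit 178516), [(nat_lit 3232770000), (nat_lit 7848480000), (nat_lit 13847130000)], [], [(nat_lit 31470045047), (nat_lit 33155399485), (nat_lit 39628003467), (nat_lit 40977077521), (nat_lit 25987472500), (nat_lit 27857080756), (nat_lit 33916786387), (nat_lit 35116149808)], (nat_lit 1271251),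 (nat_lit 1271251), (nat_lit 1271251), (nat_lit 1271251), (nat_lit 0), (nat_lit 780000), [(nat_lit 780000), (nat_lit 1762501), (nat_lit 1271251)], [(nat_lit 13), (nat_lit 60), (nat_lit 456), (nat_lit 225), (nat_lit 10)]⟩,
 ⟨⟨[(nat_lit 120), (nat_lit 160), (nat_lit 200)], [(nat_lit 0), (nat_lit 533), (nat_lit 3597)], [((nat_lit 0), (nat_lit 0), (nat_lit 0)), ((nat_lit 960), (nat_lit 1000), (nat_lit 200)), ((nat_lit 612), (nat_lit 1000), (nat_lit 732))], ((nat_lit 0), (nat_lit 0), (nat_lit 0))⟩, (nat_lit 119765), (nat_lit 300), (nat_lit 705), (nat_lit 16296033), (nat_lit 465157), [(nat_lit 1792800000), (nat_lit 2671200000), (nat_lit 3690000000)], [], [(nat_lit 15436838470), (nat_lit 15153155454), (nat_lit 13718076409), (nat_lit 13491353280), (nat_lit 12971207405), (nat_lit 12700459177), (nat_lit 14076591021), (nat_lit 11386442462)], (nat_lit 1271251), (nat_lit 1271251), (nat_lit 559688), (nat_lit 2299063), (nat_lit 0), (nat_lit 780000), [(nat_lit 1695001),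 (nat_lit 1271251), (nat_lit 1271251)], [(nat_lit 29), (nat_lit 66), (nat_lit 401), (nat_lit 175), (nat_lit 9)]⟩⟩) (.dle (nat_lit 0))) (.trZ (nat_lit 0) (nat_lit 1) (nat_lit 3) (nat_lit 92) (nat_lit 31) (nat_lit 100) (nat_lit 210) (.trX (nat_lit 3) (nat_lit 0) (nat_lit 1) (nat_lit 39) (nat_lit 72) (nat_lit 100) (nat_lit 370) (.trZ (nat_lit 0) (nat_lit 2) (nat_lit 4) (nat_lit 100) (nat_lit 31) (nat_lit 92) (nat_lit 110) (.trX (nat_lit 4) (nat_lit 0) (nat_lit 2) (nat_lit 31) (nat_lit 92) (nat_lit 100) (nat_lit 290) (.leaf ⟨(nat_lit 0), (nat_lit 785), (nat_lit 0), (nat_lit 215), (nat_lit 9061), (nat_lit 4443), (nat_lit 8267), (nat_lit 2980), (nat_lit 0), (nat_lit 0), (nat_lit 0), [], Pd.none, Pd.none, (nat_lit 0), (nat_lit 1), (nat_lit 0), (nat_lit 0), (nat_lit 4), (nat_lit 0), [⟨(nat_lit 0), (nat_lit 91), (nat_lit 23), (nat_lit 100), (nat_lit 286913324)⟩], [⟨(nat_lit 1), (nat_lit 98), (nat_lit 22), (nat_lit 100), (nat_lit 265301737)⟩], [⟨(nat_lit 0),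 (nat_lit 100), (nat_lit 87), (nat_lit 50), (nat_lit 291923167)⟩], [⟨(nat_lit 0), (nat_lit 100), (nat_lit 89), (nat_lit 45), (nat_lit 112929)⟩],
 ⟨⟨[(nat_lit 40), (nat_lit 80), (nat_lit 100)], [(nat_lit 0), (nat_lit 3225), (nat_lit 4371)], [((nat_lit 0), (nat_lit 0), (nat_lit 0)), ((nat_lit 1000), (nat_lit 321), (nat_lit 877)), ((nat_lit 1000), (nat_lit 317), (nat_lit 896))], ((nat_lit 31), (nat_lit 100), (nat_lit 94))⟩, (nat_lit 807224), (nat_lit 172), (nat_lit 172), (nat_lit 0), (nat_lit 190636), [(nat_lit 2032005510), (nat_lit 4688001730), (nat_lit 6250000000)], [], [(nat_lit 25386377291), (nat_lit 25998210287), (nat_lit 32053712934), (nat_lit 32687794805), (nat_lit 28496221205), (nat_lit 29045379842), (nat_lit 33782032908), (nat_lit 34251327938)], (nat_lit 1271251), (nat_lit 1271251), (nat_lit 1271251), (nat_lit 1271251), (nat_lit 704688), (nat_lit 2161563), [(nat_lit 490000), (nat_lit 1100000), (nat_lit 1442501)], [(nat_lit 3), (nat_lit 50),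 (nat_lit 289), (nat_lit 75), (nat_lit 10)]⟩,
 ⟨⟨[(nat_lit 60), (nat_lit 120), (nat_lit 180)], [(nat_lit 0), (nat_lit 0), (nat_lit 4796)], [((nat_lit 0), (nat_lit 0), (nat_lit 0)), ((nat_lit 0), (nat_lit 0), (nat_lit 0)), ((nat_lit 802), (nat_lit 1000), (nat_lit 999))], ((nat_lit 97), (nat_lit 73), (nat_lit 100))⟩, (nat_lit 2252503), (nat_lit 420), (nat_lit 420), (nat_lit 0), (nat_lit 258332), [(nat_lit 3282000000), (nat_lit 7968000000), (nat_lit 14058000000)], [], [(nat_lit 33575143508), (nat_lit 35218750414), (nat_lit 39612357348), (nat_lit 40908497522), (nat_lit 27812763635), (nat_lit 29271319335), (nat_lit 33566862218), (nat_lit 34852195113)], (nat_lit 1271251), (nat_lit 1271251), (nat_lit 1271251), (nat_lit 1271251), (nat_lit 0), (nat_lit 780000), [(nat_lit 780000), (nat_lit 1762501), (nat_lit 1271251)], [(nat_lit 13), (nat_lit 60), (nat_lit 456), (nat_lit 225), (nat_lit 10)]⟩,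
 ⟨⟨[(nat_lit 120), (nat_lit 160), (nat_lit 200)], [(nat_lit 0), (nat_lit 533), (nat_lit 3597)], [((nat_lit 0), (nat_lit 0), (nat_lit 0)), ((nat_lit 960), (nat_lit 1000), (nat_lit 200)), ((nat_lit 612), (nat_lit 1000), (nat_lit 732))], ((nat_lit 0), (nat_lit 0), (nat_lit 0))⟩, (nat_lit 114442), (nat_lit 300), (nat_lit 812), (nat_lit 15571766), (nat_lit 684190), [(nat_lit 1713120000), (nat_lit 2552480000), (nat_lit 3526000000)], [], [(nat_lit 14296188069), (nat_lit 13993437925), (nat_lit 13046552191), (nat_lit 12816812362), (nat_lit 11760076331), (nat_lit 11470423061), (nat_lit 13380641597), (nat_lit 10599388599)], (nat_lit 1271251), (nat_lit 1271251), (nat_lit 704688), (nat_lit 2161563), (nat_lit 0), (nat_lit 780000), [(nat_lit 1695001), (nat_lit 1271251), (nat_lit 1271251)], [(nat_lit 29), (nat_lit 66), (nat_lit 401), (nat_lit 175), (nat_lit 9)]⟩⟩)))))) (.spl (nat_lit 0) (nat_lit 390) (.spl (nat_lit 6) (nat_lit 120) (.leaf ⟨(nat_lit 0), (nat_lit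 588), (nat_lit 0), (nat_lit 412), (nat_lit 0), (nat_lit 4297), (nat_lit 8426), (nat_lit 3381), (nat_lit 0), (nat_lit 0), (nat_lit 0), [], Pd.none, Pd.none, (nat_lit 0), (nat_lit 1), (nat_lit 0), (nat_lit 0), (nat_lit 4), (nat_lit 0), [⟨(nat_lit 0), (nat_lit 87), (nat_lit 38), (nat_lit 100), (nat_lit 192022097)⟩], [], [], [],
 ⟨⟨[(nat_lit 40), (nat_lit 80), (nat_lit 120)], [(nat_lit 0), (nat_lit 2514), (nat_lit 4610)], [((nat_lit 0), (nat_lit 0), (nat_lit 0)), ((nat_lit 1000), (nat_lit 446), (nat_lit 804)), ((nat_lit 1000), (nat_lit 443), (nat_lit 819))], ((nat_lit 44), (nat_lit 100), (nat_lit 92))⟩, (nat_lit 1380300), (nat_lit 181), (nat_lit 181), (nat_lit 0), (nat_lit 138160), [(nat_lit 2032000015), (nat_lit 5071295573), (nat_lit 7968000000)], [], [(nat_lit 24155566389), (nat_lit 24797990871), (nat_lit 31940730154), (nat_lit 32558998780), (nat_lit 28017204024), (nat_lit 28678186706), (nat_lit 34094126111), (nat_lit 34524111178)], (nat_lit 1271251),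 (nat_lit 1271251), (nat_lit 1271251), (nat_lit 1271251), (nat_lit 559688), (nat_lit 2299063), [(nat_lit 490000), (nat_lit 1100000), (nat_lit 1785001)], [(nat_lit 4), (nat_lit 51), (nat_lit 401), (nat_lit 175), (nat_lit 12)]⟩,
 ⟨⟨[(nat_lit 60), (nat_lit 120), (nat_lit 180)], [(nat_lit 0), (nat_lit 0), (nat_lit 4796)], [((nat_lit 0), (nat_lit 0), (nat_lit 0)), ((nat_lit 0), (nat_lit 0), (nat_lit 0)), ((nat_lit 802), (nat_lit 1000), (nat_lit 999))], ((nat_lit 100), (nat_lit 80), (nat_lit 100))⟩, (nat_lit 799867), (nat_lit 264), (nat_lit 264), (nat_lit 0), (nat_lit 223620), [(nat_lit 3282000000), (nat_lit 7968000000), (nat_lit 14058000000)], [], [(nat_lit 31701623085), (nat_lit 33953344711), (nat_lit 39838099064), (nat_lit 40962292102), (nat_lit 40599985849), (nat_lit 40519596818), (nat_lit 42403748733), (nat_lit 42659119552)], (nat_lit 1271251), (nat_lit 1271251), (nat_lit 1271251), (nat_lit 1271251), (nat_lit 780000), (nat_lit 3072501), [(nat_lit 780000),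 (nat_lit 1762501), (nat_lit 1271251)], [(nat_lit 13), (nat_lit 60), (nat_lit 538), (nat_lit 300), (nat_lit 12)]⟩,
 ⟨⟨[(nat_lit 120), (nat_lit 160), (nat_lit 200)], [(nat_lit 0), (nat_lit 533), (nat_lit 3597)], [((nat_lit 0), (nat_lit 0), (nat_lit 0)), ((nat_lit 960), (nat_lit 1000), (nat_lit 200)), ((nat_lit 612), (nat_lit 1000), (nat_lit 732))], ((nat_lit 0), (nat_lit 0), (nat_lit 0))⟩, (nat_lit 219302), (nat_lit 300), (nat_lit 707), (nat_lit 29839854), (nat_lit 696317), [(nat_lit 3282816000), (nat_lit 4891264000), (nat_lit 6756800000)], [], [(nat_lit 28042655956), (nat_lit 27786588702), (nat_lit 26470258108), (nat_lit 26164126849), (nat_lit 27039215355), (nat_lit 26693912666), (nat_lit 25767825832), (nat_lit 24661839926)], (nat_lit 1271251), (nat_lit 1271251), (nat_lit 559688), (nat_lit 2299063), (nat_lit 780000), (nat_lit 3072501), [(nat_lit 1695001), (nat_lit 1271251), (nat_lit 1271251)], [(nat_lit 29), (nat_lit 66), (nat_lit 483), (nat_lit 250),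 (nat_lit 10)]⟩⟩) (.dle (nat_lit 0))) (.trZ (nat_lit 0) (nat_lit 1) (nat_lit 3) (nat_lit 92) (nat_lit 31) (nat_lit 100) (nat_lit 210) (.trX (nat_lit 3) (nat_lit 0) (nat_lit 1) (nat_lit 39) (nat_lit 72) (nat_lit 100) (nat_lit 370) (.trZ (nat_lit 0) (nat_lit 2) (nat_lit 4) (nat_lit 100) (nat_lit 31) (nat_lit 92) (nat_lit 110) (.trX (nat_lit 4) (nat_lit 0) (nat_lit 2) (nat_lit 31) (nat_lit 92) (nat_lit 100) (nat_lit 290) (.leaf ⟨(nat_lit 0), (nat_lit 636), (nat_lit 0), (nat_lit 364), (nat_lit 0), (nat_lit 4034), (nat_lit 8269), (nat_lit 3144), (nat_lit 0), (nat_lit 0), (nat_lit 0), [], Pd.none, Pd.none, (nat_lit 0), (nat_lit 1), (nat_lit 0), (nat_lit 0), (nat_lit 4), (nat_lit 0), [⟨(nat_lit 0), (nat_lit 91), (nat_lit 23), (nat_lit 100), (nat_lit 655541793)⟩], [], [], [],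
 ⟨⟨[(nat_lit 40), (nat_lit 80), (nat_lit 100)], [(nat_lit 0), (nat_lit 3225), (nat_lit 4371)], [((nat_lit 0), (nat_lit 0), (nat_lit 0)), ((nat_lit 1000), (nat_lit 321), (nat_lit 877)), ((nat_lit 1000), (nat_lit 317), (nat_lit 896))], ((nat_lit 31), (nat_lit 100), (nat_lit 94))⟩, (nat_lit 823656), (nat_lit 172), (nat_lit 172), (nat_lit 0), (nat_lit 190636), [(nat_lit 2032000015), (nat_lit 4688000021), (nat_lit 6250000000)], [], [(nat_lit 26051679255), (nat_lit 26620986628), (nat_lit 31324102927), (nat_lit 31929681633), (nat_lit 28931658358), (nat_lit 29400898236), (nat_lit 33252678108), (nat_lit 33704664008)], (nat_lit 1271251), (nat_lit 1271251), (nat_lit 1271251), (nat_lit 1271251), (nat_lit 704688), (nat_lit 2161563), [(nat_lit 490000), (nat_lit 1100000), (nat_lit 1442501)], [(nat_lit 3), (nat_lit 50), (nat_lit 289), (nat_lit 75), (nat_lit 10)]⟩,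
 ⟨⟨[(nat_lit 60), (nat_lit 120), (nat_lit 180)], [(nat_lit 0), (nat_lit 0), (nat_lit 4796)], [((nat_lit 0), (nat_lit 0), (nat_lit 0)), ((nat_lit 0), (nat_lit 0), (nat_lit 0)), ((nat_lit 802), (nat_lit 1000), (nat_lit 999))], ((nat_lit 97), (nat_lit 73), (nat_lit 100))⟩, (nat_lit 1447663), (nat_lit 295), (nat_lit 295), (nat_lit 0), (nat_lit 321725), [(nat_lit 3282000000), (nat_lit 7968000000), (nat_lit 14058000000)], [], [(nat_lit 31669791763), (nat_lit 33128468612), (nat_lit 36516852616), (nat_lit 37295931522), (nat_lit 36951832788), (nat_lit 37304217849), (nat_lit 39110921556), (nat_lit 40127668791)], (nat_lit 1271251), (nat_lit 1271251), (nat_lit 1271251), (nat_lit 1271251), (nat_lit 780000), (nat_lit 3072501), [(nat_lit 780000), (nat_lit 1762501), (nat_lit 1271251)], [(nat_lit 13), (nat_lit 60), (nat_lit 538), (nat_lit 300), (nat_lit 12)]⟩,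
 ⟨⟨[(nat_lit 120), (nat_lit 160), (nat_lit 200)], [(nat_lit 0), (nat_lit 533), (nat_lit 3597)], [((nat_lit 0), (nat_lit 0), (nat_lit 0)), ((nat_lit 960), (nat_lit 1000), (nat_lit 200)), ((nat_lit 612), (nat_lit 1000), (nat_lit 732))], ((nat_lit 0), (nat_lit 0), (nat_lit 0))⟩, (nat_lit 193752), (nat_lit 300), (nat_lit 858), (nat_lit 26363371), (nat_lit 1017428), [(nat_lit 2900352000), (nat_lit 4321408000), (nat_lit 5969600000)], [], [(nat_lit 25941985305), (nat_lit 25627445198), (nat_lit 24454144953), (nat_lit 24117616967), (nat_lit 24370389343), (nat_lit 24005229142), (nat_lit 22740778944), (nat_lit 22301217261)], (nat_lit 1271251), (nat_lit 1271251), (nat_lit 704688), (nat_lit 2161563), (nat_lit 780000), (nat_lit 3072501), [(nat_lit 1695001), (nat_lit 1271251), (nat_lit 1271251)], [(nat_lit 29), (nat_lit 66), (nat_lit 483), (nat_lit 250), (nat_lit 10)]⟩⟩))))))))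
noncomputable def c14_120 : Tr Lf :=
 (.spl (nat_lit 3) (nat_lit 240) (.spl (nat_lit 5) (nat_lit 120) (.spl (nat_lit 4) (nat_lit 160) (.spl (nat_lit 0) (nat_lit 395) (.spl (nat_lit 6) (nat_lit 144) (.leaf ⟨(nat_lit 0), (nat_lit 1000), (nat_lit 0), (nat_lit 0), (nat_lit 54276), (nat_lit 7572), (nat_lit 10332), (nat_lit 0), (nat_lit 0), (nat_lit 0), (nat_lit 0), [], Pd.none, Pd.none, (nat_lit 0), (nat_lit 1), (nat_lit 0), (nat_lit 0), (nat_lit 3), (nat_lit 0), [⟨(nat_lit 0), (nat_lit 93), (nat_lit 23), (nat_lit 100), (nat_lit 1779472869)⟩], [], [], [],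
 ⟨⟨[(nat_lit 40), (nat_lit 80), (nat_lit 120)], [(nat_lit 0), (nat_lit 3225), (nat_lit 5518)], [((nat_lit 0), (nat_lit 0), (nat_lit 0)), ((nat_lit 1000), (nat_lit 321), (nat_lit 877)), ((nat_lit 1000), (nat_lit 317), (nat_lit 896))], ((nat_lit 31), (nat_lit 100), (nat_lit 96))⟩, (nat_lit 480830), (nat_lit 150), (nat_lit 150), (nat_lit 0), (nat_lit 31521), [(nat_lit 2825800427), (nat_lit 6324464543), (nat_lit 7968000000)], [], [(nat_lit 29518106412), (nat_lit 30064001814), (nat_lit 31250163446), (nat_lit 31913114941), (nat_lit 27064799555), (nat_lit 27543324162), (nat_lit 28275004160), (nat_lit 28691216782)], (nat_lit 1271251), (nat_lit 1271251), (nat_lit 1184688), (nat_lit 1790626), (nat_lit 356250), (nat_lit 1100000), [(nat_lit 490000), (nat_lit 1100000), (nat_lit 1785001)], [(nat_lit 4), (nat_lit 51), (nat_lit 317), (nat_lit 100), (nat_lit 9)]⟩,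
 ⟨⟨[(nat_lit 80), (nat_lit 140), (nat_lit 200)], [(nat_lit 0), (nat_lit 0), (nat_lit 5481)], [((nat_lit 0), (nat_lit 0), (nat_lit 0)), ((nat_lit 0), (nat_lit 0), (nat_lit 0)), ((nat_lit 637), (nat_lit 1000), (nat_lit 908))], ((nat_lit 0), (nat_lit 0), (nat_lit 0))⟩, (nat_lit 1492470), (nat_lit 431), (nat_lit 431), (nat_lit 0), (nat_lit 68797), [(nat_lit 4688000000), (nat_lit 9842000000), (nat_lit 16400000000)], [], [(nat_lit 42410512098), (nat_lit 43796455106), (nat_lit 42571266874), (nat_lit 43686813490), (nat_lit 34409231734), (nat_lit 35631927255), (nat_lit 39322315992), (nat_lit 35491207490)], (nat_lit 1271251), (nat_lit 1271251), (nat_lit 1184688), (nat_lit 1790626), (nat_lit 0), (nat_lit 780000), [(nat_lit 1100000), (nat_lit 2127501), (nat_lit 1271251)], [(nat_lit 20), (nat_lit 64), (nat_lit 401), (nat_lit 175), (nat_lit 8)]⟩,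
 Rw.none⟩) (.dle (nat_lit 0))) (.trZ (nat_lit 0) (nat_lit 1) (nat_lit 3) (nat_lit 98) (nat_lit 22) (nat_lit 100) (nat_lit 190) (.trZ (nat_lit 0) (nat_lit 2) (nat_lit 4) (nat_lit 100) (nat_lit 24) (nat_lit 88) (nat_lit 80) (.leaf ⟨(nat_lit 0), (nat_lit 1000), (nat_lit 0), (nat_lit 0), (nat_lit 53501), (nat_lit 4167), (nat_lit 10503), (nat_lit 0), (nat_lit 0), (nat_lit 0), (nat_lit 0), [], Pd.none, Pd.none, (nat_lit 0), (nat_lit 1), (nat_lit 0), (nat_lit 0), (nat_lit 3), (nat_lit 0), [⟨(nat_lit 0), (nat_lit 96), (nat_lit 16), (nat_lit 100), (nat_lit 3075897602)⟩], [⟨(nat_lit 1), (nat_lit 100), (nat_lit 16), (nat_lit 97), (nat_lit 1024242531)⟩], [], [],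
 ⟨⟨[(nat_lit 40), (nat_lit 80), (nat_lit 120)], [(nat_lit 0), (nat_lit 3758), (nat_lit 6151)], [((nat_lit 0), (nat_lit 0), (nat_lit 0)), ((nat_lit 1000), (nat_lit 228), (nat_lit 923)), ((nat_lit 1000), (nat_lit 226), (nat_lit 935))], ((nat_lit 22), (nat_lit 100), (nat_lit 98))⟩, (nat_lit 1142024), (nat_lit 145), (nat_lit 145), (nat_lit 0), (nat_lit 59588), [(nat_lit 2032000472), (nat_lit 5718955599), (nat_lit 7968000000)], [], [(nat_lit 24490787067), (nat_lit 24852540653), (nat_lit 25561520160), (nat_lit 25930884920), (nat_lit 24562662527), (nat_lit 24872565270), (nat_lit 25518999568), (nat_lit 25818130900)], (nat_lit 1271251), (nat_lit 1271251), (nat_lit 1271251), (nat_lit 1271251), (nat_lit 490000), (nat_lit 1100000), [(nat_lit 490000), (nat_lit 1100000), (nat_lit 1785001)], [(nat_lit 4), (nat_lit 51), (nat_lit 317), (nat_lit 100), (nat_lit 9)]⟩,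
 ⟨⟨[(nat_lit 80), (nat_lit 140), (nat_lit 200)], [(nat_lit 0), (nat_lit 0), (nat_lit 5481)], [((nat_lit 0), (nat_lit 0), (nat_lit 0)), ((nat_lit 0), (nat_lit 0), (nat_lit 0)), ((nat_lit 637), (nat_lit 1000), (nat_lit 908))], ((nat_lit 0), (nat_lit 0), (nat_lit 0))⟩, (nat_lit 2652526), (nat_lit 442), (nat_lit 442), (nat_lit 0), (nat_lit 114969), [(nat_lit 4688000000), (nat_lit 9842000000), (nat_lit 16400000000)], [], [(nat_lit 37114219777), (nat_lit 37356128432), (nat_lit 36140631370), (nat_lit 37259644464), (nat_lit 28031897032), (nat_lit 29106977102), (nat_lit 28040801158), (nat_lit 29834351707)], (nat_lit 1271251), (nat_lit 1271251), (nat_lit 1271251), (nat_lit 1271251), (nat_lit 0), (nat_lit 780000), [(nat_lit 1100000), (nat_lit 2127501), (nat_lit 1271251)], [(nat_lit 20), (nat_lit 64), (nat_lit 401), (nat_lit 175), (nat_lit 8)]⟩,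
 Rw.none⟩)))) (.spl (nat_lit 0) (nat_lit 395) (.spl (nat_lit 6) (nat_lit 144) (.leaf ⟨(nat_lit 0), (nat_lit 1000), (nat_lit 0), (nat_lit 0), (nat_lit 51060), (nat_lit 6012), (nat_lit 10202), (nat_lit 0), (nat_lit 0), (nat_lit 0), (nat_lit 0), [], Pd.none, Pd.none, (nat_lit 0), (nat_lit 1), (nat_lit 0), (nat_lit 0), (nat_lit 4), (nat_lit 0), [⟨(nat_lit 0), (nat_lit 95), (nat_lit 27), (nat_lit 100), (nat_lit 1353278692)⟩], [⟨(nat_lit 1), (nat_lit 100), (nat_lit 27), (nat_lit 97), (nat_lit 1273169199)⟩], [], [],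
 ⟨⟨[(nat_lit 40), (nat_lit 80), (nat_lit 120)], [(nat_lit 0), (nat_lit 3225), (nat_lit 5518)], [((nat_lit 0), (nat_lit 0), (nat_lit 0)), ((nat_lit 1000), (nat_lit 321), (nat_lit 877)), ((nat_lit 1000), (nat_lit 317), (nat_lit 896))], ((nat_lit 31), (nat_lit 100), (nat_lit 96))⟩, (nat_lit 0), (nat_lit 72), (nat_lit 72), (nat_lit 0), (nat_lit 31521), [(nat_lit 2478273250), (nat_lit 4688000006), (nat_lit 7968000000)], [], [(nat_lit 25109719095), (nat_lit 25592520840), (nat_lit 26768680068), (nat_lit 27189996798), (nat_lit 27380905512), (nat_lit 27860706587), (nat_lit 28763543574), (nat_lit 29181884660)], (nat_lit 1271251), (nat_lit 1271251), (nat_lit 1184688), (nat_lit 1790626), (nat_lit 1100000), (nat_lit 1870626), [(nat_lit 490000), (nat_lit 1100000), (nat_lit 1785001)], [(nat_lit 4), (nat_lit 51), (nat_lit 345), (nat_lit 125), (nat_lit 10)]⟩,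
 ⟨⟨[(nat_lit 80), (nat_lit 140), (nat_lit 200)], [(nat_lit 0), (nat_lit 0), (nat_lit 5481)], [((nat_lit 0), (nat_lit 0), (nat_lit 0)), ((nat_lit 0), (nat_lit 0), (nat_lit 0)), ((nat_lit 637), (nat_lit 1000), (nat_lit 908))], ((nat_lit 0), (nat_lit 0), (nat_lit 0))⟩, (nat_lit 1536455), (nat_lit 431), (nat_lit 431), (nat_lit 0), (nat_lit 68797), [(nat_lit 4688000000), (nat_lit 9842000000), (nat_lit 16400000000)], [], [(nat_lit 42246036434), (nat_lit 43588353606), (nat_lit 42385202129), (nat_lit 43498273805), (nat_lit 34329672089), (nat_lit 35548502109), (nat_lit 39342010212), (nat_lit 35427012805)], (nat_lit 1271251), (nat_lit 1271251), (nat_lit 1184688), (nat_lit 1790626), (nat_lit 0), (nat_lit 780000), [(nat_lit 1100000), (nat_lit 2127501), (nat_lit 1271251)], [(nat_lit 20), (nat_lit 64), (nat_lit 401), (nat_lit 175), (nat_lit 8)]⟩,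
 Rw.none⟩) (.dle (nat_lit 0))) (.trZ (nat_lit 0) (nat_lit 1) (nat_lit 3) (nat_lit 98) (nat_lit 22) (nat_lit 100) (nat_lit 190) (.trX (nat_lit 4) (nat_lit 0) (nat_lit 2) (nat_lit 22) (nat_lit 100) (nat_lit 100) (nat_lit 230) (.leaf ⟨(nat_lit 0), (nat_lit 1000), (nat_lit 0), (nat_lit 0), (nat_lit 53180), (nat_lit 4189), (nat_lit 9798), (nat_lit 0), (nat_lit 0), (nat_lit 0), (nat_lit 0), [], Pd.none, Pd.none, (nat_lit 0), (nat_lit 1), (nat_lit 0), (nat_lit 0), (nat_lit 4), (nat_lit 0), [⟨(nat_lit 0), (nat_lit 96), (nat_lit 16), (nat_lit 100), (nat_lit 756408898)⟩, ⟨(nat_lit 0), (nat_lit 98), (nat_lit 22), (nat_lit 100), (nat_lit 1117726752)⟩], [⟨(nat_lit 1), (nat_lit 100), (nat_lit 16), (nat_lit 97), (nat_lit 3166215751)⟩], [], [],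
 ⟨⟨[(nat_lit 40), (nat_lit 80), (nat_lit 120)], [(nat_lit 0), (nat_lit 3758), (nat_lit 6151)], [((nat_lit 0), (nat_lit 0), (nat_lit 0)), ((nat_lit 1000), (nat_lit 228), (nat_lit 923)), ((nat_lit 1000), (nat_lit 226), (nat_lit 935))], ((nat_lit 22), (nat_lit 100), (nat_lit 98))⟩, (nat_lit 1154311), (nat_lit 97), (nat_lit 97), (nat_lit 0), (nat_lit 59588), [(nat_lit 2032000089), (nat_lit 5490809265), (nat_lit 7968000000)], [], [(nat_lit 24463895105), (nat_lit 24791095937), (nat_lit 25436149569), (nat_lit 25840454300), (nat_lit 25835781386), (nat_lit 26227349211), (nat_lit 26926570470), (nat_lit 27283259297)], (nat_lit 1271251), (nat_lit 1271251), (nat_lit 1271251), (nat_lit 1271251), (nat_lit 1100000), (nat_lit 1699376), [(nat_lit 490000), (nat_lit 1100000), (nat_lit 1785001)], [(nat_lit 4), (nat_lit 51), (nat_lit 345), (nat_lit 125), (nat_lit 10)]⟩,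
 ⟨⟨[(nat_lit 80), (nat_lit 140), (nat_lit 200)], [(nat_lit 0), (nat_lit 0), (nat_lit 5481)], [((nat_lit 0), (nat_lit 0), (nat_lit 0)), ((nat_lit 0), (nat_lit 0), (nat_lit 0)), ((nat_lit 637), (nat_lit 1000), (nat_lit 908))], ((nat_lit 0), (nat_lit 0), (nat_lit 0))⟩, (nat_lit 2594125), (nat_lit 442), (nat_lit 442), (nat_lit 0), (nat_lit 114969), [(nat_lit 4688000000), (nat_lit 9842000000), (nat_lit 16400000000)], [], [(nat_lit 36595266881), (nat_lit 37885389000), (nat_lit 36759088891), (nat_lit 37864667564), (nat_lit 29084147627), (nat_lit 30310461716), (nat_lit 29324334028), (nat_lit 31063118062)], (nat_lit 1271251), (nat_lit 1271251), (nat_lit 1271251), (nat_lit 1271251), (nat_lit 0), (nat_lit 780000), [(nat_lit 1100000), (nat_lit 2127501), (nat_lit 1271251)], [(nat_lit 20), (nat_lit 64), (nat_lit 401), (nat_lit 175), (nat_lit 8)]⟩,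
 Rw.none⟩))))) (.leaf ⟨(nat_lit 0), (nat_lit 913), (nat_lit 0), (nat_lit 87), (nat_lit 50915), (nat_lit 3988), (nat_lit 6419), (nat_lit 1128), (nat_lit 0), (nat_lit 0), (nat_lit 0), [], Pd.none, Pd.none, (nat_lit 0), (nat_lit 1), (nat_lit 0), (nat_lit 0), (nat_lit 3), (nat_lit 0), [⟨(nat_lit 0), (nat_lit 96), (nat_lit 22), (nat_lit 100), (nat_lit 2338992612)⟩], [⟨(nat_lit 1), (nat_lit 100), (nat_lit 22), (nat_lit 97), (nat_lit 753391436)⟩], [], [],
 ⟨⟨[(nat_lit 40), (nat_lit 80), (nat_lit 120)], [(nat_lit 0), (nat_lit 3225), (nat_lit 5518)], [((nat_lit 0), (nat_lit 0), (nat_lit 0)), ((nat_lit 1000), (nat_lit 321), (nat_lit 877)), ((nat_lit 1000), (nat_lit 317), (nat_lit 896))], ((nat_lit 31), (nat_lit 100), (nat_lit 98))⟩, (nat_lit 1270464), (nat_lit 161), (nat_lit 161), (nat_lit 0), (nat_lit 59808), [(nat_lit 2032000097), (nat_lit 5642568373), (nat_lit 7968000000)], [], [(nat_lit 24280090176), (nat_lit 25022291237), (nat_lit 25829348329), (nat_lit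 26484760192), (nat_lit 25926165355), (nat_lit 26459536672), (nat_lit 27047230516), (nat_lit 27654614254)], (nat_lit 1271251), (nat_lit 1271251), (nat_lit 1184688), (nat_lit 1790626), (nat_lit 356250), (nat_lit 1805001), [(nat_lit 490000), (nat_lit 1100000), (nat_lit 1785001)], [(nat_lit 4), (nat_lit 51), (nat_lit 345), (nat_lit 125), (nat_lit 10)]⟩,
 ⟨⟨[(nat_lit 80), (nat_lit 140), (nat_lit 200)], [(nat_lit 0), (nat_lit 0), (nat_lit 5481)], [((nat_lit 0), (nat_lit 0), (nat_lit 0)), ((nat_lit 0), (nat_lit 0), (nat_lit 0)), ((nat_lit 637), (nat_lit 1000), (nat_lit 908))], ((nat_lit 0), (nat_lit 0), (nat_lit 0))⟩, (nat_lit 0), (nat_lit 265), (nat_lit 265), (nat_lit 0), (nat_lit 134993), [(nat_lit 4688000000), (nat_lit 9842000000), (nat_lit 16400000000)], [], [(nat_lit 40012779098), (nat_lit 41514815795), (nat_lit 41083690268), (nat_lit 42519234108), (nat_lit 42437447441), (nat_lit 41544299843), (nat_lit 41083573974), (nat_lit 42337344354)], (nat_lit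 1271251), (nat_lit 1271251), (nat_lit 1271251), (nat_lit 1271251), (nat_lit 780000), (nat_lit 1435001), [(nat_lit 1100000), (nat_lit 2127501), (nat_lit 1271251)], [(nat_lit 20), (nat_lit 64), (nat_lit 428), (nat_lit 200), (nat_lit 9)]⟩,
 ⟨⟨[(nat_lit 140), (nat_lit 180), (nat_lit 200)], [(nat_lit 0), (nat_lit 0), (nat_lit 2835)], [((nat_lit 0), (nat_lit 0), (nat_lit 0)), ((nat_lit 0), (nat_lit 0), (nat_lit 0)), ((nat_lit 363), (nat_lit 1000), (nat_lit 798))], ((nat_lit 0), (nat_lit 0), (nat_lit 0))⟩, (nat_lit 23936), (nat_lit 300), (nat_lit 803), (nat_lit 6794708), (nat_lit 724755), [(nat_lit 856254000), (nat_lit 1223046000), (nat_lit 1426800000)], [], [(nat_lit 5803610715), (nat_lit 5545472574), (nat_lit 4954788815), (nat_lit 5597117219), (nat_lit 5456042703), (nat_lit 5220298027), (nat_lit 5866704486), (nat_lit 6716345216)], (nat_lit 780000), (nat_lit 1271251), (nat_lit 356250), (nat_lit 1805001), (nat_lit 780000), (nat_lit 1435001), [(nat_lit 1977501),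 (nat_lit 1271251), (nat_lit 1271251)], [(nat_lit 32), (nat_lit 67), (nat_lit 401), (nat_lit 175), (nat_lit 9)]⟩⟩)) (.spl (nat_lit 1) (nat_lit 260) (.trX (nat_lit 3) (nat_lit 0) (nat_lit 1) (nat_lit 33) (nat_lit 85) (nat_lit 100) (nat_lit 320) (.spl (nat_lit 6) (nat_lit 144) (.leaf ⟨(nat_lit 0), (nat_lit 1000), (nat_lit 0), (nat_lit 0), (nat_lit 49563), (nat_lit 4108), (nat_lit 10809), (nat_lit 0), (nat_lit 0), (nat_lit 0), (nat_lit 0), [], Pd.none, Pd.none, (nat_lit 0), (nat_lit 1), (nat_lit 0), (nat_lit 0), (nat_lit 3), (nat_lit 0), [], [⟨(nat_lit 1), (nat_lit 100), (nat_lit 22), (nat_lit 97), (nat_lit 964025159)⟩], [], [],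
 ⟨⟨[(nat_lit 40), (nat_lit 80), (nat_lit 120)], [(nat_lit 0), (nat_lit 3225), (nat_lit 5518)], [((nat_lit 0), (nat_lit 0), (nat_lit 0)), ((nat_lit 1000), (nat_lit 321), (nat_lit 877)), ((nat_lit 1000), (nat_lit 317), (nat_lit 896))], ((nat_lit 31), (nat_lit 100), (nat_lit 96))⟩, (nat_lit 1151672), (nat_lit 158), (nat_lit 158), (nat_lit 0), (nat_lit 30820), [(nat_lit 2032000003), (nat_lit 5621240124), (nat_lit 7968000000)], [], [(nat_lit 26509484525), (nat_lit 27174669008), (nat_lit 29533352111), (nat_lit 30271827372), (nat_lit 27554743383), (nat_lit 28036490571), (nat_lit 29992023213), (nat_lit 30557826504)], (nat_lit 1271251), (nat_lit 1271251), (nat_lit 1271251), (nat_lit 1271251), (nat_lit 356250), (nat_lit 1805001), [(nat_lit 490000), (nat_lit 1100000), (nat_lit 1785001)], [(nat_lit 4), (nat_lit 51), (nat_lit 289), (nat_lit 75), (nat_lit 8)]⟩,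
 ⟨⟨[(nat_lit 80), (nat_lit 140), (nat_lit 200)], [(nat_lit 0), (nat_lit 0), (nat_lit 5481)], [((nat_lit 0), (nat_lit 0), (nat_lit 0)), ((nat_lit 0), (nat_lit 0), (nat_lit 0)), ((nat_lit 637), (nat_lit 1000), (nat_lit 908))], ((nat_lit 0), (nat_lit 0), (nat_lit 0))⟩, (nat_lit 2734462), (nat_lit 418), (nat_lit 418), (nat_lit 0), (nat_lit 85926), [(nat_lit 4688000000), (nat_lit 9842000000), (nat_lit 16400000000)], [], [(nat_lit 35562038506), (nat_lit 36124352377), (nat_lit 39125018622), (nat_lit 39839050441), (nat_lit 27004742072), (nat_lit 27758295057), (nat_lit 30018954012), (nat_lit 30558312736)], (nat_lit 1271251), (nat_lit 1271251), (nat_lit 1271251), (nat_lit 1271251), (nat_lit 0), (nat_lit 1412501), [(nat_lit 1100000), (nat_lit 2127501), (nat_lit 1271251)], [(nat_lit 20), (nat_lit 64), (nat_lit 428), (nat_lit 200), (nat_lit 9)]⟩,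
 Rw.none⟩) (.dle (nat_lit 0)))) (.leaf ⟨(nat_lit 0), (nat_lit 1000), (nat_lit 0), (nat_lit 0), (nat_lit 27426), (nat_lit 4275), (nat_lit 9012), (nat_lit 0), (nat_lit 0), (nat_lit 0), (nat_lit 0), [], Pd.none, Pd.none, (nat_lit 0), (nat_lit 1), (nat_lit 0), (nat_lit 0), (nat_lit 3), (nat_lit 0), [⟨(nat_lit 0), (nat_lit 95), (nat_lit 22), (nat_lit 100), (nat_lit 4943279)⟩], [⟨(nat_lit 1), (nat_lit 100), (nat_lit 22), (nat_lit 97), (nat_lit 949282101)⟩], [⟨(nat_lit 0), (nat_lit 100), (nat_lit 97), (nat_lit 11), (nat_lit 6558430)⟩], [],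
 ⟨⟨[(nat_lit 40), (nat_lit 80), (nat_lit 120)], [(nat_lit 0), (nat_lit 3225), (nat_lit 5518)], [((nat_lit 0), (nat_lit 0), (nat_lit 0)), ((nat_lit 1000), (nat_lit 321), (nat_lit 877)), ((nat_lit 1000), (nat_lit 317), (nat_lit 896))], ((nat_lit 31), (nat_lit 100), (nat_lit 98))⟩, (nat_lit 999510), (nat_lit 171), (nat_lit 171), (nat_lit 0), (nat_lit 59808), [(nat_lit 2032000080), (nat_lit 4939873857), (nat_lit 7968000000)], [], [(nat_lit 27383407808), (nat_lit 28062192520), (nat_lit 31244444540), (nat_lit 31783009095), (nat_lit 28342324782), (nat_lit 28804728755), (nat_lit 31243004649), (nat_lit 31663252494)], (nat_lit 1271251), (nat_lit 1271251), (nat_lit 1271251), (nat_lit 1271251), (nat_lit 356250), (nat_lit 1805001), [(nat_lit 490000), (nat_lit 1100000), (nat_lit 1785001)], [(nat_lit 4), (nat_lit 51), (nat_lit 289), (nat_lit 75), (nat_lit 8)]⟩,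
 ⟨⟨[(nat_lit 80), (nat_lit 140), (nat_lit 200)], [(nat_lit 0), (nat_lit 792), (nat_lit 5941)], [((nat_lit 0), (nat_lit 0), (nat_lit 0)), ((nat_lit 1000), (nat_lit 959), (nat_lit 206)), ((nat_lit 709), (nat_lit 1000), (nat_lit 949))], ((nat_lit 0), (nat_lit 0), (nat_lit 0))⟩, (nat_lit 2691948), (nat_lit 432), (nat_lit 432), (nat_lit 0), (nat_lit 131392), [(nat_lit 4688000000), (nat_lit 9842000000), (nat_lit 16400000000)], [], [(nat_lit 33730451848), (nat_lit 34276270812), (nat_lit 38135606662), (nat_lit 38788702376), (nat_lit 27064757244), (nat_lit 27770393224), (nat_lit 30661354567), (nat_lit 31135157231)], (nat_lit 1271251), (nat_lit 1271251), (nat_lit 1271251), (nat_lit 1271251), (nat_lit 0), (nat_lit 1412501), [(nat_lit 1100000), (nat_lit 2127501), (nat_lit 1271251)], [(nat_lit 20), (nat_lit 64), (nat_lit 456), (nat_lit 225), (nat_lit 9)]⟩,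
 Rw.none⟩)))
noncomputable def c14_121 : Tr Lf :=
 (.spl (nat_lit 0) (nat_lit 395) (.spl (nat_lit 6) (nat_lit 144) (.spl (nat_lit 1) (nat_lit 260) (.trX (nat_lit 3) (nat_lit 0) (nat_lit 1) (nat_lit 33) (nat_lit 85) (nat_lit 100) (nat_lit 320) (.dle (nat_lit 0))) (.trZ (nat_lit 0) (nat_lit 1) (nat_lit 3) (nat_lit 95) (nat_lit 31) (nat_lit 100) (nat_lit 190) (.trX (nat_lit 5) (nat_lit 1) (nat_lit 2) (nat_lit 96) (nat_lit 40) (nat_lit 100) (nat_lit 390) (.leaf ⟨(nat_lit 0), (nat_lit 529), (nat_lit 0), (nat_lit 471), (nat_lit 45254), (nat_lit 3941), (nat_lit 8334), (nat_lit 5366), (nat_lit 0), (nat_lit 0), (nat_lit 0), [], Pd.none, Pd.none, (nat_lit 0), (nat_lit 1), (nat_lit 0), (nat_lit 0), (nat_lit 5), (nat_lit 0), [⟨(nat_lit 0), (nat_lit 93), (nat_lit 23), (nat_lit 100), (nat_lit 882828696)⟩], [⟨(nat_lit 0), (nat_lit 100), (nat_lit 28), (nat_lit 89), (nat_lit 681433628)⟩], [], [],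
 ⟨⟨[(nat_lit 40), (nat_lit 80), (nat_lit 120)], [(nat_lit 0), (nat_lit 3225), (nat_lit 5518)], [((nat_lit 0), (nat_lit 0), (nat_lit 0)), ((nat_lit 1000), (nat_lit 321), (nat_lit 877)), ((nat_lit 1000), (nat_lit 317), (nat_lit 896))], ((nat_lit 31), (nat_lit 100), (nat_lit 96))⟩, (nat_lit 1110844), (nat_lit 162), (nat_lit 162), (nat_lit 0), (nat_lit 31521), [(nat_lit 2032000001), (nat_lit 5694511010), (nat_lit 7968000000)], [], [(nat_lit 25612922640), (nat_lit 25949049431), (nat_lit 30470130356), (nat_lit 30729978903), (nat_lit 27181971949), (nat_lit 27439081211), (nat_lit 30780807526), (nat_lit 30997151396)], (nat_lit 1271251), (nat_lit 1271251), (nat_lit 1271251), (nat_lit 1271251), (nat_lit 356250), (nat_lit 1805001), [(nat_lit 490000), (nat_lit 1100000), (nat_lit 1785001)], [(nat_lit 4), (nat_lit 51), (nat_lit 373), (nat_lit 150), (nat_lit 11)]⟩,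
 ⟨⟨[(nat_lit 80), (nat_lit 140), (nat_lit 200)], [(nat_lit 0), (nat_lit 792), (nat_lit 5941)], [((nat_lit 0), (nat_lit 0), (nat_lit 0)), ((nat_lit 1000), (nat_lit 959), (nat_lit 206)), ((nat_lit 709), (nat_lit 1000), (nat_lit 949))], ((nat_lit 0), (nat_lit 0), (nat_lit 0))⟩, (nat_lit 2120771), (nat_lit 223), (nat_lit 223), (nat_lit 0), (nat_lit 73906), [(nat_lit 4688000000), (nat_lit 9842000000), (nat_lit 16400000000)], [], [(nat_lit 27910323296), (nat_lit 28697984227), (nat_lit 31973059394), (nat_lit 32433664646), (nat_lit 34461542024), (nat_lit 34810440438), (nat_lit 36365263025), (nat_lit 36732723205)], (nat_lit 1271251), (nat_lit 1271251), (nat_lit 1271251), (nat_lit 1271251), (nat_lit 1271251), (nat_lit 1271251), [(nat_lit 1100000), (nat_lit 2127501), (nat_lit 1271251)], [(nat_lit 20), (nat_lit 64), (nat_lit 538), (nat_lit 300), (nat_lit 11)]⟩,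
 ⟨⟨[(nat_lit 140), (nat_lit 180), (nat_lit 200)], [(nat_lit 0), (nat_lit 0), (nat_lit 2835)], [((nat_lit 0), (nat_lit 0), (nat_lit 0)), ((nat_lit 0), (nat_lit 0), (nat_lit 0)), ((nat_lit 363), (nat_lit 1000), (nat_lit 798))], ((nat_lit 0), (nat_lit 0), (nat_lit 0))⟩, (nat_lit 129587), (nat_lit 300), (nat_lit 547), (nat_lit 36785105), (nat_lit 344445), [(nat_lit 4635582000), (nat_lit 6621318000), (nat_lit 7724400000)], [], [(nat_lit 29029066426), (nat_lit 28068284470), (nat_lit 26922674597), (nat_lit 31076760415), (nat_lit 29386572773), (nat_lit 28215796596), (nat_lit 25343873547), (nat_lit 24215548073)], (nat_lit 780000), (nat_lit 1271251), (nat_lit 356250), (nat_lit 1805001), (nat_lit 1271251), (nat_lit 1271251), [(nat_lit 1977501), (nat_lit 1271251), (nat_lit 1271251)], [(nat_lit 32), (nat_lit 67), (nat_lit 456), (nat_lit 225), (nat_lit 10)]⟩⟩)))) (.dle (nat_lit 0))) (.trZ (nat_lit 0) (nat_lit 1) (nat_lit 3) (nat_lit 98) (nat_lit 22) (nat_lit 100)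 (nat_lit 190) (.trX (nat_lit 3) (nat_lit 0) (nat_lit 1) (nat_lit 24) (nat_lit 88) (nat_lit 100) (nat_lit 320) (.trZ (nat_lit 0) (nat_lit 2) (nat_lit 4) (nat_lit 100) (nat_lit 24) (nat_lit 88) (nat_lit 80) (.trX (nat_lit 4) (nat_lit 0) (nat_lit 2) (nat_lit 22) (nat_lit 100) (nat_lit 100) (nat_lit 230) (.stt (nat_lit 2) (.leaf ⟨(nat_lit 0), (nat_lit 647), (nat_lit 0), (nat_lit 353), (nat_lit 0), (nat_lit 3886), (nat_lit 5724), (nat_lit 4208), (nat_lit 0), (nat_lit 0), (nat_lit 0), [], Pd.none, Pd.none, (nat_lit 0), (nat_lit 1), (nat_lit 0), (nat_lit 0), (nat_lit 5), (nat_lit 0), [⟨(nat_lit 0), (nat_lit 96), (nat_lit 16), (nat_lit 100), (nat_lit 874161091)⟩], [⟨(nat_lit 0), (nat_lit 100), (nat_lit 16), (nat_lit 95), (nat_lit 506647170)⟩], [⟨(nat_lit 1), (nat_lit 55), (nat_lit 99), (nat_lit 100), (nat_lit 195453675)⟩], [],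
 ⟨⟨[(nat_lit 40), (nat_lit 80), (nat_lit 120)], [(nat_lit 0), (nat_lit 3758), (nat_lit 6151)], [((nat_lit 0), (nat_lit 0), (nat_lit 0)), ((nat_lit 1000), (nat_lit 228), (nat_lit 923)), ((nat_lit 1000), (nat_lit 226), (nat_lit 935))], ((nat_lit 22), (nat_lit 100), (nat_lit 98))⟩, (nat_lit 1067805), (nat_lit 152), (nat_lit 152), (nat_lit 0), (nat_lit 59588), [(nat_lit 2032000015), (nat_lit 5848753336), (nat_lit 7968000000)], [], [(nat_lit 25065739790), (nat_lit 25394439838), (nat_lit 28800836023), (nat_lit 29055078940), (nat_lit 26591926115), (nat_lit 26856939971), (nat_lit 29582302738), (nat_lit 29864344862)], (nat_lit 1271251), (nat_lit 1271251), (nat_lit 1271251), (nat_lit 1271251), (nat_lit 490000), (nat_lit 1661876), [(nat_lit 490000), (nat_lit 1100000), (nat_lit 1785001)], [(nat_lit 4), (nat_lit 51), (nat_lit 373), (nat_lit 150), (nat_lit 11)]⟩,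
 ⟨⟨[(nat_lit 80), (nat_lit 140), (nat_lit 200)], [(nat_lit 0), (nat_lit 0), (nat_lit 5481)], [((nat_lit 0), (nat_lit 0), (nat_lit 0)), ((nat_lit 0), (nat_lit 0), (nat_lit 0)), ((nat_lit 637), (nat_lit 1000), (nat_lit 908))], ((nat_lit 0), (nat_lit 0), (nat_lit 0))⟩, (nat_lit 0), (nat_lit 111), (nat_lit 111), (nat_lit 0), (nat_lit 0), [(nat_lit 4688000000), (nat_lit 9842000000), (nat_lit 16400000000)], [], [(nat_lit 15015579876), (nat_lit 17845814460), (nat_lit 22282316408), (nat_lit 24295915912), (nat_lit 28200162268), (nat_lit 29713974181), (nat_lit 32062579984), (nat_lit 33289470896)], (nat_lit 0), (nat_lit 0), (nat_lit 0), (nat_lit 0), (nat_lit 0), (nat_lit 0), [], [(nat_lit 20), (nat_lit 64), (nat_lit 483), (nat_lit 250), (nat_lit 10)]⟩,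
 ⟨⟨[(nat_lit 140), (nat_lit 180), (nat_lit 200)], [(nat_lit 0), (nat_lit 0), (nat_lit 2835)], [((nat_lit 0), (nat_lit 0), (nat_lit 0)), ((nat_lit 0), (nat_lit 0), (nat_lit 0)), ((nat_lit 363), (nat_lit 1000), (nat_lit 798))], ((nat_lit 0), (nat_lit 0), (nat_lit 0))⟩, (nat_lit 97122), (nat_lit 300), (nat_lit 725), (nat_lit 27569300), (nat_lit 724755), [(nat_lit 3474226000), (nat_lit 4962474000), (nat_lit 5789200000)], [], [(nat_lit 22052737991), (nat_lit 21204688985), (nat_lit 19875369289), (nat_lit 22831768801), (nat_lit 21800727844), (nat_lit 20824195647), (nat_lit 19311296510), (nat_lit 18339613939)], (nat_lit 780000), (nat_lit 1271251), (nat_lit 490000), (nat_lit 1661876), (nat_lit 1271251), (nat_lit 1271251), [(nat_lit 1977501), (nat_lit 1271251), (nat_lit 1271251)], [(nat_lit 32), (nat_lit 67), (nat_lit 456), (nat_lit 225), (nat_lit 10)]⟩⟩) (.leaf ⟨(nat_lit 0), (nat_lit 517), (nat_lit 0), (nat_lit 483), (nat_lit 15100), (nat_lit 4032), (nat_lit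 11163), (nat_lit 6186), (nat_lit 0), (nat_lit 0), (nat_lit 0), [], Pd.none, Pd.none, (nat_lit 0), (nat_lit 1), (nat_lit 0), (nat_lit 0), (nat_lit 5), (nat_lit 0), [⟨(nat_lit 0), (nat_lit 96), (nat_lit 16), (nat_lit 100), (nat_lit 1410002495)⟩], [⟨(nat_lit 0), (nat_lit 100), (nat_lit 16), (nat_lit 95), (nat_lit 1216453488)⟩], [], [],
 ⟨⟨[(nat_lit 40), (nat_lit 80), (nat_lit 120)], [(nat_lit 0), (nat_lit 3758), (nat_lit 6151)], [((nat_lit 0), (nat_lit 0), (nat_lit 0)), ((nat_lit 1000), (nat_lit 228), (nat_lit 923)), ((nat_lit 1000), (nat_lit 226), (nat_lit 935))], ((nat_lit 22), (nat_lit 100), (nat_lit 98))⟩, (nat_lit 1032250), (nat_lit 147), (nat_lit 147), (nat_lit 0), (nat_lit 39802), [(nat_lit 2032000024), (nat_lit 5744961582), (nat_lit 7968000000)], [], [(nat_lit 25178157986), (nat_lit 25513270842), (nat_lit 29035266410), (nat_lit 29308212000), (nat_lit 26644381964), (nat_lit 26913840755), (nat_lit 29737849701), (nat_lit 30029298144)], (nat_lit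 1271251), (nat_lit 1271251), (nat_lit 1271251), (nat_lit 1271251), (nat_lit 490000), (nat_lit 1661876), [(nat_lit 490000), (nat_lit 1100000), (nat_lit 1785001)], [(nat_lit 4), (nat_lit 51), (nat_lit 373), (nat_lit 150), (nat_lit 11)]⟩,
 ⟨⟨[(nat_lit 80), (nat_lit 140), (nat_lit 200)], [(nat_lit 0), (nat_lit 0), (nat_lit 5481)], [((nat_lit 0), (nat_lit 0), (nat_lit 0)), ((nat_lit 0), (nat_lit 0), (nat_lit 0)), ((nat_lit 637), (nat_lit 1000), (nat_lit 908))], ((nat_lit 0), (nat_lit 0), (nat_lit 0))⟩, (nat_lit 1716387), (nat_lit 250), (nat_lit 250), (nat_lit 0), (nat_lit 134993), [(nat_lit 4688000000), (nat_lit 9842000000), (nat_lit 16400000000)], [], [(nat_lit 29989331911), (nat_lit 31190622171), (nat_lit 32893367349), (nat_lit 33949466780), (nat_lit 37811580191), (nat_lit 38388791788), (nat_lit 38105939908), (nat_lit 39547062152)], (nat_lit 1271251), (nat_lit 1271251), (nat_lit 1271251), (nat_lit 1271251), (nat_lit 1271251), (nat_lit 1271251), [(nat_lit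 1100000), (nat_lit 2127501), (nat_lit 1271251)], [(nat_lit 20), (nat_lit 64), (nat_lit 483), (nat_lit 250), (nat_lit 10)]⟩,
 ⟨⟨[(nat_lit 140), (nat_lit 180), (nat_lit 200)], [(nat_lit 0), (nat_lit 0), (nat_lit 2835)], [((nat_lit 0), (nat_lit 0), (nat_lit 0)), ((nat_lit 0), (nat_lit 0), (nat_lit 0)), ((nat_lit 363), (nat_lit 1000), (nat_lit 798))], ((nat_lit 0), (nat_lit 0), (nat_lit 0))⟩, (nat_lit 132889), (nat_lit 300), (nat_lit 627), (nat_lit 37722300), (nat_lit 505645), [(nat_lit 4753686000), (nat_lit 6790014000), (nat_lit 7921200000)], [], [(nat_lit 29400656868), (nat_lit 28130560079), (nat_lit 27137466966), (nat_lit 31753067572), (nat_lit 28912571460), (nat_lit 27569852946), (nat_lit 25455431415), (nat_lit 24102697496)], (nat_lit 780000), (nat_lit 1271251), (nat_lit 490000), (nat_lit 1661876), (nat_lit 1271251), (nat_lit 1271251), [(nat_lit 1977501), (nat_lit 1271251), (nat_lit 1271251)], [(nat_lit 32), (nat_lit 67), (nat_lit 456), (nat_lit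 225), (nat_lit 10)]⟩⟩)))))))
noncomputable def c14_122 : Tr Lf :=
 (.trX (nat_lit 3) (nat_lit 0) (nat_lit 1) (nat_lit 50) (nat_lit 65) (nat_lit 100) (nat_lit 370) (.spl (nat_lit 0) (nat_lit 390) (.spl (nat_lit 6) (nat_lit 152) (.spl (nat_lit 0) (nat_lit 385) (.spl (nat_lit 6) (nat_lit 140) (.leaf ⟨(nat_lit 0), (nat_lit 1000), (nat_lit 0), (nat_lit 0), (nat_lit 43015), (nat_lit 4319), (nat_lit 8515), (nat_lit 0), (nat_lit 0), (nat_lit 0), (nat_lit 0), [], Pd.none, Pd.none, (nat_lit 0), (nat_lit 1), (nat_lit 0), (nat_lit 0), (nat_lit 3), (nat_lit 0), [⟨(nat_lit 0), (nat_lit 87), (nat_lit 38), (nat_lit 100), (nat_lit 168757906)⟩], [⟨(nat_lit 1), (nat_lit 100), (nat_lit 41), (nat_lit 98), (nat_lit 519039308)⟩], [], [⟨(nat_lit 0), (nat_lit 100), (nat_lit 94), (nat_lit 19), (nat_lit 10470230)⟩],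
 ⟨⟨[(nat_lit 40), (nat_lit 80), (nat_lit 120)], [(nat_lit 0), (nat_lit 2514), (nat_lit 4610)], [((nat_lit 0), (nat_lit 0), (nat_lit 0)), ((nat_lit 1000), (nat_lit 446), (nat_lit 804)), ((nat_lit 1000), (nat_lit 443), (nat_lit 819))], ((nat_lit 44), (nat_lit 100), (nat_lit 96))⟩, (nat_lit 1099927), (nat_lit 180), (nat_lit 180), (nat_lit 0), (nat_lit 33602), [(nat_lit 2032002257), (nat_lit 4790901441), (nat_lit 7968000000)], [], [(nat_lit 26635679359), (nat_lit 27015156981), (nat_lit 33320665364), (nat_lit 33572712827), (nat_lit 28031888141), (nat_lit 28274543464), (nat_lit 32795053209), (nat_lit 32981310599)], (nat_lit 1271251), (nat_lit 1271251), (nat_lit 1271251), (nat_lit 1271251), (nat_lit 230000), (nat_lit 1940626), [(nat_lit 490000), (nat_lit 1100000), (nat_lit 1785001)], [(nat_lit 4), (nat_lit 51), (nat_lit 401), (nat_lit 175), (nat_lit 12)]⟩,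
 ⟨⟨[(nat_lit 60), (nat_lit 120), (nat_lit 180)], [(nat_lit 0), (nat_lit 0), (nat_lit 4796)], [((nat_lit 0), (nat_lit 0), (nat_lit 0)), ((nat_lit 0), (nat_lit 0), (nat_lit 0)), ((nat_lit 802), (nat_lit 1000), (nat_lit 999))], ((nat_lit 96), (nat_lit 69), (nat_lit 100))⟩, (nat_lit 2355160), (nat_lit 291), (nat_lit 291), (nat_lit 0), (nat_lit 63674), [(nat_lit 3282000000), (nat_lit 7968000000), (nat_lit 14058000000)], [], [(nat_lit 32709962817), (nat_lit 33583720080), (nat_lit 39402884602), (nat_lit 40055762480), (nat_lit 26285243447), (nat_lit 26939361437), (nat_lit 32468889225), (nat_lit 33011099663)], (nat_lit 1271251), (nat_lit 1271251), (nat_lit 1271251), (nat_lit 1271251), (nat_lit 0), (nat_lit 1412501), [(nat_lit 780000), (nat_lit 1762501), (nat_lit 1271251)], [(nat_lit 13), (nat_lit 60), (nat_lit 456), (nat_lit 225), (nat_lit 10)]⟩,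
 Rw.none⟩) (.dle (nat_lit 0))) (.trZ (nat_lit 0) (nat_lit 1) (nat_lit 3) (nat_lit 92) (nat_lit 38) (nat_lit 100) (nat_lit 200) (.trX (nat_lit 3) (nat_lit 0) (nat_lit 1) (nat_lit 44) (nat_lit 71) (nat_lit 100) (nat_lit 360) (.trZ (nat_lit 0) (nat_lit 2) (nat_lit 4) (nat_lit 100) (nat_lit 41) (nat_lit 76) (nat_lit 50) (.trX (nat_lit 4) (nat_lit 0) (nat_lit 2) (nat_lit 38) (nat_lit 96) (nat_lit 100) (nat_lit 260) (.leaf ⟨(nat_lit 0), (nat_lit 1000), (nat_lit 0), (nat_lit 0), (nat_lit 30450), (nat_lit 4314), (nat_lit 8146), (nat_lit 0), (nat_lit 0), (nat_lit 0), (nat_lit 0), [], Pd.none, Pd.none, (nat_lit 0), (nat_lit 1), (nat_lit 0), (nat_lit 0), (nat_lit 3), (nat_lit 0), [⟨(nat_lit 0), (nat_lit 88), (nat_lit 32), (nat_lit 100), (nat_lit 265016309)⟩], [⟨(nat_lit 1), (nat_lit 100), (nat_lit 35), (nat_lit 97), (nat_lit 616429643)⟩], [], [⟨(nat_lit 0), (nat_lit 100), (nat_lit 94), (nat_lit 19), (nat_lit 208516)⟩],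
 ⟨⟨[(nat_lit 40), (nat_lit 80), (nat_lit 120)], [(nat_lit 0), (nat_lit 2833), (nat_lit 5014)], [((nat_lit 0), (nat_lit 0), (nat_lit 0)), ((nat_lit 1000), (nat_lit 389), (nat_lit 842)), ((nat_lit 1000), (nat_lit 387), (nat_lit 852))], ((nat_lit 38), (nat_lit 100), (nat_lit 98))⟩, (nat_lit 1046153), (nat_lit 176), (nat_lit 176), (nat_lit 0), (nat_lit 47683), [(nat_lit 2032000159), (nat_lit 4839053771), (nat_lit 7968000000)], [], [(nat_lit 26740296287), (nat_lit 27110204957), (nat_lit 32564065077), (nat_lit 32822384140), (nat_lit 27968487067), (nat_lit 28212518130), (nat_lit 32242027372), (nat_lit 32437020978)], (nat_lit 1271251), (nat_lit 1271251), (nat_lit 1271251), (nat_lit 1271251), (nat_lit 292188), (nat_lit 1873751), [(nat_lit 490000), (nat_lit 1100000), (nat_lit 1785001)], [(nat_lit 4), (nat_lit 51), (nat_lit 401), (nat_lit 175), (nat_lit 12)]⟩,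
 ⟨⟨[(nat_lit 60), (nat_lit 120), (nat_lit 180)], [(nat_lit 0), (nat_lit 0), (nat_lit 4796)], [((nat_lit 0), (nat_lit 0), (nat_lit 0)), ((nat_lit 0), (nat_lit 0), (nat_lit 0)), ((nat_lit 802), (nat_lit 1000), (nat_lit 999))], ((nat_lit 94), (nat_lit 63), (nat_lit 100))⟩, (nat_lit 2228353), (nat_lit 362), (nat_lit 362), (nat_lit 0), (nat_lit 85249), [(nat_lit 3282000000), (nat_lit 7968000000), (nat_lit 14058000000)], [], [(nat_lit 33954637126), (nat_lit 34478403695), (nat_lit 38924275758), (nat_lit 39606090347), (nat_lit 27591043944), (nat_lit 28220682329), (nat_lit 32584757224), (nat_lit 33149107758)], (nat_lit 1271251), (nat_lit 1271251), (nat_lit 1271251), (nat_lit 1271251), (nat_lit 0), (nat_lit 1412501), [(nat_lit 780000), (nat_lit 1762501), (nat_lit 1271251)], [(nat_lit 13), (nat_lit 60), (nat_lit 456), (nat_lit 225), (nat_lit 10)]⟩,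
 Rw.none⟩)))))) (.dle (nat_lit 0))) (.trZ (nat_lit 0) (nat_lit 1) (nat_lit 3) (nat_lit 92) (nat_lit 31) (nat_lit 100) (nat_lit 210) (.trX (nat_lit 3) (nat_lit 0) (nat_lit 1) (nat_lit 36) (nat_lit 77) (nat_lit 100) (nat_lit 350) (.trZ (nat_lit 0) (nat_lit 2) (nat_lit 4) (nat_lit 100) (nat_lit 34) (nat_lit 81) (nat_lit 60) (.trX (nat_lit 4) (nat_lit 0) (nat_lit 2) (nat_lit 31) (nat_lit 98) (nat_lit 100) (nat_lit 250) (.spl (nat_lit 4) (nat_lit 160) (.spl (nat_lit 3) (nat_lit 280) (.leaf ⟨(nat_lit 0), (nat_lit 1000), (nat_lit 0), (nat_lit 0), (nat_lit 16417), (nat_lit 7124), (nat_lit 8222), (nat_lit 0), (nat_lit 0), (nat_lit 0), (nat_lit 0), [], Pd.none, Pd.none, (nat_lit 0), (nat_lit 1), (nat_lit 0), (nat_lit 0), (nat_lit 3), (nat_lit 0), [⟨(nat_lit 0), (nat_lit 92), (nat_lit 23), (nat_lit 100), (nat_lit 1051034004)⟩], [], [], [],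
 ⟨⟨[(nat_lit 40), (nat_lit 80), (nat_lit 120)], [(nat_lit 0), (nat_lit 3225), (nat_lit 5518)], [((nat_lit 0), (nat_lit 0), (nat_lit 0)), ((nat_lit 1000), (nat_lit 321), (nat_lit 877)), ((nat_lit 1000), (nat_lit 317), (nat_lit 896))], ((nat_lit 31), (nat_lit 99), (nat_lit 100))⟩, (nat_lit 455836), (nat_lit 175), (nat_lit 175), (nat_lit 0), (nat_lit 110085), [(nat_lit 2507267721), (nat_lit 5165585872), (nat_lit 7968000000)], [], [(nat_lit 30358790091), (nat_lit 31328431271), (nat_lit 32914330929), (nat_lit 34058948964), (nat_lit 28056766068), (nat_lit 28909009452), (nat_lit 30107932617), (nat_lit 30836807448)], (nat_lit 1271251), (nat_lit 1271251), (nat_lit 1271251), (nat_lit 1271251), (nat_lit 356250), (nat_lit 1100000), [(nat_lit 490000), (nat_lit 1100000), (nat_lit 1785001)], [(nat_lit 4), (nat_lit 51), (nat_lit 345), (nat_lit 125), (nat_lit 10)]⟩,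
 ⟨⟨[(nat_lit 60), (nat_lit 140), (nat_lit 200)], [(nat_lit 0), (nat_lit 0), (nat_lit 7307)], [((nat_lit 0), (nat_lit 0), (nat_lit 0)), ((nat_lit 0), (nat_lit 0), (nat_lit 0)), ((nat_lit 527), (nat_lit 925), (nat_lit 1000))], ((nat_lit 0), (nat_lit 0), (nat_lit 0))⟩, (nat_lit 1706708), (nat_lit 467), (nat_lit 467), (nat_lit 0), (nat_lit 207687), [(nat_lit 3282000000), (nat_lit 9842000000), (nat_lit 16400000000)], [], [(nat_lit 40159841323), (nat_lit 40745516118), (nat_lit 41171470528), (nat_lit 41632743340), (nat_lit 33226498951), (nat_lit 33967364744), (nat_lit 34782564258), (nat_lit 35382323469)], (nat_lit 1271251), (nat_lit 1271251), (nat_lit 1271251), (nat_lit 1271251), (nat_lit 0), (nat_lit 1412501), [(nat_lit 780000), (nat_lit 2090001), (nat_lit 1271251)], [(nat_lit 14), (nat_lit 64), (nat_lit 428), (nat_lit 200), (nat_lit 9)]⟩,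
 Rw.none⟩) (.leaf ⟨(nat_lit 0), (nat_lit 1000), (nat_lit 0), (nat_lit 0), (nat_lit 12989), (nat_lit 6512), (nat_lit 7885), (nat_lit 0), (nat_lit 0), (nat_lit 0), (nat_lit 0), [], Pd.none, Pd.none, (nat_lit 0), (nat_lit 1), (nat_lit 0), (nat_lit 0), (nat_lit 3), (nat_lit 0), [], [], [], [],
 ⟨⟨[(nat_lit 40), (nat_lit 80), (nat_lit 120)], [(nat_lit 0), (nat_lit 3225), (nat_lit 5518)], [((nat_lit 0), (nat_lit 0), (nat_lit 0)), ((nat_lit 1000), (nat_lit 321), (nat_lit 877)), ((nat_lit 1000), (nat_lit 317), (nat_lit 896))], ((nat_lit 31), (nat_lit 99), (nat_lit 100))⟩, (nat_lit 423319), (nat_lit 186), (nat_lit 186), (nat_lit 0), (nat_lit 110085), [(nat_lit 2478748094), (nat_lit 5119997605), (nat_lit 7968000000)], [], [(nat_lit 32692534720), (nat_lit 33475224918), (nat_lit 36394347134), (nat_lit 37268612894), (nat_lit 30480146778), (nat_lit 31171987806), (nat_lit 33472811543), (nat_lit 34046087632)], (nat_lit 1271251), (nat_lit 1271251), (nat_lit 1271251),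 (nat_lit 1271251), (nat_lit 356250), (nat_lit 1100000), [(nat_lit 490000), (nat_lit 1100000), (nat_lit 1785001)], [(nat_lit 4), (nat_lit 51), (nat_lit 249), (nat_lit 40), (nat_lit 7)]⟩,
 ⟨⟨[(nat_lit 60), (nat_lit 140), (nat_lit 200)], [(nat_lit 0), (nat_lit 0), (nat_lit 7307)], [((nat_lit 0), (nat_lit 0), (nat_lit 0)), ((nat_lit 0), (nat_lit 0), (nat_lit 0)), ((nat_lit 527), (nat_lit 925), (nat_lit 1000))], ((nat_lit 0), (nat_lit 0), (nat_lit 0))⟩, (nat_lit 1637143), (nat_lit 453), (nat_lit 453), (nat_lit 0), (nat_lit 207687), [(nat_lit 3282000000), (nat_lit 9842000000), (nat_lit 16400000000)], [], [(nat_lit 41814743069), (nat_lit 42275393779), (nat_lit 44318060293), (nat_lit 44920689963), (nat_lit 35431006515), (nat_lit 36024682708), (nat_lit 37899354114), (nat_lit 38345997866)], (nat_lit 1271251), (nat_lit 1271251), (nat_lit 1271251), (nat_lit 1271251), (nat_lit 0), (nat_lit 1412501), [(nat_lit 780000), (nat_lit 2090001), (nat_lit 1271251)], [(nat_lit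 14), (nat_lit 64), (nat_lit 456), (nat_lit 225), (nat_lit 9)]⟩,
 Rw.none⟩)) (.spl (nat_lit 3) (nat_lit 280) (.spl (nat_lit 0) (nat_lit 395) (.spl (nat_lit 6) (nat_lit 164) (.leaf ⟨(nat_lit 0), (nat_lit 1000), (nat_lit 0), (nat_lit 0), (nat_lit 25803), (nat_lit 8990), (nat_lit 9785), (nat_lit 0), (nat_lit 0), (nat_lit 0), (nat_lit 0), [], Pd.none, Pd.none, (nat_lit 0), (nat_lit 1), (nat_lit 0), (nat_lit 0), (nat_lit 4), (nat_lit 0), [⟨(nat_lit 0), (nat_lit 91), (nat_lit 28), (nat_lit 100), (nat_lit 859576613)⟩], [⟨(nat_lit 1), (nat_lit 100), (nat_lit 27), (nat_lit 97), (nat_lit 1068225092)⟩], [⟨(nat_lit 0), (nat_lit 100), (nat_lit 92), (nat_lit 22), (nat_lit 56191054)⟩], [],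
 ⟨⟨[(nat_lit 40), (nat_lit 80), (nat_lit 120)], [(nat_lit 0), (nat_lit 3225), (nat_lit 5518)], [((nat_lit 0), (nat_lit 0), (nat_lit 0)), ((nat_lit 1000), (nat_lit 321), (nat_lit 877)), ((nat_lit 1000), (nat_lit 317), (nat_lit 896))], ((nat_lit 32), (nat_lit 100), (nat_lit 99))⟩, (nat_lit 0), (nat_lit 123), (nat_lit 123), (nat_lit 0), (nat_lit 79055), [(nat_lit 3082277221), (nat_lit 6639221231), (nat_lit 7968000000)], [], [(nat_lit 29895210387), (nat_lit 30391290694), (nat_lit 32035429338), (nat_lit 32456325149), (nat_lit 31249439669), (nat_lit 31661171594), (nat_lit 33269020162), (nat_lit 33757824373)], (nat_lit 1271251), (nat_lit 1271251), (nat_lit 1271251), (nat_lit 1271251), (nat_lit 1100000), (nat_lit 1870626), [(nat_lit 490000), (nat_lit 1100000), (nat_lit 1785001)], [(nat_lit 4), (nat_lit 51), (nat_lit 373), (nat_lit 150), (nat_lit 11)]⟩,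
 ⟨⟨[(nat_lit 60), (nat_lit 140), (nat_lit 200)], [(nat_lit 0), (nat_lit 0), (nat_lit 7307)], [((nat_lit 0), (nat_lit 0), (nat_lit 0)), ((nat_lit 0), (nat_lit 0), (nat_lit 0)), ((nat_lit 527), (nat_lit 925), (nat_lit 1000))], ((nat_lit 0), (nat_lit 0), (nat_lit 0))⟩, (nat_lit 1788887), (nat_lit 445), (nat_lit 445), (nat_lit 0), (nat_lit 146742), [(nat_lit 3282000000), (nat_lit 9842000000), (nat_lit 16400000000)], [], [(nat_lit 39028438749), (nat_lit 39636366365), (nat_lit 39945041461), (nat_lit 40465312834), (nat_lit 30215139726), (nat_lit 31006504974), (nat_lit 31775100615), (nat_lit 32403072758)], (nat_lit 1271251), (nat_lit 1271251), (nat_lit 1271251), (nat_lit 1271251), (nat_lit 0), (nat_lit 1412501), [(nat_lit 780000), (nat_lit 2090001), (nat_lit 1271251)], [(nat_lit 14), (nat_lit 64), (nat_lit 428), (nat_lit 200), (nat_lit 9)]⟩,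
 Rw.none⟩) (.dle (nat_lit 0))) (.trZ (nat_lit 0) (nat_lit 1) (nat_lit 3) (nat_lit 93) (nat_lit 23) (nat_lit 100) (nat_lit 230) (.trX (nat_lit 4) (nat_lit 0) (nat_lit 2) (nat_lit 22) (nat_lit 100) (nat_lit 100) (nat_lit 230) (.leaf ⟨(nat_lit 0), (nat_lit 1000), (nat_lit 0), (nat_lit 0), (nat_lit 30173), (nat_lit 4162), (nat_lit 8001), (nat_lit 0), (nat_lit 0), (nat_lit 0), (nat_lit 0), [], Pd.none, Pd.none, (nat_lit 0), (nat_lit 1), (nat_lit 0), (nat_lit 0), (nat_lit 4), (nat_lit 0), [⟨(nat_lit 0), (nat_lit 94), (nat_lit 17), (nat_lit 100), (nat_lit 1171754939)⟩], [⟨(nat_lit 1), (nat_lit 100), (nat_lit 16), (nat_lit 97), (nat_lit 1880575927)⟩], [], [],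
 ⟨⟨[(nat_lit 40), (nat_lit 80), (nat_lit 120)], [(nat_lit 0), (nat_lit 3758), (nat_lit 6151)], [((nat_lit 0), (nat_lit 0), (nat_lit 0)), ((nat_lit 1000), (nat_lit 228), (nat_lit 923)), ((nat_lit 1000), (nat_lit 226), (nat_lit 935))], ((nat_lit 22), (nat_lit 100), (nat_lit 100))⟩, (nat_lit 1079389), (nat_lit 133), (nat_lit 133), (nat_lit 0), (nat_lit 109422), [(nat_lit 2032000343), (nat_lit 5541483660), (nat_lit 7968000000)], [], [(nat_lit 25718280465), (nat_lit 26015440277), (nat_lit 27191787877), (nat_lit 27466667344), (nat_lit 26867863668), (nat_lit 27138354820), (nat_lit 28391268070), (nat_lit 28716902376)], (nat_lit 1271251), (nat_lit 1271251), (nat_lit 1271251), (nat_lit 1271251), (nat_lit 1100000), (nat_lit 1699376), [(nat_lit 490000), (nat_lit 1100000), (nat_lit 1785001)], [(nat_lit 4), (nat_lit 51), (nat_lit 373), (nat_lit 150), (nat_lit 11)]⟩,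
 ⟨⟨[(nat_lit 60), (nat_lit 140), (nat_lit 200)], [(nat_lit 0), (nat_lit 0), (nat_lit 7307)], [((nat_lit 0), (nat_lit 0), (nat_lit 0)), ((nat_lit 0), (nat_lit 0), (nat_lit 0)), ((nat_lit 527), (nat_lit 925), (nat_lit 1000))], ((nat_lit 0), (nat_lit 0), (nat_lit 0))⟩, (nat_lit 1696178), (nat_lit 461), (nat_lit 461), (nat_lit 0), (nat_lit 207732), [(nat_lit 3282000000), (nat_lit 9842000000), (nat_lit 16400000000)], [], [(nat_lit 40380743931), (nat_lit 40931976398), (nat_lit 41336918876), (nat_lit 41797783722), (nat_lit 33894938941), (nat_lit 34591965863), (nat_lit 35207803839), (nat_lit 35803573890)], (nat_lit 1271251), (nat_lit 1271251), (nat_lit 1271251), (nat_lit 1271251), (nat_lit 0), (nat_lit 1412501), [(nat_lit 780000), (nat_lit 2090001), (nat_lit 1271251)], [(nat_lit 14), (nat_lit 64), (nat_lit 428), (nat_lit 200), (nat_lit 9)]⟩,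
 Rw.none⟩)))) (.leaf ⟨(nat_lit 0), (nat_lit 1000), (nat_lit 0), (nat_lit 0), (nat_lit 20941), (nat_lit 8116), (nat_lit 7422), (nat_lit 0), (nat_lit 0), (nat_lit 0), (nat_lit 0), [], Pd.none, Pd.none, (nat_lit 0), (nat_lit 1), (nat_lit 0), (nat_lit 0), (nat_lit 4), (nat_lit 0), [], [⟨(nat_lit 1), (nat_lit 100), (nat_lit 22), (nat_lit 97), (nat_lit 1191173054)⟩], [], [],
 ⟨⟨[(nat_lit 40), (nat_lit 80), (nat_lit 120)], [(nat_lit 0), (nat_lit 3225), (nat_lit 5518)], [((nat_lit 0), (nat_lit 0), (nat_lit 0)), ((nat_lit 1000), (nat_lit 321), (nat_lit 877)), ((nat_lit 1000), (nat_lit 317), (nat_lit 896))], ((nat_lit 31), (nat_lit 99), (nat_lit 100))⟩, (nat_lit 0), (nat_lit 144), (nat_lit 144), (nat_lit 0), (nat_lit 110085), [(nat_lit 2641185320), (nat_lit 6223313140), (nat_lit 7968000000)], [], [(nat_lit 32310746985), (nat_lit 33099650464), (nat_lit 35595370928), (nat_lit 36328998276), (nat_lit 33204674690), (nat_lit 33862758839), (nat_lit 36164993282),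 (nat_lit 36907278825)], (nat_lit 1271251), (nat_lit 1271251), (nat_lit 1271251), (nat_lit 1271251), (nat_lit 1100000), (nat_lit 1870626), [(nat_lit 490000), (nat_lit 1100000), (nat_lit 1785001)], [(nat_lit 4), (nat_lit 51), (nat_lit 289), (nat_lit 75), (nat_lit 8)]⟩,
 ⟨⟨[(nat_lit 60), (nat_lit 140), (nat_lit 200)], [(nat_lit 0), (nat_lit 0), (nat_lit 7307)], [((nat_lit 0), (nat_lit 0), (nat_lit 0)), ((nat_lit 0), (nat_lit 0), (nat_lit 0)), ((nat_lit 527), (nat_lit 925), (nat_lit 1000))], ((nat_lit 0), (nat_lit 0), (nat_lit 0))⟩, (nat_lit 1576731), (nat_lit 453), (nat_lit 453), (nat_lit 0), (nat_lit 207687), [(nat_lit 3282000000), (nat_lit 9842000000), (nat_lit 16400000000)], [], [(nat_lit 42441594867), (nat_lit 42901390879), (nat_lit 44596341581), (nat_lit 45191092380), (nat_lit 36321893058), (nat_lit 36907211869), (nat_lit 38739823371), (nat_lit 39185292521)], (nat_lit 1271251), (nat_lit 1271251), (nat_lit 1271251), (nat_lit 1271251), (nat_lit 0),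 (nat_lit 1412501), [(nat_lit 780000), (nat_lit 2090001), (nat_lit 1271251)], [(nat_lit 14), (nat_lit 64), (nat_lit 456), (nat_lit 225), (nat_lit 9)]⟩,
 Rw.none⟩)))))))))
noncomputable def c14_123 : Tr Lf :=
 (.trZ (nat_lit 0) (nat_lit 1) (nat_lit 3) (nat_lit 87) (nat_lit 44) (nat_lit 100) (nat_lit 210) (.spl (nat_lit 4) (nat_lit 160) (.leaf ⟨(nat_lit 0), (nat_lit 994), (nat_lit 0), (nat_lit 6), (nat_lit 12459), (nat_lit 5128), (nat_lit 6925), (nat_lit 87), (nat_lit 0), (nat_lit 0), (nat_lit 0), [], Pd.none, Pd.none, (nat_lit 0), (nat_lit 1), (nat_lit 0), (nat_lit 0), (nat_lit 3), (nat_lit 0), [⟨(nat_lit 0), (nat_lit 87), (nat_lit 32), (nat_lit 100), (nat_lit 321588001)⟩], [], [], [],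
 ⟨⟨[(nat_lit 40), (nat_lit 100), (nat_lit 140)], [(nat_lit 0), (nat_lit 3610), (nat_lit 5926)], [((nat_lit 0), (nat_lit 0), (nat_lit 0)), ((nat_lit 1000), (nat_lit 436), (nat_lit 895)), ((nat_lit 1000), (nat_lit 436), (nat_lit 905))], ((nat_lit 44), (nat_lit 95), (nat_lit 100))⟩, (nat_lit 1115525), (nat_lit 280), (nat_lit 280), (nat_lit 0), (nat_lit 173000), [(nat_lit 2163983336), (nat_lit 6473104007), (nat_lit 9842000000)], [], [(nat_lit 29293301763), (nat_lit 30762841712), (nat_lit 35907376156), (nat_lit 37299813156), (nat_lit 27250835771), (nat_lit 28538103102), (nat_lit 32953441016), (nat_lit 33814915730)], (nat_lit 1271251), (nat_lit 1271251), (nat_lit 1271251), (nat_lit 1271251), (nat_lit 230000), (nat_lit 1100000), [(nat_lit 490000), (nat_lit 1427501), (nat_lit 1271251)], [(nat_lit 5), (nat_lit 55), (nat_lit 373), (nat_lit 150), (nat_lit 10)]⟩,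
 ⟨⟨[(nat_lit 60), (nat_lit 120), (nat_lit 180)], [(nat_lit 0), (nat_lit 913), (nat_lit 5370)], [((nat_lit 0), (nat_lit 0), (nat_lit 0)), ((nat_lit 1000), (nat_lit 905), (nat_lit 238)), ((nat_lit 862), (nat_lit 939), (nat_lit 1000))], ((nat_lit 87), (nat_lit 60), (nat_lit 100))⟩, (nat_lit 2253632), (nat_lit 427), (nat_lit 427), (nat_lit 0), (nat_lit 279427), [(nat_lit 3282000000), (nat_lit 7968000000), (nat_lit 14058000000)], [], [(nat_lit 31760403579), (nat_lit 32530763307), (nat_lit 37984574629), (nat_lit 38577670300), (nat_lit 26896589576), (nat_lit 27486538401), (nat_lit 32100089318), (nat_lit 32600807118)], (nat_lit 1271251), (nat_lit 1271251), (nat_lit 1271251), (nat_lit 1271251), (nat_lit 0), (nat_lit 1412501), [(nat_lit 780000), (nat_lit 1762501), (nat_lit 1271251)], [(nat_lit 13), (nat_lit 60), (nat_lit 456), (nat_lit 225), (nat_lit 10)]⟩,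
 ⟨⟨[(nat_lit 140), (nat_lit 180), (nat_lit 200)], [(nat_lit 0), (nat_lit 0), (nat_lit 2835)], [((nat_lit 0), (nat_lit 0), (nat_lit 0)), ((nat_lit 0), (nat_lit 0), (nat_lit 0)), ((nat_lit 363), (nat_lit 1000), (nat_lit 798))], ((nat_lit 0), (nat_lit 0), (nat_lit 0))⟩, (nat_lit 0), (nat_lit 300), (nat_lit 1493), (nat_lit 492000), (nat_lit 2048713), [(nat_lit 59052000), (nat_lit 84348000), (nat_lit 98400000)], [], [(nat_lit 571067318), (nat_lit 498645778), (nat_lit 427747140), (nat_lit 408410301), (nat_lit 389954853), (nat_lit 370878553), (nat_lit 329331834), (nat_lit 389884662)], (nat_lit 780000), (nat_lit 1271251), (nat_lit 230000), (nat_lit 1100000), (nat_lit 0), (nat_lit 1412501), [(nat_lit 1977501), (nat_lit 1271251), (nat_lit 1271251)], [(nat_lit 32), (nat_lit 67), (nat_lit 441), (nat_lit 150), (nat_lit 10)]⟩⟩) (.spl (nat_lit 0) (nat_lit 390) (.leaf ⟨(nat_lit 0), (nat_lit 974), (nat_lit 0), (nat_lit 26), (nat_lit 31916), (nat_lit 4137), (nat_lit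 6673), (nat_lit 333), (nat_lit 0), (nat_lit 0), (nat_lit 0), [], Pd.none, Pd.none, (nat_lit 0), (nat_lit 1), (nat_lit 0), (nat_lit 0), (nat_lit 4), (nat_lit 0), [⟨(nat_lit 0), (nat_lit 85), (nat_lit 39), (nat_lit 100), (nat_lit 224982670)⟩], [⟨(nat_lit 1), (nat_lit 100), (nat_lit 38), (nat_lit 98), (nat_lit 810881394)⟩], [], [],
 ⟨⟨[(nat_lit 40), (nat_lit 100), (nat_lit 140)], [(nat_lit 0), (nat_lit 3610), (nat_lit 5926)], [((nat_lit 0), (nat_lit 0), (nat_lit 0)), ((nat_lit 1000), (nat_lit 436), (nat_lit 895)), ((nat_lit 1000), (nat_lit 436), (nat_lit 905))], ((nat_lit 44), (nat_lit 95), (nat_lit 100))⟩, (nat_lit 1410247), (nat_lit 171), (nat_lit 171), (nat_lit 0), (nat_lit 114951), [(nat_lit 2032000496), (nat_lit 7209908021), (nat_lit 9842000000)], [], [(nat_lit 25899636161), (nat_lit 26446067351), (nat_lit 31284553880), (nat_lit 31682598949), (nat_lit 28043305247), (nat_lit 28520387616), (nat_lit 32859874864), (nat_lit 33322543729)], (nat_lit 1271251),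 (nat_lit 1271251), (nat_lit 1271251), (nat_lit 1271251), (nat_lit 1100000), (nat_lit 2041876), [(nat_lit 490000), (nat_lit 1427501), (nat_lit 1271251)], [(nat_lit 5), (nat_lit 55), (nat_lit 401), (nat_lit 175), (nat_lit 10)]⟩,
 ⟨⟨[(nat_lit 60), (nat_lit 120), (nat_lit 180)], [(nat_lit 0), (nat_lit 913), (nat_lit 5370)], [((nat_lit 0), (nat_lit 0), (nat_lit 0)), ((nat_lit 1000), (nat_lit 905), (nat_lit 238)), ((nat_lit 862), (nat_lit 939), (nat_lit 1000))], ((nat_lit 87), (nat_lit 60), (nat_lit 100))⟩, (nat_lit 2363560), (nat_lit 393), (nat_lit 393), (nat_lit 0), (nat_lit 179155), [(nat_lit 3282000000), (nat_lit 7968000000), (nat_lit 14058000000)], [], [(nat_lit 31204931294), (nat_lit 31965630949), (nat_lit 37271329199), (nat_lit 37921271788), (nat_lit 26638291221), (nat_lit 27223388038), (nat_lit 32326341526), (nat_lit 32824830134)], (nat_lit 1271251), (nat_lit 1271251), (nat_lit 1271251), (nat_lit 1271251), (nat_lit 0), (nat_lit 1412501), [(nat_lit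 780000), (nat_lit 1762501), (nat_lit 1271251)], [(nat_lit 13), (nat_lit 60), (nat_lit 456), (nat_lit 225), (nat_lit 10)]⟩,
 ⟨⟨[(nat_lit 140), (nat_lit 180), (nat_lit 200)], [(nat_lit 0), (nat_lit 0), (nat_lit 2835)], [((nat_lit 0), (nat_lit 0), (nat_lit 0)), ((nat_lit 0), (nat_lit 0), (nat_lit 0)), ((nat_lit 363), (nat_lit 1000), (nat_lit 798))], ((nat_lit 0), (nat_lit 0), (nat_lit 0))⟩, (nat_lit 7153), (nat_lit 300), (nat_lit 1086), (nat_lit 2030607), (nat_lit 1306440), [(nat_lit 255892000), (nat_lit 365508000), (nat_lit 426400000)], [], [(nat_lit 1832903444), (nat_lit 1761733503), (nat_lit 1762253527), (nat_lit 1687678354), (nat_lit 1472691522), (nat_lit 1640154290), (nat_lit 1903681828), (nat_lit 2158031573)], (nat_lit 780000), (nat_lit 1271251), (nat_lit 1100000), (nat_lit 2041876), (nat_lit 0), (nat_lit 1412501), [(nat_lit 1977501), (nat_lit 1271251), (nat_lit 1271251)], [(nat_lit 32), (nat_lit 67), (nat_lit 401), (nat_lit 175), (nat_lit 9)]⟩⟩)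 (.trZ (nat_lit 0) (nat_lit 1) (nat_lit 3) (nat_lit 88) (nat_lit 32) (nat_lit 100) (nat_lit 240) (.trX (nat_lit 3) (nat_lit 0) (nat_lit 1) (nat_lit 39) (nat_lit 72) (nat_lit 100) (nat_lit 370) (.trX (nat_lit 4) (nat_lit 0) (nat_lit 2) (nat_lit 31) (nat_lit 98) (nat_lit 100) (nat_lit 250) (.leaf ⟨(nat_lit 0), (nat_lit 975), (nat_lit 0), (nat_lit 25), (nat_lit 19562), (nat_lit 7804), (nat_lit 6605), (nat_lit 332), (nat_lit 0), (nat_lit 0), (nat_lit 0), [], Pd.none, Pd.none, (nat_lit 0), (nat_lit 1), (nat_lit 0), (nat_lit 0), (nat_lit 4), (nat_lit 0), [], [⟨(nat_lit 1), (nat_lit 100), (nat_lit 22), (nat_lit 97), (nat_lit 1258519652)⟩], [], [],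
 ⟨⟨[(nat_lit 40), (nat_lit 80), (nat_lit 120)], [(nat_lit 0), (nat_lit 3225), (nat_lit 5518)], [((nat_lit 0), (nat_lit 0), (nat_lit 0)), ((nat_lit 1000), (nat_lit 321), (nat_lit 877)), ((nat_lit 1000), (nat_lit 317), (nat_lit 896))], ((nat_lit 31), (nat_lit 99), (nat_lit 100))⟩, (nat_lit 0), (nat_lit 165), (nat_lit 165), (nat_lit 0), (nat_lit 170462), [(nat_lit 2679127953), (nat_lit 5138854001), (nat_lit 7968000000)], [], [(nat_lit 30838509700), (nat_lit 31686955008), (nat_lit 36741739502), (nat_lit 37333938524), (nat_lit 32095960503), (nat_lit 32804548412), (nat_lit 37052907733), (nat_lit 37730405832)], (nat_lit 1271251), (nat_lit 1271251), (nat_lit 1271251), (nat_lit 1271251), (nat_lit 1100000), (nat_lit 1870626), [(nat_lit 490000), (nat_lit 1100000), (nat_lit 1785001)], [(nat_lit 4), (nat_lit 51), (nat_lit 289), (nat_lit 75), (nat_lit 8)]⟩,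
 ⟨⟨[(nat_lit 60), (nat_lit 120), (nat_lit 180)], [(nat_lit 0), (nat_lit 913), (nat_lit 5370)], [((nat_lit 0), (nat_lit 0), (nat_lit 0)), ((nat_lit 1000), (nat_lit 905), (nat_lit 238)), ((nat_lit 862), (nat_lit 939), (nat_lit 1000))], ((nat_lit 87), (nat_lit 60), (nat_lit 100))⟩, (nat_lit 2264330), (nat_lit 421), (nat_lit 421), (nat_lit 0), (nat_lit 279660), [(nat_lit 3282000000), (nat_lit 7968000000), (nat_lit 14058000000)], [], [(nat_lit 32230069695), (nat_lit 32936323790), (nat_lit 36977984689), (nat_lit 37595746498), (nat_lit 27621612178), (nat_lit 28164340770), (nat_lit 32171846808), (nat_lit 32691925120)], (nat_lit 1271251), (nat_lit 1271251), (nat_lit 1271251), (nat_lit 1271251), (nat_lit 0), (nat_lit 1412501), [(nat_lit 780000), (nat_lit 1762501), (nat_lit 1271251)], [(nat_lit 13), (nat_lit 60), (nat_lit 456), (nat_lit 225), (nat_lit 10)]⟩,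
 ⟨⟨[(nat_lit 140), (nat_lit 180), (nat_lit 200)], [(nat_lit 0), (nat_lit 0), (nat_lit 2835)], [((nat_lit 0), (nat_lit 0), (nat_lit 0)), ((nat_lit 0), (nat_lit 0), (nat_lit 0)), ((nat_lit 363), (nat_lit 1000), (nat_lit 798))], ((nat_lit 0), (nat_lit 0), (nat_lit 0))⟩, (nat_lit 0), (nat_lit 300), (nat_lit 1420), (nat_lit 2050000), (nat_lit 2048713), [(nat_lit 246050000), (nat_lit 351450000), (nat_lit 410000000)], [], [(nat_lit 1810123688), (nat_lit 1738303579), (nat_lit 1742319888), (nat_lit 1668147551), (nat_lit 1448306422), (nat_lit 1590313736), (nat_lit 1758192141), (nat_lit 2007072159)], (nat_lit 780000), (nat_lit 1271251), (nat_lit 1100000), (nat_lit 1870626), (nat_lit 0), (nat_lit 1412501), [(nat_lit 1977501), (nat_lit 1271251), (nat_lit 1271251)], [(nat_lit 32), (nat_lit 67), (nat_lit 434), (nat_lit 175), (nat_lit 9)]⟩⟩)))))))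
noncomputable def c14_124 : Tr Lf :=
 (.spl (nat_lit 1) (nat_lit 300) (.trX (nat_lit 3) (nat_lit 0) (nat_lit 1) (nat_lit 50) (nat_lit 65) (nat_lit 100) (nat_lit 370) (.spl (nat_lit 6) (nat_lit 152) (.spl (nat_lit 0) (nat_lit 385) (.spl (nat_lit 6) (nat_lit 140) (.leaf ⟨(nat_lit 0), (nat_lit 745), (nat_lit 0), (nat_lit 255), (nat_lit 25589), (nat_lit 4084), (nat_lit 15505), (nat_lit 2945), (nat_lit 0), (nat_lit 0), (nat_lit 0), [], Pd.none, Pd.none, (nat_lit 0), (nat_lit 1), (nat_lit 0), (nat_lit 0), (nat_lit 5), (nat_lit 0), [⟨(nat_lit 0), (nat_lit 87), (nat_lit 38), (nat_lit 100), (nat_lit 215232838)⟩], [⟨(nat_lit 0), (nat_lit 100), (nat_lit 42), (nat_lit 81), (nat_lit 3375214)⟩], [⟨(nat_lit 1), (nat_lit 68), (nat_lit 92), (nat_lit 100), (nat_lit 258396296)⟩], [⟨(nat_lit 1), (nat_lit 97), (nat_lit 100), (nat_lit 84), (nat_lit 10111982)⟩],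
 ⟨⟨[(nat_lit 40), (nat_lit 80), (nat_lit 120)], [(nat_lit 0), (nat_lit 2514), (nat_lit 4610)], [((nat_lit 0), (nat_lit 0), (nat_lit 0)), ((nat_lit 1000), (nat_lit 446), (nat_lit 804)), ((nat_lit 1000), (nat_lit 443), (nat_lit 819))], ((nat_lit 44), (nat_lit 100), (nat_lit 96))⟩, (nat_lit 1184936), (nat_lit 180), (nat_lit 180), (nat_lit 0), (nat_lit 33602), [(nat_lit 2032000003), (nat_lit 4713731475), (nat_lit 7968000000)], [], [(nat_lit 26218846326), (nat_lit 26528075679), (nat_lit 32744845381), (nat_lit 32991206451), (nat_lit 28082666864), (nat_lit 28319540418), (nat_lit 32475408617), (nat_lit 32658344515)], (nat_lit 1271251), (nat_lit 1271251), (nat_lit 1271251), (nat_lit 1271251), (nat_lit 230000), (nat_lit 1940626), [(nat_lit 490000), (nat_lit 1100000), (nat_lit 1785001)], [(nat_lit 4), (nat_lit 51), (nat_lit 401), (nat_lit 175), (nat_lit 12)]⟩,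
 ⟨⟨[(nat_lit 60), (nat_lit 120), (nat_lit 180)], [(nat_lit 0), (nat_lit 0), (nat_lit 4796)], [((nat_lit 0), (nat_lit 0), (nat_lit 0)), ((nat_lit 0), (nat_lit 0), (nat_lit 0)), ((nat_lit 802), (nat_lit 1000), (nat_lit 999))], ((nat_lit 96), (nat_lit 69), (nat_lit 100))⟩, (nat_lit 0), (nat_lit 184), (nat_lit 184), (nat_lit 0), (nat_lit 63674), [(nat_lit 3282000000), (nat_lit 7968000000), (nat_lit 14058000000)], [], [(nat_lit 31835424929), (nat_lit 33164300784), (nat_lit 39883350620), (nat_lit 40416276570), (nat_lit 40862180924), (nat_lit 41370173623), (nat_lit 46833349249), (nat_lit 47490166675)], (nat_lit 1271251), (nat_lit 1271251), (nat_lit 1271251), (nat_lit 1271251), (nat_lit 1271251), (nat_lit 1271251), [(nat_lit 780000), (nat_lit 1762501), (nat_lit 1271251)], [(nat_lit 13), (nat_lit 60), (nat_lit 538), (nat_lit 300), (nat_lit 12)]⟩,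
 ⟨⟨[(nat_lit 140), (nat_lit 180), (nat_lit 200)], [(nat_lit 0), (nat_lit 0), (nat_lit 2835)], [((nat_lit 0), (nat_lit 0), (nat_lit 0)), ((nat_lit 0), (nat_lit 0), (nat_lit 0)), ((nat_lit 363), (nat_lit 1000), (nat_lit 798))], ((nat_lit 0), (nat_lit 0), (nat_lit 0))⟩, (nat_lit 70159), (nat_lit 300), (nat_lit 571), (nat_lit 19915500), (nat_lit 346667), [(nat_lit 2509710000), (nat_lit 3584790000), (nat_lit 4182000000)], [], [(nat_lit 16263649873), (nat_lit 15710675528), (nat_lit 14997938037), (nat_lit 17296610582), (nat_lit 16280363259), (nat_lit 15664633622), (nat_lit 13584642524), (nat_lit 12964876064)], (nat_lit 780000), (nat_lit 1271251), (nat_lit 230000), (nat_lit 1940626), (nat_lit 1271251), (nat_lit 1271251), [(nat_lit 1977501), (nat_lit 1271251), (nat_lit 1271251)], [(nat_lit 32), (nat_lit 67), (nat_lit 456), (nat_lit 225), (nat_lit 10)]⟩⟩) (.dle (nat_lit 0))) (.trZ (nat_lit 0) (nat_lit 1) (nat_lit 3) (nat_lit 92) (nat_lit 38) (nat_lit 100)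 (nat_lit 200) (.trX (nat_lit 3) (nat_lit 0) (nat_lit 1) (nat_lit 44) (nat_lit 71) (nat_lit 100) (nat_lit 360) (.trZ (nat_lit 0) (nat_lit 2) (nat_lit 4) (nat_lit 100) (nat_lit 41) (nat_lit 76) (nat_lit 50) (.trX (nat_lit 4) (nat_lit 0) (nat_lit 2) (nat_lit 38) (nat_lit 96) (nat_lit 100) (nat_lit 260) (.leaf ⟨(nat_lit 0), (nat_lit 710), (nat_lit 0), (nat_lit 290), (nat_lit 7399), (nat_lit 4108), (nat_lit 15434), (nat_lit 3104), (nat_lit 0), (nat_lit 0), (nat_lit 0), [], Pd.none, Pd.none, (nat_lit 0), (nat_lit 1), (nat_lit 0), (nat_lit 0), (nat_lit 5), (nat_lit 0), [⟨(nat_lit 0), (nat_lit 88), (nat_lit 32), (nat_lit 100), (nat_lit 226064160)⟩], [⟨(nat_lit 0), (nat_lit 100), (nat_lit 36), (nat_lit 85), (nat_lit 63621864)⟩], [⟨(nat_lit 1), (nat_lit 68), (nat_lit 92), (nat_lit 100), (nat_lit 219528432)⟩], [],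
 ⟨⟨[(nat_lit 40), (nat_lit 80), (nat_lit 120)], [(nat_lit 0), (nat_lit 2833), (nat_lit 5014)], [((nat_lit 0), (nat_lit 0), (nat_lit 0)), ((nat_lit 1000), (nat_lit 389), (nat_lit 842)), ((nat_lit 1000), (nat_lit 387), (nat_lit 852))], ((nat_lit 38), (nat_lit 100), (nat_lit 98))⟩, (nat_lit 1113144), (nat_lit 176), (nat_lit 176), (nat_lit 0), (nat_lit 47683), [(nat_lit 2032000067), (nat_lit 4832000595), (nat_lit 7968000000)], [], [(nat_lit 26384525350), (nat_lit 26704822322), (nat_lit 32093992838), (nat_lit 32346900109), (nat_lit 28021049909), (nat_lit 28259402812), (nat_lit 31971381258), (nat_lit 32163149361)], (nat_lit 1271251), (nat_lit 1271251), (nat_lit 1271251), (nat_lit 1271251), (nat_lit 292188), (nat_lit 1873751), [(nat_lit 490000), (nat_lit 1100000), (nat_lit 1785001)], [(nat_lit 4), (nat_lit 51), (nat_lit 401), (nat_lit 175), (nat_lit 12)]⟩,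
 ⟨⟨[(nat_lit 60), (nat_lit 120), (nat_lit 180)], [(nat_lit 0), (nat_lit 0), (nat_lit 4796)], [((nat_lit 0), (nat_lit 0), (nat_lit 0)), ((nat_lit 0), (nat_lit 0), (nat_lit 0)), ((nat_lit 802), (nat_lit 1000), (nat_lit 999))], ((nat_lit 94), (nat_lit 63), (nat_lit 100))⟩, (nat_lit 0), (nat_lit 189), (nat_lit 189), (nat_lit 0), (nat_lit 85249), [(nat_lit 3282000000), (nat_lit 7968000000), (nat_lit 14058000000)], [], [(nat_lit 31949818724), (nat_lit 33236395395), (nat_lit 39136712463), (nat_lit 39717319801), (nat_lit 40669505761), (nat_lit 41154024889), (nat_lit 45820979398), (nat_lit 46535032521)], (nat_lit 1271251), (nat_lit 1271251), (nat_lit 1271251), (nat_lit 1271251), (nat_lit 1271251), (nat_lit 1271251), [(nat_lit 780000), (nat_lit 1762501), (nat_lit 1271251)], [(nat_lit 13), (nat_lit 60), (nat_lit 538), (nat_lit 300), (nat_lit 12)]⟩,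
 ⟨⟨[(nat_lit 140), (nat_lit 180), (nat_lit 200)], [(nat_lit 0), (nat_lit 0), (nat_lit 2835)], [((nat_lit 0), (nat_lit 0), (nat_lit 0)), ((nat_lit 0), (nat_lit 0), (nat_lit 0)), ((nat_lit 363), (nat_lit 1000), (nat_lit 798))], ((nat_lit 0), (nat_lit 0), (nat_lit 0))⟩, (nat_lit 79788), (nat_lit 300), (nat_lit 676), (nat_lit 22649006), (nat_lit 549701), [(nat_lit 2854180000), (nat_lit 4076820000), (nat_lit 4756000000)], [], [(nat_lit 19701016003), (nat_lit 19075858681), (nat_lit 17275486941), (nat_lit 19110367620), (nat_lit 19345684015), (nat_lit 18649669610), (nat_lit 16692841585), (nat_lit 16000761050)], (nat_lit 780000), (nat_lit 1271251), (nat_lit 292188), (nat_lit 1873751), (nat_lit 1271251), (nat_lit 1271251), [(nat_lit 1977501), (nat_lit 1271251), (nat_lit 1271251)], [(nat_lit 32), (nat_lit 67), (nat_lit 456), (nat_lit 225), (nat_lit 10)]⟩⟩)))))) (.dle (nat_lit 0)))) (.trZ (nat_lit 0) (nat_lit 1) (nat_lit 3) (nat_lit 87) (nat_lit 44) (nat_lit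 100) (nat_lit 210) (.trX (nat_lit 5) (nat_lit 1) (nat_lit 2) (nat_lit 87) (nat_lit 59) (nat_lit 100) (nat_lit 370) (.stt (nat_lit 2) (.leaf ⟨(nat_lit 0), (nat_lit 839), (nat_lit 0), (nat_lit 161), (nat_lit 6013), (nat_lit 4237), (nat_lit 8833), (nat_lit 1857), (nat_lit 0), (nat_lit 0), (nat_lit 0), [], Pd.none, Pd.none, (nat_lit 0), (nat_lit 1), (nat_lit 0), (nat_lit 0), (nat_lit 5), (nat_lit 0), [⟨(nat_lit 0), (nat_lit 84), (nat_lit 33), (nat_lit 100), (nat_lit 37868783)⟩], [⟨(nat_lit 1), (nat_lit 100), (nat_lit 38), (nat_lit 98), (nat_lit 112594828)⟩], [⟨(nat_lit 1), (nat_lit 77), (nat_lit 86), (nat_lit 100), (nat_lit 346221142)⟩], [],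
 ⟨⟨[(nat_lit 40), (nat_lit 100), (nat_lit 140)], [(nat_lit 0), (nat_lit 3610), (nat_lit 5926)], [((nat_lit 0), (nat_lit 0), (nat_lit 0)), ((nat_lit 1000), (nat_lit 436), (nat_lit 895)), ((nat_lit 1000), (nat_lit 436), (nat_lit 905))], ((nat_lit 44), (nat_lit 95), (nat_lit 100))⟩, (nat_lit 1304620), (nat_lit 233), (nat_lit 233), (nat_lit 0), (nat_lit 114951), [(nat_lit 2032000008), (nat_lit 6369617606), (nat_lit 9842000000)], [], [(nat_lit 27777251047), (nat_lit 28441559544), (nat_lit 33859898384), (nat_lit 34308331151), (nat_lit 28675272906), (nat_lit 29107019593), (nat_lit 33038622994), (nat_lit 33455322682)], (nat_lit 1271251), (nat_lit 1271251), (nat_lit 1271251), (nat_lit 1271251), (nat_lit 230000), (nat_lit 1940626), [(nat_lit 490000), (nat_lit 1427501), (nat_lit 1271251)], [(nat_lit 5), (nat_lit 55), (nat_lit 401), (nat_lit 175), (nat_lit 11)]⟩,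
 ⟨⟨[(nat_lit 60), (nat_lit 120), (nat_lit 180)], [(nat_lit 0), (nat_lit 913), (nat_lit 5370)], [((nat_lit 0), (nat_lit 0), (nat_lit 0)), ((nat_lit 1000), (nat_lit 905), (nat_lit 238)), ((nat_lit 862), (nat_lit 939), (nat_lit 1000))], ((nat_lit 87), (nat_lit 60), (nat_lit 100))⟩, (nat_lit 0), (nat_lit 96), (nat_lit 96), (nat_lit 0), (nat_lit 0), [(nat_lit 3282000000), (nat_lit 7968000000), (nat_lit 14058000000)], [], [(nat_lit 22659357766), (nat_lit 24103897318), (nat_lit 32355711577), (nat_lit 33341795889), (nat_lit 31699567684), (nat_lit 32503348208), (nat_lit 39100686706), (nat_lit 39684503694)], (nat_lit 0), (nat_lit 0), (nat_lit 0), (nat_lit 0), (nat_lit 0), (nat_lit 0), [], [(nat_lit 13), (nat_lit 60), (nat_lit 538), (nat_lit 300), (nat_lit 11)]⟩,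
 ⟨⟨[(nat_lit 140), (nat_lit 180), (nat_lit 200)], [(nat_lit 0), (nat_lit 0), (nat_lit 2835)], [((nat_lit 0), (nat_lit 0), (nat_lit 0)), ((nat_lit 0), (nat_lit 0), (nat_lit 0)), ((nat_lit 363), (nat_lit 1000), (nat_lit 798))], ((nat_lit 0), (nat_lit 0), (nat_lit 0))⟩, (nat_lit 44296), (nat_lit 300), (nat_lit 1037), (nat_lit 12574105), (nat_lit 1306440), [(nat_lit 1584562000), (nat_lit 2263338000), (nat_lit 2640400000)], [], [(nat_lit 11165211884), (nat_lit 10737394927), (nat_lit 9467367533), (nat_lit 10917226130), (nat_lit 10644999697), (nat_lit 10204018489), (nat_lit 8834972013), (nat_lit 8414166274)], (nat_lit 780000), (nat_lit 1271251), (nat_lit 230000), (nat_lit 1940626), (nat_lit 1271251), (nat_lit 1271251), [(nat_lit 1977501), (nat_lit 1271251), (nat_lit 1271251)], [(nat_lit 32), (nat_lit 67), (nat_lit 456), (nat_lit 225), (nat_lit 10)]⟩⟩) (.spl (nat_lit 4) (nat_lit 120) (.leaf ⟨(nat_lit 0), (nat_lit 451), (nat_lit 0), (nat_lit 549), (nat_lit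 962), (nat_lit 4029), (nat_lit 14199), (nat_lit 7673), (nat_lit 0), (nat_lit 0), (nat_lit 0), [], Pd.none, Pd.none, (nat_lit 0), (nat_lit 1), (nat_lit 0), (nat_lit 0), (nat_lit 5), (nat_lit 0), [⟨(nat_lit 0), (nat_lit 85), (nat_lit 39), (nat_lit 100), (nat_lit 18147406)⟩], [⟨(nat_lit 0), (nat_lit 100), (nat_lit 48), (nat_lit 71), (nat_lit 1110564169)⟩], [], [],
 ⟨⟨[(nat_lit 40), (nat_lit 100), (nat_lit 140)], [(nat_lit 0), (nat_lit 3610), (nat_lit 5926)], [((nat_lit 0), (nat_lit 0), (nat_lit 0)), ((nat_lit 1000), (nat_lit 436), (nat_lit 895)), ((nat_lit 1000), (nat_lit 436), (nat_lit 905))], ((nat_lit 44), (nat_lit 95), (nat_lit 100))⟩, (nat_lit 1768491), (nat_lit 216), (nat_lit 216), (nat_lit 0), (nat_lit 56377), [(nat_lit 2032000007), (nat_lit 6832837250), (nat_lit 9842000000)], [], [(nat_lit 24936722154), (nat_lit 25583889485), (nat_lit 33154203805), (nat_lit 33772281688), (nat_lit 24168052310), (nat_lit 24702925328), (nat_lit 31230172808), (nat_lit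 31810322712)], (nat_lit 1271251), (nat_lit 1271251), (nat_lit 1271251), (nat_lit 1271251), (nat_lit 230000), (nat_lit 780000), [(nat_lit 490000), (nat_lit 1427501), (nat_lit 1271251)], [(nat_lit 5), (nat_lit 55), (nat_lit 345), (nat_lit 125), (nat_lit 9)]⟩,
 ⟨⟨[(nat_lit 60), (nat_lit 120), (nat_lit 180)], [(nat_lit 0), (nat_lit 913), (nat_lit 5370)], [((nat_lit 0), (nat_lit 0), (nat_lit 0)), ((nat_lit 1000), (nat_lit 905), (nat_lit 238)), ((nat_lit 862), (nat_lit 939), (nat_lit 1000))], ((nat_lit 87), (nat_lit 60), (nat_lit 100))⟩, (nat_lit 0), (nat_lit 221), (nat_lit 221), (nat_lit 0), (nat_lit 179155), [(nat_lit 3282000000), (nat_lit 7968000000), (nat_lit 14058000000)], [], [(nat_lit 33876018322), (nat_lit 35065727755), (nat_lit 41454220199), (nat_lit 41935931400), (nat_lit 40591691079), (nat_lit 41095543421), (nat_lit 45847981297), (nat_lit 46490509368)], (nat_lit 1271251), (nat_lit 1271251), (nat_lit 1271251), (nat_lit 1271251), (nat_lit 1271251),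 (nat_lit 1271251), [(nat_lit 780000), (nat_lit 1762501), (nat_lit 1271251)], [(nat_lit 13), (nat_lit 60), (nat_lit 538), (nat_lit 300), (nat_lit 11)]⟩,
 ⟨⟨[(nat_lit 140), (nat_lit 180), (nat_lit 200)], [(nat_lit 0), (nat_lit 0), (nat_lit 2835)], [((nat_lit 0), (nat_lit 0), (nat_lit 0)), ((nat_lit 0), (nat_lit 0), (nat_lit 0)), ((nat_lit 363), (nat_lit 1000), (nat_lit 798))], ((nat_lit 0), (nat_lit 0), (nat_lit 0))⟩, (nat_lit 151048), (nat_lit 300), (nat_lit 568), (nat_lit 42876900), (nat_lit 341228), [(nat_lit 5403258000), (nat_lit 7717842000), (nat_lit 9003600000)], [], [(nat_lit 33158392717), (nat_lit 31849784162), (nat_lit 29282362325), (nat_lit 27792413631), (nat_lit 34741903507), (nat_lit 33055365093), (nat_lit 30423207885), (nat_lit 28806059181)], (nat_lit 780000), (nat_lit 1271251), (nat_lit 230000), (nat_lit 780000), (nat_lit 1271251), (nat_lit 1271251), [(nat_lit 1977501), (nat_lit 1271251), (nat_lit 1271251)], [(nat_lit 32), (nat_lit 67),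 (nat_lit 401), (nat_lit 175), (nat_lit 9)]⟩⟩) (.leaf ⟨(nat_lit 0), (nat_lit 686), (nat_lit 0), (nat_lit 314), (nat_lit 0), (nat_lit 4073), (nat_lit 14423), (nat_lit 3448), (nat_lit 0), (nat_lit 0), (nat_lit 0), [], Pd.none, Pd.none, (nat_lit 0), (nat_lit 1), (nat_lit 0), (nat_lit 0), (nat_lit 5), (nat_lit 0), [⟨(nat_lit 0), (nat_lit 84), (nat_lit 33), (nat_lit 100), (nat_lit 178498091)⟩], [⟨(nat_lit 1), (nat_lit 100), (nat_lit 38), (nat_lit 98), (nat_lit 4963855)⟩], [⟨(nat_lit 1), (nat_lit 77), (nat_lit 86), (nat_lit 100), (nat_lit 180371367)⟩], [],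
 ⟨⟨[(nat_lit 40), (nat_lit 100), (nat_lit 140)], [(nat_lit 0), (nat_lit 3610), (nat_lit 5926)], [((nat_lit 0), (nat_lit 0), (nat_lit 0)), ((nat_lit 1000), (nat_lit 436), (nat_lit 895)), ((nat_lit 1000), (nat_lit 436), (nat_lit 905))], ((nat_lit 44), (nat_lit 95), (nat_lit 100))⟩, (nat_lit 1421434), (nat_lit 176), (nat_lit 176), (nat_lit 0), (nat_lit 73468), [(nat_lit 2032000002), (nat_lit 7029504757), (nat_lit 9842000000)], [], [(nat_lit 25848613366), (nat_lit 26419679699), (nat_lit 31474500986), (nat_lit 31888745067), (nat_lit 28029761220), (nat_lit 28479354475), (nat_lit 32777673468), (nat_lit 33237565199)], (nat_lit 1271251), (nat_lit 1271251), (nat_lit 1271251), (nat_lit 1271251), (nat_lit 780000), (nat_lit 2008126), [(nat_lit 490000), (nat_lit 1427501), (nat_lit 1271251)], [(nat_lit 5), (nat_lit 55), (nat_lit 401), (nat_lit 175), (nat_lit 10)]⟩,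
 ⟨⟨[(nat_lit 60), (nat_lit 120), (nat_lit 180)], [(nat_lit 0), (nat_lit 913), (nat_lit 5370)], [((nat_lit 0), (nat_lit 0), (nat_lit 0)), ((nat_lit 1000), (nat_lit 905), (nat_lit 238)), ((nat_lit 862), (nat_lit 939), (nat_lit 1000))], ((nat_lit 87), (nat_lit 60), (nat_lit 100))⟩, (nat_lit 75242), (nat_lit 221), (nat_lit 221), (nat_lit 0), (nat_lit 179155), [(nat_lit 3282000000), (nat_lit 7968000000), (nat_lit 14058000000)], [], [(nat_lit 33363080310), (nat_lit 34563352351), (nat_lit 40995722279), (nat_lit 41477942772), (nat_lit 40120491928), (nat_lit 40625179731), (nat_lit 46129642495), (nat_lit 46774621420)], (nat_lit 1271251), (nat_lit 1271251), (nat_lit 1271251), (nat_lit 1271251), (nat_lit 1271251), (nat_lit 1271251), [(nat_lit 780000), (nat_lit 1762501), (nat_lit 1271251)], [(nat_lit 13), (nat_lit 60), (nat_lit 538), (nat_lit 300), (nat_lit 11)]⟩,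
 ⟨⟨[(nat_lit 140), (nat_lit 180), (nat_lit 200)], [(nat_lit 0), (nat_lit 0), (nat_lit 2835)], [((nat_lit 0), (nat_lit 0), (nat_lit 0)), ((nat_lit 0), (nat_lit 0), (nat_lit 0)), ((nat_lit 363), (nat_lit 1000), (nat_lit 798))], ((nat_lit 0), (nat_lit 0), (nat_lit 0))⟩, (nat_lit 86392), (nat_lit 300), (nat_lit 766), (nat_lit 24523400), (nat_lit 871415), [(nat_lit 3090388000), (nat_lit 4414212000), (nat_lit 5149600000)], [], [(nat_lit 19989907002), (nat_lit 19278400579), (nat_lit 18526237910), (nat_lit 17795926733), (nat_lit 19282856367), (nat_lit 18529284849), (nat_lit 17750526538), (nat_lit 16980956269)], (nat_lit 780000), (nat_lit 1271251), (nat_lit 780000), (nat_lit 2008126), (nat_lit 1271251), (nat_lit 1271251), [(nat_lit 1977501), (nat_lit 1271251), (nat_lit 1271251)], [(nat_lit 32), (nat_lit 67), (nat_lit 456), (nat_lit 225), (nat_lit 10)]⟩⟩))))))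
noncomputable def c14_125 : Tr Lf :=
 (.trZ (nat_lit 0) (nat_lit 1) (nat_lit 3) (nat_lit 92) (nat_lit 31) (nat_lit 100) (nat_lit 210) (.trX (nat_lit 3) (nat_lit 0) (nat_lit 1) (nat_lit 39) (nat_lit 72) (nat_lit 100) (nat_lit 370) (.trZ (nat_lit 0) (nat_lit 2) (nat_lit 4) (nat_lit 100) (nat_lit 34) (nat_lit 81) (nat_lit 60) (.trX (nat_lit 4) (nat_lit 0) (nat_lit 2) (nat_lit 31) (nat_lit 98) (nat_lit 100) (nat_lit 250) (.spl (nat_lit 1) (nat_lit 300) (.trX (nat_lit 3) (nat_lit 0) (nat_lit 1) (nat_lit 36) (nat_lit 77) (nat_lit 100) (nat_lit 350) (.stt (nat_lit 2) (.leaf ⟨(nat_lit 0), (nat_lit 928), (nat_lit 0), (nat_lit 72), (nat_lit 23212), (nat_lit 4286), (nat_lit 11000), (nat_lit 837), (nat_lit 0), (nat_lit 0), (nat_lit 0), [], Pd.none, Pd.none, (nat_lit 0), (nat_lit 1), (nat_lit 0), (nat_lit 0), (nat_lit 5), (nat_lit 0), [⟨(nat_lit 0), (nat_lit 92), (nat_lit 23), (nat_lit 100), (nat_lit 101466982)⟩], [⟨(nat_lit 1), (nat_lit 100), (nat_lit 22), (nat_lit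 97), (nat_lit 607088901)⟩], [⟨(nat_lit 1), (nat_lit 68), (nat_lit 92), (nat_lit 100), (nat_lit 451725018)⟩], [],
 ⟨⟨[(nat_lit 40), (nat_lit 80), (nat_lit 120)], [(nat_lit 0), (nat_lit 3225), (nat_lit 5518)], [((nat_lit 0), (nat_lit 0), (nat_lit 0)), ((nat_lit 1000), (nat_lit 321), (nat_lit 877)), ((nat_lit 1000), (nat_lit 317), (nat_lit 896))], ((nat_lit 31), (nat_lit 99), (nat_lit 100))⟩, (nat_lit 972063), (nat_lit 186), (nat_lit 186), (nat_lit 0), (nat_lit 110085), [(nat_lit 2032000329), (nat_lit 4911771023), (nat_lit 7968000000)], [], [(nat_lit 26878312844), (nat_lit 27597245369), (nat_lit 31869669109), (nat_lit 32394718549), (nat_lit 28016703742), (nat_lit 28503710168), (nat_lit 31756421329), (nat_lit 32163488896)], (nat_lit 1271251), (nat_lit 1271251), (nat_lit 1271251), (nat_lit 1271251), (nat_lit 356250), (nat_lit 1805001), [(nat_lit 490000), (nat_lit 1100000), (nat_lit 1785001)], [(nat_lit 4), (nat_lit 51), (nat_lit 373), (nat_lit 150), (nat_lit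 11)]⟩,
 ⟨⟨[(nat_lit 60), (nat_lit 140), (nat_lit 200)], [(nat_lit 0), (nat_lit 0), (nat_lit 7307)], [((nat_lit 0), (nat_lit 0), (nat_lit 0)), ((nat_lit 0), (nat_lit 0), (nat_lit 0)), ((nat_lit 527), (nat_lit 925), (nat_lit 1000))], ((nat_lit 0), (nat_lit 0), (nat_lit 0))⟩, (nat_lit 0), (nat_lit 105), (nat_lit 105), (nat_lit 0), (nat_lit 0), [(nat_lit 3282000000), (nat_lit 9842000000), (nat_lit 16400000000)], [], [(nat_lit 23388273500), (nat_lit 24842286375), (nat_lit 31311816375), (nat_lit 32178969063), (nat_lit 33718858438), (nat_lit 34430951782), (nat_lit 39739838500), (nat_lit 40432973688)], (nat_lit 0), (nat_lit 0), (nat_lit 0), (nat_lit 0), (nat_lit 0), (nat_lit 0), [], [(nat_lit 14), (nat_lit 64), (nat_lit 538), (nat_lit 300), (nat_lit 11)]⟩,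
 ⟨⟨[(nat_lit 140), (nat_lit 180), (nat_lit 200)], [(nat_lit 0), (nat_lit 0), (nat_lit 2835)], [((nat_lit 0), (nat_lit 0), (nat_lit 0)), ((nat_lit 0), (nat_lit 0), (nat_lit 0)), ((nat_lit 363), (nat_lit 1000), (nat_lit 798))], ((nat_lit 0), (nat_lit 0), (nat_lit 0))⟩, (nat_lit 19810), (nat_lit 300), (nat_lit 1029), (nat_lit 5623200), (nat_lit 1324248), [(nat_lit 708624000), (nat_lit 1012176000), (nat_lit 1180800000)], [], [(nat_lit 4848961599), (nat_lit 4657225376), (nat_lit 4210013160), (nat_lit 4772610463), (nat_lit 4612190209), (nat_lit 4420524627), (nat_lit 3957668536), (nat_lit 3767678504)], (nat_lit 780000), (nat_lit 1271251), (nat_lit 356250), (nat_lit 1805001), (nat_lit 1271251), (nat_lit 1271251), [(nat_lit 1977501), (nat_lit 1271251), (nat_lit 1271251)], [(nat_lit 32), (nat_lit 67), (nat_lit 456), (nat_lit 225), (nat_lit 10)]⟩⟩) (.spl (nat_lit 0) (nat_lit 395) (.spl (nat_lit 6) (nat_lit 164) (.leaf ⟨(nat_lit 0), (nat_lit 730), (nat_lit 0),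 (nat_lit 270), (nat_lit 10774), (nat_lit 4132), (nat_lit 9242), (nat_lit 2947), (nat_lit 0), (nat_lit 0), (nat_lit 0), [], Pd.none, Pd.none, (nat_lit 0), (nat_lit 1), (nat_lit 0), (nat_lit 0), (nat_lit 5), (nat_lit 0), [⟨(nat_lit 0), (nat_lit 91), (nat_lit 28), (nat_lit 100), (nat_lit 451872771)⟩, ⟨(nat_lit 0), (nat_lit 91), (nat_lit 23), (nat_lit 100), (nat_lit 9585667)⟩], [⟨(nat_lit 0), (nat_lit 100), (nat_lit 28), (nat_lit 89), (nat_lit 77228941)⟩], [⟨(nat_lit 1), (nat_lit 68), (nat_lit 92), (nat_lit 100), (nat_lit 156615494)⟩], [],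
 ⟨⟨[(nat_lit 40), (nat_lit 80), (nat_lit 120)], [(nat_lit 0), (nat_lit 3225), (nat_lit 5518)], [((nat_lit 0), (nat_lit 0), (nat_lit 0)), ((nat_lit 1000), (nat_lit 321), (nat_lit 877)), ((nat_lit 1000), (nat_lit 317), (nat_lit 896))], ((nat_lit 32), (nat_lit 100), (nat_lit 99))⟩, (nat_lit 1031880), (nat_lit 169), (nat_lit 169), (nat_lit 0), (nat_lit 51611), [(nat_lit 2032000012), (nat_lit 4974345703), (nat_lit 7968000000)], [], [(nat_lit 26554064648), (nat_lit 26866802530), (nat_lit 31459078875), (nat_lit 31717447853), (nat_lit 27977032509), (nat_lit 28216698187), (nat_lit 31476458372), (nat_lit 31681972593)], (nat_lit 1271251), (nat_lit 1271251), (nat_lit 1271251), (nat_lit 1271251), (nat_lit 356250), (nat_lit 1805001), [(nat_lit 490000), (nat_lit 1100000), (nat_lit 1785001)], [(nat_lit 4), (nat_lit 51), (nat_lit 373), (nat_lit 150), (nat_lit 11)]⟩,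
 ⟨⟨[(nat_lit 60), (nat_lit 140), (nat_lit 200)], [(nat_lit 0), (nat_lit 0), (nat_lit 7307)], [((nat_lit 0), (nat_lit 0), (nat_lit 0)), ((nat_lit 0), (nat_lit 0), (nat_lit 0)), ((nat_lit 527), (nat_lit 925), (nat_lit 1000))], ((nat_lit 0), (nat_lit 0), (nat_lit 0))⟩, (nat_lit 1624865), (nat_lit 241), (nat_lit 241), (nat_lit 0), (nat_lit 146742), [(nat_lit 3282000000), (nat_lit 9842000000), (nat_lit 16400000000)], [], [(nat_lit 29334768756), (nat_lit 30111520898), (nat_lit 33448965273), (nat_lit 33883976246), (nat_lit 34811859860), (nat_lit 35153200656), (nat_lit 37993063380), (nat_lit 38356915559)], (nat_lit 1271251), (nat_lit 1271251), (nat_lit 1271251), (nat_lit 1271251), (nat_lit 1271251), (nat_lit 1271251), [(nat_lit 780000), (nat_lit 2090001), (nat_lit 1271251)], [(nat_lit 14), (nat_lit 64), (nat_lit 538), (nat_lit 300), (nat_lit 11)]⟩,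
 ⟨⟨[(nat_lit 140), (nat_lit 180), (nat_lit 200)], [(nat_lit 0), (nat_lit 0), (nat_lit 2835)], [((nat_lit 0), (nat_lit 0), (nat_lit 0)), ((nat_lit 0), (nat_lit 0), (nat_lit 0)), ((nat_lit 363), (nat_lit 1000), (nat_lit 798))], ((nat_lit 0), (nat_lit 0), (nat_lit 0))⟩, (nat_lit 74286), (nat_lit 300), (nat_lit 704), (nat_lit 21087000), (nat_lit 635677), [(nat_lit 2657340000), (nat_lit 3795660000), (nat_lit 4428000000)], [], [(nat_lit 18051545875), (nat_lit 17450609672), (nat_lit 15975140464), (nat_lit 17644720319), (nat_lit 17669195544), (nat_lit 17008081523), (nat_lit 15406516665), (nat_lit 14750504749)], (nat_lit 780000), (nat_lit 1271251), (nat_lit 356250), (nat_lit 1805001), (nat_lit 1271251), (nat_lit 1271251), [(nat_lit 1977501), (nat_lit 1271251), (nat_lit 1271251)], [(nat_lit 32), (nat_lit 67), (nat_lit 456), (nat_lit 225), (nat_lit 10)]⟩⟩) (.dle (nat_lit 0))) (.trZ (nat_lit 0) (nat_lit 1) (nat_lit 3) (nat_lit 93) (nat_lit 23) (nat_lit 100)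 (nat_lit 230) (.trX (nat_lit 3) (nat_lit 0) (nat_lit 1) (nat_lit 26) (nat_lit 85) (nat_lit 100) (nat_lit 340) (.trZ (nat_lit 0) (nat_lit 2) (nat_lit 4) (nat_lit 100) (nat_lit 24) (nat_lit 88) (nat_lit 80) (.trX (nat_lit 4) (nat_lit 0) (nat_lit 2) (nat_lit 22) (nat_lit 100) (nat_lit 100) (nat_lit 230) (.leaf ⟨(nat_lit 0), (nat_lit 715), (nat_lit 0), (nat_lit 285), (nat_lit 0), (nat_lit 4021), (nat_lit 9383), (nat_lit 3342), (nat_lit 0), (nat_lit 0), (nat_lit 0), [], Pd.none, Pd.none, (nat_lit 0), (nat_lit 1), (nat_lit 0), (nat_lit 0), (nat_lit 5), (nat_lit 0), [⟨(nat_lit 0), (nat_lit 94), (nat_lit 17), (nat_lit 100), (nat_lit 686456772)⟩], [⟨(nat_lit 0), (nat_lit 100), (nat_lit 16), (nat_lit 95), (nat_lit 124399221)⟩], [⟨(nat_lit 1), (nat_lit 68), (nat_lit 92), (nat_lit 100), (nat_lit 99456140)⟩], [],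
 ⟨⟨[(nat_lit 40), (nat_lit 80), (nat_lit 120)], [(nat_lit 0), (nat_lit 3758), (nat_lit 6151)], [((nat_lit 0), (nat_lit 0), (nat_lit 0)), ((nat_lit 1000), (nat_lit 228), (nat_lit 923)), ((nat_lit 1000), (nat_lit 226), (nat_lit 935))], ((nat_lit 22), (nat_lit 100), (nat_lit 100))⟩, (nat_lit 993063), (nat_lit 160), (nat_lit 160), (nat_lit 0), (nat_lit 71757), [(nat_lit 2032000006), (nat_lit 5682581952), (nat_lit 7968000000)], [], [(nat_lit 26277340539), (nat_lit 26589148178), (nat_lit 30164784973), (nat_lit 30423736762), (nat_lit 27556028240), (nat_lit 27807839515), (nat_lit 30670594945), (nat_lit 30947042767)], (nat_lit 1271251), (nat_lit 1271251), (nat_lit 1271251), (nat_lit 1271251), (nat_lit 490000), (nat_lit 1661876), [(nat_lit 490000), (nat_lit 1100000), (nat_lit 1785001)], [(nat_lit 4), (nat_lit 51), (nat_lit 373), (nat_lit 150), (nat_lit 11)]⟩,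
 ⟨⟨[(nat_lit 60), (nat_lit 140), (nat_lit 200)], [(nat_lit 0), (nat_lit 0), (nat_lit 7307)], [((nat_lit 0), (nat_lit 0), (nat_lit 0)), ((nat_lit 0), (nat_lit 0), (nat_lit 0)), ((nat_lit 527), (nat_lit 925), (nat_lit 1000))], ((nat_lit 0), (nat_lit 0), (nat_lit 0))⟩, (nat_lit 1559884), (nat_lit 260), (nat_lit 260), (nat_lit 0), (nat_lit 207732), [(nat_lit 3282000000), (nat_lit 9842000000), (nat_lit 16400000000)], [], [(nat_lit 29900179310), (nat_lit 30638838904), (nat_lit 33409149184), (nat_lit 33871266308), (nat_lit 35078124855), (nat_lit 35391864866), (nat_lit 37502647582), (nat_lit 37889659490)], (nat_lit 1271251), (nat_lit 1271251), (nat_lit 1271251), (nat_lit 1271251), (nat_lit 1271251), (nat_lit 1271251), [(nat_lit 780000), (nat_lit 2090001), (nat_lit 1271251)], [(nat_lit 14), (nat_lit 64), (nat_lit 538), (nat_lit 300), (nat_lit 10)]⟩,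
 ⟨⟨[(nat_lit 140), (nat_lit 180), (nat_lit 200)], [(nat_lit 0), (nat_lit 0), (nat_lit 2835)], [((nat_lit 0), (nat_lit 0), (nat_lit 0)), ((nat_lit 0), (nat_lit 0), (nat_lit 0)), ((nat_lit 363), (nat_lit 1000), (nat_lit 798))], ((nat_lit 0), (nat_lit 0), (nat_lit 0))⟩, (nat_lit 78413), (nat_lit 300), (nat_lit 821), (nat_lit 22258500), (nat_lit 906537), [(nat_lit 2804970000), (nat_lit 4006530000), (nat_lit 4674000000)], [], [(nat_lit 18536230476), (nat_lit 17800384665), (nat_lit 16660624208), (nat_lit 18367234658), (nat_lit 17660472519), (nat_lit 16902270996), (nat_lit 15725259800), (nat_lit 14968860361)], (nat_lit 780000), (nat_lit 1271251), (nat_lit 490000), (nat_lit 1661876), (nat_lit 1271251), (nat_lit 1271251), [(nat_lit 1977501), (nat_lit 1271251), (nat_lit 1271251)], [(nat_lit 32), (nat_lit 67), (nat_lit 428), (nat_lit 200), (nat_lit 9)]⟩⟩)))))))) (.trZ (nat_lit 0) (nat_lit 1) (nat_lit 3) (nat_lit 88) (nat_lit 32) (nat_lit 100) (nat_lit 240)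 (.trX (nat_lit 5) (nat_lit 1) (nat_lit 2) (nat_lit 87) (nat_lit 59) (nat_lit 100) (nat_lit 370) (.stt (nat_lit 2) (.leaf ⟨(nat_lit 0), (nat_lit 966), (nat_lit 0), (nat_lit 34), (nat_lit 25621), (nat_lit 4275), (nat_lit 8514), (nat_lit 393), (nat_lit 0), (nat_lit 0), (nat_lit 0), [], Pd.none, Pd.none, (nat_lit 0), (nat_lit 1), (nat_lit 0), (nat_lit 0), (nat_lit 5), (nat_lit 0), [], [⟨(nat_lit 1), (nat_lit 100), (nat_lit 22), (nat_lit 97), (nat_lit 639068037)⟩], [⟨(nat_lit 1), (nat_lit 77), (nat_lit 86), (nat_lit 100), (nat_lit 461616927)⟩], [],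
 ⟨⟨[(nat_lit 40), (nat_lit 80), (nat_lit 120)], [(nat_lit 0), (nat_lit 3225), (nat_lit 5518)], [((nat_lit 0), (nat_lit 0), (nat_lit 0)), ((nat_lit 1000), (nat_lit 321), (nat_lit 877)), ((nat_lit 1000), (nat_lit 317), (nat_lit 896))], ((nat_lit 31), (nat_lit 99), (nat_lit 100))⟩, (nat_lit 926525), (nat_lit 215), (nat_lit 215), (nat_lit 0), (nat_lit 170462), [(nat_lit 2032000460), (nat_lit 4892545920), (nat_lit 7968000000)], [], [(nat_lit 27786139038), (nat_lit 28464923750), (nat_lit 33051237548), (nat_lit 33547475725), (nat_lit 28745056772), (nat_lit 29207460745), (nat_lit 32742365550), (nat_lit 33128481511)], (nat_lit 1271251), (nat_lit 1271251), (nat_lit 1271251), (nat_lit 1271251), (nat_lit 356250), (nat_lit 1805001), [(nat_lit 490000), (nat_lit 1100000), (nat_lit 1785001)], [(nat_lit 4), (nat_lit 51), (nat_lit 289), (nat_lit 75), (nat_lit 8)]⟩,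
 ⟨⟨[(nat_lit 60), (nat_lit 120), (nat_lit 180)], [(nat_lit 0), (nat_lit 913), (nat_lit 5370)], [((nat_lit 0), (nat_lit 0), (nat_lit 0)), ((nat_lit 1000), (nat_lit 905), (nat_lit 238)), ((nat_lit 862), (nat_lit 939), (nat_lit 1000))], ((nat_lit 87), (nat_lit 60), (nat_lit 100))⟩, (nat_lit 0), (nat_lit 94), (nat_lit 94), (nat_lit 0), (nat_lit 0), [(nat_lit 3282000000), (nat_lit 7968000000), (nat_lit 14058000000)], [], [(nat_lit 23864024085), (nat_lit 25175344528), (nat_lit 31770996219), (nat_lit 32584269400), (nat_lit 32087398966), (nat_lit 32818750253), (nat_lit 38075742727), (nat_lit 38691577390)], (nat_lit 0), (nat_lit 0), (nat_lit 0), (nat_lit 0), (nat_lit 0), (nat_lit 0), [], [(nat_lit 13), (nat_lit 60), (nat_lit 538), (nat_lit 300), (nat_lit 11)]⟩,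
 ⟨⟨[(nat_lit 140), (nat_lit 180), (nat_lit 200)], [(nat_lit 0), (nat_lit 0), (nat_lit 2835)], [((nat_lit 0), (nat_lit 0), (nat_lit 0)), ((nat_lit 0), (nat_lit 0), (nat_lit 0)), ((nat_lit 363), (nat_lit 1000), (nat_lit 798))], ((nat_lit 0), (nat_lit 0), (nat_lit 0))⟩, (nat_lit 9354), (nat_lit 300), (nat_lit 1351), (nat_lit 2655408), (nat_lit 2048713), [(nat_lit 334628000), (nat_lit 477972000), (nat_lit 557600000)], [], [(nat_lit 2301109117), (nat_lit 2211215001), (nat_lit 2001507585), (nat_lit 2250769068), (nat_lit 2187943992), (nat_lit 2095419688), (nat_lit 1877804199), (nat_lit 1786682602)], (nat_lit 780000), (nat_lit 1271251), (nat_lit 356250), (nat_lit 1805001), (nat_lit 1271251), (nat_lit 1271251), [(nat_lit 1977501), (nat_lit 1271251), (nat_lit 1271251)], [(nat_lit 32), (nat_lit 67), (nat_lit 438), (nat_lit 200), (nat_lit 9)]⟩⟩) (.spl (nat_lit 0) (nat_lit 395) (.leaf ⟨(nat_lit 0), (nat_lit 776), (nat_lit 0), (nat_lit 224), (nat_lit 0), (nat_lit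 4314), (nat_lit 11949), (nat_lit 2592), (nat_lit 0), (nat_lit 0), (nat_lit 0), [], Pd.none, Pd.none, (nat_lit 0), (nat_lit 1), (nat_lit 0), (nat_lit 0), (nat_lit 5), (nat_lit 0), [⟨(nat_lit 0), (nat_lit 88), (nat_lit 28), (nat_lit 100), (nat_lit 17061148)⟩], [], [⟨(nat_lit 1), (nat_lit 77), (nat_lit 86), (nat_lit 100), (nat_lit 189499306)⟩], [],
 ⟨⟨[(nat_lit 40), (nat_lit 80), (nat_lit 120)], [(nat_lit 0), (nat_lit 3225), (nat_lit 5518)], [((nat_lit 0), (nat_lit 0), (nat_lit 0)), ((nat_lit 1000), (nat_lit 321), (nat_lit 877)), ((nat_lit 1000), (nat_lit 317), (nat_lit 896))], ((nat_lit 31), (nat_lit 99), (nat_lit 100))⟩, (nat_lit 947052), (nat_lit 184), (nat_lit 184), (nat_lit 0), (nat_lit 91374), [(nat_lit 2032000002), (nat_lit 4932736593), (nat_lit 7968000000)], [], [(nat_lit 27680879682), (nat_lit 28021860089), (nat_lit 32983793385), (nat_lit 33310402444), (nat_lit 28556692305), (nat_lit 28816705993), (nat_lit 32618528834), (nat_lit 32839936699)],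 (nat_lit 1271251), (nat_lit 1271251), (nat_lit 1271251), (nat_lit 1271251), (nat_lit 356250), (nat_lit 1805001), [(nat_lit 490000), (nat_lit 1100000), (nat_lit 1785001)], [(nat_lit 4), (nat_lit 51), (nat_lit 289), (nat_lit 75), (nat_lit 8)]⟩,
 ⟨⟨[(nat_lit 60), (nat_lit 120), (nat_lit 180)], [(nat_lit 0), (nat_lit 913), (nat_lit 5370)], [((nat_lit 0), (nat_lit 0), (nat_lit 0)), ((nat_lit 1000), (nat_lit 905), (nat_lit 238)), ((nat_lit 862), (nat_lit 939), (nat_lit 1000))], ((nat_lit 87), (nat_lit 60), (nat_lit 100))⟩, (nat_lit 584131), (nat_lit 236), (nat_lit 236), (nat_lit 0), (nat_lit 229120), [(nat_lit 3282000000), (nat_lit 7968000000), (nat_lit 14058000000)], [], [(nat_lit 32075770220), (nat_lit 33067032396), (nat_lit 38250920957), (nat_lit 38765680414), (nat_lit 37764842985), (nat_lit 38202406373), (nat_lit 42255706528), (nat_lit 42921346436)], (nat_lit 1271251), (nat_lit 1271251), (nat_lit 1271251), (nat_lit 1271251), (nat_lit 1271251), (nat_lit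 1271251), [(nat_lit 780000), (nat_lit 1762501), (nat_lit 1271251)], [(nat_lit 13), (nat_lit 60), (nat_lit 538), (nat_lit 300), (nat_lit 11)]⟩,
 ⟨⟨[(nat_lit 140), (nat_lit 180), (nat_lit 200)], [(nat_lit 0), (nat_lit 0), (nat_lit 2835)], [((nat_lit 0), (nat_lit 0), (nat_lit 0)), ((nat_lit 0), (nat_lit 0), (nat_lit 0)), ((nat_lit 363), (nat_lit 1000), (nat_lit 798))], ((nat_lit 0), (nat_lit 0), (nat_lit 0))⟩, (nat_lit 61630), (nat_lit 300), (nat_lit 930), (nat_lit 17494400), (nat_lit 1120652), [(nat_lit 2204608000), (nat_lit 3148992000), (nat_lit 3673600000)], [], [(nat_lit 15067861792), (nat_lit 14493798864), (nat_lit 13121645232), (nat_lit 14832315302), (nat_lit 14404082632), (nat_lit 13793668182), (nat_lit 12358036384), (nat_lit 11756882597)], (nat_lit 780000), (nat_lit 1271251), (nat_lit 356250), (nat_lit 1805001), (nat_lit 1271251), (nat_lit 1271251), [(nat_lit 1977501), (nat_lit 1271251), (nat_lit 1271251)], [(nat_lit 32), (nat_lit 67), (nat_lit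 428), (nat_lit 200), (nat_lit 9)]⟩⟩) (.trZ (nat_lit 0) (nat_lit 1) (nat_lit 3) (nat_lit 91) (nat_lit 23) (nat_lit 100) (nat_lit 250) (.trX (nat_lit 3) (nat_lit 0) (nat_lit 1) (nat_lit 28) (nat_lit 81) (nat_lit 100) (nat_lit 360) (.trZ (nat_lit 0) (nat_lit 2) (nat_lit 4) (nat_lit 100) (nat_lit 24) (nat_lit 88) (nat_lit 80) (.trX (nat_lit 4) (nat_lit 0) (nat_lit 2) (nat_lit 22) (nat_lit 100) (nat_lit 100) (nat_lit 230) (.leaf ⟨(nat_lit 0), (nat_lit 793), (nat_lit 0), (nat_lit 207), (nat_lit 0), (nat_lit 4299), (nat_lit 9977), (nat_lit 2373), (nat_lit 0), (nat_lit 0), (nat_lit 0), [], Pd.none, Pd.none, (nat_lit 0), (nat_lit 1), (nat_lit 0), (nat_lit 0), (nat_lit 5), (nat_lit 0), [⟨(nat_lit 0), (nat_lit 92), (nat_lit 17), (nat_lit 100), (nat_lit 143313391)⟩], [⟨(nat_lit 1), (nat_lit 100), (nat_lit 16), (nat_lit 97), (nat_lit 165866469)⟩], [⟨(nat_lit 1), (nat_lit 77), (nat_lit 86), (nat_lit 100), (nat_lit 218586053)⟩], [],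
 ⟨⟨[(nat_lit 40), (nat_lit 80), (nat_lit 120)], [(nat_lit 0), (nat_lit 3758), (nat_lit 6151)], [((nat_lit 0), (nat_lit 0), (nat_lit 0)), ((nat_lit 1000), (nat_lit 228), (nat_lit 923)), ((nat_lit 1000), (nat_lit 226), (nat_lit 935))], ((nat_lit 22), (nat_lit 100), (nat_lit 100))⟩, (nat_lit 880941), (nat_lit 175), (nat_lit 175), (nat_lit 0), (nat_lit 108871), [(nat_lit 2032000065), (nat_lit 5003793141), (nat_lit 7968000000)], [], [(nat_lit 27527392847), (nat_lit 27856133397), (nat_lit 31848299377), (nat_lit 32109674098), (nat_lit 28477148060), (nat_lit 28741508521), (nat_lit 31971319894), (nat_lit 32240850984)], (nat_lit 1271251), (nat_lit 1271251), (nat_lit 1271251), (nat_lit 1271251), (nat_lit 490000), (nat_lit 1661876), [(nat_lit 490000), (nat_lit 1100000), (nat_lit 1785001)], [(nat_lit 4), (nat_lit 51), (nat_lit 272), (nat_lit 60), (nat_lit 8)]⟩,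
 ⟨⟨[(nat_lit 60), (nat_lit 120), (nat_lit 180)], [(nat_lit 0), (nat_lit 913), (nat_lit 5370)], [((nat_lit 0), (nat_lit 0), (nat_lit 0)), ((nat_lit 1000), (nat_lit 905), (nat_lit 238)), ((nat_lit 862), (nat_lit 939), (nat_lit 1000))], ((nat_lit 87), (nat_lit 60), (nat_lit 100))⟩, (nat_lit 1138122), (nat_lit 251), (nat_lit 251), (nat_lit 0), (nat_lit 279541), [(nat_lit 3282000000), (nat_lit 7968000000), (nat_lit 14058000000)], [], [(nat_lit 30494433699), (nat_lit 31375524362), (nat_lit 35260640456), (nat_lit 35797898749), (nat_lit 35697311203), (nat_lit 36115585345), (nat_lit 39172889469), (nat_lit 39850650025)], (nat_lit 1271251), (nat_lit 1271251), (nat_lit 1271251), (nat_lit 1271251), (nat_lit 1271251), (nat_lit 1271251), [(nat_lit 780000), (nat_lit 1762501), (nat_lit 1271251)], [(nat_lit 13), (nat_lit 60), (nat_lit 538), (nat_lit 300), (nat_lit 11)]⟩,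
 ⟨⟨[(nat_lit 140), (nat_lit 180), (nat_lit 200)], [(nat_lit 0), (nat_lit 0), (nat_lit 2835)], [((nat_lit 0), (nat_lit 0), (nat_lit 0)), ((nat_lit 0), (nat_lit 0), (nat_lit 0)), ((nat_lit 363), (nat_lit 1000), (nat_lit 798))], ((nat_lit 0), (nat_lit 0), (nat_lit 0))⟩, (nat_lit 56952), (nat_lit 300), (nat_lit 1034), (nat_lit 16166706), (nat_lit 1373175), [(nat_lit 2037294000), (nat_lit 2910006000), (nat_lit 3394800000)], [], [(nat_lit 13790818236), (nat_lit 13253383631), (nat_lit 12428968520), (nat_lit 13275319451), (nat_lit 13050016743), (nat_lit 12497733221), (nat_lit 11648641975), (nat_lit 11101093405)], (nat_lit 780000), (nat_lit 1271251), (nat_lit 490000), (nat_lit 1661876), (nat_lit 1271251), (nat_lit 1271251), [(nat_lit 1977501), (nat_lit 1271251), (nat_lit 1271251)], [(nat_lit 32), (nat_lit 67), (nat_lit 428), (nat_lit 200), (nat_lit 9)]⟩⟩))))))))))))))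
noncomputable def c14_126 : Tr Lf :=
 (.trZ (nat_lit 0) (nat_lit 2) (nat_lit 4) (nat_lit 100) (nat_lit 44) (nat_lit 86) (nat_lit 90) (.spl (nat_lit 6) (nat_lit 136) (.spl (nat_lit 1) (nat_lit 280) (.trX (nat_lit 3) (nat_lit 0) (nat_lit 1) (nat_lit 48) (nat_lit 71) (nat_lit 100) (nat_lit 360) (.dle (nat_lit 0))) (.trZ (nat_lit 0) (nat_lit 1) (nat_lit 3) (nat_lit 92) (nat_lit 44) (nat_lit 100) (nat_lit 190) (.spl (nat_lit 0) (nat_lit 390) (.dle (nat_lit 0)) (.trZ (nat_lit 0) (nat_lit 1) (nat_lit 3) (nat_lit 92) (nat_lit 31) (nat_lit 100) (nat_lit 210) (.trX (nat_lit 3) (nat_lit 0) (nat_lit 1) (nat_lit 39) (nat_lit 72) (nat_lit 100) (nat_lit 370) (.trZ (nat_lit 0) (nat_lit 2) (nat_lit 4) (nat_lit 100) (nat_lit 31) (nat_lit 92) (nat_lit 110) (.trX (nat_lit 4) (nat_lit 0) (nat_lit 2) (nat_lit 31) (nat_lit 92) (nat_lit 100) (nat_lit 290) (.leaf ⟨(nat_lit 0), (nat_lit 683), (nat_lit 0), (nat_lit 317), (nat_lit 53848), (nat_lit 4084), (nat_lit 7621), (nat_lit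 2209), (nat_lit 0), (nat_lit 0), (nat_lit 0), [], Pd.none, Pd.none, (nat_lit 0), (nat_lit 1), (nat_lit 0), (nat_lit 0), (nat_lit 4), (nat_lit 0), [⟨(nat_lit 0), (nat_lit 91), (nat_lit 23), (nat_lit 100), (nat_lit 660029544)⟩], [], [], [],
 ⟨⟨[(nat_lit 40), (nat_lit 80), (nat_lit 100)], [(nat_lit 0), (nat_lit 3225), (nat_lit 4371)], [((nat_lit 0), (nat_lit 0), (nat_lit 0)), ((nat_lit 1000), (nat_lit 321), (nat_lit 877)), ((nat_lit 1000), (nat_lit 317), (nat_lit 896))], ((nat_lit 31), (nat_lit 100), (nat_lit 95))⟩, (nat_lit 743490), (nat_lit 131), (nat_lit 131), (nat_lit 0), (nat_lit 34046), [(nat_lit 2032004527), (nat_lit 5138095220), (nat_lit 6250000000)], [], [(nat_lit 25639210295), (nat_lit 26314888252), (nat_lit 31634301660), (nat_lit 32133089042), (nat_lit 28921889856), (nat_lit 29428492952), (nat_lit 33319825842), (nat_lit 33771493339)], (nat_lit 1271251), (nat_lit 1271251), (nat_lit 1271251), (nat_lit 1271251), (nat_lit 704688), (nat_lit 2161563),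 [(nat_lit 490000), (nat_lit 1100000), (nat_lit 1442501)], [(nat_lit 3), (nat_lit 50), (nat_lit 289), (nat_lit 75), (nat_lit 10)]⟩,
 ⟨⟨[(nat_lit 60), (nat_lit 120), (nat_lit 180)], [(nat_lit 0), (nat_lit 0), (nat_lit 4796)], [((nat_lit 0), (nat_lit 0), (nat_lit 0)), ((nat_lit 0), (nat_lit 0), (nat_lit 0)), ((nat_lit 802), (nat_lit 1000), (nat_lit 999))], ((nat_lit 97), (nat_lit 71), (nat_lit 100))⟩, (nat_lit 1750381), (nat_lit 292), (nat_lit 292), (nat_lit 0), (nat_lit 67143), [(nat_lit 3282000000), (nat_lit 7968000000), (nat_lit 14058000000)], [], [(nat_lit 36354681957), (nat_lit 37948761819), (nat_lit 41678211056), (nat_lit 42556861907), (nat_lit 39113326910), (nat_lit 36450708771), (nat_lit 38483687965), (nat_lit 39257842515)], (nat_lit 1271251), (nat_lit 1271251), (nat_lit 1271251), (nat_lit 1271251), (nat_lit 0), (nat_lit 2825001), [(nat_lit 780000), (nat_lit 1762501), (nat_lit 1271251)], [(nat_lit 13), (nat_lit 60), (nat_lit 538), (nat_lit 300),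 (nat_lit 12)]⟩,
 ⟨⟨[(nat_lit 120), (nat_lit 160), (nat_lit 200)], [(nat_lit 0), (nat_lit 533), (nat_lit 3597)], [((nat_lit 0), (nat_lit 0), (nat_lit 0)), ((nat_lit 960), (nat_lit 1000), (nat_lit 200)), ((nat_lit 612), (nat_lit 1000), (nat_lit 732))], ((nat_lit 0), (nat_lit 0), (nat_lit 0))⟩, (nat_lit 168735), (nat_lit 300), (nat_lit 528), (nat_lit 22959302), (nat_lit 167202), [(nat_lit 2525856000), (nat_lit 3763424000), (nat_lit 5198800000)], [], [(nat_lit 21001062743), (nat_lit 20953383578), (nat_lit 20650039972), (nat_lit 20548525873), (nat_lit 19675551121), (nat_lit 19525510240), (nat_lit 23688308973), (nat_lit 21803495186)], (nat_lit 1271251), (nat_lit 1271251), (nat_lit 704688), (nat_lit 2161563), (nat_lit 0), (nat_lit 2825001), [(nat_lit 1695001), (nat_lit 1271251), (nat_lit 1271251)], [(nat_lit 29), (nat_lit 66), (nat_lit 483), (nat_lit 250), (nat_lit 10)]⟩⟩)))))))) (.dle (nat_lit 0))))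
noncomputable def c14_127 : Tr Lf :=
 (.spl (nat_lit 6) (nat_lit 36) (.spl (nat_lit 1) (nat_lit 280) (.ord (.trX (nat_lit 3) (nat_lit 0) (nat_lit 1) (nat_lit 48) (nat_lit 71) (nat_lit 100) (nat_lit 360) (.trX (nat_lit 4) (nat_lit 0) (nat_lit 2) (nat_lit 48) (nat_lit 71) (nat_lit 100) (nat_lit 360) (.leaf ⟨(nat_lit 22), (nat_lit 0), (nat_lit 618), (nat_lit 360), (nat_lit 0), (nat_lit 4509), (nat_lit 3070), (nat_lit 8146), (nat_lit 0), (nat_lit 1743002143846), (nat_lit 88000), [((nat_lit 400), [((nat_lit 43), (nat_lit 5), (nat_lit 22))])], ⟨(nat_lit 6), false, false, true, (nat_lit 257), (nat_lit 0), (nat_lit 2237), [(nat_lit 1470123), (nat_lit 1483344), (nat_lit 1513819), (nat_lit 1531491), (nat_lit 1773604), (nat_lit 1749994), (nat_lit 1819154), (nat_lit 1799995)]⟩, ⟨(nat_lit 5), true, false, true, (nat_lit 247), (nat_lit 0), (nat_lit 2237), [(nat_lit 1418846), (nat_lit 1433349), (nat_lit 1484390), (nat_lit 1505570), (nat_lit 1750828), (nat_lit 1724992),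 (nat_lit 1819154), (nat_lit 1799995)]⟩, (nat_lit 5502650), (nat_lit 35540313), (nat_lit 16247978), (nat_lit 15211709), (nat_lit 0), (nat_lit 6), [⟨(nat_lit 1), (nat_lit 85), (nat_lit 33), (nat_lit 100), (nat_lit 146407378)⟩], [⟨(nat_lit 0), (nat_lit 97), (nat_lit 31), (nat_lit 100), (nat_lit 435558662)⟩], [], [],
 ⟨⟨[(nat_lit 40), (nat_lit 60)], [(nat_lit 0), (nat_lit 1539)], [((nat_lit 0), (nat_lit 0), (nat_lit 0)), ((nat_lit 1000), (nat_lit 478), (nat_lit 704))], ((nat_lit 50), (nat_lit 100), (nat_lit 66))⟩, (nat_lit 0), (nat_lit 280), (nat_lit 280), (nat_lit 0), (nat_lit 751529), [(nat_lit 1823484002), (nat_lit 2838752800)], [(nat_lit 0), (nat_lit 0)], [(nat_lit 23515590279), (nat_lit 24738418353), (nat_lit 30749114645), (nat_lit 32035622920), (nat_lit 30583978571), (nat_lit 31839304280), (nat_lit 35310851318), (nat_lit 36125541200)], (nat_lit 1271251), (nat_lit 1271251), (nat_lit 1017188), (nat_lit 2795626), (nat_lit 857188), (nat_lit 2761876),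 [(nat_lit 490000), (nat_lit 780000)], [(nat_lit 1), (nat_lit 38), (nat_lit 210), (nat_lit 0), (nat_lit 10)]⟩,
 ⟨⟨[(nat_lit 80), (nat_lit 120), (nat_lit 140)], [(nat_lit 0), (nat_lit 0), (nat_lit 1164)], [((nat_lit 0), (nat_lit 0), (nat_lit 0)), ((nat_lit 0), (nat_lit 0), (nat_lit 0)), ((nat_lit 941), (nat_lit 1000), (nat_lit 576))], ((nat_lit 100), (nat_lit 94), (nat_lit 58))⟩, (nat_lit 459536), (nat_lit 1174), (nat_lit 1174), (nat_lit 0), (nat_lit 2067928), [(nat_lit 1687680000), (nat_lit 2868480000), (nat_lit 3543120000)], [], [(nat_lit 18101004641), (nat_lit 18037217654), (nat_lit 17451978220), (nat_lit 17336532190), (nat_lit 19875604195), (nat_lit 17207554690), (nat_lit 14683355020), (nat_lit 14499858690)], (nat_lit 1271251), (nat_lit 1271251), (nat_lit 1271251), (nat_lit 1271251), (nat_lit 0), (nat_lit 2825001), [(nat_lit 1100000), (nat_lit 1785001), (nat_lit 1271251)], [(nat_lit 17), (nat_lit 58), (nat_lit 538), (nat_lit 300), (nat_lit 15)]⟩,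
 ⟨⟨[(nat_lit 100), (nat_lit 140), (nat_lit 160)], [(nat_lit 0), (nat_lit 508), (nat_lit 1689)], [((nat_lit 0), (nat_lit 0), (nat_lit 0)), ((nat_lit 1000), (nat_lit 1000), (nat_lit 198)), ((nat_lit 811), (nat_lit 1000), (nat_lit 671))], ((nat_lit 100), (nat_lit 88), (nat_lit 58))⟩, (nat_lit 7810054), (nat_lit 250), (nat_lit 250), (nat_lit 0), (nat_lit 0), [(nat_lit 6112500000), (nat_lit 9625476000), (nat_lit 11610816000)], [], [(nat_lit 22284157559), (nat_lit 26046772757), (nat_lit 33733825885), (nat_lit 36030894938), (nat_lit 30445700031), (nat_lit 32285255808), (nat_lit 36669521889), (nat_lit 37760994862)], (nat_lit 0), (nat_lit 0), (nat_lit 0), (nat_lit 0), (nat_lit 0), (nat_lit 0), [], [(nat_lit 23), (nat_lit 62), (nat_lit 538), (nat_lit 300), (nat_lit 14)]⟩⟩)))) (.trZ (nat_lit 0) (nat_lit 1) (nat_lit 3) (nat_lit 92) (nat_lit 44) (nat_lit 100) (nat_lit 190) (.trZ (nat_lit 1) (nat_lit 2) (nat_lit 5) (nat_lit 100) (nat_lit 92) (nat_lit 49) (nat_lit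 20) (.leaf ⟨(nat_lit 22), (nat_lit 0), (nat_lit 332), (nat_lit 646), (nat_lit 0), (nat_lit 5173), (nat_lit 5398), (nat_lit 6609), (nat_lit 0), (nat_lit 353220158853), (nat_lit 88000), [((nat_lit 400), [((nat_lit 43), (nat_lit 5), (nat_lit 22))])], ⟨(nat_lit 7), false, true, false, (nat_lit 292), (nat_lit 0), (nat_lit 2237), [(nat_lit 1572676), (nat_lit 1583333), (nat_lit 1616372), (nat_lit 1631480), (nat_lit 1847661), (nat_lit 1824994), (nat_lit 1893212), (nat_lit 1874997)]⟩, ⟨(nat_lit 5), true, false, false, (nat_lit 262), (nat_lit 0), (nat_lit 2237), [(nat_lit 1418846), (nat_lit 1433349), (nat_lit 1528086), (nat_lit 1553717), (nat_lit 1779335), (nat_lit 1749991), (nat_lit 1893212), (nat_lit 1874997)]⟩, (nat_lit 5669695), (nat_lit 32656332), (nat_lit 18729194), (nat_lit 15614474), (nat_lit 0), (nat_lit 7), [⟨(nat_lit 0), (nat_lit 88), (nat_lit 32), (nat_lit 100), (nat_lit 214574322)⟩], [⟨(nat_lit 0), (nat_lit 94), (nat_lit 31), (nat_lit 100), (nat_lit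 523544778)⟩], [⟨(nat_lit 0), (nat_lit 100), (nat_lit 92), (nat_lit 82), (nat_lit 134918863)⟩], [],
 ⟨⟨[(nat_lit 40), (nat_lit 60)], [(nat_lit 0), (nat_lit 1539)], [((nat_lit 0), (nat_lit 0), (nat_lit 0)), ((nat_lit 1000), (nat_lit 478), (nat_lit 704))], ((nat_lit 50), (nat_lit 100), (nat_lit 66))⟩, (nat_lit 67269), (nat_lit 300), (nat_lit 342), (nat_lit 45587101), (nat_lit 939475), [(nat_lit 1823484011), (nat_lit 2838752800)], [(nat_lit 0), (nat_lit 0)], [(nat_lit 24781591711), (nat_lit 25867239061), (nat_lit 33055947885), (nat_lit 34349377354), (nat_lit 32928194857), (nat_lit 34113425834), (nat_lit 37766967469), (nat_lit 38524991768)], (nat_lit 1271251), (nat_lit 1271251), (nat_lit 1271251), (nat_lit 1271251), (nat_lit 857188), (nat_lit 2927501), [(nat_lit 490000), (nat_lit 780000)], [(nat_lit 1), (nat_lit 38), (nat_lit 231), (nat_lit 0), (nat_lit 11)]⟩,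
 ⟨⟨[(nat_lit 60), (nat_lit 100), (nat_lit 120)], [(nat_lit 0), (nat_lit 0), (nat_lit 1164)], [((nat_lit 0), (nat_lit 0), (nat_lit 0)), ((nat_lit 0), (nat_lit 0), (nat_lit 0)), ((nat_lit 1000), (nat_lit 933), (nat_lit 572))], ((nat_lit 93), (nat_lit 100), (nat_lit 58))⟩, (nat_lit 875990), (nat_lit 959), (nat_lit 959), (nat_lit 0), (nat_lit 1842168), [(nat_lit 2120172000), (nat_lit 4037500000), (nat_lit 5147328000)], [], [(nat_lit 23975992386), (nat_lit 24124303178), (nat_lit 24305708699), (nat_lit 26080596609), (nat_lit 23695558556), (nat_lit 22367769270), (nat_lit 25716599337), (nat_lit 26333389424)], (nat_lit 1271251), (nat_lit 1271251), (nat_lit 1271251), (nat_lit 1271251), (nat_lit 111251), (nat_lit 2866250), [(nat_lit 780000), (nat_lit 1435001), (nat_lit 1271251)], [(nat_lit 10), (nat_lit 54), (nat_lit 428), (nat_lit 200), (nat_lit 14)]⟩,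
 ⟨⟨[(nat_lit 100), (nat_lit 140), (nat_lit 160)], [(nat_lit 0), (nat_lit 508), (nat_lit 1689)], [((nat_lit 0), (nat_lit 0), (nat_lit 0)), ((nat_lit 1000), (nat_lit 1000), (nat_lit 198)), ((nat_lit 811), (nat_lit 1000), (nat_lit 671))], ((nat_lit 100), (nat_lit 88), (nat_lit 58))⟩, (nat_lit 10427324), (nat_lit 241), (nat_lit 241), (nat_lit 0), (nat_lit 0), [(nat_lit 6112500000), (nat_lit 9625476000), (nat_lit 11610816000)], [], [(nat_lit 21870009606), (nat_lit 27709441419), (nat_lit 32817240841), (nat_lit 35823763196), (nat_lit 30501455431), (nat_lit 33310476714), (nat_lit 35792619525), (nat_lit 37720973877)], (nat_lit 0), (nat_lit 0), (nat_lit 0), (nat_lit 0), (nat_lit 0), (nat_lit 0), [], [(nat_lit 23), (nat_lit 62), (nat_lit 538), (nat_lit 300), (nat_lit 14)]⟩⟩)))) (.spl (nat_lit 1) (nat_lit 280) (.ord (.trX (nat_lit 3) (nat_lit 0) (nat_lit 1) (nat_lit 48) (nat_lit 71) (nat_lit 100) (nat_lit 360) (.trX (nat_lit 4) (nat_lit 0) (nat_lit 2) (nat_lit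 48) (nat_lit 71) (nat_lit 100) (nat_lit 360) (.leaf ⟨(nat_lit 22), (nat_lit 0), (nat_lit 560), (nat_lit 418), (nat_lit 0), (nat_lit 4080), (nat_lit 4023), (nat_lit 8241), (nat_lit 0), (nat_lit 2001467002056), (nat_lit 88000), [((nat_lit 400), [((nat_lit 43), (nat_lit 5), (nat_lit 22))])], ⟨(nat_lit 6), false, false, true, (nat_lit 257), (nat_lit 0), (nat_lit 2237), [(nat_lit 1470123), (nat_lit 1483344), (nat_lit 1513819), (nat_lit 1531491), (nat_lit 1773604), (nat_lit 1749994), (nat_lit 1819154), (nat_lit 1799995)]⟩, ⟨(nat_lit 5), true, false, true, (nat_lit 247), (nat_lit 0), (nat_lit 2237), [(nat_lit 1418846), (nat_lit 1433349), (nat_lit 1484390), (nat_lit 1505570), (nat_lit 1750828), (nat_lit 1724992), (nat_lit 1819154), (nat_lit 1799995)]⟩, (nat_lit 5502650), (nat_lit 35540313), (nat_lit 16247978), (nat_lit 15211709), (nat_lit 0), (nat_lit 6), [], [⟨(nat_lit 0), (nat_lit 97), (nat_lit 31), (nat_lit 100), (nat_lit 421720344)⟩], [], [],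
 ⟨⟨[(nat_lit 40), (nat_lit 60), (nat_lit 80)], [(nat_lit 0), (nat_lit 1539), (nat_lit 2453)], [((nat_lit 0), (nat_lit 0), (nat_lit 0)), ((nat_lit 1000), (nat_lit 478), (nat_lit 704)), ((nat_lit 1000), (nat_lit 474), (nat_lit 714))], ((nat_lit 45), (nat_lit 100), (nat_lit 78))⟩, (nat_lit 706762), (nat_lit 210), (nat_lit 210), (nat_lit 0), (nat_lit 418373), [(nat_lit 1823484003), (nat_lit 2838752813), (nat_lit 3969858400)], [(nat_lit 0), (nat_lit 0), (nat_lit 0)], [(nat_lit 22742937618), (nat_lit 24035831578), (nat_lit 30094370340), (nat_lit 31320227560), (nat_lit 29981480460), (nat_lit 31178291320), (nat_lit 34734313820), (nat_lit 35522024000)], (nat_lit 1271251), (nat_lit 1271251), (nat_lit 1017188), (nat_lit 2795626), (nat_lit 857188), (nat_lit 2761876), [(nat_lit 490000), (nat_lit 780000), (nat_lit 1100000)], [(nat_lit 2), (nat_lit 44), (nat_lit 428), (nat_lit 200), (nat_lit 19)]⟩,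
 ⟨⟨[(nat_lit 80), (nat_lit 140), (nat_lit 180)], [(nat_lit 0), (nat_lit 0), (nat_lit 3656)], [((nat_lit 0), (nat_lit 0), (nat_lit 0)), ((nat_lit 0), (nat_lit 0), (nat_lit 0)), ((nat_lit 637), (nat_lit 1000), (nat_lit 908))], ((nat_lit 100), (nat_lit 81), (nat_lit 77))⟩, (nat_lit 524002), (nat_lit 859), (nat_lit 859), (nat_lit 0), (nat_lit 1107782), [(nat_lit 1959584000), (nat_lit 4113956000), (nat_lit 5876244000)], [], [(nat_lit 20232105714), (nat_lit 20269376195), (nat_lit 19767908828), (nat_lit 19724917211), (nat_lit 25998601800), (nat_lit 22458299444), (nat_lit 16898944174), (nat_lit 17007662037)], (nat_lit 1271251), (nat_lit 1271251), (nat_lit 1271251), (nat_lit 1271251), (nat_lit 0), (nat_lit 2825001), [(nat_lit 1100000), (nat_lit 2127501), (nat_lit 1271251)], [(nat_lit 19), (nat_lit 63), (nat_lit 538), (nat_lit 300), (nat_lit 12)]⟩,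
 ⟨⟨[(nat_lit 100), (nat_lit 140), (nat_lit 180)], [(nat_lit 0), (nat_lit 508), (nat_lit 2854)], [((nat_lit 0), (nat_lit 0), (nat_lit 0)), ((nat_lit 1000), (nat_lit 1000), (nat_lit 198)), ((nat_lit 777), (nat_lit 1000), (nat_lit 712))], ((nat_lit 100), (nat_lit 74), (nat_lit 76))⟩, (nat_lit 4996823), (nat_lit 284), (nat_lit 284), (nat_lit 0), (nat_lit 0), [(nat_lit 6112500000), (nat_lit 9625476000), (nat_lit 13748724000)], [], [(nat_lit 23664794700), (nat_lit 27391869502), (nat_lit 35230274398), (nat_lit 37535995006), (nat_lit 31865437813), (nat_lit 33470783908), (nat_lit 36796084832), (nat_lit 37884289662)], (nat_lit 0), (nat_lit 0), (nat_lit 0), (nat_lit 0), (nat_lit 0), (nat_lit 0), [], [(nat_lit 24), (nat_lit 63), (nat_lit 538), (nat_lit 300), (nat_lit 12)]⟩⟩)))) (.trZ (nat_lit 0) (nat_lit 1) (nat_lit 3) (nat_lit 92) (nat_lit 44) (nat_lit 100) (nat_lit 190) (.trZ (nat_lit 1) (nat_lit 2) (nat_lit 5) (nat_lit 100) (nat_lit 92) (nat_lit 49) (nat_lit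 20) (.leaf ⟨(nat_lit 0), (nat_lit 0), (nat_lit 0), (nat_lit 1000), (nat_lit 0), (nat_lit 4616), (nat_lit 8967), (nat_lit 8295), (nat_lit 0), (nat_lit 58478), (nat_lit 0), [], Pd.none, Pd.none, (nat_lit 0), (nat_lit 1), (nat_lit 0), (nat_lit 0), (nat_lit 0), (nat_lit 0), [⟨(nat_lit 0), (nat_lit 88), (nat_lit 32), (nat_lit 100), (nat_lit 861604046)⟩], [⟨(nat_lit 0), (nat_lit 94), (nat_lit 31), (nat_lit 100), (nat_lit 517239771)⟩], [⟨(nat_lit 0), (nat_lit 100), (nat_lit 92), (nat_lit 82), (nat_lit 230416030)⟩, ⟨(nat_lit 0), (nat_lit 100), (nat_lit 92), (nat_lit 49), (nat_lit 134043033)⟩], [],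
 ⟨⟨[(nat_lit 40), (nat_lit 60), (nat_lit 80)], [(nat_lit 0), (nat_lit 1539), (nat_lit 2453)], [((nat_lit 0), (nat_lit 0), (nat_lit 0)), ((nat_lit 1000), (nat_lit 478), (nat_lit 704)), ((nat_lit 1000), (nat_lit 474), (nat_lit 714))], ((nat_lit 45), (nat_lit 100), (nat_lit 78))⟩, (nat_lit 795884), (nat_lit 267), (nat_lit 267), (nat_lit 0), (nat_lit 580370), [(nat_lit 2032000004), (nat_lit 3282000013), (nat_lit 4688000000)], [], [(nat_lit 23918402134), (nat_lit 25127142223), (nat_lit 32134611296), (nat_lit 33356803423), (nat_lit 32152383464), (nat_lit 33275168335), (nat_lit 36960957381), (nat_lit 37692267856)], (nat_lit 1271251), (nat_lit 1271251), (nat_lit 1271251), (nat_lit 1271251), (nat_lit 857188), (nat_lit 2927501), [(nat_lit 490000), (nat_lit 780000), (nat_lit 1100000)], [(nat_lit 2), (nat_lit 44), (nat_lit 317), (nat_lit 100), (nat_lit 13)]⟩,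
 ⟨⟨[(nat_lit 60), (nat_lit 120), (nat_lit 160)], [(nat_lit 0), (nat_lit 0), (nat_lit 3243)], [((nat_lit 0), (nat_lit 0), (nat_lit 0)), ((nat_lit 0), (nat_lit 0), (nat_lit 0)), ((nat_lit 878), (nat_lit 1000), (nat_lit 945))], ((nat_lit 100), (nat_lit 99), (nat_lit 82))⟩, (nat_lit 1587463), (nat_lit 742), (nat_lit 742), (nat_lit 0), (nat_lit 1094723), [(nat_lit 3282000000), (nat_lit 7968000000), (nat_lit 11872000000)], [], [(nat_lit 38034431208), (nat_lit 38771049201), (nat_lit 40442303184), (nat_lit 41958406005), (nat_lit 43136447432), (nat_lit 35438520041), (nat_lit 40646917736), (nat_lit 41602497237)], (nat_lit 1271251), (nat_lit 1271251), (nat_lit 1271251), (nat_lit 1271251), (nat_lit 111251), (nat_lit 2866250), [(nat_lit 780000), (nat_lit 1762501), (nat_lit 1271251)], [(nat_lit 12), (nat_lit 59), (nat_lit 538), (nat_lit 300), (nat_lit 13)]⟩,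
 ⟨⟨[(nat_lit 100), (nat_lit 140), (nat_lit 180)], [(nat_lit 0), (nat_lit 508), (nat_lit 2854)], [((nat_lit 0), (nat_lit 0), (nat_lit 0)), ((nat_lit 1000), (nat_lit 1000), (nat_lit 198)), ((nat_lit 777), (nat_lit 1000), (nat_lit 712))], ((nat_lit 100), (nat_lit 74), (nat_lit 76))⟩, (nat_lit 5046575), (nat_lit 274), (nat_lit 274), (nat_lit 0), (nat_lit 0), [(nat_lit 6250000000), (nat_lit 9842000000), (nat_lit 14058000000)], [], [(nat_lit 23203078142), (nat_lit 29861871199), (nat_lit 36431124446), (nat_lit 40229512680), (nat_lit 32627050960), (nat_lit 35667741278), (nat_lit 38787088959), (nat_lit 40679968245)], (nat_lit 0), (nat_lit 0), (nat_lit 0), (nat_lit 0), (nat_lit 0), (nat_lit 0), [], [(nat_lit 24), (nat_lit 63), (nat_lit 538), (nat_lit 300), (nat_lit 12)]⟩⟩)))))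
noncomputable def c14_128 : Tr Lf :=
 (.spl (nat_lit 6) (nat_lit 36) (.spl (nat_lit 4) (nat_lit 240) (.leaf ⟨(nat_lit 22), (nat_lit 779), (nat_lit 0), (nat_lit 199), (nat_lit 0), (nat_lit 4214), (nat_lit 7087), (nat_lit 1633), (nat_lit 0), (nat_lit 124144), (nat_lit 88000), [((nat_lit 400), [((nat_lit 43), (nat_lit 5), (nat_lit 22))])], ⟨(nat_lit 6), true, false, false, (nat_lit 272), (nat_lit 0), (nat_lit 2237), [(nat_lit 1470123), (nat_lit 1483344), (nat_lit 1557514), (nat_lit 1579638), (nat_lit 1802110), (nat_lit 1774991), (nat_lit 1893212), (nat_lit 1874997)]⟩, ⟨(nat_lit 5), false, false, false, (nat_lit 215), (nat_lit 0), (nat_lit 2237), [(nat_lit 1418846), (nat_lit 1433349), (nat_lit 1484390), (nat_lit 1505570), (nat_lit 1579788), (nat_lit 1574999), (nat_lit 1646249), (nat_lit 1648136)]⟩, (nat_lit 5388428), (nat_lit 36455801), (nat_lit 18158375), (nat_lit 12385824), (nat_lit 5), (nat_lit 0), [⟨(nat_lit 0), (nat_lit 92), (nat_lit 31), (nat_lit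 100), (nat_lit 460567946)⟩], [], [⟨(nat_lit 1), (nat_lit 16), (nat_lit 95), (nat_lit 100), (nat_lit 38204739)⟩], [],
 ⟨⟨[(nat_lit 40), (nat_lit 60)], [(nat_lit 0), (nat_lit 1539)], [((nat_lit 0), (nat_lit 0), (nat_lit 0)), ((nat_lit 1000), (nat_lit 478), (nat_lit 704))], ((nat_lit 50), (nat_lit 100), (nat_lit 66))⟩, (nat_lit 712741), (nat_lit 242), (nat_lit 242), (nat_lit 0), (nat_lit 588425), [(nat_lit 1823484025), (nat_lit 2838752800)], [(nat_lit 0), (nat_lit 0)], [(nat_lit 22702269199), (nat_lit 23971013340), (nat_lit 31469661011), (nat_lit 32640439474), (nat_lit 24762753776), (nat_lit 25882430905), (nat_lit 32188147767), (nat_lit 33178753870)], (nat_lit 1271251), (nat_lit 1271251), (nat_lit 1017188), (nat_lit 2965001), (nat_lit 857188), (nat_lit 1768126), [(nat_lit 490000), (nat_lit 780000)], [(nat_lit 1), (nat_lit 38), (nat_lit 203), (nat_lit 0), (nat_lit 10)]⟩,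
 ⟨⟨[(nat_lit 80), (nat_lit 120), (nat_lit 140)], [(nat_lit 0), (nat_lit 0), (nat_lit 1164)], [((nat_lit 0), (nat_lit 0), (nat_lit 0)), ((nat_lit 0), (nat_lit 0), (nat_lit 0)), ((nat_lit 941), (nat_lit 1000), (nat_lit 576))], ((nat_lit 100), (nat_lit 94), (nat_lit 58))⟩, (nat_lit 2669663), (nat_lit 223), (nat_lit 223), (nat_lit 0), (nat_lit 0), [(nat_lit 4584864000), (nat_lit 7792704000), (nat_lit 9625476000)], [], [(nat_lit 22518482775), (nat_lit 28676804119), (nat_lit 35964925179), (nat_lit 39278314756), (nat_lit 31317743718), (nat_lit 34211867481), (nat_lit 36962345104), (nat_lit 38377177535)], (nat_lit 0), (nat_lit 0), (nat_lit 0), (nat_lit 0), (nat_lit 0), (nat_lit 0), [], [(nat_lit 17), (nat_lit 58), (nat_lit 538), (nat_lit 300), (nat_lit 15)]⟩,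
 ⟨⟨[(nat_lit 100), (nat_lit 140), (nat_lit 160)], [(nat_lit 0), (nat_lit 508), (nat_lit 1689)], [((nat_lit 0), (nat_lit 0), (nat_lit 0)), ((nat_lit 1000), (nat_lit 1000), (nat_lit 198)), ((nat_lit 811), (nat_lit 1000), (nat_lit 671))], ((nat_lit 100), (nat_lit 88), (nat_lit 58))⟩, (nat_lit 427772), (nat_lit 300), (nat_lit 1634), (nat_lit 12437500), (nat_lit 2853074), [(nat_lit 1243750000), (nat_lit 1958558000), (nat_lit 2362528000)], [], [(nat_lit 13454810040), (nat_lit 13243328882), (nat_lit 12953501309), (nat_lit 12737966317), (nat_lit 11650586121), (nat_lit 11425315780), (nat_lit 11141188375), (nat_lit 10913742758)], (nat_lit 1271251), (nat_lit 1271251), (nat_lit 857188), (nat_lit 1768126), (nat_lit 0), (nat_lit 2825001), [(nat_lit 1412501), (nat_lit 1271251), (nat_lit 1271251)], [(nat_lit 23), (nat_lit 62), (nat_lit 524), (nat_lit 250), (nat_lit 14)]⟩⟩) (.spl (nat_lit 1) (nat_lit 280) (.trX (nat_lit 3) (nat_lit 0) (nat_lit 1) (nat_lit 48) (nat_lit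 71) (nat_lit 100) (nat_lit 360) (.leaf ⟨(nat_lit 23), (nat_lit 705), (nat_lit 0), (nat_lit 272), (nat_lit 0), (nat_lit 3837), (nat_lit 6663), (nat_lit 2470), (nat_lit 0), (nat_lit 198153), (nat_lit 92000), [((nat_lit 400), [((nat_lit 43), (nat_lit 5), (nat_lit 23))])], ⟨(nat_lit 6), true, false, true, (nat_lit 257), (nat_lit 0), (nat_lit 2237), [(nat_lit 1470123), (nat_lit 1483344), (nat_lit 1513819), (nat_lit 1531491), (nat_lit 1773604), (nat_lit 1749994), (nat_lit 1819154), (nat_lit 1799995)]⟩, ⟨(nat_lit 6), false, true, true, (nat_lit 277), (nat_lit 0), (nat_lit 2237), [(nat_lit 1579788), (nat_lit 1574999), (nat_lit 1646249), (nat_lit 1648136), (nat_lit 1750828), (nat_lit 1724992), (nat_lit 1819154), (nat_lit 1799995)]⟩, (nat_lit 5613493), (nat_lit 33758696), (nat_lit 15597770), (nat_lit 17643534), (nat_lit 6), (nat_lit 0), [⟨(nat_lit 0), (nat_lit 95), (nat_lit 31), (nat_lit 100), (nat_lit 571996872)⟩], [⟨(nat_lit 1), (nat_lit 87), (nat_lit 32),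 (nat_lit 100), (nat_lit 684398794)⟩], [], [],
 ⟨⟨[(nat_lit 40), (nat_lit 60)], [(nat_lit 0), (nat_lit 1539)], [((nat_lit 0), (nat_lit 0), (nat_lit 0)), ((nat_lit 1000), (nat_lit 478), (nat_lit 704))], ((nat_lit 50), (nat_lit 100), (nat_lit 66))⟩, (nat_lit 903204), (nat_lit 205), (nat_lit 205), (nat_lit 0), (nat_lit 508079), [(nat_lit 1821966035), (nat_lit 2818605200)], [(nat_lit 0), (nat_lit 0)], [(nat_lit 25158106893), (nat_lit 26303136414), (nat_lit 30779372826), (nat_lit 31763425754), (nat_lit 29640205307), (nat_lit 30803871392), (nat_lit 34407743630), (nat_lit 35180171600)], (nat_lit 1271251), (nat_lit 1271251), (nat_lit 1017188), (nat_lit 2795626), (nat_lit 1271251), (nat_lit 1271251), [(nat_lit 490000), (nat_lit 780000)], [(nat_lit 1), (nat_lit 38), (nat_lit 203), (nat_lit 0), (nat_lit 9)]⟩,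
 ⟨⟨[(nat_lit 80), (nat_lit 120), (nat_lit 140)], [(nat_lit 0), (nat_lit 0), (nat_lit 1164)], [((nat_lit 0), (nat_lit 0), (nat_lit 0)), ((nat_lit 0), (nat_lit 0), (nat_lit 0)), ((nat_lit 941), (nat_lit 1000), (nat_lit 576))], ((nat_lit 100), (nat_lit 94), (nat_lit 58))⟩, (nat_lit 2938614), (nat_lit 210), (nat_lit 210), (nat_lit 0), (nat_lit 0), [(nat_lit 4580176000), (nat_lit 7784736000), (nat_lit 9615634000)], [], [(nat_lit 22667939765), (nat_lit 25354925796), (nat_lit 33617019118), (nat_lit 35399678391), (nat_lit 31397936921), (nat_lit 32816224355), (nat_lit 36172004530), (nat_lit 36900645454)], (nat_lit 0), (nat_lit 0), (nat_lit 0), (nat_lit 0), (nat_lit 0), (nat_lit 0), [], [(nat_lit 17), (nat_lit 58), (nat_lit 538), (nat_lit 300), (nat_lit 15)]⟩,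
 ⟨⟨[(nat_lit 100), (nat_lit 140), (nat_lit 160)], [(nat_lit 0), (nat_lit 508), (nat_lit 1689)], [((nat_lit 0), (nat_lit 0), (nat_lit 0)), ((nat_lit 1000), (nat_lit 1000), (nat_lit 198)), ((nat_lit 811), (nat_lit 1000), (nat_lit 671))], ((nat_lit 100), (nat_lit 88), (nat_lit 58))⟩, (nat_lit 619537), (nat_lit 300), (nat_lit 1381), (nat_lit 17000000), (nat_lit 2435228), [(nat_lit 1700000000), (nat_lit 2677024000), (nat_lit 3229184000)], [], [(nat_lit 14539819232), (nat_lit 14237493408), (nat_lit 14084062650), (nat_lit 13758415986), (nat_lit 11730224766), (nat_lit 11390302572), (nat_lit 11175655971), (nat_lit 11023176960)], (nat_lit 1271251), (nat_lit 1271251), (nat_lit 1271251), (nat_lit 1271251), (nat_lit 0), (nat_lit 2825001), [(nat_lit 1412501), (nat_lit 1271251), (nat_lit 1271251)], [(nat_lit 23), (nat_lit 62), (nat_lit 538), (nat_lit 300), (nat_lit 14)]⟩⟩)) (.trZ (nat_lit 0) (nat_lit 1) (nat_lit 3) (nat_lit 92) (nat_lit 44) (nat_lit 100) (nat_lit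 190) (.trZ (nat_lit 1) (nat_lit 2) (nat_lit 5) (nat_lit 100) (nat_lit 92) (nat_lit 49) (nat_lit 20) (.leaf ⟨(nat_lit 22), (nat_lit 758), (nat_lit 0), (nat_lit 220), (nat_lit 0), (nat_lit 3852), (nat_lit 5912), (nat_lit 2007), (nat_lit 0), (nat_lit 0), (nat_lit 88000), [((nat_lit 400), [((nat_lit 43), (nat_lit 5), (nat_lit 22))])], ⟨(nat_lit 7), true, false, false, (nat_lit 292), (nat_lit 0), (nat_lit 2237), [(nat_lit 1572676), (nat_lit 1583333), (nat_lit 1616372), (nat_lit 1631480), (nat_lit 1847661), (nat_lit 1824994), (nat_lit 1893212), (nat_lit 1874997)]⟩, ⟨(nat_lit 6), false, true, true, (nat_lit 277), (nat_lit 0), (nat_lit 2237), [(nat_lit 1579788), (nat_lit 1574999), (nat_lit 1646249), (nat_lit 1648136), (nat_lit 1750828), (nat_lit 1724992), (nat_lit 1819154), (nat_lit 1799995)]⟩, (nat_lit 5721911), (nat_lit 31852499), (nat_lit 18337013), (nat_lit 16810488), (nat_lit 6), (nat_lit 0), [⟨(nat_lit 0), (nat_lit 92), (nat_lit 44), (nat_lit 100),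 (nat_lit 256189155)⟩], [⟨(nat_lit 1), (nat_lit 87), (nat_lit 32), (nat_lit 100), (nat_lit 764660898)⟩], [⟨(nat_lit 1), (nat_lit 28), (nat_lit 89), (nat_lit 100), (nat_lit 67212735)⟩], [],
 ⟨⟨[(nat_lit 40), (nat_lit 60)], [(nat_lit 0), (nat_lit 1539)], [((nat_lit 0), (nat_lit 0), (nat_lit 0)), ((nat_lit 1000), (nat_lit 478), (nat_lit 704))], ((nat_lit 50), (nat_lit 100), (nat_lit 66))⟩, (nat_lit 977985), (nat_lit 218), (nat_lit 218), (nat_lit 0), (nat_lit 588136), [(nat_lit 1823484001), (nat_lit 2838752800)], [(nat_lit 0), (nat_lit 0)], [(nat_lit 25820067854), (nat_lit 26901160681), (nat_lit 31727274797), (nat_lit 32682739660), (nat_lit 30051122687), (nat_lit 31150048069), (nat_lit 35160737848), (nat_lit 35893573412)], (nat_lit 1271251), (nat_lit 1271251), (nat_lit 1271251), (nat_lit 1271251), (nat_lit 1271251), (nat_lit 1271251), [(nat_lit 490000), (nat_lit 780000)], [(nat_lit 1), (nat_lit 38), (nat_lit 203), (nat_lit 0), (nat_lit 8)]⟩,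
 ⟨⟨[(nat_lit 60), (nat_lit 100), (nat_lit 120)], [(nat_lit 0), (nat_lit 0), (nat_lit 1164)], [((nat_lit 0), (nat_lit 0), (nat_lit 0)), ((nat_lit 0), (nat_lit 0), (nat_lit 0)), ((nat_lit 1000), (nat_lit 933), (nat_lit 572))], ((nat_lit 93), (nat_lit 100), (nat_lit 58))⟩, (nat_lit 2362594), (nat_lit 177), (nat_lit 177), (nat_lit 0), (nat_lit 0), [(nat_lit 3209796000), (nat_lit 6112500000), (nat_lit 7792704000)], [], [(nat_lit 21305033840), (nat_lit 24365675918), (nat_lit 32767904822), (nat_lit 34628564866), (nat_lit 30828154780), (nat_lit 32222934829), (nat_lit 36012466769), (nat_lit 36764124610)], (nat_lit 0), (nat_lit 0), (nat_lit 0), (nat_lit 0), (nat_lit 0), (nat_lit 0), [], [(nat_lit 10), (nat_lit 54), (nat_lit 428), (nat_lit 200), (nat_lit 14)]⟩,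
 ⟨⟨[(nat_lit 100), (nat_lit 140), (nat_lit 160)], [(nat_lit 0), (nat_lit 508), (nat_lit 1689)], [((nat_lit 0), (nat_lit 0), (nat_lit 0)), ((nat_lit 1000), (nat_lit 1000), (nat_lit 198)), ((nat_lit 811), (nat_lit 1000), (nat_lit 671))], ((nat_lit 100), (nat_lit 88), (nat_lit 58))⟩, (nat_lit 588626), (nat_lit 300), (nat_lit 1562), (nat_lit 13750000), (nat_lit 2845141), [(nat_lit 1375000000), (nat_lit 2165240000), (nat_lit 2611840000)], [], [(nat_lit 11614347437), (nat_lit 11342515759), (nat_lit 11178061953), (nat_lit 10899748660), (nat_lit 9498189182), (nat_lit 9209430328), (nat_lit 9006894146), (nat_lit 8897799072)], (nat_lit 1271251), (nat_lit 1271251), (nat_lit 1271251), (nat_lit 1271251), (nat_lit 111251), (nat_lit 2866250), [(nat_lit 1412501), (nat_lit 1271251), (nat_lit 1271251)], [(nat_lit 23), (nat_lit 62), (nat_lit 538), (nat_lit 300), (nat_lit 13)]⟩⟩))))) (.spl (nat_lit 1) (nat_lit 280) (.trX (nat_lit 3) (nat_lit 0) (nat_lit 1) (nat_lit 48)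 (nat_lit 71) (nat_lit 100) (nat_lit 360) (.leaf ⟨(nat_lit 23), (nat_lit 677), (nat_lit 0), (nat_lit 300), (nat_lit 0), (nat_lit 3831), (nat_lit 6190), (nat_lit 2771), (nat_lit 0), (nat_lit 42159), (nat_lit 92000), [((nat_lit 400), [((nat_lit 43), (nat_lit 5), (nat_lit 23))])], ⟨(nat_lit 6), true, false, true, (nat_lit 257), (nat_lit 0), (nat_lit 2237), [(nat_lit 1470123), (nat_lit 1483344), (nat_lit 1513819), (nat_lit 1531491), (nat_lit 1773604), (nat_lit 1749994), (nat_lit 1819154), (nat_lit 1799995)]⟩, ⟨(nat_lit 5), false, false, true, (nat_lit 247), (nat_lit 0), (nat_lit 2237), [(nat_lit 1418846), (nat_lit 1433349), (nat_lit 1484390), (nat_lit 1505570), (nat_lit 1750828), (nat_lit 1724992), (nat_lit 1819154), (nat_lit 1799995)]⟩, (nat_lit 5502650), (nat_lit 35540313), (nat_lit 16247978), (nat_lit 15211709), (nat_lit 5), (nat_lit 0), [⟨(nat_lit 0), (nat_lit 95), (nat_lit 31), (nat_lit 100), (nat_lit 530133489)⟩], [⟨(nat_lit 1), (nat_lit 87), (nat_lit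 32), (nat_lit 100), (nat_lit 193594683)⟩], [], [],
 ⟨⟨[(nat_lit 40), (nat_lit 60), (nat_lit 80)], [(nat_lit 0), (nat_lit 1539), (nat_lit 2453)], [((nat_lit 0), (nat_lit 0), (nat_lit 0)), ((nat_lit 1000), (nat_lit 478), (nat_lit 704)), ((nat_lit 1000), (nat_lit 474), (nat_lit 714))], ((nat_lit 45), (nat_lit 100), (nat_lit 78))⟩, (nat_lit 721983), (nat_lit 176), (nat_lit 176), (nat_lit 0), (nat_lit 288217), [(nat_lit 1821966011), (nat_lit 2818605217), (nat_lit 3937215600)], [(nat_lit 0), (nat_lit 0), (nat_lit 0)], [(nat_lit 23253864345), (nat_lit 24506334154), (nat_lit 29714343926), (nat_lit 30904998086), (nat_lit 29632788586), (nat_lit 30794626456), (nat_lit 34399680168), (nat_lit 35171730800)], (nat_lit 1271251), (nat_lit 1271251), (nat_lit 1017188), (nat_lit 2795626), (nat_lit 857188), (nat_lit 2761876), [(nat_lit 490000), (nat_lit 780000), (nat_lit 1100000)], [(nat_lit 2), (nat_lit 44), (nat_lit 428), (nat_lit 200), (nat_lit 19)]⟩,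
 ⟨⟨[(nat_lit 80), (nat_lit 140), (nat_lit 180)], [(nat_lit 0), (nat_lit 0), (nat_lit 3656)], [((nat_lit 0), (nat_lit 0), (nat_lit 0)), ((nat_lit 0), (nat_lit 0), (nat_lit 0)), ((nat_lit 637), (nat_lit 1000), (nat_lit 908))], ((nat_lit 100), (nat_lit 81), (nat_lit 77))⟩, (nat_lit 2225282), (nat_lit 281), (nat_lit 281), (nat_lit 0), (nat_lit 0), [(nat_lit 4580176000), (nat_lit 9615634000), (nat_lit 13734666000)], [], [(nat_lit 29028376945), (nat_lit 31163765256), (nat_lit 37146235312), (nat_lit 38399803881), (nat_lit 34595769718), (nat_lit 35828375301), (nat_lit 38733151866), (nat_lit 39374509669)], (nat_lit 0), (nat_lit 0), (nat_lit 0), (nat_lit 0), (nat_lit 0), (nat_lit 0), [], [(nat_lit 19), (nat_lit 63), (nat_lit 538), (nat_lit 300), (nat_lit 12)]⟩,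
 ⟨⟨[(nat_lit 100), (nat_lit 140), (nat_lit 180)], [(nat_lit 0), (nat_lit 508), (nat_lit 2854)], [((nat_lit 0), (nat_lit 0), (nat_lit 0)), ((nat_lit 1000), (nat_lit 1000), (nat_lit 198)), ((nat_lit 777), (nat_lit 1000), (nat_lit 712))], ((nat_lit 100), (nat_lit 74), (nat_lit 76))⟩, (nat_lit 644882), (nat_lit 300), (nat_lit 980), (nat_lit 18750000), (nat_lit 1307143), [(nat_lit 1875000000), (nat_lit 2952600000), (nat_lit 4217400000)], [], [(nat_lit 17965003624), (nat_lit 17705409273), (nat_lit 16759944843), (nat_lit 16424997509), (nat_lit 17946348330), (nat_lit 14427082121), (nat_lit 13392409886), (nat_lit 13105718333)], (nat_lit 1271251), (nat_lit 1271251), (nat_lit 1271251), (nat_lit 1271251), (nat_lit 0), (nat_lit 2825001), [(nat_lit 1412501), (nat_lit 1271251), (nat_lit 1271251)], [(nat_lit 24), (nat_lit 63), (nat_lit 538), (nat_lit 300), (nat_lit 12)]⟩⟩)) (.trZ (nat_lit 0) (nat_lit 1) (nat_lit 3) (nat_lit 92) (nat_lit 44) (nat_lit 100) (nat_lit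 190) (.trZ (nat_lit 1) (nat_lit 2) (nat_lit 5) (nat_lit 100) (nat_lit 92) (nat_lit 49) (nat_lit 20) (.leaf ⟨(nat_lit 22), (nat_lit 688), (nat_lit 0), (nat_lit 290), (nat_lit 0), (nat_lit 3881), (nat_lit 4905), (nat_lit 2330), (nat_lit 0), (nat_lit 0), (nat_lit 88000), [((nat_lit 400), [((nat_lit 43), (nat_lit 5), (nat_lit 22))])], ⟨(nat_lit 7), true, false, false, (nat_lit 292), (nat_lit 0), (nat_lit 2237), [(nat_lit 1572676), (nat_lit 1583333), (nat_lit 1616372), (nat_lit 1631480), (nat_lit 1847661), (nat_lit 1824994), (nat_lit 1893212), (nat_lit 1874997)]⟩, ⟨(nat_lit 5), false, false, true, (nat_lit 247), (nat_lit 0), (nat_lit 2237), [(nat_lit 1418846), (nat_lit 1433349), (nat_lit 1484390), (nat_lit 1505570), (nat_lit 1750828), (nat_lit 1724992), (nat_lit 1819154), (nat_lit 1799995)]⟩, (nat_lit 5610594), (nat_lit 33417165), (nat_lit 19094766), (nat_lit 14488069), (nat_lit 5), (nat_lit 0), [⟨(nat_lit 0), (nat_lit 88), (nat_lit 32), (nat_lit 100),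 (nat_lit 438055964)⟩], [⟨(nat_lit 1), (nat_lit 87), (nat_lit 32), (nat_lit 100), (nat_lit 324636307)⟩], [], [],
 ⟨⟨[(nat_lit 40), (nat_lit 60), (nat_lit 80)], [(nat_lit 0), (nat_lit 1539), (nat_lit 2453)], [((nat_lit 0), (nat_lit 0), (nat_lit 0)), ((nat_lit 1000), (nat_lit 478), (nat_lit 704)), ((nat_lit 1000), (nat_lit 474), (nat_lit 714))], ((nat_lit 45), (nat_lit 100), (nat_lit 78))⟩, (nat_lit 553460), (nat_lit 198), (nat_lit 198), (nat_lit 0), (nat_lit 355229), [(nat_lit 1823484120), (nat_lit 2838754337), (nat_lit 3969858400)], [(nat_lit 0), (nat_lit 0), (nat_lit 0)], [(nat_lit 24628624134), (nat_lit 25814579412), (nat_lit 30918843983), (nat_lit 32047033515), (nat_lit 30408277526), (nat_lit 31190849205), (nat_lit 35201311621), (nat_lit 35935747561)], (nat_lit 1271251), (nat_lit 1271251), (nat_lit 1271251), (nat_lit 1271251), (nat_lit 857188), (nat_lit 2761876), [(nat_lit 490000), (nat_lit 780000), (nat_lit 1100000)], [(nat_lit 2), (nat_lit 44),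 (nat_lit 317), (nat_lit 100), (nat_lit 13)]⟩,
 ⟨⟨[(nat_lit 60), (nat_lit 120), (nat_lit 160)], [(nat_lit 0), (nat_lit 0), (nat_lit 3243)], [((nat_lit 0), (nat_lit 0), (nat_lit 0)), ((nat_lit 0), (nat_lit 0), (nat_lit 0)), ((nat_lit 878), (nat_lit 1000), (nat_lit 945))], ((nat_lit 100), (nat_lit 99), (nat_lit 82))⟩, (nat_lit 1778611), (nat_lit 231), (nat_lit 231), (nat_lit 0), (nat_lit 0), [(nat_lit 3209796000), (nat_lit 7792704000), (nat_lit 11610816000)], [], [(nat_lit 27585801350), (nat_lit 29576976371), (nat_lit 35649084661), (nat_lit 36917578174), (nat_lit 33735366709), (nat_lit 34710332465), (nat_lit 38116156085), (nat_lit 38815487013)], (nat_lit 0), (nat_lit 0), (nat_lit 0), (nat_lit 0), (nat_lit 0), (nat_lit 0), [], [(nat_lit 12), (nat_lit 59), (nat_lit 538), (nat_lit 300), (nat_lit 13)]⟩,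
 ⟨⟨[(nat_lit 100), (nat_lit 140), (nat_lit 180)], [(nat_lit 0), (nat_lit 508), (nat_lit 2854)], [((nat_lit 0), (nat_lit 0), (nat_lit 0)), ((nat_lit 1000), (nat_lit 1000), (nat_lit 198)), ((nat_lit 777), (nat_lit 1000), (nat_lit 712))], ((nat_lit 100), (nat_lit 74), (nat_lit 76))⟩, (nat_lit 623386), (nat_lit 300), (nat_lit 1135), (nat_lit 18125000), (nat_lit 1675789), [(nat_lit 1812500000), (nat_lit 2854180000), (nat_lit 4076820000)], [], [(nat_lit 19475407973), (nat_lit 19215892417), (nat_lit 18357317845), (nat_lit 18058384490), (nat_lit 17158732820), (nat_lit 16764143123), (nat_lit 15804370529), (nat_lit 15473305244)], (nat_lit 1271251), (nat_lit 1271251), (nat_lit 1271251), (nat_lit 1271251), (nat_lit 111251), (nat_lit 2866250), [(nat_lit 1412501), (nat_lit 1271251), (nat_lit 1271251)], [(nat_lit 24), (nat_lit 63), (nat_lit 538), (nat_lit 300), (nat_lit 12)]⟩⟩)))))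
noncomputable def c14_129 : Tr Lf :=
 (.spl (nat_lit 2) (nat_lit 260) (.spl (nat_lit 6) (nat_lit 36) (.spl (nat_lit 6) (nat_lit 20) (.leaf ⟨(nat_lit 931), (nat_lit 4), (nat_lit 0), (nat_lit 65), (nat_lit 0), (nat_lit 3159), (nat_lit 756), (nat_lit 682), (nat_lit 0), (nat_lit 11288), (nat_lit 372400), [((nat_lit 400), [((nat_lit 27), (nat_lit 1), (nat_lit 931))])], ⟨(nat_lit 6), false, false, false, (nat_lit 236), (nat_lit 0), (nat_lit 2237), [(nat_lit 1470123), (nat_lit 1483344), (nat_lit 1513819), (nat_lit 1531491), (nat_lit 1659577), (nat_lit 1649997), (nat_lit 1705063), (nat_lit 1699935)]⟩, ⟨(nat_lit 5), false, false, false, (nat_lit 210), (nat_lit 0), (nat_lit 2237), [(nat_lit 1418846), (nat_lit 1433349), (nat_lit 1462542), (nat_lit 1481496), (nat_lit 1579788), (nat_lit 1574999), (nat_lit 1624400), (nat_lit 1624062)]⟩, (nat_lit 5206393), (nat_lit 39215632), (nat_lit 15175197), (nat_lit 12609171), (nat_lit 5), (nat_lit 0), [], [], [], [⟨(nat_lit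 0), (nat_lit 100), (nat_lit 94), (nat_lit 59), (nat_lit 8233017)⟩],
 ⟨⟨[(nat_lit 40)], [(nat_lit 0)], [((nat_lit 0), (nat_lit 0), (nat_lit 0))], ((nat_lit 56), (nat_lit 100), (nat_lit 56))⟩, (nat_lit 0), (nat_lit 113), (nat_lit 113), (nat_lit 0), (nat_lit 255407), [(nat_lit 1422993200)], [(nat_lit 0)], [(nat_lit 21265486946), (nat_lit 22680584940), (nat_lit 25046500449), (nat_lit 26254033257), (nat_lit 23732218415), (nat_lit 24922446319), (nat_lit 26905115048), (nat_lit 27866940910)], (nat_lit 1271251), (nat_lit 1271251), (nat_lit 1017188), (nat_lit 2118126), (nat_lit 857188), (nat_lit 1768126), [(nat_lit 490000)], [(nat_lit 0), (nat_lit 37), (nat_lit 203), (nat_lit 0), (nat_lit 14)]⟩,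
 ⟨⟨[(nat_lit 80), (nat_lit 120), (nat_lit 140)], [(nat_lit 0), (nat_lit 0), (nat_lit 1164)], [((nat_lit 0), (nat_lit 0), (nat_lit 0)), ((nat_lit 0), (nat_lit 0), (nat_lit 0)), ((nat_lit 941), (nat_lit 1000), (nat_lit 576))], ((nat_lit 100), (nat_lit 99), (nat_lit 44))⟩, (nat_lit 236538), (nat_lit 849), (nat_lit 849), (nat_lit 0), (nat_lit 1357539), [(nat_lit 323472000), (nat_lit 549792000), (nat_lit 679098000)], [], [(nat_lit 3383572506), (nat_lit 2587037487), (nat_lit 2114821734), (nat_lit 2190865899), (nat_lit 3974483718), (nat_lit 3317465664), (nat_lit 2474562282), (nat_lit 2593459170)], (nat_lit 1271251), (nat_lit 1271251), (nat_lit 1271251), (nat_lit 1271251), (nat_lit 0), (nat_lit 2825001), [(nat_lit 1100000), (nat_lit 1785001), (nat_lit 1271251)], [(nat_lit 17), (nat_lit 58), (nat_lit 483), (nat_lit 250), (nat_lit 14)]⟩,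
 ⟨⟨[(nat_lit 100), (nat_lit 120), (nat_lit 140)], [(nat_lit 0), (nat_lit 254), (nat_lit 778)], [((nat_lit 0), (nat_lit 0), (nat_lit 0)), ((nat_lit 1000), (nat_lit 1000), (nat_lit 198)), ((nat_lit 960), (nat_lit 1000), (nat_lit 392))], ((nat_lit 100), (nat_lit 94), (nat_lit 44))⟩, (nat_lit 119764), (nat_lit 300), (nat_lit 995), (nat_lit 4062500), (nat_lit 1637565), [(nat_lit 406250000), (nat_lit 517920000), (nat_lit 639730000)], [], [(nat_lit 2619168329), (nat_lit 2549180288), (nat_lit 2429970101), (nat_lit 2417602651), (nat_lit 2796696516), (nat_lit 2246812040), (nat_lit 3829542834), (nat_lit 3231202410)], (nat_lit 1271251), (nat_lit 1271251), (nat_lit 857188), (nat_lit 1768126), (nat_lit 0), (nat_lit 2825001), [(nat_lit 1412501), (nat_lit 1271251), (nat_lit 1271251)], [(nat_lit 22), (nat_lit 58), (nat_lit 456), (nat_lit 225), (nat_lit 13)]⟩⟩) (.spl (nat_lit 0) (nat_lit 390) (.leaf ⟨(nat_lit 899), (nat_lit 15), (nat_lit 0), (nat_lit 86), (nat_lit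 0), (nat_lit 3391), (nat_lit 1050), (nat_lit 996), (nat_lit 0), (nat_lit 67668), (nat_lit 224750), [((nat_lit 390), [((nat_lit 27), (nat_lit 0), (nat_lit 899))])], ⟨(nat_lit 6), false, false, false, (nat_lit 236), (nat_lit 1581), (nat_lit 2237), [(nat_lit 1474080), (nat_lit 1478137), (nat_lit 1519538), (nat_lit 1524676), (nat_lit 1659578), (nat_lit 1655900), (nat_lit 1705117), (nat_lit 1702521)]⟩, ⟨(nat_lit 5), false, false, false, (nat_lit 210), (nat_lit 1581), (nat_lit 2237), [(nat_lit 1422801), (nat_lit 1427507), (nat_lit 1468259), (nat_lit 1474046), (nat_lit 1579788), (nat_lit 1577949), (nat_lit 1625287), (nat_lit 1624529)]⟩, (nat_lit 5208239), (nat_lit 39191782), (nat_lit 15201049), (nat_lit 12607169), (nat_lit 5), (nat_lit 0), [], [], [⟨(nat_lit 0), (nat_lit 100), (nat_lit 97), (nat_lit 49), (nat_lit 13697230)⟩], [],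
 ⟨⟨[(nat_lit 40), (nat_lit 60)], [(nat_lit 0), (nat_lit 1539)], [((nat_lit 0), (nat_lit 0), (nat_lit 0)), ((nat_lit 1000), (nat_lit 478), (nat_lit 704))], ((nat_lit 50), (nat_lit 100), (nat_lit 66))⟩, (nat_lit 0), (nat_lit 100), (nat_lit 100), (nat_lit 0), (nat_lit 175732), [(nat_lit 1585476414), (nat_lit 1268959200)], [(nat_lit 0), (nat_lit 0)], [(nat_lit 21412628066), (nat_lit 22145642502), (nat_lit 25228107116), (nat_lit 25866880530), (nat_lit 23866617591), (nat_lit 24481464332), (nat_lit 27046641670), (nat_lit 27540903496)], (nat_lit 1271251), (nat_lit 1271251), (nat_lit 1017188), (nat_lit 2118126), (nat_lit 857188), (nat_lit 1768126), [(nat_lit 490000), (nat_lit 780000)], [(nat_lit 1), (nat_lit 38), (nat_lit 203), (nat_lit 0), (nat_lit 10)]⟩,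
 ⟨⟨[(nat_lit 80), (nat_lit 120), (nat_lit 140)], [(nat_lit 0), (nat_lit 0), (nat_lit 1164)], [((nat_lit 0), (nat_lit 0), (nat_lit 0)), ((nat_lit 0), (nat_lit 0), (nat_lit 0)), ((nat_lit 941), (nat_lit 1000), (nat_lit 576))], ((nat_lit 100), (nat_lit 94), (nat_lit 58))⟩, (nat_lit 219523), (nat_lit 594), (nat_lit 594), (nat_lit 0), (nat_lit 822833), [(nat_lit 473488000), (nat_lit 804768000), (nat_lit 994042000)], [], [(nat_lit 4851182465), (nat_lit 3744883828), (nat_lit 3283794760), (nat_lit 3366758532), (nat_lit 5761988877), (nat_lit 4849463802), (nat_lit 3564133718), (nat_lit 3734632752)], (nat_lit 1271251), (nat_lit 1271251), (nat_lit 1271251), (nat_lit 1271251), (nat_lit 0), (nat_lit 2825001), [(nat_lit 1100000), (nat_lit 1785001), (nat_lit 1271251)], [(nat_lit 17), (nat_lit 58), (nat_lit 483), (nat_lit 250), (nat_lit 14)]⟩,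
 ⟨⟨[(nat_lit 100), (nat_lit 140), (nat_lit 160)], [(nat_lit 0), (nat_lit 508), (nat_lit 1689)], [((nat_lit 0), (nat_lit 0), (nat_lit 0)), ((nat_lit 1000), (nat_lit 1000), (nat_lit 198)), ((nat_lit 811), (nat_lit 1000), (nat_lit 671))], ((nat_lit 100), (nat_lit 88), (nat_lit 58))⟩, (nat_lit 184866), (nat_lit 300), (nat_lit 774), (nat_lit 5375001), (nat_lit 1017514), [(nat_lit 537500000), (nat_lit 846412000), (nat_lit 1020992000)], [], [(nat_lit 3766034098), (nat_lit 3748006182), (nat_lit 3567475616), (nat_lit 3577921074), (nat_lit 3712137576), (nat_lit 3223226625), (nat_lit 5187990612), (nat_lit 4314167940)], (nat_lit 1271251), (nat_lit 1271251), (nat_lit 857188), (nat_lit 1768126), (nat_lit 0), (nat_lit 2825001), [(nat_lit 1412501), (nat_lit 1271251), (nat_lit 1271251)], [(nat_lit 23), (nat_lit 62), (nat_lit 456), (nat_lit 225), (nat_lit 12)]⟩⟩) (.trZ (nat_lit 0) (nat_lit 1) (nat_lit 3) (nat_lit 99) (nat_lit 31) (nat_lit 100) (nat_lit 170) (.trZ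 (nat_lit 0) (nat_lit 2) (nat_lit 4) (nat_lit 100) (nat_lit 31) (nat_lit 98) (nat_lit 150) (.leaf ⟨(nat_lit 866), (nat_lit 24), (nat_lit 0), (nat_lit 110), (nat_lit 0), (nat_lit 3372), (nat_lit 1389), (nat_lit 1207), (nat_lit 0), (nat_lit 807902), (nat_lit 216500), [((nat_lit 400), [((nat_lit 27), (nat_lit 0), (nat_lit 866))])], ⟨(nat_lit 6), false, false, false, (nat_lit 241), (nat_lit 0), (nat_lit 1582), [(nat_lit 1503356), (nat_lit 1510203), (nat_lit 1548673), (nat_lit 1558889), (nat_lit 1655899), (nat_lit 1649997), (nat_lit 1702515), (nat_lit 1699984)]⟩, ⟨(nat_lit 5), false, false, false, (nat_lit 216), (nat_lit 0), (nat_lit 1582), [(nat_lit 1452725), (nat_lit 1460204), (nat_lit 1498040), (nat_lit 1508890), (nat_lit 1577949), (nat_lit 1574999), (nat_lit 1623921), (nat_lit 1624340)]⟩, (nat_lit 5273932), (nat_lit 38428233), (nat_lit 15560787), (nat_lit 13010980), (nat_lit 5), (nat_lit 0), [], [], [⟨(nat_lit 0), (nat_lit 100), (nat_lit 97), (nat_lit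 49), (nat_lit 33755662)⟩], [],
 ⟨⟨[(nat_lit 40)], [(nat_lit 0)], [((nat_lit 0), (nat_lit 0), (nat_lit 0))], ((nat_lit 39), (nat_lit 100), (nat_lit 72))⟩, (nat_lit 0), (nat_lit 94), (nat_lit 94), (nat_lit 0), (nat_lit 190433), [(nat_lit 1593277600)], [(nat_lit 0)], [(nat_lit 22755191684), (nat_lit 23445959590), (nat_lit 25979537232), (nat_lit 26556057551), (nat_lit 24825662730), (nat_lit 25421754078), (nat_lit 27591497645), (nat_lit 28085370280)], (nat_lit 1271251), (nat_lit 1271251), (nat_lit 1184688), (nat_lit 2136876), (nat_lit 1017188), (nat_lit 1779376), [(nat_lit 490000)], [(nat_lit 0), (nat_lit 37), (nat_lit 203), (nat_lit 0), (nat_lit 13)]⟩,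
 ⟨⟨[(nat_lit 80), (nat_lit 120), (nat_lit 140)], [(nat_lit 0), (nat_lit 0), (nat_lit 1164)], [((nat_lit 0), (nat_lit 0), (nat_lit 0)), ((nat_lit 0), (nat_lit 0), (nat_lit 0)), ((nat_lit 941), (nat_lit 1000), (nat_lit 576))], ((nat_lit 100), (nat_lit 94), (nat_lit 58))⟩, (nat_lit 286872), (nat_lit 646), (nat_lit 646), (nat_lit 0), (nat_lit 960882), [(nat_lit 628192000), (nat_lit 1067712000), (nat_lit 1318828000)], [], [(nat_lit 5688636473), (nat_lit 4364921953), (nat_lit 4374581260), (nat_lit 4479573307), (nat_lit 7031305427), (nat_lit 5831621960), (nat_lit 4724479622), (nat_lit 4950431901)], (nat_lit 1271251), (nat_lit 1271251), (nat_lit 1271251), (nat_lit 1271251), (nat_lit 0), (nat_lit 2825001), [(nat_lit 1100000), (nat_lit 1785001), (nat_lit 1271251)], [(nat_lit 17), (nat_lit 58), (nat_lit 483), (nat_lit 250), (nat_lit 14)]⟩,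
 ⟨⟨[(nat_lit 100), (nat_lit 140), (nat_lit 160)], [(nat_lit 0), (nat_lit 508), (nat_lit 1689)], [((nat_lit 0), (nat_lit 0), (nat_lit 0)), ((nat_lit 1000), (nat_lit 1000), (nat_lit 198)), ((nat_lit 811), (nat_lit 1000), (nat_lit 671))], ((nat_lit 100), (nat_lit 88), (nat_lit 58))⟩, (nat_lit 236457), (nat_lit 300), (nat_lit 846), (nat_lit 6875000), (nat_lit 1178702), [(nat_lit 687500000), (nat_lit 1082620000), (nat_lit 1305920000)], [], [(nat_lit 4920596989), (nat_lit 4900496890), (nat_lit 4738325465), (nat_lit 4705300147), (nat_lit 6367026018), (nat_lit 5277167632), (nat_lit 3955868473), (nat_lit 3935600157)], (nat_lit 1271251), (nat_lit 1271251), (nat_lit 1271251), (nat_lit 1271251), (nat_lit 0), (nat_lit 2825001), [(nat_lit 1412501), (nat_lit 1271251), (nat_lit 1271251)], [(nat_lit 23), (nat_lit 62), (nat_lit 456), (nat_lit 225), (nat_lit 12)]⟩⟩))))) (.spl (nat_lit 3) (nat_lit 200) (.leaf ⟨(nat_lit 915), (nat_lit 5), (nat_lit 0), (nat_lit 80), (nat_lit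 0), (nat_lit 3671), (nat_lit 1044), (nat_lit 1090), (nat_lit 0), (nat_lit 271562), (nat_lit 231450), [((nat_lit 400), [((nat_lit 28), (nat_lit 0), (nat_lit 897)), ((nat_lit 28), (nat_lit 1), (nat_lit 18))])], ⟨(nat_lit 6), false, false, false, (nat_lit 214), (nat_lit 0), (nat_lit 2237), [(nat_lit 1470123), (nat_lit 1483344), (nat_lit 1513819), (nat_lit 1531491), (nat_lit 1543695), (nat_lit 1548146), (nat_lit 1587391), (nat_lit 1596294)]⟩, ⟨(nat_lit 5), false, false, false, (nat_lit 210), (nat_lit 0), (nat_lit 2237), [(nat_lit 1418846), (nat_lit 1433349), (nat_lit 1462542), (nat_lit 1481496), (nat_lit 1579788), (nat_lit 1574999), (nat_lit 1624400), (nat_lit 1624062)]⟩, (nat_lit 5077229), (nat_lit 40753698), (nat_lit 13308223), (nat_lit 12938079), (nat_lit 5), (nat_lit 0), [⟨(nat_lit 0), (nat_lit 95), (nat_lit 31), (nat_lit 100), (nat_lit 215091982)⟩, ⟨(nat_lit 0), (nat_lit 100), (nat_lit 44), (nat_lit 99), (nat_lit 59422787)⟩], [⟨(nat_lit 0), (nat_lit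 100), (nat_lit 44), (nat_lit 94), (nat_lit 30897455)⟩], [⟨(nat_lit 0), (nat_lit 100), (nat_lit 96), (nat_lit 69), (nat_lit 11171474)⟩], [],
 ⟨⟨[(nat_lit 40), (nat_lit 60), (nat_lit 80)], [(nat_lit 0), (nat_lit 1539), (nat_lit 2453)], [((nat_lit 0), (nat_lit 0), (nat_lit 0)), ((nat_lit 1000), (nat_lit 478), (nat_lit 704)), ((nat_lit 1000), (nat_lit 474), (nat_lit 714))], ((nat_lit 45), (nat_lit 100), (nat_lit 78))⟩, (nat_lit 0), (nat_lit 115), (nat_lit 115), (nat_lit 0), (nat_lit 150461), [(nat_lit 1580136760), (nat_lit 1488855929), (nat_lit 1636667600)], [(nat_lit 0), (nat_lit 0), (nat_lit 0)], [(nat_lit 21523500211), (nat_lit 23217743116), (nat_lit 22633965997), (nat_lit 24259817159), (nat_lit 23779607568), (nat_lit 25302394233), (nat_lit 24749262514), (nat_lit 26158682222)], (nat_lit 1271251), (nat_lit 1271251), (nat_lit 1017188), (nat_lit 1440626), (nat_lit 857188), (nat_lit 1768126), [(nat_lit 490000), (nat_lit 780000), (nat_lit 1100000)], [(nat_lit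 2), (nat_lit 44), (nat_lit 345), (nat_lit 125), (nat_lit 15)]⟩,
 ⟨⟨[(nat_lit 80), (nat_lit 140), (nat_lit 180)], [(nat_lit 0), (nat_lit 0), (nat_lit 3656)], [((nat_lit 0), (nat_lit 0), (nat_lit 0)), ((nat_lit 0), (nat_lit 0), (nat_lit 0)), ((nat_lit 637), (nat_lit 1000), (nat_lit 908))], ((nat_lit 100), (nat_lit 81), (nat_lit 77))⟩, (nat_lit 203159), (nat_lit 674), (nat_lit 674), (nat_lit 0), (nat_lit 716043), [(nat_lit 398480000), (nat_lit 836570000), (nat_lit 1194930000)], [], [(nat_lit 4370398954), (nat_lit 3270422023), (nat_lit 3053865910), (nat_lit 3109762277), (nat_lit 4496434828), (nat_lit 3577698646), (nat_lit 5258046676), (nat_lit 4353466612)], (nat_lit 1271251), (nat_lit 1271251), (nat_lit 1017188), (nat_lit 1440626), (nat_lit 0), (nat_lit 2825001), [(nat_lit 1100000), (nat_lit 2127501), (nat_lit 1271251)], [(nat_lit 19), (nat_lit 63), (nat_lit 456), (nat_lit 225), (nat_lit 11)]⟩,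
 ⟨⟨[(nat_lit 100), (nat_lit 140), (nat_lit 180)], [(nat_lit 0), (nat_lit 508), (nat_lit 2854)], [((nat_lit 0), (nat_lit 0), (nat_lit 0)), ((nat_lit 1000), (nat_lit 1000), (nat_lit 198)), ((nat_lit 777), (nat_lit 1000), (nat_lit 712))], ((nat_lit 100), (nat_lit 74), (nat_lit 76))⟩, (nat_lit 51035), (nat_lit 300), (nat_lit 793), (nat_lit 5438816), (nat_lit 895083), [(nat_lit 500000000), (nat_lit 787360000), (nat_lit 1124640000)], [], [(nat_lit 4185773667), (nat_lit 4158884445), (nat_lit 3887886080), (nat_lit 3912990690), (nat_lit 3473910660), (nat_lit 3424800612), (nat_lit 5037614130), (nat_lit 4081322250)], (nat_lit 1271251), (nat_lit 1271251), (nat_lit 857188), (nat_lit 1768126), (nat_lit 0), (nat_lit 2825001), [(nat_lit 1412501), (nat_lit 1271251), (nat_lit 1271251)], [(nat_lit 24), (nat_lit 63), (nat_lit 456), (nat_lit 225), (nat_lit 11)]⟩⟩) (.spl (nat_lit 5) (nat_lit 120) (.spl (nat_lit 4) (nat_lit 200) (.leaf ⟨(nat_lit 880), (nat_lit 25), (nat_lit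 0), (nat_lit 95), (nat_lit 0), (nat_lit 3335), (nat_lit 1460), (nat_lit 1213), (nat_lit 0), (nat_lit 5365), (nat_lit 249550), [((nat_lit 400), [((nat_lit 28), (nat_lit 0), (nat_lit 683)), ((nat_lit 28), (nat_lit 1), (nat_lit 197))])], ⟨(nat_lit 6), false, true, false, (nat_lit 250), (nat_lit 0), (nat_lit 2237), [(nat_lit 1543695), (nat_lit 1548146), (nat_lit 1587391), (nat_lit 1596294), (nat_lit 1659577), (nat_lit 1649997), (nat_lit 1705063), (nat_lit 1699935)]⟩, ⟨(nat_lit 5), false, false, false, (nat_lit 199), (nat_lit 0), (nat_lit 2237), [(nat_lit 1418846), (nat_lit 1433349), (nat_lit 1462542), (nat_lit 1481496), (nat_lit 1521847), (nat_lit 1524073), (nat_lit 1565543), (nat_lit 1572220)]⟩, (nat_lit 5200706), (nat_lit 38919431), (nat_lit 16561765), (nat_lit 11518804), (nat_lit 5), (nat_lit 0), [], [⟨(nat_lit 0), (nat_lit 99), (nat_lit 31), (nat_lit 100), (nat_lit 283225952)⟩], [⟨(nat_lit 0), (nat_lit 100), (nat_lit 97), (nat_lit 49), (nat_lit 137966731)⟩],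 [],
 ⟨⟨[(nat_lit 40), (nat_lit 60), (nat_lit 80)], [(nat_lit 0), (nat_lit 1539), (nat_lit 2453)], [((nat_lit 0), (nat_lit 0), (nat_lit 0)), ((nat_lit 1000), (nat_lit 478), (nat_lit 704)), ((nat_lit 1000), (nat_lit 474), (nat_lit 714))], ((nat_lit 45), (nat_lit 100), (nat_lit 78))⟩, (nat_lit 518), (nat_lit 117), (nat_lit 117), (nat_lit 0), (nat_lit 150461), [(nat_lit 1558280002), (nat_lit 1334845130), (nat_lit 1541568400)], [(nat_lit 0), (nat_lit 0), (nat_lit 0)], [(nat_lit 22868988453), (nat_lit 24161566332), (nat_lit 25348257156), (nat_lit 26484064157), (nat_lit 24038229252), (nat_lit 25205091278), (nat_lit 26276532155), (nat_lit 27286603335)], (nat_lit 1271251), (nat_lit 1271251), (nat_lit 1271251), (nat_lit 1271251), (nat_lit 857188), (nat_lit 1436876), [(nat_lit 490000), (nat_lit 780000), (nat_lit 1100000)], [(nat_lit 2), (nat_lit 44), (nat_lit 260), (nat_lit 50), (nat_lit 10)]⟩,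
 ⟨⟨[(nat_lit 80), (nat_lit 140), (nat_lit 180)], [(nat_lit 0), (nat_lit 0), (nat_lit 3656)], [((nat_lit 0), (nat_lit 0), (nat_lit 0)), ((nat_lit 0), (nat_lit 0), (nat_lit 0)), ((nat_lit 637), (nat_lit 1000), (nat_lit 908))], ((nat_lit 100), (nat_lit 81), (nat_lit 77))⟩, (nat_lit 345186), (nat_lit 655), (nat_lit 655), (nat_lit 0), (nat_lit 716043), [(nat_lit 562560000), (nat_lit 1181040000), (nat_lit 1686960000)], [], [(nat_lit 4354514920), (nat_lit 4426190460), (nat_lit 4415635840), (nat_lit 4532322384), (nat_lit 3420040280), (nat_lit 3474949020), (nat_lit 3414459300), (nat_lit 3506568280)], (nat_lit 1271251), (nat_lit 1271251), (nat_lit 1271251), (nat_lit 1271251), (nat_lit 0), (nat_lit 780000), [(nat_lit 1100000), (nat_lit 2127501), (nat_lit 1271251)], [(nat_lit 19), (nat_lit 63), (nat_lit 401), (nat_lit 175), (nat_lit 9)]⟩,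
 ⟨⟨[(nat_lit 100), (nat_lit 140), (nat_lit 180)], [(nat_lit 0), (nat_lit 508), (nat_lit 2854)], [((nat_lit 0), (nat_lit 0), (nat_lit 0)), ((nat_lit 1000), (nat_lit 1000), (nat_lit 198)), ((nat_lit 777), (nat_lit 1000), (nat_lit 712))], ((nat_lit 100), (nat_lit 74), (nat_lit 76))⟩, (nat_lit 204213), (nat_lit 300), (nat_lit 793), (nat_lit 5937500), (nat_lit 895083), [(nat_lit 593750000), (nat_lit 934990000), (nat_lit 1335510000)], [], [(nat_lit 4798178618), (nat_lit 4772753243), (nat_lit 4561838710), (nat_lit 4526065809), (nat_lit 3846929216), (nat_lit 3817766740), (nat_lit 3621135549), (nat_lit 3581506334)], (nat_lit 1271251), (nat_lit 1271251), (nat_lit 857188), (nat_lit 1436876), (nat_lit 0), (nat_lit 780000), [(nat_lit 1412501), (nat_lit 1271251), (nat_lit 1271251)], [(nat_lit 24), (nat_lit 63), (nat_lit 373), (nat_lit 150), (nat_lit 9)]⟩⟩) (.leaf ⟨(nat_lit 809), (nat_lit 13), (nat_lit 0), (nat_lit 178), (nat_lit 0), (nat_lit 3307), (nat_lit 2327),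 (nat_lit 1987), (nat_lit 0), (nat_lit 47357), (nat_lit 266450), [((nat_lit 400), [((nat_lit 28), (nat_lit 0), (nat_lit 381)), ((nat_lit 28), (nat_lit 1), (nat_lit 428))])], ⟨(nat_lit 6), false, true, false, (nat_lit 250), (nat_lit 0), (nat_lit 2237), [(nat_lit 1543695), (nat_lit 1548146), (nat_lit 1587391), (nat_lit 1596294), (nat_lit 1659577), (nat_lit 1649997), (nat_lit 1705063), (nat_lit 1699935)]⟩, ⟨(nat_lit 5), false, true, false, (nat_lit 229), (nat_lit 0), (nat_lit 2237), [(nat_lit 1521847), (nat_lit 1524073), (nat_lit 1565543), (nat_lit 1572220), (nat_lit 1579788), (nat_lit 1574999), (nat_lit 1624400), (nat_lit 1624062)]⟩, (nat_lit 5386627), (nat_lit 37069381), (nat_lit 15982435), (nat_lit 13948184), (nat_lit 5), (nat_lit 0), [], [], [⟨(nat_lit 0), (nat_lit 100), (nat_lit 97), (nat_lit 49), (nat_lit 209902628)⟩], [⟨(nat_lit 0), (nat_lit 100), (nat_lit 98), (nat_lit 30), (nat_lit 995830)⟩, ⟨(nat_lit 0), (nat_lit 100), (nat_lit 94), (nat_lit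 59), (nat_lit 26142264)⟩],
 ⟨⟨[(nat_lit 40), (nat_lit 60), (nat_lit 80)], [(nat_lit 0), (nat_lit 1539), (nat_lit 2453)], [((nat_lit 0), (nat_lit 0), (nat_lit 0)), ((nat_lit 1000), (nat_lit 478), (nat_lit 704)), ((nat_lit 1000), (nat_lit 474), (nat_lit 714))], ((nat_lit 45), (nat_lit 100), (nat_lit 78))⟩, (nat_lit 0), (nat_lit 105), (nat_lit 105), (nat_lit 0), (nat_lit 150461), [(nat_lit 1536142808), (nat_lit 1256680568), (nat_lit 1504389200)], [(nat_lit 0), (nat_lit 0), (nat_lit 0)], [(nat_lit 24013006449), (nat_lit 25175439834), (nat_lit 26249033190), (nat_lit 27257329838), (nat_lit 24928454620), (nat_lit 26015179332), (nat_lit 27023888842), (nat_lit 28018713430)], (nat_lit 1271251), (nat_lit 1271251), (nat_lit 1271251), (nat_lit 1271251), (nat_lit 1271251), (nat_lit 1271251), [(nat_lit 490000), (nat_lit 780000), (nat_lit 1100000)], [(nat_lit 2), (nat_lit 44), (nat_lit 203), (nat_lit 0), (nat_lit 7)]⟩,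
 ⟨⟨[(nat_lit 80), (nat_lit 140), (nat_lit 180)], [(nat_lit 0), (nat_lit 0), (nat_lit 3656)], [((nat_lit 0), (nat_lit 0), (nat_lit 0)), ((nat_lit 0), (nat_lit 0), (nat_lit 0)), ((nat_lit 637), (nat_lit 1000), (nat_lit 908))], ((nat_lit 100), (nat_lit 81), (nat_lit 77))⟩, (nat_lit 551928), (nat_lit 655), (nat_lit 655), (nat_lit 0), (nat_lit 716043), [(nat_lit 895408000), (nat_lit 1879822000), (nat_lit 2685078000)], [], [(nat_lit 6921087756), (nat_lit 7035123162), (nat_lit 7021860420), (nat_lit 7207338395), (nat_lit 5431271524), (nat_lit 5518592436), (nat_lit 5422006181), (nat_lit 5572304348)], (nat_lit 1271251), (nat_lit 1271251), (nat_lit 1271251), (nat_lit 1271251), (nat_lit 0), (nat_lit 780000), [(nat_lit 1100000), (nat_lit 2127501), (nat_lit 1271251)], [(nat_lit 19), (nat_lit 63), (nat_lit 401), (nat_lit 175), (nat_lit 9)]⟩,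
 ⟨⟨[(nat_lit 100), (nat_lit 140), (nat_lit 180)], [(nat_lit 0), (nat_lit 508), (nat_lit 2854)], [((nat_lit 0), (nat_lit 0), (nat_lit 0)), ((nat_lit 1000), (nat_lit 1000), (nat_lit 198)), ((nat_lit 777), (nat_lit 1000), (nat_lit 712))], ((nat_lit 100), (nat_lit 74), (nat_lit 76))⟩, (nat_lit 382630), (nat_lit 300), (nat_lit 763), (nat_lit 11125000), (nat_lit 895083), [(nat_lit 1112500000), (nat_lit 1751876000), (nat_lit 2502324000)], [], [(nat_lit 9011866243), (nat_lit 8968496723), (nat_lit 8889558407), (nat_lit 8833169096), (nat_lit 7562026063), (nat_lit 7455740749), (nat_lit 7383611978), (nat_lit 7322257558)], (nat_lit 1271251), (nat_lit 1271251), (nat_lit 1271251), (nat_lit 1271251), (nat_lit 0), (nat_lit 780000), [(nat_lit 1412501), (nat_lit 1271251), (nat_lit 1271251)], [(nat_lit 24), (nat_lit 63), (nat_lit 401), (nat_lit 175), (nat_lit 9)]⟩⟩)) (.leaf ⟨(nat_lit 22), (nat_lit 0), (nat_lit 0), (nat_lit 978), (nat_lit 0), (nat_lit 3733), (nat_lit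 8056), (nat_lit 6924), (nat_lit 0), (nat_lit 25764), (nat_lit 88000), [((nat_lit 400), [((nat_lit 43), (nat_lit 5), (nat_lit 22))])], ⟨(nat_lit 6), false, true, false, (nat_lit 250), (nat_lit 0), (nat_lit 2237), [(nat_lit 1543695), (nat_lit 1548146), (nat_lit 1587391), (nat_lit 1596294), (nat_lit 1659577), (nat_lit 1649997), (nat_lit 1705063), (nat_lit 1699935)]⟩, ⟨(nat_lit 5), false, false, false, (nat_lit 210), (nat_lit 0), (nat_lit 2237), [(nat_lit 1418846), (nat_lit 1433349), (nat_lit 1462542), (nat_lit 1481496), (nat_lit 1579788), (nat_lit 1574999), (nat_lit 1624400), (nat_lit 1624062)]⟩, (nat_lit 5273731), (nat_lit 38251138), (nat_lit 16356781), (nat_lit 12392081), (nat_lit 0), (nat_lit 0), [⟨(nat_lit 0), (nat_lit 95), (nat_lit 31), (nat_lit 100), (nat_lit 889574521)⟩], [⟨(nat_lit 0), (nat_lit 99), (nat_lit 31), (nat_lit 100), (nat_lit 1510891522)⟩], [], [],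
 ⟨⟨[(nat_lit 40), (nat_lit 60), (nat_lit 80)], [(nat_lit 0), (nat_lit 1539), (nat_lit 2453)], [((nat_lit 0), (nat_lit 0), (nat_lit 0)), ((nat_lit 1000), (nat_lit 478), (nat_lit 704)), ((nat_lit 1000), (nat_lit 474), (nat_lit 714))], ((nat_lit 45), (nat_lit 100), (nat_lit 78))⟩, (nat_lit 887491), (nat_lit 117), (nat_lit 117), (nat_lit 0), (nat_lit 150461), [(nat_lit 1823484011), (nat_lit 2973973182), (nat_lit 3969858400)], [(nat_lit 0), (nat_lit 0), (nat_lit 0)], [(nat_lit 22968259648), (nat_lit 24334229772), (nat_lit 25556690408), (nat_lit 27004247669), (nat_lit 25028460808), (nat_lit 26220396683), (nat_lit 27250726216), (nat_lit 28455572170)], (nat_lit 1271251), (nat_lit 1271251), (nat_lit 1271251), (nat_lit 1271251), (nat_lit 857188), (nat_lit 1768126), [(nat_lit 490000), (nat_lit 780000), (nat_lit 1100000)], [(nat_lit 2), (nat_lit 44), (nat_lit 272), (nat_lit 60), (nat_lit 11)]⟩,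
 ⟨⟨[(nat_lit 80), (nat_lit 140), (nat_lit 180)], [(nat_lit 0), (nat_lit 0), (nat_lit 3656)], [((nat_lit 0), (nat_lit 0), (nat_lit 0)), ((nat_lit 0), (nat_lit 0), (nat_lit 0)), ((nat_lit 637), (nat_lit 1000), (nat_lit 908))], ((nat_lit 100), (nat_lit 81), (nat_lit 77))⟩, (nat_lit 1911996), (nat_lit 570), (nat_lit 570), (nat_lit 0), (nat_lit 716043), [(nat_lit 4584864000), (nat_lit 9625476000), (nat_lit 13748724000)], [], [(nat_lit 37485751950), (nat_lit 38510154597), (nat_lit 38692326458), (nat_lit 39480715124), (nat_lit 58750412752), (nat_lit 51770243216), (nat_lit 44790073680), (nat_lit 41185171744)], (nat_lit 1271251), (nat_lit 1271251), (nat_lit 1271251), (nat_lit 1271251), (nat_lit 780000), (nat_lit 3072501), [(nat_lit 1100000), (nat_lit 2127501), (nat_lit 1271251)], [(nat_lit 19), (nat_lit 63), (nat_lit 483), (nat_lit 250), (nat_lit 11)]⟩,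
 ⟨⟨[(nat_lit 100), (nat_lit 140), (nat_lit 180)], [(nat_lit 0), (nat_lit 508), (nat_lit 2854)], [((nat_lit 0), (nat_lit 0), (nat_lit 0)), ((nat_lit 1000), (nat_lit 1000), (nat_lit 198)), ((nat_lit 777), (nat_lit 1000), (nat_lit 712))], ((nat_lit 100), (nat_lit 74), (nat_lit 76))⟩, (nat_lit 2102315), (nat_lit 300), (nat_lit 678), (nat_lit 61125000), (nat_lit 895083), [(nat_lit 6112500000), (nat_lit 9625476000), (nat_lit 13748724000)], [], [(nat_lit 55212589324), (nat_lit 55159153356), (nat_lit 53942699306), (nat_lit 53803242291), (nat_lit 54634969320), (nat_lit 54303894351), (nat_lit 61123718268), (nat_lit 55049071500)], (nat_lit 1271251), (nat_lit 1271251), (nat_lit 857188), (nat_lit 1768126), (nat_lit 780000), (nat_lit 3072501), [(nat_lit 1412501), (nat_lit 1271251), (nat_lit 1271251)], [(nat_lit 24), (nat_lit 63), (nat_lit 456), (nat_lit 225), (nat_lit 10)]⟩⟩)))) (.ord (.trZ (nat_lit 0) (nat_lit 1) (nat_lit 3) (nat_lit 96) (nat_lit 44) (nat_lit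 100) (nat_lit 170) (.trZ (nat_lit 0) (nat_lit 2) (nat_lit 4) (nat_lit 96) (nat_lit 44) (nat_lit 100) (nat_lit 170) (.trZ (nat_lit 1) (nat_lit 2) (nat_lit 5) (nat_lit 100) (nat_lit 100) (nat_lit 60) (nat_lit 30) (.leaf ⟨(nat_lit 23), (nat_lit 236), (nat_lit 0), (nat_lit 741), (nat_lit 0), (nat_lit 3883), (nat_lit 5560), (nat_lit 7323), (nat_lit 0), (nat_lit 514902580024), (nat_lit 92000), [((nat_lit 400), [((nat_lit 43), (nat_lit 5), (nat_lit 23))])], ⟨(nat_lit 6), false, false, false, (nat_lit 246), (nat_lit 0), (nat_lit 2237), [(nat_lit 1521399), (nat_lit 1533338), (nat_lit 1543247), (nat_lit 1557412), (nat_lit 1682352), (nat_lit 1674999), (nat_lit 1705063), (nat_lit 1699935)]⟩, ⟨(nat_lit 6), false, false, false, (nat_lit 235), (nat_lit 0), (nat_lit 2237), [(nat_lit 1521399), (nat_lit 1533338), (nat_lit 1543247), (nat_lit 1557412), (nat_lit 1624400), (nat_lit 1624062), (nat_lit 1646249), (nat_lit 1648136)]⟩, (nat_lit 5399364), (nat_lit 36961344),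 (nat_lit 15573459), (nat_lit 14465197), (nat_lit 6), (nat_lit 0), [⟨(nat_lit 0), (nat_lit 94), (nat_lit 31), (nat_lit 100), (nat_lit 672815960)⟩], [⟨(nat_lit 0), (nat_lit 94), (nat_lit 31), (nat_lit 100), (nat_lit 1224363043)⟩], [], [],
 ⟨⟨[(nat_lit 40), (nat_lit 60), (nat_lit 80)], [(nat_lit 0), (nat_lit 1539), (nat_lit 2453)], [((nat_lit 0), (nat_lit 0), (nat_lit 0)), ((nat_lit 1000), (nat_lit 478), (nat_lit 704)), ((nat_lit 1000), (nat_lit 474), (nat_lit 714))], ((nat_lit 45), (nat_lit 100), (nat_lit 78))⟩, (nat_lit 1116764), (nat_lit 138), (nat_lit 138), (nat_lit 0), (nat_lit 272759), [(nat_lit 1821966016), (nat_lit 3071964601), (nat_lit 3937215600)], [(nat_lit 0), (nat_lit 0), (nat_lit 0)], [(nat_lit 22305258892), (nat_lit 24039659195), (nat_lit 25934392057), (nat_lit 27331764443), (nat_lit 24211856464), (nat_lit 25738933577), (nat_lit 27373023449), (nat_lit 28609395670)], (nat_lit 1271251), (nat_lit 1271251), (nat_lit 1184688), (nat_lit 2136876),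 (nat_lit 1184688), (nat_lit 1790626), [(nat_lit 490000), (nat_lit 780000), (nat_lit 1100000)], [(nat_lit 2), (nat_lit 44), (nat_lit 203), (nat_lit 0), (nat_lit 7)]⟩,
 ⟨⟨[(nat_lit 80), (nat_lit 120), (nat_lit 160)], [(nat_lit 0), (nat_lit 528), (nat_lit 2577)], [((nat_lit 0), (nat_lit 0), (nat_lit 0)), ((nat_lit 1000), (nat_lit 959), (nat_lit 206)), ((nat_lit 929), (nat_lit 1000), (nat_lit 742))], ((nat_lit 100), (nat_lit 90), (nat_lit 79))⟩, (nat_lit 8294505), (nat_lit 836), (nat_lit 836), (nat_lit 0), (nat_lit 1261207), [(nat_lit 4580176000), (nat_lit 7784736000), (nat_lit 11598944000)], [], [(nat_lit 34489481158), (nat_lit 35072529660), (nat_lit 36513452217), (nat_lit 36974585661), (nat_lit 38906193278), (nat_lit 38551008243), (nat_lit 50426332352), (nat_lit 48047047112)], (nat_lit 1271251), (nat_lit 1271251), (nat_lit 1184688), (nat_lit 2136876), (nat_lit 169688), (nat_lit 2886876), [(nat_lit 1100000), (nat_lit 1785001), (nat_lit 1271251)], [(nat_lit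 18), (nat_lit 59), (nat_lit 483), (nat_lit 250), (nat_lit 12)]⟩,
 ⟨⟨[(nat_lit 80), (nat_lit 120), (nat_lit 160)], [(nat_lit 0), (nat_lit 528), (nat_lit 2577)], [((nat_lit 0), (nat_lit 0), (nat_lit 0)), ((nat_lit 1000), (nat_lit 959), (nat_lit 206)), ((nat_lit 929), (nat_lit 1000), (nat_lit 742))], ((nat_lit 100), (nat_lit 90), (nat_lit 79))⟩, (nat_lit 1313591), (nat_lit 300), (nat_lit 836), (nat_lit 43422600), (nat_lit 1261207), [(nat_lit 3473808000), (nat_lit 5904288000), (nat_lit 8797152000)], [], [(nat_lit 31981440785), (nat_lit 31912961595), (nat_lit 31042338965), (nat_lit 31068307206), (nat_lit 32495009038), (nat_lit 29252412099), (nat_lit 40726342671), (nat_lit 37554319314)], (nat_lit 1271251), (nat_lit 1271251), (nat_lit 1184688), (nat_lit 1790626), (nat_lit 169688), (nat_lit 2886876), [(nat_lit 1100000), (nat_lit 1785001), (nat_lit 1271251)], [(nat_lit 18), (nat_lit 59), (nat_lit 483), (nat_lit 250), (nat_lit 12)]⟩⟩))))))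
noncomputable def c14_130 : Tr Lf :=
 (.trZ (nat_lit 0) (nat_lit 1) (nat_lit 3) (nat_lit 92) (nat_lit 44) (nat_lit 100) (nat_lit 190) (.trZ (nat_lit 1) (nat_lit 2) (nat_lit 5) (nat_lit 100) (nat_lit 92) (nat_lit 49) (nat_lit 20) (.spl (nat_lit 6) (nat_lit 36) (.leaf ⟨(nat_lit 27), (nat_lit 449), (nat_lit 0), (nat_lit 524), (nat_lit 0), (nat_lit 3653), (nat_lit 8016), (nat_lit 5292), (nat_lit 0), (nat_lit 0), (nat_lit 90000), [((nat_lit 400), [((nat_lit 27), (nat_lit 2), (nat_lit 6)), ((nat_lit 43), (nat_lit 5), (nat_lit 21))])], ⟨(nat_lit 7), false, true, false, (nat_lit 265), (nat_lit 0), (nat_lit 2237), [(nat_lit 1572676), (nat_lit 1583333), (nat_lit 1616372), (nat_lit 1631480), (nat_lit 1705063), (nat_lit 1699935), (nat_lit 1748802), (nat_lit 1748125)]⟩, ⟨(nat_lit 5), false, false, false, (nat_lit 215), (nat_lit 0), (nat_lit 2237), [(nat_lit 1418846), (nat_lit 1433349), (nat_lit 1484390), (nat_lit 1505570), (nat_lit 1579788), (nat_lit 1574999),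 (nat_lit 1646249), (nat_lit 1648136)]⟩, (nat_lit 5365957), (nat_lit 36895796), (nat_lit 17607960), (nat_lit 12496244), (nat_lit 5), (nat_lit 0), [⟨(nat_lit 0), (nat_lit 88), (nat_lit 32), (nat_lit 100), (nat_lit 1026478061)⟩], [⟨(nat_lit 0), (nat_lit 97), (nat_lit 31), (nat_lit 100), (nat_lit 710199714)⟩], [], [],
 ⟨⟨[(nat_lit 40), (nat_lit 60)], [(nat_lit 0), (nat_lit 1539)], [((nat_lit 0), (nat_lit 0), (nat_lit 0)), ((nat_lit 1000), (nat_lit 478), (nat_lit 704))], ((nat_lit 50), (nat_lit 100), (nat_lit 66))⟩, (nat_lit 4092774), (nat_lit 137), (nat_lit 137), (nat_lit 0), (nat_lit 286545), [(nat_lit 1818406001), (nat_lit 2823963600)], [(nat_lit 0), (nat_lit 0)], [(nat_lit 22650785550), (nat_lit 24080252860), (nat_lit 25581504241), (nat_lit 26899688169), (nat_lit 24914615941), (nat_lit 26113820940), (nat_lit 27354775986), (nat_lit 28374720643)], (nat_lit 1271251), (nat_lit 1271251), (nat_lit 1271251), (nat_lit 1271251), (nat_lit 857188), (nat_lit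 1768126), [(nat_lit 490000), (nat_lit 780000)], [(nat_lit 1), (nat_lit 38), (nat_lit 203), (nat_lit 0), (nat_lit 9)]⟩,
 ⟨⟨[(nat_lit 60), (nat_lit 100), (nat_lit 120)], [(nat_lit 0), (nat_lit 0), (nat_lit 1164)], [((nat_lit 0), (nat_lit 0), (nat_lit 0)), ((nat_lit 0), (nat_lit 0), (nat_lit 0)), ((nat_lit 1000), (nat_lit 933), (nat_lit 572))], ((nat_lit 93), (nat_lit 100), (nat_lit 58))⟩, (nat_lit 3624403), (nat_lit 630), (nat_lit 630), (nat_lit 0), (nat_lit 1129958), [(nat_lit 3193386000), (nat_lit 6081250000), (nat_lit 7752864000)], [], [(nat_lit 29548778829), (nat_lit 30826371227), (nat_lit 31071773811), (nat_lit 32060521175), (nat_lit 35797261484), (nat_lit 33552316292), (nat_lit 33694111998), (nat_lit 35205418442)], (nat_lit 1271251), (nat_lit 1271251), (nat_lit 1271251), (nat_lit 1271251), (nat_lit 111251), (nat_lit 2866250), [(nat_lit 780000), (nat_lit 1435001), (nat_lit 1271251)], [(nat_lit 10), (nat_lit 54), (nat_lit 401), (nat_lit 175), (nat_lit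 13)]⟩,
 ⟨⟨[(nat_lit 100), (nat_lit 140), (nat_lit 160)], [(nat_lit 0), (nat_lit 508), (nat_lit 1689)], [((nat_lit 0), (nat_lit 0), (nat_lit 0)), ((nat_lit 1000), (nat_lit 1000), (nat_lit 198)), ((nat_lit 811), (nat_lit 1000), (nat_lit 671))], ((nat_lit 100), (nat_lit 88), (nat_lit 58))⟩, (nat_lit 2066931), (nat_lit 300), (nat_lit 1150), (nat_lit 32750000), (nat_lit 1848459), [(nat_lit 3275000000), (nat_lit 5157208000), (nat_lit 6220928000)], [], [(nat_lit 25000754657), (nat_lit 24683678554), (nat_lit 23582422583), (nat_lit 23228719730), (nat_lit 23479139704), (nat_lit 20858519137), (nat_lit 31565071180), (nat_lit 24629952808)], (nat_lit 1271251), (nat_lit 1271251), (nat_lit 857188), (nat_lit 1768126), (nat_lit 111251), (nat_lit 2866250), [(nat_lit 1412501), (nat_lit 1271251), (nat_lit 1271251)], [(nat_lit 23), (nat_lit 62), (nat_lit 483), (nat_lit 250), (nat_lit 12)]⟩⟩) (.leaf ⟨(nat_lit 22), (nat_lit 418), (nat_lit 0), (nat_lit 560), (nat_lit 0),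 (nat_lit 4048), (nat_lit 9348), (nat_lit 5878), (nat_lit 0), (nat_lit 0), (nat_lit 88000), [((nat_lit 400), [((nat_lit 43), (nat_lit 5), (nat_lit 22))])], ⟨(nat_lit 7), false, true, false, (nat_lit 265), (nat_lit 0), (nat_lit 2237), [(nat_lit 1572676), (nat_lit 1583333), (nat_lit 1616372), (nat_lit 1631480), (nat_lit 1705063), (nat_lit 1699935), (nat_lit 1748802), (nat_lit 1748125)]⟩, ⟨(nat_lit 5), false, false, false, (nat_lit 215), (nat_lit 0), (nat_lit 2237), [(nat_lit 1418846), (nat_lit 1433349), (nat_lit 1484390), (nat_lit 1505570), (nat_lit 1579788), (nat_lit 1574999), (nat_lit 1646249), (nat_lit 1648136)]⟩, (nat_lit 5365957), (nat_lit 36895796), (nat_lit 17607960), (nat_lit 12496244), (nat_lit 5), (nat_lit 0), [⟨(nat_lit 0), (nat_lit 88), (nat_lit 32), (nat_lit 100), (nat_lit 1084305795)⟩], [⟨(nat_lit 0), (nat_lit 97), (nat_lit 31), (nat_lit 100), (nat_lit 822060327)⟩], [], [],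
 ⟨⟨[(nat_lit 40), (nat_lit 60), (nat_lit 80)], [(nat_lit 0), (nat_lit 1539), (nat_lit 2453)], [((nat_lit 0), (nat_lit 0), (nat_lit 0)), ((nat_lit 1000), (nat_lit 478), (nat_lit 704)), ((nat_lit 1000), (nat_lit 474), (nat_lit 714))], ((nat_lit 45), (nat_lit 100), (nat_lit 78))⟩, (nat_lit 658391), (nat_lit 125), (nat_lit 125), (nat_lit 0), (nat_lit 182887), [(nat_lit 1823484493), (nat_lit 2838757726), (nat_lit 3969858400)], [(nat_lit 0), (nat_lit 0), (nat_lit 0)], [(nat_lit 23273158447), (nat_lit 24567169235), (nat_lit 25906860945), (nat_lit 27415950700), (nat_lit 25199311272), (nat_lit 26338537615), (nat_lit 27517415444), (nat_lit 28778601520)], (nat_lit 1271251), (nat_lit 1271251), (nat_lit 1271251), (nat_lit 1271251), (nat_lit 857188), (nat_lit 1768126), [(nat_lit 490000), (nat_lit 780000), (nat_lit 1100000)], [(nat_lit 2), (nat_lit 44), (nat_lit 272), (nat_lit 60), (nat_lit 11)]⟩,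
 ⟨⟨[(nat_lit 60), (nat_lit 120), (nat_lit 160)], [(nat_lit 0), (nat_lit 0), (nat_lit 3243)], [((nat_lit 0), (nat_lit 0), (nat_lit 0)), ((nat_lit 0), (nat_lit 0), (nat_lit 0)), ((nat_lit 878), (nat_lit 1000), (nat_lit 945))], ((nat_lit 100), (nat_lit 99), (nat_lit 82))⟩, (nat_lit 1923818), (nat_lit 536), (nat_lit 536), (nat_lit 0), (nat_lit 639861), [(nat_lit 3209796000), (nat_lit 7792704000), (nat_lit 11610816000)], [], [(nat_lit 31223842817), (nat_lit 32618058655), (nat_lit 32588459087), (nat_lit 33971974764), (nat_lit 41903654442), (nat_lit 35279667324), (nat_lit 35271652512), (nat_lit 36871409700)], (nat_lit 1271251), (nat_lit 1271251), (nat_lit 1271251), (nat_lit 1271251), (nat_lit 111251), (nat_lit 2866250), [(nat_lit 780000), (nat_lit 1762501), (nat_lit 1271251)], [(nat_lit 12), (nat_lit 59), (nat_lit 483), (nat_lit 250), (nat_lit 12)]⟩,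
 ⟨⟨[(nat_lit 100), (nat_lit 140), (nat_lit 180)], [(nat_lit 0), (nat_lit 508), (nat_lit 2854)], [((nat_lit 0), (nat_lit 0), (nat_lit 0)), ((nat_lit 1000), (nat_lit 1000), (nat_lit 198)), ((nat_lit 777), (nat_lit 1000), (nat_lit 712))], ((nat_lit 100), (nat_lit 74), (nat_lit 76))⟩, (nat_lit 1203779), (nat_lit 300), (nat_lit 866), (nat_lit 35000002), (nat_lit 1110797), [(nat_lit 3500000000), (nat_lit 5511520000), (nat_lit 7872480000)], [], [(nat_lit 29859260874), (nat_lit 29489214716), (nat_lit 28112387843), (nat_lit 27653406253), (nat_lit 25157153412), (nat_lit 24546083523), (nat_lit 34058215134), (nat_lit 26355149036)], (nat_lit 1271251), (nat_lit 1271251), (nat_lit 857188), (nat_lit 1768126), (nat_lit 111251), (nat_lit 2866250), [(nat_lit 1412501), (nat_lit 1271251), (nat_lit 1271251)], [(nat_lit 24), (nat_lit 63), (nat_lit 483), (nat_lit 250), (nat_lit 11)]⟩⟩))))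
noncomputable def c14_131 : Tr Lf :=
 (.spl (nat_lit 2) (nat_lit 240) (.trX (nat_lit 4) (nat_lit 0) (nat_lit 2) (nat_lit 44) (nat_lit 81) (nat_lit 100) (nat_lit 330) (.spl (nat_lit 3) (nat_lit 200) (.spl (nat_lit 1) (nat_lit 260) (.leaf ⟨(nat_lit 914), (nat_lit 0), (nat_lit 0), (nat_lit 86), (nat_lit 0), (nat_lit 3142), (nat_lit 820), (nat_lit 837), (nat_lit 0), (nat_lit 0), (nat_lit 365600), [((nat_lit 400), [((nat_lit 27), (nat_lit 1), (nat_lit 914))])], ⟨(nat_lit 6), false, false, false, (nat_lit 209), (nat_lit 0), (nat_lit 2237), [(nat_lit 1470123), (nat_lit 1483344), (nat_lit 1491970), (nat_lit 1507417), (nat_lit 1543695), (nat_lit 1548146), (nat_lit 1565543), (nat_lit 1572220)]⟩, ⟨(nat_lit 6), false, true, true, (nat_lit 260), (nat_lit 0), (nat_lit 2237), [(nat_lit 1579788), (nat_lit 1574999), (nat_lit 1602531), (nat_lit 1599967), (nat_lit 1708068), (nat_lit 1687494), (nat_lit 1730844), (nat_lit 1712494)]⟩, (nat_lit 5311713), (nat_lit 37587211),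 (nat_lit 12159366), (nat_lit 17253423), (nat_lit 0), (nat_lit 0), [⟨(nat_lit 0), (nat_lit 100), (nat_lit 44), (nat_lit 99), (nat_lit 93767578)⟩], [⟨(nat_lit 1), (nat_lit 81), (nat_lit 44), (nat_lit 100), (nat_lit 277989975)⟩], [⟨(nat_lit 0), (nat_lit 100), (nat_lit 97), (nat_lit 49), (nat_lit 40044159)⟩], [],
 ⟨⟨[(nat_lit 40), (nat_lit 60)], [(nat_lit 0), (nat_lit 1539)], [((nat_lit 0), (nat_lit 0), (nat_lit 0)), ((nat_lit 1000), (nat_lit 478), (nat_lit 704))], ((nat_lit 50), (nat_lit 100), (nat_lit 66))⟩, (nat_lit 0), (nat_lit 131), (nat_lit 131), (nat_lit 0), (nat_lit 245798), [(nat_lit 1429840801), (nat_lit 578753600)], [(nat_lit 0), (nat_lit 0)], [(nat_lit 23778631295), (nat_lit 24965967325), (nat_lit 24773937566), (nat_lit 25876293503), (nat_lit 27147464196), (nat_lit 28302373832), (nat_lit 27908038881), (nat_lit 28959586486)], (nat_lit 1271251), (nat_lit 1271251), (nat_lit 1017188), (nat_lit 1440626), (nat_lit 1271251), (nat_lit 1271251), [(nat_lit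 490000), (nat_lit 780000)], [(nat_lit 1), (nat_lit 38), (nat_lit 203), (nat_lit 0), (nat_lit 9)]⟩,
 ⟨⟨[(nat_lit 80), (nat_lit 120), (nat_lit 140)], [(nat_lit 0), (nat_lit 0), (nat_lit 1164)], [((nat_lit 0), (nat_lit 0), (nat_lit 0)), ((nat_lit 0), (nat_lit 0), (nat_lit 0)), ((nat_lit 941), (nat_lit 1000), (nat_lit 576))], ((nat_lit 100), (nat_lit 94), (nat_lit 58))⟩, (nat_lit 87843), (nat_lit 828), (nat_lit 828), (nat_lit 0), (nat_lit 1326109), [(nat_lit 403168000), (nat_lit 685248000), (nat_lit 846412000)], [], [(nat_lit 3997811810), (nat_lit 3565828533), (nat_lit 3321234248), (nat_lit 3333367863), (nat_lit 3912609010), (nat_lit 3556289695), (nat_lit 4554656632), (nat_lit 4203754852)], (nat_lit 1271251), (nat_lit 1271251), (nat_lit 1017188), (nat_lit 1440626), (nat_lit 0), (nat_lit 2825001), [(nat_lit 1100000), (nat_lit 1785001), (nat_lit 1271251)], [(nat_lit 17), (nat_lit 58), (nat_lit 456), (nat_lit 225), (nat_lit 13)]⟩,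
 ⟨⟨[(nat_lit 100), (nat_lit 140), (nat_lit 160)], [(nat_lit 0), (nat_lit 508), (nat_lit 1689)], [((nat_lit 0), (nat_lit 0), (nat_lit 0)), ((nat_lit 1000), (nat_lit 1000), (nat_lit 198)), ((nat_lit 811), (nat_lit 1000), (nat_lit 671))], ((nat_lit 100), (nat_lit 88), (nat_lit 58))⟩, (nat_lit 184866), (nat_lit 300), (nat_lit 989), (nat_lit 5375001), (nat_lit 1572732), [(nat_lit 537500000), (nat_lit 846412000), (nat_lit 1020992000)], [], [(nat_lit 4139796225), (nat_lit 4101848256), (nat_lit 4087634109), (nat_lit 4051305709), (nat_lit 3327850700), (nat_lit 3297724140), (nat_lit 3351828895), (nat_lit 3324524795)], (nat_lit 1271251), (nat_lit 1271251), (nat_lit 1271251), (nat_lit 1271251), (nat_lit 0), (nat_lit 2825001), [(nat_lit 1412501), (nat_lit 1271251), (nat_lit 1271251)], [(nat_lit 23), (nat_lit 62), (nat_lit 483), (nat_lit 250), (nat_lit 12)]⟩⟩) (.trZ (nat_lit 0) (nat_lit 1) (nat_lit 3) (nat_lit 96) (nat_lit 44) (nat_lit 100) (nat_lit 170) (.trZ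 (nat_lit 1) (nat_lit 2) (nat_lit 5) (nat_lit 100) (nat_lit 96) (nat_lit 40) (nat_lit 10) (.leaf ⟨(nat_lit 22), (nat_lit 491), (nat_lit 0), (nat_lit 487), (nat_lit 0), (nat_lit 3644), (nat_lit 6596), (nat_lit 4972), (nat_lit 0), (nat_lit 0), (nat_lit 88000), [((nat_lit 400), [((nat_lit 43), (nat_lit 5), (nat_lit 22))])], ⟨(nat_lit 6), false, false, false, (nat_lit 224), (nat_lit 0), (nat_lit 2237), [(nat_lit 1521399), (nat_lit 1533338), (nat_lit 1543247), (nat_lit 1557412), (nat_lit 1565543), (nat_lit 1572220), (nat_lit 1587391), (nat_lit 1596294)]⟩, ⟨(nat_lit 6), false, true, true, (nat_lit 260), (nat_lit 0), (nat_lit 2237), [(nat_lit 1579788), (nat_lit 1574999), (nat_lit 1602531), (nat_lit 1599967), (nat_lit 1708068), (nat_lit 1687494), (nat_lit 1730844), (nat_lit 1712494)]⟩, (nat_lit 5399054), (nat_lit 36723361), (nat_lit 13322778), (nat_lit 16953861), (nat_lit 6), (nat_lit 0), [⟨(nat_lit 0), (nat_lit 96), (nat_lit 44), (nat_lit 100), (nat_lit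 1748972470)⟩], [⟨(nat_lit 1), (nat_lit 81), (nat_lit 44), (nat_lit 100), (nat_lit 35235240)⟩], [⟨(nat_lit 0), (nat_lit 100), (nat_lit 96), (nat_lit 40), (nat_lit 43842042)⟩], [],
 ⟨⟨[(nat_lit 40), (nat_lit 60)], [(nat_lit 0), (nat_lit 1539)], [((nat_lit 0), (nat_lit 0), (nat_lit 0)), ((nat_lit 1000), (nat_lit 478), (nat_lit 704))], ((nat_lit 50), (nat_lit 100), (nat_lit 66))⟩, (nat_lit 724419), (nat_lit 129), (nat_lit 129), (nat_lit 0), (nat_lit 255502), [(nat_lit 1823484001), (nat_lit 2838752800)], [(nat_lit 0), (nat_lit 0)], [(nat_lit 24495864702), (nat_lit 25732392409), (nat_lit 25167970369), (nat_lit 26346416203), (nat_lit 27919905328), (nat_lit 29119493852), (nat_lit 28436066237), (nat_lit 29579355811)], (nat_lit 1271251), (nat_lit 1271251), (nat_lit 1184688), (nat_lit 1444376), (nat_lit 1271251), (nat_lit 1271251), [(nat_lit 490000), (nat_lit 780000)], [(nat_lit 1), (nat_lit 38), (nat_lit 203), (nat_lit 0), (nat_lit 8)]⟩,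
 ⟨⟨[(nat_lit 80), (nat_lit 120), (nat_lit 140)], [(nat_lit 0), (nat_lit 528), (nat_lit 1572)], [((nat_lit 0), (nat_lit 0), (nat_lit 0)), ((nat_lit 1000), (nat_lit 959), (nat_lit 206)), ((nat_lit 966), (nat_lit 1000), (nat_lit 679))], ((nat_lit 100), (nat_lit 100), (nat_lit 60))⟩, (nat_lit 9483991), (nat_lit 745), (nat_lit 745), (nat_lit 0), (nat_lit 1183895), [(nat_lit 4584864000), (nat_lit 7792704000), (nat_lit 9625476000)], [], [(nat_lit 31890526004), (nat_lit 30127114612), (nat_lit 29941544730), (nat_lit 30532474329), (nat_lit 37191757845), (nat_lit 34271073780), (nat_lit 40691860960), (nat_lit 37798420024)], (nat_lit 1271251), (nat_lit 1271251), (nat_lit 1184688), (nat_lit 1444376), (nat_lit 54688), (nat_lit 2845626), [(nat_lit 1100000), (nat_lit 1785001), (nat_lit 1271251)], [(nat_lit 17), (nat_lit 58), (nat_lit 456), (nat_lit 225), (nat_lit 13)]⟩,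
 ⟨⟨[(nat_lit 100), (nat_lit 140), (nat_lit 160)], [(nat_lit 0), (nat_lit 508), (nat_lit 1689)], [((nat_lit 0), (nat_lit 0), (nat_lit 0)), ((nat_lit 1000), (nat_lit 1000), (nat_lit 198)), ((nat_lit 811), (nat_lit 1000), (nat_lit 671))], ((nat_lit 100), (nat_lit 88), (nat_lit 58))⟩, (nat_lit 1046858), (nat_lit 300), (nat_lit 1011), (nat_lit 30437501), (nat_lit 1640748), [(nat_lit 3043750000), (nat_lit 4793054000), (nat_lit 5781664000)], [], [(nat_lit 21968762702), (nat_lit 21773206786), (nat_lit 22000901693), (nat_lit 21822464914), (nat_lit 18155975121), (nat_lit 18034528648), (nat_lit 18558838526), (nat_lit 18394468485)], (nat_lit 1271251), (nat_lit 1271251), (nat_lit 1271251), (nat_lit 1271251), (nat_lit 54688), (nat_lit 2845626), [(nat_lit 1412501), (nat_lit 1271251), (nat_lit 1271251)], [(nat_lit 23), (nat_lit 62), (nat_lit 483), (nat_lit 250), (nat_lit 12)]⟩⟩)))) (.leaf ⟨(nat_lit 890), (nat_lit 8), (nat_lit 0), (nat_lit 102), (nat_lit 0), (nat_lit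 3179), (nat_lit 1226), (nat_lit 1045), (nat_lit 0), (nat_lit 0), (nat_lit 388600), [((nat_lit 400), [((nat_lit 27), (nat_lit 1), (nat_lit 727)), ((nat_lit 43), (nat_lit 2), (nat_lit 163))])], ⟨(nat_lit 6), false, true, false, (nat_lit 250), (nat_lit 0), (nat_lit 2237), [(nat_lit 1543695), (nat_lit 1548146), (nat_lit 1587391), (nat_lit 1596294), (nat_lit 1659577), (nat_lit 1649997), (nat_lit 1705063), (nat_lit 1699935)]⟩, ⟨(nat_lit 6), false, true, true, (nat_lit 260), (nat_lit 0), (nat_lit 2237), [(nat_lit 1579788), (nat_lit 1574999), (nat_lit 1602531), (nat_lit 1599967), (nat_lit 1708068), (nat_lit 1687494), (nat_lit 1730844), (nat_lit 1712494)]⟩, (nat_lit 5524564), (nat_lit 35218673), (nat_lit 15367906), (nat_lit 16413421), (nat_lit 6), (nat_lit 0), [], [⟨(nat_lit 1), (nat_lit 90), (nat_lit 32), (nat_lit 100), (nat_lit 350236730)⟩], [], [⟨(nat_lit 0), (nat_lit 92), (nat_lit 100), (nat_lit 61), (nat_lit 48603513)⟩],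
 ⟨⟨[(nat_lit 40), (nat_lit 60)], [(nat_lit 0), (nat_lit 1539)], [((nat_lit 0), (nat_lit 0), (nat_lit 0)), ((nat_lit 1000), (nat_lit 478), (nat_lit 704))], ((nat_lit 50), (nat_lit 100), (nat_lit 66))⟩, (nat_lit 1619), (nat_lit 126), (nat_lit 126), (nat_lit 0), (nat_lit 255571), [(nat_lit 1438986506), (nat_lit 493647200)], [(nat_lit 0), (nat_lit 0)], [(nat_lit 24743376312), (nat_lit 25851340468), (nat_lit 26923274016), (nat_lit 27887450710), (nat_lit 27926362706), (nat_lit 29005266695), (nat_lit 29816864212), (nat_lit 30752636752)], (nat_lit 1271251), (nat_lit 1271251), (nat_lit 1271251), (nat_lit 1271251), (nat_lit 1271251), (nat_lit 1271251), [(nat_lit 490000), (nat_lit 780000)], [(nat_lit 1), (nat_lit 38), (nat_lit 203), (nat_lit 0), (nat_lit 8)]⟩,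
 ⟨⟨[(nat_lit 80), (nat_lit 120), (nat_lit 140)], [(nat_lit 0), (nat_lit 0), (nat_lit 1164)], [((nat_lit 0), (nat_lit 0), (nat_lit 0)), ((nat_lit 0), (nat_lit 0), (nat_lit 0)), ((nat_lit 941), (nat_lit 1000), (nat_lit 576))], ((nat_lit 100), (nat_lit 94), (nat_lit 58))⟩, (nat_lit 422564), (nat_lit 809), (nat_lit 809), (nat_lit 0), (nat_lit 1332291), [(nat_lit 515680000), (nat_lit 876480000), (nat_lit 1082620000)], [], [(nat_lit 3812954280), (nat_lit 3304556664), (nat_lit 3306344480), (nat_lit 3449634474), (nat_lit 4800794316), (nat_lit 3930783866), (nat_lit 3966266720), (nat_lit 4157111542)], (nat_lit 1271251), (nat_lit 1271251), (nat_lit 1271251), (nat_lit 1271251), (nat_lit 0), (nat_lit 2825001), [(nat_lit 1100000), (nat_lit 1785001), (nat_lit 1271251)], [(nat_lit 17), (nat_lit 58), (nat_lit 483), (nat_lit 250), (nat_lit 14)]⟩,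
 ⟨⟨[(nat_lit 100), (nat_lit 140), (nat_lit 160)], [(nat_lit 0), (nat_lit 508), (nat_lit 1689)], [((nat_lit 0), (nat_lit 0), (nat_lit 0)), ((nat_lit 1000), (nat_lit 1000), (nat_lit 198)), ((nat_lit 811), (nat_lit 1000), (nat_lit 671))], ((nat_lit 100), (nat_lit 88), (nat_lit 58))⟩, (nat_lit 220865), (nat_lit 300), (nat_lit 1019), (nat_lit 6375000), (nat_lit 1641098), [(nat_lit 637500000), (nat_lit 1003884000), (nat_lit 1210944000)], [], [(nat_lit 4648637040), (nat_lit 4607354284), (nat_lit 4665545329), (nat_lit 4627821229), (nat_lit 3796405423), (nat_lit 3770754188), (nat_lit 3880461031), (nat_lit 3856837878)], (nat_lit 1271251), (nat_lit 1271251), (nat_lit 1271251), (nat_lit 1271251), (nat_lit 0), (nat_lit 2825001), [(nat_lit 1412501), (nat_lit 1271251), (nat_lit 1271251)], [(nat_lit 23), (nat_lit 62), (nat_lit 483), (nat_lit 250), (nat_lit 12)]⟩⟩))) (.trZ (nat_lit 1) (nat_lit 2) (nat_lit 5) (nat_lit 100) (nat_lit 100) (nat_lit 40) (nat_lit 10) (.spl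 (nat_lit 3) (nat_lit 200) (.leaf ⟨(nat_lit 834), (nat_lit 0), (nat_lit 0), (nat_lit 166), (nat_lit 0), (nat_lit 3162), (nat_lit 1569), (nat_lit 1736), (nat_lit 0), (nat_lit 1163171), (nat_lit 500400), [((nat_lit 400), [((nat_lit 43), (nat_lit 2), (nat_lit 834))])], ⟨(nat_lit 6), false, false, false, (nat_lit 214), (nat_lit 0), (nat_lit 2237), [(nat_lit 1470123), (nat_lit 1483344), (nat_lit 1513819), (nat_lit 1531491), (nat_lit 1543695), (nat_lit 1548146), (nat_lit 1587391), (nat_lit 1596294)]⟩, ⟨(nat_lit 6), false, true, true, (nat_lit 272), (nat_lit 0), (nat_lit 2237), [(nat_lit 1602531), (nat_lit 1599967), (nat_lit 1624400), (nat_lit 1624062), (nat_lit 1745097), (nat_lit 1724995), (nat_lit 1767872), (nat_lit 1749995)]⟩, (nat_lit 5383819), (nat_lit 36493387), (nat_lit 12317229), (nat_lit 18189384), (nat_lit 0), (nat_lit 0), [⟨(nat_lit 0), (nat_lit 100), (nat_lit 44), (nat_lit 99), (nat_lit 352756905)⟩], [⟨(nat_lit 1), (nat_lit 87), (nat_lit 32),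 (nat_lit 100), (nat_lit 109113576)⟩, ⟨(nat_lit 1), (nat_lit 76), (nat_lit 46), (nat_lit 100), (nat_lit 99708234)⟩], [⟨(nat_lit 0), (nat_lit 100), (nat_lit 99), (nat_lit 55), (nat_lit 47286775)⟩], [],
 ⟨⟨[(nat_lit 40), (nat_lit 60)], [(nat_lit 0), (nat_lit 1539)], [((nat_lit 0), (nat_lit 0), (nat_lit 0)), ((nat_lit 1000), (nat_lit 478), (nat_lit 704))], ((nat_lit 50), (nat_lit 100), (nat_lit 66))⟩, (nat_lit 83867), (nat_lit 136), (nat_lit 136), (nat_lit 0), (nat_lit 258081), [(nat_lit 1459396018), (nat_lit 16723200)], [(nat_lit 0), (nat_lit 0)], [(nat_lit 23836861561), (nat_lit 25027599796), (nat_lit 24831252747), (nat_lit 25936640154), (nat_lit 27678441128), (nat_lit 28807858019), (nat_lit 28381290266), (nat_lit 29430829941)], (nat_lit 1271251), (nat_lit 1271251), (nat_lit 1017188), (nat_lit 1440626), (nat_lit 1271251), (nat_lit 1271251), [(nat_lit 490000), (nat_lit 780000)], [(nat_lit 1), (nat_lit 38), (nat_lit 203), (nat_lit 0), (nat_lit 9)]⟩,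
 ⟨⟨[(nat_lit 80), (nat_lit 120), (nat_lit 140)], [(nat_lit 0), (nat_lit 0), (nat_lit 1164)], [((nat_lit 0), (nat_lit 0), (nat_lit 0)), ((nat_lit 0), (nat_lit 0), (nat_lit 0)), ((nat_lit 941), (nat_lit 1000), (nat_lit 576))], ((nat_lit 100), (nat_lit 94), (nat_lit 58))⟩, (nat_lit 689762), (nat_lit 844), (nat_lit 844), (nat_lit 0), (nat_lit 1363482), [(nat_lit 778208000), (nat_lit 1322688000), (nat_lit 1633772000)], [], [(nat_lit 7278677845), (nat_lit 6391661472), (nat_lit 6243649795), (nat_lit 6304534502), (nat_lit 7695820095), (nat_lit 6332246911), (nat_lit 8926773154), (nat_lit 7583931952)], (nat_lit 1271251), (nat_lit 1271251), (nat_lit 1017188), (nat_lit 1440626), (nat_lit 54688), (nat_lit 2845626), [(nat_lit 1100000), (nat_lit 1785001), (nat_lit 1271251)], [(nat_lit 17), (nat_lit 58), (nat_lit 456), (nat_lit 225), (nat_lit 13)]⟩,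
 ⟨⟨[(nat_lit 80), (nat_lit 120), (nat_lit 140)], [(nat_lit 0), (nat_lit 0), (nat_lit 1164)], [((nat_lit 0), (nat_lit 0), (nat_lit 0)), ((nat_lit 0), (nat_lit 0), (nat_lit 0)), ((nat_lit 941), (nat_lit 1000), (nat_lit 576))], ((nat_lit 100), (nat_lit 94), (nat_lit 58))⟩, (nat_lit 348715), (nat_lit 300), (nat_lit 824), (nat_lit 11022400), (nat_lit 1409528), [(nat_lit 778208000), (nat_lit 1322688000), (nat_lit 1633772000)], [], [(nat_lit 6539894010), (nat_lit 6547685812), (nat_lit 6659857803), (nat_lit 6677034919), (nat_lit 5860630856), (nat_lit 5704842538), (nat_lit 6439633252), (nat_lit 6544329900)], (nat_lit 1271251), (nat_lit 1271251), (nat_lit 1271251), (nat_lit 1271251), (nat_lit 54688), (nat_lit 2845626), [(nat_lit 1100000), (nat_lit 1785001), (nat_lit 1271251)], [(nat_lit 17), (nat_lit 58), (nat_lit 483), (nat_lit 250), (nat_lit 14)]⟩⟩) (.leaf ⟨(nat_lit 660), (nat_lit 0), (nat_lit 0), (nat_lit 340), (nat_lit 0), (nat_lit 3293), (nat_lit 3637),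 (nat_lit 3708), (nat_lit 0), (nat_lit 771065), (nat_lit 396000), [((nat_lit 400), [((nat_lit 43), (nat_lit 2), (nat_lit 660))])], ⟨(nat_lit 6), false, true, false, (nat_lit 250), (nat_lit 0), (nat_lit 2237), [(nat_lit 1543695), (nat_lit 1548146), (nat_lit 1587391), (nat_lit 1596294), (nat_lit 1659577), (nat_lit 1649997), (nat_lit 1705063), (nat_lit 1699935)]⟩, ⟨(nat_lit 6), false, true, true, (nat_lit 272), (nat_lit 0), (nat_lit 2237), [(nat_lit 1602531), (nat_lit 1599967), (nat_lit 1624400), (nat_lit 1624062), (nat_lit 1745097), (nat_lit 1724995), (nat_lit 1767872), (nat_lit 1749995)]⟩, (nat_lit 5566727), (nat_lit 34488130), (nat_lit 15116508), (nat_lit 17395362), (nat_lit 0), (nat_lit 0), [⟨(nat_lit 0), (nat_lit 95), (nat_lit 31), (nat_lit 100), (nat_lit 167880328)⟩], [⟨(nat_lit 1), (nat_lit 87), (nat_lit 32), (nat_lit 100), (nat_lit 120616751)⟩], [⟨(nat_lit 0), (nat_lit 100), (nat_lit 99), (nat_lit 55), (nat_lit 100150435)⟩], [],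
 ⟨⟨[(nat_lit 40), (nat_lit 60)], [(nat_lit 0), (nat_lit 1539)], [((nat_lit 0), (nat_lit 0), (nat_lit 0)), ((nat_lit 1000), (nat_lit 478), (nat_lit 704))], ((nat_lit 50), (nat_lit 100), (nat_lit 66))⟩, (nat_lit 1857613), (nat_lit 129), (nat_lit 129), (nat_lit 0), (nat_lit 258081), [(nat_lit 1530040005), (nat_lit 697968000)], [(nat_lit 0), (nat_lit 0)], [(nat_lit 24837839130), (nat_lit 25963082665), (nat_lit 27026455098), (nat_lit 28004356570), (nat_lit 28531226804), (nat_lit 29598939687), (nat_lit 30357817860), (nat_lit 31283390896)], (nat_lit 1271251), (nat_lit 1271251), (nat_lit 1271251), (nat_lit 1271251), (nat_lit 1271251), (nat_lit 1271251), [(nat_lit 490000), (nat_lit 780000)], [(nat_lit 1), (nat_lit 38), (nat_lit 203), (nat_lit 0), (nat_lit 8)]⟩,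
 ⟨⟨[(nat_lit 80), (nat_lit 120), (nat_lit 140)], [(nat_lit 0), (nat_lit 0), (nat_lit 1164)], [((nat_lit 0), (nat_lit 0), (nat_lit 0)), ((nat_lit 0), (nat_lit 0), (nat_lit 0)), ((nat_lit 941), (nat_lit 1000), (nat_lit 576))], ((nat_lit 100), (nat_lit 94), (nat_lit 58))⟩, (nat_lit 2068415), (nat_lit 815), (nat_lit 815), (nat_lit 0), (nat_lit 1363482), [(nat_lit 1593920000), (nat_lit 2709120000), (nat_lit 3346280000)], [], [(nat_lit 10772946422), (nat_lit 10693645699), (nat_lit 10573946218), (nat_lit 10786203406), (nat_lit 15168322962), (nat_lit 11984800597), (nat_lit 12103029250), (nat_lit 12683383769)], (nat_lit 1271251), (nat_lit 1271251), (nat_lit 1271251), (nat_lit 1271251), (nat_lit 54688), (nat_lit 2845626), [(nat_lit 1100000), (nat_lit 1785001), (nat_lit 1271251)], [(nat_lit 17), (nat_lit 58), (nat_lit 483), (nat_lit 250), (nat_lit 14)]⟩,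
 ⟨⟨[(nat_lit 80), (nat_lit 120), (nat_lit 140)], [(nat_lit 0), (nat_lit 0), (nat_lit 1164)], [((nat_lit 0), (nat_lit 0), (nat_lit 0)), ((nat_lit 0), (nat_lit 0), (nat_lit 0)), ((nat_lit 941), (nat_lit 1000), (nat_lit 576))], ((nat_lit 100), (nat_lit 94), (nat_lit 58))⟩, (nat_lit 822274), (nat_lit 300), (nat_lit 824), (nat_lit 22576000), (nat_lit 1409528), [(nat_lit 1593920000), (nat_lit 2709120000), (nat_lit 3346280000)], [], [(nat_lit 12712727290), (nat_lit 12724459916), (nat_lit 13247899205), (nat_lit 13361683294), (nat_lit 11879540720), (nat_lit 11834315656), (nat_lit 13372031052), (nat_lit 13588503139)], (nat_lit 1271251), (nat_lit 1271251), (nat_lit 1271251), (nat_lit 1271251), (nat_lit 54688), (nat_lit 2845626), [(nat_lit 1100000), (nat_lit 1785001), (nat_lit 1271251)], [(nat_lit 17), (nat_lit 58), (nat_lit 483), (nat_lit 250), (nat_lit 14)]⟩⟩))))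
noncomputable def c14_132 : Tr Lf :=
 (.spl (nat_lit 6) (nat_lit 52) (.spl (nat_lit 0) (nat_lit 390) (.leaf ⟨(nat_lit 472), (nat_lit 77), (nat_lit 0), (nat_lit 451), (nat_lit 0), (nat_lit 3506), (nat_lit 3867), (nat_lit 4527), (nat_lit 0), (nat_lit 25065), (nat_lit 283200), [((nat_lit 390), [((nat_lit 43), (nat_lit 2), (nat_lit 472))])], ⟨(nat_lit 6), false, false, false, (nat_lit 236), (nat_lit 1581), (nat_lit 2237), [(nat_lit 1474080), (nat_lit 1478137), (nat_lit 1519538), (nat_lit 1524676), (nat_lit 1659578), (nat_lit 1655900), (nat_lit 1705117), (nat_lit 1702521)]⟩, ⟨(nat_lit 6), false, true, true, (nat_lit 269), (nat_lit 1581), (nat_lit 2237), [(nat_lit 1579788), (nat_lit 1577949), (nat_lit 1625287), (nat_lit 1624529), (nat_lit 1722327), (nat_lit 1714539), (nat_lit 1767876), (nat_lit 1761169)]⟩, (nat_lit 5494328), (nat_lit 35451289), (nat_lit 14117749), (nat_lit 17430962), (nat_lit 6), (nat_lit 0), [⟨(nat_lit 0), (nat_lit 96), (nat_lit 38),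 (nat_lit 100), (nat_lit 42216572)⟩, ⟨(nat_lit 0), (nat_lit 92), (nat_lit 31), (nat_lit 100), (nat_lit 470679113)⟩], [], [⟨(nat_lit 0), (nat_lit 100), (nat_lit 98), (nat_lit 30), (nat_lit 179767565)⟩], [],
 ⟨⟨[(nat_lit 40), (nat_lit 60), (nat_lit 80)], [(nat_lit 0), (nat_lit 1539), (nat_lit 2453)], [((nat_lit 0), (nat_lit 0), (nat_lit 0)), ((nat_lit 1000), (nat_lit 478), (nat_lit 704)), ((nat_lit 1000), (nat_lit 474), (nat_lit 714))], ((nat_lit 47), (nat_lit 100), (nat_lit 72))⟩, (nat_lit 163740), (nat_lit 114), (nat_lit 114), (nat_lit 0), (nat_lit 131094), [(nat_lit 1606368005), (nat_lit 1596750573), (nat_lit 1827680000)], [(nat_lit 0), (nat_lit 0), (nat_lit 0)], [(nat_lit 23777620283), (nat_lit 24379537183), (nat_lit 27043109618), (nat_lit 27632947779), (nat_lit 28119118006), (nat_lit 28709524875), (nat_lit 30596684899), (nat_lit 31070412216)], (nat_lit 1271251), (nat_lit 1271251), (nat_lit 1017188), (nat_lit 2118126), (nat_lit 1271251), (nat_lit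 1271251), [(nat_lit 490000), (nat_lit 780000), (nat_lit 1100000)], [(nat_lit 2), (nat_lit 44), (nat_lit 289), (nat_lit 75), (nat_lit 11)]⟩,
 ⟨⟨[(nat_lit 80), (nat_lit 120), (nat_lit 160)], [(nat_lit 0), (nat_lit 0), (nat_lit 2132)], [((nat_lit 0), (nat_lit 0), (nat_lit 0)), ((nat_lit 0), (nat_lit 0), (nat_lit 0)), ((nat_lit 858), (nat_lit 1000), (nat_lit 713))], ((nat_lit 100), (nat_lit 88), (nat_lit 69))⟩, (nat_lit 0), (nat_lit 541), (nat_lit 541), (nat_lit 0), (nat_lit 574934), [(nat_lit 2475264000), (nat_lit 4207104000), (nat_lit 6268416000)], [], [(nat_lit 22449797480), (nat_lit 23075145726), (nat_lit 23402826372), (nat_lit 23948108751), (nat_lit 28525045304), (nat_lit 25164345813), (nat_lit 22841786808), (nat_lit 22984624017)], (nat_lit 1271251), (nat_lit 1271251), (nat_lit 1271251), (nat_lit 1271251), (nat_lit 0), (nat_lit 2825001), [(nat_lit 1100000), (nat_lit 1785001), (nat_lit 1271251)], [(nat_lit 18), (nat_lit 59), (nat_lit 483), (nat_lit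 250), (nat_lit 12)]⟩,
 ⟨⟨[(nat_lit 100), (nat_lit 140), (nat_lit 160)], [(nat_lit 0), (nat_lit 508), (nat_lit 1689)], [((nat_lit 0), (nat_lit 0), (nat_lit 0)), ((nat_lit 1000), (nat_lit 1000), (nat_lit 198)), ((nat_lit 811), (nat_lit 1000), (nat_lit 671))], ((nat_lit 100), (nat_lit 81), (nat_lit 68))⟩, (nat_lit 969472), (nat_lit 300), (nat_lit 594), (nat_lit 28187502), (nat_lit 730845), [(nat_lit 2818750000), (nat_lit 4438742000), (nat_lit 5354272000)], [], [(nat_lit 20009394939), (nat_lit 20103533160), (nat_lit 20883366752), (nat_lit 20839790693), (nat_lit 17012943655), (nat_lit 16899819808), (nat_lit 17428696519), (nat_lit 17550647467)], (nat_lit 1271251), (nat_lit 1271251), (nat_lit 1271251), (nat_lit 1271251), (nat_lit 0), (nat_lit 2825001), [(nat_lit 1412501), (nat_lit 1271251), (nat_lit 1271251)], [(nat_lit 23), (nat_lit 62), (nat_lit 483), (nat_lit 250), (nat_lit 12)]⟩⟩) (.trZ (nat_lit 0) (nat_lit 1) (nat_lit 3) (nat_lit 99) (nat_lit 31) (nat_lit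 100) (nat_lit 170) (.trX (nat_lit 4) (nat_lit 0) (nat_lit 2) (nat_lit 33) (nat_lit 85) (nat_lit 100) (nat_lit 320) (.leaf ⟨(nat_lit 228), (nat_lit 169), (nat_lit 0), (nat_lit 603), (nat_lit 0), (nat_lit 3935), (nat_lit 7939), (nat_lit 6823), (nat_lit 0), (nat_lit 142387), (nat_lit 57000), [((nat_lit 400), [((nat_lit 28), (nat_lit 0), (nat_lit 228))])], ⟨(nat_lit 6), false, false, false, (nat_lit 241), (nat_lit 0), (nat_lit 1582), [(nat_lit 1503356), (nat_lit 1510203), (nat_lit 1548673), (nat_lit 1558889), (nat_lit 1655899), (nat_lit 1649997), (nat_lit 1702515), (nat_lit 1699984)]⟩, ⟨(nat_lit 6), false, true, true, (nat_lit 261), (nat_lit 0), (nat_lit 1582), [(nat_lit 1577949), (nat_lit 1574999), (nat_lit 1623921), (nat_lit 1624340), (nat_lit 1687217), (nat_lit 1674995), (nat_lit 1733849), (nat_lit 1724997)]⟩, (nat_lit 5493762), (nat_lit 35607642), (nat_lit 14700979), (nat_lit 16691379), (nat_lit 6), (nat_lit 0), [⟨(nat_lit 0), (nat_lit 96), (nat_lit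 22), (nat_lit 100), (nat_lit 2064872464)⟩], [], [⟨(nat_lit 0), (nat_lit 100), (nat_lit 98), (nat_lit 30), (nat_lit 223387044)⟩], [],
 ⟨⟨[(nat_lit 40), (nat_lit 60)], [(nat_lit 0), (nat_lit 2136)], [((nat_lit 0), (nat_lit 0), (nat_lit 0)), ((nat_lit 1000), (nat_lit 343), (nat_lit 808))], ((nat_lit 36), (nat_lit 100), (nat_lit 77))⟩, (nat_lit 146725), (nat_lit 96), (nat_lit 96), (nat_lit 0), (nat_lit 147970), [(nat_lit 1744465761), (nat_lit 2772192000)], [(nat_lit 0), (nat_lit 0)], [(nat_lit 25178255930), (nat_lit 25791211543), (nat_lit 28040624978), (nat_lit 28662721150), (nat_lit 28351299045), (nat_lit 28989180505), (nat_lit 30709883575), (nat_lit 31231219240)], (nat_lit 1271251), (nat_lit 1271251), (nat_lit 1184688), (nat_lit 2136876), (nat_lit 1271251), (nat_lit 1271251), [(nat_lit 490000), (nat_lit 780000)], [(nat_lit 1), (nat_lit 38), (nat_lit 203), (nat_lit 0), (nat_lit 8)]⟩,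
 ⟨⟨[(nat_lit 80), (nat_lit 120), (nat_lit 160)], [(nat_lit 0), (nat_lit 0), (nat_lit 2132)], [((nat_lit 0), (nat_lit 0), (nat_lit 0)), ((nat_lit 0), (nat_lit 0), (nat_lit 0)), ((nat_lit 858), (nat_lit 1000), (nat_lit 713))], ((nat_lit 100), (nat_lit 88), (nat_lit 69))⟩, (nat_lit 0), (nat_lit 587), (nat_lit 587), (nat_lit 0), (nat_lit 710866), [(nat_lit 3619136000), (nat_lit 6151296000), (nat_lit 9165184000)], [], [(nat_lit 32693486343), (nat_lit 29856826602), (nat_lit 29734924214), (nat_lit 31509687393), (nat_lit 40474161678), (nat_lit 33617223561), (nat_lit 29987199246), (nat_lit 30558425703)], (nat_lit 1271251), (nat_lit 1271251), (nat_lit 1271251), (nat_lit 1271251), (nat_lit 0), (nat_lit 2825001), [(nat_lit 1100000), (nat_lit 1785001), (nat_lit 1271251)], [(nat_lit 18), (nat_lit 59), (nat_lit 483), (nat_lit 250), (nat_lit 12)]⟩,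
 ⟨⟨[(nat_lit 100), (nat_lit 140), (nat_lit 160)], [(nat_lit 0), (nat_lit 508), (nat_lit 1689)], [((nat_lit 0), (nat_lit 0), (nat_lit 0)), ((nat_lit 1000), (nat_lit 1000), (nat_lit 198)), ((nat_lit 811), (nat_lit 1000), (nat_lit 671))], ((nat_lit 100), (nat_lit 81), (nat_lit 68))⟩, (nat_lit 1296213), (nat_lit 300), (nat_lit 678), (nat_lit 37687500), (nat_lit 889036), [(nat_lit 3768750000), (nat_lit 5934726000), (nat_lit 7158816000)], [], [(nat_lit 25313825493), (nat_lit 25396178152), (nat_lit 26077634160), (nat_lit 26131546555), (nat_lit 21409270431), (nat_lit 21230985324), (nat_lit 23059193914), (nat_lit 23516087837)], (nat_lit 1271251), (nat_lit 1271251), (nat_lit 1271251), (nat_lit 1271251), (nat_lit 0), (nat_lit 2825001), [(nat_lit 1412501), (nat_lit 1271251), (nat_lit 1271251)], [(nat_lit 23), (nat_lit 62), (nat_lit 483), (nat_lit 250), (nat_lit 12)]⟩⟩)))) (.spl (nat_lit 3) (nat_lit 200) (.leaf ⟨(nat_lit 618), (nat_lit 0), (nat_lit 0), (nat_lit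 382), (nat_lit 0), (nat_lit 3626), (nat_lit 3715), (nat_lit 4330), (nat_lit 0), (nat_lit 652650), (nat_lit 255600), [((nat_lit 400), [((nat_lit 28), (nat_lit 1), (nat_lit 576)), ((nat_lit 43), (nat_lit 2), (nat_lit 42))])], ⟨(nat_lit 6), false, false, false, (nat_lit 214), (nat_lit 0), (nat_lit 2237), [(nat_lit 1470123), (nat_lit 1483344), (nat_lit 1513819), (nat_lit 1531491), (nat_lit 1543695), (nat_lit 1548146), (nat_lit 1587391), (nat_lit 1596294)]⟩, ⟨(nat_lit 6), false, true, true, (nat_lit 267), (nat_lit 0), (nat_lit 2237), [(nat_lit 1579788), (nat_lit 1574999), (nat_lit 1624400), (nat_lit 1624062), (nat_lit 1722322), (nat_lit 1699994), (nat_lit 1767872), (nat_lit 1749995)]⟩, (nat_lit 5367558), (nat_lit 36816861), (nat_lit 12397911), (nat_lit 17785228), (nat_lit 0), (nat_lit 0), [⟨(nat_lit 0), (nat_lit 95), (nat_lit 31), (nat_lit 100), (nat_lit 1497773485)⟩], [], [⟨(nat_lit 0), (nat_lit 100), (nat_lit 98), (nat_lit 30), (nat_lit 145151977)⟩],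 [],
 ⟨⟨[(nat_lit 40), (nat_lit 60), (nat_lit 80)], [(nat_lit 0), (nat_lit 1539), (nat_lit 2453)], [((nat_lit 0), (nat_lit 0), (nat_lit 0)), ((nat_lit 1000), (nat_lit 478), (nat_lit 704)), ((nat_lit 1000), (nat_lit 474), (nat_lit 714))], ((nat_lit 45), (nat_lit 100), (nat_lit 78))⟩, (nat_lit 0), (nat_lit 112), (nat_lit 112), (nat_lit 0), (nat_lit 109495), [(nat_lit 1548935231), (nat_lit 1619729474), (nat_lit 1847009600)], [(nat_lit 0), (nat_lit 0), (nat_lit 0)], [(nat_lit 24006762524), (nat_lit 25303357704), (nat_lit 24915547335), (nat_lit 26115462816), (nat_lit 28272842499), (nat_lit 29471585369), (nat_lit 28914406158), (nat_lit 30026272093)], (nat_lit 1271251), (nat_lit 1271251), (nat_lit 1017188), (nat_lit 1440626), (nat_lit 1271251), (nat_lit 1271251), [(nat_lit 490000), (nat_lit 780000), (nat_lit 1100000)], [(nat_lit 2), (nat_lit 44), (nat_lit 260), (nat_lit 50), (nat_lit 10)]⟩,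
 ⟨⟨[(nat_lit 80), (nat_lit 140), (nat_lit 180)], [(nat_lit 0), (nat_lit 0), (nat_lit 3656)], [((nat_lit 0), (nat_lit 0), (nat_lit 0)), ((nat_lit 0), (nat_lit 0), (nat_lit 0)), ((nat_lit 637), (nat_lit 1000), (nat_lit 908))], ((nat_lit 100), (nat_lit 81), (nat_lit 77))⟩, (nat_lit 815786), (nat_lit 585), (nat_lit 585), (nat_lit 0), (nat_lit 490635), [(nat_lit 1790816000), (nat_lit 3759644000), (nat_lit 5370156000)], [], [(nat_lit 17888134908), (nat_lit 15905590895), (nat_lit 15391749892), (nat_lit 15872313457), (nat_lit 19656703308), (nat_lit 16387445726), (nat_lit 22501555152), (nat_lit 19282671112)], (nat_lit 1271251), (nat_lit 1271251), (nat_lit 1017188), (nat_lit 1440626), (nat_lit 0), (nat_lit 2825001), [(nat_lit 1100000), (nat_lit 2127501), (nat_lit 1271251)], [(nat_lit 19), (nat_lit 63), (nat_lit 456), (nat_lit 225), (nat_lit 11)]⟩,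
 ⟨⟨[(nat_lit 100), (nat_lit 140), (nat_lit 180)], [(nat_lit 0), (nat_lit 508), (nat_lit 2854)], [((nat_lit 0), (nat_lit 0), (nat_lit 0)), ((nat_lit 1000), (nat_lit 1000), (nat_lit 198)), ((nat_lit 777), (nat_lit 1000), (nat_lit 712))], ((nat_lit 100), (nat_lit 74), (nat_lit 76))⟩, (nat_lit 694114), (nat_lit 300), (nat_lit 617), (nat_lit 24335958), (nat_lit 633650), [(nat_lit 2387500000), (nat_lit 3759644000), (nat_lit 5370156000)], [], [(nat_lit 19211482316), (nat_lit 19084392494), (nat_lit 19446341221), (nat_lit 19435575562), (nat_lit 15364615684), (nat_lit 15181356132), (nat_lit 15443267330), (nat_lit 15465601341)], (nat_lit 1271251), (nat_lit 1271251), (nat_lit 1271251), (nat_lit 1271251), (nat_lit 0), (nat_lit 2825001), [(nat_lit 1412501), (nat_lit 1271251), (nat_lit 1271251)], [(nat_lit 24), (nat_lit 63), (nat_lit 483), (nat_lit 250), (nat_lit 11)]⟩⟩) (.spl (nat_lit 0) (nat_lit 390) (.leaf ⟨(nat_lit 0), (nat_lit 0), (nat_lit 0), (nat_lit 1000),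 (nat_lit 0), (nat_lit 4209), (nat_lit 6464), (nat_lit 12056), (nat_lit 0), (nat_lit 25213), (nat_lit 0), [], Pd.none, Pd.none, (nat_lit 0), (nat_lit 1), (nat_lit 0), (nat_lit 0), (nat_lit 0), (nat_lit 0), [⟨(nat_lit 0), (nat_lit 92), (nat_lit 31), (nat_lit 100), (nat_lit 662572259)⟩], [], [⟨(nat_lit 0), (nat_lit 100), (nat_lit 97), (nat_lit 49), (nat_lit 557399510)⟩], [],
 ⟨⟨[(nat_lit 40), (nat_lit 60), (nat_lit 80)], [(nat_lit 0), (nat_lit 1539), (nat_lit 2453)], [((nat_lit 0), (nat_lit 0), (nat_lit 0)), ((nat_lit 1000), (nat_lit 478), (nat_lit 704)), ((nat_lit 1000), (nat_lit 474), (nat_lit 714))], ((nat_lit 45), (nat_lit 100), (nat_lit 78))⟩, (nat_lit 905619), (nat_lit 96), (nat_lit 96), (nat_lit 0), (nat_lit 89702), [(nat_lit 2032000105), (nat_lit 3689406337), (nat_lit 4688000000)], [], [(nat_lit 25320631149), (nat_lit 25928358172), (nat_lit 27658307027), (nat_lit 28301006219), (nat_lit 29585257699), (nat_lit 30179841162), (nat_lit 31385058274),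 (nat_lit 31894895361)], (nat_lit 1271251), (nat_lit 1271251), (nat_lit 1271251), (nat_lit 1271251), (nat_lit 1271251), (nat_lit 1271251), [(nat_lit 490000), (nat_lit 780000), (nat_lit 1100000)], [(nat_lit 2), (nat_lit 44), (nat_lit 203), (nat_lit 0), (nat_lit 7)]⟩,
 ⟨⟨[(nat_lit 80), (nat_lit 140), (nat_lit 180)], [(nat_lit 0), (nat_lit 0), (nat_lit 3656)], [((nat_lit 0), (nat_lit 0), (nat_lit 0)), ((nat_lit 0), (nat_lit 0), (nat_lit 0)), ((nat_lit 637), (nat_lit 1000), (nat_lit 908))], ((nat_lit 100), (nat_lit 81), (nat_lit 77))⟩, (nat_lit 2122013), (nat_lit 471), (nat_lit 471), (nat_lit 0), (nat_lit 356224), [(nat_lit 4688000000), (nat_lit 9842000000), (nat_lit 14058000000)], [], [(nat_lit 39745508544), (nat_lit 40609063472), (nat_lit 41248762208), (nat_lit 42488978960), (nat_lit 50079615296), (nat_lit 44478843712), (nat_lit 42471467888), (nat_lit 43011817584)], (nat_lit 1271251), (nat_lit 1271251), (nat_lit 1271251), (nat_lit 1271251), (nat_lit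 0), (nat_lit 2825001), [(nat_lit 1100000), (nat_lit 2127501), (nat_lit 1271251)], [(nat_lit 19), (nat_lit 63), (nat_lit 483), (nat_lit 250), (nat_lit 11)]⟩,
 ⟨⟨[(nat_lit 100), (nat_lit 140), (nat_lit 180)], [(nat_lit 0), (nat_lit 508), (nat_lit 2854)], [((nat_lit 0), (nat_lit 0), (nat_lit 0)), ((nat_lit 1000), (nat_lit 1000), (nat_lit 198)), ((nat_lit 777), (nat_lit 1000), (nat_lit 712))], ((nat_lit 100), (nat_lit 74), (nat_lit 76))⟩, (nat_lit 2149606), (nat_lit 300), (nat_lit 556), (nat_lit 62500002), (nat_lit 477219), [(nat_lit 6250000000), (nat_lit 9842000000), (nat_lit 14058000000)], [], [(nat_lit 48379273544), (nat_lit 47979986880), (nat_lit 50237053404), (nat_lit 50157257352), (nat_lit 38560643840), (nat_lit 38006256096), (nat_lit 40775535766), (nat_lit 41358777478)], (nat_lit 1271251), (nat_lit 1271251), (nat_lit 1271251), (nat_lit 1271251), (nat_lit 0), (nat_lit 2825001), [(nat_lit 1412501), (nat_lit 1271251), (nat_lit 1271251)], [(nat_lit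 24), (nat_lit 63), (nat_lit 483), (nat_lit 250), (nat_lit 11)]⟩⟩) (.trX (nat_lit 4) (nat_lit 0) (nat_lit 2) (nat_lit 33) (nat_lit 85) (nat_lit 100) (nat_lit 320) (.leaf ⟨(nat_lit 747), (nat_lit 0), (nat_lit 0), (nat_lit 253), (nat_lit 0), (nat_lit 3542), (nat_lit 2393), (nat_lit 2246), (nat_lit 0), (nat_lit 9290), (nat_lit 186750), [((nat_lit 400), [((nat_lit 28), (nat_lit 0), (nat_lit 747))])], ⟨(nat_lit 6), false, true, false, (nat_lit 250), (nat_lit 0), (nat_lit 1582), [(nat_lit 1545316), (nat_lit 1548686), (nat_lit 1590632), (nat_lit 1597372), (nat_lit 1655899), (nat_lit 1649997), (nat_lit 1702515), (nat_lit 1699984)]⟩, ⟨(nat_lit 6), false, true, true, (nat_lit 261), (nat_lit 0), (nat_lit 1582), [(nat_lit 1577949), (nat_lit 1574999), (nat_lit 1623921), (nat_lit 1624340), (nat_lit 1687217), (nat_lit 1674995), (nat_lit 1733849), (nat_lit 1724997)]⟩, (nat_lit 5529498), (nat_lit 35139055), (nat_lit 15342250), (nat_lit 16518695), (nat_lit 0), (nat_lit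 0), [⟨(nat_lit 0), (nat_lit 96), (nat_lit 22), (nat_lit 100), (nat_lit 91286270)⟩], [⟨(nat_lit 1), (nat_lit 93), (nat_lit 23), (nat_lit 100), (nat_lit 235364057)⟩], [⟨(nat_lit 0), (nat_lit 100), (nat_lit 97), (nat_lit 49), (nat_lit 134327349)⟩], [],
 ⟨⟨[(nat_lit 40), (nat_lit 60), (nat_lit 80)], [(nat_lit 0), (nat_lit 2136), (nat_lit 3185)], [((nat_lit 0), (nat_lit 0), (nat_lit 0)), ((nat_lit 1000), (nat_lit 343), (nat_lit 808)), ((nat_lit 1000), (nat_lit 338), (nat_lit 820))], ((nat_lit 34), (nat_lit 100), (nat_lit 82))⟩, (nat_lit 78606), (nat_lit 99), (nat_lit 99), (nat_lit 0), (nat_lit 108631), [(nat_lit 1622604404), (nat_lit 1857519618), (nat_lit 2214234800)], [(nat_lit 0), (nat_lit 0), (nat_lit 0)], [(nat_lit 25756787926), (nat_lit 26316851438), (nat_lit 27774513056), (nat_lit 28259703580), (nat_lit 28409574470), (nat_lit 28988376640), (nat_lit 30279825640), (nat_lit 30779071168)], (nat_lit 1271251), (nat_lit 1271251), (nat_lit 1271251), (nat_lit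 1271251), (nat_lit 1271251), (nat_lit 1271251), [(nat_lit 490000), (nat_lit 780000), (nat_lit 1100000)], [(nat_lit 2), (nat_lit 44), (nat_lit 203), (nat_lit 0), (nat_lit 6)]⟩,
 ⟨⟨[(nat_lit 80), (nat_lit 140), (nat_lit 180)], [(nat_lit 0), (nat_lit 0), (nat_lit 3656)], [((nat_lit 0), (nat_lit 0), (nat_lit 0)), ((nat_lit 0), (nat_lit 0), (nat_lit 0)), ((nat_lit 637), (nat_lit 1000), (nat_lit 908))], ((nat_lit 100), (nat_lit 81), (nat_lit 77))⟩, (nat_lit 465440), (nat_lit 567), (nat_lit 567), (nat_lit 0), (nat_lit 489675), [(nat_lit 1186064000), (nat_lit 2490026000), (nat_lit 3556674000)], [], [(nat_lit 11216341848), (nat_lit 10805052591), (nat_lit 10771321198), (nat_lit 10924599201), (nat_lit 13032252020), (nat_lit 10958822812), (nat_lit 9632920720), (nat_lit 9652082996)], (nat_lit 1271251), (nat_lit 1271251), (nat_lit 1271251), (nat_lit 1271251), (nat_lit 0), (nat_lit 2825001), [(nat_lit 1100000), (nat_lit 2127501), (nat_lit 1271251)], [(nat_lit 19),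 (nat_lit 63), (nat_lit 483), (nat_lit 250), (nat_lit 11)]⟩,
 ⟨⟨[(nat_lit 100), (nat_lit 140), (nat_lit 180)], [(nat_lit 0), (nat_lit 508), (nat_lit 2854)], [((nat_lit 0), (nat_lit 0), (nat_lit 0)), ((nat_lit 1000), (nat_lit 1000), (nat_lit 198)), ((nat_lit 777), (nat_lit 1000), (nat_lit 712))], ((nat_lit 100), (nat_lit 74), (nat_lit 76))⟩, (nat_lit 543850), (nat_lit 300), (nat_lit 616), (nat_lit 15812502), (nat_lit 632521), [(nat_lit 1581250000), (nat_lit 2490026000), (nat_lit 3556674000)], [], [(nat_lit 13646511983), (nat_lit 13619772651), (nat_lit 13774826664), (nat_lit 13707973388), (nat_lit 11710845165), (nat_lit 11577648154), (nat_lit 11580155977), (nat_lit 11424590382)], (nat_lit 1271251), (nat_lit 1271251), (nat_lit 1271251), (nat_lit 1271251), (nat_lit 0), (nat_lit 2825001), [(nat_lit 1412501), (nat_lit 1271251), (nat_lit 1271251)], [(nat_lit 24), (nat_lit 63), (nat_lit 483), (nat_lit 250), (nat_lit 11)]⟩⟩)))))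
noncomputable def c14_133 : Tr Lf :=
 (.ord (.trZ (nat_lit 0) (nat_lit 1) (nat_lit 3) (nat_lit 96) (nat_lit 44) (nat_lit 100) (nat_lit 170) (.trZ (nat_lit 1) (nat_lit 2) (nat_lit 5) (nat_lit 100) (nat_lit 100) (nat_lit 60) (nat_lit 30) (.leaf ⟨(nat_lit 22), (nat_lit 0), (nat_lit 0), (nat_lit 978), (nat_lit 0), (nat_lit 4011), (nat_lit 7030), (nat_lit 9598), (nat_lit 0), (nat_lit 18163146803545), (nat_lit 88000), [((nat_lit 400), [((nat_lit 43), (nat_lit 5), (nat_lit 22))])], ⟨(nat_lit 6), false, false, false, (nat_lit 246), (nat_lit 0), (nat_lit 2237), [(nat_lit 1521399), (nat_lit 1533338), (nat_lit 1543247), (nat_lit 1557412), (nat_lit 1682352), (nat_lit 1674999), (nat_lit 1705063), (nat_lit 1699935)]⟩, ⟨(nat_lit 6), false, true, true, (nat_lit 287), (nat_lit 0), (nat_lit 2237), [(nat_lit 1624400), (nat_lit 1624062), (nat_lit 1646249), (nat_lit 1648136), (nat_lit 1796379), (nat_lit 1774994), (nat_lit 1819154), (nat_lit 1799995)]⟩, (nat_lit 5593053),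 (nat_lit 33801023), (nat_lit 14529341), (nat_lit 18669636), (nat_lit 0), (nat_lit 0), [⟨(nat_lit 0), (nat_lit 94), (nat_lit 31), (nat_lit 100), (nat_lit 2452705284)⟩], [], [⟨(nat_lit 0), (nat_lit 100), (nat_lit 100), (nat_lit 60), (nat_lit 217974999)⟩], [],
 ⟨⟨[(nat_lit 40), (nat_lit 60), (nat_lit 80)], [(nat_lit 0), (nat_lit 1539), (nat_lit 2453)], [((nat_lit 0), (nat_lit 0), (nat_lit 0)), ((nat_lit 1000), (nat_lit 478), (nat_lit 704)), ((nat_lit 1000), (nat_lit 474), (nat_lit 714))], ((nat_lit 45), (nat_lit 100), (nat_lit 78))⟩, (nat_lit 869190), (nat_lit 161), (nat_lit 161), (nat_lit 0), (nat_lit 272759), [(nat_lit 1823484011), (nat_lit 3021103548), (nat_lit 3969858400)], [(nat_lit 0), (nat_lit 0), (nat_lit 0)], [(nat_lit 24349592629), (nat_lit 25867617801), (nat_lit 27485036633), (nat_lit 28740658390), (nat_lit 29973140691), (nat_lit 31128059143), (nat_lit 32058583267), (nat_lit 33006035240)], (nat_lit 1271251), (nat_lit 1271251), (nat_lit 1184688),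 (nat_lit 2136876), (nat_lit 1271251), (nat_lit 1271251), [(nat_lit 490000), (nat_lit 780000), (nat_lit 1100000)], [(nat_lit 2), (nat_lit 44), (nat_lit 203), (nat_lit 0), (nat_lit 7)]⟩,
 ⟨⟨[(nat_lit 80), (nat_lit 120), (nat_lit 160)], [(nat_lit 0), (nat_lit 528), (nat_lit 2577)], [((nat_lit 0), (nat_lit 0), (nat_lit 0)), ((nat_lit 1000), (nat_lit 959), (nat_lit 206)), ((nat_lit 929), (nat_lit 1000), (nat_lit 742))], ((nat_lit 100), (nat_lit 90), (nat_lit 79))⟩, (nat_lit 11919194), (nat_lit 836), (nat_lit 836), (nat_lit 0), (nat_lit 1261207), [(nat_lit 4584864000), (nat_lit 7792704000), (nat_lit 11610816000)], [], [(nat_lit 35655768250), (nat_lit 31908732555), (nat_lit 28698793183), (nat_lit 29179042658), (nat_lit 37205815148), (nat_lit 34092957510), (nat_lit 50791725726), (nat_lit 47783384856)], (nat_lit 1271251), (nat_lit 1271251), (nat_lit 1184688), (nat_lit 2136876), (nat_lit 169688), (nat_lit 2886876), [(nat_lit 1100000), (nat_lit 1785001), (nat_lit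 1271251)], [(nat_lit 18), (nat_lit 59), (nat_lit 483), (nat_lit 250), (nat_lit 12)]⟩,
 ⟨⟨[(nat_lit 80), (nat_lit 120), (nat_lit 160)], [(nat_lit 0), (nat_lit 528), (nat_lit 2577)], [((nat_lit 0), (nat_lit 0), (nat_lit 0)), ((nat_lit 1000), (nat_lit 959), (nat_lit 206)), ((nat_lit 929), (nat_lit 1000), (nat_lit 742))], ((nat_lit 100), (nat_lit 90), (nat_lit 79))⟩, (nat_lit 1733727), (nat_lit 300), (nat_lit 812), (nat_lit 57310802), (nat_lit 1261207), [(nat_lit 4584864000), (nat_lit 7792704000), (nat_lit 11610816000)], [], [(nat_lit 41208219800), (nat_lit 41243931749), (nat_lit 42228792633), (nat_lit 42327720543), (nat_lit 35823405076), (nat_lit 35958928880), (nat_lit 39107338465), (nat_lit 39645458542)], (nat_lit 1271251), (nat_lit 1271251), (nat_lit 1271251), (nat_lit 1271251), (nat_lit 169688), (nat_lit 2886876), [(nat_lit 1100000), (nat_lit 1785001), (nat_lit 1271251)], [(nat_lit 18), (nat_lit 59), (nat_lit 538), (nat_lit 300), (nat_lit 13)]⟩⟩))))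
noncomputable def c14_134 : Tr Lf :=
 (.trZ (nat_lit 0) (nat_lit 1) (nat_lit 3) (nat_lit 92) (nat_lit 44) (nat_lit 100) (nat_lit 190) (.trZ (nat_lit 1) (nat_lit 2) (nat_lit 5) (nat_lit 100) (nat_lit 92) (nat_lit 49) (nat_lit 20) (.spl (nat_lit 6) (nat_lit 36) (.leaf ⟨(nat_lit 23), (nat_lit 418), (nat_lit 0), (nat_lit 559), (nat_lit 0), (nat_lit 3813), (nat_lit 8644), (nat_lit 5709), (nat_lit 0), (nat_lit 0), (nat_lit 92000), [((nat_lit 400), [((nat_lit 43), (nat_lit 5), (nat_lit 23))])], ⟨(nat_lit 7), false, true, false, (nat_lit 265), (nat_lit 0), (nat_lit 2237), [(nat_lit 1572676), (nat_lit 1583333), (nat_lit 1616372), (nat_lit 1631480), (nat_lit 1705063), (nat_lit 1699935), (nat_lit 1748802), (nat_lit 1748125)]⟩, ⟨(nat_lit 6), false, true, true, (nat_lit 277), (nat_lit 0), (nat_lit 2237), [(nat_lit 1579788), (nat_lit 1574999), (nat_lit 1646249), (nat_lit 1648136), (nat_lit 1750828), (nat_lit 1724992), (nat_lit 1819154), (nat_lit 1799995)]⟩, (nat_lit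 5643734), (nat_lit 33310358), (nat_lit 16239048), (nat_lit 17450594), (nat_lit 6), (nat_lit 0), [⟨(nat_lit 0), (nat_lit 88), (nat_lit 32), (nat_lit 100), (nat_lit 1128971226)⟩], [], [⟨(nat_lit 0), (nat_lit 100), (nat_lit 89), (nat_lit 72), (nat_lit 30106247)⟩], [⟨(nat_lit 0), (nat_lit 88), (nat_lit 100), (nat_lit 65), (nat_lit 69270546)⟩],
 ⟨⟨[(nat_lit 40), (nat_lit 60)], [(nat_lit 0), (nat_lit 1539)], [((nat_lit 0), (nat_lit 0), (nat_lit 0)), ((nat_lit 1000), (nat_lit 478), (nat_lit 704))], ((nat_lit 50), (nat_lit 100), (nat_lit 66))⟩, (nat_lit 3442772), (nat_lit 140), (nat_lit 140), (nat_lit 0), (nat_lit 286545), [(nat_lit 1821966001), (nat_lit 2818605200)], [(nat_lit 0), (nat_lit 0)], [(nat_lit 25213087903), (nat_lit 26361435811), (nat_lit 27559416506), (nat_lit 28538012202), (nat_lit 30001174310), (nat_lit 31095259280), (nat_lit 31820033461), (nat_lit 32749062920)], (nat_lit 1271251), (nat_lit 1271251), (nat_lit 1271251), (nat_lit 1271251), (nat_lit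 1271251), (nat_lit 1271251), [(nat_lit 490000), (nat_lit 780000)], [(nat_lit 1), (nat_lit 38), (nat_lit 203), (nat_lit 0), (nat_lit 8)]⟩,
 ⟨⟨[(nat_lit 60), (nat_lit 100), (nat_lit 120)], [(nat_lit 0), (nat_lit 0), (nat_lit 1164)], [((nat_lit 0), (nat_lit 0), (nat_lit 0)), ((nat_lit 0), (nat_lit 0), (nat_lit 0)), ((nat_lit 1000), (nat_lit 933), (nat_lit 572))], ((nat_lit 93), (nat_lit 100), (nat_lit 58))⟩, (nat_lit 5645724), (nat_lit 630), (nat_lit 630), (nat_lit 0), (nat_lit 1129958), [(nat_lit 3206514000), (nat_lit 6106250000), (nat_lit 7784736000)], [], [(nat_lit 27266748948), (nat_lit 28581138673), (nat_lit 28779063507), (nat_lit 29794833653), (nat_lit 35386935796), (nat_lit 34407054968), (nat_lit 34480036922), (nat_lit 36034750898)], (nat_lit 1271251), (nat_lit 1271251), (nat_lit 1271251), (nat_lit 1271251), (nat_lit 111251), (nat_lit 2866250), [(nat_lit 780000), (nat_lit 1435001), (nat_lit 1271251)], [(nat_lit 10), (nat_lit 54), (nat_lit 401),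 (nat_lit 175), (nat_lit 13)]⟩,
 ⟨⟨[(nat_lit 100), (nat_lit 140), (nat_lit 160)], [(nat_lit 0), (nat_lit 508), (nat_lit 1689)], [((nat_lit 0), (nat_lit 0), (nat_lit 0)), ((nat_lit 1000), (nat_lit 1000), (nat_lit 198)), ((nat_lit 811), (nat_lit 1000), (nat_lit 671))], ((nat_lit 100), (nat_lit 88), (nat_lit 58))⟩, (nat_lit 2268887), (nat_lit 300), (nat_lit 1093), (nat_lit 34937500), (nat_lit 1848459), [(nat_lit 3493750000), (nat_lit 5501678000), (nat_lit 6636448000)], [], [(nat_lit 24856296790), (nat_lit 24555008161), (nat_lit 25213001428), (nat_lit 25164294363), (nat_lit 21308469101), (nat_lit 20841398400), (nat_lit 22362156489), (nat_lit 22949791601)], (nat_lit 1271251), (nat_lit 1271251), (nat_lit 1271251), (nat_lit 1271251), (nat_lit 111251), (nat_lit 2866250), [(nat_lit 1412501), (nat_lit 1271251), (nat_lit 1271251)], [(nat_lit 23), (nat_lit 62), (nat_lit 538), (nat_lit 300), (nat_lit 13)]⟩⟩) (.leaf ⟨(nat_lit 0), (nat_lit 372), (nat_lit 0), (nat_lit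 628), (nat_lit 0), (nat_lit 4249), (nat_lit 10434), (nat_lit 6866), (nat_lit 0), (nat_lit 0), (nat_lit 0), [], Pd.none, Pd.none, (nat_lit 0), (nat_lit 1), (nat_lit 0), (nat_lit 0), (nat_lit 6), (nat_lit 0), [⟨(nat_lit 0), (nat_lit 88), (nat_lit 32), (nat_lit 100), (nat_lit 1471821178)⟩], [], [⟨(nat_lit 0), (nat_lit 100), (nat_lit 89), (nat_lit 72), (nat_lit 154619010)⟩], [],
 ⟨⟨[(nat_lit 40), (nat_lit 60), (nat_lit 80)], [(nat_lit 0), (nat_lit 1539), (nat_lit 2453)], [((nat_lit 0), (nat_lit 0), (nat_lit 0)), ((nat_lit 1000), (nat_lit 478), (nat_lit 704)), ((nat_lit 1000), (nat_lit 474), (nat_lit 714))], ((nat_lit 45), (nat_lit 100), (nat_lit 78))⟩, (nat_lit 741583), (nat_lit 127), (nat_lit 127), (nat_lit 0), (nat_lit 182887), [(nat_lit 2032000110), (nat_lit 3311950393), (nat_lit 4688000000)], [], [(nat_lit 25842939536), (nat_lit 26955928662), (nat_lit 27995489128), (nat_lit 28984725010), (nat_lit 30559571554), (nat_lit 31707769847), (nat_lit 32345324953),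 (nat_lit 33314921160)], (nat_lit 1271251), (nat_lit 1271251), (nat_lit 1271251), (nat_lit 1271251), (nat_lit 1271251), (nat_lit 1271251), [(nat_lit 490000), (nat_lit 780000), (nat_lit 1100000)], [(nat_lit 2), (nat_lit 44), (nat_lit 203), (nat_lit 0), (nat_lit 7)]⟩,
 ⟨⟨[(nat_lit 60), (nat_lit 120), (nat_lit 160)], [(nat_lit 0), (nat_lit 0), (nat_lit 3243)], [((nat_lit 0), (nat_lit 0), (nat_lit 0)), ((nat_lit 0), (nat_lit 0), (nat_lit 0)), ((nat_lit 878), (nat_lit 1000), (nat_lit 945))], ((nat_lit 100), (nat_lit 99), (nat_lit 82))⟩, (nat_lit 2673430), (nat_lit 536), (nat_lit 536), (nat_lit 0), (nat_lit 639861), [(nat_lit 3282000000), (nat_lit 7968000000), (nat_lit 11872000000)], [], [(nat_lit 29160037214), (nat_lit 31130874490), (nat_lit 31380913393), (nat_lit 32873099930), (nat_lit 42416509113), (nat_lit 37128187514), (nat_lit 37017862698), (nat_lit 38708344736)], (nat_lit 1271251), (nat_lit 1271251), (nat_lit 1271251), (nat_lit 1271251), (nat_lit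 111251), (nat_lit 2866250), [(nat_lit 780000), (nat_lit 1762501), (nat_lit 1271251)], [(nat_lit 12), (nat_lit 59), (nat_lit 483), (nat_lit 250), (nat_lit 12)]⟩,
 ⟨⟨[(nat_lit 100), (nat_lit 140), (nat_lit 180)], [(nat_lit 0), (nat_lit 508), (nat_lit 2854)], [((nat_lit 0), (nat_lit 0), (nat_lit 0)), ((nat_lit 1000), (nat_lit 1000), (nat_lit 198)), ((nat_lit 777), (nat_lit 1000), (nat_lit 712))], ((nat_lit 100), (nat_lit 74), (nat_lit 76))⟩, (nat_lit 1349953), (nat_lit 300), (nat_lit 818), (nat_lit 39250000), (nat_lit 1110797), [(nat_lit 3925000000), (nat_lit 6180776000), (nat_lit 8828424000)], [], [(nat_lit 30581953316), (nat_lit 30425842291), (nat_lit 31220772982), (nat_lit 31242437430), (nat_lit 25415736836), (nat_lit 25123666604), (nat_lit 25767913610), (nat_lit 26369620012)], (nat_lit 1271251), (nat_lit 1271251), (nat_lit 1271251), (nat_lit 1271251), (nat_lit 111251), (nat_lit 2866250), [(nat_lit 1412501), (nat_lit 1271251), (nat_lit 1271251)],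 [(nat_lit 24), (nat_lit 63), (nat_lit 538), (nat_lit 300), (nat_lit 12)]⟩⟩))))
noncomputable def c14_135 : Tr Lf :=
 (.spl (nat_lit 1) (nat_lit 280) (.trX (nat_lit 3) (nat_lit 0) (nat_lit 1) (nat_lit 48) (nat_lit 71) (nat_lit 100) (nat_lit 360) (.spl (nat_lit 1) (nat_lit 260) (.ord (.trX (nat_lit 3) (nat_lit 0) (nat_lit 1) (nat_lit 46) (nat_lit 76) (nat_lit 100) (nat_lit 340) (.spl (nat_lit 6) (nat_lit 36) (.spl (nat_lit 1) (nat_lit 250) (.ord (.trX (nat_lit 3) (nat_lit 0) (nat_lit 1) (nat_lit 45) (nat_lit 79) (nat_lit 100) (nat_lit 330) (.leaf ⟨(nat_lit 905), (nat_lit 19), (nat_lit 0), (nat_lit 76), (nat_lit 0), (nat_lit 3116), (nat_lit 993), (nat_lit 891), (nat_lit 0), (nat_lit 175542), (nat_lit 362000), [((nat_lit 400), [((nat_lit 27), (nat_lit 1), (nat_lit 905))])], ⟨(nat_lit 7), false, true, true, (nat_lit 278), (nat_lit 0), (nat_lit 2237), [(nat_lit 1659577), (nat_lit 1649997), (nat_lit 1670965), (nat_lit 1662499), (nat_lit 1730844), (nat_lit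 1712494), (nat_lit 1742231), (nat_lit 1724995)]⟩, ⟨(nat_lit 5), false, false, false, (nat_lit 208), (nat_lit 0), (nat_lit 2237), [(nat_lit 1418846), (nat_lit 1433349), (nat_lit 1451618), (nat_lit 1469460), (nat_lit 1579788), (nat_lit 1574999), (nat_lit 1613477), (nat_lit 1612026)]⟩, (nat_lit 5364742), (nat_lit 36436783), (nat_lit 18807069), (nat_lit 11756148), (nat_lit 5), (nat_lit 0), [⟨(nat_lit 1), (nat_lit 88), (nat_lit 32), (nat_lit 100), (nat_lit 19860510)⟩, ⟨(nat_lit 1), (nat_lit 79), (nat_lit 45), (nat_lit 100), (nat_lit 314717016)⟩], [⟨(nat_lit 0), (nat_lit 99), (nat_lit 32), (nat_lit 100), (nat_lit 21319102)⟩], [], [⟨(nat_lit 0), (nat_lit 100), (nat_lit 85), (nat_lit 46), (nat_lit 9601565)⟩],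
 ⟨⟨[(nat_lit 40), (nat_lit 60)], [(nat_lit 0), (nat_lit 1539)], [((nat_lit 0), (nat_lit 0), (nat_lit 0)), ((nat_lit 1000), (nat_lit 478), (nat_lit 704))], ((nat_lit 50), (nat_lit 100), (nat_lit 66))⟩, (nat_lit 0), (nat_lit 135), (nat_lit 135), (nat_lit 0), (nat_lit 244576), [(nat_lit 1433466007), (nat_lit 605372000)], [(nat_lit 0), (nat_lit 0)], [(nat_lit 25134605284), (nat_lit 26256491707), (nat_lit 27077578274), (nat_lit 28255975802), (nat_lit 27000648511), (nat_lit 27956192101), (nat_lit 28659715089), (nat_lit 29583036010)], (nat_lit 1271251), (nat_lit 1271251), (nat_lit 1271251), (nat_lit 1271251), (nat_lit 857188), (nat_lit 1768126), [(nat_lit 490000), (nat_lit 780000)], [(nat_lit 1), (nat_lit 38), (nat_lit 203), (nat_lit 0), (nat_lit 8)]⟩,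
 ⟨⟨[(nat_lit 80), (nat_lit 120), (nat_lit 140)], [(nat_lit 0), (nat_lit 0), (nat_lit 1164)], [((nat_lit 0), (nat_lit 0), (nat_lit 0)), ((nat_lit 0), (nat_lit 0), (nat_lit 0)), ((nat_lit 941), (nat_lit 1000), (nat_lit 576))], ((nat_lit 100), (nat_lit 94), (nat_lit 58))⟩, (nat_lit 311544), (nat_lit 792), (nat_lit 792), (nat_lit 0), (nat_lit 1338228), [(nat_lit 445360000), (nat_lit 756960000), (nat_lit 934990000)], [], [(nat_lit 3127041874), (nat_lit 3131001315), (nat_lit 3205913689), (nat_lit 3223000334), (nat_lit 3357916280), (nat_lit 3398092888), (nat_lit 3614910693), (nat_lit 3646669298)], (nat_lit 1271251), (nat_lit 1271251), (nat_lit 1271251), (nat_lit 1271251), (nat_lit 0), (nat_lit 2825001), [(nat_lit 1100000), (nat_lit 1785001), (nat_lit 1271251)], [(nat_lit 17), (nat_lit 58), (nat_lit 401), (nat_lit 175), (nat_lit 11)]⟩,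
 ⟨⟨[(nat_lit 100), (nat_lit 140), (nat_lit 160)], [(nat_lit 0), (nat_lit 508), (nat_lit 1689)], [((nat_lit 0), (nat_lit 0), (nat_lit 0)), ((nat_lit 1000), (nat_lit 1000), (nat_lit 198)), ((nat_lit 811), (nat_lit 1000), (nat_lit 671))], ((nat_lit 100), (nat_lit 88), (nat_lit 58))⟩, (nat_lit 163370), (nat_lit 300), (nat_lit 1025), (nat_lit 4750001), (nat_lit 1549090), [(nat_lit 475000000), (nat_lit 747992000), (nat_lit 902272000)], [], [(nat_lit 3297634263), (nat_lit 3277680962), (nat_lit 3132449011), (nat_lit 3130340797), (nat_lit 3281866806), (nat_lit 2825062686), (nat_lit 4598730627), (nat_lit 4010000150)], (nat_lit 1271251), (nat_lit 1271251), (nat_lit 857188), (nat_lit 1768126), (nat_lit 0), (nat_lit 2825001), [(nat_lit 1412501), (nat_lit 1271251), (nat_lit 1271251)], [(nat_lit 23), (nat_lit 62), (nat_lit 456), (nat_lit 225), (nat_lit 12)]⟩⟩))) (.trZ (nat_lit 1) (nat_lit 2) (nat_lit 5) (nat_lit 100) (nat_lit 97) (nat_lit 35) (nat_lit 10) (.leaf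 ⟨(nat_lit 23), (nat_lit 372), (nat_lit 0), (nat_lit 605), (nat_lit 0), (nat_lit 3813), (nat_lit 7921), (nat_lit 6265), (nat_lit 0), (nat_lit 29618), (nat_lit 92000), [((nat_lit 400), [((nat_lit 43), (nat_lit 5), (nat_lit 23))])], ⟨(nat_lit 7), false, true, true, (nat_lit 285), (nat_lit 0), (nat_lit 2237), [(nat_lit 1670965), (nat_lit 1662499), (nat_lit 1682352), (nat_lit 1674999), (nat_lit 1756485), (nat_lit 1737495), (nat_lit 1767872), (nat_lit 1749995)]⟩, ⟨(nat_lit 5), false, false, false, (nat_lit 210), (nat_lit 0), (nat_lit 2237), [(nat_lit 1418846), (nat_lit 1433349), (nat_lit 1462542), (nat_lit 1481496), (nat_lit 1579788), (nat_lit 1574999), (nat_lit 1624400), (nat_lit 1624062)]⟩, (nat_lit 5400178), (nat_lit 35805244), (nat_lit 19387323), (nat_lit 11807433), (nat_lit 5), (nat_lit 0), [⟨(nat_lit 1), (nat_lit 86), (nat_lit 32), (nat_lit 100), (nat_lit 565382503)⟩], [⟨(nat_lit 0), (nat_lit 99), (nat_lit 31), (nat_lit 100), (nat_lit 978283300)⟩],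 [], [],
 ⟨⟨[(nat_lit 40), (nat_lit 60)], [(nat_lit 0), (nat_lit 1539)], [((nat_lit 0), (nat_lit 0), (nat_lit 0)), ((nat_lit 1000), (nat_lit 478), (nat_lit 704))], ((nat_lit 50), (nat_lit 100), (nat_lit 66))⟩, (nat_lit 607193), (nat_lit 139), (nat_lit 139), (nat_lit 0), (nat_lit 250206), [(nat_lit 1821966006), (nat_lit 2818605200)], [(nat_lit 0), (nat_lit 0)], [(nat_lit 25963956678), (nat_lit 27108807169), (nat_lit 28567379444), (nat_lit 29824105472), (nat_lit 27601607776), (nat_lit 28538048595), (nat_lit 29774264881), (nat_lit 30835925427)], (nat_lit 1271251), (nat_lit 1271251), (nat_lit 1271251), (nat_lit 1271251), (nat_lit 857188), (nat_lit 1768126), [(nat_lit 490000), (nat_lit 780000)], [(nat_lit 1), (nat_lit 38), (nat_lit 203), (nat_lit 0), (nat_lit 8)]⟩,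
 ⟨⟨[(nat_lit 80), (nat_lit 120), (nat_lit 140)], [(nat_lit 0), (nat_lit 264), (nat_lit 1360)], [((nat_lit 0), (nat_lit 0), (nat_lit 0)), ((nat_lit 1000), (nat_lit 979), (nat_lit 103)), ((nat_lit 951), (nat_lit 1000), (nat_lit 628))], ((nat_lit 100), (nat_lit 97), (nat_lit 59))⟩, (nat_lit 13072044), (nat_lit 757), (nat_lit 757), (nat_lit 0), (nat_lit 1274033), [(nat_lit 4580176000), (nat_lit 7784736000), (nat_lit 9615634000)], [], [(nat_lit 24760751916), (nat_lit 25097166740), (nat_lit 29669399777), (nat_lit 30476851504), (nat_lit 32561274030), (nat_lit 32938654384), (nat_lit 35443735060), (nat_lit 35736509535)], (nat_lit 1271251), (nat_lit 1271251), (nat_lit 1271251), (nat_lit 1271251), (nat_lit 54688), (nat_lit 2845626), [(nat_lit 1100000), (nat_lit 1785001), (nat_lit 1271251)], [(nat_lit 17), (nat_lit 58), (nat_lit 401), (nat_lit 175), (nat_lit 11)]⟩,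
 ⟨⟨[(nat_lit 100), (nat_lit 140), (nat_lit 160)], [(nat_lit 0), (nat_lit 508), (nat_lit 1689)], [((nat_lit 0), (nat_lit 0), (nat_lit 0)), ((nat_lit 1000), (nat_lit 1000), (nat_lit 198)), ((nat_lit 811), (nat_lit 1000), (nat_lit 671))], ((nat_lit 100), (nat_lit 88), (nat_lit 58))⟩, (nat_lit 1300512), (nat_lit 300), (nat_lit 1030), (nat_lit 37812500), (nat_lit 1576798), [(nat_lit 3781250000), (nat_lit 5954410000), (nat_lit 7182560000)], [], [(nat_lit 28532186272), (nat_lit 28253579316), (nat_lit 26879404406), (nat_lit 26678025346), (nat_lit 26587046010), (nat_lit 23719367569), (nat_lit 36103767105), (nat_lit 30607282125)], (nat_lit 1271251), (nat_lit 1271251), (nat_lit 857188), (nat_lit 1768126), (nat_lit 54688), (nat_lit 2845626), [(nat_lit 1412501), (nat_lit 1271251), (nat_lit 1271251)], [(nat_lit 23), (nat_lit 62), (nat_lit 456), (nat_lit 225), (nat_lit 12)]⟩⟩))) (.spl (nat_lit 5) (nat_lit 120) (.leaf ⟨(nat_lit 767), (nat_lit 83), (nat_lit 0), (nat_lit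 150), (nat_lit 0), (nat_lit 3263), (nat_lit 2493), (nat_lit 1938), (nat_lit 0), (nat_lit 6881159), (nat_lit 306800), [((nat_lit 400), [((nat_lit 28), (nat_lit 1), (nat_lit 767))])], ⟨(nat_lit 7), false, true, true, (nat_lit 283), (nat_lit 0), (nat_lit 2237), [(nat_lit 1659577), (nat_lit 1649997), (nat_lit 1682352), (nat_lit 1674999), (nat_lit 1745097), (nat_lit 1724995), (nat_lit 1767872), (nat_lit 1749995)]⟩, ⟨(nat_lit 5), false, false, false, (nat_lit 210), (nat_lit 0), (nat_lit 2237), [(nat_lit 1418846), (nat_lit 1433349), (nat_lit 1462542), (nat_lit 1481496), (nat_lit 1579788), (nat_lit 1574999), (nat_lit 1624400), (nat_lit 1624062)]⟩, (nat_lit 5393708), (nat_lit 35967055), (nat_lit 19185410), (nat_lit 11847535), (nat_lit 5), (nat_lit 0), [⟨(nat_lit 1), (nat_lit 87), (nat_lit 32), (nat_lit 100), (nat_lit 494153816)⟩], [⟨(nat_lit 0), (nat_lit 99), (nat_lit 31), (nat_lit 100), (nat_lit 107418813)⟩], [⟨(nat_lit 0), (nat_lit 100), (nat_lit 99), (nat_lit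 45), (nat_lit 212164326)⟩], [],
 ⟨⟨[(nat_lit 40), (nat_lit 60), (nat_lit 80)], [(nat_lit 0), (nat_lit 1539), (nat_lit 2453)], [((nat_lit 0), (nat_lit 0), (nat_lit 0)), ((nat_lit 1000), (nat_lit 478), (nat_lit 704)), ((nat_lit 1000), (nat_lit 474), (nat_lit 714))], ((nat_lit 45), (nat_lit 100), (nat_lit 78))⟩, (nat_lit 0), (nat_lit 125), (nat_lit 125), (nat_lit 0), (nat_lit 141390), [(nat_lit 1489052441), (nat_lit 1137530871), (nat_lit 1243863200)], [(nat_lit 0), (nat_lit 0), (nat_lit 0)], [(nat_lit 25407146453), (nat_lit 26447535762), (nat_lit 27798305747), (nat_lit 28969858328), (nat_lit 27085372248), (nat_lit 27973591870), (nat_lit 29180826293), (nat_lit 30177311977)], (nat_lit 1271251), (nat_lit 1271251), (nat_lit 1271251), (nat_lit 1271251), (nat_lit 857188), (nat_lit 1768126), [(nat_lit 490000), (nat_lit 780000), (nat_lit 1100000)], [(nat_lit 2), (nat_lit 44), (nat_lit 272), (nat_lit 60), (nat_lit 10)]⟩,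
 ⟨⟨[(nat_lit 80), (nat_lit 140), (nat_lit 180)], [(nat_lit 0), (nat_lit 0), (nat_lit 3656)], [((nat_lit 0), (nat_lit 0), (nat_lit 0)), ((nat_lit 0), (nat_lit 0), (nat_lit 0)), ((nat_lit 637), (nat_lit 1000), (nat_lit 908))], ((nat_lit 100), (nat_lit 81), (nat_lit 77))⟩, (nat_lit 458957), (nat_lit 633), (nat_lit 633), (nat_lit 0), (nat_lit 709490), [(nat_lit 1092304000), (nat_lit 2293186000), (nat_lit 3275514000)], [], [(nat_lit 9260240606), (nat_lit 9371592073), (nat_lit 9781852190), (nat_lit 9974350357), (nat_lit 7591127997), (nat_lit 7684729837), (nat_lit 8000194000), (nat_lit 8065125232)], (nat_lit 1271251), (nat_lit 1271251), (nat_lit 1271251), (nat_lit 1271251), (nat_lit 0), (nat_lit 780000), [(nat_lit 1100000), (nat_lit 2127501), (nat_lit 1271251)], [(nat_lit 19), (nat_lit 63), (nat_lit 428), (nat_lit 200), (nat_lit 10)]⟩,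
 ⟨⟨[(nat_lit 100), (nat_lit 140), (nat_lit 180)], [(nat_lit 0), (nat_lit 508), (nat_lit 2854)], [((nat_lit 0), (nat_lit 0), (nat_lit 0)), ((nat_lit 1000), (nat_lit 1000), (nat_lit 198)), ((nat_lit 777), (nat_lit 1000), (nat_lit 712))], ((nat_lit 100), (nat_lit 74), (nat_lit 76))⟩, (nat_lit 322441), (nat_lit 300), (nat_lit 764), (nat_lit 9375000), (nat_lit 821339), [(nat_lit 937500000), (nat_lit 1476300000), (nat_lit 2108700000)], [], [(nat_lit 7545626305), (nat_lit 7503663265), (nat_lit 7034303580), (nat_lit 7085613078), (nat_lit 6023046831), (nat_lit 5975165202), (nat_lit 5526070047), (nat_lit 5479358430)], (nat_lit 1271251), (nat_lit 1271251), (nat_lit 857188), (nat_lit 1768126), (nat_lit 0), (nat_lit 780000), [(nat_lit 1412501), (nat_lit 1271251), (nat_lit 1271251)], [(nat_lit 24), (nat_lit 63), (nat_lit 401), (nat_lit 175), (nat_lit 9)]⟩⟩) (.leaf ⟨(nat_lit 0), (nat_lit 0), (nat_lit 0), (nat_lit 1000), (nat_lit 0), (nat_lit 4229), (nat_lit 11132),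 (nat_lit 9095), (nat_lit 0), (nat_lit 2730), (nat_lit 0), [], Pd.none, Pd.none, (nat_lit 0), (nat_lit 1), (nat_lit 0), (nat_lit 0), (nat_lit 0), (nat_lit 0), [⟨(nat_lit 1), (nat_lit 87), (nat_lit 32), (nat_lit 100), (nat_lit 483781689)⟩], [⟨(nat_lit 0), (nat_lit 99), (nat_lit 31), (nat_lit 100), (nat_lit 1747033239)⟩], [], [],
 ⟨⟨[(nat_lit 40), (nat_lit 60), (nat_lit 80)], [(nat_lit 0), (nat_lit 1539), (nat_lit 2453)], [((nat_lit 0), (nat_lit 0), (nat_lit 0)), ((nat_lit 1000), (nat_lit 478), (nat_lit 704)), ((nat_lit 1000), (nat_lit 474), (nat_lit 714))], ((nat_lit 45), (nat_lit 100), (nat_lit 78))⟩, (nat_lit 764090), (nat_lit 125), (nat_lit 125), (nat_lit 0), (nat_lit 141390), [(nat_lit 2032000001), (nat_lit 3309749211), (nat_lit 4688000000)], [], [(nat_lit 26512243269), (nat_lit 27657515284), (nat_lit 29149078822), (nat_lit 30470226948), (nat_lit 27976806869), (nat_lit 28964215210), (nat_lit 30223120249), (nat_lit 31334076691)], (nat_lit 1271251),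 (nat_lit 1271251), (nat_lit 1271251), (nat_lit 1271251), (nat_lit 857188), (nat_lit 1768126), [(nat_lit 490000), (nat_lit 780000), (nat_lit 1100000)], [(nat_lit 2), (nat_lit 44), (nat_lit 272), (nat_lit 60), (nat_lit 10)]⟩,
 ⟨⟨[(nat_lit 80), (nat_lit 140), (nat_lit 180)], [(nat_lit 0), (nat_lit 0), (nat_lit 3656)], [((nat_lit 0), (nat_lit 0), (nat_lit 0)), ((nat_lit 0), (nat_lit 0), (nat_lit 0)), ((nat_lit 637), (nat_lit 1000), (nat_lit 908))], ((nat_lit 100), (nat_lit 81), (nat_lit 77))⟩, (nat_lit 1868829), (nat_lit 548), (nat_lit 548), (nat_lit 0), (nat_lit 709490), [(nat_lit 4688000000), (nat_lit 9842000000), (nat_lit 14058000000)], [], [(nat_lit 31353662344), (nat_lit 31755152168), (nat_lit 33128777088), (nat_lit 33424438885), (nat_lit 36043172680), (nat_lit 36910228642), (nat_lit 39600274228), (nat_lit 40239974716)], (nat_lit 1271251), (nat_lit 1271251), (nat_lit 1271251), (nat_lit 1271251), (nat_lit 780000), (nat_lit 3072501), [(nat_lit 1100000),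 (nat_lit 2127501), (nat_lit 1271251)], [(nat_lit 19), (nat_lit 63), (nat_lit 483), (nat_lit 250), (nat_lit 10)]⟩,
 ⟨⟨[(nat_lit 100), (nat_lit 140), (nat_lit 180)], [(nat_lit 0), (nat_lit 508), (nat_lit 2854)], [((nat_lit 0), (nat_lit 0), (nat_lit 0)), ((nat_lit 1000), (nat_lit 1000), (nat_lit 198)), ((nat_lit 777), (nat_lit 1000), (nat_lit 712))], ((nat_lit 100), (nat_lit 74), (nat_lit 76))⟩, (nat_lit 2149606), (nat_lit 300), (nat_lit 648), (nat_lit 62500002), (nat_lit 821339), [(nat_lit 6250000000), (nat_lit 9842000000), (nat_lit 14058000000)], [], [(nat_lit 49127088484), (nat_lit 48925776876), (nat_lit 47068718276), (nat_lit 46788943533), (nat_lit 52842722910), (nat_lit 47792723829), (nat_lit 67101786015), (nat_lit 59122451475)], (nat_lit 1271251), (nat_lit 1271251), (nat_lit 857188), (nat_lit 1768126), (nat_lit 780000), (nat_lit 3072501), [(nat_lit 1412501), (nat_lit 1271251), (nat_lit 1271251)], [(nat_lit 24), (nat_lit 63), (nat_lit 456), (nat_lit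 225), (nat_lit 10)]⟩⟩))))) (.trZ (nat_lit 1) (nat_lit 2) (nat_lit 5) (nat_lit 100) (nat_lit 96) (nat_lit 40) (nat_lit 10) (.leaf ⟨(nat_lit 23), (nat_lit 495), (nat_lit 0), (nat_lit 482), (nat_lit 0), (nat_lit 3779), (nat_lit 7291), (nat_lit 5328), (nat_lit 0), (nat_lit 123830), (nat_lit 92000), [((nat_lit 400), [((nat_lit 43), (nat_lit 5), (nat_lit 23))])], ⟨(nat_lit 7), false, true, true, (nat_lit 298), (nat_lit 0), (nat_lit 2237), [(nat_lit 1682352), (nat_lit 1674999), (nat_lit 1705063), (nat_lit 1699935), (nat_lit 1796379), (nat_lit 1774994), (nat_lit 1819154), (nat_lit 1799995)]⟩, ⟨(nat_lit 5), false, false, false, (nat_lit 215), (nat_lit 0), (nat_lit 2237), [(nat_lit 1418846), (nat_lit 1433349), (nat_lit 1484390), (nat_lit 1505570), (nat_lit 1579788), (nat_lit 1574999), (nat_lit 1646249), (nat_lit 1648136)]⟩, (nat_lit 5457166), (nat_lit 34732070), (nat_lit 20329020), (nat_lit 11938910), (nat_lit 5), (nat_lit 0), [⟨(nat_lit 1), (nat_lit 83),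 (nat_lit 33), (nat_lit 100), (nat_lit 215014085)⟩], [⟨(nat_lit 0), (nat_lit 97), (nat_lit 31), (nat_lit 100), (nat_lit 642564202)⟩], [], [],
 ⟨⟨[(nat_lit 40), (nat_lit 60), (nat_lit 80)], [(nat_lit 0), (nat_lit 1539), (nat_lit 2453)], [((nat_lit 0), (nat_lit 0), (nat_lit 0)), ((nat_lit 1000), (nat_lit 478), (nat_lit 704)), ((nat_lit 1000), (nat_lit 474), (nat_lit 714))], ((nat_lit 45), (nat_lit 100), (nat_lit 78))⟩, (nat_lit 1692502), (nat_lit 172), (nat_lit 172), (nat_lit 0), (nat_lit 272917), [(nat_lit 1821966024), (nat_lit 3087757318), (nat_lit 3937215600)], [(nat_lit 0), (nat_lit 0), (nat_lit 0)], [(nat_lit 25914602884), (nat_lit 27065408452), (nat_lit 29634980980), (nat_lit 30818283497), (nat_lit 27632726871), (nat_lit 28607588330), (nat_lit 30685957956), (nat_lit 31688962918)], (nat_lit 1271251), (nat_lit 1271251), (nat_lit 1271251), (nat_lit 1271251), (nat_lit 857188), (nat_lit 1768126), [(nat_lit 490000), (nat_lit 780000), (nat_lit 1100000)],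 [(nat_lit 2), (nat_lit 44), (nat_lit 272), (nat_lit 60), (nat_lit 10)]⟩,
 ⟨⟨[(nat_lit 80), (nat_lit 120), (nat_lit 160)], [(nat_lit 0), (nat_lit 528), (nat_lit 2577)], [((nat_lit 0), (nat_lit 0), (nat_lit 0)), ((nat_lit 1000), (nat_lit 959), (nat_lit 206)), ((nat_lit 929), (nat_lit 1000), (nat_lit 742))], ((nat_lit 100), (nat_lit 90), (nat_lit 79))⟩, (nat_lit 7754400), (nat_lit 817), (nat_lit 817), (nat_lit 0), (nat_lit 1261768), [(nat_lit 4580176000), (nat_lit 7784736000), (nat_lit 11598944000)], [], [(nat_lit 27846580880), (nat_lit 28340195206), (nat_lit 31905634499), (nat_lit 33309478169), (nat_lit 32272905979), (nat_lit 33007976981), (nat_lit 36102049417), (nat_lit 36623541263)], (nat_lit 1271251), (nat_lit 1271251), (nat_lit 1271251), (nat_lit 1271251), (nat_lit 54688), (nat_lit 2845626), [(nat_lit 1100000), (nat_lit 1785001), (nat_lit 1271251)], [(nat_lit 18), (nat_lit 59), (nat_lit 538), (nat_lit 300), (nat_lit 13)]⟩,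
 ⟨⟨[(nat_lit 100), (nat_lit 140), (nat_lit 180)], [(nat_lit 0), (nat_lit 508), (nat_lit 2854)], [((nat_lit 0), (nat_lit 0), (nat_lit 0)), ((nat_lit 1000), (nat_lit 1000), (nat_lit 198)), ((nat_lit 777), (nat_lit 1000), (nat_lit 712))], ((nat_lit 100), (nat_lit 74), (nat_lit 76))⟩, (nat_lit 1077440), (nat_lit 300), (nat_lit 1142), (nat_lit 30125000), (nat_lit 1677160), [(nat_lit 3012500000), (nat_lit 4743844000), (nat_lit 6775956000)], [], [(nat_lit 25271522658), (nat_lit 25049907881), (nat_lit 23761685901), (nat_lit 23635471117), (nat_lit 21252279240), (nat_lit 20754944237), (nat_lit 29227190856), (nat_lit 22244894808)], (nat_lit 1271251), (nat_lit 1271251), (nat_lit 857188), (nat_lit 1768126), (nat_lit 54688), (nat_lit 2845626), [(nat_lit 1412501), (nat_lit 1271251), (nat_lit 1271251)], [(nat_lit 24), (nat_lit 63), (nat_lit 483), (nat_lit 250), (nat_lit 11)]⟩⟩)))) (.trZ (nat_lit 1) (nat_lit 2) (nat_lit 5) (nat_lit 100) (nat_lit 92) (nat_lit 49)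 (nat_lit 20) (.spl (nat_lit 6) (nat_lit 36) (.leaf ⟨(nat_lit 22), (nat_lit 549), (nat_lit 0), (nat_lit 429), (nat_lit 0), (nat_lit 3781), (nat_lit 7104), (nat_lit 4376), (nat_lit 0), (nat_lit 0), (nat_lit 88000), [((nat_lit 400), [((nat_lit 43), (nat_lit 5), (nat_lit 22))])], ⟨(nat_lit 7), false, true, true, (nat_lit 317), (nat_lit 0), (nat_lit 2237), [(nat_lit 1705063), (nat_lit 1699935), (nat_lit 1748802), (nat_lit 1748125), (nat_lit 1847661), (nat_lit 1824994), (nat_lit 1893212), (nat_lit 1874997)]⟩, ⟨(nat_lit 5), false, false, false, (nat_lit 215), (nat_lit 0), (nat_lit 2237), [(nat_lit 1418846), (nat_lit 1433349), (nat_lit 1484390), (nat_lit 1505570), (nat_lit 1579788), (nat_lit 1574999), (nat_lit 1646249), (nat_lit 1648136)]⟩, (nat_lit 5488739), (nat_lit 33461999), (nat_lit 21942138), (nat_lit 11595863), (nat_lit 5), (nat_lit 0), [], [⟨(nat_lit 0), (nat_lit 97), (nat_lit 31), (nat_lit 100), (nat_lit 428880270)⟩], [], [],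
 ⟨⟨[(nat_lit 40), (nat_lit 60)], [(nat_lit 0), (nat_lit 1539)], [((nat_lit 0), (nat_lit 0), (nat_lit 0)), ((nat_lit 1000), (nat_lit 478), (nat_lit 704))], ((nat_lit 50), (nat_lit 100), (nat_lit 66))⟩, (nat_lit 2204025), (nat_lit 156), (nat_lit 156), (nat_lit 0), (nat_lit 286545), [(nat_lit 1823484002), (nat_lit 2838752800)], [(nat_lit 0), (nat_lit 0)], [(nat_lit 25916693608), (nat_lit 27067785492), (nat_lit 30753433464), (nat_lit 31868833528), (nat_lit 27634486414), (nat_lit 28609567534), (nat_lit 31636882585), (nat_lit 32585455105)], (nat_lit 1271251), (nat_lit 1271251), (nat_lit 1271251), (nat_lit 1271251), (nat_lit 857188), (nat_lit 1768126), [(nat_lit 490000), (nat_lit 780000)], [(nat_lit 1), (nat_lit 38), (nat_lit 203), (nat_lit 0), (nat_lit 8)]⟩,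
 ⟨⟨[(nat_lit 60), (nat_lit 100), (nat_lit 120)], [(nat_lit 0), (nat_lit 0), (nat_lit 1164)], [((nat_lit 0), (nat_lit 0), (nat_lit 0)), ((nat_lit 0), (nat_lit 0), (nat_lit 0)), ((nat_lit 1000), (nat_lit 933), (nat_lit 572))], ((nat_lit 93), (nat_lit 100), (nat_lit 58))⟩, (nat_lit 5265772), (nat_lit 616), (nat_lit 616), (nat_lit 0), (nat_lit 1129958), [(nat_lit 3209796000), (nat_lit 6112500000), (nat_lit 7792704000)], [], [(nat_lit 35108706224), (nat_lit 36080453097), (nat_lit 38119622907), (nat_lit 38775005493), (nat_lit 35242210002), (nat_lit 35527288284), (nat_lit 37468129011), (nat_lit 38400515322)], (nat_lit 1271251), (nat_lit 1271251), (nat_lit 1271251), (nat_lit 1271251), (nat_lit 111251), (nat_lit 2866250), [(nat_lit 780000), (nat_lit 1435001), (nat_lit 1271251)], [(nat_lit 10), (nat_lit 54), (nat_lit 317), (nat_lit 100), (nat_lit 10)]⟩,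
 ⟨⟨[(nat_lit 100), (nat_lit 140), (nat_lit 160)], [(nat_lit 0), (nat_lit 508), (nat_lit 1689)], [((nat_lit 0), (nat_lit 0), (nat_lit 0)), ((nat_lit 1000), (nat_lit 1000), (nat_lit 198)), ((nat_lit 811), (nat_lit 1000), (nat_lit 671))], ((nat_lit 100), (nat_lit 88), (nat_lit 58))⟩, (nat_lit 1400581), (nat_lit 300), (nat_lit 1150), (nat_lit 26812500), (nat_lit 1848459), [(nat_lit 2681250000), (nat_lit 4222218000), (nat_lit 5093088000)], [], [(nat_lit 20242173597), (nat_lit 20014318609), (nat_lit 19101020241), (nat_lit 18863062619), (nat_lit 19235105140), (nat_lit 17015083308), (nat_lit 25905762532), (nat_lit 20171053916)], (nat_lit 1271251), (nat_lit 1271251), (nat_lit 857188), (nat_lit 1768126), (nat_lit 111251), (nat_lit 2866250), [(nat_lit 1412501), (nat_lit 1271251), (nat_lit 1271251)], [(nat_lit 23), (nat_lit 62), (nat_lit 483), (nat_lit 250), (nat_lit 12)]⟩⟩) (.leaf ⟨(nat_lit 22), (nat_lit 542), (nat_lit 0), (nat_lit 436), (nat_lit 0), (nat_lit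 3951), (nat_lit 8379), (nat_lit 4689), (nat_lit 0), (nat_lit 0), (nat_lit 88000), [((nat_lit 400), [((nat_lit 43), (nat_lit 5), (nat_lit 22))])], ⟨(nat_lit 7), false, true, true, (nat_lit 317), (nat_lit 0), (nat_lit 2237), [(nat_lit 1705063), (nat_lit 1699935), (nat_lit 1748802), (nat_lit 1748125), (nat_lit 1847661), (nat_lit 1824994), (nat_lit 1893212), (nat_lit 1874997)]⟩, ⟨(nat_lit 5), false, false, false, (nat_lit 215), (nat_lit 0), (nat_lit 2237), [(nat_lit 1418846), (nat_lit 1433349), (nat_lit 1484390), (nat_lit 1505570), (nat_lit 1579788), (nat_lit 1574999), (nat_lit 1646249), (nat_lit 1648136)]⟩, (nat_lit 5488739), (nat_lit 33461999), (nat_lit 21942138), (nat_lit 11595863), (nat_lit 5), (nat_lit 0), [], [⟨(nat_lit 0), (nat_lit 97), (nat_lit 31), (nat_lit 100), (nat_lit 513351202)⟩], [], [],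
 ⟨⟨[(nat_lit 40), (nat_lit 60), (nat_lit 80)], [(nat_lit 0), (nat_lit 1539), (nat_lit 2453)], [((nat_lit 0), (nat_lit 0), (nat_lit 0)), ((nat_lit 1000), (nat_lit 478), (nat_lit 704)), ((nat_lit 1000), (nat_lit 474), (nat_lit 714))], ((nat_lit 45), (nat_lit 100), (nat_lit 78))⟩, (nat_lit 612691), (nat_lit 148), (nat_lit 148), (nat_lit 0), (nat_lit 182887), [(nat_lit 1823484001), (nat_lit 2839879683), (nat_lit 3969858400)], [(nat_lit 0), (nat_lit 0), (nat_lit 0)], [(nat_lit 26226661533), (nat_lit 27309662251), (nat_lit 31034631346), (nat_lit 32171773507), (nat_lit 27720749073), (nat_lit 28679284915), (nat_lit 31853314643), (nat_lit 32818389955)], (nat_lit 1271251), (nat_lit 1271251), (nat_lit 1271251), (nat_lit 1271251), (nat_lit 857188), (nat_lit 1768126), [(nat_lit 490000), (nat_lit 780000), (nat_lit 1100000)], [(nat_lit 2), (nat_lit 44), (nat_lit 272), (nat_lit 60), (nat_lit 10)]⟩,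
 ⟨⟨[(nat_lit 60), (nat_lit 120), (nat_lit 160)], [(nat_lit 0), (nat_lit 0), (nat_lit 3243)], [((nat_lit 0), (nat_lit 0), (nat_lit 0)), ((nat_lit 0), (nat_lit 0), (nat_lit 0)), ((nat_lit 878), (nat_lit 1000), (nat_lit 945))], ((nat_lit 100), (nat_lit 99), (nat_lit 82))⟩, (nat_lit 1908767), (nat_lit 520), (nat_lit 520), (nat_lit 0), (nat_lit 639861), [(nat_lit 3209796000), (nat_lit 7792704000), (nat_lit 11610816000)], [], [(nat_lit 34678354122), (nat_lit 36031450719), (nat_lit 38897604016), (nat_lit 39968490776), (nat_lit 34386724812), (nat_lit 35756571324), (nat_lit 39216801711), (nat_lit 40150849347)], (nat_lit 1271251), (nat_lit 1271251), (nat_lit 1271251), (nat_lit 1271251), (nat_lit 111251), (nat_lit 2866250), [(nat_lit 780000), (nat_lit 1762501), (nat_lit 1271251)], [(nat_lit 12), (nat_lit 59), (nat_lit 538), (nat_lit 300), (nat_lit 13)]⟩,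
 ⟨⟨[(nat_lit 100), (nat_lit 140), (nat_lit 180)], [(nat_lit 0), (nat_lit 508), (nat_lit 2854)], [((nat_lit 0), (nat_lit 0), (nat_lit 0)), ((nat_lit 1000), (nat_lit 1000), (nat_lit 198)), ((nat_lit 777), (nat_lit 1000), (nat_lit 712))], ((nat_lit 100), (nat_lit 74), (nat_lit 76))⟩, (nat_lit 937228), (nat_lit 300), (nat_lit 866), (nat_lit 27250002), (nat_lit 1110797), [(nat_lit 2725000000), (nat_lit 4291112000), (nat_lit 6129288000)], [], [(nat_lit 22910650161), (nat_lit 22605110723), (nat_lit 21500024740), (nat_lit 21282617812), (nat_lit 19619504630), (nat_lit 18954970779), (nat_lit 26680989053), (nat_lit 20536096754)], (nat_lit 1271251), (nat_lit 1271251), (nat_lit 857188), (nat_lit 1768126), (nat_lit 111251), (nat_lit 2866250), [(nat_lit 1412501), (nat_lit 1271251), (nat_lit 1271251)], [(nat_lit 24), (nat_lit 63), (nat_lit 483), (nat_lit 250), (nat_lit 11)]⟩⟩))))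
noncomputable def c14_136 : Tr Lf :=
 (.trZ (nat_lit 3) (nat_lit 4) (nat_lit 5) (nat_lit 100) (nat_lit 94) (nat_lit 59) (nat_lit 30) (.spl (nat_lit 6) (nat_lit 36) (.spl (nat_lit 1) (nat_lit 280) (.trX (nat_lit 3) (nat_lit 0) (nat_lit 1) (nat_lit 48) (nat_lit 71) (nat_lit 100) (nat_lit 360) (.spl (nat_lit 1) (nat_lit 260) (.ord (.trX (nat_lit 3) (nat_lit 0) (nat_lit 1) (nat_lit 46) (nat_lit 76) (nat_lit 100) (nat_lit 340) (.trX (nat_lit 4) (nat_lit 0) (nat_lit 2) (nat_lit 46) (nat_lit 76) (nat_lit 100) (nat_lit 340) (.leaf ⟨(nat_lit 739), (nat_lit 18), (nat_lit 0), (nat_lit 243), (nat_lit 0), (nat_lit 3252), (nat_lit 3017), (nat_lit 2516), (nat_lit 0), (nat_lit 23257), (nat_lit 443400), [((nat_lit 400), [((nat_lit 43), (nat_lit 2), (nat_lit 739))])], ⟨(nat_lit 7), false, true, true, (nat_lit 283), (nat_lit 0), (nat_lit 2237), [(nat_lit 1659577), (nat_lit 1649997), (nat_lit 1682352), (nat_lit 1674999), (nat_lit 1745097), (nat_lit 1724995), (nat_lit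 1767872), (nat_lit 1749995)]⟩, ⟨(nat_lit 6), false, true, true, (nat_lit 267), (nat_lit 0), (nat_lit 2237), [(nat_lit 1579788), (nat_lit 1574999), (nat_lit 1624400), (nat_lit 1624062), (nat_lit 1722322), (nat_lit 1699994), (nat_lit 1767872), (nat_lit 1749995)]⟩, (nat_lit 5665881), (nat_lit 32897405), (nat_lit 17842767), (nat_lit 16259828), (nat_lit 6), (nat_lit 0), [⟨(nat_lit 1), (nat_lit 87), (nat_lit 32), (nat_lit 100), (nat_lit 507459688)⟩], [], [], [⟨(nat_lit 0), (nat_lit 100), (nat_lit 94), (nat_lit 97), (nat_lit 83465038)⟩],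
 ⟨⟨[(nat_lit 40), (nat_lit 60)], [(nat_lit 0), (nat_lit 1539)], [((nat_lit 0), (nat_lit 0), (nat_lit 0)), ((nat_lit 1000), (nat_lit 478), (nat_lit 704))], ((nat_lit 50), (nat_lit 100), (nat_lit 66))⟩, (nat_lit 776462), (nat_lit 127), (nat_lit 127), (nat_lit 0), (nat_lit 250241), [(nat_lit 1497966002), (nat_lit 388667200)], [(nat_lit 0), (nat_lit 0)], [(nat_lit 26991366036), (nat_lit 27963219766), (nat_lit 29168957521), (nat_lit 30164139708), (nat_lit 30311838758), (nat_lit 31233199844), (nat_lit 32188275895), (nat_lit 32997821184)], (nat_lit 1271251), (nat_lit 1271251), (nat_lit 1271251), (nat_lit 1271251), (nat_lit 1271251), (nat_lit 1271251), [(nat_lit 490000), (nat_lit 780000)], [(nat_lit 1), (nat_lit 38), (nat_lit 203), (nat_lit 0), (nat_lit 8)]⟩,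
 ⟨⟨[(nat_lit 80), (nat_lit 120), (nat_lit 140)], [(nat_lit 0), (nat_lit 0), (nat_lit 1164)], [((nat_lit 0), (nat_lit 0), (nat_lit 0)), ((nat_lit 0), (nat_lit 0), (nat_lit 0)), ((nat_lit 941), (nat_lit 1000), (nat_lit 576))], ((nat_lit 100), (nat_lit 94), (nat_lit 58))⟩, (nat_lit 1456646), (nat_lit 779), (nat_lit 779), (nat_lit 0), (nat_lit 1358278), [(nat_lit 1223568000), (nat_lit 2079648000), (nat_lit 2568762000)], [], [(nat_lit 6940148666), (nat_lit 7140790222), (nat_lit 8469005479), (nat_lit 9004880245), (nat_lit 9521659428), (nat_lit 9751447300), (nat_lit 10469247961), (nat_lit 10637698564)], (nat_lit 1271251), (nat_lit 1271251), (nat_lit 1271251), (nat_lit 1271251), (nat_lit 169688), (nat_lit 2886876), [(nat_lit 1100000), (nat_lit 1785001), (nat_lit 1271251)], [(nat_lit 17), (nat_lit 58), (nat_lit 401), (nat_lit 175), (nat_lit 11)]⟩,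
 ⟨⟨[(nat_lit 100), (nat_lit 140), (nat_lit 160)], [(nat_lit 0), (nat_lit 508), (nat_lit 1689)], [((nat_lit 0), (nat_lit 0), (nat_lit 0)), ((nat_lit 1000), (nat_lit 1000), (nat_lit 198)), ((nat_lit 811), (nat_lit 1000), (nat_lit 671))], ((nat_lit 100), (nat_lit 88), (nat_lit 58))⟩, (nat_lit 1362158), (nat_lit 300), (nat_lit 970), (nat_lit 15187500), (nat_lit 1577393), [(nat_lit 1518750000), (nat_lit 2391606000), (nat_lit 2884896000)], [], [(nat_lit 10487388814), (nat_lit 10382834097), (nat_lit 10556472493), (nat_lit 10523642534), (nat_lit 9472415772), (nat_lit 8966480529), (nat_lit 9395424204), (nat_lit 9549375814)], (nat_lit 1271251), (nat_lit 1271251), (nat_lit 1271251), (nat_lit 1271251), (nat_lit 169688), (nat_lit 2886876), [(nat_lit 1412501), (nat_lit 1271251), (nat_lit 1271251)], [(nat_lit 23), (nat_lit 62), (nat_lit 483), (nat_lit 250), (nat_lit 12)]⟩⟩)))) (.leaf ⟨(nat_lit 22), (nat_lit 410), (nat_lit 0), (nat_lit 568), (nat_lit 0), (nat_lit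 3660), (nat_lit 8014), (nat_lit 5877), (nat_lit 0), (nat_lit 78011), (nat_lit 88000), [((nat_lit 400), [((nat_lit 43), (nat_lit 5), (nat_lit 22))])], ⟨(nat_lit 7), false, true, true, (nat_lit 298), (nat_lit 0), (nat_lit 2237), [(nat_lit 1682352), (nat_lit 1674999), (nat_lit 1705063), (nat_lit 1699935), (nat_lit 1796379), (nat_lit 1774994), (nat_lit 1819154), (nat_lit 1799995)]⟩, ⟨(nat_lit 6), false, true, true, (nat_lit 277), (nat_lit 0), (nat_lit 2237), [(nat_lit 1579788), (nat_lit 1574999), (nat_lit 1646249), (nat_lit 1648136), (nat_lit 1750828), (nat_lit 1724992), (nat_lit 1819154), (nat_lit 1799995)]⟩, (nat_lit 5733881), (nat_lit 31563011), (nat_lit 18755823), (nat_lit 16681166), (nat_lit 6), (nat_lit 0), [⟨(nat_lit 1), (nat_lit 83), (nat_lit 33), (nat_lit 100), (nat_lit 874077033)⟩], [], [], [⟨(nat_lit 0), (nat_lit 94), (nat_lit 87), (nat_lit 100), (nat_lit 48490198)⟩],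
 ⟨⟨[(nat_lit 40), (nat_lit 60)], [(nat_lit 0), (nat_lit 1539)], [((nat_lit 0), (nat_lit 0), (nat_lit 0)), ((nat_lit 1000), (nat_lit 478), (nat_lit 704))], ((nat_lit 50), (nat_lit 100), (nat_lit 66))⟩, (nat_lit 1930562), (nat_lit 134), (nat_lit 134), (nat_lit 0), (nat_lit 264558), [(nat_lit 1823484012), (nat_lit 2838752800)], [(nat_lit 0), (nat_lit 0)], [(nat_lit 27359572686), (nat_lit 28380711400), (nat_lit 30546007470), (nat_lit 31536185720), (nat_lit 31635699520), (nat_lit 32550493400), (nat_lit 34169871515), (nat_lit 34931168000)], (nat_lit 1271251), (nat_lit 1271251), (nat_lit 1271251), (nat_lit 1271251), (nat_lit 1271251), (nat_lit 1271251), [(nat_lit 490000), (nat_lit 780000)], [(nat_lit 1), (nat_lit 38), (nat_lit 203), (nat_lit 0), (nat_lit 8)]⟩,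
 ⟨⟨[(nat_lit 80), (nat_lit 120), (nat_lit 140)], [(nat_lit 0), (nat_lit 528), (nat_lit 1572)], [((nat_lit 0), (nat_lit 0), (nat_lit 0)), ((nat_lit 1000), (nat_lit 959), (nat_lit 206)), ((nat_lit 966), (nat_lit 1000), (nat_lit 679))], ((nat_lit 100), (nat_lit 100), (nat_lit 60))⟩, (nat_lit 8723434), (nat_lit 728), (nat_lit 728), (nat_lit 0), (nat_lit 1244103), [(nat_lit 4584864000), (nat_lit 7792704000), (nat_lit 9625476000)], [], [(nat_lit 23422311939), (nat_lit 23917920527), (nat_lit 31554027840), (nat_lit 33024056775), (nat_lit 33062078089), (nat_lit 33820264514), (nat_lit 37062646321), (nat_lit 37589679982)], (nat_lit 1271251), (nat_lit 1271251), (nat_lit 1271251), (nat_lit 1271251), (nat_lit 169688), (nat_lit 2886876), [(nat_lit 1100000), (nat_lit 1785001), (nat_lit 1271251)], [(nat_lit 17), (nat_lit 58), (nat_lit 401), (nat_lit 175), (nat_lit 11)]⟩,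
 ⟨⟨[(nat_lit 100), (nat_lit 140), (nat_lit 160)], [(nat_lit 0), (nat_lit 508), (nat_lit 1689)], [((nat_lit 0), (nat_lit 0), (nat_lit 0)), ((nat_lit 1000), (nat_lit 1000), (nat_lit 198)), ((nat_lit 811), (nat_lit 1000), (nat_lit 671))], ((nat_lit 100), (nat_lit 88), (nat_lit 58))⟩, (nat_lit 1890088), (nat_lit 300), (nat_lit 1002), (nat_lit 35500000), (nat_lit 1652441), [(nat_lit 3550000000), (nat_lit 5590256000), (nat_lit 6743296000)], [], [(nat_lit 24533088342), (nat_lit 24295188938), (nat_lit 25030437820), (nat_lit 24971498715), (nat_lit 22143077229), (nat_lit 21037269078), (nat_lit 22823553576), (nat_lit 23418032312)], (nat_lit 1271251), (nat_lit 1271251), (nat_lit 1271251), (nat_lit 1271251), (nat_lit 169688), (nat_lit 2886876), [(nat_lit 1412501), (nat_lit 1271251), (nat_lit 1271251)], [(nat_lit 23), (nat_lit 62), (nat_lit 538), (nat_lit 300), (nat_lit 13)]⟩⟩))) (.leaf ⟨(nat_lit 23), (nat_lit 485), (nat_lit 0), (nat_lit 492), (nat_lit 0), (nat_lit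 3813), (nat_lit 7975), (nat_lit 4987), (nat_lit 0), (nat_lit 0), (nat_lit 92000), [((nat_lit 400), [((nat_lit 43), (nat_lit 5), (nat_lit 23))])], ⟨(nat_lit 7), false, true, true, (nat_lit 317), (nat_lit 0), (nat_lit 2237), [(nat_lit 1705063), (nat_lit 1699935), (nat_lit 1748802), (nat_lit 1748125), (nat_lit 1847661), (nat_lit 1824994), (nat_lit 1893212), (nat_lit 1874997)]⟩, ⟨(nat_lit 6), false, true, true, (nat_lit 277), (nat_lit 0), (nat_lit 2237), [(nat_lit 1579788), (nat_lit 1574999), (nat_lit 1646249), (nat_lit 1648136), (nat_lit 1750828), (nat_lit 1724992), (nat_lit 1819154), (nat_lit 1799995)]⟩, (nat_lit 5767337), (nat_lit 30529699), (nat_lit 20256398), (nat_lit 16213903), (nat_lit 6), (nat_lit 0), [], [], [⟨(nat_lit 0), (nat_lit 100), (nat_lit 89), (nat_lit 72), (nat_lit 7247575)⟩], [⟨(nat_lit 0), (nat_lit 92), (nat_lit 81), (nat_lit 100), (nat_lit 109313068)⟩],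
 ⟨⟨[(nat_lit 40), (nat_lit 60)], [(nat_lit 0), (nat_lit 1539)], [((nat_lit 0), (nat_lit 0), (nat_lit 0)), ((nat_lit 1000), (nat_lit 478), (nat_lit 704))], ((nat_lit 50), (nat_lit 100), (nat_lit 66))⟩, (nat_lit 2516157), (nat_lit 140), (nat_lit 140), (nat_lit 0), (nat_lit 286545), [(nat_lit 1821966009), (nat_lit 2818605200)], [(nat_lit 0), (nat_lit 0)], [(nat_lit 27559416538), (nat_lit 28538012234), (nat_lit 31677622737), (nat_lit 32629301665), (nat_lit 31820033461), (nat_lit 32749062920), (nat_lit 35106173119), (nat_lit 35836856453)], (nat_lit 1271251), (nat_lit 1271251), (nat_lit 1271251), (nat_lit 1271251), (nat_lit 1271251), (nat_lit 1271251), [(nat_lit 490000), (nat_lit 780000)], [(nat_lit 1), (nat_lit 38), (nat_lit 203), (nat_lit 0), (nat_lit 8)]⟩,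
 ⟨⟨[(nat_lit 60), (nat_lit 100), (nat_lit 120)], [(nat_lit 0), (nat_lit 0), (nat_lit 1164)], [((nat_lit 0), (nat_lit 0), (nat_lit 0)), ((nat_lit 0), (nat_lit 0), (nat_lit 0)), ((nat_lit 1000), (nat_lit 933), (nat_lit 572))], ((nat_lit 93), (nat_lit 100), (nat_lit 58))⟩, (nat_lit 4741371), (nat_lit 609), (nat_lit 609), (nat_lit 0), (nat_lit 1129958), [(nat_lit 3206514000), (nat_lit 6106250000), (nat_lit 7784736000)], [], [(nat_lit 31082755058), (nat_lit 32063671525), (nat_lit 35437478430), (nat_lit 38082360503), (nat_lit 33752166929), (nat_lit 35265063722), (nat_lit 38634363874), (nat_lit 39566941202)], (nat_lit 1271251), (nat_lit 1271251), (nat_lit 1271251), (nat_lit 1271251), (nat_lit 169688), (nat_lit 2886876), [(nat_lit 780000), (nat_lit 1435001), (nat_lit 1271251)], [(nat_lit 10), (nat_lit 54), (nat_lit 317), (nat_lit 100), (nat_lit 10)]⟩,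
 ⟨⟨[(nat_lit 100), (nat_lit 140), (nat_lit 160)], [(nat_lit 0), (nat_lit 508), (nat_lit 1689)], [((nat_lit 0), (nat_lit 0), (nat_lit 0)), ((nat_lit 1000), (nat_lit 1000), (nat_lit 198)), ((nat_lit 811), (nat_lit 1000), (nat_lit 671))], ((nat_lit 100), (nat_lit 88), (nat_lit 58))⟩, (nat_lit 2396050), (nat_lit 300), (nat_lit 1087), (nat_lit 30750000), (nat_lit 1848459), [(nat_lit 3075000000), (nat_lit 4842264000), (nat_lit 5841024000)], [], [(nat_lit 21749455408), (nat_lit 21414133649), (nat_lit 21900458624), (nat_lit 21861272990), (nat_lit 19226480739), (nat_lit 18412693090), (nat_lit 19631623181), (nat_lit 20150124388)], (nat_lit 1271251), (nat_lit 1271251), (nat_lit 1271251), (nat_lit 1271251), (nat_lit 169688), (nat_lit 2886876), [(nat_lit 1412501), (nat_lit 1271251), (nat_lit 1271251)], [(nat_lit 23), (nat_lit 62), (nat_lit 538), (nat_lit 300), (nat_lit 13)]⟩⟩)) (.spl (nat_lit 0) (nat_lit 390) (.leaf ⟨(nat_lit 0), (nat_lit 296), (nat_lit 0), (nat_lit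 704), (nat_lit 0), (nat_lit 4290), (nat_lit 10856), (nat_lit 7729), (nat_lit 0), (nat_lit 269), (nat_lit 0), [], Pd.none, Pd.none, (nat_lit 0), (nat_lit 1), (nat_lit 0), (nat_lit 0), (nat_lit 6), (nat_lit 0), [], [], [⟨(nat_lit 0), (nat_lit 100), (nat_lit 95), (nat_lit 64), (nat_lit 252302899)⟩], [⟨(nat_lit 0), (nat_lit 92), (nat_lit 81), (nat_lit 100), (nat_lit 93780419)⟩],
 ⟨⟨[(nat_lit 40), (nat_lit 60), (nat_lit 80)], [(nat_lit 0), (nat_lit 1539), (nat_lit 2453)], [((nat_lit 0), (nat_lit 0), (nat_lit 0)), ((nat_lit 1000), (nat_lit 478), (nat_lit 704)), ((nat_lit 1000), (nat_lit 474), (nat_lit 714))], ((nat_lit 45), (nat_lit 100), (nat_lit 78))⟩, (nat_lit 757288), (nat_lit 122), (nat_lit 122), (nat_lit 0), (nat_lit 170443), [(nat_lit 2032000001), (nat_lit 3313439922), (nat_lit 4688000000)], [], [(nat_lit 27882082903), (nat_lit 28378761441), (nat_lit 32284905628), (nat_lit 32783897539), (nat_lit 32394721630), (nat_lit 32881427115), (nat_lit 35773541732),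 (nat_lit 36152045111)], (nat_lit 1271251), (nat_lit 1271251), (nat_lit 1271251), (nat_lit 1271251), (nat_lit 1271251), (nat_lit 1271251), [(nat_lit 490000), (nat_lit 780000), (nat_lit 1100000)], [(nat_lit 2), (nat_lit 44), (nat_lit 203), (nat_lit 0), (nat_lit 6)]⟩,
 ⟨⟨[(nat_lit 80), (nat_lit 140), (nat_lit 180)], [(nat_lit 0), (nat_lit 0), (nat_lit 3656)], [((nat_lit 0), (nat_lit 0), (nat_lit 0)), ((nat_lit 0), (nat_lit 0), (nat_lit 0)), ((nat_lit 637), (nat_lit 1000), (nat_lit 908))], ((nat_lit 100), (nat_lit 81), (nat_lit 77))⟩, (nat_lit 1990727), (nat_lit 594), (nat_lit 594), (nat_lit 0), (nat_lit 669154), [(nat_lit 4688000000), (nat_lit 9842000000), (nat_lit 14058000000)], [], [(nat_lit 37151040566), (nat_lit 39011788234), (nat_lit 42387057797), (nat_lit 44963696260), (nat_lit 36300700512), (nat_lit 39193857424), (nat_lit 42279655480), (nat_lit 44195737216)], (nat_lit 1271251), (nat_lit 1271251), (nat_lit 1271251), (nat_lit 1271251), (nat_lit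 169688), (nat_lit 2886876), [(nat_lit 1100000), (nat_lit 2127501), (nat_lit 1271251)], [(nat_lit 19), (nat_lit 63), (nat_lit 538), (nat_lit 300), (nat_lit 12)]⟩,
 ⟨⟨[(nat_lit 100), (nat_lit 140), (nat_lit 180)], [(nat_lit 0), (nat_lit 508), (nat_lit 2854)], [((nat_lit 0), (nat_lit 0), (nat_lit 0)), ((nat_lit 1000), (nat_lit 1000), (nat_lit 198)), ((nat_lit 777), (nat_lit 1000), (nat_lit 712))], ((nat_lit 100), (nat_lit 74), (nat_lit 76))⟩, (nat_lit 1513323), (nat_lit 300), (nat_lit 756), (nat_lit 44000000), (nat_lit 971598), [(nat_lit 4400000000), (nat_lit 6928768000), (nat_lit 9896832000)], [], [(nat_lit 33638587255), (nat_lit 33459726462), (nat_lit 34343401171), (nat_lit 34346350076), (nat_lit 28436946418), (nat_lit 28105075474), (nat_lit 28880970394), (nat_lit 29602486256)], (nat_lit 1271251), (nat_lit 1271251), (nat_lit 1271251), (nat_lit 1271251), (nat_lit 169688), (nat_lit 2886876), [(nat_lit 1412501), (nat_lit 1271251), (nat_lit 1271251)],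 [(nat_lit 24), (nat_lit 63), (nat_lit 538), (nat_lit 300), (nat_lit 12)]⟩⟩) (.trX (nat_lit 3) (nat_lit 0) (nat_lit 1) (nat_lit 39) (nat_lit 72) (nat_lit 100) (nat_lit 370) (.trX (nat_lit 4) (nat_lit 0) (nat_lit 2) (nat_lit 34) (nat_lit 81) (nat_lit 100) (nat_lit 340) (.spl (nat_lit 0) (nat_lit 395) (.leaf ⟨(nat_lit 0), (nat_lit 275), (nat_lit 0), (nat_lit 725), (nat_lit 0), (nat_lit 3941), (nat_lit 11028), (nat_lit 7960), (nat_lit 0), (nat_lit 321708), (nat_lit 0), [], Pd.none, Pd.none, (nat_lit 0), (nat_lit 1), (nat_lit 0), (nat_lit 0), (nat_lit 6), (nat_lit 0), [], [], [⟨(nat_lit 0), (nat_lit 100), (nat_lit 95), (nat_lit 64), (nat_lit 271785912)⟩], [⟨(nat_lit 0), (nat_lit 98), (nat_lit 86), (nat_lit 100), (nat_lit 71101436)⟩],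
 ⟨⟨[(nat_lit 40), (nat_lit 60), (nat_lit 80)], [(nat_lit 0), (nat_lit 2136), (nat_lit 3185)], [((nat_lit 0), (nat_lit 0), (nat_lit 0)), ((nat_lit 1000), (nat_lit 343), (nat_lit 808)), ((nat_lit 1000), (nat_lit 338), (nat_lit 820))], ((nat_lit 34), (nat_lit 100), (nat_lit 82))⟩, (nat_lit 859759), (nat_lit 121), (nat_lit 121), (nat_lit 0), (nat_lit 176027), [(nat_lit 2032000111), (nat_lit 3750222462), (nat_lit 4688000000)], [], [(nat_lit 28117539650), (nat_lit 28357600424), (nat_lit 31854673840), (nat_lit 32102745227), (nat_lit 31580583152), (nat_lit 31828618752), (nat_lit 34597228302), (nat_lit 34796821643)], (nat_lit 1271251), (nat_lit 1271251), (nat_lit 1271251), (nat_lit 1271251), (nat_lit 1271251), (nat_lit 1271251), [(nat_lit 490000), (nat_lit 780000), (nat_lit 1100000)], [(nat_lit 2), (nat_lit 44), (nat_lit 203), (nat_lit 0), (nat_lit 6)]⟩,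
 ⟨⟨[(nat_lit 80), (nat_lit 140), (nat_lit 180)], [(nat_lit 0), (nat_lit 0), (nat_lit 3656)], [((nat_lit 0), (nat_lit 0), (nat_lit 0)), ((nat_lit 0), (nat_lit 0), (nat_lit 0)), ((nat_lit 637), (nat_lit 1000), (nat_lit 908))], ((nat_lit 100), (nat_lit 81), (nat_lit 77))⟩, (nat_lit 2123503), (nat_lit 618), (nat_lit 618), (nat_lit 0), (nat_lit 730442), [(nat_lit 4688000000), (nat_lit 9842000000), (nat_lit 14058000000)], [], [(nat_lit 36763342633), (nat_lit 38626827863), (nat_lit 41169580389), (nat_lit 43934945862), (nat_lit 36127419456), (nat_lit 39391744112), (nat_lit 41755432158), (nat_lit 43831142086)], (nat_lit 1271251), (nat_lit 1271251), (nat_lit 1271251), (nat_lit 1271251), (nat_lit 169688), (nat_lit 2886876), [(nat_lit 1100000), (nat_lit 2127501), (nat_lit 1271251)], [(nat_lit 19), (nat_lit 63), (nat_lit 538), (nat_lit 300), (nat_lit 12)]⟩,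
 ⟨⟨[(nat_lit 100), (nat_lit 140), (nat_lit 180)], [(nat_lit 0), (nat_lit 508), (nat_lit 2854)], [((nat_lit 0), (nat_lit 0), (nat_lit 0)), ((nat_lit 1000), (nat_lit 1000), (nat_lit 198)), ((nat_lit 777), (nat_lit 1000), (nat_lit 712))], ((nat_lit 100), (nat_lit 74), (nat_lit 76))⟩, (nat_lit 1558465), (nat_lit 300), (nat_lit 784), (nat_lit 45312500), (nat_lit 1040635), [(nat_lit 4531250000), (nat_lit 7135450000), (nat_lit 10192050000)], [], [(nat_lit 34640611274), (nat_lit 34456862978), (nat_lit 35097777873), (nat_lit 34827183488), (nat_lit 29284446400), (nat_lit 28942613770), (nat_lit 29470689068), (nat_lit 29502248683)], (nat_lit 1271251), (nat_lit 1271251), (nat_lit 1271251), (nat_lit 1271251), (nat_lit 169688), (nat_lit 2886876), [(nat_lit 1412501), (nat_lit 1271251), (nat_lit 1271251)], [(nat_lit 24), (nat_lit 63), (nat_lit 538), (nat_lit 300), (nat_lit 12)]⟩⟩) (.trX (nat_lit 3) (nat_lit 0) (nat_lit 1) (nat_lit 28) (nat_lit 81) (nat_lit 100) (nat_lit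 360) (.trX (nat_lit 4) (nat_lit 0) (nat_lit 2) (nat_lit 24) (nat_lit 88) (nat_lit 100) (nat_lit 320) (.spl (nat_lit 1) (nat_lit 280) (.trX (nat_lit 3) (nat_lit 0) (nat_lit 1) (nat_lit 24) (nat_lit 88) (nat_lit 100) (nat_lit 320) (.leaf ⟨(nat_lit 0), (nat_lit 84), (nat_lit 0), (nat_lit 916), (nat_lit 0), (nat_lit 4211), (nat_lit 12441), (nat_lit 10057), (nat_lit 0), (nat_lit 78801), (nat_lit 0), [], Pd.none, Pd.none, (nat_lit 0), (nat_lit 1), (nat_lit 0), (nat_lit 0), (nat_lit 6), (nat_lit 0), [], [], [], [],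
 ⟨⟨[(nat_lit 40), (nat_lit 60)], [(nat_lit 0), (nat_lit 2600)], [((nat_lit 0), (nat_lit 0), (nat_lit 0)), ((nat_lit 1000), (nat_lit 245), (nat_lit 872))], ((nat_lit 25), (nat_lit 100), (nat_lit 85))⟩, (nat_lit 143947), (nat_lit 95), (nat_lit 95), (nat_lit 0), (nat_lit 156836), [(nat_lit 2032000017), (nat_lit 3282000000)], [], [(nat_lit 28686803818), (nat_lit 28946497058), (nat_lit 30089442043), (nat_lit 30381461476), (nat_lit 31280333670), (nat_lit 31548758344), (nat_lit 32471225296), (nat_lit 32716055212)], (nat_lit 1271251), (nat_lit 1271251), (nat_lit 1271251), (nat_lit 1271251), (nat_lit 1271251), (nat_lit 1271251), [(nat_lit 490000), (nat_lit 780000)], [(nat_lit 1), (nat_lit 38), (nat_lit 203), (nat_lit 0), (nat_lit 7)]⟩,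
 ⟨⟨[(nat_lit 80), (nat_lit 140), (nat_lit 180)], [(nat_lit 0), (nat_lit 0), (nat_lit 3656)], [((nat_lit 0), (nat_lit 0), (nat_lit 0)), ((nat_lit 0), (nat_lit 0), (nat_lit 0)), ((nat_lit 637), (nat_lit 1000), (nat_lit 908))], ((nat_lit 100), (nat_lit 81), (nat_lit 77))⟩, (nat_lit 2839575), (nat_lit 633), (nat_lit 633), (nat_lit 0), (nat_lit 770642), [(nat_lit 4688000000), (nat_lit 9842000000), (nat_lit 14058000000)], [], [(nat_lit 33578359033), (nat_lit 34529963015), (nat_lit 34903089026), (nat_lit 36834266576), (nat_lit 37385539090), (nat_lit 39201472677), (nat_lit 39525946156), (nat_lit 41017406264)], (nat_lit 1271251), (nat_lit 1271251), (nat_lit 1271251), (nat_lit 1271251), (nat_lit 169688), (nat_lit 2886876), [(nat_lit 1100000), (nat_lit 2127501), (nat_lit 1271251)], [(nat_lit 19), (nat_lit 63), (nat_lit 483), (nat_lit 250), (nat_lit 11)]⟩,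
 ⟨⟨[(nat_lit 100), (nat_lit 140), (nat_lit 180)], [(nat_lit 0), (nat_lit 508), (nat_lit 2854)], [((nat_lit 0), (nat_lit 0), (nat_lit 0)), ((nat_lit 1000), (nat_lit 1000), (nat_lit 198)), ((nat_lit 777), (nat_lit 1000), (nat_lit 712))], ((nat_lit 100), (nat_lit 74), (nat_lit 76))⟩, (nat_lit 1969039), (nat_lit 300), (nat_lit 729), (nat_lit 57250002), (nat_lit 901251), [(nat_lit 5725000000), (nat_lit 9015272000), (nat_lit 12877128000)], [], [(nat_lit 43766718535), (nat_lit 43534567906), (nat_lit 44004307904), (nat_lit 43508834780), (nat_lit 36999466162), (nat_lit 36567585018), (nat_lit 36962789202), (nat_lit 36291113764)], (nat_lit 1271251), (nat_lit 1271251), (nat_lit 1271251), (nat_lit 1271251), (nat_lit 169688), (nat_lit 2886876), [(nat_lit 1412501), (nat_lit 1271251), (nat_lit 1271251)], [(nat_lit 24), (nat_lit 63), (nat_lit 483), (nat_lit 250), (nat_lit 11)]⟩⟩)) (.leaf ⟨(nat_lit 0), (nat_lit 495), (nat_lit 0), (nat_lit 505), (nat_lit 0), (nat_lit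 4211), (nat_lit 9295), (nat_lit 5509), (nat_lit 0), (nat_lit 0), (nat_lit 0), [], Pd.none, Pd.none, (nat_lit 0), (nat_lit 1), (nat_lit 0), (nat_lit 0), (nat_lit 6), (nat_lit 0), [], [], [⟨(nat_lit 0), (nat_lit 100), (nat_lit 89), (nat_lit 72), (nat_lit 87328757)⟩], [⟨(nat_lit 0), (nat_lit 100), (nat_lit 87), (nat_lit 95), (nat_lit 61110740)⟩],
 ⟨⟨[(nat_lit 40), (nat_lit 60)], [(nat_lit 0), (nat_lit 2600)], [((nat_lit 0), (nat_lit 0), (nat_lit 0)), ((nat_lit 1000), (nat_lit 245), (nat_lit 872))], ((nat_lit 25), (nat_lit 100), (nat_lit 85))⟩, (nat_lit 143947), (nat_lit 108), (nat_lit 108), (nat_lit 0), (nat_lit 181781), [(nat_lit 2032000001), (nat_lit 3282000000)], [], [(nat_lit 28686803786), (nat_lit 28946497026), (nat_lit 31981190372), (nat_lit 32243582662), (nat_lit 31280333670), (nat_lit 31548758344), (nat_lit 34066985823), (nat_lit 34287623818)], (nat_lit 1271251), (nat_lit 1271251), (nat_lit 1271251), (nat_lit 1271251), (nat_lit 1271251), (nat_lit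 1271251), [(nat_lit 490000), (nat_lit 780000)], [(nat_lit 1), (nat_lit 38), (nat_lit 203), (nat_lit 0), (nat_lit 7)]⟩,
 ⟨⟨[(nat_lit 60), (nat_lit 120), (nat_lit 160)], [(nat_lit 0), (nat_lit 0), (nat_lit 3243)], [((nat_lit 0), (nat_lit 0), (nat_lit 0)), ((nat_lit 0), (nat_lit 0), (nat_lit 0)), ((nat_lit 878), (nat_lit 1000), (nat_lit 945))], ((nat_lit 100), (nat_lit 99), (nat_lit 82))⟩, (nat_lit 1871297), (nat_lit 512), (nat_lit 512), (nat_lit 0), (nat_lit 638859), [(nat_lit 3282000000), (nat_lit 7968000000), (nat_lit 11872000000)], [], [(nat_lit 33549904781), (nat_lit 34667268723), (nat_lit 37293776444), (nat_lit 38997756788), (nat_lit 35778634115), (nat_lit 37397920680), (nat_lit 39863821800), (nat_lit 40957008210)], (nat_lit 1271251), (nat_lit 1271251), (nat_lit 1271251), (nat_lit 1271251), (nat_lit 169688), (nat_lit 2886876), [(nat_lit 780000), (nat_lit 1762501), (nat_lit 1271251)], [(nat_lit 12), (nat_lit 59), (nat_lit 538), (nat_lit 300), (nat_lit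 13)]⟩,
 ⟨⟨[(nat_lit 100), (nat_lit 140), (nat_lit 180)], [(nat_lit 0), (nat_lit 508), (nat_lit 2854)], [((nat_lit 0), (nat_lit 0), (nat_lit 0)), ((nat_lit 1000), (nat_lit 1000), (nat_lit 198)), ((nat_lit 777), (nat_lit 1000), (nat_lit 712))], ((nat_lit 100), (nat_lit 74), (nat_lit 76))⟩, (nat_lit 1085551), (nat_lit 300), (nat_lit 810), (nat_lit 31562501), (nat_lit 1107633), [(nat_lit 3156250000), (nat_lit 4970210000), (nat_lit 7099290000)], [], [(nat_lit 24254033444), (nat_lit 24076622540), (nat_lit 24335246760), (nat_lit 24067158024), (nat_lit 20458613650), (nat_lit 20225445828), (nat_lit 20443215594), (nat_lit 20078545264)], (nat_lit 1271251), (nat_lit 1271251), (nat_lit 1271251), (nat_lit 1271251), (nat_lit 169688), (nat_lit 2886876), [(nat_lit 1412501), (nat_lit 1271251), (nat_lit 1271251)], [(nat_lit 24), (nat_lit 63), (nat_lit 483), (nat_lit 250), (nat_lit 11)]⟩⟩))))))))))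
noncomputable def c14_137 : Tr Lf :=
 (.ord (.trZ (nat_lit 0) (nat_lit 1) (nat_lit 3) (nat_lit 92) (nat_lit 44) (nat_lit 100) (nat_lit 190) (.trZ (nat_lit 0) (nat_lit 2) (nat_lit 4) (nat_lit 92) (nat_lit 44) (nat_lit 100) (nat_lit 190) (.trZ (nat_lit 1) (nat_lit 2) (nat_lit 5) (nat_lit 100) (nat_lit 100) (nat_lit 80) (nat_lit 60) (.spl (nat_lit 5) (nat_lit 120) (.leaf ⟨(nat_lit 0), (nat_lit 0), (nat_lit 0), (nat_lit 1000), (nat_lit 0), (nat_lit 4540), (nat_lit 11023), (nat_lit 11023), (nat_lit 0), (nat_lit 978026290137), (nat_lit 0), [], Pd.none, Pd.none, (nat_lit 0), (nat_lit 1), (nat_lit 0), (nat_lit 0), (nat_lit 0), (nat_lit 0), [], [⟨(nat_lit 0), (nat_lit 88), (nat_lit 32), (nat_lit 100), (nat_lit 897108212)⟩], [⟨(nat_lit 0), (nat_lit 100), (nat_lit 100), (nat_lit 80), (nat_lit 1016820385)⟩], [],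
 ⟨⟨[(nat_lit 40), (nat_lit 60), (nat_lit 80)], [(nat_lit 0), (nat_lit 1539), (nat_lit 2453)], [((nat_lit 0), (nat_lit 0), (nat_lit 0)), ((nat_lit 1000), (nat_lit 478), (nat_lit 704)), ((nat_lit 1000), (nat_lit 474), (nat_lit 714))], ((nat_lit 45), (nat_lit 100), (nat_lit 78))⟩, (nat_lit 6396203), (nat_lit 265), (nat_lit 265), (nat_lit 0), (nat_lit 628951), [(nat_lit 2032000017), (nat_lit 5062911360), (nat_lit 4688000000)], [], [(nat_lit 24468332932), (nat_lit 25659229331), (nat_lit 32046527690), (nat_lit 33160792088), (nat_lit 32046527690), (nat_lit 33160792088), (nat_lit 36850981139), (nat_lit 37578646640)], (nat_lit 1271251), (nat_lit 1271251), (nat_lit 1271251), (nat_lit 1271251), (nat_lit 1271251), (nat_lit 1271251), [(nat_lit 490000), (nat_lit 780000), (nat_lit 1100000)], [(nat_lit 2), (nat_lit 44), (nat_lit 212), (nat_lit 0), (nat_lit 7)]⟩,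
 ⟨⟨[(nat_lit 60), (nat_lit 120), (nat_lit 160)], [(nat_lit 0), (nat_lit 0), (nat_lit 3243)], [((nat_lit 0), (nat_lit 0), (nat_lit 0)), ((nat_lit 0), (nat_lit 0), (nat_lit 0)), ((nat_lit 878), (nat_lit 1000), (nat_lit 945))], ((nat_lit 100), (nat_lit 99), (nat_lit 82))⟩, (nat_lit 5297446), (nat_lit 785), (nat_lit 785), (nat_lit 0), (nat_lit 1237963), [(nat_lit 3282000000), (nat_lit 7968000000), (nat_lit 11872000000)], [], [(nat_lit 26772353002), (nat_lit 27460619175), (nat_lit 38159679207), (nat_lit 41348713600), (nat_lit 24354435053), (nat_lit 24949888192), (nat_lit 34037095525), (nat_lit 37028958050)], (nat_lit 1271251), (nat_lit 1271251), (nat_lit 1271251), (nat_lit 1271251), (nat_lit 356250), (nat_lit 780000), [(nat_lit 780000), (nat_lit 1762501), (nat_lit 1271251)], [(nat_lit 12), (nat_lit 59), (nat_lit 456), (nat_lit 225), (nat_lit 11)]⟩,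
 ⟨⟨[(nat_lit 60), (nat_lit 120), (nat_lit 160)], [(nat_lit 0), (nat_lit 0), (nat_lit 3243)], [((nat_lit 0), (nat_lit 0), (nat_lit 0)), ((nat_lit 0), (nat_lit 0), (nat_lit 0)), ((nat_lit 878), (nat_lit 1000), (nat_lit 945))], ((nat_lit 100), (nat_lit 99), (nat_lit 82))⟩, (nat_lit 1815374), (nat_lit 300), (nat_lit 785), (nat_lit 66400000), (nat_lit 1237963), [(nat_lit 3282000000), (nat_lit 7968000000), (nat_lit 11872000000)], [], [(nat_lit 41563875555), (nat_lit 41644396869), (nat_lit 42817649831), (nat_lit 43469748156), (nat_lit 38506793201), (nat_lit 38534136084), (nat_lit 39264146735), (nat_lit 39839503663)], (nat_lit 1271251), (nat_lit 1271251), (nat_lit 1271251), (nat_lit 1271251), (nat_lit 356250), (nat_lit 780000), [(nat_lit 780000), (nat_lit 1762501), (nat_lit 1271251)], [(nat_lit 12), (nat_lit 59), (nat_lit 456), (nat_lit 225), (nat_lit 11)]⟩⟩) (.leaf ⟨(nat_lit 22), (nat_lit 265), (nat_lit 0), (nat_lit 713), (nat_lit 0), (nat_lit 4044), (nat_lit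 10412), (nat_lit 6824), (nat_lit 0), (nat_lit 379979), (nat_lit 88000), [((nat_lit 400), [((nat_lit 43), (nat_lit 5), (nat_lit 22))])], ⟨(nat_lit 7), false, true, false, (nat_lit 292), (nat_lit 0), (nat_lit 2237), [(nat_lit 1572676), (nat_lit 1583333), (nat_lit 1616372), (nat_lit 1631480), (nat_lit 1847661), (nat_lit 1824994), (nat_lit 1893212), (nat_lit 1874997)]⟩, ⟨(nat_lit 7), false, true, false, (nat_lit 292), (nat_lit 0), (nat_lit 2237), [(nat_lit 1572676), (nat_lit 1583333), (nat_lit 1616372), (nat_lit 1631480), (nat_lit 1847661), (nat_lit 1824994), (nat_lit 1893212), (nat_lit 1874997)]⟩, (nat_lit 5762334), (nat_lit 31085366), (nat_lit 17957317), (nat_lit 17957317), (nat_lit 7), (nat_lit 0), [], [⟨(nat_lit 0), (nat_lit 88), (nat_lit 32), (nat_lit 100), (nat_lit 482982150)⟩], [], [],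
 ⟨⟨[(nat_lit 40), (nat_lit 60), (nat_lit 80)], [(nat_lit 0), (nat_lit 1539), (nat_lit 2453)], [((nat_lit 0), (nat_lit 0), (nat_lit 0)), ((nat_lit 1000), (nat_lit 478), (nat_lit 704)), ((nat_lit 1000), (nat_lit 474), (nat_lit 714))], ((nat_lit 45), (nat_lit 100), (nat_lit 78))⟩, (nat_lit 6189789), (nat_lit 265), (nat_lit 265), (nat_lit 0), (nat_lit 628951), [(nat_lit 1823484022), (nat_lit 4446642794), (nat_lit 3969858400)], [(nat_lit 0), (nat_lit 0), (nat_lit 0)], [(nat_lit 24901643359), (nat_lit 26025952712), (nat_lit 31355679484), (nat_lit 32414336578), (nat_lit 31355679484), (nat_lit 32414336578), (nat_lit 36133241456), (nat_lit 36837118704)], (nat_lit 1271251), (nat_lit 1271251), (nat_lit 1271251), (nat_lit 1271251), (nat_lit 1271251), (nat_lit 1271251), [(nat_lit 490000), (nat_lit 780000), (nat_lit 1100000)], [(nat_lit 2), (nat_lit 44), (nat_lit 212), (nat_lit 0), (nat_lit 7)]⟩,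
 ⟨⟨[(nat_lit 60), (nat_lit 120), (nat_lit 160)], [(nat_lit 0), (nat_lit 0), (nat_lit 3243)], [((nat_lit 0), (nat_lit 0), (nat_lit 0)), ((nat_lit 0), (nat_lit 0), (nat_lit 0)), ((nat_lit 878), (nat_lit 1000), (nat_lit 945))], ((nat_lit 100), (nat_lit 99), (nat_lit 82))⟩, (nat_lit 3706449), (nat_lit 737), (nat_lit 737), (nat_lit 0), (nat_lit 1237963), [(nat_lit 3209796000), (nat_lit 7792704000), (nat_lit 11610816000)], [], [(nat_lit 25591333097), (nat_lit 26178638688), (nat_lit 32859119703), (nat_lit 35725400738), (nat_lit 39356297406), (nat_lit 36561384068), (nat_lit 42005077475), (nat_lit 42941774110)], (nat_lit 1271251), (nat_lit 1271251), (nat_lit 1271251), (nat_lit 1271251), (nat_lit 780000), (nat_lit 3072501), [(nat_lit 780000), (nat_lit 1762501), (nat_lit 1271251)], [(nat_lit 12), (nat_lit 59), (nat_lit 538), (nat_lit 300), (nat_lit 13)]⟩,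
 ⟨⟨[(nat_lit 60), (nat_lit 120), (nat_lit 160)], [(nat_lit 0), (nat_lit 0), (nat_lit 3243)], [((nat_lit 0), (nat_lit 0), (nat_lit 0)), ((nat_lit 0), (nat_lit 0), (nat_lit 0)), ((nat_lit 878), (nat_lit 1000), (nat_lit 945))], ((nat_lit 100), (nat_lit 99), (nat_lit 82))⟩, (nat_lit 1726637), (nat_lit 300), (nat_lit 1030), (nat_lit 47343200), (nat_lit 1854340), [(nat_lit 2340066000), (nat_lit 5681184000), (nat_lit 8464736000)], [], [(nat_lit 33746459687), (nat_lit 33433352519), (nat_lit 32017660863), (nat_lit 31585134597), (nat_lit 30365105489), (nat_lit 29900580223), (nat_lit 29571726314), (nat_lit 30253615477)], (nat_lit 1271251), (nat_lit 1271251), (nat_lit 1271251), (nat_lit 1271251), (nat_lit 780000), (nat_lit 3072501), [(nat_lit 780000), (nat_lit 1762501), (nat_lit 1271251)], [(nat_lit 12), (nat_lit 59), (nat_lit 538), (nat_lit 300), (nat_lit 13)]⟩⟩))))))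
noncomputable def c14_138 : Tr Lf :=
 (.spl (nat_lit 4) (nat_lit 240) (.spl (nat_lit 3) (nat_lit 240) (.spl (nat_lit 0) (nat_lit 390) (.spl (nat_lit 6) (nat_lit 96) (.spl (nat_lit 1) (nat_lit 260) (.ord (.spl (nat_lit 6) (nat_lit 88) (.leaf ⟨(nat_lit 818), (nat_lit 0), (nat_lit 0), (nat_lit 182), (nat_lit 5706), (nat_lit 3528), (nat_lit 2433), (nat_lit 2088), (nat_lit 0), (nat_lit 8935), (nat_lit 368600), [((nat_lit 390), [((nat_lit 29), (nat_lit 1), (nat_lit 611)), ((nat_lit 43), (nat_lit 2), (nat_lit 207))])], ⟨(nat_lit 6), false, false, false, (nat_lit 220), (nat_lit 1581), (nat_lit 2237), [(nat_lit 1474080), (nat_lit 1478137), (nat_lit 1496810), (nat_lit 1501407), (nat_lit 1602558), (nat_lit 1601260), (nat_lit 1625287), (nat_lit 1624529)]⟩, ⟨(nat_lit 5), false, false, false, (nat_lit 210), (nat_lit 1581), (nat_lit 2237), [(nat_lit 1422801), (nat_lit 1427507), (nat_lit 1468259), (nat_lit 1474046), (nat_lit 1579788), (nat_lit 1577949), (nat_lit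 1625287), (nat_lit 1624529)]⟩, (nat_lit 5118547), (nat_lit 40296295), (nat_lit 13857795), (nat_lit 12845910), (nat_lit 0), (nat_lit 0), [⟨(nat_lit 0), (nat_lit 98), (nat_lit 38), (nat_lit 100), (nat_lit 66562881)⟩], [⟨(nat_lit 0), (nat_lit 100), (nat_lit 39), (nat_lit 100), (nat_lit 161829853)⟩], [⟨(nat_lit 0), (nat_lit 100), (nat_lit 99), (nat_lit 45), (nat_lit 122899583)⟩], [],
 ⟨⟨[(nat_lit 40), (nat_lit 80), (nat_lit 100)], [(nat_lit 0), (nat_lit 2514), (nat_lit 3562)], [((nat_lit 0), (nat_lit 0), (nat_lit 0)), ((nat_lit 1000), (nat_lit 446), (nat_lit 804)), ((nat_lit 1000), (nat_lit 443), (nat_lit 819))], ((nat_lit 44), (nat_lit 100), (nat_lit 84))⟩, (nat_lit 707), (nat_lit 115), (nat_lit 115), (nat_lit 0), (nat_lit 94771), [(nat_lit 1468824807), (nat_lit 954305336), (nat_lit 747482800)], [(nat_lit 0), (nat_lit 0), (nat_lit 0)], [(nat_lit 21564104067), (nat_lit 22280635661), (nat_lit 23582669749), (nat_lit 24340616521), (nat_lit 23677451635),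 (nat_lit 24400678590), (nat_lit 25581980456), (nat_lit 26225052324)], (nat_lit 1271251), (nat_lit 1271251), (nat_lit 1017188), (nat_lit 1779376), (nat_lit 857188), (nat_lit 1768126), [(nat_lit 490000), (nat_lit 1100000), (nat_lit 1442501)], [(nat_lit 3), (nat_lit 50), (nat_lit 345), (nat_lit 125), (nat_lit 12)]⟩,
 ⟨⟨[(nat_lit 80), (nat_lit 140), (nat_lit 180)], [(nat_lit 0), (nat_lit 0), (nat_lit 3656)], [((nat_lit 0), (nat_lit 0), (nat_lit 0)), ((nat_lit 0), (nat_lit 0), (nat_lit 0)), ((nat_lit 637), (nat_lit 1000), (nat_lit 908))], ((nat_lit 100), (nat_lit 73), (nat_lit 85))⟩, (nat_lit 0), (nat_lit 408), (nat_lit 408), (nat_lit 0), (nat_lit 163958), [(nat_lit 853216000), (nat_lit 1791244000), (nat_lit 2558556000)], [], [(nat_lit 7852846043), (nat_lit 8039962160), (nat_lit 8847031460), (nat_lit 8263144749), (nat_lit 7355540881), (nat_lit 6242675885), (nat_lit 10322000912), (nat_lit 9241143095)], (nat_lit 1271251), (nat_lit 1271251), (nat_lit 1017188),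 (nat_lit 1779376), (nat_lit 0), (nat_lit 780000), [(nat_lit 1100000), (nat_lit 2127501), (nat_lit 1271251)], [(nat_lit 19), (nat_lit 63), (nat_lit 401), (nat_lit 175), (nat_lit 9)]⟩,
 ⟨⟨[(nat_lit 100), (nat_lit 140), (nat_lit 180)], [(nat_lit 0), (nat_lit 508), (nat_lit 2854)], [((nat_lit 0), (nat_lit 0), (nat_lit 0)), ((nat_lit 1000), (nat_lit 1000), (nat_lit 198)), ((nat_lit 777), (nat_lit 1000), (nat_lit 712))], ((nat_lit 100), (nat_lit 64), (nat_lit 83))⟩, (nat_lit 116104), (nat_lit 300), (nat_lit 423), (nat_lit 12373309), (nat_lit 167355), [(nat_lit 1137500000), (nat_lit 1791244000), (nat_lit 2558556000)], [], [(nat_lit 9252747539), (nat_lit 9385184093), (nat_lit 8995781188), (nat_lit 9068595124), (nat_lit 7555420388), (nat_lit 7670570210), (nat_lit 7312829216), (nat_lit 7372043991)], (nat_lit 1271251), (nat_lit 1271251), (nat_lit 857188), (nat_lit 1768126), (nat_lit 0), (nat_lit 780000), [(nat_lit 1412501), (nat_lit 1271251), (nat_lit 1271251)],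 [(nat_lit 24), (nat_lit 63), (nat_lit 401), (nat_lit 175), (nat_lit 9)]⟩⟩) (.dle (nat_lit 0)))) (.trZ (nat_lit 0) (nat_lit 1) (nat_lit 3) (nat_lit 96) (nat_lit 44) (nat_lit 100) (nat_lit 170) (.trZ (nat_lit 1) (nat_lit 2) (nat_lit 5) (nat_lit 100) (nat_lit 96) (nat_lit 40) (nat_lit 10) (.leaf ⟨(nat_lit 0), (nat_lit 453), (nat_lit 0), (nat_lit 547), (nat_lit 23298), (nat_lit 4277), (nat_lit 7985), (nat_lit 5958), (nat_lit 0), (nat_lit 215530), (nat_lit 0), [], Pd.none, Pd.none, (nat_lit 0), (nat_lit 1), (nat_lit 0), (nat_lit 0), (nat_lit 5), (nat_lit 0), [⟨(nat_lit 0), (nat_lit 94), (nat_lit 38), (nat_lit 100), (nat_lit 1156307608)⟩], [⟨(nat_lit 0), (nat_lit 98), (nat_lit 38), (nat_lit 100), (nat_lit 580220198)⟩], [⟨(nat_lit 0), (nat_lit 100), (nat_lit 96), (nat_lit 40), (nat_lit 484212334)⟩], [],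
 ⟨⟨[(nat_lit 40), (nat_lit 80), (nat_lit 100)], [(nat_lit 0), (nat_lit 2514), (nat_lit 3562)], [((nat_lit 0), (nat_lit 0), (nat_lit 0)), ((nat_lit 1000), (nat_lit 446), (nat_lit 804)), ((nat_lit 1000), (nat_lit 443), (nat_lit 819))], ((nat_lit 44), (nat_lit 100), (nat_lit 86))⟩, (nat_lit 1310047), (nat_lit 129), (nat_lit 129), (nat_lit 0), (nat_lit 153289), [(nat_lit 2032000425), (nat_lit 5170069681), (nat_lit 6250000000)], [], [(nat_lit 22474514109), (nat_lit 23243996350), (nat_lit 24285496584), (nat_lit 25137592358), (nat_lit 24526931566), (nat_lit 25330985635), (nat_lit 26157438654), (nat_lit 26864760491)], (nat_lit 1271251), (nat_lit 1271251), (nat_lit 1184688), (nat_lit 1790626), (nat_lit 857188), (nat_lit 1768126), [(nat_lit 490000), (nat_lit 1100000), (nat_lit 1442501)], [(nat_lit 3), (nat_lit 50), (nat_lit 345), (nat_lit 125), (nat_lit 12)]⟩,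
 ⟨⟨[(nat_lit 80), (nat_lit 140), (nat_lit 180)], [(nat_lit 0), (nat_lit 792), (nat_lit 4228)], [((nat_lit 0), (nat_lit 0), (nat_lit 0)), ((nat_lit 1000), (nat_lit 959), (nat_lit 206)), ((nat_lit 709), (nat_lit 1000), (nat_lit 949))], ((nat_lit 100), (nat_lit 79), (nat_lit 90))⟩, (nat_lit 2532706), (nat_lit 415), (nat_lit 415), (nat_lit 0), (nat_lit 223462), [(nat_lit 4688000000), (nat_lit 9842000000), (nat_lit 14058000000)], [], [(nat_lit 33202535893), (nat_lit 33984822711), (nat_lit 33937909140), (nat_lit 34829757555), (nat_lit 28297077326), (nat_lit 29066505338), (nat_lit 33933855388), (nat_lit 30211245661)], (nat_lit 1271251), (nat_lit 1271251), (nat_lit 1184688), (nat_lit 1790626), (nat_lit 54688), (nat_lit 780000), [(nat_lit 1100000), (nat_lit 2127501), (nat_lit 1271251)], [(nat_lit 19), (nat_lit 63), (nat_lit 401), (nat_lit 175), (nat_lit 9)]⟩,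
 ⟨⟨[(nat_lit 100), (nat_lit 140), (nat_lit 180)], [(nat_lit 0), (nat_lit 508), (nat_lit 2854)], [((nat_lit 0), (nat_lit 0), (nat_lit 0)), ((nat_lit 1000), (nat_lit 1000), (nat_lit 198)), ((nat_lit 777), (nat_lit 1000), (nat_lit 712))], ((nat_lit 100), (nat_lit 61), (nat_lit 86))⟩, (nat_lit 348950), (nat_lit 300), (nat_lit 451), (nat_lit 37187910), (nat_lit 255291), [(nat_lit 3418750000), (nat_lit 5383574000), (nat_lit 7689726000)], [], [(nat_lit 27325002327), (nat_lit 28084820685), (nat_lit 26664676436), (nat_lit 27152122904), (nat_lit 23277284577), (nat_lit 23706881327), (nat_lit 22403987716), (nat_lit 22819347829)], (nat_lit 1271251), (nat_lit 1271251), (nat_lit 857188), (nat_lit 1768126), (nat_lit 54688), (nat_lit 780000), [(nat_lit 1412501), (nat_lit 1271251), (nat_lit 1271251)], [(nat_lit 24), (nat_lit 63), (nat_lit 401), (nat_lit 175), (nat_lit 9)]⟩⟩)))) (.dle (nat_lit 0))) (.trZ (nat_lit 0) (nat_lit 1) (nat_lit 3) (nat_lit 99) (nat_lit 31)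 (nat_lit 100) (nat_lit 170) (.trZ (nat_lit 0) (nat_lit 2) (nat_lit 4) (nat_lit 100) (nat_lit 31) (nat_lit 98) (nat_lit 150) (.spl (nat_lit 0) (nat_lit 395) (.spl (nat_lit 6) (nat_lit 100) (.leaf ⟨(nat_lit 816), (nat_lit 57), (nat_lit 0), (nat_lit 127), (nat_lit 0), (nat_lit 3812), (nat_lit 2108), (nat_lit 1838), (nat_lit 0), (nat_lit 134600), (nat_lit 204000), [((nat_lit 395), [((nat_lit 29), (nat_lit 0), (nat_lit 816))])], ⟨(nat_lit 6), false, false, false, (nat_lit 231), (nat_lit 1118), (nat_lit 1582), [(nat_lit 1505540), (nat_lit 1507543), (nat_lit 1552105), (nat_lit 1554980), (nat_lit 1601263), (nat_lit 1600626), (nat_lit 1647829), (nat_lit 1648063)]⟩, ⟨(nat_lit 5), false, false, false, (nat_lit 221), (nat_lit 1118), (nat_lit 1582), [(nat_lit 1454908), (nat_lit 1457229), (nat_lit 1524755), (nat_lit 1528384), (nat_lit 1577949), (nat_lit 1576877), (nat_lit 1647829), (nat_lit 1648063)]⟩, (nat_lit 5247881), (nat_lit 38842847), (nat_lit 14584156),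 (nat_lit 13572997), (nat_lit 5), (nat_lit 0), [⟨(nat_lit 0), (nat_lit 95), (nat_lit 27), (nat_lit 100), (nat_lit 47130150)⟩], [⟨(nat_lit 0), (nat_lit 97), (nat_lit 27), (nat_lit 100), (nat_lit 22998853)⟩], [⟨(nat_lit 0), (nat_lit 100), (nat_lit 99), (nat_lit 55), (nat_lit 190698611)⟩], [],
 ⟨⟨[(nat_lit 40), (nat_lit 60), (nat_lit 80)], [(nat_lit 0), (nat_lit 2136), (nat_lit 3185)], [((nat_lit 0), (nat_lit 0), (nat_lit 0)), ((nat_lit 1000), (nat_lit 343), (nat_lit 808)), ((nat_lit 1000), (nat_lit 338), (nat_lit 820))], ((nat_lit 32), (nat_lit 100), (nat_lit 88))⟩, (nat_lit 0), (nat_lit 111), (nat_lit 111), (nat_lit 0), (nat_lit 176983), [(nat_lit 1627635881), (nat_lit 1669162361), (nat_lit 1985734400)], [(nat_lit 0), (nat_lit 0), (nat_lit 0)], [(nat_lit 23038553040), (nat_lit 23414863006), (nat_lit 24741805187), (nat_lit 25074097518), (nat_lit 24979470480), (nat_lit 25302162474), (nat_lit 26467611896), (nat_lit 26801328732)], (nat_lit 1271251), (nat_lit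 1271251), (nat_lit 1184688), (nat_lit 1790626), (nat_lit 1017188), (nat_lit 1779376), [(nat_lit 490000), (nat_lit 780000), (nat_lit 1100000)], [(nat_lit 2), (nat_lit 44), (nat_lit 272), (nat_lit 60), (nat_lit 11)]⟩,
 ⟨⟨[(nat_lit 80), (nat_lit 140), (nat_lit 180)], [(nat_lit 0), (nat_lit 0), (nat_lit 3656)], [((nat_lit 0), (nat_lit 0), (nat_lit 0)), ((nat_lit 0), (nat_lit 0), (nat_lit 0)), ((nat_lit 637), (nat_lit 1000), (nat_lit 908))], ((nat_lit 100), (nat_lit 68), (nat_lit 88))⟩, (nat_lit 457), (nat_lit 450), (nat_lit 450), (nat_lit 0), (nat_lit 286269), [(nat_lit 862592000), (nat_lit 1810928000), (nat_lit 2586672000)], [], [(nat_lit 8064469196), (nat_lit 8399633497), (nat_lit 8168108056), (nat_lit 8439849736), (nat_lit 6483185001), (nat_lit 6776905635), (nat_lit 7203960216), (nat_lit 6801194000)], (nat_lit 1271251), (nat_lit 1271251), (nat_lit 1184688), (nat_lit 1790626), (nat_lit 0), (nat_lit 780000), [(nat_lit 1100000), (nat_lit 2127501), (nat_lit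 1271251)], [(nat_lit 19), (nat_lit 63), (nat_lit 401), (nat_lit 175), (nat_lit 9)]⟩,
 ⟨⟨[(nat_lit 100), (nat_lit 160), (nat_lit 200)], [(nat_lit 0), (nat_lit 761), (nat_lit 5273)], [((nat_lit 0), (nat_lit 0), (nat_lit 0)), ((nat_lit 1000), (nat_lit 1000), (nat_lit 198)), ((nat_lit 518), (nat_lit 1000), (nat_lit 909))], ((nat_lit 0), (nat_lit 0), (nat_lit 0))⟩, (nat_lit 45843), (nat_lit 300), (nat_lit 605), (nat_lit 9205360), (nat_lit 335025), [(nat_lit 793750000), (nat_lit 1507744000), (nat_lit 2082800000)], [], [(nat_lit 7824132404), (nat_lit 7853238860), (nat_lit 7501397261), (nat_lit 7480211418), (nat_lit 6282669308), (nat_lit 6192788389), (nat_lit 5870679905), (nat_lit 5841916621)], (nat_lit 1271251), (nat_lit 1271251), (nat_lit 1017188), (nat_lit 1779376), (nat_lit 0), (nat_lit 780000), [(nat_lit 1412501), (nat_lit 1271251), (nat_lit 1271251)], [(nat_lit 25), (nat_lit 66), (nat_lit 401), (nat_lit 175), (nat_lit 9)]⟩⟩) (.dle (nat_lit 0))) (.trZ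 (nat_lit 0) (nat_lit 1) (nat_lit 3) (nat_lit 98) (nat_lit 22) (nat_lit 100) (nat_lit 190) (.trZ (nat_lit 0) (nat_lit 2) (nat_lit 4) (nat_lit 100) (nat_lit 22) (nat_lit 100) (nat_lit 170) (.leaf ⟨(nat_lit 514), (nat_lit 192), (nat_lit 0), (nat_lit 294), (nat_lit 6577), (nat_lit 3761), (nat_lit 4917), (nat_lit 4216), (nat_lit 0), (nat_lit 66547), (nat_lit 128500), [((nat_lit 400), [((nat_lit 29), (nat_lit 0), (nat_lit 514))])], ⟨(nat_lit 6), false, true, false, (nat_lit 237), (nat_lit 0), (nat_lit 1119), [(nat_lit 1533057), (nat_lit 1536337), (nat_lit 1579627), (nat_lit 1585406), (nat_lit 1600626), (nat_lit 1599998), (nat_lit 1647199), (nat_lit 1649068)]⟩, ⟨(nat_lit 5), false, false, false, (nat_lit 226), (nat_lit 0), (nat_lit 1119), [(nat_lit 1482742), (nat_lit 1486337), (nat_lit 1552600), (nat_lit 1559941), (nat_lit 1576876), (nat_lit 1574998), (nat_lit 1647199), (nat_lit 1649068)]⟩, (nat_lit 5310164), (nat_lit 38096838), (nat_lit 14958055), (nat_lit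 13945107), (nat_lit 5), (nat_lit 0), [⟨(nat_lit 0), (nat_lit 96), (nat_lit 16), (nat_lit 100), (nat_lit 1009583193)⟩, ⟨(nat_lit 0), (nat_lit 98), (nat_lit 22), (nat_lit 100), (nat_lit 8741600)⟩], [⟨(nat_lit 0), (nat_lit 97), (nat_lit 16), (nat_lit 100), (nat_lit 547885700)⟩], [⟨(nat_lit 0), (nat_lit 100), (nat_lit 98), (nat_lit 30), (nat_lit 467312169)⟩], [],
 ⟨⟨[(nat_lit 40), (nat_lit 60), (nat_lit 80)], [(nat_lit 0), (nat_lit 2600), (nat_lit 3731)], [((nat_lit 0), (nat_lit 0), (nat_lit 0)), ((nat_lit 1000), (nat_lit 245), (nat_lit 872)), ((nat_lit 1000), (nat_lit 240), (nat_lit 884))], ((nat_lit 23), (nat_lit 100), (nat_lit 92))⟩, (nat_lit 253884), (nat_lit 116), (nat_lit 116), (nat_lit 0), (nat_lit 200796), [(nat_lit 1677312922), (nat_lit 2376962658), (nat_lit 2985837600)], [(nat_lit 0), (nat_lit 0), (nat_lit 0)], [(nat_lit 24219963434), (nat_lit 24570518458), (nat_lit 25369780343), (nat_lit 25690358650), (nat_lit 25766176883), (nat_lit 26076485398),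 (nat_lit 26757168232), (nat_lit 27087112504)], (nat_lit 1271251), (nat_lit 1271251), (nat_lit 1271251), (nat_lit 1271251), (nat_lit 1184688), (nat_lit 1790626), [(nat_lit 490000), (nat_lit 780000), (nat_lit 1100000)], [(nat_lit 2), (nat_lit 44), (nat_lit 203), (nat_lit 0), (nat_lit 7)]⟩,
 ⟨⟨[(nat_lit 80), (nat_lit 140), (nat_lit 180)], [(nat_lit 0), (nat_lit 0), (nat_lit 3656)], [((nat_lit 0), (nat_lit 0), (nat_lit 0)), ((nat_lit 0), (nat_lit 0), (nat_lit 0)), ((nat_lit 637), (nat_lit 1000), (nat_lit 908))], ((nat_lit 100), (nat_lit 64), (nat_lit 91))⟩, (nat_lit 1054670), (nat_lit 472), (nat_lit 472), (nat_lit 0), (nat_lit 351062), [(nat_lit 2278368000), (nat_lit 4783212000), (nat_lit 6832188000)], [], [(nat_lit 17899399443), (nat_lit 18695252594), (nat_lit 18135093032), (nat_lit 18823309052), (nat_lit 14300954951), (nat_lit 15001409054), (nat_lit 14496939974), (nat_lit 15100347218)], (nat_lit 1271251), (nat_lit 1271251), (nat_lit 1271251), (nat_lit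 1271251), (nat_lit 0), (nat_lit 780000), [(nat_lit 1100000), (nat_lit 2127501), (nat_lit 1271251)], [(nat_lit 19), (nat_lit 63), (nat_lit 401), (nat_lit 175), (nat_lit 9)]⟩,
 ⟨⟨[(nat_lit 100), (nat_lit 160), (nat_lit 200)], [(nat_lit 0), (nat_lit 761), (nat_lit 5273)], [((nat_lit 0), (nat_lit 0), (nat_lit 0)), ((nat_lit 1000), (nat_lit 1000), (nat_lit 198)), ((nat_lit 518), (nat_lit 1000), (nat_lit 909))], ((nat_lit 0), (nat_lit 0), (nat_lit 0))⟩, (nat_lit 106124), (nat_lit 300), (nat_lit 627), (nat_lit 21310048), (nat_lit 413703), [(nat_lit 1837500000), (nat_lit 3490368000), (nat_lit 4821600000)], [], [(nat_lit 17838491755), (nat_lit 17888018370), (nat_lit 17369137122), (nat_lit 17323806676), (nat_lit 14325390054), (nat_lit 14105878586), (nat_lit 13632893079), (nat_lit 13570052722)], (nat_lit 1271251), (nat_lit 1271251), (nat_lit 1184688), (nat_lit 1790626), (nat_lit 0), (nat_lit 780000), [(nat_lit 1412501), (nat_lit 1271251), (nat_lit 1271251)],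 [(nat_lit 25), (nat_lit 66), (nat_lit 401), (nat_lit 175), (nat_lit 9)]⟩⟩))))))) (.spl (nat_lit 0) (nat_lit 390) (.spl (nat_lit 6) (nat_lit 96) (.leaf ⟨(nat_lit 0), (nat_lit 65), (nat_lit 0), (nat_lit 935), (nat_lit 18311), (nat_lit 4422), (nat_lit 11771), (nat_lit 10109), (nat_lit 0), (nat_lit 12828), (nat_lit 0), [], Pd.none, Pd.none, (nat_lit 0), (nat_lit 1), (nat_lit 0), (nat_lit 0), (nat_lit 5), (nat_lit 0), [], [⟨(nat_lit 0), (nat_lit 98), (nat_lit 38), (nat_lit 100), (nat_lit 1246570422)⟩], [⟨(nat_lit 0), (nat_lit 100), (nat_lit 98), (nat_lit 30), (nat_lit 1339848403)⟩], [],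
 ⟨⟨[(nat_lit 40), (nat_lit 80), (nat_lit 100)], [(nat_lit 0), (nat_lit 2514), (nat_lit 3562)], [((nat_lit 0), (nat_lit 0), (nat_lit 0)), ((nat_lit 1000), (nat_lit 446), (nat_lit 804)), ((nat_lit 1000), (nat_lit 443), (nat_lit 819))], ((nat_lit 44), (nat_lit 100), (nat_lit 86))⟩, (nat_lit 1171669), (nat_lit 150), (nat_lit 150), (nat_lit 0), (nat_lit 153289), [(nat_lit 2032000015), (nat_lit 4728597942), (nat_lit 6250000000)], [], [(nat_lit 24618885009), (nat_lit 25308183173), (nat_lit 30616334331), (nat_lit 31253438537), (nat_lit 26268842444), (nat_lit 26988602526), (nat_lit 31442160999), (nat_lit 31978317162)], (nat_lit 1271251), (nat_lit 1271251), (nat_lit 1271251), (nat_lit 1271251), (nat_lit 857188), (nat_lit 1768126), [(nat_lit 490000), (nat_lit 1100000), (nat_lit 1442501)], [(nat_lit 3), (nat_lit 50), (nat_lit 272), (nat_lit 60), (nat_lit 9)]⟩,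
 ⟨⟨[(nat_lit 80), (nat_lit 140), (nat_lit 180)], [(nat_lit 0), (nat_lit 0), (nat_lit 3656)], [((nat_lit 0), (nat_lit 0), (nat_lit 0)), ((nat_lit 0), (nat_lit 0), (nat_lit 0)), ((nat_lit 637), (nat_lit 1000), (nat_lit 908))], ((nat_lit 100), (nat_lit 69), (nat_lit 87))⟩, (nat_lit 2604552), (nat_lit 413), (nat_lit 413), (nat_lit 0), (nat_lit 229369), [(nat_lit 4688000000), (nat_lit 9842000000), (nat_lit 14058000000)], [], [(nat_lit 34679619864), (nat_lit 36171044110), (nat_lit 42534732868), (nat_lit 44402337366), (nat_lit 25732262606), (nat_lit 27624315199), (nat_lit 32224090596), (nat_lit 33312268832)], (nat_lit 1271251), (nat_lit 1271251), (nat_lit 1271251), (nat_lit 1271251), (nat_lit 0), (nat_lit 780000), [(nat_lit 1100000), (nat_lit 2127501), (nat_lit 1271251)], [(nat_lit 19), (nat_lit 63), (nat_lit 428), (nat_lit 200), (nat_lit 10)]⟩,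
 ⟨⟨[(nat_lit 100), (nat_lit 140), (nat_lit 180)], [(nat_lit 0), (nat_lit 508), (nat_lit 2854)], [((nat_lit 0), (nat_lit 0), (nat_lit 0)), ((nat_lit 1000), (nat_lit 1000), (nat_lit 198)), ((nat_lit 777), (nat_lit 1000), (nat_lit 712))], ((nat_lit 100), (nat_lit 61), (nat_lit 86))⟩, (nat_lit 596468), (nat_lit 300), (nat_lit 461), (nat_lit 63566174), (nat_lit 257767), [(nat_lit 5843750000), (nat_lit 9202270000), (nat_lit 13144230000)], [], [(nat_lit 47576731234), (nat_lit 48880987746), (nat_lit 46452472470), (nat_lit 47292372806), (nat_lit 39979374265), (nat_lit 40601375509), (nat_lit 38407367895), (nat_lit 39109711176)], (nat_lit 1271251), (nat_lit 1271251), (nat_lit 857188), (nat_lit 1768126), (nat_lit 0), (nat_lit 780000), [(nat_lit 1412501), (nat_lit 1271251), (nat_lit 1271251)], [(nat_lit 24), (nat_lit 63), (nat_lit 401), (nat_lit 175), (nat_lit 9)]⟩⟩) (.dle (nat_lit 0))) (.trX (nat_lit 3) (nat_lit 0) (nat_lit 1) (nat_lit 34) (nat_lit 81) (nat_lit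 100) (nat_lit 340) (.trZ (nat_lit 0) (nat_lit 2) (nat_lit 4) (nat_lit 100) (nat_lit 31) (nat_lit 98) (nat_lit 150) (.leaf ⟨(nat_lit 0), (nat_lit 389), (nat_lit 0), (nat_lit 611), (nat_lit 5563), (nat_lit 4397), (nat_lit 11857), (nat_lit 8841), (nat_lit 0), (nat_lit 10743), (nat_lit 0), [], Pd.none, Pd.none, (nat_lit 0), (nat_lit 1), (nat_lit 0), (nat_lit 0), (nat_lit 5), (nat_lit 0), [], [⟨(nat_lit 0), (nat_lit 97), (nat_lit 22), (nat_lit 100), (nat_lit 1461969457)⟩], [⟨(nat_lit 0), (nat_lit 100), (nat_lit 98), (nat_lit 30), (nat_lit 1018600577)⟩], [],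
 ⟨⟨[(nat_lit 40), (nat_lit 80), (nat_lit 100)], [(nat_lit 0), (nat_lit 3225), (nat_lit 4371)], [((nat_lit 0), (nat_lit 0), (nat_lit 0)), ((nat_lit 1000), (nat_lit 321), (nat_lit 877)), ((nat_lit 1000), (nat_lit 317), (nat_lit 896))], ((nat_lit 32), (nat_lit 100), (nat_lit 90))⟩, (nat_lit 933345), (nat_lit 154), (nat_lit 154), (nat_lit 0), (nat_lit 201500), [(nat_lit 2032000005), (nat_lit 4782336407), (nat_lit 6250000000)], [], [(nat_lit 25409338805), (nat_lit 26078372192), (nat_lit 29917491137), (nat_lit 30574459910), (nat_lit 26967250451), (nat_lit 27684866008), (nat_lit 30969820963), (nat_lit 31535253163)], (nat_lit 1271251), (nat_lit 1271251), (nat_lit 1271251), (nat_lit 1271251), (nat_lit 1017188), (nat_lit 1779376), [(nat_lit 490000), (nat_lit 1100000), (nat_lit 1442501)], [(nat_lit 3), (nat_lit 50), (nat_lit 272), (nat_lit 60), (nat_lit 8)]⟩,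
 ⟨⟨[(nat_lit 80), (nat_lit 140), (nat_lit 180)], [(nat_lit 0), (nat_lit 0), (nat_lit 3656)], [((nat_lit 0), (nat_lit 0), (nat_lit 0)), ((nat_lit 0), (nat_lit 0), (nat_lit 0)), ((nat_lit 637), (nat_lit 1000), (nat_lit 908))], ((nat_lit 100), (nat_lit 64), (nat_lit 91))⟩, (nat_lit 2798706), (nat_lit 459), (nat_lit 459), (nat_lit 0), (nat_lit 351563), [(nat_lit 4688000000), (nat_lit 9842000000), (nat_lit 14058000000)], [], [(nat_lit 33915342456), (nat_lit 36096847226), (nat_lit 40042698196), (nat_lit 41762654780), (nat_lit 25575689802), (nat_lit 27474423133), (nat_lit 30733180798), (nat_lit 31962700683)], (nat_lit 1271251), (nat_lit 1271251), (nat_lit 1271251), (nat_lit 1271251), (nat_lit 0), (nat_lit 780000), [(nat_lit 1100000), (nat_lit 2127501), (nat_lit 1271251)], [(nat_lit 19), (nat_lit 63), (nat_lit 428), (nat_lit 200), (nat_lit 10)]⟩,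
 ⟨⟨[(nat_lit 100), (nat_lit 160), (nat_lit 200)], [(nat_lit 0), (nat_lit 761), (nat_lit 5273)], [((nat_lit 0), (nat_lit 0), (nat_lit 0)), ((nat_lit 1000), (nat_lit 1000), (nat_lit 198)), ((nat_lit 518), (nat_lit 1000), (nat_lit 909))], ((nat_lit 0), (nat_lit 0), (nat_lit 0))⟩, (nat_lit 220550), (nat_lit 300), (nat_lit 637), (nat_lit 44287210), (nat_lit 414917), [(nat_lit 3818750000), (nat_lit 7253792000), (nat_lit 10020400000)], [], [(nat_lit 37641756421), (nat_lit 37781908470), (nat_lit 36089559565), (nat_lit 35987792606), (nat_lit 30229773827), (nat_lit 29795127160), (nat_lit 28245797193), (nat_lit 28107576337)], (nat_lit 1271251), (nat_lit 1271251), (nat_lit 1017188), (nat_lit 1779376), (nat_lit 0), (nat_lit 780000), [(nat_lit 1412501), (nat_lit 1271251), (nat_lit 1271251)], [(nat_lit 25), (nat_lit 66), (nat_lit 401), (nat_lit 175), (nat_lit 9)]⟩⟩))))) (.spl (nat_lit 6) (nat_lit 88) (.leaf ⟨(nat_lit 0), (nat_lit 0), (nat_lit 0), (nat_lit 1000),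 (nat_lit 0), (nat_lit 4344), (nat_lit 7005), (nat_lit 10287), (nat_lit 0), (nat_lit 407392), (nat_lit 0), [], Pd.none, Pd.none, (nat_lit 0), (nat_lit 1), (nat_lit 0), (nat_lit 0), (nat_lit 0), (nat_lit 0), [⟨(nat_lit 0), (nat_lit 95), (nat_lit 31), (nat_lit 100), (nat_lit 997860796)⟩], [], [⟨(nat_lit 0), (nat_lit 100), (nat_lit 98), (nat_lit 30), (nat_lit 642792487)⟩], [],
 ⟨⟨[(nat_lit 40), (nat_lit 80), (nat_lit 100)], [(nat_lit 0), (nat_lit 2514), (nat_lit 3562)], [((nat_lit 0), (nat_lit 0), (nat_lit 0)), ((nat_lit 1000), (nat_lit 446), (nat_lit 804)), ((nat_lit 1000), (nat_lit 443), (nat_lit 819))], ((nat_lit 44), (nat_lit 100), (nat_lit 84))⟩, (nat_lit 1165102), (nat_lit 159), (nat_lit 159), (nat_lit 0), (nat_lit 202515), [(nat_lit 2032000206), (nat_lit 4759964156), (nat_lit 6250000000)], [], [(nat_lit 24845409402), (nat_lit 26022262684), (nat_lit 31350428748), (nat_lit 32414333648), (nat_lit 30352248528), (nat_lit 31585068526), (nat_lit 35089106126),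 (nat_lit 35893419200)], (nat_lit 1271251), (nat_lit 1271251), (nat_lit 1017188), (nat_lit 2795626), (nat_lit 1271251), (nat_lit 1271251), [(nat_lit 490000), (nat_lit 1100000), (nat_lit 1442501)], [(nat_lit 3), (nat_lit 50), (nat_lit 317), (nat_lit 100), (nat_lit 10)]⟩,
 ⟨⟨[(nat_lit 80), (nat_lit 140), (nat_lit 180)], [(nat_lit 0), (nat_lit 0), (nat_lit 3656)], [((nat_lit 0), (nat_lit 0), (nat_lit 0)), ((nat_lit 0), (nat_lit 0), (nat_lit 0)), ((nat_lit 637), (nat_lit 1000), (nat_lit 908))], ((nat_lit 100), (nat_lit 73), (nat_lit 85))⟩, (nat_lit 1179751), (nat_lit 483), (nat_lit 483), (nat_lit 0), (nat_lit 347036), [(nat_lit 4688000000), (nat_lit 9842000000), (nat_lit 14058000000)], [], [(nat_lit 41946758027), (nat_lit 43508168237), (nat_lit 47266824644), (nat_lit 48070990944), (nat_lit 38324042967), (nat_lit 39274084775), (nat_lit 52502351985), (nat_lit 46197014888)], (nat_lit 1271251), (nat_lit 1271251), (nat_lit 1017188), (nat_lit 2795626), (nat_lit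 0), (nat_lit 780000), [(nat_lit 1100000), (nat_lit 2127501), (nat_lit 1271251)], [(nat_lit 19), (nat_lit 63), (nat_lit 428), (nat_lit 200), (nat_lit 10)]⟩,
 ⟨⟨[(nat_lit 100), (nat_lit 140), (nat_lit 180)], [(nat_lit 0), (nat_lit 508), (nat_lit 2854)], [((nat_lit 0), (nat_lit 0), (nat_lit 0)), ((nat_lit 1000), (nat_lit 1000), (nat_lit 198)), ((nat_lit 777), (nat_lit 1000), (nat_lit 712))], ((nat_lit 100), (nat_lit 64), (nat_lit 83))⟩, (nat_lit 637933), (nat_lit 300), (nat_lit 487), (nat_lit 67985218), (nat_lit 408209), [(nat_lit 6250000000), (nat_lit 9842000000), (nat_lit 14058000000)], [], [(nat_lit 49883846000), (nat_lit 50801942898), (nat_lit 53666353637), (nat_lit 53834824438), (nat_lit 42402250128), (nat_lit 42586775038), (nat_lit 45102162233), (nat_lit 45212459463)], (nat_lit 1271251), (nat_lit 1271251), (nat_lit 1271251), (nat_lit 1271251), (nat_lit 0), (nat_lit 780000), [(nat_lit 1412501), (nat_lit 1271251), (nat_lit 1271251)], [(nat_lit 24),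 (nat_lit 63), (nat_lit 428), (nat_lit 200), (nat_lit 10)]⟩⟩) (.leaf ⟨(nat_lit 0), (nat_lit 0), (nat_lit 0), (nat_lit 1000), (nat_lit 23565), (nat_lit 4159), (nat_lit 8894), (nat_lit 10701), (nat_lit 0), (nat_lit 459418), (nat_lit 0), [], Pd.none, Pd.none, (nat_lit 0), (nat_lit 1), (nat_lit 0), (nat_lit 0), (nat_lit 0), (nat_lit 0), [⟨(nat_lit 0), (nat_lit 95), (nat_lit 31), (nat_lit 100), (nat_lit 1077198539)⟩], [], [⟨(nat_lit 0), (nat_lit 100), (nat_lit 98), (nat_lit 30), (nat_lit 762032259)⟩], [],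
 ⟨⟨[(nat_lit 40), (nat_lit 80), (nat_lit 100)], [(nat_lit 0), (nat_lit 2514), (nat_lit 3562)], [((nat_lit 0), (nat_lit 0), (nat_lit 0)), ((nat_lit 1000), (nat_lit 446), (nat_lit 804)), ((nat_lit 1000), (nat_lit 443), (nat_lit 819))], ((nat_lit 44), (nat_lit 100), (nat_lit 89))⟩, (nat_lit 936966), (nat_lit 129), (nat_lit 129), (nat_lit 0), (nat_lit 87802), [(nat_lit 2032001484), (nat_lit 5250674610), (nat_lit 6250000000)], [], [(nat_lit 25656846296), (nat_lit 26882924356), (nat_lit 31321098755), (nat_lit 32177364404), (nat_lit 30418056709), (nat_lit 31403535692), (nat_lit 34840482730), (nat_lit 35633161200)], (nat_lit 1271251), (nat_lit 1271251), (nat_lit 1017188), (nat_lit 2795626), (nat_lit 1271251), (nat_lit 1271251), [(nat_lit 490000), (nat_lit 1100000), (nat_lit 1442501)], [(nat_lit 3), (nat_lit 50), (nat_lit 317), (nat_lit 100), (nat_lit 10)]⟩,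
 ⟨⟨[(nat_lit 80), (nat_lit 140), (nat_lit 180)], [(nat_lit 0), (nat_lit 0), (nat_lit 3656)], [((nat_lit 0), (nat_lit 0), (nat_lit 0)), ((nat_lit 0), (nat_lit 0), (nat_lit 0)), ((nat_lit 637), (nat_lit 1000), (nat_lit 908))], ((nat_lit 100), (nat_lit 64), (nat_lit 91))⟩, (nat_lit 0), (nat_lit 398), (nat_lit 398), (nat_lit 0), (nat_lit 137748), [(nat_lit 4688000000), (nat_lit 9842000000), (nat_lit 14058000000)], [], [(nat_lit 45336131779), (nat_lit 47044257129), (nat_lit 50773126840), (nat_lit 51560027680), (nat_lit 39073182404), (nat_lit 40588569129), (nat_lit 54550400118), (nat_lit 46544737285)], (nat_lit 1271251), (nat_lit 1271251), (nat_lit 1017188), (nat_lit 2795626), (nat_lit 0), (nat_lit 780000), [(nat_lit 1100000), (nat_lit 2127501), (nat_lit 1271251)], [(nat_lit 19), (nat_lit 63), (nat_lit 428), (nat_lit 200), (nat_lit 10)]⟩,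
 ⟨⟨[(nat_lit 100), (nat_lit 160), (nat_lit 200)], [(nat_lit 0), (nat_lit 761), (nat_lit 5273)], [((nat_lit 0), (nat_lit 0), (nat_lit 0)), ((nat_lit 1000), (nat_lit 1000), (nat_lit 198)), ((nat_lit 518), (nat_lit 1000), (nat_lit 909))], ((nat_lit 0), (nat_lit 0), (nat_lit 0))⟩, (nat_lit 360965), (nat_lit 300), (nat_lit 449), (nat_lit 72483161), (nat_lit 143536), [(nat_lit 6250000000), (nat_lit 11872000000), (nat_lit 16400000000)], [], [(nat_lit 59424577556), (nat_lit 59617857076), (nat_lit 61698394419), (nat_lit 61288199940), (nat_lit 50597863881), (nat_lit 50541441997), (nat_lit 52332706648), (nat_lit 51916969007)], (nat_lit 1271251), (nat_lit 1271251), (nat_lit 1271251), (nat_lit 1271251), (nat_lit 0), (nat_lit 780000), [(nat_lit 1412501), (nat_lit 1271251), (nat_lit 1271251)], [(nat_lit 25), (nat_lit 66), (nat_lit 428), (nat_lit 200), (nat_lit 9)]⟩⟩)))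
noncomputable def c14_139 : Tr Lf :=
 (.leaf ⟨(nat_lit 0), (nat_lit 0), (nat_lit 0), (nat_lit 1000), (nat_lit 2798), (nat_lit 4343), (nat_lit 9351), (nat_lit 7808), (nat_lit 0), (nat_lit 6301), (nat_lit 0), [], Pd.none, Pd.none, (nat_lit 0), (nat_lit 1), (nat_lit 0), (nat_lit 0), (nat_lit 0), (nat_lit 0), [⟨(nat_lit 0), (nat_lit 95), (nat_lit 31), (nat_lit 100), (nat_lit 837488134)⟩], [⟨(nat_lit 0), (nat_lit 97), (nat_lit 31), (nat_lit 100), (nat_lit 1143628947)⟩], [], [],
 ⟨⟨[(nat_lit 40), (nat_lit 80), (nat_lit 100)], [(nat_lit 0), (nat_lit 2514), (nat_lit 3562)], [((nat_lit 0), (nat_lit 0), (nat_lit 0)), ((nat_lit 1000), (nat_lit 446), (nat_lit 804)), ((nat_lit 1000), (nat_lit 443), (nat_lit 819))], ((nat_lit 44), (nat_lit 100), (nat_lit 89))⟩, (nat_lit 1222785), (nat_lit 167), (nat_lit 167), (nat_lit 0), (nat_lit 203909), [(nat_lit 2032000007), (nat_lit 4688000005), (nat_lit 6250000000)], [], [(nat_lit 22677513646), (nat_lit 24083948089), (nat_lit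 30495763702), (nat_lit 31758803270), (nat_lit 30350844104), (nat_lit 31583527704), (nat_lit 35087762216), (nat_lit 35892012400)], (nat_lit 1271251), (nat_lit 1271251), (nat_lit 1017188), (nat_lit 2795626), (nat_lit 857188), (nat_lit 2761876), [(nat_lit 490000), (nat_lit 1100000), (nat_lit 1442501)], [(nat_lit 3), (nat_lit 50), (nat_lit 428), (nat_lit 200), (nat_lit 15)]⟩,
 ⟨⟨[(nat_lit 80), (nat_lit 140), (nat_lit 180)], [(nat_lit 0), (nat_lit 0), (nat_lit 3656)], [((nat_lit 0), (nat_lit 0), (nat_lit 0)), ((nat_lit 0), (nat_lit 0), (nat_lit 0)), ((nat_lit 637), (nat_lit 1000), (nat_lit 908))], ((nat_lit 100), (nat_lit 64), (nat_lit 91))⟩, (nat_lit 0), (nat_lit 450), (nat_lit 450), (nat_lit 0), (nat_lit 494687), [(nat_lit 4688000000), (nat_lit 9842000000), (nat_lit 14058000000)], [], [(nat_lit 38431369433), (nat_lit 39975044458), (nat_lit 43238298686), (nat_lit 43921981738), (nat_lit 72013098504), (nat_lit 63784073564), (nat_lit 45082302954), (nat_lit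 45357458801)], (nat_lit 1271251), (nat_lit 1271251), (nat_lit 1271251), (nat_lit 1271251), (nat_lit 780000), (nat_lit 3072501), [(nat_lit 1100000), (nat_lit 2127501), (nat_lit 1271251)], [(nat_lit 19), (nat_lit 63), (nat_lit 538), (nat_lit 300), (nat_lit 12)]⟩,
 ⟨⟨[(nat_lit 100), (nat_lit 160), (nat_lit 200)], [(nat_lit 0), (nat_lit 761), (nat_lit 5273)], [((nat_lit 0), (nat_lit 0), (nat_lit 0)), ((nat_lit 1000), (nat_lit 1000), (nat_lit 198)), ((nat_lit 518), (nat_lit 1000), (nat_lit 909))], ((nat_lit 0), (nat_lit 0), (nat_lit 0))⟩, (nat_lit 360965), (nat_lit 300), (nat_lit 624), (nat_lit 72483161), (nat_lit 585777), [(nat_lit 6250000000), (nat_lit 11872000000), (nat_lit 16400000000)], [], [(nat_lit 65482985646), (nat_lit 65247336075), (nat_lit 63685585197), (nat_lit 63091852395), (nat_lit 65993439840), (nat_lit 63000445817), (nat_lit 60431294878), (nat_lit 59528702632)], (nat_lit 1271251), (nat_lit 1271251), (nat_lit 1271251), (nat_lit 1271251),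 (nat_lit 780000), (nat_lit 3072501), [(nat_lit 1412501), (nat_lit 1271251), (nat_lit 1271251)], [(nat_lit 25), (nat_lit 66), (nat_lit 538), (nat_lit 300), (nat_lit 11)]⟩⟩)
noncomputable def c14_140 : Tr Lf :=
 (.trZ (nat_lit 0) (nat_lit 1) (nat_lit 3) (nat_lit 92) (nat_lit 44) (nat_lit 100) (nat_lit 190) (.trZ (nat_lit 1) (nat_lit 2) (nat_lit 5) (nat_lit 100) (nat_lit 92) (nat_lit 49) (nat_lit 20) (.spl (nat_lit 5) (nat_lit 120) (.spl (nat_lit 0) (nat_lit 390) (.spl (nat_lit 6) (nat_lit 120) (.leaf ⟨(nat_lit 0), (nat_lit 570), (nat_lit 0), (nat_lit 430), (nat_lit 8454), (nat_lit 4535), (nat_lit 8765), (nat_lit 5731), (nat_lit 0), (nat_lit 30069), (nat_lit 0), [], Pd.none, Pd.none, (nat_lit 0), (nat_lit 1), (nat_lit 0), (nat_lit 0), (nat_lit 5), (nat_lit 0), [⟨(nat_lit 0), (nat_lit 84), (nat_lit 33), (nat_lit 100), (nat_lit 234719139)⟩], [], [⟨(nat_lit 0), (nat_lit 100), (nat_lit 92), (nat_lit 49), (nat_lit 609815237)⟩], [],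
 ⟨⟨[(nat_lit 40), (nat_lit 80), (nat_lit 120)], [(nat_lit 0), (nat_lit 2514), (nat_lit 4610)], [((nat_lit 0), (nat_lit 0), (nat_lit 0)), ((nat_lit 1000), (nat_lit 446), (nat_lit 804)), ((nat_lit 1000), (nat_lit 443), (nat_lit 819))], ((nat_lit 44), (nat_lit 100), (nat_lit 92))⟩, (nat_lit 1115151), (nat_lit 238), (nat_lit 238), (nat_lit 0), (nat_lit 314535), [(nat_lit 2032000022), (nat_lit 4688000058), (nat_lit 7968000000)], [], [(nat_lit 25462170356), (nat_lit 25992399307), (nat_lit 32019490059), (nat_lit 32606545105), (nat_lit 32039563495), (nat_lit 32596415415), (nat_lit 36843745860), (nat_lit 37207458710)], (nat_lit 1271251), (nat_lit 1271251), (nat_lit 1271251), (nat_lit 1271251), (nat_lit 857188), (nat_lit 2927501), [(nat_lit 490000), (nat_lit 1100000), (nat_lit 1785001)], [(nat_lit 4), (nat_lit 51), (nat_lit 428), (nat_lit 200), (nat_lit 13)]⟩,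
 ⟨⟨[(nat_lit 60), (nat_lit 120), (nat_lit 180)], [(nat_lit 0), (nat_lit 0), (nat_lit 4796)], [((nat_lit 0), (nat_lit 0), (nat_lit 0)), ((nat_lit 0), (nat_lit 0), (nat_lit 0)), ((nat_lit 802), (nat_lit 1000), (nat_lit 999))], ((nat_lit 100), (nat_lit 80), (nat_lit 100))⟩, (nat_lit 2532617), (nat_lit 440), (nat_lit 440), (nat_lit 0), (nat_lit 346600), [(nat_lit 3282000000), (nat_lit 7968000000), (nat_lit 14058000000)], [], [(nat_lit 30370361309), (nat_lit 32115379314), (nat_lit 38516403804), (nat_lit 41330090060), (nat_lit 25532640673), (nat_lit 27099292507), (nat_lit 33458066093), (nat_lit 34700730088)], (nat_lit 1271251), (nat_lit 1271251), (nat_lit 1271251), (nat_lit 1271251), (nat_lit 111251), (nat_lit 780000), [(nat_lit 780000), (nat_lit 1762501), (nat_lit 1271251)], [(nat_lit 13), (nat_lit 60), (nat_lit 456), (nat_lit 225), (nat_lit 10)]⟩,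
 ⟨⟨[(nat_lit 100), (nat_lit 160), (nat_lit 200)], [(nat_lit 0), (nat_lit 761), (nat_lit 5273)], [((nat_lit 0), (nat_lit 0), (nat_lit 0)), ((nat_lit 1000), (nat_lit 1000), (nat_lit 198)), ((nat_lit 518), (nat_lit 1000), (nat_lit 909))], ((nat_lit 0), (nat_lit 0), (nat_lit 0))⟩, (nat_lit 155215), (nat_lit 300), (nat_lit 673), (nat_lit 31167759), (nat_lit 521822), [(nat_lit 2687500000), (nat_lit 5104960000), (nat_lit 7052000000)], [], [(nat_lit 26745888187), (nat_lit 26325797018), (nat_lit 25654794619), (nat_lit 25524156120), (nat_lit 22891012106), (nat_lit 22272268028), (nat_lit 23260040427), (nat_lit 20966369414)], (nat_lit 1271251), (nat_lit 1271251), (nat_lit 857188), (nat_lit 2927501), (nat_lit 111251), (nat_lit 780000), [(nat_lit 1412501), (nat_lit 1271251), (nat_lit 1271251)], [(nat_lit 25), (nat_lit 66), (nat_lit 456), (nat_lit 225), (nat_lit 10)]⟩⟩) (.dle (nat_lit 0))) (.trZ (nat_lit 0) (nat_lit 1) (nat_lit 3) (nat_lit 92) (nat_lit 31) (nat_lit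 100) (nat_lit 210) (.trX (nat_lit 3) (nat_lit 0) (nat_lit 1) (nat_lit 39) (nat_lit 72) (nat_lit 100) (nat_lit 370) (.trZ (nat_lit 0) (nat_lit 2) (nat_lit 4) (nat_lit 100) (nat_lit 31) (nat_lit 98) (nat_lit 150) (.trX (nat_lit 4) (nat_lit 0) (nat_lit 2) (nat_lit 39) (nat_lit 72) (nat_lit 100) (nat_lit 370) (.leaf ⟨(nat_lit 0), (nat_lit 556), (nat_lit 0), (nat_lit 444), (nat_lit 0), (nat_lit 4896), (nat_lit 9874), (nat_lit 5785), (nat_lit 0), (nat_lit 107122), (nat_lit 0), [], Pd.none, Pd.none, (nat_lit 0), (nat_lit 1), (nat_lit 0), (nat_lit 0), (nat_lit 5), (nat_lit 0), [⟨(nat_lit 0), (nat_lit 91), (nat_lit 23), (nat_lit 100), (nat_lit 46050748)⟩], [], [⟨(nat_lit 0), (nat_lit 100), (nat_lit 92), (nat_lit 49), (nat_lit 594095474)⟩], [],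
 ⟨⟨[(nat_lit 40), (nat_lit 80), (nat_lit 100)], [(nat_lit 0), (nat_lit 3225), (nat_lit 4371)], [((nat_lit 0), (nat_lit 0), (nat_lit 0)), ((nat_lit 1000), (nat_lit 321), (nat_lit 877)), ((nat_lit 1000), (nat_lit 317), (nat_lit 896))], ((nat_lit 31), (nat_lit 100), (nat_lit 94))⟩, (nat_lit 568026), (nat_lit 213), (nat_lit 213), (nat_lit 0), (nat_lit 346276), [(nat_lit 2032000101), (nat_lit 4688000098), (nat_lit 6250000000)], [], [(nat_lit 26458613450), (nat_lit 27092881404), (nat_lit 32375316916), (nat_lit 33009277576), (nat_lit 32765803681), (nat_lit 33341226519), (nat_lit 37005549455), (nat_lit 37401132672)], (nat_lit 1271251), (nat_lit 1271251), (nat_lit 1271251), (nat_lit 1271251), (nat_lit 1017188), (nat_lit 2880313), [(nat_lit 490000), (nat_lit 1100000), (nat_lit 1442501)], [(nat_lit 3), (nat_lit 50), (nat_lit 317), (nat_lit 100), (nat_lit 10)]⟩,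
 ⟨⟨[(nat_lit 60), (nat_lit 120), (nat_lit 180)], [(nat_lit 0), (nat_lit 0), (nat_lit 4796)], [((nat_lit 0), (nat_lit 0), (nat_lit 0)), ((nat_lit 0), (nat_lit 0), (nat_lit 0)), ((nat_lit 802), (nat_lit 1000), (nat_lit 999))], ((nat_lit 97), (nat_lit 73), (nat_lit 100))⟩, (nat_lit 2161746), (nat_lit 464), (nat_lit 464), (nat_lit 0), (nat_lit 426165), [(nat_lit 3282000000), (nat_lit 7968000000), (nat_lit 14058000000)], [], [(nat_lit 31707167056), (nat_lit 34127837242), (nat_lit 39967905308), (nat_lit 42622579170), (nat_lit 26493556382), (nat_lit 27697771858), (nat_lit 32756062505), (nat_lit 34314552128)], (nat_lit 1271251), (nat_lit 1271251), (nat_lit 1271251), (nat_lit 1271251), (nat_lit 111251), (nat_lit 780000), [(nat_lit 780000), (nat_lit 1762501), (nat_lit 1271251)], [(nat_lit 13), (nat_lit 60), (nat_lit 456), (nat_lit 225), (nat_lit 10)]⟩,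
 ⟨⟨[(nat_lit 100), (nat_lit 160), (nat_lit 200)], [(nat_lit 0), (nat_lit 761), (nat_lit 5273)], [((nat_lit 0), (nat_lit 0), (nat_lit 0)), ((nat_lit 1000), (nat_lit 1000), (nat_lit 198)), ((nat_lit 518), (nat_lit 1000), (nat_lit 909))], ((nat_lit 0), (nat_lit 0), (nat_lit 0))⟩, (nat_lit 160268), (nat_lit 300), (nat_lit 717), (nat_lit 32182535), (nat_lit 660967), [(nat_lit 2775000000), (nat_lit 5271168000), (nat_lit 7281600000)], [], [(nat_lit 27242038854), (nat_lit 26636472525), (nat_lit 26383114170), (nat_lit 25950382543), (nat_lit 23391616203), (nat_lit 22766201182), (nat_lit 24064495121), (nat_lit 21741839335)], (nat_lit 1271251), (nat_lit 1271251), (nat_lit 1017188), (nat_lit 2880313), (nat_lit 111251), (nat_lit 780000), [(nat_lit 1412501), (nat_lit 1271251), (nat_lit 1271251)], [(nat_lit 25), (nat_lit 66), (nat_lit 456), (nat_lit 225), (nat_lit 10)]⟩⟩)))))) (.leaf ⟨(nat_lit 0), (nat_lit 301), (nat_lit 0), (nat_lit 699), (nat_lit 0), (nat_lit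 4508), (nat_lit 10021), (nat_lit 5985), (nat_lit 0), (nat_lit 3561), (nat_lit 0), [], Pd.none, Pd.none, (nat_lit 0), (nat_lit 1), (nat_lit 0), (nat_lit 0), (nat_lit 5), (nat_lit 0), [⟨(nat_lit 0), (nat_lit 88), (nat_lit 32), (nat_lit 100), (nat_lit 215370331)⟩], [⟨(nat_lit 0), (nat_lit 94), (nat_lit 31), (nat_lit 100), (nat_lit 641489766)⟩], [], [],
 ⟨⟨[(nat_lit 40), (nat_lit 80), (nat_lit 120)], [(nat_lit 0), (nat_lit 2514), (nat_lit 4610)], [((nat_lit 0), (nat_lit 0), (nat_lit 0)), ((nat_lit 1000), (nat_lit 446), (nat_lit 804)), ((nat_lit 1000), (nat_lit 443), (nat_lit 819))], ((nat_lit 44), (nat_lit 100), (nat_lit 95))⟩, (nat_lit 1360403), (nat_lit 251), (nat_lit 251), (nat_lit 0), (nat_lit 349243), [(nat_lit 2032000003), (nat_lit 5034950419), (nat_lit 7968000000)], [], [(nat_lit 24339178463), (nat_lit 25574834073), (nat_lit 31955967936), (nat_lit 33164347437), (nat_lit 32001956838), (nat_lit 33112633668), (nat_lit 36804675353), (nat_lit 37530806128)],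 (nat_lit 1271251), (nat_lit 1271251), (nat_lit 1271251), (nat_lit 1271251), (nat_lit 857188), (nat_lit 2927501), [(nat_lit 490000), (nat_lit 1100000), (nat_lit 1785001)], [(nat_lit 4), (nat_lit 51), (nat_lit 428), (nat_lit 200), (nat_lit 13)]⟩,
 ⟨⟨[(nat_lit 60), (nat_lit 120), (nat_lit 180)], [(nat_lit 0), (nat_lit 0), (nat_lit 4796)], [((nat_lit 0), (nat_lit 0), (nat_lit 0)), ((nat_lit 0), (nat_lit 0), (nat_lit 0)), ((nat_lit 802), (nat_lit 1000), (nat_lit 999))], ((nat_lit 97), (nat_lit 73), (nat_lit 100))⟩, (nat_lit 1932094), (nat_lit 474), (nat_lit 474), (nat_lit 0), (nat_lit 617859), [(nat_lit 3282000000), (nat_lit 7968000000), (nat_lit 14058000000)], [], [(nat_lit 27209299515), (nat_lit 28257438051), (nat_lit 34540755617), (nat_lit 35699860015), (nat_lit 40342531317), (nat_lit 36630679041), (nat_lit 42092487168), (nat_lit 43049440031)], (nat_lit 1271251), (nat_lit 1271251), (nat_lit 1271251), (nat_lit 1271251), (nat_lit 780000), (nat_lit 3072501),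 [(nat_lit 780000), (nat_lit 1762501), (nat_lit 1271251)], [(nat_lit 13), (nat_lit 60), (nat_lit 538), (nat_lit 300), (nat_lit 12)]⟩,
 ⟨⟨[(nat_lit 100), (nat_lit 160), (nat_lit 200)], [(nat_lit 0), (nat_lit 761), (nat_lit 5273)], [((nat_lit 0), (nat_lit 0), (nat_lit 0)), ((nat_lit 1000), (nat_lit 1000), (nat_lit 198)), ((nat_lit 518), (nat_lit 1000), (nat_lit 909))], ((nat_lit 0), (nat_lit 0), (nat_lit 0))⟩, (nat_lit 1719485), (nat_lit 300), (nat_lit 817), (nat_lit 43687500), (nat_lit 982441), [(nat_lit 4368750000), (nat_lit 8298528000), (nat_lit 11463600000)], [], [(nat_lit 42945080464), (nat_lit 42099104517), (nat_lit 40292909318), (nat_lit 39149977178), (nat_lit 47591483490), (nat_lit 38826237513), (nat_lit 36626872195), (nat_lit 35243123421)], (nat_lit 1271251), (nat_lit 1271251), (nat_lit 1271251), (nat_lit 1271251), (nat_lit 780000), (nat_lit 3072501), [(nat_lit 1412501), (nat_lit 1271251), (nat_lit 1271251)], [(nat_lit 25), (nat_lit 66), (nat_lit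 538), (nat_lit 300), (nat_lit 11)]⟩⟩))))
def l027 : List St := [⟨⟨(nat_lit 380), (nat_lit 400), (nat_lit 280), (nat_lit 320), (nat_lit 120), (nat_lit 180), (nat_lit 190), (nat_lit 280), (nat_lit 160), (nat_lit 270), (nat_lit 0), (nat_lit 380), (nat_lit 88), (nat_lit 132)⟩, (nat_lit 1), (nat_lit 3), (nat_lit 3), false, false, false⟩,
  ⟨⟨(nat_lit 380), (nat_lit 400), (nat_lit 240), (nat_lit 280), (nat_lit 120), (nat_lit 180), (nat_lit 280), (nat_lit 360), (nat_lit 40), (nat_lit 160), (nat_lit 0), (nat_lit 200), (nat_lit 88), (nat_lit 132)⟩, (nat_lit 3), (nat_lit 3), (nat_lit 3), false, false, false⟩,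
  ⟨⟨(nat_lit 380), (nat_lit 400), (nat_lit 240), (nat_lit 280), (nat_lit 120), (nat_lit 180), (nat_lit 280), (nat_lit 360), (nat_lit 40), (nat_lit 160), (nat_lit 200), (nat_lit 370), (nat_lit 88), (nat_lit 132)⟩, (nat_lit 3), (nat_lit 3), (nat_lit 3), false, false, false⟩,
  ⟨⟨(nat_lit 380), (nat_lit 400), (nat_lit 240), (nat_lit 280), (nat_lit 120), (nat_lit 180), (nat_lit 280), (nat_lit 360), (nat_lit 160), (nat_lit 270), (nat_lit 0), (nat_lit 120), (nat_lit 88), (nat_lit 132)⟩, (nat_lit 3), (nat_lit 3), (nat_lit 3), false, false, true⟩,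
  ⟨⟨(nat_lit 380), (nat_lit 400), (nat_lit 240), (nat_lit 280), (nat_lit 120), (nat_lit 180), (nat_lit 280), (nat_lit 360), (nat_lit 160), (nat_lit 270), (nat_lit 120), (nat_lit 400), (nat_lit 88), (nat_lit 132)⟩, (nat_lit 3), (nat_lit 3), (nat_lit 3), false, false, false⟩,
  ⟨⟨(nat_lit 380), (nat_lit 390), (nat_lit 280), (nat_lit 320), (nat_lit 120), (nat_lit 160), (nat_lit 280), (nat_lit 380), (nat_lit 40), (nat_lit 250), (nat_lit 0), (nat_lit 370), (nat_lit 88), (nat_lit 132)⟩, (nat_lit 3), (nat_lit 3), (nat_lit 3), false, false, false⟩,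
  ⟨⟨(nat_lit 390), (nat_lit 400), (nat_lit 280), (nat_lit 320), (nat_lit 120), (nat_lit 160), (nat_lit 280), (nat_lit 380), (nat_lit 40), (nat_lit 250), (nat_lit 0), (nat_lit 370), (nat_lit 88), (nat_lit 132)⟩, (nat_lit 3), (nat_lit 3), (nat_lit 3), false, false, false⟩,
  ⟨⟨(nat_lit 380), (nat_lit 400), (nat_lit 280), (nat_lit 320), (nat_lit 160), (nat_lit 180), (nat_lit 280), (nat_lit 380), (nat_lit 40), (nat_lit 270), (nat_lit 0), (nat_lit 380), (nat_lit 88), (nat_lit 132)⟩, (nat_lit 3), (nat_lit 3), (nat_lit 3), false, false, false⟩,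
  ⟨⟨(nat_lit 380), (nat_lit 400), (nat_lit 240), (nat_lit 280), (nat_lit 180), (nat_lit 220), (nat_lit 150), (nat_lit 240), (nat_lit 90), (nat_lit 310), (nat_lit 0), (nat_lit 400), (nat_lit 88), (nat_lit 108)⟩, (nat_lit 3), (nat_lit 3), (nat_lit 3), false, false, false⟩,
  ⟨⟨(nat_lit 380), (nat_lit 400), (nat_lit 240), (nat_lit 280), (nat_lit 180), (nat_lit 220), (nat_lit 240), (nat_lit 360), (nat_lit 90), (nat_lit 310), (nat_lit 0), (nat_lit 400), (nat_lit 88), (nat_lit 108)⟩, (nat_lit 3), (nat_lit 3), (nat_lit 3), false, false, false⟩,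
  ⟨⟨(nat_lit 380), (nat_lit 400), (nat_lit 280), (nat_lit 320), (nat_lit 180), (nat_lit 220), (nat_lit 150), (nat_lit 380), (nat_lit 90), (nat_lit 310), (nat_lit 0), (nat_lit 400), (nat_lit 88), (nat_lit 132)⟩, (nat_lit 3), (nat_lit 3), (nat_lit 3), false, false, false⟩,
  ⟨⟨(nat_lit 390), (nat_lit 400), (nat_lit 240), (nat_lit 280), (nat_lit 120), (nat_lit 180), (nat_lit 170), (nat_lit 340), (nat_lit 60), (nat_lit 250), (nat_lit 0), (nat_lit 200), (nat_lit 132), (nat_lit 156)⟩, (nat_lit 3), (nat_lit 3), (nat_lit 3), false, false, false⟩,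
  ⟨⟨(nat_lit 390), (nat_lit 400), (nat_lit 240), (nat_lit 280), (nat_lit 120), (nat_lit 180), (nat_lit 170), (nat_lit 340), (nat_lit 60), (nat_lit 250), (nat_lit 200), (nat_lit 400), (nat_lit 132), (nat_lit 156)⟩, (nat_lit 3), (nat_lit 3), (nat_lit 3), false, false, false⟩,
  ⟨⟨(nat_lit 380), (nat_lit 400), (nat_lit 280), (nat_lit 300), (nat_lit 120), (nat_lit 180), (nat_lit 190), (nat_lit 380), (nat_lit 40), (nat_lit 270), (nat_lit 0), (nat_lit 200), (nat_lit 132), (nat_lit 176)⟩, (nat_lit 3), (nat_lit 3), (nat_lit 3), false, false, false⟩,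
  ⟨⟨(nat_lit 380), (nat_lit 400), (nat_lit 300), (nat_lit 320), (nat_lit 120), (nat_lit 180), (nat_lit 190), (nat_lit 380), (nat_lit 40), (nat_lit 270), (nat_lit 0), (nat_lit 200), (nat_lit 132), (nat_lit 176)⟩, (nat_lit 3), (nat_lit 3), (nat_lit 3), false, false, false⟩,
  ⟨⟨(nat_lit 380), (nat_lit 390), (nat_lit 280), (nat_lit 320), (nat_lit 120), (nat_lit 180), (nat_lit 190), (nat_lit 380), (nat_lit 40), (nat_lit 270), (nat_lit 200), (nat_lit 380), (nat_lit 132), (nat_lit 176)⟩, (nat_lit 3), (nat_lit 3), (nat_lit 3), false, false, false⟩,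
  ⟨⟨(nat_lit 390), (nat_lit 400), (nat_lit 280), (nat_lit 320), (nat_lit 120), (nat_lit 180), (nat_lit 190), (nat_lit 380), (nat_lit 40), (nat_lit 270), (nat_lit 200), (nat_lit 380), (nat_lit 132), (nat_lit 176)⟩, (nat_lit 3), (nat_lit 3), (nat_lit 3), false, false, false⟩,
  ⟨⟨(nat_lit 380), (nat_lit 400), (nat_lit 240), (nat_lit 320), (nat_lit 180), (nat_lit 220), (nat_lit 150), (nat_lit 380), (nat_lit 40), (nat_lit 310), (nat_lit 0), (nat_lit 400), (nat_lit 132), (nat_lit 176)⟩, (nat_lit 3), (nat_lit 3), (nat_lit 3), false, false, false⟩,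
  ⟨⟨(nat_lit 380), (nat_lit 400), (nat_lit 240), (nat_lit 320), (nat_lit 220), (nat_lit 320), (nat_lit 150), (nat_lit 380), (nat_lit 130), (nat_lit 380), (nat_lit 0), (nat_lit 400), (nat_lit 0), (nat_lit 68)⟩, (nat_lit 3), (nat_lit 3), (nat_lit 0), false, false, false⟩,
  ⟨⟨(nat_lit 380), (nat_lit 400), (nat_lit 240), (nat_lit 320), (nat_lit 220), (nat_lit 280), (nat_lit 150), (nat_lit 380), (nat_lit 130), (nat_lit 360), (nat_lit 0), (nat_lit 400), (nat_lit 0), (nat_lit 68)⟩, (nat_lit 3), (nat_lit 0), (nat_lit 1), false, false, false⟩,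
  ⟨⟨(nat_lit 380), (nat_lit 400), (nat_lit 240), (nat_lit 280), (nat_lit 220), (nat_lit 280), (nat_lit 150), (nat_lit 280), (nat_lit 130), (nat_lit 240), (nat_lit 0), (nat_lit 400), (nat_lit 0), (nat_lit 68)⟩, (nat_lit 3), (nat_lit 1), (nat_lit 1), false, false, false⟩,
  ⟨⟨(nat_lit 380), (nat_lit 400), (nat_lit 280), (nat_lit 320), (nat_lit 220), (nat_lit 280), (nat_lit 150), (nat_lit 280), (nat_lit 130), (nat_lit 240), (nat_lit 0), (nat_lit 400), (nat_lit 0), (nat_lit 68)⟩, (nat_lit 3), (nat_lit 1), (nat_lit 1), false, false, false⟩,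
  ⟨⟨(nat_lit 380), (nat_lit 400), (nat_lit 240), (nat_lit 280), (nat_lit 220), (nat_lit 260), (nat_lit 150), (nat_lit 280), (nat_lit 240), (nat_lit 340), (nat_lit 0), (nat_lit 400), (nat_lit 0), (nat_lit 36)⟩, (nat_lit 3), (nat_lit 1), (nat_lit 1), false, false, false⟩,
  ⟨⟨(nat_lit 380), (nat_lit 400), (nat_lit 240), (nat_lit 280), (nat_lit 220), (nat_lit 260), (nat_lit 150), (nat_lit 280), (nat_lit 240), (nat_lit 340), (nat_lit 0), (nat_lit 400), (nat_lit 36), (nat_lit 68)⟩, (nat_lit 3), (nat_lit 1), (nat_lit 1), false, false, false⟩,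
  ⟨⟨(nat_lit 380), (nat_lit 400), (nat_lit 240), (nat_lit 280), (nat_lit 260), (nat_lit 280), (nat_lit 150), (nat_lit 280), (nat_lit 240), (nat_lit 360), (nat_lit 0), (nat_lit 400), (nat_lit 0), (nat_lit 68)⟩, (nat_lit 3), (nat_lit 1), (nat_lit 1), false, false, false⟩,
  ⟨⟨(nat_lit 380), (nat_lit 400), (nat_lit 280), (nat_lit 320), (nat_lit 220), (nat_lit 280), (nat_lit 150), (nat_lit 280), (nat_lit 240), (nat_lit 360), (nat_lit 0), (nat_lit 400), (nat_lit 0), (nat_lit 68)⟩, (nat_lit 3), (nat_lit 1), (nat_lit 1), false, false, false⟩,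
  ⟨⟨(nat_lit 380), (nat_lit 400), (nat_lit 240), (nat_lit 320), (nat_lit 220), (nat_lit 280), (nat_lit 280), (nat_lit 380), (nat_lit 130), (nat_lit 240), (nat_lit 0), (nat_lit 400), (nat_lit 0), (nat_lit 68)⟩, (nat_lit 3), (nat_lit 1), (nat_lit 1), false, false, false⟩,
  ⟨⟨(nat_lit 380), (nat_lit 400), (nat_lit 240), (nat_lit 320), (nat_lit 220), (nat_lit 280), (nat_lit 280), (nat_lit 380), (nat_lit 240), (nat_lit 360), (nat_lit 0), (nat_lit 400), (nat_lit 0), (nat_lit 68)⟩, (nat_lit 3), (nat_lit 1), (nat_lit 1), false, false, false⟩,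
  ⟨⟨(nat_lit 380), (nat_lit 400), (nat_lit 240), (nat_lit 320), (nat_lit 280), (nat_lit 320), (nat_lit 150), (nat_lit 380), (nat_lit 130), (nat_lit 380), (nat_lit 0), (nat_lit 400), (nat_lit 0), (nat_lit 68)⟩, (nat_lit 3), (nat_lit 3), (nat_lit 1), false, false, false⟩,
  ⟨⟨(nat_lit 380), (nat_lit 400), (nat_lit 240), (nat_lit 280), (nat_lit 220), (nat_lit 280), (nat_lit 150), (nat_lit 360), (nat_lit 130), (nat_lit 360), (nat_lit 0), (nat_lit 120), (nat_lit 68), (nat_lit 108)⟩, (nat_lit 3), (nat_lit 3), (nat_lit 3), false, false, true⟩,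
  ⟨⟨(nat_lit 380), (nat_lit 400), (nat_lit 240), (nat_lit 280), (nat_lit 220), (nat_lit 280), (nat_lit 150), (nat_lit 360), (nat_lit 130), (nat_lit 360), (nat_lit 120), (nat_lit 400), (nat_lit 68), (nat_lit 108)⟩, (nat_lit 3), (nat_lit 3), (nat_lit 3), false, false, false⟩,
  ⟨⟨(nat_lit 380), (nat_lit 400), (nat_lit 280), (nat_lit 320), (nat_lit 220), (nat_lit 320), (nat_lit 150), (nat_lit 380), (nat_lit 130), (nat_lit 380), (nat_lit 0), (nat_lit 400), (nat_lit 68), (nat_lit 132)⟩, (nat_lit 3), (nat_lit 3), (nat_lit 3), false, false, false⟩]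
theorem t027 (h : EC env Ei) : ∀ τ ∈ l027, Dead τ :=
  List.forall_mem_cons.mpr ⟨chkT_sound0 h (T := c14_109) (by decide +kernel),
  List.forall_mem_cons.mpr ⟨chkT_sound0 h (T := c14_110) (by decide +kernel),
  List.forall_mem_cons.mpr ⟨chkT_sound0 h (T := c14_111) (by decide +kernel),
  List.forall_mem_cons.mpr ⟨chkT_sound0 h (T := c14_112) (by decide +kernel),
  List.forall_mem_cons.mpr ⟨chkT_sound0 h (T := c14_113) (by decide +kernel),
  List.forall_mem_cons.mpr ⟨chkT_sound0 h (T := c14_114) (by decide +kernel),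
  List.forall_mem_cons.mpr ⟨chkT_sound0 h (T := c14_115) (by decide +kernel),
  List.forall_mem_cons.mpr ⟨chkT_sound0 h (T := c14_116) (by decide +kernel),
  List.forall_mem_cons.mpr ⟨chkT_sound0 h (T := c14_117) (by decide +kernel),
  List.forall_mem_cons.mpr ⟨chkT_sound0 h (T := c14_118) (by decide +kernel),
  List.forall_mem_cons.mpr ⟨chkT_sound0 h (T := c14_119) (by decide +kernel),
  List.forall_mem_cons.mpr ⟨chkT_sound0 h (T := c14_120) (by decide +kernel),
  List.forall_mem_cons.mpr ⟨chkT_sound0 h (T := c14_121) (by decide +kernel),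
  List.forall_mem_cons.mpr ⟨chkT_sound0 h (T := c14_122) (by decide +kernel),
  List.forall_mem_cons.mpr ⟨chkT_sound0 h (T := c14_123) (by decide +kernel),
  List.forall_mem_cons.mpr ⟨chkT_sound0 h (T := c14_124) (by decide +kernel),
  List.forall_mem_cons.mpr ⟨chkT_sound0 h (T := c14_125) (by decide +kernel),
  List.forall_mem_cons.mpr ⟨chkT_sound0 h (T := c14_126) (by decide +kernel),
  List.forall_mem_cons.mpr ⟨chkT_sound0 h (T := c14_127) (by decide +kernel),
  List.forall_mem_cons.mpr ⟨chkT_sound0 h (T := c14_128) (by decide +kernel),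
  List.forall_mem_cons.mpr ⟨chkT_sound0 h (T := c14_129) (by decide +kernel),
  List.forall_mem_cons.mpr ⟨chkT_sound0 h (T := c14_130) (by decide +kernel),
  List.forall_mem_cons.mpr ⟨chkT_sound0 h (T := c14_131) (by decide +kernel),
  List.forall_mem_cons.mpr ⟨chkT_sound0 h (T := c14_132) (by decide +kernel),
  List.forall_mem_cons.mpr ⟨chkT_sound0 h (T := c14_133) (by decide +kernel),
  List.forall_mem_cons.mpr ⟨chkT_sound0 h (T := c14_134) (by decide +kernel),
  List.forall_mem_cons.mpr ⟨chkT_sound0 h (T := c14_135) (by decide +kernel),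
  List.forall_mem_cons.mpr ⟨chkT_sound0 h (T := c14_136) (by decide +kernel),
  List.forall_mem_cons.mpr ⟨chkT_sound0 h (T := c14_137) (by decide +kernel),
  List.forall_mem_cons.mpr ⟨chkT_sound0 h (T := c14_138) (by decide +kernel),
  List.forall_mem_cons.mpr ⟨chkT_sound0 h (T := c14_139) (by decide +kernel),
  List.forall_mem_cons.mpr ⟨chkT_sound0 h (T := c14_140) (by decide +kernel),
  List.forall_mem_nil _⟩⟩⟩⟩⟩⟩⟩⟩⟩⟩⟩⟩⟩⟩⟩⟩⟩⟩⟩⟩⟩⟩⟩⟩⟩⟩⟩⟩⟩⟩⟩⟩
end TC
end Pool.Agent.Lib.MP_6947cd_al
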