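import Pool.Agent.Lib.MP_6947cd_al.C.LeafF
import Pool.Agent.Lib.MP_6947cd_al.TC.E
import Pool.Agent.Lib.MP_6947cd_al.TC.F

/-!
Problem MP_6947cd_al (Chollet).  CASE C, tables and certificates.  Trees of leaves (part 28 of root 15).
-/

set_option autoImplicit false
set_option linter.all false
set_option maxRecDepth 100000
set_option maxHeartbeats 4000000
namespace Pool.Agent.Lib.MP_6947cd_al
namespace TC
open C1
noncomputable def c15_0 : Tr Lf :=
 (.spl (nat_lit 5) (nat_lit 120) (.spl (nat_lit 3) (nat_lit 320) (.spl (nat_lit 0) (nat_lit 390) (.ord (.leaf ⟨(nat_lit 22), (nat_lit 939), (nat_lit 0), (nat_lit 39), (nat_lit 0), (nat_lit 3786), (nat_lit 6996), (nat_lit 530), (nat_lit 32321), (nat_lit 0), (nat_lit 88000), [((nat_lit 390), [((nat_lit 43), (nat_lit 5), (nat_lit 22))])], ⟨(nat_lit 8), false, true, false, (nat_lit 313), (nat_lit 1581), (nat_lit 2237), [(nat_lit 1679198), (nat_lit 1680658), (nat_lit 1758749), (nat_lit 1762101), (nat_lit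 1807675), (nat_lit 1803781), (nat_lit 1887226), (nat_lit 1885224)]⟩, ⟨(nat_lit 3), true, false, false, (nat_lit 151), (nat_lit 1581), (nat_lit 2237), [(nat_lit 1180680), (nat_lit 1188036), (nat_lit 1339782), (nat_lit 1350923), (nat_lit 1408901), (nat_lit 1406738), (nat_lit 1568186), (nat_lit 1569808)]⟩, (nat_lit 5010544), (nat_lit 36670877), (nat_lit 23177603), (nat_lit 7151520), (nat_lit 3), (nat_lit 0), [⟨(nat_lit 0), (nat_lit 82), (nat_lit 44), (nat_lit 100), (nat_lit 318815301)⟩], [], [⟨(nat_lit 0), (nat_lit 100), (nat_lit 63), (nat_lit 74), (nat_lit 23112869)⟩, ⟨(nat_lit 0), (nat_lit 100), (nat_lit 87), (nat_lit 25), (nat_lit 12662435)⟩], [],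
 ⟨⟨[(nat_lit 40), (nat_lit 60), (nat_lit 80)], [(nat_lit 0), (nat_lit 1539), (nat_lit 2453)], [((nat_lit 0), (nat_lit 0), (nat_lit 0)), ((nat_lit 1000), (nat_lit 478), (nat_lit 704)), ((nat_lit 1000), (nat_lit 474), (nat_lit 714))], ((nat_lit 46), (nat_lit 100), (nat_lit 75))⟩, (nat_lit 1911155), (nat_lit 121), (nat_lit 121), (nat_lit 0), (nat_lit 0), [(nat_lit 1823484011), (nat_lit 3253956119), (nat_lit 3969858400)], [(nat_lit 0), (nat_lit 0), (nat_lit 0)], [(nat_lit 24799044581), (nat_lit 25688792839), (nat_lit 28940648372), (nat_lit 29657171060), (nat_lit 24701702333), (nat_lit 25312590117), (nat_lit 28084918917), (nat_lit 28681330019)], (nat_lit 0), (nat_lit 0), (nat_lit 0), (nat_lit 0), (nat_lit 0), (nat_lit 0), [], [(nat_lit 2), (nat_lit 44), (nat_lit 260), (nat_lit 50), (nat_lit 10)]⟩,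
 ⟨⟨[(nat_lit 40), (nat_lit 80), (nat_lit 120)], [(nat_lit 0), (nat_lit 0), (nat_lit 2151)], [((nat_lit 0), (nat_lit 0), (nat_lit 0)), ((nat_lit 0), (nat_lit 0), (nat_lit 0)), ((nat_lit 1000), (nat_lit 815), (nat_lit 753))], ((nat_lit 81), (nat_lit 100), (nat_lit 72))⟩, (nat_lit 1933336), (nat_lit 653), (nat_lit 653), (nat_lit 0), (nat_lit 1184466), [(nat_lit 1987296000), (nat_lit 4584864000), (nat_lit 7792704000)], [], [(nat_lit 30256127682), (nat_lit 34359386480), (nat_lit 32108006136), (nat_lit 39344774751), (nat_lit 27588453383), (nat_lit 29884216993), (nat_lit 29160932796), (nat_lit 32128854633)], (nat_lit 1271251), (nat_lit 1271251), (nat_lit 1271251), (nat_lit 1271251), (nat_lit 0), (nat_lit 780000), [(nat_lit 490000), (nat_lit 1100000), (nat_lit 1785001)], [(nat_lit 4), (nat_lit 51), (nat_lit 345), (nat_lit 125), (nat_lit 11)]⟩,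
 ⟨⟨[(nat_lit 140), (nat_lit 180), (nat_lit 200)], [(nat_lit 0), (nat_lit 0), (nat_lit 2835)], [((nat_lit 0), (nat_lit 0), (nat_lit 0)), ((nat_lit 0), (nat_lit 0), (nat_lit 0)), ((nat_lit 363), (nat_lit 1000), (nat_lit 798))], ((nat_lit 0), (nat_lit 0), (nat_lit 0))⟩, (nat_lit 150377), (nat_lit 300), (nat_lit 569), (nat_lit 3045900), (nat_lit 0), [(nat_lit 383838000), (nat_lit 548262000), (nat_lit 639600000)], [], [(nat_lit 3001761074), (nat_lit 2877611266), (nat_lit 2550346096), (nat_lit 2420825014), (nat_lit 2517419083), (nat_lit 2364010452), (nat_lit 2109765747), (nat_lit 1951844829)], (nat_lit 0), (nat_lit 0), (nat_lit 0), (nat_lit 0), (nat_lit 0), (nat_lit 0), [], [(nat_lit 32), (nat_lit 67), (nat_lit 373), (nat_lit 150), (nat_lit 9)]⟩⟩)) (.trZ (nat_lit 0) (nat_lit 1) (nat_lit 3) (nat_lit 84) (nat_lit 33) (nat_lit 100) (nat_lit 260) (.trZ (nat_lit 0) (nat_lit 2) (nat_lit 4) (nat_lit 100) (nat_lit 34) (nat_lit 81) (nat_lit 60) (.leaf ⟨(nat_lit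 519), (nat_lit 410), (nat_lit 0), (nat_lit 71), (nat_lit 0), (nat_lit 3307), (nat_lit 3269), (nat_lit 973), (nat_lit 7999), (nat_lit 0), (nat_lit 257600), [((nat_lit 400), [((nat_lit 28), (nat_lit 1), (nat_lit 269)), ((nat_lit 43), (nat_lit 2), (nat_lit 250))])], ⟨(nat_lit 8), false, true, false, (nat_lit 323), (nat_lit 0), (nat_lit 1582), [(nat_lit 1719869), (nat_lit 1723025), (nat_lit 1810502), (nat_lit 1820398), (nat_lit 1803773), (nat_lit 1799976), (nat_lit 1894421), (nat_lit 1897364)]⟩, ⟨(nat_lit 3), true, false, false, (nat_lit 157), (nat_lit 0), (nat_lit 1582), [(nat_lit 1213552), (nat_lit 1223038), (nat_lit 1372160), (nat_lit 1393440), (nat_lit 1406735), (nat_lit 1399996), (nat_lit 1567974), (nat_lit 1573029)]⟩, (nat_lit 5084605), (nat_lit 35590117), (nat_lit 23914863), (nat_lit 7495020), (nat_lit 3), (nat_lit 0), [⟨(nat_lit 0), (nat_lit 79), (nat_lit 29), (nat_lit 100), (nat_lit 172486412)⟩], [], [⟨(nat_lit 0), (nat_lit 100), (nat_lit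 60), (nat_lit 77), (nat_lit 2203516)⟩, ⟨(nat_lit 0), (nat_lit 100), (nat_lit 87), (nat_lit 25), (nat_lit 49122948)⟩], [⟨(nat_lit 0), (nat_lit 100), (nat_lit 80), (nat_lit 60), (nat_lit 34847028)⟩],
 ⟨⟨[(nat_lit 40), (nat_lit 60)], [(nat_lit 0), (nat_lit 2136)], [((nat_lit 0), (nat_lit 0), (nat_lit 0)), ((nat_lit 1000), (nat_lit 343), (nat_lit 808))], ((nat_lit 35), (nat_lit 100), (nat_lit 80))⟩, (nat_lit 432), (nat_lit 97), (nat_lit 97), (nat_lit 0), (nat_lit 0), [(nat_lit 1588146802), (nat_lit 1507713200)], [(nat_lit 0), (nat_lit 0)], [(nat_lit 25368319292), (nat_lit 26135788022), (nat_lit 28004840257), (nat_lit 28668979113), (nat_lit 26225441693), (nat_lit 26765460788), (nat_lit 28228918329), (nat_lit 28709685440)], (nat_lit 0), (nat_lit 0), (nat_lit 0), (nat_lit 0), (nat_lit 0), (nat_lit 0), [], [(nat_lit 1), (nat_lit 38), (nat_lit 260), (nat_lit 50), (nat_lit 13)]⟩,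
 ⟨⟨[(nat_lit 40), (nat_lit 80), (nat_lit 120)], [(nat_lit 0), (nat_lit 0), (nat_lit 2151)], [((nat_lit 0), (nat_lit 0), (nat_lit 0)), ((nat_lit 0), (nat_lit 0), (nat_lit 0)), ((nat_lit 1000), (nat_lit 815), (nat_lit 753))], ((nat_lit 81), (nat_lit 100), (nat_lit 72))⟩, (nat_lit 858715), (nat_lit 689), (nat_lit 689), (nat_lit 0), (nat_lit 1289532), [(nat_lit 977392000), (nat_lit 2254928000), (nat_lit 3832608000)], [], [(nat_lit 16031692916), (nat_lit 17770860419), (nat_lit 16671582116), (nat_lit 19378535264), (nat_lit 14784225242), (nat_lit 15974815965), (nat_lit 15333014340), (nat_lit 16370513338)], (nat_lit 1271251), (nat_lit 1271251), (nat_lit 1271251), (nat_lit 1271251), (nat_lit 0), (nat_lit 780000), [(nat_lit 490000), (nat_lit 1100000), (nat_lit 1785001)], [(nat_lit 4), (nat_lit 51), (nat_lit 278), (nat_lit 30), (nat_lit 8)]⟩,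
 ⟨⟨[(nat_lit 140), (nat_lit 180), (nat_lit 200)], [(nat_lit 0), (nat_lit 0), (nat_lit 2835)], [((nat_lit 0), (nat_lit 0), (nat_lit 0)), ((nat_lit 0), (nat_lit 0), (nat_lit 0)), ((nat_lit 363), (nat_lit 1000), (nat_lit 798))], ((nat_lit 0), (nat_lit 0), (nat_lit 0))⟩, (nat_lit 20015), (nat_lit 300), (nat_lit 545), (nat_lit 5545100), (nat_lit 0), [(nat_lit 698782000), (nat_lit 998118000), (nat_lit 1164400000)], [], [(nat_lit 5267423300), (nat_lit 5046027031), (nat_lit 4645923842), (nat_lit 4406749938), (nat_lit 4398033076), (nat_lit 4124697099), (nat_lit 3816949853), (nat_lit 3544820540)], (nat_lit 0), (nat_lit 0), (nat_lit 0), (nat_lit 0), (nat_lit 0), (nat_lit 0), [], [(nat_lit 32), (nat_lit 67), (nat_lit 373), (nat_lit 150), (nat_lit 9)]⟩⟩)))) (.leaf ⟨(nat_lit 80), (nat_lit 851), (nat_lit 0), (nat_lit 69), (nat_lit 0), (nat_lit 3567), (nat_lit 5855), (nat_lit 938), (nat_lit 4101), (nat_lit 0), (nat_lit 80000), [((nat_lit 400), [((nat_lit 28),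 (nat_lit 2), (nat_lit 80))])], ⟨(nat_lit 8), false, true, false, (nat_lit 362), (nat_lit 0), (nat_lit 2237), [(nat_lit 1807594), (nat_lit 1799902), (nat_lit 1895050), (nat_lit 1896261), (nat_lit 1921719), (nat_lit 1899996), (nat_lit 2012658), (nat_lit 1999837)]⟩, ⟨(nat_lit 3), true, false, false, (nat_lit 151), (nat_lit 0), (nat_lit 2237), [(nat_lit 1177178), (nat_lit 1196337), (nat_lit 1330111), (nat_lit 1364851), (nat_lit 1408898), (nat_lit 1399996), (nat_lit 1565543), (nat_lit 1572220)]⟩, (nat_lit 5039772), (nat_lit 33050148), (nat_lit 27327868), (nat_lit 6621984), (nat_lit 3), (nat_lit 0), [], [⟨(nat_lit 1), (nat_lit 97), (nat_lit 31), (nat_lit 100), (nat_lit 1363432)⟩], [], [⟨(nat_lit 0), (nat_lit 100), (nat_lit 65), (nat_lit 54), (nat_lit 83934874)⟩],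
 ⟨⟨[(nat_lit 40), (nat_lit 60), (nat_lit 80)], [(nat_lit 0), (nat_lit 1539), (nat_lit 2453)], [((nat_lit 0), (nat_lit 0), (nat_lit 0)), ((nat_lit 1000), (nat_lit 478), (nat_lit 704)), ((nat_lit 1000), (nat_lit 474), (nat_lit 714))], ((nat_lit 46), (nat_lit 100), (nat_lit 75))⟩, (nat_lit 1328206), (nat_lit 150), (nat_lit 150), (nat_lit 0), (nat_lit 0), [(nat_lit 1798816002), (nat_lit 3076388071), (nat_lit 3952672000)], [(nat_lit 0), (nat_lit 0), (nat_lit 0)], [(nat_lit 28485445484), (nat_lit 29877304406), (nat_lit 33167277172), (nat_lit 34263934760), (nat_lit 28027406614), (nat_lit 29018024640), (nat_lit 31815626351), (nat_lit 32748160254)], (nat_lit 0), (nat_lit 0), (nat_lit 0), (nat_lit 0), (nat_lit 0), (nat_lit 0), [], [(nat_lit 2), (nat_lit 44), (nat_lit 260), (nat_lit 50), (nat_lit 10)]⟩,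
 ⟨⟨[(nat_lit 40), (nat_lit 80), (nat_lit 120)], [(nat_lit 0), (nat_lit 0), (nat_lit 2151)], [((nat_lit 0), (nat_lit 0), (nat_lit 0)), ((nat_lit 0), (nat_lit 0), (nat_lit 0)), ((nat_lit 1000), (nat_lit 815), (nat_lit 753))], ((nat_lit 81), (nat_lit 100), (nat_lit 72))⟩, (nat_lit 1609934), (nat_lit 678), (nat_lit 678), (nat_lit 0), (nat_lit 1291566), [(nat_lit 1869440000), (nat_lit 4312960000), (nat_lit 7330560000)], [], [(nat_lit 33924646920), (nat_lit 36135398160), (nat_lit 36135398160), (nat_lit 41388666320), (nat_lit 31621304270), (nat_lit 33570001310), (nat_lit 33570001310), (nat_lit 35135265020)], (nat_lit 1271251), (nat_lit 1271251), (nat_lit 1271251), (nat_lit 1271251), (nat_lit 0), (nat_lit 780000), [(nat_lit 490000), (nat_lit 1100000), (nat_lit 1785001)], [(nat_lit 4), (nat_lit 51), (nat_lit 285), (nat_lit 30), (nat_lit 8)]⟩,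
 ⟨⟨[(nat_lit 140), (nat_lit 180), (nat_lit 200)], [(nat_lit 0), (nat_lit 0), (nat_lit 2835)], [((nat_lit 0), (nat_lit 0), (nat_lit 0)), ((nat_lit 0), (nat_lit 0), (nat_lit 0)), ((nat_lit 363), (nat_lit 1000), (nat_lit 798))], ((nat_lit 0), (nat_lit 0), (nat_lit 0))⟩, (nat_lit 146455), (nat_lit 300), (nat_lit 569), (nat_lit 5388900), (nat_lit 0), [(nat_lit 679098000), (nat_lit 970002000), (nat_lit 1131600000)], [], [(nat_lit 5311253966), (nat_lit 5091466963), (nat_lit 4512051110), (nat_lit 4282983223), (nat_lit 4453583077), (nat_lit 4182453290), (nat_lit 3732060457), (nat_lit 3452940723)], (nat_lit 0), (nat_lit 0), (nat_lit 0), (nat_lit 0), (nat_lit 0), (nat_lit 0), [], [(nat_lit 32), (nat_lit 67), (nat_lit 373), (nat_lit 150), (nat_lit 9)]⟩⟩)) (.spl (nat_lit 4) (nat_lit 120) (.trX (nat_lit 5) (nat_lit 3) (nat_lit 4) (nat_lit 100) (nat_lit 54) (nat_lit 93) (nat_lit 370) (.spl (nat_lit 1) (nat_lit 360) (.spl (nat_lit 3) (nat_lit 320) (.leaf ⟨(nat_lit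 700), (nat_lit 201), (nat_lit 0), (nat_lit 99), (nat_lit 0), (nat_lit 2972), (nat_lit 1955), (nat_lit 1542), (nat_lit 0), (nat_lit 0), (nat_lit 361400), [((nat_lit 400), [((nat_lit 28), (nat_lit 1), (nat_lit 293)), ((nat_lit 43), (nat_lit 2), (nat_lit 407))])], ⟨(nat_lit 8), false, true, false, (nat_lit 306), (nat_lit 0), (nat_lit 2237), [(nat_lit 1675230), (nat_lit 1683322), (nat_lit 1718925), (nat_lit 1731469), (nat_lit 1807594), (nat_lit 1799902), (nat_lit 1851355), (nat_lit 1848114)]⟩, ⟨(nat_lit 3), true, false, false, (nat_lit 129), (nat_lit 0), (nat_lit 2237), [(nat_lit 1177178), (nat_lit 1196337), (nat_lit 1330111), (nat_lit 1364851), (nat_lit 1294870), (nat_lit 1299999), (nat_lit 1447828), (nat_lit 1468536)]⟩, (nat_lit 4790048), (nat_lit 38228427), (nat_lit 22975226), (nat_lit 5796347), (nat_lit 3), (nat_lit 0), [], [⟨(nat_lit 0), (nat_lit 100), (nat_lit 31), (nat_lit 93), (nat_lit 48394266)⟩, ⟨(nat_lit 0), (nat_lit 100), (nat_lit 48),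 (nat_lit 71), (nat_lit 263508156)⟩], [], [],
 ⟨⟨[(nat_lit 40), (nat_lit 60), (nat_lit 80)], [(nat_lit 0), (nat_lit 1539), (nat_lit 2453)], [((nat_lit 0), (nat_lit 0), (nat_lit 0)), ((nat_lit 1000), (nat_lit 478), (nat_lit 704)), ((nat_lit 1000), (nat_lit 474), (nat_lit 714))], ((nat_lit 46), (nat_lit 100), (nat_lit 75))⟩, (nat_lit 0), (nat_lit 125), (nat_lit 125), (nat_lit 0), (nat_lit 0), [(nat_lit 1514737605), (nat_lit 1026889346), (nat_lit 905892800)], [(nat_lit 0), (nat_lit 0), (nat_lit 0)], [(nat_lit 23961674574), (nat_lit 25161951912), (nat_lit 27248707044), (nat_lit 28528666696), (nat_lit 23901802489), (nat_lit 25012268877), (nat_lit 26977523041), (nat_lit 28000302799)], (nat_lit 0), (nat_lit 0), (nat_lit 0), (nat_lit 0), (nat_lit 0), (nat_lit 0), [], [(nat_lit 2), (nat_lit 44), (nat_lit 238), (nat_lit 30), (nat_lit 9)]⟩,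
 ⟨⟨[(nat_lit 40), (nat_lit 80), (nat_lit 120)], [(nat_lit 0), (nat_lit 0), (nat_lit 2151)], [((nat_lit 0), (nat_lit 0), (nat_lit 0)), ((nat_lit 0), (nat_lit 0), (nat_lit 0)), ((nat_lit 1000), (nat_lit 815), (nat_lit 753))], ((nat_lit 81), (nat_lit 100), (nat_lit 72))⟩, (nat_lit 481846), (nat_lit 727), (nat_lit 727), (nat_lit 0), (nat_lit 1511996), [(nat_lit 609600000), (nat_lit 1406400000), (nat_lit 2390400000)], [], [(nat_lit 9674219863), (nat_lit 10011256517), (nat_lit 10069424414), (nat_lit 10366972050), (nat_lit 10322437745), (nat_lit 10553466111), (nat_lit 10529332415), (nat_lit 10715298489)], (nat_lit 1271251), (nat_lit 1271251), (nat_lit 1271251), (nat_lit 1271251), (nat_lit 780000), (nat_lit 2826876), [(nat_lit 490000), (nat_lit 1100000), (nat_lit 1785001)], [(nat_lit 4), (nat_lit 51), (nat_lit 401), (nat_lit 175), (nat_lit 12)]⟩,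
 ⟨⟨[(nat_lit 140), (nat_lit 180), (nat_lit 200)], [(nat_lit 0), (nat_lit 0), (nat_lit 2835)], [((nat_lit 0), (nat_lit 0), (nat_lit 0)), ((nat_lit 0), (nat_lit 0), (nat_lit 0)), ((nat_lit 363), (nat_lit 1000), (nat_lit 798))], ((nat_lit 0), (nat_lit 0), (nat_lit 0))⟩, (nat_lit 27238), (nat_lit 300), (nat_lit 441), (nat_lit 7731902), (nat_lit 0), [(nat_lit 974358000), (nat_lit 1391742000), (nat_lit 1623600000)], [], [(nat_lit 6342416969), (nat_lit 5983863057), (nat_lit 5484408017), (nat_lit 5135749289), (nat_lit 6254118000), (nat_lit 5693981775), (nat_lit 5374119330), (nat_lit 4789671105)], (nat_lit 0), (nat_lit 0), (nat_lit 0), (nat_lit 0), (nat_lit 0), (nat_lit 0), [], [(nat_lit 32), (nat_lit 67), (nat_lit 428), (nat_lit 200), (nat_lit 9)]⟩⟩) (.trX (nat_lit 5) (nat_lit 3) (nat_lit 4) (nat_lit 87) (nat_lit 95) (nat_lit 100) (nat_lit 300) (.spl (nat_lit 0) (nat_lit 390) (.leaf ⟨(nat_lit 512), (nat_lit 394), (nat_lit 0), (nat_lit 94), (nat_lit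 0), (nat_lit 2836), (nat_lit 3226), (nat_lit 2757), (nat_lit 0), (nat_lit 0), (nat_lit 307200), [((nat_lit 390), [((nat_lit 43), (nat_lit 2), (nat_lit 512))])], ⟨(nat_lit 8), false, true, true, (nat_lit 354), (nat_lit 1581), (nat_lit 2237), [(nat_lit 1807675), (nat_lit 1803781), (nat_lit 1853133), (nat_lit 1850320), (nat_lit 1921722), (nat_lit 1913068), (nat_lit 1967270), (nat_lit 1959698)]⟩, ⟨(nat_lit 3), true, false, false, (nat_lit 128), (nat_lit 1581), (nat_lit 2237), [(nat_lit 1180680), (nat_lit 1188036), (nat_lit 1339782), (nat_lit 1350923), (nat_lit 1294870), (nat_lit 1297467), (nat_lit 1453984), (nat_lit 1460366)]⟩, (nat_lit 4835381), (nat_lit 34421277), (nat_lit 27247566), (nat_lit 5331157), (nat_lit 3), (nat_lit 0), [⟨(nat_lit 1), (nat_lit 55), (nat_lit 53), (nat_lit 100), (nat_lit 141259816)⟩], [⟨(nat_lit 0), (nat_lit 100), (nat_lit 38), (nat_lit 91), (nat_lit 330554290)⟩], [], [⟨(nat_lit 1), (nat_lit 100), (nat_lit 60), (nat_lit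 80), (nat_lit 19914759)⟩],
 ⟨⟨[(nat_lit 40), (nat_lit 60), (nat_lit 80)], [(nat_lit 0), (nat_lit 1539), (nat_lit 2453)], [((nat_lit 0), (nat_lit 0), (nat_lit 0)), ((nat_lit 1000), (nat_lit 478), (nat_lit 704)), ((nat_lit 1000), (nat_lit 474), (nat_lit 714))], ((nat_lit 46), (nat_lit 100), (nat_lit 75))⟩, (nat_lit 440737), (nat_lit 146), (nat_lit 146), (nat_lit 0), (nat_lit 0), [(nat_lit 1590128001), (nat_lit 1406906522), (nat_lit 1585280000)], [(nat_lit 0), (nat_lit 0), (nat_lit 0)], [(nat_lit 27554616239), (nat_lit 28094224025), (nat_lit 31291783883), (nat_lit 31734775895), (nat_lit 27359272041), (nat_lit 27861276118), (nat_lit 30855143369), (nat_lit 31270453898)], (nat_lit 0), (nat_lit 0), (nat_lit 0), (nat_lit 0), (nat_lit 0), (nat_lit 0), [], [(nat_lit 2), (nat_lit 44), (nat_lit 238), (nat_lit 30), (nat_lit 9)]⟩,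
 ⟨⟨[(nat_lit 40), (nat_lit 80), (nat_lit 120)], [(nat_lit 0), (nat_lit 0), (nat_lit 2151)], [((nat_lit 0), (nat_lit 0), (nat_lit 0)), ((nat_lit 0), (nat_lit 0), (nat_lit 0)), ((nat_lit 1000), (nat_lit 815), (nat_lit 753))], ((nat_lit 81), (nat_lit 100), (nat_lit 72))⟩, (nat_lit 1048826), (nat_lit 653), (nat_lit 653), (nat_lit 0), (nat_lit 1398242), [(nat_lit 991616000), (nat_lit 2287744000), (nat_lit 3888384000)], [], [(nat_lit 16078741956), (nat_lit 16601010652), (nat_lit 17123279348), (nat_lit 17540601278), (nat_lit 16302287508), (nat_lit 16670650583), (nat_lit 17050953812), (nat_lit 18010995626)], (nat_lit 1271251), (nat_lit 1271251), (nat_lit 1271251), (nat_lit 1271251), (nat_lit 780000), (nat_lit 2253751), [(nat_lit 490000), (nat_lit 1100000), (nat_lit 1785001)], [(nat_lit 4), (nat_lit 51), (nat_lit 296), (nat_lit 75), (nat_lit 8)]⟩,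
 ⟨⟨[(nat_lit 140), (nat_lit 180), (nat_lit 200)], [(nat_lit 0), (nat_lit 0), (nat_lit 2835)], [((nat_lit 0), (nat_lit 0), (nat_lit 0)), ((nat_lit 0), (nat_lit 0), (nat_lit 0)), ((nat_lit 363), (nat_lit 1000), (nat_lit 798))], ((nat_lit 0), (nat_lit 0), (nat_lit 0))⟩, (nat_lit 424060), (nat_lit 300), (nat_lit 441), (nat_lit 7341400), (nat_lit 0), [(nat_lit 925148000), (nat_lit 1321452000), (nat_lit 1541600000)], [], [(nat_lit 6441681709), (nat_lit 5569286128), (nat_lit 4806872762), (nat_lit 3958045469), (nat_lit 5523197235), (nat_lit 4746873580), (nat_lit 3903850671), (nat_lit 3137089718)], (nat_lit 0), (nat_lit 0), (nat_lit 0), (nat_lit 0), (nat_lit 0), (nat_lit 0), [], [(nat_lit 32), (nat_lit 67), (nat_lit 401), (nat_lit 175), (nat_lit 9)]⟩⟩) (.trX (nat_lit 3) (nat_lit 0) (nat_lit 1) (nat_lit 52) (nat_lit 53) (nat_lit 100) (nat_lit 390) (.trZ (nat_lit 0) (nat_lit 2) (nat_lit 4) (nat_lit 100) (nat_lit 34) (nat_lit 81) (nat_lit 60) (.leaf ⟨(nat_lit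 585), (nat_lit 331), (nat_lit 0), (nat_lit 84), (nat_lit 0), (nat_lit 2888), (nat_lit 2716), (nat_lit 4238), (nat_lit 0), (nat_lit 0), (nat_lit 351000), [((nat_lit 400), [((nat_lit 43), (nat_lit 2), (nat_lit 585))])], ⟨(nat_lit 8), false, true, true, (nat_lit 349), (nat_lit 0), (nat_lit 1582), [(nat_lit 1803773), (nat_lit 1799976), (nat_lit 1849106), (nat_lit 1848678), (nat_lit 1899406), (nat_lit 1887496), (nat_lit 1946038), (nat_lit 1937498)]⟩, ⟨(nat_lit 3), true, false, false, (nat_lit 136), (nat_lit 0), (nat_lit 1582), [(nat_lit 1213552), (nat_lit 1223038), (nat_lit 1372160), (nat_lit 1393440), (nat_lit 1297467), (nat_lit 1299999), (nat_lit 1456080), (nat_lit 1470407)]⟩, (nat_lit 4910881), (nat_lit 34533890), (nat_lit 26601794), (nat_lit 5864316), (nat_lit 3), (nat_lit 0), [⟨(nat_lit 1), (nat_lit 76), (nat_lit 31), (nat_lit 100), (nat_lit 237014049)⟩], [⟨(nat_lit 0), (nat_lit 100), (nat_lit 22), (nat_lit 96), (nat_lit 69955891)⟩, ⟨(nat_lit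 0), (nat_lit 100), (nat_lit 34), (nat_lit 81), (nat_lit 451539235)⟩], [], [],
 ⟨⟨[(nat_lit 40), (nat_lit 60)], [(nat_lit 0), (nat_lit 2136)], [((nat_lit 0), (nat_lit 0), (nat_lit 0)), ((nat_lit 1000), (nat_lit 343), (nat_lit 808))], ((nat_lit 35), (nat_lit 100), (nat_lit 80))⟩, (nat_lit 2420), (nat_lit 122), (nat_lit 122), (nat_lit 0), (nat_lit 0), [(nat_lit 1560490016), (nat_lit 991608000)], [(nat_lit 0), (nat_lit 0)], [(nat_lit 27716966605), (nat_lit 28253035912), (nat_lit 30883798279), (nat_lit 31337277883), (nat_lit 27716465218), (nat_lit 28222057984), (nat_lit 30717942272), (nat_lit 31146724708)], (nat_lit 0), (nat_lit 0), (nat_lit 0), (nat_lit 0), (nat_lit 0), (nat_lit 0), [], [(nat_lit 1), (nat_lit 38), (nat_lit 238), (nat_lit 30), (nat_lit 11)]⟩,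
 ⟨⟨[(nat_lit 40), (nat_lit 80), (nat_lit 120)], [(nat_lit 0), (nat_lit 0), (nat_lit 2151)], [((nat_lit 0), (nat_lit 0), (nat_lit 0)), ((nat_lit 0), (nat_lit 0), (nat_lit 0)), ((nat_lit 1000), (nat_lit 815), (nat_lit 753))], ((nat_lit 81), (nat_lit 100), (nat_lit 72))⟩, (nat_lit 653555), (nat_lit 706), (nat_lit 706), (nat_lit 0), (nat_lit 1511163), [(nat_lit 843280000), (nat_lit 1945520000), (nat_lit 3306720000)], [], [(nat_lit 13888626877), (nat_lit 14274660755), (nat_lit 14606852451), (nat_lit 14972314428), (nat_lit 14031909288), (nat_lit 14344968483), (nat_lit 14579762880), (nat_lit 15047669543)], (nat_lit 1271251), (nat_lit 1271251), (nat_lit 1271251), (nat_lit 1271251), (nat_lit 780000), (nat_lit 2253751), [(nat_lit 490000), (nat_lit 1100000), (nat_lit 1785001)], [(nat_lit 4), (nat_lit 51), (nat_lit 308), (nat_lit 75), (nat_lit 9)]⟩,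
 ⟨⟨[(nat_lit 140), (nat_lit 180), (nat_lit 200)], [(nat_lit 0), (nat_lit 0), (nat_lit 2835)], [((nat_lit 0), (nat_lit 0), (nat_lit 0)), ((nat_lit 0), (nat_lit 0), (nat_lit 0)), ((nat_lit 363), (nat_lit 1000), (nat_lit 798))], ((nat_lit 0), (nat_lit 0), (nat_lit 0))⟩, (nat_lit 631229), (nat_lit 300), (nat_lit 415), (nat_lit 6560400), (nat_lit 0), [(nat_lit 826728000), (nat_lit 1180872000), (nat_lit 1377600000)], [], [(nat_lit 5470111827), (nat_lit 4312978530), (nat_lit 3745811644), (nat_lit 2643803310), (nat_lit 4501031993), (nat_lit 4263813922), (nat_lit 2799285027), (nat_lit 2682880714)], (nat_lit 0), (nat_lit 0), (nat_lit 0), (nat_lit 0), (nat_lit 0), (nat_lit 0), [], [(nat_lit 32), (nat_lit 67), (nat_lit 401), (nat_lit 175), (nat_lit 9)]⟩⟩)))))) (.trZ (nat_lit 0) (nat_lit 1) (nat_lit 3) (nat_lit 68) (nat_lit 49) (nat_lit 100) (nat_lit 290) (.trX (nat_lit 5) (nat_lit 3) (nat_lit 4) (nat_lit 97) (nat_lit 84) (nat_lit 100) (nat_lit 330) (.leaf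 ⟨(nat_lit 22), (nat_lit 667), (nat_lit 0), (nat_lit 311), (nat_lit 0), (nat_lit 3263), (nat_lit 4712), (nat_lit 6454), (nat_lit 1649218), (nat_lit 0), (nat_lit 88000), [((nat_lit 400), [((nat_lit 43), (nat_lit 5), (nat_lit 22))])], ⟨(nat_lit 9), false, true, false, (nat_lit 363), (nat_lit 0), (nat_lit 2237), [(nat_lit 1807212), (nat_lit 1809233), (nat_lit 1850907), (nat_lit 1857380), (nat_lit 1967269), (nat_lit 1949998), (nat_lit 2012658), (nat_lit 1999837)]⟩, ⟨(nat_lit 3), true, false, false, (nat_lit 129), (nat_lit 0), (nat_lit 2237), [(nat_lit 1177178), (nat_lit 1196337), (nat_lit 1330111), (nat_lit 1364851), (nat_lit 1294870), (nat_lit 1299999), (nat_lit 1447828), (nat_lit 1468536)]⟩, (nat_lit 4840840), (nat_lit 33722945), (nat_lit 27985331), (nat_lit 5291724), (nat_lit 3), (nat_lit 0), [⟨(nat_lit 0), (nat_lit 63), (nat_lit 45), (nat_lit 100), (nat_lit 13707119)⟩], [⟨(nat_lit 0), (nat_lit 100), (nat_lit 31), (nat_lit 93), (nat_lit 569359146)⟩,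 ⟨(nat_lit 0), (nat_lit 100), (nat_lit 48), (nat_lit 71), (nat_lit 354938453)⟩], [], [],
 ⟨⟨[(nat_lit 40), (nat_lit 60), (nat_lit 80)], [(nat_lit 0), (nat_lit 1539), (nat_lit 2453)], [((nat_lit 0), (nat_lit 0), (nat_lit 0)), ((nat_lit 1000), (nat_lit 478), (nat_lit 704)), ((nat_lit 1000), (nat_lit 474), (nat_lit 714))], ((nat_lit 46), (nat_lit 100), (nat_lit 75))⟩, (nat_lit 1085496), (nat_lit 150), (nat_lit 150), (nat_lit 0), (nat_lit 0), [(nat_lit 1823484100), (nat_lit 2966872158), (nat_lit 3969858400)], [(nat_lit 0), (nat_lit 0), (nat_lit 0)], [(nat_lit 26771176979), (nat_lit 27996615664), (nat_lit 32362478364), (nat_lit 33420553640), (nat_lit 26423689328), (nat_lit 27556397554), (nat_lit 31248804366), (nat_lit 32120466742)], (nat_lit 0), (nat_lit 0), (nat_lit 0), (nat_lit 0), (nat_lit 0), (nat_lit 0), [], [(nat_lit 2), (nat_lit 44), (nat_lit 238), (nat_lit 30), (nat_lit 9)]⟩,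
 ⟨⟨[(nat_lit 40), (nat_lit 80), (nat_lit 100)], [(nat_lit 0), (nat_lit 1598), (nat_lit 2533)], [((nat_lit 0), (nat_lit 0), (nat_lit 0)), ((nat_lit 1000), (nat_lit 625), (nat_lit 623)), ((nat_lit 1000), (nat_lit 604), (nat_lit 730))], ((nat_lit 61), (nat_lit 100), (nat_lit 72))⟩, (nat_lit 1715638), (nat_lit 613), (nat_lit 613), (nat_lit 0), (nat_lit 1409357), [(nat_lit 1987296000), (nat_lit 4584864000), (nat_lit 6112500000)], [], [(nat_lit 28984005527), (nat_lit 30431946078), (nat_lit 32245550448), (nat_lit 34256878284), (nat_lit 31712936968), (nat_lit 32742879108), (nat_lit 34673021531), (nat_lit 36241024607)], (nat_lit 1271251), (nat_lit 1271251), (nat_lit 1271251), (nat_lit 1271251), (nat_lit 780000), (nat_lit 2499376), [(nat_lit 490000), (nat_lit 1100000), (nat_lit 1442501)], [(nat_lit 3), (nat_lit 50), (nat_lit 317), (nat_lit 100), (nat_lit 10)]⟩,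
 ⟨⟨[(nat_lit 140), (nat_lit 180), (nat_lit 200)], [(nat_lit 0), (nat_lit 0), (nat_lit 2835)], [((nat_lit 0), (nat_lit 0), (nat_lit 0)), ((nat_lit 0), (nat_lit 0), (nat_lit 0)), ((nat_lit 363), (nat_lit 1000), (nat_lit 798))], ((nat_lit 0), (nat_lit 0), (nat_lit 0))⟩, (nat_lit 149784), (nat_lit 300), (nat_lit 441), (nat_lit 24289100), (nat_lit 0), [(nat_lit 3060862000), (nat_lit 4372038000), (nat_lit 5100400000)], [], [(nat_lit 20446643965), (nat_lit 18657873706), (nat_lit 16730022285), (nat_lit 14989985454), (nat_lit 18885008280), (nat_lit 17785815839), (nat_lit 15159478776), (nat_lit 13911416372)], (nat_lit 0), (nat_lit 0), (nat_lit 0), (nat_lit 0), (nat_lit 0), (nat_lit 0), [], [(nat_lit 32), (nat_lit 67), (nat_lit 428), (nat_lit 200), (nat_lit 9)]⟩⟩))))) (.leaf ⟨(nat_lit 0), (nat_lit 0), (nat_lit 0), (nat_lit 1000), (nat_lit 0), (nat_lit 3562), (nat_lit 6551), (nat_lit 23133), (nat_lit 3177), (nat_lit 0), (nat_lit 0), [], Pd.none, Pd.none,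 (nat_lit 0), (nat_lit 1), (nat_lit 0), (nat_lit 0), (nat_lit 0), (nat_lit 0), [⟨(nat_lit 0), (nat_lit 73), (nat_lit 38), (nat_lit 100), (nat_lit 716841037)⟩], [], [], [],
 ⟨⟨[(nat_lit 40), (nat_lit 60), (nat_lit 80)], [(nat_lit 0), (nat_lit 1539), (nat_lit 2453)], [((nat_lit 0), (nat_lit 0), (nat_lit 0)), ((nat_lit 1000), (nat_lit 478), (nat_lit 704)), ((nat_lit 1000), (nat_lit 474), (nat_lit 714))], ((nat_lit 46), (nat_lit 100), (nat_lit 75))⟩, (nat_lit 1005875), (nat_lit 111), (nat_lit 111), (nat_lit 0), (nat_lit 0), [(nat_lit 2032000001), (nat_lit 3387509044), (nat_lit 4688000000)], [], [(nat_lit 24483746821), (nat_lit 25765970986), (nat_lit 31659795200), (nat_lit 32560920460), (nat_lit 25678597495), (nat_lit 26865455997), (nat_lit 32162561585), (nat_lit 32975536863)], (nat_lit 0), (nat_lit 0), (nat_lit 0), (nat_lit 0), (nat_lit 0), (nat_lit 0), [], [(nat_lit 2), (nat_lit 44), (nat_lit 260), (nat_lit 50), (nat_lit 10)]⟩,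
 ⟨⟨[(nat_lit 40), (nat_lit 80), (nat_lit 120)], [(nat_lit 0), (nat_lit 0), (nat_lit 2151)], [((nat_lit 0), (nat_lit 0), (nat_lit 0)), ((nat_lit 0), (nat_lit 0), (nat_lit 0)), ((nat_lit 1000), (nat_lit 815), (nat_lit 753))], ((nat_lit 81), (nat_lit 100), (nat_lit 72))⟩, (nat_lit 1649026), (nat_lit 744), (nat_lit 744), (nat_lit 0), (nat_lit 1555999), [(nat_lit 2032000000), (nat_lit 4688000000), (nat_lit 7968000000)], [], [(nat_lit 33871395378), (nat_lit 35954449116), (nat_lit 36833499130), (nat_lit 38430808330), (nat_lit 35972082257), (nat_lit 37152798703), (nat_lit 38750016423), (nat_lit 41707790271)], (nat_lit 1271251), (nat_lit 1271251), (nat_lit 1271251), (nat_lit 1271251), (nat_lit 780000), (nat_lit 2990626), [(nat_lit 490000), (nat_lit 1100000), (nat_lit 1785001)], [(nat_lit 4), (nat_lit 51), (nat_lit 428), (nat_lit 200), (nat_lit 13)]⟩,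
 ⟨⟨[(nat_lit 140), (nat_lit 180), (nat_lit 200)], [(nat_lit 0), (nat_lit 0), (nat_lit 2835)], [((nat_lit 0), (nat_lit 0), (nat_lit 0)), ((nat_lit 0), (nat_lit 0), (nat_lit 0)), ((nat_lit 363), (nat_lit 1000), (nat_lit 798))], ((nat_lit 0), (nat_lit 0), (nat_lit 0))⟩, (nat_lit 5776177), (nat_lit 287), (nat_lit 287), (nat_lit 0), (nat_lit 0), [(nat_lit 9842000000), (nat_lit 14058000000), (nat_lit 16400000000)], [], [(nat_lit 26085592643), (nat_lit 31436949916), (nat_lit 25783023828), (nat_lit 29153154708), (nat_lit 50308347932), (nat_lit 48491883322), (nat_lit 44979967806), (nat_lit 44518333623)], (nat_lit 0), (nat_lit 0), (nat_lit 0), (nat_lit 0), (nat_lit 0), (nat_lit 0), [], [(nat_lit 32), (nat_lit 67), (nat_lit 456), (nat_lit 225), (nat_lit 10)]⟩⟩)))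
noncomputable def c15_1 : Tr Lf :=
 (.spl (nat_lit 5) (nat_lit 120) (.trX (nat_lit 3) (nat_lit 4) (nat_lit 5) (nat_lit 100) (nat_lit 40) (nat_lit 92) (nat_lit 390) (.spl (nat_lit 2) (nat_lit 200) (.trX (nat_lit 4) (nat_lit 0) (nat_lit 2) (nat_lit 44) (nat_lit 90) (nat_lit 100) (nat_lit 290) (.leaf ⟨(nat_lit 253), (nat_lit 642), (nat_lit 0), (nat_lit 105), (nat_lit 0), (nat_lit 3396), (nat_lit 4821), (nat_lit 1447), (nat_lit 10806), (nat_lit 0), (nat_lit 151800), [((nat_lit 400), [((nat_lit 43), (nat_lit 2), (nat_lit 253))])], ⟨(nat_lit 8), false, true, false, (nat_lit 334), (nat_lit 0), (nat_lit 2237), [(nat_lit 1675230), (nat_lit 1683322), (nat_lit 1762621), (nat_lit 1779617), (nat_lit 1907465), (nat_lit 1887496), (nat_lit 1998052), (nat_lit 1986985)]⟩, ⟨(nat_lit 5), true, false, true, (nat_lit 205), (nat_lit 0), (nat_lit 2237), [(nat_lit 1408898), (nat_lit 1399996), (nat_lit 1499999), (nat_lit 1499999), (nat_lit 1537178), (nat_lit 1512490),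 (nat_lit 1628279), (nat_lit 1612494)]⟩, (nat_lit 5444916), (nat_lit 32800542), (nat_lit 23581642), (nat_lit 10617816), (nat_lit 5), (nat_lit 0), [⟨(nat_lit 0), (nat_lit 73), (nat_lit 38), (nat_lit 100), (nat_lit 45853501)⟩], [⟨(nat_lit 1), (nat_lit 100), (nat_lit 31), (nat_lit 99), (nat_lit 771529284)⟩], [⟨(nat_lit 0), (nat_lit 100), (nat_lit 61), (nat_lit 68), (nat_lit 158066936)⟩], [],
 ⟨⟨[(nat_lit 40), (nat_lit 60), (nat_lit 80)], [(nat_lit 0), (nat_lit 1539), (nat_lit 2453)], [((nat_lit 0), (nat_lit 0), (nat_lit 0)), ((nat_lit 1000), (nat_lit 478), (nat_lit 704)), ((nat_lit 1000), (nat_lit 474), (nat_lit 714))], ((nat_lit 46), (nat_lit 100), (nat_lit 75))⟩, (nat_lit 801778), (nat_lit 90), (nat_lit 90), (nat_lit 0), (nat_lit 0), [(nat_lit 1695282004), (nat_lit 2479368453), (nat_lit 3154820000)], [(nat_lit 0), (nat_lit 0), (nat_lit 0)], [(nat_lit 24437679916), (nat_lit 25671656695), (nat_lit 31077364703), (nat_lit 32020830723), (nat_lit 27109834700),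 (nat_lit 28268157468), (nat_lit 32829534873), (nat_lit 33634731839)], (nat_lit 0), (nat_lit 0), (nat_lit 0), (nat_lit 0), (nat_lit 0), (nat_lit 0), [], [(nat_lit 2), (nat_lit 44), (nat_lit 203), (nat_lit 0), (nat_lit 7)]⟩,
 ⟨⟨[(nat_lit 40), (nat_lit 80), (nat_lit 120)], [(nat_lit 0), (nat_lit 0), (nat_lit 2151)], [((nat_lit 0), (nat_lit 0), (nat_lit 0)), ((nat_lit 0), (nat_lit 0), (nat_lit 0)), ((nat_lit 1000), (nat_lit 815), (nat_lit 753))], ((nat_lit 81), (nat_lit 100), (nat_lit 72))⟩, (nat_lit 1377176), (nat_lit 700), (nat_lit 700), (nat_lit 0), (nat_lit 1291566), [(nat_lit 1517904000), (nat_lit 3501936000), (nat_lit 5952096000)], [], [(nat_lit 25813787342), (nat_lit 27986008905), (nat_lit 28779801710), (nat_lit 33271836447), (nat_lit 24217596400), (nat_lit 26010403744), (nat_lit 26678242384), (nat_lit 28053596790)], (nat_lit 1271251), (nat_lit 1271251), (nat_lit 1271251), (nat_lit 1271251), (nat_lit 0), (nat_lit 780000), [(nat_lit 490000),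 (nat_lit 1100000), (nat_lit 1785001)], [(nat_lit 4), (nat_lit 51), (nat_lit 373), (nat_lit 150), (nat_lit 12)]⟩,
 ⟨⟨[(nat_lit 140), (nat_lit 180), (nat_lit 200)], [(nat_lit 0), (nat_lit 0), (nat_lit 2835)], [((nat_lit 0), (nat_lit 0), (nat_lit 0)), ((nat_lit 0), (nat_lit 0), (nat_lit 0)), ((nat_lit 363), (nat_lit 1000), (nat_lit 798))], ((nat_lit 0), (nat_lit 0), (nat_lit 0))⟩, (nat_lit 28910), (nat_lit 300), (nat_lit 448), (nat_lit 8200500), (nat_lit 0), [(nat_lit 1033410000), (nat_lit 1476090000), (nat_lit 1722000000)], [], [(nat_lit 6873917854), (nat_lit 6575735215), (nat_lit 6896679584), (nat_lit 6554319007), (nat_lit 5588846341), (nat_lit 5293518664), (nat_lit 5582349662), (nat_lit 5264494443)], (nat_lit 0), (nat_lit 0), (nat_lit 0), (nat_lit 0), (nat_lit 0), (nat_lit 0), [], [(nat_lit 32), (nat_lit 67), (nat_lit 401), (nat_lit 175), (nat_lit 9)]⟩⟩)) (.trZ (nat_lit 1) (nat_lit 2) (nat_lit 5) (nat_lit 100) (nat_lit 80) (nat_lit 60) (nat_lit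 40) (.leaf ⟨(nat_lit 0), (nat_lit 0), (nat_lit 0), (nat_lit 1000), (nat_lit 0), (nat_lit 4164), (nat_lit 7343), (nat_lit 11701), (nat_lit 84638), (nat_lit 0), (nat_lit 0), [], Pd.none, Pd.none, (nat_lit 0), (nat_lit 1), (nat_lit 0), (nat_lit 0), (nat_lit 0), (nat_lit 0), [⟨(nat_lit 0), (nat_lit 73), (nat_lit 38), (nat_lit 100), (nat_lit 168780856)⟩], [⟨(nat_lit 1), (nat_lit 90), (nat_lit 32), (nat_lit 100), (nat_lit 361914213)⟩], [⟨(nat_lit 0), (nat_lit 100), (nat_lit 80), (nat_lit 60), (nat_lit 1219561556)⟩], [],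
 ⟨⟨[(nat_lit 40), (nat_lit 60), (nat_lit 80)], [(nat_lit 0), (nat_lit 1539), (nat_lit 2453)], [((nat_lit 0), (nat_lit 0), (nat_lit 0)), ((nat_lit 1000), (nat_lit 478), (nat_lit 704)), ((nat_lit 1000), (nat_lit 474), (nat_lit 714))], ((nat_lit 46), (nat_lit 100), (nat_lit 75))⟩, (nat_lit 877312), (nat_lit 90), (nat_lit 90), (nat_lit 0), (nat_lit 0), [(nat_lit 2032000076), (nat_lit 3677799916), (nat_lit 4688000000)], [], [(nat_lit 25216383294), (nat_lit 26447281064), (nat_lit 32170573823), (nat_lit 33193322307), (nat_lit 29998109124), (nat_lit 31121349668), (nat_lit 35282860378), (nat_lit 36050605658)], (nat_lit 0), (nat_lit 0), (nat_lit 0), (nat_lit 0), (nat_lit 0), (nat_lit 0), [], [(nat_lit 2), (nat_lit 44), (nat_lit 203), (nat_lit 0), (nat_lit 7)]⟩,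
 ⟨⟨[(nat_lit 40), (nat_lit 80), (nat_lit 120)], [(nat_lit 0), (nat_lit 0), (nat_lit 2151)], [((nat_lit 0), (nat_lit 0), (nat_lit 0)), ((nat_lit 0), (nat_lit 0), (nat_lit 0)), ((nat_lit 1000), (nat_lit 815), (nat_lit 753))], ((nat_lit 81), (nat_lit 100), (nat_lit 72))⟩, (nat_lit 455212), (nat_lit 555), (nat_lit 555), (nat_lit 0), (nat_lit 1031488), [(nat_lit 2032000000), (nat_lit 4688000000), (nat_lit 7968000000)], [], [(nat_lit 30306144650), (nat_lit 34619549136), (nat_lit 37385055905), (nat_lit 43951670782), (nat_lit 28563014304), (nat_lit 31394016639), (nat_lit 33908722867), (nat_lit 39249459781)], (nat_lit 1271251), (nat_lit 1271251), (nat_lit 1271251), (nat_lit 1271251), (nat_lit 230000), (nat_lit 780000), [(nat_lit 490000), (nat_lit 1100000), (nat_lit 1785001)], [(nat_lit 4), (nat_lit 51), (nat_lit 373), (nat_lit 150), (nat_lit 11)]⟩,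
 ⟨⟨[(nat_lit 100), (nat_lit 140), (nat_lit 180)], [(nat_lit 0), (nat_lit 0), (nat_lit 2434)], [((nat_lit 0), (nat_lit 0), (nat_lit 0)), ((nat_lit 0), (nat_lit 0), (nat_lit 0)), ((nat_lit 726), (nat_lit 1000), (nat_lit 688))], ((nat_lit 100), (nat_lit 70), (nat_lit 71))⟩, (nat_lit 6463640), (nat_lit 239), (nat_lit 239), (nat_lit 0), (nat_lit 0), [(nat_lit 6250000000), (nat_lit 9842000000), (nat_lit 14058000000)], [], [(nat_lit 20553203024), (nat_lit 24935605082), (nat_lit 33554029557), (nat_lit 35783750239), (nat_lit 16225731104), (nat_lit 20216706282), (nat_lit 28066496049), (nat_lit 30097428907)], (nat_lit 0), (nat_lit 0), (nat_lit 0), (nat_lit 0), (nat_lit 0), (nat_lit 0), [], [(nat_lit 24), (nat_lit 63), (nat_lit 428), (nat_lit 200), (nat_lit 10)]⟩⟩)))) (.leaf ⟨(nat_lit 0), (nat_lit 0), (nat_lit 0), (nat_lit 1000), (nat_lit 0), (nat_lit 3806), (nat_lit 6551), (nat_lit 24611), (nat_lit 24727), (nat_lit 0), (nat_lit 0), [], Pd.none, Pd.none,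 (nat_lit 0), (nat_lit 1), (nat_lit 0), (nat_lit 0), (nat_lit 0), (nat_lit 0), [⟨(nat_lit 0), (nat_lit 73), (nat_lit 38), (nat_lit 100), (nat_lit 365053195)⟩, ⟨(nat_lit 0), (nat_lit 82), (nat_lit 44), (nat_lit 100), (nat_lit 104171273)⟩], [⟨(nat_lit 1), (nat_lit 97), (nat_lit 31), (nat_lit 100), (nat_lit 1145876649)⟩], [], [],
 ⟨⟨[(nat_lit 40), (nat_lit 60), (nat_lit 80)], [(nat_lit 0), (nat_lit 1539), (nat_lit 2453)], [((nat_lit 0), (nat_lit 0), (nat_lit 0)), ((nat_lit 1000), (nat_lit 478), (nat_lit 704)), ((nat_lit 1000), (nat_lit 474), (nat_lit 714))], ((nat_lit 46), (nat_lit 100), (nat_lit 75))⟩, (nat_lit 1235717), (nat_lit 92), (nat_lit 92), (nat_lit 0), (nat_lit 0), [(nat_lit 2032000007), (nat_lit 3496436038), (nat_lit 4688000000)], [], [(nat_lit 24759393010), (nat_lit 26062639909), (nat_lit 32168868709), (nat_lit 33124671772), (nat_lit 29605416553), (nat_lit 30684972952), (nat_lit 35172048076), (nat_lit 35897651038)], (nat_lit 0), (nat_lit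 0), (nat_lit 0), (nat_lit 0), (nat_lit 0), (nat_lit 0), [], [(nat_lit 2), (nat_lit 44), (nat_lit 203), (nat_lit 0), (nat_lit 7)]⟩,
 ⟨⟨[(nat_lit 40), (nat_lit 80), (nat_lit 120)], [(nat_lit 0), (nat_lit 0), (nat_lit 2151)], [((nat_lit 0), (nat_lit 0), (nat_lit 0)), ((nat_lit 0), (nat_lit 0), (nat_lit 0)), ((nat_lit 1000), (nat_lit 815), (nat_lit 753))], ((nat_lit 81), (nat_lit 100), (nat_lit 72))⟩, (nat_lit 1649000), (nat_lit 744), (nat_lit 744), (nat_lit 0), (nat_lit 1555999), [(nat_lit 2032000000), (nat_lit 4688000000), (nat_lit 7968000000)], [], [(nat_lit 33871451304), (nat_lit 35954449116), (nat_lit 36833499130), (nat_lit 38430808330), (nat_lit 35972082257), (nat_lit 37152798703), (nat_lit 38750016423), (nat_lit 41707790271)], (nat_lit 1271251), (nat_lit 1271251), (nat_lit 1271251), (nat_lit 1271251), (nat_lit 780000), (nat_lit 2990626), [(nat_lit 490000), (nat_lit 1100000), (nat_lit 1785001)], [(nat_lit 4), (nat_lit 51), (nat_lit 428), (nat_lit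 200), (nat_lit 13)]⟩,
 ⟨⟨[(nat_lit 140), (nat_lit 180), (nat_lit 200)], [(nat_lit 0), (nat_lit 0), (nat_lit 2835)], [((nat_lit 0), (nat_lit 0), (nat_lit 0)), ((nat_lit 0), (nat_lit 0), (nat_lit 0)), ((nat_lit 363), (nat_lit 1000), (nat_lit 798))], ((nat_lit 0), (nat_lit 0), (nat_lit 0))⟩, (nat_lit 5313387), (nat_lit 262), (nat_lit 262), (nat_lit 0), (nat_lit 0), [(nat_lit 9842000000), (nat_lit 14058000000), (nat_lit 16400000000)], [], [(nat_lit 25242127793), (nat_lit 28602713145), (nat_lit 41630617974), (nat_lit 38875441957), (nat_lit 45207381611), (nat_lit 45907293823), (nat_lit 59927986579), (nat_lit 54900241585)], (nat_lit 0), (nat_lit 0), (nat_lit 0), (nat_lit 0), (nat_lit 0), (nat_lit 0), [], [(nat_lit 32), (nat_lit 67), (nat_lit 483), (nat_lit 250), (nat_lit 10)]⟩⟩))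
noncomputable def c15_2 : Tr Lf :=
 (.spl (nat_lit 5) (nat_lit 120) (.spl (nat_lit 1) (nat_lit 360) (.leaf ⟨(nat_lit 22), (nat_lit 805), (nat_lit 0), (nat_lit 173), (nat_lit 0), (nat_lit 5074), (nat_lit 6337), (nat_lit 2324), (nat_lit 0), (nat_lit 0), (nat_lit 88000), [((nat_lit 400), [((nat_lit 43), (nat_lit 5), (nat_lit 22))])], ⟨(nat_lit 8), false, true, false, (nat_lit 327), (nat_lit 0), (nat_lit 2237), [(nat_lit 1675230), (nat_lit 1683322), (nat_lit 1718925), (nat_lit 1731469), (nat_lit 1921719), (nat_lit 1899996), (nat_lit 1967269), (nat_lit 1949998)]⟩, ⟨(nat_lit 3), true, false, true, (nat_lit 188), (nat_lit 0), (nat_lit 2237), [(nat_lit 1177178), (nat_lit 1196337), (nat_lit 1330111), (nat_lit 1364851), (nat_lit 1608444), (nat_lit 1574987), (nat_lit 1767872), (nat_lit 1749995)]⟩, (nat_lit 5330471), (nat_lit 33960339), (nat_lit 23472594), (nat_lit 9567067), (nat_lit 3), (nat_lit 0), [], [], [⟨(nat_lit 0), (nat_lit 100), (nat_lit 72), (nat_lit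 66), (nat_lit 201254110)⟩], [⟨(nat_lit 0), (nat_lit 100), (nat_lit 82), (nat_lit 53), (nat_lit 53828520)⟩],
 ⟨⟨[(nat_lit 40), (nat_lit 60), (nat_lit 80)], [(nat_lit 0), (nat_lit 1539), (nat_lit 2453)], [((nat_lit 0), (nat_lit 0), (nat_lit 0)), ((nat_lit 1000), (nat_lit 478), (nat_lit 704)), ((nat_lit 1000), (nat_lit 474), (nat_lit 714))], ((nat_lit 46), (nat_lit 100), (nat_lit 75))⟩, (nat_lit 574347), (nat_lit 300), (nat_lit 491), (nat_lit 45587101), (nat_lit 1108752), [(nat_lit 1823484010), (nat_lit 3245271166), (nat_lit 3969858400)], [(nat_lit 0), (nat_lit 0), (nat_lit 0)], [(nat_lit 33885699536), (nat_lit 34635276031), (nat_lit 37818022126), (nat_lit 38444774720), (nat_lit 35129825655), (nat_lit 35600760699), (nat_lit 37417954676), (nat_lit 37758787202)], (nat_lit 1271251), (nat_lit 1271251), (nat_lit 1271251), (nat_lit 1271251), (nat_lit 230000), (nat_lit 2461251), [(nat_lit 490000), (nat_lit 780000), (nat_lit 1100000)], [(nat_lit 2), (nat_lit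 44), (nat_lit 317), (nat_lit 100), (nat_lit 13)]⟩,
 ⟨⟨[(nat_lit 40), (nat_lit 80), (nat_lit 120)], [(nat_lit 0), (nat_lit 0), (nat_lit 2151)], [((nat_lit 0), (nat_lit 0), (nat_lit 0)), ((nat_lit 0), (nat_lit 0), (nat_lit 0)), ((nat_lit 1000), (nat_lit 815), (nat_lit 753))], ((nat_lit 81), (nat_lit 100), (nat_lit 72))⟩, (nat_lit 2443282), (nat_lit 385), (nat_lit 385), (nat_lit 0), (nat_lit 501488), [(nat_lit 1987296000), (nat_lit 4584864000), (nat_lit 7792704000)], [], [(nat_lit 27463091735), (nat_lit 29928821108), (nat_lit 38535107672), (nat_lit 41453632220), (nat_lit 24923133968), (nat_lit 27103355305), (nat_lit 32077423724), (nat_lit 34762762879)], (nat_lit 1271251), (nat_lit 1271251), (nat_lit 1271251), (nat_lit 1271251), (nat_lit 0), (nat_lit 780000), [(nat_lit 490000), (nat_lit 1100000), (nat_lit 1785001)], [(nat_lit 4), (nat_lit 51), (nat_lit 373), (nat_lit 150), (nat_lit 12)]⟩,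
 ⟨⟨[(nat_lit 140), (nat_lit 180), (nat_lit 200)], [(nat_lit 0), (nat_lit 0), (nat_lit 2835)], [((nat_lit 0), (nat_lit 0), (nat_lit 0)), ((nat_lit 0), (nat_lit 0), (nat_lit 0)), ((nat_lit 363), (nat_lit 1000), (nat_lit 798))], ((nat_lit 0), (nat_lit 0), (nat_lit 0))⟩, (nat_lit 163637), (nat_lit 300), (nat_lit 569), (nat_lit 13511300), (nat_lit 0), [(nat_lit 1702666000), (nat_lit 2432034000), (nat_lit 2837200000)], [], [(nat_lit 13276901807), (nat_lit 12737685730), (nat_lit 11588574171), (nat_lit 10778333974), (nat_lit 11194436471), (nat_lit 10488856633), (nat_lit 9454835575), (nat_lit 8695014235)], (nat_lit 0), (nat_lit 0), (nat_lit 0), (nat_lit 0), (nat_lit 0), (nat_lit 0), [], [(nat_lit 32), (nat_lit 67), (nat_lit 428), (nat_lit 200), (nat_lit 10)]⟩⟩) (.trZ (nat_lit 0) (nat_lit 1) (nat_lit 3) (nat_lit 68) (nat_lit 49) (nat_lit 100) (nat_lit 290) (.trZ (nat_lit 1) (nat_lit 2) (nat_lit 5) (nat_lit 100) (nat_lit 65) (nat_lit 54) (nat_lit 20) (.trX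 (nat_lit 4) (nat_lit 3) (nat_lit 5) (nat_lit 97) (nat_lit 84) (nat_lit 100) (nat_lit 330) (.leaf ⟨(nat_lit 22), (nat_lit 796), (nat_lit 0), (nat_lit 182), (nat_lit 0), (nat_lit 5240), (nat_lit 3670), (nat_lit 2490), (nat_lit 14301338471877), (nat_lit 0), (nat_lit 88000), [((nat_lit 400), [((nat_lit 43), (nat_lit 5), (nat_lit 22))])], ⟨(nat_lit 9), false, true, false, (nat_lit 363), (nat_lit 0), (nat_lit 2237), [(nat_lit 1807212), (nat_lit 1809233), (nat_lit 1850907), (nat_lit 1857380), (nat_lit 1967269), (nat_lit 1949998), (nat_lit 2012658), (nat_lit 1999837)]⟩, ⟨(nat_lit 3), true, false, true, (nat_lit 186), (nat_lit 0), (nat_lit 2237), [(nat_lit 1177178), (nat_lit 1196337), (nat_lit 1330111), (nat_lit 1364851), (nat_lit 1594191), (nat_lit 1562488), (nat_lit 1753619), (nat_lit 1737496)]⟩, (nat_lit 5316046), (nat_lit 31700515), (nat_lit 26439867), (nat_lit 8859618), (nat_lit 3), (nat_lit 0), [⟨(nat_lit 0), (nat_lit 63), (nat_lit 45), (nat_lit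 100), (nat_lit 276135384)⟩], [], [⟨(nat_lit 0), (nat_lit 100), (nat_lit 44), (nat_lit 88), (nat_lit 202828423)⟩], [⟨(nat_lit 0), (nat_lit 100), (nat_lit 69), (nat_lit 67), (nat_lit 10482533)⟩],
 ⟨⟨[(nat_lit 40), (nat_lit 60), (nat_lit 80)], [(nat_lit 0), (nat_lit 1539), (nat_lit 2453)], [((nat_lit 0), (nat_lit 0), (nat_lit 0)), ((nat_lit 1000), (nat_lit 478), (nat_lit 704)), ((nat_lit 1000), (nat_lit 474), (nat_lit 714))], ((nat_lit 46), (nat_lit 100), (nat_lit 75))⟩, (nat_lit 576870), (nat_lit 300), (nat_lit 582), (nat_lit 45587101), (nat_lit 1365348), [(nat_lit 1823484006), (nat_lit 3232777609), (nat_lit 3969858400)], [(nat_lit 0), (nat_lit 0), (nat_lit 0)], [(nat_lit 35953188825), (nat_lit 36513783132), (nat_lit 38275635358), (nat_lit 38905305200), (nat_lit 35930109239), (nat_lit 36286616018), (nat_lit 37341408952), (nat_lit 37668496840)], (nat_lit 1271251), (nat_lit 1271251), (nat_lit 1271251), (nat_lit 1271251), (nat_lit 230000), (nat_lit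 2386876), [(nat_lit 490000), (nat_lit 780000), (nat_lit 1100000)], [(nat_lit 2), (nat_lit 44), (nat_lit 317), (nat_lit 100), (nat_lit 13)]⟩,
 ⟨⟨[(nat_lit 40), (nat_lit 80), (nat_lit 100)], [(nat_lit 0), (nat_lit 1598), (nat_lit 2533)], [((nat_lit 0), (nat_lit 0), (nat_lit 0)), ((nat_lit 1000), (nat_lit 625), (nat_lit 623)), ((nat_lit 1000), (nat_lit 604), (nat_lit 730))], ((nat_lit 61), (nat_lit 100), (nat_lit 72))⟩, (nat_lit 2470907), (nat_lit 336), (nat_lit 336), (nat_lit 0), (nat_lit 494771), [(nat_lit 1987296000), (nat_lit 4584864000), (nat_lit 6112500000)], [], [(nat_lit 27816358107), (nat_lit 29971041173), (nat_lit 32655406436), (nat_lit 34772245150), (nat_lit 27401693117), (nat_lit 29358688552), (nat_lit 31819828096), (nat_lit 33343808380)], (nat_lit 1271251), (nat_lit 1271251), (nat_lit 1271251), (nat_lit 1271251), (nat_lit 111251), (nat_lit 780000), [(nat_lit 490000), (nat_lit 1100000), (nat_lit 1442501)], [(nat_lit 3), (nat_lit 50),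 (nat_lit 238), (nat_lit 30), (nat_lit 8)]⟩,
 ⟨⟨[(nat_lit 140), (nat_lit 180), (nat_lit 200)], [(nat_lit 0), (nat_lit 0), (nat_lit 2835)], [((nat_lit 0), (nat_lit 0), (nat_lit 0)), ((nat_lit 0), (nat_lit 0), (nat_lit 0)), ((nat_lit 363), (nat_lit 1000), (nat_lit 798))], ((nat_lit 0), (nat_lit 0), (nat_lit 0))⟩, (nat_lit 297884), (nat_lit 300), (nat_lit 546), (nat_lit 14214200), (nat_lit 0), [(nat_lit 1791244000), (nat_lit 2558556000), (nat_lit 2984800000)], [], [(nat_lit 13522068177), (nat_lit 12955749544), (nat_lit 11668894655), (nat_lit 10832653802), (nat_lit 11706118512), (nat_lit 11030600317), (nat_lit 9843043783), (nat_lit 9044010735)], (nat_lit 0), (nat_lit 0), (nat_lit 0), (nat_lit 0), (nat_lit 0), (nat_lit 0), [], [(nat_lit 32), (nat_lit 67), (nat_lit 428), (nat_lit 200), (nat_lit 10)]⟩⟩))))) (.spl (nat_lit 1) (nat_lit 360) (.leaf ⟨(nat_lit 22), (nat_lit 560), (nat_lit 0), (nat_lit 418), (nat_lit 0), (nat_lit 5059), (nat_lit 6411), (nat_lit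 6033), (nat_lit 0), (nat_lit 0), (nat_lit 88000), [((nat_lit 400), [((nat_lit 43), (nat_lit 5), (nat_lit 22))])], ⟨(nat_lit 8), false, true, false, (nat_lit 327), (nat_lit 0), (nat_lit 2237), [(nat_lit 1675230), (nat_lit 1683322), (nat_lit 1718925), (nat_lit 1731469), (nat_lit 1921719), (nat_lit 1899996), (nat_lit 1967269), (nat_lit 1949998)]⟩, ⟨(nat_lit 3), true, false, true, (nat_lit 188), (nat_lit 0), (nat_lit 2237), [(nat_lit 1177178), (nat_lit 1196337), (nat_lit 1330111), (nat_lit 1364851), (nat_lit 1608444), (nat_lit 1574987), (nat_lit 1767872), (nat_lit 1749995)]⟩, (nat_lit 5330471), (nat_lit 33960339), (nat_lit 23472594), (nat_lit 9567067), (nat_lit 3), (nat_lit 0), [⟨(nat_lit 0), (nat_lit 82), (nat_lit 44), (nat_lit 100), (nat_lit 241172147)⟩], [⟨(nat_lit 0), (nat_lit 100), (nat_lit 48), (nat_lit 71), (nat_lit 306207118)⟩], [], [],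
 ⟨⟨[(nat_lit 40), (nat_lit 60), (nat_lit 80)], [(nat_lit 0), (nat_lit 1539), (nat_lit 2453)], [((nat_lit 0), (nat_lit 0), (nat_lit 0)), ((nat_lit 1000), (nat_lit 478), (nat_lit 704)), ((nat_lit 1000), (nat_lit 474), (nat_lit 714))], ((nat_lit 46), (nat_lit 100), (nat_lit 75))⟩, (nat_lit 613822), (nat_lit 300), (nat_lit 491), (nat_lit 45587101), (nat_lit 1108752), [(nat_lit 1823484021), (nat_lit 3273032308), (nat_lit 3969858400)], [(nat_lit 0), (nat_lit 0), (nat_lit 0)], [(nat_lit 33954333529), (nat_lit 34703040601), (nat_lit 37885056086), (nat_lit 38403160520), (nat_lit 35209451232), (nat_lit 35680128631), (nat_lit 37499427531), (nat_lit 37820859349)], (nat_lit 1271251), (nat_lit 1271251), (nat_lit 1271251), (nat_lit 1271251), (nat_lit 230000), (nat_lit 2461251), [(nat_lit 490000), (nat_lit 780000), (nat_lit 1100000)], [(nat_lit 2), (nat_lit 44), (nat_lit 317), (nat_lit 100), (nat_lit 13)]⟩,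
 ⟨⟨[(nat_lit 40), (nat_lit 80), (nat_lit 120)], [(nat_lit 0), (nat_lit 0), (nat_lit 2151)], [((nat_lit 0), (nat_lit 0), (nat_lit 0)), ((nat_lit 0), (nat_lit 0), (nat_lit 0)), ((nat_lit 1000), (nat_lit 815), (nat_lit 753))], ((nat_lit 81), (nat_lit 100), (nat_lit 72))⟩, (nat_lit 2437183), (nat_lit 407), (nat_lit 407), (nat_lit 0), (nat_lit 788759), [(nat_lit 1987296000), (nat_lit 4584864000), (nat_lit 7792704000)], [], [(nat_lit 24666860868), (nat_lit 26860643649), (nat_lit 32188284012), (nat_lit 34890854733), (nat_lit 31422540836), (nat_lit 33768122459), (nat_lit 37903300454), (nat_lit 39349959878)], (nat_lit 1271251), (nat_lit 1271251), (nat_lit 1271251), (nat_lit 1271251), (nat_lit 780000), (nat_lit 2990626), [(nat_lit 490000), (nat_lit 1100000), (nat_lit 1785001)], [(nat_lit 4), (nat_lit 51), (nat_lit 428), (nat_lit 200), (nat_lit 13)]⟩,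
 ⟨⟨[(nat_lit 140), (nat_lit 180), (nat_lit 200)], [(nat_lit 0), (nat_lit 0), (nat_lit 2835)], [((nat_lit 0), (nat_lit 0), (nat_lit 0)), ((nat_lit 0), (nat_lit 0), (nat_lit 0)), ((nat_lit 363), (nat_lit 1000), (nat_lit 798))], ((nat_lit 0), (nat_lit 0), (nat_lit 0))⟩, (nat_lit 506553), (nat_lit 300), (nat_lit 441), (nat_lit 32645800), (nat_lit 0), [(nat_lit 4113956000), (nat_lit 5876244000), (nat_lit 6855200000)], [], [(nat_lit 26624069029), (nat_lit 25306709011), (nat_lit 22534175166), (nat_lit 20486872801), (nat_lit 26802279632), (nat_lit 24399592871), (nat_lit 20716306676), (nat_lit 18128691354)], (nat_lit 0), (nat_lit 0), (nat_lit 0), (nat_lit 0), (nat_lit 0), (nat_lit 0), [], [(nat_lit 32), (nat_lit 67), (nat_lit 483), (nat_lit 250), (nat_lit 10)]⟩⟩) (.trZ (nat_lit 0) (nat_lit 1) (nat_lit 3) (nat_lit 68) (nat_lit 49) (nat_lit 100) (nat_lit 290) (.trX (nat_lit 5) (nat_lit 1) (nat_lit 2) (nat_lit 63) (nat_lit 61) (nat_lit 100) (nat_lit 370)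 (.leaf ⟨(nat_lit 22), (nat_lit 659), (nat_lit 0), (nat_lit 319), (nat_lit 0), (nat_lit 5261), (nat_lit 4223), (nat_lit 4604), (nat_lit 17579996043800), (nat_lit 0), (nat_lit 88000), [((nat_lit 400), [((nat_lit 43), (nat_lit 5), (nat_lit 22))])], ⟨(nat_lit 9), false, true, false, (nat_lit 363), (nat_lit 0), (nat_lit 2237), [(nat_lit 1807212), (nat_lit 1809233), (nat_lit 1850907), (nat_lit 1857380), (nat_lit 1967269), (nat_lit 1949998), (nat_lit 2012658), (nat_lit 1999837)]⟩, ⟨(nat_lit 3), true, false, true, (nat_lit 188), (nat_lit 0), (nat_lit 2237), [(nat_lit 1177178), (nat_lit 1196337), (nat_lit 1330111), (nat_lit 1364851), (nat_lit 1608444), (nat_lit 1574987), (nat_lit 1767872), (nat_lit 1749995)]⟩, (nat_lit 5334963), (nat_lit 31600808), (nat_lit 26362783), (nat_lit 9036409), (nat_lit 3), (nat_lit 0), [⟨(nat_lit 0), (nat_lit 63), (nat_lit 45), (nat_lit 100), (nat_lit 554924701)⟩], [], [⟨(nat_lit 1), (nat_lit 92), (nat_lit 44), (nat_lit 100),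 (nat_lit 701188)⟩], [⟨(nat_lit 1), (nat_lit 100), (nat_lit 71), (nat_lit 88), (nat_lit 103010158)⟩],
 ⟨⟨[(nat_lit 40), (nat_lit 60), (nat_lit 80)], [(nat_lit 0), (nat_lit 1539), (nat_lit 2453)], [((nat_lit 0), (nat_lit 0), (nat_lit 0)), ((nat_lit 1000), (nat_lit 478), (nat_lit 704)), ((nat_lit 1000), (nat_lit 474), (nat_lit 714))], ((nat_lit 46), (nat_lit 100), (nat_lit 75))⟩, (nat_lit 601016), (nat_lit 300), (nat_lit 582), (nat_lit 45587101), (nat_lit 1365348), [(nat_lit 1823484013), (nat_lit 3240525202), (nat_lit 3969858400)], [(nat_lit 0), (nat_lit 0), (nat_lit 0)], [(nat_lit 35837094498), (nat_lit 36398322666), (nat_lit 38160587408), (nat_lit 38963565080), (nat_lit 35953539294), (nat_lit 36301584828), (nat_lit 37323805344), (nat_lit 38033260753)], (nat_lit 1271251), (nat_lit 1271251), (nat_lit 1271251), (nat_lit 1271251), (nat_lit 230000), (nat_lit 2461251), [(nat_lit 490000), (nat_lit 780000), (nat_lit 1100000)], [(nat_lit 2), (nat_lit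 44), (nat_lit 317), (nat_lit 100), (nat_lit 13)]⟩,
 ⟨⟨[(nat_lit 40), (nat_lit 80), (nat_lit 100)], [(nat_lit 0), (nat_lit 1598), (nat_lit 2533)], [((nat_lit 0), (nat_lit 0), (nat_lit 0)), ((nat_lit 1000), (nat_lit 625), (nat_lit 623)), ((nat_lit 1000), (nat_lit 604), (nat_lit 730))], ((nat_lit 61), (nat_lit 100), (nat_lit 72))⟩, (nat_lit 2248121), (nat_lit 355), (nat_lit 355), (nat_lit 0), (nat_lit 732116), [(nat_lit 1987296000), (nat_lit 4584864000), (nat_lit 6112500000)], [], [(nat_lit 26470242950), (nat_lit 28421431569), (nat_lit 31103490185), (nat_lit 33296565414), (nat_lit 31680164427), (nat_lit 33334395662), (nat_lit 35417340439), (nat_lit 36776672739)], (nat_lit 1271251), (nat_lit 1271251), (nat_lit 1271251), (nat_lit 1271251), (nat_lit 780000), (nat_lit 2826876), [(nat_lit 490000), (nat_lit 1100000), (nat_lit 1442501)], [(nat_lit 3), (nat_lit 50), (nat_lit 317), (nat_lit 100), (nat_lit 10)]⟩,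
 ⟨⟨[(nat_lit 140), (nat_lit 180), (nat_lit 200)], [(nat_lit 0), (nat_lit 0), (nat_lit 2835)], [((nat_lit 0), (nat_lit 0), (nat_lit 0)), ((nat_lit 0), (nat_lit 0), (nat_lit 0)), ((nat_lit 363), (nat_lit 1000), (nat_lit 798))], ((nat_lit 0), (nat_lit 0), (nat_lit 0))⟩, (nat_lit 480332), (nat_lit 300), (nat_lit 441), (nat_lit 24913900), (nat_lit 0), [(nat_lit 3139598000), (nat_lit 4484502000), (nat_lit 5231600000)], [], [(nat_lit 20318335512), (nat_lit 19313026207), (nat_lit 17197231456), (nat_lit 15634883082), (nat_lit 20177065164), (nat_lit 18434078061), (nat_lit 15701644715), (nat_lit 13676561500)], (nat_lit 0), (nat_lit 0), (nat_lit 0), (nat_lit 0), (nat_lit 0), (nat_lit 0), [], [(nat_lit 32), (nat_lit 67), (nat_lit 483), (nat_lit 250), (nat_lit 10)]⟩⟩)))))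
noncomputable def c15_3 : Tr Lf :=
 (.spl (nat_lit 2) (nat_lit 200) (.trX (nat_lit 4) (nat_lit 0) (nat_lit 2) (nat_lit 44) (nat_lit 90) (nat_lit 100) (nat_lit 290) (.leaf ⟨(nat_lit 22), (nat_lit 978), (nat_lit 0), (nat_lit 0), (nat_lit 0), (nat_lit 5280), (nat_lit 5349), (nat_lit 0), (nat_lit 13658536805605), (nat_lit 0), (nat_lit 88000), [((nat_lit 400), [((nat_lit 43), (nat_lit 5), (nat_lit 22))])], ⟨(nat_lit 8), true, false, false, (nat_lit 337), (nat_lit 0), (nat_lit 2237), [(nat_lit 1675230), (nat_lit 1683322), (nat_lit 1762621), (nat_lit 1779617), (nat_lit 1921719), (nat_lit 1899996), (nat_lit 2012658), (nat_lit 1999837)]⟩, ⟨(nat_lit 3), false, false, true, (nat_lit 161), (nat_lit 0), (nat_lit 2237), [(nat_lit 1177178), (nat_lit 1196337), (nat_lit 1264568), (nat_lit 1292631), (nat_lit 1537178), (nat_lit 1512490), (nat_lit 1628279), (nat_lit 1612494)]⟩, (nat_lit 5125597), (nat_lit 34458594), (nat_lit 24967952), (nat_lit 7573454), (nat_lit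 3), (nat_lit 0), [⟨(nat_lit 0), (nat_lit 73), (nat_lit 38), (nat_lit 100), (nat_lit 382446729)⟩], [⟨(nat_lit 1), (nat_lit 90), (nat_lit 44), (nat_lit 100), (nat_lit 313577751)⟩], [], [],
 ⟨⟨[(nat_lit 40), (nat_lit 60), (nat_lit 80)], [(nat_lit 0), (nat_lit 1539), (nat_lit 2453)], [((nat_lit 0), (nat_lit 0), (nat_lit 0)), ((nat_lit 1000), (nat_lit 478), (nat_lit 704)), ((nat_lit 1000), (nat_lit 474), (nat_lit 714))], ((nat_lit 46), (nat_lit 100), (nat_lit 75))⟩, (nat_lit 245791), (nat_lit 300), (nat_lit 504), (nat_lit 45587101), (nat_lit 1151189), [(nat_lit 1823484008), (nat_lit 3019379311), (nat_lit 3969858400)], [(nat_lit 0), (nat_lit 0), (nat_lit 0)], [(nat_lit 33116997087), (nat_lit 33860121153), (nat_lit 37702212560), (nat_lit 39016276400), (nat_lit 33289011861), (nat_lit 33805830343), (nat_lit 35827861575), (nat_lit 36743482840)], (nat_lit 1271251), (nat_lit 1271251), (nat_lit 1271251), (nat_lit 1271251), (nat_lit 230000), (nat_lit 2089376),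 [(nat_lit 490000), (nat_lit 780000), (nat_lit 1100000)], [(nat_lit 2), (nat_lit 44), (nat_lit 289), (nat_lit 75), (nat_lit 12)]⟩,
 ⟨⟨[(nat_lit 40), (nat_lit 80), (nat_lit 120)], [(nat_lit 0), (nat_lit 0), (nat_lit 2151)], [((nat_lit 0), (nat_lit 0), (nat_lit 0)), ((nat_lit 0), (nat_lit 0), (nat_lit 0)), ((nat_lit 1000), (nat_lit 815), (nat_lit 753))], ((nat_lit 81), (nat_lit 100), (nat_lit 72))⟩, (nat_lit 2170739), (nat_lit 215), (nat_lit 215), (nat_lit 0), (nat_lit 0), [(nat_lit 1987296000), (nat_lit 4584864000), (nat_lit 7792704000)], [], [(nat_lit 25974899726), (nat_lit 31554238725), (nat_lit 35770944504), (nat_lit 41096881440), (nat_lit 24188675378), (nat_lit 28896176553), (nat_lit 31519476558), (nat_lit 34958620770)], (nat_lit 0), (nat_lit 0), (nat_lit 0), (nat_lit 0), (nat_lit 0), (nat_lit 0), [], [(nat_lit 4), (nat_lit 51), (nat_lit 373), (nat_lit 150), (nat_lit 12)]⟩,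
 Rw.none⟩)) (.trZ (nat_lit 0) (nat_lit 2) (nat_lit 4) (nat_lit 100) (nat_lit 44) (nat_lit 90) (nat_lit 110) (.trZ (nat_lit 1) (nat_lit 2) (nat_lit 5) (nat_lit 100) (nat_lit 80) (nat_lit 60) (nat_lit 40) (.spl (nat_lit 1) (nat_lit 360) (.leaf ⟨(nat_lit 22), (nat_lit 978), (nat_lit 0), (nat_lit 0), (nat_lit 0), (nat_lit 4847), (nat_lit 6357), (nat_lit 0), (nat_lit 0), (nat_lit 0), (nat_lit 88000), [((nat_lit 400), [((nat_lit 43), (nat_lit 5), (nat_lit 22))])], ⟨(nat_lit 8), true, false, false, (nat_lit 327), (nat_lit 0), (nat_lit 2237), [(nat_lit 1675230), (nat_lit 1683322), (nat_lit 1718925), (nat_lit 1731469), (nat_lit 1921719), (nat_lit 1899996), (nat_lit 1967269), (nat_lit 1949998)]⟩, ⟨(nat_lit 5), false, false, true, (nat_lit 227), (nat_lit 0), (nat_lit 2237), [(nat_lit 1367570), (nat_lit 1383355), (nat_lit 1433113), (nat_lit 1455575), (nat_lit 1699546), (nat_lit 1674992), (nat_lit 1767872), (nat_lit 1749995)]⟩, (nat_lit 5566048), (nat_lit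 32267247), (nat_lit 22452325), (nat_lit 12280428), (nat_lit 5), (nat_lit 0), [], [⟨(nat_lit 1), (nat_lit 76), (nat_lit 46), (nat_lit 100), (nat_lit 506486304)⟩], [], [],
 ⟨⟨[(nat_lit 40), (nat_lit 60), (nat_lit 80)], [(nat_lit 0), (nat_lit 1539), (nat_lit 2453)], [((nat_lit 0), (nat_lit 0), (nat_lit 0)), ((nat_lit 1000), (nat_lit 478), (nat_lit 704)), ((nat_lit 1000), (nat_lit 474), (nat_lit 714))], ((nat_lit 46), (nat_lit 100), (nat_lit 75))⟩, (nat_lit 417935), (nat_lit 300), (nat_lit 331), (nat_lit 45587101), (nat_lit 743637), [(nat_lit 1823484001), (nat_lit 3119634735), (nat_lit 3969858400)], [(nat_lit 0), (nat_lit 0), (nat_lit 0)], [(nat_lit 30042402902), (nat_lit 31000518315), (nat_lit 35121278133), (nat_lit 35776768376), (nat_lit 33391930759), (nat_lit 34034136149), (nat_lit 36644926436), (nat_lit 37425602731)], (nat_lit 1271251), (nat_lit 1271251), (nat_lit 1271251), (nat_lit 1271251), (nat_lit 704688), (nat_lit 2566251), [(nat_lit 490000),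 (nat_lit 780000), (nat_lit 1100000)], [(nat_lit 2), (nat_lit 44), (nat_lit 317), (nat_lit 100), (nat_lit 13)]⟩,
 ⟨⟨[(nat_lit 40), (nat_lit 80), (nat_lit 120)], [(nat_lit 0), (nat_lit 0), (nat_lit 2151)], [((nat_lit 0), (nat_lit 0), (nat_lit 0)), ((nat_lit 0), (nat_lit 0), (nat_lit 0)), ((nat_lit 1000), (nat_lit 815), (nat_lit 753))], ((nat_lit 81), (nat_lit 100), (nat_lit 72))⟩, (nat_lit 2202767), (nat_lit 173), (nat_lit 173), (nat_lit 0), (nat_lit 0), [(nat_lit 1987296000), (nat_lit 4584864000), (nat_lit 7792704000)], [], [(nat_lit 23340713760), (nat_lit 26398013102), (nat_lit 35721738510), (nat_lit 38594908377), (nat_lit 22216182710), (nat_lit 24759309493), (nat_lit 31781408784), (nat_lit 34163997225)], (nat_lit 0), (nat_lit 0), (nat_lit 0), (nat_lit 0), (nat_lit 0), (nat_lit 0), [], [(nat_lit 4), (nat_lit 51), (nat_lit 373), (nat_lit 150), (nat_lit 11)]⟩,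
 Rw.none⟩) (.trZ (nat_lit 0) (nat_lit 1) (nat_lit 3) (nat_lit 68) (nat_lit 49) (nat_lit 100) (nat_lit 290) (.trZ (nat_lit 1) (nat_lit 2) (nat_lit 5) (nat_lit 100) (nat_lit 60) (nat_lit 80) (nat_lit 80) (.leaf ⟨(nat_lit 22), (nat_lit 978), (nat_lit 0), (nat_lit 0), (nat_lit 0), (nat_lit 4922), (nat_lit 3821), (nat_lit 0), (nat_lit 16339218818408), (nat_lit 0), (nat_lit 88000), [((nat_lit 400), [((nat_lit 43), (nat_lit 5), (nat_lit 22))])], ⟨(nat_lit 9), true, false, false, (nat_lit 363), (nat_lit 0), (nat_lit 2237), [(nat_lit 1807212), (nat_lit 1809233), (nat_lit 1850907), (nat_lit 1857380), (nat_lit 1967269), (nat_lit 1949998), (nat_lit 2012658), (nat_lit 1999837)]⟩, ⟨(nat_lit 5), false, false, true, (nat_lit 227), (nat_lit 0), (nat_lit 2237), [(nat_lit 1367570), (nat_lit 1383355), (nat_lit 1433113), (nat_lit 1455575), (nat_lit 1699546), (nat_lit 1674992), (nat_lit 1767872), (nat_lit 1749995)]⟩, (nat_lit 5570986), (nat_lit 30153357), (nat_lit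 25235302), (nat_lit 11611341), (nat_lit 5), (nat_lit 0), [⟨(nat_lit 0), (nat_lit 63), (nat_lit 45), (nat_lit 100), (nat_lit 108202610)⟩], [⟨(nat_lit 1), (nat_lit 76), (nat_lit 46), (nat_lit 100), (nat_lit 495283346)⟩], [], [],
 ⟨⟨[(nat_lit 40), (nat_lit 60), (nat_lit 80)], [(nat_lit 0), (nat_lit 1539), (nat_lit 2453)], [((nat_lit 0), (nat_lit 0), (nat_lit 0)), ((nat_lit 1000), (nat_lit 478), (nat_lit 704)), ((nat_lit 1000), (nat_lit 474), (nat_lit 714))], ((nat_lit 46), (nat_lit 100), (nat_lit 75))⟩, (nat_lit 393429), (nat_lit 300), (nat_lit 387), (nat_lit 45587101), (nat_lit 924709), [(nat_lit 1823484002), (nat_lit 3094695532), (nat_lit 3969858400)], [(nat_lit 0), (nat_lit 0), (nat_lit 0)], [(nat_lit 32240858474), (nat_lit 33010068591), (nat_lit 35466310279), (nat_lit 36060351435), (nat_lit 34625439278), (nat_lit 35143717438), (nat_lit 36749565412), (nat_lit 37535685706)], (nat_lit 1271251), (nat_lit 1271251), (nat_lit 1271251), (nat_lit 1271251),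 (nat_lit 704688), (nat_lit 2566251), [(nat_lit 490000), (nat_lit 780000), (nat_lit 1100000)], [(nat_lit 2), (nat_lit 44), (nat_lit 317), (nat_lit 100), (nat_lit 12)]⟩,
 ⟨⟨[(nat_lit 40), (nat_lit 80), (nat_lit 100)], [(nat_lit 0), (nat_lit 1598), (nat_lit 2533)], [((nat_lit 0), (nat_lit 0), (nat_lit 0)), ((nat_lit 1000), (nat_lit 625), (nat_lit 623)), ((nat_lit 1000), (nat_lit 604), (nat_lit 730))], ((nat_lit 61), (nat_lit 100), (nat_lit 72))⟩, (nat_lit 1923800), (nat_lit 141), (nat_lit 141), (nat_lit 0), (nat_lit 0), [(nat_lit 1987296000), (nat_lit 4584864000), (nat_lit 6112500000)], [], [(nat_lit 24234719399), (nat_lit 27154544420), (nat_lit 30642359542), (nat_lit 32833532456), (nat_lit 25509287416), (nat_lit 27661963826), (nat_lit 30662691649), (nat_lit 32551467634)], (nat_lit 0), (nat_lit 0), (nat_lit 0), (nat_lit 0), (nat_lit 0), (nat_lit 0), [], [(nat_lit 3), (nat_lit 50), (nat_lit 260), (nat_lit 50), (nat_lit 8)]⟩,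
 Rw.none⟩)))))))
noncomputable def c15_4 : Tr Lf :=
 (.spl (nat_lit 6) (nat_lit 32) (.spl (nat_lit 1) (nat_lit 360) (.spl (nat_lit 2) (nat_lit 200) (.trX (nat_lit 4) (nat_lit 0) (nat_lit 2) (nat_lit 44) (nat_lit 90) (nat_lit 100) (nat_lit 290) (.leaf ⟨(nat_lit 22), (nat_lit 978), (nat_lit 0), (nat_lit 0), (nat_lit 0), (nat_lit 4603), (nat_lit 5105), (nat_lit 0), (nat_lit 0), (nat_lit 0), (nat_lit 88000), [((nat_lit 400), [((nat_lit 43), (nat_lit 5), (nat_lit 22))])], ⟨(nat_lit 8), true, false, false, (nat_lit 327), (nat_lit 0), (nat_lit 2237), [(nat_lit 1675230), (nat_lit 1683322), (nat_lit 1718925), (nat_lit 1731469), (nat_lit 1921719), (nat_lit 1899996), (nat_lit 1967269), (nat_lit 1949998)]⟩, ⟨(nat_lit 3), false, false, true, (nat_lit 161), (nat_lit 0), (nat_lit 2237), [(nat_lit 1177178), (nat_lit 1196337), (nat_lit 1264568), (nat_lit 1292631), (nat_lit 1537178), (nat_lit 1512490), (nat_lit 1628279), (nat_lit 1612494)]⟩, (nat_lit 5118777),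 (nat_lit 35145189), (nat_lit 24167852), (nat_lit 7686959), (nat_lit 5), (nat_lit 0), [⟨(nat_lit 0), (nat_lit 82), (nat_lit 44), (nat_lit 100), (nat_lit 201691387)⟩], [⟨(nat_lit 1), (nat_lit 90), (nat_lit 44), (nat_lit 100), (nat_lit 331584976)⟩], [], [],
 ⟨⟨[(nat_lit 40), (nat_lit 60)], [(nat_lit 0), (nat_lit 1539)], [((nat_lit 0), (nat_lit 0), (nat_lit 0)), ((nat_lit 1000), (nat_lit 478), (nat_lit 704))], ((nat_lit 51), (nat_lit 100), (nat_lit 63))⟩, (nat_lit 492143), (nat_lit 300), (nat_lit 382), (nat_lit 45587101), (nat_lit 920935), [(nat_lit 1823484003), (nat_lit 2838752800)], [(nat_lit 0), (nat_lit 0)], [(nat_lit 29452285818), (nat_lit 30428121958), (nat_lit 35909946794), (nat_lit 37138088840), (nat_lit 31231617734), (nat_lit 31917732747), (nat_lit 34899130127), (nat_lit 35767026784)], (nat_lit 1271251), (nat_lit 1271251), (nat_lit 1271251), (nat_lit 1271251), (nat_lit 230000), (nat_lit 2089376), [(nat_lit 490000), (nat_lit 780000)], [(nat_lit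 1), (nat_lit 38), (nat_lit 289), (nat_lit 75), (nat_lit 15)]⟩,
 ⟨⟨[(nat_lit 40), (nat_lit 80), (nat_lit 100)], [(nat_lit 0), (nat_lit 0), (nat_lit 1280)], [((nat_lit 0), (nat_lit 0), (nat_lit 0)), ((nat_lit 0), (nat_lit 0), (nat_lit 0)), ((nat_lit 1000), (nat_lit 800), (nat_lit 600))], ((nat_lit 80), (nat_lit 100), (nat_lit 54))⟩, (nat_lit 2200855), (nat_lit 87), (nat_lit 87), (nat_lit 0), (nat_lit 0), [(nat_lit 1987296000), (nat_lit 4584864000), (nat_lit 6112500000)], [], [(nat_lit 21923609181), (nat_lit 24806943341), (nat_lit 30709210146), (nat_lit 32568849435), (nat_lit 24843918620), (nat_lit 27290859842), (nat_lit 32221746648), (nat_lit 33814263422)], (nat_lit 0), (nat_lit 0), (nat_lit 0), (nat_lit 0), (nat_lit 0), (nat_lit 0), [], [(nat_lit 3), (nat_lit 50), (nat_lit 203), (nat_lit 0), (nat_lit 6)]⟩,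
 Rw.none⟩)) (.trZ (nat_lit 0) (nat_lit 2) (nat_lit 4) (nat_lit 100) (nat_lit 44) (nat_lit 90) (nat_lit 110) (.leaf ⟨(nat_lit 22), (nat_lit 873), (nat_lit 0), (nat_lit 105), (nat_lit 0), (nat_lit 4124), (nat_lit 5105), (nat_lit 1112), (nat_lit 0), (nat_lit 0), (nat_lit 88000), [((nat_lit 400), [((nat_lit 43), (nat_lit 5), (nat_lit 22))])], ⟨(nat_lit 8), true, false, false, (nat_lit 327), (nat_lit 0), (nat_lit 2237), [(nat_lit 1675230), (nat_lit 1683322), (nat_lit 1718925), (nat_lit 1731469), (nat_lit 1921719), (nat_lit 1899996), (nat_lit 1967269), (nat_lit 1949998)]⟩, ⟨(nat_lit 5), false, false, true, (nat_lit 227), (nat_lit 0), (nat_lit 2237), [(nat_lit 1367570), (nat_lit 1383355), (nat_lit 1433113), (nat_lit 1455575), (nat_lit 1699546), (nat_lit 1674992), (nat_lit 1767872), (nat_lit 1749995)]⟩, (nat_lit 5566048), (nat_lit 32267247), (nat_lit 22452325), (nat_lit 12280428), (nat_lit 5), (nat_lit 0), [⟨(nat_lit 0), (nat_lit 80), (nat_lit 35),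 (nat_lit 100), (nat_lit 35157176)⟩], [⟨(nat_lit 1), (nat_lit 90), (nat_lit 32), (nat_lit 100), (nat_lit 565802694)⟩], [], [],
 ⟨⟨[(nat_lit 40), (nat_lit 60)], [(nat_lit 0), (nat_lit 1539)], [((nat_lit 0), (nat_lit 0), (nat_lit 0)), ((nat_lit 1000), (nat_lit 478), (nat_lit 704))], ((nat_lit 51), (nat_lit 100), (nat_lit 63))⟩, (nat_lit 800115), (nat_lit 294), (nat_lit 294), (nat_lit 0), (nat_lit 736754), [(nat_lit 1823484004), (nat_lit 2838752800)], [(nat_lit 0), (nat_lit 0)], [(nat_lit 25375771547), (nat_lit 26483339982), (nat_lit 32651891840), (nat_lit 33762668314), (nat_lit 30152829991), (nat_lit 31072592493), (nat_lit 35621555704), (nat_lit 36364402852)], (nat_lit 1271251), (nat_lit 1271251), (nat_lit 1271251), (nat_lit 1271251), (nat_lit 704688), (nat_lit 2566251), [(nat_lit 490000), (nat_lit 780000)], [(nat_lit 1), (nat_lit 38), (nat_lit 317), (nat_lit 100), (nat_lit 17)]⟩,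
 ⟨⟨[(nat_lit 40), (nat_lit 80), (nat_lit 100)], [(nat_lit 0), (nat_lit 0), (nat_lit 1280)], [((nat_lit 0), (nat_lit 0), (nat_lit 0)), ((nat_lit 0), (nat_lit 0), (nat_lit 0)), ((nat_lit 1000), (nat_lit 800), (nat_lit 600))], ((nat_lit 80), (nat_lit 100), (nat_lit 54))⟩, (nat_lit 1646187), (nat_lit 87), (nat_lit 87), (nat_lit 0), (nat_lit 0), [(nat_lit 1987296000), (nat_lit 4584864000), (nat_lit 6112500000)], [], [(nat_lit 22195606152), (nat_lit 24889782981), (nat_lit 30709210146), (nat_lit 32568849435), (nat_lit 24887895131), (nat_lit 27290859842), (nat_lit 32221746648), (nat_lit 33814263422)], (nat_lit 0), (nat_lit 0), (nat_lit 0), (nat_lit 0), (nat_lit 0), (nat_lit 0), [], [(nat_lit 3), (nat_lit 50), (nat_lit 203), (nat_lit 0), (nat_lit 6)]⟩,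
 ⟨⟨[(nat_lit 100), (nat_lit 140), (nat_lit 160)], [(nat_lit 0), (nat_lit 0), (nat_lit 1280)], [((nat_lit 0), (nat_lit 0), (nat_lit 0)), ((nat_lit 0), (nat_lit 0), (nat_lit 0)), ((nat_lit 800), (nat_lit 1000), (nat_lit 600))], ((nat_lit 100), (nat_lit 84), (nat_lit 54))⟩, (nat_lit 127891), (nat_lit 300), (nat_lit 2205), (nat_lit 7381500), (nat_lit 4156304), [(nat_lit 656250000), (nat_lit 1033410000), (nat_lit 1246560000)], [], [(nat_lit 5027519061), (nat_lit 4852390859), (nat_lit 5536875914), (nat_lit 4173034474), (nat_lit 4799732799), (nat_lit 4624158719), (nat_lit 4122216906), (nat_lit 4002015315)], (nat_lit 1271251), (nat_lit 1271251), (nat_lit 704688), (nat_lit 2566251), (nat_lit 1271251), (nat_lit 1271251), [(nat_lit 1412501), (nat_lit 1271251), (nat_lit 1271251)], [(nat_lit 23), (nat_lit 62), (nat_lit 662), (nat_lit 225), (nat_lit 16)]⟩⟩))) (.trZ (nat_lit 0) (nat_lit 1) (nat_lit 3) (nat_lit 68) (nat_lit 49) (nat_lit 100) (nat_lit 290) (.spl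 (nat_lit 6) (nat_lit 16) (.leaf ⟨(nat_lit 22), (nat_lit 978), (nat_lit 0), (nat_lit 0), (nat_lit 0), (nat_lit 4300), (nat_lit 3492), (nat_lit 0), (nat_lit 13665407873459), (nat_lit 0), (nat_lit 88000), [((nat_lit 400), [((nat_lit 43), (nat_lit 5), (nat_lit 22))])], ⟨(nat_lit 9), true, false, false, (nat_lit 363), (nat_lit 0), (nat_lit 2237), [(nat_lit 1807212), (nat_lit 1809233), (nat_lit 1850907), (nat_lit 1857380), (nat_lit 1967269), (nat_lit 1949998), (nat_lit 2012658), (nat_lit 1999837)]⟩, ⟨(nat_lit 3), false, false, true, (nat_lit 188), (nat_lit 0), (nat_lit 2237), [(nat_lit 1177178), (nat_lit 1196337), (nat_lit 1330111), (nat_lit 1364851), (nat_lit 1608444), (nat_lit 1574987), (nat_lit 1767872), (nat_lit 1749995)]⟩, (nat_lit 5334963), (nat_lit 31600808), (nat_lit 26362783), (nat_lit 9036409), (nat_lit 5), (nat_lit 0), [⟨(nat_lit 0), (nat_lit 63), (nat_lit 45), (nat_lit 100), (nat_lit 68964880)⟩], [⟨(nat_lit 1), (nat_lit 76), (nat_lit 46),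 (nat_lit 100), (nat_lit 408274249)⟩], [], [],
 ⟨⟨[(nat_lit 40)], [(nat_lit 0)], [((nat_lit 0), (nat_lit 0), (nat_lit 0))], ((nat_lit 58), (nat_lit 100), (nat_lit 52))⟩, (nat_lit 135656), (nat_lit 300), (nat_lit 406), (nat_lit 45587100), (nat_lit 1141015), [(nat_lit 1823484000)], [(nat_lit 0)], [(nat_lit 29560333520), (nat_lit 30432916002), (nat_lit 35107795350), (nat_lit 36297482000), (nat_lit 32571205893), (nat_lit 33136033790), (nat_lit 35870339800), (nat_lit 36622730900)], (nat_lit 1271251), (nat_lit 1271251), (nat_lit 1271251), (nat_lit 1271251), (nat_lit 230000), (nat_lit 2461251), [(nat_lit 490000)], [(nat_lit 0), (nat_lit 37), (nat_lit 317), (nat_lit 100), (nat_lit 24)]⟩,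
 ⟨⟨[(nat_lit 40), (nat_lit 60)], [(nat_lit 0), (nat_lit 832)], [((nat_lit 0), (nat_lit 0), (nat_lit 0)), ((nat_lit 1000), (nat_lit 659), (nat_lit 528))], ((nat_lit 69), (nat_lit 100), (nat_lit 45))⟩, (nat_lit 2414499), (nat_lit 80), (nat_lit 80), (nat_lit 0), (nat_lit 0), [(nat_lit 1987296000), (nat_lit 3209796000)], [], [(nat_lit 25363989038), (nat_lit 27555373274), (nat_lit 30237980880), (nat_lit 32033173536), (nat_lit 27497146130), (nat_lit 29393768441), (nat_lit 31721096856), (nat_lit 33307636728)], (nat_lit 0), (nat_lit 0), (nat_lit 0), (nat_lit 0), (nat_lit 0), (nat_lit 0), [], [(nat_lit 1), (nat_lit 38), (nat_lit 203), (nat_lit 0), (nat_lit 8)]⟩,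
 Rw.none⟩) (.spl (nat_lit 2) (nat_lit 200) (.trX (nat_lit 4) (nat_lit 0) (nat_lit 2) (nat_lit 44) (nat_lit 90) (nat_lit 100) (nat_lit 290) (.leaf ⟨(nat_lit 22), (nat_lit 978), (nat_lit 0), (nat_lit 0), (nat_lit 0), (nat_lit 4638), (nat_lit 3492), (nat_lit 0), (nat_lit 11715713442705), (nat_lit 0), (nat_lit 88000), [((nat_lit 400), [((nat_lit 43), (nat_lit 5), (nat_lit 22))])], ⟨(nat_lit 9), true, false, false, (nat_lit 363), (nat_lit 0), (nat_lit 2237), [(nat_lit 1807212), (nat_lit 1809233), (nat_lit 1850907), (nat_lit 1857380), (nat_lit 1967269), (nat_lit 1949998), (nat_lit 2012658), (nat_lit 1999837)]⟩, ⟨(nat_lit 3), false, false, true, (nat_lit 161), (nat_lit 0), (nat_lit 2237), [(nat_lit 1177178), (nat_lit 1196337), (nat_lit 1264568), (nat_lit 1292631), (nat_lit 1537178), (nat_lit 1512490), (nat_lit 1628279), (nat_lit 1612494)]⟩, (nat_lit 5126196), (nat_lit 32606656), (nat_lit 27136716), (nat_lit 7256628), (nat_lit 5), (nat_lit 0), [⟨(nat_lit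 0), (nat_lit 63), (nat_lit 45), (nat_lit 100), (nat_lit 204672810)⟩], [⟨(nat_lit 1), (nat_lit 90), (nat_lit 44), (nat_lit 100), (nat_lit 317344010)⟩], [⟨(nat_lit 1), (nat_lit 99), (nat_lit 44), (nat_lit 100), (nat_lit 50278917)⟩], [],
 ⟨⟨[(nat_lit 40), (nat_lit 60)], [(nat_lit 0), (nat_lit 1539)], [((nat_lit 0), (nat_lit 0), (nat_lit 0)), ((nat_lit 1000), (nat_lit 478), (nat_lit 704))], ((nat_lit 51), (nat_lit 100), (nat_lit 63))⟩, (nat_lit 67269), (nat_lit 300), (nat_lit 404), (nat_lit 45587101), (nat_lit 997816), [(nat_lit 1823484011), (nat_lit 2838752800)], [(nat_lit 0), (nat_lit 0)], [(nat_lit 31285443609), (nat_lit 32125915689), (nat_lit 36002604551), (nat_lit 37235188640), (nat_lit 32441441349), (nat_lit 33035618252), (nat_lit 34949901936), (nat_lit 35817508264)], (nat_lit 1271251), (nat_lit 1271251), (nat_lit 1271251), (nat_lit 1271251), (nat_lit 230000), (nat_lit 2089376), [(nat_lit 490000), (nat_lit 780000)], [(nat_lit 1), (nat_lit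 38), (nat_lit 289), (nat_lit 75), (nat_lit 15)]⟩,
 ⟨⟨[(nat_lit 40), (nat_lit 60), (nat_lit 80)], [(nat_lit 0), (nat_lit 832), (nat_lit 1534)], [((nat_lit 0), (nat_lit 0), (nat_lit 0)), ((nat_lit 1000), (nat_lit 659), (nat_lit 528)), ((nat_lit 1000), (nat_lit 650), (nat_lit 549))], ((nat_lit 64), (nat_lit 100), (nat_lit 58))⟩, (nat_lit 1696193), (nat_lit 92), (nat_lit 92), (nat_lit 0), (nat_lit 0), [(nat_lit 1987296000), (nat_lit 3209796000), (nat_lit 4584864000)], [], [(nat_lit 25719796735), (nat_lit 27711480301), (nat_lit 30237980880), (nat_lit 32033173536), (nat_lit 27663736322), (nat_lit 29393826445), (nat_lit 31721096856), (nat_lit 33307636728)], (nat_lit 0), (nat_lit 0), (nat_lit 0), (nat_lit 0), (nat_lit 0), (nat_lit 0), [], [(nat_lit 2), (nat_lit 44), (nat_lit 203), (nat_lit 0), (nat_lit 6)]⟩,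
 Rw.none⟩)) (.trZ (nat_lit 0) (nat_lit 2) (nat_lit 4) (nat_lit 100) (nat_lit 44) (nat_lit 90) (nat_lit 110) (.leaf ⟨(nat_lit 22), (nat_lit 978), (nat_lit 0), (nat_lit 0), (nat_lit 0), (nat_lit 4350), (nat_lit 3602), (nat_lit 0), (nat_lit 11606798359180), (nat_lit 0), (nat_lit 88000), [((nat_lit 400), [((nat_lit 43), (nat_lit 5), (nat_lit 22))])], ⟨(nat_lit 9), true, false, false, (nat_lit 363), (nat_lit 0), (nat_lit 2237), [(nat_lit 1807212), (nat_lit 1809233), (nat_lit 1850907), (nat_lit 1857380), (nat_lit 1967269), (nat_lit 1949998), (nat_lit 2012658), (nat_lit 1999837)]⟩, ⟨(nat_lit 5), false, false, true, (nat_lit 227), (nat_lit 0), (nat_lit 2237), [(nat_lit 1367570), (nat_lit 1383355), (nat_lit 1433113), (nat_lit 1455575), (nat_lit 1699546), (nat_lit 1674992), (nat_lit 1767872), (nat_lit 1749995)]⟩, (nat_lit 5570986), (nat_lit 30153357), (nat_lit 25235302), (nat_lit 11611341), (nat_lit 5), (nat_lit 0), [⟨(nat_lit 0), (nat_lit 63), (nat_lit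 45), (nat_lit 100), (nat_lit 150345196)⟩], [⟨(nat_lit 1), (nat_lit 76), (nat_lit 46), (nat_lit 100), (nat_lit 535508012)⟩], [], [],
 ⟨⟨[(nat_lit 40), (nat_lit 60)], [(nat_lit 0), (nat_lit 1539)], [((nat_lit 0), (nat_lit 0), (nat_lit 0)), ((nat_lit 1000), (nat_lit 478), (nat_lit 704))], ((nat_lit 51), (nat_lit 100), (nat_lit 63))⟩, (nat_lit 67270), (nat_lit 300), (nat_lit 306), (nat_lit 45587102), (nat_lit 774180), [(nat_lit 1823484061), (nat_lit 2838752800)], [(nat_lit 0), (nat_lit 0)], [(nat_lit 29844380522), (nat_lit 30755313854), (nat_lit 33719195496), (nat_lit 34426117309), (nat_lit 33322958950), (nat_lit 33944545794), (nat_lit 35943481777), (nat_lit 36696119550)], (nat_lit 1271251), (nat_lit 1271251), (nat_lit 1271251), (nat_lit 1271251), (nat_lit 704688), (nat_lit 2566251), [(nat_lit 490000), (nat_lit 780000)], [(nat_lit 1), (nat_lit 38), (nat_lit 317), (nat_lit 100), (nat_lit 16)]⟩,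
 ⟨⟨[(nat_lit 40), (nat_lit 60), (nat_lit 80)], [(nat_lit 0), (nat_lit 832), (nat_lit 1534)], [((nat_lit 0), (nat_lit 0), (nat_lit 0)), ((nat_lit 1000), (nat_lit 659), (nat_lit 528)), ((nat_lit 1000), (nat_lit 650), (nat_lit 549))], ((nat_lit 64), (nat_lit 100), (nat_lit 58))⟩, (nat_lit 1737788), (nat_lit 92), (nat_lit 92), (nat_lit 0), (nat_lit 0), [(nat_lit 1987296000), (nat_lit 3209796000), (nat_lit 4584864000)], [], [(nat_lit 25525202494), (nat_lit 27543436416), (nat_lit 30360331270), (nat_lit 32206463356), (nat_lit 27472642487), (nat_lit 29330821793), (nat_lit 31863609902), (nat_lit 33466606088)], (nat_lit 0), (nat_lit 0), (nat_lit 0), (nat_lit 0), (nat_lit 0), (nat_lit 0), [], [(nat_lit 2), (nat_lit 44), (nat_lit 203), (nat_lit 0), (nat_lit 6)]⟩,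
 Rw.none⟩)))))) (.spl (nat_lit 2) (nat_lit 200) (.trX (nat_lit 4) (nat_lit 0) (nat_lit 2) (nat_lit 44) (nat_lit 90) (nat_lit 100) (nat_lit 290) (.leaf ⟨(nat_lit 22), (nat_lit 978), (nat_lit 0), (nat_lit 0), (nat_lit 0), (nat_lit 5134), (nat_lit 4937), (nat_lit 0), (nat_lit 10051911116357), (nat_lit 0), (nat_lit 88000), [((nat_lit 400), [((nat_lit 43), (nat_lit 5), (nat_lit 22))])], ⟨(nat_lit 8), true, false, false, (nat_lit 337), (nat_lit 0), (nat_lit 2237), [(nat_lit 1675230), (nat_lit 1683322), (nat_lit 1762621), (nat_lit 1779617), (nat_lit 1921719), (nat_lit 1899996), (nat_lit 2012658), (nat_lit 1999837)]⟩, ⟨(nat_lit 3), false, false, true, (nat_lit 161), (nat_lit 0), (nat_lit 2237), [(nat_lit 1177178), (nat_lit 1196337), (nat_lit 1264568), (nat_lit 1292631), (nat_lit 1537178), (nat_lit 1512490), (nat_lit 1628279), (nat_lit 1612494)]⟩, (nat_lit 5125597), (nat_lit 34458594), (nat_lit 24967952), (nat_lit 7573454), (nat_lit 5), (nat_lit 0),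 [⟨(nat_lit 0), (nat_lit 73), (nat_lit 38), (nat_lit 100), (nat_lit 411887613)⟩], [⟨(nat_lit 1), (nat_lit 90), (nat_lit 44), (nat_lit 100), (nat_lit 287215647)⟩], [], [],
 ⟨⟨[(nat_lit 40), (nat_lit 60), (nat_lit 80)], [(nat_lit 0), (nat_lit 1539), (nat_lit 2453)], [((nat_lit 0), (nat_lit 0), (nat_lit 0)), ((nat_lit 1000), (nat_lit 478), (nat_lit 704)), ((nat_lit 1000), (nat_lit 474), (nat_lit 714))], ((nat_lit 46), (nat_lit 100), (nat_lit 75))⟩, (nat_lit 131631), (nat_lit 300), (nat_lit 415), (nat_lit 45587101), (nat_lit 889732), [(nat_lit 1823484001), (nat_lit 2899998503), (nat_lit 3969858400)], [(nat_lit 0), (nat_lit 0), (nat_lit 0)], [(nat_lit 31867769190), (nat_lit 32752853869), (nat_lit 37315697343), (nat_lit 38611231520), (nat_lit 32519828510), (nat_lit 33135796293), (nat_lit 35627573848), (nat_lit 36532902952)], (nat_lit 1271251), (nat_lit 1271251), (nat_lit 1271251), (nat_lit 1271251), (nat_lit 230000), (nat_lit 2089376), [(nat_lit 490000),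 (nat_lit 780000), (nat_lit 1100000)], [(nat_lit 2), (nat_lit 44), (nat_lit 289), (nat_lit 75), (nat_lit 12)]⟩,
 ⟨⟨[(nat_lit 40), (nat_lit 80), (nat_lit 120)], [(nat_lit 0), (nat_lit 0), (nat_lit 2151)], [((nat_lit 0), (nat_lit 0), (nat_lit 0)), ((nat_lit 0), (nat_lit 0), (nat_lit 0)), ((nat_lit 1000), (nat_lit 815), (nat_lit 753))], ((nat_lit 81), (nat_lit 100), (nat_lit 72))⟩, (nat_lit 1763932), (nat_lit 114), (nat_lit 114), (nat_lit 0), (nat_lit 0), [(nat_lit 1987296000), (nat_lit 4584864000), (nat_lit 7792704000)], [], [(nat_lit 23550306999), (nat_lit 28453088742), (nat_lit 31000526820), (nat_lit 34395654132), (nat_lit 25972201697), (nat_lit 30154580470), (nat_lit 32249857752), (nat_lit 35395916048)], (nat_lit 0), (nat_lit 0), (nat_lit 0), (nat_lit 0), (nat_lit 0), (nat_lit 0), [], [(nat_lit 4), (nat_lit 51), (nat_lit 401), (nat_lit 175), (nat_lit 12)]⟩,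
 Rw.none⟩)) (.trZ (nat_lit 0) (nat_lit 2) (nat_lit 4) (nat_lit 100) (nat_lit 44) (nat_lit 90) (nat_lit 110) (.leaf ⟨(nat_lit 22), (nat_lit 861), (nat_lit 0), (nat_lit 117), (nat_lit 0), (nat_lit 4750), (nat_lit 4937), (nat_lit 1223), (nat_lit 6678875347211), (nat_lit 0), (nat_lit 88000), [((nat_lit 400), [((nat_lit 43), (nat_lit 5), (nat_lit 22))])], ⟨(nat_lit 8), true, false, false, (nat_lit 337), (nat_lit 0), (nat_lit 2237), [(nat_lit 1675230), (nat_lit 1683322), (nat_lit 1762621), (nat_lit 1779617), (nat_lit 1921719), (nat_lit 1899996), (nat_lit 2012658), (nat_lit 1999837)]⟩, ⟨(nat_lit 5), false, false, true, (nat_lit 227), (nat_lit 0), (nat_lit 2237), [(nat_lit 1367570), (nat_lit 1383355), (nat_lit 1433113), (nat_lit 1455575), (nat_lit 1699546), (nat_lit 1674992), (nat_lit 1767872), (nat_lit 1749995)]⟩, (nat_lit 5571757), (nat_lit 31697539), (nat_lit 23199489), (nat_lit 12102972), (nat_lit 5), (nat_lit 0), [⟨(nat_lit 0), (nat_lit 73), (nat_lit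 38), (nat_lit 100), (nat_lit 365083688)⟩], [⟨(nat_lit 1), (nat_lit 90), (nat_lit 32), (nat_lit 100), (nat_lit 485741429)⟩], [], [],
 ⟨⟨[(nat_lit 40), (nat_lit 60), (nat_lit 80)], [(nat_lit 0), (nat_lit 1539), (nat_lit 2453)], [((nat_lit 0), (nat_lit 0), (nat_lit 0)), ((nat_lit 1000), (nat_lit 478), (nat_lit 704)), ((nat_lit 1000), (nat_lit 474), (nat_lit 714))], ((nat_lit 46), (nat_lit 100), (nat_lit 75))⟩, (nat_lit 131631), (nat_lit 300), (nat_lit 303), (nat_lit 45587101), (nat_lit 671267), [(nat_lit 1823484001), (nat_lit 2900783629), (nat_lit 3969858400)], [(nat_lit 0), (nat_lit 0), (nat_lit 0)], [(nat_lit 29228179462), (nat_lit 30242617168), (nat_lit 34626678761), (nat_lit 35319645353), (nat_lit 32890395963), (nat_lit 33570035816), (nat_lit 36506435500), (nat_lit 37283228750)], (nat_lit 1271251), (nat_lit 1271251), (nat_lit 1271251), (nat_lit 1271251), (nat_lit 704688), (nat_lit 2566251), [(nat_lit 490000), (nat_lit 780000), (nat_lit 1100000)],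 [(nat_lit 2), (nat_lit 44), (nat_lit 317), (nat_lit 100), (nat_lit 13)]⟩,
 ⟨⟨[(nat_lit 40), (nat_lit 80), (nat_lit 120)], [(nat_lit 0), (nat_lit 0), (nat_lit 2151)], [((nat_lit 0), (nat_lit 0), (nat_lit 0)), ((nat_lit 0), (nat_lit 0), (nat_lit 0)), ((nat_lit 1000), (nat_lit 815), (nat_lit 753))], ((nat_lit 81), (nat_lit 100), (nat_lit 72))⟩, (nat_lit 1581475), (nat_lit 114), (nat_lit 114), (nat_lit 0), (nat_lit 0), [(nat_lit 1987296000), (nat_lit 4584864000), (nat_lit 7792704000)], [], [(nat_lit 23942772006), (nat_lit 28845553749), (nat_lit 31392991827), (nat_lit 34599797215), (nat_lit 26364666704), (nat_lit 30547045477), (nat_lit 32642227965), (nat_lit 35395916048)], (nat_lit 0), (nat_lit 0), (nat_lit 0), (nat_lit 0), (nat_lit 0), (nat_lit 0), [], [(nat_lit 4), (nat_lit 51), (nat_lit 401), (nat_lit 175), (nat_lit 12)]⟩,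
 ⟨⟨[(nat_lit 100), (nat_lit 140), (nat_lit 180)], [(nat_lit 0), (nat_lit 0), (nat_lit 2434)], [((nat_lit 0), (nat_lit 0), (nat_lit 0)), ((nat_lit 0), (nat_lit 0), (nat_lit 0)), ((nat_lit 726), (nat_lit 1000), (nat_lit 688))], ((nat_lit 100), (nat_lit 70), (nat_lit 71))⟩, (nat_lit 67489), (nat_lit 300), (nat_lit 2014), (nat_lit 8225100), (nat_lit 3677664), [(nat_lit 731250000), (nat_lit 1151514000), (nat_lit 1644786000)], [], [(nat_lit 6390524159), (nat_lit 6184208627), (nat_lit 6153839370), (nat_lit 5384031228), (nat_lit 6122777523), (nat_lit 5916047120), (nat_lit 5321969422), (nat_lit 5150001222)], (nat_lit 1271251), (nat_lit 1271251), (nat_lit 704688), (nat_lit 2566251), (nat_lit 1271251), (nat_lit 1271251), [(nat_lit 1412501), (nat_lit 1271251), (nat_lit 1271251)], [(nat_lit 24), (nat_lit 63), (nat_lit 614), (nat_lit 225), (nat_lit 14)]⟩⟩))))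
noncomputable def c15_5 : Tr Lf :=
 (.spl (nat_lit 2) (nat_lit 200) (.trX (nat_lit 4) (nat_lit 0) (nat_lit 2) (nat_lit 44) (nat_lit 90) (nat_lit 100) (nat_lit 290) (.trX (nat_lit 5) (nat_lit 1) (nat_lit 2) (nat_lit 80) (nat_lit 60) (nat_lit 100) (nat_lit 360) (.spl (nat_lit 6) (nat_lit 32) (.spl (nat_lit 1) (nat_lit 360) (.leaf ⟨(nat_lit 22), (nat_lit 978), (nat_lit 0), (nat_lit 0), (nat_lit 0), (nat_lit 5132), (nat_lit 5105), (nat_lit 0), (nat_lit 0), (nat_lit 0), (nat_lit 88000), [((nat_lit 400), [((nat_lit 43), (nat_lit 5), (nat_lit 22))])], ⟨(nat_lit 8), true, false, false, (nat_lit 327), (nat_lit 0), (nat_lit 2237), [(nat_lit 1675230), (nat_lit 1683322), (nat_lit 1718925), (nat_lit 1731469), (nat_lit 1921719), (nat_lit 1899996), (nat_lit 1967269), (nat_lit 1949998)]⟩, ⟨(nat_lit 3), false, false, true, (nat_lit 161), (nat_lit 0), (nat_lit 2237), [(nat_lit 1177178), (nat_lit 1196337), (nat_lit 1264568), (nat_lit 1292631), (nat_lit 1537178),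 (nat_lit 1512490), (nat_lit 1628279), (nat_lit 1612494)]⟩, (nat_lit 5118777), (nat_lit 35145189), (nat_lit 24167852), (nat_lit 7686959), (nat_lit 7), (nat_lit 0), [⟨(nat_lit 0), (nat_lit 82), (nat_lit 44), (nat_lit 100), (nat_lit 24270952)⟩], [⟨(nat_lit 1), (nat_lit 90), (nat_lit 44), (nat_lit 100), (nat_lit 261390175)⟩], [⟨(nat_lit 1), (nat_lit 85), (nat_lit 73), (nat_lit 100), (nat_lit 237133384)⟩, ⟨(nat_lit 1), (nat_lit 60), (nat_lit 80), (nat_lit 100), (nat_lit 296782790)⟩], [],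
 ⟨⟨[(nat_lit 40), (nat_lit 60)], [(nat_lit 0), (nat_lit 1539)], [((nat_lit 0), (nat_lit 0), (nat_lit 0)), ((nat_lit 1000), (nat_lit 478), (nat_lit 704))], ((nat_lit 51), (nat_lit 100), (nat_lit 63))⟩, (nat_lit 469699), (nat_lit 300), (nat_lit 382), (nat_lit 45587101), (nat_lit 920935), [(nat_lit 1823484001), (nat_lit 2838752800)], [(nat_lit 0), (nat_lit 0)], [(nat_lit 27298536078), (nat_lit 29238948795), (nat_lit 37310402614), (nat_lit 38605682960), (nat_lit 28766600807), (nat_lit 30111950156), (nat_lit 35624830180), (nat_lit 36530018296)], (nat_lit 1271251), (nat_lit 1271251), (nat_lit 1271251), (nat_lit 1271251), (nat_lit 230000), (nat_lit 2089376), [(nat_lit 490000), (nat_lit 780000)], [(nat_lit 1), (nat_lit 38), (nat_lit 289), (nat_lit 75), (nat_lit 15)]⟩,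
 ⟨⟨[(nat_lit 40), (nat_lit 80), (nat_lit 100)], [(nat_lit 0), (nat_lit 0), (nat_lit 1280)], [((nat_lit 0), (nat_lit 0), (nat_lit 0)), ((nat_lit 0), (nat_lit 0), (nat_lit 0)), ((nat_lit 1000), (nat_lit 800), (nat_lit 600))], ((nat_lit 80), (nat_lit 100), (nat_lit 54))⟩, (nat_lit 2266621), (nat_lit 84), (nat_lit 84), (nat_lit 0), (nat_lit 0), [(nat_lit 1987296000), (nat_lit 4584864000), (nat_lit 6112500000)], [], [(nat_lit 24843918620), (nat_lit 27290859842), (nat_lit 32221746648), (nat_lit 33814263422), (nat_lit 28844030436), (nat_lit 30837246215), (nat_lit 34827610562), (nat_lit 36308783840)], (nat_lit 0), (nat_lit 0), (nat_lit 0), (nat_lit 0), (nat_lit 0), (nat_lit 0), [], [(nat_lit 3), (nat_lit 50), (nat_lit 203), (nat_lit 0), (nat_lit 5)]⟩,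
 Rw.none⟩) (.trZ (nat_lit 0) (nat_lit 1) (nat_lit 3) (nat_lit 68) (nat_lit 49) (nat_lit 100) (nat_lit 290) (.trX (nat_lit 5) (nat_lit 1) (nat_lit 2) (nat_lit 60) (nat_lit 80) (nat_lit 100) (nat_lit 320) (.trZ (nat_lit 5) (nat_lit 3) (nat_lit 4) (nat_lit 97) (nat_lit 100) (nat_lit 84) (nat_lit 70) (.leaf ⟨(nat_lit 22), (nat_lit 978), (nat_lit 0), (nat_lit 0), (nat_lit 0), (nat_lit 4930), (nat_lit 3613), (nat_lit 0), (nat_lit 2850265), (nat_lit 0), (nat_lit 88000), [((nat_lit 400), [((nat_lit 43), (nat_lit 5), (nat_lit 22))])], ⟨(nat_lit 9), true, false, false, (nat_lit 363), (nat_lit 0), (nat_lit 2237), [(nat_lit 1807212), (nat_lit 1809233), (nat_lit 1850907), (nat_lit 1857380), (nat_lit 1967269), (nat_lit 1949998), (nat_lit 2012658), (nat_lit 1999837)]⟩, ⟨(nat_lit 3), false, false, true, (nat_lit 169), (nat_lit 0), (nat_lit 2237), [(nat_lit 1221320), (nat_lit 1235218), (nat_lit 1308712), (nat_lit 1331512), (nat_lit 1537178), (nat_lit 1512490),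 (nat_lit 1628279), (nat_lit 1612494)]⟩, (nat_lit 5192844), (nat_lit 32306385), (nat_lit 26906556), (nat_lit 7787059), (nat_lit 7), (nat_lit 0), [], [⟨(nat_lit 1), (nat_lit 90), (nat_lit 44), (nat_lit 100), (nat_lit 356526593)⟩], [⟨(nat_lit 1), (nat_lit 80), (nat_lit 60), (nat_lit 100), (nat_lit 618165607)⟩], [],
 ⟨⟨[(nat_lit 40), (nat_lit 60)], [(nat_lit 0), (nat_lit 1539)], [((nat_lit 0), (nat_lit 0), (nat_lit 0)), ((nat_lit 1000), (nat_lit 478), (nat_lit 704))], ((nat_lit 51), (nat_lit 100), (nat_lit 63))⟩, (nat_lit 517041), (nat_lit 300), (nat_lit 437), (nat_lit 45587101), (nat_lit 1143561), [(nat_lit 1823484025), (nat_lit 2838752800)], [(nat_lit 0), (nat_lit 0)], [(nat_lit 30282940909), (nat_lit 31070008219), (nat_lit 35151031339), (nat_lit 36404143640), (nat_lit 31640719906), (nat_lit 32208268729), (nat_lit 35347719763), (nat_lit 36238668040)], (nat_lit 1271251), (nat_lit 1271251), (nat_lit 1271251), (nat_lit 1271251), (nat_lit 422188),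 (nat_lit 2120313), [(nat_lit 490000), (nat_lit 780000)], [(nat_lit 1), (nat_lit 38), (nat_lit 289), (nat_lit 75), (nat_lit 15)]⟩,
 ⟨⟨[(nat_lit 40), (nat_lit 60), (nat_lit 80)], [(nat_lit 0), (nat_lit 832), (nat_lit 1534)], [((nat_lit 0), (nat_lit 0), (nat_lit 0)), ((nat_lit 1000), (nat_lit 659), (nat_lit 528)), ((nat_lit 1000), (nat_lit 650), (nat_lit 549))], ((nat_lit 64), (nat_lit 100), (nat_lit 58))⟩, (nat_lit 2520995), (nat_lit 84), (nat_lit 84), (nat_lit 0), (nat_lit 0), [(nat_lit 1987296000), (nat_lit 3209796000), (nat_lit 4584864000)], [], [(nat_lit 27401272672), (nat_lit 29342309603), (nat_lit 31877886142), (nat_lit 33482503024), (nat_lit 28692833075), (nat_lit 30553697084), (nat_lit 32870348266), (nat_lit 34345715976)], (nat_lit 0), (nat_lit 0), (nat_lit 0), (nat_lit 0), (nat_lit 0), (nat_lit 0), [], [(nat_lit 2), (nat_lit 44), (nat_lit 203), (nat_lit 0), (nat_lit 6)]⟩,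
 Rw.none⟩))))) (.spl (nat_lit 1) (nat_lit 360) (.leaf ⟨(nat_lit 22), (nat_lit 978), (nat_lit 0), (nat_lit 0), (nat_lit 0), (nat_lit 5523), (nat_lit 5214), (nat_lit 0), (nat_lit 0), (nat_lit 0), (nat_lit 88000), [((nat_lit 400), [((nat_lit 43), (nat_lit 5), (nat_lit 22))])], ⟨(nat_lit 8), true, false, false, (nat_lit 327), (nat_lit 0), (nat_lit 2237), [(nat_lit 1675230), (nat_lit 1683322), (nat_lit 1718925), (nat_lit 1731469), (nat_lit 1921719), (nat_lit 1899996), (nat_lit 1967269), (nat_lit 1949998)]⟩, ⟨(nat_lit 3), false, false, true, (nat_lit 161), (nat_lit 0), (nat_lit 2237), [(nat_lit 1177178), (nat_lit 1196337), (nat_lit 1264568), (nat_lit 1292631), (nat_lit 1537178), (nat_lit 1512490), (nat_lit 1628279), (nat_lit 1612494)]⟩, (nat_lit 5118777), (nat_lit 35145189), (nat_lit 24167852), (nat_lit 7686959), (nat_lit 7), (nat_lit 0), [⟨(nat_lit 0), (nat_lit 80), (nat_lit 35), (nat_lit 100), (nat_lit 41573413)⟩], [⟨(nat_lit 1), (nat_lit 100),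 (nat_lit 31), (nat_lit 99), (nat_lit 15329419)⟩, ⟨(nat_lit 1), (nat_lit 90), (nat_lit 44), (nat_lit 100), (nat_lit 219187396)⟩], [⟨(nat_lit 1), (nat_lit 85), (nat_lit 73), (nat_lit 100), (nat_lit 80981830)⟩, ⟨(nat_lit 1), (nat_lit 60), (nat_lit 80), (nat_lit 100), (nat_lit 457862496)⟩], [],
 ⟨⟨[(nat_lit 40), (nat_lit 60), (nat_lit 80)], [(nat_lit 0), (nat_lit 1539), (nat_lit 2453)], [((nat_lit 0), (nat_lit 0), (nat_lit 0)), ((nat_lit 1000), (nat_lit 478), (nat_lit 704)), ((nat_lit 1000), (nat_lit 474), (nat_lit 714))], ((nat_lit 46), (nat_lit 100), (nat_lit 75))⟩, (nat_lit 131631), (nat_lit 300), (nat_lit 350), (nat_lit 45587101), (nat_lit 695452), [(nat_lit 1823484001), (nat_lit 2904754306), (nat_lit 3969858400)], [(nat_lit 0), (nat_lit 0), (nat_lit 0)], [(nat_lit 29095737345), (nat_lit 30152799709), (nat_lit 38345522134), (nat_lit 39690426440), (nat_lit 29803269637), (nat_lit 30529159751), (nat_lit 36161217177), (nat_lit 37093968544)], (nat_lit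 1271251), (nat_lit 1271251), (nat_lit 1271251), (nat_lit 1271251), (nat_lit 230000), (nat_lit 2089376), [(nat_lit 490000), (nat_lit 780000), (nat_lit 1100000)], [(nat_lit 2), (nat_lit 44), (nat_lit 289), (nat_lit 75), (nat_lit 12)]⟩,
 ⟨⟨[(nat_lit 40), (nat_lit 80), (nat_lit 120)], [(nat_lit 0), (nat_lit 0), (nat_lit 2151)], [((nat_lit 0), (nat_lit 0), (nat_lit 0)), ((nat_lit 0), (nat_lit 0), (nat_lit 0)), ((nat_lit 1000), (nat_lit 815), (nat_lit 753))], ((nat_lit 81), (nat_lit 100), (nat_lit 72))⟩, (nat_lit 1842653), (nat_lit 84), (nat_lit 84), (nat_lit 0), (nat_lit 0), [(nat_lit 1987296000), (nat_lit 4584864000), (nat_lit 7792704000)], [], [(nat_lit 25585490567), (nat_lit 27732154189), (nat_lit 32203507896), (nat_lit 33955727982), (nat_lit 29061808179), (nat_lit 30814522242), (nat_lit 34970600904), (nat_lit 36462125040)], (nat_lit 0), (nat_lit 0), (nat_lit 0), (nat_lit 0), (nat_lit 0), (nat_lit 0), [], [(nat_lit 4), (nat_lit 51), (nat_lit 317),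 (nat_lit 100), (nat_lit 9)]⟩,
 Rw.none⟩) (.trZ (nat_lit 0) (nat_lit 1) (nat_lit 3) (nat_lit 68) (nat_lit 49) (nat_lit 100) (nat_lit 290) (.trX (nat_lit 5) (nat_lit 1) (nat_lit 2) (nat_lit 60) (nat_lit 80) (nat_lit 100) (nat_lit 320) (.trZ (nat_lit 5) (nat_lit 3) (nat_lit 4) (nat_lit 97) (nat_lit 100) (nat_lit 84) (nat_lit 70) (.leaf ⟨(nat_lit 22), (nat_lit 978), (nat_lit 0), (nat_lit 0), (nat_lit 0), (nat_lit 5331), (nat_lit 3613), (nat_lit 0), (nat_lit 226482), (nat_lit 0), (nat_lit 88000), [((nat_lit 400), [((nat_lit 43), (nat_lit 5), (nat_lit 22))])], ⟨(nat_lit 9), true, false, false, (nat_lit 363), (nat_lit 0), (nat_lit 2237), [(nat_lit 1807212), (nat_lit 1809233), (nat_lit 1850907), (nat_lit 1857380), (nat_lit 1967269), (nat_lit 1949998), (nat_lit 2012658), (nat_lit 1999837)]⟩, ⟨(nat_lit 3), false, false, true, (nat_lit 169), (nat_lit 0), (nat_lit 2237), [(nat_lit 1221320), (nat_lit 1235218), (nat_lit 1308712), (nat_lit 1331512), (nat_lit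 1537178), (nat_lit 1512490), (nat_lit 1628279), (nat_lit 1612494)]⟩, (nat_lit 5192844), (nat_lit 32306385), (nat_lit 26906556), (nat_lit 7787059), (nat_lit 7), (nat_lit 0), [], [⟨(nat_lit 1), (nat_lit 90), (nat_lit 44), (nat_lit 100), (nat_lit 337845613)⟩], [⟨(nat_lit 1), (nat_lit 99), (nat_lit 44), (nat_lit 100), (nat_lit 4892617)⟩, ⟨(nat_lit 1), (nat_lit 80), (nat_lit 60), (nat_lit 100), (nat_lit 623001435)⟩], [],
 ⟨⟨[(nat_lit 40), (nat_lit 60), (nat_lit 80)], [(nat_lit 0), (nat_lit 1539), (nat_lit 2453)], [((nat_lit 0), (nat_lit 0), (nat_lit 0)), ((nat_lit 1000), (nat_lit 478), (nat_lit 704)), ((nat_lit 1000), (nat_lit 474), (nat_lit 714))], ((nat_lit 46), (nat_lit 100), (nat_lit 75))⟩, (nat_lit 131631), (nat_lit 300), (nat_lit 396), (nat_lit 45587101), (nat_lit 889340), [(nat_lit 1823484001), (nat_lit 2902499968), (nat_lit 3969858400)], [(nat_lit 0), (nat_lit 0), (nat_lit 0)], [(nat_lit 31425627618), (nat_lit 32236554607), (nat_lit 36050712283),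 (nat_lit 37353991538), (nat_lit 32236934144), (nat_lit 32813035864), (nat_lit 35897825097), (nat_lit 36817041568)], (nat_lit 1271251), (nat_lit 1271251), (nat_lit 1271251), (nat_lit 1271251), (nat_lit 422188), (nat_lit 2120313), [(nat_lit 490000), (nat_lit 780000), (nat_lit 1100000)], [(nat_lit 2), (nat_lit 44), (nat_lit 289), (nat_lit 75), (nat_lit 11)]⟩,
 ⟨⟨[(nat_lit 40), (nat_lit 80), (nat_lit 100)], [(nat_lit 0), (nat_lit 1598), (nat_lit 2533)], [((nat_lit 0), (nat_lit 0), (nat_lit 0)), ((nat_lit 1000), (nat_lit 625), (nat_lit 623)), ((nat_lit 1000), (nat_lit 604), (nat_lit 730))], ((nat_lit 61), (nat_lit 100), (nat_lit 72))⟩, (nat_lit 1790991), (nat_lit 89), (nat_lit 89), (nat_lit 0), (nat_lit 0), [(nat_lit 1987296000), (nat_lit 4584864000), (nat_lit 6112500000)], [], [(nat_lit 27586204686), (nat_lit 29342309603), (nat_lit 31877886142), (nat_lit 33482503024), (nat_lit 28692833075), (nat_lit 30553697084), (nat_lit 32870348266), (nat_lit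 34345715976)], (nat_lit 0), (nat_lit 0), (nat_lit 0), (nat_lit 0), (nat_lit 0), (nat_lit 0), [], [(nat_lit 3), (nat_lit 50), (nat_lit 203), (nat_lit 0), (nat_lit 5)]⟩,
 Rw.none⟩)))))))) (.trZ (nat_lit 0) (nat_lit 2) (nat_lit 4) (nat_lit 100) (nat_lit 44) (nat_lit 90) (nat_lit 110) (.stt (nat_lit 1) (.spl (nat_lit 6) (nat_lit 32) (.spl (nat_lit 1) (nat_lit 360) (.leaf ⟨(nat_lit 22), (nat_lit 869), (nat_lit 0), (nat_lit 109), (nat_lit 0), (nat_lit 3613), (nat_lit 5105), (nat_lit 1123), (nat_lit 0), (nat_lit 0), (nat_lit 88000), [((nat_lit 400), [((nat_lit 43), (nat_lit 5), (nat_lit 22))])], ⟨(nat_lit 8), true, false, false, (nat_lit 327), (nat_lit 0), (nat_lit 2237), [(nat_lit 1675230), (nat_lit 1683322), (nat_lit 1718925), (nat_lit 1731469), (nat_lit 1921719), (nat_lit 1899996), (nat_lit 1967269), (nat_lit 1949998)]⟩, ⟨(nat_lit 5), false, false, true, (nat_lit 227), (nat_lit 0), (nat_lit 2237), [(nat_lit 1367570), (nat_lit 1383355), (nat_lit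 1433113), (nat_lit 1455575), (nat_lit 1699546), (nat_lit 1674992), (nat_lit 1767872), (nat_lit 1749995)]⟩, (nat_lit 5566048), (nat_lit 32267247), (nat_lit 22452325), (nat_lit 12280428), (nat_lit 7), (nat_lit 0), [⟨(nat_lit 0), (nat_lit 82), (nat_lit 44), (nat_lit 100), (nat_lit 120242707)⟩], [⟨(nat_lit 1), (nat_lit 76), (nat_lit 46), (nat_lit 100), (nat_lit 380697341)⟩], [⟨(nat_lit 1), (nat_lit 59), (nat_lit 72), (nat_lit 100), (nat_lit 357327711)⟩, ⟨(nat_lit 1), (nat_lit 35), (nat_lit 84), (nat_lit 100), (nat_lit 103535904)⟩], [],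
 ⟨⟨[(nat_lit 40), (nat_lit 60)], [(nat_lit 0), (nat_lit 1539)], [((nat_lit 0), (nat_lit 0), (nat_lit 0)), ((nat_lit 1000), (nat_lit 478), (nat_lit 704))], ((nat_lit 51), (nat_lit 100), (nat_lit 63))⟩, (nat_lit 599783), (nat_lit 99), (nat_lit 99), (nat_lit 0), (nat_lit 0), [(nat_lit 1823484022), (nat_lit 2838752800)], [(nat_lit 0), (nat_lit 0)], [(nat_lit 23884284346), (nat_lit 25181193739), (nat_lit 31674450465), (nat_lit 32724700331), (nat_lit 29393713574), (nat_lit 30449719582), (nat_lit 34899233698), (nat_lit 35614370849)], (nat_lit 0), (nat_lit 0), (nat_lit 0), (nat_lit 0), (nat_lit 0), (nat_lit 0), [], [(nat_lit 1), (nat_lit 38), (nat_lit 317), (nat_lit 100), (nat_lit 17)]⟩,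
 ⟨⟨[(nat_lit 40), (nat_lit 80), (nat_lit 100)], [(nat_lit 0), (nat_lit 0), (nat_lit 1280)], [((nat_lit 0), (nat_lit 0), (nat_lit 0)), ((nat_lit 0), (nat_lit 0), (nat_lit 0)), ((nat_lit 1000), (nat_lit 800), (nat_lit 600))], ((nat_lit 80), (nat_lit 100), (nat_lit 54))⟩, (nat_lit 1390834), (nat_lit 90), (nat_lit 90), (nat_lit 0), (nat_lit 0), [(nat_lit 1987296000), (nat_lit 4584864000), (nat_lit 6112500000)], [], [(nat_lit 25214746971), (nat_lit 27505416264), (nat_lit 32221746648), (nat_lit 33814263422), (nat_lit 30510058807), (nat_lit 32332158050), (nat_lit 36070593919), (nat_lit 37419663799)], (nat_lit 0), (nat_lit 0), (nat_lit 0), (nat_lit 0), (nat_lit 0), (nat_lit 0), [], [(nat_lit 3), (nat_lit 50), (nat_lit 203), (nat_lit 0), (nat_lit 5)]⟩,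
 ⟨⟨[(nat_lit 100), (nat_lit 140), (nat_lit 160)], [(nat_lit 0), (nat_lit 0), (nat_lit 1280)], [((nat_lit 0), (nat_lit 0), (nat_lit 0)), ((nat_lit 0), (nat_lit 0), (nat_lit 0)), ((nat_lit 800), (nat_lit 1000), (nat_lit 600))], ((nat_lit 100), (nat_lit 84), (nat_lit 54))⟩, (nat_lit 53138), (nat_lit 300), (nat_lit 2171), (nat_lit 7662700), (nat_lit 4156304), [(nat_lit 681250000), (nat_lit 1072778000), (nat_lit 1294048000)], [], [(nat_lit 5495023210), (nat_lit 5318538989), (nat_lit 4811122079), (nat_lit 4634014217), (nat_lit 5231979682), (nat_lit 5053888618), (nat_lit 4542737442), (nat_lit 4364458771)], (nat_lit 1271251), (nat_lit 1271251), (nat_lit 704688), (nat_lit 2566251), (nat_lit 1271251), (nat_lit 1271251), [(nat_lit 1412501), (nat_lit 1271251), (nat_lit 1271251)], [(nat_lit 23), (nat_lit 62), (nat_lit 667), (nat_lit 250), (nat_lit 16)]⟩⟩) (.trZ (nat_lit 0) (nat_lit 1) (nat_lit 3) (nat_lit 68) (nat_lit 49) (nat_lit 100) (nat_lit 290) (.trX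 (nat_lit 5) (nat_lit 1) (nat_lit 2) (nat_lit 63) (nat_lit 61) (nat_lit 100) (nat_lit 370) (.leaf ⟨(nat_lit 0), (nat_lit 1000), (nat_lit 0), (nat_lit 0), (nat_lit 0), (nat_lit 4083), (nat_lit 3944), (nat_lit 0), (nat_lit 132901), (nat_lit 0), (nat_lit 0), [], Pd.none, Pd.none, (nat_lit 0), (nat_lit 1), (nat_lit 0), (nat_lit 0), (nat_lit 7), (nat_lit 0), [], [⟨(nat_lit 1), (nat_lit 76), (nat_lit 46), (nat_lit 100), (nat_lit 542700939)⟩], [⟨(nat_lit 1), (nat_lit 61), (nat_lit 63), (nat_lit 100), (nat_lit 635422474)⟩], [],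
 ⟨⟨[(nat_lit 40), (nat_lit 60)], [(nat_lit 0), (nat_lit 1539)], [((nat_lit 0), (nat_lit 0), (nat_lit 0)), ((nat_lit 1000), (nat_lit 478), (nat_lit 704))], ((nat_lit 51), (nat_lit 100), (nat_lit 63))⟩, (nat_lit 223726), (nat_lit 99), (nat_lit 99), (nat_lit 0), (nat_lit 0), [(nat_lit 2032000027), (nat_lit 3282000000)], [], [(nat_lit 26848464452), (nat_lit 28067501544), (nat_lit 32573466994), (nat_lit 33679387126), (nat_lit 31538452898), (nat_lit 32523297281), (nat_lit 35563600318), (nat_lit 36304224159)], (nat_lit 0), (nat_lit 0), (nat_lit 0), (nat_lit 0), (nat_lit 0), (nat_lit 0), [], [(nat_lit 1), (nat_lit 38), (nat_lit 317), (nat_lit 100), (nat_lit 16)]⟩,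
 ⟨⟨[(nat_lit 40), (nat_lit 60), (nat_lit 80)], [(nat_lit 0), (nat_lit 832), (nat_lit 1534)], [((nat_lit 0), (nat_lit 0), (nat_lit 0)), ((nat_lit 1000), (nat_lit 659), (nat_lit 528)), ((nat_lit 1000), (nat_lit 650), (nat_lit 549))], ((nat_lit 64), (nat_lit 100), (nat_lit 58))⟩, (nat_lit 1215798), (nat_lit 87), (nat_lit 87), (nat_lit 0), (nat_lit 0), [(nat_lit 2032000000), (nat_lit 3282000000), (nat_lit 4688000000)], [], [(nat_lit 28649348451), (nat_lit 30488632454), (nat_lit 32919079960), (nat_lit 34596586144), (nat_lit 31791743601), (nat_lit 33584371212), (nat_lit 35679033232), (nat_lit 37035951136)], (nat_lit 0), (nat_lit 0), (nat_lit 0), (nat_lit 0), (nat_lit 0), (nat_lit 0), [], [(nat_lit 2), (nat_lit 44), (nat_lit 203), (nat_lit 0), (nat_lit 6)]⟩,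
 Rw.none⟩)))) (.leaf ⟨(nat_lit 0), (nat_lit 842), (nat_lit 0), (nat_lit 158), (nat_lit 0), (nat_lit 3597), (nat_lit 5048), (nat_lit 1652), (nat_lit 253659), (nat_lit 0), (nat_lit 0), [], Pd.none, Pd.none, (nat_lit 0), (nat_lit 1), (nat_lit 0), (nat_lit 0), (nat_lit 7), (nat_lit 0), [⟨(nat_lit 0), (nat_lit 73), (nat_lit 38), (nat_lit 100), (nat_lit 307974451)⟩], [⟨(nat_lit 1), (nat_lit 90), (nat_lit 32), (nat_lit 100), (nat_lit 449414733)⟩], [⟨(nat_lit 1), (nat_lit 71), (nat_lit 61), (nat_lit 100), (nat_lit 489913995)⟩], [],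
 ⟨⟨[(nat_lit 40), (nat_lit 60), (nat_lit 80)], [(nat_lit 0), (nat_lit 1539), (nat_lit 2453)], [((nat_lit 0), (nat_lit 0), (nat_lit 0)), ((nat_lit 1000), (nat_lit 478), (nat_lit 704)), ((nat_lit 1000), (nat_lit 474), (nat_lit 714))], ((nat_lit 46), (nat_lit 100), (nat_lit 75))⟩, (nat_lit 843237), (nat_lit 114), (nat_lit 114), (nat_lit 0), (nat_lit 0), [(nat_lit 2032000019), (nat_lit 3370257234), (nat_lit 4688000000)], [], [(nat_lit 24781582642), (nat_lit 26086147843), (nat_lit 31812531483), (nat_lit 32692291378), (nat_lit 30175806849), (nat_lit 31048179561), (nat_lit 34957433837), (nat_lit 35590987103)], (nat_lit 0), (nat_lit 0), (nat_lit 0), (nat_lit 0), (nat_lit 0), (nat_lit 0), [], [(nat_lit 2), (nat_lit 44), (nat_lit 317), (nat_lit 100), (nat_lit 13)]⟩,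
 ⟨⟨[(nat_lit 40), (nat_lit 80), (nat_lit 120)], [(nat_lit 0), (nat_lit 0), (nat_lit 2151)], [((nat_lit 0), (nat_lit 0), (nat_lit 0)), ((nat_lit 0), (nat_lit 0), (nat_lit 0)), ((nat_lit 1000), (nat_lit 815), (nat_lit 753))], ((nat_lit 81), (nat_lit 100), (nat_lit 72))⟩, (nat_lit 1617050), (nat_lit 98), (nat_lit 98), (nat_lit 0), (nat_lit 0), [(nat_lit 2032000000), (nat_lit 4688000000), (nat_lit 7968000000)], [], [(nat_lit 26957782072), (nat_lit 31234220050), (nat_lit 33376532378), (nat_lit 36192060448), (nat_lit 31896615082), (nat_lit 35109048524), (nat_lit 36640860280), (nat_lit 39374013784)], (nat_lit 0), (nat_lit 0), (nat_lit 0), (nat_lit 0), (nat_lit 0), (nat_lit 0), [], [(nat_lit 4), (nat_lit 51), (nat_lit 317), (nat_lit 100), (nat_lit 9)]⟩,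
 ⟨⟨[(nat_lit 100), (nat_lit 140), (nat_lit 180)], [(nat_lit 0), (nat_lit 0), (nat_lit 2434)], [((nat_lit 0), (nat_lit 0), (nat_lit 0)), ((nat_lit 0), (nat_lit 0), (nat_lit 0)), ((nat_lit 726), (nat_lit 1000), (nat_lit 688))], ((nat_lit 100), (nat_lit 70), (nat_lit 71))⟩, (nat_lit 91139), (nat_lit 300), (nat_lit 1980), (nat_lit 11107400), (nat_lit 3677664), [(nat_lit 987500000), (nat_lit 1555036000), (nat_lit 2221164000)], [], [(nat_lit 8262079069), (nat_lit 7982814197), (nat_lit 7180752439), (nat_lit 6952525744), (nat_lit 7973376708), (nat_lit 7750867917), (nat_lit 7109291606), (nat_lit 6895564982)], (nat_lit 1271251), (nat_lit 1271251), (nat_lit 704688), (nat_lit 2566251), (nat_lit 1271251), (nat_lit 1271251), [(nat_lit 1412501), (nat_lit 1271251), (nat_lit 1271251)], [(nat_lit 24), (nat_lit 63), (nat_lit 619), (nat_lit 250), (nat_lit 14)]⟩⟩)) (.leaf ⟨(nat_lit 22), (nat_lit 770), (nat_lit 0), (nat_lit 208), (nat_lit 0), (nat_lit 5121), (nat_lit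 4937), (nat_lit 2149), (nat_lit 52932), (nat_lit 0), (nat_lit 88000), [((nat_lit 400), [((nat_lit 43), (nat_lit 5), (nat_lit 22))])], ⟨(nat_lit 8), true, false, false, (nat_lit 337), (nat_lit 0), (nat_lit 2237), [(nat_lit 1675230), (nat_lit 1683322), (nat_lit 1762621), (nat_lit 1779617), (nat_lit 1921719), (nat_lit 1899996), (nat_lit 2012658), (nat_lit 1999837)]⟩, ⟨(nat_lit 5), false, false, true, (nat_lit 227), (nat_lit 0), (nat_lit 2237), [(nat_lit 1367570), (nat_lit 1383355), (nat_lit 1433113), (nat_lit 1455575), (nat_lit 1699546), (nat_lit 1674992), (nat_lit 1767872), (nat_lit 1749995)]⟩, (nat_lit 5571757), (nat_lit 31697539), (nat_lit 23199489), (nat_lit 12102972), (nat_lit 7), (nat_lit 0), [⟨(nat_lit 0), (nat_lit 73), (nat_lit 38), (nat_lit 100), (nat_lit 327942898)⟩], [⟨(nat_lit 1), (nat_lit 90), (nat_lit 32), (nat_lit 100), (nat_lit 267427333)⟩], [⟨(nat_lit 1), (nat_lit 71), (nat_lit 61), (nat_lit 100), (nat_lit 429505908)⟩], [],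
 ⟨⟨[(nat_lit 40), (nat_lit 60), (nat_lit 80)], [(nat_lit 0), (nat_lit 1539), (nat_lit 2453)], [((nat_lit 0), (nat_lit 0), (nat_lit 0)), ((nat_lit 1000), (nat_lit 478), (nat_lit 704)), ((nat_lit 1000), (nat_lit 474), (nat_lit 714))], ((nat_lit 46), (nat_lit 100), (nat_lit 75))⟩, (nat_lit 348009), (nat_lit 300), (nat_lit 388), (nat_lit 45587101), (nat_lit 925054), [(nat_lit 1823484002), (nat_lit 3090791042), (nat_lit 3969858400)], [(nat_lit 0), (nat_lit 0), (nat_lit 0)], [(nat_lit 30161786274), (nat_lit 31036801369), (nat_lit 34760788775), (nat_lit 35787823069), (nat_lit 33031483900), (nat_lit 33616912750), (nat_lit 37030861066), (nat_lit 37827772533)], (nat_lit 1271251), (nat_lit 1271251), (nat_lit 1271251), (nat_lit 1271251), (nat_lit 704688), (nat_lit 2566251), [(nat_lit 490000), (nat_lit 780000), (nat_lit 1100000)], [(nat_lit 2), (nat_lit 44), (nat_lit 317), (nat_lit 100), (nat_lit 13)]⟩,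
 ⟨⟨[(nat_lit 40), (nat_lit 80), (nat_lit 120)], [(nat_lit 0), (nat_lit 0), (nat_lit 2151)], [((nat_lit 0), (nat_lit 0), (nat_lit 0)), ((nat_lit 0), (nat_lit 0), (nat_lit 0)), ((nat_lit 1000), (nat_lit 815), (nat_lit 753))], ((nat_lit 81), (nat_lit 100), (nat_lit 72))⟩, (nat_lit 2078187), (nat_lit 98), (nat_lit 98), (nat_lit 0), (nat_lit 0), [(nat_lit 1987296000), (nat_lit 4584864000), (nat_lit 7792704000)], [], [(nat_lit 25296239192), (nat_lit 29778198218), (nat_lit 32249857752), (nat_lit 35395916048), (nat_lit 30548156923), (nat_lit 34141286758), (nat_lit 35834839939), (nat_lit 38507872435)], (nat_lit 0), (nat_lit 0), (nat_lit 0), (nat_lit 0), (nat_lit 0), (nat_lit 0), [], [(nat_lit 4), (nat_lit 51), (nat_lit 317), (nat_lit 100), (nat_lit 9)]⟩,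
 ⟨⟨[(nat_lit 100), (nat_lit 140), (nat_lit 180)], [(nat_lit 0), (nat_lit 0), (nat_lit 2434)], [((nat_lit 0), (nat_lit 0), (nat_lit 0)), ((nat_lit 0), (nat_lit 0), (nat_lit 0)), ((nat_lit 726), (nat_lit 1000), (nat_lit 688))], ((nat_lit 100), (nat_lit 70), (nat_lit 71))⟩, (nat_lit 170163), (nat_lit 300), (nat_lit 1638), (nat_lit 14622400), (nat_lit 2996307), [(nat_lit 1300000000), (nat_lit 2047136000), (nat_lit 2924064000)], [], [(nat_lit 11030936841), (nat_lit 10666602825), (nat_lit 9611963991), (nat_lit 9284030163), (nat_lit 10630718370), (nat_lit 10319097376), (nat_lit 9447679035), (nat_lit 9162608636)], (nat_lit 1271251), (nat_lit 1271251), (nat_lit 704688), (nat_lit 2566251), (nat_lit 1271251), (nat_lit 1271251), [(nat_lit 1412501), (nat_lit 1271251), (nat_lit 1271251)], [(nat_lit 24), (nat_lit 63), (nat_lit 534), (nat_lit 250), (nat_lit 12)]⟩⟩))))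
noncomputable def c15_6 : Tr Lf :=
 (.spl (nat_lit 5) (nat_lit 120) (.leaf ⟨(nat_lit 197), (nat_lit 803), (nat_lit 0), (nat_lit 0), (nat_lit 0), (nat_lit 4090), (nat_lit 5166), (nat_lit 0), (nat_lit 207723), (nat_lit 0), (nat_lit 118200), [((nat_lit 400), [((nat_lit 43), (nat_lit 2), (nat_lit 197))])], ⟨(nat_lit 8), false, true, false, (nat_lit 337), (nat_lit 0), (nat_lit 2237), [(nat_lit 1675230), (nat_lit 1683322), (nat_lit 1762621), (nat_lit 1779617), (nat_lit 1921719), (nat_lit 1899996), (nat_lit 2012658), (nat_lit 1999837)]⟩, ⟨(nat_lit 3), false, false, false, (nat_lit 126), (nat_lit 0), (nat_lit 2237), [(nat_lit 1177178), (nat_lit 1196337), (nat_lit 1264568), (nat_lit 1292631), (nat_lit 1351885), (nat_lit 1349998), (nat_lit 1441142), (nat_lit 1448157)]⟩, (nat_lit 4806812), (nat_lit 35834562), (nat_lit 25817463), (nat_lit 5347975), (nat_lit 3), (nat_lit 0), [], [⟨(nat_lit 1), (nat_lit 100), (nat_lit 31), (nat_lit 99), (nat_lit 82803512)⟩],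 [], [],
 ⟨⟨[(nat_lit 40), (nat_lit 60), (nat_lit 80)], [(nat_lit 0), (nat_lit 1539), (nat_lit 2453)], [((nat_lit 0), (nat_lit 0), (nat_lit 0)), ((nat_lit 1000), (nat_lit 478), (nat_lit 704)), ((nat_lit 1000), (nat_lit 474), (nat_lit 714))], ((nat_lit 46), (nat_lit 100), (nat_lit 75))⟩, (nat_lit 965080), (nat_lit 285), (nat_lit 285), (nat_lit 0), (nat_lit 491199), [(nat_lit 1718018044), (nat_lit 2661092886), (nat_lit 3494180000)], [(nat_lit 0), (nat_lit 0), (nat_lit 0)], [(nat_lit 25321948350), (nat_lit 27179405838), (nat_lit 34551848805), (nat_lit 35714883200), (nat_lit 24384759974), (nat_lit 25493047790), (nat_lit 32168393820), (nat_lit 33214690040)], (nat_lit 1271251), (nat_lit 1271251), (nat_lit 1271251), (nat_lit 1271251), (nat_lit 230000), (nat_lit 1100000), [(nat_lit 490000), (nat_lit 780000), (nat_lit 1100000)], [(nat_lit 2), (nat_lit 44), (nat_lit 249), (nat_lit 40), (nat_lit 10)]⟩,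
 ⟨⟨[(nat_lit 40), (nat_lit 80), (nat_lit 120)], [(nat_lit 0), (nat_lit 0), (nat_lit 2151)], [((nat_lit 0), (nat_lit 0), (nat_lit 0)), ((nat_lit 0), (nat_lit 0), (nat_lit 0)), ((nat_lit 1000), (nat_lit 815), (nat_lit 753))], ((nat_lit 81), (nat_lit 100), (nat_lit 72))⟩, (nat_lit 1491769), (nat_lit 700), (nat_lit 700), (nat_lit 0), (nat_lit 1291566), [(nat_lit 1631696000), (nat_lit 3764464000), (nat_lit 6398304000)], [], [(nat_lit 27849016765), (nat_lit 30165396262), (nat_lit 31536029816), (nat_lit 36309435592), (nat_lit 26142732574), (nat_lit 28052475991), (nat_lit 28984905548), (nat_lit 30674449454)], (nat_lit 1271251), (nat_lit 1271251), (nat_lit 1271251), (nat_lit 1271251), (nat_lit 0), (nat_lit 780000), [(nat_lit 490000), (nat_lit 1100000), (nat_lit 1785001)], [(nat_lit 4), (nat_lit 51), (nat_lit 373), (nat_lit 150), (nat_lit 12)]⟩,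
 Rw.none⟩) (.spl (nat_lit 0) (nat_lit 390) (.ord (.leaf ⟨(nat_lit 135), (nat_lit 865), (nat_lit 0), (nat_lit 0), (nat_lit 0), (nat_lit 4190), (nat_lit 5820), (nat_lit 0), (nat_lit 76617), (nat_lit 0), (nat_lit 86600), [((nat_lit 390), [((nat_lit 43), (nat_lit 2), (nat_lit 121)), ((nat_lit 28), (nat_lit 2), (nat_lit 14))])], ⟨(nat_lit 8), false, true, false, (nat_lit 336), (nat_lit 1581), (nat_lit 2237), [(nat_lit 1679198), (nat_lit 1680658), (nat_lit 1758749), (nat_lit 1762101), (nat_lit 1921722), (nat_lit 1913068), (nat_lit 2001426), (nat_lit 1994664)]⟩, ⟨(nat_lit 3), false, false, false, (nat_lit 126), (nat_lit 1581), (nat_lit 2237), [(nat_lit 1180680), (nat_lit 1188036), (nat_lit 1271595), (nat_lit 1281114), (nat_lit 1351886), (nat_lit 1352103), (nat_lit 1442898), (nat_lit 1445278)]⟩, (nat_lit 4801754), (nat_lit 35943419), (nat_lit 25723836), (nat_lit 5332745), (nat_lit 3), (nat_lit 0), [], [], [], [],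
 ⟨⟨[(nat_lit 40), (nat_lit 60), (nat_lit 80)], [(nat_lit 0), (nat_lit 1539), (nat_lit 2453)], [((nat_lit 0), (nat_lit 0), (nat_lit 0)), ((nat_lit 1000), (nat_lit 478), (nat_lit 704)), ((nat_lit 1000), (nat_lit 474), (nat_lit 714))], ((nat_lit 46), (nat_lit 100), (nat_lit 75))⟩, (nat_lit 1332813), (nat_lit 278), (nat_lit 278), (nat_lit 0), (nat_lit 471310), [(nat_lit 1745497215), (nat_lit 3008954118), (nat_lit 3826057600)], [(nat_lit 0), (nat_lit 0), (nat_lit 0)], [(nat_lit 25493956169), (nat_lit 26435507441), (nat_lit 34816585255), (nat_lit 35404448228), (nat_lit 24210868150), (nat_lit 24771467970), (nat_lit 32326973620), (nat_lit 32855539630)], (nat_lit 1271251), (nat_lit 1271251), (nat_lit 1271251), (nat_lit 1271251), (nat_lit 230000), (nat_lit 1100000), [(nat_lit 490000), (nat_lit 780000), (nat_lit 1100000)], [(nat_lit 2), (nat_lit 44), (nat_lit 249), (nat_lit 40), (nat_lit 10)]⟩,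
 ⟨⟨[(nat_lit 40), (nat_lit 80), (nat_lit 120)], [(nat_lit 0), (nat_lit 0), (nat_lit 2151)], [((nat_lit 0), (nat_lit 0), (nat_lit 0)), ((nat_lit 0), (nat_lit 0), (nat_lit 0)), ((nat_lit 1000), (nat_lit 815), (nat_lit 753))], ((nat_lit 81), (nat_lit 100), (nat_lit 72))⟩, (nat_lit 1902197), (nat_lit 574), (nat_lit 574), (nat_lit 0), (nat_lit 1184466), [(nat_lit 1757680000), (nat_lit 4055120000), (nat_lit 6892320000)], [], [(nat_lit 24774059765), (nat_lit 27162600131), (nat_lit 28769898380), (nat_lit 32937576610), (nat_lit 24888656539), (nat_lit 26993918877), (nat_lit 28343552140), (nat_lit 32098617653)], (nat_lit 1271251), (nat_lit 1271251), (nat_lit 1271251), (nat_lit 1271251), (nat_lit 780000), (nat_lit 1435001), [(nat_lit 490000), (nat_lit 1100000), (nat_lit 1785001)], [(nat_lit 4), (nat_lit 51), (nat_lit 373), (nat_lit 150), (nat_lit 11)]⟩,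
 Rw.none⟩)) (.trZ (nat_lit 0) (nat_lit 1) (nat_lit 3) (nat_lit 84) (nat_lit 33) (nat_lit 100) (nat_lit 260) (.trZ (nat_lit 0) (nat_lit 2) (nat_lit 4) (nat_lit 100) (nat_lit 34) (nat_lit 81) (nat_lit 60) (.spl (nat_lit 0) (nat_lit 395) (.ord (.leaf ⟨(nat_lit 60), (nat_lit 940), (nat_lit 0), (nat_lit 0), (nat_lit 0), (nat_lit 4175), (nat_lit 5921), (nat_lit 0), (nat_lit 80098), (nat_lit 0), (nat_lit 87000), [((nat_lit 395), [((nat_lit 28), (nat_lit 2), (nat_lit 51)), ((nat_lit 43), (nat_lit 5), (nat_lit 9))])], ⟨(nat_lit 8), false, true, false, (nat_lit 344), (nat_lit 1118), (nat_lit 1582), [(nat_lit 1721744), (nat_lit 1722096), (nat_lit 1809053), (nat_lit 1811039), (nat_lit 1913068), (nat_lit 1908140), (nat_lit 2000499), (nat_lit 1997205)]⟩, ⟨(nat_lit 3), false, false, false, (nat_lit 133), (nat_lit 1118), (nat_lit 1582), [(nat_lit 1215422), (nat_lit 1218958), (nat_lit 1308551), (nat_lit 1313831), (nat_lit 1352103), (nat_lit 1351868), (nat_lit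 1445300), (nat_lit 1446809)]⟩, (nat_lit 4874863), (nat_lit 35010257), (nat_lit 26307986), (nat_lit 5681757), (nat_lit 3), (nat_lit 0), [], [], [], [],
 ⟨⟨[(nat_lit 40), (nat_lit 60)], [(nat_lit 0), (nat_lit 2136)], [((nat_lit 0), (nat_lit 0), (nat_lit 0)), ((nat_lit 1000), (nat_lit 343), (nat_lit 808))], ((nat_lit 35), (nat_lit 100), (nat_lit 80))⟩, (nat_lit 965669), (nat_lit 243), (nat_lit 243), (nat_lit 0), (nat_lit 480399), [(nat_lit 1798043221), (nat_lit 2803260000)], [(nat_lit 0), (nat_lit 0)], [(nat_lit 26814346179), (nat_lit 27248140234), (nat_lit 34478893629), (nat_lit 34769821865), (nat_lit 26003160214), (nat_lit 26267938383), (nat_lit 32830939975), (nat_lit 33094816638)], (nat_lit 1271251), (nat_lit 1271251), (nat_lit 1271251), (nat_lit 1271251), (nat_lit 356250), (nat_lit 1100000), [(nat_lit 490000), (nat_lit 780000)], [(nat_lit 1), (nat_lit 38), (nat_lit 249), (nat_lit 40), (nat_lit 12)]⟩,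
 ⟨⟨[(nat_lit 40), (nat_lit 80), (nat_lit 120)], [(nat_lit 0), (nat_lit 0), (nat_lit 2151)], [((nat_lit 0), (nat_lit 0), (nat_lit 0)), ((nat_lit 0), (nat_lit 0), (nat_lit 0)), ((nat_lit 1000), (nat_lit 815), (nat_lit 753))], ((nat_lit 81), (nat_lit 100), (nat_lit 72))⟩, (nat_lit 2618059), (nat_lit 602), (nat_lit 602), (nat_lit 0), (nat_lit 1235593), [(nat_lit 1910080000), (nat_lit 4406720000), (nat_lit 7489920000)], [], [(nat_lit 29511051741), (nat_lit 32059427437), (nat_lit 33218597650), (nat_lit 35341966613), (nat_lit 29620561120), (nat_lit 31872753478), (nat_lit 32859051124), (nat_lit 34547180367)], (nat_lit 1271251), (nat_lit 1271251), (nat_lit 1271251), (nat_lit 1271251), (nat_lit 780000), (nat_lit 1435001), [(nat_lit 490000), (nat_lit 1100000), (nat_lit 1785001)], [(nat_lit 4), (nat_lit 51), (nat_lit 275), (nat_lit 50), (nat_lit 8)]⟩,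
 Rw.none⟩)) (.trZ (nat_lit 0) (nat_lit 1) (nat_lit 3) (nat_lit 88) (nat_lit 24) (nat_lit 100) (nat_lit 280) (.trZ (nat_lit 0) (nat_lit 2) (nat_lit 4) (nat_lit 100) (nat_lit 24) (nat_lit 88) (nat_lit 80) (.leaf ⟨(nat_lit 25), (nat_lit 975), (nat_lit 0), (nat_lit 0), (nat_lit 0), (nat_lit 4136), (nat_lit 6107), (nat_lit 0), (nat_lit 41419), (nat_lit 0), (nat_lit 100000), [((nat_lit 400), [((nat_lit 43), (nat_lit 5), (nat_lit 25))])], ⟨(nat_lit 8), false, true, false, (nat_lit 350), (nat_lit 0), (nat_lit 1119), [(nat_lit 1747828), (nat_lit 1749068), (nat_lit 1840970), (nat_lit 1847207), (nat_lit 1908136), (nat_lit 1899995), (nat_lit 2003134), (nat_lit 1999990)]⟩, ⟨(nat_lit 3), false, false, false, (nat_lit 139), (nat_lit 0), (nat_lit 1119), [(nat_lit 1244686), (nat_lit 1249071), (nat_lit 1337829), (nat_lit 1347210), (nat_lit 1351866), (nat_lit 1349997), (nat_lit 1445943), (nat_lit 1449070)]⟩, (nat_lit 4934127), (nat_lit 34351071), (nat_lit 26644097),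 (nat_lit 6004832), (nat_lit 3), (nat_lit 0), [], [⟨(nat_lit 1), (nat_lit 100), (nat_lit 16), (nat_lit 98), (nat_lit 616556049)⟩], [], [],
 ⟨⟨[(nat_lit 40), (nat_lit 60)], [(nat_lit 0), (nat_lit 2600)], [((nat_lit 0), (nat_lit 0), (nat_lit 0)), ((nat_lit 1000), (nat_lit 245), (nat_lit 872))], ((nat_lit 26), (nat_lit 100), (nat_lit 84))⟩, (nat_lit 867060), (nat_lit 233), (nat_lit 233), (nat_lit 0), (nat_lit 489409), [(nat_lit 1824050008), (nat_lit 2778310000)], [(nat_lit 0), (nat_lit 0)], [(nat_lit 27281235375), (nat_lit 27687431680), (nat_lit 33796509510), (nat_lit 34083696544), (nat_lit 27183680276), (nat_lit 27437188160), (nat_lit 33029801044), (nat_lit 33292621216)], (nat_lit 1271251), (nat_lit 1271251), (nat_lit 1271251), (nat_lit 1271251), (nat_lit 490000), (nat_lit 1100000), [(nat_lit 490000), (nat_lit 780000)], [(nat_lit 1), (nat_lit 38), (nat_lit 249), (nat_lit 40), (nat_lit 12)]⟩,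
 ⟨⟨[(nat_lit 40), (nat_lit 80), (nat_lit 120)], [(nat_lit 0), (nat_lit 0), (nat_lit 2151)], [((nat_lit 0), (nat_lit 0), (nat_lit 0)), ((nat_lit 0), (nat_lit 0), (nat_lit 0)), ((nat_lit 1000), (nat_lit 815), (nat_lit 753))], ((nat_lit 81), (nat_lit 100), (nat_lit 72))⟩, (nat_lit 2769404), (nat_lit 618), (nat_lit 618), (nat_lit 0), (nat_lit 1288519), [(nat_lit 1981200000), (nat_lit 4570800000), (nat_lit 7768800000)], [], [(nat_lit 31296692555), (nat_lit 33937950555), (nat_lit 34622316290), (nat_lit 36919723860), (nat_lit 31295911307), (nat_lit 33679325471), (nat_lit 34258242288), (nat_lit 36071358634)], (nat_lit 1271251), (nat_lit 1271251), (nat_lit 1271251), (nat_lit 1271251), (nat_lit 780000), (nat_lit 1435001), [(nat_lit 490000), (nat_lit 1100000), (nat_lit 1785001)], [(nat_lit 4), (nat_lit 51), (nat_lit 280), (nat_lit 50), (nat_lit 8)]⟩,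
 Rw.none⟩))))))))
noncomputable def c15_7 : Tr Lf :=
 (.spl (nat_lit 1) (nat_lit 360) (.spl (nat_lit 2) (nat_lit 160) (.trX (nat_lit 5) (nat_lit 1) (nat_lit 2) (nat_lit 82) (nat_lit 76) (nat_lit 100) (nat_lit 340) (.leaf ⟨(nat_lit 720), (nat_lit 280), (nat_lit 0), (nat_lit 0), (nat_lit 0), (nat_lit 3484), (nat_lit 1833), (nat_lit 0), (nat_lit 0), (nat_lit 0), (nat_lit 319600), [((nat_lit 400), [((nat_lit 28), (nat_lit 1), (nat_lit 562)), ((nat_lit 43), (nat_lit 2), (nat_lit 158))])], ⟨(nat_lit 8), false, true, false, (nat_lit 306), (nat_lit 0), (nat_lit 2237), [(nat_lit 1675230), (nat_lit 1683322), (nat_lit 1718925), (nat_lit 1731469), (nat_lit 1807594), (nat_lit 1799902), (nat_lit 1851355), (nat_lit 1848114)]⟩, ⟨(nat_lit 3), false, false, false, (nat_lit 117), (nat_lit 0), (nat_lit 2237), [(nat_lit 1177178), (nat_lit 1196337), (nat_lit 1220873), (nat_lit 1244484), (nat_lit 1351885), (nat_lit 1349998), (nat_lit 1397434), (nat_lit 1399999)]⟩,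 (nat_lit 4664977), (nat_lit 38753178), (nat_lit 23215397), (nat_lit 5031425), (nat_lit 5), (nat_lit 0), [⟨(nat_lit 0), (nat_lit 80), (nat_lit 35), (nat_lit 100), (nat_lit 72539026)⟩], [], [⟨(nat_lit 1), (nat_lit 92), (nat_lit 75), (nat_lit 100), (nat_lit 87207491)⟩, ⟨(nat_lit 1), (nat_lit 76), (nat_lit 82), (nat_lit 100), (nat_lit 1893558)⟩], [⟨(nat_lit 1), (nat_lit 85), (nat_lit 100), (nat_lit 93), (nat_lit 14608406)⟩],
 ⟨⟨[(nat_lit 40), (nat_lit 60), (nat_lit 80)], [(nat_lit 0), (nat_lit 1539), (nat_lit 2453)], [((nat_lit 0), (nat_lit 0), (nat_lit 0)), ((nat_lit 1000), (nat_lit 478), (nat_lit 704)), ((nat_lit 1000), (nat_lit 474), (nat_lit 714))], ((nat_lit 46), (nat_lit 100), (nat_lit 75))⟩, (nat_lit 0), (nat_lit 252), (nat_lit 252), (nat_lit 0), (nat_lit 427460), [(nat_lit 1507478402), (nat_lit 1097462217), (nat_lit 1206915200)], [(nat_lit 0), (nat_lit 0), (nat_lit 0)], [(nat_lit 24552530248), (nat_lit 25981629415), (nat_lit 28312925668),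 (nat_lit 29689175112), (nat_lit 24759529819), (nat_lit 25757189712), (nat_lit 27422447476), (nat_lit 28265744504)], (nat_lit 1271251), (nat_lit 1271251), (nat_lit 1271251), (nat_lit 1271251), (nat_lit 230000), (nat_lit 1100000), [(nat_lit 490000), (nat_lit 780000), (nat_lit 1100000)], [(nat_lit 2), (nat_lit 44), (nat_lit 249), (nat_lit 40), (nat_lit 10)]⟩,
 ⟨⟨[(nat_lit 40), (nat_lit 80), (nat_lit 120)], [(nat_lit 0), (nat_lit 0), (nat_lit 2151)], [((nat_lit 0), (nat_lit 0), (nat_lit 0)), ((nat_lit 0), (nat_lit 0), (nat_lit 0)), ((nat_lit 1000), (nat_lit 815), (nat_lit 753))], ((nat_lit 81), (nat_lit 100), (nat_lit 72))⟩, (nat_lit 411368), (nat_lit 577), (nat_lit 577), (nat_lit 0), (nat_lit 1262687), [(nat_lit 568960000), (nat_lit 1312640000), (nat_lit 2231040000)], [], [(nat_lit 8517397074), (nat_lit 8851361525), (nat_lit 8909481982), (nat_lit 9182702895), (nat_lit 9056349494), (nat_lit 9300735578), (nat_lit 9289980531), (nat_lit 9563425243)],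 (nat_lit 1271251), (nat_lit 1271251), (nat_lit 1271251), (nat_lit 1271251), (nat_lit 1271251), (nat_lit 1271251), [(nat_lit 490000), (nat_lit 1100000), (nat_lit 1785001)], [(nat_lit 4), (nat_lit 51), (nat_lit 401), (nat_lit 175), (nat_lit 12)]⟩,
 Rw.none⟩)) (.trZ (nat_lit 0) (nat_lit 2) (nat_lit 4) (nat_lit 100) (nat_lit 44) (nat_lit 81) (nat_lit 70) (.spl (nat_lit 1) (nat_lit 340) (.leaf ⟨(nat_lit 22), (nat_lit 815), (nat_lit 0), (nat_lit 163), (nat_lit 0), (nat_lit 3755), (nat_lit 6244), (nat_lit 1864), (nat_lit 0), (nat_lit 0), (nat_lit 88000), [((nat_lit 400), [((nat_lit 43), (nat_lit 5), (nat_lit 22))])], ⟨(nat_lit 8), false, true, false, (nat_lit 301), (nat_lit 0), (nat_lit 2237), [(nat_lit 1675230), (nat_lit 1683322), (nat_lit 1697077), (nat_lit 1707396), (nat_lit 1807594), (nat_lit 1799902), (nat_lit 1829507), (nat_lit 1824041)]⟩, ⟨(nat_lit 4), false, false, false, (nat_lit 144), (nat_lit 0), (nat_lit 2237), [(nat_lit 1265016), (nat_lit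 1283365), (nat_lit 1308712), (nat_lit 1331512), (nat_lit 1397434), (nat_lit 1399999), (nat_lit 1441142), (nat_lit 1448157)]⟩, (nat_lit 4923698), (nat_lit 37933568), (nat_lit 22252532), (nat_lit 6813900), (nat_lit 5), (nat_lit 0), [⟨(nat_lit 0), (nat_lit 82), (nat_lit 34), (nat_lit 100), (nat_lit 551687150)⟩], [⟨(nat_lit 0), (nat_lit 100), (nat_lit 31), (nat_lit 92), (nat_lit 77030263)⟩], [⟨(nat_lit 1), (nat_lit 73), (nat_lit 76), (nat_lit 100), (nat_lit 244304271)⟩], [],
 ⟨⟨[(nat_lit 40), (nat_lit 60), (nat_lit 80)], [(nat_lit 0), (nat_lit 1539), (nat_lit 2453)], [((nat_lit 0), (nat_lit 0), (nat_lit 0)), ((nat_lit 1000), (nat_lit 478), (nat_lit 704)), ((nat_lit 1000), (nat_lit 474), (nat_lit 714))], ((nat_lit 46), (nat_lit 100), (nat_lit 75))⟩, (nat_lit 2349992), (nat_lit 204), (nat_lit 204), (nat_lit 0), (nat_lit 349757), [(nat_lit 1823484002), (nat_lit 3338525077), (nat_lit 3969858400)], [(nat_lit 0), (nat_lit 0), (nat_lit 0)], [(nat_lit 23956779073),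 (nat_lit 25433180049), (nat_lit 27792927870), (nat_lit 29196466023), (nat_lit 24446784573), (nat_lit 25662942393), (nat_lit 27592377333), (nat_lit 28607162620)], (nat_lit 1271251), (nat_lit 1271251), (nat_lit 1271251), (nat_lit 1271251), (nat_lit 422188), (nat_lit 1100000), [(nat_lit 490000), (nat_lit 780000), (nat_lit 1100000)], [(nat_lit 2), (nat_lit 44), (nat_lit 249), (nat_lit 40), (nat_lit 10)]⟩,
 ⟨⟨[(nat_lit 40), (nat_lit 80), (nat_lit 120)], [(nat_lit 0), (nat_lit 0), (nat_lit 2151)], [((nat_lit 0), (nat_lit 0), (nat_lit 0)), ((nat_lit 0), (nat_lit 0), (nat_lit 0)), ((nat_lit 1000), (nat_lit 815), (nat_lit 753))], ((nat_lit 81), (nat_lit 100), (nat_lit 72))⟩, (nat_lit 2871031), (nat_lit 507), (nat_lit 507), (nat_lit 0), (nat_lit 1093655), [(nat_lit 1987296000), (nat_lit 4584864000), (nat_lit 7792704000)], [], [(nat_lit 27841431679), (nat_lit 28639723536), (nat_lit 29923017020), (nat_lit 30580043284), (nat_lit 31382607291), (nat_lit 31942530015),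 (nat_lit 32622013276), (nat_lit 33233082784)], (nat_lit 1271251), (nat_lit 1271251), (nat_lit 1271251), (nat_lit 1271251), (nat_lit 1271251), (nat_lit 1271251), [(nat_lit 490000), (nat_lit 1100000), (nat_lit 1785001)], [(nat_lit 4), (nat_lit 51), (nat_lit 401), (nat_lit 175), (nat_lit 12)]⟩,
 ⟨⟨[(nat_lit 120), (nat_lit 160), (nat_lit 200)], [(nat_lit 0), (nat_lit 0), (nat_lit 3198)], [((nat_lit 0), (nat_lit 0), (nat_lit 0)), ((nat_lit 0), (nat_lit 0), (nat_lit 0)), ((nat_lit 572), (nat_lit 1000), (nat_lit 714))], ((nat_lit 0), (nat_lit 0), (nat_lit 0))⟩, (nat_lit 378253), (nat_lit 300), (nat_lit 2228), (nat_lit 12094600), (nat_lit 3894599), [(nat_lit 1298784000), (nat_lit 1935136000), (nat_lit 2673200000)], [], [(nat_lit 10089995293), (nat_lit 9875220354), (nat_lit 9294019212), (nat_lit 9079755369), (nat_lit 9624559749), (nat_lit 9416955465), (nat_lit 8797932160), (nat_lit 8582323984)], (nat_lit 1100000), (nat_lit 1442501), (nat_lit 422188),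 (nat_lit 1100000), (nat_lit 1271251), (nat_lit 1271251), [(nat_lit 1695001), (nat_lit 1271251), (nat_lit 1271251)], [(nat_lit 29), (nat_lit 66), (nat_lit 647), (nat_lit 200), (nat_lit 13)]⟩⟩) (.trZ (nat_lit 0) (nat_lit 1) (nat_lit 3) (nat_lit 75) (nat_lit 46) (nat_lit 100) (nat_lit 260) (.trX (nat_lit 5) (nat_lit 1) (nat_lit 2) (nat_lit 71) (nat_lit 70) (nat_lit 100) (nat_lit 350) (.leaf ⟨(nat_lit 22), (nat_lit 978), (nat_lit 0), (nat_lit 0), (nat_lit 0), (nat_lit 3959), (nat_lit 4486), (nat_lit 0), (nat_lit 0), (nat_lit 0), (nat_lit 88000), [((nat_lit 400), [((nat_lit 43), (nat_lit 5), (nat_lit 22))])], ⟨(nat_lit 8), false, true, false, (nat_lit 319), (nat_lit 0), (nat_lit 2237), [(nat_lit 1741221), (nat_lit 1746278), (nat_lit 1763069), (nat_lit 1770351), (nat_lit 1829507), (nat_lit 1824041), (nat_lit 1851355), (nat_lit 1848114)]⟩, ⟨(nat_lit 4), false, false, false, (nat_lit 144), (nat_lit 0), (nat_lit 2237), [(nat_lit 1265016), (nat_lit 1283365),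 (nat_lit 1308712), (nat_lit 1331512), (nat_lit 1397434), (nat_lit 1399999), (nat_lit 1441142), (nat_lit 1448157)]⟩, (nat_lit 4956268), (nat_lit 36545677), (nat_lit 23817608), (nat_lit 6636715), (nat_lit 5), (nat_lit 0), [⟨(nat_lit 0), (nat_lit 77), (nat_lit 36), (nat_lit 100), (nat_lit 492692743)⟩], [⟨(nat_lit 0), (nat_lit 100), (nat_lit 31), (nat_lit 92), (nat_lit 213182679)⟩], [⟨(nat_lit 1), (nat_lit 70), (nat_lit 71), (nat_lit 100), (nat_lit 462455865)⟩], [],
 ⟨⟨[(nat_lit 40), (nat_lit 60), (nat_lit 80)], [(nat_lit 0), (nat_lit 1539), (nat_lit 2453)], [((nat_lit 0), (nat_lit 0), (nat_lit 0)), ((nat_lit 1000), (nat_lit 478), (nat_lit 704)), ((nat_lit 1000), (nat_lit 474), (nat_lit 714))], ((nat_lit 46), (nat_lit 100), (nat_lit 75))⟩, (nat_lit 660358), (nat_lit 210), (nat_lit 210), (nat_lit 0), (nat_lit 375728), [(nat_lit 1823484004), (nat_lit 2838752826), (nat_lit 3969858400)], [(nat_lit 0), (nat_lit 0), (nat_lit 0)], [(nat_lit 25731592461),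 (nat_lit 26907826126), (nat_lit 28136443266), (nat_lit 29577595041), (nat_lit 25949593970), (nat_lit 26991640685), (nat_lit 27922182816), (nat_lit 28864864250)], (nat_lit 1271251), (nat_lit 1271251), (nat_lit 1271251), (nat_lit 1271251), (nat_lit 422188), (nat_lit 1100000), [(nat_lit 490000), (nat_lit 780000), (nat_lit 1100000)], [(nat_lit 2), (nat_lit 44), (nat_lit 249), (nat_lit 40), (nat_lit 10)]⟩,
 ⟨⟨[(nat_lit 40), (nat_lit 80), (nat_lit 120)], [(nat_lit 0), (nat_lit 795), (nat_lit 2800)], [((nat_lit 0), (nat_lit 0), (nat_lit 0)), ((nat_lit 1000), (nat_lit 814), (nat_lit 310)), ((nat_lit 1000), (nat_lit 719), (nat_lit 783))], ((nat_lit 71), (nat_lit 100), (nat_lit 71))⟩, (nat_lit 2836733), (nat_lit 492), (nat_lit 492), (nat_lit 0), (nat_lit 1058133), [(nat_lit 1987296000), (nat_lit 4584864000), (nat_lit 7792704000)], [], [(nat_lit 26615746931), (nat_lit 27345177960), (nat_lit 28108330754), (nat_lit 28758181362), (nat_lit 29808136428), (nat_lit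 30360390772), (nat_lit 30871201710), (nat_lit 31785778698)], (nat_lit 1271251), (nat_lit 1271251), (nat_lit 1271251), (nat_lit 1271251), (nat_lit 1271251), (nat_lit 1271251), [(nat_lit 490000), (nat_lit 1100000), (nat_lit 1785001)], [(nat_lit 4), (nat_lit 51), (nat_lit 317), (nat_lit 100), (nat_lit 9)]⟩,
 Rw.none⟩)))))) (.trZ (nat_lit 0) (nat_lit 1) (nat_lit 3) (nat_lit 68) (nat_lit 49) (nat_lit 100) (nat_lit 290) (.trX (nat_lit 5) (nat_lit 1) (nat_lit 2) (nat_lit 60) (nat_lit 80) (nat_lit 100) (nat_lit 320) (.leaf ⟨(nat_lit 22), (nat_lit 978), (nat_lit 0), (nat_lit 0), (nat_lit 0), (nat_lit 4133), (nat_lit 4581), (nat_lit 0), (nat_lit 1676572), (nat_lit 0), (nat_lit 88000), [((nat_lit 400), [((nat_lit 43), (nat_lit 5), (nat_lit 22))])], ⟨(nat_lit 9), false, true, false, (nat_lit 341), (nat_lit 0), (nat_lit 2237), [(nat_lit 1807212), (nat_lit 1809233), (nat_lit 1850907), (nat_lit 1857380), (nat_lit 1851355), (nat_lit 1848114), (nat_lit 1895050),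 (nat_lit 1896261)]⟩, ⟨(nat_lit 3), false, false, false, (nat_lit 126), (nat_lit 0), (nat_lit 2237), [(nat_lit 1177178), (nat_lit 1196337), (nat_lit 1264568), (nat_lit 1292631), (nat_lit 1351885), (nat_lit 1349998), (nat_lit 1441142), (nat_lit 1448157)]⟩, (nat_lit 4809580), (nat_lit 35516033), (nat_lit 26170788), (nat_lit 5313179), (nat_lit 5), (nat_lit 0), [⟨(nat_lit 0), (nat_lit 63), (nat_lit 45), (nat_lit 100), (nat_lit 1038123060)⟩], [], [⟨(nat_lit 1), (nat_lit 80), (nat_lit 60), (nat_lit 100), (nat_lit 419812045)⟩], [],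
 ⟨⟨[(nat_lit 40), (nat_lit 60), (nat_lit 80)], [(nat_lit 0), (nat_lit 1539), (nat_lit 2453)], [((nat_lit 0), (nat_lit 0), (nat_lit 0)), ((nat_lit 1000), (nat_lit 478), (nat_lit 704)), ((nat_lit 1000), (nat_lit 474), (nat_lit 714))], ((nat_lit 46), (nat_lit 100), (nat_lit 75))⟩, (nat_lit 1083886), (nat_lit 269), (nat_lit 269), (nat_lit 0), (nat_lit 491042), [(nat_lit 1823484080), (nat_lit 3093942472), (nat_lit 3969858400)], [(nat_lit 0), (nat_lit 0), (nat_lit 0)], [(nat_lit 28173353930), (nat_lit 29796102013), (nat_lit 29661905916), (nat_lit 31160210194), (nat_lit 26761177683), (nat_lit 27846184345), (nat_lit 27755902245), (nat_lit 29083716292)], (nat_lit 1271251), (nat_lit 1271251), (nat_lit 1271251), (nat_lit 1271251), (nat_lit 230000), (nat_lit 1100000), [(nat_lit 490000), (nat_lit 780000), (nat_lit 1100000)], [(nat_lit 2), (nat_lit 44), (nat_lit 249), (nat_lit 40), (nat_lit 10)]⟩,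
 ⟨⟨[(nat_lit 40), (nat_lit 80), (nat_lit 100)], [(nat_lit 0), (nat_lit 1598), (nat_lit 2533)], [((nat_lit 0), (nat_lit 0), (nat_lit 0)), ((nat_lit 1000), (nat_lit 625), (nat_lit 623)), ((nat_lit 1000), (nat_lit 604), (nat_lit 730))], ((nat_lit 61), (nat_lit 100), (nat_lit 72))⟩, (nat_lit 1845517), (nat_lit 492), (nat_lit 492), (nat_lit 0), (nat_lit 1182919), [(nat_lit 1987296000), (nat_lit 4584864000), (nat_lit 6112500000)], [], [(nat_lit 27509144389), (nat_lit 29088584694), (nat_lit 28329890490), (nat_lit 29816441334), (nat_lit 29910939039), (nat_lit 31676916852), (nat_lit 30545288916), (nat_lit 32546796012)], (nat_lit 1271251), (nat_lit 1271251), (nat_lit 1271251), (nat_lit 1271251), (nat_lit 1271251), (nat_lit 1271251), [(nat_lit 490000), (nat_lit 1100000), (nat_lit 1442501)], [(nat_lit 3), (nat_lit 50), (nat_lit 253), (nat_lit 0), (nat_lit 7)]⟩,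
 Rw.none⟩))))
noncomputable def c15_8 : Tr Lf :=
 (.trX (nat_lit 5) (nat_lit 3) (nat_lit 4) (nat_lit 82) (nat_lit 76) (nat_lit 100) (nat_lit 340) (.spl (nat_lit 1) (nat_lit 360) (.stt (nat_lit 1) (.spl (nat_lit 5) (nat_lit 280) (.spl (nat_lit 1) (nat_lit 340) (.trX (nat_lit 3) (nat_lit 0) (nat_lit 1) (nat_lit 61) (nat_lit 47) (nat_lit 100) (nat_lit 390) (.spl (nat_lit 0) (nat_lit 390) (.leaf ⟨(nat_lit 22), (nat_lit 978), (nat_lit 0), (nat_lit 0), (nat_lit 0), (nat_lit 3509), (nat_lit 5626), (nat_lit 0), (nat_lit 0), (nat_lit 0), (nat_lit 88000), [((nat_lit 390), [((nat_lit 43), (nat_lit 5), (nat_lit 22))])], ⟨(nat_lit 8), false, true, true, (nat_lit 346), (nat_lit 1581), (nat_lit 2237), [(nat_lit 1807675), (nat_lit 1803781), (nat_lit 1830404), (nat_lit 1827050), (nat_lit 1907468), (nat_lit 1899409), (nat_lit 1930242), (nat_lit 1922724)]⟩, ⟨(nat_lit 3), false, false, false, (nat_lit 126), (nat_lit 1581), (nat_lit 2237), [(nat_lit 1180680), (nat_lit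 1188036), (nat_lit 1271595), (nat_lit 1281114), (nat_lit 1351886), (nat_lit 1352103), (nat_lit 1442898), (nat_lit 1445278)]⟩, (nat_lit 4808230), (nat_lit 35086820), (nat_lit 26673980), (nat_lit 5239200), (nat_lit 5), (nat_lit 0), [], [], [], [],
 ⟨⟨[(nat_lit 40), (nat_lit 60), (nat_lit 80)], [(nat_lit 0), (nat_lit 1539), (nat_lit 2453)], [((nat_lit 0), (nat_lit 0), (nat_lit 0)), ((nat_lit 1000), (nat_lit 478), (nat_lit 704)), ((nat_lit 1000), (nat_lit 474), (nat_lit 714))], ((nat_lit 46), (nat_lit 100), (nat_lit 75))⟩, (nat_lit 1497525), (nat_lit 141), (nat_lit 141), (nat_lit 0), (nat_lit 0), [(nat_lit 1823484033), (nat_lit 3154491077), (nat_lit 3969858400)], [(nat_lit 0), (nat_lit 0), (nat_lit 0)], [(nat_lit 28364889468), (nat_lit 29055365015), (nat_lit 32432624961), (nat_lit 32995501618), (nat_lit 27468098152), (nat_lit 27990473448), (nat_lit 30724753645), (nat_lit 31231734469)], (nat_lit 0), (nat_lit 0), (nat_lit 0), (nat_lit 0), (nat_lit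 0), (nat_lit 0), [], [(nat_lit 2), (nat_lit 44), (nat_lit 249), (nat_lit 40), (nat_lit 9)]⟩,
 ⟨⟨[(nat_lit 40), (nat_lit 80), (nat_lit 120)], [(nat_lit 0), (nat_lit 0), (nat_lit 2151)], [((nat_lit 0), (nat_lit 0), (nat_lit 0)), ((nat_lit 0), (nat_lit 0), (nat_lit 0)), ((nat_lit 1000), (nat_lit 815), (nat_lit 753))], ((nat_lit 81), (nat_lit 100), (nat_lit 72))⟩, (nat_lit 3204449), (nat_lit 522), (nat_lit 522), (nat_lit 0), (nat_lit 1156948), [(nat_lit 1987296000), (nat_lit 4584864000), (nat_lit 7792704000)], [], [(nat_lit 32781558996), (nat_lit 33334659393), (nat_lit 34843849764), (nat_lit 35372339890), (nat_lit 33657181592), (nat_lit 34200971649), (nat_lit 35560446792), (nat_lit 36012467353)], (nat_lit 1271251), (nat_lit 1271251), (nat_lit 1271251), (nat_lit 1271251), (nat_lit 1271251), (nat_lit 1271251), [(nat_lit 490000), (nat_lit 1100000), (nat_lit 1785001)], [(nat_lit 4), (nat_lit 51), (nat_lit 289), (nat_lit 75), (nat_lit 8)]⟩,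
 Rw.none⟩) (.trX (nat_lit 3) (nat_lit 0) (nat_lit 1) (nat_lit 44) (nat_lit 64) (nat_lit 100) (nat_lit 380) (.trZ (nat_lit 0) (nat_lit 2) (nat_lit 4) (nat_lit 100) (nat_lit 34) (nat_lit 81) (nat_lit 60) (.leaf ⟨(nat_lit 536), (nat_lit 464), (nat_lit 0), (nat_lit 0), (nat_lit 0), (nat_lit 3152), (nat_lit 3068), (nat_lit 0), (nat_lit 0), (nat_lit 0), (nat_lit 321600), [((nat_lit 400), [((nat_lit 43), (nat_lit 2), (nat_lit 536))])], ⟨(nat_lit 8), false, true, true, (nat_lit 341), (nat_lit 0), (nat_lit 1582), [(nat_lit 1803773), (nat_lit 1799976), (nat_lit 1826447), (nat_lit 1824335), (nat_lit 1885748), (nat_lit 1874997), (nat_lit 1909064), (nat_lit 1899997)]⟩, ⟨(nat_lit 3), false, false, false, (nat_lit 133), (nat_lit 0), (nat_lit 1582), [(nat_lit 1213552), (nat_lit 1223038), (nat_lit 1304186), (nat_lit 1320411), (nat_lit 1352101), (nat_lit 1349997), (nat_lit 1444052), (nat_lit 1448688)]⟩, (nat_lit 4875018), (nat_lit 35230674), (nat_lit 26050533),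 (nat_lit 5718793), (nat_lit 5), (nat_lit 0), [⟨(nat_lit 1), (nat_lit 78), (nat_lit 29), (nat_lit 100), (nat_lit 329228756)⟩], [], [], [],
 ⟨⟨[(nat_lit 40), (nat_lit 60)], [(nat_lit 0), (nat_lit 2136)], [((nat_lit 0), (nat_lit 0), (nat_lit 0)), ((nat_lit 1000), (nat_lit 343), (nat_lit 808))], ((nat_lit 35), (nat_lit 100), (nat_lit 80))⟩, (nat_lit 77602), (nat_lit 119), (nat_lit 119), (nat_lit 0), (nat_lit 0), [(nat_lit 1580384002), (nat_lit 1183452800)], [(nat_lit 0), (nat_lit 0)], [(nat_lit 27709060809), (nat_lit 28358814968), (nat_lit 30913549114), (nat_lit 31464155180), (nat_lit 27707221114), (nat_lit 28206766438), (nat_lit 30246007471), (nat_lit 30680915296)], (nat_lit 0), (nat_lit 0), (nat_lit 0), (nat_lit 0), (nat_lit 0), (nat_lit 0), [], [(nat_lit 1), (nat_lit 38), (nat_lit 249), (nat_lit 40), (nat_lit 12)]⟩,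
 ⟨⟨[(nat_lit 40), (nat_lit 80), (nat_lit 120)], [(nat_lit 0), (nat_lit 0), (nat_lit 2151)], [((nat_lit 0), (nat_lit 0), (nat_lit 0)), ((nat_lit 0), (nat_lit 0), (nat_lit 0)), ((nat_lit 1000), (nat_lit 815), (nat_lit 753))], ((nat_lit 81), (nat_lit 100), (nat_lit 72))⟩, (nat_lit 1361269), (nat_lit 555), (nat_lit 555), (nat_lit 0), (nat_lit 1254734), [(nat_lit 942848000), (nat_lit 2175232000), (nat_lit 3697152000)], [], [(nat_lit 14426765864), (nat_lit 14689818410), (nat_lit 15215923502), (nat_lit 15439013098), (nat_lit 14769644488), (nat_lit 14992668696), (nat_lit 15438717112), (nat_lit 15813101226)], (nat_lit 1271251), (nat_lit 1271251), (nat_lit 1271251), (nat_lit 1271251), (nat_lit 1271251), (nat_lit 1271251), [(nat_lit 490000), (nat_lit 1100000), (nat_lit 1785001)], [(nat_lit 4), (nat_lit 51), (nat_lit 289), (nat_lit 75), (nat_lit 8)]⟩,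
 Rw.none⟩))))) (.leaf ⟨(nat_lit 14), (nat_lit 986), (nat_lit 0), (nat_lit 0), (nat_lit 0), (nat_lit 3550), (nat_lit 4584), (nat_lit 0), (nat_lit 0), (nat_lit 0), (nat_lit 56000), [((nat_lit 400), [((nat_lit 43), (nat_lit 5), (nat_lit 14))])], ⟨(nat_lit 8), false, true, true, (nat_lit 357), (nat_lit 0), (nat_lit 2237), [(nat_lit 1829507), (nat_lit 1824041), (nat_lit 1851355), (nat_lit 1848114), (nat_lit 1944494), (nat_lit 1924997), (nat_lit 1967269), (nat_lit 1949998)]⟩, ⟨(nat_lit 3), false, false, false, (nat_lit 126), (nat_lit 0), (nat_lit 2237), [(nat_lit 1177178), (nat_lit 1196337), (nat_lit 1264568), (nat_lit 1292631), (nat_lit 1351885), (nat_lit 1349998), (nat_lit 1441142), (nat_lit 1448157)]⟩, (nat_lit 4813926), (nat_lit 34256202), (nat_lit 27571525), (nat_lit 5172273), (nat_lit 5), (nat_lit 0), [], [], [], [],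
 ⟨⟨[(nat_lit 40), (nat_lit 60), (nat_lit 80)], [(nat_lit 0), (nat_lit 1539), (nat_lit 2453)], [((nat_lit 0), (nat_lit 0), (nat_lit 0)), ((nat_lit 1000), (nat_lit 478), (nat_lit 704)), ((nat_lit 1000), (nat_lit 474), (nat_lit 714))], ((nat_lit 46), (nat_lit 100), (nat_lit 75))⟩, (nat_lit 1034566), (nat_lit 150), (nat_lit 150), (nat_lit 0), (nat_lit 0), [(nat_lit 1899308013), (nat_lit 3182316365), (nat_lit 4231000800)], [(nat_lit 0), (nat_lit 0), (nat_lit 0)], [(nat_lit 28450110100), (nat_lit 29838771900), (nat_lit 33122271975), (nat_lit 34216772000), (nat_lit 27735809528), (nat_lit 28691715839), (nat_lit 31312062900), (nat_lit 32299845800)], (nat_lit 0), (nat_lit 0), (nat_lit 0), (nat_lit 0), (nat_lit 0), (nat_lit 0), [], [(nat_lit 2), (nat_lit 44), (nat_lit 249), (nat_lit 40), (nat_lit 9)]⟩,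
 ⟨⟨[(nat_lit 40), (nat_lit 80), (nat_lit 120)], [(nat_lit 0), (nat_lit 795), (nat_lit 2800)], [((nat_lit 0), (nat_lit 0), (nat_lit 0)), ((nat_lit 1000), (nat_lit 814), (nat_lit 310)), ((nat_lit 1000), (nat_lit 719), (nat_lit 783))], ((nat_lit 71), (nat_lit 100), (nat_lit 71))⟩, (nat_lit 2617984), (nat_lit 539), (nat_lit 539), (nat_lit 0), (nat_lit 1210013), [(nat_lit 2003552000), (nat_lit 4622368000), (nat_lit 7856448000)], [], [(nat_lit 29744120739), (nat_lit 30304267886), (nat_lit 31980106464), (nat_lit 32510412336), (nat_lit 30768404847), (nat_lit 31323384066), (nat_lit 32897906097), (nat_lit 33361836774)], (nat_lit 1271251), (nat_lit 1271251), (nat_lit 1271251), (nat_lit 1271251), (nat_lit 1271251), (nat_lit 1271251), [(nat_lit 490000), (nat_lit 1100000), (nat_lit 1785001)], [(nat_lit 4), (nat_lit 51), (nat_lit 289), (nat_lit 75), (nat_lit 8)]⟩,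
 Rw.none⟩)) (.trX (nat_lit 3) (nat_lit 5) (nat_lit 4) (nat_lit 94) (nat_lit 59) (nat_lit 100) (nat_lit 370) (.trZ (nat_lit 5) (nat_lit 3) (nat_lit 4) (nat_lit 87) (nat_lit 100) (nat_lit 95) (nat_lit 100) (.spl (nat_lit 2) (nat_lit 160) (.leaf ⟨(nat_lit 695), (nat_lit 305), (nat_lit 0), (nat_lit 0), (nat_lit 0), (nat_lit 3101), (nat_lit 1974), (nat_lit 0), (nat_lit 0), (nat_lit 0), (nat_lit 279400), [((nat_lit 400), [((nat_lit 28), (nat_lit 1), (nat_lit 688)), ((nat_lit 43), (nat_lit 2), (nat_lit 7))])], ⟨(nat_lit 8), false, true, true, (nat_lit 344), (nat_lit 0), (nat_lit 2237), [(nat_lit 1807594), (nat_lit 1799902), (nat_lit 1851355), (nat_lit 1848114), (nat_lit 1878959), (nat_lit 1862498), (nat_lit 1924509), (nat_lit 1912499)]⟩, ⟨(nat_lit 3), false, false, false, (nat_lit 134), (nat_lit 0), (nat_lit 2237), [(nat_lit 1265464), (nat_lit 1274100), (nat_lit 1309159), (nat_lit 1322247), (nat_lit 1351885), (nat_lit 1349998), (nat_lit 1397434), (nat_lit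 1399999)]⟩, (nat_lit 4883232), (nat_lit 34967883), (nat_lit 26298051), (nat_lit 5734066), (nat_lit 7), (nat_lit 0), [], [⟨(nat_lit 1), (nat_lit 100), (nat_lit 31), (nat_lit 95), (nat_lit 69772886)⟩], [⟨(nat_lit 1), (nat_lit 92), (nat_lit 75), (nat_lit 100), (nat_lit 20719713)⟩], [⟨(nat_lit 1), (nat_lit 85), (nat_lit 70), (nat_lit 100), (nat_lit 121924946)⟩],
 ⟨⟨[(nat_lit 40), (nat_lit 60), (nat_lit 80)], [(nat_lit 0), (nat_lit 1539), (nat_lit 2453)], [((nat_lit 0), (nat_lit 0), (nat_lit 0)), ((nat_lit 1000), (nat_lit 478), (nat_lit 704)), ((nat_lit 1000), (nat_lit 474), (nat_lit 714))], ((nat_lit 46), (nat_lit 100), (nat_lit 75))⟩, (nat_lit 0), (nat_lit 109), (nat_lit 109), (nat_lit 0), (nat_lit 0), [(nat_lit 1518031660), (nat_lit 1309681631), (nat_lit 1556184800)], [(nat_lit 0), (nat_lit 0), (nat_lit 0)], [(nat_lit 26821391889), (nat_lit 27847991014), (nat_lit 29121553662), (nat_lit 30214257757), (nat_lit 27122984863), (nat_lit 28080882808),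 (nat_lit 29245271271), (nat_lit 30130474519)], (nat_lit 0), (nat_lit 0), (nat_lit 0), (nat_lit 0), (nat_lit 0), (nat_lit 0), [], [(nat_lit 2), (nat_lit 44), (nat_lit 249), (nat_lit 40), (nat_lit 9)]⟩,
 ⟨⟨[(nat_lit 40), (nat_lit 80), (nat_lit 120)], [(nat_lit 0), (nat_lit 0), (nat_lit 2151)], [((nat_lit 0), (nat_lit 0), (nat_lit 0)), ((nat_lit 0), (nat_lit 0), (nat_lit 0)), ((nat_lit 1000), (nat_lit 815), (nat_lit 753))], ((nat_lit 81), (nat_lit 100), (nat_lit 72))⟩, (nat_lit 456046), (nat_lit 543), (nat_lit 543), (nat_lit 0), (nat_lit 1262687), [(nat_lit 619760000), (nat_lit 1429840000), (nat_lit 2430240000)], [], [(nat_lit 9975664996), (nat_lit 10226596681), (nat_lit 10299574635), (nat_lit 10553593800), (nat_lit 10239839748), (nat_lit 10490680396), (nat_lit 10564852119), (nat_lit 11154538824)], (nat_lit 1271251), (nat_lit 1271251), (nat_lit 1271251), (nat_lit 1271251), (nat_lit 1271251), (nat_lit 1271251), [(nat_lit 490000), (nat_lit 1100000),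 (nat_lit 1785001)], [(nat_lit 4), (nat_lit 51), (nat_lit 270), (nat_lit 0), (nat_lit 7)]⟩,
 Rw.none⟩) (.leaf ⟨(nat_lit 578), (nat_lit 422), (nat_lit 0), (nat_lit 0), (nat_lit 0), (nat_lit 3278), (nat_lit 2682), (nat_lit 0), (nat_lit 0), (nat_lit 0), (nat_lit 346800), [((nat_lit 400), [((nat_lit 43), (nat_lit 2), (nat_lit 578))])], ⟨(nat_lit 8), false, true, true, (nat_lit 344), (nat_lit 0), (nat_lit 2237), [(nat_lit 1807594), (nat_lit 1799902), (nat_lit 1851355), (nat_lit 1848114), (nat_lit 1878959), (nat_lit 1862498), (nat_lit 1924509), (nat_lit 1912499)]⟩, ⟨(nat_lit 4), false, false, false, (nat_lit 152), (nat_lit 0), (nat_lit 2237), [(nat_lit 1309159), (nat_lit 1322247), (nat_lit 1352856), (nat_lit 1370394), (nat_lit 1397434), (nat_lit 1399999), (nat_lit 1441142), (nat_lit 1448157)]⟩, (nat_lit 5052180), (nat_lit 34263950), (nat_lit 25836066), (nat_lit 6899984), (nat_lit 7), (nat_lit 0), [⟨(nat_lit 0), (nat_lit 80), (nat_lit 35), (nat_lit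 100), (nat_lit 537233)⟩], [⟨(nat_lit 0), (nat_lit 100), (nat_lit 31), (nat_lit 92), (nat_lit 283860152)⟩], [⟨(nat_lit 1), (nat_lit 77), (nat_lit 72), (nat_lit 100), (nat_lit 22348452)⟩], [⟨(nat_lit 1), (nat_lit 85), (nat_lit 70), (nat_lit 100), (nat_lit 186963682)⟩],
 ⟨⟨[(nat_lit 40), (nat_lit 60), (nat_lit 80)], [(nat_lit 0), (nat_lit 1539), (nat_lit 2453)], [((nat_lit 0), (nat_lit 0), (nat_lit 0)), ((nat_lit 1000), (nat_lit 478), (nat_lit 704)), ((nat_lit 1000), (nat_lit 474), (nat_lit 714))], ((nat_lit 46), (nat_lit 100), (nat_lit 75))⟩, (nat_lit 11010), (nat_lit 109), (nat_lit 109), (nat_lit 0), (nat_lit 0), [(nat_lit 1563332124), (nat_lit 1206025513), (nat_lit 1185320000)], [(nat_lit 0), (nat_lit 0), (nat_lit 0)], [(nat_lit 26722102226), (nat_lit 28001183068), (nat_lit 29435944170), (nat_lit 30553738292), (nat_lit 26991033898), (nat_lit 28006239820), (nat_lit 29355823904), (nat_lit 30401571082)], (nat_lit 0), (nat_lit 0), (nat_lit 0), (nat_lit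 0), (nat_lit 0), (nat_lit 0), [], [(nat_lit 2), (nat_lit 44), (nat_lit 249), (nat_lit 40), (nat_lit 9)]⟩,
 ⟨⟨[(nat_lit 40), (nat_lit 80), (nat_lit 120)], [(nat_lit 0), (nat_lit 0), (nat_lit 2151)], [((nat_lit 0), (nat_lit 0), (nat_lit 0)), ((nat_lit 0), (nat_lit 0), (nat_lit 0)), ((nat_lit 1000), (nat_lit 815), (nat_lit 753))], ((nat_lit 81), (nat_lit 100), (nat_lit 72))⟩, (nat_lit 742263), (nat_lit 487), (nat_lit 487), (nat_lit 0), (nat_lit 1100839), [(nat_lit 857504000), (nat_lit 1978336000), (nat_lit 3362496000)], [], [(nat_lit 13390644576), (nat_lit 13873076102), (nat_lit 13993683984), (nat_lit 14474758905), (nat_lit 13910809906), (nat_lit 14326987285), (nat_lit 14562429770), (nat_lit 15371775097)], (nat_lit 1271251), (nat_lit 1271251), (nat_lit 1271251), (nat_lit 1271251), (nat_lit 1271251), (nat_lit 1271251), [(nat_lit 490000), (nat_lit 1100000), (nat_lit 1785001)], [(nat_lit 4), (nat_lit 51), (nat_lit 256), (nat_lit 0), (nat_lit 6)]⟩,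
 Rw.none⟩))))) (.leaf ⟨(nat_lit 0), (nat_lit 857), (nat_lit 0), (nat_lit 143), (nat_lit 0), (nat_lit 4600), (nat_lit 6397), (nat_lit 1698), (nat_lit 0), (nat_lit 0), (nat_lit 0), [], Pd.none, Pd.none, (nat_lit 0), (nat_lit 1), (nat_lit 0), (nat_lit 0), (nat_lit 5), (nat_lit 0), [], [], [⟨(nat_lit 1), (nat_lit 85), (nat_lit 73), (nat_lit 100), (nat_lit 151169819)⟩], [⟨(nat_lit 1), (nat_lit 98), (nat_lit 63), (nat_lit 100), (nat_lit 176914824)⟩],
 ⟨⟨[(nat_lit 40), (nat_lit 60), (nat_lit 80)], [(nat_lit 0), (nat_lit 1539), (nat_lit 2453)], [((nat_lit 0), (nat_lit 0), (nat_lit 0)), ((nat_lit 1000), (nat_lit 478), (nat_lit 704)), ((nat_lit 1000), (nat_lit 474), (nat_lit 714))], ((nat_lit 46), (nat_lit 100), (nat_lit 75))⟩, (nat_lit 518264), (nat_lit 269), (nat_lit 269), (nat_lit 0), (nat_lit 427460), [(nat_lit 2032000017), (nat_lit 3282000052), (nat_lit 4688000000)], [], [(nat_lit 30632589700), (nat_lit 32218720800), (nat_lit 35902004700), (nat_lit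 37129766000), (nat_lit 28767445815), (nat_lit 29672474400), (nat_lit 32977150800), (nat_lit 34078709600)], (nat_lit 1271251), (nat_lit 1271251), (nat_lit 1271251), (nat_lit 1271251), (nat_lit 230000), (nat_lit 1100000), [(nat_lit 490000), (nat_lit 780000), (nat_lit 1100000)], [(nat_lit 2), (nat_lit 44), (nat_lit 249), (nat_lit 40), (nat_lit 9)]⟩,
 ⟨⟨[(nat_lit 40), (nat_lit 80), (nat_lit 120)], [(nat_lit 0), (nat_lit 0), (nat_lit 2151)], [((nat_lit 0), (nat_lit 0), (nat_lit 0)), ((nat_lit 0), (nat_lit 0), (nat_lit 0)), ((nat_lit 1000), (nat_lit 815), (nat_lit 753))], ((nat_lit 81), (nat_lit 100), (nat_lit 72))⟩, (nat_lit 1064321), (nat_lit 273), (nat_lit 273), (nat_lit 0), (nat_lit 501488), [(nat_lit 2032000000), (nat_lit 4688000000), (nat_lit 7968000000)], [], [(nat_lit 29509208371), (nat_lit 31161438111), (nat_lit 32911188553), (nat_lit 34790306477), (nat_lit 32327396374), (nat_lit 33994472711), (nat_lit 36236230405), (nat_lit 37968440643)],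 (nat_lit 1271251), (nat_lit 1271251), (nat_lit 1271251), (nat_lit 1271251), (nat_lit 1271251), (nat_lit 1271251), [(nat_lit 490000), (nat_lit 1100000), (nat_lit 1785001)], [(nat_lit 4), (nat_lit 51), (nat_lit 317), (nat_lit 100), (nat_lit 9)]⟩,
 ⟨⟨[(nat_lit 140), (nat_lit 180), (nat_lit 200)], [(nat_lit 0), (nat_lit 0), (nat_lit 2835)], [((nat_lit 0), (nat_lit 0), (nat_lit 0)), ((nat_lit 0), (nat_lit 0), (nat_lit 0)), ((nat_lit 363), (nat_lit 1000), (nat_lit 798))], ((nat_lit 0), (nat_lit 0), (nat_lit 0))⟩, (nat_lit 39344), (nat_lit 300), (nat_lit 1264), (nat_lit 11168300), (nat_lit 1814873), [(nat_lit 1407406000), (nat_lit 2010294000), (nat_lit 2345200000)], [], [(nat_lit 9727445032), (nat_lit 9244176614), (nat_lit 8618294572), (nat_lit 8252475056), (nat_lit 9304334204), (nat_lit 8827398275), (nat_lit 8183930133), (nat_lit 7689329599)], (nat_lit 780000), (nat_lit 1435001), (nat_lit 230000), (nat_lit 1100000), (nat_lit 1271251), (nat_lit 1271251),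 [(nat_lit 1977501), (nat_lit 1271251), (nat_lit 1271251)], [(nat_lit 32), (nat_lit 67), (nat_lit 404), (nat_lit 175), (nat_lit 9)]⟩⟩)) (.trX (nat_lit 5) (nat_lit 1) (nat_lit 2) (nat_lit 60) (nat_lit 80) (nat_lit 100) (nat_lit 320) (.leaf ⟨(nat_lit 22), (nat_lit 978), (nat_lit 0), (nat_lit 0), (nat_lit 0), (nat_lit 4043), (nat_lit 4542), (nat_lit 0), (nat_lit 96322), (nat_lit 0), (nat_lit 88000), [((nat_lit 400), [((nat_lit 43), (nat_lit 5), (nat_lit 22))])], ⟨(nat_lit 9), false, true, false, (nat_lit 371), (nat_lit 0), (nat_lit 2237), [(nat_lit 1851355), (nat_lit 1848114), (nat_lit 1895050), (nat_lit 1896261), (nat_lit 1967269), (nat_lit 1949998), (nat_lit 2012658), (nat_lit 1999837)]⟩, ⟨(nat_lit 3), false, false, false, (nat_lit 126), (nat_lit 0), (nat_lit 2237), [(nat_lit 1177178), (nat_lit 1196337), (nat_lit 1264568), (nat_lit 1292631), (nat_lit 1351885), (nat_lit 1349998), (nat_lit 1441142), (nat_lit 1448157)]⟩, (nat_lit 4809490), (nat_lit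 33196050), (nat_lit 28754160), (nat_lit 5049790), (nat_lit 5), (nat_lit 0), [], [⟨(nat_lit 0), (nat_lit 100), (nat_lit 32), (nat_lit 89), (nat_lit 616244792)⟩], [⟨(nat_lit 1), (nat_lit 80), (nat_lit 60), (nat_lit 100), (nat_lit 440816607)⟩], [⟨(nat_lit 1), (nat_lit 100), (nat_lit 63), (nat_lit 99), (nat_lit 76224781)⟩],
 ⟨⟨[(nat_lit 40), (nat_lit 60), (nat_lit 80)], [(nat_lit 0), (nat_lit 1539), (nat_lit 2453)], [((nat_lit 0), (nat_lit 0), (nat_lit 0)), ((nat_lit 1000), (nat_lit 478), (nat_lit 704)), ((nat_lit 1000), (nat_lit 474), (nat_lit 714))], ((nat_lit 46), (nat_lit 100), (nat_lit 75))⟩, (nat_lit 1088357), (nat_lit 285), (nat_lit 285), (nat_lit 0), (nat_lit 491042), [(nat_lit 1823484013), (nat_lit 3091731479), (nat_lit 3969858400)], [(nat_lit 0), (nat_lit 0), (nat_lit 0)], [(nat_lit 29474836236), (nat_lit 30956214574), (nat_lit 34427422674), (nat_lit 35584492040), (nat_lit 28044566466), (nat_lit 28970251132), (nat_lit 32093861314), (nat_lit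 33135064708)], (nat_lit 1271251), (nat_lit 1271251), (nat_lit 1271251), (nat_lit 1271251), (nat_lit 230000), (nat_lit 1100000), [(nat_lit 490000), (nat_lit 780000), (nat_lit 1100000)], [(nat_lit 2), (nat_lit 44), (nat_lit 249), (nat_lit 40), (nat_lit 9)]⟩,
 ⟨⟨[(nat_lit 40), (nat_lit 80), (nat_lit 100)], [(nat_lit 0), (nat_lit 1598), (nat_lit 2533)], [((nat_lit 0), (nat_lit 0), (nat_lit 0)), ((nat_lit 1000), (nat_lit 625), (nat_lit 623)), ((nat_lit 1000), (nat_lit 604), (nat_lit 730))], ((nat_lit 61), (nat_lit 100), (nat_lit 72))⟩, (nat_lit 1757352), (nat_lit 490), (nat_lit 490), (nat_lit 0), (nat_lit 1182919), [(nat_lit 1987296000), (nat_lit 4584864000), (nat_lit 6112500000)], [], [(nat_lit 29384186832), (nat_lit 30769530528), (nat_lit 31924947282), (nat_lit 33687303636), (nat_lit 31455077316), (nat_lit 32576205984), (nat_lit 34089045768), (nat_lit 35677701312)], (nat_lit 1271251), (nat_lit 1271251), (nat_lit 1271251), (nat_lit 1271251), (nat_lit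 1271251), (nat_lit 1271251), [(nat_lit 490000), (nat_lit 1100000), (nat_lit 1442501)], [(nat_lit 3), (nat_lit 50), (nat_lit 263), (nat_lit 0), (nat_lit 8)]⟩,
 Rw.none⟩))))
noncomputable def c15_9 : Tr Lf :=
 (.stt (nat_lit 1) (.spl (nat_lit 5) (nat_lit 200) (.spl (nat_lit 4) (nat_lit 240) (.leaf ⟨(nat_lit 648), (nat_lit 352), (nat_lit 0), (nat_lit 0), (nat_lit 0), (nat_lit 3094), (nat_lit 2554), (nat_lit 0), (nat_lit 0), (nat_lit 0), (nat_lit 388800), [((nat_lit 400), [((nat_lit 43), (nat_lit 2), (nat_lit 648))])], ⟨(nat_lit 8), false, true, false, (nat_lit 301), (nat_lit 0), (nat_lit 2237), [(nat_lit 1675230), (nat_lit 1683322), (nat_lit 1697077), (nat_lit 1707396), (nat_lit 1807594), (nat_lit 1799902), (nat_lit 1829507), (nat_lit 1824041)]⟩, ⟨(nat_lit 4), false, false, true, (nat_lit 181), (nat_lit 0), (nat_lit 2237), [(nat_lit 1351885), (nat_lit 1349998), (nat_lit 1441142), (nat_lit 1448157), (nat_lit 1465911), (nat_lit 1449992), (nat_lit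 1557013), (nat_lit 1549998)]⟩, (nat_lit 5236959), (nat_lit 36170398), (nat_lit 21435775), (nat_lit 9393827), (nat_lit 4), (nat_lit 0), [⟨(nat_lit 0), (nat_lit 82), (nat_lit 34), (nat_lit 100), (nat_lit 6070668)⟩], [⟨(nat_lit 1), (nat_lit 100), (nat_lit 31), (nat_lit 99), (nat_lit 288795083)⟩], [], [],
 ⟨⟨[(nat_lit 40), (nat_lit 60), (nat_lit 80)], [(nat_lit 0), (nat_lit 1539), (nat_lit 2453)], [((nat_lit 0), (nat_lit 0), (nat_lit 0)), ((nat_lit 1000), (nat_lit 478), (nat_lit 704)), ((nat_lit 1000), (nat_lit 474), (nat_lit 714))], ((nat_lit 46), (nat_lit 100), (nat_lit 75))⟩, (nat_lit 108611), (nat_lit 75), (nat_lit 75), (nat_lit 0), (nat_lit 0), [(nat_lit 1534912001), (nat_lit 915149233), (nat_lit 761120000)], [(nat_lit 0), (nat_lit 0), (nat_lit 0)], [(nat_lit 23430531457), (nat_lit 24690130473), (nat_lit 26720544280), (nat_lit 27773824056), (nat_lit 25321717395), (nat_lit 26427804092), (nat_lit 28213106492), (nat_lit 29141100922)], (nat_lit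 0), (nat_lit 0), (nat_lit 0), (nat_lit 0), (nat_lit 0), (nat_lit 0), [], [(nat_lit 2), (nat_lit 44), (nat_lit 203), (nat_lit 0), (nat_lit 7)]⟩,
 ⟨⟨[(nat_lit 40), (nat_lit 80), (nat_lit 120)], [(nat_lit 0), (nat_lit 0), (nat_lit 2151)], [((nat_lit 0), (nat_lit 0), (nat_lit 0)), ((nat_lit 0), (nat_lit 0), (nat_lit 0)), ((nat_lit 1000), (nat_lit 815), (nat_lit 753))], ((nat_lit 81), (nat_lit 100), (nat_lit 72))⟩, (nat_lit 695382), (nat_lit 676), (nat_lit 676), (nat_lit 0), (nat_lit 1254892), [(nat_lit 715264000), (nat_lit 1650176000), (nat_lit 2804736000)], [], [(nat_lit 10704513008), (nat_lit 10975430461), (nat_lit 11628663664), (nat_lit 12379953624), (nat_lit 9670130758), (nat_lit 9878182029), (nat_lit 10137146968), (nat_lit 10305803310)], (nat_lit 1271251), (nat_lit 1271251), (nat_lit 1271251), (nat_lit 1271251), (nat_lit 0), (nat_lit 1412501), [(nat_lit 490000), (nat_lit 1100000), (nat_lit 1785001)], [(nat_lit 4), (nat_lit 51), (nat_lit 373),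 (nat_lit 150), (nat_lit 12)]⟩,
 Rw.none⟩) (.trZ (nat_lit 3) (nat_lit 4) (nat_lit 5) (nat_lit 99) (nat_lit 100) (nat_lit 35) (nat_lit 10) (.spl (nat_lit 0) (nat_lit 390) (.leaf ⟨(nat_lit 22), (nat_lit 978), (nat_lit 0), (nat_lit 0), (nat_lit 0), (nat_lit 3515), (nat_lit 7223), (nat_lit 0), (nat_lit 0), (nat_lit 0), (nat_lit 88000), [((nat_lit 390), [((nat_lit 43), (nat_lit 5), (nat_lit 22))])], ⟨(nat_lit 8), false, true, false, (nat_lit 302), (nat_lit 1581), (nat_lit 2237), [(nat_lit 1679198), (nat_lit 1680658), (nat_lit 1701927), (nat_lit 1703927), (nat_lit 1807675), (nat_lit 1803781), (nat_lit 1830404), (nat_lit 1827050)]⟩, ⟨(nat_lit 6), false, false, true, (nat_lit 218), (nat_lit 1581), (nat_lit 2237), [(nat_lit 1465917), (nat_lit 1461374), (nat_lit 1557014), (nat_lit 1554634), (nat_lit 1537186), (nat_lit 1529669), (nat_lit 1628284), (nat_lit 1622929)]⟩, (nat_lit 5484208), (nat_lit 34300135), (nat_lit 20588027), (nat_lit 12111838), (nat_lit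 6), (nat_lit 0), [⟨(nat_lit 0), (nat_lit 80), (nat_lit 40), (nat_lit 100), (nat_lit 433707981)⟩], [⟨(nat_lit 1), (nat_lit 90), (nat_lit 44), (nat_lit 100), (nat_lit 874804217)⟩], [], [],
 ⟨⟨[(nat_lit 40), (nat_lit 60), (nat_lit 80)], [(nat_lit 0), (nat_lit 1539), (nat_lit 2453)], [((nat_lit 0), (nat_lit 0), (nat_lit 0)), ((nat_lit 1000), (nat_lit 478), (nat_lit 704)), ((nat_lit 1000), (nat_lit 474), (nat_lit 714))], ((nat_lit 46), (nat_lit 100), (nat_lit 75))⟩, (nat_lit 2115165), (nat_lit 59), (nat_lit 59), (nat_lit 0), (nat_lit 0), [(nat_lit 1823484005), (nat_lit 3162456729), (nat_lit 3969858400)], [(nat_lit 0), (nat_lit 0), (nat_lit 0)], [(nat_lit 25534791654), (nat_lit 26119885470), (nat_lit 28529978560), (nat_lit 29069051650), (nat_lit 27277559121), (nat_lit 27806888424), (nat_lit 30058195098), (nat_lit 30545586682)], (nat_lit 0), (nat_lit 0), (nat_lit 0), (nat_lit 0), (nat_lit 0), (nat_lit 0), [], [(nat_lit 2), (nat_lit 44), (nat_lit 203),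 (nat_lit 0), (nat_lit 6)]⟩,
 ⟨⟨[(nat_lit 40), (nat_lit 80), (nat_lit 120)], [(nat_lit 0), (nat_lit 0), (nat_lit 2151)], [((nat_lit 0), (nat_lit 0), (nat_lit 0)), ((nat_lit 0), (nat_lit 0), (nat_lit 0)), ((nat_lit 1000), (nat_lit 815), (nat_lit 753))], ((nat_lit 81), (nat_lit 100), (nat_lit 72))⟩, (nat_lit 3375740), (nat_lit 635), (nat_lit 635), (nat_lit 0), (nat_lit 1156948), [(nat_lit 1987296000), (nat_lit 4584864000), (nat_lit 7792704000)], [], [(nat_lit 27339596927), (nat_lit 28247916003), (nat_lit 31782353088), (nat_lit 33882160754), (nat_lit 24798280958), (nat_lit 25504374575), (nat_lit 26474604234), (nat_lit 27784365843)], (nat_lit 1271251), (nat_lit 1271251), (nat_lit 1271251), (nat_lit 1271251), (nat_lit 54688), (nat_lit 1414376), [(nat_lit 490000), (nat_lit 1100000), (nat_lit 1785001)], [(nat_lit 4), (nat_lit 51), (nat_lit 373), (nat_lit 150), (nat_lit 12)]⟩,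
 Rw.none⟩) (.trZ (nat_lit 0) (nat_lit 1) (nat_lit 3) (nat_lit 84) (nat_lit 33) (nat_lit 100) (nat_lit 260) (.trX (nat_lit 4) (nat_lit 0) (nat_lit 2) (nat_lit 31) (nat_lit 95) (nat_lit 100) (nat_lit 270) (.trZ (nat_lit 3) (nat_lit 4) (nat_lit 5) (nat_lit 100) (nat_lit 97) (nat_lit 49) (nat_lit 20) (.leaf ⟨(nat_lit 144), (nat_lit 856), (nat_lit 0), (nat_lit 0), (nat_lit 0), (nat_lit 3409), (nat_lit 6577), (nat_lit 0), (nat_lit 0), (nat_lit 0), (nat_lit 86400), [((nat_lit 400), [((nat_lit 43), (nat_lit 2), (nat_lit 144))])], ⟨(nat_lit 8), false, true, false, (nat_lit 309), (nat_lit 0), (nat_lit 1582), [(nat_lit 1719869), (nat_lit 1723025), (nat_lit 1742527), (nat_lit 1747368), (nat_lit 1803773), (nat_lit 1799976), (nat_lit 1826447), (nat_lit 1824335)]⟩, ⟨(nat_lit 6), false, false, true, (nat_lit 209), (nat_lit 0), (nat_lit 1582), [(nat_lit 1461369), (nat_lit 1449993), (nat_lit 1554633), (nat_lit 1549998), (nat_lit 1502344), (nat_lit 1487492), (nat_lit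 1595608), (nat_lit 1587496)]⟩, (nat_lit 5447480), (nat_lit 34211319), (nat_lit 21431552), (nat_lit 11357129), (nat_lit 6), (nat_lit 0), [], [⟨(nat_lit 1), (nat_lit 95), (nat_lit 31), (nat_lit 100), (nat_lit 1166786912)⟩], [], [],
 ⟨⟨[(nat_lit 40), (nat_lit 60)], [(nat_lit 0), (nat_lit 2136)], [((nat_lit 0), (nat_lit 0), (nat_lit 0)), ((nat_lit 1000), (nat_lit 343), (nat_lit 808))], ((nat_lit 35), (nat_lit 100), (nat_lit 80))⟩, (nat_lit 2322129), (nat_lit 61), (nat_lit 61), (nat_lit 0), (nat_lit 0), [(nat_lit 1739536002), (nat_lit 2718211200)], [(nat_lit 0), (nat_lit 0)], [(nat_lit 26915051624), (nat_lit 27460724628), (nat_lit 28958121590), (nat_lit 29490346444), (nat_lit 27862811412), (nat_lit 28421698167), (nat_lit 29840243702), (nat_lit 30342127213)], (nat_lit 0), (nat_lit 0), (nat_lit 0), (nat_lit 0), (nat_lit 0), (nat_lit 0), [], [(nat_lit 1), (nat_lit 38), (nat_lit 203), (nat_lit 0), (nat_lit 8)]⟩,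
 ⟨⟨[(nat_lit 40), (nat_lit 80), (nat_lit 120)], [(nat_lit 0), (nat_lit 0), (nat_lit 2151)], [((nat_lit 0), (nat_lit 0), (nat_lit 0)), ((nat_lit 0), (nat_lit 0), (nat_lit 0)), ((nat_lit 1000), (nat_lit 815), (nat_lit 753))], ((nat_lit 81), (nat_lit 100), (nat_lit 72))⟩, (nat_lit 2966774), (nat_lit 659), (nat_lit 659), (nat_lit 0), (nat_lit 1254734), [(nat_lit 1739392000), (nat_lit 4012928000), (nat_lit 6820608000)], [], [(nat_lit 24040618937), (nat_lit 25362510917), (nat_lit 27582909349), (nat_lit 29458792950), (nat_lit 21646882728), (nat_lit 22129842923), (nat_lit 23007851362), (nat_lit 24510436954)], (nat_lit 1271251), (nat_lit 1271251), (nat_lit 1271251), (nat_lit 1271251), (nat_lit 111251), (nat_lit 1416250), [(nat_lit 490000), (nat_lit 1100000), (nat_lit 1785001)], [(nat_lit 4), (nat_lit 51), (nat_lit 273), (nat_lit 50), (nat_lit 8)]⟩,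
 Rw.none⟩))))))) (.spl (nat_lit 2) (nat_lit 160) (.trX (nat_lit 4) (nat_lit 0) (nat_lit 2) (nat_lit 44) (nat_lit 99) (nat_lit 100) (nat_lit 250) (.trX (nat_lit 5) (nat_lit 1) (nat_lit 2) (nat_lit 82) (nat_lit 76) (nat_lit 100) (nat_lit 340) (.spl (nat_lit 5) (nat_lit 280) (.leaf ⟨(nat_lit 709), (nat_lit 291), (nat_lit 0), (nat_lit 0), (nat_lit 0), (nat_lit 3123), (nat_lit 2022), (nat_lit 0), (nat_lit 0), (nat_lit 0), (nat_lit 344800), [((nat_lit 400), [((nat_lit 28), (nat_lit 1), (nat_lit 403)), ((nat_lit 43), (nat_lit 2), (nat_lit 306))])], ⟨(nat_lit 8), false, true, false, (nat_lit 301), (nat_lit 0), (nat_lit 2237), [(nat_lit 1675230), (nat_lit 1683322), (nat_lit 1697077), (nat_lit 1707396), (nat_lit 1807594), (nat_lit 1799902), (nat_lit 1829507), (nat_lit 1824041)]⟩, ⟨(nat_lit 4), false, false, true, (nat_lit 174), (nat_lit 0), (nat_lit 2237), [(nat_lit 1351885), (nat_lit 1349998), (nat_lit 1397434), (nat_lit 1399999), (nat_lit 1480164),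 (nat_lit 1462492), (nat_lit 1525715), (nat_lit 1512494)]⟩, (nat_lit 5185260), (nat_lit 36496057), (nat_lit 21589682), (nat_lit 8914261), (nat_lit 5), (nat_lit 0), [], [⟨(nat_lit 1), (nat_lit 99), (nat_lit 44), (nat_lit 100), (nat_lit 374603052)⟩], [], [],
 ⟨⟨[(nat_lit 40), (nat_lit 60), (nat_lit 80)], [(nat_lit 0), (nat_lit 1539), (nat_lit 2453)], [((nat_lit 0), (nat_lit 0), (nat_lit 0)), ((nat_lit 1000), (nat_lit 478), (nat_lit 704)), ((nat_lit 1000), (nat_lit 474), (nat_lit 714))], ((nat_lit 46), (nat_lit 100), (nat_lit 75))⟩, (nat_lit 0), (nat_lit 75), (nat_lit 75), (nat_lit 0), (nat_lit 0), [(nat_lit 1511435849), (nat_lit 1045977543), (nat_lit 1024008800)], [(nat_lit 0), (nat_lit 0), (nat_lit 0)], [(nat_lit 23544895408), (nat_lit 24691802668), (nat_lit 26656706349), (nat_lit 27810385052), (nat_lit 25588628205), (nat_lit 26678500159), (nat_lit 28445209664), (nat_lit 29453677949)], (nat_lit 0), (nat_lit 0), (nat_lit 0), (nat_lit 0), (nat_lit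 0), (nat_lit 0), [], [(nat_lit 2), (nat_lit 44), (nat_lit 203), (nat_lit 0), (nat_lit 7)]⟩,
 ⟨⟨[(nat_lit 40), (nat_lit 80), (nat_lit 120)], [(nat_lit 0), (nat_lit 0), (nat_lit 2151)], [((nat_lit 0), (nat_lit 0), (nat_lit 0)), ((nat_lit 0), (nat_lit 0), (nat_lit 0)), ((nat_lit 1000), (nat_lit 815), (nat_lit 753))], ((nat_lit 81), (nat_lit 100), (nat_lit 72))⟩, (nat_lit 468392), (nat_lit 569), (nat_lit 569), (nat_lit 0), (nat_lit 1254892), [(nat_lit 591312000), (nat_lit 1364208000), (nat_lit 2318688000)], [], [(nat_lit 8141102451), (nat_lit 8318084251), (nat_lit 8544181398), (nat_lit 8706230400), (nat_lit 8377865768), (nat_lit 8527590426), (nat_lit 8744097342), (nat_lit 8891183852)], (nat_lit 1271251), (nat_lit 1271251), (nat_lit 1271251), (nat_lit 1271251), (nat_lit 1271251), (nat_lit 1271251), [(nat_lit 490000), (nat_lit 1100000), (nat_lit 1785001)], [(nat_lit 4), (nat_lit 51), (nat_lit 373), (nat_lit 150), (nat_lit 11)]⟩,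
 Rw.none⟩) (.spl (nat_lit 0) (nat_lit 390) (.leaf ⟨(nat_lit 688), (nat_lit 312), (nat_lit 0), (nat_lit 0), (nat_lit 0), (nat_lit 3122), (nat_lit 2023), (nat_lit 0), (nat_lit 0), (nat_lit 0), (nat_lit 345800), [((nat_lit 390), [((nat_lit 28), (nat_lit 1), (nat_lit 335)), ((nat_lit 43), (nat_lit 2), (nat_lit 353))])], ⟨(nat_lit 8), false, true, false, (nat_lit 302), (nat_lit 1581), (nat_lit 2237), [(nat_lit 1679198), (nat_lit 1680658), (nat_lit 1701927), (nat_lit 1703927), (nat_lit 1807675), (nat_lit 1803781), (nat_lit 1830404), (nat_lit 1827050)]⟩, ⟨(nat_lit 4), false, false, true, (nat_lit 175), (nat_lit 1581), (nat_lit 2237), [(nat_lit 1351886), (nat_lit 1352103), (nat_lit 1397434), (nat_lit 1398733), (nat_lit 1480171), (nat_lit 1475033), (nat_lit 1525719), (nat_lit 1521663)]⟩, (nat_lit 5195201), (nat_lit 36402436), (nat_lit 21609846), (nat_lit 8987718), (nat_lit 7), (nat_lit 0), [], [⟨(nat_lit 1), (nat_lit 99), (nat_lit 44), (nat_lit 100),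 (nat_lit 367946143)⟩], [⟨(nat_lit 1), (nat_lit 76), (nat_lit 82), (nat_lit 100), (nat_lit 137438372)⟩], [],
 ⟨⟨[(nat_lit 40), (nat_lit 60), (nat_lit 80)], [(nat_lit 0), (nat_lit 1539), (nat_lit 2453)], [((nat_lit 0), (nat_lit 0), (nat_lit 0)), ((nat_lit 1000), (nat_lit 478), (nat_lit 704)), ((nat_lit 1000), (nat_lit 474), (nat_lit 714))], ((nat_lit 46), (nat_lit 100), (nat_lit 75))⟩, (nat_lit 0), (nat_lit 67), (nat_lit 67), (nat_lit 0), (nat_lit 0), [(nat_lit 1519744007), (nat_lit 1049192724), (nat_lit 1044536000)], [(nat_lit 0), (nat_lit 0), (nat_lit 0)], [(nat_lit 23574890801), (nat_lit 24148263887), (nat_lit 26673904928), (nat_lit 27225823829), (nat_lit 25618642575), (nat_lit 26150886963), (nat_lit 28444879670), (nat_lit 28948385350)], (nat_lit 0), (nat_lit 0), (nat_lit 0), (nat_lit 0), (nat_lit 0), (nat_lit 0), [], [(nat_lit 2), (nat_lit 44), (nat_lit 203), (nat_lit 0), (nat_lit 7)]⟩,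
 ⟨⟨[(nat_lit 40), (nat_lit 80), (nat_lit 120)], [(nat_lit 0), (nat_lit 0), (nat_lit 2151)], [((nat_lit 0), (nat_lit 0), (nat_lit 0)), ((nat_lit 0), (nat_lit 0), (nat_lit 0)), ((nat_lit 1000), (nat_lit 815), (nat_lit 753))], ((nat_lit 81), (nat_lit 100), (nat_lit 72))⟩, (nat_lit 507243), (nat_lit 517), (nat_lit 517), (nat_lit 0), (nat_lit 1156948), [(nat_lit 633984000), (nat_lit 1462656000), (nat_lit 2486016000)], [], [(nat_lit 9286974825), (nat_lit 9476559380), (nat_lit 9722750851), (nat_lit 9901122930), (nat_lit 9700708818), (nat_lit 9866290413), (nat_lit 10106781728), (nat_lit 10283281021)], (nat_lit 1271251), (nat_lit 1271251), (nat_lit 1271251), (nat_lit 1271251), (nat_lit 1271251), (nat_lit 1271251), [(nat_lit 490000), (nat_lit 1100000), (nat_lit 1785001)], [(nat_lit 4), (nat_lit 51), (nat_lit 317), (nat_lit 100), (nat_lit 9)]⟩,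
 Rw.none⟩) (.trZ (nat_lit 0) (nat_lit 1) (nat_lit 3) (nat_lit 84) (nat_lit 33) (nat_lit 100) (nat_lit 260) (.trX (nat_lit 4) (nat_lit 0) (nat_lit 2) (nat_lit 31) (nat_lit 100) (nat_lit 99) (nat_lit 230) (.leaf ⟨(nat_lit 772), (nat_lit 228), (nat_lit 0), (nat_lit 0), (nat_lit 0), (nat_lit 3168), (nat_lit 1513), (nat_lit 0), (nat_lit 0), (nat_lit 0), (nat_lit 233050), [((nat_lit 400), [((nat_lit 28), (nat_lit 0), (nat_lit 505)), ((nat_lit 28), (nat_lit 1), (nat_lit 267))])], ⟨(nat_lit 8), false, true, false, (nat_lit 309), (nat_lit 0), (nat_lit 1582), [(nat_lit 1719869), (nat_lit 1723025), (nat_lit 1742527), (nat_lit 1747368), (nat_lit 1803773), (nat_lit 1799976), (nat_lit 1826447), (nat_lit 1824335)]⟩, ⟨(nat_lit 4), false, false, true, (nat_lit 168), (nat_lit 0), (nat_lit 1582), [(nat_lit 1352101), (nat_lit 1349997), (nat_lit 1398733), (nat_lit 1399999), (nat_lit 1447710), (nat_lit 1437494), (nat_lit 1494343), (nat_lit 1487497)]⟩, (nat_lit 5155633),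 (nat_lit 36156880), (nat_lit 22430560), (nat_lit 8412560), (nat_lit 7), (nat_lit 0), [], [⟨(nat_lit 1), (nat_lit 100), (nat_lit 31), (nat_lit 99), (nat_lit 470563237)⟩], [⟨(nat_lit 1), (nat_lit 89), (nat_lit 80), (nat_lit 100), (nat_lit 95446074)⟩], [],
 ⟨⟨[(nat_lit 40), (nat_lit 60)], [(nat_lit 0), (nat_lit 2136)], [((nat_lit 0), (nat_lit 0), (nat_lit 0)), ((nat_lit 1000), (nat_lit 343), (nat_lit 808))], ((nat_lit 35), (nat_lit 100), (nat_lit 80))⟩, (nat_lit 0), (nat_lit 67), (nat_lit 67), (nat_lit 0), (nat_lit 0), [(nat_lit 1571878415), (nat_lit 1363247600)], [(nat_lit 0), (nat_lit 0)], [(nat_lit 25071809153), (nat_lit 25673160646), (nat_lit 27280783142), (nat_lit 27867117632), (nat_lit 26549495628), (nat_lit 27087455549), (nat_lit 28527692292), (nat_lit 29053136256)], (nat_lit 0), (nat_lit 0), (nat_lit 0), (nat_lit 0), (nat_lit 0), (nat_lit 0), [], [(nat_lit 1), (nat_lit 38), (nat_lit 203), (nat_lit 0), (nat_lit 8)]⟩,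
 ⟨⟨[(nat_lit 40), (nat_lit 80), (nat_lit 120)], [(nat_lit 0), (nat_lit 0), (nat_lit 2151)], [((nat_lit 0), (nat_lit 0), (nat_lit 0)), ((nat_lit 0), (nat_lit 0), (nat_lit 0)), ((nat_lit 1000), (nat_lit 815), (nat_lit 753))], ((nat_lit 81), (nat_lit 100), (nat_lit 72))⟩, (nat_lit 343116), (nat_lit 547), (nat_lit 547), (nat_lit 0), (nat_lit 1254734), [(nat_lit 463296000), (nat_lit 1068864000), (nat_lit 1816704000)], [], [(nat_lit 7068819704), (nat_lit 7177622283), (nat_lit 7247558636), (nat_lit 7341599940), (nat_lit 7295155342), (nat_lit 7388441434), (nat_lit 7456237067), (nat_lit 7550248832)], (nat_lit 1271251), (nat_lit 1271251), (nat_lit 1271251), (nat_lit 1271251), (nat_lit 1271251), (nat_lit 1271251), [(nat_lit 490000), (nat_lit 1100000), (nat_lit 1785001)], [(nat_lit 4), (nat_lit 51), (nat_lit 262), (nat_lit 0), (nat_lit 7)]⟩,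
 Rw.none⟩))))))) (.leaf ⟨(nat_lit 22), (nat_lit 800), (nat_lit 0), (nat_lit 178), (nat_lit 0), (nat_lit 3430), (nat_lit 6334), (nat_lit 1953), (nat_lit 0), (nat_lit 0), (nat_lit 88000), [((nat_lit 400), [((nat_lit 43), (nat_lit 5), (nat_lit 22))])], ⟨(nat_lit 8), false, true, false, (nat_lit 301), (nat_lit 0), (nat_lit 2237), [(nat_lit 1675230), (nat_lit 1683322), (nat_lit 1697077), (nat_lit 1707396), (nat_lit 1807594), (nat_lit 1799902), (nat_lit 1829507), (nat_lit 1824041)]⟩, ⟨(nat_lit 4), false, false, true, (nat_lit 204), (nat_lit 0), (nat_lit 2237), [(nat_lit 1397434), (nat_lit 1399999), (nat_lit 1441142), (nat_lit 1448157), (nat_lit 1582729), (nat_lit 1562493), (nat_lit 1628279), (nat_lit 1612494)]⟩, (nat_lit 5397028), (nat_lit 35041433), (nat_lit 20892245), (nat_lit 11066322), (nat_lit 5), (nat_lit 0), [⟨(nat_lit 0), (nat_lit 82), (nat_lit 34), (nat_lit 100), (nat_lit 589842643)⟩], [⟨(nat_lit 1), (nat_lit 98), (nat_lit 31), (nat_lit 100),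 (nat_lit 552878172)⟩], [⟨(nat_lit 1), (nat_lit 73), (nat_lit 76), (nat_lit 100), (nat_lit 240842202)⟩], [],
 ⟨⟨[(nat_lit 40), (nat_lit 60), (nat_lit 80)], [(nat_lit 0), (nat_lit 1539), (nat_lit 2453)], [((nat_lit 0), (nat_lit 0), (nat_lit 0)), ((nat_lit 1000), (nat_lit 478), (nat_lit 704)), ((nat_lit 1000), (nat_lit 474), (nat_lit 714))], ((nat_lit 46), (nat_lit 100), (nat_lit 75))⟩, (nat_lit 2565679), (nat_lit 75), (nat_lit 75), (nat_lit 0), (nat_lit 0), [(nat_lit 1823484019), (nat_lit 3461975755), (nat_lit 3969858400)], [(nat_lit 0), (nat_lit 0), (nat_lit 0)], [(nat_lit 23721511013), (nat_lit 25043732533), (nat_lit 27102047948), (nat_lit 28197427320), (nat_lit 27340514479), (nat_lit 28388177032), (nat_lit 29987180107), (nat_lit 30934348430)], (nat_lit 0), (nat_lit 0), (nat_lit 0), (nat_lit 0), (nat_lit 0), (nat_lit 0), [], [(nat_lit 2), (nat_lit 44), (nat_lit 203), (nat_lit 0), (nat_lit 7)]⟩,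
 ⟨⟨[(nat_lit 40), (nat_lit 80), (nat_lit 120)], [(nat_lit 0), (nat_lit 0), (nat_lit 2151)], [((nat_lit 0), (nat_lit 0), (nat_lit 0)), ((nat_lit 0), (nat_lit 0), (nat_lit 0)), ((nat_lit 1000), (nat_lit 815), (nat_lit 753))], ((nat_lit 81), (nat_lit 100), (nat_lit 72))⟩, (nat_lit 2652305), (nat_lit 507), (nat_lit 507), (nat_lit 0), (nat_lit 1093655), [(nat_lit 1987296000), (nat_lit 4584864000), (nat_lit 7792704000)], [], [(nat_lit 27443661176), (nat_lit 28247027037), (nat_lit 29529260000), (nat_lit 30189721384), (nat_lit 30990405156), (nat_lit 31552642691), (nat_lit 32293390324), (nat_lit 33330007609)], (nat_lit 1271251), (nat_lit 1271251), (nat_lit 1271251), (nat_lit 1271251), (nat_lit 1271251), (nat_lit 1271251), [(nat_lit 490000), (nat_lit 1100000), (nat_lit 1785001)], [(nat_lit 4), (nat_lit 51), (nat_lit 401), (nat_lit 175), (nat_lit 12)]⟩,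
 ⟨⟨[(nat_lit 120), (nat_lit 160), (nat_lit 200)], [(nat_lit 0), (nat_lit 0), (nat_lit 3198)], [((nat_lit 0), (nat_lit 0), (nat_lit 0)), ((nat_lit 0), (nat_lit 0), (nat_lit 0)), ((nat_lit 572), (nat_lit 1000), (nat_lit 714))], ((nat_lit 0), (nat_lit 0), (nat_lit 0))⟩, (nat_lit 269857), (nat_lit 300), (nat_lit 2173), (nat_lit 13207600), (nat_lit 3894599), [(nat_lit 1418304000), (nat_lit 2113216000), (nat_lit 2919200000)], [], [(nat_lit 10630983650), (nat_lit 10391497683), (nat_lit 9929733708), (nat_lit 9680841079), (nat_lit 9982285274), (nat_lit 9740950398), (nat_lit 9305986567), (nat_lit 9056233034)], (nat_lit 1100000), (nat_lit 1442501), (nat_lit 1100000), (nat_lit 2213126), (nat_lit 1271251), (nat_lit 1271251), [(nat_lit 1695001), (nat_lit 1271251), (nat_lit 1271251)], [(nat_lit 29), (nat_lit 66), (nat_lit 650), (nat_lit 225), (nat_lit 13)]⟩⟩))) (.leaf ⟨(nat_lit 0), (nat_lit 761), (nat_lit 0), (nat_lit 239), (nat_lit 0), (nat_lit 4571), (nat_lit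 6470), (nat_lit 1774), (nat_lit 0), (nat_lit 0), (nat_lit 0), [], Pd.none, Pd.none, (nat_lit 0), (nat_lit 1), (nat_lit 0), (nat_lit 0), (nat_lit 4), (nat_lit 0), [⟨(nat_lit 0), (nat_lit 82), (nat_lit 44), (nat_lit 100), (nat_lit 177623747)⟩], [⟨(nat_lit 1), (nat_lit 100), (nat_lit 31), (nat_lit 99), (nat_lit 105191769)⟩, ⟨(nat_lit 1), (nat_lit 90), (nat_lit 44), (nat_lit 100), (nat_lit 210768417)⟩], [], [],
 ⟨⟨[(nat_lit 40), (nat_lit 60), (nat_lit 80)], [(nat_lit 0), (nat_lit 1539), (nat_lit 2453)], [((nat_lit 0), (nat_lit 0), (nat_lit 0)), ((nat_lit 1000), (nat_lit 478), (nat_lit 704)), ((nat_lit 1000), (nat_lit 474), (nat_lit 714))], ((nat_lit 46), (nat_lit 100), (nat_lit 75))⟩, (nat_lit 567190), (nat_lit 187), (nat_lit 187), (nat_lit 0), (nat_lit 399199), [(nat_lit 2032000004), (nat_lit 3282000006), (nat_lit 4688000000)], [], [(nat_lit 25420972985), (nat_lit 26575046500), (nat_lit 28353683557), (nat_lit 29635913404), (nat_lit 28355737644),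 (nat_lit 29516116229), (nat_lit 31169245962), (nat_lit 32258308921)], (nat_lit 1271251), (nat_lit 1271251), (nat_lit 1271251), (nat_lit 1271251), (nat_lit 1100000), (nat_lit 2213126), [(nat_lit 490000), (nat_lit 780000), (nat_lit 1100000)], [(nat_lit 2), (nat_lit 44), (nat_lit 203), (nat_lit 0), (nat_lit 7)]⟩,
 ⟨⟨[(nat_lit 40), (nat_lit 80), (nat_lit 120)], [(nat_lit 0), (nat_lit 0), (nat_lit 2151)], [((nat_lit 0), (nat_lit 0), (nat_lit 0)), ((nat_lit 0), (nat_lit 0), (nat_lit 0)), ((nat_lit 1000), (nat_lit 815), (nat_lit 753))], ((nat_lit 81), (nat_lit 100), (nat_lit 72))⟩, (nat_lit 1378710), (nat_lit 370), (nat_lit 370), (nat_lit 0), (nat_lit 498595), [(nat_lit 2032000000), (nat_lit 4688000000), (nat_lit 7968000000)], [], [(nat_lit 28563383600), (nat_lit 29861524198), (nat_lit 32066052950), (nat_lit 33513964390), (nat_lit 30487484350), (nat_lit 31191566967), (nat_lit 33013352680), (nat_lit 34072780975)], (nat_lit 1271251), (nat_lit 1271251),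 (nat_lit 1271251), (nat_lit 1271251), (nat_lit 0), (nat_lit 2542501), [(nat_lit 490000), (nat_lit 1100000), (nat_lit 1785001)], [(nat_lit 4), (nat_lit 51), (nat_lit 401), (nat_lit 175), (nat_lit 13)]⟩,
 ⟨⟨[(nat_lit 140), (nat_lit 180), (nat_lit 200)], [(nat_lit 0), (nat_lit 0), (nat_lit 2835)], [((nat_lit 0), (nat_lit 0), (nat_lit 0)), ((nat_lit 0), (nat_lit 0), (nat_lit 0)), ((nat_lit 363), (nat_lit 1000), (nat_lit 798))], ((nat_lit 0), (nat_lit 0), (nat_lit 0))⟩, (nat_lit 65757), (nat_lit 300), (nat_lit 1261), (nat_lit 18665900), (nat_lit 1698427), [(nat_lit 2352238000), (nat_lit 3359862000), (nat_lit 3919600000)], [], [(nat_lit 24027093890), (nat_lit 23566087847), (nat_lit 23446367896), (nat_lit 22980442677), (nat_lit 21915810421), (nat_lit 21458750394), (nat_lit 21315336793), (nat_lit 20855832681)], (nat_lit 780000), (nat_lit 1435001), (nat_lit 1100000), (nat_lit 2213126), (nat_lit 0), (nat_lit 2542501), [(nat_lit 1977501), (nat_lit 1271251),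 (nat_lit 1271251)], [(nat_lit 32), (nat_lit 67), (nat_lit 456), (nat_lit 225), (nat_lit 10)]⟩⟩))
noncomputable def c15_10 : Tr Lf :=
 (.spl (nat_lit 2) (nat_lit 160) (.trX (nat_lit 4) (nat_lit 0) (nat_lit 2) (nat_lit 44) (nat_lit 99) (nat_lit 100) (nat_lit 250) (.leaf ⟨(nat_lit 130), (nat_lit 870), (nat_lit 0), (nat_lit 0), (nat_lit 0), (nat_lit 3180), (nat_lit 5963), (nat_lit 0), (nat_lit 0), (nat_lit 0), (nat_lit 86400), [((nat_lit 400), [((nat_lit 43), (nat_lit 2), (nat_lit 109)), ((nat_lit 28), (nat_lit 2), (nat_lit 21))])], ⟨(nat_lit 8), false, true, true, (nat_lit 345), (nat_lit 0), (nat_lit 2237), [(nat_lit 1807594), (nat_lit 1799902), (nat_lit 1829507), (nat_lit 1824041), (nat_lit 1907465), (nat_lit 1887496), (nat_lit 1930241), (nat_lit 1912498)]⟩, ⟨(nat_lit 4), false, false, true, (nat_lit 174), (nat_lit 0), (nat_lit 2237), [(nat_lit 1351885), (nat_lit 1349998), (nat_lit 1397434), (nat_lit 1399999), (nat_lit 1480164), (nat_lit 1462492),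 (nat_lit 1525715), (nat_lit 1512494)]⟩, (nat_lit 5232012), (nat_lit 33354552), (nat_lit 25317328), (nat_lit 8328120), (nat_lit 4), (nat_lit 0), [], [⟨(nat_lit 1), (nat_lit 100), (nat_lit 31), (nat_lit 95), (nat_lit 920705822)⟩], [], [],
 ⟨⟨[(nat_lit 40), (nat_lit 60), (nat_lit 80)], [(nat_lit 0), (nat_lit 1539), (nat_lit 2453)], [((nat_lit 0), (nat_lit 0), (nat_lit 0)), ((nat_lit 1000), (nat_lit 478), (nat_lit 704)), ((nat_lit 1000), (nat_lit 474), (nat_lit 714))], ((nat_lit 46), (nat_lit 100), (nat_lit 75))⟩, (nat_lit 2557915), (nat_lit 96), (nat_lit 96), (nat_lit 0), (nat_lit 0), [(nat_lit 1749039608), (nat_lit 3403225096), (nat_lit 3834436400)], [(nat_lit 0), (nat_lit 0), (nat_lit 0)], [(nat_lit 27098724876), (nat_lit 28159175296), (nat_lit 30306064151), (nat_lit 31199162860), (nat_lit 28864864339), (nat_lit 29785941006), (nat_lit 31668126720), (nat_lit 32449034735)], (nat_lit 0), (nat_lit 0), (nat_lit 0), (nat_lit 0), (nat_lit 0), (nat_lit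 0), [], [(nat_lit 2), (nat_lit 44), (nat_lit 203), (nat_lit 0), (nat_lit 6)]⟩,
 ⟨⟨[(nat_lit 40), (nat_lit 80), (nat_lit 120)], [(nat_lit 0), (nat_lit 0), (nat_lit 2151)], [((nat_lit 0), (nat_lit 0), (nat_lit 0)), ((nat_lit 0), (nat_lit 0), (nat_lit 0)), ((nat_lit 1000), (nat_lit 815), (nat_lit 753))], ((nat_lit 81), (nat_lit 100), (nat_lit 72))⟩, (nat_lit 2253232), (nat_lit 659), (nat_lit 659), (nat_lit 0), (nat_lit 1254892), [(nat_lit 1767840000), (nat_lit 4078560000), (nat_lit 6932160000)], [], [(nat_lit 29633856859), (nat_lit 30164662436), (nat_lit 33622529131), (nat_lit 35012578596), (nat_lit 27151115856), (nat_lit 27562855430), (nat_lit 28592204365), (nat_lit 29056950321)], (nat_lit 1271251), (nat_lit 1271251), (nat_lit 1271251), (nat_lit 1271251), (nat_lit 54688), (nat_lit 1414376), [(nat_lit 490000), (nat_lit 1100000), (nat_lit 1785001)], [(nat_lit 4), (nat_lit 51), (nat_lit 281), (nat_lit 50), (nat_lit 8)]⟩,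
 Rw.none⟩)) (.leaf ⟨(nat_lit 22), (nat_lit 978), (nat_lit 0), (nat_lit 0), (nat_lit 0), (nat_lit 3306), (nat_lit 6559), (nat_lit 0), (nat_lit 0), (nat_lit 0), (nat_lit 88000), [((nat_lit 400), [((nat_lit 43), (nat_lit 5), (nat_lit 22))])], ⟨(nat_lit 8), false, true, true, (nat_lit 345), (nat_lit 0), (nat_lit 2237), [(nat_lit 1807594), (nat_lit 1799902), (nat_lit 1829507), (nat_lit 1824041), (nat_lit 1907465), (nat_lit 1887496), (nat_lit 1930241), (nat_lit 1912498)]⟩, ⟨(nat_lit 4), false, false, true, (nat_lit 204), (nat_lit 0), (nat_lit 2237), [(nat_lit 1397434), (nat_lit 1399999), (nat_lit 1441142), (nat_lit 1448157), (nat_lit 1582729), (nat_lit 1562493), (nat_lit 1628279), (nat_lit 1612494)]⟩, (nat_lit 5439934), (nat_lit 32154445), (nat_lit 24502282), (nat_lit 10343273), (nat_lit 4), (nat_lit 0), [], [⟨(nat_lit 1), (nat_lit 98), (nat_lit 31), (nat_lit 100), (nat_lit 1003011761)⟩], [], [],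
 ⟨⟨[(nat_lit 40), (nat_lit 60), (nat_lit 80)], [(nat_lit 0), (nat_lit 1539), (nat_lit 2453)], [((nat_lit 0), (nat_lit 0), (nat_lit 0)), ((nat_lit 1000), (nat_lit 478), (nat_lit 704)), ((nat_lit 1000), (nat_lit 474), (nat_lit 714))], ((nat_lit 46), (nat_lit 100), (nat_lit 75))⟩, (nat_lit 2799725), (nat_lit 96), (nat_lit 96), (nat_lit 0), (nat_lit 0), [(nat_lit 1823484011), (nat_lit 3645014736), (nat_lit 3969858400)], [(nat_lit 0), (nat_lit 0), (nat_lit 0)], [(nat_lit 27174248544), (nat_lit 28252164958), (nat_lit 30428545499), (nat_lit 31405799962), (nat_lit 30063500774), (nat_lit 30930147417), (nat_lit 32709666486), (nat_lit 33508094561)], (nat_lit 0), (nat_lit 0), (nat_lit 0), (nat_lit 0), (nat_lit 0), (nat_lit 0), [], [(nat_lit 2), (nat_lit 44), (nat_lit 203), (nat_lit 0), (nat_lit 6)]⟩,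
 ⟨⟨[(nat_lit 40), (nat_lit 80), (nat_lit 120)], [(nat_lit 0), (nat_lit 0), (nat_lit 2151)], [((nat_lit 0), (nat_lit 0), (nat_lit 0)), ((nat_lit 0), (nat_lit 0), (nat_lit 0)), ((nat_lit 1000), (nat_lit 815), (nat_lit 753))], ((nat_lit 81), (nat_lit 100), (nat_lit 72))⟩, (nat_lit 2472660), (nat_lit 604), (nat_lit 604), (nat_lit 0), (nat_lit 1093655), [(nat_lit 1987296000), (nat_lit 4584864000), (nat_lit 7792704000)], [], [(nat_lit 32560016646), (nat_lit 33271429871), (nat_lit 37425810300), (nat_lit 38968714548), (nat_lit 29927644602), (nat_lit 30484443809), (nat_lit 31876441825), (nat_lit 32488488868)], (nat_lit 1271251), (nat_lit 1271251), (nat_lit 1271251), (nat_lit 1271251), (nat_lit 54688), (nat_lit 1414376), [(nat_lit 490000), (nat_lit 1100000), (nat_lit 1785001)], [(nat_lit 4), (nat_lit 51), (nat_lit 268), (nat_lit 50), (nat_lit 8)]⟩,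
 Rw.none⟩))
noncomputable def c15_11 : Tr Lf :=
 (.spl (nat_lit 2) (nat_lit 160) (.trX (nat_lit 4) (nat_lit 0) (nat_lit 2) (nat_lit 44) (nat_lit 99) (nat_lit 100) (nat_lit 250) (.trX (nat_lit 5) (nat_lit 1) (nat_lit 2) (nat_lit 82) (nat_lit 76) (nat_lit 100) (nat_lit 340) (.spl (nat_lit 5) (nat_lit 280) (.spl (nat_lit 2) (nat_lit 140) (.trX (nat_lit 4) (nat_lit 0) (nat_lit 2) (nat_lit 44) (nat_lit 100) (nat_lit 96) (nat_lit 230) (.leaf ⟨(nat_lit 402), (nat_lit 598), (nat_lit 0), (nat_lit 0), (nat_lit 0), (nat_lit 3049), (nat_lit 3926), (nat_lit 0), (nat_lit 0), (nat_lit 0), (nat_lit 241200), [((nat_lit 400), [((nat_lit 43), (nat_lit 2), (nat_lit 402))])], ⟨(nat_lit 8), false, true, true, (nat_lit 345), (nat_lit 0), (nat_lit 2237), [(nat_lit 1807594), (nat_lit 1799902), (nat_lit 1829507), (nat_lit 1824041), (nat_lit 1907465), (nat_lit 1887496), (nat_lit 1930241), (nat_lit 1912498)]⟩, ⟨(nat_lit 4), false, false, true, (nat_lit 164), (nat_lit 0),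 (nat_lit 2237), [(nat_lit 1351885), (nat_lit 1349998), (nat_lit 1374660), (nat_lit 1374999), (nat_lit 1451658), (nat_lit 1437494), (nat_lit 1474433), (nat_lit 1462494)]⟩, (nat_lit 5151793), (nat_lit 33755354), (nat_lit 25586276), (nat_lit 7658370), (nat_lit 5), (nat_lit 0), [⟨(nat_lit 1), (nat_lit 68), (nat_lit 41), (nat_lit 100), (nat_lit 133193961)⟩], [⟨(nat_lit 1), (nat_lit 100), (nat_lit 31), (nat_lit 94), (nat_lit 659538128)⟩], [], [],
 ⟨⟨[(nat_lit 40), (nat_lit 60), (nat_lit 80)], [(nat_lit 0), (nat_lit 1539), (nat_lit 2453)], [((nat_lit 0), (nat_lit 0), (nat_lit 0)), ((nat_lit 1000), (nat_lit 478), (nat_lit 704)), ((nat_lit 1000), (nat_lit 474), (nat_lit 714))], ((nat_lit 46), (nat_lit 100), (nat_lit 75))⟩, (nat_lit 1168056), (nat_lit 96), (nat_lit 96), (nat_lit 0), (nat_lit 0), [(nat_lit 1634788002), (nat_lit 2044289314), (nat_lit 2251880000)], [(nat_lit 0), (nat_lit 0), (nat_lit 0)], [(nat_lit 26946498117), (nat_lit 27988789448), (nat_lit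 30105016312), (nat_lit 30984325873), (nat_lit 28256266194), (nat_lit 29194124152), (nat_lit 31112490392), (nat_lit 31908255465)], (nat_lit 0), (nat_lit 0), (nat_lit 0), (nat_lit 0), (nat_lit 0), (nat_lit 0), [], [(nat_lit 2), (nat_lit 44), (nat_lit 203), (nat_lit 0), (nat_lit 6)]⟩,
 ⟨⟨[(nat_lit 40), (nat_lit 80), (nat_lit 120)], [(nat_lit 0), (nat_lit 0), (nat_lit 2151)], [((nat_lit 0), (nat_lit 0), (nat_lit 0)), ((nat_lit 0), (nat_lit 0), (nat_lit 0)), ((nat_lit 1000), (nat_lit 815), (nat_lit 753))], ((nat_lit 81), (nat_lit 100), (nat_lit 72))⟩, (nat_lit 1271018), (nat_lit 555), (nat_lit 555), (nat_lit 0), (nat_lit 1254892), [(nat_lit 1215136000), (nat_lit 2803424000), (nat_lit 4764864000)], [], [(nat_lit 18738816148), (nat_lit 19077124495), (nat_lit 19922895363), (nat_lit 20201460777), (nat_lit 19183494616), (nat_lit 19470503897), (nat_lit 20188027100), (nat_lit 20725653247)], (nat_lit 1271251), (nat_lit 1271251), (nat_lit 1271251), (nat_lit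 1271251), (nat_lit 1271251), (nat_lit 1271251), [(nat_lit 490000), (nat_lit 1100000), (nat_lit 1785001)], [(nat_lit 4), (nat_lit 51), (nat_lit 289), (nat_lit 75), (nat_lit 8)]⟩,
 Rw.none⟩)) (.leaf ⟨(nat_lit 240), (nat_lit 760), (nat_lit 0), (nat_lit 0), (nat_lit 0), (nat_lit 3124), (nat_lit 4852), (nat_lit 0), (nat_lit 0), (nat_lit 0), (nat_lit 144000), [((nat_lit 400), [((nat_lit 43), (nat_lit 2), (nat_lit 240))])], ⟨(nat_lit 8), false, true, true, (nat_lit 345), (nat_lit 0), (nat_lit 2237), [(nat_lit 1807594), (nat_lit 1799902), (nat_lit 1829507), (nat_lit 1824041), (nat_lit 1907465), (nat_lit 1887496), (nat_lit 1930241), (nat_lit 1912498)]⟩, ⟨(nat_lit 4), false, false, true, (nat_lit 179), (nat_lit 0), (nat_lit 2237), [(nat_lit 1374660), (nat_lit 1374999), (nat_lit 1397434), (nat_lit 1399999), (nat_lit 1502940), (nat_lit 1487494), (nat_lit 1525715), (nat_lit 1512494)]⟩, (nat_lit 5268233), (nat_lit 33163589), (nat_lit 25188597), (nat_lit 8647814),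 (nat_lit 5), (nat_lit 0), [⟨(nat_lit 1), (nat_lit 68), (nat_lit 41), (nat_lit 100), (nat_lit 119283515)⟩], [⟨(nat_lit 1), (nat_lit 100), (nat_lit 31), (nat_lit 97), (nat_lit 807972510)⟩], [], [],
 ⟨⟨[(nat_lit 40), (nat_lit 60), (nat_lit 80)], [(nat_lit 0), (nat_lit 1539), (nat_lit 2453)], [((nat_lit 0), (nat_lit 0), (nat_lit 0)), ((nat_lit 1000), (nat_lit 478), (nat_lit 704)), ((nat_lit 1000), (nat_lit 474), (nat_lit 714))], ((nat_lit 46), (nat_lit 100), (nat_lit 75))⟩, (nat_lit 1990705), (nat_lit 96), (nat_lit 96), (nat_lit 0), (nat_lit 0), [(nat_lit 1700560030), (nat_lit 2753854406), (nat_lit 3233600000)], [(nat_lit 0), (nat_lit 0), (nat_lit 0)], [(nat_lit 27034372448), (nat_lit 28087060204), (nat_lit 30220841643), (nat_lit 31107550082), (nat_lit 28805180456), (nat_lit 29720167382), (nat_lit 31592333866), (nat_lit 32368887182)], (nat_lit 0), (nat_lit 0), (nat_lit 0), (nat_lit 0), (nat_lit 0), (nat_lit 0), [], [(nat_lit 2), (nat_lit 44), (nat_lit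 203), (nat_lit 0), (nat_lit 6)]⟩,
 ⟨⟨[(nat_lit 40), (nat_lit 80), (nat_lit 120)], [(nat_lit 0), (nat_lit 0), (nat_lit 2151)], [((nat_lit 0), (nat_lit 0), (nat_lit 0)), ((nat_lit 0), (nat_lit 0), (nat_lit 0)), ((nat_lit 1000), (nat_lit 815), (nat_lit 753))], ((nat_lit 81), (nat_lit 100), (nat_lit 72))⟩, (nat_lit 1565026), (nat_lit 524), (nat_lit 524), (nat_lit 0), (nat_lit 1164954), [(nat_lit 1544320000), (nat_lit 3562880000), (nat_lit 6055680000)], [], [(nat_lit 23253883384), (nat_lit 23764448760), (nat_lit 25040862200), (nat_lit 25462767501), (nat_lit 24018584312), (nat_lit 24453566132), (nat_lit 25541020682), (nat_lit 26178957681)], (nat_lit 1271251), (nat_lit 1271251), (nat_lit 1271251), (nat_lit 1271251), (nat_lit 1271251), (nat_lit 1271251), [(nat_lit 490000), (nat_lit 1100000), (nat_lit 1785001)], [(nat_lit 4), (nat_lit 51), (nat_lit 289), (nat_lit 75), (nat_lit 8)]⟩,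
 Rw.none⟩)) (.spl (nat_lit 2) (nat_lit 140) (.trX (nat_lit 4) (nat_lit 0) (nat_lit 2) (nat_lit 44) (nat_lit 100) (nat_lit 96) (nat_lit 230) (.trX (nat_lit 5) (nat_lit 1) (nat_lit 2) (nat_lit 84) (nat_lit 85) (nat_lit 100) (nat_lit 320) (.spl (nat_lit 0) (nat_lit 390) (.leaf ⟨(nat_lit 579), (nat_lit 421), (nat_lit 0), (nat_lit 0), (nat_lit 0), (nat_lit 3002), (nat_lit 2644), (nat_lit 0), (nat_lit 0), (nat_lit 0), (nat_lit 347400), [((nat_lit 390), [((nat_lit 43), (nat_lit 2), (nat_lit 579))])], ⟨(nat_lit 8), false, true, true, (nat_lit 346), (nat_lit 1581), (nat_lit 2237), [(nat_lit 1807675), (nat_lit 1803781), (nat_lit 1830404), (nat_lit 1827050), (nat_lit 1907468), (nat_lit 1899409), (nat_lit 1930242), (nat_lit 1922724)]⟩, ⟨(nat_lit 4), false, false, true, (nat_lit 165), (nat_lit 1581), (nat_lit 2237), [(nat_lit 1351886), (nat_lit 1352103), (nat_lit 1374660), (nat_lit 1375418), (nat_lit 1451663), (nat_lit 1447715), (nat_lit 1474437), (nat_lit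 1471030)]⟩, (nat_lit 5160680), (nat_lit 33606844), (nat_lit 25683826), (nat_lit 7709330), (nat_lit 7), (nat_lit 0), [⟨(nat_lit 1), (nat_lit 60), (nat_lit 50), (nat_lit 100), (nat_lit 179240090)⟩], [⟨(nat_lit 1), (nat_lit 100), (nat_lit 38), (nat_lit 94), (nat_lit 430036853)⟩], [⟨(nat_lit 1), (nat_lit 85), (nat_lit 84), (nat_lit 100), (nat_lit 160653353)⟩], [],
 ⟨⟨[(nat_lit 40), (nat_lit 60), (nat_lit 80)], [(nat_lit 0), (nat_lit 1539), (nat_lit 2453)], [((nat_lit 0), (nat_lit 0), (nat_lit 0)), ((nat_lit 1000), (nat_lit 478), (nat_lit 704)), ((nat_lit 1000), (nat_lit 474), (nat_lit 714))], ((nat_lit 46), (nat_lit 100), (nat_lit 75))⟩, (nat_lit 79468), (nat_lit 93), (nat_lit 93), (nat_lit 0), (nat_lit 0), [(nat_lit 1562926048), (nat_lit 1205013732), (nat_lit 1179260000)], [(nat_lit 0), (nat_lit 0), (nat_lit 0)], [(nat_lit 26830140570), (nat_lit 27348028689), (nat_lit 29971142805), (nat_lit 30429354146), (nat_lit 28143852617), (nat_lit 28610064309),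 (nat_lit 30985627587), (nat_lit 31381554800)], (nat_lit 0), (nat_lit 0), (nat_lit 0), (nat_lit 0), (nat_lit 0), (nat_lit 0), [], [(nat_lit 2), (nat_lit 44), (nat_lit 203), (nat_lit 0), (nat_lit 6)]⟩,
 ⟨⟨[(nat_lit 40), (nat_lit 80), (nat_lit 120)], [(nat_lit 0), (nat_lit 0), (nat_lit 2151)], [((nat_lit 0), (nat_lit 0), (nat_lit 0)), ((nat_lit 0), (nat_lit 0), (nat_lit 0)), ((nat_lit 1000), (nat_lit 815), (nat_lit 753))], ((nat_lit 81), (nat_lit 100), (nat_lit 72))⟩, (nat_lit 909732), (nat_lit 506), (nat_lit 506), (nat_lit 0), (nat_lit 1156948), [(nat_lit 855472000), (nat_lit 1973648000), (nat_lit 3354528000)], [], [(nat_lit 13499733146), (nat_lit 13739559613), (nat_lit 14339125779), (nat_lit 14536592529), (nat_lit 13799985616), (nat_lit 14018304919), (nat_lit 14564103177), (nat_lit 14960148284)], (nat_lit 1271251), (nat_lit 1271251), (nat_lit 1271251), (nat_lit 1271251), (nat_lit 1271251), (nat_lit 1271251), [(nat_lit 490000), (nat_lit 1100000),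 (nat_lit 1785001)], [(nat_lit 4), (nat_lit 51), (nat_lit 258), (nat_lit 0), (nat_lit 6)]⟩,
 Rw.none⟩) (.trX (nat_lit 3) (nat_lit 0) (nat_lit 1) (nat_lit 44) (nat_lit 64) (nat_lit 100) (nat_lit 380) (.trX (nat_lit 4) (nat_lit 0) (nat_lit 2) (nat_lit 31) (nat_lit 100) (nat_lit 95) (nat_lit 210) (.leaf ⟨(nat_lit 723), (nat_lit 277), (nat_lit 0), (nat_lit 0), (nat_lit 0), (nat_lit 2959), (nat_lit 1777), (nat_lit 0), (nat_lit 0), (nat_lit 0), (nat_lit 289200), [((nat_lit 400), [((nat_lit 28), (nat_lit 1), (nat_lit 723))])], ⟨(nat_lit 8), false, true, true, (nat_lit 341), (nat_lit 0), (nat_lit 1582), [(nat_lit 1803773), (nat_lit 1799976), (nat_lit 1826447), (nat_lit 1824335), (nat_lit 1885748), (nat_lit 1874997), (nat_lit 1909064), (nat_lit 1899997)]⟩, ⟨(nat_lit 4), false, false, true, (nat_lit 158), (nat_lit 0), (nat_lit 1582), [(nat_lit 1352101), (nat_lit 1349997), (nat_lit 1375418), (nat_lit 1374999), (nat_lit 1420394), (nat_lit 1412496), (nat_lit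 1443710), (nat_lit 1437497)]⟩, (nat_lit 5104775), (nat_lit 34242620), (nat_lit 25416775), (nat_lit 7340605), (nat_lit 7), (nat_lit 0), [⟨(nat_lit 1), (nat_lit 64), (nat_lit 44), (nat_lit 100), (nat_lit 229542285)⟩], [⟨(nat_lit 1), (nat_lit 100), (nat_lit 31), (nat_lit 95), (nat_lit 454627912)⟩], [⟨(nat_lit 1), (nat_lit 93), (nat_lit 81), (nat_lit 100), (nat_lit 9452462)⟩, ⟨(nat_lit 1), (nat_lit 85), (nat_lit 84), (nat_lit 100), (nat_lit 92526107)⟩], [],
 ⟨⟨[(nat_lit 40), (nat_lit 60)], [(nat_lit 0), (nat_lit 2136)], [((nat_lit 0), (nat_lit 0), (nat_lit 0)), ((nat_lit 1000), (nat_lit 343), (nat_lit 808))], ((nat_lit 35), (nat_lit 100), (nat_lit 80))⟩, (nat_lit 0), (nat_lit 81), (nat_lit 81), (nat_lit 0), (nat_lit 0), [(nat_lit 1506775603), (nat_lit 1143944400)], [(nat_lit 0), (nat_lit 0)], [(nat_lit 27257784800), (nat_lit 27772692610), (nat_lit 29885876389), (nat_lit 30374856282), (nat_lit 28162169237), (nat_lit 28640518370), (nat_lit 30597677560),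 (nat_lit 31052537728)], (nat_lit 0), (nat_lit 0), (nat_lit 0), (nat_lit 0), (nat_lit 0), (nat_lit 0), [], [(nat_lit 1), (nat_lit 38), (nat_lit 203), (nat_lit 0), (nat_lit 8)]⟩,
 ⟨⟨[(nat_lit 40), (nat_lit 80), (nat_lit 120)], [(nat_lit 0), (nat_lit 0), (nat_lit 2151)], [((nat_lit 0), (nat_lit 0), (nat_lit 0)), ((nat_lit 0), (nat_lit 0), (nat_lit 0)), ((nat_lit 1000), (nat_lit 815), (nat_lit 753))], ((nat_lit 81), (nat_lit 100), (nat_lit 72))⟩, (nat_lit 412908), (nat_lit 540), (nat_lit 540), (nat_lit 0), (nat_lit 1254734), [(nat_lit 562864000), (nat_lit 1298576000), (nat_lit 2207136000)], [], [(nat_lit 9149170690), (nat_lit 9262989719), (nat_lit 9503232451), (nat_lit 9615048359), (nat_lit 9275360200), (nat_lit 9383629973), (nat_lit 9623968479), (nat_lit 9732765249)], (nat_lit 1271251), (nat_lit 1271251), (nat_lit 1271251), (nat_lit 1271251), (nat_lit 1271251), (nat_lit 1271251), [(nat_lit 490000), (nat_lit 1100000), (nat_lit 1785001)], [(nat_lit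 4), (nat_lit 51), (nat_lit 265), (nat_lit 0), (nat_lit 6)]⟩,
 Rw.none⟩)))))) (.spl (nat_lit 6) (nat_lit 32) (.spl (nat_lit 6) (nat_lit 16) (.leaf ⟨(nat_lit 22), (nat_lit 978), (nat_lit 0), (nat_lit 0), (nat_lit 0), (nat_lit 3265), (nat_lit 5218), (nat_lit 0), (nat_lit 0), (nat_lit 0), (nat_lit 88000), [((nat_lit 400), [((nat_lit 43), (nat_lit 5), (nat_lit 22))])], ⟨(nat_lit 8), false, true, true, (nat_lit 345), (nat_lit 0), (nat_lit 2237), [(nat_lit 1807594), (nat_lit 1799902), (nat_lit 1829507), (nat_lit 1824041), (nat_lit 1907465), (nat_lit 1887496), (nat_lit 1930241), (nat_lit 1912498)]⟩, ⟨(nat_lit 4), false, false, true, (nat_lit 179), (nat_lit 0), (nat_lit 2237), [(nat_lit 1374660), (nat_lit 1374999), (nat_lit 1397434), (nat_lit 1399999), (nat_lit 1502940), (nat_lit 1487494), (nat_lit 1525715), (nat_lit 1512494)]⟩, (nat_lit 5268233), (nat_lit 33163589), (nat_lit 25188597), (nat_lit 8647814), (nat_lit 7), (nat_lit 0), [], [⟨(nat_lit 1),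 (nat_lit 100), (nat_lit 31), (nat_lit 97), (nat_lit 862468043)⟩], [⟨(nat_lit 1), (nat_lit 76), (nat_lit 82), (nat_lit 100), (nat_lit 441830735)⟩], [],
 ⟨⟨[(nat_lit 40)], [(nat_lit 0)], [((nat_lit 0), (nat_lit 0), (nat_lit 0))], ((nat_lit 58), (nat_lit 100), (nat_lit 52))⟩, (nat_lit 264621), (nat_lit 75), (nat_lit 75), (nat_lit 0), (nat_lit 0), [(nat_lit 1823484000)], [(nat_lit 0)], [(nat_lit 27198121305), (nat_lit 28270354340), (nat_lit 30437138380), (nat_lit 31338560905), (nat_lit 28957174584), (nat_lit 29887494608), (nat_lit 31784888080), (nat_lit 32572405908)], (nat_lit 0), (nat_lit 0), (nat_lit 0), (nat_lit 0), (nat_lit 0), (nat_lit 0), [], [(nat_lit 0), (nat_lit 37), (nat_lit 203), (nat_lit 0), (nat_lit 11)]⟩,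
 ⟨⟨[(nat_lit 40), (nat_lit 60), (nat_lit 80)], [(nat_lit 0), (nat_lit 0), (nat_lit 615)], [((nat_lit 0), (nat_lit 0), (nat_lit 0)), ((nat_lit 0), (nat_lit 0), (nat_lit 0)), ((nat_lit 1000), (nat_lit 819), (nat_lit 426))], ((nat_lit 82), (nat_lit 100), (nat_lit 40))⟩, (nat_lit 4682379), (nat_lit 422), (nat_lit 422), (nat_lit 0), (nat_lit 1151593), [(nat_lit 1987296000), (nat_lit 3209796000), (nat_lit 4584864000)], [], [(nat_lit 30269750360), (nat_lit 30856252317), (nat_lit 32322507210), (nat_lit 32816693660), (nat_lit 31615563502), (nat_lit 32130452218), (nat_lit 33637261997), (nat_lit 34454927344)], (nat_lit 1271251), (nat_lit 1271251), (nat_lit 1271251), (nat_lit 1271251), (nat_lit 1271251), (nat_lit 1271251), [(nat_lit 490000), (nat_lit 780000), (nat_lit 1100000)], [(nat_lit 2), (nat_lit 44), (nat_lit 240), (nat_lit 0), (nat_lit 8)]⟩,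
 Rw.none⟩) (.leaf ⟨(nat_lit 22), (nat_lit 853), (nat_lit 0), (nat_lit 125), (nat_lit 0), (nat_lit 3265), (nat_lit 5834), (nat_lit 1381), (nat_lit 0), (nat_lit 0), (nat_lit 88000), [((nat_lit 400), [((nat_lit 43), (nat_lit 5), (nat_lit 22))])], ⟨(nat_lit 8), false, true, true, (nat_lit 345), (nat_lit 0), (nat_lit 2237), [(nat_lit 1807594), (nat_lit 1799902), (nat_lit 1829507), (nat_lit 1824041), (nat_lit 1907465), (nat_lit 1887496), (nat_lit 1930241), (nat_lit 1912498)]⟩, ⟨(nat_lit 4), false, false, true, (nat_lit 179), (nat_lit 0), (nat_lit 2237), [(nat_lit 1374660), (nat_lit 1374999), (nat_lit 1397434), (nat_lit 1399999), (nat_lit 1502940), (nat_lit 1487494), (nat_lit 1525715), (nat_lit 1512494)]⟩, (nat_lit 5268233), (nat_lit 33163589), (nat_lit 25188597), (nat_lit 8647814), (nat_lit 7), (nat_lit 0), [], [⟨(nat_lit 1), (nat_lit 100), (nat_lit 31), (nat_lit 97), (nat_lit 585199264)⟩], [⟨(nat_lit 1), (nat_lit 85), (nat_lit 78), (nat_lit 100),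 (nat_lit 340373181)⟩], [⟨(nat_lit 1), (nat_lit 76), (nat_lit 63), (nat_lit 100), (nat_lit 12372470)⟩],
 ⟨⟨[(nat_lit 40), (nat_lit 60)], [(nat_lit 0), (nat_lit 1539)], [((nat_lit 0), (nat_lit 0), (nat_lit 0)), ((nat_lit 1000), (nat_lit 478), (nat_lit 704))], ((nat_lit 51), (nat_lit 100), (nat_lit 63))⟩, (nat_lit 608869), (nat_lit 83), (nat_lit 83), (nat_lit 0), (nat_lit 0), [(nat_lit 1823484022), (nat_lit 2838752800)], [(nat_lit 0), (nat_lit 0)], [(nat_lit 27296113186), (nat_lit 28323717891), (nat_lit 30437138424), (nat_lit 31338560905), (nat_lit 28994425401), (nat_lit 29887494652), (nat_lit 31784888124), (nat_lit 32572405952)], (nat_lit 0), (nat_lit 0), (nat_lit 0), (nat_lit 0), (nat_lit 0), (nat_lit 0), [], [(nat_lit 1), (nat_lit 38), (nat_lit 203), (nat_lit 0), (nat_lit 8)]⟩,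
 ⟨⟨[(nat_lit 40), (nat_lit 80), (nat_lit 100)], [(nat_lit 0), (nat_lit 0), (nat_lit 1280)], [((nat_lit 0), (nat_lit 0), (nat_lit 0)), ((nat_lit 0), (nat_lit 0), (nat_lit 0)), ((nat_lit 1000), (nat_lit 800), (nat_lit 600))], ((nat_lit 80), (nat_lit 100), (nat_lit 54))⟩, (nat_lit 1201728), (nat_lit 386), (nat_lit 386), (nat_lit 0), (nat_lit 953481), [(nat_lit 1987296000), (nat_lit 4584864000), (nat_lit 6112500000)], [], [(nat_lit 31212782420), (nat_lit 31823254489), (nat_lit 33388208460), (nat_lit 33927500788), (nat_lit 32555988212), (nat_lit 33121070219), (nat_lit 34533775237), (nat_lit 35234600488)], (nat_lit 1271251), (nat_lit 1271251), (nat_lit 1271251), (nat_lit 1271251), (nat_lit 1271251), (nat_lit 1271251), [(nat_lit 490000), (nat_lit 1100000), (nat_lit 1442501)], [(nat_lit 3), (nat_lit 50), (nat_lit 231), (nat_lit 0), (nat_lit 6)]⟩,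
 ⟨⟨[(nat_lit 140), (nat_lit 160), (nat_lit 180)], [(nat_lit 0), (nat_lit 304), (nat_lit 1085)], [((nat_lit 0), (nat_lit 0), (nat_lit 0)), ((nat_lit 913), (nat_lit 1000), (nat_lit 217)), ((nat_lit 759), (nat_lit 1000), (nat_lit 463))], ((nat_lit 100), (nat_lit 67), (nat_lit 57))⟩, (nat_lit 256579), (nat_lit 300), (nat_lit 2358), (nat_lit 8787500), (nat_lit 4383340), [(nat_lit 1230250000), (nat_lit 1484000000), (nat_lit 1757250000)], [], [(nat_lit 5978149231), (nat_lit 5876608096), (nat_lit 5688305137), (nat_lit 5588000340), (nat_lit 5932734761), (nat_lit 5831058651), (nat_lit 5631447131), (nat_lit 5528028966)], (nat_lit 936250), (nat_lit 1100000), (nat_lit 1100000), (nat_lit 1870626), (nat_lit 1271251), (nat_lit 1271251), [(nat_lit 1977501), (nat_lit 1271251), (nat_lit 1271251)], [(nat_lit 31), (nat_lit 65), (nat_lit 684), (nat_lit 200), (nat_lit 15)]⟩⟩)) (.leaf ⟨(nat_lit 20), (nat_lit 856), (nat_lit 0), (nat_lit 124), (nat_lit 0), (nat_lit 3286),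 (nat_lit 5900), (nat_lit 1356), (nat_lit 0), (nat_lit 0), (nat_lit 80000), [((nat_lit 400), [((nat_lit 43), (nat_lit 5), (nat_lit 20))])], ⟨(nat_lit 8), false, true, true, (nat_lit 345), (nat_lit 0), (nat_lit 2237), [(nat_lit 1807594), (nat_lit 1799902), (nat_lit 1829507), (nat_lit 1824041), (nat_lit 1907465), (nat_lit 1887496), (nat_lit 1930241), (nat_lit 1912498)]⟩, ⟨(nat_lit 4), false, false, true, (nat_lit 179), (nat_lit 0), (nat_lit 2237), [(nat_lit 1374660), (nat_lit 1374999), (nat_lit 1397434), (nat_lit 1399999), (nat_lit 1502940), (nat_lit 1487494), (nat_lit 1525715), (nat_lit 1512494)]⟩, (nat_lit 5268233), (nat_lit 33163589), (nat_lit 25188597), (nat_lit 8647814), (nat_lit 7), (nat_lit 0), [], [⟨(nat_lit 1), (nat_lit 100), (nat_lit 31), (nat_lit 97), (nat_lit 544143442)⟩], [⟨(nat_lit 1), (nat_lit 85), (nat_lit 78), (nat_lit 100), (nat_lit 334329442)⟩], [],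
 ⟨⟨[(nat_lit 40), (nat_lit 60), (nat_lit 80)], [(nat_lit 0), (nat_lit 1539), (nat_lit 2453)], [((nat_lit 0), (nat_lit 0), (nat_lit 0)), ((nat_lit 1000), (nat_lit 478), (nat_lit 704)), ((nat_lit 1000), (nat_lit 474), (nat_lit 714))], ((nat_lit 46), (nat_lit 100), (nat_lit 75))⟩, (nat_lit 938710), (nat_lit 96), (nat_lit 96), (nat_lit 0), (nat_lit 0), [(nat_lit 1842440004), (nat_lit 3092754528), (nat_lit 4035144000)], [(nat_lit 0), (nat_lit 0), (nat_lit 0)], [(nat_lit 27449075832), (nat_lit 28429071102), (nat_lit 30470649145), (nat_lit 31373739591), (nat_lit 29060993656), (nat_lit 29913882385), (nat_lit 31814862725), (nat_lit 32604013565)], (nat_lit 0), (nat_lit 0), (nat_lit 0), (nat_lit 0), (nat_lit 0), (nat_lit 0), [], [(nat_lit 2), (nat_lit 44), (nat_lit 203), (nat_lit 0), (nat_lit 6)]⟩,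
 ⟨⟨[(nat_lit 40), (nat_lit 80), (nat_lit 120)], [(nat_lit 0), (nat_lit 0), (nat_lit 2151)], [((nat_lit 0), (nat_lit 0), (nat_lit 0)), ((nat_lit 0), (nat_lit 0), (nat_lit 0)), ((nat_lit 1000), (nat_lit 815), (nat_lit 753))], ((nat_lit 81), (nat_lit 100), (nat_lit 72))⟩, (nat_lit 1601536), (nat_lit 370), (nat_lit 370), (nat_lit 0), (nat_lit 797910), [(nat_lit 1991360000), (nat_lit 4594240000), (nat_lit 7808640000)], [], [(nat_lit 31200393024), (nat_lit 31769493264), (nat_lit 33271134900), (nat_lit 33812774955), (nat_lit 32432178104), (nat_lit 32999798900), (nat_lit 34516602293), (nat_lit 35375090860)], (nat_lit 1271251), (nat_lit 1271251), (nat_lit 1271251), (nat_lit 1271251), (nat_lit 1271251), (nat_lit 1271251), [(nat_lit 490000), (nat_lit 1100000), (nat_lit 1785001)], [(nat_lit 4), (nat_lit 51), (nat_lit 227), (nat_lit 0), (nat_lit 5)]⟩,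
 ⟨⟨[(nat_lit 140), (nat_lit 180), (nat_lit 200)], [(nat_lit 0), (nat_lit 608), (nat_lit 3317)], [((nat_lit 0), (nat_lit 0), (nat_lit 0)), ((nat_lit 913), (nat_lit 1000), (nat_lit 217)), ((nat_lit 385), (nat_lit 1000), (nat_lit 814))], ((nat_lit 0), (nat_lit 0), (nat_lit 0))⟩, (nat_lit 286342), (nat_lit 300), (nat_lit 2078), (nat_lit 8717201), (nat_lit 3753666), [(nat_lit 1220408000), (nat_lit 1743192000), (nat_lit 2033600000)], [], [(nat_lit 6809341096), (nat_lit 6701249728), (nat_lit 6468242667), (nat_lit 6359406944), (nat_lit 6712621970), (nat_lit 6602359340), (nat_lit 6357094917), (nat_lit 6247403888)], (nat_lit 936250), (nat_lit 1100000), (nat_lit 1100000), (nat_lit 1870626), (nat_lit 1271251), (nat_lit 1271251), [(nat_lit 1977501), (nat_lit 1271251), (nat_lit 1271251)], [(nat_lit 32), (nat_lit 67), (nat_lit 614), (nat_lit 200), (nat_lit 12)]⟩⟩)))))) (.leaf ⟨(nat_lit 23), (nat_lit 810), (nat_lit 0), (nat_lit 167), (nat_lit 0), (nat_lit 3263),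 (nat_lit 5976), (nat_lit 1837), (nat_lit 0), (nat_lit 0), (nat_lit 92000), [((nat_lit 400), [((nat_lit 43), (nat_lit 5), (nat_lit 23))])], ⟨(nat_lit 8), false, true, true, (nat_lit 345), (nat_lit 0), (nat_lit 2237), [(nat_lit 1807594), (nat_lit 1799902), (nat_lit 1829507), (nat_lit 1824041), (nat_lit 1907465), (nat_lit 1887496), (nat_lit 1930241), (nat_lit 1912498)]⟩, ⟨(nat_lit 4), false, false, true, (nat_lit 204), (nat_lit 0), (nat_lit 2237), [(nat_lit 1397434), (nat_lit 1399999), (nat_lit 1441142), (nat_lit 1448157), (nat_lit 1582729), (nat_lit 1562493), (nat_lit 1628279), (nat_lit 1612494)]⟩, (nat_lit 5439934), (nat_lit 32154445), (nat_lit 24502282), (nat_lit 10343273), (nat_lit 5), (nat_lit 0), [], [⟨(nat_lit 1), (nat_lit 98), (nat_lit 31), (nat_lit 100), (nat_lit 575504693)⟩], [⟨(nat_lit 1), (nat_lit 73), (nat_lit 76), (nat_lit 100), (nat_lit 241404514)⟩], [],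
 ⟨⟨[(nat_lit 40), (nat_lit 60), (nat_lit 80)], [(nat_lit 0), (nat_lit 1539), (nat_lit 2453)], [((nat_lit 0), (nat_lit 0), (nat_lit 0)), ((nat_lit 1000), (nat_lit 478), (nat_lit 704)), ((nat_lit 1000), (nat_lit 474), (nat_lit 714))], ((nat_lit 46), (nat_lit 100), (nat_lit 75))⟩, (nat_lit 2481759), (nat_lit 96), (nat_lit 96), (nat_lit 0), (nat_lit 0), [(nat_lit 1821966004), (nat_lit 3388795729), (nat_lit 3937215600)], [(nat_lit 0), (nat_lit 0), (nat_lit 0)], [(nat_lit 27196249839), (nat_lit 28268205636), (nat_lit 30434521554), (nat_lit 31335286160), (nat_lit 30086930803), (nat_lit 30949520531), (nat_lit 32715283016), (nat_lit 33447635465)], (nat_lit 0), (nat_lit 0), (nat_lit 0), (nat_lit 0), (nat_lit 0), (nat_lit 0), [], [(nat_lit 2), (nat_lit 44), (nat_lit 203), (nat_lit 0), (nat_lit 6)]⟩,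
 ⟨⟨[(nat_lit 40), (nat_lit 80), (nat_lit 120)], [(nat_lit 0), (nat_lit 0), (nat_lit 2151)], [((nat_lit 0), (nat_lit 0), (nat_lit 0)), ((nat_lit 0), (nat_lit 0), (nat_lit 0)), ((nat_lit 1000), (nat_lit 815), (nat_lit 753))], ((nat_lit 81), (nat_lit 100), (nat_lit 72))⟩, (nat_lit 2402291), (nat_lit 500), (nat_lit 500), (nat_lit 0), (nat_lit 1093655), [(nat_lit 1985264000), (nat_lit 4580176000), (nat_lit 7784736000)], [], [(nat_lit 31037009290), (nat_lit 31683378406), (nat_lit 33299301196), (nat_lit 33835563947), (nat_lit 33744804534), (nat_lit 34197315052), (nat_lit 35437441194), (nat_lit 36247199431)], (nat_lit 1271251), (nat_lit 1271251), (nat_lit 1271251), (nat_lit 1271251), (nat_lit 1271251), (nat_lit 1271251), [(nat_lit 490000), (nat_lit 1100000), (nat_lit 1785001)], [(nat_lit 4), (nat_lit 51), (nat_lit 317), (nat_lit 100), (nat_lit 9)]⟩,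
 ⟨⟨[(nat_lit 120), (nat_lit 160), (nat_lit 200)], [(nat_lit 0), (nat_lit 0), (nat_lit 3198)], [((nat_lit 0), (nat_lit 0), (nat_lit 0)), ((nat_lit 0), (nat_lit 0), (nat_lit 0)), ((nat_lit 572), (nat_lit 1000), (nat_lit 714))], ((nat_lit 0), (nat_lit 0), (nat_lit 0))⟩, (nat_lit 307877), (nat_lit 300), (nat_lit 2173), (nat_lit 12391400), (nat_lit 3894599), [(nat_lit 1330656000), (nat_lit 1982624000), (nat_lit 2738800000)], [], [(nat_lit 9938788902), (nat_lit 9710630663), (nat_lit 9286541971), (nat_lit 9052242870), (nat_lit 9344103906), (nat_lit 9116891722), (nat_lit 8707271075), (nat_lit 8472149520)], (nat_lit 1100000), (nat_lit 1442501), (nat_lit 1100000), (nat_lit 2213126), (nat_lit 1271251), (nat_lit 1271251), [(nat_lit 1695001), (nat_lit 1271251), (nat_lit 1271251)], [(nat_lit 29), (nat_lit 66), (nat_lit 650), (nat_lit 225), (nat_lit 13)]⟩⟩))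
noncomputable def c15_12 : Tr Lf :=
 (.leaf ⟨(nat_lit 0), (nat_lit 775), (nat_lit 0), (nat_lit 225), (nat_lit 0), (nat_lit 4278), (nat_lit 6177), (nat_lit 1657), (nat_lit 0), (nat_lit 0), (nat_lit 0), [], Pd.none, Pd.none, (nat_lit 0), (nat_lit 1), (nat_lit 0), (nat_lit 0), (nat_lit 4), (nat_lit 0), [], [⟨(nat_lit 1), (nat_lit 100), (nat_lit 31), (nat_lit 99), (nat_lit 354759790)⟩], [], [],
 ⟨⟨[(nat_lit 40), (nat_lit 60), (nat_lit 80)], [(nat_lit 0), (nat_lit 1539), (nat_lit 2453)], [((nat_lit 0), (nat_lit 0), (nat_lit 0)), ((nat_lit 1000), (nat_lit 478), (nat_lit 704)), ((nat_lit 1000), (nat_lit 474), (nat_lit 714))], ((nat_lit 46), (nat_lit 100), (nat_lit 75))⟩, (nat_lit 645630), (nat_lit 201), (nat_lit 201), (nat_lit 0), (nat_lit 399199), [(nat_lit 2032000002), (nat_lit 3282000004), (nat_lit 4688000000)], [], [(nat_lit 28701321292), (nat_lit 29633313288), (nat_lit 31897656573), (nat_lit 32999857606), (nat_lit 30984280741), (nat_lit 31918326078),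 (nat_lit 34004245067), (nat_lit 34875777171)], (nat_lit 1271251), (nat_lit 1271251), (nat_lit 1271251), (nat_lit 1271251), (nat_lit 1100000), (nat_lit 2213126), [(nat_lit 490000), (nat_lit 780000), (nat_lit 1100000)], [(nat_lit 2), (nat_lit 44), (nat_lit 203), (nat_lit 0), (nat_lit 6)]⟩,
 ⟨⟨[(nat_lit 40), (nat_lit 80), (nat_lit 120)], [(nat_lit 0), (nat_lit 0), (nat_lit 2151)], [((nat_lit 0), (nat_lit 0), (nat_lit 0)), ((nat_lit 0), (nat_lit 0), (nat_lit 0)), ((nat_lit 1000), (nat_lit 815), (nat_lit 753))], ((nat_lit 81), (nat_lit 100), (nat_lit 72))⟩, (nat_lit 836034), (nat_lit 374), (nat_lit 374), (nat_lit 0), (nat_lit 498595), [(nat_lit 2032000000), (nat_lit 4688000000), (nat_lit 7968000000)], [], [(nat_lit 34558874629), (nat_lit 35423778494), (nat_lit 37586038158), (nat_lit 38616702483), (nat_lit 34761766780), (nat_lit 35238545659), (nat_lit 36518942818), (nat_lit 37180371258)], (nat_lit 1271251), (nat_lit 1271251), (nat_lit 1271251), (nat_lit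 1271251), (nat_lit 54688), (nat_lit 2559376), [(nat_lit 490000), (nat_lit 1100000), (nat_lit 1785001)], [(nat_lit 4), (nat_lit 51), (nat_lit 317), (nat_lit 100), (nat_lit 9)]⟩,
 ⟨⟨[(nat_lit 140), (nat_lit 180), (nat_lit 200)], [(nat_lit 0), (nat_lit 0), (nat_lit 2835)], [((nat_lit 0), (nat_lit 0), (nat_lit 0)), ((nat_lit 0), (nat_lit 0), (nat_lit 0)), ((nat_lit 363), (nat_lit 1000), (nat_lit 798))], ((nat_lit 0), (nat_lit 0), (nat_lit 0))⟩, (nat_lit 61905), (nat_lit 300), (nat_lit 1254), (nat_lit 17572500), (nat_lit 1698427), [(nat_lit 2214450000), (nat_lit 3163050000), (nat_lit 3690000000)], [], [(nat_lit 22568569619), (nat_lit 22140649729), (nat_lit 22030865971), (nat_lit 21598167371), (nat_lit 20696030781), (nat_lit 20270200276), (nat_lit 20137833890), (nat_lit 19710216762)], (nat_lit 780000), (nat_lit 1435001), (nat_lit 1100000), (nat_lit 2213126), (nat_lit 54688), (nat_lit 2559376), [(nat_lit 1977501), (nat_lit 1271251), (nat_lit 1271251)],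 [(nat_lit 32), (nat_lit 67), (nat_lit 456), (nat_lit 225), (nat_lit 10)]⟩⟩)
noncomputable def c15_13 : Tr Lf :=
 (.trZ (nat_lit 0) (nat_lit 1) (nat_lit 3) (nat_lit 75) (nat_lit 46) (nat_lit 100) (nat_lit 260) (.trZ (nat_lit 1) (nat_lit 2) (nat_lit 5) (nat_lit 100) (nat_lit 78) (nat_lit 39) (nat_lit 10) (.trX (nat_lit 5) (nat_lit 1) (nat_lit 2) (nat_lit 71) (nat_lit 70) (nat_lit 100) (nat_lit 350) (.spl (nat_lit 5) (nat_lit 200) (.leaf ⟨(nat_lit 0), (nat_lit 1000), (nat_lit 0), (nat_lit 0), (nat_lit 0), (nat_lit 4192), (nat_lit 5087), (nat_lit 0), (nat_lit 0), (nat_lit 0), (nat_lit 0), [], Pd.none, Pd.none, (nat_lit 0), (nat_lit 1), (nat_lit 0), (nat_lit 0), (nat_lit 4), (nat_lit 0), [], [⟨(nat_lit 1), (nat_lit 100), (nat_lit 31), (nat_lit 99), (nat_lit 225340875)⟩, ⟨(nat_lit 1), (nat_lit 90), (nat_lit 44), (nat_lit 100), (nat_lit 502187630)⟩], [], [],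
 ⟨⟨[(nat_lit 40), (nat_lit 60), (nat_lit 80)], [(nat_lit 0), (nat_lit 1539), (nat_lit 2453)], [((nat_lit 0), (nat_lit 0), (nat_lit 0)), ((nat_lit 1000), (nat_lit 478), (nat_lit 704)), ((nat_lit 1000), (nat_lit 474), (nat_lit 714))], ((nat_lit 46), (nat_lit 100), (nat_lit 75))⟩, (nat_lit 868377), (nat_lit 211), (nat_lit 211), (nat_lit 0), (nat_lit 427382), [(nat_lit 2032000001), (nat_lit 3314674332), (nat_lit 4688000000)], [], [(nat_lit 26189791668), (nat_lit 27285485958), (nat_lit 32330145216), (nat_lit 33387493952), (nat_lit 29043136962), (nat_lit 29918227694), (nat_lit 34335306455), (nat_lit 35174229976)], (nat_lit 1271251), (nat_lit 1271251), (nat_lit 1271251), (nat_lit 1271251), (nat_lit 1100000), (nat_lit 2213126), [(nat_lit 490000), (nat_lit 780000), (nat_lit 1100000)], [(nat_lit 2), (nat_lit 44), (nat_lit 203), (nat_lit 0), (nat_lit 7)]⟩,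
 ⟨⟨[(nat_lit 40), (nat_lit 80), (nat_lit 120)], [(nat_lit 0), (nat_lit 795), (nat_lit 2800)], [((nat_lit 0), (nat_lit 0), (nat_lit 0)), ((nat_lit 1000), (nat_lit 814), (nat_lit 310)), ((nat_lit 1000), (nat_lit 719), (nat_lit 783))], ((nat_lit 71), (nat_lit 100), (nat_lit 71))⟩, (nat_lit 2986013), (nat_lit 650), (nat_lit 650), (nat_lit 0), (nat_lit 1210013), [(nat_lit 2032000000), (nat_lit 4688000000), (nat_lit 7968000000)], [], [(nat_lit 27303882340), (nat_lit 28091223098), (nat_lit 36266497786), (nat_lit 37572882355), (nat_lit 26891182412), (nat_lit 27521428433), (nat_lit 31901144904), (nat_lit 32981666767)], (nat_lit 1271251), (nat_lit 1271251), (nat_lit 1271251), (nat_lit 1271251), (nat_lit 54688), (nat_lit 1414376), [(nat_lit 490000), (nat_lit 1100000), (nat_lit 1785001)], [(nat_lit 4), (nat_lit 51), (nat_lit 283), (nat_lit 50), (nat_lit 8)]⟩,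
 Rw.none⟩) (.spl (nat_lit 3) (nat_lit 320) (.leaf ⟨(nat_lit 22), (nat_lit 978), (nat_lit 0), (nat_lit 0), (nat_lit 0), (nat_lit 4103), (nat_lit 4693), (nat_lit 0), (nat_lit 0), (nat_lit 0), (nat_lit 88000), [((nat_lit 400), [((nat_lit 43), (nat_lit 5), (nat_lit 22))])], ⟨(nat_lit 8), false, true, false, (nat_lit 319), (nat_lit 0), (nat_lit 2237), [(nat_lit 1741221), (nat_lit 1746278), (nat_lit 1763069), (nat_lit 1770351), (nat_lit 1829507), (nat_lit 1824041), (nat_lit 1851355), (nat_lit 1848114)]⟩, ⟨(nat_lit 4), false, false, true, (nat_lit 194), (nat_lit 0), (nat_lit 2237), [(nat_lit 1351885), (nat_lit 1349998), (nat_lit 1441142), (nat_lit 1448157), (nat_lit 1537178), (nat_lit 1512490), (nat_lit 1628279), (nat_lit 1612494)]⟩, (nat_lit 5360700), (nat_lit 34305420), (nat_lit 22600242), (nat_lit 10094338), (nat_lit 5), (nat_lit 0), [⟨(nat_lit 0), (nat_lit 75), (nat_lit 46), (nat_lit 100), (nat_lit 154423371)⟩], [⟨(nat_lit 1), (nat_lit 90), (nat_lit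 44), (nat_lit 100), (nat_lit 674931273)⟩], [⟨(nat_lit 1), (nat_lit 70), (nat_lit 71), (nat_lit 100), (nat_lit 455117182)⟩], [],
 ⟨⟨[(nat_lit 40), (nat_lit 60), (nat_lit 80)], [(nat_lit 0), (nat_lit 1539), (nat_lit 2453)], [((nat_lit 0), (nat_lit 0), (nat_lit 0)), ((nat_lit 1000), (nat_lit 478), (nat_lit 704)), ((nat_lit 1000), (nat_lit 474), (nat_lit 714))], ((nat_lit 46), (nat_lit 100), (nat_lit 75))⟩, (nat_lit 575933), (nat_lit 195), (nat_lit 195), (nat_lit 0), (nat_lit 427382), [(nat_lit 1823484013), (nat_lit 2838752926), (nat_lit 3969858400)], [(nat_lit 0), (nat_lit 0), (nat_lit 0)], [(nat_lit 25910103040), (nat_lit 26946019813), (nat_lit 27838001410), (nat_lit 29045894572), (nat_lit 28634146178), (nat_lit 29822529543), (nat_lit 30676848420), (nat_lit 31715264653)], (nat_lit 1271251), (nat_lit 1271251), (nat_lit 1271251), (nat_lit 1271251), (nat_lit 1100000), (nat_lit 2213126), [(nat_lit 490000), (nat_lit 780000), (nat_lit 1100000)], [(nat_lit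 2), (nat_lit 44), (nat_lit 203), (nat_lit 0), (nat_lit 7)]⟩,
 ⟨⟨[(nat_lit 40), (nat_lit 80), (nat_lit 120)], [(nat_lit 0), (nat_lit 795), (nat_lit 2800)], [((nat_lit 0), (nat_lit 0), (nat_lit 0)), ((nat_lit 1000), (nat_lit 814), (nat_lit 310)), ((nat_lit 1000), (nat_lit 719), (nat_lit 783))], ((nat_lit 71), (nat_lit 100), (nat_lit 71))⟩, (nat_lit 3027817), (nat_lit 545), (nat_lit 545), (nat_lit 0), (nat_lit 1210013), [(nat_lit 1987296000), (nat_lit 4584864000), (nat_lit 7792704000)], [], [(nat_lit 26101439750), (nat_lit 26794886891), (nat_lit 27504995527), (nat_lit 28122617869), (nat_lit 29093476126), (nat_lit 30167398959), (nat_lit 31082531556), (nat_lit 32016809690)], (nat_lit 1271251), (nat_lit 1271251), (nat_lit 1271251), (nat_lit 1271251), (nat_lit 1271251), (nat_lit 1271251), [(nat_lit 490000), (nat_lit 1100000), (nat_lit 1785001)], [(nat_lit 4), (nat_lit 51), (nat_lit 317), (nat_lit 100), (nat_lit 9)]⟩,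
 Rw.none⟩) (.leaf ⟨(nat_lit 22), (nat_lit 978), (nat_lit 0), (nat_lit 0), (nat_lit 0), (nat_lit 3866), (nat_lit 4528), (nat_lit 0), (nat_lit 0), (nat_lit 0), (nat_lit 88000), [((nat_lit 400), [((nat_lit 43), (nat_lit 5), (nat_lit 22))])], ⟨(nat_lit 8), false, true, true, (nat_lit 357), (nat_lit 0), (nat_lit 2237), [(nat_lit 1829507), (nat_lit 1824041), (nat_lit 1851355), (nat_lit 1848114), (nat_lit 1944494), (nat_lit 1924997), (nat_lit 1967269), (nat_lit 1949998)]⟩, ⟨(nat_lit 4), false, false, true, (nat_lit 194), (nat_lit 0), (nat_lit 2237), [(nat_lit 1351885), (nat_lit 1349998), (nat_lit 1441142), (nat_lit 1448157), (nat_lit 1537178), (nat_lit 1512490), (nat_lit 1628279), (nat_lit 1612494)]⟩, (nat_lit 5375924), (nat_lit 31759904), (nat_lit 25742767), (nat_lit 9497329), (nat_lit 5), (nat_lit 0), [], [⟨(nat_lit 1), (nat_lit 100), (nat_lit 31), (nat_lit 99), (nat_lit 271894242)⟩, ⟨(nat_lit 1), (nat_lit 90), (nat_lit 44), (nat_lit 100), (nat_lit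 413224203)⟩], [⟨(nat_lit 1), (nat_lit 70), (nat_lit 71), (nat_lit 100), (nat_lit 441297085)⟩], [],
 ⟨⟨[(nat_lit 40), (nat_lit 60), (nat_lit 80)], [(nat_lit 0), (nat_lit 1539), (nat_lit 2453)], [((nat_lit 0), (nat_lit 0), (nat_lit 0)), ((nat_lit 1000), (nat_lit 478), (nat_lit 704)), ((nat_lit 1000), (nat_lit 474), (nat_lit 714))], ((nat_lit 46), (nat_lit 100), (nat_lit 75))⟩, (nat_lit 690922), (nat_lit 211), (nat_lit 211), (nat_lit 0), (nat_lit 427382), [(nat_lit 1823484008), (nat_lit 2919347293), (nat_lit 3969858400)], [(nat_lit 0), (nat_lit 0), (nat_lit 0)], [(nat_lit 28061784330), (nat_lit 28995116846), (nat_lit 31813175068), (nat_lit 32835199096), (nat_lit 30488145774), (nat_lit 31440261466), (nat_lit 33888088653), (nat_lit 34704031048)], (nat_lit 1271251), (nat_lit 1271251), (nat_lit 1271251), (nat_lit 1271251), (nat_lit 1100000), (nat_lit 2213126), [(nat_lit 490000), (nat_lit 780000), (nat_lit 1100000)], [(nat_lit 2), (nat_lit 44), (nat_lit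 203), (nat_lit 0), (nat_lit 6)]⟩,
 ⟨⟨[(nat_lit 40), (nat_lit 80), (nat_lit 120)], [(nat_lit 0), (nat_lit 795), (nat_lit 2800)], [((nat_lit 0), (nat_lit 0), (nat_lit 0)), ((nat_lit 1000), (nat_lit 814), (nat_lit 310)), ((nat_lit 1000), (nat_lit 719), (nat_lit 783))], ((nat_lit 71), (nat_lit 100), (nat_lit 71))⟩, (nat_lit 2737126), (nat_lit 539), (nat_lit 539), (nat_lit 0), (nat_lit 1210013), [(nat_lit 1987296000), (nat_lit 4584864000), (nat_lit 7792704000)], [], [(nat_lit 29302086912), (nat_lit 29930710762), (nat_lit 31713414498), (nat_lit 32238870534), (nat_lit 31998266017), (nat_lit 32476397557), (nat_lit 34407204075), (nat_lit 35140465189)], (nat_lit 1271251), (nat_lit 1271251), (nat_lit 1271251), (nat_lit 1271251), (nat_lit 1271251), (nat_lit 1271251), [(nat_lit 490000), (nat_lit 1100000), (nat_lit 1785001)], [(nat_lit 4), (nat_lit 51), (nat_lit 317), (nat_lit 100), (nat_lit 8)]⟩,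
 Rw.none⟩))))))
noncomputable def c15_14 : Tr Lf :=
 (.trZ (nat_lit 0) (nat_lit 1) (nat_lit 3) (nat_lit 68) (nat_lit 49) (nat_lit 100) (nat_lit 290) (.trZ (nat_lit 1) (nat_lit 2) (nat_lit 5) (nat_lit 100) (nat_lit 65) (nat_lit 54) (nat_lit 20) (.trX (nat_lit 5) (nat_lit 1) (nat_lit 2) (nat_lit 60) (nat_lit 80) (nat_lit 100) (nat_lit 320) (.leaf ⟨(nat_lit 22), (nat_lit 978), (nat_lit 0), (nat_lit 0), (nat_lit 0), (nat_lit 3935), (nat_lit 4687), (nat_lit 0), (nat_lit 3143603), (nat_lit 0), (nat_lit 88000), [((nat_lit 400), [((nat_lit 43), (nat_lit 5), (nat_lit 22))])], ⟨(nat_lit 9), false, true, false, (nat_lit 363), (nat_lit 0), (nat_lit 2237), [(nat_lit 1807212), (nat_lit 1809233), (nat_lit 1850907), (nat_lit 1857380), (nat_lit 1967269), (nat_lit 1949998), (nat_lit 2012658), (nat_lit 1999837)]⟩, ⟨(nat_lit 4), false, false, true, (nat_lit 194), (nat_lit 0), (nat_lit 2237), [(nat_lit 1351885), (nat_lit 1349998), (nat_lit 1441142), (nat_lit 1448157),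 (nat_lit 1537178), (nat_lit 1512490), (nat_lit 1628279), (nat_lit 1612494)]⟩, (nat_lit 5373503), (nat_lit 31391422), (nat_lit 26200649), (nat_lit 9407929), (nat_lit 4), (nat_lit 0), [], [⟨(nat_lit 1), (nat_lit 100), (nat_lit 31), (nat_lit 99), (nat_lit 113473441)⟩, ⟨(nat_lit 1), (nat_lit 90), (nat_lit 44), (nat_lit 100), (nat_lit 541083345)⟩], [⟨(nat_lit 1), (nat_lit 80), (nat_lit 60), (nat_lit 100), (nat_lit 237288988)⟩], [],
 ⟨⟨[(nat_lit 40), (nat_lit 60), (nat_lit 80)], [(nat_lit 0), (nat_lit 1539), (nat_lit 2453)], [((nat_lit 0), (nat_lit 0), (nat_lit 0)), ((nat_lit 1000), (nat_lit 478), (nat_lit 704)), ((nat_lit 1000), (nat_lit 474), (nat_lit 714))], ((nat_lit 46), (nat_lit 100), (nat_lit 75))⟩, (nat_lit 943073), (nat_lit 232), (nat_lit 232), (nat_lit 0), (nat_lit 491042), [(nat_lit 1823484275), (nat_lit 2945263945), (nat_lit 3969858400)], [(nat_lit 0), (nat_lit 0), (nat_lit 0)], [(nat_lit 26875421966), (nat_lit 27816488354), (nat_lit 31922595130),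 (nat_lit 32952095860), (nat_lit 29488486018), (nat_lit 30581105764), (nat_lit 33982745182), (nat_lit 34803551680)], (nat_lit 1271251), (nat_lit 1271251), (nat_lit 1271251), (nat_lit 1271251), (nat_lit 1100000), (nat_lit 2213126), [(nat_lit 490000), (nat_lit 780000), (nat_lit 1100000)], [(nat_lit 2), (nat_lit 44), (nat_lit 203), (nat_lit 0), (nat_lit 6)]⟩,
 ⟨⟨[(nat_lit 40), (nat_lit 80), (nat_lit 100)], [(nat_lit 0), (nat_lit 1598), (nat_lit 2533)], [((nat_lit 0), (nat_lit 0), (nat_lit 0)), ((nat_lit 1000), (nat_lit 625), (nat_lit 623)), ((nat_lit 1000), (nat_lit 604), (nat_lit 730))], ((nat_lit 61), (nat_lit 100), (nat_lit 72))⟩, (nat_lit 1656520), (nat_lit 573), (nat_lit 573), (nat_lit 0), (nat_lit 1182919), [(nat_lit 1987296000), (nat_lit 4584864000), (nat_lit 6112500000)], [], [(nat_lit 29425968433), (nat_lit 31515953360), (nat_lit 35398168684), (nat_lit 37868672506), (nat_lit 30824145164), (nat_lit 31947136119), (nat_lit 34279262278), (nat_lit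 35885599992)], (nat_lit 1271251), (nat_lit 1271251), (nat_lit 1271251), (nat_lit 1271251), (nat_lit 111251), (nat_lit 2286250), [(nat_lit 490000), (nat_lit 1100000), (nat_lit 1442501)], [(nat_lit 3), (nat_lit 50), (nat_lit 317), (nat_lit 100), (nat_lit 11)]⟩,
 Rw.none⟩))))
noncomputable def c15_15 : Tr Lf :=
 (.trZ (nat_lit 0) (nat_lit 2) (nat_lit 4) (nat_lit 100) (nat_lit 44) (nat_lit 90) (nat_lit 110) (.trZ (nat_lit 1) (nat_lit 2) (nat_lit 5) (nat_lit 100) (nat_lit 80) (nat_lit 60) (nat_lit 40) (.spl (nat_lit 5) (nat_lit 200) (.leaf ⟨(nat_lit 22), (nat_lit 755), (nat_lit 0), (nat_lit 223), (nat_lit 0), (nat_lit 3837), (nat_lit 5964), (nat_lit 2330), (nat_lit 18121), (nat_lit 0), (nat_lit 88000), [((nat_lit 400), [((nat_lit 43), (nat_lit 5), (nat_lit 22))])], ⟨(nat_lit 8), false, true, false, (nat_lit 337), (nat_lit 0), (nat_lit 2237), [(nat_lit 1675230), (nat_lit 1683322), (nat_lit 1762621), (nat_lit 1779617), (nat_lit 1921719), (nat_lit 1899996),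 (nat_lit 2012658), (nat_lit 1999837)]⟩, ⟨(nat_lit 5), false, false, true, (nat_lit 227), (nat_lit 0), (nat_lit 2237), [(nat_lit 1367570), (nat_lit 1383355), (nat_lit 1433113), (nat_lit 1455575), (nat_lit 1699546), (nat_lit 1674992), (nat_lit 1767872), (nat_lit 1749995)]⟩, (nat_lit 5571757), (nat_lit 31697539), (nat_lit 23199489), (nat_lit 12102972), (nat_lit 5), (nat_lit 0), [⟨(nat_lit 0), (nat_lit 73), (nat_lit 38), (nat_lit 100), (nat_lit 315963729)⟩], [⟨(nat_lit 1), (nat_lit 90), (nat_lit 32), (nat_lit 100), (nat_lit 275957349)⟩], [⟨(nat_lit 0), (nat_lit 100), (nat_lit 61), (nat_lit 89), (nat_lit 53611432)⟩], [],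
 ⟨⟨[(nat_lit 40), (nat_lit 60), (nat_lit 80)], [(nat_lit 0), (nat_lit 1539), (nat_lit 2453)], [((nat_lit 0), (nat_lit 0), (nat_lit 0)), ((nat_lit 1000), (nat_lit 478), (nat_lit 704)), ((nat_lit 1000), (nat_lit 474), (nat_lit 714))], ((nat_lit 46), (nat_lit 100), (nat_lit 75))⟩, (nat_lit 1810857), (nat_lit 219), (nat_lit 219), (nat_lit 0), (nat_lit 397123), [(nat_lit 1823484004), (nat_lit 3208475840), (nat_lit 3969858400)], [(nat_lit 0), (nat_lit 0), (nat_lit 0)], [(nat_lit 24596375320), (nat_lit 25823172663), (nat_lit 32102917917), (nat_lit 33179699995), (nat_lit 29893299602), (nat_lit 30722759762), (nat_lit 35215868002), (nat_lit 35943152001)], (nat_lit 1271251), (nat_lit 1271251), (nat_lit 1271251), (nat_lit 1271251), (nat_lit 704688), (nat_lit 2566251), [(nat_lit 490000), (nat_lit 780000), (nat_lit 1100000)], [(nat_lit 2), (nat_lit 44), (nat_lit 317), (nat_lit 100), (nat_lit 13)]⟩,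
 ⟨⟨[(nat_lit 40), (nat_lit 80), (nat_lit 120)], [(nat_lit 0), (nat_lit 0), (nat_lit 2151)], [((nat_lit 0), (nat_lit 0), (nat_lit 0)), ((nat_lit 0), (nat_lit 0), (nat_lit 0)), ((nat_lit 1000), (nat_lit 815), (nat_lit 753))], ((nat_lit 81), (nat_lit 100), (nat_lit 72))⟩, (nat_lit 2364663), (nat_lit 555), (nat_lit 555), (nat_lit 0), (nat_lit 1031488), [(nat_lit 1987296000), (nat_lit 4584864000), (nat_lit 7792704000)], [], [(nat_lit 32290079979), (nat_lit 35430058404), (nat_lit 37043250384), (nat_lit 40377786204), (nat_lit 31439774076), (nat_lit 33965022782), (nat_lit 35188577448), (nat_lit 36934351788)], (nat_lit 1271251), (nat_lit 1271251), (nat_lit 1271251), (nat_lit 1271251), (nat_lit 230000), (nat_lit 1420001), [(nat_lit 490000), (nat_lit 1100000), (nat_lit 1785001)], [(nat_lit 4), (nat_lit 51), (nat_lit 373), (nat_lit 150), (nat_lit 11)]⟩,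
 ⟨⟨[(nat_lit 100), (nat_lit 140), (nat_lit 180)], [(nat_lit 0), (nat_lit 0), (nat_lit 2434)], [((nat_lit 0), (nat_lit 0), (nat_lit 0)), ((nat_lit 0), (nat_lit 0), (nat_lit 0)), ((nat_lit 726), (nat_lit 1000), (nat_lit 688))], ((nat_lit 100), (nat_lit 70), (nat_lit 71))⟩, (nat_lit 217385), (nat_lit 300), (nat_lit 1753), (nat_lit 15676900), (nat_lit 2996307), [(nat_lit 1393750000), (nat_lit 2194766000), (nat_lit 3134934000)], [], [(nat_lit 13521826339), (nat_lit 13177460098), (nat_lit 12186312263), (nat_lit 11863239635), (nat_lit 12025056485), (nat_lit 11631652771), (nat_lit 13247147203), (nat_lit 10221995725)], (nat_lit 1271251), (nat_lit 1271251), (nat_lit 704688), (nat_lit 2566251), (nat_lit 230000), (nat_lit 1420001), [(nat_lit 1412501), (nat_lit 1271251), (nat_lit 1271251)], [(nat_lit 24), (nat_lit 63), (nat_lit 539), (nat_lit 200), (nat_lit 13)]⟩⟩) (.spl (nat_lit 0) (nat_lit 390) (.ord (.leaf ⟨(nat_lit 22), (nat_lit 716), (nat_lit 0), (nat_lit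 262), (nat_lit 0), (nat_lit 3871), (nat_lit 5807), (nat_lit 2633), (nat_lit 281864), (nat_lit 0), (nat_lit 88000), [((nat_lit 390), [((nat_lit 43), (nat_lit 5), (nat_lit 22))])], ⟨(nat_lit 8), false, true, false, (nat_lit 336), (nat_lit 1581), (nat_lit 2237), [(nat_lit 1679198), (nat_lit 1680658), (nat_lit 1758749), (nat_lit 1762101), (nat_lit 1921722), (nat_lit 1913068), (nat_lit 2001426), (nat_lit 1994664)]⟩, ⟨(nat_lit 5), false, false, true, (nat_lit 228), (nat_lit 1581), (nat_lit 2237), [(nat_lit 1371522), (nat_lit 1376877), (nat_lit 1439708), (nat_lit 1446685), (nat_lit 1699553), (nat_lit 1691224), (nat_lit 1767876), (nat_lit 1761169)]⟩, (nat_lit 5577206), (nat_lit 31719523), (nat_lit 23074595), (nat_lit 12205882), (nat_lit 5), (nat_lit 0), [⟨(nat_lit 0), (nat_lit 72), (nat_lit 43), (nat_lit 100), (nat_lit 179816246)⟩], [⟨(nat_lit 1), (nat_lit 87), (nat_lit 38), (nat_lit 100), (nat_lit 206415193)⟩], [⟨(nat_lit 1), (nat_lit 68), (nat_lit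 64), (nat_lit 100), (nat_lit 251463625)⟩], [],
 ⟨⟨[(nat_lit 40), (nat_lit 60), (nat_lit 80)], [(nat_lit 0), (nat_lit 1539), (nat_lit 2453)], [((nat_lit 0), (nat_lit 0), (nat_lit 0)), ((nat_lit 1000), (nat_lit 478), (nat_lit 704)), ((nat_lit 1000), (nat_lit 474), (nat_lit 714))], ((nat_lit 46), (nat_lit 100), (nat_lit 75))⟩, (nat_lit 1666352), (nat_lit 212), (nat_lit 212), (nat_lit 0), (nat_lit 379565), [(nat_lit 1823484021), (nat_lit 3355811432), (nat_lit 3969858400)], [(nat_lit 0), (nat_lit 0), (nat_lit 0)], [(nat_lit 24505729569), (nat_lit 25121805484), (nat_lit 32167953155), (nat_lit 32708357800), (nat_lit 29803889767), (nat_lit 30220459422), (nat_lit 35263928566), (nat_lit 35628492425)], (nat_lit 1271251), (nat_lit 1271251), (nat_lit 1271251), (nat_lit 1271251), (nat_lit 704688), (nat_lit 2566251), [(nat_lit 490000), (nat_lit 780000), (nat_lit 1100000)], [(nat_lit 2), (nat_lit 44), (nat_lit 317), (nat_lit 100), (nat_lit 13)]⟩,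
 ⟨⟨[(nat_lit 40), (nat_lit 80), (nat_lit 120)], [(nat_lit 0), (nat_lit 0), (nat_lit 2151)], [((nat_lit 0), (nat_lit 0), (nat_lit 0)), ((nat_lit 0), (nat_lit 0), (nat_lit 0)), ((nat_lit 1000), (nat_lit 815), (nat_lit 753))], ((nat_lit 81), (nat_lit 100), (nat_lit 72))⟩, (nat_lit 2533172), (nat_lit 436), (nat_lit 436), (nat_lit 0), (nat_lit 941518), [(nat_lit 1987296000), (nat_lit 4584864000), (nat_lit 7792704000)], [], [(nat_lit 27438545625), (nat_lit 30640451608), (nat_lit 32967133558), (nat_lit 35111263594), (nat_lit 32765873996), (nat_lit 34858794404), (nat_lit 37055708764), (nat_lit 39508379488)], (nat_lit 1271251), (nat_lit 1271251), (nat_lit 1271251), (nat_lit 1271251), (nat_lit 1271251), (nat_lit 1271251), [(nat_lit 490000), (nat_lit 1100000), (nat_lit 1785001)], [(nat_lit 4), (nat_lit 51), (nat_lit 428), (nat_lit 200), (nat_lit 13)]⟩,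
 ⟨⟨[(nat_lit 100), (nat_lit 140), (nat_lit 180)], [(nat_lit 0), (nat_lit 0), (nat_lit 2434)], [((nat_lit 0), (nat_lit 0), (nat_lit 0)), ((nat_lit 0), (nat_lit 0), (nat_lit 0)), ((nat_lit 726), (nat_lit 1000), (nat_lit 688))], ((nat_lit 100), (nat_lit 70), (nat_lit 71))⟩, (nat_lit 408619), (nat_lit 300), (nat_lit 1535), (nat_lit 18418600), (nat_lit 2725910), [(nat_lit 1637500000), (nat_lit 2578604000), (nat_lit 3683196000)], [], [(nat_lit 15148746424), (nat_lit 14716883281), (nat_lit 13676438903), (nat_lit 13005737678), (nat_lit 14037527800), (nat_lit 13588101553), (nat_lit 12279325120), (nat_lit 11825853464)], (nat_lit 1271251), (nat_lit 1271251), (nat_lit 704688), (nat_lit 2566251), (nat_lit 1271251), (nat_lit 1271251), [(nat_lit 1412501), (nat_lit 1271251), (nat_lit 1271251)], [(nat_lit 24), (nat_lit 63), (nat_lit 508), (nat_lit 250), (nat_lit 11)]⟩⟩)) (.trZ (nat_lit 0) (nat_lit 1) (nat_lit 3) (nat_lit 84) (nat_lit 33) (nat_lit 100) (nat_lit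 260) (.trZ (nat_lit 0) (nat_lit 2) (nat_lit 4) (nat_lit 100) (nat_lit 31) (nat_lit 95) (nat_lit 130) (.trX (nat_lit 4) (nat_lit 0) (nat_lit 2) (nat_lit 33) (nat_lit 85) (nat_lit 100) (nat_lit 320) (.leaf ⟨(nat_lit 23), (nat_lit 719), (nat_lit 0), (nat_lit 258), (nat_lit 0), (nat_lit 3630), (nat_lit 5847), (nat_lit 2650), (nat_lit 21731), (nat_lit 0), (nat_lit 92000), [((nat_lit 400), [((nat_lit 43), (nat_lit 5), (nat_lit 23))])], ⟨(nat_lit 8), false, true, false, (nat_lit 345), (nat_lit 0), (nat_lit 1582), [(nat_lit 1719869), (nat_lit 1723025), (nat_lit 1810502), (nat_lit 1820398), (nat_lit 1913064), (nat_lit 1899995), (nat_lit 2006289), (nat_lit 1999960)]⟩, ⟨(nat_lit 5), false, false, true, (nat_lit 227), (nat_lit 0), (nat_lit 1582), [(nat_lit 1402092), (nat_lit 1410205), (nat_lit 1470067), (nat_lit 1483235), (nat_lit 1663901), (nat_lit 1649994), (nat_lit 1733849), (nat_lit 1724997)]⟩, (nat_lit 5575720), (nat_lit 31208391), (nat_lit 23816268),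 (nat_lit 11975341), (nat_lit 5), (nat_lit 0), [⟨(nat_lit 0), (nat_lit 79), (nat_lit 29), (nat_lit 100), (nat_lit 372998087)⟩], [⟨(nat_lit 1), (nat_lit 94), (nat_lit 22), (nat_lit 100), (nat_lit 388150491)⟩], [⟨(nat_lit 1), (nat_lit 71), (nat_lit 61), (nat_lit 100), (nat_lit 236998443)⟩], [],
 ⟨⟨[(nat_lit 40), (nat_lit 60)], [(nat_lit 0), (nat_lit 2136)], [((nat_lit 0), (nat_lit 0), (nat_lit 0)), ((nat_lit 1000), (nat_lit 343), (nat_lit 808))], ((nat_lit 35), (nat_lit 100), (nat_lit 80))⟩, (nat_lit 1532503), (nat_lit 193), (nat_lit 193), (nat_lit 0), (nat_lit 395924), [(nat_lit 1821966002), (nat_lit 2818605200)], [(nat_lit 0), (nat_lit 0)], [(nat_lit 26821587766), (nat_lit 27372664575), (nat_lit 32176058714), (nat_lit 32629690245), (nat_lit 30759682212), (nat_lit 31161937340), (nat_lit 34684918710), (nat_lit 35026163920)], (nat_lit 1271251), (nat_lit 1271251), (nat_lit 1271251), (nat_lit 1271251), (nat_lit 857188), (nat_lit 2430626), [(nat_lit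 490000), (nat_lit 780000)], [(nat_lit 1), (nat_lit 38), (nat_lit 203), (nat_lit 0), (nat_lit 9)]⟩,
 ⟨⟨[(nat_lit 40), (nat_lit 80), (nat_lit 120)], [(nat_lit 0), (nat_lit 0), (nat_lit 2151)], [((nat_lit 0), (nat_lit 0), (nat_lit 0)), ((nat_lit 0), (nat_lit 0), (nat_lit 0)), ((nat_lit 1000), (nat_lit 815), (nat_lit 753))], ((nat_lit 81), (nat_lit 100), (nat_lit 72))⟩, (nat_lit 2803580), (nat_lit 485), (nat_lit 485), (nat_lit 0), (nat_lit 1029744), [(nat_lit 1985264000), (nat_lit 4580176000), (nat_lit 7784736000)], [], [(nat_lit 30163139120), (nat_lit 33083307520), (nat_lit 34167176128), (nat_lit 36238342658), (nat_lit 34270070173), (nat_lit 36170560281), (nat_lit 37082283649), (nat_lit 39889335085)], (nat_lit 1271251), (nat_lit 1271251), (nat_lit 1271251), (nat_lit 1271251), (nat_lit 1271251), (nat_lit 1271251), [(nat_lit 490000), (nat_lit 1100000), (nat_lit 1785001)], [(nat_lit 4), (nat_lit 51), (nat_lit 317), (nat_lit 100), (nat_lit 9)]⟩,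
 ⟨⟨[(nat_lit 100), (nat_lit 140), (nat_lit 180)], [(nat_lit 0), (nat_lit 0), (nat_lit 2434)], [((nat_lit 0), (nat_lit 0), (nat_lit 0)), ((nat_lit 0), (nat_lit 0), (nat_lit 0)), ((nat_lit 726), (nat_lit 1000), (nat_lit 688))], ((nat_lit 100), (nat_lit 70), (nat_lit 71))⟩, (nat_lit 333288), (nat_lit 300), (nat_lit 1660), (nat_lit 18137400), (nat_lit 2996307), [(nat_lit 1612500000), (nat_lit 2539236000), (nat_lit 3626964000)], [], [(nat_lit 14244757645), (nat_lit 13799959209), (nat_lit 13154582480), (nat_lit 12353719526), (nat_lit 13059241445), (nat_lit 12654707274), (nat_lit 11775442531), (nat_lit 11417939526)], (nat_lit 1271251), (nat_lit 1271251), (nat_lit 857188), (nat_lit 2430626), (nat_lit 1271251), (nat_lit 1271251), [(nat_lit 1412501), (nat_lit 1271251), (nat_lit 1271251)], [(nat_lit 24), (nat_lit 63), (nat_lit 537), (nat_lit 250), (nat_lit 12)]⟩⟩))))))))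
noncomputable def c15_16 : Tr Lf :=
 (.stt (nat_lit 3) (.spl (nat_lit 5) (nat_lit 120) (.leaf ⟨(nat_lit 22), (nat_lit 978), (nat_lit 0), (nat_lit 0), (nat_lit 0), (nat_lit 4042), (nat_lit 6494), (nat_lit 0), (nat_lit 0), (nat_lit 0), (nat_lit 88000), [((nat_lit 400), [((nat_lit 43), (nat_lit 5), (nat_lit 22))])], ⟨(nat_lit 8), false, true, false, (nat_lit 327), (nat_lit 0), (nat_lit 2237), [(nat_lit 1675230), (nat_lit 1683322), (nat_lit 1718925), (nat_lit 1731469), (nat_lit 1921719), (nat_lit 1899996), (nat_lit 1967269), (nat_lit 1949998)]⟩, ⟨(nat_lit 3), true, false, false, (nat_lit 126), (nat_lit 0), (nat_lit 2237), [(nat_lit 1177178), (nat_lit 1196337), (nat_lit 1264568), (nat_lit 1292631), (nat_lit 1351885), (nat_lit 1349998), (nat_lit 1441142), (nat_lit 1448157)]⟩, (nat_lit 4797630), (nat_lit 36583201), (nat_lit 24988413), (nat_lit 5428386), (nat_lit 3), (nat_lit 0), [⟨(nat_lit 0), (nat_lit 80), (nat_lit 35), (nat_lit 100), (nat_lit 275239073)⟩],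 [⟨(nat_lit 1), (nat_lit 100), (nat_lit 31), (nat_lit 99), (nat_lit 166988151)⟩], [⟨(nat_lit 0), (nat_lit 100), (nat_lit 87), (nat_lit 25), (nat_lit 6606601)⟩], [],
 ⟨⟨[(nat_lit 40), (nat_lit 80), (nat_lit 120)], [(nat_lit 0), (nat_lit 2514), (nat_lit 4610)], [((nat_lit 0), (nat_lit 0), (nat_lit 0)), ((nat_lit 1000), (nat_lit 446), (nat_lit 804)), ((nat_lit 1000), (nat_lit 443), (nat_lit 819))], ((nat_lit 44), (nat_lit 100), (nat_lit 91))⟩, (nat_lit 950838), (nat_lit 182), (nat_lit 182), (nat_lit 0), (nat_lit 0), [(nat_lit 1823484029), (nat_lit 4050198130), (nat_lit 6605135200)], [(nat_lit 0), (nat_lit 0), (nat_lit 0)], [(nat_lit 26795749886), (nat_lit 28159132712), (nat_lit 34424775309), (nat_lit 35581717760), (nat_lit 25922812737), (nat_lit 26945455876), (nat_lit 32092275516), (nat_lit 33133370552)], (nat_lit 0), (nat_lit 0), (nat_lit 0), (nat_lit 0), (nat_lit 0), (nat_lit 0), [], [(nat_lit 4), (nat_lit 51), (nat_lit 373), (nat_lit 150), (nat_lit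 11)]⟩,
 ⟨⟨[(nat_lit 40), (nat_lit 100), (nat_lit 160)], [(nat_lit 0), (nat_lit 0), (nat_lit 4607)], [((nat_lit 0), (nat_lit 0), (nat_lit 0)), ((nat_lit 0), (nat_lit 0), (nat_lit 0)), ((nat_lit 846), (nat_lit 837), (nat_lit 1000))], ((nat_lit 88), (nat_lit 97), (nat_lit 100))⟩, (nat_lit 1484176), (nat_lit 558), (nat_lit 558), (nat_lit 0), (nat_lit 708887), [(nat_lit 1987296000), (nat_lit 6112500000), (nat_lit 11610816000)], [], [(nat_lit 36635123695), (nat_lit 38098402403), (nat_lit 40702533560), (nat_lit 41933486392), (nat_lit 33287041039), (nat_lit 34586658999), (nat_lit 37065530720), (nat_lit 38159256896)], (nat_lit 1271251), (nat_lit 1271251), (nat_lit 1271251), (nat_lit 1271251), (nat_lit 0), (nat_lit 780000), [(nat_lit 490000), (nat_lit 1427501), (nat_lit 1271251)], [(nat_lit 6), (nat_lit 56), (nat_lit 373), (nat_lit 150), (nat_lit 9)]⟩,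
 Rw.none⟩) (.leaf ⟨(nat_lit 44), (nat_lit 635), (nat_lit 0), (nat_lit 321), (nat_lit 0), (nat_lit 3421), (nat_lit 6671), (nat_lit 5901), (nat_lit 0), (nat_lit 0), (nat_lit 86000), [((nat_lit 400), [((nat_lit 29), (nat_lit 0), (nat_lit 24)), ((nat_lit 43), (nat_lit 5), (nat_lit 20))])], ⟨(nat_lit 8), false, true, false, (nat_lit 327), (nat_lit 0), (nat_lit 2237), [(nat_lit 1675230), (nat_lit 1683322), (nat_lit 1718925), (nat_lit 1731469), (nat_lit 1921719), (nat_lit 1899996), (nat_lit 1967269), (nat_lit 1949998)]⟩, ⟨(nat_lit 3), true, false, false, (nat_lit 126), (nat_lit 0), (nat_lit 2237), [(nat_lit 1177178), (nat_lit 1196337), (nat_lit 1264568), (nat_lit 1292631), (nat_lit 1351885), (nat_lit 1349998), (nat_lit 1441142), (nat_lit 1448157)]⟩, (nat_lit 4797630), (nat_lit 36583201), (nat_lit 24988413), (nat_lit 5428386), (nat_lit 3), (nat_lit 0), [⟨(nat_lit 0), (nat_lit 80), (nat_lit 35), (nat_lit 100), (nat_lit 192030496)⟩], [⟨(nat_lit 0), (nat_lit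 100), (nat_lit 32), (nat_lit 89), (nat_lit 983089501)⟩], [], [],
 ⟨⟨[(nat_lit 40), (nat_lit 80), (nat_lit 120)], [(nat_lit 0), (nat_lit 2514), (nat_lit 4610)], [((nat_lit 0), (nat_lit 0), (nat_lit 0)), ((nat_lit 1000), (nat_lit 446), (nat_lit 804)), ((nat_lit 1000), (nat_lit 443), (nat_lit 819))], ((nat_lit 44), (nat_lit 100), (nat_lit 91))⟩, (nat_lit 1407268), (nat_lit 182), (nat_lit 182), (nat_lit 0), (nat_lit 0), [(nat_lit 1813204840), (nat_lit 4813780145), (nat_lit 6249800000)], [(nat_lit 0), (nat_lit 0), (nat_lit 0)], [(nat_lit 24733687735), (nat_lit 25857108104), (nat_lit 32780761955), (nat_lit 33858889880), (nat_lit 24572031173), (nat_lit 25566945366), (nat_lit 31131272474), (nat_lit 32081299676)], (nat_lit 0), (nat_lit 0), (nat_lit 0), (nat_lit 0), (nat_lit 0), (nat_lit 0), [], [(nat_lit 4), (nat_lit 51), (nat_lit 373), (nat_lit 150), (nat_lit 11)]⟩,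
 ⟨⟨[(nat_lit 40), (nat_lit 100), (nat_lit 160)], [(nat_lit 0), (nat_lit 0), (nat_lit 4607)], [((nat_lit 0), (nat_lit 0), (nat_lit 0)), ((nat_lit 0), (nat_lit 0), (nat_lit 0)), ((nat_lit 846), (nat_lit 837), (nat_lit 1000))], ((nat_lit 88), (nat_lit 97), (nat_lit 100))⟩, (nat_lit 1620622), (nat_lit 529), (nat_lit 529), (nat_lit 0), (nat_lit 832215), [(nat_lit 1942592000), (nat_lit 5975000000), (nat_lit 11349632000)], [], [(nat_lit 30569081701), (nat_lit 31944339580), (nat_lit 35108397466), (nat_lit 36191831303), (nat_lit 33281477306), (nat_lit 34294425561), (nat_lit 36249152442), (nat_lit 37856622480)], (nat_lit 1271251), (nat_lit 1271251), (nat_lit 1271251), (nat_lit 1271251), (nat_lit 780000), (nat_lit 2745001), [(nat_lit 490000), (nat_lit 1427501), (nat_lit 1271251)], [(nat_lit 6), (nat_lit 56), (nat_lit 428), (nat_lit 200), (nat_lit 10)]⟩,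
 ⟨⟨[(nat_lit 140), (nat_lit 180), (nat_lit 200)], [(nat_lit 0), (nat_lit 0), (nat_lit 2835)], [((nat_lit 0), (nat_lit 0), (nat_lit 0)), ((nat_lit 0), (nat_lit 0), (nat_lit 0)), ((nat_lit 363), (nat_lit 1000), (nat_lit 798))], ((nat_lit 0), (nat_lit 0), (nat_lit 0))⟩, (nat_lit 88317), (nat_lit 300), (nat_lit 441), (nat_lit 25070107), (nat_lit 0), [(nat_lit 3159282000), (nat_lit 4512618000), (nat_lit 5264400000)], [], [(nat_lit 20857275388), (nat_lit 19587798354), (nat_lit 16444785064), (nat_lit 15223300450), (nat_lit 20183495568), (nat_lit 19012496079), (nat_lit 15461565627), (nat_lit 14360635215)], (nat_lit 0), (nat_lit 0), (nat_lit 0), (nat_lit 0), (nat_lit 0), (nat_lit 0), [], [(nat_lit 32), (nat_lit 67), (nat_lit 428), (nat_lit 200), (nat_lit 9)]⟩⟩)) (.spl (nat_lit 5) (nat_lit 200) (.leaf ⟨(nat_lit 42), (nat_lit 958), (nat_lit 0), (nat_lit 0), (nat_lit 0), (nat_lit 4030), (nat_lit 6596), (nat_lit 0), (nat_lit 0), (nat_lit 0), (nat_lit 85500),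 [((nat_lit 400), [((nat_lit 29), (nat_lit 0), (nat_lit 22)), ((nat_lit 43), (nat_lit 5), (nat_lit 20))])], ⟨(nat_lit 8), false, true, false, (nat_lit 327), (nat_lit 0), (nat_lit 2237), [(nat_lit 1675230), (nat_lit 1683322), (nat_lit 1718925), (nat_lit 1731469), (nat_lit 1921719), (nat_lit 1899996), (nat_lit 1967269), (nat_lit 1949998)]⟩, ⟨(nat_lit 3), false, false, false, (nat_lit 126), (nat_lit 0), (nat_lit 2237), [(nat_lit 1177178), (nat_lit 1196337), (nat_lit 1264568), (nat_lit 1292631), (nat_lit 1351885), (nat_lit 1349998), (nat_lit 1441142), (nat_lit 1448157)]⟩, (nat_lit 4797630), (nat_lit 36583201), (nat_lit 24988413), (nat_lit 5428386), (nat_lit 3), (nat_lit 0), [⟨(nat_lit 0), (nat_lit 80), (nat_lit 35), (nat_lit 100), (nat_lit 209737188)⟩], [⟨(nat_lit 1), (nat_lit 100), (nat_lit 31), (nat_lit 99), (nat_lit 159870559)⟩], [], [],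
 ⟨⟨[(nat_lit 40), (nat_lit 80), (nat_lit 120)], [(nat_lit 0), (nat_lit 2514), (nat_lit 4610)], [((nat_lit 0), (nat_lit 0), (nat_lit 0)), ((nat_lit 1000), (nat_lit 446), (nat_lit 804)), ((nat_lit 1000), (nat_lit 443), (nat_lit 819))], ((nat_lit 44), (nat_lit 100), (nat_lit 91))⟩, (nat_lit 1196933), (nat_lit 182), (nat_lit 182), (nat_lit 0), (nat_lit 0), [(nat_lit 1814640832), (nat_lit 4712720915), (nat_lit 6289738629)], [(nat_lit 0), (nat_lit 0), (nat_lit 0)], [(nat_lit 25341745153), (nat_lit 27060814113), (nat_lit 34393006935), (nat_lit 35548426400), (nat_lit 24534338106), (nat_lit 25499253539), (nat_lit 32073245940), (nat_lit 33113040680)], (nat_lit 0), (nat_lit 0), (nat_lit 0), (nat_lit 0), (nat_lit 0), (nat_lit 0), [], [(nat_lit 4), (nat_lit 51), (nat_lit 373), (nat_lit 150), (nat_lit 11)]⟩,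
 ⟨⟨[(nat_lit 40), (nat_lit 100), (nat_lit 160)], [(nat_lit 0), (nat_lit 0), (nat_lit 4607)], [((nat_lit 0), (nat_lit 0), (nat_lit 0)), ((nat_lit 0), (nat_lit 0), (nat_lit 0)), ((nat_lit 846), (nat_lit 837), (nat_lit 1000))], ((nat_lit 88), (nat_lit 97), (nat_lit 100))⟩, (nat_lit 1346784), (nat_lit 558), (nat_lit 558), (nat_lit 0), (nat_lit 708887), [(nat_lit 1946656000), (nat_lit 5987500000), (nat_lit 11373376000)], [], [(nat_lit 35696685767), (nat_lit 37150872704), (nat_lit 39703086184), (nat_lit 41793597664), (nat_lit 31864602329), (nat_lit 32995690293), (nat_lit 34861693432), (nat_lit 35806352508)], (nat_lit 1271251), (nat_lit 1271251), (nat_lit 1271251), (nat_lit 1271251), (nat_lit 0), (nat_lit 1412501), [(nat_lit 490000), (nat_lit 1427501), (nat_lit 1271251)], [(nat_lit 6), (nat_lit 56), (nat_lit 373), (nat_lit 150), (nat_lit 9)]⟩,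
 Rw.none⟩) (.spl (nat_lit 3) (nat_lit 320) (.spl (nat_lit 0) (nat_lit 390) (.leaf ⟨(nat_lit 34), (nat_lit 966), (nat_lit 0), (nat_lit 0), (nat_lit 0), (nat_lit 4175), (nat_lit 7205), (nat_lit 0), (nat_lit 0), (nat_lit 0), (nat_lit 8500), [((nat_lit 390), [((nat_lit 29), (nat_lit 0), (nat_lit 34))])], ⟨(nat_lit 8), false, true, false, (nat_lit 306), (nat_lit 1581), (nat_lit 2237), [(nat_lit 1679198), (nat_lit 1680658), (nat_lit 1724656), (nat_lit 1727197), (nat_lit 1807675), (nat_lit 1803781), (nat_lit 1853133), (nat_lit 1850320)]⟩, ⟨(nat_lit 3), false, false, false, (nat_lit 126), (nat_lit 1581), (nat_lit 2237), [(nat_lit 1180680), (nat_lit 1188036), (nat_lit 1271595), (nat_lit 1281114), (nat_lit 1351886), (nat_lit 1352103), (nat_lit 1442898), (nat_lit 1445278)]⟩, (nat_lit 4757682), (nat_lit 38329012), (nat_lit 23091207), (nat_lit 5579781), (nat_lit 5), (nat_lit 0), [⟨(nat_lit 0), (nat_lit 77), (nat_lit 41), (nat_lit 100), (nat_lit 218889914)⟩],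 [], [⟨(nat_lit 1), (nat_lit 60), (nat_lit 80), (nat_lit 100), (nat_lit 403782686)⟩], [],
 ⟨⟨[(nat_lit 40), (nat_lit 80), (nat_lit 120)], [(nat_lit 0), (nat_lit 2514), (nat_lit 4610)], [((nat_lit 0), (nat_lit 0), (nat_lit 0)), ((nat_lit 1000), (nat_lit 446), (nat_lit 804)), ((nat_lit 1000), (nat_lit 443), (nat_lit 819))], ((nat_lit 44), (nat_lit 100), (nat_lit 91))⟩, (nat_lit 1442813), (nat_lit 160), (nat_lit 160), (nat_lit 0), (nat_lit 0), [(nat_lit 1989037616), (nat_lit 5666412843), (nat_lit 7334026919)], [(nat_lit 0), (nat_lit 0), (nat_lit 0)], [(nat_lit 25468154996), (nat_lit 26407782889), (nat_lit 29749205100), (nat_lit 30502306625), (nat_lit 24153518446), (nat_lit 24756905637), (nat_lit 27802155375), (nat_lit 28469411038)], (nat_lit 0), (nat_lit 0), (nat_lit 0), (nat_lit 0), (nat_lit 0), (nat_lit 0), [], [(nat_lit 4), (nat_lit 51), (nat_lit 345), (nat_lit 125), (nat_lit 10)]⟩,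
 ⟨⟨[(nat_lit 40), (nat_lit 100), (nat_lit 160)], [(nat_lit 0), (nat_lit 0), (nat_lit 4607)], [((nat_lit 0), (nat_lit 0), (nat_lit 0)), ((nat_lit 0), (nat_lit 0), (nat_lit 0)), ((nat_lit 846), (nat_lit 837), (nat_lit 1000))], ((nat_lit 88), (nat_lit 97), (nat_lit 100))⟩, (nat_lit 1489437), (nat_lit 391), (nat_lit 391), (nat_lit 0), (nat_lit 641206), [(nat_lit 1962912000), (nat_lit 6037500000), (nat_lit 11468352000)], [], [(nat_lit 27894217222), (nat_lit 29406138750), (nat_lit 29544065127), (nat_lit 30757519944), (nat_lit 30688528766), (nat_lit 32376184250), (nat_lit 32844583736), (nat_lit 35040946205)], (nat_lit 1271251), (nat_lit 1271251), (nat_lit 1271251), (nat_lit 1271251), (nat_lit 1271251), (nat_lit 1271251), [(nat_lit 490000), (nat_lit 1427501), (nat_lit 1271251)], [(nat_lit 6), (nat_lit 56), (nat_lit 401), (nat_lit 175), (nat_lit 9)]⟩,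
 Rw.none⟩) (.trZ (nat_lit 0) (nat_lit 1) (nat_lit 3) (nat_lit 84) (nat_lit 33) (nat_lit 100) (nat_lit 260) (.trZ (nat_lit 0) (nat_lit 2) (nat_lit 4) (nat_lit 100) (nat_lit 34) (nat_lit 81) (nat_lit 60) (.leaf ⟨(nat_lit 22), (nat_lit 978), (nat_lit 0), (nat_lit 0), (nat_lit 0), (nat_lit 3597), (nat_lit 7086), (nat_lit 0), (nat_lit 0), (nat_lit 0), (nat_lit 88000), [((nat_lit 400), [((nat_lit 43), (nat_lit 5), (nat_lit 22))])], ⟨(nat_lit 8), false, true, false, (nat_lit 314), (nat_lit 0), (nat_lit 1582), [(nat_lit 1719869), (nat_lit 1723025), (nat_lit 1765184), (nat_lit 1771711), (nat_lit 1803773), (nat_lit 1799976), (nat_lit 1849106), (nat_lit 1848678)]⟩, ⟨(nat_lit 3), false, false, false, (nat_lit 133), (nat_lit 0), (nat_lit 1582), [(nat_lit 1213552), (nat_lit 1223038), (nat_lit 1304186), (nat_lit 1320411), (nat_lit 1352101), (nat_lit 1349997), (nat_lit 1444052), (nat_lit 1448688)]⟩, (nat_lit 4844386), (nat_lit 37384930), (nat_lit 23646087),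 (nat_lit 5968983), (nat_lit 5), (nat_lit 0), [⟨(nat_lit 0), (nat_lit 84), (nat_lit 26), (nat_lit 100), (nat_lit 701522713)⟩], [⟨(nat_lit 0), (nat_lit 100), (nat_lit 23), (nat_lit 93), (nat_lit 46867437)⟩], [⟨(nat_lit 1), (nat_lit 60), (nat_lit 80), (nat_lit 100), (nat_lit 387433836)⟩], [],
 ⟨⟨[(nat_lit 40), (nat_lit 80), (nat_lit 100)], [(nat_lit 0), (nat_lit 3225), (nat_lit 4371)], [((nat_lit 0), (nat_lit 0), (nat_lit 0)), ((nat_lit 1000), (nat_lit 321), (nat_lit 877)), ((nat_lit 1000), (nat_lit 317), (nat_lit 896))], ((nat_lit 31), (nat_lit 100), (nat_lit 91))⟩, (nat_lit 851959), (nat_lit 133), (nat_lit 133), (nat_lit 0), (nat_lit 0), [(nat_lit 1823484049), (nat_lit 4239648503), (nat_lit 5224571200)], [(nat_lit 0), (nat_lit 0), (nat_lit 0)], [(nat_lit 26073570568), (nat_lit 26681827359), (nat_lit 28558234062), (nat_lit 29249286223), (nat_lit 25966519931), (nat_lit 26510052979), (nat_lit 27928874144), (nat_lit 28408526199)], (nat_lit 0), (nat_lit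 0), (nat_lit 0), (nat_lit 0), (nat_lit 0), (nat_lit 0), [], [(nat_lit 3), (nat_lit 50), (nat_lit 249), (nat_lit 40), (nat_lit 8)]⟩,
 ⟨⟨[(nat_lit 40), (nat_lit 100), (nat_lit 160)], [(nat_lit 0), (nat_lit 0), (nat_lit 4607)], [((nat_lit 0), (nat_lit 0), (nat_lit 0)), ((nat_lit 0), (nat_lit 0), (nat_lit 0)), ((nat_lit 846), (nat_lit 837), (nat_lit 1000))], ((nat_lit 88), (nat_lit 97), (nat_lit 100))⟩, (nat_lit 1454559), (nat_lit 410), (nat_lit 410), (nat_lit 0), (nat_lit 708282), [(nat_lit 1987296000), (nat_lit 6112500000), (nat_lit 11610816000)], [], [(nat_lit 29556851703), (nat_lit 30972690201), (nat_lit 30762231855), (nat_lit 31979455815), (nat_lit 32116089831), (nat_lit 33375015942), (nat_lit 33044370612), (nat_lit 35235366126)], (nat_lit 1271251), (nat_lit 1271251), (nat_lit 1271251), (nat_lit 1271251), (nat_lit 1271251), (nat_lit 1271251), [(nat_lit 490000), (nat_lit 1427501), (nat_lit 1271251)], [(nat_lit 6), (nat_lit 56), (nat_lit 401),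 (nat_lit 175), (nat_lit 9)]⟩,
 Rw.none⟩)))) (.trX (nat_lit 5) (nat_lit 3) (nat_lit 4) (nat_lit 82) (nat_lit 76) (nat_lit 100) (nat_lit 340) (.leaf ⟨(nat_lit 44), (nat_lit 956), (nat_lit 0), (nat_lit 0), (nat_lit 0), (nat_lit 3589), (nat_lit 6893), (nat_lit 0), (nat_lit 0), (nat_lit 0), (nat_lit 86000), [((nat_lit 400), [((nat_lit 29), (nat_lit 0), (nat_lit 24)), ((nat_lit 43), (nat_lit 5), (nat_lit 20))])], ⟨(nat_lit 8), false, true, true, (nat_lit 352), (nat_lit 0), (nat_lit 2237), [(nat_lit 1807594), (nat_lit 1799902), (nat_lit 1851355), (nat_lit 1848114), (nat_lit 1921719), (nat_lit 1899996), (nat_lit 1967269), (nat_lit 1949998)]⟩, ⟨(nat_lit 3), false, false, false, (nat_lit 126), (nat_lit 0), (nat_lit 2237), [(nat_lit 1177178), (nat_lit 1196337), (nat_lit 1264568), (nat_lit 1292631), (nat_lit 1351885), (nat_lit 1349998), (nat_lit 1441142), (nat_lit 1448157)]⟩, (nat_lit 4813754), (nat_lit 34616892), (nat_lit 27169967), (nat_lit 5213141),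 (nat_lit 5), (nat_lit 0), [], [], [⟨(nat_lit 1), (nat_lit 85), (nat_lit 73), (nat_lit 100), (nat_lit 269082771)⟩], [⟨(nat_lit 1), (nat_lit 98), (nat_lit 63), (nat_lit 100), (nat_lit 135709676)⟩],
 ⟨⟨[(nat_lit 40), (nat_lit 80), (nat_lit 120)], [(nat_lit 0), (nat_lit 2514), (nat_lit 4610)], [((nat_lit 0), (nat_lit 0), (nat_lit 0)), ((nat_lit 1000), (nat_lit 446), (nat_lit 804)), ((nat_lit 1000), (nat_lit 443), (nat_lit 819))], ((nat_lit 44), (nat_lit 100), (nat_lit 91))⟩, (nat_lit 1256685), (nat_lit 182), (nat_lit 182), (nat_lit 0), (nat_lit 0), [(nat_lit 1813204803), (nat_lit 4791977062), (nat_lit 6249800180)], [(nat_lit 0), (nat_lit 0), (nat_lit 0)], [(nat_lit 28531173628), (nat_lit 29927170002), (nat_lit 33225519191), (nat_lit 34324968920), (nat_lit 27549303227), (nat_lit 28398818008), (nat_lit 31373909022), (nat_lit 32365917884)], (nat_lit 0), (nat_lit 0), (nat_lit 0), (nat_lit 0), (nat_lit 0), (nat_lit 0), [], [(nat_lit 4), (nat_lit 51),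 (nat_lit 249), (nat_lit 40), (nat_lit 7)]⟩,
 ⟨⟨[(nat_lit 40), (nat_lit 100), (nat_lit 160)], [(nat_lit 0), (nat_lit 0), (nat_lit 4607)], [((nat_lit 0), (nat_lit 0), (nat_lit 0)), ((nat_lit 0), (nat_lit 0), (nat_lit 0)), ((nat_lit 846), (nat_lit 837), (nat_lit 1000))], ((nat_lit 88), (nat_lit 97), (nat_lit 100))⟩, (nat_lit 1391265), (nat_lit 407), (nat_lit 407), (nat_lit 0), (nat_lit 708887), [(nat_lit 1942592000), (nat_lit 5975000000), (nat_lit 11349632000)], [], [(nat_lit 30308629311), (nat_lit 31496650130), (nat_lit 32684670949), (nat_lit 34332937189), (nat_lit 31801705318), (nat_lit 33335709281), (nat_lit 35614343777), (nat_lit 37354656279)], (nat_lit 1271251), (nat_lit 1271251), (nat_lit 1271251), (nat_lit 1271251), (nat_lit 1271251), (nat_lit 1271251), [(nat_lit 490000), (nat_lit 1427501), (nat_lit 1271251)], [(nat_lit 6), (nat_lit 56), (nat_lit 317), (nat_lit 100), (nat_lit 7)]⟩,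
 Rw.none⟩)))))
noncomputable def c15_17 : Tr Lf :=
 (.stt (nat_lit 3) (.spl (nat_lit 5) (nat_lit 120) (.leaf ⟨(nat_lit 40), (nat_lit 862), (nat_lit 0), (nat_lit 98), (nat_lit 0), (nat_lit 4070), (nat_lit 6634), (nat_lit 1369), (nat_lit 0), (nat_lit 0), (nat_lit 10000), [((nat_lit 400), [((nat_lit 29), (nat_lit 0), (nat_lit 40))])], ⟨(nat_lit 8), false, true, false, (nat_lit 327), (nat_lit 0), (nat_lit 2237), [(nat_lit 1675230), (nat_lit 1683322), (nat_lit 1718925), (nat_lit 1731469), (nat_lit 1921719), (nat_lit 1899996), (nat_lit 1967269), (nat_lit 1949998)]⟩, ⟨(nat_lit 4), true, false, true, (nat_lit 194), (nat_lit 0), (nat_lit 2237), [(nat_lit 1351885), (nat_lit 1349998), (nat_lit 1441142), (nat_lit 1448157), (nat_lit 1537178), (nat_lit 1512490), (nat_lit 1628279), (nat_lit 1612494)]⟩, (nat_lit 5369263), (nat_lit 33714552), (nat_lit 23326363), (nat_lit 9959085), (nat_lit 4), (nat_lit 0), [⟨(nat_lit 0), (nat_lit 80), (nat_lit 35), (nat_lit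 100), (nat_lit 138342423)⟩], [⟨(nat_lit 1), (nat_lit 100), (nat_lit 31), (nat_lit 99), (nat_lit 744215635)⟩], [⟨(nat_lit 0), (nat_lit 100), (nat_lit 73), (nat_lit 55), (nat_lit 188713861)⟩], [],
 ⟨⟨[(nat_lit 40), (nat_lit 80), (nat_lit 120)], [(nat_lit 0), (nat_lit 2514), (nat_lit 4610)], [((nat_lit 0), (nat_lit 0), (nat_lit 0)), ((nat_lit 1000), (nat_lit 446), (nat_lit 804)), ((nat_lit 1000), (nat_lit 443), (nat_lit 819))], ((nat_lit 44), (nat_lit 100), (nat_lit 91))⟩, (nat_lit 1118096), (nat_lit 126), (nat_lit 126), (nat_lit 0), (nat_lit 0), [(nat_lit 1981456003), (nat_lit 6038976950), (nat_lit 7169280000)], [(nat_lit 0), (nat_lit 0), (nat_lit 0)], [(nat_lit 25603977430), (nat_lit 26738839723), (nat_lit 32250108216), (nat_lit 33180806920), (nat_lit 28462182657), (nat_lit 29543364357), (nat_lit 34167942738), (nat_lit 34998265960)], (nat_lit 0), (nat_lit 0), (nat_lit 0), (nat_lit 0), (nat_lit 0), (nat_lit 0), [], [(nat_lit 4), (nat_lit 51),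 (nat_lit 401), (nat_lit 175), (nat_lit 12)]⟩,
 ⟨⟨[(nat_lit 40), (nat_lit 100), (nat_lit 160)], [(nat_lit 0), (nat_lit 0), (nat_lit 4607)], [((nat_lit 0), (nat_lit 0), (nat_lit 0)), ((nat_lit 0), (nat_lit 0), (nat_lit 0)), ((nat_lit 846), (nat_lit 837), (nat_lit 1000))], ((nat_lit 88), (nat_lit 97), (nat_lit 100))⟩, (nat_lit 1572511), (nat_lit 558), (nat_lit 558), (nat_lit 0), (nat_lit 708887), [(nat_lit 1950720000), (nat_lit 6000000000), (nat_lit 11397120000)], [], [(nat_lit 34673820949), (nat_lit 36133193476), (nat_lit 39258959896), (nat_lit 41954904824), (nat_lit 31188309656), (nat_lit 32482282212), (nat_lit 35480992588), (nat_lit 36566084338)], (nat_lit 1271251), (nat_lit 1271251), (nat_lit 1271251), (nat_lit 1271251), (nat_lit 0), (nat_lit 780000), [(nat_lit 490000), (nat_lit 1427501), (nat_lit 1271251)], [(nat_lit 6), (nat_lit 56), (nat_lit 373), (nat_lit 150), (nat_lit 9)]⟩,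
 ⟨⟨[(nat_lit 140), (nat_lit 180), (nat_lit 200)], [(nat_lit 0), (nat_lit 0), (nat_lit 2835)], [((nat_lit 0), (nat_lit 0), (nat_lit 0)), ((nat_lit 0), (nat_lit 0), (nat_lit 0)), ((nat_lit 363), (nat_lit 1000), (nat_lit 798))], ((nat_lit 0), (nat_lit 0), (nat_lit 0))⟩, (nat_lit 26963), (nat_lit 300), (nat_lit 462), (nat_lit 7653800), (nat_lit 0), [(nat_lit 964516000), (nat_lit 1377684000), (nat_lit 1607200000)], [], [(nat_lit 6490652954), (nat_lit 6219570100), (nat_lit 6441914128), (nat_lit 6116097774), (nat_lit 5283582389), (nat_lit 5008121400), (nat_lit 5196275287), (nat_lit 4893702373)], (nat_lit 0), (nat_lit 0), (nat_lit 0), (nat_lit 0), (nat_lit 0), (nat_lit 0), [], [(nat_lit 32), (nat_lit 67), (nat_lit 401), (nat_lit 175), (nat_lit 9)]⟩⟩) (.leaf ⟨(nat_lit 0), (nat_lit 0), (nat_lit 0), (nat_lit 1000), (nat_lit 0), (nat_lit 3527), (nat_lit 7259), (nat_lit 14716), (nat_lit 0), (nat_lit 0), (nat_lit 0), [], Pd.none, Pd.none, (nat_lit 0), (nat_lit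 1), (nat_lit 0), (nat_lit 0), (nat_lit 0), (nat_lit 0), [⟨(nat_lit 0), (nat_lit 80), (nat_lit 35), (nat_lit 100), (nat_lit 619468667)⟩], [⟨(nat_lit 1), (nat_lit 100), (nat_lit 31), (nat_lit 99), (nat_lit 528760712)⟩], [], [],
 ⟨⟨[(nat_lit 40), (nat_lit 80), (nat_lit 120)], [(nat_lit 0), (nat_lit 2514), (nat_lit 4610)], [((nat_lit 0), (nat_lit 0), (nat_lit 0)), ((nat_lit 1000), (nat_lit 446), (nat_lit 804)), ((nat_lit 1000), (nat_lit 443), (nat_lit 819))], ((nat_lit 44), (nat_lit 100), (nat_lit 91))⟩, (nat_lit 1473152), (nat_lit 126), (nat_lit 126), (nat_lit 0), (nat_lit 0), [(nat_lit 2032000574), (nat_lit 5294014674), (nat_lit 7968000000)], [], [(nat_lit 25467217508), (nat_lit 26530837862), (nat_lit 31276135904), (nat_lit 32260880212), (nat_lit 28324282031), (nat_lit 29177456313), (nat_lit 33423037012), (nat_lit 34215081856)], (nat_lit 0), (nat_lit 0), (nat_lit 0), (nat_lit 0), (nat_lit 0), (nat_lit 0), [], [(nat_lit 4), (nat_lit 51), (nat_lit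 401), (nat_lit 175), (nat_lit 12)]⟩,
 ⟨⟨[(nat_lit 40), (nat_lit 100), (nat_lit 160)], [(nat_lit 0), (nat_lit 0), (nat_lit 4607)], [((nat_lit 0), (nat_lit 0), (nat_lit 0)), ((nat_lit 0), (nat_lit 0), (nat_lit 0)), ((nat_lit 846), (nat_lit 837), (nat_lit 1000))], ((nat_lit 88), (nat_lit 97), (nat_lit 100))⟩, (nat_lit 1462679), (nat_lit 529), (nat_lit 529), (nat_lit 0), (nat_lit 832215), [(nat_lit 2032000000), (nat_lit 6250000000), (nat_lit 11872000000)], [], [(nat_lit 32015248851), (nat_lit 33387682077), (nat_lit 35747350698), (nat_lit 36893952489), (nat_lit 33720979032), (nat_lit 34790916072), (nat_lit 38286106042), (nat_lit 39994241200)], (nat_lit 1271251), (nat_lit 1271251), (nat_lit 1271251), (nat_lit 1271251), (nat_lit 780000), (nat_lit 2745001), [(nat_lit 490000), (nat_lit 1427501), (nat_lit 1271251)], [(nat_lit 6), (nat_lit 56), (nat_lit 428), (nat_lit 200), (nat_lit 10)]⟩,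
 ⟨⟨[(nat_lit 140), (nat_lit 180), (nat_lit 200)], [(nat_lit 0), (nat_lit 0), (nat_lit 2835)], [((nat_lit 0), (nat_lit 0), (nat_lit 0)), ((nat_lit 0), (nat_lit 0), (nat_lit 0)), ((nat_lit 363), (nat_lit 1000), (nat_lit 798))], ((nat_lit 0), (nat_lit 0), (nat_lit 0))⟩, (nat_lit 2006691), (nat_lit 242), (nat_lit 242), (nat_lit 0), (nat_lit 0), [(nat_lit 9842000000), (nat_lit 14058000000), (nat_lit 16400000000)], [], [(nat_lit 32750277367), (nat_lit 32627259663), (nat_lit 38288110224), (nat_lit 36855280845), (nat_lit 42115579583), (nat_lit 39687883755), (nat_lit 42555413237), (nat_lit 39647627825)], (nat_lit 0), (nat_lit 0), (nat_lit 0), (nat_lit 0), (nat_lit 0), (nat_lit 0), [], [(nat_lit 32), (nat_lit 67), (nat_lit 456), (nat_lit 225), (nat_lit 10)]⟩⟩)) (.spl (nat_lit 3) (nat_lit 320) (.spl (nat_lit 5) (nat_lit 200) (.leaf ⟨(nat_lit 0), (nat_lit 1000), (nat_lit 0), (nat_lit 0), (nat_lit 0), (nat_lit 4140), (nat_lit 7625), (nat_lit 0), (nat_lit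 0), (nat_lit 0), (nat_lit 0), [], Pd.none, Pd.none, (nat_lit 0), (nat_lit 1), (nat_lit 0), (nat_lit 0), (nat_lit 4), (nat_lit 0), [⟨(nat_lit 0), (nat_lit 82), (nat_lit 44), (nat_lit 100), (nat_lit 456881933)⟩], [⟨(nat_lit 1), (nat_lit 90), (nat_lit 44), (nat_lit 100), (nat_lit 707652886)⟩], [], [],
 ⟨⟨[(nat_lit 40), (nat_lit 80), (nat_lit 120)], [(nat_lit 0), (nat_lit 2514), (nat_lit 4610)], [((nat_lit 0), (nat_lit 0), (nat_lit 0)), ((nat_lit 1000), (nat_lit 446), (nat_lit 804)), ((nat_lit 1000), (nat_lit 443), (nat_lit 819))], ((nat_lit 44), (nat_lit 100), (nat_lit 91))⟩, (nat_lit 701501), (nat_lit 78), (nat_lit 78), (nat_lit 0), (nat_lit 0), [(nat_lit 2032000058), (nat_lit 4688000002), (nat_lit 7968000000)], [], [(nat_lit 24786121201), (nat_lit 26096855466), (nat_lit 28057051668), (nat_lit 29201026728), (nat_lit 28131994674), (nat_lit 29224051490), (nat_lit 30716319323), (nat_lit 31758197640)], (nat_lit 0), (nat_lit 0), (nat_lit 0), (nat_lit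 0), (nat_lit 0), (nat_lit 0), [], [(nat_lit 4), (nat_lit 51), (nat_lit 401), (nat_lit 175), (nat_lit 12)]⟩,
 ⟨⟨[(nat_lit 40), (nat_lit 100), (nat_lit 160)], [(nat_lit 0), (nat_lit 0), (nat_lit 4607)], [((nat_lit 0), (nat_lit 0), (nat_lit 0)), ((nat_lit 0), (nat_lit 0), (nat_lit 0)), ((nat_lit 846), (nat_lit 837), (nat_lit 1000))], ((nat_lit 88), (nat_lit 97), (nat_lit 100))⟩, (nat_lit 1702516), (nat_lit 558), (nat_lit 558), (nat_lit 0), (nat_lit 708887), [(nat_lit 2032000000), (nat_lit 6250000000), (nat_lit 11872000000)], [], [(nat_lit 33744735663), (nat_lit 35328314820), (nat_lit 35613946000), (nat_lit 38195382000), (nat_lit 29153035313), (nat_lit 30763608157), (nat_lit 31011442500), (nat_lit 32310001625)], (nat_lit 1271251), (nat_lit 1271251), (nat_lit 1271251), (nat_lit 1271251), (nat_lit 0), (nat_lit 1412501), [(nat_lit 490000), (nat_lit 1427501), (nat_lit 1271251)], [(nat_lit 6), (nat_lit 56), (nat_lit 373), (nat_lit 150), (nat_lit 9)]⟩,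
 Rw.none⟩) (.spl (nat_lit 2) (nat_lit 160) (.trX (nat_lit 4) (nat_lit 0) (nat_lit 2) (nat_lit 44) (nat_lit 99) (nat_lit 100) (nat_lit 250) (.trX (nat_lit 5) (nat_lit 1) (nat_lit 2) (nat_lit 82) (nat_lit 76) (nat_lit 100) (nat_lit 340) (.leaf ⟨(nat_lit 0), (nat_lit 1000), (nat_lit 0), (nat_lit 0), (nat_lit 0), (nat_lit 4879), (nat_lit 7454), (nat_lit 0), (nat_lit 0), (nat_lit 0), (nat_lit 0), [], Pd.none, Pd.none, (nat_lit 0), (nat_lit 1), (nat_lit 0), (nat_lit 0), (nat_lit 5), (nat_lit 0), [⟨(nat_lit 0), (nat_lit 80), (nat_lit 35), (nat_lit 100), (nat_lit 534285040)⟩], [⟨(nat_lit 1), (nat_lit 100), (nat_lit 31), (nat_lit 95), (nat_lit 902495782)⟩], [⟨(nat_lit 1), (nat_lit 76), (nat_lit 82), (nat_lit 100), (nat_lit 382936382)⟩], [],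
 ⟨⟨[(nat_lit 40), (nat_lit 80), (nat_lit 120)], [(nat_lit 0), (nat_lit 2514), (nat_lit 4610)], [((nat_lit 0), (nat_lit 0), (nat_lit 0)), ((nat_lit 1000), (nat_lit 446), (nat_lit 804)), ((nat_lit 1000), (nat_lit 443), (nat_lit 819))], ((nat_lit 44), (nat_lit 100), (nat_lit 91))⟩, (nat_lit 360435), (nat_lit 78), (nat_lit 78), (nat_lit 0), (nat_lit 0), [(nat_lit 2232920400), (nat_lit 4688000184), (nat_lit 7968000000)], [], [(nat_lit 25228241236), (nat_lit 26750648185), (nat_lit 28784824617), (nat_lit 30024216396), (nat_lit 27291102816), (nat_lit 28581658816), (nat_lit 30250523886), (nat_lit 31422088977)], (nat_lit 0), (nat_lit 0), (nat_lit 0), (nat_lit 0), (nat_lit 0), (nat_lit 0), [], [(nat_lit 4), (nat_lit 51), (nat_lit 373), (nat_lit 150), (nat_lit 11)]⟩,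
 ⟨⟨[(nat_lit 40), (nat_lit 100), (nat_lit 160)], [(nat_lit 0), (nat_lit 0), (nat_lit 4607)], [((nat_lit 0), (nat_lit 0), (nat_lit 0)), ((nat_lit 0), (nat_lit 0), (nat_lit 0)), ((nat_lit 846), (nat_lit 837), (nat_lit 1000))], ((nat_lit 88), (nat_lit 97), (nat_lit 100))⟩, (nat_lit 1584019), (nat_lit 414), (nat_lit 414), (nat_lit 0), (nat_lit 708887), [(nat_lit 2032000000), (nat_lit 6250000000), (nat_lit 11872000000)], [], [(nat_lit 28695033582), (nat_lit 30259764376), (nat_lit 30403022887), (nat_lit 31679899438), (nat_lit 30997397912), (nat_lit 32479571918), (nat_lit 32706590080), (nat_lit 35132492395)], (nat_lit 1271251), (nat_lit 1271251), (nat_lit 1271251), (nat_lit 1271251), (nat_lit 1271251), (nat_lit 1271251), [(nat_lit 490000), (nat_lit 1427501), (nat_lit 1271251)], [(nat_lit 6), (nat_lit 56), (nat_lit 401), (nat_lit 175), (nat_lit 9)]⟩,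
 Rw.none⟩))) (.leaf ⟨(nat_lit 0), (nat_lit 877), (nat_lit 0), (nat_lit 123), (nat_lit 0), (nat_lit 5455), (nat_lit 6771), (nat_lit 1345), (nat_lit 0), (nat_lit 0), (nat_lit 0), [], Pd.none, Pd.none, (nat_lit 0), (nat_lit 1), (nat_lit 0), (nat_lit 0), (nat_lit 5), (nat_lit 0), [⟨(nat_lit 0), (nat_lit 80), (nat_lit 35), (nat_lit 100), (nat_lit 534574832)⟩], [⟨(nat_lit 1), (nat_lit 98), (nat_lit 31), (nat_lit 100), (nat_lit 650313070)⟩], [⟨(nat_lit 1), (nat_lit 77), (nat_lit 72), (nat_lit 100), (nat_lit 343601058)⟩], [],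
 ⟨⟨[(nat_lit 40), (nat_lit 80), (nat_lit 120)], [(nat_lit 0), (nat_lit 2514), (nat_lit 4610)], [((nat_lit 0), (nat_lit 0), (nat_lit 0)), ((nat_lit 1000), (nat_lit 446), (nat_lit 804)), ((nat_lit 1000), (nat_lit 443), (nat_lit 819))], ((nat_lit 44), (nat_lit 100), (nat_lit 91))⟩, (nat_lit 0), (nat_lit 78), (nat_lit 78), (nat_lit 0), (nat_lit 0), [(nat_lit 2338565971), (nat_lit 4688000043), (nat_lit 7968000000)], [], [(nat_lit 25899123829), (nat_lit 27522037666), (nat_lit 29589891378), (nat_lit 30903473823), (nat_lit 29443093415), (nat_lit 30693520610), (nat_lit 32153717320), (nat_lit 33284059205)], (nat_lit 0), (nat_lit 0), (nat_lit 0), (nat_lit 0), (nat_lit 0), (nat_lit 0), [], [(nat_lit 4), (nat_lit 51), (nat_lit 401), (nat_lit 175), (nat_lit 12)]⟩,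
 ⟨⟨[(nat_lit 40), (nat_lit 100), (nat_lit 160)], [(nat_lit 0), (nat_lit 0), (nat_lit 4607)], [((nat_lit 0), (nat_lit 0), (nat_lit 0)), ((nat_lit 0), (nat_lit 0), (nat_lit 0)), ((nat_lit 846), (nat_lit 837), (nat_lit 1000))], ((nat_lit 88), (nat_lit 97), (nat_lit 100))⟩, (nat_lit 1651843), (nat_lit 365), (nat_lit 365), (nat_lit 0), (nat_lit 563782), [(nat_lit 2032000000), (nat_lit 6250000000), (nat_lit 11872000000)], [], [(nat_lit 28267100538), (nat_lit 30180750702), (nat_lit 30573813643), (nat_lit 32123548663), (nat_lit 32179869552), (nat_lit 33714575099), (nat_lit 33955175900), (nat_lit 35479936811)], (nat_lit 1271251), (nat_lit 1271251), (nat_lit 1271251), (nat_lit 1271251), (nat_lit 1271251), (nat_lit 1271251), [(nat_lit 490000), (nat_lit 1427501), (nat_lit 1271251)], [(nat_lit 6), (nat_lit 56), (nat_lit 401), (nat_lit 175), (nat_lit 9)]⟩,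
 ⟨⟨[(nat_lit 120), (nat_lit 160), (nat_lit 200)], [(nat_lit 0), (nat_lit 0), (nat_lit 3198)], [((nat_lit 0), (nat_lit 0), (nat_lit 0)), ((nat_lit 0), (nat_lit 0), (nat_lit 0)), ((nat_lit 572), (nat_lit 1000), (nat_lit 714))], ((nat_lit 0), (nat_lit 0), (nat_lit 0))⟩, (nat_lit 60000), (nat_lit 300), (nat_lit 2043), (nat_lit 9126600), (nat_lit 3637294), [(nat_lit 980064000), (nat_lit 1460256000), (nat_lit 2017200000)], [], [(nat_lit 7405410570), (nat_lit 7236546927), (nat_lit 6890193748), (nat_lit 6718969101), (nat_lit 6918506666), (nat_lit 6752508178), (nat_lit 6453432042), (nat_lit 6281626793)], (nat_lit 1100000), (nat_lit 1442501), (nat_lit 1100000), (nat_lit 2213126), (nat_lit 1271251), (nat_lit 1271251), [(nat_lit 1695001), (nat_lit 1271251), (nat_lit 1271251)], [(nat_lit 29), (nat_lit 66), (nat_lit 617), (nat_lit 225), (nat_lit 13)]⟩⟩))) (.trZ (nat_lit 3) (nat_lit 4) (nat_lit 5) (nat_lit 100) (nat_lit 82) (nat_lit 44) (nat_lit 10) (.spl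 (nat_lit 5) (nat_lit 200) (.leaf ⟨(nat_lit 0), (nat_lit 1000), (nat_lit 0), (nat_lit 0), (nat_lit 0), (nat_lit 3641), (nat_lit 7194), (nat_lit 0), (nat_lit 0), (nat_lit 0), (nat_lit 0), [], Pd.none, Pd.none, (nat_lit 0), (nat_lit 1), (nat_lit 0), (nat_lit 0), (nat_lit 4), (nat_lit 0), [], [⟨(nat_lit 1), (nat_lit 100), (nat_lit 31), (nat_lit 99), (nat_lit 669435306)⟩, ⟨(nat_lit 1), (nat_lit 90), (nat_lit 44), (nat_lit 100), (nat_lit 133944376)⟩], [], [⟨(nat_lit 0), (nat_lit 100), (nat_lit 60), (nat_lit 88), (nat_lit 42938508)⟩],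
 ⟨⟨[(nat_lit 40), (nat_lit 80), (nat_lit 120)], [(nat_lit 0), (nat_lit 2514), (nat_lit 4610)], [((nat_lit 0), (nat_lit 0), (nat_lit 0)), ((nat_lit 1000), (nat_lit 446), (nat_lit 804)), ((nat_lit 1000), (nat_lit 443), (nat_lit 819))], ((nat_lit 44), (nat_lit 100), (nat_lit 91))⟩, (nat_lit 1482492), (nat_lit 126), (nat_lit 126), (nat_lit 0), (nat_lit 0), [(nat_lit 2032000054), (nat_lit 5445404858), (nat_lit 7968000000)], [], [(nat_lit 28016602337), (nat_lit 28918749794), (nat_lit 31456370518), (nat_lit 32454013996), (nat_lit 30274343919), (nat_lit 31179182491), (nat_lit 33579426059), (nat_lit 34379507248)], (nat_lit 0), (nat_lit 0), (nat_lit 0), (nat_lit 0), (nat_lit 0), (nat_lit 0), [], [(nat_lit 4), (nat_lit 51), (nat_lit 289), (nat_lit 75), (nat_lit 8)]⟩,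
 ⟨⟨[(nat_lit 40), (nat_lit 100), (nat_lit 160)], [(nat_lit 0), (nat_lit 0), (nat_lit 4607)], [((nat_lit 0), (nat_lit 0), (nat_lit 0)), ((nat_lit 0), (nat_lit 0), (nat_lit 0)), ((nat_lit 846), (nat_lit 837), (nat_lit 1000))], ((nat_lit 88), (nat_lit 97), (nat_lit 100))⟩, (nat_lit 1462167), (nat_lit 539), (nat_lit 539), (nat_lit 0), (nat_lit 708887), [(nat_lit 2032000000), (nat_lit 6250000000), (nat_lit 11872000000)], [], [(nat_lit 37397250958), (nat_lit 38632597142), (nat_lit 40734207917), (nat_lit 43730398645), (nat_lit 32997144279), (nat_lit 33955728146), (nat_lit 35228369948), (nat_lit 36224291846)], (nat_lit 1271251), (nat_lit 1271251), (nat_lit 1271251), (nat_lit 1271251), (nat_lit 54688), (nat_lit 1414376), [(nat_lit 490000), (nat_lit 1427501), (nat_lit 1271251)], [(nat_lit 6), (nat_lit 56), (nat_lit 260), (nat_lit 50), (nat_lit 6)]⟩,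
 Rw.none⟩) (.spl (nat_lit 2) (nat_lit 160) (.trX (nat_lit 4) (nat_lit 0) (nat_lit 2) (nat_lit 44) (nat_lit 99) (nat_lit 100) (nat_lit 250) (.trX (nat_lit 5) (nat_lit 1) (nat_lit 2) (nat_lit 82) (nat_lit 76) (nat_lit 100) (nat_lit 340) (.leaf ⟨(nat_lit 43), (nat_lit 957), (nat_lit 0), (nat_lit 0), (nat_lit 0), (nat_lit 3366), (nat_lit 6513), (nat_lit 0), (nat_lit 0), (nat_lit 0), (nat_lit 85750), [((nat_lit 400), [((nat_lit 29), (nat_lit 0), (nat_lit 23)), ((nat_lit 43), (nat_lit 5), (nat_lit 20))])], ⟨(nat_lit 8), false, true, true, (nat_lit 352), (nat_lit 0), (nat_lit 2237), [(nat_lit 1807594), (nat_lit 1799902), (nat_lit 1851355), (nat_lit 1848114), (nat_lit 1921719), (nat_lit 1899996), (nat_lit 1967269), (nat_lit 1949998)]⟩, ⟨(nat_lit 4), false, false, true, (nat_lit 174), (nat_lit 0), (nat_lit 2237), [(nat_lit 1351885), (nat_lit 1349998), (nat_lit 1397434), (nat_lit 1399999), (nat_lit 1480164), (nat_lit 1462492), (nat_lit 1525715), (nat_lit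 1512494)]⟩, (nat_lit 5232116), (nat_lit 32846138), (nat_lit 25925368), (nat_lit 8228494), (nat_lit 5), (nat_lit 0), [], [⟨(nat_lit 1), (nat_lit 100), (nat_lit 31), (nat_lit 95), (nat_lit 856115633)⟩], [⟨(nat_lit 1), (nat_lit 76), (nat_lit 82), (nat_lit 100), (nat_lit 338077521)⟩], [],
 ⟨⟨[(nat_lit 40), (nat_lit 80), (nat_lit 120)], [(nat_lit 0), (nat_lit 2514), (nat_lit 4610)], [((nat_lit 0), (nat_lit 0), (nat_lit 0)), ((nat_lit 1000), (nat_lit 446), (nat_lit 804)), ((nat_lit 1000), (nat_lit 443), (nat_lit 819))], ((nat_lit 44), (nat_lit 100), (nat_lit 91))⟩, (nat_lit 1204614), (nat_lit 126), (nat_lit 126), (nat_lit 0), (nat_lit 0), [(nat_lit 1813439609), (nat_lit 4758226511), (nat_lit 6269768000)], [(nat_lit 0), (nat_lit 0), (nat_lit 0)], [(nat_lit 27671424647), (nat_lit 28547123429), (nat_lit 31020276068), (nat_lit 31988121096), (nat_lit 29046600424), (nat_lit 29811160491), (nat_lit 32253890380), (nat_lit 33096496520)], (nat_lit 0), (nat_lit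 0), (nat_lit 0), (nat_lit 0), (nat_lit 0), (nat_lit 0), [], [(nat_lit 4), (nat_lit 51), (nat_lit 289), (nat_lit 75), (nat_lit 8)]⟩,
 ⟨⟨[(nat_lit 40), (nat_lit 100), (nat_lit 160)], [(nat_lit 0), (nat_lit 0), (nat_lit 4607)], [((nat_lit 0), (nat_lit 0), (nat_lit 0)), ((nat_lit 0), (nat_lit 0), (nat_lit 0)), ((nat_lit 846), (nat_lit 837), (nat_lit 1000))], ((nat_lit 88), (nat_lit 97), (nat_lit 100))⟩, (nat_lit 1405828), (nat_lit 407), (nat_lit 407), (nat_lit 0), (nat_lit 708887), [(nat_lit 1944624000), (nat_lit 5981250000), (nat_lit 11361504000)], [], [(nat_lit 31403928016), (nat_lit 32572197382), (nat_lit 33740466748), (nat_lit 34766534805), (nat_lit 32955446746), (nat_lit 34062263981), (nat_lit 35169154332), (nat_lit 36867387936)], (nat_lit 1271251), (nat_lit 1271251), (nat_lit 1271251), (nat_lit 1271251), (nat_lit 1271251), (nat_lit 1271251), [(nat_lit 490000), (nat_lit 1427501), (nat_lit 1271251)], [(nat_lit 6), (nat_lit 56), (nat_lit 317),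 (nat_lit 100), (nat_lit 7)]⟩,
 Rw.none⟩))) (.leaf ⟨(nat_lit 0), (nat_lit 889), (nat_lit 0), (nat_lit 111), (nat_lit 0), (nat_lit 3479), (nat_lit 7101), (nat_lit 1220), (nat_lit 0), (nat_lit 0), (nat_lit 0), [], Pd.none, Pd.none, (nat_lit 0), (nat_lit 1), (nat_lit 0), (nat_lit 0), (nat_lit 5), (nat_lit 0), [], [⟨(nat_lit 1), (nat_lit 98), (nat_lit 31), (nat_lit 100), (nat_lit 637234769)⟩], [⟨(nat_lit 1), (nat_lit 77), (nat_lit 72), (nat_lit 100), (nat_lit 297942706)⟩], [],
 ⟨⟨[(nat_lit 40), (nat_lit 80), (nat_lit 120)], [(nat_lit 0), (nat_lit 2514), (nat_lit 4610)], [((nat_lit 0), (nat_lit 0), (nat_lit 0)), ((nat_lit 1000), (nat_lit 446), (nat_lit 804)), ((nat_lit 1000), (nat_lit 443), (nat_lit 819))], ((nat_lit 44), (nat_lit 100), (nat_lit 91))⟩, (nat_lit 1466822), (nat_lit 126), (nat_lit 126), (nat_lit 0), (nat_lit 0), [(nat_lit 2032000006), (nat_lit 5210371901), (nat_lit 7968000000)], [], [(nat_lit 28260029143), (nat_lit 29146595926), (nat_lit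 31342173436), (nat_lit 32180424108), (nat_lit 30539188073), (nat_lit 31257319021), (nat_lit 33438577718), (nat_lit 34165763039)], (nat_lit 0), (nat_lit 0), (nat_lit 0), (nat_lit 0), (nat_lit 0), (nat_lit 0), [], [(nat_lit 4), (nat_lit 51), (nat_lit 289), (nat_lit 75), (nat_lit 8)]⟩,
 ⟨⟨[(nat_lit 40), (nat_lit 100), (nat_lit 160)], [(nat_lit 0), (nat_lit 0), (nat_lit 4607)], [((nat_lit 0), (nat_lit 0), (nat_lit 0)), ((nat_lit 0), (nat_lit 0), (nat_lit 0)), ((nat_lit 846), (nat_lit 837), (nat_lit 1000))], ((nat_lit 88), (nat_lit 97), (nat_lit 100))⟩, (nat_lit 1208444), (nat_lit 361), (nat_lit 361), (nat_lit 0), (nat_lit 563782), [(nat_lit 2032000000), (nat_lit 6250000000), (nat_lit 11872000000)], [], [(nat_lit 33157974722), (nat_lit 34394750841), (nat_lit 35631526960), (nat_lit 36893741212), (nat_lit 35199444676), (nat_lit 36476334439), (nat_lit 38078835638), (nat_lit 39771966800)], (nat_lit 1271251), (nat_lit 1271251), (nat_lit 1271251), (nat_lit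 1271251), (nat_lit 1271251), (nat_lit 1271251), [(nat_lit 490000), (nat_lit 1427501), (nat_lit 1271251)], [(nat_lit 6), (nat_lit 56), (nat_lit 317), (nat_lit 100), (nat_lit 7)]⟩,
 ⟨⟨[(nat_lit 120), (nat_lit 160), (nat_lit 200)], [(nat_lit 0), (nat_lit 0), (nat_lit 3198)], [((nat_lit 0), (nat_lit 0), (nat_lit 0)), ((nat_lit 0), (nat_lit 0), (nat_lit 0)), ((nat_lit 572), (nat_lit 1000), (nat_lit 714))], ((nat_lit 0), (nat_lit 0), (nat_lit 0))⟩, (nat_lit 54146), (nat_lit 300), (nat_lit 2043), (nat_lit 8236206), (nat_lit 3637294), [(nat_lit 884448000), (nat_lit 1317792000), (nat_lit 1820400000)], [], [(nat_lit 6611833406), (nat_lit 6460349564), (nat_lit 6178798637), (nat_lit 6023234769), (nat_lit 6215296792), (nat_lit 6064444196), (nat_lit 5792508934), (nat_lit 5636401550)], (nat_lit 1100000), (nat_lit 1442501), (nat_lit 1100000), (nat_lit 2213126), (nat_lit 1271251), (nat_lit 1271251), [(nat_lit 1695001), (nat_lit 1271251), (nat_lit 1271251)],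 [(nat_lit 29), (nat_lit 66), (nat_lit 617), (nat_lit 225), (nat_lit 13)]⟩⟩))))))
noncomputable def c15_18 : Tr Lf :=
 (.spl (nat_lit 2) (nat_lit 160) (.trX (nat_lit 4) (nat_lit 0) (nat_lit 2) (nat_lit 44) (nat_lit 99) (nat_lit 100) (nat_lit 250) (.trX (nat_lit 5) (nat_lit 1) (nat_lit 2) (nat_lit 82) (nat_lit 76) (nat_lit 100) (nat_lit 340) (.spl (nat_lit 5) (nat_lit 160) (.leaf ⟨(nat_lit 22), (nat_lit 978), (nat_lit 0), (nat_lit 0), (nat_lit 0), (nat_lit 6088), (nat_lit 6757), (nat_lit 0), (nat_lit 0), (nat_lit 0), (nat_lit 88000), [((nat_lit 400), [((nat_lit 43), (nat_lit 5), (nat_lit 22))])], ⟨(nat_lit 8), false, true, false, (nat_lit 327), (nat_lit 0), (nat_lit 2237), [(nat_lit 1675230), (nat_lit 1683322), (nat_lit 1718925), (nat_lit 1731469), (nat_lit 1921719), (nat_lit 1899996), (nat_lit 1967269), (nat_lit 1949998)]⟩, ⟨(nat_lit 3), false, false, true, (nat_lit 141), (nat_lit 0), (nat_lit 2237), [(nat_lit 1177178), (nat_lit 1196337), (nat_lit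 1220873), (nat_lit 1244484), (nat_lit 1480164), (nat_lit 1462492), (nat_lit 1525715), (nat_lit 1512494)]⟩, (nat_lit 4941353), (nat_lit 35982914), (nat_lit 24649147), (nat_lit 6367939), (nat_lit 3), (nat_lit 0), [⟨(nat_lit 0), (nat_lit 80), (nat_lit 35), (nat_lit 100), (nat_lit 146480059)⟩], [⟨(nat_lit 1), (nat_lit 100), (nat_lit 31), (nat_lit 95), (nat_lit 192981487)⟩, ⟨(nat_lit 1), (nat_lit 99), (nat_lit 44), (nat_lit 100), (nat_lit 41653979)⟩], [], [],
 ⟨⟨[(nat_lit 40), (nat_lit 80), (nat_lit 120)], [(nat_lit 0), (nat_lit 2514), (nat_lit 4610)], [((nat_lit 0), (nat_lit 0), (nat_lit 0)), ((nat_lit 1000), (nat_lit 446), (nat_lit 804)), ((nat_lit 1000), (nat_lit 443), (nat_lit 819))], ((nat_lit 44), (nat_lit 100), (nat_lit 91))⟩, (nat_lit 246135), (nat_lit 300), (nat_lit 406), (nat_lit 45587108), (nat_lit 646070), [(nat_lit 1823484011), (nat_lit 4203626481), (nat_lit 6605135200)], [(nat_lit 0), (nat_lit 0), (nat_lit 0)], [(nat_lit 35392530560),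 (nat_lit 36305590024), (nat_lit 39841283076), (nat_lit 41257894640), (nat_lit 33580876656), (nat_lit 34257022690), (nat_lit 36667165841), (nat_lit 37104393716)], (nat_lit 1271251), (nat_lit 1271251), (nat_lit 1271251), (nat_lit 1271251), (nat_lit 230000), (nat_lit 1791876), [(nat_lit 490000), (nat_lit 1100000), (nat_lit 1785001)], [(nat_lit 4), (nat_lit 51), (nat_lit 401), (nat_lit 175), (nat_lit 12)]⟩,
 ⟨⟨[(nat_lit 40), (nat_lit 100), (nat_lit 160)], [(nat_lit 0), (nat_lit 0), (nat_lit 4607)], [((nat_lit 0), (nat_lit 0), (nat_lit 0)), ((nat_lit 0), (nat_lit 0), (nat_lit 0)), ((nat_lit 846), (nat_lit 837), (nat_lit 1000))], ((nat_lit 88), (nat_lit 97), (nat_lit 100))⟩, (nat_lit 1763936), (nat_lit 438), (nat_lit 438), (nat_lit 0), (nat_lit 445907), [(nat_lit 1987296000), (nat_lit 6112500000), (nat_lit 11610816000)], [], [(nat_lit 32659764429), (nat_lit 34553809861), (nat_lit 39710156792), (nat_lit 42737318540), (nat_lit 28375660261), (nat_lit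 29969442500), (nat_lit 33966642324), (nat_lit 35301564226)], (nat_lit 1271251), (nat_lit 1271251), (nat_lit 1271251), (nat_lit 1271251), (nat_lit 0), (nat_lit 1100000), [(nat_lit 490000), (nat_lit 1427501), (nat_lit 1271251)], [(nat_lit 6), (nat_lit 56), (nat_lit 373), (nat_lit 150), (nat_lit 9)]⟩,
 Rw.none⟩) (.spl (nat_lit 2) (nat_lit 140) (.trX (nat_lit 4) (nat_lit 0) (nat_lit 2) (nat_lit 44) (nat_lit 100) (nat_lit 96) (nat_lit 230) (.trX (nat_lit 5) (nat_lit 1) (nat_lit 2) (nat_lit 84) (nat_lit 85) (nat_lit 100) (nat_lit 320) (.spl (nat_lit 1) (nat_lit 340) (.trX (nat_lit 3) (nat_lit 0) (nat_lit 1) (nat_lit 61) (nat_lit 47) (nat_lit 100) (nat_lit 390) (.leaf ⟨(nat_lit 22), (nat_lit 897), (nat_lit 0), (nat_lit 81), (nat_lit 0), (nat_lit 6224), (nat_lit 7319), (nat_lit 914), (nat_lit 0), (nat_lit 0), (nat_lit 88000), [((nat_lit 400), [((nat_lit 43), (nat_lit 5), (nat_lit 22))])], ⟨(nat_lit 8), false, true, false, (nat_lit 320), (nat_lit 0),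 (nat_lit 2237), [(nat_lit 1675230), (nat_lit 1683322), (nat_lit 1697077), (nat_lit 1707396), (nat_lit 1907465), (nat_lit 1887496), (nat_lit 1930241), (nat_lit 1912498)]⟩, ⟨(nat_lit 3), false, false, true, (nat_lit 131), (nat_lit 0), (nat_lit 2237), [(nat_lit 1177178), (nat_lit 1196337), (nat_lit 1199024), (nat_lit 1220410), (nat_lit 1451658), (nat_lit 1437494), (nat_lit 1474433), (nat_lit 1462494)]⟩, (nat_lit 4835912), (nat_lit 36980100), (nat_lit 24222912), (nat_lit 5796988), (nat_lit 4), (nat_lit 0), [⟨(nat_lit 0), (nat_lit 82), (nat_lit 34), (nat_lit 100), (nat_lit 338440764)⟩], [⟨(nat_lit 1), (nat_lit 100), (nat_lit 31), (nat_lit 94), (nat_lit 119474287)⟩], [⟨(nat_lit 1), (nat_lit 93), (nat_lit 81), (nat_lit 100), (nat_lit 287757503)⟩], [],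
 ⟨⟨[(nat_lit 40), (nat_lit 80), (nat_lit 120)], [(nat_lit 0), (nat_lit 2514), (nat_lit 4610)], [((nat_lit 0), (nat_lit 0), (nat_lit 0)), ((nat_lit 1000), (nat_lit 446), (nat_lit 804)), ((nat_lit 1000), (nat_lit 443), (nat_lit 819))], ((nat_lit 44), (nat_lit 100), (nat_lit 91))⟩, (nat_lit 246135), (nat_lit 300), (nat_lit 378), (nat_lit 45587108), (nat_lit 554419), [(nat_lit 1823484001), (nat_lit 4210313610), (nat_lit 6605135200)], [(nat_lit 0), (nat_lit 0), (nat_lit 0)], [(nat_lit 35105847958), (nat_lit 36028190042), (nat_lit 39427178836), (nat_lit 40918260684), (nat_lit 32976755266), (nat_lit 33686081525), (nat_lit 35977362598), (nat_lit 36450199192)], (nat_lit 1271251), (nat_lit 1271251), (nat_lit 1271251), (nat_lit 1271251), (nat_lit 230000), (nat_lit 1643126), [(nat_lit 490000), (nat_lit 1100000), (nat_lit 1785001)], [(nat_lit 4), (nat_lit 51), (nat_lit 401), (nat_lit 175), (nat_lit 12)]⟩,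
 ⟨⟨[(nat_lit 40), (nat_lit 100), (nat_lit 160)], [(nat_lit 0), (nat_lit 0), (nat_lit 4607)], [((nat_lit 0), (nat_lit 0), (nat_lit 0)), ((nat_lit 0), (nat_lit 0), (nat_lit 0)), ((nat_lit 846), (nat_lit 837), (nat_lit 1000))], ((nat_lit 88), (nat_lit 97), (nat_lit 100))⟩, (nat_lit 1504842), (nat_lit 326), (nat_lit 326), (nat_lit 0), (nat_lit 422051), [(nat_lit 1987296000), (nat_lit 6112500000), (nat_lit 11610816000)], [], [(nat_lit 26529945376), (nat_lit 27587480522), (nat_lit 32495465466), (nat_lit 33358040959), (nat_lit 29281690108), (nat_lit 30118873491), (nat_lit 35172803897), (nat_lit 36173976569)], (nat_lit 1271251), (nat_lit 1271251), (nat_lit 1271251), (nat_lit 1271251), (nat_lit 1100000), (nat_lit 2470001), [(nat_lit 490000), (nat_lit 1427501), (nat_lit 1271251)], [(nat_lit 6), (nat_lit 56), (nat_lit 428), (nat_lit 200), (nat_lit 10)]⟩,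
 ⟨⟨[(nat_lit 140), (nat_lit 180), (nat_lit 200)], [(nat_lit 0), (nat_lit 0), (nat_lit 2835)], [((nat_lit 0), (nat_lit 0), (nat_lit 0)), ((nat_lit 0), (nat_lit 0), (nat_lit 0)), ((nat_lit 363), (nat_lit 1000), (nat_lit 798))], ((nat_lit 0), (nat_lit 0), (nat_lit 0))⟩, (nat_lit 22286), (nat_lit 300), (nat_lit 2254), (nat_lit 6326100), (nat_lit 3829686), [(nat_lit 797202000), (nat_lit 1138698000), (nat_lit 1328400000)], [], [(nat_lit 5865468072), (nat_lit 5802095434), (nat_lit 5246810941), (nat_lit 5184842506), (nat_lit 5448171240), (nat_lit 5374986883), (nat_lit 6675321092), (nat_lit 6892496315)], (nat_lit 780000), (nat_lit 936250), (nat_lit 230000), (nat_lit 1643126), (nat_lit 1100000), (nat_lit 2470001), [(nat_lit 1977501), (nat_lit 1271251), (nat_lit 1271251)], [(nat_lit 32), (nat_lit 67), (nat_lit 650), (nat_lit 175), (nat_lit 14)]⟩⟩)) (.trZ (nat_lit 0) (nat_lit 1) (nat_lit 3) (nat_lit 75) (nat_lit 46) (nat_lit 100) (nat_lit 260) (.trX (nat_lit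 5) (nat_lit 1) (nat_lit 2) (nat_lit 75) (nat_lit 92) (nat_lit 100) (nat_lit 300) (.leaf ⟨(nat_lit 22), (nat_lit 978), (nat_lit 0), (nat_lit 0), (nat_lit 0), (nat_lit 6002), (nat_lit 5810), (nat_lit 0), (nat_lit 0), (nat_lit 0), (nat_lit 88000), [((nat_lit 400), [((nat_lit 43), (nat_lit 5), (nat_lit 22))])], ⟨(nat_lit 8), false, true, false, (nat_lit 340), (nat_lit 0), (nat_lit 2237), [(nat_lit 1741221), (nat_lit 1746278), (nat_lit 1763069), (nat_lit 1770351), (nat_lit 1944494), (nat_lit 1924997), (nat_lit 1967269), (nat_lit 1949998)]⟩, ⟨(nat_lit 3), false, false, true, (nat_lit 131), (nat_lit 0), (nat_lit 2237), [(nat_lit 1177178), (nat_lit 1196337), (nat_lit 1199024), (nat_lit 1220410), (nat_lit 1451658), (nat_lit 1437494), (nat_lit 1474433), (nat_lit 1462494)]⟩, (nat_lit 4856770), (nat_lit 35365148), (nat_lit 26022143), (nat_lit 5612709), (nat_lit 4), (nat_lit 0), [⟨(nat_lit 0), (nat_lit 77), (nat_lit 36), (nat_lit 100), (nat_lit 121442508)⟩],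 [⟨(nat_lit 1), (nat_lit 100), (nat_lit 31), (nat_lit 94), (nat_lit 211144111)⟩], [⟨(nat_lit 1), (nat_lit 100), (nat_lit 71), (nat_lit 100), (nat_lit 399667843)⟩], [],
 ⟨⟨[(nat_lit 40), (nat_lit 80), (nat_lit 120)], [(nat_lit 0), (nat_lit 2514), (nat_lit 4610)], [((nat_lit 0), (nat_lit 0), (nat_lit 0)), ((nat_lit 1000), (nat_lit 446), (nat_lit 804)), ((nat_lit 1000), (nat_lit 443), (nat_lit 819))], ((nat_lit 44), (nat_lit 100), (nat_lit 91))⟩, (nat_lit 246135), (nat_lit 300), (nat_lit 406), (nat_lit 45587108), (nat_lit 644484), [(nat_lit 1823484002), (nat_lit 4206614177), (nat_lit 6605135200)], [(nat_lit 0), (nat_lit 0), (nat_lit 0)], [(nat_lit 36101427620), (nat_lit 36954942409), (nat_lit 39928028539), (nat_lit 41019306560), (nat_lit 33994338454), (nat_lit 34653012805), (nat_lit 36879192230), (nat_lit 37334632857)], (nat_lit 1271251), (nat_lit 1271251), (nat_lit 1271251), (nat_lit 1271251), (nat_lit 230000), (nat_lit 1643126), [(nat_lit 490000),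 (nat_lit 1100000), (nat_lit 1785001)], [(nat_lit 4), (nat_lit 51), (nat_lit 272), (nat_lit 60), (nat_lit 8)]⟩,
 ⟨⟨[(nat_lit 40), (nat_lit 100), (nat_lit 140)], [(nat_lit 0), (nat_lit 1192), (nat_lit 4003)], [((nat_lit 0), (nat_lit 0), (nat_lit 0)), ((nat_lit 1000), (nat_lit 814), (nat_lit 310)), ((nat_lit 992), (nat_lit 771), (nat_lit 1000))], ((nat_lit 76), (nat_lit 100), (nat_lit 97))⟩, (nat_lit 1671449), (nat_lit 297), (nat_lit 297), (nat_lit 0), (nat_lit 437692), [(nat_lit 1987296000), (nat_lit 6112500000), (nat_lit 9625476000)], [], [(nat_lit 25639255116), (nat_lit 26616240033), (nat_lit 31892144788), (nat_lit 33111548304), (nat_lit 27949317359), (nat_lit 28796671636), (nat_lit 34322949201), (nat_lit 35240848487)], (nat_lit 1271251), (nat_lit 1271251), (nat_lit 1271251), (nat_lit 1271251), (nat_lit 1100000), (nat_lit 2298751), [(nat_lit 490000), (nat_lit 1427501), (nat_lit 1271251)], [(nat_lit 5), (nat_lit 55), (nat_lit 401), (nat_lit 175),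 (nat_lit 10)]⟩,
 Rw.none⟩)))))) (.trZ (nat_lit 0) (nat_lit 2) (nat_lit 4) (nat_lit 100) (nat_lit 46) (nat_lit 76) (nat_lit 60) (.leaf ⟨(nat_lit 22), (nat_lit 868), (nat_lit 0), (nat_lit 110), (nat_lit 0), (nat_lit 6099), (nat_lit 6953), (nat_lit 1204), (nat_lit 0), (nat_lit 0), (nat_lit 88000), [((nat_lit 400), [((nat_lit 43), (nat_lit 5), (nat_lit 22))])], ⟨(nat_lit 8), false, true, false, (nat_lit 327), (nat_lit 0), (nat_lit 2237), [(nat_lit 1675230), (nat_lit 1683322), (nat_lit 1718925), (nat_lit 1731469), (nat_lit 1921719), (nat_lit 1899996), (nat_lit 1967269), (nat_lit 1949998)]⟩, ⟨(nat_lit 3), false, false, true, (nat_lit 151), (nat_lit 0), (nat_lit 2237), [(nat_lit 1228454), (nat_lit 1246331), (nat_lit 1250302), (nat_lit 1270405), (nat_lit 1502940), (nat_lit 1487494), (nat_lit 1525715), (nat_lit 1512494)]⟩, (nat_lit 5034059), (nat_lit 35560026), (nat_lit 24407296), (nat_lit 7032678), (nat_lit 4), (nat_lit 0), [⟨(nat_lit 0), (nat_lit 80),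 (nat_lit 35), (nat_lit 100), (nat_lit 301219527)⟩], [⟨(nat_lit 1), (nat_lit 100), (nat_lit 31), (nat_lit 97), (nat_lit 66980755)⟩], [⟨(nat_lit 1), (nat_lit 88), (nat_lit 74), (nat_lit 100), (nat_lit 292854276)⟩], [],
 ⟨⟨[(nat_lit 40), (nat_lit 80), (nat_lit 120)], [(nat_lit 0), (nat_lit 2514), (nat_lit 4610)], [((nat_lit 0), (nat_lit 0), (nat_lit 0)), ((nat_lit 1000), (nat_lit 446), (nat_lit 804)), ((nat_lit 1000), (nat_lit 443), (nat_lit 819))], ((nat_lit 44), (nat_lit 100), (nat_lit 91))⟩, (nat_lit 246135), (nat_lit 300), (nat_lit 376), (nat_lit 45587108), (nat_lit 584713), [(nat_lit 1823484004), (nat_lit 4206431771), (nat_lit 6605135200)], [(nat_lit 0), (nat_lit 0), (nat_lit 0)], [(nat_lit 34615827148), (nat_lit 35512035125), (nat_lit 38917776667), (nat_lit 39878238308), (nat_lit 33548133673), (nat_lit 34224703089), (nat_lit 36634043055), (nat_lit 37071352571)], (nat_lit 1271251), (nat_lit 1271251), (nat_lit 1271251), (nat_lit 1271251), (nat_lit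 356250), (nat_lit 1805001), [(nat_lit 490000), (nat_lit 1100000), (nat_lit 1785001)], [(nat_lit 4), (nat_lit 51), (nat_lit 401), (nat_lit 175), (nat_lit 12)]⟩,
 ⟨⟨[(nat_lit 40), (nat_lit 100), (nat_lit 160)], [(nat_lit 0), (nat_lit 0), (nat_lit 4607)], [((nat_lit 0), (nat_lit 0), (nat_lit 0)), ((nat_lit 0), (nat_lit 0), (nat_lit 0)), ((nat_lit 846), (nat_lit 837), (nat_lit 1000))], ((nat_lit 88), (nat_lit 97), (nat_lit 100))⟩, (nat_lit 1595848), (nat_lit 324), (nat_lit 324), (nat_lit 0), (nat_lit 410781), [(nat_lit 1987296000), (nat_lit 6112500000), (nat_lit 11610816000)], [], [(nat_lit 26748596042), (nat_lit 28808331160), (nat_lit 32668400904), (nat_lit 34800262224), (nat_lit 30257658249), (nat_lit 31633017682), (nat_lit 36310553511), (nat_lit 38080218713)], (nat_lit 1271251), (nat_lit 1271251), (nat_lit 1271251), (nat_lit 1271251), (nat_lit 1100000), (nat_lit 2641251), [(nat_lit 490000), (nat_lit 1427501), (nat_lit 1271251)], [(nat_lit 6),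 (nat_lit 56), (nat_lit 428), (nat_lit 200), (nat_lit 10)]⟩,
 ⟨⟨[(nat_lit 140), (nat_lit 180), (nat_lit 200)], [(nat_lit 0), (nat_lit 608), (nat_lit 3317)], [((nat_lit 0), (nat_lit 0), (nat_lit 0)), ((nat_lit 913), (nat_lit 1000), (nat_lit 217)), ((nat_lit 385), (nat_lit 1000), (nat_lit 814))], ((nat_lit 0), (nat_lit 0), (nat_lit 0))⟩, (nat_lit 84439), (nat_lit 300), (nat_lit 1829), (nat_lit 8305784), (nat_lit 3032670), [(nat_lit 1082620000), (nat_lit 1546380000), (nat_lit 1804000000)], [], [(nat_lit 7734215138), (nat_lit 7472953284), (nat_lit 6725368661), (nat_lit 6638268566), (nat_lit 7025261242), (nat_lit 6925518364), (nat_lit 6191847762), (nat_lit 6475261843)], (nat_lit 936250), (nat_lit 1100000), (nat_lit 356250), (nat_lit 1805001), (nat_lit 1100000), (nat_lit 2641251), [(nat_lit 1977501), (nat_lit 1271251), (nat_lit 1271251)], [(nat_lit 32), (nat_lit 67), (nat_lit 551), (nat_lit 200), (nat_lit 12)]⟩⟩)))))) (.trZ (nat_lit 0) (nat_lit 2)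 (nat_lit 4) (nat_lit 100) (nat_lit 44) (nat_lit 81) (nat_lit 70) (.trZ (nat_lit 1) (nat_lit 2) (nat_lit 5) (nat_lit 100) (nat_lit 82) (nat_lit 44) (nat_lit 10) (.spl (nat_lit 5) (nat_lit 200) (.leaf ⟨(nat_lit 22), (nat_lit 850), (nat_lit 0), (nat_lit 128), (nat_lit 0), (nat_lit 5989), (nat_lit 6601), (nat_lit 1468), (nat_lit 0), (nat_lit 0), (nat_lit 88000), [((nat_lit 400), [((nat_lit 43), (nat_lit 5), (nat_lit 22))])], ⟨(nat_lit 8), false, true, false, (nat_lit 327), (nat_lit 0), (nat_lit 2237), [(nat_lit 1675230), (nat_lit 1683322), (nat_lit 1718925), (nat_lit 1731469), (nat_lit 1921719), (nat_lit 1899996), (nat_lit 1967269), (nat_lit 1949998)]⟩, ⟨(nat_lit 4), false, false, true, (nat_lit 179), (nat_lit 0), (nat_lit 2237), [(nat_lit 1265016), (nat_lit 1283365), (nat_lit 1308712), (nat_lit 1331512), (nat_lit 1582729), (nat_lit 1562493), (nat_lit 1628279), (nat_lit 1612494)]⟩, (nat_lit 5259244), (nat_lit 34386169), (nat_lit 23724343), (nat_lit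 8889488), (nat_lit 4), (nat_lit 0), [⟨(nat_lit 0), (nat_lit 80), (nat_lit 35), (nat_lit 100), (nat_lit 298509647)⟩], [⟨(nat_lit 1), (nat_lit 98), (nat_lit 31), (nat_lit 100), (nat_lit 132619832)⟩], [⟨(nat_lit 0), (nat_lit 100), (nat_lit 60), (nat_lit 80), (nat_lit 19644225)⟩], [],
 ⟨⟨[(nat_lit 40), (nat_lit 80), (nat_lit 120)], [(nat_lit 0), (nat_lit 2514), (nat_lit 4610)], [((nat_lit 0), (nat_lit 0), (nat_lit 0)), ((nat_lit 1000), (nat_lit 446), (nat_lit 804)), ((nat_lit 1000), (nat_lit 443), (nat_lit 819))], ((nat_lit 44), (nat_lit 100), (nat_lit 91))⟩, (nat_lit 246135), (nat_lit 300), (nat_lit 348), (nat_lit 45587108), (nat_lit 536515), [(nat_lit 1823484001), (nat_lit 4205979795), (nat_lit 6605135200)], [(nat_lit 0), (nat_lit 0), (nat_lit 0)], [(nat_lit 33719315977), (nat_lit 34645087226), (nat_lit 38206869769), (nat_lit 38912594822), (nat_lit 33893381756), (nat_lit 34537319000), (nat_lit 36806803204), (nat_lit 37766093392)], (nat_lit 1271251),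 (nat_lit 1271251), (nat_lit 1271251), (nat_lit 1271251), (nat_lit 422188), (nat_lit 2120313), [(nat_lit 490000), (nat_lit 1100000), (nat_lit 1785001)], [(nat_lit 4), (nat_lit 51), (nat_lit 401), (nat_lit 175), (nat_lit 12)]⟩,
 ⟨⟨[(nat_lit 40), (nat_lit 100), (nat_lit 160)], [(nat_lit 0), (nat_lit 0), (nat_lit 4607)], [((nat_lit 0), (nat_lit 0), (nat_lit 0)), ((nat_lit 0), (nat_lit 0), (nat_lit 0)), ((nat_lit 846), (nat_lit 837), (nat_lit 1000))], ((nat_lit 88), (nat_lit 97), (nat_lit 100))⟩, (nat_lit 1707849), (nat_lit 398), (nat_lit 398), (nat_lit 0), (nat_lit 384937), [(nat_lit 1987296000), (nat_lit 6112500000), (nat_lit 11610816000)], [], [(nat_lit 32791598442), (nat_lit 34650562623), (nat_lit 38578054191), (nat_lit 41497865057), (nat_lit 29321918815), (nat_lit 30791404031), (nat_lit 34440677810), (nat_lit 35672159173)], (nat_lit 1271251), (nat_lit 1271251), (nat_lit 1271251), (nat_lit 1271251), (nat_lit 54688), (nat_lit 1414376), [(nat_lit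 490000), (nat_lit 1427501), (nat_lit 1271251)], [(nat_lit 6), (nat_lit 56), (nat_lit 373), (nat_lit 150), (nat_lit 9)]⟩,
 ⟨⟨[(nat_lit 120), (nat_lit 160), (nat_lit 200)], [(nat_lit 0), (nat_lit 0), (nat_lit 3198)], [((nat_lit 0), (nat_lit 0), (nat_lit 0)), ((nat_lit 0), (nat_lit 0), (nat_lit 0)), ((nat_lit 572), (nat_lit 1000), (nat_lit 714))], ((nat_lit 0), (nat_lit 0), (nat_lit 0))⟩, (nat_lit 62439), (nat_lit 300), (nat_lit 1480), (nat_lit 9497601), (nat_lit 2140214), [(nat_lit 1019904000), (nat_lit 1519616000), (nat_lit 2099200000)], [], [(nat_lit 9384383558), (nat_lit 9212036177), (nat_lit 8259687874), (nat_lit 8078282891), (nat_lit 7908336559), (nat_lit 7738988613), (nat_lit 8210923796), (nat_lit 9063158006)], (nat_lit 1100000), (nat_lit 1442501), (nat_lit 422188), (nat_lit 2120313), (nat_lit 54688), (nat_lit 1414376), [(nat_lit 1695001), (nat_lit 1271251), (nat_lit 1271251)], [(nat_lit 29), (nat_lit 66), (nat_lit 457), (nat_lit 175), (nat_lit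 10)]⟩⟩) (.leaf ⟨(nat_lit 22), (nat_lit 817), (nat_lit 0), (nat_lit 161), (nat_lit 0), (nat_lit 6114), (nat_lit 6961), (nat_lit 1705), (nat_lit 0), (nat_lit 0), (nat_lit 88000), [((nat_lit 400), [((nat_lit 43), (nat_lit 5), (nat_lit 22))])], ⟨(nat_lit 8), false, true, false, (nat_lit 327), (nat_lit 0), (nat_lit 2237), [(nat_lit 1675230), (nat_lit 1683322), (nat_lit 1718925), (nat_lit 1731469), (nat_lit 1921719), (nat_lit 1899996), (nat_lit 1967269), (nat_lit 1949998)]⟩, ⟨(nat_lit 4), false, false, true, (nat_lit 179), (nat_lit 0), (nat_lit 2237), [(nat_lit 1265016), (nat_lit 1283365), (nat_lit 1308712), (nat_lit 1331512), (nat_lit 1582729), (nat_lit 1562493), (nat_lit 1628279), (nat_lit 1612494)]⟩, (nat_lit 5259244), (nat_lit 34386169), (nat_lit 23724343), (nat_lit 8889488), (nat_lit 5), (nat_lit 0), [⟨(nat_lit 0), (nat_lit 80), (nat_lit 35), (nat_lit 100), (nat_lit 275971265)⟩], [⟨(nat_lit 1), (nat_lit 98), (nat_lit 31), (nat_lit 100), (nat_lit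 87104940)⟩], [⟨(nat_lit 1), (nat_lit 77), (nat_lit 72), (nat_lit 100), (nat_lit 270332671)⟩], [],
 ⟨⟨[(nat_lit 40), (nat_lit 80), (nat_lit 120)], [(nat_lit 0), (nat_lit 2514), (nat_lit 4610)], [((nat_lit 0), (nat_lit 0), (nat_lit 0)), ((nat_lit 1000), (nat_lit 446), (nat_lit 804)), ((nat_lit 1000), (nat_lit 443), (nat_lit 819))], ((nat_lit 44), (nat_lit 100), (nat_lit 91))⟩, (nat_lit 246135), (nat_lit 300), (nat_lit 348), (nat_lit 45587108), (nat_lit 536515), [(nat_lit 1823484001), (nat_lit 4186568313), (nat_lit 6605135200)], [(nat_lit 0), (nat_lit 0), (nat_lit 0)], [(nat_lit 33429686144), (nat_lit 34364351169), (nat_lit 37934329033), (nat_lit 39208682072), (nat_lit 33525789307), (nat_lit 34174061366), (nat_lit 36971970923), (nat_lit 37946384392)], (nat_lit 1271251), (nat_lit 1271251), (nat_lit 1271251), (nat_lit 1271251), (nat_lit 422188), (nat_lit 2120313), [(nat_lit 490000), (nat_lit 1100000), (nat_lit 1785001)], [(nat_lit 4), (nat_lit 51),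 (nat_lit 401), (nat_lit 175), (nat_lit 12)]⟩,
 ⟨⟨[(nat_lit 40), (nat_lit 100), (nat_lit 160)], [(nat_lit 0), (nat_lit 0), (nat_lit 4607)], [((nat_lit 0), (nat_lit 0), (nat_lit 0)), ((nat_lit 0), (nat_lit 0), (nat_lit 0)), ((nat_lit 846), (nat_lit 837), (nat_lit 1000))], ((nat_lit 88), (nat_lit 97), (nat_lit 100))⟩, (nat_lit 1395743), (nat_lit 264), (nat_lit 264), (nat_lit 0), (nat_lit 384937), [(nat_lit 1987296000), (nat_lit 6112500000), (nat_lit 11610816000)], [], [(nat_lit 28046781865), (nat_lit 29963888938), (nat_lit 33581300273), (nat_lit 35093933275), (nat_lit 31894322394), (nat_lit 33365605275), (nat_lit 37262381890), (nat_lit 38919804640)], (nat_lit 1271251), (nat_lit 1271251), (nat_lit 1271251), (nat_lit 1271251), (nat_lit 1271251), (nat_lit 1271251), [(nat_lit 490000), (nat_lit 1427501), (nat_lit 1271251)], [(nat_lit 6), (nat_lit 56), (nat_lit 428), (nat_lit 200), (nat_lit 10)]⟩,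
 ⟨⟨[(nat_lit 120), (nat_lit 160), (nat_lit 200)], [(nat_lit 0), (nat_lit 0), (nat_lit 3198)], [((nat_lit 0), (nat_lit 0), (nat_lit 0)), ((nat_lit 0), (nat_lit 0), (nat_lit 0)), ((nat_lit 572), (nat_lit 1000), (nat_lit 714))], ((nat_lit 0), (nat_lit 0), (nat_lit 0))⟩, (nat_lit 78537), (nat_lit 300), (nat_lit 1356), (nat_lit 11946200), (nat_lit 2140214), [(nat_lit 1282848000), (nat_lit 1911392000), (nat_lit 2640400000)], [], [(nat_lit 10753488881), (nat_lit 10533922801), (nat_lit 9436289510), (nat_lit 10043798994), (nat_lit 10102527065), (nat_lit 9880806405), (nat_lit 8758828346), (nat_lit 8534167048)], (nat_lit 1100000), (nat_lit 1442501), (nat_lit 422188), (nat_lit 2120313), (nat_lit 1271251), (nat_lit 1271251), [(nat_lit 1695001), (nat_lit 1271251), (nat_lit 1271251)], [(nat_lit 29), (nat_lit 66), (nat_lit 456), (nat_lit 225), (nat_lit 10)]⟩⟩)))))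
noncomputable def c15_19 : Tr Lf :=
 (.trZ (nat_lit 0) (nat_lit 1) (nat_lit 3) (nat_lit 68) (nat_lit 49) (nat_lit 100) (nat_lit 290) (.trZ (nat_lit 1) (nat_lit 2) (nat_lit 5) (nat_lit 100) (nat_lit 65) (nat_lit 54) (nat_lit 20) (.trX (nat_lit 5) (nat_lit 1) (nat_lit 2) (nat_lit 60) (nat_lit 80) (nat_lit 100) (nat_lit 320) (.stt (nat_lit 3) (.spl (nat_lit 0) (nat_lit 390) (.ord (.leaf ⟨(nat_lit 22), (nat_lit 811), (nat_lit 0), (nat_lit 167), (nat_lit 0), (nat_lit 5940), (nat_lit 4474), (nat_lit 2285), (nat_lit 9864814494933), (nat_lit 0), (nat_lit 88000), [((nat_lit 390), [((nat_lit 43), (nat_lit 5), (nat_lit 22))])], ⟨(nat_lit 9), false, true, false, (nat_lit 362), (nat_lit 1581), (nat_lit 2237), [(nat_lit 1810307), (nat_lit 1809279), (nat_lit 1844401), (nat_lit 1844183), (nat_lit 1967270), (nat_lit 1959698), (nat_lit 2001426), (nat_lit 1994664)]⟩, ⟨(nat_lit 3), true, false, true, (nat_lit 162), (nat_lit 1581), (nat_lit 2237), [(nat_lit 1180680),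 (nat_lit 1188036), (nat_lit 1271595), (nat_lit 1281114), (nat_lit 1537186), (nat_lit 1529669), (nat_lit 1628284), (nat_lit 1622929)]⟩, (nat_lit 5134220), (nat_lit 32654671), (nat_lit 27016203), (nat_lit 7329126), (nat_lit 3), (nat_lit 0), [⟨(nat_lit 0), (nat_lit 53), (nat_lit 53), (nat_lit 100), (nat_lit 258419460)⟩], [], [], [],
 ⟨⟨[(nat_lit 40), (nat_lit 80), (nat_lit 120)], [(nat_lit 0), (nat_lit 2514), (nat_lit 4610)], [((nat_lit 0), (nat_lit 0), (nat_lit 0)), ((nat_lit 1000), (nat_lit 446), (nat_lit 804)), ((nat_lit 1000), (nat_lit 443), (nat_lit 819))], ((nat_lit 44), (nat_lit 100), (nat_lit 91))⟩, (nat_lit 246135), (nat_lit 300), (nat_lit 456), (nat_lit 45587108), (nat_lit 787081), [(nat_lit 1823484001), (nat_lit 4205612169), (nat_lit 6605135200)], [(nat_lit 0), (nat_lit 0), (nat_lit 0)], [(nat_lit 37586932463), (nat_lit 37905928449), (nat_lit 40109721473), (nat_lit 40346944385), (nat_lit 35812391119), (nat_lit 36027594233), (nat_lit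 37438724697), (nat_lit 37607150437)], (nat_lit 1271251), (nat_lit 1271251), (nat_lit 1271251), (nat_lit 1271251), (nat_lit 230000), (nat_lit 2089376), [(nat_lit 490000), (nat_lit 1100000), (nat_lit 1785001)], [(nat_lit 4), (nat_lit 51), (nat_lit 289), (nat_lit 75), (nat_lit 8)]⟩,
 ⟨⟨[(nat_lit 40), (nat_lit 100), (nat_lit 140)], [(nat_lit 0), (nat_lit 2396), (nat_lit 4896)], [((nat_lit 0), (nat_lit 0), (nat_lit 0)), ((nat_lit 1000), (nat_lit 625), (nat_lit 623)), ((nat_lit 1000), (nat_lit 625), (nat_lit 975))], ((nat_lit 61), (nat_lit 100), (nat_lit 93))⟩, (nat_lit 1587732), (nat_lit 515), (nat_lit 515), (nat_lit 0), (nat_lit 794421), [(nat_lit 1987296000), (nat_lit 6112500000), (nat_lit 9625476000)], [], [(nat_lit 30160926738), (nat_lit 31145651823), (nat_lit 34804234691), (nat_lit 36616177340), (nat_lit 30818230242), (nat_lit 31469056060), (nat_lit 33999840784), (nat_lit 35185113196)], (nat_lit 1271251), (nat_lit 1271251), (nat_lit 1271251),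 (nat_lit 1271251), (nat_lit 111251), (nat_lit 2286250), [(nat_lit 490000), (nat_lit 1427501), (nat_lit 1271251)], [(nat_lit 5), (nat_lit 55), (nat_lit 317), (nat_lit 100), (nat_lit 8)]⟩,
 ⟨⟨[(nat_lit 140), (nat_lit 180), (nat_lit 200)], [(nat_lit 0), (nat_lit 0), (nat_lit 2835)], [((nat_lit 0), (nat_lit 0), (nat_lit 0)), ((nat_lit 0), (nat_lit 0), (nat_lit 0)), ((nat_lit 363), (nat_lit 1000), (nat_lit 798))], ((nat_lit 0), (nat_lit 0), (nat_lit 0))⟩, (nat_lit 45947), (nat_lit 300), (nat_lit 546), (nat_lit 13042702), (nat_lit 0), [(nat_lit 1643614000), (nat_lit 2347686000), (nat_lit 2738800000)], [], [(nat_lit 12407663258), (nat_lit 11939002890), (nat_lit 10547082228), (nat_lit 10018193225), (nat_lit 10217379860), (nat_lit 9670013168), (nat_lit 8188471393), (nat_lit 7598997156)], (nat_lit 0), (nat_lit 0), (nat_lit 0), (nat_lit 0), (nat_lit 0), (nat_lit 0), [], [(nat_lit 32), (nat_lit 67), (nat_lit 456), (nat_lit 225), (nat_lit 10)]⟩⟩)) (.trZ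 (nat_lit 0) (nat_lit 1) (nat_lit 3) (nat_lit 73) (nat_lit 38) (nat_lit 100) (nat_lit 310) (.trZ (nat_lit 0) (nat_lit 2) (nat_lit 4) (nat_lit 100) (nat_lit 34) (nat_lit 81) (nat_lit 60) (.trX (nat_lit 4) (nat_lit 0) (nat_lit 2) (nat_lit 31) (nat_lit 95) (nat_lit 100) (nat_lit 270) (.leaf ⟨(nat_lit 22), (nat_lit 802), (nat_lit 0), (nat_lit 176), (nat_lit 0), (nat_lit 5535), (nat_lit 4287), (nat_lit 2456), (nat_lit 10785154243497), (nat_lit 0), (nat_lit 88000), [((nat_lit 400), [((nat_lit 43), (nat_lit 5), (nat_lit 22))])], ⟨(nat_lit 9), false, true, false, (nat_lit 368), (nat_lit 0), (nat_lit 1582), [(nat_lit 1835119), (nat_lit 1835850), (nat_lit 1880435), (nat_lit 1884537), (nat_lit 1959697), (nat_lit 1949998), (nat_lit 2006289), (nat_lit 1999960)]⟩, ⟨(nat_lit 3), true, false, true, (nat_lit 162), (nat_lit 0), (nat_lit 1582), [(nat_lit 1213552), (nat_lit 1223038), (nat_lit 1304186), (nat_lit 1320411), (nat_lit 1502344), (nat_lit 1487492), (nat_lit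 1595608), (nat_lit 1587496)]⟩, (nat_lit 5128838), (nat_lit 32245994), (nat_lit 27515959), (nat_lit 7238047), (nat_lit 3), (nat_lit 0), [⟨(nat_lit 0), (nat_lit 70), (nat_lit 36), (nat_lit 100), (nat_lit 530261237)⟩], [], [], [],
 ⟨⟨[(nat_lit 40), (nat_lit 80), (nat_lit 100)], [(nat_lit 0), (nat_lit 3225), (nat_lit 4371)], [((nat_lit 0), (nat_lit 0), (nat_lit 0)), ((nat_lit 1000), (nat_lit 321), (nat_lit 877)), ((nat_lit 1000), (nat_lit 317), (nat_lit 896))], ((nat_lit 31), (nat_lit 100), (nat_lit 91))⟩, (nat_lit 152336), (nat_lit 300), (nat_lit 433), (nat_lit 45587106), (nat_lit 858847), [(nat_lit 1823484010), (nat_lit 4095414132), (nat_lit 5224571200)], [(nat_lit 0), (nat_lit 0), (nat_lit 0)], [(nat_lit 35687203345), (nat_lit 36025111890), (nat_lit 38086621812), (nat_lit 38466043220), (nat_lit 34964223900), (nat_lit 35210432297), (nat_lit 36690883167), (nat_lit 36884648769)], (nat_lit 1271251), (nat_lit 1271251), (nat_lit 1271251), (nat_lit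 1271251), (nat_lit 356250), (nat_lit 1957501), [(nat_lit 490000), (nat_lit 1100000), (nat_lit 1442501)], [(nat_lit 3), (nat_lit 50), (nat_lit 289), (nat_lit 75), (nat_lit 9)]⟩,
 ⟨⟨[(nat_lit 40), (nat_lit 100), (nat_lit 140)], [(nat_lit 0), (nat_lit 2396), (nat_lit 4896)], [((nat_lit 0), (nat_lit 0), (nat_lit 0)), ((nat_lit 1000), (nat_lit 625), (nat_lit 623)), ((nat_lit 1000), (nat_lit 625), (nat_lit 975))], ((nat_lit 61), (nat_lit 100), (nat_lit 93))⟩, (nat_lit 1513796), (nat_lit 563), (nat_lit 563), (nat_lit 0), (nat_lit 871518), [(nat_lit 1987296000), (nat_lit 6112500000), (nat_lit 9625476000)], [], [(nat_lit 31970732991), (nat_lit 33215914025), (nat_lit 34427313226), (nat_lit 36650805306), (nat_lit 32629538699), (nat_lit 33459904822), (nat_lit 34466744612), (nat_lit 35315880656)], (nat_lit 1271251), (nat_lit 1271251), (nat_lit 1271251), (nat_lit 1271251), (nat_lit 111251), (nat_lit 2286250), [(nat_lit 490000), (nat_lit 1427501), (nat_lit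 1271251)], [(nat_lit 5), (nat_lit 55), (nat_lit 317), (nat_lit 100), (nat_lit 8)]⟩,
 ⟨⟨[(nat_lit 140), (nat_lit 180), (nat_lit 200)], [(nat_lit 0), (nat_lit 0), (nat_lit 2835)], [((nat_lit 0), (nat_lit 0), (nat_lit 0)), ((nat_lit 0), (nat_lit 0), (nat_lit 0)), ((nat_lit 363), (nat_lit 1000), (nat_lit 798))], ((nat_lit 0), (nat_lit 0), (nat_lit 0))⟩, (nat_lit 48423), (nat_lit 300), (nat_lit 521), (nat_lit 13745604), (nat_lit 0), [(nat_lit 1732192000), (nat_lit 2474208000), (nat_lit 2886400000)], [], [(nat_lit 12617425713), (nat_lit 12124422911), (nat_lit 11057083970), (nat_lit 10504114517), (nat_lit 10311139456), (nat_lit 9728912348), (nat_lit 8570430388), (nat_lit 7946014066)], (nat_lit 0), (nat_lit 0), (nat_lit 0), (nat_lit 0), (nat_lit 0), (nat_lit 0), [], [(nat_lit 32), (nat_lit 67), (nat_lit 428), (nat_lit 200), (nat_lit 10)]⟩⟩))))) (.spl (nat_lit 5) (nat_lit 160) (.leaf ⟨(nat_lit 22), (nat_lit 978), (nat_lit 0), (nat_lit 0), (nat_lit 0),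 (nat_lit 6085), (nat_lit 4817), (nat_lit 0), (nat_lit 12182211069487), (nat_lit 0), (nat_lit 88000), [((nat_lit 400), [((nat_lit 43), (nat_lit 5), (nat_lit 22))])], ⟨(nat_lit 9), false, true, false, (nat_lit 363), (nat_lit 0), (nat_lit 2237), [(nat_lit 1807212), (nat_lit 1809233), (nat_lit 1850907), (nat_lit 1857380), (nat_lit 1967269), (nat_lit 1949998), (nat_lit 2012658), (nat_lit 1999837)]⟩, ⟨(nat_lit 3), false, false, true, (nat_lit 161), (nat_lit 0), (nat_lit 2237), [(nat_lit 1177178), (nat_lit 1196337), (nat_lit 1264568), (nat_lit 1292631), (nat_lit 1537178), (nat_lit 1512490), (nat_lit 1628279), (nat_lit 1612494)]⟩, (nat_lit 5126196), (nat_lit 32606656), (nat_lit 27136716), (nat_lit 7256628), (nat_lit 3), (nat_lit 0), [⟨(nat_lit 0), (nat_lit 63), (nat_lit 45), (nat_lit 100), (nat_lit 217292458)⟩], [⟨(nat_lit 1), (nat_lit 100), (nat_lit 31), (nat_lit 99), (nat_lit 379881192)⟩], [⟨(nat_lit 0), (nat_lit 100), (nat_lit 44), (nat_lit 81),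 (nat_lit 20373072)⟩], [],
 ⟨⟨[(nat_lit 40), (nat_lit 80), (nat_lit 120)], [(nat_lit 0), (nat_lit 2514), (nat_lit 4610)], [((nat_lit 0), (nat_lit 0), (nat_lit 0)), ((nat_lit 1000), (nat_lit 446), (nat_lit 804)), ((nat_lit 1000), (nat_lit 443), (nat_lit 819))], ((nat_lit 44), (nat_lit 100), (nat_lit 91))⟩, (nat_lit 246135), (nat_lit 300), (nat_lit 434), (nat_lit 45587108), (nat_lit 739266), [(nat_lit 1823484031), (nat_lit 4202809690), (nat_lit 6605135200)], [(nat_lit 0), (nat_lit 0), (nat_lit 0)], [(nat_lit 36580020746), (nat_lit 37382910467), (nat_lit 39833340983), (nat_lit 41249571800), (nat_lit 34881878210), (nat_lit 35424914577), (nat_lit 36962578701), (nat_lit 37904556880)], (nat_lit 1271251), (nat_lit 1271251), (nat_lit 1271251), (nat_lit 1271251), (nat_lit 230000), (nat_lit 2089376), [(nat_lit 490000), (nat_lit 1100000), (nat_lit 1785001)], [(nat_lit 4), (nat_lit 51), (nat_lit 289), (nat_lit 75), (nat_lit 8)]⟩,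
 ⟨⟨[(nat_lit 40), (nat_lit 100), (nat_lit 140)], [(nat_lit 0), (nat_lit 2396), (nat_lit 4896)], [((nat_lit 0), (nat_lit 0), (nat_lit 0)), ((nat_lit 1000), (nat_lit 625), (nat_lit 623)), ((nat_lit 1000), (nat_lit 625), (nat_lit 975))], ((nat_lit 61), (nat_lit 100), (nat_lit 93))⟩, (nat_lit 1373044), (nat_lit 500), (nat_lit 500), (nat_lit 0), (nat_lit 746826), [(nat_lit 1987296000), (nat_lit 6112500000), (nat_lit 9625476000)], [], [(nat_lit 30233170986), (nat_lit 32638273413), (nat_lit 35760663609), (nat_lit 38264479346), (nat_lit 28363301993), (nat_lit 29604559599), (nat_lit 32035425074), (nat_lit 33868058428)], (nat_lit 1271251), (nat_lit 1271251), (nat_lit 1271251), (nat_lit 1271251), (nat_lit 111251), (nat_lit 1100000), [(nat_lit 490000), (nat_lit 1427501), (nat_lit 1271251)], [(nat_lit 5), (nat_lit 55), (nat_lit 249), (nat_lit 40), (nat_lit 6)]⟩,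
 Rw.none⟩) (.spl (nat_lit 5) (nat_lit 240) (.leaf ⟨(nat_lit 22), (nat_lit 978), (nat_lit 0), (nat_lit 0), (nat_lit 0), (nat_lit 6063), (nat_lit 4793), (nat_lit 0), (nat_lit 13392164682874), (nat_lit 0), (nat_lit 88000), [((nat_lit 400), [((nat_lit 43), (nat_lit 5), (nat_lit 22))])], ⟨(nat_lit 9), false, true, false, (nat_lit 363), (nat_lit 0), (nat_lit 2237), [(nat_lit 1807212), (nat_lit 1809233), (nat_lit 1850907), (nat_lit 1857380), (nat_lit 1967269), (nat_lit 1949998), (nat_lit 2012658), (nat_lit 1999837)]⟩, ⟨(nat_lit 3), false, false, true, (nat_lit 161), (nat_lit 0), (nat_lit 2237), [(nat_lit 1177178), (nat_lit 1196337), (nat_lit 1264568), (nat_lit 1292631), (nat_lit 1537178), (nat_lit 1512490), (nat_lit 1628279), (nat_lit 1612494)]⟩, (nat_lit 5126196), (nat_lit 32606656), (nat_lit 27136716), (nat_lit 7256628), (nat_lit 4), (nat_lit 0), [⟨(nat_lit 0), (nat_lit 63), (nat_lit 45), (nat_lit 100), (nat_lit 266780692)⟩], [⟨(nat_lit 1), (nat_lit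 100), (nat_lit 31), (nat_lit 99), (nat_lit 352822742)⟩], [], [],
 ⟨⟨[(nat_lit 40), (nat_lit 80), (nat_lit 120)], [(nat_lit 0), (nat_lit 2514), (nat_lit 4610)], [((nat_lit 0), (nat_lit 0), (nat_lit 0)), ((nat_lit 1000), (nat_lit 446), (nat_lit 804)), ((nat_lit 1000), (nat_lit 443), (nat_lit 819))], ((nat_lit 44), (nat_lit 100), (nat_lit 91))⟩, (nat_lit 246135), (nat_lit 300), (nat_lit 434), (nat_lit 45587108), (nat_lit 739266), [(nat_lit 1823484012), (nat_lit 4195530720), (nat_lit 6605135200)], [(nat_lit 0), (nat_lit 0), (nat_lit 0)], [(nat_lit 36626659292), (nat_lit 37428364903), (nat_lit 39806551889), (nat_lit 41188537640), (nat_lit 34949478467), (nat_lit 35492046361), (nat_lit 37030291706), (nat_lit 37872825664)], (nat_lit 1271251), (nat_lit 1271251), (nat_lit 1271251), (nat_lit 1271251), (nat_lit 230000), (nat_lit 2089376), [(nat_lit 490000), (nat_lit 1100000), (nat_lit 1785001)], [(nat_lit 4), (nat_lit 51), (nat_lit 289), (nat_lit 75), (nat_lit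 8)]⟩,
 ⟨⟨[(nat_lit 40), (nat_lit 100), (nat_lit 140)], [(nat_lit 0), (nat_lit 2396), (nat_lit 4896)], [((nat_lit 0), (nat_lit 0), (nat_lit 0)), ((nat_lit 1000), (nat_lit 625), (nat_lit 623)), ((nat_lit 1000), (nat_lit 625), (nat_lit 975))], ((nat_lit 61), (nat_lit 100), (nat_lit 93))⟩, (nat_lit 1367785), (nat_lit 424), (nat_lit 424), (nat_lit 0), (nat_lit 746826), [(nat_lit 1987296000), (nat_lit 6112500000), (nat_lit 9625476000)], [], [(nat_lit 28094605830), (nat_lit 29635615203), (nat_lit 32062863746), (nat_lit 33827398684), (nat_lit 28735800598), (nat_lit 30384389589), (nat_lit 32492987982), (nat_lit 34338040312)], (nat_lit 1271251), (nat_lit 1271251), (nat_lit 1271251), (nat_lit 1271251), (nat_lit 1100000), (nat_lit 1785001), [(nat_lit 490000), (nat_lit 1427501), (nat_lit 1271251)], [(nat_lit 5), (nat_lit 55), (nat_lit 272), (nat_lit 60), (nat_lit 6)]⟩,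
 Rw.none⟩) (.spl (nat_lit 3) (nat_lit 360) (.leaf ⟨(nat_lit 22), (nat_lit 978), (nat_lit 0), (nat_lit 0), (nat_lit 0), (nat_lit 6463), (nat_lit 4742), (nat_lit 0), (nat_lit 53183), (nat_lit 0), (nat_lit 88000), [((nat_lit 400), [((nat_lit 43), (nat_lit 5), (nat_lit 22))])], ⟨(nat_lit 9), false, true, false, (nat_lit 352), (nat_lit 0), (nat_lit 2237), [(nat_lit 1807212), (nat_lit 1809233), (nat_lit 1850907), (nat_lit 1857380), (nat_lit 1910126), (nat_lit 1899870), (nat_lit 1953909), (nat_lit 1948104)]⟩, ⟨(nat_lit 3), false, false, true, (nat_lit 161), (nat_lit 0), (nat_lit 2237), [(nat_lit 1177178), (nat_lit 1196337), (nat_lit 1264568), (nat_lit 1292631), (nat_lit 1537178), (nat_lit 1512490), (nat_lit 1628279), (nat_lit 1612494)]⟩, (nat_lit 5129076), (nat_lit 33372887), (nat_lit 26237563), (nat_lit 7389550), (nat_lit 6), (nat_lit 0), [⟨(nat_lit 0), (nat_lit 63), (nat_lit 45), (nat_lit 100), (nat_lit 231415859)⟩], [⟨(nat_lit 1), (nat_lit 90),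 (nat_lit 44), (nat_lit 100), (nat_lit 233495152)⟩], [⟨(nat_lit 1), (nat_lit 80), (nat_lit 60), (nat_lit 100), (nat_lit 559142909)⟩], [],
 ⟨⟨[(nat_lit 40), (nat_lit 80), (nat_lit 120)], [(nat_lit 0), (nat_lit 2514), (nat_lit 4610)], [((nat_lit 0), (nat_lit 0), (nat_lit 0)), ((nat_lit 1000), (nat_lit 446), (nat_lit 804)), ((nat_lit 1000), (nat_lit 443), (nat_lit 819))], ((nat_lit 44), (nat_lit 100), (nat_lit 91))⟩, (nat_lit 246135), (nat_lit 300), (nat_lit 432), (nat_lit 45587108), (nat_lit 739266), [(nat_lit 1823484002), (nat_lit 4211334607), (nat_lit 6605135200)], [(nat_lit 0), (nat_lit 0), (nat_lit 0)], [(nat_lit 35778685717), (nat_lit 36601920603), (nat_lit 37722402928), (nat_lit 39369839887), (nat_lit 33720382886), (nat_lit 34271468461), (nat_lit 35305309831), (nat_lit 36451724939)], (nat_lit 1271251), (nat_lit 1271251), (nat_lit 1271251), (nat_lit 1271251), (nat_lit 230000), (nat_lit 2089376), [(nat_lit 490000), (nat_lit 1100000), (nat_lit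 1785001)], [(nat_lit 4), (nat_lit 51), (nat_lit 289), (nat_lit 75), (nat_lit 8)]⟩,
 ⟨⟨[(nat_lit 40), (nat_lit 100), (nat_lit 140)], [(nat_lit 0), (nat_lit 2396), (nat_lit 4896)], [((nat_lit 0), (nat_lit 0), (nat_lit 0)), ((nat_lit 1000), (nat_lit 625), (nat_lit 623)), ((nat_lit 1000), (nat_lit 625), (nat_lit 975))], ((nat_lit 61), (nat_lit 100), (nat_lit 93))⟩, (nat_lit 1446957), (nat_lit 378), (nat_lit 378), (nat_lit 0), (nat_lit 746826), [(nat_lit 1987296000), (nat_lit 6112500000), (nat_lit 9625476000)], [], [(nat_lit 28375225492), (nat_lit 30017133412), (nat_lit 30592788180), (nat_lit 32334881636), (nat_lit 30221645291), (nat_lit 31863733363), (nat_lit 32527481222), (nat_lit 34351413368)], (nat_lit 1271251), (nat_lit 1271251), (nat_lit 1271251), (nat_lit 1271251), (nat_lit 1271251), (nat_lit 1271251), [(nat_lit 490000), (nat_lit 1427501), (nat_lit 1271251)], [(nat_lit 5), (nat_lit 55), (nat_lit 317), (nat_lit 100), (nat_lit 7)]⟩,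
 Rw.none⟩) (.trZ (nat_lit 5) (nat_lit 3) (nat_lit 4) (nat_lit 61) (nat_lit 100) (nat_lit 92) (nat_lit 110) (.leaf ⟨(nat_lit 22), (nat_lit 978), (nat_lit 0), (nat_lit 0), (nat_lit 0), (nat_lit 6151), (nat_lit 4585), (nat_lit 0), (nat_lit 2804), (nat_lit 0), (nat_lit 88000), [((nat_lit 400), [((nat_lit 43), (nat_lit 5), (nat_lit 22))])], ⟨(nat_lit 9), false, true, false, (nat_lit 382), (nat_lit 0), (nat_lit 2237), [(nat_lit 1910126), (nat_lit 1899870), (nat_lit 1953909), (nat_lit 1948104), (nat_lit 1967269), (nat_lit 1949998), (nat_lit 2012658), (nat_lit 1999837)]⟩, ⟨(nat_lit 3), false, false, true, (nat_lit 180), (nat_lit 0), (nat_lit 2237), [(nat_lit 1280178), (nat_lit 1287060), (nat_lit 1367570), (nat_lit 1383355), (nat_lit 1537178), (nat_lit 1512490), (nat_lit 1628279), (nat_lit 1612494)]⟩, (nat_lit 5260952), (nat_lit 30637759), (nat_lit 28130184), (nat_lit 8232057), (nat_lit 6), (nat_lit 0), [], [⟨(nat_lit 1), (nat_lit 90), (nat_lit 44),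 (nat_lit 100), (nat_lit 369377360)⟩], [⟨(nat_lit 1), (nat_lit 99), (nat_lit 44), (nat_lit 100), (nat_lit 233195200)⟩, ⟨(nat_lit 1), (nat_lit 80), (nat_lit 60), (nat_lit 100), (nat_lit 342817827)⟩], [],
 ⟨⟨[(nat_lit 40), (nat_lit 80), (nat_lit 120)], [(nat_lit 0), (nat_lit 2514), (nat_lit 4610)], [((nat_lit 0), (nat_lit 0), (nat_lit 0)), ((nat_lit 1000), (nat_lit 446), (nat_lit 804)), ((nat_lit 1000), (nat_lit 443), (nat_lit 819))], ((nat_lit 44), (nat_lit 100), (nat_lit 91))⟩, (nat_lit 246135), (nat_lit 300), (nat_lit 398), (nat_lit 45587108), (nat_lit 739266), [(nat_lit 1823484001), (nat_lit 4209785939), (nat_lit 6605135200)], [(nat_lit 0), (nat_lit 0), (nat_lit 0)], [(nat_lit 36295978901), (nat_lit 36924801313), (nat_lit 37481806314), (nat_lit 38038811314), (nat_lit 35911024689), (nat_lit 36362388616), (nat_lit 37022728772), (nat_lit 37999750528)], (nat_lit 1271251), (nat_lit 1271251), (nat_lit 1271251), (nat_lit 1271251), (nat_lit 704688),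 (nat_lit 2161563), [(nat_lit 490000), (nat_lit 1100000), (nat_lit 1785001)], [(nat_lit 4), (nat_lit 51), (nat_lit 289), (nat_lit 75), (nat_lit 8)]⟩,
 ⟨⟨[(nat_lit 40), (nat_lit 100), (nat_lit 140)], [(nat_lit 0), (nat_lit 2396), (nat_lit 4896)], [((nat_lit 0), (nat_lit 0), (nat_lit 0)), ((nat_lit 1000), (nat_lit 625), (nat_lit 623)), ((nat_lit 1000), (nat_lit 625), (nat_lit 975))], ((nat_lit 61), (nat_lit 100), (nat_lit 93))⟩, (nat_lit 1331180), (nat_lit 377), (nat_lit 377), (nat_lit 0), (nat_lit 746826), [(nat_lit 1987296000), (nat_lit 6112500000), (nat_lit 9625476000)], [], [(nat_lit 31425071657), (nat_lit 32733993294), (nat_lit 32733993294), (nat_lit 34081861072), (nat_lit 32836212286), (nat_lit 34145454802), (nat_lit 34145454802), (nat_lit 35739354024)], (nat_lit 1271251), (nat_lit 1271251), (nat_lit 1271251), (nat_lit 1271251), (nat_lit 1271251), (nat_lit 1271251), [(nat_lit 490000), (nat_lit 1427501), (nat_lit 1271251)], [(nat_lit 5), (nat_lit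 55), (nat_lit 317), (nat_lit 100), (nat_lit 7)]⟩,
 Rw.none⟩)))))))))
noncomputable def c15_20 : Tr Lf :=
 (.trZ (nat_lit 0) (nat_lit 2) (nat_lit 4) (nat_lit 100) (nat_lit 44) (nat_lit 90) (nat_lit 110) (.trZ (nat_lit 1) (nat_lit 2) (nat_lit 5) (nat_lit 100) (nat_lit 80) (nat_lit 60) (nat_lit 40) (.spl (nat_lit 1) (nat_lit 360) (.spl (nat_lit 5) (nat_lit 200) (.leaf ⟨(nat_lit 22), (nat_lit 788), (nat_lit 0), (nat_lit 190), (nat_lit 0), (nat_lit 4105), (nat_lit 6545), (nat_lit 2102), (nat_lit 0), (nat_lit 0), (nat_lit 88000), [((nat_lit 400), [((nat_lit 43), (nat_lit 5), (nat_lit 22))])], ⟨(nat_lit 8), false, true, false, (nat_lit 327), (nat_lit 0), (nat_lit 2237), [(nat_lit 1675230), (nat_lit 1683322), (nat_lit 1718925), (nat_lit 1731469), (nat_lit 1921719), (nat_lit 1899996), (nat_lit 1967269), (nat_lit 1949998)]⟩, ⟨(nat_lit 5), false, false, true, (nat_lit 227), (nat_lit 0), (nat_lit 2237), [(nat_lit 1367570), (nat_lit 1383355), (nat_lit 1433113),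 (nat_lit 1455575), (nat_lit 1699546), (nat_lit 1674992), (nat_lit 1767872), (nat_lit 1749995)]⟩, (nat_lit 5566048), (nat_lit 32267247), (nat_lit 22452325), (nat_lit 12280428), (nat_lit 5), (nat_lit 0), [⟨(nat_lit 0), (nat_lit 80), (nat_lit 35), (nat_lit 100), (nat_lit 202853207)⟩], [⟨(nat_lit 1), (nat_lit 90), (nat_lit 32), (nat_lit 100), (nat_lit 335175595)⟩], [⟨(nat_lit 0), (nat_lit 100), (nat_lit 72), (nat_lit 81), (nat_lit 92541159)⟩], [],
 ⟨⟨[(nat_lit 40), (nat_lit 80), (nat_lit 120)], [(nat_lit 0), (nat_lit 2514), (nat_lit 4610)], [((nat_lit 0), (nat_lit 0), (nat_lit 0)), ((nat_lit 1000), (nat_lit 446), (nat_lit 804)), ((nat_lit 1000), (nat_lit 443), (nat_lit 819))], ((nat_lit 44), (nat_lit 100), (nat_lit 91))⟩, (nat_lit 976475), (nat_lit 296), (nat_lit 296), (nat_lit 0), (nat_lit 469803), [(nat_lit 1823484040), (nat_lit 4083641610), (nat_lit 6605135200)], [(nat_lit 0), (nat_lit 0), (nat_lit 0)], [(nat_lit 26405711492), (nat_lit 27327856802),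 (nat_lit 32615548619), (nat_lit 33724074593), (nat_lit 30364686853), (nat_lit 31050617652), (nat_lit 35594698330), (nat_lit 36336515165)], (nat_lit 1271251), (nat_lit 1271251), (nat_lit 1271251), (nat_lit 1271251), (nat_lit 704688), (nat_lit 2566251), [(nat_lit 490000), (nat_lit 1100000), (nat_lit 1785001)], [(nat_lit 4), (nat_lit 51), (nat_lit 428), (nat_lit 200), (nat_lit 13)]⟩,
 ⟨⟨[(nat_lit 40), (nat_lit 100), (nat_lit 160)], [(nat_lit 0), (nat_lit 0), (nat_lit 4607)], [((nat_lit 0), (nat_lit 0), (nat_lit 0)), ((nat_lit 0), (nat_lit 0), (nat_lit 0)), ((nat_lit 846), (nat_lit 837), (nat_lit 1000))], ((nat_lit 88), (nat_lit 97), (nat_lit 100))⟩, (nat_lit 1707971), (nat_lit 495), (nat_lit 495), (nat_lit 0), (nat_lit 601446), [(nat_lit 1987296000), (nat_lit 6112500000), (nat_lit 11610816000)], [], [(nat_lit 31677900755), (nat_lit 33487572576), (nat_lit 37368894530), (nat_lit 39068752789), (nat_lit 29483031183), (nat_lit 30947577702), (nat_lit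 34589480674), (nat_lit 35817692141)], (nat_lit 1271251), (nat_lit 1271251), (nat_lit 1271251), (nat_lit 1271251), (nat_lit 230000), (nat_lit 1420001), [(nat_lit 490000), (nat_lit 1427501), (nat_lit 1271251)], [(nat_lit 6), (nat_lit 56), (nat_lit 373), (nat_lit 150), (nat_lit 9)]⟩,
 ⟨⟨[(nat_lit 100), (nat_lit 160), (nat_lit 200)], [(nat_lit 0), (nat_lit 0), (nat_lit 4782)], [((nat_lit 0), (nat_lit 0), (nat_lit 0)), ((nat_lit 0), (nat_lit 0), (nat_lit 0)), ((nat_lit 475), (nat_lit 1000), (nat_lit 880))], ((nat_lit 0), (nat_lit 0), (nat_lit 0))⟩, (nat_lit 61982), (nat_lit 300), (nat_lit 1348), (nat_lit 14098011), (nat_lit 2010728), [(nat_lit 1187500000), (nat_lit 2255680000), (nat_lit 3116000000)], [], [(nat_lit 12999855574), (nat_lit 12648706089), (nat_lit 11695772274), (nat_lit 11353620140), (nat_lit 11433988168), (nat_lit 11082697126), (nat_lit 11471187982), (nat_lit 9741718661)], (nat_lit 1271251), (nat_lit 1271251), (nat_lit 704688), (nat_lit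 2566251), (nat_lit 230000), (nat_lit 1420001), [(nat_lit 1412501), (nat_lit 1271251), (nat_lit 1271251)], [(nat_lit 25), (nat_lit 66), (nat_lit 437), (nat_lit 200), (nat_lit 9)]⟩⟩) (.spl (nat_lit 1) (nat_lit 340) (.trX (nat_lit 3) (nat_lit 0) (nat_lit 1) (nat_lit 61) (nat_lit 47) (nat_lit 100) (nat_lit 390) (.leaf ⟨(nat_lit 22), (nat_lit 716), (nat_lit 0), (nat_lit 262), (nat_lit 0), (nat_lit 3867), (nat_lit 6969), (nat_lit 2768), (nat_lit 0), (nat_lit 0), (nat_lit 88000), [((nat_lit 400), [((nat_lit 43), (nat_lit 5), (nat_lit 22))])], ⟨(nat_lit 8), false, true, false, (nat_lit 320), (nat_lit 0), (nat_lit 2237), [(nat_lit 1675230), (nat_lit 1683322), (nat_lit 1697077), (nat_lit 1707396), (nat_lit 1907465), (nat_lit 1887496), (nat_lit 1930241), (nat_lit 1912498)]⟩, ⟨(nat_lit 5), false, false, true, (nat_lit 227), (nat_lit 0), (nat_lit 2237), [(nat_lit 1367570), (nat_lit 1383355), (nat_lit 1433113), (nat_lit 1455575), (nat_lit 1699546), (nat_lit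 1674992), (nat_lit 1767872), (nat_lit 1749995)]⟩, (nat_lit 5559165), (nat_lit 32720316), (nat_lit 21859709), (nat_lit 12419975), (nat_lit 5), (nat_lit 0), [⟨(nat_lit 0), (nat_lit 82), (nat_lit 34), (nat_lit 100), (nat_lit 108888822)⟩], [⟨(nat_lit 1), (nat_lit 90), (nat_lit 32), (nat_lit 100), (nat_lit 238526554)⟩], [⟨(nat_lit 1), (nat_lit 53), (nat_lit 77), (nat_lit 100), (nat_lit 164183222)⟩], [],
 ⟨⟨[(nat_lit 40), (nat_lit 80), (nat_lit 120)], [(nat_lit 0), (nat_lit 2514), (nat_lit 4610)], [((nat_lit 0), (nat_lit 0), (nat_lit 0)), ((nat_lit 1000), (nat_lit 446), (nat_lit 804)), ((nat_lit 1000), (nat_lit 443), (nat_lit 819))], ((nat_lit 44), (nat_lit 100), (nat_lit 91))⟩, (nat_lit 1105951), (nat_lit 272), (nat_lit 272), (nat_lit 0), (nat_lit 391201), [(nat_lit 1823484001), (nat_lit 4133954196), (nat_lit 6605135200)], [(nat_lit 0), (nat_lit 0), (nat_lit 0)], [(nat_lit 25778323648), (nat_lit 26822335802), (nat_lit 31584285705), (nat_lit 32700469700),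 (nat_lit 30047092073), (nat_lit 30759327644), (nat_lit 34872305185), (nat_lit 35622729787)], (nat_lit 1271251), (nat_lit 1271251), (nat_lit 1271251), (nat_lit 1271251), (nat_lit 704688), (nat_lit 2566251), [(nat_lit 490000), (nat_lit 1100000), (nat_lit 1785001)], [(nat_lit 4), (nat_lit 51), (nat_lit 428), (nat_lit 200), (nat_lit 13)]⟩,
 ⟨⟨[(nat_lit 40), (nat_lit 100), (nat_lit 160)], [(nat_lit 0), (nat_lit 0), (nat_lit 4607)], [((nat_lit 0), (nat_lit 0), (nat_lit 0)), ((nat_lit 0), (nat_lit 0), (nat_lit 0)), ((nat_lit 846), (nat_lit 837), (nat_lit 1000))], ((nat_lit 88), (nat_lit 97), (nat_lit 100))⟩, (nat_lit 1422756), (nat_lit 360), (nat_lit 360), (nat_lit 0), (nat_lit 556843), [(nat_lit 1987296000), (nat_lit 6112500000), (nat_lit 11610816000)], [], [(nat_lit 29572910350), (nat_lit 30323895282), (nat_lit 33367412956), (nat_lit 33853350282), (nat_lit 33270331415), (nat_lit 33726501609), (nat_lit 38197182389), (nat_lit 38970627401)], (nat_lit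 1271251), (nat_lit 1271251), (nat_lit 1271251), (nat_lit 1271251), (nat_lit 1271251), (nat_lit 1271251), [(nat_lit 490000), (nat_lit 1427501), (nat_lit 1271251)], [(nat_lit 6), (nat_lit 56), (nat_lit 428), (nat_lit 200), (nat_lit 10)]⟩,
 ⟨⟨[(nat_lit 100), (nat_lit 160), (nat_lit 200)], [(nat_lit 0), (nat_lit 0), (nat_lit 4782)], [((nat_lit 0), (nat_lit 0), (nat_lit 0)), ((nat_lit 0), (nat_lit 0), (nat_lit 0)), ((nat_lit 475), (nat_lit 1000), (nat_lit 880))], ((nat_lit 0), (nat_lit 0), (nat_lit 0))⟩, (nat_lit 85471), (nat_lit 300), (nat_lit 1103), (nat_lit 19440400), (nat_lit 1674773), [(nat_lit 1637500000), (nat_lit 3110464000), (nat_lit 4296800000)], [], [(nat_lit 16511873013), (nat_lit 16057729729), (nat_lit 14689028351), (nat_lit 14206855582), (nat_lit 15475075849), (nat_lit 14982230977), (nat_lit 13574649557), (nat_lit 13091964841)], (nat_lit 1271251), (nat_lit 1271251), (nat_lit 704688), (nat_lit 2566251), (nat_lit 1271251), (nat_lit 1271251),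 [(nat_lit 1412501), (nat_lit 1271251), (nat_lit 1271251)], [(nat_lit 25), (nat_lit 66), (nat_lit 483), (nat_lit 250), (nat_lit 10)]⟩⟩)) (.trZ (nat_lit 0) (nat_lit 1) (nat_lit 3) (nat_lit 75) (nat_lit 46) (nat_lit 100) (nat_lit 260) (.trX (nat_lit 5) (nat_lit 1) (nat_lit 2) (nat_lit 75) (nat_lit 48) (nat_lit 100) (nat_lit 380) (.leaf ⟨(nat_lit 23), (nat_lit 778), (nat_lit 0), (nat_lit 199), (nat_lit 0), (nat_lit 4078), (nat_lit 5181), (nat_lit 2131), (nat_lit 0), (nat_lit 0), (nat_lit 92000), [((nat_lit 400), [((nat_lit 43), (nat_lit 5), (nat_lit 23))])], ⟨(nat_lit 8), false, true, false, (nat_lit 340), (nat_lit 0), (nat_lit 2237), [(nat_lit 1741221), (nat_lit 1746278), (nat_lit 1763069), (nat_lit 1770351), (nat_lit 1944494), (nat_lit 1924997), (nat_lit 1967269), (nat_lit 1949998)]⟩, ⟨(nat_lit 5), false, false, true, (nat_lit 227), (nat_lit 0), (nat_lit 2237), [(nat_lit 1367570), (nat_lit 1383355), (nat_lit 1433113), (nat_lit 1455575), (nat_lit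 1699546), (nat_lit 1674992), (nat_lit 1767872), (nat_lit 1749995)]⟩, (nat_lit 5573088), (nat_lit 31478101), (nat_lit 23487856), (nat_lit 12034043), (nat_lit 5), (nat_lit 0), [⟨(nat_lit 0), (nat_lit 77), (nat_lit 36), (nat_lit 100), (nat_lit 114597643)⟩], [⟨(nat_lit 1), (nat_lit 90), (nat_lit 32), (nat_lit 100), (nat_lit 353594860)⟩], [⟨(nat_lit 1), (nat_lit 65), (nat_lit 67), (nat_lit 100), (nat_lit 284969737)⟩], [],
 ⟨⟨[(nat_lit 40), (nat_lit 80), (nat_lit 120)], [(nat_lit 0), (nat_lit 2514), (nat_lit 4610)], [((nat_lit 0), (nat_lit 0), (nat_lit 0)), ((nat_lit 1000), (nat_lit 446), (nat_lit 804)), ((nat_lit 1000), (nat_lit 443), (nat_lit 819))], ((nat_lit 44), (nat_lit 100), (nat_lit 91))⟩, (nat_lit 938283), (nat_lit 296), (nat_lit 296), (nat_lit 0), (nat_lit 469568), [(nat_lit 1821966001), (nat_lit 4027236378), (nat_lit 6543186800)], [(nat_lit 0), (nat_lit 0), (nat_lit 0)], [(nat_lit 27351953007), (nat_lit 28245833483), (nat_lit 32563902988),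 (nat_lit 33669230883), (nat_lit 31047174966), (nat_lit 31698811639), (nat_lit 35556532588), (nat_lit 36296885294)], (nat_lit 1271251), (nat_lit 1271251), (nat_lit 1271251), (nat_lit 1271251), (nat_lit 704688), (nat_lit 2566251), [(nat_lit 490000), (nat_lit 1100000), (nat_lit 1785001)], [(nat_lit 4), (nat_lit 51), (nat_lit 317), (nat_lit 100), (nat_lit 9)]⟩,
 ⟨⟨[(nat_lit 40), (nat_lit 100), (nat_lit 140)], [(nat_lit 0), (nat_lit 1192), (nat_lit 4003)], [((nat_lit 0), (nat_lit 0), (nat_lit 0)), ((nat_lit 1000), (nat_lit 814), (nat_lit 310)), ((nat_lit 992), (nat_lit 771), (nat_lit 1000))], ((nat_lit 76), (nat_lit 100), (nat_lit 97))⟩, (nat_lit 1702450), (nat_lit 336), (nat_lit 336), (nat_lit 0), (nat_lit 590923), [(nat_lit 1985264000), (nat_lit 6106250000), (nat_lit 9615634000)], [], [(nat_lit 28529161029), (nat_lit 29222444508), (nat_lit 32646632507), (nat_lit 33220483041), (nat_lit 32489968040), (nat_lit 33034303544), (nat_lit 36430455710),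 (nat_lit 37129604152)], (nat_lit 1271251), (nat_lit 1271251), (nat_lit 1271251), (nat_lit 1271251), (nat_lit 1271251), (nat_lit 1271251), [(nat_lit 490000), (nat_lit 1427501), (nat_lit 1271251)], [(nat_lit 5), (nat_lit 55), (nat_lit 428), (nat_lit 200), (nat_lit 11)]⟩,
 ⟨⟨[(nat_lit 100), (nat_lit 160), (nat_lit 200)], [(nat_lit 0), (nat_lit 0), (nat_lit 4782)], [((nat_lit 0), (nat_lit 0), (nat_lit 0)), ((nat_lit 0), (nat_lit 0), (nat_lit 0)), ((nat_lit 475), (nat_lit 1000), (nat_lit 880))], ((nat_lit 0), (nat_lit 0), (nat_lit 0))⟩, (nat_lit 64918), (nat_lit 300), (nat_lit 1262), (nat_lit 14765811), (nat_lit 2010728), [(nat_lit 1243750000), (nat_lit 2362528000), (nat_lit 3263600000)], [], [(nat_lit 12451259731), (nat_lit 12075518790), (nat_lit 10967783125), (nat_lit 10594772305), (nat_lit 11600412750), (nat_lit 11243183653), (nat_lit 10181851520), (nat_lit 9842646083)], (nat_lit 1271251), (nat_lit 1271251), (nat_lit 704688), (nat_lit 2566251),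 (nat_lit 1271251), (nat_lit 1271251), [(nat_lit 1412501), (nat_lit 1271251), (nat_lit 1271251)], [(nat_lit 25), (nat_lit 66), (nat_lit 483), (nat_lit 250), (nat_lit 10)]⟩⟩))))) (.trZ (nat_lit 0) (nat_lit 1) (nat_lit 3) (nat_lit 68) (nat_lit 49) (nat_lit 100) (nat_lit 290) (.trZ (nat_lit 1) (nat_lit 2) (nat_lit 5) (nat_lit 100) (nat_lit 60) (nat_lit 80) (nat_lit 80) (.trX (nat_lit 5) (nat_lit 1) (nat_lit 2) (nat_lit 63) (nat_lit 61) (nat_lit 100) (nat_lit 370) (.spl (nat_lit 4) (nat_lit 240) (.leaf ⟨(nat_lit 22), (nat_lit 833), (nat_lit 0), (nat_lit 145), (nat_lit 0), (nat_lit 6134), (nat_lit 4184), (nat_lit 1532), (nat_lit 2331760667026), (nat_lit 0), (nat_lit 88000), [((nat_lit 400), [((nat_lit 43), (nat_lit 5), (nat_lit 22))])], ⟨(nat_lit 9), false, true, false, (nat_lit 363), (nat_lit 0), (nat_lit 2237), [(nat_lit 1807212), (nat_lit 1809233), (nat_lit 1850907), (nat_lit 1857380), (nat_lit 1967269), (nat_lit 1949998), (nat_lit 2012658), (nat_lit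 1999837)]⟩, ⟨(nat_lit 5), false, false, false, (nat_lit 200), (nat_lit 0), (nat_lit 2237), [(nat_lit 1367570), (nat_lit 1383355), (nat_lit 1433113), (nat_lit 1455575), (nat_lit 1557013), (nat_lit 1549998), (nat_lit 1624400), (nat_lit 1624062)]⟩, (nat_lit 5411215), (nat_lit 31177787), (nat_lit 26034876), (nat_lit 9787337), (nat_lit 5), (nat_lit 0), [⟨(nat_lit 0), (nat_lit 63), (nat_lit 45), (nat_lit 100), (nat_lit 280864367)⟩], [], [⟨(nat_lit 1), (nat_lit 83), (nat_lit 44), (nat_lit 100), (nat_lit 340300573)⟩], [],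
 ⟨⟨[(nat_lit 40), (nat_lit 80), (nat_lit 120)], [(nat_lit 0), (nat_lit 2514), (nat_lit 4610)], [((nat_lit 0), (nat_lit 0), (nat_lit 0)), ((nat_lit 1000), (nat_lit 446), (nat_lit 804)), ((nat_lit 1000), (nat_lit 443), (nat_lit 819))], ((nat_lit 44), (nat_lit 100), (nat_lit 91))⟩, (nat_lit 246135), (nat_lit 300), (nat_lit 373), (nat_lit 45587108), (nat_lit 656069), [(nat_lit 1823484063), (nat_lit 4213094936), (nat_lit 6605135200)], [(nat_lit 0), (nat_lit 0), (nat_lit 0)], [(nat_lit 34546614486), (nat_lit 35298446162), (nat_lit 37524113115), (nat_lit 38080744636), (nat_lit 34091288966), (nat_lit 34699836516), (nat_lit 36457874622), (nat_lit 36906684112)], (nat_lit 1271251), (nat_lit 1271251), (nat_lit 1271251), (nat_lit 1271251), (nat_lit 704688), (nat_lit 1756876), [(nat_lit 490000), (nat_lit 1100000), (nat_lit 1785001)], [(nat_lit 4), (nat_lit 51), (nat_lit 272), (nat_lit 60), (nat_lit 7)]⟩,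
 ⟨⟨[(nat_lit 40), (nat_lit 100), (nat_lit 140)], [(nat_lit 0), (nat_lit 2396), (nat_lit 4896)], [((nat_lit 0), (nat_lit 0), (nat_lit 0)), ((nat_lit 1000), (nat_lit 625), (nat_lit 623)), ((nat_lit 1000), (nat_lit 625), (nat_lit 975))], ((nat_lit 61), (nat_lit 100), (nat_lit 93))⟩, (nat_lit 1647207), (nat_lit 431), (nat_lit 431), (nat_lit 0), (nat_lit 664834), [(nat_lit 1987296000), (nat_lit 6112500000), (nat_lit 9625476000)], [], [(nat_lit 28582991735), (nat_lit 29970114906), (nat_lit 31681914760), (nat_lit 33644294408), (nat_lit 32065219332), (nat_lit 33282268784), (nat_lit 35361549359), (nat_lit 36717441235)], (nat_lit 1271251), (nat_lit 1271251), (nat_lit 1271251), (nat_lit 1271251), (nat_lit 490000), (nat_lit 2755626), [(nat_lit 490000), (nat_lit 1427501), (nat_lit 1271251)], [(nat_lit 5), (nat_lit 55), (nat_lit 317), (nat_lit 100), (nat_lit 8)]⟩,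
 ⟨⟨[(nat_lit 100), (nat_lit 160), (nat_lit 200)], [(nat_lit 0), (nat_lit 0), (nat_lit 4782)], [((nat_lit 0), (nat_lit 0), (nat_lit 0)), ((nat_lit 0), (nat_lit 0), (nat_lit 0)), ((nat_lit 475), (nat_lit 1000), (nat_lit 880))], ((nat_lit 0), (nat_lit 0), (nat_lit 0))⟩, (nat_lit 47302), (nat_lit 300), (nat_lit 1698), (nat_lit 10759010), (nat_lit 2807169), [(nat_lit 906250000), (nat_lit 1721440000), (nat_lit 2378000000)], [], [(nat_lit 10035351515), (nat_lit 9754849359), (nat_lit 9331864788), (nat_lit 9052236767), (nat_lit 8665124841), (nat_lit 8382439059), (nat_lit 9730262107), (nat_lit 7686349984)], (nat_lit 1271251), (nat_lit 1271251), (nat_lit 704688), (nat_lit 1756876), (nat_lit 490000), (nat_lit 2755626), [(nat_lit 1412501), (nat_lit 1271251), (nat_lit 1271251)], [(nat_lit 25), (nat_lit 66), (nat_lit 534), (nat_lit 225), (nat_lit 11)]⟩⟩) (.leaf ⟨(nat_lit 22), (nat_lit 806), (nat_lit 0), (nat_lit 172), (nat_lit 0), (nat_lit 5667), (nat_lit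 4239), (nat_lit 1851), (nat_lit 7849016964628), (nat_lit 0), (nat_lit 88000), [((nat_lit 400), [((nat_lit 43), (nat_lit 5), (nat_lit 22))])], ⟨(nat_lit 9), false, true, false, (nat_lit 363), (nat_lit 0), (nat_lit 2237), [(nat_lit 1807212), (nat_lit 1809233), (nat_lit 1850907), (nat_lit 1857380), (nat_lit 1967269), (nat_lit 1949998), (nat_lit 2012658), (nat_lit 1999837)]⟩, ⟨(nat_lit 6), false, true, true, (nat_lit 262), (nat_lit 0), (nat_lit 2237), [(nat_lit 1557013), (nat_lit 1549998), (nat_lit 1624400), (nat_lit 1624062), (nat_lit 1699546), (nat_lit 1674992), (nat_lit 1767872), (nat_lit 1749995)]⟩, (nat_lit 5737509), (nat_lit 28766717), (nat_lit 24141688), (nat_lit 14091595), (nat_lit 6), (nat_lit 0), [⟨(nat_lit 0), (nat_lit 63), (nat_lit 45), (nat_lit 100), (nat_lit 187912736)⟩], [⟨(nat_lit 1), (nat_lit 90), (nat_lit 32), (nat_lit 100), (nat_lit 607589079)⟩], [⟨(nat_lit 1), (nat_lit 83), (nat_lit 44), (nat_lit 100), (nat_lit 278648407)⟩],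 [],
 ⟨⟨[(nat_lit 40), (nat_lit 80), (nat_lit 120)], [(nat_lit 0), (nat_lit 2514), (nat_lit 4610)], [((nat_lit 0), (nat_lit 0), (nat_lit 0)), ((nat_lit 1000), (nat_lit 446), (nat_lit 804)), ((nat_lit 1000), (nat_lit 443), (nat_lit 819))], ((nat_lit 44), (nat_lit 100), (nat_lit 91))⟩, (nat_lit 246135), (nat_lit 300), (nat_lit 313), (nat_lit 45587108), (nat_lit 656069), [(nat_lit 1823484030), (nat_lit 4203250054), (nat_lit 6605135200)], [(nat_lit 0), (nat_lit 0), (nat_lit 0)], [(nat_lit 33419902149), (nat_lit 34128873524), (nat_lit 36270259024), (nat_lit 36803550744), (nat_lit 35276828729), (nat_lit 35844497000), (nat_lit 37802657182), (nat_lit 38629176591)], (nat_lit 1271251), (nat_lit 1271251), (nat_lit 1271251), (nat_lit 1271251), (nat_lit 1271251), (nat_lit 1271251), [(nat_lit 490000), (nat_lit 1100000), (nat_lit 1785001)], [(nat_lit 4), (nat_lit 51), (nat_lit 221), (nat_lit 0), (nat_lit 5)]⟩,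
 ⟨⟨[(nat_lit 40), (nat_lit 100), (nat_lit 140)], [(nat_lit 0), (nat_lit 2396), (nat_lit 4896)], [((nat_lit 0), (nat_lit 0), (nat_lit 0)), ((nat_lit 1000), (nat_lit 625), (nat_lit 623)), ((nat_lit 1000), (nat_lit 625), (nat_lit 975))], ((nat_lit 61), (nat_lit 100), (nat_lit 93))⟩, (nat_lit 1602085), (nat_lit 431), (nat_lit 431), (nat_lit 0), (nat_lit 664834), [(nat_lit 1987296000), (nat_lit 6112500000), (nat_lit 9625476000)], [], [(nat_lit 28703936862), (nat_lit 30097360750), (nat_lit 31812879154), (nat_lit 33767137128), (nat_lit 31941490990), (nat_lit 33355781048), (nat_lit 35440229087), (nat_lit 36800972843)], (nat_lit 1271251), (nat_lit 1271251), (nat_lit 1271251), (nat_lit 1271251), (nat_lit 490000), (nat_lit 2755626), [(nat_lit 490000), (nat_lit 1427501), (nat_lit 1271251)], [(nat_lit 5), (nat_lit 55), (nat_lit 317), (nat_lit 100), (nat_lit 8)]⟩,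
 ⟨⟨[(nat_lit 100), (nat_lit 160), (nat_lit 200)], [(nat_lit 0), (nat_lit 0), (nat_lit 4782)], [((nat_lit 0), (nat_lit 0), (nat_lit 0)), ((nat_lit 0), (nat_lit 0), (nat_lit 0)), ((nat_lit 475), (nat_lit 1000), (nat_lit 880))], ((nat_lit 0), (nat_lit 0), (nat_lit 0))⟩, (nat_lit 56110), (nat_lit 300), (nat_lit 1636), (nat_lit 12762410), (nat_lit 2807169), [(nat_lit 1075000000), (nat_lit 2041984000), (nat_lit 2820800000)], [], [(nat_lit 10701327406), (nat_lit 10361817161), (nat_lit 10304993538), (nat_lit 9981712125), (nat_lit 9110618198), (nat_lit 8801385829), (nat_lit 8771380520), (nat_lit 8479428182)], (nat_lit 1271251), (nat_lit 1271251), (nat_lit 1271251), (nat_lit 1271251), (nat_lit 490000), (nat_lit 2755626), [(nat_lit 1412501), (nat_lit 1271251), (nat_lit 1271251)], [(nat_lit 25), (nat_lit 66), (nat_lit 531), (nat_lit 250), (nat_lit 11)]⟩⟩))))))))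
noncomputable def c15_21 : Tr Lf :=
 (.spl (nat_lit 6) (nat_lit 172) (.spl (nat_lit 0) (nat_lit 390) (.leaf ⟨(nat_lit 0), (nat_lit 917), (nat_lit 0), (nat_lit 83), (nat_lit 0), (nat_lit 7953), (nat_lit 7656), (nat_lit 891), (nat_lit 0), (nat_lit 0), (nat_lit 0), [], Pd.none, Pd.none, (nat_lit 0), (nat_lit 1), (nat_lit 0), (nat_lit 0), (nat_lit 3), (nat_lit 0), [⟨(nat_lit 0), (nat_lit 80), (nat_lit 40), (nat_lit 100), (nat_lit 415361345)⟩], [], [⟨(nat_lit 1), (nat_lit 93), (nat_lit 81), (nat_lit 100), (nat_lit 23546518)⟩], [],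
 ⟨⟨[(nat_lit 40), (nat_lit 80), (nat_lit 120)], [(nat_lit 0), (nat_lit 2514), (nat_lit 4610)], [((nat_lit 0), (nat_lit 0), (nat_lit 0)), ((nat_lit 1000), (nat_lit 446), (nat_lit 804)), ((nat_lit 1000), (nat_lit 443), (nat_lit 819))], ((nat_lit 44), (nat_lit 100), (nat_lit 96))⟩, (nat_lit 5360), (nat_lit 255), (nat_lit 255), (nat_lit 0), (nat_lit 248708), [(nat_lit 2584669793), (nat_lit 5292928476), (nat_lit 7968000000)], [], [(nat_lit 33856854697), (nat_lit 34871886751), (nat_lit 37906743416), (nat_lit 38710726913), (nat_lit 30673523324), (nat_lit 31438740287), (nat_lit 33611847179), (nat_lit 34222639506)], (nat_lit 1271251), (nat_lit 1271251), (nat_lit 1271251), (nat_lit 1271251), (nat_lit 230000), (nat_lit 1643126), [(nat_lit 490000), (nat_lit 1100000), (nat_lit 1785001)], [(nat_lit 4), (nat_lit 51), (nat_lit 373), (nat_lit 150), (nat_lit 11)]⟩,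
 ⟨⟨[(nat_lit 40), (nat_lit 100), (nat_lit 160)], [(nat_lit 0), (nat_lit 0), (nat_lit 4607)], [((nat_lit 0), (nat_lit 0), (nat_lit 0)), ((nat_lit 0), (nat_lit 0), (nat_lit 0)), ((nat_lit 846), (nat_lit 837), (nat_lit 1000))], ((nat_lit 84), (nat_lit 85), (nat_lit 100))⟩, (nat_lit 1477358), (nat_lit 387), (nat_lit 387), (nat_lit 0), (nat_lit 338239), [(nat_lit 2032000000), (nat_lit 6250000000), (nat_lit 11872000000)], [], [(nat_lit 35078775004), (nat_lit 36055069193), (nat_lit 37142019388), (nat_lit 37954811814), (nat_lit 30297764988), (nat_lit 30989257499), (nat_lit 32076207694), (nat_lit 32889000120)], (nat_lit 1271251), (nat_lit 1271251), (nat_lit 1271251), (nat_lit 1271251), (nat_lit 0), (nat_lit 2260001), [(nat_lit 490000), (nat_lit 1427501), (nat_lit 1271251)], [(nat_lit 6), (nat_lit 56), (nat_lit 401), (nat_lit 175), (nat_lit 10)]⟩,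
 ⟨⟨[(nat_lit 140), (nat_lit 180), (nat_lit 200)], [(nat_lit 0), (nat_lit 0), (nat_lit 2835)], [((nat_lit 0), (nat_lit 0), (nat_lit 0)), ((nat_lit 0), (nat_lit 0), (nat_lit 0)), ((nat_lit 363), (nat_lit 1000), (nat_lit 798))], ((nat_lit 0), (nat_lit 0), (nat_lit 0))⟩, (nat_lit 22836), (nat_lit 300), (nat_lit 1871), (nat_lit 6482300), (nat_lit 2867559), [(nat_lit 816886000), (nat_lit 1166814000), (nat_lit 1361200000)], [], [(nat_lit 7103707026), (nat_lit 7036383504), (nat_lit 6440873934), (nat_lit 6375292525), (nat_lit 6046619318), (nat_lit 5981780001), (nat_lit 5903844312), (nat_lit 6118078446)], (nat_lit 780000), (nat_lit 936250), (nat_lit 230000), (nat_lit 1643126), (nat_lit 0), (nat_lit 2260001), [(nat_lit 1977501), (nat_lit 1271251), (nat_lit 1271251)], [(nat_lit 32), (nat_lit 67), (nat_lit 554), (nat_lit 175), (nat_lit 12)]⟩⟩) (.trZ (nat_lit 0) (nat_lit 1) (nat_lit 3) (nat_lit 84) (nat_lit 33) (nat_lit 100) (nat_lit 260) (.trZ (nat_lit 0)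 (nat_lit 2) (nat_lit 4) (nat_lit 100) (nat_lit 34) (nat_lit 81) (nat_lit 60) (.trX (nat_lit 4) (nat_lit 0) (nat_lit 2) (nat_lit 31) (nat_lit 100) (nat_lit 95) (nat_lit 210) (.leaf ⟨(nat_lit 0), (nat_lit 921), (nat_lit 0), (nat_lit 79), (nat_lit 0), (nat_lit 5333), (nat_lit 7647), (nat_lit 890), (nat_lit 0), (nat_lit 0), (nat_lit 0), [], Pd.none, Pd.none, (nat_lit 0), (nat_lit 1), (nat_lit 0), (nat_lit 0), (nat_lit 3), (nat_lit 0), [⟨(nat_lit 0), (nat_lit 86), (nat_lit 25), (nat_lit 100), (nat_lit 525687786)⟩], [⟨(nat_lit 1), (nat_lit 100), (nat_lit 22), (nat_lit 95), (nat_lit 453560031)⟩], [⟨(nat_lit 1), (nat_lit 93), (nat_lit 81), (nat_lit 100), (nat_lit 27657786)⟩], [],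
 ⟨⟨[(nat_lit 40), (nat_lit 80), (nat_lit 120)], [(nat_lit 0), (nat_lit 3225), (nat_lit 5518)], [((nat_lit 0), (nat_lit 0), (nat_lit 0)), ((nat_lit 1000), (nat_lit 321), (nat_lit 877)), ((nat_lit 1000), (nat_lit 317), (nat_lit 896))], ((nat_lit 31), (nat_lit 100), (nat_lit 95))⟩, (nat_lit 751304), (nat_lit 258), (nat_lit 258), (nat_lit 0), (nat_lit 294433), [(nat_lit 2141998249), (nat_lit 5217466521), (nat_lit 7968000000)], [], [(nat_lit 29750666729), (nat_lit 30482346107), (nat_lit 32091862055), (nat_lit 32723739629), (nat_lit 29029591517), (nat_lit 29624888459), (nat_lit 30923293990), (nat_lit 31440605336)], (nat_lit 1271251), (nat_lit 1271251), (nat_lit 1271251), (nat_lit 1271251), (nat_lit 356250), (nat_lit 1500001), [(nat_lit 490000), (nat_lit 1100000), (nat_lit 1785001)], [(nat_lit 4), (nat_lit 51), (nat_lit 272), (nat_lit 60), (nat_lit 8)]⟩,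
 ⟨⟨[(nat_lit 40), (nat_lit 100), (nat_lit 160)], [(nat_lit 0), (nat_lit 0), (nat_lit 4607)], [((nat_lit 0), (nat_lit 0), (nat_lit 0)), ((nat_lit 0), (nat_lit 0), (nat_lit 0)), ((nat_lit 846), (nat_lit 837), (nat_lit 1000))], ((nat_lit 84), (nat_lit 85), (nat_lit 100))⟩, (nat_lit 1472407), (nat_lit 411), (nat_lit 411), (nat_lit 0), (nat_lit 422686), [(nat_lit 2032000000), (nat_lit 6250000000), (nat_lit 11872000000)], [], [(nat_lit 35693181980), (nat_lit 36604055757), (nat_lit 37192812902), (nat_lit 37969493891), (nat_lit 30604561029), (nat_lit 31515434806), (nat_lit 32104191951), (nat_lit 32880872940)], (nat_lit 1271251), (nat_lit 1271251), (nat_lit 1271251), (nat_lit 1271251), (nat_lit 0), (nat_lit 2260001), [(nat_lit 490000), (nat_lit 1427501), (nat_lit 1271251)], [(nat_lit 6), (nat_lit 56), (nat_lit 401), (nat_lit 175), (nat_lit 10)]⟩,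
 ⟨⟨[(nat_lit 140), (nat_lit 180), (nat_lit 200)], [(nat_lit 0), (nat_lit 0), (nat_lit 2835)], [((nat_lit 0), (nat_lit 0), (nat_lit 0)), ((nat_lit 0), (nat_lit 0), (nat_lit 0)), ((nat_lit 363), (nat_lit 1000), (nat_lit 798))], ((nat_lit 0), (nat_lit 0), (nat_lit 0))⟩, (nat_lit 21735), (nat_lit 300), (nat_lit 2214), (nat_lit 6169907), (nat_lit 3591837), [(nat_lit 777518000), (nat_lit 1110582000), (nat_lit 1295600000)], [], [(nat_lit 6394034639), (nat_lit 6317319832), (nat_lit 5791334975), (nat_lit 5716597961), (nat_lit 5236682932), (nat_lit 5175345904), (nat_lit 5538487544), (nat_lit 5747489162)], (nat_lit 780000), (nat_lit 936250), (nat_lit 356250), (nat_lit 1500001), (nat_lit 0), (nat_lit 2260001), [(nat_lit 1977501), (nat_lit 1271251), (nat_lit 1271251)], [(nat_lit 32), (nat_lit 67), (nat_lit 638), (nat_lit 175), (nat_lit 14)]⟩⟩))))) (.spl (nat_lit 5) (nat_lit 160) (.leaf ⟨(nat_lit 0), (nat_lit 1000), (nat_lit 0), (nat_lit 0), (nat_lit 14140),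 (nat_lit 7778), (nat_lit 6892), (nat_lit 0), (nat_lit 0), (nat_lit 0), (nat_lit 0), [], Pd.none, Pd.none, (nat_lit 0), (nat_lit 1), (nat_lit 0), (nat_lit 0), (nat_lit 3), (nat_lit 0), [⟨(nat_lit 0), (nat_lit 82), (nat_lit 34), (nat_lit 100), (nat_lit 519031287)⟩], [⟨(nat_lit 1), (nat_lit 100), (nat_lit 31), (nat_lit 94), (nat_lit 188097005)⟩], [⟨(nat_lit 0), (nat_lit 100), (nat_lit 81), (nat_lit 37), (nat_lit 29019112)⟩], [],
 ⟨⟨[(nat_lit 40), (nat_lit 80), (nat_lit 120)], [(nat_lit 0), (nat_lit 2514), (nat_lit 4610)], [((nat_lit 0), (nat_lit 0), (nat_lit 0)), ((nat_lit 1000), (nat_lit 446), (nat_lit 804)), ((nat_lit 1000), (nat_lit 443), (nat_lit 819))], ((nat_lit 44), (nat_lit 100), (nat_lit 96))⟩, (nat_lit 0), (nat_lit 197), (nat_lit 197), (nat_lit 0), (nat_lit 131504), [(nat_lit 2753833982), (nat_lit 5140245859), (nat_lit 7968000000)], [], [(nat_lit 33821623713), (nat_lit 35821856774), (nat_lit 37835716903), (nat_lit 39422032804), (nat_lit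 30790440476), (nat_lit 32300172179), (nat_lit 33711950235), (nat_lit 34918596232)], (nat_lit 1271251), (nat_lit 1271251), (nat_lit 1271251), (nat_lit 1271251), (nat_lit 230000), (nat_lit 1643126), [(nat_lit 490000), (nat_lit 1100000), (nat_lit 1785001)], [(nat_lit 4), (nat_lit 51), (nat_lit 373), (nat_lit 150), (nat_lit 11)]⟩,
 ⟨⟨[(nat_lit 40), (nat_lit 100), (nat_lit 160)], [(nat_lit 0), (nat_lit 0), (nat_lit 4607)], [((nat_lit 0), (nat_lit 0), (nat_lit 0)), ((nat_lit 0), (nat_lit 0), (nat_lit 0)), ((nat_lit 846), (nat_lit 837), (nat_lit 1000))], ((nat_lit 84), (nat_lit 85), (nat_lit 100))⟩, (nat_lit 1708209), (nat_lit 338), (nat_lit 338), (nat_lit 0), (nat_lit 186589), [(nat_lit 2032000000), (nat_lit 6250000000), (nat_lit 11872000000)], [], [(nat_lit 33396191136), (nat_lit 34325647159), (nat_lit 35454258274), (nat_lit 36201373977), (nat_lit 28021086670), (nat_lit 28811035345), (nat_lit 29921124881), (nat_lit 30760136405)], (nat_lit 1271251),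 (nat_lit 1271251), (nat_lit 1271251), (nat_lit 1271251), (nat_lit 0), (nat_lit 1100000), [(nat_lit 490000), (nat_lit 1427501), (nat_lit 1271251)], [(nat_lit 6), (nat_lit 56), (nat_lit 345), (nat_lit 125), (nat_lit 8)]⟩,
 Rw.none⟩) (.leaf ⟨(nat_lit 0), (nat_lit 862), (nat_lit 0), (nat_lit 138), (nat_lit 2296), (nat_lit 7778), (nat_lit 12363), (nat_lit 1445), (nat_lit 0), (nat_lit 0), (nat_lit 0), [], Pd.none, Pd.none, (nat_lit 0), (nat_lit 1), (nat_lit 0), (nat_lit 0), (nat_lit 4), (nat_lit 0), [⟨(nat_lit 0), (nat_lit 82), (nat_lit 34), (nat_lit 100), (nat_lit 441200959)⟩], [], [⟨(nat_lit 1), (nat_lit 93), (nat_lit 81), (nat_lit 100), (nat_lit 170609157)⟩], [],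
 ⟨⟨[(nat_lit 40), (nat_lit 80), (nat_lit 120)], [(nat_lit 0), (nat_lit 2514), (nat_lit 4610)], [((nat_lit 0), (nat_lit 0), (nat_lit 0)), ((nat_lit 1000), (nat_lit 446), (nat_lit 804)), ((nat_lit 1000), (nat_lit 443), (nat_lit 819))], ((nat_lit 44), (nat_lit 100), (nat_lit 96))⟩, (nat_lit 0), (nat_lit 197), (nat_lit 197), (nat_lit 0), (nat_lit 131504), [(nat_lit 2633431587), (nat_lit 5122737143), (nat_lit 7968000000)], [], [(nat_lit 33821623713), (nat_lit 35821856774), (nat_lit 37835716903), (nat_lit 39422032804), (nat_lit 30790440476), (nat_lit 32300172179), (nat_lit 33711950235), (nat_lit 34918596232)], (nat_lit 1271251), (nat_lit 1271251), (nat_lit 1271251), (nat_lit 1271251), (nat_lit 230000), (nat_lit 1643126), [(nat_lit 490000), (nat_lit 1100000), (nat_lit 1785001)], [(nat_lit 4), (nat_lit 51), (nat_lit 373), (nat_lit 150), (nat_lit 11)]⟩,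
 ⟨⟨[(nat_lit 40), (nat_lit 100), (nat_lit 160)], [(nat_lit 0), (nat_lit 0), (nat_lit 4607)], [((nat_lit 0), (nat_lit 0), (nat_lit 0)), ((nat_lit 0), (nat_lit 0), (nat_lit 0)), ((nat_lit 846), (nat_lit 837), (nat_lit 1000))], ((nat_lit 84), (nat_lit 85), (nat_lit 100))⟩, (nat_lit 0), (nat_lit 190), (nat_lit 190), (nat_lit 0), (nat_lit 186589), [(nat_lit 2032000000), (nat_lit 6250000000), (nat_lit 11872000000)], [], [(nat_lit 30108630799), (nat_lit 32009162512), (nat_lit 34261948532), (nat_lit 35738417835), (nat_lit 34080729631), (nat_lit 35345593515), (nat_lit 36175871000), (nat_lit 37139607915)], (nat_lit 1271251), (nat_lit 1271251), (nat_lit 1271251), (nat_lit 1271251), (nat_lit 1100000), (nat_lit 2470001), [(nat_lit 490000), (nat_lit 1427501), (nat_lit 1271251)], [(nat_lit 6), (nat_lit 56), (nat_lit 401), (nat_lit 175), (nat_lit 9)]⟩,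
 ⟨⟨[(nat_lit 140), (nat_lit 180), (nat_lit 200)], [(nat_lit 0), (nat_lit 0), (nat_lit 2835)], [((nat_lit 0), (nat_lit 0), (nat_lit 0)), ((nat_lit 0), (nat_lit 0), (nat_lit 0)), ((nat_lit 363), (nat_lit 1000), (nat_lit 798))], ((nat_lit 0), (nat_lit 0), (nat_lit 0))⟩, (nat_lit 36223), (nat_lit 300), (nat_lit 1164), (nat_lit 10802539), (nat_lit 1564747), [(nat_lit 1358196000), (nat_lit 1940004000), (nat_lit 2263200000)], [], [(nat_lit 10526931978), (nat_lit 10411919296), (nat_lit 9367488371), (nat_lit 9255534604), (nat_lit 9902146354), (nat_lit 9786198703), (nat_lit 11081917508), (nat_lit 11431477215)], (nat_lit 780000), (nat_lit 936250), (nat_lit 230000), (nat_lit 1643126), (nat_lit 1100000), (nat_lit 2470001), [(nat_lit 1977501), (nat_lit 1271251), (nat_lit 1271251)], [(nat_lit 32), (nat_lit 67), (nat_lit 401), (nat_lit 175), (nat_lit 9)]⟩⟩)))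
noncomputable def c15_22 : Tr Lf :=
 (.spl (nat_lit 6) (nat_lit 172) (.spl (nat_lit 0) (nat_lit 390) (.leaf ⟨(nat_lit 0), (nat_lit 920), (nat_lit 0), (nat_lit 80), (nat_lit 0), (nat_lit 6156), (nat_lit 7118), (nat_lit 828), (nat_lit 0), (nat_lit 0), (nat_lit 0), [], Pd.none, Pd.none, (nat_lit 0), (nat_lit 1), (nat_lit 0), (nat_lit 0), (nat_lit 3), (nat_lit 0), [], [⟨(nat_lit 1), (nat_lit 100), (nat_lit 38), (nat_lit 94), (nat_lit 47490823)⟩], [⟨(nat_lit 1), (nat_lit 93), (nat_lit 81), (nat_lit 100), (nat_lit 16883646)⟩], [],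
 ⟨⟨[(nat_lit 40), (nat_lit 80), (nat_lit 120)], [(nat_lit 0), (nat_lit 2514), (nat_lit 4610)], [((nat_lit 0), (nat_lit 0), (nat_lit 0)), ((nat_lit 1000), (nat_lit 446), (nat_lit 804)), ((nat_lit 1000), (nat_lit 443), (nat_lit 819))], ((nat_lit 44), (nat_lit 100), (nat_lit 96))⟩, (nat_lit 335063), (nat_lit 268), (nat_lit 268), (nat_lit 0), (nat_lit 248708), [(nat_lit 2415149310), (nat_lit 4888494300), (nat_lit 7968000000)], [], [(nat_lit 35403739476), (nat_lit 36095314783), (nat_lit 39436750093), (nat_lit 39993655978), (nat_lit 32866099439), (nat_lit 33400192437), (nat_lit 36005187790), (nat_lit 36439353683)], (nat_lit 1271251), (nat_lit 1271251), (nat_lit 1271251), (nat_lit 1271251), (nat_lit 230000), (nat_lit 1643126), [(nat_lit 490000), (nat_lit 1100000), (nat_lit 1785001)], [(nat_lit 4), (nat_lit 51), (nat_lit 272), (nat_lit 60), (nat_lit 7)]⟩,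
 ⟨⟨[(nat_lit 40), (nat_lit 100), (nat_lit 160)], [(nat_lit 0), (nat_lit 0), (nat_lit 4607)], [((nat_lit 0), (nat_lit 0), (nat_lit 0)), ((nat_lit 0), (nat_lit 0), (nat_lit 0)), ((nat_lit 846), (nat_lit 837), (nat_lit 1000))], ((nat_lit 84), (nat_lit 85), (nat_lit 100))⟩, (nat_lit 1286658), (nat_lit 390), (nat_lit 390), (nat_lit 0), (nat_lit 338239), [(nat_lit 2032000000), (nat_lit 6250000000), (nat_lit 11872000000)], [], [(nat_lit 39245019404), (nat_lit 39963963378), (nat_lit 41852673853), (nat_lit 42490604576), (nat_lit 34144628868), (nat_lit 34481730582), (nat_lit 35908307259), (nat_lit 36546237982)], (nat_lit 1271251), (nat_lit 1271251), (nat_lit 1271251), (nat_lit 1271251), (nat_lit 0), (nat_lit 2260001), [(nat_lit 490000), (nat_lit 1427501), (nat_lit 1271251)], [(nat_lit 6), (nat_lit 56), (nat_lit 317), (nat_lit 100), (nat_lit 7)]⟩,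
 ⟨⟨[(nat_lit 140), (nat_lit 180), (nat_lit 200)], [(nat_lit 0), (nat_lit 0), (nat_lit 2835)], [((nat_lit 0), (nat_lit 0), (nat_lit 0)), ((nat_lit 0), (nat_lit 0), (nat_lit 0)), ((nat_lit 363), (nat_lit 1000), (nat_lit 798))], ((nat_lit 0), (nat_lit 0), (nat_lit 0))⟩, (nat_lit 22011), (nat_lit 300), (nat_lit 1871), (nat_lit 6248000), (nat_lit 2867559), [(nat_lit 787360000), (nat_lit 1124640000), (nat_lit 1312000000)], [], [(nat_lit 7200275011), (nat_lit 7138151545), (nat_lit 6588346972), (nat_lit 6527828123), (nat_lit 6224798181), (nat_lit 6164958547), (nat_lit 5637076310), (nat_lit 5837359787)], (nat_lit 780000), (nat_lit 936250), (nat_lit 230000), (nat_lit 1643126), (nat_lit 0), (nat_lit 2260001), [(nat_lit 1977501), (nat_lit 1271251), (nat_lit 1271251)], [(nat_lit 32), (nat_lit 67), (nat_lit 554), (nat_lit 175), (nat_lit 12)]⟩⟩) (.trX (nat_lit 3) (nat_lit 0) (nat_lit 1) (nat_lit 44) (nat_lit 64) (nat_lit 100) (nat_lit 380) (.trZ (nat_lit 0)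 (nat_lit 2) (nat_lit 4) (nat_lit 100) (nat_lit 34) (nat_lit 81) (nat_lit 60) (.trX (nat_lit 4) (nat_lit 0) (nat_lit 2) (nat_lit 31) (nat_lit 100) (nat_lit 95) (nat_lit 210) (.leaf ⟨(nat_lit 0), (nat_lit 927), (nat_lit 0), (nat_lit 73), (nat_lit 0), (nat_lit 4321), (nat_lit 7151), (nat_lit 836), (nat_lit 0), (nat_lit 0), (nat_lit 0), [], Pd.none, Pd.none, (nat_lit 0), (nat_lit 1), (nat_lit 0), (nat_lit 0), (nat_lit 3), (nat_lit 0), [], [⟨(nat_lit 1), (nat_lit 100), (nat_lit 22), (nat_lit 95), (nat_lit 556384781)⟩], [⟨(nat_lit 1), (nat_lit 93), (nat_lit 81), (nat_lit 100), (nat_lit 25176397)⟩], [],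
 ⟨⟨[(nat_lit 40), (nat_lit 80), (nat_lit 120)], [(nat_lit 0), (nat_lit 3225), (nat_lit 5518)], [((nat_lit 0), (nat_lit 0), (nat_lit 0)), ((nat_lit 1000), (nat_lit 321), (nat_lit 877)), ((nat_lit 1000), (nat_lit 317), (nat_lit 896))], ((nat_lit 31), (nat_lit 100), (nat_lit 95))⟩, (nat_lit 888234), (nat_lit 268), (nat_lit 268), (nat_lit 0), (nat_lit 294433), [(nat_lit 2032000001), (nat_lit 4908822345), (nat_lit 7968000000)], [], [(nat_lit 30940418149), (nat_lit 31510030525), (nat_lit 33760656927), (nat_lit 34244921377), (nat_lit 30591644053), (nat_lit 30990917766), (nat_lit 32875329694), (nat_lit 33279347462)], (nat_lit 1271251), (nat_lit 1271251), (nat_lit 1271251), (nat_lit 1271251), (nat_lit 356250), (nat_lit 1500001), [(nat_lit 490000), (nat_lit 1100000), (nat_lit 1785001)], [(nat_lit 4), (nat_lit 51), (nat_lit 272), (nat_lit 60), (nat_lit 7)]⟩,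
 ⟨⟨[(nat_lit 40), (nat_lit 100), (nat_lit 160)], [(nat_lit 0), (nat_lit 0), (nat_lit 4607)], [((nat_lit 0), (nat_lit 0), (nat_lit 0)), ((nat_lit 0), (nat_lit 0), (nat_lit 0)), ((nat_lit 846), (nat_lit 837), (nat_lit 1000))], ((nat_lit 84), (nat_lit 85), (nat_lit 100))⟩, (nat_lit 1319383), (nat_lit 414), (nat_lit 414), (nat_lit 0), (nat_lit 422686), [(nat_lit 2032000000), (nat_lit 6250000000), (nat_lit 11872000000)], [], [(nat_lit 38887976038), (nat_lit 39644770493), (nat_lit 41158359403), (nat_lit 41786383236), (nat_lit 33735182798), (nat_lit 34072353304), (nat_lit 35364756884), (nat_lit 35992780717)], (nat_lit 1271251), (nat_lit 1271251), (nat_lit 1271251), (nat_lit 1271251), (nat_lit 0), (nat_lit 2260001), [(nat_lit 490000), (nat_lit 1427501), (nat_lit 1271251)], [(nat_lit 6), (nat_lit 56), (nat_lit 317), (nat_lit 100), (nat_lit 7)]⟩,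
 ⟨⟨[(nat_lit 140), (nat_lit 180), (nat_lit 200)], [(nat_lit 0), (nat_lit 0), (nat_lit 2835)], [((nat_lit 0), (nat_lit 0), (nat_lit 0)), ((nat_lit 0), (nat_lit 0), (nat_lit 0)), ((nat_lit 363), (nat_lit 1000), (nat_lit 798))], ((nat_lit 0), (nat_lit 0), (nat_lit 0))⟩, (nat_lit 20085), (nat_lit 300), (nat_lit 2214), (nat_lit 5701300), (nat_lit 3591837), [(nat_lit 718466000), (nat_lit 1026234000), (nat_lit 1197200000)], [], [(nat_lit 5856903547), (nat_lit 5784658413), (nat_lit 5288635429), (nat_lit 5218160906), (nat_lit 4743859095), (nat_lit 4673964907), (nat_lit 5140002776), (nat_lit 5335569183)], (nat_lit 780000), (nat_lit 936250), (nat_lit 356250), (nat_lit 1500001), (nat_lit 0), (nat_lit 2260001), [(nat_lit 1977501), (nat_lit 1271251), (nat_lit 1271251)], [(nat_lit 32), (nat_lit 67), (nat_lit 638), (nat_lit 175), (nat_lit 14)]⟩⟩))))) (.spl (nat_lit 5) (nat_lit 160) (.leaf ⟨(nat_lit 0), (nat_lit 1000), (nat_lit 0), (nat_lit 0), (nat_lit 6494),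 (nat_lit 7639), (nat_lit 6341), (nat_lit 0), (nat_lit 0), (nat_lit 0), (nat_lit 0), [], Pd.none, Pd.none, (nat_lit 0), (nat_lit 1), (nat_lit 0), (nat_lit 0), (nat_lit 3), (nat_lit 0), [], [⟨(nat_lit 1), (nat_lit 100), (nat_lit 31), (nat_lit 94), (nat_lit 32525260)⟩], [], [⟨(nat_lit 0), (nat_lit 100), (nat_lit 67), (nat_lit 56), (nat_lit 18470942)⟩],
 ⟨⟨[(nat_lit 40), (nat_lit 80), (nat_lit 120)], [(nat_lit 0), (nat_lit 2514), (nat_lit 4610)], [((nat_lit 0), (nat_lit 0), (nat_lit 0)), ((nat_lit 1000), (nat_lit 446), (nat_lit 804)), ((nat_lit 1000), (nat_lit 443), (nat_lit 819))], ((nat_lit 44), (nat_lit 100), (nat_lit 96))⟩, (nat_lit 0), (nat_lit 233), (nat_lit 233), (nat_lit 0), (nat_lit 131504), [(nat_lit 2522790762), (nat_lit 5904027956), (nat_lit 7968000000)], [], [(nat_lit 39440163256), (nat_lit 40577286496), (nat_lit 43072590893), (nat_lit 44754074168), (nat_lit 35543425948), (nat_lit 36406144625), (nat_lit 38049188186), (nat_lit 38740655820)],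 (nat_lit 1271251), (nat_lit 1271251), (nat_lit 1271251), (nat_lit 1271251), (nat_lit 230000), (nat_lit 1643126), [(nat_lit 490000), (nat_lit 1100000), (nat_lit 1785001)], [(nat_lit 4), (nat_lit 51), (nat_lit 272), (nat_lit 60), (nat_lit 7)]⟩,
 ⟨⟨[(nat_lit 40), (nat_lit 100), (nat_lit 160)], [(nat_lit 0), (nat_lit 0), (nat_lit 4607)], [((nat_lit 0), (nat_lit 0), (nat_lit 0)), ((nat_lit 0), (nat_lit 0), (nat_lit 0)), ((nat_lit 846), (nat_lit 837), (nat_lit 1000))], ((nat_lit 84), (nat_lit 85), (nat_lit 100))⟩, (nat_lit 1656084), (nat_lit 345), (nat_lit 345), (nat_lit 0), (nat_lit 186589), [(nat_lit 2032000000), (nat_lit 6250000000), (nat_lit 11872000000)], [], [(nat_lit 36251363024), (nat_lit 36975996429), (nat_lit 39081727748), (nat_lit 39851223436), (nat_lit 31167897404), (nat_lit 31892494601), (nat_lit 33918259794), (nat_lit 34578444867)], (nat_lit 1271251), (nat_lit 1271251), (nat_lit 1271251), (nat_lit 1271251), (nat_lit 0), (nat_lit 1100000),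 [(nat_lit 490000), (nat_lit 1427501), (nat_lit 1271251)], [(nat_lit 6), (nat_lit 56), (nat_lit 249), (nat_lit 40), (nat_lit 6)]⟩,
 Rw.none⟩) (.spl (nat_lit 0) (nat_lit 390) (.leaf ⟨(nat_lit 0), (nat_lit 842), (nat_lit 0), (nat_lit 158), (nat_lit 11713), (nat_lit 6145), (nat_lit 10750), (nat_lit 1257), (nat_lit 0), (nat_lit 0), (nat_lit 0), [], Pd.none, Pd.none, (nat_lit 0), (nat_lit 1), (nat_lit 0), (nat_lit 0), (nat_lit 4), (nat_lit 0), [], [], [⟨(nat_lit 1), (nat_lit 93), (nat_lit 81), (nat_lit 100), (nat_lit 62566055)⟩], [⟨(nat_lit 1), (nat_lit 99), (nat_lit 67), (nat_lit 100), (nat_lit 70594675)⟩],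
 ⟨⟨[(nat_lit 40), (nat_lit 80), (nat_lit 120)], [(nat_lit 0), (nat_lit 2514), (nat_lit 4610)], [((nat_lit 0), (nat_lit 0), (nat_lit 0)), ((nat_lit 1000), (nat_lit 446), (nat_lit 804)), ((nat_lit 1000), (nat_lit 443), (nat_lit 819))], ((nat_lit 44), (nat_lit 100), (nat_lit 96))⟩, (nat_lit 0), (nat_lit 196), (nat_lit 196), (nat_lit 0), (nat_lit 78012), [(nat_lit 2652139769), (nat_lit 4688000095), (nat_lit 7968000000)], [], [(nat_lit 36942362208), (nat_lit 37633249429), (nat_lit 40971744416), (nat_lit 41528160247), (nat_lit 34494822875), (nat_lit 34949102384), (nat_lit 37552155162), (nat_lit 37985997292)], (nat_lit 1271251), (nat_lit 1271251), (nat_lit 1271251), (nat_lit 1271251), (nat_lit 230000), (nat_lit 1643126), [(nat_lit 490000), (nat_lit 1100000), (nat_lit 1785001)], [(nat_lit 4), (nat_lit 51), (nat_lit 272), (nat_lit 60), (nat_lit 7)]⟩,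
 ⟨⟨[(nat_lit 40), (nat_lit 100), (nat_lit 160)], [(nat_lit 0), (nat_lit 0), (nat_lit 4607)], [((nat_lit 0), (nat_lit 0), (nat_lit 0)), ((nat_lit 0), (nat_lit 0), (nat_lit 0)), ((nat_lit 846), (nat_lit 837), (nat_lit 1000))], ((nat_lit 84), (nat_lit 85), (nat_lit 100))⟩, (nat_lit 0), (nat_lit 183), (nat_lit 183), (nat_lit 0), (nat_lit 106318), [(nat_lit 2032000000), (nat_lit 6250000000), (nat_lit 11872000000)], [], [(nat_lit 34985921000), (nat_lit 36339187750), (nat_lit 39722354625), (nat_lit 40772338063), (nat_lit 37103346000), (nat_lit 38003038750), (nat_lit 40252270625), (nat_lit 40931458032)], (nat_lit 1271251), (nat_lit 1271251), (nat_lit 1271251), (nat_lit 1271251), (nat_lit 1100000), (nat_lit 2470001), [(nat_lit 490000), (nat_lit 1427501), (nat_lit 1271251)], [(nat_lit 6), (nat_lit 56), (nat_lit 317), (nat_lit 100), (nat_lit 7)]⟩,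
 ⟨⟨[(nat_lit 140), (nat_lit 180), (nat_lit 200)], [(nat_lit 0), (nat_lit 0), (nat_lit 2835)], [((nat_lit 0), (nat_lit 0), (nat_lit 0)), ((nat_lit 0), (nat_lit 0), (nat_lit 0)), ((nat_lit 363), (nat_lit 1000), (nat_lit 798))], ((nat_lit 0), (nat_lit 0), (nat_lit 0))⟩, (nat_lit 43471), (nat_lit 300), (nat_lit 866), (nat_lit 12339800), (nat_lit 889979), [(nat_lit 1555036000), (nat_lit 2221164000), (nat_lit 2591200000)], [], [(nat_lit 13081997359), (nat_lit 12991133551), (nat_lit 12131917292), (nat_lit 12043265211), (nat_lit 12723590029), (nat_lit 12629545965), (nat_lit 11750474297), (nat_lit 11985441188)], (nat_lit 780000), (nat_lit 936250), (nat_lit 230000), (nat_lit 1643126), (nat_lit 1100000), (nat_lit 2470001), [(nat_lit 1977501), (nat_lit 1271251), (nat_lit 1271251)], [(nat_lit 32), (nat_lit 67), (nat_lit 401), (nat_lit 175), (nat_lit 9)]⟩⟩) (.trX (nat_lit 3) (nat_lit 0) (nat_lit 1) (nat_lit 44) (nat_lit 64) (nat_lit 100) (nat_lit 380) (.trZ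 (nat_lit 0) (nat_lit 2) (nat_lit 4) (nat_lit 100) (nat_lit 34) (nat_lit 81) (nat_lit 60) (.trX (nat_lit 4) (nat_lit 0) (nat_lit 2) (nat_lit 31) (nat_lit 100) (nat_lit 95) (nat_lit 210) (.leaf ⟨(nat_lit 0), (nat_lit 860), (nat_lit 0), (nat_lit 140), (nat_lit 0), (nat_lit 6099), (nat_lit 10803), (nat_lit 1262), (nat_lit 0), (nat_lit 0), (nat_lit 0), [], Pd.none, Pd.none, (nat_lit 0), (nat_lit 1), (nat_lit 0), (nat_lit 0), (nat_lit 4), (nat_lit 0), [⟨(nat_lit 1), (nat_lit 78), (nat_lit 29), (nat_lit 100), (nat_lit 115398462)⟩], [], [⟨(nat_lit 1), (nat_lit 93), (nat_lit 81), (nat_lit 100), (nat_lit 110974051)⟩], [⟨(nat_lit 1), (nat_lit 98), (nat_lit 70), (nat_lit 100), (nat_lit 35507918)⟩],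
 ⟨⟨[(nat_lit 40), (nat_lit 80), (nat_lit 120)], [(nat_lit 0), (nat_lit 3225), (nat_lit 5518)], [((nat_lit 0), (nat_lit 0), (nat_lit 0)), ((nat_lit 1000), (nat_lit 321), (nat_lit 877)), ((nat_lit 1000), (nat_lit 317), (nat_lit 896))], ((nat_lit 31), (nat_lit 100), (nat_lit 95))⟩, (nat_lit 0), (nat_lit 197), (nat_lit 197), (nat_lit 0), (nat_lit 129579), [(nat_lit 2606725408), (nat_lit 4688000337), (nat_lit 7968000000)], [], [(nat_lit 36537193843), (nat_lit 37216201003), (nat_lit 39825712315), (nat_lit 40392501691), (nat_lit 34885647902), (nat_lit 35355410024), (nat_lit 37496437056), (nat_lit 37960023547)], (nat_lit 1271251), (nat_lit 1271251), (nat_lit 1271251), (nat_lit 1271251), (nat_lit 356250), (nat_lit 1500001), [(nat_lit 490000), (nat_lit 1100000), (nat_lit 1785001)], [(nat_lit 4), (nat_lit 51), (nat_lit 272), (nat_lit 60), (nat_lit 7)]⟩,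
 ⟨⟨[(nat_lit 40), (nat_lit 100), (nat_lit 160)], [(nat_lit 0), (nat_lit 0), (nat_lit 4607)], [((nat_lit 0), (nat_lit 0), (nat_lit 0)), ((nat_lit 0), (nat_lit 0), (nat_lit 0)), ((nat_lit 846), (nat_lit 837), (nat_lit 1000))], ((nat_lit 84), (nat_lit 85), (nat_lit 100))⟩, (nat_lit 0), (nat_lit 205), (nat_lit 205), (nat_lit 0), (nat_lit 186589), [(nat_lit 2032000000), (nat_lit 6250000000), (nat_lit 11872000000)], [], [(nat_lit 34962132692), (nat_lit 36319447635), (nat_lit 39034077521), (nat_lit 40130302067), (nat_lit 37072871000), (nat_lit 37974668115), (nat_lit 39778262345), (nat_lit 40490097121)], (nat_lit 1271251), (nat_lit 1271251), (nat_lit 1271251), (nat_lit 1271251), (nat_lit 1100000), (nat_lit 2470001), [(nat_lit 490000), (nat_lit 1427501), (nat_lit 1271251)], [(nat_lit 6), (nat_lit 56), (nat_lit 317), (nat_lit 100), (nat_lit 7)]⟩,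
 ⟨⟨[(nat_lit 140), (nat_lit 180), (nat_lit 200)], [(nat_lit 0), (nat_lit 0), (nat_lit 2835)], [((nat_lit 0), (nat_lit 0), (nat_lit 0)), ((nat_lit 0), (nat_lit 0), (nat_lit 0)), ((nat_lit 363), (nat_lit 1000), (nat_lit 798))], ((nat_lit 0), (nat_lit 0), (nat_lit 0))⟩, (nat_lit 38518), (nat_lit 300), (nat_lit 1150), (nat_lit 10934008), (nat_lit 1564747), [(nat_lit 1377880000), (nat_lit 1968120000), (nat_lit 2296000000)], [], [(nat_lit 11743192814), (nat_lit 11647369302), (nat_lit 10993118062), (nat_lit 10899107983), (nat_lit 11238668727), (nat_lit 11141910150), (nat_lit 10483778764), (nat_lit 10792764893)], (nat_lit 780000), (nat_lit 936250), (nat_lit 356250), (nat_lit 1500001), (nat_lit 1100000), (nat_lit 2470001), [(nat_lit 1977501), (nat_lit 1271251), (nat_lit 1271251)], [(nat_lit 32), (nat_lit 67), (nat_lit 401), (nat_lit 175), (nat_lit 9)]⟩⟩)))))))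
noncomputable def c15_23 : Tr Lf :=
 (.trZ (nat_lit 0) (nat_lit 1) (nat_lit 3) (nat_lit 75) (nat_lit 46) (nat_lit 100) (nat_lit 260) (.trZ (nat_lit 1) (nat_lit 2) (nat_lit 5) (nat_lit 100) (nat_lit 78) (nat_lit 39) (nat_lit 10) (.trX (nat_lit 5) (nat_lit 1) (nat_lit 2) (nat_lit 75) (nat_lit 92) (nat_lit 100) (nat_lit 300) (.spl (nat_lit 5) (nat_lit 160) (.spl (nat_lit 0) (nat_lit 390) (.leaf ⟨(nat_lit 0), (nat_lit 1000), (nat_lit 0), (nat_lit 0), (nat_lit 1358), (nat_lit 8222), (nat_lit 6389), (nat_lit 0), (nat_lit 0), (nat_lit 0), (nat_lit 0), [], Pd.none, Pd.none, (nat_lit 0), (nat_lit 1), (nat_lit 0), (nat_lit 0), (nat_lit 3), (nat_lit 0), [], [], [], [],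
 ⟨⟨[(nat_lit 40), (nat_lit 80), (nat_lit 120)], [(nat_lit 0), (nat_lit 2514), (nat_lit 4610)], [((nat_lit 0), (nat_lit 0), (nat_lit 0)), ((nat_lit 1000), (nat_lit 446), (nat_lit 804)), ((nat_lit 1000), (nat_lit 443), (nat_lit 819))], ((nat_lit 44), (nat_lit 100), (nat_lit 96))⟩, (nat_lit 0), (nat_lit 296), (nat_lit 296), (nat_lit 0), (nat_lit 343967), [(nat_lit 2662421626), (nat_lit 5230458676), (nat_lit 7968000000)], [], [(nat_lit 36944891587), (nat_lit 37637115950), (nat_lit 45490758919), (nat_lit 46334483540), (nat_lit 33110633450), (nat_lit 33632290434), (nat_lit 38676832466), (nat_lit 39329099315)], (nat_lit 1271251), (nat_lit 1271251), (nat_lit 1271251), (nat_lit 1271251), (nat_lit 230000), (nat_lit 1643126), [(nat_lit 490000), (nat_lit 1100000), (nat_lit 1785001)], [(nat_lit 4), (nat_lit 51), (nat_lit 272), (nat_lit 60), (nat_lit 8)]⟩,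
 ⟨⟨[(nat_lit 40), (nat_lit 100), (nat_lit 160)], [(nat_lit 0), (nat_lit 1192), (nat_lit 5376)], [((nat_lit 0), (nat_lit 0), (nat_lit 0)), ((nat_lit 1000), (nat_lit 814), (nat_lit 310)), ((nat_lit 919), (nat_lit 747), (nat_lit 1000))], ((nat_lit 75), (nat_lit 92), (nat_lit 100))⟩, (nat_lit 1311633), (nat_lit 406), (nat_lit 406), (nat_lit 0), (nat_lit 412903), [(nat_lit 2032000000), (nat_lit 6250000000), (nat_lit 11872000000)], [], [(nat_lit 36273397612), (nat_lit 37110615963), (nat_lit 40463795435), (nat_lit 41377859199), (nat_lit 31805265124), (nat_lit 32439279081), (nat_lit 35211640281), (nat_lit 35696035334)], (nat_lit 1271251), (nat_lit 1271251), (nat_lit 1271251), (nat_lit 1271251), (nat_lit 54688), (nat_lit 1100000), [(nat_lit 490000), (nat_lit 1427501), (nat_lit 1271251)], [(nat_lit 6), (nat_lit 56), (nat_lit 373), (nat_lit 150), (nat_lit 9)]⟩,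
 Rw.none⟩) (.trZ (nat_lit 0) (nat_lit 1) (nat_lit 3) (nat_lit 80) (nat_lit 35) (nat_lit 100) (nat_lit 280) (.trX (nat_lit 3) (nat_lit 0) (nat_lit 1) (nat_lit 52) (nat_lit 53) (nat_lit 100) (nat_lit 390) (.trZ (nat_lit 0) (nat_lit 2) (nat_lit 4) (nat_lit 100) (nat_lit 34) (nat_lit 81) (nat_lit 60) (.trX (nat_lit 4) (nat_lit 0) (nat_lit 2) (nat_lit 31) (nat_lit 100) (nat_lit 95) (nat_lit 210) (.leaf ⟨(nat_lit 0), (nat_lit 1000), (nat_lit 0), (nat_lit 0), (nat_lit 0), (nat_lit 6977), (nat_lit 6072), (nat_lit 0), (nat_lit 0), (nat_lit 0), (nat_lit 0), [], Pd.none, Pd.none, (nat_lit 0), (nat_lit 1), (nat_lit 0), (nat_lit 0), (nat_lit 3), (nat_lit 0), [], [⟨(nat_lit 1), (nat_lit 100), (nat_lit 22), (nat_lit 95), (nat_lit 308845597)⟩], [], [],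
 ⟨⟨[(nat_lit 40), (nat_lit 80), (nat_lit 120)], [(nat_lit 0), (nat_lit 3225), (nat_lit 5518)], [((nat_lit 0), (nat_lit 0), (nat_lit 0)), ((nat_lit 1000), (nat_lit 321), (nat_lit 877)), ((nat_lit 1000), (nat_lit 317), (nat_lit 896))], ((nat_lit 31), (nat_lit 100), (nat_lit 95))⟩, (nat_lit 0), (nat_lit 294), (nat_lit 294), (nat_lit 0), (nat_lit 382656), [(nat_lit 2455967629), (nat_lit 4825800764), (nat_lit 7968000000)], [], [(nat_lit 35167099775), (nat_lit 35983029423), (nat_lit 40987029281), (nat_lit 41573656147), (nat_lit 33148559467), (nat_lit 33805077876), (nat_lit 37834615030), (nat_lit 38311143606)], (nat_lit 1271251), (nat_lit 1271251), (nat_lit 1271251), (nat_lit 1271251), (nat_lit 356250), (nat_lit 1500001), [(nat_lit 490000), (nat_lit 1100000), (nat_lit 1785001)], [(nat_lit 4), (nat_lit 51), (nat_lit 272), (nat_lit 60), (nat_lit 8)]⟩,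
 ⟨⟨[(nat_lit 40), (nat_lit 100), (nat_lit 160)], [(nat_lit 0), (nat_lit 1192), (nat_lit 5376)], [((nat_lit 0), (nat_lit 0), (nat_lit 0)), ((nat_lit 1000), (nat_lit 814), (nat_lit 310)), ((nat_lit 919), (nat_lit 747), (nat_lit 1000))], ((nat_lit 75), (nat_lit 92), (nat_lit 100))⟩, (nat_lit 1472751), (nat_lit 442), (nat_lit 442), (nat_lit 0), (nat_lit 485113), [(nat_lit 2032000000), (nat_lit 6250000000), (nat_lit 11872000000)], [], [(nat_lit 35192268023), (nat_lit 35975613366), (nat_lit 38692775987), (nat_lit 39619595801), (nat_lit 31078427796), (nat_lit 31614909712), (nat_lit 33699787928), (nat_lit 34272657298)], (nat_lit 1271251), (nat_lit 1271251), (nat_lit 1271251), (nat_lit 1271251), (nat_lit 54688), (nat_lit 1100000), [(nat_lit 490000), (nat_lit 1427501), (nat_lit 1271251)], [(nat_lit 6), (nat_lit 56), (nat_lit 373), (nat_lit 150), (nat_lit 9)]⟩,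
 Rw.none⟩)))))) (.spl (nat_lit 6) (nat_lit 172) (.spl (nat_lit 0) (nat_lit 390) (.leaf ⟨(nat_lit 0), (nat_lit 942), (nat_lit 0), (nat_lit 58), (nat_lit 0), (nat_lit 6919), (nat_lit 6085), (nat_lit 629), (nat_lit 0), (nat_lit 0), (nat_lit 0), [], Pd.none, Pd.none, (nat_lit 0), (nat_lit 1), (nat_lit 0), (nat_lit 0), (nat_lit 4), (nat_lit 0), [⟨(nat_lit 0), (nat_lit 73), (nat_lit 38), (nat_lit 100), (nat_lit 62177364)⟩], [], [⟨(nat_lit 1), (nat_lit 100), (nat_lit 71), (nat_lit 100), (nat_lit 315525960)⟩], [],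
 ⟨⟨[(nat_lit 40), (nat_lit 80), (nat_lit 120)], [(nat_lit 0), (nat_lit 2514), (nat_lit 4610)], [((nat_lit 0), (nat_lit 0), (nat_lit 0)), ((nat_lit 1000), (nat_lit 446), (nat_lit 804)), ((nat_lit 1000), (nat_lit 443), (nat_lit 819))], ((nat_lit 44), (nat_lit 100), (nat_lit 96))⟩, (nat_lit 0), (nat_lit 294), (nat_lit 294), (nat_lit 0), (nat_lit 337910), [(nat_lit 2465174054), (nat_lit 4768302004), (nat_lit 7968000000)], [], [(nat_lit 34654040454), (nat_lit 35519409176), (nat_lit 42262578179), (nat_lit 42832275171), (nat_lit 32064676844), (nat_lit 32723692366), (nat_lit 37860765750), (nat_lit 38301669552)], (nat_lit 1271251), (nat_lit 1271251), (nat_lit 1271251), (nat_lit 1271251), (nat_lit 230000), (nat_lit 1643126), [(nat_lit 490000), (nat_lit 1100000), (nat_lit 1785001)], [(nat_lit 4), (nat_lit 51), (nat_lit 272), (nat_lit 60), (nat_lit 8)]⟩,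
 ⟨⟨[(nat_lit 40), (nat_lit 100), (nat_lit 160)], [(nat_lit 0), (nat_lit 1192), (nat_lit 5376)], [((nat_lit 0), (nat_lit 0), (nat_lit 0)), ((nat_lit 1000), (nat_lit 814), (nat_lit 310)), ((nat_lit 919), (nat_lit 747), (nat_lit 1000))], ((nat_lit 75), (nat_lit 92), (nat_lit 100))⟩, (nat_lit 1391789), (nat_lit 322), (nat_lit 322), (nat_lit 0), (nat_lit 405202), [(nat_lit 2032000000), (nat_lit 6250000000), (nat_lit 11872000000)], [], [(nat_lit 29162529843), (nat_lit 30079668213), (nat_lit 34368619851), (nat_lit 35151958886), (nat_lit 31109592488), (nat_lit 31977832268), (nat_lit 35408559350), (nat_lit 36221881815)], (nat_lit 1271251), (nat_lit 1271251), (nat_lit 1271251), (nat_lit 1271251), (nat_lit 1100000), (nat_lit 2298751), [(nat_lit 490000), (nat_lit 1427501), (nat_lit 1271251)], [(nat_lit 6), (nat_lit 56), (nat_lit 401), (nat_lit 175), (nat_lit 9)]⟩,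
 ⟨⟨[(nat_lit 140), (nat_lit 180), (nat_lit 200)], [(nat_lit 0), (nat_lit 0), (nat_lit 2835)], [((nat_lit 0), (nat_lit 0), (nat_lit 0)), ((nat_lit 0), (nat_lit 0), (nat_lit 0)), ((nat_lit 363), (nat_lit 1000), (nat_lit 798))], ((nat_lit 0), (nat_lit 0), (nat_lit 0))⟩, (nat_lit 15958), (nat_lit 300), (nat_lit 2287), (nat_lit 4529800), (nat_lit 3895052), [(nat_lit 570836000), (nat_lit 815364000), (nat_lit 951200000)], [], [(nat_lit 4602401106), (nat_lit 4559355698), (nat_lit 4182196968), (nat_lit 4140094909), (nat_lit 4345488674), (nat_lit 4302827341), (nat_lit 4527161013), (nat_lit 4676213357)], (nat_lit 780000), (nat_lit 936250), (nat_lit 230000), (nat_lit 1643126), (nat_lit 1100000), (nat_lit 2298751), [(nat_lit 1977501), (nat_lit 1271251), (nat_lit 1271251)], [(nat_lit 32), (nat_lit 67), (nat_lit 656), (nat_lit 175), (nat_lit 14)]⟩⟩) (.trZ (nat_lit 0) (nat_lit 1) (nat_lit 3) (nat_lit 80) (nat_lit 35) (nat_lit 100) (nat_lit 280) (.trX (nat_lit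 3) (nat_lit 0) (nat_lit 1) (nat_lit 52) (nat_lit 53) (nat_lit 100) (nat_lit 390) (.trZ (nat_lit 0) (nat_lit 2) (nat_lit 4) (nat_lit 100) (nat_lit 34) (nat_lit 81) (nat_lit 60) (.trX (nat_lit 4) (nat_lit 0) (nat_lit 2) (nat_lit 31) (nat_lit 100) (nat_lit 95) (nat_lit 210) (.leaf ⟨(nat_lit 0), (nat_lit 1000), (nat_lit 0), (nat_lit 0), (nat_lit 0), (nat_lit 5812), (nat_lit 5916), (nat_lit 0), (nat_lit 0), (nat_lit 0), (nat_lit 0), [], Pd.none, Pd.none, (nat_lit 0), (nat_lit 1), (nat_lit 0), (nat_lit 0), (nat_lit 4), (nat_lit 0), [⟨(nat_lit 0), (nat_lit 82), (nat_lit 27), (nat_lit 100), (nat_lit 97549163)⟩], [⟨(nat_lit 1), (nat_lit 100), (nat_lit 22), (nat_lit 95), (nat_lit 433485856)⟩], [⟨(nat_lit 1), (nat_lit 100), (nat_lit 71), (nat_lit 100), (nat_lit 359881837)⟩], [],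
 ⟨⟨[(nat_lit 40), (nat_lit 80), (nat_lit 120)], [(nat_lit 0), (nat_lit 3225), (nat_lit 5518)], [((nat_lit 0), (nat_lit 0), (nat_lit 0)), ((nat_lit 1000), (nat_lit 321), (nat_lit 877)), ((nat_lit 1000), (nat_lit 317), (nat_lit 896))], ((nat_lit 31), (nat_lit 100), (nat_lit 95))⟩, (nat_lit 404818), (nat_lit 292), (nat_lit 292), (nat_lit 0), (nat_lit 376611), [(nat_lit 2203036914), (nat_lit 4937780132), (nat_lit 7968000000)], [], [(nat_lit 32585841369), (nat_lit 33318493686), (nat_lit 37939560647), (nat_lit 38475048983), (nat_lit 31381030043), (nat_lit 31975743454), (nat_lit 35747670256), (nat_lit 36187465236)], (nat_lit 1271251), (nat_lit 1271251), (nat_lit 1271251), (nat_lit 1271251), (nat_lit 356250), (nat_lit 1500001), [(nat_lit 490000), (nat_lit 1100000), (nat_lit 1785001)], [(nat_lit 4), (nat_lit 51), (nat_lit 272), (nat_lit 60), (nat_lit 8)]⟩,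
 ⟨⟨[(nat_lit 40), (nat_lit 100), (nat_lit 160)], [(nat_lit 0), (nat_lit 1192), (nat_lit 5376)], [((nat_lit 0), (nat_lit 0), (nat_lit 0)), ((nat_lit 1000), (nat_lit 814), (nat_lit 310)), ((nat_lit 919), (nat_lit 747), (nat_lit 1000))], ((nat_lit 75), (nat_lit 92), (nat_lit 100))⟩, (nat_lit 1440036), (nat_lit 344), (nat_lit 344), (nat_lit 0), (nat_lit 477035), [(nat_lit 2032000000), (nat_lit 6250000000), (nat_lit 11872000000)], [], [(nat_lit 29668738708), (nat_lit 30535233360), (nat_lit 33659452030), (nat_lit 34460799886), (nat_lit 31475798850), (nat_lit 32248275048), (nat_lit 34861338858), (nat_lit 35466176571)], (nat_lit 1271251), (nat_lit 1271251), (nat_lit 1271251), (nat_lit 1271251), (nat_lit 1100000), (nat_lit 2298751), [(nat_lit 490000), (nat_lit 1427501), (nat_lit 1271251)], [(nat_lit 6), (nat_lit 56), (nat_lit 401), (nat_lit 175), (nat_lit 9)]⟩,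
 Rw.none⟩)))))) (.spl (nat_lit 0) (nat_lit 390) (.leaf ⟨(nat_lit 0), (nat_lit 910), (nat_lit 0), (nat_lit 90), (nat_lit 0), (nat_lit 7792), (nat_lit 10179), (nat_lit 1052), (nat_lit 0), (nat_lit 0), (nat_lit 0), [], Pd.none, Pd.none, (nat_lit 0), (nat_lit 1), (nat_lit 0), (nat_lit 0), (nat_lit 4), (nat_lit 0), [], [], [⟨(nat_lit 1), (nat_lit 100), (nat_lit 71), (nat_lit 100), (nat_lit 172924969)⟩], [],
 ⟨⟨[(nat_lit 40), (nat_lit 80), (nat_lit 120)], [(nat_lit 0), (nat_lit 2514), (nat_lit 4610)], [((nat_lit 0), (nat_lit 0), (nat_lit 0)), ((nat_lit 1000), (nat_lit 446), (nat_lit 804)), ((nat_lit 1000), (nat_lit 443), (nat_lit 819))], ((nat_lit 44), (nat_lit 100), (nat_lit 96))⟩, (nat_lit 0), (nat_lit 245), (nat_lit 245), (nat_lit 0), (nat_lit 159241), [(nat_lit 2626166557), (nat_lit 6160121919), (nat_lit 7968000000)], [], [(nat_lit 37331037230), (nat_lit 38001684381), (nat_lit 44352392184), (nat_lit 45168829972), (nat_lit 33871648686), (nat_lit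 34379051358), (nat_lit 38159731035), (nat_lit 38709163880)], (nat_lit 1271251), (nat_lit 1271251), (nat_lit 1271251), (nat_lit 1271251), (nat_lit 230000), (nat_lit 1643126), [(nat_lit 490000), (nat_lit 1100000), (nat_lit 1785001)], [(nat_lit 4), (nat_lit 51), (nat_lit 272), (nat_lit 60), (nat_lit 8)]⟩,
 ⟨⟨[(nat_lit 40), (nat_lit 100), (nat_lit 160)], [(nat_lit 0), (nat_lit 1192), (nat_lit 5376)], [((nat_lit 0), (nat_lit 0), (nat_lit 0)), ((nat_lit 1000), (nat_lit 814), (nat_lit 310)), ((nat_lit 919), (nat_lit 747), (nat_lit 1000))], ((nat_lit 75), (nat_lit 92), (nat_lit 100))⟩, (nat_lit 0), (nat_lit 214), (nat_lit 214), (nat_lit 0), (nat_lit 191720), [(nat_lit 2032000000), (nat_lit 6250000000), (nat_lit 11872000000)], [], [(nat_lit 34060822553), (nat_lit 35610793987), (nat_lit 41460142061), (nat_lit 42439464970), (nat_lit 36321935255), (nat_lit 37436103329), (nat_lit 41334363165), (nat_lit 42016735475)], (nat_lit 1271251), (nat_lit 1271251),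 (nat_lit 1271251), (nat_lit 1271251), (nat_lit 1100000), (nat_lit 2298751), [(nat_lit 490000), (nat_lit 1427501), (nat_lit 1271251)], [(nat_lit 6), (nat_lit 56), (nat_lit 401), (nat_lit 175), (nat_lit 9)]⟩,
 ⟨⟨[(nat_lit 140), (nat_lit 180), (nat_lit 200)], [(nat_lit 0), (nat_lit 0), (nat_lit 2835)], [((nat_lit 0), (nat_lit 0), (nat_lit 0)), ((nat_lit 0), (nat_lit 0), (nat_lit 0)), ((nat_lit 363), (nat_lit 1000), (nat_lit 798))], ((nat_lit 0), (nat_lit 0), (nat_lit 0))⟩, (nat_lit 0), (nat_lit 300), (nat_lit 1284), (nat_lit 7380000), (nat_lit 1819729), [(nat_lit 885780000), (nat_lit 1265220000), (nat_lit 1476000000)], [], [(nat_lit 6661047168), (nat_lit 6574415280), (nat_lit 5792484889), (nat_lit 5708287993), (nat_lit 6255769295), (nat_lit 6167322715), (nat_lit 7204107646), (nat_lit 7449019118)], (nat_lit 780000), (nat_lit 936250), (nat_lit 230000), (nat_lit 1643126), (nat_lit 1100000), (nat_lit 2298751), [(nat_lit 1977501), (nat_lit 1271251),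 (nat_lit 1271251)], [(nat_lit 32), (nat_lit 67), (nat_lit 405), (nat_lit 175), (nat_lit 9)]⟩⟩) (.trZ (nat_lit 0) (nat_lit 1) (nat_lit 3) (nat_lit 80) (nat_lit 35) (nat_lit 100) (nat_lit 280) (.trX (nat_lit 3) (nat_lit 0) (nat_lit 1) (nat_lit 52) (nat_lit 53) (nat_lit 100) (nat_lit 390) (.trZ (nat_lit 0) (nat_lit 2) (nat_lit 4) (nat_lit 100) (nat_lit 34) (nat_lit 81) (nat_lit 60) (.trX (nat_lit 4) (nat_lit 0) (nat_lit 2) (nat_lit 31) (nat_lit 100) (nat_lit 95) (nat_lit 210) (.leaf ⟨(nat_lit 0), (nat_lit 923), (nat_lit 0), (nat_lit 77), (nat_lit 0), (nat_lit 6518), (nat_lit 7661), (nat_lit 792), (nat_lit 0), (nat_lit 0), (nat_lit 0), [], Pd.none, Pd.none, (nat_lit 0), (nat_lit 1), (nat_lit 0), (nat_lit 0), (nat_lit 4), (nat_lit 0), [], [⟨(nat_lit 1), (nat_lit 100), (nat_lit 22), (nat_lit 95), (nat_lit 53202050)⟩], [⟨(nat_lit 1), (nat_lit 100), (nat_lit 71), (nat_lit 100), (nat_lit 237461299)⟩], [],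
 ⟨⟨[(nat_lit 40), (nat_lit 80), (nat_lit 120)], [(nat_lit 0), (nat_lit 3225), (nat_lit 5518)], [((nat_lit 0), (nat_lit 0), (nat_lit 0)), ((nat_lit 1000), (nat_lit 321), (nat_lit 877)), ((nat_lit 1000), (nat_lit 317), (nat_lit 896))], ((nat_lit 31), (nat_lit 100), (nat_lit 95))⟩, (nat_lit 0), (nat_lit 244), (nat_lit 244), (nat_lit 0), (nat_lit 203361), [(nat_lit 2403428276), (nat_lit 4788976475), (nat_lit 7968000000)], [], [(nat_lit 35030198521), (nat_lit 35813317615), (nat_lit 40666445199), (nat_lit 41232923923), (nat_lit 33332260447), (nat_lit 33964428217), (nat_lit 37892469104), (nat_lit 38354524958)], (nat_lit 1271251), (nat_lit 1271251), (nat_lit 1271251), (nat_lit 1271251), (nat_lit 356250), (nat_lit 1500001), [(nat_lit 490000), (nat_lit 1100000), (nat_lit 1785001)], [(nat_lit 4), (nat_lit 51), (nat_lit 272), (nat_lit 60), (nat_lit 8)]⟩,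
 ⟨⟨[(nat_lit 40), (nat_lit 100), (nat_lit 160)], [(nat_lit 0), (nat_lit 1192), (nat_lit 5376)], [((nat_lit 0), (nat_lit 0), (nat_lit 0)), ((nat_lit 1000), (nat_lit 814), (nat_lit 310)), ((nat_lit 919), (nat_lit 747), (nat_lit 1000))], ((nat_lit 75), (nat_lit 92), (nat_lit 100))⟩, (nat_lit 0), (nat_lit 231), (nat_lit 231), (nat_lit 0), (nat_lit 258082), [(nat_lit 2032000000), (nat_lit 6250000000), (nat_lit 11872000000)], [], [(nat_lit 36247891201), (nat_lit 37236431384), (nat_lit 41174117343), (nat_lit 42065218837), (nat_lit 38212265502), (nat_lit 39128422152), (nat_lit 41905380342), (nat_lit 42554531342)], (nat_lit 1271251), (nat_lit 1271251), (nat_lit 1271251), (nat_lit 1271251), (nat_lit 1100000), (nat_lit 2298751), [(nat_lit 490000), (nat_lit 1427501), (nat_lit 1271251)], [(nat_lit 6), (nat_lit 56), (nat_lit 401), (nat_lit 175), (nat_lit 9)]⟩,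
 ⟨⟨[(nat_lit 140), (nat_lit 180), (nat_lit 200)], [(nat_lit 0), (nat_lit 0), (nat_lit 2835)], [((nat_lit 0), (nat_lit 0), (nat_lit 0)), ((nat_lit 0), (nat_lit 0), (nat_lit 0)), ((nat_lit 363), (nat_lit 1000), (nat_lit 798))], ((nat_lit 0), (nat_lit 0), (nat_lit 0))⟩, (nat_lit 782), (nat_lit 300), (nat_lit 1561), (nat_lit 6302916), (nat_lit 2459342), [(nat_lit 757834000), (nat_lit 1082466000), (nat_lit 1262800000)], [], [(nat_lit 6561853466), (nat_lit 6501939447), (nat_lit 6099836669), (nat_lit 6041061166), (nat_lit 6235185715), (nat_lit 6175511976), (nat_lit 5775612623), (nat_lit 5957680069)], (nat_lit 780000), (nat_lit 936250), (nat_lit 356250), (nat_lit 1500001), (nat_lit 1100000), (nat_lit 2298751), [(nat_lit 1977501), (nat_lit 1271251), (nat_lit 1271251)], [(nat_lit 32), (nat_lit 67), (nat_lit 472), (nat_lit 175), (nat_lit 10)]⟩⟩)))))))))))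
noncomputable def c15_24 : Tr Lf :=
 (.trX (nat_lit 3) (nat_lit 0) (nat_lit 1) (nat_lit 61) (nat_lit 47) (nat_lit 100) (nat_lit 390) (.spl (nat_lit 6) (nat_lit 200) (.spl (nat_lit 5) (nat_lit 160) (.spl (nat_lit 0) (nat_lit 390) (.spl (nat_lit 6) (nat_lit 176) (.spl (nat_lit 0) (nat_lit 385) (.spl (nat_lit 6) (nat_lit 164) (.leaf ⟨(nat_lit 8), (nat_lit 984), (nat_lit 0), (nat_lit 8), (nat_lit 4820), (nat_lit 9563), (nat_lit 7689), (nat_lit 118), (nat_lit 0), (nat_lit 0), (nat_lit 2080), [((nat_lit 385), [((nat_lit 42), (nat_lit 0), (nat_lit 8))])], ⟨(nat_lit 8), false, true, false, (nat_lit 322), (nat_lit 1936), (nat_lit 2237), [(nat_lit 1679367), (nat_lit 1679941), (nat_lit 1702132), (nat_lit 1702943), (nat_lit 1907468), (nat_lit 1903537), (nat_lit 1930242), (nat_lit 1926548)]⟩, ⟨(nat_lit 3), false, false, true, (nat_lit 152), (nat_lit 1936), (nat_lit 2237), [(nat_lit 1232092), (nat_lit 1235325), (nat_lit 1254858), (nat_lit 1258327), (nat_lit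 1502945), (nat_lit 1500827), (nat_lit 1525719), (nat_lit 1523838)]⟩, (nat_lit 5031926), (nat_lit 35979974), (nat_lit 23890819), (nat_lit 7129207), (nat_lit 3), (nat_lit 0), [], [⟨(nat_lit 1), (nat_lit 100), (nat_lit 41), (nat_lit 98), (nat_lit 1192571)⟩], [], [⟨(nat_lit 0), (nat_lit 100), (nat_lit 86), (nat_lit 36), (nat_lit 55730229)⟩],
 ⟨⟨[(nat_lit 40), (nat_lit 100), (nat_lit 140)], [(nat_lit 0), (nat_lit 3610), (nat_lit 5926)], [((nat_lit 0), (nat_lit 0), (nat_lit 0)), ((nat_lit 1000), (nat_lit 436), (nat_lit 895)), ((nat_lit 1000), (nat_lit 436), (nat_lit 905))], ((nat_lit 44), (nat_lit 99), (nat_lit 100))⟩, (nat_lit 0), (nat_lit 231), (nat_lit 231), (nat_lit 0), (nat_lit 153994), [(nat_lit 3090463192), (nat_lit 8588924407), (nat_lit 8915346265)], [(nat_lit 0), (nat_lit 0), (nat_lit 0)], [(nat_lit 35633103320), (nat_lit 36029375808), (nat_lit 45709124377), (nat_lit 46189644707), (nat_lit 32596152150), (nat_lit 32882988872), (nat_lit 40011076314),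 (nat_lit 40364840835)], (nat_lit 1271251), (nat_lit 1271251), (nat_lit 1271251), (nat_lit 1271251), (nat_lit 356250), (nat_lit 1805001), [(nat_lit 490000), (nat_lit 1427501), (nat_lit 1271251)], [(nat_lit 5), (nat_lit 55), (nat_lit 401), (nat_lit 175), (nat_lit 11)]⟩,
 ⟨⟨[(nat_lit 40), (nat_lit 120), (nat_lit 180)], [(nat_lit 0), (nat_lit 0), (nat_lit 6400)], [((nat_lit 0), (nat_lit 0), (nat_lit 0)), ((nat_lit 0), (nat_lit 0), (nat_lit 0)), ((nat_lit 600), (nat_lit 800), (nat_lit 1000))], ((nat_lit 82), (nat_lit 76), (nat_lit 100))⟩, (nat_lit 1513863), (nat_lit 392), (nat_lit 392), (nat_lit 0), (nat_lit 205128), [(nat_lit 2015744000), (nat_lit 7904256000), (nat_lit 13945536000)], [], [(nat_lit 35802131135), (nat_lit 36852372983), (nat_lit 41428688220), (nat_lit 42331038935), (nat_lit 30200721244), (nat_lit 31094303695), (nat_lit 35503498459), (nat_lit 36295394936)], (nat_lit 1271251), (nat_lit 1271251), (nat_lit 1271251), (nat_lit 1271251),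 (nat_lit 54688), (nat_lit 1100000), [(nat_lit 490000), (nat_lit 1740001), (nat_lit 1271251)], [(nat_lit 7), (nat_lit 60), (nat_lit 456), (nat_lit 225), (nat_lit 10)]⟩,
 ⟨⟨[(nat_lit 140), (nat_lit 180), (nat_lit 200)], [(nat_lit 0), (nat_lit 608), (nat_lit 3317)], [((nat_lit 0), (nat_lit 0), (nat_lit 0)), ((nat_lit 913), (nat_lit 1000), (nat_lit 217)), ((nat_lit 385), (nat_lit 1000), (nat_lit 814))], ((nat_lit 0), (nat_lit 0), (nat_lit 0))⟩, (nat_lit 2362), (nat_lit 300), (nat_lit 1111), (nat_lit 616827), (nat_lit 1264055), [(nat_lit 78736000), (nat_lit 112464000), (nat_lit 131200000)], [], [(nat_lit 657917975), (nat_lit 624280958), (nat_lit 499645730), (nat_lit 489722377), (nat_lit 476141617), (nat_lit 466470076), (nat_lit 522903200), (nat_lit 550753150)], (nat_lit 936250), (nat_lit 1100000), (nat_lit 356250), (nat_lit 1805001), (nat_lit 54688), (nat_lit 1100000), [(nat_lit 1977501), (nat_lit 1271251), (nat_lit 1271251)], [(nat_lit 32), (nat_lit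 67), (nat_lit 373), (nat_lit 150), (nat_lit 8)]⟩⟩) (.dle (nat_lit 0))) (.trZ (nat_lit 0) (nat_lit 1) (nat_lit 3) (nat_lit 83) (nat_lit 39) (nat_lit 100) (nat_lit 250) (.trZ (nat_lit 0) (nat_lit 2) (nat_lit 4) (nat_lit 100) (nat_lit 40) (nat_lit 81) (nat_lit 70) (.trX (nat_lit 4) (nat_lit 0) (nat_lit 2) (nat_lit 39) (nat_lit 100) (nat_lit 100) (nat_lit 240) (.leaf ⟨(nat_lit 0), (nat_lit 1000), (nat_lit 0), (nat_lit 0), (nat_lit 5336), (nat_lit 7570), (nat_lit 7751), (nat_lit 0), (nat_lit 0), (nat_lit 0), (nat_lit 0), [], Pd.none, Pd.none, (nat_lit 0), (nat_lit 1), (nat_lit 0), (nat_lit 0), (nat_lit 3), (nat_lit 0), [], [⟨(nat_lit 1), (nat_lit 100), (nat_lit 35), (nat_lit 97), (nat_lit 248729335)⟩], [⟨(nat_lit 0), (nat_lit 100), (nat_lit 73), (nat_lit 55), (nat_lit 52571853)⟩], [⟨(nat_lit 0), (nat_lit 100), (nat_lit 82), (nat_lit 42), (nat_lit 5576520)⟩],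
 ⟨⟨[(nat_lit 40), (nat_lit 80), (nat_lit 120)], [(nat_lit 0), (nat_lit 2833), (nat_lit 5014)], [((nat_lit 0), (nat_lit 0), (nat_lit 0)), ((nat_lit 1000), (nat_lit 389), (nat_lit 842)), ((nat_lit 1000), (nat_lit 387), (nat_lit 852))], ((nat_lit 39), (nat_lit 100), (nat_lit 100))⟩, (nat_lit 0), (nat_lit 210), (nat_lit 210), (nat_lit 0), (nat_lit 180081), [(nat_lit 2735151182), (nat_lit 5143063719), (nat_lit 7968000000)], [], [(nat_lit 32878103472), (nat_lit 33337124880), (nat_lit 40629186854), (nat_lit 41041395271), (nat_lit 31861060814), (nat_lit 32209037946), (nat_lit 37476774790), (nat_lit 37753352667)], (nat_lit 1271251), (nat_lit 1271251), (nat_lit 1271251), (nat_lit 1271251), (nat_lit 422188), (nat_lit 1734376), [(nat_lit 490000), (nat_lit 1100000), (nat_lit 1785001)], [(nat_lit 4), (nat_lit 51), (nat_lit 272), (nat_lit 60), (nat_lit 8)]⟩,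
 ⟨⟨[(nat_lit 40), (nat_lit 120), (nat_lit 180)], [(nat_lit 0), (nat_lit 0), (nat_lit 6400)], [((nat_lit 0), (nat_lit 0), (nat_lit 0)), ((nat_lit 0), (nat_lit 0), (nat_lit 0)), ((nat_lit 600), (nat_lit 800), (nat_lit 1000))], ((nat_lit 82), (nat_lit 76), (nat_lit 100))⟩, (nat_lit 1526073), (nat_lit 402), (nat_lit 402), (nat_lit 0), (nat_lit 246197), [(nat_lit 2032000000), (nat_lit 7968000000), (nat_lit 14058000000)], [], [(nat_lit 36455215721), (nat_lit 37468049437), (nat_lit 41762772176), (nat_lit 42672421888), (nat_lit 30739902533), (nat_lit 31601770118), (nat_lit 35789829574), (nat_lit 36588111968)], (nat_lit 1271251), (nat_lit 1271251), (nat_lit 1271251), (nat_lit 1271251), (nat_lit 54688), (nat_lit 1100000), [(nat_lit 490000), (nat_lit 1740001), (nat_lit 1271251)], [(nat_lit 7), (nat_lit 60), (nat_lit 456), (nat_lit 225), (nat_lit 10)]⟩,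
 Rw.none⟩))))) (.dle (nat_lit 0))) (.trZ (nat_lit 0) (nat_lit 1) (nat_lit 3) (nat_lit 84) (nat_lit 33) (nat_lit 100) (nat_lit 260) (.trX (nat_lit 3) (nat_lit 0) (nat_lit 1) (nat_lit 44) (nat_lit 64) (nat_lit 100) (nat_lit 380) (.trZ (nat_lit 0) (nat_lit 2) (nat_lit 4) (nat_lit 100) (nat_lit 33) (nat_lit 85) (nat_lit 80) (.trX (nat_lit 4) (nat_lit 0) (nat_lit 2) (nat_lit 31) (nat_lit 100) (nat_lit 99) (nat_lit 230) (.leaf ⟨(nat_lit 0), (nat_lit 1000), (nat_lit 0), (nat_lit 0), (nat_lit 3645), (nat_lit 7451), (nat_lit 8507), (nat_lit 0), (nat_lit 0), (nat_lit 0), (nat_lit 0), [], Pd.none, Pd.none, (nat_lit 0), (nat_lit 1), (nat_lit 0), (nat_lit 0), (nat_lit 3), (nat_lit 0), [], [⟨(nat_lit 1), (nat_lit 100), (nat_lit 22), (nat_lit 97), (nat_lit 416565747)⟩], [], [⟨(nat_lit 0), (nat_lit 100), (nat_lit 82), (nat_lit 42), (nat_lit 64238321)⟩],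
 ⟨⟨[(nat_lit 40), (nat_lit 80), (nat_lit 120)], [(nat_lit 0), (nat_lit 3225), (nat_lit 5518)], [((nat_lit 0), (nat_lit 0), (nat_lit 0)), ((nat_lit 1000), (nat_lit 321), (nat_lit 877)), ((nat_lit 1000), (nat_lit 317), (nat_lit 896))], ((nat_lit 31), (nat_lit 100), (nat_lit 99))⟩, (nat_lit 0), (nat_lit 230), (nat_lit 230), (nat_lit 0), (nat_lit 231042), [(nat_lit 2475280698), (nat_lit 5042881666), (nat_lit 7968000000)], [], [(nat_lit 33090664716), (nat_lit 33971150728), (nat_lit 39304312658), (nat_lit 39926293353), (nat_lit 32480362050), (nat_lit 33167977660), (nat_lit 37275883718), (nat_lit 37764891636)], (nat_lit 1271251), (nat_lit 1271251), (nat_lit 1271251), (nat_lit 1271251), (nat_lit 490000), (nat_lit 1661876), [(nat_lit 490000), (nat_lit 1100000), (nat_lit 1785001)], [(nat_lit 4), (nat_lit 51), (nat_lit 272), (nat_lit 60), (nat_lit 8)]⟩,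
 ⟨⟨[(nat_lit 40), (nat_lit 120), (nat_lit 180)], [(nat_lit 0), (nat_lit 0), (nat_lit 6400)], [((nat_lit 0), (nat_lit 0), (nat_lit 0)), ((nat_lit 0), (nat_lit 0), (nat_lit 0)), ((nat_lit 600), (nat_lit 800), (nat_lit 1000))], ((nat_lit 82), (nat_lit 76), (nat_lit 100))⟩, (nat_lit 1431580), (nat_lit 430), (nat_lit 430), (nat_lit 0), (nat_lit 332070), [(nat_lit 2032000000), (nat_lit 7968000000), (nat_lit 14058000000)], [], [(nat_lit 37673228901), (nat_lit 38411561505), (nat_lit 42627058638), (nat_lit 43612664298), (nat_lit 31624736144), (nat_lit 32446759327), (nat_lit 35259826205), (nat_lit 35865483945)], (nat_lit 1271251), (nat_lit 1271251), (nat_lit 1271251), (nat_lit 1271251), (nat_lit 54688), (nat_lit 1100000), [(nat_lit 490000), (nat_lit 1740001), (nat_lit 1271251)], [(nat_lit 7), (nat_lit 60), (nat_lit 456), (nat_lit 225), (nat_lit 10)]⟩,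
 Rw.none⟩)))))) (.spl (nat_lit 0) (nat_lit 390) (.spl (nat_lit 6) (nat_lit 176) (.spl (nat_lit 0) (nat_lit 385) (.spl (nat_lit 6) (nat_lit 164) (.leaf ⟨(nat_lit 0), (nat_lit 793), (nat_lit 0), (nat_lit 207), (nat_lit 262), (nat_lit 4297), (nat_lit 7851), (nat_lit 2201), (nat_lit 0), (nat_lit 0), (nat_lit 0), [], Pd.none, Pd.none, (nat_lit 0), (nat_lit 1), (nat_lit 0), (nat_lit 0), (nat_lit 4), (nat_lit 0), [], [], [⟨(nat_lit 1), (nat_lit 85), (nat_lit 78), (nat_lit 100), (nat_lit 184416116)⟩], [],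
 ⟨⟨[(nat_lit 40), (nat_lit 100), (nat_lit 140)], [(nat_lit 0), (nat_lit 3610), (nat_lit 5926)], [((nat_lit 0), (nat_lit 0), (nat_lit 0)), ((nat_lit 1000), (nat_lit 436), (nat_lit 895)), ((nat_lit 1000), (nat_lit 436), (nat_lit 905))], ((nat_lit 44), (nat_lit 99), (nat_lit 100))⟩, (nat_lit 1469215), (nat_lit 231), (nat_lit 231), (nat_lit 0), (nat_lit 153994), [(nat_lit 2032000002), (nat_lit 6527248429), (nat_lit 9842000000)], [], [(nat_lit 26584379555), (nat_lit 26902670742), (nat_lit 33556028240), (nat_lit 33861196242), (nat_lit 27345008463), (nat_lit 27588673741), (nat_lit 33040429492), (nat_lit 33277792662)], (nat_lit 1271251), (nat_lit 1271251), (nat_lit 1271251), (nat_lit 1271251), (nat_lit 356250), (nat_lit 1805001), [(nat_lit 490000), (nat_lit 1427501), (nat_lit 1271251)], [(nat_lit 5), (nat_lit 55), (nat_lit 401), (nat_lit 175), (nat_lit 11)]⟩,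
 ⟨⟨[(nat_lit 40), (nat_lit 120), (nat_lit 180)], [(nat_lit 0), (nat_lit 0), (nat_lit 6400)], [((nat_lit 0), (nat_lit 0), (nat_lit 0)), ((nat_lit 0), (nat_lit 0), (nat_lit 0)), ((nat_lit 600), (nat_lit 800), (nat_lit 1000))], ((nat_lit 82), (nat_lit 76), (nat_lit 100))⟩, (nat_lit 1568155), (nat_lit 243), (nat_lit 243), (nat_lit 0), (nat_lit 205128), [(nat_lit 2032000000), (nat_lit 7968000000), (nat_lit 14058000000)], [], [(nat_lit 27673181730), (nat_lit 28926804516), (nat_lit 34069650937), (nat_lit 35076446666), (nat_lit 31577987319), (nat_lit 32397689112), (nat_lit 37431250729), (nat_lit 38414017355)], (nat_lit 1271251), (nat_lit 1271251), (nat_lit 1271251), (nat_lit 1271251), (nat_lit 1100000), (nat_lit 2641251), [(nat_lit 490000), (nat_lit 1740001), (nat_lit 1271251)], [(nat_lit 7), (nat_lit 60), (nat_lit 538), (nat_lit 300), (nat_lit 11)]⟩,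
 ⟨⟨[(nat_lit 140), (nat_lit 180), (nat_lit 200)], [(nat_lit 0), (nat_lit 608), (nat_lit 3317)], [((nat_lit 0), (nat_lit 0), (nat_lit 0)), ((nat_lit 913), (nat_lit 1000), (nat_lit 217)), ((nat_lit 385), (nat_lit 1000), (nat_lit 814))], ((nat_lit 0), (nat_lit 0), (nat_lit 0))⟩, (nat_lit 61126), (nat_lit 300), (nat_lit 1011), (nat_lit 15960230), (nat_lit 1264055), [(nat_lit 2037294000), (nat_lit 2910006000), (nat_lit 3394800000)], [], [(nat_lit 14860179918), (nat_lit 14682452165), (nat_lit 13223115404), (nat_lit 13048887930), (nat_lit 13913145073), (nat_lit 13732069448), (nat_lit 12241103016), (nat_lit 12064013895)], (nat_lit 936250), (nat_lit 1100000), (nat_lit 356250), (nat_lit 1805001), (nat_lit 1100000), (nat_lit 2641251), [(nat_lit 1977501), (nat_lit 1271251), (nat_lit 1271251)], [(nat_lit 32), (nat_lit 67), (nat_lit 428), (nat_lit 200), (nat_lit 9)]⟩⟩) (.dle (nat_lit 0))) (.trZ (nat_lit 0) (nat_lit 1) (nat_lit 3) (nat_lit 83) (nat_lit 39)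 (nat_lit 100) (nat_lit 250) (.trZ (nat_lit 0) (nat_lit 2) (nat_lit 4) (nat_lit 100) (nat_lit 40) (nat_lit 81) (nat_lit 70) (.trX (nat_lit 4) (nat_lit 0) (nat_lit 2) (nat_lit 39) (nat_lit 100) (nat_lit 100) (nat_lit 240) (.leaf ⟨(nat_lit 0), (nat_lit 834), (nat_lit 0), (nat_lit 166), (nat_lit 0), (nat_lit 5646), (nat_lit 8960), (nat_lit 1785), (nat_lit 0), (nat_lit 0), (nat_lit 0), [], Pd.none, Pd.none, (nat_lit 0), (nat_lit 1), (nat_lit 0), (nat_lit 0), (nat_lit 4), (nat_lit 0), [], [], [⟨(nat_lit 1), (nat_lit 85), (nat_lit 78), (nat_lit 100), (nat_lit 206929257)⟩], [],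
 ⟨⟨[(nat_lit 40), (nat_lit 80), (nat_lit 120)], [(nat_lit 0), (nat_lit 2833), (nat_lit 5014)], [((nat_lit 0), (nat_lit 0), (nat_lit 0)), ((nat_lit 1000), (nat_lit 389), (nat_lit 842)), ((nat_lit 1000), (nat_lit 387), (nat_lit 852))], ((nat_lit 39), (nat_lit 100), (nat_lit 100))⟩, (nat_lit 562391), (nat_lit 210), (nat_lit 210), (nat_lit 0), (nat_lit 180081), [(nat_lit 2424880766), (nat_lit 4943051214), (nat_lit 7968000000)], [], [(nat_lit 29902063251), (nat_lit 30285806122), (nat_lit 36469500957), (nat_lit 36732105888), (nat_lit 30022918528), (nat_lit 30318957340), (nat_lit 35088558980), (nat_lit 35294285085)], (nat_lit 1271251), (nat_lit 1271251), (nat_lit 1271251), (nat_lit 1271251), (nat_lit 422188), (nat_lit 1734376), [(nat_lit 490000), (nat_lit 1100000), (nat_lit 1785001)], [(nat_lit 4), (nat_lit 51), (nat_lit 272), (nat_lit 60), (nat_lit 8)]⟩,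
 ⟨⟨[(nat_lit 40), (nat_lit 120), (nat_lit 180)], [(nat_lit 0), (nat_lit 0), (nat_lit 6400)], [((nat_lit 0), (nat_lit 0), (nat_lit 0)), ((nat_lit 0), (nat_lit 0), (nat_lit 0)), ((nat_lit 600), (nat_lit 800), (nat_lit 1000))], ((nat_lit 82), (nat_lit 76), (nat_lit 100))⟩, (nat_lit 1201702), (nat_lit 257), (nat_lit 257), (nat_lit 0), (nat_lit 246197), [(nat_lit 2032000000), (nat_lit 7968000000), (nat_lit 14058000000)], [], [(nat_lit 30799848880), (nat_lit 31721852880), (nat_lit 36310689720), (nat_lit 37147432905), (nat_lit 33605577790), (nat_lit 34431884273), (nat_lit 38770240000), (nat_lit 39817682155)], (nat_lit 1271251), (nat_lit 1271251), (nat_lit 1271251), (nat_lit 1271251), (nat_lit 1100000), (nat_lit 2641251), [(nat_lit 490000), (nat_lit 1740001), (nat_lit 1271251)], [(nat_lit 7), (nat_lit 60), (nat_lit 538), (nat_lit 300), (nat_lit 11)]⟩,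
 ⟨⟨[(nat_lit 140), (nat_lit 180), (nat_lit 200)], [(nat_lit 0), (nat_lit 608), (nat_lit 3317)], [((nat_lit 0), (nat_lit 0), (nat_lit 0)), ((nat_lit 913), (nat_lit 1000), (nat_lit 217)), ((nat_lit 385), (nat_lit 1000), (nat_lit 814))], ((nat_lit 0), (nat_lit 0), (nat_lit 0))⟩, (nat_lit 49019), (nat_lit 300), (nat_lit 1112), (nat_lit 12799025), (nat_lit 1520504), [(nat_lit 1633772000), (nat_lit 2333628000), (nat_lit 2722400000)], [], [(nat_lit 11699121665), (nat_lit 11555167028), (nat_lit 10522273766), (nat_lit 10380615324), (nat_lit 10929030747), (nat_lit 10782359625), (nat_lit 9726709229), (nat_lit 9582846707)], (nat_lit 936250), (nat_lit 1100000), (nat_lit 422188), (nat_lit 1734376), (nat_lit 1100000), (nat_lit 2641251), [(nat_lit 1977501), (nat_lit 1271251), (nat_lit 1271251)], [(nat_lit 32), (nat_lit 67), (nat_lit 428), (nat_lit 200), (nat_lit 9)]⟩⟩))))) (.dle (nat_lit 0))) (.trZ (nat_lit 0) (nat_lit 1) (nat_lit 3) (nat_lit 84) (nat_lit 33)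 (nat_lit 100) (nat_lit 260) (.trX (nat_lit 3) (nat_lit 0) (nat_lit 1) (nat_lit 44) (nat_lit 64) (nat_lit 100) (nat_lit 380) (.trZ (nat_lit 0) (nat_lit 2) (nat_lit 4) (nat_lit 100) (nat_lit 33) (nat_lit 85) (nat_lit 80) (.trX (nat_lit 4) (nat_lit 0) (nat_lit 2) (nat_lit 31) (nat_lit 100) (nat_lit 99) (nat_lit 230) (.spl (nat_lit 0) (nat_lit 395) (.spl (nat_lit 6) (nat_lit 188) (.leaf ⟨(nat_lit 0), (nat_lit 851), (nat_lit 0), (nat_lit 149), (nat_lit 0), (nat_lit 6801), (nat_lit 8736), (nat_lit 1627), (nat_lit 0), (nat_lit 0), (nat_lit 0), [], Pd.none, Pd.none, (nat_lit 0), (nat_lit 1), (nat_lit 0), (nat_lit 0), (nat_lit 4), (nat_lit 0), [], [], [⟨(nat_lit 1), (nat_lit 85), (nat_lit 78), (nat_lit 100), (nat_lit 211557824)⟩], [],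
 ⟨⟨[(nat_lit 40), (nat_lit 80), (nat_lit 120)], [(nat_lit 0), (nat_lit 3225), (nat_lit 5518)], [((nat_lit 0), (nat_lit 0), (nat_lit 0)), ((nat_lit 1000), (nat_lit 321), (nat_lit 877)), ((nat_lit 1000), (nat_lit 317), (nat_lit 896))], ((nat_lit 31), (nat_lit 100), (nat_lit 99))⟩, (nat_lit 210970), (nat_lit 207), (nat_lit 207), (nat_lit 0), (nat_lit 205501), [(nat_lit 2686960773), (nat_lit 5203805225), (nat_lit 7968000000)], [], [(nat_lit 31903776000), (nat_lit 32319605534), (nat_lit 37859269536), (nat_lit 38155744113), (nat_lit 31613531668), (nat_lit 31939867615), (nat_lit 36249252360), (nat_lit 36483575480)], (nat_lit 1271251), (nat_lit 1271251), (nat_lit 1271251), (nat_lit 1271251), (nat_lit 490000), (nat_lit 1661876), [(nat_lit 490000), (nat_lit 1100000), (nat_lit 1785001)], [(nat_lit 4), (nat_lit 51), (nat_lit 272), (nat_lit 60), (nat_lit 8)]⟩,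
 ⟨⟨[(nat_lit 40), (nat_lit 120), (nat_lit 180)], [(nat_lit 0), (nat_lit 0), (nat_lit 6400)], [((nat_lit 0), (nat_lit 0), (nat_lit 0)), ((nat_lit 0), (nat_lit 0), (nat_lit 0)), ((nat_lit 600), (nat_lit 800), (nat_lit 1000))], ((nat_lit 82), (nat_lit 76), (nat_lit 100))⟩, (nat_lit 1218911), (nat_lit 269), (nat_lit 269), (nat_lit 0), (nat_lit 288452), [(nat_lit 2032000000), (nat_lit 7968000000), (nat_lit 14058000000)], [], [(nat_lit 31297290400), (nat_lit 32185552384), (nat_lit 35694054416), (nat_lit 36554345410), (nat_lit 33778512468), (nat_lit 34574543959), (nat_lit 37837568160), (nat_lit 38913383584)], (nat_lit 1271251), (nat_lit 1271251), (nat_lit 1271251), (nat_lit 1271251), (nat_lit 1100000), (nat_lit 2641251), [(nat_lit 490000), (nat_lit 1740001), (nat_lit 1271251)], [(nat_lit 7), (nat_lit 60), (nat_lit 538), (nat_lit 300), (nat_lit 11)]⟩,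
 ⟨⟨[(nat_lit 140), (nat_lit 180), (nat_lit 200)], [(nat_lit 0), (nat_lit 608), (nat_lit 3317)], [((nat_lit 0), (nat_lit 0), (nat_lit 0)), ((nat_lit 913), (nat_lit 1000), (nat_lit 217)), ((nat_lit 385), (nat_lit 1000), (nat_lit 814))], ((nat_lit 0), (nat_lit 0), (nat_lit 0))⟩, (nat_lit 43999), (nat_lit 300), (nat_lit 1229), (nat_lit 11488282), (nat_lit 1783978), [(nat_lit 1466458000), (nat_lit 2094642000), (nat_lit 2443600000)], [], [(nat_lit 10365301850), (nat_lit 10235117020), (nat_lit 9443770310), (nat_lit 9315458715), (nat_lit 9581786466), (nat_lit 9450723370), (nat_lit 8650406725), (nat_lit 8524401312)], (nat_lit 936250), (nat_lit 1100000), (nat_lit 490000), (nat_lit 1661876), (nat_lit 1100000), (nat_lit 2641251), [(nat_lit 1977501), (nat_lit 1271251), (nat_lit 1271251)], [(nat_lit 32), (nat_lit 67), (nat_lit 428), (nat_lit 200), (nat_lit 9)]⟩⟩) (.dle (nat_lit 0))) (.trZ (nat_lit 0) (nat_lit 1) (nat_lit 3) (nat_lit 88) (nat_lit 24) (nat_lit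 100) (nat_lit 280) (.trX (nat_lit 3) (nat_lit 0) (nat_lit 1) (nat_lit 31) (nat_lit 76) (nat_lit 100) (nat_lit 370) (.trZ (nat_lit 0) (nat_lit 2) (nat_lit 4) (nat_lit 100) (nat_lit 23) (nat_lit 91) (nat_lit 90) (.trX (nat_lit 4) (nat_lit 0) (nat_lit 2) (nat_lit 22) (nat_lit 100) (nat_lit 98) (nat_lit 210) (.leaf ⟨(nat_lit 0), (nat_lit 838), (nat_lit 0), (nat_lit 162), (nat_lit 0), (nat_lit 4255), (nat_lit 9074), (nat_lit 1818), (nat_lit 0), (nat_lit 0), (nat_lit 0), [], Pd.none, Pd.none, (nat_lit 0), (nat_lit 1), (nat_lit 0), (nat_lit 0), (nat_lit 4), (nat_lit 0), [], [⟨(nat_lit 1), (nat_lit 100), (nat_lit 16), (nat_lit 97), (nat_lit 246314732)⟩], [⟨(nat_lit 1), (nat_lit 85), (nat_lit 78), (nat_lit 100), (nat_lit 195269085)⟩], [],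
 ⟨⟨[(nat_lit 40), (nat_lit 80), (nat_lit 120)], [(nat_lit 0), (nat_lit 3758), (nat_lit 6151)], [((nat_lit 0), (nat_lit 0), (nat_lit 0)), ((nat_lit 1000), (nat_lit 228), (nat_lit 923)), ((nat_lit 1000), (nat_lit 226), (nat_lit 935))], ((nat_lit 22), (nat_lit 100), (nat_lit 98))⟩, (nat_lit 872274), (nat_lit 214), (nat_lit 214), (nat_lit 0), (nat_lit 230324), [(nat_lit 2032000007), (nat_lit 5098822980), (nat_lit 7968000000)], [], [(nat_lit 28618345428), (nat_lit 28921274391), (nat_lit 32274220280), (nat_lit 32516314168), (nat_lit 29129063492), (nat_lit 29384713159), (nat_lit 32237402164), (nat_lit 32443858100)], (nat_lit 1271251), (nat_lit 1271251), (nat_lit 1271251), (nat_lit 1271251), (nat_lit 559688), (nat_lit 1508438), [(nat_lit 490000), (nat_lit 1100000), (nat_lit 1785001)], [(nat_lit 4), (nat_lit 51), (nat_lit 272), (nat_lit 60), (nat_lit 7)]⟩,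
 ⟨⟨[(nat_lit 40), (nat_lit 120), (nat_lit 180)], [(nat_lit 0), (nat_lit 0), (nat_lit 6400)], [((nat_lit 0), (nat_lit 0), (nat_lit 0)), ((nat_lit 0), (nat_lit 0), (nat_lit 0)), ((nat_lit 600), (nat_lit 800), (nat_lit 1000))], ((nat_lit 82), (nat_lit 76), (nat_lit 100))⟩, (nat_lit 1155899), (nat_lit 282), (nat_lit 282), (nat_lit 0), (nat_lit 331970), [(nat_lit 2032000000), (nat_lit 7968000000), (nat_lit 14058000000)], [], [(nat_lit 31607153016), (nat_lit 32586768008), (nat_lit 35516987450), (nat_lit 36425368685), (nat_lit 34387187244), (nat_lit 35151483999), (nat_lit 37554053437), (nat_lit 38693783329)], (nat_lit 1271251), (nat_lit 1271251), (nat_lit 1271251), (nat_lit 1271251), (nat_lit 1100000), (nat_lit 2641251), [(nat_lit 490000), (nat_lit 1740001), (nat_lit 1271251)], [(nat_lit 7), (nat_lit 60), (nat_lit 538), (nat_lit 300), (nat_lit 11)]⟩,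
 ⟨⟨[(nat_lit 140), (nat_lit 180), (nat_lit 200)], [(nat_lit 0), (nat_lit 608), (nat_lit 3317)], [((nat_lit 0), (nat_lit 0), (nat_lit 0)), ((nat_lit 913), (nat_lit 1000), (nat_lit 217)), ((nat_lit 385), (nat_lit 1000), (nat_lit 814))], ((nat_lit 0), (nat_lit 0), (nat_lit 0))⟩, (nat_lit 47837), (nat_lit 300), (nat_lit 1342), (nat_lit 12490624), (nat_lit 2054913), [(nat_lit 1594404000), (nat_lit 2277396000), (nat_lit 2656800000)], [], [(nat_lit 10854410763), (nat_lit 10708266594), (nat_lit 10013738403), (nat_lit 9869406438), (nat_lit 10034203492), (nat_lit 9884165746), (nat_lit 9174335971), (nat_lit 9026268751)], (nat_lit 936250), (nat_lit 1100000), (nat_lit 559688), (nat_lit 1508438), (nat_lit 1100000), (nat_lit 2641251), [(nat_lit 1977501), (nat_lit 1271251), (nat_lit 1271251)], [(nat_lit 32), (nat_lit 67), (nat_lit 428), (nat_lit 200), (nat_lit 9)]⟩⟩)))))))))))) (.dle (nat_lit 0))))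
noncomputable def c15_25 : Tr Lf :=
 (.trZ (nat_lit 0) (nat_lit 1) (nat_lit 3) (nat_lit 75) (nat_lit 46) (nat_lit 100) (nat_lit 260) (.trZ (nat_lit 1) (nat_lit 2) (nat_lit 5) (nat_lit 100) (nat_lit 75) (nat_lit 48) (nat_lit 20) (.trX (nat_lit 5) (nat_lit 1) (nat_lit 2) (nat_lit 73) (nat_lit 85) (nat_lit 100) (nat_lit 320) (.spl (nat_lit 0) (nat_lit 390) (.spl (nat_lit 6) (nat_lit 212) (.spl (nat_lit 5) (nat_lit 160) (.leaf ⟨(nat_lit 4), (nat_lit 927), (nat_lit 0), (nat_lit 69), (nat_lit 10439), (nat_lit 7784), (nat_lit 5480), (nat_lit 907), (nat_lit 0), (nat_lit 0), (nat_lit 1040), [((nat_lit 390), [((nat_lit 42), (nat_lit 0), (nat_lit 4))])], ⟨(nat_lit 8), false, true, false, (nat_lit 342), (nat_lit 1581), (nat_lit 2237), [(nat_lit 1744753), (nat_lit 1744969), (nat_lit 1767482), (nat_lit 1768238), (nat_lit 1944496), (nat_lit 1936383), (nat_lit 1967270), (nat_lit 1959698)]⟩, ⟨(nat_lit 3), false, false, true, (nat_lit 152), (nat_lit 1581), (nat_lit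 2237), [(nat_lit 1231959), (nat_lit 1238666), (nat_lit 1254689), (nat_lit 1261936), (nat_lit 1502945), (nat_lit 1498348), (nat_lit 1525719), (nat_lit 1521663)]⟩, (nat_lit 5048949), (nat_lit 34467011), (nat_lit 25621226), (nat_lit 6911763), (nat_lit 3), (nat_lit 0), [], [⟨(nat_lit 1), (nat_lit 100), (nat_lit 38), (nat_lit 98), (nat_lit 1435188)⟩], [], [],
 ⟨⟨[(nat_lit 40), (nat_lit 100), (nat_lit 140)], [(nat_lit 0), (nat_lit 3610), (nat_lit 5926)], [((nat_lit 0), (nat_lit 0), (nat_lit 0)), ((nat_lit 1000), (nat_lit 436), (nat_lit 895)), ((nat_lit 1000), (nat_lit 436), (nat_lit 905))], ((nat_lit 44), (nat_lit 99), (nat_lit 100))⟩, (nat_lit 170728), (nat_lit 297), (nat_lit 297), (nat_lit 0), (nat_lit 270558), [(nat_lit 2443941271), (nat_lit 7258174409), (nat_lit 9393435731)], [(nat_lit 0), (nat_lit 0), (nat_lit 0)], [(nat_lit 35759298392), (nat_lit 36411785317), (nat_lit 42745099779), (nat_lit 43289082855), (nat_lit 33658076621), (nat_lit 34138223611),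 (nat_lit 38713675097), (nat_lit 39116402458)], (nat_lit 1271251), (nat_lit 1271251), (nat_lit 1271251), (nat_lit 1271251), (nat_lit 356250), (nat_lit 1805001), [(nat_lit 490000), (nat_lit 1427501), (nat_lit 1271251)], [(nat_lit 5), (nat_lit 55), (nat_lit 401), (nat_lit 175), (nat_lit 10)]⟩,
 ⟨⟨[(nat_lit 40), (nat_lit 100), (nat_lit 160)], [(nat_lit 0), (nat_lit 1192), (nat_lit 5376)], [((nat_lit 0), (nat_lit 0), (nat_lit 0)), ((nat_lit 1000), (nat_lit 814), (nat_lit 310)), ((nat_lit 919), (nat_lit 747), (nat_lit 1000))], ((nat_lit 73), (nat_lit 85), (nat_lit 100))⟩, (nat_lit 1742862), (nat_lit 374), (nat_lit 374), (nat_lit 0), (nat_lit 325045), [(nat_lit 2023872000), (nat_lit 6225000000), (nat_lit 11824512000)], [], [(nat_lit 31896136872), (nat_lit 32525999731), (nat_lit 36671812238), (nat_lit 38020347832), (nat_lit 28998427467), (nat_lit 29544375730), (nat_lit 32580328948), (nat_lit 33211434584)], (nat_lit 1271251), (nat_lit 1271251), (nat_lit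 1271251), (nat_lit 1271251), (nat_lit 111251), (nat_lit 1100000), [(nat_lit 490000), (nat_lit 1427501), (nat_lit 1271251)], [(nat_lit 6), (nat_lit 56), (nat_lit 373), (nat_lit 150), (nat_lit 9)]⟩,
 ⟨⟨[(nat_lit 140), (nat_lit 180), (nat_lit 200)], [(nat_lit 0), (nat_lit 608), (nat_lit 3317)], [((nat_lit 0), (nat_lit 0), (nat_lit 0)), ((nat_lit 913), (nat_lit 1000), (nat_lit 217)), ((nat_lit 385), (nat_lit 1000), (nat_lit 814))], ((nat_lit 0), (nat_lit 0), (nat_lit 0))⟩, (nat_lit 0), (nat_lit 300), (nat_lit 1552), (nat_lit 5658000), (nat_lit 2273618), [(nat_lit 679098000), (nat_lit 970002000), (nat_lit 1131600000)], [], [(nat_lit 5346300850), (nat_lit 5219806051), (nat_lit 4596869315), (nat_lit 4521135407), (nat_lit 4534407594), (nat_lit 4458147593), (nat_lit 4386797136), (nat_lit 4605782179)], (nat_lit 936250), (nat_lit 1100000), (nat_lit 356250), (nat_lit 1805001), (nat_lit 111251), (nat_lit 1100000), [(nat_lit 1977501), (nat_lit 1271251), (nat_lit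 1271251)], [(nat_lit 32), (nat_lit 67), (nat_lit 460), (nat_lit 150), (nat_lit 10)]⟩⟩) (.spl (nat_lit 0) (nat_lit 385) (.spl (nat_lit 6) (nat_lit 200) (.leaf ⟨(nat_lit 4), (nat_lit 868), (nat_lit 0), (nat_lit 128), (nat_lit 0), (nat_lit 5966), (nat_lit 9976), (nat_lit 1412), (nat_lit 0), (nat_lit 0), (nat_lit 1040), [((nat_lit 385), [((nat_lit 42), (nat_lit 0), (nat_lit 4))])], ⟨(nat_lit 8), false, true, false, (nat_lit 342), (nat_lit 1936), (nat_lit 2237), [(nat_lit 1744906), (nat_lit 1744873), (nat_lit 1767671), (nat_lit 1767874), (nat_lit 1944496), (nat_lit 1940520), (nat_lit 1967270), (nat_lit 1963531)]⟩, ⟨(nat_lit 3), false, false, true, (nat_lit 152), (nat_lit 1936), (nat_lit 2237), [(nat_lit 1232092), (nat_lit 1235325), (nat_lit 1254858), (nat_lit 1258327), (nat_lit 1502945), (nat_lit 1500827), (nat_lit 1525719), (nat_lit 1523838)]⟩, (nat_lit 5048226), (nat_lit 34441857), (nat_lit 25657205), (nat_lit 6900938), (nat_lit 4), (nat_lit 0),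 [], [], [⟨(nat_lit 1), (nat_lit 92), (nat_lit 68), (nat_lit 100), (nat_lit 176732001)⟩], [],
 ⟨⟨[(nat_lit 40), (nat_lit 100), (nat_lit 140)], [(nat_lit 0), (nat_lit 3610), (nat_lit 5926)], [((nat_lit 0), (nat_lit 0), (nat_lit 0)), ((nat_lit 1000), (nat_lit 436), (nat_lit 895)), ((nat_lit 1000), (nat_lit 436), (nat_lit 905))], ((nat_lit 44), (nat_lit 99), (nat_lit 100))⟩, (nat_lit 882158), (nat_lit 289), (nat_lit 289), (nat_lit 0), (nat_lit 246925), [(nat_lit 2257903577), (nat_lit 7451287111), (nat_lit 9329064830)], [(nat_lit 0), (nat_lit 0), (nat_lit 0)], [(nat_lit 30968727888), (nat_lit 31251039324), (nat_lit 38156364253), (nat_lit 38503578358), (nat_lit 30166996666), (nat_lit 30417168828), (nat_lit 35817270330), (nat_lit 36081994878)], (nat_lit 1271251), (nat_lit 1271251), (nat_lit 1271251), (nat_lit 1271251), (nat_lit 356250), (nat_lit 1805001), [(nat_lit 490000), (nat_lit 1427501), (nat_lit 1271251)], [(nat_lit 5), (nat_lit 55), (nat_lit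 401), (nat_lit 175), (nat_lit 10)]⟩,
 ⟨⟨[(nat_lit 40), (nat_lit 100), (nat_lit 160)], [(nat_lit 0), (nat_lit 1192), (nat_lit 5376)], [((nat_lit 0), (nat_lit 0), (nat_lit 0)), ((nat_lit 1000), (nat_lit 814), (nat_lit 310)), ((nat_lit 919), (nat_lit 747), (nat_lit 1000))], ((nat_lit 73), (nat_lit 85), (nat_lit 100))⟩, (nat_lit 126767), (nat_lit 242), (nat_lit 242), (nat_lit 0), (nat_lit 289392), [(nat_lit 2023872000), (nat_lit 6225000000), (nat_lit 11824512000)], [], [(nat_lit 33319434898), (nat_lit 34847455892), (nat_lit 40628290648), (nat_lit 41595927568), (nat_lit 36189859102), (nat_lit 37225193776), (nat_lit 40792961228), (nat_lit 41735315992)], (nat_lit 1271251), (nat_lit 1271251), (nat_lit 1271251), (nat_lit 1271251), (nat_lit 1100000), (nat_lit 2470001), [(nat_lit 490000), (nat_lit 1427501), (nat_lit 1271251)], [(nat_lit 6), (nat_lit 56), (nat_lit 428), (nat_lit 200), (nat_lit 10)]⟩,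
 ⟨⟨[(nat_lit 140), (nat_lit 180), (nat_lit 200)], [(nat_lit 0), (nat_lit 608), (nat_lit 3317)], [((nat_lit 0), (nat_lit 0), (nat_lit 0)), ((nat_lit 913), (nat_lit 1000), (nat_lit 217)), ((nat_lit 385), (nat_lit 1000), (nat_lit 814))], ((nat_lit 0), (nat_lit 0), (nat_lit 0))⟩, (nat_lit 37798), (nat_lit 300), (nat_lit 1348), (nat_lit 9869127), (nat_lit 2023761), [(nat_lit 1259776000), (nat_lit 1799424000), (nat_lit 2099200000)], [], [(nat_lit 9040417434), (nat_lit 8865777572), (nat_lit 7924936446), (nat_lit 7813279208), (nat_lit 8350920794), (nat_lit 8234344888), (nat_lit 7281142480), (nat_lit 7169287292)], (nat_lit 936250), (nat_lit 1100000), (nat_lit 356250), (nat_lit 1805001), (nat_lit 1100000), (nat_lit 2470001), [(nat_lit 1977501), (nat_lit 1271251), (nat_lit 1271251)], [(nat_lit 32), (nat_lit 67), (nat_lit 429), (nat_lit 200), (nat_lit 9)]⟩⟩) (.dle (nat_lit 0))) (.trZ (nat_lit 0) (nat_lit 1) (nat_lit 3) (nat_lit 77) (nat_lit 41) (nat_lit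 100) (nat_lit 270) (.trZ (nat_lit 0) (nat_lit 2) (nat_lit 4) (nat_lit 100) (nat_lit 40) (nat_lit 81) (nat_lit 70) (.trX (nat_lit 4) (nat_lit 0) (nat_lit 2) (nat_lit 39) (nat_lit 100) (nat_lit 100) (nat_lit 240) (.leaf ⟨(nat_lit 0), (nat_lit 889), (nat_lit 0), (nat_lit 111), (nat_lit 0), (nat_lit 7226), (nat_lit 8734), (nat_lit 1238), (nat_lit 0), (nat_lit 0), (nat_lit 0), [], Pd.none, Pd.none, (nat_lit 0), (nat_lit 1), (nat_lit 0), (nat_lit 0), (nat_lit 4), (nat_lit 0), [⟨(nat_lit 0), (nat_lit 75), (nat_lit 39), (nat_lit 100), (nat_lit 6948642)⟩], [], [⟨(nat_lit 1), (nat_lit 92), (nat_lit 68), (nat_lit 100), (nat_lit 212624798)⟩], [],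
 ⟨⟨[(nat_lit 40), (nat_lit 80), (nat_lit 120)], [(nat_lit 0), (nat_lit 2833), (nat_lit 5014)], [((nat_lit 0), (nat_lit 0), (nat_lit 0)), ((nat_lit 1000), (nat_lit 389), (nat_lit 842)), ((nat_lit 1000), (nat_lit 387), (nat_lit 852))], ((nat_lit 39), (nat_lit 100), (nat_lit 100))⟩, (nat_lit 0), (nat_lit 256), (nat_lit 256), (nat_lit 0), (nat_lit 269788), [(nat_lit 2539388533), (nat_lit 5084846734), (nat_lit 7968000000)], [], [(nat_lit 33735640416), (nat_lit 34160080201), (nat_lit 40786959741), (nat_lit 41073325138), (nat_lit 32684404322), (nat_lit 33007480241), (nat_lit 38018227617), (nat_lit 38238392870)], (nat_lit 1271251), (nat_lit 1271251), (nat_lit 1271251), (nat_lit 1271251), (nat_lit 422188), (nat_lit 1734376), [(nat_lit 490000), (nat_lit 1100000), (nat_lit 1785001)], [(nat_lit 4), (nat_lit 51), (nat_lit 272), (nat_lit 60), (nat_lit 8)]⟩,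
 ⟨⟨[(nat_lit 40), (nat_lit 100), (nat_lit 160)], [(nat_lit 0), (nat_lit 1192), (nat_lit 5376)], [((nat_lit 0), (nat_lit 0), (nat_lit 0)), ((nat_lit 1000), (nat_lit 814), (nat_lit 310)), ((nat_lit 919), (nat_lit 747), (nat_lit 1000))], ((nat_lit 73), (nat_lit 85), (nat_lit 100))⟩, (nat_lit 521190), (nat_lit 253), (nat_lit 253), (nat_lit 0), (nat_lit 324958), [(nat_lit 2032000000), (nat_lit 6250000000), (nat_lit 11872000000)], [], [(nat_lit 32330340953), (nat_lit 33704993259), (nat_lit 38796136866), (nat_lit 39706286180), (nat_lit 35138277980), (nat_lit 36083125970), (nat_lit 39348148328), (nat_lit 40221067092)], (nat_lit 1271251), (nat_lit 1271251), (nat_lit 1271251), (nat_lit 1271251), (nat_lit 1100000), (nat_lit 2470001), [(nat_lit 490000), (nat_lit 1427501), (nat_lit 1271251)], [(nat_lit 6), (nat_lit 56), (nat_lit 428), (nat_lit 200), (nat_lit 10)]⟩,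
 ⟨⟨[(nat_lit 140), (nat_lit 180), (nat_lit 200)], [(nat_lit 0), (nat_lit 608), (nat_lit 3317)], [((nat_lit 0), (nat_lit 0), (nat_lit 0)), ((nat_lit 913), (nat_lit 1000), (nat_lit 217)), ((nat_lit 385), (nat_lit 1000), (nat_lit 814))], ((nat_lit 0), (nat_lit 0), (nat_lit 0))⟩, (nat_lit 32778), (nat_lit 300), (nat_lit 1460), (nat_lit 8558384), (nat_lit 2273618), [(nat_lit 1092462000), (nat_lit 1560438000), (nat_lit 1820400000)], [], [(nat_lit 7619729159), (nat_lit 7519846689), (nat_lit 6799772990), (nat_lit 6703851400), (nat_lit 7085419308), (nat_lit 6983348863), (nat_lit 6248625594), (nat_lit 6151981472)], (nat_lit 936250), (nat_lit 1100000), (nat_lit 422188), (nat_lit 1734376), (nat_lit 1100000), (nat_lit 2470001), [(nat_lit 1977501), (nat_lit 1271251), (nat_lit 1271251)], [(nat_lit 32), (nat_lit 67), (nat_lit 455), (nat_lit 200), (nat_lit 10)]⟩⟩)))))) (.dle (nat_lit 0))) (.trZ (nat_lit 0) (nat_lit 1) (nat_lit 3) (nat_lit 80) (nat_lit 35) (nat_lit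 100) (nat_lit 280) (.trX (nat_lit 3) (nat_lit 0) (nat_lit 1) (nat_lit 52) (nat_lit 53) (nat_lit 100) (nat_lit 390) (.trZ (nat_lit 0) (nat_lit 2) (nat_lit 4) (nat_lit 100) (nat_lit 33) (nat_lit 85) (nat_lit 80) (.trX (nat_lit 4) (nat_lit 0) (nat_lit 2) (nat_lit 31) (nat_lit 100) (nat_lit 99) (nat_lit 230) (.spl (nat_lit 5) (nat_lit 160) (.leaf ⟨(nat_lit 0), (nat_lit 941), (nat_lit 0), (nat_lit 59), (nat_lit 11256), (nat_lit 6782), (nat_lit 5531), (nat_lit 785), (nat_lit 0), (nat_lit 0), (nat_lit 0), [], Pd.none, Pd.none, (nat_lit 0), (nat_lit 1), (nat_lit 0), (nat_lit 0), (nat_lit 3), (nat_lit 0), [⟨(nat_lit 0), (nat_lit 82), (nat_lit 27), (nat_lit 100), (nat_lit 50455087)⟩], [⟨(nat_lit 1), (nat_lit 100), (nat_lit 22), (nat_lit 97), (nat_lit 312625416)⟩], [], [],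
 ⟨⟨[(nat_lit 40), (nat_lit 80), (nat_lit 120)], [(nat_lit 0), (nat_lit 3225), (nat_lit 5518)], [((nat_lit 0), (nat_lit 0), (nat_lit 0)), ((nat_lit 1000), (nat_lit 321), (nat_lit 877)), ((nat_lit 1000), (nat_lit 317), (nat_lit 896))], ((nat_lit 31), (nat_lit 100), (nat_lit 99))⟩, (nat_lit 0), (nat_lit 262), (nat_lit 262), (nat_lit 0), (nat_lit 314026), [(nat_lit 2430716476), (nat_lit 4888595970), (nat_lit 7968000000)], [], [(nat_lit 33907212444), (nat_lit 34697809120), (nat_lit 39586530758), (nat_lit 40157870755), (nat_lit 33424855850), (nat_lit 34046226775), (nat_lit 37869995004), (nat_lit 38322585924)], (nat_lit 1271251), (nat_lit 1271251), (nat_lit 1271251), (nat_lit 1271251), (nat_lit 490000), (nat_lit 1661876), [(nat_lit 490000), (nat_lit 1100000), (nat_lit 1785001)], [(nat_lit 4), (nat_lit 51), (nat_lit 272), (nat_lit 60), (nat_lit 7)]⟩,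
 ⟨⟨[(nat_lit 40), (nat_lit 100), (nat_lit 160)], [(nat_lit 0), (nat_lit 1192), (nat_lit 5376)], [((nat_lit 0), (nat_lit 0), (nat_lit 0)), ((nat_lit 1000), (nat_lit 814), (nat_lit 310)), ((nat_lit 919), (nat_lit 747), (nat_lit 1000))], ((nat_lit 73), (nat_lit 85), (nat_lit 100))⟩, (nat_lit 1664766), (nat_lit 395), (nat_lit 395), (nat_lit 0), (nat_lit 398351), [(nat_lit 2032000000), (nat_lit 6250000000), (nat_lit 11872000000)], [], [(nat_lit 33333374814), (nat_lit 33939818890), (nat_lit 36581361359), (nat_lit 37469123125), (nat_lit 30344814541), (nat_lit 30870420734), (nat_lit 32840181470), (nat_lit 33349751310)], (nat_lit 1271251), (nat_lit 1271251), (nat_lit 1271251), (nat_lit 1271251), (nat_lit 111251), (nat_lit 1100000), [(nat_lit 490000), (nat_lit 1427501), (nat_lit 1271251)], [(nat_lit 6), (nat_lit 56), (nat_lit 373), (nat_lit 150), (nat_lit 9)]⟩,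
 ⟨⟨[(nat_lit 140), (nat_lit 180), (nat_lit 200)], [(nat_lit 0), (nat_lit 608), (nat_lit 3317)], [((nat_lit 0), (nat_lit 0), (nat_lit 0)), ((nat_lit 913), (nat_lit 1000), (nat_lit 217)), ((nat_lit 385), (nat_lit 1000), (nat_lit 814))], ((nat_lit 0), (nat_lit 0), (nat_lit 0))⟩, (nat_lit 1089), (nat_lit 300), (nat_lit 1777), (nat_lit 4819939), (nat_lit 2788551), [(nat_lit 580678000), (nat_lit 829422000), (nat_lit 967600000)], [], [(nat_lit 4370273293), (nat_lit 4301677290), (nat_lit 3930279703), (nat_lit 3864992488), (nat_lit 3715496560), (nat_lit 3649995796), (nat_lit 3643404740), (nat_lit 3830022043)], (nat_lit 936250), (nat_lit 1100000), (nat_lit 490000), (nat_lit 1661876), (nat_lit 111251), (nat_lit 1100000), [(nat_lit 1977501), (nat_lit 1271251), (nat_lit 1271251)], [(nat_lit 32), (nat_lit 67), (nat_lit 513), (nat_lit 150), (nat_lit 11)]⟩⟩) (.leaf ⟨(nat_lit 0), (nat_lit 893), (nat_lit 0), (nat_lit 107), (nat_lit 0), (nat_lit 7329), (nat_lit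 8514), (nat_lit 1208), (nat_lit 0), (nat_lit 0), (nat_lit 0), [], Pd.none, Pd.none, (nat_lit 0), (nat_lit 1), (nat_lit 0), (nat_lit 0), (nat_lit 4), (nat_lit 0), [⟨(nat_lit 0), (nat_lit 82), (nat_lit 27), (nat_lit 100), (nat_lit 24837880)⟩], [⟨(nat_lit 1), (nat_lit 100), (nat_lit 22), (nat_lit 97), (nat_lit 62322684)⟩], [⟨(nat_lit 1), (nat_lit 92), (nat_lit 68), (nat_lit 100), (nat_lit 214776296)⟩], [],
 ⟨⟨[(nat_lit 40), (nat_lit 80), (nat_lit 120)], [(nat_lit 0), (nat_lit 3225), (nat_lit 5518)], [((nat_lit 0), (nat_lit 0), (nat_lit 0)), ((nat_lit 1000), (nat_lit 321), (nat_lit 877)), ((nat_lit 1000), (nat_lit 317), (nat_lit 896))], ((nat_lit 31), (nat_lit 100), (nat_lit 99))⟩, (nat_lit 0), (nat_lit 262), (nat_lit 262), (nat_lit 0), (nat_lit 314026), [(nat_lit 2562081052), (nat_lit 5162304259), (nat_lit 7968000000)], [], [(nat_lit 33951472539), (nat_lit 34780493640), (nat_lit 39846580780), (nat_lit 40442134902), (nat_lit 33187291289), (nat_lit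 33836048863), (nat_lit 37770382363), (nat_lit 38239073110)], (nat_lit 1271251), (nat_lit 1271251), (nat_lit 1271251), (nat_lit 1271251), (nat_lit 490000), (nat_lit 1661876), [(nat_lit 490000), (nat_lit 1100000), (nat_lit 1785001)], [(nat_lit 4), (nat_lit 51), (nat_lit 272), (nat_lit 60), (nat_lit 7)]⟩,
 ⟨⟨[(nat_lit 40), (nat_lit 100), (nat_lit 160)], [(nat_lit 0), (nat_lit 1192), (nat_lit 5376)], [((nat_lit 0), (nat_lit 0), (nat_lit 0)), ((nat_lit 1000), (nat_lit 814), (nat_lit 310)), ((nat_lit 919), (nat_lit 747), (nat_lit 1000))], ((nat_lit 73), (nat_lit 85), (nat_lit 100))⟩, (nat_lit 766529), (nat_lit 316), (nat_lit 316), (nat_lit 0), (nat_lit 398351), [(nat_lit 2032000000), (nat_lit 6250000000), (nat_lit 11872000000)], [], [(nat_lit 34360110728), (nat_lit 35124184884), (nat_lit 37332665009), (nat_lit 37877284984), (nat_lit 34871450666), (nat_lit 35381814372), (nat_lit 38231746569), (nat_lit 39322727518)], (nat_lit 1271251), (nat_lit 1271251),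 (nat_lit 1271251), (nat_lit 1271251), (nat_lit 1100000), (nat_lit 2470001), [(nat_lit 490000), (nat_lit 1427501), (nat_lit 1271251)], [(nat_lit 6), (nat_lit 56), (nat_lit 428), (nat_lit 200), (nat_lit 10)]⟩,
 ⟨⟨[(nat_lit 140), (nat_lit 180), (nat_lit 200)], [(nat_lit 0), (nat_lit 608), (nat_lit 3317)], [((nat_lit 0), (nat_lit 0), (nat_lit 0)), ((nat_lit 913), (nat_lit 1000), (nat_lit 217)), ((nat_lit 385), (nat_lit 1000), (nat_lit 814))], ((nat_lit 0), (nat_lit 0), (nat_lit 0))⟩, (nat_lit 31596), (nat_lit 300), (nat_lit 1695), (nat_lit 8249981), (nat_lit 2788551), [(nat_lit 1053094000), (nat_lit 1504206000), (nat_lit 1754800000)], [], [(nat_lit 7171150178), (nat_lit 7073760692), (nat_lit 6482778708), (nat_lit 6385765770), (nat_lit 6668476886), (nat_lit 6568992912), (nat_lit 5967982644), (nat_lit 5869952749)], (nat_lit 936250), (nat_lit 1100000), (nat_lit 490000), (nat_lit 1661876), (nat_lit 1100000), (nat_lit 2470001), [(nat_lit 1977501), (nat_lit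 1271251), (nat_lit 1271251)], [(nat_lit 32), (nat_lit 67), (nat_lit 513), (nat_lit 200), (nat_lit 11)]⟩⟩))))))))))
noncomputable def c15_26 : Tr Lf :=
 (.spl (nat_lit 2) (nat_lit 140) (.trX (nat_lit 4) (nat_lit 0) (nat_lit 2) (nat_lit 44) (nat_lit 100) (nat_lit 96) (nat_lit 230) (.spl (nat_lit 0) (nat_lit 390) (.ord (.leaf ⟨(nat_lit 0), (nat_lit 1000), (nat_lit 0), (nat_lit 0), (nat_lit 0), (nat_lit 6651), (nat_lit 5995), (nat_lit 0), (nat_lit 425562827134), (nat_lit 0), (nat_lit 0), [], Pd.none, Pd.none, (nat_lit 0), (nat_lit 1), (nat_lit 0), (nat_lit 0), (nat_lit 3), (nat_lit 0), [⟨(nat_lit 0), (nat_lit 53), (nat_lit 53), (nat_lit 100), (nat_lit 394220189)⟩], [⟨(nat_lit 1), (nat_lit 100), (nat_lit 38), (nat_lit 94), (nat_lit 115989813)⟩], [], [],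
 ⟨⟨[(nat_lit 40), (nat_lit 80), (nat_lit 120)], [(nat_lit 0), (nat_lit 2514), (nat_lit 4610)], [((nat_lit 0), (nat_lit 0), (nat_lit 0)), ((nat_lit 1000), (nat_lit 446), (nat_lit 804)), ((nat_lit 1000), (nat_lit 443), (nat_lit 819))], ((nat_lit 44), (nat_lit 100), (nat_lit 96))⟩, (nat_lit 406073), (nat_lit 300), (nat_lit 362), (nat_lit 50800029), (nat_lit 498872), [(nat_lit 2032000171), (nat_lit 4992903828), (nat_lit 7968000000)], [], [(nat_lit 37256789697), (nat_lit 37673466520), (nat_lit 41331749290), (nat_lit 42075781785), (nat_lit 34396233816), (nat_lit 34714403493), (nat_lit 36832808115), (nat_lit 37064172414)], (nat_lit 1271251), (nat_lit 1271251), (nat_lit 1271251), (nat_lit 1271251), (nat_lit 230000), (nat_lit 1643126), [(nat_lit 490000), (nat_lit 1100000), (nat_lit 1785001)], [(nat_lit 4), (nat_lit 51), (nat_lit 272), (nat_lit 60), (nat_lit 8)]⟩,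
 ⟨⟨[(nat_lit 40), (nat_lit 100), (nat_lit 140)], [(nat_lit 0), (nat_lit 2396), (nat_lit 4896)], [((nat_lit 0), (nat_lit 0), (nat_lit 0)), ((nat_lit 1000), (nat_lit 625), (nat_lit 623)), ((nat_lit 1000), (nat_lit 625), (nat_lit 975))], ((nat_lit 63), (nat_lit 99), (nat_lit 100))⟩, (nat_lit 873897), (nat_lit 419), (nat_lit 419), (nat_lit 0), (nat_lit 505986), [(nat_lit 2032000000), (nat_lit 6250000000), (nat_lit 9842000000)], [], [(nat_lit 36784062674), (nat_lit 38167857706), (nat_lit 40661785816), (nat_lit 41675001950), (nat_lit 33376212309), (nat_lit 34394077258), (nat_lit 36554550656), (nat_lit 37436980451)], (nat_lit 1271251), (nat_lit 1271251), (nat_lit 1271251), (nat_lit 1271251), (nat_lit 111251), (nat_lit 1100000), [(nat_lit 490000), (nat_lit 1427501), (nat_lit 1271251)], [(nat_lit 5), (nat_lit 55), (nat_lit 249), (nat_lit 40), (nat_lit 6)]⟩,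
 Rw.none⟩)) (.trZ (nat_lit 0) (nat_lit 1) (nat_lit 3) (nat_lit 73) (nat_lit 38) (nat_lit 100) (nat_lit 310) (.trZ (nat_lit 0) (nat_lit 2) (nat_lit 4) (nat_lit 100) (nat_lit 34) (nat_lit 81) (nat_lit 60) (.trX (nat_lit 4) (nat_lit 0) (nat_lit 2) (nat_lit 31) (nat_lit 100) (nat_lit 95) (nat_lit 210) (.leaf ⟨(nat_lit 0), (nat_lit 1000), (nat_lit 0), (nat_lit 0), (nat_lit 0), (nat_lit 6501), (nat_lit 5953), (nat_lit 0), (nat_lit 10599208660898), (nat_lit 0), (nat_lit 0), [], Pd.none, Pd.none, (nat_lit 0), (nat_lit 1), (nat_lit 0), (nat_lit 0), (nat_lit 3), (nat_lit 0), [⟨(nat_lit 0), (nat_lit 70), (nat_lit 36), (nat_lit 100), (nat_lit 358979233)⟩], [⟨(nat_lit 1), (nat_lit 100), (nat_lit 22), (nat_lit 95), (nat_lit 343777313)⟩], [], [],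
 ⟨⟨[(nat_lit 40), (nat_lit 80), (nat_lit 120)], [(nat_lit 0), (nat_lit 3225), (nat_lit 5518)], [((nat_lit 0), (nat_lit 0), (nat_lit 0)), ((nat_lit 1000), (nat_lit 321), (nat_lit 877)), ((nat_lit 1000), (nat_lit 317), (nat_lit 896))], ((nat_lit 31), (nat_lit 100), (nat_lit 95))⟩, (nat_lit 339253), (nat_lit 300), (nat_lit 374), (nat_lit 50800017), (nat_lit 578321), [(nat_lit 2032000005), (nat_lit 5054177851), (nat_lit 7968000000)], [], [(nat_lit 37552828263), (nat_lit 37939989857), (nat_lit 40222665964), (nat_lit 40884802892), (nat_lit 35462812756), (nat_lit 35775328114), (nat_lit 37600310016), (nat_lit 37839915162)], (nat_lit 1271251), (nat_lit 1271251), (nat_lit 1271251), (nat_lit 1271251), (nat_lit 356250), (nat_lit 1500001), [(nat_lit 490000), (nat_lit 1100000), (nat_lit 1785001)], [(nat_lit 4), (nat_lit 51), (nat_lit 272), (nat_lit 60), (nat_lit 7)]⟩,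
 ⟨⟨[(nat_lit 40), (nat_lit 100), (nat_lit 140)], [(nat_lit 0), (nat_lit 2396), (nat_lit 4896)], [((nat_lit 0), (nat_lit 0), (nat_lit 0)), ((nat_lit 1000), (nat_lit 625), (nat_lit 623)), ((nat_lit 1000), (nat_lit 625), (nat_lit 975))], ((nat_lit 63), (nat_lit 99), (nat_lit 100))⟩, (nat_lit 851208), (nat_lit 447), (nat_lit 447), (nat_lit 0), (nat_lit 590654), [(nat_lit 2032000000), (nat_lit 6250000000), (nat_lit 9842000000)], [], [(nat_lit 37579027044), (nat_lit 39331243278), (nat_lit 40906453720), (nat_lit 42254467263), (nat_lit 34127405909), (nat_lit 35472082725), (nat_lit 36841620416), (nat_lit 38016085580)], (nat_lit 1271251), (nat_lit 1271251), (nat_lit 1271251), (nat_lit 1271251), (nat_lit 111251), (nat_lit 1100000), [(nat_lit 490000), (nat_lit 1427501), (nat_lit 1271251)], [(nat_lit 5), (nat_lit 55), (nat_lit 249), (nat_lit 40), (nat_lit 6)]⟩,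
 Rw.none⟩)))))) (.trZ (nat_lit 0) (nat_lit 2) (nat_lit 4) (nat_lit 100) (nat_lit 46) (nat_lit 76) (nat_lit 60) (.trZ (nat_lit 1) (nat_lit 2) (nat_lit 5) (nat_lit 100) (nat_lit 63) (nat_lit 61) (nat_lit 30) (.spl (nat_lit 0) (nat_lit 390) (.ord (.spl (nat_lit 0) (nat_lit 385) (.ord (.leaf ⟨(nat_lit 0), (nat_lit 930), (nat_lit 0), (nat_lit 70), (nat_lit 3257), (nat_lit 7767), (nat_lit 5176), (nat_lit 930), (nat_lit 6480171), (nat_lit 0), (nat_lit 0), [], Pd.none, Pd.none, (nat_lit 0), (nat_lit 1), (nat_lit 0), (nat_lit 0), (nat_lit 3), (nat_lit 0), [], [], [], [],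
 ⟨⟨[(nat_lit 40), (nat_lit 100), (nat_lit 140)], [(nat_lit 0), (nat_lit 3610), (nat_lit 5926)], [((nat_lit 0), (nat_lit 0), (nat_lit 0)), ((nat_lit 1000), (nat_lit 436), (nat_lit 895)), ((nat_lit 1000), (nat_lit 436), (nat_lit 905))], ((nat_lit 44), (nat_lit 99), (nat_lit 100))⟩, (nat_lit 384393), (nat_lit 300), (nat_lit 330), (nat_lit 54029194), (nat_lit 379459), [(nat_lit 2123774420), (nat_lit 6674494149), (nat_lit 9842000000)], [], [(nat_lit 37877982094), (nat_lit 38120330815), (nat_lit 42439473187), (nat_lit 42843287431), (nat_lit 34875224948), (nat_lit 35052665993), (nat_lit 38285596211), (nat_lit 38587776718)], (nat_lit 1271251), (nat_lit 1271251), (nat_lit 1271251), (nat_lit 1271251), (nat_lit 356250), (nat_lit 1805001), [(nat_lit 490000), (nat_lit 1427501), (nat_lit 1271251)], [(nat_lit 5), (nat_lit 55), (nat_lit 289), (nat_lit 75), (nat_lit 7)]⟩,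
 ⟨⟨[(nat_lit 40), (nat_lit 100), (nat_lit 160)], [(nat_lit 0), (nat_lit 2396), (nat_lit 6144)], [((nat_lit 0), (nat_lit 0), (nat_lit 0)), ((nat_lit 1000), (nat_lit 625), (nat_lit 623)), ((nat_lit 1000), (nat_lit 625), (nat_lit 975))], ((nat_lit 61), (nat_lit 92), (nat_lit 100))⟩, (nat_lit 1237095), (nat_lit 386), (nat_lit 386), (nat_lit 0), (nat_lit 385009), [(nat_lit 2032000000), (nat_lit 6250000000), (nat_lit 11872000000)], [], [(nat_lit 33636888217), (nat_lit 35054488780), (nat_lit 38465131384), (nat_lit 39505781894), (nat_lit 31187599088), (nat_lit 32055199612), (nat_lit 35076746000), (nat_lit 36001526370)], (nat_lit 1271251), (nat_lit 1271251), (nat_lit 1271251), (nat_lit 1271251), (nat_lit 169688), (nat_lit 1100000), [(nat_lit 490000), (nat_lit 1427501), (nat_lit 1271251)], [(nat_lit 6), (nat_lit 56), (nat_lit 373), (nat_lit 150), (nat_lit 9)]⟩,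
 ⟨⟨[(nat_lit 140), (nat_lit 180), (nat_lit 200)], [(nat_lit 0), (nat_lit 608), (nat_lit 3317)], [((nat_lit 0), (nat_lit 0), (nat_lit 0)), ((nat_lit 913), (nat_lit 1000), (nat_lit 217)), ((nat_lit 385), (nat_lit 1000), (nat_lit 814))], ((nat_lit 0), (nat_lit 0), (nat_lit 0))⟩, (nat_lit 0), (nat_lit 300), (nat_lit 1938), (nat_lit 5740000), (nat_lit 3103742), [(nat_lit 688940000), (nat_lit 984060000), (nat_lit 1148000000)], [], [(nat_lit 5282747374), (nat_lit 5204096757), (nat_lit 4573262848), (nat_lit 4495894933), (nat_lit 4568498960), (nat_lit 4490111470), (nat_lit 4461340663), (nat_lit 4685387730)], (nat_lit 936250), (nat_lit 1100000), (nat_lit 356250), (nat_lit 1805001), (nat_lit 169688), (nat_lit 1100000), [(nat_lit 1977501), (nat_lit 1271251), (nat_lit 1271251)], [(nat_lit 32), (nat_lit 67), (nat_lit 556), (nat_lit 150), (nat_lit 12)]⟩⟩)) (.trZ (nat_lit 0) (nat_lit 1) (nat_lit 3) (nat_lit 70) (nat_lit 44) (nat_lit 100) (nat_lit 300) (.trZ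 (nat_lit 0) (nat_lit 2) (nat_lit 4) (nat_lit 100) (nat_lit 40) (nat_lit 81) (nat_lit 70) (.trX (nat_lit 4) (nat_lit 0) (nat_lit 2) (nat_lit 39) (nat_lit 100) (nat_lit 100) (nat_lit 240) (.leaf ⟨(nat_lit 0), (nat_lit 942), (nat_lit 0), (nat_lit 58), (nat_lit 0), (nat_lit 6488), (nat_lit 5612), (nat_lit 775), (nat_lit 944916), (nat_lit 0), (nat_lit 0), [], Pd.none, Pd.none, (nat_lit 0), (nat_lit 1), (nat_lit 0), (nat_lit 0), (nat_lit 3), (nat_lit 0), [], [⟨(nat_lit 1), (nat_lit 100), (nat_lit 35), (nat_lit 97), (nat_lit 101708455)⟩], [], [⟨(nat_lit 0), (nat_lit 100), (nat_lit 68), (nat_lit 60), (nat_lit 59754172)⟩],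
 ⟨⟨[(nat_lit 40), (nat_lit 80), (nat_lit 120)], [(nat_lit 0), (nat_lit 2833), (nat_lit 5014)], [((nat_lit 0), (nat_lit 0), (nat_lit 0)), ((nat_lit 1000), (nat_lit 389), (nat_lit 842)), ((nat_lit 1000), (nat_lit 387), (nat_lit 852))], ((nat_lit 39), (nat_lit 100), (nat_lit 100))⟩, (nat_lit 0), (nat_lit 299), (nat_lit 299), (nat_lit 0), (nat_lit 422502), [(nat_lit 2496704745), (nat_lit 4688000312), (nat_lit 7968000000)], [], [(nat_lit 34914175943), (nat_lit 35282600868), (nat_lit 40336812121), (nat_lit 40608020382), (nat_lit 33991200825), (nat_lit 34273197352), (nat_lit 38162152746), (nat_lit 38372528060)], (nat_lit 1271251), (nat_lit 1271251), (nat_lit 1271251), (nat_lit 1271251), (nat_lit 422188), (nat_lit 1734376), [(nat_lit 490000), (nat_lit 1100000), (nat_lit 1785001)], [(nat_lit 4), (nat_lit 51), (nat_lit 272), (nat_lit 60), (nat_lit 7)]⟩,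
 ⟨⟨[(nat_lit 40), (nat_lit 100), (nat_lit 160)], [(nat_lit 0), (nat_lit 2396), (nat_lit 6144)], [((nat_lit 0), (nat_lit 0), (nat_lit 0)), ((nat_lit 1000), (nat_lit 625), (nat_lit 623)), ((nat_lit 1000), (nat_lit 625), (nat_lit 975))], ((nat_lit 61), (nat_lit 92), (nat_lit 100))⟩, (nat_lit 1008985), (nat_lit 400), (nat_lit 400), (nat_lit 0), (nat_lit 430197), [(nat_lit 2032000000), (nat_lit 6250000000), (nat_lit 11872000000)], [], [(nat_lit 35668370887), (nat_lit 37395600037), (nat_lit 40293696428), (nat_lit 41581558772), (nat_lit 32682061038), (nat_lit 33896207435), (nat_lit 36457513320), (nat_lit 37598557398)], (nat_lit 1271251), (nat_lit 1271251), (nat_lit 1271251), (nat_lit 1271251), (nat_lit 169688), (nat_lit 1100000), [(nat_lit 490000), (nat_lit 1427501), (nat_lit 1271251)], [(nat_lit 6), (nat_lit 56), (nat_lit 373), (nat_lit 150), (nat_lit 9)]⟩,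
 ⟨⟨[(nat_lit 140), (nat_lit 180), (nat_lit 200)], [(nat_lit 0), (nat_lit 608), (nat_lit 3317)], [((nat_lit 0), (nat_lit 0), (nat_lit 0)), ((nat_lit 913), (nat_lit 1000), (nat_lit 217)), ((nat_lit 385), (nat_lit 1000), (nat_lit 814))], ((nat_lit 0), (nat_lit 0), (nat_lit 0))⟩, (nat_lit 0), (nat_lit 300), (nat_lit 2155), (nat_lit 4756000), (nat_lit 3553651), [(nat_lit 570836000), (nat_lit 815364000), (nat_lit 951200000)], [], [(nat_lit 4305031072), (nat_lit 4239952171), (nat_lit 3787616796), (nat_lit 3723385411), (nat_lit 3713347192), (nat_lit 3648277536), (nat_lit 3643935266), (nat_lit 3829251216)], (nat_lit 936250), (nat_lit 1100000), (nat_lit 422188), (nat_lit 1734376), (nat_lit 169688), (nat_lit 1100000), [(nat_lit 1977501), (nat_lit 1271251), (nat_lit 1271251)], [(nat_lit 32), (nat_lit 67), (nat_lit 609), (nat_lit 150), (nat_lit 13)]⟩⟩)))))) (.trZ (nat_lit 0) (nat_lit 1) (nat_lit 3) (nat_lit 73) (nat_lit 38) (nat_lit 100) (nat_lit 310) (.trZ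 (nat_lit 0) (nat_lit 2) (nat_lit 4) (nat_lit 100) (nat_lit 33) (nat_lit 85) (nat_lit 80) (.trX (nat_lit 4) (nat_lit 0) (nat_lit 2) (nat_lit 31) (nat_lit 100) (nat_lit 99) (nat_lit 230) (.leaf ⟨(nat_lit 0), (nat_lit 1000), (nat_lit 0), (nat_lit 0), (nat_lit 0), (nat_lit 6754), (nat_lit 5581), (nat_lit 0), (nat_lit 2091265225661), (nat_lit 0), (nat_lit 0), [], Pd.none, Pd.none, (nat_lit 0), (nat_lit 1), (nat_lit 0), (nat_lit 0), (nat_lit 3), (nat_lit 0), [⟨(nat_lit 0), (nat_lit 70), (nat_lit 36), (nat_lit 100), (nat_lit 99682337)⟩], [⟨(nat_lit 1), (nat_lit 100), (nat_lit 22), (nat_lit 97), (nat_lit 524852667)⟩], [], [],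
 ⟨⟨[(nat_lit 40), (nat_lit 80), (nat_lit 120)], [(nat_lit 0), (nat_lit 3225), (nat_lit 5518)], [((nat_lit 0), (nat_lit 0), (nat_lit 0)), ((nat_lit 1000), (nat_lit 321), (nat_lit 877)), ((nat_lit 1000), (nat_lit 317), (nat_lit 896))], ((nat_lit 31), (nat_lit 100), (nat_lit 99))⟩, (nat_lit 209531), (nat_lit 300), (nat_lit 317), (nat_lit 56765067), (nat_lit 503728), [(nat_lit 2185776679), (nat_lit 4993896161), (nat_lit 7968000000)], [], [(nat_lit 35812978427), (nat_lit 36282340631), (nat_lit 39193664139), (nat_lit 39931010016), (nat_lit 34717016671), (nat_lit 35087073947), (nat_lit 37252062493), (nat_lit 37799526941)], (nat_lit 1271251), (nat_lit 1271251), (nat_lit 1271251), (nat_lit 1271251), (nat_lit 490000), (nat_lit 1661876), [(nat_lit 490000), (nat_lit 1100000), (nat_lit 1785001)], [(nat_lit 4), (nat_lit 51), (nat_lit 272), (nat_lit 60), (nat_lit 7)]⟩,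
 ⟨⟨[(nat_lit 40), (nat_lit 100), (nat_lit 160)], [(nat_lit 0), (nat_lit 2396), (nat_lit 6144)], [((nat_lit 0), (nat_lit 0), (nat_lit 0)), ((nat_lit 1000), (nat_lit 625), (nat_lit 623)), ((nat_lit 1000), (nat_lit 625), (nat_lit 975))], ((nat_lit 61), (nat_lit 92), (nat_lit 100))⟩, (nat_lit 915412), (nat_lit 432), (nat_lit 432), (nat_lit 0), (nat_lit 515882), [(nat_lit 2032000000), (nat_lit 6250000000), (nat_lit 11872000000)], [], [(nat_lit 36582946028), (nat_lit 38822500718), (nat_lit 40838244781), (nat_lit 42551689577), (nat_lit 33984136787), (nat_lit 35248069076), (nat_lit 37033900502), (nat_lit 38552324604)], (nat_lit 1271251), (nat_lit 1271251), (nat_lit 1271251), (nat_lit 1271251), (nat_lit 169688), (nat_lit 1100000), [(nat_lit 490000), (nat_lit 1427501), (nat_lit 1271251)], [(nat_lit 6), (nat_lit 56), (nat_lit 373), (nat_lit 150), (nat_lit 9)]⟩,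
 Rw.none⟩))))))))
noncomputable def c15_27 : Tr Lf :=
 (.spl (nat_lit 1) (nat_lit 380) (.leaf ⟨(nat_lit 0), (nat_lit 691), (nat_lit 0), (nat_lit 309), (nat_lit 0), (nat_lit 6879), (nat_lit 6746), (nat_lit 6311), (nat_lit 0), (nat_lit 0), (nat_lit 0), [], Pd.none, Pd.none, (nat_lit 0), (nat_lit 1), (nat_lit 0), (nat_lit 0), (nat_lit 4), (nat_lit 0), [⟨(nat_lit 0), (nat_lit 69), (nat_lit 41), (nat_lit 100), (nat_lit 122449551)⟩], [⟨(nat_lit 0), (nat_lit 100), (nat_lit 33), (nat_lit 85), (nat_lit 429060827)⟩, ⟨(nat_lit 0), (nat_lit 100), (nat_lit 48), (nat_lit 71), (nat_lit 227912485)⟩], [], [⟨(nat_lit 1), (nat_lit 100), (nat_lit 69), (nat_lit 81), (nat_lit 600644)⟩],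
 ⟨⟨[(nat_lit 40), (nat_lit 100), (nat_lit 140)], [(nat_lit 0), (nat_lit 3610), (nat_lit 5926)], [((nat_lit 0), (nat_lit 0), (nat_lit 0)), ((nat_lit 1000), (nat_lit 436), (nat_lit 895)), ((nat_lit 1000), (nat_lit 436), (nat_lit 905))], ((nat_lit 44), (nat_lit 99), (nat_lit 100))⟩, (nat_lit 460682), (nat_lit 300), (nat_lit 375), (nat_lit 50800001), (nat_lit 479571), [(nat_lit 2032000007), (nat_lit 6593349442), (nat_lit 9842000000)], [], [(nat_lit 39080137317), (nat_lit 40008507088), (nat_lit 42658620786), (nat_lit 43452350120), (nat_lit 35766839674), (nat_lit 36446306923), (nat_lit 38324271886), (nat_lit 38810441625)], (nat_lit 1271251), (nat_lit 1271251), (nat_lit 1271251), (nat_lit 1271251), (nat_lit 230000), (nat_lit 1791876), [(nat_lit 490000), (nat_lit 1427501), (nat_lit 1271251)], [(nat_lit 5), (nat_lit 55), (nat_lit 289), (nat_lit 75), (nat_lit 7)]⟩,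
 ⟨⟨[(nat_lit 40), (nat_lit 100), (nat_lit 160)], [(nat_lit 0), (nat_lit 2396), (nat_lit 6144)], [((nat_lit 0), (nat_lit 0), (nat_lit 0)), ((nat_lit 1000), (nat_lit 625), (nat_lit 623)), ((nat_lit 1000), (nat_lit 625), (nat_lit 975))], ((nat_lit 61), (nat_lit 92), (nat_lit 100))⟩, (nat_lit 439406), (nat_lit 364), (nat_lit 364), (nat_lit 0), (nat_lit 536657), [(nat_lit 2032000000), (nat_lit 6250000000), (nat_lit 11872000000)], [], [(nat_lit 35611899615), (nat_lit 36317814016), (nat_lit 39903062316), (nat_lit 40718044082), (nat_lit 36872037185), (nat_lit 37738554335), (nat_lit 40409567999), (nat_lit 41029267263)], (nat_lit 1271251), (nat_lit 1271251), (nat_lit 1271251), (nat_lit 1271251), (nat_lit 1100000), (nat_lit 2213126), [(nat_lit 490000), (nat_lit 1427501), (nat_lit 1271251)], [(nat_lit 6), (nat_lit 56), (nat_lit 401), (nat_lit 175), (nat_lit 9)]⟩,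
 ⟨⟨[(nat_lit 140), (nat_lit 180), (nat_lit 200)], [(nat_lit 0), (nat_lit 0), (nat_lit 2835)], [((nat_lit 0), (nat_lit 0), (nat_lit 0)), ((nat_lit 0), (nat_lit 0), (nat_lit 0)), ((nat_lit 363), (nat_lit 1000), (nat_lit 798))], ((nat_lit 0), (nat_lit 0), (nat_lit 0))⟩, (nat_lit 0), (nat_lit 300), (nat_lit 413), (nat_lit 25338000), (nat_lit 0), [(nat_lit 3041178000), (nat_lit 4343922000), (nat_lit 5067600000)], [], [(nat_lit 19535554566), (nat_lit 18554720196), (nat_lit 14033950209), (nat_lit 13055374754), (nat_lit 18955397127), (nat_lit 17883741270), (nat_lit 13008377033), (nat_lit 12177388268)], (nat_lit 0), (nat_lit 0), (nat_lit 0), (nat_lit 0), (nat_lit 0), (nat_lit 0), [], [(nat_lit 32), (nat_lit 67), (nat_lit 401), (nat_lit 175), (nat_lit 9)]⟩⟩) (.trZ (nat_lit 0) (nat_lit 1) (nat_lit 3) (nat_lit 56) (nat_lit 56) (nat_lit 100) (nat_lit 320) (.trX (nat_lit 5) (nat_lit 1) (nat_lit 2) (nat_lit 44) (nat_lit 99) (nat_lit 100) (nat_lit 250) (.leaf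 ⟨(nat_lit 23), (nat_lit 686), (nat_lit 0), (nat_lit 291), (nat_lit 0), (nat_lit 6601), (nat_lit 6204), (nat_lit 7223), (nat_lit 18489333774122), (nat_lit 0), (nat_lit 92000), [((nat_lit 400), [((nat_lit 43), (nat_lit 5), (nat_lit 23))])], ⟨(nat_lit 9), false, true, false, (nat_lit 376), (nat_lit 0), (nat_lit 2237), [(nat_lit 1873203), (nat_lit 1872188), (nat_lit 1895050), (nat_lit 1896261), (nat_lit 1990045), (nat_lit 1974999), (nat_lit 2012658), (nat_lit 1999837)]⟩, ⟨(nat_lit 3), true, false, true, (nat_lit 141), (nat_lit 0), (nat_lit 2237), [(nat_lit 1177178), (nat_lit 1196337), (nat_lit 1220873), (nat_lit 1244484), (nat_lit 1480164), (nat_lit 1462492), (nat_lit 1525715), (nat_lit 1512494)]⟩, (nat_lit 4944982), (nat_lit 32375676), (nat_lit 28746835), (nat_lit 5877489), (nat_lit 4), (nat_lit 0), [⟨(nat_lit 0), (nat_lit 53), (nat_lit 53), (nat_lit 100), (nat_lit 133758235)⟩], [⟨(nat_lit 0), (nat_lit 100), (nat_lit 33), (nat_lit 85), (nat_lit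 843397357)⟩], [], [],
 ⟨⟨[(nat_lit 40), (nat_lit 100), (nat_lit 140)], [(nat_lit 0), (nat_lit 3610), (nat_lit 5926)], [((nat_lit 0), (nat_lit 0), (nat_lit 0)), ((nat_lit 1000), (nat_lit 436), (nat_lit 895)), ((nat_lit 1000), (nat_lit 436), (nat_lit 905))], ((nat_lit 44), (nat_lit 99), (nat_lit 100))⟩, (nat_lit 279191), (nat_lit 300), (nat_lit 431), (nat_lit 45549151), (nat_lit 582395), [(nat_lit 1821966021), (nat_lit 5492686378), (nat_lit 8031366400)], [(nat_lit 0), (nat_lit 0), (nat_lit 0)], [(nat_lit 40255596640), (nat_lit 40843916076), (nat_lit 42215346174), (nat_lit 42681100280), (nat_lit 36710529716), (nat_lit 37136166056), (nat_lit 38111344063), (nat_lit 38436403399)], (nat_lit 1271251), (nat_lit 1271251), (nat_lit 1271251), (nat_lit 1271251), (nat_lit 230000), (nat_lit 1791876), [(nat_lit 490000), (nat_lit 1427501), (nat_lit 1271251)], [(nat_lit 5), (nat_lit 55), (nat_lit 289), (nat_lit 75), (nat_lit 7)]⟩,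
 ⟨⟨[(nat_lit 40), (nat_lit 100), (nat_lit 140)], [(nat_lit 0), (nat_lit 3610), (nat_lit 5926)], [((nat_lit 0), (nat_lit 0), (nat_lit 0)), ((nat_lit 1000), (nat_lit 436), (nat_lit 895)), ((nat_lit 1000), (nat_lit 436), (nat_lit 905))], ((nat_lit 44), (nat_lit 99), (nat_lit 100))⟩, (nat_lit 418742), (nat_lit 346), (nat_lit 346), (nat_lit 0), (nat_lit 582395), [(nat_lit 1985264000), (nat_lit 6106250000), (nat_lit 9615634000)], [], [(nat_lit 33457545831), (nat_lit 34415436008), (nat_lit 37000337543), (nat_lit 37861971388), (nat_lit 34021689905), (nat_lit 34951358550), (nat_lit 37135971637), (nat_lit 37864175999)], (nat_lit 1271251), (nat_lit 1271251), (nat_lit 1271251), (nat_lit 1271251), (nat_lit 1100000), (nat_lit 1870626), [(nat_lit 490000), (nat_lit 1427501), (nat_lit 1271251)], [(nat_lit 5), (nat_lit 55), (nat_lit 289), (nat_lit 75), (nat_lit 7)]⟩,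
 ⟨⟨[(nat_lit 140), (nat_lit 180), (nat_lit 200)], [(nat_lit 0), (nat_lit 0), (nat_lit 2835)], [((nat_lit 0), (nat_lit 0), (nat_lit 0)), ((nat_lit 0), (nat_lit 0), (nat_lit 0)), ((nat_lit 363), (nat_lit 1000), (nat_lit 798))], ((nat_lit 0), (nat_lit 0), (nat_lit 0))⟩, (nat_lit 0), (nat_lit 300), (nat_lit 413), (nat_lit 23862000), (nat_lit 0), [(nat_lit 2864022000), (nat_lit 4090878000), (nat_lit 4772400000)], [], [(nat_lit 18519422922), (nat_lit 17351317560), (nat_lit 11994628248), (nat_lit 10832631146), (nat_lit 17523217943), (nat_lit 16301255022), (nat_lit 11381870469), (nat_lit 10465664681)], (nat_lit 0), (nat_lit 0), (nat_lit 0), (nat_lit 0), (nat_lit 0), (nat_lit 0), [], [(nat_lit 32), (nat_lit 67), (nat_lit 401), (nat_lit 175), (nat_lit 9)]⟩⟩))))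
noncomputable def c15_28 : Tr Lf :=
 (.stt (nat_lit 1) (.spl (nat_lit 4) (nat_lit 120) (.spl (nat_lit 0) (nat_lit 390) (.ord (.leaf ⟨(nat_lit 0), (nat_lit 929), (nat_lit 0), (nat_lit 71), (nat_lit 298), (nat_lit 5616), (nat_lit 7312), (nat_lit 867), (nat_lit 7343), (nat_lit 0), (nat_lit 0), [], Pd.none, Pd.none, (nat_lit 0), (nat_lit 1), (nat_lit 0), (nat_lit 0), (nat_lit 4), (nat_lit 0), [], [⟨(nat_lit 0), (nat_lit 100), (nat_lit 32), (nat_lit 89), (nat_lit 38733208)⟩], [⟨(nat_lit 1), (nat_lit 92), (nat_lit 61), (nat_lit 100), (nat_lit 240086665)⟩], [⟨(nat_lit 1), (nat_lit 100), (nat_lit 69), (nat_lit 81), (nat_lit 14434011)⟩, ⟨(nat_lit 1), (nat_lit 100), (nat_lit 69), (nat_lit 81), (nat_lit 14434011)⟩],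
 ⟨⟨[(nat_lit 40), (nat_lit 100), (nat_lit 140)], [(nat_lit 0), (nat_lit 3610), (nat_lit 5926)], [((nat_lit 0), (nat_lit 0), (nat_lit 0)), ((nat_lit 1000), (nat_lit 436), (nat_lit 895)), ((nat_lit 1000), (nat_lit 436), (nat_lit 905))], ((nat_lit 44), (nat_lit 99), (nat_lit 100))⟩, (nat_lit 678102), (nat_lit 205), (nat_lit 205), (nat_lit 0), (nat_lit 0), [(nat_lit 2343932003), (nat_lit 6250000005), (nat_lit 9842000000)], [], [(nat_lit 34554349540), (nat_lit 35203862108), (nat_lit 39715657416), (nat_lit 40187697666), (nat_lit 32302058537), (nat_lit 32843294137), (nat_lit 37052676468), (nat_lit 37493453400)], (nat_lit 0), (nat_lit 0), (nat_lit 0), (nat_lit 0), (nat_lit 0), (nat_lit 0), [], [(nat_lit 5), (nat_lit 55), (nat_lit 238), (nat_lit 30), (nat_lit 6)]⟩,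
 ⟨⟨[(nat_lit 40), (nat_lit 100), (nat_lit 160)], [(nat_lit 0), (nat_lit 2396), (nat_lit 6144)], [((nat_lit 0), (nat_lit 0), (nat_lit 0)), ((nat_lit 1000), (nat_lit 625), (nat_lit 623)), ((nat_lit 1000), (nat_lit 625), (nat_lit 975))], ((nat_lit 61), (nat_lit 92), (nat_lit 100))⟩, (nat_lit 0), (nat_lit 335), (nat_lit 335), (nat_lit 0), (nat_lit 440932), [(nat_lit 2032000000), (nat_lit 6250000000), (nat_lit 11872000000)], [], [(nat_lit 38035894820), (nat_lit 39467698365), (nat_lit 42575848160), (nat_lit 43838963288), (nat_lit 39291757884), (nat_lit 40638117125), (nat_lit 42912979050), (nat_lit 43863690227)], (nat_lit 1271251), (nat_lit 1271251), (nat_lit 1271251), (nat_lit 1271251), (nat_lit 1100000), (nat_lit 2213126), [(nat_lit 490000), (nat_lit 1427501), (nat_lit 1271251)], [(nat_lit 6), (nat_lit 56), (nat_lit 401), (nat_lit 175), (nat_lit 9)]⟩,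
 ⟨⟨[(nat_lit 140), (nat_lit 180), (nat_lit 200)], [(nat_lit 0), (nat_lit 0), (nat_lit 2835)], [((nat_lit 0), (nat_lit 0), (nat_lit 0)), ((nat_lit 0), (nat_lit 0), (nat_lit 0)), ((nat_lit 363), (nat_lit 1000), (nat_lit 798))], ((nat_lit 0), (nat_lit 0), (nat_lit 0))⟩, (nat_lit 0), (nat_lit 300), (nat_lit 2109), (nat_lit 5822000), (nat_lit 3551280), [(nat_lit 698782000), (nat_lit 998118000), (nat_lit 1164400000)], [], [(nat_lit 5078942250), (nat_lit 4934246602), (nat_lit 4687838172), (nat_lit 4545172896), (nat_lit 4806161239), (nat_lit 4658675653), (nat_lit 4594537109), (nat_lit 4991433429)], (nat_lit 780000), (nat_lit 1100000), (nat_lit 230000), (nat_lit 780000), (nat_lit 1100000), (nat_lit 2213126), [(nat_lit 1977501), (nat_lit 1271251), (nat_lit 1271251)], [(nat_lit 32), (nat_lit 67), (nat_lit 599), (nat_lit 150), (nat_lit 13)]⟩⟩)) (.trZ (nat_lit 0) (nat_lit 1) (nat_lit 3) (nat_lit 73) (nat_lit 38) (nat_lit 100) (nat_lit 310) (.trZ (nat_lit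 0) (nat_lit 2) (nat_lit 4) (nat_lit 100) (nat_lit 34) (nat_lit 81) (nat_lit 60) (.leaf ⟨(nat_lit 0), (nat_lit 1000), (nat_lit 0), (nat_lit 0), (nat_lit 0), (nat_lit 6135), (nat_lit 6995), (nat_lit 0), (nat_lit 13724), (nat_lit 0), (nat_lit 0), [], Pd.none, Pd.none, (nat_lit 0), (nat_lit 1), (nat_lit 0), (nat_lit 0), (nat_lit 4), (nat_lit 0), [], [⟨(nat_lit 0), (nat_lit 100), (nat_lit 23), (nat_lit 91), (nat_lit 54727948)⟩], [⟨(nat_lit 1), (nat_lit 92), (nat_lit 61), (nat_lit 100), (nat_lit 324127494)⟩], [⟨(nat_lit 1), (nat_lit 100), (nat_lit 64), (nat_lit 85), (nat_lit 66342524)⟩],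
 ⟨⟨[(nat_lit 40), (nat_lit 80), (nat_lit 120)], [(nat_lit 0), (nat_lit 3225), (nat_lit 5518)], [((nat_lit 0), (nat_lit 0), (nat_lit 0)), ((nat_lit 1000), (nat_lit 321), (nat_lit 877)), ((nat_lit 1000), (nat_lit 317), (nat_lit 896))], ((nat_lit 31), (nat_lit 100), (nat_lit 99))⟩, (nat_lit 0), (nat_lit 169), (nat_lit 169), (nat_lit 0), (nat_lit 0), [(nat_lit 2452061548), (nat_lit 4688000026), (nat_lit 7968000000)], [], [(nat_lit 36142448229), (nat_lit 36842300131), (nat_lit 40948609235), (nat_lit 41479482255), (nat_lit 34644382996), (nat_lit 35202259130), (nat_lit 39068209437), (nat_lit 39568090370)], (nat_lit 0), (nat_lit 0), (nat_lit 0), (nat_lit 0), (nat_lit 0), (nat_lit 0), [], [(nat_lit 4), (nat_lit 51), (nat_lit 238), (nat_lit 30), (nat_lit 6)]⟩,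
 ⟨⟨[(nat_lit 40), (nat_lit 100), (nat_lit 160)], [(nat_lit 0), (nat_lit 2396), (nat_lit 6144)], [((nat_lit 0), (nat_lit 0), (nat_lit 0)), ((nat_lit 1000), (nat_lit 625), (nat_lit 623)), ((nat_lit 1000), (nat_lit 625), (nat_lit 975))], ((nat_lit 61), (nat_lit 92), (nat_lit 100))⟩, (nat_lit 151298), (nat_lit 358), (nat_lit 358), (nat_lit 0), (nat_lit 515823), [(nat_lit 2032000000), (nat_lit 6250000000), (nat_lit 11872000000)], [], [(nat_lit 38464068354), (nat_lit 39825060105), (nat_lit 41661352938), (nat_lit 43315156228), (nat_lit 38983303958), (nat_lit 40654141274), (nat_lit 42093345682), (nat_lit 43345157421)], (nat_lit 1271251), (nat_lit 1271251), (nat_lit 1271251), (nat_lit 1271251), (nat_lit 1100000), (nat_lit 2213126), [(nat_lit 490000), (nat_lit 1427501), (nat_lit 1271251)], [(nat_lit 6), (nat_lit 56), (nat_lit 401), (nat_lit 175), (nat_lit 9)]⟩,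
 Rw.none⟩)))) (.spl (nat_lit 6) (nat_lit 172) (.leaf ⟨(nat_lit 10), (nat_lit 990), (nat_lit 0), (nat_lit 0), (nat_lit 2055), (nat_lit 8365), (nat_lit 4322), (nat_lit 0), (nat_lit 164986), (nat_lit 0), (nat_lit 2600), [((nat_lit 400), [((nat_lit 42), (nat_lit 0), (nat_lit 10))])], ⟨(nat_lit 9), false, true, false, (nat_lit 363), (nat_lit 0), (nat_lit 2237), [(nat_lit 1807212), (nat_lit 1809233), (nat_lit 1850907), (nat_lit 1857380), (nat_lit 1967269), (nat_lit 1949998), (nat_lit 2012658), (nat_lit 1999837)]⟩, ⟨(nat_lit 3), false, false, true, (nat_lit 163), (nat_lit 0), (nat_lit 2237), [(nat_lit 1294870), (nat_lit 1299999), (nat_lit 1338589), (nat_lit 1348168), (nat_lit 1480164), (nat_lit 1462492), (nat_lit 1525715), (nat_lit 1512494)]⟩, (nat_lit 5143068), (nat_lit 32532283), (nat_lit 27079781), (nat_lit 7387936), (nat_lit 4), (nat_lit 0), [], [⟨(nat_lit 1), (nat_lit 99), (nat_lit 44), (nat_lit 100), (nat_lit 271353490)⟩], [⟨(nat_lit 1), (nat_lit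 92), (nat_lit 61), (nat_lit 100), (nat_lit 411675101)⟩], [],
 ⟨⟨[(nat_lit 40), (nat_lit 100), (nat_lit 140)], [(nat_lit 0), (nat_lit 3610), (nat_lit 5926)], [((nat_lit 0), (nat_lit 0), (nat_lit 0)), ((nat_lit 1000), (nat_lit 436), (nat_lit 895)), ((nat_lit 1000), (nat_lit 436), (nat_lit 905))], ((nat_lit 44), (nat_lit 99), (nat_lit 100))⟩, (nat_lit 0), (nat_lit 161), (nat_lit 161), (nat_lit 0), (nat_lit 0), [(nat_lit 2760359274), (nat_lit 9503028355), (nat_lit 8593391882)], [(nat_lit 0), (nat_lit 0), (nat_lit 0)], [(nat_lit 34684007573), (nat_lit 36190568182), (nat_lit 40437403995), (nat_lit 41993195950), (nat_lit 34320169643), (nat_lit 35504039864), (nat_lit 39209831412), (nat_lit 40363642800)], (nat_lit 0), (nat_lit 0), (nat_lit 0), (nat_lit 0), (nat_lit 0), (nat_lit 0), [], [(nat_lit 5), (nat_lit 55), (nat_lit 289), (nat_lit 75), (nat_lit 7)]⟩,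
 ⟨⟨[(nat_lit 40), (nat_lit 100), (nat_lit 160)], [(nat_lit 0), (nat_lit 2396), (nat_lit 6144)], [((nat_lit 0), (nat_lit 0), (nat_lit 0)), ((nat_lit 1000), (nat_lit 625), (nat_lit 623)), ((nat_lit 1000), (nat_lit 625), (nat_lit 975))], ((nat_lit 61), (nat_lit 92), (nat_lit 100))⟩, (nat_lit 1597167), (nat_lit 356), (nat_lit 356), (nat_lit 0), (nat_lit 507359), [(nat_lit 2011680000), (nat_lit 6187500000), (nat_lit 11753280000)], [], [(nat_lit 29310150778), (nat_lit 30460272898), (nat_lit 32475851612), (nat_lit 33863895656), (nat_lit 30528913720), (nat_lit 31985876457), (nat_lit 33682483887), (nat_lit 35070452706)], (nat_lit 1271251), (nat_lit 1271251), (nat_lit 1271251), (nat_lit 1271251), (nat_lit 1100000), (nat_lit 2213126), [(nat_lit 490000), (nat_lit 1427501), (nat_lit 1271251)], [(nat_lit 6), (nat_lit 56), (nat_lit 401), (nat_lit 175), (nat_lit 9)]⟩,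
 Rw.none⟩) (.spl (nat_lit 0) (nat_lit 390) (.ord (.leaf ⟨(nat_lit 8), (nat_lit 927), (nat_lit 0), (nat_lit 65), (nat_lit 0), (nat_lit 8161), (nat_lit 9648), (nat_lit 751), (nat_lit 139413), (nat_lit 0), (nat_lit 2080), [((nat_lit 390), [((nat_lit 42), (nat_lit 0), (nat_lit 8))])], ⟨(nat_lit 9), false, true, false, (nat_lit 362), (nat_lit 1581), (nat_lit 2237), [(nat_lit 1810307), (nat_lit 1809279), (nat_lit 1844401), (nat_lit 1844183), (nat_lit 1967270), (nat_lit 1959698), (nat_lit 2001426), (nat_lit 1994664)]⟩, ⟨(nat_lit 3), false, false, true, (nat_lit 164), (nat_lit 1581), (nat_lit 2237), [(nat_lit 1294870), (nat_lit 1297467), (nat_lit 1340340), (nat_lit 1344018), (nat_lit 1480171), (nat_lit 1475033), (nat_lit 1525719), (nat_lit 1521663)]⟩, (nat_lit 5150392), (nat_lit 32582574), (nat_lit 26961469), (nat_lit 7455957), (nat_lit 4), (nat_lit 0), [⟨(nat_lit 1), (nat_lit 24), (nat_lit 78), (nat_lit 100), (nat_lit 6166722)⟩], [⟨(nat_lit 1), (nat_lit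 100), (nat_lit 38), (nat_lit 96), (nat_lit 196570674)⟩], [⟨(nat_lit 1), (nat_lit 100), (nat_lit 49), (nat_lit 97), (nat_lit 274181885)⟩], [],
 ⟨⟨[(nat_lit 40), (nat_lit 100), (nat_lit 140)], [(nat_lit 0), (nat_lit 3610), (nat_lit 5926)], [((nat_lit 0), (nat_lit 0), (nat_lit 0)), ((nat_lit 1000), (nat_lit 436), (nat_lit 895)), ((nat_lit 1000), (nat_lit 436), (nat_lit 905))], ((nat_lit 44), (nat_lit 99), (nat_lit 100))⟩, (nat_lit 0), (nat_lit 159), (nat_lit 159), (nat_lit 0), (nat_lit 0), [(nat_lit 2800824775), (nat_lit 9046454850), (nat_lit 8803264000)], [(nat_lit 0), (nat_lit 0), (nat_lit 0)], [(nat_lit 34918184927), (nat_lit 35660208174), (nat_lit 40601644883), (nat_lit 41124296374), (nat_lit 34627450987), (nat_lit 35211425040), (nat_lit 39036352892), (nat_lit 39446981678)], (nat_lit 0), (nat_lit 0), (nat_lit 0), (nat_lit 0), (nat_lit 0), (nat_lit 0), [], [(nat_lit 5), (nat_lit 55), (nat_lit 289), (nat_lit 75), (nat_lit 7)]⟩,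
 ⟨⟨[(nat_lit 40), (nat_lit 100), (nat_lit 160)], [(nat_lit 0), (nat_lit 2396), (nat_lit 6144)], [((nat_lit 0), (nat_lit 0), (nat_lit 0)), ((nat_lit 1000), (nat_lit 625), (nat_lit 623)), ((nat_lit 1000), (nat_lit 625), (nat_lit 975))], ((nat_lit 61), (nat_lit 92), (nat_lit 100))⟩, (nat_lit 0), (nat_lit 240), (nat_lit 240), (nat_lit 0), (nat_lit 267152), [(nat_lit 2015744000), (nat_lit 6200000000), (nat_lit 11777024000)], [], [(nat_lit 36592761752), (nat_lit 38661843854), (nat_lit 42121335200), (nat_lit 43546285784), (nat_lit 37792910798), (nat_lit 39325573445), (nat_lit 41739219108), (nat_lit 42771852855)], (nat_lit 1271251), (nat_lit 1271251), (nat_lit 1271251), (nat_lit 1271251), (nat_lit 1100000), (nat_lit 2213126), [(nat_lit 490000), (nat_lit 1427501), (nat_lit 1271251)], [(nat_lit 6), (nat_lit 56), (nat_lit 401), (nat_lit 175), (nat_lit 9)]⟩,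
 ⟨⟨[(nat_lit 140), (nat_lit 180), (nat_lit 200)], [(nat_lit 0), (nat_lit 0), (nat_lit 2835)], [((nat_lit 0), (nat_lit 0), (nat_lit 0)), ((nat_lit 0), (nat_lit 0), (nat_lit 0)), ((nat_lit 363), (nat_lit 1000), (nat_lit 798))], ((nat_lit 0), (nat_lit 0), (nat_lit 0))⟩, (nat_lit 17884), (nat_lit 300), (nat_lit 2000), (nat_lit 5076500), (nat_lit 3425832), [(nat_lit 639730000), (nat_lit 913770000), (nat_lit 1066000000)], [], [(nat_lit 4261469508), (nat_lit 4139457612), (nat_lit 3923999701), (nat_lit 3802533877), (nat_lit 3993652570), (nat_lit 3870672074), (nat_lit 3659136392), (nat_lit 3536573960)], (nat_lit 780000), (nat_lit 1100000), (nat_lit 780000), (nat_lit 1844376), (nat_lit 1100000), (nat_lit 2213126), [(nat_lit 1977501), (nat_lit 1271251), (nat_lit 1271251)], [(nat_lit 32), (nat_lit 67), (nat_lit 588), (nat_lit 175), (nat_lit 12)]⟩⟩)) (.trZ (nat_lit 0) (nat_lit 1) (nat_lit 3) (nat_lit 73) (nat_lit 38) (nat_lit 100) (nat_lit 310) (.trX (nat_lit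 4) (nat_lit 0) (nat_lit 2) (nat_lit 31) (nat_lit 100) (nat_lit 99) (nat_lit 230) (.leaf ⟨(nat_lit 0), (nat_lit 1000), (nat_lit 0), (nat_lit 0), (nat_lit 6123), (nat_lit 7352), (nat_lit 6956), (nat_lit 0), (nat_lit 72006), (nat_lit 0), (nat_lit 0), [], Pd.none, Pd.none, (nat_lit 0), (nat_lit 1), (nat_lit 0), (nat_lit 0), (nat_lit 4), (nat_lit 0), [⟨(nat_lit 1), (nat_lit 52), (nat_lit 51), (nat_lit 100), (nat_lit 56505004)⟩], [⟨(nat_lit 1), (nat_lit 100), (nat_lit 31), (nat_lit 99), (nat_lit 410124155)⟩], [⟨(nat_lit 1), (nat_lit 92), (nat_lit 61), (nat_lit 100), (nat_lit 354617185)⟩], [],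
 ⟨⟨[(nat_lit 40), (nat_lit 80), (nat_lit 120)], [(nat_lit 0), (nat_lit 3225), (nat_lit 5518)], [((nat_lit 0), (nat_lit 0), (nat_lit 0)), ((nat_lit 1000), (nat_lit 321), (nat_lit 877)), ((nat_lit 1000), (nat_lit 317), (nat_lit 896))], ((nat_lit 31), (nat_lit 100), (nat_lit 99))⟩, (nat_lit 0), (nat_lit 141), (nat_lit 141), (nat_lit 0), (nat_lit 0), [(nat_lit 2430058382), (nat_lit 5955526258), (nat_lit 7968000000)], [], [(nat_lit 34478768059), (nat_lit 35205652126), (nat_lit 39414776656), (nat_lit 40003836160), (nat_lit 34154790548), (nat_lit 34756123216), (nat_lit 38235561602), (nat_lit 38688390332)], (nat_lit 0), (nat_lit 0), (nat_lit 0), (nat_lit 0), (nat_lit 0), (nat_lit 0), [], [(nat_lit 4), (nat_lit 51), (nat_lit 272), (nat_lit 60), (nat_lit 7)]⟩,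
 ⟨⟨[(nat_lit 40), (nat_lit 100), (nat_lit 160)], [(nat_lit 0), (nat_lit 2396), (nat_lit 6144)], [((nat_lit 0), (nat_lit 0), (nat_lit 0)), ((nat_lit 1000), (nat_lit 625), (nat_lit 623)), ((nat_lit 1000), (nat_lit 625), (nat_lit 975))], ((nat_lit 61), (nat_lit 92), (nat_lit 100))⟩, (nat_lit 0), (nat_lit 267), (nat_lit 267), (nat_lit 0), (nat_lit 342402), [(nat_lit 2032000000), (nat_lit 6250000000), (nat_lit 11872000000)], [], [(nat_lit 39112098074), (nat_lit 40841440438), (nat_lit 42592783080), (nat_lit 44242852432), (nat_lit 40078462247), (nat_lit 41599033906), (nat_lit 43036446525), (nat_lit 44286314026)], (nat_lit 1271251), (nat_lit 1271251), (nat_lit 1271251), (nat_lit 1271251), (nat_lit 1100000), (nat_lit 2213126), [(nat_lit 490000), (nat_lit 1427501), (nat_lit 1271251)], [(nat_lit 6), (nat_lit 56), (nat_lit 401), (nat_lit 175), (nat_lit 9)]⟩,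
 Rw.none⟩)))))) (.spl (nat_lit 2) (nat_lit 140) (.trX (nat_lit 4) (nat_lit 0) (nat_lit 2) (nat_lit 44) (nat_lit 100) (nat_lit 96) (nat_lit 230) (.trX (nat_lit 5) (nat_lit 1) (nat_lit 2) (nat_lit 63) (nat_lit 99) (nat_lit 100) (nat_lit 270) (.leaf ⟨(nat_lit 0), (nat_lit 1000), (nat_lit 0), (nat_lit 0), (nat_lit 0), (nat_lit 6853), (nat_lit 8930), (nat_lit 0), (nat_lit 454012), (nat_lit 0), (nat_lit 0), [], Pd.none, Pd.none, (nat_lit 0), (nat_lit 1), (nat_lit 0), (nat_lit 0), (nat_lit 4), (nat_lit 0), [], [⟨(nat_lit 1), (nat_lit 100), (nat_lit 31), (nat_lit 94), (nat_lit 84286035)⟩], [⟨(nat_lit 1), (nat_lit 100), (nat_lit 44), (nat_lit 94), (nat_lit 533334099)⟩], [],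
 ⟨⟨[(nat_lit 40), (nat_lit 80), (nat_lit 120)], [(nat_lit 0), (nat_lit 2514), (nat_lit 4610)], [((nat_lit 0), (nat_lit 0), (nat_lit 0)), ((nat_lit 1000), (nat_lit 446), (nat_lit 804)), ((nat_lit 1000), (nat_lit 443), (nat_lit 819))], ((nat_lit 44), (nat_lit 100), (nat_lit 96))⟩, (nat_lit 406074), (nat_lit 300), (nat_lit 365), (nat_lit 50800001), (nat_lit 507601), [(nat_lit 2032000040), (nat_lit 4993870593), (nat_lit 7968000000)], [], [(nat_lit 36828552962), (nat_lit 37672778891), (nat_lit 41866516919), (nat_lit 43380218840), (nat_lit 33790170884), (nat_lit 34432781837), (nat_lit 36764128469), (nat_lit 37946667325)], (nat_lit 1271251), (nat_lit 1271251), (nat_lit 1271251), (nat_lit 1271251), (nat_lit 230000), (nat_lit 1643126), [(nat_lit 490000), (nat_lit 1100000), (nat_lit 1785001)], [(nat_lit 4), (nat_lit 51), (nat_lit 272), (nat_lit 60), (nat_lit 8)]⟩,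
 ⟨⟨[(nat_lit 40), (nat_lit 100), (nat_lit 140)], [(nat_lit 0), (nat_lit 2396), (nat_lit 4896)], [((nat_lit 0), (nat_lit 0), (nat_lit 0)), ((nat_lit 1000), (nat_lit 625), (nat_lit 623)), ((nat_lit 1000), (nat_lit 625), (nat_lit 975))], ((nat_lit 63), (nat_lit 99), (nat_lit 100))⟩, (nat_lit 0), (nat_lit 222), (nat_lit 222), (nat_lit 0), (nat_lit 269135), [(nat_lit 2032000000), (nat_lit 6250000000), (nat_lit 9842000000)], [], [(nat_lit 33301002050), (nat_lit 36258537825), (nat_lit 39347606940), (nat_lit 41414726160), (nat_lit 34634416451), (nat_lit 36969078447), (nat_lit 39310988198), (nat_lit 41596487320)], (nat_lit 1271251), (nat_lit 1271251), (nat_lit 1271251), (nat_lit 1271251), (nat_lit 1100000), (nat_lit 2041876), [(nat_lit 490000), (nat_lit 1427501), (nat_lit 1271251)], [(nat_lit 5), (nat_lit 55), (nat_lit 289), (nat_lit 75), (nat_lit 7)]⟩,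
 Rw.none⟩))) (.trZ (nat_lit 0) (nat_lit 2) (nat_lit 4) (nat_lit 100) (nat_lit 46) (nat_lit 76) (nat_lit 60) (.spl (nat_lit 2) (nat_lit 150) (.trX (nat_lit 4) (nat_lit 0) (nat_lit 2) (nat_lit 44) (nat_lit 100) (nat_lit 99) (nat_lit 240) (.trX (nat_lit 5) (nat_lit 1) (nat_lit 2) (nat_lit 62) (nat_lit 95) (nat_lit 100) (nat_lit 280) (.leaf ⟨(nat_lit 0), (nat_lit 899), (nat_lit 0), (nat_lit 101), (nat_lit 0), (nat_lit 6919), (nat_lit 8930), (nat_lit 1041), (nat_lit 3253315), (nat_lit 0), (nat_lit 0), [], Pd.none, Pd.none, (nat_lit 0), (nat_lit 1), (nat_lit 0), (nat_lit 0), (nat_lit 4), (nat_lit 0), [], [], [⟨(nat_lit 1), (nat_lit 100), (nat_lit 44), (nat_lit 98), (nat_lit 370345914)⟩], [],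
 ⟨⟨[(nat_lit 40), (nat_lit 80), (nat_lit 120)], [(nat_lit 0), (nat_lit 2514), (nat_lit 4610)], [((nat_lit 0), (nat_lit 0), (nat_lit 0)), ((nat_lit 1000), (nat_lit 446), (nat_lit 804)), ((nat_lit 1000), (nat_lit 443), (nat_lit 819))], ((nat_lit 44), (nat_lit 100), (nat_lit 99))⟩, (nat_lit 230701), (nat_lit 300), (nat_lit 309), (nat_lit 57537237), (nat_lit 433551), [(nat_lit 2230898942), (nat_lit 5039475157), (nat_lit 7968000000)], [], [(nat_lit 35914719310), (nat_lit 37064307344), (nat_lit 40423696704), (nat_lit 41931429748), (nat_lit 34030771290), (nat_lit 34904719282), (nat_lit 37416116839), (nat_lit 38050089992)], (nat_lit 1271251), (nat_lit 1271251), (nat_lit 1271251), (nat_lit 1271251), (nat_lit 356250), (nat_lit 1728751), [(nat_lit 490000), (nat_lit 1100000), (nat_lit 1785001)], [(nat_lit 4), (nat_lit 51), (nat_lit 272), (nat_lit 60), (nat_lit 8)]⟩,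
 ⟨⟨[(nat_lit 40), (nat_lit 100), (nat_lit 140)], [(nat_lit 0), (nat_lit 2396), (nat_lit 4896)], [((nat_lit 0), (nat_lit 0), (nat_lit 0)), ((nat_lit 1000), (nat_lit 625), (nat_lit 623)), ((nat_lit 1000), (nat_lit 625), (nat_lit 975))], ((nat_lit 62), (nat_lit 95), (nat_lit 100))⟩, (nat_lit 0), (nat_lit 211), (nat_lit 211), (nat_lit 0), (nat_lit 231248), [(nat_lit 2032000000), (nat_lit 6250000000), (nat_lit 9842000000)], [], [(nat_lit 33301002050), (nat_lit 36258537825), (nat_lit 39347606940), (nat_lit 41414726160), (nat_lit 34916112589), (nat_lit 37190137350), (nat_lit 39456535670), (nat_lit 41802233680)], (nat_lit 1271251), (nat_lit 1271251), (nat_lit 1271251), (nat_lit 1271251), (nat_lit 1100000), (nat_lit 2127501), [(nat_lit 490000), (nat_lit 1427501), (nat_lit 1271251)], [(nat_lit 5), (nat_lit 55), (nat_lit 289), (nat_lit 75), (nat_lit 7)]⟩,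
 ⟨⟨[(nat_lit 140), (nat_lit 180), (nat_lit 200)], [(nat_lit 0), (nat_lit 608), (nat_lit 3317)], [((nat_lit 0), (nat_lit 0), (nat_lit 0)), ((nat_lit 913), (nat_lit 1000), (nat_lit 217)), ((nat_lit 385), (nat_lit 1000), (nat_lit 814))], ((nat_lit 0), (nat_lit 0), (nat_lit 0))⟩, (nat_lit 28793), (nat_lit 300), (nat_lit 1707), (nat_lit 7804469), (nat_lit 2785922), [(nat_lit 994042000), (nat_lit 1419858000), (nat_lit 1656400000)], [], [(nat_lit 7919922267), (nat_lit 7881267510), (nat_lit 7227900491), (nat_lit 7190045266), (nat_lit 7542919461), (nat_lit 7504483320), (nat_lit 7845175859), (nat_lit 7982197065)], (nat_lit 936250), (nat_lit 1017188), (nat_lit 356250), (nat_lit 1728751), (nat_lit 1100000), (nat_lit 2127501), [(nat_lit 1977501), (nat_lit 1271251), (nat_lit 1271251)], [(nat_lit 32), (nat_lit 67), (nat_lit 511), (nat_lit 175), (nat_lit 11)]⟩⟩))) (.trZ (nat_lit 0) (nat_lit 2) (nat_lit 4) (nat_lit 100) (nat_lit 45) (nat_lit 79) (nat_lit 70)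 (.leaf ⟨(nat_lit 0), (nat_lit 884), (nat_lit 0), (nat_lit 116), (nat_lit 0), (nat_lit 7168), (nat_lit 10706), (nat_lit 1329), (nat_lit 196362), (nat_lit 0), (nat_lit 0), [], Pd.none, Pd.none, (nat_lit 0), (nat_lit 1), (nat_lit 0), (nat_lit 0), (nat_lit 4), (nat_lit 0), [], [], [⟨(nat_lit 1), (nat_lit 100), (nat_lit 45), (nat_lit 100), (nat_lit 278089384)⟩], [],
 ⟨⟨[(nat_lit 40), (nat_lit 100), (nat_lit 140)], [(nat_lit 0), (nat_lit 3610), (nat_lit 5926)], [((nat_lit 0), (nat_lit 0), (nat_lit 0)), ((nat_lit 1000), (nat_lit 436), (nat_lit 895)), ((nat_lit 1000), (nat_lit 436), (nat_lit 905))], ((nat_lit 44), (nat_lit 99), (nat_lit 100))⟩, (nat_lit 460682), (nat_lit 300), (nat_lit 331), (nat_lit 50800001), (nat_lit 401163), [(nat_lit 2032000024), (nat_lit 6653714535), (nat_lit 9842000000)], [], [(nat_lit 37150062640), (nat_lit 38076190904), (nat_lit 40703799426), (nat_lit 41705289764), (nat_lit 35161380565), (nat_lit 35850707964), (nat_lit 37731385554),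 (nat_lit 38623539960)], (nat_lit 1271251), (nat_lit 1271251), (nat_lit 1271251), (nat_lit 1271251), (nat_lit 422188), (nat_lit 1811563), [(nat_lit 490000), (nat_lit 1427501), (nat_lit 1271251)], [(nat_lit 5), (nat_lit 55), (nat_lit 289), (nat_lit 75), (nat_lit 7)]⟩,
 ⟨⟨[(nat_lit 40), (nat_lit 100), (nat_lit 160)], [(nat_lit 0), (nat_lit 2396), (nat_lit 6144)], [((nat_lit 0), (nat_lit 0), (nat_lit 0)), ((nat_lit 1000), (nat_lit 625), (nat_lit 623)), ((nat_lit 1000), (nat_lit 625), (nat_lit 975))], ((nat_lit 61), (nat_lit 92), (nat_lit 100))⟩, (nat_lit 0), (nat_lit 226), (nat_lit 226), (nat_lit 0), (nat_lit 214677), [(nat_lit 2032000000), (nat_lit 6250000000), (nat_lit 11872000000)], [], [(nat_lit 36559734587), (nat_lit 39510760256), (nat_lit 42414395580), (nat_lit 44423497432), (nat_lit 37612808661), (nat_lit 39780402967), (nat_lit 41973308437), (nat_lit 44569554568)], (nat_lit 1271251), (nat_lit 1271251), (nat_lit 1271251), (nat_lit 1271251),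 (nat_lit 1100000), (nat_lit 2213126), [(nat_lit 490000), (nat_lit 1427501), (nat_lit 1271251)], [(nat_lit 6), (nat_lit 56), (nat_lit 401), (nat_lit 175), (nat_lit 9)]⟩,
 ⟨⟨[(nat_lit 140), (nat_lit 180), (nat_lit 200)], [(nat_lit 0), (nat_lit 908), (nat_lit 3544)], [((nat_lit 0), (nat_lit 0), (nat_lit 0)), ((nat_lit 876), (nat_lit 1000), (nat_lit 310)), ((nat_lit 402), (nat_lit 1000), (nat_lit 821))], ((nat_lit 0), (nat_lit 0), (nat_lit 0))⟩, (nat_lit 35691), (nat_lit 300), (nat_lit 1455), (nat_lit 8879559), (nat_lit 2273105), [(nat_lit 1141672000), (nat_lit 1630728000), (nat_lit 1902400000)], [], [(nat_lit 7645267285), (nat_lit 7590818367), (nat_lit 6727176334), (nat_lit 6673543508), (nat_lit 7191022380), (nat_lit 7136206494), (nat_lit 6274785385), (nat_lit 6220675976)], (nat_lit 1017188), (nat_lit 1100000), (nat_lit 422188), (nat_lit 1811563), (nat_lit 1100000), (nat_lit 2213126), [(nat_lit 1977501), (nat_lit 1271251), (nat_lit 1271251)], [(nat_lit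 32), (nat_lit 67), (nat_lit 452), (nat_lit 175), (nat_lit 10)]⟩⟩))))))
noncomputable def c15_29 : Tr Lf :=
 (.trX (nat_lit 4) (nat_lit 0) (nat_lit 2) (nat_lit 44) (nat_lit 94) (nat_lit 100) (nat_lit 270) (.trX (nat_lit 5) (nat_lit 1) (nat_lit 2) (nat_lit 80) (nat_lit 68) (nat_lit 100) (nat_lit 350) (.spl (nat_lit 1) (nat_lit 340) (.trX (nat_lit 3) (nat_lit 0) (nat_lit 1) (nat_lit 61) (nat_lit 47) (nat_lit 100) (nat_lit 390) (.spl (nat_lit 6) (nat_lit 172) (.spl (nat_lit 5) (nat_lit 200) (.spl (nat_lit 0) (nat_lit 390) (.spl (nat_lit 6) (nat_lit 152) (.leaf ⟨(nat_lit 4), (nat_lit 879), (nat_lit 0), (nat_lit 117), (nat_lit 11558), (nat_lit 4493), (nat_lit 7720), (nat_lit 1616), (nat_lit 0), (nat_lit 0), (nat_lit 1040), [((nat_lit 390), [((nat_lit 42), (nat_lit 0), (nat_lit 4))])], ⟨(nat_lit 8), false, true, false, (nat_lit 321), (nat_lit 1581), (nat_lit 2237), [(nat_lit 1679198), (nat_lit 1680658), (nat_lit 1701927), (nat_lit 1703927), (nat_lit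 1907468), (nat_lit 1899409), (nat_lit 1930242), (nat_lit 1922724)]⟩, ⟨(nat_lit 4), false, false, true, (nat_lit 169), (nat_lit 1581), (nat_lit 2237), [(nat_lit 1268963), (nat_lit 1275616), (nat_lit 1291693), (nat_lit 1298886), (nat_lit 1554227), (nat_lit 1548981), (nat_lit 1577001), (nat_lit 1572296)]⟩, (nat_lit 5180565), (nat_lit 35234285), (nat_lit 23437277), (nat_lit 8328438), (nat_lit 4), (nat_lit 0), [⟨(nat_lit 0), (nat_lit 80), (nat_lit 35), (nat_lit 100), (nat_lit 119803056)⟩], [⟨(nat_lit 1), (nat_lit 98), (nat_lit 38), (nat_lit 100), (nat_lit 188344234)⟩], [⟨(nat_lit 0), (nat_lit 100), (nat_lit 72), (nat_lit 63), (nat_lit 74208434)⟩], [],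
 ⟨⟨[(nat_lit 40), (nat_lit 100), (nat_lit 140)], [(nat_lit 0), (nat_lit 3610), (nat_lit 5926)], [((nat_lit 0), (nat_lit 0), (nat_lit 0)), ((nat_lit 1000), (nat_lit 436), (nat_lit 895)), ((nat_lit 1000), (nat_lit 436), (nat_lit 905))], ((nat_lit 45), (nat_lit 100), (nat_lit 99))⟩, (nat_lit 1377854), (nat_lit 216), (nat_lit 216), (nat_lit 0), (nat_lit 123079), [(nat_lit 2026856002), (nat_lit 7459402426), (nat_lit 9326359725)], [(nat_lit 0), (nat_lit 0), (nat_lit 0)], [(nat_lit 26740569792), (nat_lit 27259473671), (nat_lit 33528714072), (nat_lit 34149257948), (nat_lit 27937011912), (nat_lit 28302992023), (nat_lit 33795236802), (nat_lit 34258857978)], (nat_lit 1271251), (nat_lit 1271251), (nat_lit 1271251), (nat_lit 1271251), (nat_lit 422188), (nat_lit 1965938), [(nat_lit 490000), (nat_lit 1427501), (nat_lit 1271251)], [(nat_lit 5), (nat_lit 55), (nat_lit 401), (nat_lit 175), (nat_lit 11)]⟩,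
 ⟨⟨[(nat_lit 40), (nat_lit 120), (nat_lit 180)], [(nat_lit 0), (nat_lit 0), (nat_lit 6400)], [((nat_lit 0), (nat_lit 0), (nat_lit 0)), ((nat_lit 0), (nat_lit 0), (nat_lit 0)), ((nat_lit 600), (nat_lit 800), (nat_lit 1000))], ((nat_lit 82), (nat_lit 80), (nat_lit 100))⟩, (nat_lit 1519968), (nat_lit 379), (nat_lit 379), (nat_lit 0), (nat_lit 168037), [(nat_lit 2023872000), (nat_lit 7936128000), (nat_lit 14001768000)], [], [(nat_lit 35946492518), (nat_lit 37000968933), (nat_lit 41595730198), (nat_lit 42501730412), (nat_lit 30445401717), (nat_lit 31277306425), (nat_lit 35641627494), (nat_lit 36377962168)], (nat_lit 1271251), (nat_lit 1271251), (nat_lit 1271251), (nat_lit 1271251), (nat_lit 54688), (nat_lit 1414376), [(nat_lit 490000), (nat_lit 1740001), (nat_lit 1271251)], [(nat_lit 7), (nat_lit 60), (nat_lit 483), (nat_lit 250), (nat_lit 11)]⟩,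
 ⟨⟨[(nat_lit 120), (nat_lit 160), (nat_lit 200)], [(nat_lit 0), (nat_lit 0), (nat_lit 3198)], [((nat_lit 0), (nat_lit 0), (nat_lit 0)), ((nat_lit 0), (nat_lit 0), (nat_lit 0)), ((nat_lit 572), (nat_lit 1000), (nat_lit 714))], ((nat_lit 0), (nat_lit 0), (nat_lit 0))⟩, (nat_lit 57073), (nat_lit 300), (nat_lit 877), (nat_lit 8681403), (nat_lit 787668), [(nat_lit 932256000), (nat_lit 1389024000), (nat_lit 1918800000)], [], [(nat_lit 8238478719), (nat_lit 8156661479), (nat_lit 7096936698), (nat_lit 7006978860), (nat_lit 6510618486), (nat_lit 6429059298), (nat_lit 7612709128), (nat_lit 8060591051)], (nat_lit 1100000), (nat_lit 1271251), (nat_lit 422188), (nat_lit 1965938), (nat_lit 54688), (nat_lit 1414376), [(nat_lit 1695001), (nat_lit 1271251), (nat_lit 1271251)], [(nat_lit 29), (nat_lit 66), (nat_lit 401), (nat_lit 175), (nat_lit 9)]⟩⟩) (.dle (nat_lit 0))) (.trZ (nat_lit 0) (nat_lit 1) (nat_lit 3) (nat_lit 84) (nat_lit 33) (nat_lit 100) (nat_lit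 260) (.trX (nat_lit 3) (nat_lit 0) (nat_lit 1) (nat_lit 44) (nat_lit 64) (nat_lit 100) (nat_lit 380) (.trZ (nat_lit 0) (nat_lit 2) (nat_lit 4) (nat_lit 100) (nat_lit 32) (nat_lit 89) (nat_lit 100) (.trX (nat_lit 4) (nat_lit 0) (nat_lit 2) (nat_lit 31) (nat_lit 98) (nat_lit 100) (nat_lit 250) (.leaf ⟨(nat_lit 0), (nat_lit 885), (nat_lit 0), (nat_lit 115), (nat_lit 5164), (nat_lit 6266), (nat_lit 7908), (nat_lit 1653), (nat_lit 0), (nat_lit 0), (nat_lit 0), [], Pd.none, Pd.none, (nat_lit 0), (nat_lit 1), (nat_lit 0), (nat_lit 0), (nat_lit 4), (nat_lit 0), [⟨(nat_lit 0), (nat_lit 86), (nat_lit 25), (nat_lit 100), (nat_lit 37558627)⟩], [⟨(nat_lit 1), (nat_lit 100), (nat_lit 22), (nat_lit 99), (nat_lit 227556267)⟩], [⟨(nat_lit 0), (nat_lit 100), (nat_lit 77), (nat_lit 53), (nat_lit 75953152)⟩], [],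
 ⟨⟨[(nat_lit 40), (nat_lit 80), (nat_lit 120)], [(nat_lit 0), (nat_lit 3225), (nat_lit 5518)], [((nat_lit 0), (nat_lit 0), (nat_lit 0)), ((nat_lit 1000), (nat_lit 321), (nat_lit 877)), ((nat_lit 1000), (nat_lit 317), (nat_lit 896))], ((nat_lit 32), (nat_lit 99), (nat_lit 100))⟩, (nat_lit 363526), (nat_lit 189), (nat_lit 189), (nat_lit 0), (nat_lit 173954), [(nat_lit 2530202193), (nat_lit 5092394029), (nat_lit 7968000000)], [], [(nat_lit 30821793199), (nat_lit 31592796030), (nat_lit 36420464283), (nat_lit 36975116166), (nat_lit 31427697051), (nat_lit 32026098932), (nat_lit 35729124020), (nat_lit 36228429555)], (nat_lit 1271251), (nat_lit 1271251), (nat_lit 1271251), (nat_lit 1271251), (nat_lit 631250), (nat_lit 1831251), [(nat_lit 490000), (nat_lit 1100000), (nat_lit 1785001)], [(nat_lit 4), (nat_lit 51), (nat_lit 289), (nat_lit 75), (nat_lit 8)]⟩,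
 ⟨⟨[(nat_lit 40), (nat_lit 120), (nat_lit 180)], [(nat_lit 0), (nat_lit 0), (nat_lit 6400)], [((nat_lit 0), (nat_lit 0), (nat_lit 0)), ((nat_lit 0), (nat_lit 0), (nat_lit 0)), ((nat_lit 600), (nat_lit 800), (nat_lit 1000))], ((nat_lit 81), (nat_lit 71), (nat_lit 100))⟩, (nat_lit 1600322), (nat_lit 403), (nat_lit 403), (nat_lit 0), (nat_lit 250169), [(nat_lit 2032000000), (nat_lit 7968000000), (nat_lit 14058000000)], [], [(nat_lit 36160154329), (nat_lit 37158577377), (nat_lit 41065096226), (nat_lit 42044669392), (nat_lit 30278033850), (nat_lit 31359635470), (nat_lit 35059071024), (nat_lit 35830677442)], (nat_lit 1271251), (nat_lit 1271251), (nat_lit 1271251), (nat_lit 1271251), (nat_lit 54688), (nat_lit 1414376), [(nat_lit 490000), (nat_lit 1740001), (nat_lit 1271251)], [(nat_lit 7), (nat_lit 60), (nat_lit 483), (nat_lit 250), (nat_lit 11)]⟩,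
 ⟨⟨[(nat_lit 120), (nat_lit 160), (nat_lit 200)], [(nat_lit 0), (nat_lit 0), (nat_lit 3198)], [((nat_lit 0), (nat_lit 0), (nat_lit 0)), ((nat_lit 0), (nat_lit 0), (nat_lit 0)), ((nat_lit 572), (nat_lit 1000), (nat_lit 714))], ((nat_lit 0), (nat_lit 0), (nat_lit 0))⟩, (nat_lit 56098), (nat_lit 300), (nat_lit 1036), (nat_lit 8533000), (nat_lit 1178014), [(nat_lit 916320000), (nat_lit 1365280000), (nat_lit 1886000000)], [], [(nat_lit 7743497729), (nat_lit 7658736310), (nat_lit 6906974016), (nat_lit 6850211947), (nat_lit 5990076348), (nat_lit 5905362404), (nat_lit 7385186167), (nat_lit 7835183379)], (nat_lit 1100000), (nat_lit 1271251), (nat_lit 631250), (nat_lit 1831251), (nat_lit 54688), (nat_lit 1414376), [(nat_lit 1695001), (nat_lit 1271251), (nat_lit 1271251)], [(nat_lit 29), (nat_lit 66), (nat_lit 401), (nat_lit 175), (nat_lit 9)]⟩⟩)))))) (.leaf ⟨(nat_lit 0), (nat_lit 749), (nat_lit 0), (nat_lit 251), (nat_lit 0), (nat_lit 4199), (nat_lit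 8341), (nat_lit 2709), (nat_lit 0), (nat_lit 0), (nat_lit 0), [], Pd.none, Pd.none, (nat_lit 0), (nat_lit 1), (nat_lit 0), (nat_lit 0), (nat_lit 5), (nat_lit 0), [⟨(nat_lit 0), (nat_lit 82), (nat_lit 34), (nat_lit 100), (nat_lit 306939790)⟩], [], [⟨(nat_lit 1), (nat_lit 77), (nat_lit 77), (nat_lit 100), (nat_lit 146947209)⟩], [],
 ⟨⟨[(nat_lit 40), (nat_lit 100), (nat_lit 140)], [(nat_lit 0), (nat_lit 3610), (nat_lit 5926)], [((nat_lit 0), (nat_lit 0), (nat_lit 0)), ((nat_lit 1000), (nat_lit 436), (nat_lit 895)), ((nat_lit 1000), (nat_lit 436), (nat_lit 905))], ((nat_lit 44), (nat_lit 96), (nat_lit 100))⟩, (nat_lit 1306026), (nat_lit 233), (nat_lit 233), (nat_lit 0), (nat_lit 176176), [(nat_lit 2032000625), (nat_lit 6347037880), (nat_lit 9842000000)], [], [(nat_lit 27360152676), (nat_lit 28466192934), (nat_lit 33238042550), (nat_lit 34092599130), (nat_lit 29003510020), (nat_lit 29836288949), (nat_lit 33404866680), (nat_lit 34308055835)], (nat_lit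 1271251), (nat_lit 1271251), (nat_lit 1271251), (nat_lit 1271251), (nat_lit 422188), (nat_lit 1965938), [(nat_lit 490000), (nat_lit 1427501), (nat_lit 1271251)], [(nat_lit 5), (nat_lit 55), (nat_lit 401), (nat_lit 175), (nat_lit 11)]⟩,
 ⟨⟨[(nat_lit 40), (nat_lit 120), (nat_lit 180)], [(nat_lit 0), (nat_lit 0), (nat_lit 6400)], [((nat_lit 0), (nat_lit 0), (nat_lit 0)), ((nat_lit 0), (nat_lit 0), (nat_lit 0)), ((nat_lit 600), (nat_lit 800), (nat_lit 1000))], ((nat_lit 81), (nat_lit 71), (nat_lit 100))⟩, (nat_lit 1122987), (nat_lit 248), (nat_lit 248), (nat_lit 0), (nat_lit 249979), [(nat_lit 2032000000), (nat_lit 7968000000), (nat_lit 14058000000)], [], [(nat_lit 32123312521), (nat_lit 32986279726), (nat_lit 36636287988), (nat_lit 37385747781), (nat_lit 34667087806), (nat_lit 35479897183), (nat_lit 38562710718), (nat_lit 39539883316)], (nat_lit 1271251), (nat_lit 1271251), (nat_lit 1271251), (nat_lit 1271251), (nat_lit 1271251), (nat_lit 1271251),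 [(nat_lit 490000), (nat_lit 1740001), (nat_lit 1271251)], [(nat_lit 7), (nat_lit 60), (nat_lit 538), (nat_lit 300), (nat_lit 11)]⟩,
 ⟨⟨[(nat_lit 120), (nat_lit 160), (nat_lit 200)], [(nat_lit 0), (nat_lit 0), (nat_lit 3198)], [((nat_lit 0), (nat_lit 0), (nat_lit 0)), ((nat_lit 0), (nat_lit 0), (nat_lit 0)), ((nat_lit 572), (nat_lit 1000), (nat_lit 714))], ((nat_lit 0), (nat_lit 0), (nat_lit 0))⟩, (nat_lit 122439), (nat_lit 300), (nat_lit 917), (nat_lit 18624201), (nat_lit 1178014), [(nat_lit 1999968000), (nat_lit 2979872000), (nat_lit 4116400000)], [], [(nat_lit 16111030177), (nat_lit 15958783327), (nat_lit 14231186470), (nat_lit 14351689067), (nat_lit 15461274652), (nat_lit 15294924141), (nat_lit 13476574626), (nat_lit 13306661544)], (nat_lit 1100000), (nat_lit 1271251), (nat_lit 422188), (nat_lit 1965938), (nat_lit 1271251), (nat_lit 1271251), [(nat_lit 1695001), (nat_lit 1271251), (nat_lit 1271251)], [(nat_lit 29), (nat_lit 66), (nat_lit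 428), (nat_lit 200), (nat_lit 9)]⟩⟩)) (.dle (nat_lit 0)))) (.trZ (nat_lit 0) (nat_lit 1) (nat_lit 3) (nat_lit 75) (nat_lit 46) (nat_lit 100) (nat_lit 260) (.trZ (nat_lit 1) (nat_lit 2) (nat_lit 5) (nat_lit 100) (nat_lit 73) (nat_lit 55) (nat_lit 30) (.trX (nat_lit 5) (nat_lit 1) (nat_lit 2) (nat_lit 72) (nat_lit 77) (nat_lit 100) (nat_lit 330) (.spl (nat_lit 5) (nat_lit 200) (.spl (nat_lit 0) (nat_lit 390) (.spl (nat_lit 6) (nat_lit 176) (.leaf ⟨(nat_lit 0), (nat_lit 886), (nat_lit 0), (nat_lit 114), (nat_lit 7061), (nat_lit 7408), (nat_lit 5884), (nat_lit 1318), (nat_lit 0), (nat_lit 0), (nat_lit 0), [], Pd.none, Pd.none, (nat_lit 0), (nat_lit 1), (nat_lit 0), (nat_lit 0), (nat_lit 4), (nat_lit 0), [⟨(nat_lit 0), (nat_lit 73), (nat_lit 38), (nat_lit 100), (nat_lit 145916141)⟩], [⟨(nat_lit 1), (nat_lit 98), (nat_lit 38), (nat_lit 100), (nat_lit 20973276)⟩], [], [],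
 ⟨⟨[(nat_lit 40), (nat_lit 100), (nat_lit 140)], [(nat_lit 0), (nat_lit 3610), (nat_lit 5926)], [((nat_lit 0), (nat_lit 0), (nat_lit 0)), ((nat_lit 1000), (nat_lit 436), (nat_lit 895)), ((nat_lit 1000), (nat_lit 436), (nat_lit 905))], ((nat_lit 44), (nat_lit 95), (nat_lit 100))⟩, (nat_lit 352927), (nat_lit 246), (nat_lit 246), (nat_lit 0), (nat_lit 207888), [(nat_lit 2831648192), (nat_lit 7084435850), (nat_lit 9842000000)], [], [(nat_lit 34183205824), (nat_lit 34985764843), (nat_lit 41155648399), (nat_lit 41683374955), (nat_lit 33630895269), (nat_lit 34200313598), (nat_lit 38455670247), (nat_lit 38831472263)], (nat_lit 1271251), (nat_lit 1271251), (nat_lit 1271251), (nat_lit 1271251), (nat_lit 422188), (nat_lit 1965938), [(nat_lit 490000), (nat_lit 1427501), (nat_lit 1271251)], [(nat_lit 5), (nat_lit 55), (nat_lit 401), (nat_lit 175), (nat_lit 10)]⟩,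
 ⟨⟨[(nat_lit 40), (nat_lit 120), (nat_lit 180)], [(nat_lit 0), (nat_lit 1589), (nat_lit 7199)], [((nat_lit 0), (nat_lit 0), (nat_lit 0)), ((nat_lit 1000), (nat_lit 814), (nat_lit 310)), ((nat_lit 686), (nat_lit 714), (nat_lit 1000))], ((nat_lit 72), (nat_lit 79), (nat_lit 100))⟩, (nat_lit 1679564), (nat_lit 390), (nat_lit 390), (nat_lit 0), (nat_lit 249935), [(nat_lit 2032000000), (nat_lit 7968000000), (nat_lit 14058000000)], [], [(nat_lit 32935990989), (nat_lit 33797708365), (nat_lit 37778394352), (nat_lit 38574347453), (nat_lit 30017468234), (nat_lit 30720427949), (nat_lit 34599760168), (nat_lit 35249897392)], (nat_lit 1271251), (nat_lit 1271251), (nat_lit 1271251), (nat_lit 1271251), (nat_lit 169688), (nat_lit 1418125), [(nat_lit 490000), (nat_lit 1740001), (nat_lit 1271251)], [(nat_lit 7), (nat_lit 60), (nat_lit 483), (nat_lit 250), (nat_lit 10)]⟩,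
 ⟨⟨[(nat_lit 120), (nat_lit 160), (nat_lit 200)], [(nat_lit 0), (nat_lit 0), (nat_lit 3198)], [((nat_lit 0), (nat_lit 0), (nat_lit 0)), ((nat_lit 0), (nat_lit 0), (nat_lit 0)), ((nat_lit 572), (nat_lit 1000), (nat_lit 714))], ((nat_lit 0), (nat_lit 0), (nat_lit 0))⟩, (nat_lit 55610), (nat_lit 300), (nat_lit 1100), (nat_lit 8458800), (nat_lit 1331036), [(nat_lit 908352000), (nat_lit 1353408000), (nat_lit 1869600000)], [], [(nat_lit 8133779831), (nat_lit 8056885689), (nat_lit 7172764847), (nat_lit 7092690137), (nat_lit 7005802556), (nat_lit 6929531038), (nat_lit 7075489558), (nat_lit 7453503683)], (nat_lit 1100000), (nat_lit 1271251), (nat_lit 422188), (nat_lit 1965938), (nat_lit 169688), (nat_lit 1418125), [(nat_lit 1695001), (nat_lit 1271251), (nat_lit 1271251)], [(nat_lit 29), (nat_lit 66), (nat_lit 401), (nat_lit 175), (nat_lit 9)]⟩⟩) (.dle (nat_lit 0))) (.trZ (nat_lit 0) (nat_lit 1) (nat_lit 3) (nat_lit 80) (nat_lit 35) (nat_lit 100) (nat_lit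 280) (.trX (nat_lit 3) (nat_lit 0) (nat_lit 1) (nat_lit 52) (nat_lit 53) (nat_lit 100) (nat_lit 390) (.trZ (nat_lit 0) (nat_lit 2) (nat_lit 4) (nat_lit 100) (nat_lit 32) (nat_lit 89) (nat_lit 100) (.trX (nat_lit 4) (nat_lit 0) (nat_lit 2) (nat_lit 31) (nat_lit 98) (nat_lit 100) (nat_lit 250) (.leaf ⟨(nat_lit 0), (nat_lit 904), (nat_lit 0), (nat_lit 96), (nat_lit 17799), (nat_lit 4203), (nat_lit 6074), (nat_lit 1135), (nat_lit 0), (nat_lit 0), (nat_lit 0), [], Pd.none, Pd.none, (nat_lit 0), (nat_lit 1), (nat_lit 0), (nat_lit 0), (nat_lit 4), (nat_lit 0), [⟨(nat_lit 0), (nat_lit 80), (nat_lit 35), (nat_lit 100), (nat_lit 159307218)⟩], [⟨(nat_lit 1), (nat_lit 100), (nat_lit 22), (nat_lit 99), (nat_lit 49133725)⟩, ⟨(nat_lit 1), (nat_lit 98), (nat_lit 31), (nat_lit 100), (nat_lit 303799899)⟩], [], [],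
 ⟨⟨[(nat_lit 40), (nat_lit 100), (nat_lit 140)], [(nat_lit 0), (nat_lit 4401), (nat_lit 6848)], [((nat_lit 0), (nat_lit 0), (nat_lit 0)), ((nat_lit 1000), (nat_lit 312), (nat_lit 943)), ((nat_lit 1000), (nat_lit 312), (nat_lit 956))], ((nat_lit 31), (nat_lit 98), (nat_lit 100))⟩, (nat_lit 1115738), (nat_lit 240), (nat_lit 240), (nat_lit 0), (nat_lit 252848), [(nat_lit 2032000020), (nat_lit 6513066540), (nat_lit 9842000000)], [], [(nat_lit 29063493756), (nat_lit 29611555806), (nat_lit 33261775621), (nat_lit 33677890306), (nat_lit 30091995648), (nat_lit 30530552535), (nat_lit 33463343882), (nat_lit 33857142389)], (nat_lit 1271251), (nat_lit 1271251), (nat_lit 1271251), (nat_lit 1271251), (nat_lit 631250), (nat_lit 1831251), [(nat_lit 490000), (nat_lit 1427501), (nat_lit 1271251)], [(nat_lit 5), (nat_lit 55), (nat_lit 289), (nat_lit 75), (nat_lit 7)]⟩,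
 ⟨⟨[(nat_lit 40), (nat_lit 120), (nat_lit 180)], [(nat_lit 0), (nat_lit 1589), (nat_lit 7199)], [((nat_lit 0), (nat_lit 0), (nat_lit 0)), ((nat_lit 1000), (nat_lit 814), (nat_lit 310)), ((nat_lit 686), (nat_lit 714), (nat_lit 1000))], ((nat_lit 72), (nat_lit 77), (nat_lit 100))⟩, (nat_lit 1651251), (nat_lit 411), (nat_lit 411), (nat_lit 0), (nat_lit 320798), [(nat_lit 2032000000), (nat_lit 7968000000), (nat_lit 14058000000)], [], [(nat_lit 33533328372), (nat_lit 34367682496), (nat_lit 37439805508), (nat_lit 38255493208), (nat_lit 30326554881), (nat_lit 31005880778), (nat_lit 33994275672), (nat_lit 34672188537)], (nat_lit 1271251), (nat_lit 1271251), (nat_lit 1271251), (nat_lit 1271251), (nat_lit 169688), (nat_lit 1418125), [(nat_lit 490000), (nat_lit 1740001), (nat_lit 1271251)], [(nat_lit 7), (nat_lit 60), (nat_lit 483), (nat_lit 250), (nat_lit 10)]⟩,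
 ⟨⟨[(nat_lit 120), (nat_lit 160), (nat_lit 200)], [(nat_lit 0), (nat_lit 0), (nat_lit 3198)], [((nat_lit 0), (nat_lit 0), (nat_lit 0)), ((nat_lit 0), (nat_lit 0), (nat_lit 0)), ((nat_lit 572), (nat_lit 1000), (nat_lit 714))], ((nat_lit 0), (nat_lit 0), (nat_lit 0))⟩, (nat_lit 46829), (nat_lit 300), (nat_lit 1255), (nat_lit 7123205), (nat_lit 1710771), [(nat_lit 764928000), (nat_lit 1139712000), (nat_lit 1574400000)], [], [(nat_lit 6591352395), (nat_lit 6524870991), (nat_lit 5989066337), (nat_lit 5920346752), (nat_lit 5626491321), (nat_lit 5560475962), (nat_lit 5855334917), (nat_lit 6175987430)], (nat_lit 1100000), (nat_lit 1271251), (nat_lit 631250), (nat_lit 1831251), (nat_lit 169688), (nat_lit 1418125), [(nat_lit 1695001), (nat_lit 1271251), (nat_lit 1271251)], [(nat_lit 29), (nat_lit 66), (nat_lit 401), (nat_lit 175), (nat_lit 9)]⟩⟩)))))) (.spl (nat_lit 0) (nat_lit 390) (.spl (nat_lit 6) (nat_lit 176) (.leaf ⟨(nat_lit 0), (nat_lit 774), (nat_lit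 0), (nat_lit 226), (nat_lit 0), (nat_lit 4228), (nat_lit 6625), (nat_lit 2453), (nat_lit 0), (nat_lit 0), (nat_lit 0), [], Pd.none, Pd.none, (nat_lit 0), (nat_lit 1), (nat_lit 0), (nat_lit 0), (nat_lit 5), (nat_lit 0), [], [⟨(nat_lit 1), (nat_lit 98), (nat_lit 38), (nat_lit 100), (nat_lit 19376642)⟩], [⟨(nat_lit 1), (nat_lit 85), (nat_lit 67), (nat_lit 100), (nat_lit 183170684)⟩], [],
 ⟨⟨[(nat_lit 40), (nat_lit 100), (nat_lit 140)], [(nat_lit 0), (nat_lit 3610), (nat_lit 5926)], [((nat_lit 0), (nat_lit 0), (nat_lit 0)), ((nat_lit 1000), (nat_lit 436), (nat_lit 895)), ((nat_lit 1000), (nat_lit 436), (nat_lit 905))], ((nat_lit 44), (nat_lit 95), (nat_lit 100))⟩, (nat_lit 1297742), (nat_lit 246), (nat_lit 246), (nat_lit 0), (nat_lit 207888), [(nat_lit 2032000052), (nat_lit 6401048779), (nat_lit 9842000000)], [], [(nat_lit 28158186367), (nat_lit 28749151019), (nat_lit 33743478062), (nat_lit 34159246556), (nat_lit 29588652031), (nat_lit 30019189167),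 (nat_lit 33909990178), (nat_lit 34348934325)], (nat_lit 1271251), (nat_lit 1271251), (nat_lit 1271251), (nat_lit 1271251), (nat_lit 422188), (nat_lit 1965938), [(nat_lit 490000), (nat_lit 1427501), (nat_lit 1271251)], [(nat_lit 5), (nat_lit 55), (nat_lit 401), (nat_lit 175), (nat_lit 10)]⟩,
 ⟨⟨[(nat_lit 40), (nat_lit 120), (nat_lit 180)], [(nat_lit 0), (nat_lit 1589), (nat_lit 7199)], [((nat_lit 0), (nat_lit 0), (nat_lit 0)), ((nat_lit 1000), (nat_lit 814), (nat_lit 310)), ((nat_lit 686), (nat_lit 714), (nat_lit 1000))], ((nat_lit 72), (nat_lit 79), (nat_lit 100))⟩, (nat_lit 1583497), (nat_lit 251), (nat_lit 251), (nat_lit 0), (nat_lit 249935), [(nat_lit 2032000000), (nat_lit 7968000000), (nat_lit 14058000000)], [], [(nat_lit 29590835474), (nat_lit 30324223521), (nat_lit 33887839347), (nat_lit 35105092625), (nat_lit 31505208125), (nat_lit 32244146933), (nat_lit 36960662063), (nat_lit 37866383063)], (nat_lit 1271251), (nat_lit 1271251), (nat_lit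 1271251), (nat_lit 1271251), (nat_lit 1271251), (nat_lit 1271251), [(nat_lit 490000), (nat_lit 1740001), (nat_lit 1271251)], [(nat_lit 7), (nat_lit 60), (nat_lit 538), (nat_lit 300), (nat_lit 11)]⟩,
 ⟨⟨[(nat_lit 120), (nat_lit 160), (nat_lit 200)], [(nat_lit 0), (nat_lit 0), (nat_lit 3198)], [((nat_lit 0), (nat_lit 0), (nat_lit 0)), ((nat_lit 0), (nat_lit 0), (nat_lit 0)), ((nat_lit 572), (nat_lit 1000), (nat_lit 714))], ((nat_lit 0), (nat_lit 0), (nat_lit 0))⟩, (nat_lit 110244), (nat_lit 300), (nat_lit 1002), (nat_lit 16769200), (nat_lit 1331036), [(nat_lit 1800768000), (nat_lit 2683072000), (nat_lit 3706400000)], [], [(nat_lit 14655167988), (nat_lit 14502467133), (nat_lit 12879258474), (nat_lit 12937051627), (nat_lit 13920805720), (nat_lit 13762211487), (nat_lit 12104855760), (nat_lit 11952579388)], (nat_lit 1100000), (nat_lit 1271251), (nat_lit 422188), (nat_lit 1965938), (nat_lit 1271251), (nat_lit 1271251), [(nat_lit 1695001), (nat_lit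 1271251), (nat_lit 1271251)], [(nat_lit 29), (nat_lit 66), (nat_lit 428), (nat_lit 200), (nat_lit 9)]⟩⟩) (.dle (nat_lit 0))) (.trZ (nat_lit 0) (nat_lit 1) (nat_lit 3) (nat_lit 80) (nat_lit 35) (nat_lit 100) (nat_lit 280) (.trX (nat_lit 3) (nat_lit 0) (nat_lit 1) (nat_lit 52) (nat_lit 53) (nat_lit 100) (nat_lit 390) (.trZ (nat_lit 0) (nat_lit 2) (nat_lit 4) (nat_lit 100) (nat_lit 32) (nat_lit 89) (nat_lit 100) (.trX (nat_lit 4) (nat_lit 0) (nat_lit 2) (nat_lit 31) (nat_lit 98) (nat_lit 100) (nat_lit 250) (.leaf ⟨(nat_lit 0), (nat_lit 783), (nat_lit 0), (nat_lit 217), (nat_lit 0), (nat_lit 4203), (nat_lit 7003), (nat_lit 2383), (nat_lit 0), (nat_lit 0), (nat_lit 0), [], Pd.none, Pd.none, (nat_lit 0), (nat_lit 1), (nat_lit 0), (nat_lit 0), (nat_lit 5), (nat_lit 0), [⟨(nat_lit 0), (nat_lit 82), (nat_lit 27), (nat_lit 100), (nat_lit 106146619)⟩], [⟨(nat_lit 1), (nat_lit 100), (nat_lit 22), (nat_lit 99), (nat_lit 120954086)⟩], [⟨(nat_lit 1), (nat_lit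 85), (nat_lit 67), (nat_lit 100), (nat_lit 203022923)⟩], [],
 ⟨⟨[(nat_lit 40), (nat_lit 100), (nat_lit 140)], [(nat_lit 0), (nat_lit 4401), (nat_lit 6848)], [((nat_lit 0), (nat_lit 0), (nat_lit 0)), ((nat_lit 1000), (nat_lit 312), (nat_lit 943)), ((nat_lit 1000), (nat_lit 312), (nat_lit 956))], ((nat_lit 31), (nat_lit 98), (nat_lit 100))⟩, (nat_lit 1147506), (nat_lit 240), (nat_lit 240), (nat_lit 0), (nat_lit 252848), [(nat_lit 2032000027), (nat_lit 6812763583), (nat_lit 9842000000)], [], [(nat_lit 28845946492), (nat_lit 29394008542), (nat_lit 33044228357), (nat_lit 33460343042), (nat_lit 29874448398), (nat_lit 30313005271), (nat_lit 33386571660), (nat_lit 33857142389)], (nat_lit 1271251), (nat_lit 1271251), (nat_lit 1271251), (nat_lit 1271251), (nat_lit 631250), (nat_lit 1831251), [(nat_lit 490000), (nat_lit 1427501), (nat_lit 1271251)], [(nat_lit 5), (nat_lit 55), (nat_lit 289), (nat_lit 75), (nat_lit 7)]⟩,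
 ⟨⟨[(nat_lit 40), (nat_lit 120), (nat_lit 180)], [(nat_lit 0), (nat_lit 1589), (nat_lit 7199)], [((nat_lit 0), (nat_lit 0), (nat_lit 0)), ((nat_lit 1000), (nat_lit 814), (nat_lit 310)), ((nat_lit 686), (nat_lit 714), (nat_lit 1000))], ((nat_lit 72), (nat_lit 77), (nat_lit 100))⟩, (nat_lit 1342680), (nat_lit 272), (nat_lit 272), (nat_lit 0), (nat_lit 320798), [(nat_lit 2032000000), (nat_lit 7968000000), (nat_lit 14058000000)], [], [(nat_lit 31440489961), (nat_lit 32154127363), (nat_lit 35147511842), (nat_lit 35851872087), (nat_lit 33430667621), (nat_lit 34148044065), (nat_lit 36874044929), (nat_lit 37836854098)], (nat_lit 1271251), (nat_lit 1271251), (nat_lit 1271251), (nat_lit 1271251), (nat_lit 1271251), (nat_lit 1271251), [(nat_lit 490000), (nat_lit 1740001), (nat_lit 1271251)], [(nat_lit 7), (nat_lit 60), (nat_lit 538), (nat_lit 300), (nat_lit 11)]⟩,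
 ⟨⟨[(nat_lit 120), (nat_lit 160), (nat_lit 200)], [(nat_lit 0), (nat_lit 0), (nat_lit 3198)], [((nat_lit 0), (nat_lit 0), (nat_lit 0)), ((nat_lit 0), (nat_lit 0), (nat_lit 0)), ((nat_lit 572), (nat_lit 1000), (nat_lit 714))], ((nat_lit 0), (nat_lit 0), (nat_lit 0))⟩, (nat_lit 105854), (nat_lit 300), (nat_lit 1140), (nat_lit 16101400), (nat_lit 1710771), [(nat_lit 1729056000), (nat_lit 2576224000), (nat_lit 3558800000)], [], [(nat_lit 13560055336), (nat_lit 13411746804), (nat_lit 12295301402), (nat_lit 12145190029), (nat_lit 12842564294), (nat_lit 12695777187), (nat_lit 11577505102), (nat_lit 11430173197)], (nat_lit 1100000), (nat_lit 1271251), (nat_lit 631250), (nat_lit 1831251), (nat_lit 1271251), (nat_lit 1271251), [(nat_lit 1695001), (nat_lit 1271251), (nat_lit 1271251)], [(nat_lit 29), (nat_lit 66), (nat_lit 428), (nat_lit 200), (nat_lit 9)]⟩⟩)))))))))))))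
noncomputable def c15_30 : Tr Lf :=
 (.trZ (nat_lit 0) (nat_lit 2) (nat_lit 4) (nat_lit 100) (nat_lit 44) (nat_lit 86) (nat_lit 90) (.trZ (nat_lit 1) (nat_lit 2) (nat_lit 5) (nat_lit 100) (nat_lit 80) (nat_lit 52) (nat_lit 20) (.spl (nat_lit 6) (nat_lit 176) (.spl (nat_lit 5) (nat_lit 120) (.spl (nat_lit 0) (nat_lit 390) (.spl (nat_lit 6) (nat_lit 160) (.leaf ⟨(nat_lit 4), (nat_lit 796), (nat_lit 0), (nat_lit 200), (nat_lit 12201), (nat_lit 4494), (nat_lit 7445), (nat_lit 2670), (nat_lit 0), (nat_lit 0), (nat_lit 1040), [((nat_lit 390), [((nat_lit 42), (nat_lit 0), (nat_lit 4))])], ⟨(nat_lit 8), false, true, false, (nat_lit 329), (nat_lit 1581), (nat_lit 2237), [(nat_lit 1679198), (nat_lit 1680658), (nat_lit 1724656), (nat_lit 1727197), (nat_lit 1921722), (nat_lit 1913068), (nat_lit 1967270), (nat_lit 1959698)]⟩, ⟨(nat_lit 4), false, false, true, (nat_lit 190), (nat_lit 1581), (nat_lit 2237), [(nat_lit 1320243), (nat_lit 1326247), (nat_lit 1342972),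 (nat_lit 1349516), (nat_lit 1605509), (nat_lit 1599614), (nat_lit 1628284), (nat_lit 1622929)]⟩, (nat_lit 5340462), (nat_lit 33817122), (nat_lit 23545833), (nat_lit 9637045), (nat_lit 4), (nat_lit 0), [⟨(nat_lit 0), (nat_lit 77), (nat_lit 41), (nat_lit 100), (nat_lit 131435078)⟩], [⟨(nat_lit 1), (nat_lit 94), (nat_lit 38), (nat_lit 100), (nat_lit 100588480)⟩], [⟨(nat_lit 0), (nat_lit 100), (nat_lit 72), (nat_lit 66), (nat_lit 258887951)⟩], [],
 ⟨⟨[(nat_lit 40), (nat_lit 100), (nat_lit 140)], [(nat_lit 0), (nat_lit 3610), (nat_lit 5926)], [((nat_lit 0), (nat_lit 0), (nat_lit 0)), ((nat_lit 1000), (nat_lit 436), (nat_lit 895)), ((nat_lit 1000), (nat_lit 436), (nat_lit 905))], ((nat_lit 44), (nat_lit 99), (nat_lit 100))⟩, (nat_lit 1394960), (nat_lit 217), (nat_lit 217), (nat_lit 0), (nat_lit 158472), [(nat_lit 2026856046), (nat_lit 7339915689), (nat_lit 9366188637)], [(nat_lit 0), (nat_lit 0), (nat_lit 0)], [(nat_lit 26219824487), (nat_lit 26699959047),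 (nat_lit 33579857074), (nat_lit 34170063906), (nat_lit 28315486889), (nat_lit 28773217291), (nat_lit 34749600248), (nat_lit 35179706640)], (nat_lit 1271251), (nat_lit 1271251), (nat_lit 1271251), (nat_lit 1271251), (nat_lit 559688), (nat_lit 2140938), [(nat_lit 490000), (nat_lit 1427501), (nat_lit 1271251)], [(nat_lit 5), (nat_lit 55), (nat_lit 401), (nat_lit 175), (nat_lit 10)]⟩,
 ⟨⟨[(nat_lit 40), (nat_lit 120), (nat_lit 180)], [(nat_lit 0), (nat_lit 0), (nat_lit 6400)], [((nat_lit 0), (nat_lit 0), (nat_lit 0)), ((nat_lit 0), (nat_lit 0), (nat_lit 0)), ((nat_lit 600), (nat_lit 800), (nat_lit 1000))], ((nat_lit 82), (nat_lit 76), (nat_lit 100))⟩, (nat_lit 1418016), (nat_lit 372), (nat_lit 372), (nat_lit 0), (nat_lit 160579), [(nat_lit 2023872000), (nat_lit 7936128000), (nat_lit 14001768000)], [], [(nat_lit 36206997790), (nat_lit 38263590520), (nat_lit 41792980437), (nat_lit 43500319169), (nat_lit 32126626385), (nat_lit 33994985936), (nat_lit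 37387773700), (nat_lit 38989144434)], (nat_lit 1271251), (nat_lit 1271251), (nat_lit 1271251), (nat_lit 1271251), (nat_lit 111251), (nat_lit 780000), [(nat_lit 490000), (nat_lit 1740001), (nat_lit 1271251)], [(nat_lit 7), (nat_lit 60), (nat_lit 456), (nat_lit 225), (nat_lit 10)]⟩,
 ⟨⟨[(nat_lit 120), (nat_lit 160), (nat_lit 200)], [(nat_lit 0), (nat_lit 533), (nat_lit 3597)], [((nat_lit 0), (nat_lit 0), (nat_lit 0)), ((nat_lit 960), (nat_lit 1000), (nat_lit 200)), ((nat_lit 612), (nat_lit 1000), (nat_lit 732))], ((nat_lit 0), (nat_lit 0), (nat_lit 0))⟩, (nat_lit 106457), (nat_lit 300), (nat_lit 710), (nat_lit 14485371), (nat_lit 519697), [(nat_lit 1593600000), (nat_lit 2374400000), (nat_lit 3280000000)], [], [(nat_lit 13203374939), (nat_lit 13072282710), (nat_lit 11660471280), (nat_lit 11561557984), (nat_lit 11372009279), (nat_lit 11245173229), (nat_lit 12079162042), (nat_lit 10833198032)], (nat_lit 1271251), (nat_lit 1271251), (nat_lit 559688),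 (nat_lit 2140938), (nat_lit 111251), (nat_lit 780000), [(nat_lit 1695001), (nat_lit 1271251), (nat_lit 1271251)], [(nat_lit 29), (nat_lit 66), (nat_lit 401), (nat_lit 175), (nat_lit 9)]⟩⟩) (.dle (nat_lit 0))) (.trZ (nat_lit 0) (nat_lit 1) (nat_lit 3) (nat_lit 84) (nat_lit 33) (nat_lit 100) (nat_lit 260) (.trX (nat_lit 3) (nat_lit 0) (nat_lit 1) (nat_lit 52) (nat_lit 53) (nat_lit 100) (nat_lit 390) (.trZ (nat_lit 0) (nat_lit 2) (nat_lit 4) (nat_lit 100) (nat_lit 31) (nat_lit 92) (nat_lit 110) (.trX (nat_lit 4) (nat_lit 0) (nat_lit 2) (nat_lit 31) (nat_lit 95) (nat_lit 100) (nat_lit 270) (.leaf ⟨(nat_lit 0), (nat_lit 837), (nat_lit 0), (nat_lit 163), (nat_lit 13396), (nat_lit 4251), (nat_lit 7597), (nat_lit 2234), (nat_lit 0), (nat_lit 0), (nat_lit 0), [], Pd.none, Pd.none, (nat_lit 0), (nat_lit 1), (nat_lit 0), (nat_lit 0), (nat_lit 4), (nat_lit 0), [⟨(nat_lit 0), (nat_lit 84), (nat_lit 26), (nat_lit 100), (nat_lit 211980152)⟩], [⟨(nat_lit 1),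 (nat_lit 99), (nat_lit 22), (nat_lit 100), (nat_lit 342674860)⟩], [⟨(nat_lit 0), (nat_lit 100), (nat_lit 72), (nat_lit 66), (nat_lit 251498673)⟩], [],
 ⟨⟨[(nat_lit 40), (nat_lit 80), (nat_lit 120)], [(nat_lit 0), (nat_lit 3225), (nat_lit 5518)], [((nat_lit 0), (nat_lit 0), (nat_lit 0)), ((nat_lit 1000), (nat_lit 321), (nat_lit 877)), ((nat_lit 1000), (nat_lit 317), (nat_lit 896))], ((nat_lit 31), (nat_lit 99), (nat_lit 100))⟩, (nat_lit 933759), (nat_lit 195), (nat_lit 195), (nat_lit 0), (nat_lit 203441), [(nat_lit 2032006619), (nat_lit 4896898228), (nat_lit 7968000000)], [], [(nat_lit 27793617810), (nat_lit 28402762766), (nat_lit 33010732582), (nat_lit 33457727228), (nat_lit 29759518959), (nat_lit 30236642115), (nat_lit 33927633466), (nat_lit 34381355197)], (nat_lit 1271251), (nat_lit 1271251), (nat_lit 1271251), (nat_lit 1271251), (nat_lit 704688), (nat_lit 1999688), [(nat_lit 490000), (nat_lit 1100000), (nat_lit 1785001)], [(nat_lit 4), (nat_lit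 51), (nat_lit 289), (nat_lit 75), (nat_lit 8)]⟩,
 ⟨⟨[(nat_lit 40), (nat_lit 120), (nat_lit 180)], [(nat_lit 0), (nat_lit 0), (nat_lit 6400)], [((nat_lit 0), (nat_lit 0), (nat_lit 0)), ((nat_lit 0), (nat_lit 0), (nat_lit 0)), ((nat_lit 600), (nat_lit 800), (nat_lit 1000))], ((nat_lit 81), (nat_lit 70), (nat_lit 100))⟩, (nat_lit 1463135), (nat_lit 387), (nat_lit 387), (nat_lit 0), (nat_lit 217745), [(nat_lit 2032000000), (nat_lit 7968000000), (nat_lit 14058000000)], [], [(nat_lit 36653056836), (nat_lit 38598119938), (nat_lit 41272095324), (nat_lit 43066144325), (nat_lit 32400055323), (nat_lit 34167125620), (nat_lit 36854647430), (nat_lit 38531537036)], (nat_lit 1271251), (nat_lit 1271251), (nat_lit 1271251), (nat_lit 1271251), (nat_lit 111251), (nat_lit 780000), [(nat_lit 490000), (nat_lit 1740001), (nat_lit 1271251)], [(nat_lit 7), (nat_lit 60), (nat_lit 456), (nat_lit 225), (nat_lit 10)]⟩,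
 ⟨⟨[(nat_lit 120), (nat_lit 160), (nat_lit 200)], [(nat_lit 0), (nat_lit 533), (nat_lit 3597)], [((nat_lit 0), (nat_lit 0), (nat_lit 0)), ((nat_lit 960), (nat_lit 1000), (nat_lit 200)), ((nat_lit 612), (nat_lit 1000), (nat_lit 732))], ((nat_lit 0), (nat_lit 0), (nat_lit 0))⟩, (nat_lit 86763), (nat_lit 300), (nat_lit 806), (nat_lit 11805571), (nat_lit 710465), [(nat_lit 1298784000), (nat_lit 1935136000), (nat_lit 2673200000)], [], [(nat_lit 10489024709), (nat_lit 10377595410), (nat_lit 9447005881), (nat_lit 9368526361), (nat_lit 8962720094), (nat_lit 8854738229), (nat_lit 9612959351), (nat_lit 8563409815)], (nat_lit 1271251), (nat_lit 1271251), (nat_lit 704688), (nat_lit 1999688), (nat_lit 111251), (nat_lit 780000), [(nat_lit 1695001), (nat_lit 1271251), (nat_lit 1271251)], [(nat_lit 29), (nat_lit 66), (nat_lit 373), (nat_lit 150), (nat_lit 8)]⟩⟩)))))) (.spl (nat_lit 0) (nat_lit 390) (.spl (nat_lit 6) (nat_lit 160) (.leaf ⟨(nat_lit 0), (nat_lit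 637), (nat_lit 0), (nat_lit 363), (nat_lit 5263), (nat_lit 4203), (nat_lit 9057), (nat_lit 2130), (nat_lit 0), (nat_lit 0), (nat_lit 0), [], Pd.none, Pd.none, (nat_lit 0), (nat_lit 1), (nat_lit 0), (nat_lit 0), (nat_lit 4), (nat_lit 0), [⟨(nat_lit 0), (nat_lit 77), (nat_lit 41), (nat_lit 100), (nat_lit 122295000)⟩], [], [], [],
 ⟨⟨[(nat_lit 40), (nat_lit 100), (nat_lit 140)], [(nat_lit 0), (nat_lit 3610), (nat_lit 5926)], [((nat_lit 0), (nat_lit 0), (nat_lit 0)), ((nat_lit 1000), (nat_lit 436), (nat_lit 895)), ((nat_lit 1000), (nat_lit 436), (nat_lit 905))], ((nat_lit 44), (nat_lit 99), (nat_lit 100))⟩, (nat_lit 1302905), (nat_lit 217), (nat_lit 217), (nat_lit 0), (nat_lit 158472), [(nat_lit 2032000017), (nat_lit 6250000043), (nat_lit 9842000000)], [], [(nat_lit 27058059356), (nat_lit 27524708444), (nat_lit 33273084425), (nat_lit 33681498560), (nat_lit 29515785374), (nat_lit 29916265232), (nat_lit 34350396627), (nat_lit 34770246106)], (nat_lit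 1271251), (nat_lit 1271251), (nat_lit 1271251), (nat_lit 1271251), (nat_lit 559688), (nat_lit 2140938), [(nat_lit 490000), (nat_lit 1427501), (nat_lit 1271251)], [(nat_lit 5), (nat_lit 55), (nat_lit 401), (nat_lit 175), (nat_lit 10)]⟩,
 ⟨⟨[(nat_lit 40), (nat_lit 120), (nat_lit 180)], [(nat_lit 0), (nat_lit 0), (nat_lit 6400)], [((nat_lit 0), (nat_lit 0), (nat_lit 0)), ((nat_lit 0), (nat_lit 0), (nat_lit 0)), ((nat_lit 600), (nat_lit 800), (nat_lit 1000))], ((nat_lit 82), (nat_lit 76), (nat_lit 100))⟩, (nat_lit 1057571), (nat_lit 263), (nat_lit 263), (nat_lit 0), (nat_lit 197576), [(nat_lit 2032000000), (nat_lit 7968000000), (nat_lit 14058000000)], [], [(nat_lit 32280636491), (nat_lit 34344421973), (nat_lit 39235970922), (nat_lit 40947654486), (nat_lit 35263975330), (nat_lit 36888717448), (nat_lit 40644790766), (nat_lit 42523667600)], (nat_lit 1271251), (nat_lit 1271251), (nat_lit 1271251), (nat_lit 1271251), (nat_lit 780000), (nat_lit 2745001),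 [(nat_lit 490000), (nat_lit 1740001), (nat_lit 1271251)], [(nat_lit 7), (nat_lit 60), (nat_lit 538), (nat_lit 300), (nat_lit 12)]⟩,
 ⟨⟨[(nat_lit 120), (nat_lit 160), (nat_lit 200)], [(nat_lit 0), (nat_lit 533), (nat_lit 3597)], [((nat_lit 0), (nat_lit 0), (nat_lit 0)), ((nat_lit 960), (nat_lit 1000), (nat_lit 200)), ((nat_lit 612), (nat_lit 1000), (nat_lit 732))], ((nat_lit 0), (nat_lit 0), (nat_lit 0))⟩, (nat_lit 193220), (nat_lit 300), (nat_lit 748), (nat_lit 26290939), (nat_lit 797115), [(nat_lit 2892384000), (nat_lit 4309536000), (nat_lit 5953200000)], [], [(nat_lit 27726570963), (nat_lit 27671470489), (nat_lit 27012917206), (nat_lit 26943477416), (nat_lit 27331903489), (nat_lit 27253835192), (nat_lit 26705542446), (nat_lit 26335695448)], (nat_lit 1271251), (nat_lit 1271251), (nat_lit 559688), (nat_lit 2140938), (nat_lit 780000), (nat_lit 2745001), [(nat_lit 1695001), (nat_lit 1271251), (nat_lit 1271251)], [(nat_lit 29), (nat_lit 66), (nat_lit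 456), (nat_lit 225), (nat_lit 10)]⟩⟩) (.dle (nat_lit 0))) (.trZ (nat_lit 0) (nat_lit 1) (nat_lit 3) (nat_lit 84) (nat_lit 33) (nat_lit 100) (nat_lit 260) (.trX (nat_lit 3) (nat_lit 0) (nat_lit 1) (nat_lit 52) (nat_lit 53) (nat_lit 100) (nat_lit 390) (.trZ (nat_lit 0) (nat_lit 2) (nat_lit 4) (nat_lit 100) (nat_lit 31) (nat_lit 92) (nat_lit 110) (.trX (nat_lit 4) (nat_lit 0) (nat_lit 2) (nat_lit 31) (nat_lit 95) (nat_lit 100) (nat_lit 270) (.leaf ⟨(nat_lit 0), (nat_lit 707), (nat_lit 0), (nat_lit 293), (nat_lit 0), (nat_lit 4224), (nat_lit 7840), (nat_lit 2798), (nat_lit 0), (nat_lit 0), (nat_lit 0), [], Pd.none, Pd.none, (nat_lit 0), (nat_lit 1), (nat_lit 0), (nat_lit 0), (nat_lit 4), (nat_lit 0), [⟨(nat_lit 0), (nat_lit 84), (nat_lit 26), (nat_lit 100), (nat_lit 332209722)⟩], [⟨(nat_lit 1), (nat_lit 99), (nat_lit 22), (nat_lit 100), (nat_lit 55110478)⟩], [], [],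
 ⟨⟨[(nat_lit 40), (nat_lit 80), (nat_lit 120)], [(nat_lit 0), (nat_lit 3225), (nat_lit 5518)], [((nat_lit 0), (nat_lit 0), (nat_lit 0)), ((nat_lit 1000), (nat_lit 321), (nat_lit 877)), ((nat_lit 1000), (nat_lit 317), (nat_lit 896))], ((nat_lit 31), (nat_lit 99), (nat_lit 100))⟩, (nat_lit 941571), (nat_lit 195), (nat_lit 195), (nat_lit 0), (nat_lit 203441), [(nat_lit 2032000005), (nat_lit 4920134129), (nat_lit 7968000000)], [], [(nat_lit 27793579451), (nat_lit 28360694219), (nat_lit 32959460485), (nat_lit 33405208604), (nat_lit 29767523384), (nat_lit 30204342380), (nat_lit 33890678665), (nat_lit 34343295913)], (nat_lit 1271251), (nat_lit 1271251), (nat_lit 1271251), (nat_lit 1271251), (nat_lit 704688), (nat_lit 1999688), [(nat_lit 490000), (nat_lit 1100000), (nat_lit 1785001)], [(nat_lit 4), (nat_lit 51), (nat_lit 289), (nat_lit 75), (nat_lit 8)]⟩,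
 ⟨⟨[(nat_lit 40), (nat_lit 120), (nat_lit 180)], [(nat_lit 0), (nat_lit 0), (nat_lit 6400)], [((nat_lit 0), (nat_lit 0), (nat_lit 0)), ((nat_lit 0), (nat_lit 0), (nat_lit 0)), ((nat_lit 600), (nat_lit 800), (nat_lit 1000))], ((nat_lit 81), (nat_lit 70), (nat_lit 100))⟩, (nat_lit 1082016), (nat_lit 284), (nat_lit 284), (nat_lit 0), (nat_lit 266796), [(nat_lit 2032000000), (nat_lit 7968000000), (nat_lit 14058000000)], [], [(nat_lit 34480887300), (nat_lit 36273561960), (nat_lit 38660442090), (nat_lit 40015146315), (nat_lit 36287050320), (nat_lit 37303254300), (nat_lit 38966370480), (nat_lit 40299504180)], (nat_lit 1271251), (nat_lit 1271251), (nat_lit 1271251), (nat_lit 1271251), (nat_lit 780000), (nat_lit 2745001), [(nat_lit 490000), (nat_lit 1740001), (nat_lit 1271251)], [(nat_lit 7), (nat_lit 60), (nat_lit 538), (nat_lit 300), (nat_lit 12)]⟩,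
 ⟨⟨[(nat_lit 120), (nat_lit 160), (nat_lit 200)], [(nat_lit 0), (nat_lit 533), (nat_lit 3597)], [((nat_lit 0), (nat_lit 0), (nat_lit 0)), ((nat_lit 960), (nat_lit 1000), (nat_lit 200)), ((nat_lit 612), (nat_lit 1000), (nat_lit 732))], ((nat_lit 0), (nat_lit 0), (nat_lit 0))⟩, (nat_lit 155960), (nat_lit 300), (nat_lit 884), (nat_lit 21221060), (nat_lit 1082027), [(nat_lit 2334624000), (nat_lit 3478496000), (nat_lit 4805200000)], [], [(nat_lit 19808968141), (nat_lit 19659293562), (nat_lit 18488949703), (nat_lit 18332253208), (nat_lit 18356125376), (nat_lit 18192380063), (nat_lit 16934199985), (nat_lit 16765673612)], (nat_lit 1271251), (nat_lit 1271251), (nat_lit 704688), (nat_lit 1999688), (nat_lit 780000), (nat_lit 2745001), [(nat_lit 1695001), (nat_lit 1271251), (nat_lit 1271251)], [(nat_lit 29), (nat_lit 66), (nat_lit 456), (nat_lit 225), (nat_lit 10)]⟩⟩))))))) (.dle (nat_lit 0)))))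
noncomputable def c15_31 : Tr Lf :=
 (.spl (nat_lit 2) (nat_lit 180) (.trX (nat_lit 4) (nat_lit 0) (nat_lit 2) (nat_lit 44) (nat_lit 94) (nat_lit 100) (nat_lit 270) (.spl (nat_lit 6) (nat_lit 172) (.leaf ⟨(nat_lit 0), (nat_lit 905), (nat_lit 0), (nat_lit 95), (nat_lit 0), (nat_lit 6961), (nat_lit 4329), (nat_lit 1030), (nat_lit 698116), (nat_lit 0), (nat_lit 0), [], Pd.none, Pd.none, (nat_lit 0), (nat_lit 1), (nat_lit 0), (nat_lit 0), (nat_lit 4), (nat_lit 0), [⟨(nat_lit 0), (nat_lit 63), (nat_lit 45), (nat_lit 100), (nat_lit 368788520)⟩], [⟨(nat_lit 1), (nat_lit 100), (nat_lit 32), (nat_lit 100), (nat_lit 137058211)⟩], [], [],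
 ⟨⟨[(nat_lit 40), (nat_lit 100), (nat_lit 140)], [(nat_lit 0), (nat_lit 3610), (nat_lit 5926)], [((nat_lit 0), (nat_lit 0), (nat_lit 0)), ((nat_lit 1000), (nat_lit 436), (nat_lit 895)), ((nat_lit 1000), (nat_lit 436), (nat_lit 905))], ((nat_lit 44), (nat_lit 96), (nat_lit 100))⟩, (nat_lit 460682), (nat_lit 300), (nat_lit 341), (nat_lit 50800001), (nat_lit 435121), [(nat_lit 2032000002), (nat_lit 6652366415), (nat_lit 9842000000)], [], [(nat_lit 37437677902), (nat_lit 38351322162), (nat_lit 40960535057), (nat_lit 41619309340), (nat_lit 35860411932), (nat_lit 36510996762), (nat_lit 38282552015), (nat_lit 38745328064)], (nat_lit 1271251), (nat_lit 1271251), (nat_lit 1271251), (nat_lit 1271251), (nat_lit 422188), (nat_lit 1965938), [(nat_lit 490000), (nat_lit 1427501), (nat_lit 1271251)], [(nat_lit 5), (nat_lit 55), (nat_lit 289), (nat_lit 75), (nat_lit 7)]⟩,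
 ⟨⟨[(nat_lit 40), (nat_lit 100), (nat_lit 160)], [(nat_lit 0), (nat_lit 2396), (nat_lit 6144)], [((nat_lit 0), (nat_lit 0), (nat_lit 0)), ((nat_lit 1000), (nat_lit 625), (nat_lit 623)), ((nat_lit 1000), (nat_lit 625), (nat_lit 975))], ((nat_lit 61), (nat_lit 88), (nat_lit 100))⟩, (nat_lit 1677071), (nat_lit 391), (nat_lit 391), (nat_lit 0), (nat_lit 443453), [(nat_lit 2032000000), (nat_lit 6250000000), (nat_lit 11872000000)], [], [(nat_lit 30081281537), (nat_lit 31800005686), (nat_lit 34213488443), (nat_lit 35912142794), (nat_lit 29644479528), (nat_lit 30843386077), (nat_lit 32631906656), (nat_lit 33948636022)], (nat_lit 1271251), (nat_lit 1271251), (nat_lit 1271251), (nat_lit 1271251), (nat_lit 292188), (nat_lit 1421875), [(nat_lit 490000), (nat_lit 1427501), (nat_lit 1271251)], [(nat_lit 6), (nat_lit 56), (nat_lit 373), (nat_lit 150), (nat_lit 9)]⟩,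
 ⟨⟨[(nat_lit 120), (nat_lit 160), (nat_lit 200)], [(nat_lit 0), (nat_lit 0), (nat_lit 3198)], [((nat_lit 0), (nat_lit 0), (nat_lit 0)), ((nat_lit 0), (nat_lit 0), (nat_lit 0)), ((nat_lit 572), (nat_lit 1000), (nat_lit 714))], ((nat_lit 0), (nat_lit 0), (nat_lit 0))⟩, (nat_lit 46341), (nat_lit 300), (nat_lit 1825), (nat_lit 7049008), (nat_lit 2928239), [(nat_lit 756960000), (nat_lit 1127840000), (nat_lit 1558000000)], [], [(nat_lit 6870162528), (nat_lit 6805536203), (nat_lit 6110256219), (nat_lit 6044645538), (nat_lit 6175854843), (nat_lit 6109058897), (nat_lit 5815277930), (nat_lit 6114739789)], (nat_lit 1100000), (nat_lit 1271251), (nat_lit 422188), (nat_lit 1965938), (nat_lit 292188), (nat_lit 1421875), [(nat_lit 1695001), (nat_lit 1271251), (nat_lit 1271251)], [(nat_lit 29), (nat_lit 66), (nat_lit 538), (nat_lit 175), (nat_lit 12)]⟩⟩) (.spl (nat_lit 0) (nat_lit 390) (.ord (.leaf ⟨(nat_lit 0), (nat_lit 876), (nat_lit 0), (nat_lit 124), (nat_lit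 5353), (nat_lit 7408), (nat_lit 6116), (nat_lit 1477), (nat_lit 472588238320), (nat_lit 0), (nat_lit 0), [], Pd.none, Pd.none, (nat_lit 0), (nat_lit 1), (nat_lit 0), (nat_lit 0), (nat_lit 4), (nat_lit 0), [⟨(nat_lit 0), (nat_lit 53), (nat_lit 53), (nat_lit 100), (nat_lit 12635737)⟩], [], [], [],
 ⟨⟨[(nat_lit 40), (nat_lit 100), (nat_lit 140)], [(nat_lit 0), (nat_lit 3610), (nat_lit 5926)], [((nat_lit 0), (nat_lit 0), (nat_lit 0)), ((nat_lit 1000), (nat_lit 436), (nat_lit 895)), ((nat_lit 1000), (nat_lit 436), (nat_lit 905))], ((nat_lit 44), (nat_lit 94), (nat_lit 100))⟩, (nat_lit 0), (nat_lit 223), (nat_lit 223), (nat_lit 0), (nat_lit 142132), [(nat_lit 2812908105), (nat_lit 6331192862), (nat_lit 9842000000)], [], [(nat_lit 37675857348), (nat_lit 38261133581), (nat_lit 43247093801), (nat_lit 43774820357), (nat_lit 36519754920), (nat_lit 37048450547), (nat_lit 40547115649), (nat_lit 40922782421)], (nat_lit 1271251), (nat_lit 1271251), (nat_lit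 1271251), (nat_lit 1271251), (nat_lit 422188), (nat_lit 1965938), [(nat_lit 490000), (nat_lit 1427501), (nat_lit 1271251)], [(nat_lit 5), (nat_lit 55), (nat_lit 289), (nat_lit 75), (nat_lit 7)]⟩,
 ⟨⟨[(nat_lit 40), (nat_lit 100), (nat_lit 160)], [(nat_lit 0), (nat_lit 2396), (nat_lit 6144)], [((nat_lit 0), (nat_lit 0), (nat_lit 0)), ((nat_lit 1000), (nat_lit 625), (nat_lit 623)), ((nat_lit 1000), (nat_lit 625), (nat_lit 975))], ((nat_lit 60), (nat_lit 86), (nat_lit 100))⟩, (nat_lit 590564), (nat_lit 258), (nat_lit 258), (nat_lit 0), (nat_lit 146136), [(nat_lit 2032000000), (nat_lit 6250000000), (nat_lit 11872000000)], [], [(nat_lit 37211972529), (nat_lit 38958114658), (nat_lit 42243395852), (nat_lit 43563190304), (nat_lit 35088970698), (nat_lit 36291353247), (nat_lit 39001328304), (nat_lit 40099384302)], (nat_lit 1271251), (nat_lit 1271251), (nat_lit 1271251), (nat_lit 1271251), (nat_lit 292188), (nat_lit 1421875), [(nat_lit 490000), (nat_lit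 1427501), (nat_lit 1271251)], [(nat_lit 6), (nat_lit 56), (nat_lit 373), (nat_lit 150), (nat_lit 9)]⟩,
 ⟨⟨[(nat_lit 120), (nat_lit 160), (nat_lit 200)], [(nat_lit 0), (nat_lit 0), (nat_lit 3198)], [((nat_lit 0), (nat_lit 0), (nat_lit 0)), ((nat_lit 0), (nat_lit 0), (nat_lit 0)), ((nat_lit 572), (nat_lit 1000), (nat_lit 714))], ((nat_lit 0), (nat_lit 0), (nat_lit 0))⟩, (nat_lit 60488), (nat_lit 300), (nat_lit 891), (nat_lit 9200800), (nat_lit 903145), [(nat_lit 988032000), (nat_lit 1472128000), (nat_lit 2033600000)], [], [(nat_lit 8513709535), (nat_lit 8427301896), (nat_lit 7437970964), (nat_lit 7348102433), (nat_lit 7466071366), (nat_lit 7379581966), (nat_lit 7782280737), (nat_lit 8203326892)], (nat_lit 1100000), (nat_lit 1271251), (nat_lit 422188), (nat_lit 1965938), (nat_lit 292188), (nat_lit 1421875), [(nat_lit 1695001), (nat_lit 1271251), (nat_lit 1271251)], [(nat_lit 29), (nat_lit 66), (nat_lit 401), (nat_lit 175), (nat_lit 9)]⟩⟩)) (.trZ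 (nat_lit 0) (nat_lit 1) (nat_lit 3) (nat_lit 73) (nat_lit 38) (nat_lit 100) (nat_lit 310) (.trZ (nat_lit 0) (nat_lit 2) (nat_lit 4) (nat_lit 100) (nat_lit 32) (nat_lit 89) (nat_lit 100) (.trX (nat_lit 4) (nat_lit 0) (nat_lit 2) (nat_lit 31) (nat_lit 98) (nat_lit 100) (nat_lit 250) (.leaf ⟨(nat_lit 0), (nat_lit 916), (nat_lit 0), (nat_lit 84), (nat_lit 146), (nat_lit 7386), (nat_lit 6101), (nat_lit 1097), (nat_lit 19505), (nat_lit 0), (nat_lit 0), [], Pd.none, Pd.none, (nat_lit 0), (nat_lit 1), (nat_lit 0), (nat_lit 0), (nat_lit 4), (nat_lit 0), [], [⟨(nat_lit 1), (nat_lit 100), (nat_lit 22), (nat_lit 99), (nat_lit 205770691)⟩], [], [],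
 ⟨⟨[(nat_lit 40), (nat_lit 100), (nat_lit 140)], [(nat_lit 0), (nat_lit 4401), (nat_lit 6848)], [((nat_lit 0), (nat_lit 0), (nat_lit 0)), ((nat_lit 1000), (nat_lit 312), (nat_lit 943)), ((nat_lit 1000), (nat_lit 312), (nat_lit 956))], ((nat_lit 31), (nat_lit 98), (nat_lit 100))⟩, (nat_lit 0), (nat_lit 234), (nat_lit 234), (nat_lit 0), (nat_lit 225076), [(nat_lit 2979917735), (nat_lit 6389235563), (nat_lit 9842000000)], [], [(nat_lit 37977128812), (nat_lit 38581015173), (nat_lit 42511828522), (nat_lit 43022705280), (nat_lit 37130540257), (nat_lit 37655936368), (nat_lit 40672752061), (nat_lit 41067137864)], (nat_lit 1271251), (nat_lit 1271251), (nat_lit 1271251), (nat_lit 1271251), (nat_lit 631250), (nat_lit 1831251), [(nat_lit 490000), (nat_lit 1427501), (nat_lit 1271251)], [(nat_lit 5), (nat_lit 55), (nat_lit 289), (nat_lit 75), (nat_lit 7)]⟩,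
 ⟨⟨[(nat_lit 40), (nat_lit 100), (nat_lit 160)], [(nat_lit 0), (nat_lit 2396), (nat_lit 6144)], [((nat_lit 0), (nat_lit 0), (nat_lit 0)), ((nat_lit 1000), (nat_lit 625), (nat_lit 623)), ((nat_lit 1000), (nat_lit 625), (nat_lit 975))], ((nat_lit 60), (nat_lit 86), (nat_lit 100))⟩, (nat_lit 391211), (nat_lit 329), (nat_lit 329), (nat_lit 0), (nat_lit 234053), [(nat_lit 2032000000), (nat_lit 6250000000), (nat_lit 11872000000)], [], [(nat_lit 39506764714), (nat_lit 41393561726), (nat_lit 43456851839), (nat_lit 45214809335), (nat_lit 37278235035), (nat_lit 38804780183), (nat_lit 40228722336), (nat_lit 41691560190)], (nat_lit 1271251), (nat_lit 1271251), (nat_lit 1271251), (nat_lit 1271251), (nat_lit 292188), (nat_lit 1421875), [(nat_lit 490000), (nat_lit 1427501), (nat_lit 1271251)], [(nat_lit 6), (nat_lit 56), (nat_lit 373), (nat_lit 150), (nat_lit 9)]⟩,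
 ⟨⟨[(nat_lit 120), (nat_lit 160), (nat_lit 200)], [(nat_lit 0), (nat_lit 0), (nat_lit 3198)], [((nat_lit 0), (nat_lit 0), (nat_lit 0)), ((nat_lit 0), (nat_lit 0), (nat_lit 0)), ((nat_lit 572), (nat_lit 1000), (nat_lit 714))], ((nat_lit 0), (nat_lit 0), (nat_lit 0))⟩, (nat_lit 0), (nat_lit 300), (nat_lit 1140), (nat_lit 6888000), (nat_lit 1513803), [(nat_lit 669312000), (nat_lit 997248000), (nat_lit 1377600000)], [], [(nat_lit 5843010881), (nat_lit 5776873013), (nat_lit 5251464769), (nat_lit 5194486244), (nat_lit 5058156565), (nat_lit 4991990171), (nat_lit 5281879003), (nat_lit 5585777635)], (nat_lit 1100000), (nat_lit 1271251), (nat_lit 631250), (nat_lit 1831251), (nat_lit 292188), (nat_lit 1421875), [(nat_lit 1695001), (nat_lit 1271251), (nat_lit 1271251)], [(nat_lit 29), (nat_lit 66), (nat_lit 401), (nat_lit 175), (nat_lit 9)]⟩⟩))))))) (.trZ (nat_lit 0) (nat_lit 2) (nat_lit 4) (nat_lit 100) (nat_lit 44) (nat_lit 86) (nat_lit 90) (.trZ (nat_lit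 1) (nat_lit 2) (nat_lit 5) (nat_lit 100) (nat_lit 60) (nat_lit 74) (nat_lit 60) (.spl (nat_lit 0) (nat_lit 390) (.ord (.spl (nat_lit 6) (nat_lit 204) (.spl (nat_lit 0) (nat_lit 385) (.ord (.spl (nat_lit 6) (nat_lit 184) (.leaf ⟨(nat_lit 0), (nat_lit 807), (nat_lit 0), (nat_lit 193), (nat_lit 1063), (nat_lit 7259), (nat_lit 4446), (nat_lit 1895), (nat_lit 86562), (nat_lit 0), (nat_lit 0), [], Pd.none, Pd.none, (nat_lit 0), (nat_lit 1), (nat_lit 0), (nat_lit 0), (nat_lit 4), (nat_lit 0), [], [], [], [],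
 ⟨⟨[(nat_lit 40), (nat_lit 100), (nat_lit 140)], [(nat_lit 0), (nat_lit 3610), (nat_lit 5926)], [((nat_lit 0), (nat_lit 0), (nat_lit 0)), ((nat_lit 1000), (nat_lit 436), (nat_lit 895)), ((nat_lit 1000), (nat_lit 436), (nat_lit 905))], ((nat_lit 44), (nat_lit 93), (nat_lit 100))⟩, (nat_lit 394652), (nat_lit 254), (nat_lit 254), (nat_lit 0), (nat_lit 256475), [(nat_lit 2770641119), (nat_lit 6768424679), (nat_lit 9842000000)], [], [(nat_lit 34284242559), (nat_lit 34644628917), (nat_lit 39878381893), (nat_lit 40134934325), (nat_lit 34744495804), (nat_lit 34993423171), (nat_lit 38542720567), (nat_lit 38806502913)], (nat_lit 1271251), (nat_lit 1271251), (nat_lit 1271251), (nat_lit 1271251), (nat_lit 559688), (nat_lit 2140938), [(nat_lit 490000), (nat_lit 1427501), (nat_lit 1271251)], [(nat_lit 5), (nat_lit 55), (nat_lit 289), (nat_lit 75), (nat_lit 7)]⟩,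
 ⟨⟨[(nat_lit 40), (nat_lit 100), (nat_lit 160)], [(nat_lit 0), (nat_lit 2396), (nat_lit 6144)], [((nat_lit 0), (nat_lit 0), (nat_lit 0)), ((nat_lit 1000), (nat_lit 625), (nat_lit 623)), ((nat_lit 1000), (nat_lit 625), (nat_lit 975))], ((nat_lit 60), (nat_lit 85), (nat_lit 100))⟩, (nat_lit 1686867), (nat_lit 329), (nat_lit 329), (nat_lit 0), (nat_lit 260943), [(nat_lit 2032000000), (nat_lit 6250000000), (nat_lit 11872000000)], [], [(nat_lit 29372755543), (nat_lit 30670612409), (nat_lit 33869615592), (nat_lit 34841717065), (nat_lit 28771988614), (nat_lit 29841108646), (nat_lit 32551680272), (nat_lit 33380665575)], (nat_lit 1271251), (nat_lit 1271251), (nat_lit 1271251), (nat_lit 1271251), (nat_lit 356250), (nat_lit 1423751), [(nat_lit 490000), (nat_lit 1427501), (nat_lit 1271251)], [(nat_lit 6), (nat_lit 56), (nat_lit 373), (nat_lit 150), (nat_lit 9)]⟩,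
 ⟨⟨[(nat_lit 120), (nat_lit 160), (nat_lit 200)], [(nat_lit 0), (nat_lit 533), (nat_lit 3597)], [((nat_lit 0), (nat_lit 0), (nat_lit 0)), ((nat_lit 960), (nat_lit 1000), (nat_lit 200)), ((nat_lit 612), (nat_lit 1000), (nat_lit 732))], ((nat_lit 0), (nat_lit 0), (nat_lit 0))⟩, (nat_lit 102731), (nat_lit 300), (nat_lit 1027), (nat_lit 13978383), (nat_lit 1256758), [(nat_lit 1537824000), (nat_lit 2291296000), (nat_lit 3165200000)], [], [(nat_lit 14046116264), (nat_lit 13932626568), (nat_lit 12830390687), (nat_lit 12713464082), (nat_lit 12916651760), (nat_lit 12803474536), (nat_lit 12699433249), (nat_lit 11838233089)], (nat_lit 1271251), (nat_lit 1271251), (nat_lit 559688), (nat_lit 2140938), (nat_lit 356250), (nat_lit 1423751), [(nat_lit 1695001), (nat_lit 1271251), (nat_lit 1271251)], [(nat_lit 29), (nat_lit 66), (nat_lit 401), (nat_lit 175), (nat_lit 9)]⟩⟩) (.dle (nat_lit 0)))) (.trZ (nat_lit 0) (nat_lit 1) (nat_lit 3) (nat_lit 70) (nat_lit 44)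 (nat_lit 100) (nat_lit 300) (.trZ (nat_lit 0) (nat_lit 2) (nat_lit 4) (nat_lit 100) (nat_lit 38) (nat_lit 89) (nat_lit 100) (.trX (nat_lit 4) (nat_lit 0) (nat_lit 2) (nat_lit 38) (nat_lit 93) (nat_lit 100) (nat_lit 280) (.leaf ⟨(nat_lit 0), (nat_lit 817), (nat_lit 0), (nat_lit 183), (nat_lit 1101), (nat_lit 7449), (nat_lit 4434), (nat_lit 1833), (nat_lit 96523), (nat_lit 0), (nat_lit 0), [], Pd.none, Pd.none, (nat_lit 0), (nat_lit 1), (nat_lit 0), (nat_lit 0), (nat_lit 4), (nat_lit 0), [], [], [], [],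
 ⟨⟨[(nat_lit 40), (nat_lit 100), (nat_lit 140)], [(nat_lit 0), (nat_lit 3968), (nat_lit 6348)], [((nat_lit 0), (nat_lit 0), (nat_lit 0)), ((nat_lit 1000), (nat_lit 380), (nat_lit 921)), ((nat_lit 1000), (nat_lit 380), (nat_lit 930))], ((nat_lit 38), (nat_lit 93), (nat_lit 100))⟩, (nat_lit 306498), (nat_lit 283), (nat_lit 283), (nat_lit 0), (nat_lit 301380), [(nat_lit 2727794615), (nat_lit 6867345092), (nat_lit 9842000000)], [], [(nat_lit 35232644954), (nat_lit 35584336794), (nat_lit 40333303481), (nat_lit 40589799060), (nat_lit 35310378429), (nat_lit 35562302929), (nat_lit 38910233768), (nat_lit 39113448308)], (nat_lit 1271251), (nat_lit 1271251), (nat_lit 1271251), (nat_lit 1271251), (nat_lit 631250), (nat_lit 2071251), [(nat_lit 490000), (nat_lit 1427501), (nat_lit 1271251)], [(nat_lit 5), (nat_lit 55), (nat_lit 289), (nat_lit 75), (nat_lit 7)]⟩,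
 ⟨⟨[(nat_lit 40), (nat_lit 100), (nat_lit 160)], [(nat_lit 0), (nat_lit 2396), (nat_lit 6144)], [((nat_lit 0), (nat_lit 0), (nat_lit 0)), ((nat_lit 1000), (nat_lit 625), (nat_lit 623)), ((nat_lit 1000), (nat_lit 625), (nat_lit 975))], ((nat_lit 60), (nat_lit 80), (nat_lit 100))⟩, (nat_lit 1673283), (nat_lit 343), (nat_lit 343), (nat_lit 0), (nat_lit 308063), [(nat_lit 2032000000), (nat_lit 6250000000), (nat_lit 11872000000)], [], [(nat_lit 29787306003), (nat_lit 31308051713), (nat_lit 33945310008), (nat_lit 35111122438), (nat_lit 29129270362), (nat_lit 30398980503), (nat_lit 32637195728), (nat_lit 33631236005)], (nat_lit 1271251), (nat_lit 1271251), (nat_lit 1271251), (nat_lit 1271251), (nat_lit 356250), (nat_lit 1423751), [(nat_lit 490000), (nat_lit 1427501), (nat_lit 1271251)], [(nat_lit 6), (nat_lit 56), (nat_lit 373), (nat_lit 150), (nat_lit 9)]⟩,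
 ⟨⟨[(nat_lit 120), (nat_lit 160), (nat_lit 200)], [(nat_lit 0), (nat_lit 533), (nat_lit 3597)], [((nat_lit 0), (nat_lit 0), (nat_lit 0)), ((nat_lit 960), (nat_lit 1000), (nat_lit 200)), ((nat_lit 612), (nat_lit 1000), (nat_lit 732))], ((nat_lit 0), (nat_lit 0), (nat_lit 0))⟩, (nat_lit 97409), (nat_lit 300), (nat_lit 1126), (nat_lit 13254107), (nat_lit 1517702), [(nat_lit 1458144000), (nat_lit 2172576000), (nat_lit 3001200000)], [], [(nat_lit 13065816940), (nat_lit 12955187881), (nat_lit 11997498427), (nat_lit 11883949036), (nat_lit 11969718511), (nat_lit 11859418333), (nat_lit 11969674563), (nat_lit 11133915005)], (nat_lit 1271251), (nat_lit 1271251), (nat_lit 631250), (nat_lit 2071251), (nat_lit 356250), (nat_lit 1423751), [(nat_lit 1695001), (nat_lit 1271251), (nat_lit 1271251)], [(nat_lit 29), (nat_lit 66), (nat_lit 401), (nat_lit 175), (nat_lit 9)]⟩⟩))))) (.dle (nat_lit 0)))) (.trZ (nat_lit 0) (nat_lit 1) (nat_lit 3) (nat_lit 73) (nat_lit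 38) (nat_lit 100) (nat_lit 310) (.trZ (nat_lit 0) (nat_lit 2) (nat_lit 4) (nat_lit 100) (nat_lit 31) (nat_lit 92) (nat_lit 110) (.trX (nat_lit 4) (nat_lit 0) (nat_lit 2) (nat_lit 31) (nat_lit 95) (nat_lit 100) (nat_lit 270) (.leaf ⟨(nat_lit 0), (nat_lit 845), (nat_lit 0), (nat_lit 155), (nat_lit 534), (nat_lit 7291), (nat_lit 5142), (nat_lit 1635), (nat_lit 1842529), (nat_lit 0), (nat_lit 0), [], Pd.none, Pd.none, (nat_lit 0), (nat_lit 1), (nat_lit 0), (nat_lit 0), (nat_lit 4), (nat_lit 0), [⟨(nat_lit 0), (nat_lit 70), (nat_lit 36), (nat_lit 100), (nat_lit 1687961)⟩], [⟨(nat_lit 1), (nat_lit 95), (nat_lit 31), (nat_lit 100), (nat_lit 92278800)⟩], [], [],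
 ⟨⟨[(nat_lit 40), (nat_lit 100), (nat_lit 140)], [(nat_lit 0), (nat_lit 4401), (nat_lit 6848)], [((nat_lit 0), (nat_lit 0), (nat_lit 0)), ((nat_lit 1000), (nat_lit 312), (nat_lit 943)), ((nat_lit 1000), (nat_lit 312), (nat_lit 956))], ((nat_lit 31), (nat_lit 95), (nat_lit 100))⟩, (nat_lit 398656), (nat_lit 300), (nat_lit 306), (nat_lit 50800027), (nat_lit 386047), [(nat_lit 2032000399), (nat_lit 6737940657), (nat_lit 9842000000)], [], [(nat_lit 36702581640), (nat_lit 37125262117), (nat_lit 39556291668), (nat_lit 40195632314), (nat_lit 35760562579), (nat_lit 36073748049), (nat_lit 38666548697), (nat_lit 39223175984)], (nat_lit 1271251), (nat_lit 1271251), (nat_lit 1271251), (nat_lit 1271251), (nat_lit 704688), (nat_lit 1999688), [(nat_lit 490000), (nat_lit 1427501), (nat_lit 1271251)], [(nat_lit 5), (nat_lit 55), (nat_lit 289), (nat_lit 75), (nat_lit 7)]⟩,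
 ⟨⟨[(nat_lit 40), (nat_lit 100), (nat_lit 160)], [(nat_lit 0), (nat_lit 2396), (nat_lit 6144)], [((nat_lit 0), (nat_lit 0), (nat_lit 0)), ((nat_lit 1000), (nat_lit 625), (nat_lit 623)), ((nat_lit 1000), (nat_lit 625), (nat_lit 975))], ((nat_lit 60), (nat_lit 80), (nat_lit 100))⟩, (nat_lit 1245804), (nat_lit 370), (nat_lit 370), (nat_lit 0), (nat_lit 397656), [(nat_lit 2032000000), (nat_lit 6250000000), (nat_lit 11872000000)], [], [(nat_lit 32981899154), (nat_lit 35098022931), (nat_lit 37029916104), (nat_lit 38666770316), (nat_lit 31739247164), (nat_lit 33513894033), (nat_lit 35142360464), (nat_lit 36526124932)], (nat_lit 1271251), (nat_lit 1271251), (nat_lit 1271251), (nat_lit 1271251), (nat_lit 356250), (nat_lit 1423751), [(nat_lit 490000), (nat_lit 1427501), (nat_lit 1271251)], [(nat_lit 6), (nat_lit 56), (nat_lit 373), (nat_lit 150), (nat_lit 9)]⟩,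
 ⟨⟨[(nat_lit 120), (nat_lit 160), (nat_lit 200)], [(nat_lit 0), (nat_lit 533), (nat_lit 3597)], [((nat_lit 0), (nat_lit 0), (nat_lit 0)), ((nat_lit 960), (nat_lit 1000), (nat_lit 200)), ((nat_lit 612), (nat_lit 1000), (nat_lit 732))], ((nat_lit 0), (nat_lit 0), (nat_lit 0))⟩, (nat_lit 82504), (nat_lit 300), (nat_lit 1359), (nat_lit 11226166), (nat_lit 2047422), [(nat_lit 1235040000), (nat_lit 1840160000), (nat_lit 2542000000)], [], [(nat_lit 10625346789), (nat_lit 10519774812), (nat_lit 9735586975), (nat_lit 9629404538), (nat_lit 9658291105), (nat_lit 9553678872), (nat_lit 10155536305), (nat_lit 9407614854)], (nat_lit 1271251), (nat_lit 1271251), (nat_lit 704688), (nat_lit 1999688), (nat_lit 356250), (nat_lit 1423751), [(nat_lit 1695001), (nat_lit 1271251), (nat_lit 1271251)], [(nat_lit 29), (nat_lit 66), (nat_lit 424), (nat_lit 175), (nat_lit 9)]⟩⟩))))))))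
def l028 : List St := [⟨⟨(nat_lit 380), (nat_lit 400), (nat_lit 320), (nat_lit 400), (nat_lit 120), (nat_lit 260), (nat_lit 230), (nat_lit 400), (nat_lit 40), (nat_lit 200), (nat_lit 0), (nat_lit 390), (nat_lit 0), (nat_lit 60)⟩, (nat_lit 0), (nat_lit 3), (nat_lit 0), false, false, false⟩,
  ⟨⟨(nat_lit 380), (nat_lit 400), (nat_lit 320), (nat_lit 400), (nat_lit 120), (nat_lit 260), (nat_lit 230), (nat_lit 400), (nat_lit 200), (nat_lit 340), (nat_lit 0), (nat_lit 390), (nat_lit 0), (nat_lit 60)⟩, (nat_lit 0), (nat_lit 3), (nat_lit 0), false, false, false⟩,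
  ⟨⟨(nat_lit 380), (nat_lit 400), (nat_lit 320), (nat_lit 400), (nat_lit 120), (nat_lit 260), (nat_lit 230), (nat_lit 400), (nat_lit 40), (nat_lit 340), (nat_lit 0), (nat_lit 390), (nat_lit 0), (nat_lit 60)⟩, (nat_lit 1), (nat_lit 3), (nat_lit 0), false, false, false⟩,
  ⟨⟨(nat_lit 380), (nat_lit 400), (nat_lit 320), (nat_lit 400), (nat_lit 120), (nat_lit 260), (nat_lit 230), (nat_lit 400), (nat_lit 40), (nat_lit 340), (nat_lit 0), (nat_lit 200), (nat_lit 0), (nat_lit 60)⟩, (nat_lit 3), (nat_lit 0), (nat_lit 1), false, false, false⟩,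
  ⟨⟨(nat_lit 380), (nat_lit 400), (nat_lit 320), (nat_lit 400), (nat_lit 120), (nat_lit 260), (nat_lit 230), (nat_lit 400), (nat_lit 40), (nat_lit 340), (nat_lit 200), (nat_lit 280), (nat_lit 0), (nat_lit 60)⟩, (nat_lit 3), (nat_lit 0), (nat_lit 1), false, false, false⟩,
  ⟨⟨(nat_lit 380), (nat_lit 400), (nat_lit 320), (nat_lit 400), (nat_lit 120), (nat_lit 260), (nat_lit 230), (nat_lit 400), (nat_lit 40), (nat_lit 340), (nat_lit 280), (nat_lit 390), (nat_lit 0), (nat_lit 60)⟩, (nat_lit 3), (nat_lit 0), (nat_lit 1), false, false, false⟩,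
  ⟨⟨(nat_lit 380), (nat_lit 400), (nat_lit 320), (nat_lit 400), (nat_lit 120), (nat_lit 200), (nat_lit 230), (nat_lit 400), (nat_lit 40), (nat_lit 160), (nat_lit 0), (nat_lit 200), (nat_lit 0), (nat_lit 60)⟩, (nat_lit 3), (nat_lit 1), (nat_lit 1), false, false, false⟩,
  ⟨⟨(nat_lit 380), (nat_lit 400), (nat_lit 320), (nat_lit 400), (nat_lit 120), (nat_lit 200), (nat_lit 230), (nat_lit 320), (nat_lit 40), (nat_lit 160), (nat_lit 200), (nat_lit 360), (nat_lit 0), (nat_lit 60)⟩, (nat_lit 3), (nat_lit 1), (nat_lit 1), false, false, false⟩,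
  ⟨⟨(nat_lit 380), (nat_lit 400), (nat_lit 320), (nat_lit 400), (nat_lit 120), (nat_lit 200), (nat_lit 320), (nat_lit 400), (nat_lit 40), (nat_lit 160), (nat_lit 200), (nat_lit 360), (nat_lit 0), (nat_lit 60)⟩, (nat_lit 3), (nat_lit 1), (nat_lit 1), false, false, false⟩,
  ⟨⟨(nat_lit 380), (nat_lit 400), (nat_lit 320), (nat_lit 340), (nat_lit 120), (nat_lit 200), (nat_lit 230), (nat_lit 320), (nat_lit 160), (nat_lit 290), (nat_lit 0), (nat_lit 360), (nat_lit 0), (nat_lit 60)⟩, (nat_lit 3), (nat_lit 1), (nat_lit 1), false, false, false⟩,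
  ⟨⟨(nat_lit 380), (nat_lit 400), (nat_lit 320), (nat_lit 340), (nat_lit 120), (nat_lit 200), (nat_lit 320), (nat_lit 390), (nat_lit 160), (nat_lit 290), (nat_lit 10), (nat_lit 200), (nat_lit 0), (nat_lit 60)⟩, (nat_lit 0), (nat_lit 1), (nat_lit 1), false, false, false⟩,
  ⟨⟨(nat_lit 380), (nat_lit 400), (nat_lit 320), (nat_lit 340), (nat_lit 120), (nat_lit 200), (nat_lit 320), (nat_lit 390), (nat_lit 160), (nat_lit 290), (nat_lit 200), (nat_lit 360), (nat_lit 0), (nat_lit 60)⟩, (nat_lit 0), (nat_lit 1), (nat_lit 1), false, false, false⟩,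
  ⟨⟨(nat_lit 380), (nat_lit 400), (nat_lit 320), (nat_lit 340), (nat_lit 120), (nat_lit 200), (nat_lit 320), (nat_lit 390), (nat_lit 160), (nat_lit 290), (nat_lit 10), (nat_lit 360), (nat_lit 0), (nat_lit 60)⟩, (nat_lit 1), (nat_lit 1), (nat_lit 1), false, false, false⟩,
  ⟨⟨(nat_lit 380), (nat_lit 400), (nat_lit 340), (nat_lit 360), (nat_lit 120), (nat_lit 200), (nat_lit 230), (nat_lit 400), (nat_lit 160), (nat_lit 290), (nat_lit 0), (nat_lit 360), (nat_lit 0), (nat_lit 60)⟩, (nat_lit 3), (nat_lit 1), (nat_lit 1), false, false, false⟩,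
  ⟨⟨(nat_lit 380), (nat_lit 400), (nat_lit 360), (nat_lit 400), (nat_lit 120), (nat_lit 200), (nat_lit 230), (nat_lit 400), (nat_lit 160), (nat_lit 290), (nat_lit 0), (nat_lit 360), (nat_lit 0), (nat_lit 60)⟩, (nat_lit 3), (nat_lit 1), (nat_lit 1), false, false, false⟩,
  ⟨⟨(nat_lit 380), (nat_lit 400), (nat_lit 320), (nat_lit 400), (nat_lit 200), (nat_lit 260), (nat_lit 230), (nat_lit 400), (nat_lit 40), (nat_lit 340), (nat_lit 0), (nat_lit 390), (nat_lit 0), (nat_lit 60)⟩, (nat_lit 3), (nat_lit 1), (nat_lit 1), false, false, false⟩,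
  ⟨⟨(nat_lit 380), (nat_lit 400), (nat_lit 320), (nat_lit 360), (nat_lit 120), (nat_lit 200), (nat_lit 230), (nat_lit 400), (nat_lit 40), (nat_lit 160), (nat_lit 0), (nat_lit 360), (nat_lit 60), (nat_lit 116)⟩, (nat_lit 0), (nat_lit 3), (nat_lit 3), false, false, false⟩,
  ⟨⟨(nat_lit 380), (nat_lit 400), (nat_lit 320), (nat_lit 360), (nat_lit 120), (nat_lit 200), (nat_lit 230), (nat_lit 400), (nat_lit 160), (nat_lit 290), (nat_lit 0), (nat_lit 360), (nat_lit 60), (nat_lit 116)⟩, (nat_lit 0), (nat_lit 3), (nat_lit 3), false, false, false⟩,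
  ⟨⟨(nat_lit 380), (nat_lit 400), (nat_lit 320), (nat_lit 360), (nat_lit 120), (nat_lit 200), (nat_lit 230), (nat_lit 400), (nat_lit 40), (nat_lit 290), (nat_lit 0), (nat_lit 360), (nat_lit 60), (nat_lit 116)⟩, (nat_lit 1), (nat_lit 3), (nat_lit 3), false, false, false⟩,
  ⟨⟨(nat_lit 380), (nat_lit 400), (nat_lit 360), (nat_lit 400), (nat_lit 120), (nat_lit 200), (nat_lit 230), (nat_lit 400), (nat_lit 40), (nat_lit 290), (nat_lit 0), (nat_lit 360), (nat_lit 60), (nat_lit 116)⟩, (nat_lit 3), (nat_lit 3), (nat_lit 3), false, false, false⟩,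
  ⟨⟨(nat_lit 380), (nat_lit 400), (nat_lit 320), (nat_lit 400), (nat_lit 200), (nat_lit 260), (nat_lit 230), (nat_lit 400), (nat_lit 40), (nat_lit 340), (nat_lit 0), (nat_lit 390), (nat_lit 60), (nat_lit 116)⟩, (nat_lit 3), (nat_lit 3), (nat_lit 3), false, false, false⟩,
  ⟨⟨(nat_lit 380), (nat_lit 400), (nat_lit 320), (nat_lit 340), (nat_lit 120), (nat_lit 140), (nat_lit 230), (nat_lit 320), (nat_lit 40), (nat_lit 230), (nat_lit 0), (nat_lit 320), (nat_lit 116), (nat_lit 228)⟩, (nat_lit 3), (nat_lit 3), (nat_lit 3), false, false, false⟩,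
  ⟨⟨(nat_lit 380), (nat_lit 400), (nat_lit 320), (nat_lit 340), (nat_lit 120), (nat_lit 140), (nat_lit 320), (nat_lit 390), (nat_lit 40), (nat_lit 230), (nat_lit 0), (nat_lit 320), (nat_lit 116), (nat_lit 228)⟩, (nat_lit 3), (nat_lit 3), (nat_lit 3), false, false, false⟩,
  ⟨⟨(nat_lit 380), (nat_lit 400), (nat_lit 340), (nat_lit 360), (nat_lit 120), (nat_lit 140), (nat_lit 230), (nat_lit 400), (nat_lit 40), (nat_lit 230), (nat_lit 0), (nat_lit 320), (nat_lit 116), (nat_lit 228)⟩, (nat_lit 3), (nat_lit 3), (nat_lit 3), false, false, false⟩,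
  ⟨⟨(nat_lit 380), (nat_lit 400), (nat_lit 320), (nat_lit 340), (nat_lit 140), (nat_lit 160), (nat_lit 230), (nat_lit 400), (nat_lit 60), (nat_lit 250), (nat_lit 10), (nat_lit 340), (nat_lit 116), (nat_lit 228)⟩, (nat_lit 3), (nat_lit 3), (nat_lit 3), false, false, false⟩,
  ⟨⟨(nat_lit 380), (nat_lit 400), (nat_lit 340), (nat_lit 360), (nat_lit 140), (nat_lit 160), (nat_lit 230), (nat_lit 400), (nat_lit 60), (nat_lit 250), (nat_lit 10), (nat_lit 340), (nat_lit 116), (nat_lit 228)⟩, (nat_lit 3), (nat_lit 3), (nat_lit 3), false, false, false⟩,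
  ⟨⟨(nat_lit 380), (nat_lit 400), (nat_lit 360), (nat_lit 400), (nat_lit 120), (nat_lit 160), (nat_lit 290), (nat_lit 400), (nat_lit 40), (nat_lit 250), (nat_lit 20), (nat_lit 160), (nat_lit 116), (nat_lit 228)⟩, (nat_lit 3), (nat_lit 3), (nat_lit 3), false, false, false⟩,
  ⟨⟨(nat_lit 380), (nat_lit 400), (nat_lit 360), (nat_lit 400), (nat_lit 120), (nat_lit 160), (nat_lit 290), (nat_lit 400), (nat_lit 40), (nat_lit 250), (nat_lit 160), (nat_lit 290), (nat_lit 116), (nat_lit 228)⟩, (nat_lit 3), (nat_lit 3), (nat_lit 0), false, false, false⟩,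
  ⟨⟨(nat_lit 380), (nat_lit 400), (nat_lit 360), (nat_lit 400), (nat_lit 120), (nat_lit 160), (nat_lit 290), (nat_lit 400), (nat_lit 40), (nat_lit 250), (nat_lit 160), (nat_lit 290), (nat_lit 116), (nat_lit 228)⟩, (nat_lit 3), (nat_lit 3), (nat_lit 1), false, false, false⟩,
  ⟨⟨(nat_lit 380), (nat_lit 400), (nat_lit 320), (nat_lit 360), (nat_lit 160), (nat_lit 180), (nat_lit 230), (nat_lit 400), (nat_lit 70), (nat_lit 290), (nat_lit 10), (nat_lit 360), (nat_lit 116), (nat_lit 200)⟩, (nat_lit 3), (nat_lit 3), (nat_lit 3), false, false, false⟩,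
  ⟨⟨(nat_lit 380), (nat_lit 400), (nat_lit 320), (nat_lit 360), (nat_lit 180), (nat_lit 200), (nat_lit 230), (nat_lit 400), (nat_lit 70), (nat_lit 290), (nat_lit 10), (nat_lit 360), (nat_lit 116), (nat_lit 200)⟩, (nat_lit 3), (nat_lit 3), (nat_lit 3), false, false, false⟩,
  ⟨⟨(nat_lit 380), (nat_lit 400), (nat_lit 360), (nat_lit 400), (nat_lit 160), (nat_lit 200), (nat_lit 290), (nat_lit 400), (nat_lit 70), (nat_lit 290), (nat_lit 50), (nat_lit 200), (nat_lit 116), (nat_lit 228)⟩, (nat_lit 3), (nat_lit 3), (nat_lit 3), false, false, false⟩]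
theorem t028 (h : EC env Ei) : ∀ τ ∈ l028, Dead τ :=
  List.forall_mem_cons.mpr ⟨chkT_sound0 h (T := c15_0) (by decide +kernel),
  List.forall_mem_cons.mpr ⟨chkT_sound0 h (T := c15_1) (by decide +kernel),
  List.forall_mem_cons.mpr ⟨chkT_sound0 h (T := c15_2) (by decide +kernel),
  List.forall_mem_cons.mpr ⟨chkT_sound0 h (T := c15_3) (by decide +kernel),
  List.forall_mem_cons.mpr ⟨chkT_sound0 h (T := c15_4) (by decide +kernel),
  List.forall_mem_cons.mpr ⟨chkT_sound0 h (T := c15_5) (by decide +kernel),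
  List.forall_mem_cons.mpr ⟨chkT_sound0 h (T := c15_6) (by decide +kernel),
  List.forall_mem_cons.mpr ⟨chkT_sound0 h (T := c15_7) (by decide +kernel),
  List.forall_mem_cons.mpr ⟨chkT_sound0 h (T := c15_8) (by decide +kernel),
  List.forall_mem_cons.mpr ⟨chkT_sound0 h (T := c15_9) (by decide +kernel),
  List.forall_mem_cons.mpr ⟨chkT_sound0 h (T := c15_10) (by decide +kernel),
  List.forall_mem_cons.mpr ⟨chkT_sound0 h (T := c15_11) (by decide +kernel),
  List.forall_mem_cons.mpr ⟨chkT_sound0 h (T := c15_12) (by decide +kernel),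
  List.forall_mem_cons.mpr ⟨chkT_sound0 h (T := c15_13) (by decide +kernel),
  List.forall_mem_cons.mpr ⟨chkT_sound0 h (T := c15_14) (by decide +kernel),
  List.forall_mem_cons.mpr ⟨chkT_sound0 h (T := c15_15) (by decide +kernel),
  List.forall_mem_cons.mpr ⟨chkT_sound0 h (T := c15_16) (by decide +kernel),
  List.forall_mem_cons.mpr ⟨chkT_sound0 h (T := c15_17) (by decide +kernel),
  List.forall_mem_cons.mpr ⟨chkT_sound0 h (T := c15_18) (by decide +kernel),
  List.forall_mem_cons.mpr ⟨chkT_sound0 h (T := c15_19) (by decide +kernel),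
  List.forall_mem_cons.mpr ⟨chkT_sound0 h (T := c15_20) (by decide +kernel),
  List.forall_mem_cons.mpr ⟨chkT_sound0 h (T := c15_21) (by decide +kernel),
  List.forall_mem_cons.mpr ⟨chkT_sound0 h (T := c15_22) (by decide +kernel),
  List.forall_mem_cons.mpr ⟨chkT_sound0 h (T := c15_23) (by decide +kernel),
  List.forall_mem_cons.mpr ⟨chkT_sound0 h (T := c15_24) (by decide +kernel),
  List.forall_mem_cons.mpr ⟨chkT_sound0 h (T := c15_25) (by decide +kernel),
  List.forall_mem_cons.mpr ⟨chkT_sound0 h (T := c15_26) (by decide +kernel),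
  List.forall_mem_cons.mpr ⟨chkT_sound0 h (T := c15_27) (by decide +kernel),
  List.forall_mem_cons.mpr ⟨chkT_sound0 h (T := c15_28) (by decide +kernel),
  List.forall_mem_cons.mpr ⟨chkT_sound0 h (T := c15_29) (by decide +kernel),
  List.forall_mem_cons.mpr ⟨chkT_sound0 h (T := c15_30) (by decide +kernel),
  List.forall_mem_cons.mpr ⟨chkT_sound0 h (T := c15_31) (by decide +kernel),
  List.forall_mem_nil _⟩⟩⟩⟩⟩⟩⟩⟩⟩⟩⟩⟩⟩⟩⟩⟩⟩⟩⟩⟩⟩⟩⟩⟩⟩⟩⟩⟩⟩⟩⟩⟩
end TC
end Pool.Agent.Lib.MP_6947cd_al
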