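import Pool.Agent.Lib.MP_6947cd_al.C.LeafF
import Pool.Agent.Lib.MP_6947cd_al.TC.E
import Pool.Agent.Lib.MP_6947cd_al.TC.F

/-!
Problem MP_6947cd_al (Chollet).  CASE C, tables and certificates.  Trees of leaves (part 29 of root 15).
-/

set_option autoImplicit false
set_option linter.all false
set_option maxRecDepth 100000
set_option maxHeartbeats 4000000
namespace Pool.Agent.Lib.MP_6947cd_al
namespace TC
open C1
noncomputable def c15_32 : Tr Lf :=
 (.spl (nat_lit 6) (nat_lit 172) (.spl (nat_lit 0) (nat_lit 390) (.ord (.leaf ⟨(nat_lit 0), (nat_lit 863), (nat_lit 0), (nat_lit 137), (nat_lit 0), (nat_lit 7725), (nat_lit 4231), (nat_lit 1467), (nat_lit 130710), (nat_lit 0), (nat_lit 0), [], Pd.none, Pd.none, (nat_lit 0), (nat_lit 1), (nat_lit 0), (nat_lit 0), (nat_lit 5), (nat_lit 0), [], [⟨(nat_lit 1), (nat_lit 96), (nat_lit 38), (nat_lit 100), (nat_lit 47561509)⟩], [⟨(nat_lit 1), (nat_lit 92), (nat_lit 49), (nat_lit 100), (nat_lit 316747280)⟩], [],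
 ⟨⟨[(nat_lit 40), (nat_lit 100), (nat_lit 140)], [(nat_lit 0), (nat_lit 3610), (nat_lit 5926)], [((nat_lit 0), (nat_lit 0), (nat_lit 0)), ((nat_lit 1000), (nat_lit 436), (nat_lit 895)), ((nat_lit 1000), (nat_lit 436), (nat_lit 905))], ((nat_lit 44), (nat_lit 96), (nat_lit 100))⟩, (nat_lit 460682), (nat_lit 300), (nat_lit 315), (nat_lit 50800001), (nat_lit 353108), [(nat_lit 2032000014), (nat_lit 6655023491), (nat_lit 9842000000)], [], [(nat_lit 36376141380), (nat_lit 36856001623), (nat_lit 41421874822), (nat_lit 42223264686), (nat_lit 34498430073), (nat_lit 34818101561), (nat_lit 39181995094), (nat_lit 39725984947)], (nat_lit 1271251), (nat_lit 1271251), (nat_lit 1271251), (nat_lit 1271251), (nat_lit 422188), (nat_lit 2120313), [(nat_lit 490000), (nat_lit 1427501), (nat_lit 1271251)], [(nat_lit 5), (nat_lit 55), (nat_lit 289), (nat_lit 75), (nat_lit 7)]⟩,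
 ⟨⟨[(nat_lit 40), (nat_lit 100), (nat_lit 160)], [(nat_lit 0), (nat_lit 2396), (nat_lit 6144)], [((nat_lit 0), (nat_lit 0), (nat_lit 0)), ((nat_lit 1000), (nat_lit 625), (nat_lit 623)), ((nat_lit 1000), (nat_lit 625), (nat_lit 975))], ((nat_lit 61), (nat_lit 88), (nat_lit 100))⟩, (nat_lit 1586897), (nat_lit 257), (nat_lit 257), (nat_lit 0), (nat_lit 359088), [(nat_lit 2032000000), (nat_lit 6250000000), (nat_lit 11872000000)], [], [(nat_lit 29913252835), (nat_lit 30912492190), (nat_lit 33202721152), (nat_lit 34184207808), (nat_lit 31751340755), (nat_lit 32776044437), (nat_lit 34710856236), (nat_lit 35495023974)], (nat_lit 1271251), (nat_lit 1271251), (nat_lit 1271251), (nat_lit 1271251), (nat_lit 1271251), (nat_lit 1271251), [(nat_lit 490000), (nat_lit 1427501), (nat_lit 1271251)], [(nat_lit 6), (nat_lit 56), (nat_lit 428), (nat_lit 200), (nat_lit 10)]⟩,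
 ⟨⟨[(nat_lit 120), (nat_lit 160), (nat_lit 200)], [(nat_lit 0), (nat_lit 0), (nat_lit 3198)], [((nat_lit 0), (nat_lit 0), (nat_lit 0)), ((nat_lit 0), (nat_lit 0), (nat_lit 0)), ((nat_lit 572), (nat_lit 1000), (nat_lit 714))], ((nat_lit 0), (nat_lit 0), (nat_lit 0))⟩, (nat_lit 66829), (nat_lit 300), (nat_lit 1422), (nat_lit 10165405), (nat_lit 2255881), [(nat_lit 1091616000), (nat_lit 1626464000), (nat_lit 2246800000)], [], [(nat_lit 9046975467), (nat_lit 8855013404), (nat_lit 7915291449), (nat_lit 8570197829), (nat_lit 8570938624), (nat_lit 8382944077), (nat_lit 7425932613), (nat_lit 7235745358)], (nat_lit 1100000), (nat_lit 1442501), (nat_lit 422188), (nat_lit 2120313), (nat_lit 1271251), (nat_lit 1271251), [(nat_lit 1695001), (nat_lit 1271251), (nat_lit 1271251)], [(nat_lit 29), (nat_lit 66), (nat_lit 457), (nat_lit 225), (nat_lit 10)]⟩⟩)) (.trZ (nat_lit 0) (nat_lit 1) (nat_lit 3) (nat_lit 73) (nat_lit 38) (nat_lit 100) (nat_lit 310) (.trZ (nat_lit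 0) (nat_lit 2) (nat_lit 4) (nat_lit 100) (nat_lit 32) (nat_lit 89) (nat_lit 100) (.trX (nat_lit 4) (nat_lit 0) (nat_lit 2) (nat_lit 31) (nat_lit 95) (nat_lit 100) (nat_lit 270) (.leaf ⟨(nat_lit 0), (nat_lit 877), (nat_lit 0), (nat_lit 123), (nat_lit 0), (nat_lit 5436), (nat_lit 4569), (nat_lit 1338), (nat_lit 1123168), (nat_lit 0), (nat_lit 0), [], Pd.none, Pd.none, (nat_lit 0), (nat_lit 1), (nat_lit 0), (nat_lit 0), (nat_lit 5), (nat_lit 0), [], [⟨(nat_lit 1), (nat_lit 100), (nat_lit 22), (nat_lit 100), (nat_lit 387888252)⟩], [⟨(nat_lit 1), (nat_lit 94), (nat_lit 44), (nat_lit 100), (nat_lit 412533414)⟩], [],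
 ⟨⟨[(nat_lit 40), (nat_lit 80), (nat_lit 120)], [(nat_lit 0), (nat_lit 3225), (nat_lit 5518)], [((nat_lit 0), (nat_lit 0), (nat_lit 0)), ((nat_lit 1000), (nat_lit 321), (nat_lit 877)), ((nat_lit 1000), (nat_lit 317), (nat_lit 896))], ((nat_lit 32), (nat_lit 99), (nat_lit 100))⟩, (nat_lit 546650), (nat_lit 290), (nat_lit 290), (nat_lit 0), (nat_lit 433716), [(nat_lit 2248338704), (nat_lit 5031650470), (nat_lit 7968000000)], [], [(nat_lit 31759150128), (nat_lit 32389743053), (nat_lit 36148044537), (nat_lit 36633041320), (nat_lit 32734472757), (nat_lit 33209486404), (nat_lit 36051734900), (nat_lit 36537091464)], (nat_lit 1271251), (nat_lit 1271251), (nat_lit 1271251), (nat_lit 1271251), (nat_lit 631250), (nat_lit 1991251), [(nat_lit 490000), (nat_lit 1100000), (nat_lit 1785001)], [(nat_lit 4), (nat_lit 51), (nat_lit 289), (nat_lit 75), (nat_lit 8)]⟩,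
 ⟨⟨[(nat_lit 40), (nat_lit 100), (nat_lit 160)], [(nat_lit 0), (nat_lit 2396), (nat_lit 6144)], [((nat_lit 0), (nat_lit 0), (nat_lit 0)), ((nat_lit 1000), (nat_lit 625), (nat_lit 623)), ((nat_lit 1000), (nat_lit 625), (nat_lit 975))], ((nat_lit 61), (nat_lit 88), (nat_lit 100))⟩, (nat_lit 1546384), (nat_lit 324), (nat_lit 324), (nat_lit 0), (nat_lit 444205), [(nat_lit 2032000000), (nat_lit 6250000000), (nat_lit 11872000000)], [], [(nat_lit 30121034722), (nat_lit 31814358995), (nat_lit 33393740384), (nat_lit 34730258710), (nat_lit 32254795723), (nat_lit 33593177991), (nat_lit 34832032500), (nat_lit 36372487096)], (nat_lit 1271251), (nat_lit 1271251), (nat_lit 1271251), (nat_lit 1271251), (nat_lit 1271251), (nat_lit 1271251), [(nat_lit 490000), (nat_lit 1427501), (nat_lit 1271251)], [(nat_lit 6), (nat_lit 56), (nat_lit 428), (nat_lit 200), (nat_lit 9)]⟩,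
 ⟨⟨[(nat_lit 120), (nat_lit 160), (nat_lit 200)], [(nat_lit 0), (nat_lit 0), (nat_lit 3198)], [((nat_lit 0), (nat_lit 0), (nat_lit 0)), ((nat_lit 0), (nat_lit 0), (nat_lit 0)), ((nat_lit 572), (nat_lit 1000), (nat_lit 714))], ((nat_lit 0), (nat_lit 0), (nat_lit 0))⟩, (nat_lit 60000), (nat_lit 300), (nat_lit 1717), (nat_lit 9126600), (nat_lit 2928333), [(nat_lit 980064000), (nat_lit 1460256000), (nat_lit 2017200000)], [], [(nat_lit 7769972597), (nat_lit 7597019026), (nat_lit 6991048820), (nat_lit 7580788258), (nat_lit 7371109719), (nat_lit 7199560932), (nat_lit 6587083371), (nat_lit 6418961796)], (nat_lit 1100000), (nat_lit 1442501), (nat_lit 631250), (nat_lit 1991251), (nat_lit 1271251), (nat_lit 1271251), [(nat_lit 1695001), (nat_lit 1271251), (nat_lit 1271251)], [(nat_lit 29), (nat_lit 66), (nat_lit 528), (nat_lit 200), (nat_lit 11)]⟩⟩))))) (.spl (nat_lit 0) (nat_lit 390) (.ord (.leaf ⟨(nat_lit 0), (nat_lit 728), (nat_lit 0), (nat_lit 272), (nat_lit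 0), (nat_lit 3965), (nat_lit 10236), (nat_lit 2813), (nat_lit 4772), (nat_lit 0), (nat_lit 0), [], Pd.none, Pd.none, (nat_lit 0), (nat_lit 1), (nat_lit 0), (nat_lit 0), (nat_lit 5), (nat_lit 0), [], [], [⟨(nat_lit 1), (nat_lit 92), (nat_lit 49), (nat_lit 100), (nat_lit 97593672)⟩], [],
 ⟨⟨[(nat_lit 40), (nat_lit 100), (nat_lit 160)], [(nat_lit 0), (nat_lit 3610), (nat_lit 7085)], [((nat_lit 0), (nat_lit 0), (nat_lit 0)), ((nat_lit 1000), (nat_lit 436), (nat_lit 895)), ((nat_lit 1000), (nat_lit 436), (nat_lit 905))], ((nat_lit 44), (nat_lit 90), (nat_lit 100))⟩, (nat_lit 1493555), (nat_lit 244), (nat_lit 244), (nat_lit 0), (nat_lit 142895), [(nat_lit 2032000001), (nat_lit 7027970950), (nat_lit 11872000000)], [], [(nat_lit 29762171695), (nat_lit 30205362439), (nat_lit 33767516500), (nat_lit 34140505585), (nat_lit 31293809870), (nat_lit 31617882256), (nat_lit 34042323942), (nat_lit 34435360857)], (nat_lit 1271251), (nat_lit 1271251), (nat_lit 1271251),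 (nat_lit 1271251), (nat_lit 422188), (nat_lit 2120313), [(nat_lit 490000), (nat_lit 1427501), (nat_lit 1271251)], [(nat_lit 6), (nat_lit 56), (nat_lit 401), (nat_lit 175), (nat_lit 9)]⟩,
 ⟨⟨[(nat_lit 40), (nat_lit 100), (nat_lit 160)], [(nat_lit 0), (nat_lit 2396), (nat_lit 6144)], [((nat_lit 0), (nat_lit 0), (nat_lit 0)), ((nat_lit 1000), (nat_lit 625), (nat_lit 623)), ((nat_lit 1000), (nat_lit 625), (nat_lit 975))], ((nat_lit 60), (nat_lit 80), (nat_lit 100))⟩, (nat_lit 0), (nat_lit 195), (nat_lit 195), (nat_lit 0), (nat_lit 147061), [(nat_lit 2032000000), (nat_lit 6250000000), (nat_lit 11872000000)], [], [(nat_lit 36689964181), (nat_lit 38675349891), (nat_lit 41924079920), (nat_lit 43276918778), (nat_lit 38554780588), (nat_lit 40002818755), (nat_lit 42191447768), (nat_lit 43921167710)], (nat_lit 1271251), (nat_lit 1271251), (nat_lit 1271251), (nat_lit 1271251), (nat_lit 1271251), (nat_lit 1271251), [(nat_lit 490000), (nat_lit 1427501), (nat_lit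 1271251)], [(nat_lit 6), (nat_lit 56), (nat_lit 428), (nat_lit 200), (nat_lit 10)]⟩,
 ⟨⟨[(nat_lit 120), (nat_lit 160), (nat_lit 200)], [(nat_lit 0), (nat_lit 0), (nat_lit 3198)], [((nat_lit 0), (nat_lit 0), (nat_lit 0)), ((nat_lit 0), (nat_lit 0), (nat_lit 0)), ((nat_lit 572), (nat_lit 1000), (nat_lit 714))], ((nat_lit 0), (nat_lit 0), (nat_lit 0))⟩, (nat_lit 132683), (nat_lit 300), (nat_lit 806), (nat_lit 20182400), (nat_lit 903145), [(nat_lit 2167296000), (nat_lit 3229184000), (nat_lit 4460800000)], [], [(nat_lit 17895090632), (nat_lit 17585064832), (nat_lit 15885030721), (nat_lit 16869796259), (nat_lit 17273900767), (nat_lit 16942392331), (nat_lit 15171857749), (nat_lit 14828001000)], (nat_lit 1100000), (nat_lit 1442501), (nat_lit 422188), (nat_lit 2120313), (nat_lit 1271251), (nat_lit 1271251), [(nat_lit 1695001), (nat_lit 1271251), (nat_lit 1271251)], [(nat_lit 29), (nat_lit 66), (nat_lit 456), (nat_lit 225), (nat_lit 10)]⟩⟩)) (.trZ (nat_lit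 0) (nat_lit 1) (nat_lit 3) (nat_lit 73) (nat_lit 38) (nat_lit 100) (nat_lit 310) (.trZ (nat_lit 0) (nat_lit 2) (nat_lit 4) (nat_lit 100) (nat_lit 32) (nat_lit 89) (nat_lit 100) (.trX (nat_lit 4) (nat_lit 0) (nat_lit 2) (nat_lit 31) (nat_lit 95) (nat_lit 100) (nat_lit 270) (.spl (nat_lit 0) (nat_lit 395) (.ord (.leaf ⟨(nat_lit 0), (nat_lit 777), (nat_lit 0), (nat_lit 223), (nat_lit 0), (nat_lit 4140), (nat_lit 10020), (nat_lit 2215), (nat_lit 8942), (nat_lit 0), (nat_lit 0), [], Pd.none, Pd.none, (nat_lit 0), (nat_lit 1), (nat_lit 0), (nat_lit 0), (nat_lit 5), (nat_lit 0), [], [⟨(nat_lit 1), (nat_lit 99), (nat_lit 27), (nat_lit 100), (nat_lit 114807056)⟩], [⟨(nat_lit 1), (nat_lit 93), (nat_lit 46), (nat_lit 100), (nat_lit 180019581)⟩], [],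
 ⟨⟨[(nat_lit 40), (nat_lit 100), (nat_lit 140)], [(nat_lit 0), (nat_lit 4401), (nat_lit 6848)], [((nat_lit 0), (nat_lit 0), (nat_lit 0)), ((nat_lit 1000), (nat_lit 312), (nat_lit 943)), ((nat_lit 1000), (nat_lit 312), (nat_lit 956))], ((nat_lit 31), (nat_lit 95), (nat_lit 100))⟩, (nat_lit 1094352), (nat_lit 222), (nat_lit 222), (nat_lit 0), (nat_lit 185032), [(nat_lit 2032000091), (nat_lit 6552870405), (nat_lit 9842000000)], [], [(nat_lit 30169471155), (nat_lit 30424022717), (nat_lit 33800721792), (nat_lit 34001689248), (nat_lit 31460161533), (nat_lit 31656911945), (nat_lit 34284918613), (nat_lit 34442670805)], (nat_lit 1271251), (nat_lit 1271251), (nat_lit 1271251), (nat_lit 1271251), (nat_lit 631250), (nat_lit 1991251), [(nat_lit 490000), (nat_lit 1427501), (nat_lit 1271251)], [(nat_lit 5), (nat_lit 55), (nat_lit 289), (nat_lit 75), (nat_lit 7)]⟩,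
 ⟨⟨[(nat_lit 40), (nat_lit 100), (nat_lit 160)], [(nat_lit 0), (nat_lit 2396), (nat_lit 6144)], [((nat_lit 0), (nat_lit 0), (nat_lit 0)), ((nat_lit 1000), (nat_lit 625), (nat_lit 623)), ((nat_lit 1000), (nat_lit 625), (nat_lit 975))], ((nat_lit 60), (nat_lit 80), (nat_lit 100))⟩, (nat_lit 0), (nat_lit 209), (nat_lit 209), (nat_lit 0), (nat_lit 192746), [(nat_lit 2032000000), (nat_lit 6250000000), (nat_lit 11872000000)], [], [(nat_lit 37447791275), (nat_lit 39606375465), (nat_lit 41961076400), (nat_lit 43523804595), (nat_lit 39063263020), (nat_lit 40636293343), (nat_lit 42272995680), (nat_lit 43903049565)], (nat_lit 1271251), (nat_lit 1271251), (nat_lit 1271251), (nat_lit 1271251), (nat_lit 1271251), (nat_lit 1271251), [(nat_lit 490000), (nat_lit 1427501), (nat_lit 1271251)], [(nat_lit 6), (nat_lit 56), (nat_lit 428), (nat_lit 200), (nat_lit 9)]⟩,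
 ⟨⟨[(nat_lit 120), (nat_lit 160), (nat_lit 200)], [(nat_lit 0), (nat_lit 0), (nat_lit 3198)], [((nat_lit 0), (nat_lit 0), (nat_lit 0)), ((nat_lit 0), (nat_lit 0), (nat_lit 0)), ((nat_lit 572), (nat_lit 1000), (nat_lit 714))], ((nat_lit 0), (nat_lit 0), (nat_lit 0))⟩, (nat_lit 108780), (nat_lit 300), (nat_lit 910), (nat_lit 16546608), (nat_lit 1207738), [(nat_lit 1776864000), (nat_lit 2647456000), (nat_lit 3657200000)], [], [(nat_lit 14652680051), (nat_lit 14410605375), (nat_lit 13503914236), (nat_lit 13448766391), (nat_lit 14173112268), (nat_lit 13917757661), (nat_lit 12967763486), (nat_lit 12703641491)], (nat_lit 1100000), (nat_lit 1442501), (nat_lit 631250), (nat_lit 1991251), (nat_lit 1271251), (nat_lit 1271251), [(nat_lit 1695001), (nat_lit 1271251), (nat_lit 1271251)], [(nat_lit 29), (nat_lit 66), (nat_lit 428), (nat_lit 200), (nat_lit 9)]⟩⟩)) (.trZ (nat_lit 0) (nat_lit 1) (nat_lit 3) (nat_lit 79) (nat_lit 29) (nat_lit 100) (nat_lit 320) (.trZ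 (nat_lit 0) (nat_lit 2) (nat_lit 4) (nat_lit 100) (nat_lit 23) (nat_lit 93) (nat_lit 110) (.trX (nat_lit 4) (nat_lit 0) (nat_lit 2) (nat_lit 22) (nat_lit 98) (nat_lit 100) (nat_lit 250) (.leaf ⟨(nat_lit 0), (nat_lit 833), (nat_lit 0), (nat_lit 167), (nat_lit 0), (nat_lit 4104), (nat_lit 9937), (nat_lit 2023), (nat_lit 42178), (nat_lit 0), (nat_lit 0), [], Pd.none, Pd.none, (nat_lit 0), (nat_lit 1), (nat_lit 0), (nat_lit 0), (nat_lit 5), (nat_lit 0), [], [⟨(nat_lit 1), (nat_lit 100), (nat_lit 16), (nat_lit 100), (nat_lit 345159788)⟩], [⟨(nat_lit 1), (nat_lit 94), (nat_lit 44), (nat_lit 100), (nat_lit 280242615)⟩], [],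
 ⟨⟨[(nat_lit 40), (nat_lit 100), (nat_lit 140)], [(nat_lit 0), (nat_lit 4977), (nat_lit 7491)], [((nat_lit 0), (nat_lit 0), (nat_lit 0)), ((nat_lit 1000), (nat_lit 222), (nat_lit 968)), ((nat_lit 1000), (nat_lit 222), (nat_lit 982))], ((nat_lit 22), (nat_lit 98), (nat_lit 100))⟩, (nat_lit 1017337), (nat_lit 230), (nat_lit 230), (nat_lit 0), (nat_lit 225492), [(nat_lit 2032000017), (nat_lit 6692223067), (nat_lit 9842000000)], [], [(nat_lit 30562371426), (nat_lit 30807304969), (nat_lit 33780535381), (nat_lit 33978750741), (nat_lit 31410062634), (nat_lit 31590235947), (nat_lit 34006740734), (nat_lit 34169540429)], (nat_lit 1271251), (nat_lit 1271251), (nat_lit 1271251), (nat_lit 1271251), (nat_lit 704688), (nat_lit 1837813), [(nat_lit 490000), (nat_lit 1427501), (nat_lit 1271251)], [(nat_lit 5), (nat_lit 55), (nat_lit 289), (nat_lit 75), (nat_lit 7)]⟩,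
 ⟨⟨[(nat_lit 40), (nat_lit 100), (nat_lit 160)], [(nat_lit 0), (nat_lit 2396), (nat_lit 6144)], [((nat_lit 0), (nat_lit 0), (nat_lit 0)), ((nat_lit 1000), (nat_lit 625), (nat_lit 623)), ((nat_lit 1000), (nat_lit 625), (nat_lit 975))], ((nat_lit 60), (nat_lit 80), (nat_lit 100))⟩, (nat_lit 0), (nat_lit 222), (nat_lit 222), (nat_lit 0), (nat_lit 235502), [(nat_lit 2032000000), (nat_lit 6250000000), (nat_lit 11872000000)], [], [(nat_lit 37813862884), (nat_lit 40196161242), (nat_lit 41975292640), (nat_lit 43754424038), (nat_lit 39305646170), (nat_lit 41040471340), (nat_lit 42304362708), (nat_lit 44069039608)], (nat_lit 1271251), (nat_lit 1271251), (nat_lit 1271251), (nat_lit 1271251), (nat_lit 1271251), (nat_lit 1271251), [(nat_lit 490000), (nat_lit 1427501), (nat_lit 1271251)], [(nat_lit 6), (nat_lit 56), (nat_lit 317), (nat_lit 100), (nat_lit 7)]⟩,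
 ⟨⟨[(nat_lit 120), (nat_lit 160), (nat_lit 200)], [(nat_lit 0), (nat_lit 0), (nat_lit 3198)], [((nat_lit 0), (nat_lit 0), (nat_lit 0)), ((nat_lit 0), (nat_lit 0), (nat_lit 0)), ((nat_lit 572), (nat_lit 1000), (nat_lit 714))], ((nat_lit 0), (nat_lit 0), (nat_lit 0))⟩, (nat_lit 81463), (nat_lit 300), (nat_lit 1053), (nat_lit 12391407), (nat_lit 1513803), [(nat_lit 1330656000), (nat_lit 1982624000), (nat_lit 2738800000)], [], [(nat_lit 9514881175), (nat_lit 9277305323), (nat_lit 8552846798), (nat_lit 8345631724), (nat_lit 9110812409), (nat_lit 8893247709), (nat_lit 8185934505), (nat_lit 7956785620)], (nat_lit 1100000), (nat_lit 1442501), (nat_lit 704688), (nat_lit 1837813), (nat_lit 1271251), (nat_lit 1271251), [(nat_lit 1695001), (nat_lit 1271251), (nat_lit 1271251)], [(nat_lit 29), (nat_lit 66), (nat_lit 428), (nat_lit 200), (nat_lit 9)]⟩⟩))))))))))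
noncomputable def c15_33 : Tr Lf :=
 (.trZ (nat_lit 0) (nat_lit 2) (nat_lit 4) (nat_lit 100) (nat_lit 44) (nat_lit 90) (nat_lit 110) (.trZ (nat_lit 1) (nat_lit 2) (nat_lit 5) (nat_lit 100) (nat_lit 80) (nat_lit 60) (nat_lit 40) (.spl (nat_lit 6) (nat_lit 212) (.spl (nat_lit 1) (nat_lit 360) (.spl (nat_lit 6) (nat_lit 160) (.spl (nat_lit 0) (nat_lit 390) (.spl (nat_lit 6) (nat_lit 148) (.leaf ⟨(nat_lit 0), (nat_lit 632), (nat_lit 0), (nat_lit 368), (nat_lit 4776), (nat_lit 4564), (nat_lit 7640), (nat_lit 3035), (nat_lit 0), (nat_lit 0), (nat_lit 0), [], Pd.none, Pd.none, (nat_lit 0), (nat_lit 1), (nat_lit 0), (nat_lit 0), (nat_lit 5), (nat_lit 0), [⟨(nat_lit 0), (nat_lit 77), (nat_lit 41), (nat_lit 100), (nat_lit 242668325)⟩], [], [], [],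
 ⟨⟨[(nat_lit 40), (nat_lit 80), (nat_lit 120)], [(nat_lit 0), (nat_lit 2514), (nat_lit 4610)], [((nat_lit 0), (nat_lit 0), (nat_lit 0)), ((nat_lit 1000), (nat_lit 446), (nat_lit 804)), ((nat_lit 1000), (nat_lit 443), (nat_lit 819))], ((nat_lit 44), (nat_lit 100), (nat_lit 98))⟩, (nat_lit 913785), (nat_lit 174), (nat_lit 174), (nat_lit 0), (nat_lit 121421), [(nat_lit 2032000453), (nat_lit 4688000373), (nat_lit 7968000000)], [], [(nat_lit 27220395854), (nat_lit 27768608226), (nat_lit 34059223157), (nat_lit 34504950791), (nat_lit 31681197558), (nat_lit 32124816776), (nat_lit 36243515944), (nat_lit 36626869458)], (nat_lit 1271251), (nat_lit 1271251), (nat_lit 1271251), (nat_lit 1271251), (nat_lit 704688), (nat_lit 2566251), [(nat_lit 490000), (nat_lit 1100000), (nat_lit 1785001)], [(nat_lit 4), (nat_lit 51), (nat_lit 428), (nat_lit 200), (nat_lit 13)]⟩,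
 ⟨⟨[(nat_lit 40), (nat_lit 120), (nat_lit 180)], [(nat_lit 0), (nat_lit 0), (nat_lit 6400)], [((nat_lit 0), (nat_lit 0), (nat_lit 0)), ((nat_lit 0), (nat_lit 0), (nat_lit 0)), ((nat_lit 600), (nat_lit 800), (nat_lit 1000))], ((nat_lit 83), (nat_lit 82), (nat_lit 100))⟩, (nat_lit 1433895), (nat_lit 297), (nat_lit 297), (nat_lit 0), (nat_lit 150735), [(nat_lit 2032000000), (nat_lit 7968000000), (nat_lit 14058000000)], [], [(nat_lit 35005596350), (nat_lit 37064441925), (nat_lit 40622566320), (nat_lit 42336408360), (nat_lit 35973054890), (nat_lit 37356054104), (nat_lit 40278207400), (nat_lit 41838468760)], (nat_lit 1271251), (nat_lit 1271251), (nat_lit 1271251), (nat_lit 1271251), (nat_lit 230000), (nat_lit 2833126), [(nat_lit 490000), (nat_lit 1740001), (nat_lit 1271251)], [(nat_lit 7), (nat_lit 60), (nat_lit 538), (nat_lit 300), (nat_lit 12)]⟩,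
 ⟨⟨[(nat_lit 100), (nat_lit 160), (nat_lit 200)], [(nat_lit 0), (nat_lit 0), (nat_lit 4782)], [((nat_lit 0), (nat_lit 0), (nat_lit 0)), ((nat_lit 0), (nat_lit 0), (nat_lit 0)), ((nat_lit 475), (nat_lit 1000), (nat_lit 880))], ((nat_lit 0), (nat_lit 0), (nat_lit 0))⟩, (nat_lit 120050), (nat_lit 300), (nat_lit 662), (nat_lit 27305605), (nat_lit 488565), [(nat_lit 2300000000), (nat_lit 4368896000), (nat_lit 6035200000)], [], [(nat_lit 26132835141), (nat_lit 25903667521), (nat_lit 25022517397), (nat_lit 24685295362), (nat_lit 23897469860), (nat_lit 23528110333), (nat_lit 26972100481), (nat_lit 23071181501)], (nat_lit 1271251), (nat_lit 1271251), (nat_lit 704688), (nat_lit 2566251), (nat_lit 230000), (nat_lit 2833126), [(nat_lit 1412501), (nat_lit 1271251), (nat_lit 1271251)], [(nat_lit 25), (nat_lit 66), (nat_lit 483), (nat_lit 250), (nat_lit 10)]⟩⟩) (.dle (nat_lit 0))) (.trZ (nat_lit 0) (nat_lit 1) (nat_lit 3) (nat_lit 84) (nat_lit 33) (nat_lit 100)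 (nat_lit 260) (.trX (nat_lit 3) (nat_lit 0) (nat_lit 1) (nat_lit 52) (nat_lit 53) (nat_lit 100) (nat_lit 390) (.trZ (nat_lit 0) (nat_lit 2) (nat_lit 4) (nat_lit 100) (nat_lit 31) (nat_lit 95) (nat_lit 130) (.trX (nat_lit 4) (nat_lit 0) (nat_lit 2) (nat_lit 33) (nat_lit 85) (nat_lit 100) (nat_lit 320) (.leaf ⟨(nat_lit 0), (nat_lit 655), (nat_lit 0), (nat_lit 345), (nat_lit 0), (nat_lit 4240), (nat_lit 7780), (nat_lit 3403), (nat_lit 0), (nat_lit 0), (nat_lit 0), [], Pd.none, Pd.none, (nat_lit 0), (nat_lit 1), (nat_lit 0), (nat_lit 0), (nat_lit 5), (nat_lit 0), [⟨(nat_lit 0), (nat_lit 84), (nat_lit 26), (nat_lit 100), (nat_lit 222362010)⟩], [], [⟨(nat_lit 0), (nat_lit 100), (nat_lit 72), (nat_lit 81), (nat_lit 24104474)⟩], [],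
 ⟨⟨[(nat_lit 40), (nat_lit 80), (nat_lit 120)], [(nat_lit 0), (nat_lit 3225), (nat_lit 5518)], [((nat_lit 0), (nat_lit 0), (nat_lit 0)), ((nat_lit 1000), (nat_lit 321), (nat_lit 877)), ((nat_lit 1000), (nat_lit 317), (nat_lit 896))], ((nat_lit 31), (nat_lit 100), (nat_lit 99))⟩, (nat_lit 941658), (nat_lit 179), (nat_lit 179), (nat_lit 0), (nat_lit 166341), [(nat_lit 2032000071), (nat_lit 4902104687), (nat_lit 7968000000)], [], [(nat_lit 27783976984), (nat_lit 28318538333), (nat_lit 32818387905), (nat_lit 33254775844), (nat_lit 31078087561), (nat_lit 31505798836), (nat_lit 35101060875), (nat_lit 35506995900)], (nat_lit 1271251), (nat_lit 1271251), (nat_lit 1271251), (nat_lit 1271251), (nat_lit 857188), (nat_lit 2430626), [(nat_lit 490000), (nat_lit 1100000), (nat_lit 1785001)], [(nat_lit 4), (nat_lit 51), (nat_lit 317), (nat_lit 100), (nat_lit 9)]⟩,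
 ⟨⟨[(nat_lit 40), (nat_lit 120), (nat_lit 180)], [(nat_lit 0), (nat_lit 0), (nat_lit 6400)], [((nat_lit 0), (nat_lit 0), (nat_lit 0)), ((nat_lit 0), (nat_lit 0), (nat_lit 0)), ((nat_lit 600), (nat_lit 800), (nat_lit 1000))], ((nat_lit 82), (nat_lit 76), (nat_lit 100))⟩, (nat_lit 1470229), (nat_lit 371), (nat_lit 371), (nat_lit 0), (nat_lit 219737), [(nat_lit 2032000000), (nat_lit 7968000000), (nat_lit 14058000000)], [], [(nat_lit 35279819680), (nat_lit 37220553535), (nat_lit 39941296275), (nat_lit 41736548475), (nat_lit 36037196868), (nat_lit 37333139213), (nat_lit 39953145282), (nat_lit 41588289546)], (nat_lit 1271251), (nat_lit 1271251), (nat_lit 1271251), (nat_lit 1271251), (nat_lit 230000), (nat_lit 2833126), [(nat_lit 490000), (nat_lit 1740001), (nat_lit 1271251)], [(nat_lit 7), (nat_lit 60), (nat_lit 538), (nat_lit 300), (nat_lit 12)]⟩,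
 ⟨⟨[(nat_lit 100), (nat_lit 160), (nat_lit 200)], [(nat_lit 0), (nat_lit 0), (nat_lit 4782)], [((nat_lit 0), (nat_lit 0), (nat_lit 0)), ((nat_lit 0), (nat_lit 0), (nat_lit 0)), ((nat_lit 475), (nat_lit 1000), (nat_lit 880))], ((nat_lit 0), (nat_lit 0), (nat_lit 0))⟩, (nat_lit 112547), (nat_lit 300), (nat_lit 738), (nat_lit 25599002), (nat_lit 708984), [(nat_lit 2156250000), (nat_lit 4095840000), (nat_lit 5658000000)], [], [(nat_lit 23212142734), (nat_lit 22838380707), (nat_lit 21897256677), (nat_lit 21501730414), (nat_lit 23506626556), (nat_lit 19839637914), (nat_lit 18708290516), (nat_lit 18193533220)], (nat_lit 1271251), (nat_lit 1271251), (nat_lit 1271251), (nat_lit 1271251), (nat_lit 230000), (nat_lit 2833126), [(nat_lit 1412501), (nat_lit 1271251), (nat_lit 1271251)], [(nat_lit 25), (nat_lit 66), (nat_lit 483), (nat_lit 250), (nat_lit 10)]⟩⟩)))))) (.dle (nat_lit 0))) (.trZ (nat_lit 0) (nat_lit 1) (nat_lit 3) (nat_lit 68) (nat_lit 49) (nat_lit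 100) (nat_lit 290) (.trZ (nat_lit 1) (nat_lit 2) (nat_lit 5) (nat_lit 100) (nat_lit 60) (nat_lit 80) (nat_lit 80) (.trX (nat_lit 5) (nat_lit 1) (nat_lit 2) (nat_lit 63) (nat_lit 61) (nat_lit 100) (nat_lit 370) (.spl (nat_lit 0) (nat_lit 390) (.ord (.spl (nat_lit 6) (nat_lit 184) (.leaf ⟨(nat_lit 0), (nat_lit 620), (nat_lit 0), (nat_lit 380), (nat_lit 1757), (nat_lit 4171), (nat_lit 4421), (nat_lit 2812), (nat_lit 594937), (nat_lit 0), (nat_lit 0), [], Pd.none, Pd.none, (nat_lit 0), (nat_lit 1), (nat_lit 0), (nat_lit 0), (nat_lit 5), (nat_lit 0), [⟨(nat_lit 0), (nat_lit 62), (nat_lit 49), (nat_lit 100), (nat_lit 45050661)⟩], [], [], [],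
 ⟨⟨[(nat_lit 40), (nat_lit 100), (nat_lit 140)], [(nat_lit 0), (nat_lit 3610), (nat_lit 5926)], [((nat_lit 0), (nat_lit 0), (nat_lit 0)), ((nat_lit 1000), (nat_lit 436), (nat_lit 895)), ((nat_lit 1000), (nat_lit 436), (nat_lit 905))], ((nat_lit 44), (nat_lit 93), (nat_lit 100))⟩, (nat_lit 1240706), (nat_lit 238), (nat_lit 238), (nat_lit 0), (nat_lit 258420), [(nat_lit 2032000201), (nat_lit 6250000198), (nat_lit 9842000000)], [], [(nat_lit 29148951012), (nat_lit 29636728674), (nat_lit 33473265808), (nat_lit 33871898572), (nat_lit 32521808618), (nat_lit 32875342651), (nat_lit 35687992366), (nat_lit 36060690275)], (nat_lit 1271251), (nat_lit 1271251), (nat_lit 1271251), (nat_lit 1271251), (nat_lit 704688), (nat_lit 2566251), [(nat_lit 490000), (nat_lit 1427501), (nat_lit 1271251)], [(nat_lit 5), (nat_lit 55), (nat_lit 317), (nat_lit 100), (nat_lit 8)]⟩,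
 ⟨⟨[(nat_lit 40), (nat_lit 100), (nat_lit 160)], [(nat_lit 0), (nat_lit 2396), (nat_lit 6144)], [((nat_lit 0), (nat_lit 0), (nat_lit 0)), ((nat_lit 1000), (nat_lit 625), (nat_lit 623)), ((nat_lit 1000), (nat_lit 625), (nat_lit 975))], ((nat_lit 60), (nat_lit 85), (nat_lit 100))⟩, (nat_lit 1694698), (nat_lit 302), (nat_lit 302), (nat_lit 0), (nat_lit 264338), [(nat_lit 2032000000), (nat_lit 6250000000), (nat_lit 11872000000)], [], [(nat_lit 28669263756), (nat_lit 30158573156), (nat_lit 33066136142), (nat_lit 34219277032), (nat_lit 32563048971), (nat_lit 33753559056), (nat_lit 36361401051), (nat_lit 37410648753)], (nat_lit 1271251), (nat_lit 1271251), (nat_lit 1271251), (nat_lit 1271251), (nat_lit 490000), (nat_lit 2755626), [(nat_lit 490000), (nat_lit 1427501), (nat_lit 1271251)], [(nat_lit 6), (nat_lit 56), (nat_lit 428), (nat_lit 200), (nat_lit 10)]⟩,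
 ⟨⟨[(nat_lit 100), (nat_lit 160), (nat_lit 200)], [(nat_lit 0), (nat_lit 0), (nat_lit 4782)], [((nat_lit 0), (nat_lit 0), (nat_lit 0)), ((nat_lit 0), (nat_lit 0), (nat_lit 0)), ((nat_lit 475), (nat_lit 1000), (nat_lit 880))], ((nat_lit 0), (nat_lit 0), (nat_lit 0))⟩, (nat_lit 123965), (nat_lit 300), (nat_lit 882), (nat_lit 28196000), (nat_lit 1041938), [(nat_lit 2375000000), (nat_lit 4511360000), (nat_lit 6232000000)], [], [(nat_lit 30110748375), (nat_lit 29799029095), (nat_lit 28781897859), (nat_lit 28413945625), (nat_lit 28434240956), (nat_lit 28053101594), (nat_lit 27122600026), (nat_lit 26458233197)], (nat_lit 1271251), (nat_lit 1271251), (nat_lit 704688), (nat_lit 2566251), (nat_lit 490000), (nat_lit 2755626), [(nat_lit 1412501), (nat_lit 1271251), (nat_lit 1271251)], [(nat_lit 25), (nat_lit 66), (nat_lit 483), (nat_lit 250), (nat_lit 10)]⟩⟩) (.dle (nat_lit 0)))) (.trZ (nat_lit 0) (nat_lit 1) (nat_lit 3) (nat_lit 73) (nat_lit 38) (nat_lit 100)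 (nat_lit 310) (.trZ (nat_lit 0) (nat_lit 2) (nat_lit 4) (nat_lit 100) (nat_lit 31) (nat_lit 95) (nat_lit 130) (.trX (nat_lit 4) (nat_lit 0) (nat_lit 2) (nat_lit 33) (nat_lit 85) (nat_lit 100) (nat_lit 320) (.spl (nat_lit 0) (nat_lit 395) (.ord (.spl (nat_lit 6) (nat_lit 196) (.leaf ⟨(nat_lit 0), (nat_lit 656), (nat_lit 0), (nat_lit 344), (nat_lit 0), (nat_lit 3933), (nat_lit 4118), (nat_lit 3158), (nat_lit 272118), (nat_lit 0), (nat_lit 0), [], Pd.none, Pd.none, (nat_lit 0), (nat_lit 1), (nat_lit 0), (nat_lit 0), (nat_lit 5), (nat_lit 0), [⟨(nat_lit 0), (nat_lit 51), (nat_lit 51), (nat_lit 100), (nat_lit 215223348)⟩], [], [⟨(nat_lit 1), (nat_lit 82), (nat_lit 47), (nat_lit 100), (nat_lit 800578)⟩], [],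
 ⟨⟨[(nat_lit 40), (nat_lit 100), (nat_lit 140)], [(nat_lit 0), (nat_lit 4401), (nat_lit 6848)], [((nat_lit 0), (nat_lit 0), (nat_lit 0)), ((nat_lit 1000), (nat_lit 312), (nat_lit 943)), ((nat_lit 1000), (nat_lit 312), (nat_lit 956))], ((nat_lit 31), (nat_lit 96), (nat_lit 100))⟩, (nat_lit 1167923), (nat_lit 248), (nat_lit 248), (nat_lit 0), (nat_lit 299665), [(nat_lit 2032000011), (nat_lit 6732722466), (nat_lit 9842000000)], [], [(nat_lit 29865423007), (nat_lit 30081696414), (nat_lit 33015372427), (nat_lit 33206600696), (nat_lit 32357693332), (nat_lit 32516299527), (nat_lit 35076183568), (nat_lit 35268392020)], (nat_lit 1271251), (nat_lit 1271251), (nat_lit 1271251), (nat_lit 1271251), (nat_lit 857188), (nat_lit 2430626), [(nat_lit 490000), (nat_lit 1427501), (nat_lit 1271251)], [(nat_lit 5), (nat_lit 55), (nat_lit 317), (nat_lit 100), (nat_lit 8)]⟩,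
 ⟨⟨[(nat_lit 40), (nat_lit 100), (nat_lit 160)], [(nat_lit 0), (nat_lit 2396), (nat_lit 6144)], [((nat_lit 0), (nat_lit 0), (nat_lit 0)), ((nat_lit 1000), (nat_lit 625), (nat_lit 623)), ((nat_lit 1000), (nat_lit 625), (nat_lit 975))], ((nat_lit 60), (nat_lit 81), (nat_lit 100))⟩, (nat_lit 1524001), (nat_lit 329), (nat_lit 329), (nat_lit 0), (nat_lit 308509), [(nat_lit 2032000000), (nat_lit 6250000000), (nat_lit 11872000000)], [], [(nat_lit 31384381802), (nat_lit 32606418938), (nat_lit 34128480456), (nat_lit 35300667703), (nat_lit 34302918440), (nat_lit 35100935364), (nat_lit 36322220926), (nat_lit 37128899937)], (nat_lit 1271251), (nat_lit 1271251), (nat_lit 1271251), (nat_lit 1271251), (nat_lit 490000), (nat_lit 2755626), [(nat_lit 490000), (nat_lit 1427501), (nat_lit 1271251)], [(nat_lit 6), (nat_lit 56), (nat_lit 428), (nat_lit 200), (nat_lit 10)]⟩,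
 ⟨⟨[(nat_lit 100), (nat_lit 160), (nat_lit 200)], [(nat_lit 0), (nat_lit 0), (nat_lit 4782)], [((nat_lit 0), (nat_lit 0), (nat_lit 0)), ((nat_lit 0), (nat_lit 0), (nat_lit 0)), ((nat_lit 475), (nat_lit 1000), (nat_lit 880))], ((nat_lit 0), (nat_lit 0), (nat_lit 0))⟩, (nat_lit 112221), (nat_lit 300), (nat_lit 952), (nat_lit 25524800), (nat_lit 1245039), [(nat_lit 2150000000), (nat_lit 4083968000), (nat_lit 5641600000)], [], [(nat_lit 24610091536), (nat_lit 24170979831), (nat_lit 23115044665), (nat_lit 22635517683), (nat_lit 23236500592), (nat_lit 21838154489), (nat_lit 20677708619), (nat_lit 20153929805)], (nat_lit 1271251), (nat_lit 1271251), (nat_lit 1271251), (nat_lit 1271251), (nat_lit 490000), (nat_lit 2755626), [(nat_lit 1412501), (nat_lit 1271251), (nat_lit 1271251)], [(nat_lit 25), (nat_lit 66), (nat_lit 483), (nat_lit 250), (nat_lit 10)]⟩⟩) (.dle (nat_lit 0)))) (.trZ (nat_lit 0) (nat_lit 1) (nat_lit 3) (nat_lit 79) (nat_lit 29) (nat_lit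 100) (nat_lit 320) (.trZ (nat_lit 0) (nat_lit 2) (nat_lit 4) (nat_lit 100) (nat_lit 22) (nat_lit 98) (nat_lit 150) (.trX (nat_lit 4) (nat_lit 0) (nat_lit 2) (nat_lit 23) (nat_lit 91) (nat_lit 100) (nat_lit 310) (.leaf ⟨(nat_lit 0), (nat_lit 677), (nat_lit 0), (nat_lit 323), (nat_lit 0), (nat_lit 4100), (nat_lit 4136), (nat_lit 3154), (nat_lit 545570), (nat_lit 0), (nat_lit 0), [], Pd.none, Pd.none, (nat_lit 0), (nat_lit 1), (nat_lit 0), (nat_lit 0), (nat_lit 5), (nat_lit 0), [⟨(nat_lit 0), (nat_lit 76), (nat_lit 28), (nat_lit 100), (nat_lit 376354125)⟩], [⟨(nat_lit 1), (nat_lit 96), (nat_lit 16), (nat_lit 100), (nat_lit 106303889)⟩], [⟨(nat_lit 1), (nat_lit 83), (nat_lit 44), (nat_lit 100), (nat_lit 16884513)⟩], [],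
 ⟨⟨[(nat_lit 40), (nat_lit 100), (nat_lit 140)], [(nat_lit 0), (nat_lit 4977), (nat_lit 7491)], [((nat_lit 0), (nat_lit 0), (nat_lit 0)), ((nat_lit 1000), (nat_lit 222), (nat_lit 968)), ((nat_lit 1000), (nat_lit 222), (nat_lit 982))], ((nat_lit 22), (nat_lit 96), (nat_lit 100))⟩, (nat_lit 1004636), (nat_lit 262), (nat_lit 262), (nat_lit 0), (nat_lit 340280), [(nat_lit 2032000040), (nat_lit 6558168264), (nat_lit 9842000000)], [], [(nat_lit 30875535848), (nat_lit 31073988544), (nat_lit 33554094459), (nat_lit 33743657724), (nat_lit 32950038566), (nat_lit 33102284394), (nat_lit 35281334313), (nat_lit 35480540200)], (nat_lit 1271251), (nat_lit 1271251), (nat_lit 1271251), (nat_lit 1271251), (nat_lit 1017188), (nat_lit 2372188), [(nat_lit 490000), (nat_lit 1427501), (nat_lit 1271251)], [(nat_lit 5), (nat_lit 55), (nat_lit 317), (nat_lit 100), (nat_lit 7)]⟩,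
 ⟨⟨[(nat_lit 40), (nat_lit 120), (nat_lit 180)], [(nat_lit 0), (nat_lit 3193), (nat_lit 8000)], [((nat_lit 0), (nat_lit 0), (nat_lit 0)), ((nat_lit 1000), (nat_lit 625), (nat_lit 623)), ((nat_lit 800), (nat_lit 600), (nat_lit 1000))], ((nat_lit 60), (nat_lit 76), (nat_lit 100))⟩, (nat_lit 1581493), (nat_lit 382), (nat_lit 382), (nat_lit 0), (nat_lit 352010), [(nat_lit 2032000000), (nat_lit 7968000000), (nat_lit 14058000000)], [], [(nat_lit 32415824019), (nat_lit 33591381011), (nat_lit 34565830115), (nat_lit 35541508160), (nat_lit 34485638987), (nat_lit 35246984046), (nat_lit 36021230632), (nat_lit 37327552384)], (nat_lit 1271251), (nat_lit 1271251), (nat_lit 1271251), (nat_lit 1271251), (nat_lit 490000), (nat_lit 2755626), [(nat_lit 490000), (nat_lit 1740001), (nat_lit 1271251)], [(nat_lit 7), (nat_lit 60), (nat_lit 428), (nat_lit 200), (nat_lit 9)]⟩,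
 ⟨⟨[(nat_lit 100), (nat_lit 160), (nat_lit 200)], [(nat_lit 0), (nat_lit 0), (nat_lit 4782)], [((nat_lit 0), (nat_lit 0), (nat_lit 0)), ((nat_lit 0), (nat_lit 0), (nat_lit 0)), ((nat_lit 475), (nat_lit 1000), (nat_lit 880))], ((nat_lit 0), (nat_lit 0), (nat_lit 0))⟩, (nat_lit 105370), (nat_lit 300), (nat_lit 1050), (nat_lit 23966604), (nat_lit 1452366), [(nat_lit 2018750000), (nat_lit 3834656000), (nat_lit 5297200000)], [], [(nat_lit 22742850870), (nat_lit 22249129474), (nat_lit 21422977818), (nat_lit 20901276321), (nat_lit 20849488283), (nat_lit 19698162015), (nat_lit 18803245312), (nat_lit 18247507755)], (nat_lit 1271251), (nat_lit 1271251), (nat_lit 1271251), (nat_lit 1271251), (nat_lit 490000), (nat_lit 2755626), [(nat_lit 1412501), (nat_lit 1271251), (nat_lit 1271251)], [(nat_lit 25), (nat_lit 66), (nat_lit 483), (nat_lit 250), (nat_lit 10)]⟩⟩))))))))))))) (.dle (nat_lit 0)))))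
noncomputable def c15_34 : Tr Lf :=
 (.trZ (nat_lit 0) (nat_lit 2) (nat_lit 4) (nat_lit 96) (nat_lit 44) (nat_lit 100) (nat_lit 170) (.trZ (nat_lit 1) (nat_lit 2) (nat_lit 5) (nat_lit 100) (nat_lit 84) (nat_lit 85) (nat_lit 80) (.spl (nat_lit 6) (nat_lit 196) (.stt (nat_lit 1) (.stt (nat_lit 2) (.spl (nat_lit 6) (nat_lit 100) (.spl (nat_lit 1) (nat_lit 360) (.ord (.leaf ⟨(nat_lit 22), (nat_lit 603), (nat_lit 0), (nat_lit 375), (nat_lit 0), (nat_lit 3143), (nat_lit 5654), (nat_lit 3013), (nat_lit 0), (nat_lit 9500), (nat_lit 88000), [((nat_lit 400), [((nat_lit 43), (nat_lit 5), (nat_lit 22))])], ⟨(nat_lit 8), true, false, false, (nat_lit 327), (nat_lit 0), (nat_lit 2237), [(nat_lit 1675230), (nat_lit 1683322), (nat_lit 1718925), (nat_lit 1731469), (nat_lit 1921719), (nat_lit 1899996), (nat_lit 1967269), (nat_lit 1949998)]⟩, ⟨(nat_lit 6), false, false, false, (nat_lit 297), (nat_lit 0), (nat_lit 2237), [(nat_lit 1521399), (nat_lit 1533338), (nat_lit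 1630639), (nat_lit 1653706), (nat_lit 1853392), (nat_lit 1824992), (nat_lit 1967269), (nat_lit 1949998)]⟩, (nat_lit 5833270), (nat_lit 29121391), (nat_lit 20484855), (nat_lit 17393754), (nat_lit 6), (nat_lit 0), [⟨(nat_lit 0), (nat_lit 80), (nat_lit 35), (nat_lit 100), (nat_lit 283745129)⟩], [⟨(nat_lit 1), (nat_lit 74), (nat_lit 37), (nat_lit 100), (nat_lit 243878296)⟩], [], [],
 ⟨⟨[(nat_lit 40), (nat_lit 80), (nat_lit 100)], [(nat_lit 0), (nat_lit 2514), (nat_lit 3562)], [((nat_lit 0), (nat_lit 0), (nat_lit 0)), ((nat_lit 1000), (nat_lit 446), (nat_lit 804)), ((nat_lit 1000), (nat_lit 443), (nat_lit 819))], ((nat_lit 44), (nat_lit 100), (nat_lit 87))⟩, (nat_lit 1057225), (nat_lit 110), (nat_lit 110), (nat_lit 0), (nat_lit 0), [(nat_lit 1823484003), (nat_lit 4210908565), (nat_lit 5224571200)], [(nat_lit 0), (nat_lit 0), (nat_lit 0)], [(nat_lit 25226998047), (nat_lit 26294417844), (nat_lit 31163241153), (nat_lit 31907663767), (nat_lit 31868463771),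 (nat_lit 32651172541), (nat_lit 36155906889), (nat_lit 36714776938)], (nat_lit 0), (nat_lit 0), (nat_lit 0), (nat_lit 0), (nat_lit 0), (nat_lit 0), [], [(nat_lit 3), (nat_lit 50), (nat_lit 317), (nat_lit 100), (nat_lit 10)]⟩,
 ⟨⟨[(nat_lit 40), (nat_lit 100), (nat_lit 140)], [(nat_lit 0), (nat_lit 0), (nat_lit 3243)], [((nat_lit 0), (nat_lit 0), (nat_lit 0)), ((nat_lit 0), (nat_lit 0), (nat_lit 0)), ((nat_lit 1000), (nat_lit 870), (nat_lit 941))], ((nat_lit 87), (nat_lit 100), (nat_lit 94))⟩, (nat_lit 1514890), (nat_lit 169), (nat_lit 169), (nat_lit 0), (nat_lit 0), [(nat_lit 1987296000), (nat_lit 6112500000), (nat_lit 9625476000)], [], [(nat_lit 24641778141), (nat_lit 27518726799), (nat_lit 33219990234), (nat_lit 35050576590), (nat_lit 32654056019), (nat_lit 34381818104), (nat_lit 37507948800), (nat_lit 38614822328)], (nat_lit 0), (nat_lit 0), (nat_lit 0), (nat_lit 0), (nat_lit 0), (nat_lit 0), [], [(nat_lit 5), (nat_lit 55), (nat_lit 428), (nat_lit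 200), (nat_lit 11)]⟩,
 ⟨⟨[(nat_lit 80), (nat_lit 140), (nat_lit 180)], [(nat_lit 0), (nat_lit 792), (nat_lit 4228)], [((nat_lit 0), (nat_lit 0), (nat_lit 0)), ((nat_lit 1000), (nat_lit 959), (nat_lit 206)), ((nat_lit 709), (nat_lit 1000), (nat_lit 949))], ((nat_lit 100), (nat_lit 77), (nat_lit 91))⟩, (nat_lit 1605195), (nat_lit 300), (nat_lit 1450), (nat_lit 21975000), (nat_lit 2524817), [(nat_lit 1758000000), (nat_lit 3690750000), (nat_lit 5271750000)], [], [(nat_lit 23084987410), (nat_lit 22545121826), (nat_lit 21639677789), (nat_lit 21039501523), (nat_lit 20690925893), (nat_lit 20084586624), (nat_lit 19126570500), (nat_lit 18479262868)], (nat_lit 1271251), (nat_lit 1271251), (nat_lit 1271251), (nat_lit 1271251), (nat_lit 490000), (nat_lit 2990001), [(nat_lit 1100000), (nat_lit 2127501), (nat_lit 1271251)], [(nat_lit 19), (nat_lit 63), (nat_lit 538), (nat_lit 300), (nat_lit 12)]⟩⟩)) (.trZ (nat_lit 0) (nat_lit 1) (nat_lit 3) (nat_lit 68) (nat_lit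 49) (nat_lit 100) (nat_lit 290) (.trZ (nat_lit 1) (nat_lit 2) (nat_lit 5) (nat_lit 100) (nat_lit 63) (nat_lit 99) (nat_lit 130) (.leaf ⟨(nat_lit 0), (nat_lit 678), (nat_lit 0), (nat_lit 322), (nat_lit 0), (nat_lit 3385), (nat_lit 3523), (nat_lit 2743), (nat_lit 306450), (nat_lit 17460), (nat_lit 0), [], Pd.none, Pd.none, (nat_lit 0), (nat_lit 1), (nat_lit 0), (nat_lit 0), (nat_lit 6), (nat_lit 0), [⟨(nat_lit 0), (nat_lit 63), (nat_lit 45), (nat_lit 100), (nat_lit 204706521)⟩], [⟨(nat_lit 1), (nat_lit 68), (nat_lit 41), (nat_lit 100), (nat_lit 295297365)⟩], [⟨(nat_lit 1), (nat_lit 53), (nat_lit 57), (nat_lit 100), (nat_lit 146022596)⟩], [],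
 ⟨⟨[(nat_lit 40), (nat_lit 80), (nat_lit 100)], [(nat_lit 0), (nat_lit 2514), (nat_lit 3562)], [((nat_lit 0), (nat_lit 0), (nat_lit 0)), ((nat_lit 1000), (nat_lit 446), (nat_lit 804)), ((nat_lit 1000), (nat_lit 443), (nat_lit 819))], ((nat_lit 44), (nat_lit 100), (nat_lit 87))⟩, (nat_lit 1248097), (nat_lit 110), (nat_lit 110), (nat_lit 0), (nat_lit 0), [(nat_lit 2032000006), (nat_lit 4931006944), (nat_lit 6250000000)], [], [(nat_lit 27351801138), (nat_lit 28334815624), (nat_lit 31542374759), (nat_lit 32303962907), (nat_lit 33470020801), (nat_lit 34191358017), (nat_lit 36527486697), (nat_lit 37094213900)], (nat_lit 0), (nat_lit 0), (nat_lit 0), (nat_lit 0), (nat_lit 0), (nat_lit 0), [], [(nat_lit 3), (nat_lit 50), (nat_lit 317), (nat_lit 100), (nat_lit 10)]⟩,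
 ⟨⟨[(nat_lit 40), (nat_lit 80), (nat_lit 120)], [(nat_lit 0), (nat_lit 1598), (nat_lit 3468)], [((nat_lit 0), (nat_lit 0), (nat_lit 0)), ((nat_lit 1000), (nat_lit 625), (nat_lit 623)), ((nat_lit 1000), (nat_lit 604), (nat_lit 730))], ((nat_lit 60), (nat_lit 100), (nat_lit 87))⟩, (nat_lit 1739615), (nat_lit 138), (nat_lit 138), (nat_lit 0), (nat_lit 0), [(nat_lit 2032000000), (nat_lit 4688000000), (nat_lit 7968000000)], [], [(nat_lit 26941006665), (nat_lit 28908055233), (nat_lit 31337613226), (nat_lit 32856020232), (nat_lit 33135441354), (nat_lit 34500487548), (nat_lit 36214001272), (nat_lit 37310838020)], (nat_lit 0), (nat_lit 0), (nat_lit 0), (nat_lit 0), (nat_lit 0), (nat_lit 0), [], [(nat_lit 4), (nat_lit 51), (nat_lit 317), (nat_lit 100), (nat_lit 9)]⟩,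
 ⟨⟨[(nat_lit 80), (nat_lit 140), (nat_lit 180)], [(nat_lit 0), (nat_lit 792), (nat_lit 4228)], [((nat_lit 0), (nat_lit 0), (nat_lit 0)), ((nat_lit 1000), (nat_lit 959), (nat_lit 206)), ((nat_lit 709), (nat_lit 1000), (nat_lit 949))], ((nat_lit 100), (nat_lit 77), (nat_lit 91))⟩, (nat_lit 665955), (nat_lit 300), (nat_lit 1657), (nat_lit 18869200), (nat_lit 3014322), [(nat_lit 1509536000), (nat_lit 3169124000), (nat_lit 4526676000)], [], [(nat_lit 18045893180), (nat_lit 17300650458), (nat_lit 16617145964), (nat_lit 15818407621), (nat_lit 16247401176), (nat_lit 15445621241), (nat_lit 14750860663), (nat_lit 14539164188)], (nat_lit 1271251), (nat_lit 1271251), (nat_lit 1271251), (nat_lit 1271251), (nat_lit 857188), (nat_lit 3093126), [(nat_lit 1100000), (nat_lit 2127501), (nat_lit 1271251)], [(nat_lit 19), (nat_lit 63), (nat_lit 565), (nat_lit 300), (nat_lit 12)]⟩⟩)))) (.leaf ⟨(nat_lit 0), (nat_lit 0), (nat_lit 0), (nat_lit 1000), (nat_lit 0), (nat_lit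 3484), (nat_lit 3854), (nat_lit 10507), (nat_lit 4959), (nat_lit 766), (nat_lit 0), [], Pd.none, Pd.none, (nat_lit 0), (nat_lit 1), (nat_lit 0), (nat_lit 0), (nat_lit 0), (nat_lit 0), [⟨(nat_lit 0), (nat_lit 73), (nat_lit 38), (nat_lit 100), (nat_lit 534981880)⟩], [⟨(nat_lit 0), (nat_lit 96), (nat_lit 44), (nat_lit 100), (nat_lit 844817032)⟩], [⟨(nat_lit 0), (nat_lit 76), (nat_lit 60), (nat_lit 100), (nat_lit 563787797)⟩], [],
 ⟨⟨[(nat_lit 40), (nat_lit 100), (nat_lit 160)], [(nat_lit 0), (nat_lit 3610), (nat_lit 7085)], [((nat_lit 0), (nat_lit 0), (nat_lit 0)), ((nat_lit 1000), (nat_lit 436), (nat_lit 895)), ((nat_lit 1000), (nat_lit 436), (nat_lit 905))], ((nat_lit 44), (nat_lit 91), (nat_lit 100))⟩, (nat_lit 1703979), (nat_lit 162), (nat_lit 162), (nat_lit 0), (nat_lit 0), [(nat_lit 2032000001), (nat_lit 7596046843), (nat_lit 11872000000)], [], [(nat_lit 26826063321), (nat_lit 27714879159), (nat_lit 31672122811), (nat_lit 32295525186), (nat_lit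 32177996129), (nat_lit 32987641582), (nat_lit 36641421484), (nat_lit 37249618160)], (nat_lit 0), (nat_lit 0), (nat_lit 0), (nat_lit 0), (nat_lit 0), (nat_lit 0), [], [(nat_lit 6), (nat_lit 56), (nat_lit 428), (nat_lit 200), (nat_lit 10)]⟩,
 ⟨⟨[(nat_lit 40), (nat_lit 120), (nat_lit 180)], [(nat_lit 0), (nat_lit 0), (nat_lit 6400)], [((nat_lit 0), (nat_lit 0), (nat_lit 0)), ((nat_lit 0), (nat_lit 0), (nat_lit 0)), ((nat_lit 600), (nat_lit 800), (nat_lit 1000))], ((nat_lit 80), (nat_lit 62), (nat_lit 100))⟩, (nat_lit 1399349), (nat_lit 225), (nat_lit 225), (nat_lit 0), (nat_lit 0), [(nat_lit 2032000000), (nat_lit 7968000000), (nat_lit 14058000000)], [], [(nat_lit 30483157756), (nat_lit 34269885402), (nat_lit 36393827696), (nat_lit 39071221640), (nat_lit 36736634383), (nat_lit 39334941319), (nat_lit 40723748152), (nat_lit 42571264152)], (nat_lit 0), (nat_lit 0), (nat_lit 0), (nat_lit 0), (nat_lit 0), (nat_lit 0), [], [(nat_lit 7), (nat_lit 60), (nat_lit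 538), (nat_lit 300), (nat_lit 12)]⟩,
 ⟨⟨[(nat_lit 80), (nat_lit 140), (nat_lit 200)], [(nat_lit 0), (nat_lit 792), (nat_lit 5941)], [((nat_lit 0), (nat_lit 0), (nat_lit 0)), ((nat_lit 1000), (nat_lit 959), (nat_lit 206)), ((nat_lit 709), (nat_lit 1000), (nat_lit 949))], ((nat_lit 0), (nat_lit 0), (nat_lit 0))⟩, (nat_lit 486530), (nat_lit 300), (nat_lit 804), (nat_lit 67547631), (nat_lit 983649), [(nat_lit 4688000000), (nat_lit 9842000000), (nat_lit 16400000000)], [], [(nat_lit 57388371549), (nat_lit 56407867977), (nat_lit 54045938341), (nat_lit 54017940052), (nat_lit 61539560708), (nat_lit 49515742801), (nat_lit 47049830077), (nat_lit 48273902180)], (nat_lit 1271251), (nat_lit 1271251), (nat_lit 1271251), (nat_lit 1271251), (nat_lit 490000), (nat_lit 2990001), [(nat_lit 1100000), (nat_lit 2127501), (nat_lit 1271251)], [(nat_lit 20), (nat_lit 64), (nat_lit 538), (nat_lit 300), (nat_lit 11)]⟩⟩)) (.spl (nat_lit 6) (nat_lit 100) (.spl (nat_lit 0) (nat_lit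 390) (.ord (.leaf ⟨(nat_lit 23), (nat_lit 132), (nat_lit 0), (nat_lit 845), (nat_lit 0), (nat_lit 3267), (nat_lit 8107), (nat_lit 7559), (nat_lit 115157), (nat_lit 6617), (nat_lit 92000), [((nat_lit 390), [((nat_lit 43), (nat_lit 5), (nat_lit 23))])], ⟨(nat_lit 8), false, true, false, (nat_lit 336), (nat_lit 1581), (nat_lit 2237), [(nat_lit 1679198), (nat_lit 1680658), (nat_lit 1758749), (nat_lit 1762101), (nat_lit 1921722), (nat_lit 1913068), (nat_lit 2001426), (nat_lit 1994664)]⟩, ⟨(nat_lit 6), false, false, false, (nat_lit 305), (nat_lit 1581), (nat_lit 2237), [(nat_lit 1525360), (nat_lit 1528768), (nat_lit 1673097), (nat_lit 1680019), (nat_lit 1853399), (nat_lit 1843123), (nat_lit 2001426), (nat_lit 1994664)]⟩, (nat_lit 5859927), (nat_lit 28369578), (nat_lit 20852111), (nat_lit 17778311), (nat_lit 6), (nat_lit 0), [], [⟨(nat_lit 0), (nat_lit 96), (nat_lit 44), (nat_lit 100), (nat_lit 577706310)⟩], [⟨(nat_lit 0), (nat_lit 78), (nat_lit 63), (nat_lit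 100), (nat_lit 497288091)⟩], [],
 ⟨⟨[(nat_lit 40), (nat_lit 80), (nat_lit 100)], [(nat_lit 0), (nat_lit 2514), (nat_lit 3562)], [((nat_lit 0), (nat_lit 0), (nat_lit 0)), ((nat_lit 1000), (nat_lit 446), (nat_lit 804)), ((nat_lit 1000), (nat_lit 443), (nat_lit 819))], ((nat_lit 44), (nat_lit 100), (nat_lit 87))⟩, (nat_lit 1293494), (nat_lit 107), (nat_lit 107), (nat_lit 0), (nat_lit 0), [(nat_lit 1821966005), (nat_lit 4302856743), (nat_lit 5177960800)], [(nat_lit 0), (nat_lit 0), (nat_lit 0)], [(nat_lit 24186638248), (nat_lit 24729371573), (nat_lit 31029326349), (nat_lit 31462352839), (nat_lit 31826245868), (nat_lit 32222543397), (nat_lit 36308163517), (nat_lit 36608574049)], (nat_lit 0), (nat_lit 0), (nat_lit 0), (nat_lit 0), (nat_lit 0), (nat_lit 0), [], [(nat_lit 3), (nat_lit 50), (nat_lit 317), (nat_lit 100), (nat_lit 10)]⟩,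
 ⟨⟨[(nat_lit 40), (nat_lit 100), (nat_lit 140)], [(nat_lit 0), (nat_lit 0), (nat_lit 3243)], [((nat_lit 0), (nat_lit 0), (nat_lit 0)), ((nat_lit 0), (nat_lit 0), (nat_lit 0)), ((nat_lit 1000), (nat_lit 870), (nat_lit 941))], ((nat_lit 87), (nat_lit 100), (nat_lit 94))⟩, (nat_lit 1057486), (nat_lit 987), (nat_lit 987), (nat_lit 0), (nat_lit 1898030), [(nat_lit 1985264000), (nat_lit 6106250000), (nat_lit 9615634000)], [], [(nat_lit 33113502632), (nat_lit 34202503478), (nat_lit 35867228952), (nat_lit 41567202711), (nat_lit 34047403271), (nat_lit 38531369415), (nat_lit 40759319744), (nat_lit 43398539915)], (nat_lit 1271251), (nat_lit 1271251), (nat_lit 1271251), (nat_lit 1271251), (nat_lit 490000), (nat_lit 2990001), [(nat_lit 490000), (nat_lit 1427501), (nat_lit 1271251)], [(nat_lit 5), (nat_lit 55), (nat_lit 428), (nat_lit 200), (nat_lit 11)]⟩,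
 ⟨⟨[(nat_lit 80), (nat_lit 140), (nat_lit 180)], [(nat_lit 0), (nat_lit 792), (nat_lit 4228)], [((nat_lit 0), (nat_lit 0), (nat_lit 0)), ((nat_lit 1000), (nat_lit 959), (nat_lit 206)), ((nat_lit 709), (nat_lit 1000), (nat_lit 949))], ((nat_lit 100), (nat_lit 77), (nat_lit 91))⟩, (nat_lit 7281581), (nat_lit 300), (nat_lit 1069), (nat_lit 49517000), (nat_lit 1712587), [(nat_lit 3961360000), (nat_lit 8316490000), (nat_lit 11879010000)], [], [(nat_lit 43502896873), (nat_lit 42710907861), (nat_lit 40997200569), (nat_lit 40743940902), (nat_lit 44766961466), (nat_lit 37909748873), (nat_lit 36666024331), (nat_lit 38384915787)], (nat_lit 1271251), (nat_lit 1271251), (nat_lit 1271251), (nat_lit 1271251), (nat_lit 490000), (nat_lit 2990001), [(nat_lit 1100000), (nat_lit 2127501), (nat_lit 1271251)], [(nat_lit 19), (nat_lit 63), (nat_lit 538), (nat_lit 300), (nat_lit 12)]⟩⟩)) (.trZ (nat_lit 0) (nat_lit 1) (nat_lit 3) (nat_lit 84) (nat_lit 33) (nat_lit 100)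 (nat_lit 260) (.trZ (nat_lit 0) (nat_lit 2) (nat_lit 4) (nat_lit 95) (nat_lit 31) (nat_lit 100) (nat_lit 190) (.leaf ⟨(nat_lit 22), (nat_lit 149), (nat_lit 0), (nat_lit 829), (nat_lit 0), (nat_lit 3154), (nat_lit 7776), (nat_lit 7612), (nat_lit 434559), (nat_lit 468338), (nat_lit 88000), [((nat_lit 400), [((nat_lit 43), (nat_lit 5), (nat_lit 22))])], ⟨(nat_lit 8), false, true, false, (nat_lit 345), (nat_lit 0), (nat_lit 1582), [(nat_lit 1719869), (nat_lit 1723025), (nat_lit 1810502), (nat_lit 1820398), (nat_lit 1913064), (nat_lit 1899995), (nat_lit 2006289), (nat_lit 1999960)]⟩, ⟨(nat_lit 6), false, true, false, (nat_lit 312), (nat_lit 0), (nat_lit 1582), [(nat_lit 1553987), (nat_lit 1560201), (nat_lit 1712595), (nat_lit 1730603), (nat_lit 1843116), (nat_lit 1824992), (nat_lit 2006289), (nat_lit 1999960)]⟩, (nat_lit 5880182), (nat_lit 27672405), (nat_lit 21319422), (nat_lit 18008173), (nat_lit 6), (nat_lit 0), [⟨(nat_lit 0), (nat_lit 79), (nat_lit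 29), (nat_lit 100), (nat_lit 299901709)⟩], [⟨(nat_lit 0), (nat_lit 86), (nat_lit 25), (nat_lit 100), (nat_lit 1025402708)⟩], [⟨(nat_lit 0), (nat_lit 76), (nat_lit 60), (nat_lit 100), (nat_lit 572344638)⟩], [],
 ⟨⟨[(nat_lit 40), (nat_lit 60), (nat_lit 80)], [(nat_lit 0), (nat_lit 2136), (nat_lit 3185)], [((nat_lit 0), (nat_lit 0), (nat_lit 0)), ((nat_lit 1000), (nat_lit 343), (nat_lit 808)), ((nat_lit 1000), (nat_lit 338), (nat_lit 820))], ((nat_lit 32), (nat_lit 100), (nat_lit 88))⟩, (nat_lit 982184), (nat_lit 93), (nat_lit 93), (nat_lit 0), (nat_lit 0), [(nat_lit 1823484079), (nat_lit 3088902723), (nat_lit 3969858400)], [(nat_lit 0), (nat_lit 0), (nat_lit 0)], [(nat_lit 26218339940), (nat_lit 26791411605), (nat_lit 31738674975), (nat_lit 32154005640), (nat_lit 32825232187), (nat_lit 33198219354), (nat_lit 36433442943), (nat_lit 36731603960)], (nat_lit 0), (nat_lit 0), (nat_lit 0), (nat_lit 0), (nat_lit 0), (nat_lit 0), [], [(nat_lit 2), (nat_lit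 44), (nat_lit 203), (nat_lit 0), (nat_lit 6)]⟩,
 ⟨⟨[(nat_lit 40), (nat_lit 100), (nat_lit 140)], [(nat_lit 0), (nat_lit 0), (nat_lit 3243)], [((nat_lit 0), (nat_lit 0), (nat_lit 0)), ((nat_lit 0), (nat_lit 0), (nat_lit 0)), ((nat_lit 1000), (nat_lit 870), (nat_lit 941))], ((nat_lit 87), (nat_lit 100), (nat_lit 94))⟩, (nat_lit 1086792), (nat_lit 1040), (nat_lit 1040), (nat_lit 0), (nat_lit 2048730), [(nat_lit 1987296000), (nat_lit 6112500000), (nat_lit 9625476000)], [], [(nat_lit 37202014626), (nat_lit 37994463882), (nat_lit 37905746688), (nat_lit 41667040776), (nat_lit 35118065682), (nat_lit 39090876684), (nat_lit 40314558768), (nat_lit 43287768072)], (nat_lit 1271251), (nat_lit 1271251), (nat_lit 1271251), (nat_lit 1271251), (nat_lit 490000), (nat_lit 2990001), [(nat_lit 490000), (nat_lit 1427501), (nat_lit 1271251)], [(nat_lit 5), (nat_lit 55), (nat_lit 428), (nat_lit 200), (nat_lit 11)]⟩,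
 ⟨⟨[(nat_lit 80), (nat_lit 140), (nat_lit 180)], [(nat_lit 0), (nat_lit 792), (nat_lit 4228)], [((nat_lit 0), (nat_lit 0), (nat_lit 0)), ((nat_lit 1000), (nat_lit 959), (nat_lit 206)), ((nat_lit 709), (nat_lit 1000), (nat_lit 949))], ((nat_lit 100), (nat_lit 77), (nat_lit 91))⟩, (nat_lit 7672775), (nat_lit 300), (nat_lit 1130), (nat_lit 48579400), (nat_lit 1864084), [(nat_lit 3886352000), (nat_lit 8159018000), (nat_lit 11654082000)], [], [(nat_lit 41286893947), (nat_lit 40513895500), (nat_lit 39371174936), (nat_lit 39893338156), (nat_lit 40448586322), (nat_lit 36595138211), (nat_lit 35579786540), (nat_lit 38295014756)], (nat_lit 1271251), (nat_lit 1271251), (nat_lit 1271251), (nat_lit 1271251), (nat_lit 490000), (nat_lit 2990001), [(nat_lit 1100000), (nat_lit 2127501), (nat_lit 1271251)], [(nat_lit 19), (nat_lit 63), (nat_lit 538), (nat_lit 300), (nat_lit 12)]⟩⟩)))) (.leaf ⟨(nat_lit 0), (nat_lit 0), (nat_lit 0), (nat_lit 1000), (nat_lit 0), (nat_lit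 3776), (nat_lit 9256), (nat_lit 12755), (nat_lit 3551), (nat_lit 910), (nat_lit 0), [], Pd.none, Pd.none, (nat_lit 0), (nat_lit 1), (nat_lit 0), (nat_lit 0), (nat_lit 0), (nat_lit 0), [⟨(nat_lit 0), (nat_lit 73), (nat_lit 38), (nat_lit 100), (nat_lit 420853914)⟩], [⟨(nat_lit 0), (nat_lit 96), (nat_lit 44), (nat_lit 100), (nat_lit 676434822)⟩], [⟨(nat_lit 0), (nat_lit 76), (nat_lit 60), (nat_lit 100), (nat_lit 331191216)⟩], [],
 ⟨⟨[(nat_lit 40), (nat_lit 100), (nat_lit 160)], [(nat_lit 0), (nat_lit 3610), (nat_lit 7085)], [((nat_lit 0), (nat_lit 0), (nat_lit 0)), ((nat_lit 1000), (nat_lit 436), (nat_lit 895)), ((nat_lit 1000), (nat_lit 436), (nat_lit 905))], ((nat_lit 44), (nat_lit 91), (nat_lit 100))⟩, (nat_lit 1603642), (nat_lit 162), (nat_lit 162), (nat_lit 0), (nat_lit 0), [(nat_lit 2032000001), (nat_lit 7847651205), (nat_lit 11872000000)], [], [(nat_lit 27227289898), (nat_lit 28144299955), (nat_lit 32144740281), (nat_lit 32781396520), (nat_lit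 32533471029), (nat_lit 33373425304), (nat_lit 37089860776), (nat_lit 37707982240)], (nat_lit 0), (nat_lit 0), (nat_lit 0), (nat_lit 0), (nat_lit 0), (nat_lit 0), [], [(nat_lit 6), (nat_lit 56), (nat_lit 428), (nat_lit 200), (nat_lit 10)]⟩,
 ⟨⟨[(nat_lit 40), (nat_lit 120), (nat_lit 180)], [(nat_lit 0), (nat_lit 0), (nat_lit 6400)], [((nat_lit 0), (nat_lit 0), (nat_lit 0)), ((nat_lit 0), (nat_lit 0), (nat_lit 0)), ((nat_lit 600), (nat_lit 800), (nat_lit 1000))], ((nat_lit 80), (nat_lit 62), (nat_lit 100))⟩, (nat_lit 889854), (nat_lit 541), (nat_lit 541), (nat_lit 0), (nat_lit 645623), [(nat_lit 2032000000), (nat_lit 7968000000), (nat_lit 14058000000)], [], [(nat_lit 34800316316), (nat_lit 39697465828), (nat_lit 41865223744), (nat_lit 45519493760), (nat_lit 38144067656), (nat_lit 41518165724), (nat_lit 43092632704), (nat_lit 46310157440)], (nat_lit 1271251), (nat_lit 1271251), (nat_lit 1271251), (nat_lit 1271251), (nat_lit 490000), (nat_lit 2990001),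 [(nat_lit 490000), (nat_lit 1740001), (nat_lit 1271251)], [(nat_lit 7), (nat_lit 60), (nat_lit 538), (nat_lit 300), (nat_lit 12)]⟩,
 ⟨⟨[(nat_lit 80), (nat_lit 140), (nat_lit 200)], [(nat_lit 0), (nat_lit 792), (nat_lit 5941)], [((nat_lit 0), (nat_lit 0), (nat_lit 0)), ((nat_lit 1000), (nat_lit 959), (nat_lit 206)), ((nat_lit 709), (nat_lit 1000), (nat_lit 949))], ((nat_lit 0), (nat_lit 0), (nat_lit 0))⟩, (nat_lit 486530), (nat_lit 300), (nat_lit 633), (nat_lit 67547631), (nat_lit 640780), [(nat_lit 4688000000), (nat_lit 9842000000), (nat_lit 16400000000)], [], [(nat_lit 50944432859), (nat_lit 53206882210), (nat_lit 50901388675), (nat_lit 54727221450), (nat_lit 64593699128), (nat_lit 48949301255), (nat_lit 46940326360), (nat_lit 51802677700)], (nat_lit 1271251), (nat_lit 1271251), (nat_lit 1271251), (nat_lit 1271251), (nat_lit 490000), (nat_lit 2990001), [(nat_lit 1100000), (nat_lit 2127501), (nat_lit 1271251)], [(nat_lit 20), (nat_lit 64), (nat_lit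 538), (nat_lit 300), (nat_lit 11)]⟩⟩))) (.spl (nat_lit 6) (nat_lit 100) (.leaf ⟨(nat_lit 22), (nat_lit 376), (nat_lit 0), (nat_lit 602), (nat_lit 0), (nat_lit 6579), (nat_lit 7181), (nat_lit 4984), (nat_lit 41611), (nat_lit 2317), (nat_lit 88000), [((nat_lit 400), [((nat_lit 43), (nat_lit 5), (nat_lit 22))])], ⟨(nat_lit 8), false, true, false, (nat_lit 337), (nat_lit 0), (nat_lit 2237), [(nat_lit 1675230), (nat_lit 1683322), (nat_lit 1762621), (nat_lit 1779617), (nat_lit 1921719), (nat_lit 1899996), (nat_lit 2012658), (nat_lit 1999837)]⟩, ⟨(nat_lit 6), false, false, false, (nat_lit 306), (nat_lit 0), (nat_lit 2237), [(nat_lit 1521399), (nat_lit 1533338), (nat_lit 1674334), (nat_lit 1701853), (nat_lit 1853392), (nat_lit 1824992), (nat_lit 2012658), (nat_lit 1999837)]⟩, (nat_lit 5863252), (nat_lit 28267776), (nat_lit 20905953), (nat_lit 17826271), (nat_lit 6), (nat_lit 0), [⟨(nat_lit 0), (nat_lit 73), (nat_lit 38), (nat_lit 100), (nat_lit 519875438)⟩],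 [⟨(nat_lit 0), (nat_lit 82), (nat_lit 34), (nat_lit 100), (nat_lit 299582105)⟩], [⟨(nat_lit 0), (nat_lit 76), (nat_lit 60), (nat_lit 100), (nat_lit 312965952)⟩], [],
 ⟨⟨[(nat_lit 40), (nat_lit 80), (nat_lit 100)], [(nat_lit 0), (nat_lit 2514), (nat_lit 3562)], [((nat_lit 0), (nat_lit 0), (nat_lit 0)), ((nat_lit 1000), (nat_lit 446), (nat_lit 804)), ((nat_lit 1000), (nat_lit 443), (nat_lit 819))], ((nat_lit 44), (nat_lit 100), (nat_lit 87))⟩, (nat_lit 186935), (nat_lit 300), (nat_lit 661), (nat_lit 45587101), (nat_lit 1560430), [(nat_lit 1823484001), (nat_lit 4076625481), (nat_lit 5224571200)], [(nat_lit 0), (nat_lit 0), (nat_lit 0)], [(nat_lit 30740304100), (nat_lit 31157442099), (nat_lit 36153425499), (nat_lit 37446870893), (nat_lit 36381308239), (nat_lit 37539430304), (nat_lit 41394570829), (nat_lit 42107963460)], (nat_lit 1271251), (nat_lit 1271251), (nat_lit 1271251), (nat_lit 1271251), (nat_lit 1184688), (nat_lit 3175626), [(nat_lit 490000),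 (nat_lit 1100000), (nat_lit 1442501)], [(nat_lit 3), (nat_lit 50), (nat_lit 317), (nat_lit 100), (nat_lit 10)]⟩,
 ⟨⟨[(nat_lit 40), (nat_lit 100), (nat_lit 140)], [(nat_lit 0), (nat_lit 0), (nat_lit 3243)], [((nat_lit 0), (nat_lit 0), (nat_lit 0)), ((nat_lit 0), (nat_lit 0), (nat_lit 0)), ((nat_lit 1000), (nat_lit 870), (nat_lit 941))], ((nat_lit 87), (nat_lit 100), (nat_lit 94))⟩, (nat_lit 1280296), (nat_lit 710), (nat_lit 710), (nat_lit 0), (nat_lit 1287627), [(nat_lit 1987296000), (nat_lit 6112500000), (nat_lit 9625476000)], [], [(nat_lit 35158659065), (nat_lit 37380353575), (nat_lit 38108942144), (nat_lit 40338105896), (nat_lit 36244188066), (nat_lit 37823414511), (nat_lit 39461457288), (nat_lit 42353772772)], (nat_lit 1271251), (nat_lit 1271251), (nat_lit 1271251), (nat_lit 1271251), (nat_lit 490000), (nat_lit 2990001), [(nat_lit 490000), (nat_lit 1427501), (nat_lit 1271251)], [(nat_lit 5), (nat_lit 55), (nat_lit 428), (nat_lit 200), (nat_lit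 11)]⟩,
 ⟨⟨[(nat_lit 80), (nat_lit 140), (nat_lit 180)], [(nat_lit 0), (nat_lit 792), (nat_lit 4228)], [((nat_lit 0), (nat_lit 0), (nat_lit 0)), ((nat_lit 1000), (nat_lit 959), (nat_lit 206)), ((nat_lit 709), (nat_lit 1000), (nat_lit 949))], ((nat_lit 100), (nat_lit 77), (nat_lit 91))⟩, (nat_lit 3969730), (nat_lit 300), (nat_lit 1140), (nat_lit 35277200), (nat_lit 1869731), [(nat_lit 2822176000), (nat_lit 5924884000), (nat_lit 8462916000)], [], [(nat_lit 34034303319), (nat_lit 33284067810), (nat_lit 32128300876), (nat_lit 31086433336), (nat_lit 32312582412), (nat_lit 29382698135), (nat_lit 28136741514), (nat_lit 27047786976)], (nat_lit 1271251), (nat_lit 1271251), (nat_lit 1271251), (nat_lit 1271251), (nat_lit 490000), (nat_lit 2990001), [(nat_lit 1100000), (nat_lit 2127501), (nat_lit 1271251)], [(nat_lit 19), (nat_lit 63), (nat_lit 538), (nat_lit 300), (nat_lit 12)]⟩⟩) (.leaf ⟨(nat_lit 0), (nat_lit 0), (nat_lit 0), (nat_lit 1000), (nat_lit 0), (nat_lit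 8391), (nat_lit 9372), (nat_lit 12055), (nat_lit 21658), (nat_lit 5708), (nat_lit 0), [], Pd.none, Pd.none, (nat_lit 0), (nat_lit 1), (nat_lit 0), (nat_lit 0), (nat_lit 0), (nat_lit 0), [⟨(nat_lit 0), (nat_lit 73), (nat_lit 38), (nat_lit 100), (nat_lit 551521465)⟩], [⟨(nat_lit 0), (nat_lit 96), (nat_lit 44), (nat_lit 100), (nat_lit 743021595)⟩], [⟨(nat_lit 0), (nat_lit 76), (nat_lit 60), (nat_lit 100), (nat_lit 419467302)⟩], [],
 ⟨⟨[(nat_lit 40), (nat_lit 100), (nat_lit 160)], [(nat_lit 0), (nat_lit 3610), (nat_lit 7085)], [((nat_lit 0), (nat_lit 0), (nat_lit 0)), ((nat_lit 1000), (nat_lit 436), (nat_lit 895)), ((nat_lit 1000), (nat_lit 436), (nat_lit 905))], ((nat_lit 44), (nat_lit 91), (nat_lit 100))⟩, (nat_lit 528440), (nat_lit 300), (nat_lit 368), (nat_lit 50800017), (nat_lit 533373), [(nat_lit 2032000007), (nat_lit 6881789501), (nat_lit 11872000000)], [], [(nat_lit 36237915313), (nat_lit 37081071962), (nat_lit 39586169938), (nat_lit 40462924298),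 (nat_lit 39057675817), (nat_lit 40232545202), (nat_lit 44177351641), (nat_lit 44952332340)], (nat_lit 1271251), (nat_lit 1271251), (nat_lit 1271251), (nat_lit 1271251), (nat_lit 1184688), (nat_lit 3175626), [(nat_lit 490000), (nat_lit 1427501), (nat_lit 1271251)], [(nat_lit 6), (nat_lit 56), (nat_lit 428), (nat_lit 200), (nat_lit 10)]⟩,
 ⟨⟨[(nat_lit 40), (nat_lit 120), (nat_lit 180)], [(nat_lit 0), (nat_lit 0), (nat_lit 6400)], [((nat_lit 0), (nat_lit 0), (nat_lit 0)), ((nat_lit 0), (nat_lit 0), (nat_lit 0)), ((nat_lit 600), (nat_lit 800), (nat_lit 1000))], ((nat_lit 80), (nat_lit 62), (nat_lit 100))⟩, (nat_lit 860029), (nat_lit 420), (nat_lit 420), (nat_lit 0), (nat_lit 427587), [(nat_lit 2032000000), (nat_lit 7968000000), (nat_lit 14058000000)], [], [(nat_lit 34702427192), (nat_lit 39934874936), (nat_lit 42103573728), (nat_lit 45778820720), (nat_lit 38302612772), (nat_lit 41690572638), (nat_lit 43258951648), (nat_lit 46492247280)], (nat_lit 1271251),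 (nat_lit 1271251), (nat_lit 1271251), (nat_lit 1271251), (nat_lit 490000), (nat_lit 2990001), [(nat_lit 490000), (nat_lit 1740001), (nat_lit 1271251)], [(nat_lit 7), (nat_lit 60), (nat_lit 538), (nat_lit 300), (nat_lit 12)]⟩,
 ⟨⟨[(nat_lit 80), (nat_lit 140), (nat_lit 200)], [(nat_lit 0), (nat_lit 792), (nat_lit 5941)], [((nat_lit 0), (nat_lit 0), (nat_lit 0)), ((nat_lit 1000), (nat_lit 959), (nat_lit 206)), ((nat_lit 709), (nat_lit 1000), (nat_lit 949))], ((nat_lit 0), (nat_lit 0), (nat_lit 0))⟩, (nat_lit 486530), (nat_lit 300), (nat_lit 633), (nat_lit 67547631), (nat_lit 640780), [(nat_lit 4688000000), (nat_lit 9842000000), (nat_lit 16400000000)], [], [(nat_lit 52492210384), (nat_lit 53686758810), (nat_lit 51592635175), (nat_lit 54257496250), (nat_lit 63642677378), (nat_lit 48872548355), (nat_lit 46627044935), (nat_lit 50703859700)], (nat_lit 1271251), (nat_lit 1271251), (nat_lit 1271251), (nat_lit 1271251), (nat_lit 490000), (nat_lit 2990001),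 [(nat_lit 1100000), (nat_lit 2127501), (nat_lit 1271251)], [(nat_lit 20), (nat_lit 64), (nat_lit 538), (nat_lit 300), (nat_lit 11)]⟩⟩))) (.dle (nat_lit 0)))))
def l029 : List St := [⟨⟨(nat_lit 380), (nat_lit 400), (nat_lit 360), (nat_lit 400), (nat_lit 160), (nat_lit 200), (nat_lit 290), (nat_lit 400), (nat_lit 70), (nat_lit 290), (nat_lit 200), (nat_lit 320), (nat_lit 116), (nat_lit 228)⟩, (nat_lit 3), (nat_lit 3), (nat_lit 3), false, false, false⟩,
  ⟨⟨(nat_lit 380), (nat_lit 400), (nat_lit 320), (nat_lit 400), (nat_lit 200), (nat_lit 260), (nat_lit 230), (nat_lit 400), (nat_lit 40), (nat_lit 340), (nat_lit 0), (nat_lit 390), (nat_lit 116), (nat_lit 228)⟩, (nat_lit 3), (nat_lit 3), (nat_lit 3), false, false, false⟩,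
  ⟨⟨(nat_lit 380), (nat_lit 400), (nat_lit 320), (nat_lit 400), (nat_lit 260), (nat_lit 400), (nat_lit 230), (nat_lit 400), (nat_lit 40), (nat_lit 400), (nat_lit 0), (nat_lit 400), (nat_lit 0), (nat_lit 228)⟩, (nat_lit 3), (nat_lit 3), (nat_lit 3), false, false, false⟩]
theorem t029 (h : EC env Ei) : ∀ τ ∈ l029, Dead τ :=
  List.forall_mem_cons.mpr ⟨chkT_sound0 h (T := c15_32) (by decide +kernel),
  List.forall_mem_cons.mpr ⟨chkT_sound0 h (T := c15_33) (by decide +kernel),
  List.forall_mem_cons.mpr ⟨chkT_sound0 h (T := c15_34) (by decide +kernel),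
  List.forall_mem_nil _⟩⟩⟩
end TC
end Pool.Agent.Lib.MP_6947cd_al
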