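import Pool.Agent.Lib.MP_6947cd_al.C.LeafF
import Pool.Agent.Lib.MP_6947cd_al.TC.E
import Pool.Agent.Lib.MP_6947cd_al.TC.F

/-!
Problem MP_6947cd_al (Chollet).  CASE C, tables and certificates.  Trees of leaves (part 30 of root 16).
-/

set_option autoImplicit false
set_option linter.all false
set_option maxRecDepth 100000
set_option maxHeartbeats 4000000
namespace Pool.Agent.Lib.MP_6947cd_al
namespace TC
open C1
noncomputable def c16_0 : Tr Lf :=
 (.spl (nat_lit 6) (nat_lit 28) (.leaf ⟨(nat_lit 1000), (nat_lit 0), (nat_lit 0), (nat_lit 0), (nat_lit 0), (nat_lit 3340), (nat_lit 0), (nat_lit 0), (nat_lit 0), (nat_lit 2152), (nat_lit 583900), [((nat_lit 380), [((nat_lit 24), (nat_lit 0), (nat_lit 46)), ((nat_lit 41), (nat_lit 2), (nat_lit 954))])], ⟨(nat_lit 3), false, false, false, (nat_lit 114), (nat_lit 2236), (nat_lit 3163), [(nat_lit 1136876), (nat_lit 1152119), (nat_lit 1269425), (nat_lit 1288384), (nat_lit 1289472), (nat_lit 1294870), (nat_lit 1422068),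 (nat_lit 1431182)]⟩, ⟨(nat_lit 3), false, false, false, (nat_lit 113), (nat_lit 2236), (nat_lit 3163), [(nat_lit 1136876), (nat_lit 1152119), (nat_lit 1203150), (nat_lit 1220251), (nat_lit 1350426), (nat_lit 1351886), (nat_lit 1416851), (nat_lit 1420169)]⟩, (nat_lit 2978053), (nat_lit 56005157), (nat_lit 5558164), (nat_lit 5436679), (nat_lit 0), (nat_lit 0), [⟨(nat_lit 0), (nat_lit 100), (nat_lit 53), (nat_lit 80), (nat_lit 277424376)⟩], [⟨(nat_lit 0), (nat_lit 100), (nat_lit 54), (nat_lit 71), (nat_lit 8232241)⟩], [], [],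
 ⟨⟨[(nat_lit 40), (nat_lit 60), (nat_lit 80)], [(nat_lit 0), (nat_lit 832), (nat_lit 1534)], [((nat_lit 0), (nat_lit 0), (nat_lit 0)), ((nat_lit 1000), (nat_lit 659), (nat_lit 528)), ((nat_lit 1000), (nat_lit 650), (nat_lit 549))], ((nat_lit 65), (nat_lit 100), (nat_lit 55))⟩, (nat_lit 8584), (nat_lit 294), (nat_lit 294), (nat_lit 0), (nat_lit 396417), [(nat_lit 1305075201), (nat_lit 584556877), (nat_lit 28086400)], [(nat_lit 0), (nat_lit 0), (nat_lit 0)], [(nat_lit 22651974188), (nat_lit 24851367282), (nat_lit 20433134621), (nat_lit 22455253875), (nat_lit 21026408896), (nat_lit 22579801440), (nat_lit 21183077626), (nat_lit 22368683776)], (nat_lit 1271251), (nat_lit 1271251), (nat_lit 111251), (nat_lit 780000), (nat_lit 111251), (nat_lit 1100000), [(nat_lit 490000), (nat_lit 780000), (nat_lit 1100000)], [(nat_lit 2), (nat_lit 44), (nat_lit 289), (nat_lit 75), (nat_lit 13)]⟩,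
 Rw.none,
 Rw.none⟩) (.spl (nat_lit 0) (nat_lit 370) (.leaf ⟨(nat_lit 1000), (nat_lit 0), (nat_lit 0), (nat_lit 0), (nat_lit 3188), (nat_lit 3098), (nat_lit 0), (nat_lit 0), (nat_lit 0), (nat_lit 130802), (nat_lit 574800), [((nat_lit 370), [((nat_lit 25), (nat_lit 1), (nat_lit 126)), ((nat_lit 41), (nat_lit 2), (nat_lit 874))])], ⟨(nat_lit 3), false, false, false, (nat_lit 113), (nat_lit 2738), (nat_lit 3163), [(nat_lit 1137055), (nat_lit 1144520), (nat_lit 1269913), (nat_lit 1278952), (nat_lit 1289472), (nat_lit 1292206), (nat_lit 1422342), (nat_lit 1426651)]⟩, ⟨(nat_lit 3), false, false, false, (nat_lit 112), (nat_lit 2738), (nat_lit 3163), [(nat_lit 1137055), (nat_lit 1144520), (nat_lit 1203484), (nat_lit 1211736), (nat_lit 1350426), (nat_lit 1351268), (nat_lit 1416885), (nat_lit 1418514)]⟩, (nat_lit 2947539), (nat_lit 56166870), (nat_lit 5466877), (nat_lit 5366253), (nat_lit 0), (nat_lit 0), [⟨(nat_lit 0), (nat_lit 100), (nat_lit 54), (nat_lit 96),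 (nat_lit 235475631)⟩], [⟨(nat_lit 0), (nat_lit 100), (nat_lit 58), (nat_lit 68), (nat_lit 22185018)⟩], [], [],
 ⟨⟨[(nat_lit 40), (nat_lit 80), (nat_lit 100)], [(nat_lit 0), (nat_lit 1598), (nat_lit 2533)], [((nat_lit 0), (nat_lit 0), (nat_lit 0)), ((nat_lit 1000), (nat_lit 625), (nat_lit 623)), ((nat_lit 1000), (nat_lit 604), (nat_lit 730))], ((nat_lit 61), (nat_lit 100), (nat_lit 68))⟩, (nat_lit 0), (nat_lit 267), (nat_lit 267), (nat_lit 0), (nat_lit 187406), [(nat_lit 1305492810), (nat_lit 163145847), (nat_lit 0)], [(nat_lit 0), (nat_lit 0), (nat_lit 509070400)], [(nat_lit 21910617019), (nat_lit 22965917343), (nat_lit 19978917160), (nat_lit 20950919249), (nat_lit 20483934835), (nat_lit 21182794459), (nat_lit 20445301506), (nat_lit 21003567335)], (nat_lit 1271251), (nat_lit 1271251), (nat_lit 111251), (nat_lit 780000), (nat_lit 111251), (nat_lit 1100000), [(nat_lit 490000), (nat_lit 1100000), (nat_lit 1442501)], [(nat_lit 3), (nat_lit 50), (nat_lit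 289), (nat_lit 75), (nat_lit 11)]⟩,
 Rw.none,
 Rw.none⟩) (.trZ (nat_lit 0) (nat_lit 1) (nat_lit 3) (nat_lit 100) (nat_lit 57) (nat_lit 62) (nat_lit 30) (.trZ (nat_lit 0) (nat_lit 2) (nat_lit 4) (nat_lit 100) (nat_lit 57) (nat_lit 62) (nat_lit 30) (.leaf ⟨(nat_lit 1000), (nat_lit 0), (nat_lit 0), (nat_lit 0), (nat_lit 0), (nat_lit 3292), (nat_lit 0), (nat_lit 0), (nat_lit 0), (nat_lit 41754), (nat_lit 380200), [((nat_lit 380), [((nat_lit 25), (nat_lit 0), (nat_lit 132)), ((nat_lit 25), (nat_lit 1), (nat_lit 868))])], ⟨(nat_lit 3), false, false, false, (nat_lit 118), (nat_lit 2236), (nat_lit 2739), [(nat_lit 1159252), (nat_lit 1166519), (nat_lit 1293635), (nat_lit 1303043), (nat_lit 1292206), (nat_lit 1294870), (nat_lit 1426601), (nat_lit 1431406)]⟩, ⟨(nat_lit 3), false, false, false, (nat_lit 116), (nat_lit 2236), (nat_lit 2739), [(nat_lit 1159252), (nat_lit 1166519), (nat_lit 1226443), (nat_lit 1234781), (nat_lit 1351268), (nat_lit 1351886), (nat_lit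 1418506), (nat_lit 1420195)]⟩, (nat_lit 3095528), (nat_lit 55371819), (nat_lit 5887668), (nat_lit 5740513), (nat_lit 0), (nat_lit 0), [⟨(nat_lit 0), (nat_lit 100), (nat_lit 49), (nat_lit 83), (nat_lit 424459321)⟩], [⟨(nat_lit 0), (nat_lit 100), (nat_lit 50), (nat_lit 75), (nat_lit 2407412)⟩], [], [],
 ⟨⟨[(nat_lit 40), (nat_lit 60), (nat_lit 80)], [(nat_lit 0), (nat_lit 1134), (nat_lit 1930)], [((nat_lit 0), (nat_lit 0), (nat_lit 0)), ((nat_lit 1000), (nat_lit 575), (nat_lit 619)), ((nat_lit 1000), (nat_lit 574), (nat_lit 622))], ((nat_lit 55), (nat_lit 100), (nat_lit 70))⟩, (nat_lit 0), (nat_lit 240), (nat_lit 240), (nat_lit 0), (nat_lit 241509), [(nat_lit 1401619203), (nat_lit 1048122887), (nat_lit 1054184000)], [(nat_lit 0), (nat_lit 0), (nat_lit 0)], [(nat_lit 22796157553), (nat_lit 23875377514), (nat_lit 21037252450), (nat_lit 22035131333), (nat_lit 21532876116), (nat_lit 22221680078), (nat_lit 21631954844), (nat_lit 22262550485)], (nat_lit 1271251),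 (nat_lit 1271251), (nat_lit 169688), (nat_lit 780000), (nat_lit 169688), (nat_lit 1100000), [(nat_lit 490000), (nat_lit 780000), (nat_lit 1100000)], [(nat_lit 2), (nat_lit 44), (nat_lit 289), (nat_lit 75), (nat_lit 13)]⟩,
 Rw.none,
 Rw.none⟩)))))
noncomputable def c16_1 : Tr Lf :=
 (.spl (nat_lit 2) (nat_lit 160) (.trX (nat_lit 4) (nat_lit 0) (nat_lit 2) (nat_lit 61) (nat_lit 92) (nat_lit 100) (nat_lit 290) (.leaf ⟨(nat_lit 1000), (nat_lit 0), (nat_lit 0), (nat_lit 0), (nat_lit 209), (nat_lit 3345), (nat_lit 0), (nat_lit 0), (nat_lit 0), (nat_lit 189540), (nat_lit 507800), [((nat_lit 380), [((nat_lit 25), (nat_lit 1), (nat_lit 461)), ((nat_lit 41), (nat_lit 2), (nat_lit 539))])], ⟨(nat_lit 3), false, false, false, (nat_lit 101), (nat_lit 2236), (nat_lit 3163), [(nat_lit 1136876), (nat_lit 1152119), (nat_lit 1203150), (nat_lit 1220251), (nat_lit 1289472), (nat_lit 1294870), (nat_lit 1355794), (nat_lit 1363050)]⟩, ⟨(nat_lit 4), false, false, true, (nat_lit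 188), (nat_lit 2236), (nat_lit 3163), [(nat_lit 1350426), (nat_lit 1351886), (nat_lit 1394735), (nat_lit 1397434), (nat_lit 1548524), (nat_lit 1537186), (nat_lit 1592834), (nat_lit 1582735)]⟩, (nat_lit 3747997), (nat_lit 50405042), (nat_lit 4577179), (nat_lit 12017779), (nat_lit 0), (nat_lit 0), [⟨(nat_lit 0), (nat_lit 100), (nat_lit 54), (nat_lit 71), (nat_lit 170555796)⟩], [⟨(nat_lit 1), (nat_lit 92), (nat_lit 61), (nat_lit 100), (nat_lit 189211696)⟩], [], [],
 ⟨⟨[(nat_lit 40), (nat_lit 80), (nat_lit 100)], [(nat_lit 0), (nat_lit 1598), (nat_lit 2533)], [((nat_lit 0), (nat_lit 0), (nat_lit 0)), ((nat_lit 1000), (nat_lit 625), (nat_lit 623)), ((nat_lit 1000), (nat_lit 604), (nat_lit 730))], ((nat_lit 61), (nat_lit 100), (nat_lit 68))⟩, (nat_lit 0), (nat_lit 274), (nat_lit 274), (nat_lit 0), (nat_lit 401163), [(nat_lit 1334968010), (nat_lit 453365068), (nat_lit 36845600)], [(nat_lit 0), (nat_lit 0), (nat_lit 0)], [(nat_lit 21186138975), (nat_lit 22589613145),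 (nat_lit 21112960060), (nat_lit 22195349145), (nat_lit 25772484431), (nat_lit 27245810809), (nat_lit 24541140092), (nat_lit 25555413702)], (nat_lit 1271251), (nat_lit 1271251), (nat_lit 111251), (nat_lit 780000), (nat_lit 1100000), (nat_lit 2213126), [(nat_lit 490000), (nat_lit 1100000), (nat_lit 1442501)], [(nat_lit 3), (nat_lit 50), (nat_lit 345), (nat_lit 125), (nat_lit 13)]⟩,
 Rw.none,
 Rw.none⟩)) (.ord (.trZ (nat_lit 0) (nat_lit 1) (nat_lit 3) (nat_lit 100) (nat_lit 61) (nat_lit 68) (nat_lit 50) (.spl (nat_lit 0) (nat_lit 370) (.leaf ⟨(nat_lit 1000), (nat_lit 0), (nat_lit 0), (nat_lit 0), (nat_lit 546), (nat_lit 3073), (nat_lit 0), (nat_lit 0), (nat_lit 0), (nat_lit 2829357595080), (nat_lit 507400), [((nat_lit 370), [((nat_lit 25), (nat_lit 1), (nat_lit 463)), ((nat_lit 41), (nat_lit 2), (nat_lit 537))])], ⟨(nat_lit 4), false, false, false, (nat_lit 118), (nat_lit 2738), (nat_lit 3163), [(nat_lit 1227070), (nat_lit 1233641), (nat_lit 1249213),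 (nat_lit 1256046), (nat_lit 1333771), (nat_lit 1337030), (nat_lit 1355914), (nat_lit 1359435)]⟩, ⟨(nat_lit 4), false, false, true, (nat_lit 208), (nat_lit 2738), (nat_lit 3163), [(nat_lit 1394735), (nat_lit 1396102), (nat_lit 1416885), (nat_lit 1418514), (nat_lit 1623310), (nat_lit 1617582), (nat_lit 1645465), (nat_lit 1640000)]⟩, (nat_lit 4153087), (nat_lit 47491241), (nat_lit 5686381), (nat_lit 13822378), (nat_lit 0), (nat_lit 0), [⟨(nat_lit 0), (nat_lit 100), (nat_lit 57), (nat_lit 74), (nat_lit 90038958)⟩], [⟨(nat_lit 1), (nat_lit 86), (nat_lit 60), (nat_lit 100), (nat_lit 182394099)⟩], [], [],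
 ⟨⟨[(nat_lit 40), (nat_lit 80), (nat_lit 100)], [(nat_lit 0), (nat_lit 1598), (nat_lit 2533)], [((nat_lit 0), (nat_lit 0), (nat_lit 0)), ((nat_lit 1000), (nat_lit 625), (nat_lit 623)), ((nat_lit 1000), (nat_lit 604), (nat_lit 730))], ((nat_lit 61), (nat_lit 100), (nat_lit 68))⟩, (nat_lit 0), (nat_lit 219), (nat_lit 219), (nat_lit 0), (nat_lit 287428), [(nat_lit 1335144041), (nat_lit 435871715), (nat_lit 40104800)], [(nat_lit 0), (nat_lit 0), (nat_lit 0)], [(nat_lit 20953779705), (nat_lit 21524266707), (nat_lit 21146921349), (nat_lit 21703209416), (nat_lit 25416598096), (nat_lit 26077055611), (nat_lit 25365513604), (nat_lit 25864504973)], (nat_lit 1271251), (nat_lit 1271251), (nat_lit 292188), (nat_lit 780000), (nat_lit 1100000), (nat_lit 2384376), [(nat_lit 490000), (nat_lit 1100000), (nat_lit 1442501)], [(nat_lit 3), (nat_lit 50), (nat_lit 345), (nat_lit 125), (nat_lit 12)]⟩,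
 Rw.none,
 Rw.none⟩) (.trZ (nat_lit 0) (nat_lit 1) (nat_lit 3) (nat_lit 100) (nat_lit 54) (nat_lit 74) (nat_lit 60) (.trX (nat_lit 4) (nat_lit 0) (nat_lit 2) (nat_lit 53) (nat_lit 90) (nat_lit 100) (nat_lit 290) (.leaf ⟨(nat_lit 1000), (nat_lit 0), (nat_lit 0), (nat_lit 0), (nat_lit 0), (nat_lit 3125), (nat_lit 0), (nat_lit 0), (nat_lit 0), (nat_lit 3267590899744), (nat_lit 459400), [((nat_lit 380), [((nat_lit 25), (nat_lit 1), (nat_lit 703)), ((nat_lit 41), (nat_lit 2), (nat_lit 297))])], ⟨(nat_lit 4), false, false, false, (nat_lit 123), (nat_lit 2236), (nat_lit 2739), [(nat_lit 1248369), (nat_lit 1254815), (nat_lit 1270766), (nat_lit 1277569), (nat_lit 1337013), (nat_lit 1340391), (nat_lit 1359410), (nat_lit 1363145)]⟩, ⟨(nat_lit 4), false, false, true, (nat_lit 201), (nat_lit 2236), (nat_lit 2739), [(nat_lit 1396102), (nat_lit 1397434), (nat_lit 1418506), (nat_lit 1420195), (nat_lit 1588052), (nat_lit 1582735), (nat_lit 1610469), (nat_lit 1605509)]⟩,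 (nat_lit 4155247), (nat_lit 47776225), (nat_lit 6074044), (nat_lit 13149731), (nat_lit 0), (nat_lit 0), [⟨(nat_lit 0), (nat_lit 100), (nat_lit 49), (nat_lit 80), (nat_lit 69242862)⟩], [⟨(nat_lit 1), (nat_lit 90), (nat_lit 53), (nat_lit 100), (nat_lit 221391974)⟩], [], [],
 ⟨⟨[(nat_lit 40), (nat_lit 60), (nat_lit 80)], [(nat_lit 0), (nat_lit 1134), (nat_lit 1930)], [((nat_lit 0), (nat_lit 0), (nat_lit 0)), ((nat_lit 1000), (nat_lit 575), (nat_lit 619)), ((nat_lit 1000), (nat_lit 574), (nat_lit 622))], ((nat_lit 55), (nat_lit 100), (nat_lit 70))⟩, (nat_lit 0), (nat_lit 193), (nat_lit 193), (nat_lit 0), (nat_lit 331430), [(nat_lit 1356264024), (nat_lit 880142875), (nat_lit 654699200)], [(nat_lit 0), (nat_lit 0), (nat_lit 0)], [(nat_lit 21060603991), (nat_lit 21695939210), (nat_lit 21360988272), (nat_lit 21956200272), (nat_lit 24994763333), (nat_lit 25664466825), (nat_lit 25107207686), (nat_lit 25631542073)], (nat_lit 1271251), (nat_lit 1271251), (nat_lit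 356250), (nat_lit 780000), (nat_lit 1100000), (nat_lit 2213126), [(nat_lit 490000), (nat_lit 780000), (nat_lit 1100000)], [(nat_lit 2), (nat_lit 44), (nat_lit 238), (nat_lit 30), (nat_lit 10)]⟩,
 Rw.none,
 Rw.none⟩)))))))
noncomputable def c16_2 : Tr Lf :=
 (.trZ (nat_lit 0) (nat_lit 1) (nat_lit 3) (nat_lit 100) (nat_lit 60) (nat_lit 74) (nat_lit 60) (.spl (nat_lit 4) (nat_lit 240) (.leaf ⟨(nat_lit 1000), (nat_lit 0), (nat_lit 0), (nat_lit 0), (nat_lit 0), (nat_lit 3499), (nat_lit 0), (nat_lit 0), (nat_lit 0), (nat_lit 0), (nat_lit 513000), [((nat_lit 380), [((nat_lit 25), (nat_lit 1), (nat_lit 435)), ((nat_lit 41), (nat_lit 2), (nat_lit 565))])], ⟨(nat_lit 4), false, false, false, (nat_lit 139), (nat_lit 2236), (nat_lit 3163), [(nat_lit 1264208), (nat_lit 1277371), (nat_lit 1330482), (nat_lit 1345503), (nat_lit 1355794), (nat_lit 1363050), (nat_lit 1422068), (nat_lit 1431182)]⟩, ⟨(nat_lit 4), false, false, true, (nat_lit 178), (nat_lit 2236), (nat_lit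 3163), [(nat_lit 1350426), (nat_lit 1351886), (nat_lit 1416851), (nat_lit 1420169), (nat_lit 1472332), (nat_lit 1465917), (nat_lit 1538797), (nat_lit 1534240)]⟩, (nat_lit 4133099), (nat_lit 48657255), (nat_lit 7464685), (nat_lit 10878060), (nat_lit 0), (nat_lit 0), [⟨(nat_lit 0), (nat_lit 100), (nat_lit 53), (nat_lit 88), (nat_lit 288728175)⟩], [], [], [],
 ⟨⟨[(nat_lit 40), (nat_lit 80), (nat_lit 100)], [(nat_lit 0), (nat_lit 1598), (nat_lit 2533)], [((nat_lit 0), (nat_lit 0), (nat_lit 0)), ((nat_lit 1000), (nat_lit 625), (nat_lit 623)), ((nat_lit 1000), (nat_lit 604), (nat_lit 730))], ((nat_lit 61), (nat_lit 100), (nat_lit 68))⟩, (nat_lit 0), (nat_lit 235), (nat_lit 235), (nat_lit 0), (nat_lit 368486), [(nat_lit 1332680183), (nat_lit 567956141), (nat_lit 0)], [(nat_lit 0), (nat_lit 0), (nat_lit 5524000)], [(nat_lit 19889429721), (nat_lit 21601077927), (nat_lit 20027739437), (nat_lit 21202352498), (nat_lit 22317326171), (nat_lit 23968327829), (nat_lit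 21951784317), (nat_lit 23502750294)], (nat_lit 1271251), (nat_lit 1271251), (nat_lit 356250), (nat_lit 780000), (nat_lit 1100000), (nat_lit 1785001), [(nat_lit 490000), (nat_lit 1100000), (nat_lit 1442501)], [(nat_lit 3), (nat_lit 50), (nat_lit 317), (nat_lit 100), (nat_lit 11)]⟩,
 Rw.none,
 Rw.none⟩) (.trX (nat_lit 5) (nat_lit 4) (nat_lit 3) (nat_lit 100) (nat_lit 59) (nat_lit 94) (nat_lit 370) (.spl (nat_lit 2) (nat_lit 160) (.trX (nat_lit 4) (nat_lit 0) (nat_lit 2) (nat_lit 61) (nat_lit 92) (nat_lit 100) (nat_lit 290) (.spl (nat_lit 1) (nat_lit 220) (.leaf ⟨(nat_lit 1000), (nat_lit 0), (nat_lit 0), (nat_lit 0), (nat_lit 1), (nat_lit 3342), (nat_lit 0), (nat_lit 0), (nat_lit 0), (nat_lit 0), (nat_lit 496400), [((nat_lit 380), [((nat_lit 25), (nat_lit 1), (nat_lit 518)), ((nat_lit 41), (nat_lit 2), (nat_lit 482))])], ⟨(nat_lit 4), false, false, false, (nat_lit 135), (nat_lit 2236), (nat_lit 3163), [(nat_lit 1264208), (nat_lit 1277371), (nat_lit 1308390),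 (nat_lit 1322792), (nat_lit 1355794), (nat_lit 1363050), (nat_lit 1399976), (nat_lit 1408471)]⟩, ⟨(nat_lit 6), false, false, true, (nat_lit 211), (nat_lit 2236), (nat_lit 3163), [(nat_lit 1472332), (nat_lit 1465917), (nat_lit 1516642), (nat_lit 1511466), (nat_lit 1548524), (nat_lit 1537186), (nat_lit 1592834), (nat_lit 1582735)]⟩, (nat_lit 4388236), (nat_lit 46035136), (nat_lit 6938023), (nat_lit 14026841), (nat_lit 0), (nat_lit 0), [⟨(nat_lit 0), (nat_lit 100), (nat_lit 53), (nat_lit 85), (nat_lit 168390997)⟩], [⟨(nat_lit 1), (nat_lit 92), (nat_lit 61), (nat_lit 100), (nat_lit 262350498)⟩], [], [],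
 ⟨⟨[(nat_lit 40), (nat_lit 80), (nat_lit 100)], [(nat_lit 0), (nat_lit 1598), (nat_lit 2533)], [((nat_lit 0), (nat_lit 0), (nat_lit 0)), ((nat_lit 1000), (nat_lit 625), (nat_lit 623)), ((nat_lit 1000), (nat_lit 604), (nat_lit 730))], ((nat_lit 61), (nat_lit 100), (nat_lit 68))⟩, (nat_lit 0), (nat_lit 233), (nat_lit 233), (nat_lit 0), (nat_lit 351374), [(nat_lit 1339984012), (nat_lit 558533909), (nat_lit 129732800)], [(nat_lit 0), (nat_lit 0), (nat_lit 0)], [(nat_lit 22392174645), (nat_lit 23738747318), (nat_lit 22504265288), (nat_lit 23521795198), (nat_lit 24590788773), (nat_lit 26029681588), (nat_lit 24171952991), (nat_lit 25528110061)], (nat_lit 1271251), (nat_lit 1271251), (nat_lit 356250), (nat_lit 780000), (nat_lit 1271251), (nat_lit 1271251), [(nat_lit 490000), (nat_lit 1100000), (nat_lit 1442501)], [(nat_lit 3), (nat_lit 50), (nat_lit 238), (nat_lit 30), (nat_lit 8)]⟩,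
 Rw.none,
 Rw.none⟩) (.trZ (nat_lit 0) (nat_lit 1) (nat_lit 3) (nat_lit 100) (nat_lit 60) (nat_lit 86) (nat_lit 90) (.leaf ⟨(nat_lit 1000), (nat_lit 0), (nat_lit 0), (nat_lit 0), (nat_lit 0), (nat_lit 3300), (nat_lit 0), (nat_lit 0), (nat_lit 0), (nat_lit 0), (nat_lit 511400), [((nat_lit 380), [((nat_lit 25), (nat_lit 1), (nat_lit 443)), ((nat_lit 41), (nat_lit 2), (nat_lit 557))])], ⟨(nat_lit 5), false, false, false, (nat_lit 157), (nat_lit 2236), (nat_lit 3163), [(nat_lit 1354183), (nat_lit 1365632), (nat_lit 1376275), (nat_lit 1388342), (nat_lit 1399976), (nat_lit 1408471), (nat_lit 1422068), (nat_lit 1431182)]⟩, ⟨(nat_lit 6), false, false, true, (nat_lit 211), (nat_lit 2236), (nat_lit 3163), [(nat_lit 1472332), (nat_lit 1465917), (nat_lit 1516642), (nat_lit 1511466), (nat_lit 1548524), (nat_lit 1537186), (nat_lit 1592834), (nat_lit 1582735)]⟩, (nat_lit 4623917), (nat_lit 44552657), (nat_lit 8653483), (nat_lit 13793860), (nat_lit 0), (nat_lit 0),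 [⟨(nat_lit 0), (nat_lit 100), (nat_lit 60), (nat_lit 86), (nat_lit 70370065)⟩], [⟨(nat_lit 1), (nat_lit 92), (nat_lit 61), (nat_lit 100), (nat_lit 264633594)⟩], [], [],
 ⟨⟨[(nat_lit 40), (nat_lit 80), (nat_lit 100)], [(nat_lit 0), (nat_lit 1598), (nat_lit 2533)], [((nat_lit 0), (nat_lit 0), (nat_lit 0)), ((nat_lit 1000), (nat_lit 625), (nat_lit 623)), ((nat_lit 1000), (nat_lit 604), (nat_lit 730))], ((nat_lit 61), (nat_lit 100), (nat_lit 68))⟩, (nat_lit 0), (nat_lit 220), (nat_lit 220), (nat_lit 0), (nat_lit 366667), [(nat_lit 1333384002), (nat_lit 465714351), (nat_lit 7512800)], [(nat_lit 0), (nat_lit 0), (nat_lit 0)], [(nat_lit 22210033706), (nat_lit 23258181556), (nat_lit 22468055606), (nat_lit 23480152606), (nat_lit 23996226938), (nat_lit 25393324297), (nat_lit 24130495356), (nat_lit 25477492700)], (nat_lit 1271251), (nat_lit 1271251), (nat_lit 559688), (nat_lit 780000), (nat_lit 1271251), (nat_lit 1271251), [(nat_lit 490000), (nat_lit 1100000),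 (nat_lit 1442501)], [(nat_lit 3), (nat_lit 50), (nat_lit 238), (nat_lit 30), (nat_lit 8)]⟩,
 Rw.none,
 Rw.none⟩)))) (.spl (nat_lit 6) (nat_lit 28) (.leaf ⟨(nat_lit 966), (nat_lit 0), (nat_lit 0), (nat_lit 34), (nat_lit 0), (nat_lit 3202), (nat_lit 550), (nat_lit 462), (nat_lit 0), (nat_lit 0), (nat_lit 544600), [((nat_lit 380), [((nat_lit 24), (nat_lit 1), (nat_lit 175)), ((nat_lit 41), (nat_lit 2), (nat_lit 791))])], ⟨(nat_lit 4), false, false, false, (nat_lit 139), (nat_lit 2236), (nat_lit 3163), [(nat_lit 1264208), (nat_lit 1277371), (nat_lit 1330482), (nat_lit 1345503), (nat_lit 1355794), (nat_lit 1363050), (nat_lit 1422068), (nat_lit 1431182)]⟩, ⟨(nat_lit 6), false, false, true, (nat_lit 231), (nat_lit 2236), (nat_lit 3163), [(nat_lit 1516642), (nat_lit 1511466), (nat_lit 1538797), (nat_lit 1534240), (nat_lit 1623310), (nat_lit 1611243), (nat_lit 1645465), (nat_lit 1634017)]⟩, (nat_lit 4576965), (nat_lit 44065380), (nat_lit 7138805), (nat_lit 15795815),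 (nat_lit 0), (nat_lit 0), [⟨(nat_lit 0), (nat_lit 100), (nat_lit 53), (nat_lit 88), (nat_lit 263131594)⟩], [⟨(nat_lit 1), (nat_lit 86), (nat_lit 60), (nat_lit 100), (nat_lit 255052455)⟩], [], [],
 ⟨⟨[(nat_lit 40), (nat_lit 60), (nat_lit 80)], [(nat_lit 0), (nat_lit 832), (nat_lit 1534)], [((nat_lit 0), (nat_lit 0), (nat_lit 0)), ((nat_lit 1000), (nat_lit 659), (nat_lit 528)), ((nat_lit 1000), (nat_lit 650), (nat_lit 549))], ((nat_lit 65), (nat_lit 100), (nat_lit 55))⟩, (nat_lit 0), (nat_lit 197), (nat_lit 197), (nat_lit 0), (nat_lit 334474), [(nat_lit 1325802407), (nat_lit 705459880), (nat_lit 284647200)], [(nat_lit 0), (nat_lit 0), (nat_lit 0)], [(nat_lit 22143283078), (nat_lit 23534025843), (nat_lit 22381417978), (nat_lit 23548771733), (nat_lit 25355629342), (nat_lit 26698072487), (nat_lit 25070336744), (nat_lit 26221131451)], (nat_lit 1271251), (nat_lit 1271251), (nat_lit 356250), (nat_lit 780000), (nat_lit 1271251), (nat_lit 1271251), [(nat_lit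 490000), (nat_lit 780000), (nat_lit 1100000)], [(nat_lit 2), (nat_lit 44), (nat_lit 238), (nat_lit 30), (nat_lit 9)]⟩,
 ⟨⟨[(nat_lit 120), (nat_lit 140), (nat_lit 160)], [(nat_lit 0), (nat_lit 266), (nat_lit 862)], [((nat_lit 0), (nat_lit 0), (nat_lit 0)), ((nat_lit 960), (nat_lit 1000), (nat_lit 200)), ((nat_lit 874), (nat_lit 1000), (nat_lit 406))], ((nat_lit 100), (nat_lit 81), (nat_lit 51))⟩, (nat_lit 560797), (nat_lit 847), (nat_lit 847), (nat_lit 0), (nat_lit 1025062), [(nat_lit 270912000), (nat_lit 334628000), (nat_lit 403648000)], [], [(nat_lit 2066736048), (nat_lit 1194117460), (nat_lit 1198365385), (nat_lit 703813222), (nat_lit 2023767673), (nat_lit 1364199383), (nat_lit 2252099265), (nat_lit 1502241606)], (nat_lit 1271251), (nat_lit 1271251), (nat_lit 356250), (nat_lit 780000), (nat_lit 0), (nat_lit 2613125), [(nat_lit 1695001), (nat_lit 1271251), (nat_lit 1271251)], [(nat_lit 27), (nat_lit 62), (nat_lit 428), (nat_lit 200), (nat_lit 11)]⟩,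
 ⟨⟨[(nat_lit 120), (nat_lit 160), (nat_lit 180)], [(nat_lit 0), (nat_lit 0), (nat_lit 1613)], [((nat_lit 0), (nat_lit 0), (nat_lit 0)), ((nat_lit 0), (nat_lit 0), (nat_lit 0)), ((nat_lit 620), (nat_lit 1000), (nat_lit 670))], ((nat_lit 100), (nat_lit 76), (nat_lit 52))⟩, (nat_lit 14797), (nat_lit 300), (nat_lit 1825), (nat_lit 2522803), (nat_lit 3164542), [(nat_lit 270912000), (nat_lit 403648000), (nat_lit 477972000)], [], [(nat_lit 1820778668), (nat_lit 1803382032), (nat_lit 1829283570), (nat_lit 1812832191), (nat_lit 1733832329), (nat_lit 1871566680), (nat_lit 1400903955), (nat_lit 1388943104)], (nat_lit 1100000), (nat_lit 1271251), (nat_lit 1271251), (nat_lit 1271251), (nat_lit 0), (nat_lit 2613125), [(nat_lit 1695001), (nat_lit 1271251), (nat_lit 1271251)], [(nat_lit 28), (nat_lit 65), (nat_lit 564), (nat_lit 225), (nat_lit 13)]⟩⟩) (.spl (nat_lit 1) (nat_lit 220) (.leaf ⟨(nat_lit 1000), (nat_lit 0), (nat_lit 0), (nat_lit 0), (nat_lit 3285), (nat_lit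 3060), (nat_lit 0), (nat_lit 0), (nat_lit 0), (nat_lit 0), (nat_lit 506800), [((nat_lit 380), [((nat_lit 25), (nat_lit 1), (nat_lit 466)), ((nat_lit 41), (nat_lit 2), (nat_lit 534))])], ⟨(nat_lit 4), false, false, false, (nat_lit 135), (nat_lit 2236), (nat_lit 3163), [(nat_lit 1264208), (nat_lit 1277371), (nat_lit 1308390), (nat_lit 1322792), (nat_lit 1355794), (nat_lit 1363050), (nat_lit 1399976), (nat_lit 1408471)]⟩, ⟨(nat_lit 6), false, false, true, (nat_lit 231), (nat_lit 2236), (nat_lit 3163), [(nat_lit 1516642), (nat_lit 1511466), (nat_lit 1538797), (nat_lit 1534240), (nat_lit 1623310), (nat_lit 1611243), (nat_lit 1645465), (nat_lit 1634017)]⟩, (nat_lit 4528971), (nat_lit 44339372), (nat_lit 6810041), (nat_lit 15850587), (nat_lit 0), (nat_lit 0), [⟨(nat_lit 0), (nat_lit 100), (nat_lit 53), (nat_lit 85), (nat_lit 134921561)⟩], [⟨(nat_lit 1), (nat_lit 86), (nat_lit 60), (nat_lit 100), (nat_lit 261832823)⟩], [], [],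
 ⟨⟨[(nat_lit 40), (nat_lit 80), (nat_lit 100)], [(nat_lit 0), (nat_lit 1598), (nat_lit 2533)], [((nat_lit 0), (nat_lit 0), (nat_lit 0)), ((nat_lit 1000), (nat_lit 625), (nat_lit 623)), ((nat_lit 1000), (nat_lit 604), (nat_lit 730))], ((nat_lit 61), (nat_lit 100), (nat_lit 68))⟩, (nat_lit 0), (nat_lit 165), (nat_lit 165), (nat_lit 0), (nat_lit 157025), [(nat_lit 1335408038), (nat_lit 517241842), (nat_lit 44993600)], [(nat_lit 0), (nat_lit 0), (nat_lit 0)], [(nat_lit 22354125416), (nat_lit 23462324666), (nat_lit 22500179516), (nat_lit 23542474536), (nat_lit 25131527312), (nat_lit 26446547066), (nat_lit 24905366146), (nat_lit 26038482140)], (nat_lit 1271251), (nat_lit 1271251), (nat_lit 356250), (nat_lit 780000), (nat_lit 1271251), (nat_lit 1271251), [(nat_lit 490000), (nat_lit 1100000), (nat_lit 1442501)], [(nat_lit 3), (nat_lit 50), (nat_lit 238), (nat_lit 30), (nat_lit 8)]⟩,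
 Rw.none,
 Rw.none⟩) (.trZ (nat_lit 0) (nat_lit 1) (nat_lit 3) (nat_lit 100) (nat_lit 60) (nat_lit 86) (nat_lit 90) (.spl (nat_lit 2) (nat_lit 170) (.trX (nat_lit 4) (nat_lit 0) (nat_lit 2) (nat_lit 61) (nat_lit 89) (nat_lit 100) (nat_lit 300) (.leaf ⟨(nat_lit 971), (nat_lit 0), (nat_lit 0), (nat_lit 29), (nat_lit 2538), (nat_lit 3153), (nat_lit 357), (nat_lit 416), (nat_lit 0), (nat_lit 0), (nat_lit 477000), [((nat_lit 380), [((nat_lit 25), (nat_lit 1), (nat_lit 528)), ((nat_lit 41), (nat_lit 2), (nat_lit 443))])], ⟨(nat_lit 5), false, false, false, (nat_lit 157), (nat_lit 2236), (nat_lit 3163), [(nat_lit 1354183), (nat_lit 1365632), (nat_lit 1376275), (nat_lit 1388342), (nat_lit 1399976), (nat_lit 1408471), (nat_lit 1422068), (nat_lit 1431182)]⟩, ⟨(nat_lit 6), false, false, true, (nat_lit 226), (nat_lit 2236), (nat_lit 3163), [(nat_lit 1516642), (nat_lit 1511466), (nat_lit 1527720), (nat_lit 1522853), (nat_lit 1608072), (nat_lit 1596989), (nat_lit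 1619150), (nat_lit 1608376)]⟩, (nat_lit 4723454), (nat_lit 43382936), (nat_lit 8529448), (nat_lit 15087616), (nat_lit 0), (nat_lit 0), [⟨(nat_lit 0), (nat_lit 100), (nat_lit 53), (nat_lit 93), (nat_lit 198223508)⟩], [⟨(nat_lit 1), (nat_lit 89), (nat_lit 61), (nat_lit 100), (nat_lit 242968221)⟩], [⟨(nat_lit 0), (nat_lit 100), (nat_lit 99), (nat_lit 5), (nat_lit 23278329)⟩], [],
 ⟨⟨[(nat_lit 40), (nat_lit 80), (nat_lit 100)], [(nat_lit 0), (nat_lit 1598), (nat_lit 2533)], [((nat_lit 0), (nat_lit 0), (nat_lit 0)), ((nat_lit 1000), (nat_lit 625), (nat_lit 623)), ((nat_lit 1000), (nat_lit 604), (nat_lit 730))], ((nat_lit 61), (nat_lit 100), (nat_lit 68))⟩, (nat_lit 0), (nat_lit 151), (nat_lit 151), (nat_lit 0), (nat_lit 172811), [(nat_lit 1355468403), (nat_lit 667036110), (nat_lit 347996400)], [(nat_lit 0), (nat_lit 0), (nat_lit 0)], [(nat_lit 22000720317), (nat_lit 23161128194), (nat_lit 22256478188), (nat_lit 23376600110), (nat_lit 24299530423), (nat_lit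 25634861882), (nat_lit 24439699740), (nat_lit 25729218257)], (nat_lit 1271251), (nat_lit 1271251), (nat_lit 559688), (nat_lit 780000), (nat_lit 1271251), (nat_lit 1271251), [(nat_lit 490000), (nat_lit 1100000), (nat_lit 1442501)], [(nat_lit 3), (nat_lit 50), (nat_lit 238), (nat_lit 30), (nat_lit 8)]⟩,
 ⟨⟨[(nat_lit 100), (nat_lit 140), (nat_lit 160)], [(nat_lit 0), (nat_lit 508), (nat_lit 1689)], [((nat_lit 0), (nat_lit 0), (nat_lit 0)), ((nat_lit 1000), (nat_lit 1000), (nat_lit 198)), ((nat_lit 811), (nat_lit 1000), (nat_lit 671))], ((nat_lit 100), (nat_lit 81), (nat_lit 68))⟩, (nat_lit 0), (nat_lit 492), (nat_lit 492), (nat_lit 0), (nat_lit 366014), [(nat_lit 181250000), (nat_lit 285418000), (nat_lit 344288000)], [], [(nat_lit 1585326472), (nat_lit 1392862729), (nat_lit 1302122076), (nat_lit 1111854820), (nat_lit 1094789652), (nat_lit 1099884876), (nat_lit 1139090823), (nat_lit 1062703414)], (nat_lit 1271251), (nat_lit 1271251), (nat_lit 559688), (nat_lit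 780000), (nat_lit 0), (nat_lit 2613125), [(nat_lit 1412501), (nat_lit 1271251), (nat_lit 1271251)], [(nat_lit 23), (nat_lit 62), (nat_lit 428), (nat_lit 200), (nat_lit 11)]⟩,
 ⟨⟨[(nat_lit 120), (nat_lit 160), (nat_lit 200)], [(nat_lit 0), (nat_lit 0), (nat_lit 3198)], [((nat_lit 0), (nat_lit 0), (nat_lit 0)), ((nat_lit 0), (nat_lit 0), (nat_lit 0)), ((nat_lit 572), (nat_lit 1000), (nat_lit 714))], ((nat_lit 0), (nat_lit 0), (nat_lit 0))⟩, (nat_lit 14146), (nat_lit 300), (nat_lit 1139), (nat_lit 2151806), (nat_lit 1586411), [(nat_lit 231072000), (nat_lit 344288000), (nat_lit 475600000)], [], [(nat_lit 1778937772), (nat_lit 1767934795), (nat_lit 1801070502), (nat_lit 1792612951), (nat_lit 1484478656), (nat_lit 1544267132), (nat_lit 1315746496), (nat_lit 1308518028)], (nat_lit 1100000), (nat_lit 1184688), (nat_lit 1271251), (nat_lit 1271251), (nat_lit 0), (nat_lit 2613125), [(nat_lit 1695001), (nat_lit 1271251), (nat_lit 1271251)], [(nat_lit 29), (nat_lit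 66), (nat_lit 456), (nat_lit 225), (nat_lit 10)]⟩⟩)) (.leaf ⟨(nat_lit 961), (nat_lit 0), (nat_lit 0), (nat_lit 39), (nat_lit 1922), (nat_lit 3438), (nat_lit 476), (nat_lit 523), (nat_lit 0), (nat_lit 0), (nat_lit 412600), [((nat_lit 380), [((nat_lit 25), (nat_lit 1), (nat_lit 820)), ((nat_lit 41), (nat_lit 2), (nat_lit 141))])], ⟨(nat_lit 5), false, false, false, (nat_lit 157), (nat_lit 2236), (nat_lit 3163), [(nat_lit 1354183), (nat_lit 1365632), (nat_lit 1376275), (nat_lit 1388342), (nat_lit 1399976), (nat_lit 1408471), (nat_lit 1422068), (nat_lit 1431182)]⟩, ⟨(nat_lit 6), false, false, true, (nat_lit 233), (nat_lit 2236), (nat_lit 3163), [(nat_lit 1527720), (nat_lit 1522853), (nat_lit 1538797), (nat_lit 1534240), (nat_lit 1634388), (nat_lit 1622630), (nat_lit 1645465), (nat_lit 1634017)]⟩, (nat_lit 4770459), (nat_lit 42770402), (nat_lit 8460528), (nat_lit 15769070), (nat_lit 0), (nat_lit 0), [⟨(nat_lit 0), (nat_lit 100), (nat_lit 53), (nat_lit 93),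 (nat_lit 266678233)⟩], [⟨(nat_lit 1), (nat_lit 86), (nat_lit 60), (nat_lit 100), (nat_lit 203132934)⟩], [⟨(nat_lit 0), (nat_lit 100), (nat_lit 100), (nat_lit 3), (nat_lit 25519821)⟩], [],
 ⟨⟨[(nat_lit 40), (nat_lit 80), (nat_lit 100)], [(nat_lit 0), (nat_lit 1598), (nat_lit 2533)], [((nat_lit 0), (nat_lit 0), (nat_lit 0)), ((nat_lit 1000), (nat_lit 625), (nat_lit 623)), ((nat_lit 1000), (nat_lit 604), (nat_lit 730))], ((nat_lit 61), (nat_lit 100), (nat_lit 68))⟩, (nat_lit 0), (nat_lit 151), (nat_lit 151), (nat_lit 0), (nat_lit 167536), [(nat_lit 1386200422), (nat_lit 957339260), (nat_lit 893483600)], [(nat_lit 0), (nat_lit 0), (nat_lit 0)], [(nat_lit 22694883972), (nat_lit 23725669896), (nat_lit 22903566318), (nat_lit 23898862404), (nat_lit 25134704672), (nat_lit 26491365786), (nat_lit 25215559963), (nat_lit 26524689460)], (nat_lit 1271251), (nat_lit 1271251), (nat_lit 559688), (nat_lit 780000), (nat_lit 1271251), (nat_lit 1271251), [(nat_lit 490000),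 (nat_lit 1100000), (nat_lit 1442501)], [(nat_lit 3), (nat_lit 50), (nat_lit 238), (nat_lit 30), (nat_lit 8)]⟩,
 ⟨⟨[(nat_lit 100), (nat_lit 140), (nat_lit 160)], [(nat_lit 0), (nat_lit 508), (nat_lit 1689)], [((nat_lit 0), (nat_lit 0), (nat_lit 0)), ((nat_lit 1000), (nat_lit 1000), (nat_lit 198)), ((nat_lit 811), (nat_lit 1000), (nat_lit 671))], ((nat_lit 100), (nat_lit 81), (nat_lit 68))⟩, (nat_lit 1706), (nat_lit 488), (nat_lit 488), (nat_lit 0), (nat_lit 356474), [(nat_lit 243750000), (nat_lit 383838000), (nat_lit 463008000)], [], [(nat_lit 2124601976), (nat_lit 1867983652), (nat_lit 1746996114), (nat_lit 1493775846), (nat_lit 1469319097), (nat_lit 1476266501), (nat_lit 1532300282), (nat_lit 1426877803)], (nat_lit 1271251), (nat_lit 1271251), (nat_lit 559688), (nat_lit 780000), (nat_lit 0), (nat_lit 2613125), [(nat_lit 1412501), (nat_lit 1271251), (nat_lit 1271251)], [(nat_lit 23), (nat_lit 62), (nat_lit 428), (nat_lit 200), (nat_lit 11)]⟩,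
 ⟨⟨[(nat_lit 120), (nat_lit 160), (nat_lit 180)], [(nat_lit 0), (nat_lit 264), (nat_lit 1835)], [((nat_lit 0), (nat_lit 0), (nat_lit 0)), ((nat_lit 980), (nat_lit 1000), (nat_lit 101)), ((nat_lit 612), (nat_lit 1000), (nat_lit 704))], ((nat_lit 100), (nat_lit 64), (nat_lit 68))⟩, (nat_lit 17801), (nat_lit 300), (nat_lit 974), (nat_lit 2864429), (nat_lit 1347157), [(nat_lit 310752000), (nat_lit 463008000), (nat_lit 548262000)], [], [(nat_lit 2073747324), (nat_lit 2063988624), (nat_lit 2082365480), (nat_lit 2070908944), (nat_lit 2063056720), (nat_lit 2143299205), (nat_lit 1596082303), (nat_lit 1589411790)], (nat_lit 1184688), (nat_lit 1271251), (nat_lit 1271251), (nat_lit 1271251), (nat_lit 0), (nat_lit 2613125), [(nat_lit 1695001), (nat_lit 1271251), (nat_lit 1271251)], [(nat_lit 28), (nat_lit 65), (nat_lit 456), (nat_lit 225), (nat_lit 10)]⟩⟩)))))))))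
noncomputable def c16_3 : Tr Lf :=
 (.spl (nat_lit 4) (nat_lit 120) (.leaf ⟨(nat_lit 1000), (nat_lit 0), (nat_lit 0), (nat_lit 0), (nat_lit 9747), (nat_lit 3063), (nat_lit 0), (nat_lit 0), (nat_lit 0), (nat_lit 5606), (nat_lit 574200), [((nat_lit 380), [((nat_lit 26), (nat_lit 1), (nat_lit 129)), ((nat_lit 41), (nat_lit 2), (nat_lit 871))])], ⟨(nat_lit 3), false, false, false, (nat_lit 114), (nat_lit 2236), (nat_lit 3163), [(nat_lit 1136876), (nat_lit 1152119), (nat_lit 1269425), (nat_lit 1288384), (nat_lit 1289472), (nat_lit 1294870), (nat_lit 1422068), (nat_lit 1431182)]⟩, ⟨(nat_lit 3), false, false, false, (nat_lit 101), (nat_lit 2236), (nat_lit 3163), [(nat_lit 1136876), (nat_lit 1152119), (nat_lit 1203150), (nat_lit 1220251), (nat_lit 1289472), (nat_lit 1294870), (nat_lit 1355794), (nat_lit 1363050)]⟩, (nat_lit 2799989), (nat_lit 56909491), (nat_lit 5527319), (nat_lit 4563190), (nat_lit 0), (nat_lit 0), [⟨(nat_lit 0), (nat_lit 100), (nat_lit 44),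 (nat_lit 99), (nat_lit 381576709)⟩], [⟨(nat_lit 0), (nat_lit 100), (nat_lit 54), (nat_lit 71), (nat_lit 65270530)⟩], [], [],
 ⟨⟨[(nat_lit 40), (nat_lit 80), (nat_lit 120)], [(nat_lit 0), (nat_lit 1598), (nat_lit 3468)], [((nat_lit 0), (nat_lit 0), (nat_lit 0)), ((nat_lit 1000), (nat_lit 625), (nat_lit 623)), ((nat_lit 1000), (nat_lit 604), (nat_lit 730))], ((nat_lit 60), (nat_lit 100), (nat_lit 87))⟩, (nat_lit 0), (nat_lit 294), (nat_lit 294), (nat_lit 0), (nat_lit 108627), [(nat_lit 1305574401), (nat_lit 320029714), (nat_lit 0)], [(nat_lit 0), (nat_lit 0), (nat_lit 1194706000)], [(nat_lit 21803395941), (nat_lit 23901154705), (nat_lit 20644262999), (nat_lit 21845943900), (nat_lit 20644262999), (nat_lit 21845943900), (nat_lit 20547314403), (nat_lit 21639344153)], (nat_lit 1271251), (nat_lit 1271251), (nat_lit 111251), (nat_lit 780000), (nat_lit 111251), (nat_lit 780000), [(nat_lit 490000), (nat_lit 1100000), (nat_lit 1785001)], [(nat_lit 4), (nat_lit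 51), (nat_lit 272), (nat_lit 60), (nat_lit 9)]⟩,
 Rw.none,
 Rw.none⟩) (.spl (nat_lit 4) (nat_lit 200) (.leaf ⟨(nat_lit 1000), (nat_lit 0), (nat_lit 0), (nat_lit 0), (nat_lit 8090), (nat_lit 3525), (nat_lit 0), (nat_lit 0), (nat_lit 0), (nat_lit 7637), (nat_lit 517800), [((nat_lit 380), [((nat_lit 26), (nat_lit 1), (nat_lit 411)), ((nat_lit 41), (nat_lit 2), (nat_lit 589))])], ⟨(nat_lit 3), false, false, false, (nat_lit 114), (nat_lit 2236), (nat_lit 3163), [(nat_lit 1136876), (nat_lit 1152119), (nat_lit 1269425), (nat_lit 1288384), (nat_lit 1289472), (nat_lit 1294870), (nat_lit 1422068), (nat_lit 1431182)]⟩, ⟨(nat_lit 3), false, false, true, (nat_lit 154), (nat_lit 2236), (nat_lit 3163), [(nat_lit 1289472), (nat_lit 1294870), (nat_lit 1355794), (nat_lit 1363050), (nat_lit 1411379), (nat_lit 1408901), (nat_lit 1477844), (nat_lit 1477224)]⟩, (nat_lit 3544310), (nat_lit 52557985), (nat_lit 5584684), (nat_lit 8857331), (nat_lit 0), (nat_lit 0), [⟨(nat_lit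 0), (nat_lit 100), (nat_lit 44), (nat_lit 99), (nat_lit 359389982)⟩], [], [], [],
 ⟨⟨[(nat_lit 40), (nat_lit 80), (nat_lit 120)], [(nat_lit 0), (nat_lit 1598), (nat_lit 3468)], [((nat_lit 0), (nat_lit 0), (nat_lit 0)), ((nat_lit 1000), (nat_lit 625), (nat_lit 623)), ((nat_lit 1000), (nat_lit 604), (nat_lit 730))], ((nat_lit 60), (nat_lit 100), (nat_lit 87))⟩, (nat_lit 0), (nat_lit 250), (nat_lit 250), (nat_lit 0), (nat_lit 148635), [(nat_lit 1329910404), (nat_lit 602826583), (nat_lit 0)], [(nat_lit 0), (nat_lit 0), (nat_lit 550054000)], [(nat_lit 20953146675), (nat_lit 22862193750), (nat_lit 19847929675), (nat_lit 21248623463), (nat_lit 22274389507), (nat_lit 24112579385), (nat_lit 21133403983), (nat_lit 22378717082)], (nat_lit 1271251), (nat_lit 1271251), (nat_lit 111251), (nat_lit 780000), (nat_lit 780000), (nat_lit 1435001), [(nat_lit 490000), (nat_lit 1100000), (nat_lit 1785001)], [(nat_lit 4), (nat_lit 51), (nat_lit 317), (nat_lit 100), (nat_lit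 10)]⟩,
 Rw.none,
 Rw.none⟩) (.trX (nat_lit 5) (nat_lit 4) (nat_lit 3) (nat_lit 100) (nat_lit 40) (nat_lit 92) (nat_lit 390) (.spl (nat_lit 1) (nat_lit 180) (.leaf ⟨(nat_lit 1000), (nat_lit 0), (nat_lit 0), (nat_lit 0), (nat_lit 9339), (nat_lit 2928), (nat_lit 0), (nat_lit 0), (nat_lit 0), (nat_lit 2340712756485), (nat_lit 482800), [((nat_lit 380), [((nat_lit 26), (nat_lit 1), (nat_lit 586)), ((nat_lit 41), (nat_lit 2), (nat_lit 414))])], ⟨(nat_lit 3), false, false, false, (nat_lit 101), (nat_lit 2236), (nat_lit 3163), [(nat_lit 1136876), (nat_lit 1152119), (nat_lit 1203150), (nat_lit 1220251), (nat_lit 1289472), (nat_lit 1294870), (nat_lit 1355794), (nat_lit 1363050)]⟩, ⟨(nat_lit 5), false, false, true, (nat_lit 210), (nat_lit 2236), (nat_lit 3163), [(nat_lit 1411379), (nat_lit 1408901), (nat_lit 1477844), (nat_lit 1477224), (nat_lit 1579000), (nat_lit 1565693), (nat_lit 1645465), (nat_lit 1634017)]⟩, (nat_lit 3960497), (nat_lit 48311123), (nat_lit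 4518251), (nat_lit 14170626), (nat_lit 0), (nat_lit 0), [⟨(nat_lit 0), (nat_lit 100), (nat_lit 44), (nat_lit 86), (nat_lit 96481921)⟩], [⟨(nat_lit 1), (nat_lit 99), (nat_lit 54), (nat_lit 100), (nat_lit 256004181)⟩], [], [],
 ⟨⟨[(nat_lit 40), (nat_lit 80), (nat_lit 120)], [(nat_lit 0), (nat_lit 1598), (nat_lit 3468)], [((nat_lit 0), (nat_lit 0), (nat_lit 0)), ((nat_lit 1000), (nat_lit 625), (nat_lit 623)), ((nat_lit 1000), (nat_lit 604), (nat_lit 730))], ((nat_lit 60), (nat_lit 100), (nat_lit 87))⟩, (nat_lit 0), (nat_lit 225), (nat_lit 225), (nat_lit 0), (nat_lit 148256), [(nat_lit 1345030478), (nat_lit 654275460), (nat_lit 0)], [(nat_lit 0), (nat_lit 0), (nat_lit 150004000)], [(nat_lit 22955942672), (nat_lit 24019036803), (nat_lit 22714456382), (nat_lit 23696221682), (nat_lit 26300027303), (nat_lit 27216464792), (nat_lit 25829008327), (nat_lit 26673659760)], (nat_lit 1271251), (nat_lit 1271251), (nat_lit 111251), (nat_lit 780000), (nat_lit 1271251),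 (nat_lit 1271251), [(nat_lit 490000), (nat_lit 1100000), (nat_lit 1785001)], [(nat_lit 4), (nat_lit 51), (nat_lit 345), (nat_lit 125), (nat_lit 11)]⟩,
 Rw.none,
 Rw.none⟩) (.trZ (nat_lit 0) (nat_lit 1) (nat_lit 3) (nat_lit 100) (nat_lit 60) (nat_lit 74) (nat_lit 60) (.spl (nat_lit 6) (nat_lit 88) (.spl (nat_lit 0) (nat_lit 370) (.spl (nat_lit 6) (nat_lit 72) (.leaf ⟨(nat_lit 1000), (nat_lit 0), (nat_lit 0), (nat_lit 0), (nat_lit 15835), (nat_lit 3277), (nat_lit 0), (nat_lit 0), (nat_lit 0), (nat_lit 0), (nat_lit 427400), [((nat_lit 370), [((nat_lit 25), (nat_lit 1), (nat_lit 863)), ((nat_lit 41), (nat_lit 2), (nat_lit 137))])], ⟨(nat_lit 4), false, false, false, (nat_lit 138), (nat_lit 2738), (nat_lit 3163), [(nat_lit 1264456), (nat_lit 1270816), (nat_lit 1330884), (nat_lit 1338031), (nat_lit 1355914), (nat_lit 1359435), (nat_lit 1422342), (nat_lit 1426651)]⟩, ⟨(nat_lit 5), false, false, true, (nat_lit 211), (nat_lit 2738), (nat_lit 3163), [(nat_lit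 1411379), (nat_lit 1410329), (nat_lit 1477844), (nat_lit 1477581), (nat_lit 1579001), (nat_lit 1572748), (nat_lit 1645465), (nat_lit 1640000)]⟩, (nat_lit 4421065), (nat_lit 45868794), (nat_lit 7199645), (nat_lit 13931561), (nat_lit 0), (nat_lit 0), [⟨(nat_lit 0), (nat_lit 100), (nat_lit 54), (nat_lit 96), (nat_lit 552905502)⟩], [⟨(nat_lit 1), (nat_lit 97), (nat_lit 58), (nat_lit 100), (nat_lit 255547176)⟩], [], [],
 ⟨⟨[(nat_lit 40), (nat_lit 80), (nat_lit 100)], [(nat_lit 0), (nat_lit 1598), (nat_lit 2533)], [((nat_lit 0), (nat_lit 0), (nat_lit 0)), ((nat_lit 1000), (nat_lit 625), (nat_lit 623)), ((nat_lit 1000), (nat_lit 604), (nat_lit 730))], ((nat_lit 60), (nat_lit 100), (nat_lit 77))⟩, (nat_lit 0), (nat_lit 137), (nat_lit 137), (nat_lit 0), (nat_lit 71907), [(nat_lit 1370344041), (nat_lit 937597978), (nat_lit 691944800)], [(nat_lit 0), (nat_lit 0), (nat_lit 0)], [(nat_lit 21364558931), (nat_lit 22016870503), (nat_lit 21421965163), (nat_lit 22031805189),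 (nat_lit 25473993091), (nat_lit 26152456756), (nat_lit 25036514892), (nat_lit 25677058024)], (nat_lit 1271251), (nat_lit 1271251), (nat_lit 356250), (nat_lit 780000), (nat_lit 1271251), (nat_lit 1271251), [(nat_lit 490000), (nat_lit 1100000), (nat_lit 1442501)], [(nat_lit 3), (nat_lit 50), (nat_lit 238), (nat_lit 30), (nat_lit 8)]⟩,
 Rw.none,
 Rw.none⟩) (.dle (nat_lit 0))) (.trZ (nat_lit 0) (nat_lit 1) (nat_lit 3) (nat_lit 100) (nat_lit 53) (nat_lit 80) (nat_lit 70) (.trX (nat_lit 4) (nat_lit 0) (nat_lit 2) (nat_lit 53) (nat_lit 90) (nat_lit 100) (nat_lit 290) (.leaf ⟨(nat_lit 1000), (nat_lit 0), (nat_lit 0), (nat_lit 0), (nat_lit 10403), (nat_lit 3351), (nat_lit 0), (nat_lit 0), (nat_lit 0), (nat_lit 0), (nat_lit 250000), [((nat_lit 380), [((nat_lit 26), (nat_lit 0), (nat_lit 1000))])], ⟨(nat_lit 4), false, false, false, (nat_lit 144), (nat_lit 2236), (nat_lit 2739), [(nat_lit 1285540), (nat_lit 1291832), (nat_lit 1352731), (nat_lit 1360094), (nat_lit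 1359410), (nat_lit 1363145), (nat_lit 1426601), (nat_lit 1431406)]⟩, ⟨(nat_lit 5), false, false, true, (nat_lit 204), (nat_lit 2236), (nat_lit 2739), [(nat_lit 1410329), (nat_lit 1408901), (nat_lit 1477581), (nat_lit 1477224), (nat_lit 1543217), (nat_lit 1537186), (nat_lit 1610469), (nat_lit 1605509)]⟩, (nat_lit 4418818), (nat_lit 46147210), (nat_lit 7636907), (nat_lit 13215883), (nat_lit 0), (nat_lit 0), [⟨(nat_lit 0), (nat_lit 100), (nat_lit 48), (nat_lit 90), (nat_lit 586335633)⟩], [⟨(nat_lit 1), (nat_lit 90), (nat_lit 53), (nat_lit 100), (nat_lit 287779472)⟩], [], [],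
 ⟨⟨[(nat_lit 40), (nat_lit 80), (nat_lit 100)], [(nat_lit 0), (nat_lit 2008), (nat_lit 2969)], [((nat_lit 0), (nat_lit 0), (nat_lit 0)), ((nat_lit 1000), (nat_lit 540), (nat_lit 733)), ((nat_lit 1000), (nat_lit 536), (nat_lit 751))], ((nat_lit 53), (nat_lit 100), (nat_lit 83))⟩, (nat_lit 486247), (nat_lit 144), (nat_lit 144), (nat_lit 0), (nat_lit 119502), [(nat_lit 1531200008), (nat_lit 1791866127), (nat_lit 2090000000)], [(nat_lit 0), (nat_lit 0), (nat_lit 0)], [(nat_lit 21902221577), (nat_lit 22553981626), (nat_lit 22063216189), (nat_lit 22679386027), (nat_lit 25025118589), (nat_lit 25741271143), (nat_lit 24860890585), (nat_lit 25538956638)], (nat_lit 1271251), (nat_lit 1271251), (nat_lit 422188), (nat_lit 780000), (nat_lit 1271251), (nat_lit 1271251), [(nat_lit 490000), (nat_lit 1100000), (nat_lit 1442501)], [(nat_lit 3), (nat_lit 50), (nat_lit 238), (nat_lit 30), (nat_lit 8)]⟩,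
 Rw.none,
 Rw.none⟩)))) (.dle (nat_lit 0))))))))
noncomputable def c16_4 : Tr Lf :=
 (.spl (nat_lit 6) (nat_lit 36) (.spl (nat_lit 2) (nat_lit 220) (.leaf ⟨(nat_lit 974), (nat_lit 7), (nat_lit 0), (nat_lit 19), (nat_lit 0), (nat_lit 3233), (nat_lit 352), (nat_lit 239), (nat_lit 0), (nat_lit 132352), (nat_lit 561900), [((nat_lit 380), [((nat_lit 24), (nat_lit 0), (nat_lit 38)), ((nat_lit 24), (nat_lit 1), (nat_lit 46)), ((nat_lit 41), (nat_lit 2), (nat_lit 890))])], ⟨(nat_lit 4), false, false, false, (nat_lit 139), (nat_lit 2236), (nat_lit 3163), [(nat_lit 1264208), (nat_lit 1277371), (nat_lit 1330482), (nat_lit 1345503), (nat_lit 1355794), (nat_lit 1363050), (nat_lit 1422068), (nat_lit 1431182)]⟩, ⟨(nat_lit 4), false, false, false, (nat_lit 159), (nat_lit 2236), (nat_lit 3163), [(nat_lit 1264208), (nat_lit 1277371), (nat_lit 1308390), (nat_lit 1322792), (nat_lit 1477844), (nat_lit 1477224), (nat_lit 1522091), (nat_lit 1522710)]⟩, (nat_lit 3928553),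 (nat_lit 50253397), (nat_lit 7538404), (nat_lit 9208199), (nat_lit 4), (nat_lit 0), [⟨(nat_lit 0), (nat_lit 100), (nat_lit 53), (nat_lit 88), (nat_lit 328453201)⟩], [], [], [],
 ⟨⟨[(nat_lit 40), (nat_lit 60), (nat_lit 80)], [(nat_lit 0), (nat_lit 832), (nat_lit 1534)], [((nat_lit 0), (nat_lit 0), (nat_lit 0)), ((nat_lit 1000), (nat_lit 659), (nat_lit 528)), ((nat_lit 1000), (nat_lit 650), (nat_lit 549))], ((nat_lit 63), (nat_lit 100), (nat_lit 60))⟩, (nat_lit 490), (nat_lit 222), (nat_lit 222), (nat_lit 0), (nat_lit 354844), [(nat_lit 1320063207), (nat_lit 686352632), (nat_lit 183611200)], [(nat_lit 0), (nat_lit 0), (nat_lit 0)], [(nat_lit 19405300536), (nat_lit 21469938216), (nat_lit 19056878613), (nat_lit 20994773720), (nat_lit 20855469482), (nat_lit 22400682768), (nat_lit 21150343959), (nat_lit 22405613363)], (nat_lit 1271251), (nat_lit 1271251), (nat_lit 356250), (nat_lit 780000), (nat_lit 356250), (nat_lit 1423751), [(nat_lit 490000), (nat_lit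 780000), (nat_lit 1100000)], [(nat_lit 2), (nat_lit 44), (nat_lit 317), (nat_lit 100), (nat_lit 14)]⟩,
 ⟨⟨[(nat_lit 120), (nat_lit 160), (nat_lit 180)], [(nat_lit 0), (nat_lit 533), (nat_lit 2066)], [((nat_lit 0), (nat_lit 0), (nat_lit 0)), ((nat_lit 960), (nat_lit 1000), (nat_lit 200)), ((nat_lit 615), (nat_lit 1000), (nat_lit 729))], ((nat_lit 100), (nat_lit 76), (nat_lit 58))⟩, (nat_lit 573146), (nat_lit 983), (nat_lit 983), (nat_lit 0), (nat_lit 1160089), [(nat_lit 207168000), (nat_lit 308672000), (nat_lit 365508000)], [], [(nat_lit 1475079880), (nat_lit 916603984), (nat_lit 919322656), (nat_lit 578423536), (nat_lit 1557208976), (nat_lit 1111938368), (nat_lit 1715411632), (nat_lit 1240231168)], (nat_lit 1271251), (nat_lit 1271251), (nat_lit 356250), (nat_lit 780000), (nat_lit 0), (nat_lit 2825001), [(nat_lit 1695001), (nat_lit 1271251), (nat_lit 1271251)], [(nat_lit 28), (nat_lit 65), (nat_lit 428), (nat_lit 200), (nat_lit 10)]⟩,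
 ⟨⟨[(nat_lit 120), (nat_lit 160), (nat_lit 180)], [(nat_lit 0), (nat_lit 533), (nat_lit 2066)], [((nat_lit 0), (nat_lit 0), (nat_lit 0)), ((nat_lit 960), (nat_lit 1000), (nat_lit 200)), ((nat_lit 615), (nat_lit 1000), (nat_lit 729))], ((nat_lit 100), (nat_lit 76), (nat_lit 58))⟩, (nat_lit 44488), (nat_lit 300), (nat_lit 1562), (nat_lit 1261600), (nat_lit 2445737), [(nat_lit 151392000), (nat_lit 225568000), (nat_lit 267102000)], [], [(nat_lit 1145345607), (nat_lit 1095606016), (nat_lit 973988187), (nat_lit 958232124), (nat_lit 1118425954), (nat_lit 907380429), (nat_lit 1464997556), (nat_lit 1255315208)], (nat_lit 1271251), (nat_lit 1271251), (nat_lit 356250), (nat_lit 1423751), (nat_lit 0), (nat_lit 2825001), [(nat_lit 1695001), (nat_lit 1271251), (nat_lit 1271251)], [(nat_lit 28), (nat_lit 65), (nat_lit 493), (nat_lit 225), (nat_lit 12)]⟩⟩) (.ord (.trZ (nat_lit 0) (nat_lit 1) (nat_lit 3) (nat_lit 100) (nat_lit 60) (nat_lit 86) (nat_lit 90) (.trZ (nat_lit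 0) (nat_lit 2) (nat_lit 4) (nat_lit 100) (nat_lit 60) (nat_lit 86) (nat_lit 90) (.leaf ⟨(nat_lit 889), (nat_lit 70), (nat_lit 0), (nat_lit 41), (nat_lit 0), (nat_lit 3435), (nat_lit 936), (nat_lit 474), (nat_lit 0), (nat_lit 6466069886474), (nat_lit 507150), [((nat_lit 380), [((nat_lit 24), (nat_lit 0), (nat_lit 75)), ((nat_lit 41), (nat_lit 2), (nat_lit 814))])], ⟨(nat_lit 5), false, false, false, (nat_lit 157), (nat_lit 2236), (nat_lit 3163), [(nat_lit 1354183), (nat_lit 1365632), (nat_lit 1376275), (nat_lit 1388342), (nat_lit 1399976), (nat_lit 1408471), (nat_lit 1422068), (nat_lit 1431182)]⟩, ⟨(nat_lit 5), false, false, false, (nat_lit 181), (nat_lit 2236), (nat_lit 3163), [(nat_lit 1354183), (nat_lit 1365632), (nat_lit 1376275), (nat_lit 1388342), (nat_lit 1522091), (nat_lit 1522710), (nat_lit 1544182), (nat_lit 1545421)]⟩, (nat_lit 4365058), (nat_lit 47055239), (nat_lit 8882140), (nat_lit 11062621), (nat_lit 5), (nat_lit 0), [⟨(nat_lit 0), (nat_lit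 100), (nat_lit 53), (nat_lit 93), (nat_lit 11031592)⟩, ⟨(nat_lit 0), (nat_lit 100), (nat_lit 60), (nat_lit 86), (nat_lit 372730034)⟩], [], [⟨(nat_lit 0), (nat_lit 100), (nat_lit 100), (nat_lit 40), (nat_lit 6846105)⟩], [],
 ⟨⟨[(nat_lit 40), (nat_lit 60), (nat_lit 80)], [(nat_lit 0), (nat_lit 832), (nat_lit 1534)], [((nat_lit 0), (nat_lit 0), (nat_lit 0)), ((nat_lit 1000), (nat_lit 659), (nat_lit 528)), ((nat_lit 1000), (nat_lit 650), (nat_lit 549))], ((nat_lit 63), (nat_lit 100), (nat_lit 60))⟩, (nat_lit 214331), (nat_lit 198), (nat_lit 198), (nat_lit 0), (nat_lit 376586), [(nat_lit 1367699611), (nat_lit 932097165), (nat_lit 605308800)], [(nat_lit 0), (nat_lit 0), (nat_lit 0)], [(nat_lit 18515285316), (nat_lit 20545532578), (nat_lit 18765579373), (nat_lit 20717316427), (nat_lit 20527805473), (nat_lit 22125614394), (nat_lit 20879432392), (nat_lit 22289472708)], (nat_lit 1271251), (nat_lit 1271251), (nat_lit 559688), (nat_lit 780000), (nat_lit 559688),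 (nat_lit 1429376), [(nat_lit 490000), (nat_lit 780000), (nat_lit 1100000)], [(nat_lit 2), (nat_lit 44), (nat_lit 317), (nat_lit 100), (nat_lit 14)]⟩,
 ⟨⟨[(nat_lit 100), (nat_lit 140), (nat_lit 160)], [(nat_lit 0), (nat_lit 508), (nat_lit 1689)], [((nat_lit 0), (nat_lit 0), (nat_lit 0)), ((nat_lit 1000), (nat_lit 1000), (nat_lit 198)), ((nat_lit 811), (nat_lit 1000), (nat_lit 671))], ((nat_lit 100), (nat_lit 88), (nat_lit 58))⟩, (nat_lit 597658), (nat_lit 739), (nat_lit 739), (nat_lit 0), (nat_lit 886995), [(nat_lit 693750000), (nat_lit 1092462000), (nat_lit 1317792000)], [], [(nat_lit 5292895173), (nat_lit 4788284352), (nat_lit 4550376084), (nat_lit 4053439302), (nat_lit 4359912528), (nat_lit 3928729226), (nat_lit 4638345360), (nat_lit 4205986368)], (nat_lit 1271251), (nat_lit 1271251), (nat_lit 559688), (nat_lit 780000), (nat_lit 0), (nat_lit 2825001), [(nat_lit 1412501), (nat_lit 1271251), (nat_lit 1271251)], [(nat_lit 23), (nat_lit 62), (nat_lit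 428), (nat_lit 200), (nat_lit 11)]⟩,
 ⟨⟨[(nat_lit 100), (nat_lit 140), (nat_lit 160)], [(nat_lit 0), (nat_lit 508), (nat_lit 1689)], [((nat_lit 0), (nat_lit 0), (nat_lit 0)), ((nat_lit 1000), (nat_lit 1000), (nat_lit 198)), ((nat_lit 811), (nat_lit 1000), (nat_lit 671))], ((nat_lit 100), (nat_lit 88), (nat_lit 58))⟩, (nat_lit 88134), (nat_lit 300), (nat_lit 1093), (nat_lit 2562500), (nat_lit 1660690), [(nat_lit 256250000), (nat_lit 403522000), (nat_lit 486752000)], [], [(nat_lit 2186000794), (nat_lit 1930460698), (nat_lit 1717754890), (nat_lit 1708950440), (nat_lit 1612586312), (nat_lit 1603151337), (nat_lit 2198265131), (nat_lit 1984973900)], (nat_lit 1271251), (nat_lit 1271251), (nat_lit 559688), (nat_lit 1429376), (nat_lit 0), (nat_lit 2825001), [(nat_lit 1412501), (nat_lit 1271251), (nat_lit 1271251)], [(nat_lit 23), (nat_lit 62), (nat_lit 456), (nat_lit 225), (nat_lit 12)]⟩⟩))))) (.spl (nat_lit 2) (nat_lit 220) (.leaf ⟨(nat_lit 1000), (nat_lit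 0), (nat_lit 0), (nat_lit 0), (nat_lit 6174), (nat_lit 3329), (nat_lit 0), (nat_lit 0), (nat_lit 0), (nat_lit 23938), (nat_lit 489000), [((nat_lit 380), [((nat_lit 25), (nat_lit 1), (nat_lit 555)), ((nat_lit 41), (nat_lit 2), (nat_lit 445))])], ⟨(nat_lit 4), false, false, false, (nat_lit 139), (nat_lit 2236), (nat_lit 3163), [(nat_lit 1264208), (nat_lit 1277371), (nat_lit 1330482), (nat_lit 1345503), (nat_lit 1355794), (nat_lit 1363050), (nat_lit 1422068), (nat_lit 1431182)]⟩, ⟨(nat_lit 4), false, false, false, (nat_lit 159), (nat_lit 2236), (nat_lit 3163), [(nat_lit 1264208), (nat_lit 1277371), (nat_lit 1308390), (nat_lit 1322792), (nat_lit 1477844), (nat_lit 1477224), (nat_lit 1522091), (nat_lit 1522710)]⟩, (nat_lit 3928553), (nat_lit 50253397), (nat_lit 7538404), (nat_lit 9208199), (nat_lit 0), (nat_lit 0), [⟨(nat_lit 0), (nat_lit 100), (nat_lit 53), (nat_lit 88), (nat_lit 467976559)⟩], [], [], [],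
 ⟨⟨[(nat_lit 40), (nat_lit 80), (nat_lit 100)], [(nat_lit 0), (nat_lit 1598), (nat_lit 2533)], [((nat_lit 0), (nat_lit 0), (nat_lit 0)), ((nat_lit 1000), (nat_lit 625), (nat_lit 623)), ((nat_lit 1000), (nat_lit 604), (nat_lit 730))], ((nat_lit 60), (nat_lit 100), (nat_lit 75))⟩, (nat_lit 0), (nat_lit 192), (nat_lit 192), (nat_lit 0), (nat_lit 130119), [(nat_lit 1343240001), (nat_lit 506863755), (nat_lit 190028000)], [(nat_lit 0), (nat_lit 0), (nat_lit 0)], [(nat_lit 19579046748), (nat_lit 21677197206), (nat_lit 19547104248), (nat_lit 21152186360), (nat_lit 21024943056), (nat_lit 22539276492), (nat_lit 21144338977), (nat_lit 22299462053)], (nat_lit 1271251), (nat_lit 1271251), (nat_lit 356250), (nat_lit 780000), (nat_lit 356250), (nat_lit 1423751), [(nat_lit 490000), (nat_lit 1100000), (nat_lit 1442501)], [(nat_lit 3), (nat_lit 50), (nat_lit 317), (nat_lit 100), (nat_lit 12)]⟩,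
 Rw.none,
 Rw.none⟩) (.ord (.trZ (nat_lit 0) (nat_lit 1) (nat_lit 3) (nat_lit 100) (nat_lit 60) (nat_lit 86) (nat_lit 90) (.trZ (nat_lit 0) (nat_lit 2) (nat_lit 4) (nat_lit 100) (nat_lit 60) (nat_lit 86) (nat_lit 90) (.leaf ⟨(nat_lit 988), (nat_lit 0), (nat_lit 0), (nat_lit 12), (nat_lit 6479), (nat_lit 3373), (nat_lit 100), (nat_lit 198), (nat_lit 0), (nat_lit 5159642230896), (nat_lit 514400), [((nat_lit 380), [((nat_lit 25), (nat_lit 1), (nat_lit 392)), ((nat_lit 41), (nat_lit 2), (nat_lit 596))])], ⟨(nat_lit 5), false, false, false, (nat_lit 157), (nat_lit 2236), (nat_lit 3163), [(nat_lit 1354183), (nat_lit 1365632), (nat_lit 1376275), (nat_lit 1388342), (nat_lit 1399976), (nat_lit 1408471), (nat_lit 1422068), (nat_lit 1431182)]⟩, ⟨(nat_lit 5), false, false, false, (nat_lit 181), (nat_lit 2236), (nat_lit 3163), [(nat_lit 1354183), (nat_lit 1365632), (nat_lit 1376275), (nat_lit 1388342), (nat_lit 1522091), (nat_lit 1522710), (nat_lit 1544182), (nat_lit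 1545421)]⟩, (nat_lit 4365058), (nat_lit 47055239), (nat_lit 8882140), (nat_lit 11062621), (nat_lit 0), (nat_lit 0), [⟨(nat_lit 0), (nat_lit 100), (nat_lit 53), (nat_lit 93), (nat_lit 601782253)⟩], [], [⟨(nat_lit 0), (nat_lit 100), (nat_lit 100), (nat_lit 40), (nat_lit 6921396)⟩], [],
 ⟨⟨[(nat_lit 40), (nat_lit 80), (nat_lit 100)], [(nat_lit 0), (nat_lit 1598), (nat_lit 2533)], [((nat_lit 0), (nat_lit 0), (nat_lit 0)), ((nat_lit 1000), (nat_lit 625), (nat_lit 623)), ((nat_lit 1000), (nat_lit 604), (nat_lit 730))], ((nat_lit 60), (nat_lit 100), (nat_lit 75))⟩, (nat_lit 0), (nat_lit 152), (nat_lit 152), (nat_lit 0), (nat_lit 144715), [(nat_lit 1334939201), (nat_lit 544750751), (nat_lit 7976000)], [(nat_lit 0), (nat_lit 0), (nat_lit 0)], [(nat_lit 18498788115), (nat_lit 20454896589), (nat_lit 18795713540), (nat_lit 20636042971), (nat_lit 20349849073), (nat_lit 22055532949), (nat_lit 20586337406), (nat_lit 22228365229)], (nat_lit 1271251), (nat_lit 1271251),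 (nat_lit 559688), (nat_lit 780000), (nat_lit 559688), (nat_lit 1429376), [(nat_lit 490000), (nat_lit 1100000), (nat_lit 1442501)], [(nat_lit 3), (nat_lit 50), (nat_lit 317), (nat_lit 100), (nat_lit 11)]⟩,
 ⟨⟨[(nat_lit 100), (nat_lit 140), (nat_lit 180)], [(nat_lit 0), (nat_lit 508), (nat_lit 2854)], [((nat_lit 0), (nat_lit 0), (nat_lit 0)), ((nat_lit 1000), (nat_lit 1000), (nat_lit 198)), ((nat_lit 777), (nat_lit 1000), (nat_lit 712))], ((nat_lit 100), (nat_lit 74), (nat_lit 76))⟩, (nat_lit 34708), (nat_lit 558), (nat_lit 558), (nat_lit 0), (nat_lit 326371), [(nat_lit 75000000), (nat_lit 118104000), (nat_lit 168696000)], [], [(nat_lit 570063593), (nat_lit 516152180), (nat_lit 490734630), (nat_lit 437438480), (nat_lit 471514696), (nat_lit 450501810), (nat_lit 501386072), (nat_lit 455193872)], (nat_lit 1271251), (nat_lit 1271251), (nat_lit 559688), (nat_lit 780000), (nat_lit 0), (nat_lit 2825001), [(nat_lit 1412501), (nat_lit 1271251), (nat_lit 1271251)],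 [(nat_lit 24), (nat_lit 63), (nat_lit 428), (nat_lit 200), (nat_lit 10)]⟩,
 ⟨⟨[(nat_lit 100), (nat_lit 140), (nat_lit 180)], [(nat_lit 0), (nat_lit 508), (nat_lit 2854)], [((nat_lit 0), (nat_lit 0), (nat_lit 0)), ((nat_lit 1000), (nat_lit 1000), (nat_lit 198)), ((nat_lit 777), (nat_lit 1000), (nat_lit 712))], ((nat_lit 100), (nat_lit 74), (nat_lit 76))⟩, (nat_lit 7655), (nat_lit 300), (nat_lit 661), (nat_lit 815826), (nat_lit 588651), [(nat_lit 75000000), (nat_lit 118104000), (nat_lit 168696000)], [], [(nat_lit 746525443), (nat_lit 639780846), (nat_lit 575848644), (nat_lit 573337368), (nat_lit 550523372), (nat_lit 547018012), (nat_lit 692782437), (nat_lit 603686100)], (nat_lit 1271251), (nat_lit 1271251), (nat_lit 559688), (nat_lit 1429376), (nat_lit 0), (nat_lit 2825001), [(nat_lit 1412501), (nat_lit 1271251), (nat_lit 1271251)], [(nat_lit 24), (nat_lit 63), (nat_lit 456), (nat_lit 225), (nat_lit 11)]⟩⟩))))))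
noncomputable def c16_5 : Tr Lf :=
 (.spl (nat_lit 6) (nat_lit 36) (.spl (nat_lit 2) (nat_lit 220) (.leaf ⟨(nat_lit 954), (nat_lit 0), (nat_lit 0), (nat_lit 46), (nat_lit 0), (nat_lit 3279), (nat_lit 590), (nat_lit 584), (nat_lit 0), (nat_lit 1362690826944), (nat_lit 470200), [((nat_lit 380), [((nat_lit 24), (nat_lit 1), (nat_lit 511)), ((nat_lit 41), (nat_lit 2), (nat_lit 443))])], ⟨(nat_lit 4), false, false, false, (nat_lit 139), (nat_lit 2236), (nat_lit 3163), [(nat_lit 1264208), (nat_lit 1277371), (nat_lit 1330482), (nat_lit 1345503), (nat_lit 1355794), (nat_lit 1363050), (nat_lit 1422068), (nat_lit 1431182)]⟩, ⟨(nat_lit 5), false, true, true, (nat_lit 224), (nat_lit 2236), (nat_lit 3163), [(nat_lit 1477844), (nat_lit 1477224), (nat_lit 1522091), (nat_lit 1522710), (nat_lit 1599750), (nat_lit 1591255), (nat_lit 1644060), (nat_lit 1636804)]⟩, (nat_lit 4528449), (nat_lit 44685237), (nat_lit 7191387), (nat_lit 15123376), (nat_lit 0), (nat_lit 0), [⟨(nat_lit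 0), (nat_lit 100), (nat_lit 53), (nat_lit 88), (nat_lit 362826242)⟩], [], [⟨(nat_lit 0), (nat_lit 100), (nat_lit 100), (nat_lit 5), (nat_lit 17560547)⟩], [],
 ⟨⟨[(nat_lit 40), (nat_lit 60), (nat_lit 80)], [(nat_lit 0), (nat_lit 832), (nat_lit 1534)], [((nat_lit 0), (nat_lit 0), (nat_lit 0)), ((nat_lit 1000), (nat_lit 659), (nat_lit 528)), ((nat_lit 1000), (nat_lit 650), (nat_lit 549))], ((nat_lit 63), (nat_lit 100), (nat_lit 60))⟩, (nat_lit 0), (nat_lit 197), (nat_lit 197), (nat_lit 0), (nat_lit 354844), [(nat_lit 1359263208), (nat_lit 952507814), (nat_lit 679956000)], [(nat_lit 0), (nat_lit 0), (nat_lit 0)], [(nat_lit 21207125378), (nat_lit 22467092261), (nat_lit 21445080147), (nat_lit 22588823290), (nat_lit 24008233410), (nat_lit 25468245727), (nat_lit 23890084613), (nat_lit 25018189189)], (nat_lit 1271251), (nat_lit 1271251), (nat_lit 356250), (nat_lit 780000), (nat_lit 1271251), (nat_lit 1271251), [(nat_lit 490000), (nat_lit 780000), (nat_lit 1100000)],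 [(nat_lit 2), (nat_lit 44), (nat_lit 238), (nat_lit 30), (nat_lit 10)]⟩,
 ⟨⟨[(nat_lit 120), (nat_lit 160), (nat_lit 180)], [(nat_lit 0), (nat_lit 533), (nat_lit 2066)], [((nat_lit 0), (nat_lit 0), (nat_lit 0)), ((nat_lit 960), (nat_lit 1000), (nat_lit 200)), ((nat_lit 615), (nat_lit 1000), (nat_lit 729))], ((nat_lit 100), (nat_lit 76), (nat_lit 58))⟩, (nat_lit 821185), (nat_lit 983), (nat_lit 983), (nat_lit 0), (nat_lit 1160089), [(nat_lit 366528000), (nat_lit 546112000), (nat_lit 646668000)], [], [(nat_lit 2559416578), (nat_lit 1623334820), (nat_lit 1627891685), (nat_lit 1119484946), (nat_lit 2678394402), (nat_lit 1863466876), (nat_lit 2944937750), (nat_lit 2145828659)], (nat_lit 1271251), (nat_lit 1271251), (nat_lit 356250), (nat_lit 780000), (nat_lit 0), (nat_lit 2754376), [(nat_lit 1695001), (nat_lit 1271251), (nat_lit 1271251)], [(nat_lit 28), (nat_lit 65), (nat_lit 428), (nat_lit 200), (nat_lit 10)]⟩,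
 ⟨⟨[(nat_lit 120), (nat_lit 160), (nat_lit 180)], [(nat_lit 0), (nat_lit 533), (nat_lit 2066)], [((nat_lit 0), (nat_lit 0), (nat_lit 0)), ((nat_lit 960), (nat_lit 1000), (nat_lit 200)), ((nat_lit 615), (nat_lit 1000), (nat_lit 729))], ((nat_lit 100), (nat_lit 76), (nat_lit 58))⟩, (nat_lit 107707), (nat_lit 300), (nat_lit 1489), (nat_lit 3054402), (nat_lit 2445737), [(nat_lit 366528000), (nat_lit 546112000), (nat_lit 646668000)], [], [(nat_lit 2350007749), (nat_lit 2311207231), (nat_lit 2319038931), (nat_lit 2273421886), (nat_lit 3126844423), (nat_lit 2612830472), (nat_lit 2105129159), (nat_lit 1769163091)], (nat_lit 1271251), (nat_lit 1271251), (nat_lit 1271251), (nat_lit 1271251), (nat_lit 0), (nat_lit 2754376), [(nat_lit 1695001), (nat_lit 1271251), (nat_lit 1271251)], [(nat_lit 28), (nat_lit 65), (nat_lit 484), (nat_lit 225), (nat_lit 11)]⟩⟩) (.ord (.trZ (nat_lit 0) (nat_lit 1) (nat_lit 3) (nat_lit 100) (nat_lit 60) (nat_lit 86) (nat_lit 90) (.leaf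 ⟨(nat_lit 922), (nat_lit 0), (nat_lit 0), (nat_lit 78), (nat_lit 0), (nat_lit 3348), (nat_lit 538), (nat_lit 841), (nat_lit 0), (nat_lit 2936887627548), (nat_lit 513000), [((nat_lit 380), [((nat_lit 24), (nat_lit 1), (nat_lit 201)), ((nat_lit 41), (nat_lit 2), (nat_lit 721))])], ⟨(nat_lit 5), false, false, false, (nat_lit 157), (nat_lit 2236), (nat_lit 3163), [(nat_lit 1354183), (nat_lit 1365632), (nat_lit 1376275), (nat_lit 1388342), (nat_lit 1399976), (nat_lit 1408471), (nat_lit 1422068), (nat_lit 1431182)]⟩, ⟨(nat_lit 5), false, true, true, (nat_lit 237), (nat_lit 2236), (nat_lit 3163), [(nat_lit 1522091), (nat_lit 1522710), (nat_lit 1544182), (nat_lit 1545421), (nat_lit 1644060), (nat_lit 1636804), (nat_lit 1666215), (nat_lit 1659578)]⟩, (nat_lit 4794540), (nat_lit 42437927), (nat_lit 8422027), (nat_lit 16140046), (nat_lit 0), (nat_lit 0), [⟨(nat_lit 0), (nat_lit 100), (nat_lit 53), (nat_lit 93), (nat_lit 365973150)⟩], [], [⟨(nat_lit 0), (nat_lit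 100), (nat_lit 100), (nat_lit 30), (nat_lit 49931616)⟩], [],
 ⟨⟨[(nat_lit 40), (nat_lit 60), (nat_lit 80)], [(nat_lit 0), (nat_lit 832), (nat_lit 1534)], [((nat_lit 0), (nat_lit 0), (nat_lit 0)), ((nat_lit 1000), (nat_lit 659), (nat_lit 528)), ((nat_lit 1000), (nat_lit 650), (nat_lit 549))], ((nat_lit 63), (nat_lit 100), (nat_lit 60))⟩, (nat_lit 0), (nat_lit 188), (nat_lit 188), (nat_lit 0), (nat_lit 376586), [(nat_lit 1350082402), (nat_lit 872099014), (nat_lit 519429600)], [(nat_lit 0), (nat_lit 0), (nat_lit 0)], [(nat_lit 20762591154), (nat_lit 22027274302), (nat_lit 21083637582), (nat_lit 22284008529), (nat_lit 23567796119), (nat_lit 25008082463), (nat_lit 23709214016), (nat_lit 25098548762)], (nat_lit 1271251), (nat_lit 1271251), (nat_lit 559688), (nat_lit 780000), (nat_lit 1271251), (nat_lit 1271251), [(nat_lit 490000), (nat_lit 780000), (nat_lit 1100000)], [(nat_lit 2), (nat_lit 44), (nat_lit 238), (nat_lit 30), (nat_lit 9)]⟩,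
 ⟨⟨[(nat_lit 100), (nat_lit 140), (nat_lit 160)], [(nat_lit 0), (nat_lit 508), (nat_lit 1689)], [((nat_lit 0), (nat_lit 0), (nat_lit 0)), ((nat_lit 1000), (nat_lit 1000), (nat_lit 198)), ((nat_lit 811), (nat_lit 1000), (nat_lit 671))], ((nat_lit 100), (nat_lit 88), (nat_lit 58))⟩, (nat_lit 762979), (nat_lit 739), (nat_lit 739), (nat_lit 0), (nat_lit 886995), [(nat_lit 487500000), (nat_lit 767676000), (nat_lit 926016000)], [], [(nat_lit 3503742666), (nat_lit 3213699266), (nat_lit 3076952847), (nat_lit 2792079704), (nat_lit 3033460632), (nat_lit 2948306375), (nat_lit 3204757698), (nat_lit 2955395202)], (nat_lit 1271251), (nat_lit 1271251), (nat_lit 559688), (nat_lit 780000), (nat_lit 0), (nat_lit 2754376), [(nat_lit 1412501), (nat_lit 1271251), (nat_lit 1271251)], [(nat_lit 23), (nat_lit 62), (nat_lit 428), (nat_lit 200), (nat_lit 11)]⟩,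
 ⟨⟨[(nat_lit 100), (nat_lit 140), (nat_lit 160)], [(nat_lit 0), (nat_lit 508), (nat_lit 1689)], [((nat_lit 0), (nat_lit 0), (nat_lit 0)), ((nat_lit 1000), (nat_lit 1000), (nat_lit 198)), ((nat_lit 811), (nat_lit 1000), (nat_lit 671))], ((nat_lit 100), (nat_lit 88), (nat_lit 58))⟩, (nat_lit 167669), (nat_lit 300), (nat_lit 1042), (nat_lit 4875002), (nat_lit 1660690), [(nat_lit 487500000), (nat_lit 767676000), (nat_lit 926016000)], [], [(nat_lit 3455292526), (nat_lit 3432506346), (nat_lit 3412259008), (nat_lit 3387886174), (nat_lit 3481025298), (nat_lit 3101335611), (nat_lit 2823485093), (nat_lit 2799260020)], (nat_lit 1271251), (nat_lit 1271251), (nat_lit 1271251), (nat_lit 1271251), (nat_lit 0), (nat_lit 2754376), [(nat_lit 1412501), (nat_lit 1271251), (nat_lit 1271251)], [(nat_lit 23), (nat_lit 62), (nat_lit 483), (nat_lit 250), (nat_lit 12)]⟩⟩)))) (.spl (nat_lit 2) (nat_lit 220) (.spl (nat_lit 2) (nat_lit 200) (.spl (nat_lit 0) (nat_lit 370) (.spl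 (nat_lit 6) (nat_lit 56) (.leaf ⟨(nat_lit 957), (nat_lit 0), (nat_lit 0), (nat_lit 43), (nat_lit 5778), (nat_lit 3159), (nat_lit 727), (nat_lit 598), (nat_lit 0), (nat_lit 4057), (nat_lit 483200), [((nat_lit 370), [((nat_lit 25), (nat_lit 1), (nat_lit 455)), ((nat_lit 41), (nat_lit 2), (nat_lit 502))])], ⟨(nat_lit 4), false, false, false, (nat_lit 138), (nat_lit 2738), (nat_lit 3163), [(nat_lit 1264456), (nat_lit 1270816), (nat_lit 1330884), (nat_lit 1338031), (nat_lit 1355914), (nat_lit 1359435), (nat_lit 1422342), (nat_lit 1426651)]⟩, ⟨(nat_lit 5), false, true, true, (nat_lit 220), (nat_lit 2738), (nat_lit 3163), [(nat_lit 1477844), (nat_lit 1477581), (nat_lit 1499999), (nat_lit 1499999), (nat_lit 1599750), (nat_lit 1595704), (nat_lit 1621905), (nat_lit 1618121)]⟩, (nat_lit 4488149), (nat_lit 45102442), (nat_lit 7140936), (nat_lit 14756622), (nat_lit 0), (nat_lit 0), [⟨(nat_lit 0), (nat_lit 100), (nat_lit 57), (nat_lit 85), (nat_lit 34017712)⟩, ⟨(nat_lit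 0), (nat_lit 100), (nat_lit 54), (nat_lit 96), (nat_lit 348745165)⟩], [], [⟨(nat_lit 0), (nat_lit 100), (nat_lit 98), (nat_lit 20), (nat_lit 16196461)⟩], [],
 ⟨⟨[(nat_lit 40), (nat_lit 80), (nat_lit 100)], [(nat_lit 0), (nat_lit 1598), (nat_lit 2533)], [((nat_lit 0), (nat_lit 0), (nat_lit 0)), ((nat_lit 1000), (nat_lit 625), (nat_lit 623)), ((nat_lit 1000), (nat_lit 604), (nat_lit 730))], ((nat_lit 61), (nat_lit 100), (nat_lit 70))⟩, (nat_lit 0), (nat_lit 133), (nat_lit 133), (nat_lit 0), (nat_lit 78421), [(nat_lit 1356094802), (nat_lit 658818973), (nat_lit 326537200)], [(nat_lit 0), (nat_lit 0), (nat_lit 0)], [(nat_lit 21089478382), (nat_lit 21728242156), (nat_lit 21186081176), (nat_lit 21785827718), (nat_lit 23837448180), (nat_lit 24554514566), (nat_lit 23682803787), (nat_lit 24202551644)], (nat_lit 1271251), (nat_lit 1271251), (nat_lit 356250), (nat_lit 780000), (nat_lit 1271251), (nat_lit 1271251), [(nat_lit 490000), (nat_lit 1100000), (nat_lit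 1442501)], [(nat_lit 3), (nat_lit 50), (nat_lit 238), (nat_lit 30), (nat_lit 8)]⟩,
 ⟨⟨[(nat_lit 120), (nat_lit 160), (nat_lit 180)], [(nat_lit 0), (nat_lit 533), (nat_lit 2066)], [((nat_lit 0), (nat_lit 0), (nat_lit 0)), ((nat_lit 960), (nat_lit 1000), (nat_lit 200)), ((nat_lit 615), (nat_lit 1000), (nat_lit 729))], ((nat_lit 100), (nat_lit 65), (nat_lit 70))⟩, (nat_lit 192968), (nat_lit 503), (nat_lit 503), (nat_lit 0), (nat_lit 172313), [(nat_lit 342624000), (nat_lit 510496000), (nat_lit 604494000)], [], [(nat_lit 2662068029), (nat_lit 1852670972), (nat_lit 1570843995), (nat_lit 1583791718), (nat_lit 2683248858), (nat_lit 1980044436), (nat_lit 2988494576), (nat_lit 2003829646)], (nat_lit 1271251), (nat_lit 1271251), (nat_lit 356250), (nat_lit 780000), (nat_lit 0), (nat_lit 2754376), [(nat_lit 1695001), (nat_lit 1271251), (nat_lit 1271251)], [(nat_lit 28), (nat_lit 65), (nat_lit 428), (nat_lit 200), (nat_lit 10)]⟩,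
 ⟨⟨[(nat_lit 120), (nat_lit 160), (nat_lit 180)], [(nat_lit 0), (nat_lit 533), (nat_lit 2066)], [((nat_lit 0), (nat_lit 0), (nat_lit 0)), ((nat_lit 960), (nat_lit 1000), (nat_lit 200)), ((nat_lit 615), (nat_lit 1000), (nat_lit 729))], ((nat_lit 100), (nat_lit 65), (nat_lit 70))⟩, (nat_lit 20585), (nat_lit 300), (nat_lit 607), (nat_lit 3122030), (nat_lit 527692), [(nat_lit 342624000), (nat_lit 510496000), (nat_lit 604494000)], [], [(nat_lit 2262534681), (nat_lit 2241225685), (nat_lit 2224781154), (nat_lit 2213205308), (nat_lit 3001738827), (nat_lit 2738570726), (nat_lit 1955530390), (nat_lit 1753162123)], (nat_lit 1271251), (nat_lit 1271251), (nat_lit 1271251), (nat_lit 1271251), (nat_lit 0), (nat_lit 2754376), [(nat_lit 1695001), (nat_lit 1271251), (nat_lit 1271251)], [(nat_lit 28), (nat_lit 65), (nat_lit 456), (nat_lit 225), (nat_lit 11)]⟩⟩) (.dle (nat_lit 0))) (.trZ (nat_lit 0) (nat_lit 1) (nat_lit 3) (nat_lit 100) (nat_lit 53) (nat_lit 80) (nat_lit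 70) (.leaf ⟨(nat_lit 1000), (nat_lit 0), (nat_lit 0), (nat_lit 0), (nat_lit 4010), (nat_lit 3327), (nat_lit 0), (nat_lit 0), (nat_lit 0), (nat_lit 24206), (nat_lit 250000), [((nat_lit 380), [((nat_lit 25), (nat_lit 0), (nat_lit 1000))])], ⟨(nat_lit 4), false, false, false, (nat_lit 144), (nat_lit 2236), (nat_lit 2739), [(nat_lit 1285540), (nat_lit 1291832), (nat_lit 1352731), (nat_lit 1360094), (nat_lit 1359410), (nat_lit 1363145), (nat_lit 1426601), (nat_lit 1431406)]⟩, ⟨(nat_lit 5), false, true, true, (nat_lit 219), (nat_lit 2236), (nat_lit 2739), [(nat_lit 1477581), (nat_lit 1477224), (nat_lit 1499999), (nat_lit 1499999), (nat_lit 1595704), (nat_lit 1591255), (nat_lit 1618121), (nat_lit 1614030)]⟩, (nat_lit 4536754), (nat_lit 44847552), (nat_lit 7531519), (nat_lit 14620929), (nat_lit 0), (nat_lit 0), [⟨(nat_lit 0), (nat_lit 100), (nat_lit 48), (nat_lit 90), (nat_lit 494611028)⟩], [], [], [],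
 ⟨⟨[(nat_lit 40), (nat_lit 80), (nat_lit 100)], [(nat_lit 0), (nat_lit 2008), (nat_lit 2969)], [((nat_lit 0), (nat_lit 0), (nat_lit 0)), ((nat_lit 1000), (nat_lit 540), (nat_lit 733)), ((nat_lit 1000), (nat_lit 536), (nat_lit 751))], ((nat_lit 53), (nat_lit 100), (nat_lit 76))⟩, (nat_lit 508329), (nat_lit 144), (nat_lit 144), (nat_lit 0), (nat_lit 124131), [(nat_lit 1528000004), (nat_lit 1826679484), (nat_lit 2118000000)], [(nat_lit 0), (nat_lit 0), (nat_lit 0)], [(nat_lit 21882792796), (nat_lit 22532327586), (nat_lit 22049643751), (nat_lit 22663760677), (nat_lit 24517173057), (nat_lit 25247965585), (nat_lit 24485715444), (nat_lit 25074091501)], (nat_lit 1271251), (nat_lit 1271251), (nat_lit 422188), (nat_lit 780000), (nat_lit 1271251), (nat_lit 1271251), [(nat_lit 490000), (nat_lit 1100000), (nat_lit 1442501)], [(nat_lit 3), (nat_lit 50), (nat_lit 238), (nat_lit 30), (nat_lit 8)]⟩,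
 Rw.none,
 Rw.none⟩))) (.ord (.trZ (nat_lit 0) (nat_lit 1) (nat_lit 3) (nat_lit 100) (nat_lit 60) (nat_lit 80) (nat_lit 80) (.spl (nat_lit 0) (nat_lit 370) (.spl (nat_lit 6) (nat_lit 56) (.leaf ⟨(nat_lit 931), (nat_lit 0), (nat_lit 0), (nat_lit 69), (nat_lit 4179), (nat_lit 3307), (nat_lit 983), (nat_lit 909), (nat_lit 0), (nat_lit 19621), (nat_lit 454200), [((nat_lit 370), [((nat_lit 25), (nat_lit 1), (nat_lit 522)), ((nat_lit 41), (nat_lit 2), (nat_lit 409))])], ⟨(nat_lit 5), false, false, false, (nat_lit 149), (nat_lit 2738), (nat_lit 3163), [(nat_lit 1317085), (nat_lit 1322761), (nat_lit 1361370), (nat_lit 1367571), (nat_lit 1378056), (nat_lit 1381840), (nat_lit 1422342), (nat_lit 1426651)]⟩, ⟨(nat_lit 5), false, true, true, (nat_lit 228), (nat_lit 2738), (nat_lit 3163), [(nat_lit 1499999), (nat_lit 1499999), (nat_lit 1522142), (nat_lit 1522405), (nat_lit 1621905), (nat_lit 1618121), (nat_lit 1644060), (nat_lit 1640539)]⟩, (nat_lit 4659191), (nat_lit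 43677292), (nat_lit 7859789), (nat_lit 15462919), (nat_lit 0), (nat_lit 0), [⟨(nat_lit 0), (nat_lit 100), (nat_lit 57), (nat_lit 88), (nat_lit 240714995)⟩], [], [⟨(nat_lit 0), (nat_lit 100), (nat_lit 100), (nat_lit 15), (nat_lit 8109828)⟩, ⟨(nat_lit 0), (nat_lit 100), (nat_lit 98), (nat_lit 30), (nat_lit 9288803)⟩], [],
 ⟨⟨[(nat_lit 40), (nat_lit 80), (nat_lit 100)], [(nat_lit 0), (nat_lit 1598), (nat_lit 2533)], [((nat_lit 0), (nat_lit 0), (nat_lit 0)), ((nat_lit 1000), (nat_lit 625), (nat_lit 623)), ((nat_lit 1000), (nat_lit 604), (nat_lit 730))], ((nat_lit 61), (nat_lit 100), (nat_lit 70))⟩, (nat_lit 504), (nat_lit 120), (nat_lit 120), (nat_lit 0), (nat_lit 83665), [(nat_lit 1375084402), (nat_lit 957794871), (nat_lit 616794800)], [(nat_lit 0), (nat_lit 0), (nat_lit 0)], [(nat_lit 20947156516), (nat_lit 21589892494), (nat_lit 21313726472), (nat_lit 21926132638), (nat_lit 23580717610), (nat_lit 24197211419), (nat_lit 23830785689), (nat_lit 24360206683)],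 (nat_lit 1271251), (nat_lit 1271251), (nat_lit 490000), (nat_lit 780000), (nat_lit 1271251), (nat_lit 1271251), [(nat_lit 490000), (nat_lit 1100000), (nat_lit 1442501)], [(nat_lit 3), (nat_lit 50), (nat_lit 238), (nat_lit 30), (nat_lit 8)]⟩,
 ⟨⟨[(nat_lit 100), (nat_lit 140), (nat_lit 180)], [(nat_lit 0), (nat_lit 0), (nat_lit 2434)], [((nat_lit 0), (nat_lit 0), (nat_lit 0)), ((nat_lit 0), (nat_lit 0), (nat_lit 0)), ((nat_lit 726), (nat_lit 1000), (nat_lit 688))], ((nat_lit 100), (nat_lit 72), (nat_lit 69))⟩, (nat_lit 369978), (nat_lit 457), (nat_lit 457), (nat_lit 0), (nat_lit 173856), [(nat_lit 431250000), (nat_lit 679098000), (nat_lit 970002000)], [], [(nat_lit 2956666300), (nat_lit 2265907224), (nat_lit 2543284481), (nat_lit 2141152332), (nat_lit 4887075068), (nat_lit 4022019831), (nat_lit 5252960409), (nat_lit 4398525750)], (nat_lit 1271251), (nat_lit 1271251), (nat_lit 490000), (nat_lit 780000), (nat_lit 0), (nat_lit 2754376), [(nat_lit 1412501),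 (nat_lit 1271251), (nat_lit 1271251)], [(nat_lit 24), (nat_lit 63), (nat_lit 428), (nat_lit 200), (nat_lit 10)]⟩,
 ⟨⟨[(nat_lit 100), (nat_lit 140), (nat_lit 180)], [(nat_lit 0), (nat_lit 0), (nat_lit 2434)], [((nat_lit 0), (nat_lit 0), (nat_lit 0)), ((nat_lit 0), (nat_lit 0), (nat_lit 0)), ((nat_lit 726), (nat_lit 1000), (nat_lit 688))], ((nat_lit 100), (nat_lit 72), (nat_lit 69))⟩, (nat_lit 39801), (nat_lit 300), (nat_lit 548), (nat_lit 4850703), (nat_lit 410568), [(nat_lit 431250000), (nat_lit 679098000), (nat_lit 970002000)], [], [(nat_lit 3589607625), (nat_lit 3558496349), (nat_lit 3531802911), (nat_lit 3494918237), (nat_lit 3513651868), (nat_lit 3103261945), (nat_lit 2795325323), (nat_lit 2772613008)], (nat_lit 1271251), (nat_lit 1271251), (nat_lit 1271251), (nat_lit 1271251), (nat_lit 0), (nat_lit 2754376), [(nat_lit 1412501), (nat_lit 1271251), (nat_lit 1271251)], [(nat_lit 24), (nat_lit 63), (nat_lit 456), (nat_lit 225), (nat_lit 11)]⟩⟩) (.dle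 (nat_lit 0))) (.trZ (nat_lit 0) (nat_lit 1) (nat_lit 3) (nat_lit 100) (nat_lit 53) (nat_lit 85) (nat_lit 90) (.leaf ⟨(nat_lit 939), (nat_lit 0), (nat_lit 0), (nat_lit 61), (nat_lit 2492), (nat_lit 3532), (nat_lit 514), (nat_lit 804), (nat_lit 0), (nat_lit 748598), (nat_lit 234750), [((nat_lit 380), [((nat_lit 25), (nat_lit 0), (nat_lit 939))])], ⟨(nat_lit 5), false, false, false, (nat_lit 154), (nat_lit 2236), (nat_lit 2739), [(nat_lit 1337485), (nat_lit 1343111), (nat_lit 1382279), (nat_lit 1388619), (nat_lit 1381807), (nat_lit 1385898), (nat_lit 1426601), (nat_lit 1431406)]⟩, ⟨(nat_lit 5), false, true, true, (nat_lit 228), (nat_lit 2236), (nat_lit 2739), [(nat_lit 1499999), (nat_lit 1499999), (nat_lit 1522397), (nat_lit 1522754), (nat_lit 1618121), (nat_lit 1614030), (nat_lit 1640539), (nat_lit 1636804)]⟩, (nat_lit 4704025), (nat_lit 43423608), (nat_lit 8244867), (nat_lit 15331525), (nat_lit 0), (nat_lit 0), [⟨(nat_lit 0), (nat_lit 100), (nat_lit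 49), (nat_lit 92), (nat_lit 348227967)⟩], [], [⟨(nat_lit 0), (nat_lit 100), (nat_lit 100), (nat_lit 15), (nat_lit 43767637)⟩], [],
 ⟨⟨[(nat_lit 40), (nat_lit 80), (nat_lit 100)], [(nat_lit 0), (nat_lit 2008), (nat_lit 2969)], [((nat_lit 0), (nat_lit 0), (nat_lit 0)), ((nat_lit 1000), (nat_lit 540), (nat_lit 733)), ((nat_lit 1000), (nat_lit 536), (nat_lit 751))], ((nat_lit 53), (nat_lit 100), (nat_lit 76))⟩, (nat_lit 490181), (nat_lit 134), (nat_lit 134), (nat_lit 0), (nat_lit 127948), [(nat_lit 1544470010), (nat_lit 2012273882), (nat_lit 2370052000)], [(nat_lit 0), (nat_lit 0), (nat_lit 0)], [(nat_lit 21912558015), (nat_lit 22568011349), (nat_lit 22139807589), (nat_lit 22771459805), (nat_lit 24512235544), (nat_lit 25251619067), (nat_lit 24600397513), (nat_lit 25312840958)], (nat_lit 1271251), (nat_lit 1271251), (nat_lit 559688), (nat_lit 780000), (nat_lit 1271251), (nat_lit 1271251), [(nat_lit 490000), (nat_lit 1100000), (nat_lit 1442501)], [(nat_lit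 3), (nat_lit 50), (nat_lit 238), (nat_lit 30), (nat_lit 8)]⟩,
 ⟨⟨[(nat_lit 100), (nat_lit 140), (nat_lit 180)], [(nat_lit 0), (nat_lit 0), (nat_lit 2434)], [((nat_lit 0), (nat_lit 0), (nat_lit 0)), ((nat_lit 0), (nat_lit 0), (nat_lit 0)), ((nat_lit 726), (nat_lit 1000), (nat_lit 688))], ((nat_lit 100), (nat_lit 66), (nat_lit 75))⟩, (nat_lit 0), (nat_lit 563), (nat_lit 563), (nat_lit 0), (nat_lit 322829), [(nat_lit 381250000), (nat_lit 600362000), (nat_lit 857538000)], [], [(nat_lit 3185131499), (nat_lit 2848388998), (nat_lit 2774218182), (nat_lit 2813915102), (nat_lit 2855489773), (nat_lit 2848709889), (nat_lit 2804679094), (nat_lit 2796611921)], (nat_lit 1271251), (nat_lit 1271251), (nat_lit 559688), (nat_lit 780000), (nat_lit 0), (nat_lit 2754376), [(nat_lit 1412501), (nat_lit 1271251), (nat_lit 1271251)], [(nat_lit 24), (nat_lit 63), (nat_lit 428), (nat_lit 200), (nat_lit 10)]⟩,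
 ⟨⟨[(nat_lit 100), (nat_lit 140), (nat_lit 180)], [(nat_lit 0), (nat_lit 0), (nat_lit 2434)], [((nat_lit 0), (nat_lit 0), (nat_lit 0)), ((nat_lit 0), (nat_lit 0), (nat_lit 0)), ((nat_lit 726), (nat_lit 1000), (nat_lit 688))], ((nat_lit 100), (nat_lit 66), (nat_lit 75))⟩, (nat_lit 35187), (nat_lit 300), (nat_lit 658), (nat_lit 4288300), (nat_lit 689077), [(nat_lit 381250000), (nat_lit 600362000), (nat_lit 857538000)], [], [(nat_lit 3172807735), (nat_lit 3145279719), (nat_lit 3121636825), (nat_lit 3089321561), (nat_lit 3106505256), (nat_lit 2743520110), (nat_lit 2471145037), (nat_lit 2451044642)], (nat_lit 1271251), (nat_lit 1271251), (nat_lit 1271251), (nat_lit 1271251), (nat_lit 0), (nat_lit 2754376), [(nat_lit 1412501), (nat_lit 1271251), (nat_lit 1271251)], [(nat_lit 24), (nat_lit 63), (nat_lit 456), (nat_lit 225), (nat_lit 11)]⟩⟩)))))) (.ord (.trZ (nat_lit 0) (nat_lit 1) (nat_lit 3) (nat_lit 100) (nat_lit 60) (nat_lit 86) (nat_lit 90) (.spl (nat_lit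 0) (nat_lit 370) (.spl (nat_lit 6) (nat_lit 56) (.leaf ⟨(nat_lit 879), (nat_lit 0), (nat_lit 0), (nat_lit 121), (nat_lit 4286), (nat_lit 3328), (nat_lit 702), (nat_lit 1197), (nat_lit 0), (nat_lit 2735716110649), (nat_lit 464000), [((nat_lit 370), [((nat_lit 25), (nat_lit 1), (nat_lit 317)), ((nat_lit 41), (nat_lit 2), (nat_lit 562))])], ⟨(nat_lit 5), false, false, false, (nat_lit 156), (nat_lit 2738), (nat_lit 3163), [(nat_lit 1354470), (nat_lit 1359935), (nat_lit 1376613), (nat_lit 1382341), (nat_lit 1400199), (nat_lit 1404246), (nat_lit 1422342), (nat_lit 1426651)]⟩, ⟨(nat_lit 5), false, true, true, (nat_lit 237), (nat_lit 2738), (nat_lit 3163), [(nat_lit 1522142), (nat_lit 1522405), (nat_lit 1544285), (nat_lit 1544810), (nat_lit 1644060), (nat_lit 1640539), (nat_lit 1666215), (nat_lit 1662956)]⟩, (nat_lit 4787209), (nat_lit 42471333), (nat_lit 8345525), (nat_lit 16183142), (nat_lit 0), (nat_lit 0), [⟨(nat_lit 0), (nat_lit 100), (nat_lit 57), (nat_lit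 91), (nat_lit 365248854)⟩], [], [⟨(nat_lit 0), (nat_lit 100), (nat_lit 100), (nat_lit 30), (nat_lit 74960620)⟩], [],
 ⟨⟨[(nat_lit 40), (nat_lit 80), (nat_lit 100)], [(nat_lit 0), (nat_lit 1598), (nat_lit 2533)], [((nat_lit 0), (nat_lit 0), (nat_lit 0)), ((nat_lit 1000), (nat_lit 625), (nat_lit 623)), ((nat_lit 1000), (nat_lit 604), (nat_lit 730))], ((nat_lit 61), (nat_lit 100), (nat_lit 70))⟩, (nat_lit 0), (nat_lit 121), (nat_lit 121), (nat_lit 0), (nat_lit 100179), [(nat_lit 1383231605), (nat_lit 1074905458), (nat_lit 644875600)], [(nat_lit 0), (nat_lit 0), (nat_lit 0)], [(nat_lit 21052945445), (nat_lit 21689993619), (nat_lit 21325644413), (nat_lit 21939846877), (nat_lit 23660484261), (nat_lit 24263559264), (nat_lit 23845589229), (nat_lit 24382576654)], (nat_lit 1271251), (nat_lit 1271251), (nat_lit 559688), (nat_lit 780000), (nat_lit 1271251), (nat_lit 1271251), [(nat_lit 490000), (nat_lit 1100000), (nat_lit 1442501)], [(nat_lit 3), (nat_lit 50),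 (nat_lit 238), (nat_lit 30), (nat_lit 8)]⟩,
 ⟨⟨[(nat_lit 100), (nat_lit 140), (nat_lit 180)], [(nat_lit 0), (nat_lit 508), (nat_lit 2854)], [((nat_lit 0), (nat_lit 0), (nat_lit 0)), ((nat_lit 1000), (nat_lit 1000), (nat_lit 198)), ((nat_lit 777), (nat_lit 1000), (nat_lit 712))], ((nat_lit 100), (nat_lit 79), (nat_lit 70))⟩, (nat_lit 421043), (nat_lit 460), (nat_lit 460), (nat_lit 0), (nat_lit 204516), [(nat_lit 756250000), (nat_lit 1190882000), (nat_lit 1701018000)], [], [(nat_lit 5196547890), (nat_lit 4818089774), (nat_lit 4639658573), (nat_lit 4634160164), (nat_lit 5065716843), (nat_lit 5080534570), (nat_lit 5026310910), (nat_lit 5039797802)], (nat_lit 1271251), (nat_lit 1271251), (nat_lit 559688), (nat_lit 780000), (nat_lit 0), (nat_lit 2754376), [(nat_lit 1412501), (nat_lit 1271251), (nat_lit 1271251)], [(nat_lit 24), (nat_lit 63), (nat_lit 428), (nat_lit 200), (nat_lit 10)]⟩,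
 ⟨⟨[(nat_lit 100), (nat_lit 140), (nat_lit 180)], [(nat_lit 0), (nat_lit 508), (nat_lit 2854)], [((nat_lit 0), (nat_lit 0), (nat_lit 0)), ((nat_lit 1000), (nat_lit 1000), (nat_lit 198)), ((nat_lit 777), (nat_lit 1000), (nat_lit 712))], ((nat_lit 100), (nat_lit 79), (nat_lit 70))⟩, (nat_lit 77190), (nat_lit 300), (nat_lit 480), (nat_lit 8226211), (nat_lit 365186), [(nat_lit 756250000), (nat_lit 1190882000), (nat_lit 1701018000)], [], [(nat_lit 6140857704), (nat_lit 6128097744), (nat_lit 6176699760), (nat_lit 6167213262), (nat_lit 5389656771), (nat_lit 5353292628), (nat_lit 5324716258), (nat_lit 5281096448)], (nat_lit 1271251), (nat_lit 1271251), (nat_lit 1271251), (nat_lit 1271251), (nat_lit 0), (nat_lit 2754376), [(nat_lit 1412501), (nat_lit 1271251), (nat_lit 1271251)], [(nat_lit 24), (nat_lit 63), (nat_lit 483), (nat_lit 250), (nat_lit 11)]⟩⟩) (.dle (nat_lit 0))) (.trZ (nat_lit 0) (nat_lit 1) (nat_lit 3) (nat_lit 100) (nat_lit 53) (nat_lit 90) (nat_lit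 110) (.leaf ⟨(nat_lit 921), (nat_lit 0), (nat_lit 0), (nat_lit 79), (nat_lit 3968), (nat_lit 3539), (nat_lit 665), (nat_lit 1018), (nat_lit 0), (nat_lit 3896610171016), (nat_lit 230250), [((nat_lit 380), [((nat_lit 25), (nat_lit 0), (nat_lit 921))])], ⟨(nat_lit 5), false, false, false, (nat_lit 164), (nat_lit 2236), (nat_lit 2739), [(nat_lit 1389430), (nat_lit 1394390), (nat_lit 1411827), (nat_lit 1417144), (nat_lit 1404204), (nat_lit 1408652), (nat_lit 1426601), (nat_lit 1431406)]⟩, ⟨(nat_lit 5), false, true, true, (nat_lit 237), (nat_lit 2236), (nat_lit 2739), [(nat_lit 1522397), (nat_lit 1522754), (nat_lit 1544794), (nat_lit 1545508), (nat_lit 1640539), (nat_lit 1636804), (nat_lit 1662956), (nat_lit 1659578)]⟩, (nat_lit 4856664), (nat_lit 42035437), (nat_lit 8951588), (nat_lit 16012975), (nat_lit 0), (nat_lit 0), [⟨(nat_lit 0), (nat_lit 100), (nat_lit 53), (nat_lit 90), (nat_lit 671356292)⟩], [], [⟨(nat_lit 0), (nat_lit 100), (nat_lit 100), (nat_lit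 20), (nat_lit 56022299)⟩], [],
 ⟨⟨[(nat_lit 40), (nat_lit 80), (nat_lit 100)], [(nat_lit 0), (nat_lit 2008), (nat_lit 2969)], [((nat_lit 0), (nat_lit 0), (nat_lit 0)), ((nat_lit 1000), (nat_lit 540), (nat_lit 733)), ((nat_lit 1000), (nat_lit 536), (nat_lit 751))], ((nat_lit 53), (nat_lit 100), (nat_lit 76))⟩, (nat_lit 512416), (nat_lit 132), (nat_lit 132), (nat_lit 0), (nat_lit 142826), [(nat_lit 1549330006), (nat_lit 2045874412), (nat_lit 2444428000)], [(nat_lit 0), (nat_lit 0), (nat_lit 0)], [(nat_lit 22069606419), (nat_lit 22709802035), (nat_lit 22145097738), (nat_lit 22777348720), (nat_lit 24578483924), (nat_lit 25300956935), (nat_lit 24607341609), (nat_lit 25320993379)], (nat_lit 1271251), (nat_lit 1271251), (nat_lit 704688), (nat_lit 780000), (nat_lit 1271251), (nat_lit 1271251), [(nat_lit 490000), (nat_lit 1100000), (nat_lit 1442501)], [(nat_lit 3), (nat_lit 50), (nat_lit 238), (nat_lit 30), (nat_lit 8)]⟩,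
 ⟨⟨[(nat_lit 100), (nat_lit 140), (nat_lit 180)], [(nat_lit 0), (nat_lit 508), (nat_lit 2854)], [((nat_lit 0), (nat_lit 0), (nat_lit 0)), ((nat_lit 1000), (nat_lit 1000), (nat_lit 198)), ((nat_lit 777), (nat_lit 1000), (nat_lit 712))], ((nat_lit 100), (nat_lit 74), (nat_lit 76))⟩, (nat_lit 111812), (nat_lit 548), (nat_lit 548), (nat_lit 0), (nat_lit 326377), [(nat_lit 493750000), (nat_lit 777518000), (nat_lit 1110582000)], [], [(nat_lit 3413231125), (nat_lit 3283427350), (nat_lit 3238243435), (nat_lit 3268575758), (nat_lit 3274180059), (nat_lit 3269269258), (nat_lit 3252002796), (nat_lit 3246814295)], (nat_lit 1271251), (nat_lit 1271251), (nat_lit 704688), (nat_lit 780000), (nat_lit 0), (nat_lit 2754376), [(nat_lit 1412501), (nat_lit 1271251), (nat_lit 1271251)], [(nat_lit 24), (nat_lit 63), (nat_lit 428), (nat_lit 200), (nat_lit 10)]⟩,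
 ⟨⟨[(nat_lit 100), (nat_lit 140), (nat_lit 180)], [(nat_lit 0), (nat_lit 508), (nat_lit 2854)], [((nat_lit 0), (nat_lit 0), (nat_lit 0)), ((nat_lit 1000), (nat_lit 1000), (nat_lit 198)), ((nat_lit 777), (nat_lit 1000), (nat_lit 712))], ((nat_lit 100), (nat_lit 74), (nat_lit 76))⟩, (nat_lit 50397), (nat_lit 300), (nat_lit 612), (nat_lit 5370831), (nat_lit 588663), [(nat_lit 493750000), (nat_lit 777518000), (nat_lit 1110582000)], [], [(nat_lit 4012422840), (nat_lit 3978188314), (nat_lit 3943800870), (nat_lit 3926543668), (nat_lit 3549718000), (nat_lit 3106559907), (nat_lit 3147596538), (nat_lit 3122835695)], (nat_lit 1271251), (nat_lit 1271251), (nat_lit 1271251), (nat_lit 1271251), (nat_lit 0), (nat_lit 2754376), [(nat_lit 1412501), (nat_lit 1271251), (nat_lit 1271251)], [(nat_lit 24), (nat_lit 63), (nat_lit 483), (nat_lit 250), (nat_lit 11)]⟩⟩)))))))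
noncomputable def c16_6 : Tr Lf :=
 (.stt (nat_lit 3) (.leaf ⟨(nat_lit 0), (nat_lit 0), (nat_lit 880), (nat_lit 120), (nat_lit 0), (nat_lit 4782), (nat_lit 1717), (nat_lit 14710), (nat_lit 0), (nat_lit 48913), (nat_lit 0), [], Pd.none, Pd.none, (nat_lit 0), (nat_lit 1), (nat_lit 0), (nat_lit 0), (nat_lit 0), (nat_lit 4), [⟨(nat_lit 0), (nat_lit 100), (nat_lit 53), (nat_lit 88), (nat_lit 433181684)⟩], [⟨(nat_lit 1), (nat_lit 82), (nat_lit 53), (nat_lit 100), (nat_lit 215134124)⟩], [], [⟨(nat_lit 0), (nat_lit 98), (nat_lit 100), (nat_lit 4), (nat_lit 54616087)⟩],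
 ⟨⟨[(nat_lit 40), (nat_lit 60), (nat_lit 80)], [(nat_lit 0), (nat_lit 832), (nat_lit 1534)], [((nat_lit 0), (nat_lit 0), (nat_lit 0)), ((nat_lit 1000), (nat_lit 659), (nat_lit 528)), ((nat_lit 1000), (nat_lit 650), (nat_lit 549))], ((nat_lit 63), (nat_lit 100), (nat_lit 60))⟩, (nat_lit 956052), (nat_lit 217), (nat_lit 217), (nat_lit 0), (nat_lit 377210), [(nat_lit 2032000013), (nat_lit 3282000026), (nat_lit 4688000000)], [], [(nat_lit 26147318416), (nat_lit 27931472034), (nat_lit 25254030147), (nat_lit 26768630333), (nat_lit 30547990792), (nat_lit 32014279354), (nat_lit 29252898860), (nat_lit 30635811124)], (nat_lit 1271251), (nat_lit 1271251), (nat_lit 356250), (nat_lit 780000), (nat_lit 1271251), (nat_lit 1271251), [(nat_lit 490000), (nat_lit 780000), (nat_lit 1100000)], [(nat_lit 2), (nat_lit 44), (nat_lit 238), (nat_lit 30), (nat_lit 9)]⟩,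
 ⟨⟨[(nat_lit 120), (nat_lit 160), (nat_lit 180)], [(nat_lit 0), (nat_lit 533), (nat_lit 2066)], [((nat_lit 0), (nat_lit 0), (nat_lit 0)), ((nat_lit 960), (nat_lit 1000), (nat_lit 200)), ((nat_lit 615), (nat_lit 1000), (nat_lit 729))], ((nat_lit 100), (nat_lit 76), (nat_lit 58))⟩, (nat_lit 496024), (nat_lit 1029), (nat_lit 1029), (nat_lit 0), (nat_lit 1271478), [(nat_lit 956160000), (nat_lit 1424640000), (nat_lit 1686960000)], [], [(nat_lit 6949982347), (nat_lit 5179483907), (nat_lit 4650835664), (nat_lit 4599172094), (nat_lit 6584021442), (nat_lit 4265466524), (nat_lit 7296499172), (nat_lit 4932515329)], (nat_lit 1271251), (nat_lit 1271251), (nat_lit 356250), (nat_lit 780000), (nat_lit 0), (nat_lit 2401251), [(nat_lit 1695001), (nat_lit 1271251), (nat_lit 1271251)], [(nat_lit 28), (nat_lit 65), (nat_lit 401), (nat_lit 175), (nat_lit 10)]⟩,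
 ⟨⟨[(nat_lit 120), (nat_lit 160), (nat_lit 180)], [(nat_lit 0), (nat_lit 533), (nat_lit 2066)], [((nat_lit 0), (nat_lit 0), (nat_lit 0)), ((nat_lit 960), (nat_lit 1000), (nat_lit 200)), ((nat_lit 615), (nat_lit 1000), (nat_lit 729))], ((nat_lit 100), (nat_lit 76), (nat_lit 58))⟩, (nat_lit 2036256), (nat_lit 300), (nat_lit 309), (nat_lit 67416723), (nat_lit 0), [(nat_lit 7968000000), (nat_lit 11872000000), (nat_lit 14058000000)], [], [(nat_lit 45308554641), (nat_lit 45148688290), (nat_lit 49859598277), (nat_lit 49847226984), (nat_lit 33909547206), (nat_lit 33191040549), (nat_lit 37693319744), (nat_lit 38002473284)], (nat_lit 0), (nat_lit 0), (nat_lit 0), (nat_lit 0), (nat_lit 0), (nat_lit 0), [], [(nat_lit 28), (nat_lit 65), (nat_lit 483), (nat_lit 250), (nat_lit 11)]⟩⟩) (.spl (nat_lit 2) (nat_lit 220) (.trX (nat_lit 4) (nat_lit 0) (nat_lit 2) (nat_lit 60) (nat_lit 74) (nat_lit 100) (nat_lit 340) (.spl (nat_lit 2) (nat_lit 200) (.trX (nat_lit 4) (nat_lit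 0) (nat_lit 2) (nat_lit 60) (nat_lit 80) (nat_lit 100) (nat_lit 320) (.leaf ⟨(nat_lit 969), (nat_lit 0), (nat_lit 0), (nat_lit 31), (nat_lit 0), (nat_lit 3363), (nat_lit 482), (nat_lit 372), (nat_lit 0), (nat_lit 1670), (nat_lit 336000), [((nat_lit 380), [((nat_lit 24), (nat_lit 0), (nat_lit 344)), ((nat_lit 24), (nat_lit 1), (nat_lit 625))])], ⟨(nat_lit 4), false, false, false, (nat_lit 139), (nat_lit 2236), (nat_lit 3163), [(nat_lit 1264208), (nat_lit 1277371), (nat_lit 1330482), (nat_lit 1345503), (nat_lit 1355794), (nat_lit 1363050), (nat_lit 1422068), (nat_lit 1431182)]⟩, ⟨(nat_lit 7), false, true, true, (nat_lit 254), (nat_lit 2236), (nat_lit 3163), [(nat_lit 1599750), (nat_lit 1591255), (nat_lit 1621905), (nat_lit 1614030), (nat_lit 1660704), (nat_lit 1648271), (nat_lit 1682859), (nat_lit 1671045)]⟩, (nat_lit 4713526), (nat_lit 42027658), (nat_lit 6949644), (nat_lit 18022698), (nat_lit 0), (nat_lit 0), [⟨(nat_lit 0), (nat_lit 100), (nat_lit 53),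 (nat_lit 88), (nat_lit 235969680)⟩], [⟨(nat_lit 1), (nat_lit 80), (nat_lit 60), (nat_lit 100), (nat_lit 247214453)⟩], [⟨(nat_lit 0), (nat_lit 100), (nat_lit 98), (nat_lit 20), (nat_lit 21465153)⟩], [],
 ⟨⟨[(nat_lit 40), (nat_lit 60), (nat_lit 80)], [(nat_lit 0), (nat_lit 832), (nat_lit 1534)], [((nat_lit 0), (nat_lit 0), (nat_lit 0)), ((nat_lit 1000), (nat_lit 659), (nat_lit 528)), ((nat_lit 1000), (nat_lit 650), (nat_lit 549))], ((nat_lit 63), (nat_lit 100), (nat_lit 60))⟩, (nat_lit 0), (nat_lit 166), (nat_lit 166), (nat_lit 0), (nat_lit 207764), [(nat_lit 1440819601), (nat_lit 1253753819), (nat_lit 1328554400)], [(nat_lit 0), (nat_lit 0), (nat_lit 0)], [(nat_lit 24127783071), (nat_lit 25605911070), (nat_lit 24104083049), (nat_lit 25170669299), (nat_lit 26103694783), (nat_lit 27442366600), (nat_lit 25601179863), (nat_lit 26865620260)], (nat_lit 1271251), (nat_lit 1271251), (nat_lit 356250), (nat_lit 780000), (nat_lit 1271251), (nat_lit 1271251), [(nat_lit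 490000), (nat_lit 780000), (nat_lit 1100000)], [(nat_lit 2), (nat_lit 44), (nat_lit 238), (nat_lit 30), (nat_lit 9)]⟩,
 ⟨⟨[(nat_lit 120), (nat_lit 160), (nat_lit 180)], [(nat_lit 0), (nat_lit 533), (nat_lit 2066)], [((nat_lit 0), (nat_lit 0), (nat_lit 0)), ((nat_lit 960), (nat_lit 1000), (nat_lit 200)), ((nat_lit 615), (nat_lit 1000), (nat_lit 729))], ((nat_lit 100), (nat_lit 76), (nat_lit 58))⟩, (nat_lit 214268), (nat_lit 672), (nat_lit 672), (nat_lit 0), (nat_lit 493198), [(nat_lit 247008000), (nat_lit 368032000), (nat_lit 435798000)], [], [(nat_lit 1854466243), (nat_lit 1234378720), (nat_lit 1093457771), (nat_lit 1079757826), (nat_lit 1730897784), (nat_lit 1058696266), (nat_lit 1926352199), (nat_lit 1262729477)], (nat_lit 1271251), (nat_lit 1271251), (nat_lit 356250), (nat_lit 780000), (nat_lit 0), (nat_lit 2401251), [(nat_lit 1695001), (nat_lit 1271251), (nat_lit 1271251)], [(nat_lit 28), (nat_lit 65), (nat_lit 401), (nat_lit 175), (nat_lit 10)]⟩,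
 ⟨⟨[(nat_lit 120), (nat_lit 160), (nat_lit 180)], [(nat_lit 0), (nat_lit 533), (nat_lit 2066)], [((nat_lit 0), (nat_lit 0), (nat_lit 0)), ((nat_lit 960), (nat_lit 1000), (nat_lit 200)), ((nat_lit 615), (nat_lit 1000), (nat_lit 729))], ((nat_lit 100), (nat_lit 76), (nat_lit 58))⟩, (nat_lit 72585), (nat_lit 300), (nat_lit 1453), (nat_lit 2058402), (nat_lit 2438733), [(nat_lit 247008000), (nat_lit 368032000), (nat_lit 435798000)], [], [(nat_lit 1598893738), (nat_lit 1584730411), (nat_lit 1604190754), (nat_lit 1588621996), (nat_lit 1259995217), (nat_lit 1200991568), (nat_lit 1222152687), (nat_lit 1207455463)], (nat_lit 1271251), (nat_lit 1271251), (nat_lit 1271251), (nat_lit 1271251), (nat_lit 0), (nat_lit 2401251), [(nat_lit 1695001), (nat_lit 1271251), (nat_lit 1271251)], [(nat_lit 28), (nat_lit 65), (nat_lit 471), (nat_lit 225), (nat_lit 11)]⟩⟩)) (.ord (.trZ (nat_lit 0) (nat_lit 1) (nat_lit 3) (nat_lit 100) (nat_lit 60) (nat_lit 80) (nat_lit 80) (.leaf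 ⟨(nat_lit 949), (nat_lit 0), (nat_lit 0), (nat_lit 51), (nat_lit 0), (nat_lit 3070), (nat_lit 918), (nat_lit 572), (nat_lit 0), (nat_lit 158407), (nat_lit 432200), [((nat_lit 380), [((nat_lit 24), (nat_lit 1), (nat_lit 686)), ((nat_lit 41), (nat_lit 2), (nat_lit 263))])], ⟨(nat_lit 5), false, false, false, (nat_lit 150), (nat_lit 2236), (nat_lit 3163), [(nat_lit 1316827), (nat_lit 1328641), (nat_lit 1361011), (nat_lit 1374063), (nat_lit 1377885), (nat_lit 1385761), (nat_lit 1422068), (nat_lit 1431182)]⟩, ⟨(nat_lit 7), false, true, true, (nat_lit 269), (nat_lit 2236), (nat_lit 3163), [(nat_lit 1621905), (nat_lit 1614030), (nat_lit 1644060), (nat_lit 1636804), (nat_lit 1713335), (nat_lit 1699553), (nat_lit 1735490), (nat_lit 1722327)]⟩, (nat_lit 4882067), (nat_lit 40212580), (nat_lit 7556288), (nat_lit 19231132), (nat_lit 0), (nat_lit 0), [⟨(nat_lit 0), (nat_lit 100), (nat_lit 53), (nat_lit 90), (nat_lit 151867271)⟩], [⟨(nat_lit 1), (nat_lit 74), (nat_lit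 60), (nat_lit 100), (nat_lit 247640586)⟩], [⟨(nat_lit 0), (nat_lit 100), (nat_lit 98), (nat_lit 30), (nat_lit 13212921)⟩], [],
 ⟨⟨[(nat_lit 40), (nat_lit 60), (nat_lit 80)], [(nat_lit 0), (nat_lit 832), (nat_lit 1534)], [((nat_lit 0), (nat_lit 0), (nat_lit 0)), ((nat_lit 1000), (nat_lit 659), (nat_lit 528)), ((nat_lit 1000), (nat_lit 650), (nat_lit 549))], ((nat_lit 63), (nat_lit 100), (nat_lit 60))⟩, (nat_lit 0), (nat_lit 155), (nat_lit 155), (nat_lit 0), (nat_lit 203231), [(nat_lit 1376061219), (nat_lit 1067072676), (nat_lit 879920000)], [(nat_lit 0), (nat_lit 0), (nat_lit 0)], [(nat_lit 23692491478), (nat_lit 24766850298), (nat_lit 24032629823), (nat_lit 25059033101), (nat_lit 26241396075), (nat_lit 27448043573), (nat_lit 26357789207), (nat_lit 27512353350)], (nat_lit 1271251), (nat_lit 1271251), (nat_lit 490000), (nat_lit 780000), (nat_lit 1271251), (nat_lit 1271251), [(nat_lit 490000), (nat_lit 780000), (nat_lit 1100000)], [(nat_lit 2), (nat_lit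 44), (nat_lit 238), (nat_lit 30), (nat_lit 9)]⟩,
 ⟨⟨[(nat_lit 100), (nat_lit 140), (nat_lit 160)], [(nat_lit 0), (nat_lit 0), (nat_lit 1280)], [((nat_lit 0), (nat_lit 0), (nat_lit 0)), ((nat_lit 0), (nat_lit 0), (nat_lit 0)), ((nat_lit 800), (nat_lit 1000), (nat_lit 600))], ((nat_lit 100), (nat_lit 82), (nat_lit 57))⟩, (nat_lit 294992), (nat_lit 531), (nat_lit 531), (nat_lit 0), (nat_lit 430742), [(nat_lit 318750000), (nat_lit 501942000), (nat_lit 605472000)], [], [(nat_lit 2276174880), (nat_lit 1519759976), (nat_lit 1810940538), (nat_lit 1428570038), (nat_lit 3518129430), (nat_lit 2697296976), (nat_lit 3831586905), (nat_lit 3021004380)], (nat_lit 1271251), (nat_lit 1271251), (nat_lit 490000), (nat_lit 780000), (nat_lit 0), (nat_lit 2401251), [(nat_lit 1412501), (nat_lit 1271251), (nat_lit 1271251)], [(nat_lit 23), (nat_lit 62), (nat_lit 401), (nat_lit 175), (nat_lit 11)]⟩,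
 ⟨⟨[(nat_lit 100), (nat_lit 140), (nat_lit 160)], [(nat_lit 0), (nat_lit 0), (nat_lit 1280)], [((nat_lit 0), (nat_lit 0), (nat_lit 0)), ((nat_lit 0), (nat_lit 0), (nat_lit 0)), ((nat_lit 800), (nat_lit 1000), (nat_lit 600))], ((nat_lit 100), (nat_lit 82), (nat_lit 57))⟩, (nat_lit 24863), (nat_lit 300), (nat_lit 1164), (nat_lit 3585300), (nat_lit 1969538), [(nat_lit 318750000), (nat_lit 501942000), (nat_lit 605472000)], [], [(nat_lit 2433182488), (nat_lit 2413565355), (nat_lit 2454819381), (nat_lit 2439534440), (nat_lit 1878910227), (nat_lit 1858053286), (nat_lit 1913667275), (nat_lit 1896709737)], (nat_lit 1271251), (nat_lit 1271251), (nat_lit 1271251), (nat_lit 1271251), (nat_lit 0), (nat_lit 2401251), [(nat_lit 1412501), (nat_lit 1271251), (nat_lit 1271251)], [(nat_lit 23), (nat_lit 62), (nat_lit 456), (nat_lit 225), (nat_lit 11)]⟩⟩))))) (.ord (.trZ (nat_lit 0) (nat_lit 1) (nat_lit 3) (nat_lit 100) (nat_lit 60) (nat_lit 86) (nat_lit 90) (.spl (nat_lit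 4) (nat_lit 320) (.leaf ⟨(nat_lit 939), (nat_lit 0), (nat_lit 0), (nat_lit 61), (nat_lit 0), (nat_lit 3127), (nat_lit 563), (nat_lit 632), (nat_lit 0), (nat_lit 1440303970614), (nat_lit 448400), [((nat_lit 380), [((nat_lit 24), (nat_lit 1), (nat_lit 575)), ((nat_lit 41), (nat_lit 2), (nat_lit 364))])], ⟨(nat_lit 5), false, false, false, (nat_lit 157), (nat_lit 2236), (nat_lit 3163), [(nat_lit 1354183), (nat_lit 1365632), (nat_lit 1376275), (nat_lit 1388342), (nat_lit 1399976), (nat_lit 1408471), (nat_lit 1422068), (nat_lit 1431182)]⟩, ⟨(nat_lit 7), false, true, true, (nat_lit 272), (nat_lit 2236), (nat_lit 3163), [(nat_lit 1644060), (nat_lit 1636804), (nat_lit 1666215), (nat_lit 1659578), (nat_lit 1705013), (nat_lit 1693819), (nat_lit 1727168), (nat_lit 1716594)]⟩, (nat_lit 4962447), (nat_lit 39563349), (nat_lit 8059386), (nat_lit 19377265), (nat_lit 0), (nat_lit 0), [⟨(nat_lit 0), (nat_lit 100), (nat_lit 53), (nat_lit 93), (nat_lit 294536561)⟩], [],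 [⟨(nat_lit 0), (nat_lit 100), (nat_lit 100), (nat_lit 30), (nat_lit 45503973)⟩], [],
 ⟨⟨[(nat_lit 40), (nat_lit 60), (nat_lit 80)], [(nat_lit 0), (nat_lit 832), (nat_lit 1534)], [((nat_lit 0), (nat_lit 0), (nat_lit 0)), ((nat_lit 1000), (nat_lit 659), (nat_lit 528)), ((nat_lit 1000), (nat_lit 650), (nat_lit 549))], ((nat_lit 63), (nat_lit 100), (nat_lit 60))⟩, (nat_lit 0), (nat_lit 140), (nat_lit 140), (nat_lit 0), (nat_lit 207870), [(nat_lit 1372039611), (nat_lit 1054197831), (nat_lit 815528800)], [(nat_lit 0), (nat_lit 0), (nat_lit 0)], [(nat_lit 23612782593), (nat_lit 24715573825), (nat_lit 23861622771), (nat_lit 24895843214), (nat_lit 25214369326), (nat_lit 26480842129), (nat_lit 25328481627), (nat_lit 26552493926)], (nat_lit 1271251), (nat_lit 1271251), (nat_lit 559688), (nat_lit 780000), (nat_lit 1271251), (nat_lit 1271251), [(nat_lit 490000), (nat_lit 780000), (nat_lit 1100000)], [(nat_lit 2), (nat_lit 44), (nat_lit 238), (nat_lit 30), (nat_lit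 9)]⟩,
 ⟨⟨[(nat_lit 100), (nat_lit 140), (nat_lit 160)], [(nat_lit 0), (nat_lit 508), (nat_lit 1689)], [((nat_lit 0), (nat_lit 0), (nat_lit 0)), ((nat_lit 1000), (nat_lit 1000), (nat_lit 198)), ((nat_lit 811), (nat_lit 1000), (nat_lit 671))], ((nat_lit 100), (nat_lit 88), (nat_lit 58))⟩, (nat_lit 196940), (nat_lit 507), (nat_lit 507), (nat_lit 0), (nat_lit 398345), [(nat_lit 381250000), (nat_lit 600362000), (nat_lit 724192000)], [], [(nat_lit 2996257764), (nat_lit 2692736511), (nat_lit 2549635705), (nat_lit 2250132798), (nat_lit 2124635677), (nat_lit 2093265325), (nat_lit 2279151194), (nat_lit 2044595720)], (nat_lit 1271251), (nat_lit 1271251), (nat_lit 559688), (nat_lit 780000), (nat_lit 0), (nat_lit 2401251), [(nat_lit 1412501), (nat_lit 1271251), (nat_lit 1271251)], [(nat_lit 23), (nat_lit 62), (nat_lit 401), (nat_lit 175), (nat_lit 11)]⟩,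
 ⟨⟨[(nat_lit 100), (nat_lit 140), (nat_lit 160)], [(nat_lit 0), (nat_lit 508), (nat_lit 1689)], [((nat_lit 0), (nat_lit 0), (nat_lit 0)), ((nat_lit 1000), (nat_lit 1000), (nat_lit 198)), ((nat_lit 811), (nat_lit 1000), (nat_lit 671))], ((nat_lit 100), (nat_lit 88), (nat_lit 58))⟩, (nat_lit 131126), (nat_lit 300), (nat_lit 1016), (nat_lit 3812500), (nat_lit 1660690), [(nat_lit 381250000), (nat_lit 600362000), (nat_lit 724192000)], [], [(nat_lit 2752384915), (nat_lit 2732192642), (nat_lit 2757611839), (nat_lit 2735387564), (nat_lit 2164161855), (nat_lit 2142581880), (nat_lit 2177543055), (nat_lit 2162292918)], (nat_lit 1271251), (nat_lit 1271251), (nat_lit 1271251), (nat_lit 1271251), (nat_lit 0), (nat_lit 2401251), [(nat_lit 1412501), (nat_lit 1271251), (nat_lit 1271251)], [(nat_lit 23), (nat_lit 62), (nat_lit 456), (nat_lit 225), (nat_lit 11)]⟩⟩) (.trX (nat_lit 5) (nat_lit 4) (nat_lit 3) (nat_lit 87) (nat_lit 95) (nat_lit 100) (nat_lit 300) (.leaf ⟨(nat_lit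 931), (nat_lit 0), (nat_lit 0), (nat_lit 69), (nat_lit 0), (nat_lit 3046), (nat_lit 630), (nat_lit 692), (nat_lit 0), (nat_lit 2407625508576), (nat_lit 430800), [((nat_lit 380), [((nat_lit 24), (nat_lit 1), (nat_lit 639)), ((nat_lit 41), (nat_lit 2), (nat_lit 292))])], ⟨(nat_lit 5), false, false, false, (nat_lit 157), (nat_lit 2236), (nat_lit 3163), [(nat_lit 1354183), (nat_lit 1365632), (nat_lit 1376275), (nat_lit 1388342), (nat_lit 1399976), (nat_lit 1408471), (nat_lit 1422068), (nat_lit 1431182)]⟩, ⟨(nat_lit 8), false, true, true, (nat_lit 293), (nat_lit 2236), (nat_lit 3163), [(nat_lit 1705013), (nat_lit 1693819), (nat_lit 1727168), (nat_lit 1716594), (nat_lit 1750729), (nat_lit 1736581), (nat_lit 1772883), (nat_lit 1759355)]⟩, (nat_lit 5027199), (nat_lit 37928350), (nat_lit 7831380), (nat_lit 21240270), (nat_lit 0), (nat_lit 0), [⟨(nat_lit 0), (nat_lit 100), (nat_lit 60), (nat_lit 86), (nat_lit 274772625)⟩], [⟨(nat_lit 1), (nat_lit 68), (nat_lit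 61), (nat_lit 100), (nat_lit 267624923)⟩], [⟨(nat_lit 0), (nat_lit 100), (nat_lit 100), (nat_lit 40), (nat_lit 54522495)⟩], [],
 ⟨⟨[(nat_lit 40), (nat_lit 60), (nat_lit 80)], [(nat_lit 0), (nat_lit 832), (nat_lit 1534)], [((nat_lit 0), (nat_lit 0), (nat_lit 0)), ((nat_lit 1000), (nat_lit 659), (nat_lit 528)), ((nat_lit 1000), (nat_lit 650), (nat_lit 549))], ((nat_lit 63), (nat_lit 100), (nat_lit 60))⟩, (nat_lit 0), (nat_lit 158), (nat_lit 158), (nat_lit 0), (nat_lit 207870), [(nat_lit 1381290848), (nat_lit 1102357412), (nat_lit 917916000)], [(nat_lit 0), (nat_lit 0), (nat_lit 0)], [(nat_lit 25370126117), (nat_lit 26359669156), (nat_lit 25578384294), (nat_lit 26521361533), (nat_lit 26798993385), (nat_lit 27957563536), (nat_lit 26872428489), (nat_lit 27993568346)], (nat_lit 1271251), (nat_lit 1271251), (nat_lit 559688), (nat_lit 780000), (nat_lit 1271251), (nat_lit 1271251), [(nat_lit 490000), (nat_lit 780000), (nat_lit 1100000)], [(nat_lit 2), (nat_lit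 44), (nat_lit 238), (nat_lit 30), (nat_lit 9)]⟩,
 ⟨⟨[(nat_lit 100), (nat_lit 140), (nat_lit 160)], [(nat_lit 0), (nat_lit 508), (nat_lit 1689)], [((nat_lit 0), (nat_lit 0), (nat_lit 0)), ((nat_lit 1000), (nat_lit 1000), (nat_lit 198)), ((nat_lit 811), (nat_lit 1000), (nat_lit 671))], ((nat_lit 100), (nat_lit 88), (nat_lit 58))⟩, (nat_lit 228086), (nat_lit 507), (nat_lit 507), (nat_lit 0), (nat_lit 398345), [(nat_lit 431250000), (nat_lit 679098000), (nat_lit 819168000)], [], [(nat_lit 3376900369), (nat_lit 3037258470), (nat_lit 2877127905), (nat_lit 2542696494), (nat_lit 2286360825), (nat_lit 2289712029), (nat_lit 2383966803), (nat_lit 2240052845)], (nat_lit 1271251), (nat_lit 1271251), (nat_lit 559688), (nat_lit 780000), (nat_lit 0), (nat_lit 2118750), [(nat_lit 1412501), (nat_lit 1271251), (nat_lit 1271251)], [(nat_lit 23), (nat_lit 62), (nat_lit 401), (nat_lit 175), (nat_lit 11)]⟩,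
 ⟨⟨[(nat_lit 100), (nat_lit 140), (nat_lit 160)], [(nat_lit 0), (nat_lit 508), (nat_lit 1689)], [((nat_lit 0), (nat_lit 0), (nat_lit 0)), ((nat_lit 1000), (nat_lit 1000), (nat_lit 198)), ((nat_lit 811), (nat_lit 1000), (nat_lit 671))], ((nat_lit 100), (nat_lit 88), (nat_lit 58))⟩, (nat_lit 148323), (nat_lit 300), (nat_lit 1005), (nat_lit 4312500), (nat_lit 1660690), [(nat_lit 431250000), (nat_lit 679098000), (nat_lit 819168000)], [], [(nat_lit 3195250863), (nat_lit 3171427764), (nat_lit 3226485193), (nat_lit 3200895371), (nat_lit 2501616522), (nat_lit 2479002451), (nat_lit 2535736339), (nat_lit 2510916544)], (nat_lit 1271251), (nat_lit 1271251), (nat_lit 1271251), (nat_lit 1271251), (nat_lit 0), (nat_lit 2118750), [(nat_lit 1412501), (nat_lit 1271251), (nat_lit 1271251)], [(nat_lit 23), (nat_lit 62), (nat_lit 373), (nat_lit 150), (nat_lit 9)]⟩⟩)))))))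
noncomputable def c16_7 : Tr Lf :=
 (.trX (nat_lit 4) (nat_lit 0) (nat_lit 2) (nat_lit 60) (nat_lit 74) (nat_lit 100) (nat_lit 340) (.spl (nat_lit 2) (nat_lit 200) (.trX (nat_lit 4) (nat_lit 0) (nat_lit 2) (nat_lit 60) (nat_lit 80) (nat_lit 100) (nat_lit 320) (.spl (nat_lit 0) (nat_lit 370) (.spl (nat_lit 6) (nat_lit 56) (.spl (nat_lit 0) (nat_lit 365) (.spl (nat_lit 6) (nat_lit 48) (.leaf ⟨(nat_lit 945), (nat_lit 0), (nat_lit 0), (nat_lit 55), (nat_lit 4122), (nat_lit 3402), (nat_lit 575), (nat_lit 665), (nat_lit 0), (nat_lit 245304), (nat_lit 285000), [((nat_lit 365), [((nat_lit 25), (nat_lit 0), (nat_lit 620)), ((nat_lit 25), (nat_lit 1), (nat_lit 325))])], ⟨(nat_lit 4), false, false, false, (nat_lit 138), (nat_lit 2958), (nat_lit 3163), [(nat_lit 1264497), (nat_lit 1267638), (nat_lit 1330953), (nat_lit 1334461), (nat_lit 1355932), (nat_lit 1357675), (nat_lit 1422389), (nat_lit 1424498)]⟩, ⟨(nat_lit 7), false, true, true, (nat_lit 256), (nat_lit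 2958), (nat_lit 3163), [(nat_lit 1599750), (nat_lit 1597763), (nat_lit 1621905), (nat_lit 1620041), (nat_lit 1660704), (nat_lit 1657784), (nat_lit 1682859), (nat_lit 1680062)]⟩, (nat_lit 4705065), (nat_lit 41983362), (nat_lit 6824100), (nat_lit 18192538), (nat_lit 0), (nat_lit 0), [⟨(nat_lit 0), (nat_lit 100), (nat_lit 58), (nat_lit 84), (nat_lit 203590738)⟩, ⟨(nat_lit 0), (nat_lit 100), (nat_lit 58), (nat_lit 94), (nat_lit 37030128)⟩], [⟨(nat_lit 1), (nat_lit 84), (nat_lit 58), (nat_lit 100), (nat_lit 260849856)⟩], [⟨(nat_lit 0), (nat_lit 100), (nat_lit 98), (nat_lit 20), (nat_lit 41354545)⟩], [],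
 ⟨⟨[(nat_lit 40), (nat_lit 60), (nat_lit 80)], [(nat_lit 0), (nat_lit 832), (nat_lit 1534)], [((nat_lit 0), (nat_lit 0), (nat_lit 0)), ((nat_lit 1000), (nat_lit 659), (nat_lit 528)), ((nat_lit 1000), (nat_lit 650), (nat_lit 549))], ((nat_lit 61), (nat_lit 100), (nat_lit 67))⟩, (nat_lit 0), (nat_lit 112), (nat_lit 112), (nat_lit 0), (nat_lit 54148), [(nat_lit 1495530036), (nat_lit 1593049243), (nat_lit 1631432000)], [(nat_lit 0), (nat_lit 0), (nat_lit 0)], [(nat_lit 24244321428), (nat_lit 24564179778), (nat_lit 24123800841), (nat_lit 24408119160), (nat_lit 26167258582), (nat_lit 26503736224), (nat_lit 25702444012), (nat_lit 25964024730)], (nat_lit 1271251), (nat_lit 1271251), (nat_lit 356250), (nat_lit 780000), (nat_lit 1271251), (nat_lit 1271251), [(nat_lit 490000), (nat_lit 780000), (nat_lit 1100000)], [(nat_lit 2), (nat_lit 44), (nat_lit 238), (nat_lit 30), (nat_lit 9)]⟩,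
 ⟨⟨[(nat_lit 120), (nat_lit 160), (nat_lit 180)], [(nat_lit 0), (nat_lit 533), (nat_lit 2066)], [((nat_lit 0), (nat_lit 0), (nat_lit 0)), ((nat_lit 960), (nat_lit 1000), (nat_lit 200)), ((nat_lit 615), (nat_lit 1000), (nat_lit 729))], ((nat_lit 100), (nat_lit 69), (nat_lit 65))⟩, (nat_lit 198489), (nat_lit 476), (nat_lit 476), (nat_lit 0), (nat_lit 116618), [(nat_lit 438240000), (nat_lit 652960000), (nat_lit 773190000)], [], [(nat_lit 2859797919), (nat_lit 2408729569), (nat_lit 2201553294), (nat_lit 2229637936), (nat_lit 2852122504), (nat_lit 2157741589), (nat_lit 3115830727), (nat_lit 2324164618)], (nat_lit 1271251), (nat_lit 1271251), (nat_lit 356250), (nat_lit 780000), (nat_lit 0), (nat_lit 2401251), [(nat_lit 1695001), (nat_lit 1271251), (nat_lit 1271251)], [(nat_lit 28), (nat_lit 65), (nat_lit 401), (nat_lit 175), (nat_lit 10)]⟩,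
 ⟨⟨[(nat_lit 120), (nat_lit 160), (nat_lit 180)], [(nat_lit 0), (nat_lit 533), (nat_lit 2066)], [((nat_lit 0), (nat_lit 0), (nat_lit 0)), ((nat_lit 960), (nat_lit 1000), (nat_lit 200)), ((nat_lit 615), (nat_lit 1000), (nat_lit 729))], ((nat_lit 100), (nat_lit 69), (nat_lit 65))⟩, (nat_lit 26331), (nat_lit 300), (nat_lit 490), (nat_lit 3993285), (nat_lit 356681), [(nat_lit 438240000), (nat_lit 652960000), (nat_lit 773190000)], [], [(nat_lit 2873576960), (nat_lit 2863454025), (nat_lit 2938905195), (nat_lit 2924554790), (nat_lit 2268710758), (nat_lit 2244953455), (nat_lit 2282602080), (nat_lit 2256189770)], (nat_lit 1271251), (nat_lit 1271251), (nat_lit 1271251), (nat_lit 1271251), (nat_lit 0), (nat_lit 2401251), [(nat_lit 1695001), (nat_lit 1271251), (nat_lit 1271251)], [(nat_lit 28), (nat_lit 65), (nat_lit 456), (nat_lit 225), (nat_lit 10)]⟩⟩) (.dle (nat_lit 0))) (.trZ (nat_lit 0) (nat_lit 1) (nat_lit 3) (nat_lit 100) (nat_lit 57) (nat_lit 77) (nat_lit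 70) (.leaf ⟨(nat_lit 951), (nat_lit 0), (nat_lit 0), (nat_lit 49), (nat_lit 2957), (nat_lit 3458), (nat_lit 780), (nat_lit 665), (nat_lit 0), (nat_lit 12998), (nat_lit 240150), [((nat_lit 370), [((nat_lit 25), (nat_lit 0), (nat_lit 935)), ((nat_lit 25), (nat_lit 1), (nat_lit 16))])], ⟨(nat_lit 4), false, false, false, (nat_lit 142), (nat_lit 2738), (nat_lit 2959), [(nat_lit 1282641), (nat_lit 1285619), (nat_lit 1349461), (nat_lit 1352861), (nat_lit 1357673), (nat_lit 1359452), (nat_lit 1424494), (nat_lit 1426694)]⟩, ⟨(nat_lit 7), false, true, true, (nat_lit 255), (nat_lit 2738), (nat_lit 2959), [(nat_lit 1597763), (nat_lit 1595704), (nat_lit 1620041), (nat_lit 1618121), (nat_lit 1657784), (nat_lit 1654765), (nat_lit 1680062), (nat_lit 1677182)]⟩, (nat_lit 4741334), (nat_lit 41840142), (nat_lit 7120993), (nat_lit 18038865), (nat_lit 0), (nat_lit 0), [⟨(nat_lit 0), (nat_lit 100), (nat_lit 55), (nat_lit 86), (nat_lit 362988273)⟩], [⟨(nat_lit 1), (nat_lit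 83), (nat_lit 57), (nat_lit 100), (nat_lit 276995796)⟩], [⟨(nat_lit 0), (nat_lit 100), (nat_lit 98), (nat_lit 20), (nat_lit 23789155)⟩], [],
 ⟨⟨[(nat_lit 40), (nat_lit 60), (nat_lit 80)], [(nat_lit 0), (nat_lit 973), (nat_lit 1716)], [((nat_lit 0), (nat_lit 0), (nat_lit 0)), ((nat_lit 1000), (nat_lit 618), (nat_lit 574)), ((nat_lit 1000), (nat_lit 615), (nat_lit 581))], ((nat_lit 58), (nat_lit 100), (nat_lit 71))⟩, (nat_lit 0), (nat_lit 114), (nat_lit 114), (nat_lit 0), (nat_lit 77966), [(nat_lit 1538900407), (nat_lit 1700958778), (nat_lit 1849055600)], [(nat_lit 0), (nat_lit 0), (nat_lit 0)], [(nat_lit 24561641048), (nat_lit 24881773498), (nat_lit 24613402185), (nat_lit 24899807018), (nat_lit 26281266761), (nat_lit 26618421295), (nat_lit 26176359329), (nat_lit 26453384037)], (nat_lit 1271251), (nat_lit 1271251), (nat_lit 422188), (nat_lit 780000), (nat_lit 1271251), (nat_lit 1271251), [(nat_lit 490000), (nat_lit 780000), (nat_lit 1100000)], [(nat_lit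 2), (nat_lit 44), (nat_lit 238), (nat_lit 30), (nat_lit 9)]⟩,
 ⟨⟨[(nat_lit 120), (nat_lit 160), (nat_lit 180)], [(nat_lit 0), (nat_lit 533), (nat_lit 2066)], [((nat_lit 0), (nat_lit 0), (nat_lit 0)), ((nat_lit 960), (nat_lit 1000), (nat_lit 200)), ((nat_lit 615), (nat_lit 1000), (nat_lit 729))], ((nat_lit 100), (nat_lit 65), (nat_lit 70))⟩, (nat_lit 213236), (nat_lit 491), (nat_lit 491), (nat_lit 0), (nat_lit 173171), [(nat_lit 390432000), (nat_lit 581728000), (nat_lit 688842000)], [], [(nat_lit 2749648268), (nat_lit 2024913451), (nat_lit 1814912560), (nat_lit 1832717350), (nat_lit 2783658432), (nat_lit 1691844632), (nat_lit 3064414422), (nat_lit 1990502134)], (nat_lit 1271251), (nat_lit 1271251), (nat_lit 422188), (nat_lit 780000), (nat_lit 0), (nat_lit 2401251), [(nat_lit 1695001), (nat_lit 1271251), (nat_lit 1271251)], [(nat_lit 28), (nat_lit 65), (nat_lit 401), (nat_lit 175), (nat_lit 10)]⟩,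
 ⟨⟨[(nat_lit 120), (nat_lit 160), (nat_lit 180)], [(nat_lit 0), (nat_lit 533), (nat_lit 2066)], [((nat_lit 0), (nat_lit 0), (nat_lit 0)), ((nat_lit 960), (nat_lit 1000), (nat_lit 200)), ((nat_lit 615), (nat_lit 1000), (nat_lit 729))], ((nat_lit 100), (nat_lit 65), (nat_lit 70))⟩, (nat_lit 23458), (nat_lit 300), (nat_lit 587), (nat_lit 3557656), (nat_lit 527692), [(nat_lit 390432000), (nat_lit 581728000), (nat_lit 688842000)], [], [(nat_lit 2562707624), (nat_lit 2535225263), (nat_lit 2599687515), (nat_lit 2582995238), (nat_lit 1948574837), (nat_lit 1873830408), (nat_lit 1908891066), (nat_lit 1892376716)], (nat_lit 1271251), (nat_lit 1271251), (nat_lit 1271251), (nat_lit 1271251), (nat_lit 0), (nat_lit 2401251), [(nat_lit 1695001), (nat_lit 1271251), (nat_lit 1271251)], [(nat_lit 28), (nat_lit 65), (nat_lit 456), (nat_lit 225), (nat_lit 10)]⟩⟩))) (.dle (nat_lit 0))) (.trZ (nat_lit 0) (nat_lit 1) (nat_lit 3) (nat_lit 100) (nat_lit 53) (nat_lit 80) (nat_lit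 70) (.trX (nat_lit 4) (nat_lit 0) (nat_lit 2) (nat_lit 53) (nat_lit 85) (nat_lit 100) (nat_lit 310) (.spl (nat_lit 0) (nat_lit 375) (.spl (nat_lit 6) (nat_lit 60) (.leaf ⟨(nat_lit 957), (nat_lit 0), (nat_lit 0), (nat_lit 43), (nat_lit 1762), (nat_lit 3462), (nat_lit 727), (nat_lit 651), (nat_lit 0), (nat_lit 517413), (nat_lit 239250), [((nat_lit 375), [((nat_lit 25), (nat_lit 0), (nat_lit 957))])], ⟨(nat_lit 4), false, false, false, (nat_lit 143), (nat_lit 2500), (nat_lit 2739), [(nat_lit 1285613), (nat_lit 1288690), (nat_lit 1352853), (nat_lit 1356419), (nat_lit 1359450), (nat_lit 1361280), (nat_lit 1426689), (nat_lit 1429009)]⟩, ⟨(nat_lit 7), false, true, true, (nat_lit 251), (nat_lit 2500), (nat_lit 2739), [(nat_lit 1595704), (nat_lit 1593547), (nat_lit 1618121), (nat_lit 1616128), (nat_lit 1640000), (nat_lit 1637095), (nat_lit 1662417), (nat_lit 1659676)]⟩, (nat_lit 4732101), (nat_lit 42113643), (nat_lit 7231181), (nat_lit 17655176), (nat_lit 0),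 (nat_lit 0), [⟨(nat_lit 0), (nat_lit 100), (nat_lit 51), (nat_lit 89), (nat_lit 380319151)⟩], [⟨(nat_lit 1), (nat_lit 85), (nat_lit 53), (nat_lit 100), (nat_lit 297666587)⟩], [], [⟨(nat_lit 0), (nat_lit 91), (nat_lit 100), (nat_lit 19), (nat_lit 16957751)⟩],
 ⟨⟨[(nat_lit 40), (nat_lit 60), (nat_lit 80)], [(nat_lit 0), (nat_lit 1134), (nat_lit 1930)], [((nat_lit 0), (nat_lit 0), (nat_lit 0)), ((nat_lit 1000), (nat_lit 575), (nat_lit 619)), ((nat_lit 1000), (nat_lit 574), (nat_lit 622))], ((nat_lit 54), (nat_lit 100), (nat_lit 73))⟩, (nat_lit 0), (nat_lit 119), (nat_lit 119), (nat_lit 0), (nat_lit 100985), [(nat_lit 1539610114), (nat_lit 1591753217), (nat_lit 1843413200)], [(nat_lit 0), (nat_lit 0), (nat_lit 0)], [(nat_lit 24876523801), (nat_lit 25196830460), (nat_lit 24891044009), (nat_lit 25177597878), (nat_lit 26145547256), (nat_lit 26491345991), (nat_lit 26045349662), (nat_lit 26328810459)], (nat_lit 1271251), (nat_lit 1271251), (nat_lit 422188),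 (nat_lit 780000), (nat_lit 1271251), (nat_lit 1271251), [(nat_lit 490000), (nat_lit 780000), (nat_lit 1100000)], [(nat_lit 2), (nat_lit 44), (nat_lit 238), (nat_lit 30), (nat_lit 9)]⟩,
 ⟨⟨[(nat_lit 120), (nat_lit 160), (nat_lit 180)], [(nat_lit 0), (nat_lit 533), (nat_lit 2066)], [((nat_lit 0), (nat_lit 0), (nat_lit 0)), ((nat_lit 960), (nat_lit 1000), (nat_lit 200)), ((nat_lit 615), (nat_lit 1000), (nat_lit 729))], ((nat_lit 100), (nat_lit 63), (nat_lit 72))⟩, (nat_lit 192940), (nat_lit 563), (nat_lit 563), (nat_lit 0), (nat_lit 266357), [(nat_lit 342624000), (nat_lit 510496000), (nat_lit 604494000)], [], [(nat_lit 2466845538), (nat_lit 1765393192), (nat_lit 1570916767), (nat_lit 1583827718), (nat_lit 2477130532), (nat_lit 1459504080), (nat_lit 2734987346), (nat_lit 1734046022)], (nat_lit 1271251), (nat_lit 1271251), (nat_lit 422188), (nat_lit 780000), (nat_lit 0), (nat_lit 2401251), [(nat_lit 1695001), (nat_lit 1271251), (nat_lit 1271251)], [(nat_lit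 28), (nat_lit 65), (nat_lit 401), (nat_lit 175), (nat_lit 10)]⟩,
 ⟨⟨[(nat_lit 120), (nat_lit 160), (nat_lit 180)], [(nat_lit 0), (nat_lit 533), (nat_lit 2066)], [((nat_lit 0), (nat_lit 0), (nat_lit 0)), ((nat_lit 960), (nat_lit 1000), (nat_lit 200)), ((nat_lit 615), (nat_lit 1000), (nat_lit 729))], ((nat_lit 100), (nat_lit 63), (nat_lit 72))⟩, (nat_lit 20586), (nat_lit 300), (nat_lit 660), (nat_lit 3122023), (nat_lit 702311), [(nat_lit 342624000), (nat_lit 510496000), (nat_lit 604494000)], [], [(nat_lit 2209955126), (nat_lit 2195897599), (nat_lit 2250533717), (nat_lit 2233309264), (nat_lit 1672292205), (nat_lit 1579212869), (nat_lit 1637108053), (nat_lit 1622601164)], (nat_lit 1271251), (nat_lit 1271251), (nat_lit 1271251), (nat_lit 1271251), (nat_lit 0), (nat_lit 2401251), [(nat_lit 1695001), (nat_lit 1271251), (nat_lit 1271251)], [(nat_lit 28), (nat_lit 65), (nat_lit 456), (nat_lit 225), (nat_lit 10)]⟩⟩) (.dle (nat_lit 0))) (.trZ (nat_lit 0) (nat_lit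 1) (nat_lit 3) (nat_lit 100) (nat_lit 49) (nat_lit 83) (nat_lit 80) (.trX (nat_lit 4) (nat_lit 0) (nat_lit 2) (nat_lit 48) (nat_lit 88) (nat_lit 100) (nat_lit 300) (.leaf ⟨(nat_lit 1000), (nat_lit 0), (nat_lit 0), (nat_lit 0), (nat_lit 1008), (nat_lit 3450), (nat_lit 0), (nat_lit 0), (nat_lit 0), (nat_lit 536584), (nat_lit 250000), [((nat_lit 380), [((nat_lit 25), (nat_lit 0), (nat_lit 1000))])], ⟨(nat_lit 4), false, false, false, (nat_lit 147), (nat_lit 2236), (nat_lit 2500), [(nat_lit 1303200), (nat_lit 1306154), (nat_lit 1370924), (nat_lit 1374458), (nat_lit 1361275), (nat_lit 1363179), (nat_lit 1428999), (nat_lit 1431485)]⟩, ⟨(nat_lit 7), false, true, true, (nat_lit 247), (nat_lit 2236), (nat_lit 2500), [(nat_lit 1593547), (nat_lit 1591255), (nat_lit 1616128), (nat_lit 1614030), (nat_lit 1622579), (nat_lit 1619763), (nat_lit 1645160), (nat_lit 1642537)]⟩, (nat_lit 4751462), (nat_lit 42210925), (nat_lit 7555726), (nat_lit 17233349), (nat_lit 0),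 (nat_lit 0), [⟨(nat_lit 0), (nat_lit 100), (nat_lit 46), (nat_lit 91), (nat_lit 473266285)⟩], [⟨(nat_lit 1), (nat_lit 88), (nat_lit 48), (nat_lit 100), (nat_lit 390219933)⟩], [], [],
 ⟨⟨[(nat_lit 40), (nat_lit 60), (nat_lit 80)], [(nat_lit 0), (nat_lit 1320), (nat_lit 2176)], [((nat_lit 0), (nat_lit 0), (nat_lit 0)), ((nat_lit 1000), (nat_lit 531), (nat_lit 657)), ((nat_lit 1000), (nat_lit 526), (nat_lit 669))], ((nat_lit 50), (nat_lit 100), (nat_lit 77))⟩, (nat_lit 19801), (nat_lit 119), (nat_lit 119), (nat_lit 0), (nat_lit 123567), [(nat_lit 1528000118), (nat_lit 1526293926), (nat_lit 1715600000)], [(nat_lit 0), (nat_lit 0), (nat_lit 0)], [(nat_lit 24791434731), (nat_lit 25118334875), (nat_lit 25006131546), (nat_lit 25292238305), (nat_lit 25686008485), (nat_lit 26038350738), (nat_lit 25763077394), (nat_lit 26099196800)], (nat_lit 1271251), (nat_lit 1271251), (nat_lit 490000), (nat_lit 780000), (nat_lit 1271251), (nat_lit 1271251), [(nat_lit 490000),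 (nat_lit 780000), (nat_lit 1100000)], [(nat_lit 2), (nat_lit 44), (nat_lit 238), (nat_lit 30), (nat_lit 9)]⟩,
 Rw.none,
 Rw.none⟩)))))))) (.ord (.trZ (nat_lit 0) (nat_lit 1) (nat_lit 3) (nat_lit 100) (nat_lit 60) (nat_lit 80) (nat_lit 80) (.spl (nat_lit 5) (nat_lit 120) (.spl (nat_lit 0) (nat_lit 370) (.spl (nat_lit 6) (nat_lit 56) (.leaf ⟨(nat_lit 753), (nat_lit 0), (nat_lit 0), (nat_lit 247), (nat_lit 6561), (nat_lit 3123), (nat_lit 3540), (nat_lit 2371), (nat_lit 0), (nat_lit 2725779), (nat_lit 451800), [((nat_lit 370), [((nat_lit 41), (nat_lit 2), (nat_lit 753))])], ⟨(nat_lit 5), false, false, false, (nat_lit 149), (nat_lit 2738), (nat_lit 3163), [(nat_lit 1317085), (nat_lit 1322761), (nat_lit 1361370), (nat_lit 1367571), (nat_lit 1378056), (nat_lit 1381840), (nat_lit 1422342), (nat_lit 1426651)]⟩, ⟨(nat_lit 7), false, true, true, (nat_lit 270), (nat_lit 2738), (nat_lit 3163), [(nat_lit 1621905), (nat_lit 1618121), (nat_lit 1644060), (nat_lit 1640539),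 (nat_lit 1713335), (nat_lit 1706713), (nat_lit 1735490), (nat_lit 1729131)]⟩, (nat_lit 4877016), (nat_lit 40176193), (nat_lit 7474894), (nat_lit 19348913), (nat_lit 0), (nat_lit 0), [⟨(nat_lit 0), (nat_lit 100), (nat_lit 57), (nat_lit 88), (nat_lit 333973459)⟩], [⟨(nat_lit 1), (nat_lit 80), (nat_lit 57), (nat_lit 100), (nat_lit 36010883)⟩], [], [⟨(nat_lit 0), (nat_lit 96), (nat_lit 100), (nat_lit 7), (nat_lit 188858637)⟩],
 ⟨⟨[(nat_lit 40), (nat_lit 80), (nat_lit 100)], [(nat_lit 0), (nat_lit 1598), (nat_lit 2533)], [((nat_lit 0), (nat_lit 0), (nat_lit 0)), ((nat_lit 1000), (nat_lit 625), (nat_lit 623)), ((nat_lit 1000), (nat_lit 604), (nat_lit 730))], ((nat_lit 61), (nat_lit 100), (nat_lit 70))⟩, (nat_lit 101412), (nat_lit 135), (nat_lit 135), (nat_lit 0), (nat_lit 83665), [(nat_lit 1447091421), (nat_lit 1153246061), (nat_lit 1005806800)], [(nat_lit 0), (nat_lit 0), (nat_lit 0)], [(nat_lit 23955030525), (nat_lit 24495651408), (nat_lit 24235109572),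 (nat_lit 24751673941), (nat_lit 26376203532), (nat_lit 26929904982), (nat_lit 26553119882), (nat_lit 27008065396)], (nat_lit 1271251), (nat_lit 1271251), (nat_lit 490000), (nat_lit 780000), (nat_lit 1271251), (nat_lit 1271251), [(nat_lit 490000), (nat_lit 1100000), (nat_lit 1442501)], [(nat_lit 3), (nat_lit 50), (nat_lit 238), (nat_lit 30), (nat_lit 7)]⟩,
 ⟨⟨[(nat_lit 100), (nat_lit 140), (nat_lit 180)], [(nat_lit 0), (nat_lit 0), (nat_lit 2434)], [((nat_lit 0), (nat_lit 0), (nat_lit 0)), ((nat_lit 0), (nat_lit 0), (nat_lit 0)), ((nat_lit 726), (nat_lit 1000), (nat_lit 688))], ((nat_lit 100), (nat_lit 72), (nat_lit 69))⟩, (nat_lit 937716), (nat_lit 422), (nat_lit 422), (nat_lit 0), (nat_lit 91164), [(nat_lit 1543750000), (nat_lit 2430974000), (nat_lit 3472326000)], [], [(nat_lit 8862174134), (nat_lit 9048906600), (nat_lit 9096613292), (nat_lit 8621954962), (nat_lit 9609223212), (nat_lit 6202904232), (nat_lit 10641761042), (nat_lit 7281378872)], (nat_lit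 1271251), (nat_lit 1271251), (nat_lit 490000), (nat_lit 780000), (nat_lit 0), (nat_lit 780000), [(nat_lit 1412501), (nat_lit 1271251), (nat_lit 1271251)], [(nat_lit 24), (nat_lit 63), (nat_lit 345), (nat_lit 125), (nat_lit 8)]⟩,
 ⟨⟨[(nat_lit 100), (nat_lit 140), (nat_lit 180)], [(nat_lit 0), (nat_lit 0), (nat_lit 2434)], [((nat_lit 0), (nat_lit 0), (nat_lit 0)), ((nat_lit 0), (nat_lit 0), (nat_lit 0)), ((nat_lit 726), (nat_lit 1000), (nat_lit 688))], ((nat_lit 100), (nat_lit 72), (nat_lit 69))⟩, (nat_lit 142477), (nat_lit 300), (nat_lit 445), (nat_lit 17364100), (nat_lit 291079), [(nat_lit 1543750000), (nat_lit 2430974000), (nat_lit 3472326000)], [], [(nat_lit 12987919834), (nat_lit 12952559730), (nat_lit 13340130141), (nat_lit 13299305783), (nat_lit 11218353460), (nat_lit 11181795107), (nat_lit 11524444844), (nat_lit 11468587596)], (nat_lit 1271251), (nat_lit 1271251), (nat_lit 1271251), (nat_lit 1271251), (nat_lit 0), (nat_lit 780000), [(nat_lit 1412501),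 (nat_lit 1271251), (nat_lit 1271251)], [(nat_lit 24), (nat_lit 63), (nat_lit 401), (nat_lit 175), (nat_lit 9)]⟩⟩) (.dle (nat_lit 0))) (.trZ (nat_lit 0) (nat_lit 1) (nat_lit 3) (nat_lit 100) (nat_lit 53) (nat_lit 85) (nat_lit 90) (.trX (nat_lit 4) (nat_lit 0) (nat_lit 2) (nat_lit 53) (nat_lit 80) (nat_lit 100) (nat_lit 330) (.leaf ⟨(nat_lit 879), (nat_lit 0), (nat_lit 0), (nat_lit 121), (nat_lit 3454), (nat_lit 3255), (nat_lit 1723), (nat_lit 1550), (nat_lit 0), (nat_lit 2144008), (nat_lit 219750), [((nat_lit 380), [((nat_lit 25), (nat_lit 0), (nat_lit 879))])], ⟨(nat_lit 5), false, false, false, (nat_lit 154), (nat_lit 2236), (nat_lit 2739), [(nat_lit 1337485), (nat_lit 1343111), (nat_lit 1382279), (nat_lit 1388619), (nat_lit 1381807), (nat_lit 1385898), (nat_lit 1426601), (nat_lit 1431406)]⟩, ⟨(nat_lit 7), false, true, true, (nat_lit 265), (nat_lit 2236), (nat_lit 2739), [(nat_lit 1618121), (nat_lit 1614030), (nat_lit 1640539), (nat_lit 1636804), (nat_lit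 1691948), (nat_lit 1685299), (nat_lit 1714365), (nat_lit 1708073)]⟩, (nat_lit 4903497), (nat_lit 40315543), (nat_lit 7883326), (nat_lit 18801131), (nat_lit 0), (nat_lit 0), [⟨(nat_lit 0), (nat_lit 100), (nat_lit 49), (nat_lit 92), (nat_lit 289061633)⟩], [⟨(nat_lit 1), (nat_lit 85), (nat_lit 48), (nat_lit 100), (nat_lit 226111321)⟩], [⟨(nat_lit 0), (nat_lit 100), (nat_lit 100), (nat_lit 15), (nat_lit 107643988)⟩], [],
 ⟨⟨[(nat_lit 40), (nat_lit 80), (nat_lit 100)], [(nat_lit 0), (nat_lit 2008), (nat_lit 2969)], [((nat_lit 0), (nat_lit 0), (nat_lit 0)), ((nat_lit 1000), (nat_lit 540), (nat_lit 733)), ((nat_lit 1000), (nat_lit 536), (nat_lit 751))], ((nat_lit 53), (nat_lit 100), (nat_lit 76))⟩, (nat_lit 579982), (nat_lit 145), (nat_lit 145), (nat_lit 0), (nat_lit 127948), [(nat_lit 1560670010), (nat_lit 2140031387), (nat_lit 2617972000)], [(nat_lit 0), (nat_lit 0), (nat_lit 0)], [(nat_lit 24703126470), (nat_lit 25247173274), (nat_lit 24878575484), (nat_lit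 25404080164), (nat_lit 26618939046), (nat_lit 27219263893), (nat_lit 26732059001), (nat_lit 27252107592)], (nat_lit 1271251), (nat_lit 1271251), (nat_lit 559688), (nat_lit 780000), (nat_lit 1271251), (nat_lit 1271251), [(nat_lit 490000), (nat_lit 1100000), (nat_lit 1442501)], [(nat_lit 3), (nat_lit 50), (nat_lit 238), (nat_lit 30), (nat_lit 7)]⟩,
 ⟨⟨[(nat_lit 100), (nat_lit 140), (nat_lit 180)], [(nat_lit 0), (nat_lit 0), (nat_lit 2434)], [((nat_lit 0), (nat_lit 0), (nat_lit 0)), ((nat_lit 0), (nat_lit 0), (nat_lit 0)), ((nat_lit 726), (nat_lit 1000), (nat_lit 688))], ((nat_lit 100), (nat_lit 66), (nat_lit 75))⟩, (nat_lit 326248), (nat_lit 446), (nat_lit 446), (nat_lit 0), (nat_lit 160666), [(nat_lit 756250000), (nat_lit 1190882000), (nat_lit 1701018000)], [], [(nat_lit 4615413530), (nat_lit 4703982240), (nat_lit 4460254653), (nat_lit 4539581914), (nat_lit 4816406085), (nat_lit 3323824396), (nat_lit 5214745516), (nat_lit 3579169674)], (nat_lit 1271251),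 (nat_lit 1271251), (nat_lit 559688), (nat_lit 780000), (nat_lit 0), (nat_lit 780000), [(nat_lit 1412501), (nat_lit 1271251), (nat_lit 1271251)], [(nat_lit 24), (nat_lit 63), (nat_lit 345), (nat_lit 125), (nat_lit 8)]⟩,
 ⟨⟨[(nat_lit 100), (nat_lit 140), (nat_lit 180)], [(nat_lit 0), (nat_lit 0), (nat_lit 2434)], [((nat_lit 0), (nat_lit 0), (nat_lit 0)), ((nat_lit 0), (nat_lit 0), (nat_lit 0)), ((nat_lit 726), (nat_lit 1000), (nat_lit 688))], ((nat_lit 100), (nat_lit 66), (nat_lit 75))⟩, (nat_lit 69796), (nat_lit 300), (nat_lit 562), (nat_lit 8506303), (nat_lit 491650), [(nat_lit 756250000), (nat_lit 1190882000), (nat_lit 1701018000)], [], [(nat_lit 6270017117), (nat_lit 6208249698), (nat_lit 6368825517), (nat_lit 6329578769), (nat_lit 5058741197), (nat_lit 4998134847), (nat_lit 5080367111), (nat_lit 5013238392)], (nat_lit 1271251), (nat_lit 1271251), (nat_lit 1271251), (nat_lit 1271251), (nat_lit 0), (nat_lit 780000), [(nat_lit 1412501), (nat_lit 1271251),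 (nat_lit 1271251)], [(nat_lit 24), (nat_lit 63), (nat_lit 401), (nat_lit 175), (nat_lit 9)]⟩⟩)))) (.leaf ⟨(nat_lit 0), (nat_lit 0), (nat_lit 0), (nat_lit 1000), (nat_lit 0), (nat_lit 4221), (nat_lit 16868), (nat_lit 11756), (nat_lit 0), (nat_lit 6261404931504), (nat_lit 0), [], Pd.none, Pd.none, (nat_lit 0), (nat_lit 1), (nat_lit 0), (nat_lit 0), (nat_lit 0), (nat_lit 0), [⟨(nat_lit 0), (nat_lit 100), (nat_lit 53), (nat_lit 90), (nat_lit 1613701963)⟩], [], [], [],
 ⟨⟨[(nat_lit 40), (nat_lit 80), (nat_lit 100)], [(nat_lit 0), (nat_lit 1598), (nat_lit 2533)], [((nat_lit 0), (nat_lit 0), (nat_lit 0)), ((nat_lit 1000), (nat_lit 625), (nat_lit 623)), ((nat_lit 1000), (nat_lit 604), (nat_lit 730))], ((nat_lit 60), (nat_lit 100), (nat_lit 75))⟩, (nat_lit 1740119), (nat_lit 152), (nat_lit 152), (nat_lit 0), (nat_lit 129793), [(nat_lit 2032000008), (nat_lit 4688000023), (nat_lit 6250000000)], [], [(nat_lit 25010406963), (nat_lit 26179652998), (nat_lit 25108090089),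 (nat_lit 26115666493), (nat_lit 27994394973), (nat_lit 29394973597), (nat_lit 27853265439), (nat_lit 29189308555)], (nat_lit 1271251), (nat_lit 1271251), (nat_lit 490000), (nat_lit 780000), (nat_lit 1271251), (nat_lit 1271251), [(nat_lit 490000), (nat_lit 1100000), (nat_lit 1442501)], [(nat_lit 3), (nat_lit 50), (nat_lit 238), (nat_lit 30), (nat_lit 7)]⟩,
 ⟨⟨[(nat_lit 100), (nat_lit 140), (nat_lit 180)], [(nat_lit 0), (nat_lit 0), (nat_lit 2434)], [((nat_lit 0), (nat_lit 0), (nat_lit 0)), ((nat_lit 0), (nat_lit 0), (nat_lit 0)), ((nat_lit 726), (nat_lit 1000), (nat_lit 688))], ((nat_lit 100), (nat_lit 66), (nat_lit 75))⟩, (nat_lit 987426), (nat_lit 419), (nat_lit 419), (nat_lit 0), (nat_lit 321724), [(nat_lit 6250000000), (nat_lit 9842000000), (nat_lit 14058000000)], [], [(nat_lit 28519577724), (nat_lit 30087371156), (nat_lit 26551049850), (nat_lit 28277477472), (nat_lit 51429350814), (nat_lit 39042526436), (nat_lit 56253607539), (nat_lit 40350984264)],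 (nat_lit 1271251), (nat_lit 1271251), (nat_lit 490000), (nat_lit 780000), (nat_lit 780000), (nat_lit 2581251), [(nat_lit 1412501), (nat_lit 1271251), (nat_lit 1271251)], [(nat_lit 24), (nat_lit 63), (nat_lit 401), (nat_lit 175), (nat_lit 9)]⟩,
 ⟨⟨[(nat_lit 100), (nat_lit 140), (nat_lit 180)], [(nat_lit 0), (nat_lit 0), (nat_lit 2434)], [((nat_lit 0), (nat_lit 0), (nat_lit 0)), ((nat_lit 0), (nat_lit 0), (nat_lit 0)), ((nat_lit 726), (nat_lit 1000), (nat_lit 688))], ((nat_lit 100), (nat_lit 66), (nat_lit 75))⟩, (nat_lit 576828), (nat_lit 300), (nat_lit 552), (nat_lit 70300004), (nat_lit 688559), [(nat_lit 6250000000), (nat_lit 9842000000), (nat_lit 14058000000)], [], [(nat_lit 44585176740), (nat_lit 44152286552), (nat_lit 44996804543), (nat_lit 44498461719), (nat_lit 40570746168), (nat_lit 40159649564), (nat_lit 41241113352), (nat_lit 40755384956)], (nat_lit 1271251), (nat_lit 1271251), (nat_lit 1271251), (nat_lit 1271251), (nat_lit 780000), (nat_lit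 2581251), [(nat_lit 1412501), (nat_lit 1271251), (nat_lit 1271251)], [(nat_lit 24), (nat_lit 63), (nat_lit 456), (nat_lit 225), (nat_lit 10)]⟩⟩))))))
noncomputable def c16_8 : Tr Lf :=
 (.ord (.trZ (nat_lit 0) (nat_lit 1) (nat_lit 3) (nat_lit 100) (nat_lit 60) (nat_lit 86) (nat_lit 90) (.spl (nat_lit 5) (nat_lit 160) (.leaf ⟨(nat_lit 531), (nat_lit 0), (nat_lit 0), (nat_lit 469), (nat_lit 0), (nat_lit 3570), (nat_lit 6516), (nat_lit 5563), (nat_lit 0), (nat_lit 5523403998090), (nat_lit 318600), [((nat_lit 380), [((nat_lit 41), (nat_lit 2), (nat_lit 531))])], ⟨(nat_lit 5), false, false, false, (nat_lit 157), (nat_lit 2236), (nat_lit 3163), [(nat_lit 1354183), (nat_lit 1365632), (nat_lit 1376275), (nat_lit 1388342), (nat_lit 1399976), (nat_lit 1408471), (nat_lit 1422068), (nat_lit 1431182)]⟩, ⟨(nat_lit 7), false, true, true, (nat_lit 281), (nat_lit 2236), (nat_lit 3163), [(nat_lit 1644060), (nat_lit 1636804), (nat_lit 1666215), (nat_lit 1659578), (nat_lit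 1750729), (nat_lit 1736581), (nat_lit 1772883), (nat_lit 1759355)]⟩, (nat_lit 4993024), (nat_lit 38858188), (nat_lit 7962859), (nat_lit 20178953), (nat_lit 0), (nat_lit 0), [⟨(nat_lit 0), (nat_lit 100), (nat_lit 53), (nat_lit 93), (nat_lit 844193468)⟩], [], [⟨(nat_lit 0), (nat_lit 100), (nat_lit 100), (nat_lit 20), (nat_lit 290518810)⟩], [],
 ⟨⟨[(nat_lit 40), (nat_lit 80), (nat_lit 100)], [(nat_lit 0), (nat_lit 1598), (nat_lit 2533)], [((nat_lit 0), (nat_lit 0), (nat_lit 0)), ((nat_lit 1000), (nat_lit 625), (nat_lit 623)), ((nat_lit 1000), (nat_lit 604), (nat_lit 730))], ((nat_lit 60), (nat_lit 100), (nat_lit 75))⟩, (nat_lit 641753), (nat_lit 155), (nat_lit 155), (nat_lit 0), (nat_lit 144715), [(nat_lit 1573542413), (nat_lit 2170635220), (nat_lit 2551903600)], [(nat_lit 0), (nat_lit 0), (nat_lit 0)], [(nat_lit 24178204640), (nat_lit 25301914670), (nat_lit 24326508080), (nat_lit 25357842267), (nat_lit 27607408729), (nat_lit 28849059162), (nat_lit 27590880533),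 (nat_lit 28791111673)], (nat_lit 1271251), (nat_lit 1271251), (nat_lit 559688), (nat_lit 780000), (nat_lit 1271251), (nat_lit 1271251), [(nat_lit 490000), (nat_lit 1100000), (nat_lit 1442501)], [(nat_lit 3), (nat_lit 50), (nat_lit 238), (nat_lit 30), (nat_lit 7)]⟩,
 ⟨⟨[(nat_lit 100), (nat_lit 140), (nat_lit 180)], [(nat_lit 0), (nat_lit 508), (nat_lit 2854)], [((nat_lit 0), (nat_lit 0), (nat_lit 0)), ((nat_lit 1000), (nat_lit 1000), (nat_lit 198)), ((nat_lit 777), (nat_lit 1000), (nat_lit 712))], ((nat_lit 100), (nat_lit 74), (nat_lit 76))⟩, (nat_lit 2111534), (nat_lit 558), (nat_lit 558), (nat_lit 0), (nat_lit 326371), [(nat_lit 2931250000), (nat_lit 4615898000), (nat_lit 6593202000)], [], [(nat_lit 14679585991), (nat_lit 15102080095), (nat_lit 14122036478), (nat_lit 14522798090), (nat_lit 18329722701), (nat_lit 15248496894), (nat_lit 19940432608), (nat_lit 16890019336)], (nat_lit 1271251), (nat_lit 1271251), (nat_lit 559688), (nat_lit 780000), (nat_lit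 0), (nat_lit 1100000), [(nat_lit 1412501), (nat_lit 1271251), (nat_lit 1271251)], [(nat_lit 24), (nat_lit 63), (nat_lit 373), (nat_lit 150), (nat_lit 9)]⟩,
 ⟨⟨[(nat_lit 100), (nat_lit 140), (nat_lit 180)], [(nat_lit 0), (nat_lit 508), (nat_lit 2854)], [((nat_lit 0), (nat_lit 0), (nat_lit 0)), ((nat_lit 1000), (nat_lit 1000), (nat_lit 198)), ((nat_lit 777), (nat_lit 1000), (nat_lit 712))], ((nat_lit 100), (nat_lit 74), (nat_lit 76))⟩, (nat_lit 1008165), (nat_lit 300), (nat_lit 593), (nat_lit 29312502), (nat_lit 588651), [(nat_lit 2931250000), (nat_lit 4615898000), (nat_lit 6593202000)], [], [(nat_lit 22890730411), (nat_lit 22680754102), (nat_lit 23811671317), (nat_lit 23662586361), (nat_lit 17703937874), (nat_lit 17492834684), (nat_lit 18193952587), (nat_lit 18043364291)], (nat_lit 1271251), (nat_lit 1271251), (nat_lit 1271251), (nat_lit 1271251), (nat_lit 0), (nat_lit 1100000), [(nat_lit 1412501), (nat_lit 1271251), (nat_lit 1271251)], [(nat_lit 24),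 (nat_lit 63), (nat_lit 428), (nat_lit 200), (nat_lit 10)]⟩⟩) (.leaf ⟨(nat_lit 0), (nat_lit 0), (nat_lit 0), (nat_lit 1000), (nat_lit 0), (nat_lit 4221), (nat_lit 14023), (nat_lit 12781), (nat_lit 0), (nat_lit 46374334937808), (nat_lit 0), [], Pd.none, Pd.none, (nat_lit 0), (nat_lit 1), (nat_lit 0), (nat_lit 0), (nat_lit 0), (nat_lit 0), [⟨(nat_lit 0), (nat_lit 100), (nat_lit 53), (nat_lit 93), (nat_lit 4653592424)⟩], [], [], [],
 ⟨⟨[(nat_lit 40), (nat_lit 80), (nat_lit 100)], [(nat_lit 0), (nat_lit 1598), (nat_lit 2533)], [((nat_lit 0), (nat_lit 0), (nat_lit 0)), ((nat_lit 1000), (nat_lit 625), (nat_lit 623)), ((nat_lit 1000), (nat_lit 604), (nat_lit 730))], ((nat_lit 60), (nat_lit 100), (nat_lit 75))⟩, (nat_lit 1740119), (nat_lit 155), (nat_lit 155), (nat_lit 0), (nat_lit 144715), [(nat_lit 2032000108), (nat_lit 4688000134), (nat_lit 6250000000)], [], [(nat_lit 25034827956), (nat_lit 26163557764), (nat_lit 25108090300), (nat_lit 26115666704), (nat_lit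 28611756800), (nat_lit 29956623385), (nat_lit 28483598298), (nat_lit 29781952715)], (nat_lit 1271251), (nat_lit 1271251), (nat_lit 559688), (nat_lit 780000), (nat_lit 1271251), (nat_lit 1271251), [(nat_lit 490000), (nat_lit 1100000), (nat_lit 1442501)], [(nat_lit 3), (nat_lit 50), (nat_lit 238), (nat_lit 30), (nat_lit 7)]⟩,
 ⟨⟨[(nat_lit 100), (nat_lit 140), (nat_lit 180)], [(nat_lit 0), (nat_lit 508), (nat_lit 2854)], [((nat_lit 0), (nat_lit 0), (nat_lit 0)), ((nat_lit 1000), (nat_lit 1000), (nat_lit 198)), ((nat_lit 777), (nat_lit 1000), (nat_lit 712))], ((nat_lit 100), (nat_lit 74), (nat_lit 76))⟩, (nat_lit 0), (nat_lit 390), (nat_lit 390), (nat_lit 0), (nat_lit 326371), [(nat_lit 6250000000), (nat_lit 9842000000), (nat_lit 14058000000)], [], [(nat_lit 32419181721), (nat_lit 32683851815), (nat_lit 31240307754), (nat_lit 31468013672), (nat_lit 47185764202), (nat_lit 40706979836), (nat_lit 50576690545), (nat_lit 43966467454)], (nat_lit 1271251), (nat_lit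 1271251), (nat_lit 559688), (nat_lit 780000), (nat_lit 1100000), (nat_lit 2641251), [(nat_lit 1412501), (nat_lit 1271251), (nat_lit 1271251)], [(nat_lit 24), (nat_lit 63), (nat_lit 401), (nat_lit 175), (nat_lit 9)]⟩,
 ⟨⟨[(nat_lit 100), (nat_lit 140), (nat_lit 180)], [(nat_lit 0), (nat_lit 508), (nat_lit 2854)], [((nat_lit 0), (nat_lit 0), (nat_lit 0)), ((nat_lit 1000), (nat_lit 1000), (nat_lit 198)), ((nat_lit 777), (nat_lit 1000), (nat_lit 712))], ((nat_lit 100), (nat_lit 74), (nat_lit 76))⟩, (nat_lit 637935), (nat_lit 300), (nat_lit 446), (nat_lit 67985208), (nat_lit 588651), [(nat_lit 6250000000), (nat_lit 9842000000), (nat_lit 14058000000)], [], [(nat_lit 37387747883), (nat_lit 37151005472), (nat_lit 39386500796), (nat_lit 39012503068), (nat_lit 37477366888), (nat_lit 37001258483), (nat_lit 39407839280), (nat_lit 39084114512)], (nat_lit 1271251), (nat_lit 1271251), (nat_lit 1271251), (nat_lit 1271251), (nat_lit 1100000), (nat_lit 2641251), [(nat_lit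 1412501), (nat_lit 1271251), (nat_lit 1271251)], [(nat_lit 24), (nat_lit 63), (nat_lit 483), (nat_lit 250), (nat_lit 10)]⟩⟩))))
noncomputable def c16_9 : Tr Lf :=
 (.spl (nat_lit 3) (nat_lit 200) (.spl (nat_lit 1) (nat_lit 180) (.leaf ⟨(nat_lit 1000), (nat_lit 0), (nat_lit 0), (nat_lit 0), (nat_lit 0), (nat_lit 3377), (nat_lit 0), (nat_lit 0), (nat_lit 0), (nat_lit 1514973), (nat_lit 583900), [((nat_lit 380), [((nat_lit 24), (nat_lit 0), (nat_lit 46)), ((nat_lit 41), (nat_lit 2), (nat_lit 954))])], ⟨(nat_lit 3), false, false, true, (nat_lit 154), (nat_lit 2236), (nat_lit 3163), [(nat_lit 1289472), (nat_lit 1294870), (nat_lit 1355794), (nat_lit 1363050), (nat_lit 1411379), (nat_lit 1408901), (nat_lit 1477844), (nat_lit 1477224)]⟩, ⟨(nat_lit 3), false, false, false, (nat_lit 101), (nat_lit 2236), (nat_lit 3163), [(nat_lit 1136876), (nat_lit 1152119), (nat_lit 1203150), (nat_lit 1220251), (nat_lit 1289472), (nat_lit 1294870), (nat_lit 1355794), (nat_lit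 1363050)]⟩, (nat_lit 3355243), (nat_lit 53519741), (nat_lit 8865665), (nat_lit 4614594), (nat_lit 0), (nat_lit 0), [], [⟨(nat_lit 0), (nat_lit 100), (nat_lit 44), (nat_lit 86), (nat_lit 180662264)⟩], [], [],
 ⟨⟨[(nat_lit 40), (nat_lit 60), (nat_lit 80)], [(nat_lit 0), (nat_lit 832), (nat_lit 1534)], [((nat_lit 0), (nat_lit 0), (nat_lit 0)), ((nat_lit 1000), (nat_lit 659), (nat_lit 528)), ((nat_lit 1000), (nat_lit 650), (nat_lit 549))], ((nat_lit 65), (nat_lit 100), (nat_lit 55))⟩, (nat_lit 191671), (nat_lit 248), (nat_lit 248), (nat_lit 0), (nat_lit 396051), [(nat_lit 1305075293), (nat_lit 643528650), (nat_lit 28086400)], [(nat_lit 0), (nat_lit 0), (nat_lit 0)], [(nat_lit 20499893553), (nat_lit 22536641850), (nat_lit 22023953490), (nat_lit 23820446939), (nat_lit 19709723312), (nat_lit 21056026789), (nat_lit 21364884133), (nat_lit 22563676170)], (nat_lit 1271251), (nat_lit 1271251), (nat_lit 780000), (nat_lit 1435001), (nat_lit 111251), (nat_lit 780000),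 [(nat_lit 490000), (nat_lit 780000), (nat_lit 1100000)], [(nat_lit 2), (nat_lit 44), (nat_lit 317), (nat_lit 100), (nat_lit 14)]⟩,
 Rw.none,
 Rw.none⟩) (.leaf ⟨(nat_lit 1000), (nat_lit 0), (nat_lit 0), (nat_lit 0), (nat_lit 0), (nat_lit 3259), (nat_lit 0), (nat_lit 0), (nat_lit 0), (nat_lit 0), (nat_lit 583900), [((nat_lit 380), [((nat_lit 24), (nat_lit 0), (nat_lit 46)), ((nat_lit 41), (nat_lit 2), (nat_lit 954))])], ⟨(nat_lit 4), false, false, false, (nat_lit 181), (nat_lit 2236), (nat_lit 3163), [(nat_lit 1355794), (nat_lit 1363050), (nat_lit 1422068), (nat_lit 1431182), (nat_lit 1477844), (nat_lit 1477224), (nat_lit 1544182), (nat_lit 1545421)]⟩, ⟨(nat_lit 3), false, false, false, (nat_lit 101), (nat_lit 2236), (nat_lit 3163), [(nat_lit 1136876), (nat_lit 1152119), (nat_lit 1203150), (nat_lit 1220251), (nat_lit 1289472), (nat_lit 1294870), (nat_lit 1355794), (nat_lit 1363050)]⟩, (nat_lit 3674045), (nat_lit 51054755), (nat_lit 11354884), (nat_lit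 4590361), (nat_lit 0), (nat_lit 0), [], [⟨(nat_lit 0), (nat_lit 100), (nat_lit 44), (nat_lit 86), (nat_lit 117437236)⟩], [], [],
 ⟨⟨[(nat_lit 40), (nat_lit 60), (nat_lit 80)], [(nat_lit 0), (nat_lit 832), (nat_lit 1534)], [((nat_lit 0), (nat_lit 0), (nat_lit 0)), ((nat_lit 1000), (nat_lit 659), (nat_lit 528)), ((nat_lit 1000), (nat_lit 650), (nat_lit 549))], ((nat_lit 65), (nat_lit 100), (nat_lit 55))⟩, (nat_lit 27381), (nat_lit 268), (nat_lit 268), (nat_lit 0), (nat_lit 463565), [(nat_lit 1305075239), (nat_lit 592177781), (nat_lit 28086400)], [(nat_lit 0), (nat_lit 0), (nat_lit 0)], [(nat_lit 20279547551), (nat_lit 22277080200), (nat_lit 21824281530), (nat_lit 23587530530), (nat_lit 20042823944), (nat_lit 21365805370), (nat_lit 21704555418), (nat_lit 22883652164)], (nat_lit 1271251), (nat_lit 1271251), (nat_lit 780000), (nat_lit 1435001), (nat_lit 111251), (nat_lit 780000), [(nat_lit 490000), (nat_lit 780000), (nat_lit 1100000)], [(nat_lit 2), (nat_lit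 44), (nat_lit 317), (nat_lit 100), (nat_lit 14)]⟩,
 Rw.none,
 Rw.none⟩)) (.trX (nat_lit 5) (nat_lit 3) (nat_lit 4) (nat_lit 100) (nat_lit 40) (nat_lit 92) (nat_lit 390) (.spl (nat_lit 1) (nat_lit 180) (.leaf ⟨(nat_lit 1000), (nat_lit 0), (nat_lit 0), (nat_lit 0), (nat_lit 0), (nat_lit 3353), (nat_lit 0), (nat_lit 0), (nat_lit 0), (nat_lit 122947), (nat_lit 583900), [((nat_lit 380), [((nat_lit 24), (nat_lit 0), (nat_lit 46)), ((nat_lit 41), (nat_lit 2), (nat_lit 954))])], ⟨(nat_lit 5), false, false, true, (nat_lit 189), (nat_lit 2236), (nat_lit 3163), [(nat_lit 1411379), (nat_lit 1408901), (nat_lit 1477844), (nat_lit 1477224), (nat_lit 1472332), (nat_lit 1465917), (nat_lit 1538797), (nat_lit 1534240)]⟩, ⟨(nat_lit 3), false, false, false, (nat_lit 101), (nat_lit 2236), (nat_lit 3163), [(nat_lit 1136876), (nat_lit 1152119), (nat_lit 1203150), (nat_lit 1220251), (nat_lit 1289472), (nat_lit 1294870), (nat_lit 1355794), (nat_lit 1363050)]⟩, (nat_lit 3763946),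 (nat_lit 50260210), (nat_lit 12165897), (nat_lit 4573893), (nat_lit 0), (nat_lit 0), [], [⟨(nat_lit 0), (nat_lit 100), (nat_lit 44), (nat_lit 86), (nat_lit 184056118)⟩], [], [],
 ⟨⟨[(nat_lit 40), (nat_lit 60), (nat_lit 80)], [(nat_lit 0), (nat_lit 832), (nat_lit 1534)], [((nat_lit 0), (nat_lit 0), (nat_lit 0)), ((nat_lit 1000), (nat_lit 659), (nat_lit 528)), ((nat_lit 1000), (nat_lit 650), (nat_lit 549))], ((nat_lit 65), (nat_lit 100), (nat_lit 55))⟩, (nat_lit 111927), (nat_lit 232), (nat_lit 232), (nat_lit 0), (nat_lit 396051), [(nat_lit 1305075203), (nat_lit 654087796), (nat_lit 28086400)], [(nat_lit 0), (nat_lit 0), (nat_lit 0)], [(nat_lit 21983342244), (nat_lit 23773074110), (nat_lit 23284750487), (nat_lit 24940836347), (nat_lit 21433969423), (nat_lit 22628755638), (nat_lit 22527087863), (nat_lit 23644288718)], (nat_lit 1271251), (nat_lit 1271251), (nat_lit 1271251), (nat_lit 1271251), (nat_lit 111251), (nat_lit 780000), [(nat_lit 490000), (nat_lit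 780000), (nat_lit 1100000)], [(nat_lit 2), (nat_lit 44), (nat_lit 238), (nat_lit 30), (nat_lit 10)]⟩,
 Rw.none,
 Rw.none⟩) (.leaf ⟨(nat_lit 960), (nat_lit 20), (nat_lit 0), (nat_lit 20), (nat_lit 0), (nat_lit 3126), (nat_lit 516), (nat_lit 217), (nat_lit 0), (nat_lit 0), (nat_lit 541800), [((nat_lit 380), [((nat_lit 24), (nat_lit 1), (nat_lit 171)), ((nat_lit 41), (nat_lit 2), (nat_lit 789))])], ⟨(nat_lit 5), false, true, true, (nat_lit 216), (nat_lit 2236), (nat_lit 3163), [(nat_lit 1477844), (nat_lit 1477224), (nat_lit 1544182), (nat_lit 1545421), (nat_lit 1538797), (nat_lit 1534240), (nat_lit 1605240), (nat_lit 1602541)]⟩, ⟨(nat_lit 3), false, false, false, (nat_lit 101), (nat_lit 2236), (nat_lit 3163), [(nat_lit 1136876), (nat_lit 1152119), (nat_lit 1203150), (nat_lit 1220251), (nat_lit 1289472), (nat_lit 1294870), (nat_lit 1355794), (nat_lit 1363050)]⟩, (nat_lit 4014268), (nat_lit 47713943), (nat_lit 14788806), (nat_lit 4497251), (nat_lit 3), (nat_lit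 0), [], [⟨(nat_lit 0), (nat_lit 100), (nat_lit 44), (nat_lit 86), (nat_lit 69267431)⟩], [], [],
 ⟨⟨[(nat_lit 40), (nat_lit 60), (nat_lit 80)], [(nat_lit 0), (nat_lit 832), (nat_lit 1534)], [((nat_lit 0), (nat_lit 0), (nat_lit 0)), ((nat_lit 1000), (nat_lit 659), (nat_lit 528)), ((nat_lit 1000), (nat_lit 650), (nat_lit 549))], ((nat_lit 65), (nat_lit 100), (nat_lit 55))⟩, (nat_lit 0), (nat_lit 257), (nat_lit 257), (nat_lit 0), (nat_lit 463565), [(nat_lit 1328500011), (nat_lit 720715776), (nat_lit 309063200)], [(nat_lit 0), (nat_lit 0), (nat_lit 0)], [(nat_lit 22115721032), (nat_lit 23392171602), (nat_lit 23290346312), (nat_lit 24490151739), (nat_lit 22204529420), (nat_lit 23361427236), (nat_lit 23289478471), (nat_lit 24372507881)], (nat_lit 1271251), (nat_lit 1271251), (nat_lit 1271251), (nat_lit 1271251), (nat_lit 111251), (nat_lit 780000), [(nat_lit 490000), (nat_lit 780000), (nat_lit 1100000)], [(nat_lit 2), (nat_lit 44), (nat_lit 238), (nat_lit 30),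 (nat_lit 10)]⟩,
 ⟨⟨[(nat_lit 120), (nat_lit 140), (nat_lit 160)], [(nat_lit 0), (nat_lit 266), (nat_lit 862)], [((nat_lit 0), (nat_lit 0), (nat_lit 0)), ((nat_lit 960), (nat_lit 1000), (nat_lit 200)), ((nat_lit 874), (nat_lit 1000), (nat_lit 406))], ((nat_lit 100), (nat_lit 81), (nat_lit 51))⟩, (nat_lit 564455), (nat_lit 1410), (nat_lit 1410), (nat_lit 0), (nat_lit 2424808), [(nat_lit 318720000), (nat_lit 393680000), (nat_lit 474880000)], [], [(nat_lit 1362382598), (nat_lit 979649244), (nat_lit 961245104), (nat_lit 1016457524), (nat_lit 2731364082), (nat_lit 2050119564), (nat_lit 2274340011), (nat_lit 1601678670)], (nat_lit 1271251), (nat_lit 1271251), (nat_lit 1271251), (nat_lit 1271251), (nat_lit 0), (nat_lit 2754376), [(nat_lit 1695001), (nat_lit 1271251), (nat_lit 1271251)], [(nat_lit 27), (nat_lit 62), (nat_lit 462), (nat_lit 225), (nat_lit 12)]⟩,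
 ⟨⟨[(nat_lit 140), (nat_lit 180), (nat_lit 200)], [(nat_lit 0), (nat_lit 0), (nat_lit 2835)], [((nat_lit 0), (nat_lit 0), (nat_lit 0)), ((nat_lit 0), (nat_lit 0), (nat_lit 0)), ((nat_lit 363), (nat_lit 1000), (nat_lit 798))], ((nat_lit 0), (nat_lit 0), (nat_lit 0))⟩, (nat_lit 5504), (nat_lit 300), (nat_lit 1975), (nat_lit 1562000), (nat_lit 3065628), [(nat_lit 196840000), (nat_lit 281160000), (nat_lit 328000000)], [], [(nat_lit 1718640959), (nat_lit 1661008294), (nat_lit 1608902507), (nat_lit 1563253847), (nat_lit 1417416166), (nat_lit 1372437941), (nat_lit 1325201934), (nat_lit 1448514060)], (nat_lit 780000), (nat_lit 1271251), (nat_lit 111251), (nat_lit 780000), (nat_lit 0), (nat_lit 2754376), [(nat_lit 1977501), (nat_lit 1271251), (nat_lit 1271251)], [(nat_lit 32), (nat_lit 67), (nat_lit 580), (nat_lit 175), (nat_lit 13)]⟩⟩))))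
noncomputable def c16_10 : Tr Lf :=
 (.trX (nat_lit 5) (nat_lit 3) (nat_lit 4) (nat_lit 100) (nat_lit 59) (nat_lit 94) (nat_lit 370) (.spl (nat_lit 1) (nat_lit 180) (.trX (nat_lit 3) (nat_lit 0) (nat_lit 1) (nat_lit 60) (nat_lit 86) (nat_lit 100) (nat_lit 310) (.leaf ⟨(nat_lit 1000), (nat_lit 0), (nat_lit 0), (nat_lit 0), (nat_lit 0), (nat_lit 3032), (nat_lit 0), (nat_lit 0), (nat_lit 0), (nat_lit 82274816120), (nat_lit 583900), [((nat_lit 380), [((nat_lit 24), (nat_lit 0), (nat_lit 46)), ((nat_lit 41), (nat_lit 2), (nat_lit 954))])], ⟨(nat_lit 6), false, false, true, (nat_lit 222), (nat_lit 2236), (nat_lit 3163), [(nat_lit 1472332), (nat_lit 1465917), (nat_lit 1538797), (nat_lit 1534240), (nat_lit 1579000), (nat_lit 1565693), (nat_lit 1645465), (nat_lit 1634017)]⟩, ⟨(nat_lit 3), false, false, false, (nat_lit 101), (nat_lit 2236), (nat_lit 3163), [(nat_lit 1136876), (nat_lit 1152119), (nat_lit 1203150), (nat_lit 1220251), (nat_lit 1289472), (nat_lit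 1294870), (nat_lit 1355794), (nat_lit 1363050)]⟩, (nat_lit 4058863), (nat_lit 47192430), (nat_lit 15330058), (nat_lit 4477512), (nat_lit 0), (nat_lit 0), [⟨(nat_lit 1), (nat_lit 86), (nat_lit 60), (nat_lit 100), (nat_lit 285143155)⟩], [⟨(nat_lit 0), (nat_lit 100), (nat_lit 54), (nat_lit 71), (nat_lit 69511822)⟩], [], [],
 ⟨⟨[(nat_lit 40), (nat_lit 60), (nat_lit 80)], [(nat_lit 0), (nat_lit 832), (nat_lit 1534)], [((nat_lit 0), (nat_lit 0), (nat_lit 0)), ((nat_lit 1000), (nat_lit 659), (nat_lit 528)), ((nat_lit 1000), (nat_lit 650), (nat_lit 549))], ((nat_lit 65), (nat_lit 100), (nat_lit 55))⟩, (nat_lit 126061), (nat_lit 247), (nat_lit 247), (nat_lit 0), (nat_lit 396051), [(nat_lit 1305075307), (nat_lit 614547953), (nat_lit 28086400)], [(nat_lit 0), (nat_lit 0), (nat_lit 0)], [(nat_lit 23386925259), (nat_lit 24562779273), (nat_lit 26117807984), (nat_lit 27455154798), (nat_lit 23439557847), (nat_lit 24508436967), (nat_lit 25946868940), (nat_lit 26883323051)],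 (nat_lit 1271251), (nat_lit 1271251), (nat_lit 1271251), (nat_lit 1271251), (nat_lit 111251), (nat_lit 780000), [(nat_lit 490000), (nat_lit 780000), (nat_lit 1100000)], [(nat_lit 2), (nat_lit 44), (nat_lit 238), (nat_lit 30), (nat_lit 10)]⟩,
 Rw.none,
 Rw.none⟩)) (.stt (nat_lit 2) (.leaf ⟨(nat_lit 36), (nat_lit 885), (nat_lit 0), (nat_lit 79), (nat_lit 0), (nat_lit 4410), (nat_lit 12006), (nat_lit 854), (nat_lit 0), (nat_lit 0), (nat_lit 144000), [((nat_lit 380), [((nat_lit 41), (nat_lit 5), (nat_lit 36))])], ⟨(nat_lit 6), true, false, true, (nat_lit 261), (nat_lit 2236), (nat_lit 3163), [(nat_lit 1538797), (nat_lit 1534240), (nat_lit 1605240), (nat_lit 1602541), (nat_lit 1706419), (nat_lit 1691033), (nat_lit 1772883), (nat_lit 1759355)]⟩, ⟨(nat_lit 3), false, false, false, (nat_lit 101), (nat_lit 2236), (nat_lit 3163), [(nat_lit 1136876), (nat_lit 1152119), (nat_lit 1203150), (nat_lit 1220251), (nat_lit 1289472), (nat_lit 1294870), (nat_lit 1355794),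 (nat_lit 1363050)]⟩, (nat_lit 4312978), (nat_lit 43542006), (nat_lit 19151324), (nat_lit 4306670), (nat_lit 3), (nat_lit 0), [], [⟨(nat_lit 0), (nat_lit 100), (nat_lit 44), (nat_lit 86), (nat_lit 13614168)⟩], [], [⟨(nat_lit 1), (nat_lit 100), (nat_lit 94), (nat_lit 81), (nat_lit 35152327)⟩],
 ⟨⟨[(nat_lit 40), (nat_lit 60), (nat_lit 80)], [(nat_lit 0), (nat_lit 832), (nat_lit 1534)], [((nat_lit 0), (nat_lit 0), (nat_lit 0)), ((nat_lit 1000), (nat_lit 659), (nat_lit 528)), ((nat_lit 1000), (nat_lit 650), (nat_lit 549))], ((nat_lit 65), (nat_lit 100), (nat_lit 55))⟩, (nat_lit 1163021), (nat_lit 274), (nat_lit 274), (nat_lit 0), (nat_lit 463565), [(nat_lit 1894139236), (nat_lit 2865897758), (nat_lit 3904510400)], [(nat_lit 0), (nat_lit 0), (nat_lit 0)], [(nat_lit 25115760405), (nat_lit 27039398598), (nat_lit 31650768966), (nat_lit 33085904514), (nat_lit 23319465430), (nat_lit 24417368361), (nat_lit 28742774423), (nat_lit 30069616243)], (nat_lit 1271251),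 (nat_lit 1271251), (nat_lit 1271251), (nat_lit 1271251), (nat_lit 111251), (nat_lit 780000), [(nat_lit 490000), (nat_lit 780000), (nat_lit 1100000)], [(nat_lit 2), (nat_lit 44), (nat_lit 238), (nat_lit 30), (nat_lit 10)]⟩,
 ⟨⟨[(nat_lit 120), (nat_lit 140), (nat_lit 160)], [(nat_lit 0), (nat_lit 266), (nat_lit 862)], [((nat_lit 0), (nat_lit 0), (nat_lit 0)), ((nat_lit 960), (nat_lit 1000), (nat_lit 200)), ((nat_lit 874), (nat_lit 1000), (nat_lit 406))], ((nat_lit 100), (nat_lit 81), (nat_lit 51))⟩, (nat_lit 675663), (nat_lit 252), (nat_lit 252), (nat_lit 0), (nat_lit 0), [(nat_lit 7681152000), (nat_lit 9487688000), (nat_lit 11444608000)], [], [(nat_lit 31680022212), (nat_lit 33986055678), (nat_lit 42860051322), (nat_lit 43597449078), (nat_lit 33023161340), (nat_lit 32951210175), (nat_lit 37532561381), (nat_lit 37583892374)], (nat_lit 0), (nat_lit 0), (nat_lit 0), (nat_lit 0), (nat_lit 0), (nat_lit 0), [], [(nat_lit 27), (nat_lit 62), (nat_lit 483), (nat_lit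 250), (nat_lit 12)]⟩,
 ⟨⟨[(nat_lit 140), (nat_lit 180), (nat_lit 200)], [(nat_lit 0), (nat_lit 0), (nat_lit 2835)], [((nat_lit 0), (nat_lit 0), (nat_lit 0)), ((nat_lit 0), (nat_lit 0), (nat_lit 0)), ((nat_lit 363), (nat_lit 1000), (nat_lit 798))], ((nat_lit 0), (nat_lit 0), (nat_lit 0))⟩, (nat_lit 21736), (nat_lit 300), (nat_lit 1975), (nat_lit 6169900), (nat_lit 3065628), [(nat_lit 777518000), (nat_lit 1110582000), (nat_lit 1295600000)], [], [(nat_lit 6781988208), (nat_lit 6594907761), (nat_lit 6395400222), (nat_lit 6215879136), (nat_lit 5681724799), (nat_lit 5504899260), (nat_lit 5318716466), (nat_lit 5570654265)], (nat_lit 780000), (nat_lit 1271251), (nat_lit 111251), (nat_lit 780000), (nat_lit 0), (nat_lit 2613125), [(nat_lit 1977501), (nat_lit 1271251), (nat_lit 1271251)], [(nat_lit 32), (nat_lit 67), (nat_lit 578), (nat_lit 175), (nat_lit 13)]⟩⟩) (.spl (nat_lit 4) (nat_lit 80) (.trX (nat_lit 5) (nat_lit 3) (nat_lit 4) (nat_lit 100) (nat_lit 76)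 (nat_lit 82) (nat_lit 340) (.spl (nat_lit 1) (nat_lit 220) (.trX (nat_lit 3) (nat_lit 0) (nat_lit 1) (nat_lit 60) (nat_lit 74) (nat_lit 100) (nat_lit 340) (.leaf ⟨(nat_lit 947), (nat_lit 49), (nat_lit 0), (nat_lit 4), (nat_lit 0), (nat_lit 3156), (nat_lit 519), (nat_lit 47), (nat_lit 0), (nat_lit 0), (nat_lit 440400), [((nat_lit 380), [((nat_lit 24), (nat_lit 1), (nat_lit 639)), ((nat_lit 41), (nat_lit 2), (nat_lit 308))])], ⟨(nat_lit 6), false, true, true, (nat_lit 253), (nat_lit 2236), (nat_lit 3163), [(nat_lit 1538797), (nat_lit 1534240), (nat_lit 1583107), (nat_lit 1579788), (nat_lit 1691180), (nat_lit 1676779), (nat_lit 1735490), (nat_lit 1722327)]⟩, ⟨(nat_lit 3), false, false, false, (nat_lit 89), (nat_lit 2236), (nat_lit 3163), [(nat_lit 1136876), (nat_lit 1152119), (nat_lit 1203150), (nat_lit 1220251), (nat_lit 1228462), (nat_lit 1237798), (nat_lit 1294736), (nat_lit 1305930)]⟩, (nat_lit 4125299), (nat_lit 44827210), (nat_lit 18556618), (nat_lit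 3616172), (nat_lit 3), (nat_lit 0), [⟨(nat_lit 1), (nat_lit 74), (nat_lit 60), (nat_lit 100), (nat_lit 199991500)⟩], [⟨(nat_lit 0), (nat_lit 100), (nat_lit 54), (nat_lit 71), (nat_lit 302010964)⟩], [], [⟨(nat_lit 1), (nat_lit 100), (nat_lit 92), (nat_lit 68), (nat_lit 1918238)⟩],
 ⟨⟨[(nat_lit 40), (nat_lit 60), (nat_lit 80)], [(nat_lit 0), (nat_lit 832), (nat_lit 1534)], [((nat_lit 0), (nat_lit 0), (nat_lit 0)), ((nat_lit 1000), (nat_lit 659), (nat_lit 528)), ((nat_lit 1000), (nat_lit 650), (nat_lit 549))], ((nat_lit 65), (nat_lit 100), (nat_lit 55))⟩, (nat_lit 0), (nat_lit 204), (nat_lit 204), (nat_lit 0), (nat_lit 243657), [(nat_lit 1373233202), (nat_lit 1013314011), (nat_lit 842063200)], [(nat_lit 0), (nat_lit 0), (nat_lit 0)], [(nat_lit 23158967064), (nat_lit 24549713581), (nat_lit 28058001555), (nat_lit 29318002783), (nat_lit 22589628870), (nat_lit 23692736294), (nat_lit 26373132002), (nat_lit 27593513583)], (nat_lit 1271251), (nat_lit 1271251),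 (nat_lit 1271251), (nat_lit 1271251), (nat_lit 111251), (nat_lit 490000), [(nat_lit 490000), (nat_lit 780000), (nat_lit 1100000)], [(nat_lit 2), (nat_lit 44), (nat_lit 226), (nat_lit 20), (nat_lit 9)]⟩,
 ⟨⟨[(nat_lit 120), (nat_lit 140), (nat_lit 160)], [(nat_lit 0), (nat_lit 266), (nat_lit 862)], [((nat_lit 0), (nat_lit 0), (nat_lit 0)), ((nat_lit 960), (nat_lit 1000), (nat_lit 200)), ((nat_lit 874), (nat_lit 1000), (nat_lit 406))], ((nat_lit 100), (nat_lit 81), (nat_lit 51))⟩, (nat_lit 311006), (nat_lit 1383), (nat_lit 1383), (nat_lit 0), (nat_lit 2402799), [(nat_lit 422304000), (nat_lit 521626000), (nat_lit 629216000)], [], [(nat_lit 2142342127), (nat_lit 2099529125), (nat_lit 2091895836), (nat_lit 2071513792), (nat_lit 2674940637), (nat_lit 2216747196), (nat_lit 1737746205), (nat_lit 1732438772)], (nat_lit 1271251), (nat_lit 1271251), (nat_lit 1271251), (nat_lit 1271251), (nat_lit 0), (nat_lit 2401251), [(nat_lit 1695001), (nat_lit 1271251), (nat_lit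 1271251)], [(nat_lit 27), (nat_lit 62), (nat_lit 459), (nat_lit 225), (nat_lit 12)]⟩,
 ⟨⟨[(nat_lit 140), (nat_lit 180), (nat_lit 200)], [(nat_lit 0), (nat_lit 0), (nat_lit 2835)], [((nat_lit 0), (nat_lit 0), (nat_lit 0)), ((nat_lit 0), (nat_lit 0), (nat_lit 0)), ((nat_lit 363), (nat_lit 1000), (nat_lit 798))], ((nat_lit 0), (nat_lit 0), (nat_lit 0))⟩, (nat_lit 1101), (nat_lit 300), (nat_lit 1032), (nat_lit 312400), (nat_lit 945904), [(nat_lit 39368000), (nat_lit 56232000), (nat_lit 65600000)], [], [(nat_lit 356993405), (nat_lit 322553318), (nat_lit 310975028), (nat_lit 300114881), (nat_lit 268827454), (nat_lit 258027153), (nat_lit 248337095), (nat_lit 259857128)], (nat_lit 780000), (nat_lit 1271251), (nat_lit 111251), (nat_lit 490000), (nat_lit 0), (nat_lit 2401251), [(nat_lit 1977501), (nat_lit 1271251), (nat_lit 1271251)], [(nat_lit 32), (nat_lit 67), (nat_lit 373), (nat_lit 150), (nat_lit 9)]⟩⟩)) (.leaf ⟨(nat_lit 922), (nat_lit 78), (nat_lit 0),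 (nat_lit 0), (nat_lit 0), (nat_lit 3305), (nat_lit 666), (nat_lit 0), (nat_lit 0), (nat_lit 0), (nat_lit 368800), [((nat_lit 380), [((nat_lit 24), (nat_lit 1), (nat_lit 922))])], ⟨(nat_lit 6), false, true, true, (nat_lit 270), (nat_lit 2236), (nat_lit 3163), [(nat_lit 1583107), (nat_lit 1579788), (nat_lit 1605240), (nat_lit 1602541), (nat_lit 1750729), (nat_lit 1736581), (nat_lit 1772883), (nat_lit 1759355)]⟩, ⟨(nat_lit 3), false, false, false, (nat_lit 89), (nat_lit 2236), (nat_lit 3163), [(nat_lit 1136876), (nat_lit 1152119), (nat_lit 1203150), (nat_lit 1220251), (nat_lit 1228462), (nat_lit 1237798), (nat_lit 1294736), (nat_lit 1305930)]⟩, (nat_lit 4214110), (nat_lit 43260398), (nat_lit 20190684), (nat_lit 3548918), (nat_lit 3), (nat_lit 0), [⟨(nat_lit 1), (nat_lit 68), (nat_lit 61), (nat_lit 100), (nat_lit 206068619)⟩], [⟨(nat_lit 0), (nat_lit 100), (nat_lit 54), (nat_lit 71), (nat_lit 279535746)⟩], [], [⟨(nat_lit 1), (nat_lit 100), (nat_lit 90),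 (nat_lit 68), (nat_lit 16000714)⟩],
 ⟨⟨[(nat_lit 40), (nat_lit 60), (nat_lit 80)], [(nat_lit 0), (nat_lit 832), (nat_lit 1534)], [((nat_lit 0), (nat_lit 0), (nat_lit 0)), ((nat_lit 1000), (nat_lit 659), (nat_lit 528)), ((nat_lit 1000), (nat_lit 650), (nat_lit 549))], ((nat_lit 65), (nat_lit 100), (nat_lit 55))⟩, (nat_lit 0), (nat_lit 209), (nat_lit 209), (nat_lit 0), (nat_lit 254502), [(nat_lit 1408916001), (nat_lit 1160293641), (nat_lit 1252167559)], [(nat_lit 0), (nat_lit 0), (nat_lit 0)], [(nat_lit 23395371115), (nat_lit 24845537399), (nat_lit 29009691546), (nat_lit 30260156282), (nat_lit 22796994345), (nat_lit 23916090205), (nat_lit 27188935154), (nat_lit 28401685181)], (nat_lit 1271251), (nat_lit 1271251), (nat_lit 1271251), (nat_lit 1271251), (nat_lit 111251), (nat_lit 490000), [(nat_lit 490000), (nat_lit 780000), (nat_lit 1100000)], [(nat_lit 2), (nat_lit 44), (nat_lit 226), (nat_lit 20), (nat_lit 9)]⟩,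
 ⟨⟨[(nat_lit 100), (nat_lit 140), (nat_lit 160)], [(nat_lit 0), (nat_lit 508), (nat_lit 1689)], [((nat_lit 0), (nat_lit 0), (nat_lit 0)), ((nat_lit 1000), (nat_lit 1000), (nat_lit 198)), ((nat_lit 811), (nat_lit 1000), (nat_lit 671))], ((nat_lit 100), (nat_lit 91), (nat_lit 51))⟩, (nat_lit 467500), (nat_lit 1051), (nat_lit 1051), (nat_lit 0), (nat_lit 1717847), [(nat_lit 487500000), (nat_lit 767676000), (nat_lit 926016000)], [], [(nat_lit 2875079116), (nat_lit 2860299328), (nat_lit 2888980558), (nat_lit 2871507413), (nat_lit 2551705268), (nat_lit 2409636384), (nat_lit 2525459069), (nat_lit 2530359000)], (nat_lit 1271251), (nat_lit 1271251), (nat_lit 1271251), (nat_lit 1271251), (nat_lit 0), (nat_lit 2401251), [(nat_lit 1412501), (nat_lit 1271251), (nat_lit 1271251)], [(nat_lit 23), (nat_lit 62), (nat_lit 483), (nat_lit 250), (nat_lit 12)]⟩,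
 Rw.none⟩))) (.leaf ⟨(nat_lit 944), (nat_lit 46), (nat_lit 0), (nat_lit 10), (nat_lit 0), (nat_lit 3197), (nat_lit 543), (nat_lit 127), (nat_lit 0), (nat_lit 0), (nat_lit 357650), [((nat_lit 380), [((nat_lit 24), (nat_lit 0), (nat_lit 133)), ((nat_lit 24), (nat_lit 1), (nat_lit 811))])], ⟨(nat_lit 6), false, true, true, (nat_lit 261), (nat_lit 2236), (nat_lit 3163), [(nat_lit 1538797), (nat_lit 1534240), (nat_lit 1605240), (nat_lit 1602541), (nat_lit 1706419), (nat_lit 1691033), (nat_lit 1772883), (nat_lit 1759355)]⟩, ⟨(nat_lit 3), false, false, false, (nat_lit 119), (nat_lit 2236), (nat_lit 3163), [(nat_lit 1228462), (nat_lit 1237798), (nat_lit 1294736), (nat_lit 1305930), (nat_lit 1289472), (nat_lit 1294870), (nat_lit 1355794), (nat_lit 1363050)]⟩, (nat_lit 4519021), (nat_lit 42638336), (nat_lit 18907918), (nat_lit 5453746), (nat_lit 3), (nat_lit 0), [⟨(nat_lit 1), (nat_lit 82), (nat_lit 53), (nat_lit 100), (nat_lit 237746269)⟩, ⟨(nat_lit 1), (nat_lit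 68), (nat_lit 61), (nat_lit 100), (nat_lit 25521165)⟩], [], [], [],
 ⟨⟨[(nat_lit 40), (nat_lit 60), (nat_lit 80)], [(nat_lit 0), (nat_lit 832), (nat_lit 1534)], [((nat_lit 0), (nat_lit 0), (nat_lit 0)), ((nat_lit 1000), (nat_lit 659), (nat_lit 528)), ((nat_lit 1000), (nat_lit 650), (nat_lit 549))], ((nat_lit 65), (nat_lit 100), (nat_lit 55))⟩, (nat_lit 0), (nat_lit 174), (nat_lit 174), (nat_lit 0), (nat_lit 254684), [(nat_lit 1419635313), (nat_lit 1178409156), (nat_lit 1263391200)], [(nat_lit 0), (nat_lit 0), (nat_lit 0)], [(nat_lit 22419248381), (nat_lit 23600251189), (nat_lit 27016142093), (nat_lit 28211487070), (nat_lit 22808445532), (nat_lit 23935155862), (nat_lit 27201774757), (nat_lit 28223394763)], (nat_lit 1271251), (nat_lit 1271251), (nat_lit 1271251), (nat_lit 1271251), (nat_lit 490000), (nat_lit 780000), [(nat_lit 490000), (nat_lit 780000), (nat_lit 1100000)], [(nat_lit 2), (nat_lit 44), (nat_lit 238), (nat_lit 30), (nat_lit 9)]⟩,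
 ⟨⟨[(nat_lit 120), (nat_lit 140), (nat_lit 160)], [(nat_lit 0), (nat_lit 266), (nat_lit 862)], [((nat_lit 0), (nat_lit 0), (nat_lit 0)), ((nat_lit 960), (nat_lit 1000), (nat_lit 200)), ((nat_lit 874), (nat_lit 1000), (nat_lit 406))], ((nat_lit 100), (nat_lit 81), (nat_lit 51))⟩, (nat_lit 244886), (nat_lit 1393), (nat_lit 1393), (nat_lit 0), (nat_lit 2424808), [(nat_lit 446208000), (nat_lit 551152000), (nat_lit 664832000)], [], [(nat_lit 2346965350), (nat_lit 2273755312), (nat_lit 2333199847), (nat_lit 2299180767), (nat_lit 2972753262), (nat_lit 2260409074), (nat_lit 2035450318), (nat_lit 2017895631)], (nat_lit 1271251), (nat_lit 1271251), (nat_lit 1271251), (nat_lit 1271251), (nat_lit 0), (nat_lit 2613125), [(nat_lit 1695001), (nat_lit 1271251), (nat_lit 1271251)], [(nat_lit 27), (nat_lit 62), (nat_lit 483), (nat_lit 250), (nat_lit 12)]⟩,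
 ⟨⟨[(nat_lit 140), (nat_lit 180), (nat_lit 200)], [(nat_lit 0), (nat_lit 0), (nat_lit 2835)], [((nat_lit 0), (nat_lit 0), (nat_lit 0)), ((nat_lit 0), (nat_lit 0), (nat_lit 0)), ((nat_lit 363), (nat_lit 1000), (nat_lit 798))], ((nat_lit 0), (nat_lit 0), (nat_lit 0))⟩, (nat_lit 2752), (nat_lit 300), (nat_lit 1000), (nat_lit 781000), (nat_lit 988261), [(nat_lit 98420000), (nat_lit 140580000), (nat_lit 164000000)], [], [(nat_lit 786838131), (nat_lit 727781340), (nat_lit 732384106), (nat_lit 703330815), (nat_lit 597967909), (nat_lit 691384581), (nat_lit 638815215), (nat_lit 737091868)], (nat_lit 780000), (nat_lit 1271251), (nat_lit 490000), (nat_lit 780000), (nat_lit 0), (nat_lit 2613125), [(nat_lit 1977501), (nat_lit 1271251), (nat_lit 1271251)], [(nat_lit 32), (nat_lit 67), (nat_lit 401), (nat_lit 175), (nat_lit 9)]⟩⟩)))))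
noncomputable def c16_11 : Tr Lf :=
 (.ord (.trZ (nat_lit 0) (nat_lit 2) (nat_lit 4) (nat_lit 100) (nat_lit 60) (nat_lit 74) (nat_lit 60) (.spl (nat_lit 3) (nat_lit 240) (.leaf ⟨(nat_lit 951), (nat_lit 0), (nat_lit 0), (nat_lit 49), (nat_lit 0), (nat_lit 3322), (nat_lit 527), (nat_lit 743), (nat_lit 0), (nat_lit 197223214439), (nat_lit 550300), [((nat_lit 380), [((nat_lit 24), (nat_lit 0), (nat_lit 58)), ((nat_lit 41), (nat_lit 2), (nat_lit 893))])], ⟨(nat_lit 4), false, false, false, (nat_lit 193), (nat_lit 2236), (nat_lit 3163), [(nat_lit 1355794), (nat_lit 1363050), (nat_lit 1422068), (nat_lit 1431182), (nat_lit 1538797), (nat_lit 1534240), (nat_lit 1605240), (nat_lit 1602541)]⟩, ⟨(nat_lit 4), false, false, false, (nat_lit 139), (nat_lit 2236), (nat_lit 3163), [(nat_lit 1264208), (nat_lit 1277371), (nat_lit 1330482), (nat_lit 1345503), (nat_lit 1355794), (nat_lit 1363050), (nat_lit 1422068), (nat_lit 1431182)]⟩, (nat_lit 4279016), (nat_lit 47360937),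 (nat_lit 12250508), (nat_lit 7388555), (nat_lit 0), (nat_lit 0), [], [⟨(nat_lit 0), (nat_lit 100), (nat_lit 53), (nat_lit 88), (nat_lit 277897137)⟩], [], [],
 ⟨⟨[(nat_lit 40), (nat_lit 60), (nat_lit 80)], [(nat_lit 0), (nat_lit 832), (nat_lit 1534)], [((nat_lit 0), (nat_lit 0), (nat_lit 0)), ((nat_lit 1000), (nat_lit 659), (nat_lit 528)), ((nat_lit 1000), (nat_lit 650), (nat_lit 549))], ((nat_lit 65), (nat_lit 100), (nat_lit 55))⟩, (nat_lit 21607), (nat_lit 206), (nat_lit 206), (nat_lit 0), (nat_lit 375491), [(nat_lit 1332640032), (nat_lit 766673276), (nat_lit 281486400)], [(nat_lit 0), (nat_lit 0), (nat_lit 0)], [(nat_lit 19173496164), (nat_lit 21140708355), (nat_lit 22101991599), (nat_lit 23709501393), (nat_lit 19291376541), (nat_lit 20767057988), (nat_lit 22139629478), (nat_lit 23326768533)], (nat_lit 1271251), (nat_lit 1271251), (nat_lit 780000), (nat_lit 1762501), (nat_lit 356250), (nat_lit 780000), [(nat_lit 490000), (nat_lit 780000), (nat_lit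 1100000)], [(nat_lit 2), (nat_lit 44), (nat_lit 317), (nat_lit 100), (nat_lit 14)]⟩,
 ⟨⟨[(nat_lit 120), (nat_lit 140), (nat_lit 160)], [(nat_lit 0), (nat_lit 266), (nat_lit 862)], [((nat_lit 0), (nat_lit 0), (nat_lit 0)), ((nat_lit 960), (nat_lit 1000), (nat_lit 200)), ((nat_lit 874), (nat_lit 1000), (nat_lit 406))], ((nat_lit 100), (nat_lit 81), (nat_lit 51))⟩, (nat_lit 570899), (nat_lit 1469), (nat_lit 1469), (nat_lit 0), (nat_lit 2458023), [(nat_lit 390432000), (nat_lit 482258000), (nat_lit 581728000)], [], [(nat_lit 1738387039), (nat_lit 1628292406), (nat_lit 2297815558), (nat_lit 1522662816), (nat_lit 3042532258), (nat_lit 2331111506), (nat_lit 3898360675), (nat_lit 3213536296)], (nat_lit 1271251), (nat_lit 1271251), (nat_lit 780000), (nat_lit 1762501), (nat_lit 0), (nat_lit 2825001), [(nat_lit 1695001), (nat_lit 1271251), (nat_lit 1271251)], [(nat_lit 27), (nat_lit 62), (nat_lit 478), (nat_lit 225), (nat_lit 13)]⟩,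
 ⟨⟨[(nat_lit 120), (nat_lit 140), (nat_lit 160)], [(nat_lit 0), (nat_lit 266), (nat_lit 862)], [((nat_lit 0), (nat_lit 0), (nat_lit 0)), ((nat_lit 960), (nat_lit 1000), (nat_lit 200)), ((nat_lit 874), (nat_lit 1000), (nat_lit 406))], ((nat_lit 100), (nat_lit 81), (nat_lit 51))⟩, (nat_lit 115824), (nat_lit 300), (nat_lit 961), (nat_lit 3253600), (nat_lit 1265419), [(nat_lit 390432000), (nat_lit 482258000), (nat_lit 581728000)], [], [(nat_lit 2902263489), (nat_lit 2190591162), (nat_lit 1979879804), (nat_lit 1954004426), (nat_lit 3020048674), (nat_lit 2231560267), (nat_lit 3344014366), (nat_lit 2341005602)], (nat_lit 1271251), (nat_lit 1271251), (nat_lit 356250), (nat_lit 780000), (nat_lit 0), (nat_lit 2825001), [(nat_lit 1695001), (nat_lit 1271251), (nat_lit 1271251)], [(nat_lit 27), (nat_lit 62), (nat_lit 428), (nat_lit 200), (nat_lit 11)]⟩⟩) (.trX (nat_lit 5) (nat_lit 3) (nat_lit 4) (nat_lit 100) (nat_lit 59) (nat_lit 94) (nat_lit 370) (.spl (nat_lit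 1) (nat_lit 220) (.ord (.trX (nat_lit 3) (nat_lit 0) (nat_lit 1) (nat_lit 60) (nat_lit 74) (nat_lit 100) (nat_lit 340) (.spl (nat_lit 5) (nat_lit 120) (.leaf ⟨(nat_lit 900), (nat_lit 80), (nat_lit 0), (nat_lit 20), (nat_lit 0), (nat_lit 3165), (nat_lit 1052), (nat_lit 313), (nat_lit 0), (nat_lit 2745486670070), (nat_lit 496400), [((nat_lit 380), [((nat_lit 24), (nat_lit 1), (nat_lit 218)), ((nat_lit 41), (nat_lit 2), (nat_lit 682))])], ⟨(nat_lit 6), false, true, true, (nat_lit 253), (nat_lit 2236), (nat_lit 3163), [(nat_lit 1538797), (nat_lit 1534240), (nat_lit 1583107), (nat_lit 1579788), (nat_lit 1691180), (nat_lit 1676779), (nat_lit 1735490), (nat_lit 1722327)]⟩, ⟨(nat_lit 4), false, false, false, (nat_lit 135), (nat_lit 2236), (nat_lit 3163), [(nat_lit 1264208), (nat_lit 1277371), (nat_lit 1308390), (nat_lit 1322792), (nat_lit 1355794), (nat_lit 1363050), (nat_lit 1399976), (nat_lit 1408471)]⟩, (nat_lit 4660120), (nat_lit 42399189), (nat_lit 17958252),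 (nat_lit 6642559), (nat_lit 4), (nat_lit 0), [⟨(nat_lit 1), (nat_lit 85), (nat_lit 53), (nat_lit 100), (nat_lit 271009661)⟩], [⟨(nat_lit 0), (nat_lit 100), (nat_lit 53), (nat_lit 85), (nat_lit 164198018)⟩], [⟨(nat_lit 0), (nat_lit 100), (nat_lit 100), (nat_lit 20), (nat_lit 19594516)⟩], [],
 ⟨⟨[(nat_lit 40), (nat_lit 60), (nat_lit 80)], [(nat_lit 0), (nat_lit 832), (nat_lit 1534)], [((nat_lit 0), (nat_lit 0), (nat_lit 0)), ((nat_lit 1000), (nat_lit 659), (nat_lit 528)), ((nat_lit 1000), (nat_lit 650), (nat_lit 549))], ((nat_lit 65), (nat_lit 100), (nat_lit 55))⟩, (nat_lit 0), (nat_lit 207), (nat_lit 207), (nat_lit 0), (nat_lit 345827), [(nat_lit 1362548846), (nat_lit 927752540), (nat_lit 640849600)], [(nat_lit 0), (nat_lit 0), (nat_lit 0)], [(nat_lit 22526306406), (nat_lit 23648659837), (nat_lit 26950320689), (nat_lit 28185948518), (nat_lit 22735200308), (nat_lit 23789326998), (nat_lit 26578549182), (nat_lit 27650764075)], (nat_lit 1271251), (nat_lit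 1271251), (nat_lit 1271251), (nat_lit 1271251), (nat_lit 356250), (nat_lit 780000), [(nat_lit 490000), (nat_lit 780000), (nat_lit 1100000)], [(nat_lit 2), (nat_lit 44), (nat_lit 238), (nat_lit 30), (nat_lit 9)]⟩,
 ⟨⟨[(nat_lit 120), (nat_lit 140), (nat_lit 160)], [(nat_lit 0), (nat_lit 266), (nat_lit 862)], [((nat_lit 0), (nat_lit 0), (nat_lit 0)), ((nat_lit 960), (nat_lit 1000), (nat_lit 200)), ((nat_lit 874), (nat_lit 1000), (nat_lit 406))], ((nat_lit 100), (nat_lit 81), (nat_lit 51))⟩, (nat_lit 833217), (nat_lit 1026), (nat_lit 1026), (nat_lit 0), (nat_lit 1622435), [(nat_lit 796800000), (nat_lit 984200000), (nat_lit 1187200000)], [], [(nat_lit 3333655140), (nat_lit 3269077428), (nat_lit 3581256020), (nat_lit 3613251764), (nat_lit 2931546946), (nat_lit 2729130842), (nat_lit 2847136566), (nat_lit 2830346126)], (nat_lit 1271251), (nat_lit 1271251), (nat_lit 1271251), (nat_lit 1271251), (nat_lit 0), (nat_lit 780000), [(nat_lit 1695001), (nat_lit 1271251),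 (nat_lit 1271251)], [(nat_lit 27), (nat_lit 62), (nat_lit 401), (nat_lit 175), (nat_lit 10)]⟩,
 ⟨⟨[(nat_lit 120), (nat_lit 140), (nat_lit 160)], [(nat_lit 0), (nat_lit 266), (nat_lit 862)], [((nat_lit 0), (nat_lit 0), (nat_lit 0)), ((nat_lit 960), (nat_lit 1000), (nat_lit 200)), ((nat_lit 874), (nat_lit 1000), (nat_lit 406))], ((nat_lit 100), (nat_lit 81), (nat_lit 51))⟩, (nat_lit 41052), (nat_lit 300), (nat_lit 581), (nat_lit 1328002), (nat_lit 488273), [(nat_lit 159360000), (nat_lit 196840000), (nat_lit 237440000)], [], [(nat_lit 1199551792), (nat_lit 885615571), (nat_lit 794260360), (nat_lit 786479020), (nat_lit 649453527), (nat_lit 641792884), (nat_lit 738028561), (nat_lit 550361997)], (nat_lit 1271251), (nat_lit 1271251), (nat_lit 356250), (nat_lit 780000), (nat_lit 0), (nat_lit 780000), [(nat_lit 1695001), (nat_lit 1271251), (nat_lit 1271251)], [(nat_lit 27), (nat_lit 62), (nat_lit 345), (nat_lit 125), (nat_lit 9)]⟩⟩) (.leaf ⟨(nat_lit 923), (nat_lit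 0), (nat_lit 0), (nat_lit 77), (nat_lit 0), (nat_lit 3178), (nat_lit 762), (nat_lit 1012), (nat_lit 0), (nat_lit 731349645041), (nat_lit 530700), [((nat_lit 380), [((nat_lit 24), (nat_lit 0), (nat_lit 66)), ((nat_lit 41), (nat_lit 2), (nat_lit 857))])], ⟨(nat_lit 6), false, true, true, (nat_lit 253), (nat_lit 2236), (nat_lit 3163), [(nat_lit 1538797), (nat_lit 1534240), (nat_lit 1583107), (nat_lit 1579788), (nat_lit 1691180), (nat_lit 1676779), (nat_lit 1735490), (nat_lit 1722327)]⟩, ⟨(nat_lit 4), false, false, false, (nat_lit 135), (nat_lit 2236), (nat_lit 3163), [(nat_lit 1264208), (nat_lit 1277371), (nat_lit 1308390), (nat_lit 1322792), (nat_lit 1355794), (nat_lit 1363050), (nat_lit 1399976), (nat_lit 1408471)]⟩, (nat_lit 4660120), (nat_lit 42399189), (nat_lit 17958252), (nat_lit 6642559), (nat_lit 0), (nat_lit 0), [⟨(nat_lit 1), (nat_lit 85), (nat_lit 53), (nat_lit 100), (nat_lit 324673761)⟩], [⟨(nat_lit 0), (nat_lit 100), (nat_lit 53), (nat_lit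 85), (nat_lit 174829944)⟩], [], [],
 ⟨⟨[(nat_lit 40), (nat_lit 60), (nat_lit 80)], [(nat_lit 0), (nat_lit 832), (nat_lit 1534)], [((nat_lit 0), (nat_lit 0), (nat_lit 0)), ((nat_lit 1000), (nat_lit 659), (nat_lit 528)), ((nat_lit 1000), (nat_lit 650), (nat_lit 549))], ((nat_lit 65), (nat_lit 100), (nat_lit 55))⟩, (nat_lit 2477), (nat_lit 207), (nat_lit 207), (nat_lit 0), (nat_lit 345827), [(nat_lit 1348489204), (nat_lit 828080295), (nat_lit 428296000)], [(nat_lit 0), (nat_lit 0), (nat_lit 0)], [(nat_lit 22281010866), (nat_lit 23521438114), (nat_lit 26973532184), (nat_lit 28211378252), (nat_lit 22525992966), (nat_lit 23689389661), (nat_lit 26498267393), (nat_lit 27669704490)], (nat_lit 1271251), (nat_lit 1271251), (nat_lit 1271251), (nat_lit 1271251), (nat_lit 356250), (nat_lit 780000), [(nat_lit 490000), (nat_lit 780000), (nat_lit 1100000)], [(nat_lit 2), (nat_lit 44), (nat_lit 238), (nat_lit 30), (nat_lit 9)]⟩,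
 ⟨⟨[(nat_lit 120), (nat_lit 140), (nat_lit 160)], [(nat_lit 0), (nat_lit 266), (nat_lit 862)], [((nat_lit 0), (nat_lit 0), (nat_lit 0)), ((nat_lit 960), (nat_lit 1000), (nat_lit 200)), ((nat_lit 874), (nat_lit 1000), (nat_lit 406))], ((nat_lit 100), (nat_lit 81), (nat_lit 51))⟩, (nat_lit 626987), (nat_lit 1247), (nat_lit 1247), (nat_lit 0), (nat_lit 2279363), [(nat_lit 613536000), (nat_lit 757834000), (nat_lit 914144000)], [], [(nat_lit 2629463198), (nat_lit 2569747090), (nat_lit 2555994731), (nat_lit 2491240545), (nat_lit 2695359398), (nat_lit 2311411386), (nat_lit 2696025379), (nat_lit 2718264916)], (nat_lit 1271251), (nat_lit 1271251), (nat_lit 1271251), (nat_lit 1271251), (nat_lit 780000), (nat_lit 2826876), [(nat_lit 1695001), (nat_lit 1271251), (nat_lit 1271251)], [(nat_lit 27), (nat_lit 62), (nat_lit 483), (nat_lit 250), (nat_lit 12)]⟩,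
 ⟨⟨[(nat_lit 120), (nat_lit 140), (nat_lit 160)], [(nat_lit 0), (nat_lit 266), (nat_lit 862)], [((nat_lit 0), (nat_lit 0), (nat_lit 0)), ((nat_lit 960), (nat_lit 1000), (nat_lit 200)), ((nat_lit 874), (nat_lit 1000), (nat_lit 406))], ((nat_lit 100), (nat_lit 81), (nat_lit 51))⟩, (nat_lit 162091), (nat_lit 300), (nat_lit 815), (nat_lit 5112800), (nat_lit 1145200), [(nat_lit 613536000), (nat_lit 757834000), (nat_lit 914144000)], [], [(nat_lit 2897883211), (nat_lit 2859195984), (nat_lit 2866076246), (nat_lit 2574930944), (nat_lit 5297968565), (nat_lit 4359801871), (nat_lit 5742574495), (nat_lit 4822749099)], (nat_lit 1271251), (nat_lit 1271251), (nat_lit 356250), (nat_lit 780000), (nat_lit 780000), (nat_lit 2826876), [(nat_lit 1695001), (nat_lit 1271251), (nat_lit 1271251)], [(nat_lit 27), (nat_lit 62), (nat_lit 428), (nat_lit 200), (nat_lit 11)]⟩⟩)))) (.spl (nat_lit 5) (nat_lit 120) (.leaf ⟨(nat_lit 828), (nat_lit 118), (nat_lit 0), (nat_lit 54), (nat_lit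 0), (nat_lit 3361), (nat_lit 1482), (nat_lit 830), (nat_lit 0), (nat_lit 71708), (nat_lit 420000), [((nat_lit 380), [((nat_lit 24), (nat_lit 1), (nat_lit 384)), ((nat_lit 41), (nat_lit 2), (nat_lit 444))])], ⟨(nat_lit 6), false, true, true, (nat_lit 270), (nat_lit 2236), (nat_lit 3163), [(nat_lit 1583107), (nat_lit 1579788), (nat_lit 1605240), (nat_lit 1602541), (nat_lit 1750729), (nat_lit 1736581), (nat_lit 1772883), (nat_lit 1759355)]⟩, ⟨(nat_lit 4), false, false, false, (nat_lit 139), (nat_lit 2236), (nat_lit 3163), [(nat_lit 1264208), (nat_lit 1277371), (nat_lit 1330482), (nat_lit 1345503), (nat_lit 1355794), (nat_lit 1363050), (nat_lit 1422068), (nat_lit 1431182)]⟩, (nat_lit 4781728), (nat_lit 40754732), (nat_lit 19425513), (nat_lit 6819755), (nat_lit 4), (nat_lit 0), [⟨(nat_lit 1), (nat_lit 77), (nat_lit 53), (nat_lit 100), (nat_lit 196506736)⟩], [⟨(nat_lit 0), (nat_lit 100), (nat_lit 53), (nat_lit 88), (nat_lit 386728576)⟩], [⟨(nat_lit 0), (nat_lit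 100), (nat_lit 99), (nat_lit 20), (nat_lit 60919068)⟩], [],
 ⟨⟨[(nat_lit 40), (nat_lit 60), (nat_lit 80)], [(nat_lit 0), (nat_lit 832), (nat_lit 1534)], [((nat_lit 0), (nat_lit 0), (nat_lit 0)), ((nat_lit 1000), (nat_lit 659), (nat_lit 528)), ((nat_lit 1000), (nat_lit 650), (nat_lit 549))], ((nat_lit 65), (nat_lit 100), (nat_lit 55))⟩, (nat_lit 0), (nat_lit 217), (nat_lit 217), (nat_lit 0), (nat_lit 375186), [(nat_lit 1412353603), (nat_lit 1145996815), (nat_lit 1167709585)], [(nat_lit 0), (nat_lit 0), (nat_lit 0)], [(nat_lit 22817676932), (nat_lit 23995765690), (nat_lit 27900200372), (nat_lit 29134658157), (nat_lit 23040739191), (nat_lit 24159144326), (nat_lit 27304278363), (nat_lit 28473007560)], (nat_lit 1271251), (nat_lit 1271251), (nat_lit 1271251), (nat_lit 1271251), (nat_lit 356250), (nat_lit 780000), [(nat_lit 490000), (nat_lit 780000), (nat_lit 1100000)], [(nat_lit 2), (nat_lit 44), (nat_lit 238), (nat_lit 30), (nat_lit 9)]⟩,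
 ⟨⟨[(nat_lit 100), (nat_lit 140), (nat_lit 160)], [(nat_lit 0), (nat_lit 508), (nat_lit 1689)], [((nat_lit 0), (nat_lit 0), (nat_lit 0)), ((nat_lit 1000), (nat_lit 1000), (nat_lit 198)), ((nat_lit 811), (nat_lit 1000), (nat_lit 671))], ((nat_lit 100), (nat_lit 91), (nat_lit 51))⟩, (nat_lit 1510524), (nat_lit 808), (nat_lit 808), (nat_lit 0), (nat_lit 1168338), [(nat_lit 1075000000), (nat_lit 1692824000), (nat_lit 2041984000)], [], [(nat_lit 5331120958), (nat_lit 5341526056), (nat_lit 5773297295), (nat_lit 5801200081), (nat_lit 4631424879), (nat_lit 4648911968), (nat_lit 5036824401), (nat_lit 5032050374)], (nat_lit 1271251), (nat_lit 1271251), (nat_lit 1271251), (nat_lit 1271251), (nat_lit 0), (nat_lit 780000), [(nat_lit 1412501), (nat_lit 1271251), (nat_lit 1271251)], [(nat_lit 23), (nat_lit 62), (nat_lit 428), (nat_lit 200), (nat_lit 11)]⟩,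
 ⟨⟨[(nat_lit 120), (nat_lit 140), (nat_lit 160)], [(nat_lit 0), (nat_lit 266), (nat_lit 862)], [((nat_lit 0), (nat_lit 0), (nat_lit 0)), ((nat_lit 960), (nat_lit 1000), (nat_lit 200)), ((nat_lit 874), (nat_lit 1000), (nat_lit 406))], ((nat_lit 100), (nat_lit 81), (nat_lit 51))⟩, (nat_lit 105443), (nat_lit 300), (nat_lit 591), (nat_lit 3595859), (nat_lit 510481), [(nat_lit 430272000), (nat_lit 531468000), (nat_lit 641088000)], [], [(nat_lit 3215593198), (nat_lit 2416961796), (nat_lit 2170915624), (nat_lit 2151365804), (nat_lit 1787689675), (nat_lit 1758356710), (nat_lit 1994606463), (nat_lit 1515047130)], (nat_lit 1271251), (nat_lit 1271251), (nat_lit 356250), (nat_lit 780000), (nat_lit 0), (nat_lit 780000), [(nat_lit 1695001), (nat_lit 1271251), (nat_lit 1271251)], [(nat_lit 27), (nat_lit 62), (nat_lit 345), (nat_lit 125), (nat_lit 9)]⟩⟩) (.leaf ⟨(nat_lit 869), (nat_lit 0), (nat_lit 0), (nat_lit 131), (nat_lit 0), (nat_lit 3304), (nat_lit 1212), (nat_lit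 1308), (nat_lit 0), (nat_lit 65077), (nat_lit 493750), [((nat_lit 380), [((nat_lit 24), (nat_lit 0), (nat_lit 79)), ((nat_lit 41), (nat_lit 2), (nat_lit 790))])], ⟨(nat_lit 6), false, true, true, (nat_lit 270), (nat_lit 2236), (nat_lit 3163), [(nat_lit 1583107), (nat_lit 1579788), (nat_lit 1605240), (nat_lit 1602541), (nat_lit 1750729), (nat_lit 1736581), (nat_lit 1772883), (nat_lit 1759355)]⟩, ⟨(nat_lit 4), false, false, false, (nat_lit 139), (nat_lit 2236), (nat_lit 3163), [(nat_lit 1264208), (nat_lit 1277371), (nat_lit 1330482), (nat_lit 1345503), (nat_lit 1355794), (nat_lit 1363050), (nat_lit 1422068), (nat_lit 1431182)]⟩, (nat_lit 4781728), (nat_lit 40754732), (nat_lit 19425513), (nat_lit 6819755), (nat_lit 0), (nat_lit 0), [⟨(nat_lit 1), (nat_lit 77), (nat_lit 53), (nat_lit 100), (nat_lit 233020969)⟩], [⟨(nat_lit 0), (nat_lit 100), (nat_lit 53), (nat_lit 88), (nat_lit 313017729)⟩], [], [],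
 ⟨⟨[(nat_lit 40), (nat_lit 60), (nat_lit 80)], [(nat_lit 0), (nat_lit 832), (nat_lit 1534)], [((nat_lit 0), (nat_lit 0), (nat_lit 0)), ((nat_lit 1000), (nat_lit 659), (nat_lit 528)), ((nat_lit 1000), (nat_lit 650), (nat_lit 549))], ((nat_lit 65), (nat_lit 100), (nat_lit 55))⟩, (nat_lit 41643), (nat_lit 217), (nat_lit 217), (nat_lit 0), (nat_lit 375186), [(nat_lit 1378742404), (nat_lit 959779128), (nat_lit 707158400)], [(nat_lit 0), (nat_lit 0), (nat_lit 0)], [(nat_lit 22781538456), (nat_lit 23965137022), (nat_lit 27793990622), (nat_lit 29019149073), (nat_lit 23034710484), (nat_lit 24144535124), (nat_lit 27273415953), (nat_lit 28386251892)], (nat_lit 1271251), (nat_lit 1271251), (nat_lit 1271251), (nat_lit 1271251), (nat_lit 356250), (nat_lit 780000), [(nat_lit 490000), (nat_lit 780000), (nat_lit 1100000)], [(nat_lit 2), (nat_lit 44), (nat_lit 238), (nat_lit 30), (nat_lit 9)]⟩,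
 ⟨⟨[(nat_lit 100), (nat_lit 140), (nat_lit 160)], [(nat_lit 0), (nat_lit 508), (nat_lit 1689)], [((nat_lit 0), (nat_lit 0), (nat_lit 0)), ((nat_lit 1000), (nat_lit 1000), (nat_lit 198)), ((nat_lit 811), (nat_lit 1000), (nat_lit 671))], ((nat_lit 100), (nat_lit 91), (nat_lit 51))⟩, (nat_lit 1317270), (nat_lit 938), (nat_lit 938), (nat_lit 0), (nat_lit 1657276), [(nat_lit 818750000), (nat_lit 1289302000), (nat_lit 1555232000)], [], [(nat_lit 3387199184), (nat_lit 3361400966), (nat_lit 3499707989), (nat_lit 3475392107), (nat_lit 3716793451), (nat_lit 3778773112), (nat_lit 4640866302), (nat_lit 4658070997)], (nat_lit 1271251), (nat_lit 1271251), (nat_lit 1271251), (nat_lit 1271251), (nat_lit 780000), (nat_lit 2826876), [(nat_lit 1412501), (nat_lit 1271251), (nat_lit 1271251)], [(nat_lit 23), (nat_lit 62), (nat_lit 483), (nat_lit 250), (nat_lit 12)]⟩,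
 ⟨⟨[(nat_lit 120), (nat_lit 140), (nat_lit 160)], [(nat_lit 0), (nat_lit 266), (nat_lit 862)], [((nat_lit 0), (nat_lit 0), (nat_lit 0)), ((nat_lit 960), (nat_lit 1000), (nat_lit 200)), ((nat_lit 874), (nat_lit 1000), (nat_lit 406))], ((nat_lit 100), (nat_lit 81), (nat_lit 51))⟩, (nat_lit 296078), (nat_lit 300), (nat_lit 865), (nat_lit 8698400), (nat_lit 1260801), [(nat_lit 1043808000), (nat_lit 1289302000), (nat_lit 1555232000)], [], [(nat_lit 6523946115), (nat_lit 6388515824), (nat_lit 6186489582), (nat_lit 6044096966), (nat_lit 8276482216), (nat_lit 6457625444), (nat_lit 8904486639), (nat_lit 7121188787)], (nat_lit 1271251), (nat_lit 1271251), (nat_lit 356250), (nat_lit 780000), (nat_lit 780000), (nat_lit 2826876), [(nat_lit 1695001), (nat_lit 1271251), (nat_lit 1271251)], [(nat_lit 27), (nat_lit 62), (nat_lit 428), (nat_lit 200), (nat_lit 11)]⟩⟩)))))))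
noncomputable def c16_12 : Tr Lf :=
 (.spl (nat_lit 1) (nat_lit 180) (.spl (nat_lit 1) (nat_lit 160) (.ord (.leaf ⟨(nat_lit 1000), (nat_lit 0), (nat_lit 0), (nat_lit 0), (nat_lit 0), (nat_lit 3449), (nat_lit 0), (nat_lit 0), (nat_lit 0), (nat_lit 99952609735), (nat_lit 583900), [((nat_lit 380), [((nat_lit 24), (nat_lit 0), (nat_lit 46)), ((nat_lit 41), (nat_lit 2), (nat_lit 954))])], ⟨(nat_lit 3), false, false, true, (nat_lit 161), (nat_lit 2236), (nat_lit 3163), [(nat_lit 1289472), (nat_lit 1294870), (nat_lit 1333702), (nat_lit 1340339), (nat_lit 1472332), (nat_lit 1465917), (nat_lit 1516642), (nat_lit 1511466)]⟩, ⟨(nat_lit 3), false, false, true, (nat_lit 149), (nat_lit 2236), (nat_lit 3163), [(nat_lit 1289472), (nat_lit 1294870), (nat_lit 1333702), (nat_lit 1340339), (nat_lit 1411379), (nat_lit 1408901), (nat_lit 1455689), (nat_lit 1454450)]⟩, (nat_lit 4075826), (nat_lit 49266322), (nat_lit 9391507), (nat_lit 8342171), (nat_lit 0), (nat_lit 0), [],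 [], [], [],
 ⟨⟨[(nat_lit 40), (nat_lit 60), (nat_lit 80)], [(nat_lit 0), (nat_lit 832), (nat_lit 1534)], [((nat_lit 0), (nat_lit 0), (nat_lit 0)), ((nat_lit 1000), (nat_lit 659), (nat_lit 528)), ((nat_lit 1000), (nat_lit 650), (nat_lit 549))], ((nat_lit 65), (nat_lit 100), (nat_lit 55))⟩, (nat_lit 919101), (nat_lit 225), (nat_lit 225), (nat_lit 0), (nat_lit 510812), [(nat_lit 1305075220), (nat_lit 686993030), (nat_lit 28086400)], [(nat_lit 0), (nat_lit 0), (nat_lit 0)], [(nat_lit 19506474939), (nat_lit 20914916944), (nat_lit 22254199884), (nat_lit 23452627469), (nat_lit 21157626548), (nat_lit 22368436051), (nat_lit 23562585785), (nat_lit 24575666093)], (nat_lit 1271251), (nat_lit 1271251), (nat_lit 780000), (nat_lit 1762501), (nat_lit 780000), (nat_lit 1435001), [(nat_lit 490000), (nat_lit 780000), (nat_lit 1100000)], [(nat_lit 2), (nat_lit 44), (nat_lit 345), (nat_lit 125), (nat_lit 15)]⟩,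
 Rw.none,
 Rw.none⟩)) (.leaf ⟨(nat_lit 1000), (nat_lit 0), (nat_lit 0), (nat_lit 0), (nat_lit 0), (nat_lit 3315), (nat_lit 0), (nat_lit 0), (nat_lit 0), (nat_lit 262204954405), (nat_lit 583900), [((nat_lit 380), [((nat_lit 24), (nat_lit 0), (nat_lit 46)), ((nat_lit 41), (nat_lit 2), (nat_lit 954))])], ⟨(nat_lit 4), false, false, true, (nat_lit 175), (nat_lit 2236), (nat_lit 3163), [(nat_lit 1333702), (nat_lit 1340339), (nat_lit 1355794), (nat_lit 1363050), (nat_lit 1516642), (nat_lit 1511466), (nat_lit 1538797), (nat_lit 1534240)]⟩, ⟨(nat_lit 3), false, false, true, (nat_lit 154), (nat_lit 2236), (nat_lit 3163), [(nat_lit 1289472), (nat_lit 1294870), (nat_lit 1355794), (nat_lit 1363050), (nat_lit 1411379), (nat_lit 1408901), (nat_lit 1477844), (nat_lit 1477224)]⟩, (nat_lit 4267844), (nat_lit 47819323), (nat_lit 10537417), (nat_lit 8643260), (nat_lit 0), (nat_lit 0), [], [], [], [],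
 ⟨⟨[(nat_lit 40), (nat_lit 60), (nat_lit 80)], [(nat_lit 0), (nat_lit 832), (nat_lit 1534)], [((nat_lit 0), (nat_lit 0), (nat_lit 0)), ((nat_lit 1000), (nat_lit 659), (nat_lit 528)), ((nat_lit 1000), (nat_lit 650), (nat_lit 549))], ((nat_lit 65), (nat_lit 100), (nat_lit 55))⟩, (nat_lit 111507), (nat_lit 215), (nat_lit 215), (nat_lit 0), (nat_lit 484874), [(nat_lit 1305075201), (nat_lit 596496420), (nat_lit 28086400)], [(nat_lit 0), (nat_lit 0), (nat_lit 0)], [(nat_lit 19196709252), (nat_lit 20758908282), (nat_lit 22045069929), (nat_lit 23318298298), (nat_lit 20903067732), (nat_lit 22173331841), (nat_lit 23407069039), (nat_lit 24469363210)], (nat_lit 1271251), (nat_lit 1271251), (nat_lit 780000), (nat_lit 1762501), (nat_lit 780000), (nat_lit 1435001), [(nat_lit 490000), (nat_lit 780000), (nat_lit 1100000)], [(nat_lit 2), (nat_lit 44), (nat_lit 345), (nat_lit 125), (nat_lit 15)]⟩,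
 Rw.none,
 Rw.none⟩)) (.stt (nat_lit 3) (.stt (nat_lit 2) (.leaf ⟨(nat_lit 615), (nat_lit 286), (nat_lit 0), (nat_lit 99), (nat_lit 0), (nat_lit 3759), (nat_lit 4842), (nat_lit 1485), (nat_lit 0), (nat_lit 0), (nat_lit 318950), [((nat_lit 380), [((nat_lit 24), (nat_lit 0), (nat_lit 143)), ((nat_lit 41), (nat_lit 2), (nat_lit 472))])], ⟨(nat_lit 4), true, false, false, (nat_lit 193), (nat_lit 2236), (nat_lit 3163), [(nat_lit 1355794), (nat_lit 1363050), (nat_lit 1422068), (nat_lit 1431182), (nat_lit 1538797), (nat_lit 1534240), (nat_lit 1605240), (nat_lit 1602541)]⟩, ⟨(nat_lit 3), true, false, true, (nat_lit 154), (nat_lit 2236), (nat_lit 3163), [(nat_lit 1289472), (nat_lit 1294870), (nat_lit 1355794), (nat_lit 1363050), (nat_lit 1411379), (nat_lit 1408901), (nat_lit 1477844), (nat_lit 1477224)]⟩, (nat_lit 4436855), (nat_lit 46338787), (nat_lit 12132594), (nat_lit 8528619), (nat_lit 3), (nat_lit 0), [⟨(nat_lit 0), (nat_lit 100), (nat_lit 44), (nat_lit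 99), (nat_lit 54190003)⟩], [], [], [],
 ⟨⟨[(nat_lit 40), (nat_lit 60), (nat_lit 80)], [(nat_lit 0), (nat_lit 832), (nat_lit 1534)], [((nat_lit 0), (nat_lit 0), (nat_lit 0)), ((nat_lit 1000), (nat_lit 659), (nat_lit 528)), ((nat_lit 1000), (nat_lit 650), (nat_lit 549))], ((nat_lit 65), (nat_lit 100), (nat_lit 55))⟩, (nat_lit 788371), (nat_lit 253), (nat_lit 253), (nat_lit 0), (nat_lit 571225), [(nat_lit 1521577606), (nat_lit 1720544836), (nat_lit 2023859200)], [(nat_lit 0), (nat_lit 0), (nat_lit 0)], [(nat_lit 19996730259), (nat_lit 21277483615), (nat_lit 22455510774), (nat_lit 23763388984), (nat_lit 21457497504), (nat_lit 22610332374), (nat_lit 23727982865), (nat_lit 24818451106)], (nat_lit 1271251), (nat_lit 1271251), (nat_lit 780000), (nat_lit 1762501), (nat_lit 780000), (nat_lit 1435001), [(nat_lit 490000), (nat_lit 780000), (nat_lit 1100000)], [(nat_lit 2), (nat_lit 44), (nat_lit 345), (nat_lit 125), (nat_lit 15)]⟩,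
 ⟨⟨[(nat_lit 120), (nat_lit 140), (nat_lit 160)], [(nat_lit 0), (nat_lit 266), (nat_lit 862)], [((nat_lit 0), (nat_lit 0), (nat_lit 0)), ((nat_lit 960), (nat_lit 1000), (nat_lit 200)), ((nat_lit 874), (nat_lit 1000), (nat_lit 406))], ((nat_lit 100), (nat_lit 81), (nat_lit 51))⟩, (nat_lit 1722877), (nat_lit 210), (nat_lit 210), (nat_lit 0), (nat_lit 0), [(nat_lit 3067680000), (nat_lit 3789170000), (nat_lit 4570720000)], [], [(nat_lit 10639663068), (nat_lit 11474240610), (nat_lit 11408854025), (nat_lit 12332693618), (nat_lit 13760740368), (nat_lit 13939950810), (nat_lit 13323572452), (nat_lit 13618450828)], (nat_lit 0), (nat_lit 0), (nat_lit 0), (nat_lit 0), (nat_lit 0), (nat_lit 0), [], [(nat_lit 27), (nat_lit 62), (nat_lit 456), (nat_lit 225), (nat_lit 12)]⟩,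
 ⟨⟨[(nat_lit 140), (nat_lit 180), (nat_lit 200)], [(nat_lit 0), (nat_lit 0), (nat_lit 2835)], [((nat_lit 0), (nat_lit 0), (nat_lit 0)), ((nat_lit 0), (nat_lit 0), (nat_lit 0)), ((nat_lit 363), (nat_lit 1000), (nat_lit 798))], ((nat_lit 0), (nat_lit 0), (nat_lit 0))⟩, (nat_lit 27238), (nat_lit 300), (nat_lit 491), (nat_lit 7731902), (nat_lit 0), [(nat_lit 974358000), (nat_lit 1391742000), (nat_lit 1623600000)], [], [(nat_lit 6891974306), (nat_lit 6626218706), (nat_lit 6528841514), (nat_lit 6256323373), (nat_lit 5533566398), (nat_lit 5197680188), (nat_lit 5079283712), (nat_lit 4742083178)], (nat_lit 0), (nat_lit 0), (nat_lit 0), (nat_lit 0), (nat_lit 0), (nat_lit 0), [], [(nat_lit 32), (nat_lit 67), (nat_lit 428), (nat_lit 200), (nat_lit 9)]⟩⟩) (.leaf ⟨(nat_lit 956), (nat_lit 16), (nat_lit 0), (nat_lit 28), (nat_lit 0), (nat_lit 3320), (nat_lit 485), (nat_lit 431), (nat_lit 0), (nat_lit 0), (nat_lit 538800), [((nat_lit 380), [((nat_lit 24), (nat_lit 1),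 (nat_lit 174)), ((nat_lit 41), (nat_lit 2), (nat_lit 782))])], ⟨(nat_lit 4), false, false, false, (nat_lit 193), (nat_lit 2236), (nat_lit 3163), [(nat_lit 1355794), (nat_lit 1363050), (nat_lit 1422068), (nat_lit 1431182), (nat_lit 1538797), (nat_lit 1534240), (nat_lit 1605240), (nat_lit 1602541)]⟩, ⟨(nat_lit 3), true, false, true, (nat_lit 154), (nat_lit 2236), (nat_lit 3163), [(nat_lit 1289472), (nat_lit 1294870), (nat_lit 1355794), (nat_lit 1363050), (nat_lit 1411379), (nat_lit 1408901), (nat_lit 1477844), (nat_lit 1477224)]⟩, (nat_lit 4436855), (nat_lit 46338787), (nat_lit 12132594), (nat_lit 8528619), (nat_lit 3), (nat_lit 0), [], [], [], [],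
 ⟨⟨[(nat_lit 40), (nat_lit 60), (nat_lit 80)], [(nat_lit 0), (nat_lit 832), (nat_lit 1534)], [((nat_lit 0), (nat_lit 0), (nat_lit 0)), ((nat_lit 1000), (nat_lit 659), (nat_lit 528)), ((nat_lit 1000), (nat_lit 650), (nat_lit 549))], ((nat_lit 65), (nat_lit 100), (nat_lit 55))⟩, (nat_lit 0), (nat_lit 180), (nat_lit 180), (nat_lit 0), (nat_lit 362343), [(nat_lit 1330766401), (nat_lit 759970464), (nat_lit 331048000)], [(nat_lit 0), (nat_lit 0), (nat_lit 0)], [(nat_lit 19288336884), (nat_lit 20764729500), (nat_lit 22136620604), (nat_lit 23323429904), (nat_lit 20994410324), (nat_lit 22265588744), (nat_lit 23498027684), (nat_lit 24559563524)], (nat_lit 1271251), (nat_lit 1271251), (nat_lit 780000), (nat_lit 1762501), (nat_lit 780000), (nat_lit 1435001), [(nat_lit 490000), (nat_lit 780000), (nat_lit 1100000)], [(nat_lit 2), (nat_lit 44), (nat_lit 345), (nat_lit 125), (nat_lit 15)]⟩,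
 ⟨⟨[(nat_lit 120), (nat_lit 140), (nat_lit 160)], [(nat_lit 0), (nat_lit 266), (nat_lit 862)], [((nat_lit 0), (nat_lit 0), (nat_lit 0)), ((nat_lit 960), (nat_lit 1000), (nat_lit 200)), ((nat_lit 874), (nat_lit 1000), (nat_lit 406))], ((nat_lit 100), (nat_lit 81), (nat_lit 51))⟩, (nat_lit 396956), (nat_lit 1454), (nat_lit 1454), (nat_lit 0), (nat_lit 2424808), [(nat_lit 350592000), (nat_lit 433048000), (nat_lit 522368000)], [], [(nat_lit 1560498328), (nat_lit 1395914454), (nat_lit 2071209234), (nat_lit 1353048180), (nat_lit 2748505457), (nat_lit 2093782374), (nat_lit 3531824565), (nat_lit 2901578220)], (nat_lit 1271251), (nat_lit 1271251), (nat_lit 780000), (nat_lit 1762501), (nat_lit 0), (nat_lit 2825001), [(nat_lit 1695001), (nat_lit 1271251), (nat_lit 1271251)], [(nat_lit 27), (nat_lit 62), (nat_lit 474), (nat_lit 225), (nat_lit 12)]⟩,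
 ⟨⟨[(nat_lit 140), (nat_lit 180), (nat_lit 200)], [(nat_lit 0), (nat_lit 0), (nat_lit 2835)], [((nat_lit 0), (nat_lit 0), (nat_lit 0)), ((nat_lit 0), (nat_lit 0), (nat_lit 0)), ((nat_lit 363), (nat_lit 1000), (nat_lit 798))], ((nat_lit 0), (nat_lit 0), (nat_lit 0))⟩, (nat_lit 10383), (nat_lit 300), (nat_lit 491), (nat_lit 2186800), (nat_lit 0), [(nat_lit 275576000), (nat_lit 393624000), (nat_lit 459200000)], [], [(nat_lit 1957403490), (nat_lit 1879429163), (nat_lit 1850890120), (nat_lit 1770981507), (nat_lit 1557657230), (nat_lit 1459475100), (nat_lit 1424883260), (nat_lit 1326339813)], (nat_lit 0), (nat_lit 0), (nat_lit 0), (nat_lit 0), (nat_lit 0), (nat_lit 0), [], [(nat_lit 32), (nat_lit 67), (nat_lit 428), (nat_lit 200), (nat_lit 9)]⟩⟩)) (.stt (nat_lit 2) (.spl (nat_lit 0) (nat_lit 370) (.leaf ⟨(nat_lit 885), (nat_lit 115), (nat_lit 0), (nat_lit 0), (nat_lit 0), (nat_lit 3448), (nat_lit 1083), (nat_lit 0), (nat_lit 0), (nat_lit 0), (nat_lit 504750),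 [((nat_lit 370), [((nat_lit 24), (nat_lit 0), (nat_lit 75)), ((nat_lit 41), (nat_lit 2), (nat_lit 810))])], ⟨(nat_lit 4), true, false, false, (nat_lit 192), (nat_lit 2738), (nat_lit 3163), [(nat_lit 1355914), (nat_lit 1359435), (nat_lit 1422342), (nat_lit 1426651), (nat_lit 1538797), (nat_lit 1536642), (nat_lit 1605257), (nat_lit 1603890)]⟩, ⟨(nat_lit 3), false, false, true, (nat_lit 154), (nat_lit 2738), (nat_lit 3163), [(nat_lit 1289472), (nat_lit 1292206), (nat_lit 1355914), (nat_lit 1359435), (nat_lit 1411379), (nat_lit 1410329), (nat_lit 1477844), (nat_lit 1477581)]⟩, (nat_lit 4432802), (nat_lit 46370961), (nat_lit 12116586), (nat_lit 8512453), (nat_lit 3), (nat_lit 0), [], [], [⟨(nat_lit 1), (nat_lit 30), (nat_lit 100), (nat_lit 97), (nat_lit 27797705)⟩], [],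
 ⟨⟨[(nat_lit 40), (nat_lit 60), (nat_lit 80)], [(nat_lit 0), (nat_lit 832), (nat_lit 1534)], [((nat_lit 0), (nat_lit 0), (nat_lit 0)), ((nat_lit 1000), (nat_lit 659), (nat_lit 528)), ((nat_lit 1000), (nat_lit 650), (nat_lit 549))], ((nat_lit 65), (nat_lit 100), (nat_lit 55))⟩, (nat_lit 49632), (nat_lit 191), (nat_lit 191), (nat_lit 0), (nat_lit 421363), [(nat_lit 1369744004), (nat_lit 942882206), (nat_lit 624272000)], [(nat_lit 0), (nat_lit 0), (nat_lit 0)], [(nat_lit 19384674956), (nat_lit 20041608946), (nat_lit 22005449416), (nat_lit 22681911998), (nat_lit 20920063000), (nat_lit 21505274333), (nat_lit 23351700528), (nat_lit 23891351616)], (nat_lit 1271251), (nat_lit 1271251), (nat_lit 780000), (nat_lit 1762501), (nat_lit 780000), (nat_lit 1435001), [(nat_lit 490000), (nat_lit 780000), (nat_lit 1100000)], [(nat_lit 2), (nat_lit 44), (nat_lit 345), (nat_lit 125), (nat_lit 15)]⟩,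
 ⟨⟨[(nat_lit 120), (nat_lit 140), (nat_lit 160)], [(nat_lit 0), (nat_lit 266), (nat_lit 862)], [((nat_lit 0), (nat_lit 0), (nat_lit 0)), ((nat_lit 960), (nat_lit 1000), (nat_lit 200)), ((nat_lit 874), (nat_lit 1000), (nat_lit 406))], ((nat_lit 100), (nat_lit 81), (nat_lit 51))⟩, (nat_lit 1011619), (nat_lit 210), (nat_lit 210), (nat_lit 0), (nat_lit 0), [(nat_lit 916320000), (nat_lit 1131830000), (nat_lit 1365280000)], [], [(nat_lit 3029125493), (nat_lit 3260709438), (nat_lit 3253506422), (nat_lit 3454481402), (nat_lit 3793353125), (nat_lit 3822016656), (nat_lit 3698417505), (nat_lit 3726385372)], (nat_lit 0), (nat_lit 0), (nat_lit 0), (nat_lit 0), (nat_lit 0), (nat_lit 0), [], [(nat_lit 27), (nat_lit 62), (nat_lit 456), (nat_lit 225), (nat_lit 12)]⟩,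
 Rw.none⟩) (.leaf ⟨(nat_lit 880), (nat_lit 120), (nat_lit 0), (nat_lit 0), (nat_lit 0), (nat_lit 3406), (nat_lit 1153), (nat_lit 0), (nat_lit 0), (nat_lit 0), (nat_lit 481400), [((nat_lit 380), [((nat_lit 24), (nat_lit 1), (nat_lit 233)), ((nat_lit 41), (nat_lit 2), (nat_lit 647))])], ⟨(nat_lit 4), true, false, false, (nat_lit 193), (nat_lit 2236), (nat_lit 2739), [(nat_lit 1359410), (nat_lit 1363145), (nat_lit 1426601), (nat_lit 1431406), (nat_lit 1536642), (nat_lit 1534240), (nat_lit 1603890), (nat_lit 1602558)]⟩, ⟨(nat_lit 3), false, false, true, (nat_lit 154), (nat_lit 2236), (nat_lit 2739), [(nat_lit 1292206), (nat_lit 1294870), (nat_lit 1359410), (nat_lit 1363145), (nat_lit 1410329), (nat_lit 1408901), (nat_lit 1477581), (nat_lit 1477224)]⟩, (nat_lit 4441735), (nat_lit 46299788), (nat_lit 12152736), (nat_lit 8547476), (nat_lit 3), (nat_lit 0), [], [], [⟨(nat_lit 1), (nat_lit 30), (nat_lit 100), (nat_lit 97), (nat_lit 28982276)⟩], [],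
 ⟨⟨[(nat_lit 40), (nat_lit 60)], [(nat_lit 0), (nat_lit 1134)], [((nat_lit 0), (nat_lit 0), (nat_lit 0)), ((nat_lit 1000), (nat_lit 575), (nat_lit 619))], ((nat_lit 59), (nat_lit 100), (nat_lit 58))⟩, (nat_lit 0), (nat_lit 181), (nat_lit 181), (nat_lit 0), (nat_lit 460947), [(nat_lit 1373844802), (nat_lit 920762800)], [(nat_lit 0), (nat_lit 0)], [(nat_lit 19993446606), (nat_lit 20864854463), (nat_lit 22716545641), (nat_lit 23409521839), (nat_lit 21613714246), (nat_lit 22260890177), (nat_lit 24004011721), (nat_lit 24540910504)], (nat_lit 1271251), (nat_lit 1271251), (nat_lit 780000), (nat_lit 1762501), (nat_lit 780000), (nat_lit 1435001), [(nat_lit 490000), (nat_lit 780000)], [(nat_lit 1), (nat_lit 38), (nat_lit 203), (nat_lit 0), (nat_lit 10)]⟩,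
 ⟨⟨[(nat_lit 120), (nat_lit 140), (nat_lit 160)], [(nat_lit 0), (nat_lit 266), (nat_lit 862)], [((nat_lit 0), (nat_lit 0), (nat_lit 0)), ((nat_lit 960), (nat_lit 1000), (nat_lit 200)), ((nat_lit 874), (nat_lit 1000), (nat_lit 406))], ((nat_lit 100), (nat_lit 81), (nat_lit 51))⟩, (nat_lit 938010), (nat_lit 210), (nat_lit 210), (nat_lit 0), (nat_lit 0), [(nat_lit 956160000), (nat_lit 1181040000), (nat_lit 1424640000)], [], [(nat_lit 3244566991), (nat_lit 3487336436), (nat_lit 3468766372), (nat_lit 3628216804), (nat_lit 3960673444), (nat_lit 4017763630), (nat_lit 3883323734), (nat_lit 3909937272)], (nat_lit 0), (nat_lit 0), (nat_lit 0), (nat_lit 0), (nat_lit 0), (nat_lit 0), [], [(nat_lit 27), (nat_lit 62), (nat_lit 456), (nat_lit 225), (nat_lit 12)]⟩,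
 Rw.none⟩)) (.leaf ⟨(nat_lit 1000), (nat_lit 0), (nat_lit 0), (nat_lit 0), (nat_lit 0), (nat_lit 3243), (nat_lit 0), (nat_lit 0), (nat_lit 0), (nat_lit 0), (nat_lit 433600), [((nat_lit 380), [((nat_lit 24), (nat_lit 1), (nat_lit 832)), ((nat_lit 41), (nat_lit 2), (nat_lit 168))])], ⟨(nat_lit 4), false, false, false, (nat_lit 193), (nat_lit 2236), (nat_lit 3163), [(nat_lit 1355794), (nat_lit 1363050), (nat_lit 1422068), (nat_lit 1431182), (nat_lit 1538797), (nat_lit 1534240), (nat_lit 1605240), (nat_lit 1602541)]⟩, ⟨(nat_lit 3), false, false, true, (nat_lit 154), (nat_lit 2236), (nat_lit 3163), [(nat_lit 1289472), (nat_lit 1294870), (nat_lit 1355794), (nat_lit 1363050), (nat_lit 1411379), (nat_lit 1408901), (nat_lit 1477844), (nat_lit 1477224)]⟩, (nat_lit 4436855), (nat_lit 46338787), (nat_lit 12132594), (nat_lit 8528619), (nat_lit 0), (nat_lit 0), [], [], [], [],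
 ⟨⟨[(nat_lit 40), (nat_lit 60), (nat_lit 80)], [(nat_lit 0), (nat_lit 832), (nat_lit 1534)], [((nat_lit 0), (nat_lit 0), (nat_lit 0)), ((nat_lit 1000), (nat_lit 659), (nat_lit 528)), ((nat_lit 1000), (nat_lit 650), (nat_lit 549))], ((nat_lit 65), (nat_lit 100), (nat_lit 55))⟩, (nat_lit 0), (nat_lit 137), (nat_lit 137), (nat_lit 0), (nat_lit 254684), [(nat_lit 1362291208), (nat_lit 966947343), (nat_lit 785190400)], [(nat_lit 0), (nat_lit 0), (nat_lit 0)], [(nat_lit 19463298758), (nat_lit 20826055651), (nat_lit 22130102230), (nat_lit 23263960500), (nat_lit 21051487040), (nat_lit 22264873681), (nat_lit 23397517429), (nat_lit 24413220939)], (nat_lit 1271251), (nat_lit 1271251), (nat_lit 780000), (nat_lit 1762501), (nat_lit 780000), (nat_lit 1435001), [(nat_lit 490000), (nat_lit 780000), (nat_lit 1100000)], [(nat_lit 2), (nat_lit 44), (nat_lit 345), (nat_lit 125), (nat_lit 15)]⟩,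
 Rw.none,
 Rw.none⟩))))
noncomputable def c16_13 : Tr Lf :=
 (.spl (nat_lit 1) (nat_lit 180) (.trX (nat_lit 3) (nat_lit 0) (nat_lit 1) (nat_lit 60) (nat_lit 86) (nat_lit 100) (nat_lit 310) (.spl (nat_lit 2) (nat_lit 160) (.spl (nat_lit 2) (nat_lit 140) (.leaf ⟨(nat_lit 1000), (nat_lit 0), (nat_lit 0), (nat_lit 0), (nat_lit 0), (nat_lit 3297), (nat_lit 0), (nat_lit 0), (nat_lit 0), (nat_lit 201815), (nat_lit 583900), [((nat_lit 380), [((nat_lit 24), (nat_lit 0), (nat_lit 46)), ((nat_lit 41), (nat_lit 2), (nat_lit 954))])], ⟨(nat_lit 6), false, false, true, (nat_lit 222), (nat_lit 2236), (nat_lit 3163), [(nat_lit 1472332), (nat_lit 1465917), (nat_lit 1538797), (nat_lit 1534240), (nat_lit 1579000), (nat_lit 1565693), (nat_lit 1645465), (nat_lit 1634017)]⟩, ⟨(nat_lit 3), false, false, true, (nat_lit 145), (nat_lit 2236), (nat_lit 3163), [(nat_lit 1289472), (nat_lit 1294870), (nat_lit 1311609), (nat_lit 1317626), (nat_lit 1411379), (nat_lit 1408901), (nat_lit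 1433534), (nat_lit 1431676)]⟩, (nat_lit 4573603), (nat_lit 44493522), (nat_lit 14890808), (nat_lit 7615670), (nat_lit 0), (nat_lit 0), [⟨(nat_lit 1), (nat_lit 99), (nat_lit 54), (nat_lit 100), (nat_lit 306379688)⟩], [], [], [],
 ⟨⟨[(nat_lit 40), (nat_lit 60), (nat_lit 80)], [(nat_lit 0), (nat_lit 832), (nat_lit 1534)], [((nat_lit 0), (nat_lit 0), (nat_lit 0)), ((nat_lit 1000), (nat_lit 659), (nat_lit 528)), ((nat_lit 1000), (nat_lit 650), (nat_lit 549))], ((nat_lit 65), (nat_lit 100), (nat_lit 55))⟩, (nat_lit 838336), (nat_lit 221), (nat_lit 221), (nat_lit 0), (nat_lit 510924), [(nat_lit 1305075240), (nat_lit 755282057), (nat_lit 28086400)], [(nat_lit 0), (nat_lit 0), (nat_lit 0)], [(nat_lit 22686272752), (nat_lit 23795043647), (nat_lit 25253490143), (nat_lit 26343326412), (nat_lit 24012268005), (nat_lit 25006110053), (nat_lit 26312803869), (nat_lit 27185537460)], (nat_lit 1271251), (nat_lit 1271251), (nat_lit 1271251), (nat_lit 1271251), (nat_lit 780000),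 (nat_lit 1435001), [(nat_lit 490000), (nat_lit 780000), (nat_lit 1100000)], [(nat_lit 2), (nat_lit 44), (nat_lit 260), (nat_lit 50), (nat_lit 10)]⟩,
 Rw.none,
 Rw.none⟩) (.ord (.leaf ⟨(nat_lit 975), (nat_lit 0), (nat_lit 0), (nat_lit 25), (nat_lit 0), (nat_lit 3153), (nat_lit 328), (nat_lit 282), (nat_lit 0), (nat_lit 3457), (nat_lit 566450), [((nat_lit 380), [((nat_lit 24), (nat_lit 0), (nat_lit 53)), ((nat_lit 41), (nat_lit 2), (nat_lit 922))])], ⟨(nat_lit 6), false, false, true, (nat_lit 226), (nat_lit 2236), (nat_lit 3163), [(nat_lit 1494487), (nat_lit 1488691), (nat_lit 1538797), (nat_lit 1534240), (nat_lit 1601155), (nat_lit 1588467), (nat_lit 1645465), (nat_lit 1634017)]⟩, ⟨(nat_lit 3), false, false, true, (nat_lit 154), (nat_lit 2236), (nat_lit 3163), [(nat_lit 1311609), (nat_lit 1317626), (nat_lit 1333702), (nat_lit 1340339), (nat_lit 1433534), (nat_lit 1431676), (nat_lit 1455689), (nat_lit 1454450)]⟩, (nat_lit 4695162), (nat_lit 43541005),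 (nat_lit 15195792), (nat_lit 8263203), (nat_lit 0), (nat_lit 0), [⟨(nat_lit 1), (nat_lit 96), (nat_lit 54), (nat_lit 100), (nat_lit 249145564)⟩], [], [], [],
 ⟨⟨[(nat_lit 40), (nat_lit 60), (nat_lit 80)], [(nat_lit 0), (nat_lit 832), (nat_lit 1534)], [((nat_lit 0), (nat_lit 0), (nat_lit 0)), ((nat_lit 1000), (nat_lit 659), (nat_lit 528)), ((nat_lit 1000), (nat_lit 650), (nat_lit 549))], ((nat_lit 65), (nat_lit 100), (nat_lit 55))⟩, (nat_lit 64982), (nat_lit 209), (nat_lit 209), (nat_lit 0), (nat_lit 465064), [(nat_lit 1319286001), (nat_lit 652693904), (nat_lit 158915200)], [(nat_lit 0), (nat_lit 0), (nat_lit 0)], [(nat_lit 22465250779), (nat_lit 23624525537), (nat_lit 25141924059), (nat_lit 26158104576), (nat_lit 23846431661), (nat_lit 24884787985), (nat_lit 26247166099), (nat_lit 27156283111)], (nat_lit 1271251), (nat_lit 1271251), (nat_lit 1271251), (nat_lit 1271251), (nat_lit 780000), (nat_lit 1435001), [(nat_lit 490000), (nat_lit 780000), (nat_lit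 1100000)], [(nat_lit 2), (nat_lit 44), (nat_lit 260), (nat_lit 50), (nat_lit 10)]⟩,
 ⟨⟨[(nat_lit 140), (nat_lit 160), (nat_lit 180)], [(nat_lit 0), (nat_lit 304), (nat_lit 1085)], [((nat_lit 0), (nat_lit 0), (nat_lit 0)), ((nat_lit 913), (nat_lit 1000), (nat_lit 217)), ((nat_lit 759), (nat_lit 1000), (nat_lit 463))], ((nat_lit 100), (nat_lit 70), (nat_lit 53))⟩, (nat_lit 905984), (nat_lit 2181), (nat_lit 2181), (nat_lit 0), (nat_lit 3848111), [(nat_lit 246050000), (nat_lit 296800000), (nat_lit 351450000)], [], [(nat_lit 859202910), (nat_lit 838323803), (nat_lit 920474060), (nat_lit 903024202), (nat_lit 1585669800), (nat_lit 1778849812), (nat_lit 1097447786), (nat_lit 1296445575)], (nat_lit 936250), (nat_lit 1271251), (nat_lit 1271251), (nat_lit 1271251), (nat_lit 0), (nat_lit 2825001), [(nat_lit 1977501), (nat_lit 1271251), (nat_lit 1271251)], [(nat_lit 31), (nat_lit 65), (nat_lit 657), (nat_lit 225), (nat_lit 15)]⟩,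
 ⟨⟨[(nat_lit 140), (nat_lit 160), (nat_lit 180)], [(nat_lit 0), (nat_lit 304), (nat_lit 1085)], [((nat_lit 0), (nat_lit 0), (nat_lit 0)), ((nat_lit 913), (nat_lit 1000), (nat_lit 217)), ((nat_lit 759), (nat_lit 1000), (nat_lit 463))], ((nat_lit 100), (nat_lit 70), (nat_lit 53))⟩, (nat_lit 115088), (nat_lit 300), (nat_lit 2241), (nat_lit 1757500), (nat_lit 3851519), [(nat_lit 246050000), (nat_lit 296800000), (nat_lit 351450000)], [], [(nat_lit 1524765219), (nat_lit 1503512566), (nat_lit 1451870762), (nat_lit 1431483260), (nat_lit 1692158178), (nat_lit 1767167464), (nat_lit 1998535346), (nat_lit 2076693444)], (nat_lit 936250), (nat_lit 1100000), (nat_lit 780000), (nat_lit 1435001), (nat_lit 0), (nat_lit 2825001), [(nat_lit 1977501), (nat_lit 1271251), (nat_lit 1271251)], [(nat_lit 31), (nat_lit 65), (nat_lit 656), (nat_lit 200), (nat_lit 15)]⟩⟩))) (.ord (.leaf ⟨(nat_lit 965), (nat_lit 0), (nat_lit 0), (nat_lit 35), (nat_lit 0), (nat_lit 3198), (nat_lit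 581), (nat_lit 505), (nat_lit 0), (nat_lit 187903564), (nat_lit 559400), [((nat_lit 380), [((nat_lit 24), (nat_lit 0), (nat_lit 56)), ((nat_lit 41), (nat_lit 2), (nat_lit 909))])], ⟨(nat_lit 6), false, false, true, (nat_lit 231), (nat_lit 2236), (nat_lit 3163), [(nat_lit 1516642), (nat_lit 1511466), (nat_lit 1538797), (nat_lit 1534240), (nat_lit 1623310), (nat_lit 1611243), (nat_lit 1645465), (nat_lit 1634017)]⟩, ⟨(nat_lit 4), false, false, false, (nat_lit 163), (nat_lit 2236), (nat_lit 3163), [(nat_lit 1333702), (nat_lit 1340339), (nat_lit 1355794), (nat_lit 1363050), (nat_lit 1455689), (nat_lit 1454450), (nat_lit 1477844), (nat_lit 1477224)]⟩, (nat_lit 4809307), (nat_lit 42600817), (nat_lit 15485582), (nat_lit 8913601), (nat_lit 0), (nat_lit 0), [⟨(nat_lit 1), (nat_lit 93), (nat_lit 53), (nat_lit 100), (nat_lit 285776889)⟩], [], [], [],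
 ⟨⟨[(nat_lit 40), (nat_lit 60), (nat_lit 80)], [(nat_lit 0), (nat_lit 832), (nat_lit 1534)], [((nat_lit 0), (nat_lit 0), (nat_lit 0)), ((nat_lit 1000), (nat_lit 659), (nat_lit 528)), ((nat_lit 1000), (nat_lit 650), (nat_lit 549))], ((nat_lit 65), (nat_lit 100), (nat_lit 55))⟩, (nat_lit 318487), (nat_lit 202), (nat_lit 202), (nat_lit 0), (nat_lit 440007), [(nat_lit 1325018012), (nat_lit 709907115), (nat_lit 211598400)], [(nat_lit 0), (nat_lit 0), (nat_lit 0)], [(nat_lit 22387251698), (nat_lit 23553945943), (nat_lit 25075170833), (nat_lit 26215986400), (nat_lit 23763104310), (nat_lit 24807706611), (nat_lit 26172560310), (nat_lit 27086636131)], (nat_lit 1271251), (nat_lit 1271251), (nat_lit 1271251), (nat_lit 1271251), (nat_lit 780000), (nat_lit 1435001), [(nat_lit 490000), (nat_lit 780000), (nat_lit 1100000)], [(nat_lit 2), (nat_lit 44), (nat_lit 260), (nat_lit 50), (nat_lit 10)]⟩,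
 ⟨⟨[(nat_lit 120), (nat_lit 160), (nat_lit 180)], [(nat_lit 0), (nat_lit 0), (nat_lit 1613)], [((nat_lit 0), (nat_lit 0), (nat_lit 0)), ((nat_lit 0), (nat_lit 0), (nat_lit 0)), ((nat_lit 620), (nat_lit 1000), (nat_lit 670))], ((nat_lit 100), (nat_lit 76), (nat_lit 52))⟩, (nat_lit 740459), (nat_lit 1626), (nat_lit 1626), (nat_lit 0), (nat_lit 2754092), [(nat_lit 278880000), (nat_lit 415520000), (nat_lit 492030000)], [], [(nat_lit 1385090168), (nat_lit 1387430954), (nat_lit 1527748327), (nat_lit 1521526657), (nat_lit 1946801220), (nat_lit 2117098305), (nat_lit 1540183894), (nat_lit 1535963700)], (nat_lit 1100000), (nat_lit 1271251), (nat_lit 1271251), (nat_lit 1271251), (nat_lit 0), (nat_lit 2825001), [(nat_lit 1695001), (nat_lit 1271251), (nat_lit 1271251)], [(nat_lit 28), (nat_lit 65), (nat_lit 518), (nat_lit 225), (nat_lit 12)]⟩,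
 ⟨⟨[(nat_lit 120), (nat_lit 160), (nat_lit 180)], [(nat_lit 0), (nat_lit 0), (nat_lit 1613)], [((nat_lit 0), (nat_lit 0), (nat_lit 0)), ((nat_lit 0), (nat_lit 0), (nat_lit 0)), ((nat_lit 620), (nat_lit 1000), (nat_lit 670))], ((nat_lit 100), (nat_lit 76), (nat_lit 52))⟩, (nat_lit 94486), (nat_lit 300), (nat_lit 1684), (nat_lit 2597000), (nat_lit 2754092), [(nat_lit 278880000), (nat_lit 415520000), (nat_lit 492030000)], [], [(nat_lit 2011491320), (nat_lit 1966116553), (nat_lit 1862751110), (nat_lit 1844294143), (nat_lit 2210029460), (nat_lit 2352690963), (nat_lit 2715868990), (nat_lit 2864244820)], (nat_lit 1100000), (nat_lit 1271251), (nat_lit 780000), (nat_lit 1435001), (nat_lit 0), (nat_lit 2825001), [(nat_lit 1695001), (nat_lit 1271251), (nat_lit 1271251)], [(nat_lit 28), (nat_lit 65), (nat_lit 519), (nat_lit 200), (nat_lit 12)]⟩⟩)))) (.stt (nat_lit 1) (.spl (nat_lit 2) (nat_lit 160) (.leaf ⟨(nat_lit 1000), (nat_lit 0), (nat_lit 0), (nat_lit 0),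 (nat_lit 0), (nat_lit 2965), (nat_lit 0), (nat_lit 0), (nat_lit 0), (nat_lit 0), (nat_lit 386200), [((nat_lit 380), [((nat_lit 24), (nat_lit 0), (nat_lit 92)), ((nat_lit 24), (nat_lit 1), (nat_lit 908))])], ⟨(nat_lit 6), false, true, true, (nat_lit 261), (nat_lit 2236), (nat_lit 3163), [(nat_lit 1538797), (nat_lit 1534240), (nat_lit 1605240), (nat_lit 1602541), (nat_lit 1706419), (nat_lit 1691033), (nat_lit 1772883), (nat_lit 1759355)]⟩, ⟨(nat_lit 3), false, false, true, (nat_lit 149), (nat_lit 2236), (nat_lit 3163), [(nat_lit 1289472), (nat_lit 1294870), (nat_lit 1333702), (nat_lit 1340339), (nat_lit 1411379), (nat_lit 1408901), (nat_lit 1455689), (nat_lit 1454450)]⟩, (nat_lit 4840561), (nat_lit 40964489), (nat_lit 18423758), (nat_lit 7611753), (nat_lit 0), (nat_lit 0), [⟨(nat_lit 1), (nat_lit 68), (nat_lit 61), (nat_lit 100), (nat_lit 265591005)⟩], [], [], [],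
 ⟨⟨[(nat_lit 40), (nat_lit 60), (nat_lit 80)], [(nat_lit 0), (nat_lit 832), (nat_lit 1534)], [((nat_lit 0), (nat_lit 0), (nat_lit 0)), ((nat_lit 1000), (nat_lit 659), (nat_lit 528)), ((nat_lit 1000), (nat_lit 650), (nat_lit 549))], ((nat_lit 65), (nat_lit 100), (nat_lit 55))⟩, (nat_lit 0), (nat_lit 91), (nat_lit 91), (nat_lit 0), (nat_lit 0), [(nat_lit 1389836811), (nat_lit 1122624374), (nat_lit 1023510400)], [(nat_lit 0), (nat_lit 0), (nat_lit 0)], [(nat_lit 22343743116), (nat_lit 23501881164), (nat_lit 26761242672), (nat_lit 27870283977), (nat_lit 23667265216), (nat_lit 24705378904), (nat_lit 27616965477), (nat_lit 28615812320)], (nat_lit 0), (nat_lit 0), (nat_lit 0), (nat_lit 0), (nat_lit 0), (nat_lit 0), [], [(nat_lit 2), (nat_lit 44), (nat_lit 260), (nat_lit 50), (nat_lit 10)]⟩,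
 Rw.none,
 Rw.none⟩) (.leaf ⟨(nat_lit 963), (nat_lit 23), (nat_lit 0), (nat_lit 14), (nat_lit 0), (nat_lit 2960), (nat_lit 356), (nat_lit 177), (nat_lit 0), (nat_lit 0), (nat_lit 400000), [((nat_lit 380), [((nat_lit 24), (nat_lit 1), (nat_lit 889)), ((nat_lit 41), (nat_lit 2), (nat_lit 74))])], ⟨(nat_lit 6), false, true, true, (nat_lit 261), (nat_lit 2236), (nat_lit 3163), [(nat_lit 1538797), (nat_lit 1534240), (nat_lit 1605240), (nat_lit 1602541), (nat_lit 1706419), (nat_lit 1691033), (nat_lit 1772883), (nat_lit 1759355)]⟩, ⟨(nat_lit 4), false, false, false, (nat_lit 163), (nat_lit 2236), (nat_lit 3163), [(nat_lit 1333702), (nat_lit 1340339), (nat_lit 1355794), (nat_lit 1363050), (nat_lit 1455689), (nat_lit 1454450), (nat_lit 1477844), (nat_lit 1477224)]⟩, (nat_lit 4964516), (nat_lit 40207824), (nat_lit 18191745), (nat_lit 8600431), (nat_lit 4), (nat_lit 0), [⟨(nat_lit 1), (nat_lit 68), (nat_lit 61), (nat_lit 100), (nat_lit 231174645)⟩], [], [], [],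
 ⟨⟨[(nat_lit 40), (nat_lit 60), (nat_lit 80)], [(nat_lit 0), (nat_lit 832), (nat_lit 1534)], [((nat_lit 0), (nat_lit 0), (nat_lit 0)), ((nat_lit 1000), (nat_lit 659), (nat_lit 528)), ((nat_lit 1000), (nat_lit 650), (nat_lit 549))], ((nat_lit 65), (nat_lit 100), (nat_lit 55))⟩, (nat_lit 0), (nat_lit 91), (nat_lit 91), (nat_lit 0), (nat_lit 0), [(nat_lit 1385575601), (nat_lit 1129539788), (nat_lit 1018010400)], [(nat_lit 0), (nat_lit 0), (nat_lit 0)], [(nat_lit 22339842321), (nat_lit 23497135161), (nat_lit 26754386160), (nat_lit 27862673830), (nat_lit 23664122721), (nat_lit 24701525721), (nat_lit 27612021336), (nat_lit 28609786115)], (nat_lit 0), (nat_lit 0), (nat_lit 0), (nat_lit 0), (nat_lit 0), (nat_lit 0), [], [(nat_lit 2), (nat_lit 44), (nat_lit 260), (nat_lit 50), (nat_lit 10)]⟩,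
 ⟨⟨[(nat_lit 120), (nat_lit 140), (nat_lit 160)], [(nat_lit 0), (nat_lit 266), (nat_lit 862)], [((nat_lit 0), (nat_lit 0), (nat_lit 0)), ((nat_lit 960), (nat_lit 1000), (nat_lit 200)), ((nat_lit 874), (nat_lit 1000), (nat_lit 406))], ((nat_lit 100), (nat_lit 81), (nat_lit 51))⟩, (nat_lit 154196), (nat_lit 1284), (nat_lit 1284), (nat_lit 0), (nat_lit 2179696), [(nat_lit 294816000), (nat_lit 364154000), (nat_lit 439264000)], [], [(nat_lit 1573302660), (nat_lit 1527629532), (nat_lit 1562717639), (nat_lit 1536116445), (nat_lit 2060096800), (nat_lit 1597482988), (nat_lit 1423634842), (nat_lit 1424159485)], (nat_lit 1271251), (nat_lit 1271251), (nat_lit 1271251), (nat_lit 1271251), (nat_lit 0), (nat_lit 2825001), [(nat_lit 1695001), (nat_lit 1271251), (nat_lit 1271251)], [(nat_lit 27), (nat_lit 62), (nat_lit 483), (nat_lit 250), (nat_lit 12)]⟩,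
 ⟨⟨[(nat_lit 120), (nat_lit 160), (nat_lit 180)], [(nat_lit 0), (nat_lit 0), (nat_lit 1613)], [((nat_lit 0), (nat_lit 0), (nat_lit 0)), ((nat_lit 0), (nat_lit 0), (nat_lit 0)), ((nat_lit 620), (nat_lit 1000), (nat_lit 670))], ((nat_lit 100), (nat_lit 76), (nat_lit 52))⟩, (nat_lit 6093), (nat_lit 300), (nat_lit 1882), (nat_lit 1038800), (nat_lit 3164542), [(nat_lit 111552000), (nat_lit 166208000), (nat_lit 196812000)], [], [(nat_lit 832037264), (nat_lit 823862183), (nat_lit 785153278), (nat_lit 776614756), (nat_lit 854993584), (nat_lit 906182623), (nat_lit 1036827446), (nat_lit 1090019328)], (nat_lit 1100000), (nat_lit 1271251), (nat_lit 780000), (nat_lit 1435001), (nat_lit 0), (nat_lit 2825001), [(nat_lit 1695001), (nat_lit 1271251), (nat_lit 1271251)], [(nat_lit 28), (nat_lit 65), (nat_lit 568), (nat_lit 200), (nat_lit 13)]⟩⟩)) (.spl (nat_lit 5) (nat_lit 120) (.leaf ⟨(nat_lit 530), (nat_lit 470), (nat_lit 0), (nat_lit 0), (nat_lit 0), (nat_lit 4177),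 (nat_lit 5001), (nat_lit 0), (nat_lit 0), (nat_lit 0), (nat_lit 260600), [((nat_lit 380), [((nat_lit 24), (nat_lit 0), (nat_lit 164)), ((nat_lit 41), (nat_lit 2), (nat_lit 366))])], ⟨(nat_lit 6), false, true, true, (nat_lit 261), (nat_lit 2236), (nat_lit 3163), [(nat_lit 1538797), (nat_lit 1534240), (nat_lit 1605240), (nat_lit 1602541), (nat_lit 1706419), (nat_lit 1691033), (nat_lit 1772883), (nat_lit 1759355)]⟩, ⟨(nat_lit 3), false, false, true, (nat_lit 154), (nat_lit 2236), (nat_lit 3163), [(nat_lit 1289472), (nat_lit 1294870), (nat_lit 1355794), (nat_lit 1363050), (nat_lit 1411379), (nat_lit 1408901), (nat_lit 1477844), (nat_lit 1477224)]⟩, (nat_lit 4882963), (nat_lit 40713892), (nat_lit 18347786), (nat_lit 7938322), (nat_lit 3), (nat_lit 0), [⟨(nat_lit 1), (nat_lit 82), (nat_lit 53), (nat_lit 100), (nat_lit 175067384)⟩], [], [], [],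
 ⟨⟨[(nat_lit 40), (nat_lit 60), (nat_lit 80)], [(nat_lit 0), (nat_lit 832), (nat_lit 1534)], [((nat_lit 0), (nat_lit 0), (nat_lit 0)), ((nat_lit 1000), (nat_lit 659), (nat_lit 528)), ((nat_lit 1000), (nat_lit 650), (nat_lit 549))], ((nat_lit 65), (nat_lit 100), (nat_lit 55))⟩, (nat_lit 127789), (nat_lit 257), (nat_lit 257), (nat_lit 0), (nat_lit 571225), [(nat_lit 1569388801), (nat_lit 1935560002), (nat_lit 2463753600)], [(nat_lit 0), (nat_lit 0), (nat_lit 0)], [(nat_lit 23176109256), (nat_lit 24245768330), (nat_lit 28423260999), (nat_lit 29714983428), (nat_lit 24190596946), (nat_lit 25147096918), (nat_lit 28923806967), (nat_lit 30076564260)], (nat_lit 1271251), (nat_lit 1271251), (nat_lit 1271251), (nat_lit 1271251), (nat_lit 780000), (nat_lit 1435001), [(nat_lit 490000), (nat_lit 780000), (nat_lit 1100000)], [(nat_lit 2), (nat_lit 44), (nat_lit 260), (nat_lit 50), (nat_lit 10)]⟩,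
 ⟨⟨[(nat_lit 120), (nat_lit 140), (nat_lit 160)], [(nat_lit 0), (nat_lit 266), (nat_lit 862)], [((nat_lit 0), (nat_lit 0), (nat_lit 0)), ((nat_lit 960), (nat_lit 1000), (nat_lit 200)), ((nat_lit 874), (nat_lit 1000), (nat_lit 406))], ((nat_lit 100), (nat_lit 81), (nat_lit 51))⟩, (nat_lit 3621934), (nat_lit 545), (nat_lit 545), (nat_lit 0), (nat_lit 591921), [(nat_lit 3744960000), (nat_lit 4625740000), (nat_lit 5579840000)], [], [(nat_lit 15258457613), (nat_lit 15311583520), (nat_lit 17339160391), (nat_lit 17745990368), (nat_lit 13716125856), (nat_lit 12114286100), (nat_lit 13678726893), (nat_lit 13728040537)], (nat_lit 1271251), (nat_lit 1271251), (nat_lit 1271251), (nat_lit 1271251), (nat_lit 0), (nat_lit 780000), [(nat_lit 1695001), (nat_lit 1271251), (nat_lit 1271251)], [(nat_lit 27), (nat_lit 62), (nat_lit 428), (nat_lit 200), (nat_lit 11)]⟩,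
 Rw.none⟩) (.spl (nat_lit 1) (nat_lit 220) (.trX (nat_lit 3) (nat_lit 0) (nat_lit 1) (nat_lit 60) (nat_lit 74) (nat_lit 100) (nat_lit 340) (.leaf ⟨(nat_lit 831), (nat_lit 103), (nat_lit 0), (nat_lit 66), (nat_lit 0), (nat_lit 3346), (nat_lit 1659), (nat_lit 728), (nat_lit 0), (nat_lit 0), (nat_lit 467450), [((nat_lit 380), [((nat_lit 24), (nat_lit 0), (nat_lit 89)), ((nat_lit 41), (nat_lit 2), (nat_lit 742))])], ⟨(nat_lit 6), false, true, true, (nat_lit 253), (nat_lit 2236), (nat_lit 3163), [(nat_lit 1538797), (nat_lit 1534240), (nat_lit 1583107), (nat_lit 1579788), (nat_lit 1691180), (nat_lit 1676779), (nat_lit 1735490), (nat_lit 1722327)]⟩, ⟨(nat_lit 3), false, false, true, (nat_lit 154), (nat_lit 2236), (nat_lit 3163), [(nat_lit 1289472), (nat_lit 1294870), (nat_lit 1355794), (nat_lit 1363050), (nat_lit 1411379), (nat_lit 1408901), (nat_lit 1477844), (nat_lit 1477224)]⟩, (nat_lit 4848335), (nat_lit 41323073), (nat_lit 17664402), (nat_lit 8012525),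 (nat_lit 3), (nat_lit 0), [⟨(nat_lit 1), (nat_lit 85), (nat_lit 53), (nat_lit 100), (nat_lit 188069151)⟩], [], [], [],
 ⟨⟨[(nat_lit 40), (nat_lit 60), (nat_lit 80)], [(nat_lit 0), (nat_lit 832), (nat_lit 1534)], [((nat_lit 0), (nat_lit 0), (nat_lit 0)), ((nat_lit 1000), (nat_lit 659), (nat_lit 528)), ((nat_lit 1000), (nat_lit 650), (nat_lit 549))], ((nat_lit 65), (nat_lit 100), (nat_lit 55))⟩, (nat_lit 129334), (nat_lit 242), (nat_lit 242), (nat_lit 0), (nat_lit 529705), [(nat_lit 1400156412), (nat_lit 1067664341), (nat_lit 904892800)], [(nat_lit 0), (nat_lit 0), (nat_lit 0)], [(nat_lit 23131805046), (nat_lit 24144952091), (nat_lit 26841777467), (nat_lit 27914472930), (nat_lit 24342710550), (nat_lit 25342754405), (nat_lit 27769875571), (nat_lit 28593615590)], (nat_lit 1271251), (nat_lit 1271251), (nat_lit 1271251), (nat_lit 1271251), (nat_lit 780000), (nat_lit 1435001), [(nat_lit 490000), (nat_lit 780000), (nat_lit 1100000)], [(nat_lit 2), (nat_lit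 44), (nat_lit 260), (nat_lit 50), (nat_lit 10)]⟩,
 ⟨⟨[(nat_lit 120), (nat_lit 140), (nat_lit 160)], [(nat_lit 0), (nat_lit 266), (nat_lit 862)], [((nat_lit 0), (nat_lit 0), (nat_lit 0)), ((nat_lit 960), (nat_lit 1000), (nat_lit 200)), ((nat_lit 874), (nat_lit 1000), (nat_lit 406))], ((nat_lit 100), (nat_lit 81), (nat_lit 51))⟩, (nat_lit 1493863), (nat_lit 667), (nat_lit 667), (nat_lit 0), (nat_lit 1032241), [(nat_lit 1346592000), (nat_lit 1663298000), (nat_lit 2006368000)], [], [(nat_lit 5000904530), (nat_lit 4984011580), (nat_lit 5304113856), (nat_lit 5252346441), (nat_lit 6521891830), (nat_lit 5487696865), (nat_lit 6412405023), (nat_lit 6421626463)], (nat_lit 1271251), (nat_lit 1271251), (nat_lit 1271251), (nat_lit 1271251), (nat_lit 780000), (nat_lit 3072501), [(nat_lit 1695001), (nat_lit 1271251), (nat_lit 1271251)], [(nat_lit 27), (nat_lit 62), (nat_lit 483), (nat_lit 250), (nat_lit 12)]⟩,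
 ⟨⟨[(nat_lit 140), (nat_lit 180), (nat_lit 200)], [(nat_lit 0), (nat_lit 0), (nat_lit 2835)], [((nat_lit 0), (nat_lit 0), (nat_lit 0)), ((nat_lit 0), (nat_lit 0), (nat_lit 0)), ((nat_lit 363), (nat_lit 1000), (nat_lit 798))], ((nat_lit 0), (nat_lit 0), (nat_lit 0))⟩, (nat_lit 33288), (nat_lit 300), (nat_lit 1695), (nat_lit 5154600), (nat_lit 2766207), [(nat_lit 649572000), (nat_lit 927828000), (nat_lit 1082400000)], [], [(nat_lit 4722825298), (nat_lit 4563818519), (nat_lit 4509814896), (nat_lit 4352446085), (nat_lit 4138122072), (nat_lit 3975612806), (nat_lit 3921829416), (nat_lit 4119593600)], (nat_lit 780000), (nat_lit 1271251), (nat_lit 780000), (nat_lit 1435001), (nat_lit 780000), (nat_lit 3072501), [(nat_lit 1977501), (nat_lit 1271251), (nat_lit 1271251)], [(nat_lit 32), (nat_lit 67), (nat_lit 522), (nat_lit 200), (nat_lit 11)]⟩⟩)) (.leaf ⟨(nat_lit 697), (nat_lit 237), (nat_lit 0), (nat_lit 66), (nat_lit 0), (nat_lit 3418), (nat_lit 2331), (nat_lit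 728), (nat_lit 0), (nat_lit 0), (nat_lit 375500), [((nat_lit 380), [((nat_lit 24), (nat_lit 0), (nat_lit 122)), ((nat_lit 41), (nat_lit 2), (nat_lit 575))])], ⟨(nat_lit 6), false, true, true, (nat_lit 270), (nat_lit 2236), (nat_lit 3163), [(nat_lit 1583107), (nat_lit 1579788), (nat_lit 1605240), (nat_lit 1602541), (nat_lit 1750729), (nat_lit 1736581), (nat_lit 1772883), (nat_lit 1759355)]⟩, ⟨(nat_lit 3), false, false, true, (nat_lit 154), (nat_lit 2236), (nat_lit 3163), [(nat_lit 1289472), (nat_lit 1294870), (nat_lit 1355794), (nat_lit 1363050), (nat_lit 1411379), (nat_lit 1408901), (nat_lit 1477844), (nat_lit 1477224)]⟩, (nat_lit 4920424), (nat_lit 39982986), (nat_lit 19170618), (nat_lit 7846396), (nat_lit 3), (nat_lit 0), [⟨(nat_lit 1), (nat_lit 77), (nat_lit 53), (nat_lit 100), (nat_lit 83069853)⟩], [], [], [⟨(nat_lit 1), (nat_lit 65), (nat_lit 90), (nat_lit 100), (nat_lit 27399621)⟩],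
 ⟨⟨[(nat_lit 40), (nat_lit 60), (nat_lit 80)], [(nat_lit 0), (nat_lit 832), (nat_lit 1534)], [((nat_lit 0), (nat_lit 0), (nat_lit 0)), ((nat_lit 1000), (nat_lit 659), (nat_lit 528)), ((nat_lit 1000), (nat_lit 650), (nat_lit 549))], ((nat_lit 65), (nat_lit 100), (nat_lit 55))⟩, (nat_lit 445002), (nat_lit 257), (nat_lit 257), (nat_lit 0), (nat_lit 570759), [(nat_lit 1475475205), (nat_lit 1463309946), (nat_lit 1598187200)], [(nat_lit 0), (nat_lit 0), (nat_lit 0)], [(nat_lit 23420563434), (nat_lit 24443040419), (nat_lit 27479335574), (nat_lit 28559763227), (nat_lit 24597575938), (nat_lit 25515530877), (nat_lit 28350690917), (nat_lit 29162846709)], (nat_lit 1271251), (nat_lit 1271251), (nat_lit 1271251), (nat_lit 1271251), (nat_lit 780000), (nat_lit 1435001), [(nat_lit 490000), (nat_lit 780000), (nat_lit 1100000)], [(nat_lit 2), (nat_lit 44), (nat_lit 260), (nat_lit 50), (nat_lit 10)]⟩,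
 ⟨⟨[(nat_lit 100), (nat_lit 140), (nat_lit 160)], [(nat_lit 0), (nat_lit 508), (nat_lit 1689)], [((nat_lit 0), (nat_lit 0), (nat_lit 0)), ((nat_lit 1000), (nat_lit 1000), (nat_lit 198)), ((nat_lit 811), (nat_lit 1000), (nat_lit 671))], ((nat_lit 100), (nat_lit 91), (nat_lit 51))⟩, (nat_lit 1761785), (nat_lit 525), (nat_lit 525), (nat_lit 0), (nat_lit 780053), [(nat_lit 1893750000), (nat_lit 2982126000), (nat_lit 3597216000)], [], [(nat_lit 9360317900), (nat_lit 9408773600), (nat_lit 10213706233), (nat_lit 10219768868), (nat_lit 10358775947), (nat_lit 10326342296), (nat_lit 10909621971), (nat_lit 10937729819)], (nat_lit 1271251), (nat_lit 1271251), (nat_lit 1271251), (nat_lit 1271251), (nat_lit 780000), (nat_lit 3072501), [(nat_lit 1412501), (nat_lit 1271251), (nat_lit 1271251)], [(nat_lit 23), (nat_lit 62), (nat_lit 483), (nat_lit 250), (nat_lit 12)]⟩,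
 ⟨⟨[(nat_lit 140), (nat_lit 180), (nat_lit 200)], [(nat_lit 0), (nat_lit 0), (nat_lit 2835)], [((nat_lit 0), (nat_lit 0), (nat_lit 0)), ((nat_lit 0), (nat_lit 0), (nat_lit 0)), ((nat_lit 363), (nat_lit 1000), (nat_lit 798))], ((nat_lit 0), (nat_lit 0), (nat_lit 0))⟩, (nat_lit 18159), (nat_lit 300), (nat_lit 1842), (nat_lit 5154600), (nat_lit 3065287), [(nat_lit 649572000), (nat_lit 927828000), (nat_lit 1082400000)], [], [(nat_lit 4760590914), (nat_lit 4606690965), (nat_lit 4554570393), (nat_lit 4401816681), (nat_lit 4171272958), (nat_lit 4018678087), (nat_lit 3967037057), (nat_lit 4119593600)], (nat_lit 780000), (nat_lit 1271251), (nat_lit 780000), (nat_lit 1435001), (nat_lit 780000), (nat_lit 3072501), [(nat_lit 1977501), (nat_lit 1271251), (nat_lit 1271251)], [(nat_lit 32), (nat_lit 67), (nat_lit 558), (nat_lit 200), (nat_lit 12)]⟩⟩)))))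
noncomputable def c16_14 : Tr Lf :=
 (.stt (nat_lit 2) (.leaf ⟨(nat_lit 778), (nat_lit 138), (nat_lit 0), (nat_lit 84), (nat_lit 0), (nat_lit 3636), (nat_lit 2213), (nat_lit 853), (nat_lit 0), (nat_lit 146561216568), (nat_lit 430750), [((nat_lit 380), [((nat_lit 24), (nat_lit 0), (nat_lit 103)), ((nat_lit 41), (nat_lit 2), (nat_lit 675))])], ⟨(nat_lit 4), true, false, false, (nat_lit 193), (nat_lit 2236), (nat_lit 3163), [(nat_lit 1355794), (nat_lit 1363050), (nat_lit 1422068), (nat_lit 1431182), (nat_lit 1538797), (nat_lit 1534240), (nat_lit 1605240), (nat_lit 1602541)]⟩, ⟨(nat_lit 4), false, false, false, (nat_lit 181), (nat_lit 2236), (nat_lit 3163), [(nat_lit 1355794), (nat_lit 1363050), (nat_lit 1422068), (nat_lit 1431182), (nat_lit 1477844), (nat_lit 1477224), (nat_lit 1544182), (nat_lit 1545421)]⟩, (nat_lit 4696591), (nat_lit 44384386), (nat_lit 11872405), (nat_lit 10743209), (nat_lit 4), (nat_lit 0), [⟨(nat_lit 0), (nat_lit 100), (nat_lit 44),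 (nat_lit 99), (nat_lit 75565107)⟩], [], [], [],
 ⟨⟨[(nat_lit 40), (nat_lit 60), (nat_lit 80)], [(nat_lit 0), (nat_lit 832), (nat_lit 1534)], [((nat_lit 0), (nat_lit 0), (nat_lit 0)), ((nat_lit 1000), (nat_lit 659), (nat_lit 528)), ((nat_lit 1000), (nat_lit 650), (nat_lit 549))], ((nat_lit 65), (nat_lit 100), (nat_lit 55))⟩, (nat_lit 323419), (nat_lit 245), (nat_lit 245), (nat_lit 0), (nat_lit 544481), [(nat_lit 1430095202), (nat_lit 1243399522), (nat_lit 1180772800)], [(nat_lit 0), (nat_lit 0), (nat_lit 0)], [(nat_lit 19871658958), (nat_lit 21132630525), (nat_lit 22347736586), (nat_lit 23640086834), (nat_lit 21342443938), (nat_lit 22487579212), (nat_lit 23634458350), (nat_lit 24721744324)], (nat_lit 1271251), (nat_lit 1271251), (nat_lit 780000), (nat_lit 1762501), (nat_lit 780000), (nat_lit 1435001), [(nat_lit 490000), (nat_lit 780000), (nat_lit 1100000)], [(nat_lit 2), (nat_lit 44), (nat_lit 345), (nat_lit 125), (nat_lit 15)]⟩,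
 ⟨⟨[(nat_lit 120), (nat_lit 140), (nat_lit 160)], [(nat_lit 0), (nat_lit 266), (nat_lit 862)], [((nat_lit 0), (nat_lit 0), (nat_lit 0)), ((nat_lit 960), (nat_lit 1000), (nat_lit 200)), ((nat_lit 874), (nat_lit 1000), (nat_lit 406))], ((nat_lit 100), (nat_lit 81), (nat_lit 51))⟩, (nat_lit 2114099), (nat_lit 210), (nat_lit 210), (nat_lit 0), (nat_lit 0), [(nat_lit 1768896000), (nat_lit 2184924000), (nat_lit 2635584000)], [], [(nat_lit 5614444081), (nat_lit 6067463798), (nat_lit 6105377015), (nat_lit 6496684130), (nat_lit 7193649885), (nat_lit 7326654070), (nat_lit 7105994199), (nat_lit 7308526080)], (nat_lit 0), (nat_lit 0), (nat_lit 0), (nat_lit 0), (nat_lit 0), (nat_lit 0), [], [(nat_lit 27), (nat_lit 62), (nat_lit 456), (nat_lit 225), (nat_lit 12)]⟩,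
 ⟨⟨[(nat_lit 120), (nat_lit 140), (nat_lit 160)], [(nat_lit 0), (nat_lit 266), (nat_lit 862)], [((nat_lit 0), (nat_lit 0), (nat_lit 0)), ((nat_lit 960), (nat_lit 1000), (nat_lit 200)), ((nat_lit 874), (nat_lit 1000), (nat_lit 406))], ((nat_lit 100), (nat_lit 81), (nat_lit 51))⟩, (nat_lit 172421), (nat_lit 300), (nat_lit 1469), (nat_lit 5577601), (nat_lit 2458023), [(nat_lit 669312000), (nat_lit 826728000), (nat_lit 997248000)], [], [(nat_lit 4516681336), (nat_lit 4391005238), (nat_lit 4306305703), (nat_lit 4184177506), (nat_lit 5145383881), (nat_lit 3993881222), (nat_lit 6074642872), (nat_lit 4952096578)], (nat_lit 1271251), (nat_lit 1271251), (nat_lit 780000), (nat_lit 1435001), (nat_lit 0), (nat_lit 2825001), [(nat_lit 1695001), (nat_lit 1271251), (nat_lit 1271251)], [(nat_lit 27), (nat_lit 62), (nat_lit 473), (nat_lit 225), (nat_lit 12)]⟩⟩) (.spl (nat_lit 0) (nat_lit 370) (.leaf ⟨(nat_lit 939), (nat_lit 0), (nat_lit 0), (nat_lit 61), (nat_lit 0),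 (nat_lit 3226), (nat_lit 621), (nat_lit 679), (nat_lit 0), (nat_lit 3662701765063), (nat_lit 527100), [((nat_lit 370), [((nat_lit 24), (nat_lit 0), (nat_lit 6)), ((nat_lit 24), (nat_lit 1), (nat_lit 171)), ((nat_lit 41), (nat_lit 2), (nat_lit 762))])], ⟨(nat_lit 4), false, false, false, (nat_lit 192), (nat_lit 2738), (nat_lit 3163), [(nat_lit 1355914), (nat_lit 1359435), (nat_lit 1422342), (nat_lit 1426651), (nat_lit 1538797), (nat_lit 1536642), (nat_lit 1605257), (nat_lit 1603890)]⟩, ⟨(nat_lit 4), false, false, false, (nat_lit 180), (nat_lit 2738), (nat_lit 3163), [(nat_lit 1355914), (nat_lit 1359435), (nat_lit 1422342), (nat_lit 1426651), (nat_lit 1477844), (nat_lit 1477581), (nat_lit 1544285), (nat_lit 1544810)]⟩, (nat_lit 4691456), (nat_lit 44428720), (nat_lit 11859312), (nat_lit 10711968), (nat_lit 0), (nat_lit 0), [], [], [], [],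
 ⟨⟨[(nat_lit 40), (nat_lit 60), (nat_lit 80)], [(nat_lit 0), (nat_lit 832), (nat_lit 1534)], [((nat_lit 0), (nat_lit 0), (nat_lit 0)), ((nat_lit 1000), (nat_lit 659), (nat_lit 528)), ((nat_lit 1000), (nat_lit 650), (nat_lit 549))], ((nat_lit 65), (nat_lit 100), (nat_lit 55))⟩, (nat_lit 3284), (nat_lit 169), (nat_lit 169), (nat_lit 0), (nat_lit 344070), [(nat_lit 1340465201), (nat_lit 816665329), (nat_lit 419170400)], [(nat_lit 0), (nat_lit 0), (nat_lit 0)], [(nat_lit 19079176499), (nat_lit 19758816490), (nat_lit 21861183107), (nat_lit 22485218023), (nat_lit 20677597205), (nat_lit 21346832255), (nat_lit 23259050681), (nat_lit 23816594737)], (nat_lit 1271251), (nat_lit 1271251), (nat_lit 780000), (nat_lit 1762501), (nat_lit 780000), (nat_lit 1435001), [(nat_lit 490000), (nat_lit 780000), (nat_lit 1100000)], [(nat_lit 2), (nat_lit 44), (nat_lit 345), (nat_lit 125), (nat_lit 15)]⟩,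
 ⟨⟨[(nat_lit 120), (nat_lit 140), (nat_lit 160)], [(nat_lit 0), (nat_lit 266), (nat_lit 862)], [((nat_lit 0), (nat_lit 0), (nat_lit 0)), ((nat_lit 960), (nat_lit 1000), (nat_lit 200)), ((nat_lit 874), (nat_lit 1000), (nat_lit 406))], ((nat_lit 100), (nat_lit 81), (nat_lit 51))⟩, (nat_lit 417091), (nat_lit 1301), (nat_lit 1301), (nat_lit 0), (nat_lit 2096709), [(nat_lit 486048000), (nat_lit 600362000), (nat_lit 724192000)], [], [(nat_lit 2379522253), (nat_lit 2312016802), (nat_lit 2837129138), (nat_lit 2140813372), (nat_lit 3738705477), (nat_lit 2900389942), (nat_lit 4759998065), (nat_lit 3953022848)], (nat_lit 1271251), (nat_lit 1271251), (nat_lit 780000), (nat_lit 1762501), (nat_lit 0), (nat_lit 2825001), [(nat_lit 1695001), (nat_lit 1271251), (nat_lit 1271251)], [(nat_lit 27), (nat_lit 62), (nat_lit 456), (nat_lit 225), (nat_lit 12)]⟩,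
 ⟨⟨[(nat_lit 120), (nat_lit 140), (nat_lit 160)], [(nat_lit 0), (nat_lit 266), (nat_lit 862)], [((nat_lit 0), (nat_lit 0), (nat_lit 0)), ((nat_lit 960), (nat_lit 1000), (nat_lit 200)), ((nat_lit 874), (nat_lit 1000), (nat_lit 406))], ((nat_lit 100), (nat_lit 81), (nat_lit 51))⟩, (nat_lit 128769), (nat_lit 300), (nat_lit 1002), (nat_lit 4050400), (nat_lit 1446339), [(nat_lit 486048000), (nat_lit 600362000), (nat_lit 724192000)], [], [(nat_lit 2984744200), (nat_lit 2908722752), (nat_lit 2831741233), (nat_lit 2769746376), (nat_lit 3819659006), (nat_lit 2903046690), (nat_lit 4543995436), (nat_lit 3650432794)], (nat_lit 1271251), (nat_lit 1271251), (nat_lit 780000), (nat_lit 1435001), (nat_lit 0), (nat_lit 2825001), [(nat_lit 1695001), (nat_lit 1271251), (nat_lit 1271251)], [(nat_lit 27), (nat_lit 62), (nat_lit 456), (nat_lit 225), (nat_lit 12)]⟩⟩) (.leaf ⟨(nat_lit 941), (nat_lit 0), (nat_lit 0), (nat_lit 59), (nat_lit 0), (nat_lit 3331), (nat_lit 595),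 (nat_lit 656), (nat_lit 0), (nat_lit 3713873729682), (nat_lit 527600), [((nat_lit 380), [((nat_lit 24), (nat_lit 1), (nat_lit 185)), ((nat_lit 41), (nat_lit 2), (nat_lit 756))])], ⟨(nat_lit 4), false, false, false, (nat_lit 193), (nat_lit 2236), (nat_lit 2739), [(nat_lit 1359410), (nat_lit 1363145), (nat_lit 1426601), (nat_lit 1431406), (nat_lit 1536642), (nat_lit 1534240), (nat_lit 1603890), (nat_lit 1602558)]⟩, ⟨(nat_lit 4), false, false, false, (nat_lit 181), (nat_lit 2236), (nat_lit 2739), [(nat_lit 1359410), (nat_lit 1363145), (nat_lit 1426601), (nat_lit 1431406), (nat_lit 1477581), (nat_lit 1477224), (nat_lit 1544794), (nat_lit 1545508)]⟩, (nat_lit 4702562), (nat_lit 44332588), (nat_lit 11889254), (nat_lit 10778158), (nat_lit 0), (nat_lit 0), [], [], [], [],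
 ⟨⟨[(nat_lit 40), (nat_lit 60)], [(nat_lit 0), (nat_lit 1134)], [((nat_lit 0), (nat_lit 0), (nat_lit 0)), ((nat_lit 1000), (nat_lit 575), (nat_lit 619))], ((nat_lit 59), (nat_lit 100), (nat_lit 58))⟩, (nat_lit 508), (nat_lit 150), (nat_lit 150), (nat_lit 0), (nat_lit 373155), [(nat_lit 1339266404), (nat_lit 723753200)], [(nat_lit 0), (nat_lit 0)], [(nat_lit 20014073042), (nat_lit 20777536182), (nat_lit 22740261018), (nat_lit 23334572494), (nat_lit 21639876432), (nat_lit 22276471385), (nat_lit 24037585473), (nat_lit 24569116790)], (nat_lit 1271251), (nat_lit 1271251), (nat_lit 780000), (nat_lit 1762501), (nat_lit 780000), (nat_lit 1435001), [(nat_lit 490000), (nat_lit 780000)], [(nat_lit 1), (nat_lit 38), (nat_lit 203), (nat_lit 0), (nat_lit 10)]⟩,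
 ⟨⟨[(nat_lit 120), (nat_lit 140), (nat_lit 160)], [(nat_lit 0), (nat_lit 266), (nat_lit 862)], [((nat_lit 0), (nat_lit 0), (nat_lit 0)), ((nat_lit 960), (nat_lit 1000), (nat_lit 200)), ((nat_lit 874), (nat_lit 1000), (nat_lit 406))], ((nat_lit 100), (nat_lit 81), (nat_lit 51))⟩, (nat_lit 356962), (nat_lit 1466), (nat_lit 1466), (nat_lit 0), (nat_lit 2452287), [(nat_lit 470112000), (nat_lit 580678000), (nat_lit 700448000)], [], [(nat_lit 2375716828), (nat_lit 2305007584), (nat_lit 2740342094), (nat_lit 2133933916), (nat_lit 3608253852), (nat_lit 2805036874), (nat_lit 4588964015), (nat_lit 3815775200)], (nat_lit 1271251), (nat_lit 1271251), (nat_lit 780000), (nat_lit 1762501), (nat_lit 0), (nat_lit 2825001), [(nat_lit 1695001), (nat_lit 1271251), (nat_lit 1271251)], [(nat_lit 27), (nat_lit 62), (nat_lit 477), (nat_lit 225), (nat_lit 12)]⟩,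
 ⟨⟨[(nat_lit 120), (nat_lit 140), (nat_lit 160)], [(nat_lit 0), (nat_lit 266), (nat_lit 862)], [((nat_lit 0), (nat_lit 0), (nat_lit 0)), ((nat_lit 960), (nat_lit 1000), (nat_lit 200)), ((nat_lit 874), (nat_lit 1000), (nat_lit 406))], ((nat_lit 100), (nat_lit 81), (nat_lit 51))⟩, (nat_lit 121783), (nat_lit 300), (nat_lit 1120), (nat_lit 3917600), (nat_lit 1700897), [(nat_lit 470112000), (nat_lit 580678000), (nat_lit 700448000)], [], [(nat_lit 2889839091), (nat_lit 2816051152), (nat_lit 2742093670), (nat_lit 2681252754), (nat_lit 3693394632), (nat_lit 2807831040), (nat_lit 4393369004), (nat_lit 3530074316)], (nat_lit 1271251), (nat_lit 1271251), (nat_lit 780000), (nat_lit 1435001), (nat_lit 0), (nat_lit 2825001), [(nat_lit 1695001), (nat_lit 1271251), (nat_lit 1271251)], [(nat_lit 27), (nat_lit 62), (nat_lit 456), (nat_lit 225), (nat_lit 12)]⟩⟩)))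
noncomputable def c16_15 : Tr Lf :=
 (.stt (nat_lit 1) (.spl (nat_lit 5) (nat_lit 120) (.spl (nat_lit 1) (nat_lit 220) (.ord (.trX (nat_lit 3) (nat_lit 0) (nat_lit 1) (nat_lit 60) (nat_lit 74) (nat_lit 100) (nat_lit 340) (.leaf ⟨(nat_lit 926), (nat_lit 30), (nat_lit 0), (nat_lit 44), (nat_lit 0), (nat_lit 2882), (nat_lit 766), (nat_lit 679), (nat_lit 0), (nat_lit 1003242), (nat_lit 442000), [((nat_lit 380), [((nat_lit 24), (nat_lit 1), (nat_lit 568)), ((nat_lit 41), (nat_lit 2), (nat_lit 358))])], ⟨(nat_lit 6), false, true, true, (nat_lit 253), (nat_lit 2236), (nat_lit 3163), [(nat_lit 1538797), (nat_lit 1534240), (nat_lit 1583107), (nat_lit 1579788), (nat_lit 1691180), (nat_lit 1676779), (nat_lit 1735490), (nat_lit 1722327)]⟩, ⟨(nat_lit 4), false, false, false, (nat_lit 176), (nat_lit 2236), (nat_lit 3163), [(nat_lit 1355794), (nat_lit 1363050), (nat_lit 1399976), (nat_lit 1408471), (nat_lit 1477844), (nat_lit 1477224), (nat_lit 1522091), (nat_lit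 1522710)]⟩, (nat_lit 5045826), (nat_lit 40011182), (nat_lit 17284859), (nat_lit 9703959), (nat_lit 4), (nat_lit 0), [⟨(nat_lit 1), (nat_lit 85), (nat_lit 53), (nat_lit 100), (nat_lit 255305298)⟩], [], [], [⟨(nat_lit 0), (nat_lit 100), (nat_lit 91), (nat_lit 27), (nat_lit 39136911)⟩],
 ⟨⟨[(nat_lit 40), (nat_lit 60), (nat_lit 80)], [(nat_lit 0), (nat_lit 832), (nat_lit 1534)], [((nat_lit 0), (nat_lit 0), (nat_lit 0)), ((nat_lit 1000), (nat_lit 659), (nat_lit 528)), ((nat_lit 1000), (nat_lit 650), (nat_lit 549))], ((nat_lit 65), (nat_lit 100), (nat_lit 55))⟩, (nat_lit 0), (nat_lit 88), (nat_lit 88), (nat_lit 0), (nat_lit 0), [(nat_lit 1378015219), (nat_lit 1086286972), (nat_lit 870108800)], [(nat_lit 0), (nat_lit 0), (nat_lit 0)], [(nat_lit 22275802813), (nat_lit 23419910416), (nat_lit 26178593952), (nat_lit 27238445810), (nat_lit 23611912693), (nat_lit 24638228968), (nat_lit 27203581800), (nat_lit 28123713729)], (nat_lit 0), (nat_lit 0), (nat_lit 0),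 (nat_lit 0), (nat_lit 0), (nat_lit 0), [], [(nat_lit 2), (nat_lit 44), (nat_lit 260), (nat_lit 50), (nat_lit 10)]⟩,
 ⟨⟨[(nat_lit 120), (nat_lit 140), (nat_lit 160)], [(nat_lit 0), (nat_lit 266), (nat_lit 862)], [((nat_lit 0), (nat_lit 0), (nat_lit 0)), ((nat_lit 960), (nat_lit 1000), (nat_lit 200)), ((nat_lit 874), (nat_lit 1000), (nat_lit 406))], ((nat_lit 100), (nat_lit 81), (nat_lit 51))⟩, (nat_lit 517131), (nat_lit 1026), (nat_lit 1026), (nat_lit 0), (nat_lit 1622435), [(nat_lit 589632000), (nat_lit 728308000), (nat_lit 878528000)], [], [(nat_lit 2559495876), (nat_lit 2546184524), (nat_lit 2743860234), (nat_lit 2734835572), (nat_lit 2183047337), (nat_lit 2118268993), (nat_lit 2219429610), (nat_lit 2206528124)], (nat_lit 1271251), (nat_lit 1271251), (nat_lit 1271251), (nat_lit 1271251), (nat_lit 0), (nat_lit 780000), [(nat_lit 1695001), (nat_lit 1271251), (nat_lit 1271251)], [(nat_lit 27), (nat_lit 62), (nat_lit 401), (nat_lit 175), (nat_lit 10)]⟩,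
 ⟨⟨[(nat_lit 120), (nat_lit 140), (nat_lit 160)], [(nat_lit 0), (nat_lit 266), (nat_lit 862)], [((nat_lit 0), (nat_lit 0), (nat_lit 0)), ((nat_lit 960), (nat_lit 1000), (nat_lit 200)), ((nat_lit 874), (nat_lit 1000), (nat_lit 406))], ((nat_lit 100), (nat_lit 81), (nat_lit 51))⟩, (nat_lit 90314), (nat_lit 300), (nat_lit 1077), (nat_lit 2921604), (nat_lit 1622435), [(nat_lit 350592000), (nat_lit 433048000), (nat_lit 522368000)], [], [(nat_lit 1761035704), (nat_lit 1744646932), (nat_lit 1940350579), (nat_lit 1662271696), (nat_lit 1624889440), (nat_lit 1233474228), (nat_lit 2184173827), (nat_lit 1530685894)], (nat_lit 1271251), (nat_lit 1271251), (nat_lit 780000), (nat_lit 1435001), (nat_lit 0), (nat_lit 780000), [(nat_lit 1695001), (nat_lit 1271251), (nat_lit 1271251)], [(nat_lit 27), (nat_lit 62), (nat_lit 373), (nat_lit 150), (nat_lit 10)]⟩⟩))) (.leaf ⟨(nat_lit 830), (nat_lit 94), (nat_lit 0), (nat_lit 76), (nat_lit 0), (nat_lit 2860), (nat_lit 1461),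 (nat_lit 1083), (nat_lit 0), (nat_lit 2340886), (nat_lit 466850), [((nat_lit 380), [((nat_lit 24), (nat_lit 0), (nat_lit 89)), ((nat_lit 41), (nat_lit 2), (nat_lit 741))])], ⟨(nat_lit 6), false, true, true, (nat_lit 270), (nat_lit 2236), (nat_lit 3163), [(nat_lit 1583107), (nat_lit 1579788), (nat_lit 1605240), (nat_lit 1602541), (nat_lit 1750729), (nat_lit 1736581), (nat_lit 1772883), (nat_lit 1759355)]⟩, ⟨(nat_lit 4), false, false, false, (nat_lit 181), (nat_lit 2236), (nat_lit 3163), [(nat_lit 1355794), (nat_lit 1363050), (nat_lit 1422068), (nat_lit 1431182), (nat_lit 1477844), (nat_lit 1477224), (nat_lit 1544182), (nat_lit 1545421)]⟩, (nat_lit 5149041), (nat_lit 38505151), (nat_lit 18659874), (nat_lit 9834975), (nat_lit 4), (nat_lit 0), [⟨(nat_lit 1), (nat_lit 77), (nat_lit 53), (nat_lit 100), (nat_lit 193948397)⟩], [⟨(nat_lit 0), (nat_lit 100), (nat_lit 44), (nat_lit 99), (nat_lit 16859280)⟩], [], [⟨(nat_lit 0), (nat_lit 100), (nat_lit 90), (nat_lit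 30), (nat_lit 58306592)⟩],
 ⟨⟨[(nat_lit 40), (nat_lit 60), (nat_lit 80)], [(nat_lit 0), (nat_lit 832), (nat_lit 1534)], [((nat_lit 0), (nat_lit 0), (nat_lit 0)), ((nat_lit 1000), (nat_lit 659), (nat_lit 528)), ((nat_lit 1000), (nat_lit 650), (nat_lit 549))], ((nat_lit 65), (nat_lit 100), (nat_lit 55))⟩, (nat_lit 104727), (nat_lit 91), (nat_lit 91), (nat_lit 0), (nat_lit 0), [(nat_lit 1400668830), (nat_lit 1151242260), (nat_lit 909633600)], [(nat_lit 0), (nat_lit 0), (nat_lit 0)], [(nat_lit 22203115832), (nat_lit 23343504522), (nat_lit 26717540718), (nat_lit 27710513524), (nat_lit 23542562232), (nat_lit 24565751482), (nat_lit 27701327955), (nat_lit 28598261638)], (nat_lit 0), (nat_lit 0), (nat_lit 0), (nat_lit 0), (nat_lit 0), (nat_lit 0), [], [(nat_lit 2), (nat_lit 44), (nat_lit 260), (nat_lit 50), (nat_lit 10)]⟩,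
 ⟨⟨[(nat_lit 100), (nat_lit 140), (nat_lit 160)], [(nat_lit 0), (nat_lit 508), (nat_lit 1689)], [((nat_lit 0), (nat_lit 0), (nat_lit 0)), ((nat_lit 1000), (nat_lit 1000), (nat_lit 198)), ((nat_lit 811), (nat_lit 1000), (nat_lit 671))], ((nat_lit 100), (nat_lit 91), (nat_lit 51))⟩, (nat_lit 1502264), (nat_lit 808), (nat_lit 808), (nat_lit 0), (nat_lit 1168338), [(nat_lit 1062500000), (nat_lit 1673140000), (nat_lit 2018240000)], [], [(nat_lit 5282835795), (nat_lit 5293247292), (nat_lit 5724153504), (nat_lit 5726669777), (nat_lit 4598233940), (nat_lit 4615627336), (nat_lit 4998800649), (nat_lit 4994238202)], (nat_lit 1271251), (nat_lit 1271251), (nat_lit 1271251), (nat_lit 1271251), (nat_lit 0), (nat_lit 780000), [(nat_lit 1412501), (nat_lit 1271251), (nat_lit 1271251)], [(nat_lit 23), (nat_lit 62), (nat_lit 428), (nat_lit 200), (nat_lit 11)]⟩,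
 ⟨⟨[(nat_lit 120), (nat_lit 140), (nat_lit 160)], [(nat_lit 0), (nat_lit 266), (nat_lit 862)], [((nat_lit 0), (nat_lit 0), (nat_lit 0)), ((nat_lit 960), (nat_lit 1000), (nat_lit 200)), ((nat_lit 874), (nat_lit 1000), (nat_lit 406))], ((nat_lit 100), (nat_lit 81), (nat_lit 51))⟩, (nat_lit 156000), (nat_lit 300), (nat_lit 1118), (nat_lit 5046400), (nat_lit 1698489), [(nat_lit 605568000), (nat_lit 747992000), (nat_lit 902272000)], [], [(nat_lit 3169618456), (nat_lit 3137403994), (nat_lit 3318351473), (nat_lit 2944669856), (nat_lit 2818103418), (nat_lit 2329812186), (nat_lit 3725407169), (nat_lit 2161944507)], (nat_lit 1271251), (nat_lit 1271251), (nat_lit 780000), (nat_lit 1435001), (nat_lit 0), (nat_lit 780000), [(nat_lit 1695001), (nat_lit 1271251), (nat_lit 1271251)], [(nat_lit 27), (nat_lit 62), (nat_lit 373), (nat_lit 150), (nat_lit 10)]⟩⟩)) (.spl (nat_lit 0) (nat_lit 370) (.leaf ⟨(nat_lit 933), (nat_lit 16), (nat_lit 0), (nat_lit 51), (nat_lit 0),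 (nat_lit 2865), (nat_lit 709), (nat_lit 534), (nat_lit 0), (nat_lit 39516670315), (nat_lit 432200), [((nat_lit 370), [((nat_lit 24), (nat_lit 1), (nat_lit 638)), ((nat_lit 41), (nat_lit 2), (nat_lit 295))])], ⟨(nat_lit 6), false, true, true, (nat_lit 261), (nat_lit 2738), (nat_lit 3163), [(nat_lit 1538797), (nat_lit 1536642), (nat_lit 1605257), (nat_lit 1603890), (nat_lit 1706419), (nat_lit 1699061), (nat_lit 1772883), (nat_lit 1766313)]⟩, ⟨(nat_lit 4), false, false, false, (nat_lit 180), (nat_lit 2738), (nat_lit 3163), [(nat_lit 1355914), (nat_lit 1359435), (nat_lit 1422342), (nat_lit 1426651), (nat_lit 1477844), (nat_lit 1477581), (nat_lit 1544285), (nat_lit 1544810)]⟩, (nat_lit 5114928), (nat_lit 39133757), (nat_lit 17955577), (nat_lit 9910666), (nat_lit 4), (nat_lit 0), [⟨(nat_lit 1), (nat_lit 80), (nat_lit 57), (nat_lit 100), (nat_lit 238253985)⟩], [], [], [],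
 ⟨⟨[(nat_lit 40), (nat_lit 60), (nat_lit 80)], [(nat_lit 0), (nat_lit 832), (nat_lit 1534)], [((nat_lit 0), (nat_lit 0), (nat_lit 0)), ((nat_lit 1000), (nat_lit 659), (nat_lit 528)), ((nat_lit 1000), (nat_lit 650), (nat_lit 549))], ((nat_lit 65), (nat_lit 100), (nat_lit 55))⟩, (nat_lit 719), (nat_lit 88), (nat_lit 88), (nat_lit 0), (nat_lit 0), [(nat_lit 1380202006), (nat_lit 1074164248), (nat_lit 907427200)], [(nat_lit 0), (nat_lit 0), (nat_lit 0)], [(nat_lit 22334130465), (nat_lit 22904747414), (nat_lit 26674929285), (nat_lit 27171631975), (nat_lit 23672818565), (nat_lit 24184768534), (nat_lit 27657408667), (nat_lit 28106152145)], (nat_lit 0), (nat_lit 0), (nat_lit 0), (nat_lit 0), (nat_lit 0), (nat_lit 0), [], [(nat_lit 2), (nat_lit 44), (nat_lit 260), (nat_lit 50), (nat_lit 10)]⟩,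
 ⟨⟨[(nat_lit 120), (nat_lit 140), (nat_lit 160)], [(nat_lit 0), (nat_lit 266), (nat_lit 862)], [((nat_lit 0), (nat_lit 0), (nat_lit 0)), ((nat_lit 960), (nat_lit 1000), (nat_lit 200)), ((nat_lit 874), (nat_lit 1000), (nat_lit 406))], ((nat_lit 100), (nat_lit 81), (nat_lit 51))⟩, (nat_lit 514041), (nat_lit 1166), (nat_lit 1166), (nat_lit 0), (nat_lit 2096709), [(nat_lit 533856000), (nat_lit 659414000), (nat_lit 795424000)], [], [(nat_lit 1843616640), (nat_lit 1773041234), (nat_lit 1962074019), (nat_lit 1964275991), (nat_lit 2602859818), (nat_lit 2244366604), (nat_lit 2666584483), (nat_lit 2658721572)], (nat_lit 1271251), (nat_lit 1271251), (nat_lit 1271251), (nat_lit 1271251), (nat_lit 780000), (nat_lit 3072501), [(nat_lit 1695001), (nat_lit 1271251), (nat_lit 1271251)], [(nat_lit 27), (nat_lit 62), (nat_lit 483), (nat_lit 250), (nat_lit 12)]⟩,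
 ⟨⟨[(nat_lit 120), (nat_lit 140), (nat_lit 160)], [(nat_lit 0), (nat_lit 266), (nat_lit 862)], [((nat_lit 0), (nat_lit 0), (nat_lit 0)), ((nat_lit 960), (nat_lit 1000), (nat_lit 200)), ((nat_lit 874), (nat_lit 1000), (nat_lit 406))], ((nat_lit 100), (nat_lit 81), (nat_lit 51))⟩, (nat_lit 104684), (nat_lit 300), (nat_lit 1218), (nat_lit 3386401), (nat_lit 2096709), [(nat_lit 406368000), (nat_lit 501942000), (nat_lit 605472000)], [], [(nat_lit 3116247083), (nat_lit 2248891842), (nat_lit 2192629788), (nat_lit 2119143753), (nat_lit 2375111409), (nat_lit 2092958166), (nat_lit 2910818276), (nat_lit 2216787020)], (nat_lit 1271251), (nat_lit 1271251), (nat_lit 780000), (nat_lit 1435001), (nat_lit 780000), (nat_lit 3072501), [(nat_lit 1695001), (nat_lit 1271251), (nat_lit 1271251)], [(nat_lit 27), (nat_lit 62), (nat_lit 456), (nat_lit 225), (nat_lit 12)]⟩⟩) (.trX (nat_lit 3) (nat_lit 0) (nat_lit 1) (nat_lit 54) (nat_lit 74) (nat_lit 100) (nat_lit 340) (.leaf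 ⟨(nat_lit 948), (nat_lit 11), (nat_lit 0), (nat_lit 41), (nat_lit 0), (nat_lit 3015), (nat_lit 544), (nat_lit 433), (nat_lit 0), (nat_lit 23133), (nat_lit 290850), [((nat_lit 380), [((nat_lit 24), (nat_lit 0), (nat_lit 589)), ((nat_lit 24), (nat_lit 1), (nat_lit 359))])], ⟨(nat_lit 6), false, true, true, (nat_lit 257), (nat_lit 2236), (nat_lit 2739), [(nat_lit 1536642), (nat_lit 1534240), (nat_lit 1603890), (nat_lit 1602558), (nat_lit 1684296), (nat_lit 1676779), (nat_lit 1751548), (nat_lit 1745101)]⟩, ⟨(nat_lit 4), false, false, false, (nat_lit 181), (nat_lit 2236), (nat_lit 2739), [(nat_lit 1359410), (nat_lit 1363145), (nat_lit 1426601), (nat_lit 1431406), (nat_lit 1477581), (nat_lit 1477224), (nat_lit 1544794), (nat_lit 1545508)]⟩, (nat_lit 5101719), (nat_lit 39441383), (nat_lit 17522545), (nat_lit 10036072), (nat_lit 4), (nat_lit 0), [⟨(nat_lit 1), (nat_lit 74), (nat_lit 54), (nat_lit 100), (nat_lit 297656528)⟩], [], [], [],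
 ⟨⟨[(nat_lit 40), (nat_lit 60)], [(nat_lit 0), (nat_lit 1134)], [((nat_lit 0), (nat_lit 0), (nat_lit 0)), ((nat_lit 1000), (nat_lit 575), (nat_lit 619))], ((nat_lit 59), (nat_lit 100), (nat_lit 58))⟩, (nat_lit 0), (nat_lit 75), (nat_lit 75), (nat_lit 0), (nat_lit 0), [(nat_lit 1486529602), (nat_lit 1328052000)], [(nat_lit 0), (nat_lit 0)], [(nat_lit 22722106124), (nat_lit 23336938490), (nat_lit 26859223927), (nat_lit 27432220825), (nat_lit 24045633500), (nat_lit 24597171364), (nat_lit 27801915859), (nat_lit 28269669024)], (nat_lit 0), (nat_lit 0), (nat_lit 0), (nat_lit 0), (nat_lit 0), (nat_lit 0), [], [(nat_lit 1), (nat_lit 38), (nat_lit 203), (nat_lit 0), (nat_lit 9)]⟩,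
 ⟨⟨[(nat_lit 120), (nat_lit 140), (nat_lit 160)], [(nat_lit 0), (nat_lit 266), (nat_lit 862)], [((nat_lit 0), (nat_lit 0), (nat_lit 0)), ((nat_lit 960), (nat_lit 1000), (nat_lit 200)), ((nat_lit 874), (nat_lit 1000), (nat_lit 406))], ((nat_lit 100), (nat_lit 81), (nat_lit 51))⟩, (nat_lit 406635), (nat_lit 1333), (nat_lit 1333), (nat_lit 0), (nat_lit 2452287), [(nat_lit 414336000), (nat_lit 511784000), (nat_lit 617344000)], [], [(nat_lit 1487316072), (nat_lit 1425709192), (nat_lit 1509852215), (nat_lit 1497432556), (nat_lit 2018020768), (nat_lit 1736004784), (nat_lit 2017525778), (nat_lit 2017465352)], (nat_lit 1271251), (nat_lit 1271251), (nat_lit 1271251), (nat_lit 1271251), (nat_lit 780000), (nat_lit 3072501), [(nat_lit 1695001), (nat_lit 1271251), (nat_lit 1271251)], [(nat_lit 27), (nat_lit 62), (nat_lit 483), (nat_lit 250), (nat_lit 12)]⟩,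
 ⟨⟨[(nat_lit 120), (nat_lit 140), (nat_lit 160)], [(nat_lit 0), (nat_lit 266), (nat_lit 862)], [((nat_lit 0), (nat_lit 0), (nat_lit 0)), ((nat_lit 960), (nat_lit 1000), (nat_lit 200)), ((nat_lit 874), (nat_lit 1000), (nat_lit 406))], ((nat_lit 100), (nat_lit 81), (nat_lit 51))⟩, (nat_lit 84158), (nat_lit 300), (nat_lit 1387), (nat_lit 2722400), (nat_lit 2452287), [(nat_lit 326688000), (nat_lit 403522000), (nat_lit 486752000)], [], [(nat_lit 2516945744), (nat_lit 1813640839), (nat_lit 1738752237), (nat_lit 1678896787), (nat_lit 1914092104), (nat_lit 1672281516), (nat_lit 2342458852), (nat_lit 1779695680)], (nat_lit 1271251), (nat_lit 1271251), (nat_lit 780000), (nat_lit 1435001), (nat_lit 780000), (nat_lit 3072501), [(nat_lit 1695001), (nat_lit 1271251), (nat_lit 1271251)], [(nat_lit 27), (nat_lit 62), (nat_lit 456), (nat_lit 225), (nat_lit 12)]⟩⟩)))) (.spl (nat_lit 1) (nat_lit 220) (.ord (.trX (nat_lit 3) (nat_lit 0) (nat_lit 1) (nat_lit 60) (nat_lit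 74) (nat_lit 100) (nat_lit 340) (.leaf ⟨(nat_lit 854), (nat_lit 24), (nat_lit 0), (nat_lit 122), (nat_lit 0), (nat_lit 3288), (nat_lit 1513), (nat_lit 1509), (nat_lit 0), (nat_lit 328496), (nat_lit 481950), [((nat_lit 380), [((nat_lit 24), (nat_lit 0), (nat_lit 79)), ((nat_lit 24), (nat_lit 1), (nat_lit 14)), ((nat_lit 41), (nat_lit 2), (nat_lit 761))])], ⟨(nat_lit 6), false, true, true, (nat_lit 253), (nat_lit 2236), (nat_lit 3163), [(nat_lit 1538797), (nat_lit 1534240), (nat_lit 1583107), (nat_lit 1579788), (nat_lit 1691180), (nat_lit 1676779), (nat_lit 1735490), (nat_lit 1722327)]⟩, ⟨(nat_lit 4), false, false, false, (nat_lit 176), (nat_lit 2236), (nat_lit 3163), [(nat_lit 1355794), (nat_lit 1363050), (nat_lit 1399976), (nat_lit 1408471), (nat_lit 1477844), (nat_lit 1477224), (nat_lit 1522091), (nat_lit 1522710)]⟩, (nat_lit 5045826), (nat_lit 40011182), (nat_lit 17284859), (nat_lit 9703959), (nat_lit 4), (nat_lit 0), [⟨(nat_lit 1), (nat_lit 85),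 (nat_lit 53), (nat_lit 100), (nat_lit 161642758)⟩], [], [], [],
 ⟨⟨[(nat_lit 40), (nat_lit 60), (nat_lit 80)], [(nat_lit 0), (nat_lit 832), (nat_lit 1534)], [((nat_lit 0), (nat_lit 0), (nat_lit 0)), ((nat_lit 1000), (nat_lit 659), (nat_lit 528)), ((nat_lit 1000), (nat_lit 650), (nat_lit 549))], ((nat_lit 65), (nat_lit 100), (nat_lit 55))⟩, (nat_lit 332), (nat_lit 222), (nat_lit 222), (nat_lit 0), (nat_lit 489017), [(nat_lit 1387396006), (nat_lit 1042682478), (nat_lit 792371200)], [(nat_lit 0), (nat_lit 0), (nat_lit 0)], [(nat_lit 23344623048), (nat_lit 24350254308), (nat_lit 26922142876), (nat_lit 27829969540), (nat_lit 24539298912), (nat_lit 25443200690), (nat_lit 27861426874), (nat_lit 28679992024)], (nat_lit 1271251), (nat_lit 1271251), (nat_lit 1271251), (nat_lit 1271251), (nat_lit 780000), (nat_lit 1435001), [(nat_lit 490000), (nat_lit 780000), (nat_lit 1100000)], [(nat_lit 2), (nat_lit 44), (nat_lit 260), (nat_lit 50), (nat_lit 10)]⟩,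
 ⟨⟨[(nat_lit 120), (nat_lit 140), (nat_lit 160)], [(nat_lit 0), (nat_lit 266), (nat_lit 862)], [((nat_lit 0), (nat_lit 0), (nat_lit 0)), ((nat_lit 960), (nat_lit 1000), (nat_lit 200)), ((nat_lit 874), (nat_lit 1000), (nat_lit 406))], ((nat_lit 100), (nat_lit 81), (nat_lit 51))⟩, (nat_lit 1638920), (nat_lit 813), (nat_lit 813), (nat_lit 0), (nat_lit 1145200), [(nat_lit 1163328000), (nat_lit 1436932000), (nat_lit 1733312000)], [], [(nat_lit 4901335557), (nat_lit 4858101055), (nat_lit 5075951641), (nat_lit 5065534975), (nat_lit 8203643225), (nat_lit 6892904091), (nat_lit 5645515001), (nat_lit 5646636117)], (nat_lit 1271251), (nat_lit 1271251), (nat_lit 1271251), (nat_lit 1271251), (nat_lit 0), (nat_lit 2825001), [(nat_lit 1695001), (nat_lit 1271251), (nat_lit 1271251)], [(nat_lit 27), (nat_lit 62), (nat_lit 483), (nat_lit 250), (nat_lit 12)]⟩,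
 ⟨⟨[(nat_lit 120), (nat_lit 140), (nat_lit 160)], [(nat_lit 0), (nat_lit 266), (nat_lit 862)], [((nat_lit 0), (nat_lit 0), (nat_lit 0)), ((nat_lit 960), (nat_lit 1000), (nat_lit 200)), ((nat_lit 874), (nat_lit 1000), (nat_lit 406))], ((nat_lit 100), (nat_lit 81), (nat_lit 51))⟩, (nat_lit 250421), (nat_lit 300), (nat_lit 862), (nat_lit 8100801), (nat_lit 1145200), [(nat_lit 972096000), (nat_lit 1200724000), (nat_lit 1448384000)], [], [(nat_lit 5513600207), (nat_lit 5431737344), (nat_lit 5242090112), (nat_lit 5152121856), (nat_lit 7850076337), (nat_lit 6492032170), (nat_lit 9424289616), (nat_lit 8100395628)], (nat_lit 1271251), (nat_lit 1271251), (nat_lit 780000), (nat_lit 1435001), (nat_lit 0), (nat_lit 2825001), [(nat_lit 1695001), (nat_lit 1271251), (nat_lit 1271251)], [(nat_lit 27), (nat_lit 62), (nat_lit 456), (nat_lit 225), (nat_lit 12)]⟩⟩))) (.leaf ⟨(nat_lit 384), (nat_lit 287), (nat_lit 0), (nat_lit 329), (nat_lit 0), (nat_lit 3900), (nat_lit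 5271), (nat_lit 3662), (nat_lit 0), (nat_lit 107951), (nat_lit 159700), [((nat_lit 380), [((nat_lit 24), (nat_lit 0), (nat_lit 202)), ((nat_lit 41), (nat_lit 2), (nat_lit 182))])], ⟨(nat_lit 6), false, true, true, (nat_lit 270), (nat_lit 2236), (nat_lit 3163), [(nat_lit 1583107), (nat_lit 1579788), (nat_lit 1605240), (nat_lit 1602541), (nat_lit 1750729), (nat_lit 1736581), (nat_lit 1772883), (nat_lit 1759355)]⟩, ⟨(nat_lit 4), false, false, false, (nat_lit 181), (nat_lit 2236), (nat_lit 3163), [(nat_lit 1355794), (nat_lit 1363050), (nat_lit 1422068), (nat_lit 1431182), (nat_lit 1477844), (nat_lit 1477224), (nat_lit 1544182), (nat_lit 1545421)]⟩, (nat_lit 5149041), (nat_lit 38505151), (nat_lit 18659874), (nat_lit 9834975), (nat_lit 4), (nat_lit 0), [], [], [], [],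
 ⟨⟨[(nat_lit 40), (nat_lit 60), (nat_lit 80)], [(nat_lit 0), (nat_lit 832), (nat_lit 1534)], [((nat_lit 0), (nat_lit 0), (nat_lit 0)), ((nat_lit 1000), (nat_lit 659), (nat_lit 528)), ((nat_lit 1000), (nat_lit 650), (nat_lit 549))], ((nat_lit 65), (nat_lit 100), (nat_lit 55))⟩, (nat_lit 1635075), (nat_lit 249), (nat_lit 249), (nat_lit 0), (nat_lit 544032), [(nat_lit 1651481602), (nat_lit 2438977704), (nat_lit 3222729600)], [(nat_lit 0), (nat_lit 0), (nat_lit 0)], [(nat_lit 22704226410), (nat_lit 23904735350), (nat_lit 28043410275), (nat_lit 29293381325), (nat_lit 23960363510), (nat_lit 25030525760), (nat_lit 28625056650), (nat_lit 29742712538)], (nat_lit 1271251), (nat_lit 1271251), (nat_lit 1271251), (nat_lit 1271251), (nat_lit 780000), (nat_lit 1435001), [(nat_lit 490000), (nat_lit 780000), (nat_lit 1100000)], [(nat_lit 2), (nat_lit 44), (nat_lit 260), (nat_lit 50), (nat_lit 10)]⟩,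
 ⟨⟨[(nat_lit 100), (nat_lit 140), (nat_lit 160)], [(nat_lit 0), (nat_lit 508), (nat_lit 1689)], [((nat_lit 0), (nat_lit 0), (nat_lit 0)), ((nat_lit 1000), (nat_lit 1000), (nat_lit 198)), ((nat_lit 811), (nat_lit 1000), (nat_lit 671))], ((nat_lit 100), (nat_lit 91), (nat_lit 51))⟩, (nat_lit 6440212), (nat_lit 675), (nat_lit 675), (nat_lit 0), (nat_lit 883125), [(nat_lit 3850000000), (nat_lit 6062672000), (nat_lit 7313152000)], [], [(nat_lit 17879612121), (nat_lit 18055588404), (nat_lit 20231877987), (nat_lit 20293304119), (nat_lit 23048920587), (nat_lit 20707684704), (nat_lit 22863703875), (nat_lit 22896558192)], (nat_lit 1271251), (nat_lit 1271251), (nat_lit 1271251), (nat_lit 1271251), (nat_lit 0), (nat_lit 2825001), [(nat_lit 1412501), (nat_lit 1271251), (nat_lit 1271251)], [(nat_lit 23), (nat_lit 62), (nat_lit 483), (nat_lit 250), (nat_lit 12)]⟩,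
 ⟨⟨[(nat_lit 120), (nat_lit 140), (nat_lit 160)], [(nat_lit 0), (nat_lit 266), (nat_lit 862)], [((nat_lit 0), (nat_lit 0), (nat_lit 0)), ((nat_lit 960), (nat_lit 1000), (nat_lit 200)), ((nat_lit 874), (nat_lit 1000), (nat_lit 406))], ((nat_lit 100), (nat_lit 81), (nat_lit 51))⟩, (nat_lit 698960), (nat_lit 300), (nat_lit 911), (nat_lit 21845600), (nat_lit 1260801), [(nat_lit 2621472000), (nat_lit 3238018000), (nat_lit 3905888000)], [], [(nat_lit 16098637656), (nat_lit 15688446136), (nat_lit 15273473143), (nat_lit 14938931706), (nat_lit 20600905755), (nat_lit 15657408996), (nat_lit 24507450068), (nat_lit 19688265392)], (nat_lit 1271251), (nat_lit 1271251), (nat_lit 780000), (nat_lit 1435001), (nat_lit 0), (nat_lit 2825001), [(nat_lit 1695001), (nat_lit 1271251), (nat_lit 1271251)], [(nat_lit 27), (nat_lit 62), (nat_lit 456), (nat_lit 225), (nat_lit 12)]⟩⟩)))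
noncomputable def c16_16 : Tr Lf :=
 (.spl (nat_lit 4) (nat_lit 120) (.spl (nat_lit 1) (nat_lit 180) (.leaf ⟨(nat_lit 1000), (nat_lit 0), (nat_lit 0), (nat_lit 0), (nat_lit 1203), (nat_lit 3282), (nat_lit 0), (nat_lit 0), (nat_lit 0), (nat_lit 38691), (nat_lit 547800), [((nat_lit 380), [((nat_lit 25), (nat_lit 1), (nat_lit 261)), ((nat_lit 41), (nat_lit 2), (nat_lit 739))])], ⟨(nat_lit 3), false, false, true, (nat_lit 166), (nat_lit 2236), (nat_lit 3163), [(nat_lit 1289472), (nat_lit 1294870), (nat_lit 1355794), (nat_lit 1363050), (nat_lit 1472332), (nat_lit 1465917), (nat_lit 1538797), (nat_lit 1534240)]⟩, ⟨(nat_lit 3), false, false, false, (nat_lit 101), (nat_lit 2236), (nat_lit 3163), [(nat_lit 1136876), (nat_lit 1152119), (nat_lit 1203150), (nat_lit 1220251), (nat_lit 1289472), (nat_lit 1294870), (nat_lit 1355794), (nat_lit 1363050)]⟩, (nat_lit 3501225), (nat_lit 52451056), (nat_lit 9939505), (nat_lit 4609439), (nat_lit 0), (nat_lit 0), [], [⟨(nat_lit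 0), (nat_lit 100), (nat_lit 54), (nat_lit 71), (nat_lit 149629831)⟩], [], [],
 ⟨⟨[(nat_lit 40), (nat_lit 80), (nat_lit 100)], [(nat_lit 0), (nat_lit 1598), (nat_lit 2533)], [((nat_lit 0), (nat_lit 0), (nat_lit 0)), ((nat_lit 1000), (nat_lit 625), (nat_lit 623)), ((nat_lit 1000), (nat_lit 604), (nat_lit 730))], ((nat_lit 61), (nat_lit 100), (nat_lit 68))⟩, (nat_lit 0), (nat_lit 236), (nat_lit 236), (nat_lit 0), (nat_lit 243875), [(nat_lit 1317368002), (nat_lit 322412761), (nat_lit 0)], [(nat_lit 0), (nat_lit 0), (nat_lit 289074400)], [(nat_lit 20322496348), (nat_lit 22327672725), (nat_lit 23161759281), (nat_lit 24799873320), (nat_lit 19767622864), (nat_lit 20973381063), (nat_lit 22168767698), (nat_lit 23348798313)], (nat_lit 1271251), (nat_lit 1271251), (nat_lit 780000), (nat_lit 1762501), (nat_lit 111251), (nat_lit 780000), [(nat_lit 490000), (nat_lit 1100000), (nat_lit 1442501)], [(nat_lit 3), (nat_lit 50), (nat_lit 317), (nat_lit 100), (nat_lit 12)]⟩,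
 Rw.none,
 Rw.none⟩) (.leaf ⟨(nat_lit 1000), (nat_lit 0), (nat_lit 0), (nat_lit 0), (nat_lit 0), (nat_lit 3265), (nat_lit 0), (nat_lit 0), (nat_lit 0), (nat_lit 0), (nat_lit 519400), [((nat_lit 380), [((nat_lit 25), (nat_lit 1), (nat_lit 403)), ((nat_lit 41), (nat_lit 2), (nat_lit 597))])], ⟨(nat_lit 4), false, false, false, (nat_lit 193), (nat_lit 2236), (nat_lit 3163), [(nat_lit 1355794), (nat_lit 1363050), (nat_lit 1422068), (nat_lit 1431182), (nat_lit 1538797), (nat_lit 1534240), (nat_lit 1605240), (nat_lit 1602541)]⟩, ⟨(nat_lit 3), false, false, false, (nat_lit 101), (nat_lit 2236), (nat_lit 3163), [(nat_lit 1136876), (nat_lit 1152119), (nat_lit 1203150), (nat_lit 1220251), (nat_lit 1289472), (nat_lit 1294870), (nat_lit 1355794), (nat_lit 1363050)]⟩, (nat_lit 3797598), (nat_lit 49948750), (nat_lit 12484841), (nat_lit 4566409), (nat_lit 0), (nat_lit 0), [], [⟨(nat_lit 0), (nat_lit 100), (nat_lit 54), (nat_lit 71), (nat_lit 117749285)⟩], [], [],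
 ⟨⟨[(nat_lit 40), (nat_lit 80), (nat_lit 100)], [(nat_lit 0), (nat_lit 1598), (nat_lit 2533)], [((nat_lit 0), (nat_lit 0), (nat_lit 0)), ((nat_lit 1000), (nat_lit 625), (nat_lit 623)), ((nat_lit 1000), (nat_lit 604), (nat_lit 730))], ((nat_lit 61), (nat_lit 100), (nat_lit 68))⟩, (nat_lit 0), (nat_lit 245), (nat_lit 245), (nat_lit 0), (nat_lit 271514), [(nat_lit 1329864234), (nat_lit 446127512), (nat_lit 0)], [(nat_lit 0), (nat_lit 0), (nat_lit 57671200)], [(nat_lit 20290751585), (nat_lit 22290278250), (nat_lit 23132310683), (nat_lit 24766121609), (nat_lit 20079946020), (nat_lit 21280625580), (nat_lit 22480487592), (nat_lit 23488057167)], (nat_lit 1271251), (nat_lit 1271251), (nat_lit 780000), (nat_lit 1762501), (nat_lit 111251), (nat_lit 780000), [(nat_lit 490000), (nat_lit 1100000), (nat_lit 1442501)], [(nat_lit 3), (nat_lit 50), (nat_lit 317), (nat_lit 100), (nat_lit 12)]⟩,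
 Rw.none,
 Rw.none⟩)) (.spl (nat_lit 3) (nat_lit 200) (.spl (nat_lit 0) (nat_lit 370) (.leaf ⟨(nat_lit 1000), (nat_lit 0), (nat_lit 0), (nat_lit 0), (nat_lit 0), (nat_lit 3269), (nat_lit 0), (nat_lit 0), (nat_lit 0), (nat_lit 50440), (nat_lit 529200), [((nat_lit 370), [((nat_lit 25), (nat_lit 1), (nat_lit 354)), ((nat_lit 41), (nat_lit 2), (nat_lit 646))])], ⟨(nat_lit 3), false, false, false, (nat_lit 167), (nat_lit 2738), (nat_lit 3163), [(nat_lit 1289472), (nat_lit 1292206), (nat_lit 1422342), (nat_lit 1426651), (nat_lit 1411379), (nat_lit 1410329), (nat_lit 1544285), (nat_lit 1544810)]⟩, ⟨(nat_lit 3), false, false, true, (nat_lit 154), (nat_lit 2738), (nat_lit 3163), [(nat_lit 1289472), (nat_lit 1292206), (nat_lit 1355914), (nat_lit 1359435), (nat_lit 1411379), (nat_lit 1410329), (nat_lit 1477844), (nat_lit 1477581)]⟩, (nat_lit 4186999), (nat_lit 48459178), (nat_lit 9873498), (nat_lit 8667324), (nat_lit 0), (nat_lit 0), [], [], [], [],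
 ⟨⟨[(nat_lit 40), (nat_lit 80), (nat_lit 100)], [(nat_lit 0), (nat_lit 1598), (nat_lit 2533)], [((nat_lit 0), (nat_lit 0), (nat_lit 0)), ((nat_lit 1000), (nat_lit 625), (nat_lit 623)), ((nat_lit 1000), (nat_lit 604), (nat_lit 730))], ((nat_lit 61), (nat_lit 100), (nat_lit 68))⟩, (nat_lit 0), (nat_lit 165), (nat_lit 165), (nat_lit 0), (nat_lit 270484), [(nat_lit 1325552012), (nat_lit 400746894), (nat_lit 0)], [(nat_lit 0), (nat_lit 0), (nat_lit 137521600)], [(nat_lit 19427731264), (nat_lit 20069861276), (nat_lit 20895456899), (nat_lit 21468302617), (nat_lit 20895456899), (nat_lit 21468302617), (nat_lit 22177040096), (nat_lit 22689867126)], (nat_lit 1271251), (nat_lit 1271251), (nat_lit 780000), (nat_lit 1435001), (nat_lit 780000), (nat_lit 1435001), [(nat_lit 490000), (nat_lit 1100000), (nat_lit 1442501)], [(nat_lit 3), (nat_lit 50), (nat_lit 317), (nat_lit 100), (nat_lit 11)]⟩,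
 Rw.none,
 Rw.none⟩) (.leaf ⟨(nat_lit 1000), (nat_lit 0), (nat_lit 0), (nat_lit 0), (nat_lit 0), (nat_lit 3265), (nat_lit 0), (nat_lit 0), (nat_lit 0), (nat_lit 2527), (nat_lit 449600), [((nat_lit 380), [((nat_lit 25), (nat_lit 1), (nat_lit 752)), ((nat_lit 41), (nat_lit 2), (nat_lit 248))])], ⟨(nat_lit 3), false, false, false, (nat_lit 168), (nat_lit 2236), (nat_lit 2739), [(nat_lit 1292206), (nat_lit 1294870), (nat_lit 1426601), (nat_lit 1431406), (nat_lit 1410329), (nat_lit 1408901), (nat_lit 1544794), (nat_lit 1545508)]⟩, ⟨(nat_lit 3), false, false, true, (nat_lit 154), (nat_lit 2236), (nat_lit 2739), [(nat_lit 1292206), (nat_lit 1294870), (nat_lit 1359410), (nat_lit 1363145), (nat_lit 1410329), (nat_lit 1408901), (nat_lit 1477581), (nat_lit 1477224)]⟩, (nat_lit 4199166), (nat_lit 48369047), (nat_lit 9927708), (nat_lit 8703245), (nat_lit 0), (nat_lit 0), [], [], [], [],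
 ⟨⟨[(nat_lit 40), (nat_lit 60), (nat_lit 80)], [(nat_lit 0), (nat_lit 1134), (nat_lit 1930)], [((nat_lit 0), (nat_lit 0), (nat_lit 0)), ((nat_lit 1000), (nat_lit 575), (nat_lit 619)), ((nat_lit 1000), (nat_lit 574), (nat_lit 622))], ((nat_lit 55), (nat_lit 100), (nat_lit 70))⟩, (nat_lit 0), (nat_lit 172), (nat_lit 172), (nat_lit 0), (nat_lit 332123), [(nat_lit 1360576001), (nat_lit 942921462), (nat_lit 704012800)], [(nat_lit 0), (nat_lit 0), (nat_lit 0)], [(nat_lit 20022735248), (nat_lit 20706363461), (nat_lit 21533998628), (nat_lit 22142590111), (nat_lit 21533998628), (nat_lit 22142590111), (nat_lit 22856796289), (nat_lit 23401628625)], (nat_lit 1271251), (nat_lit 1271251), (nat_lit 780000), (nat_lit 1435001), (nat_lit 780000), (nat_lit 1435001), [(nat_lit 490000), (nat_lit 780000), (nat_lit 1100000)], [(nat_lit 2), (nat_lit 44), (nat_lit 317), (nat_lit 100), (nat_lit 14)]⟩,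
 Rw.none,
 Rw.none⟩)) (.spl (nat_lit 0) (nat_lit 370) (.leaf ⟨(nat_lit 1000), (nat_lit 0), (nat_lit 0), (nat_lit 0), (nat_lit 0), (nat_lit 3273), (nat_lit 0), (nat_lit 0), (nat_lit 0), (nat_lit 4053), (nat_lit 472600), [((nat_lit 370), [((nat_lit 25), (nat_lit 1), (nat_lit 637)), ((nat_lit 41), (nat_lit 2), (nat_lit 363))])], ⟨(nat_lit 5), false, false, true, (nat_lit 203), (nat_lit 2738), (nat_lit 3163), [(nat_lit 1411379), (nat_lit 1410329), (nat_lit 1544285), (nat_lit 1544810), (nat_lit 1472332), (nat_lit 1469390), (nat_lit 1605257), (nat_lit 1603890)]⟩, ⟨(nat_lit 3), false, false, true, (nat_lit 154), (nat_lit 2738), (nat_lit 3163), [(nat_lit 1289472), (nat_lit 1292206), (nat_lit 1355914), (nat_lit 1359435), (nat_lit 1411379), (nat_lit 1410329), (nat_lit 1477844), (nat_lit 1477581)]⟩, (nat_lit 4522892), (nat_lit 45486579), (nat_lit 13078003), (nat_lit 8435418), (nat_lit 0), (nat_lit 0), [], [], [], [],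
 ⟨⟨[(nat_lit 40), (nat_lit 80), (nat_lit 100)], [(nat_lit 0), (nat_lit 1598), (nat_lit 2533)], [((nat_lit 0), (nat_lit 0), (nat_lit 0)), ((nat_lit 1000), (nat_lit 625), (nat_lit 623)), ((nat_lit 1000), (nat_lit 604), (nat_lit 730))], ((nat_lit 61), (nat_lit 100), (nat_lit 68))⟩, (nat_lit 0), (nat_lit 154), (nat_lit 154), (nat_lit 0), (nat_lit 270484), [(nat_lit 1350456002), (nat_lit 639086140), (nat_lit 323655200)], [(nat_lit 0), (nat_lit 0), (nat_lit 0)], [(nat_lit 21038661180), (nat_lit 21648159054), (nat_lit 22082829987), (nat_lit 22652122878), (nat_lit 22335136413), (nat_lit 22879763027), (nat_lit 23260230961), (nat_lit 23770103815)], (nat_lit 1271251), (nat_lit 1271251), (nat_lit 1271251), (nat_lit 1271251), (nat_lit 780000), (nat_lit 1435001), [(nat_lit 490000), (nat_lit 1100000), (nat_lit 1442501)], [(nat_lit 3), (nat_lit 50), (nat_lit 260), (nat_lit 50), (nat_lit 8)]⟩,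
 Rw.none,
 Rw.none⟩) (.leaf ⟨(nat_lit 1000), (nat_lit 0), (nat_lit 0), (nat_lit 0), (nat_lit 0), (nat_lit 3251), (nat_lit 0), (nat_lit 0), (nat_lit 0), (nat_lit 1398), (nat_lit 431800), [((nat_lit 380), [((nat_lit 25), (nat_lit 1), (nat_lit 841)), ((nat_lit 41), (nat_lit 2), (nat_lit 159))])], ⟨(nat_lit 5), false, false, true, (nat_lit 203), (nat_lit 2236), (nat_lit 2739), [(nat_lit 1410329), (nat_lit 1408901), (nat_lit 1544794), (nat_lit 1545508), (nat_lit 1469390), (nat_lit 1465917), (nat_lit 1603890), (nat_lit 1602558)]⟩, ⟨(nat_lit 3), false, false, true, (nat_lit 154), (nat_lit 2236), (nat_lit 2739), [(nat_lit 1292206), (nat_lit 1294870), (nat_lit 1359410), (nat_lit 1363145), (nat_lit 1410329), (nat_lit 1408901), (nat_lit 1477581), (nat_lit 1477224)]⟩, (nat_lit 4523559), (nat_lit 45496880), (nat_lit 13026137), (nat_lit 8476983), (nat_lit 0), (nat_lit 0), [], [], [], [],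
 ⟨⟨[(nat_lit 40), (nat_lit 60), (nat_lit 80)], [(nat_lit 0), (nat_lit 1134), (nat_lit 1930)], [((nat_lit 0), (nat_lit 0), (nat_lit 0)), ((nat_lit 1000), (nat_lit 575), (nat_lit 619)), ((nat_lit 1000), (nat_lit 574), (nat_lit 622))], ((nat_lit 55), (nat_lit 100), (nat_lit 70))⟩, (nat_lit 0), (nat_lit 162), (nat_lit 162), (nat_lit 0), (nat_lit 332123), [(nat_lit 1368408001), (nat_lit 969101215), (nat_lit 793582400)], [(nat_lit 0), (nat_lit 0), (nat_lit 0)], [(nat_lit 21664415503), (nat_lit 22271799065), (nat_lit 22703416895), (nat_lit 23270967590), (nat_lit 22989082889), (nat_lit 23531864718), (nat_lit 23910513564), (nat_lit 24419044234)], (nat_lit 1271251), (nat_lit 1271251), (nat_lit 1271251), (nat_lit 1271251), (nat_lit 780000), (nat_lit 1435001), [(nat_lit 490000), (nat_lit 780000), (nat_lit 1100000)], [(nat_lit 2), (nat_lit 44), (nat_lit 260), (nat_lit 50), (nat_lit 10)]⟩,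
 Rw.none,
 Rw.none⟩))))
noncomputable def c16_17 : Tr Lf :=
 (.ord (.trZ (nat_lit 0) (nat_lit 2) (nat_lit 4) (nat_lit 100) (nat_lit 60) (nat_lit 74) (nat_lit 60) (.spl (nat_lit 4) (nat_lit 120) (.spl (nat_lit 0) (nat_lit 370) (.leaf ⟨(nat_lit 947), (nat_lit 14), (nat_lit 0), (nat_lit 39), (nat_lit 780), (nat_lit 3416), (nat_lit 691), (nat_lit 594), (nat_lit 0), (nat_lit 758353574491), (nat_lit 489400), [((nat_lit 370), [((nat_lit 25), (nat_lit 1), (nat_lit 394)), ((nat_lit 41), (nat_lit 2), (nat_lit 553))])], ⟨(nat_lit 4), false, false, false, (nat_lit 192), (nat_lit 2738), (nat_lit 3163), [(nat_lit 1355914), (nat_lit 1359435), (nat_lit 1422342), (nat_lit 1426651), (nat_lit 1538797), (nat_lit 1536642), (nat_lit 1605257), (nat_lit 1603890)]⟩, ⟨(nat_lit 4), false, false, false, (nat_lit 138), (nat_lit 2738), (nat_lit 3163), [(nat_lit 1264456), (nat_lit 1270816), (nat_lit 1330884), (nat_lit 1338031), (nat_lit 1355914), (nat_lit 1359435), (nat_lit 1422342),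 (nat_lit 1426651)]⟩, (nat_lit 4265156), (nat_lit 47451939), (nat_lit 12240218), (nat_lit 7307843), (nat_lit 4), (nat_lit 0), [], [⟨(nat_lit 0), (nat_lit 100), (nat_lit 57), (nat_lit 85), (nat_lit 227824158)⟩], [], [],
 ⟨⟨[(nat_lit 40), (nat_lit 80), (nat_lit 100)], [(nat_lit 0), (nat_lit 1598), (nat_lit 2533)], [((nat_lit 0), (nat_lit 0), (nat_lit 0)), ((nat_lit 1000), (nat_lit 625), (nat_lit 623)), ((nat_lit 1000), (nat_lit 604), (nat_lit 730))], ((nat_lit 61), (nat_lit 100), (nat_lit 68))⟩, (nat_lit 0), (nat_lit 154), (nat_lit 154), (nat_lit 0), (nat_lit 146335), [(nat_lit 1355762803), (nat_lit 772570968), (nat_lit 296775600)], [(nat_lit 0), (nat_lit 0), (nat_lit 0)], [(nat_lit 19416542884), (nat_lit 20296069604), (nat_lit 22216350072), (nat_lit 23031653656), (nat_lit 19376872083), (nat_lit 20102416311), (nat_lit 21889306123), (nat_lit 22653453766)], (nat_lit 1271251), (nat_lit 1271251), (nat_lit 780000), (nat_lit 1762501), (nat_lit 356250), (nat_lit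 780000), [(nat_lit 490000), (nat_lit 1100000), (nat_lit 1442501)], [(nat_lit 3), (nat_lit 50), (nat_lit 317), (nat_lit 100), (nat_lit 11)]⟩,
 ⟨⟨[(nat_lit 120), (nat_lit 160), (nat_lit 180)], [(nat_lit 0), (nat_lit 533), (nat_lit 2066)], [((nat_lit 0), (nat_lit 0), (nat_lit 0)), ((nat_lit 960), (nat_lit 1000), (nat_lit 200)), ((nat_lit 615), (nat_lit 1000), (nat_lit 729))], ((nat_lit 100), (nat_lit 67), (nat_lit 68))⟩, (nat_lit 180230), (nat_lit 796), (nat_lit 796), (nat_lit 0), (nat_lit 838954), [(nat_lit 422304000), (nat_lit 629216000), (nat_lit 745074000)], [], [(nat_lit 2212079218), (nat_lit 2196944152), (nat_lit 2566192430), (nat_lit 2051624586), (nat_lit 3459759564), (nat_lit 2526947914), (nat_lit 4537710935), (nat_lit 3639772328)], (nat_lit 1271251), (nat_lit 1271251), (nat_lit 780000), (nat_lit 1762501), (nat_lit 0), (nat_lit 2825001), [(nat_lit 1695001), (nat_lit 1271251), (nat_lit 1271251)], [(nat_lit 28), (nat_lit 65), (nat_lit 456), (nat_lit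 225), (nat_lit 11)]⟩,
 ⟨⟨[(nat_lit 120), (nat_lit 160), (nat_lit 180)], [(nat_lit 0), (nat_lit 533), (nat_lit 2066)], [((nat_lit 0), (nat_lit 0), (nat_lit 0)), ((nat_lit 960), (nat_lit 1000), (nat_lit 200)), ((nat_lit 615), (nat_lit 1000), (nat_lit 729))], ((nat_lit 100), (nat_lit 67), (nat_lit 68))⟩, (nat_lit 18671), (nat_lit 300), (nat_lit 654), (nat_lit 2831603), (nat_lit 451911), [(nat_lit 310752000), (nat_lit 463008000), (nat_lit 548262000)], [], [(nat_lit 2567255347), (nat_lit 2335285714), (nat_lit 2172052494), (nat_lit 2059690464), (nat_lit 2406533124), (nat_lit 1942463648), (nat_lit 2665236981), (nat_lit 1863369948)], (nat_lit 1271251), (nat_lit 1271251), (nat_lit 356250), (nat_lit 780000), (nat_lit 0), (nat_lit 2825001), [(nat_lit 1695001), (nat_lit 1271251), (nat_lit 1271251)], [(nat_lit 28), (nat_lit 65), (nat_lit 428), (nat_lit 200), (nat_lit 10)]⟩⟩) (.trZ (nat_lit 0) (nat_lit 2) (nat_lit 4) (nat_lit 100) (nat_lit 53) (nat_lit 80) (nat_lit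 70) (.leaf ⟨(nat_lit 955), (nat_lit 5), (nat_lit 0), (nat_lit 40), (nat_lit 0), (nat_lit 3472), (nat_lit 567), (nat_lit 575), (nat_lit 0), (nat_lit 4195555), (nat_lit 382000), [((nat_lit 380), [((nat_lit 25), (nat_lit 1), (nat_lit 955))])], ⟨(nat_lit 4), false, false, false, (nat_lit 193), (nat_lit 2236), (nat_lit 2739), [(nat_lit 1359410), (nat_lit 1363145), (nat_lit 1426601), (nat_lit 1431406), (nat_lit 1536642), (nat_lit 1534240), (nat_lit 1603890), (nat_lit 1602558)]⟩, ⟨(nat_lit 4), false, false, false, (nat_lit 144), (nat_lit 2236), (nat_lit 2739), [(nat_lit 1285540), (nat_lit 1291832), (nat_lit 1352731), (nat_lit 1360094), (nat_lit 1359410), (nat_lit 1363145), (nat_lit 1426601), (nat_lit 1431406)]⟩, (nat_lit 4326846), (nat_lit 47055150), (nat_lit 12241723), (nat_lit 7703127), (nat_lit 4), (nat_lit 0), [], [⟨(nat_lit 0), (nat_lit 100), (nat_lit 48), (nat_lit 90), (nat_lit 377825922)⟩], [], [],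
 ⟨⟨[(nat_lit 40), (nat_lit 60), (nat_lit 80)], [(nat_lit 0), (nat_lit 1134), (nat_lit 1930)], [((nat_lit 0), (nat_lit 0), (nat_lit 0)), ((nat_lit 1000), (nat_lit 575), (nat_lit 619)), ((nat_lit 1000), (nat_lit 574), (nat_lit 622))], ((nat_lit 55), (nat_lit 100), (nat_lit 70))⟩, (nat_lit 0), (nat_lit 135), (nat_lit 135), (nat_lit 0), (nat_lit 185559), [(nat_lit 1401102117), (nat_lit 1213499826), (nat_lit 1121648000)], [(nat_lit 0), (nat_lit 0), (nat_lit 0)], [(nat_lit 20045710608), (nat_lit 21046929263), (nat_lit 22799829097), (nat_lit 23616782707), (nat_lit 20236834604), (nat_lit 20941694550), (nat_lit 22703489180), (nat_lit 23475683968)], (nat_lit 1271251), (nat_lit 1271251), (nat_lit 780000), (nat_lit 1762501), (nat_lit 422188), (nat_lit 780000), [(nat_lit 490000), (nat_lit 780000), (nat_lit 1100000)], [(nat_lit 2), (nat_lit 44), (nat_lit 317), (nat_lit 100), (nat_lit 14)]⟩,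
 ⟨⟨[(nat_lit 120), (nat_lit 160), (nat_lit 180)], [(nat_lit 0), (nat_lit 533), (nat_lit 2066)], [((nat_lit 0), (nat_lit 0), (nat_lit 0)), ((nat_lit 960), (nat_lit 1000), (nat_lit 200)), ((nat_lit 615), (nat_lit 1000), (nat_lit 729))], ((nat_lit 100), (nat_lit 67), (nat_lit 68))⟩, (nat_lit 198751), (nat_lit 956), (nat_lit 956), (nat_lit 0), (nat_lit 1186094), [(nat_lit 358560000), (nat_lit 534240000), (nat_lit 632610000)], [], [(nat_lit 1833100491), (nat_lit 1822497321), (nat_lit 2165686614), (nat_lit 1706695418), (nat_lit 2910038054), (nat_lit 2144619522), (nat_lit 3800488635), (nat_lit 3063685176)], (nat_lit 1271251), (nat_lit 1271251), (nat_lit 780000), (nat_lit 1762501), (nat_lit 0), (nat_lit 2825001), [(nat_lit 1695001), (nat_lit 1271251), (nat_lit 1271251)], [(nat_lit 28), (nat_lit 65), (nat_lit 456), (nat_lit 225), (nat_lit 11)]⟩,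
 ⟨⟨[(nat_lit 120), (nat_lit 160), (nat_lit 180)], [(nat_lit 0), (nat_lit 533), (nat_lit 2066)], [((nat_lit 0), (nat_lit 0), (nat_lit 0)), ((nat_lit 960), (nat_lit 1000), (nat_lit 200)), ((nat_lit 615), (nat_lit 1000), (nat_lit 729))], ((nat_lit 100), (nat_lit 67), (nat_lit 68))⟩, (nat_lit 93658), (nat_lit 300), (nat_lit 740), (nat_lit 2656002), (nat_lit 630501), [(nat_lit 318720000), (nat_lit 474880000), (nat_lit 562320000)], [], [(nat_lit 2427910374), (nat_lit 2207092587), (nat_lit 2130292321), (nat_lit 2024448610), (nat_lit 2460083920), (nat_lit 1779797615), (nat_lit 2685798778), (nat_lit 1909580690)], (nat_lit 1271251), (nat_lit 1271251), (nat_lit 422188), (nat_lit 780000), (nat_lit 0), (nat_lit 2825001), [(nat_lit 1695001), (nat_lit 1271251), (nat_lit 1271251)], [(nat_lit 28), (nat_lit 65), (nat_lit 428), (nat_lit 200), (nat_lit 10)]⟩⟩))) (.stt (nat_lit 2) (.leaf ⟨(nat_lit 841), (nat_lit 96), (nat_lit 0), (nat_lit 63), (nat_lit 0), (nat_lit 3379),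 (nat_lit 1713), (nat_lit 871), (nat_lit 0), (nat_lit 1858106), (nat_lit 504600), [((nat_lit 380), [((nat_lit 41), (nat_lit 2), (nat_lit 841))])], ⟨(nat_lit 4), true, false, false, (nat_lit 193), (nat_lit 2236), (nat_lit 3163), [(nat_lit 1355794), (nat_lit 1363050), (nat_lit 1422068), (nat_lit 1431182), (nat_lit 1538797), (nat_lit 1534240), (nat_lit 1605240), (nat_lit 1602541)]⟩, ⟨(nat_lit 4), false, false, false, (nat_lit 181), (nat_lit 2236), (nat_lit 3163), [(nat_lit 1355794), (nat_lit 1363050), (nat_lit 1422068), (nat_lit 1431182), (nat_lit 1477844), (nat_lit 1477224), (nat_lit 1544182), (nat_lit 1545421)]⟩, (nat_lit 4696591), (nat_lit 44384386), (nat_lit 11872405), (nat_lit 10743209), (nat_lit 4), (nat_lit 0), [⟨(nat_lit 0), (nat_lit 100), (nat_lit 44), (nat_lit 99), (nat_lit 37816084)⟩], [], [], [],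
 ⟨⟨[(nat_lit 40), (nat_lit 80), (nat_lit 100)], [(nat_lit 0), (nat_lit 1598), (nat_lit 2533)], [((nat_lit 0), (nat_lit 0), (nat_lit 0)), ((nat_lit 1000), (nat_lit 625), (nat_lit 623)), ((nat_lit 1000), (nat_lit 604), (nat_lit 730))], ((nat_lit 61), (nat_lit 100), (nat_lit 68))⟩, (nat_lit 113355), (nat_lit 172), (nat_lit 172), (nat_lit 0), (nat_lit 268327), [(nat_lit 1396966421), (nat_lit 728780140), (nat_lit 392939600)], [(nat_lit 0), (nat_lit 0), (nat_lit 0)], [(nat_lit 19616602072), (nat_lit 20921379763), (nat_lit 22082181483), (nat_lit 23382455514), (nat_lit 21072538952), (nat_lit 22235521728), (nat_lit 23230906457), (nat_lit 24519682186)], (nat_lit 1271251), (nat_lit 1271251), (nat_lit 780000), (nat_lit 1762501), (nat_lit 780000), (nat_lit 1435001), [(nat_lit 490000), (nat_lit 1100000), (nat_lit 1442501)], [(nat_lit 3), (nat_lit 50), (nat_lit 345), (nat_lit 125), (nat_lit 12)]⟩,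
 ⟨⟨[(nat_lit 120), (nat_lit 160), (nat_lit 180)], [(nat_lit 0), (nat_lit 533), (nat_lit 2066)], [((nat_lit 0), (nat_lit 0), (nat_lit 0)), ((nat_lit 960), (nat_lit 1000), (nat_lit 200)), ((nat_lit 615), (nat_lit 1000), (nat_lit 729))], ((nat_lit 100), (nat_lit 67), (nat_lit 68))⟩, (nat_lit 672793), (nat_lit 367), (nat_lit 367), (nat_lit 0), (nat_lit 0), [(nat_lit 1266912000), (nat_lit 1887648000), (nat_lit 2235222000)], [], [(nat_lit 4967516847), (nat_lit 5200562086), (nat_lit 5146998280), (nat_lit 5364084514), (nat_lit 5901854655), (nat_lit 5933059135), (nat_lit 5674547365), (nat_lit 5644675483)], (nat_lit 0), (nat_lit 0), (nat_lit 0), (nat_lit 0), (nat_lit 0), (nat_lit 0), [], [(nat_lit 28), (nat_lit 65), (nat_lit 456), (nat_lit 225), (nat_lit 11)]⟩,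
 ⟨⟨[(nat_lit 120), (nat_lit 160), (nat_lit 180)], [(nat_lit 0), (nat_lit 533), (nat_lit 2066)], [((nat_lit 0), (nat_lit 0), (nat_lit 0)), ((nat_lit 960), (nat_lit 1000), (nat_lit 200)), ((nat_lit 615), (nat_lit 1000), (nat_lit 729))], ((nat_lit 100), (nat_lit 67), (nat_lit 68))⟩, (nat_lit 126622), (nat_lit 300), (nat_lit 959), (nat_lit 4252791), (nat_lit 1192014), [(nat_lit 501984000), (nat_lit 747936000), (nat_lit 885654000)], [], [(nat_lit 3355642642), (nat_lit 3272590430), (nat_lit 3149075489), (nat_lit 3056847620), (nat_lit 4181805214), (nat_lit 3006003554), (nat_lit 5071009204), (nat_lit 3924774946)], (nat_lit 1271251), (nat_lit 1271251), (nat_lit 780000), (nat_lit 1435001), (nat_lit 0), (nat_lit 2825001), [(nat_lit 1695001), (nat_lit 1271251), (nat_lit 1271251)], [(nat_lit 28), (nat_lit 65), (nat_lit 456), (nat_lit 225), (nat_lit 11)]⟩⟩) (.spl (nat_lit 0) (nat_lit 370) (.leaf ⟨(nat_lit 945), (nat_lit 0), (nat_lit 0), (nat_lit 55), (nat_lit 0),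 (nat_lit 3415), (nat_lit 719), (nat_lit 838), (nat_lit 0), (nat_lit 1698317337419), (nat_lit 490400), [((nat_lit 370), [((nat_lit 25), (nat_lit 1), (nat_lit 383)), ((nat_lit 41), (nat_lit 2), (nat_lit 562))])], ⟨(nat_lit 4), false, false, false, (nat_lit 192), (nat_lit 2738), (nat_lit 3163), [(nat_lit 1355914), (nat_lit 1359435), (nat_lit 1422342), (nat_lit 1426651), (nat_lit 1538797), (nat_lit 1536642), (nat_lit 1605257), (nat_lit 1603890)]⟩, ⟨(nat_lit 4), false, false, false, (nat_lit 180), (nat_lit 2738), (nat_lit 3163), [(nat_lit 1355914), (nat_lit 1359435), (nat_lit 1422342), (nat_lit 1426651), (nat_lit 1477844), (nat_lit 1477581), (nat_lit 1544285), (nat_lit 1544810)]⟩, (nat_lit 4691456), (nat_lit 44428720), (nat_lit 11859312), (nat_lit 10711968), (nat_lit 0), (nat_lit 0), [], [], [], [],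
 ⟨⟨[(nat_lit 40), (nat_lit 80), (nat_lit 100)], [(nat_lit 0), (nat_lit 1598), (nat_lit 2533)], [((nat_lit 0), (nat_lit 0), (nat_lit 0)), ((nat_lit 1000), (nat_lit 625), (nat_lit 623)), ((nat_lit 1000), (nat_lit 604), (nat_lit 730))], ((nat_lit 61), (nat_lit 100), (nat_lit 68))⟩, (nat_lit 0), (nat_lit 128), (nat_lit 128), (nat_lit 0), (nat_lit 146335), [(nat_lit 1355802007), (nat_lit 835054217), (nat_lit 292778800)], [(nat_lit 0), (nat_lit 0), (nat_lit 0)], [(nat_lit 19374016445), (nat_lit 20098647078), (nat_lit 21886584945), (nat_lit 22652564447), (nat_lit 20840115997), (nat_lit 21470336340), (nat_lit 23187475190), (nat_lit 23867730900)], (nat_lit 1271251), (nat_lit 1271251), (nat_lit 780000), (nat_lit 1762501), (nat_lit 780000), (nat_lit 1435001), [(nat_lit 490000), (nat_lit 1100000), (nat_lit 1442501)], [(nat_lit 3), (nat_lit 50), (nat_lit 345), (nat_lit 125), (nat_lit 12)]⟩,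
 ⟨⟨[(nat_lit 120), (nat_lit 160), (nat_lit 180)], [(nat_lit 0), (nat_lit 533), (nat_lit 2066)], [((nat_lit 0), (nat_lit 0), (nat_lit 0)), ((nat_lit 960), (nat_lit 1000), (nat_lit 200)), ((nat_lit 615), (nat_lit 1000), (nat_lit 729))], ((nat_lit 100), (nat_lit 67), (nat_lit 68))⟩, (nat_lit 187220), (nat_lit 796), (nat_lit 796), (nat_lit 0), (nat_lit 838954), [(nat_lit 438240000), (nat_lit 652960000), (nat_lit 773190000)], [], [(nat_lit 2292512840), (nat_lit 2276587070), (nat_lit 2664315238), (nat_lit 2127179008), (nat_lit 3593002690), (nat_lit 2622392594), (nat_lit 4714053595), (nat_lit 3779729632)], (nat_lit 1271251), (nat_lit 1271251), (nat_lit 780000), (nat_lit 1762501), (nat_lit 0), (nat_lit 2825001), [(nat_lit 1695001), (nat_lit 1271251), (nat_lit 1271251)], [(nat_lit 28), (nat_lit 65), (nat_lit 456), (nat_lit 225), (nat_lit 11)]⟩,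
 ⟨⟨[(nat_lit 120), (nat_lit 160), (nat_lit 180)], [(nat_lit 0), (nat_lit 533), (nat_lit 2066)], [((nat_lit 0), (nat_lit 0), (nat_lit 0)), ((nat_lit 960), (nat_lit 1000), (nat_lit 200)), ((nat_lit 615), (nat_lit 1000), (nat_lit 729))], ((nat_lit 100), (nat_lit 67), (nat_lit 68))⟩, (nat_lit 26330), (nat_lit 300), (nat_lit 671), (nat_lit 3993291), (nat_lit 587899), [(nat_lit 438240000), (nat_lit 652960000), (nat_lit 773190000)], [], [(nat_lit 3063359037), (nat_lit 2904280952), (nat_lit 2784027111), (nat_lit 2743080776), (nat_lit 3759096999), (nat_lit 2627843508), (nat_lit 4599904972), (nat_lit 3497098648)], (nat_lit 1271251), (nat_lit 1271251), (nat_lit 780000), (nat_lit 1435001), (nat_lit 0), (nat_lit 2825001), [(nat_lit 1695001), (nat_lit 1271251), (nat_lit 1271251)], [(nat_lit 28), (nat_lit 65), (nat_lit 456), (nat_lit 225), (nat_lit 11)]⟩⟩) (.leaf ⟨(nat_lit 949), (nat_lit 0), (nat_lit 0), (nat_lit 51), (nat_lit 0), (nat_lit 3296), (nat_lit 590), (nat_lit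 727), (nat_lit 0), (nat_lit 1744009061629), (nat_lit 379600), [((nat_lit 380), [((nat_lit 25), (nat_lit 1), (nat_lit 949))])], ⟨(nat_lit 4), false, false, false, (nat_lit 193), (nat_lit 2236), (nat_lit 2739), [(nat_lit 1359410), (nat_lit 1363145), (nat_lit 1426601), (nat_lit 1431406), (nat_lit 1536642), (nat_lit 1534240), (nat_lit 1603890), (nat_lit 1602558)]⟩, ⟨(nat_lit 4), false, false, false, (nat_lit 181), (nat_lit 2236), (nat_lit 2739), [(nat_lit 1359410), (nat_lit 1363145), (nat_lit 1426601), (nat_lit 1431406), (nat_lit 1477581), (nat_lit 1477224), (nat_lit 1544794), (nat_lit 1545508)]⟩, (nat_lit 4702562), (nat_lit 44332588), (nat_lit 11889254), (nat_lit 10778158), (nat_lit 0), (nat_lit 0), [], [⟨(nat_lit 0), (nat_lit 100), (nat_lit 44), (nat_lit 99), (nat_lit 3529112)⟩], [], [],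
 ⟨⟨[(nat_lit 40), (nat_lit 60), (nat_lit 80)], [(nat_lit 0), (nat_lit 1134), (nat_lit 1930)], [((nat_lit 0), (nat_lit 0), (nat_lit 0)), ((nat_lit 1000), (nat_lit 575), (nat_lit 619)), ((nat_lit 1000), (nat_lit 574), (nat_lit 622))], ((nat_lit 55), (nat_lit 100), (nat_lit 70))⟩, (nat_lit 2826), (nat_lit 120), (nat_lit 120), (nat_lit 0), (nat_lit 185559), [(nat_lit 1403595619), (nat_lit 1171048585), (nat_lit 1144054400)], [(nat_lit 0), (nat_lit 0), (nat_lit 0)], [(nat_lit 20098278108), (nat_lit 20831019429), (nat_lit 22691677663), (nat_lit 23299251624), (nat_lit 21616593151), (nat_lit 22267479615), (nat_lit 23900535511), (nat_lit 24454424764)], (nat_lit 1271251), (nat_lit 1271251), (nat_lit 780000), (nat_lit 1762501), (nat_lit 780000), (nat_lit 1435001), [(nat_lit 490000), (nat_lit 780000), (nat_lit 1100000)], [(nat_lit 2), (nat_lit 44), (nat_lit 345), (nat_lit 125), (nat_lit 15)]⟩,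
 ⟨⟨[(nat_lit 120), (nat_lit 160), (nat_lit 180)], [(nat_lit 0), (nat_lit 533), (nat_lit 2066)], [((nat_lit 0), (nat_lit 0), (nat_lit 0)), ((nat_lit 960), (nat_lit 1000), (nat_lit 200)), ((nat_lit 615), (nat_lit 1000), (nat_lit 729))], ((nat_lit 100), (nat_lit 67), (nat_lit 68))⟩, (nat_lit 277247), (nat_lit 956), (nat_lit 956), (nat_lit 0), (nat_lit 1186094), [(nat_lit 406368000), (nat_lit 605472000), (nat_lit 716958000)], [], [(nat_lit 2076952188), (nat_lit 2063219131), (nat_lit 2419314236), (nat_lit 1951665983), (nat_lit 3224626651), (nat_lit 2428159396), (nat_lit 4167604010), (nat_lit 3400912580)], (nat_lit 1271251), (nat_lit 1271251), (nat_lit 780000), (nat_lit 1762501), (nat_lit 0), (nat_lit 2825001), [(nat_lit 1695001), (nat_lit 1271251), (nat_lit 1271251)], [(nat_lit 28), (nat_lit 65), (nat_lit 456), (nat_lit 225), (nat_lit 11)]⟩,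
 ⟨⟨[(nat_lit 120), (nat_lit 160), (nat_lit 180)], [(nat_lit 0), (nat_lit 533), (nat_lit 2066)], [((nat_lit 0), (nat_lit 0), (nat_lit 0)), ((nat_lit 960), (nat_lit 1000), (nat_lit 200)), ((nat_lit 615), (nat_lit 1000), (nat_lit 729))], ((nat_lit 100), (nat_lit 67), (nat_lit 68))⟩, (nat_lit 119415), (nat_lit 300), (nat_lit 795), (nat_lit 3386400), (nat_lit 835193), [(nat_lit 406368000), (nat_lit 605472000), (nat_lit 716958000)], [], [(nat_lit 2712007933), (nat_lit 2589397370), (nat_lit 2485902395), (nat_lit 2446804940), (nat_lit 3415844470), (nat_lit 2434434818), (nat_lit 4153887748), (nat_lit 3197157202)], (nat_lit 1271251), (nat_lit 1271251), (nat_lit 780000), (nat_lit 1435001), (nat_lit 0), (nat_lit 2825001), [(nat_lit 1695001), (nat_lit 1271251), (nat_lit 1271251)], [(nat_lit 28), (nat_lit 65), (nat_lit 456), (nat_lit 225), (nat_lit 11)]⟩⟩))))))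
noncomputable def c16_18 : Tr Lf :=
 (.trX (nat_lit 3) (nat_lit 0) (nat_lit 1) (nat_lit 60) (nat_lit 86) (nat_lit 100) (nat_lit 310) (.spl (nat_lit 4) (nat_lit 120) (.trX (nat_lit 5) (nat_lit 3) (nat_lit 4) (nat_lit 100) (nat_lit 59) (nat_lit 94) (nat_lit 370) (.leaf ⟨(nat_lit 1000), (nat_lit 0), (nat_lit 0), (nat_lit 0), (nat_lit 2960), (nat_lit 2935), (nat_lit 0), (nat_lit 0), (nat_lit 0), (nat_lit 36493133484), (nat_lit 513800), [((nat_lit 380), [((nat_lit 25), (nat_lit 1), (nat_lit 431)), ((nat_lit 41), (nat_lit 2), (nat_lit 569))])], ⟨(nat_lit 6), false, false, true, (nat_lit 222), (nat_lit 2236), (nat_lit 3163), [(nat_lit 1472332), (nat_lit 1465917), (nat_lit 1538797), (nat_lit 1534240), (nat_lit 1579000), (nat_lit 1565693), (nat_lit 1645465), (nat_lit 1634017)]⟩, ⟨(nat_lit 3), false, false, false, (nat_lit 101), (nat_lit 2236), (nat_lit 3163), [(nat_lit 1136876), (nat_lit 1152119), (nat_lit 1203150), (nat_lit 1220251), (nat_lit 1289472), (nat_lit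 1294870), (nat_lit 1355794), (nat_lit 1363050)]⟩, (nat_lit 4058863), (nat_lit 47192430), (nat_lit 15330058), (nat_lit 4477512), (nat_lit 0), (nat_lit 0), [⟨(nat_lit 1), (nat_lit 86), (nat_lit 60), (nat_lit 100), (nat_lit 256122183)⟩], [⟨(nat_lit 0), (nat_lit 100), (nat_lit 54), (nat_lit 71), (nat_lit 79928926)⟩], [], [],
 ⟨⟨[(nat_lit 40), (nat_lit 80), (nat_lit 100)], [(nat_lit 0), (nat_lit 1598), (nat_lit 2533)], [((nat_lit 0), (nat_lit 0), (nat_lit 0)), ((nat_lit 1000), (nat_lit 625), (nat_lit 623)), ((nat_lit 1000), (nat_lit 604), (nat_lit 730))], ((nat_lit 61), (nat_lit 100), (nat_lit 68))⟩, (nat_lit 0), (nat_lit 230), (nat_lit 230), (nat_lit 0), (nat_lit 243875), [(nat_lit 1332328001), (nat_lit 436140935), (nat_lit 0)], [(nat_lit 0), (nat_lit 0), (nat_lit 12042400)], [(nat_lit 23456528311), (nat_lit 24513206200), (nat_lit 25912624165), (nat_lit 27232334003), (nat_lit 23364874713), (nat_lit 24329757138), (nat_lit 25628547993), (nat_lit 26609820504)],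 (nat_lit 1271251), (nat_lit 1271251), (nat_lit 1271251), (nat_lit 1271251), (nat_lit 111251), (nat_lit 780000), [(nat_lit 490000), (nat_lit 1100000), (nat_lit 1442501)], [(nat_lit 3), (nat_lit 50), (nat_lit 238), (nat_lit 30), (nat_lit 8)]⟩,
 Rw.none,
 Rw.none⟩)) (.leaf ⟨(nat_lit 1000), (nat_lit 0), (nat_lit 0), (nat_lit 0), (nat_lit 64), (nat_lit 3302), (nat_lit 0), (nat_lit 0), (nat_lit 0), (nat_lit 391420110793), (nat_lit 443800), [((nat_lit 380), [((nat_lit 25), (nat_lit 1), (nat_lit 781)), ((nat_lit 41), (nat_lit 2), (nat_lit 219))])], ⟨(nat_lit 6), false, false, true, (nat_lit 222), (nat_lit 2236), (nat_lit 3163), [(nat_lit 1472332), (nat_lit 1465917), (nat_lit 1538797), (nat_lit 1534240), (nat_lit 1579000), (nat_lit 1565693), (nat_lit 1645465), (nat_lit 1634017)]⟩, ⟨(nat_lit 3), false, false, true, (nat_lit 154), (nat_lit 2236), (nat_lit 3163), [(nat_lit 1289472), (nat_lit 1294870), (nat_lit 1355794), (nat_lit 1363050), (nat_lit 1411379), (nat_lit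 1408901), (nat_lit 1477844), (nat_lit 1477224)]⟩, (nat_lit 4664952), (nat_lit 43915104), (nat_lit 14783128), (nat_lit 8301768), (nat_lit 0), (nat_lit 0), [⟨(nat_lit 1), (nat_lit 86), (nat_lit 60), (nat_lit 100), (nat_lit 270599260)⟩], [], [], [],
 ⟨⟨[(nat_lit 40), (nat_lit 80), (nat_lit 100)], [(nat_lit 0), (nat_lit 1598), (nat_lit 2533)], [((nat_lit 0), (nat_lit 0), (nat_lit 0)), ((nat_lit 1000), (nat_lit 625), (nat_lit 623)), ((nat_lit 1000), (nat_lit 604), (nat_lit 730))], ((nat_lit 61), (nat_lit 100), (nat_lit 68))⟩, (nat_lit 0), (nat_lit 185), (nat_lit 185), (nat_lit 0), (nat_lit 312435), [(nat_lit 1363128001), (nat_lit 751602045), (nat_lit 558317600)], [(nat_lit 0), (nat_lit 0), (nat_lit 0)], [(nat_lit 22634598890), (nat_lit 23688822864), (nat_lit 25064470839), (nat_lit 26349757726), (nat_lit 23773326342), (nat_lit 24738893500), (nat_lit 26099588742), (nat_lit 27190585788)], (nat_lit 1271251), (nat_lit 1271251), (nat_lit 1271251), (nat_lit 1271251),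 (nat_lit 780000), (nat_lit 1435001), [(nat_lit 490000), (nat_lit 1100000), (nat_lit 1442501)], [(nat_lit 3), (nat_lit 50), (nat_lit 260), (nat_lit 50), (nat_lit 8)]⟩,
 Rw.none,
 Rw.none⟩)))
noncomputable def c16_19 : Tr Lf :=
 (.trX (nat_lit 5) (nat_lit 3) (nat_lit 4) (nat_lit 100) (nat_lit 59) (nat_lit 94) (nat_lit 370) (.spl (nat_lit 3) (nat_lit 280) (.spl (nat_lit 0) (nat_lit 370) (.leaf ⟨(nat_lit 926), (nat_lit 68), (nat_lit 0), (nat_lit 6), (nat_lit 1057), (nat_lit 3141), (nat_lit 896), (nat_lit 71), (nat_lit 0), (nat_lit 0), (nat_lit 453200), [((nat_lit 370), [((nat_lit 25), (nat_lit 1), (nat_lit 512)), ((nat_lit 41), (nat_lit 2), (nat_lit 414))])], ⟨(nat_lit 6), false, true, true, (nat_lit 240), (nat_lit 2738), (nat_lit 3163), [(nat_lit 1538797), (nat_lit 1536642), (nat_lit 1605257), (nat_lit 1603890), (nat_lit 1599750), (nat_lit 1595704), (nat_lit 1666215), (nat_lit 1662956)]⟩, ⟨(nat_lit 3), false, false, false, (nat_lit 100), (nat_lit 2738),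 (nat_lit 3163), [(nat_lit 1137055), (nat_lit 1144520), (nat_lit 1203484), (nat_lit 1211736), (nat_lit 1289472), (nat_lit 1292206), (nat_lit 1355914), (nat_lit 1359435)]⟩, (nat_lit 4180800), (nat_lit 45482015), (nat_lit 17186139), (nat_lit 4331846), (nat_lit 3), (nat_lit 0), [], [⟨(nat_lit 0), (nat_lit 100), (nat_lit 58), (nat_lit 68), (nat_lit 59753238)⟩, ⟨(nat_lit 0), (nat_lit 100), (nat_lit 53), (nat_lit 80), (nat_lit 6388099)⟩], [], [⟨(nat_lit 1), (nat_lit 89), (nat_lit 100), (nat_lit 80), (nat_lit 427994)⟩],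
 ⟨⟨[(nat_lit 40), (nat_lit 80), (nat_lit 100)], [(nat_lit 0), (nat_lit 1598), (nat_lit 2533)], [((nat_lit 0), (nat_lit 0), (nat_lit 0)), ((nat_lit 1000), (nat_lit 625), (nat_lit 623)), ((nat_lit 1000), (nat_lit 604), (nat_lit 730))], ((nat_lit 61), (nat_lit 100), (nat_lit 68))⟩, (nat_lit 0), (nat_lit 214), (nat_lit 214), (nat_lit 0), (nat_lit 218510), [(nat_lit 1376722460), (nat_lit 813296410), (nat_lit 635320800)], [(nat_lit 0), (nat_lit 0), (nat_lit 0)], [(nat_lit 23505563642), (nat_lit 24030293584), (nat_lit 24876059056), (nat_lit 25608169684), (nat_lit 23136128572), (nat_lit 23615726886), (nat_lit 24403671515), (nat_lit 24892652729)], (nat_lit 1271251), (nat_lit 1271251), (nat_lit 1271251), (nat_lit 1271251), (nat_lit 111251), (nat_lit 780000), [(nat_lit 490000), (nat_lit 1100000), (nat_lit 1442501)], [(nat_lit 3), (nat_lit 50), (nat_lit 238), (nat_lit 30), (nat_lit 8)]⟩,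
 ⟨⟨[(nat_lit 120), (nat_lit 160), (nat_lit 180)], [(nat_lit 0), (nat_lit 533), (nat_lit 2066)], [((nat_lit 0), (nat_lit 0), (nat_lit 0)), ((nat_lit 960), (nat_lit 1000), (nat_lit 200)), ((nat_lit 615), (nat_lit 1000), (nat_lit 729))], ((nat_lit 100), (nat_lit 67), (nat_lit 68))⟩, (nat_lit 207428), (nat_lit 779), (nat_lit 779), (nat_lit 0), (nat_lit 923619), [(nat_lit 589632000), (nat_lit 878528000), (nat_lit 1040292000)], [], [(nat_lit 3108410512), (nat_lit 3066955060), (nat_lit 3163815879), (nat_lit 3108144072), (nat_lit 4018214648), (nat_lit 2842781144), (nat_lit 3239371464), (nat_lit 2561330269)], (nat_lit 1271251), (nat_lit 1271251), (nat_lit 1271251), (nat_lit 1271251), (nat_lit 0), (nat_lit 2613125), [(nat_lit 1695001), (nat_lit 1271251), (nat_lit 1271251)], [(nat_lit 28), (nat_lit 65), (nat_lit 456), (nat_lit 225), (nat_lit 10)]⟩,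
 ⟨⟨[(nat_lit 140), (nat_lit 180), (nat_lit 200)], [(nat_lit 0), (nat_lit 0), (nat_lit 2835)], [((nat_lit 0), (nat_lit 0), (nat_lit 0)), ((nat_lit 0), (nat_lit 0), (nat_lit 0)), ((nat_lit 363), (nat_lit 1000), (nat_lit 798))], ((nat_lit 0), (nat_lit 0), (nat_lit 0))⟩, (nat_lit 1651), (nat_lit 300), (nat_lit 1236), (nat_lit 468600), (nat_lit 1423305), [(nat_lit 59052000), (nat_lit 84348000), (nat_lit 98400000)], [], [(nat_lit 537332497), (nat_lit 482873531), (nat_lit 451782242), (nat_lit 435456095), (nat_lit 404230981), (nat_lit 388214010), (nat_lit 377718589), (nat_lit 433465223)], (nat_lit 780000), (nat_lit 1271251), (nat_lit 111251), (nat_lit 780000), (nat_lit 0), (nat_lit 2613125), [(nat_lit 1977501), (nat_lit 1271251), (nat_lit 1271251)], [(nat_lit 32), (nat_lit 67), (nat_lit 401), (nat_lit 175), (nat_lit 9)]⟩⟩) (.trZ (nat_lit 0) (nat_lit 2) (nat_lit 4) (nat_lit 100) (nat_lit 57) (nat_lit 62) (nat_lit 30) (.leaf ⟨(nat_lit 941), (nat_lit 53), (nat_lit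 0), (nat_lit 6), (nat_lit 0), (nat_lit 3205), (nat_lit 716), (nat_lit 66), (nat_lit 0), (nat_lit 0), (nat_lit 433200), [((nat_lit 380), [((nat_lit 25), (nat_lit 1), (nat_lit 657)), ((nat_lit 41), (nat_lit 2), (nat_lit 284))])], ⟨(nat_lit 6), false, true, true, (nat_lit 239), (nat_lit 2236), (nat_lit 2739), [(nat_lit 1536642), (nat_lit 1534240), (nat_lit 1603890), (nat_lit 1602558), (nat_lit 1595704), (nat_lit 1591255), (nat_lit 1662956), (nat_lit 1659578)]⟩, ⟨(nat_lit 3), false, false, false, (nat_lit 105), (nat_lit 2236), (nat_lit 2739), [(nat_lit 1159252), (nat_lit 1166519), (nat_lit 1226443), (nat_lit 1234781), (nat_lit 1292206), (nat_lit 1294870), (nat_lit 1359410), (nat_lit 1363145)]⟩, (nat_lit 4236878), (nat_lit 45309502), (nat_lit 17021462), (nat_lit 4669036), (nat_lit 3), (nat_lit 0), [], [⟨(nat_lit 0), (nat_lit 100), (nat_lit 44), (nat_lit 86), (nat_lit 134066193)⟩], [], [],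
 ⟨⟨[(nat_lit 40), (nat_lit 60), (nat_lit 80)], [(nat_lit 0), (nat_lit 1134), (nat_lit 1930)], [((nat_lit 0), (nat_lit 0), (nat_lit 0)), ((nat_lit 1000), (nat_lit 575), (nat_lit 619)), ((nat_lit 1000), (nat_lit 574), (nat_lit 622))], ((nat_lit 55), (nat_lit 100), (nat_lit 70))⟩, (nat_lit 0), (nat_lit 193), (nat_lit 193), (nat_lit 0), (nat_lit 268877), [(nat_lit 1381928402), (nat_lit 1056072098), (nat_lit 888112000)], [(nat_lit 0), (nat_lit 0), (nat_lit 0)], [(nat_lit 23617780282), (nat_lit 24369851626), (nat_lit 25460888287), (nat_lit 26195801683), (nat_lit 23470928361), (nat_lit 24000835426), (nat_lit 24833813806), (nat_lit 25325785363)], (nat_lit 1271251), (nat_lit 1271251), (nat_lit 1271251), (nat_lit 1271251), (nat_lit 169688), (nat_lit 780000), [(nat_lit 490000), (nat_lit 780000), (nat_lit 1100000)], [(nat_lit 2), (nat_lit 44), (nat_lit 238), (nat_lit 30), (nat_lit 9)]⟩,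
 ⟨⟨[(nat_lit 120), (nat_lit 160), (nat_lit 180)], [(nat_lit 0), (nat_lit 533), (nat_lit 2066)], [((nat_lit 0), (nat_lit 0), (nat_lit 0)), ((nat_lit 960), (nat_lit 1000), (nat_lit 200)), ((nat_lit 615), (nat_lit 1000), (nat_lit 729))], ((nat_lit 100), (nat_lit 67), (nat_lit 68))⟩, (nat_lit 165472), (nat_lit 956), (nat_lit 956), (nat_lit 0), (nat_lit 1314053), [(nat_lit 470112000), (nat_lit 700448000), (nat_lit 829422000)], [], [(nat_lit 2475304126), (nat_lit 2442025624), (nat_lit 2519467331), (nat_lit 2476830386), (nat_lit 3204528863), (nat_lit 2265231554), (nat_lit 2582149712), (nat_lit 2041340471)], (nat_lit 1271251), (nat_lit 1271251), (nat_lit 1271251), (nat_lit 1271251), (nat_lit 0), (nat_lit 2613125), [(nat_lit 1695001), (nat_lit 1271251), (nat_lit 1271251)], [(nat_lit 28), (nat_lit 65), (nat_lit 456), (nat_lit 225), (nat_lit 10)]⟩,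
 ⟨⟨[(nat_lit 140), (nat_lit 180), (nat_lit 200)], [(nat_lit 0), (nat_lit 0), (nat_lit 2835)], [((nat_lit 0), (nat_lit 0), (nat_lit 0)), ((nat_lit 0), (nat_lit 0), (nat_lit 0)), ((nat_lit 363), (nat_lit 1000), (nat_lit 798))], ((nat_lit 0), (nat_lit 0), (nat_lit 0))⟩, (nat_lit 1651), (nat_lit 300), (nat_lit 1406), (nat_lit 468600), (nat_lit 1830504), [(nat_lit 59052000), (nat_lit 84348000), (nat_lit 98400000)], [], [(nat_lit 506785061), (nat_lit 490203046), (nat_lit 471005088), (nat_lit 455662122), (nat_lit 413134215), (nat_lit 397551015), (nat_lit 380505791), (nat_lit 425013398)], (nat_lit 780000), (nat_lit 1271251), (nat_lit 169688), (nat_lit 780000), (nat_lit 0), (nat_lit 2613125), [(nat_lit 1977501), (nat_lit 1271251), (nat_lit 1271251)], [(nat_lit 32), (nat_lit 67), (nat_lit 436), (nat_lit 175), (nat_lit 10)]⟩⟩))) (.trX (nat_lit 5) (nat_lit 3) (nat_lit 4) (nat_lit 100) (nat_lit 80) (nat_lit 100) (nat_lit 340) (.spl (nat_lit 4) (nat_lit 80) (.trX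 (nat_lit 5) (nat_lit 3) (nat_lit 4) (nat_lit 100) (nat_lit 95) (nat_lit 87) (nat_lit 300) (.spl (nat_lit 1) (nat_lit 220) (.trX (nat_lit 3) (nat_lit 0) (nat_lit 1) (nat_lit 60) (nat_lit 74) (nat_lit 100) (nat_lit 340) (.spl (nat_lit 0) (nat_lit 370) (.leaf ⟨(nat_lit 910), (nat_lit 90), (nat_lit 0), (nat_lit 0), (nat_lit 1913), (nat_lit 3140), (nat_lit 1046), (nat_lit 0), (nat_lit 0), (nat_lit 0), (nat_lit 508400), [((nat_lit 370), [((nat_lit 25), (nat_lit 1), (nat_lit 188)), ((nat_lit 41), (nat_lit 2), (nat_lit 722))])], ⟨(nat_lit 7), false, true, true, (nat_lit 266), (nat_lit 2738), (nat_lit 3163), [(nat_lit 1599750), (nat_lit 1595704), (nat_lit 1644060), (nat_lit 1640539), (nat_lit 1691180), (nat_lit 1684296), (nat_lit 1735490), (nat_lit 1729131)]⟩, ⟨(nat_lit 3), false, false, false, (nat_lit 88), (nat_lit 2738), (nat_lit 3163), [(nat_lit 1137055), (nat_lit 1144520), (nat_lit 1203484), (nat_lit 1211736), (nat_lit 1228513), (nat_lit 1233139), (nat_lit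 1294942), (nat_lit 1300356)]⟩, (nat_lit 4180699), (nat_lit 43651796), (nat_lit 19859473), (nat_lit 3488731), (nat_lit 3), (nat_lit 0), [⟨(nat_lit 1), (nat_lit 74), (nat_lit 60), (nat_lit 100), (nat_lit 228703997)⟩], [⟨(nat_lit 0), (nat_lit 100), (nat_lit 58), (nat_lit 68), (nat_lit 258021609)⟩], [], [],
 ⟨⟨[(nat_lit 40), (nat_lit 80), (nat_lit 100)], [(nat_lit 0), (nat_lit 1598), (nat_lit 2533)], [((nat_lit 0), (nat_lit 0), (nat_lit 0)), ((nat_lit 1000), (nat_lit 625), (nat_lit 623)), ((nat_lit 1000), (nat_lit 604), (nat_lit 730))], ((nat_lit 61), (nat_lit 100), (nat_lit 68))⟩, (nat_lit 0), (nat_lit 216), (nat_lit 216), (nat_lit 0), (nat_lit 185076), [(nat_lit 1356310401), (nat_lit 645813007), (nat_lit 218760800)], [(nat_lit 0), (nat_lit 0), (nat_lit 0)], [(nat_lit 24874117355), (nat_lit 25606117072), (nat_lit 28021034293), (nat_lit 28649635524), (nat_lit 24159615883), (nat_lit 24641732643), (nat_lit 26349716523), (nat_lit 26957228523)], (nat_lit 1271251),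 (nat_lit 1271251), (nat_lit 1271251), (nat_lit 1271251), (nat_lit 111251), (nat_lit 490000), [(nat_lit 490000), (nat_lit 1100000), (nat_lit 1442501)], [(nat_lit 3), (nat_lit 50), (nat_lit 226), (nat_lit 20), (nat_lit 7)]⟩,
 ⟨⟨[(nat_lit 120), (nat_lit 160), (nat_lit 180)], [(nat_lit 0), (nat_lit 533), (nat_lit 2066)], [((nat_lit 0), (nat_lit 0), (nat_lit 0)), ((nat_lit 960), (nat_lit 1000), (nat_lit 200)), ((nat_lit 615), (nat_lit 1000), (nat_lit 729))], ((nat_lit 100), (nat_lit 67), (nat_lit 68))⟩, (nat_lit 254342), (nat_lit 760), (nat_lit 760), (nat_lit 0), (nat_lit 901131), [(nat_lit 717120000), (nat_lit 1068480000), (nat_lit 1265220000)], [], [(nat_lit 3922523483), (nat_lit 3881844525), (nat_lit 4056264264), (nat_lit 4016805905), (nat_lit 3317125126), (nat_lit 2912513646), (nat_lit 3094205872), (nat_lit 3041271207)], (nat_lit 1271251), (nat_lit 1271251), (nat_lit 1271251), (nat_lit 1271251), (nat_lit 0), (nat_lit 2118750), [(nat_lit 1695001), (nat_lit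 1271251), (nat_lit 1271251)], [(nat_lit 28), (nat_lit 65), (nat_lit 456), (nat_lit 225), (nat_lit 10)]⟩,
 Rw.none⟩) (.trX (nat_lit 3) (nat_lit 0) (nat_lit 1) (nat_lit 53) (nat_lit 80) (nat_lit 100) (nat_lit 330) (.trZ (nat_lit 0) (nat_lit 2) (nat_lit 4) (nat_lit 100) (nat_lit 57) (nat_lit 62) (nat_lit 30) (.leaf ⟨(nat_lit 928), (nat_lit 72), (nat_lit 0), (nat_lit 0), (nat_lit 0), (nat_lit 3297), (nat_lit 854), (nat_lit 0), (nat_lit 0), (nat_lit 0), (nat_lit 368350), [((nat_lit 380), [((nat_lit 25), (nat_lit 0), (nat_lit 19)), ((nat_lit 25), (nat_lit 1), (nat_lit 909))])], ⟨(nat_lit 7), false, true, true, (nat_lit 261), (nat_lit 2236), (nat_lit 2739), [(nat_lit 1595704), (nat_lit 1591255), (nat_lit 1640539), (nat_lit 1636804), (nat_lit 1669530), (nat_lit 1662525), (nat_lit 1714365), (nat_lit 1708073)]⟩, ⟨(nat_lit 3), false, false, false, (nat_lit 93), (nat_lit 2236), (nat_lit 2739), [(nat_lit 1159252), (nat_lit 1166519), (nat_lit 1226443), (nat_lit 1234781),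 (nat_lit 1233122), (nat_lit 1237832), (nat_lit 1300314), (nat_lit 1306094)]⟩, (nat_lit 4222915), (nat_lit 43872488), (nat_lit 19288038), (nat_lit 3839474), (nat_lit 3), (nat_lit 0), [⟨(nat_lit 1), (nat_lit 80), (nat_lit 53), (nat_lit 100), (nat_lit 292390536)⟩], [⟨(nat_lit 0), (nat_lit 100), (nat_lit 50), (nat_lit 75), (nat_lit 318803366)⟩], [], [],
 ⟨⟨[(nat_lit 40), (nat_lit 60), (nat_lit 80)], [(nat_lit 0), (nat_lit 1134), (nat_lit 1930)], [((nat_lit 0), (nat_lit 0), (nat_lit 0)), ((nat_lit 1000), (nat_lit 575), (nat_lit 619)), ((nat_lit 1000), (nat_lit 574), (nat_lit 622))], ((nat_lit 55), (nat_lit 100), (nat_lit 70))⟩, (nat_lit 0), (nat_lit 194), (nat_lit 194), (nat_lit 0), (nat_lit 238083), [(nat_lit 1415089601), (nat_lit 1202261636), (nat_lit 1236954800)], [(nat_lit 0), (nat_lit 0), (nat_lit 0)], [(nat_lit 25637732513), (nat_lit 26382778947), (nat_lit 28137113783), (nat_lit 28793725717), (nat_lit 24775313502), (nat_lit 25296490659), (nat_lit 26640004053),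 (nat_lit 27276437048)], (nat_lit 1271251), (nat_lit 1271251), (nat_lit 1271251), (nat_lit 1271251), (nat_lit 169688), (nat_lit 490000), [(nat_lit 490000), (nat_lit 780000), (nat_lit 1100000)], [(nat_lit 2), (nat_lit 44), (nat_lit 226), (nat_lit 20), (nat_lit 9)]⟩,
 ⟨⟨[(nat_lit 120), (nat_lit 160), (nat_lit 180)], [(nat_lit 0), (nat_lit 533), (nat_lit 2066)], [((nat_lit 0), (nat_lit 0), (nat_lit 0)), ((nat_lit 960), (nat_lit 1000), (nat_lit 200)), ((nat_lit 615), (nat_lit 1000), (nat_lit 729))], ((nat_lit 100), (nat_lit 67), (nat_lit 68))⟩, (nat_lit 208577), (nat_lit 936), (nat_lit 936), (nat_lit 0), (nat_lit 1294487), [(nat_lit 573696000), (nat_lit 854784000), (nat_lit 1012176000)], [], [(nat_lit 3099202391), (nat_lit 3064904859), (nat_lit 3179875122), (nat_lit 3153930977), (nat_lit 2639841934), (nat_lit 2292181613), (nat_lit 2411161518), (nat_lit 2369610288)], (nat_lit 1271251), (nat_lit 1271251), (nat_lit 1271251), (nat_lit 1271251), (nat_lit 0),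 (nat_lit 2118750), [(nat_lit 1695001), (nat_lit 1271251), (nat_lit 1271251)], [(nat_lit 28), (nat_lit 65), (nat_lit 456), (nat_lit 225), (nat_lit 10)]⟩,
 Rw.none⟩))))) (.leaf ⟨(nat_lit 850), (nat_lit 150), (nat_lit 0), (nat_lit 0), (nat_lit 0), (nat_lit 3209), (nat_lit 1461), (nat_lit 0), (nat_lit 0), (nat_lit 0), (nat_lit 464000), [((nat_lit 380), [((nat_lit 25), (nat_lit 1), (nat_lit 230)), ((nat_lit 41), (nat_lit 2), (nat_lit 620))])], ⟨(nat_lit 7), false, true, true, (nat_lit 281), (nat_lit 2236), (nat_lit 3163), [(nat_lit 1644060), (nat_lit 1636804), (nat_lit 1666215), (nat_lit 1659578), (nat_lit 1750729), (nat_lit 1736581), (nat_lit 1772883), (nat_lit 1759355)]⟩, ⟨(nat_lit 3), false, false, false, (nat_lit 89), (nat_lit 2236), (nat_lit 3163), [(nat_lit 1136876), (nat_lit 1152119), (nat_lit 1203150), (nat_lit 1220251), (nat_lit 1228462), (nat_lit 1237798), (nat_lit 1294736), (nat_lit 1305930)]⟩, (nat_lit 4267204), (nat_lit 42149883), (nat_lit 21353271),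 (nat_lit 3496846), (nat_lit 3), (nat_lit 0), [⟨(nat_lit 1), (nat_lit 77), (nat_lit 53), (nat_lit 100), (nat_lit 205567236)⟩], [⟨(nat_lit 0), (nat_lit 100), (nat_lit 54), (nat_lit 71), (nat_lit 265846555)⟩], [], [⟨(nat_lit 1), (nat_lit 100), (nat_lit 82), (nat_lit 67), (nat_lit 15085276)⟩],
 ⟨⟨[(nat_lit 40), (nat_lit 80), (nat_lit 100)], [(nat_lit 0), (nat_lit 1598), (nat_lit 2533)], [((nat_lit 0), (nat_lit 0), (nat_lit 0)), ((nat_lit 1000), (nat_lit 625), (nat_lit 623)), ((nat_lit 1000), (nat_lit 604), (nat_lit 730))], ((nat_lit 61), (nat_lit 100), (nat_lit 68))⟩, (nat_lit 0), (nat_lit 247), (nat_lit 247), (nat_lit 0), (nat_lit 271191), [(nat_lit 1390184026), (nat_lit 889792040), (nat_lit 714657960)], [(nat_lit 0), (nat_lit 0), (nat_lit 0)], [(nat_lit 25346096429), (nat_lit 26487399970), (nat_lit 28780240476), (nat_lit 30014661413), (nat_lit 24691183299), (nat_lit 25659985080), (nat_lit 27312921048), (nat_lit 28232620193)], (nat_lit 1271251), (nat_lit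 1271251), (nat_lit 1271251), (nat_lit 1271251), (nat_lit 111251), (nat_lit 490000), [(nat_lit 490000), (nat_lit 1100000), (nat_lit 1442501)], [(nat_lit 3), (nat_lit 50), (nat_lit 226), (nat_lit 20), (nat_lit 7)]⟩,
 ⟨⟨[(nat_lit 100), (nat_lit 140), (nat_lit 160)], [(nat_lit 0), (nat_lit 508), (nat_lit 1689)], [((nat_lit 0), (nat_lit 0), (nat_lit 0)), ((nat_lit 1000), (nat_lit 1000), (nat_lit 198)), ((nat_lit 811), (nat_lit 1000), (nat_lit 671))], ((nat_lit 100), (nat_lit 81), (nat_lit 68))⟩, (nat_lit 519101), (nat_lit 698), (nat_lit 698), (nat_lit 0), (nat_lit 954708), [(nat_lit 937500000), (nat_lit 1476300000), (nat_lit 1780800000)], [], [(nat_lit 5598633093), (nat_lit 5581747066), (nat_lit 5829920377), (nat_lit 5821136616), (nat_lit 4451761674), (nat_lit 4430903457), (nat_lit 4706439927), (nat_lit 4692779312)], (nat_lit 1271251), (nat_lit 1271251), (nat_lit 1271251), (nat_lit 1271251), (nat_lit 0), (nat_lit 2118750), [(nat_lit 1412501), (nat_lit 1271251),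 (nat_lit 1271251)], [(nat_lit 23), (nat_lit 62), (nat_lit 456), (nat_lit 225), (nat_lit 11)]⟩,
 Rw.none⟩))) (.spl (nat_lit 1) (nat_lit 220) (.trX (nat_lit 3) (nat_lit 0) (nat_lit 1) (nat_lit 60) (nat_lit 74) (nat_lit 100) (nat_lit 340) (.leaf ⟨(nat_lit 930), (nat_lit 66), (nat_lit 0), (nat_lit 4), (nat_lit 765), (nat_lit 3217), (nat_lit 805), (nat_lit 49), (nat_lit 0), (nat_lit 0), (nat_lit 446000), [((nat_lit 380), [((nat_lit 25), (nat_lit 1), (nat_lit 560)), ((nat_lit 41), (nat_lit 2), (nat_lit 370))])], ⟨(nat_lit 7), false, true, true, (nat_lit 265), (nat_lit 2236), (nat_lit 3163), [(nat_lit 1599750), (nat_lit 1591255), (nat_lit 1644060), (nat_lit 1636804), (nat_lit 1691180), (nat_lit 1676779), (nat_lit 1735490), (nat_lit 1722327)]⟩, ⟨(nat_lit 3), false, false, false, (nat_lit 119), (nat_lit 2236), (nat_lit 3163), [(nat_lit 1228462), (nat_lit 1237798), (nat_lit 1294736), (nat_lit 1305930), (nat_lit 1289472), (nat_lit 1294870), (nat_lit 1355794),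 (nat_lit 1363050)]⟩, (nat_lit 4539985), (nat_lit 42249473), (nat_lit 19325720), (nat_lit 5424807), (nat_lit 3), (nat_lit 0), [⟨(nat_lit 1), (nat_lit 74), (nat_lit 60), (nat_lit 100), (nat_lit 251294906)⟩], [], [], [],
 ⟨⟨[(nat_lit 40), (nat_lit 80), (nat_lit 100)], [(nat_lit 0), (nat_lit 1598), (nat_lit 2533)], [((nat_lit 0), (nat_lit 0), (nat_lit 0)), ((nat_lit 1000), (nat_lit 625), (nat_lit 623)), ((nat_lit 1000), (nat_lit 604), (nat_lit 730))], ((nat_lit 61), (nat_lit 100), (nat_lit 68))⟩, (nat_lit 0), (nat_lit 184), (nat_lit 184), (nat_lit 0), (nat_lit 240613), [(nat_lit 1378932004), (nat_lit 842640013), (nat_lit 685684000)], [(nat_lit 0), (nat_lit 0), (nat_lit 0)], [(nat_lit 24071504334), (nat_lit 25072545093), (nat_lit 26465280383), (nat_lit 27696695800), (nat_lit 24323496236), (nat_lit 25310909222), (nat_lit 26548699465), (nat_lit 27726525735)], (nat_lit 1271251), (nat_lit 1271251), (nat_lit 1271251), (nat_lit 1271251), (nat_lit 490000), (nat_lit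 780000), [(nat_lit 490000), (nat_lit 1100000), (nat_lit 1442501)], [(nat_lit 3), (nat_lit 50), (nat_lit 238), (nat_lit 30), (nat_lit 7)]⟩,
 ⟨⟨[(nat_lit 120), (nat_lit 160), (nat_lit 180)], [(nat_lit 0), (nat_lit 533), (nat_lit 2066)], [((nat_lit 0), (nat_lit 0), (nat_lit 0)), ((nat_lit 960), (nat_lit 1000), (nat_lit 200)), ((nat_lit 615), (nat_lit 1000), (nat_lit 729))], ((nat_lit 100), (nat_lit 67), (nat_lit 68))⟩, (nat_lit 190124), (nat_lit 937), (nat_lit 937), (nat_lit 0), (nat_lit 1297223), [(nat_lit 557760000), (nat_lit 831040000), (nat_lit 984060000)], [], [(nat_lit 3078408804), (nat_lit 3047642264), (nat_lit 3182269992), (nat_lit 3147611573), (nat_lit 2864709812), (nat_lit 2370951964), (nat_lit 2519989766), (nat_lit 2487986636)], (nat_lit 1271251), (nat_lit 1271251), (nat_lit 1271251), (nat_lit 1271251), (nat_lit 0), (nat_lit 2401251), [(nat_lit 1695001), (nat_lit 1271251), (nat_lit 1271251)], [(nat_lit 28), (nat_lit 65), (nat_lit 456), (nat_lit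 225), (nat_lit 10)]⟩,
 ⟨⟨[(nat_lit 140), (nat_lit 180), (nat_lit 200)], [(nat_lit 0), (nat_lit 0), (nat_lit 2835)], [((nat_lit 0), (nat_lit 0), (nat_lit 0)), ((nat_lit 0), (nat_lit 0), (nat_lit 0)), ((nat_lit 363), (nat_lit 1000), (nat_lit 798))], ((nat_lit 0), (nat_lit 0), (nat_lit 0))⟩, (nat_lit 1101), (nat_lit 300), (nat_lit 1262), (nat_lit 312400), (nat_lit 1592718), [(nat_lit 39368000), (nat_lit 56232000), (nat_lit 65600000)], [], [(nat_lit 310158405), (nat_lit 295232471), (nat_lit 297229258), (nat_lit 285847776), (nat_lit 241792253), (nat_lit 262364401), (nat_lit 242187016), (nat_lit 279742520)], (nat_lit 780000), (nat_lit 1271251), (nat_lit 490000), (nat_lit 780000), (nat_lit 0), (nat_lit 2401251), [(nat_lit 1977501), (nat_lit 1271251), (nat_lit 1271251)], [(nat_lit 32), (nat_lit 67), (nat_lit 401), (nat_lit 175), (nat_lit 9)]⟩⟩)) (.leaf ⟨(nat_lit 843), (nat_lit 133), (nat_lit 0), (nat_lit 24), (nat_lit 0), (nat_lit 3137), (nat_lit 1341), (nat_lit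 310), (nat_lit 0), (nat_lit 0), (nat_lit 459000), [((nat_lit 380), [((nat_lit 25), (nat_lit 1), (nat_lit 234)), ((nat_lit 41), (nat_lit 2), (nat_lit 609))])], ⟨(nat_lit 7), false, true, true, (nat_lit 281), (nat_lit 2236), (nat_lit 3163), [(nat_lit 1644060), (nat_lit 1636804), (nat_lit 1666215), (nat_lit 1659578), (nat_lit 1750729), (nat_lit 1736581), (nat_lit 1772883), (nat_lit 1759355)]⟩, ⟨(nat_lit 3), false, false, false, (nat_lit 119), (nat_lit 2236), (nat_lit 3163), [(nat_lit 1228462), (nat_lit 1237798), (nat_lit 1294736), (nat_lit 1305930), (nat_lit 1289472), (nat_lit 1294870), (nat_lit 1355794), (nat_lit 1363050)]⟩, (nat_lit 4608564), (nat_lit 40797695), (nat_lit 20891173), (nat_lit 5311132), (nat_lit 3), (nat_lit 0), [⟨(nat_lit 1), (nat_lit 77), (nat_lit 53), (nat_lit 100), (nat_lit 201864835)⟩], [], [], [],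
 ⟨⟨[(nat_lit 40), (nat_lit 80), (nat_lit 100)], [(nat_lit 0), (nat_lit 1598), (nat_lit 2533)], [((nat_lit 0), (nat_lit 0), (nat_lit 0)), ((nat_lit 1000), (nat_lit 625), (nat_lit 623)), ((nat_lit 1000), (nat_lit 604), (nat_lit 730))], ((nat_lit 61), (nat_lit 100), (nat_lit 68))⟩, (nat_lit 0), (nat_lit 206), (nat_lit 206), (nat_lit 0), (nat_lit 271191), [(nat_lit 1394142401), (nat_lit 927003202), (nat_lit 769173398)], [(nat_lit 0), (nat_lit 0), (nat_lit 0)], [(nat_lit 24408783238), (nat_lit 25341047905), (nat_lit 27020755263), (nat_lit 28105821452), (nat_lit 24673070660), (nat_lit 25564893750), (nat_lit 27210144233), (nat_lit 28132073008)], (nat_lit 1271251), (nat_lit 1271251), (nat_lit 1271251), (nat_lit 1271251), (nat_lit 490000), (nat_lit 780000), [(nat_lit 490000), (nat_lit 1100000), (nat_lit 1442501)], [(nat_lit 3), (nat_lit 50), (nat_lit 238), (nat_lit 30), (nat_lit 7)]⟩,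
 ⟨⟨[(nat_lit 100), (nat_lit 140), (nat_lit 160)], [(nat_lit 0), (nat_lit 508), (nat_lit 1689)], [((nat_lit 0), (nat_lit 0), (nat_lit 0)), ((nat_lit 1000), (nat_lit 1000), (nat_lit 198)), ((nat_lit 811), (nat_lit 1000), (nat_lit 671))], ((nat_lit 100), (nat_lit 81), (nat_lit 68))⟩, (nat_lit 943246), (nat_lit 698), (nat_lit 698), (nat_lit 0), (nat_lit 954708), [(nat_lit 981250000), (nat_lit 1545194000), (nat_lit 1863904000)], [], [(nat_lit 5644335385), (nat_lit 5635620876), (nat_lit 5865940502), (nat_lit 5844980870), (nat_lit 4777707085), (nat_lit 4757898045), (nat_lit 5081939127), (nat_lit 5093574451)], (nat_lit 1271251), (nat_lit 1271251), (nat_lit 1271251), (nat_lit 1271251), (nat_lit 0), (nat_lit 2401251), [(nat_lit 1412501), (nat_lit 1271251), (nat_lit 1271251)], [(nat_lit 23), (nat_lit 62), (nat_lit 483), (nat_lit 250), (nat_lit 12)]⟩,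
 ⟨⟨[(nat_lit 140), (nat_lit 180), (nat_lit 200)], [(nat_lit 0), (nat_lit 0), (nat_lit 2835)], [((nat_lit 0), (nat_lit 0), (nat_lit 0)), ((nat_lit 0), (nat_lit 0), (nat_lit 0)), ((nat_lit 363), (nat_lit 1000), (nat_lit 798))], ((nat_lit 0), (nat_lit 0), (nat_lit 0))⟩, (nat_lit 6603), (nat_lit 300), (nat_lit 1362), (nat_lit 1874403), (nat_lit 1830432), [(nat_lit 236208000), (nat_lit 337392000), (nat_lit 393600000)], [], [(nat_lit 1901634416), (nat_lit 1742917208), (nat_lit 1749950548), (nat_lit 1682996363), (nat_lit 1417159942), (nat_lit 1594244582), (nat_lit 1467643173), (nat_lit 1702672686)], (nat_lit 780000), (nat_lit 1271251), (nat_lit 490000), (nat_lit 780000), (nat_lit 0), (nat_lit 2401251), [(nat_lit 1977501), (nat_lit 1271251), (nat_lit 1271251)], [(nat_lit 32), (nat_lit 67), (nat_lit 421), (nat_lit 175), (nat_lit 9)]⟩⟩))))))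
noncomputable def c16_20 : Tr Lf :=
 (.spl (nat_lit 5) (nat_lit 120) (.spl (nat_lit 1) (nat_lit 220) (.trX (nat_lit 3) (nat_lit 0) (nat_lit 1) (nat_lit 60) (nat_lit 74) (nat_lit 100) (nat_lit 340) (.spl (nat_lit 0) (nat_lit 370) (.leaf ⟨(nat_lit 853), (nat_lit 147), (nat_lit 0), (nat_lit 0), (nat_lit 27), (nat_lit 3367), (nat_lit 1779), (nat_lit 0), (nat_lit 0), (nat_lit 0), (nat_lit 418000), [((nat_lit 370), [((nat_lit 25), (nat_lit 1), (nat_lit 469)), ((nat_lit 41), (nat_lit 2), (nat_lit 384))])], ⟨(nat_lit 6), false, true, true, (nat_lit 254), (nat_lit 2738), (nat_lit 3163), [(nat_lit 1538797), (nat_lit 1536642), (nat_lit 1583107), (nat_lit 1581477), (nat_lit 1691180), (nat_lit 1684296), (nat_lit 1735490), (nat_lit 1729131)]⟩, ⟨(nat_lit 3), false, false, true, (nat_lit 154), (nat_lit 2738), (nat_lit 3163), [(nat_lit 1289472), (nat_lit 1292206), (nat_lit 1355914), (nat_lit 1359435), (nat_lit 1411379), (nat_lit 1410329), (nat_lit 1477844), (nat_lit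 1477581)]⟩, (nat_lit 4850740), (nat_lit 41260090), (nat_lit 17752605), (nat_lit 7987305), (nat_lit 3), (nat_lit 0), [⟨(nat_lit 1), (nat_lit 83), (nat_lit 57), (nat_lit 100), (nat_lit 105988950)⟩], [], [], [⟨(nat_lit 0), (nat_lit 100), (nat_lit 71), (nat_lit 70), (nat_lit 47887932)⟩],
 ⟨⟨[(nat_lit 40), (nat_lit 80), (nat_lit 100)], [(nat_lit 0), (nat_lit 1598), (nat_lit 2533)], [((nat_lit 0), (nat_lit 0), (nat_lit 0)), ((nat_lit 1000), (nat_lit 625), (nat_lit 623)), ((nat_lit 1000), (nat_lit 604), (nat_lit 730))], ((nat_lit 61), (nat_lit 100), (nat_lit 68))⟩, (nat_lit 0), (nat_lit 162), (nat_lit 162), (nat_lit 0), (nat_lit 228834), [(nat_lit 1409701203), (nat_lit 1116099204), (nat_lit 1073649200)], [(nat_lit 0), (nat_lit 0), (nat_lit 0)], [(nat_lit 23420004281), (nat_lit 23913337406), (nat_lit 26762030302), (nat_lit 27344336863), (nat_lit 24454730016), (nat_lit 24898039791), (nat_lit 27538853099), (nat_lit 28077615436)], (nat_lit 1271251), (nat_lit 1271251),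 (nat_lit 1271251), (nat_lit 1271251), (nat_lit 780000), (nat_lit 1435001), [(nat_lit 490000), (nat_lit 1100000), (nat_lit 1442501)], [(nat_lit 3), (nat_lit 50), (nat_lit 260), (nat_lit 50), (nat_lit 8)]⟩,
 ⟨⟨[(nat_lit 120), (nat_lit 160), (nat_lit 180)], [(nat_lit 0), (nat_lit 533), (nat_lit 2066)], [((nat_lit 0), (nat_lit 0), (nat_lit 0)), ((nat_lit 960), (nat_lit 1000), (nat_lit 200)), ((nat_lit 615), (nat_lit 1000), (nat_lit 729))], ((nat_lit 100), (nat_lit 67), (nat_lit 68))⟩, (nat_lit 438247), (nat_lit 682), (nat_lit 682), (nat_lit 0), (nat_lit 734277), [(nat_lit 1171296000), (nat_lit 1745184000), (nat_lit 2066526000)], [], [(nat_lit 6134514546), (nat_lit 6079697016), (nat_lit 6535309283), (nat_lit 6501218862), (nat_lit 4856393010), (nat_lit 4796140848), (nat_lit 5130785276), (nat_lit 5066665085)], (nat_lit 1271251), (nat_lit 1271251), (nat_lit 1271251), (nat_lit 1271251), (nat_lit 0), (nat_lit 780000), [(nat_lit 1695001), (nat_lit 1271251), (nat_lit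 1271251)], [(nat_lit 28), (nat_lit 65), (nat_lit 401), (nat_lit 175), (nat_lit 9)]⟩,
 Rw.none⟩) (.trX (nat_lit 3) (nat_lit 0) (nat_lit 1) (nat_lit 53) (nat_lit 80) (nat_lit 100) (nat_lit 330) (.leaf ⟨(nat_lit 878), (nat_lit 122), (nat_lit 0), (nat_lit 0), (nat_lit 0), (nat_lit 3310), (nat_lit 1300), (nat_lit 0), (nat_lit 0), (nat_lit 0), (nat_lit 337700), [((nat_lit 380), [((nat_lit 25), (nat_lit 0), (nat_lit 90)), ((nat_lit 25), (nat_lit 1), (nat_lit 788))])], ⟨(nat_lit 6), false, true, true, (nat_lit 249), (nat_lit 2236), (nat_lit 2739), [(nat_lit 1536642), (nat_lit 1534240), (nat_lit 1581477), (nat_lit 1579788), (nat_lit 1669530), (nat_lit 1662525), (nat_lit 1714365), (nat_lit 1708073)]⟩, ⟨(nat_lit 3), false, false, true, (nat_lit 154), (nat_lit 2236), (nat_lit 2739), [(nat_lit 1292206), (nat_lit 1294870), (nat_lit 1359410), (nat_lit 1363145), (nat_lit 1410329), (nat_lit 1408901), (nat_lit 1477581), (nat_lit 1477224)]⟩, (nat_lit 4832028), (nat_lit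 41616590), (nat_lit 17315096), (nat_lit 8068314), (nat_lit 3), (nat_lit 0), [⟨(nat_lit 1), (nat_lit 88), (nat_lit 48), (nat_lit 100), (nat_lit 219094895)⟩], [], [], [⟨(nat_lit 0), (nat_lit 100), (nat_lit 76), (nat_lit 65), (nat_lit 27956940)⟩],
 ⟨⟨[(nat_lit 40), (nat_lit 60), (nat_lit 80)], [(nat_lit 0), (nat_lit 1134), (nat_lit 1930)], [((nat_lit 0), (nat_lit 0), (nat_lit 0)), ((nat_lit 1000), (nat_lit 575), (nat_lit 619)), ((nat_lit 1000), (nat_lit 574), (nat_lit 622))], ((nat_lit 55), (nat_lit 100), (nat_lit 70))⟩, (nat_lit 0), (nat_lit 167), (nat_lit 167), (nat_lit 0), (nat_lit 293350), [(nat_lit 1446207210), (nat_lit 1304950574), (nat_lit 1477776800)], [(nat_lit 0), (nat_lit 0), (nat_lit 0)], [(nat_lit 23479561664), (nat_lit 24026555904), (nat_lit 26766577000), (nat_lit 27328661033), (nat_lit 24636132488), (nat_lit 25148356545), (nat_lit 27622589494), (nat_lit 28069956604)], (nat_lit 1271251), (nat_lit 1271251), (nat_lit 1271251), (nat_lit 1271251),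 (nat_lit 780000), (nat_lit 1435001), [(nat_lit 490000), (nat_lit 780000), (nat_lit 1100000)], [(nat_lit 2), (nat_lit 44), (nat_lit 260), (nat_lit 50), (nat_lit 10)]⟩,
 ⟨⟨[(nat_lit 120), (nat_lit 160), (nat_lit 180)], [(nat_lit 0), (nat_lit 533), (nat_lit 2066)], [((nat_lit 0), (nat_lit 0), (nat_lit 0)), ((nat_lit 960), (nat_lit 1000), (nat_lit 200)), ((nat_lit 615), (nat_lit 1000), (nat_lit 729))], ((nat_lit 100), (nat_lit 67), (nat_lit 68))⟩, (nat_lit 948799), (nat_lit 836), (nat_lit 836), (nat_lit 0), (nat_lit 1060798), [(nat_lit 972096000), (nat_lit 1448384000), (nat_lit 1715076000)], [], [(nat_lit 4468936455), (nat_lit 4439848919), (nat_lit 4790873441), (nat_lit 4787583677), (nat_lit 3558966738), (nat_lit 3525471344), (nat_lit 3779118399), (nat_lit 3772212957)], (nat_lit 1271251), (nat_lit 1271251), (nat_lit 1271251), (nat_lit 1271251), (nat_lit 0), (nat_lit 780000), [(nat_lit 1695001), (nat_lit 1271251), (nat_lit 1271251)], [(nat_lit 28), (nat_lit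 65), (nat_lit 401), (nat_lit 175), (nat_lit 9)]⟩,
 Rw.none⟩)))) (.leaf ⟨(nat_lit 748), (nat_lit 252), (nat_lit 0), (nat_lit 0), (nat_lit 0), (nat_lit 3256), (nat_lit 2234), (nat_lit 0), (nat_lit 0), (nat_lit 0), (nat_lit 393200), [((nat_lit 380), [((nat_lit 25), (nat_lit 0), (nat_lit 24)), ((nat_lit 25), (nat_lit 1), (nat_lit 236)), ((nat_lit 41), (nat_lit 2), (nat_lit 488))])], ⟨(nat_lit 6), false, true, true, (nat_lit 270), (nat_lit 2236), (nat_lit 3163), [(nat_lit 1583107), (nat_lit 1579788), (nat_lit 1605240), (nat_lit 1602541), (nat_lit 1750729), (nat_lit 1736581), (nat_lit 1772883), (nat_lit 1759355)]⟩, ⟨(nat_lit 3), false, false, true, (nat_lit 154), (nat_lit 2236), (nat_lit 3163), [(nat_lit 1289472), (nat_lit 1294870), (nat_lit 1355794), (nat_lit 1363050), (nat_lit 1411379), (nat_lit 1408901), (nat_lit 1477844), (nat_lit 1477224)]⟩, (nat_lit 4920424), (nat_lit 39982986), (nat_lit 19170618), (nat_lit 7846396), (nat_lit 3), (nat_lit 0), [⟨(nat_lit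 1), (nat_lit 77), (nat_lit 53), (nat_lit 100), (nat_lit 82263071)⟩], [], [], [⟨(nat_lit 0), (nat_lit 100), (nat_lit 66), (nat_lit 75), (nat_lit 31549852)⟩],
 ⟨⟨[(nat_lit 40), (nat_lit 80), (nat_lit 100)], [(nat_lit 0), (nat_lit 1598), (nat_lit 2533)], [((nat_lit 0), (nat_lit 0), (nat_lit 0)), ((nat_lit 1000), (nat_lit 625), (nat_lit 623)), ((nat_lit 1000), (nat_lit 604), (nat_lit 730))], ((nat_lit 61), (nat_lit 100), (nat_lit 68))⟩, (nat_lit 164946), (nat_lit 210), (nat_lit 210), (nat_lit 0), (nat_lit 332314), [(nat_lit 1447681606), (nat_lit 1421833606), (nat_lit 1493192000)], [(nat_lit 0), (nat_lit 0), (nat_lit 0)], [(nat_lit 23742648718), (nat_lit 24715823250), (nat_lit 27439899512), (nat_lit 28313194488), (nat_lit 24796832198), (nat_lit 25672207614), (nat_lit 28192820260), (nat_lit 28966537414)], (nat_lit 1271251), (nat_lit 1271251), (nat_lit 1271251), (nat_lit 1271251), (nat_lit 780000), (nat_lit 1435001), [(nat_lit 490000), (nat_lit 1100000), (nat_lit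 1442501)], [(nat_lit 3), (nat_lit 50), (nat_lit 260), (nat_lit 50), (nat_lit 8)]⟩,
 ⟨⟨[(nat_lit 100), (nat_lit 140), (nat_lit 160)], [(nat_lit 0), (nat_lit 508), (nat_lit 1689)], [((nat_lit 0), (nat_lit 0), (nat_lit 0)), ((nat_lit 1000), (nat_lit 1000), (nat_lit 198)), ((nat_lit 811), (nat_lit 1000), (nat_lit 671))], ((nat_lit 100), (nat_lit 81), (nat_lit 68))⟩, (nat_lit 1856047), (nat_lit 619), (nat_lit 619), (nat_lit 0), (nat_lit 789598), [(nat_lit 1575000000), (nat_lit 2480184000), (nat_lit 2991744000)], [], [(nat_lit 7954164314), (nat_lit 7947773200), (nat_lit 8777560703), (nat_lit 8821831635), (nat_lit 6627524102), (nat_lit 6614537712), (nat_lit 7215958309), (nat_lit 7206234332)], (nat_lit 1271251), (nat_lit 1271251), (nat_lit 1271251), (nat_lit 1271251), (nat_lit 0), (nat_lit 780000), [(nat_lit 1412501), (nat_lit 1271251), (nat_lit 1271251)], [(nat_lit 23), (nat_lit 62), (nat_lit 428), (nat_lit 200), (nat_lit 11)]⟩,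
 Rw.none⟩)) (.spl (nat_lit 3) (nat_lit 280) (.leaf ⟨(nat_lit 915), (nat_lit 55), (nat_lit 0), (nat_lit 30), (nat_lit 0), (nat_lit 3333), (nat_lit 1034), (nat_lit 342), (nat_lit 0), (nat_lit 0), (nat_lit 448000), [((nat_lit 380), [((nat_lit 25), (nat_lit 1), (nat_lit 505)), ((nat_lit 41), (nat_lit 2), (nat_lit 410))])], ⟨(nat_lit 6), false, true, true, (nat_lit 240), (nat_lit 2236), (nat_lit 3163), [(nat_lit 1538797), (nat_lit 1534240), (nat_lit 1605240), (nat_lit 1602541), (nat_lit 1599750), (nat_lit 1591255), (nat_lit 1666215), (nat_lit 1659578)]⟩, ⟨(nat_lit 3), false, false, true, (nat_lit 154), (nat_lit 2236), (nat_lit 3163), [(nat_lit 1289472), (nat_lit 1294870), (nat_lit 1355794), (nat_lit 1363050), (nat_lit 1411379), (nat_lit 1408901), (nat_lit 1477844), (nat_lit 1477224)]⟩, (nat_lit 4778563), (nat_lit 42411650), (nat_lit 16448952), (nat_lit 8139398), (nat_lit 3), (nat_lit 0), [], [], [], [],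
 ⟨⟨[(nat_lit 40), (nat_lit 80), (nat_lit 100)], [(nat_lit 0), (nat_lit 1598), (nat_lit 2533)], [((nat_lit 0), (nat_lit 0), (nat_lit 0)), ((nat_lit 1000), (nat_lit 625), (nat_lit 623)), ((nat_lit 1000), (nat_lit 604), (nat_lit 730))], ((nat_lit 61), (nat_lit 100), (nat_lit 68))⟩, (nat_lit 0), (nat_lit 191), (nat_lit 191), (nat_lit 0), (nat_lit 332756), [(nat_lit 1381646002), (nat_lit 875224542), (nat_lit 700522000)], [(nat_lit 0), (nat_lit 0), (nat_lit 0)], [(nat_lit 22851699270), (nat_lit 23834232921), (nat_lit 24137726839), (nat_lit 25139611890), (nat_lit 23892385035), (nat_lit 24858361221), (nat_lit 25147755301), (nat_lit 26049180434)], (nat_lit 1271251), (nat_lit 1271251), (nat_lit 1271251), (nat_lit 1271251), (nat_lit 780000), (nat_lit 1435001), [(nat_lit 490000), (nat_lit 1100000), (nat_lit 1442501)], [(nat_lit 3), (nat_lit 50), (nat_lit 260), (nat_lit 50), (nat_lit 8)]⟩,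
 ⟨⟨[(nat_lit 120), (nat_lit 160), (nat_lit 180)], [(nat_lit 0), (nat_lit 533), (nat_lit 2066)], [((nat_lit 0), (nat_lit 0), (nat_lit 0)), ((nat_lit 960), (nat_lit 1000), (nat_lit 200)), ((nat_lit 615), (nat_lit 1000), (nat_lit 729))], ((nat_lit 100), (nat_lit 67), (nat_lit 68))⟩, (nat_lit 208777), (nat_lit 862), (nat_lit 862), (nat_lit 0), (nat_lit 1319966), [(nat_lit 677280000), (nat_lit 1009120000), (nat_lit 1194930000)], [], [(nat_lit 2886980166), (nat_lit 2812468329), (nat_lit 2917226152), (nat_lit 2849375509), (nat_lit 3347398876), (nat_lit 3098119010), (nat_lit 3231516040), (nat_lit 3154167254)], (nat_lit 1271251), (nat_lit 1271251), (nat_lit 1271251), (nat_lit 1271251), (nat_lit 780000), (nat_lit 3072501), [(nat_lit 1695001), (nat_lit 1271251), (nat_lit 1271251)], [(nat_lit 28), (nat_lit 65), (nat_lit 483), (nat_lit 250), (nat_lit 11)]⟩,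
 ⟨⟨[(nat_lit 140), (nat_lit 180), (nat_lit 200)], [(nat_lit 0), (nat_lit 0), (nat_lit 2835)], [((nat_lit 0), (nat_lit 0), (nat_lit 0)), ((nat_lit 0), (nat_lit 0), (nat_lit 0)), ((nat_lit 363), (nat_lit 1000), (nat_lit 798))], ((nat_lit 0), (nat_lit 0), (nat_lit 0))⟩, (nat_lit 8254), (nat_lit 300), (nat_lit 2134), (nat_lit 2343000), (nat_lit 3651873), [(nat_lit 295260000), (nat_lit 421740000), (nat_lit 492000000)], [], [(nat_lit 2162707728), (nat_lit 1974721314), (nat_lit 1948178070), (nat_lit 1876046737), (nat_lit 1830847152), (nat_lit 1750673562), (nat_lit 1723045320), (nat_lit 1896142536)], (nat_lit 780000), (nat_lit 1271251), (nat_lit 780000), (nat_lit 1435001), (nat_lit 780000), (nat_lit 3072501), [(nat_lit 1977501), (nat_lit 1271251), (nat_lit 1271251)], [(nat_lit 32), (nat_lit 67), (nat_lit 631), (nat_lit 200), (nat_lit 13)]⟩⟩) (.trX (nat_lit 5) (nat_lit 3) (nat_lit 4) (nat_lit 92) (nat_lit 40) (nat_lit 100) (nat_lit 390) (.spl (nat_lit 1) (nat_lit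 220) (.trX (nat_lit 3) (nat_lit 0) (nat_lit 1) (nat_lit 60) (nat_lit 74) (nat_lit 100) (nat_lit 340) (.leaf ⟨(nat_lit 913), (nat_lit 55), (nat_lit 0), (nat_lit 32), (nat_lit 0), (nat_lit 3263), (nat_lit 1068), (nat_lit 370), (nat_lit 0), (nat_lit 0), (nat_lit 448400), [((nat_lit 380), [((nat_lit 25), (nat_lit 1), (nat_lit 497)), ((nat_lit 41), (nat_lit 2), (nat_lit 416))])], ⟨(nat_lit 7), false, true, true, (nat_lit 265), (nat_lit 2236), (nat_lit 3163), [(nat_lit 1599750), (nat_lit 1591255), (nat_lit 1644060), (nat_lit 1636804), (nat_lit 1691180), (nat_lit 1676779), (nat_lit 1735490), (nat_lit 1722327)]⟩, ⟨(nat_lit 3), false, false, true, (nat_lit 154), (nat_lit 2236), (nat_lit 3163), [(nat_lit 1289472), (nat_lit 1294870), (nat_lit 1355794), (nat_lit 1363050), (nat_lit 1411379), (nat_lit 1408901), (nat_lit 1477844), (nat_lit 1477224)]⟩, (nat_lit 4901714), (nat_lit 40358801), (nat_lit 18747150), (nat_lit 7894049), (nat_lit 3), (nat_lit 0), [⟨(nat_lit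 1), (nat_lit 85), (nat_lit 53), (nat_lit 100), (nat_lit 295873169)⟩], [], [], [],
 ⟨⟨[(nat_lit 40), (nat_lit 80), (nat_lit 100)], [(nat_lit 0), (nat_lit 1598), (nat_lit 2533)], [((nat_lit 0), (nat_lit 0), (nat_lit 0)), ((nat_lit 1000), (nat_lit 625), (nat_lit 623)), ((nat_lit 1000), (nat_lit 604), (nat_lit 730))], ((nat_lit 61), (nat_lit 100), (nat_lit 68))⟩, (nat_lit 0), (nat_lit 192), (nat_lit 192), (nat_lit 0), (nat_lit 296977), [(nat_lit 1381949202), (nat_lit 859830407), (nat_lit 701414000)], [(nat_lit 0), (nat_lit 0), (nat_lit 0)], [(nat_lit 24263689750), (nat_lit 25256708850), (nat_lit 26608470416), (nat_lit 27793545665), (nat_lit 25286725966), (nat_lit 26199355089), (nat_lit 27432971011), (nat_lit 28496706142)], (nat_lit 1271251), (nat_lit 1271251), (nat_lit 1271251), (nat_lit 1271251), (nat_lit 780000), (nat_lit 1435001), [(nat_lit 490000), (nat_lit 1100000), (nat_lit 1442501)], [(nat_lit 3), (nat_lit 50), (nat_lit 260), (nat_lit 50), (nat_lit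 8)]⟩,
 ⟨⟨[(nat_lit 120), (nat_lit 160), (nat_lit 180)], [(nat_lit 0), (nat_lit 533), (nat_lit 2066)], [((nat_lit 0), (nat_lit 0), (nat_lit 0)), ((nat_lit 960), (nat_lit 1000), (nat_lit 200)), ((nat_lit 615), (nat_lit 1000), (nat_lit 729))], ((nat_lit 100), (nat_lit 67), (nat_lit 68))⟩, (nat_lit 211895), (nat_lit 841), (nat_lit 841), (nat_lit 0), (nat_lit 1297223), [(nat_lit 693216000), (nat_lit 1032864000), (nat_lit 1223046000)], [], [(nat_lit 2963154696), (nat_lit 2915873034), (nat_lit 3100248541), (nat_lit 3062067012), (nat_lit 3249874377), (nat_lit 3201142380), (nat_lit 3482326971), (nat_lit 3477166389)], (nat_lit 1271251), (nat_lit 1271251), (nat_lit 1271251), (nat_lit 1271251), (nat_lit 780000), (nat_lit 2990626), [(nat_lit 1695001), (nat_lit 1271251), (nat_lit 1271251)], [(nat_lit 28), (nat_lit 65), (nat_lit 483), (nat_lit 250), (nat_lit 11)]⟩,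
 ⟨⟨[(nat_lit 140), (nat_lit 180), (nat_lit 200)], [(nat_lit 0), (nat_lit 0), (nat_lit 2835)], [((nat_lit 0), (nat_lit 0), (nat_lit 0)), ((nat_lit 0), (nat_lit 0), (nat_lit 0)), ((nat_lit 363), (nat_lit 1000), (nat_lit 798))], ((nat_lit 0), (nat_lit 0), (nat_lit 0))⟩, (nat_lit 8804), (nat_lit 300), (nat_lit 1937), (nat_lit 2499204), (nat_lit 3263860), [(nat_lit 314944000), (nat_lit 449856000), (nat_lit 524800000)], [], [(nat_lit 2326159360), (nat_lit 2078841213), (nat_lit 2050020778), (nat_lit 1966475436), (nat_lit 1932969193), (nat_lit 1846337013), (nat_lit 1816478548), (nat_lit 1990368712)], (nat_lit 780000), (nat_lit 1271251), (nat_lit 780000), (nat_lit 1435001), (nat_lit 780000), (nat_lit 2990626), [(nat_lit 1977501), (nat_lit 1271251), (nat_lit 1271251)], [(nat_lit 32), (nat_lit 67), (nat_lit 581), (nat_lit 200), (nat_lit 12)]⟩⟩)) (.spl (nat_lit 0) (nat_lit 370) (.leaf ⟨(nat_lit 828), (nat_lit 134), (nat_lit 0), (nat_lit 38), (nat_lit 0), (nat_lit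 3235), (nat_lit 1524), (nat_lit 418), (nat_lit 0), (nat_lit 0), (nat_lit 437400), [((nat_lit 370), [((nat_lit 25), (nat_lit 1), (nat_lit 297)), ((nat_lit 41), (nat_lit 2), (nat_lit 531))])], ⟨(nat_lit 7), false, true, true, (nat_lit 282), (nat_lit 2738), (nat_lit 3163), [(nat_lit 1644060), (nat_lit 1640539), (nat_lit 1666215), (nat_lit 1662956), (nat_lit 1750729), (nat_lit 1743896), (nat_lit 1772883), (nat_lit 1766313)]⟩, ⟨(nat_lit 3), false, false, true, (nat_lit 154), (nat_lit 2738), (nat_lit 3163), [(nat_lit 1289472), (nat_lit 1292206), (nat_lit 1355914), (nat_lit 1359435), (nat_lit 1411379), (nat_lit 1410329), (nat_lit 1477844), (nat_lit 1477581)]⟩, (nat_lit 4964065), (nat_lit 38958132), (nat_lit 20346445), (nat_lit 7695423), (nat_lit 3), (nat_lit 0), [⟨(nat_lit 1), (nat_lit 74), (nat_lit 57), (nat_lit 100), (nat_lit 152216184)⟩], [], [], [⟨(nat_lit 1), (nat_lit 74), (nat_lit 84), (nat_lit 100), (nat_lit 9577663)⟩],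
 ⟨⟨[(nat_lit 40), (nat_lit 80), (nat_lit 100)], [(nat_lit 0), (nat_lit 1598), (nat_lit 2533)], [((nat_lit 0), (nat_lit 0), (nat_lit 0)), ((nat_lit 1000), (nat_lit 625), (nat_lit 623)), ((nat_lit 1000), (nat_lit 604), (nat_lit 730))], ((nat_lit 61), (nat_lit 100), (nat_lit 68))⟩, (nat_lit 1491), (nat_lit 176), (nat_lit 176), (nat_lit 0), (nat_lit 268073), [(nat_lit 1407155201), (nat_lit 1065473597), (nat_lit 967468003)], [(nat_lit 0), (nat_lit 0), (nat_lit 0)], [(nat_lit 24812712625), (nat_lit 25263856562), (nat_lit 27271471186), (nat_lit 27706363077), (nat_lit 25741087868), (nat_lit 26147841575), (nat_lit 28037227741), (nat_lit 28424533771)], (nat_lit 1271251), (nat_lit 1271251), (nat_lit 1271251), (nat_lit 1271251), (nat_lit 780000), (nat_lit 1435001), [(nat_lit 490000), (nat_lit 1100000), (nat_lit 1442501)], [(nat_lit 3), (nat_lit 50), (nat_lit 260), (nat_lit 50), (nat_lit 8)]⟩,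
 ⟨⟨[(nat_lit 100), (nat_lit 140), (nat_lit 160)], [(nat_lit 0), (nat_lit 508), (nat_lit 1689)], [((nat_lit 0), (nat_lit 0), (nat_lit 0)), ((nat_lit 1000), (nat_lit 1000), (nat_lit 198)), ((nat_lit 811), (nat_lit 1000), (nat_lit 671))], ((nat_lit 100), (nat_lit 81), (nat_lit 68))⟩, (nat_lit 429514), (nat_lit 487), (nat_lit 487), (nat_lit 0), (nat_lit 701926), [(nat_lit 1075000000), (nat_lit 1692824000), (nat_lit 2041984000)], [], [(nat_lit 5873390359), (nat_lit 5874991094), (nat_lit 6203406669), (nat_lit 6196805699), (nat_lit 6212729755), (nat_lit 6177050692), (nat_lit 6349851425), (nat_lit 6320334804)], (nat_lit 1271251), (nat_lit 1271251), (nat_lit 1271251), (nat_lit 1271251), (nat_lit 780000), (nat_lit 2990626), [(nat_lit 1412501), (nat_lit 1271251), (nat_lit 1271251)], [(nat_lit 23), (nat_lit 62), (nat_lit 483), (nat_lit 250), (nat_lit 12)]⟩,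
 ⟨⟨[(nat_lit 140), (nat_lit 180), (nat_lit 200)], [(nat_lit 0), (nat_lit 0), (nat_lit 2835)], [((nat_lit 0), (nat_lit 0), (nat_lit 0)), ((nat_lit 0), (nat_lit 0), (nat_lit 0)), ((nat_lit 363), (nat_lit 1000), (nat_lit 798))], ((nat_lit 0), (nat_lit 0), (nat_lit 0))⟩, (nat_lit 10455), (nat_lit 300), (nat_lit 1711), (nat_lit 2967801), (nat_lit 2799323), [(nat_lit 373996000), (nat_lit 534204000), (nat_lit 623200000)], [], [(nat_lit 2731000572), (nat_lit 2639755514), (nat_lit 2608765402), (nat_lit 2519597108), (nat_lit 2402221418), (nat_lit 2311569280), (nat_lit 2281362112), (nat_lit 2319972697)], (nat_lit 780000), (nat_lit 1271251), (nat_lit 780000), (nat_lit 1435001), (nat_lit 780000), (nat_lit 2990626), [(nat_lit 1977501), (nat_lit 1271251), (nat_lit 1271251)], [(nat_lit 32), (nat_lit 67), (nat_lit 524), (nat_lit 200), (nat_lit 11)]⟩⟩) (.trX (nat_lit 3) (nat_lit 0) (nat_lit 1) (nat_lit 54) (nat_lit 74) (nat_lit 100) (nat_lit 340) (.leaf ⟨(nat_lit 863),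 (nat_lit 106), (nat_lit 0), (nat_lit 31), (nat_lit 0), (nat_lit 3323), (nat_lit 1235), (nat_lit 339), (nat_lit 0), (nat_lit 0), (nat_lit 345200), [((nat_lit 380), [((nat_lit 25), (nat_lit 1), (nat_lit 863))])], ⟨(nat_lit 7), false, true, true, (nat_lit 277), (nat_lit 2236), (nat_lit 2739), [(nat_lit 1640539), (nat_lit 1636804), (nat_lit 1662956), (nat_lit 1659578), (nat_lit 1729131), (nat_lit 1722327), (nat_lit 1751548), (nat_lit 1745101)]⟩, ⟨(nat_lit 3), false, false, true, (nat_lit 154), (nat_lit 2236), (nat_lit 2739), [(nat_lit 1292206), (nat_lit 1294870), (nat_lit 1359410), (nat_lit 1363145), (nat_lit 1410329), (nat_lit 1408901), (nat_lit 1477581), (nat_lit 1477224)]⟩, (nat_lit 4951830), (nat_lit 39332889), (nat_lit 19884960), (nat_lit 7782151), (nat_lit 3), (nat_lit 0), [⟨(nat_lit 1), (nat_lit 80), (nat_lit 49), (nat_lit 100), (nat_lit 220871123)⟩], [], [], [⟨(nat_lit 1), (nat_lit 72), (nat_lit 85), (nat_lit 100), (nat_lit 7718876)⟩],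
 ⟨⟨[(nat_lit 40), (nat_lit 60), (nat_lit 80)], [(nat_lit 0), (nat_lit 1134), (nat_lit 1930)], [((nat_lit 0), (nat_lit 0), (nat_lit 0)), ((nat_lit 1000), (nat_lit 575), (nat_lit 619)), ((nat_lit 1000), (nat_lit 574), (nat_lit 622))], ((nat_lit 55), (nat_lit 100), (nat_lit 70))⟩, (nat_lit 78695), (nat_lit 179), (nat_lit 179), (nat_lit 0), (nat_lit 328903), [(nat_lit 1439337202), (nat_lit 1346192654), (nat_lit 1465212800)], [(nat_lit 0), (nat_lit 0), (nat_lit 0)], [(nat_lit 25158626541), (nat_lit 25658006300), (nat_lit 27357512035), (nat_lit 27880962965), (nat_lit 26189355968), (nat_lit 26638272162), (nat_lit 28167714089), (nat_lit 28565747467)], (nat_lit 1271251), (nat_lit 1271251), (nat_lit 1271251), (nat_lit 1271251), (nat_lit 780000), (nat_lit 1435001), [(nat_lit 490000), (nat_lit 780000), (nat_lit 1100000)], [(nat_lit 2), (nat_lit 44), (nat_lit 260), (nat_lit 50), (nat_lit 10)]⟩,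
 ⟨⟨[(nat_lit 100), (nat_lit 140), (nat_lit 160)], [(nat_lit 0), (nat_lit 508), (nat_lit 1689)], [((nat_lit 0), (nat_lit 0), (nat_lit 0)), ((nat_lit 1000), (nat_lit 1000), (nat_lit 198)), ((nat_lit 811), (nat_lit 1000), (nat_lit 671))], ((nat_lit 100), (nat_lit 81), (nat_lit 68))⟩, (nat_lit 347445), (nat_lit 597), (nat_lit 597), (nat_lit 0), (nat_lit 954174), [(nat_lit 856250000), (nat_lit 1348354000), (nat_lit 1626464000)], [], [(nat_lit 4605351669), (nat_lit 4605762431), (nat_lit 4822614457), (nat_lit 4818700098), (nat_lit 4874403564), (nat_lit 4844712266), (nat_lit 4979347006), (nat_lit 4962921737)], (nat_lit 1271251), (nat_lit 1271251), (nat_lit 1271251), (nat_lit 1271251), (nat_lit 780000), (nat_lit 2990626), [(nat_lit 1412501), (nat_lit 1271251), (nat_lit 1271251)], [(nat_lit 23), (nat_lit 62), (nat_lit 483), (nat_lit 250), (nat_lit 12)]⟩,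
 ⟨⟨[(nat_lit 140), (nat_lit 180), (nat_lit 200)], [(nat_lit 0), (nat_lit 0), (nat_lit 2835)], [((nat_lit 0), (nat_lit 0), (nat_lit 0)), ((nat_lit 0), (nat_lit 0), (nat_lit 0)), ((nat_lit 363), (nat_lit 1000), (nat_lit 798))], ((nat_lit 0), (nat_lit 0), (nat_lit 0))⟩, (nat_lit 8529), (nat_lit 300), (nat_lit 2134), (nat_lit 2421102), (nat_lit 3651801), [(nat_lit 305102000), (nat_lit 435798000), (nat_lit 508400000)], [], [(nat_lit 2316447138), (nat_lit 2248046648), (nat_lit 2224927928), (nat_lit 2157032553), (nat_lit 2054654884), (nat_lit 1987089494), (nat_lit 1964267576), (nat_lit 1897215199)], (nat_lit 780000), (nat_lit 1271251), (nat_lit 780000), (nat_lit 1435001), (nat_lit 780000), (nat_lit 2990626), [(nat_lit 1977501), (nat_lit 1271251), (nat_lit 1271251)], [(nat_lit 32), (nat_lit 67), (nat_lit 630), (nat_lit 200), (nat_lit 13)]⟩⟩)))))))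
noncomputable def c16_21 : Tr Lf :=
 (.ord (.trX (nat_lit 3) (nat_lit 0) (nat_lit 1) (nat_lit 60) (nat_lit 74) (nat_lit 100) (nat_lit 340) (.spl (nat_lit 5) (nat_lit 120) (.spl (nat_lit 1) (nat_lit 200) (.ord (.trX (nat_lit 3) (nat_lit 0) (nat_lit 1) (nat_lit 60) (nat_lit 80) (nat_lit 100) (nat_lit 320) (.leaf ⟨(nat_lit 899), (nat_lit 101), (nat_lit 0), (nat_lit 0), (nat_lit 97), (nat_lit 3230), (nat_lit 1214), (nat_lit 0), (nat_lit 0), (nat_lit 3552526462169), (nat_lit 441400), [((nat_lit 380), [((nat_lit 25), (nat_lit 1), (nat_lit 490)), ((nat_lit 41), (nat_lit 2), (nat_lit 409))])], ⟨(nat_lit 6), false, true, true, (nat_lit 243), (nat_lit 2236), (nat_lit 3163), [(nat_lit 1538797), (nat_lit 1534240), (nat_lit 1560952), (nat_lit 1557014), (nat_lit 1660704), (nat_lit 1648271), (nat_lit 1682859), (nat_lit 1671045)]⟩, ⟨(nat_lit 4), false, false, false, (nat_lit 154), (nat_lit 2236), (nat_lit 3163), [(nat_lit 1264208), (nat_lit 1277371), (nat_lit 1286299),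 (nat_lit 1300081), (nat_lit 1477844), (nat_lit 1477224), (nat_lit 1499999), (nat_lit 1499999)]⟩, (nat_lit 4796485), (nat_lit 42165547), (nat_lit 16704687), (nat_lit 8129766), (nat_lit 4), (nat_lit 0), [⟨(nat_lit 1), (nat_lit 88), (nat_lit 53), (nat_lit 100), (nat_lit 181748298)⟩], [], [], [⟨(nat_lit 0), (nat_lit 100), (nat_lit 98), (nat_lit 6), (nat_lit 23737035)⟩],
 ⟨⟨[(nat_lit 40), (nat_lit 80), (nat_lit 100)], [(nat_lit 0), (nat_lit 1598), (nat_lit 2533)], [((nat_lit 0), (nat_lit 0), (nat_lit 0)), ((nat_lit 1000), (nat_lit 625), (nat_lit 623)), ((nat_lit 1000), (nat_lit 604), (nat_lit 730))], ((nat_lit 61), (nat_lit 100), (nat_lit 68))⟩, (nat_lit 0), (nat_lit 178), (nat_lit 178), (nat_lit 0), (nat_lit 199694), [(nat_lit 1388383601), (nat_lit 919156810), (nat_lit 787508400)], [(nat_lit 0), (nat_lit 0), (nat_lit 0)], [(nat_lit 23149876646), (nat_lit 24180769294), (nat_lit 25886925930), (nat_lit 27200911750), (nat_lit 24271522021), (nat_lit 25157422372),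 (nat_lit 26701759274), (nat_lit 27600583959)], (nat_lit 1271251), (nat_lit 1271251), (nat_lit 1271251), (nat_lit 1271251), (nat_lit 356250), (nat_lit 1423751), [(nat_lit 490000), (nat_lit 1100000), (nat_lit 1442501)], [(nat_lit 3), (nat_lit 50), (nat_lit 260), (nat_lit 50), (nat_lit 9)]⟩,
 ⟨⟨[(nat_lit 120), (nat_lit 160), (nat_lit 180)], [(nat_lit 0), (nat_lit 533), (nat_lit 2066)], [((nat_lit 0), (nat_lit 0), (nat_lit 0)), ((nat_lit 960), (nat_lit 1000), (nat_lit 200)), ((nat_lit 615), (nat_lit 1000), (nat_lit 729))], ((nat_lit 100), (nat_lit 67), (nat_lit 68))⟩, (nat_lit 306969), (nat_lit 674), (nat_lit 674), (nat_lit 0), (nat_lit 715428), [(nat_lit 804768000), (nat_lit 1199072000), (nat_lit 1419858000)], [], [(nat_lit 4220245705), (nat_lit 4201800009), (nat_lit 4371612176), (nat_lit 4340311255), (nat_lit 3349178553), (nat_lit 3328868270), (nat_lit 3472613032), (nat_lit 3440663488)], (nat_lit 1271251), (nat_lit 1271251), (nat_lit 1271251), (nat_lit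 1271251), (nat_lit 0), (nat_lit 780000), [(nat_lit 1695001), (nat_lit 1271251), (nat_lit 1271251)], [(nat_lit 28), (nat_lit 65), (nat_lit 401), (nat_lit 175), (nat_lit 9)]⟩,
 Rw.none⟩))) (.spl (nat_lit 0) (nat_lit 370) (.leaf ⟨(nat_lit 419), (nat_lit 523), (nat_lit 0), (nat_lit 58), (nat_lit 0), (nat_lit 3409), (nat_lit 4696), (nat_lit 810), (nat_lit 0), (nat_lit 9225439805600), (nat_lit 182800), [((nat_lit 370), [((nat_lit 25), (nat_lit 0), (nat_lit 196)), ((nat_lit 41), (nat_lit 2), (nat_lit 223))])], ⟨(nat_lit 6), false, true, true, (nat_lit 258), (nat_lit 2738), (nat_lit 3163), [(nat_lit 1560952), (nat_lit 1559060), (nat_lit 1583107), (nat_lit 1581477), (nat_lit 1713335), (nat_lit 1706713), (nat_lit 1735490), (nat_lit 1729131)]⟩, ⟨(nat_lit 4), false, false, false, (nat_lit 158), (nat_lit 2738), (nat_lit 3163), [(nat_lit 1264456), (nat_lit 1270816), (nat_lit 1308742), (nat_lit 1315626), (nat_lit 1477844), (nat_lit 1477581), (nat_lit 1522142), (nat_lit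 1522405)]⟩, (nat_lit 4911173), (nat_lit 40652731), (nat_lit 18089718), (nat_lit 8257551), (nat_lit 4), (nat_lit 0), [], [], [], [⟨(nat_lit 0), (nat_lit 100), (nat_lit 95), (nat_lit 12), (nat_lit 105423741)⟩],
 ⟨⟨[(nat_lit 40), (nat_lit 80), (nat_lit 100)], [(nat_lit 0), (nat_lit 1598), (nat_lit 2533)], [((nat_lit 0), (nat_lit 0), (nat_lit 0)), ((nat_lit 1000), (nat_lit 625), (nat_lit 623)), ((nat_lit 1000), (nat_lit 604), (nat_lit 730))], ((nat_lit 61), (nat_lit 100), (nat_lit 68))⟩, (nat_lit 1387567), (nat_lit 169), (nat_lit 169), (nat_lit 0), (nat_lit 158875), [(nat_lit 1632777201), (nat_lit 3129819419), (nat_lit 3887066800)], [(nat_lit 0), (nat_lit 0), (nat_lit 0)], [(nat_lit 22726974927), (nat_lit 23308170040), (nat_lit 27385982597), (nat_lit 28024613837), (nat_lit 23907677321), (nat_lit 24396799527), (nat_lit 27658321245), (nat_lit 28123159936)], (nat_lit 1271251), (nat_lit 1271251), (nat_lit 1271251), (nat_lit 1271251), (nat_lit 356250), (nat_lit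 1423751), [(nat_lit 490000), (nat_lit 1100000), (nat_lit 1442501)], [(nat_lit 3), (nat_lit 50), (nat_lit 260), (nat_lit 50), (nat_lit 9)]⟩,
 ⟨⟨[(nat_lit 100), (nat_lit 140), (nat_lit 180)], [(nat_lit 0), (nat_lit 0), (nat_lit 2434)], [((nat_lit 0), (nat_lit 0), (nat_lit 0)), ((nat_lit 0), (nat_lit 0), (nat_lit 0)), ((nat_lit 726), (nat_lit 1000), (nat_lit 688))], ((nat_lit 100), (nat_lit 74), (nat_lit 67))⟩, (nat_lit 1926241), (nat_lit 485), (nat_lit 485), (nat_lit 0), (nat_lit 389621), [(nat_lit 3631250000), (nat_lit 5718202000), (nat_lit 8167698000)], [], [(nat_lit 22125604438), (nat_lit 22210898650), (nat_lit 24385347811), (nat_lit 24490022772), (nat_lit 19408210519), (nat_lit 19563265094), (nat_lit 21480497762), (nat_lit 21538355163)], (nat_lit 1271251), (nat_lit 1271251), (nat_lit 1271251), (nat_lit 1271251), (nat_lit 0), (nat_lit 780000), [(nat_lit 1412501), (nat_lit 1271251), (nat_lit 1271251)], [(nat_lit 24), (nat_lit 63), (nat_lit 401), (nat_lit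 175), (nat_lit 9)]⟩,
 ⟨⟨[(nat_lit 120), (nat_lit 160), (nat_lit 180)], [(nat_lit 0), (nat_lit 533), (nat_lit 2066)], [((nat_lit 0), (nat_lit 0), (nat_lit 0)), ((nat_lit 960), (nat_lit 1000), (nat_lit 200)), ((nat_lit 615), (nat_lit 1000), (nat_lit 729))], ((nat_lit 100), (nat_lit 67), (nat_lit 68))⟩, (nat_lit 135805), (nat_lit 300), (nat_lit 667), (nat_lit 3851200), (nat_lit 483262), [(nat_lit 462144000), (nat_lit 688576000), (nat_lit 815364000)], [], [(nat_lit 3608046372), (nat_lit 3400572868), (nat_lit 2852335435), (nat_lit 2794891484), (nat_lit 2656625775), (nat_lit 2606572603), (nat_lit 2795332623), (nat_lit 2157994901)], (nat_lit 1271251), (nat_lit 1271251), (nat_lit 356250), (nat_lit 1423751), (nat_lit 0), (nat_lit 780000), [(nat_lit 1695001), (nat_lit 1271251), (nat_lit 1271251)], [(nat_lit 28), (nat_lit 65), (nat_lit 373), (nat_lit 150), (nat_lit 9)]⟩⟩) (.trX (nat_lit 3) (nat_lit 0) (nat_lit 1) (nat_lit 53) (nat_lit 80) (nat_lit 100) (nat_lit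 330) (.trZ (nat_lit 0) (nat_lit 2) (nat_lit 4) (nat_lit 100) (nat_lit 53) (nat_lit 80) (nat_lit 70) (.spl (nat_lit 2) (nat_lit 200) (.leaf ⟨(nat_lit 877), (nat_lit 117), (nat_lit 0), (nat_lit 6), (nat_lit 0), (nat_lit 3291), (nat_lit 1361), (nat_lit 86), (nat_lit 0), (nat_lit 0), (nat_lit 350800), [((nat_lit 380), [((nat_lit 25), (nat_lit 1), (nat_lit 877))])], ⟨(nat_lit 6), false, true, true, (nat_lit 254), (nat_lit 2236), (nat_lit 2739), [(nat_lit 1559060), (nat_lit 1557014), (nat_lit 1581477), (nat_lit 1579788), (nat_lit 1691948), (nat_lit 1685299), (nat_lit 1714365), (nat_lit 1708073)]⟩, ⟨(nat_lit 4), false, false, false, (nat_lit 158), (nat_lit 2236), (nat_lit 2739), [(nat_lit 1285540), (nat_lit 1291832), (nat_lit 1307937), (nat_lit 1314586), (nat_lit 1477581), (nat_lit 1477224), (nat_lit 1499999), (nat_lit 1499999)]⟩, (nat_lit 4887515), (nat_lit 41040544), (nat_lit 17672302), (nat_lit 8287154), (nat_lit 4), (nat_lit 0), [⟨(nat_lit 1), (nat_lit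 85), (nat_lit 48), (nat_lit 100), (nat_lit 253438341)⟩], [], [], [⟨(nat_lit 0), (nat_lit 100), (nat_lit 96), (nat_lit 11), (nat_lit 29447959)⟩],
 ⟨⟨[(nat_lit 40), (nat_lit 60), (nat_lit 80)], [(nat_lit 0), (nat_lit 1134), (nat_lit 1930)], [((nat_lit 0), (nat_lit 0), (nat_lit 0)), ((nat_lit 1000), (nat_lit 575), (nat_lit 619)), ((nat_lit 1000), (nat_lit 574), (nat_lit 622))], ((nat_lit 55), (nat_lit 100), (nat_lit 70))⟩, (nat_lit 0), (nat_lit 163), (nat_lit 163), (nat_lit 0), (nat_lit 211404), [(nat_lit 1433518826), (nat_lit 1286323892), (nat_lit 1412931200)], [(nat_lit 0), (nat_lit 0), (nat_lit 0)], [(nat_lit 23214178679), (nat_lit 23790693569), (nat_lit 26927248803), (nat_lit 27569371617), (nat_lit 24582677984), (nat_lit 25093662135), (nat_lit 27609232609), (nat_lit 28052313023)], (nat_lit 1271251), (nat_lit 1271251), (nat_lit 1271251), (nat_lit 1271251), (nat_lit 422188), (nat_lit 1425626), [(nat_lit 490000), (nat_lit 780000), (nat_lit 1100000)],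 [(nat_lit 2), (nat_lit 44), (nat_lit 260), (nat_lit 50), (nat_lit 10)]⟩,
 ⟨⟨[(nat_lit 100), (nat_lit 140), (nat_lit 180)], [(nat_lit 0), (nat_lit 0), (nat_lit 2434)], [((nat_lit 0), (nat_lit 0), (nat_lit 0)), ((nat_lit 0), (nat_lit 0), (nat_lit 0)), ((nat_lit 726), (nat_lit 1000), (nat_lit 688))], ((nat_lit 100), (nat_lit 74), (nat_lit 67))⟩, (nat_lit 392271), (nat_lit 606), (nat_lit 606), (nat_lit 0), (nat_lit 589122), [(nat_lit 768750000), (nat_lit 1210566000), (nat_lit 1729134000)], [], [(nat_lit 4664059126), (nat_lit 4654565912), (nat_lit 5013604512), (nat_lit 5004605253), (nat_lit 3744580545), (nat_lit 3752692640), (nat_lit 4072586703), (nat_lit 4060476394)], (nat_lit 1271251), (nat_lit 1271251), (nat_lit 1271251), (nat_lit 1271251), (nat_lit 0), (nat_lit 780000), [(nat_lit 1412501), (nat_lit 1271251), (nat_lit 1271251)], [(nat_lit 24), (nat_lit 63), (nat_lit 401), (nat_lit 175), (nat_lit 9)]⟩,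
 ⟨⟨[(nat_lit 120), (nat_lit 160), (nat_lit 180)], [(nat_lit 0), (nat_lit 533), (nat_lit 2066)], [((nat_lit 0), (nat_lit 0), (nat_lit 0)), ((nat_lit 960), (nat_lit 1000), (nat_lit 200)), ((nat_lit 615), (nat_lit 1000), (nat_lit 729))], ((nat_lit 100), (nat_lit 67), (nat_lit 68))⟩, (nat_lit 14049), (nat_lit 300), (nat_lit 787), (nat_lit 398400), (nat_lit 742727), [(nat_lit 47808000), (nat_lit 71232000), (nat_lit 84348000)], [], [(nat_lit 363877130), (nat_lit 352874376), (nat_lit 291751701), (nat_lit 289212240), (nat_lit 264174572), (nat_lit 261477407), (nat_lit 290924161), (nat_lit 249539800)], (nat_lit 1271251), (nat_lit 1271251), (nat_lit 422188), (nat_lit 1425626), (nat_lit 0), (nat_lit 780000), [(nat_lit 1695001), (nat_lit 1271251), (nat_lit 1271251)], [(nat_lit 28), (nat_lit 65), (nat_lit 373), (nat_lit 150), (nat_lit 9)]⟩⟩) (.trZ (nat_lit 0) (nat_lit 2) (nat_lit 4) (nat_lit 100) (nat_lit 53) (nat_lit 85) (nat_lit 90) (.leaf ⟨(nat_lit 878), (nat_lit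 48), (nat_lit 0), (nat_lit 74), (nat_lit 0), (nat_lit 3184), (nat_lit 1353), (nat_lit 1142), (nat_lit 0), (nat_lit 55230920), (nat_lit 351200), [((nat_lit 380), [((nat_lit 25), (nat_lit 1), (nat_lit 878))])], ⟨(nat_lit 6), false, true, true, (nat_lit 254), (nat_lit 2236), (nat_lit 2739), [(nat_lit 1559060), (nat_lit 1557014), (nat_lit 1581477), (nat_lit 1579788), (nat_lit 1691948), (nat_lit 1685299), (nat_lit 1714365), (nat_lit 1708073)]⟩, ⟨(nat_lit 5), false, false, false, (nat_lit 173), (nat_lit 2236), (nat_lit 2739), [(nat_lit 1337485), (nat_lit 1343111), (nat_lit 1359882), (nat_lit 1365865), (nat_lit 1499999), (nat_lit 1499999), (nat_lit 1522397), (nat_lit 1522754)]⟩, (nat_lit 5018020), (nat_lit 40174982), (nat_lit 17419769), (nat_lit 9405249), (nat_lit 5), (nat_lit 0), [⟨(nat_lit 1), (nat_lit 85), (nat_lit 48), (nat_lit 100), (nat_lit 233230700)⟩], [⟨(nat_lit 0), (nat_lit 100), (nat_lit 44), (nat_lit 94), (nat_lit 98032647)⟩], [⟨(nat_lit 0), (nat_lit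 100), (nat_lit 100), (nat_lit 20), (nat_lit 73314051)⟩], [],
 ⟨⟨[(nat_lit 40), (nat_lit 60), (nat_lit 80)], [(nat_lit 0), (nat_lit 1134), (nat_lit 1930)], [((nat_lit 0), (nat_lit 0), (nat_lit 0)), ((nat_lit 1000), (nat_lit 575), (nat_lit 619)), ((nat_lit 1000), (nat_lit 574), (nat_lit 622))], ((nat_lit 55), (nat_lit 100), (nat_lit 70))⟩, (nat_lit 39031), (nat_lit 152), (nat_lit 152), (nat_lit 0), (nat_lit 220977), [(nat_lit 1433103257), (nat_lit 1297209043), (nat_lit 1409196800)], [(nat_lit 0), (nat_lit 0), (nat_lit 0)], [(nat_lit 23253740075), (nat_lit 23810933442), (nat_lit 26623359456), (nat_lit 27108642454), (nat_lit 24709843746), (nat_lit 25213845264), (nat_lit 27668610993), (nat_lit 28091908576)], (nat_lit 1271251), (nat_lit 1271251), (nat_lit 1271251), (nat_lit 1271251), (nat_lit 559688), (nat_lit 1429376), [(nat_lit 490000), (nat_lit 780000), (nat_lit 1100000)], [(nat_lit 2), (nat_lit 44), (nat_lit 260), (nat_lit 50), (nat_lit 10)]⟩,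
 ⟨⟨[(nat_lit 100), (nat_lit 140), (nat_lit 180)], [(nat_lit 0), (nat_lit 0), (nat_lit 2434)], [((nat_lit 0), (nat_lit 0), (nat_lit 0)), ((nat_lit 0), (nat_lit 0), (nat_lit 0)), ((nat_lit 726), (nat_lit 1000), (nat_lit 688))], ((nat_lit 100), (nat_lit 74), (nat_lit 67))⟩, (nat_lit 392093), (nat_lit 610), (nat_lit 610), (nat_lit 0), (nat_lit 598566), [(nat_lit 762500000), (nat_lit 1200724000), (nat_lit 1715076000)], [], [(nat_lit 4613278826), (nat_lit 4603734490), (nat_lit 4967078912), (nat_lit 4958186286), (nat_lit 3705590082), (nat_lit 3713545579), (nat_lit 4031130604), (nat_lit 4018989169)], (nat_lit 1271251), (nat_lit 1271251), (nat_lit 1271251), (nat_lit 1271251), (nat_lit 0), (nat_lit 780000), [(nat_lit 1412501), (nat_lit 1271251), (nat_lit 1271251)], [(nat_lit 24), (nat_lit 63), (nat_lit 401), (nat_lit 175), (nat_lit 9)]⟩,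
 ⟨⟨[(nat_lit 100), (nat_lit 140), (nat_lit 180)], [(nat_lit 0), (nat_lit 0), (nat_lit 2434)], [((nat_lit 0), (nat_lit 0), (nat_lit 0)), ((nat_lit 0), (nat_lit 0), (nat_lit 0)), ((nat_lit 726), (nat_lit 1000), (nat_lit 688))], ((nat_lit 100), (nat_lit 74), (nat_lit 67))⟩, (nat_lit 42685), (nat_lit 300), (nat_lit 671), (nat_lit 5202204), (nat_lit 598566), [(nat_lit 462500000), (nat_lit 728308000), (nat_lit 1040292000)], [], [(nat_lit 4024417858), (nat_lit 3986222820), (nat_lit 3649220240), (nat_lit 3636764004), (nat_lit 3091847758), (nat_lit 3053901729), (nat_lit 4196023825), (nat_lit 3668412688)], (nat_lit 1271251), (nat_lit 1271251), (nat_lit 559688), (nat_lit 1429376), (nat_lit 0), (nat_lit 780000), [(nat_lit 1412501), (nat_lit 1271251), (nat_lit 1271251)], [(nat_lit 24), (nat_lit 63), (nat_lit 373), (nat_lit 150), (nat_lit 9)]⟩⟩))))))) (.spl (nat_lit 0) (nat_lit 370) (.leaf ⟨(nat_lit 875), (nat_lit 0), (nat_lit 0), (nat_lit 125), (nat_lit 0), (nat_lit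 2971), (nat_lit 1574), (nat_lit 1360), (nat_lit 0), (nat_lit 69494706437), (nat_lit 496650), [((nat_lit 370), [((nat_lit 25), (nat_lit 0), (nat_lit 81)), ((nat_lit 41), (nat_lit 2), (nat_lit 794))])], ⟨(nat_lit 6), false, true, true, (nat_lit 254), (nat_lit 2738), (nat_lit 3163), [(nat_lit 1538797), (nat_lit 1536642), (nat_lit 1583107), (nat_lit 1581477), (nat_lit 1691180), (nat_lit 1684296), (nat_lit 1735490), (nat_lit 1729131)]⟩, ⟨(nat_lit 4), false, false, false, (nat_lit 158), (nat_lit 2738), (nat_lit 3163), [(nat_lit 1264456), (nat_lit 1270816), (nat_lit 1308742), (nat_lit 1315626), (nat_lit 1477844), (nat_lit 1477581), (nat_lit 1522142), (nat_lit 1522405)]⟩, (nat_lit 4890514), (nat_lit 41013772), (nat_lit 17682392), (nat_lit 8303836), (nat_lit 0), (nat_lit 0), [⟨(nat_lit 1), (nat_lit 83), (nat_lit 57), (nat_lit 100), (nat_lit 190786590)⟩], [⟨(nat_lit 0), (nat_lit 100), (nat_lit 57), (nat_lit 83), (nat_lit 18947781)⟩], [], [],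
 ⟨⟨[(nat_lit 40), (nat_lit 80), (nat_lit 100)], [(nat_lit 0), (nat_lit 1598), (nat_lit 2533)], [((nat_lit 0), (nat_lit 0), (nat_lit 0)), ((nat_lit 1000), (nat_lit 625), (nat_lit 623)), ((nat_lit 1000), (nat_lit 604), (nat_lit 730))], ((nat_lit 61), (nat_lit 100), (nat_lit 68))⟩, (nat_lit 21693), (nat_lit 169), (nat_lit 169), (nat_lit 0), (nat_lit 158926), [(nat_lit 1376271603), (nat_lit 702303770), (nat_lit 385574430)], [(nat_lit 0), (nat_lit 0), (nat_lit 0)], [(nat_lit 22910543250), (nat_lit 23408742739), (nat_lit 26603933761), (nat_lit 27205196196), (nat_lit 24249356537), (nat_lit 24712531842), (nat_lit 27491955198), (nat_lit 27933256134)], (nat_lit 1271251), (nat_lit 1271251), (nat_lit 1271251), (nat_lit 1271251), (nat_lit 356250), (nat_lit 1423751), [(nat_lit 490000), (nat_lit 1100000), (nat_lit 1442501)], [(nat_lit 3), (nat_lit 50), (nat_lit 260), (nat_lit 50), (nat_lit 9)]⟩,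
 ⟨⟨[(nat_lit 120), (nat_lit 160), (nat_lit 180)], [(nat_lit 0), (nat_lit 533), (nat_lit 2066)], [((nat_lit 0), (nat_lit 0), (nat_lit 0)), ((nat_lit 960), (nat_lit 1000), (nat_lit 200)), ((nat_lit 615), (nat_lit 1000), (nat_lit 729))], ((nat_lit 100), (nat_lit 67), (nat_lit 68))⟩, (nat_lit 351057), (nat_lit 561), (nat_lit 561), (nat_lit 0), (nat_lit 674347), [(nat_lit 996000000), (nat_lit 1484000000), (nat_lit 1757250000)], [], [(nat_lit 4003060689), (nat_lit 3946095356), (nat_lit 4283200762), (nat_lit 4242860206), (nat_lit 4940617076), (nat_lit 4482278119), (nat_lit 5202993850), (nat_lit 5180047414)], (nat_lit 1271251), (nat_lit 1271251), (nat_lit 1271251), (nat_lit 1271251), (nat_lit 780000), (nat_lit 3072501), [(nat_lit 1695001), (nat_lit 1271251), (nat_lit 1271251)], [(nat_lit 28), (nat_lit 65), (nat_lit 483), (nat_lit 250), (nat_lit 11)]⟩,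
 ⟨⟨[(nat_lit 120), (nat_lit 160), (nat_lit 180)], [(nat_lit 0), (nat_lit 533), (nat_lit 2066)], [((nat_lit 0), (nat_lit 0), (nat_lit 0)), ((nat_lit 960), (nat_lit 1000), (nat_lit 200)), ((nat_lit 615), (nat_lit 1000), (nat_lit 729))], ((nat_lit 100), (nat_lit 67), (nat_lit 68))⟩, (nat_lit 292683), (nat_lit 300), (nat_lit 654), (nat_lit 8300000), (nat_lit 674347), [(nat_lit 996000000), (nat_lit 1484000000), (nat_lit 1757250000)], [], [(nat_lit 6408174325), (nat_lit 6317484534), (nat_lit 5838854000), (nat_lit 5622700495), (nat_lit 8600660600), (nat_lit 7352572280), (nat_lit 10644873340), (nat_lit 9451701820)], (nat_lit 1271251), (nat_lit 1271251), (nat_lit 356250), (nat_lit 1423751), (nat_lit 780000), (nat_lit 3072501), [(nat_lit 1695001), (nat_lit 1271251), (nat_lit 1271251)], [(nat_lit 28), (nat_lit 65), (nat_lit 456), (nat_lit 225), (nat_lit 11)]⟩⟩) (.trX (nat_lit 3) (nat_lit 0) (nat_lit 1) (nat_lit 53) (nat_lit 80) (nat_lit 100) (nat_lit 330) (.trZ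 (nat_lit 0) (nat_lit 2) (nat_lit 4) (nat_lit 100) (nat_lit 53) (nat_lit 80) (nat_lit 70) (.leaf ⟨(nat_lit 917), (nat_lit 0), (nat_lit 0), (nat_lit 83), (nat_lit 0), (nat_lit 3238), (nat_lit 1018), (nat_lit 834), (nat_lit 0), (nat_lit 743189), (nat_lit 345950), [((nat_lit 380), [((nat_lit 25), (nat_lit 0), (nat_lit 139)), ((nat_lit 25), (nat_lit 1), (nat_lit 778))])], ⟨(nat_lit 6), false, true, true, (nat_lit 249), (nat_lit 2236), (nat_lit 2739), [(nat_lit 1536642), (nat_lit 1534240), (nat_lit 1581477), (nat_lit 1579788), (nat_lit 1669530), (nat_lit 1662525), (nat_lit 1714365), (nat_lit 1708073)]⟩, ⟨(nat_lit 4), false, false, false, (nat_lit 162), (nat_lit 2236), (nat_lit 2739), [(nat_lit 1285540), (nat_lit 1291832), (nat_lit 1330334), (nat_lit 1337340), (nat_lit 1477581), (nat_lit 1477224), (nat_lit 1522397), (nat_lit 1522754)]⟩, (nat_lit 4906568), (nat_lit 41141558), (nat_lit 17185814), (nat_lit 8672628), (nat_lit 0), (nat_lit 0), [⟨(nat_lit 1), (nat_lit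 88), (nat_lit 48), (nat_lit 100), (nat_lit 329463699)⟩], [⟨(nat_lit 0), (nat_lit 100), (nat_lit 48), (nat_lit 88), (nat_lit 50257184)⟩], [], [],
 ⟨⟨[(nat_lit 40), (nat_lit 60), (nat_lit 80)], [(nat_lit 0), (nat_lit 1134), (nat_lit 1930)], [((nat_lit 0), (nat_lit 0), (nat_lit 0)), ((nat_lit 1000), (nat_lit 575), (nat_lit 619)), ((nat_lit 1000), (nat_lit 574), (nat_lit 622))], ((nat_lit 55), (nat_lit 100), (nat_lit 70))⟩, (nat_lit 0), (nat_lit 166), (nat_lit 166), (nat_lit 0), (nat_lit 221135), [(nat_lit 1437133222), (nat_lit 1231717354), (nat_lit 1369473200)], [(nat_lit 0), (nat_lit 0), (nat_lit 0)], [(nat_lit 23212867270), (nat_lit 23811641801), (nat_lit 26838983913), (nat_lit 27476416995), (nat_lit 24649011766), (nat_lit 25167270191), (nat_lit 27732019366), (nat_lit 28172397325)], (nat_lit 1271251), (nat_lit 1271251), (nat_lit 1271251), (nat_lit 1271251), (nat_lit 422188), (nat_lit 1425626), [(nat_lit 490000), (nat_lit 780000), (nat_lit 1100000)],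 [(nat_lit 2), (nat_lit 44), (nat_lit 260), (nat_lit 50), (nat_lit 10)]⟩,
 ⟨⟨[(nat_lit 120), (nat_lit 160), (nat_lit 180)], [(nat_lit 0), (nat_lit 533), (nat_lit 2066)], [((nat_lit 0), (nat_lit 0), (nat_lit 0)), ((nat_lit 960), (nat_lit 1000), (nat_lit 200)), ((nat_lit 615), (nat_lit 1000), (nat_lit 729))], ((nat_lit 100), (nat_lit 67), (nat_lit 68))⟩, (nat_lit 227823), (nat_lit 738), (nat_lit 738), (nat_lit 0), (nat_lit 1034267), [(nat_lit 661344000), (nat_lit 985376000), (nat_lit 1166814000)], [], [(nat_lit 2737837640), (nat_lit 2702551693), (nat_lit 2865628102), (nat_lit 2814906138), (nat_lit 3271439180), (nat_lit 2993233001), (nat_lit 3341786813), (nat_lit 3335217731)], (nat_lit 1271251), (nat_lit 1271251), (nat_lit 1271251), (nat_lit 1271251), (nat_lit 780000), (nat_lit 3072501), [(nat_lit 1695001), (nat_lit 1271251), (nat_lit 1271251)], [(nat_lit 28), (nat_lit 65), (nat_lit 483), (nat_lit 250), (nat_lit 11)]⟩,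
 ⟨⟨[(nat_lit 120), (nat_lit 160), (nat_lit 180)], [(nat_lit 0), (nat_lit 533), (nat_lit 2066)], [((nat_lit 0), (nat_lit 0), (nat_lit 0)), ((nat_lit 960), (nat_lit 1000), (nat_lit 200)), ((nat_lit 615), (nat_lit 1000), (nat_lit 729))], ((nat_lit 100), (nat_lit 67), (nat_lit 68))⟩, (nat_lit 194341), (nat_lit 300), (nat_lit 822), (nat_lit 5511202), (nat_lit 1034267), [(nat_lit 661344000), (nat_lit 985376000), (nat_lit 1166814000)], [], [(nat_lit 4585011750), (nat_lit 4512517739), (nat_lit 4199116683), (nat_lit 4127188468), (nat_lit 5616472576), (nat_lit 4853657812), (nat_lit 6856068576), (nat_lit 6124373688)], (nat_lit 1271251), (nat_lit 1271251), (nat_lit 422188), (nat_lit 1425626), (nat_lit 780000), (nat_lit 3072501), [(nat_lit 1695001), (nat_lit 1271251), (nat_lit 1271251)], [(nat_lit 28), (nat_lit 65), (nat_lit 456), (nat_lit 225), (nat_lit 11)]⟩⟩)))))))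
noncomputable def c16_22 : Tr Lf :=
 (.spl (nat_lit 5) (nat_lit 120) (.spl (nat_lit 4) (nat_lit 120) (.leaf ⟨(nat_lit 171), (nat_lit 829), (nat_lit 0), (nat_lit 0), (nat_lit 0), (nat_lit 3912), (nat_lit 6836), (nat_lit 0), (nat_lit 0), (nat_lit 77765), (nat_lit 167000), [((nat_lit 380), [((nat_lit 41), (nat_lit 2), (nat_lit 10)), ((nat_lit 25), (nat_lit 2), (nat_lit 161))])], ⟨(nat_lit 6), false, true, true, (nat_lit 270), (nat_lit 2236), (nat_lit 3163), [(nat_lit 1583107), (nat_lit 1579788), (nat_lit 1605240), (nat_lit 1602541), (nat_lit 1750729), (nat_lit 1736581), (nat_lit 1772883), (nat_lit 1759355)]⟩, ⟨(nat_lit 4), false, false, false, (nat_lit 139), (nat_lit 2236), (nat_lit 3163), [(nat_lit 1264208), (nat_lit 1277371), (nat_lit 1330482), (nat_lit 1345503), (nat_lit 1355794), (nat_lit 1363050), (nat_lit 1422068), (nat_lit 1431182)]⟩, (nat_lit 4781728), (nat_lit 40754732), (nat_lit 19425513), (nat_lit 6819755), (nat_lit 4), (nat_lit 0), [], [⟨(nat_lit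 0), (nat_lit 100), (nat_lit 44), (nat_lit 99), (nat_lit 889527227)⟩], [⟨(nat_lit 0), (nat_lit 100), (nat_lit 99), (nat_lit 20), (nat_lit 44004052)⟩], [],
 ⟨⟨[(nat_lit 40), (nat_lit 80), (nat_lit 100)], [(nat_lit 0), (nat_lit 1598), (nat_lit 2533)], [((nat_lit 0), (nat_lit 0), (nat_lit 0)), ((nat_lit 1000), (nat_lit 625), (nat_lit 623)), ((nat_lit 1000), (nat_lit 604), (nat_lit 730))], ((nat_lit 61), (nat_lit 100), (nat_lit 68))⟩, (nat_lit 1326815), (nat_lit 188), (nat_lit 188), (nat_lit 0), (nat_lit 187614), [(nat_lit 1784780801), (nat_lit 3553520013), (nat_lit 4546399200)], [(nat_lit 0), (nat_lit 0), (nat_lit 0)], [(nat_lit 23191411273), (nat_lit 24572256180), (nat_lit 28926894616), (nat_lit 30251245968), (nat_lit 23041979913), (nat_lit 24094997854), (nat_lit 28059865902), (nat_lit 29311645676)], (nat_lit 1271251), (nat_lit 1271251), (nat_lit 1271251), (nat_lit 1271251), (nat_lit 356250), (nat_lit 780000), [(nat_lit 490000), (nat_lit 1100000), (nat_lit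 1442501)], [(nat_lit 3), (nat_lit 50), (nat_lit 238), (nat_lit 30), (nat_lit 8)]⟩,
 ⟨⟨[(nat_lit 100), (nat_lit 140), (nat_lit 160)], [(nat_lit 0), (nat_lit 508), (nat_lit 1689)], [((nat_lit 0), (nat_lit 0), (nat_lit 0)), ((nat_lit 1000), (nat_lit 1000), (nat_lit 198)), ((nat_lit 811), (nat_lit 1000), (nat_lit 671))], ((nat_lit 100), (nat_lit 81), (nat_lit 68))⟩, (nat_lit 8011578), (nat_lit 521), (nat_lit 521), (nat_lit 0), (nat_lit 561359), [(nat_lit 5181250000), (nat_lit 8159018000), (nat_lit 9841888000)], [], [(nat_lit 24264541468), (nat_lit 24420950124), (nat_lit 27250042452), (nat_lit 27410649016), (nat_lit 20634998656), (nat_lit 20754488136), (nat_lit 23486260125), (nat_lit 23629851701)], (nat_lit 1271251), (nat_lit 1271251), (nat_lit 1271251), (nat_lit 1271251), (nat_lit 0), (nat_lit 780000), [(nat_lit 1412501), (nat_lit 1271251), (nat_lit 1271251)], [(nat_lit 23), (nat_lit 62), (nat_lit 428), (nat_lit 200), (nat_lit 11)]⟩,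
 Rw.none⟩) (.leaf ⟨(nat_lit 555), (nat_lit 273), (nat_lit 0), (nat_lit 172), (nat_lit 0), (nat_lit 3394), (nat_lit 3669), (nat_lit 2473), (nat_lit 0), (nat_lit 1588273), (nat_lit 276650), [((nat_lit 380), [((nat_lit 25), (nat_lit 0), (nat_lit 161)), ((nat_lit 41), (nat_lit 2), (nat_lit 394))])], ⟨(nat_lit 6), false, true, true, (nat_lit 270), (nat_lit 2236), (nat_lit 3163), [(nat_lit 1583107), (nat_lit 1579788), (nat_lit 1605240), (nat_lit 1602541), (nat_lit 1750729), (nat_lit 1736581), (nat_lit 1772883), (nat_lit 1759355)]⟩, ⟨(nat_lit 4), false, false, false, (nat_lit 181), (nat_lit 2236), (nat_lit 3163), [(nat_lit 1355794), (nat_lit 1363050), (nat_lit 1422068), (nat_lit 1431182), (nat_lit 1477844), (nat_lit 1477224), (nat_lit 1544182), (nat_lit 1545421)]⟩, (nat_lit 5149041), (nat_lit 38505151), (nat_lit 18659874), (nat_lit 9834975), (nat_lit 4), (nat_lit 0), [⟨(nat_lit 1), (nat_lit 77), (nat_lit 53), (nat_lit 100), (nat_lit 38445234)⟩], [⟨(nat_lit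 0), (nat_lit 100), (nat_lit 44), (nat_lit 99), (nat_lit 103539280)⟩], [⟨(nat_lit 0), (nat_lit 100), (nat_lit 99), (nat_lit 20), (nat_lit 164803061)⟩], [⟨(nat_lit 0), (nat_lit 100), (nat_lit 90), (nat_lit 30), (nat_lit 10993298)⟩],
 ⟨⟨[(nat_lit 40), (nat_lit 80), (nat_lit 100)], [(nat_lit 0), (nat_lit 1598), (nat_lit 2533)], [((nat_lit 0), (nat_lit 0), (nat_lit 0)), ((nat_lit 1000), (nat_lit 625), (nat_lit 623)), ((nat_lit 1000), (nat_lit 604), (nat_lit 730))], ((nat_lit 61), (nat_lit 100), (nat_lit 68))⟩, (nat_lit 772631), (nat_lit 179), (nat_lit 179), (nat_lit 0), (nat_lit 267898), [(nat_lit 1556111610), (nat_lit 2341568423), (nat_lit 2840774400)], [(nat_lit 0), (nat_lit 0), (nat_lit 0)], [(nat_lit 23308702640), (nat_lit 24298650658), (nat_lit 27393944824), (nat_lit 28523234525), (nat_lit 24430226837), (nat_lit 25404234580), (nat_lit 28278723798), (nat_lit 29136264645)], (nat_lit 1271251), (nat_lit 1271251), (nat_lit 1271251), (nat_lit 1271251), (nat_lit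 780000), (nat_lit 1435001), [(nat_lit 490000), (nat_lit 1100000), (nat_lit 1442501)], [(nat_lit 3), (nat_lit 50), (nat_lit 260), (nat_lit 50), (nat_lit 8)]⟩,
 ⟨⟨[(nat_lit 100), (nat_lit 140), (nat_lit 160)], [(nat_lit 0), (nat_lit 508), (nat_lit 1689)], [((nat_lit 0), (nat_lit 0), (nat_lit 0)), ((nat_lit 1000), (nat_lit 1000), (nat_lit 198)), ((nat_lit 811), (nat_lit 1000), (nat_lit 671))], ((nat_lit 100), (nat_lit 81), (nat_lit 68))⟩, (nat_lit 4300545), (nat_lit 521), (nat_lit 521), (nat_lit 0), (nat_lit 561359), [(nat_lit 2781250000), (nat_lit 4379690000), (nat_lit 5283040000)], [], [(nat_lit 13026549454), (nat_lit 13110502396), (nat_lit 14629010337), (nat_lit 14714119806), (nat_lit 11078598212), (nat_lit 11142753552), (nat_lit 12609030033), (nat_lit 12686121911)], (nat_lit 1271251), (nat_lit 1271251), (nat_lit 1271251), (nat_lit 1271251), (nat_lit 0), (nat_lit 780000), [(nat_lit 1412501), (nat_lit 1271251), (nat_lit 1271251)], [(nat_lit 23), (nat_lit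 62), (nat_lit 428), (nat_lit 200), (nat_lit 11)]⟩,
 ⟨⟨[(nat_lit 120), (nat_lit 160), (nat_lit 180)], [(nat_lit 0), (nat_lit 533), (nat_lit 2066)], [((nat_lit 0), (nat_lit 0), (nat_lit 0)), ((nat_lit 960), (nat_lit 1000), (nat_lit 200)), ((nat_lit 615), (nat_lit 1000), (nat_lit 729))], ((nat_lit 100), (nat_lit 67), (nat_lit 68))⟩, (nat_lit 402732), (nat_lit 300), (nat_lit 794), (nat_lit 11420800), (nat_lit 832787), [(nat_lit 1370496000), (nat_lit 2041984000), (nat_lit 2417976000)], [], [(nat_lit 9160590237), (nat_lit 8704452806), (nat_lit 8352023968), (nat_lit 8244720668), (nat_lit 6966109939), (nat_lit 6725602935), (nat_lit 8442759670), (nat_lit 6178456414)], (nat_lit 1271251), (nat_lit 1271251), (nat_lit 780000), (nat_lit 1435001), (nat_lit 0), (nat_lit 780000), [(nat_lit 1695001), (nat_lit 1271251), (nat_lit 1271251)], [(nat_lit 28), (nat_lit 65), (nat_lit 373), (nat_lit 150), (nat_lit 9)]⟩⟩)) (.spl (nat_lit 4) (nat_lit 120) (.trX (nat_lit 5) (nat_lit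 3) (nat_lit 4) (nat_lit 100) (nat_lit 59) (nat_lit 94) (nat_lit 370) (.leaf ⟨(nat_lit 0), (nat_lit 33), (nat_lit 0), (nat_lit 967), (nat_lit 0), (nat_lit 4138), (nat_lit 9170), (nat_lit 10742), (nat_lit 0), (nat_lit 20337), (nat_lit 0), [], Pd.none, Pd.none, (nat_lit 0), (nat_lit 1), (nat_lit 0), (nat_lit 0), (nat_lit 4), (nat_lit 0), [], [⟨(nat_lit 0), (nat_lit 100), (nat_lit 53), (nat_lit 88), (nat_lit 1754563639)⟩], [], [],
 ⟨⟨[(nat_lit 40), (nat_lit 80), (nat_lit 100)], [(nat_lit 0), (nat_lit 1598), (nat_lit 2533)], [((nat_lit 0), (nat_lit 0), (nat_lit 0)), ((nat_lit 1000), (nat_lit 625), (nat_lit 623)), ((nat_lit 1000), (nat_lit 604), (nat_lit 730))], ((nat_lit 61), (nat_lit 100), (nat_lit 68))⟩, (nat_lit 1836858), (nat_lit 188), (nat_lit 188), (nat_lit 0), (nat_lit 187614), [(nat_lit 2032000009), (nat_lit 4688000023), (nat_lit 6250000000)], [], [(nat_lit 23749852835), (nat_lit 24902735133), (nat_lit 29348006956), (nat_lit 30709229353), (nat_lit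 23530058070), (nat_lit 24625593358), (nat_lit 28369780211), (nat_lit 29655624287)], (nat_lit 1271251), (nat_lit 1271251), (nat_lit 1271251), (nat_lit 1271251), (nat_lit 356250), (nat_lit 780000), [(nat_lit 490000), (nat_lit 1100000), (nat_lit 1442501)], [(nat_lit 3), (nat_lit 50), (nat_lit 238), (nat_lit 30), (nat_lit 8)]⟩,
 ⟨⟨[(nat_lit 100), (nat_lit 140), (nat_lit 160)], [(nat_lit 0), (nat_lit 508), (nat_lit 1689)], [((nat_lit 0), (nat_lit 0), (nat_lit 0)), ((nat_lit 1000), (nat_lit 1000), (nat_lit 198)), ((nat_lit 811), (nat_lit 1000), (nat_lit 671))], ((nat_lit 100), (nat_lit 81), (nat_lit 68))⟩, (nat_lit 6554416), (nat_lit 527), (nat_lit 527), (nat_lit 0), (nat_lit 785239), [(nat_lit 6250000000), (nat_lit 9842000000), (nat_lit 11872000000)], [], [(nat_lit 25861433161), (nat_lit 25983036016), (nat_lit 29038428725), (nat_lit 28985998921), (nat_lit 29151677765), (nat_lit 29336018387), (nat_lit 35335835804), (nat_lit 35470074474)], (nat_lit 1271251),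 (nat_lit 1271251), (nat_lit 1271251), (nat_lit 1271251), (nat_lit 780000), (nat_lit 2826876), [(nat_lit 1412501), (nat_lit 1271251), (nat_lit 1271251)], [(nat_lit 23), (nat_lit 62), (nat_lit 483), (nat_lit 250), (nat_lit 12)]⟩,
 ⟨⟨[(nat_lit 120), (nat_lit 160), (nat_lit 180)], [(nat_lit 0), (nat_lit 533), (nat_lit 2066)], [((nat_lit 0), (nat_lit 0), (nat_lit 0)), ((nat_lit 960), (nat_lit 1000), (nat_lit 200)), ((nat_lit 615), (nat_lit 1000), (nat_lit 729))], ((nat_lit 100), (nat_lit 67), (nat_lit 68))⟩, (nat_lit 2264195), (nat_lit 300), (nat_lit 633), (nat_lit 64208801), (nat_lit 628718), [(nat_lit 7705056000), (nat_lit 11480224000), (nat_lit 13594086000)], [], [(nat_lit 48990599682), (nat_lit 48207796842), (nat_lit 45785903968), (nat_lit 44928766244), (nat_lit 63030178112), (nat_lit 48092747344), (nat_lit 68003200390), (nat_lit 53357798614)], (nat_lit 1271251), (nat_lit 1271251), (nat_lit 356250), (nat_lit 780000), (nat_lit 780000), (nat_lit 2826876),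 [(nat_lit 1695001), (nat_lit 1271251), (nat_lit 1271251)], [(nat_lit 28), (nat_lit 65), (nat_lit 428), (nat_lit 200), (nat_lit 10)]⟩⟩)) (.leaf ⟨(nat_lit 393), (nat_lit 264), (nat_lit 0), (nat_lit 343), (nat_lit 0), (nat_lit 3754), (nat_lit 5152), (nat_lit 3156), (nat_lit 0), (nat_lit 368313), (nat_lit 165100), [((nat_lit 380), [((nat_lit 25), (nat_lit 0), (nat_lit 202)), ((nat_lit 41), (nat_lit 2), (nat_lit 191))])], ⟨(nat_lit 6), false, true, true, (nat_lit 270), (nat_lit 2236), (nat_lit 3163), [(nat_lit 1583107), (nat_lit 1579788), (nat_lit 1605240), (nat_lit 1602541), (nat_lit 1750729), (nat_lit 1736581), (nat_lit 1772883), (nat_lit 1759355)]⟩, ⟨(nat_lit 4), false, false, false, (nat_lit 181), (nat_lit 2236), (nat_lit 3163), [(nat_lit 1355794), (nat_lit 1363050), (nat_lit 1422068), (nat_lit 1431182), (nat_lit 1477844), (nat_lit 1477224), (nat_lit 1544182), (nat_lit 1545421)]⟩, (nat_lit 5149041), (nat_lit 38505151), (nat_lit 18659874), (nat_lit 9834975),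 (nat_lit 4), (nat_lit 0), [], [⟨(nat_lit 0), (nat_lit 100), (nat_lit 44), (nat_lit 99), (nat_lit 294198053)⟩], [], [],
 ⟨⟨[(nat_lit 40), (nat_lit 80), (nat_lit 100)], [(nat_lit 0), (nat_lit 1598), (nat_lit 2533)], [((nat_lit 0), (nat_lit 0), (nat_lit 0)), ((nat_lit 1000), (nat_lit 625), (nat_lit 623)), ((nat_lit 1000), (nat_lit 604), (nat_lit 730))], ((nat_lit 61), (nat_lit 100), (nat_lit 68))⟩, (nat_lit 1275470), (nat_lit 179), (nat_lit 179), (nat_lit 0), (nat_lit 267898), [(nat_lit 1647272444), (nat_lit 3182082660), (nat_lit 4085135600)], [(nat_lit 0), (nat_lit 0), (nat_lit 0)], [(nat_lit 22626606922), (nat_lit 23764189652), (nat_lit 27843200147), (nat_lit 29071165055), (nat_lit 23794863534), (nat_lit 24861052425), (nat_lit 28467592584), (nat_lit 29566747370)], (nat_lit 1271251), (nat_lit 1271251), (nat_lit 1271251), (nat_lit 1271251), (nat_lit 780000), (nat_lit 1435001), [(nat_lit 490000), (nat_lit 1100000), (nat_lit 1442501)], [(nat_lit 3), (nat_lit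 50), (nat_lit 260), (nat_lit 50), (nat_lit 8)]⟩,
 ⟨⟨[(nat_lit 100), (nat_lit 140), (nat_lit 160)], [(nat_lit 0), (nat_lit 508), (nat_lit 1689)], [((nat_lit 0), (nat_lit 0), (nat_lit 0)), ((nat_lit 1000), (nat_lit 1000), (nat_lit 198)), ((nat_lit 811), (nat_lit 1000), (nat_lit 671))], ((nat_lit 100), (nat_lit 81), (nat_lit 68))⟩, (nat_lit 5010715), (nat_lit 527), (nat_lit 527), (nat_lit 0), (nat_lit 785239), [(nat_lit 3793750000), (nat_lit 5974094000), (nat_lit 7206304000)], [], [(nat_lit 15714618504), (nat_lit 15739888652), (nat_lit 17183510931), (nat_lit 17170489179), (nat_lit 18937009070), (nat_lit 19138415716), (nat_lit 22475645824), (nat_lit 22509936913)], (nat_lit 1271251), (nat_lit 1271251), (nat_lit 1271251), (nat_lit 1271251), (nat_lit 780000), (nat_lit 3072501), [(nat_lit 1412501), (nat_lit 1271251), (nat_lit 1271251)], [(nat_lit 23), (nat_lit 62), (nat_lit 483), (nat_lit 250), (nat_lit 12)]⟩,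
 ⟨⟨[(nat_lit 120), (nat_lit 160), (nat_lit 180)], [(nat_lit 0), (nat_lit 533), (nat_lit 2066)], [((nat_lit 0), (nat_lit 0), (nat_lit 0)), ((nat_lit 960), (nat_lit 1000), (nat_lit 200)), ((nat_lit 615), (nat_lit 1000), (nat_lit 729))], ((nat_lit 100), (nat_lit 67), (nat_lit 68))⟩, (nat_lit 803122), (nat_lit 300), (nat_lit 856), (nat_lit 22775200), (nat_lit 1182619), [(nat_lit 2733024000), (nat_lit 4072096000), (nat_lit 4821894000)], [], [(nat_lit 19580430554), (nat_lit 19173262881), (nat_lit 18832920855), (nat_lit 18410415346), (nat_lit 18274169499), (nat_lit 17770961681), (nat_lit 18473312246), (nat_lit 16922338455)], (nat_lit 1271251), (nat_lit 1271251), (nat_lit 780000), (nat_lit 1435001), (nat_lit 780000), (nat_lit 3072501), [(nat_lit 1695001), (nat_lit 1271251), (nat_lit 1271251)], [(nat_lit 28), (nat_lit 65), (nat_lit 456), (nat_lit 225), (nat_lit 10)]⟩⟩)))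
noncomputable def c16_23 : Tr Lf :=
 (.spl (nat_lit 2) (nat_lit 160) (.trX (nat_lit 4) (nat_lit 0) (nat_lit 2) (nat_lit 61) (nat_lit 92) (nat_lit 100) (nat_lit 290) (.spl (nat_lit 3) (nat_lit 200) (.spl (nat_lit 0) (nat_lit 370) (.leaf ⟨(nat_lit 1000), (nat_lit 0), (nat_lit 0), (nat_lit 0), (nat_lit 0), (nat_lit 3252), (nat_lit 0), (nat_lit 0), (nat_lit 0), (nat_lit 22312), (nat_lit 583900), [((nat_lit 370), [((nat_lit 25), (nat_lit 0), (nat_lit 46)), ((nat_lit 41), (nat_lit 2), (nat_lit 954))])], ⟨(nat_lit 3), false, false, true, (nat_lit 154), (nat_lit 2738), (nat_lit 3163), [(nat_lit 1289472), (nat_lit 1292206), (nat_lit 1355914), (nat_lit 1359435), (nat_lit 1411379), (nat_lit 1410329), (nat_lit 1477844), (nat_lit 1477581)]⟩, ⟨(nat_lit 5), false, false, true, (nat_lit 200), (nat_lit 2738), (nat_lit 3163), [(nat_lit 1411379), (nat_lit 1410329), (nat_lit 1455689), (nat_lit 1455164), (nat_lit 1548524), (nat_lit 1543217), (nat_lit 1592834), (nat_lit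 1588052)]⟩, (nat_lit 4499719), (nat_lit 45721662), (nat_lit 8456517), (nat_lit 12821821), (nat_lit 0), (nat_lit 0), [], [⟨(nat_lit 1), (nat_lit 100), (nat_lit 59), (nat_lit 100), (nat_lit 244816968)⟩], [], [],
 ⟨⟨[(nat_lit 40), (nat_lit 80), (nat_lit 100)], [(nat_lit 0), (nat_lit 1598), (nat_lit 2533)], [((nat_lit 0), (nat_lit 0), (nat_lit 0)), ((nat_lit 1000), (nat_lit 625), (nat_lit 623)), ((nat_lit 1000), (nat_lit 604), (nat_lit 730))], ((nat_lit 61), (nat_lit 100), (nat_lit 68))⟩, (nat_lit 15903), (nat_lit 235), (nat_lit 235), (nat_lit 0), (nat_lit 457873), [(nat_lit 1305259202), (nat_lit 149306473), (nat_lit 0)], [(nat_lit 0), (nat_lit 0), (nat_lit 584109600)], [(nat_lit 21047723550), (nat_lit 21677095444), (nat_lit 22546744466), (nat_lit 23108628732), (nat_lit 24116685451), (nat_lit 24750121995), (nat_lit 25285078221), (nat_lit 25764953984)], (nat_lit 1271251), (nat_lit 1271251), (nat_lit 780000), (nat_lit 1435001), (nat_lit 1271251), (nat_lit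 1271251), [(nat_lit 490000), (nat_lit 1100000), (nat_lit 1442501)], [(nat_lit 3), (nat_lit 50), (nat_lit 260), (nat_lit 50), (nat_lit 8)]⟩,
 Rw.none,
 Rw.none⟩) (.trX (nat_lit 4) (nat_lit 0) (nat_lit 2) (nat_lit 54) (nat_lit 96) (nat_lit 100) (nat_lit 270) (.leaf ⟨(nat_lit 1000), (nat_lit 0), (nat_lit 0), (nat_lit 0), (nat_lit 0), (nat_lit 3383), (nat_lit 0), (nat_lit 0), (nat_lit 0), (nat_lit 14331), (nat_lit 583900), [((nat_lit 380), [((nat_lit 25), (nat_lit 0), (nat_lit 46)), ((nat_lit 41), (nat_lit 2), (nat_lit 954))])], ⟨(nat_lit 3), false, false, true, (nat_lit 154), (nat_lit 2236), (nat_lit 2739), [(nat_lit 1292206), (nat_lit 1294870), (nat_lit 1359410), (nat_lit 1363145), (nat_lit 1410329), (nat_lit 1408901), (nat_lit 1477581), (nat_lit 1477224)]⟩, ⟨(nat_lit 5), false, false, true, (nat_lit 193), (nat_lit 2236), (nat_lit 2739), [(nat_lit 1410329), (nat_lit 1408901), (nat_lit 1455164), (nat_lit 1454450), (nat_lit 1513686), (nat_lit 1508679),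 (nat_lit 1558521), (nat_lit 1554227)]⟩, (nat_lit 4444397), (nat_lit 46274650), (nat_lit 8545350), (nat_lit 12180000), (nat_lit 0), (nat_lit 0), [], [⟨(nat_lit 1), (nat_lit 100), (nat_lit 49), (nat_lit 97), (nat_lit 284809029)⟩], [], [],
 ⟨⟨[(nat_lit 40), (nat_lit 60), (nat_lit 80)], [(nat_lit 0), (nat_lit 1134), (nat_lit 1930)], [((nat_lit 0), (nat_lit 0), (nat_lit 0)), ((nat_lit 1000), (nat_lit 575), (nat_lit 619)), ((nat_lit 1000), (nat_lit 574), (nat_lit 622))], ((nat_lit 55), (nat_lit 100), (nat_lit 70))⟩, (nat_lit 331990), (nat_lit 216), (nat_lit 216), (nat_lit 0), (nat_lit 514182), [(nat_lit 1305259201), (nat_lit 742581324), (nat_lit 28546400)], [(nat_lit 0), (nat_lit 0), (nat_lit 0)], [(nat_lit 21948428984), (nat_lit 22548325731), (nat_lit 23327785376), (nat_lit 23863898204), (nat_lit 24081504602), (nat_lit 24701099484), (nat_lit 25226850905), (nat_lit 25702601840)], (nat_lit 1271251), (nat_lit 1271251), (nat_lit 780000), (nat_lit 1435001), (nat_lit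 1271251), (nat_lit 1271251), [(nat_lit 490000), (nat_lit 780000), (nat_lit 1100000)], [(nat_lit 2), (nat_lit 44), (nat_lit 260), (nat_lit 50), (nat_lit 10)]⟩,
 Rw.none,
 Rw.none⟩))) (.leaf ⟨(nat_lit 1000), (nat_lit 0), (nat_lit 0), (nat_lit 0), (nat_lit 0), (nat_lit 3194), (nat_lit 0), (nat_lit 0), (nat_lit 0), (nat_lit 648630), (nat_lit 583900), [((nat_lit 380), [((nat_lit 25), (nat_lit 0), (nat_lit 46)), ((nat_lit 41), (nat_lit 2), (nat_lit 954))])], ⟨(nat_lit 5), false, false, true, (nat_lit 189), (nat_lit 2236), (nat_lit 3163), [(nat_lit 1411379), (nat_lit 1408901), (nat_lit 1477844), (nat_lit 1477224), (nat_lit 1472332), (nat_lit 1465917), (nat_lit 1538797), (nat_lit 1534240)]⟩, ⟨(nat_lit 5), false, false, true, (nat_lit 200), (nat_lit 2236), (nat_lit 3163), [(nat_lit 1411379), (nat_lit 1408901), (nat_lit 1455689), (nat_lit 1454450), (nat_lit 1548524), (nat_lit 1537186), (nat_lit 1592834), (nat_lit 1582735)]⟩, (nat_lit 4823943), (nat_lit 43239533),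 (nat_lit 11383860), (nat_lit 12376607), (nat_lit 0), (nat_lit 0), [], [⟨(nat_lit 1), (nat_lit 100), (nat_lit 54), (nat_lit 98), (nat_lit 266495570)⟩], [], [],
 ⟨⟨[(nat_lit 40), (nat_lit 80), (nat_lit 100)], [(nat_lit 0), (nat_lit 1598), (nat_lit 2533)], [((nat_lit 0), (nat_lit 0), (nat_lit 0)), ((nat_lit 1000), (nat_lit 625), (nat_lit 623)), ((nat_lit 1000), (nat_lit 604), (nat_lit 730))], ((nat_lit 61), (nat_lit 100), (nat_lit 68))⟩, (nat_lit 52629), (nat_lit 238), (nat_lit 238), (nat_lit 0), (nat_lit 518406), [(nat_lit 1305259202), (nat_lit 234144151), (nat_lit 0)], [(nat_lit 0), (nat_lit 0), (nat_lit 584109600)], [(nat_lit 22684696509), (nat_lit 23799523079), (nat_lit 23693513994), (nat_lit 24737561097), (nat_lit 25414000244), (nat_lit 26364895872), (nat_lit 26238834162), (nat_lit 27132302376)], (nat_lit 1271251), (nat_lit 1271251), (nat_lit 1271251), (nat_lit 1271251), (nat_lit 1271251), (nat_lit 1271251), [(nat_lit 490000), (nat_lit 1100000), (nat_lit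 1442501)], [(nat_lit 3), (nat_lit 50), (nat_lit 203), (nat_lit 0), (nat_lit 6)]⟩,
 Rw.none,
 Rw.none⟩))) (.ord (.stt (nat_lit 2) (.spl (nat_lit 6) (nat_lit 28) (.leaf ⟨(nat_lit 893), (nat_lit 63), (nat_lit 0), (nat_lit 44), (nat_lit 0), (nat_lit 3210), (nat_lit 1500), (nat_lit 580), (nat_lit 0), (nat_lit 243530), (nat_lit 509900), [((nat_lit 380), [((nat_lit 24), (nat_lit 0), (nat_lit 74)), ((nat_lit 41), (nat_lit 2), (nat_lit 819))])], ⟨(nat_lit 4), true, false, true, (nat_lit 175), (nat_lit 2236), (nat_lit 3163), [(nat_lit 1333702), (nat_lit 1340339), (nat_lit 1355794), (nat_lit 1363050), (nat_lit 1516642), (nat_lit 1511466), (nat_lit 1538797), (nat_lit 1534240)]⟩, ⟨(nat_lit 5), false, false, true, (nat_lit 219), (nat_lit 2236), (nat_lit 3163), [(nat_lit 1455689), (nat_lit 1454450), (nat_lit 1477844), (nat_lit 1477224), (nat_lit 1623310), (nat_lit 1611243), (nat_lit 1645465), (nat_lit 1634017)]⟩, (nat_lit 4839704), (nat_lit 42771525), (nat_lit 9966885),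 (nat_lit 14261590), (nat_lit 5), (nat_lit 0), [], [⟨(nat_lit 1), (nat_lit 93), (nat_lit 53), (nat_lit 100), (nat_lit 260358294)⟩], [], [],
 ⟨⟨[(nat_lit 40), (nat_lit 60), (nat_lit 80)], [(nat_lit 0), (nat_lit 832), (nat_lit 1534)], [((nat_lit 0), (nat_lit 0), (nat_lit 0)), ((nat_lit 1000), (nat_lit 659), (nat_lit 528)), ((nat_lit 1000), (nat_lit 650), (nat_lit 549))], ((nat_lit 65), (nat_lit 100), (nat_lit 55))⟩, (nat_lit 412546), (nat_lit 202), (nat_lit 202), (nat_lit 0), (nat_lit 440007), [(nat_lit 1365453201), (nat_lit 945702075), (nat_lit 584587200)], [(nat_lit 0), (nat_lit 0), (nat_lit 0)], [(nat_lit 21384446089), (nat_lit 22635509662), (nat_lit 23896510294), (nat_lit 24942778189), (nat_lit 25212996583), (nat_lit 26231421553), (nat_lit 27088820737), (nat_lit 27949581858)], (nat_lit 1271251), (nat_lit 1271251), (nat_lit 780000), (nat_lit 1762501), (nat_lit 1271251), (nat_lit 1271251), [(nat_lit 490000), (nat_lit 780000), (nat_lit 1100000)], [(nat_lit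 2), (nat_lit 44), (nat_lit 272), (nat_lit 60), (nat_lit 11)]⟩,
 ⟨⟨[(nat_lit 120), (nat_lit 160), (nat_lit 180)], [(nat_lit 0), (nat_lit 0), (nat_lit 1613)], [((nat_lit 0), (nat_lit 0), (nat_lit 0)), ((nat_lit 0), (nat_lit 0), (nat_lit 0)), ((nat_lit 620), (nat_lit 1000), (nat_lit 670))], ((nat_lit 100), (nat_lit 76), (nat_lit 52))⟩, (nat_lit 828171), (nat_lit 371), (nat_lit 371), (nat_lit 0), (nat_lit 0), [(nat_lit 852576000), (nat_lit 1270304000), (nat_lit 1504206000)], [], [(nat_lit 3171236804), (nat_lit 3251059193), (nat_lit 3524561756), (nat_lit 3613273503), (nat_lit 4261543726), (nat_lit 4256477703), (nat_lit 4000302800), (nat_lit 3978312906)], (nat_lit 0), (nat_lit 0), (nat_lit 0), (nat_lit 0), (nat_lit 0), (nat_lit 0), [], [(nat_lit 28), (nat_lit 65), (nat_lit 456), (nat_lit 225), (nat_lit 11)]⟩,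
 ⟨⟨[(nat_lit 120), (nat_lit 160), (nat_lit 180)], [(nat_lit 0), (nat_lit 0), (nat_lit 1613)], [((nat_lit 0), (nat_lit 0), (nat_lit 0)), ((nat_lit 0), (nat_lit 0), (nat_lit 0)), ((nat_lit 620), (nat_lit 1000), (nat_lit 670))], ((nat_lit 100), (nat_lit 76), (nat_lit 52))⟩, (nat_lit 89912), (nat_lit 300), (nat_lit 1644), (nat_lit 3264800), (nat_lit 2754092), [(nat_lit 350592000), (nat_lit 522368000), (nat_lit 618552000)], [], [(nat_lit 2420864600), (nat_lit 2401004330), (nat_lit 2396645540), (nat_lit 2371483610), (nat_lit 2896853944), (nat_lit 3069870160), (nat_lit 1869174612), (nat_lit 1841006980)], (nat_lit 1100000), (nat_lit 1271251), (nat_lit 1271251), (nat_lit 1271251), (nat_lit 0), (nat_lit 2825001), [(nat_lit 1695001), (nat_lit 1271251), (nat_lit 1271251)], [(nat_lit 28), (nat_lit 65), (nat_lit 523), (nat_lit 225), (nat_lit 12)]⟩⟩) (.leaf ⟨(nat_lit 988), (nat_lit 0), (nat_lit 0), (nat_lit 12), (nat_lit 0), (nat_lit 3186), (nat_lit 202), (nat_lit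 176), (nat_lit 0), (nat_lit 1448106330072), (nat_lit 457800), [((nat_lit 380), [((nat_lit 25), (nat_lit 1), (nat_lit 675)), ((nat_lit 41), (nat_lit 2), (nat_lit 313))])], ⟨(nat_lit 4), true, false, true, (nat_lit 175), (nat_lit 2236), (nat_lit 3163), [(nat_lit 1333702), (nat_lit 1340339), (nat_lit 1355794), (nat_lit 1363050), (nat_lit 1516642), (nat_lit 1511466), (nat_lit 1538797), (nat_lit 1534240)]⟩, ⟨(nat_lit 5), false, false, true, (nat_lit 219), (nat_lit 2236), (nat_lit 3163), [(nat_lit 1455689), (nat_lit 1454450), (nat_lit 1477844), (nat_lit 1477224), (nat_lit 1623310), (nat_lit 1611243), (nat_lit 1645465), (nat_lit 1634017)]⟩, (nat_lit 4839704), (nat_lit 42771525), (nat_lit 9966885), (nat_lit 14261590), (nat_lit 0), (nat_lit 0), [], [⟨(nat_lit 1), (nat_lit 93), (nat_lit 53), (nat_lit 100), (nat_lit 192971723)⟩], [], [⟨(nat_lit 0), (nat_lit 85), (nat_lit 100), (nat_lit 72), (nat_lit 7168996)⟩],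
 ⟨⟨[(nat_lit 40), (nat_lit 80), (nat_lit 100)], [(nat_lit 0), (nat_lit 1598), (nat_lit 2533)], [((nat_lit 0), (nat_lit 0), (nat_lit 0)), ((nat_lit 1000), (nat_lit 625), (nat_lit 623)), ((nat_lit 1000), (nat_lit 604), (nat_lit 730))], ((nat_lit 61), (nat_lit 100), (nat_lit 68))⟩, (nat_lit 0), (nat_lit 154), (nat_lit 154), (nat_lit 0), (nat_lit 212098), [(nat_lit 1359843220), (nat_lit 728904844), (nat_lit 469152800)], [(nat_lit 0), (nat_lit 0), (nat_lit 0)], [(nat_lit 21855065795), (nat_lit 22883713075), (nat_lit 23915001060), (nat_lit 24866824654), (nat_lit 25165102060), (nat_lit 26200551247), (nat_lit 26786353578), (nat_lit 27845968273)], (nat_lit 1271251), (nat_lit 1271251), (nat_lit 780000), (nat_lit 1762501), (nat_lit 1271251), (nat_lit 1271251), [(nat_lit 490000), (nat_lit 1100000), (nat_lit 1442501)], [(nat_lit 3), (nat_lit 50), (nat_lit 272), (nat_lit 60), (nat_lit 9)]⟩,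
 ⟨⟨[(nat_lit 120), (nat_lit 160), (nat_lit 200)], [(nat_lit 0), (nat_lit 0), (nat_lit 3198)], [((nat_lit 0), (nat_lit 0), (nat_lit 0)), ((nat_lit 0), (nat_lit 0), (nat_lit 0)), ((nat_lit 572), (nat_lit 1000), (nat_lit 714))], ((nat_lit 0), (nat_lit 0), (nat_lit 0))⟩, (nat_lit 59018), (nat_lit 458), (nat_lit 458), (nat_lit 0), (nat_lit 0), [(nat_lit 95616000), (nat_lit 142464000), (nat_lit 196800000)], [], [(nat_lit 491392524), (nat_lit 489650700), (nat_lit 473188088), (nat_lit 474216354), (nat_lit 483332088), (nat_lit 481590264), (nat_lit 464047912), (nat_lit 466155918)], (nat_lit 0), (nat_lit 0), (nat_lit 0), (nat_lit 0), (nat_lit 0), (nat_lit 0), [], [(nat_lit 29), (nat_lit 66), (nat_lit 456), (nat_lit 225), (nat_lit 10)]⟩,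
 ⟨⟨[(nat_lit 120), (nat_lit 160), (nat_lit 200)], [(nat_lit 0), (nat_lit 0), (nat_lit 3198)], [((nat_lit 0), (nat_lit 0), (nat_lit 0)), ((nat_lit 0), (nat_lit 0), (nat_lit 0)), ((nat_lit 572), (nat_lit 1000), (nat_lit 714))], ((nat_lit 0), (nat_lit 0), (nat_lit 0))⟩, (nat_lit 5854), (nat_lit 300), (nat_lit 1044), (nat_lit 890400), (nat_lit 1307102), [(nat_lit 95616000), (nat_lit 142464000), (nat_lit 196800000)], [], [(nat_lit 749044232), (nat_lit 739559756), (nat_lit 747279564), (nat_lit 739811678), (nat_lit 813674528), (nat_lit 865250064), (nat_lit 569198472), (nat_lit 561730586)], (nat_lit 1100000), (nat_lit 1271251), (nat_lit 1271251), (nat_lit 1271251), (nat_lit 0), (nat_lit 2825001), [(nat_lit 1695001), (nat_lit 1271251), (nat_lit 1271251)], [(nat_lit 29), (nat_lit 66), (nat_lit 456), (nat_lit 225), (nat_lit 10)]⟩⟩)) (.leaf ⟨(nat_lit 981), (nat_lit 0), (nat_lit 0), (nat_lit 19), (nat_lit 0), (nat_lit 3255), (nat_lit 230), (nat_lit 268), (nat_lit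 0), (nat_lit 2179501472199), (nat_lit 429000), [((nat_lit 380), [((nat_lit 25), (nat_lit 1), (nat_lit 798)), ((nat_lit 41), (nat_lit 2), (nat_lit 183))])], ⟨(nat_lit 4), false, false, true, (nat_lit 175), (nat_lit 2236), (nat_lit 3163), [(nat_lit 1333702), (nat_lit 1340339), (nat_lit 1355794), (nat_lit 1363050), (nat_lit 1516642), (nat_lit 1511466), (nat_lit 1538797), (nat_lit 1534240)]⟩, ⟨(nat_lit 5), false, false, true, (nat_lit 219), (nat_lit 2236), (nat_lit 3163), [(nat_lit 1455689), (nat_lit 1454450), (nat_lit 1477844), (nat_lit 1477224), (nat_lit 1623310), (nat_lit 1611243), (nat_lit 1645465), (nat_lit 1634017)]⟩, (nat_lit 4839704), (nat_lit 42771525), (nat_lit 9966885), (nat_lit 14261590), (nat_lit 0), (nat_lit 0), [], [⟨(nat_lit 1), (nat_lit 93), (nat_lit 53), (nat_lit 100), (nat_lit 199130876)⟩], [], [⟨(nat_lit 0), (nat_lit 85), (nat_lit 100), (nat_lit 72), (nat_lit 1765868)⟩],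
 ⟨⟨[(nat_lit 40), (nat_lit 80), (nat_lit 100)], [(nat_lit 0), (nat_lit 1598), (nat_lit 2533)], [((nat_lit 0), (nat_lit 0), (nat_lit 0)), ((nat_lit 1000), (nat_lit 625), (nat_lit 623)), ((nat_lit 1000), (nat_lit 604), (nat_lit 730))], ((nat_lit 61), (nat_lit 100), (nat_lit 68))⟩, (nat_lit 0), (nat_lit 202), (nat_lit 202), (nat_lit 0), (nat_lit 334101), [(nat_lit 1374192403), (nat_lit 840706554), (nat_lit 718344400)], [(nat_lit 0), (nat_lit 0), (nat_lit 0)], [(nat_lit 22080866900), (nat_lit 23118854416), (nat_lit 24051673556), (nat_lit 25011672201), (nat_lit 25326188360), (nat_lit 26289303377), (nat_lit 27024935191), (nat_lit 27911877332)], (nat_lit 1271251), (nat_lit 1271251), (nat_lit 780000), (nat_lit 1762501), (nat_lit 1271251), (nat_lit 1271251), [(nat_lit 490000), (nat_lit 1100000), (nat_lit 1442501)], [(nat_lit 3), (nat_lit 50), (nat_lit 272), (nat_lit 60), (nat_lit 9)]⟩,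
 ⟨⟨[(nat_lit 120), (nat_lit 160), (nat_lit 200)], [(nat_lit 0), (nat_lit 0), (nat_lit 3198)], [((nat_lit 0), (nat_lit 0), (nat_lit 0)), ((nat_lit 0), (nat_lit 0), (nat_lit 0)), ((nat_lit 572), (nat_lit 1000), (nat_lit 714))], ((nat_lit 0), (nat_lit 0), (nat_lit 0))⟩, (nat_lit 42253), (nat_lit 1751), (nat_lit 1751), (nat_lit 0), (nat_lit 2783869), [(nat_lit 151392000), (nat_lit 225568000), (nat_lit 311600000)], [], [(nat_lit 983219226), (nat_lit 974087811), (nat_lit 914590468), (nat_lit 908122924), (nat_lit 1148492428), (nat_lit 1215562679), (nat_lit 1508760864), (nat_lit 1579700290)], (nat_lit 1100000), (nat_lit 1271251), (nat_lit 780000), (nat_lit 1762501), (nat_lit 0), (nat_lit 2825001), [(nat_lit 1695001), (nat_lit 1271251), (nat_lit 1271251)], [(nat_lit 29), (nat_lit 66), (nat_lit 541), (nat_lit 225), (nat_lit 12)]⟩,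
 ⟨⟨[(nat_lit 120), (nat_lit 160), (nat_lit 200)], [(nat_lit 0), (nat_lit 0), (nat_lit 3198)], [((nat_lit 0), (nat_lit 0), (nat_lit 0)), ((nat_lit 0), (nat_lit 0), (nat_lit 0)), ((nat_lit 572), (nat_lit 1000), (nat_lit 714))], ((nat_lit 0), (nat_lit 0), (nat_lit 0))⟩, (nat_lit 9268), (nat_lit 300), (nat_lit 1421), (nat_lit 1409805), (nat_lit 2142652), [(nat_lit 151392000), (nat_lit 225568000), (nat_lit 311600000)], [], [(nat_lit 1199585114), (nat_lit 1185377659), (nat_lit 1182631043), (nat_lit 1171526454), (nat_lit 1274176072), (nat_lit 1353209732), (nat_lit 900669979), (nat_lit 889565390)], (nat_lit 1100000), (nat_lit 1271251), (nat_lit 1271251), (nat_lit 1271251), (nat_lit 0), (nat_lit 2825001), [(nat_lit 1695001), (nat_lit 1271251), (nat_lit 1271251)], [(nat_lit 29), (nat_lit 66), (nat_lit 467), (nat_lit 225), (nat_lit 10)]⟩⟩))))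
noncomputable def c16_24 : Tr Lf :=
 (.spl (nat_lit 3) (nat_lit 200) (.leaf ⟨(nat_lit 1000), (nat_lit 0), (nat_lit 0), (nat_lit 0), (nat_lit 3121), (nat_lit 3542), (nat_lit 0), (nat_lit 0), (nat_lit 0), (nat_lit 0), (nat_lit 250000), [((nat_lit 380), [((nat_lit 25), (nat_lit 0), (nat_lit 1000))])], ⟨(nat_lit 4), false, false, false, (nat_lit 181), (nat_lit 2236), (nat_lit 3163), [(nat_lit 1355794), (nat_lit 1363050), (nat_lit 1422068), (nat_lit 1431182), (nat_lit 1477844), (nat_lit 1477224), (nat_lit 1544182), (nat_lit 1545421)]⟩, ⟨(nat_lit 5), false, false, true, (nat_lit 210), (nat_lit 2236), (nat_lit 3163), [(nat_lit 1411379), (nat_lit 1408901), (nat_lit 1477844), (nat_lit 1477224), (nat_lit 1579000), (nat_lit 1565693), (nat_lit 1645465), (nat_lit 1634017)]⟩, (nat_lit 4830332), (nat_lit 43051542), (nat_lit 10562370), (nat_lit 13386088), (nat_lit 0), (nat_lit 0), [], [⟨(nat_lit 1), (nat_lit 86), (nat_lit 60), (nat_lit 100), (nat_lit 256680841)⟩],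 [], [],
 ⟨⟨[(nat_lit 40), (nat_lit 80), (nat_lit 100)], [(nat_lit 0), (nat_lit 1598), (nat_lit 2533)], [((nat_lit 0), (nat_lit 0), (nat_lit 0)), ((nat_lit 1000), (nat_lit 625), (nat_lit 623)), ((nat_lit 1000), (nat_lit 604), (nat_lit 730))], ((nat_lit 61), (nat_lit 100), (nat_lit 68))⟩, (nat_lit 0), (nat_lit 80), (nat_lit 80), (nat_lit 0), (nat_lit 0), [(nat_lit 1528000098), (nat_lit 1715600009), (nat_lit 2118000000)], [(nat_lit 0), (nat_lit 0), (nat_lit 0)], [(nat_lit 21371391403), (nat_lit 22719364484), (nat_lit 22740993990), (nat_lit 23940596327), (nat_lit 25337389148), (nat_lit 26658460786), (nat_lit 26246904940), (nat_lit 27432905553)], (nat_lit 0), (nat_lit 0), (nat_lit 0), (nat_lit 0), (nat_lit 0), (nat_lit 0), [], [(nat_lit 3), (nat_lit 50), (nat_lit 260), (nat_lit 50), (nat_lit 8)]⟩,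
 Rw.none,
 Rw.none⟩) (.spl (nat_lit 1) (nat_lit 220) (.leaf ⟨(nat_lit 1000), (nat_lit 0), (nat_lit 0), (nat_lit 0), (nat_lit 3078), (nat_lit 3490), (nat_lit 0), (nat_lit 0), (nat_lit 0), (nat_lit 0), (nat_lit 250000), [((nat_lit 380), [((nat_lit 25), (nat_lit 0), (nat_lit 1000))])], ⟨(nat_lit 5), false, true, true, (nat_lit 212), (nat_lit 2236), (nat_lit 3163), [(nat_lit 1477844), (nat_lit 1477224), (nat_lit 1522091), (nat_lit 1522710), (nat_lit 1538797), (nat_lit 1534240), (nat_lit 1583107), (nat_lit 1579788)]⟩, ⟨(nat_lit 5), false, false, true, (nat_lit 210), (nat_lit 2236), (nat_lit 3163), [(nat_lit 1411379), (nat_lit 1408901), (nat_lit 1477844), (nat_lit 1477224), (nat_lit 1579000), (nat_lit 1565693), (nat_lit 1645465), (nat_lit 1634017)]⟩, (nat_lit 5064574), (nat_lit 40888588), (nat_lit 13145353), (nat_lit 12966059), (nat_lit 0), (nat_lit 0), [], [⟨(nat_lit 1), (nat_lit 86), (nat_lit 60), (nat_lit 100), (nat_lit 241700068)⟩], [], [],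
 ⟨⟨[(nat_lit 40), (nat_lit 80), (nat_lit 100)], [(nat_lit 0), (nat_lit 1598), (nat_lit 2533)], [((nat_lit 0), (nat_lit 0), (nat_lit 0)), ((nat_lit 1000), (nat_lit 625), (nat_lit 623)), ((nat_lit 1000), (nat_lit 604), (nat_lit 730))], ((nat_lit 61), (nat_lit 100), (nat_lit 68))⟩, (nat_lit 0), (nat_lit 64), (nat_lit 64), (nat_lit 0), (nat_lit 0), [(nat_lit 1528000004), (nat_lit 1715600004), (nat_lit 2118000000)], [(nat_lit 0), (nat_lit 0), (nat_lit 0)], [(nat_lit 22810175393), (nat_lit 24001553111), (nat_lit 23802552938), (nat_lit 24915288813), (nat_lit 26288495532), (nat_lit 27380402937), (nat_lit 27035845770), (nat_lit 28136350213)], (nat_lit 0), (nat_lit 0), (nat_lit 0), (nat_lit 0), (nat_lit 0), (nat_lit 0), [], [(nat_lit 3), (nat_lit 50), (nat_lit 203), (nat_lit 0), (nat_lit 6)]⟩,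
 Rw.none,
 Rw.none⟩) (.leaf ⟨(nat_lit 1000), (nat_lit 0), (nat_lit 0), (nat_lit 0), (nat_lit 3121), (nat_lit 3490), (nat_lit 0), (nat_lit 0), (nat_lit 0), (nat_lit 0), (nat_lit 250000), [((nat_lit 380), [((nat_lit 25), (nat_lit 0), (nat_lit 1000))])], ⟨(nat_lit 5), false, true, false, (nat_lit 225), (nat_lit 2236), (nat_lit 3163), [(nat_lit 1522091), (nat_lit 1522710), (nat_lit 1544182), (nat_lit 1545421), (nat_lit 1583107), (nat_lit 1579788), (nat_lit 1605240), (nat_lit 1602541)]⟩, ⟨(nat_lit 5), false, false, true, (nat_lit 210), (nat_lit 2236), (nat_lit 3163), [(nat_lit 1411379), (nat_lit 1408901), (nat_lit 1477844), (nat_lit 1477224), (nat_lit 1579000), (nat_lit 1565693), (nat_lit 1645465), (nat_lit 1634017)]⟩, (nat_lit 5148614), (nat_lit 39944399), (nat_lit 14287652), (nat_lit 12767949), (nat_lit 0), (nat_lit 0), [], [⟨(nat_lit 1), (nat_lit 86), (nat_lit 60), (nat_lit 100), (nat_lit 244394124)⟩], [], [],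
 ⟨⟨[(nat_lit 40), (nat_lit 80), (nat_lit 100)], [(nat_lit 0), (nat_lit 1598), (nat_lit 2533)], [((nat_lit 0), (nat_lit 0), (nat_lit 0)), ((nat_lit 1000), (nat_lit 625), (nat_lit 623)), ((nat_lit 1000), (nat_lit 604), (nat_lit 730))], ((nat_lit 61), (nat_lit 100), (nat_lit 68))⟩, (nat_lit 0), (nat_lit 64), (nat_lit 64), (nat_lit 0), (nat_lit 0), [(nat_lit 1528000056), (nat_lit 1715600056), (nat_lit 2118000000)], [(nat_lit 0), (nat_lit 0), (nat_lit 0)], [(nat_lit 22810175497), (nat_lit 24001553215), (nat_lit 23802553042), (nat_lit 24915288917), (nat_lit 26288495636), (nat_lit 27380402937), (nat_lit 27035845770), (nat_lit 28136350213)], (nat_lit 0), (nat_lit 0), (nat_lit 0), (nat_lit 0), (nat_lit 0), (nat_lit 0), [], [(nat_lit 3), (nat_lit 50), (nat_lit 203), (nat_lit 0), (nat_lit 6)]⟩,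
 Rw.none,
 Rw.none⟩)))
noncomputable def c16_25 : Tr Lf :=
 (.spl (nat_lit 6) (nat_lit 28) (.spl (nat_lit 5) (nat_lit 200) (.leaf ⟨(nat_lit 214), (nat_lit 717), (nat_lit 0), (nat_lit 69), (nat_lit 0), (nat_lit 4024), (nat_lit 11022), (nat_lit 1050), (nat_lit 0), (nat_lit 0), (nat_lit 148800), [((nat_lit 380), [((nat_lit 41), (nat_lit 2), (nat_lit 208)), ((nat_lit 41), (nat_lit 5), (nat_lit 6))])], ⟨(nat_lit 4), true, false, false, (nat_lit 193), (nat_lit 2236), (nat_lit 3163), [(nat_lit 1355794), (nat_lit 1363050), (nat_lit 1422068), (nat_lit 1431182), (nat_lit 1538797), (nat_lit 1534240), (nat_lit 1605240), (nat_lit 1602541)]⟩, ⟨(nat_lit 5), false, false, true, (nat_lit 210), (nat_lit 2236), (nat_lit 3163), [(nat_lit 1411379), (nat_lit 1408901), (nat_lit 1477844), (nat_lit 1477224), (nat_lit 1579000), (nat_lit 1565693), (nat_lit 1645465), (nat_lit 1634017)]⟩, (nat_lit 4926523), (nat_lit 42229284), (nat_lit 11538493), (nat_lit 13232223), (nat_lit 5),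 (nat_lit 0), [], [⟨(nat_lit 1), (nat_lit 99), (nat_lit 54), (nat_lit 100), (nat_lit 476757766)⟩], [], [],
 ⟨⟨[(nat_lit 40), (nat_lit 60), (nat_lit 80)], [(nat_lit 0), (nat_lit 832), (nat_lit 1534)], [((nat_lit 0), (nat_lit 0), (nat_lit 0)), ((nat_lit 1000), (nat_lit 659), (nat_lit 528)), ((nat_lit 1000), (nat_lit 650), (nat_lit 549))], ((nat_lit 65), (nat_lit 100), (nat_lit 55))⟩, (nat_lit 1065538), (nat_lit 249), (nat_lit 249), (nat_lit 0), (nat_lit 571225), [(nat_lit 1756246401), (nat_lit 2625923205), (nat_lit 3571332000)], [(nat_lit 0), (nat_lit 0), (nat_lit 0)], [(nat_lit 22855928464), (nat_lit 23980467750), (nat_lit 24846497580), (nat_lit 25786619548), (nat_lit 26170181953), (nat_lit 27278439431), (nat_lit 27639565076), (nat_lit 28646429015)], (nat_lit 1271251), (nat_lit 1271251), (nat_lit 780000), (nat_lit 1762501), (nat_lit 1271251), (nat_lit 1271251), [(nat_lit 490000), (nat_lit 780000), (nat_lit 1100000)], [(nat_lit 2), (nat_lit 44), (nat_lit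 272), (nat_lit 60), (nat_lit 11)]⟩,
 ⟨⟨[(nat_lit 120), (nat_lit 140), (nat_lit 160)], [(nat_lit 0), (nat_lit 266), (nat_lit 862)], [((nat_lit 0), (nat_lit 0), (nat_lit 0)), ((nat_lit 960), (nat_lit 1000), (nat_lit 200)), ((nat_lit 874), (nat_lit 1000), (nat_lit 406))], ((nat_lit 100), (nat_lit 81), (nat_lit 51))⟩, (nat_lit 2944998), (nat_lit 210), (nat_lit 210), (nat_lit 0), (nat_lit 0), [(nat_lit 6262848000), (nat_lit 7735812000), (nat_lit 9331392000)], [], [(nat_lit 21340605486), (nat_lit 24285835416), (nat_lit 24004413912), (nat_lit 25959589788), (nat_lit 13695355235), (nat_lit 15664043946), (nat_lit 15225299349), (nat_lit 16519296192)], (nat_lit 0), (nat_lit 0), (nat_lit 0), (nat_lit 0), (nat_lit 0), (nat_lit 0), [], [(nat_lit 27), (nat_lit 62), (nat_lit 401), (nat_lit 175), (nat_lit 11)]⟩,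
 ⟨⟨[(nat_lit 140), (nat_lit 180), (nat_lit 200)], [(nat_lit 0), (nat_lit 0), (nat_lit 2835)], [((nat_lit 0), (nat_lit 0), (nat_lit 0)), ((nat_lit 0), (nat_lit 0), (nat_lit 0)), ((nat_lit 363), (nat_lit 1000), (nat_lit 798))], ((nat_lit 0), (nat_lit 0), (nat_lit 0))⟩, (nat_lit 18984), (nat_lit 300), (nat_lit 1875), (nat_lit 5388902), (nat_lit 3065628), [(nat_lit 679098000), (nat_lit 970002000), (nat_lit 1131600000)], [], [(nat_lit 4601958012), (nat_lit 4362611823), (nat_lit 4582857248), (nat_lit 4361002324), (nat_lit 3598507164), (nat_lit 4341939803), (nat_lit 3334811519), (nat_lit 3125054126)], (nat_lit 780000), (nat_lit 1271251), (nat_lit 1271251), (nat_lit 1271251), (nat_lit 0), (nat_lit 1412501), [(nat_lit 1977501), (nat_lit 1271251), (nat_lit 1271251)], [(nat_lit 32), (nat_lit 67), (nat_lit 555), (nat_lit 175), (nat_lit 12)]⟩⟩) (.leaf ⟨(nat_lit 864), (nat_lit 64), (nat_lit 0), (nat_lit 72), (nat_lit 0), (nat_lit 3555), (nat_lit 1292), (nat_lit 796),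 (nat_lit 0), (nat_lit 0), (nat_lit 490400), [((nat_lit 380), [((nat_lit 24), (nat_lit 0), (nat_lit 80)), ((nat_lit 41), (nat_lit 2), (nat_lit 784))])], ⟨(nat_lit 4), true, false, false, (nat_lit 193), (nat_lit 2236), (nat_lit 3163), [(nat_lit 1355794), (nat_lit 1363050), (nat_lit 1422068), (nat_lit 1431182), (nat_lit 1538797), (nat_lit 1534240), (nat_lit 1605240), (nat_lit 1602541)]⟩, ⟨(nat_lit 5), false, false, true, (nat_lit 210), (nat_lit 2236), (nat_lit 3163), [(nat_lit 1411379), (nat_lit 1408901), (nat_lit 1477844), (nat_lit 1477224), (nat_lit 1579000), (nat_lit 1565693), (nat_lit 1645465), (nat_lit 1634017)]⟩, (nat_lit 4926523), (nat_lit 42229284), (nat_lit 11538493), (nat_lit 13232223), (nat_lit 5), (nat_lit 0), [], [⟨(nat_lit 1), (nat_lit 99), (nat_lit 54), (nat_lit 100), (nat_lit 307585800)⟩], [⟨(nat_lit 1), (nat_lit 30), (nat_lit 100), (nat_lit 97), (nat_lit 808254)⟩], [],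
 ⟨⟨[(nat_lit 40), (nat_lit 60), (nat_lit 80)], [(nat_lit 0), (nat_lit 832), (nat_lit 1534)], [((nat_lit 0), (nat_lit 0), (nat_lit 0)), ((nat_lit 1000), (nat_lit 659), (nat_lit 528)), ((nat_lit 1000), (nat_lit 650), (nat_lit 549))], ((nat_lit 65), (nat_lit 100), (nat_lit 55))⟩, (nat_lit 165815), (nat_lit 249), (nat_lit 249), (nat_lit 0), (nat_lit 571225), [(nat_lit 1381561613), (nat_lit 1016284702), (nat_lit 732620800)], [(nat_lit 0), (nat_lit 0), (nat_lit 0)], [(nat_lit 21234929828), (nat_lit 22463431712), (nat_lit 23631423640), (nat_lit 24658059370), (nat_lit 25344562869), (nat_lit 26675182202), (nat_lit 27089191140), (nat_lit 28198438457)], (nat_lit 1271251), (nat_lit 1271251), (nat_lit 780000), (nat_lit 1762501), (nat_lit 1271251), (nat_lit 1271251), [(nat_lit 490000), (nat_lit 780000), (nat_lit 1100000)], [(nat_lit 2), (nat_lit 44), (nat_lit 272), (nat_lit 60), (nat_lit 11)]⟩,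
 ⟨⟨[(nat_lit 120), (nat_lit 140), (nat_lit 160)], [(nat_lit 0), (nat_lit 266), (nat_lit 862)], [((nat_lit 0), (nat_lit 0), (nat_lit 0)), ((nat_lit 960), (nat_lit 1000), (nat_lit 200)), ((nat_lit 874), (nat_lit 1000), (nat_lit 406))], ((nat_lit 100), (nat_lit 81), (nat_lit 51))⟩, (nat_lit 1844897), (nat_lit 174), (nat_lit 174), (nat_lit 0), (nat_lit 0), [(nat_lit 1083648000), (nat_lit 1338512000), (nat_lit 1614592000)], [], [(nat_lit 2696830481), (nat_lit 2940269342), (nat_lit 2930581994), (nat_lit 3095061616), (nat_lit 4378821308), (nat_lit 4431528992), (nat_lit 4289765380), (nat_lit 4417414912)], (nat_lit 0), (nat_lit 0), (nat_lit 0), (nat_lit 0), (nat_lit 0), (nat_lit 0), [], [(nat_lit 27), (nat_lit 62), (nat_lit 456), (nat_lit 225), (nat_lit 11)]⟩,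
 ⟨⟨[(nat_lit 140), (nat_lit 180), (nat_lit 200)], [(nat_lit 0), (nat_lit 0), (nat_lit 2835)], [((nat_lit 0), (nat_lit 0), (nat_lit 0)), ((nat_lit 0), (nat_lit 0), (nat_lit 0)), ((nat_lit 363), (nat_lit 1000), (nat_lit 798))], ((nat_lit 0), (nat_lit 0), (nat_lit 0))⟩, (nat_lit 32820), (nat_lit 300), (nat_lit 1755), (nat_lit 5623200), (nat_lit 3065628), [(nat_lit 708624000), (nat_lit 1012176000), (nat_lit 1180800000)], [], [(nat_lit 4669223160), (nat_lit 4501952024), (nat_lit 4417353857), (nat_lit 4250522304), (nat_lit 4257217152), (nat_lit 4086506029), (nat_lit 4031673022), (nat_lit 3844704777)], (nat_lit 780000), (nat_lit 1271251), (nat_lit 1271251), (nat_lit 1271251), (nat_lit 1271251), (nat_lit 1271251), [(nat_lit 1977501), (nat_lit 1271251), (nat_lit 1271251)], [(nat_lit 32), (nat_lit 67), (nat_lit 550), (nat_lit 225), (nat_lit 11)]⟩⟩)) (.spl (nat_lit 1) (nat_lit 220) (.spl (nat_lit 2) (nat_lit 160) (.trX (nat_lit 4) (nat_lit 0) (nat_lit 2) (nat_lit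 61) (nat_lit 92) (nat_lit 100) (nat_lit 290) (.leaf ⟨(nat_lit 885), (nat_lit 71), (nat_lit 0), (nat_lit 44), (nat_lit 190), (nat_lit 3359), (nat_lit 1268), (nat_lit 674), (nat_lit 0), (nat_lit 0), (nat_lit 484600), [((nat_lit 380), [((nat_lit 25), (nat_lit 1), (nat_lit 232)), ((nat_lit 41), (nat_lit 2), (nat_lit 653))])], ⟨(nat_lit 4), true, false, false, (nat_lit 188), (nat_lit 2236), (nat_lit 3163), [(nat_lit 1355794), (nat_lit 1363050), (nat_lit 1399976), (nat_lit 1408471), (nat_lit 1538797), (nat_lit 1534240), (nat_lit 1583107), (nat_lit 1579788)]⟩, ⟨(nat_lit 5), false, false, true, (nat_lit 200), (nat_lit 2236), (nat_lit 3163), [(nat_lit 1411379), (nat_lit 1408901), (nat_lit 1455689), (nat_lit 1454450), (nat_lit 1548524), (nat_lit 1537186), (nat_lit 1592834), (nat_lit 1582735)]⟩, (nat_lit 4814356), (nat_lit 43324018), (nat_lit 11285440), (nat_lit 12390542), (nat_lit 5), (nat_lit 0), [], [⟨(nat_lit 1), (nat_lit 92), (nat_lit 61), (nat_lit 100),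 (nat_lit 199351826)⟩], [], [],
 ⟨⟨[(nat_lit 40), (nat_lit 80), (nat_lit 100)], [(nat_lit 0), (nat_lit 1598), (nat_lit 2533)], [((nat_lit 0), (nat_lit 0), (nat_lit 0)), ((nat_lit 1000), (nat_lit 625), (nat_lit 623)), ((nat_lit 1000), (nat_lit 604), (nat_lit 730))], ((nat_lit 61), (nat_lit 100), (nat_lit 68))⟩, (nat_lit 0), (nat_lit 174), (nat_lit 174), (nat_lit 0), (nat_lit 295699), [(nat_lit 1372730019), (nat_lit 737916573), (nat_lit 464573200)], [(nat_lit 0), (nat_lit 0), (nat_lit 0)], [(nat_lit 21497447619), (nat_lit 22580681359), (nat_lit 23582128068), (nat_lit 24554448529), (nat_lit 24189660126), (nat_lit 25548598040), (nat_lit 26147378140), (nat_lit 27280052492)], (nat_lit 1271251), (nat_lit 1271251), (nat_lit 780000), (nat_lit 1762501), (nat_lit 1271251), (nat_lit 1271251), [(nat_lit 490000), (nat_lit 1100000), (nat_lit 1442501)], [(nat_lit 3), (nat_lit 50), (nat_lit 272), (nat_lit 60), (nat_lit 9)]⟩,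
 ⟨⟨[(nat_lit 120), (nat_lit 160), (nat_lit 180)], [(nat_lit 0), (nat_lit 533), (nat_lit 2066)], [((nat_lit 0), (nat_lit 0), (nat_lit 0)), ((nat_lit 960), (nat_lit 1000), (nat_lit 200)), ((nat_lit 615), (nat_lit 1000), (nat_lit 729))], ((nat_lit 100), (nat_lit 67), (nat_lit 68))⟩, (nat_lit 507799), (nat_lit 367), (nat_lit 367), (nat_lit 0), (nat_lit 0), [(nat_lit 916320000), (nat_lit 1365280000), (nat_lit 1616670000)], [], [(nat_lit 3536403130), (nat_lit 3648585388), (nat_lit 3686009670), (nat_lit 3792125241), (nat_lit 4260979112), (nat_lit 4274007233), (nat_lit 4086104535), (nat_lit 4069143723)], (nat_lit 0), (nat_lit 0), (nat_lit 0), (nat_lit 0), (nat_lit 0), (nat_lit 0), [], [(nat_lit 28), (nat_lit 65), (nat_lit 456), (nat_lit 225), (nat_lit 11)]⟩,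
 ⟨⟨[(nat_lit 140), (nat_lit 180), (nat_lit 200)], [(nat_lit 0), (nat_lit 0), (nat_lit 2835)], [((nat_lit 0), (nat_lit 0), (nat_lit 0)), ((nat_lit 0), (nat_lit 0), (nat_lit 0)), ((nat_lit 363), (nat_lit 1000), (nat_lit 798))], ((nat_lit 0), (nat_lit 0), (nat_lit 0))⟩, (nat_lit 12106), (nat_lit 300), (nat_lit 1195), (nat_lit 3436400), (nat_lit 1592718), [(nat_lit 433048000), (nat_lit 618552000), (nat_lit 721600000)], [], [(nat_lit 2929871576), (nat_lit 2812917844), (nat_lit 2908399008), (nat_lit 2797335789), (nat_lit 3294996200), (nat_lit 3626428172), (nat_lit 2221118498), (nat_lit 2330282025)], (nat_lit 780000), (nat_lit 1100000), (nat_lit 1271251), (nat_lit 1271251), (nat_lit 0), (nat_lit 2825001), [(nat_lit 1977501), (nat_lit 1271251), (nat_lit 1271251)], [(nat_lit 32), (nat_lit 67), (nat_lit 456), (nat_lit 225), (nat_lit 10)]⟩⟩)) (.spl (nat_lit 0) (nat_lit 370) (.leaf ⟨(nat_lit 913), (nat_lit 0), (nat_lit 0), (nat_lit 87), (nat_lit 2196), (nat_lit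 3148), (nat_lit 1006), (nat_lit 1151), (nat_lit 0), (nat_lit 0), (nat_lit 482600), [((nat_lit 370), [((nat_lit 25), (nat_lit 1), (nat_lit 326)), ((nat_lit 41), (nat_lit 2), (nat_lit 587))])], ⟨(nat_lit 4), true, false, false, (nat_lit 188), (nat_lit 2738), (nat_lit 3163), [(nat_lit 1355914), (nat_lit 1359435), (nat_lit 1400199), (nat_lit 1404246), (nat_lit 1538797), (nat_lit 1536642), (nat_lit 1583107), (nat_lit 1581477)]⟩, ⟨(nat_lit 5), false, false, true, (nat_lit 220), (nat_lit 2738), (nat_lit 3163), [(nat_lit 1455689), (nat_lit 1455164), (nat_lit 1477844), (nat_lit 1477581), (nat_lit 1623310), (nat_lit 1617582), (nat_lit 1645465), (nat_lit 1640000)]⟩, (nat_lit 4954813), (nat_lit 41826728), (nat_lit 11036401), (nat_lit 14136871), (nat_lit 0), (nat_lit 0), [], [⟨(nat_lit 1), (nat_lit 91), (nat_lit 57), (nat_lit 100), (nat_lit 109705864)⟩], [], [⟨(nat_lit 0), (nat_lit 97), (nat_lit 100), (nat_lit 18), (nat_lit 43538261)⟩],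
 ⟨⟨[(nat_lit 40), (nat_lit 80), (nat_lit 100)], [(nat_lit 0), (nat_lit 1598), (nat_lit 2533)], [((nat_lit 0), (nat_lit 0), (nat_lit 0)), ((nat_lit 1000), (nat_lit 625), (nat_lit 623)), ((nat_lit 1000), (nat_lit 604), (nat_lit 730))], ((nat_lit 61), (nat_lit 100), (nat_lit 68))⟩, (nat_lit 0), (nat_lit 135), (nat_lit 135), (nat_lit 0), (nat_lit 159112), [(nat_lit 1366901220), (nat_lit 711094917), (nat_lit 422752400)], [(nat_lit 0), (nat_lit 0), (nat_lit 0)], [(nat_lit 21306505348), (nat_lit 21905310972), (nat_lit 23547175504), (nat_lit 24048980201), (nat_lit 24893571765), (nat_lit 25522622514), (nat_lit 26806693155), (nat_lit 27282418792)], (nat_lit 1271251), (nat_lit 1271251), (nat_lit 780000), (nat_lit 1762501), (nat_lit 1271251), (nat_lit 1271251), [(nat_lit 490000), (nat_lit 1100000), (nat_lit 1442501)], [(nat_lit 3), (nat_lit 50), (nat_lit 272), (nat_lit 60), (nat_lit 9)]⟩,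
 ⟨⟨[(nat_lit 120), (nat_lit 160), (nat_lit 180)], [(nat_lit 0), (nat_lit 533), (nat_lit 2066)], [((nat_lit 0), (nat_lit 0), (nat_lit 0)), ((nat_lit 960), (nat_lit 1000), (nat_lit 200)), ((nat_lit 615), (nat_lit 1000), (nat_lit 729))], ((nat_lit 100), (nat_lit 67), (nat_lit 68))⟩, (nat_lit 428622), (nat_lit 367), (nat_lit 367), (nat_lit 0), (nat_lit 0), [(nat_lit 693216000), (nat_lit 1032864000), (nat_lit 1223046000)], [], [(nat_lit 2579246348), (nat_lit 2702546344), (nat_lit 2724022399), (nat_lit 2803995501), (nat_lit 3205675649), (nat_lit 3212284034), (nat_lit 3056529964), (nat_lit 3039583472)], (nat_lit 0), (nat_lit 0), (nat_lit 0), (nat_lit 0), (nat_lit 0), (nat_lit 0), [], [(nat_lit 28), (nat_lit 65), (nat_lit 456), (nat_lit 225), (nat_lit 11)]⟩,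
 ⟨⟨[(nat_lit 120), (nat_lit 160), (nat_lit 200)], [(nat_lit 0), (nat_lit 0), (nat_lit 3198)], [((nat_lit 0), (nat_lit 0), (nat_lit 0)), ((nat_lit 0), (nat_lit 0), (nat_lit 0)), ((nat_lit 572), (nat_lit 1000), (nat_lit 714))], ((nat_lit 0), (nat_lit 0), (nat_lit 0))⟩, (nat_lit 42439), (nat_lit 300), (nat_lit 664), (nat_lit 6455401), (nat_lit 480461), [(nat_lit 693216000), (nat_lit 1032864000), (nat_lit 1426800000)], [], [(nat_lit 5589892532), (nat_lit 5530617956), (nat_lit 5415408465), (nat_lit 5365462765), (nat_lit 5733414578), (nat_lit 6076544964), (nat_lit 4124328265), (nat_lit 4074382443)], (nat_lit 1100000), (nat_lit 1271251), (nat_lit 1271251), (nat_lit 1271251), (nat_lit 0), (nat_lit 2825001), [(nat_lit 1695001), (nat_lit 1271251), (nat_lit 1271251)], [(nat_lit 29), (nat_lit 66), (nat_lit 456), (nat_lit 225), (nat_lit 10)]⟩⟩) (.trX (nat_lit 4) (nat_lit 0) (nat_lit 2) (nat_lit 53) (nat_lit 90) (nat_lit 100) (nat_lit 290) (.leaf ⟨(nat_lit 869),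 (nat_lit 47), (nat_lit 0), (nat_lit 84), (nat_lit 0), (nat_lit 3348), (nat_lit 1605), (nat_lit 1127), (nat_lit 0), (nat_lit 0), (nat_lit 347600), [((nat_lit 380), [((nat_lit 25), (nat_lit 1), (nat_lit 869))])], ⟨(nat_lit 4), true, false, false, (nat_lit 188), (nat_lit 2236), (nat_lit 2739), [(nat_lit 1359410), (nat_lit 1363145), (nat_lit 1404204), (nat_lit 1408652), (nat_lit 1536642), (nat_lit 1534240), (nat_lit 1581477), (nat_lit 1579788)]⟩, ⟨(nat_lit 5), false, false, true, (nat_lit 213), (nat_lit 2236), (nat_lit 2739), [(nat_lit 1455164), (nat_lit 1454450), (nat_lit 1477581), (nat_lit 1477224), (nat_lit 1588052), (nat_lit 1582735), (nat_lit 1610469), (nat_lit 1605509)]⟩, (nat_lit 4910727), (nat_lit 42332718), (nat_lit 11153534), (nat_lit 13513748), (nat_lit 5), (nat_lit 0), [], [⟨(nat_lit 1), (nat_lit 95), (nat_lit 49), (nat_lit 100), (nat_lit 172500853)⟩], [], [⟨(nat_lit 0), (nat_lit 98), (nat_lit 100), (nat_lit 13), (nat_lit 5163034)⟩],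
 ⟨⟨[(nat_lit 40), (nat_lit 60), (nat_lit 80)], [(nat_lit 0), (nat_lit 1134), (nat_lit 1930)], [((nat_lit 0), (nat_lit 0), (nat_lit 0)), ((nat_lit 1000), (nat_lit 575), (nat_lit 619)), ((nat_lit 1000), (nat_lit 574), (nat_lit 622))], ((nat_lit 55), (nat_lit 100), (nat_lit 70))⟩, (nat_lit 61139), (nat_lit 131), (nat_lit 131), (nat_lit 0), (nat_lit 225497), [(nat_lit 1436843951), (nat_lit 1288365712), (nat_lit 1442806400)], [(nat_lit 0), (nat_lit 0), (nat_lit 0)], [(nat_lit 22158029012), (nat_lit 22773781745), (nat_lit 24390901571), (nat_lit 24905605442), (nat_lit 25013524285), (nat_lit 25535341112), (nat_lit 26762512656), (nat_lit 27270132656)], (nat_lit 1271251), (nat_lit 1271251), (nat_lit 780000), (nat_lit 1762501), (nat_lit 1271251), (nat_lit 1271251), [(nat_lit 490000), (nat_lit 780000), (nat_lit 1100000)], [(nat_lit 2), (nat_lit 44), (nat_lit 272), (nat_lit 60), (nat_lit 11)]⟩,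
 ⟨⟨[(nat_lit 120), (nat_lit 160), (nat_lit 180)], [(nat_lit 0), (nat_lit 533), (nat_lit 2066)], [((nat_lit 0), (nat_lit 0), (nat_lit 0)), ((nat_lit 960), (nat_lit 1000), (nat_lit 200)), ((nat_lit 615), (nat_lit 1000), (nat_lit 729))], ((nat_lit 100), (nat_lit 67), (nat_lit 68))⟩, (nat_lit 732710), (nat_lit 367), (nat_lit 367), (nat_lit 0), (nat_lit 0), [(nat_lit 1043808000), (nat_lit 1555232000), (nat_lit 1841598000)], [], [(nat_lit 3767760282), (nat_lit 3955693701), (nat_lit 3988563404), (nat_lit 4196403136), (nat_lit 4791692888), (nat_lit 4795373447), (nat_lit 4534587788), (nat_lit 4559590007)], (nat_lit 0), (nat_lit 0), (nat_lit 0), (nat_lit 0), (nat_lit 0), (nat_lit 0), [], [(nat_lit 28), (nat_lit 65), (nat_lit 456), (nat_lit 225), (nat_lit 11)]⟩,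
 ⟨⟨[(nat_lit 120), (nat_lit 160), (nat_lit 200)], [(nat_lit 0), (nat_lit 0), (nat_lit 3198)], [((nat_lit 0), (nat_lit 0), (nat_lit 0)), ((nat_lit 0), (nat_lit 0), (nat_lit 0)), ((nat_lit 572), (nat_lit 1000), (nat_lit 714))], ((nat_lit 0), (nat_lit 0), (nat_lit 0))⟩, (nat_lit 40976), (nat_lit 300), (nat_lit 756), (nat_lit 6232800), (nat_lit 714018), [(nat_lit 669312000), (nat_lit 997248000), (nat_lit 1377600000)], [], [(nat_lit 5377139474), (nat_lit 5318717957), (nat_lit 5221123103), (nat_lit 5157375671), (nat_lit 5556512066), (nat_lit 5891675328), (nat_lit 3974563103), (nat_lit 3910815671)], (nat_lit 1100000), (nat_lit 1271251), (nat_lit 1271251), (nat_lit 1271251), (nat_lit 0), (nat_lit 2825001), [(nat_lit 1695001), (nat_lit 1271251), (nat_lit 1271251)], [(nat_lit 29), (nat_lit 66), (nat_lit 456), (nat_lit 225), (nat_lit 10)]⟩⟩)))) (.spl (nat_lit 2) (nat_lit 160) (.trX (nat_lit 4) (nat_lit 0) (nat_lit 2) (nat_lit 61) (nat_lit 92) (nat_lit 100) (nat_lit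 290) (.leaf ⟨(nat_lit 810), (nat_lit 135), (nat_lit 0), (nat_lit 55), (nat_lit 0), (nat_lit 3403), (nat_lit 1772), (nat_lit 660), (nat_lit 0), (nat_lit 0), (nat_lit 453100), [((nat_lit 380), [((nat_lit 25), (nat_lit 0), (nat_lit 94)), ((nat_lit 41), (nat_lit 2), (nat_lit 716))])], ⟨(nat_lit 5), true, false, false, (nat_lit 202), (nat_lit 2236), (nat_lit 3163), [(nat_lit 1399976), (nat_lit 1408471), (nat_lit 1422068), (nat_lit 1431182), (nat_lit 1583107), (nat_lit 1579788), (nat_lit 1605240), (nat_lit 1602541)]⟩, ⟨(nat_lit 5), false, false, true, (nat_lit 200), (nat_lit 2236), (nat_lit 3163), [(nat_lit 1411379), (nat_lit 1408901), (nat_lit 1455689), (nat_lit 1454450), (nat_lit 1548524), (nat_lit 1537186), (nat_lit 1592834), (nat_lit 1582735)]⟩, (nat_lit 4919453), (nat_lit 42350374), (nat_lit 12424122), (nat_lit 12225504), (nat_lit 5), (nat_lit 0), [⟨(nat_lit 0), (nat_lit 100), (nat_lit 53), (nat_lit 93), (nat_lit 87016988)⟩], [⟨(nat_lit 1), (nat_lit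 100), (nat_lit 54), (nat_lit 98), (nat_lit 153845134)⟩], [], [],
 ⟨⟨[(nat_lit 40), (nat_lit 80), (nat_lit 100)], [(nat_lit 0), (nat_lit 1598), (nat_lit 2533)], [((nat_lit 0), (nat_lit 0), (nat_lit 0)), ((nat_lit 1000), (nat_lit 625), (nat_lit 623)), ((nat_lit 1000), (nat_lit 604), (nat_lit 730))], ((nat_lit 61), (nat_lit 100), (nat_lit 68))⟩, (nat_lit 145762), (nat_lit 194), (nat_lit 194), (nat_lit 0), (nat_lit 330963), [(nat_lit 1412292812), (nat_lit 1027716772), (nat_lit 875082028)], [(nat_lit 0), (nat_lit 0), (nat_lit 0)], [(nat_lit 21539816891), (nat_lit 22624385263), (nat_lit 23663009871), (nat_lit 24701207354), (nat_lit 24233601471), (nat_lit 25601625751), (nat_lit 26198214572), (nat_lit 27319731835)], (nat_lit 1271251), (nat_lit 1271251), (nat_lit 780000), (nat_lit 1762501), (nat_lit 1271251), (nat_lit 1271251), [(nat_lit 490000), (nat_lit 1100000), (nat_lit 1442501)], [(nat_lit 3), (nat_lit 50), (nat_lit 272), (nat_lit 60), (nat_lit 9)]⟩,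
 ⟨⟨[(nat_lit 100), (nat_lit 140), (nat_lit 160)], [(nat_lit 0), (nat_lit 508), (nat_lit 1689)], [((nat_lit 0), (nat_lit 0), (nat_lit 0)), ((nat_lit 1000), (nat_lit 1000), (nat_lit 198)), ((nat_lit 811), (nat_lit 1000), (nat_lit 671))], ((nat_lit 100), (nat_lit 81), (nat_lit 68))⟩, (nat_lit 636787), (nat_lit 210), (nat_lit 210), (nat_lit 0), (nat_lit 0), [(nat_lit 1187500000), (nat_lit 1869980000), (nat_lit 2255680000)], [], [(nat_lit 4970443162), (nat_lit 5119945249), (nat_lit 5447564763), (nat_lit 5587024789), (nat_lit 6415057100), (nat_lit 6437041877), (nat_lit 6268423122), (nat_lit 6284162828)], (nat_lit 0), (nat_lit 0), (nat_lit 0), (nat_lit 0), (nat_lit 0), (nat_lit 0), [], [(nat_lit 23), (nat_lit 62), (nat_lit 456), (nat_lit 225), (nat_lit 12)]⟩,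
 ⟨⟨[(nat_lit 140), (nat_lit 180), (nat_lit 200)], [(nat_lit 0), (nat_lit 0), (nat_lit 2835)], [((nat_lit 0), (nat_lit 0), (nat_lit 0)), ((nat_lit 0), (nat_lit 0), (nat_lit 0)), ((nat_lit 363), (nat_lit 1000), (nat_lit 798))], ((nat_lit 0), (nat_lit 0), (nat_lit 0))⟩, (nat_lit 15132), (nat_lit 300), (nat_lit 1299), (nat_lit 4295504), (nat_lit 1830432), [(nat_lit 541310000), (nat_lit 773190000), (nat_lit 902000000)], [], [(nat_lit 3914160040), (nat_lit 3801959050), (nat_lit 3783518980), (nat_lit 3669539813), (nat_lit 3859054320), (nat_lit 4198851800), (nat_lit 2924418180), (nat_lit 2929628570)], (nat_lit 780000), (nat_lit 1100000), (nat_lit 1271251), (nat_lit 1271251), (nat_lit 0), (nat_lit 2825001), [(nat_lit 1977501), (nat_lit 1271251), (nat_lit 1271251)], [(nat_lit 32), (nat_lit 67), (nat_lit 456), (nat_lit 225), (nat_lit 10)]⟩⟩)) (.leaf ⟨(nat_lit 626), (nat_lit 250), (nat_lit 0), (nat_lit 124), (nat_lit 0), (nat_lit 3590), (nat_lit 3572), (nat_lit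 1421), (nat_lit 0), (nat_lit 0), (nat_lit 342700), [((nat_lit 380), [((nat_lit 25), (nat_lit 0), (nat_lit 94)), ((nat_lit 41), (nat_lit 2), (nat_lit 532))])], ⟨(nat_lit 5), true, false, false, (nat_lit 202), (nat_lit 2236), (nat_lit 3163), [(nat_lit 1399976), (nat_lit 1408471), (nat_lit 1422068), (nat_lit 1431182), (nat_lit 1583107), (nat_lit 1579788), (nat_lit 1605240), (nat_lit 1602541)]⟩, ⟨(nat_lit 5), false, false, true, (nat_lit 219), (nat_lit 2236), (nat_lit 3163), [(nat_lit 1455689), (nat_lit 1454450), (nat_lit 1477844), (nat_lit 1477224), (nat_lit 1623310), (nat_lit 1611243), (nat_lit 1645465), (nat_lit 1634017)]⟩, (nat_lit 5053135), (nat_lit 40953642), (nat_lit 12166743), (nat_lit 13879615), (nat_lit 5), (nat_lit 0), [⟨(nat_lit 0), (nat_lit 100), (nat_lit 53), (nat_lit 93), (nat_lit 45687476)⟩], [⟨(nat_lit 1), (nat_lit 93), (nat_lit 53), (nat_lit 100), (nat_lit 152726161)⟩], [], [],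
 ⟨⟨[(nat_lit 40), (nat_lit 80), (nat_lit 100)], [(nat_lit 0), (nat_lit 1598), (nat_lit 2533)], [((nat_lit 0), (nat_lit 0), (nat_lit 0)), ((nat_lit 1000), (nat_lit 625), (nat_lit 623)), ((nat_lit 1000), (nat_lit 604), (nat_lit 730))], ((nat_lit 61), (nat_lit 100), (nat_lit 68))⟩, (nat_lit 434489), (nat_lit 167), (nat_lit 167), (nat_lit 0), (nat_lit 259238), [(nat_lit 1517099239), (nat_lit 1886516942), (nat_lit 2156533058)], [(nat_lit 0), (nat_lit 0), (nat_lit 0)], [(nat_lit 22186864445), (nat_lit 23270199488), (nat_lit 24097738110), (nat_lit 25006947225), (nat_lit 25383345888), (nat_lit 26720201398), (nat_lit 27117915570), (nat_lit 28231870588)], (nat_lit 1271251), (nat_lit 1271251), (nat_lit 780000), (nat_lit 1762501), (nat_lit 1271251), (nat_lit 1271251), [(nat_lit 490000), (nat_lit 1100000), (nat_lit 1442501)], [(nat_lit 3), (nat_lit 50), (nat_lit 272), (nat_lit 60), (nat_lit 9)]⟩,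
 ⟨⟨[(nat_lit 100), (nat_lit 140), (nat_lit 160)], [(nat_lit 0), (nat_lit 508), (nat_lit 1689)], [((nat_lit 0), (nat_lit 0), (nat_lit 0)), ((nat_lit 1000), (nat_lit 1000), (nat_lit 198)), ((nat_lit 811), (nat_lit 1000), (nat_lit 671))], ((nat_lit 100), (nat_lit 81), (nat_lit 68))⟩, (nat_lit 1400904), (nat_lit 210), (nat_lit 210), (nat_lit 0), (nat_lit 0), [(nat_lit 2337500000), (nat_lit 3680908000), (nat_lit 4440128000)], [], [(nat_lit 9467055623), (nat_lit 9856355236), (nat_lit 10493668414), (nat_lit 10769885704), (nat_lit 12511190016), (nat_lit 12589615512), (nat_lit 12231546766), (nat_lit 12259447712)], (nat_lit 0), (nat_lit 0), (nat_lit 0), (nat_lit 0), (nat_lit 0), (nat_lit 0), [], [(nat_lit 23), (nat_lit 62), (nat_lit 456), (nat_lit 225), (nat_lit 12)]⟩,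
 ⟨⟨[(nat_lit 120), (nat_lit 160), (nat_lit 200)], [(nat_lit 0), (nat_lit 0), (nat_lit 3198)], [((nat_lit 0), (nat_lit 0), (nat_lit 0)), ((nat_lit 0), (nat_lit 0), (nat_lit 0)), ((nat_lit 572), (nat_lit 1000), (nat_lit 714))], ((nat_lit 0), (nat_lit 0), (nat_lit 0))⟩, (nat_lit 60488), (nat_lit 300), (nat_lit 832), (nat_lit 9200800), (nat_lit 828914), [(nat_lit 988032000), (nat_lit 1472128000), (nat_lit 2033600000)], [], [(nat_lit 8385082432), (nat_lit 8300709138), (nat_lit 8062953095), (nat_lit 7986310850), (nat_lit 7880741270), (nat_lit 8315728064), (nat_lit 6222793095), (nat_lit 6146150850)], (nat_lit 1100000), (nat_lit 1271251), (nat_lit 1271251), (nat_lit 1271251), (nat_lit 0), (nat_lit 2825001), [(nat_lit 1695001), (nat_lit 1271251), (nat_lit 1271251)], [(nat_lit 29), (nat_lit 66), (nat_lit 456), (nat_lit 225), (nat_lit 10)]⟩⟩))))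
noncomputable def c16_26 : Tr Lf :=
 (.spl (nat_lit 4) (nat_lit 240) (.leaf ⟨(nat_lit 949), (nat_lit 0), (nat_lit 0), (nat_lit 51), (nat_lit 0), (nat_lit 3379), (nat_lit 663), (nat_lit 763), (nat_lit 0), (nat_lit 0), (nat_lit 447200), [((nat_lit 380), [((nat_lit 25), (nat_lit 1), (nat_lit 611)), ((nat_lit 41), (nat_lit 2), (nat_lit 338))])], ⟨(nat_lit 4), false, false, false, (nat_lit 193), (nat_lit 2236), (nat_lit 3163), [(nat_lit 1355794), (nat_lit 1363050), (nat_lit 1422068), (nat_lit 1431182), (nat_lit 1538797), (nat_lit 1534240), (nat_lit 1605240), (nat_lit 1602541)]⟩, ⟨(nat_lit 5), false, false, true, (nat_lit 189), (nat_lit 2236), (nat_lit 3163), [(nat_lit 1411379), (nat_lit 1408901), (nat_lit 1477844), (nat_lit 1477224), (nat_lit 1472332), (nat_lit 1465917), (nat_lit 1538797), (nat_lit 1534240)]⟩, (nat_lit 4769117), (nat_lit 43758684), (nat_lit 11780249), (nat_lit 11461067), (nat_lit 0), (nat_lit 0), [], [], [], [],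
 ⟨⟨[(nat_lit 40), (nat_lit 80), (nat_lit 100)], [(nat_lit 0), (nat_lit 1598), (nat_lit 2533)], [((nat_lit 0), (nat_lit 0), (nat_lit 0)), ((nat_lit 1000), (nat_lit 625), (nat_lit 623)), ((nat_lit 1000), (nat_lit 604), (nat_lit 730))], ((nat_lit 61), (nat_lit 100), (nat_lit 68))⟩, (nat_lit 0), (nat_lit 206), (nat_lit 206), (nat_lit 0), (nat_lit 368486), [(nat_lit 1373851625), (nat_lit 817875317), (nat_lit 636470000)], [(nat_lit 0), (nat_lit 0), (nat_lit 0)], [(nat_lit 21707079439), (nat_lit 22761852308), (nat_lit 23715335480), (nat_lit 24690025521), (nat_lit 22622721480), (nat_lit 23654017549), (nat_lit 24538638196), (nat_lit 25468224231)], (nat_lit 1271251), (nat_lit 1271251), (nat_lit 780000), (nat_lit 1762501), (nat_lit 1271251), (nat_lit 1271251), [(nat_lit 490000), (nat_lit 1100000), (nat_lit 1442501)], [(nat_lit 3), (nat_lit 50), (nat_lit 272), (nat_lit 60), (nat_lit 9)]⟩,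
 ⟨⟨[(nat_lit 120), (nat_lit 160), (nat_lit 180)], [(nat_lit 0), (nat_lit 533), (nat_lit 2066)], [((nat_lit 0), (nat_lit 0), (nat_lit 0)), ((nat_lit 960), (nat_lit 1000), (nat_lit 200)), ((nat_lit 615), (nat_lit 1000), (nat_lit 729))], ((nat_lit 100), (nat_lit 67), (nat_lit 68))⟩, (nat_lit 313467), (nat_lit 906), (nat_lit 906), (nat_lit 0), (nat_lit 1066611), [(nat_lit 406368000), (nat_lit 605472000), (nat_lit 716958000)], [], [(nat_lit 1907422623), (nat_lit 1893078261), (nat_lit 2468069622), (nat_lit 1825971210), (nat_lit 3326516438), (nat_lit 2431503234), (nat_lit 4361368275), (nat_lit 3499815024)], (nat_lit 1271251), (nat_lit 1271251), (nat_lit 780000), (nat_lit 1762501), (nat_lit 0), (nat_lit 2825001), [(nat_lit 1695001), (nat_lit 1271251), (nat_lit 1271251)], [(nat_lit 28), (nat_lit 65), (nat_lit 456), (nat_lit 225), (nat_lit 11)]⟩,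
 ⟨⟨[(nat_lit 140), (nat_lit 180), (nat_lit 200)], [(nat_lit 0), (nat_lit 0), (nat_lit 2835)], [((nat_lit 0), (nat_lit 0), (nat_lit 0)), ((nat_lit 0), (nat_lit 0), (nat_lit 0)), ((nat_lit 363), (nat_lit 1000), (nat_lit 798))], ((nat_lit 0), (nat_lit 0), (nat_lit 0))⟩, (nat_lit 14032), (nat_lit 300), (nat_lit 945), (nat_lit 3983100), (nat_lit 1041989), [(nat_lit 501942000), (nat_lit 716958000), (nat_lit 836400000)], [], [(nat_lit 3415344216), (nat_lit 3242211868), (nat_lit 3335631268), (nat_lit 3177256151), (nat_lit 3793263388), (nat_lit 4401066631), (nat_lit 3123968944), (nat_lit 3744056487)], (nat_lit 780000), (nat_lit 1271251), (nat_lit 1271251), (nat_lit 1271251), (nat_lit 0), (nat_lit 2825001), [(nat_lit 1977501), (nat_lit 1271251), (nat_lit 1271251)], [(nat_lit 32), (nat_lit 67), (nat_lit 456), (nat_lit 225), (nat_lit 10)]⟩⟩) (.spl (nat_lit 5) (nat_lit 120) (.spl (nat_lit 2) (nat_lit 160) (.trX (nat_lit 4) (nat_lit 0) (nat_lit 2) (nat_lit 61) (nat_lit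 92) (nat_lit 100) (nat_lit 290) (.spl (nat_lit 0) (nat_lit 370) (.leaf ⟨(nat_lit 958), (nat_lit 0), (nat_lit 0), (nat_lit 42), (nat_lit 0), (nat_lit 3376), (nat_lit 640), (nat_lit 665), (nat_lit 0), (nat_lit 0), (nat_lit 458800), [((nat_lit 370), [((nat_lit 25), (nat_lit 1), (nat_lit 580)), ((nat_lit 41), (nat_lit 2), (nat_lit 378))])], ⟨(nat_lit 4), false, false, false, (nat_lit 192), (nat_lit 2738), (nat_lit 3163), [(nat_lit 1355914), (nat_lit 1359435), (nat_lit 1422342), (nat_lit 1426651), (nat_lit 1538797), (nat_lit 1536642), (nat_lit 1605257), (nat_lit 1603890)]⟩, ⟨(nat_lit 6), false, false, true, (nat_lit 212), (nat_lit 2738), (nat_lit 3163), [(nat_lit 1472332), (nat_lit 1469390), (nat_lit 1516642), (nat_lit 1514225), (nat_lit 1548524), (nat_lit 1543217), (nat_lit 1592834), (nat_lit 1588052)]⟩, (nat_lit 4940768), (nat_lit 42073497), (nat_lit 11493790), (nat_lit 13432713), (nat_lit 0), (nat_lit 0), [], [⟨(nat_lit 1), (nat_lit 92), (nat_lit 61),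 (nat_lit 100), (nat_lit 217693986)⟩], [], [⟨(nat_lit 0), (nat_lit 95), (nat_lit 100), (nat_lit 23), (nat_lit 46230680)⟩],
 ⟨⟨[(nat_lit 40), (nat_lit 80), (nat_lit 100)], [(nat_lit 0), (nat_lit 1598), (nat_lit 2533)], [((nat_lit 0), (nat_lit 0), (nat_lit 0)), ((nat_lit 1000), (nat_lit 625), (nat_lit 623)), ((nat_lit 1000), (nat_lit 604), (nat_lit 730))], ((nat_lit 61), (nat_lit 100), (nat_lit 68))⟩, (nat_lit 0), (nat_lit 182), (nat_lit 182), (nat_lit 0), (nat_lit 333036), [(nat_lit 1366591201), (nat_lit 740896695), (nat_lit 523272800)], [(nat_lit 0), (nat_lit 0), (nat_lit 0)], [(nat_lit 22444553266), (nat_lit 22988044662), (nat_lit 24443991348), (nat_lit 24944937808), (nat_lit 24206361461), (nat_lit 24887664779), (nat_lit 26160242210), (nat_lit 26727812679)], (nat_lit 1271251), (nat_lit 1271251), (nat_lit 780000), (nat_lit 1762501), (nat_lit 1271251), (nat_lit 1271251), [(nat_lit 490000), (nat_lit 1100000), (nat_lit 1442501)], [(nat_lit 3), (nat_lit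 50), (nat_lit 272), (nat_lit 60), (nat_lit 9)]⟩,
 ⟨⟨[(nat_lit 120), (nat_lit 160), (nat_lit 180)], [(nat_lit 0), (nat_lit 533), (nat_lit 2066)], [((nat_lit 0), (nat_lit 0), (nat_lit 0)), ((nat_lit 960), (nat_lit 1000), (nat_lit 200)), ((nat_lit 615), (nat_lit 1000), (nat_lit 729))], ((nat_lit 100), (nat_lit 67), (nat_lit 68))⟩, (nat_lit 178855), (nat_lit 643), (nat_lit 643), (nat_lit 0), (nat_lit 526298), [(nat_lit 334656000), (nat_lit 498624000), (nat_lit 590436000)], [], [(nat_lit 1570293347), (nat_lit 1587378467), (nat_lit 2095308832), (nat_lit 1523184778), (nat_lit 1552070424), (nat_lit 1080699086), (nat_lit 2353807072), (nat_lit 1442693152)], (nat_lit 1271251), (nat_lit 1271251), (nat_lit 780000), (nat_lit 1762501), (nat_lit 0), (nat_lit 780000), [(nat_lit 1695001), (nat_lit 1271251), (nat_lit 1271251)], [(nat_lit 28), (nat_lit 65), (nat_lit 373), (nat_lit 150), (nat_lit 9)]⟩,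
 ⟨⟨[(nat_lit 140), (nat_lit 180), (nat_lit 200)], [(nat_lit 0), (nat_lit 0), (nat_lit 2835)], [((nat_lit 0), (nat_lit 0), (nat_lit 0)), ((nat_lit 0), (nat_lit 0), (nat_lit 0)), ((nat_lit 363), (nat_lit 1000), (nat_lit 798))], ((nat_lit 0), (nat_lit 0), (nat_lit 0))⟩, (nat_lit 11556), (nat_lit 300), (nat_lit 877), (nat_lit 3280200), (nat_lit 920690), [(nat_lit 413364000), (nat_lit 590436000), (nat_lit 688800000)], [], [(nat_lit 2746201360), (nat_lit 2641383640), (nat_lit 2782072720), (nat_lit 2671529263), (nat_lit 2137970716), (nat_lit 2041723558), (nat_lit 2167973705), (nat_lit 2066185802)], (nat_lit 780000), (nat_lit 1100000), (nat_lit 1271251), (nat_lit 1271251), (nat_lit 0), (nat_lit 780000), [(nat_lit 1977501), (nat_lit 1271251), (nat_lit 1271251)], [(nat_lit 32), (nat_lit 67), (nat_lit 373), (nat_lit 150), (nat_lit 8)]⟩⟩) (.trX (nat_lit 4) (nat_lit 0) (nat_lit 2) (nat_lit 54) (nat_lit 96) (nat_lit 100) (nat_lit 270) (.leaf ⟨(nat_lit 947), (nat_lit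 0), (nat_lit 0), (nat_lit 53), (nat_lit 0), (nat_lit 3373), (nat_lit 655), (nat_lit 1111), (nat_lit 0), (nat_lit 0), (nat_lit 378800), [((nat_lit 380), [((nat_lit 25), (nat_lit 1), (nat_lit 947))])], ⟨(nat_lit 4), false, false, false, (nat_lit 193), (nat_lit 2236), (nat_lit 2739), [(nat_lit 1359410), (nat_lit 1363145), (nat_lit 1426601), (nat_lit 1431406), (nat_lit 1536642), (nat_lit 1534240), (nat_lit 1603890), (nat_lit 1602558)]⟩, ⟨(nat_lit 6), false, false, true, (nat_lit 205), (nat_lit 2236), (nat_lit 2739), [(nat_lit 1469390), (nat_lit 1465917), (nat_lit 1514225), (nat_lit 1511466), (nat_lit 1513686), (nat_lit 1508679), (nat_lit 1558521), (nat_lit 1554227)]⟩, (nat_lit 4891551), (nat_lit 42595299), (nat_lit 11622140), (nat_lit 12782561), (nat_lit 0), (nat_lit 0), [], [⟨(nat_lit 1), (nat_lit 96), (nat_lit 54), (nat_lit 100), (nat_lit 214709009)⟩], [], [⟨(nat_lit 0), (nat_lit 97), (nat_lit 100), (nat_lit 18), (nat_lit 69269544)⟩, ⟨(nat_lit 0), (nat_lit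 96), (nat_lit 100), (nat_lit 54), (nat_lit 1627720)⟩],
 ⟨⟨[(nat_lit 40), (nat_lit 60), (nat_lit 80)], [(nat_lit 0), (nat_lit 1134), (nat_lit 1930)], [((nat_lit 0), (nat_lit 0), (nat_lit 0)), ((nat_lit 1000), (nat_lit 575), (nat_lit 619)), ((nat_lit 1000), (nat_lit 574), (nat_lit 622))], ((nat_lit 55), (nat_lit 100), (nat_lit 70))⟩, (nat_lit 0), (nat_lit 175), (nat_lit 175), (nat_lit 0), (nat_lit 364315), [(nat_lit 1404426859), (nat_lit 1149346801), (nat_lit 1151523200)], [(nat_lit 0), (nat_lit 0), (nat_lit 0)], [(nat_lit 22916234557), (nat_lit 23507940519), (nat_lit 25103169366), (nat_lit 25603928633), (nat_lit 24047308784), (nat_lit 24689858606), (nat_lit 26055426826), (nat_lit 26560764101)], (nat_lit 1271251), (nat_lit 1271251), (nat_lit 780000), (nat_lit 1762501), (nat_lit 1271251), (nat_lit 1271251), [(nat_lit 490000), (nat_lit 780000), (nat_lit 1100000)], [(nat_lit 2), (nat_lit 44), (nat_lit 272), (nat_lit 60), (nat_lit 11)]⟩,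
 ⟨⟨[(nat_lit 120), (nat_lit 160), (nat_lit 180)], [(nat_lit 0), (nat_lit 533), (nat_lit 2066)], [((nat_lit 0), (nat_lit 0), (nat_lit 0)), ((nat_lit 960), (nat_lit 1000), (nat_lit 200)), ((nat_lit 615), (nat_lit 1000), (nat_lit 729))], ((nat_lit 100), (nat_lit 67), (nat_lit 68))⟩, (nat_lit 435172), (nat_lit 683), (nat_lit 683), (nat_lit 0), (nat_lit 615684), [(nat_lit 422304000), (nat_lit 629216000), (nat_lit 745074000)], [], [(nat_lit 1876671423), (nat_lit 1845172346), (nat_lit 2542148678), (nat_lit 1804687016), (nat_lit 1978065424), (nat_lit 1368045507), (nat_lit 2837954221), (nat_lit 1905486068)], (nat_lit 1271251), (nat_lit 1271251), (nat_lit 780000), (nat_lit 1762501), (nat_lit 0), (nat_lit 780000), [(nat_lit 1695001), (nat_lit 1271251), (nat_lit 1271251)], [(nat_lit 28), (nat_lit 65), (nat_lit 373), (nat_lit 150), (nat_lit 9)]⟩,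
 ⟨⟨[(nat_lit 140), (nat_lit 180), (nat_lit 200)], [(nat_lit 0), (nat_lit 0), (nat_lit 2835)], [((nat_lit 0), (nat_lit 0), (nat_lit 0)), ((nat_lit 0), (nat_lit 0), (nat_lit 0)), ((nat_lit 363), (nat_lit 1000), (nat_lit 798))], ((nat_lit 0), (nat_lit 0), (nat_lit 0))⟩, (nat_lit 14582), (nat_lit 300), (nat_lit 927), (nat_lit 4139301), (nat_lit 1041989), [(nat_lit 521626000), (nat_lit 745074000), (nat_lit 869200000)], [], [(nat_lit 3543611192), (nat_lit 3356415656), (nat_lit 3568148288), (nat_lit 3375435484), (nat_lit 2498997980), (nat_lit 2326458682), (nat_lit 2518142027), (nat_lit 2340257739)], (nat_lit 780000), (nat_lit 1100000), (nat_lit 1271251), (nat_lit 1271251), (nat_lit 0), (nat_lit 780000), [(nat_lit 1977501), (nat_lit 1271251), (nat_lit 1271251)], [(nat_lit 32), (nat_lit 67), (nat_lit 373), (nat_lit 150), (nat_lit 8)]⟩⟩)))) (.spl (nat_lit 2) (nat_lit 170) (.trX (nat_lit 4) (nat_lit 0) (nat_lit 2) (nat_lit 61) (nat_lit 89) (nat_lit 100) (nat_lit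 300) (.spl (nat_lit 6) (nat_lit 28) (.leaf ⟨(nat_lit 880), (nat_lit 0), (nat_lit 0), (nat_lit 120), (nat_lit 0), (nat_lit 3430), (nat_lit 1334), (nat_lit 1817), (nat_lit 0), (nat_lit 0), (nat_lit 388600), [((nat_lit 380), [((nat_lit 24), (nat_lit 1), (nat_lit 697)), ((nat_lit 41), (nat_lit 2), (nat_lit 183))])], ⟨(nat_lit 4), false, false, false, (nat_lit 193), (nat_lit 2236), (nat_lit 3163), [(nat_lit 1355794), (nat_lit 1363050), (nat_lit 1422068), (nat_lit 1431182), (nat_lit 1538797), (nat_lit 1534240), (nat_lit 1605240), (nat_lit 1602541)]⟩, ⟨(nat_lit 6), false, false, true, (nat_lit 226), (nat_lit 2236), (nat_lit 3163), [(nat_lit 1516642), (nat_lit 1511466), (nat_lit 1527720), (nat_lit 1522853), (nat_lit 1608072), (nat_lit 1596989), (nat_lit 1619150), (nat_lit 1608376)]⟩, (nat_lit 5027915), (nat_lit 41072603), (nat_lit 11341149), (nat_lit 14586248), (nat_lit 0), (nat_lit 0), [], [⟨(nat_lit 1), (nat_lit 94), (nat_lit 54), (nat_lit 100), (nat_lit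 187956402)⟩], [], [⟨(nat_lit 0), (nat_lit 94), (nat_lit 100), (nat_lit 26), (nat_lit 129752950)⟩],
 ⟨⟨[(nat_lit 40), (nat_lit 60), (nat_lit 80)], [(nat_lit 0), (nat_lit 832), (nat_lit 1534)], [((nat_lit 0), (nat_lit 0), (nat_lit 0)), ((nat_lit 1000), (nat_lit 659), (nat_lit 528)), ((nat_lit 1000), (nat_lit 650), (nat_lit 549))], ((nat_lit 65), (nat_lit 100), (nat_lit 55))⟩, (nat_lit 0), (nat_lit 172), (nat_lit 172), (nat_lit 0), (nat_lit 334269), [(nat_lit 1411707210), (nat_lit 1193440060), (nat_lit 1218114400)], [(nat_lit 0), (nat_lit 0), (nat_lit 0)], [(nat_lit 22314467960), (nat_lit 23477384160), (nat_lit 24497085260), (nat_lit 25506686860), (nat_lit 24733505745), (nat_lit 26074282420), (nat_lit 26593854220), (nat_lit 27711559255)], (nat_lit 1271251), (nat_lit 1271251), (nat_lit 780000), (nat_lit 1762501), (nat_lit 1271251), (nat_lit 1271251), [(nat_lit 490000), (nat_lit 780000), (nat_lit 1100000)], [(nat_lit 2), (nat_lit 44), (nat_lit 272), (nat_lit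 60), (nat_lit 11)]⟩,
 ⟨⟨[(nat_lit 120), (nat_lit 140), (nat_lit 160)], [(nat_lit 0), (nat_lit 266), (nat_lit 862)], [((nat_lit 0), (nat_lit 0), (nat_lit 0)), ((nat_lit 960), (nat_lit 1000), (nat_lit 200)), ((nat_lit 874), (nat_lit 1000), (nat_lit 406))], ((nat_lit 100), (nat_lit 81), (nat_lit 51))⟩, (nat_lit 820973), (nat_lit 548), (nat_lit 548), (nat_lit 0), (nat_lit 505565), [(nat_lit 956160000), (nat_lit 1181040000), (nat_lit 1424640000)], [], [(nat_lit 4255423697), (nat_lit 3952923046), (nat_lit 5656281308), (nat_lit 3876004994), (nat_lit 4497679059), (nat_lit 3135772840), (nat_lit 6296352077), (nat_lit 4397249000)], (nat_lit 1271251), (nat_lit 1271251), (nat_lit 780000), (nat_lit 1762501), (nat_lit 0), (nat_lit 780000), [(nat_lit 1695001), (nat_lit 1271251), (nat_lit 1271251)], [(nat_lit 27), (nat_lit 62), (nat_lit 373), (nat_lit 150), (nat_lit 10)]⟩,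
 ⟨⟨[(nat_lit 120), (nat_lit 160), (nat_lit 180)], [(nat_lit 0), (nat_lit 0), (nat_lit 1613)], [((nat_lit 0), (nat_lit 0), (nat_lit 0)), ((nat_lit 0), (nat_lit 0), (nat_lit 0)), ((nat_lit 620), (nat_lit 1000), (nat_lit 670))], ((nat_lit 100), (nat_lit 76), (nat_lit 52))⟩, (nat_lit 52226), (nat_lit 300), (nat_lit 635), (nat_lit 8904000), (nat_lit 608727), [(nat_lit 956160000), (nat_lit 1424640000), (nat_lit 1686960000)], [], [(nat_lit 6135476292), (nat_lit 6098900741), (nat_lit 6356774534), (nat_lit 6334206880), (nat_lit 4691090432), (nat_lit 4655061556), (nat_lit 4794367507), (nat_lit 4772154475)], (nat_lit 1100000), (nat_lit 1184688), (nat_lit 1271251), (nat_lit 1271251), (nat_lit 0), (nat_lit 780000), [(nat_lit 1695001), (nat_lit 1271251), (nat_lit 1271251)], [(nat_lit 28), (nat_lit 65), (nat_lit 373), (nat_lit 150), (nat_lit 9)]⟩⟩) (.spl (nat_lit 0) (nat_lit 370) (.leaf ⟨(nat_lit 946), (nat_lit 0), (nat_lit 0), (nat_lit 54), (nat_lit 3124), (nat_lit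 2978), (nat_lit 913), (nat_lit 635), (nat_lit 0), (nat_lit 0), (nat_lit 525800), [((nat_lit 370), [((nat_lit 25), (nat_lit 1), (nat_lit 209)), ((nat_lit 41), (nat_lit 2), (nat_lit 737))])], ⟨(nat_lit 4), false, false, false, (nat_lit 192), (nat_lit 2738), (nat_lit 3163), [(nat_lit 1355914), (nat_lit 1359435), (nat_lit 1422342), (nat_lit 1426651), (nat_lit 1538797), (nat_lit 1536642), (nat_lit 1605257), (nat_lit 1603890)]⟩, ⟨(nat_lit 6), false, false, true, (nat_lit 226), (nat_lit 2738), (nat_lit 3163), [(nat_lit 1516642), (nat_lit 1514225), (nat_lit 1527720), (nat_lit 1525434), (nat_lit 1608072), (nat_lit 1602817), (nat_lit 1619150), (nat_lit 1614026)]⟩, (nat_lit 5031459), (nat_lit 41023409), (nat_lit 11313981), (nat_lit 14662610), (nat_lit 0), (nat_lit 0), [], [⟨(nat_lit 1), (nat_lit 89), (nat_lit 61), (nat_lit 100), (nat_lit 195023076)⟩], [], [⟨(nat_lit 0), (nat_lit 94), (nat_lit 100), (nat_lit 26), (nat_lit 48200766)⟩],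
 ⟨⟨[(nat_lit 40), (nat_lit 80), (nat_lit 100)], [(nat_lit 0), (nat_lit 1598), (nat_lit 2533)], [((nat_lit 0), (nat_lit 0), (nat_lit 0)), ((nat_lit 1000), (nat_lit 625), (nat_lit 623)), ((nat_lit 1000), (nat_lit 604), (nat_lit 730))], ((nat_lit 61), (nat_lit 100), (nat_lit 68))⟩, (nat_lit 0), (nat_lit 124), (nat_lit 124), (nat_lit 0), (nat_lit 128843), [(nat_lit 1339986402), (nat_lit 524067610), (nat_lit 2264000)], [(nat_lit 0), (nat_lit 0), (nat_lit 0)], [(nat_lit 22105693412), (nat_lit 22652291142), (nat_lit 24194137912), (nat_lit 24729222301), (nat_lit 24254279296), (nat_lit 24882649830), (nat_lit 26288754496), (nat_lit 26765636497)], (nat_lit 1271251), (nat_lit 1271251), (nat_lit 780000), (nat_lit 1762501), (nat_lit 1271251), (nat_lit 1271251), [(nat_lit 490000), (nat_lit 1100000), (nat_lit 1442501)], [(nat_lit 3), (nat_lit 50), (nat_lit 272), (nat_lit 60), (nat_lit 9)]⟩,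
 ⟨⟨[(nat_lit 120), (nat_lit 160), (nat_lit 180)], [(nat_lit 0), (nat_lit 533), (nat_lit 2066)], [((nat_lit 0), (nat_lit 0), (nat_lit 0)), ((nat_lit 960), (nat_lit 1000), (nat_lit 200)), ((nat_lit 615), (nat_lit 1000), (nat_lit 729))], ((nat_lit 100), (nat_lit 67), (nat_lit 68))⟩, (nat_lit 242332), (nat_lit 451), (nat_lit 451), (nat_lit 0), (nat_lit 168750), [(nat_lit 430272000), (nat_lit 641088000), (nat_lit 759132000)], [], [(nat_lit 1972683928), (nat_lit 1988937664), (nat_lit 2754173290), (nat_lit 1985022520), (nat_lit 1984001429), (nat_lit 1254986894), (nat_lit 3104480436), (nat_lit 1804719484)], (nat_lit 1271251), (nat_lit 1271251), (nat_lit 780000), (nat_lit 1762501), (nat_lit 0), (nat_lit 780000), [(nat_lit 1695001), (nat_lit 1271251), (nat_lit 1271251)], [(nat_lit 28), (nat_lit 65), (nat_lit 373), (nat_lit 150), (nat_lit 9)]⟩,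
 ⟨⟨[(nat_lit 120), (nat_lit 160), (nat_lit 200)], [(nat_lit 0), (nat_lit 0), (nat_lit 3198)], [((nat_lit 0), (nat_lit 0), (nat_lit 0)), ((nat_lit 0), (nat_lit 0), (nat_lit 0)), ((nat_lit 572), (nat_lit 1000), (nat_lit 714))], ((nat_lit 0), (nat_lit 0), (nat_lit 0))⟩, (nat_lit 26341), (nat_lit 300), (nat_lit 515), (nat_lit 4006808), (nat_lit 253952), [(nat_lit 430272000), (nat_lit 641088000), (nat_lit 885600000)], [], [(nat_lit 3293018760), (nat_lit 3284279421), (nat_lit 3345687609), (nat_lit 3334575815), (nat_lit 2743426015), (nat_lit 2734866800), (nat_lit 2788553684), (nat_lit 2778044235)], (nat_lit 1100000), (nat_lit 1184688), (nat_lit 1271251), (nat_lit 1271251), (nat_lit 0), (nat_lit 780000), [(nat_lit 1695001), (nat_lit 1271251), (nat_lit 1271251)], [(nat_lit 29), (nat_lit 66), (nat_lit 373), (nat_lit 150), (nat_lit 8)]⟩⟩) (.trX (nat_lit 4) (nat_lit 0) (nat_lit 2) (nat_lit 53) (nat_lit 93) (nat_lit 100) (nat_lit 280) (.leaf ⟨(nat_lit 949), (nat_lit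 0), (nat_lit 0), (nat_lit 51), (nat_lit 0), (nat_lit 3332), (nat_lit 746), (nat_lit 1088), (nat_lit 0), (nat_lit 0), (nat_lit 323500), [((nat_lit 380), [((nat_lit 25), (nat_lit 0), (nat_lit 374)), ((nat_lit 25), (nat_lit 1), (nat_lit 575))])], ⟨(nat_lit 4), false, false, false, (nat_lit 193), (nat_lit 2236), (nat_lit 2739), [(nat_lit 1359410), (nat_lit 1363145), (nat_lit 1426601), (nat_lit 1431406), (nat_lit 1536642), (nat_lit 1534240), (nat_lit 1603890), (nat_lit 1602558)]⟩, ⟨(nat_lit 6), false, false, true, (nat_lit 219), (nat_lit 2236), (nat_lit 2739), [(nat_lit 1514225), (nat_lit 1511466), (nat_lit 1525434), (nat_lit 1522853), (nat_lit 1573286), (nat_lit 1568481), (nat_lit 1584495), (nat_lit 1579868)]⟩, (nat_lit 4988966), (nat_lit 41542199), (nat_lit 11446062), (nat_lit 14011739), (nat_lit 0), (nat_lit 0), [], [⟨(nat_lit 1), (nat_lit 96), (nat_lit 49), (nat_lit 100), (nat_lit 225788821)⟩], [], [⟨(nat_lit 0), (nat_lit 96), (nat_lit 100), (nat_lit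 20), (nat_lit 67765190)⟩],
 ⟨⟨[(nat_lit 40), (nat_lit 60), (nat_lit 80)], [(nat_lit 0), (nat_lit 1134), (nat_lit 1930)], [((nat_lit 0), (nat_lit 0), (nat_lit 0)), ((nat_lit 1000), (nat_lit 575), (nat_lit 619)), ((nat_lit 1000), (nat_lit 574), (nat_lit 622))], ((nat_lit 55), (nat_lit 100), (nat_lit 70))⟩, (nat_lit 1245), (nat_lit 116), (nat_lit 116), (nat_lit 0), (nat_lit 170969), [(nat_lit 1458050007), (nat_lit 1330344762), (nat_lit 1429042400)], [(nat_lit 0), (nat_lit 0), (nat_lit 0)], [(nat_lit 22995019140), (nat_lit 23605107279), (nat_lit 25077790263), (nat_lit 25588101393), (nat_lit 24517195538), (nat_lit 25080615888), (nat_lit 26351840697), (nat_lit 26890841696)], (nat_lit 1271251), (nat_lit 1271251), (nat_lit 780000), (nat_lit 1762501), (nat_lit 1271251), (nat_lit 1271251), [(nat_lit 490000), (nat_lit 780000), (nat_lit 1100000)], [(nat_lit 2), (nat_lit 44), (nat_lit 272), (nat_lit 60), (nat_lit 11)]⟩,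
 ⟨⟨[(nat_lit 120), (nat_lit 160), (nat_lit 180)], [(nat_lit 0), (nat_lit 533), (nat_lit 2066)], [((nat_lit 0), (nat_lit 0), (nat_lit 0)), ((nat_lit 960), (nat_lit 1000), (nat_lit 200)), ((nat_lit 615), (nat_lit 1000), (nat_lit 729))], ((nat_lit 100), (nat_lit 67), (nat_lit 68))⟩, (nat_lit 209864), (nat_lit 499), (nat_lit 499), (nat_lit 0), (nat_lit 264599), [(nat_lit 406368000), (nat_lit 605472000), (nat_lit 716958000)], [], [(nat_lit 1930673353), (nat_lit 1953407590), (nat_lit 2523503828), (nat_lit 1878452444), (nat_lit 1888636113), (nat_lit 1361981482), (nat_lit 2831192339), (nat_lit 1769175176)], (nat_lit 1271251), (nat_lit 1271251), (nat_lit 780000), (nat_lit 1762501), (nat_lit 0), (nat_lit 780000), [(nat_lit 1695001), (nat_lit 1271251), (nat_lit 1271251)], [(nat_lit 28), (nat_lit 65), (nat_lit 373), (nat_lit 150), (nat_lit 9)]⟩,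
 ⟨⟨[(nat_lit 120), (nat_lit 160), (nat_lit 200)], [(nat_lit 0), (nat_lit 0), (nat_lit 3198)], [((nat_lit 0), (nat_lit 0), (nat_lit 0)), ((nat_lit 0), (nat_lit 0), (nat_lit 0)), ((nat_lit 572), (nat_lit 1000), (nat_lit 714))], ((nat_lit 0), (nat_lit 0), (nat_lit 0))⟩, (nat_lit 24878), (nat_lit 300), (nat_lit 555), (nat_lit 3784201), (nat_lit 350530), [(nat_lit 406368000), (nat_lit 605472000), (nat_lit 836400000)], [], [(nat_lit 3151816448), (nat_lit 3128870350), (nat_lit 3175866076), (nat_lit 3150802044), (nat_lit 2141703104), (nat_lit 2119791877), (nat_lit 2158969205), (nat_lit 2134722080)], (nat_lit 1100000), (nat_lit 1184688), (nat_lit 1271251), (nat_lit 1271251), (nat_lit 0), (nat_lit 780000), [(nat_lit 1695001), (nat_lit 1271251), (nat_lit 1271251)], [(nat_lit 29), (nat_lit 66), (nat_lit 373), (nat_lit 150), (nat_lit 8)]⟩⟩))))) (.leaf ⟨(nat_lit 877), (nat_lit 0), (nat_lit 0), (nat_lit 123), (nat_lit 0), (nat_lit 3321), (nat_lit 2003), (nat_lit 1832),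 (nat_lit 0), (nat_lit 0), (nat_lit 476200), [((nat_lit 380), [((nat_lit 25), (nat_lit 1), (nat_lit 250)), ((nat_lit 41), (nat_lit 2), (nat_lit 627))])], ⟨(nat_lit 4), false, false, false, (nat_lit 193), (nat_lit 2236), (nat_lit 3163), [(nat_lit 1355794), (nat_lit 1363050), (nat_lit 1422068), (nat_lit 1431182), (nat_lit 1538797), (nat_lit 1534240), (nat_lit 1605240), (nat_lit 1602541)]⟩, ⟨(nat_lit 6), false, false, true, (nat_lit 233), (nat_lit 2236), (nat_lit 3163), [(nat_lit 1527720), (nat_lit 1522853), (nat_lit 1538797), (nat_lit 1534240), (nat_lit 1634388), (nat_lit 1622630), (nat_lit 1645465), (nat_lit 1634017)]⟩, (nat_lit 5071151), (nat_lit 40521402), (nat_lit 11242994), (nat_lit 15235604), (nat_lit 0), (nat_lit 0), [], [⟨(nat_lit 1), (nat_lit 92), (nat_lit 53), (nat_lit 100), (nat_lit 109474985)⟩], [], [⟨(nat_lit 0), (nat_lit 93), (nat_lit 100), (nat_lit 28), (nat_lit 122103721)⟩],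
 ⟨⟨[(nat_lit 40), (nat_lit 80), (nat_lit 100)], [(nat_lit 0), (nat_lit 1598), (nat_lit 2533)], [((nat_lit 0), (nat_lit 0), (nat_lit 0)), ((nat_lit 1000), (nat_lit 625), (nat_lit 623)), ((nat_lit 1000), (nat_lit 604), (nat_lit 730))], ((nat_lit 61), (nat_lit 100), (nat_lit 68))⟩, (nat_lit 0), (nat_lit 203), (nat_lit 203), (nat_lit 0), (nat_lit 338586), [(nat_lit 1378342836), (nat_lit 784050632), (nat_lit 557860768)], [(nat_lit 0), (nat_lit 0), (nat_lit 0)], [(nat_lit 22640591098), (nat_lit 23685630841), (nat_lit 24620726718), (nat_lit 25615755913), (nat_lit 25085270687), (nat_lit 26374196718), (nat_lit 26897147808), (nat_lit 27974920779)], (nat_lit 1271251), (nat_lit 1271251), (nat_lit 780000), (nat_lit 1762501), (nat_lit 1271251), (nat_lit 1271251), [(nat_lit 490000), (nat_lit 1100000), (nat_lit 1442501)], [(nat_lit 3), (nat_lit 50), (nat_lit 272), (nat_lit 60), (nat_lit 9)]⟩,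
 ⟨⟨[(nat_lit 120), (nat_lit 160), (nat_lit 180)], [(nat_lit 0), (nat_lit 533), (nat_lit 2066)], [((nat_lit 0), (nat_lit 0), (nat_lit 0)), ((nat_lit 960), (nat_lit 1000), (nat_lit 200)), ((nat_lit 615), (nat_lit 1000), (nat_lit 729))], ((nat_lit 100), (nat_lit 67), (nat_lit 68))⟩, (nat_lit 541541), (nat_lit 640), (nat_lit 640), (nat_lit 0), (nat_lit 518030), [(nat_lit 980064000), (nat_lit 1460256000), (nat_lit 1729134000)], [], [(nat_lit 4532446386), (nat_lit 4574347124), (nat_lit 6222227534), (nat_lit 4498631402), (nat_lit 4528903082), (nat_lit 2972791042), (nat_lit 7004891995), (nat_lit 4153390148)], (nat_lit 1271251), (nat_lit 1271251), (nat_lit 780000), (nat_lit 1762501), (nat_lit 0), (nat_lit 780000), [(nat_lit 1695001), (nat_lit 1271251), (nat_lit 1271251)], [(nat_lit 28), (nat_lit 65), (nat_lit 373), (nat_lit 150), (nat_lit 9)]⟩,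
 ⟨⟨[(nat_lit 120), (nat_lit 160), (nat_lit 180)], [(nat_lit 0), (nat_lit 264), (nat_lit 1835)], [((nat_lit 0), (nat_lit 0), (nat_lit 0)), ((nat_lit 980), (nat_lit 1000), (nat_lit 101)), ((nat_lit 612), (nat_lit 1000), (nat_lit 704))], ((nat_lit 100), (nat_lit 64), (nat_lit 68))⟩, (nat_lit 56142), (nat_lit 300), (nat_lit 619), (nat_lit 9033966), (nat_lit 579267), [(nat_lit 980064000), (nat_lit 1460256000), (nat_lit 1729134000)], [], [(nat_lit 6249771785), (nat_lit 6213240825), (nat_lit 6506590125), (nat_lit 6482745867), (nat_lit 4797081447), (nat_lit 4761089380), (nat_lit 4929254467), (nat_lit 4905883212)], (nat_lit 1184688), (nat_lit 1271251), (nat_lit 1271251), (nat_lit 1271251), (nat_lit 0), (nat_lit 780000), [(nat_lit 1695001), (nat_lit 1271251), (nat_lit 1271251)], [(nat_lit 28), (nat_lit 65), (nat_lit 401), (nat_lit 175), (nat_lit 9)]⟩⟩))) (.leaf ⟨(nat_lit 923), (nat_lit 0), (nat_lit 0), (nat_lit 77), (nat_lit 0), (nat_lit 3296), (nat_lit 795),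 (nat_lit 1259), (nat_lit 0), (nat_lit 0), (nat_lit 471000), [((nat_lit 380), [((nat_lit 25), (nat_lit 1), (nat_lit 414)), ((nat_lit 41), (nat_lit 2), (nat_lit 509))])], ⟨(nat_lit 4), false, false, false, (nat_lit 193), (nat_lit 2236), (nat_lit 3163), [(nat_lit 1355794), (nat_lit 1363050), (nat_lit 1422068), (nat_lit 1431182), (nat_lit 1538797), (nat_lit 1534240), (nat_lit 1605240), (nat_lit 1602541)]⟩, ⟨(nat_lit 6), false, false, true, (nat_lit 222), (nat_lit 2236), (nat_lit 3163), [(nat_lit 1472332), (nat_lit 1465917), (nat_lit 1538797), (nat_lit 1534240), (nat_lit 1579000), (nat_lit 1565693), (nat_lit 1645465), (nat_lit 1634017)]⟩, (nat_lit 5004620), (nat_lit 41353701), (nat_lit 11390201), (nat_lit 14256098), (nat_lit 0), (nat_lit 0), [], [⟨(nat_lit 1), (nat_lit 86), (nat_lit 60), (nat_lit 100), (nat_lit 222155133)⟩], [], [],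
 ⟨⟨[(nat_lit 40), (nat_lit 80), (nat_lit 100)], [(nat_lit 0), (nat_lit 1598), (nat_lit 2533)], [((nat_lit 0), (nat_lit 0), (nat_lit 0)), ((nat_lit 1000), (nat_lit 625), (nat_lit 623)), ((nat_lit 1000), (nat_lit 604), (nat_lit 730))], ((nat_lit 61), (nat_lit 100), (nat_lit 68))⟩, (nat_lit 0), (nat_lit 213), (nat_lit 213), (nat_lit 0), (nat_lit 368486), [(nat_lit 1369609209), (nat_lit 733255603), (nat_lit 496513200)], [(nat_lit 0), (nat_lit 0), (nat_lit 0)], [(nat_lit 22574784562), (nat_lit 23650453994), (nat_lit 24644759860), (nat_lit 25636669180), (nat_lit 25058229742), (nat_lit 26342040149), (nat_lit 26916546048), (nat_lit 27951040685)], (nat_lit 1271251), (nat_lit 1271251), (nat_lit 780000), (nat_lit 1762501), (nat_lit 1271251), (nat_lit 1271251), [(nat_lit 490000), (nat_lit 1100000), (nat_lit 1442501)], [(nat_lit 3), (nat_lit 50), (nat_lit 272), (nat_lit 60), (nat_lit 9)]⟩,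
 ⟨⟨[(nat_lit 120), (nat_lit 160), (nat_lit 180)], [(nat_lit 0), (nat_lit 533), (nat_lit 2066)], [((nat_lit 0), (nat_lit 0), (nat_lit 0)), ((nat_lit 960), (nat_lit 1000), (nat_lit 200)), ((nat_lit 615), (nat_lit 1000), (nat_lit 729))], ((nat_lit 100), (nat_lit 67), (nat_lit 68))⟩, (nat_lit 149389), (nat_lit 806), (nat_lit 806), (nat_lit 0), (nat_lit 1066611), [(nat_lit 613536000), (nat_lit 914144000), (nat_lit 1082466000)], [], [(nat_lit 4669367262), (nat_lit 3380108689), (nat_lit 3251124278), (nat_lit 3181799364), (nat_lit 3571737227), (nat_lit 3250250340), (nat_lit 4698157142), (nat_lit 3581848352)], (nat_lit 1271251), (nat_lit 1271251), (nat_lit 780000), (nat_lit 1762501), (nat_lit 780000), (nat_lit 3072501), [(nat_lit 1695001), (nat_lit 1271251), (nat_lit 1271251)], [(nat_lit 28), (nat_lit 65), (nat_lit 456), (nat_lit 225), (nat_lit 10)]⟩,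
 ⟨⟨[(nat_lit 140), (nat_lit 180), (nat_lit 200)], [(nat_lit 0), (nat_lit 0), (nat_lit 2835)], [((nat_lit 0), (nat_lit 0), (nat_lit 0)), ((nat_lit 0), (nat_lit 0), (nat_lit 0)), ((nat_lit 363), (nat_lit 1000), (nat_lit 798))], ((nat_lit 0), (nat_lit 0), (nat_lit 0))⟩, (nat_lit 21185), (nat_lit 300), (nat_lit 839), (nat_lit 6013703), (nat_lit 1041989), [(nat_lit 757834000), (nat_lit 1082466000), (nat_lit 1262800000)], [], [(nat_lit 3890465580), (nat_lit 3662476243), (nat_lit 3966251752), (nat_lit 3713904963), (nat_lit 3843417173), (nat_lit 3616109573), (nat_lit 3934590269), (nat_lit 3662609519)], (nat_lit 780000), (nat_lit 1271251), (nat_lit 1271251), (nat_lit 1271251), (nat_lit 780000), (nat_lit 3072501), [(nat_lit 1977501), (nat_lit 1271251), (nat_lit 1271251)], [(nat_lit 32), (nat_lit 67), (nat_lit 456), (nat_lit 225), (nat_lit 9)]⟩⟩)))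
noncomputable def c16_27 : Tr Lf :=
 (.trX (nat_lit 4) (nat_lit 0) (nat_lit 2) (nat_lit 61) (nat_lit 92) (nat_lit 100) (nat_lit 290) (.spl (nat_lit 1) (nat_lit 160) (.trX (nat_lit 3) (nat_lit 0) (nat_lit 1) (nat_lit 61) (nat_lit 92) (nat_lit 100) (nat_lit 290) (.stt (nat_lit 2) (.leaf ⟨(nat_lit 1000), (nat_lit 0), (nat_lit 0), (nat_lit 0), (nat_lit 0), (nat_lit 3135), (nat_lit 0), (nat_lit 0), (nat_lit 0), (nat_lit 760885137839), (nat_lit 544600), [((nat_lit 380), [((nat_lit 25), (nat_lit 1), (nat_lit 277)), ((nat_lit 41), (nat_lit 2), (nat_lit 723))])], ⟨(nat_lit 6), true, false, true, (nat_lit 211), (nat_lit 2236), (nat_lit 3163), [(nat_lit 1472332), (nat_lit 1465917), (nat_lit 1516642), (nat_lit 1511466), (nat_lit 1548524), (nat_lit 1537186), (nat_lit 1592834), (nat_lit 1582735)]⟩, ⟨(nat_lit 5), false, false, true, (nat_lit 200), (nat_lit 2236), (nat_lit 3163), [(nat_lit 1411379), (nat_lit 1408901), (nat_lit 1455689), (nat_lit 1454450), (nat_lit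 1548524), (nat_lit 1537186), (nat_lit 1592834), (nat_lit 1582735)]⟩, (nat_lit 4988724), (nat_lit 41641995), (nat_lit 13258495), (nat_lit 12099510), (nat_lit 0), (nat_lit 0), [⟨(nat_lit 1), (nat_lit 100), (nat_lit 54), (nat_lit 98), (nat_lit 24876156)⟩, ⟨(nat_lit 1), (nat_lit 92), (nat_lit 61), (nat_lit 100), (nat_lit 215977403)⟩], [⟨(nat_lit 1), (nat_lit 100), (nat_lit 54), (nat_lit 98), (nat_lit 24153102)⟩, ⟨(nat_lit 1), (nat_lit 92), (nat_lit 61), (nat_lit 100), (nat_lit 180733044)⟩], [], [],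
 ⟨⟨[(nat_lit 40), (nat_lit 80), (nat_lit 100)], [(nat_lit 0), (nat_lit 1598), (nat_lit 2533)], [((nat_lit 0), (nat_lit 0), (nat_lit 0)), ((nat_lit 1000), (nat_lit 625), (nat_lit 623)), ((nat_lit 1000), (nat_lit 604), (nat_lit 730))], ((nat_lit 61), (nat_lit 100), (nat_lit 68))⟩, (nat_lit 0), (nat_lit 238), (nat_lit 238), (nat_lit 0), (nat_lit 517179), [(nat_lit 1318776005), (nat_lit 321384055), (nat_lit 0)], [(nat_lit 0), (nat_lit 0), (nat_lit 263000800)], [(nat_lit 23886893835), (nat_lit 24922751768), (nat_lit 25599212273), (nat_lit 26543124174), (nat_lit 26425229067), (nat_lit 27312438007), (nat_lit 27878600556), (nat_lit 28690758917)], (nat_lit 1271251), (nat_lit 1271251), (nat_lit 1271251), (nat_lit 1271251), (nat_lit 1271251), (nat_lit 1271251), [(nat_lit 490000), (nat_lit 1100000), (nat_lit 1442501)], [(nat_lit 3), (nat_lit 50), (nat_lit 203), (nat_lit 0), (nat_lit 6)]⟩,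
 Rw.none,
 Rw.none⟩) (.leaf ⟨(nat_lit 1000), (nat_lit 0), (nat_lit 0), (nat_lit 0), (nat_lit 0), (nat_lit 3278), (nat_lit 0), (nat_lit 0), (nat_lit 0), (nat_lit 798874048124), (nat_lit 402000), [((nat_lit 380), [((nat_lit 25), (nat_lit 1), (nat_lit 990)), ((nat_lit 41), (nat_lit 2), (nat_lit 10))])], ⟨(nat_lit 6), false, false, true, (nat_lit 211), (nat_lit 2236), (nat_lit 3163), [(nat_lit 1472332), (nat_lit 1465917), (nat_lit 1516642), (nat_lit 1511466), (nat_lit 1548524), (nat_lit 1537186), (nat_lit 1592834), (nat_lit 1582735)]⟩, ⟨(nat_lit 5), false, false, true, (nat_lit 200), (nat_lit 2236), (nat_lit 3163), [(nat_lit 1411379), (nat_lit 1408901), (nat_lit 1455689), (nat_lit 1454450), (nat_lit 1548524), (nat_lit 1537186), (nat_lit 1592834), (nat_lit 1582735)]⟩, (nat_lit 4988724), (nat_lit 41641995), (nat_lit 13258495), (nat_lit 12099510), (nat_lit 0), (nat_lit 0), [⟨(nat_lit 1), (nat_lit 92), (nat_lit 61), (nat_lit 100), (nat_lit 217014846)⟩], [⟨(nat_lit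 1), (nat_lit 92), (nat_lit 61), (nat_lit 100), (nat_lit 181097898)⟩], [], [],
 ⟨⟨[(nat_lit 40), (nat_lit 80), (nat_lit 100)], [(nat_lit 0), (nat_lit 1598), (nat_lit 2533)], [((nat_lit 0), (nat_lit 0), (nat_lit 0)), ((nat_lit 1000), (nat_lit 625), (nat_lit 623)), ((nat_lit 1000), (nat_lit 604), (nat_lit 730))], ((nat_lit 61), (nat_lit 100), (nat_lit 68))⟩, (nat_lit 0), (nat_lit 201), (nat_lit 201), (nat_lit 0), (nat_lit 401146), [(nat_lit 1381520001), (nat_lit 952549417), (nat_lit 898904000)], [(nat_lit 0), (nat_lit 0), (nat_lit 0)], [(nat_lit 24296911924), (nat_lit 25174515907), (nat_lit 25767420061), (nat_lit 26645217206), (nat_lit 26492705109), (nat_lit 27318091953), (nat_lit 27820819153), (nat_lit 28833152369)], (nat_lit 1271251), (nat_lit 1271251), (nat_lit 1271251), (nat_lit 1271251), (nat_lit 1271251), (nat_lit 1271251), [(nat_lit 490000), (nat_lit 1100000), (nat_lit 1442501)], [(nat_lit 3), (nat_lit 50), (nat_lit 203), (nat_lit 0), (nat_lit 6)]⟩,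
 Rw.none,
 Rw.none⟩))) (.stt (nat_lit 1) (.leaf ⟨(nat_lit 1000), (nat_lit 0), (nat_lit 0), (nat_lit 0), (nat_lit 3121), (nat_lit 3366), (nat_lit 0), (nat_lit 0), (nat_lit 0), (nat_lit 0), (nat_lit 250000), [((nat_lit 380), [((nat_lit 25), (nat_lit 0), (nat_lit 1000))])], ⟨(nat_lit 6), false, false, true, (nat_lit 231), (nat_lit 2236), (nat_lit 3163), [(nat_lit 1516642), (nat_lit 1511466), (nat_lit 1538797), (nat_lit 1534240), (nat_lit 1623310), (nat_lit 1611243), (nat_lit 1645465), (nat_lit 1634017)]⟩, ⟨(nat_lit 5), false, false, true, (nat_lit 200), (nat_lit 2236), (nat_lit 3163), [(nat_lit 1411379), (nat_lit 1408901), (nat_lit 1455689), (nat_lit 1454450), (nat_lit 1548524), (nat_lit 1537186), (nat_lit 1592834), (nat_lit 1582735)]⟩, (nat_lit 5109168), (nat_lit 40236350), (nat_lit 14928008), (nat_lit 11835642), (nat_lit 0), (nat_lit 0), [⟨(nat_lit 1), (nat_lit 86), (nat_lit 60), (nat_lit 100), (nat_lit 233813507)⟩], [⟨(nat_lit 1), (nat_lit 92), (nat_lit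 61), (nat_lit 100), (nat_lit 195031004)⟩], [], [],
 ⟨⟨[(nat_lit 40), (nat_lit 80), (nat_lit 100)], [(nat_lit 0), (nat_lit 1598), (nat_lit 2533)], [((nat_lit 0), (nat_lit 0), (nat_lit 0)), ((nat_lit 1000), (nat_lit 625), (nat_lit 623)), ((nat_lit 1000), (nat_lit 604), (nat_lit 730))], ((nat_lit 61), (nat_lit 100), (nat_lit 68))⟩, (nat_lit 0), (nat_lit 64), (nat_lit 64), (nat_lit 0), (nat_lit 0), [(nat_lit 1528000004), (nat_lit 1715600004), (nat_lit 2118000000)], [(nat_lit 0), (nat_lit 0), (nat_lit 0)], [(nat_lit 23966697070), (nat_lit 25061807895), (nat_lit 26429244352), (nat_lit 27382179928), (nat_lit 26523785151), (nat_lit 27455456564), (nat_lit 28594093460), (nat_lit 29574544706)], (nat_lit 0), (nat_lit 0), (nat_lit 0), (nat_lit 0), (nat_lit 0), (nat_lit 0), [], [(nat_lit 3), (nat_lit 50), (nat_lit 203), (nat_lit 0), (nat_lit 6)]⟩,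
 Rw.none,
 Rw.none⟩) (.spl (nat_lit 5) (nat_lit 120) (.leaf ⟨(nat_lit 891), (nat_lit 53), (nat_lit 0), (nat_lit 56), (nat_lit 0), (nat_lit 3249), (nat_lit 1927), (nat_lit 1214), (nat_lit 0), (nat_lit 0), (nat_lit 508700), [((nat_lit 380), [((nat_lit 25), (nat_lit 0), (nat_lit 74)), ((nat_lit 41), (nat_lit 2), (nat_lit 817))])], ⟨(nat_lit 6), false, false, true, (nat_lit 231), (nat_lit 2236), (nat_lit 3163), [(nat_lit 1516642), (nat_lit 1511466), (nat_lit 1538797), (nat_lit 1534240), (nat_lit 1623310), (nat_lit 1611243), (nat_lit 1645465), (nat_lit 1634017)]⟩, ⟨(nat_lit 5), false, false, true, (nat_lit 200), (nat_lit 2236), (nat_lit 3163), [(nat_lit 1411379), (nat_lit 1408901), (nat_lit 1455689), (nat_lit 1454450), (nat_lit 1548524), (nat_lit 1537186), (nat_lit 1592834), (nat_lit 1582735)]⟩, (nat_lit 5109168), (nat_lit 40236350), (nat_lit 14928008), (nat_lit 11835642), (nat_lit 5), (nat_lit 0), [⟨(nat_lit 1), (nat_lit 93), (nat_lit 53), (nat_lit 100),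 (nat_lit 88762479)⟩], [⟨(nat_lit 1), (nat_lit 100), (nat_lit 54), (nat_lit 98), (nat_lit 41808819)⟩], [], [⟨(nat_lit 0), (nat_lit 100), (nat_lit 95), (nat_lit 59), (nat_lit 151813360)⟩],
 ⟨⟨[(nat_lit 40), (nat_lit 80), (nat_lit 100)], [(nat_lit 0), (nat_lit 1598), (nat_lit 2533)], [((nat_lit 0), (nat_lit 0), (nat_lit 0)), ((nat_lit 1000), (nat_lit 625), (nat_lit 623)), ((nat_lit 1000), (nat_lit 604), (nat_lit 730))], ((nat_lit 61), (nat_lit 100), (nat_lit 68))⟩, (nat_lit 51459), (nat_lit 230), (nat_lit 230), (nat_lit 0), (nat_lit 489819), [(nat_lit 1366651263), (nat_lit 665653467), (nat_lit 254317200)], [(nat_lit 0), (nat_lit 0), (nat_lit 0)], [(nat_lit 23957019030), (nat_lit 24860903605), (nat_lit 26228554971), (nat_lit 27148250775), (nat_lit 26361046082), (nat_lit 27260349212), (nat_lit 28486307426), (nat_lit 29453643871)], (nat_lit 1271251), (nat_lit 1271251), (nat_lit 1271251), (nat_lit 1271251), (nat_lit 1271251), (nat_lit 1271251), [(nat_lit 490000),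 (nat_lit 1100000), (nat_lit 1442501)], [(nat_lit 3), (nat_lit 50), (nat_lit 203), (nat_lit 0), (nat_lit 6)]⟩,
 ⟨⟨[(nat_lit 120), (nat_lit 160), (nat_lit 200)], [(nat_lit 0), (nat_lit 0), (nat_lit 3198)], [((nat_lit 0), (nat_lit 0), (nat_lit 0)), ((nat_lit 0), (nat_lit 0), (nat_lit 0)), ((nat_lit 572), (nat_lit 1000), (nat_lit 714))], ((nat_lit 0), (nat_lit 0), (nat_lit 0))⟩, (nat_lit 625855), (nat_lit 742), (nat_lit 742), (nat_lit 0), (nat_lit 717997), [(nat_lit 868512000), (nat_lit 1294048000), (nat_lit 1787600000)], [], [(nat_lit 4242167800), (nat_lit 4246777102), (nat_lit 4727332997), (nat_lit 4710066419), (nat_lit 2705611356), (nat_lit 2704931058), (nat_lit 3101124774), (nat_lit 3075127061)], (nat_lit 1100000), (nat_lit 1271251), (nat_lit 1271251), (nat_lit 1271251), (nat_lit 0), (nat_lit 780000), [(nat_lit 1695001), (nat_lit 1271251), (nat_lit 1271251)], [(nat_lit 29), (nat_lit 66), (nat_lit 401), (nat_lit 175), (nat_lit 9)]⟩,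
 ⟨⟨[(nat_lit 140), (nat_lit 180), (nat_lit 200)], [(nat_lit 0), (nat_lit 0), (nat_lit 2835)], [((nat_lit 0), (nat_lit 0), (nat_lit 0)), ((nat_lit 0), (nat_lit 0), (nat_lit 0)), ((nat_lit 363), (nat_lit 1000), (nat_lit 798))], ((nat_lit 0), (nat_lit 0), (nat_lit 0))⟩, (nat_lit 15408), (nat_lit 300), (nat_lit 929), (nat_lit 4373600), (nat_lit 1002693), [(nat_lit 551152000), (nat_lit 787248000), (nat_lit 918400000)], [], [(nat_lit 3840958224), (nat_lit 3638416024), (nat_lit 3798292128), (nat_lit 3582388839), (nat_lit 2691355964), (nat_lit 2589613414), (nat_lit 2643931030), (nat_lit 2444391682)], (nat_lit 780000), (nat_lit 1100000), (nat_lit 1271251), (nat_lit 1271251), (nat_lit 0), (nat_lit 780000), [(nat_lit 1977501), (nat_lit 1271251), (nat_lit 1271251)], [(nat_lit 32), (nat_lit 67), (nat_lit 373), (nat_lit 150), (nat_lit 8)]⟩⟩) (.leaf ⟨(nat_lit 922), (nat_lit 27), (nat_lit 0), (nat_lit 51), (nat_lit 0), (nat_lit 3265), (nat_lit 1253), (nat_lit 748),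 (nat_lit 0), (nat_lit 0), (nat_lit 496600), [((nat_lit 380), [((nat_lit 25), (nat_lit 1), (nat_lit 283)), ((nat_lit 41), (nat_lit 2), (nat_lit 639))])], ⟨(nat_lit 6), false, false, true, (nat_lit 231), (nat_lit 2236), (nat_lit 3163), [(nat_lit 1516642), (nat_lit 1511466), (nat_lit 1538797), (nat_lit 1534240), (nat_lit 1623310), (nat_lit 1611243), (nat_lit 1645465), (nat_lit 1634017)]⟩, ⟨(nat_lit 5), false, false, true, (nat_lit 200), (nat_lit 2236), (nat_lit 3163), [(nat_lit 1411379), (nat_lit 1408901), (nat_lit 1455689), (nat_lit 1454450), (nat_lit 1548524), (nat_lit 1537186), (nat_lit 1592834), (nat_lit 1582735)]⟩, (nat_lit 5109168), (nat_lit 40236350), (nat_lit 14928008), (nat_lit 11835642), (nat_lit 5), (nat_lit 0), [⟨(nat_lit 1), (nat_lit 93), (nat_lit 53), (nat_lit 100), (nat_lit 224140948)⟩], [⟨(nat_lit 1), (nat_lit 100), (nat_lit 54), (nat_lit 98), (nat_lit 193661277)⟩], [], [],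
 ⟨⟨[(nat_lit 40), (nat_lit 80), (nat_lit 100)], [(nat_lit 0), (nat_lit 1598), (nat_lit 2533)], [((nat_lit 0), (nat_lit 0), (nat_lit 0)), ((nat_lit 1000), (nat_lit 625), (nat_lit 623)), ((nat_lit 1000), (nat_lit 604), (nat_lit 730))], ((nat_lit 61), (nat_lit 100), (nat_lit 68))⟩, (nat_lit 0), (nat_lit 230), (nat_lit 230), (nat_lit 0), (nat_lit 489819), [(nat_lit 1358584802), (nat_lit 662291695), (nat_lit 290000000)], [(nat_lit 0), (nat_lit 0), (nat_lit 0)], [(nat_lit 24056069086), (nat_lit 24961684461), (nat_lit 26161610431), (nat_lit 27153228158), (nat_lit 26292894762), (nat_lit 27195282987), (nat_lit 28501035614), (nat_lit 29470177318)], (nat_lit 1271251), (nat_lit 1271251), (nat_lit 1271251), (nat_lit 1271251), (nat_lit 1271251), (nat_lit 1271251), [(nat_lit 490000), (nat_lit 1100000), (nat_lit 1442501)], [(nat_lit 3), (nat_lit 50), (nat_lit 203), (nat_lit 0), (nat_lit 6)]⟩,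
 ⟨⟨[(nat_lit 120), (nat_lit 160), (nat_lit 200)], [(nat_lit 0), (nat_lit 0), (nat_lit 3198)], [((nat_lit 0), (nat_lit 0), (nat_lit 0)), ((nat_lit 0), (nat_lit 0), (nat_lit 0)), ((nat_lit 572), (nat_lit 1000), (nat_lit 714))], ((nat_lit 0), (nat_lit 0), (nat_lit 0))⟩, (nat_lit 326012), (nat_lit 914), (nat_lit 914), (nat_lit 0), (nat_lit 1284676), [(nat_lit 621504000), (nat_lit 926016000), (nat_lit 1279200000)], [], [(nat_lit 2775905260), (nat_lit 2135951092), (nat_lit 2395604693), (nat_lit 2381812313), (nat_lit 2955429428), (nat_lit 3174070290), (nat_lit 3380997032), (nat_lit 3373057761)], (nat_lit 1100000), (nat_lit 1271251), (nat_lit 1271251), (nat_lit 1271251), (nat_lit 780000), (nat_lit 3072501), [(nat_lit 1695001), (nat_lit 1271251), (nat_lit 1271251)], [(nat_lit 29), (nat_lit 66), (nat_lit 456), (nat_lit 225), (nat_lit 9)]⟩,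
 ⟨⟨[(nat_lit 140), (nat_lit 180), (nat_lit 200)], [(nat_lit 0), (nat_lit 0), (nat_lit 2835)], [((nat_lit 0), (nat_lit 0), (nat_lit 0)), ((nat_lit 0), (nat_lit 0), (nat_lit 0)), ((nat_lit 363), (nat_lit 1000), (nat_lit 798))], ((nat_lit 0), (nat_lit 0), (nat_lit 0))⟩, (nat_lit 14032), (nat_lit 300), (nat_lit 1495), (nat_lit 3983100), (nat_lit 2433075), [(nat_lit 501942000), (nat_lit 716958000), (nat_lit 836400000)], [], [(nat_lit 2796533456), (nat_lit 2675596748), (nat_lit 2690931981), (nat_lit 2565831807), (nat_lit 2634653676), (nat_lit 2857452140), (nat_lit 2565457856), (nat_lit 2443680073)], (nat_lit 780000), (nat_lit 1100000), (nat_lit 1271251), (nat_lit 1271251), (nat_lit 780000), (nat_lit 3072501), [(nat_lit 1977501), (nat_lit 1271251), (nat_lit 1271251)], [(nat_lit 32), (nat_lit 67), (nat_lit 480), (nat_lit 225), (nat_lit 10)]⟩⟩)))))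
noncomputable def c16_28 : Tr Lf :=
 (.ord (.spl (nat_lit 5) (nat_lit 120) (.stt (nat_lit 1) (.leaf ⟨(nat_lit 971), (nat_lit 0), (nat_lit 0), (nat_lit 29), (nat_lit 0), (nat_lit 3364), (nat_lit 405), (nat_lit 397), (nat_lit 0), (nat_lit 10813046), (nat_lit 242750), [((nat_lit 380), [((nat_lit 25), (nat_lit 0), (nat_lit 971))])], ⟨(nat_lit 6), false, false, true, (nat_lit 231), (nat_lit 2236), (nat_lit 3163), [(nat_lit 1516642), (nat_lit 1511466), (nat_lit 1538797), (nat_lit 1534240), (nat_lit 1623310), (nat_lit 1611243), (nat_lit 1645465), (nat_lit 1634017)]⟩, ⟨(nat_lit 5), false, false, true, (nat_lit 219), (nat_lit 2236), (nat_lit 3163), [(nat_lit 1455689), (nat_lit 1454450), (nat_lit 1477844), (nat_lit 1477224), (nat_lit 1623310), (nat_lit 1611243), (nat_lit 1645465), (nat_lit 1634017)]⟩, (nat_lit 5236187), (nat_lit 38972171), (nat_lit 14604130), (nat_lit 13423699), (nat_lit 0), (nat_lit 0), [⟨(nat_lit 1), (nat_lit 86), (nat_lit 60), (nat_lit 100),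 (nat_lit 118509523)⟩], [⟨(nat_lit 1), (nat_lit 86), (nat_lit 60), (nat_lit 100), (nat_lit 72441181)⟩], [], [⟨(nat_lit 0), (nat_lit 91), (nat_lit 91), (nat_lit 100), (nat_lit 58562908)⟩],
 ⟨⟨[(nat_lit 40), (nat_lit 80), (nat_lit 100)], [(nat_lit 0), (nat_lit 1598), (nat_lit 2533)], [((nat_lit 0), (nat_lit 0), (nat_lit 0)), ((nat_lit 1000), (nat_lit 625), (nat_lit 623)), ((nat_lit 1000), (nat_lit 604), (nat_lit 730))], ((nat_lit 61), (nat_lit 100), (nat_lit 68))⟩, (nat_lit 0), (nat_lit 66), (nat_lit 66), (nat_lit 0), (nat_lit 0), [(nat_lit 1535830059), (nat_lit 1801799659), (nat_lit 2237828000)], [(nat_lit 0), (nat_lit 0), (nat_lit 0)], [(nat_lit 24063374266), (nat_lit 25158200816), (nat_lit 26525544204), (nat_lit 27478255576), (nat_lit 27277234448), (nat_lit 28171390575), (nat_lit 29256057659), (nat_lit 30195071419)], (nat_lit 0), (nat_lit 0), (nat_lit 0), (nat_lit 0), (nat_lit 0), (nat_lit 0), [], [(nat_lit 3), (nat_lit 50), (nat_lit 203), (nat_lit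 0), (nat_lit 6)]⟩,
 ⟨⟨[(nat_lit 120), (nat_lit 160), (nat_lit 200)], [(nat_lit 0), (nat_lit 0), (nat_lit 3198)], [((nat_lit 0), (nat_lit 0), (nat_lit 0)), ((nat_lit 0), (nat_lit 0), (nat_lit 0)), ((nat_lit 572), (nat_lit 1000), (nat_lit 714))], ((nat_lit 0), (nat_lit 0), (nat_lit 0))⟩, (nat_lit 88513), (nat_lit 1403), (nat_lit 1403), (nat_lit 0), (nat_lit 2142652), [(nat_lit 231072000), (nat_lit 344288000), (nat_lit 475600000)], [], [(nat_lit 1277024706), (nat_lit 1271132728), (nat_lit 1374718011), (nat_lit 1373900273), (nat_lit 962659012), (nat_lit 954187553), (nat_lit 995477021), (nat_lit 983986337)], (nat_lit 1100000), (nat_lit 1271251), (nat_lit 1271251), (nat_lit 1271251), (nat_lit 0), (nat_lit 780000), [(nat_lit 1695001), (nat_lit 1271251), (nat_lit 1271251)], [(nat_lit 29), (nat_lit 66), (nat_lit 427), (nat_lit 175), (nat_lit 9)]⟩,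
 ⟨⟨[(nat_lit 120), (nat_lit 160), (nat_lit 200)], [(nat_lit 0), (nat_lit 0), (nat_lit 3198)], [((nat_lit 0), (nat_lit 0), (nat_lit 0)), ((nat_lit 0), (nat_lit 0), (nat_lit 0)), ((nat_lit 572), (nat_lit 1000), (nat_lit 714))], ((nat_lit 0), (nat_lit 0), (nat_lit 0))⟩, (nat_lit 14146), (nat_lit 300), (nat_lit 1421), (nat_lit 2151806), (nat_lit 2142652), [(nat_lit 231072000), (nat_lit 344288000), (nat_lit 475600000)], [], [(nat_lit 1846306644), (nat_lit 1825536412), (nat_lit 1804430951), (nat_lit 1788294900), (nat_lit 1516209872), (nat_lit 1496225881), (nat_lit 1454167913), (nat_lit 1432575565)], (nat_lit 1100000), (nat_lit 1271251), (nat_lit 1271251), (nat_lit 1271251), (nat_lit 0), (nat_lit 780000), [(nat_lit 1695001), (nat_lit 1271251), (nat_lit 1271251)], [(nat_lit 29), (nat_lit 66), (nat_lit 432), (nat_lit 175), (nat_lit 9)]⟩⟩) (.leaf ⟨(nat_lit 881), (nat_lit 47), (nat_lit 0), (nat_lit 72), (nat_lit 0), (nat_lit 3260), (nat_lit 2072), (nat_lit 1428),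 (nat_lit 0), (nat_lit 50049896957), (nat_lit 501650), [((nat_lit 380), [((nat_lit 25), (nat_lit 0), (nat_lit 77)), ((nat_lit 41), (nat_lit 2), (nat_lit 804))])], ⟨(nat_lit 6), false, false, true, (nat_lit 231), (nat_lit 2236), (nat_lit 3163), [(nat_lit 1516642), (nat_lit 1511466), (nat_lit 1538797), (nat_lit 1534240), (nat_lit 1623310), (nat_lit 1611243), (nat_lit 1645465), (nat_lit 1634017)]⟩, ⟨(nat_lit 5), false, false, true, (nat_lit 219), (nat_lit 2236), (nat_lit 3163), [(nat_lit 1455689), (nat_lit 1454450), (nat_lit 1477844), (nat_lit 1477224), (nat_lit 1623310), (nat_lit 1611243), (nat_lit 1645465), (nat_lit 1634017)]⟩, (nat_lit 5236187), (nat_lit 38972171), (nat_lit 14604130), (nat_lit 13423699), (nat_lit 5), (nat_lit 0), [⟨(nat_lit 1), (nat_lit 93), (nat_lit 53), (nat_lit 100), (nat_lit 45022941)⟩], [], [], [⟨(nat_lit 0), (nat_lit 100), (nat_lit 96), (nat_lit 64), (nat_lit 171764518)⟩],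
 ⟨⟨[(nat_lit 40), (nat_lit 80), (nat_lit 100)], [(nat_lit 0), (nat_lit 1598), (nat_lit 2533)], [((nat_lit 0), (nat_lit 0), (nat_lit 0)), ((nat_lit 1000), (nat_lit 625), (nat_lit 623)), ((nat_lit 1000), (nat_lit 604), (nat_lit 730))], ((nat_lit 61), (nat_lit 100), (nat_lit 68))⟩, (nat_lit 137106), (nat_lit 217), (nat_lit 217), (nat_lit 0), (nat_lit 446056), [(nat_lit 1372315601), (nat_lit 731659820), (nat_lit 332458400)], [(nat_lit 0), (nat_lit 0), (nat_lit 0)], [(nat_lit 23805898344), (nat_lit 24859106214), (nat_lit 26227370719), (nat_lit 27148278677), (nat_lit 27006445499), (nat_lit 27916653350), (nat_lit 29156172185), (nat_lit 30084353522)], (nat_lit 1271251), (nat_lit 1271251), (nat_lit 1271251), (nat_lit 1271251), (nat_lit 1271251), (nat_lit 1271251), [(nat_lit 490000), (nat_lit 1100000), (nat_lit 1442501)], [(nat_lit 3), (nat_lit 50), (nat_lit 203), (nat_lit 0), (nat_lit 6)]⟩,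
 ⟨⟨[(nat_lit 120), (nat_lit 160), (nat_lit 200)], [(nat_lit 0), (nat_lit 0), (nat_lit 3198)], [((nat_lit 0), (nat_lit 0), (nat_lit 0)), ((nat_lit 0), (nat_lit 0), (nat_lit 0)), ((nat_lit 572), (nat_lit 1000), (nat_lit 714))], ((nat_lit 0), (nat_lit 0), (nat_lit 0))⟩, (nat_lit 677326), (nat_lit 704), (nat_lit 704), (nat_lit 0), (nat_lit 621475), [(nat_lit 948192000), (nat_lit 1412768000), (nat_lit 1951600000)], [], [(nat_lit 4650657620), (nat_lit 4656414392), (nat_lit 5149075330), (nat_lit 5124435902), (nat_lit 3001861296), (nat_lit 3001895015), (nat_lit 3430165347), (nat_lit 3402937396)], (nat_lit 1100000), (nat_lit 1271251), (nat_lit 1271251), (nat_lit 1271251), (nat_lit 0), (nat_lit 780000), [(nat_lit 1695001), (nat_lit 1271251), (nat_lit 1271251)], [(nat_lit 29), (nat_lit 66), (nat_lit 401), (nat_lit 175), (nat_lit 9)]⟩,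
 ⟨⟨[(nat_lit 120), (nat_lit 160), (nat_lit 200)], [(nat_lit 0), (nat_lit 0), (nat_lit 3198)], [((nat_lit 0), (nat_lit 0), (nat_lit 0)), ((nat_lit 0), (nat_lit 0), (nat_lit 0)), ((nat_lit 572), (nat_lit 1000), (nat_lit 714))], ((nat_lit 0), (nat_lit 0), (nat_lit 0))⟩, (nat_lit 58258), (nat_lit 300), (nat_lit 719), (nat_lit 5342400), (nat_lit 621475), [(nat_lit 573696000), (nat_lit 854784000), (nat_lit 1180800000)], [], [(nat_lit 4539677328), (nat_lit 4485710496), (nat_lit 4503332934), (nat_lit 4433430821), (nat_lit 3217184904), (nat_lit 3165794199), (nat_lit 3169942041), (nat_lit 3103489641)], (nat_lit 1100000), (nat_lit 1271251), (nat_lit 1271251), (nat_lit 1271251), (nat_lit 0), (nat_lit 780000), [(nat_lit 1695001), (nat_lit 1271251), (nat_lit 1271251)], [(nat_lit 29), (nat_lit 66), (nat_lit 401), (nat_lit 175), (nat_lit 9)]⟩⟩)) (.spl (nat_lit 2) (nat_lit 170) (.trX (nat_lit 4) (nat_lit 0) (nat_lit 2) (nat_lit 61) (nat_lit 89) (nat_lit 100) (nat_lit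 300) (.leaf ⟨(nat_lit 961), (nat_lit 0), (nat_lit 0), (nat_lit 39), (nat_lit 0), (nat_lit 3225), (nat_lit 584), (nat_lit 543), (nat_lit 0), (nat_lit 3134014), (nat_lit 511600), [((nat_lit 380), [((nat_lit 25), (nat_lit 1), (nat_lit 325)), ((nat_lit 41), (nat_lit 2), (nat_lit 636))])], ⟨(nat_lit 6), false, false, true, (nat_lit 231), (nat_lit 2236), (nat_lit 3163), [(nat_lit 1516642), (nat_lit 1511466), (nat_lit 1538797), (nat_lit 1534240), (nat_lit 1623310), (nat_lit 1611243), (nat_lit 1645465), (nat_lit 1634017)]⟩, ⟨(nat_lit 5), false, false, true, (nat_lit 214), (nat_lit 2236), (nat_lit 3163), [(nat_lit 1455689), (nat_lit 1454450), (nat_lit 1466766), (nat_lit 1465837), (nat_lit 1608072), (nat_lit 1596989), (nat_lit 1619150), (nat_lit 1608376)]⟩, (nat_lit 5204220), (nat_lit 39311410), (nat_lit 14692686), (nat_lit 12995904), (nat_lit 0), (nat_lit 0), [⟨(nat_lit 1), (nat_lit 93), (nat_lit 53), (nat_lit 100), (nat_lit 264151217)⟩], [⟨(nat_lit 1), (nat_lit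 94), (nat_lit 54), (nat_lit 100), (nat_lit 188327091)⟩], [], [],
 ⟨⟨[(nat_lit 40), (nat_lit 80), (nat_lit 100)], [(nat_lit 0), (nat_lit 1598), (nat_lit 2533)], [((nat_lit 0), (nat_lit 0), (nat_lit 0)), ((nat_lit 1000), (nat_lit 625), (nat_lit 623)), ((nat_lit 1000), (nat_lit 604), (nat_lit 730))], ((nat_lit 61), (nat_lit 100), (nat_lit 68))⟩, (nat_lit 0), (nat_lit 217), (nat_lit 217), (nat_lit 0), (nat_lit 445881), [(nat_lit 1342640461), (nat_lit 546408904), (nat_lit 86831600)], [(nat_lit 0), (nat_lit 0), (nat_lit 0)], [(nat_lit 23912015183), (nat_lit 24818190757), (nat_lit 26184529807), (nat_lit 27112841530), (nat_lit 26641726707), (nat_lit 27521225313), (nat_lit 28793386013), (nat_lit 29737968196)], (nat_lit 1271251), (nat_lit 1271251), (nat_lit 1271251), (nat_lit 1271251), (nat_lit 1271251), (nat_lit 1271251), [(nat_lit 490000), (nat_lit 1100000), (nat_lit 1442501)], [(nat_lit 3), (nat_lit 50), (nat_lit 203), (nat_lit 0), (nat_lit 6)]⟩,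
 ⟨⟨[(nat_lit 120), (nat_lit 160), (nat_lit 200)], [(nat_lit 0), (nat_lit 0), (nat_lit 3198)], [((nat_lit 0), (nat_lit 0), (nat_lit 0)), ((nat_lit 0), (nat_lit 0), (nat_lit 0)), ((nat_lit 572), (nat_lit 1000), (nat_lit 714))], ((nat_lit 0), (nat_lit 0), (nat_lit 0))⟩, (nat_lit 142786), (nat_lit 1622), (nat_lit 1622), (nat_lit 0), (nat_lit 2783363), [(nat_lit 310752000), (nat_lit 463008000), (nat_lit 639600000)], [], [(nat_lit 1367791480), (nat_lit 1179745510), (nat_lit 1257341287), (nat_lit 1251871263), (nat_lit 1450922704), (nat_lit 1572735000), (nat_lit 1638224749), (nat_lit 1635745392)], (nat_lit 1100000), (nat_lit 1271251), (nat_lit 1271251), (nat_lit 1271251), (nat_lit 780000), (nat_lit 3072501), [(nat_lit 1695001), (nat_lit 1271251), (nat_lit 1271251)], [(nat_lit 29), (nat_lit 66), (nat_lit 517), (nat_lit 225), (nat_lit 11)]⟩,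
 ⟨⟨[(nat_lit 120), (nat_lit 160), (nat_lit 200)], [(nat_lit 0), (nat_lit 0), (nat_lit 3198)], [((nat_lit 0), (nat_lit 0), (nat_lit 0)), ((nat_lit 0), (nat_lit 0), (nat_lit 0)), ((nat_lit 572), (nat_lit 1000), (nat_lit 714))], ((nat_lit 0), (nat_lit 0), (nat_lit 0))⟩, (nat_lit 19025), (nat_lit 300), (nat_lit 1641), (nat_lit 2893800), (nat_lit 2783842), [(nat_lit 310752000), (nat_lit 463008000), (nat_lit 639600000)], [], [(nat_lit 2018907168), (nat_lit 2005136605), (nat_lit 1937498627), (nat_lit 1923142260), (nat_lit 1936811538), (nat_lit 2005128000), (nat_lit 1842418293), (nat_lit 1831590585)], (nat_lit 1100000), (nat_lit 1184688), (nat_lit 1271251), (nat_lit 1271251), (nat_lit 780000), (nat_lit 3072501), [(nat_lit 1695001), (nat_lit 1271251), (nat_lit 1271251)], [(nat_lit 29), (nat_lit 66), (nat_lit 519), (nat_lit 225), (nat_lit 11)]⟩⟩)) (.ord (.leaf ⟨(nat_lit 954), (nat_lit 0), (nat_lit 0), (nat_lit 46), (nat_lit 0), (nat_lit 3256), (nat_lit 637),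 (nat_lit 624), (nat_lit 0), (nat_lit 646410917465), (nat_lit 517200), [((nat_lit 380), [((nat_lit 25), (nat_lit 1), (nat_lit 276)), ((nat_lit 41), (nat_lit 2), (nat_lit 678))])], ⟨(nat_lit 6), false, false, true, (nat_lit 233), (nat_lit 2236), (nat_lit 3163), [(nat_lit 1527720), (nat_lit 1522853), (nat_lit 1538797), (nat_lit 1534240), (nat_lit 1634388), (nat_lit 1622630), (nat_lit 1645465), (nat_lit 1634017)]⟩, ⟨(nat_lit 5), false, false, true, (nat_lit 221), (nat_lit 2236), (nat_lit 3163), [(nat_lit 1466766), (nat_lit 1465837), (nat_lit 1477844), (nat_lit 1477224), (nat_lit 1634388), (nat_lit 1622630), (nat_lit 1645465), (nat_lit 1634017)]⟩, (nat_lit 5261595), (nat_lit 38674132), (nat_lit 14754096), (nat_lit 13571772), (nat_lit 0), (nat_lit 0), [⟨(nat_lit 1), (nat_lit 92), (nat_lit 53), (nat_lit 100), (nat_lit 259682163)⟩], [⟨(nat_lit 1), (nat_lit 92), (nat_lit 53), (nat_lit 100), (nat_lit 196651697)⟩], [], [],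
 ⟨⟨[(nat_lit 40), (nat_lit 80), (nat_lit 100)], [(nat_lit 0), (nat_lit 1598), (nat_lit 2533)], [((nat_lit 0), (nat_lit 0), (nat_lit 0)), ((nat_lit 1000), (nat_lit 625), (nat_lit 623)), ((nat_lit 1000), (nat_lit 604), (nat_lit 730))], ((nat_lit 61), (nat_lit 100), (nat_lit 68))⟩, (nat_lit 0), (nat_lit 215), (nat_lit 215), (nat_lit 0), (nat_lit 441818), [(nat_lit 1341853601), (nat_lit 529044533), (nat_lit 55732000)], [(nat_lit 0), (nat_lit 0), (nat_lit 0)], [(nat_lit 23795670675), (nat_lit 24746147940), (nat_lit 26114192393), (nat_lit 27144141166), (nat_lit 26893383486), (nat_lit 27912832535), (nat_lit 29152330436), (nat_lit 30080095142)], (nat_lit 1271251), (nat_lit 1271251), (nat_lit 1271251), (nat_lit 1271251), (nat_lit 1271251), (nat_lit 1271251), [(nat_lit 490000), (nat_lit 1100000), (nat_lit 1442501)], [(nat_lit 3), (nat_lit 50), (nat_lit 203), (nat_lit 0), (nat_lit 6)]⟩,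
 ⟨⟨[(nat_lit 120), (nat_lit 160), (nat_lit 180)], [(nat_lit 0), (nat_lit 264), (nat_lit 1835)], [((nat_lit 0), (nat_lit 0), (nat_lit 0)), ((nat_lit 980), (nat_lit 1000), (nat_lit 101)), ((nat_lit 612), (nat_lit 1000), (nat_lit 704))], ((nat_lit 100), (nat_lit 64), (nat_lit 68))⟩, (nat_lit 140953), (nat_lit 1384), (nat_lit 1384), (nat_lit 0), (nat_lit 2424802), [(nat_lit 366528000), (nat_lit 546112000), (nat_lit 646668000)], [], [(nat_lit 1424034412), (nat_lit 1416141736), (nat_lit 1478945789), (nat_lit 1476621723), (nat_lit 1750169597), (nat_lit 1837584514), (nat_lit 1867973728), (nat_lit 1867420096)], (nat_lit 1184688), (nat_lit 1271251), (nat_lit 1271251), (nat_lit 1271251), (nat_lit 780000), (nat_lit 3072501), [(nat_lit 1695001), (nat_lit 1271251), (nat_lit 1271251)], [(nat_lit 28), (nat_lit 65), (nat_lit 458), (nat_lit 225), (nat_lit 10)]⟩,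
 ⟨⟨[(nat_lit 120), (nat_lit 160), (nat_lit 180)], [(nat_lit 0), (nat_lit 264), (nat_lit 1835)], [((nat_lit 0), (nat_lit 0), (nat_lit 0)), ((nat_lit 980), (nat_lit 1000), (nat_lit 101)), ((nat_lit 612), (nat_lit 1000), (nat_lit 704))], ((nat_lit 100), (nat_lit 64), (nat_lit 68))⟩, (nat_lit 83629), (nat_lit 300), (nat_lit 1402), (nat_lit 3275213), (nat_lit 2424802), [(nat_lit 366528000), (nat_lit 546112000), (nat_lit 646668000)], [], [(nat_lit 2083879536), (nat_lit 1920364830), (nat_lit 1893088294), (nat_lit 1879649123), (nat_lit 2345547900), (nat_lit 2429480728), (nat_lit 1860898404), (nat_lit 1851886323)], (nat_lit 1184688), (nat_lit 1271251), (nat_lit 1271251), (nat_lit 1271251), (nat_lit 780000), (nat_lit 3072501), [(nat_lit 1695001), (nat_lit 1271251), (nat_lit 1271251)], [(nat_lit 28), (nat_lit 65), (nat_lit 462), (nat_lit 225), (nat_lit 10)]⟩⟩)))))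
noncomputable def c16_29 : Tr Lf :=
 (.spl (nat_lit 2) (nat_lit 160) (.trX (nat_lit 4) (nat_lit 0) (nat_lit 2) (nat_lit 61) (nat_lit 92) (nat_lit 100) (nat_lit 290) (.leaf ⟨(nat_lit 1000), (nat_lit 0), (nat_lit 0), (nat_lit 0), (nat_lit 2810), (nat_lit 3445), (nat_lit 0), (nat_lit 0), (nat_lit 0), (nat_lit 0), (nat_lit 250000), [((nat_lit 380), [((nat_lit 25), (nat_lit 0), (nat_lit 1000))])], ⟨(nat_lit 6), false, true, true, (nat_lit 240), (nat_lit 2236), (nat_lit 3163), [(nat_lit 1538797), (nat_lit 1534240), (nat_lit 1605240), (nat_lit 1602541), (nat_lit 1599750), (nat_lit 1591255), (nat_lit 1666215), (nat_lit 1659578)]⟩, ⟨(nat_lit 5), false, false, true, (nat_lit 200), (nat_lit 2236), (nat_lit 3163), [(nat_lit 1411379), (nat_lit 1408901), (nat_lit 1455689), (nat_lit 1454450), (nat_lit 1548524), (nat_lit 1537186), (nat_lit 1592834), (nat_lit 1582735)]⟩, (nat_lit 5158210), (nat_lit 39576779), (nat_lit 15717404), (nat_lit 11705817), (nat_lit 0), (nat_lit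 0), [], [⟨(nat_lit 1), (nat_lit 92), (nat_lit 61), (nat_lit 100), (nat_lit 212621946)⟩], [], [],
 ⟨⟨[(nat_lit 40), (nat_lit 80), (nat_lit 100)], [(nat_lit 0), (nat_lit 1598), (nat_lit 2533)], [((nat_lit 0), (nat_lit 0), (nat_lit 0)), ((nat_lit 1000), (nat_lit 625), (nat_lit 623)), ((nat_lit 1000), (nat_lit 604), (nat_lit 730))], ((nat_lit 61), (nat_lit 100), (nat_lit 68))⟩, (nat_lit 0), (nat_lit 62), (nat_lit 62), (nat_lit 0), (nat_lit 0), [(nat_lit 1528000002), (nat_lit 1715600002), (nat_lit 2118000000)], [(nat_lit 0), (nat_lit 0), (nat_lit 0)], [(nat_lit 23862121369), (nat_lit 24968461057), (nat_lit 25277808432), (nat_lit 26301549223), (nat_lit 26427409927), (nat_lit 27367608896), (nat_lit 27615403182), (nat_lit 28671076732)], (nat_lit 0), (nat_lit 0), (nat_lit 0), (nat_lit 0), (nat_lit 0), (nat_lit 0), [], [(nat_lit 3), (nat_lit 50), (nat_lit 203), (nat_lit 0), (nat_lit 6)]⟩,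
 Rw.none,
 Rw.none⟩)) (.spl (nat_lit 5) (nat_lit 120) (.leaf ⟨(nat_lit 961), (nat_lit 10), (nat_lit 0), (nat_lit 29), (nat_lit 0), (nat_lit 3447), (nat_lit 583), (nat_lit 385), (nat_lit 0), (nat_lit 0), (nat_lit 240250), [((nat_lit 380), [((nat_lit 25), (nat_lit 0), (nat_lit 961))])], ⟨(nat_lit 6), false, true, true, (nat_lit 240), (nat_lit 2236), (nat_lit 3163), [(nat_lit 1538797), (nat_lit 1534240), (nat_lit 1605240), (nat_lit 1602541), (nat_lit 1599750), (nat_lit 1591255), (nat_lit 1666215), (nat_lit 1659578)]⟩, ⟨(nat_lit 5), false, false, true, (nat_lit 219), (nat_lit 2236), (nat_lit 3163), [(nat_lit 1455689), (nat_lit 1454450), (nat_lit 1477844), (nat_lit 1477224), (nat_lit 1623310), (nat_lit 1611243), (nat_lit 1645465), (nat_lit 1634017)]⟩, (nat_lit 5283570), (nat_lit 38353463), (nat_lit 15372924), (nat_lit 13273613), (nat_lit 5), (nat_lit 0), [], [⟨(nat_lit 1), (nat_lit 93), (nat_lit 53), (nat_lit 100), (nat_lit 113905883)⟩], [], [⟨(nat_lit 0),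 (nat_lit 91), (nat_lit 100), (nat_lit 91), (nat_lit 53689597)⟩],
 ⟨⟨[(nat_lit 40), (nat_lit 80), (nat_lit 100)], [(nat_lit 0), (nat_lit 1598), (nat_lit 2533)], [((nat_lit 0), (nat_lit 0), (nat_lit 0)), ((nat_lit 1000), (nat_lit 625), (nat_lit 623)), ((nat_lit 1000), (nat_lit 604), (nat_lit 730))], ((nat_lit 61), (nat_lit 100), (nat_lit 68))⟩, (nat_lit 0), (nat_lit 64), (nat_lit 64), (nat_lit 0), (nat_lit 0), [(nat_lit 1538530031), (nat_lit 1831523625), (nat_lit 2279148000)], [(nat_lit 0), (nat_lit 0), (nat_lit 0)], [(nat_lit 23985927535), (nat_lit 25092551498), (nat_lit 25401830223), (nat_lit 26425820963), (nat_lit 27212113259), (nat_lit 28114577624), (nat_lit 28346927964), (nat_lit 29345651517)], (nat_lit 0), (nat_lit 0), (nat_lit 0), (nat_lit 0), (nat_lit 0), (nat_lit 0), [], [(nat_lit 3), (nat_lit 50), (nat_lit 203), (nat_lit 0), (nat_lit 6)]⟩,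
 ⟨⟨[(nat_lit 120), (nat_lit 160), (nat_lit 180)], [(nat_lit 0), (nat_lit 533), (nat_lit 2066)], [((nat_lit 0), (nat_lit 0), (nat_lit 0)), ((nat_lit 960), (nat_lit 1000), (nat_lit 200)), ((nat_lit 615), (nat_lit 1000), (nat_lit 729))], ((nat_lit 100), (nat_lit 67), (nat_lit 68))⟩, (nat_lit 196251), (nat_lit 1132), (nat_lit 1132), (nat_lit 0), (nat_lit 1705506), [(nat_lit 310752000), (nat_lit 463008000), (nat_lit 548262000)], [], [(nat_lit 1377358160), (nat_lit 1389586874), (nat_lit 1458133501), (nat_lit 1464256263), (nat_lit 953662881), (nat_lit 929160108), (nat_lit 991812134), (nat_lit 985527964)], (nat_lit 1271251), (nat_lit 1271251), (nat_lit 1271251), (nat_lit 1271251), (nat_lit 0), (nat_lit 780000), [(nat_lit 1695001), (nat_lit 1271251), (nat_lit 1271251)], [(nat_lit 28), (nat_lit 65), (nat_lit 401), (nat_lit 175), (nat_lit 9)]⟩,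
 ⟨⟨[(nat_lit 120), (nat_lit 160), (nat_lit 200)], [(nat_lit 0), (nat_lit 0), (nat_lit 3198)], [((nat_lit 0), (nat_lit 0), (nat_lit 0)), ((nat_lit 0), (nat_lit 0), (nat_lit 0)), ((nat_lit 572), (nat_lit 1000), (nat_lit 714))], ((nat_lit 0), (nat_lit 0), (nat_lit 0))⟩, (nat_lit 14146), (nat_lit 300), (nat_lit 1447), (nat_lit 2151806), (nat_lit 2204753), [(nat_lit 231072000), (nat_lit 344288000), (nat_lit 475600000)], [], [(nat_lit 1861601484), (nat_lit 1841742088), (nat_lit 1803796901), (nat_lit 1788470360), (nat_lit 1542743360), (nat_lit 1523637415), (nat_lit 1484177045), (nat_lit 1462865626)], (nat_lit 1100000), (nat_lit 1271251), (nat_lit 1271251), (nat_lit 1271251), (nat_lit 0), (nat_lit 780000), [(nat_lit 1695001), (nat_lit 1271251), (nat_lit 1271251)], [(nat_lit 29), (nat_lit 66), (nat_lit 438), (nat_lit 175), (nat_lit 9)]⟩⟩) (.leaf ⟨(nat_lit 969), (nat_lit 5), (nat_lit 0), (nat_lit 26), (nat_lit 0), (nat_lit 3440), (nat_lit 484), (nat_lit 306),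 (nat_lit 0), (nat_lit 0), (nat_lit 242250), [((nat_lit 380), [((nat_lit 25), (nat_lit 0), (nat_lit 969))])], ⟨(nat_lit 6), false, true, true, (nat_lit 240), (nat_lit 2236), (nat_lit 3163), [(nat_lit 1538797), (nat_lit 1534240), (nat_lit 1605240), (nat_lit 1602541), (nat_lit 1599750), (nat_lit 1591255), (nat_lit 1666215), (nat_lit 1659578)]⟩, ⟨(nat_lit 5), false, false, true, (nat_lit 219), (nat_lit 2236), (nat_lit 3163), [(nat_lit 1455689), (nat_lit 1454450), (nat_lit 1477844), (nat_lit 1477224), (nat_lit 1623310), (nat_lit 1611243), (nat_lit 1645465), (nat_lit 1634017)]⟩, (nat_lit 5283570), (nat_lit 38353463), (nat_lit 15372924), (nat_lit 13273613), (nat_lit 5), (nat_lit 0), [], [⟨(nat_lit 1), (nat_lit 93), (nat_lit 53), (nat_lit 100), (nat_lit 210838151)⟩], [], [],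
 ⟨⟨[(nat_lit 40), (nat_lit 80), (nat_lit 100)], [(nat_lit 0), (nat_lit 1598), (nat_lit 2533)], [((nat_lit 0), (nat_lit 0), (nat_lit 0)), ((nat_lit 1000), (nat_lit 625), (nat_lit 623)), ((nat_lit 1000), (nat_lit 604), (nat_lit 730))], ((nat_lit 61), (nat_lit 100), (nat_lit 68))⟩, (nat_lit 0), (nat_lit 64), (nat_lit 64), (nat_lit 0), (nat_lit 0), [(nat_lit 1536370001), (nat_lit 1807744401), (nat_lit 2246092000)], [(nat_lit 0), (nat_lit 0), (nat_lit 0)], [(nat_lit 23969254482), (nat_lit 25074883482), (nat_lit 25384402482), (nat_lit 26407518402), (nat_lit 27194400702), (nat_lit 28096164372), (nat_lit 28328850427), (nat_lit 29338527525)], (nat_lit 0), (nat_lit 0), (nat_lit 0), (nat_lit 0), (nat_lit 0), (nat_lit 0), [], [(nat_lit 3), (nat_lit 50), (nat_lit 203), (nat_lit 0), (nat_lit 6)]⟩,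
 ⟨⟨[(nat_lit 120), (nat_lit 160), (nat_lit 180)], [(nat_lit 0), (nat_lit 533), (nat_lit 2066)], [((nat_lit 0), (nat_lit 0), (nat_lit 0)), ((nat_lit 960), (nat_lit 1000), (nat_lit 200)), ((nat_lit 615), (nat_lit 1000), (nat_lit 729))], ((nat_lit 100), (nat_lit 67), (nat_lit 68))⟩, (nat_lit 155519), (nat_lit 1280), (nat_lit 1280), (nat_lit 0), (nat_lit 2202198), [(nat_lit 247008000), (nat_lit 368032000), (nat_lit 435798000)], [], [(nat_lit 846364462), (nat_lit 705950126), (nat_lit 758412621), (nat_lit 751488628), (nat_lit 1256783152), (nat_lit 1185014980), (nat_lit 1256443843), (nat_lit 1259787118)], (nat_lit 1271251), (nat_lit 1271251), (nat_lit 1271251), (nat_lit 1271251), (nat_lit 780000), (nat_lit 3072501), [(nat_lit 1695001), (nat_lit 1271251), (nat_lit 1271251)], [(nat_lit 28), (nat_lit 65), (nat_lit 483), (nat_lit 250), (nat_lit 11)]⟩,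
 ⟨⟨[(nat_lit 120), (nat_lit 160), (nat_lit 200)], [(nat_lit 0), (nat_lit 0), (nat_lit 3198)], [((nat_lit 0), (nat_lit 0), (nat_lit 0)), ((nat_lit 0), (nat_lit 0), (nat_lit 0)), ((nat_lit 572), (nat_lit 1000), (nat_lit 714))], ((nat_lit 0), (nat_lit 0), (nat_lit 0))⟩, (nat_lit 12683), (nat_lit 300), (nat_lit 1841), (nat_lit 1929200), (nat_lit 3194101), [(nat_lit 207168000), (nat_lit 308672000), (nat_lit 426400000)], [], [(nat_lit 1501754314), (nat_lit 1483981027), (nat_lit 1432268167), (nat_lit 1413513324), (nat_lit 1348263756), (nat_lit 1329901535), (nat_lit 1292149950), (nat_lit 1275430741)], (nat_lit 1100000), (nat_lit 1271251), (nat_lit 1271251), (nat_lit 1271251), (nat_lit 780000), (nat_lit 3072501), [(nat_lit 1695001), (nat_lit 1271251), (nat_lit 1271251)], [(nat_lit 29), (nat_lit 66), (nat_lit 572), (nat_lit 225), (nat_lit 12)]⟩⟩)))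
noncomputable def c16_30 : Tr Lf :=
 (.spl (nat_lit 4) (nat_lit 240) (.leaf ⟨(nat_lit 1000), (nat_lit 0), (nat_lit 0), (nat_lit 0), (nat_lit 0), (nat_lit 3367), (nat_lit 0), (nat_lit 0), (nat_lit 0), (nat_lit 0), (nat_lit 250000), [((nat_lit 380), [((nat_lit 25), (nat_lit 0), (nat_lit 1000))])], ⟨(nat_lit 7), false, true, true, (nat_lit 263), (nat_lit 2236), (nat_lit 3163), [(nat_lit 1599750), (nat_lit 1591255), (nat_lit 1666215), (nat_lit 1659578), (nat_lit 1660704), (nat_lit 1648271), (nat_lit 1727168), (nat_lit 1716594)]⟩, ⟨(nat_lit 5), false, false, true, (nat_lit 185), (nat_lit 2236), (nat_lit 3163), [(nat_lit 1411379), (nat_lit 1408901), (nat_lit 1455689), (nat_lit 1454450), (nat_lit 1472332), (nat_lit 1465917), (nat_lit 1516642), (nat_lit 1511466)]⟩, (nat_lit 5156994), (nat_lit 38730733), (nat_lit 18049653), (nat_lit 10219614), (nat_lit 0), (nat_lit 0), [], [], [], [],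
 ⟨⟨[(nat_lit 40), (nat_lit 80), (nat_lit 100)], [(nat_lit 0), (nat_lit 1598), (nat_lit 2533)], [((nat_lit 0), (nat_lit 0), (nat_lit 0)), ((nat_lit 1000), (nat_lit 625), (nat_lit 623)), ((nat_lit 1000), (nat_lit 604), (nat_lit 730))], ((nat_lit 61), (nat_lit 100), (nat_lit 68))⟩, (nat_lit 0), (nat_lit 66), (nat_lit 66), (nat_lit 0), (nat_lit 0), [(nat_lit 1528000005), (nat_lit 1715600005), (nat_lit 2118000000)], [(nat_lit 0), (nat_lit 0), (nat_lit 0)], [(nat_lit 25372651017), (nat_lit 26386643817), (nat_lit 26779928704), (nat_lit 27712661341), (nat_lit 26194008314), (nat_lit 27144449136), (nat_lit 27508235912), (nat_lit 28384656768)], (nat_lit 0), (nat_lit 0), (nat_lit 0), (nat_lit 0), (nat_lit 0), (nat_lit 0), [], [(nat_lit 3), (nat_lit 50), (nat_lit 203), (nat_lit 0), (nat_lit 5)]⟩,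
 Rw.none,
 Rw.none⟩) (.trZ (nat_lit 3) (nat_lit 4) (nat_lit 5) (nat_lit 100) (nat_lit 94) (nat_lit 59) (nat_lit 30) (.spl (nat_lit 6) (nat_lit 28) (.leaf ⟨(nat_lit 1000), (nat_lit 0), (nat_lit 0), (nat_lit 0), (nat_lit 0), (nat_lit 3135), (nat_lit 0), (nat_lit 0), (nat_lit 0), (nat_lit 0), (nat_lit 250000), [((nat_lit 380), [((nat_lit 24), (nat_lit 0), (nat_lit 1000))])], ⟨(nat_lit 7), false, true, true, (nat_lit 263), (nat_lit 2236), (nat_lit 3163), [(nat_lit 1599750), (nat_lit 1591255), (nat_lit 1666215), (nat_lit 1659578), (nat_lit 1660704), (nat_lit 1648271), (nat_lit 1727168), (nat_lit 1716594)]⟩, ⟨(nat_lit 6), false, false, true, (nat_lit 211), (nat_lit 2236), (nat_lit 3163), [(nat_lit 1472332), (nat_lit 1465917), (nat_lit 1516642), (nat_lit 1511466), (nat_lit 1548524), (nat_lit 1537186), (nat_lit 1592834), (nat_lit 1582735)]⟩, (nat_lit 5339896), (nat_lit 37202958), (nat_lit 17520119), (nat_lit 12276923), (nat_lit 0), (nat_lit 0), [], [⟨(nat_lit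 1), (nat_lit 92), (nat_lit 61), (nat_lit 100), (nat_lit 256511580)⟩], [], [],
 ⟨⟨[(nat_lit 40), (nat_lit 60), (nat_lit 80)], [(nat_lit 0), (nat_lit 832), (nat_lit 1534)], [((nat_lit 0), (nat_lit 0), (nat_lit 0)), ((nat_lit 1000), (nat_lit 659), (nat_lit 528)), ((nat_lit 1000), (nat_lit 650), (nat_lit 549))], ((nat_lit 65), (nat_lit 100), (nat_lit 55))⟩, (nat_lit 0), (nat_lit 57), (nat_lit 57), (nat_lit 0), (nat_lit 0), [(nat_lit 1526400004), (nat_lit 1384794502), (nat_lit 1705600000)], [(nat_lit 0), (nat_lit 0), (nat_lit 0)], [(nat_lit 25821611138), (nat_lit 26834621743), (nat_lit 27235677158), (nat_lit 28168277733), (nat_lit 27449597879), (nat_lit 28371308592), (nat_lit 28724725370), (nat_lit 29658385128)], (nat_lit 0), (nat_lit 0), (nat_lit 0), (nat_lit 0), (nat_lit 0), (nat_lit 0), [], [(nat_lit 2), (nat_lit 44), (nat_lit 203), (nat_lit 0), (nat_lit 6)]⟩,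
 Rw.none,
 Rw.none⟩) (.spl (nat_lit 0) (nat_lit 370) (.leaf ⟨(nat_lit 925), (nat_lit 50), (nat_lit 0), (nat_lit 25), (nat_lit 0), (nat_lit 3476), (nat_lit 893), (nat_lit 317), (nat_lit 0), (nat_lit 0), (nat_lit 231250), [((nat_lit 370), [((nat_lit 25), (nat_lit 0), (nat_lit 925))])], ⟨(nat_lit 7), false, true, true, (nat_lit 264), (nat_lit 2738), (nat_lit 3163), [(nat_lit 1599750), (nat_lit 1595704), (nat_lit 1666215), (nat_lit 1662956), (nat_lit 1660704), (nat_lit 1654765), (nat_lit 1727168), (nat_lit 1722017)]⟩, ⟨(nat_lit 6), false, false, true, (nat_lit 212), (nat_lit 2738), (nat_lit 3163), [(nat_lit 1472332), (nat_lit 1469390), (nat_lit 1516642), (nat_lit 1514225), (nat_lit 1548524), (nat_lit 1543217), (nat_lit 1592834), (nat_lit 1588052)]⟩, (nat_lit 5348961), (nat_lit 37084640), (nat_lit 17585902), (nat_lit 12329458), (nat_lit 6), (nat_lit 0), [], [⟨(nat_lit 1), (nat_lit 92), (nat_lit 61), (nat_lit 100), (nat_lit 235619006)⟩], [], [⟨(nat_lit 0),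 (nat_lit 100), (nat_lit 89), (nat_lit 100), (nat_lit 1739751)⟩],
 ⟨⟨[(nat_lit 40), (nat_lit 80), (nat_lit 100)], [(nat_lit 0), (nat_lit 1598), (nat_lit 2533)], [((nat_lit 0), (nat_lit 0), (nat_lit 0)), ((nat_lit 1000), (nat_lit 625), (nat_lit 623)), ((nat_lit 1000), (nat_lit 604), (nat_lit 730))], ((nat_lit 61), (nat_lit 100), (nat_lit 68))⟩, (nat_lit 0), (nat_lit 62), (nat_lit 62), (nat_lit 0), (nat_lit 0), [(nat_lit 1548250051), (nat_lit 1938530014), (nat_lit 2427900000)], [(nat_lit 0), (nat_lit 0), (nat_lit 0)], [(nat_lit 26301778977), (nat_lit 26783096085), (nat_lit 27625750521), (nat_lit 28069837112), (nat_lit 27822711422), (nat_lit 28266656980), (nat_lit 29046599362), (nat_lit 29531880666)], (nat_lit 0), (nat_lit 0), (nat_lit 0), (nat_lit 0), (nat_lit 0), (nat_lit 0), [], [(nat_lit 3), (nat_lit 50), (nat_lit 203), (nat_lit 0), (nat_lit 5)]⟩,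
 ⟨⟨[(nat_lit 120), (nat_lit 160), (nat_lit 180)], [(nat_lit 0), (nat_lit 533), (nat_lit 2066)], [((nat_lit 0), (nat_lit 0), (nat_lit 0)), ((nat_lit 960), (nat_lit 1000), (nat_lit 200)), ((nat_lit 615), (nat_lit 1000), (nat_lit 729))], ((nat_lit 100), (nat_lit 67), (nat_lit 68))⟩, (nat_lit 213618), (nat_lit 742), (nat_lit 742), (nat_lit 0), (nat_lit 918214), [(nat_lit 597600000), (nat_lit 890400000), (nat_lit 1054350000)], [], [(nat_lit 3029942759), (nat_lit 2976414860), (nat_lit 3084538339), (nat_lit 3017081153), (nat_lit 3764632281), (nat_lit 2762818920), (nat_lit 2995680697), (nat_lit 2919917988)], (nat_lit 1271251), (nat_lit 1271251), (nat_lit 1271251), (nat_lit 1271251), (nat_lit 169688), (nat_lit 2886876), [(nat_lit 1695001), (nat_lit 1271251), (nat_lit 1271251)], [(nat_lit 28), (nat_lit 65), (nat_lit 483), (nat_lit 250), (nat_lit 11)]⟩,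
 ⟨⟨[(nat_lit 140), (nat_lit 180), (nat_lit 200)], [(nat_lit 0), (nat_lit 0), (nat_lit 2835)], [((nat_lit 0), (nat_lit 0), (nat_lit 0)), ((nat_lit 0), (nat_lit 0), (nat_lit 0)), ((nat_lit 363), (nat_lit 1000), (nat_lit 798))], ((nat_lit 0), (nat_lit 0), (nat_lit 0))⟩, (nat_lit 6878), (nat_lit 300), (nat_lit 1707), (nat_lit 1952505), (nat_lit 2799377), [(nat_lit 246050000), (nat_lit 351450000), (nat_lit 410000000)], [], [(nat_lit 1627024022), (nat_lit 1575226000), (nat_lit 1617703353), (nat_lit 1564500450), (nat_lit 1584882392), (nat_lit 1749720608), (nat_lit 1304273144), (nat_lit 1414731651)], (nat_lit 780000), (nat_lit 1100000), (nat_lit 1271251), (nat_lit 1271251), (nat_lit 169688), (nat_lit 2886876), [(nat_lit 1977501), (nat_lit 1271251), (nat_lit 1271251)], [(nat_lit 32), (nat_lit 67), (nat_lit 533), (nat_lit 225), (nat_lit 11)]⟩⟩) (.trX (nat_lit 4) (nat_lit 0) (nat_lit 2) (nat_lit 54) (nat_lit 96) (nat_lit 100) (nat_lit 270) (.leaf ⟨(nat_lit 951),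 (nat_lit 32), (nat_lit 0), (nat_lit 17), (nat_lit 0), (nat_lit 3152), (nat_lit 584), (nat_lit 248), (nat_lit 0), (nat_lit 0), (nat_lit 237750), [((nat_lit 380), [((nat_lit 25), (nat_lit 0), (nat_lit 951))])], ⟨(nat_lit 7), false, true, true, (nat_lit 263), (nat_lit 2236), (nat_lit 2739), [(nat_lit 1595704), (nat_lit 1591255), (nat_lit 1662956), (nat_lit 1659578), (nat_lit 1654765), (nat_lit 1648271), (nat_lit 1722017), (nat_lit 1716594)]⟩, ⟨(nat_lit 6), false, false, true, (nat_lit 205), (nat_lit 2236), (nat_lit 2739), [(nat_lit 1469390), (nat_lit 1465917), (nat_lit 1514225), (nat_lit 1511466), (nat_lit 1513686), (nat_lit 1508679), (nat_lit 1558521), (nat_lit 1554227)]⟩, (nat_lit 5294609), (nat_lit 37647415), (nat_lit 17575451), (nat_lit 11777134), (nat_lit 6), (nat_lit 0), [⟨(nat_lit 1), (nat_lit 85), (nat_lit 48), (nat_lit 100), (nat_lit 2642809)⟩], [⟨(nat_lit 1), (nat_lit 96), (nat_lit 54), (nat_lit 100), (nat_lit 284132652)⟩], [], [⟨(nat_lit 0),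 (nat_lit 100), (nat_lit 85), (nat_lit 90), (nat_lit 158525)⟩],
 ⟨⟨[(nat_lit 40), (nat_lit 60), (nat_lit 80)], [(nat_lit 0), (nat_lit 1134), (nat_lit 1930)], [((nat_lit 0), (nat_lit 0), (nat_lit 0)), ((nat_lit 1000), (nat_lit 575), (nat_lit 619)), ((nat_lit 1000), (nat_lit 574), (nat_lit 622))], ((nat_lit 55), (nat_lit 100), (nat_lit 70))⟩, (nat_lit 0), (nat_lit 55), (nat_lit 55), (nat_lit 0), (nat_lit 0), [(nat_lit 1541230001), (nat_lit 1476423590), (nat_lit 1861247600)], [(nat_lit 0), (nat_lit 0), (nat_lit 0)], [(nat_lit 26345296681), (nat_lit 26851145174), (nat_lit 27719153702), (nat_lit 28186408922), (nat_lit 27293960489), (nat_lit 27774079838), (nat_lit 28588293184), (nat_lit 29075181781)], (nat_lit 0), (nat_lit 0), (nat_lit 0), (nat_lit 0), (nat_lit 0), (nat_lit 0), [], [(nat_lit 2), (nat_lit 44), (nat_lit 203), (nat_lit 0), (nat_lit 6)]⟩,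
 ⟨⟨[(nat_lit 120), (nat_lit 160), (nat_lit 180)], [(nat_lit 0), (nat_lit 533), (nat_lit 2066)], [((nat_lit 0), (nat_lit 0), (nat_lit 0)), ((nat_lit 960), (nat_lit 1000), (nat_lit 200)), ((nat_lit 615), (nat_lit 1000), (nat_lit 729))], ((nat_lit 100), (nat_lit 67), (nat_lit 68))⟩, (nat_lit 139564), (nat_lit 919), (nat_lit 919), (nat_lit 0), (nat_lit 1308359), [(nat_lit 390432000), (nat_lit 581728000), (nat_lit 688842000)], [], [(nat_lit 1978395323), (nat_lit 1943336875), (nat_lit 2014059766), (nat_lit 1970565574), (nat_lit 2459603168), (nat_lit 1805629642), (nat_lit 1956727776), (nat_lit 1908316792)], (nat_lit 1271251), (nat_lit 1271251), (nat_lit 1271251), (nat_lit 1271251), (nat_lit 169688), (nat_lit 2886876), [(nat_lit 1695001), (nat_lit 1271251), (nat_lit 1271251)], [(nat_lit 28), (nat_lit 65), (nat_lit 483), (nat_lit 250), (nat_lit 11)]⟩,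
 ⟨⟨[(nat_lit 140), (nat_lit 180), (nat_lit 200)], [(nat_lit 0), (nat_lit 0), (nat_lit 2835)], [((nat_lit 0), (nat_lit 0), (nat_lit 0)), ((nat_lit 0), (nat_lit 0), (nat_lit 0)), ((nat_lit 363), (nat_lit 1000), (nat_lit 798))], ((nat_lit 0), (nat_lit 0), (nat_lit 0))⟩, (nat_lit 4677), (nat_lit 300), (nat_lit 2127), (nat_lit 1327704), (nat_lit 3651873), [(nat_lit 167314000), (nat_lit 238986000), (nat_lit 278800000)], [], [(nat_lit 1058355828), (nat_lit 1016334090), (nat_lit 1052616035), (nat_lit 1009956741), (nat_lit 1103453900), (nat_lit 1229137804), (nat_lit 944289236), (nat_lit 1071893776)], (nat_lit 780000), (nat_lit 1100000), (nat_lit 1271251), (nat_lit 1271251), (nat_lit 169688), (nat_lit 2886876), [(nat_lit 1977501), (nat_lit 1271251), (nat_lit 1271251)], [(nat_lit 32), (nat_lit 67), (nat_lit 636), (nat_lit 225), (nat_lit 13)]⟩⟩))))))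
noncomputable def c16_31 : Tr Lf :=
 (.trZ (nat_lit 3) (nat_lit 4) (nat_lit 5) (nat_lit 100) (nat_lit 80) (nat_lit 60) (nat_lit 40) (.spl (nat_lit 6) (nat_lit 28) (.spl (nat_lit 4) (nat_lit 240) (.trX (nat_lit 5) (nat_lit 3) (nat_lit 4) (nat_lit 82) (nat_lit 44) (nat_lit 100) (nat_lit 390) (.leaf ⟨(nat_lit 1000), (nat_lit 0), (nat_lit 0), (nat_lit 0), (nat_lit 0), (nat_lit 2981), (nat_lit 0), (nat_lit 0), (nat_lit 0), (nat_lit 0), (nat_lit 370450), [((nat_lit 380), [((nat_lit 24), (nat_lit 0), (nat_lit 197)), ((nat_lit 24), (nat_lit 1), (nat_lit 803))])], ⟨(nat_lit 8), false, true, true, (nat_lit 284), (nat_lit 2236), (nat_lit 3163), [(nat_lit 1660704), (nat_lit 1648271), (nat_lit 1727168), (nat_lit 1716594), (nat_lit 1706419), (nat_lit 1691033), (nat_lit 1772883), (nat_lit 1759355)]⟩, ⟨(nat_lit 5), false, false, true, (nat_lit 185), (nat_lit 2236), (nat_lit 3163), [(nat_lit 1411379), (nat_lit 1408901), (nat_lit 1455689), (nat_lit 1454450), (nat_lit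 1472332), (nat_lit 1465917), (nat_lit 1516642), (nat_lit 1511466)]⟩, (nat_lit 5226624), (nat_lit 37206105), (nat_lit 19859244), (nat_lit 9934651), (nat_lit 0), (nat_lit 0), [⟨(nat_lit 1), (nat_lit 68), (nat_lit 61), (nat_lit 100), (nat_lit 315946792)⟩], [], [], [],
 ⟨⟨[(nat_lit 40), (nat_lit 60), (nat_lit 80)], [(nat_lit 0), (nat_lit 832), (nat_lit 1534)], [((nat_lit 0), (nat_lit 0), (nat_lit 0)), ((nat_lit 1000), (nat_lit 659), (nat_lit 528)), ((nat_lit 1000), (nat_lit 650), (nat_lit 549))], ((nat_lit 65), (nat_lit 100), (nat_lit 55))⟩, (nat_lit 0), (nat_lit 69), (nat_lit 69), (nat_lit 0), (nat_lit 0), [(nat_lit 1405628841), (nat_lit 1152285701), (nat_lit 1102386400)], [(nat_lit 0), (nat_lit 0), (nat_lit 0)], [(nat_lit 26472077483), (nat_lit 27363195074), (nat_lit 27696028754), (nat_lit 28635096174), (nat_lit 27217668227), (nat_lit 28056338864), (nat_lit 28371980659), (nat_lit 29312010305)], (nat_lit 0), (nat_lit 0), (nat_lit 0), (nat_lit 0), (nat_lit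 0), (nat_lit 0), [], [(nat_lit 2), (nat_lit 44), (nat_lit 203), (nat_lit 0), (nat_lit 6)]⟩,
 Rw.none,
 Rw.none⟩)) (.trZ (nat_lit 3) (nat_lit 4) (nat_lit 5) (nat_lit 100) (nat_lit 82) (nat_lit 76) (nat_lit 60) (.spl (nat_lit 0) (nat_lit 370) (.spl (nat_lit 2) (nat_lit 140) (.trX (nat_lit 4) (nat_lit 0) (nat_lit 2) (nat_lit 63) (nat_lit 99) (nat_lit 100) (nat_lit 270) (.leaf ⟨(nat_lit 1000), (nat_lit 0), (nat_lit 0), (nat_lit 0), (nat_lit 0), (nat_lit 3093), (nat_lit 0), (nat_lit 0), (nat_lit 0), (nat_lit 0), (nat_lit 250000), [((nat_lit 370), [((nat_lit 24), (nat_lit 0), (nat_lit 1000))])], ⟨(nat_lit 8), false, true, true, (nat_lit 285), (nat_lit 2738), (nat_lit 3163), [(nat_lit 1660704), (nat_lit 1654765), (nat_lit 1727168), (nat_lit 1722017), (nat_lit 1706419), (nat_lit 1699061), (nat_lit 1772883), (nat_lit 1766313)]⟩, ⟨(nat_lit 6), false, false, true, (nat_lit 202), (nat_lit 2738), (nat_lit 3163), [(nat_lit 1472332), (nat_lit 1469390), (nat_lit 1494487),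 (nat_lit 1491808), (nat_lit 1518047), (nat_lit 1513686), (nat_lit 1540202), (nat_lit 1536104)]⟩, (nat_lit 5349124), (nat_lit 36215346), (nat_lit 19600921), (nat_lit 11183733), (nat_lit 0), (nat_lit 0), [⟨(nat_lit 1), (nat_lit 68), (nat_lit 61), (nat_lit 100), (nat_lit 332183057)⟩], [⟨(nat_lit 1), (nat_lit 99), (nat_lit 63), (nat_lit 100), (nat_lit 230878984)⟩], [], [],
 ⟨⟨[(nat_lit 40), (nat_lit 60), (nat_lit 80)], [(nat_lit 0), (nat_lit 832), (nat_lit 1534)], [((nat_lit 0), (nat_lit 0), (nat_lit 0)), ((nat_lit 1000), (nat_lit 659), (nat_lit 528)), ((nat_lit 1000), (nat_lit 650), (nat_lit 549))], ((nat_lit 65), (nat_lit 100), (nat_lit 55))⟩, (nat_lit 0), (nat_lit 59), (nat_lit 59), (nat_lit 0), (nat_lit 0), [(nat_lit 1526400113), (nat_lit 1382277171), (nat_lit 1705600000)], [(nat_lit 0), (nat_lit 0), (nat_lit 0)], [(nat_lit 27268878796), (nat_lit 27732819839), (nat_lit 28540293021), (nat_lit 28974131838), (nat_lit 28159880392), (nat_lit 28599422037),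 (nat_lit 29366039020), (nat_lit 29816451506)], (nat_lit 0), (nat_lit 0), (nat_lit 0), (nat_lit 0), (nat_lit 0), (nat_lit 0), [], [(nat_lit 2), (nat_lit 44), (nat_lit 203), (nat_lit 0), (nat_lit 6)]⟩,
 Rw.none,
 Rw.none⟩)) (.leaf ⟨(nat_lit 939), (nat_lit 37), (nat_lit 0), (nat_lit 24), (nat_lit 0), (nat_lit 3044), (nat_lit 615), (nat_lit 265), (nat_lit 0), (nat_lit 0), (nat_lit 273750), [((nat_lit 370), [((nat_lit 24), (nat_lit 0), (nat_lit 679)), ((nat_lit 24), (nat_lit 1), (nat_lit 260))])], ⟨(nat_lit 8), false, true, true, (nat_lit 285), (nat_lit 2738), (nat_lit 3163), [(nat_lit 1660704), (nat_lit 1654765), (nat_lit 1727168), (nat_lit 1722017), (nat_lit 1706419), (nat_lit 1699061), (nat_lit 1772883), (nat_lit 1766313)]⟩, ⟨(nat_lit 6), false, false, true, (nat_lit 217), (nat_lit 2738), (nat_lit 3163), [(nat_lit 1494487), (nat_lit 1491808), (nat_lit 1516642), (nat_lit 1514225), (nat_lit 1570679), (nat_lit 1565634), (nat_lit 1592834), (nat_lit 1588052)]⟩,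 (nat_lit 5441383), (nat_lit 35424720), (nat_lit 19260448), (nat_lit 12314832), (nat_lit 6), (nat_lit 0), [⟨(nat_lit 1), (nat_lit 68), (nat_lit 61), (nat_lit 100), (nat_lit 279722753)⟩], [⟨(nat_lit 1), (nat_lit 92), (nat_lit 61), (nat_lit 100), (nat_lit 217913451)⟩], [], [],
 ⟨⟨[(nat_lit 40), (nat_lit 60), (nat_lit 80)], [(nat_lit 0), (nat_lit 832), (nat_lit 1534)], [((nat_lit 0), (nat_lit 0), (nat_lit 0)), ((nat_lit 1000), (nat_lit 659), (nat_lit 528)), ((nat_lit 1000), (nat_lit 650), (nat_lit 549))], ((nat_lit 65), (nat_lit 100), (nat_lit 55))⟩, (nat_lit 0), (nat_lit 60), (nat_lit 60), (nat_lit 0), (nat_lit 0), [(nat_lit 1503863610), (nat_lit 1398107251), (nat_lit 1692214400)], [(nat_lit 0), (nat_lit 0), (nat_lit 0)], [(nat_lit 27262540780), (nat_lit 27723729370), (nat_lit 28527029026), (nat_lit 28958448235), (nat_lit 28743590425), (nat_lit 29164554307), (nat_lit 29900185307), (nat_lit 30331000762)], (nat_lit 0), (nat_lit 0), (nat_lit 0), (nat_lit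 0), (nat_lit 0), (nat_lit 0), [], [(nat_lit 2), (nat_lit 44), (nat_lit 203), (nat_lit 0), (nat_lit 6)]⟩,
 ⟨⟨[(nat_lit 120), (nat_lit 140), (nat_lit 160)], [(nat_lit 0), (nat_lit 266), (nat_lit 862)], [((nat_lit 0), (nat_lit 0), (nat_lit 0)), ((nat_lit 960), (nat_lit 1000), (nat_lit 200)), ((nat_lit 874), (nat_lit 1000), (nat_lit 406))], ((nat_lit 100), (nat_lit 81), (nat_lit 51))⟩, (nat_lit 525583), (nat_lit 1067), (nat_lit 1067), (nat_lit 0), (nat_lit 1868377), [(nat_lit 486048000), (nat_lit 600362000), (nat_lit 724192000)], [], [(nat_lit 2027020147), (nat_lit 1963444747), (nat_lit 2036161220), (nat_lit 1972474282), (nat_lit 2236503286), (nat_lit 2251192012), (nat_lit 2385758460), (nat_lit 2382777699)], (nat_lit 1271251), (nat_lit 1271251), (nat_lit 1271251), (nat_lit 1271251), (nat_lit 356250), (nat_lit 2948751), [(nat_lit 1695001), (nat_lit 1271251), (nat_lit 1271251)], [(nat_lit 27), (nat_lit 62), (nat_lit 401), (nat_lit 175), (nat_lit 10)]⟩,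
 ⟨⟨[(nat_lit 140), (nat_lit 160), (nat_lit 180)], [(nat_lit 0), (nat_lit 304), (nat_lit 1085)], [((nat_lit 0), (nat_lit 0), (nat_lit 0)), ((nat_lit 913), (nat_lit 1000), (nat_lit 217)), ((nat_lit 759), (nat_lit 1000), (nat_lit 463))], ((nat_lit 100), (nat_lit 70), (nat_lit 53))⟩, (nat_lit 49263), (nat_lit 300), (nat_lit 2076), (nat_lit 1687201), (nat_lit 3722028), [(nat_lit 236208000), (nat_lit 284928000), (nat_lit 337392000)], [], [(nat_lit 1284099203), (nat_lit 1264577261), (nat_lit 1267437547), (nat_lit 1248205999), (nat_lit 1100404732), (nat_lit 1080331240), (nat_lit 1088767566), (nat_lit 1068202358)], (nat_lit 936250), (nat_lit 1100000), (nat_lit 1271251), (nat_lit 1271251), (nat_lit 356250), (nat_lit 2948751), [(nat_lit 1977501), (nat_lit 1271251), (nat_lit 1271251)], [(nat_lit 31), (nat_lit 65), (nat_lit 626), (nat_lit 225), (nat_lit 14)]⟩⟩)) (.trX (nat_lit 3) (nat_lit 0) (nat_lit 1) (nat_lit 54) (nat_lit 74) (nat_lit 100) (nat_lit 340) (.trX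 (nat_lit 4) (nat_lit 0) (nat_lit 2) (nat_lit 54) (nat_lit 96) (nat_lit 100) (nat_lit 270) (.leaf ⟨(nat_lit 1000), (nat_lit 0), (nat_lit 0), (nat_lit 0), (nat_lit 0), (nat_lit 3091), (nat_lit 0), (nat_lit 0), (nat_lit 0), (nat_lit 0), (nat_lit 250000), [((nat_lit 380), [((nat_lit 24), (nat_lit 0), (nat_lit 1000))])], ⟨(nat_lit 8), false, true, true, (nat_lit 280), (nat_lit 2236), (nat_lit 2739), [(nat_lit 1654765), (nat_lit 1648271), (nat_lit 1722017), (nat_lit 1716594), (nat_lit 1684296), (nat_lit 1676779), (nat_lit 1751548), (nat_lit 1745101)]⟩, ⟨(nat_lit 6), false, false, true, (nat_lit 205), (nat_lit 2236), (nat_lit 2739), [(nat_lit 1469390), (nat_lit 1465917), (nat_lit 1514225), (nat_lit 1511466), (nat_lit 1513686), (nat_lit 1508679), (nat_lit 1558521), (nat_lit 1554227)]⟩, (nat_lit 5353262), (nat_lit 36435438), (nat_lit 19065119), (nat_lit 11499443), (nat_lit 0), (nat_lit 0), [⟨(nat_lit 1), (nat_lit 74), (nat_lit 54), (nat_lit 100), (nat_lit 382312618)⟩],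 [⟨(nat_lit 1), (nat_lit 96), (nat_lit 54), (nat_lit 100), (nat_lit 281684899)⟩], [], [],
 ⟨⟨[(nat_lit 40), (nat_lit 60)], [(nat_lit 0), (nat_lit 1134)], [((nat_lit 0), (nat_lit 0), (nat_lit 0)), ((nat_lit 1000), (nat_lit 575), (nat_lit 619))], ((nat_lit 59), (nat_lit 100), (nat_lit 58))⟩, (nat_lit 0), (nat_lit 59), (nat_lit 59), (nat_lit 0), (nat_lit 0), [(nat_lit 1526400060), (nat_lit 1367200000)], [(nat_lit 0), (nat_lit 0)], [(nat_lit 27734288408), (nat_lit 28198117105), (nat_lit 28561650335), (nat_lit 29005419939), (nat_lit 28600804596), (nat_lit 29040244695), (nat_lit 29385954454), (nat_lit 29847275473)], (nat_lit 0), (nat_lit 0), (nat_lit 0), (nat_lit 0), (nat_lit 0), (nat_lit 0), [], [(nat_lit 1), (nat_lit 38), (nat_lit 203), (nat_lit 0), (nat_lit 7)]⟩,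
 Rw.none,
 Rw.none⟩)))))) (.spl (nat_lit 1) (nat_lit 220) (.trX (nat_lit 3) (nat_lit 0) (nat_lit 1) (nat_lit 60) (nat_lit 74) (nat_lit 100) (nat_lit 340) (.leaf ⟨(nat_lit 977), (nat_lit 11), (nat_lit 0), (nat_lit 12), (nat_lit 3547), (nat_lit 3377), (nat_lit 285), (nat_lit 148), (nat_lit 0), (nat_lit 0), (nat_lit 244250), [((nat_lit 380), [((nat_lit 25), (nat_lit 0), (nat_lit 977))])], ⟨(nat_lit 8), false, true, true, (nat_lit 277), (nat_lit 2236), (nat_lit 3163), [(nat_lit 1660704), (nat_lit 1648271), (nat_lit 1705013), (nat_lit 1693819), (nat_lit 1691180), (nat_lit 1676779), (nat_lit 1735490), (nat_lit 1722327)]⟩, ⟨(nat_lit 5), false, false, true, (nat_lit 200), (nat_lit 2236), (nat_lit 3163), [(nat_lit 1411379), (nat_lit 1408901), (nat_lit 1455689), (nat_lit 1454450), (nat_lit 1548524), (nat_lit 1537186), (nat_lit 1592834), (nat_lit 1582735)]⟩, (nat_lit 5308972), (nat_lit 36948978), (nat_lit 18897289), (nat_lit 11153733), (nat_lit 5), (nat_lit 0),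 [⟨(nat_lit 1), (nat_lit 74), (nat_lit 60), (nat_lit 100), (nat_lit 350130248)⟩], [⟨(nat_lit 1), (nat_lit 92), (nat_lit 61), (nat_lit 100), (nat_lit 165369153)⟩], [], [⟨(nat_lit 0), (nat_lit 94), (nat_lit 75), (nat_lit 100), (nat_lit 5464485)⟩],
 ⟨⟨[(nat_lit 40), (nat_lit 80), (nat_lit 100)], [(nat_lit 0), (nat_lit 1598), (nat_lit 2533)], [((nat_lit 0), (nat_lit 0), (nat_lit 0)), ((nat_lit 1000), (nat_lit 625), (nat_lit 623)), ((nat_lit 1000), (nat_lit 604), (nat_lit 730))], ((nat_lit 61), (nat_lit 100), (nat_lit 68))⟩, (nat_lit 0), (nat_lit 71), (nat_lit 71), (nat_lit 0), (nat_lit 0), [(nat_lit 1534210001), (nat_lit 1783965201), (nat_lit 2213036000)], [(nat_lit 0), (nat_lit 0), (nat_lit 0)], [(nat_lit 26843422716), (nat_lit 27777233463), (nat_lit 27695201896), (nat_lit 28627884659), (nat_lit 28953152074), (nat_lit 29913000951), (nat_lit 29823811866), (nat_lit 30739066201)], (nat_lit 0), (nat_lit 0), (nat_lit 0), (nat_lit 0), (nat_lit 0), (nat_lit 0),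 [], [(nat_lit 3), (nat_lit 50), (nat_lit 203), (nat_lit 0), (nat_lit 5)]⟩,
 ⟨⟨[(nat_lit 120), (nat_lit 160), (nat_lit 180)], [(nat_lit 0), (nat_lit 533), (nat_lit 2066)], [((nat_lit 0), (nat_lit 0), (nat_lit 0)), ((nat_lit 960), (nat_lit 1000), (nat_lit 200)), ((nat_lit 615), (nat_lit 1000), (nat_lit 729))], ((nat_lit 100), (nat_lit 67), (nat_lit 68))⟩, (nat_lit 67668), (nat_lit 882), (nat_lit 882), (nat_lit 0), (nat_lit 1292325), [(nat_lit 183264000), (nat_lit 273056000), (nat_lit 323334000)], [], [(nat_lit 898327770), (nat_lit 890641339), (nat_lit 925573063), (nat_lit 919519732), (nat_lit 908248178), (nat_lit 907967230), (nat_lit 951229216), (nat_lit 947403132)], (nat_lit 1271251), (nat_lit 1271251), (nat_lit 1271251), (nat_lit 1271251), (nat_lit 230000), (nat_lit 2907501), [(nat_lit 1695001), (nat_lit 1271251), (nat_lit 1271251)], [(nat_lit 28), (nat_lit 65), (nat_lit 483), (nat_lit 250), (nat_lit 11)]⟩,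
 ⟨⟨[(nat_lit 140), (nat_lit 180), (nat_lit 200)], [(nat_lit 0), (nat_lit 0), (nat_lit 2835)], [((nat_lit 0), (nat_lit 0), (nat_lit 0)), ((nat_lit 0), (nat_lit 0), (nat_lit 0)), ((nat_lit 363), (nat_lit 1000), (nat_lit 798))], ((nat_lit 0), (nat_lit 0), (nat_lit 0))⟩, (nat_lit 3302), (nat_lit 300), (nat_lit 1944), (nat_lit 937200), (nat_lit 3263860), [(nat_lit 118104000), (nat_lit 168696000), (nat_lit 196800000)], [], [(nat_lit 799185504), (nat_lit 774356964), (nat_lit 771109141), (nat_lit 746616904), (nat_lit 900467344), (nat_lit 976237688), (nat_lit 631505342), (nat_lit 691623994)], (nat_lit 780000), (nat_lit 1100000), (nat_lit 1271251), (nat_lit 1271251), (nat_lit 230000), (nat_lit 2907501), [(nat_lit 1977501), (nat_lit 1271251), (nat_lit 1271251)], [(nat_lit 32), (nat_lit 67), (nat_lit 593), (nat_lit 225), (nat_lit 12)]⟩⟩)) (.spl (nat_lit 0) (nat_lit 370) (.leaf ⟨(nat_lit 864), (nat_lit 105), (nat_lit 0), (nat_lit 31), (nat_lit 0), (nat_lit 3414),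 (nat_lit 1202), (nat_lit 353), (nat_lit 0), (nat_lit 0), (nat_lit 225600), [((nat_lit 370), [((nat_lit 25), (nat_lit 0), (nat_lit 800)), ((nat_lit 25), (nat_lit 1), (nat_lit 64))])], ⟨(nat_lit 8), false, true, true, (nat_lit 294), (nat_lit 2738), (nat_lit 3163), [(nat_lit 1705013), (nat_lit 1699600), (nat_lit 1727168), (nat_lit 1722017), (nat_lit 1750729), (nat_lit 1743896), (nat_lit 1772883), (nat_lit 1766313)]⟩, ⟨(nat_lit 5), false, false, true, (nat_lit 200), (nat_lit 2738), (nat_lit 3163), [(nat_lit 1411379), (nat_lit 1410329), (nat_lit 1455689), (nat_lit 1455164), (nat_lit 1548524), (nat_lit 1543217), (nat_lit 1592834), (nat_lit 1588052)]⟩, (nat_lit 5360863), (nat_lit 35678250), (nat_lit 20395410), (nat_lit 10926340), (nat_lit 5), (nat_lit 0), [⟨(nat_lit 1), (nat_lit 74), (nat_lit 57), (nat_lit 100), (nat_lit 275954041)⟩], [⟨(nat_lit 1), (nat_lit 100), (nat_lit 59), (nat_lit 100), (nat_lit 153177063)⟩], [], [],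
 ⟨⟨[(nat_lit 40), (nat_lit 80), (nat_lit 100)], [(nat_lit 0), (nat_lit 1598), (nat_lit 2533)], [((nat_lit 0), (nat_lit 0), (nat_lit 0)), ((nat_lit 1000), (nat_lit 625), (nat_lit 623)), ((nat_lit 1000), (nat_lit 604), (nat_lit 730))], ((nat_lit 61), (nat_lit 100), (nat_lit 68))⟩, (nat_lit 0), (nat_lit 71), (nat_lit 71), (nat_lit 0), (nat_lit 0), [(nat_lit 1555402042), (nat_lit 2071078412), (nat_lit 2602972800)], [(nat_lit 0), (nat_lit 0), (nat_lit 0)], [(nat_lit 27110727602), (nat_lit 27579627479), (nat_lit 28393415431), (nat_lit 28831312357), (nat_lit 29220202403), (nat_lit 29621550150), (nat_lit 30353624094), (nat_lit 30747453895)], (nat_lit 0), (nat_lit 0), (nat_lit 0), (nat_lit 0), (nat_lit 0), (nat_lit 0), [], [(nat_lit 3), (nat_lit 50), (nat_lit 203), (nat_lit 0), (nat_lit 5)]⟩,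
 ⟨⟨[(nat_lit 100), (nat_lit 140), (nat_lit 160)], [(nat_lit 0), (nat_lit 508), (nat_lit 1689)], [((nat_lit 0), (nat_lit 0), (nat_lit 0)), ((nat_lit 1000), (nat_lit 1000), (nat_lit 198)), ((nat_lit 811), (nat_lit 1000), (nat_lit 671))], ((nat_lit 100), (nat_lit 81), (nat_lit 68))⟩, (nat_lit 353916), (nat_lit 540), (nat_lit 540), (nat_lit 0), (nat_lit 698834), [(nat_lit 850000000), (nat_lit 1338512000), (nat_lit 1614592000)], [], [(nat_lit 5197822699), (nat_lit 5194398232), (nat_lit 5360416547), (nat_lit 5357924812), (nat_lit 4967863886), (nat_lit 4933564608), (nat_lit 5097061342), (nat_lit 5102567737)], (nat_lit 1271251), (nat_lit 1271251), (nat_lit 1271251), (nat_lit 1271251), (nat_lit 230000), (nat_lit 2907501), [(nat_lit 1412501), (nat_lit 1271251), (nat_lit 1271251)], [(nat_lit 23), (nat_lit 62), (nat_lit 401), (nat_lit 175), (nat_lit 10)]⟩,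
 ⟨⟨[(nat_lit 140), (nat_lit 180), (nat_lit 200)], [(nat_lit 0), (nat_lit 0), (nat_lit 2835)], [((nat_lit 0), (nat_lit 0), (nat_lit 0)), ((nat_lit 0), (nat_lit 0), (nat_lit 0)), ((nat_lit 363), (nat_lit 1000), (nat_lit 798))], ((nat_lit 0), (nat_lit 0), (nat_lit 0))⟩, (nat_lit 8529), (nat_lit 300), (nat_lit 1719), (nat_lit 2421102), (nat_lit 2799323), [(nat_lit 305102000), (nat_lit 435798000), (nat_lit 508400000)], [], [(nat_lit 2172066768), (nat_lit 2113573943), (nat_lit 2090298029), (nat_lit 2031374390), (nat_lit 2274787028), (nat_lit 2458553862), (nat_lit 1706908998), (nat_lit 1779711741)], (nat_lit 780000), (nat_lit 1100000), (nat_lit 1271251), (nat_lit 1271251), (nat_lit 230000), (nat_lit 2907501), [(nat_lit 1977501), (nat_lit 1271251), (nat_lit 1271251)], [(nat_lit 32), (nat_lit 67), (nat_lit 536), (nat_lit 225), (nat_lit 11)]⟩⟩) (.trX (nat_lit 3) (nat_lit 0) (nat_lit 1) (nat_lit 54) (nat_lit 74) (nat_lit 100) (nat_lit 340) (.trX (nat_lit 4) (nat_lit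 0) (nat_lit 2) (nat_lit 54) (nat_lit 96) (nat_lit 100) (nat_lit 270) (.leaf ⟨(nat_lit 934), (nat_lit 45), (nat_lit 0), (nat_lit 21), (nat_lit 0), (nat_lit 3381), (nat_lit 672), (nat_lit 236), (nat_lit 0), (nat_lit 0), (nat_lit 233500), [((nat_lit 380), [((nat_lit 25), (nat_lit 0), (nat_lit 934))])], ⟨(nat_lit 8), false, true, true, (nat_lit 289), (nat_lit 2236), (nat_lit 2739), [(nat_lit 1699600), (nat_lit 1693819), (nat_lit 1722017), (nat_lit 1716594), (nat_lit 1729131), (nat_lit 1722327), (nat_lit 1751548), (nat_lit 1745101)]⟩, ⟨(nat_lit 5), false, false, true, (nat_lit 193), (nat_lit 2236), (nat_lit 2739), [(nat_lit 1410329), (nat_lit 1408901), (nat_lit 1455164), (nat_lit 1454450), (nat_lit 1513686), (nat_lit 1508679), (nat_lit 1558521), (nat_lit 1554227)]⟩, (nat_lit 5300044), (nat_lit 36417469), (nat_lit 20097982), (nat_lit 10484549), (nat_lit 5), (nat_lit 0), [⟨(nat_lit 1), (nat_lit 74), (nat_lit 54), (nat_lit 100), (nat_lit 309222890)⟩], [⟨(nat_lit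 1), (nat_lit 96), (nat_lit 54), (nat_lit 100), (nat_lit 163146374)⟩], [], [],
 ⟨⟨[(nat_lit 40), (nat_lit 60), (nat_lit 80)], [(nat_lit 0), (nat_lit 1134), (nat_lit 1930)], [((nat_lit 0), (nat_lit 0), (nat_lit 0)), ((nat_lit 1000), (nat_lit 575), (nat_lit 619)), ((nat_lit 1000), (nat_lit 574), (nat_lit 622))], ((nat_lit 55), (nat_lit 100), (nat_lit 70))⟩, (nat_lit 0), (nat_lit 63), (nat_lit 63), (nat_lit 0), (nat_lit 0), [(nat_lit 1545820002), (nat_lit 1632414044), (nat_lit 1911778400)], [(nat_lit 0), (nat_lit 0), (nat_lit 0)], [(nat_lit 27445534440), (nat_lit 27912655435), (nat_lit 28277150084), (nat_lit 28723745810), (nat_lit 28950340871), (nat_lit 29365783460), (nat_lit 29692626418), (nat_lit 30169414995)], (nat_lit 0), (nat_lit 0), (nat_lit 0), (nat_lit 0), (nat_lit 0), (nat_lit 0), [], [(nat_lit 2), (nat_lit 44), (nat_lit 203), (nat_lit 0), (nat_lit 6)]⟩,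
 ⟨⟨[(nat_lit 100), (nat_lit 140), (nat_lit 160)], [(nat_lit 0), (nat_lit 508), (nat_lit 1689)], [((nat_lit 0), (nat_lit 0), (nat_lit 0)), ((nat_lit 1000), (nat_lit 1000), (nat_lit 198)), ((nat_lit 811), (nat_lit 1000), (nat_lit 671))], ((nat_lit 100), (nat_lit 81), (nat_lit 68))⟩, (nat_lit 165956), (nat_lit 658), (nat_lit 658), (nat_lit 0), (nat_lit 950792), [(nat_lit 412500000), (nat_lit 649572000), (nat_lit 783552000)], [], [(nat_lit 2362400851), (nat_lit 2350181500), (nat_lit 2398047094), (nat_lit 2383989022), (nat_lit 2437987296), (nat_lit 2443038384), (nat_lit 2537755347), (nat_lit 2538521796)], (nat_lit 1271251), (nat_lit 1271251), (nat_lit 1271251), (nat_lit 1271251), (nat_lit 230000), (nat_lit 2907501), [(nat_lit 1412501), (nat_lit 1271251), (nat_lit 1271251)], [(nat_lit 23), (nat_lit 62), (nat_lit 401), (nat_lit 175), (nat_lit 10)]⟩,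
 ⟨⟨[(nat_lit 140), (nat_lit 180), (nat_lit 200)], [(nat_lit 0), (nat_lit 0), (nat_lit 2835)], [((nat_lit 0), (nat_lit 0), (nat_lit 0)), ((nat_lit 0), (nat_lit 0), (nat_lit 0)), ((nat_lit 363), (nat_lit 1000), (nat_lit 798))], ((nat_lit 0), (nat_lit 0), (nat_lit 0))⟩, (nat_lit 5778), (nat_lit 300), (nat_lit 2140), (nat_lit 1640100), (nat_lit 3651801), [(nat_lit 206682000), (nat_lit 295218000), (nat_lit 344400000)], [], [(nat_lit 1489333611), (nat_lit 1456146873), (nat_lit 1442115720), (nat_lit 1407133621), (nat_lit 1535499680), (nat_lit 1658709688), (nat_lit 1177020164), (nat_lit 1304623194)], (nat_lit 780000), (nat_lit 1100000), (nat_lit 1271251), (nat_lit 1271251), (nat_lit 230000), (nat_lit 2907501), [(nat_lit 1977501), (nat_lit 1271251), (nat_lit 1271251)], [(nat_lit 32), (nat_lit 67), (nat_lit 639), (nat_lit 225), (nat_lit 13)]⟩⟩)))))))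
def l030 : List St := [⟨⟨(nat_lit 360), (nat_lit 380), (nat_lit 120), (nat_lit 240), (nat_lit 120), (nat_lit 180), (nat_lit 20), (nat_lit 120), (nat_lit 20), (nat_lit 160), (nat_lit 0), (nat_lit 400), (nat_lit 0), (nat_lit 52)⟩, (nat_lit 3), (nat_lit 3), (nat_lit 3), true, false, false⟩,
  ⟨⟨(nat_lit 360), (nat_lit 380), (nat_lit 120), (nat_lit 180), (nat_lit 120), (nat_lit 180), (nat_lit 20), (nat_lit 120), (nat_lit 160), (nat_lit 310), (nat_lit 0), (nat_lit 400), (nat_lit 0), (nat_lit 52)⟩, (nat_lit 3), (nat_lit 3), (nat_lit 3), true, false, false⟩,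
  ⟨⟨(nat_lit 360), (nat_lit 380), (nat_lit 180), (nat_lit 240), (nat_lit 120), (nat_lit 180), (nat_lit 20), (nat_lit 120), (nat_lit 160), (nat_lit 310), (nat_lit 0), (nat_lit 400), (nat_lit 0), (nat_lit 52)⟩, (nat_lit 3), (nat_lit 3), (nat_lit 3), true, false, false⟩,
  ⟨⟨(nat_lit 360), (nat_lit 380), (nat_lit 120), (nat_lit 240), (nat_lit 120), (nat_lit 180), (nat_lit 20), (nat_lit 120), (nat_lit 20), (nat_lit 310), (nat_lit 0), (nat_lit 400), (nat_lit 52), (nat_lit 100)⟩, (nat_lit 3), (nat_lit 3), (nat_lit 3), true, false, false⟩,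
  ⟨⟨(nat_lit 360), (nat_lit 380), (nat_lit 180), (nat_lit 240), (nat_lit 180), (nat_lit 240), (nat_lit 60), (nat_lit 120), (nat_lit 60), (nat_lit 200), (nat_lit 0), (nat_lit 400), (nat_lit 0), (nat_lit 68)⟩, (nat_lit 3), (nat_lit 3), (nat_lit 3), true, false, false⟩,
  ⟨⟨(nat_lit 360), (nat_lit 380), (nat_lit 180), (nat_lit 240), (nat_lit 180), (nat_lit 240), (nat_lit 60), (nat_lit 120), (nat_lit 200), (nat_lit 280), (nat_lit 0), (nat_lit 390), (nat_lit 0), (nat_lit 68)⟩, (nat_lit 3), (nat_lit 3), (nat_lit 3), true, false, false⟩,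
  ⟨⟨(nat_lit 360), (nat_lit 380), (nat_lit 180), (nat_lit 240), (nat_lit 180), (nat_lit 240), (nat_lit 60), (nat_lit 120), (nat_lit 280), (nat_lit 350), (nat_lit 0), (nat_lit 340), (nat_lit 0), (nat_lit 36)⟩, (nat_lit 3), (nat_lit 3), (nat_lit 3), true, false, false⟩,
  ⟨⟨(nat_lit 360), (nat_lit 380), (nat_lit 180), (nat_lit 240), (nat_lit 180), (nat_lit 220), (nat_lit 60), (nat_lit 120), (nat_lit 280), (nat_lit 350), (nat_lit 0), (nat_lit 340), (nat_lit 36), (nat_lit 68)⟩, (nat_lit 3), (nat_lit 3), (nat_lit 3), true, false, false⟩,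
  ⟨⟨(nat_lit 360), (nat_lit 380), (nat_lit 180), (nat_lit 240), (nat_lit 220), (nat_lit 240), (nat_lit 60), (nat_lit 120), (nat_lit 280), (nat_lit 350), (nat_lit 0), (nat_lit 340), (nat_lit 36), (nat_lit 68)⟩, (nat_lit 3), (nat_lit 3), (nat_lit 3), true, false, false⟩,
  ⟨⟨(nat_lit 360), (nat_lit 380), (nat_lit 120), (nat_lit 240), (nat_lit 120), (nat_lit 180), (nat_lit 120), (nat_lit 240), (nat_lit 20), (nat_lit 120), (nat_lit 0), (nat_lit 400), (nat_lit 0), (nat_lit 28)⟩, (nat_lit 3), (nat_lit 3), (nat_lit 3), false, true, false⟩,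
  ⟨⟨(nat_lit 360), (nat_lit 380), (nat_lit 120), (nat_lit 240), (nat_lit 120), (nat_lit 180), (nat_lit 240), (nat_lit 350), (nat_lit 20), (nat_lit 120), (nat_lit 0), (nat_lit 400), (nat_lit 0), (nat_lit 28)⟩, (nat_lit 3), (nat_lit 3), (nat_lit 3), false, true, false⟩,
  ⟨⟨(nat_lit 360), (nat_lit 380), (nat_lit 120), (nat_lit 240), (nat_lit 180), (nat_lit 240), (nat_lit 120), (nat_lit 350), (nat_lit 20), (nat_lit 120), (nat_lit 0), (nat_lit 400), (nat_lit 0), (nat_lit 28)⟩, (nat_lit 3), (nat_lit 3), (nat_lit 3), false, true, false⟩,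
  ⟨⟨(nat_lit 360), (nat_lit 380), (nat_lit 120), (nat_lit 240), (nat_lit 120), (nat_lit 180), (nat_lit 120), (nat_lit 240), (nat_lit 120), (nat_lit 200), (nat_lit 0), (nat_lit 400), (nat_lit 0), (nat_lit 28)⟩, (nat_lit 3), (nat_lit 3), (nat_lit 3), false, false, false⟩,
  ⟨⟨(nat_lit 360), (nat_lit 380), (nat_lit 120), (nat_lit 240), (nat_lit 120), (nat_lit 180), (nat_lit 240), (nat_lit 350), (nat_lit 120), (nat_lit 200), (nat_lit 0), (nat_lit 400), (nat_lit 0), (nat_lit 28)⟩, (nat_lit 3), (nat_lit 3), (nat_lit 3), false, false, false⟩,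
  ⟨⟨(nat_lit 360), (nat_lit 380), (nat_lit 180), (nat_lit 240), (nat_lit 180), (nat_lit 240), (nat_lit 120), (nat_lit 240), (nat_lit 120), (nat_lit 200), (nat_lit 0), (nat_lit 400), (nat_lit 0), (nat_lit 28)⟩, (nat_lit 3), (nat_lit 3), (nat_lit 3), false, false, false⟩,
  ⟨⟨(nat_lit 360), (nat_lit 380), (nat_lit 180), (nat_lit 240), (nat_lit 180), (nat_lit 240), (nat_lit 240), (nat_lit 350), (nat_lit 120), (nat_lit 200), (nat_lit 0), (nat_lit 400), (nat_lit 0), (nat_lit 28)⟩, (nat_lit 3), (nat_lit 3), (nat_lit 3), false, false, false⟩,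
  ⟨⟨(nat_lit 360), (nat_lit 380), (nat_lit 120), (nat_lit 240), (nat_lit 120), (nat_lit 180), (nat_lit 120), (nat_lit 240), (nat_lit 20), (nat_lit 200), (nat_lit 0), (nat_lit 400), (nat_lit 28), (nat_lit 52)⟩, (nat_lit 3), (nat_lit 3), (nat_lit 3), false, false, false⟩,
  ⟨⟨(nat_lit 360), (nat_lit 380), (nat_lit 120), (nat_lit 240), (nat_lit 180), (nat_lit 240), (nat_lit 120), (nat_lit 240), (nat_lit 20), (nat_lit 200), (nat_lit 0), (nat_lit 400), (nat_lit 28), (nat_lit 52)⟩, (nat_lit 3), (nat_lit 3), (nat_lit 3), false, false, false⟩,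
  ⟨⟨(nat_lit 360), (nat_lit 380), (nat_lit 120), (nat_lit 180), (nat_lit 120), (nat_lit 180), (nat_lit 240), (nat_lit 350), (nat_lit 20), (nat_lit 200), (nat_lit 0), (nat_lit 400), (nat_lit 28), (nat_lit 52)⟩, (nat_lit 3), (nat_lit 3), (nat_lit 3), false, false, false⟩,
  ⟨⟨(nat_lit 360), (nat_lit 380), (nat_lit 180), (nat_lit 240), (nat_lit 120), (nat_lit 180), (nat_lit 240), (nat_lit 350), (nat_lit 20), (nat_lit 120), (nat_lit 0), (nat_lit 400), (nat_lit 28), (nat_lit 52)⟩, (nat_lit 3), (nat_lit 3), (nat_lit 3), false, true, false⟩,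
  ⟨⟨(nat_lit 360), (nat_lit 380), (nat_lit 180), (nat_lit 240), (nat_lit 120), (nat_lit 180), (nat_lit 240), (nat_lit 350), (nat_lit 120), (nat_lit 200), (nat_lit 0), (nat_lit 400), (nat_lit 28), (nat_lit 52)⟩, (nat_lit 3), (nat_lit 3), (nat_lit 3), false, false, false⟩,
  ⟨⟨(nat_lit 360), (nat_lit 380), (nat_lit 180), (nat_lit 220), (nat_lit 180), (nat_lit 240), (nat_lit 240), (nat_lit 350), (nat_lit 60), (nat_lit 200), (nat_lit 0), (nat_lit 400), (nat_lit 28), (nat_lit 52)⟩, (nat_lit 3), (nat_lit 3), (nat_lit 3), false, false, false⟩,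
  ⟨⟨(nat_lit 360), (nat_lit 380), (nat_lit 220), (nat_lit 240), (nat_lit 180), (nat_lit 240), (nat_lit 240), (nat_lit 350), (nat_lit 60), (nat_lit 200), (nat_lit 0), (nat_lit 400), (nat_lit 28), (nat_lit 52)⟩, (nat_lit 3), (nat_lit 3), (nat_lit 3), false, false, false⟩,
  ⟨⟨(nat_lit 360), (nat_lit 380), (nat_lit 120), (nat_lit 180), (nat_lit 120), (nat_lit 180), (nat_lit 120), (nat_lit 240), (nat_lit 200), (nat_lit 310), (nat_lit 0), (nat_lit 400), (nat_lit 0), (nat_lit 52)⟩, (nat_lit 3), (nat_lit 3), (nat_lit 3), false, false, false⟩,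
  ⟨⟨(nat_lit 360), (nat_lit 380), (nat_lit 180), (nat_lit 240), (nat_lit 120), (nat_lit 180), (nat_lit 120), (nat_lit 240), (nat_lit 200), (nat_lit 310), (nat_lit 0), (nat_lit 400), (nat_lit 0), (nat_lit 52)⟩, (nat_lit 0), (nat_lit 3), (nat_lit 3), false, false, false⟩,
  ⟨⟨(nat_lit 360), (nat_lit 380), (nat_lit 180), (nat_lit 240), (nat_lit 120), (nat_lit 180), (nat_lit 120), (nat_lit 240), (nat_lit 200), (nat_lit 310), (nat_lit 0), (nat_lit 400), (nat_lit 0), (nat_lit 52)⟩, (nat_lit 1), (nat_lit 0), (nat_lit 3), false, false, false⟩,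
  ⟨⟨(nat_lit 360), (nat_lit 380), (nat_lit 180), (nat_lit 240), (nat_lit 120), (nat_lit 180), (nat_lit 120), (nat_lit 240), (nat_lit 200), (nat_lit 310), (nat_lit 0), (nat_lit 400), (nat_lit 0), (nat_lit 52)⟩, (nat_lit 1), (nat_lit 1), (nat_lit 3), false, false, false⟩,
  ⟨⟨(nat_lit 360), (nat_lit 380), (nat_lit 120), (nat_lit 180), (nat_lit 120), (nat_lit 160), (nat_lit 240), (nat_lit 310), (nat_lit 200), (nat_lit 310), (nat_lit 0), (nat_lit 400), (nat_lit 0), (nat_lit 52)⟩, (nat_lit 3), (nat_lit 3), (nat_lit 3), false, false, false⟩,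
  ⟨⟨(nat_lit 360), (nat_lit 380), (nat_lit 120), (nat_lit 180), (nat_lit 160), (nat_lit 180), (nat_lit 240), (nat_lit 310), (nat_lit 200), (nat_lit 310), (nat_lit 0), (nat_lit 400), (nat_lit 0), (nat_lit 52)⟩, (nat_lit 3), (nat_lit 3), (nat_lit 3), false, false, false⟩,
  ⟨⟨(nat_lit 360), (nat_lit 380), (nat_lit 180), (nat_lit 240), (nat_lit 120), (nat_lit 180), (nat_lit 240), (nat_lit 280), (nat_lit 200), (nat_lit 310), (nat_lit 0), (nat_lit 400), (nat_lit 0), (nat_lit 52)⟩, (nat_lit 0), (nat_lit 3), (nat_lit 3), false, false, false⟩,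
  ⟨⟨(nat_lit 360), (nat_lit 380), (nat_lit 180), (nat_lit 240), (nat_lit 120), (nat_lit 160), (nat_lit 280), (nat_lit 320), (nat_lit 200), (nat_lit 290), (nat_lit 10), (nat_lit 400), (nat_lit 0), (nat_lit 52)⟩, (nat_lit 0), (nat_lit 3), (nat_lit 3), false, false, false⟩,
  ⟨⟨(nat_lit 360), (nat_lit 380), (nat_lit 180), (nat_lit 240), (nat_lit 120), (nat_lit 160), (nat_lit 320), (nat_lit 350), (nat_lit 200), (nat_lit 290), (nat_lit 10), (nat_lit 400), (nat_lit 0), (nat_lit 52)⟩, (nat_lit 0), (nat_lit 3), (nat_lit 3), false, false, false⟩]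
theorem t030 (h : EC env Ei) : ∀ τ ∈ l030, Dead τ :=
  List.forall_mem_cons.mpr ⟨chkT_sound0 h (T := c16_0) (by decide +kernel),
  List.forall_mem_cons.mpr ⟨chkT_sound0 h (T := c16_1) (by decide +kernel),
  List.forall_mem_cons.mpr ⟨chkT_sound0 h (T := c16_2) (by decide +kernel),
  List.forall_mem_cons.mpr ⟨chkT_sound0 h (T := c16_3) (by decide +kernel),
  List.forall_mem_cons.mpr ⟨chkT_sound0 h (T := c16_4) (by decide +kernel),
  List.forall_mem_cons.mpr ⟨chkT_sound0 h (T := c16_5) (by decide +kernel),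
  List.forall_mem_cons.mpr ⟨chkT_sound0 h (T := c16_6) (by decide +kernel),
  List.forall_mem_cons.mpr ⟨chkT_sound0 h (T := c16_7) (by decide +kernel),
  List.forall_mem_cons.mpr ⟨chkT_sound0 h (T := c16_8) (by decide +kernel),
  List.forall_mem_cons.mpr ⟨chkT_sound0 h (T := c16_9) (by decide +kernel),
  List.forall_mem_cons.mpr ⟨chkT_sound0 h (T := c16_10) (by decide +kernel),
  List.forall_mem_cons.mpr ⟨chkT_sound0 h (T := c16_11) (by decide +kernel),
  List.forall_mem_cons.mpr ⟨chkT_sound0 h (T := c16_12) (by decide +kernel),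
  List.forall_mem_cons.mpr ⟨chkT_sound0 h (T := c16_13) (by decide +kernel),
  List.forall_mem_cons.mpr ⟨chkT_sound0 h (T := c16_14) (by decide +kernel),
  List.forall_mem_cons.mpr ⟨chkT_sound0 h (T := c16_15) (by decide +kernel),
  List.forall_mem_cons.mpr ⟨chkT_sound0 h (T := c16_16) (by decide +kernel),
  List.forall_mem_cons.mpr ⟨chkT_sound0 h (T := c16_17) (by decide +kernel),
  List.forall_mem_cons.mpr ⟨chkT_sound0 h (T := c16_18) (by decide +kernel),
  List.forall_mem_cons.mpr ⟨chkT_sound0 h (T := c16_19) (by decide +kernel),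
  List.forall_mem_cons.mpr ⟨chkT_sound0 h (T := c16_20) (by decide +kernel),
  List.forall_mem_cons.mpr ⟨chkT_sound0 h (T := c16_21) (by decide +kernel),
  List.forall_mem_cons.mpr ⟨chkT_sound0 h (T := c16_22) (by decide +kernel),
  List.forall_mem_cons.mpr ⟨chkT_sound0 h (T := c16_23) (by decide +kernel),
  List.forall_mem_cons.mpr ⟨chkT_sound0 h (T := c16_24) (by decide +kernel),
  List.forall_mem_cons.mpr ⟨chkT_sound0 h (T := c16_25) (by decide +kernel),
  List.forall_mem_cons.mpr ⟨chkT_sound0 h (T := c16_26) (by decide +kernel),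
  List.forall_mem_cons.mpr ⟨chkT_sound0 h (T := c16_27) (by decide +kernel),
  List.forall_mem_cons.mpr ⟨chkT_sound0 h (T := c16_28) (by decide +kernel),
  List.forall_mem_cons.mpr ⟨chkT_sound0 h (T := c16_29) (by decide +kernel),
  List.forall_mem_cons.mpr ⟨chkT_sound0 h (T := c16_30) (by decide +kernel),
  List.forall_mem_cons.mpr ⟨chkT_sound0 h (T := c16_31) (by decide +kernel),
  List.forall_mem_nil _⟩⟩⟩⟩⟩⟩⟩⟩⟩⟩⟩⟩⟩⟩⟩⟩⟩⟩⟩⟩⟩⟩⟩⟩⟩⟩⟩⟩⟩⟩⟩⟩
end TC
end Pool.Agent.Lib.MP_6947cd_al
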