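import Pool.Agent.Lib.MP_6947cd_al.C.LeafF
import Pool.Agent.Lib.MP_6947cd_al.TC.E
import Pool.Agent.Lib.MP_6947cd_al.TC.F

/-!
Problem MP_6947cd_al (Chollet).  CASE C, tables and certificates.  Trees of leaves (part 31 of root 16).
-/

set_option autoImplicit false
set_option linter.all false
set_option maxRecDepth 100000
set_option maxHeartbeats 4000000
namespace Pool.Agent.Lib.MP_6947cd_al
namespace TC
open C1
noncomputable def c16_32 : Tr Lf :=
 (.spl (nat_lit 5) (nat_lit 120) (.spl (nat_lit 6) (nat_lit 28) (.leaf ⟨(nat_lit 926), (nat_lit 32), (nat_lit 0), (nat_lit 42), (nat_lit 0), (nat_lit 2913), (nat_lit 812), (nat_lit 511), (nat_lit 0), (nat_lit 0), (nat_lit 410200), [((nat_lit 380), [((nat_lit 24), (nat_lit 1), (nat_lit 727)), ((nat_lit 41), (nat_lit 2), (nat_lit 199))])], ⟨(nat_lit 7), false, true, true, (nat_lit 272), (nat_lit 2236), (nat_lit 3163), [(nat_lit 1599750), (nat_lit 1591255), (nat_lit 1666215), (nat_lit 1659578), (nat_lit 1706419),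 (nat_lit 1691033), (nat_lit 1772883), (nat_lit 1759355)]⟩, ⟨(nat_lit 5), false, false, true, (nat_lit 219), (nat_lit 2236), (nat_lit 3163), [(nat_lit 1455689), (nat_lit 1454450), (nat_lit 1477844), (nat_lit 1477224), (nat_lit 1623310), (nat_lit 1611243), (nat_lit 1645465), (nat_lit 1634017)]⟩, (nat_lit 5415899), (nat_lit 36174274), (nat_lit 18107452), (nat_lit 12718274), (nat_lit 5), (nat_lit 0), [⟨(nat_lit 1), (nat_lit 82), (nat_lit 53), (nat_lit 100), (nat_lit 196776356)⟩], [⟨(nat_lit 1), (nat_lit 93), (nat_lit 53), (nat_lit 100), (nat_lit 109438346)⟩], [], [⟨(nat_lit 0), (nat_lit 100), (nat_lit 85), (nat_lit 81), (nat_lit 76066966)⟩],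
 ⟨⟨[(nat_lit 40), (nat_lit 60), (nat_lit 80)], [(nat_lit 0), (nat_lit 832), (nat_lit 1534)], [((nat_lit 0), (nat_lit 0), (nat_lit 0)), ((nat_lit 1000), (nat_lit 659), (nat_lit 528)), ((nat_lit 1000), (nat_lit 650), (nat_lit 549))], ((nat_lit 65), (nat_lit 100), (nat_lit 55))⟩, (nat_lit 1179), (nat_lit 69), (nat_lit 69), (nat_lit 0), (nat_lit 0), [(nat_lit 1390989650), (nat_lit 1136063350), (nat_lit 1030253600)], [(nat_lit 0), (nat_lit 0), (nat_lit 0)], [(nat_lit 25100518118), (nat_lit 26057772608), (nat_lit 27673575984), (nat_lit 28553139794), (nat_lit 27996048930), (nat_lit 28858599890), (nat_lit 30341362582), (nat_lit 31157458602)], (nat_lit 0), (nat_lit 0), (nat_lit 0), (nat_lit 0), (nat_lit 0), (nat_lit 0), [], [(nat_lit 2), (nat_lit 44), (nat_lit 203), (nat_lit 0), (nat_lit 6)]⟩,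
 ⟨⟨[(nat_lit 120), (nat_lit 140), (nat_lit 160)], [(nat_lit 0), (nat_lit 266), (nat_lit 862)], [((nat_lit 0), (nat_lit 0), (nat_lit 0)), ((nat_lit 960), (nat_lit 1000), (nat_lit 200)), ((nat_lit 874), (nat_lit 1000), (nat_lit 406))], ((nat_lit 100), (nat_lit 81), (nat_lit 51))⟩, (nat_lit 699061), (nat_lit 1034), (nat_lit 1034), (nat_lit 0), (nat_lit 1682542), [(nat_lit 589632000), (nat_lit 728308000), (nat_lit 878528000)], [], [(nat_lit 2278443872), (nat_lit 2292584503), (nat_lit 2582628342), (nat_lit 2673247200), (nat_lit 1835674723), (nat_lit 1795692556), (nat_lit 2035657055), (nat_lit 2058960113)], (nat_lit 1271251), (nat_lit 1271251), (nat_lit 1271251), (nat_lit 1271251), (nat_lit 54688), (nat_lit 780000), [(nat_lit 1695001), (nat_lit 1271251), (nat_lit 1271251)], [(nat_lit 27), (nat_lit 62), (nat_lit 428), (nat_lit 200), (nat_lit 11)]⟩,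
 ⟨⟨[(nat_lit 120), (nat_lit 160), (nat_lit 180)], [(nat_lit 0), (nat_lit 0), (nat_lit 1613)], [((nat_lit 0), (nat_lit 0), (nat_lit 0)), ((nat_lit 0), (nat_lit 0), (nat_lit 0)), ((nat_lit 620), (nat_lit 1000), (nat_lit 670))], ((nat_lit 100), (nat_lit 76), (nat_lit 52))⟩, (nat_lit 18279), (nat_lit 300), (nat_lit 1363), (nat_lit 3116400), (nat_lit 2175195), [(nat_lit 334656000), (nat_lit 498624000), (nat_lit 590436000)], [], [(nat_lit 2377732331), (nat_lit 2353645484), (nat_lit 2318128884), (nat_lit 2297139487), (nat_lit 2041674082), (nat_lit 2017924346), (nat_lit 1963779582), (nat_lit 1937578566)], (nat_lit 1100000), (nat_lit 1271251), (nat_lit 1271251), (nat_lit 1271251), (nat_lit 54688), (nat_lit 780000), [(nat_lit 1695001), (nat_lit 1271251), (nat_lit 1271251)], [(nat_lit 28), (nat_lit 65), (nat_lit 417), (nat_lit 175), (nat_lit 10)]⟩⟩) (.leaf ⟨(nat_lit 909), (nat_lit 43), (nat_lit 0), (nat_lit 48), (nat_lit 0), (nat_lit 3309), (nat_lit 1194), (nat_lit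 654), (nat_lit 0), (nat_lit 0), (nat_lit 267300), [((nat_lit 380), [((nat_lit 25), (nat_lit 0), (nat_lit 642)), ((nat_lit 25), (nat_lit 1), (nat_lit 267))])], ⟨(nat_lit 7), false, true, true, (nat_lit 272), (nat_lit 2236), (nat_lit 3163), [(nat_lit 1599750), (nat_lit 1591255), (nat_lit 1666215), (nat_lit 1659578), (nat_lit 1706419), (nat_lit 1691033), (nat_lit 1772883), (nat_lit 1759355)]⟩, ⟨(nat_lit 5), false, false, true, (nat_lit 219), (nat_lit 2236), (nat_lit 3163), [(nat_lit 1455689), (nat_lit 1454450), (nat_lit 1477844), (nat_lit 1477224), (nat_lit 1623310), (nat_lit 1611243), (nat_lit 1645465), (nat_lit 1634017)]⟩, (nat_lit 5415899), (nat_lit 36174274), (nat_lit 18107452), (nat_lit 12718274), (nat_lit 5), (nat_lit 0), [⟨(nat_lit 1), (nat_lit 82), (nat_lit 53), (nat_lit 100), (nat_lit 148679446)⟩], [⟨(nat_lit 1), (nat_lit 93), (nat_lit 53), (nat_lit 100), (nat_lit 64796446)⟩], [], [⟨(nat_lit 0), (nat_lit 100), (nat_lit 85), (nat_lit 81), (nat_lit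 106378515)⟩],
 ⟨⟨[(nat_lit 40), (nat_lit 80), (nat_lit 100)], [(nat_lit 0), (nat_lit 1598), (nat_lit 2533)], [((nat_lit 0), (nat_lit 0), (nat_lit 0)), ((nat_lit 1000), (nat_lit 625), (nat_lit 623)), ((nat_lit 1000), (nat_lit 604), (nat_lit 730))], ((nat_lit 61), (nat_lit 100), (nat_lit 68))⟩, (nat_lit 0), (nat_lit 74), (nat_lit 74), (nat_lit 0), (nat_lit 0), [(nat_lit 1513694813), (nat_lit 1782634413), (nat_lit 2172864400)], [(nat_lit 0), (nat_lit 0), (nat_lit 0)], [(nat_lit 25495904202), (nat_lit 26502648495), (nat_lit 28165373317), (nat_lit 29031215493), (nat_lit 28428191679), (nat_lit 29254463100), (nat_lit 30778299849), (nat_lit 31628627730)], (nat_lit 0), (nat_lit 0), (nat_lit 0), (nat_lit 0), (nat_lit 0), (nat_lit 0), [], [(nat_lit 3), (nat_lit 50), (nat_lit 203), (nat_lit 0), (nat_lit 5)]⟩,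
 ⟨⟨[(nat_lit 120), (nat_lit 160), (nat_lit 180)], [(nat_lit 0), (nat_lit 533), (nat_lit 2066)], [((nat_lit 0), (nat_lit 0), (nat_lit 0)), ((nat_lit 960), (nat_lit 1000), (nat_lit 200)), ((nat_lit 615), (nat_lit 1000), (nat_lit 729))], ((nat_lit 100), (nat_lit 67), (nat_lit 68))⟩, (nat_lit 361485), (nat_lit 691), (nat_lit 691), (nat_lit 0), (nat_lit 794364), [(nat_lit 725088000), (nat_lit 1080352000), (nat_lit 1279278000)], [], [(nat_lit 3499413411), (nat_lit 3508568938), (nat_lit 3896167709), (nat_lit 3910197995), (nat_lit 2672363078), (nat_lit 2663996912), (nat_lit 2993606827), (nat_lit 2943474679)], (nat_lit 1271251), (nat_lit 1271251), (nat_lit 1271251), (nat_lit 1271251), (nat_lit 54688), (nat_lit 780000), [(nat_lit 1695001), (nat_lit 1271251), (nat_lit 1271251)], [(nat_lit 28), (nat_lit 65), (nat_lit 428), (nat_lit 200), (nat_lit 10)]⟩,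
 ⟨⟨[(nat_lit 120), (nat_lit 160), (nat_lit 200)], [(nat_lit 0), (nat_lit 0), (nat_lit 3198)], [((nat_lit 0), (nat_lit 0), (nat_lit 0)), ((nat_lit 0), (nat_lit 0), (nat_lit 0)), ((nat_lit 572), (nat_lit 1000), (nat_lit 714))], ((nat_lit 0), (nat_lit 0), (nat_lit 0))⟩, (nat_lit 23415), (nat_lit 300), (nat_lit 934), (nat_lit 3561600), (nat_lit 1108028), [(nat_lit 382464000), (nat_lit 569856000), (nat_lit 787200000)], [], [(nat_lit 3006786176), (nat_lit 2972835117), (nat_lit 2927675974), (nat_lit 2901412416), (nat_lit 2516444904), (nat_lit 2483595033), (nat_lit 2414653638), (nat_lit 2378077260)], (nat_lit 1100000), (nat_lit 1271251), (nat_lit 1271251), (nat_lit 1271251), (nat_lit 54688), (nat_lit 780000), [(nat_lit 1695001), (nat_lit 1271251), (nat_lit 1271251)], [(nat_lit 29), (nat_lit 66), (nat_lit 401), (nat_lit 175), (nat_lit 9)]⟩⟩)) (.spl (nat_lit 6) (nat_lit 28) (.spl (nat_lit 1) (nat_lit 220) (.trX (nat_lit 3) (nat_lit 0) (nat_lit 1) (nat_lit 60)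 (nat_lit 74) (nat_lit 100) (nat_lit 340) (.leaf ⟨(nat_lit 946), (nat_lit 19), (nat_lit 0), (nat_lit 35), (nat_lit 0), (nat_lit 2902), (nat_lit 611), (nat_lit 404), (nat_lit 0), (nat_lit 0), (nat_lit 406600), [((nat_lit 380), [((nat_lit 24), (nat_lit 1), (nat_lit 805)), ((nat_lit 41), (nat_lit 2), (nat_lit 141))])], ⟨(nat_lit 7), false, true, true, (nat_lit 265), (nat_lit 2236), (nat_lit 3163), [(nat_lit 1599750), (nat_lit 1591255), (nat_lit 1644060), (nat_lit 1636804), (nat_lit 1691180), (nat_lit 1676779), (nat_lit 1735490), (nat_lit 1722327)]⟩, ⟨(nat_lit 5), false, false, true, (nat_lit 219), (nat_lit 2236), (nat_lit 3163), [(nat_lit 1455689), (nat_lit 1454450), (nat_lit 1477844), (nat_lit 1477224), (nat_lit 1623310), (nat_lit 1611243), (nat_lit 1645465), (nat_lit 1634017)]⟩, (nat_lit 5390375), (nat_lit 36670305), (nat_lit 17481512), (nat_lit 12848183), (nat_lit 5), (nat_lit 0), [⟨(nat_lit 1), (nat_lit 85), (nat_lit 53), (nat_lit 100), (nat_lit 284214196)⟩],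 [⟨(nat_lit 1), (nat_lit 93), (nat_lit 53), (nat_lit 100), (nat_lit 192889770)⟩], [], [],
 ⟨⟨[(nat_lit 40), (nat_lit 60), (nat_lit 80)], [(nat_lit 0), (nat_lit 832), (nat_lit 1534)], [((nat_lit 0), (nat_lit 0), (nat_lit 0)), ((nat_lit 1000), (nat_lit 659), (nat_lit 528)), ((nat_lit 1000), (nat_lit 650), (nat_lit 549))], ((nat_lit 65), (nat_lit 100), (nat_lit 55))⟩, (nat_lit 0), (nat_lit 63), (nat_lit 63), (nat_lit 0), (nat_lit 0), [(nat_lit 1387282402), (nat_lit 1117534867), (nat_lit 1013999200)], [(nat_lit 0), (nat_lit 0), (nat_lit 0)], [(nat_lit 25095740291), (nat_lit 26051620065), (nat_lit 27261708433), (nat_lit 28131560355), (nat_lit 27996863477), (nat_lit 28858292646), (nat_lit 29931169807), (nat_lit 30765348821)], (nat_lit 0), (nat_lit 0), (nat_lit 0), (nat_lit 0), (nat_lit 0), (nat_lit 0), [], [(nat_lit 2), (nat_lit 44), (nat_lit 203), (nat_lit 0), (nat_lit 6)]⟩,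
 ⟨⟨[(nat_lit 120), (nat_lit 140), (nat_lit 160)], [(nat_lit 0), (nat_lit 266), (nat_lit 862)], [((nat_lit 0), (nat_lit 0), (nat_lit 0)), ((nat_lit 960), (nat_lit 1000), (nat_lit 200)), ((nat_lit 874), (nat_lit 1000), (nat_lit 406))], ((nat_lit 100), (nat_lit 81), (nat_lit 51))⟩, (nat_lit 523204), (nat_lit 1182), (nat_lit 1182), (nat_lit 0), (nat_lit 2161167), [(nat_lit 430272000), (nat_lit 531468000), (nat_lit 641088000)], [], [(nat_lit 1250020910), (nat_lit 1248397556), (nat_lit 1410799589), (nat_lit 1422202694), (nat_lit 1931096420), (nat_lit 1948002115), (nat_lit 2156229275), (nat_lit 2152233973)], (nat_lit 1271251), (nat_lit 1271251), (nat_lit 1271251), (nat_lit 1271251), (nat_lit 780000), (nat_lit 3072501), [(nat_lit 1695001), (nat_lit 1271251), (nat_lit 1271251)], [(nat_lit 27), (nat_lit 62), (nat_lit 483), (nat_lit 250), (nat_lit 12)]⟩,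
 ⟨⟨[(nat_lit 120), (nat_lit 160), (nat_lit 180)], [(nat_lit 0), (nat_lit 0), (nat_lit 1613)], [((nat_lit 0), (nat_lit 0), (nat_lit 0)), ((nat_lit 0), (nat_lit 0), (nat_lit 0)), ((nat_lit 620), (nat_lit 1000), (nat_lit 670))], ((nat_lit 100), (nat_lit 76), (nat_lit 52))⟩, (nat_lit 15232), (nat_lit 300), (nat_lit 1661), (nat_lit 2597005), (nat_lit 2944805), [(nat_lit 278880000), (nat_lit 415520000), (nat_lit 492030000)], [], [(nat_lit 1802190876), (nat_lit 1780571689), (nat_lit 1725083364), (nat_lit 1704730821), (nat_lit 1648061100), (nat_lit 1757064302), (nat_lit 1578681240), (nat_lit 1560463890)], (nat_lit 1100000), (nat_lit 1271251), (nat_lit 1271251), (nat_lit 1271251), (nat_lit 780000), (nat_lit 3072501), [(nat_lit 1695001), (nat_lit 1271251), (nat_lit 1271251)], [(nat_lit 28), (nat_lit 65), (nat_lit 527), (nat_lit 225), (nat_lit 12)]⟩⟩)) (.leaf ⟨(nat_lit 913), (nat_lit 49), (nat_lit 0), (nat_lit 38), (nat_lit 0), (nat_lit 2845), (nat_lit 761), (nat_lit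 409), (nat_lit 0), (nat_lit 0), (nat_lit 424600), [((nat_lit 380), [((nat_lit 24), (nat_lit 1), (nat_lit 616)), ((nat_lit 41), (nat_lit 2), (nat_lit 297))])], ⟨(nat_lit 7), false, true, true, (nat_lit 281), (nat_lit 2236), (nat_lit 3163), [(nat_lit 1644060), (nat_lit 1636804), (nat_lit 1666215), (nat_lit 1659578), (nat_lit 1750729), (nat_lit 1736581), (nat_lit 1772883), (nat_lit 1759355)]⟩, ⟨(nat_lit 5), false, false, true, (nat_lit 219), (nat_lit 2236), (nat_lit 3163), [(nat_lit 1455689), (nat_lit 1454450), (nat_lit 1477844), (nat_lit 1477224), (nat_lit 1623310), (nat_lit 1611243), (nat_lit 1645465), (nat_lit 1634017)]⟩, (nat_lit 5443056), (nat_lit 35579181), (nat_lit 18860985), (nat_lit 12559834), (nat_lit 5), (nat_lit 0), [⟨(nat_lit 1), (nat_lit 77), (nat_lit 53), (nat_lit 100), (nat_lit 247153985)⟩], [⟨(nat_lit 1), (nat_lit 93), (nat_lit 53), (nat_lit 100), (nat_lit 212505041)⟩], [], [],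
 ⟨⟨[(nat_lit 40), (nat_lit 60), (nat_lit 80)], [(nat_lit 0), (nat_lit 832), (nat_lit 1534)], [((nat_lit 0), (nat_lit 0), (nat_lit 0)), ((nat_lit 1000), (nat_lit 659), (nat_lit 528)), ((nat_lit 1000), (nat_lit 650), (nat_lit 549))], ((nat_lit 65), (nat_lit 100), (nat_lit 55))⟩, (nat_lit 1986), (nat_lit 69), (nat_lit 69), (nat_lit 0), (nat_lit 0), [(nat_lit 1388478804), (nat_lit 1110248743), (nat_lit 980084800)], [(nat_lit 0), (nat_lit 0), (nat_lit 0)], [(nat_lit 25129283808), (nat_lit 26078040049), (nat_lit 27685904823), (nat_lit 28581178688), (nat_lit 28041897689), (nat_lit 28897513937), (nat_lit 30331971519), (nat_lit 31076550772)], (nat_lit 0), (nat_lit 0), (nat_lit 0), (nat_lit 0), (nat_lit 0), (nat_lit 0), [], [(nat_lit 2), (nat_lit 44), (nat_lit 203), (nat_lit 0), (nat_lit 6)]⟩,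
 ⟨⟨[(nat_lit 100), (nat_lit 140), (nat_lit 160)], [(nat_lit 0), (nat_lit 508), (nat_lit 1689)], [((nat_lit 0), (nat_lit 0), (nat_lit 0)), ((nat_lit 1000), (nat_lit 1000), (nat_lit 198)), ((nat_lit 811), (nat_lit 1000), (nat_lit 671))], ((nat_lit 100), (nat_lit 91), (nat_lit 51))⟩, (nat_lit 558441), (nat_lit 873), (nat_lit 873), (nat_lit 0), (nat_lit 1532124), [(nat_lit 543750000), (nat_lit 856254000), (nat_lit 1032864000)], [], [(nat_lit 2548746335), (nat_lit 2535844474), (nat_lit 2601148742), (nat_lit 2587036367), (nat_lit 2903097493), (nat_lit 2922983256), (nat_lit 3250424220), (nat_lit 3254308538)], (nat_lit 1271251), (nat_lit 1271251), (nat_lit 1271251), (nat_lit 1271251), (nat_lit 780000), (nat_lit 3072501), [(nat_lit 1412501), (nat_lit 1271251), (nat_lit 1271251)], [(nat_lit 23), (nat_lit 62), (nat_lit 483), (nat_lit 250), (nat_lit 12)]⟩,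
 ⟨⟨[(nat_lit 120), (nat_lit 160), (nat_lit 180)], [(nat_lit 0), (nat_lit 0), (nat_lit 1613)], [((nat_lit 0), (nat_lit 0), (nat_lit 0)), ((nat_lit 0), (nat_lit 0), (nat_lit 0)), ((nat_lit 620), (nat_lit 1000), (nat_lit 670))], ((nat_lit 100), (nat_lit 76), (nat_lit 52))⟩, (nat_lit 16538), (nat_lit 300), (nat_lit 1765), (nat_lit 2819602), (nat_lit 3164375), [(nat_lit 302784000), (nat_lit 451136000), (nat_lit 534204000)], [], [(nat_lit 2185413105), (nat_lit 2160635567), (nat_lit 2065970837), (nat_lit 2041000131), (nat_lit 1890658788), (nat_lit 1869388648), (nat_lit 1799213737), (nat_lit 1776245833)], (nat_lit 1100000), (nat_lit 1271251), (nat_lit 1271251), (nat_lit 1271251), (nat_lit 780000), (nat_lit 3072501), [(nat_lit 1695001), (nat_lit 1271251), (nat_lit 1271251)], [(nat_lit 28), (nat_lit 65), (nat_lit 553), (nat_lit 225), (nat_lit 12)]⟩⟩)) (.spl (nat_lit 1) (nat_lit 220) (.trX (nat_lit 3) (nat_lit 0) (nat_lit 1) (nat_lit 60) (nat_lit 74) (nat_lit 100)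 (nat_lit 340) (.leaf ⟨(nat_lit 912), (nat_lit 28), (nat_lit 0), (nat_lit 60), (nat_lit 0), (nat_lit 3369), (nat_lit 1222), (nat_lit 751), (nat_lit 0), (nat_lit 0), (nat_lit 258900), [((nat_lit 380), [((nat_lit 25), (nat_lit 0), (nat_lit 706)), ((nat_lit 25), (nat_lit 1), (nat_lit 206))])], ⟨(nat_lit 7), false, true, true, (nat_lit 265), (nat_lit 2236), (nat_lit 3163), [(nat_lit 1599750), (nat_lit 1591255), (nat_lit 1644060), (nat_lit 1636804), (nat_lit 1691180), (nat_lit 1676779), (nat_lit 1735490), (nat_lit 1722327)]⟩, ⟨(nat_lit 5), false, false, true, (nat_lit 219), (nat_lit 2236), (nat_lit 3163), [(nat_lit 1455689), (nat_lit 1454450), (nat_lit 1477844), (nat_lit 1477224), (nat_lit 1623310), (nat_lit 1611243), (nat_lit 1645465), (nat_lit 1634017)]⟩, (nat_lit 5390375), (nat_lit 36670305), (nat_lit 17481512), (nat_lit 12848183), (nat_lit 5), (nat_lit 0), [⟨(nat_lit 1), (nat_lit 85), (nat_lit 53), (nat_lit 100), (nat_lit 309359146)⟩], [⟨(nat_lit 1), (nat_lit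 93), (nat_lit 53), (nat_lit 100), (nat_lit 190099118)⟩], [], [],
 ⟨⟨[(nat_lit 40), (nat_lit 80), (nat_lit 100)], [(nat_lit 0), (nat_lit 1598), (nat_lit 2533)], [((nat_lit 0), (nat_lit 0), (nat_lit 0)), ((nat_lit 1000), (nat_lit 625), (nat_lit 623)), ((nat_lit 1000), (nat_lit 604), (nat_lit 730))], ((nat_lit 61), (nat_lit 100), (nat_lit 68))⟩, (nat_lit 0), (nat_lit 71), (nat_lit 71), (nat_lit 0), (nat_lit 0), [(nat_lit 1521766401), (nat_lit 1820199202), (nat_lit 2233839200)], [(nat_lit 0), (nat_lit 0), (nat_lit 0)], [(nat_lit 25468584749), (nat_lit 26482827497), (nat_lit 27727133773), (nat_lit 28619135758), (nat_lit 28406441906), (nat_lit 29266269894), (nat_lit 30427303427), (nat_lit 31303934404)], (nat_lit 0), (nat_lit 0), (nat_lit 0), (nat_lit 0), (nat_lit 0), (nat_lit 0), [], [(nat_lit 3), (nat_lit 50), (nat_lit 203), (nat_lit 0), (nat_lit 5)]⟩,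
 ⟨⟨[(nat_lit 120), (nat_lit 160), (nat_lit 180)], [(nat_lit 0), (nat_lit 533), (nat_lit 2066)], [((nat_lit 0), (nat_lit 0), (nat_lit 0)), ((nat_lit 960), (nat_lit 1000), (nat_lit 200)), ((nat_lit 615), (nat_lit 1000), (nat_lit 729))], ((nat_lit 100), (nat_lit 67), (nat_lit 68))⟩, (nat_lit 353329), (nat_lit 698), (nat_lit 698), (nat_lit 0), (nat_lit 999254), [(nat_lit 701184000), (nat_lit 1044736000), (nat_lit 1237104000)], [], [(nat_lit 2471627485), (nat_lit 2468013070), (nat_lit 2742039376), (nat_lit 2709082589), (nat_lit 3398083099), (nat_lit 3412935409), (nat_lit 3813965020), (nat_lit 3788037595)], (nat_lit 1271251), (nat_lit 1271251), (nat_lit 1271251), (nat_lit 1271251), (nat_lit 780000), (nat_lit 3072501), [(nat_lit 1695001), (nat_lit 1271251), (nat_lit 1271251)], [(nat_lit 28), (nat_lit 65), (nat_lit 483), (nat_lit 250), (nat_lit 11)]⟩,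
 ⟨⟨[(nat_lit 120), (nat_lit 160), (nat_lit 200)], [(nat_lit 0), (nat_lit 0), (nat_lit 3198)], [((nat_lit 0), (nat_lit 0), (nat_lit 0)), ((nat_lit 0), (nat_lit 0), (nat_lit 0)), ((nat_lit 572), (nat_lit 1000), (nat_lit 714))], ((nat_lit 0), (nat_lit 0), (nat_lit 0))⟩, (nat_lit 29268), (nat_lit 300), (nat_lit 1001), (nat_lit 4452005), (nat_lit 1398750), [(nat_lit 478080000), (nat_lit 712320000), (nat_lit 984000000)], [], [(nat_lit 3292645812), (nat_lit 3256402376), (nat_lit 3184620654), (nat_lit 3144067871), (nat_lit 3019242690), (nat_lit 3087602021), (nat_lit 2911515485), (nat_lit 2869316082)], (nat_lit 1100000), (nat_lit 1271251), (nat_lit 1271251), (nat_lit 1271251), (nat_lit 780000), (nat_lit 3072501), [(nat_lit 1695001), (nat_lit 1271251), (nat_lit 1271251)], [(nat_lit 29), (nat_lit 66), (nat_lit 456), (nat_lit 225), (nat_lit 9)]⟩⟩)) (.leaf ⟨(nat_lit 721), (nat_lit 175), (nat_lit 0), (nat_lit 104), (nat_lit 0), (nat_lit 3193), (nat_lit 2618), (nat_lit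 1186), (nat_lit 0), (nat_lit 0), (nat_lit 368800), [((nat_lit 380), [((nat_lit 25), (nat_lit 1), (nat_lit 319)), ((nat_lit 41), (nat_lit 2), (nat_lit 402))])], ⟨(nat_lit 7), false, true, true, (nat_lit 281), (nat_lit 2236), (nat_lit 3163), [(nat_lit 1644060), (nat_lit 1636804), (nat_lit 1666215), (nat_lit 1659578), (nat_lit 1750729), (nat_lit 1736581), (nat_lit 1772883), (nat_lit 1759355)]⟩, ⟨(nat_lit 5), false, false, true, (nat_lit 219), (nat_lit 2236), (nat_lit 3163), [(nat_lit 1455689), (nat_lit 1454450), (nat_lit 1477844), (nat_lit 1477224), (nat_lit 1623310), (nat_lit 1611243), (nat_lit 1645465), (nat_lit 1634017)]⟩, (nat_lit 5443056), (nat_lit 35579181), (nat_lit 18860985), (nat_lit 12559834), (nat_lit 5), (nat_lit 0), [⟨(nat_lit 1), (nat_lit 77), (nat_lit 53), (nat_lit 100), (nat_lit 190634845)⟩], [⟨(nat_lit 1), (nat_lit 93), (nat_lit 53), (nat_lit 100), (nat_lit 206738284)⟩], [], [],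
 ⟨⟨[(nat_lit 40), (nat_lit 80), (nat_lit 100)], [(nat_lit 0), (nat_lit 1598), (nat_lit 2533)], [((nat_lit 0), (nat_lit 0), (nat_lit 0)), ((nat_lit 1000), (nat_lit 625), (nat_lit 623)), ((nat_lit 1000), (nat_lit 604), (nat_lit 730))], ((nat_lit 61), (nat_lit 100), (nat_lit 68))⟩, (nat_lit 0), (nat_lit 74), (nat_lit 74), (nat_lit 0), (nat_lit 0), [(nat_lit 1463021713), (nat_lit 1590924873), (nat_lit 1748510000)], [(nat_lit 0), (nat_lit 0), (nat_lit 0)], [(nat_lit 25394569500), (nat_lit 26386816780), (nat_lit 28035796936), (nat_lit 28890644878), (nat_lit 28316088929), (nat_lit 29132270656), (nat_lit 30650308124), (nat_lit 31490608491)], (nat_lit 0), (nat_lit 0), (nat_lit 0), (nat_lit 0), (nat_lit 0), (nat_lit 0), [], [(nat_lit 3), (nat_lit 50), (nat_lit 203), (nat_lit 0), (nat_lit 5)]⟩,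
 ⟨⟨[(nat_lit 100), (nat_lit 140), (nat_lit 160)], [(nat_lit 0), (nat_lit 508), (nat_lit 1689)], [((nat_lit 0), (nat_lit 0), (nat_lit 0)), ((nat_lit 1000), (nat_lit 1000), (nat_lit 198)), ((nat_lit 811), (nat_lit 1000), (nat_lit 671))], ((nat_lit 100), (nat_lit 81), (nat_lit 68))⟩, (nat_lit 760198), (nat_lit 500), (nat_lit 500), (nat_lit 0), (nat_lit 730627), [(nat_lit 1743750000), (nat_lit 2745918000), (nat_lit 3312288000)], [], [(nat_lit 8957772282), (nat_lit 8972516587), (nat_lit 9567537837), (nat_lit 9550205600), (nat_lit 9663449817), (nat_lit 9645241170), (nat_lit 10652160890), (nat_lit 10656512238)], (nat_lit 1271251), (nat_lit 1271251), (nat_lit 1271251), (nat_lit 1271251), (nat_lit 780000), (nat_lit 3072501), [(nat_lit 1412501), (nat_lit 1271251), (nat_lit 1271251)], [(nat_lit 23), (nat_lit 62), (nat_lit 483), (nat_lit 250), (nat_lit 12)]⟩,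
 ⟨⟨[(nat_lit 120), (nat_lit 160), (nat_lit 200)], [(nat_lit 0), (nat_lit 0), (nat_lit 3198)], [((nat_lit 0), (nat_lit 0), (nat_lit 0)), ((nat_lit 0), (nat_lit 0), (nat_lit 0)), ((nat_lit 572), (nat_lit 1000), (nat_lit 714))], ((nat_lit 0), (nat_lit 0), (nat_lit 0))⟩, (nat_lit 50732), (nat_lit 300), (nat_lit 1078), (nat_lit 7716800), (nat_lit 1586411), [(nat_lit 828672000), (nat_lit 1234688000), (nat_lit 1705600000)], [], [(nat_lit 6153773772), (nat_lit 6085537376), (nat_lit 5889249354), (nat_lit 5817385031), (nat_lit 5506646752), (nat_lit 5436366175), (nat_lit 5238378355), (nat_lit 5164415738)], (nat_lit 1100000), (nat_lit 1271251), (nat_lit 1271251), (nat_lit 1271251), (nat_lit 780000), (nat_lit 3072501), [(nat_lit 1695001), (nat_lit 1271251), (nat_lit 1271251)], [(nat_lit 29), (nat_lit 66), (nat_lit 456), (nat_lit 225), (nat_lit 9)]⟩⟩))))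
noncomputable def c16_33 : Tr Lf :=
 (.spl (nat_lit 5) (nat_lit 120) (.spl (nat_lit 0) (nat_lit 370) (.leaf ⟨(nat_lit 755), (nat_lit 175), (nat_lit 0), (nat_lit 70), (nat_lit 0), (nat_lit 3518), (nat_lit 3202), (nat_lit 1208), (nat_lit 0), (nat_lit 0), (nat_lit 414500), [((nat_lit 370), [((nat_lit 25), (nat_lit 0), (nat_lit 110)), ((nat_lit 41), (nat_lit 2), (nat_lit 645))])], ⟨(nat_lit 6), false, true, true, (nat_lit 261), (nat_lit 2738), (nat_lit 3163), [(nat_lit 1538797), (nat_lit 1536642), (nat_lit 1605257), (nat_lit 1603890), (nat_lit 1706419), (nat_lit 1699061), (nat_lit 1772883), (nat_lit 1766313)]⟩, ⟨(nat_lit 5), false, false, true, (nat_lit 211), (nat_lit 2738), (nat_lit 3163), [(nat_lit 1411379), (nat_lit 1410329), (nat_lit 1477844), (nat_lit 1477581), (nat_lit 1579001), (nat_lit 1572748), (nat_lit 1645465), (nat_lit 1640000)]⟩, (nat_lit 5328151), (nat_lit 37379854), (nat_lit 17362293), (nat_lit 12257853), (nat_lit 5), (nat_lit 0), [], [],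 [], [⟨(nat_lit 0), (nat_lit 100), (nat_lit 92), (nat_lit 73), (nat_lit 182149142)⟩],
 ⟨⟨[(nat_lit 40), (nat_lit 80), (nat_lit 100)], [(nat_lit 0), (nat_lit 1598), (nat_lit 2533)], [((nat_lit 0), (nat_lit 0), (nat_lit 0)), ((nat_lit 1000), (nat_lit 625), (nat_lit 623)), ((nat_lit 1000), (nat_lit 604), (nat_lit 730))], ((nat_lit 61), (nat_lit 100), (nat_lit 68))⟩, (nat_lit 161577), (nat_lit 245), (nat_lit 245), (nat_lit 0), (nat_lit 525773), [(nat_lit 1443478002), (nat_lit 1303220034), (nat_lit 1311762966)], [(nat_lit 0), (nat_lit 0), (nat_lit 0)], [(nat_lit 24317250369), (nat_lit 24742141910), (nat_lit 28213061628), (nat_lit 28747686076), (nat_lit 27130790893), (nat_lit 27610960616), (nat_lit 31008905629), (nat_lit 31443102978)], (nat_lit 1271251), (nat_lit 1271251), (nat_lit 1271251), (nat_lit 1271251), (nat_lit 1271251), (nat_lit 1271251), [(nat_lit 490000), (nat_lit 1100000), (nat_lit 1442501)], [(nat_lit 3), (nat_lit 50), (nat_lit 203), (nat_lit 0),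 (nat_lit 6)]⟩,
 ⟨⟨[(nat_lit 120), (nat_lit 160), (nat_lit 180)], [(nat_lit 0), (nat_lit 533), (nat_lit 2066)], [((nat_lit 0), (nat_lit 0), (nat_lit 0)), ((nat_lit 960), (nat_lit 1000), (nat_lit 200)), ((nat_lit 615), (nat_lit 1000), (nat_lit 729))], ((nat_lit 100), (nat_lit 67), (nat_lit 68))⟩, (nat_lit 1339676), (nat_lit 592), (nat_lit 592), (nat_lit 0), (nat_lit 526298), [(nat_lit 1952160000), (nat_lit 2908640000), (nat_lit 3444210000)], [], [(nat_lit 8829223320), (nat_lit 8937114988), (nat_lit 10453942758), (nat_lit 10632990129), (nat_lit 6496501391), (nat_lit 6463802208), (nat_lit 7685877748), (nat_lit 7732524166)], (nat_lit 1271251), (nat_lit 1271251), (nat_lit 1271251), (nat_lit 1271251), (nat_lit 0), (nat_lit 780000), [(nat_lit 1695001), (nat_lit 1271251), (nat_lit 1271251)], [(nat_lit 28), (nat_lit 65), (nat_lit 428), (nat_lit 200), (nat_lit 10)]⟩,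
 ⟨⟨[(nat_lit 140), (nat_lit 180), (nat_lit 200)], [(nat_lit 0), (nat_lit 0), (nat_lit 2835)], [((nat_lit 0), (nat_lit 0), (nat_lit 0)), ((nat_lit 0), (nat_lit 0), (nat_lit 0)), ((nat_lit 363), (nat_lit 1000), (nat_lit 798))], ((nat_lit 0), (nat_lit 0), (nat_lit 0))⟩, (nat_lit 19259), (nat_lit 300), (nat_lit 895), (nat_lit 5467004), (nat_lit 920690), [(nat_lit 688940000), (nat_lit 984060000), (nat_lit 1148000000)], [], [(nat_lit 4678825556), (nat_lit 4445447011), (nat_lit 4687119360), (nat_lit 4422118331), (nat_lit 3558992760), (nat_lit 3546058154), (nat_lit 3557304319), (nat_lit 3311259750)], (nat_lit 780000), (nat_lit 1271251), (nat_lit 1271251), (nat_lit 1271251), (nat_lit 0), (nat_lit 780000), [(nat_lit 1977501), (nat_lit 1271251), (nat_lit 1271251)], [(nat_lit 32), (nat_lit 67), (nat_lit 401), (nat_lit 175), (nat_lit 9)]⟩⟩) (.trX (nat_lit 3) (nat_lit 0) (nat_lit 1) (nat_lit 54) (nat_lit 74) (nat_lit 100) (nat_lit 340) (.trX (nat_lit 4) (nat_lit 0)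 (nat_lit 2) (nat_lit 53) (nat_lit 90) (nat_lit 100) (nat_lit 290) (.leaf ⟨(nat_lit 739), (nat_lit 202), (nat_lit 0), (nat_lit 59), (nat_lit 0), (nat_lit 3614), (nat_lit 3031), (nat_lit 1071), (nat_lit 0), (nat_lit 0), (nat_lit 377600), [((nat_lit 380), [((nat_lit 25), (nat_lit 1), (nat_lit 329)), ((nat_lit 41), (nat_lit 2), (nat_lit 410))])], ⟨(nat_lit 6), false, true, true, (nat_lit 257), (nat_lit 2236), (nat_lit 2739), [(nat_lit 1536642), (nat_lit 1534240), (nat_lit 1603890), (nat_lit 1602558), (nat_lit 1684296), (nat_lit 1676779), (nat_lit 1751548), (nat_lit 1745101)]⟩, ⟨(nat_lit 5), false, false, true, (nat_lit 204), (nat_lit 2236), (nat_lit 2739), [(nat_lit 1410329), (nat_lit 1408901), (nat_lit 1477581), (nat_lit 1477224), (nat_lit 1543217), (nat_lit 1537186), (nat_lit 1610469), (nat_lit 1605509)]⟩, (nat_lit 5263043), (nat_lit 38131085), (nat_lit 17102070), (nat_lit 11766845), (nat_lit 5), (nat_lit 0), [], [⟨(nat_lit 1), (nat_lit 100), (nat_lit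 50), (nat_lit 100), (nat_lit 55398008)⟩], [], [⟨(nat_lit 0), (nat_lit 100), (nat_lit 92), (nat_lit 66), (nat_lit 164286591)⟩],
 ⟨⟨[(nat_lit 40), (nat_lit 60), (nat_lit 80)], [(nat_lit 0), (nat_lit 1134), (nat_lit 1930)], [((nat_lit 0), (nat_lit 0), (nat_lit 0)), ((nat_lit 1000), (nat_lit 575), (nat_lit 619)), ((nat_lit 1000), (nat_lit 574), (nat_lit 622))], ((nat_lit 55), (nat_lit 100), (nat_lit 70))⟩, (nat_lit 21257), (nat_lit 234), (nat_lit 234), (nat_lit 0), (nat_lit 573173), [(nat_lit 1454791602), (nat_lit 1381925518), (nat_lit 1515654400)], [(nat_lit 0), (nat_lit 0), (nat_lit 0)], [(nat_lit 24930781018), (nat_lit 25383322573), (nat_lit 28345460476), (nat_lit 28900597893), (nat_lit 27081698852), (nat_lit 27510012321), (nat_lit 30538030157), (nat_lit 31007363724)], (nat_lit 1271251), (nat_lit 1271251), (nat_lit 1271251), (nat_lit 1271251), (nat_lit 1271251), (nat_lit 1271251), [(nat_lit 490000), (nat_lit 780000), (nat_lit 1100000)], [(nat_lit 2),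 (nat_lit 44), (nat_lit 203), (nat_lit 0), (nat_lit 7)]⟩,
 ⟨⟨[(nat_lit 120), (nat_lit 160), (nat_lit 180)], [(nat_lit 0), (nat_lit 533), (nat_lit 2066)], [((nat_lit 0), (nat_lit 0), (nat_lit 0)), ((nat_lit 960), (nat_lit 1000), (nat_lit 200)), ((nat_lit 615), (nat_lit 1000), (nat_lit 729))], ((nat_lit 100), (nat_lit 67), (nat_lit 68))⟩, (nat_lit 1791272), (nat_lit 631), (nat_lit 631), (nat_lit 0), (nat_lit 615684), [(nat_lit 2079648000), (nat_lit 3098592000), (nat_lit 3669138000)], [], [(nat_lit 9498440827), (nat_lit 9398059296), (nat_lit 10568713063), (nat_lit 10556512598), (nat_lit 7338191290), (nat_lit 7195637104), (nat_lit 8148500616), (nat_lit 8076403241)], (nat_lit 1271251), (nat_lit 1271251), (nat_lit 1271251), (nat_lit 1271251), (nat_lit 0), (nat_lit 780000), [(nat_lit 1695001), (nat_lit 1271251), (nat_lit 1271251)], [(nat_lit 28), (nat_lit 65), (nat_lit 401), (nat_lit 175), (nat_lit 9)]⟩,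
 ⟨⟨[(nat_lit 140), (nat_lit 180), (nat_lit 200)], [(nat_lit 0), (nat_lit 0), (nat_lit 2835)], [((nat_lit 0), (nat_lit 0), (nat_lit 0)), ((nat_lit 0), (nat_lit 0), (nat_lit 0)), ((nat_lit 363), (nat_lit 1000), (nat_lit 798))], ((nat_lit 0), (nat_lit 0), (nat_lit 0))⟩, (nat_lit 16233), (nat_lit 300), (nat_lit 945), (nat_lit 4607900), (nat_lit 1041989), [(nat_lit 580678000), (nat_lit 829422000), (nat_lit 967600000)], [], [(nat_lit 3964468186), (nat_lit 3754158735), (nat_lit 3945296192), (nat_lit 3713290631), (nat_lit 2966471346), (nat_lit 3000403994), (nat_lit 2942360001), (nat_lit 2726965530)], (nat_lit 780000), (nat_lit 1271251), (nat_lit 1271251), (nat_lit 1271251), (nat_lit 0), (nat_lit 780000), [(nat_lit 1977501), (nat_lit 1271251), (nat_lit 1271251)], [(nat_lit 32), (nat_lit 67), (nat_lit 373), (nat_lit 150), (nat_lit 8)]⟩⟩)))) (.stt (nat_lit 3) (.leaf ⟨(nat_lit 0), (nat_lit 0), (nat_lit 0), (nat_lit 1000), (nat_lit 0), (nat_lit 4454), (nat_lit 10245),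 (nat_lit 24213), (nat_lit 0), (nat_lit 0), (nat_lit 0), [], Pd.none, Pd.none, (nat_lit 0), (nat_lit 1), (nat_lit 0), (nat_lit 0), (nat_lit 0), (nat_lit 0), [], [⟨(nat_lit 1), (nat_lit 99), (nat_lit 54), (nat_lit 100), (nat_lit 326565372)⟩], [], [],
 ⟨⟨[(nat_lit 40), (nat_lit 80), (nat_lit 100)], [(nat_lit 0), (nat_lit 1598), (nat_lit 2533)], [((nat_lit 0), (nat_lit 0), (nat_lit 0)), ((nat_lit 1000), (nat_lit 625), (nat_lit 623)), ((nat_lit 1000), (nat_lit 604), (nat_lit 730))], ((nat_lit 61), (nat_lit 100), (nat_lit 68))⟩, (nat_lit 1992308), (nat_lit 263), (nat_lit 263), (nat_lit 0), (nat_lit 577367), [(nat_lit 2032000307), (nat_lit 4755896214), (nat_lit 6250000000)], [], [(nat_lit 24394893574), (nat_lit 25364883736), (nat_lit 29222557284), (nat_lit 30410415983), (nat_lit 27826998642), (nat_lit 29057166628), (nat_lit 32041666443), (nat_lit 32990972811)], (nat_lit 1271251), (nat_lit 1271251), (nat_lit 1271251), (nat_lit 1271251), (nat_lit 1271251), (nat_lit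 1271251), [(nat_lit 490000), (nat_lit 1100000), (nat_lit 1442501)], [(nat_lit 3), (nat_lit 50), (nat_lit 203), (nat_lit 0), (nat_lit 6)]⟩,
 ⟨⟨[(nat_lit 120), (nat_lit 160), (nat_lit 180)], [(nat_lit 0), (nat_lit 533), (nat_lit 2066)], [((nat_lit 0), (nat_lit 0), (nat_lit 0)), ((nat_lit 960), (nat_lit 1000), (nat_lit 200)), ((nat_lit 615), (nat_lit 1000), (nat_lit 729))], ((nat_lit 100), (nat_lit 67), (nat_lit 68))⟩, (nat_lit 9661345), (nat_lit 752), (nat_lit 752), (nat_lit 0), (nat_lit 1066611), [(nat_lit 7968000000), (nat_lit 11872000000), (nat_lit 14058000000)], [], [(nat_lit 27531452910), (nat_lit 27357619070), (nat_lit 30662090002), (nat_lit 30488942987), (nat_lit 38735232130), (nat_lit 33181190680), (nat_lit 39335390165), (nat_lit 39264197823)], (nat_lit 1271251), (nat_lit 1271251), (nat_lit 1271251), (nat_lit 1271251), (nat_lit 780000), (nat_lit 3072501), [(nat_lit 1695001), (nat_lit 1271251), (nat_lit 1271251)], [(nat_lit 28), (nat_lit 65), (nat_lit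 483), (nat_lit 250), (nat_lit 11)]⟩,
 ⟨⟨[(nat_lit 140), (nat_lit 180), (nat_lit 200)], [(nat_lit 0), (nat_lit 0), (nat_lit 2835)], [((nat_lit 0), (nat_lit 0), (nat_lit 0)), ((nat_lit 0), (nat_lit 0), (nat_lit 0)), ((nat_lit 363), (nat_lit 1000), (nat_lit 798))], ((nat_lit 0), (nat_lit 0), (nat_lit 0))⟩, (nat_lit 5249385), (nat_lit 248), (nat_lit 248), (nat_lit 0), (nat_lit 0), [(nat_lit 9842000000), (nat_lit 14058000000), (nat_lit 16400000000)], [], [(nat_lit 25387653108), (nat_lit 24567929240), (nat_lit 36583746990), (nat_lit 34050683963), (nat_lit 48248783210), (nat_lit 45619732401), (nat_lit 57010869891), (nat_lit 52981493649)], (nat_lit 0), (nat_lit 0), (nat_lit 0), (nat_lit 0), (nat_lit 0), (nat_lit 0), [], [(nat_lit 32), (nat_lit 67), (nat_lit 456), (nat_lit 225), (nat_lit 10)]⟩⟩) (.spl (nat_lit 6) (nat_lit 28) (.leaf ⟨(nat_lit 723), (nat_lit 214), (nat_lit 0), (nat_lit 63), (nat_lit 0), (nat_lit 3273), (nat_lit 2401), (nat_lit 701), (nat_lit 0),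 (nat_lit 0), (nat_lit 393550), [((nat_lit 380), [((nat_lit 24), (nat_lit 0), (nat_lit 115)), ((nat_lit 41), (nat_lit 2), (nat_lit 608))])], ⟨(nat_lit 6), false, true, true, (nat_lit 261), (nat_lit 2236), (nat_lit 3163), [(nat_lit 1538797), (nat_lit 1534240), (nat_lit 1605240), (nat_lit 1602541), (nat_lit 1706419), (nat_lit 1691033), (nat_lit 1772883), (nat_lit 1759355)]⟩, ⟨(nat_lit 5), false, false, true, (nat_lit 210), (nat_lit 2236), (nat_lit 3163), [(nat_lit 1411379), (nat_lit 1408901), (nat_lit 1477844), (nat_lit 1477224), (nat_lit 1579000), (nat_lit 1565693), (nat_lit 1645465), (nat_lit 1634017)]⟩, (nat_lit 5319892), (nat_lit 37487744), (nat_lit 17297375), (nat_lit 12214881), (nat_lit 5), (nat_lit 0), [⟨(nat_lit 1), (nat_lit 82), (nat_lit 53), (nat_lit 100), (nat_lit 111373195)⟩], [⟨(nat_lit 1), (nat_lit 99), (nat_lit 54), (nat_lit 100), (nat_lit 269524710)⟩], [⟨(nat_lit 1), (nat_lit 30), (nat_lit 100), (nat_lit 97), (nat_lit 16997404)⟩], [],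
 ⟨⟨[(nat_lit 40), (nat_lit 60), (nat_lit 80)], [(nat_lit 0), (nat_lit 832), (nat_lit 1534)], [((nat_lit 0), (nat_lit 0), (nat_lit 0)), ((nat_lit 1000), (nat_lit 659), (nat_lit 528)), ((nat_lit 1000), (nat_lit 650), (nat_lit 549))], ((nat_lit 65), (nat_lit 100), (nat_lit 55))⟩, (nat_lit 215830), (nat_lit 200), (nat_lit 200), (nat_lit 0), (nat_lit 463565), [(nat_lit 1460867202), (nat_lit 1388073836), (nat_lit 1462617600)], [(nat_lit 0), (nat_lit 0), (nat_lit 0)], [(nat_lit 24487025635), (nat_lit 25446602979), (nat_lit 28150311186), (nat_lit 28987026509), (nat_lit 27406089467), (nat_lit 28199070816), (nat_lit 30738578279), (nat_lit 31585794173)], (nat_lit 1271251), (nat_lit 1271251), (nat_lit 1271251), (nat_lit 1271251), (nat_lit 1271251), (nat_lit 1271251), [(nat_lit 490000), (nat_lit 780000), (nat_lit 1100000)], [(nat_lit 2), (nat_lit 44), (nat_lit 203), (nat_lit 0), (nat_lit 7)]⟩,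
 ⟨⟨[(nat_lit 120), (nat_lit 140), (nat_lit 160)], [(nat_lit 0), (nat_lit 266), (nat_lit 862)], [((nat_lit 0), (nat_lit 0), (nat_lit 0)), ((nat_lit 960), (nat_lit 1000), (nat_lit 200)), ((nat_lit 874), (nat_lit 1000), (nat_lit 406))], ((nat_lit 100), (nat_lit 81), (nat_lit 51))⟩, (nat_lit 1343299), (nat_lit 433), (nat_lit 433), (nat_lit 0), (nat_lit 591921), [(nat_lit 2207136000), (nat_lit 2726234000), (nat_lit 3288544000)], [], [(nat_lit 8909002676), (nat_lit 9014165418), (nat_lit 9852995648), (nat_lit 9821454681), (nat_lit 10582665586), (nat_lit 9907346056), (nat_lit 10493757471), (nat_lit 10335536899)], (nat_lit 1271251), (nat_lit 1271251), (nat_lit 1271251), (nat_lit 1271251), (nat_lit 780000), (nat_lit 3072501), [(nat_lit 1695001), (nat_lit 1271251), (nat_lit 1271251)], [(nat_lit 27), (nat_lit 62), (nat_lit 483), (nat_lit 250), (nat_lit 12)]⟩,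
 ⟨⟨[(nat_lit 140), (nat_lit 180), (nat_lit 200)], [(nat_lit 0), (nat_lit 0), (nat_lit 2835)], [((nat_lit 0), (nat_lit 0), (nat_lit 0)), ((nat_lit 0), (nat_lit 0), (nat_lit 0)), ((nat_lit 363), (nat_lit 1000), (nat_lit 798))], ((nat_lit 0), (nat_lit 0), (nat_lit 0))⟩, (nat_lit 17333), (nat_lit 300), (nat_lit 1801), (nat_lit 4920305), (nat_lit 3065628), [(nat_lit 620046000), (nat_lit 885654000), (nat_lit 1033200000)], [], [(nat_lit 4268594061), (nat_lit 4120241989), (nat_lit 4044552715), (nat_lit 3896675986), (nat_lit 3700128254), (nat_lit 3553038027), (nat_lit 3505310025), (nat_lit 3340384427)], (nat_lit 780000), (nat_lit 1271251), (nat_lit 1271251), (nat_lit 1271251), (nat_lit 780000), (nat_lit 3072501), [(nat_lit 1977501), (nat_lit 1271251), (nat_lit 1271251)], [(nat_lit 32), (nat_lit 67), (nat_lit 562), (nat_lit 225), (nat_lit 12)]⟩⟩) (.leaf ⟨(nat_lit 723), (nat_lit 198), (nat_lit 0), (nat_lit 79), (nat_lit 0), (nat_lit 3257), (nat_lit 2929), (nat_lit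 879), (nat_lit 0), (nat_lit 0), (nat_lit 433800), [((nat_lit 380), [((nat_lit 41), (nat_lit 2), (nat_lit 723))])], ⟨(nat_lit 6), false, true, true, (nat_lit 261), (nat_lit 2236), (nat_lit 3163), [(nat_lit 1538797), (nat_lit 1534240), (nat_lit 1605240), (nat_lit 1602541), (nat_lit 1706419), (nat_lit 1691033), (nat_lit 1772883), (nat_lit 1759355)]⟩, ⟨(nat_lit 5), false, false, true, (nat_lit 210), (nat_lit 2236), (nat_lit 3163), [(nat_lit 1411379), (nat_lit 1408901), (nat_lit 1477844), (nat_lit 1477224), (nat_lit 1579000), (nat_lit 1565693), (nat_lit 1645465), (nat_lit 1634017)]⟩, (nat_lit 5319892), (nat_lit 37487744), (nat_lit 17297375), (nat_lit 12214881), (nat_lit 5), (nat_lit 0), [⟨(nat_lit 1), (nat_lit 82), (nat_lit 53), (nat_lit 100), (nat_lit 105156874)⟩], [⟨(nat_lit 1), (nat_lit 99), (nat_lit 54), (nat_lit 100), (nat_lit 229380160)⟩], [⟨(nat_lit 1), (nat_lit 30), (nat_lit 100), (nat_lit 97), (nat_lit 1587504)⟩], [],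
 ⟨⟨[(nat_lit 40), (nat_lit 80), (nat_lit 100)], [(nat_lit 0), (nat_lit 1598), (nat_lit 2533)], [((nat_lit 0), (nat_lit 0), (nat_lit 0)), ((nat_lit 1000), (nat_lit 625), (nat_lit 623)), ((nat_lit 1000), (nat_lit 604), (nat_lit 730))], ((nat_lit 61), (nat_lit 100), (nat_lit 68))⟩, (nat_lit 67008), (nat_lit 161), (nat_lit 161), (nat_lit 0), (nat_lit 271514), [(nat_lit 1464179237), (nat_lit 1274469888), (nat_lit 1214738800)], [(nat_lit 0), (nat_lit 0), (nat_lit 0)], [(nat_lit 24789750316), (nat_lit 25665227031), (nat_lit 28193670097), (nat_lit 28967742655), (nat_lit 27432096242), (nat_lit 28224392027), (nat_lit 30720924248), (nat_lit 31566757037)], (nat_lit 1271251), (nat_lit 1271251), (nat_lit 1271251), (nat_lit 1271251), (nat_lit 1271251), (nat_lit 1271251), [(nat_lit 490000), (nat_lit 1100000), (nat_lit 1442501)], [(nat_lit 3), (nat_lit 50), (nat_lit 203), (nat_lit 0), (nat_lit 6)]⟩,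
 ⟨⟨[(nat_lit 120), (nat_lit 160), (nat_lit 180)], [(nat_lit 0), (nat_lit 533), (nat_lit 2066)], [((nat_lit 0), (nat_lit 0), (nat_lit 0)), ((nat_lit 960), (nat_lit 1000), (nat_lit 200)), ((nat_lit 615), (nat_lit 1000), (nat_lit 729))], ((nat_lit 100), (nat_lit 67), (nat_lit 68))⟩, (nat_lit 634569), (nat_lit 390), (nat_lit 390), (nat_lit 0), (nat_lit 360036), [(nat_lit 2207136000), (nat_lit 3288544000), (nat_lit 3894066000)], [], [(nat_lit 9595101725), (nat_lit 9640593281), (nat_lit 10710256705), (nat_lit 10579640068), (nat_lit 10760323858), (nat_lit 10438022234), (nat_lit 11264266427), (nat_lit 10989685891)], (nat_lit 1271251), (nat_lit 1271251), (nat_lit 1271251), (nat_lit 1271251), (nat_lit 780000), (nat_lit 3072501), [(nat_lit 1695001), (nat_lit 1271251), (nat_lit 1271251)], [(nat_lit 28), (nat_lit 65), (nat_lit 483), (nat_lit 250), (nat_lit 11)]⟩,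
 ⟨⟨[(nat_lit 140), (nat_lit 180), (nat_lit 200)], [(nat_lit 0), (nat_lit 0), (nat_lit 2835)], [((nat_lit 0), (nat_lit 0), (nat_lit 0)), ((nat_lit 0), (nat_lit 0), (nat_lit 0)), ((nat_lit 363), (nat_lit 1000), (nat_lit 798))], ((nat_lit 0), (nat_lit 0), (nat_lit 0))⟩, (nat_lit 21735), (nat_lit 300), (nat_lit 1219), (nat_lit 6169907), (nat_lit 1830504), [(nat_lit 777518000), (nat_lit 1110582000), (nat_lit 1295600000)], [], [(nat_lit 5283252808), (nat_lit 5085931127), (nat_lit 5021926564), (nat_lit 4823203092), (nat_lit 4636279364), (nat_lit 4432597123), (nat_lit 4395706156), (nat_lit 4188904063)], (nat_lit 780000), (nat_lit 1271251), (nat_lit 1271251), (nat_lit 1271251), (nat_lit 780000), (nat_lit 3072501), [(nat_lit 1977501), (nat_lit 1271251), (nat_lit 1271251)], [(nat_lit 32), (nat_lit 67), (nat_lit 456), (nat_lit 225), (nat_lit 10)]⟩⟩))))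
noncomputable def c16_34 : Tr Lf :=
 (.spl (nat_lit 5) (nat_lit 120) (.spl (nat_lit 4) (nat_lit 280) (.leaf ⟨(nat_lit 0), (nat_lit 0), (nat_lit 796), (nat_lit 204), (nat_lit 0), (nat_lit 4756), (nat_lit 2496), (nat_lit 12989), (nat_lit 0), (nat_lit 1452), (nat_lit 0), [], Pd.none, Pd.none, (nat_lit 0), (nat_lit 1), (nat_lit 0), (nat_lit 0), (nat_lit 0), (nat_lit 4), [], [], [], [⟨(nat_lit 0), (nat_lit 98), (nat_lit 100), (nat_lit 10), (nat_lit 391130696)⟩],
 ⟨⟨[(nat_lit 40), (nat_lit 80), (nat_lit 100)], [(nat_lit 0), (nat_lit 1598), (nat_lit 2533)], [((nat_lit 0), (nat_lit 0), (nat_lit 0)), ((nat_lit 1000), (nat_lit 625), (nat_lit 623)), ((nat_lit 1000), (nat_lit 604), (nat_lit 730))], ((nat_lit 61), (nat_lit 100), (nat_lit 68))⟩, (nat_lit 1507192), (nat_lit 266), (nat_lit 266), (nat_lit 0), (nat_lit 550431), [(nat_lit 2032000005), (nat_lit 4688000010), (nat_lit 6250000000)], [], [(nat_lit 22954662148), (nat_lit 24116033988), (nat_lit 24596155852),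 (nat_lit 25602635330), (nat_lit 25150486730), (nat_lit 26738349914), (nat_lit 26769328296), (nat_lit 28136988368)], (nat_lit 1271251), (nat_lit 1271251), (nat_lit 780000), (nat_lit 1762501), (nat_lit 1271251), (nat_lit 1271251), [(nat_lit 490000), (nat_lit 1100000), (nat_lit 1442501)], [(nat_lit 3), (nat_lit 50), (nat_lit 272), (nat_lit 60), (nat_lit 9)]⟩,
 ⟨⟨[(nat_lit 120), (nat_lit 160), (nat_lit 180)], [(nat_lit 0), (nat_lit 533), (nat_lit 2066)], [((nat_lit 0), (nat_lit 0), (nat_lit 0)), ((nat_lit 960), (nat_lit 1000), (nat_lit 200)), ((nat_lit 615), (nat_lit 1000), (nat_lit 729))], ((nat_lit 100), (nat_lit 67), (nat_lit 68))⟩, (nat_lit 555897), (nat_lit 1196), (nat_lit 1196), (nat_lit 0), (nat_lit 1727575), [(nat_lit 1625472000), (nat_lit 2421888000), (nat_lit 2867832000)], [], [(nat_lit 9125149206), (nat_lit 8928192153), (nat_lit 9768088896), (nat_lit 8430642009), (nat_lit 7616896944), (nat_lit 7194330732), (nat_lit 10901656032), (nat_lit 7348311744)],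 (nat_lit 1271251), (nat_lit 1271251), (nat_lit 780000), (nat_lit 1762501), (nat_lit 0), (nat_lit 780000), [(nat_lit 1695001), (nat_lit 1271251), (nat_lit 1271251)], [(nat_lit 28), (nat_lit 65), (nat_lit 374), (nat_lit 150), (nat_lit 9)]⟩,
 ⟨⟨[(nat_lit 120), (nat_lit 160), (nat_lit 180)], [(nat_lit 0), (nat_lit 533), (nat_lit 2066)], [((nat_lit 0), (nat_lit 0), (nat_lit 0)), ((nat_lit 960), (nat_lit 1000), (nat_lit 200)), ((nat_lit 615), (nat_lit 1000), (nat_lit 729))], ((nat_lit 100), (nat_lit 67), (nat_lit 68))⟩, (nat_lit 6037061), (nat_lit 284), (nat_lit 284), (nat_lit 0), (nat_lit 0), [(nat_lit 7968000000), (nat_lit 11872000000), (nat_lit 14058000000)], [], [(nat_lit 28270532289), (nat_lit 31160822497), (nat_lit 34352413907), (nat_lit 36178569125), (nat_lit 19236280736), (nat_lit 20719273794), (nat_lit 23536663594), (nat_lit 25192445209)], (nat_lit 0), (nat_lit 0), (nat_lit 0), (nat_lit 0), (nat_lit 0), (nat_lit 0), [], [(nat_lit 28), (nat_lit 65),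 (nat_lit 401), (nat_lit 175), (nat_lit 9)]⟩⟩) (.leaf ⟨(nat_lit 35), (nat_lit 0), (nat_lit 850), (nat_lit 115), (nat_lit 0), (nat_lit 4338), (nat_lit 1438), (nat_lit 15172), (nat_lit 0), (nat_lit 7094), (nat_lit 140000), [((nat_lit 380), [((nat_lit 41), (nat_lit 5), (nat_lit 35))])], ⟨(nat_lit 4), false, false, false, (nat_lit 193), (nat_lit 2236), (nat_lit 3163), [(nat_lit 1355794), (nat_lit 1363050), (nat_lit 1422068), (nat_lit 1431182), (nat_lit 1538797), (nat_lit 1534240), (nat_lit 1605240), (nat_lit 1602541)]⟩, ⟨(nat_lit 7), true, false, true, (nat_lit 272), (nat_lit 2236), (nat_lit 3163), [(nat_lit 1599750), (nat_lit 1591255), (nat_lit 1666215), (nat_lit 1659578), (nat_lit 1706419), (nat_lit 1691033), (nat_lit 1772883), (nat_lit 1759355)]⟩, (nat_lit 5246788), (nat_lit 37641898), (nat_lit 10690726), (nat_lit 18667376), (nat_lit 0), (nat_lit 4), [], [⟨(nat_lit 1), (nat_lit 82), (nat_lit 53), (nat_lit 100), (nat_lit 260945944)⟩], [⟨(nat_lit 0), (nat_lit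 100), (nat_lit 100), (nat_lit 10), (nat_lit 190053693)⟩], [⟨(nat_lit 0), (nat_lit 82), (nat_lit 100), (nat_lit 49), (nat_lit 350996482)⟩],
 ⟨⟨[(nat_lit 40), (nat_lit 80), (nat_lit 100)], [(nat_lit 0), (nat_lit 1598), (nat_lit 2533)], [((nat_lit 0), (nat_lit 0), (nat_lit 0)), ((nat_lit 1000), (nat_lit 625), (nat_lit 623)), ((nat_lit 1000), (nat_lit 604), (nat_lit 730))], ((nat_lit 61), (nat_lit 100), (nat_lit 68))⟩, (nat_lit 1424047), (nat_lit 276), (nat_lit 276), (nat_lit 0), (nat_lit 550431), [(nat_lit 1896298002), (nat_lit 3926274013), (nat_lit 5059300000)], [(nat_lit 0), (nat_lit 0), (nat_lit 0)], [(nat_lit 24886891257), (nat_lit 26251533947), (nat_lit 26466397008), (nat_lit 27771195314), (nat_lit 28644040661), (nat_lit 29960030137), (nat_lit 29748485159), (nat_lit 30842050704)], (nat_lit 1271251), (nat_lit 1271251), (nat_lit 780000), (nat_lit 1762501), (nat_lit 1271251), (nat_lit 1271251), [(nat_lit 490000), (nat_lit 1100000), (nat_lit 1442501)],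 [(nat_lit 3), (nat_lit 50), (nat_lit 272), (nat_lit 60), (nat_lit 9)]⟩,
 ⟨⟨[(nat_lit 120), (nat_lit 160), (nat_lit 180)], [(nat_lit 0), (nat_lit 533), (nat_lit 2066)], [((nat_lit 0), (nat_lit 0), (nat_lit 0)), ((nat_lit 960), (nat_lit 1000), (nat_lit 200)), ((nat_lit 615), (nat_lit 1000), (nat_lit 729))], ((nat_lit 100), (nat_lit 67), (nat_lit 68))⟩, (nat_lit 908186), (nat_lit 1196), (nat_lit 1196), (nat_lit 0), (nat_lit 1727575), [(nat_lit 916320000), (nat_lit 1365280000), (nat_lit 1616670000)], [], [(nat_lit 4071307429), (nat_lit 4034915486), (nat_lit 5527185756), (nat_lit 3942551960), (nat_lit 4289885563), (nat_lit 2985776757), (nat_lit 6172368489), (nat_lit 4125209400)], (nat_lit 1271251), (nat_lit 1271251), (nat_lit 780000), (nat_lit 1762501), (nat_lit 0), (nat_lit 780000), [(nat_lit 1695001), (nat_lit 1271251), (nat_lit 1271251)], [(nat_lit 28), (nat_lit 65), (nat_lit 374), (nat_lit 150), (nat_lit 9)]⟩,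
 ⟨⟨[(nat_lit 120), (nat_lit 160), (nat_lit 180)], [(nat_lit 0), (nat_lit 533), (nat_lit 2066)], [((nat_lit 0), (nat_lit 0), (nat_lit 0)), ((nat_lit 960), (nat_lit 1000), (nat_lit 200)), ((nat_lit 615), (nat_lit 1000), (nat_lit 729))], ((nat_lit 100), (nat_lit 67), (nat_lit 68))⟩, (nat_lit 469673), (nat_lit 300), (nat_lit 309), (nat_lit 70038402), (nat_lit 0), [(nat_lit 7689120000), (nat_lit 11456480000), (nat_lit 13565970000)], [], [(nat_lit 45084312286), (nat_lit 45819769846), (nat_lit 52270627461), (nat_lit 52165351223), (nat_lit 32209162904), (nat_lit 31932574823), (nat_lit 37644276918), (nat_lit 37572591443)], (nat_lit 0), (nat_lit 0), (nat_lit 0), (nat_lit 0), (nat_lit 0), (nat_lit 0), [], [(nat_lit 28), (nat_lit 65), (nat_lit 428), (nat_lit 200), (nat_lit 10)]⟩⟩)) (.leaf ⟨(nat_lit 394), (nat_lit 0), (nat_lit 350), (nat_lit 256), (nat_lit 0), (nat_lit 3921), (nat_lit 1979), (nat_lit 5769), (nat_lit 0), (nat_lit 3125552386808), (nat_lit 166050),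 [((nat_lit 380), [((nat_lit 25), (nat_lit 0), (nat_lit 201)), ((nat_lit 41), (nat_lit 2), (nat_lit 193))])], ⟨(nat_lit 4), false, false, false, (nat_lit 193), (nat_lit 2236), (nat_lit 3163), [(nat_lit 1355794), (nat_lit 1363050), (nat_lit 1422068), (nat_lit 1431182), (nat_lit 1538797), (nat_lit 1534240), (nat_lit 1605240), (nat_lit 1602541)]⟩, ⟨(nat_lit 5), true, false, true, (nat_lit 249), (nat_lit 2236), (nat_lit 3163), [(nat_lit 1477844), (nat_lit 1477224), (nat_lit 1544182), (nat_lit 1545421), (nat_lit 1706419), (nat_lit 1691033), (nat_lit 1772883), (nat_lit 1759355)]⟩, (nat_lit 5151762), (nat_lit 39362634), (nat_lit 11028468), (nat_lit 16608898), (nat_lit 0), (nat_lit 4), [], [], [], [],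
 ⟨⟨[(nat_lit 40), (nat_lit 80), (nat_lit 100)], [(nat_lit 0), (nat_lit 1598), (nat_lit 2533)], [((nat_lit 0), (nat_lit 0), (nat_lit 0)), ((nat_lit 1000), (nat_lit 625), (nat_lit 623)), ((nat_lit 1000), (nat_lit 604), (nat_lit 730))], ((nat_lit 61), (nat_lit 100), (nat_lit 68))⟩, (nat_lit 1355483), (nat_lit 276), (nat_lit 276), (nat_lit 0), (nat_lit 550431), [(nat_lit 1646592888), (nat_lit 3216127362), (nat_lit 4075338800)], [(nat_lit 0), (nat_lit 0), (nat_lit 0)], [(nat_lit 22094841642), (nat_lit 23189568385), (nat_lit 24029758778), (nat_lit 24946684171), (nat_lit 28072207623), (nat_lit 29325343940), (nat_lit 29325491514), (nat_lit 30371876167)], (nat_lit 1271251), (nat_lit 1271251), (nat_lit 780000), (nat_lit 1762501), (nat_lit 1271251), (nat_lit 1271251), [(nat_lit 490000), (nat_lit 1100000), (nat_lit 1442501)], [(nat_lit 3), (nat_lit 50), (nat_lit 272), (nat_lit 60), (nat_lit 9)]⟩,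
 ⟨⟨[(nat_lit 120), (nat_lit 160), (nat_lit 180)], [(nat_lit 0), (nat_lit 533), (nat_lit 2066)], [((nat_lit 0), (nat_lit 0), (nat_lit 0)), ((nat_lit 960), (nat_lit 1000), (nat_lit 200)), ((nat_lit 615), (nat_lit 1000), (nat_lit 729))], ((nat_lit 100), (nat_lit 67), (nat_lit 68))⟩, (nat_lit 1464210), (nat_lit 1469), (nat_lit 1469), (nat_lit 0), (nat_lit 2480230), [(nat_lit 2039808000), (nat_lit 3039232000), (nat_lit 3598848000)], [], [(nat_lit 15537811388), (nat_lit 15298489639), (nat_lit 14986991149), (nat_lit 14738759740), (nat_lit 14663221859), (nat_lit 14411624540), (nat_lit 14097421026), (nat_lit 13847503008)], (nat_lit 1271251), (nat_lit 1271251), (nat_lit 780000), (nat_lit 1762501), (nat_lit 780000), (nat_lit 3072501), [(nat_lit 1695001), (nat_lit 1271251), (nat_lit 1271251)], [(nat_lit 28), (nat_lit 65), (nat_lit 478), (nat_lit 225), (nat_lit 11)]⟩,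
 ⟨⟨[(nat_lit 120), (nat_lit 160), (nat_lit 180)], [(nat_lit 0), (nat_lit 533), (nat_lit 2066)], [((nat_lit 0), (nat_lit 0), (nat_lit 0)), ((nat_lit 960), (nat_lit 1000), (nat_lit 200)), ((nat_lit 615), (nat_lit 1000), (nat_lit 729))], ((nat_lit 100), (nat_lit 67), (nat_lit 68))⟩, (nat_lit 3928197), (nat_lit 182), (nat_lit 182), (nat_lit 0), (nat_lit 0), [(nat_lit 4828608000), (nat_lit 7194432000), (nat_lit 8519148000)], [], [(nat_lit 15173865691), (nat_lit 16015101129), (nat_lit 19382206806), (nat_lit 19591111050), (nat_lit 21002455085), (nat_lit 21074867343), (nat_lit 23239345674), (nat_lit 23248870811)], (nat_lit 0), (nat_lit 0), (nat_lit 0), (nat_lit 0), (nat_lit 0), (nat_lit 0), [], [(nat_lit 28), (nat_lit 65), (nat_lit 483), (nat_lit 250), (nat_lit 11)]⟩⟩))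
noncomputable def c16_35 : Tr Lf :=
 (.stt (nat_lit 1) (.spl (nat_lit 1) (nat_lit 220) (.ord (.leaf ⟨(nat_lit 973), (nat_lit 0), (nat_lit 0), (nat_lit 27), (nat_lit 0), (nat_lit 3546), (nat_lit 362), (nat_lit 343), (nat_lit 0), (nat_lit 3062340), (nat_lit 243250), [((nat_lit 380), [((nat_lit 25), (nat_lit 0), (nat_lit 973))])], ⟨(nat_lit 4), false, false, false, (nat_lit 188), (nat_lit 2236), (nat_lit 3163), [(nat_lit 1355794), (nat_lit 1363050), (nat_lit 1399976), (nat_lit 1408471), (nat_lit 1538797), (nat_lit 1534240), (nat_lit 1583107), (nat_lit 1579788)]⟩, ⟨(nat_lit 5), false, true, true, (nat_lit 224), (nat_lit 2236), (nat_lit 3163), [(nat_lit 1477844), (nat_lit 1477224), (nat_lit 1522091), (nat_lit 1522710), (nat_lit 1599750), (nat_lit 1591255), (nat_lit 1644060), (nat_lit 1636804)]⟩, (nat_lit 4981203), (nat_lit 41517653), (nat_lit 11001543), (nat_lit 14480804), (nat_lit 0), (nat_lit 0), [], [], [], [⟨(nat_lit 0), (nat_lit 94), (nat_lit 100), (nat_lit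 59), (nat_lit 3640903)⟩],
 ⟨⟨[(nat_lit 40), (nat_lit 80), (nat_lit 100)], [(nat_lit 0), (nat_lit 1598), (nat_lit 2533)], [((nat_lit 0), (nat_lit 0), (nat_lit 0)), ((nat_lit 1000), (nat_lit 625), (nat_lit 623)), ((nat_lit 1000), (nat_lit 604), (nat_lit 730))], ((nat_lit 61), (nat_lit 100), (nat_lit 68))⟩, (nat_lit 0), (nat_lit 74), (nat_lit 74), (nat_lit 0), (nat_lit 0), [(nat_lit 1535290094), (nat_lit 1795854879), (nat_lit 2229564000)], [(nat_lit 0), (nat_lit 0), (nat_lit 0)], [(nat_lit 21454127821), (nat_lit 22802852124), (nat_lit 23815968295), (nat_lit 24936663870), (nat_lit 24179361738), (nat_lit 25387832540), (nat_lit 26059183725), (nat_lit 27078113738)], (nat_lit 0), (nat_lit 0), (nat_lit 0), (nat_lit 0), (nat_lit 0), (nat_lit 0), [], [(nat_lit 3), (nat_lit 50), (nat_lit 272), (nat_lit 60), (nat_lit 9)]⟩,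
 ⟨⟨[(nat_lit 120), (nat_lit 160), (nat_lit 180)], [(nat_lit 0), (nat_lit 533), (nat_lit 2066)], [((nat_lit 0), (nat_lit 0), (nat_lit 0)), ((nat_lit 960), (nat_lit 1000), (nat_lit 200)), ((nat_lit 615), (nat_lit 1000), (nat_lit 729))], ((nat_lit 100), (nat_lit 67), (nat_lit 68))⟩, (nat_lit 95584), (nat_lit 1161), (nat_lit 1161), (nat_lit 0), (nat_lit 1645145), [(nat_lit 215136000), (nat_lit 320544000), (nat_lit 379566000)], [], [(nat_lit 1106676556), (nat_lit 1100777180), (nat_lit 1313971796), (nat_lit 1030252140), (nat_lit 1776450193), (nat_lit 1450663587), (nat_lit 2338157030), (nat_lit 2024549914)], (nat_lit 1271251), (nat_lit 1271251), (nat_lit 780000), (nat_lit 1762501), (nat_lit 0), (nat_lit 2825001), [(nat_lit 1695001), (nat_lit 1271251), (nat_lit 1271251)], [(nat_lit 28), (nat_lit 65), (nat_lit 456), (nat_lit 225), (nat_lit 11)]⟩,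
 ⟨⟨[(nat_lit 120), (nat_lit 160), (nat_lit 180)], [(nat_lit 0), (nat_lit 533), (nat_lit 2066)], [((nat_lit 0), (nat_lit 0), (nat_lit 0)), ((nat_lit 960), (nat_lit 1000), (nat_lit 200)), ((nat_lit 615), (nat_lit 1000), (nat_lit 729))], ((nat_lit 100), (nat_lit 67), (nat_lit 68))⟩, (nat_lit 63218), (nat_lit 300), (nat_lit 1417), (nat_lit 1792806), (nat_lit 2301758), [(nat_lit 215136000), (nat_lit 320544000), (nat_lit 379566000)], [], [(nat_lit 1379028191), (nat_lit 1356227480), (nat_lit 1360814095), (nat_lit 1334320095), (nat_lit 1863489012), (nat_lit 1562564136), (nat_lit 1265322051), (nat_lit 1045595746)], (nat_lit 1271251), (nat_lit 1271251), (nat_lit 1271251), (nat_lit 1271251), (nat_lit 0), (nat_lit 2825001), [(nat_lit 1695001), (nat_lit 1271251), (nat_lit 1271251)], [(nat_lit 28), (nat_lit 65), (nat_lit 467), (nat_lit 225), (nat_lit 11)]⟩⟩)) (.spl (nat_lit 0) (nat_lit 370) (.leaf ⟨(nat_lit 964), (nat_lit 0), (nat_lit 0), (nat_lit 36), (nat_lit 0),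 (nat_lit 3727), (nat_lit 479), (nat_lit 401), (nat_lit 0), (nat_lit 3245871), (nat_lit 241000), [((nat_lit 370), [((nat_lit 25), (nat_lit 0), (nat_lit 964))])], ⟨(nat_lit 5), false, false, false, (nat_lit 201), (nat_lit 2738), (nat_lit 3163), [(nat_lit 1400199), (nat_lit 1404246), (nat_lit 1422342), (nat_lit 1426651), (nat_lit 1583107), (nat_lit 1581477), (nat_lit 1605257), (nat_lit 1603890)]⟩, ⟨(nat_lit 5), false, true, true, (nat_lit 228), (nat_lit 2738), (nat_lit 3163), [(nat_lit 1477844), (nat_lit 1477581), (nat_lit 1544285), (nat_lit 1544810), (nat_lit 1599750), (nat_lit 1595704), (nat_lit 1666215), (nat_lit 1662956)]⟩, (nat_lit 5108591), (nat_lit 40286611), (nat_lit 12012746), (nat_lit 14700643), (nat_lit 0), (nat_lit 0), [], [], [⟨(nat_lit 0), (nat_lit 100), (nat_lit 100), (nat_lit 40), (nat_lit 13089336)⟩], [],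
 ⟨⟨[(nat_lit 40), (nat_lit 80), (nat_lit 100)], [(nat_lit 0), (nat_lit 1598), (nat_lit 2533)], [((nat_lit 0), (nat_lit 0), (nat_lit 0)), ((nat_lit 1000), (nat_lit 625), (nat_lit 623)), ((nat_lit 1000), (nat_lit 604), (nat_lit 730))], ((nat_lit 61), (nat_lit 100), (nat_lit 68))⟩, (nat_lit 0), (nat_lit 68), (nat_lit 68), (nat_lit 0), (nat_lit 0), [(nat_lit 1568624317), (nat_lit 1822606633), (nat_lit 2266752000)], [(nat_lit 0), (nat_lit 0), (nat_lit 0)], [(nat_lit 21296631526), (nat_lit 22009364124), (nat_lit 23636456789), (nat_lit 24239811791), (nat_lit 24138981261), (nat_lit 24807606118), (nat_lit 26023595532), (nat_lit 26630051457)], (nat_lit 0), (nat_lit 0), (nat_lit 0), (nat_lit 0), (nat_lit 0), (nat_lit 0), [], [(nat_lit 3), (nat_lit 50), (nat_lit 272), (nat_lit 60), (nat_lit 9)]⟩,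
 ⟨⟨[(nat_lit 100), (nat_lit 140), (nat_lit 160)], [(nat_lit 0), (nat_lit 508), (nat_lit 1689)], [((nat_lit 0), (nat_lit 0), (nat_lit 0)), ((nat_lit 1000), (nat_lit 1000), (nat_lit 198)), ((nat_lit 811), (nat_lit 1000), (nat_lit 671))], ((nat_lit 100), (nat_lit 81), (nat_lit 68))⟩, (nat_lit 0), (nat_lit 779), (nat_lit 779), (nat_lit 0), (nat_lit 1017151), [(nat_lit 225000000), (nat_lit 354312000), (nat_lit 427392000)], [], [(nat_lit 1652518019), (nat_lit 1397986280), (nat_lit 1341256008), (nat_lit 1351727620), (nat_lit 1512688282), (nat_lit 1426434996), (nat_lit 2240456283), (nat_lit 2027697416)], (nat_lit 1271251), (nat_lit 1271251), (nat_lit 780000), (nat_lit 1762501), (nat_lit 0), (nat_lit 2825001), [(nat_lit 1412501), (nat_lit 1271251), (nat_lit 1271251)], [(nat_lit 23), (nat_lit 62), (nat_lit 456), (nat_lit 225), (nat_lit 12)]⟩,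
 ⟨⟨[(nat_lit 120), (nat_lit 160), (nat_lit 180)], [(nat_lit 0), (nat_lit 533), (nat_lit 2066)], [((nat_lit 0), (nat_lit 0), (nat_lit 0)), ((nat_lit 960), (nat_lit 1000), (nat_lit 200)), ((nat_lit 615), (nat_lit 1000), (nat_lit 729))], ((nat_lit 100), (nat_lit 67), (nat_lit 68))⟩, (nat_lit 84292), (nat_lit 300), (nat_lit 1332), (nat_lit 2390403), (nat_lit 2108211), [(nat_lit 286848000), (nat_lit 427392000), (nat_lit 506088000)], [], [(nat_lit 1957050266), (nat_lit 1902889596), (nat_lit 1909577745), (nat_lit 1865431168), (nat_lit 2396087904), (nat_lit 1868372706), (nat_lit 1696773177), (nat_lit 1477124626)], (nat_lit 1271251), (nat_lit 1271251), (nat_lit 1271251), (nat_lit 1271251), (nat_lit 0), (nat_lit 2825001), [(nat_lit 1695001), (nat_lit 1271251), (nat_lit 1271251)], [(nat_lit 28), (nat_lit 65), (nat_lit 483), (nat_lit 250), (nat_lit 11)]⟩⟩) (.leaf ⟨(nat_lit 967), (nat_lit 0), (nat_lit 0), (nat_lit 33), (nat_lit 0), (nat_lit 3500), (nat_lit 485),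 (nat_lit 366), (nat_lit 0), (nat_lit 347), (nat_lit 241750), [((nat_lit 380), [((nat_lit 25), (nat_lit 0), (nat_lit 967))])], ⟨(nat_lit 5), false, false, false, (nat_lit 202), (nat_lit 2236), (nat_lit 2739), [(nat_lit 1404204), (nat_lit 1408652), (nat_lit 1426601), (nat_lit 1431406), (nat_lit 1581477), (nat_lit 1579788), (nat_lit 1603890), (nat_lit 1602558)]⟩, ⟨(nat_lit 5), false, true, true, (nat_lit 228), (nat_lit 2236), (nat_lit 2739), [(nat_lit 1477581), (nat_lit 1477224), (nat_lit 1544794), (nat_lit 1545508), (nat_lit 1595704), (nat_lit 1591255), (nat_lit 1662956), (nat_lit 1659578)]⟩, (nat_lit 5108396), (nat_lit 40301445), (nat_lit 12069715), (nat_lit 14628840), (nat_lit 0), (nat_lit 0), [], [], [⟨(nat_lit 0), (nat_lit 100), (nat_lit 100), (nat_lit 40), (nat_lit 3204928)⟩], [⟨(nat_lit 0), (nat_lit 94), (nat_lit 100), (nat_lit 59), (nat_lit 8604059)⟩],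
 ⟨⟨[(nat_lit 40), (nat_lit 60), (nat_lit 80)], [(nat_lit 0), (nat_lit 1134), (nat_lit 1930)], [((nat_lit 0), (nat_lit 0), (nat_lit 0)), ((nat_lit 1000), (nat_lit 575), (nat_lit 619)), ((nat_lit 1000), (nat_lit 574), (nat_lit 622))], ((nat_lit 55), (nat_lit 100), (nat_lit 70))⟩, (nat_lit 32545), (nat_lit 65), (nat_lit 65), (nat_lit 0), (nat_lit 0), [(nat_lit 1536910164), (nat_lit 1598915684), (nat_lit 1813689200)], [(nat_lit 0), (nat_lit 0), (nat_lit 0)], [(nat_lit 22136110139), (nat_lit 22806152764), (nat_lit 24390581639), (nat_lit 24947660264), (nat_lit 24759420202), (nat_lit 25347820975), (nat_lit 26555631014), (nat_lit 27038290514)], (nat_lit 0), (nat_lit 0), (nat_lit 0), (nat_lit 0), (nat_lit 0), (nat_lit 0), [], [(nat_lit 2), (nat_lit 44), (nat_lit 272), (nat_lit 60), (nat_lit 11)]⟩,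
 ⟨⟨[(nat_lit 100), (nat_lit 140), (nat_lit 160)], [(nat_lit 0), (nat_lit 508), (nat_lit 1689)], [((nat_lit 0), (nat_lit 0), (nat_lit 0)), ((nat_lit 1000), (nat_lit 1000), (nat_lit 198)), ((nat_lit 811), (nat_lit 1000), (nat_lit 671))], ((nat_lit 100), (nat_lit 81), (nat_lit 68))⟩, (nat_lit 0), (nat_lit 864), (nat_lit 864), (nat_lit 0), (nat_lit 1183436), [(nat_lit 206250000), (nat_lit 324786000), (nat_lit 391776000)], [], [(nat_lit 1561061948), (nat_lit 1302575620), (nat_lit 1192764381), (nat_lit 1202129896), (nat_lit 1388819038), (nat_lit 1308526908), (nat_lit 2112140925), (nat_lit 1896717020)], (nat_lit 1271251), (nat_lit 1271251), (nat_lit 780000), (nat_lit 1762501), (nat_lit 0), (nat_lit 2825001), [(nat_lit 1412501), (nat_lit 1271251), (nat_lit 1271251)], [(nat_lit 23), (nat_lit 62), (nat_lit 456), (nat_lit 225), (nat_lit 12)]⟩,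
 ⟨⟨[(nat_lit 120), (nat_lit 160), (nat_lit 180)], [(nat_lit 0), (nat_lit 533), (nat_lit 2066)], [((nat_lit 0), (nat_lit 0), (nat_lit 0)), ((nat_lit 960), (nat_lit 1000), (nat_lit 200)), ((nat_lit 615), (nat_lit 1000), (nat_lit 729))], ((nat_lit 100), (nat_lit 67), (nat_lit 68))⟩, (nat_lit 77268), (nat_lit 300), (nat_lit 1498), (nat_lit 2191201), (nat_lit 2465042), [(nat_lit 262944000), (nat_lit 391776000), (nat_lit 463914000)], [], [(nat_lit 1798705230), (nat_lit 1749400332), (nat_lit 1755554615), (nat_lit 1712939694), (nat_lit 2193924684), (nat_lit 1712269416), (nat_lit 1555647402), (nat_lit 1356943734)], (nat_lit 1271251), (nat_lit 1271251), (nat_lit 1271251), (nat_lit 1271251), (nat_lit 0), (nat_lit 2825001), [(nat_lit 1695001), (nat_lit 1271251), (nat_lit 1271251)], [(nat_lit 28), (nat_lit 65), (nat_lit 490), (nat_lit 250), (nat_lit 11)]⟩⟩))) (.spl (nat_lit 5) (nat_lit 120) (.leaf ⟨(nat_lit 850), (nat_lit 0), (nat_lit 0), (nat_lit 150), (nat_lit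 0), (nat_lit 3325), (nat_lit 2076), (nat_lit 2207), (nat_lit 0), (nat_lit 1424633355629), (nat_lit 464000), [((nat_lit 380), [((nat_lit 25), (nat_lit 1), (nat_lit 230)), ((nat_lit 41), (nat_lit 2), (nat_lit 620))])], ⟨(nat_lit 4), false, false, false, (nat_lit 193), (nat_lit 2236), (nat_lit 3163), [(nat_lit 1355794), (nat_lit 1363050), (nat_lit 1422068), (nat_lit 1431182), (nat_lit 1538797), (nat_lit 1534240), (nat_lit 1605240), (nat_lit 1602541)]⟩, ⟨(nat_lit 5), false, true, true, (nat_lit 228), (nat_lit 2236), (nat_lit 3163), [(nat_lit 1477844), (nat_lit 1477224), (nat_lit 1544182), (nat_lit 1545421), (nat_lit 1599750), (nat_lit 1591255), (nat_lit 1666215), (nat_lit 1659578)]⟩, (nat_lit 5042867), (nat_lit 40886573), (nat_lit 11308311), (nat_lit 14805116), (nat_lit 0), (nat_lit 0), [], [], [⟨(nat_lit 0), (nat_lit 100), (nat_lit 100), (nat_lit 10), (nat_lit 133157663)⟩], [⟨(nat_lit 0), (nat_lit 98), (nat_lit 100), (nat_lit 10), (nat_lit 2393435)⟩],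
 ⟨⟨[(nat_lit 40), (nat_lit 80), (nat_lit 100)], [(nat_lit 0), (nat_lit 1598), (nat_lit 2533)], [((nat_lit 0), (nat_lit 0), (nat_lit 0)), ((nat_lit 1000), (nat_lit 625), (nat_lit 623)), ((nat_lit 1000), (nat_lit 604), (nat_lit 730))], ((nat_lit 61), (nat_lit 100), (nat_lit 68))⟩, (nat_lit 51390), (nat_lit 213), (nat_lit 213), (nat_lit 0), (nat_lit 381441), [(nat_lit 1390184011), (nat_lit 893558253), (nat_lit 710891747)], [(nat_lit 0), (nat_lit 0), (nat_lit 0)], [(nat_lit 21778256809), (nat_lit 22825719928), (nat_lit 23818259791), (nat_lit 24786121807), (nat_lit 24049209774), (nat_lit 25071762238), (nat_lit 25959508169), (nat_lit 26884715975)], (nat_lit 1271251), (nat_lit 1271251), (nat_lit 780000), (nat_lit 1762501), (nat_lit 1271251), (nat_lit 1271251), [(nat_lit 490000), (nat_lit 1100000), (nat_lit 1442501)], [(nat_lit 3), (nat_lit 50), (nat_lit 272), (nat_lit 60), (nat_lit 9)]⟩,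
 ⟨⟨[(nat_lit 120), (nat_lit 160), (nat_lit 180)], [(nat_lit 0), (nat_lit 533), (nat_lit 2066)], [((nat_lit 0), (nat_lit 0), (nat_lit 0)), ((nat_lit 960), (nat_lit 1000), (nat_lit 200)), ((nat_lit 615), (nat_lit 1000), (nat_lit 729))], ((nat_lit 100), (nat_lit 67), (nat_lit 68))⟩, (nat_lit 527212), (nat_lit 648), (nat_lit 648), (nat_lit 0), (nat_lit 535871), [(nat_lit 1195200000), (nat_lit 1780800000), (nat_lit 2108700000)], [], [(nat_lit 6061943172), (nat_lit 6005378532), (nat_lit 7343181432), (nat_lit 5703320000), (nat_lit 5569904166), (nat_lit 4464572754), (nat_lit 8224624098), (nat_lit 5269198320)], (nat_lit 1271251), (nat_lit 1271251), (nat_lit 780000), (nat_lit 1762501), (nat_lit 0), (nat_lit 780000), [(nat_lit 1695001), (nat_lit 1271251), (nat_lit 1271251)], [(nat_lit 28), (nat_lit 65), (nat_lit 373), (nat_lit 150), (nat_lit 9)]⟩,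
 ⟨⟨[(nat_lit 120), (nat_lit 160), (nat_lit 180)], [(nat_lit 0), (nat_lit 533), (nat_lit 2066)], [((nat_lit 0), (nat_lit 0), (nat_lit 0)), ((nat_lit 960), (nat_lit 1000), (nat_lit 200)), ((nat_lit 615), (nat_lit 1000), (nat_lit 729))], ((nat_lit 100), (nat_lit 67), (nat_lit 68))⟩, (nat_lit 121502), (nat_lit 300), (nat_lit 610), (nat_lit 10725247), (nat_lit 535871), [(nat_lit 1195200000), (nat_lit 1780800000), (nat_lit 2108700000)], [], [(nat_lit 7621341567), (nat_lit 7448413324), (nat_lit 7667351335), (nat_lit 7529469818), (nat_lit 5873060578), (nat_lit 5630878616), (nat_lit 5791170535), (nat_lit 5653790893)], (nat_lit 1271251), (nat_lit 1271251), (nat_lit 1271251), (nat_lit 1271251), (nat_lit 0), (nat_lit 780000), [(nat_lit 1695001), (nat_lit 1271251), (nat_lit 1271251)], [(nat_lit 28), (nat_lit 65), (nat_lit 401), (nat_lit 175), (nat_lit 9)]⟩⟩) (.leaf ⟨(nat_lit 897), (nat_lit 0), (nat_lit 0), (nat_lit 103), (nat_lit 0), (nat_lit 3287), (nat_lit 818),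 (nat_lit 1186), (nat_lit 0), (nat_lit 1611607), (nat_lit 474200), [((nat_lit 380), [((nat_lit 25), (nat_lit 1), (nat_lit 320)), ((nat_lit 41), (nat_lit 2), (nat_lit 577))])], ⟨(nat_lit 4), false, false, false, (nat_lit 193), (nat_lit 2236), (nat_lit 3163), [(nat_lit 1355794), (nat_lit 1363050), (nat_lit 1422068), (nat_lit 1431182), (nat_lit 1538797), (nat_lit 1534240), (nat_lit 1605240), (nat_lit 1602541)]⟩, ⟨(nat_lit 5), false, true, true, (nat_lit 228), (nat_lit 2236), (nat_lit 3163), [(nat_lit 1477844), (nat_lit 1477224), (nat_lit 1544182), (nat_lit 1545421), (nat_lit 1599750), (nat_lit 1591255), (nat_lit 1666215), (nat_lit 1659578)]⟩, (nat_lit 5042867), (nat_lit 40886573), (nat_lit 11308311), (nat_lit 14805116), (nat_lit 0), (nat_lit 0), [], [], [], [],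
 ⟨⟨[(nat_lit 40), (nat_lit 80), (nat_lit 100)], [(nat_lit 0), (nat_lit 1598), (nat_lit 2533)], [((nat_lit 0), (nat_lit 0), (nat_lit 0)), ((nat_lit 1000), (nat_lit 625), (nat_lit 623)), ((nat_lit 1000), (nat_lit 604), (nat_lit 730))], ((nat_lit 61), (nat_lit 100), (nat_lit 68))⟩, (nat_lit 0), (nat_lit 213), (nat_lit 213), (nat_lit 0), (nat_lit 381441), [(nat_lit 1374430822), (nat_lit 773197142), (nat_lit 524405200)], [(nat_lit 0), (nat_lit 0), (nat_lit 0)], [(nat_lit 21750304179), (nat_lit 22792623399), (nat_lit 23832597239), (nat_lit 24807561448), (nat_lit 24028875909), (nat_lit 25027506241), (nat_lit 25982603983), (nat_lit 26903428837)], (nat_lit 1271251), (nat_lit 1271251), (nat_lit 780000), (nat_lit 1762501), (nat_lit 1271251), (nat_lit 1271251), [(nat_lit 490000), (nat_lit 1100000), (nat_lit 1442501)], [(nat_lit 3), (nat_lit 50), (nat_lit 272), (nat_lit 60), (nat_lit 9)]⟩,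
 ⟨⟨[(nat_lit 120), (nat_lit 160), (nat_lit 180)], [(nat_lit 0), (nat_lit 533), (nat_lit 2066)], [((nat_lit 0), (nat_lit 0), (nat_lit 0)), ((nat_lit 960), (nat_lit 1000), (nat_lit 200)), ((nat_lit 615), (nat_lit 1000), (nat_lit 729))], ((nat_lit 100), (nat_lit 67), (nat_lit 68))⟩, (nat_lit 266652), (nat_lit 548), (nat_lit 548), (nat_lit 0), (nat_lit 535871), [(nat_lit 820704000), (nat_lit 1222816000), (nat_lit 1447974000)], [], [(nat_lit 5469321268), (nat_lit 4200951169), (nat_lit 4144098092), (nat_lit 4171220880), (nat_lit 4623501397), (nat_lit 4586438170), (nat_lit 5719670500), (nat_lit 4571065984)], (nat_lit 1271251), (nat_lit 1271251), (nat_lit 780000), (nat_lit 1762501), (nat_lit 780000), (nat_lit 3072501), [(nat_lit 1695001), (nat_lit 1271251), (nat_lit 1271251)], [(nat_lit 28), (nat_lit 65), (nat_lit 456), (nat_lit 225), (nat_lit 10)]⟩,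
 ⟨⟨[(nat_lit 120), (nat_lit 160), (nat_lit 180)], [(nat_lit 0), (nat_lit 533), (nat_lit 2066)], [((nat_lit 0), (nat_lit 0), (nat_lit 0)), ((nat_lit 960), (nat_lit 1000), (nat_lit 200)), ((nat_lit 615), (nat_lit 1000), (nat_lit 729))], ((nat_lit 100), (nat_lit 67), (nat_lit 68))⟩, (nat_lit 241171), (nat_lit 300), (nat_lit 865), (nat_lit 6839200), (nat_lit 1288526), [(nat_lit 820704000), (nat_lit 1222816000), (nat_lit 1447974000)], [], [(nat_lit 4627964239), (nat_lit 4467429407), (nat_lit 4483873562), (nat_lit 4354923235), (nat_lit 5167023871), (nat_lit 4257668228), (nat_lit 4306256820), (nat_lit 4155013794)], (nat_lit 1271251), (nat_lit 1271251), (nat_lit 1271251), (nat_lit 1271251), (nat_lit 780000), (nat_lit 3072501), [(nat_lit 1695001), (nat_lit 1271251), (nat_lit 1271251)], [(nat_lit 28), (nat_lit 65), (nat_lit 483), (nat_lit 250), (nat_lit 11)]⟩⟩)))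
noncomputable def c16_36 : Tr Lf :=
 (.trX (nat_lit 4) (nat_lit 0) (nat_lit 2) (nat_lit 60) (nat_lit 74) (nat_lit 100) (nat_lit 340) (.spl (nat_lit 6) (nat_lit 28) (.stt (nat_lit 1) (.leaf ⟨(nat_lit 959), (nat_lit 0), (nat_lit 0), (nat_lit 41), (nat_lit 0), (nat_lit 2984), (nat_lit 464), (nat_lit 436), (nat_lit 0), (nat_lit 21758), (nat_lit 395000), [((nat_lit 380), [((nat_lit 24), (nat_lit 1), (nat_lit 902)), ((nat_lit 41), (nat_lit 2), (nat_lit 57))])], ⟨(nat_lit 4), false, false, false, (nat_lit 193), (nat_lit 2236), (nat_lit 3163), [(nat_lit 1355794), (nat_lit 1363050), (nat_lit 1422068), (nat_lit 1431182), (nat_lit 1538797), (nat_lit 1534240), (nat_lit 1605240), (nat_lit 1602541)]⟩, ⟨(nat_lit 7), false, true, true, (nat_lit 265), (nat_lit 2236), (nat_lit 3163), [(nat_lit 1599750), (nat_lit 1591255), (nat_lit 1644060), (nat_lit 1636804), (nat_lit 1691180), (nat_lit 1676779), (nat_lit 1735490), (nat_lit 1722327)]⟩, (nat_lit 5220101), (nat_lit 38181159),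 (nat_lit 10798930), (nat_lit 18019911), (nat_lit 0), (nat_lit 0), [], [⟨(nat_lit 1), (nat_lit 85), (nat_lit 53), (nat_lit 100), (nat_lit 260956976)⟩], [], [⟨(nat_lit 0), (nat_lit 73), (nat_lit 100), (nat_lit 85), (nat_lit 8082747)⟩],
 ⟨⟨[(nat_lit 40), (nat_lit 60), (nat_lit 80)], [(nat_lit 0), (nat_lit 832), (nat_lit 1534)], [((nat_lit 0), (nat_lit 0), (nat_lit 0)), ((nat_lit 1000), (nat_lit 659), (nat_lit 528)), ((nat_lit 1000), (nat_lit 650), (nat_lit 549))], ((nat_lit 65), (nat_lit 100), (nat_lit 55))⟩, (nat_lit 2637), (nat_lit 88), (nat_lit 88), (nat_lit 0), (nat_lit 0), [(nat_lit 1388650805), (nat_lit 1204649344), (nat_lit 1050067200)], [(nat_lit 0), (nat_lit 0), (nat_lit 0)], [(nat_lit 23862928407), (nat_lit 24937904319), (nat_lit 25860877455), (nat_lit 26768473599), (nat_lit 26285258037), (nat_lit 27387055220), (nat_lit 27916884074), (nat_lit 28879791082)], (nat_lit 0), (nat_lit 0), (nat_lit 0), (nat_lit 0), (nat_lit 0), (nat_lit 0), [], [(nat_lit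 2), (nat_lit 44), (nat_lit 272), (nat_lit 60), (nat_lit 10)]⟩,
 ⟨⟨[(nat_lit 120), (nat_lit 140), (nat_lit 160)], [(nat_lit 0), (nat_lit 266), (nat_lit 862)], [((nat_lit 0), (nat_lit 0), (nat_lit 0)), ((nat_lit 960), (nat_lit 1000), (nat_lit 200)), ((nat_lit 874), (nat_lit 1000), (nat_lit 406))], ((nat_lit 100), (nat_lit 81), (nat_lit 51))⟩, (nat_lit 247024), (nat_lit 1082), (nat_lit 1082), (nat_lit 0), (nat_lit 1634677), [(nat_lit 326688000), (nat_lit 403522000), (nat_lit 486752000)], [], [(nat_lit 1453585952), (nat_lit 1397059070), (nat_lit 1938050544), (nat_lit 1334322316), (nat_lit 2577951528), (nat_lit 1951577280), (nat_lit 3323050980), (nat_lit 2720093652)], (nat_lit 1271251), (nat_lit 1271251), (nat_lit 780000), (nat_lit 1762501), (nat_lit 0), (nat_lit 2825001), [(nat_lit 1695001), (nat_lit 1271251), (nat_lit 1271251)], [(nat_lit 27), (nat_lit 62), (nat_lit 456), (nat_lit 225), (nat_lit 12)]⟩,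
 ⟨⟨[(nat_lit 120), (nat_lit 140), (nat_lit 160)], [(nat_lit 0), (nat_lit 266), (nat_lit 862)], [((nat_lit 0), (nat_lit 0), (nat_lit 0)), ((nat_lit 960), (nat_lit 1000), (nat_lit 200)), ((nat_lit 874), (nat_lit 1000), (nat_lit 406))], ((nat_lit 100), (nat_lit 81), (nat_lit 51))⟩, (nat_lit 84158), (nat_lit 300), (nat_lit 1387), (nat_lit 2722400), (nat_lit 2440052), [(nat_lit 326688000), (nat_lit 403522000), (nat_lit 486752000)], [], [(nat_lit 1948130578), (nat_lit 1915733681), (nat_lit 1964124135), (nat_lit 1930798455), (nat_lit 1935991072), (nat_lit 1562836984), (nat_lit 1623316389), (nat_lit 1599487789)], (nat_lit 1271251), (nat_lit 1271251), (nat_lit 1271251), (nat_lit 1271251), (nat_lit 0), (nat_lit 2825001), [(nat_lit 1695001), (nat_lit 1271251), (nat_lit 1271251)], [(nat_lit 27), (nat_lit 62), (nat_lit 483), (nat_lit 250), (nat_lit 12)]⟩⟩) (.leaf ⟨(nat_lit 891), (nat_lit 0), (nat_lit 0), (nat_lit 109), (nat_lit 0), (nat_lit 3319), (nat_lit 1406),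 (nat_lit 1235), (nat_lit 0), (nat_lit 502042749528), (nat_lit 445600), [((nat_lit 380), [((nat_lit 24), (nat_lit 1), (nat_lit 445)), ((nat_lit 41), (nat_lit 2), (nat_lit 446))])], ⟨(nat_lit 4), false, false, false, (nat_lit 193), (nat_lit 2236), (nat_lit 3163), [(nat_lit 1355794), (nat_lit 1363050), (nat_lit 1422068), (nat_lit 1431182), (nat_lit 1538797), (nat_lit 1534240), (nat_lit 1605240), (nat_lit 1602541)]⟩, ⟨(nat_lit 7), false, true, true, (nat_lit 265), (nat_lit 2236), (nat_lit 3163), [(nat_lit 1599750), (nat_lit 1591255), (nat_lit 1644060), (nat_lit 1636804), (nat_lit 1691180), (nat_lit 1676779), (nat_lit 1735490), (nat_lit 1722327)]⟩, (nat_lit 5220101), (nat_lit 38181159), (nat_lit 10798930), (nat_lit 18019911), (nat_lit 0), (nat_lit 0), [], [⟨(nat_lit 1), (nat_lit 85), (nat_lit 53), (nat_lit 100), (nat_lit 305804862)⟩], [], [⟨(nat_lit 0), (nat_lit 84), (nat_lit 100), (nat_lit 47), (nat_lit 11847960)⟩],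
 ⟨⟨[(nat_lit 40), (nat_lit 60), (nat_lit 80)], [(nat_lit 0), (nat_lit 832), (nat_lit 1534)], [((nat_lit 0), (nat_lit 0), (nat_lit 0)), ((nat_lit 1000), (nat_lit 659), (nat_lit 528)), ((nat_lit 1000), (nat_lit 650), (nat_lit 549))], ((nat_lit 65), (nat_lit 100), (nat_lit 55))⟩, (nat_lit 0), (nat_lit 191), (nat_lit 191), (nat_lit 0), (nat_lit 374661), [(nat_lit 1385604426), (nat_lit 1066236260), (nat_lit 912151200)], [(nat_lit 0), (nat_lit 0), (nat_lit 0)], [(nat_lit 24106361130), (nat_lit 25104618397), (nat_lit 25955425590), (nat_lit 26879465357), (nat_lit 26681235052), (nat_lit 27875135145), (nat_lit 28238127461), (nat_lit 29241249131)], (nat_lit 1271251), (nat_lit 1271251), (nat_lit 780000), (nat_lit 1762501), (nat_lit 1271251), (nat_lit 1271251), [(nat_lit 490000), (nat_lit 780000), (nat_lit 1100000)], [(nat_lit 2), (nat_lit 44), (nat_lit 272), (nat_lit 60), (nat_lit 10)]⟩,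
 ⟨⟨[(nat_lit 120), (nat_lit 140), (nat_lit 160)], [(nat_lit 0), (nat_lit 266), (nat_lit 862)], [((nat_lit 0), (nat_lit 0), (nat_lit 0)), ((nat_lit 960), (nat_lit 1000), (nat_lit 200)), ((nat_lit 874), (nat_lit 1000), (nat_lit 406))], ((nat_lit 100), (nat_lit 81), (nat_lit 51))⟩, (nat_lit 625411), (nat_lit 542), (nat_lit 542), (nat_lit 0), (nat_lit 491442), [(nat_lit 868512000), (nat_lit 1072778000), (nat_lit 1294048000)], [], [(nat_lit 3857056133), (nat_lit 3434748596), (nat_lit 5267547196), (nat_lit 3423267632), (nat_lit 7094260307), (nat_lit 5196238340), (nat_lit 9292158370), (nat_lit 7465093708)], (nat_lit 1271251), (nat_lit 1271251), (nat_lit 780000), (nat_lit 1762501), (nat_lit 0), (nat_lit 2825001), [(nat_lit 1695001), (nat_lit 1271251), (nat_lit 1271251)], [(nat_lit 27), (nat_lit 62), (nat_lit 456), (nat_lit 225), (nat_lit 12)]⟩,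
 ⟨⟨[(nat_lit 120), (nat_lit 140), (nat_lit 160)], [(nat_lit 0), (nat_lit 266), (nat_lit 862)], [((nat_lit 0), (nat_lit 0), (nat_lit 0)), ((nat_lit 960), (nat_lit 1000), (nat_lit 200)), ((nat_lit 874), (nat_lit 1000), (nat_lit 406))], ((nat_lit 100), (nat_lit 81), (nat_lit 51))⟩, (nat_lit 223737), (nat_lit 300), (nat_lit 851), (nat_lit 7237600), (nat_lit 1256520), [(nat_lit 868512000), (nat_lit 1072778000), (nat_lit 1294048000)], [], [(nat_lit 4931030311), (nat_lit 4845762748), (nat_lit 5053165669), (nat_lit 4986377939), (nat_lit 5133868535), (nat_lit 4076883905), (nat_lit 4354623583), (nat_lit 4346414399)], (nat_lit 1271251), (nat_lit 1271251), (nat_lit 1271251), (nat_lit 1271251), (nat_lit 0), (nat_lit 2825001), [(nat_lit 1695001), (nat_lit 1271251), (nat_lit 1271251)], [(nat_lit 27), (nat_lit 62), (nat_lit 483), (nat_lit 250), (nat_lit 12)]⟩⟩)) (.spl (nat_lit 5) (nat_lit 120) (.spl (nat_lit 0) (nat_lit 370) (.spl (nat_lit 6) (nat_lit 40) (.leaf ⟨(nat_lit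 917), (nat_lit 0), (nat_lit 0), (nat_lit 83), (nat_lit 0), (nat_lit 3123), (nat_lit 1059), (nat_lit 1088), (nat_lit 0), (nat_lit 161759), (nat_lit 348350), [((nat_lit 370), [((nat_lit 24), (nat_lit 0), (nat_lit 123)), ((nat_lit 24), (nat_lit 1), (nat_lit 794))])], ⟨(nat_lit 4), false, false, false, (nat_lit 192), (nat_lit 2738), (nat_lit 3163), [(nat_lit 1355914), (nat_lit 1359435), (nat_lit 1422342), (nat_lit 1426651), (nat_lit 1538797), (nat_lit 1536642), (nat_lit 1605257), (nat_lit 1603890)]⟩, ⟨(nat_lit 7), false, true, true, (nat_lit 266), (nat_lit 2738), (nat_lit 3163), [(nat_lit 1599750), (nat_lit 1595704), (nat_lit 1644060), (nat_lit 1640539), (nat_lit 1691180), (nat_lit 1684296), (nat_lit 1735490), (nat_lit 1729131)]⟩, (nat_lit 5222897), (nat_lit 38110743), (nat_lit 10767356), (nat_lit 18121901), (nat_lit 0), (nat_lit 0), [], [⟨(nat_lit 1), (nat_lit 83), (nat_lit 57), (nat_lit 100), (nat_lit 194199743)⟩], [], [⟨(nat_lit 0), (nat_lit 84), (nat_lit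 100), (nat_lit 47), (nat_lit 85386891)⟩],
 ⟨⟨[(nat_lit 40), (nat_lit 60), (nat_lit 80)], [(nat_lit 0), (nat_lit 832), (nat_lit 1534)], [((nat_lit 0), (nat_lit 0), (nat_lit 0)), ((nat_lit 1000), (nat_lit 659), (nat_lit 528)), ((nat_lit 1000), (nat_lit 650), (nat_lit 549))], ((nat_lit 63), (nat_lit 100), (nat_lit 62))⟩, (nat_lit 0), (nat_lit 116), (nat_lit 116), (nat_lit 0), (nat_lit 133261), [(nat_lit 1429525233), (nat_lit 1270183950), (nat_lit 1356686400)], [(nat_lit 0), (nat_lit 0), (nat_lit 0)], [(nat_lit 24071005641), (nat_lit 24618851651), (nat_lit 26039738209), (nat_lit 26501310968), (nat_lit 26527934282), (nat_lit 27008903997), (nat_lit 28178382859), (nat_lit 28601201647)], (nat_lit 1271251), (nat_lit 1271251), (nat_lit 780000), (nat_lit 1762501), (nat_lit 1271251), (nat_lit 1271251), [(nat_lit 490000), (nat_lit 780000), (nat_lit 1100000)], [(nat_lit 2), (nat_lit 44), (nat_lit 272), (nat_lit 60), (nat_lit 10)]⟩,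
 ⟨⟨[(nat_lit 120), (nat_lit 160), (nat_lit 180)], [(nat_lit 0), (nat_lit 533), (nat_lit 2066)], [((nat_lit 0), (nat_lit 0), (nat_lit 0)), ((nat_lit 960), (nat_lit 1000), (nat_lit 200)), ((nat_lit 615), (nat_lit 1000), (nat_lit 729))], ((nat_lit 100), (nat_lit 74), (nat_lit 60))⟩, (nat_lit 558103), (nat_lit 629), (nat_lit 629), (nat_lit 0), (nat_lit 494133), [(nat_lit 661344000), (nat_lit 985376000), (nat_lit 1166814000)], [], [(nat_lit 3056028251), (nat_lit 3034965305), (nat_lit 4003304686), (nat_lit 2934529218), (nat_lit 3093477298), (nat_lit 2259888756), (nat_lit 4473168243), (nat_lit 2965559428)], (nat_lit 1271251), (nat_lit 1271251), (nat_lit 780000), (nat_lit 1762501), (nat_lit 0), (nat_lit 780000), [(nat_lit 1695001), (nat_lit 1271251), (nat_lit 1271251)], [(nat_lit 28), (nat_lit 65), (nat_lit 373), (nat_lit 150), (nat_lit 9)]⟩,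
 ⟨⟨[(nat_lit 120), (nat_lit 160), (nat_lit 180)], [(nat_lit 0), (nat_lit 533), (nat_lit 2066)], [((nat_lit 0), (nat_lit 0), (nat_lit 0)), ((nat_lit 960), (nat_lit 1000), (nat_lit 200)), ((nat_lit 615), (nat_lit 1000), (nat_lit 729))], ((nat_lit 100), (nat_lit 74), (nat_lit 60))⟩, (nat_lit 194341), (nat_lit 300), (nat_lit 605), (nat_lit 5511202), (nat_lit 571143), [(nat_lit 661344000), (nat_lit 985376000), (nat_lit 1166814000)], [], [(nat_lit 4127246195), (nat_lit 4089207441), (nat_lit 4318605858), (nat_lit 4257824830), (nat_lit 3273123948), (nat_lit 3186781312), (nat_lit 3384689866), (nat_lit 3325859165)], (nat_lit 1271251), (nat_lit 1271251), (nat_lit 1271251), (nat_lit 1271251), (nat_lit 0), (nat_lit 780000), [(nat_lit 1695001), (nat_lit 1271251), (nat_lit 1271251)], [(nat_lit 28), (nat_lit 65), (nat_lit 401), (nat_lit 175), (nat_lit 9)]⟩⟩) (.spl (nat_lit 0) (nat_lit 365) (.leaf ⟨(nat_lit 759), (nat_lit 0), (nat_lit 0), (nat_lit 241), (nat_lit 4827),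 (nat_lit 3420), (nat_lit 2923), (nat_lit 2915), (nat_lit 0), (nat_lit 21427), (nat_lit 455400), [((nat_lit 365), [((nat_lit 41), (nat_lit 2), (nat_lit 759))])], ⟨(nat_lit 4), false, false, false, (nat_lit 192), (nat_lit 2958), (nat_lit 3163), [(nat_lit 1355932), (nat_lit 1357675), (nat_lit 1422389), (nat_lit 1424498), (nat_lit 1538797), (nat_lit 1537742), (nat_lit 1605261), (nat_lit 1604573)]⟩, ⟨(nat_lit 7), false, true, true, (nat_lit 267), (nat_lit 2958), (nat_lit 3163), [(nat_lit 1599750), (nat_lit 1597763), (nat_lit 1644060), (nat_lit 1642318), (nat_lit 1691180), (nat_lit 1687795), (nat_lit 1735490), (nat_lit 1732349)]⟩, (nat_lit 5224117), (nat_lit 38078253), (nat_lit 10751815), (nat_lit 18169932), (nat_lit 0), (nat_lit 0), [], [⟨(nat_lit 1), (nat_lit 81), (nat_lit 58), (nat_lit 100), (nat_lit 176695653)⟩], [], [],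
 ⟨⟨[(nat_lit 40), (nat_lit 80), (nat_lit 100)], [(nat_lit 0), (nat_lit 1598), (nat_lit 2533)], [((nat_lit 0), (nat_lit 0), (nat_lit 0)), ((nat_lit 1000), (nat_lit 625), (nat_lit 623)), ((nat_lit 1000), (nat_lit 604), (nat_lit 730))], ((nat_lit 61), (nat_lit 100), (nat_lit 68))⟩, (nat_lit 45609), (nat_lit 108), (nat_lit 108), (nat_lit 0), (nat_lit 39953), [(nat_lit 1443673609), (nat_lit 1284664335), (nat_lit 964020400)], [(nat_lit 0), (nat_lit 0), (nat_lit 0)], [(nat_lit 24010196022), (nat_lit 24278536056), (nat_lit 25801107720), (nat_lit 26092793480), (nat_lit 26812471270), (nat_lit 27114925353), (nat_lit 28335135890), (nat_lit 28588908427)], (nat_lit 1271251), (nat_lit 1271251), (nat_lit 780000), (nat_lit 1762501), (nat_lit 1271251), (nat_lit 1271251), [(nat_lit 490000), (nat_lit 1100000), (nat_lit 1442501)], [(nat_lit 3), (nat_lit 50), (nat_lit 272), (nat_lit 60), (nat_lit 9)]⟩,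
 ⟨⟨[(nat_lit 120), (nat_lit 160), (nat_lit 180)], [(nat_lit 0), (nat_lit 533), (nat_lit 2066)], [((nat_lit 0), (nat_lit 0), (nat_lit 0)), ((nat_lit 960), (nat_lit 1000), (nat_lit 200)), ((nat_lit 615), (nat_lit 1000), (nat_lit 729))], ((nat_lit 100), (nat_lit 67), (nat_lit 68))⟩, (nat_lit 924555), (nat_lit 420), (nat_lit 420), (nat_lit 0), (nat_lit 107257), [(nat_lit 1920288000), (nat_lit 2861152000), (nat_lit 3387978000)], [], [(nat_lit 9392115848), (nat_lit 9537989001), (nat_lit 11522583582), (nat_lit 9368728162), (nat_lit 9001677438), (nat_lit 7317924162), (nat_lit 12856629263), (nat_lit 8695401156)], (nat_lit 1271251), (nat_lit 1271251), (nat_lit 780000), (nat_lit 1762501), (nat_lit 0), (nat_lit 780000), [(nat_lit 1695001), (nat_lit 1271251), (nat_lit 1271251)], [(nat_lit 28), (nat_lit 65), (nat_lit 373), (nat_lit 150), (nat_lit 9)]⟩,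
 ⟨⟨[(nat_lit 120), (nat_lit 160), (nat_lit 180)], [(nat_lit 0), (nat_lit 533), (nat_lit 2066)], [((nat_lit 0), (nat_lit 0), (nat_lit 0)), ((nat_lit 960), (nat_lit 1000), (nat_lit 200)), ((nat_lit 615), (nat_lit 1000), (nat_lit 729))], ((nat_lit 100), (nat_lit 67), (nat_lit 68))⟩, (nat_lit 115374), (nat_lit 300), (nat_lit 405), (nat_lit 17497863), (nat_lit 157423), [(nat_lit 1920288000), (nat_lit 2861152000), (nat_lit 3387978000)], [], [(nat_lit 12590257072), (nat_lit 12503310567), (nat_lit 13129308504), (nat_lit 12980772245), (nat_lit 10236315579), (nat_lit 10119369449), (nat_lit 10657457306), (nat_lit 10513622287)], (nat_lit 1271251), (nat_lit 1271251), (nat_lit 1271251), (nat_lit 1271251), (nat_lit 0), (nat_lit 780000), [(nat_lit 1695001), (nat_lit 1271251), (nat_lit 1271251)], [(nat_lit 28), (nat_lit 65), (nat_lit 401), (nat_lit 175), (nat_lit 9)]⟩⟩) (.trX (nat_lit 4) (nat_lit 0) (nat_lit 2) (nat_lit 57) (nat_lit 77) (nat_lit 100) (nat_lit 330) (.leaf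 ⟨(nat_lit 853), (nat_lit 0), (nat_lit 0), (nat_lit 147), (nat_lit 0), (nat_lit 3568), (nat_lit 1721), (nat_lit 1733), (nat_lit 0), (nat_lit 10013), (nat_lit 213250), [((nat_lit 370), [((nat_lit 25), (nat_lit 0), (nat_lit 853))])], ⟨(nat_lit 4), false, false, false, (nat_lit 193), (nat_lit 2738), (nat_lit 2959), [(nat_lit 1357673), (nat_lit 1359452), (nat_lit 1424494), (nat_lit 1426694), (nat_lit 1537742), (nat_lit 1536642), (nat_lit 1604573), (nat_lit 1603893)]⟩, ⟨(nat_lit 7), false, true, true, (nat_lit 263), (nat_lit 2738), (nat_lit 2959), [(nat_lit 1597763), (nat_lit 1595704), (nat_lit 1642318), (nat_lit 1640539), (nat_lit 1672790), (nat_lit 1669530), (nat_lit 1717344), (nat_lit 1714365)]⟩, (nat_lit 5210371), (nat_lit 38358208), (nat_lit 10826245), (nat_lit 17815547), (nat_lit 0), (nat_lit 0), [], [⟨(nat_lit 1), (nat_lit 84), (nat_lit 55), (nat_lit 100), (nat_lit 199171135)⟩], [⟨(nat_lit 0), (nat_lit 100), (nat_lit 100), (nat_lit 5), (nat_lit 92913647)⟩],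 [⟨(nat_lit 0), (nat_lit 86), (nat_lit 100), (nat_lit 44), (nat_lit 29770906)⟩],
 ⟨⟨[(nat_lit 40), (nat_lit 60), (nat_lit 80)], [(nat_lit 0), (nat_lit 973), (nat_lit 1716)], [((nat_lit 0), (nat_lit 0), (nat_lit 0)), ((nat_lit 1000), (nat_lit 618), (nat_lit 574)), ((nat_lit 1000), (nat_lit 615), (nat_lit 581))], ((nat_lit 58), (nat_lit 100), (nat_lit 69))⟩, (nat_lit 111889), (nat_lit 97), (nat_lit 97), (nat_lit 0), (nat_lit 65003), [(nat_lit 1567690010), (nat_lit 1823382417), (nat_lit 2152542800)], [(nat_lit 0), (nat_lit 0), (nat_lit 0)], [(nat_lit 24644245250), (nat_lit 24934912823), (nat_lit 26472171174), (nat_lit 26715402646), (nat_lit 26780153294), (nat_lit 27054591977), (nat_lit 28251858772), (nat_lit 28516561587)], (nat_lit 1271251), (nat_lit 1271251), (nat_lit 780000), (nat_lit 1762501), (nat_lit 1271251), (nat_lit 1271251), [(nat_lit 490000), (nat_lit 780000), (nat_lit 1100000)], [(nat_lit 2), (nat_lit 44), (nat_lit 272), (nat_lit 60), (nat_lit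 10)]⟩,
 ⟨⟨[(nat_lit 120), (nat_lit 160), (nat_lit 180)], [(nat_lit 0), (nat_lit 533), (nat_lit 2066)], [((nat_lit 0), (nat_lit 0), (nat_lit 0)), ((nat_lit 960), (nat_lit 1000), (nat_lit 200)), ((nat_lit 615), (nat_lit 1000), (nat_lit 729))], ((nat_lit 100), (nat_lit 67), (nat_lit 68))⟩, (nat_lit 555604), (nat_lit 467), (nat_lit 467), (nat_lit 0), (nat_lit 200250), [(nat_lit 1171296000), (nat_lit 1745184000), (nat_lit 2066526000)], [], [(nat_lit 5760150742), (nat_lit 5853166182), (nat_lit 6986950154), (nat_lit 5766653160), (nat_lit 5498559893), (nat_lit 4555817240), (nat_lit 7788333328), (nat_lit 5338291052)], (nat_lit 1271251), (nat_lit 1271251), (nat_lit 780000), (nat_lit 1762501), (nat_lit 0), (nat_lit 780000), [(nat_lit 1695001), (nat_lit 1271251), (nat_lit 1271251)], [(nat_lit 28), (nat_lit 65), (nat_lit 373), (nat_lit 150), (nat_lit 9)]⟩,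
 ⟨⟨[(nat_lit 120), (nat_lit 160), (nat_lit 180)], [(nat_lit 0), (nat_lit 533), (nat_lit 2066)], [((nat_lit 0), (nat_lit 0), (nat_lit 0)), ((nat_lit 960), (nat_lit 1000), (nat_lit 200)), ((nat_lit 615), (nat_lit 1000), (nat_lit 729))], ((nat_lit 100), (nat_lit 67), (nat_lit 68))⟩, (nat_lit 70374), (nat_lit 300), (nat_lit 456), (nat_lit 10672967), (nat_lit 280754), [(nat_lit 1171296000), (nat_lit 1745184000), (nat_lit 2066526000)], [], [(nat_lit 7730121879), (nat_lit 7643515560), (nat_lit 7942041698), (nat_lit 7863353445), (nat_lit 6371397871), (nat_lit 6284902127), (nat_lit 6501766678), (nat_lit 6410476396)], (nat_lit 1271251), (nat_lit 1271251), (nat_lit 1271251), (nat_lit 1271251), (nat_lit 0), (nat_lit 780000), [(nat_lit 1695001), (nat_lit 1271251), (nat_lit 1271251)], [(nat_lit 28), (nat_lit 65), (nat_lit 401), (nat_lit 175), (nat_lit 9)]⟩⟩)))) (.trX (nat_lit 4) (nat_lit 0) (nat_lit 2) (nat_lit 53) (nat_lit 80) (nat_lit 100) (nat_lit 330) (.spl (nat_lit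 1) (nat_lit 220) (.leaf ⟨(nat_lit 940), (nat_lit 0), (nat_lit 0), (nat_lit 60), (nat_lit 0), (nat_lit 3458), (nat_lit 881), (nat_lit 765), (nat_lit 0), (nat_lit 4529620190258), (nat_lit 270100), [((nat_lit 380), [((nat_lit 25), (nat_lit 0), (nat_lit 706)), ((nat_lit 25), (nat_lit 1), (nat_lit 234))])], ⟨(nat_lit 4), false, false, false, (nat_lit 188), (nat_lit 2236), (nat_lit 2739), [(nat_lit 1359410), (nat_lit 1363145), (nat_lit 1404204), (nat_lit 1408652), (nat_lit 1536642), (nat_lit 1534240), (nat_lit 1581477), (nat_lit 1579788)]⟩, ⟨(nat_lit 7), false, true, true, (nat_lit 261), (nat_lit 2236), (nat_lit 2739), [(nat_lit 1595704), (nat_lit 1591255), (nat_lit 1640539), (nat_lit 1636804), (nat_lit 1669530), (nat_lit 1662525), (nat_lit 1714365), (nat_lit 1708073)]⟩, (nat_lit 5173517), (nat_lit 38715379), (nat_lit 10526014), (nat_lit 17758607), (nat_lit 0), (nat_lit 0), [], [⟨(nat_lit 1), (nat_lit 88), (nat_lit 48), (nat_lit 100), (nat_lit 283105738)⟩],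 [], [⟨(nat_lit 0), (nat_lit 86), (nat_lit 100), (nat_lit 44), (nat_lit 56636309)⟩],
 ⟨⟨[(nat_lit 40), (nat_lit 60), (nat_lit 80)], [(nat_lit 0), (nat_lit 1134), (nat_lit 1930)], [((nat_lit 0), (nat_lit 0), (nat_lit 0)), ((nat_lit 1000), (nat_lit 575), (nat_lit 619)), ((nat_lit 1000), (nat_lit 574), (nat_lit 622))], ((nat_lit 55), (nat_lit 100), (nat_lit 70))⟩, (nat_lit 0), (nat_lit 123), (nat_lit 123), (nat_lit 0), (nat_lit 158719), [(nat_lit 1510129784), (nat_lit 1400090290), (nat_lit 1715636000)], [(nat_lit 0), (nat_lit 0), (nat_lit 0)], [(nat_lit 25005304717), (nat_lit 25545112146), (nat_lit 26789207284), (nat_lit 27243155341), (nat_lit 26911233053), (nat_lit 27534659384), (nat_lit 28410025082), (nat_lit 28932618640)], (nat_lit 1271251), (nat_lit 1271251), (nat_lit 780000), (nat_lit 1762501), (nat_lit 1271251), (nat_lit 1271251), [(nat_lit 490000), (nat_lit 780000), (nat_lit 1100000)], [(nat_lit 2), (nat_lit 44), (nat_lit 272), (nat_lit 60), (nat_lit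 10)]⟩,
 ⟨⟨[(nat_lit 120), (nat_lit 160), (nat_lit 180)], [(nat_lit 0), (nat_lit 533), (nat_lit 2066)], [((nat_lit 0), (nat_lit 0), (nat_lit 0)), ((nat_lit 960), (nat_lit 1000), (nat_lit 200)), ((nat_lit 615), (nat_lit 1000), (nat_lit 729))], ((nat_lit 100), (nat_lit 67), (nat_lit 68))⟩, (nat_lit 259444), (nat_lit 757), (nat_lit 757), (nat_lit 0), (nat_lit 746934), [(nat_lit 478080000), (nat_lit 712320000), (nat_lit 843480000)], [], [(nat_lit 2275115164), (nat_lit 2256182624), (nat_lit 2971067402), (nat_lit 2187595422), (nat_lit 2221496429), (nat_lit 1597885235), (nat_lit 3333721636), (nat_lit 2497584799)], (nat_lit 1271251), (nat_lit 1271251), (nat_lit 780000), (nat_lit 1762501), (nat_lit 0), (nat_lit 780000), [(nat_lit 1695001), (nat_lit 1271251), (nat_lit 1271251)], [(nat_lit 28), (nat_lit 65), (nat_lit 373), (nat_lit 150), (nat_lit 9)]⟩,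
 ⟨⟨[(nat_lit 120), (nat_lit 160), (nat_lit 180)], [(nat_lit 0), (nat_lit 533), (nat_lit 2066)], [((nat_lit 0), (nat_lit 0), (nat_lit 0)), ((nat_lit 960), (nat_lit 1000), (nat_lit 200)), ((nat_lit 615), (nat_lit 1000), (nat_lit 729))], ((nat_lit 100), (nat_lit 67), (nat_lit 68))⟩, (nat_lit 140488), (nat_lit 300), (nat_lit 679), (nat_lit 3984000), (nat_lit 746934), [(nat_lit 478080000), (nat_lit 712320000), (nat_lit 843480000)], [], [(nat_lit 3019378935), (nat_lit 2964110273), (nat_lit 3094155377), (nat_lit 3055632396), (nat_lit 2421400808), (nat_lit 2361759173), (nat_lit 2443889419), (nat_lit 2406406962)], (nat_lit 1271251), (nat_lit 1271251), (nat_lit 1271251), (nat_lit 1271251), (nat_lit 0), (nat_lit 780000), [(nat_lit 1695001), (nat_lit 1271251), (nat_lit 1271251)], [(nat_lit 28), (nat_lit 65), (nat_lit 401), (nat_lit 175), (nat_lit 9)]⟩⟩) (.leaf ⟨(nat_lit 913), (nat_lit 0), (nat_lit 0), (nat_lit 87), (nat_lit 0), (nat_lit 3529), (nat_lit 1112), (nat_lit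 1099), (nat_lit 0), (nat_lit 0), (nat_lit 280000), [((nat_lit 380), [((nat_lit 25), (nat_lit 0), (nat_lit 568)), ((nat_lit 25), (nat_lit 1), (nat_lit 345))])], ⟨(nat_lit 5), false, false, false, (nat_lit 202), (nat_lit 2236), (nat_lit 2739), [(nat_lit 1404204), (nat_lit 1408652), (nat_lit 1426601), (nat_lit 1431406), (nat_lit 1581477), (nat_lit 1579788), (nat_lit 1603890), (nat_lit 1602558)]⟩, ⟨(nat_lit 7), false, true, true, (nat_lit 261), (nat_lit 2236), (nat_lit 2739), [(nat_lit 1595704), (nat_lit 1591255), (nat_lit 1640539), (nat_lit 1636804), (nat_lit 1669530), (nat_lit 1662525), (nat_lit 1714365), (nat_lit 1708073)]⟩, (nat_lit 5269304), (nat_lit 37928454), (nat_lit 11577592), (nat_lit 17493954), (nat_lit 0), (nat_lit 0), [⟨(nat_lit 0), (nat_lit 100), (nat_lit 49), (nat_lit 95), (nat_lit 55537026)⟩], [⟨(nat_lit 1), (nat_lit 88), (nat_lit 48), (nat_lit 100), (nat_lit 355486469)⟩], [⟨(nat_lit 0), (nat_lit 100), (nat_lit 99), (nat_lit 15), (nat_lit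 122647320)⟩], [],
 ⟨⟨[(nat_lit 40), (nat_lit 60), (nat_lit 80)], [(nat_lit 0), (nat_lit 1134), (nat_lit 1930)], [((nat_lit 0), (nat_lit 0), (nat_lit 0)), ((nat_lit 1000), (nat_lit 575), (nat_lit 619)), ((nat_lit 1000), (nat_lit 574), (nat_lit 622))], ((nat_lit 55), (nat_lit 100), (nat_lit 70))⟩, (nat_lit 0), (nat_lit 128), (nat_lit 128), (nat_lit 0), (nat_lit 181555), [(nat_lit 1501258003), (nat_lit 1410254853), (nat_lit 1711308800)], [(nat_lit 0), (nat_lit 0), (nat_lit 0)], [(nat_lit 24865319081), (nat_lit 25409995095), (nat_lit 26633816964), (nat_lit 27091411493), (nat_lit 27003515325), (nat_lit 27633482917), (nat_lit 28478789554), (nat_lit 29005779995)], (nat_lit 1271251), (nat_lit 1271251), (nat_lit 780000), (nat_lit 1762501), (nat_lit 1271251), (nat_lit 1271251), [(nat_lit 490000), (nat_lit 780000), (nat_lit 1100000)], [(nat_lit 2), (nat_lit 44), (nat_lit 272), (nat_lit 60), (nat_lit 10)]⟩,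
 ⟨⟨[(nat_lit 100), (nat_lit 140), (nat_lit 160)], [(nat_lit 0), (nat_lit 508), (nat_lit 1689)], [((nat_lit 0), (nat_lit 0), (nat_lit 0)), ((nat_lit 1000), (nat_lit 1000), (nat_lit 198)), ((nat_lit 811), (nat_lit 1000), (nat_lit 671))], ((nat_lit 100), (nat_lit 81), (nat_lit 68))⟩, (nat_lit 10906), (nat_lit 547), (nat_lit 547), (nat_lit 0), (nat_lit 525597), [(nat_lit 543750000), (nat_lit 856254000), (nat_lit 1032864000)], [], [(nat_lit 3947667228), (nat_lit 3424873668), (nat_lit 3284299861), (nat_lit 3280849402), (nat_lit 2647142530), (nat_lit 2654237635), (nat_lit 2751992172), (nat_lit 2503712988)], (nat_lit 1271251), (nat_lit 1271251), (nat_lit 780000), (nat_lit 1762501), (nat_lit 0), (nat_lit 780000), [(nat_lit 1412501), (nat_lit 1271251), (nat_lit 1271251)], [(nat_lit 23), (nat_lit 62), (nat_lit 373), (nat_lit 150), (nat_lit 10)]⟩,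
 ⟨⟨[(nat_lit 120), (nat_lit 160), (nat_lit 180)], [(nat_lit 0), (nat_lit 533), (nat_lit 2066)], [((nat_lit 0), (nat_lit 0), (nat_lit 0)), ((nat_lit 960), (nat_lit 1000), (nat_lit 200)), ((nat_lit 615), (nat_lit 1000), (nat_lit 729))], ((nat_lit 100), (nat_lit 67), (nat_lit 68))⟩, (nat_lit 203707), (nat_lit 300), (nat_lit 727), (nat_lit 5776802), (nat_lit 821538), [(nat_lit 693216000), (nat_lit 1032864000), (nat_lit 1223046000)], [], [(nat_lit 4395241273), (nat_lit 4308465082), (nat_lit 4488919321), (nat_lit 4434199786), (nat_lit 3537383049), (nat_lit 3452225143), (nat_lit 3558738994), (nat_lit 3502817129)], (nat_lit 1271251), (nat_lit 1271251), (nat_lit 1271251), (nat_lit 1271251), (nat_lit 0), (nat_lit 780000), [(nat_lit 1695001), (nat_lit 1271251), (nat_lit 1271251)], [(nat_lit 28), (nat_lit 65), (nat_lit 401), (nat_lit 175), (nat_lit 9)]⟩⟩)))) (.leaf ⟨(nat_lit 916), (nat_lit 0), (nat_lit 0), (nat_lit 84), (nat_lit 0), (nat_lit 3470), (nat_lit 803),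 (nat_lit 998), (nat_lit 0), (nat_lit 218770), (nat_lit 433800), [((nat_lit 380), [((nat_lit 25), (nat_lit 1), (nat_lit 579)), ((nat_lit 41), (nat_lit 2), (nat_lit 337))])], ⟨(nat_lit 4), false, false, false, (nat_lit 193), (nat_lit 2236), (nat_lit 3163), [(nat_lit 1355794), (nat_lit 1363050), (nat_lit 1422068), (nat_lit 1431182), (nat_lit 1538797), (nat_lit 1534240), (nat_lit 1605240), (nat_lit 1602541)]⟩, ⟨(nat_lit 7), false, true, true, (nat_lit 265), (nat_lit 2236), (nat_lit 3163), [(nat_lit 1599750), (nat_lit 1591255), (nat_lit 1644060), (nat_lit 1636804), (nat_lit 1691180), (nat_lit 1676779), (nat_lit 1735490), (nat_lit 1722327)]⟩, (nat_lit 5220101), (nat_lit 38181159), (nat_lit 10798930), (nat_lit 18019911), (nat_lit 0), (nat_lit 0), [], [⟨(nat_lit 1), (nat_lit 85), (nat_lit 53), (nat_lit 100), (nat_lit 358730652)⟩], [], [],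
 ⟨⟨[(nat_lit 40), (nat_lit 80), (nat_lit 100)], [(nat_lit 0), (nat_lit 1598), (nat_lit 2533)], [((nat_lit 0), (nat_lit 0), (nat_lit 0)), ((nat_lit 1000), (nat_lit 625), (nat_lit 623)), ((nat_lit 1000), (nat_lit 604), (nat_lit 730))], ((nat_lit 61), (nat_lit 100), (nat_lit 68))⟩, (nat_lit 0), (nat_lit 153), (nat_lit 153), (nat_lit 0), (nat_lit 183970), [(nat_lit 1387654435), (nat_lit 928244971), (nat_lit 814148000)], [(nat_lit 0), (nat_lit 0), (nat_lit 0)], [(nat_lit 24020057020), (nat_lit 25240633805), (nat_lit 25837343520), (nat_lit 27011605910), (nat_lit 26877439695), (nat_lit 28095135350), (nat_lit 28383159865), (nat_lit 29404174998)], (nat_lit 1271251), (nat_lit 1271251), (nat_lit 780000), (nat_lit 1762501), (nat_lit 1271251), (nat_lit 1271251), [(nat_lit 490000), (nat_lit 1100000), (nat_lit 1442501)], [(nat_lit 3), (nat_lit 50), (nat_lit 272), (nat_lit 60), (nat_lit 9)]⟩,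
 ⟨⟨[(nat_lit 120), (nat_lit 160), (nat_lit 180)], [(nat_lit 0), (nat_lit 533), (nat_lit 2066)], [((nat_lit 0), (nat_lit 0), (nat_lit 0)), ((nat_lit 960), (nat_lit 1000), (nat_lit 200)), ((nat_lit 615), (nat_lit 1000), (nat_lit 729))], ((nat_lit 100), (nat_lit 67), (nat_lit 68))⟩, (nat_lit 180256), (nat_lit 652), (nat_lit 652), (nat_lit 0), (nat_lit 761780), [(nat_lit 669312000), (nat_lit 997248000), (nat_lit 1180872000)], [], [(nat_lit 4890460052), (nat_lit 3586178669), (nat_lit 3474951591), (nat_lit 3435254226), (nat_lit 3815120475), (nat_lit 3686035450), (nat_lit 4977340326), (nat_lit 3849798240)], (nat_lit 1271251), (nat_lit 1271251), (nat_lit 780000), (nat_lit 1762501), (nat_lit 780000), (nat_lit 3072501), [(nat_lit 1695001), (nat_lit 1271251), (nat_lit 1271251)], [(nat_lit 28), (nat_lit 65), (nat_lit 456), (nat_lit 225), (nat_lit 10)]⟩,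
 ⟨⟨[(nat_lit 120), (nat_lit 160), (nat_lit 180)], [(nat_lit 0), (nat_lit 533), (nat_lit 2066)], [((nat_lit 0), (nat_lit 0), (nat_lit 0)), ((nat_lit 960), (nat_lit 1000), (nat_lit 200)), ((nat_lit 615), (nat_lit 1000), (nat_lit 729))], ((nat_lit 100), (nat_lit 67), (nat_lit 68))⟩, (nat_lit 196683), (nat_lit 300), (nat_lit 788), (nat_lit 5577600), (nat_lit 1173469), [(nat_lit 669312000), (nat_lit 997248000), (nat_lit 1180872000)], [], [(nat_lit 3577630224), (nat_lit 3503550468), (nat_lit 3617136506), (nat_lit 3531963470), (nat_lit 3461820460), (nat_lit 3375222428), (nat_lit 3490090555), (nat_lit 3406906461)], (nat_lit 1271251), (nat_lit 1271251), (nat_lit 1271251), (nat_lit 1271251), (nat_lit 780000), (nat_lit 3072501), [(nat_lit 1695001), (nat_lit 1271251), (nat_lit 1271251)], [(nat_lit 28), (nat_lit 65), (nat_lit 483), (nat_lit 250), (nat_lit 11)]⟩⟩))))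
noncomputable def c16_37 : Tr Lf :=
 (.ord (.stt (nat_lit 2) (.leaf ⟨(nat_lit 35), (nat_lit 571), (nat_lit 0), (nat_lit 394), (nat_lit 0), (nat_lit 3956), (nat_lit 10510), (nat_lit 3674), (nat_lit 0), (nat_lit 2641192105687), (nat_lit 140000), [((nat_lit 380), [((nat_lit 41), (nat_lit 5), (nat_lit 35))])], ⟨(nat_lit 5), true, false, false, (nat_lit 202), (nat_lit 2236), (nat_lit 3163), [(nat_lit 1399976), (nat_lit 1408471), (nat_lit 1422068), (nat_lit 1431182), (nat_lit 1583107), (nat_lit 1579788), (nat_lit 1605240), (nat_lit 1602541)]⟩, ⟨(nat_lit 7), false, true, true, (nat_lit 281), (nat_lit 2236), (nat_lit 3163), [(nat_lit 1644060), (nat_lit 1636804), (nat_lit 1666215), (nat_lit 1659578), (nat_lit 1750729), (nat_lit 1736581), (nat_lit 1772883), (nat_lit 1759355)]⟩, (nat_lit 5336392), (nat_lit 36514197), (nat_lit 11235782), (nat_lit 19250021), (nat_lit 7), (nat_lit 0), [⟨(nat_lit 0), (nat_lit 100), (nat_lit 53), (nat_lit 93), (nat_lit 582288326)⟩],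 [⟨(nat_lit 1), (nat_lit 77), (nat_lit 53), (nat_lit 100), (nat_lit 247706779)⟩], [], [],
 ⟨⟨[(nat_lit 40), (nat_lit 80), (nat_lit 100)], [(nat_lit 0), (nat_lit 1598), (nat_lit 2533)], [((nat_lit 0), (nat_lit 0), (nat_lit 0)), ((nat_lit 1000), (nat_lit 625), (nat_lit 623)), ((nat_lit 1000), (nat_lit 604), (nat_lit 730))], ((nat_lit 61), (nat_lit 100), (nat_lit 68))⟩, (nat_lit 1667166), (nat_lit 225), (nat_lit 225), (nat_lit 0), (nat_lit 380740), [(nat_lit 1896298015), (nat_lit 3992158682), (nat_lit 5059300000)], [(nat_lit 0), (nat_lit 0), (nat_lit 0)], [(nat_lit 24728522719), (nat_lit 25807579007), (nat_lit 26554108720), (nat_lit 27548410178), (nat_lit 28120203201), (nat_lit 29378614963), (nat_lit 29360994577), (nat_lit 30411339258)], (nat_lit 1271251), (nat_lit 1271251), (nat_lit 780000), (nat_lit 1762501), (nat_lit 1271251), (nat_lit 1271251), [(nat_lit 490000), (nat_lit 1100000), (nat_lit 1442501)], [(nat_lit 3), (nat_lit 50), (nat_lit 272), (nat_lit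 60), (nat_lit 9)]⟩,
 ⟨⟨[(nat_lit 100), (nat_lit 140), (nat_lit 160)], [(nat_lit 0), (nat_lit 508), (nat_lit 1689)], [((nat_lit 0), (nat_lit 0), (nat_lit 0)), ((nat_lit 1000), (nat_lit 1000), (nat_lit 198)), ((nat_lit 811), (nat_lit 1000), (nat_lit 671))], ((nat_lit 100), (nat_lit 81), (nat_lit 68))⟩, (nat_lit 6815319), (nat_lit 210), (nat_lit 210), (nat_lit 0), (nat_lit 0), [(nat_lit 6031250000), (nat_lit 9497530000), (nat_lit 11456480000)], [], [(nat_lit 19704031651), (nat_lit 21061397328), (nat_lit 23610608428), (nat_lit 24573492548), (nat_lit 32476726590), (nat_lit 32941938650), (nat_lit 32329125360), (nat_lit 32605924700)], (nat_lit 0), (nat_lit 0), (nat_lit 0), (nat_lit 0), (nat_lit 0), (nat_lit 0), [], [(nat_lit 23), (nat_lit 62), (nat_lit 456), (nat_lit 225), (nat_lit 12)]⟩,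
 ⟨⟨[(nat_lit 100), (nat_lit 140), (nat_lit 160)], [(nat_lit 0), (nat_lit 508), (nat_lit 1689)], [((nat_lit 0), (nat_lit 0), (nat_lit 0)), ((nat_lit 1000), (nat_lit 1000), (nat_lit 198)), ((nat_lit 811), (nat_lit 1000), (nat_lit 671))], ((nat_lit 100), (nat_lit 81), (nat_lit 68))⟩, (nat_lit 846945), (nat_lit 300), (nat_lit 1020), (nat_lit 24625000), (nat_lit 1671650), [(nat_lit 2462500000), (nat_lit 3877748000), (nat_lit 4677568000)], [], [(nat_lit 19770443183), (nat_lit 19602145400), (nat_lit 19583942005), (nat_lit 19404238483), (nat_lit 15823978057), (nat_lit 15658104504), (nat_lit 15823348598), (nat_lit 15699338484)], (nat_lit 1271251), (nat_lit 1271251), (nat_lit 1271251), (nat_lit 1271251), (nat_lit 0), (nat_lit 2825001), [(nat_lit 1412501), (nat_lit 1271251), (nat_lit 1271251)], [(nat_lit 23), (nat_lit 62), (nat_lit 483), (nat_lit 250), (nat_lit 12)]⟩⟩) (.spl (nat_lit 4) (nat_lit 320) (.leaf ⟨(nat_lit 894), (nat_lit 0), (nat_lit 0), (nat_lit 106),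 (nat_lit 0), (nat_lit 3045), (nat_lit 1101), (nat_lit 1129), (nat_lit 0), (nat_lit 1772851339741), (nat_lit 511550), [((nat_lit 380), [((nat_lit 25), (nat_lit 0), (nat_lit 71)), ((nat_lit 41), (nat_lit 2), (nat_lit 823))])], ⟨(nat_lit 5), false, false, false, (nat_lit 202), (nat_lit 2236), (nat_lit 3163), [(nat_lit 1399976), (nat_lit 1408471), (nat_lit 1422068), (nat_lit 1431182), (nat_lit 1583107), (nat_lit 1579788), (nat_lit 1605240), (nat_lit 1602541)]⟩, ⟨(nat_lit 7), false, true, true, (nat_lit 272), (nat_lit 2236), (nat_lit 3163), [(nat_lit 1644060), (nat_lit 1636804), (nat_lit 1666215), (nat_lit 1659578), (nat_lit 1705013), (nat_lit 1693819), (nat_lit 1727168), (nat_lit 1716594)]⟩, (nat_lit 5308981), (nat_lit 37133350), (nat_lit 11374943), (nat_lit 18491707), (nat_lit 0), (nat_lit 0), [⟨(nat_lit 0), (nat_lit 100), (nat_lit 53), (nat_lit 93), (nat_lit 39102594)⟩], [], [⟨(nat_lit 0), (nat_lit 100), (nat_lit 100), (nat_lit 30), (nat_lit 36016637)⟩],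 [],
 ⟨⟨[(nat_lit 40), (nat_lit 80), (nat_lit 100)], [(nat_lit 0), (nat_lit 1598), (nat_lit 2533)], [((nat_lit 0), (nat_lit 0), (nat_lit 0)), ((nat_lit 1000), (nat_lit 625), (nat_lit 623)), ((nat_lit 1000), (nat_lit 604), (nat_lit 730))], ((nat_lit 61), (nat_lit 100), (nat_lit 68))⟩, (nat_lit 39840), (nat_lit 155), (nat_lit 155), (nat_lit 0), (nat_lit 212024), [(nat_lit 1365016811), (nat_lit 711592343), (nat_lit 224926800)], [(nat_lit 0), (nat_lit 0), (nat_lit 0)], [(nat_lit 24039447977), (nat_lit 25005449092), (nat_lit 25954136558), (nat_lit 26901165296), (nat_lit 25412176372), (nat_lit 26444851981), (nat_lit 27293988583), (nat_lit 28168682828)], (nat_lit 1271251), (nat_lit 1271251), (nat_lit 780000), (nat_lit 1762501), (nat_lit 1271251), (nat_lit 1271251), [(nat_lit 490000), (nat_lit 1100000), (nat_lit 1442501)], [(nat_lit 3), (nat_lit 50), (nat_lit 272), (nat_lit 60), (nat_lit 9)]⟩,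
 ⟨⟨[(nat_lit 100), (nat_lit 140), (nat_lit 160)], [(nat_lit 0), (nat_lit 508), (nat_lit 1689)], [((nat_lit 0), (nat_lit 0), (nat_lit 0)), ((nat_lit 1000), (nat_lit 1000), (nat_lit 198)), ((nat_lit 811), (nat_lit 1000), (nat_lit 671))], ((nat_lit 100), (nat_lit 81), (nat_lit 68))⟩, (nat_lit 283731), (nat_lit 864), (nat_lit 864), (nat_lit 0), (nat_lit 1183000), [(nat_lit 662500000), (nat_lit 1043252000), (nat_lit 1258432000)], [], [(nat_lit 4554087232), (nat_lit 3996051706), (nat_lit 3847012513), (nat_lit 3837315472), (nat_lit 4439282990), (nat_lit 3930706868), (nat_lit 6203468697), (nat_lit 5714434224)], (nat_lit 1271251), (nat_lit 1271251), (nat_lit 780000), (nat_lit 1762501), (nat_lit 0), (nat_lit 2825001), [(nat_lit 1412501), (nat_lit 1271251), (nat_lit 1271251)], [(nat_lit 23), (nat_lit 62), (nat_lit 456), (nat_lit 225), (nat_lit 12)]⟩,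
 ⟨⟨[(nat_lit 100), (nat_lit 140), (nat_lit 160)], [(nat_lit 0), (nat_lit 508), (nat_lit 1689)], [((nat_lit 0), (nat_lit 0), (nat_lit 0)), ((nat_lit 1000), (nat_lit 1000), (nat_lit 198)), ((nat_lit 811), (nat_lit 1000), (nat_lit 671))], ((nat_lit 100), (nat_lit 81), (nat_lit 68))⟩, (nat_lit 227858), (nat_lit 300), (nat_lit 805), (nat_lit 6625001), (nat_lit 1183000), [(nat_lit 662500000), (nat_lit 1043252000), (nat_lit 1258432000)], [], [(nat_lit 4682490916), (nat_lit 4645472732), (nat_lit 4717911495), (nat_lit 4693114744), (nat_lit 3900770826), (nat_lit 3866788986), (nat_lit 3972668022), (nat_lit 3978920476)], (nat_lit 1271251), (nat_lit 1271251), (nat_lit 1271251), (nat_lit 1271251), (nat_lit 0), (nat_lit 2825001), [(nat_lit 1412501), (nat_lit 1271251), (nat_lit 1271251)], [(nat_lit 23), (nat_lit 62), (nat_lit 483), (nat_lit 250), (nat_lit 12)]⟩⟩) (.trX (nat_lit 5) (nat_lit 4) (nat_lit 3) (nat_lit 82) (nat_lit 44) (nat_lit 100) (nat_lit 390) (.leaf ⟨(nat_lit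 864), (nat_lit 0), (nat_lit 0), (nat_lit 136), (nat_lit 0), (nat_lit 3075), (nat_lit 1422), (nat_lit 1423), (nat_lit 0), (nat_lit 6183228753648), (nat_lit 489700), [((nat_lit 380), [((nat_lit 25), (nat_lit 0), (nat_lit 82)), ((nat_lit 41), (nat_lit 2), (nat_lit 782))])], ⟨(nat_lit 5), false, false, false, (nat_lit 202), (nat_lit 2236), (nat_lit 3163), [(nat_lit 1399976), (nat_lit 1408471), (nat_lit 1422068), (nat_lit 1431182), (nat_lit 1583107), (nat_lit 1579788), (nat_lit 1605240), (nat_lit 1602541)]⟩, ⟨(nat_lit 8), false, true, true, (nat_lit 293), (nat_lit 2236), (nat_lit 3163), [(nat_lit 1705013), (nat_lit 1693819), (nat_lit 1727168), (nat_lit 1716594), (nat_lit 1750729), (nat_lit 1736581), (nat_lit 1772883), (nat_lit 1759355)]⟩, (nat_lit 5366899), (nat_lit 35696690), (nat_lit 11047840), (nat_lit 20255470), (nat_lit 0), (nat_lit 0), [⟨(nat_lit 0), (nat_lit 100), (nat_lit 53), (nat_lit 93), (nat_lit 36604319)⟩], [⟨(nat_lit 1), (nat_lit 77), (nat_lit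 53), (nat_lit 100), (nat_lit 380971206)⟩], [⟨(nat_lit 0), (nat_lit 100), (nat_lit 100), (nat_lit 30), (nat_lit 55034853)⟩], [],
 ⟨⟨[(nat_lit 40), (nat_lit 80), (nat_lit 100)], [(nat_lit 0), (nat_lit 1598), (nat_lit 2533)], [((nat_lit 0), (nat_lit 0), (nat_lit 0)), ((nat_lit 1000), (nat_lit 625), (nat_lit 623)), ((nat_lit 1000), (nat_lit 604), (nat_lit 730))], ((nat_lit 61), (nat_lit 100), (nat_lit 68))⟩, (nat_lit 123408), (nat_lit 164), (nat_lit 164), (nat_lit 0), (nat_lit 212024), [(nat_lit 1382044851), (nat_lit 890976556), (nat_lit 465015200)], [(nat_lit 0), (nat_lit 0), (nat_lit 0)], [(nat_lit 25424690888), (nat_lit 26483499988), (nat_lit 27299828803), (nat_lit 28177629878), (nat_lit 26912085919), (nat_lit 28037707194), (nat_lit 28506322660), (nat_lit 29417996891)], (nat_lit 1271251), (nat_lit 1271251), (nat_lit 780000), (nat_lit 1762501), (nat_lit 1271251), (nat_lit 1271251), [(nat_lit 490000), (nat_lit 1100000), (nat_lit 1442501)], [(nat_lit 3),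 (nat_lit 50), (nat_lit 272), (nat_lit 60), (nat_lit 8)]⟩,
 ⟨⟨[(nat_lit 100), (nat_lit 140), (nat_lit 160)], [(nat_lit 0), (nat_lit 508), (nat_lit 1689)], [((nat_lit 0), (nat_lit 0), (nat_lit 0)), ((nat_lit 1000), (nat_lit 1000), (nat_lit 198)), ((nat_lit 811), (nat_lit 1000), (nat_lit 671))], ((nat_lit 100), (nat_lit 81), (nat_lit 68))⟩, (nat_lit 366332), (nat_lit 864), (nat_lit 864), (nat_lit 0), (nat_lit 1183000), [(nat_lit 850000000), (nat_lit 1338512000), (nat_lit 1614592000)], [], [(nat_lit 5852445053), (nat_lit 5095545380), (nat_lit 4901485490), (nat_lit 4888635728), (nat_lit 5586665729), (nat_lit 4927570062), (nat_lit 7848852899), (nat_lit 7215173971)], (nat_lit 1271251), (nat_lit 1271251), (nat_lit 780000), (nat_lit 1762501), (nat_lit 0), (nat_lit 2754376), [(nat_lit 1412501), (nat_lit 1271251), (nat_lit 1271251)], [(nat_lit 23), (nat_lit 62), (nat_lit 456), (nat_lit 225), (nat_lit 12)]⟩,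
 ⟨⟨[(nat_lit 100), (nat_lit 140), (nat_lit 160)], [(nat_lit 0), (nat_lit 508), (nat_lit 1689)], [((nat_lit 0), (nat_lit 0), (nat_lit 0)), ((nat_lit 1000), (nat_lit 1000), (nat_lit 198)), ((nat_lit 811), (nat_lit 1000), (nat_lit 671))], ((nat_lit 100), (nat_lit 81), (nat_lit 68))⟩, (nat_lit 292346), (nat_lit 300), (nat_lit 790), (nat_lit 8500002), (nat_lit 1183000), [(nat_lit 850000000), (nat_lit 1338512000), (nat_lit 1614592000)], [], [(nat_lit 6101799102), (nat_lit 6071284384), (nat_lit 6232095147), (nat_lit 6195077134), (nat_lit 5045978842), (nat_lit 5000133814), (nat_lit 5254313856), (nat_lit 5255265121)], (nat_lit 1271251), (nat_lit 1271251), (nat_lit 1271251), (nat_lit 1271251), (nat_lit 0), (nat_lit 2754376), [(nat_lit 1412501), (nat_lit 1271251), (nat_lit 1271251)], [(nat_lit 23), (nat_lit 62), (nat_lit 401), (nat_lit 175), (nat_lit 10)]⟩⟩)))))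
noncomputable def c16_38 : Tr Lf :=
 (.spl (nat_lit 1) (nat_lit 220) (.ord (.trX (nat_lit 3) (nat_lit 0) (nat_lit 1) (nat_lit 60) (nat_lit 74) (nat_lit 100) (nat_lit 340) (.trX (nat_lit 4) (nat_lit 0) (nat_lit 2) (nat_lit 60) (nat_lit 74) (nat_lit 100) (nat_lit 340) (.spl (nat_lit 2) (nat_lit 200) (.trX (nat_lit 4) (nat_lit 0) (nat_lit 2) (nat_lit 60) (nat_lit 80) (nat_lit 100) (nat_lit 320) (.leaf ⟨(nat_lit 917), (nat_lit 5), (nat_lit 0), (nat_lit 78), (nat_lit 0), (nat_lit 2853), (nat_lit 893), (nat_lit 865), (nat_lit 0), (nat_lit 12668), (nat_lit 430200), [((nat_lit 380), [((nat_lit 25), (nat_lit 1), (nat_lit 600)), ((nat_lit 41), (nat_lit 2), (nat_lit 317))])], ⟨(nat_lit 6), false, true, true, (nat_lit 253), (nat_lit 2236), (nat_lit 3163), [(nat_lit 1538797), (nat_lit 1534240), (nat_lit 1583107), (nat_lit 1579788), (nat_lit 1691180), (nat_lit 1676779), (nat_lit 1735490), (nat_lit 1722327)]⟩, ⟨(nat_lit 5), false, true, true, (nat_lit 231), (nat_lit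 2236), (nat_lit 3163), [(nat_lit 1477844), (nat_lit 1477224), (nat_lit 1499999), (nat_lit 1499999), (nat_lit 1660704), (nat_lit 1648271), (nat_lit 1682859), (nat_lit 1671045)]⟩, (nat_lit 5410046), (nat_lit 36743103), (nat_lit 16249195), (nat_lit 14007702), (nat_lit 5), (nat_lit 0), [⟨(nat_lit 1), (nat_lit 85), (nat_lit 53), (nat_lit 100), (nat_lit 80004740)⟩], [⟨(nat_lit 1), (nat_lit 88), (nat_lit 53), (nat_lit 100), (nat_lit 2421505)⟩], [], [⟨(nat_lit 0), (nat_lit 100), (nat_lit 94), (nat_lit 73), (nat_lit 111941604)⟩],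
 ⟨⟨[(nat_lit 40), (nat_lit 80), (nat_lit 100)], [(nat_lit 0), (nat_lit 1598), (nat_lit 2533)], [((nat_lit 0), (nat_lit 0), (nat_lit 0)), ((nat_lit 1000), (nat_lit 625), (nat_lit 623)), ((nat_lit 1000), (nat_lit 604), (nat_lit 730))], ((nat_lit 61), (nat_lit 100), (nat_lit 68))⟩, (nat_lit 0), (nat_lit 71), (nat_lit 71), (nat_lit 0), (nat_lit 0), [(nat_lit 1388998802), (nat_lit 944526406), (nat_lit 841405200)], [(nat_lit 0), (nat_lit 0), (nat_lit 0)], [(nat_lit 23735702429), (nat_lit 24757896717), (nat_lit 27244398502), (nat_lit 28161178118), (nat_lit 27190748626), (nat_lit 28084717859), (nat_lit 30243545238), (nat_lit 30990322399)], (nat_lit 0), (nat_lit 0), (nat_lit 0), (nat_lit 0), (nat_lit 0), (nat_lit 0), [], [(nat_lit 3), (nat_lit 50), (nat_lit 203), (nat_lit 0), (nat_lit 6)]⟩,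
 ⟨⟨[(nat_lit 120), (nat_lit 160), (nat_lit 180)], [(nat_lit 0), (nat_lit 533), (nat_lit 2066)], [((nat_lit 0), (nat_lit 0), (nat_lit 0)), ((nat_lit 960), (nat_lit 1000), (nat_lit 200)), ((nat_lit 615), (nat_lit 1000), (nat_lit 729))], ((nat_lit 100), (nat_lit 67), (nat_lit 68))⟩, (nat_lit 889790), (nat_lit 1099), (nat_lit 1099), (nat_lit 0), (nat_lit 1628686), [(nat_lit 661344000), (nat_lit 985376000), (nat_lit 1166814000)], [], [(nat_lit 2647065390), (nat_lit 2680268466), (nat_lit 3052308231), (nat_lit 3107522645), (nat_lit 2411400350), (nat_lit 2118246520), (nat_lit 2346558514), (nat_lit 2337208564)], (nat_lit 1271251), (nat_lit 1271251), (nat_lit 1271251), (nat_lit 1271251), (nat_lit 0), (nat_lit 780000), [(nat_lit 1695001), (nat_lit 1271251), (nat_lit 1271251)], [(nat_lit 28), (nat_lit 65), (nat_lit 401), (nat_lit 175), (nat_lit 9)]⟩,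
 ⟨⟨[(nat_lit 120), (nat_lit 160), (nat_lit 180)], [(nat_lit 0), (nat_lit 533), (nat_lit 2066)], [((nat_lit 0), (nat_lit 0), (nat_lit 0)), ((nat_lit 960), (nat_lit 1000), (nat_lit 200)), ((nat_lit 615), (nat_lit 1000), (nat_lit 729))], ((nat_lit 100), (nat_lit 67), (nat_lit 68))⟩, (nat_lit 182634), (nat_lit 300), (nat_lit 1121), (nat_lit 5179201), (nat_lit 1640217), [(nat_lit 621504000), (nat_lit 926016000), (nat_lit 1096524000)], [], [(nat_lit 4251756476), (nat_lit 4212916745), (nat_lit 4158577453), (nat_lit 4124324962), (nat_lit 3631802627), (nat_lit 3593613647), (nat_lit 3500019048), (nat_lit 3458438690)], (nat_lit 1271251), (nat_lit 1271251), (nat_lit 1271251), (nat_lit 1271251), (nat_lit 0), (nat_lit 780000), [(nat_lit 1695001), (nat_lit 1271251), (nat_lit 1271251)], [(nat_lit 28), (nat_lit 65), (nat_lit 401), (nat_lit 175), (nat_lit 9)]⟩⟩)) (.ord (.leaf ⟨(nat_lit 919), (nat_lit 0), (nat_lit 0), (nat_lit 81), (nat_lit 0), (nat_lit 2888), (nat_lit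 1003), (nat_lit 998), (nat_lit 0), (nat_lit 139274111782), (nat_lit 515000), [((nat_lit 380), [((nat_lit 25), (nat_lit 1), (nat_lit 182)), ((nat_lit 41), (nat_lit 2), (nat_lit 737))])], ⟨(nat_lit 6), false, true, true, (nat_lit 258), (nat_lit 2236), (nat_lit 3163), [(nat_lit 1560952), (nat_lit 1557014), (nat_lit 1583107), (nat_lit 1579788), (nat_lit 1713335), (nat_lit 1699553), (nat_lit 1735490), (nat_lit 1722327)]⟩, ⟨(nat_lit 5), false, true, true, (nat_lit 246), (nat_lit 2236), (nat_lit 3163), [(nat_lit 1499999), (nat_lit 1499999), (nat_lit 1522091), (nat_lit 1522710), (nat_lit 1713335), (nat_lit 1699553), (nat_lit 1735490), (nat_lit 1722327)]⟩, (nat_lit 5499838), (nat_lit 35573441), (nat_lit 16311612), (nat_lit 15114947), (nat_lit 0), (nat_lit 0), [⟨(nat_lit 1), (nat_lit 82), (nat_lit 53), (nat_lit 100), (nat_lit 73772565)⟩], [⟨(nat_lit 1), (nat_lit 82), (nat_lit 53), (nat_lit 100), (nat_lit 8178161)⟩], [], [⟨(nat_lit 0), (nat_lit 100), (nat_lit 95),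 (nat_lit 78), (nat_lit 118315191)⟩],
 ⟨⟨[(nat_lit 40), (nat_lit 80), (nat_lit 100)], [(nat_lit 0), (nat_lit 1598), (nat_lit 2533)], [((nat_lit 0), (nat_lit 0), (nat_lit 0)), ((nat_lit 1000), (nat_lit 625), (nat_lit 623)), ((nat_lit 1000), (nat_lit 604), (nat_lit 730))], ((nat_lit 61), (nat_lit 100), (nat_lit 68))⟩, (nat_lit 0), (nat_lit 74), (nat_lit 74), (nat_lit 0), (nat_lit 0), [(nat_lit 1351227215), (nat_lit 585012052), (nat_lit 146303600)], [(nat_lit 0), (nat_lit 0), (nat_lit 0)], [(nat_lit 23307058886), (nat_lit 24435425402), (nat_lit 27146105888), (nat_lit 28066931399), (nat_lit 27908879678), (nat_lit 28776209074), (nat_lit 30961027273), (nat_lit 31741897485)], (nat_lit 0), (nat_lit 0), (nat_lit 0), (nat_lit 0), (nat_lit 0), (nat_lit 0), [], [(nat_lit 3), (nat_lit 50), (nat_lit 203), (nat_lit 0), (nat_lit 6)]⟩,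
 ⟨⟨[(nat_lit 100), (nat_lit 140), (nat_lit 180)], [(nat_lit 0), (nat_lit 0), (nat_lit 2434)], [((nat_lit 0), (nat_lit 0), (nat_lit 0)), ((nat_lit 0), (nat_lit 0), (nat_lit 0)), ((nat_lit 726), (nat_lit 1000), (nat_lit 688))], ((nat_lit 100), (nat_lit 74), (nat_lit 67))⟩, (nat_lit 375737), (nat_lit 956), (nat_lit 956), (nat_lit 0), (nat_lit 1341754), [(nat_lit 506250000), (nat_lit 797202000), (nat_lit 1138698000)], [], [(nat_lit 2884871696), (nat_lit 2870436978), (nat_lit 3179163046), (nat_lit 3188508657), (nat_lit 2240594464), (nat_lit 2223712008), (nat_lit 2429249561), (nat_lit 2415374840)], (nat_lit 1271251), (nat_lit 1271251), (nat_lit 1271251), (nat_lit 1271251), (nat_lit 0), (nat_lit 780000), [(nat_lit 1412501), (nat_lit 1271251), (nat_lit 1271251)], [(nat_lit 24), (nat_lit 63), (nat_lit 401), (nat_lit 175), (nat_lit 9)]⟩,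
 ⟨⟨[(nat_lit 100), (nat_lit 140), (nat_lit 180)], [(nat_lit 0), (nat_lit 0), (nat_lit 2434)], [((nat_lit 0), (nat_lit 0), (nat_lit 0)), ((nat_lit 0), (nat_lit 0), (nat_lit 0)), ((nat_lit 726), (nat_lit 1000), (nat_lit 688))], ((nat_lit 100), (nat_lit 74), (nat_lit 67))⟩, (nat_lit 46730), (nat_lit 300), (nat_lit 971), (nat_lit 5694300), (nat_lit 1341754), [(nat_lit 506250000), (nat_lit 797202000), (nat_lit 1138698000)], [], [(nat_lit 4321949055), (nat_lit 4289637005), (nat_lit 4315682226), (nat_lit 4289674976), (nat_lit 3569621812), (nat_lit 3522938143), (nat_lit 3521447595), (nat_lit 3477917583)], (nat_lit 1271251), (nat_lit 1271251), (nat_lit 1271251), (nat_lit 1271251), (nat_lit 0), (nat_lit 780000), [(nat_lit 1412501), (nat_lit 1271251), (nat_lit 1271251)], [(nat_lit 24), (nat_lit 63), (nat_lit 401), (nat_lit 175), (nat_lit 9)]⟩⟩)))))) (.leaf ⟨(nat_lit 821), (nat_lit 76), (nat_lit 0), (nat_lit 103), (nat_lit 0), (nat_lit 2931), (nat_lit 1595), (nat_lit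 1253), (nat_lit 0), (nat_lit 31651), (nat_lit 442600), [((nat_lit 380), [((nat_lit 25), (nat_lit 1), (nat_lit 250)), ((nat_lit 41), (nat_lit 2), (nat_lit 571))])], ⟨(nat_lit 6), false, true, true, (nat_lit 270), (nat_lit 2236), (nat_lit 3163), [(nat_lit 1583107), (nat_lit 1579788), (nat_lit 1605240), (nat_lit 1602541), (nat_lit 1750729), (nat_lit 1736581), (nat_lit 1772883), (nat_lit 1759355)]⟩, ⟨(nat_lit 5), false, true, true, (nat_lit 249), (nat_lit 2236), (nat_lit 3163), [(nat_lit 1477844), (nat_lit 1477224), (nat_lit 1544182), (nat_lit 1545421), (nat_lit 1706419), (nat_lit 1691033), (nat_lit 1772883), (nat_lit 1759355)]⟩, (nat_lit 5555486), (nat_lit 34678651), (nat_lit 17216221), (nat_lit 15105128), (nat_lit 5), (nat_lit 0), [], [], [], [⟨(nat_lit 0), (nat_lit 100), (nat_lit 95), (nat_lit 83), (nat_lit 137513742)⟩],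
 ⟨⟨[(nat_lit 40), (nat_lit 80), (nat_lit 100)], [(nat_lit 0), (nat_lit 1598), (nat_lit 2533)], [((nat_lit 0), (nat_lit 0), (nat_lit 0)), ((nat_lit 1000), (nat_lit 625), (nat_lit 623)), ((nat_lit 1000), (nat_lit 604), (nat_lit 730))], ((nat_lit 61), (nat_lit 100), (nat_lit 68))⟩, (nat_lit 0), (nat_lit 76), (nat_lit 76), (nat_lit 0), (nat_lit 0), [(nat_lit 1406558403), (nat_lit 1047403206), (nat_lit 945888994)], [(nat_lit 0), (nat_lit 0), (nat_lit 0)], [(nat_lit 23752886876), (nat_lit 24786167889), (nat_lit 27690598509), (nat_lit 28575501165), (nat_lit 28405774088), (nat_lit 29257452682), (nat_lit 31750901223), (nat_lit 32500273040)], (nat_lit 0), (nat_lit 0), (nat_lit 0), (nat_lit 0), (nat_lit 0), (nat_lit 0), [], [(nat_lit 3), (nat_lit 50), (nat_lit 203), (nat_lit 0), (nat_lit 6)]⟩,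
 ⟨⟨[(nat_lit 100), (nat_lit 140), (nat_lit 160)], [(nat_lit 0), (nat_lit 508), (nat_lit 1689)], [((nat_lit 0), (nat_lit 0), (nat_lit 0)), ((nat_lit 1000), (nat_lit 1000), (nat_lit 198)), ((nat_lit 811), (nat_lit 1000), (nat_lit 671))], ((nat_lit 100), (nat_lit 81), (nat_lit 68))⟩, (nat_lit 1502571), (nat_lit 815), (nat_lit 815), (nat_lit 0), (nat_lit 1183797), [(nat_lit 1118750000), (nat_lit 1761718000), (nat_lit 2125088000)], [], [(nat_lit 5327132921), (nat_lit 5334649712), (nat_lit 6042780619), (nat_lit 6105399682), (nat_lit 4558928878), (nat_lit 4560796556), (nat_lit 4954512841), (nat_lit 4947361984)], (nat_lit 1271251), (nat_lit 1271251), (nat_lit 1271251), (nat_lit 1271251), (nat_lit 0), (nat_lit 780000), [(nat_lit 1412501), (nat_lit 1271251), (nat_lit 1271251)], [(nat_lit 23), (nat_lit 62), (nat_lit 428), (nat_lit 200), (nat_lit 11)]⟩,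
 ⟨⟨[(nat_lit 120), (nat_lit 160), (nat_lit 180)], [(nat_lit 0), (nat_lit 533), (nat_lit 2066)], [((nat_lit 0), (nat_lit 0), (nat_lit 0)), ((nat_lit 960), (nat_lit 1000), (nat_lit 200)), ((nat_lit 615), (nat_lit 1000), (nat_lit 729))], ((nat_lit 100), (nat_lit 67), (nat_lit 68))⟩, (nat_lit 241171), (nat_lit 300), (nat_lit 1155), (nat_lit 6839200), (nat_lit 1720805), [(nat_lit 820704000), (nat_lit 1222816000), (nat_lit 1447974000)], [], [(nat_lit 5344126461), (nat_lit 5223798184), (nat_lit 5433662556), (nat_lit 5329909034), (nat_lit 4379150548), (nat_lit 4259807303), (nat_lit 4377481684), (nat_lit 4264035089)], (nat_lit 1271251), (nat_lit 1271251), (nat_lit 1271251), (nat_lit 1271251), (nat_lit 0), (nat_lit 780000), [(nat_lit 1695001), (nat_lit 1271251), (nat_lit 1271251)], [(nat_lit 28), (nat_lit 65), (nat_lit 428), (nat_lit 200), (nat_lit 10)]⟩⟩))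
noncomputable def c16_39 : Tr Lf :=
 (.spl (nat_lit 6) (nat_lit 28) (.stt (nat_lit 2) (.leaf ⟨(nat_lit 277), (nat_lit 577), (nat_lit 0), (nat_lit 146), (nat_lit 0), (nat_lit 3295), (nat_lit 5785), (nat_lit 1366), (nat_lit 0), (nat_lit 17563726291), (nat_lit 120350), [((nat_lit 380), [((nat_lit 24), (nat_lit 0), (nat_lit 131)), ((nat_lit 41), (nat_lit 2), (nat_lit 146))])], ⟨(nat_lit 6), true, false, true, (nat_lit 261), (nat_lit 2236), (nat_lit 3163), [(nat_lit 1538797), (nat_lit 1534240), (nat_lit 1605240), (nat_lit 1602541), (nat_lit 1706419), (nat_lit 1691033), (nat_lit 1772883), (nat_lit 1759355)]⟩, ⟨(nat_lit 5), false, true, true, (nat_lit 249), (nat_lit 2236), (nat_lit 3163), [(nat_lit 1477844), (nat_lit 1477224), (nat_lit 1544182), (nat_lit 1545421), (nat_lit 1706419), (nat_lit 1691033), (nat_lit 1772883), (nat_lit 1759355)]⟩, (nat_lit 5523892), (nat_lit 35221312), (nat_lit 16488332), (nat_lit 15290356), (nat_lit 5), (nat_lit 0), [⟨(nat_lit 1),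 (nat_lit 82), (nat_lit 53), (nat_lit 100), (nat_lit 25161756)⟩], [⟨(nat_lit 1), (nat_lit 82), (nat_lit 53), (nat_lit 100), (nat_lit 414700351)⟩], [], [],
 ⟨⟨[(nat_lit 40), (nat_lit 60), (nat_lit 80)], [(nat_lit 0), (nat_lit 832), (nat_lit 1534)], [((nat_lit 0), (nat_lit 0), (nat_lit 0)), ((nat_lit 1000), (nat_lit 659), (nat_lit 528)), ((nat_lit 1000), (nat_lit 650), (nat_lit 549))], ((nat_lit 65), (nat_lit 100), (nat_lit 55))⟩, (nat_lit 2290707), (nat_lit 74), (nat_lit 74), (nat_lit 0), (nat_lit 0), [(nat_lit 1714488401), (nat_lit 2934417675), (nat_lit 3605148800)], [(nat_lit 0), (nat_lit 0), (nat_lit 0)], [(nat_lit 23617672842), (nat_lit 24813085282), (nat_lit 28069216417), (nat_lit 29014284807), (nat_lit 28785338570), (nat_lit 29672965622), (nat_lit 32193599718), (nat_lit 32968711403)], (nat_lit 0), (nat_lit 0), (nat_lit 0), (nat_lit 0), (nat_lit 0), (nat_lit 0), [], [(nat_lit 2), (nat_lit 44), (nat_lit 203), (nat_lit 0), (nat_lit 7)]⟩,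
 ⟨⟨[(nat_lit 120), (nat_lit 140), (nat_lit 160)], [(nat_lit 0), (nat_lit 266), (nat_lit 862)], [((nat_lit 0), (nat_lit 0), (nat_lit 0)), ((nat_lit 960), (nat_lit 1000), (nat_lit 200)), ((nat_lit 874), (nat_lit 1000), (nat_lit 406))], ((nat_lit 100), (nat_lit 81), (nat_lit 51))⟩, (nat_lit 55488), (nat_lit 126), (nat_lit 126), (nat_lit 0), (nat_lit 0), [(nat_lit 5760864000), (nat_lit 7115766000), (nat_lit 8583456000)], [], [(nat_lit 11800687374), (nat_lit 13861971754), (nat_lit 18973781156), (nat_lit 20120455205), (nat_lit 23006810754), (nat_lit 23434230336), (nat_lit 26210285496), (nat_lit 26375496206)], (nat_lit 0), (nat_lit 0), (nat_lit 0), (nat_lit 0), (nat_lit 0), (nat_lit 0), [], [(nat_lit 27), (nat_lit 62), (nat_lit 483), (nat_lit 250), (nat_lit 12)]⟩,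
 ⟨⟨[(nat_lit 120), (nat_lit 140), (nat_lit 160)], [(nat_lit 0), (nat_lit 266), (nat_lit 862)], [((nat_lit 0), (nat_lit 0), (nat_lit 0)), ((nat_lit 960), (nat_lit 1000), (nat_lit 200)), ((nat_lit 874), (nat_lit 1000), (nat_lit 406))], ((nat_lit 100), (nat_lit 81), (nat_lit 51))⟩, (nat_lit 423864), (nat_lit 300), (nat_lit 1353), (nat_lit 9694400), (nat_lit 2458023), [(nat_lit 1163328000), (nat_lit 1436932000), (nat_lit 1733312000)], [], [(nat_lit 7742188455), (nat_lit 7531329652), (nat_lit 7349077810), (nat_lit 7128477789), (nat_lit 6919676380), (nat_lit 6693836727), (nat_lit 6474748342), (nat_lit 6242622560)], (nat_lit 1271251), (nat_lit 1271251), (nat_lit 1271251), (nat_lit 1271251), (nat_lit 780000), (nat_lit 3072501), [(nat_lit 1695001), (nat_lit 1271251), (nat_lit 1271251)], [(nat_lit 27), (nat_lit 62), (nat_lit 483), (nat_lit 250), (nat_lit 12)]⟩⟩) (.spl (nat_lit 1) (nat_lit 220) (.ord (.trX (nat_lit 3) (nat_lit 0) (nat_lit 1) (nat_lit 60) (nat_lit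 74) (nat_lit 100) (nat_lit 340) (.trX (nat_lit 4) (nat_lit 0) (nat_lit 2) (nat_lit 60) (nat_lit 74) (nat_lit 100) (nat_lit 340) (.leaf ⟨(nat_lit 927), (nat_lit 0), (nat_lit 0), (nat_lit 73), (nat_lit 0), (nat_lit 2883), (nat_lit 772), (nat_lit 820), (nat_lit 0), (nat_lit 4848599736337), (nat_lit 516800), [((nat_lit 380), [((nat_lit 24), (nat_lit 1), (nat_lit 197)), ((nat_lit 41), (nat_lit 2), (nat_lit 730))])], ⟨(nat_lit 6), false, true, true, (nat_lit 253), (nat_lit 2236), (nat_lit 3163), [(nat_lit 1538797), (nat_lit 1534240), (nat_lit 1583107), (nat_lit 1579788), (nat_lit 1691180), (nat_lit 1676779), (nat_lit 1735490), (nat_lit 1722327)]⟩, ⟨(nat_lit 5), false, true, true, (nat_lit 241), (nat_lit 2236), (nat_lit 3163), [(nat_lit 1477844), (nat_lit 1477224), (nat_lit 1522091), (nat_lit 1522710), (nat_lit 1691180), (nat_lit 1676779), (nat_lit 1735490), (nat_lit 1722327)]⟩, (nat_lit 5461384), (nat_lit 36118670), (nat_lit 16038183), (nat_lit 14843147),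 (nat_lit 0), (nat_lit 0), [⟨(nat_lit 1), (nat_lit 85), (nat_lit 53), (nat_lit 100), (nat_lit 245478871)⟩], [⟨(nat_lit 1), (nat_lit 85), (nat_lit 53), (nat_lit 100), (nat_lit 179356009)⟩], [], [],
 ⟨⟨[(nat_lit 40), (nat_lit 60), (nat_lit 80)], [(nat_lit 0), (nat_lit 832), (nat_lit 1534)], [((nat_lit 0), (nat_lit 0), (nat_lit 0)), ((nat_lit 1000), (nat_lit 659), (nat_lit 528)), ((nat_lit 1000), (nat_lit 650), (nat_lit 549))], ((nat_lit 65), (nat_lit 100), (nat_lit 55))⟩, (nat_lit 0), (nat_lit 69), (nat_lit 69), (nat_lit 0), (nat_lit 0), [(nat_lit 1347238010), (nat_lit 871298857), (nat_lit 491696800)], [(nat_lit 0), (nat_lit 0), (nat_lit 0)], [(nat_lit 23304189916), (nat_lit 24431732772), (nat_lit 27141377398), (nat_lit 28061624924), (nat_lit 27904382663), (nat_lit 28770814178), (nat_lit 30955289590), (nat_lit 31735765913)], (nat_lit 0), (nat_lit 0), (nat_lit 0), (nat_lit 0), (nat_lit 0), (nat_lit 0), [], [(nat_lit 2), (nat_lit 44), (nat_lit 203), (nat_lit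 0), (nat_lit 7)]⟩,
 ⟨⟨[(nat_lit 120), (nat_lit 140), (nat_lit 160)], [(nat_lit 0), (nat_lit 266), (nat_lit 862)], [((nat_lit 0), (nat_lit 0), (nat_lit 0)), ((nat_lit 960), (nat_lit 1000), (nat_lit 200)), ((nat_lit 874), (nat_lit 1000), (nat_lit 406))], ((nat_lit 100), (nat_lit 81), (nat_lit 51))⟩, (nat_lit 726076), (nat_lit 1247), (nat_lit 1247), (nat_lit 0), (nat_lit 2279363), [(nat_lit 581664000), (nat_lit 718466000), (nat_lit 866656000)], [], [(nat_lit 2012028637), (nat_lit 1960310614), (nat_lit 2026122508), (nat_lit 1998387335), (nat_lit 2835786016), (nat_lit 2423521142), (nat_lit 2843313310), (nat_lit 2842543945)], (nat_lit 1271251), (nat_lit 1271251), (nat_lit 1271251), (nat_lit 1271251), (nat_lit 780000), (nat_lit 3072501), [(nat_lit 1695001), (nat_lit 1271251), (nat_lit 1271251)], [(nat_lit 27), (nat_lit 62), (nat_lit 483), (nat_lit 250), (nat_lit 12)]⟩,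
 ⟨⟨[(nat_lit 120), (nat_lit 140), (nat_lit 160)], [(nat_lit 0), (nat_lit 266), (nat_lit 862)], [((nat_lit 0), (nat_lit 0), (nat_lit 0)), ((nat_lit 960), (nat_lit 1000), (nat_lit 200)), ((nat_lit 874), (nat_lit 1000), (nat_lit 406))], ((nat_lit 100), (nat_lit 81), (nat_lit 51))⟩, (nat_lit 149842), (nat_lit 300), (nat_lit 964), (nat_lit 4847201), (nat_lit 1622435), [(nat_lit 581664000), (nat_lit 718466000), (nat_lit 866656000)], [], [(nat_lit 2874217020), (nat_lit 2760654324), (nat_lit 2790227625), (nat_lit 2745816655), (nat_lit 3635497198), (nat_lit 2857254058), (nat_lit 2906970010), (nat_lit 2902082173)], (nat_lit 1271251), (nat_lit 1271251), (nat_lit 1271251), (nat_lit 1271251), (nat_lit 780000), (nat_lit 3072501), [(nat_lit 1695001), (nat_lit 1271251), (nat_lit 1271251)], [(nat_lit 27), (nat_lit 62), (nat_lit 483), (nat_lit 250), (nat_lit 12)]⟩⟩)))) (.leaf ⟨(nat_lit 570), (nat_lit 61), (nat_lit 0), (nat_lit 369), (nat_lit 0), (nat_lit 3097), (nat_lit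 4061), (nat_lit 4011), (nat_lit 0), (nat_lit 361241), (nat_lit 287750), [((nat_lit 380), [((nat_lit 24), (nat_lit 0), (nat_lit 155)), ((nat_lit 41), (nat_lit 2), (nat_lit 415))])], ⟨(nat_lit 6), false, true, true, (nat_lit 270), (nat_lit 2236), (nat_lit 3163), [(nat_lit 1583107), (nat_lit 1579788), (nat_lit 1605240), (nat_lit 1602541), (nat_lit 1750729), (nat_lit 1736581), (nat_lit 1772883), (nat_lit 1759355)]⟩, ⟨(nat_lit 5), false, true, true, (nat_lit 249), (nat_lit 2236), (nat_lit 3163), [(nat_lit 1477844), (nat_lit 1477224), (nat_lit 1544182), (nat_lit 1545421), (nat_lit 1706419), (nat_lit 1691033), (nat_lit 1772883), (nat_lit 1759355)]⟩, (nat_lit 5555486), (nat_lit 34678651), (nat_lit 17216221), (nat_lit 15105128), (nat_lit 5), (nat_lit 0), [], [], [], [],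
 ⟨⟨[(nat_lit 40), (nat_lit 60), (nat_lit 80)], [(nat_lit 0), (nat_lit 832), (nat_lit 1534)], [((nat_lit 0), (nat_lit 0), (nat_lit 0)), ((nat_lit 1000), (nat_lit 659), (nat_lit 528)), ((nat_lit 1000), (nat_lit 650), (nat_lit 549))], ((nat_lit 65), (nat_lit 100), (nat_lit 55))⟩, (nat_lit 4633219), (nat_lit 74), (nat_lit 74), (nat_lit 0), (nat_lit 0), [(nat_lit 1546908036), (nat_lit 2833560038), (nat_lit 2258296000)], [(nat_lit 0), (nat_lit 0), (nat_lit 0)], [(nat_lit 23484845936), (nat_lit 24647641440), (nat_lit 27852287031), (nat_lit 28775445830), (nat_lit 28578712213), (nat_lit 29446784884), (nat_lit 31952791196), (nat_lit 32713901524)], (nat_lit 0), (nat_lit 0), (nat_lit 0), (nat_lit 0), (nat_lit 0), (nat_lit 0), [], [(nat_lit 2), (nat_lit 44), (nat_lit 203), (nat_lit 0), (nat_lit 7)]⟩,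
 ⟨⟨[(nat_lit 100), (nat_lit 140), (nat_lit 160)], [(nat_lit 0), (nat_lit 508), (nat_lit 1689)], [((nat_lit 0), (nat_lit 0), (nat_lit 0)), ((nat_lit 1000), (nat_lit 1000), (nat_lit 198)), ((nat_lit 811), (nat_lit 1000), (nat_lit 671))], ((nat_lit 100), (nat_lit 91), (nat_lit 51))⟩, (nat_lit 6393707), (nat_lit 938), (nat_lit 938), (nat_lit 0), (nat_lit 1657276), [(nat_lit 2687500000), (nat_lit 4232060000), (nat_lit 5104960000)], [], [(nat_lit 11114770382), (nat_lit 10436292118), (nat_lit 10886580345), (nat_lit 10802560587), (nat_lit 13809288213), (nat_lit 13944269824), (nat_lit 16450868236), (nat_lit 16456383621)], (nat_lit 1271251), (nat_lit 1271251), (nat_lit 1271251), (nat_lit 1271251), (nat_lit 780000), (nat_lit 3072501), [(nat_lit 1412501), (nat_lit 1271251), (nat_lit 1271251)], [(nat_lit 23), (nat_lit 62), (nat_lit 483), (nat_lit 250), (nat_lit 12)]⟩,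
 ⟨⟨[(nat_lit 120), (nat_lit 140), (nat_lit 160)], [(nat_lit 0), (nat_lit 266), (nat_lit 862)], [((nat_lit 0), (nat_lit 0), (nat_lit 0)), ((nat_lit 960), (nat_lit 1000), (nat_lit 200)), ((nat_lit 874), (nat_lit 1000), (nat_lit 406))], ((nat_lit 100), (nat_lit 81), (nat_lit 51))⟩, (nat_lit 1467297), (nat_lit 300), (nat_lit 997), (nat_lit 24501600), (nat_lit 1698489), [(nat_lit 2940192000), (nat_lit 3631698000), (nat_lit 4380768000)], [], [(nat_lit 14972772243), (nat_lit 14496306177), (nat_lit 14677374366), (nat_lit 14242399449), (nat_lit 18203647055), (nat_lit 13902616224), (nat_lit 14832429151), (nat_lit 14774579105)], (nat_lit 1271251), (nat_lit 1271251), (nat_lit 1271251), (nat_lit 1271251), (nat_lit 780000), (nat_lit 3072501), [(nat_lit 1695001), (nat_lit 1271251), (nat_lit 1271251)], [(nat_lit 27), (nat_lit 62), (nat_lit 483), (nat_lit 250), (nat_lit 12)]⟩⟩))) (.spl (nat_lit 0) (nat_lit 370) (.leaf ⟨(nat_lit 0), (nat_lit 0), (nat_lit 0), (nat_lit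 1000), (nat_lit 0), (nat_lit 4309), (nat_lit 13154), (nat_lit 12808), (nat_lit 0), (nat_lit 411), (nat_lit 0), [], Pd.none, Pd.none, (nat_lit 0), (nat_lit 1), (nat_lit 0), (nat_lit 0), (nat_lit 0), (nat_lit 0), [], [], [], [],
 ⟨⟨[(nat_lit 40), (nat_lit 80), (nat_lit 100)], [(nat_lit 0), (nat_lit 1598), (nat_lit 2533)], [((nat_lit 0), (nat_lit 0), (nat_lit 0)), ((nat_lit 1000), (nat_lit 625), (nat_lit 623)), ((nat_lit 1000), (nat_lit 604), (nat_lit 730))], ((nat_lit 61), (nat_lit 100), (nat_lit 68))⟩, (nat_lit 1454061), (nat_lit 75), (nat_lit 75), (nat_lit 0), (nat_lit 0), [(nat_lit 2032000091), (nat_lit 4688000001), (nat_lit 6250000000)], [], [(nat_lit 23871218027), (nat_lit 24485791271), (nat_lit 29066171739), (nat_lit 29650913898), (nat_lit 29719068335), (nat_lit 30264210525), (nat_lit 33426831239), (nat_lit 33850239040)], (nat_lit 0), (nat_lit 0), (nat_lit 0), (nat_lit 0), (nat_lit 0), (nat_lit 0), [], [(nat_lit 3), (nat_lit 50), (nat_lit 203), (nat_lit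 0), (nat_lit 6)]⟩,
 ⟨⟨[(nat_lit 120), (nat_lit 160), (nat_lit 180)], [(nat_lit 0), (nat_lit 533), (nat_lit 2066)], [((nat_lit 0), (nat_lit 0), (nat_lit 0)), ((nat_lit 960), (nat_lit 1000), (nat_lit 200)), ((nat_lit 615), (nat_lit 1000), (nat_lit 729))], ((nat_lit 100), (nat_lit 67), (nat_lit 68))⟩, (nat_lit 4771313), (nat_lit 635), (nat_lit 635), (nat_lit 0), (nat_lit 838954), [(nat_lit 7968000000), (nat_lit 11872000000), (nat_lit 14058000000)], [], [(nat_lit 27407883762), (nat_lit 26989500410), (nat_lit 32000990631), (nat_lit 31910672191), (nat_lit 39714034996), (nat_lit 35915255056), (nat_lit 43342860200), (nat_lit 42873279217)], (nat_lit 1271251), (nat_lit 1271251), (nat_lit 1271251), (nat_lit 1271251), (nat_lit 780000), (nat_lit 3072501), [(nat_lit 1695001), (nat_lit 1271251), (nat_lit 1271251)], [(nat_lit 28), (nat_lit 65), (nat_lit 483), (nat_lit 250), (nat_lit 11)]⟩,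
 ⟨⟨[(nat_lit 120), (nat_lit 160), (nat_lit 180)], [(nat_lit 0), (nat_lit 533), (nat_lit 2066)], [((nat_lit 0), (nat_lit 0), (nat_lit 0)), ((nat_lit 960), (nat_lit 1000), (nat_lit 200)), ((nat_lit 615), (nat_lit 1000), (nat_lit 729))], ((nat_lit 100), (nat_lit 67), (nat_lit 68))⟩, (nat_lit 2341463), (nat_lit 300), (nat_lit 649), (nat_lit 66400002), (nat_lit 838954), [(nat_lit 7968000000), (nat_lit 11872000000), (nat_lit 14058000000)], [], [(nat_lit 40972616020), (nat_lit 39698923264), (nat_lit 41614444635), (nat_lit 40534077742), (nat_lit 51836446684), (nat_lit 39224428880), (nat_lit 42866206837), (nat_lit 42444010684)], (nat_lit 1271251), (nat_lit 1271251), (nat_lit 1271251), (nat_lit 1271251), (nat_lit 780000), (nat_lit 3072501), [(nat_lit 1695001), (nat_lit 1271251), (nat_lit 1271251)], [(nat_lit 28), (nat_lit 65), (nat_lit 483), (nat_lit 250), (nat_lit 11)]⟩⟩) (.trX (nat_lit 3) (nat_lit 0) (nat_lit 1) (nat_lit 54) (nat_lit 74) (nat_lit 100) (nat_lit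 340) (.trX (nat_lit 4) (nat_lit 0) (nat_lit 2) (nat_lit 54) (nat_lit 74) (nat_lit 100) (nat_lit 340) (.spl (nat_lit 0) (nat_lit 375) (.leaf ⟨(nat_lit 0), (nat_lit 0), (nat_lit 0), (nat_lit 1000), (nat_lit 0), (nat_lit 4284), (nat_lit 12328), (nat_lit 12109), (nat_lit 0), (nat_lit 53361), (nat_lit 0), [], Pd.none, Pd.none, (nat_lit 0), (nat_lit 1), (nat_lit 0), (nat_lit 0), (nat_lit 0), (nat_lit 0), [], [], [], [],
 ⟨⟨[(nat_lit 40), (nat_lit 60), (nat_lit 80)], [(nat_lit 0), (nat_lit 1134), (nat_lit 1930)], [((nat_lit 0), (nat_lit 0), (nat_lit 0)), ((nat_lit 1000), (nat_lit 575), (nat_lit 619)), ((nat_lit 1000), (nat_lit 574), (nat_lit 622))], ((nat_lit 55), (nat_lit 100), (nat_lit 70))⟩, (nat_lit 1190530), (nat_lit 67), (nat_lit 67), (nat_lit 0), (nat_lit 0), [(nat_lit 2032000033), (nat_lit 3788833204), (nat_lit 4688000000)], [], [(nat_lit 24542974646), (nat_lit 24849590923), (nat_lit 29072003702), (nat_lit 29371781529), (nat_lit 29723727143), (nat_lit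 30003095625), (nat_lit 33008410334), (nat_lit 33231121299)], (nat_lit 0), (nat_lit 0), (nat_lit 0), (nat_lit 0), (nat_lit 0), (nat_lit 0), [], [(nat_lit 2), (nat_lit 44), (nat_lit 203), (nat_lit 0), (nat_lit 7)]⟩,
 ⟨⟨[(nat_lit 120), (nat_lit 160), (nat_lit 180)], [(nat_lit 0), (nat_lit 533), (nat_lit 2066)], [((nat_lit 0), (nat_lit 0), (nat_lit 0)), ((nat_lit 960), (nat_lit 1000), (nat_lit 200)), ((nat_lit 615), (nat_lit 1000), (nat_lit 729))], ((nat_lit 100), (nat_lit 67), (nat_lit 68))⟩, (nat_lit 6108054), (nat_lit 727), (nat_lit 727), (nat_lit 0), (nat_lit 1007977), [(nat_lit 7968000000), (nat_lit 11872000000), (nat_lit 14058000000)], [], [(nat_lit 27442717022), (nat_lit 26893203412), (nat_lit 31051260606), (nat_lit 30685225716), (nat_lit 39436107472), (nat_lit 35138927392), (nat_lit 41273838950), (nat_lit 41032459112)], (nat_lit 1271251), (nat_lit 1271251), (nat_lit 1271251), (nat_lit 1271251), (nat_lit 780000), (nat_lit 3072501), [(nat_lit 1695001),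 (nat_lit 1271251), (nat_lit 1271251)], [(nat_lit 28), (nat_lit 65), (nat_lit 483), (nat_lit 250), (nat_lit 11)]⟩,
 ⟨⟨[(nat_lit 120), (nat_lit 160), (nat_lit 180)], [(nat_lit 0), (nat_lit 533), (nat_lit 2066)], [((nat_lit 0), (nat_lit 0), (nat_lit 0)), ((nat_lit 960), (nat_lit 1000), (nat_lit 200)), ((nat_lit 615), (nat_lit 1000), (nat_lit 729))], ((nat_lit 100), (nat_lit 67), (nat_lit 68))⟩, (nat_lit 2341463), (nat_lit 300), (nat_lit 742), (nat_lit 66400002), (nat_lit 1007977), [(nat_lit 7968000000), (nat_lit 11872000000), (nat_lit 14058000000)], [], [(nat_lit 42651064306), (nat_lit 41501925262), (nat_lit 42462531657), (nat_lit 41074258115), (nat_lit 50933313870), (nat_lit 40365881900), (nat_lit 41162446596), (nat_lit 40770211211)], (nat_lit 1271251), (nat_lit 1271251), (nat_lit 1271251), (nat_lit 1271251), (nat_lit 780000), (nat_lit 3072501), [(nat_lit 1695001), (nat_lit 1271251), (nat_lit 1271251)], [(nat_lit 28), (nat_lit 65), (nat_lit 483), (nat_lit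 250), (nat_lit 11)]⟩⟩) (.trX (nat_lit 3) (nat_lit 0) (nat_lit 1) (nat_lit 49) (nat_lit 78) (nat_lit 100) (nat_lit 330) (.trX (nat_lit 4) (nat_lit 0) (nat_lit 2) (nat_lit 49) (nat_lit 78) (nat_lit 100) (nat_lit 330) (.spl (nat_lit 1) (nat_lit 220) (.ord (.trX (nat_lit 3) (nat_lit 0) (nat_lit 1) (nat_lit 49) (nat_lit 83) (nat_lit 100) (nat_lit 320) (.trX (nat_lit 4) (nat_lit 0) (nat_lit 2) (nat_lit 49) (nat_lit 83) (nat_lit 100) (nat_lit 320) (.leaf ⟨(nat_lit 456), (nat_lit 0), (nat_lit 0), (nat_lit 544), (nat_lit 0), (nat_lit 3752), (nat_lit 6594), (nat_lit 6587), (nat_lit 0), (nat_lit 6882), (nat_lit 114000), [((nat_lit 380), [((nat_lit 25), (nat_lit 0), (nat_lit 456))])], ⟨(nat_lit 6), false, true, true, (nat_lit 246), (nat_lit 2236), (nat_lit 2500), [(nat_lit 1535482), (nat_lit 1534240), (nat_lit 1580644), (nat_lit 1579788), (nat_lit 1651611), (nat_lit 1648271), (nat_lit 1696773), (nat_lit 1693819)]⟩, ⟨(nat_lit 5), false, true, true, (nat_lit 235),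 (nat_lit 2236), (nat_lit 2500), [(nat_lit 1477418), (nat_lit 1477224), (nat_lit 1522575), (nat_lit 1522768), (nat_lit 1651611), (nat_lit 1648271), (nat_lit 1696773), (nat_lit 1693819)]⟩, (nat_lit 5398051), (nat_lit 36976140), (nat_lit 15592953), (nat_lit 14430907), (nat_lit 0), (nat_lit 0), [], [], [], [],
 ⟨⟨[(nat_lit 40), (nat_lit 60), (nat_lit 80)], [(nat_lit 0), (nat_lit 1320), (nat_lit 2176)], [((nat_lit 0), (nat_lit 0), (nat_lit 0)), ((nat_lit 1000), (nat_lit 531), (nat_lit 657)), ((nat_lit 1000), (nat_lit 526), (nat_lit 669))], ((nat_lit 51), (nat_lit 100), (nat_lit 71))⟩, (nat_lit 24170), (nat_lit 59), (nat_lit 59), (nat_lit 0), (nat_lit 0), [(nat_lit 1674880002), (nat_lit 2409580801), (nat_lit 3332585600)], [(nat_lit 0), (nat_lit 0), (nat_lit 0)], [(nat_lit 24750642514), (nat_lit 25054041647), (nat_lit 27779428732), (nat_lit 28050021245), (nat_lit 28492642155), (nat_lit 28762689808), (nat_lit 31000609474), (nat_lit 31234466536)], (nat_lit 0),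 (nat_lit 0), (nat_lit 0), (nat_lit 0), (nat_lit 0), (nat_lit 0), [], [(nat_lit 2), (nat_lit 44), (nat_lit 203), (nat_lit 0), (nat_lit 7)]⟩,
 ⟨⟨[(nat_lit 120), (nat_lit 160), (nat_lit 180)], [(nat_lit 0), (nat_lit 533), (nat_lit 2066)], [((nat_lit 0), (nat_lit 0), (nat_lit 0)), ((nat_lit 960), (nat_lit 1000), (nat_lit 200)), ((nat_lit 615), (nat_lit 1000), (nat_lit 729))], ((nat_lit 100), (nat_lit 67), (nat_lit 68))⟩, (nat_lit 3505092), (nat_lit 737), (nat_lit 737), (nat_lit 0), (nat_lit 1032829), [(nat_lit 4334592000), (nat_lit 6458368000), (nat_lit 7647552000)], [], [(nat_lit 14933349987), (nat_lit 14709050723), (nat_lit 16177847112), (nat_lit 16112199440), (nat_lit 21415412020), (nat_lit 18866385370), (nat_lit 21302375092), (nat_lit 21306716492)], (nat_lit 1271251), (nat_lit 1271251), (nat_lit 1271251), (nat_lit 1271251), (nat_lit 780000), (nat_lit 3072501), [(nat_lit 1695001), (nat_lit 1271251), (nat_lit 1271251)], [(nat_lit 28), (nat_lit 65), (nat_lit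 483), (nat_lit 250), (nat_lit 11)]⟩,
 ⟨⟨[(nat_lit 120), (nat_lit 160), (nat_lit 180)], [(nat_lit 0), (nat_lit 533), (nat_lit 2066)], [((nat_lit 0), (nat_lit 0), (nat_lit 0)), ((nat_lit 960), (nat_lit 1000), (nat_lit 200)), ((nat_lit 615), (nat_lit 1000), (nat_lit 729))], ((nat_lit 100), (nat_lit 67), (nat_lit 68))⟩, (nat_lit 1273756), (nat_lit 300), (nat_lit 753), (nat_lit 36121601), (nat_lit 1032829), [(nat_lit 4334592000), (nat_lit 6458368000), (nat_lit 7647552000)], [], [(nat_lit 23203314559), (nat_lit 22786080865), (nat_lit 22899713434), (nat_lit 22358208154), (nat_lit 27707340303), (nat_lit 22211896497), (nat_lit 22209233490), (nat_lit 21587052622)], (nat_lit 1271251), (nat_lit 1271251), (nat_lit 1271251), (nat_lit 1271251), (nat_lit 780000), (nat_lit 3072501), [(nat_lit 1695001), (nat_lit 1271251), (nat_lit 1271251)], [(nat_lit 28), (nat_lit 65), (nat_lit 483), (nat_lit 250), (nat_lit 11)]⟩⟩)))) (.leaf ⟨(nat_lit 0), (nat_lit 271), (nat_lit 0),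 (nat_lit 729), (nat_lit 0), (nat_lit 4061), (nat_lit 12170), (nat_lit 8343), (nat_lit 0), (nat_lit 295123), (nat_lit 0), [], Pd.none, Pd.none, (nat_lit 0), (nat_lit 1), (nat_lit 0), (nat_lit 0), (nat_lit 5), (nat_lit 0), [], [], [], [],
 ⟨⟨[(nat_lit 40), (nat_lit 60), (nat_lit 80)], [(nat_lit 0), (nat_lit 1320), (nat_lit 2176)], [((nat_lit 0), (nat_lit 0), (nat_lit 0)), ((nat_lit 1000), (nat_lit 531), (nat_lit 657)), ((nat_lit 1000), (nat_lit 526), (nat_lit 669))], ((nat_lit 51), (nat_lit 100), (nat_lit 71))⟩, (nat_lit 1223331), (nat_lit 63), (nat_lit 63), (nat_lit 0), (nat_lit 0), [(nat_lit 2032000188), (nat_lit 3642489900), (nat_lit 4688000000)], [], [(nat_lit 24756549900), (nat_lit 25055893774), (nat_lit 28592897983), (nat_lit 28893155210), (nat_lit 29274006888), (nat_lit 29553974940), (nat_lit 32156771709), (nat_lit 32386398945)], (nat_lit 0), (nat_lit 0), (nat_lit 0), (nat_lit 0), (nat_lit 0), (nat_lit 0), [], [(nat_lit 2), (nat_lit 44), (nat_lit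 203), (nat_lit 0), (nat_lit 7)]⟩,
 ⟨⟨[(nat_lit 100), (nat_lit 140), (nat_lit 160)], [(nat_lit 0), (nat_lit 508), (nat_lit 1689)], [((nat_lit 0), (nat_lit 0), (nat_lit 0)), ((nat_lit 1000), (nat_lit 1000), (nat_lit 198)), ((nat_lit 811), (nat_lit 1000), (nat_lit 671))], ((nat_lit 100), (nat_lit 81), (nat_lit 68))⟩, (nat_lit 3078984), (nat_lit 527), (nat_lit 527), (nat_lit 0), (nat_lit 784490), [(nat_lit 6250000000), (nat_lit 9842000000), (nat_lit 11872000000)], [], [(nat_lit 25732352540), (nat_lit 22737252652), (nat_lit 27217966211), (nat_lit 27553638044), (nat_lit 34727515410), (nat_lit 34990428880), (nat_lit 40069801559), (nat_lit 40034045575)], (nat_lit 1271251), (nat_lit 1271251), (nat_lit 1271251), (nat_lit 1271251), (nat_lit 780000), (nat_lit 3072501), [(nat_lit 1412501), (nat_lit 1271251), (nat_lit 1271251)], [(nat_lit 23), (nat_lit 62), (nat_lit 483), (nat_lit 250), (nat_lit 12)]⟩,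
 ⟨⟨[(nat_lit 120), (nat_lit 160), (nat_lit 180)], [(nat_lit 0), (nat_lit 533), (nat_lit 2066)], [((nat_lit 0), (nat_lit 0), (nat_lit 0)), ((nat_lit 960), (nat_lit 1000), (nat_lit 200)), ((nat_lit 615), (nat_lit 1000), (nat_lit 729))], ((nat_lit 100), (nat_lit 67), (nat_lit 68))⟩, (nat_lit 1706927), (nat_lit 300), (nat_lit 815), (nat_lit 48405600), (nat_lit 1174521), [(nat_lit 5808672000), (nat_lit 8654688000), (nat_lit 10248282000)], [], [(nat_lit 32951317833), (nat_lit 31825908531), (nat_lit 32092145022), (nat_lit 31075453494), (nat_lit 36504445001), (nat_lit 30217842504), (nat_lit 30703917713), (nat_lit 29534637069)], (nat_lit 1271251), (nat_lit 1271251), (nat_lit 1271251), (nat_lit 1271251), (nat_lit 780000), (nat_lit 3072501), [(nat_lit 1695001), (nat_lit 1271251), (nat_lit 1271251)], [(nat_lit 28), (nat_lit 65), (nat_lit 483), (nat_lit 250), (nat_lit 11)]⟩⟩)))))))))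
noncomputable def c16_40 : Tr Lf :=
 (.spl (nat_lit 5) (nat_lit 120) (.leaf ⟨(nat_lit 646), (nat_lit 35), (nat_lit 0), (nat_lit 319), (nat_lit 0), (nat_lit 3964), (nat_lit 4650), (nat_lit 4650), (nat_lit 0), (nat_lit 37472096387), (nat_lit 347350), [((nat_lit 380), [((nat_lit 25), (nat_lit 0), (nat_lit 115)), ((nat_lit 41), (nat_lit 2), (nat_lit 531))])], ⟨(nat_lit 6), false, true, true, (nat_lit 261), (nat_lit 2236), (nat_lit 3163), [(nat_lit 1538797), (nat_lit 1534240), (nat_lit 1605240), (nat_lit 1602541), (nat_lit 1706419), (nat_lit 1691033), (nat_lit 1772883), (nat_lit 1759355)]⟩, ⟨(nat_lit 5), false, true, true, (nat_lit 249), (nat_lit 2236), (nat_lit 3163), [(nat_lit 1477844), (nat_lit 1477224), (nat_lit 1544182), (nat_lit 1545421), (nat_lit 1706419), (nat_lit 1691033), (nat_lit 1772883), (nat_lit 1759355)]⟩, (nat_lit 5523892), (nat_lit 35221312), (nat_lit 16488332), (nat_lit 15290356), (nat_lit 5), (nat_lit 0), [], [], [], [⟨(nat_lit 0), (nat_lit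 100), (nat_lit 95), (nat_lit 83), (nat_lit 123222155)⟩],
 ⟨⟨[(nat_lit 40), (nat_lit 80), (nat_lit 100)], [(nat_lit 0), (nat_lit 1598), (nat_lit 2533)], [((nat_lit 0), (nat_lit 0), (nat_lit 0)), ((nat_lit 1000), (nat_lit 625), (nat_lit 623)), ((nat_lit 1000), (nat_lit 604), (nat_lit 730))], ((nat_lit 61), (nat_lit 100), (nat_lit 68))⟩, (nat_lit 261050), (nat_lit 255), (nat_lit 255), (nat_lit 0), (nat_lit 550431), [(nat_lit 1505186420), (nat_lit 1828809246), (nat_lit 2076723600)], [(nat_lit 0), (nat_lit 0), (nat_lit 0)], [(nat_lit 24000876232), (nat_lit 24979629076), (nat_lit 28694081994), (nat_lit 29819847954), (nat_lit 29369109563), (nat_lit 30420359393), (nat_lit 33007240633), (nat_lit 33829659932)], (nat_lit 1271251), (nat_lit 1271251), (nat_lit 1271251), (nat_lit 1271251), (nat_lit 1271251), (nat_lit 1271251), [(nat_lit 490000), (nat_lit 1100000), (nat_lit 1442501)], [(nat_lit 3), (nat_lit 50), (nat_lit 203), (nat_lit 0), (nat_lit 6)]⟩,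
 ⟨⟨[(nat_lit 120), (nat_lit 160), (nat_lit 180)], [(nat_lit 0), (nat_lit 533), (nat_lit 2066)], [((nat_lit 0), (nat_lit 0), (nat_lit 0)), ((nat_lit 960), (nat_lit 1000), (nat_lit 200)), ((nat_lit 615), (nat_lit 1000), (nat_lit 729))], ((nat_lit 100), (nat_lit 67), (nat_lit 68))⟩, (nat_lit 1886938), (nat_lit 597), (nat_lit 597), (nat_lit 0), (nat_lit 535871), [(nat_lit 2820672000), (nat_lit 4202688000), (nat_lit 4976532000)], [], [(nat_lit 12793938416), (nat_lit 12948828236), (nat_lit 15150638834), (nat_lit 15408043444), (nat_lit 9403095936), (nat_lit 9353810360), (nat_lit 11126073798), (nat_lit 11192596638)], (nat_lit 1271251), (nat_lit 1271251), (nat_lit 1271251), (nat_lit 1271251), (nat_lit 0), (nat_lit 780000), [(nat_lit 1695001), (nat_lit 1271251), (nat_lit 1271251)], [(nat_lit 28), (nat_lit 65), (nat_lit 428), (nat_lit 200), (nat_lit 10)]⟩,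
 ⟨⟨[(nat_lit 120), (nat_lit 160), (nat_lit 180)], [(nat_lit 0), (nat_lit 533), (nat_lit 2066)], [((nat_lit 0), (nat_lit 0), (nat_lit 0)), ((nat_lit 960), (nat_lit 1000), (nat_lit 200)), ((nat_lit 615), (nat_lit 1000), (nat_lit 729))], ((nat_lit 100), (nat_lit 67), (nat_lit 68))⟩, (nat_lit 746927), (nat_lit 300), (nat_lit 610), (nat_lit 21181600), (nat_lit 535871), [(nat_lit 2541792000), (nat_lit 3787168000), (nat_lit 4484502000)], [], [(nat_lit 15399025548), (nat_lit 15269341824), (nat_lit 16684347486), (nat_lit 16227000751), (nat_lit 12437061239), (nat_lit 11376531240), (nat_lit 12612626443), (nat_lit 12171850009)], (nat_lit 1271251), (nat_lit 1271251), (nat_lit 1271251), (nat_lit 1271251), (nat_lit 0), (nat_lit 780000), [(nat_lit 1695001), (nat_lit 1271251), (nat_lit 1271251)], [(nat_lit 28), (nat_lit 65), (nat_lit 428), (nat_lit 200), (nat_lit 10)]⟩⟩) (.leaf ⟨(nat_lit 54), (nat_lit 0), (nat_lit 0), (nat_lit 946), (nat_lit 0), (nat_lit 4222), (nat_lit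 10697), (nat_lit 11455), (nat_lit 0), (nat_lit 228943322), (nat_lit 216000), [((nat_lit 380), [((nat_lit 41), (nat_lit 5), (nat_lit 54))])], ⟨(nat_lit 6), false, true, true, (nat_lit 261), (nat_lit 2236), (nat_lit 3163), [(nat_lit 1538797), (nat_lit 1534240), (nat_lit 1605240), (nat_lit 1602541), (nat_lit 1706419), (nat_lit 1691033), (nat_lit 1772883), (nat_lit 1759355)]⟩, ⟨(nat_lit 5), false, true, true, (nat_lit 249), (nat_lit 2236), (nat_lit 3163), [(nat_lit 1477844), (nat_lit 1477224), (nat_lit 1544182), (nat_lit 1545421), (nat_lit 1706419), (nat_lit 1691033), (nat_lit 1772883), (nat_lit 1759355)]⟩, (nat_lit 5523892), (nat_lit 35221312), (nat_lit 16488332), (nat_lit 15290356), (nat_lit 0), (nat_lit 0), [], [], [], [],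
 ⟨⟨[(nat_lit 40), (nat_lit 80), (nat_lit 100)], [(nat_lit 0), (nat_lit 1598), (nat_lit 2533)], [((nat_lit 0), (nat_lit 0), (nat_lit 0)), ((nat_lit 1000), (nat_lit 625), (nat_lit 623)), ((nat_lit 1000), (nat_lit 604), (nat_lit 730))], ((nat_lit 61), (nat_lit 100), (nat_lit 68))⟩, (nat_lit 4566440), (nat_lit 255), (nat_lit 255), (nat_lit 0), (nat_lit 550431), [(nat_lit 1864508806), (nat_lit 5577697627), (nat_lit 4412920000)], [(nat_lit 0), (nat_lit 0), (nat_lit 0)], [(nat_lit 24072883460), (nat_lit 25183800445), (nat_lit 28972340412), (nat_lit 30130800100), (nat_lit 29630817862), (nat_lit 30711258747), (nat_lit 33321021434), (nat_lit 34161684925)], (nat_lit 1271251), (nat_lit 1271251), (nat_lit 1271251), (nat_lit 1271251), (nat_lit 1271251), (nat_lit 1271251), [(nat_lit 490000), (nat_lit 1100000), (nat_lit 1442501)], [(nat_lit 3), (nat_lit 50), (nat_lit 203), (nat_lit 0), (nat_lit 6)]⟩,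
 ⟨⟨[(nat_lit 120), (nat_lit 160), (nat_lit 180)], [(nat_lit 0), (nat_lit 533), (nat_lit 2066)], [((nat_lit 0), (nat_lit 0), (nat_lit 0)), ((nat_lit 960), (nat_lit 1000), (nat_lit 200)), ((nat_lit 615), (nat_lit 1000), (nat_lit 729))], ((nat_lit 100), (nat_lit 67), (nat_lit 68))⟩, (nat_lit 14503999), (nat_lit 849), (nat_lit 849), (nat_lit 0), (nat_lit 1288526), [(nat_lit 7537728000), (nat_lit 11230912000), (nat_lit 13298868000)], [], [(nat_lit 26001490654), (nat_lit 20960798470), (nat_lit 24578775772), (nat_lit 25317212102), (nat_lit 36981763354), (nat_lit 32334185872), (nat_lit 38596094876), (nat_lit 38391080295)], (nat_lit 1271251), (nat_lit 1271251), (nat_lit 1271251), (nat_lit 1271251), (nat_lit 780000), (nat_lit 3072501), [(nat_lit 1695001), (nat_lit 1271251), (nat_lit 1271251)], [(nat_lit 28), (nat_lit 65), (nat_lit 483), (nat_lit 250), (nat_lit 11)]⟩,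
 ⟨⟨[(nat_lit 120), (nat_lit 160), (nat_lit 180)], [(nat_lit 0), (nat_lit 533), (nat_lit 2066)], [((nat_lit 0), (nat_lit 0), (nat_lit 0)), ((nat_lit 960), (nat_lit 1000), (nat_lit 200)), ((nat_lit 615), (nat_lit 1000), (nat_lit 729))], ((nat_lit 100), (nat_lit 67), (nat_lit 68))⟩, (nat_lit 2688457), (nat_lit 300), (nat_lit 865), (nat_lit 62814400), (nat_lit 1288526), [(nat_lit 7537728000), (nat_lit 11230912000), (nat_lit 13298868000)], [], [(nat_lit 40348342846), (nat_lit 39261114328), (nat_lit 40344341892), (nat_lit 39234316180), (nat_lit 48182767629), (nat_lit 38186309756), (nat_lit 39640323919), (nat_lit 39331500954)], (nat_lit 1271251), (nat_lit 1271251), (nat_lit 1271251), (nat_lit 1271251), (nat_lit 780000), (nat_lit 3072501), [(nat_lit 1695001), (nat_lit 1271251), (nat_lit 1271251)], [(nat_lit 28), (nat_lit 65), (nat_lit 483), (nat_lit 250), (nat_lit 11)]⟩⟩))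
noncomputable def c16_41 : Tr Lf :=
 (.spl (nat_lit 1) (nat_lit 180) (.spl (nat_lit 4) (nat_lit 120) (.leaf ⟨(nat_lit 1000), (nat_lit 0), (nat_lit 0), (nat_lit 0), (nat_lit 9534), (nat_lit 2821), (nat_lit 0), (nat_lit 0), (nat_lit 0), (nat_lit 4817), (nat_lit 578200), [((nat_lit 380), [((nat_lit 26), (nat_lit 0), (nat_lit 20)), ((nat_lit 26), (nat_lit 1), (nat_lit 74)), ((nat_lit 41), (nat_lit 2), (nat_lit 906))])], ⟨(nat_lit 3), false, false, true, (nat_lit 166), (nat_lit 2236), (nat_lit 3163), [(nat_lit 1289472), (nat_lit 1294870), (nat_lit 1355794), (nat_lit 1363050), (nat_lit 1472332), (nat_lit 1465917), (nat_lit 1538797), (nat_lit 1534240)]⟩, ⟨(nat_lit 3), false, false, false, (nat_lit 101), (nat_lit 2236), (nat_lit 3163), [(nat_lit 1136876), (nat_lit 1152119), (nat_lit 1203150), (nat_lit 1220251), (nat_lit 1289472), (nat_lit 1294870), (nat_lit 1355794), (nat_lit 1363050)]⟩, (nat_lit 3501225), (nat_lit 52451056), (nat_lit 9939505), (nat_lit 4609439),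 (nat_lit 0), (nat_lit 0), [], [⟨(nat_lit 0), (nat_lit 100), (nat_lit 44), (nat_lit 86), (nat_lit 123242006)⟩], [], [],
 ⟨⟨[(nat_lit 40), (nat_lit 80), (nat_lit 120)], [(nat_lit 0), (nat_lit 1598), (nat_lit 3468)], [((nat_lit 0), (nat_lit 0), (nat_lit 0)), ((nat_lit 1000), (nat_lit 625), (nat_lit 623)), ((nat_lit 1000), (nat_lit 604), (nat_lit 730))], ((nat_lit 60), (nat_lit 100), (nat_lit 87))⟩, (nat_lit 0), (nat_lit 250), (nat_lit 250), (nat_lit 0), (nat_lit 148256), [(nat_lit 1305529601), (nat_lit 327435889), (nat_lit 0)], [(nat_lit 0), (nat_lit 0), (nat_lit 1240388000)], [(nat_lit 20401814689), (nat_lit 21631977762), (nat_lit 22851642477), (nat_lit 23884606340), (nat_lit 20315569973), (nat_lit 21437320629), (nat_lit 22632198118), (nat_lit 23578240818)], (nat_lit 1271251), (nat_lit 1271251), (nat_lit 780000), (nat_lit 1762501), (nat_lit 111251), (nat_lit 780000), [(nat_lit 490000), (nat_lit 1100000), (nat_lit 1785001)], [(nat_lit 4), (nat_lit 51),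 (nat_lit 317), (nat_lit 100), (nat_lit 10)]⟩,
 Rw.none,
 Rw.none⟩) (.leaf ⟨(nat_lit 1000), (nat_lit 0), (nat_lit 0), (nat_lit 0), (nat_lit 8623), (nat_lit 3202), (nat_lit 0), (nat_lit 0), (nat_lit 0), (nat_lit 88920720690), (nat_lit 516800), [((nat_lit 380), [((nat_lit 26), (nat_lit 1), (nat_lit 416)), ((nat_lit 41), (nat_lit 2), (nat_lit 584))])], ⟨(nat_lit 3), false, false, true, (nat_lit 166), (nat_lit 2236), (nat_lit 3163), [(nat_lit 1289472), (nat_lit 1294870), (nat_lit 1355794), (nat_lit 1363050), (nat_lit 1472332), (nat_lit 1465917), (nat_lit 1538797), (nat_lit 1534240)]⟩, ⟨(nat_lit 3), false, false, true, (nat_lit 154), (nat_lit 2236), (nat_lit 3163), [(nat_lit 1289472), (nat_lit 1294870), (nat_lit 1355794), (nat_lit 1363050), (nat_lit 1411379), (nat_lit 1408901), (nat_lit 1477844), (nat_lit 1477224)]⟩, (nat_lit 4175137), (nat_lit 48552048), (nat_lit 9755457), (nat_lit 8692495), (nat_lit 0), (nat_lit 0), [], [], [], [],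
 ⟨⟨[(nat_lit 40), (nat_lit 80), (nat_lit 120)], [(nat_lit 0), (nat_lit 1598), (nat_lit 3468)], [((nat_lit 0), (nat_lit 0), (nat_lit 0)), ((nat_lit 1000), (nat_lit 625), (nat_lit 623)), ((nat_lit 1000), (nat_lit 604), (nat_lit 730))], ((nat_lit 60), (nat_lit 100), (nat_lit 87))⟩, (nat_lit 0), (nat_lit 171), (nat_lit 171), (nat_lit 0), (nat_lit 187886), [(nat_lit 1330342461), (nat_lit 618101962), (nat_lit 0)], [(nat_lit 0), (nat_lit 0), (nat_lit 538624000)], [(nat_lit 20055778925), (nat_lit 21316333320), (nat_lit 22363028765), (nat_lit 23416720521), (nat_lit 21403679730), (nat_lit 22529626050), (nat_lit 23434943515), (nat_lit 24381391136)], (nat_lit 1271251), (nat_lit 1271251), (nat_lit 780000), (nat_lit 1762501), (nat_lit 780000), (nat_lit 1435001), [(nat_lit 490000), (nat_lit 1100000), (nat_lit 1785001)], [(nat_lit 4), (nat_lit 51), (nat_lit 345), (nat_lit 125), (nat_lit 10)]⟩,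
 Rw.none,
 Rw.none⟩)) (.spl (nat_lit 6) (nat_lit 88) (.spl (nat_lit 4) (nat_lit 120) (.spl (nat_lit 0) (nat_lit 370) (.spl (nat_lit 6) (nat_lit 72) (.leaf ⟨(nat_lit 1000), (nat_lit 0), (nat_lit 0), (nat_lit 0), (nat_lit 5741), (nat_lit 3186), (nat_lit 0), (nat_lit 0), (nat_lit 0), (nat_lit 0), (nat_lit 443200), [((nat_lit 370), [((nat_lit 25), (nat_lit 1), (nat_lit 784)), ((nat_lit 41), (nat_lit 2), (nat_lit 216))])], ⟨(nat_lit 4), false, false, false, (nat_lit 192), (nat_lit 2738), (nat_lit 3163), [(nat_lit 1355914), (nat_lit 1359435), (nat_lit 1422342), (nat_lit 1426651), (nat_lit 1538797), (nat_lit 1536642), (nat_lit 1605257), (nat_lit 1603890)]⟩, ⟨(nat_lit 3), false, false, false, (nat_lit 100), (nat_lit 2738), (nat_lit 3163), [(nat_lit 1137055), (nat_lit 1144520), (nat_lit 1203484), (nat_lit 1211736), (nat_lit 1289472), (nat_lit 1292206), (nat_lit 1355914), (nat_lit 1359435)]⟩, (nat_lit 3780952), (nat_lit 50036132), (nat_lit 12470436), (nat_lit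 4493432), (nat_lit 0), (nat_lit 0), [], [⟨(nat_lit 0), (nat_lit 100), (nat_lit 58), (nat_lit 68), (nat_lit 74940751)⟩], [], [],
 ⟨⟨[(nat_lit 40), (nat_lit 80), (nat_lit 100)], [(nat_lit 0), (nat_lit 1598), (nat_lit 2533)], [((nat_lit 0), (nat_lit 0), (nat_lit 0)), ((nat_lit 1000), (nat_lit 625), (nat_lit 623)), ((nat_lit 1000), (nat_lit 604), (nat_lit 730))], ((nat_lit 60), (nat_lit 100), (nat_lit 77))⟩, (nat_lit 0), (nat_lit 165), (nat_lit 165), (nat_lit 0), (nat_lit 88333), [(nat_lit 1363392003), (nat_lit 736288467), (nat_lit 563206400)], [(nat_lit 0), (nat_lit 0), (nat_lit 0)], [(nat_lit 20866878936), (nat_lit 21498660120), (nat_lit 23274682109), (nat_lit 23802558290), (nat_lit 20619790553), (nat_lit 21194241409), (nat_lit 22876062762), (nat_lit 23366663091)], (nat_lit 1271251), (nat_lit 1271251), (nat_lit 780000), (nat_lit 1762501), (nat_lit 111251), (nat_lit 780000), [(nat_lit 490000), (nat_lit 1100000), (nat_lit 1442501)], [(nat_lit 3), (nat_lit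 50), (nat_lit 317), (nat_lit 100), (nat_lit 12)]⟩,
 Rw.none,
 Rw.none⟩) (.dle (nat_lit 0))) (.trZ (nat_lit 0) (nat_lit 2) (nat_lit 4) (nat_lit 100) (nat_lit 57) (nat_lit 62) (nat_lit 30) (.spl (nat_lit 1) (nat_lit 220) (.leaf ⟨(nat_lit 1000), (nat_lit 0), (nat_lit 0), (nat_lit 0), (nat_lit 4722), (nat_lit 3417), (nat_lit 0), (nat_lit 0), (nat_lit 0), (nat_lit 0), (nat_lit 265750), [((nat_lit 380), [((nat_lit 26), (nat_lit 0), (nat_lit 895)), ((nat_lit 26), (nat_lit 1), (nat_lit 105))])], ⟨(nat_lit 4), false, false, false, (nat_lit 188), (nat_lit 2236), (nat_lit 2739), [(nat_lit 1359410), (nat_lit 1363145), (nat_lit 1404204), (nat_lit 1408652), (nat_lit 1536642), (nat_lit 1534240), (nat_lit 1581477), (nat_lit 1579788)]⟩, ⟨(nat_lit 3), false, false, false, (nat_lit 105), (nat_lit 2236), (nat_lit 2739), [(nat_lit 1159252), (nat_lit 1166519), (nat_lit 1226443), (nat_lit 1234781), (nat_lit 1292206), (nat_lit 1294870), (nat_lit 1359410), (nat_lit 1363145)]⟩,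 (nat_lit 3808567), (nat_lit 50088629), (nat_lit 12057630), (nat_lit 4853741), (nat_lit 0), (nat_lit 0), [], [⟨(nat_lit 0), (nat_lit 100), (nat_lit 50), (nat_lit 75), (nat_lit 88077138)⟩], [], [],
 ⟨⟨[(nat_lit 40), (nat_lit 80), (nat_lit 100)], [(nat_lit 0), (nat_lit 2008), (nat_lit 2969)], [((nat_lit 0), (nat_lit 0), (nat_lit 0)), ((nat_lit 1000), (nat_lit 540), (nat_lit 733)), ((nat_lit 1000), (nat_lit 536), (nat_lit 751))], ((nat_lit 53), (nat_lit 100), (nat_lit 83))⟩, (nat_lit 312029), (nat_lit 174), (nat_lit 174), (nat_lit 0), (nat_lit 119537), [(nat_lit 1515408003), (nat_lit 1635296822), (nat_lit 1963328000)], [(nat_lit 0), (nat_lit 0), (nat_lit 0)], [(nat_lit 21957108720), (nat_lit 22605108037), (nat_lit 24223300316), (nat_lit 24763527747), (nat_lit 21639798642), (nat_lit 22232853978), (nat_lit 23769532066), (nat_lit 24271244482)], (nat_lit 1271251), (nat_lit 1271251), (nat_lit 780000), (nat_lit 1762501), (nat_lit 169688), (nat_lit 780000), [(nat_lit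 490000), (nat_lit 1100000), (nat_lit 1442501)], [(nat_lit 3), (nat_lit 50), (nat_lit 317), (nat_lit 100), (nat_lit 12)]⟩,
 Rw.none,
 Rw.none⟩) (.leaf ⟨(nat_lit 1000), (nat_lit 0), (nat_lit 0), (nat_lit 0), (nat_lit 3777), (nat_lit 3430), (nat_lit 0), (nat_lit 0), (nat_lit 0), (nat_lit 0), (nat_lit 250000), [((nat_lit 380), [((nat_lit 26), (nat_lit 0), (nat_lit 1000))])], ⟨(nat_lit 5), false, false, false, (nat_lit 202), (nat_lit 2236), (nat_lit 2739), [(nat_lit 1404204), (nat_lit 1408652), (nat_lit 1426601), (nat_lit 1431406), (nat_lit 1581477), (nat_lit 1579788), (nat_lit 1603890), (nat_lit 1602558)]⟩, ⟨(nat_lit 3), false, false, false, (nat_lit 105), (nat_lit 2236), (nat_lit 2739), [(nat_lit 1159252), (nat_lit 1166519), (nat_lit 1226443), (nat_lit 1234781), (nat_lit 1292206), (nat_lit 1294870), (nat_lit 1359410), (nat_lit 1363145)]⟩, (nat_lit 3940763), (nat_lit 48822450), (nat_lit 13361055), (nat_lit 4816495), (nat_lit 0), (nat_lit 0), [], [⟨(nat_lit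 0), (nat_lit 100), (nat_lit 50), (nat_lit 75), (nat_lit 98298015)⟩], [], [],
 ⟨⟨[(nat_lit 40), (nat_lit 80), (nat_lit 100)], [(nat_lit 0), (nat_lit 2008), (nat_lit 2969)], [((nat_lit 0), (nat_lit 0), (nat_lit 0)), ((nat_lit 1000), (nat_lit 540), (nat_lit 733)), ((nat_lit 1000), (nat_lit 536), (nat_lit 751))], ((nat_lit 53), (nat_lit 100), (nat_lit 83))⟩, (nat_lit 352020), (nat_lit 192), (nat_lit 192), (nat_lit 0), (nat_lit 146876), [(nat_lit 1531200007), (nat_lit 1715200045), (nat_lit 2090000000)], [(nat_lit 0), (nat_lit 0), (nat_lit 0)], [(nat_lit 21962264734), (nat_lit 22611450582), (nat_lit 24226666189), (nat_lit 24788060189), (nat_lit 21637658519), (nat_lit 22231760860), (nat_lit 23765454827), (nat_lit 24288075464)], (nat_lit 1271251), (nat_lit 1271251), (nat_lit 780000), (nat_lit 1762501), (nat_lit 169688), (nat_lit 780000), [(nat_lit 490000), (nat_lit 1100000), (nat_lit 1442501)], [(nat_lit 3), (nat_lit 50), (nat_lit 317), (nat_lit 100), (nat_lit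 12)]⟩,
 Rw.none,
 Rw.none⟩)))) (.spl (nat_lit 0) (nat_lit 370) (.spl (nat_lit 6) (nat_lit 72) (.leaf ⟨(nat_lit 1000), (nat_lit 0), (nat_lit 0), (nat_lit 0), (nat_lit 6473), (nat_lit 3455), (nat_lit 0), (nat_lit 0), (nat_lit 0), (nat_lit 0), (nat_lit 433750), [((nat_lit 370), [((nat_lit 25), (nat_lit 0), (nat_lit 475)), ((nat_lit 41), (nat_lit 2), (nat_lit 525))])], ⟨(nat_lit 4), false, false, false, (nat_lit 192), (nat_lit 2738), (nat_lit 3163), [(nat_lit 1355914), (nat_lit 1359435), (nat_lit 1422342), (nat_lit 1426651), (nat_lit 1538797), (nat_lit 1536642), (nat_lit 1605257), (nat_lit 1603890)]⟩, ⟨(nat_lit 3), false, false, true, (nat_lit 154), (nat_lit 2738), (nat_lit 3163), [(nat_lit 1289472), (nat_lit 1292206), (nat_lit 1355914), (nat_lit 1359435), (nat_lit 1411379), (nat_lit 1410329), (nat_lit 1477844), (nat_lit 1477581)]⟩, (nat_lit 4432802), (nat_lit 46370961), (nat_lit 12116586), (nat_lit 8512453), (nat_lit 0), (nat_lit 0), [], [], [], [],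
 ⟨⟨[(nat_lit 40), (nat_lit 80), (nat_lit 100)], [(nat_lit 0), (nat_lit 1598), (nat_lit 2533)], [((nat_lit 0), (nat_lit 0), (nat_lit 0)), ((nat_lit 1000), (nat_lit 625), (nat_lit 623)), ((nat_lit 1000), (nat_lit 604), (nat_lit 730))], ((nat_lit 60), (nat_lit 100), (nat_lit 77))⟩, (nat_lit 0), (nat_lit 116), (nat_lit 116), (nat_lit 0), (nat_lit 108491), [(nat_lit 1405481475), (nat_lit 1027336068), (nat_lit 630990000)], [(nat_lit 0), (nat_lit 0), (nat_lit 0)], [(nat_lit 19717828813), (nat_lit 20427755618), (nat_lit 22226343450), (nat_lit 22824003565), (nat_lit 21179270105), (nat_lit 21804335895), (nat_lit 23373029740), (nat_lit 23895359300)], (nat_lit 1271251), (nat_lit 1271251), (nat_lit 780000), (nat_lit 1762501), (nat_lit 780000), (nat_lit 1435001), [(nat_lit 490000), (nat_lit 1100000), (nat_lit 1442501)], [(nat_lit 3), (nat_lit 50), (nat_lit 345), (nat_lit 125), (nat_lit 12)]⟩,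
 Rw.none,
 Rw.none⟩) (.dle (nat_lit 0))) (.spl (nat_lit 1) (nat_lit 220) (.leaf ⟨(nat_lit 1000), (nat_lit 0), (nat_lit 0), (nat_lit 0), (nat_lit 5151), (nat_lit 3582), (nat_lit 0), (nat_lit 0), (nat_lit 0), (nat_lit 0), (nat_lit 250000), [((nat_lit 380), [((nat_lit 26), (nat_lit 0), (nat_lit 1000))])], ⟨(nat_lit 4), false, false, false, (nat_lit 188), (nat_lit 2236), (nat_lit 2739), [(nat_lit 1359410), (nat_lit 1363145), (nat_lit 1404204), (nat_lit 1408652), (nat_lit 1536642), (nat_lit 1534240), (nat_lit 1581477), (nat_lit 1579788)]⟩, ⟨(nat_lit 3), false, false, true, (nat_lit 154), (nat_lit 2236), (nat_lit 2739), [(nat_lit 1292206), (nat_lit 1294870), (nat_lit 1359410), (nat_lit 1363145), (nat_lit 1410329), (nat_lit 1408901), (nat_lit 1477581), (nat_lit 1477224)]⟩, (nat_lit 4401348), (nat_lit 46673781), (nat_lit 11747747), (nat_lit 8578472), (nat_lit 0), (nat_lit 0), [], [], [], [],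
 ⟨⟨[(nat_lit 40), (nat_lit 80), (nat_lit 100)], [(nat_lit 0), (nat_lit 2008), (nat_lit 2969)], [((nat_lit 0), (nat_lit 0), (nat_lit 0)), ((nat_lit 1000), (nat_lit 540), (nat_lit 733)), ((nat_lit 1000), (nat_lit 536), (nat_lit 751))], ((nat_lit 53), (nat_lit 100), (nat_lit 83))⟩, (nat_lit 391981), (nat_lit 135), (nat_lit 135), (nat_lit 0), (nat_lit 147077), [(nat_lit 1531200027), (nat_lit 2001852350), (nat_lit 2090000000)], [(nat_lit 0), (nat_lit 0), (nat_lit 0)], [(nat_lit 20714698177), (nat_lit 21455588897), (nat_lit 23087633739), (nat_lit 23701026371), (nat_lit 22081397606), (nat_lit 22717326722), (nat_lit 24149639480), (nat_lit 24679456815)], (nat_lit 1271251), (nat_lit 1271251), (nat_lit 780000), (nat_lit 1762501), (nat_lit 780000), (nat_lit 1435001), [(nat_lit 490000), (nat_lit 1100000), (nat_lit 1442501)], [(nat_lit 3), (nat_lit 50), (nat_lit 345), (nat_lit 125), (nat_lit 12)]⟩,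
 Rw.none,
 Rw.none⟩) (.leaf ⟨(nat_lit 1000), (nat_lit 0), (nat_lit 0), (nat_lit 0), (nat_lit 3927), (nat_lit 3582), (nat_lit 0), (nat_lit 0), (nat_lit 0), (nat_lit 0), (nat_lit 250000), [((nat_lit 380), [((nat_lit 26), (nat_lit 0), (nat_lit 1000))])], ⟨(nat_lit 5), false, false, false, (nat_lit 202), (nat_lit 2236), (nat_lit 2739), [(nat_lit 1404204), (nat_lit 1408652), (nat_lit 1426601), (nat_lit 1431406), (nat_lit 1581477), (nat_lit 1579788), (nat_lit 1603890), (nat_lit 1602558)]⟩, ⟨(nat_lit 3), false, false, true, (nat_lit 154), (nat_lit 2236), (nat_lit 2739), [(nat_lit 1292206), (nat_lit 1294870), (nat_lit 1359410), (nat_lit 1363145), (nat_lit 1410329), (nat_lit 1408901), (nat_lit 1477581), (nat_lit 1477224)]⟩, (nat_lit 4518375), (nat_lit 45549720), (nat_lit 12968496), (nat_lit 8481784), (nat_lit 0), (nat_lit 0), [], [], [], [],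
 ⟨⟨[(nat_lit 40), (nat_lit 80), (nat_lit 100)], [(nat_lit 0), (nat_lit 2008), (nat_lit 2969)], [((nat_lit 0), (nat_lit 0), (nat_lit 0)), ((nat_lit 1000), (nat_lit 540), (nat_lit 733)), ((nat_lit 1000), (nat_lit 536), (nat_lit 751))], ((nat_lit 53), (nat_lit 100), (nat_lit 83))⟩, (nat_lit 391981), (nat_lit 145), (nat_lit 145), (nat_lit 0), (nat_lit 179241), [(nat_lit 1531200013), (nat_lit 1853423912), (nat_lit 2090000000)], [(nat_lit 0), (nat_lit 0), (nat_lit 0)], [(nat_lit 20714698163), (nat_lit 21455588897), (nat_lit 23087633725), (nat_lit 23701026371), (nat_lit 22081397592), (nat_lit 22717326708), (nat_lit 24149639466), (nat_lit 24679456801)], (nat_lit 1271251), (nat_lit 1271251), (nat_lit 780000), (nat_lit 1762501), (nat_lit 780000), (nat_lit 1435001), [(nat_lit 490000), (nat_lit 1100000), (nat_lit 1442501)], [(nat_lit 3), (nat_lit 50), (nat_lit 345), (nat_lit 125), (nat_lit 12)]⟩,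
 Rw.none,
 Rw.none⟩)))) (.dle (nat_lit 0))))
noncomputable def c16_42 : Tr Lf :=
 (.ord (.trZ (nat_lit 0) (nat_lit 2) (nat_lit 4) (nat_lit 100) (nat_lit 60) (nat_lit 74) (nat_lit 60) (.spl (nat_lit 6) (nat_lit 68) (.spl (nat_lit 2) (nat_lit 220) (.spl (nat_lit 2) (nat_lit 200) (.spl (nat_lit 0) (nat_lit 370) (.spl (nat_lit 6) (nat_lit 56) (.leaf ⟨(nat_lit 1000), (nat_lit 0), (nat_lit 0), (nat_lit 0), (nat_lit 57825), (nat_lit 3225), (nat_lit 0), (nat_lit 0), (nat_lit 0), (nat_lit 54549), (nat_lit 466400), [((nat_lit 370), [((nat_lit 25), (nat_lit 1), (nat_lit 668)), ((nat_lit 41), (nat_lit 2), (nat_lit 332))])], ⟨(nat_lit 4), false, false, false, (nat_lit 192), (nat_lit 2738), (nat_lit 3163), [(nat_lit 1355914), (nat_lit 1359435), (nat_lit 1422342), (nat_lit 1426651), (nat_lit 1538797), (nat_lit 1536642), (nat_lit 1605257), (nat_lit 1603890)]⟩, ⟨(nat_lit 4), false, false, false, (nat_lit 154), (nat_lit 2738), (nat_lit 3163), [(nat_lit 1264456), (nat_lit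 1270816), (nat_lit 1286599), (nat_lit 1293221), (nat_lit 1477844), (nat_lit 1477581), (nat_lit 1499999), (nat_lit 1499999)]⟩, (nat_lit 4430886), (nat_lit 46384002), (nat_lit 12118165), (nat_lit 8497833), (nat_lit 0), (nat_lit 0), [], [], [], [],
 ⟨⟨[(nat_lit 40), (nat_lit 80), (nat_lit 100)], [(nat_lit 0), (nat_lit 1598), (nat_lit 2533)], [((nat_lit 0), (nat_lit 0), (nat_lit 0)), ((nat_lit 1000), (nat_lit 625), (nat_lit 623)), ((nat_lit 1000), (nat_lit 604), (nat_lit 730))], ((nat_lit 61), (nat_lit 100), (nat_lit 70))⟩, (nat_lit 0), (nat_lit 122), (nat_lit 122), (nat_lit 0), (nat_lit 31894), [(nat_lit 1353184015), (nat_lit 827371601), (nat_lit 374172800)], [(nat_lit 0), (nat_lit 0), (nat_lit 0)], [(nat_lit 19524555159), (nat_lit 20258511943), (nat_lit 22174069290), (nat_lit 22775821022), (nat_lit 21150390665), (nat_lit 21755782715), (nat_lit 23379294990), (nat_lit 23886069672)], (nat_lit 1271251), (nat_lit 1271251), (nat_lit 780000), (nat_lit 1762501),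 (nat_lit 356250), (nat_lit 1423751), [(nat_lit 490000), (nat_lit 1100000), (nat_lit 1442501)], [(nat_lit 3), (nat_lit 50), (nat_lit 345), (nat_lit 125), (nat_lit 13)]⟩,
 Rw.none,
 Rw.none⟩) (.dle (nat_lit 0))) (.trZ (nat_lit 0) (nat_lit 2) (nat_lit 4) (nat_lit 100) (nat_lit 53) (nat_lit 80) (nat_lit 70) (.leaf ⟨(nat_lit 1000), (nat_lit 0), (nat_lit 0), (nat_lit 0), (nat_lit 2809), (nat_lit 3526), (nat_lit 0), (nat_lit 0), (nat_lit 0), (nat_lit 4870), (nat_lit 250000), [((nat_lit 380), [((nat_lit 25), (nat_lit 0), (nat_lit 1000))])], ⟨(nat_lit 4), false, false, false, (nat_lit 193), (nat_lit 2236), (nat_lit 2739), [(nat_lit 1359410), (nat_lit 1363145), (nat_lit 1426601), (nat_lit 1431406), (nat_lit 1536642), (nat_lit 1534240), (nat_lit 1603890), (nat_lit 1602558)]⟩, ⟨(nat_lit 4), false, false, false, (nat_lit 158), (nat_lit 2236), (nat_lit 2739), [(nat_lit 1285540), (nat_lit 1291832), (nat_lit 1307937), (nat_lit 1314586), (nat_lit 1477581), (nat_lit 1477224),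 (nat_lit 1499999), (nat_lit 1499999)]⟩, (nat_lit 4478525), (nat_lit 46045214), (nat_lit 12121160), (nat_lit 8833626), (nat_lit 0), (nat_lit 0), [], [], [], [],
 ⟨⟨[(nat_lit 40), (nat_lit 80), (nat_lit 100)], [(nat_lit 0), (nat_lit 2008), (nat_lit 2969)], [((nat_lit 0), (nat_lit 0), (nat_lit 0)), ((nat_lit 1000), (nat_lit 540), (nat_lit 733)), ((nat_lit 1000), (nat_lit 536), (nat_lit 751))], ((nat_lit 53), (nat_lit 100), (nat_lit 76))⟩, (nat_lit 426016), (nat_lit 134), (nat_lit 134), (nat_lit 0), (nat_lit 75481), [(nat_lit 1528000003), (nat_lit 1944847124), (nat_lit 2118000000)], [(nat_lit 0), (nat_lit 0), (nat_lit 0)], [(nat_lit 20546209041), (nat_lit 21346728431), (nat_lit 23028795850), (nat_lit 23688684875), (nat_lit 22068588723), (nat_lit 22699727711), (nat_lit 24146563159), (nat_lit 24672765960)], (nat_lit 1271251), (nat_lit 1271251), (nat_lit 780000), (nat_lit 1762501), (nat_lit 422188), (nat_lit 1425626), [(nat_lit 490000), (nat_lit 1100000), (nat_lit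 1442501)], [(nat_lit 3), (nat_lit 50), (nat_lit 345), (nat_lit 125), (nat_lit 12)]⟩,
 Rw.none,
 Rw.none⟩))) (.ord (.trZ (nat_lit 0) (nat_lit 2) (nat_lit 4) (nat_lit 100) (nat_lit 60) (nat_lit 80) (nat_lit 80) (.leaf ⟨(nat_lit 934), (nat_lit 23), (nat_lit 0), (nat_lit 43), (nat_lit 4702), (nat_lit 3293), (nat_lit 839), (nat_lit 529), (nat_lit 0), (nat_lit 1066), (nat_lit 472400), [((nat_lit 380), [((nat_lit 25), (nat_lit 1), (nat_lit 440)), ((nat_lit 41), (nat_lit 2), (nat_lit 494))])], ⟨(nat_lit 5), false, false, false, (nat_lit 197), (nat_lit 2236), (nat_lit 3163), [(nat_lit 1377885), (nat_lit 1385761), (nat_lit 1422068), (nat_lit 1431182), (nat_lit 1560952), (nat_lit 1557014), (nat_lit 1605240), (nat_lit 1602541)]⟩, ⟨(nat_lit 5), false, false, false, (nat_lit 169), (nat_lit 2236), (nat_lit 3163), [(nat_lit 1316827), (nat_lit 1328641), (nat_lit 1338920), (nat_lit 1351352), (nat_lit 1499999), (nat_lit 1499999), (nat_lit 1522091), (nat_lit 1522710)]⟩,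 (nat_lit 4625647), (nat_lit 44891606), (nat_lit 12388829), (nat_lit 9719565), (nat_lit 5), (nat_lit 0), [], [⟨(nat_lit 0), (nat_lit 100), (nat_lit 44), (nat_lit 94), (nat_lit 46972282)⟩], [⟨(nat_lit 0), (nat_lit 100), (nat_lit 98), (nat_lit 30), (nat_lit 152255)⟩], [],
 ⟨⟨[(nat_lit 40), (nat_lit 80), (nat_lit 100)], [(nat_lit 0), (nat_lit 1598), (nat_lit 2533)], [((nat_lit 0), (nat_lit 0), (nat_lit 0)), ((nat_lit 1000), (nat_lit 625), (nat_lit 623)), ((nat_lit 1000), (nat_lit 604), (nat_lit 730))], ((nat_lit 60), (nat_lit 100), (nat_lit 75))⟩, (nat_lit 0), (nat_lit 125), (nat_lit 125), (nat_lit 0), (nat_lit 71992), [(nat_lit 1366357601), (nat_lit 923732316), (nat_lit 462274400)], [(nat_lit 0), (nat_lit 0), (nat_lit 0)], [(nat_lit 19252687195), (nat_lit 20702624471), (nat_lit 21893233091), (nat_lit 23090196640), (nat_lit 21168813699), (nat_lit 22391230967), (nat_lit 23387327420), (nat_lit 24452066062)], (nat_lit 1271251), (nat_lit 1271251), (nat_lit 780000),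 (nat_lit 1762501), (nat_lit 490000), (nat_lit 1427501), [(nat_lit 490000), (nat_lit 1100000), (nat_lit 1442501)], [(nat_lit 3), (nat_lit 50), (nat_lit 345), (nat_lit 125), (nat_lit 12)]⟩,
 ⟨⟨[(nat_lit 100), (nat_lit 140), (nat_lit 180)], [(nat_lit 0), (nat_lit 0), (nat_lit 2434)], [((nat_lit 0), (nat_lit 0), (nat_lit 0)), ((nat_lit 0), (nat_lit 0), (nat_lit 0)), ((nat_lit 726), (nat_lit 1000), (nat_lit 688))], ((nat_lit 100), (nat_lit 66), (nat_lit 75))⟩, (nat_lit 164997), (nat_lit 446), (nat_lit 446), (nat_lit 0), (nat_lit 198107), [(nat_lit 412500000), (nat_lit 649572000), (nat_lit 927828000)], [], [(nat_lit 3437316857), (nat_lit 2543220494), (nat_lit 2459199308), (nat_lit 2476393086), (nat_lit 3158947960), (nat_lit 2539925746), (nat_lit 4430358550), (nat_lit 3685036256)], (nat_lit 1271251), (nat_lit 1271251), (nat_lit 780000), (nat_lit 1762501), (nat_lit 0), (nat_lit 2825001), [(nat_lit 1412501), (nat_lit 1271251), (nat_lit 1271251)], [(nat_lit 24),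 (nat_lit 63), (nat_lit 456), (nat_lit 225), (nat_lit 11)]⟩,
 ⟨⟨[(nat_lit 100), (nat_lit 140), (nat_lit 180)], [(nat_lit 0), (nat_lit 0), (nat_lit 2434)], [((nat_lit 0), (nat_lit 0), (nat_lit 0)), ((nat_lit 0), (nat_lit 0), (nat_lit 0)), ((nat_lit 726), (nat_lit 1000), (nat_lit 688))], ((nat_lit 100), (nat_lit 66), (nat_lit 75))⟩, (nat_lit 24804), (nat_lit 300), (nat_lit 544), (nat_lit 3022900), (nat_lit 262044), [(nat_lit 268750000), (nat_lit 423206000), (nat_lit 604494000)], [], [(nat_lit 2776195274), (nat_lit 2489918989), (nat_lit 2295623215), (nat_lit 2278518804), (nat_lit 2049120026), (nat_lit 2030659483), (nat_lit 2565811497), (nat_lit 2327771284)], (nat_lit 1271251), (nat_lit 1271251), (nat_lit 490000), (nat_lit 1427501), (nat_lit 0), (nat_lit 2825001), [(nat_lit 1412501), (nat_lit 1271251), (nat_lit 1271251)], [(nat_lit 24), (nat_lit 63), (nat_lit 456), (nat_lit 225), (nat_lit 11)]⟩⟩)))) (.ord (.trZ (nat_lit 0) (nat_lit 2) (nat_lit 4) (nat_lit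 100) (nat_lit 60) (nat_lit 86) (nat_lit 90) (.spl (nat_lit 0) (nat_lit 370) (.spl (nat_lit 6) (nat_lit 56) (.leaf ⟨(nat_lit 909), (nat_lit 42), (nat_lit 0), (nat_lit 49), (nat_lit 9363), (nat_lit 3343), (nat_lit 757), (nat_lit 800), (nat_lit 0), (nat_lit 1325746598493), (nat_lit 519250), [((nat_lit 370), [((nat_lit 25), (nat_lit 0), (nat_lit 61)), ((nat_lit 25), (nat_lit 1), (nat_lit 24)), ((nat_lit 41), (nat_lit 2), (nat_lit 824))])], ⟨(nat_lit 5), false, false, false, (nat_lit 201), (nat_lit 2738), (nat_lit 3163), [(nat_lit 1400199), (nat_lit 1404246), (nat_lit 1422342), (nat_lit 1426651), (nat_lit 1583107), (nat_lit 1581477), (nat_lit 1605257), (nat_lit 1603890)]⟩, ⟨(nat_lit 5), false, false, false, (nat_lit 180), (nat_lit 2738), (nat_lit 3163), [(nat_lit 1354470), (nat_lit 1359935), (nat_lit 1376613), (nat_lit 1382341), (nat_lit 1522142), (nat_lit 1522405), (nat_lit 1544285), (nat_lit 1544810)]⟩, (nat_lit 4761998), (nat_lit 43749808), (nat_lit 12636313),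 (nat_lit 10613879), (nat_lit 5), (nat_lit 0), [⟨(nat_lit 0), (nat_lit 100), (nat_lit 54), (nat_lit 96), (nat_lit 241553)⟩], [⟨(nat_lit 0), (nat_lit 100), (nat_lit 54), (nat_lit 96), (nat_lit 39593354)⟩], [], [],
 ⟨⟨[(nat_lit 40), (nat_lit 80), (nat_lit 100)], [(nat_lit 0), (nat_lit 1598), (nat_lit 2533)], [((nat_lit 0), (nat_lit 0), (nat_lit 0)), ((nat_lit 1000), (nat_lit 625), (nat_lit 623)), ((nat_lit 1000), (nat_lit 604), (nat_lit 730))], ((nat_lit 61), (nat_lit 100), (nat_lit 70))⟩, (nat_lit 551), (nat_lit 107), (nat_lit 107), (nat_lit 0), (nat_lit 33540), [(nat_lit 1356589205), (nat_lit 677861272), (nat_lit 131247200)], [(nat_lit 0), (nat_lit 0), (nat_lit 0)], [(nat_lit 18969318437), (nat_lit 19687608558), (nat_lit 21625871764), (nat_lit 22412415475), (nat_lit 20765701720), (nat_lit 21381558420), (nat_lit 23144621798), (nat_lit 23817999780)], (nat_lit 1271251), (nat_lit 1271251), (nat_lit 780000), (nat_lit 1762501), (nat_lit 559688), (nat_lit 1429376),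 [(nat_lit 490000), (nat_lit 1100000), (nat_lit 1442501)], [(nat_lit 3), (nat_lit 50), (nat_lit 345), (nat_lit 125), (nat_lit 12)]⟩,
 ⟨⟨[(nat_lit 100), (nat_lit 140), (nat_lit 180)], [(nat_lit 0), (nat_lit 508), (nat_lit 2854)], [((nat_lit 0), (nat_lit 0), (nat_lit 0)), ((nat_lit 1000), (nat_lit 1000), (nat_lit 198)), ((nat_lit 777), (nat_lit 1000), (nat_lit 712))], ((nat_lit 100), (nat_lit 79), (nat_lit 70))⟩, (nat_lit 263200), (nat_lit 398), (nat_lit 398), (nat_lit 0), (nat_lit 94298), [(nat_lit 568750000), (nat_lit 895622000), (nat_lit 1279278000)], [], [(nat_lit 3720061156), (nat_lit 3316609300), (nat_lit 3314697758), (nat_lit 3336400192), (nat_lit 3802114174), (nat_lit 3452439220), (nat_lit 5086299669), (nat_lit 4750060708)], (nat_lit 1271251), (nat_lit 1271251), (nat_lit 780000), (nat_lit 1762501), (nat_lit 0), (nat_lit 2825001), [(nat_lit 1412501), (nat_lit 1271251), (nat_lit 1271251)], [(nat_lit 24), (nat_lit 63), (nat_lit 456), (nat_lit 225),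 (nat_lit 11)]⟩,
 ⟨⟨[(nat_lit 100), (nat_lit 140), (nat_lit 180)], [(nat_lit 0), (nat_lit 508), (nat_lit 2854)], [((nat_lit 0), (nat_lit 0), (nat_lit 0)), ((nat_lit 1000), (nat_lit 1000), (nat_lit 198)), ((nat_lit 777), (nat_lit 1000), (nat_lit 712))], ((nat_lit 100), (nat_lit 79), (nat_lit 70))⟩, (nat_lit 31259), (nat_lit 300), (nat_lit 414), (nat_lit 3331275), (nat_lit 94298), [(nat_lit 306250000), (nat_lit 482258000), (nat_lit 688842000)], [], [(nat_lit 3033006860), (nat_lit 2601715560), (nat_lit 2353963072), (nat_lit 2344034704), (nat_lit 2244847322), (nat_lit 2230905333), (nat_lit 2821778640), (nat_lit 2461793440)], (nat_lit 1271251), (nat_lit 1271251), (nat_lit 559688), (nat_lit 1429376), (nat_lit 0), (nat_lit 2825001), [(nat_lit 1412501), (nat_lit 1271251), (nat_lit 1271251)], [(nat_lit 24), (nat_lit 63), (nat_lit 456), (nat_lit 225), (nat_lit 11)]⟩⟩) (.dle (nat_lit 0))) (.trZ (nat_lit 0) (nat_lit 2) (nat_lit 4) (nat_lit 100) (nat_lit 53) (nat_lit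 90) (nat_lit 110) (.leaf ⟨(nat_lit 928), (nat_lit 11), (nat_lit 0), (nat_lit 61), (nat_lit 3193), (nat_lit 3605), (nat_lit 855), (nat_lit 1219), (nat_lit 0), (nat_lit 5636271819), (nat_lit 232000), [((nat_lit 380), [((nat_lit 25), (nat_lit 0), (nat_lit 928))])], ⟨(nat_lit 5), false, false, false, (nat_lit 202), (nat_lit 2236), (nat_lit 2739), [(nat_lit 1404204), (nat_lit 1408652), (nat_lit 1426601), (nat_lit 1431406), (nat_lit 1581477), (nat_lit 1579788), (nat_lit 1603890), (nat_lit 1602558)]⟩, ⟨(nat_lit 5), false, false, false, (nat_lit 187), (nat_lit 2236), (nat_lit 2739), [(nat_lit 1389430), (nat_lit 1394390), (nat_lit 1411827), (nat_lit 1417144), (nat_lit 1522397), (nat_lit 1522754), (nat_lit 1544794), (nat_lit 1545508)]⟩, (nat_lit 4826084), (nat_lit 43201399), (nat_lit 12602242), (nat_lit 11196359), (nat_lit 5), (nat_lit 0), [], [⟨(nat_lit 0), (nat_lit 100), (nat_lit 49), (nat_lit 95), (nat_lit 76690684)⟩], [⟨(nat_lit 0), (nat_lit 100), (nat_lit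 100), (nat_lit 40), (nat_lit 10584223)⟩], [],
 ⟨⟨[(nat_lit 40), (nat_lit 80), (nat_lit 100)], [(nat_lit 0), (nat_lit 2008), (nat_lit 2969)], [((nat_lit 0), (nat_lit 0), (nat_lit 0)), ((nat_lit 1000), (nat_lit 540), (nat_lit 733)), ((nat_lit 1000), (nat_lit 536), (nat_lit 751))], ((nat_lit 53), (nat_lit 100), (nat_lit 76))⟩, (nat_lit 586778), (nat_lit 121), (nat_lit 121), (nat_lit 0), (nat_lit 88036), [(nat_lit 1547440004), (nat_lit 2201098914), (nat_lit 2415504000)], [(nat_lit 0), (nat_lit 0), (nat_lit 0)], [(nat_lit 20365765562), (nat_lit 21132044259), (nat_lit 22775301775), (nat_lit 23572862746), (nat_lit 21818733142), (nat_lit 22457025473), (nat_lit 23998965800), (nat_lit 24697371070)], (nat_lit 1271251), (nat_lit 1271251), (nat_lit 780000), (nat_lit 1762501), (nat_lit 704688), (nat_lit 1433125), [(nat_lit 490000), (nat_lit 1100000), (nat_lit 1442501)], [(nat_lit 3), (nat_lit 50), (nat_lit 345), (nat_lit 125), (nat_lit 12)]⟩,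
 ⟨⟨[(nat_lit 100), (nat_lit 140), (nat_lit 180)], [(nat_lit 0), (nat_lit 508), (nat_lit 2854)], [((nat_lit 0), (nat_lit 0), (nat_lit 0)), ((nat_lit 1000), (nat_lit 1000), (nat_lit 198)), ((nat_lit 777), (nat_lit 1000), (nat_lit 712))], ((nat_lit 100), (nat_lit 74), (nat_lit 76))⟩, (nat_lit 145288), (nat_lit 457), (nat_lit 457), (nat_lit 0), (nat_lit 235599), [(nat_lit 450000000), (nat_lit 708624000), (nat_lit 1012176000)], [], [(nat_lit 3201279863), (nat_lit 2745597780), (nat_lit 2678471581), (nat_lit 2689728056), (nat_lit 3020468202), (nat_lit 2784929984), (nat_lit 4349933955), (nat_lit 3970166040)], (nat_lit 1271251), (nat_lit 1271251), (nat_lit 780000), (nat_lit 1762501), (nat_lit 0), (nat_lit 2825001), [(nat_lit 1412501), (nat_lit 1271251), (nat_lit 1271251)], [(nat_lit 24), (nat_lit 63), (nat_lit 456), (nat_lit 225), (nat_lit 11)]⟩,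
 ⟨⟨[(nat_lit 100), (nat_lit 140), (nat_lit 180)], [(nat_lit 0), (nat_lit 508), (nat_lit 2854)], [((nat_lit 0), (nat_lit 0), (nat_lit 0)), ((nat_lit 1000), (nat_lit 1000), (nat_lit 198)), ((nat_lit 777), (nat_lit 1000), (nat_lit 712))], ((nat_lit 100), (nat_lit 74), (nat_lit 76))⟩, (nat_lit 38914), (nat_lit 300), (nat_lit 463), (nat_lit 4147098), (nat_lit 235599), [(nat_lit 381250000), (nat_lit 600362000), (nat_lit 857538000)], [], [(nat_lit 3532791747), (nat_lit 3157585909), (nat_lit 2862566082), (nat_lit 2841650204), (nat_lit 2788594147), (nat_lit 2816324141), (nat_lit 3717913379), (nat_lit 3169385930)], (nat_lit 1271251), (nat_lit 1271251), (nat_lit 704688), (nat_lit 1433125), (nat_lit 0), (nat_lit 2825001), [(nat_lit 1412501), (nat_lit 1271251), (nat_lit 1271251)], [(nat_lit 24), (nat_lit 63), (nat_lit 456), (nat_lit 225), (nat_lit 11)]⟩⟩)))))) (.dle (nat_lit 0)))))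
noncomputable def c16_43 : Tr Lf :=
 (.trX (nat_lit 3) (nat_lit 0) (nat_lit 1) (nat_lit 60) (nat_lit 86) (nat_lit 100) (nat_lit 310) (.spl (nat_lit 4) (nat_lit 120) (.trX (nat_lit 5) (nat_lit 3) (nat_lit 4) (nat_lit 100) (nat_lit 59) (nat_lit 94) (nat_lit 370) (.leaf ⟨(nat_lit 1000), (nat_lit 0), (nat_lit 0), (nat_lit 0), (nat_lit 8905), (nat_lit 2874), (nat_lit 0), (nat_lit 0), (nat_lit 0), (nat_lit 31994), (nat_lit 496800), [((nat_lit 380), [((nat_lit 26), (nat_lit 1), (nat_lit 516)), ((nat_lit 41), (nat_lit 2), (nat_lit 484))])], ⟨(nat_lit 6), false, false, true, (nat_lit 222), (nat_lit 2236), (nat_lit 3163), [(nat_lit 1472332), (nat_lit 1465917), (nat_lit 1538797), (nat_lit 1534240), (nat_lit 1579000), (nat_lit 1565693), (nat_lit 1645465), (nat_lit 1634017)]⟩, ⟨(nat_lit 3), false, false, false, (nat_lit 101), (nat_lit 2236), (nat_lit 3163), [(nat_lit 1136876), (nat_lit 1152119), (nat_lit 1203150), (nat_lit 1220251), (nat_lit 1289472), (nat_lit 1294870),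 (nat_lit 1355794), (nat_lit 1363050)]⟩, (nat_lit 4058863), (nat_lit 47192430), (nat_lit 15330058), (nat_lit 4477512), (nat_lit 0), (nat_lit 0), [⟨(nat_lit 1), (nat_lit 99), (nat_lit 54), (nat_lit 100), (nat_lit 312063316)⟩], [⟨(nat_lit 0), (nat_lit 100), (nat_lit 54), (nat_lit 71), (nat_lit 90694882)⟩, ⟨(nat_lit 0), (nat_lit 100), (nat_lit 44), (nat_lit 86), (nat_lit 10185754)⟩], [], [],
 ⟨⟨[(nat_lit 40), (nat_lit 80), (nat_lit 120)], [(nat_lit 0), (nat_lit 1598), (nat_lit 3468)], [((nat_lit 0), (nat_lit 0), (nat_lit 0)), ((nat_lit 1000), (nat_lit 625), (nat_lit 623)), ((nat_lit 1000), (nat_lit 604), (nat_lit 730))], ((nat_lit 60), (nat_lit 100), (nat_lit 87))⟩, (nat_lit 0), (nat_lit 225), (nat_lit 225), (nat_lit 0), (nat_lit 148256), [(nat_lit 1338982404), (nat_lit 598187031), (nat_lit 0)], [(nat_lit 0), (nat_lit 0), (nat_lit 310024000)], [(nat_lit 23785841261), (nat_lit 24825930206), (nat_lit 26181772244), (nat_lit 27092209586), (nat_lit 23530792112),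 (nat_lit 24483549912), (nat_lit 25776733549), (nat_lit 26749979585)], (nat_lit 1271251), (nat_lit 1271251), (nat_lit 1271251), (nat_lit 1271251), (nat_lit 111251), (nat_lit 780000), [(nat_lit 490000), (nat_lit 1100000), (nat_lit 1785001)], [(nat_lit 4), (nat_lit 51), (nat_lit 238), (nat_lit 30), (nat_lit 7)]⟩,
 Rw.none,
 Rw.none⟩)) (.leaf ⟨(nat_lit 1000), (nat_lit 0), (nat_lit 0), (nat_lit 0), (nat_lit 8577), (nat_lit 3077), (nat_lit 0), (nat_lit 0), (nat_lit 0), (nat_lit 590700), (nat_lit 492600), [((nat_lit 380), [((nat_lit 26), (nat_lit 1), (nat_lit 537)), ((nat_lit 41), (nat_lit 2), (nat_lit 463))])], ⟨(nat_lit 6), false, false, true, (nat_lit 222), (nat_lit 2236), (nat_lit 3163), [(nat_lit 1472332), (nat_lit 1465917), (nat_lit 1538797), (nat_lit 1534240), (nat_lit 1579000), (nat_lit 1565693), (nat_lit 1645465), (nat_lit 1634017)]⟩, ⟨(nat_lit 3), false, false, true, (nat_lit 154), (nat_lit 2236), (nat_lit 3163), [(nat_lit 1289472), (nat_lit 1294870),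 (nat_lit 1355794), (nat_lit 1363050), (nat_lit 1411379), (nat_lit 1408901), (nat_lit 1477844), (nat_lit 1477224)]⟩, (nat_lit 4664952), (nat_lit 43915104), (nat_lit 14783128), (nat_lit 8301768), (nat_lit 0), (nat_lit 0), [⟨(nat_lit 1), (nat_lit 99), (nat_lit 54), (nat_lit 100), (nat_lit 304855296)⟩], [], [], [],
 ⟨⟨[(nat_lit 40), (nat_lit 80), (nat_lit 120)], [(nat_lit 0), (nat_lit 1598), (nat_lit 3468)], [((nat_lit 0), (nat_lit 0), (nat_lit 0)), ((nat_lit 1000), (nat_lit 625), (nat_lit 623)), ((nat_lit 1000), (nat_lit 604), (nat_lit 730))], ((nat_lit 60), (nat_lit 100), (nat_lit 87))⟩, (nat_lit 0), (nat_lit 165), (nat_lit 165), (nat_lit 0), (nat_lit 187886), [(nat_lit 1340796908), (nat_lit 730005187), (nat_lit 0)], [(nat_lit 0), (nat_lit 0), (nat_lit 262018000)], [(nat_lit 22796782712), (nat_lit 23833245968), (nat_lit 25155648962), (nat_lit 26061326704), (nat_lit 23892525587), (nat_lit 24824450263), (nat_lit 26026831474), (nat_lit 26980428490)], (nat_lit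 1271251), (nat_lit 1271251), (nat_lit 1271251), (nat_lit 1271251), (nat_lit 780000), (nat_lit 1435001), [(nat_lit 490000), (nat_lit 1100000), (nat_lit 1785001)], [(nat_lit 4), (nat_lit 51), (nat_lit 260), (nat_lit 50), (nat_lit 7)]⟩,
 Rw.none,
 Rw.none⟩)))
noncomputable def c16_44 : Tr Lf :=
 (.spl (nat_lit 4) (nat_lit 80) (.trX (nat_lit 5) (nat_lit 3) (nat_lit 4) (nat_lit 100) (nat_lit 76) (nat_lit 82) (nat_lit 340) (.spl (nat_lit 0) (nat_lit 370) (.spl (nat_lit 6) (nat_lit 72) (.leaf ⟨(nat_lit 912), (nat_lit 84), (nat_lit 0), (nat_lit 4), (nat_lit 6283), (nat_lit 3206), (nat_lit 1039), (nat_lit 43), (nat_lit 0), (nat_lit 0), (nat_lit 449600), [((nat_lit 370), [((nat_lit 25), (nat_lit 1), (nat_lit 488)), ((nat_lit 41), (nat_lit 2), (nat_lit 424))])], ⟨(nat_lit 6), false, true, true, (nat_lit 240), (nat_lit 2738), (nat_lit 3163), [(nat_lit 1538797), (nat_lit 1536642), (nat_lit 1605257), (nat_lit 1603890), (nat_lit 1599750), (nat_lit 1595704), (nat_lit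 1666215), (nat_lit 1662956)]⟩, ⟨(nat_lit 3), false, false, false, (nat_lit 88), (nat_lit 2738), (nat_lit 3163), [(nat_lit 1137055), (nat_lit 1144520), (nat_lit 1203484), (nat_lit 1211736), (nat_lit 1228513), (nat_lit 1233139), (nat_lit 1294942), (nat_lit 1300356)]⟩, (nat_lit 4028130), (nat_lit 46109402), (nat_lit 17305140), (nat_lit 3585458), (nat_lit 3), (nat_lit 0), [], [⟨(nat_lit 0), (nat_lit 100), (nat_lit 58), (nat_lit 68), (nat_lit 219511772)⟩], [], [],
 ⟨⟨[(nat_lit 40), (nat_lit 80), (nat_lit 100)], [(nat_lit 0), (nat_lit 1598), (nat_lit 2533)], [((nat_lit 0), (nat_lit 0), (nat_lit 0)), ((nat_lit 1000), (nat_lit 625), (nat_lit 623)), ((nat_lit 1000), (nat_lit 604), (nat_lit 730))], ((nat_lit 60), (nat_lit 100), (nat_lit 77))⟩, (nat_lit 0), (nat_lit 163), (nat_lit 163), (nat_lit 0), (nat_lit 88333), [(nat_lit 1381660808), (nat_lit 855513663), (nat_lit 693712000)], [(nat_lit 0), (nat_lit 0), (nat_lit 0)], [(nat_lit 23512268940), (nat_lit 24041536525),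 (nat_lit 25002269605), (nat_lit 25741589501), (nat_lit 22789319067), (nat_lit 23295446662), (nat_lit 24116339477), (nat_lit 24586467619)], (nat_lit 1271251), (nat_lit 1271251), (nat_lit 1271251), (nat_lit 1271251), (nat_lit 111251), (nat_lit 490000), [(nat_lit 490000), (nat_lit 1100000), (nat_lit 1442501)], [(nat_lit 3), (nat_lit 50), (nat_lit 226), (nat_lit 20), (nat_lit 7)]⟩,
 ⟨⟨[(nat_lit 120), (nat_lit 160), (nat_lit 200)], [(nat_lit 0), (nat_lit 533), (nat_lit 3597)], [((nat_lit 0), (nat_lit 0), (nat_lit 0)), ((nat_lit 960), (nat_lit 1000), (nat_lit 200)), ((nat_lit 612), (nat_lit 1000), (nat_lit 732))], ((nat_lit 0), (nat_lit 0), (nat_lit 0))⟩, (nat_lit 282334), (nat_lit 530), (nat_lit 530), (nat_lit 0), (nat_lit 306186), [(nat_lit 701184000), (nat_lit 1044736000), (nat_lit 1443200000)], [], [(nat_lit 3594858820), (nat_lit 3566315188), (nat_lit 3695333378), (nat_lit 3660341496), (nat_lit 4497880757), (nat_lit 3121976175), (nat_lit 3586260858), (nat_lit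 2860137591)], (nat_lit 1271251), (nat_lit 1271251), (nat_lit 1271251), (nat_lit 1271251), (nat_lit 0), (nat_lit 2401251), [(nat_lit 1695001), (nat_lit 1271251), (nat_lit 1271251)], [(nat_lit 29), (nat_lit 66), (nat_lit 456), (nat_lit 225), (nat_lit 10)]⟩,
 ⟨⟨[(nat_lit 140), (nat_lit 180), (nat_lit 200)], [(nat_lit 0), (nat_lit 0), (nat_lit 2835)], [((nat_lit 0), (nat_lit 0), (nat_lit 0)), ((nat_lit 0), (nat_lit 0), (nat_lit 0)), ((nat_lit 363), (nat_lit 1000), (nat_lit 798))], ((nat_lit 0), (nat_lit 0), (nat_lit 0))⟩, (nat_lit 1101), (nat_lit 300), (nat_lit 873), (nat_lit 312400), (nat_lit 583481), [(nat_lit 39368000), (nat_lit 56232000), (nat_lit 65600000)], [], [(nat_lit 342254280), (nat_lit 330204890), (nat_lit 319536580), (nat_lit 309879701), (nat_lit 282291940), (nat_lit 272346741), (nat_lit 263737715), (nat_lit 254842583)], (nat_lit 780000), (nat_lit 1271251), (nat_lit 111251), (nat_lit 490000), (nat_lit 0), (nat_lit 2401251), [(nat_lit 1977501),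 (nat_lit 1271251), (nat_lit 1271251)], [(nat_lit 32), (nat_lit 67), (nat_lit 373), (nat_lit 150), (nat_lit 9)]⟩⟩) (.dle (nat_lit 0))) (.trZ (nat_lit 0) (nat_lit 2) (nat_lit 4) (nat_lit 100) (nat_lit 57) (nat_lit 62) (nat_lit 30) (.leaf ⟨(nat_lit 921), (nat_lit 79), (nat_lit 0), (nat_lit 0), (nat_lit 3562), (nat_lit 3586), (nat_lit 938), (nat_lit 0), (nat_lit 0), (nat_lit 0), (nat_lit 251850), [((nat_lit 380), [((nat_lit 26), (nat_lit 0), (nat_lit 777)), ((nat_lit 26), (nat_lit 1), (nat_lit 144))])], ⟨(nat_lit 6), false, true, true, (nat_lit 239), (nat_lit 2236), (nat_lit 2739), [(nat_lit 1536642), (nat_lit 1534240), (nat_lit 1603890), (nat_lit 1602558), (nat_lit 1595704), (nat_lit 1591255), (nat_lit 1662956), (nat_lit 1659578)]⟩, ⟨(nat_lit 3), false, false, false, (nat_lit 93), (nat_lit 2236), (nat_lit 2739), [(nat_lit 1159252), (nat_lit 1166519), (nat_lit 1226443), (nat_lit 1234781), (nat_lit 1233122), (nat_lit 1237832), (nat_lit 1300314), (nat_lit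 1306094)]⟩, (nat_lit 4091649), (nat_lit 45931336), (nat_lit 17140238), (nat_lit 3928426), (nat_lit 3), (nat_lit 0), [], [⟨(nat_lit 0), (nat_lit 100), (nat_lit 50), (nat_lit 75), (nat_lit 364515097)⟩], [], [⟨(nat_lit 1), (nat_lit 94), (nat_lit 100), (nat_lit 72), (nat_lit 5697412)⟩],
 ⟨⟨[(nat_lit 40), (nat_lit 80), (nat_lit 100)], [(nat_lit 0), (nat_lit 2008), (nat_lit 2969)], [((nat_lit 0), (nat_lit 0), (nat_lit 0)), ((nat_lit 1000), (nat_lit 540), (nat_lit 733)), ((nat_lit 1000), (nat_lit 536), (nat_lit 751))], ((nat_lit 53), (nat_lit 100), (nat_lit 83))⟩, (nat_lit 357016), (nat_lit 177), (nat_lit 177), (nat_lit 0), (nat_lit 146956), [(nat_lit 1530619601), (nat_lit 1840380805), (nat_lit 2244918400)], [(nat_lit 0), (nat_lit 0), (nat_lit 0)], [(nat_lit 24299448106), (nat_lit 25076461894), (nat_lit 26193254048), (nat_lit 26970131439), (nat_lit 23458429795), (nat_lit 23989421740), (nat_lit 24783962079), (nat_lit 25325263999)], (nat_lit 1271251), (nat_lit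 1271251), (nat_lit 1271251), (nat_lit 1271251), (nat_lit 169688), (nat_lit 490000), [(nat_lit 490000), (nat_lit 1100000), (nat_lit 1442501)], [(nat_lit 3), (nat_lit 50), (nat_lit 226), (nat_lit 20), (nat_lit 7)]⟩,
 ⟨⟨[(nat_lit 120), (nat_lit 160), (nat_lit 200)], [(nat_lit 0), (nat_lit 533), (nat_lit 3597)], [((nat_lit 0), (nat_lit 0), (nat_lit 0)), ((nat_lit 960), (nat_lit 1000), (nat_lit 200)), ((nat_lit 612), (nat_lit 1000), (nat_lit 732))], ((nat_lit 0), (nat_lit 0), (nat_lit 0))⟩, (nat_lit 248057), (nat_lit 699), (nat_lit 699), (nat_lit 0), (nat_lit 627282), [(nat_lit 629472000), (nat_lit 937888000), (nat_lit 1295600000)], [], [(nat_lit 3308798745), (nat_lit 3267128265), (nat_lit 3368077428), (nat_lit 3311480659), (nat_lit 4039546303), (nat_lit 2797391830), (nat_lit 3216543931), (nat_lit 2567425435)], (nat_lit 1271251), (nat_lit 1271251), (nat_lit 1271251), (nat_lit 1271251), (nat_lit 0), (nat_lit 2401251), [(nat_lit 1695001), (nat_lit 1271251),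 (nat_lit 1271251)], [(nat_lit 29), (nat_lit 66), (nat_lit 456), (nat_lit 225), (nat_lit 10)]⟩,
 Rw.none⟩)))) (.spl (nat_lit 0) (nat_lit 370) (.spl (nat_lit 6) (nat_lit 72) (.leaf ⟨(nat_lit 904), (nat_lit 88), (nat_lit 0), (nat_lit 8), (nat_lit 9194), (nat_lit 3318), (nat_lit 1077), (nat_lit 89), (nat_lit 0), (nat_lit 0), (nat_lit 455600), [((nat_lit 370), [((nat_lit 25), (nat_lit 1), (nat_lit 434)), ((nat_lit 41), (nat_lit 2), (nat_lit 470))])], ⟨(nat_lit 6), false, true, true, (nat_lit 240), (nat_lit 2738), (nat_lit 3163), [(nat_lit 1538797), (nat_lit 1536642), (nat_lit 1605257), (nat_lit 1603890), (nat_lit 1599750), (nat_lit 1595704), (nat_lit 1666215), (nat_lit 1662956)]⟩, ⟨(nat_lit 3), false, false, false, (nat_lit 118), (nat_lit 2738), (nat_lit 3163), [(nat_lit 1228513), (nat_lit 1233139), (nat_lit 1294942), (nat_lit 1300356), (nat_lit 1289472), (nat_lit 1292206), (nat_lit 1355914), (nat_lit 1359435)]⟩, (nat_lit 4397384), (nat_lit 44491127), (nat_lit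 16984871), (nat_lit 5524002), (nat_lit 3), (nat_lit 0), [], [], [], [],
 ⟨⟨[(nat_lit 40), (nat_lit 80), (nat_lit 100)], [(nat_lit 0), (nat_lit 1598), (nat_lit 2533)], [((nat_lit 0), (nat_lit 0), (nat_lit 0)), ((nat_lit 1000), (nat_lit 625), (nat_lit 623)), ((nat_lit 1000), (nat_lit 604), (nat_lit 730))], ((nat_lit 60), (nat_lit 100), (nat_lit 77))⟩, (nat_lit 0), (nat_lit 121), (nat_lit 121), (nat_lit 0), (nat_lit 88333), [(nat_lit 1380937622), (nat_lit 985892213), (nat_lit 661428800)], [(nat_lit 0), (nat_lit 0), (nat_lit 0)], [(nat_lit 22080645762), (nat_lit 22681192449), (nat_lit 23625020108), (nat_lit 24211634235), (nat_lit 22396974732), (nat_lit 22969729597), (nat_lit 23870658491), (nat_lit 24400430137)], (nat_lit 1271251), (nat_lit 1271251), (nat_lit 1271251), (nat_lit 1271251), (nat_lit 490000), (nat_lit 780000), [(nat_lit 490000), (nat_lit 1100000), (nat_lit 1442501)], [(nat_lit 3), (nat_lit 50), (nat_lit 238), (nat_lit 30), (nat_lit 8)]⟩,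
 ⟨⟨[(nat_lit 120), (nat_lit 160), (nat_lit 200)], [(nat_lit 0), (nat_lit 533), (nat_lit 3597)], [((nat_lit 0), (nat_lit 0), (nat_lit 0)), ((nat_lit 960), (nat_lit 1000), (nat_lit 200)), ((nat_lit 612), (nat_lit 1000), (nat_lit 732))], ((nat_lit 0), (nat_lit 0), (nat_lit 0))⟩, (nat_lit 285067), (nat_lit 530), (nat_lit 530), (nat_lit 0), (nat_lit 306186), [(nat_lit 764928000), (nat_lit 1139712000), (nat_lit 1574400000)], [], [(nat_lit 4029668506), (nat_lit 4005987418), (nat_lit 4138236855), (nat_lit 4093213468), (nat_lit 5169794256), (nat_lit 3756912689), (nat_lit 4233617795), (nat_lit 3354959914)], (nat_lit 1271251), (nat_lit 1271251), (nat_lit 1271251), (nat_lit 1271251), (nat_lit 0), (nat_lit 2613125), [(nat_lit 1695001), (nat_lit 1271251), (nat_lit 1271251)], [(nat_lit 29), (nat_lit 66), (nat_lit 456), (nat_lit 225), (nat_lit 10)]⟩,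
 ⟨⟨[(nat_lit 140), (nat_lit 180), (nat_lit 200)], [(nat_lit 0), (nat_lit 0), (nat_lit 2835)], [((nat_lit 0), (nat_lit 0), (nat_lit 0)), ((nat_lit 0), (nat_lit 0), (nat_lit 0)), ((nat_lit 363), (nat_lit 1000), (nat_lit 798))], ((nat_lit 0), (nat_lit 0), (nat_lit 0))⟩, (nat_lit 2201), (nat_lit 300), (nat_lit 820), (nat_lit 624801), (nat_lit 583481), [(nat_lit 78736000), (nat_lit 112464000), (nat_lit 131200000)], [], [(nat_lit 632652796), (nat_lit 612436587), (nat_lit 615837394), (nat_lit 595760304), (nat_lit 514926983), (nat_lit 535192939), (nat_lit 498593006), (nat_lit 568374896)], (nat_lit 780000), (nat_lit 1271251), (nat_lit 490000), (nat_lit 780000), (nat_lit 0), (nat_lit 2613125), [(nat_lit 1977501), (nat_lit 1271251), (nat_lit 1271251)], [(nat_lit 32), (nat_lit 67), (nat_lit 401), (nat_lit 175), (nat_lit 9)]⟩⟩) (.dle (nat_lit 0))) (.leaf ⟨(nat_lit 915), (nat_lit 78), (nat_lit 0), (nat_lit 7), (nat_lit 6396), (nat_lit 3504), (nat_lit 996), (nat_lit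 81), (nat_lit 0), (nat_lit 0), (nat_lit 228750), [((nat_lit 380), [((nat_lit 26), (nat_lit 0), (nat_lit 915))])], ⟨(nat_lit 6), false, true, true, (nat_lit 239), (nat_lit 2236), (nat_lit 2739), [(nat_lit 1536642), (nat_lit 1534240), (nat_lit 1603890), (nat_lit 1602558), (nat_lit 1595704), (nat_lit 1591255), (nat_lit 1662956), (nat_lit 1659578)]⟩, ⟨(nat_lit 3), false, false, false, (nat_lit 119), (nat_lit 2236), (nat_lit 2739), [(nat_lit 1233122), (nat_lit 1237832), (nat_lit 1300314), (nat_lit 1306094), (nat_lit 1292206), (nat_lit 1294870), (nat_lit 1359410), (nat_lit 1363145)]⟩, (nat_lit 4409402), (nat_lit 44498962), (nat_lit 16857158), (nat_lit 5643880), (nat_lit 3), (nat_lit 0), [], [], [], [],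
 ⟨⟨[(nat_lit 40), (nat_lit 80), (nat_lit 100)], [(nat_lit 0), (nat_lit 2008), (nat_lit 2969)], [((nat_lit 0), (nat_lit 0), (nat_lit 0)), ((nat_lit 1000), (nat_lit 540), (nat_lit 733)), ((nat_lit 1000), (nat_lit 536), (nat_lit 751))], ((nat_lit 53), (nat_lit 100), (nat_lit 83))⟩, (nat_lit 468253), (nat_lit 143), (nat_lit 143), (nat_lit 0), (nat_lit 146956), [(nat_lit 1553878009), (nat_lit 2142123423), (nat_lit 2443600000)], [(nat_lit 0), (nat_lit 0), (nat_lit 0)], [(nat_lit 23065590008), (nat_lit 23681499644), (nat_lit 24590980773), (nat_lit 25192668440), (nat_lit 23325250888), (nat_lit 23912315244), (nat_lit 24776829440), (nat_lit 25319460331)], (nat_lit 1271251), (nat_lit 1271251), (nat_lit 1271251), (nat_lit 1271251), (nat_lit 490000), (nat_lit 780000), [(nat_lit 490000), (nat_lit 1100000), (nat_lit 1442501)], [(nat_lit 3), (nat_lit 50), (nat_lit 238), (nat_lit 30), (nat_lit 8)]⟩,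
 ⟨⟨[(nat_lit 120), (nat_lit 160), (nat_lit 200)], [(nat_lit 0), (nat_lit 533), (nat_lit 3597)], [((nat_lit 0), (nat_lit 0), (nat_lit 0)), ((nat_lit 960), (nat_lit 1000), (nat_lit 200)), ((nat_lit 612), (nat_lit 1000), (nat_lit 732))], ((nat_lit 0), (nat_lit 0), (nat_lit 0))⟩, (nat_lit 250978), (nat_lit 699), (nat_lit 699), (nat_lit 0), (nat_lit 627282), [(nat_lit 677280000), (nat_lit 1009120000), (nat_lit 1394000000)], [], [(nat_lit 3609060340), (nat_lit 3566071786), (nat_lit 3672933832), (nat_lit 3614572176), (nat_lit 4598791789), (nat_lit 3292171510), (nat_lit 3733024143), (nat_lit 2950952785)], (nat_lit 1271251), (nat_lit 1271251), (nat_lit 1271251), (nat_lit 1271251), (nat_lit 0), (nat_lit 2613125), [(nat_lit 1695001), (nat_lit 1271251), (nat_lit 1271251)], [(nat_lit 29), (nat_lit 66), (nat_lit 456), (nat_lit 225), (nat_lit 10)]⟩,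
 ⟨⟨[(nat_lit 140), (nat_lit 180), (nat_lit 200)], [(nat_lit 0), (nat_lit 0), (nat_lit 2835)], [((nat_lit 0), (nat_lit 0), (nat_lit 0)), ((nat_lit 0), (nat_lit 0), (nat_lit 0)), ((nat_lit 363), (nat_lit 1000), (nat_lit 798))], ((nat_lit 0), (nat_lit 0), (nat_lit 0))⟩, (nat_lit 1926), (nat_lit 300), (nat_lit 1013), (nat_lit 546700), (nat_lit 1019984), [(nat_lit 68894000), (nat_lit 98406000), (nat_lit 114800000)], [], [(nat_lit 546881784), (nat_lit 528252548), (nat_lit 531519432), (nat_lit 512934027), (nat_lit 438363305), (nat_lit 472736958), (nat_lit 438707714), (nat_lit 502610424)], (nat_lit 780000), (nat_lit 1271251), (nat_lit 490000), (nat_lit 780000), (nat_lit 0), (nat_lit 2613125), [(nat_lit 1977501), (nat_lit 1271251), (nat_lit 1271251)], [(nat_lit 32), (nat_lit 67), (nat_lit 401), (nat_lit 175), (nat_lit 9)]⟩⟩)))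
noncomputable def c16_45 : Tr Lf :=
 (.trX (nat_lit 5) (nat_lit 3) (nat_lit 4) (nat_lit 100) (nat_lit 80) (nat_lit 100) (nat_lit 340) (.spl (nat_lit 1) (nat_lit 220) (.trX (nat_lit 3) (nat_lit 0) (nat_lit 1) (nat_lit 60) (nat_lit 74) (nat_lit 100) (nat_lit 340) (.spl (nat_lit 0) (nat_lit 370) (.spl (nat_lit 6) (nat_lit 68) (.leaf ⟨(nat_lit 877), (nat_lit 123), (nat_lit 0), (nat_lit 0), (nat_lit 9707), (nat_lit 2804), (nat_lit 1327), (nat_lit 0), (nat_lit 0), (nat_lit 0), (nat_lit 485800), [((nat_lit 370), [((nat_lit 25), (nat_lit 1), (nat_lit 202)), ((nat_lit 41), (nat_lit 2), (nat_lit 675))])], ⟨(nat_lit 7), false, true, true, (nat_lit 266), (nat_lit 2738), (nat_lit 3163), [(nat_lit 1599750), (nat_lit 1595704), (nat_lit 1644060), (nat_lit 1640539), (nat_lit 1691180), (nat_lit 1684296), (nat_lit 1735490), (nat_lit 1729131)]⟩, ⟨(nat_lit 3), false, false, false, (nat_lit 100), (nat_lit 2738), (nat_lit 3163), [(nat_lit 1137055), (nat_lit 1144520), (nat_lit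 1203484), (nat_lit 1211736), (nat_lit 1289472), (nat_lit 1292206), (nat_lit 1355914), (nat_lit 1359435)]⟩, (nat_lit 4327748), (nat_lit 43085369), (nat_lit 19703294), (nat_lit 4211337), (nat_lit 3), (nat_lit 0), [⟨(nat_lit 1), (nat_lit 83), (nat_lit 57), (nat_lit 100), (nat_lit 228942018)⟩], [⟨(nat_lit 0), (nat_lit 100), (nat_lit 58), (nat_lit 68), (nat_lit 6753867)⟩], [], [⟨(nat_lit 1), (nat_lit 100), (nat_lit 87), (nat_lit 79), (nat_lit 9185159)⟩],
 ⟨⟨[(nat_lit 40), (nat_lit 80), (nat_lit 100)], [(nat_lit 0), (nat_lit 1598), (nat_lit 2533)], [((nat_lit 0), (nat_lit 0), (nat_lit 0)), ((nat_lit 1000), (nat_lit 625), (nat_lit 623)), ((nat_lit 1000), (nat_lit 604), (nat_lit 730))], ((nat_lit 60), (nat_lit 100), (nat_lit 75))⟩, (nat_lit 0), (nat_lit 169), (nat_lit 169), (nat_lit 0), (nat_lit 58151), [(nat_lit 1375006404), (nat_lit 747402552), (nat_lit 471400400)], [(nat_lit 0), (nat_lit 0), (nat_lit 0)], [(nat_lit 25120743280), (nat_lit 25587388775), (nat_lit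 27393818748), (nat_lit 27844334730), (nat_lit 24869664884), (nat_lit 25302819307), (nat_lit 26976173640), (nat_lit 27391473924)], (nat_lit 1271251), (nat_lit 1271251), (nat_lit 1271251), (nat_lit 1271251), (nat_lit 111251), (nat_lit 780000), [(nat_lit 490000), (nat_lit 1100000), (nat_lit 1442501)], [(nat_lit 3), (nat_lit 50), (nat_lit 238), (nat_lit 30), (nat_lit 8)]⟩,
 ⟨⟨[(nat_lit 120), (nat_lit 160), (nat_lit 200)], [(nat_lit 0), (nat_lit 533), (nat_lit 3597)], [((nat_lit 0), (nat_lit 0), (nat_lit 0)), ((nat_lit 960), (nat_lit 1000), (nat_lit 200)), ((nat_lit 612), (nat_lit 1000), (nat_lit 732))], ((nat_lit 0), (nat_lit 0), (nat_lit 0))⟩, (nat_lit 335764), (nat_lit 493), (nat_lit 493), (nat_lit 0), (nat_lit 228732), [(nat_lit 980064000), (nat_lit 1460256000), (nat_lit 2017200000)], [], [(nat_lit 5435338482), (nat_lit 5402131581), (nat_lit 5692357450), (nat_lit 5631487473), (nat_lit 5082602686), (nat_lit 4326751242), (nat_lit 4543311937), (nat_lit 4467885708)],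 (nat_lit 1271251), (nat_lit 1271251), (nat_lit 1271251), (nat_lit 1271251), (nat_lit 0), (nat_lit 2401251), [(nat_lit 1695001), (nat_lit 1271251), (nat_lit 1271251)], [(nat_lit 29), (nat_lit 66), (nat_lit 456), (nat_lit 225), (nat_lit 9)]⟩,
 Rw.none⟩) (.dle (nat_lit 0))) (.trX (nat_lit 3) (nat_lit 0) (nat_lit 1) (nat_lit 53) (nat_lit 80) (nat_lit 100) (nat_lit 330) (.trZ (nat_lit 0) (nat_lit 2) (nat_lit 4) (nat_lit 100) (nat_lit 57) (nat_lit 62) (nat_lit 30) (.spl (nat_lit 4) (nat_lit 80) (.trX (nat_lit 5) (nat_lit 3) (nat_lit 4) (nat_lit 100) (nat_lit 95) (nat_lit 87) (nat_lit 300) (.leaf ⟨(nat_lit 929), (nat_lit 71), (nat_lit 0), (nat_lit 0), (nat_lit 6299), (nat_lit 3152), (nat_lit 804), (nat_lit 0), (nat_lit 0), (nat_lit 0), (nat_lit 360950), [((nat_lit 380), [((nat_lit 26), (nat_lit 0), (nat_lit 71)), ((nat_lit 26), (nat_lit 1), (nat_lit 858))])], ⟨(nat_lit 7), false, true, true, (nat_lit 261), (nat_lit 2236), (nat_lit 2739), [(nat_lit 1595704),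 (nat_lit 1591255), (nat_lit 1640539), (nat_lit 1636804), (nat_lit 1669530), (nat_lit 1662525), (nat_lit 1714365), (nat_lit 1708073)]⟩, ⟨(nat_lit 3), false, false, false, (nat_lit 93), (nat_lit 2236), (nat_lit 2739), [(nat_lit 1159252), (nat_lit 1166519), (nat_lit 1226443), (nat_lit 1234781), (nat_lit 1233122), (nat_lit 1237832), (nat_lit 1300314), (nat_lit 1306094)]⟩, (nat_lit 4222915), (nat_lit 43872488), (nat_lit 19288038), (nat_lit 3839474), (nat_lit 3), (nat_lit 0), [⟨(nat_lit 1), (nat_lit 88), (nat_lit 48), (nat_lit 100), (nat_lit 314986596)⟩], [⟨(nat_lit 0), (nat_lit 100), (nat_lit 50), (nat_lit 75), (nat_lit 315683733)⟩], [], [],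
 ⟨⟨[(nat_lit 40), (nat_lit 80), (nat_lit 100)], [(nat_lit 0), (nat_lit 2008), (nat_lit 2969)], [((nat_lit 0), (nat_lit 0), (nat_lit 0)), ((nat_lit 1000), (nat_lit 540), (nat_lit 733)), ((nat_lit 1000), (nat_lit 536), (nat_lit 751))], ((nat_lit 53), (nat_lit 100), (nat_lit 83))⟩, (nat_lit 197137), (nat_lit 179), (nat_lit 179), (nat_lit 0), (nat_lit 119537), [(nat_lit 1421099601), (nat_lit 1274428199), (nat_lit 1350268801)], [(nat_lit 0), (nat_lit 0), (nat_lit 0)], [(nat_lit 25484177418), (nat_lit 26088086520), (nat_lit 27819448045), (nat_lit 28462895967), (nat_lit 24821190496), (nat_lit 25333032982), (nat_lit 26649124580), (nat_lit 27110994001)], (nat_lit 1271251), (nat_lit 1271251), (nat_lit 1271251), (nat_lit 1271251), (nat_lit 169688), (nat_lit 490000), [(nat_lit 490000), (nat_lit 1100000), (nat_lit 1442501)], [(nat_lit 3), (nat_lit 50), (nat_lit 226), (nat_lit 20), (nat_lit 7)]⟩,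
 ⟨⟨[(nat_lit 120), (nat_lit 160), (nat_lit 200)], [(nat_lit 0), (nat_lit 533), (nat_lit 3597)], [((nat_lit 0), (nat_lit 0), (nat_lit 0)), ((nat_lit 960), (nat_lit 1000), (nat_lit 200)), ((nat_lit 612), (nat_lit 1000), (nat_lit 732))], ((nat_lit 0), (nat_lit 0), (nat_lit 0))⟩, (nat_lit 212977), (nat_lit 681), (nat_lit 681), (nat_lit 0), (nat_lit 605185), [(nat_lit 565728000), (nat_lit 842912000), (nat_lit 1164400000)], [], [(nat_lit 3112466214), (nat_lit 3082535127), (nat_lit 3191796569), (nat_lit 3171527098), (nat_lit 2633906247), (nat_lit 2324386067), (nat_lit 2437440151), (nat_lit 2400633014)], (nat_lit 1271251), (nat_lit 1271251), (nat_lit 1271251), (nat_lit 1271251), (nat_lit 0), (nat_lit 2118750), [(nat_lit 1695001), (nat_lit 1271251), (nat_lit 1271251)], [(nat_lit 29), (nat_lit 66), (nat_lit 456), (nat_lit 225), (nat_lit 9)]⟩,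
 Rw.none⟩)) (.leaf ⟨(nat_lit 933), (nat_lit 67), (nat_lit 0), (nat_lit 0), (nat_lit 7253), (nat_lit 3362), (nat_lit 789), (nat_lit 0), (nat_lit 0), (nat_lit 0), (nat_lit 233250), [((nat_lit 380), [((nat_lit 26), (nat_lit 0), (nat_lit 933))])], ⟨(nat_lit 7), false, true, true, (nat_lit 261), (nat_lit 2236), (nat_lit 2739), [(nat_lit 1595704), (nat_lit 1591255), (nat_lit 1640539), (nat_lit 1636804), (nat_lit 1669530), (nat_lit 1662525), (nat_lit 1714365), (nat_lit 1708073)]⟩, ⟨(nat_lit 3), false, false, false, (nat_lit 119), (nat_lit 2236), (nat_lit 2739), [(nat_lit 1233122), (nat_lit 1237832), (nat_lit 1300314), (nat_lit 1306094), (nat_lit 1292206), (nat_lit 1294870), (nat_lit 1359410), (nat_lit 1363145)]⟩, (nat_lit 4530491), (nat_lit 42557186), (nat_lit 18935413), (nat_lit 5507401), (nat_lit 3), (nat_lit 0), [⟨(nat_lit 1), (nat_lit 88), (nat_lit 48), (nat_lit 100), (nat_lit 339200723)⟩], [], [], [⟨(nat_lit 1), (nat_lit 100), (nat_lit 97), (nat_lit 98),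 (nat_lit 2775093)⟩],
 ⟨⟨[(nat_lit 40), (nat_lit 80), (nat_lit 100)], [(nat_lit 0), (nat_lit 2008), (nat_lit 2969)], [((nat_lit 0), (nat_lit 0), (nat_lit 0)), ((nat_lit 1000), (nat_lit 540), (nat_lit 733)), ((nat_lit 1000), (nat_lit 536), (nat_lit 751))], ((nat_lit 53), (nat_lit 100), (nat_lit 83))⟩, (nat_lit 372795), (nat_lit 146), (nat_lit 146), (nat_lit 0), (nat_lit 119537), [(nat_lit 1549075618), (nat_lit 2081906129), (nat_lit 2368720000)], [(nat_lit 0), (nat_lit 0), (nat_lit 0)], [(nat_lit 24908421568), (nat_lit 25466436273), (nat_lit 26863729960), (nat_lit 27381862490), (nat_lit 25124446884), (nat_lit 25657198633), (nat_lit 26994960651), (nat_lit 27473426394)], (nat_lit 1271251), (nat_lit 1271251), (nat_lit 1271251), (nat_lit 1271251), (nat_lit 490000), (nat_lit 780000), [(nat_lit 490000), (nat_lit 1100000), (nat_lit 1442501)], [(nat_lit 3), (nat_lit 50), (nat_lit 238), (nat_lit 30), (nat_lit 7)]⟩,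
 ⟨⟨[(nat_lit 120), (nat_lit 160), (nat_lit 200)], [(nat_lit 0), (nat_lit 533), (nat_lit 3597)], [((nat_lit 0), (nat_lit 0), (nat_lit 0)), ((nat_lit 960), (nat_lit 1000), (nat_lit 200)), ((nat_lit 612), (nat_lit 1000), (nat_lit 732))], ((nat_lit 0), (nat_lit 0), (nat_lit 0))⟩, (nat_lit 206884), (nat_lit 681), (nat_lit 681), (nat_lit 0), (nat_lit 605185), [(nat_lit 533856000), (nat_lit 795424000), (nat_lit 1098800000)], [], [(nat_lit 2873675746), (nat_lit 2842340809), (nat_lit 3010465563), (nat_lit 3007793451), (nat_lit 2731598036), (nat_lit 2208440975), (nat_lit 2337720339), (nat_lit 2320589520)], (nat_lit 1271251), (nat_lit 1271251), (nat_lit 1271251), (nat_lit 1271251), (nat_lit 0), (nat_lit 2401251), [(nat_lit 1695001), (nat_lit 1271251), (nat_lit 1271251)], [(nat_lit 29), (nat_lit 66), (nat_lit 456), (nat_lit 225), (nat_lit 9)]⟩,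
 Rw.none⟩)))))) (.spl (nat_lit 5) (nat_lit 160) (.leaf ⟨(nat_lit 354), (nat_lit 646), (nat_lit 0), (nat_lit 0), (nat_lit 0), (nat_lit 3412), (nat_lit 6133), (nat_lit 0), (nat_lit 0), (nat_lit 0), (nat_lit 543000), [((nat_lit 380), [((nat_lit 26), (nat_lit 2), (nat_lit 291)), ((nat_lit 41), (nat_lit 5), (nat_lit 63))])], ⟨(nat_lit 7), false, true, true, (nat_lit 281), (nat_lit 2236), (nat_lit 3163), [(nat_lit 1644060), (nat_lit 1636804), (nat_lit 1666215), (nat_lit 1659578), (nat_lit 1750729), (nat_lit 1736581), (nat_lit 1772883), (nat_lit 1759355)]⟩, ⟨(nat_lit 3), false, false, false, (nat_lit 101), (nat_lit 2236), (nat_lit 3163), [(nat_lit 1136876), (nat_lit 1152119), (nat_lit 1203150), (nat_lit 1220251), (nat_lit 1289472), (nat_lit 1294870), (nat_lit 1355794), (nat_lit 1363050)]⟩, (nat_lit 4408339), (nat_lit 41625456), (nat_lit 21177640), (nat_lit 4196904), (nat_lit 3), (nat_lit 0), [⟨(nat_lit 1), (nat_lit 77), (nat_lit 53), (nat_lit 100), (nat_lit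 37607533)⟩], [], [], [],
 ⟨⟨[(nat_lit 40), (nat_lit 80), (nat_lit 120)], [(nat_lit 0), (nat_lit 1598), (nat_lit 3468)], [((nat_lit 0), (nat_lit 0), (nat_lit 0)), ((nat_lit 1000), (nat_lit 625), (nat_lit 623)), ((nat_lit 1000), (nat_lit 604), (nat_lit 730))], ((nat_lit 60), (nat_lit 100), (nat_lit 83))⟩, (nat_lit 122048), (nat_lit 244), (nat_lit 244), (nat_lit 0), (nat_lit 149245), [(nat_lit 1708014409), (nat_lit 1511467030), (nat_lit 849942000)], [(nat_lit 0), (nat_lit 0), (nat_lit 0)], [(nat_lit 26048690921), (nat_lit 27083263236), (nat_lit 29265433884), (nat_lit 30533780772), (nat_lit 25320688610), (nat_lit 26267795230), (nat_lit 27969235044), (nat_lit 28923070719)], (nat_lit 1271251), (nat_lit 1271251), (nat_lit 1271251), (nat_lit 1271251), (nat_lit 111251), (nat_lit 780000), [(nat_lit 490000), (nat_lit 1100000), (nat_lit 1785001)], [(nat_lit 4), (nat_lit 51), (nat_lit 238), (nat_lit 30), (nat_lit 7)]⟩,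
 ⟨⟨[(nat_lit 100), (nat_lit 140), (nat_lit 180)], [(nat_lit 0), (nat_lit 508), (nat_lit 2854)], [((nat_lit 0), (nat_lit 0), (nat_lit 0)), ((nat_lit 1000), (nat_lit 1000), (nat_lit 198)), ((nat_lit 777), (nat_lit 1000), (nat_lit 712))], ((nat_lit 100), (nat_lit 64), (nat_lit 83))⟩, (nat_lit 1987897), (nat_lit 554), (nat_lit 554), (nat_lit 0), (nat_lit 485366), [(nat_lit 4037500000), (nat_lit 6357932000), (nat_lit 9081468000)], [], [(nat_lit 24155692426), (nat_lit 24209135724), (nat_lit 25783533627), (nat_lit 25887550616), (nat_lit 19576039034), (nat_lit 19591069906), (nat_lit 20889958050), (nat_lit 20833868395)], (nat_lit 1271251), (nat_lit 1271251), (nat_lit 1271251), (nat_lit 1271251), (nat_lit 0), (nat_lit 1100000), [(nat_lit 1412501), (nat_lit 1271251), (nat_lit 1271251)], [(nat_lit 24), (nat_lit 63), (nat_lit 428), (nat_lit 200), (nat_lit 10)]⟩,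
 Rw.none⟩) (.leaf ⟨(nat_lit 374), (nat_lit 465), (nat_lit 0), (nat_lit 161), (nat_lit 9), (nat_lit 3385), (nat_lit 6157), (nat_lit 1906), (nat_lit 0), (nat_lit 0), (nat_lit 578000), [((nat_lit 380), [((nat_lit 26), (nat_lit 2), (nat_lit 306)), ((nat_lit 41), (nat_lit 5), (nat_lit 68))])], ⟨(nat_lit 7), false, true, true, (nat_lit 281), (nat_lit 2236), (nat_lit 3163), [(nat_lit 1644060), (nat_lit 1636804), (nat_lit 1666215), (nat_lit 1659578), (nat_lit 1750729), (nat_lit 1736581), (nat_lit 1772883), (nat_lit 1759355)]⟩, ⟨(nat_lit 3), false, false, false, (nat_lit 101), (nat_lit 2236), (nat_lit 3163), [(nat_lit 1136876), (nat_lit 1152119), (nat_lit 1203150), (nat_lit 1220251), (nat_lit 1289472), (nat_lit 1294870), (nat_lit 1355794), (nat_lit 1363050)]⟩, (nat_lit 4408339), (nat_lit 41625456), (nat_lit 21177640), (nat_lit 4196904), (nat_lit 4), (nat_lit 0), [], [], [], [⟨(nat_lit 1), (nat_lit 100), (nat_lit 84), (nat_lit 79), (nat_lit 66220986)⟩],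
 ⟨⟨[(nat_lit 40), (nat_lit 80), (nat_lit 120)], [(nat_lit 0), (nat_lit 1598), (nat_lit 3468)], [((nat_lit 0), (nat_lit 0), (nat_lit 0)), ((nat_lit 1000), (nat_lit 625), (nat_lit 623)), ((nat_lit 1000), (nat_lit 604), (nat_lit 730))], ((nat_lit 60), (nat_lit 100), (nat_lit 83))⟩, (nat_lit 0), (nat_lit 244), (nat_lit 244), (nat_lit 0), (nat_lit 149245), [(nat_lit 1698982404), (nat_lit 1293409099), (nat_lit 409643101)], [(nat_lit 0), (nat_lit 0), (nat_lit 0)], [(nat_lit 26042749538), (nat_lit 27073875326), (nat_lit 29200900771), (nat_lit 30464735340), (nat_lit 25333379164), (nat_lit 26277664093), (nat_lit 27981588488), (nat_lit 28932386410)], (nat_lit 1271251), (nat_lit 1271251), (nat_lit 1271251), (nat_lit 1271251), (nat_lit 111251), (nat_lit 780000), [(nat_lit 490000), (nat_lit 1100000), (nat_lit 1785001)], [(nat_lit 4), (nat_lit 51), (nat_lit 238), (nat_lit 30), (nat_lit 7)]⟩,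
 ⟨⟨[(nat_lit 100), (nat_lit 140), (nat_lit 180)], [(nat_lit 0), (nat_lit 508), (nat_lit 2854)], [((nat_lit 0), (nat_lit 0), (nat_lit 0)), ((nat_lit 1000), (nat_lit 1000), (nat_lit 198)), ((nat_lit 777), (nat_lit 1000), (nat_lit 712))], ((nat_lit 100), (nat_lit 64), (nat_lit 83))⟩, (nat_lit 1992959), (nat_lit 404), (nat_lit 404), (nat_lit 0), (nat_lit 485366), [(nat_lit 3912500000), (nat_lit 6161092000), (nat_lit 8800308000)], [], [(nat_lit 17233309285), (nat_lit 17272944298), (nat_lit 18867888663), (nat_lit 18924525670), (nat_lit 19158564307), (nat_lit 19142963183), (nat_lit 20897813631), (nat_lit 21039482125)], (nat_lit 1271251), (nat_lit 1271251), (nat_lit 1271251), (nat_lit 1271251), (nat_lit 1100000), (nat_lit 2641251), [(nat_lit 1412501), (nat_lit 1271251), (nat_lit 1271251)], [(nat_lit 24), (nat_lit 63), (nat_lit 483), (nat_lit 250), (nat_lit 10)]⟩,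
 ⟨⟨[(nat_lit 140), (nat_lit 180), (nat_lit 200)], [(nat_lit 0), (nat_lit 0), (nat_lit 2835)], [((nat_lit 0), (nat_lit 0), (nat_lit 0)), ((nat_lit 0), (nat_lit 0), (nat_lit 0)), ((nat_lit 363), (nat_lit 1000), (nat_lit 798))], ((nat_lit 0), (nat_lit 0), (nat_lit 0))⟩, (nat_lit 44296), (nat_lit 300), (nat_lit 937), (nat_lit 12574105), (nat_lit 1019984), [(nat_lit 1584562000), (nat_lit 2263338000), (nat_lit 2640400000)], [], [(nat_lit 11473313464), (nat_lit 11042309666), (nat_lit 10284364192), (nat_lit 9868061047), (nat_lit 10792629414), (nat_lit 11971438195), (nat_lit 11672221027), (nat_lit 13143680566)], (nat_lit 780000), (nat_lit 1271251), (nat_lit 111251), (nat_lit 780000), (nat_lit 1100000), (nat_lit 2641251), [(nat_lit 1977501), (nat_lit 1271251), (nat_lit 1271251)], [(nat_lit 32), (nat_lit 67), (nat_lit 401), (nat_lit 175), (nat_lit 9)]⟩⟩))))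
noncomputable def c16_46 : Tr Lf :=
 (.spl (nat_lit 0) (nat_lit 370) (.spl (nat_lit 6) (nat_lit 72) (.spl (nat_lit 5) (nat_lit 120) (.leaf ⟨(nat_lit 711), (nat_lit 289), (nat_lit 0), (nat_lit 0), (nat_lit 7506), (nat_lit 3540), (nat_lit 2858), (nat_lit 0), (nat_lit 0), (nat_lit 0), (nat_lit 391950), [((nat_lit 370), [((nat_lit 25), (nat_lit 0), (nat_lit 99)), ((nat_lit 41), (nat_lit 2), (nat_lit 612))])], ⟨(nat_lit 6), false, true, true, (nat_lit 261), (nat_lit 2738), (nat_lit 3163), [(nat_lit 1538797), (nat_lit 1536642), (nat_lit 1605257), (nat_lit 1603890), (nat_lit 1706419), (nat_lit 1699061), (nat_lit 1772883), (nat_lit 1766313)]⟩, ⟨(nat_lit 3), false, false, true, (nat_lit 154), (nat_lit 2738), (nat_lit 3163), [(nat_lit 1289472), (nat_lit 1292206), (nat_lit 1355914), (nat_lit 1359435), (nat_lit 1411379), (nat_lit 1410329), (nat_lit 1477844), (nat_lit 1477581)]⟩, (nat_lit 4885054), (nat_lit 40649568), (nat_lit 18437556), (nat_lit 7912876), (nat_lit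 3), (nat_lit 0), [⟨(nat_lit 1), (nat_lit 80), (nat_lit 57), (nat_lit 100), (nat_lit 28552752)⟩], [], [], [⟨(nat_lit 0), (nat_lit 100), (nat_lit 66), (nat_lit 75), (nat_lit 81271668)⟩],
 ⟨⟨[(nat_lit 40), (nat_lit 80), (nat_lit 100)], [(nat_lit 0), (nat_lit 1598), (nat_lit 2533)], [((nat_lit 0), (nat_lit 0), (nat_lit 0)), ((nat_lit 1000), (nat_lit 625), (nat_lit 623)), ((nat_lit 1000), (nat_lit 604), (nat_lit 730))], ((nat_lit 60), (nat_lit 100), (nat_lit 77))⟩, (nat_lit 0), (nat_lit 132), (nat_lit 132), (nat_lit 0), (nat_lit 108491), [(nat_lit 1468745612), (nat_lit 1677794189), (nat_lit 1578719200)], [(nat_lit 0), (nat_lit 0), (nat_lit 0)], [(nat_lit 23135128112), (nat_lit 23740265170), (nat_lit 27690816820), (nat_lit 28181065918), (nat_lit 24267469632), (nat_lit 24794802835), (nat_lit 28332445970), (nat_lit 28773425507)], (nat_lit 1271251), (nat_lit 1271251), (nat_lit 1271251), (nat_lit 1271251), (nat_lit 780000), (nat_lit 1435001), [(nat_lit 490000),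 (nat_lit 1100000), (nat_lit 1442501)], [(nat_lit 3), (nat_lit 50), (nat_lit 260), (nat_lit 50), (nat_lit 8)]⟩,
 ⟨⟨[(nat_lit 120), (nat_lit 160), (nat_lit 200)], [(nat_lit 0), (nat_lit 533), (nat_lit 3597)], [((nat_lit 0), (nat_lit 0), (nat_lit 0)), ((nat_lit 960), (nat_lit 1000), (nat_lit 200)), ((nat_lit 612), (nat_lit 1000), (nat_lit 732))], ((nat_lit 0), (nat_lit 0), (nat_lit 0))⟩, (nat_lit 847295), (nat_lit 506), (nat_lit 506), (nat_lit 0), (nat_lit 248809), [(nat_lit 2302752000), (nat_lit 3431008000), (nat_lit 4739600000)], [], [(nat_lit 12266332704), (nat_lit 12245796522), (nat_lit 13307493930), (nat_lit 13270914622), (nat_lit 10030064187), (nat_lit 10043860162), (nat_lit 11071440681), (nat_lit 11034904952)], (nat_lit 1271251), (nat_lit 1271251), (nat_lit 1271251), (nat_lit 1271251), (nat_lit 0), (nat_lit 780000), [(nat_lit 1695001), (nat_lit 1271251), (nat_lit 1271251)], [(nat_lit 29), (nat_lit 66), (nat_lit 428), (nat_lit 200), (nat_lit 9)]⟩,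
 Rw.none⟩) (.leaf ⟨(nat_lit 714), (nat_lit 199), (nat_lit 0), (nat_lit 87), (nat_lit 1930), (nat_lit 3537), (nat_lit 2989), (nat_lit 932), (nat_lit 0), (nat_lit 0), (nat_lit 392700), [((nat_lit 370), [((nat_lit 25), (nat_lit 0), (nat_lit 102)), ((nat_lit 41), (nat_lit 2), (nat_lit 612))])], ⟨(nat_lit 6), false, true, true, (nat_lit 261), (nat_lit 2738), (nat_lit 3163), [(nat_lit 1538797), (nat_lit 1536642), (nat_lit 1605257), (nat_lit 1603890), (nat_lit 1706419), (nat_lit 1699061), (nat_lit 1772883), (nat_lit 1766313)]⟩, ⟨(nat_lit 3), false, false, true, (nat_lit 154), (nat_lit 2738), (nat_lit 3163), [(nat_lit 1289472), (nat_lit 1292206), (nat_lit 1355914), (nat_lit 1359435), (nat_lit 1411379), (nat_lit 1410329), (nat_lit 1477844), (nat_lit 1477581)]⟩, (nat_lit 4885054), (nat_lit 40649568), (nat_lit 18437556), (nat_lit 7912876), (nat_lit 3), (nat_lit 0), [⟨(nat_lit 1), (nat_lit 80), (nat_lit 57), (nat_lit 100), (nat_lit 104802430)⟩], [], [], [],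
 ⟨⟨[(nat_lit 40), (nat_lit 80), (nat_lit 100)], [(nat_lit 0), (nat_lit 1598), (nat_lit 2533)], [((nat_lit 0), (nat_lit 0), (nat_lit 0)), ((nat_lit 1000), (nat_lit 625), (nat_lit 623)), ((nat_lit 1000), (nat_lit 604), (nat_lit 730))], ((nat_lit 60), (nat_lit 100), (nat_lit 77))⟩, (nat_lit 2605), (nat_lit 132), (nat_lit 132), (nat_lit 0), (nat_lit 108491), [(nat_lit 1466776012), (nat_lit 1645052673), (nat_lit 1566323200)], [(nat_lit 0), (nat_lit 0), (nat_lit 0)], [(nat_lit 23117771412), (nat_lit 23722381326), (nat_lit 27671919265), (nat_lit 28162001762), (nat_lit 24250619218), (nat_lit 24777532018), (nat_lit 28314366448), (nat_lit 28769381814)], (nat_lit 1271251), (nat_lit 1271251), (nat_lit 1271251), (nat_lit 1271251), (nat_lit 780000), (nat_lit 1435001), [(nat_lit 490000), (nat_lit 1100000), (nat_lit 1442501)], [(nat_lit 3), (nat_lit 50), (nat_lit 260), (nat_lit 50), (nat_lit 8)]⟩,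
 ⟨⟨[(nat_lit 120), (nat_lit 160), (nat_lit 200)], [(nat_lit 0), (nat_lit 533), (nat_lit 3597)], [((nat_lit 0), (nat_lit 0), (nat_lit 0)), ((nat_lit 960), (nat_lit 1000), (nat_lit 200)), ((nat_lit 612), (nat_lit 1000), (nat_lit 732))], ((nat_lit 0), (nat_lit 0), (nat_lit 0))⟩, (nat_lit 758114), (nat_lit 428), (nat_lit 428), (nat_lit 0), (nat_lit 306186), [(nat_lit 2278848000), (nat_lit 3395392000), (nat_lit 4690400000)], [], [(nat_lit 10050453019), (nat_lit 10002835484), (nat_lit 10975729854), (nat_lit 10770983515), (nat_lit 11098104802), (nat_lit 10730281560), (nat_lit 11516722363), (nat_lit 11302872993)], (nat_lit 1271251), (nat_lit 1271251), (nat_lit 1271251), (nat_lit 1271251), (nat_lit 780000), (nat_lit 3072501), [(nat_lit 1695001), (nat_lit 1271251), (nat_lit 1271251)], [(nat_lit 29), (nat_lit 66), (nat_lit 483), (nat_lit 250), (nat_lit 10)]⟩,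
 ⟨⟨[(nat_lit 140), (nat_lit 180), (nat_lit 200)], [(nat_lit 0), (nat_lit 0), (nat_lit 2835)], [((nat_lit 0), (nat_lit 0), (nat_lit 0)), ((nat_lit 0), (nat_lit 0), (nat_lit 0)), ((nat_lit 363), (nat_lit 1000), (nat_lit 798))], ((nat_lit 0), (nat_lit 0), (nat_lit 0))⟩, (nat_lit 23937), (nat_lit 300), (nat_lit 928), (nat_lit 6794700), (nat_lit 1114298), [(nat_lit 856254000), (nat_lit 1223046000), (nat_lit 1426800000)], [], [(nat_lit 6106397865), (nat_lit 5905279933), (nat_lit 5835820290), (nat_lit 5634782763), (nat_lit 5559532208), (nat_lit 5344762039), (nat_lit 5270696292), (nat_lit 5371566848)], (nat_lit 780000), (nat_lit 1271251), (nat_lit 780000), (nat_lit 1435001), (nat_lit 780000), (nat_lit 3072501), [(nat_lit 1977501), (nat_lit 1271251), (nat_lit 1271251)], [(nat_lit 32), (nat_lit 67), (nat_lit 428), (nat_lit 200), (nat_lit 9)]⟩⟩)) (.dle (nat_lit 0))) (.trX (nat_lit 3) (nat_lit 0) (nat_lit 1) (nat_lit 54) (nat_lit 74) (nat_lit 100) (nat_lit 340)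 (.spl (nat_lit 1) (nat_lit 220) (.trX (nat_lit 3) (nat_lit 0) (nat_lit 1) (nat_lit 53) (nat_lit 80) (nat_lit 100) (nat_lit 330) (.spl (nat_lit 5) (nat_lit 120) (.spl (nat_lit 3) (nat_lit 280) (.leaf ⟨(nat_lit 895), (nat_lit 105), (nat_lit 0), (nat_lit 0), (nat_lit 7003), (nat_lit 3545), (nat_lit 1298), (nat_lit 0), (nat_lit 0), (nat_lit 0), (nat_lit 223750), [((nat_lit 380), [((nat_lit 26), (nat_lit 0), (nat_lit 895))])], ⟨(nat_lit 6), false, true, true, (nat_lit 235), (nat_lit 2236), (nat_lit 2739), [(nat_lit 1536642), (nat_lit 1534240), (nat_lit 1581477), (nat_lit 1579788), (nat_lit 1595704), (nat_lit 1591255), (nat_lit 1640539), (nat_lit 1636804)]⟩, ⟨(nat_lit 3), false, false, true, (nat_lit 154), (nat_lit 2236), (nat_lit 2739), [(nat_lit 1292206), (nat_lit 1294870), (nat_lit 1359410), (nat_lit 1363145), (nat_lit 1410329), (nat_lit 1408901), (nat_lit 1477581), (nat_lit 1477224)]⟩, (nat_lit 4751432), (nat_lit 42814788), (nat_lit 15979554), (nat_lit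 8205658), (nat_lit 3), (nat_lit 0), [], [], [], [⟨(nat_lit 0), (nat_lit 100), (nat_lit 92), (nat_lit 40), (nat_lit 27457636)⟩],
 ⟨⟨[(nat_lit 40), (nat_lit 80), (nat_lit 100)], [(nat_lit 0), (nat_lit 2008), (nat_lit 2969)], [((nat_lit 0), (nat_lit 0), (nat_lit 0)), ((nat_lit 1000), (nat_lit 540), (nat_lit 733)), ((nat_lit 1000), (nat_lit 536), (nat_lit 751))], ((nat_lit 53), (nat_lit 100), (nat_lit 83))⟩, (nat_lit 462787), (nat_lit 130), (nat_lit 130), (nat_lit 0), (nat_lit 147077), [(nat_lit 1559214023), (nat_lit 2173138425), (nat_lit 2526800000)], [(nat_lit 0), (nat_lit 0), (nat_lit 0)], [(nat_lit 23383869044), (nat_lit 23974087643), (nat_lit 24840049739), (nat_lit 25411672762), (nat_lit 24452577317), (nat_lit 24980006478), (nat_lit 25754110015), (nat_lit 26242464675)], (nat_lit 1271251), (nat_lit 1271251), (nat_lit 1271251), (nat_lit 1271251), (nat_lit 780000), (nat_lit 1435001), [(nat_lit 490000), (nat_lit 1100000), (nat_lit 1442501)], [(nat_lit 3),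 (nat_lit 50), (nat_lit 260), (nat_lit 50), (nat_lit 8)]⟩,
 ⟨⟨[(nat_lit 120), (nat_lit 160), (nat_lit 200)], [(nat_lit 0), (nat_lit 533), (nat_lit 3597)], [((nat_lit 0), (nat_lit 0), (nat_lit 0)), ((nat_lit 960), (nat_lit 1000), (nat_lit 200)), ((nat_lit 612), (nat_lit 1000), (nat_lit 732))], ((nat_lit 0), (nat_lit 0), (nat_lit 0))⟩, (nat_lit 384366), (nat_lit 648), (nat_lit 648), (nat_lit 0), (nat_lit 495733), [(nat_lit 836640000), (nat_lit 1246560000), (nat_lit 1722000000)], [], [(nat_lit 4219294322), (nat_lit 4177601754), (nat_lit 4297723612), (nat_lit 4243048862), (nat_lit 3283033402), (nat_lit 3237443101), (nat_lit 3346642121), (nat_lit 3288659167)], (nat_lit 1271251), (nat_lit 1271251), (nat_lit 1271251), (nat_lit 1271251), (nat_lit 0), (nat_lit 780000), [(nat_lit 1695001), (nat_lit 1271251), (nat_lit 1271251)], [(nat_lit 29), (nat_lit 66), (nat_lit 401), (nat_lit 175), (nat_lit 8)]⟩,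
 Rw.none⟩) (.leaf ⟨(nat_lit 885), (nat_lit 115), (nat_lit 0), (nat_lit 0), (nat_lit 6584), (nat_lit 3549), (nat_lit 1409), (nat_lit 0), (nat_lit 0), (nat_lit 0), (nat_lit 221250), [((nat_lit 380), [((nat_lit 26), (nat_lit 0), (nat_lit 885))])], ⟨(nat_lit 7), false, true, true, (nat_lit 261), (nat_lit 2236), (nat_lit 2739), [(nat_lit 1595704), (nat_lit 1591255), (nat_lit 1640539), (nat_lit 1636804), (nat_lit 1669530), (nat_lit 1662525), (nat_lit 1714365), (nat_lit 1708073)]⟩, ⟨(nat_lit 3), false, false, true, (nat_lit 154), (nat_lit 2236), (nat_lit 2739), [(nat_lit 1292206), (nat_lit 1294870), (nat_lit 1359410), (nat_lit 1363145), (nat_lit 1410329), (nat_lit 1408901), (nat_lit 1477581), (nat_lit 1477224)]⟩, (nat_lit 4887185), (nat_lit 40665710), (nat_lit 18381397), (nat_lit 7952893), (nat_lit 3), (nat_lit 0), [⟨(nat_lit 1), (nat_lit 88), (nat_lit 48), (nat_lit 100), (nat_lit 286383212)⟩], [], [], [⟨(nat_lit 0), (nat_lit 100), (nat_lit 87), (nat_lit 35),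 (nat_lit 18144536)⟩, ⟨(nat_lit 0), (nat_lit 100), (nat_lit 76), (nat_lit 65), (nat_lit 15224328)⟩],
 ⟨⟨[(nat_lit 40), (nat_lit 80), (nat_lit 100)], [(nat_lit 0), (nat_lit 2008), (nat_lit 2969)], [((nat_lit 0), (nat_lit 0), (nat_lit 0)), ((nat_lit 1000), (nat_lit 540), (nat_lit 733)), ((nat_lit 1000), (nat_lit 536), (nat_lit 751))], ((nat_lit 53), (nat_lit 100), (nat_lit 83))⟩, (nat_lit 354393), (nat_lit 140), (nat_lit 140), (nat_lit 0), (nat_lit 147077), [(nat_lit 1561882040), (nat_lit 2231820602), (nat_lit 2568400000)], [(nat_lit 0), (nat_lit 0), (nat_lit 0)], [(nat_lit 25202086442), (nat_lit 25774390536), (nat_lit 27186607727), (nat_lit 27702027905), (nat_lit 26115308082), (nat_lit 26604080382), (nat_lit 27868723346), (nat_lit 28331933258)], (nat_lit 1271251), (nat_lit 1271251), (nat_lit 1271251), (nat_lit 1271251), (nat_lit 780000), (nat_lit 1435001), [(nat_lit 490000), (nat_lit 1100000), (nat_lit 1442501)], [(nat_lit 3), (nat_lit 50), (nat_lit 260),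 (nat_lit 50), (nat_lit 8)]⟩,
 ⟨⟨[(nat_lit 120), (nat_lit 160), (nat_lit 200)], [(nat_lit 0), (nat_lit 533), (nat_lit 3597)], [((nat_lit 0), (nat_lit 0), (nat_lit 0)), ((nat_lit 960), (nat_lit 1000), (nat_lit 200)), ((nat_lit 612), (nat_lit 1000), (nat_lit 732))], ((nat_lit 0), (nat_lit 0), (nat_lit 0))⟩, (nat_lit 449327), (nat_lit 639), (nat_lit 639), (nat_lit 0), (nat_lit 495733), [(nat_lit 916320000), (nat_lit 1365280000), (nat_lit 1886000000)], [], [(nat_lit 4684182729), (nat_lit 4624814872), (nat_lit 4907632991), (nat_lit 4889794650), (nat_lit 3653411542), (nat_lit 3591189860), (nat_lit 3780998572), (nat_lit 3759821178)], (nat_lit 1271251), (nat_lit 1271251), (nat_lit 1271251), (nat_lit 1271251), (nat_lit 0), (nat_lit 780000), [(nat_lit 1695001), (nat_lit 1271251), (nat_lit 1271251)], [(nat_lit 29), (nat_lit 66), (nat_lit 401), (nat_lit 175), (nat_lit 8)]⟩,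
 Rw.none⟩)) (.leaf ⟨(nat_lit 894), (nat_lit 74), (nat_lit 0), (nat_lit 32), (nat_lit 5537), (nat_lit 3629), (nat_lit 1173), (nat_lit 364), (nat_lit 0), (nat_lit 0), (nat_lit 223500), [((nat_lit 380), [((nat_lit 26), (nat_lit 0), (nat_lit 894))])], ⟨(nat_lit 6), false, true, true, (nat_lit 249), (nat_lit 2236), (nat_lit 2739), [(nat_lit 1536642), (nat_lit 1534240), (nat_lit 1581477), (nat_lit 1579788), (nat_lit 1669530), (nat_lit 1662525), (nat_lit 1714365), (nat_lit 1708073)]⟩, ⟨(nat_lit 3), false, false, true, (nat_lit 154), (nat_lit 2236), (nat_lit 2739), [(nat_lit 1292206), (nat_lit 1294870), (nat_lit 1359410), (nat_lit 1363145), (nat_lit 1410329), (nat_lit 1408901), (nat_lit 1477581), (nat_lit 1477224)]⟩, (nat_lit 4832028), (nat_lit 41616590), (nat_lit 17315096), (nat_lit 8068314), (nat_lit 3), (nat_lit 0), [⟨(nat_lit 1), (nat_lit 88), (nat_lit 48), (nat_lit 100), (nat_lit 278802729)⟩], [], [], [⟨(nat_lit 1), (nat_lit 61), (nat_lit 92), (nat_lit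 100), (nat_lit 223242)⟩],
 ⟨⟨[(nat_lit 40), (nat_lit 80), (nat_lit 100)], [(nat_lit 0), (nat_lit 2008), (nat_lit 2969)], [((nat_lit 0), (nat_lit 0), (nat_lit 0)), ((nat_lit 1000), (nat_lit 540), (nat_lit 733)), ((nat_lit 1000), (nat_lit 536), (nat_lit 751))], ((nat_lit 53), (nat_lit 100), (nat_lit 83))⟩, (nat_lit 304439), (nat_lit 140), (nat_lit 140), (nat_lit 0), (nat_lit 147077), [(nat_lit 1559480801), (nat_lit 2263536239), (nat_lit 2530960000)], [(nat_lit 0), (nat_lit 0), (nat_lit 0)], [(nat_lit 23763887165), (nat_lit 24388410979), (nat_lit 27291264898), (nat_lit 27811533121), (nat_lit 24817378880), (nat_lit 25356934116), (nat_lit 27952212802), (nat_lit 28419624188)], (nat_lit 1271251), (nat_lit 1271251), (nat_lit 1271251), (nat_lit 1271251), (nat_lit 780000), (nat_lit 1435001), [(nat_lit 490000), (nat_lit 1100000), (nat_lit 1442501)], [(nat_lit 3), (nat_lit 50), (nat_lit 260), (nat_lit 50), (nat_lit 8)]⟩,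
 ⟨⟨[(nat_lit 120), (nat_lit 160), (nat_lit 200)], [(nat_lit 0), (nat_lit 533), (nat_lit 3597)], [((nat_lit 0), (nat_lit 0), (nat_lit 0)), ((nat_lit 960), (nat_lit 1000), (nat_lit 200)), ((nat_lit 612), (nat_lit 1000), (nat_lit 732))], ((nat_lit 0), (nat_lit 0), (nat_lit 0))⟩, (nat_lit 275795), (nat_lit 559), (nat_lit 559), (nat_lit 0), (nat_lit 605185), [(nat_lit 844608000), (nat_lit 1258432000), (nat_lit 1738400000)], [], [(nat_lit 3668293727), (nat_lit 3650901708), (nat_lit 3923769615), (nat_lit 3873847709), (nat_lit 4135217938), (nat_lit 3968406947), (nat_lit 4194260617), (nat_lit 4107624558)], (nat_lit 1271251), (nat_lit 1271251), (nat_lit 1271251), (nat_lit 1271251), (nat_lit 780000), (nat_lit 3072501), [(nat_lit 1695001), (nat_lit 1271251), (nat_lit 1271251)], [(nat_lit 29), (nat_lit 66), (nat_lit 483), (nat_lit 250), (nat_lit 10)]⟩,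
 ⟨⟨[(nat_lit 140), (nat_lit 180), (nat_lit 200)], [(nat_lit 0), (nat_lit 0), (nat_lit 2835)], [((nat_lit 0), (nat_lit 0), (nat_lit 0)), ((nat_lit 0), (nat_lit 0), (nat_lit 0)), ((nat_lit 363), (nat_lit 1000), (nat_lit 798))], ((nat_lit 0), (nat_lit 0), (nat_lit 0))⟩, (nat_lit 8804), (nat_lit 300), (nat_lit 1154), (nat_lit 2499204), (nat_lit 1610147), [(nat_lit 314944000), (nat_lit 449856000), (nat_lit 524800000)], [], [(nat_lit 2303923456), (nat_lit 2110609123), (nat_lit 2082374428), (nat_lit 2000534520), (nat_lit 1956252320), (nat_lit 1870971058), (nat_lit 1841581952), (nat_lit 2020849744)], (nat_lit 780000), (nat_lit 1271251), (nat_lit 780000), (nat_lit 1435001), (nat_lit 780000), (nat_lit 3072501), [(nat_lit 1977501), (nat_lit 1271251), (nat_lit 1271251)], [(nat_lit 32), (nat_lit 67), (nat_lit 428), (nat_lit 200), (nat_lit 9)]⟩⟩))) (.spl (nat_lit 5) (nat_lit 200) (.spl (nat_lit 0) (nat_lit 375) (.spl (nat_lit 6) (nat_lit 80) (.leaf ⟨(nat_lit 0), (nat_lit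 1000), (nat_lit 0), (nat_lit 0), (nat_lit 0), (nat_lit 5216), (nat_lit 9171), (nat_lit 0), (nat_lit 0), (nat_lit 0), (nat_lit 0), [], Pd.none, Pd.none, (nat_lit 0), (nat_lit 1), (nat_lit 0), (nat_lit 0), (nat_lit 3), (nat_lit 0), [], [], [], [],
 ⟨⟨[(nat_lit 40), (nat_lit 80), (nat_lit 100)], [(nat_lit 0), (nat_lit 2008), (nat_lit 2969)], [((nat_lit 0), (nat_lit 0), (nat_lit 0)), ((nat_lit 1000), (nat_lit 540), (nat_lit 733)), ((nat_lit 1000), (nat_lit 536), (nat_lit 751))], ((nat_lit 53), (nat_lit 100), (nat_lit 80))⟩, (nat_lit 799917), (nat_lit 140), (nat_lit 140), (nat_lit 0), (nat_lit 143844), [(nat_lit 2266454008), (nat_lit 5122896747), (nat_lit 6250000000)], [], [(nat_lit 25416125465), (nat_lit 25798540436), (nat_lit 29966121558), (nat_lit 30266062776), (nat_lit 26141906931), (nat_lit 26479469167), (nat_lit 30146393248), (nat_lit 30413329566)], (nat_lit 1271251), (nat_lit 1271251), (nat_lit 1271251), (nat_lit 1271251), (nat_lit 780000), (nat_lit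 1435001), [(nat_lit 490000), (nat_lit 1100000), (nat_lit 1442501)], [(nat_lit 3), (nat_lit 50), (nat_lit 260), (nat_lit 50), (nat_lit 8)]⟩,
 ⟨⟨[(nat_lit 100), (nat_lit 140), (nat_lit 180)], [(nat_lit 0), (nat_lit 508), (nat_lit 2854)], [((nat_lit 0), (nat_lit 0), (nat_lit 0)), ((nat_lit 1000), (nat_lit 1000), (nat_lit 198)), ((nat_lit 777), (nat_lit 1000), (nat_lit 712))], ((nat_lit 100), (nat_lit 68), (nat_lit 80))⟩, (nat_lit 3902588), (nat_lit 476), (nat_lit 476), (nat_lit 0), (nat_lit 381301), [(nat_lit 6250000000), (nat_lit 9842000000), (nat_lit 14058000000)], [], [(nat_lit 32510044105), (nat_lit 32727535520), (nat_lit 37478143339), (nat_lit 37673838857), (nat_lit 26260311433), (nat_lit 26422539682), (nat_lit 30103270479), (nat_lit 30192544452)], (nat_lit 1271251), (nat_lit 1271251), (nat_lit 1271251), (nat_lit 1271251), (nat_lit 0), (nat_lit 1412501), [(nat_lit 1412501), (nat_lit 1271251), (nat_lit 1271251)], [(nat_lit 24), (nat_lit 63), (nat_lit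 428), (nat_lit 200), (nat_lit 10)]⟩,
 Rw.none⟩) (.dle (nat_lit 0))) (.trX (nat_lit 3) (nat_lit 0) (nat_lit 1) (nat_lit 49) (nat_lit 78) (nat_lit 100) (nat_lit 330) (.leaf ⟨(nat_lit 539), (nat_lit 461), (nat_lit 0), (nat_lit 0), (nat_lit 0), (nat_lit 3769), (nat_lit 4484), (nat_lit 0), (nat_lit 0), (nat_lit 0), (nat_lit 134750), [((nat_lit 380), [((nat_lit 26), (nat_lit 0), (nat_lit 539))])], ⟨(nat_lit 6), false, true, true, (nat_lit 263), (nat_lit 2236), (nat_lit 2500), [(nat_lit 1580644), (nat_lit 1579788), (nat_lit 1603223), (nat_lit 1602562), (nat_lit 1711289), (nat_lit 1708073), (nat_lit 1733869), (nat_lit 1730848)]⟩, ⟨(nat_lit 3), false, false, true, (nat_lit 154), (nat_lit 2236), (nat_lit 2500), [(nat_lit 1293547), (nat_lit 1294870), (nat_lit 1361275), (nat_lit 1363179), (nat_lit 1409676), (nat_lit 1408901), (nat_lit 1477418), (nat_lit 1477224)]⟩, (nat_lit 4895174), (nat_lit 40530587), (nat_lit 18523679), (nat_lit 7945734), (nat_lit 3), (nat_lit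 0), [⟨(nat_lit 1), (nat_lit 82), (nat_lit 47), (nat_lit 100), (nat_lit 4202545)⟩], [], [], [⟨(nat_lit 0), (nat_lit 100), (nat_lit 76), (nat_lit 65), (nat_lit 20375617)⟩],
 ⟨⟨[(nat_lit 40), (nat_lit 80), (nat_lit 100)], [(nat_lit 0), (nat_lit 2244), (nat_lit 3243)], [((nat_lit 0), (nat_lit 0), (nat_lit 0)), ((nat_lit 1000), (nat_lit 495), (nat_lit 771)), ((nat_lit 1000), (nat_lit 493), (nat_lit 781))], ((nat_lit 49), (nat_lit 100), (nat_lit 83))⟩, (nat_lit 674220), (nat_lit 149), (nat_lit 149), (nat_lit 0), (nat_lit 178332), [(nat_lit 1654195093), (nat_lit 3312072448), (nat_lit 4007760000)], [(nat_lit 0), (nat_lit 0), (nat_lit 0)], [(nat_lit 24220226109), (nat_lit 24542419110), (nat_lit 27738946534), (nat_lit 28003322684), (nat_lit 25194633029), (nat_lit 25481614837), (nat_lit 28335454930), (nat_lit 28573083315)], (nat_lit 1271251), (nat_lit 1271251), (nat_lit 1271251), (nat_lit 1271251), (nat_lit 780000), (nat_lit 1435001), [(nat_lit 490000), (nat_lit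 1100000), (nat_lit 1442501)], [(nat_lit 3), (nat_lit 50), (nat_lit 260), (nat_lit 50), (nat_lit 8)]⟩,
 ⟨⟨[(nat_lit 100), (nat_lit 140), (nat_lit 180)], [(nat_lit 0), (nat_lit 508), (nat_lit 2854)], [((nat_lit 0), (nat_lit 0), (nat_lit 0)), ((nat_lit 1000), (nat_lit 1000), (nat_lit 198)), ((nat_lit 777), (nat_lit 1000), (nat_lit 712))], ((nat_lit 100), (nat_lit 64), (nat_lit 83))⟩, (nat_lit 1393149), (nat_lit 559), (nat_lit 559), (nat_lit 0), (nat_lit 485642), [(nat_lit 2881250000), (nat_lit 4537162000), (nat_lit 6480738000)], [], [(nat_lit 16771564436), (nat_lit 16761811118), (nat_lit 17820501027), (nat_lit 17896106341), (nat_lit 13270386108), (nat_lit 13285279146), (nat_lit 14183672420), (nat_lit 14138308227)], (nat_lit 1271251), (nat_lit 1271251), (nat_lit 1271251), (nat_lit 1271251), (nat_lit 0), (nat_lit 1412501), [(nat_lit 1412501), (nat_lit 1271251), (nat_lit 1271251)], [(nat_lit 24), (nat_lit 63), (nat_lit 428), (nat_lit 200), (nat_lit 10)]⟩,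
 Rw.none⟩))) (.leaf ⟨(nat_lit 665), (nat_lit 269), (nat_lit 0), (nat_lit 66), (nat_lit 0), (nat_lit 4152), (nat_lit 2973), (nat_lit 759), (nat_lit 0), (nat_lit 0), (nat_lit 166250), [((nat_lit 380), [((nat_lit 26), (nat_lit 0), (nat_lit 665))])], ⟨(nat_lit 6), false, true, true, (nat_lit 266), (nat_lit 2236), (nat_lit 2739), [(nat_lit 1581477), (nat_lit 1579788), (nat_lit 1603890), (nat_lit 1602558), (nat_lit 1729131), (nat_lit 1722327), (nat_lit 1751548), (nat_lit 1745101)]⟩, ⟨(nat_lit 3), false, false, true, (nat_lit 154), (nat_lit 2236), (nat_lit 2739), [(nat_lit 1292206), (nat_lit 1294870), (nat_lit 1359410), (nat_lit 1363145), (nat_lit 1410329), (nat_lit 1408901), (nat_lit 1477581), (nat_lit 1477224)]⟩, (nat_lit 4907860), (nat_lit 40270821), (nat_lit 18825811), (nat_lit 7903368), (nat_lit 5), (nat_lit 0), [⟨(nat_lit 1), (nat_lit 80), (nat_lit 49), (nat_lit 100), (nat_lit 14734331)⟩], [], [], [⟨(nat_lit 1), (nat_lit 63), (nat_lit 91), (nat_lit 100),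 (nat_lit 71246150)⟩],
 ⟨⟨[(nat_lit 40), (nat_lit 80), (nat_lit 100)], [(nat_lit 0), (nat_lit 2008), (nat_lit 2969)], [((nat_lit 0), (nat_lit 0), (nat_lit 0)), ((nat_lit 1000), (nat_lit 540), (nat_lit 733)), ((nat_lit 1000), (nat_lit 536), (nat_lit 751))], ((nat_lit 53), (nat_lit 100), (nat_lit 83))⟩, (nat_lit 348851), (nat_lit 152), (nat_lit 152), (nat_lit 0), (nat_lit 179241), [(nat_lit 1620578207), (nat_lit 2711088105), (nat_lit 3483600000)], [(nat_lit 0), (nat_lit 0), (nat_lit 0)], [(nat_lit 24737825151), (nat_lit 25308956566), (nat_lit 28567916015), (nat_lit 29106015030), (nat_lit 25576973425), (nat_lit 26089722146), (nat_lit 29039046070), (nat_lit 29520280476)], (nat_lit 1271251), (nat_lit 1271251), (nat_lit 1271251), (nat_lit 1271251), (nat_lit 780000), (nat_lit 1435001), [(nat_lit 490000), (nat_lit 1100000), (nat_lit 1442501)], [(nat_lit 3), (nat_lit 50), (nat_lit 260), (nat_lit 50), (nat_lit 8)]⟩,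
 ⟨⟨[(nat_lit 100), (nat_lit 140), (nat_lit 180)], [(nat_lit 0), (nat_lit 508), (nat_lit 2854)], [((nat_lit 0), (nat_lit 0), (nat_lit 0)), ((nat_lit 1000), (nat_lit 1000), (nat_lit 198)), ((nat_lit 777), (nat_lit 1000), (nat_lit 712))], ((nat_lit 100), (nat_lit 64), (nat_lit 83))⟩, (nat_lit 896573), (nat_lit 394), (nat_lit 394), (nat_lit 0), (nat_lit 485903), [(nat_lit 2093750000), (nat_lit 3297070000), (nat_lit 4709430000)], [], [(nat_lit 9998549760), (nat_lit 10037981292), (nat_lit 10982326725), (nat_lit 10967406550), (nat_lit 11695714028), (nat_lit 11672972404), (nat_lit 12427535037), (nat_lit 12360534297)], (nat_lit 1271251), (nat_lit 1271251), (nat_lit 1271251), (nat_lit 1271251), (nat_lit 1271251), (nat_lit 1271251), [(nat_lit 1412501), (nat_lit 1271251), (nat_lit 1271251)], [(nat_lit 24), (nat_lit 63), (nat_lit 483), (nat_lit 250), (nat_lit 10)]⟩,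
 ⟨⟨[(nat_lit 140), (nat_lit 180), (nat_lit 200)], [(nat_lit 0), (nat_lit 0), (nat_lit 2835)], [((nat_lit 0), (nat_lit 0), (nat_lit 0)), ((nat_lit 0), (nat_lit 0), (nat_lit 0)), ((nat_lit 363), (nat_lit 1000), (nat_lit 798))], ((nat_lit 0), (nat_lit 0), (nat_lit 0))⟩, (nat_lit 18159), (nat_lit 300), (nat_lit 1278), (nat_lit 5154600), (nat_lit 1963819), [(nat_lit 649572000), (nat_lit 927828000), (nat_lit 1082400000)], [], [(nat_lit 4250402739), (nat_lit 4079262957), (nat_lit 4020480222), (nat_lit 3849948333), (nat_lit 4000263432), (nat_lit 3821924354), (nat_lit 3760473816), (nat_lit 3584942213)], (nat_lit 780000), (nat_lit 1271251), (nat_lit 780000), (nat_lit 1435001), (nat_lit 1271251), (nat_lit 1271251), [(nat_lit 1977501), (nat_lit 1271251), (nat_lit 1271251)], [(nat_lit 32), (nat_lit 67), (nat_lit 428), (nat_lit 200), (nat_lit 9)]⟩⟩)))))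
noncomputable def c16_47 : Tr Lf :=
 (.ord (.trZ (nat_lit 0) (nat_lit 2) (nat_lit 4) (nat_lit 100) (nat_lit 60) (nat_lit 74) (nat_lit 60) (.spl (nat_lit 6) (nat_lit 68) (.spl (nat_lit 1) (nat_lit 220) (.ord (.trX (nat_lit 3) (nat_lit 0) (nat_lit 1) (nat_lit 60) (nat_lit 74) (nat_lit 100) (nat_lit 340) (.spl (nat_lit 5) (nat_lit 120) (.spl (nat_lit 1) (nat_lit 200) (.ord (.trX (nat_lit 3) (nat_lit 0) (nat_lit 1) (nat_lit 60) (nat_lit 80) (nat_lit 100) (nat_lit 320) (.spl (nat_lit 6) (nat_lit 60) (.leaf ⟨(nat_lit 691), (nat_lit 290), (nat_lit 0), (nat_lit 19), (nat_lit 2716), (nat_lit 3514), (nat_lit 3980), (nat_lit 250), (nat_lit 0), (nat_lit 4928771649580), (nat_lit 420200), [((nat_lit 380), [((nat_lit 41), (nat_lit 2), (nat_lit 677)), ((nat_lit 25), (nat_lit 2), (nat_lit 14))])], ⟨(nat_lit 6), false, true, true, (nat_lit 243), (nat_lit 2236), (nat_lit 3163), [(nat_lit 1538797), (nat_lit 1534240), (nat_lit 1560952), (nat_lit 1557014), (nat_lit 1660704),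 (nat_lit 1648271), (nat_lit 1682859), (nat_lit 1671045)]⟩, ⟨(nat_lit 4), false, false, false, (nat_lit 154), (nat_lit 2236), (nat_lit 3163), [(nat_lit 1264208), (nat_lit 1277371), (nat_lit 1286299), (nat_lit 1300081), (nat_lit 1477844), (nat_lit 1477224), (nat_lit 1499999), (nat_lit 1499999)]⟩, (nat_lit 4796485), (nat_lit 42165547), (nat_lit 16704687), (nat_lit 8129766), (nat_lit 4), (nat_lit 0), [⟨(nat_lit 1), (nat_lit 88), (nat_lit 53), (nat_lit 100), (nat_lit 123101366)⟩], [], [], [⟨(nat_lit 0), (nat_lit 100), (nat_lit 98), (nat_lit 6), (nat_lit 113223698)⟩],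
 ⟨⟨[(nat_lit 40), (nat_lit 80), (nat_lit 100)], [(nat_lit 0), (nat_lit 1598), (nat_lit 2533)], [((nat_lit 0), (nat_lit 0), (nat_lit 0)), ((nat_lit 1000), (nat_lit 625), (nat_lit 623)), ((nat_lit 1000), (nat_lit 604), (nat_lit 730))], ((nat_lit 61), (nat_lit 100), (nat_lit 72))⟩, (nat_lit 0), (nat_lit 135), (nat_lit 135), (nat_lit 0), (nat_lit 39248), [(nat_lit 1482944014), (nat_lit 1540196715), (nat_lit 1393018000)], [(nat_lit 0), (nat_lit 0), (nat_lit 0)], [(nat_lit 23134960521), (nat_lit 24461494515), (nat_lit 26449457511), (nat_lit 27716499550), (nat_lit 24131618476), (nat_lit 25182474993), (nat_lit 26867296358), (nat_lit 27810791899)], (nat_lit 1271251), (nat_lit 1271251), (nat_lit 1271251), (nat_lit 1271251), (nat_lit 356250), (nat_lit 1423751), [(nat_lit 490000), (nat_lit 1100000), (nat_lit 1442501)], [(nat_lit 3), (nat_lit 50), (nat_lit 260), (nat_lit 50), (nat_lit 9)]⟩,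
 ⟨⟨[(nat_lit 120), (nat_lit 160), (nat_lit 180)], [(nat_lit 0), (nat_lit 533), (nat_lit 2066)], [((nat_lit 0), (nat_lit 0), (nat_lit 0)), ((nat_lit 960), (nat_lit 1000), (nat_lit 200)), ((nat_lit 615), (nat_lit 1000), (nat_lit 729))], ((nat_lit 100), (nat_lit 63), (nat_lit 72))⟩, (nat_lit 959951), (nat_lit 396), (nat_lit 396), (nat_lit 0), (nat_lit 146003), [(nat_lit 2462112000), (nat_lit 3668448000), (nat_lit 4343922000)], [], [(nat_lit 12221879721), (nat_lit 12221939503), (nat_lit 13176328234), (nat_lit 13116540912), (nat_lit 9064131723), (nat_lit 9057064802), (nat_lit 9954527918), (nat_lit 9926965042)], (nat_lit 1271251), (nat_lit 1271251), (nat_lit 1271251), (nat_lit 1271251), (nat_lit 0), (nat_lit 780000), [(nat_lit 1695001), (nat_lit 1271251), (nat_lit 1271251)], [(nat_lit 28), (nat_lit 65), (nat_lit 401), (nat_lit 175), (nat_lit 9)]⟩,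
 ⟨⟨[(nat_lit 120), (nat_lit 160), (nat_lit 180)], [(nat_lit 0), (nat_lit 533), (nat_lit 2066)], [((nat_lit 0), (nat_lit 0), (nat_lit 0)), ((nat_lit 960), (nat_lit 1000), (nat_lit 200)), ((nat_lit 615), (nat_lit 1000), (nat_lit 729))], ((nat_lit 100), (nat_lit 63), (nat_lit 72))⟩, (nat_lit 9096), (nat_lit 300), (nat_lit 490), (nat_lit 1379499), (nat_lit 146003), [(nat_lit 151392000), (nat_lit 225568000), (nat_lit 267102000)], [], [(nat_lit 1195997502), (nat_lit 1164368574), (nat_lit 965927036), (nat_lit 964221280), (nat_lit 895663553), (nat_lit 891121893), (nat_lit 908329439), (nat_lit 788026064)], (nat_lit 1271251), (nat_lit 1271251), (nat_lit 356250), (nat_lit 1423751), (nat_lit 0), (nat_lit 780000), [(nat_lit 1695001), (nat_lit 1271251), (nat_lit 1271251)], [(nat_lit 28), (nat_lit 65), (nat_lit 373), (nat_lit 150), (nat_lit 9)]⟩⟩) (.dle (nat_lit 0))))) (.leaf ⟨(nat_lit 0), (nat_lit 974), (nat_lit 0), (nat_lit 26), (nat_lit 5539), (nat_lit 6862), (nat_lit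 11546), (nat_lit 379), (nat_lit 0), (nat_lit 11976547941063), (nat_lit 0), [], Pd.none, Pd.none, (nat_lit 0), (nat_lit 1), (nat_lit 0), (nat_lit 0), (nat_lit 4), (nat_lit 0), [], [], [], [⟨(nat_lit 0), (nat_lit 100), (nat_lit 95), (nat_lit 12), (nat_lit 280177618)⟩],
 ⟨⟨[(nat_lit 40), (nat_lit 80), (nat_lit 100)], [(nat_lit 0), (nat_lit 1598), (nat_lit 2533)], [((nat_lit 0), (nat_lit 0), (nat_lit 0)), ((nat_lit 1000), (nat_lit 625), (nat_lit 623)), ((nat_lit 1000), (nat_lit 604), (nat_lit 730))], ((nat_lit 60), (nat_lit 100), (nat_lit 75))⟩, (nat_lit 0), (nat_lit 145), (nat_lit 145), (nat_lit 0), (nat_lit 52223), [(nat_lit 2617723459), (nat_lit 5312852332), (nat_lit 6250000000)], [], [(nat_lit 27729548043), (nat_lit 29664908304), (nat_lit 33551312802), (nat_lit 35417773836), (nat_lit 26794430674), (nat_lit 28374825807), (nat_lit 31414508517), (nat_lit 32638611570)], (nat_lit 1271251), (nat_lit 1271251), (nat_lit 1271251), (nat_lit 1271251), (nat_lit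 356250), (nat_lit 1423751), [(nat_lit 490000), (nat_lit 1100000), (nat_lit 1442501)], [(nat_lit 3), (nat_lit 50), (nat_lit 260), (nat_lit 50), (nat_lit 9)]⟩,
 ⟨⟨[(nat_lit 100), (nat_lit 140), (nat_lit 180)], [(nat_lit 0), (nat_lit 0), (nat_lit 2434)], [((nat_lit 0), (nat_lit 0), (nat_lit 0)), ((nat_lit 0), (nat_lit 0), (nat_lit 0)), ((nat_lit 726), (nat_lit 1000), (nat_lit 688))], ((nat_lit 100), (nat_lit 66), (nat_lit 75))⟩, (nat_lit 4085750), (nat_lit 384), (nat_lit 384), (nat_lit 0), (nat_lit 130023), [(nat_lit 6250000000), (nat_lit 9842000000), (nat_lit 14058000000)], [], [(nat_lit 34081637296), (nat_lit 34240620586), (nat_lit 39764688728), (nat_lit 39897554866), (nat_lit 25361018426), (nat_lit 25751459591), (nat_lit 31030441916), (nat_lit 31129613980)], (nat_lit 1271251), (nat_lit 1271251), (nat_lit 1271251), (nat_lit 1271251), (nat_lit 0), (nat_lit 780000), [(nat_lit 1412501), (nat_lit 1271251), (nat_lit 1271251)], [(nat_lit 24), (nat_lit 63),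 (nat_lit 401), (nat_lit 175), (nat_lit 9)]⟩,
 ⟨⟨[(nat_lit 120), (nat_lit 160), (nat_lit 200)], [(nat_lit 0), (nat_lit 533), (nat_lit 3597)], [((nat_lit 0), (nat_lit 0), (nat_lit 0)), ((nat_lit 960), (nat_lit 1000), (nat_lit 200)), ((nat_lit 612), (nat_lit 1000), (nat_lit 732))], ((nat_lit 0), (nat_lit 0), (nat_lit 0))⟩, (nat_lit 13839), (nat_lit 300), (nat_lit 619), (nat_lit 1883106), (nat_lit 179620), [(nat_lit 207168000), (nat_lit 308672000), (nat_lit 426400000)], [], [(nat_lit 1837841763), (nat_lit 1806760944), (nat_lit 1582560478), (nat_lit 1559322146), (nat_lit 1503472746), (nat_lit 1465492614), (nat_lit 1261087954), (nat_lit 1221878654)], (nat_lit 1271251), (nat_lit 1271251), (nat_lit 356250), (nat_lit 1423751), (nat_lit 0), (nat_lit 780000), [(nat_lit 1695001), (nat_lit 1271251), (nat_lit 1271251)], [(nat_lit 29), (nat_lit 66), (nat_lit 373), (nat_lit 150), (nat_lit 8)]⟩⟩)) (.leaf ⟨(nat_lit 0), (nat_lit 0), (nat_lit 0), (nat_lit 1000), (nat_lit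 12890), (nat_lit 4032), (nat_lit 10233), (nat_lit 10233), (nat_lit 0), (nat_lit 677877602619), (nat_lit 0), [], Pd.none, Pd.none, (nat_lit 0), (nat_lit 1), (nat_lit 0), (nat_lit 0), (nat_lit 0), (nat_lit 0), [], [⟨(nat_lit 0), (nat_lit 100), (nat_lit 53), (nat_lit 85), (nat_lit 857473021)⟩], [], [],
 ⟨⟨[(nat_lit 40), (nat_lit 80), (nat_lit 100)], [(nat_lit 0), (nat_lit 1598), (nat_lit 2533)], [((nat_lit 0), (nat_lit 0), (nat_lit 0)), ((nat_lit 1000), (nat_lit 625), (nat_lit 623)), ((nat_lit 1000), (nat_lit 604), (nat_lit 730))], ((nat_lit 60), (nat_lit 100), (nat_lit 75))⟩, (nat_lit 1825504), (nat_lit 145), (nat_lit 145), (nat_lit 0), (nat_lit 52241), [(nat_lit 2032000038), (nat_lit 4721028463), (nat_lit 6250000000)], [], [(nat_lit 23408875938), (nat_lit 24748275356), (nat_lit 28498348863), (nat_lit 29881916208), (nat_lit 24203364462), (nat_lit 25321089858), (nat_lit 28215887604), (nat_lit 29381585790)], (nat_lit 1271251), (nat_lit 1271251), (nat_lit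 1271251), (nat_lit 1271251), (nat_lit 356250), (nat_lit 1423751), [(nat_lit 490000), (nat_lit 1100000), (nat_lit 1442501)], [(nat_lit 3), (nat_lit 50), (nat_lit 260), (nat_lit 50), (nat_lit 9)]⟩,
 ⟨⟨[(nat_lit 120), (nat_lit 160), (nat_lit 200)], [(nat_lit 0), (nat_lit 533), (nat_lit 3597)], [((nat_lit 0), (nat_lit 0), (nat_lit 0)), ((nat_lit 960), (nat_lit 1000), (nat_lit 200)), ((nat_lit 612), (nat_lit 1000), (nat_lit 732))], ((nat_lit 0), (nat_lit 0), (nat_lit 0))⟩, (nat_lit 3379429), (nat_lit 402), (nat_lit 402), (nat_lit 0), (nat_lit 248142), [(nat_lit 7968000000), (nat_lit 11872000000), (nat_lit 16400000000)], [], [(nat_lit 27531812247), (nat_lit 28111641908), (nat_lit 33163417239), (nat_lit 33214285789), (nat_lit 38731194442), (nat_lit 36192676823), (nat_lit 39437670901), (nat_lit 39005507523)], (nat_lit 1271251), (nat_lit 1271251), (nat_lit 1271251), (nat_lit 1271251), (nat_lit 780000), (nat_lit 3072501), [(nat_lit 1695001), (nat_lit 1271251),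 (nat_lit 1271251)], [(nat_lit 29), (nat_lit 66), (nat_lit 483), (nat_lit 250), (nat_lit 10)]⟩,
 ⟨⟨[(nat_lit 120), (nat_lit 160), (nat_lit 200)], [(nat_lit 0), (nat_lit 533), (nat_lit 3597)], [((nat_lit 0), (nat_lit 0), (nat_lit 0)), ((nat_lit 960), (nat_lit 1000), (nat_lit 200)), ((nat_lit 612), (nat_lit 1000), (nat_lit 732))], ((nat_lit 0), (nat_lit 0), (nat_lit 0))⟩, (nat_lit 532287), (nat_lit 300), (nat_lit 496), (nat_lit 72426819), (nat_lit 248142), [(nat_lit 7968000000), (nat_lit 11872000000), (nat_lit 16400000000)], [], [(nat_lit 58221090198), (nat_lit 57754475752), (nat_lit 52877051917), (nat_lit 52320625934), (nat_lit 67471487830), (nat_lit 58080540934), (nat_lit 83106609552), (nat_lit 74128871196)], (nat_lit 1271251), (nat_lit 1271251), (nat_lit 356250), (nat_lit 1423751), (nat_lit 780000), (nat_lit 3072501), [(nat_lit 1695001), (nat_lit 1271251), (nat_lit 1271251)], [(nat_lit 29), (nat_lit 66), (nat_lit 456), (nat_lit 225), (nat_lit 10)]⟩⟩))))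 (.spl (nat_lit 4) (nat_lit 120) (.trX (nat_lit 5) (nat_lit 3) (nat_lit 4) (nat_lit 100) (nat_lit 59) (nat_lit 94) (nat_lit 370) (.leaf ⟨(nat_lit 16), (nat_lit 755), (nat_lit 0), (nat_lit 229), (nat_lit 7549), (nat_lit 4723), (nat_lit 8508), (nat_lit 3271), (nat_lit 0), (nat_lit 340124), (nat_lit 64000), [((nat_lit 380), [((nat_lit 41), (nat_lit 5), (nat_lit 16))])], ⟨(nat_lit 6), false, true, true, (nat_lit 270), (nat_lit 2236), (nat_lit 3163), [(nat_lit 1583107), (nat_lit 1579788), (nat_lit 1605240), (nat_lit 1602541), (nat_lit 1750729), (nat_lit 1736581), (nat_lit 1772883), (nat_lit 1759355)]⟩, ⟨(nat_lit 4), false, false, false, (nat_lit 139), (nat_lit 2236), (nat_lit 3163), [(nat_lit 1264208), (nat_lit 1277371), (nat_lit 1330482), (nat_lit 1345503), (nat_lit 1355794), (nat_lit 1363050), (nat_lit 1422068), (nat_lit 1431182)]⟩, (nat_lit 4781728), (nat_lit 40754732), (nat_lit 19425513), (nat_lit 6819755), (nat_lit 4), (nat_lit 0), [], [⟨(nat_lit 0),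 (nat_lit 100), (nat_lit 53), (nat_lit 88), (nat_lit 515626415)⟩], [], [],
 ⟨⟨[(nat_lit 40), (nat_lit 80), (nat_lit 100)], [(nat_lit 0), (nat_lit 1598), (nat_lit 2533)], [((nat_lit 0), (nat_lit 0), (nat_lit 0)), ((nat_lit 1000), (nat_lit 625), (nat_lit 623)), ((nat_lit 1000), (nat_lit 604), (nat_lit 730))], ((nat_lit 60), (nat_lit 100), (nat_lit 75))⟩, (nat_lit 1351356), (nat_lit 150), (nat_lit 150), (nat_lit 0), (nat_lit 62905), [(nat_lit 1969964963), (nat_lit 4339782560), (nat_lit 5705680000)], [(nat_lit 0), (nat_lit 0), (nat_lit 0)], [(nat_lit 23929884212), (nat_lit 25758178439), (nat_lit 30438054385), (nat_lit 31894717320), (nat_lit 23312125193), (nat_lit 24730080442), (nat_lit 29171992027), (nat_lit 30546011398)], (nat_lit 1271251), (nat_lit 1271251), (nat_lit 1271251), (nat_lit 1271251), (nat_lit 356250), (nat_lit 780000), [(nat_lit 490000), (nat_lit 1100000), (nat_lit 1442501)], [(nat_lit 3), (nat_lit 50), (nat_lit 238), (nat_lit 30), (nat_lit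 8)]⟩,
 ⟨⟨[(nat_lit 100), (nat_lit 140), (nat_lit 180)], [(nat_lit 0), (nat_lit 508), (nat_lit 2854)], [((nat_lit 0), (nat_lit 0), (nat_lit 0)), ((nat_lit 1000), (nat_lit 1000), (nat_lit 198)), ((nat_lit 777), (nat_lit 1000), (nat_lit 712))], ((nat_lit 100), (nat_lit 74), (nat_lit 76))⟩, (nat_lit 3602007), (nat_lit 420), (nat_lit 420), (nat_lit 0), (nat_lit 236369), [(nat_lit 6150000000), (nat_lit 9684528000), (nat_lit 13833072000)], [], [(nat_lit 33104659998), (nat_lit 33331389714), (nat_lit 38108439147), (nat_lit 38287585362), (nat_lit 34418418533), (nat_lit 32365583490), (nat_lit 34795879741), (nat_lit 34655229036)], (nat_lit 1271251), (nat_lit 1271251), (nat_lit 1271251), (nat_lit 1271251), (nat_lit 0), (nat_lit 2613125), [(nat_lit 1412501), (nat_lit 1271251), (nat_lit 1271251)], [(nat_lit 24), (nat_lit 63), (nat_lit 483), (nat_lit 250), (nat_lit 11)]⟩,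
 ⟨⟨[(nat_lit 120), (nat_lit 160), (nat_lit 200)], [(nat_lit 0), (nat_lit 533), (nat_lit 3597)], [((nat_lit 0), (nat_lit 0), (nat_lit 0)), ((nat_lit 960), (nat_lit 1000), (nat_lit 200)), ((nat_lit 612), (nat_lit 1000), (nat_lit 732))], ((nat_lit 0), (nat_lit 0), (nat_lit 0))⟩, (nat_lit 121894), (nat_lit 300), (nat_lit 628), (nat_lit 16585741), (nat_lit 202488), [(nat_lit 1824672000), (nat_lit 2718688000), (nat_lit 3755600000)], [], [(nat_lit 16222315709), (nat_lit 15770900910), (nat_lit 14978072674), (nat_lit 14472458596), (nat_lit 13229207563), (nat_lit 12178466847), (nat_lit 14632571487), (nat_lit 10960357469)], (nat_lit 1271251), (nat_lit 1271251), (nat_lit 356250), (nat_lit 780000), (nat_lit 0), (nat_lit 2613125), [(nat_lit 1695001), (nat_lit 1271251), (nat_lit 1271251)], [(nat_lit 29), (nat_lit 66), (nat_lit 428), (nat_lit 200), (nat_lit 9)]⟩⟩)) (.leaf ⟨(nat_lit 258), (nat_lit 469), (nat_lit 0), (nat_lit 273), (nat_lit 36), (nat_lit 3936), (nat_lit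 6004), (nat_lit 3899), (nat_lit 0), (nat_lit 5516106140), (nat_lit 540000), [((nat_lit 380), [((nat_lit 25), (nat_lit 2), (nat_lit 164)), ((nat_lit 41), (nat_lit 5), (nat_lit 94))])], ⟨(nat_lit 6), false, true, true, (nat_lit 270), (nat_lit 2236), (nat_lit 3163), [(nat_lit 1583107), (nat_lit 1579788), (nat_lit 1605240), (nat_lit 1602541), (nat_lit 1750729), (nat_lit 1736581), (nat_lit 1772883), (nat_lit 1759355)]⟩, ⟨(nat_lit 4), false, false, false, (nat_lit 181), (nat_lit 2236), (nat_lit 3163), [(nat_lit 1355794), (nat_lit 1363050), (nat_lit 1422068), (nat_lit 1431182), (nat_lit 1477844), (nat_lit 1477224), (nat_lit 1544182), (nat_lit 1545421)]⟩, (nat_lit 5149041), (nat_lit 38505151), (nat_lit 18659874), (nat_lit 9834975), (nat_lit 4), (nat_lit 0), [], [], [], [],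
 ⟨⟨[(nat_lit 40), (nat_lit 80), (nat_lit 100)], [(nat_lit 0), (nat_lit 1598), (nat_lit 2533)], [((nat_lit 0), (nat_lit 0), (nat_lit 0)), ((nat_lit 1000), (nat_lit 625), (nat_lit 623)), ((nat_lit 1000), (nat_lit 604), (nat_lit 730))], ((nat_lit 60), (nat_lit 100), (nat_lit 75))⟩, (nat_lit 0), (nat_lit 130), (nat_lit 130), (nat_lit 0), (nat_lit 88801), [(nat_lit 1768880003), (nat_lit 1663123796), (nat_lit 1387716800)], [(nat_lit 0), (nat_lit 0), (nat_lit 0)], [(nat_lit 22768087923), (nat_lit 24060947380), (nat_lit 28092777156), (nat_lit 29348174378), (nat_lit 23833599691), (nat_lit 24965159696), (nat_lit 28663883406), (nat_lit 29786101209)], (nat_lit 1271251), (nat_lit 1271251), (nat_lit 1271251), (nat_lit 1271251), (nat_lit 780000), (nat_lit 1435001), [(nat_lit 490000), (nat_lit 1100000), (nat_lit 1442501)], [(nat_lit 3), (nat_lit 50), (nat_lit 260), (nat_lit 50), (nat_lit 8)]⟩,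
 ⟨⟨[(nat_lit 100), (nat_lit 140), (nat_lit 180)], [(nat_lit 0), (nat_lit 508), (nat_lit 2854)], [((nat_lit 0), (nat_lit 0), (nat_lit 0)), ((nat_lit 1000), (nat_lit 1000), (nat_lit 198)), ((nat_lit 777), (nat_lit 1000), (nat_lit 712))], ((nat_lit 100), (nat_lit 74), (nat_lit 76))⟩, (nat_lit 2557126), (nat_lit 420), (nat_lit 420), (nat_lit 0), (nat_lit 236369), [(nat_lit 4637500000), (nat_lit 7302764000), (nat_lit 10431036000)], [], [(nat_lit 25748670120), (nat_lit 25984870776), (nat_lit 29147188114), (nat_lit 29294282471), (nat_lit 28002793068), (nat_lit 26305784264), (nat_lit 27888922995), (nat_lit 27774165072)], (nat_lit 1271251), (nat_lit 1271251), (nat_lit 1271251), (nat_lit 1271251), (nat_lit 0), (nat_lit 2825001), [(nat_lit 1412501), (nat_lit 1271251), (nat_lit 1271251)], [(nat_lit 24), (nat_lit 63), (nat_lit 483), (nat_lit 250), (nat_lit 11)]⟩,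
 ⟨⟨[(nat_lit 120), (nat_lit 160), (nat_lit 200)], [(nat_lit 0), (nat_lit 533), (nat_lit 3597)], [((nat_lit 0), (nat_lit 0), (nat_lit 0)), ((nat_lit 960), (nat_lit 1000), (nat_lit 200)), ((nat_lit 612), (nat_lit 1000), (nat_lit 732))], ((nat_lit 0), (nat_lit 0), (nat_lit 0))⟩, (nat_lit 145314), (nat_lit 300), (nat_lit 652), (nat_lit 19772528), (nat_lit 372129), [(nat_lit 2175264000), (nat_lit 3241056000), (nat_lit 4477200000)], [], [(nat_lit 17856430090), (nat_lit 17253331552), (nat_lit 16676340914), (nat_lit 16253653842), (nat_lit 18295159488), (nat_lit 13298825952), (nat_lit 22252023836), (nat_lit 17120947634)], (nat_lit 1271251), (nat_lit 1271251), (nat_lit 780000), (nat_lit 1435001), (nat_lit 0), (nat_lit 2825001), [(nat_lit 1695001), (nat_lit 1271251), (nat_lit 1271251)], [(nat_lit 29), (nat_lit 66), (nat_lit 456), (nat_lit 225), (nat_lit 10)]⟩⟩))) (.dle (nat_lit 0)))))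
noncomputable def c16_48 : Tr Lf :=
 (.spl (nat_lit 1) (nat_lit 160) (.ord (.trX (nat_lit 4) (nat_lit 0) (nat_lit 2) (nat_lit 61) (nat_lit 92) (nat_lit 100) (nat_lit 290) (.leaf ⟨(nat_lit 1000), (nat_lit 0), (nat_lit 0), (nat_lit 0), (nat_lit 7316), (nat_lit 3317), (nat_lit 0), (nat_lit 0), (nat_lit 0), (nat_lit 1137152931229), (nat_lit 445200), [((nat_lit 380), [((nat_lit 26), (nat_lit 1), (nat_lit 774)), ((nat_lit 41), (nat_lit 2), (nat_lit 226))])], ⟨(nat_lit 3), false, false, true, (nat_lit 161), (nat_lit 2236), (nat_lit 3163), [(nat_lit 1289472), (nat_lit 1294870), (nat_lit 1333702), (nat_lit 1340339), (nat_lit 1472332), (nat_lit 1465917), (nat_lit 1516642), (nat_lit 1511466)]⟩, ⟨(nat_lit 5), false, false, true, (nat_lit 200), (nat_lit 2236), (nat_lit 3163), [(nat_lit 1411379), (nat_lit 1408901), (nat_lit 1455689), (nat_lit 1454450), (nat_lit 1548524), (nat_lit 1537186), (nat_lit 1592834), (nat_lit 1582735)]⟩, (nat_lit 4570350), (nat_lit 45248610),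 (nat_lit 9064587), (nat_lit 12686803), (nat_lit 0), (nat_lit 0), [⟨(nat_lit 1), (nat_lit 100), (nat_lit 54), (nat_lit 98), (nat_lit 17678636)⟩], [⟨(nat_lit 1), (nat_lit 100), (nat_lit 54), (nat_lit 98), (nat_lit 236503344)⟩], [], [],
 ⟨⟨[(nat_lit 40), (nat_lit 80), (nat_lit 120)], [(nat_lit 0), (nat_lit 1598), (nat_lit 3468)], [((nat_lit 0), (nat_lit 0), (nat_lit 0)), ((nat_lit 1000), (nat_lit 625), (nat_lit 623)), ((nat_lit 1000), (nat_lit 604), (nat_lit 730))], ((nat_lit 60), (nat_lit 100), (nat_lit 87))⟩, (nat_lit 0), (nat_lit 162), (nat_lit 162), (nat_lit 0), (nat_lit 185638), [(nat_lit 1361273620), (nat_lit 1083574505), (nat_lit 279764000)], [(nat_lit 0), (nat_lit 0), (nat_lit 0)], [(nat_lit 22118125107), (nat_lit 23261716423), (nat_lit 24127382779), (nat_lit 25086975015), (nat_lit 24826312383), (nat_lit 25850608031), (nat_lit 26377916838), (nat_lit 27242176756)], (nat_lit 1271251), (nat_lit 1271251), (nat_lit 780000), (nat_lit 1762501), (nat_lit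 1271251), (nat_lit 1271251), [(nat_lit 490000), (nat_lit 1100000), (nat_lit 1785001)], [(nat_lit 4), (nat_lit 51), (nat_lit 373), (nat_lit 150), (nat_lit 11)]⟩,
 Rw.none,
 Rw.none⟩))) (.spl (nat_lit 6) (nat_lit 80) (.leaf ⟨(nat_lit 1000), (nat_lit 0), (nat_lit 0), (nat_lit 0), (nat_lit 5941), (nat_lit 3498), (nat_lit 0), (nat_lit 0), (nat_lit 0), (nat_lit 128648905036), (nat_lit 338550), [((nat_lit 380), [((nat_lit 25), (nat_lit 0), (nat_lit 747)), ((nat_lit 41), (nat_lit 2), (nat_lit 253))])], ⟨(nat_lit 4), false, false, true, (nat_lit 175), (nat_lit 2236), (nat_lit 3163), [(nat_lit 1333702), (nat_lit 1340339), (nat_lit 1355794), (nat_lit 1363050), (nat_lit 1516642), (nat_lit 1511466), (nat_lit 1538797), (nat_lit 1534240)]⟩, ⟨(nat_lit 5), false, false, true, (nat_lit 210), (nat_lit 2236), (nat_lit 3163), [(nat_lit 1411379), (nat_lit 1408901), (nat_lit 1477844), (nat_lit 1477224), (nat_lit 1579000), (nat_lit 1565693), (nat_lit 1645465), (nat_lit 1634017)]⟩,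 (nat_lit 4776985), (nat_lit 43476538), (nat_lit 10060797), (nat_lit 13462665), (nat_lit 0), (nat_lit 0), [], [⟨(nat_lit 1), (nat_lit 99), (nat_lit 54), (nat_lit 100), (nat_lit 263526069)⟩], [], [],
 ⟨⟨[(nat_lit 40), (nat_lit 80), (nat_lit 100)], [(nat_lit 0), (nat_lit 1598), (nat_lit 2533)], [((nat_lit 0), (nat_lit 0), (nat_lit 0)), ((nat_lit 1000), (nat_lit 625), (nat_lit 623)), ((nat_lit 1000), (nat_lit 604), (nat_lit 730))], ((nat_lit 60), (nat_lit 100), (nat_lit 80))⟩, (nat_lit 0), (nat_lit 131), (nat_lit 131), (nat_lit 0), (nat_lit 130107), [(nat_lit 1468899214), (nat_lit 1385113096), (nat_lit 1401402800)], [(nat_lit 0), (nat_lit 0), (nat_lit 0)], [(nat_lit 21960708842), (nat_lit 23218196690), (nat_lit 24147897948), (nat_lit 25196689017), (nat_lit 25696344193), (nat_lit 26769739356), (nat_lit 27240941036), (nat_lit 28143991843)], (nat_lit 1271251), (nat_lit 1271251), (nat_lit 780000), (nat_lit 1762501), (nat_lit 1271251), (nat_lit 1271251), [(nat_lit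 490000), (nat_lit 1100000), (nat_lit 1442501)], [(nat_lit 3), (nat_lit 50), (nat_lit 272), (nat_lit 60), (nat_lit 9)]⟩,
 Rw.none,
 Rw.none⟩) (.dle (nat_lit 0))))
noncomputable def c16_49 : Tr Lf :=
 (.spl (nat_lit 6) (nat_lit 72) (.spl (nat_lit 2) (nat_lit 160) (.trX (nat_lit 4) (nat_lit 0) (nat_lit 2) (nat_lit 61) (nat_lit 92) (nat_lit 100) (nat_lit 290) (.spl (nat_lit 1) (nat_lit 220) (.leaf ⟨(nat_lit 977), (nat_lit 0), (nat_lit 0), (nat_lit 23), (nat_lit 7490), (nat_lit 3515), (nat_lit 292), (nat_lit 324), (nat_lit 0), (nat_lit 0), (nat_lit 370250), [((nat_lit 370), [((nat_lit 25), (nat_lit 0), (nat_lit 617)), ((nat_lit 41), (nat_lit 2), (nat_lit 360))])], ⟨(nat_lit 4), false, false, false, (nat_lit 188), (nat_lit 2738), (nat_lit 3163), [(nat_lit 1355914), (nat_lit 1359435), (nat_lit 1400199), (nat_lit 1404246), (nat_lit 1538797), (nat_lit 1536642), (nat_lit 1583107), (nat_lit 1581477)]⟩, ⟨(nat_lit 5), false, false, true, (nat_lit 200), (nat_lit 2738),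 (nat_lit 3163), [(nat_lit 1411379), (nat_lit 1410329), (nat_lit 1455689), (nat_lit 1455164), (nat_lit 1548524), (nat_lit 1543217), (nat_lit 1592834), (nat_lit 1588052)]⟩, (nat_lit 4818136), (nat_lit 43285574), (nat_lit 11263585), (nat_lit 12450841), (nat_lit 0), (nat_lit 0), [], [⟨(nat_lit 1), (nat_lit 100), (nat_lit 59), (nat_lit 100), (nat_lit 195013701)⟩], [], [],
 ⟨⟨[(nat_lit 40), (nat_lit 80), (nat_lit 100)], [(nat_lit 0), (nat_lit 1598), (nat_lit 2533)], [((nat_lit 0), (nat_lit 0), (nat_lit 0)), ((nat_lit 1000), (nat_lit 625), (nat_lit 623)), ((nat_lit 1000), (nat_lit 604), (nat_lit 730))], ((nat_lit 60), (nat_lit 100), (nat_lit 77))⟩, (nat_lit 306), (nat_lit 105), (nat_lit 105), (nat_lit 0), (nat_lit 71436), [(nat_lit 1450114568), (nat_lit 1377865065), (nat_lit 1193372000)], [(nat_lit 0), (nat_lit 0), (nat_lit 0)], [(nat_lit 21712405260), (nat_lit 22342603330), (nat_lit 23896996715), (nat_lit 24422839594), (nat_lit 24699850555), (nat_lit 25262072769),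 (nat_lit 26370895592), (nat_lit 26843079350)], (nat_lit 1271251), (nat_lit 1271251), (nat_lit 780000), (nat_lit 1762501), (nat_lit 1271251), (nat_lit 1271251), [(nat_lit 490000), (nat_lit 1100000), (nat_lit 1442501)], [(nat_lit 3), (nat_lit 50), (nat_lit 272), (nat_lit 60), (nat_lit 9)]⟩,
 ⟨⟨[(nat_lit 120), (nat_lit 160), (nat_lit 200)], [(nat_lit 0), (nat_lit 533), (nat_lit 3597)], [((nat_lit 0), (nat_lit 0), (nat_lit 0)), ((nat_lit 960), (nat_lit 1000), (nat_lit 200)), ((nat_lit 612), (nat_lit 1000), (nat_lit 732))], ((nat_lit 0), (nat_lit 0), (nat_lit 0))⟩, (nat_lit 84003), (nat_lit 548), (nat_lit 548), (nat_lit 0), (nat_lit 227425), [(nat_lit 183264000), (nat_lit 273056000), (nat_lit 377200000)], [], [(nat_lit 941401987), (nat_lit 941338888), (nat_lit 1108375832), (nat_lit 885930762), (nat_lit 1490423434), (nat_lit 1227634238), (nat_lit 1948311440), (nat_lit 1695346584)], (nat_lit 1271251), (nat_lit 1271251), (nat_lit 780000), (nat_lit 1762501),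 (nat_lit 0), (nat_lit 2825001), [(nat_lit 1695001), (nat_lit 1271251), (nat_lit 1271251)], [(nat_lit 29), (nat_lit 66), (nat_lit 456), (nat_lit 225), (nat_lit 10)]⟩,
 ⟨⟨[(nat_lit 140), (nat_lit 180), (nat_lit 200)], [(nat_lit 0), (nat_lit 0), (nat_lit 2835)], [((nat_lit 0), (nat_lit 0), (nat_lit 0)), ((nat_lit 0), (nat_lit 0), (nat_lit 0)), ((nat_lit 363), (nat_lit 1000), (nat_lit 798))], ((nat_lit 0), (nat_lit 0), (nat_lit 0))⟩, (nat_lit 6328), (nat_lit 300), (nat_lit 820), (nat_lit 1796301), (nat_lit 742196), [(nat_lit 226366000), (nat_lit 323334000), (nat_lit 377200000)], [], [(nat_lit 1561597268), (nat_lit 1506482978), (nat_lit 1516754944), (nat_lit 1460483609), (nat_lit 1682088624), (nat_lit 1843778296), (nat_lit 1157494744), (nat_lit 1220705074)], (nat_lit 780000), (nat_lit 1100000), (nat_lit 1271251), (nat_lit 1271251), (nat_lit 0), (nat_lit 2825001), [(nat_lit 1977501), (nat_lit 1271251), (nat_lit 1271251)], [(nat_lit 32), (nat_lit 67), (nat_lit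 456), (nat_lit 225), (nat_lit 10)]⟩⟩) (.leaf ⟨(nat_lit 976), (nat_lit 10), (nat_lit 0), (nat_lit 14), (nat_lit 6606), (nat_lit 3446), (nat_lit 285), (nat_lit 216), (nat_lit 0), (nat_lit 0), (nat_lit 383200), [((nat_lit 370), [((nat_lit 25), (nat_lit 0), (nat_lit 48)), ((nat_lit 25), (nat_lit 1), (nat_lit 928))])], ⟨(nat_lit 5), false, false, false, (nat_lit 201), (nat_lit 2738), (nat_lit 3163), [(nat_lit 1400199), (nat_lit 1404246), (nat_lit 1422342), (nat_lit 1426651), (nat_lit 1583107), (nat_lit 1581477), (nat_lit 1605257), (nat_lit 1603890)]⟩, ⟨(nat_lit 5), false, false, true, (nat_lit 200), (nat_lit 2738), (nat_lit 3163), [(nat_lit 1411379), (nat_lit 1410329), (nat_lit 1455689), (nat_lit 1455164), (nat_lit 1548524), (nat_lit 1543217), (nat_lit 1592834), (nat_lit 1588052)]⟩, (nat_lit 4922566), (nat_lit 42320640), (nat_lit 12393362), (nat_lit 12285998), (nat_lit 5), (nat_lit 0), [], [⟨(nat_lit 1), (nat_lit 100), (nat_lit 59), (nat_lit 100), (nat_lit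 200806927)⟩], [], [],
 ⟨⟨[(nat_lit 40), (nat_lit 80), (nat_lit 100)], [(nat_lit 0), (nat_lit 1598), (nat_lit 2533)], [((nat_lit 0), (nat_lit 0), (nat_lit 0)), ((nat_lit 1000), (nat_lit 625), (nat_lit 623)), ((nat_lit 1000), (nat_lit 604), (nat_lit 730))], ((nat_lit 60), (nat_lit 100), (nat_lit 77))⟩, (nat_lit 2185), (nat_lit 116), (nat_lit 116), (nat_lit 0), (nat_lit 107869), [(nat_lit 1399363301), (nat_lit 1246021389), (nat_lit 1100969600)], [(nat_lit 0), (nat_lit 0), (nat_lit 0)], [(nat_lit 21648562652), (nat_lit 22272858600), (nat_lit 23843697514), (nat_lit 24364756682), (nat_lit 24622671496), (nat_lit 25180017300), (nat_lit 26311956511), (nat_lit 26785860643)], (nat_lit 1271251), (nat_lit 1271251), (nat_lit 780000), (nat_lit 1762501), (nat_lit 1271251), (nat_lit 1271251), [(nat_lit 490000), (nat_lit 1100000), (nat_lit 1442501)], [(nat_lit 3), (nat_lit 50), (nat_lit 272), (nat_lit 60), (nat_lit 9)]⟩,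
 ⟨⟨[(nat_lit 100), (nat_lit 140), (nat_lit 180)], [(nat_lit 0), (nat_lit 508), (nat_lit 2854)], [((nat_lit 0), (nat_lit 0), (nat_lit 0)), ((nat_lit 1000), (nat_lit 1000), (nat_lit 198)), ((nat_lit 777), (nat_lit 1000), (nat_lit 712))], ((nat_lit 100), (nat_lit 72), (nat_lit 77))⟩, (nat_lit 48429), (nat_lit 474), (nat_lit 474), (nat_lit 0), (nat_lit 276168), [(nat_lit 150000000), (nat_lit 236208000), (nat_lit 337392000)], [], [(nat_lit 1067093288), (nat_lit 915199260), (nat_lit 892824981), (nat_lit 896576970), (nat_lit 1006822734), (nat_lit 928310946), (nat_lit 1449977985), (nat_lit 1323388680)], (nat_lit 1271251), (nat_lit 1271251), (nat_lit 780000), (nat_lit 1762501), (nat_lit 0), (nat_lit 2825001), [(nat_lit 1412501), (nat_lit 1271251), (nat_lit 1271251)], [(nat_lit 24), (nat_lit 63), (nat_lit 456), (nat_lit 225), (nat_lit 11)]⟩,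
 ⟨⟨[(nat_lit 140), (nat_lit 180), (nat_lit 200)], [(nat_lit 0), (nat_lit 0), (nat_lit 2835)], [((nat_lit 0), (nat_lit 0), (nat_lit 0)), ((nat_lit 0), (nat_lit 0), (nat_lit 0)), ((nat_lit 363), (nat_lit 1000), (nat_lit 798))], ((nat_lit 0), (nat_lit 0), (nat_lit 0))⟩, (nat_lit 3852), (nat_lit 300), (nat_lit 975), (nat_lit 1093400), (nat_lit 1114298), [(nat_lit 137788000), (nat_lit 196812000), (nat_lit 229600000)], [], [(nat_lit 930590648), (nat_lit 893049524), (nat_lit 925819232), (nat_lit 890157466), (nat_lit 1050607008), (nat_lit 1156693456), (nat_lit 707138812), (nat_lit 741311308)], (nat_lit 780000), (nat_lit 1100000), (nat_lit 1271251), (nat_lit 1271251), (nat_lit 0), (nat_lit 2825001), [(nat_lit 1977501), (nat_lit 1271251), (nat_lit 1271251)], [(nat_lit 32), (nat_lit 67), (nat_lit 456), (nat_lit 225), (nat_lit 10)]⟩⟩))) (.spl (nat_lit 6) (nat_lit 56) (.spl (nat_lit 0) (nat_lit 365) (.dle (nat_lit 0)) (.trX (nat_lit 4) (nat_lit 0) (nat_lit 2) (nat_lit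 57) (nat_lit 88) (nat_lit 100) (nat_lit 300) (.leaf ⟨(nat_lit 943), (nat_lit 0), (nat_lit 0), (nat_lit 57), (nat_lit 7270), (nat_lit 3648), (nat_lit 956), (nat_lit 643), (nat_lit 0), (nat_lit 0), (nat_lit 235750), [((nat_lit 370), [((nat_lit 25), (nat_lit 0), (nat_lit 943))])], ⟨(nat_lit 4), false, false, false, (nat_lit 193), (nat_lit 2738), (nat_lit 2959), [(nat_lit 1357673), (nat_lit 1359452), (nat_lit 1424494), (nat_lit 1426694), (nat_lit 1537742), (nat_lit 1536642), (nat_lit 1604573), (nat_lit 1603893)]⟩, ⟨(nat_lit 5), false, false, true, (nat_lit 216), (nat_lit 2738), (nat_lit 2959), [(nat_lit 1455444), (nat_lit 1455164), (nat_lit 1477721), (nat_lit 1477581), (nat_lit 1605497), (nat_lit 1602817), (nat_lit 1627774), (nat_lit 1625234)]⟩, (nat_lit 4969179), (nat_lit 41761257), (nat_lit 11451859), (nat_lit 13786884), (nat_lit 0), (nat_lit 0), [], [⟨(nat_lit 1), (nat_lit 92), (nat_lit 55), (nat_lit 100), (nat_lit 195269980)⟩], [], [],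
 ⟨⟨[(nat_lit 40), (nat_lit 60), (nat_lit 80)], [(nat_lit 0), (nat_lit 973), (nat_lit 1716)], [((nat_lit 0), (nat_lit 0), (nat_lit 0)), ((nat_lit 1000), (nat_lit 618), (nat_lit 574)), ((nat_lit 1000), (nat_lit 615), (nat_lit 581))], ((nat_lit 58), (nat_lit 100), (nat_lit 71))⟩, (nat_lit 0), (nat_lit 81), (nat_lit 81), (nat_lit 0), (nat_lit 30335), [(nat_lit 1543390075), (nat_lit 1651243546), (nat_lit 1885026800)], [(nat_lit 0), (nat_lit 0), (nat_lit 0)], [(nat_lit 21770754415), (nat_lit 22112724531), (nat_lit 24062016811), (nat_lit 24345815211), (nat_lit 25364972805), (nat_lit 25662207220), (nat_lit 27052837024), (nat_lit 27339882355)], (nat_lit 1271251), (nat_lit 1271251), (nat_lit 780000), (nat_lit 1762501), (nat_lit 1271251), (nat_lit 1271251), [(nat_lit 490000), (nat_lit 780000), (nat_lit 1100000)], [(nat_lit 2), (nat_lit 44), (nat_lit 272), (nat_lit 60), (nat_lit 11)]⟩,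
 ⟨⟨[(nat_lit 120), (nat_lit 160), (nat_lit 180)], [(nat_lit 0), (nat_lit 533), (nat_lit 2066)], [((nat_lit 0), (nat_lit 0), (nat_lit 0)), ((nat_lit 960), (nat_lit 1000), (nat_lit 200)), ((nat_lit 615), (nat_lit 1000), (nat_lit 729))], ((nat_lit 100), (nat_lit 65), (nat_lit 70))⟩, (nat_lit 254664), (nat_lit 430), (nat_lit 430), (nat_lit 0), (nat_lit 126050), [(nat_lit 454176000), (nat_lit 676704000), (nat_lit 801306000)], [], [(nat_lit 2086424604), (nat_lit 2104030506), (nat_lit 2902025384), (nat_lit 2093165316), (nat_lit 4017957670), (nat_lit 2727410728), (nat_lit 5445146000), (nat_lit 4202845988)], (nat_lit 1271251), (nat_lit 1271251), (nat_lit 780000), (nat_lit 1762501), (nat_lit 0), (nat_lit 2825001), [(nat_lit 1695001), (nat_lit 1271251), (nat_lit 1271251)], [(nat_lit 28), (nat_lit 65), (nat_lit 456), (nat_lit 225), (nat_lit 11)]⟩,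
 ⟨⟨[(nat_lit 120), (nat_lit 160), (nat_lit 200)], [(nat_lit 0), (nat_lit 0), (nat_lit 3198)], [((nat_lit 0), (nat_lit 0), (nat_lit 0)), ((nat_lit 0), (nat_lit 0), (nat_lit 0)), ((nat_lit 572), (nat_lit 1000), (nat_lit 714))], ((nat_lit 0), (nat_lit 0), (nat_lit 0))⟩, (nat_lit 27805), (nat_lit 300), (nat_lit 492), (nat_lit 4229400), (nat_lit 168750), [(nat_lit 454176000), (nat_lit 676704000), (nat_lit 934800000)], [], [(nat_lit 3504059282), (nat_lit 3484086552), (nat_lit 3529987211), (nat_lit 3508340749), (nat_lit 3609073450), (nat_lit 3806514012), (nat_lit 2879755118), (nat_lit 2845769064)], (nat_lit 1100000), (nat_lit 1271251), (nat_lit 1271251), (nat_lit 1271251), (nat_lit 0), (nat_lit 2825001), [(nat_lit 1695001), (nat_lit 1271251), (nat_lit 1271251)], [(nat_lit 29), (nat_lit 66), (nat_lit 456), (nat_lit 225), (nat_lit 10)]⟩⟩))) (.dle (nat_lit 0)))) (.dle (nat_lit 0)))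
noncomputable def c16_50 : Tr Lf :=
 (.trX (nat_lit 4) (nat_lit 0) (nat_lit 2) (nat_lit 54) (nat_lit 96) (nat_lit 100) (nat_lit 270) (.spl (nat_lit 1) (nat_lit 220) (.spl (nat_lit 0) (nat_lit 375) (.spl (nat_lit 6) (nat_lit 76) (.leaf ⟨(nat_lit 1000), (nat_lit 0), (nat_lit 0), (nat_lit 0), (nat_lit 6436), (nat_lit 3599), (nat_lit 0), (nat_lit 0), (nat_lit 0), (nat_lit 0), (nat_lit 250000), [((nat_lit 375), [((nat_lit 25), (nat_lit 0), (nat_lit 1000))])], ⟨(nat_lit 4), false, false, false, (nat_lit 188), (nat_lit 2500), (nat_lit 2739), [(nat_lit 1359450), (nat_lit 1361280), (nat_lit 1404275), (nat_lit 1406432), (nat_lit 1536642), (nat_lit 1535482), (nat_lit 1581477), (nat_lit 1580644)]⟩, ⟨(nat_lit 5), false, false, true, (nat_lit 193), (nat_lit 2500), (nat_lit 2739), [(nat_lit 1410329), (nat_lit 1409676), (nat_lit 1455164), (nat_lit 1454837), (nat_lit 1513686), (nat_lit 1511289), (nat_lit 1558521), (nat_lit 1556450)]⟩, (nat_lit 4767328), (nat_lit 43772129),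 (nat_lit 11362905), (nat_lit 11864966), (nat_lit 0), (nat_lit 0), [], [⟨(nat_lit 1), (nat_lit 100), (nat_lit 52), (nat_lit 98), (nat_lit 232159574)⟩], [], [],
 ⟨⟨[(nat_lit 40), (nat_lit 80), (nat_lit 100)], [(nat_lit 0), (nat_lit 2008), (nat_lit 2969)], [((nat_lit 0), (nat_lit 0), (nat_lit 0)), ((nat_lit 1000), (nat_lit 540), (nat_lit 733)), ((nat_lit 1000), (nat_lit 536), (nat_lit 751))], ((nat_lit 53), (nat_lit 100), (nat_lit 79))⟩, (nat_lit 299842), (nat_lit 115), (nat_lit 115), (nat_lit 0), (nat_lit 108789), [(nat_lit 1528000197), (nat_lit 1966578652), (nat_lit 2118000000)], [(nat_lit 0), (nat_lit 0), (nat_lit 0)], [(nat_lit 22360499575), (nat_lit 22679191206), (nat_lit 24425786921), (nat_lit 24691476759), (nat_lit 24514301858), (nat_lit 24810796615), (nat_lit 26199285476), (nat_lit 26447546149)], (nat_lit 1271251), (nat_lit 1271251), (nat_lit 780000), (nat_lit 1762501), (nat_lit 1271251), (nat_lit 1271251), [(nat_lit 490000), (nat_lit 1100000),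 (nat_lit 1442501)], [(nat_lit 3), (nat_lit 50), (nat_lit 272), (nat_lit 60), (nat_lit 9)]⟩,
 Rw.none,
 Rw.none⟩) (.dle (nat_lit 0))) (.trX (nat_lit 4) (nat_lit 0) (nat_lit 2) (nat_lit 49) (nat_lit 97) (nat_lit 100) (nat_lit 260) (.leaf ⟨(nat_lit 1000), (nat_lit 0), (nat_lit 0), (nat_lit 0), (nat_lit 5020), (nat_lit 3542), (nat_lit 0), (nat_lit 0), (nat_lit 0), (nat_lit 0), (nat_lit 250000), [((nat_lit 380), [((nat_lit 26), (nat_lit 0), (nat_lit 1000))])], ⟨(nat_lit 4), false, false, false, (nat_lit 188), (nat_lit 2236), (nat_lit 2500), [(nat_lit 1361275), (nat_lit 1363179), (nat_lit 1406424), (nat_lit 1408716), (nat_lit 1535482), (nat_lit 1534240), (nat_lit 1580644), (nat_lit 1579788)]⟩, ⟨(nat_lit 5), false, false, true, (nat_lit 190), (nat_lit 2236), (nat_lit 2500), [(nat_lit 1409676), (nat_lit 1408901), (nat_lit 1454837), (nat_lit 1454450), (nat_lit 1496773), (nat_lit 1494425), (nat_lit 1541934), (nat_lit 1539973)]⟩, (nat_lit 4740770), (nat_lit 44015488),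 (nat_lit 11417287), (nat_lit 11567225), (nat_lit 0), (nat_lit 0), [], [⟨(nat_lit 1), (nat_lit 100), (nat_lit 47), (nat_lit 97), (nat_lit 261031473)⟩], [], [],
 ⟨⟨[(nat_lit 40), (nat_lit 80), (nat_lit 100)], [(nat_lit 0), (nat_lit 2244), (nat_lit 3243)], [((nat_lit 0), (nat_lit 0), (nat_lit 0)), ((nat_lit 1000), (nat_lit 495), (nat_lit 771)), ((nat_lit 1000), (nat_lit 493), (nat_lit 781))], ((nat_lit 49), (nat_lit 100), (nat_lit 83))⟩, (nat_lit 290960), (nat_lit 126), (nat_lit 126), (nat_lit 0), (nat_lit 145118), [(nat_lit 1531200127), (nat_lit 1948304345), (nat_lit 2090000000)], [(nat_lit 0), (nat_lit 0), (nat_lit 0)], [(nat_lit 22663174853), (nat_lit 22979428651), (nat_lit 24685732522), (nat_lit 24949350284), (nat_lit 24368799351), (nat_lit 24669272787), (nat_lit 26082679788), (nat_lit 26333744005)], (nat_lit 1271251), (nat_lit 1271251), (nat_lit 780000), (nat_lit 1762501), (nat_lit 1271251), (nat_lit 1271251), [(nat_lit 490000), (nat_lit 1100000),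 (nat_lit 1442501)], [(nat_lit 3), (nat_lit 50), (nat_lit 272), (nat_lit 60), (nat_lit 9)]⟩,
 Rw.none,
 Rw.none⟩))) (.spl (nat_lit 3) (nat_lit 200) (.leaf ⟨(nat_lit 1000), (nat_lit 0), (nat_lit 0), (nat_lit 0), (nat_lit 4327), (nat_lit 3564), (nat_lit 0), (nat_lit 0), (nat_lit 0), (nat_lit 0), (nat_lit 250000), [((nat_lit 380), [((nat_lit 26), (nat_lit 0), (nat_lit 1000))])], ⟨(nat_lit 5), false, false, false, (nat_lit 190), (nat_lit 2236), (nat_lit 2739), [(nat_lit 1404204), (nat_lit 1408652), (nat_lit 1426601), (nat_lit 1431406), (nat_lit 1522397), (nat_lit 1522754), (nat_lit 1544794), (nat_lit 1545508)]⟩, ⟨(nat_lit 5), false, false, true, (nat_lit 193), (nat_lit 2236), (nat_lit 2739), [(nat_lit 1410329), (nat_lit 1408901), (nat_lit 1455164), (nat_lit 1454450), (nat_lit 1513686), (nat_lit 1508679), (nat_lit 1558521), (nat_lit 1554227)]⟩, (nat_lit 4781692), (nat_lit 43644865), (nat_lit 11538606), (nat_lit 11816529), (nat_lit 0), (nat_lit 0), [], [⟨(nat_lit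 1), (nat_lit 100), (nat_lit 49), (nat_lit 97), (nat_lit 279869678)⟩], [], [],
 ⟨⟨[(nat_lit 40), (nat_lit 80), (nat_lit 100)], [(nat_lit 0), (nat_lit 2008), (nat_lit 2969)], [((nat_lit 0), (nat_lit 0), (nat_lit 0)), ((nat_lit 1000), (nat_lit 540), (nat_lit 733)), ((nat_lit 1000), (nat_lit 536), (nat_lit 751))], ((nat_lit 53), (nat_lit 100), (nat_lit 83))⟩, (nat_lit 330288), (nat_lit 137), (nat_lit 137), (nat_lit 0), (nat_lit 178102), [(nat_lit 1531200022), (nat_lit 1900691207), (nat_lit 2090000000)], [(nat_lit 0), (nat_lit 0), (nat_lit 0)], [(nat_lit 22284955886), (nat_lit 22919345318), (nat_lit 23469776917), (nat_lit 24035332069), (nat_lit 24405688193), (nat_lit 24996028264), (nat_lit 25333668870), (nat_lit 25861154177)], (nat_lit 1271251), (nat_lit 1271251), (nat_lit 780000), (nat_lit 1435001), (nat_lit 1271251), (nat_lit 1271251), [(nat_lit 490000), (nat_lit 1100000), (nat_lit 1442501)], [(nat_lit 3), (nat_lit 50), (nat_lit 260), (nat_lit 50), (nat_lit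 8)]⟩,
 Rw.none,
 Rw.none⟩) (.leaf ⟨(nat_lit 891), (nat_lit 83), (nat_lit 0), (nat_lit 26), (nat_lit 4647), (nat_lit 3695), (nat_lit 1332), (nat_lit 330), (nat_lit 0), (nat_lit 0), (nat_lit 222750), [((nat_lit 380), [((nat_lit 26), (nat_lit 0), (nat_lit 891))])], ⟨(nat_lit 5), false, true, false, (nat_lit 225), (nat_lit 2236), (nat_lit 2739), [(nat_lit 1522397), (nat_lit 1522754), (nat_lit 1544794), (nat_lit 1545508), (nat_lit 1581477), (nat_lit 1579788), (nat_lit 1603890), (nat_lit 1602558)]⟩, ⟨(nat_lit 5), false, false, true, (nat_lit 193), (nat_lit 2236), (nat_lit 2739), [(nat_lit 1410329), (nat_lit 1408901), (nat_lit 1455164), (nat_lit 1454450), (nat_lit 1513686), (nat_lit 1508679), (nat_lit 1558521), (nat_lit 1554227)]⟩, (nat_lit 5029644), (nat_lit 41066040), (nat_lit 14542536), (nat_lit 11391424), (nat_lit 5), (nat_lit 0), [], [⟨(nat_lit 1), (nat_lit 100), (nat_lit 49), (nat_lit 97), (nat_lit 248850884)⟩], [], [],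
 ⟨⟨[(nat_lit 40), (nat_lit 80), (nat_lit 100)], [(nat_lit 0), (nat_lit 2008), (nat_lit 2969)], [((nat_lit 0), (nat_lit 0), (nat_lit 0)), ((nat_lit 1000), (nat_lit 540), (nat_lit 733)), ((nat_lit 1000), (nat_lit 536), (nat_lit 751))], ((nat_lit 53), (nat_lit 100), (nat_lit 83))⟩, (nat_lit 380866), (nat_lit 121), (nat_lit 121), (nat_lit 0), (nat_lit 178102), [(nat_lit 1560281226), (nat_lit 2324723460), (nat_lit 2543440000)], [(nat_lit 0), (nat_lit 0), (nat_lit 0)], [(nat_lit 23632831633), (nat_lit 24242630103), (nat_lit 24540946333), (nat_lit 25109736554), (nat_lit 25571530591), (nat_lit 26107503732), (nat_lit 26332510128), (nat_lit 26833949787)], (nat_lit 1271251), (nat_lit 1271251), (nat_lit 1271251), (nat_lit 1271251), (nat_lit 1271251), (nat_lit 1271251), [(nat_lit 490000), (nat_lit 1100000), (nat_lit 1442501)], [(nat_lit 3), (nat_lit 50), (nat_lit 203), (nat_lit 0), (nat_lit 6)]⟩,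
 ⟨⟨[(nat_lit 100), (nat_lit 140), (nat_lit 180)], [(nat_lit 0), (nat_lit 508), (nat_lit 2854)], [((nat_lit 0), (nat_lit 0), (nat_lit 0)), ((nat_lit 1000), (nat_lit 1000), (nat_lit 198)), ((nat_lit 777), (nat_lit 1000), (nat_lit 712))], ((nat_lit 100), (nat_lit 64), (nat_lit 83))⟩, (nat_lit 128376), (nat_lit 570), (nat_lit 570), (nat_lit 0), (nat_lit 482659), [(nat_lit 681250000), (nat_lit 1072778000), (nat_lit 1532322000)], [], [(nat_lit 4300038094), (nat_lit 4324365778), (nat_lit 4339884629), (nat_lit 4355403480), (nat_lit 4992610818), (nat_lit 4393235460), (nat_lit 4183710675), (nat_lit 4157946460)], (nat_lit 1271251), (nat_lit 1271251), (nat_lit 1271251), (nat_lit 1271251), (nat_lit 0), (nat_lit 2825001), [(nat_lit 1412501), (nat_lit 1271251), (nat_lit 1271251)], [(nat_lit 24), (nat_lit 63), (nat_lit 456), (nat_lit 225), (nat_lit 10)]⟩,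
 ⟨⟨[(nat_lit 140), (nat_lit 180), (nat_lit 200)], [(nat_lit 0), (nat_lit 0), (nat_lit 2835)], [((nat_lit 0), (nat_lit 0), (nat_lit 0)), ((nat_lit 0), (nat_lit 0), (nat_lit 0)), ((nat_lit 363), (nat_lit 1000), (nat_lit 798))], ((nat_lit 0), (nat_lit 0), (nat_lit 0))⟩, (nat_lit 7153), (nat_lit 300), (nat_lit 1356), (nat_lit 2030607), (nat_lit 1963819), [(nat_lit 255892000), (nat_lit 365508000), (nat_lit 426400000)], [], [(nat_lit 1803795128), (nat_lit 1749201296), (nat_lit 1766067161), (nat_lit 1710182118), (nat_lit 1849893576), (nat_lit 2017872316), (nat_lit 1359945761), (nat_lit 1522751371)], (nat_lit 780000), (nat_lit 1100000), (nat_lit 1271251), (nat_lit 1271251), (nat_lit 0), (nat_lit 2825001), [(nat_lit 1977501), (nat_lit 1271251), (nat_lit 1271251)], [(nat_lit 32), (nat_lit 67), (nat_lit 456), (nat_lit 225), (nat_lit 10)]⟩⟩))))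
noncomputable def c16_51 : Tr Lf :=
 (.spl (nat_lit 6) (nat_lit 72) (.spl (nat_lit 4) (nat_lit 240) (.leaf ⟨(nat_lit 944), (nat_lit 12), (nat_lit 0), (nat_lit 44), (nat_lit 2435), (nat_lit 3917), (nat_lit 700), (nat_lit 633), (nat_lit 0), (nat_lit 0), (nat_lit 236000), [((nat_lit 380), [((nat_lit 25), (nat_lit 0), (nat_lit 944))])], ⟨(nat_lit 4), false, false, false, (nat_lit 193), (nat_lit 2236), (nat_lit 2739), [(nat_lit 1359410), (nat_lit 1363145), (nat_lit 1426601), (nat_lit 1431406), (nat_lit 1536642), (nat_lit 1534240), (nat_lit 1603890), (nat_lit 1602558)]⟩, ⟨(nat_lit 5), false, false, true, (nat_lit 198), (nat_lit 2236), (nat_lit 2739), [(nat_lit 1455164), (nat_lit 1454450), (nat_lit 1477581), (nat_lit 1477224), (nat_lit 1514225), (nat_lit 1511466), (nat_lit 1536642), (nat_lit 1534240)]⟩, (nat_lit 4840821), (nat_lit 43095768), (nat_lit 11702170), (nat_lit 12202062), (nat_lit 5), (nat_lit 0), [], [], [], [],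
 ⟨⟨[(nat_lit 40), (nat_lit 80), (nat_lit 100)], [(nat_lit 0), (nat_lit 2008), (nat_lit 2969)], [((nat_lit 0), (nat_lit 0), (nat_lit 0)), ((nat_lit 1000), (nat_lit 540), (nat_lit 733)), ((nat_lit 1000), (nat_lit 536), (nat_lit 751))], ((nat_lit 53), (nat_lit 100), (nat_lit 78))⟩, (nat_lit 283858), (nat_lit 108), (nat_lit 108), (nat_lit 0), (nat_lit 96516), [(nat_lit 1571394544), (nat_lit 2303136288), (nat_lit 2349392000)], [(nat_lit 0), (nat_lit 0), (nat_lit 0)], [(nat_lit 22494962616), (nat_lit 23201327512), (nat_lit 24509182665), (nat_lit 25093493073), (nat_lit 23528595529), (nat_lit 24185300608), (nat_lit 25335075377), (nat_lit 25880849934)], (nat_lit 1271251), (nat_lit 1271251), (nat_lit 780000), (nat_lit 1762501), (nat_lit 1271251), (nat_lit 1271251), [(nat_lit 490000), (nat_lit 1100000), (nat_lit 1442501)], [(nat_lit 3), (nat_lit 50), (nat_lit 272), (nat_lit 60), (nat_lit 9)]⟩,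
 ⟨⟨[(nat_lit 120), (nat_lit 160), (nat_lit 200)], [(nat_lit 0), (nat_lit 533), (nat_lit 3597)], [((nat_lit 0), (nat_lit 0), (nat_lit 0)), ((nat_lit 960), (nat_lit 1000), (nat_lit 200)), ((nat_lit 612), (nat_lit 1000), (nat_lit 732))], ((nat_lit 0), (nat_lit 0), (nat_lit 0))⟩, (nat_lit 198964), (nat_lit 615), (nat_lit 615), (nat_lit 0), (nat_lit 277682), [(nat_lit 446208000), (nat_lit 664832000), (nat_lit 918400000)], [], [(nat_lit 2313721200), (nat_lit 2314632936), (nat_lit 2691336536), (nat_lit 2179559196), (nat_lit 3613564486), (nat_lit 2668603336), (nat_lit 4714632860), (nat_lit 3804998960)], (nat_lit 1271251), (nat_lit 1271251), (nat_lit 780000), (nat_lit 1762501), (nat_lit 0), (nat_lit 2825001), [(nat_lit 1695001), (nat_lit 1271251), (nat_lit 1271251)], [(nat_lit 29), (nat_lit 66), (nat_lit 456), (nat_lit 225), (nat_lit 10)]⟩,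
 ⟨⟨[(nat_lit 120), (nat_lit 160), (nat_lit 200)], [(nat_lit 0), (nat_lit 0), (nat_lit 3198)], [((nat_lit 0), (nat_lit 0), (nat_lit 0)), ((nat_lit 0), (nat_lit 0), (nat_lit 0)), ((nat_lit 572), (nat_lit 1000), (nat_lit 714))], ((nat_lit 0), (nat_lit 0), (nat_lit 0))⟩, (nat_lit 21463), (nat_lit 300), (nat_lit 708), (nat_lit 3264807), (nat_lit 592234), [(nat_lit 350592000), (nat_lit 522368000), (nat_lit 721600000)], [], [(nat_lit 2762219414), (nat_lit 2728379139), (nat_lit 2696474064), (nat_lit 2671885120), (nat_lit 2967121662), (nat_lit 3153193792), (nat_lit 2404798644), (nat_lit 2594356705)], (nat_lit 1100000), (nat_lit 1271251), (nat_lit 1271251), (nat_lit 1271251), (nat_lit 0), (nat_lit 2825001), [(nat_lit 1695001), (nat_lit 1271251), (nat_lit 1271251)], [(nat_lit 29), (nat_lit 66), (nat_lit 456), (nat_lit 225), (nat_lit 10)]⟩⟩) (.spl (nat_lit 1) (nat_lit 220) (.spl (nat_lit 1) (nat_lit 200) (.spl (nat_lit 6) (nat_lit 64) (.leaf ⟨(nat_lit 934), (nat_lit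 0), (nat_lit 0), (nat_lit 66), (nat_lit 5186), (nat_lit 3578), (nat_lit 730), (nat_lit 730), (nat_lit 0), (nat_lit 0), (nat_lit 233500), [((nat_lit 380), [((nat_lit 25), (nat_lit 0), (nat_lit 934))])], ⟨(nat_lit 4), false, false, false, (nat_lit 184), (nat_lit 2236), (nat_lit 2739), [(nat_lit 1359410), (nat_lit 1363145), (nat_lit 1381807), (nat_lit 1385898), (nat_lit 1536642), (nat_lit 1534240), (nat_lit 1559060), (nat_lit 1557014)]⟩, ⟨(nat_lit 6), false, false, true, (nat_lit 224), (nat_lit 2236), (nat_lit 2739), [(nat_lit 1514225), (nat_lit 1511466), (nat_lit 1536642), (nat_lit 1534240), (nat_lit 1588052), (nat_lit 1582735), (nat_lit 1610469), (nat_lit 1605509)]⟩, (nat_lit 4950463), (nat_lit 41759034), (nat_lit 10646078), (nat_lit 14594888), (nat_lit 0), (nat_lit 0), [], [⟨(nat_lit 1), (nat_lit 95), (nat_lit 49), (nat_lit 100), (nat_lit 225101859)⟩], [], [⟨(nat_lit 0), (nat_lit 91), (nat_lit 100), (nat_lit 63), (nat_lit 16474990)⟩],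
 ⟨⟨[(nat_lit 40), (nat_lit 80), (nat_lit 100)], [(nat_lit 0), (nat_lit 2008), (nat_lit 2969)], [((nat_lit 0), (nat_lit 0), (nat_lit 0)), ((nat_lit 1000), (nat_lit 540), (nat_lit 733)), ((nat_lit 1000), (nat_lit 536), (nat_lit 751))], ((nat_lit 54), (nat_lit 100), (nat_lit 75))⟩, (nat_lit 339010), (nat_lit 105), (nat_lit 105), (nat_lit 0), (nat_lit 54354), [(nat_lit 1545820026), (nat_lit 2118685393), (nat_lit 2390712000)], [(nat_lit 0), (nat_lit 0), (nat_lit 0)], [(nat_lit 23564738726), (nat_lit 24160157150), (nat_lit 25442026931), (nat_lit 25937764314), (nat_lit 25439874343), (nat_lit 26006548933), (nat_lit 27002467995), (nat_lit 27477547404)], (nat_lit 1271251), (nat_lit 1271251), (nat_lit 780000), (nat_lit 1762501), (nat_lit 1271251), (nat_lit 1271251), [(nat_lit 490000), (nat_lit 1100000), (nat_lit 1442501)], [(nat_lit 3), (nat_lit 50), (nat_lit 272), (nat_lit 60), (nat_lit 9)]⟩,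
 ⟨⟨[(nat_lit 120), (nat_lit 160), (nat_lit 180)], [(nat_lit 0), (nat_lit 533), (nat_lit 2066)], [((nat_lit 0), (nat_lit 0), (nat_lit 0)), ((nat_lit 960), (nat_lit 1000), (nat_lit 200)), ((nat_lit 615), (nat_lit 1000), (nat_lit 729))], ((nat_lit 100), (nat_lit 61), (nat_lit 74))⟩, (nat_lit 57970), (nat_lit 495), (nat_lit 495), (nat_lit 0), (nat_lit 257574), [(nat_lit 525888000), (nat_lit 783552000), (nat_lit 927828000)], [], [(nat_lit 3090537641), (nat_lit 3105353776), (nat_lit 3108483556), (nat_lit 3050575958), (nat_lit 4126247561), (nat_lit 3797761066), (nat_lit 5304372610), (nat_lit 4988166540)], (nat_lit 1271251), (nat_lit 1271251), (nat_lit 780000), (nat_lit 1762501), (nat_lit 0), (nat_lit 2825001), [(nat_lit 1695001), (nat_lit 1271251), (nat_lit 1271251)], [(nat_lit 28), (nat_lit 65), (nat_lit 456), (nat_lit 225), (nat_lit 11)]⟩,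
 ⟨⟨[(nat_lit 120), (nat_lit 160), (nat_lit 200)], [(nat_lit 0), (nat_lit 0), (nat_lit 3198)], [((nat_lit 0), (nat_lit 0), (nat_lit 0)), ((nat_lit 0), (nat_lit 0), (nat_lit 0)), ((nat_lit 572), (nat_lit 1000), (nat_lit 714))], ((nat_lit 0), (nat_lit 0), (nat_lit 0))⟩, (nat_lit 32195), (nat_lit 300), (nat_lit 549), (nat_lit 4897202), (nat_lit 335988), [(nat_lit 525888000), (nat_lit 783552000), (nat_lit 1082400000)], [], [(nat_lit 4030386267), (nat_lit 4002710278), (nat_lit 4075575135), (nat_lit 4052394243), (nat_lit 3511175496), (nat_lit 3740232610), (nat_lit 3360432114), (nat_lit 3322724920)], (nat_lit 1100000), (nat_lit 1271251), (nat_lit 1271251), (nat_lit 1271251), (nat_lit 0), (nat_lit 2825001), [(nat_lit 1695001), (nat_lit 1271251), (nat_lit 1271251)], [(nat_lit 29), (nat_lit 66), (nat_lit 456), (nat_lit 225), (nat_lit 10)]⟩⟩) (.dle (nat_lit 0))) (.leaf ⟨(nat_lit 949), (nat_lit 0), (nat_lit 0), (nat_lit 51), (nat_lit 5175), (nat_lit 3541), (nat_lit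 666), (nat_lit 726), (nat_lit 0), (nat_lit 0), (nat_lit 237250), [((nat_lit 380), [((nat_lit 25), (nat_lit 0), (nat_lit 949))])], ⟨(nat_lit 5), false, false, false, (nat_lit 193), (nat_lit 2236), (nat_lit 2739), [(nat_lit 1381807), (nat_lit 1385898), (nat_lit 1404204), (nat_lit 1408652), (nat_lit 1559060), (nat_lit 1557014), (nat_lit 1581477), (nat_lit 1579788)]⟩, ⟨(nat_lit 6), false, false, true, (nat_lit 224), (nat_lit 2236), (nat_lit 2739), [(nat_lit 1514225), (nat_lit 1511466), (nat_lit 1536642), (nat_lit 1534240), (nat_lit 1588052), (nat_lit 1582735), (nat_lit 1610469), (nat_lit 1605509)]⟩, (nat_lit 5021325), (nat_lit 41159562), (nat_lit 11379646), (nat_lit 14460792), (nat_lit 0), (nat_lit 0), [], [⟨(nat_lit 1), (nat_lit 95), (nat_lit 49), (nat_lit 100), (nat_lit 251131020)⟩], [], [⟨(nat_lit 0), (nat_lit 95), (nat_lit 100), (nat_lit 23), (nat_lit 18978661)⟩],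
 ⟨⟨[(nat_lit 40), (nat_lit 80), (nat_lit 100)], [(nat_lit 0), (nat_lit 2008), (nat_lit 2969)], [((nat_lit 0), (nat_lit 0), (nat_lit 0)), ((nat_lit 1000), (nat_lit 540), (nat_lit 733)), ((nat_lit 1000), (nat_lit 536), (nat_lit 751))], ((nat_lit 53), (nat_lit 100), (nat_lit 78))⟩, (nat_lit 335031), (nat_lit 110), (nat_lit 110), (nat_lit 0), (nat_lit 69060), [(nat_lit 1541770026), (nat_lit 2058424988), (nat_lit 2328732000)], [(nat_lit 0), (nat_lit 0), (nat_lit 0)], [(nat_lit 23552166700), (nat_lit 24142077568), (nat_lit 25437115765), (nat_lit 25930601696), (nat_lit 25397808548), (nat_lit 25961868250), (nat_lit 26970845348), (nat_lit 27444180684)], (nat_lit 1271251), (nat_lit 1271251), (nat_lit 780000), (nat_lit 1762501), (nat_lit 1271251), (nat_lit 1271251), [(nat_lit 490000), (nat_lit 1100000), (nat_lit 1442501)], [(nat_lit 3), (nat_lit 50), (nat_lit 272), (nat_lit 60), (nat_lit 9)]⟩,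
 ⟨⟨[(nat_lit 100), (nat_lit 140), (nat_lit 180)], [(nat_lit 0), (nat_lit 0), (nat_lit 2434)], [((nat_lit 0), (nat_lit 0), (nat_lit 0)), ((nat_lit 0), (nat_lit 0), (nat_lit 0)), ((nat_lit 726), (nat_lit 1000), (nat_lit 688))], ((nat_lit 100), (nat_lit 64), (nat_lit 77))⟩, (nat_lit 0), (nat_lit 457), (nat_lit 457), (nat_lit 0), (nat_lit 223624), [(nat_lit 318750000), (nat_lit 501942000), (nat_lit 716958000)], [], [(nat_lit 2683343838), (nat_lit 2328391479), (nat_lit 2200295778), (nat_lit 2206941609), (nat_lit 2450015472), (nat_lit 2283726746), (nat_lit 3453797520), (nat_lit 3157978302)], (nat_lit 1271251), (nat_lit 1271251), (nat_lit 780000), (nat_lit 1762501), (nat_lit 0), (nat_lit 2825001), [(nat_lit 1412501), (nat_lit 1271251), (nat_lit 1271251)], [(nat_lit 24), (nat_lit 63), (nat_lit 456), (nat_lit 225), (nat_lit 11)]⟩,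
 ⟨⟨[(nat_lit 120), (nat_lit 160), (nat_lit 200)], [(nat_lit 0), (nat_lit 0), (nat_lit 3198)], [((nat_lit 0), (nat_lit 0), (nat_lit 0)), ((nat_lit 0), (nat_lit 0), (nat_lit 0)), ((nat_lit 572), (nat_lit 1000), (nat_lit 714))], ((nat_lit 0), (nat_lit 0), (nat_lit 0))⟩, (nat_lit 24878), (nat_lit 300), (nat_lit 628), (nat_lit 3784201), (nat_lit 425241), [(nat_lit 406368000), (nat_lit 605472000), (nat_lit 836400000)], [], [(nat_lit 3136426380), (nat_lit 3096759859), (nat_lit 3159373486), (nat_lit 3130875464), (nat_lit 2784009816), (nat_lit 3001784490), (nat_lit 2402533242), (nat_lit 2374035220)], (nat_lit 1100000), (nat_lit 1271251), (nat_lit 1271251), (nat_lit 1271251), (nat_lit 0), (nat_lit 2825001), [(nat_lit 1695001), (nat_lit 1271251), (nat_lit 1271251)], [(nat_lit 29), (nat_lit 66), (nat_lit 456), (nat_lit 225), (nat_lit 10)]⟩⟩)) (.stt (nat_lit 2) (.leaf ⟨(nat_lit 824), (nat_lit 118), (nat_lit 0), (nat_lit 58), (nat_lit 7780), (nat_lit 3611), (nat_lit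 1456), (nat_lit 778), (nat_lit 0), (nat_lit 0), (nat_lit 206000), [((nat_lit 380), [((nat_lit 25), (nat_lit 0), (nat_lit 824))])], ⟨(nat_lit 5), true, false, false, (nat_lit 202), (nat_lit 2236), (nat_lit 2739), [(nat_lit 1404204), (nat_lit 1408652), (nat_lit 1426601), (nat_lit 1431406), (nat_lit 1581477), (nat_lit 1579788), (nat_lit 1603890), (nat_lit 1602558)]⟩, ⟨(nat_lit 6), false, false, true, (nat_lit 224), (nat_lit 2236), (nat_lit 2739), [(nat_lit 1514225), (nat_lit 1511466), (nat_lit 1536642), (nat_lit 1534240), (nat_lit 1588052), (nat_lit 1582735), (nat_lit 1610469), (nat_lit 1605509)]⟩, (nat_lit 5087384), (nat_lit 40557814), (nat_lit 12120004), (nat_lit 14322182), (nat_lit 6), (nat_lit 0), [⟨(nat_lit 0), (nat_lit 100), (nat_lit 49), (nat_lit 95), (nat_lit 79963739)⟩], [⟨(nat_lit 1), (nat_lit 95), (nat_lit 49), (nat_lit 100), (nat_lit 338548100)⟩], [], [],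
 ⟨⟨[(nat_lit 40), (nat_lit 80), (nat_lit 100)], [(nat_lit 0), (nat_lit 2008), (nat_lit 2969)], [((nat_lit 0), (nat_lit 0), (nat_lit 0)), ((nat_lit 1000), (nat_lit 540), (nat_lit 733)), ((nat_lit 1000), (nat_lit 536), (nat_lit 751))], ((nat_lit 53), (nat_lit 100), (nat_lit 78))⟩, (nat_lit 542556), (nat_lit 117), (nat_lit 117), (nat_lit 0), (nat_lit 96516), [(nat_lit 1575520648), (nat_lit 2449211707), (nat_lit 2845232000)], [(nat_lit 0), (nat_lit 0), (nat_lit 0)], [(nat_lit 23407489040), (nat_lit 24002785200), (nat_lit 25277944587), (nat_lit 25775478023), (nat_lit 25282841451), (nat_lit 25852302203), (nat_lit 26922687986), (nat_lit 27507306911)], (nat_lit 1271251), (nat_lit 1271251), (nat_lit 780000), (nat_lit 1762501), (nat_lit 1271251), (nat_lit 1271251), [(nat_lit 490000), (nat_lit 1100000), (nat_lit 1442501)], [(nat_lit 3), (nat_lit 50), (nat_lit 272), (nat_lit 60), (nat_lit 9)]⟩,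
 ⟨⟨[(nat_lit 100), (nat_lit 140), (nat_lit 180)], [(nat_lit 0), (nat_lit 508), (nat_lit 2854)], [((nat_lit 0), (nat_lit 0), (nat_lit 0)), ((nat_lit 1000), (nat_lit 1000), (nat_lit 198)), ((nat_lit 777), (nat_lit 1000), (nat_lit 712))], ((nat_lit 100), (nat_lit 72), (nat_lit 77))⟩, (nat_lit 878884), (nat_lit 276), (nat_lit 276), (nat_lit 0), (nat_lit 0), [(nat_lit 1100000000), (nat_lit 1732192000), (nat_lit 2474208000)], [], [(nat_lit 4351689968), (nat_lit 4453244776), (nat_lit 4795205008), (nat_lit 4912788688), (nat_lit 5787017864), (nat_lit 5829710704), (nat_lit 5731388512), (nat_lit 5752774160)], (nat_lit 0), (nat_lit 0), (nat_lit 0), (nat_lit 0), (nat_lit 0), (nat_lit 0), [], [(nat_lit 24), (nat_lit 63), (nat_lit 456), (nat_lit 225), (nat_lit 11)]⟩,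
 ⟨⟨[(nat_lit 120), (nat_lit 160), (nat_lit 200)], [(nat_lit 0), (nat_lit 0), (nat_lit 3198)], [((nat_lit 0), (nat_lit 0), (nat_lit 0)), ((nat_lit 0), (nat_lit 0), (nat_lit 0)), ((nat_lit 572), (nat_lit 1000), (nat_lit 714))], ((nat_lit 0), (nat_lit 0), (nat_lit 0))⟩, (nat_lit 28293), (nat_lit 300), (nat_lit 693), (nat_lit 4303600), (nat_lit 592234), [(nat_lit 462144000), (nat_lit 688576000), (nat_lit 951200000)], [], [(nat_lit 3634769960), (nat_lit 3593232552), (nat_lit 3605315810), (nat_lit 3561312995), (nat_lit 3145285128), (nat_lit 3380950770), (nat_lit 2744595810), (nat_lit 2700592995)], (nat_lit 1100000), (nat_lit 1271251), (nat_lit 1271251), (nat_lit 1271251), (nat_lit 0), (nat_lit 2825001), [(nat_lit 1695001), (nat_lit 1271251), (nat_lit 1271251)], [(nat_lit 29), (nat_lit 66), (nat_lit 456), (nat_lit 225), (nat_lit 10)]⟩⟩) (.spl (nat_lit 3) (nat_lit 200) (.spl (nat_lit 0) (nat_lit 375) (.spl (nat_lit 6) (nat_lit 64) (.leaf ⟨(nat_lit 931), (nat_lit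 0), (nat_lit 0), (nat_lit 69), (nat_lit 6783), (nat_lit 3513), (nat_lit 806), (nat_lit 732), (nat_lit 0), (nat_lit 0), (nat_lit 232750), [((nat_lit 375), [((nat_lit 25), (nat_lit 0), (nat_lit 931))])], ⟨(nat_lit 5), false, false, false, (nat_lit 190), (nat_lit 2500), (nat_lit 2739), [(nat_lit 1404275), (nat_lit 1406432), (nat_lit 1426689), (nat_lit 1429009), (nat_lit 1522413), (nat_lit 1522576), (nat_lit 1544826), (nat_lit 1545152)]⟩, ⟨(nat_lit 6), false, false, true, (nat_lit 225), (nat_lit 2500), (nat_lit 2739), [(nat_lit 1514225), (nat_lit 1512902), (nat_lit 1536642), (nat_lit 1535482), (nat_lit 1588052), (nat_lit 1585482), (nat_lit 1610469), (nat_lit 1608063)]⟩, (nat_lit 5002121), (nat_lit 41317578), (nat_lit 11144294), (nat_lit 14538128), (nat_lit 0), (nat_lit 0), [⟨(nat_lit 0), (nat_lit 100), (nat_lit 49), (nat_lit 97), (nat_lit 74433577)⟩], [⟨(nat_lit 1), (nat_lit 94), (nat_lit 51), (nat_lit 100), (nat_lit 242337027)⟩], [⟨(nat_lit 0), (nat_lit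 100), (nat_lit 98), (nat_lit 10), (nat_lit 34519598)⟩], [],
 ⟨⟨[(nat_lit 40), (nat_lit 80), (nat_lit 100)], [(nat_lit 0), (nat_lit 2008), (nat_lit 2969)], [((nat_lit 0), (nat_lit 0), (nat_lit 0)), ((nat_lit 1000), (nat_lit 540), (nat_lit 733)), ((nat_lit 1000), (nat_lit 536), (nat_lit 751))], ((nat_lit 54), (nat_lit 100), (nat_lit 75))⟩, (nat_lit 460276), (nat_lit 95), (nat_lit 95), (nat_lit 0), (nat_lit 41130), [(nat_lit 1546630001), (nat_lit 2118559583), (nat_lit 2403108000)], [(nat_lit 0), (nat_lit 0), (nat_lit 0)], [(nat_lit 23291064893), (nat_lit 23584943269), (nat_lit 24365569950), (nat_lit 24628251806), (nat_lit 25106800866), (nat_lit 25387502726), (nat_lit 25990693332), (nat_lit 26300218189)], (nat_lit 1271251), (nat_lit 1271251), (nat_lit 780000), (nat_lit 1435001), (nat_lit 1271251), (nat_lit 1271251), [(nat_lit 490000), (nat_lit 1100000), (nat_lit 1442501)], [(nat_lit 3), (nat_lit 50), (nat_lit 260), (nat_lit 50), (nat_lit 8)]⟩,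
 ⟨⟨[(nat_lit 100), (nat_lit 140), (nat_lit 180)], [(nat_lit 0), (nat_lit 508), (nat_lit 2854)], [((nat_lit 0), (nat_lit 0), (nat_lit 0)), ((nat_lit 1000), (nat_lit 1000), (nat_lit 198)), ((nat_lit 777), (nat_lit 1000), (nat_lit 712))], ((nat_lit 100), (nat_lit 75), (nat_lit 74))⟩, (nat_lit 142543), (nat_lit 426), (nat_lit 426), (nat_lit 0), (nat_lit 161545), [(nat_lit 431250000), (nat_lit 679098000), (nat_lit 970002000)], [], [(nat_lit 3054420009), (nat_lit 2624853040), (nat_lit 2537036349), (nat_lit 2553143568), (nat_lit 2893977988), (nat_lit 2657371644), (nat_lit 3726117089), (nat_lit 3363432000)], (nat_lit 1271251), (nat_lit 1271251), (nat_lit 780000), (nat_lit 1435001), (nat_lit 0), (nat_lit 2825001), [(nat_lit 1412501), (nat_lit 1271251), (nat_lit 1271251)], [(nat_lit 24), (nat_lit 63), (nat_lit 456), (nat_lit 225), (nat_lit 11)]⟩,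
 ⟨⟨[(nat_lit 120), (nat_lit 160), (nat_lit 200)], [(nat_lit 0), (nat_lit 0), (nat_lit 3198)], [((nat_lit 0), (nat_lit 0), (nat_lit 0)), ((nat_lit 0), (nat_lit 0), (nat_lit 0)), ((nat_lit 572), (nat_lit 1000), (nat_lit 714))], ((nat_lit 0), (nat_lit 0), (nat_lit 0))⟩, (nat_lit 33659), (nat_lit 300), (nat_lit 516), (nat_lit 5119800), (nat_lit 256607), [(nat_lit 549792000), (nat_lit 819168000), (nat_lit 1131600000)], [], [(nat_lit 4243516447), (nat_lit 4218763801), (nat_lit 4265303588), (nat_lit 4237050727), (nat_lit 3657133584), (nat_lit 3888749400), (nat_lit 3560815248), (nat_lit 3523876619)], (nat_lit 1100000), (nat_lit 1271251), (nat_lit 1271251), (nat_lit 1271251), (nat_lit 0), (nat_lit 2825001), [(nat_lit 1695001), (nat_lit 1271251), (nat_lit 1271251)], [(nat_lit 29), (nat_lit 66), (nat_lit 456), (nat_lit 225), (nat_lit 10)]⟩⟩) (.dle (nat_lit 0))) (.trX (nat_lit 4) (nat_lit 0) (nat_lit 2) (nat_lit 49) (nat_lit 92) (nat_lit 100) (nat_lit 280) (.leaf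 ⟨(nat_lit 951), (nat_lit 0), (nat_lit 0), (nat_lit 49), (nat_lit 5391), (nat_lit 3508), (nat_lit 617), (nat_lit 694), (nat_lit 0), (nat_lit 0), (nat_lit 237750), [((nat_lit 380), [((nat_lit 25), (nat_lit 0), (nat_lit 951))])], ⟨(nat_lit 5), false, false, false, (nat_lit 191), (nat_lit 2236), (nat_lit 2500), [(nat_lit 1406424), (nat_lit 1408716), (nat_lit 1428999), (nat_lit 1431485), (nat_lit 1522575), (nat_lit 1522768), (nat_lit 1545149), (nat_lit 1545536)]⟩, ⟨(nat_lit 6), false, false, true, (nat_lit 221), (nat_lit 2236), (nat_lit 2500), [(nat_lit 1512902), (nat_lit 1511466), (nat_lit 1535482), (nat_lit 1534240), (nat_lit 1570966), (nat_lit 1568481), (nat_lit 1593547), (nat_lit 1591255)]⟩, (nat_lit 4983361), (nat_lit 41555908), (nat_lit 11232300), (nat_lit 14211792), (nat_lit 0), (nat_lit 0), [⟨(nat_lit 0), (nat_lit 100), (nat_lit 47), (nat_lit 96), (nat_lit 49257564)⟩], [⟨(nat_lit 1), (nat_lit 96), (nat_lit 47), (nat_lit 100), (nat_lit 296752409)⟩],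 [], [⟨(nat_lit 0), (nat_lit 97), (nat_lit 100), (nat_lit 11), (nat_lit 22791971)⟩],
 ⟨⟨[(nat_lit 40), (nat_lit 80), (nat_lit 100)], [(nat_lit 0), (nat_lit 2244), (nat_lit 3243)], [((nat_lit 0), (nat_lit 0), (nat_lit 0)), ((nat_lit 1000), (nat_lit 495), (nat_lit 771)), ((nat_lit 1000), (nat_lit 493), (nat_lit 781))], ((nat_lit 49), (nat_lit 100), (nat_lit 78))⟩, (nat_lit 405034), (nat_lit 107), (nat_lit 107), (nat_lit 0), (nat_lit 65056), [(nat_lit 1541230114), (nat_lit 2051762615), (nat_lit 2320468000)], [(nat_lit 0), (nat_lit 0), (nat_lit 0)], [(nat_lit 23555372843), (nat_lit 23849058886), (nat_lit 24599618097), (nat_lit 24862138590), (nat_lit 24985385097), (nat_lit 25284889802), (nat_lit 25891860422), (nat_lit 26208232399)], (nat_lit 1271251), (nat_lit 1271251), (nat_lit 780000), (nat_lit 1435001), (nat_lit 1271251), (nat_lit 1271251), [(nat_lit 490000), (nat_lit 1100000), (nat_lit 1442501)], [(nat_lit 3), (nat_lit 50), (nat_lit 260), (nat_lit 50),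 (nat_lit 8)]⟩,
 ⟨⟨[(nat_lit 100), (nat_lit 140), (nat_lit 180)], [(nat_lit 0), (nat_lit 508), (nat_lit 2854)], [((nat_lit 0), (nat_lit 0), (nat_lit 0)), ((nat_lit 1000), (nat_lit 1000), (nat_lit 198)), ((nat_lit 777), (nat_lit 1000), (nat_lit 712))], ((nat_lit 100), (nat_lit 72), (nat_lit 77))⟩, (nat_lit 90115), (nat_lit 468), (nat_lit 468), (nat_lit 0), (nat_lit 260714), [(nat_lit 306250000), (nat_lit 482258000), (nat_lit 688842000)], [], [(nat_lit 2214031666), (nat_lit 1885419724), (nat_lit 1813813389), (nat_lit 1824403450), (nat_lit 2057270262), (nat_lit 1925758700), (nat_lit 2684271296), (nat_lit 2406632710)], (nat_lit 1271251), (nat_lit 1271251), (nat_lit 780000), (nat_lit 1435001), (nat_lit 0), (nat_lit 2825001), [(nat_lit 1412501), (nat_lit 1271251), (nat_lit 1271251)], [(nat_lit 24), (nat_lit 63), (nat_lit 456), (nat_lit 225), (nat_lit 11)]⟩,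
 ⟨⟨[(nat_lit 120), (nat_lit 160), (nat_lit 200)], [(nat_lit 0), (nat_lit 0), (nat_lit 3198)], [((nat_lit 0), (nat_lit 0), (nat_lit 0)), ((nat_lit 0), (nat_lit 0), (nat_lit 0)), ((nat_lit 572), (nat_lit 1000), (nat_lit 714))], ((nat_lit 0), (nat_lit 0), (nat_lit 0))⟩, (nat_lit 23902), (nat_lit 300), (nat_lit 625), (nat_lit 3635808), (nat_lit 418804), [(nat_lit 390432000), (nat_lit 581728000), (nat_lit 803600000)], [], [(nat_lit 3018459740), (nat_lit 2980538601), (nat_lit 3027844112), (nat_lit 3001534498), (nat_lit 2673288984), (nat_lit 2881634610), (nat_lit 2300682316), (nat_lit 2284039538)], (nat_lit 1100000), (nat_lit 1271251), (nat_lit 1271251), (nat_lit 1271251), (nat_lit 0), (nat_lit 2825001), [(nat_lit 1695001), (nat_lit 1271251), (nat_lit 1271251)], [(nat_lit 29), (nat_lit 66), (nat_lit 456), (nat_lit 225), (nat_lit 10)]⟩⟩))) (.leaf ⟨(nat_lit 710), (nat_lit 142), (nat_lit 0), (nat_lit 148), (nat_lit 1313), (nat_lit 4241), (nat_lit 3370), (nat_lit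 2070), (nat_lit 0), (nat_lit 0), (nat_lit 177500), [((nat_lit 380), [((nat_lit 25), (nat_lit 0), (nat_lit 710))])], ⟨(nat_lit 5), false, true, false, (nat_lit 225), (nat_lit 2236), (nat_lit 2739), [(nat_lit 1522397), (nat_lit 1522754), (nat_lit 1544794), (nat_lit 1545508), (nat_lit 1581477), (nat_lit 1579788), (nat_lit 1603890), (nat_lit 1602558)]⟩, ⟨(nat_lit 6), false, false, true, (nat_lit 224), (nat_lit 2236), (nat_lit 2739), [(nat_lit 1514225), (nat_lit 1511466), (nat_lit 1536642), (nat_lit 1534240), (nat_lit 1588052), (nat_lit 1582735), (nat_lit 1610469), (nat_lit 1605509)]⟩, (nat_lit 5235551), (nat_lit 39006232), (nat_lit 14046483), (nat_lit 13947285), (nat_lit 6), (nat_lit 0), [], [⟨(nat_lit 1), (nat_lit 95), (nat_lit 49), (nat_lit 100), (nat_lit 262930117)⟩], [], [⟨(nat_lit 0), (nat_lit 95), (nat_lit 100), (nat_lit 42), (nat_lit 279303)⟩],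
 ⟨⟨[(nat_lit 40), (nat_lit 80), (nat_lit 100)], [(nat_lit 0), (nat_lit 2008), (nat_lit 2969)], [((nat_lit 0), (nat_lit 0), (nat_lit 0)), ((nat_lit 1000), (nat_lit 540), (nat_lit 733)), ((nat_lit 1000), (nat_lit 536), (nat_lit 751))], ((nat_lit 53), (nat_lit 100), (nat_lit 78))⟩, (nat_lit 0), (nat_lit 78), (nat_lit 78), (nat_lit 0), (nat_lit 65469), [(nat_lit 1696063379), (nat_lit 2577596008), (nat_lit 3316280000)], [(nat_lit 0), (nat_lit 0), (nat_lit 0)], [(nat_lit 24733349027), (nat_lit 25380636706), (nat_lit 25621091744), (nat_lit 26223504776), (nat_lit 26636644704), (nat_lit 27298305876), (nat_lit 27445119660), (nat_lit 28075442959)], (nat_lit 1271251), (nat_lit 1271251), (nat_lit 1271251), (nat_lit 1271251), (nat_lit 1271251), (nat_lit 1271251), [(nat_lit 490000), (nat_lit 1100000), (nat_lit 1442501)], [(nat_lit 3), (nat_lit 50), (nat_lit 203), (nat_lit 0), (nat_lit 6)]⟩,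
 ⟨⟨[(nat_lit 100), (nat_lit 140), (nat_lit 180)], [(nat_lit 0), (nat_lit 508), (nat_lit 2854)], [((nat_lit 0), (nat_lit 0), (nat_lit 0)), ((nat_lit 1000), (nat_lit 1000), (nat_lit 198)), ((nat_lit 777), (nat_lit 1000), (nat_lit 712))], ((nat_lit 100), (nat_lit 72), (nat_lit 77))⟩, (nat_lit 1371990), (nat_lit 437), (nat_lit 437), (nat_lit 0), (nat_lit 260464), [(nat_lit 1812500000), (nat_lit 2854180000), (nat_lit 4076820000)], [], [(nat_lit 8074334805), (nat_lit 8239438660), (nat_lit 8392408300), (nat_lit 8545377940), (nat_lit 13248184755), (nat_lit 11731747100), (nat_lit 10234884090), (nat_lit 9997504040)], (nat_lit 1271251), (nat_lit 1271251), (nat_lit 1271251), (nat_lit 1271251), (nat_lit 0), (nat_lit 2825001), [(nat_lit 1412501), (nat_lit 1271251), (nat_lit 1271251)], [(nat_lit 24), (nat_lit 63), (nat_lit 456), (nat_lit 225), (nat_lit 10)]⟩,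
 ⟨⟨[(nat_lit 120), (nat_lit 160), (nat_lit 200)], [(nat_lit 0), (nat_lit 0), (nat_lit 3198)], [((nat_lit 0), (nat_lit 0), (nat_lit 0)), ((nat_lit 0), (nat_lit 0), (nat_lit 0)), ((nat_lit 572), (nat_lit 1000), (nat_lit 714))], ((nat_lit 0), (nat_lit 0), (nat_lit 0))⟩, (nat_lit 72195), (nat_lit 300), (nat_lit 625), (nat_lit 10981602), (nat_lit 418804), [(nat_lit 1179264000), (nat_lit 1757056000), (nat_lit 2427200000)], [], [(nat_lit 9154226352), (nat_lit 9041704626), (nat_lit 9166088335), (nat_lit 9085795691), (nat_lit 8062978488), (nat_lit 8685678230), (nat_lit 6969767925), (nat_lit 6889475281)], (nat_lit 1100000), (nat_lit 1271251), (nat_lit 1271251), (nat_lit 1271251), (nat_lit 0), (nat_lit 2825001), [(nat_lit 1695001), (nat_lit 1271251), (nat_lit 1271251)], [(nat_lit 29), (nat_lit 66), (nat_lit 456), (nat_lit 225), (nat_lit 10)]⟩⟩))))) (.dle (nat_lit 0)))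
noncomputable def c16_52 : Tr Lf :=
 (.trX (nat_lit 3) (nat_lit 0) (nat_lit 1) (nat_lit 60) (nat_lit 86) (nat_lit 100) (nat_lit 310) (.spl (nat_lit 2) (nat_lit 160) (.trX (nat_lit 4) (nat_lit 0) (nat_lit 2) (nat_lit 61) (nat_lit 92) (nat_lit 100) (nat_lit 290) (.spl (nat_lit 0) (nat_lit 370) (.spl (nat_lit 6) (nat_lit 76) (.leaf ⟨(nat_lit 1000), (nat_lit 0), (nat_lit 0), (nat_lit 0), (nat_lit 15179), (nat_lit 3304), (nat_lit 0), (nat_lit 0), (nat_lit 0), (nat_lit 24354), (nat_lit 388000), [((nat_lit 370), [((nat_lit 25), (nat_lit 0), (nat_lit 80)), ((nat_lit 25), (nat_lit 1), (nat_lit 920))])], ⟨(nat_lit 6), false, false, true, (nat_lit 223), (nat_lit 2738), (nat_lit 3163), [(nat_lit 1472332), (nat_lit 1469390), (nat_lit 1538797), (nat_lit 1536642), (nat_lit 1579001), (nat_lit 1572748), (nat_lit 1645465), (nat_lit 1640000)]⟩, ⟨(nat_lit 5), false, false, true, (nat_lit 200), (nat_lit 2738), (nat_lit 3163), [(nat_lit 1411379), (nat_lit 1410329), (nat_lit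 1455689), (nat_lit 1455164), (nat_lit 1548524), (nat_lit 1543217), (nat_lit 1592834), (nat_lit 1588052)]⟩, (nat_lit 5066754), (nat_lit 40773956), (nat_lit 14223311), (nat_lit 12002733), (nat_lit 0), (nat_lit 0), [⟨(nat_lit 1), (nat_lit 97), (nat_lit 58), (nat_lit 100), (nat_lit 288260247)⟩], [⟨(nat_lit 1), (nat_lit 100), (nat_lit 59), (nat_lit 100), (nat_lit 225024729)⟩], [], [],
 ⟨⟨[(nat_lit 40), (nat_lit 80), (nat_lit 100)], [(nat_lit 0), (nat_lit 1598), (nat_lit 2533)], [((nat_lit 0), (nat_lit 0), (nat_lit 0)), ((nat_lit 1000), (nat_lit 625), (nat_lit 623)), ((nat_lit 1000), (nat_lit 604), (nat_lit 730))], ((nat_lit 60), (nat_lit 100), (nat_lit 78))⟩, (nat_lit 0), (nat_lit 101), (nat_lit 101), (nat_lit 0), (nat_lit 104456), [(nat_lit 1394048019), (nat_lit 1189215254), (nat_lit 1011424000)], [(nat_lit 0), (nat_lit 0), (nat_lit 0)], [(nat_lit 23949084051), (nat_lit 24460957807), (nat_lit 26256489046), (nat_lit 26703474958), (nat_lit 26343795313), (nat_lit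 26780804482), (nat_lit 28536935572), (nat_lit 29023706585)], (nat_lit 1271251), (nat_lit 1271251), (nat_lit 1271251), (nat_lit 1271251), (nat_lit 1271251), (nat_lit 1271251), [(nat_lit 490000), (nat_lit 1100000), (nat_lit 1442501)], [(nat_lit 3), (nat_lit 50), (nat_lit 203), (nat_lit 0), (nat_lit 6)]⟩,
 Rw.none,
 Rw.none⟩) (.dle (nat_lit 0))) (.trX (nat_lit 3) (nat_lit 0) (nat_lit 1) (nat_lit 53) (nat_lit 90) (nat_lit 100) (nat_lit 290) (.trX (nat_lit 4) (nat_lit 0) (nat_lit 2) (nat_lit 54) (nat_lit 96) (nat_lit 100) (nat_lit 270) (.leaf ⟨(nat_lit 1000), (nat_lit 0), (nat_lit 0), (nat_lit 0), (nat_lit 8910), (nat_lit 3115), (nat_lit 0), (nat_lit 0), (nat_lit 0), (nat_lit 3020), (nat_lit 400000), [((nat_lit 380), [((nat_lit 26), (nat_lit 1), (nat_lit 1000))])], ⟨(nat_lit 6), false, false, true, (nat_lit 215), (nat_lit 2236), (nat_lit 2739), [(nat_lit 1469390), (nat_lit 1465917), (nat_lit 1536642), (nat_lit 1534240), (nat_lit 1543217), (nat_lit 1537186),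 (nat_lit 1610469), (nat_lit 1605509)]⟩, ⟨(nat_lit 5), false, false, true, (nat_lit 193), (nat_lit 2236), (nat_lit 2739), [(nat_lit 1410329), (nat_lit 1408901), (nat_lit 1455164), (nat_lit 1454450), (nat_lit 1513686), (nat_lit 1508679), (nat_lit 1558521), (nat_lit 1554227)]⟩, (nat_lit 4965931), (nat_lit 41808912), (nat_lit 13670879), (nat_lit 11520209), (nat_lit 0), (nat_lit 0), [⟨(nat_lit 1), (nat_lit 100), (nat_lit 50), (nat_lit 100), (nat_lit 314328658)⟩], [⟨(nat_lit 1), (nat_lit 100), (nat_lit 49), (nat_lit 97), (nat_lit 244685045)⟩], [], [],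
 ⟨⟨[(nat_lit 40), (nat_lit 80), (nat_lit 120)], [(nat_lit 0), (nat_lit 2008), (nat_lit 3930)], [((nat_lit 0), (nat_lit 0), (nat_lit 0)), ((nat_lit 1000), (nat_lit 540), (nat_lit 733)), ((nat_lit 1000), (nat_lit 536), (nat_lit 751))], ((nat_lit 53), (nat_lit 100), (nat_lit 87))⟩, (nat_lit 227165), (nat_lit 143), (nat_lit 143), (nat_lit 0), (nat_lit 182815), [(nat_lit 1380800001), (nat_lit 1221374623), (nat_lit 796400000)], [(nat_lit 0), (nat_lit 0), (nat_lit 0)], [(nat_lit 24514502343), (nat_lit 24982655029), (nat_lit 25992843424), (nat_lit 26419962229), (nat_lit 26108070805), (nat_lit 26525748784), (nat_lit 27582825076), (nat_lit 28026853779)], (nat_lit 1271251), (nat_lit 1271251), (nat_lit 1271251), (nat_lit 1271251), (nat_lit 1271251), (nat_lit 1271251), [(nat_lit 490000), (nat_lit 1100000), (nat_lit 1785001)], [(nat_lit 4), (nat_lit 51), (nat_lit 289), (nat_lit 75), (nat_lit 8)]⟩,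
 Rw.none,
 Rw.none⟩))))) (.ord (.spl (nat_lit 6) (nat_lit 68) (.spl (nat_lit 0) (nat_lit 370) (.dle (nat_lit 0)) (.trX (nat_lit 3) (nat_lit 0) (nat_lit 1) (nat_lit 53) (nat_lit 90) (nat_lit 100) (nat_lit 290) (.trX (nat_lit 4) (nat_lit 0) (nat_lit 2) (nat_lit 53) (nat_lit 90) (nat_lit 100) (nat_lit 290) (.leaf ⟨(nat_lit 948), (nat_lit 0), (nat_lit 0), (nat_lit 52), (nat_lit 5084), (nat_lit 3414), (nat_lit 699), (nat_lit 698), (nat_lit 0), (nat_lit 2406519106), (nat_lit 237000), [((nat_lit 380), [((nat_lit 25), (nat_lit 0), (nat_lit 948))])], ⟨(nat_lit 6), false, false, true, (nat_lit 224), (nat_lit 2236), (nat_lit 2739), [(nat_lit 1514225), (nat_lit 1511466), (nat_lit 1536642), (nat_lit 1534240), (nat_lit 1588052), (nat_lit 1582735), (nat_lit 1610469), (nat_lit 1605509)]⟩, ⟨(nat_lit 5), false, false, true, (nat_lit 213), (nat_lit 2236), (nat_lit 2739), [(nat_lit 1455164), (nat_lit 1454450), (nat_lit 1477581), (nat_lit 1477224), (nat_lit 1588052), (nat_lit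 1582735), (nat_lit 1610469), (nat_lit 1605509)]⟩, (nat_lit 5159030), (nat_lit 39848020), (nat_lit 14153725), (nat_lit 12998255), (nat_lit 0), (nat_lit 0), [⟨(nat_lit 1), (nat_lit 95), (nat_lit 49), (nat_lit 100), (nat_lit 206681525)⟩], [⟨(nat_lit 1), (nat_lit 95), (nat_lit 49), (nat_lit 100), (nat_lit 129765347)⟩], [], [⟨(nat_lit 0), (nat_lit 100), (nat_lit 100), (nat_lit 90), (nat_lit 21393183)⟩],
 ⟨⟨[(nat_lit 40), (nat_lit 80), (nat_lit 100)], [(nat_lit 0), (nat_lit 2008), (nat_lit 2969)], [((nat_lit 0), (nat_lit 0), (nat_lit 0)), ((nat_lit 1000), (nat_lit 540), (nat_lit 733)), ((nat_lit 1000), (nat_lit 536), (nat_lit 751))], ((nat_lit 53), (nat_lit 100), (nat_lit 76))⟩, (nat_lit 0), (nat_lit 79), (nat_lit 79), (nat_lit 0), (nat_lit 64238), [(nat_lit 1542040003), (nat_lit 1870164804), (nat_lit 2332864000)], [(nat_lit 0), (nat_lit 0), (nat_lit 0)], [(nat_lit 24622728918), (nat_lit 25173695630), (nat_lit 26336868240), (nat_lit 26836543180), (nat_lit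 27102259211), (nat_lit 27570685567), (nat_lit 28542893768), (nat_lit 28969395994)], (nat_lit 1271251), (nat_lit 1271251), (nat_lit 1271251), (nat_lit 1271251), (nat_lit 1271251), (nat_lit 1271251), [(nat_lit 490000), (nat_lit 1100000), (nat_lit 1442501)], [(nat_lit 3), (nat_lit 50), (nat_lit 203), (nat_lit 0), (nat_lit 6)]⟩,
 ⟨⟨[(nat_lit 120), (nat_lit 160), (nat_lit 200)], [(nat_lit 0), (nat_lit 0), (nat_lit 3198)], [((nat_lit 0), (nat_lit 0), (nat_lit 0)), ((nat_lit 0), (nat_lit 0), (nat_lit 0)), ((nat_lit 572), (nat_lit 1000), (nat_lit 714))], ((nat_lit 0), (nat_lit 0), (nat_lit 0))⟩, (nat_lit 164765), (nat_lit 617), (nat_lit 617), (nat_lit 0), (nat_lit 398858), [(nat_lit 414336000), (nat_lit 617344000), (nat_lit 852800000)], [], [(nat_lit 2307125224), (nat_lit 2294189329), (nat_lit 2359738607), (nat_lit 2342704911), (nat_lit 2820559452), (nat_lit 3032219315), (nat_lit 2063614100), (nat_lit 2279843675)], (nat_lit 1100000), (nat_lit 1271251), (nat_lit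 1271251), (nat_lit 1271251), (nat_lit 0), (nat_lit 2825001), [(nat_lit 1695001), (nat_lit 1271251), (nat_lit 1271251)], [(nat_lit 29), (nat_lit 66), (nat_lit 456), (nat_lit 225), (nat_lit 10)]⟩,
 ⟨⟨[(nat_lit 120), (nat_lit 160), (nat_lit 200)], [(nat_lit 0), (nat_lit 0), (nat_lit 3198)], [((nat_lit 0), (nat_lit 0), (nat_lit 0)), ((nat_lit 0), (nat_lit 0), (nat_lit 0)), ((nat_lit 572), (nat_lit 1000), (nat_lit 714))], ((nat_lit 0), (nat_lit 0), (nat_lit 0))⟩, (nat_lit 25366), (nat_lit 300), (nat_lit 632), (nat_lit 3858400), (nat_lit 398858), [(nat_lit 414336000), (nat_lit 617344000), (nat_lit 852800000)], [], [(nat_lit 3328280532), (nat_lit 3292089530), (nat_lit 3231614586), (nat_lit 3192400383), (nat_lit 3440187500), (nat_lit 3647751632), (nat_lit 2459934586), (nat_lit 2420719915)], (nat_lit 1100000), (nat_lit 1271251), (nat_lit 1271251), (nat_lit 1271251), (nat_lit 0), (nat_lit 2825001), [(nat_lit 1695001), (nat_lit 1271251), (nat_lit 1271251)], [(nat_lit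 29), (nat_lit 66), (nat_lit 456), (nat_lit 225), (nat_lit 10)]⟩⟩)))) (.dle (nat_lit 0))))))
noncomputable def c16_53 : Tr Lf :=
 (.spl (nat_lit 1) (nat_lit 220) (.trX (nat_lit 3) (nat_lit 0) (nat_lit 1) (nat_lit 60) (nat_lit 74) (nat_lit 100) (nat_lit 340) (.spl (nat_lit 0) (nat_lit 370) (.spl (nat_lit 6) (nat_lit 68) (.leaf ⟨(nat_lit 761), (nat_lit 178), (nat_lit 0), (nat_lit 61), (nat_lit 8054), (nat_lit 3525), (nat_lit 2803), (nat_lit 956), (nat_lit 0), (nat_lit 0), (nat_lit 392550), [((nat_lit 370), [((nat_lit 25), (nat_lit 0), (nat_lit 183)), ((nat_lit 41), (nat_lit 2), (nat_lit 578))])], ⟨(nat_lit 6), false, true, true, (nat_lit 254), (nat_lit 2738), (nat_lit 3163), [(nat_lit 1538797), (nat_lit 1536642), (nat_lit 1583107), (nat_lit 1581477), (nat_lit 1691180), (nat_lit 1684296), (nat_lit 1735490), (nat_lit 1729131)]⟩, ⟨(nat_lit 5), false, false, true, (nat_lit 211), (nat_lit 2738), (nat_lit 3163), [(nat_lit 1411379), (nat_lit 1410329), (nat_lit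 1477844), (nat_lit 1477581), (nat_lit 1579001), (nat_lit 1572748), (nat_lit 1645465), (nat_lit 1640000)]⟩, (nat_lit 5298047), (nat_lit 37894241), (nat_lit 16726671), (nat_lit 12379088), (nat_lit 5), (nat_lit 0), [], [⟨(nat_lit 1), (nat_lit 97), (nat_lit 58), (nat_lit 100), (nat_lit 55130210)⟩], [], [⟨(nat_lit 0), (nat_lit 100), (nat_lit 93), (nat_lit 71), (nat_lit 154947478)⟩],
 ⟨⟨[(nat_lit 40), (nat_lit 80), (nat_lit 100)], [(nat_lit 0), (nat_lit 1598), (nat_lit 2533)], [((nat_lit 0), (nat_lit 0), (nat_lit 0)), ((nat_lit 1000), (nat_lit 625), (nat_lit 623)), ((nat_lit 1000), (nat_lit 604), (nat_lit 730))], ((nat_lit 60), (nat_lit 100), (nat_lit 75))⟩, (nat_lit 0), (nat_lit 98), (nat_lit 98), (nat_lit 0), (nat_lit 71722), [(nat_lit 1457509381), (nat_lit 1599578790), (nat_lit 1468420800)], [(nat_lit 0), (nat_lit 0), (nat_lit 0)], [(nat_lit 24166503256), (nat_lit 24692999869), (nat_lit 27797113513), (nat_lit 28248949510), (nat_lit 27294104850), (nat_lit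 27746765529), (nat_lit 30593035429), (nat_lit 31038441395)], (nat_lit 1271251), (nat_lit 1271251), (nat_lit 1271251), (nat_lit 1271251), (nat_lit 1271251), (nat_lit 1271251), [(nat_lit 490000), (nat_lit 1100000), (nat_lit 1442501)], [(nat_lit 3), (nat_lit 50), (nat_lit 203), (nat_lit 0), (nat_lit 6)]⟩,
 ⟨⟨[(nat_lit 120), (nat_lit 160), (nat_lit 200)], [(nat_lit 0), (nat_lit 533), (nat_lit 3597)], [((nat_lit 0), (nat_lit 0), (nat_lit 0)), ((nat_lit 960), (nat_lit 1000), (nat_lit 200)), ((nat_lit 612), (nat_lit 1000), (nat_lit 732))], ((nat_lit 0), (nat_lit 0), (nat_lit 0))⟩, (nat_lit 866554), (nat_lit 480), (nat_lit 480), (nat_lit 0), (nat_lit 187135), [(nat_lit 1904352000), (nat_lit 2837408000), (nat_lit 3919600000)], [], [(nat_lit 9355730814), (nat_lit 9368961758), (nat_lit 10491259467), (nat_lit 10450732384), (nat_lit 7190818002), (nat_lit 7257310501), (nat_lit 8249007191), (nat_lit 8202692203)], (nat_lit 1271251), (nat_lit 1271251), (nat_lit 1271251),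 (nat_lit 1271251), (nat_lit 0), (nat_lit 780000), [(nat_lit 1695001), (nat_lit 1271251), (nat_lit 1271251)], [(nat_lit 29), (nat_lit 66), (nat_lit 401), (nat_lit 175), (nat_lit 8)]⟩,
 ⟨⟨[(nat_lit 140), (nat_lit 180), (nat_lit 200)], [(nat_lit 0), (nat_lit 0), (nat_lit 2835)], [((nat_lit 0), (nat_lit 0), (nat_lit 0)), ((nat_lit 0), (nat_lit 0), (nat_lit 0)), ((nat_lit 363), (nat_lit 1000), (nat_lit 798))], ((nat_lit 0), (nat_lit 0), (nat_lit 0))⟩, (nat_lit 16783), (nat_lit 300), (nat_lit 712), (nat_lit 4764101), (nat_lit 525634), [(nat_lit 600362000), (nat_lit 857538000), (nat_lit 1000400000)], [], [(nat_lit 4039032518), (nat_lit 3860558775), (nat_lit 4058863152), (nat_lit 3854972968), (nat_lit 3221612288), (nat_lit 3068936429), (nat_lit 3173651643), (nat_lit 2984593307)], (nat_lit 780000), (nat_lit 1271251), (nat_lit 1271251), (nat_lit 1271251), (nat_lit 0), (nat_lit 780000), [(nat_lit 1977501), (nat_lit 1271251), (nat_lit 1271251)], [(nat_lit 32), (nat_lit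 67), (nat_lit 401), (nat_lit 175), (nat_lit 9)]⟩⟩) (.dle (nat_lit 0))) (.trX (nat_lit 3) (nat_lit 0) (nat_lit 1) (nat_lit 53) (nat_lit 80) (nat_lit 100) (nat_lit 330) (.trX (nat_lit 4) (nat_lit 0) (nat_lit 2) (nat_lit 53) (nat_lit 90) (nat_lit 100) (nat_lit 290) (.stt (nat_lit 1) (.spl (nat_lit 0) (nat_lit 375) (.spl (nat_lit 6) (nat_lit 76) (.leaf ⟨(nat_lit 811), (nat_lit 141), (nat_lit 0), (nat_lit 48), (nat_lit 4185), (nat_lit 3627), (nat_lit 2217), (nat_lit 752), (nat_lit 0), (nat_lit 0), (nat_lit 202750), [((nat_lit 375), [((nat_lit 25), (nat_lit 0), (nat_lit 811))])], ⟨(nat_lit 6), false, true, true, (nat_lit 250), (nat_lit 2500), (nat_lit 2739), [(nat_lit 1536642), (nat_lit 1535482), (nat_lit 1581477), (nat_lit 1580644), (nat_lit 1669530), (nat_lit 1666128), (nat_lit 1714365), (nat_lit 1711289)]⟩, ⟨(nat_lit 5), false, false, true, (nat_lit 204), (nat_lit 2500), (nat_lit 2739), [(nat_lit 1410329), (nat_lit 1409676), (nat_lit 1477581), (nat_lit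 1477418), (nat_lit 1543217), (nat_lit 1540321), (nat_lit 1610469), (nat_lit 1608063)]⟩, (nat_lit 5235073), (nat_lit 38604621), (nat_lit 16495256), (nat_lit 11900123), (nat_lit 5), (nat_lit 0), [⟨(nat_lit 1), (nat_lit 86), (nat_lit 51), (nat_lit 100), (nat_lit 43674850)⟩], [⟨(nat_lit 1), (nat_lit 99), (nat_lit 52), (nat_lit 100), (nat_lit 86419339)⟩], [], [⟨(nat_lit 0), (nat_lit 100), (nat_lit 93), (nat_lit 63), (nat_lit 124999862)⟩],
 ⟨⟨[(nat_lit 40), (nat_lit 80), (nat_lit 100)], [(nat_lit 0), (nat_lit 2008), (nat_lit 2969)], [((nat_lit 0), (nat_lit 0), (nat_lit 0)), ((nat_lit 1000), (nat_lit 540), (nat_lit 733)), ((nat_lit 1000), (nat_lit 536), (nat_lit 751))], ((nat_lit 53), (nat_lit 100), (nat_lit 79))⟩, (nat_lit 0), (nat_lit 67), (nat_lit 67), (nat_lit 0), (nat_lit 0), [(nat_lit 1592633353), (nat_lit 2277383609), (nat_lit 2898948000)], [(nat_lit 0), (nat_lit 0), (nat_lit 0)], [(nat_lit 24813721458), (nat_lit 25096773636), (nat_lit 28106686360),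 (nat_lit 28354169024), (nat_lit 27338824481), (nat_lit 27592111183), (nat_lit 30148215863), (nat_lit 30358793823)], (nat_lit 0), (nat_lit 0), (nat_lit 0), (nat_lit 0), (nat_lit 0), (nat_lit 0), [], [(nat_lit 3), (nat_lit 50), (nat_lit 203), (nat_lit 0), (nat_lit 6)]⟩,
 ⟨⟨[(nat_lit 120), (nat_lit 160), (nat_lit 200)], [(nat_lit 0), (nat_lit 533), (nat_lit 3597)], [((nat_lit 0), (nat_lit 0), (nat_lit 0)), ((nat_lit 960), (nat_lit 1000), (nat_lit 200)), ((nat_lit 612), (nat_lit 1000), (nat_lit 732))], ((nat_lit 0), (nat_lit 0), (nat_lit 0))⟩, (nat_lit 670582), (nat_lit 539), (nat_lit 539), (nat_lit 0), (nat_lit 327658), [(nat_lit 1505952000), (nat_lit 2243808000), (nat_lit 3099600000)], [], [(nat_lit 7459017610), (nat_lit 7424310314), (nat_lit 8182419726), (nat_lit 8161414506), (nat_lit 5701499821), (nat_lit 5754062134), (nat_lit 6423753157), (nat_lit 6396831204)], (nat_lit 1271251), (nat_lit 1271251), (nat_lit 1271251), (nat_lit 1271251), (nat_lit 0),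 (nat_lit 780000), [(nat_lit 1695001), (nat_lit 1271251), (nat_lit 1271251)], [(nat_lit 29), (nat_lit 66), (nat_lit 401), (nat_lit 175), (nat_lit 8)]⟩,
 ⟨⟨[(nat_lit 140), (nat_lit 180), (nat_lit 200)], [(nat_lit 0), (nat_lit 0), (nat_lit 2835)], [((nat_lit 0), (nat_lit 0), (nat_lit 0)), ((nat_lit 0), (nat_lit 0), (nat_lit 0)), ((nat_lit 363), (nat_lit 1000), (nat_lit 798))], ((nat_lit 0), (nat_lit 0), (nat_lit 0))⟩, (nat_lit 13206), (nat_lit 300), (nat_lit 858), (nat_lit 3748805), (nat_lit 831851), [(nat_lit 472416000), (nat_lit 674784000), (nat_lit 787200000)], [], [(nat_lit 3178462776), (nat_lit 3037782264), (nat_lit 3177341904), (nat_lit 3021367336), (nat_lit 2535568840), (nat_lit 2414843284), (nat_lit 2483715576), (nat_lit 2339199219)], (nat_lit 780000), (nat_lit 1271251), (nat_lit 1271251), (nat_lit 1271251), (nat_lit 0), (nat_lit 780000), [(nat_lit 1977501), (nat_lit 1271251), (nat_lit 1271251)], [(nat_lit 32), (nat_lit 67), (nat_lit 373), (nat_lit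 150), (nat_lit 8)]⟩⟩) (.dle (nat_lit 0))) (.trX (nat_lit 3) (nat_lit 0) (nat_lit 1) (nat_lit 49) (nat_lit 83) (nat_lit 100) (nat_lit 320) (.trX (nat_lit 4) (nat_lit 0) (nat_lit 2) (nat_lit 49) (nat_lit 92) (nat_lit 100) (nat_lit 280) (.leaf ⟨(nat_lit 907), (nat_lit 69), (nat_lit 0), (nat_lit 24), (nat_lit 6511), (nat_lit 3466), (nat_lit 1119), (nat_lit 378), (nat_lit 0), (nat_lit 0), (nat_lit 226750), [((nat_lit 380), [((nat_lit 26), (nat_lit 0), (nat_lit 907))])], ⟨(nat_lit 6), false, true, true, (nat_lit 246), (nat_lit 2236), (nat_lit 2500), [(nat_lit 1535482), (nat_lit 1534240), (nat_lit 1580644), (nat_lit 1579788), (nat_lit 1651611), (nat_lit 1648271), (nat_lit 1696773), (nat_lit 1693819)]⟩, ⟨(nat_lit 5), false, false, true, (nat_lit 200), (nat_lit 2236), (nat_lit 2500), [(nat_lit 1409676), (nat_lit 1408901), (nat_lit 1477418), (nat_lit 1477224), (nat_lit 1525805), (nat_lit 1522933), (nat_lit 1593547), (nat_lit 1591255)]⟩, (nat_lit 5193804), (nat_lit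 39087038), (nat_lit 16236490), (nat_lit 11676472), (nat_lit 5), (nat_lit 0), [⟨(nat_lit 1), (nat_lit 89), (nat_lit 46), (nat_lit 100), (nat_lit 172460167)⟩], [⟨(nat_lit 1), (nat_lit 100), (nat_lit 47), (nat_lit 99), (nat_lit 195284374)⟩], [], [⟨(nat_lit 0), (nat_lit 100), (nat_lit 94), (nat_lit 59), (nat_lit 59929722)⟩, ⟨(nat_lit 0), (nat_lit 100), (nat_lit 87), (nat_lit 95), (nat_lit 165269)⟩],
 ⟨⟨[(nat_lit 40), (nat_lit 80), (nat_lit 100)], [(nat_lit 0), (nat_lit 2244), (nat_lit 3243)], [((nat_lit 0), (nat_lit 0), (nat_lit 0)), ((nat_lit 1000), (nat_lit 495), (nat_lit 771)), ((nat_lit 1000), (nat_lit 493), (nat_lit 781))], ((nat_lit 49), (nat_lit 100), (nat_lit 83))⟩, (nat_lit 0), (nat_lit 66), (nat_lit 66), (nat_lit 0), (nat_lit 0), [(nat_lit 1556012516), (nat_lit 1991670523), (nat_lit 2476880000)], [(nat_lit 0), (nat_lit 0), (nat_lit 0)], [(nat_lit 24970399233), (nat_lit 25247730376), (nat_lit 27681862496), (nat_lit 27917713977), (nat_lit 27096241498),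 (nat_lit 27336620387), (nat_lit 29462964645), (nat_lit 29701685576)], (nat_lit 0), (nat_lit 0), (nat_lit 0), (nat_lit 0), (nat_lit 0), (nat_lit 0), [], [(nat_lit 3), (nat_lit 50), (nat_lit 203), (nat_lit 0), (nat_lit 6)]⟩,
 ⟨⟨[(nat_lit 120), (nat_lit 160), (nat_lit 200)], [(nat_lit 0), (nat_lit 533), (nat_lit 3597)], [((nat_lit 0), (nat_lit 0), (nat_lit 0)), ((nat_lit 960), (nat_lit 1000), (nat_lit 200)), ((nat_lit 612), (nat_lit 1000), (nat_lit 732))], ((nat_lit 0), (nat_lit 0), (nat_lit 0))⟩, (nat_lit 341580), (nat_lit 647), (nat_lit 647), (nat_lit 0), (nat_lit 494547), [(nat_lit 741024000), (nat_lit 1104096000), (nat_lit 1525200000)], [], [(nat_lit 3789690567), (nat_lit 3755613549), (nat_lit 3936491754), (nat_lit 3929531982), (nat_lit 2986628910), (nat_lit 2949117426), (nat_lit 3100250748), (nat_lit 3041534184)], (nat_lit 1271251), (nat_lit 1271251), (nat_lit 1271251), (nat_lit 1271251), (nat_lit 0), (nat_lit 780000), [(nat_lit 1695001), (nat_lit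 1271251), (nat_lit 1271251)], [(nat_lit 29), (nat_lit 66), (nat_lit 401), (nat_lit 175), (nat_lit 8)]⟩,
 ⟨⟨[(nat_lit 140), (nat_lit 180), (nat_lit 200)], [(nat_lit 0), (nat_lit 0), (nat_lit 2835)], [((nat_lit 0), (nat_lit 0), (nat_lit 0)), ((nat_lit 0), (nat_lit 0), (nat_lit 0)), ((nat_lit 363), (nat_lit 1000), (nat_lit 798))], ((nat_lit 0), (nat_lit 0), (nat_lit 0))⟩, (nat_lit 6603), (nat_lit 300), (nat_lit 1003), (nat_lit 1874403), (nat_lit 1150348), [(nat_lit 236208000), (nat_lit 337392000), (nat_lit 393600000)], [], [(nat_lit 1589867520), (nat_lit 1519167066), (nat_lit 1585108080), (nat_lit 1507673973), (nat_lit 1263765318), (nat_lit 1207860176), (nat_lit 1236912978), (nat_lit 1165190171)], (nat_lit 780000), (nat_lit 1271251), (nat_lit 1271251), (nat_lit 1271251), (nat_lit 0), (nat_lit 780000), [(nat_lit 1977501), (nat_lit 1271251), (nat_lit 1271251)], [(nat_lit 32), (nat_lit 67), (nat_lit 373), (nat_lit 150), (nat_lit 8)]⟩⟩)))) (.leaf ⟨(nat_lit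 783), (nat_lit 141), (nat_lit 0), (nat_lit 76), (nat_lit 5625), (nat_lit 3660), (nat_lit 2619), (nat_lit 1242), (nat_lit 0), (nat_lit 0), (nat_lit 195750), [((nat_lit 380), [((nat_lit 26), (nat_lit 0), (nat_lit 783))])], ⟨(nat_lit 6), false, true, true, (nat_lit 249), (nat_lit 2236), (nat_lit 2739), [(nat_lit 1536642), (nat_lit 1534240), (nat_lit 1581477), (nat_lit 1579788), (nat_lit 1669530), (nat_lit 1662525), (nat_lit 1714365), (nat_lit 1708073)]⟩, ⟨(nat_lit 5), false, false, true, (nat_lit 204), (nat_lit 2236), (nat_lit 2739), [(nat_lit 1410329), (nat_lit 1408901), (nat_lit 1477581), (nat_lit 1477224), (nat_lit 1543217), (nat_lit 1537186), (nat_lit 1610469), (nat_lit 1605509)]⟩, (nat_lit 5230824), (nat_lit 38656493), (nat_lit 16463064), (nat_lit 11880443), (nat_lit 5), (nat_lit 0), [], [⟨(nat_lit 1), (nat_lit 100), (nat_lit 50), (nat_lit 100), (nat_lit 37744553)⟩], [], [⟨(nat_lit 0), (nat_lit 100), (nat_lit 93), (nat_lit 63), (nat_lit 174789297)⟩],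
 ⟨⟨[(nat_lit 40), (nat_lit 80), (nat_lit 100)], [(nat_lit 0), (nat_lit 2008), (nat_lit 2969)], [((nat_lit 0), (nat_lit 0), (nat_lit 0)), ((nat_lit 1000), (nat_lit 540), (nat_lit 733)), ((nat_lit 1000), (nat_lit 536), (nat_lit 751))], ((nat_lit 53), (nat_lit 100), (nat_lit 83))⟩, (nat_lit 445429), (nat_lit 121), (nat_lit 121), (nat_lit 0), (nat_lit 147077), [(nat_lit 1589095616), (nat_lit 2569378793), (nat_lit 2992720000)], [(nat_lit 0), (nat_lit 0), (nat_lit 0)], [(nat_lit 24849647560), (nat_lit 25384704809), (nat_lit 27984762203), (nat_lit 28453604423), (nat_lit 27247421132), (nat_lit 27726625604), (nat_lit 30151674661), (nat_lit 30635096257)], (nat_lit 1271251), (nat_lit 1271251), (nat_lit 1271251), (nat_lit 1271251), (nat_lit 1271251), (nat_lit 1271251), [(nat_lit 490000), (nat_lit 1100000), (nat_lit 1442501)], [(nat_lit 3), (nat_lit 50), (nat_lit 203), (nat_lit 0), (nat_lit 6)]⟩,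
 ⟨⟨[(nat_lit 120), (nat_lit 160), (nat_lit 200)], [(nat_lit 0), (nat_lit 533), (nat_lit 3597)], [((nat_lit 0), (nat_lit 0), (nat_lit 0)), ((nat_lit 960), (nat_lit 1000), (nat_lit 200)), ((nat_lit 612), (nat_lit 1000), (nat_lit 732))], ((nat_lit 0), (nat_lit 0), (nat_lit 0))⟩, (nat_lit 817595), (nat_lit 478), (nat_lit 478), (nat_lit 0), (nat_lit 181590), [(nat_lit 1729056000), (nat_lit 2576224000), (nat_lit 3558800000)], [], [(nat_lit 8349877192), (nat_lit 8423706756), (nat_lit 9310658960), (nat_lit 9286911238), (nat_lit 6382424182), (nat_lit 6439180389), (nat_lit 7222164285), (nat_lit 7185377082)], (nat_lit 1271251), (nat_lit 1271251), (nat_lit 1271251), (nat_lit 1271251), (nat_lit 0), (nat_lit 780000), [(nat_lit 1695001), (nat_lit 1271251), (nat_lit 1271251)], [(nat_lit 29), (nat_lit 66), (nat_lit 401), (nat_lit 175), (nat_lit 8)]⟩,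
 ⟨⟨[(nat_lit 140), (nat_lit 180), (nat_lit 200)], [(nat_lit 0), (nat_lit 0), (nat_lit 2835)], [((nat_lit 0), (nat_lit 0), (nat_lit 0)), ((nat_lit 0), (nat_lit 0), (nat_lit 0)), ((nat_lit 363), (nat_lit 1000), (nat_lit 798))], ((nat_lit 0), (nat_lit 0), (nat_lit 0))⟩, (nat_lit 20910), (nat_lit 300), (nat_lit 639), (nat_lit 5935601), (nat_lit 356147), [(nat_lit 747992000), (nat_lit 1068408000), (nat_lit 1246400000)], [], [(nat_lit 5052369720), (nat_lit 4816896324), (nat_lit 5044724144), (nat_lit 4783664024), (nat_lit 3911481862), (nat_lit 3834757560), (nat_lit 3893858618), (nat_lit 3651825129)], (nat_lit 780000), (nat_lit 1271251), (nat_lit 1271251), (nat_lit 1271251), (nat_lit 0), (nat_lit 780000), [(nat_lit 1977501), (nat_lit 1271251), (nat_lit 1271251)], [(nat_lit 32), (nat_lit 67), (nat_lit 373), (nat_lit 150), (nat_lit 8)]⟩⟩)))))) (.spl (nat_lit 0) (nat_lit 370) (.spl (nat_lit 6) (nat_lit 72) (.leaf ⟨(nat_lit 0), (nat_lit 988), (nat_lit 0), (nat_lit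 12), (nat_lit 10318), (nat_lit 7157), (nat_lit 11120), (nat_lit 188), (nat_lit 0), (nat_lit 0), (nat_lit 0), [], Pd.none, Pd.none, (nat_lit 0), (nat_lit 1), (nat_lit 0), (nat_lit 0), (nat_lit 5), (nat_lit 0), [], [⟨(nat_lit 1), (nat_lit 97), (nat_lit 58), (nat_lit 100), (nat_lit 387638876)⟩], [], [⟨(nat_lit 0), (nat_lit 100), (nat_lit 92), (nat_lit 73), (nat_lit 225652700)⟩],
 ⟨⟨[(nat_lit 40), (nat_lit 80), (nat_lit 100)], [(nat_lit 0), (nat_lit 1598), (nat_lit 2533)], [((nat_lit 0), (nat_lit 0), (nat_lit 0)), ((nat_lit 1000), (nat_lit 625), (nat_lit 623)), ((nat_lit 1000), (nat_lit 604), (nat_lit 730))], ((nat_lit 60), (nat_lit 100), (nat_lit 77))⟩, (nat_lit 0), (nat_lit 113), (nat_lit 113), (nat_lit 0), (nat_lit 108491), [(nat_lit 2698450276), (nat_lit 5289835291), (nat_lit 6250000000)], [], [(nat_lit 26606730139), (nat_lit 27417551377), (nat_lit 32137799547), (nat_lit 32902990808), (nat_lit 30212039474), (nat_lit 30842213850), (nat_lit 35024094305),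 (nat_lit 35615576682)], (nat_lit 1271251), (nat_lit 1271251), (nat_lit 1271251), (nat_lit 1271251), (nat_lit 1271251), (nat_lit 1271251), [(nat_lit 490000), (nat_lit 1100000), (nat_lit 1442501)], [(nat_lit 3), (nat_lit 50), (nat_lit 203), (nat_lit 0), (nat_lit 6)]⟩,
 ⟨⟨[(nat_lit 100), (nat_lit 140), (nat_lit 180)], [(nat_lit 0), (nat_lit 508), (nat_lit 2854)], [((nat_lit 0), (nat_lit 0), (nat_lit 0)), ((nat_lit 1000), (nat_lit 1000), (nat_lit 198)), ((nat_lit 777), (nat_lit 1000), (nat_lit 712))], ((nat_lit 100), (nat_lit 72), (nat_lit 77))⟩, (nat_lit 4385371), (nat_lit 417), (nat_lit 417), (nat_lit 0), (nat_lit 229102), [(nat_lit 6250000000), (nat_lit 9842000000), (nat_lit 14058000000)], [], [(nat_lit 29701081944), (nat_lit 30163864344), (nat_lit 37850423911), (nat_lit 37960747526), (nat_lit 22069077084), (nat_lit 22461945384), (nat_lit 28024905114), (nat_lit 28105721464)], (nat_lit 1271251), (nat_lit 1271251), (nat_lit 1271251), (nat_lit 1271251),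 (nat_lit 0), (nat_lit 780000), [(nat_lit 1412501), (nat_lit 1271251), (nat_lit 1271251)], [(nat_lit 24), (nat_lit 63), (nat_lit 428), (nat_lit 200), (nat_lit 10)]⟩,
 ⟨⟨[(nat_lit 140), (nat_lit 180), (nat_lit 200)], [(nat_lit 0), (nat_lit 0), (nat_lit 2835)], [((nat_lit 0), (nat_lit 0), (nat_lit 0)), ((nat_lit 0), (nat_lit 0), (nat_lit 0)), ((nat_lit 363), (nat_lit 1000), (nat_lit 798))], ((nat_lit 0), (nat_lit 0), (nat_lit 0))⟩, (nat_lit 3302), (nat_lit 300), (nat_lit 832), (nat_lit 937200), (nat_lit 769985), [(nat_lit 118104000), (nat_lit 168696000), (nat_lit 196800000)], [], [(nat_lit 794614944), (nat_lit 759445066), (nat_lit 798447424), (nat_lit 758356218), (nat_lit 633891460), (nat_lit 603710821), (nat_lit 624374830), (nat_lit 587200221)], (nat_lit 780000), (nat_lit 1271251), (nat_lit 1271251), (nat_lit 1271251), (nat_lit 0), (nat_lit 780000), [(nat_lit 1977501), (nat_lit 1271251), (nat_lit 1271251)], [(nat_lit 32), (nat_lit 67), (nat_lit 401), (nat_lit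 175), (nat_lit 9)]⟩⟩) (.dle (nat_lit 0))) (.trX (nat_lit 3) (nat_lit 0) (nat_lit 1) (nat_lit 54) (nat_lit 74) (nat_lit 100) (nat_lit 340) (.trX (nat_lit 4) (nat_lit 0) (nat_lit 2) (nat_lit 53) (nat_lit 90) (nat_lit 100) (nat_lit 290) (.leaf ⟨(nat_lit 560), (nat_lit 360), (nat_lit 0), (nat_lit 80), (nat_lit 582), (nat_lit 5476), (nat_lit 4281), (nat_lit 1254), (nat_lit 0), (nat_lit 0), (nat_lit 140000), [((nat_lit 380), [((nat_lit 26), (nat_lit 0), (nat_lit 560))])], ⟨(nat_lit 6), false, true, true, (nat_lit 266), (nat_lit 2236), (nat_lit 2739), [(nat_lit 1581477), (nat_lit 1579788), (nat_lit 1603890), (nat_lit 1602558), (nat_lit 1729131), (nat_lit 1722327), (nat_lit 1751548), (nat_lit 1745101)]⟩, ⟨(nat_lit 5), false, false, true, (nat_lit 204), (nat_lit 2236), (nat_lit 2739), [(nat_lit 1410329), (nat_lit 1408901), (nat_lit 1477581), (nat_lit 1477224), (nat_lit 1543217), (nat_lit 1537186), (nat_lit 1610469), (nat_lit 1605509)]⟩, (nat_lit 5298273), (nat_lit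 37494536), (nat_lit 17879181), (nat_lit 11626283), (nat_lit 5), (nat_lit 0), [], [⟨(nat_lit 1), (nat_lit 100), (nat_lit 50), (nat_lit 100), (nat_lit 99349188)⟩], [], [⟨(nat_lit 0), (nat_lit 100), (nat_lit 92), (nat_lit 66), (nat_lit 185629183)⟩],
 ⟨⟨[(nat_lit 40), (nat_lit 80), (nat_lit 100)], [(nat_lit 0), (nat_lit 2008), (nat_lit 2969)], [((nat_lit 0), (nat_lit 0), (nat_lit 0)), ((nat_lit 1000), (nat_lit 540), (nat_lit 733)), ((nat_lit 1000), (nat_lit 536), (nat_lit 751))], ((nat_lit 53), (nat_lit 100), (nat_lit 83))⟩, (nat_lit 0), (nat_lit 133), (nat_lit 133), (nat_lit 0), (nat_lit 179241), [(nat_lit 1999124482), (nat_lit 3453423327), (nat_lit 3920400000)], [(nat_lit 0), (nat_lit 0), (nat_lit 0)], [(nat_lit 26040006319), (nat_lit 26733307586), (nat_lit 30364600009), (nat_lit 31043180345), (nat_lit 28587434910), (nat_lit 29189169972), (nat_lit 32553948605), (nat_lit 33115253975)], (nat_lit 1271251), (nat_lit 1271251), (nat_lit 1271251), (nat_lit 1271251),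 (nat_lit 1271251), (nat_lit 1271251), [(nat_lit 490000), (nat_lit 1100000), (nat_lit 1442501)], [(nat_lit 3), (nat_lit 50), (nat_lit 203), (nat_lit 0), (nat_lit 6)]⟩,
 ⟨⟨[(nat_lit 100), (nat_lit 140), (nat_lit 180)], [(nat_lit 0), (nat_lit 508), (nat_lit 2854)], [((nat_lit 0), (nat_lit 0), (nat_lit 0)), ((nat_lit 1000), (nat_lit 1000), (nat_lit 198)), ((nat_lit 777), (nat_lit 1000), (nat_lit 712))], ((nat_lit 100), (nat_lit 64), (nat_lit 83))⟩, (nat_lit 1839496), (nat_lit 485), (nat_lit 485), (nat_lit 0), (nat_lit 403717), [(nat_lit 2750000000), (nat_lit 4330480000), (nat_lit 6185520000)], [], [(nat_lit 13743611593), (nat_lit 13948156608), (nat_lit 16206125376), (nat_lit 16285724539), (nat_lit 10912268148), (nat_lit 11088615930), (nat_lit 13079591870), (nat_lit 13145395598)], (nat_lit 1271251), (nat_lit 1271251), (nat_lit 1271251), (nat_lit 1271251), (nat_lit 0), (nat_lit 780000), [(nat_lit 1412501), (nat_lit 1271251), (nat_lit 1271251)], [(nat_lit 24),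 (nat_lit 63), (nat_lit 401), (nat_lit 175), (nat_lit 9)]⟩,
 ⟨⟨[(nat_lit 140), (nat_lit 180), (nat_lit 200)], [(nat_lit 0), (nat_lit 0), (nat_lit 2835)], [((nat_lit 0), (nat_lit 0), (nat_lit 0)), ((nat_lit 0), (nat_lit 0), (nat_lit 0)), ((nat_lit 363), (nat_lit 1000), (nat_lit 798))], ((nat_lit 0), (nat_lit 0), (nat_lit 0))⟩, (nat_lit 22011), (nat_lit 300), (nat_lit 1094), (nat_lit 6248000), (nat_lit 1367713), [(nat_lit 787360000), (nat_lit 1124640000), (nat_lit 1312000000)], [], [(nat_lit 5297182048), (nat_lit 5063059018), (nat_lit 5295747488), (nat_lit 5035606753), (nat_lit 4224603266), (nat_lit 4024884985), (nat_lit 4139020182), (nat_lit 3897987952)], (nat_lit 780000), (nat_lit 1271251), (nat_lit 1271251), (nat_lit 1271251), (nat_lit 0), (nat_lit 780000), [(nat_lit 1977501), (nat_lit 1271251), (nat_lit 1271251)], [(nat_lit 32), (nat_lit 67), (nat_lit 373), (nat_lit 150), (nat_lit 8)]⟩⟩)))))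
noncomputable def c16_54 : Tr Lf :=
 (.stt (nat_lit 1) (.spl (nat_lit 1) (nat_lit 220) (.trX (nat_lit 3) (nat_lit 0) (nat_lit 1) (nat_lit 60) (nat_lit 74) (nat_lit 100) (nat_lit 340) (.spl (nat_lit 2) (nat_lit 160) (.trX (nat_lit 4) (nat_lit 0) (nat_lit 2) (nat_lit 61) (nat_lit 92) (nat_lit 100) (nat_lit 290) (.leaf ⟨(nat_lit 924), (nat_lit 52), (nat_lit 0), (nat_lit 24), (nat_lit 6163), (nat_lit 3462), (nat_lit 824), (nat_lit 281), (nat_lit 0), (nat_lit 0), (nat_lit 231000), [((nat_lit 380), [((nat_lit 26), (nat_lit 0), (nat_lit 924))])], ⟨(nat_lit 6), false, true, true, (nat_lit 253), (nat_lit 2236), (nat_lit 3163), [(nat_lit 1538797), (nat_lit 1534240), (nat_lit 1583107), (nat_lit 1579788), (nat_lit 1691180), (nat_lit 1676779), (nat_lit 1735490), (nat_lit 1722327)]⟩, ⟨(nat_lit 5), false, false, true, (nat_lit 200), (nat_lit 2236), (nat_lit 3163), [(nat_lit 1411379), (nat_lit 1408901), (nat_lit 1455689), (nat_lit 1454450), (nat_lit 1548524), (nat_lit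 1537186), (nat_lit 1592834), (nat_lit 1582735)]⟩, (nat_lit 5220800), (nat_lit 38626645), (nat_lit 16860918), (nat_lit 11512437), (nat_lit 5), (nat_lit 0), [⟨(nat_lit 1), (nat_lit 85), (nat_lit 53), (nat_lit 100), (nat_lit 252700428)⟩], [⟨(nat_lit 1), (nat_lit 100), (nat_lit 54), (nat_lit 98), (nat_lit 229712318)⟩], [], [],
 ⟨⟨[(nat_lit 40), (nat_lit 80), (nat_lit 120)], [(nat_lit 0), (nat_lit 1598), (nat_lit 3468)], [((nat_lit 0), (nat_lit 0), (nat_lit 0)), ((nat_lit 1000), (nat_lit 625), (nat_lit 623)), ((nat_lit 1000), (nat_lit 604), (nat_lit 730))], ((nat_lit 60), (nat_lit 100), (nat_lit 83))⟩, (nat_lit 0), (nat_lit 71), (nat_lit 71), (nat_lit 0), (nat_lit 0), [(nat_lit 1551476820), (nat_lit 1941132812), (nat_lit 2927395200)], [(nat_lit 0), (nat_lit 0), (nat_lit 0)], [(nat_lit 24088627366), (nat_lit 25197383391), (nat_lit 27783133143), (nat_lit 28725968502), (nat_lit 26655680583), (nat_lit 27597714596), (nat_lit 29911639721), (nat_lit 30835291051)],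 (nat_lit 0), (nat_lit 0), (nat_lit 0), (nat_lit 0), (nat_lit 0), (nat_lit 0), [], [(nat_lit 4), (nat_lit 51), (nat_lit 289), (nat_lit 75), (nat_lit 8)]⟩,
 ⟨⟨[(nat_lit 120), (nat_lit 160), (nat_lit 200)], [(nat_lit 0), (nat_lit 533), (nat_lit 3597)], [((nat_lit 0), (nat_lit 0), (nat_lit 0)), ((nat_lit 960), (nat_lit 1000), (nat_lit 200)), ((nat_lit 612), (nat_lit 1000), (nat_lit 732))], ((nat_lit 0), (nat_lit 0), (nat_lit 0))⟩, (nat_lit 206908), (nat_lit 556), (nat_lit 556), (nat_lit 0), (nat_lit 597533), [(nat_lit 605568000), (nat_lit 902272000), (nat_lit 1246400000)], [], [(nat_lit 2612625126), (nat_lit 2601624258), (nat_lit 2827937110), (nat_lit 2791116473), (nat_lit 2959146832), (nat_lit 2814278212), (nat_lit 3016747170), (nat_lit 2984508244)], (nat_lit 1271251), (nat_lit 1271251), (nat_lit 1271251), (nat_lit 1271251), (nat_lit 780000), (nat_lit 3072501), [(nat_lit 1695001), (nat_lit 1271251), (nat_lit 1271251)], [(nat_lit 29), (nat_lit 66), (nat_lit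 483), (nat_lit 250), (nat_lit 10)]⟩,
 ⟨⟨[(nat_lit 140), (nat_lit 180), (nat_lit 200)], [(nat_lit 0), (nat_lit 0), (nat_lit 2835)], [((nat_lit 0), (nat_lit 0), (nat_lit 0)), ((nat_lit 0), (nat_lit 0), (nat_lit 0)), ((nat_lit 363), (nat_lit 1000), (nat_lit 798))], ((nat_lit 0), (nat_lit 0), (nat_lit 0))⟩, (nat_lit 6603), (nat_lit 300), (nat_lit 1114), (nat_lit 1874403), (nat_lit 1610147), [(nat_lit 236208000), (nat_lit 337392000), (nat_lit 393600000)], [], [(nat_lit 1518642621), (nat_lit 1472832322), (nat_lit 1458200154), (nat_lit 1412135186), (nat_lit 1352551934), (nat_lit 1305081872), (nat_lit 1297700244), (nat_lit 1249462839)], (nat_lit 780000), (nat_lit 1100000), (nat_lit 1271251), (nat_lit 1271251), (nat_lit 780000), (nat_lit 3072501), [(nat_lit 1977501), (nat_lit 1271251), (nat_lit 1271251)], [(nat_lit 32), (nat_lit 67), (nat_lit 456), (nat_lit 225), (nat_lit 10)]⟩⟩)) (.spl (nat_lit 6) (nat_lit 68) (.leaf ⟨(nat_lit 0), (nat_lit 0), (nat_lit 0), (nat_lit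 1000), (nat_lit 0), (nat_lit 5579), (nat_lit 13845), (nat_lit 12022), (nat_lit 0), (nat_lit 0), (nat_lit 0), [], Pd.none, Pd.none, (nat_lit 0), (nat_lit 1), (nat_lit 0), (nat_lit 0), (nat_lit 0), (nat_lit 0), [], [], [], [],
 ⟨⟨[(nat_lit 40), (nat_lit 80), (nat_lit 100)], [(nat_lit 0), (nat_lit 1598), (nat_lit 2533)], [((nat_lit 0), (nat_lit 0), (nat_lit 0)), ((nat_lit 1000), (nat_lit 625), (nat_lit 623)), ((nat_lit 1000), (nat_lit 604), (nat_lit 730))], ((nat_lit 60), (nat_lit 100), (nat_lit 75))⟩, (nat_lit 0), (nat_lit 71), (nat_lit 71), (nat_lit 0), (nat_lit 0), [(nat_lit 2669356736), (nat_lit 4688000427), (nat_lit 6250000000)], [], [(nat_lit 25412904868), (nat_lit 26913423180), (nat_lit 29985659516), (nat_lit 31161701287), (nat_lit 29115731398), (nat_lit 30297363699), (nat_lit 32775173448), (nat_lit 33852701299)], (nat_lit 0), (nat_lit 0), (nat_lit 0), (nat_lit 0), (nat_lit 0), (nat_lit 0), [], [(nat_lit 3), (nat_lit 50), (nat_lit 203), (nat_lit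 0), (nat_lit 6)]⟩,
 ⟨⟨[(nat_lit 120), (nat_lit 160), (nat_lit 200)], [(nat_lit 0), (nat_lit 533), (nat_lit 3597)], [((nat_lit 0), (nat_lit 0), (nat_lit 0)), ((nat_lit 960), (nat_lit 1000), (nat_lit 200)), ((nat_lit 612), (nat_lit 1000), (nat_lit 732))], ((nat_lit 0), (nat_lit 0), (nat_lit 0))⟩, (nat_lit 3767697), (nat_lit 409), (nat_lit 409), (nat_lit 0), (nat_lit 262897), [(nat_lit 7968000000), (nat_lit 11872000000), (nat_lit 16400000000)], [], [(nat_lit 27377488448), (nat_lit 26329775156), (nat_lit 32544916089), (nat_lit 32308991839), (nat_lit 39946538530), (nat_lit 36333125185), (nat_lit 43285655907), (nat_lit 42994575139)], (nat_lit 1271251), (nat_lit 1271251), (nat_lit 1271251), (nat_lit 1271251), (nat_lit 780000), (nat_lit 3072501), [(nat_lit 1695001), (nat_lit 1271251), (nat_lit 1271251)], [(nat_lit 29), (nat_lit 66), (nat_lit 483), (nat_lit 250), (nat_lit 10)]⟩,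
 ⟨⟨[(nat_lit 120), (nat_lit 160), (nat_lit 200)], [(nat_lit 0), (nat_lit 0), (nat_lit 3198)], [((nat_lit 0), (nat_lit 0), (nat_lit 0)), ((nat_lit 0), (nat_lit 0), (nat_lit 0)), ((nat_lit 572), (nat_lit 1000), (nat_lit 714))], ((nat_lit 0), (nat_lit 0), (nat_lit 0))⟩, (nat_lit 487805), (nat_lit 300), (nat_lit 500), (nat_lit 74200000), (nat_lit 424917), [(nat_lit 7968000000), (nat_lit 11872000000), (nat_lit 16400000000)], [], [(nat_lit 51047220028), (nat_lit 50763542486), (nat_lit 51527612295), (nat_lit 51107819069), (nat_lit 50951165460), (nat_lit 50820906781), (nat_lit 49301438370), (nat_lit 48638007308)], (nat_lit 1100000), (nat_lit 1271251), (nat_lit 1271251), (nat_lit 1271251), (nat_lit 780000), (nat_lit 3072501), [(nat_lit 1695001), (nat_lit 1271251), (nat_lit 1271251)], [(nat_lit 29), (nat_lit 66), (nat_lit 456), (nat_lit 225), (nat_lit 9)]⟩⟩) (.dle (nat_lit 0))))) (.stt (nat_lit 2) (.leaf ⟨(nat_lit 0), (nat_lit 856), (nat_lit 0), (nat_lit 144),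 (nat_lit 0), (nat_lit 5515), (nat_lit 6888), (nat_lit 1593), (nat_lit 0), (nat_lit 0), (nat_lit 0), [], Pd.none, Pd.none, (nat_lit 0), (nat_lit 1), (nat_lit 0), (nat_lit 0), (nat_lit 5), (nat_lit 0), [], [⟨(nat_lit 1), (nat_lit 99), (nat_lit 54), (nat_lit 100), (nat_lit 474942644)⟩], [⟨(nat_lit 1), (nat_lit 40), (nat_lit 100), (nat_lit 98), (nat_lit 282305022)⟩], [],
 ⟨⟨[(nat_lit 40), (nat_lit 80), (nat_lit 120)], [(nat_lit 0), (nat_lit 1598), (nat_lit 3468)], [((nat_lit 0), (nat_lit 0), (nat_lit 0)), ((nat_lit 1000), (nat_lit 625), (nat_lit 623)), ((nat_lit 1000), (nat_lit 604), (nat_lit 730))], ((nat_lit 60), (nat_lit 100), (nat_lit 83))⟩, (nat_lit 0), (nat_lit 74), (nat_lit 74), (nat_lit 0), (nat_lit 0), [(nat_lit 2331011154), (nat_lit 4688000004), (nat_lit 7968000000)], [], [(nat_lit 25450384189), (nat_lit 26941051717), (nat_lit 30553742058), (nat_lit 31689776120), (nat_lit 29142839151), (nat_lit 30317545588), (nat_lit 33212349373), (nat_lit 34253372925)],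 (nat_lit 0), (nat_lit 0), (nat_lit 0), (nat_lit 0), (nat_lit 0), (nat_lit 0), [], [(nat_lit 4), (nat_lit 51), (nat_lit 317), (nat_lit 100), (nat_lit 9)]⟩,
 ⟨⟨[(nat_lit 100), (nat_lit 140), (nat_lit 180)], [(nat_lit 0), (nat_lit 508), (nat_lit 2854)], [((nat_lit 0), (nat_lit 0), (nat_lit 0)), ((nat_lit 1000), (nat_lit 1000), (nat_lit 198)), ((nat_lit 777), (nat_lit 1000), (nat_lit 712))], ((nat_lit 100), (nat_lit 64), (nat_lit 83))⟩, (nat_lit 0), (nat_lit 117), (nat_lit 117), (nat_lit 0), (nat_lit 0), [(nat_lit 6250000000), (nat_lit 9842000000), (nat_lit 14058000000)], [], [(nat_lit 15653279096), (nat_lit 16669685984), (nat_lit 24759838025), (nat_lit 25364088522), (nat_lit 30227573400), (nat_lit 30509198240), (nat_lit 34969783835), (nat_lit 35099300524)], (nat_lit 0), (nat_lit 0), (nat_lit 0), (nat_lit 0), (nat_lit 0), (nat_lit 0), [], [(nat_lit 24), (nat_lit 63), (nat_lit 483), (nat_lit 250), (nat_lit 11)]⟩,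
 ⟨⟨[(nat_lit 140), (nat_lit 180), (nat_lit 200)], [(nat_lit 0), (nat_lit 0), (nat_lit 2835)], [((nat_lit 0), (nat_lit 0), (nat_lit 0)), ((nat_lit 0), (nat_lit 0), (nat_lit 0)), ((nat_lit 363), (nat_lit 1000), (nat_lit 798))], ((nat_lit 0), (nat_lit 0), (nat_lit 0))⟩, (nat_lit 39619), (nat_lit 300), (nat_lit 1278), (nat_lit 11246401), (nat_lit 1963819), [(nat_lit 1417248000), (nat_lit 2024352000), (nat_lit 2361600000)], [], [(nat_lit 9696217449), (nat_lit 9339114165), (nat_lit 9223620551), (nat_lit 8863960946), (nat_lit 8502926680), (nat_lit 8134581201), (nat_lit 8058367318), (nat_lit 7684135631)], (nat_lit 780000), (nat_lit 1271251), (nat_lit 1271251), (nat_lit 1271251), (nat_lit 780000), (nat_lit 3072501), [(nat_lit 1977501), (nat_lit 1271251), (nat_lit 1271251)], [(nat_lit 32), (nat_lit 67), (nat_lit 456), (nat_lit 225), (nat_lit 10)]⟩⟩) (.leaf ⟨(nat_lit 359), (nat_lit 465), (nat_lit 0), (nat_lit 176), (nat_lit 0), (nat_lit 4700), (nat_lit 5552), (nat_lit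 2028), (nat_lit 0), (nat_lit 0), (nat_lit 89750), [((nat_lit 380), [((nat_lit 26), (nat_lit 0), (nat_lit 359))])], ⟨(nat_lit 6), false, true, true, (nat_lit 270), (nat_lit 2236), (nat_lit 3163), [(nat_lit 1583107), (nat_lit 1579788), (nat_lit 1605240), (nat_lit 1602541), (nat_lit 1750729), (nat_lit 1736581), (nat_lit 1772883), (nat_lit 1759355)]⟩, ⟨(nat_lit 5), false, false, true, (nat_lit 210), (nat_lit 2236), (nat_lit 3163), [(nat_lit 1411379), (nat_lit 1408901), (nat_lit 1477844), (nat_lit 1477224), (nat_lit 1579000), (nat_lit 1565693), (nat_lit 1645465), (nat_lit 1634017)]⟩, (nat_lit 5352774), (nat_lit 36869479), (nat_lit 18062757), (nat_lit 12067764), (nat_lit 5), (nat_lit 0), [], [⟨(nat_lit 1), (nat_lit 99), (nat_lit 54), (nat_lit 100), (nat_lit 295313926)⟩], [⟨(nat_lit 1), (nat_lit 40), (nat_lit 100), (nat_lit 98), (nat_lit 24533503)⟩], [],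
 ⟨⟨[(nat_lit 40), (nat_lit 80), (nat_lit 120)], [(nat_lit 0), (nat_lit 1598), (nat_lit 3468)], [((nat_lit 0), (nat_lit 0), (nat_lit 0)), ((nat_lit 1000), (nat_lit 625), (nat_lit 623)), ((nat_lit 1000), (nat_lit 604), (nat_lit 730))], ((nat_lit 60), (nat_lit 100), (nat_lit 83))⟩, (nat_lit 0), (nat_lit 74), (nat_lit 74), (nat_lit 0), (nat_lit 0), [(nat_lit 1981521531), (nat_lit 3620764816), (nat_lit 6009583200)], [(nat_lit 0), (nat_lit 0), (nat_lit 0)], [(nat_lit 24860430116), (nat_lit 26225654066), (nat_lit 29654030629), (nat_lit 30706905238), (nat_lit 28420809641), (nat_lit 29507319529), (nat_lit 32313097169), (nat_lit 33283668785)], (nat_lit 0), (nat_lit 0), (nat_lit 0), (nat_lit 0), (nat_lit 0), (nat_lit 0), [], [(nat_lit 4), (nat_lit 51), (nat_lit 317), (nat_lit 100), (nat_lit 9)]⟩,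
 ⟨⟨[(nat_lit 100), (nat_lit 140), (nat_lit 180)], [(nat_lit 0), (nat_lit 508), (nat_lit 2854)], [((nat_lit 0), (nat_lit 0), (nat_lit 0)), ((nat_lit 1000), (nat_lit 1000), (nat_lit 198)), ((nat_lit 777), (nat_lit 1000), (nat_lit 712))], ((nat_lit 100), (nat_lit 64), (nat_lit 83))⟩, (nat_lit 1713185), (nat_lit 425), (nat_lit 425), (nat_lit 0), (nat_lit 485366), [(nat_lit 4006250000), (nat_lit 6308722000), (nat_lit 9011178000)], [], [(nat_lit 19765524087), (nat_lit 19893151694), (nat_lit 22283217804), (nat_lit 22283192541), (nat_lit 22617100636), (nat_lit 22580413420), (nat_lit 24040022508), (nat_lit 23909244385)], (nat_lit 1271251), (nat_lit 1271251), (nat_lit 1271251), (nat_lit 1271251), (nat_lit 780000), (nat_lit 3072501), [(nat_lit 1412501), (nat_lit 1271251), (nat_lit 1271251)], [(nat_lit 24), (nat_lit 63), (nat_lit 483), (nat_lit 250), (nat_lit 11)]⟩,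
 ⟨⟨[(nat_lit 140), (nat_lit 180), (nat_lit 200)], [(nat_lit 0), (nat_lit 0), (nat_lit 2835)], [((nat_lit 0), (nat_lit 0), (nat_lit 0)), ((nat_lit 0), (nat_lit 0), (nat_lit 0)), ((nat_lit 363), (nat_lit 1000), (nat_lit 798))], ((nat_lit 0), (nat_lit 0), (nat_lit 0))⟩, (nat_lit 48423), (nat_lit 300), (nat_lit 1009), (nat_lit 13745604), (nat_lit 1367713), [(nat_lit 1732192000), (nat_lit 2474208000), (nat_lit 2886400000)], [], [(nat_lit 11312842204), (nat_lit 10855332496), (nat_lit 10760321321), (nat_lit 10303996993), (nat_lit 10009614656), (nat_lit 9726378160), (nat_lit 9555226958), (nat_lit 9079077840)], (nat_lit 780000), (nat_lit 1271251), (nat_lit 1271251), (nat_lit 1271251), (nat_lit 780000), (nat_lit 3072501), [(nat_lit 1977501), (nat_lit 1271251), (nat_lit 1271251)], [(nat_lit 32), (nat_lit 67), (nat_lit 456), (nat_lit 225), (nat_lit 10)]⟩⟩))) (.spl (nat_lit 0) (nat_lit 370) (.spl (nat_lit 6) (nat_lit 72) (.leaf ⟨(nat_lit 0), (nat_lit 543), (nat_lit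 0), (nat_lit 457), (nat_lit 0), (nat_lit 6171), (nat_lit 10723), (nat_lit 5456), (nat_lit 0), (nat_lit 0), (nat_lit 0), [], Pd.none, Pd.none, (nat_lit 0), (nat_lit 1), (nat_lit 0), (nat_lit 0), (nat_lit 5), (nat_lit 0), [], [], [], [],
 ⟨⟨[(nat_lit 40), (nat_lit 80), (nat_lit 100)], [(nat_lit 0), (nat_lit 1598), (nat_lit 2533)], [((nat_lit 0), (nat_lit 0), (nat_lit 0)), ((nat_lit 1000), (nat_lit 625), (nat_lit 623)), ((nat_lit 1000), (nat_lit 604), (nat_lit 730))], ((nat_lit 60), (nat_lit 100), (nat_lit 77))⟩, (nat_lit 389217), (nat_lit 113), (nat_lit 113), (nat_lit 0), (nat_lit 108491), [(nat_lit 2531817447), (nat_lit 5213854599), (nat_lit 6250000000)], [], [(nat_lit 26248208656), (nat_lit 26990097895), (nat_lit 31215435756), (nat_lit 31777655390), (nat_lit 29732087161), (nat_lit 30313951027), (nat_lit 33936164644), (nat_lit 34485030083)], (nat_lit 1271251), (nat_lit 1271251), (nat_lit 1271251), (nat_lit 1271251), (nat_lit 1271251), (nat_lit 1271251),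 [(nat_lit 490000), (nat_lit 1100000), (nat_lit 1442501)], [(nat_lit 3), (nat_lit 50), (nat_lit 203), (nat_lit 0), (nat_lit 6)]⟩,
 ⟨⟨[(nat_lit 120), (nat_lit 160), (nat_lit 200)], [(nat_lit 0), (nat_lit 533), (nat_lit 3597)], [((nat_lit 0), (nat_lit 0), (nat_lit 0)), ((nat_lit 960), (nat_lit 1000), (nat_lit 200)), ((nat_lit 612), (nat_lit 1000), (nat_lit 732))], ((nat_lit 0), (nat_lit 0), (nat_lit 0))⟩, (nat_lit 3599566), (nat_lit 304), (nat_lit 304), (nat_lit 0), (nat_lit 158595), [(nat_lit 7968000000), (nat_lit 11872000000), (nat_lit 16400000000)], [], [(nat_lit 27510655797), (nat_lit 27548955550), (nat_lit 33241736343), (nat_lit 33167888121), (nat_lit 38896066702), (nat_lit 35856461066), (nat_lit 39993888163), (nat_lit 39857233542)], (nat_lit 1271251), (nat_lit 1271251), (nat_lit 1271251), (nat_lit 1271251), (nat_lit 780000), (nat_lit 3072501), [(nat_lit 1695001), (nat_lit 1271251), (nat_lit 1271251)], [(nat_lit 29), (nat_lit 66), (nat_lit 483), (nat_lit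 250), (nat_lit 10)]⟩,
 ⟨⟨[(nat_lit 140), (nat_lit 180), (nat_lit 200)], [(nat_lit 0), (nat_lit 0), (nat_lit 2835)], [((nat_lit 0), (nat_lit 0), (nat_lit 0)), ((nat_lit 0), (nat_lit 0), (nat_lit 0)), ((nat_lit 363), (nat_lit 1000), (nat_lit 798))], ((nat_lit 0), (nat_lit 0), (nat_lit 0))⟩, (nat_lit 125735), (nat_lit 300), (nat_lit 637), (nat_lit 35691707), (nat_lit 583481), [(nat_lit 4497794000), (nat_lit 6424506000), (nat_lit 7494800000)], [], [(nat_lit 27564564572), (nat_lit 26475613026), (nat_lit 26860520643), (nat_lit 25697695365), (nat_lit 25462486904), (nat_lit 25535437400), (nat_lit 24231219434), (nat_lit 23003274005)], (nat_lit 780000), (nat_lit 1271251), (nat_lit 1271251), (nat_lit 1271251), (nat_lit 780000), (nat_lit 3072501), [(nat_lit 1977501), (nat_lit 1271251), (nat_lit 1271251)], [(nat_lit 32), (nat_lit 67), (nat_lit 456), (nat_lit 225), (nat_lit 10)]⟩⟩) (.dle (nat_lit 0))) (.trX (nat_lit 3) (nat_lit 0) (nat_lit 1) (nat_lit 54) (nat_lit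 74) (nat_lit 100) (nat_lit 340) (.trX (nat_lit 4) (nat_lit 0) (nat_lit 2) (nat_lit 53) (nat_lit 90) (nat_lit 100) (nat_lit 290) (.leaf ⟨(nat_lit 363), (nat_lit 383), (nat_lit 0), (nat_lit 254), (nat_lit 0), (nat_lit 3800), (nat_lit 7623), (nat_lit 2928), (nat_lit 0), (nat_lit 0), (nat_lit 90750), [((nat_lit 380), [((nat_lit 26), (nat_lit 0), (nat_lit 363))])], ⟨(nat_lit 6), false, true, true, (nat_lit 257), (nat_lit 2236), (nat_lit 2739), [(nat_lit 1536642), (nat_lit 1534240), (nat_lit 1603890), (nat_lit 1602558), (nat_lit 1684296), (nat_lit 1676779), (nat_lit 1751548), (nat_lit 1745101)]⟩, ⟨(nat_lit 5), false, false, true, (nat_lit 204), (nat_lit 2236), (nat_lit 2739), [(nat_lit 1410329), (nat_lit 1408901), (nat_lit 1477581), (nat_lit 1477224), (nat_lit 1543217), (nat_lit 1537186), (nat_lit 1610469), (nat_lit 1605509)]⟩, (nat_lit 5263043), (nat_lit 38131085), (nat_lit 17102070), (nat_lit 11766845), (nat_lit 5), (nat_lit 0), [], [⟨(nat_lit 1), (nat_lit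 100), (nat_lit 50), (nat_lit 100), (nat_lit 146078278)⟩], [], [],
 ⟨⟨[(nat_lit 40), (nat_lit 80), (nat_lit 100)], [(nat_lit 0), (nat_lit 2008), (nat_lit 2969)], [((nat_lit 0), (nat_lit 0), (nat_lit 0)), ((nat_lit 1000), (nat_lit 540), (nat_lit 733)), ((nat_lit 1000), (nat_lit 536), (nat_lit 751))], ((nat_lit 53), (nat_lit 100), (nat_lit 83))⟩, (nat_lit 938573), (nat_lit 133), (nat_lit 133), (nat_lit 0), (nat_lit 179349), [(nat_lit 1701151610), (nat_lit 3831904511), (nat_lit 4739920000)], [(nat_lit 0), (nat_lit 0), (nat_lit 0)], [(nat_lit 25061824973), (nat_lit 25605713173), (nat_lit 28650292476), (nat_lit 29114626000), (nat_lit 27460311238), (nat_lit 27946903913), (nat_lit 30739405469), (nat_lit 31217926338)], (nat_lit 1271251), (nat_lit 1271251), (nat_lit 1271251), (nat_lit 1271251), (nat_lit 1271251), (nat_lit 1271251), [(nat_lit 490000), (nat_lit 1100000), (nat_lit 1442501)], [(nat_lit 3), (nat_lit 50), (nat_lit 203), (nat_lit 0), (nat_lit 6)]⟩,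
 ⟨⟨[(nat_lit 120), (nat_lit 160), (nat_lit 200)], [(nat_lit 0), (nat_lit 533), (nat_lit 3597)], [((nat_lit 0), (nat_lit 0), (nat_lit 0)), ((nat_lit 960), (nat_lit 1000), (nat_lit 200)), ((nat_lit 612), (nat_lit 1000), (nat_lit 732))], ((nat_lit 0), (nat_lit 0), (nat_lit 0))⟩, (nat_lit 2063268), (nat_lit 426), (nat_lit 426), (nat_lit 0), (nat_lit 303079), [(nat_lit 5075616000), (nat_lit 7562464000), (nat_lit 10446800000)], [], [(nat_lit 19680318322), (nat_lit 19449240538), (nat_lit 22041054204), (nat_lit 21836769653), (nat_lit 25043432974), (nat_lit 22671769284), (nat_lit 25986498600), (nat_lit 25862332923)], (nat_lit 1271251), (nat_lit 1271251), (nat_lit 1271251), (nat_lit 1271251), (nat_lit 780000), (nat_lit 3072501), [(nat_lit 1695001), (nat_lit 1271251), (nat_lit 1271251)], [(nat_lit 29), (nat_lit 66), (nat_lit 483), (nat_lit 250), (nat_lit 10)]⟩,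
 ⟨⟨[(nat_lit 140), (nat_lit 180), (nat_lit 200)], [(nat_lit 0), (nat_lit 0), (nat_lit 2835)], [((nat_lit 0), (nat_lit 0), (nat_lit 0)), ((nat_lit 0), (nat_lit 0), (nat_lit 0)), ((nat_lit 363), (nat_lit 1000), (nat_lit 798))], ((nat_lit 0), (nat_lit 0), (nat_lit 0))⟩, (nat_lit 69884), (nat_lit 300), (nat_lit 847), (nat_lit 19837400), (nat_lit 1019984), [(nat_lit 2499868000), (nat_lit 3570732000), (nat_lit 4165600000)], [], [(nat_lit 16169872546), (nat_lit 15531516081), (nat_lit 15614109129), (nat_lit 14959915705), (nat_lit 14441969472), (nat_lit 14038739728), (nat_lit 13875593604), (nat_lit 13192933829)], (nat_lit 780000), (nat_lit 1271251), (nat_lit 1271251), (nat_lit 1271251), (nat_lit 780000), (nat_lit 3072501), [(nat_lit 1977501), (nat_lit 1271251), (nat_lit 1271251)], [(nat_lit 32), (nat_lit 67), (nat_lit 456), (nat_lit 225), (nat_lit 10)]⟩⟩)))))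
noncomputable def c16_55 : Tr Lf :=
 (.spl (nat_lit 3) (nat_lit 200) (.spl (nat_lit 1) (nat_lit 220) (.leaf ⟨(nat_lit 962), (nat_lit 0), (nat_lit 0), (nat_lit 38), (nat_lit 6630), (nat_lit 3277), (nat_lit 527), (nat_lit 755), (nat_lit 0), (nat_lit 468883), (nat_lit 426600), [((nat_lit 380), [((nat_lit 25), (nat_lit 1), (nat_lit 753)), ((nat_lit 41), (nat_lit 2), (nat_lit 209))])], ⟨(nat_lit 4), false, false, false, (nat_lit 176), (nat_lit 2236), (nat_lit 3163), [(nat_lit 1355794), (nat_lit 1363050), (nat_lit 1399976), (nat_lit 1408471), (nat_lit 1477844), (nat_lit 1477224), (nat_lit 1522091), (nat_lit 1522710)]⟩, ⟨(nat_lit 5), false, true, true, (nat_lit 219), (nat_lit 2236), (nat_lit 3163), [(nat_lit 1477844), (nat_lit 1477224), (nat_lit 1499999), (nat_lit 1499999), (nat_lit 1599750), (nat_lit 1591255), (nat_lit 1621905), (nat_lit 1614030)]⟩, (nat_lit 4855009), (nat_lit 42649706), (nat_lit 10098672), (nat_lit 14251622), (nat_lit 0), (nat_lit 0), [],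 [], [⟨(nat_lit 0), (nat_lit 100), (nat_lit 99), (nat_lit 10), (nat_lit 12728832)⟩], [],
 ⟨⟨[(nat_lit 40), (nat_lit 80), (nat_lit 100)], [(nat_lit 0), (nat_lit 1598), (nat_lit 2533)], [((nat_lit 0), (nat_lit 0), (nat_lit 0)), ((nat_lit 1000), (nat_lit 625), (nat_lit 623)), ((nat_lit 1000), (nat_lit 604), (nat_lit 730))], ((nat_lit 60), (nat_lit 100), (nat_lit 75))⟩, (nat_lit 2584), (nat_lit 102), (nat_lit 102), (nat_lit 0), (nat_lit 50817), [(nat_lit 1379800966), (nat_lit 1044558081), (nat_lit 777336000)], [(nat_lit 0), (nat_lit 0), (nat_lit 0)], [(nat_lit 21510268016), (nat_lit 22729948068), (nat_lit 22806154659), (nat_lit 23895983243), (nat_lit 24023204948), (nat_lit 25077194410), (nat_lit 25047268905), (nat_lit 25997119363)], (nat_lit 1271251), (nat_lit 1271251), (nat_lit 780000), (nat_lit 1435001), (nat_lit 1271251), (nat_lit 1271251), [(nat_lit 490000), (nat_lit 1100000), (nat_lit 1442501)], [(nat_lit 3), (nat_lit 50), (nat_lit 260), (nat_lit 50),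 (nat_lit 8)]⟩,
 ⟨⟨[(nat_lit 120), (nat_lit 160), (nat_lit 200)], [(nat_lit 0), (nat_lit 533), (nat_lit 3597)], [((nat_lit 0), (nat_lit 0), (nat_lit 0)), ((nat_lit 960), (nat_lit 1000), (nat_lit 200)), ((nat_lit 612), (nat_lit 1000), (nat_lit 732))], ((nat_lit 0), (nat_lit 0), (nat_lit 0))⟩, (nat_lit 167733), (nat_lit 534), (nat_lit 534), (nat_lit 0), (nat_lit 194292), [(nat_lit 302784000), (nat_lit 451136000), (nat_lit 623200000)], [], [(nat_lit 1441394144), (nat_lit 1438236745), (nat_lit 1653821967), (nat_lit 1389410030), (nat_lit 2524640642), (nat_lit 2050360141), (nat_lit 3062345168), (nat_lit 2599991204)], (nat_lit 1271251), (nat_lit 1271251), (nat_lit 780000), (nat_lit 1435001), (nat_lit 0), (nat_lit 2825001), [(nat_lit 1695001), (nat_lit 1271251), (nat_lit 1271251)], [(nat_lit 29), (nat_lit 66), (nat_lit 456), (nat_lit 225), (nat_lit 10)]⟩,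
 ⟨⟨[(nat_lit 120), (nat_lit 160), (nat_lit 200)], [(nat_lit 0), (nat_lit 533), (nat_lit 3597)], [((nat_lit 0), (nat_lit 0), (nat_lit 0)), ((nat_lit 960), (nat_lit 1000), (nat_lit 200)), ((nat_lit 612), (nat_lit 1000), (nat_lit 732))], ((nat_lit 0), (nat_lit 0), (nat_lit 0))⟩, (nat_lit 20227), (nat_lit 300), (nat_lit 517), (nat_lit 2752219), (nat_lit 244631), [(nat_lit 302784000), (nat_lit 451136000), (nat_lit 623200000)], [], [(nat_lit 2340689740), (nat_lit 2312130476), (nat_lit 2301306547), (nat_lit 2266954631), (nat_lit 3050719000), (nat_lit 2719526170), (nat_lit 1750862428), (nat_lit 1716510512)], (nat_lit 1271251), (nat_lit 1271251), (nat_lit 1271251), (nat_lit 1271251), (nat_lit 0), (nat_lit 2825001), [(nat_lit 1695001), (nat_lit 1271251), (nat_lit 1271251)], [(nat_lit 29), (nat_lit 66), (nat_lit 456), (nat_lit 225), (nat_lit 10)]⟩⟩) (.spl (nat_lit 6) (nat_lit 60) (.leaf ⟨(nat_lit 920), (nat_lit 0), (nat_lit 0), (nat_lit 80), (nat_lit 1320), (nat_lit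 3367), (nat_lit 696), (nat_lit 968), (nat_lit 0), (nat_lit 0), (nat_lit 430800), [((nat_lit 380), [((nat_lit 25), (nat_lit 1), (nat_lit 606)), ((nat_lit 41), (nat_lit 2), (nat_lit 314))])], ⟨(nat_lit 5), false, false, false, (nat_lit 190), (nat_lit 2236), (nat_lit 3163), [(nat_lit 1399976), (nat_lit 1408471), (nat_lit 1422068), (nat_lit 1431182), (nat_lit 1522091), (nat_lit 1522710), (nat_lit 1544182), (nat_lit 1545421)]⟩, ⟨(nat_lit 5), false, true, true, (nat_lit 219), (nat_lit 2236), (nat_lit 3163), [(nat_lit 1477844), (nat_lit 1477224), (nat_lit 1499999), (nat_lit 1499999), (nat_lit 1599750), (nat_lit 1591255), (nat_lit 1621905), (nat_lit 1614030)]⟩, (nat_lit 4965674), (nat_lit 41744163), (nat_lit 11191350), (nat_lit 14064487), (nat_lit 0), (nat_lit 0), [⟨(nat_lit 0), (nat_lit 100), (nat_lit 53), (nat_lit 93), (nat_lit 65678611)⟩], [], [⟨(nat_lit 0), (nat_lit 100), (nat_lit 99), (nat_lit 10), (nat_lit 36891971)⟩], [],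
 ⟨⟨[(nat_lit 40), (nat_lit 80), (nat_lit 100)], [(nat_lit 0), (nat_lit 1598), (nat_lit 2533)], [((nat_lit 0), (nat_lit 0), (nat_lit 0)), ((nat_lit 1000), (nat_lit 625), (nat_lit 623)), ((nat_lit 1000), (nat_lit 604), (nat_lit 730))], ((nat_lit 61), (nat_lit 100), (nat_lit 72))⟩, (nat_lit 0), (nat_lit 110), (nat_lit 110), (nat_lit 0), (nat_lit 75975), [(nat_lit 1388016037), (nat_lit 1100888353), (nat_lit 830289600)], [(nat_lit 0), (nat_lit 0), (nat_lit 0)], [(nat_lit 21468324699), (nat_lit 22703401591), (nat_lit 22750968067), (nat_lit 23853742138), (nat_lit 23993628486), (nat_lit 25120676761), (nat_lit 24999822718), (nat_lit 26079371195)], (nat_lit 1271251), (nat_lit 1271251), (nat_lit 780000), (nat_lit 1435001), (nat_lit 1271251), (nat_lit 1271251), [(nat_lit 490000), (nat_lit 1100000), (nat_lit 1442501)], [(nat_lit 3), (nat_lit 50), (nat_lit 260), (nat_lit 50), (nat_lit 8)]⟩,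
 ⟨⟨[(nat_lit 100), (nat_lit 140), (nat_lit 180)], [(nat_lit 0), (nat_lit 508), (nat_lit 2854)], [((nat_lit 0), (nat_lit 0), (nat_lit 0)), ((nat_lit 1000), (nat_lit 1000), (nat_lit 198)), ((nat_lit 777), (nat_lit 1000), (nat_lit 712))], ((nat_lit 100), (nat_lit 77), (nat_lit 72))⟩, (nat_lit 223905), (nat_lit 444), (nat_lit 444), (nat_lit 0), (nat_lit 203561), [(nat_lit 500000000), (nat_lit 787360000), (nat_lit 1124640000)], [], [(nat_lit 3301112884), (nat_lit 2930171680), (nat_lit 2879066666), (nat_lit 2902276046), (nat_lit 3343971664), (nat_lit 3022473952), (nat_lit 4116035684), (nat_lit 3802848560)], (nat_lit 1271251), (nat_lit 1271251), (nat_lit 780000), (nat_lit 1435001), (nat_lit 0), (nat_lit 2825001), [(nat_lit 1412501), (nat_lit 1271251), (nat_lit 1271251)], [(nat_lit 24), (nat_lit 63), (nat_lit 456), (nat_lit 225), (nat_lit 11)]⟩,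
 ⟨⟨[(nat_lit 120), (nat_lit 160), (nat_lit 180)], [(nat_lit 0), (nat_lit 533), (nat_lit 2066)], [((nat_lit 0), (nat_lit 0), (nat_lit 0)), ((nat_lit 960), (nat_lit 1000), (nat_lit 200)), ((nat_lit 615), (nat_lit 1000), (nat_lit 729))], ((nat_lit 100), (nat_lit 63), (nat_lit 72))⟩, (nat_lit 38299), (nat_lit 300), (nat_lit 509), (nat_lit 5808417), (nat_lit 363447), [(nat_lit 637440000), (nat_lit 949760000), (nat_lit 1124640000)], [], [(nat_lit 4190386014), (nat_lit 4166961938), (nat_lit 4179235988), (nat_lit 4164787456), (nat_lit 5445520192), (nat_lit 5020891504), (nat_lit 3757398856), (nat_lit 3404687192)], (nat_lit 1271251), (nat_lit 1271251), (nat_lit 1271251), (nat_lit 1271251), (nat_lit 0), (nat_lit 2825001), [(nat_lit 1695001), (nat_lit 1271251), (nat_lit 1271251)], [(nat_lit 28), (nat_lit 65), (nat_lit 456), (nat_lit 225), (nat_lit 11)]⟩⟩) (.spl (nat_lit 1) (nat_lit 230) (.leaf ⟨(nat_lit 920), (nat_lit 0), (nat_lit 0), (nat_lit 80), (nat_lit 9055),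 (nat_lit 3285), (nat_lit 669), (nat_lit 840), (nat_lit 0), (nat_lit 0), (nat_lit 436400), [((nat_lit 380), [((nat_lit 25), (nat_lit 1), (nat_lit 578)), ((nat_lit 41), (nat_lit 2), (nat_lit 342))])], ⟨(nat_lit 5), false, false, false, (nat_lit 188), (nat_lit 2236), (nat_lit 3163), [(nat_lit 1399976), (nat_lit 1408471), (nat_lit 1411022), (nat_lit 1419827), (nat_lit 1522091), (nat_lit 1522710), (nat_lit 1533137), (nat_lit 1534066)]⟩, ⟨(nat_lit 5), false, true, true, (nat_lit 219), (nat_lit 2236), (nat_lit 3163), [(nat_lit 1477844), (nat_lit 1477224), (nat_lit 1499999), (nat_lit 1499999), (nat_lit 1599750), (nat_lit 1591255), (nat_lit 1621905), (nat_lit 1614030)]⟩, (nat_lit 4947989), (nat_lit 41895508), (nat_lit 11008083), (nat_lit 14096409), (nat_lit 0), (nat_lit 0), [⟨(nat_lit 0), (nat_lit 100), (nat_lit 44), (nat_lit 97), (nat_lit 85022114)⟩], [], [⟨(nat_lit 0), (nat_lit 100), (nat_lit 99), (nat_lit 8), (nat_lit 483312)⟩, ⟨(nat_lit 0), (nat_lit 100),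 (nat_lit 99), (nat_lit 15), (nat_lit 42649675)⟩], [],
 ⟨⟨[(nat_lit 40), (nat_lit 80), (nat_lit 100)], [(nat_lit 0), (nat_lit 1598), (nat_lit 2533)], [((nat_lit 0), (nat_lit 0), (nat_lit 0)), ((nat_lit 1000), (nat_lit 625), (nat_lit 623)), ((nat_lit 1000), (nat_lit 604), (nat_lit 730))], ((nat_lit 60), (nat_lit 100), (nat_lit 75))⟩, (nat_lit 0), (nat_lit 86), (nat_lit 86), (nat_lit 0), (nat_lit 31976), [(nat_lit 1385552014), (nat_lit 1068087913), (nat_lit 784660800)], [(nat_lit 0), (nat_lit 0), (nat_lit 0)], [(nat_lit 21520141824), (nat_lit 22741190484), (nat_lit 22814851287), (nat_lit 23905830581), (nat_lit 24034178032), (nat_lit 25089308945), (nat_lit 25056653569), (nat_lit 26004430637)], (nat_lit 1271251), (nat_lit 1271251), (nat_lit 780000), (nat_lit 1435001), (nat_lit 1271251), (nat_lit 1271251), [(nat_lit 490000), (nat_lit 1100000), (nat_lit 1442501)], [(nat_lit 3), (nat_lit 50), (nat_lit 260), (nat_lit 50), (nat_lit 8)]⟩,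
 ⟨⟨[(nat_lit 100), (nat_lit 140), (nat_lit 180)], [(nat_lit 0), (nat_lit 508), (nat_lit 2854)], [((nat_lit 0), (nat_lit 0), (nat_lit 0)), ((nat_lit 1000), (nat_lit 1000), (nat_lit 198)), ((nat_lit 777), (nat_lit 1000), (nat_lit 712))], ((nat_lit 100), (nat_lit 74), (nat_lit 76))⟩, (nat_lit 172643), (nat_lit 397), (nat_lit 397), (nat_lit 0), (nat_lit 92315), [(nat_lit 500000000), (nat_lit 787360000), (nat_lit 1124640000)], [], [(nat_lit 3273914664), (nat_lit 3096740225), (nat_lit 3066660771), (nat_lit 3078522130), (nat_lit 3342685006), (nat_lit 3188172097), (nat_lit 4092929314), (nat_lit 3942410502)], (nat_lit 1271251), (nat_lit 1271251), (nat_lit 780000), (nat_lit 1435001), (nat_lit 0), (nat_lit 2825001), [(nat_lit 1412501), (nat_lit 1271251), (nat_lit 1271251)], [(nat_lit 24), (nat_lit 63), (nat_lit 456), (nat_lit 225), (nat_lit 11)]⟩,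
 ⟨⟨[(nat_lit 120), (nat_lit 160), (nat_lit 200)], [(nat_lit 0), (nat_lit 533), (nat_lit 3597)], [((nat_lit 0), (nat_lit 0), (nat_lit 0)), ((nat_lit 960), (nat_lit 1000), (nat_lit 200)), ((nat_lit 612), (nat_lit 1000), (nat_lit 732))], ((nat_lit 0), (nat_lit 0), (nat_lit 0))⟩, (nat_lit 42583), (nat_lit 300), (nat_lit 473), (nat_lit 5794146), (nat_lit 137902), [(nat_lit 637440000), (nat_lit 949760000), (nat_lit 1312000000)], [], [(nat_lit 4857745781), (nat_lit 4835130415), (nat_lit 4844307665), (nat_lit 4818887560), (nat_lit 5244285760), (nat_lit 4875806320), (nat_lit 4046743980), (nat_lit 4005168920)], (nat_lit 1271251), (nat_lit 1271251), (nat_lit 1271251), (nat_lit 1271251), (nat_lit 0), (nat_lit 2825001), [(nat_lit 1695001), (nat_lit 1271251), (nat_lit 1271251)], [(nat_lit 29), (nat_lit 66), (nat_lit 456), (nat_lit 225), (nat_lit 10)]⟩⟩) (.leaf ⟨(nat_lit 879), (nat_lit 0), (nat_lit 0), (nat_lit 121), (nat_lit 8682), (nat_lit 3478), (nat_lit 985), (nat_lit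 1273), (nat_lit 0), (nat_lit 0), (nat_lit 411900), [((nat_lit 380), [((nat_lit 25), (nat_lit 0), (nat_lit 330)), ((nat_lit 41), (nat_lit 2), (nat_lit 549))])], ⟨(nat_lit 5), false, false, false, (nat_lit 192), (nat_lit 2236), (nat_lit 3163), [(nat_lit 1411022), (nat_lit 1419827), (nat_lit 1422068), (nat_lit 1431182), (nat_lit 1533137), (nat_lit 1534066), (nat_lit 1544182), (nat_lit 1545421)]⟩, ⟨(nat_lit 5), false, true, true, (nat_lit 219), (nat_lit 2236), (nat_lit 3163), [(nat_lit 1477844), (nat_lit 1477224), (nat_lit 1499999), (nat_lit 1499999), (nat_lit 1599750), (nat_lit 1591255), (nat_lit 1621905), (nat_lit 1614030)]⟩, (nat_lit 4983061), (nat_lit 41592647), (nat_lit 11375079), (nat_lit 14032274), (nat_lit 0), (nat_lit 0), [⟨(nat_lit 0), (nat_lit 100), (nat_lit 44), (nat_lit 99), (nat_lit 146508125)⟩], [⟨(nat_lit 1), (nat_lit 88), (nat_lit 53), (nat_lit 100), (nat_lit 81717356)⟩], [⟨(nat_lit 0), (nat_lit 100), (nat_lit 99), (nat_lit 13), (nat_lit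 44538239)⟩, ⟨(nat_lit 0), (nat_lit 100), (nat_lit 99), (nat_lit 5), (nat_lit 7057724)⟩], [],
 ⟨⟨[(nat_lit 40), (nat_lit 80), (nat_lit 100)], [(nat_lit 0), (nat_lit 1598), (nat_lit 2533)], [((nat_lit 0), (nat_lit 0), (nat_lit 0)), ((nat_lit 1000), (nat_lit 625), (nat_lit 623)), ((nat_lit 1000), (nat_lit 604), (nat_lit 730))], ((nat_lit 60), (nat_lit 100), (nat_lit 75))⟩, (nat_lit 0), (nat_lit 87), (nat_lit 87), (nat_lit 0), (nat_lit 32387), [(nat_lit 1432571827), (nat_lit 1251822845), (nat_lit 1062984400)], [(nat_lit 0), (nat_lit 0), (nat_lit 0)], [(nat_lit 21610331335), (nat_lit 22882511343), (nat_lit 22876641330), (nat_lit 23995981253), (nat_lit 24190226628), (nat_lit 25333663966), (nat_lit 25156772586), (nat_lit 26180815122)], (nat_lit 1271251), (nat_lit 1271251), (nat_lit 780000), (nat_lit 1435001), (nat_lit 1271251), (nat_lit 1271251), [(nat_lit 490000), (nat_lit 1100000), (nat_lit 1442501)], [(nat_lit 3), (nat_lit 50), (nat_lit 260), (nat_lit 50),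 (nat_lit 8)]⟩,
 ⟨⟨[(nat_lit 100), (nat_lit 140), (nat_lit 180)], [(nat_lit 0), (nat_lit 766), (nat_lit 3056)], [((nat_lit 0), (nat_lit 0), (nat_lit 0)), ((nat_lit 1000), (nat_lit 1000), (nat_lit 299)), ((nat_lit 809), (nat_lit 1000), (nat_lit 722))], ((nat_lit 100), (nat_lit 77), (nat_lit 76))⟩, (nat_lit 102412), (nat_lit 393), (nat_lit 393), (nat_lit 0), (nat_lit 85186), [(nat_lit 756250000), (nat_lit 1190882000), (nat_lit 1701018000)], [], [(nat_lit 4662252679), (nat_lit 4480606624), (nat_lit 4487158917), (nat_lit 4515444012), (nat_lit 4990192235), (nat_lit 4993944206), (nat_lit 5945950999), (nat_lit 5724335110)], (nat_lit 1271251), (nat_lit 1271251), (nat_lit 780000), (nat_lit 1435001), (nat_lit 0), (nat_lit 2825001), [(nat_lit 1412501), (nat_lit 1271251), (nat_lit 1271251)], [(nat_lit 24), (nat_lit 63), (nat_lit 456), (nat_lit 225), (nat_lit 11)]⟩,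
 ⟨⟨[(nat_lit 120), (nat_lit 160), (nat_lit 200)], [(nat_lit 0), (nat_lit 533), (nat_lit 3597)], [((nat_lit 0), (nat_lit 0), (nat_lit 0)), ((nat_lit 960), (nat_lit 1000), (nat_lit 200)), ((nat_lit 612), (nat_lit 1000), (nat_lit 732))], ((nat_lit 0), (nat_lit 0), (nat_lit 0))⟩, (nat_lit 64407), (nat_lit 300), (nat_lit 473), (nat_lit 8763645), (nat_lit 139548), [(nat_lit 964128000), (nat_lit 1436512000), (nat_lit 1984400000)], [], [(nat_lit 7345941989), (nat_lit 7311581133), (nat_lit 7325207935), (nat_lit 7288412492), (nat_lit 7935912572), (nat_lit 7377490754), (nat_lit 6116734701), (nat_lit 6053654674)], (nat_lit 1271251), (nat_lit 1271251), (nat_lit 1271251), (nat_lit 1271251), (nat_lit 0), (nat_lit 2825001), [(nat_lit 1695001), (nat_lit 1271251), (nat_lit 1271251)], [(nat_lit 29), (nat_lit 66), (nat_lit 456), (nat_lit 225), (nat_lit 10)]⟩⟩)))) (.leaf ⟨(nat_lit 922), (nat_lit 0), (nat_lit 0), (nat_lit 78), (nat_lit 285), (nat_lit 3714), (nat_lit 1012),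 (nat_lit 1029), (nat_lit 0), (nat_lit 414165), (nat_lit 230500), [((nat_lit 380), [((nat_lit 25), (nat_lit 0), (nat_lit 922))])], ⟨(nat_lit 5), false, true, true, (nat_lit 216), (nat_lit 2236), (nat_lit 3163), [(nat_lit 1477844), (nat_lit 1477224), (nat_lit 1544182), (nat_lit 1545421), (nat_lit 1538797), (nat_lit 1534240), (nat_lit 1605240), (nat_lit 1602541)]⟩, ⟨(nat_lit 5), false, true, true, (nat_lit 219), (nat_lit 2236), (nat_lit 3163), [(nat_lit 1477844), (nat_lit 1477224), (nat_lit 1499999), (nat_lit 1499999), (nat_lit 1599750), (nat_lit 1591255), (nat_lit 1621905), (nat_lit 1614030)]⟩, (nat_lit 5152173), (nat_lit 39947552), (nat_lit 13385647), (nat_lit 13666801), (nat_lit 0), (nat_lit 0), [], [], [], [⟨(nat_lit 0), (nat_lit 98), (nat_lit 100), (nat_lit 30), (nat_lit 40471086)⟩],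
 ⟨⟨[(nat_lit 40), (nat_lit 80), (nat_lit 100)], [(nat_lit 0), (nat_lit 1598), (nat_lit 2533)], [((nat_lit 0), (nat_lit 0), (nat_lit 0)), ((nat_lit 1000), (nat_lit 625), (nat_lit 623)), ((nat_lit 1000), (nat_lit 604), (nat_lit 730))], ((nat_lit 60), (nat_lit 100), (nat_lit 75))⟩, (nat_lit 0), (nat_lit 79), (nat_lit 79), (nat_lit 0), (nat_lit 76124), [(nat_lit 1557534915), (nat_lit 1947447417), (nat_lit 2440296000)], [(nat_lit 0), (nat_lit 0), (nat_lit 0)], [(nat_lit 22773545093), (nat_lit 24044584407), (nat_lit 23767416830), (nat_lit 24977995332), (nat_lit 25277983840), (nat_lit 26396497705), (nat_lit 26109283859), (nat_lit 27225131042)], (nat_lit 1271251), (nat_lit 1271251), (nat_lit 1271251), (nat_lit 1271251), (nat_lit 1271251), (nat_lit 1271251), [(nat_lit 490000), (nat_lit 1100000), (nat_lit 1442501)], [(nat_lit 3), (nat_lit 50), (nat_lit 203), (nat_lit 0), (nat_lit 6)]⟩,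
 ⟨⟨[(nat_lit 120), (nat_lit 160), (nat_lit 200)], [(nat_lit 0), (nat_lit 533), (nat_lit 3597)], [((nat_lit 0), (nat_lit 0), (nat_lit 0)), ((nat_lit 960), (nat_lit 1000), (nat_lit 200)), ((nat_lit 612), (nat_lit 1000), (nat_lit 732))], ((nat_lit 0), (nat_lit 0), (nat_lit 0))⟩, (nat_lit 295111), (nat_lit 506), (nat_lit 506), (nat_lit 0), (nat_lit 217235), [(nat_lit 621504000), (nat_lit 926016000), (nat_lit 1279200000)], [], [(nat_lit 2990314219), (nat_lit 2967239357), (nat_lit 2979643382), (nat_lit 3005906253), (nat_lit 5416602408), (nat_lit 4084812432), (nat_lit 4523169340), (nat_lit 3208098616)], (nat_lit 1271251), (nat_lit 1271251), (nat_lit 1271251), (nat_lit 1271251), (nat_lit 0), (nat_lit 2825001), [(nat_lit 1695001), (nat_lit 1271251), (nat_lit 1271251)], [(nat_lit 29), (nat_lit 66), (nat_lit 456), (nat_lit 225), (nat_lit 10)]⟩,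
 ⟨⟨[(nat_lit 120), (nat_lit 160), (nat_lit 200)], [(nat_lit 0), (nat_lit 533), (nat_lit 3597)], [((nat_lit 0), (nat_lit 0), (nat_lit 0)), ((nat_lit 960), (nat_lit 1000), (nat_lit 200)), ((nat_lit 612), (nat_lit 1000), (nat_lit 732))], ((nat_lit 0), (nat_lit 0), (nat_lit 0))⟩, (nat_lit 41519), (nat_lit 300), (nat_lit 611), (nat_lit 5649290), (nat_lit 363991), [(nat_lit 621504000), (nat_lit 926016000), (nat_lit 1279200000)], [], [(nat_lit 4879456809), (nat_lit 4826536560), (nat_lit 4742352386), (nat_lit 4685426981), (nat_lit 5443328856), (nat_lit 4991941542), (nat_lit 3648827973), (nat_lit 3555567138)], (nat_lit 1271251), (nat_lit 1271251), (nat_lit 1271251), (nat_lit 1271251), (nat_lit 0), (nat_lit 2825001), [(nat_lit 1695001), (nat_lit 1271251), (nat_lit 1271251)], [(nat_lit 29), (nat_lit 66), (nat_lit 456), (nat_lit 225), (nat_lit 10)]⟩⟩))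
noncomputable def c16_56 : Tr Lf :=
 (.spl (nat_lit 1) (nat_lit 220) (.spl (nat_lit 1) (nat_lit 200) (.spl (nat_lit 6) (nat_lit 60) (.leaf ⟨(nat_lit 903), (nat_lit 0), (nat_lit 0), (nat_lit 97), (nat_lit 4712), (nat_lit 3436), (nat_lit 963), (nat_lit 1158), (nat_lit 0), (nat_lit 8568537), (nat_lit 397250), [((nat_lit 380), [((nat_lit 25), (nat_lit 0), (nat_lit 413)), ((nat_lit 41), (nat_lit 2), (nat_lit 490))])], ⟨(nat_lit 4), false, false, false, (nat_lit 184), (nat_lit 2236), (nat_lit 3163), [(nat_lit 1355794), (nat_lit 1363050), (nat_lit 1377885), (nat_lit 1385761), (nat_lit 1538797), (nat_lit 1534240), (nat_lit 1560952), (nat_lit 1557014)]⟩, ⟨(nat_lit 7), false, true, true, (nat_lit 254), (nat_lit 2236), (nat_lit 3163), [(nat_lit 1599750), (nat_lit 1591255), (nat_lit 1621905), (nat_lit 1614030), (nat_lit 1660704), (nat_lit 1648271), (nat_lit 1682859), (nat_lit 1671045)]⟩, (nat_lit 5110474), (nat_lit 39471370), (nat_lit 10249922), (nat_lit 17278708),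 (nat_lit 0), (nat_lit 0), [], [⟨(nat_lit 1), (nat_lit 88), (nat_lit 53), (nat_lit 100), (nat_lit 244671241)⟩], [], [⟨(nat_lit 0), (nat_lit 87), (nat_lit 100), (nat_lit 41), (nat_lit 27238629)⟩],
 ⟨⟨[(nat_lit 40), (nat_lit 80), (nat_lit 100)], [(nat_lit 0), (nat_lit 1598), (nat_lit 2533)], [((nat_lit 0), (nat_lit 0), (nat_lit 0)), ((nat_lit 1000), (nat_lit 625), (nat_lit 623)), ((nat_lit 1000), (nat_lit 604), (nat_lit 730))], ((nat_lit 61), (nat_lit 100), (nat_lit 72))⟩, (nat_lit 354), (nat_lit 107), (nat_lit 107), (nat_lit 0), (nat_lit 39248), [(nat_lit 1439726880), (nat_lit 1279053639), (nat_lit 1130928000)], [(nat_lit 0), (nat_lit 0), (nat_lit 0)], [(nat_lit 24270813254), (nat_lit 25408103010), (nat_lit 26027447126), (nat_lit 26981852408), (nat_lit 25828215774), (nat_lit 26962477134), (nat_lit 27384469712), (nat_lit 28452408144)], (nat_lit 1271251), (nat_lit 1271251), (nat_lit 780000), (nat_lit 1762501), (nat_lit 1271251), (nat_lit 1271251), [(nat_lit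 490000), (nat_lit 1100000), (nat_lit 1442501)], [(nat_lit 3), (nat_lit 50), (nat_lit 272), (nat_lit 60), (nat_lit 9)]⟩,
 ⟨⟨[(nat_lit 120), (nat_lit 160), (nat_lit 180)], [(nat_lit 0), (nat_lit 533), (nat_lit 2066)], [((nat_lit 0), (nat_lit 0), (nat_lit 0)), ((nat_lit 960), (nat_lit 1000), (nat_lit 200)), ((nat_lit 615), (nat_lit 1000), (nat_lit 729))], ((nat_lit 100), (nat_lit 63), (nat_lit 72))⟩, (nat_lit 100592), (nat_lit 462), (nat_lit 462), (nat_lit 0), (nat_lit 190489), [(nat_lit 772896000), (nat_lit 1151584000), (nat_lit 1363626000)], [], [(nat_lit 4535580267), (nat_lit 4543446685), (nat_lit 4495142798), (nat_lit 4496327990), (nat_lit 5910970164), (nat_lit 5477637979), (nat_lit 7504168535), (nat_lit 7087036418)], (nat_lit 1271251), (nat_lit 1271251), (nat_lit 780000), (nat_lit 1762501), (nat_lit 0), (nat_lit 2825001), [(nat_lit 1695001), (nat_lit 1271251), (nat_lit 1271251)], [(nat_lit 28), (nat_lit 65), (nat_lit 456), (nat_lit 225), (nat_lit 11)]⟩,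
 ⟨⟨[(nat_lit 120), (nat_lit 160), (nat_lit 180)], [(nat_lit 0), (nat_lit 533), (nat_lit 2066)], [((nat_lit 0), (nat_lit 0), (nat_lit 0)), ((nat_lit 960), (nat_lit 1000), (nat_lit 200)), ((nat_lit 615), (nat_lit 1000), (nat_lit 729))], ((nat_lit 100), (nat_lit 63), (nat_lit 72))⟩, (nat_lit 46437), (nat_lit 300), (nat_lit 415), (nat_lit 7042707), (nat_lit 190489), [(nat_lit 772896000), (nat_lit 1151584000), (nat_lit 1363626000)], [], [(nat_lit 5079055592), (nat_lit 5055059861), (nat_lit 5186963054), (nat_lit 5162452280), (nat_lit 4558543106), (nat_lit 4154844298), (nat_lit 4204700820), (nat_lit 4150448224)], (nat_lit 1271251), (nat_lit 1271251), (nat_lit 1271251), (nat_lit 1271251), (nat_lit 0), (nat_lit 2825001), [(nat_lit 1695001), (nat_lit 1271251), (nat_lit 1271251)], [(nat_lit 28), (nat_lit 65), (nat_lit 483), (nat_lit 250), (nat_lit 11)]⟩⟩) (.dle (nat_lit 0))) (.leaf ⟨(nat_lit 927), (nat_lit 0), (nat_lit 0), (nat_lit 73), (nat_lit 6598), (nat_lit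 3294), (nat_lit 861), (nat_lit 770), (nat_lit 0), (nat_lit 0), (nat_lit 416600), [((nat_lit 380), [((nat_lit 25), (nat_lit 1), (nat_lit 698)), ((nat_lit 41), (nat_lit 2), (nat_lit 229))])], ⟨(nat_lit 5), false, false, false, (nat_lit 193), (nat_lit 2236), (nat_lit 3163), [(nat_lit 1377885), (nat_lit 1385761), (nat_lit 1399976), (nat_lit 1408471), (nat_lit 1560952), (nat_lit 1557014), (nat_lit 1583107), (nat_lit 1579788)]⟩, ⟨(nat_lit 7), false, true, true, (nat_lit 254), (nat_lit 2236), (nat_lit 3163), [(nat_lit 1599750), (nat_lit 1591255), (nat_lit 1621905), (nat_lit 1614030), (nat_lit 1660704), (nat_lit 1648271), (nat_lit 1682859), (nat_lit 1671045)]⟩, (nat_lit 5177846), (nat_lit 38939111), (nat_lit 10947591), (nat_lit 17113298), (nat_lit 0), (nat_lit 0), [], [⟨(nat_lit 1), (nat_lit 88), (nat_lit 53), (nat_lit 100), (nat_lit 284310735)⟩], [⟨(nat_lit 0), (nat_lit 100), (nat_lit 99), (nat_lit 10), (nat_lit 22784245)⟩], [⟨(nat_lit 0), (nat_lit 87), (nat_lit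 100), (nat_lit 41), (nat_lit 9495562)⟩],
 ⟨⟨[(nat_lit 40), (nat_lit 80), (nat_lit 100)], [(nat_lit 0), (nat_lit 1598), (nat_lit 2533)], [((nat_lit 0), (nat_lit 0), (nat_lit 0)), ((nat_lit 1000), (nat_lit 625), (nat_lit 623)), ((nat_lit 1000), (nat_lit 604), (nat_lit 730))], ((nat_lit 60), (nat_lit 100), (nat_lit 75))⟩, (nat_lit 0), (nat_lit 110), (nat_lit 110), (nat_lit 0), (nat_lit 50817), [(nat_lit 1392586801), (nat_lit 1135289115), (nat_lit 931462000)], [(nat_lit 0), (nat_lit 0), (nat_lit 0)], [(nat_lit 24178284978), (nat_lit 25234577248), (nat_lit 25967337131), (nat_lit 26857587782), (nat_lit 25656811624), (nat_lit 26774070611), (nat_lit 27263387448), (nat_lit 28312977776)], (nat_lit 1271251), (nat_lit 1271251), (nat_lit 780000), (nat_lit 1762501), (nat_lit 1271251), (nat_lit 1271251), [(nat_lit 490000), (nat_lit 1100000), (nat_lit 1442501)], [(nat_lit 3), (nat_lit 50), (nat_lit 272), (nat_lit 60), (nat_lit 9)]⟩,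
 ⟨⟨[(nat_lit 100), (nat_lit 140), (nat_lit 180)], [(nat_lit 0), (nat_lit 0), (nat_lit 2434)], [((nat_lit 0), (nat_lit 0), (nat_lit 0)), ((nat_lit 0), (nat_lit 0), (nat_lit 0)), ((nat_lit 726), (nat_lit 1000), (nat_lit 688))], ((nat_lit 100), (nat_lit 66), (nat_lit 75))⟩, (nat_lit 6061), (nat_lit 431), (nat_lit 431), (nat_lit 0), (nat_lit 163704), [(nat_lit 456250000), (nat_lit 718466000), (nat_lit 1026234000)], [], [(nat_lit 3698703803), (nat_lit 3240213051), (nat_lit 3188578638), (nat_lit 3199737490), (nat_lit 3459854024), (nat_lit 3235680579), (nat_lit 4785311790), (nat_lit 4402878837)], (nat_lit 1271251), (nat_lit 1271251), (nat_lit 780000), (nat_lit 1762501), (nat_lit 0), (nat_lit 2825001), [(nat_lit 1412501), (nat_lit 1271251), (nat_lit 1271251)], [(nat_lit 24), (nat_lit 63), (nat_lit 456), (nat_lit 225), (nat_lit 11)]⟩,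
 ⟨⟨[(nat_lit 120), (nat_lit 160), (nat_lit 200)], [(nat_lit 0), (nat_lit 533), (nat_lit 3597)], [((nat_lit 0), (nat_lit 0), (nat_lit 0)), ((nat_lit 960), (nat_lit 1000), (nat_lit 200)), ((nat_lit 612), (nat_lit 1000), (nat_lit 732))], ((nat_lit 0), (nat_lit 0), (nat_lit 0))⟩, (nat_lit 38857), (nat_lit 300), (nat_lit 499), (nat_lit 5287158), (nat_lit 244631), [(nat_lit 581664000), (nat_lit 866656000), (nat_lit 1197200000)], [], [(nat_lit 4419233932), (nat_lit 4397018351), (nat_lit 4464442654), (nat_lit 4438318604), (nat_lit 3687102458), (nat_lit 3648888367), (nat_lit 3672735414), (nat_lit 3632469984)], (nat_lit 1271251), (nat_lit 1271251), (nat_lit 1271251), (nat_lit 1271251), (nat_lit 0), (nat_lit 2825001), [(nat_lit 1695001), (nat_lit 1271251), (nat_lit 1271251)], [(nat_lit 29), (nat_lit 66), (nat_lit 483), (nat_lit 250), (nat_lit 10)]⟩⟩)) (.spl (nat_lit 6) (nat_lit 60) (.leaf ⟨(nat_lit 905), (nat_lit 0), (nat_lit 0), (nat_lit 95), (nat_lit 3756), (nat_lit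 3386), (nat_lit 790), (nat_lit 1134), (nat_lit 0), (nat_lit 0), (nat_lit 407000), [((nat_lit 380), [((nat_lit 25), (nat_lit 1), (nat_lit 680)), ((nat_lit 41), (nat_lit 2), (nat_lit 225))])], ⟨(nat_lit 5), false, false, false, (nat_lit 202), (nat_lit 2236), (nat_lit 3163), [(nat_lit 1399976), (nat_lit 1408471), (nat_lit 1422068), (nat_lit 1431182), (nat_lit 1583107), (nat_lit 1579788), (nat_lit 1605240), (nat_lit 1602541)]⟩, ⟨(nat_lit 7), false, true, true, (nat_lit 254), (nat_lit 2236), (nat_lit 3163), [(nat_lit 1599750), (nat_lit 1591255), (nat_lit 1621905), (nat_lit 1614030), (nat_lit 1660704), (nat_lit 1648271), (nat_lit 1682859), (nat_lit 1671045)]⟩, (nat_lit 5240767), (nat_lit 38404557), (nat_lit 11651634), (nat_lit 16943809), (nat_lit 0), (nat_lit 0), [⟨(nat_lit 0), (nat_lit 100), (nat_lit 53), (nat_lit 93), (nat_lit 52646267)⟩], [⟨(nat_lit 1), (nat_lit 88), (nat_lit 53), (nat_lit 100), (nat_lit 272473967)⟩], [⟨(nat_lit 0), (nat_lit 100), (nat_lit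 99), (nat_lit 10), (nat_lit 38152717)⟩], [],
 ⟨⟨[(nat_lit 40), (nat_lit 80), (nat_lit 100)], [(nat_lit 0), (nat_lit 1598), (nat_lit 2533)], [((nat_lit 0), (nat_lit 0), (nat_lit 0)), ((nat_lit 1000), (nat_lit 625), (nat_lit 623)), ((nat_lit 1000), (nat_lit 604), (nat_lit 730))], ((nat_lit 61), (nat_lit 100), (nat_lit 72))⟩, (nat_lit 1105), (nat_lit 117), (nat_lit 117), (nat_lit 0), (nat_lit 75975), [(nat_lit 1402082076), (nat_lit 1247838183), (nat_lit 1055346000)], [(nat_lit 0), (nat_lit 0), (nat_lit 0)], [(nat_lit 24209447671), (nat_lit 25339418877), (nat_lit 25978681443), (nat_lit 26938097258), (nat_lit 25760296691), (nat_lit 26896136809), (nat_lit 27341835112), (nat_lit 28403312944)], (nat_lit 1271251), (nat_lit 1271251), (nat_lit 780000), (nat_lit 1762501), (nat_lit 1271251), (nat_lit 1271251), [(nat_lit 490000), (nat_lit 1100000), (nat_lit 1442501)], [(nat_lit 3), (nat_lit 50), (nat_lit 272), (nat_lit 60), (nat_lit 9)]⟩,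
 ⟨⟨[(nat_lit 100), (nat_lit 140), (nat_lit 180)], [(nat_lit 0), (nat_lit 508), (nat_lit 2854)], [((nat_lit 0), (nat_lit 0), (nat_lit 0)), ((nat_lit 1000), (nat_lit 1000), (nat_lit 198)), ((nat_lit 777), (nat_lit 1000), (nat_lit 712))], ((nat_lit 100), (nat_lit 77), (nat_lit 72))⟩, (nat_lit 274769), (nat_lit 444), (nat_lit 444), (nat_lit 0), (nat_lit 203561), [(nat_lit 593750000), (nat_lit 934990000), (nat_lit 1335510000)], [], [(nat_lit 3883303585), (nat_lit 3462264000), (nat_lit 3460566707), (nat_lit 3483229862), (nat_lit 3969226980), (nat_lit 3604308600), (nat_lit 5309523930), (nat_lit 4958627260)], (nat_lit 1271251), (nat_lit 1271251), (nat_lit 780000), (nat_lit 1762501), (nat_lit 0), (nat_lit 2825001), [(nat_lit 1412501), (nat_lit 1271251), (nat_lit 1271251)], [(nat_lit 24), (nat_lit 63), (nat_lit 456), (nat_lit 225), (nat_lit 11)]⟩,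
 ⟨⟨[(nat_lit 120), (nat_lit 160), (nat_lit 180)], [(nat_lit 0), (nat_lit 533), (nat_lit 2066)], [((nat_lit 0), (nat_lit 0), (nat_lit 0)), ((nat_lit 960), (nat_lit 1000), (nat_lit 200)), ((nat_lit 615), (nat_lit 1000), (nat_lit 729))], ((nat_lit 100), (nat_lit 63), (nat_lit 72))⟩, (nat_lit 45480), (nat_lit 300), (nat_lit 494), (nat_lit 6897495), (nat_lit 363447), [(nat_lit 756960000), (nat_lit 1127840000), (nat_lit 1335510000)], [], [(nat_lit 4984867941), (nat_lit 4951199837), (nat_lit 5080046542), (nat_lit 5056047808), (nat_lit 4464573778), (nat_lit 4069386926), (nat_lit 4118214420), (nat_lit 4065089552)], (nat_lit 1271251), (nat_lit 1271251), (nat_lit 1271251), (nat_lit 1271251), (nat_lit 0), (nat_lit 2825001), [(nat_lit 1695001), (nat_lit 1271251), (nat_lit 1271251)], [(nat_lit 28), (nat_lit 65), (nat_lit 483), (nat_lit 250), (nat_lit 11)]⟩⟩) (.spl (nat_lit 0) (nat_lit 370) (.dle (nat_lit 0)) (.trX (nat_lit 4) (nat_lit 0) (nat_lit 2) (nat_lit 53) (nat_lit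 85) (nat_lit 100) (nat_lit 310) (.leaf ⟨(nat_lit 909), (nat_lit 0), (nat_lit 0), (nat_lit 91), (nat_lit 8555), (nat_lit 3502), (nat_lit 963), (nat_lit 950), (nat_lit 0), (nat_lit 0), (nat_lit 227250), [((nat_lit 380), [((nat_lit 25), (nat_lit 0), (nat_lit 909))])], ⟨(nat_lit 5), false, false, false, (nat_lit 202), (nat_lit 2236), (nat_lit 2739), [(nat_lit 1404204), (nat_lit 1408652), (nat_lit 1426601), (nat_lit 1431406), (nat_lit 1581477), (nat_lit 1579788), (nat_lit 1603890), (nat_lit 1602558)]⟩, ⟨(nat_lit 7), false, true, true, (nat_lit 251), (nat_lit 2236), (nat_lit 2739), [(nat_lit 1595704), (nat_lit 1591255), (nat_lit 1618121), (nat_lit 1614030), (nat_lit 1640000), (nat_lit 1634017), (nat_lit 1662417), (nat_lit 1656791)]⟩, (nat_lit 5225889), (nat_lit 38661834), (nat_lit 11734633), (nat_lit 16603533), (nat_lit 0), (nat_lit 0), [⟨(nat_lit 0), (nat_lit 100), (nat_lit 49), (nat_lit 95), (nat_lit 42796741)⟩, ⟨(nat_lit 0), (nat_lit 100), (nat_lit 44),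 (nat_lit 99), (nat_lit 13794481)⟩], [⟨(nat_lit 1), (nat_lit 90), (nat_lit 48), (nat_lit 100), (nat_lit 310670550)⟩], [⟨(nat_lit 0), (nat_lit 100), (nat_lit 99), (nat_lit 10), (nat_lit 36786296)⟩, ⟨(nat_lit 0), (nat_lit 100), (nat_lit 98), (nat_lit 20), (nat_lit 113064)⟩], [],
 ⟨⟨[(nat_lit 40), (nat_lit 80), (nat_lit 100)], [(nat_lit 0), (nat_lit 2008), (nat_lit 2969)], [((nat_lit 0), (nat_lit 0), (nat_lit 0)), ((nat_lit 1000), (nat_lit 540), (nat_lit 733)), ((nat_lit 1000), (nat_lit 536), (nat_lit 751))], ((nat_lit 53), (nat_lit 100), (nat_lit 76))⟩, (nat_lit 455201), (nat_lit 103), (nat_lit 103), (nat_lit 0), (nat_lit 30872), [(nat_lit 1552570021), (nat_lit 2127620282), (nat_lit 2494012000)], [(nat_lit 0), (nat_lit 0), (nat_lit 0)], [(nat_lit 24866711390), (nat_lit 25408975725), (nat_lit 26520266646), (nat_lit 27039609206), (nat_lit 25973525507), (nat_lit 26607010276), (nat_lit 27596753402), (nat_lit 28147812658)], (nat_lit 1271251), (nat_lit 1271251),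 (nat_lit 780000), (nat_lit 1762501), (nat_lit 1271251), (nat_lit 1271251), [(nat_lit 490000), (nat_lit 1100000), (nat_lit 1442501)], [(nat_lit 3), (nat_lit 50), (nat_lit 272), (nat_lit 60), (nat_lit 9)]⟩,
 ⟨⟨[(nat_lit 100), (nat_lit 140), (nat_lit 180)], [(nat_lit 0), (nat_lit 508), (nat_lit 2854)], [((nat_lit 0), (nat_lit 0), (nat_lit 0)), ((nat_lit 1000), (nat_lit 1000), (nat_lit 198)), ((nat_lit 777), (nat_lit 1000), (nat_lit 712))], ((nat_lit 100), (nat_lit 74), (nat_lit 76))⟩, (nat_lit 212464), (nat_lit 397), (nat_lit 397), (nat_lit 0), (nat_lit 92315), [(nat_lit 568750000), (nat_lit 895622000), (nat_lit 1279278000)], [], [(nat_lit 3927573505), (nat_lit 3414331580), (nat_lit 3359919336), (nat_lit 3376546960), (nat_lit 3811930898), (nat_lit 3419280874), (nat_lit 5348256891), (nat_lit 4920518292)], (nat_lit 1271251), (nat_lit 1271251), (nat_lit 780000), (nat_lit 1762501), (nat_lit 0), (nat_lit 2825001), [(nat_lit 1412501), (nat_lit 1271251), (nat_lit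 1271251)], [(nat_lit 24), (nat_lit 63), (nat_lit 456), (nat_lit 225), (nat_lit 11)]⟩,
 ⟨⟨[(nat_lit 120), (nat_lit 160), (nat_lit 200)], [(nat_lit 0), (nat_lit 533), (nat_lit 3597)], [((nat_lit 0), (nat_lit 0), (nat_lit 0)), ((nat_lit 960), (nat_lit 1000), (nat_lit 200)), ((nat_lit 612), (nat_lit 1000), (nat_lit 732))], ((nat_lit 0), (nat_lit 0), (nat_lit 0))⟩, (nat_lit 48438), (nat_lit 300), (nat_lit 457), (nat_lit 6590843), (nat_lit 139548), [(nat_lit 725088000), (nat_lit 1080352000), (nat_lit 1492400000)], [], [(nat_lit 5513172595), (nat_lit 5482081388), (nat_lit 5551320207), (nat_lit 5520638011), (nat_lit 4611895573), (nat_lit 4565038989), (nat_lit 4599091787), (nat_lit 4550332584)], (nat_lit 1271251), (nat_lit 1271251), (nat_lit 1271251), (nat_lit 1271251), (nat_lit 0), (nat_lit 2825001), [(nat_lit 1695001), (nat_lit 1271251), (nat_lit 1271251)], [(nat_lit 29), (nat_lit 66), (nat_lit 483), (nat_lit 250), (nat_lit 10)]⟩⟩)))))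
noncomputable def c16_57 : Tr Lf :=
 (.ord (.spl (nat_lit 4) (nat_lit 280) (.leaf ⟨(nat_lit 856), (nat_lit 0), (nat_lit 0), (nat_lit 144), (nat_lit 3577), (nat_lit 3293), (nat_lit 1197), (nat_lit 1472), (nat_lit 0), (nat_lit 23420), (nat_lit 459200), [((nat_lit 380), [((nat_lit 25), (nat_lit 1), (nat_lit 272)), ((nat_lit 41), (nat_lit 2), (nat_lit 584))])], ⟨(nat_lit 5), false, false, false, (nat_lit 197), (nat_lit 2236), (nat_lit 3163), [(nat_lit 1377885), (nat_lit 1385761), (nat_lit 1422068), (nat_lit 1431182), (nat_lit 1560952), (nat_lit 1557014), (nat_lit 1605240), (nat_lit 1602541)]⟩, ⟨(nat_lit 5), false, true, true, (nat_lit 228), (nat_lit 2236), (nat_lit 3163), [(nat_lit 1499999), (nat_lit 1499999), (nat_lit 1522091), (nat_lit 1522710), (nat_lit 1621905), (nat_lit 1614030), (nat_lit 1644060), (nat_lit 1636804)]⟩, (nat_lit 5076159), (nat_lit 40591619), (nat_lit 11673035), (nat_lit 14735346), (nat_lit 0), (nat_lit 0), [⟨(nat_lit 0), (nat_lit 100),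 (nat_lit 53), (nat_lit 90), (nat_lit 7745974)⟩, ⟨(nat_lit 0), (nat_lit 100), (nat_lit 44), (nat_lit 99), (nat_lit 75649351)⟩], [], [⟨(nat_lit 0), (nat_lit 100), (nat_lit 100), (nat_lit 15), (nat_lit 59550517)⟩], [],
 ⟨⟨[(nat_lit 40), (nat_lit 80), (nat_lit 100)], [(nat_lit 0), (nat_lit 1598), (nat_lit 2533)], [((nat_lit 0), (nat_lit 0), (nat_lit 0)), ((nat_lit 1000), (nat_lit 625), (nat_lit 623)), ((nat_lit 1000), (nat_lit 604), (nat_lit 730))], ((nat_lit 60), (nat_lit 100), (nat_lit 75))⟩, (nat_lit 0), (nat_lit 109), (nat_lit 109), (nat_lit 0), (nat_lit 71992), [(nat_lit 1390854411), (nat_lit 1038645042), (nat_lit 731724800)], [(nat_lit 0), (nat_lit 0), (nat_lit 0)], [(nat_lit 21462760909), (nat_lit 22685178177), (nat_lit 23681274630), (nat_lit 24703602147), (nat_lit 23977896393), (nat_lit 25034964921), (nat_lit 25767183346), (nat_lit 26856712679)], (nat_lit 1271251), (nat_lit 1271251), (nat_lit 780000), (nat_lit 1762501), (nat_lit 1271251), (nat_lit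 1271251), [(nat_lit 490000), (nat_lit 1100000), (nat_lit 1442501)], [(nat_lit 3), (nat_lit 50), (nat_lit 272), (nat_lit 60), (nat_lit 9)]⟩,
 ⟨⟨[(nat_lit 100), (nat_lit 140), (nat_lit 180)], [(nat_lit 0), (nat_lit 0), (nat_lit 2434)], [((nat_lit 0), (nat_lit 0), (nat_lit 0)), ((nat_lit 0), (nat_lit 0), (nat_lit 0)), ((nat_lit 726), (nat_lit 1000), (nat_lit 688))], ((nat_lit 100), (nat_lit 66), (nat_lit 75))⟩, (nat_lit 143389), (nat_lit 446), (nat_lit 446), (nat_lit 0), (nat_lit 198107), [(nat_lit 900000000), (nat_lit 1417248000), (nat_lit 2024352000)], [], [(nat_lit 6523748451), (nat_lit 6299977784), (nat_lit 6262651724), (nat_lit 6331380206), (nat_lit 6569410536), (nat_lit 6337531580), (nat_lit 8579193210), (nat_lit 7515843048)], (nat_lit 1271251), (nat_lit 1271251), (nat_lit 780000), (nat_lit 1762501), (nat_lit 0), (nat_lit 2825001), [(nat_lit 1412501), (nat_lit 1271251), (nat_lit 1271251)], [(nat_lit 24), (nat_lit 63), (nat_lit 456), (nat_lit 225),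 (nat_lit 11)]⟩,
 ⟨⟨[(nat_lit 100), (nat_lit 140), (nat_lit 180)], [(nat_lit 0), (nat_lit 0), (nat_lit 2434)], [((nat_lit 0), (nat_lit 0), (nat_lit 0)), ((nat_lit 0), (nat_lit 0), (nat_lit 0)), ((nat_lit 726), (nat_lit 1000), (nat_lit 688))], ((nat_lit 100), (nat_lit 66), (nat_lit 75))⟩, (nat_lit 83063), (nat_lit 300), (nat_lit 442), (nat_lit 10123204), (nat_lit 262044), [(nat_lit 900000000), (nat_lit 1417248000), (nat_lit 2024352000)], [], [(nat_lit 7379463251), (nat_lit 7368933462), (nat_lit 7465564456), (nat_lit 7452414512), (nat_lit 7200346496), (nat_lit 6537973728), (nat_lit 6468109440), (nat_lit 6410835680)], (nat_lit 1271251), (nat_lit 1271251), (nat_lit 1271251), (nat_lit 1271251), (nat_lit 0), (nat_lit 2825001), [(nat_lit 1412501), (nat_lit 1271251), (nat_lit 1271251)], [(nat_lit 24), (nat_lit 63), (nat_lit 456), (nat_lit 225), (nat_lit 11)]⟩⟩) (.spl (nat_lit 0) (nat_lit 370) (.spl (nat_lit 6) (nat_lit 56) (.leaf ⟨(nat_lit 0), (nat_lit 0), (nat_lit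 0), (nat_lit 1000), (nat_lit 300000), (nat_lit 4170), (nat_lit 8316), (nat_lit 10224), (nat_lit 0), (nat_lit 9668), (nat_lit 0), [], Pd.none, Pd.none, (nat_lit 0), (nat_lit 1), (nat_lit 0), (nat_lit 0), (nat_lit 0), (nat_lit 0), [], [], [⟨(nat_lit 0), (nat_lit 100), (nat_lit 100), (nat_lit 15), (nat_lit 579924867)⟩], [],
 ⟨⟨[(nat_lit 40), (nat_lit 80), (nat_lit 100)], [(nat_lit 0), (nat_lit 1598), (nat_lit 2533)], [((nat_lit 0), (nat_lit 0), (nat_lit 0)), ((nat_lit 1000), (nat_lit 625), (nat_lit 623)), ((nat_lit 1000), (nat_lit 604), (nat_lit 730))], ((nat_lit 61), (nat_lit 100), (nat_lit 70))⟩, (nat_lit 1775215), (nat_lit 108), (nat_lit 108), (nat_lit 0), (nat_lit 32717), [(nat_lit 2032000009), (nat_lit 5102646705), (nat_lit 6250000000)], [], [(nat_lit 24692656649), (nat_lit 25280133936), (nat_lit 26344644720), (nat_lit 26984411365), (nat_lit 27786997645), (nat_lit 28451000748), (nat_lit 29055495515), (nat_lit 29607477994)], (nat_lit 1271251), (nat_lit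 1271251), (nat_lit 780000), (nat_lit 1762501), (nat_lit 1271251), (nat_lit 1271251), [(nat_lit 490000), (nat_lit 1100000), (nat_lit 1442501)], [(nat_lit 3), (nat_lit 50), (nat_lit 272), (nat_lit 60), (nat_lit 9)]⟩,
 ⟨⟨[(nat_lit 100), (nat_lit 140), (nat_lit 180)], [(nat_lit 0), (nat_lit 0), (nat_lit 2434)], [((nat_lit 0), (nat_lit 0), (nat_lit 0)), ((nat_lit 0), (nat_lit 0), (nat_lit 0)), ((nat_lit 726), (nat_lit 1000), (nat_lit 688))], ((nat_lit 100), (nat_lit 72), (nat_lit 69))⟩, (nat_lit 3609098), (nat_lit 409), (nat_lit 409), (nat_lit 0), (nat_lit 109467), [(nat_lit 6250000000), (nat_lit 9842000000), (nat_lit 14058000000)], [], [(nat_lit 45309199748), (nat_lit 37384078604), (nat_lit 37434319408), (nat_lit 38064485104), (nat_lit 45622690016), (nat_lit 39694876400), (nat_lit 59583735960), (nat_lit 52196250624)], (nat_lit 1271251), (nat_lit 1271251), (nat_lit 780000), (nat_lit 1762501), (nat_lit 0), (nat_lit 2825001), [(nat_lit 1412501), (nat_lit 1271251),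 (nat_lit 1271251)], [(nat_lit 24), (nat_lit 63), (nat_lit 456), (nat_lit 225), (nat_lit 11)]⟩,
 ⟨⟨[(nat_lit 100), (nat_lit 140), (nat_lit 180)], [(nat_lit 0), (nat_lit 0), (nat_lit 2434)], [((nat_lit 0), (nat_lit 0), (nat_lit 0)), ((nat_lit 0), (nat_lit 0), (nat_lit 0)), ((nat_lit 726), (nat_lit 1000), (nat_lit 688))], ((nat_lit 100), (nat_lit 72), (nat_lit 69))⟩, (nat_lit 576828), (nat_lit 300), (nat_lit 378), (nat_lit 70300004), (nat_lit 112134), [(nat_lit 6250000000), (nat_lit 9842000000), (nat_lit 14058000000)], [], [(nat_lit 51842506528), (nat_lit 51752203952), (nat_lit 53841370492), (nat_lit 53640325426), (nat_lit 44914399216), (nat_lit 44516538592), (nat_lit 45304785960), (nat_lit 44850442612)], (nat_lit 1271251), (nat_lit 1271251), (nat_lit 1271251), (nat_lit 1271251), (nat_lit 0), (nat_lit 2825001), [(nat_lit 1412501), (nat_lit 1271251), (nat_lit 1271251)], [(nat_lit 24), (nat_lit 63), (nat_lit 483), (nat_lit 250), (nat_lit 11)]⟩⟩) (.dle (nat_lit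 0))) (.trX (nat_lit 4) (nat_lit 0) (nat_lit 2) (nat_lit 53) (nat_lit 80) (nat_lit 100) (nat_lit 330) (.leaf ⟨(nat_lit 767), (nat_lit 0), (nat_lit 0), (nat_lit 233), (nat_lit 5152), (nat_lit 3552), (nat_lit 1938), (nat_lit 2359), (nat_lit 0), (nat_lit 1577), (nat_lit 191750), [((nat_lit 380), [((nat_lit 25), (nat_lit 0), (nat_lit 767))])], ⟨(nat_lit 5), false, false, false, (nat_lit 197), (nat_lit 2236), (nat_lit 2739), [(nat_lit 1381807), (nat_lit 1385898), (nat_lit 1426601), (nat_lit 1431406), (nat_lit 1559060), (nat_lit 1557014), (nat_lit 1603890), (nat_lit 1602558)]⟩, ⟨(nat_lit 7), false, true, true, (nat_lit 265), (nat_lit 2236), (nat_lit 2739), [(nat_lit 1618121), (nat_lit 1614030), (nat_lit 1640539), (nat_lit 1636804), (nat_lit 1691948), (nat_lit 1685299), (nat_lit 1714365), (nat_lit 1708073)]⟩, (nat_lit 5255827), (nat_lit 37867293), (nat_lit 11158060), (nat_lit 17974647), (nat_lit 0), (nat_lit 0), [⟨(nat_lit 0), (nat_lit 100), (nat_lit 49), (nat_lit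 92), (nat_lit 188541581)⟩], [⟨(nat_lit 1), (nat_lit 85), (nat_lit 48), (nat_lit 100), (nat_lit 220053669)⟩], [⟨(nat_lit 0), (nat_lit 100), (nat_lit 100), (nat_lit 15), (nat_lit 99906665)⟩], [],
 ⟨⟨[(nat_lit 40), (nat_lit 80), (nat_lit 100)], [(nat_lit 0), (nat_lit 2008), (nat_lit 2969)], [((nat_lit 0), (nat_lit 0), (nat_lit 0)), ((nat_lit 1000), (nat_lit 540), (nat_lit 733)), ((nat_lit 1000), (nat_lit 536), (nat_lit 751))], ((nat_lit 53), (nat_lit 100), (nat_lit 76))⟩, (nat_lit 654753), (nat_lit 119), (nat_lit 119), (nat_lit 0), (nat_lit 71439), [(nat_lit 1590910001), (nat_lit 2591923978), (nat_lit 3080756000)], [(nat_lit 0), (nat_lit 0), (nat_lit 0)], [(nat_lit 24848661738), (nat_lit 25394449687), (nat_lit 26490067294), (nat_lit 27083364356), (nat_lit 27033637453), (nat_lit 27665496174), (nat_lit 28501065368), (nat_lit 29029480152)], (nat_lit 1271251), (nat_lit 1271251), (nat_lit 780000), (nat_lit 1762501), (nat_lit 1271251), (nat_lit 1271251), [(nat_lit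 490000), (nat_lit 1100000), (nat_lit 1442501)], [(nat_lit 3), (nat_lit 50), (nat_lit 272), (nat_lit 60), (nat_lit 9)]⟩,
 ⟨⟨[(nat_lit 100), (nat_lit 140), (nat_lit 180)], [(nat_lit 0), (nat_lit 0), (nat_lit 2434)], [((nat_lit 0), (nat_lit 0), (nat_lit 0)), ((nat_lit 0), (nat_lit 0), (nat_lit 0)), ((nat_lit 726), (nat_lit 1000), (nat_lit 688))], ((nat_lit 100), (nat_lit 66), (nat_lit 75))⟩, (nat_lit 31305), (nat_lit 446), (nat_lit 446), (nat_lit 0), (nat_lit 198107), [(nat_lit 1456250000), (nat_lit 2293186000), (nat_lit 3275514000)], [], [(nat_lit 10557616534), (nat_lit 10680961652), (nat_lit 10621144364), (nat_lit 10732292358), (nat_lit 10778452904), (nat_lit 10741463286), (nat_lit 13883648760), (nat_lit 12162034212)], (nat_lit 1271251), (nat_lit 1271251), (nat_lit 780000), (nat_lit 1762501), (nat_lit 0), (nat_lit 2825001), [(nat_lit 1412501), (nat_lit 1271251), (nat_lit 1271251)], [(nat_lit 24), (nat_lit 63), (nat_lit 456), (nat_lit 225), (nat_lit 11)]⟩,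
 ⟨⟨[(nat_lit 100), (nat_lit 140), (nat_lit 180)], [(nat_lit 0), (nat_lit 0), (nat_lit 2434)], [((nat_lit 0), (nat_lit 0), (nat_lit 0)), ((nat_lit 0), (nat_lit 0), (nat_lit 0)), ((nat_lit 726), (nat_lit 1000), (nat_lit 688))], ((nat_lit 100), (nat_lit 66), (nat_lit 75))⟩, (nat_lit 134401), (nat_lit 300), (nat_lit 433), (nat_lit 16379900), (nat_lit 262044), [(nat_lit 1456250000), (nat_lit 2293186000), (nat_lit 3275514000)], [], [(nat_lit 12103902903), (nat_lit 12066952057), (nat_lit 12444792439), (nat_lit 12403976746), (nat_lit 10504437620), (nat_lit 10413382170), (nat_lit 10559226338), (nat_lit 10457583576)], (nat_lit 1271251), (nat_lit 1271251), (nat_lit 1271251), (nat_lit 1271251), (nat_lit 0), (nat_lit 2825001), [(nat_lit 1412501), (nat_lit 1271251), (nat_lit 1271251)], [(nat_lit 24), (nat_lit 63), (nat_lit 483), (nat_lit 250), (nat_lit 11)]⟩⟩)))))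
noncomputable def c16_58 : Tr Lf :=
 (.ord (.leaf ⟨(nat_lit 656), (nat_lit 0), (nat_lit 0), (nat_lit 344), (nat_lit 6668), (nat_lit 3662), (nat_lit 2878), (nat_lit 3580), (nat_lit 0), (nat_lit 889995195599), (nat_lit 510800), [((nat_lit 380), [((nat_lit 41), (nat_lit 2), (nat_lit 363)), ((nat_lit 25), (nat_lit 2), (nat_lit 293))])], ⟨(nat_lit 5), false, false, false, (nat_lit 202), (nat_lit 2236), (nat_lit 3163), [(nat_lit 1399976), (nat_lit 1408471), (nat_lit 1422068), (nat_lit 1431182), (nat_lit 1583107), (nat_lit 1579788), (nat_lit 1605240), (nat_lit 1602541)]⟩, ⟨(nat_lit 5), false, true, true, (nat_lit 258), (nat_lit 2236), (nat_lit 3163), [(nat_lit 1522091), (nat_lit 1522710), (nat_lit 1544182), (nat_lit 1545421), (nat_lit 1750729), (nat_lit 1736581), (nat_lit 1772883), (nat_lit 1759355)]⟩, (nat_lit 5254203), (nat_lit 38176556), (nat_lit 11602927), (nat_lit 17220517), (nat_lit 0), (nat_lit 0), [⟨(nat_lit 0), (nat_lit 100), (nat_lit 53), (nat_lit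 93), (nat_lit 311066726)⟩], [], [⟨(nat_lit 0), (nat_lit 100), (nat_lit 100), (nat_lit 30), (nat_lit 137704678)⟩], [],
 ⟨⟨[(nat_lit 40), (nat_lit 80), (nat_lit 100)], [(nat_lit 0), (nat_lit 1598), (nat_lit 2533)], [((nat_lit 0), (nat_lit 0), (nat_lit 0)), ((nat_lit 1000), (nat_lit 625), (nat_lit 623)), ((nat_lit 1000), (nat_lit 604), (nat_lit 730))], ((nat_lit 60), (nat_lit 100), (nat_lit 75))⟩, (nat_lit 0), (nat_lit 130), (nat_lit 130), (nat_lit 0), (nat_lit 88801), [(nat_lit 1513593603), (nat_lit 1167423823), (nat_lit 748324400)], [(nat_lit 0), (nat_lit 0), (nat_lit 0)], [(nat_lit 21152504935), (nat_lit 22515536233), (nat_lit 23334486132), (nat_lit 24742186408), (nat_lit 27717040340), (nat_lit 28931138364), (nat_lit 29062768842), (nat_lit 30079849297)], (nat_lit 1271251), (nat_lit 1271251), (nat_lit 780000), (nat_lit 1762501), (nat_lit 1271251), (nat_lit 1271251), [(nat_lit 490000), (nat_lit 1100000), (nat_lit 1442501)], [(nat_lit 3), (nat_lit 50),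 (nat_lit 272), (nat_lit 60), (nat_lit 9)]⟩,
 ⟨⟨[(nat_lit 100), (nat_lit 140), (nat_lit 180)], [(nat_lit 0), (nat_lit 508), (nat_lit 2854)], [((nat_lit 0), (nat_lit 0), (nat_lit 0)), ((nat_lit 1000), (nat_lit 1000), (nat_lit 198)), ((nat_lit 777), (nat_lit 1000), (nat_lit 712))], ((nat_lit 100), (nat_lit 74), (nat_lit 76))⟩, (nat_lit 501247), (nat_lit 457), (nat_lit 457), (nat_lit 0), (nat_lit 235599), [(nat_lit 2150000000), (nat_lit 3385648000), (nat_lit 4835952000)], [], [(nat_lit 14079142597), (nat_lit 14190715306), (nat_lit 14180164948), (nat_lit 14261801554), (nat_lit 14373607476), (nat_lit 14264308518), (nat_lit 19248151926), (nat_lit 17969822032)], (nat_lit 1271251), (nat_lit 1271251), (nat_lit 780000), (nat_lit 1762501), (nat_lit 0), (nat_lit 2825001), [(nat_lit 1412501), (nat_lit 1271251), (nat_lit 1271251)], [(nat_lit 24), (nat_lit 63), (nat_lit 456), (nat_lit 225), (nat_lit 11)]⟩,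
 ⟨⟨[(nat_lit 100), (nat_lit 140), (nat_lit 180)], [(nat_lit 0), (nat_lit 508), (nat_lit 2854)], [((nat_lit 0), (nat_lit 0), (nat_lit 0)), ((nat_lit 1000), (nat_lit 1000), (nat_lit 198)), ((nat_lit 777), (nat_lit 1000), (nat_lit 712))], ((nat_lit 100), (nat_lit 74), (nat_lit 76))⟩, (nat_lit 219449), (nat_lit 300), (nat_lit 426), (nat_lit 23386915), (nat_lit 235599), [(nat_lit 2150000000), (nat_lit 3385648000), (nat_lit 4835952000)], [], [(nat_lit 17174641721), (nat_lit 17153784584), (nat_lit 18297297412), (nat_lit 18217431288), (nat_lit 15631254210), (nat_lit 15038279784), (nat_lit 15077604575), (nat_lit 14912833332)], (nat_lit 1271251), (nat_lit 1271251), (nat_lit 1271251), (nat_lit 1271251), (nat_lit 0), (nat_lit 2825001), [(nat_lit 1412501), (nat_lit 1271251), (nat_lit 1271251)], [(nat_lit 24), (nat_lit 63), (nat_lit 483), (nat_lit 250), (nat_lit 11)]⟩⟩))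
noncomputable def c16_59 : Tr Lf :=
 (.spl (nat_lit 1) (nat_lit 220) (.ord (.trX (nat_lit 3) (nat_lit 0) (nat_lit 1) (nat_lit 60) (nat_lit 74) (nat_lit 100) (nat_lit 340) (.trX (nat_lit 4) (nat_lit 0) (nat_lit 2) (nat_lit 60) (nat_lit 74) (nat_lit 100) (nat_lit 340) (.spl (nat_lit 1) (nat_lit 200) (.ord (.trX (nat_lit 3) (nat_lit 0) (nat_lit 1) (nat_lit 60) (nat_lit 80) (nat_lit 100) (nat_lit 320) (.trX (nat_lit 4) (nat_lit 0) (nat_lit 2) (nat_lit 60) (nat_lit 80) (nat_lit 100) (nat_lit 320) (.spl (nat_lit 6) (nat_lit 60) (.leaf ⟨(nat_lit 767), (nat_lit 0), (nat_lit 0), (nat_lit 233), (nat_lit 699), (nat_lit 3922), (nat_lit 3068), (nat_lit 3068), (nat_lit 0), (nat_lit 184570143574), (nat_lit 191750), [((nat_lit 380), [((nat_lit 25), (nat_lit 0), (nat_lit 767))])], ⟨(nat_lit 6), false, true, true, (nat_lit 243), (nat_lit 2236), (nat_lit 3163), [(nat_lit 1538797), (nat_lit 1534240), (nat_lit 1560952), (nat_lit 1557014), (nat_lit 1660704), (nat_lit 1648271),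 (nat_lit 1682859), (nat_lit 1671045)]⟩, ⟨(nat_lit 5), false, true, true, (nat_lit 231), (nat_lit 2236), (nat_lit 3163), [(nat_lit 1477844), (nat_lit 1477224), (nat_lit 1499999), (nat_lit 1499999), (nat_lit 1660704), (nat_lit 1648271), (nat_lit 1682859), (nat_lit 1671045)]⟩, (nat_lit 5363947), (nat_lit 37416597), (nat_lit 15386289), (nat_lit 14197114), (nat_lit 0), (nat_lit 0), [⟨(nat_lit 1), (nat_lit 88), (nat_lit 53), (nat_lit 100), (nat_lit 112961659)⟩], [], [], [⟨(nat_lit 0), (nat_lit 100), (nat_lit 96), (nat_lit 69), (nat_lit 32869806)⟩],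
 ⟨⟨[(nat_lit 40), (nat_lit 80), (nat_lit 100)], [(nat_lit 0), (nat_lit 1598), (nat_lit 2533)], [((nat_lit 0), (nat_lit 0), (nat_lit 0)), ((nat_lit 1000), (nat_lit 625), (nat_lit 623)), ((nat_lit 1000), (nat_lit 604), (nat_lit 730))], ((nat_lit 61), (nat_lit 100), (nat_lit 72))⟩, (nat_lit 0), (nat_lit 77), (nat_lit 77), (nat_lit 0), (nat_lit 39248), [(nat_lit 1651778594), (nat_lit 2408169210), (nat_lit 3080756000)], [(nat_lit 0), (nat_lit 0), (nat_lit 0)], [(nat_lit 24103447648), (nat_lit 25348923005), (nat_lit 27178971730), (nat_lit 28226741116), (nat_lit 27894755774), (nat_lit 28929613488), (nat_lit 30468807768), (nat_lit 31420492096)], (nat_lit 1271251), (nat_lit 1271251), (nat_lit 1271251), (nat_lit 1271251), (nat_lit 1271251), (nat_lit 1271251), [(nat_lit 490000), (nat_lit 1100000), (nat_lit 1442501)], [(nat_lit 3), (nat_lit 50), (nat_lit 203), (nat_lit 0), (nat_lit 6)]⟩,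
 ⟨⟨[(nat_lit 120), (nat_lit 160), (nat_lit 180)], [(nat_lit 0), (nat_lit 533), (nat_lit 2066)], [((nat_lit 0), (nat_lit 0), (nat_lit 0)), ((nat_lit 960), (nat_lit 1000), (nat_lit 200)), ((nat_lit 615), (nat_lit 1000), (nat_lit 729))], ((nat_lit 100), (nat_lit 63), (nat_lit 72))⟩, (nat_lit 865582), (nat_lit 415), (nat_lit 415), (nat_lit 0), (nat_lit 190489), [(nat_lit 1856544000), (nat_lit 2766176000), (nat_lit 3275514000)], [], [(nat_lit 8817489016), (nat_lit 8851244056), (nat_lit 9723195491), (nat_lit 9704012678), (nat_lit 13542519720), (nat_lit 12213587908), (nat_lit 9422157464), (nat_lit 9413971144)], (nat_lit 1271251), (nat_lit 1271251), (nat_lit 1271251), (nat_lit 1271251), (nat_lit 0), (nat_lit 2825001), [(nat_lit 1695001), (nat_lit 1271251), (nat_lit 1271251)], [(nat_lit 28), (nat_lit 65), (nat_lit 483), (nat_lit 250), (nat_lit 11)]⟩,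
 ⟨⟨[(nat_lit 120), (nat_lit 160), (nat_lit 180)], [(nat_lit 0), (nat_lit 533), (nat_lit 2066)], [((nat_lit 0), (nat_lit 0), (nat_lit 0)), ((nat_lit 960), (nat_lit 1000), (nat_lit 200)), ((nat_lit 615), (nat_lit 1000), (nat_lit 729))], ((nat_lit 100), (nat_lit 63), (nat_lit 72))⟩, (nat_lit 111544), (nat_lit 300), (nat_lit 425), (nat_lit 16917023), (nat_lit 190489), [(nat_lit 1856544000), (nat_lit 2766176000), (nat_lit 3275514000)], [], [(nat_lit 11842791928), (nat_lit 11823813200), (nat_lit 12385932584), (nat_lit 12311629732), (nat_lit 16251069772), (nat_lit 14905242484), (nat_lit 9983414336), (nat_lit 9882060476)], (nat_lit 1271251), (nat_lit 1271251), (nat_lit 1271251), (nat_lit 1271251), (nat_lit 0), (nat_lit 2825001), [(nat_lit 1695001), (nat_lit 1271251), (nat_lit 1271251)], [(nat_lit 28), (nat_lit 65), (nat_lit 483), (nat_lit 250), (nat_lit 11)]⟩⟩) (.dle (nat_lit 0)))))) (.leaf ⟨(nat_lit 630), (nat_lit 140), (nat_lit 0), (nat_lit 230), (nat_lit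 4317), (nat_lit 5007), (nat_lit 3374), (nat_lit 2552), (nat_lit 0), (nat_lit 33574), (nat_lit 157500), [((nat_lit 380), [((nat_lit 25), (nat_lit 0), (nat_lit 630))])], ⟨(nat_lit 6), false, true, true, (nat_lit 258), (nat_lit 2236), (nat_lit 3163), [(nat_lit 1560952), (nat_lit 1557014), (nat_lit 1583107), (nat_lit 1579788), (nat_lit 1713335), (nat_lit 1699553), (nat_lit 1735490), (nat_lit 1722327)]⟩, ⟨(nat_lit 5), false, true, true, (nat_lit 241), (nat_lit 2236), (nat_lit 3163), [(nat_lit 1477844), (nat_lit 1477224), (nat_lit 1522091), (nat_lit 1522710), (nat_lit 1691180), (nat_lit 1676779), (nat_lit 1735490), (nat_lit 1722327)]⟩, (nat_lit 5479397), (nat_lit 35838732), (nat_lit 16406118), (nat_lit 14755150), (nat_lit 5), (nat_lit 0), [], [], [], [⟨(nat_lit 0), (nat_lit 100), (nat_lit 95), (nat_lit 78), (nat_lit 80231039)⟩],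
 ⟨⟨[(nat_lit 40), (nat_lit 80), (nat_lit 100)], [(nat_lit 0), (nat_lit 1598), (nat_lit 2533)], [((nat_lit 0), (nat_lit 0), (nat_lit 0)), ((nat_lit 1000), (nat_lit 625), (nat_lit 623)), ((nat_lit 1000), (nat_lit 604), (nat_lit 730))], ((nat_lit 60), (nat_lit 100), (nat_lit 75))⟩, (nat_lit 0), (nat_lit 94), (nat_lit 94), (nat_lit 0), (nat_lit 52223), [(nat_lit 1874107648), (nat_lit 3107290308), (nat_lit 3646840000)], [(nat_lit 0), (nat_lit 0), (nat_lit 0)], [(nat_lit 25371557089), (nat_lit 26692583340), (nat_lit 29458505150), (nat_lit 30503519083), (nat_lit 29990884877), (nat_lit 31062566105), (nat_lit 33392657382), (nat_lit 34340457513)], (nat_lit 1271251), (nat_lit 1271251), (nat_lit 1271251), (nat_lit 1271251), (nat_lit 1271251), (nat_lit 1271251), [(nat_lit 490000), (nat_lit 1100000), (nat_lit 1442501)], [(nat_lit 3), (nat_lit 50), (nat_lit 203), (nat_lit 0), (nat_lit 6)]⟩,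
 ⟨⟨[(nat_lit 100), (nat_lit 140), (nat_lit 180)], [(nat_lit 0), (nat_lit 0), (nat_lit 2434)], [((nat_lit 0), (nat_lit 0), (nat_lit 0)), ((nat_lit 0), (nat_lit 0), (nat_lit 0)), ((nat_lit 726), (nat_lit 1000), (nat_lit 688))], ((nat_lit 100), (nat_lit 66), (nat_lit 75))⟩, (nat_lit 1269241), (nat_lit 402), (nat_lit 402), (nat_lit 0), (nat_lit 177092), [(nat_lit 2312500000), (nat_lit 3641540000), (nat_lit 5201460000)], [], [(nat_lit 13724748470), (nat_lit 13805695010), (nat_lit 15273597452), (nat_lit 15346514996), (nat_lit 15198755140), (nat_lit 13767737186), (nat_lit 14507369176), (nat_lit 14431734414)], (nat_lit 1271251), (nat_lit 1271251), (nat_lit 1271251), (nat_lit 1271251), (nat_lit 0), (nat_lit 2825001), [(nat_lit 1412501), (nat_lit 1271251), (nat_lit 1271251)], [(nat_lit 24), (nat_lit 63), (nat_lit 483), (nat_lit 250), (nat_lit 11)]⟩,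
 ⟨⟨[(nat_lit 120), (nat_lit 160), (nat_lit 200)], [(nat_lit 0), (nat_lit 533), (nat_lit 3597)], [((nat_lit 0), (nat_lit 0), (nat_lit 0)), ((nat_lit 960), (nat_lit 1000), (nat_lit 200)), ((nat_lit 612), (nat_lit 1000), (nat_lit 732))], ((nat_lit 0), (nat_lit 0), (nat_lit 0))⟩, (nat_lit 122426), (nat_lit 300), (nat_lit 518), (nat_lit 16658169), (nat_lit 246231), [(nat_lit 1832640000), (nat_lit 2730560000), (nat_lit 3772000000)], [], [(nat_lit 13889555057), (nat_lit 13775786921), (nat_lit 14225485140), (nat_lit 14027975319), (nat_lit 15292705288), (nat_lit 13053754024), (nat_lit 11403629426), (nat_lit 11120911830)], (nat_lit 1271251), (nat_lit 1271251), (nat_lit 1271251), (nat_lit 1271251), (nat_lit 0), (nat_lit 2825001), [(nat_lit 1695001), (nat_lit 1271251), (nat_lit 1271251)], [(nat_lit 29), (nat_lit 66), (nat_lit 483), (nat_lit 250), (nat_lit 10)]⟩⟩))))) (.leaf ⟨(nat_lit 0), (nat_lit 542), (nat_lit 0), (nat_lit 458), (nat_lit 0), (nat_lit 4254), (nat_lit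 10790), (nat_lit 6403), (nat_lit 0), (nat_lit 760030), (nat_lit 0), [], Pd.none, Pd.none, (nat_lit 0), (nat_lit 1), (nat_lit 0), (nat_lit 0), (nat_lit 5), (nat_lit 0), [], [], [], [⟨(nat_lit 0), (nat_lit 100), (nat_lit 95), (nat_lit 83), (nat_lit 43695924)⟩],
 ⟨⟨[(nat_lit 40), (nat_lit 80), (nat_lit 100)], [(nat_lit 0), (nat_lit 1598), (nat_lit 2533)], [((nat_lit 0), (nat_lit 0), (nat_lit 0)), ((nat_lit 1000), (nat_lit 625), (nat_lit 623)), ((nat_lit 1000), (nat_lit 604), (nat_lit 730))], ((nat_lit 60), (nat_lit 100), (nat_lit 75))⟩, (nat_lit 1411578), (nat_lit 110), (nat_lit 110), (nat_lit 0), (nat_lit 88801), [(nat_lit 2032001070), (nat_lit 4903562992), (nat_lit 6250000000)], [], [(nat_lit 24947429878), (nat_lit 26094044245), (nat_lit 29210443441), (nat_lit 30169367808), (nat_lit 29762899167), (nat_lit 30747339287), (nat_lit 33359939983), (nat_lit 34202866319)], (nat_lit 1271251), (nat_lit 1271251), (nat_lit 1271251), (nat_lit 1271251), (nat_lit 1271251),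 (nat_lit 1271251), [(nat_lit 490000), (nat_lit 1100000), (nat_lit 1442501)], [(nat_lit 3), (nat_lit 50), (nat_lit 203), (nat_lit 0), (nat_lit 6)]⟩,
 ⟨⟨[(nat_lit 100), (nat_lit 140), (nat_lit 180)], [(nat_lit 0), (nat_lit 508), (nat_lit 2854)], [((nat_lit 0), (nat_lit 0), (nat_lit 0)), ((nat_lit 1000), (nat_lit 1000), (nat_lit 198)), ((nat_lit 777), (nat_lit 1000), (nat_lit 712))], ((nat_lit 100), (nat_lit 74), (nat_lit 76))⟩, (nat_lit 4333354), (nat_lit 420), (nat_lit 420), (nat_lit 0), (nat_lit 236369), [(nat_lit 6250000000), (nat_lit 9842000000), (nat_lit 14058000000)], [], [(nat_lit 30076632742), (nat_lit 30532014096), (nat_lit 37659508099), (nat_lit 37780349804), (nat_lit 35868673230), (nat_lit 33693416560), (nat_lit 39988967894), (nat_lit 39940357795)], (nat_lit 1271251), (nat_lit 1271251), (nat_lit 1271251), (nat_lit 1271251), (nat_lit 0), (nat_lit 2825001), [(nat_lit 1412501), (nat_lit 1271251), (nat_lit 1271251)], [(nat_lit 24), (nat_lit 63),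 (nat_lit 483), (nat_lit 250), (nat_lit 11)]⟩,
 ⟨⟨[(nat_lit 120), (nat_lit 160), (nat_lit 200)], [(nat_lit 0), (nat_lit 533), (nat_lit 3597)], [((nat_lit 0), (nat_lit 0), (nat_lit 0)), ((nat_lit 960), (nat_lit 1000), (nat_lit 200)), ((nat_lit 612), (nat_lit 1000), (nat_lit 732))], ((nat_lit 0), (nat_lit 0), (nat_lit 0))⟩, (nat_lit 243789), (nat_lit 300), (nat_lit 614), (nat_lit 33171478), (nat_lit 372129), [(nat_lit 3649344000), (nat_lit 5437376000), (nat_lit 7511200000)], [], [(nat_lit 28163756167), (nat_lit 27272845796), (nat_lit 28506557555), (nat_lit 27606332855), (nat_lit 32529533512), (nat_lit 24103198318), (nat_lit 21872257322), (nat_lit 20972032622)], (nat_lit 1271251), (nat_lit 1271251), (nat_lit 1271251), (nat_lit 1271251), (nat_lit 0), (nat_lit 2825001), [(nat_lit 1695001), (nat_lit 1271251), (nat_lit 1271251)], [(nat_lit 29), (nat_lit 66), (nat_lit 483), (nat_lit 250), (nat_lit 10)]⟩⟩))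
def l031 : List St := [⟨⟨(nat_lit 360), (nat_lit 380), (nat_lit 180), (nat_lit 240), (nat_lit 160), (nat_lit 180), (nat_lit 280), (nat_lit 350), (nat_lit 200), (nat_lit 310), (nat_lit 10), (nat_lit 400), (nat_lit 0), (nat_lit 52)⟩, (nat_lit 0), (nat_lit 3), (nat_lit 3), false, false, false⟩,
  ⟨⟨(nat_lit 360), (nat_lit 380), (nat_lit 180), (nat_lit 240), (nat_lit 120), (nat_lit 180), (nat_lit 240), (nat_lit 350), (nat_lit 200), (nat_lit 310), (nat_lit 0), (nat_lit 400), (nat_lit 0), (nat_lit 52)⟩, (nat_lit 1), (nat_lit 3), (nat_lit 3), false, false, false⟩,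
  ⟨⟨(nat_lit 360), (nat_lit 380), (nat_lit 180), (nat_lit 240), (nat_lit 180), (nat_lit 240), (nat_lit 120), (nat_lit 240), (nat_lit 200), (nat_lit 350), (nat_lit 0), (nat_lit 400), (nat_lit 0), (nat_lit 52)⟩, (nat_lit 3), (nat_lit 3), (nat_lit 0), false, false, false⟩,
  ⟨⟨(nat_lit 360), (nat_lit 380), (nat_lit 180), (nat_lit 240), (nat_lit 180), (nat_lit 240), (nat_lit 120), (nat_lit 240), (nat_lit 200), (nat_lit 280), (nat_lit 0), (nat_lit 400), (nat_lit 0), (nat_lit 52)⟩, (nat_lit 3), (nat_lit 3), (nat_lit 1), false, false, false⟩,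
  ⟨⟨(nat_lit 360), (nat_lit 380), (nat_lit 180), (nat_lit 240), (nat_lit 180), (nat_lit 220), (nat_lit 120), (nat_lit 240), (nat_lit 280), (nat_lit 350), (nat_lit 0), (nat_lit 400), (nat_lit 0), (nat_lit 52)⟩, (nat_lit 3), (nat_lit 3), (nat_lit 1), false, false, false⟩,
  ⟨⟨(nat_lit 360), (nat_lit 380), (nat_lit 180), (nat_lit 240), (nat_lit 220), (nat_lit 240), (nat_lit 120), (nat_lit 240), (nat_lit 280), (nat_lit 350), (nat_lit 0), (nat_lit 400), (nat_lit 0), (nat_lit 52)⟩, (nat_lit 3), (nat_lit 3), (nat_lit 1), false, false, false⟩,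
  ⟨⟨(nat_lit 360), (nat_lit 380), (nat_lit 180), (nat_lit 240), (nat_lit 180), (nat_lit 240), (nat_lit 240), (nat_lit 350), (nat_lit 200), (nat_lit 350), (nat_lit 0), (nat_lit 120), (nat_lit 0), (nat_lit 52)⟩, (nat_lit 0), (nat_lit 3), (nat_lit 3), false, false, true⟩,
  ⟨⟨(nat_lit 360), (nat_lit 380), (nat_lit 180), (nat_lit 240), (nat_lit 180), (nat_lit 240), (nat_lit 240), (nat_lit 350), (nat_lit 200), (nat_lit 350), (nat_lit 120), (nat_lit 400), (nat_lit 0), (nat_lit 52)⟩, (nat_lit 0), (nat_lit 3), (nat_lit 3), false, false, false⟩,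
  ⟨⟨(nat_lit 360), (nat_lit 380), (nat_lit 180), (nat_lit 240), (nat_lit 180), (nat_lit 240), (nat_lit 240), (nat_lit 350), (nat_lit 200), (nat_lit 350), (nat_lit 0), (nat_lit 400), (nat_lit 0), (nat_lit 52)⟩, (nat_lit 1), (nat_lit 3), (nat_lit 3), false, false, false⟩,
  ⟨⟨(nat_lit 360), (nat_lit 380), (nat_lit 120), (nat_lit 240), (nat_lit 120), (nat_lit 180), (nat_lit 120), (nat_lit 240), (nat_lit 20), (nat_lit 200), (nat_lit 0), (nat_lit 400), (nat_lit 52), (nat_lit 100)⟩, (nat_lit 3), (nat_lit 3), (nat_lit 3), false, false, false⟩,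
  ⟨⟨(nat_lit 360), (nat_lit 380), (nat_lit 120), (nat_lit 240), (nat_lit 180), (nat_lit 240), (nat_lit 120), (nat_lit 240), (nat_lit 20), (nat_lit 200), (nat_lit 0), (nat_lit 400), (nat_lit 52), (nat_lit 100)⟩, (nat_lit 3), (nat_lit 3), (nat_lit 3), false, false, false⟩,
  ⟨⟨(nat_lit 360), (nat_lit 380), (nat_lit 120), (nat_lit 180), (nat_lit 120), (nat_lit 180), (nat_lit 240), (nat_lit 350), (nat_lit 20), (nat_lit 200), (nat_lit 0), (nat_lit 400), (nat_lit 52), (nat_lit 100)⟩, (nat_lit 3), (nat_lit 3), (nat_lit 3), false, false, false⟩,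
  ⟨⟨(nat_lit 360), (nat_lit 380), (nat_lit 180), (nat_lit 240), (nat_lit 120), (nat_lit 180), (nat_lit 240), (nat_lit 280), (nat_lit 20), (nat_lit 120), (nat_lit 0), (nat_lit 370), (nat_lit 52), (nat_lit 88)⟩, (nat_lit 3), (nat_lit 3), (nat_lit 3), false, true, false⟩,
  ⟨⟨(nat_lit 360), (nat_lit 380), (nat_lit 180), (nat_lit 240), (nat_lit 120), (nat_lit 180), (nat_lit 280), (nat_lit 350), (nat_lit 20), (nat_lit 120), (nat_lit 0), (nat_lit 370), (nat_lit 52), (nat_lit 88)⟩, (nat_lit 3), (nat_lit 3), (nat_lit 3), false, true, false⟩,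
  ⟨⟨(nat_lit 360), (nat_lit 380), (nat_lit 180), (nat_lit 240), (nat_lit 120), (nat_lit 180), (nat_lit 240), (nat_lit 350), (nat_lit 120), (nat_lit 200), (nat_lit 0), (nat_lit 400), (nat_lit 52), (nat_lit 88)⟩, (nat_lit 3), (nat_lit 3), (nat_lit 3), false, false, false⟩,
  ⟨⟨(nat_lit 360), (nat_lit 380), (nat_lit 120), (nat_lit 240), (nat_lit 180), (nat_lit 240), (nat_lit 240), (nat_lit 350), (nat_lit 20), (nat_lit 200), (nat_lit 0), (nat_lit 400), (nat_lit 52), (nat_lit 100)⟩, (nat_lit 3), (nat_lit 3), (nat_lit 3), false, false, false⟩,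
  ⟨⟨(nat_lit 360), (nat_lit 380), (nat_lit 120), (nat_lit 180), (nat_lit 120), (nat_lit 180), (nat_lit 120), (nat_lit 240), (nat_lit 200), (nat_lit 310), (nat_lit 0), (nat_lit 400), (nat_lit 52), (nat_lit 100)⟩, (nat_lit 3), (nat_lit 3), (nat_lit 3), false, false, false⟩,
  ⟨⟨(nat_lit 360), (nat_lit 370), (nat_lit 180), (nat_lit 240), (nat_lit 120), (nat_lit 180), (nat_lit 120), (nat_lit 240), (nat_lit 200), (nat_lit 310), (nat_lit 0), (nat_lit 400), (nat_lit 52), (nat_lit 88)⟩, (nat_lit 3), (nat_lit 3), (nat_lit 3), false, false, false⟩,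
  ⟨⟨(nat_lit 370), (nat_lit 380), (nat_lit 180), (nat_lit 240), (nat_lit 120), (nat_lit 160), (nat_lit 120), (nat_lit 240), (nat_lit 200), (nat_lit 290), (nat_lit 0), (nat_lit 400), (nat_lit 52), (nat_lit 88)⟩, (nat_lit 3), (nat_lit 3), (nat_lit 3), false, false, false⟩,
  ⟨⟨(nat_lit 370), (nat_lit 380), (nat_lit 180), (nat_lit 240), (nat_lit 160), (nat_lit 180), (nat_lit 120), (nat_lit 240), (nat_lit 200), (nat_lit 290), (nat_lit 0), (nat_lit 400), (nat_lit 52), (nat_lit 88)⟩, (nat_lit 3), (nat_lit 3), (nat_lit 3), false, false, false⟩,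
  ⟨⟨(nat_lit 360), (nat_lit 380), (nat_lit 120), (nat_lit 180), (nat_lit 120), (nat_lit 180), (nat_lit 240), (nat_lit 350), (nat_lit 200), (nat_lit 310), (nat_lit 0), (nat_lit 400), (nat_lit 52), (nat_lit 100)⟩, (nat_lit 3), (nat_lit 3), (nat_lit 3), false, false, false⟩,
  ⟨⟨(nat_lit 360), (nat_lit 380), (nat_lit 180), (nat_lit 240), (nat_lit 120), (nat_lit 180), (nat_lit 240), (nat_lit 350), (nat_lit 200), (nat_lit 310), (nat_lit 0), (nat_lit 120), (nat_lit 52), (nat_lit 88)⟩, (nat_lit 3), (nat_lit 3), (nat_lit 3), false, false, true⟩,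
  ⟨⟨(nat_lit 360), (nat_lit 380), (nat_lit 180), (nat_lit 240), (nat_lit 120), (nat_lit 180), (nat_lit 240), (nat_lit 350), (nat_lit 200), (nat_lit 310), (nat_lit 120), (nat_lit 400), (nat_lit 52), (nat_lit 88)⟩, (nat_lit 3), (nat_lit 3), (nat_lit 3), false, false, false⟩,
  ⟨⟨(nat_lit 360), (nat_lit 380), (nat_lit 180), (nat_lit 240), (nat_lit 180), (nat_lit 200), (nat_lit 120), (nat_lit 240), (nat_lit 200), (nat_lit 280), (nat_lit 0), (nat_lit 400), (nat_lit 52), (nat_lit 68)⟩, (nat_lit 3), (nat_lit 3), (nat_lit 3), false, false, false⟩,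
  ⟨⟨(nat_lit 360), (nat_lit 380), (nat_lit 180), (nat_lit 240), (nat_lit 180), (nat_lit 200), (nat_lit 120), (nat_lit 240), (nat_lit 280), (nat_lit 320), (nat_lit 0), (nat_lit 400), (nat_lit 52), (nat_lit 68)⟩, (nat_lit 3), (nat_lit 3), (nat_lit 3), false, false, false⟩,
  ⟨⟨(nat_lit 360), (nat_lit 380), (nat_lit 180), (nat_lit 240), (nat_lit 200), (nat_lit 220), (nat_lit 120), (nat_lit 240), (nat_lit 200), (nat_lit 340), (nat_lit 0), (nat_lit 400), (nat_lit 52), (nat_lit 68)⟩, (nat_lit 3), (nat_lit 3), (nat_lit 3), false, false, false⟩,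
  ⟨⟨(nat_lit 360), (nat_lit 380), (nat_lit 180), (nat_lit 240), (nat_lit 220), (nat_lit 240), (nat_lit 120), (nat_lit 240), (nat_lit 200), (nat_lit 350), (nat_lit 0), (nat_lit 400), (nat_lit 52), (nat_lit 68)⟩, (nat_lit 3), (nat_lit 3), (nat_lit 3), false, false, false⟩,
  ⟨⟨(nat_lit 360), (nat_lit 380), (nat_lit 180), (nat_lit 240), (nat_lit 180), (nat_lit 240), (nat_lit 240), (nat_lit 350), (nat_lit 200), (nat_lit 350), (nat_lit 0), (nat_lit 400), (nat_lit 52), (nat_lit 68)⟩, (nat_lit 3), (nat_lit 3), (nat_lit 3), false, false, false⟩]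
theorem t031 (h : EC env Ei) : ∀ τ ∈ l031, Dead τ :=
  List.forall_mem_cons.mpr ⟨chkT_sound0 h (T := c16_32) (by decide +kernel),
  List.forall_mem_cons.mpr ⟨chkT_sound0 h (T := c16_33) (by decide +kernel),
  List.forall_mem_cons.mpr ⟨chkT_sound0 h (T := c16_34) (by decide +kernel),
  List.forall_mem_cons.mpr ⟨chkT_sound0 h (T := c16_35) (by decide +kernel),
  List.forall_mem_cons.mpr ⟨chkT_sound0 h (T := c16_36) (by decide +kernel),
  List.forall_mem_cons.mpr ⟨chkT_sound0 h (T := c16_37) (by decide +kernel),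
  List.forall_mem_cons.mpr ⟨chkT_sound0 h (T := c16_38) (by decide +kernel),
  List.forall_mem_cons.mpr ⟨chkT_sound0 h (T := c16_39) (by decide +kernel),
  List.forall_mem_cons.mpr ⟨chkT_sound0 h (T := c16_40) (by decide +kernel),
  List.forall_mem_cons.mpr ⟨chkT_sound0 h (T := c16_41) (by decide +kernel),
  List.forall_mem_cons.mpr ⟨chkT_sound0 h (T := c16_42) (by decide +kernel),
  List.forall_mem_cons.mpr ⟨chkT_sound0 h (T := c16_43) (by decide +kernel),
  List.forall_mem_cons.mpr ⟨chkT_sound0 h (T := c16_44) (by decide +kernel),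
  List.forall_mem_cons.mpr ⟨chkT_sound0 h (T := c16_45) (by decide +kernel),
  List.forall_mem_cons.mpr ⟨chkT_sound0 h (T := c16_46) (by decide +kernel),
  List.forall_mem_cons.mpr ⟨chkT_sound0 h (T := c16_47) (by decide +kernel),
  List.forall_mem_cons.mpr ⟨chkT_sound0 h (T := c16_48) (by decide +kernel),
  List.forall_mem_cons.mpr ⟨chkT_sound0 h (T := c16_49) (by decide +kernel),
  List.forall_mem_cons.mpr ⟨chkT_sound0 h (T := c16_50) (by decide +kernel),
  List.forall_mem_cons.mpr ⟨chkT_sound0 h (T := c16_51) (by decide +kernel),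
  List.forall_mem_cons.mpr ⟨chkT_sound0 h (T := c16_52) (by decide +kernel),
  List.forall_mem_cons.mpr ⟨chkT_sound0 h (T := c16_53) (by decide +kernel),
  List.forall_mem_cons.mpr ⟨chkT_sound0 h (T := c16_54) (by decide +kernel),
  List.forall_mem_cons.mpr ⟨chkT_sound0 h (T := c16_55) (by decide +kernel),
  List.forall_mem_cons.mpr ⟨chkT_sound0 h (T := c16_56) (by decide +kernel),
  List.forall_mem_cons.mpr ⟨chkT_sound0 h (T := c16_57) (by decide +kernel),
  List.forall_mem_cons.mpr ⟨chkT_sound0 h (T := c16_58) (by decide +kernel),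
  List.forall_mem_cons.mpr ⟨chkT_sound0 h (T := c16_59) (by decide +kernel),
  List.forall_mem_nil _⟩⟩⟩⟩⟩⟩⟩⟩⟩⟩⟩⟩⟩⟩⟩⟩⟩⟩⟩⟩⟩⟩⟩⟩⟩⟩⟩⟩
end TC
end Pool.Agent.Lib.MP_6947cd_al
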