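import Pool.Agent.Lib.MP_6947cd_al.C.LeafF
import Pool.Agent.Lib.MP_6947cd_al.TC.E
import Pool.Agent.Lib.MP_6947cd_al.TC.F

/-!
Problem MP_6947cd_al (Chollet).  CASE C, tables and certificates.  Trees of leaves (part 32 of root 17).
-/

set_option autoImplicit false
set_option linter.all false
set_option maxRecDepth 100000
set_option maxHeartbeats 4000000
namespace Pool.Agent.Lib.MP_6947cd_al
namespace TC
open C1
noncomputable def c17_0 : Tr Lf :=
 (.spl (nat_lit 3) (nat_lit 240) (.spl (nat_lit 6) (nat_lit 20) (.spl (nat_lit 1) (nat_lit 280) (.spl (nat_lit 5) (nat_lit 200) (.leaf ⟨(nat_lit 0), (nat_lit 1000), (nat_lit 0), (nat_lit 0), (nat_lit 0), (nat_lit 5034), (nat_lit 10436), (nat_lit 0), (nat_lit 0), (nat_lit 0), (nat_lit 0), [], Pd.none, Pd.none, (nat_lit 0), (nat_lit 1), (nat_lit 0), (nat_lit 0), (nat_lit 3), (nat_lit 0), [⟨(nat_lit 0), (nat_lit 98), (nat_lit 54), (nat_lit 100), (nat_lit 532725959)⟩], [⟨(nat_lit 0), (nat_lit 100), (nat_lit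 53), (nat_lit 77), (nat_lit 54896856)⟩], [], [],
 ⟨⟨[(nat_lit 40), (nat_lit 60)], [(nat_lit 0), (nat_lit 832)], [((nat_lit 0), (nat_lit 0), (nat_lit 0)), ((nat_lit 1000), (nat_lit 659), (nat_lit 528))], ((nat_lit 68), (nat_lit 100), (nat_lit 49))⟩, (nat_lit 0), (nat_lit 257), (nat_lit 257), (nat_lit 0), (nat_lit 567099), [(nat_lit 2032000002), (nat_lit 3282000000)], [], [(nat_lit 23627856345), (nat_lit 26250877383), (nat_lit 26196697197), (nat_lit 28278284922), (nat_lit 20605861228), (nat_lit 22777957214), (nat_lit 23143225222), (nat_lit 25041521021)], (nat_lit 1271251), (nat_lit 1271251), (nat_lit 704688), (nat_lit 1756876), (nat_lit 111251), (nat_lit 780000), [(nat_lit 490000), (nat_lit 780000)], [(nat_lit 1), (nat_lit 38), (nat_lit 317), (nat_lit 100), (nat_lit 19)]⟩,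
 ⟨⟨[(nat_lit 80), (nat_lit 120), (nat_lit 140)], [(nat_lit 0), (nat_lit 0), (nat_lit 1164)], [((nat_lit 0), (nat_lit 0), (nat_lit 0)), ((nat_lit 0), (nat_lit 0), (nat_lit 0)), ((nat_lit 941), (nat_lit 1000), (nat_lit 576))], ((nat_lit 100), (nat_lit 99), (nat_lit 44))⟩, (nat_lit 4737312), (nat_lit 173), (nat_lit 173), (nat_lit 0), (nat_lit 0), [(nat_lit 4688000000), (nat_lit 7968000000), (nat_lit 9842000000)], [], [(nat_lit 20000864932), (nat_lit 24581853885), (nat_lit 23562729440), (nat_lit 27503129008), (nat_lit 14249650669), (nat_lit 18177829713), (nat_lit 17578599544), (nat_lit 20533936708)], (nat_lit 0), (nat_lit 0), (nat_lit 0), (nat_lit 0), (nat_lit 0), (nat_lit 0), [], [(nat_lit 17), (nat_lit 58), (nat_lit 428), (nat_lit 200), (nat_lit 12)]⟩,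
 Rw.none⟩) (.leaf ⟨(nat_lit 433), (nat_lit 491), (nat_lit 0), (nat_lit 76), (nat_lit 0), (nat_lit 4174), (nat_lit 4952), (nat_lit 834), (nat_lit 0), (nat_lit 0), (nat_lit 193300), [((nat_lit 380), [((nat_lit 24), (nat_lit 0), (nat_lit 190)), ((nat_lit 41), (nat_lit 2), (nat_lit 243))])], ⟨(nat_lit 6), true, false, false, (nat_lit 212), (nat_lit 2236), (nat_lit 3163), [(nat_lit 1406804), (nat_lit 1416903), (nat_lit 1450987), (nat_lit 1462324), (nat_lit 1605240), (nat_lit 1602541), (nat_lit 1649422), (nat_lit 1647962)]⟩, ⟨(nat_lit 3), false, false, false, (nat_lit 110), (nat_lit 2236), (nat_lit 3163), [(nat_lit 1136876), (nat_lit 1152119), (nat_lit 1247334), (nat_lit 1265673), (nat_lit 1289472), (nat_lit 1294870), (nat_lit 1399976), (nat_lit 1408471)]⟩, (nat_lit 4093516), (nat_lit 47568691), (nat_lit 14314390), (nat_lit 5116919), (nat_lit 5), (nat_lit 0), [⟨(nat_lit 0), (nat_lit 98), (nat_lit 54), (nat_lit 100), (nat_lit 400015980)⟩, ⟨(nat_lit 0),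 (nat_lit 100), (nat_lit 61), (nat_lit 92), (nat_lit 21256470)⟩], [⟨(nat_lit 0), (nat_lit 100), (nat_lit 53), (nat_lit 77), (nat_lit 247163495)⟩], [⟨(nat_lit 1), (nat_lit 44), (nat_lit 96), (nat_lit 100), (nat_lit 230686230)⟩], [],
 ⟨⟨[(nat_lit 40), (nat_lit 60)], [(nat_lit 0), (nat_lit 832)], [((nat_lit 0), (nat_lit 0), (nat_lit 0)), ((nat_lit 1000), (nat_lit 659), (nat_lit 528))], ((nat_lit 68), (nat_lit 100), (nat_lit 49))⟩, (nat_lit 1080062), (nat_lit 257), (nat_lit 257), (nat_lit 0), (nat_lit 567099), [(nat_lit 1624021201), (nat_lit 2232733600)], [(nat_lit 0), (nat_lit 0)], [(nat_lit 21975646920), (nat_lit 24308130073), (nat_lit 24706944567), (nat_lit 26570845437), (nat_lit 19608101358), (nat_lit 21734676970), (nat_lit 22475707842), (nat_lit 24179408431)], (nat_lit 1271251), (nat_lit 1271251), (nat_lit 704688), (nat_lit 1756876), (nat_lit 111251), (nat_lit 780000), [(nat_lit 490000), (nat_lit 780000)], [(nat_lit 1), (nat_lit 38), (nat_lit 317),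 (nat_lit 100), (nat_lit 19)]⟩,
 ⟨⟨[(nat_lit 80), (nat_lit 120), (nat_lit 140)], [(nat_lit 0), (nat_lit 0), (nat_lit 1164)], [((nat_lit 0), (nat_lit 0), (nat_lit 0)), ((nat_lit 0), (nat_lit 0), (nat_lit 0)), ((nat_lit 941), (nat_lit 1000), (nat_lit 576))], ((nat_lit 100), (nat_lit 99), (nat_lit 44))⟩, (nat_lit 1625961), (nat_lit 143), (nat_lit 143), (nat_lit 0), (nat_lit 0), [(nat_lit 2658096000), (nat_lit 4517856000), (nat_lit 5580414000)], [], [(nat_lit 10276456862), (nat_lit 12032323522), (nat_lit 11703826438), (nat_lit 13039719060), (nat_lit 18451255791), (nat_lit 19404971530), (nat_lit 18195987480), (nat_lit 19041972486)], (nat_lit 0), (nat_lit 0), (nat_lit 0), (nat_lit 0), (nat_lit 0), (nat_lit 0), [], [(nat_lit 17), (nat_lit 58), (nat_lit 483), (nat_lit 250), (nat_lit 13)]⟩,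
 ⟨⟨[(nat_lit 140), (nat_lit 160), (nat_lit 180)], [(nat_lit 0), (nat_lit 0), (nat_lit 799)], [((nat_lit 0), (nat_lit 0), (nat_lit 0)), ((nat_lit 0), (nat_lit 0), (nat_lit 0)), ((nat_lit 728), (nat_lit 1000), (nat_lit 454))], ((nat_lit 100), (nat_lit 71), (nat_lit 48))⟩, (nat_lit 66773), (nat_lit 300), (nat_lit 2217), (nat_lit 5639203), (nat_lit 3885596), [(nat_lit 747992000), (nat_lit 902272000), (nat_lit 1068408000)], [], [(nat_lit 4739142926), (nat_lit 4480338081), (nat_lit 4413847416), (nat_lit 4158379551), (nat_lit 4566990576), (nat_lit 4309123675), (nat_lit 4067212368), (nat_lit 3801375060)], (nat_lit 780000), (nat_lit 1598751), (nat_lit 111251), (nat_lit 780000), (nat_lit 1271251), (nat_lit 1271251), [(nat_lit 1977501), (nat_lit 1271251), (nat_lit 1271251)], [(nat_lit 31), (nat_lit 65), (nat_lit 647), (nat_lit 200), (nat_lit 15)]⟩⟩)) (.trZ (nat_lit 0) (nat_lit 1) (nat_lit 3) (nat_lit 94) (nat_lit 62) (nat_lit 100) (nat_lit 150) (.leaf ⟨(nat_lit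 35), (nat_lit 965), (nat_lit 0), (nat_lit 0), (nat_lit 0), (nat_lit 4779), (nat_lit 6743), (nat_lit 0), (nat_lit 0), (nat_lit 0), (nat_lit 140000), [((nat_lit 380), [((nat_lit 41), (nat_lit 5), (nat_lit 35))])], ⟨(nat_lit 7), true, false, false, (nat_lit 242), (nat_lit 2236), (nat_lit 3163), [(nat_lit 1512044), (nat_lit 1519444), (nat_lit 1556227), (nat_lit 1564865), (nat_lit 1649422), (nat_lit 1647962), (nat_lit 1693606), (nat_lit 1693384)]⟩, ⟨(nat_lit 3), false, false, false, (nat_lit 110), (nat_lit 2236), (nat_lit 3163), [(nat_lit 1136876), (nat_lit 1152119), (nat_lit 1247334), (nat_lit 1265673), (nat_lit 1289472), (nat_lit 1294870), (nat_lit 1399976), (nat_lit 1408471)]⟩, (nat_lit 4312446), (nat_lit 44807508), (nat_lit 17212553), (nat_lit 4979939), (nat_lit 3), (nat_lit 0), [⟨(nat_lit 0), (nat_lit 87), (nat_lit 53), (nat_lit 100), (nat_lit 82056013)⟩, ⟨(nat_lit 0), (nat_lit 94), (nat_lit 62), (nat_lit 100), (nat_lit 428786826)⟩], [⟨(nat_lit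 0), (nat_lit 100), (nat_lit 53), (nat_lit 77), (nat_lit 27042473)⟩], [⟨(nat_lit 1), (nat_lit 31), (nat_lit 92), (nat_lit 100), (nat_lit 303522345)⟩], [],
 ⟨⟨[(nat_lit 40), (nat_lit 60)], [(nat_lit 0), (nat_lit 832)], [((nat_lit 0), (nat_lit 0), (nat_lit 0)), ((nat_lit 1000), (nat_lit 659), (nat_lit 528))], ((nat_lit 68), (nat_lit 100), (nat_lit 49))⟩, (nat_lit 1409317), (nat_lit 297), (nat_lit 297), (nat_lit 0), (nat_lit 715509), [(nat_lit 1896298001), (nat_lit 2877456000)], [(nat_lit 0), (nat_lit 0)], [(nat_lit 23057740208), (nat_lit 25457854155), (nat_lit 25754968220), (nat_lit 27772009261), (nat_lit 20398926081), (nat_lit 22447607056), (nat_lit 22945298557), (nat_lit 24785894614)], (nat_lit 1271251), (nat_lit 1271251), (nat_lit 1017188), (nat_lit 1779376), (nat_lit 111251), (nat_lit 780000), [(nat_lit 490000), (nat_lit 780000)], [(nat_lit 1), (nat_lit 38), (nat_lit 238), (nat_lit 30), (nat_lit 13)]⟩,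
 ⟨⟨[(nat_lit 60), (nat_lit 100), (nat_lit 120)], [(nat_lit 0), (nat_lit 0), (nat_lit 1164)], [((nat_lit 0), (nat_lit 0), (nat_lit 0)), ((nat_lit 0), (nat_lit 0), (nat_lit 0)), ((nat_lit 1000), (nat_lit 933), (nat_lit 572))], ((nat_lit 92), (nat_lit 100), (nat_lit 44))⟩, (nat_lit 2036792), (nat_lit 142), (nat_lit 142), (nat_lit 0), (nat_lit 0), [(nat_lit 3167130000), (nat_lit 6031250000), (nat_lit 7689120000)], [], [(nat_lit 20894884103), (nat_lit 24507900016), (nat_lit 24166938236), (nat_lit 27128211080), (nat_lit 30009356294), (nat_lit 31750350011), (nat_lit 30680337440), (nat_lit 32295217868)], (nat_lit 0), (nat_lit 0), (nat_lit 0), (nat_lit 0), (nat_lit 0), (nat_lit 0), [], [(nat_lit 10), (nat_lit 54), (nat_lit 401), (nat_lit 175), (nat_lit 13)]⟩,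
 Rw.none⟩))) (.spl (nat_lit 1) (nat_lit 280) (.spl (nat_lit 0) (nat_lit 370) (.leaf ⟨(nat_lit 627), (nat_lit 313), (nat_lit 0), (nat_lit 60), (nat_lit 0), (nat_lit 3935), (nat_lit 3196), (nat_lit 626), (nat_lit 0), (nat_lit 0), (nat_lit 326850), [((nat_lit 370), [((nat_lit 24), (nat_lit 0), (nat_lit 141)), ((nat_lit 41), (nat_lit 2), (nat_lit 486))])], ⟨(nat_lit 6), true, false, false, (nat_lit 212), (nat_lit 2738), (nat_lit 3163), [(nat_lit 1407099), (nat_lit 1411881), (nat_lit 1451384), (nat_lit 1456691), (nat_lit 1605257), (nat_lit 1603890), (nat_lit 1649542), (nat_lit 1648700)]⟩, ⟨(nat_lit 3), false, false, false, (nat_lit 109), (nat_lit 2738), (nat_lit 3163), [(nat_lit 1137055), (nat_lit 1144520), (nat_lit 1247770), (nat_lit 1256546), (nat_lit 1289472), (nat_lit 1292206), (nat_lit 1400199), (nat_lit 1404246)]⟩, (nat_lit 4075911), (nat_lit 47674288), (nat_lit 14285491), (nat_lit 5040221), (nat_lit 3), (nat_lit 0), [⟨(nat_lit 0), (nat_lit 100),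 (nat_lit 59), (nat_lit 100), (nat_lit 221682740)⟩, ⟨(nat_lit 0), (nat_lit 93), (nat_lit 53), (nat_lit 100), (nat_lit 14355024)⟩], [⟨(nat_lit 0), (nat_lit 100), (nat_lit 57), (nat_lit 74), (nat_lit 134332659)⟩], [⟨(nat_lit 1), (nat_lit 44), (nat_lit 96), (nat_lit 100), (nat_lit 15871754)⟩], [],
 ⟨⟨[(nat_lit 40), (nat_lit 60), (nat_lit 80)], [(nat_lit 0), (nat_lit 832), (nat_lit 1534)], [((nat_lit 0), (nat_lit 0), (nat_lit 0)), ((nat_lit 1000), (nat_lit 659), (nat_lit 528)), ((nat_lit 1000), (nat_lit 650), (nat_lit 549))], ((nat_lit 63), (nat_lit 100), (nat_lit 62))⟩, (nat_lit 234863), (nat_lit 231), (nat_lit 231), (nat_lit 0), (nat_lit 372232), [(nat_lit 1514954801), (nat_lit 1645320361), (nat_lit 1967372239)], [(nat_lit 0), (nat_lit 0), (nat_lit 0)], [(nat_lit 21516486394), (nat_lit 22642356718), (nat_lit 24292931918), (nat_lit 25194634005), (nat_lit 19767979951), (nat_lit 20445922715), (nat_lit 22302802639), (nat_lit 23115010717)], (nat_lit 1271251),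 (nat_lit 1271251), (nat_lit 704688), (nat_lit 1756876), (nat_lit 111251), (nat_lit 780000), [(nat_lit 490000), (nat_lit 780000), (nat_lit 1100000)], [(nat_lit 2), (nat_lit 44), (nat_lit 317), (nat_lit 100), (nat_lit 14)]⟩,
 ⟨⟨[(nat_lit 80), (nat_lit 120), (nat_lit 160)], [(nat_lit 0), (nat_lit 0), (nat_lit 2132)], [((nat_lit 0), (nat_lit 0), (nat_lit 0)), ((nat_lit 0), (nat_lit 0), (nat_lit 0)), ((nat_lit 858), (nat_lit 1000), (nat_lit 713))], ((nat_lit 100), (nat_lit 92), (nat_lit 61))⟩, (nat_lit 1192585), (nat_lit 225), (nat_lit 225), (nat_lit 0), (nat_lit 0), [(nat_lit 1748624000), (nat_lit 2972064000), (nat_lit 4428256000)], [], [(nat_lit 9562481006), (nat_lit 10852041647), (nat_lit 10465360932), (nat_lit 11453200432), (nat_lit 12301978196), (nat_lit 12765607727), (nat_lit 11997213544), (nat_lit 12463492954)], (nat_lit 0), (nat_lit 0), (nat_lit 0), (nat_lit 0), (nat_lit 0), (nat_lit 0), [], [(nat_lit 18), (nat_lit 59), (nat_lit 483), (nat_lit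 250), (nat_lit 12)]⟩,
 ⟨⟨[(nat_lit 140), (nat_lit 180), (nat_lit 200)], [(nat_lit 0), (nat_lit 0), (nat_lit 2835)], [((nat_lit 0), (nat_lit 0), (nat_lit 0)), ((nat_lit 0), (nat_lit 0), (nat_lit 0)), ((nat_lit 363), (nat_lit 1000), (nat_lit 798))], ((nat_lit 0), (nat_lit 0), (nat_lit 0))⟩, (nat_lit 16508), (nat_lit 300), (nat_lit 1705), (nat_lit 4686000), (nat_lit 2486100), [(nat_lit 590520000), (nat_lit 843480000), (nat_lit 984000000)], [], [(nat_lit 5346090962), (nat_lit 5123864718), (nat_lit 5044264542), (nat_lit 4826315642), (nat_lit 4475199644), (nat_lit 4258521645), (nat_lit 4190231727), (nat_lit 4703623168)], (nat_lit 780000), (nat_lit 1598751), (nat_lit 111251), (nat_lit 780000), (nat_lit 0), (nat_lit 2825001), [(nat_lit 1977501), (nat_lit 1271251), (nat_lit 1271251)], [(nat_lit 32), (nat_lit 67), (nat_lit 519), (nat_lit 200), (nat_lit 12)]⟩⟩) (.trZ (nat_lit 0) (nat_lit 1) (nat_lit 3) (nat_lit 100) (nat_lit 54) (nat_lit 96) (nat_lit 130)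 (.trZ (nat_lit 0) (nat_lit 2) (nat_lit 4) (nat_lit 100) (nat_lit 57) (nat_lit 62) (nat_lit 30) (.leaf ⟨(nat_lit 599), (nat_lit 343), (nat_lit 0), (nat_lit 58), (nat_lit 0), (nat_lit 3890), (nat_lit 3436), (nat_lit 568), (nat_lit 0), (nat_lit 0), (nat_lit 239600), [((nat_lit 380), [((nat_lit 24), (nat_lit 1), (nat_lit 599))])], ⟨(nat_lit 6), true, false, false, (nat_lit 218), (nat_lit 2236), (nat_lit 2739), [(nat_lit 1441375), (nat_lit 1445669), (nat_lit 1486169), (nat_lit 1491177), (nat_lit 1603890), (nat_lit 1602558), (nat_lit 1648684), (nat_lit 1648065)]⟩, ⟨(nat_lit 3), false, false, false, (nat_lit 114), (nat_lit 2236), (nat_lit 2739), [(nat_lit 1159252), (nat_lit 1166519), (nat_lit 1271238), (nat_lit 1280289), (nat_lit 1292206), (nat_lit 1294870), (nat_lit 1404204), (nat_lit 1408652)]⟩, (nat_lit 4195651), (nat_lit 46737264), (nat_lit 14887793), (nat_lit 5374943), (nat_lit 3), (nat_lit 0), [⟨(nat_lit 0), (nat_lit 97), (nat_lit 49), (nat_lit 100),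 (nat_lit 256076126)⟩], [⟨(nat_lit 0), (nat_lit 100), (nat_lit 49), (nat_lit 80), (nat_lit 199501141)⟩], [⟨(nat_lit 1), (nat_lit 44), (nat_lit 96), (nat_lit 100), (nat_lit 30065249)⟩], [],
 ⟨⟨[(nat_lit 40), (nat_lit 60), (nat_lit 80)], [(nat_lit 0), (nat_lit 1134), (nat_lit 1930)], [((nat_lit 0), (nat_lit 0), (nat_lit 0)), ((nat_lit 1000), (nat_lit 575), (nat_lit 619)), ((nat_lit 1000), (nat_lit 574), (nat_lit 622))], ((nat_lit 57), (nat_lit 100), (nat_lit 64))⟩, (nat_lit 503044), (nat_lit 244), (nat_lit 244), (nat_lit 0), (nat_lit 412278), [(nat_lit 1545222010), (nat_lit 1903581237), (nat_lit 2451573600)], [(nat_lit 0), (nat_lit 0), (nat_lit 0)], [(nat_lit 22189160361), (nat_lit 23271089000), (nat_lit 24749876705), (nat_lit 25640266412), (nat_lit 20570736010), (nat_lit 21466545010), (nat_lit 23074991328), (nat_lit 23894710785)], (nat_lit 1271251), (nat_lit 1271251), (nat_lit 857188), (nat_lit 1768126), (nat_lit 169688), (nat_lit 780000), [(nat_lit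 490000), (nat_lit 780000), (nat_lit 1100000)], [(nat_lit 2), (nat_lit 44), (nat_lit 317), (nat_lit 100), (nat_lit 14)]⟩,
 ⟨⟨[(nat_lit 80), (nat_lit 120), (nat_lit 160)], [(nat_lit 0), (nat_lit 0), (nat_lit 2132)], [((nat_lit 0), (nat_lit 0), (nat_lit 0)), ((nat_lit 0), (nat_lit 0), (nat_lit 0)), ((nat_lit 858), (nat_lit 1000), (nat_lit 713))], ((nat_lit 100), (nat_lit 92), (nat_lit 61))⟩, (nat_lit 1264737), (nat_lit 216), (nat_lit 216), (nat_lit 0), (nat_lit 0), [(nat_lit 1879888000), (nat_lit 3195168000), (nat_lit 4760672000)], [], [(nat_lit 10244551229), (nat_lit 11590303548), (nat_lit 11288022884), (nat_lit 12350031168), (nat_lit 13042916932), (nat_lit 13525055513), (nat_lit 12897771080), (nat_lit 13399178258)], (nat_lit 0), (nat_lit 0), (nat_lit 0), (nat_lit 0), (nat_lit 0), (nat_lit 0), [], [(nat_lit 18), (nat_lit 59), (nat_lit 483), (nat_lit 250), (nat_lit 12)]⟩,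
 ⟨⟨[(nat_lit 140), (nat_lit 180), (nat_lit 200)], [(nat_lit 0), (nat_lit 0), (nat_lit 2835)], [((nat_lit 0), (nat_lit 0), (nat_lit 0)), ((nat_lit 0), (nat_lit 0), (nat_lit 0)), ((nat_lit 363), (nat_lit 1000), (nat_lit 798))], ((nat_lit 0), (nat_lit 0), (nat_lit 0))⟩, (nat_lit 15958), (nat_lit 300), (nat_lit 1883), (nat_lit 4529800), (nat_lit 2878795), [(nat_lit 570836000), (nat_lit 815364000), (nat_lit 951200000)], [], [(nat_lit 5625434494), (nat_lit 5431326170), (nat_lit 5396015508), (nat_lit 5204947962), (nat_lit 4864073421), (nat_lit 4675174030), (nat_lit 4646611520), (nat_lit 4461436192)], (nat_lit 780000), (nat_lit 1598751), (nat_lit 169688), (nat_lit 780000), (nat_lit 0), (nat_lit 2825001), [(nat_lit 1977501), (nat_lit 1271251), (nat_lit 1271251)], [(nat_lit 32), (nat_lit 67), (nat_lit 564), (nat_lit 200), (nat_lit 12)]⟩⟩)))) (.trZ (nat_lit 0) (nat_lit 1) (nat_lit 3) (nat_lit 94) (nat_lit 62) (nat_lit 100) (nat_lit 150) (.leaf ⟨(nat_lit 35),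 (nat_lit 965), (nat_lit 0), (nat_lit 0), (nat_lit 0), (nat_lit 5115), (nat_lit 6743), (nat_lit 0), (nat_lit 0), (nat_lit 0), (nat_lit 140000), [((nat_lit 380), [((nat_lit 41), (nat_lit 5), (nat_lit 35))])], ⟨(nat_lit 7), true, false, false, (nat_lit 242), (nat_lit 2236), (nat_lit 3163), [(nat_lit 1512044), (nat_lit 1519444), (nat_lit 1556227), (nat_lit 1564865), (nat_lit 1649422), (nat_lit 1647962), (nat_lit 1693606), (nat_lit 1693384)]⟩, ⟨(nat_lit 3), false, false, false, (nat_lit 110), (nat_lit 2236), (nat_lit 3163), [(nat_lit 1136876), (nat_lit 1152119), (nat_lit 1247334), (nat_lit 1265673), (nat_lit 1289472), (nat_lit 1294870), (nat_lit 1399976), (nat_lit 1408471)]⟩, (nat_lit 4312446), (nat_lit 44807508), (nat_lit 17212553), (nat_lit 4979939), (nat_lit 3), (nat_lit 0), [⟨(nat_lit 0), (nat_lit 87), (nat_lit 53), (nat_lit 100), (nat_lit 426734901)⟩, ⟨(nat_lit 0), (nat_lit 94), (nat_lit 62), (nat_lit 100), (nat_lit 159547924)⟩], [⟨(nat_lit 0),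 (nat_lit 100), (nat_lit 53), (nat_lit 77), (nat_lit 55994960)⟩], [⟨(nat_lit 1), (nat_lit 31), (nat_lit 92), (nat_lit 100), (nat_lit 285333516)⟩], [],
 ⟨⟨[(nat_lit 40), (nat_lit 60), (nat_lit 80)], [(nat_lit 0), (nat_lit 832), (nat_lit 1534)], [((nat_lit 0), (nat_lit 0), (nat_lit 0)), ((nat_lit 1000), (nat_lit 659), (nat_lit 528)), ((nat_lit 1000), (nat_lit 650), (nat_lit 549))], ((nat_lit 63), (nat_lit 100), (nat_lit 62))⟩, (nat_lit 387606), (nat_lit 287), (nat_lit 287), (nat_lit 0), (nat_lit 555387), [(nat_lit 1896298012), (nat_lit 2877456015), (nat_lit 3926274000)], [(nat_lit 0), (nat_lit 0), (nat_lit 0)], [(nat_lit 23630900684), (nat_lit 26137136787), (nat_lit 26337011108), (nat_lit 28439101897), (nat_lit 20909178057), (nat_lit 22821367048), (nat_lit 23363542521), (nat_lit 25122719998)], (nat_lit 1271251), (nat_lit 1271251), (nat_lit 1017188), (nat_lit 1779376), (nat_lit 111251), (nat_lit 780000), [(nat_lit 490000), (nat_lit 780000), (nat_lit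 1100000)], [(nat_lit 2), (nat_lit 44), (nat_lit 317), (nat_lit 100), (nat_lit 14)]⟩,
 ⟨⟨[(nat_lit 60), (nat_lit 100), (nat_lit 140)], [(nat_lit 0), (nat_lit 0), (nat_lit 2047)], [((nat_lit 0), (nat_lit 0), (nat_lit 0)), ((nat_lit 0), (nat_lit 0), (nat_lit 0)), ((nat_lit 1000), (nat_lit 993), (nat_lit 781))], ((nat_lit 94), (nat_lit 100), (nat_lit 62))⟩, (nat_lit 2572528), (nat_lit 176), (nat_lit 176), (nat_lit 0), (nat_lit 0), [(nat_lit 3167130000), (nat_lit 6031250000), (nat_lit 9497530000)], [], [(nat_lit 22786395257), (nat_lit 25993145971), (nat_lit 25505664368), (nat_lit 28139262028), (nat_lit 30009356294), (nat_lit 31750350011), (nat_lit 30680337440), (nat_lit 32295217868)], (nat_lit 0), (nat_lit 0), (nat_lit 0), (nat_lit 0), (nat_lit 0), (nat_lit 0), [], [(nat_lit 11), (nat_lit 55), (nat_lit 401), (nat_lit 175), (nat_lit 11)]⟩,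
 Rw.none⟩)))) (.trX (nat_lit 5) (nat_lit 3) (nat_lit 4) (nat_lit 100) (nat_lit 59) (nat_lit 94) (nat_lit 370) (.spl (nat_lit 0) (nat_lit 370) (.leaf ⟨(nat_lit 35), (nat_lit 965), (nat_lit 0), (nat_lit 0), (nat_lit 0), (nat_lit 6346), (nat_lit 7963), (nat_lit 0), (nat_lit 0), (nat_lit 0), (nat_lit 140000), [((nat_lit 370), [((nat_lit 41), (nat_lit 5), (nat_lit 35))])], ⟨(nat_lit 6), true, false, true, (nat_lit 308), (nat_lit 2738), (nat_lit 3163), [(nat_lit 1605257), (nat_lit 1603890), (nat_lit 1693828), (nat_lit 1693511), (nat_lit 1849075), (nat_lit 1840140), (nat_lit 1937695), (nat_lit 1929809)]⟩, ⟨(nat_lit 3), false, false, false, (nat_lit 109), (nat_lit 2738), (nat_lit 3163), [(nat_lit 1137055), (nat_lit 1144520), (nat_lit 1247770), (nat_lit 1256546), (nat_lit 1289472), (nat_lit 1292206), (nat_lit 1400199), (nat_lit 1404246)]⟩, (nat_lit 4579535), (nat_lit 38942545), (nat_lit 23547813), (nat_lit 4509642), (nat_lit 3), (nat_lit 0), [], [], [],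 [⟨(nat_lit 1), (nat_lit 100), (nat_lit 82), (nat_lit 78), (nat_lit 211509691)⟩],
 ⟨⟨[(nat_lit 40), (nat_lit 60), (nat_lit 80)], [(nat_lit 0), (nat_lit 832), (nat_lit 1534)], [((nat_lit 0), (nat_lit 0), (nat_lit 0)), ((nat_lit 1000), (nat_lit 659), (nat_lit 528)), ((nat_lit 1000), (nat_lit 650), (nat_lit 549))], ((nat_lit 63), (nat_lit 100), (nat_lit 62))⟩, (nat_lit 868637), (nat_lit 300), (nat_lit 357), (nat_lit 47407451), (nat_lit 696994), [(nat_lit 1896298001), (nat_lit 3239658005), (nat_lit 3926274000)], [(nat_lit 0), (nat_lit 0), (nat_lit 0)], [(nat_lit 28469436093), (nat_lit 29676279464), (nat_lit 40526446185), (nat_lit 41257489171), (nat_lit 24782722023), (nat_lit 25285537728), (nat_lit 35313575966), (nat_lit 35992237770)], (nat_lit 1271251), (nat_lit 1271251), (nat_lit 1271251), (nat_lit 1271251), (nat_lit 111251), (nat_lit 780000), [(nat_lit 490000), (nat_lit 780000), (nat_lit 1100000)], [(nat_lit 2), (nat_lit 44), (nat_lit 238), (nat_lit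 30), (nat_lit 10)]⟩,
 ⟨⟨[(nat_lit 80), (nat_lit 120), (nat_lit 160)], [(nat_lit 0), (nat_lit 0), (nat_lit 2132)], [((nat_lit 0), (nat_lit 0), (nat_lit 0)), ((nat_lit 0), (nat_lit 0), (nat_lit 0)), ((nat_lit 858), (nat_lit 1000), (nat_lit 713))], ((nat_lit 100), (nat_lit 92), (nat_lit 61))⟩, (nat_lit 3296193), (nat_lit 252), (nat_lit 252), (nat_lit 0), (nat_lit 0), [(nat_lit 4523920000), (nat_lit 7689120000), (nat_lit 11456480000)], [], [(nat_lit 26548325012), (nat_lit 31555606528), (nat_lit 38094258476), (nat_lit 42807665968), (nat_lit 29000264699), (nat_lit 31794457391), (nat_lit 36738869536), (nat_lit 38700937931)], (nat_lit 0), (nat_lit 0), (nat_lit 0), (nat_lit 0), (nat_lit 0), (nat_lit 0), [], [(nat_lit 18), (nat_lit 59), (nat_lit 538), (nat_lit 300), (nat_lit 13)]⟩,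
 Rw.none⟩) (.trX (nat_lit 3) (nat_lit 0) (nat_lit 1) (nat_lit 66) (nat_lit 45) (nat_lit 100) (nat_lit 390) (.trZ (nat_lit 0) (nat_lit 2) (nat_lit 4) (nat_lit 100) (nat_lit 57) (nat_lit 62) (nat_lit 30) (.leaf ⟨(nat_lit 35), (nat_lit 965), (nat_lit 0), (nat_lit 0), (nat_lit 0), (nat_lit 6224), (nat_lit 8249), (nat_lit 0), (nat_lit 0), (nat_lit 0), (nat_lit 140000), [((nat_lit 380), [((nat_lit 41), (nat_lit 5), (nat_lit 35))])], ⟨(nat_lit 6), true, false, true, (nat_lit 303), (nat_lit 2236), (nat_lit 2739), [(nat_lit 1603890), (nat_lit 1602558), (nat_lit 1693478), (nat_lit 1693574), (nat_lit 1825375), (nat_lit 1816371), (nat_lit 1915044), (nat_lit 1907468)]⟩, ⟨(nat_lit 3), false, false, false, (nat_lit 114), (nat_lit 2236), (nat_lit 2739), [(nat_lit 1159252), (nat_lit 1166519), (nat_lit 1271238), (nat_lit 1280289), (nat_lit 1292206), (nat_lit 1294870), (nat_lit 1404204), (nat_lit 1408652)]⟩, (nat_lit 4625184), (nat_lit 39132954), (nat_lit 23003488),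 (nat_lit 4863558), (nat_lit 3), (nat_lit 0), [], [⟨(nat_lit 0), (nat_lit 100), (nat_lit 44), (nat_lit 94), (nat_lit 205670490)⟩], [], [⟨(nat_lit 1), (nat_lit 100), (nat_lit 85), (nat_lit 81), (nat_lit 199703442)⟩],
 ⟨⟨[(nat_lit 40), (nat_lit 60), (nat_lit 80)], [(nat_lit 0), (nat_lit 1134), (nat_lit 1930)], [((nat_lit 0), (nat_lit 0), (nat_lit 0)), ((nat_lit 1000), (nat_lit 575), (nat_lit 619)), ((nat_lit 1000), (nat_lit 574), (nat_lit 622))], ((nat_lit 57), (nat_lit 100), (nat_lit 64))⟩, (nat_lit 650387), (nat_lit 300), (nat_lit 357), (nat_lit 47407451), (nat_lit 717214), [(nat_lit 1896298003), (nat_lit 3249503582), (nat_lit 3926274000)], [(nat_lit 0), (nat_lit 0), (nat_lit 0)], [(nat_lit 28785325215), (nat_lit 29968949783), (nat_lit 39390172051), (nat_lit 40139148337), (nat_lit 25735824645), (nat_lit 26234444256), (nat_lit 35025255087), (nat_lit 35722528830)], (nat_lit 1271251), (nat_lit 1271251), (nat_lit 1271251), (nat_lit 1271251), (nat_lit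 169688), (nat_lit 780000), [(nat_lit 490000), (nat_lit 780000), (nat_lit 1100000)], [(nat_lit 2), (nat_lit 44), (nat_lit 238), (nat_lit 30), (nat_lit 9)]⟩,
 ⟨⟨[(nat_lit 80), (nat_lit 120), (nat_lit 160)], [(nat_lit 0), (nat_lit 0), (nat_lit 2132)], [((nat_lit 0), (nat_lit 0), (nat_lit 0)), ((nat_lit 0), (nat_lit 0), (nat_lit 0)), ((nat_lit 858), (nat_lit 1000), (nat_lit 713))], ((nat_lit 100), (nat_lit 92), (nat_lit 61))⟩, (nat_lit 3145714), (nat_lit 250), (nat_lit 250), (nat_lit 0), (nat_lit 0), [(nat_lit 4523920000), (nat_lit 7689120000), (nat_lit 11456480000)], [], [(nat_lit 26941680416), (nat_lit 32046388404), (nat_lit 37884377827), (nat_lit 42457647492), (nat_lit 28827103997), (nat_lit 31653878238), (nat_lit 36411918862), (nat_lit 38515893560)], (nat_lit 0), (nat_lit 0), (nat_lit 0), (nat_lit 0), (nat_lit 0), (nat_lit 0), [], [(nat_lit 18), (nat_lit 59), (nat_lit 538), (nat_lit 300), (nat_lit 13)]⟩,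
 Rw.none⟩))))))
noncomputable def c17_1 : Tr Lf :=
 (.spl (nat_lit 1) (nat_lit 280) (.spl (nat_lit 2) (nat_lit 180) (.spl (nat_lit 1) (nat_lit 260) (.leaf ⟨(nat_lit 973), (nat_lit 17), (nat_lit 0), (nat_lit 10), (nat_lit 0), (nat_lit 3392), (nat_lit 286), (nat_lit 111), (nat_lit 0), (nat_lit 0), (nat_lit 458200), [((nat_lit 380), [((nat_lit 24), (nat_lit 1), (nat_lit 628)), ((nat_lit 41), (nat_lit 2), (nat_lit 345))])], ⟨(nat_lit 6), false, false, false, (nat_lit 208), (nat_lit 2236), (nat_lit 3163), [(nat_lit 1406804), (nat_lit 1416903), (nat_lit 1428895), (nat_lit 1439613), (nat_lit 1605240), (nat_lit 1602541), (nat_lit 1627331), (nat_lit 1625251)]⟩, ⟨(nat_lit 3), false, false, false, (nat_lit 101), (nat_lit 2236), (nat_lit 3163), [(nat_lit 1136876), (nat_lit 1152119), (nat_lit 1203150), (nat_lit 1220251), (nat_lit 1289472), (nat_lit 1294870), (nat_lit 1355794), (nat_lit 1363050)]⟩, (nat_lit 3939720), (nat_lit 48533522), (nat_lit 13940858), (nat_lit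 4525620), (nat_lit 3), (nat_lit 0), [], [⟨(nat_lit 0), (nat_lit 100), (nat_lit 54), (nat_lit 71), (nat_lit 173074872)⟩], [], [],
 ⟨⟨[(nat_lit 40), (nat_lit 60), (nat_lit 80)], [(nat_lit 0), (nat_lit 832), (nat_lit 1534)], [((nat_lit 0), (nat_lit 0), (nat_lit 0)), ((nat_lit 1000), (nat_lit 659), (nat_lit 528)), ((nat_lit 1000), (nat_lit 650), (nat_lit 549))], ((nat_lit 63), (nat_lit 100), (nat_lit 62))⟩, (nat_lit 0), (nat_lit 204), (nat_lit 204), (nat_lit 0), (nat_lit 272920), [(nat_lit 1359242001), (nat_lit 961886751), (nat_lit 707723200)], [(nat_lit 0), (nat_lit 0), (nat_lit 0)], [(nat_lit 20473289048), (nat_lit 22541585426), (nat_lit 23352309036), (nat_lit 25018266742), (nat_lit 19523443115), (nat_lit 20843483936), (nat_lit 22227036419), (nat_lit 23395487448)], (nat_lit 1271251), (nat_lit 1271251), (nat_lit 704688), (nat_lit 1756876), (nat_lit 111251), (nat_lit 780000), [(nat_lit 490000), (nat_lit 780000), (nat_lit 1100000)], [(nat_lit 2), (nat_lit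 44), (nat_lit 317), (nat_lit 100), (nat_lit 14)]⟩,
 ⟨⟨[(nat_lit 80), (nat_lit 120), (nat_lit 160)], [(nat_lit 0), (nat_lit 0), (nat_lit 2132)], [((nat_lit 0), (nat_lit 0), (nat_lit 0)), ((nat_lit 0), (nat_lit 0), (nat_lit 0)), ((nat_lit 858), (nat_lit 1000), (nat_lit 713))], ((nat_lit 100), (nat_lit 92), (nat_lit 61))⟩, (nat_lit 0), (nat_lit 1023), (nat_lit 1023), (nat_lit 0), (nat_lit 1547327), [(nat_lit 126576000), (nat_lit 215136000), (nat_lit 320544000)], [], [(nat_lit 1615920311), (nat_lit 1462906772), (nat_lit 993384988), (nat_lit 1006022599), (nat_lit 1090288639), (nat_lit 1096267719), (nat_lit 1594510424), (nat_lit 1473618510)], (nat_lit 1271251), (nat_lit 1271251), (nat_lit 704688), (nat_lit 1756876), (nat_lit 0), (nat_lit 2825001), [(nat_lit 1100000), (nat_lit 1785001), (nat_lit 1271251)], [(nat_lit 18), (nat_lit 59), (nat_lit 456), (nat_lit 225), (nat_lit 12)]⟩,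
 ⟨⟨[(nat_lit 140), (nat_lit 180), (nat_lit 200)], [(nat_lit 0), (nat_lit 0), (nat_lit 2835)], [((nat_lit 0), (nat_lit 0), (nat_lit 0)), ((nat_lit 0), (nat_lit 0), (nat_lit 0)), ((nat_lit 363), (nat_lit 1000), (nat_lit 798))], ((nat_lit 0), (nat_lit 0), (nat_lit 0))⟩, (nat_lit 2751), (nat_lit 300), (nat_lit 1083), (nat_lit 781005), (nat_lit 1072315), [(nat_lit 98420000), (nat_lit 140580000), (nat_lit 164000000)], [], [(nat_lit 868533933), (nat_lit 821063565), (nat_lit 779032976), (nat_lit 753198074), (nat_lit 691596951), (nat_lit 664862565), (nat_lit 648320636), (nat_lit 738143100)], (nat_lit 780000), (nat_lit 1271251), (nat_lit 111251), (nat_lit 780000), (nat_lit 0), (nat_lit 2825001), [(nat_lit 1977501), (nat_lit 1271251), (nat_lit 1271251)], [(nat_lit 32), (nat_lit 67), (nat_lit 401), (nat_lit 175), (nat_lit 9)]⟩⟩) (.trZ (nat_lit 0) (nat_lit 1) (nat_lit 3) (nat_lit 100) (nat_lit 63) (nat_lit 99) (nat_lit 130) (.trX (nat_lit 5) (nat_lit 1) (nat_lit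 2) (nat_lit 96) (nat_lit 40) (nat_lit 100) (nat_lit 390) (.leaf ⟨(nat_lit 913), (nat_lit 62), (nat_lit 0), (nat_lit 25), (nat_lit 0), (nat_lit 3314), (nat_lit 700), (nat_lit 282), (nat_lit 0), (nat_lit 0), (nat_lit 432000), [((nat_lit 380), [((nat_lit 24), (nat_lit 1), (nat_lit 579)), ((nat_lit 41), (nat_lit 2), (nat_lit 334))])], ⟨(nat_lit 6), false, false, false, (nat_lit 222), (nat_lit 2236), (nat_lit 3163), [(nat_lit 1459424), (nat_lit 1468173), (nat_lit 1481515), (nat_lit 1490884), (nat_lit 1627331), (nat_lit 1625251), (nat_lit 1649422), (nat_lit 1647962)]⟩, ⟨(nat_lit 3), false, false, false, (nat_lit 101), (nat_lit 2236), (nat_lit 3163), [(nat_lit 1136876), (nat_lit 1152119), (nat_lit 1203150), (nat_lit 1220251), (nat_lit 1289472), (nat_lit 1294870), (nat_lit 1355794), (nat_lit 1363050)]⟩, (nat_lit 4064581), (nat_lit 47123671), (nat_lit 15401513), (nat_lit 4474816), (nat_lit 3), (nat_lit 0), [], [⟨(nat_lit 0), (nat_lit 100), (nat_lit 54),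 (nat_lit 71), (nat_lit 107389942)⟩], [], [],
 ⟨⟨[(nat_lit 40), (nat_lit 60), (nat_lit 80)], [(nat_lit 0), (nat_lit 832), (nat_lit 1534)], [((nat_lit 0), (nat_lit 0), (nat_lit 0)), ((nat_lit 1000), (nat_lit 659), (nat_lit 528)), ((nat_lit 1000), (nat_lit 650), (nat_lit 549))], ((nat_lit 63), (nat_lit 100), (nat_lit 62))⟩, (nat_lit 0), (nat_lit 205), (nat_lit 205), (nat_lit 0), (nat_lit 293008), [(nat_lit 1385459602), (nat_lit 1051187315), (nat_lit 942818400)], [(nat_lit 0), (nat_lit 0), (nat_lit 0)], [(nat_lit 20441064897), (nat_lit 22430741888), (nat_lit 23217191937), (nat_lit 24863405952), (nat_lit 20279740167), (nat_lit 21552133946), (nat_lit 22734965578), (nat_lit 23810277982)], (nat_lit 1271251), (nat_lit 1271251), (nat_lit 857188), (nat_lit 1768126), (nat_lit 111251), (nat_lit 780000), [(nat_lit 490000), (nat_lit 780000), (nat_lit 1100000)], [(nat_lit 2), (nat_lit 44), (nat_lit 317), (nat_lit 100), (nat_lit 14)]⟩,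
 ⟨⟨[(nat_lit 80), (nat_lit 120), (nat_lit 140)], [(nat_lit 0), (nat_lit 528), (nat_lit 1572)], [((nat_lit 0), (nat_lit 0), (nat_lit 0)), ((nat_lit 1000), (nat_lit 959), (nat_lit 206)), ((nat_lit 966), (nat_lit 1000), (nat_lit 679))], ((nat_lit 100), (nat_lit 99), (nat_lit 63))⟩, (nat_lit 0), (nat_lit 885), (nat_lit 885), (nat_lit 0), (nat_lit 1428175), [(nat_lit 407856000), (nat_lit 693216000), (nat_lit 856254000)], [], [(nat_lit 3819028493), (nat_lit 3447391055), (nat_lit 3373742141), (nat_lit 3422183718), (nat_lit 3397024846), (nat_lit 3414495168), (nat_lit 4590332624), (nat_lit 4293528074)], (nat_lit 1271251), (nat_lit 1271251), (nat_lit 857188), (nat_lit 1768126), (nat_lit 0), (nat_lit 2754376), [(nat_lit 1100000), (nat_lit 1785001), (nat_lit 1271251)], [(nat_lit 17), (nat_lit 58), (nat_lit 483), (nat_lit 250), (nat_lit 14)]⟩,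
 ⟨⟨[(nat_lit 140), (nat_lit 180), (nat_lit 200)], [(nat_lit 0), (nat_lit 0), (nat_lit 2835)], [((nat_lit 0), (nat_lit 0), (nat_lit 0)), ((nat_lit 0), (nat_lit 0), (nat_lit 0)), ((nat_lit 363), (nat_lit 1000), (nat_lit 798))], ((nat_lit 0), (nat_lit 0), (nat_lit 0))⟩, (nat_lit 6878), (nat_lit 300), (nat_lit 1114), (nat_lit 1952505), (nat_lit 1149748), [(nat_lit 246050000), (nat_lit 351450000), (nat_lit 410000000)], [], [(nat_lit 2187914097), (nat_lit 2038438731), (nat_lit 1928756552), (nat_lit 1862834855), (nat_lit 1714422225), (nat_lit 1646555174), (nat_lit 1603909133), (nat_lit 1830080901)], (nat_lit 780000), (nat_lit 1271251), (nat_lit 111251), (nat_lit 780000), (nat_lit 0), (nat_lit 2754376), [(nat_lit 1977501), (nat_lit 1271251), (nat_lit 1271251)], [(nat_lit 32), (nat_lit 67), (nat_lit 401), (nat_lit 175), (nat_lit 9)]⟩⟩)))) (.trZ (nat_lit 0) (nat_lit 2) (nat_lit 4) (nat_lit 100) (nat_lit 60) (nat_lit 74) (nat_lit 60) (.leaf ⟨(nat_lit 925),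 (nat_lit 49), (nat_lit 0), (nat_lit 26), (nat_lit 0), (nat_lit 3519), (nat_lit 689), (nat_lit 383), (nat_lit 0), (nat_lit 0), (nat_lit 396200), [((nat_lit 380), [((nat_lit 24), (nat_lit 1), (nat_lit 794)), ((nat_lit 41), (nat_lit 2), (nat_lit 131))])], ⟨(nat_lit 6), false, false, false, (nat_lit 212), (nat_lit 2236), (nat_lit 3163), [(nat_lit 1406804), (nat_lit 1416903), (nat_lit 1450987), (nat_lit 1462324), (nat_lit 1605240), (nat_lit 1602541), (nat_lit 1649422), (nat_lit 1647962)]⟩, ⟨(nat_lit 4), false, false, false, (nat_lit 135), (nat_lit 2236), (nat_lit 3163), [(nat_lit 1264208), (nat_lit 1277371), (nat_lit 1308390), (nat_lit 1322792), (nat_lit 1355794), (nat_lit 1363050), (nat_lit 1399976), (nat_lit 1408471)]⟩, (nat_lit 4393983), (nat_lit 45971437), (nat_lit 14095012), (nat_lit 6933551), (nat_lit 4), (nat_lit 0), [⟨(nat_lit 0), (nat_lit 98), (nat_lit 54), (nat_lit 100), (nat_lit 13803681)⟩], [⟨(nat_lit 0), (nat_lit 100), (nat_lit 53), (nat_lit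 85), (nat_lit 188936832)⟩], [], [],
 ⟨⟨[(nat_lit 40), (nat_lit 60), (nat_lit 80)], [(nat_lit 0), (nat_lit 832), (nat_lit 1534)], [((nat_lit 0), (nat_lit 0), (nat_lit 0)), ((nat_lit 1000), (nat_lit 659), (nat_lit 528)), ((nat_lit 1000), (nat_lit 650), (nat_lit 549))], ((nat_lit 63), (nat_lit 100), (nat_lit 62))⟩, (nat_lit 0), (nat_lit 171), (nat_lit 171), (nat_lit 0), (nat_lit 238260), [(nat_lit 1396960406), (nat_lit 1102835547), (nat_lit 1102476800)], [(nat_lit 0), (nat_lit 0), (nat_lit 0)], [(nat_lit 19364633130), (nat_lit 21422270416), (nat_lit 22341657761), (nat_lit 23997573754), (nat_lit 19233746115), (nat_lit 20940085621), (nat_lit 22004001274), (nat_lit 23522799424)], (nat_lit 1271251), (nat_lit 1271251), (nat_lit 704688), (nat_lit 1756876), (nat_lit 356250), (nat_lit 780000), [(nat_lit 490000), (nat_lit 780000), (nat_lit 1100000)], [(nat_lit 2), (nat_lit 44), (nat_lit 317), (nat_lit 100), (nat_lit 14)]⟩,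
 ⟨⟨[(nat_lit 80), (nat_lit 120), (nat_lit 160)], [(nat_lit 0), (nat_lit 0), (nat_lit 2132)], [((nat_lit 0), (nat_lit 0), (nat_lit 0)), ((nat_lit 0), (nat_lit 0), (nat_lit 0)), ((nat_lit 858), (nat_lit 1000), (nat_lit 713))], ((nat_lit 100), (nat_lit 92), (nat_lit 61))⟩, (nat_lit 0), (nat_lit 965), (nat_lit 965), (nat_lit 0), (nat_lit 1402244), [(nat_lit 351600000), (nat_lit 597600000), (nat_lit 890400000)], [], [(nat_lit 4185324057), (nat_lit 3450203397), (nat_lit 3285502532), (nat_lit 3296376440), (nat_lit 3070057549), (nat_lit 3083019968), (nat_lit 4326669880), (nat_lit 3744190658)], (nat_lit 1271251), (nat_lit 1271251), (nat_lit 704688), (nat_lit 1756876), (nat_lit 0), (nat_lit 2825001), [(nat_lit 1100000), (nat_lit 1785001), (nat_lit 1271251)], [(nat_lit 18), (nat_lit 59), (nat_lit 483), (nat_lit 250), (nat_lit 12)]⟩,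
 ⟨⟨[(nat_lit 120), (nat_lit 160), (nat_lit 180)], [(nat_lit 0), (nat_lit 533), (nat_lit 2066)], [((nat_lit 0), (nat_lit 0), (nat_lit 0)), ((nat_lit 960), (nat_lit 1000), (nat_lit 200)), ((nat_lit 615), (nat_lit 1000), (nat_lit 729))], ((nat_lit 100), (nat_lit 74), (nat_lit 60))⟩, (nat_lit 60878), (nat_lit 300), (nat_lit 733), (nat_lit 1726401), (nat_lit 591090), [(nat_lit 207168000), (nat_lit 308672000), (nat_lit 365508000)], [], [(nat_lit 1645042488), (nat_lit 1545933111), (nat_lit 1390902916), (nat_lit 1316297001), (nat_lit 1590425786), (nat_lit 1238942090), (nat_lit 1758679898), (nat_lit 1413994069)], (nat_lit 1271251), (nat_lit 1271251), (nat_lit 356250), (nat_lit 780000), (nat_lit 0), (nat_lit 2825001), [(nat_lit 1695001), (nat_lit 1271251), (nat_lit 1271251)], [(nat_lit 28), (nat_lit 65), (nat_lit 428), (nat_lit 200), (nat_lit 10)]⟩⟩))) (.trZ (nat_lit 0) (nat_lit 1) (nat_lit 3) (nat_lit 94) (nat_lit 62) (nat_lit 100) (nat_lit 150) (.spl (nat_lit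 5) (nat_lit 200) (.spl (nat_lit 0) (nat_lit 370) (.leaf ⟨(nat_lit 861), (nat_lit 139), (nat_lit 0), (nat_lit 0), (nat_lit 0), (nat_lit 3609), (nat_lit 1265), (nat_lit 0), (nat_lit 0), (nat_lit 0), (nat_lit 466600), [((nat_lit 370), [((nat_lit 24), (nat_lit 1), (nat_lit 250)), ((nat_lit 41), (nat_lit 2), (nat_lit 611))])], ⟨(nat_lit 7), false, false, false, (nat_lit 242), (nat_lit 2738), (nat_lit 3163), [(nat_lit 1512356), (nat_lit 1515771), (nat_lit 1556642), (nat_lit 1560582), (nat_lit 1649542), (nat_lit 1648700), (nat_lit 1693828), (nat_lit 1693511)]⟩, ⟨(nat_lit 3), false, false, false, (nat_lit 109), (nat_lit 2738), (nat_lit 3163), [(nat_lit 1137055), (nat_lit 1144520), (nat_lit 1247770), (nat_lit 1256546), (nat_lit 1289472), (nat_lit 1292206), (nat_lit 1400199), (nat_lit 1404246)]⟩, (nat_lit 4296885), (nat_lit 44897868), (nat_lit 17196094), (nat_lit 4906038), (nat_lit 3), (nat_lit 0), [], [⟨(nat_lit 0), (nat_lit 100), (nat_lit 53), (nat_lit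 90), (nat_lit 161475379)⟩], [], [],
 ⟨⟨[(nat_lit 40), (nat_lit 60), (nat_lit 80)], [(nat_lit 0), (nat_lit 832), (nat_lit 1534)], [((nat_lit 0), (nat_lit 0), (nat_lit 0)), ((nat_lit 1000), (nat_lit 659), (nat_lit 528)), ((nat_lit 1000), (nat_lit 650), (nat_lit 549))], ((nat_lit 63), (nat_lit 100), (nat_lit 62))⟩, (nat_lit 0), (nat_lit 204), (nat_lit 204), (nat_lit 0), (nat_lit 330886), [(nat_lit 1384800407), (nat_lit 1061738690), (nat_lit 857971200)], [(nat_lit 0), (nat_lit 0), (nat_lit 0)], [(nat_lit 21061913551), (nat_lit 22077204270), (nat_lit 23728211735), (nat_lit 24588654569), (nat_lit 19707563292), (nat_lit 20353472101), (nat_lit 22037164447), (nat_lit 22825092478)], (nat_lit 1271251), (nat_lit 1271251), (nat_lit 1017188), (nat_lit 1779376), (nat_lit 111251), (nat_lit 780000), [(nat_lit 490000), (nat_lit 780000), (nat_lit 1100000)], [(nat_lit 2), (nat_lit 44), (nat_lit 317), (nat_lit 100), (nat_lit 14)]⟩,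
 ⟨⟨[(nat_lit 60), (nat_lit 100), (nat_lit 140)], [(nat_lit 0), (nat_lit 0), (nat_lit 2047)], [((nat_lit 0), (nat_lit 0), (nat_lit 0)), ((nat_lit 0), (nat_lit 0), (nat_lit 0)), ((nat_lit 1000), (nat_lit 993), (nat_lit 781))], ((nat_lit 94), (nat_lit 100), (nat_lit 62))⟩, (nat_lit 300234), (nat_lit 767), (nat_lit 767), (nat_lit 0), (nat_lit 1221788), [(nat_lit 456198000), (nat_lit 868750000), (nat_lit 1368038000)], [], [(nat_lit 5042142409), (nat_lit 4220748823), (nat_lit 4089666360), (nat_lit 4313859022), (nat_lit 3401990733), (nat_lit 3505231898), (nat_lit 4329752040), (nat_lit 3446740658)], (nat_lit 1271251), (nat_lit 1271251), (nat_lit 1017188), (nat_lit 1779376), (nat_lit 0), (nat_lit 1412501), [(nat_lit 780000), (nat_lit 1435001), (nat_lit 1271251)], [(nat_lit 11), (nat_lit 55), (nat_lit 345), (nat_lit 125), (nat_lit 10)]⟩,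
 Rw.none⟩) (.trZ (nat_lit 0) (nat_lit 1) (nat_lit 3) (nat_lit 93) (nat_lit 53) (nat_lit 100) (nat_lit 170) (.trZ (nat_lit 0) (nat_lit 2) (nat_lit 4) (nat_lit 100) (nat_lit 57) (nat_lit 62) (nat_lit 30) (.leaf ⟨(nat_lit 888), (nat_lit 112), (nat_lit 0), (nat_lit 0), (nat_lit 0), (nat_lit 3776), (nat_lit 1034), (nat_lit 0), (nat_lit 0), (nat_lit 0), (nat_lit 363000), [((nat_lit 380), [((nat_lit 24), (nat_lit 1), (nat_lit 849)), ((nat_lit 41), (nat_lit 2), (nat_lit 39))])], ⟨(nat_lit 7), false, true, false, (nat_lit 248), (nat_lit 2236), (nat_lit 2739), [(nat_lit 1545266), (nat_lit 1548227), (nat_lit 1590060), (nat_lit 1593736), (nat_lit 1648684), (nat_lit 1648065), (nat_lit 1693478), (nat_lit 1693574)]⟩, ⟨(nat_lit 3), false, false, false, (nat_lit 114), (nat_lit 2236), (nat_lit 2739), [(nat_lit 1159252), (nat_lit 1166519), (nat_lit 1271238), (nat_lit 1280289), (nat_lit 1292206), (nat_lit 1294870), (nat_lit 1404204), (nat_lit 1408652)]⟩, (nat_lit 4398811),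 (nat_lit 44012438), (nat_lit 17767052), (nat_lit 5220510), (nat_lit 3), (nat_lit 0), [⟨(nat_lit 0), (nat_lit 87), (nat_lit 48), (nat_lit 100), (nat_lit 50228632)⟩], [⟨(nat_lit 0), (nat_lit 100), (nat_lit 44), (nat_lit 94), (nat_lit 205876059)⟩], [], [],
 ⟨⟨[(nat_lit 40), (nat_lit 60), (nat_lit 80)], [(nat_lit 0), (nat_lit 1134), (nat_lit 1930)], [((nat_lit 0), (nat_lit 0), (nat_lit 0)), ((nat_lit 1000), (nat_lit 575), (nat_lit 619)), ((nat_lit 1000), (nat_lit 574), (nat_lit 622))], ((nat_lit 57), (nat_lit 100), (nat_lit 64))⟩, (nat_lit 25487), (nat_lit 205), (nat_lit 205), (nat_lit 0), (nat_lit 343542), [(nat_lit 1420081601), (nat_lit 1229776744), (nat_lit 1333282400)], [(nat_lit 0), (nat_lit 0), (nat_lit 0)], [(nat_lit 22367142915), (nat_lit 23369660792), (nat_lit 24552772536), (nat_lit 25428839717), (nat_lit 20839122014), (nat_lit 21759413666), (nat_lit 22973608876), (nat_lit 23780430744)], (nat_lit 1271251), (nat_lit 1271251), (nat_lit 1184688),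 (nat_lit 1790626), (nat_lit 169688), (nat_lit 780000), [(nat_lit 490000), (nat_lit 780000), (nat_lit 1100000)], [(nat_lit 2), (nat_lit 44), (nat_lit 238), (nat_lit 30), (nat_lit 10)]⟩,
 ⟨⟨[(nat_lit 60), (nat_lit 100), (nat_lit 140)], [(nat_lit 0), (nat_lit 0), (nat_lit 2047)], [((nat_lit 0), (nat_lit 0), (nat_lit 0)), ((nat_lit 0), (nat_lit 0), (nat_lit 0)), ((nat_lit 1000), (nat_lit 993), (nat_lit 781))], ((nat_lit 94), (nat_lit 100), (nat_lit 62))⟩, (nat_lit 215190), (nat_lit 834), (nat_lit 834), (nat_lit 0), (nat_lit 1367191), [(nat_lit 367584000), (nat_lit 700000000), (nat_lit 1102304000)], [], [(nat_lit 3530790564), (nat_lit 3403450359), (nat_lit 3315466812), (nat_lit 3536469742), (nat_lit 2747710617), (nat_lit 2796781976), (nat_lit 3526117440), (nat_lit 2743846240)], (nat_lit 1271251), (nat_lit 1271251), (nat_lit 1184688), (nat_lit 1790626), (nat_lit 0), (nat_lit 1412501), [(nat_lit 780000), (nat_lit 1435001), (nat_lit 1271251)], [(nat_lit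 11), (nat_lit 55), (nat_lit 345), (nat_lit 125), (nat_lit 10)]⟩,
 Rw.none⟩)))) (.leaf ⟨(nat_lit 829), (nat_lit 94), (nat_lit 0), (nat_lit 77), (nat_lit 0), (nat_lit 3315), (nat_lit 1415), (nat_lit 1022), (nat_lit 0), (nat_lit 0), (nat_lit 448700), [((nat_lit 380), [((nat_lit 24), (nat_lit 0), (nat_lit 22)), ((nat_lit 24), (nat_lit 1), (nat_lit 205)), ((nat_lit 41), (nat_lit 2), (nat_lit 602))])], ⟨(nat_lit 7), false, false, false, (nat_lit 242), (nat_lit 2236), (nat_lit 3163), [(nat_lit 1512044), (nat_lit 1519444), (nat_lit 1556227), (nat_lit 1564865), (nat_lit 1649422), (nat_lit 1647962), (nat_lit 1693606), (nat_lit 1693384)]⟩, ⟨(nat_lit 3), false, false, false, (nat_lit 110), (nat_lit 2236), (nat_lit 3163), [(nat_lit 1136876), (nat_lit 1152119), (nat_lit 1247334), (nat_lit 1265673), (nat_lit 1289472), (nat_lit 1294870), (nat_lit 1399976), (nat_lit 1408471)]⟩, (nat_lit 4312446), (nat_lit 44807508), (nat_lit 17212553), (nat_lit 4979939), (nat_lit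 5), (nat_lit 0), [⟨(nat_lit 0), (nat_lit 87), (nat_lit 53), (nat_lit 100), (nat_lit 58839948)⟩], [⟨(nat_lit 0), (nat_lit 100), (nat_lit 53), (nat_lit 77), (nat_lit 208184046)⟩, ⟨(nat_lit 0), (nat_lit 100), (nat_lit 65), (nat_lit 54), (nat_lit 45187087)⟩], [], [],
 ⟨⟨[(nat_lit 40), (nat_lit 60), (nat_lit 80)], [(nat_lit 0), (nat_lit 832), (nat_lit 1534)], [((nat_lit 0), (nat_lit 0), (nat_lit 0)), ((nat_lit 1000), (nat_lit 659), (nat_lit 528)), ((nat_lit 1000), (nat_lit 650), (nat_lit 549))], ((nat_lit 63), (nat_lit 100), (nat_lit 62))⟩, (nat_lit 0), (nat_lit 214), (nat_lit 214), (nat_lit 0), (nat_lit 344764), [(nat_lit 1402348007), (nat_lit 1094054192), (nat_lit 1003038008)], [(nat_lit 0), (nat_lit 0), (nat_lit 0)], [(nat_lit 20747080285), (nat_lit 22498122687), (nat_lit 23218924208), (nat_lit 24865391347), (nat_lit 20652505596), (nat_lit 21882887524), (nat_lit 22843360899), (nat_lit 23918815489)], (nat_lit 1271251), (nat_lit 1271251), (nat_lit 1017188),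 (nat_lit 1779376), (nat_lit 111251), (nat_lit 780000), [(nat_lit 490000), (nat_lit 780000), (nat_lit 1100000)], [(nat_lit 2), (nat_lit 44), (nat_lit 317), (nat_lit 100), (nat_lit 14)]⟩,
 ⟨⟨[(nat_lit 60), (nat_lit 100), (nat_lit 140)], [(nat_lit 0), (nat_lit 0), (nat_lit 2047)], [((nat_lit 0), (nat_lit 0), (nat_lit 0)), ((nat_lit 0), (nat_lit 0), (nat_lit 0)), ((nat_lit 1000), (nat_lit 993), (nat_lit 781))], ((nat_lit 94), (nat_lit 100), (nat_lit 62))⟩, (nat_lit 320500), (nat_lit 725), (nat_lit 725), (nat_lit 0), (nat_lit 1368285), [(nat_lit 561222000), (nat_lit 1068750000), (nat_lit 1682982000)], [], [(nat_lit 5045294290), (nat_lit 5141361063), (nat_lit 4984016041), (nat_lit 5054103544), (nat_lit 5555255173), (nat_lit 5916810336), (nat_lit 5662356828), (nat_lit 5967365532)], (nat_lit 1271251), (nat_lit 1271251), (nat_lit 1017188), (nat_lit 1779376), (nat_lit 1271251), (nat_lit 1271251), [(nat_lit 780000), (nat_lit 1435001), (nat_lit 1271251)], [(nat_lit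 11), (nat_lit 55), (nat_lit 401), (nat_lit 175), (nat_lit 11)]⟩,
 ⟨⟨[(nat_lit 140), (nat_lit 180), (nat_lit 200)], [(nat_lit 0), (nat_lit 0), (nat_lit 2835)], [((nat_lit 0), (nat_lit 0), (nat_lit 0)), ((nat_lit 0), (nat_lit 0), (nat_lit 0)), ((nat_lit 363), (nat_lit 1000), (nat_lit 798))], ((nat_lit 0), (nat_lit 0), (nat_lit 0))⟩, (nat_lit 21185), (nat_lit 300), (nat_lit 1071), (nat_lit 6013703), (nat_lit 1348934), [(nat_lit 757834000), (nat_lit 1082466000), (nat_lit 1262800000)], [], [(nat_lit 5126671936), (nat_lit 4801426114), (nat_lit 4437926886), (nat_lit 4316020300), (nat_lit 5162702009), (nat_lit 4819532898), (nat_lit 4393257032), (nat_lit 4068746535)], (nat_lit 780000), (nat_lit 1598751), (nat_lit 111251), (nat_lit 780000), (nat_lit 1271251), (nat_lit 1271251), [(nat_lit 1977501), (nat_lit 1271251), (nat_lit 1271251)], [(nat_lit 32), (nat_lit 67), (nat_lit 428), (nat_lit 200), (nat_lit 9)]⟩⟩))))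
noncomputable def c17_2 : Tr Lf :=
 (.spl (nat_lit 2) (nat_lit 180) (.spl (nat_lit 4) (nat_lit 80) (.trX (nat_lit 5) (nat_lit 3) (nat_lit 4) (nat_lit 100) (nat_lit 76) (nat_lit 82) (nat_lit 340) (.leaf ⟨(nat_lit 909), (nat_lit 87), (nat_lit 0), (nat_lit 4), (nat_lit 0), (nat_lit 3389), (nat_lit 846), (nat_lit 43), (nat_lit 0), (nat_lit 0), (nat_lit 362100), [((nat_lit 380), [((nat_lit 24), (nat_lit 0), (nat_lit 10)), ((nat_lit 24), (nat_lit 1), (nat_lit 899))])], ⟨(nat_lit 6), false, true, true, (nat_lit 274), (nat_lit 2236), (nat_lit 3163), [(nat_lit 1605240), (nat_lit 1602541), (nat_lit 1649422), (nat_lit 1647962), (nat_lit 1727168), (nat_lit 1716594), (nat_lit 1771478), (nat_lit 1762142)]⟩, ⟨(nat_lit 3), false, false, false, (nat_lit 89), (nat_lit 2236), (nat_lit 3163), [(nat_lit 1136876), (nat_lit 1152119), (nat_lit 1203150), (nat_lit 1220251), (nat_lit 1228462), (nat_lit 1237798), (nat_lit 1294736), (nat_lit 1305930)]⟩, (nat_lit 4235920), (nat_lit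 42824272), (nat_lit 20646841), (nat_lit 3528887), (nat_lit 3), (nat_lit 0), [], [⟨(nat_lit 0), (nat_lit 100), (nat_lit 54), (nat_lit 71), (nat_lit 306738423)⟩], [], [⟨(nat_lit 1), (nat_lit 100), (nat_lit 96), (nat_lit 69), (nat_lit 4430309)⟩],
 ⟨⟨[(nat_lit 40), (nat_lit 60), (nat_lit 80)], [(nat_lit 0), (nat_lit 832), (nat_lit 1534)], [((nat_lit 0), (nat_lit 0), (nat_lit 0)), ((nat_lit 1000), (nat_lit 659), (nat_lit 528)), ((nat_lit 1000), (nat_lit 650), (nat_lit 549))], ((nat_lit 63), (nat_lit 100), (nat_lit 62))⟩, (nat_lit 0), (nat_lit 211), (nat_lit 211), (nat_lit 0), (nat_lit 293099), [(nat_lit 1415906054), (nat_lit 1211074829), (nat_lit 1301669600)], [(nat_lit 0), (nat_lit 0), (nat_lit 0)], [(nat_lit 23347112225), (nat_lit 25012310558), (nat_lit 27368089459), (nat_lit 28741358156), (nat_lit 22652416307), (nat_lit 23765209434), (nat_lit 25655763584), (nat_lit 26863673372)], (nat_lit 1271251), (nat_lit 1271251), (nat_lit 1271251), (nat_lit 1271251),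 (nat_lit 111251), (nat_lit 490000), [(nat_lit 490000), (nat_lit 780000), (nat_lit 1100000)], [(nat_lit 2), (nat_lit 44), (nat_lit 226), (nat_lit 20), (nat_lit 9)]⟩,
 ⟨⟨[(nat_lit 80), (nat_lit 120), (nat_lit 160)], [(nat_lit 0), (nat_lit 0), (nat_lit 2132)], [((nat_lit 0), (nat_lit 0), (nat_lit 0)), ((nat_lit 0), (nat_lit 0), (nat_lit 0)), ((nat_lit 858), (nat_lit 1000), (nat_lit 713))], ((nat_lit 100), (nat_lit 92), (nat_lit 61))⟩, (nat_lit 230578), (nat_lit 976), (nat_lit 976), (nat_lit 0), (nat_lit 1561339), [(nat_lit 426608000), (nat_lit 725088000), (nat_lit 1080352000)], [], [(nat_lit 3651301812), (nat_lit 3656753870), (nat_lit 3662205928), (nat_lit 3656024004), (nat_lit 3021161166), (nat_lit 2997974685), (nat_lit 2974788204), (nat_lit 2954188552)], (nat_lit 1271251), (nat_lit 1271251), (nat_lit 1271251), (nat_lit 1271251), (nat_lit 0), (nat_lit 2401251), [(nat_lit 1100000), (nat_lit 1785001), (nat_lit 1271251)], [(nat_lit 18), (nat_lit 59),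 (nat_lit 483), (nat_lit 250), (nat_lit 12)]⟩,
 ⟨⟨[(nat_lit 140), (nat_lit 180), (nat_lit 200)], [(nat_lit 0), (nat_lit 0), (nat_lit 2835)], [((nat_lit 0), (nat_lit 0), (nat_lit 0)), ((nat_lit 0), (nat_lit 0), (nat_lit 0)), ((nat_lit 363), (nat_lit 1000), (nat_lit 798))], ((nat_lit 0), (nat_lit 0), (nat_lit 0))⟩, (nat_lit 1101), (nat_lit 300), (nat_lit 1114), (nat_lit 312400), (nat_lit 1149832), [(nat_lit 39368000), (nat_lit 56232000), (nat_lit 65600000)], [], [(nat_lit 343978357), (nat_lit 333712952), (nat_lit 325377688), (nat_lit 315393317), (nat_lit 285053766), (nat_lit 275018015), (nat_lit 268118822), (nat_lit 258305842)], (nat_lit 780000), (nat_lit 1271251), (nat_lit 111251), (nat_lit 490000), (nat_lit 0), (nat_lit 2401251), [(nat_lit 1977501), (nat_lit 1271251), (nat_lit 1271251)], [(nat_lit 32), (nat_lit 67), (nat_lit 373), (nat_lit 150), (nat_lit 9)]⟩⟩)) (.leaf ⟨(nat_lit 926), (nat_lit 59), (nat_lit 0), (nat_lit 15), (nat_lit 0), (nat_lit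 3271), (nat_lit 704), (nat_lit 187), (nat_lit 0), (nat_lit 0), (nat_lit 338300), [((nat_lit 380), [((nat_lit 24), (nat_lit 0), (nat_lit 214)), ((nat_lit 24), (nat_lit 1), (nat_lit 712))])], ⟨(nat_lit 6), false, true, true, (nat_lit 274), (nat_lit 2236), (nat_lit 3163), [(nat_lit 1605240), (nat_lit 1602541), (nat_lit 1649422), (nat_lit 1647962), (nat_lit 1727168), (nat_lit 1716594), (nat_lit 1771478), (nat_lit 1762142)]⟩, ⟨(nat_lit 3), false, false, false, (nat_lit 119), (nat_lit 2236), (nat_lit 3163), [(nat_lit 1228462), (nat_lit 1237798), (nat_lit 1294736), (nat_lit 1305930), (nat_lit 1289472), (nat_lit 1294870), (nat_lit 1355794), (nat_lit 1363050)]⟩, (nat_lit 4580580), (nat_lit 41429465), (nat_lit 20208867), (nat_lit 5361668), (nat_lit 3), (nat_lit 0), [], [], [], [],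
 ⟨⟨[(nat_lit 40), (nat_lit 60), (nat_lit 80)], [(nat_lit 0), (nat_lit 832), (nat_lit 1534)], [((nat_lit 0), (nat_lit 0), (nat_lit 0)), ((nat_lit 1000), (nat_lit 659), (nat_lit 528)), ((nat_lit 1000), (nat_lit 650), (nat_lit 549))], ((nat_lit 63), (nat_lit 100), (nat_lit 62))⟩, (nat_lit 0), (nat_lit 176), (nat_lit 176), (nat_lit 0), (nat_lit 293099), [(nat_lit 1439413716), (nat_lit 1295022512), (nat_lit 1391443200)], [(nat_lit 0), (nat_lit 0), (nat_lit 0)], [(nat_lit 22543498844), (nat_lit 23684358516), (nat_lit 25566191210), (nat_lit 26680496308), (nat_lit 22908613472), (nat_lit 23996938840), (nat_lit 25807935155), (nat_lit 26777664107)], (nat_lit 1271251), (nat_lit 1271251), (nat_lit 1271251), (nat_lit 1271251), (nat_lit 490000), (nat_lit 780000), [(nat_lit 490000), (nat_lit 780000), (nat_lit 1100000)], [(nat_lit 2), (nat_lit 44), (nat_lit 238), (nat_lit 30), (nat_lit 9)]⟩,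
 ⟨⟨[(nat_lit 80), (nat_lit 120), (nat_lit 160)], [(nat_lit 0), (nat_lit 0), (nat_lit 2132)], [((nat_lit 0), (nat_lit 0), (nat_lit 0)), ((nat_lit 0), (nat_lit 0), (nat_lit 0)), ((nat_lit 858), (nat_lit 1000), (nat_lit 713))], ((nat_lit 100), (nat_lit 92), (nat_lit 61))⟩, (nat_lit 140450), (nat_lit 976), (nat_lit 976), (nat_lit 0), (nat_lit 1561339), [(nat_lit 346912000), (nat_lit 589632000), (nat_lit 878528000)], [], [(nat_lit 2868387528), (nat_lit 2871851020), (nat_lit 2875314512), (nat_lit 2870878568), (nat_lit 2415028560), (nat_lit 2463105385), (nat_lit 2544522582), (nat_lit 2600702351)], (nat_lit 1271251), (nat_lit 1271251), (nat_lit 1271251), (nat_lit 1271251), (nat_lit 0), (nat_lit 2613125), [(nat_lit 1100000), (nat_lit 1785001), (nat_lit 1271251)], [(nat_lit 18), (nat_lit 59), (nat_lit 483), (nat_lit 250), (nat_lit 12)]⟩,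
 ⟨⟨[(nat_lit 140), (nat_lit 180), (nat_lit 200)], [(nat_lit 0), (nat_lit 0), (nat_lit 2835)], [((nat_lit 0), (nat_lit 0), (nat_lit 0)), ((nat_lit 0), (nat_lit 0), (nat_lit 0)), ((nat_lit 363), (nat_lit 1000), (nat_lit 798))], ((nat_lit 0), (nat_lit 0), (nat_lit 0))⟩, (nat_lit 4127), (nat_lit 300), (nat_lit 1067), (nat_lit 1171500), (nat_lit 1149832), [(nat_lit 147630000), (nat_lit 210870000), (nat_lit 246000000)], [], [(nat_lit 1171357771), (nat_lit 1099187850), (nat_lit 1106889856), (nat_lit 1063239398), (nat_lit 904372036), (nat_lit 1032100558), (nat_lit 954473420), (nat_lit 1099721524)], (nat_lit 780000), (nat_lit 1271251), (nat_lit 490000), (nat_lit 780000), (nat_lit 0), (nat_lit 2613125), [(nat_lit 1977501), (nat_lit 1271251), (nat_lit 1271251)], [(nat_lit 32), (nat_lit 67), (nat_lit 401), (nat_lit 175), (nat_lit 9)]⟩⟩)) (.trZ (nat_lit 0) (nat_lit 2) (nat_lit 4) (nat_lit 100) (nat_lit 60) (nat_lit 74) (nat_lit 60) (.spl (nat_lit 5) (nat_lit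 120) (.leaf ⟨(nat_lit 872), (nat_lit 87), (nat_lit 0), (nat_lit 41), (nat_lit 0), (nat_lit 3259), (nat_lit 1307), (nat_lit 628), (nat_lit 0), (nat_lit 0), (nat_lit 370400), [((nat_lit 380), [((nat_lit 24), (nat_lit 1), (nat_lit 764)), ((nat_lit 41), (nat_lit 2), (nat_lit 108))])], ⟨(nat_lit 6), false, true, true, (nat_lit 274), (nat_lit 2236), (nat_lit 3163), [(nat_lit 1605240), (nat_lit 1602541), (nat_lit 1649422), (nat_lit 1647962), (nat_lit 1727168), (nat_lit 1716594), (nat_lit 1771478), (nat_lit 1762142)]⟩, ⟨(nat_lit 4), false, false, false, (nat_lit 135), (nat_lit 2236), (nat_lit 3163), [(nat_lit 1264208), (nat_lit 1277371), (nat_lit 1308390), (nat_lit 1322792), (nat_lit 1355794), (nat_lit 1363050), (nat_lit 1399976), (nat_lit 1408471)]⟩, (nat_lit 4755002), (nat_lit 40597920), (nat_lit 19933005), (nat_lit 6469075), (nat_lit 4), (nat_lit 0), [], [⟨(nat_lit 0), (nat_lit 100), (nat_lit 53), (nat_lit 85), (nat_lit 231016925)⟩], [⟨(nat_lit 0), (nat_lit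 100), (nat_lit 95), (nat_lit 30), (nat_lit 73111716)⟩], [],
 ⟨⟨[(nat_lit 40), (nat_lit 60), (nat_lit 80)], [(nat_lit 0), (nat_lit 832), (nat_lit 1534)], [((nat_lit 0), (nat_lit 0), (nat_lit 0)), ((nat_lit 1000), (nat_lit 659), (nat_lit 528)), ((nat_lit 1000), (nat_lit 650), (nat_lit 549))], ((nat_lit 63), (nat_lit 100), (nat_lit 62))⟩, (nat_lit 0), (nat_lit 174), (nat_lit 174), (nat_lit 0), (nat_lit 238260), [(nat_lit 1421203215), (nat_lit 1243909013), (nat_lit 1323523200)], [(nat_lit 0), (nat_lit 0), (nat_lit 0)], [(nat_lit 22673855273), (nat_lit 23839025241), (nat_lit 25934191319), (nat_lit 27253559800), (nat_lit 22795708304), (nat_lit 23892880322), (nat_lit 25724509916), (nat_lit 26727632384)], (nat_lit 1271251), (nat_lit 1271251), (nat_lit 1271251), (nat_lit 1271251), (nat_lit 356250), (nat_lit 780000), [(nat_lit 490000), (nat_lit 780000), (nat_lit 1100000)], [(nat_lit 2), (nat_lit 44), (nat_lit 238), (nat_lit 30), (nat_lit 9)]⟩,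
 ⟨⟨[(nat_lit 80), (nat_lit 120), (nat_lit 160)], [(nat_lit 0), (nat_lit 0), (nat_lit 2132)], [((nat_lit 0), (nat_lit 0), (nat_lit 0)), ((nat_lit 0), (nat_lit 0), (nat_lit 0)), ((nat_lit 858), (nat_lit 1000), (nat_lit 713))], ((nat_lit 100), (nat_lit 92), (nat_lit 61))⟩, (nat_lit 510433), (nat_lit 728), (nat_lit 728), (nat_lit 0), (nat_lit 1043104), [(nat_lit 600064000), (nat_lit 1019904000), (nat_lit 1519616000)], [], [(nat_lit 4242238588), (nat_lit 4321394458), (nat_lit 4400550328), (nat_lit 4459417118), (nat_lit 3523112706), (nat_lit 3585665053), (nat_lit 3648217400), (nat_lit 3683469362)], (nat_lit 1271251), (nat_lit 1271251), (nat_lit 1271251), (nat_lit 1271251), (nat_lit 0), (nat_lit 780000), [(nat_lit 1100000), (nat_lit 1785001), (nat_lit 1271251)], [(nat_lit 18), (nat_lit 59), (nat_lit 428), (nat_lit 200), (nat_lit 11)]⟩,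
 ⟨⟨[(nat_lit 120), (nat_lit 160), (nat_lit 180)], [(nat_lit 0), (nat_lit 533), (nat_lit 2066)], [((nat_lit 0), (nat_lit 0), (nat_lit 0)), ((nat_lit 960), (nat_lit 1000), (nat_lit 200)), ((nat_lit 615), (nat_lit 1000), (nat_lit 729))], ((nat_lit 100), (nat_lit 74), (nat_lit 60))⟩, (nat_lit 96000), (nat_lit 300), (nat_lit 733), (nat_lit 2722400), (nat_lit 591090), [(nat_lit 326688000), (nat_lit 486752000), (nat_lit 576378000)], [], [(nat_lit 2627501395), (nat_lit 2463838832), (nat_lit 2209492475), (nat_lit 2075309944), (nat_lit 1783721629), (nat_lit 1742068257), (nat_lit 1580411386), (nat_lit 1537930520)], (nat_lit 1271251), (nat_lit 1271251), (nat_lit 356250), (nat_lit 780000), (nat_lit 0), (nat_lit 780000), [(nat_lit 1695001), (nat_lit 1271251), (nat_lit 1271251)], [(nat_lit 28), (nat_lit 65), (nat_lit 345), (nat_lit 125), (nat_lit 8)]⟩⟩) (.leaf ⟨(nat_lit 870), (nat_lit 0), (nat_lit 0), (nat_lit 130), (nat_lit 0), (nat_lit 3090), (nat_lit 1154),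 (nat_lit 1587), (nat_lit 0), (nat_lit 0), (nat_lit 442000), [((nat_lit 380), [((nat_lit 24), (nat_lit 1), (nat_lit 400)), ((nat_lit 41), (nat_lit 2), (nat_lit 470))])], ⟨(nat_lit 6), false, true, true, (nat_lit 274), (nat_lit 2236), (nat_lit 3163), [(nat_lit 1605240), (nat_lit 1602541), (nat_lit 1649422), (nat_lit 1647962), (nat_lit 1727168), (nat_lit 1716594), (nat_lit 1771478), (nat_lit 1762142)]⟩, ⟨(nat_lit 4), false, false, false, (nat_lit 135), (nat_lit 2236), (nat_lit 3163), [(nat_lit 1264208), (nat_lit 1277371), (nat_lit 1308390), (nat_lit 1322792), (nat_lit 1355794), (nat_lit 1363050), (nat_lit 1399976), (nat_lit 1408471)]⟩, (nat_lit 4755002), (nat_lit 40597920), (nat_lit 19933005), (nat_lit 6469075), (nat_lit 0), (nat_lit 0), [], [⟨(nat_lit 0), (nat_lit 100), (nat_lit 53), (nat_lit 85), (nat_lit 292386894)⟩], [], [],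
 ⟨⟨[(nat_lit 40), (nat_lit 60), (nat_lit 80)], [(nat_lit 0), (nat_lit 832), (nat_lit 1534)], [((nat_lit 0), (nat_lit 0), (nat_lit 0)), ((nat_lit 1000), (nat_lit 659), (nat_lit 528)), ((nat_lit 1000), (nat_lit 650), (nat_lit 549))], ((nat_lit 63), (nat_lit 100), (nat_lit 62))⟩, (nat_lit 0), (nat_lit 174), (nat_lit 174), (nat_lit 0), (nat_lit 238260), [(nat_lit 1392508004), (nat_lit 1086925443), (nat_lit 966384000)], [(nat_lit 0), (nat_lit 0), (nat_lit 0)], [(nat_lit 22629348266), (nat_lit 23853852706), (nat_lit 25852247371), (nat_lit 26946748750), (nat_lit 22899436766), (nat_lit 24048324241), (nat_lit 25940498576), (nat_lit 26921134826)], (nat_lit 1271251), (nat_lit 1271251), (nat_lit 1271251), (nat_lit 1271251), (nat_lit 356250), (nat_lit 780000), [(nat_lit 490000), (nat_lit 780000), (nat_lit 1100000)], [(nat_lit 2), (nat_lit 44), (nat_lit 238), (nat_lit 30), (nat_lit 9)]⟩,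
 ⟨⟨[(nat_lit 80), (nat_lit 120), (nat_lit 160)], [(nat_lit 0), (nat_lit 0), (nat_lit 2132)], [((nat_lit 0), (nat_lit 0), (nat_lit 0)), ((nat_lit 0), (nat_lit 0), (nat_lit 0)), ((nat_lit 858), (nat_lit 1000), (nat_lit 713))], ((nat_lit 100), (nat_lit 92), (nat_lit 61))⟩, (nat_lit 302809), (nat_lit 819), (nat_lit 819), (nat_lit 0), (nat_lit 1402244), [(nat_lit 609440000), (nat_lit 1035840000), (nat_lit 1543360000)], [], [(nat_lit 4426873084), (nat_lit 4494398278), (nat_lit 4561923472), (nat_lit 4604782782), (nat_lit 5429719583), (nat_lit 4487854643), (nat_lit 4494802743), (nat_lit 4487544471)], (nat_lit 1271251), (nat_lit 1271251), (nat_lit 1271251), (nat_lit 1271251), (nat_lit 780000), (nat_lit 2826876), [(nat_lit 1100000), (nat_lit 1785001), (nat_lit 1271251)], [(nat_lit 18), (nat_lit 59), (nat_lit 483), (nat_lit 250), (nat_lit 12)]⟩,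
 ⟨⟨[(nat_lit 120), (nat_lit 160), (nat_lit 180)], [(nat_lit 0), (nat_lit 533), (nat_lit 2066)], [((nat_lit 0), (nat_lit 0), (nat_lit 0)), ((nat_lit 960), (nat_lit 1000), (nat_lit 200)), ((nat_lit 615), (nat_lit 1000), (nat_lit 729))], ((nat_lit 100), (nat_lit 74), (nat_lit 60))⟩, (nat_lit 304390), (nat_lit 300), (nat_lit 616), (nat_lit 8632001), (nat_lit 591090), [(nat_lit 1035840000), (nat_lit 1543360000), (nat_lit 1827540000)], [], [(nat_lit 6343128264), (nat_lit 6256800502), (nat_lit 5852076206), (nat_lit 5762966334), (nat_lit 8728068370), (nat_lit 7256852418), (nat_lit 9440970055), (nat_lit 7998516594)], (nat_lit 1271251), (nat_lit 1271251), (nat_lit 356250), (nat_lit 780000), (nat_lit 780000), (nat_lit 2826876), [(nat_lit 1695001), (nat_lit 1271251), (nat_lit 1271251)], [(nat_lit 28), (nat_lit 65), (nat_lit 428), (nat_lit 200), (nat_lit 10)]⟩⟩))))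
noncomputable def c17_3 : Tr Lf :=
 (.spl (nat_lit 5) (nat_lit 200) (.spl (nat_lit 2) (nat_lit 180) (.spl (nat_lit 2) (nat_lit 160) (.leaf ⟨(nat_lit 850), (nat_lit 150), (nat_lit 0), (nat_lit 0), (nat_lit 0), (nat_lit 3354), (nat_lit 1272), (nat_lit 0), (nat_lit 0), (nat_lit 0), (nat_lit 468550), [((nat_lit 380), [((nat_lit 24), (nat_lit 0), (nat_lit 35)), ((nat_lit 24), (nat_lit 1), (nat_lit 146)), ((nat_lit 41), (nat_lit 2), (nat_lit 669))])], ⟨(nat_lit 7), false, true, false, (nat_lit 292), (nat_lit 2236), (nat_lit 3163), [(nat_lit 1649422), (nat_lit 1647962), (nat_lit 1693606), (nat_lit 1693384), (nat_lit 1771478), (nat_lit 1762142), (nat_lit 1815720), (nat_lit 1807623)]⟩, ⟨(nat_lit 3), false, false, false, (nat_lit 96), (nat_lit 2236), (nat_lit 3163), [(nat_lit 1136876), (nat_lit 1152119), (nat_lit 1181059), (nat_lit 1197540), (nat_lit 1289472), (nat_lit 1294870), (nat_lit 1333702), (nat_lit 1340339)]⟩, (nat_lit 4395268), (nat_lit 40842947),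 (nat_lit 22286274), (nat_lit 3870779), (nat_lit 3), (nat_lit 0), [], [⟨(nat_lit 0), (nat_lit 100), (nat_lit 44), (nat_lit 81), (nat_lit 175010161)⟩], [], [],
 ⟨⟨[(nat_lit 40), (nat_lit 60), (nat_lit 80)], [(nat_lit 0), (nat_lit 832), (nat_lit 1534)], [((nat_lit 0), (nat_lit 0), (nat_lit 0)), ((nat_lit 1000), (nat_lit 659), (nat_lit 528)), ((nat_lit 1000), (nat_lit 650), (nat_lit 549))], ((nat_lit 63), (nat_lit 100), (nat_lit 62))⟩, (nat_lit 0), (nat_lit 227), (nat_lit 227), (nat_lit 0), (nat_lit 344764), [(nat_lit 1390248007), (nat_lit 1089838872), (nat_lit 866915200)], [(nat_lit 0), (nat_lit 0), (nat_lit 0)], [(nat_lit 23403786182), (nat_lit 24942821742), (nat_lit 27292799874), (nat_lit 28659400266), (nat_lit 23227972574), (nat_lit 24242156279), (nat_lit 25911617984), (nat_lit 26853679001)], (nat_lit 1271251), (nat_lit 1271251), (nat_lit 1271251), (nat_lit 1271251), (nat_lit 111251), (nat_lit 780000), [(nat_lit 490000), (nat_lit 780000), (nat_lit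 1100000)], [(nat_lit 2), (nat_lit 44), (nat_lit 238), (nat_lit 30), (nat_lit 10)]⟩,
 ⟨⟨[(nat_lit 60), (nat_lit 100), (nat_lit 140)], [(nat_lit 0), (nat_lit 0), (nat_lit 2047)], [((nat_lit 0), (nat_lit 0), (nat_lit 0)), ((nat_lit 0), (nat_lit 0), (nat_lit 0)), ((nat_lit 1000), (nat_lit 993), (nat_lit 781))], ((nat_lit 94), (nat_lit 100), (nat_lit 62))⟩, (nat_lit 318033), (nat_lit 792), (nat_lit 792), (nat_lit 0), (nat_lit 1357651), [(nat_lit 492300000), (nat_lit 937500000), (nat_lit 1476300000)], [], [(nat_lit 4873070001), (nat_lit 4992252624), (nat_lit 5084431080), (nat_lit 5327446521), (nat_lit 4171417902), (nat_lit 4256082048), (nat_lit 4313644428), (nat_lit 4371206808)], (nat_lit 1271251), (nat_lit 1271251), (nat_lit 1271251), (nat_lit 1271251), (nat_lit 0), (nat_lit 1412501), [(nat_lit 780000), (nat_lit 1435001), (nat_lit 1271251)], [(nat_lit 11), (nat_lit 55), (nat_lit 373), (nat_lit 150), (nat_lit 10)]⟩,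
 Rw.none⟩) (.trZ (nat_lit 0) (nat_lit 2) (nat_lit 4) (nat_lit 100) (nat_lit 61) (nat_lit 68) (nat_lit 50) (.leaf ⟨(nat_lit 854), (nat_lit 146), (nat_lit 0), (nat_lit 0), (nat_lit 0), (nat_lit 3218), (nat_lit 1233), (nat_lit 0), (nat_lit 0), (nat_lit 0), (nat_lit 460850), [((nat_lit 380), [((nat_lit 24), (nat_lit 0), (nat_lit 5)), ((nat_lit 24), (nat_lit 1), (nat_lit 249)), ((nat_lit 41), (nat_lit 2), (nat_lit 600))])], ⟨(nat_lit 7), false, true, false, (nat_lit 292), (nat_lit 2236), (nat_lit 3163), [(nat_lit 1649422), (nat_lit 1647962), (nat_lit 1693606), (nat_lit 1693384), (nat_lit 1771478), (nat_lit 1762142), (nat_lit 1815720), (nat_lit 1807623)]⟩, ⟨(nat_lit 4), false, false, false, (nat_lit 119), (nat_lit 2236), (nat_lit 3163), [(nat_lit 1226852), (nat_lit 1240380), (nat_lit 1248943), (nat_lit 1263091), (nat_lit 1333702), (nat_lit 1340339), (nat_lit 1355794), (nat_lit 1363050)]⟩, (nat_lit 4645963), (nat_lit 39856624), (nat_lit 21903538), (nat_lit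 5239838), (nat_lit 4), (nat_lit 0), [], [⟨(nat_lit 0), (nat_lit 100), (nat_lit 44), (nat_lit 86), (nat_lit 135287579)⟩], [], [],
 ⟨⟨[(nat_lit 40), (nat_lit 60), (nat_lit 80)], [(nat_lit 0), (nat_lit 832), (nat_lit 1534)], [((nat_lit 0), (nat_lit 0), (nat_lit 0)), ((nat_lit 1000), (nat_lit 659), (nat_lit 528)), ((nat_lit 1000), (nat_lit 650), (nat_lit 549))], ((nat_lit 63), (nat_lit 100), (nat_lit 62))⟩, (nat_lit 3313), (nat_lit 195), (nat_lit 195), (nat_lit 0), (nat_lit 297771), [(nat_lit 1389404002), (nat_lit 1085928337), (nat_lit 898941600)], [(nat_lit 0), (nat_lit 0), (nat_lit 0)], [(nat_lit 22842919385), (nat_lit 23982586038), (nat_lit 26150587393), (nat_lit 27469578593), (nat_lit 22936832028), (nat_lit 23998494576), (nat_lit 25741496966), (nat_lit 26674428770)], (nat_lit 1271251), (nat_lit 1271251), (nat_lit 1271251), (nat_lit 1271251), (nat_lit 292188), (nat_lit 780000), [(nat_lit 490000), (nat_lit 780000), (nat_lit 1100000)], [(nat_lit 2),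 (nat_lit 44), (nat_lit 238), (nat_lit 30), (nat_lit 9)]⟩,
 ⟨⟨[(nat_lit 60), (nat_lit 100), (nat_lit 140)], [(nat_lit 0), (nat_lit 0), (nat_lit 2047)], [((nat_lit 0), (nat_lit 0), (nat_lit 0)), ((nat_lit 0), (nat_lit 0), (nat_lit 0)), ((nat_lit 1000), (nat_lit 993), (nat_lit 781))], ((nat_lit 94), (nat_lit 100), (nat_lit 62))⟩, (nat_lit 312979), (nat_lit 740), (nat_lit 740), (nat_lit 0), (nat_lit 1219962), [(nat_lit 479172000), (nat_lit 912500000), (nat_lit 1436932000)], [], [(nat_lit 4761192873), (nat_lit 4883782724), (nat_lit 4973578282), (nat_lit 5175076928), (nat_lit 4089366388), (nat_lit 4171862394), (nat_lit 4228068263), (nat_lit 4284274132)], (nat_lit 1271251), (nat_lit 1271251), (nat_lit 1271251), (nat_lit 1271251), (nat_lit 0), (nat_lit 1412501), [(nat_lit 780000), (nat_lit 1435001), (nat_lit 1271251)], [(nat_lit 11), (nat_lit 55), (nat_lit 373), (nat_lit 150), (nat_lit 10)]⟩,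
 Rw.none⟩))) (.trZ (nat_lit 0) (nat_lit 2) (nat_lit 4) (nat_lit 100) (nat_lit 60) (nat_lit 74) (nat_lit 60) (.spl (nat_lit 5) (nat_lit 120) (.leaf ⟨(nat_lit 258), (nat_lit 690), (nat_lit 0), (nat_lit 52), (nat_lit 0), (nat_lit 3834), (nat_lit 6436), (nat_lit 766), (nat_lit 0), (nat_lit 0), (nat_lit 126450), [((nat_lit 380), [((nat_lit 24), (nat_lit 0), (nat_lit 81)), ((nat_lit 41), (nat_lit 2), (nat_lit 177))])], ⟨(nat_lit 7), false, true, false, (nat_lit 292), (nat_lit 2236), (nat_lit 3163), [(nat_lit 1649422), (nat_lit 1647962), (nat_lit 1693606), (nat_lit 1693384), (nat_lit 1771478), (nat_lit 1762142), (nat_lit 1815720), (nat_lit 1807623)]⟩, ⟨(nat_lit 4), false, false, false, (nat_lit 135), (nat_lit 2236), (nat_lit 3163), [(nat_lit 1264208), (nat_lit 1277371), (nat_lit 1308390), (nat_lit 1322792), (nat_lit 1355794), (nat_lit 1363050), (nat_lit 1399976), (nat_lit 1408471)]⟩, (nat_lit 4815407), (nat_lit 39091748), (nat_lit 21596271), (nat_lit 6311981),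 (nat_lit 4), (nat_lit 0), [], [⟨(nat_lit 0), (nat_lit 100), (nat_lit 44), (nat_lit 94), (nat_lit 131010871)⟩], [⟨(nat_lit 0), (nat_lit 100), (nat_lit 87), (nat_lit 50), (nat_lit 116234791)⟩, ⟨(nat_lit 0), (nat_lit 100), (nat_lit 92), (nat_lit 31), (nat_lit 1228342)⟩], [],
 ⟨⟨[(nat_lit 40), (nat_lit 60), (nat_lit 80)], [(nat_lit 0), (nat_lit 832), (nat_lit 1534)], [((nat_lit 0), (nat_lit 0), (nat_lit 0)), ((nat_lit 1000), (nat_lit 659), (nat_lit 528)), ((nat_lit 1000), (nat_lit 650), (nat_lit 549))], ((nat_lit 63), (nat_lit 100), (nat_lit 62))⟩, (nat_lit 2619297), (nat_lit 185), (nat_lit 185), (nat_lit 0), (nat_lit 282686), [(nat_lit 1726861602), (nat_lit 2959320876), (nat_lit 3607304000)], [(nat_lit 0), (nat_lit 0), (nat_lit 0)], [(nat_lit 22724880303), (nat_lit 24458197073), (nat_lit 26871349894), (nat_lit 28297443550), (nat_lit 22568189358), (nat_lit 23839745693), (nat_lit 26145420834), (nat_lit 27490546121)], (nat_lit 1271251), (nat_lit 1271251),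 (nat_lit 1271251), (nat_lit 1271251), (nat_lit 356250), (nat_lit 780000), [(nat_lit 490000), (nat_lit 780000), (nat_lit 1100000)], [(nat_lit 2), (nat_lit 44), (nat_lit 238), (nat_lit 30), (nat_lit 9)]⟩,
 ⟨⟨[(nat_lit 60), (nat_lit 100), (nat_lit 140)], [(nat_lit 0), (nat_lit 0), (nat_lit 2047)], [((nat_lit 0), (nat_lit 0), (nat_lit 0)), ((nat_lit 0), (nat_lit 0), (nat_lit 0)), ((nat_lit 1000), (nat_lit 993), (nat_lit 781))], ((nat_lit 94), (nat_lit 100), (nat_lit 62))⟩, (nat_lit 2882182), (nat_lit 603), (nat_lit 603), (nat_lit 0), (nat_lit 919209), [(nat_lit 2435244000), (nat_lit 4637500000), (nat_lit 7302764000)], [], [(nat_lit 22289364884), (nat_lit 23176890248), (nat_lit 23844635944), (nat_lit 26644428376), (nat_lit 19183346732), (nat_lit 19938576320), (nat_lit 20500450738), (nat_lit 21062325156)], (nat_lit 1271251), (nat_lit 1271251), (nat_lit 1271251), (nat_lit 1271251), (nat_lit 0), (nat_lit 780000), [(nat_lit 780000), (nat_lit 1435001), (nat_lit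 1271251)], [(nat_lit 11), (nat_lit 55), (nat_lit 345), (nat_lit 125), (nat_lit 9)]⟩,
 ⟨⟨[(nat_lit 120), (nat_lit 160), (nat_lit 180)], [(nat_lit 0), (nat_lit 533), (nat_lit 2066)], [((nat_lit 0), (nat_lit 0), (nat_lit 0)), ((nat_lit 960), (nat_lit 1000), (nat_lit 200)), ((nat_lit 615), (nat_lit 1000), (nat_lit 729))], ((nat_lit 100), (nat_lit 74), (nat_lit 60))⟩, (nat_lit 1210631), (nat_lit 300), (nat_lit 778), (nat_lit 3452800), (nat_lit 700448), [(nat_lit 414336000), (nat_lit 617344000), (nat_lit 731016000)], [], [(nat_lit 3290084376), (nat_lit 3091865622), (nat_lit 2781805232), (nat_lit 2632593282), (nat_lit 2314129352), (nat_lit 2264750868), (nat_lit 2067856826), (nat_lit 2017296421)], (nat_lit 1271251), (nat_lit 1271251), (nat_lit 356250), (nat_lit 780000), (nat_lit 0), (nat_lit 780000), [(nat_lit 1695001), (nat_lit 1271251), (nat_lit 1271251)], [(nat_lit 28), (nat_lit 65), (nat_lit 345), (nat_lit 125), (nat_lit 8)]⟩⟩) (.leaf ⟨(nat_lit 0),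 (nat_lit 0), (nat_lit 0), (nat_lit 1000), (nat_lit 0), (nat_lit 4231), (nat_lit 9077), (nat_lit 16158), (nat_lit 0), (nat_lit 0), (nat_lit 0), [], Pd.none, Pd.none, (nat_lit 0), (nat_lit 1), (nat_lit 0), (nat_lit 0), (nat_lit 0), (nat_lit 0), [], [⟨(nat_lit 0), (nat_lit 100), (nat_lit 53), (nat_lit 85), (nat_lit 1781606217)⟩], [], [],
 ⟨⟨[(nat_lit 40), (nat_lit 60), (nat_lit 80)], [(nat_lit 0), (nat_lit 832), (nat_lit 1534)], [((nat_lit 0), (nat_lit 0), (nat_lit 0)), ((nat_lit 1000), (nat_lit 659), (nat_lit 528)), ((nat_lit 1000), (nat_lit 650), (nat_lit 549))], ((nat_lit 63), (nat_lit 100), (nat_lit 62))⟩, (nat_lit 4886875), (nat_lit 185), (nat_lit 185), (nat_lit 0), (nat_lit 282686), [(nat_lit 2032000001), (nat_lit 4145429229), (nat_lit 4688000000)], [], [(nat_lit 23207862365), (nat_lit 25038728684), (nat_lit 27518396771), (nat_lit 29018177200), (nat_lit 22898341429), (nat_lit 24236548452), (nat_lit 26604154731), (nat_lit 28017288302)], (nat_lit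 1271251), (nat_lit 1271251), (nat_lit 1271251), (nat_lit 1271251), (nat_lit 356250), (nat_lit 780000), [(nat_lit 490000), (nat_lit 780000), (nat_lit 1100000)], [(nat_lit 2), (nat_lit 44), (nat_lit 238), (nat_lit 30), (nat_lit 9)]⟩,
 ⟨⟨[(nat_lit 60), (nat_lit 100), (nat_lit 140)], [(nat_lit 0), (nat_lit 0), (nat_lit 2047)], [((nat_lit 0), (nat_lit 0), (nat_lit 0)), ((nat_lit 0), (nat_lit 0), (nat_lit 0)), ((nat_lit 1000), (nat_lit 993), (nat_lit 781))], ((nat_lit 94), (nat_lit 100), (nat_lit 62))⟩, (nat_lit 4593628), (nat_lit 636), (nat_lit 636), (nat_lit 0), (nat_lit 1197304), [(nat_lit 3282000000), (nat_lit 6250000000), (nat_lit 9842000000)], [], [(nat_lit 23984261323), (nat_lit 25011642684), (nat_lit 25768296033), (nat_lit 27717152530), (nat_lit 23440398186), (nat_lit 24283502118), (nat_lit 24885821953), (nat_lit 27726438506)], (nat_lit 1271251), (nat_lit 1271251), (nat_lit 1271251), (nat_lit 1271251), (nat_lit 780000), (nat_lit 1435001), [(nat_lit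 780000), (nat_lit 1435001), (nat_lit 1271251)], [(nat_lit 11), (nat_lit 55), (nat_lit 373), (nat_lit 150), (nat_lit 10)]⟩,
 ⟨⟨[(nat_lit 120), (nat_lit 160), (nat_lit 180)], [(nat_lit 0), (nat_lit 533), (nat_lit 2066)], [((nat_lit 0), (nat_lit 0), (nat_lit 0)), ((nat_lit 960), (nat_lit 1000), (nat_lit 200)), ((nat_lit 615), (nat_lit 1000), (nat_lit 729))], ((nat_lit 100), (nat_lit 74), (nat_lit 60))⟩, (nat_lit 2715261), (nat_lit 300), (nat_lit 666), (nat_lit 66400000), (nat_lit 700448), [(nat_lit 7968000000), (nat_lit 11872000000), (nat_lit 14058000000)], [], [(nat_lit 42075306066), (nat_lit 41942133252), (nat_lit 36874302022), (nat_lit 36678862518), (nat_lit 44653032288), (nat_lit 39067594703), (nat_lit 50022385725), (nat_lit 34471490259)], (nat_lit 1271251), (nat_lit 1271251), (nat_lit 356250), (nat_lit 780000), (nat_lit 780000), (nat_lit 1435001), [(nat_lit 1695001), (nat_lit 1271251), (nat_lit 1271251)], [(nat_lit 28), (nat_lit 65), (nat_lit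 373), (nat_lit 150), (nat_lit 9)]⟩⟩)))) (.spl (nat_lit 0) (nat_lit 370) (.leaf ⟨(nat_lit 824), (nat_lit 94), (nat_lit 0), (nat_lit 82), (nat_lit 0), (nat_lit 3124), (nat_lit 1426), (nat_lit 1076), (nat_lit 0), (nat_lit 0), (nat_lit 439200), [((nat_lit 370), [((nat_lit 24), (nat_lit 1), (nat_lit 276)), ((nat_lit 41), (nat_lit 2), (nat_lit 548))])], ⟨(nat_lit 7), false, true, false, (nat_lit 293), (nat_lit 2738), (nat_lit 3163), [(nat_lit 1649542), (nat_lit 1648700), (nat_lit 1693828), (nat_lit 1693511), (nat_lit 1771478), (nat_lit 1766852), (nat_lit 1815772), (nat_lit 1811670)]⟩, ⟨(nat_lit 3), false, false, false, (nat_lit 109), (nat_lit 2738), (nat_lit 3163), [(nat_lit 1137055), (nat_lit 1144520), (nat_lit 1247770), (nat_lit 1256546), (nat_lit 1289472), (nat_lit 1292206), (nat_lit 1400199), (nat_lit 1404246)]⟩, (nat_lit 4537864), (nat_lit 40263414), (nat_lit 22128031), (nat_lit 4608555), (nat_lit 5), (nat_lit 0), [], [⟨(nat_lit 0), (nat_lit 100),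 (nat_lit 57), (nat_lit 74), (nat_lit 212510883)⟩], [], [],
 ⟨⟨[(nat_lit 40), (nat_lit 60), (nat_lit 80)], [(nat_lit 0), (nat_lit 832), (nat_lit 1534)], [((nat_lit 0), (nat_lit 0), (nat_lit 0)), ((nat_lit 1000), (nat_lit 659), (nat_lit 528)), ((nat_lit 1000), (nat_lit 650), (nat_lit 549))], ((nat_lit 63), (nat_lit 100), (nat_lit 62))⟩, (nat_lit 0), (nat_lit 217), (nat_lit 217), (nat_lit 0), (nat_lit 330886), [(nat_lit 1405555205), (nat_lit 1161825586), (nat_lit 1059568000)], [(nat_lit 0), (nat_lit 0), (nat_lit 0)], [(nat_lit 23746403520), (nat_lit 24315907644), (nat_lit 26829368289), (nat_lit 27459429795), (nat_lit 23738203702), (nat_lit 24256004602), (nat_lit 26569706753), (nat_lit 27033809085)], (nat_lit 1271251), (nat_lit 1271251), (nat_lit 1271251), (nat_lit 1271251), (nat_lit 111251), (nat_lit 780000), [(nat_lit 490000), (nat_lit 780000), (nat_lit 1100000)], [(nat_lit 2), (nat_lit 44), (nat_lit 238), (nat_lit 30), (nat_lit 10)]⟩,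
 ⟨⟨[(nat_lit 60), (nat_lit 100), (nat_lit 140)], [(nat_lit 0), (nat_lit 0), (nat_lit 2047)], [((nat_lit 0), (nat_lit 0), (nat_lit 0)), ((nat_lit 0), (nat_lit 0), (nat_lit 0)), ((nat_lit 1000), (nat_lit 993), (nat_lit 781))], ((nat_lit 94), (nat_lit 100), (nat_lit 62))⟩, (nat_lit 348051), (nat_lit 618), (nat_lit 618), (nat_lit 0), (nat_lit 1221788), [(nat_lit 577632000), (nat_lit 1100000000), (nat_lit 1732192000)], [], [(nat_lit 5020533829), (nat_lit 5133315087), (nat_lit 5212597967), (nat_lit 5321157784), (nat_lit 5435769545), (nat_lit 5666989076), (nat_lit 5941577222), (nat_lit 6216165368)], (nat_lit 1271251), (nat_lit 1271251), (nat_lit 1271251), (nat_lit 1271251), (nat_lit 1271251), (nat_lit 1271251), [(nat_lit 780000), (nat_lit 1435001), (nat_lit 1271251)], [(nat_lit 11), (nat_lit 55), (nat_lit 401), (nat_lit 175), (nat_lit 10)]⟩,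
 ⟨⟨[(nat_lit 140), (nat_lit 180), (nat_lit 200)], [(nat_lit 0), (nat_lit 0), (nat_lit 2835)], [((nat_lit 0), (nat_lit 0), (nat_lit 0)), ((nat_lit 0), (nat_lit 0), (nat_lit 0)), ((nat_lit 363), (nat_lit 1000), (nat_lit 798))], ((nat_lit 0), (nat_lit 0), (nat_lit 0))⟩, (nat_lit 22561), (nat_lit 300), (nat_lit 1032), (nat_lit 6404200), (nat_lit 1256292), [(nat_lit 807044000), (nat_lit 1152756000), (nat_lit 1344800000)], [], [(nat_lit 5474938380), (nat_lit 5133961086), (nat_lit 4750949252), (nat_lit 4588952117), (nat_lit 5392119518), (nat_lit 5054437124), (nat_lit 4622644317), (nat_lit 4274069517)], (nat_lit 780000), (nat_lit 1598751), (nat_lit 111251), (nat_lit 780000), (nat_lit 1271251), (nat_lit 1271251), [(nat_lit 1977501), (nat_lit 1271251), (nat_lit 1271251)], [(nat_lit 32), (nat_lit 67), (nat_lit 428), (nat_lit 200), (nat_lit 9)]⟩⟩) (.trZ (nat_lit 0) (nat_lit 2) (nat_lit 4) (nat_lit 100) (nat_lit 57) (nat_lit 62) (nat_lit 30) (.leaf ⟨(nat_lit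 841), (nat_lit 84), (nat_lit 0), (nat_lit 75), (nat_lit 0), (nat_lit 3125), (nat_lit 1294), (nat_lit 965), (nat_lit 0), (nat_lit 0), (nat_lit 452000), [((nat_lit 380), [((nat_lit 24), (nat_lit 1), (nat_lit 263)), ((nat_lit 41), (nat_lit 2), (nat_lit 578))])], ⟨(nat_lit 7), false, true, false, (nat_lit 292), (nat_lit 2236), (nat_lit 2739), [(nat_lit 1648684), (nat_lit 1648065), (nat_lit 1693478), (nat_lit 1693574), (nat_lit 1766852), (nat_lit 1762142), (nat_lit 1811671), (nat_lit 1807675)]⟩, ⟨(nat_lit 3), false, false, false, (nat_lit 114), (nat_lit 2236), (nat_lit 2739), [(nat_lit 1159252), (nat_lit 1166519), (nat_lit 1271238), (nat_lit 1280289), (nat_lit 1292206), (nat_lit 1294870), (nat_lit 1404204), (nat_lit 1408652)]⟩, (nat_lit 4593067), (nat_lit 40112401), (nat_lit 21945136), (nat_lit 4942463), (nat_lit 5), (nat_lit 0), [], [⟨(nat_lit 0), (nat_lit 100), (nat_lit 49), (nat_lit 80), (nat_lit 225182384)⟩], [], [],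
 ⟨⟨[(nat_lit 40), (nat_lit 60), (nat_lit 80)], [(nat_lit 0), (nat_lit 1134), (nat_lit 1930)], [((nat_lit 0), (nat_lit 0), (nat_lit 0)), ((nat_lit 1000), (nat_lit 575), (nat_lit 619)), ((nat_lit 1000), (nat_lit 574), (nat_lit 622))], ((nat_lit 57), (nat_lit 100), (nat_lit 64))⟩, (nat_lit 0), (nat_lit 218), (nat_lit 218), (nat_lit 0), (nat_lit 343542), [(nat_lit 1395933202), (nat_lit 1082563969), (nat_lit 965880800)], [(nat_lit 0), (nat_lit 0), (nat_lit 0)], [(nat_lit 24145741003), (nat_lit 24736971089), (nat_lit 27187017407), (nat_lit 27844943500), (nat_lit 24170926448), (nat_lit 24712365885), (nat_lit 26983172823), (nat_lit 27447333135)], (nat_lit 1271251), (nat_lit 1271251), (nat_lit 1271251), (nat_lit 1271251), (nat_lit 169688), (nat_lit 780000), [(nat_lit 490000), (nat_lit 780000), (nat_lit 1100000)], [(nat_lit 2), (nat_lit 44), (nat_lit 238), (nat_lit 30), (nat_lit 9)]⟩,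
 ⟨⟨[(nat_lit 60), (nat_lit 100), (nat_lit 140)], [(nat_lit 0), (nat_lit 0), (nat_lit 2047)], [((nat_lit 0), (nat_lit 0), (nat_lit 0)), ((nat_lit 0), (nat_lit 0), (nat_lit 0)), ((nat_lit 1000), (nat_lit 993), (nat_lit 781))], ((nat_lit 94), (nat_lit 100), (nat_lit 62))⟩, (nat_lit 314130), (nat_lit 692), (nat_lit 692), (nat_lit 0), (nat_lit 1367191), [(nat_lit 521838000), (nat_lit 993750000), (nat_lit 1564878000)], [], [(nat_lit 4507961579), (nat_lit 4609777236), (nat_lit 4681220081), (nat_lit 4779242296), (nat_lit 4882611619), (nat_lit 5124873489), (nat_lit 5373309512), (nat_lit 5621745535)], (nat_lit 1271251), (nat_lit 1271251), (nat_lit 1271251), (nat_lit 1271251), (nat_lit 1271251), (nat_lit 1271251), [(nat_lit 780000), (nat_lit 1435001), (nat_lit 1271251)], [(nat_lit 11), (nat_lit 55), (nat_lit 401), (nat_lit 175), (nat_lit 10)]⟩,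
 ⟨⟨[(nat_lit 140), (nat_lit 180), (nat_lit 200)], [(nat_lit 0), (nat_lit 0), (nat_lit 2835)], [((nat_lit 0), (nat_lit 0), (nat_lit 0)), ((nat_lit 0), (nat_lit 0), (nat_lit 0)), ((nat_lit 363), (nat_lit 1000), (nat_lit 798))], ((nat_lit 0), (nat_lit 0), (nat_lit 0))⟩, (nat_lit 20635), (nat_lit 300), (nat_lit 1063), (nat_lit 5857500), (nat_lit 1348934), [(nat_lit 738150000), (nat_lit 1054350000), (nat_lit 1230000000)], [], [(nat_lit 4952367859), (nat_lit 4650758162), (nat_lit 4407744105), (nat_lit 4185862232), (nat_lit 4851544395), (nat_lit 4542817946), (nat_lit 4273068470), (nat_lit 3937631612)], (nat_lit 780000), (nat_lit 1598751), (nat_lit 169688), (nat_lit 780000), (nat_lit 1271251), (nat_lit 1271251), [(nat_lit 1977501), (nat_lit 1271251), (nat_lit 1271251)], [(nat_lit 32), (nat_lit 67), (nat_lit 428), (nat_lit 200), (nat_lit 9)]⟩⟩))))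
noncomputable def c17_4 : Tr Lf :=
 (.spl (nat_lit 1) (nat_lit 260) (.trX (nat_lit 3) (nat_lit 0) (nat_lit 1) (nat_lit 63) (nat_lit 61) (nat_lit 100) (nat_lit 370) (.spl (nat_lit 2) (nat_lit 180) (.spl (nat_lit 1) (nat_lit 250) (.trX (nat_lit 3) (nat_lit 0) (nat_lit 1) (nat_lit 62) (nat_lit 65) (nat_lit 100) (nat_lit 360) (.leaf ⟨(nat_lit 911), (nat_lit 84), (nat_lit 0), (nat_lit 5), (nat_lit 0), (nat_lit 2675), (nat_lit 842), (nat_lit 60), (nat_lit 0), (nat_lit 0), (nat_lit 488200), [((nat_lit 380), [((nat_lit 24), (nat_lit 1), (nat_lit 292)), ((nat_lit 41), (nat_lit 2), (nat_lit 619))])], ⟨(nat_lit 8), false, true, true, (nat_lit 303), (nat_lit 2236), (nat_lit 3163), [(nat_lit 1727168), (nat_lit 1716594), (nat_lit 1738246), (nat_lit 1727981), (nat_lit 1788122), (nat_lit 1773609), (nat_lit 1799199), (nat_lit 1784996)]⟩, ⟨(nat_lit 3), false, false, false, (nat_lit 101), (nat_lit 2236), (nat_lit 3163), [(nat_lit 1136876), (nat_lit 1152119), (nat_lit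 1203150), (nat_lit 1220251), (nat_lit 1289472), (nat_lit 1294870), (nat_lit 1355794), (nat_lit 1363050)]⟩, (nat_lit 4479722), (nat_lit 39691840), (nat_lit 23234050), (nat_lit 4074110), (nat_lit 3), (nat_lit 0), [⟨(nat_lit 1), (nat_lit 73), (nat_lit 54), (nat_lit 100), (nat_lit 279219440)⟩, ⟨(nat_lit 1), (nat_lit 65), (nat_lit 62), (nat_lit 100), (nat_lit 50289281)⟩], [⟨(nat_lit 0), (nat_lit 100), (nat_lit 54), (nat_lit 71), (nat_lit 53721064)⟩], [], [],
 ⟨⟨[(nat_lit 40), (nat_lit 60), (nat_lit 80)], [(nat_lit 0), (nat_lit 832), (nat_lit 1534)], [((nat_lit 0), (nat_lit 0), (nat_lit 0)), ((nat_lit 1000), (nat_lit 659), (nat_lit 528)), ((nat_lit 1000), (nat_lit 650), (nat_lit 549))], ((nat_lit 63), (nat_lit 100), (nat_lit 62))⟩, (nat_lit 477), (nat_lit 140), (nat_lit 140), (nat_lit 0), (nat_lit 0), [(nat_lit 1363047667), (nat_lit 986101079), (nat_lit 663233600)], [(nat_lit 0), (nat_lit 0), (nat_lit 0)], [(nat_lit 26113705051), (nat_lit 27182556226),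 (nat_lit 28061522026), (nat_lit 29175655872), (nat_lit 25880449991), (nat_lit 26862207714), (nat_lit 27677354176), (nat_lit 28575820351)], (nat_lit 0), (nat_lit 0), (nat_lit 0), (nat_lit 0), (nat_lit 0), (nat_lit 0), [], [(nat_lit 2), (nat_lit 44), (nat_lit 238), (nat_lit 30), (nat_lit 9)]⟩,
 ⟨⟨[(nat_lit 80), (nat_lit 120), (nat_lit 160)], [(nat_lit 0), (nat_lit 0), (nat_lit 2132)], [((nat_lit 0), (nat_lit 0), (nat_lit 0)), ((nat_lit 0), (nat_lit 0), (nat_lit 0)), ((nat_lit 858), (nat_lit 1000), (nat_lit 713))], ((nat_lit 100), (nat_lit 92), (nat_lit 61))⟩, (nat_lit 239664), (nat_lit 937), (nat_lit 937), (nat_lit 0), (nat_lit 1543728), [(nat_lit 417232000), (nat_lit 709152000), (nat_lit 1056608000)], [], [(nat_lit 3421739544), (nat_lit 3424627544), (nat_lit 3484947148), (nat_lit 3485794906), (nat_lit 2768474678), (nat_lit 2764804954), (nat_lit 2812520010), (nat_lit 2832487843)], (nat_lit 1271251), (nat_lit 1271251), (nat_lit 1271251), (nat_lit 1271251),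 (nat_lit 0), (nat_lit 2118750), [(nat_lit 1100000), (nat_lit 1785001), (nat_lit 1271251)], [(nat_lit 18), (nat_lit 59), (nat_lit 373), (nat_lit 150), (nat_lit 9)]⟩,
 ⟨⟨[(nat_lit 140), (nat_lit 180), (nat_lit 200)], [(nat_lit 0), (nat_lit 0), (nat_lit 2835)], [((nat_lit 0), (nat_lit 0), (nat_lit 0)), ((nat_lit 0), (nat_lit 0), (nat_lit 0)), ((nat_lit 363), (nat_lit 1000), (nat_lit 798))], ((nat_lit 0), (nat_lit 0), (nat_lit 0))⟩, (nat_lit 1378), (nat_lit 300), (nat_lit 1070), (nat_lit 390500), (nat_lit 1039845), [(nat_lit 49210000), (nat_lit 70290000), (nat_lit 82000000)], [], [(nat_lit 450847732), (nat_lit 400940366), (nat_lit 374505750), (nat_lit 360651935), (nat_lit 334265447), (nat_lit 320199767), (nat_lit 297074803), (nat_lit 328701263)], (nat_lit 780000), (nat_lit 1271251), (nat_lit 111251), (nat_lit 780000), (nat_lit 0), (nat_lit 2118750), [(nat_lit 1977501), (nat_lit 1271251), (nat_lit 1271251)], [(nat_lit 32), (nat_lit 67), (nat_lit 373),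 (nat_lit 150), (nat_lit 9)]⟩⟩)) (.leaf ⟨(nat_lit 858), (nat_lit 128), (nat_lit 0), (nat_lit 14), (nat_lit 0), (nat_lit 2724), (nat_lit 1157), (nat_lit 168), (nat_lit 0), (nat_lit 0), (nat_lit 482650), [((nat_lit 380), [((nat_lit 24), (nat_lit 0), (nat_lit 69)), ((nat_lit 24), (nat_lit 1), (nat_lit 40)), ((nat_lit 41), (nat_lit 2), (nat_lit 749))])], ⟨(nat_lit 8), false, true, true, (nat_lit 310), (nat_lit 2236), (nat_lit 3163), [(nat_lit 1738246), (nat_lit 1727981), (nat_lit 1749323), (nat_lit 1739368), (nat_lit 1814438), (nat_lit 1799250), (nat_lit 1825515), (nat_lit 1810637)]⟩, ⟨(nat_lit 3), false, false, false, (nat_lit 101), (nat_lit 2236), (nat_lit 3163), [(nat_lit 1136876), (nat_lit 1152119), (nat_lit 1203150), (nat_lit 1220251), (nat_lit 1289472), (nat_lit 1294870), (nat_lit 1355794), (nat_lit 1363050)]⟩, (nat_lit 4498468), (nat_lit 39035273), (nat_lit 23934848), (nat_lit 4029879), (nat_lit 3), (nat_lit 0), [⟨(nat_lit 1), (nat_lit 70), (nat_lit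 55), (nat_lit 100), (nat_lit 345913598)⟩], [⟨(nat_lit 0), (nat_lit 100), (nat_lit 44), (nat_lit 86), (nat_lit 77192986)⟩], [], [⟨(nat_lit 1), (nat_lit 100), (nat_lit 69), (nat_lit 76), (nat_lit 234500)⟩],
 ⟨⟨[(nat_lit 40), (nat_lit 60), (nat_lit 80)], [(nat_lit 0), (nat_lit 832), (nat_lit 1534)], [((nat_lit 0), (nat_lit 0), (nat_lit 0)), ((nat_lit 1000), (nat_lit 659), (nat_lit 528)), ((nat_lit 1000), (nat_lit 650), (nat_lit 549))], ((nat_lit 63), (nat_lit 100), (nat_lit 62))⟩, (nat_lit 0), (nat_lit 146), (nat_lit 146), (nat_lit 0), (nat_lit 0), [(nat_lit 1385183207), (nat_lit 1073314977), (nat_lit 782011200)], [(nat_lit 0), (nat_lit 0), (nat_lit 0)], [(nat_lit 26225141146), (nat_lit 27229126519), (nat_lit 28743332686), (nat_lit 29834562631), (nat_lit 25965782026), (nat_lit 26872560563), (nat_lit 28144518012), (nat_lit 29027634033)], (nat_lit 0), (nat_lit 0), (nat_lit 0), (nat_lit 0), (nat_lit 0), (nat_lit 0), [], [(nat_lit 2), (nat_lit 44), (nat_lit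 238), (nat_lit 30), (nat_lit 9)]⟩,
 ⟨⟨[(nat_lit 80), (nat_lit 120), (nat_lit 140)], [(nat_lit 0), (nat_lit 264), (nat_lit 1360)], [((nat_lit 0), (nat_lit 0), (nat_lit 0)), ((nat_lit 1000), (nat_lit 979), (nat_lit 103)), ((nat_lit 951), (nat_lit 1000), (nat_lit 628))], ((nat_lit 100), (nat_lit 95), (nat_lit 62))⟩, (nat_lit 888712), (nat_lit 851), (nat_lit 851), (nat_lit 0), (nat_lit 1478297), [(nat_lit 665696000), (nat_lit 1131456000), (nat_lit 1397564000)], [], [(nat_lit 4959507013), (nat_lit 4975418426), (nat_lit 5142273290), (nat_lit 5153561126), (nat_lit 4192413808), (nat_lit 4196142897), (nat_lit 4490924299), (nat_lit 4550951245)], (nat_lit 1271251), (nat_lit 1271251), (nat_lit 1271251), (nat_lit 1271251), (nat_lit 0), (nat_lit 2118750), [(nat_lit 1100000), (nat_lit 1785001), (nat_lit 1271251)], [(nat_lit 17), (nat_lit 58), (nat_lit 373), (nat_lit 150), (nat_lit 10)]⟩,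
 ⟨⟨[(nat_lit 140), (nat_lit 180), (nat_lit 200)], [(nat_lit 0), (nat_lit 0), (nat_lit 2835)], [((nat_lit 0), (nat_lit 0), (nat_lit 0)), ((nat_lit 0), (nat_lit 0), (nat_lit 0)), ((nat_lit 363), (nat_lit 1000), (nat_lit 798))], ((nat_lit 0), (nat_lit 0), (nat_lit 0))⟩, (nat_lit 3852), (nat_lit 300), (nat_lit 1083), (nat_lit 1093400), (nat_lit 1072266), [(nat_lit 137788000), (nat_lit 196812000), (nat_lit 229600000)], [], [(nat_lit 1262373649), (nat_lit 1122633024), (nat_lit 1048616100), (nat_lit 1009825418), (nat_lit 935943250), (nat_lit 896559346), (nat_lit 831809447), (nat_lit 920363535)], (nat_lit 780000), (nat_lit 1271251), (nat_lit 111251), (nat_lit 780000), (nat_lit 0), (nat_lit 2118750), [(nat_lit 1977501), (nat_lit 1271251), (nat_lit 1271251)], [(nat_lit 32), (nat_lit 67), (nat_lit 373), (nat_lit 150), (nat_lit 9)]⟩⟩)) (.trZ (nat_lit 0) (nat_lit 2) (nat_lit 4) (nat_lit 100) (nat_lit 60) (nat_lit 74) (nat_lit 60) (.spl (nat_lit 5) (nat_lit 120)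 (.leaf ⟨(nat_lit 849), (nat_lit 101), (nat_lit 0), (nat_lit 50), (nat_lit 0), (nat_lit 2876), (nat_lit 1425), (nat_lit 736), (nat_lit 0), (nat_lit 0), (nat_lit 479650), [((nat_lit 380), [((nat_lit 24), (nat_lit 0), (nat_lit 85)), ((nat_lit 41), (nat_lit 2), (nat_lit 764))])], ⟨(nat_lit 8), false, true, true, (nat_lit 308), (nat_lit 2236), (nat_lit 3163), [(nat_lit 1727168), (nat_lit 1716594), (nat_lit 1749323), (nat_lit 1739368), (nat_lit 1803360), (nat_lit 1787863), (nat_lit 1825515), (nat_lit 1810637)]⟩, ⟨(nat_lit 4), false, false, false, (nat_lit 135), (nat_lit 2236), (nat_lit 3163), [(nat_lit 1264208), (nat_lit 1277371), (nat_lit 1308390), (nat_lit 1322792), (nat_lit 1355794), (nat_lit 1363050), (nat_lit 1399976), (nat_lit 1408471)]⟩, (nat_lit 4854397), (nat_lit 37782334), (nat_lit 23050453), (nat_lit 6167213), (nat_lit 4), (nat_lit 0), [⟨(nat_lit 1), (nat_lit 61), (nat_lit 63), (nat_lit 100), (nat_lit 261877835)⟩], [⟨(nat_lit 0), (nat_lit 100),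 (nat_lit 53), (nat_lit 85), (nat_lit 191129966)⟩], [⟨(nat_lit 0), (nat_lit 100), (nat_lit 96), (nat_lit 40), (nat_lit 80011232)⟩], [],
 ⟨⟨[(nat_lit 40), (nat_lit 60), (nat_lit 80)], [(nat_lit 0), (nat_lit 832), (nat_lit 1534)], [((nat_lit 0), (nat_lit 0), (nat_lit 0)), ((nat_lit 1000), (nat_lit 659), (nat_lit 528)), ((nat_lit 1000), (nat_lit 650), (nat_lit 549))], ((nat_lit 63), (nat_lit 100), (nat_lit 62))⟩, (nat_lit 35551), (nat_lit 121), (nat_lit 121), (nat_lit 0), (nat_lit 0), [(nat_lit 1390163615), (nat_lit 1056632762), (nat_lit 812524800)], [(nat_lit 0), (nat_lit 0), (nat_lit 0)], [(nat_lit 25627072864), (nat_lit 26679333595), (nat_lit 28120834918), (nat_lit 29214201210), (nat_lit 25708371184), (nat_lit 26713620703), (nat_lit 28009085104), (nat_lit 28909199608)], (nat_lit 0), (nat_lit 0), (nat_lit 0), (nat_lit 0), (nat_lit 0), (nat_lit 0), [], [(nat_lit 2), (nat_lit 44), (nat_lit 238), (nat_lit 30), (nat_lit 9)]⟩,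
 ⟨⟨[(nat_lit 80), (nat_lit 120), (nat_lit 160)], [(nat_lit 0), (nat_lit 0), (nat_lit 2132)], [((nat_lit 0), (nat_lit 0), (nat_lit 0)), ((nat_lit 0), (nat_lit 0), (nat_lit 0)), ((nat_lit 858), (nat_lit 1000), (nat_lit 713))], ((nat_lit 100), (nat_lit 92), (nat_lit 61))⟩, (nat_lit 493682), (nat_lit 711), (nat_lit 711), (nat_lit 0), (nat_lit 1034468), [(nat_lit 707888000), (nat_lit 1203168000), (nat_lit 1792672000)], [], [(nat_lit 5683818508), (nat_lit 5714395621), (nat_lit 5891211131), (nat_lit 5911574809), (nat_lit 4881002248), (nat_lit 4904172743), (nat_lit 5059208805), (nat_lit 5072241074)], (nat_lit 1271251), (nat_lit 1271251), (nat_lit 1271251), (nat_lit 1271251), (nat_lit 0), (nat_lit 780000), [(nat_lit 1100000), (nat_lit 1785001), (nat_lit 1271251)], [(nat_lit 18), (nat_lit 59), (nat_lit 317), (nat_lit 100), (nat_lit 8)]⟩,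
 ⟨⟨[(nat_lit 120), (nat_lit 160), (nat_lit 180)], [(nat_lit 0), (nat_lit 533), (nat_lit 2066)], [((nat_lit 0), (nat_lit 0), (nat_lit 0)), ((nat_lit 960), (nat_lit 1000), (nat_lit 200)), ((nat_lit 615), (nat_lit 1000), (nat_lit 729))], ((nat_lit 100), (nat_lit 74), (nat_lit 60))⟩, (nat_lit 117073), (nat_lit 300), (nat_lit 696), (nat_lit 3320001), (nat_lit 549554), [(nat_lit 398400000), (nat_lit 593600000), (nat_lit 702900000)], [], [(nat_lit 3162794890), (nat_lit 2972365127), (nat_lit 2674451351), (nat_lit 2531963518), (nat_lit 2226040637), (nat_lit 2178622261), (nat_lit 1989444729), (nat_lit 1940890174)], (nat_lit 1271251), (nat_lit 1271251), (nat_lit 356250), (nat_lit 780000), (nat_lit 0), (nat_lit 780000), [(nat_lit 1695001), (nat_lit 1271251), (nat_lit 1271251)], [(nat_lit 28), (nat_lit 65), (nat_lit 345), (nat_lit 125), (nat_lit 8)]⟩⟩) (.leaf ⟨(nat_lit 826), (nat_lit 0), (nat_lit 0), (nat_lit 174), (nat_lit 0), (nat_lit 2937), (nat_lit 1632),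 (nat_lit 2581), (nat_lit 0), (nat_lit 0), (nat_lit 464450), [((nat_lit 380), [((nat_lit 24), (nat_lit 0), (nat_lit 89)), ((nat_lit 41), (nat_lit 2), (nat_lit 737))])], ⟨(nat_lit 8), false, true, true, (nat_lit 308), (nat_lit 2236), (nat_lit 3163), [(nat_lit 1727168), (nat_lit 1716594), (nat_lit 1749323), (nat_lit 1739368), (nat_lit 1803360), (nat_lit 1787863), (nat_lit 1825515), (nat_lit 1810637)]⟩, ⟨(nat_lit 4), false, false, false, (nat_lit 135), (nat_lit 2236), (nat_lit 3163), [(nat_lit 1264208), (nat_lit 1277371), (nat_lit 1308390), (nat_lit 1322792), (nat_lit 1355794), (nat_lit 1363050), (nat_lit 1399976), (nat_lit 1408471)]⟩, (nat_lit 4854397), (nat_lit 37782334), (nat_lit 23050453), (nat_lit 6167213), (nat_lit 0), (nat_lit 0), [⟨(nat_lit 1), (nat_lit 71), (nat_lit 54), (nat_lit 100), (nat_lit 351253373)⟩], [⟨(nat_lit 0), (nat_lit 100), (nat_lit 53), (nat_lit 85), (nat_lit 256854778)⟩], [], [],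
 ⟨⟨[(nat_lit 40), (nat_lit 60), (nat_lit 80)], [(nat_lit 0), (nat_lit 832), (nat_lit 1534)], [((nat_lit 0), (nat_lit 0), (nat_lit 0)), ((nat_lit 1000), (nat_lit 659), (nat_lit 528)), ((nat_lit 1000), (nat_lit 650), (nat_lit 549))], ((nat_lit 63), (nat_lit 100), (nat_lit 62))⟩, (nat_lit 462911), (nat_lit 121), (nat_lit 121), (nat_lit 0), (nat_lit 0), [(nat_lit 1402947221), (nat_lit 1126170375), (nat_lit 928596800)], [(nat_lit 0), (nat_lit 0), (nat_lit 0)], [(nat_lit 25590277177), (nat_lit 26669822288), (nat_lit 28243993159), (nat_lit 29346397884), (nat_lit 25664241466), (nat_lit 26682190297), (nat_lit 27987088409), (nat_lit 28894024673)], (nat_lit 0), (nat_lit 0), (nat_lit 0), (nat_lit 0), (nat_lit 0), (nat_lit 0), [], [(nat_lit 2), (nat_lit 44), (nat_lit 238), (nat_lit 30), (nat_lit 9)]⟩,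
 ⟨⟨[(nat_lit 80), (nat_lit 120), (nat_lit 160)], [(nat_lit 0), (nat_lit 0), (nat_lit 2132)], [((nat_lit 0), (nat_lit 0), (nat_lit 0)), ((nat_lit 0), (nat_lit 0), (nat_lit 0)), ((nat_lit 858), (nat_lit 1000), (nat_lit 713))], ((nat_lit 100), (nat_lit 92), (nat_lit 61))⟩, (nat_lit 1006961), (nat_lit 790), (nat_lit 790), (nat_lit 0), (nat_lit 1389921), [(nat_lit 815712000), (nat_lit 1386432000), (nat_lit 2065728000)], [], [(nat_lit 5674127808), (nat_lit 5701032111), (nat_lit 5879222486), (nat_lit 5894504560), (nat_lit 5413553064), (nat_lit 5415733298), (nat_lit 5613380403), (nat_lit 5768821707)], (nat_lit 1271251), (nat_lit 1271251), (nat_lit 1271251), (nat_lit 1271251), (nat_lit 780000), (nat_lit 2253751), [(nat_lit 1100000), (nat_lit 1785001), (nat_lit 1271251)], [(nat_lit 18), (nat_lit 59), (nat_lit 373), (nat_lit 150), (nat_lit 9)]⟩,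
 ⟨⟨[(nat_lit 120), (nat_lit 160), (nat_lit 180)], [(nat_lit 0), (nat_lit 533), (nat_lit 2066)], [((nat_lit 0), (nat_lit 0), (nat_lit 0)), ((nat_lit 960), (nat_lit 1000), (nat_lit 200)), ((nat_lit 615), (nat_lit 1000), (nat_lit 729))], ((nat_lit 100), (nat_lit 74), (nat_lit 60))⟩, (nat_lit 485947), (nat_lit 300), (nat_lit 597), (nat_lit 11553600), (nat_lit 549554), [(nat_lit 1386432000), (nat_lit 2065728000), (nat_lit 2446092000)], [], [(nat_lit 7713083252), (nat_lit 7545835670), (nat_lit 6882236537), (nat_lit 6711024669), (nat_lit 10443009378), (nat_lit 7993195800), (nat_lit 11454068154), (nat_lit 9053345197)], (nat_lit 1271251), (nat_lit 1271251), (nat_lit 356250), (nat_lit 780000), (nat_lit 780000), (nat_lit 2253751), [(nat_lit 1695001), (nat_lit 1271251), (nat_lit 1271251)], [(nat_lit 28), (nat_lit 65), (nat_lit 401), (nat_lit 175), (nat_lit 9)]⟩⟩))))) (.spl (nat_lit 2) (nat_lit 180) (.spl (nat_lit 0) (nat_lit 370) (.leaf ⟨(nat_lit 707), (nat_lit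 265), (nat_lit 0), (nat_lit 28), (nat_lit 0), (nat_lit 2717), (nat_lit 1993), (nat_lit 314), (nat_lit 0), (nat_lit 0), (nat_lit 382200), [((nat_lit 370), [((nat_lit 24), (nat_lit 0), (nat_lit 120)), ((nat_lit 41), (nat_lit 2), (nat_lit 587))])], ⟨(nat_lit 8), false, true, true, (nat_lit 321), (nat_lit 2738), (nat_lit 3163), [(nat_lit 1749323), (nat_lit 1744435), (nat_lit 1771478), (nat_lit 1766852), (nat_lit 1840753), (nat_lit 1833027), (nat_lit 1862908), (nat_lit 1855444)]⟩, ⟨(nat_lit 3), false, false, false, (nat_lit 100), (nat_lit 2738), (nat_lit 3163), [(nat_lit 1137055), (nat_lit 1144520), (nat_lit 1203484), (nat_lit 1211736), (nat_lit 1289472), (nat_lit 1292206), (nat_lit 1355914), (nat_lit 1359435)]⟩, (nat_lit 4508715), (nat_lit 38121780), (nat_lit 24976957), (nat_lit 3901263), (nat_lit 3), (nat_lit 0), [⟨(nat_lit 1), (nat_lit 61), (nat_lit 60), (nat_lit 100), (nat_lit 182786003)⟩], [], [], [⟨(nat_lit 1), (nat_lit 100), (nat_lit 66), (nat_lit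 76), (nat_lit 19723759)⟩],
 ⟨⟨[(nat_lit 40), (nat_lit 60), (nat_lit 80)], [(nat_lit 0), (nat_lit 832), (nat_lit 1534)], [((nat_lit 0), (nat_lit 0), (nat_lit 0)), ((nat_lit 1000), (nat_lit 659), (nat_lit 528)), ((nat_lit 1000), (nat_lit 650), (nat_lit 549))], ((nat_lit 63), (nat_lit 100), (nat_lit 62))⟩, (nat_lit 471218), (nat_lit 146), (nat_lit 146), (nat_lit 0), (nat_lit 0), [(nat_lit 1469836804), (nat_lit 1461433691), (nat_lit 1547262400)], [(nat_lit 0), (nat_lit 0), (nat_lit 0)], [(nat_lit 26443158002), (nat_lit 26948195313), (nat_lit 29348972988), (nat_lit 29815655904), (nat_lit 26188698917), (nat_lit 26640737536), (nat_lit 28857095506), (nat_lit 29287737124)], (nat_lit 0), (nat_lit 0), (nat_lit 0), (nat_lit 0), (nat_lit 0), (nat_lit 0), [], [(nat_lit 2), (nat_lit 44), (nat_lit 238), (nat_lit 30), (nat_lit 9)]⟩,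
 ⟨⟨[(nat_lit 80), (nat_lit 120), (nat_lit 140)], [(nat_lit 0), (nat_lit 528), (nat_lit 1572)], [((nat_lit 0), (nat_lit 0), (nat_lit 0)), ((nat_lit 1000), (nat_lit 959), (nat_lit 206)), ((nat_lit 966), (nat_lit 1000), (nat_lit 679))], ((nat_lit 100), (nat_lit 99), (nat_lit 63))⟩, (nat_lit 1964129), (nat_lit 747), (nat_lit 747), (nat_lit 0), (nat_lit 1253729), [(nat_lit 1373584000), (nat_lit 2334624000), (nat_lit 2883706000)], [], [(nat_lit 9865036124), (nat_lit 9952147672), (nat_lit 10379477243), (nat_lit 10480766055), (nat_lit 9239753365), (nat_lit 9307807615), (nat_lit 9625476089), (nat_lit 9675745399)], (nat_lit 1271251), (nat_lit 1271251), (nat_lit 1271251), (nat_lit 1271251), (nat_lit 0), (nat_lit 2118750), [(nat_lit 1100000), (nat_lit 1785001), (nat_lit 1271251)], [(nat_lit 17), (nat_lit 58), (nat_lit 373), (nat_lit 150), (nat_lit 10)]⟩,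
 ⟨⟨[(nat_lit 140), (nat_lit 180), (nat_lit 200)], [(nat_lit 0), (nat_lit 0), (nat_lit 2835)], [((nat_lit 0), (nat_lit 0), (nat_lit 0)), ((nat_lit 0), (nat_lit 0), (nat_lit 0)), ((nat_lit 363), (nat_lit 1000), (nat_lit 798))], ((nat_lit 0), (nat_lit 0), (nat_lit 0))⟩, (nat_lit 7704), (nat_lit 300), (nat_lit 1071), (nat_lit 2186800), (nat_lit 1042821), [(nat_lit 275576000), (nat_lit 393624000), (nat_lit 459200000)], [], [(nat_lit 2443682111), (nat_lit 2286873635), (nat_lit 2167896368), (nat_lit 2094609705), (nat_lit 1948189265), (nat_lit 1874852835), (nat_lit 1768207971), (nat_lit 1812354036)], (nat_lit 780000), (nat_lit 1271251), (nat_lit 111251), (nat_lit 780000), (nat_lit 0), (nat_lit 2118750), [(nat_lit 1977501), (nat_lit 1271251), (nat_lit 1271251)], [(nat_lit 32), (nat_lit 67), (nat_lit 373), (nat_lit 150), (nat_lit 9)]⟩⟩) (.trX (nat_lit 3) (nat_lit 0) (nat_lit 1) (nat_lit 57) (nat_lit 62) (nat_lit 100) (nat_lit 370) (.trZ (nat_lit 0) (nat_lit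 2) (nat_lit 4) (nat_lit 100) (nat_lit 57) (nat_lit 62) (nat_lit 30) (.leaf ⟨(nat_lit 792), (nat_lit 182), (nat_lit 0), (nat_lit 26), (nat_lit 0), (nat_lit 2707), (nat_lit 1483), (nat_lit 286), (nat_lit 0), (nat_lit 0), (nat_lit 415000), [((nat_lit 380), [((nat_lit 24), (nat_lit 1), (nat_lit 301)), ((nat_lit 41), (nat_lit 2), (nat_lit 491))])], ⟨(nat_lit 8), false, true, true, (nat_lit 316), (nat_lit 2236), (nat_lit 2739), [(nat_lit 1744435), (nat_lit 1739368), (nat_lit 1766852), (nat_lit 1762142), (nat_lit 1818261), (nat_lit 1810637), (nat_lit 1840679), (nat_lit 1833412)]⟩, ⟨(nat_lit 3), false, false, false, (nat_lit 105), (nat_lit 2236), (nat_lit 2739), [(nat_lit 1159252), (nat_lit 1166519), (nat_lit 1226443), (nat_lit 1234781), (nat_lit 1292206), (nat_lit 1294870), (nat_lit 1359410), (nat_lit 1363145)]⟩, (nat_lit 4555651), (nat_lit 38392121), (nat_lit 24375584), (nat_lit 4232295), (nat_lit 3), (nat_lit 0), [⟨(nat_lit 1), (nat_lit 69), (nat_lit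 52), (nat_lit 100), (nat_lit 292364804)⟩], [⟨(nat_lit 0), (nat_lit 100), (nat_lit 44), (nat_lit 86), (nat_lit 52028125)⟩], [], [],
 ⟨⟨[(nat_lit 40), (nat_lit 60), (nat_lit 80)], [(nat_lit 0), (nat_lit 1134), (nat_lit 1930)], [((nat_lit 0), (nat_lit 0), (nat_lit 0)), ((nat_lit 1000), (nat_lit 575), (nat_lit 619)), ((nat_lit 1000), (nat_lit 574), (nat_lit 622))], ((nat_lit 57), (nat_lit 100), (nat_lit 64))⟩, (nat_lit 217402), (nat_lit 138), (nat_lit 138), (nat_lit 0), (nat_lit 0), [(nat_lit 1423710422), (nat_lit 1271918035), (nat_lit 1236453600)], [(nat_lit 0), (nat_lit 0), (nat_lit 0)], [(nat_lit 26743381769), (nat_lit 27241836527), (nat_lit 29079262712), (nat_lit 29553472572), (nat_lit 26556245438), (nat_lit 27007589435), (nat_lit 28717525254), (nat_lit 29158132692)], (nat_lit 0), (nat_lit 0), (nat_lit 0), (nat_lit 0), (nat_lit 0), (nat_lit 0), [], [(nat_lit 2), (nat_lit 44), (nat_lit 238), (nat_lit 30), (nat_lit 9)]⟩,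
 ⟨⟨[(nat_lit 80), (nat_lit 120), (nat_lit 140)], [(nat_lit 0), (nat_lit 528), (nat_lit 1572)], [((nat_lit 0), (nat_lit 0), (nat_lit 0)), ((nat_lit 1000), (nat_lit 959), (nat_lit 206)), ((nat_lit 966), (nat_lit 1000), (nat_lit 679))], ((nat_lit 100), (nat_lit 99), (nat_lit 63))⟩, (nat_lit 1175719), (nat_lit 817), (nat_lit 817), (nat_lit 0), (nat_lit 1427835), [(nat_lit 975104000), (nat_lit 1657344000), (nat_lit 2047136000)], [], [(nat_lit 7139529907), (nat_lit 7174932766), (nat_lit 7332083642), (nat_lit 7358307082), (nat_lit 6395931635), (nat_lit 6420773954), (nat_lit 6568201594), (nat_lit 6643746251)], (nat_lit 1271251), (nat_lit 1271251), (nat_lit 1271251), (nat_lit 1271251), (nat_lit 0), (nat_lit 2118750), [(nat_lit 1100000), (nat_lit 1785001), (nat_lit 1271251)], [(nat_lit 17), (nat_lit 58), (nat_lit 373), (nat_lit 150), (nat_lit 10)]⟩,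
 ⟨⟨[(nat_lit 140), (nat_lit 180), (nat_lit 200)], [(nat_lit 0), (nat_lit 0), (nat_lit 2835)], [((nat_lit 0), (nat_lit 0), (nat_lit 0)), ((nat_lit 0), (nat_lit 0), (nat_lit 0)), ((nat_lit 363), (nat_lit 1000), (nat_lit 798))], ((nat_lit 0), (nat_lit 0), (nat_lit 0))⟩, (nat_lit 7154), (nat_lit 300), (nat_lit 1106), (nat_lit 2030600), (nat_lit 1149748), [(nat_lit 255892000), (nat_lit 365508000), (nat_lit 426400000)], [], [(nat_lit 2196068597), (nat_lit 2124213199), (nat_lit 2036345584), (nat_lit 1969945848), (nat_lit 1818566487), (nat_lit 1752347784), (nat_lit 1673951370), (nat_lit 1675714798)], (nat_lit 780000), (nat_lit 1271251), (nat_lit 169688), (nat_lit 780000), (nat_lit 0), (nat_lit 2118750), [(nat_lit 1977501), (nat_lit 1271251), (nat_lit 1271251)], [(nat_lit 32), (nat_lit 67), (nat_lit 373), (nat_lit 150), (nat_lit 9)]⟩⟩)))) (.trZ (nat_lit 0) (nat_lit 2) (nat_lit 4) (nat_lit 100) (nat_lit 60) (nat_lit 74) (nat_lit 60) (.leaf ⟨(nat_lit 742),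 (nat_lit 182), (nat_lit 0), (nat_lit 76), (nat_lit 0), (nat_lit 2985), (nat_lit 1807), (nat_lit 1119), (nat_lit 0), (nat_lit 0), (nat_lit 406350), [((nat_lit 380), [((nat_lit 24), (nat_lit 0), (nat_lit 111)), ((nat_lit 41), (nat_lit 2), (nat_lit 631))])], ⟨(nat_lit 8), false, true, true, (nat_lit 320), (nat_lit 2236), (nat_lit 3163), [(nat_lit 1749323), (nat_lit 1739368), (nat_lit 1771478), (nat_lit 1762142), (nat_lit 1840753), (nat_lit 1824891), (nat_lit 1862908), (nat_lit 1847666)]⟩, ⟨(nat_lit 4), false, false, false, (nat_lit 135), (nat_lit 2236), (nat_lit 3163), [(nat_lit 1264208), (nat_lit 1277371), (nat_lit 1308390), (nat_lit 1322792), (nat_lit 1355794), (nat_lit 1363050), (nat_lit 1399976), (nat_lit 1408471)]⟩, (nat_lit 4875226), (nat_lit 36820002), (nat_lit 24123738), (nat_lit 6056260), (nat_lit 4), (nat_lit 0), [⟨(nat_lit 1), (nat_lit 65), (nat_lit 56), (nat_lit 100), (nat_lit 239728608)⟩], [⟨(nat_lit 0), (nat_lit 100), (nat_lit 53), (nat_lit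 85), (nat_lit 140903886)⟩, ⟨(nat_lit 0), (nat_lit 100), (nat_lit 44), (nat_lit 94), (nat_lit 187750801)⟩], [⟨(nat_lit 0), (nat_lit 100), (nat_lit 94), (nat_lit 35), (nat_lit 21503596)⟩], [],
 ⟨⟨[(nat_lit 40), (nat_lit 60), (nat_lit 80)], [(nat_lit 0), (nat_lit 832), (nat_lit 1534)], [((nat_lit 0), (nat_lit 0), (nat_lit 0)), ((nat_lit 1000), (nat_lit 659), (nat_lit 528)), ((nat_lit 1000), (nat_lit 650), (nat_lit 549))], ((nat_lit 63), (nat_lit 100), (nat_lit 62))⟩, (nat_lit 279033), (nat_lit 124), (nat_lit 124), (nat_lit 0), (nat_lit 0), [(nat_lit 1450160185), (nat_lit 1385904928), (nat_lit 1365508800)], [(nat_lit 0), (nat_lit 0), (nat_lit 0)], [(nat_lit 25789079778), (nat_lit 26780733343), (nat_lit 28911562497), (nat_lit 29989280496), (nat_lit 25833339353), (nat_lit 26769063906), (nat_lit 28548619825), (nat_lit 29438470052)], (nat_lit 0), (nat_lit 0), (nat_lit 0), (nat_lit 0), (nat_lit 0), (nat_lit 0), [], [(nat_lit 2), (nat_lit 44), (nat_lit 238),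 (nat_lit 30), (nat_lit 9)]⟩,
 ⟨⟨[(nat_lit 80), (nat_lit 120), (nat_lit 140)], [(nat_lit 0), (nat_lit 528), (nat_lit 1572)], [((nat_lit 0), (nat_lit 0), (nat_lit 0)), ((nat_lit 1000), (nat_lit 959), (nat_lit 206)), ((nat_lit 966), (nat_lit 1000), (nat_lit 679))], ((nat_lit 100), (nat_lit 99), (nat_lit 63))⟩, (nat_lit 1632663), (nat_lit 753), (nat_lit 753), (nat_lit 0), (nat_lit 1267536), [(nat_lit 1209504000), (nat_lit 2055744000), (nat_lit 2539236000)], [], [(nat_lit 8806408611), (nat_lit 8879988610), (nat_lit 9199235350), (nat_lit 9355115480), (nat_lit 8138613225), (nat_lit 8182100498), (nat_lit 8416471639), (nat_lit 8446296347)], (nat_lit 1271251), (nat_lit 1271251), (nat_lit 1271251), (nat_lit 1271251), (nat_lit 0), (nat_lit 2118750), [(nat_lit 1100000), (nat_lit 1785001), (nat_lit 1271251)], [(nat_lit 17), (nat_lit 58), (nat_lit 373), (nat_lit 150), (nat_lit 10)]⟩,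
 ⟨⟨[(nat_lit 120), (nat_lit 160), (nat_lit 180)], [(nat_lit 0), (nat_lit 533), (nat_lit 2066)], [((nat_lit 0), (nat_lit 0), (nat_lit 0)), ((nat_lit 960), (nat_lit 1000), (nat_lit 200)), ((nat_lit 615), (nat_lit 1000), (nat_lit 729))], ((nat_lit 100), (nat_lit 74), (nat_lit 60))⟩, (nat_lit 177952), (nat_lit 300), (nat_lit 732), (nat_lit 5046400), (nat_lit 590899), [(nat_lit 605568000), (nat_lit 902272000), (nat_lit 1068408000)], [], [(nat_lit 4807836777), (nat_lit 4518297638), (nat_lit 4065353667), (nat_lit 3848223930), (nat_lit 3906506156), (nat_lit 3155805772), (nat_lit 4345805854), (nat_lit 3304965486)], (nat_lit 1271251), (nat_lit 1271251), (nat_lit 356250), (nat_lit 780000), (nat_lit 0), (nat_lit 2118750), [(nat_lit 1695001), (nat_lit 1271251), (nat_lit 1271251)], [(nat_lit 28), (nat_lit 65), (nat_lit 401), (nat_lit 175), (nat_lit 10)]⟩⟩))))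
noncomputable def c17_5 : Tr Lf :=
 (.spl (nat_lit 0) (nat_lit 370) (.leaf ⟨(nat_lit 311), (nat_lit 583), (nat_lit 0), (nat_lit 106), (nat_lit 0), (nat_lit 3796), (nat_lit 5202), (nat_lit 1181), (nat_lit 0), (nat_lit 0), (nat_lit 113450), [((nat_lit 370), [((nat_lit 24), (nat_lit 0), (nat_lit 209)), ((nat_lit 41), (nat_lit 2), (nat_lit 102))])], ⟨(nat_lit 8), false, true, true, (nat_lit 317), (nat_lit 2738), (nat_lit 3163), [(nat_lit 1727168), (nat_lit 1722017), (nat_lit 1771478), (nat_lit 1766852), (nat_lit 1818598), (nat_lit 1810609), (nat_lit 1862908), (nat_lit 1855444)]⟩, ⟨(nat_lit 3), false, false, false, (nat_lit 109), (nat_lit 2738), (nat_lit 3163), [(nat_lit 1137055), (nat_lit 1144520), (nat_lit 1247770), (nat_lit 1256546), (nat_lit 1289472), (nat_lit 1292206), (nat_lit 1400199), (nat_lit 1404246)]⟩, (nat_lit 4598823), (nat_lit 38160578), (nat_lit 24390948), (nat_lit 4448474), (nat_lit 3), (nat_lit 0), [⟨(nat_lit 1), (nat_lit 65), (nat_lit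 59), (nat_lit 100), (nat_lit 261150578)⟩], [⟨(nat_lit 0), (nat_lit 100), (nat_lit 53), (nat_lit 90), (nat_lit 281980208)⟩], [], [],
 ⟨⟨[(nat_lit 40), (nat_lit 60), (nat_lit 80)], [(nat_lit 0), (nat_lit 832), (nat_lit 1534)], [((nat_lit 0), (nat_lit 0), (nat_lit 0)), ((nat_lit 1000), (nat_lit 659), (nat_lit 528)), ((nat_lit 1000), (nat_lit 650), (nat_lit 549))], ((nat_lit 63), (nat_lit 100), (nat_lit 62))⟩, (nat_lit 1613206), (nat_lit 219), (nat_lit 219), (nat_lit 0), (nat_lit 273421), [(nat_lit 1692835209), (nat_lit 2696576196), (nat_lit 3581116800)], [(nat_lit 0), (nat_lit 0), (nat_lit 0)], [(nat_lit 28243599776), (nat_lit 28969005555), (nat_lit 32122876552), (nat_lit 32729992856), (nat_lit 26269505557), (nat_lit 26772570785), (nat_lit 29700077886), (nat_lit 30265065489)], (nat_lit 1271251), (nat_lit 1271251), (nat_lit 1271251), (nat_lit 1271251), (nat_lit 111251), (nat_lit 780000), [(nat_lit 490000), (nat_lit 780000), (nat_lit 1100000)], [(nat_lit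 2), (nat_lit 44), (nat_lit 238), (nat_lit 30), (nat_lit 9)]⟩,
 ⟨⟨[(nat_lit 80), (nat_lit 120), (nat_lit 160)], [(nat_lit 0), (nat_lit 0), (nat_lit 2132)], [((nat_lit 0), (nat_lit 0), (nat_lit 0)), ((nat_lit 0), (nat_lit 0), (nat_lit 0)), ((nat_lit 858), (nat_lit 1000), (nat_lit 713))], ((nat_lit 100), (nat_lit 92), (nat_lit 61))⟩, (nat_lit 2112664), (nat_lit 548), (nat_lit 548), (nat_lit 0), (nat_lit 666530), [(nat_lit 3230032000), (nat_lit 5489952000), (nat_lit 8179808000)], [], [(nat_lit 26728763212), (nat_lit 27543135870), (nat_lit 28846027376), (nat_lit 29470760919), (nat_lit 24488513511), (nat_lit 24911961309), (nat_lit 25798298964), (nat_lit 26098278415)], (nat_lit 1271251), (nat_lit 1271251), (nat_lit 1271251), (nat_lit 1271251), (nat_lit 0), (nat_lit 2118750), [(nat_lit 1100000), (nat_lit 1785001), (nat_lit 1271251)], [(nat_lit 18), (nat_lit 59), (nat_lit 373), (nat_lit 150), (nat_lit 9)]⟩,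
 ⟨⟨[(nat_lit 140), (nat_lit 180), (nat_lit 200)], [(nat_lit 0), (nat_lit 0), (nat_lit 2835)], [((nat_lit 0), (nat_lit 0), (nat_lit 0)), ((nat_lit 0), (nat_lit 0), (nat_lit 0)), ((nat_lit 363), (nat_lit 1000), (nat_lit 798))], ((nat_lit 0), (nat_lit 0), (nat_lit 0))⟩, (nat_lit 64539), (nat_lit 300), (nat_lit 1071), (nat_lit 8278600), (nat_lit 1042881), [(nat_lit 1043252000), (nat_lit 1490148000), (nat_lit 1738400000)], [], [(nat_lit 9222656821), (nat_lit 8531066308), (nat_lit 8239296344), (nat_lit 7812784192), (nat_lit 7414589032), (nat_lit 6984417365), (nat_lit 6738298748), (nat_lit 7467168410)], (nat_lit 780000), (nat_lit 1598751), (nat_lit 111251), (nat_lit 780000), (nat_lit 0), (nat_lit 2118750), [(nat_lit 1977501), (nat_lit 1271251), (nat_lit 1271251)], [(nat_lit 32), (nat_lit 67), (nat_lit 401), (nat_lit 175), (nat_lit 9)]⟩⟩) (.trX (nat_lit 3) (nat_lit 0) (nat_lit 1) (nat_lit 57) (nat_lit 62) (nat_lit 100) (nat_lit 370) (.trZ (nat_lit 0) (nat_lit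 2) (nat_lit 4) (nat_lit 100) (nat_lit 57) (nat_lit 62) (nat_lit 30) (.leaf ⟨(nat_lit 658), (nat_lit 304), (nat_lit 0), (nat_lit 38), (nat_lit 0), (nat_lit 3494), (nat_lit 3099), (nat_lit 471), (nat_lit 0), (nat_lit 0), (nat_lit 347900), [((nat_lit 380), [((nat_lit 24), (nat_lit 0), (nat_lit 134)), ((nat_lit 41), (nat_lit 2), (nat_lit 524))])], ⟨(nat_lit 8), false, true, true, (nat_lit 311), (nat_lit 2236), (nat_lit 2739), [(nat_lit 1722017), (nat_lit 1716594), (nat_lit 1766852), (nat_lit 1762142), (nat_lit 1795844), (nat_lit 1787863), (nat_lit 1840679), (nat_lit 1833412)]⟩, ⟨(nat_lit 3), false, false, false, (nat_lit 114), (nat_lit 2236), (nat_lit 2739), [(nat_lit 1159252), (nat_lit 1166519), (nat_lit 1271238), (nat_lit 1280289), (nat_lit 1292206), (nat_lit 1294870), (nat_lit 1404204), (nat_lit 1408652)]⟩, (nat_lit 4644641), (nat_lit 38415122), (nat_lit 23781238), (nat_lit 4803640), (nat_lit 3), (nat_lit 0), [⟨(nat_lit 1), (nat_lit 72), (nat_lit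 51), (nat_lit 100), (nat_lit 344884844)⟩], [⟨(nat_lit 0), (nat_lit 100), (nat_lit 44), (nat_lit 94), (nat_lit 240249491)⟩], [], [],
 ⟨⟨[(nat_lit 40), (nat_lit 60), (nat_lit 80)], [(nat_lit 0), (nat_lit 1134), (nat_lit 1930)], [((nat_lit 0), (nat_lit 0), (nat_lit 0)), ((nat_lit 1000), (nat_lit 575), (nat_lit 619)), ((nat_lit 1000), (nat_lit 574), (nat_lit 622))], ((nat_lit 57), (nat_lit 100), (nat_lit 64))⟩, (nat_lit 260677), (nat_lit 218), (nat_lit 218), (nat_lit 0), (nat_lit 291754), [(nat_lit 1497719201), (nat_lit 1620373172), (nat_lit 1804179200)], [(nat_lit 0), (nat_lit 0), (nat_lit 0)], [(nat_lit 27967620578), (nat_lit 28660471507), (nat_lit 30973022825), (nat_lit 31574103274), (nat_lit 26559917490), (nat_lit 27045472607), (nat_lit 29204421708), (nat_lit 29766107809)], (nat_lit 1271251), (nat_lit 1271251), (nat_lit 1271251), (nat_lit 1271251), (nat_lit 169688), (nat_lit 780000), [(nat_lit 490000), (nat_lit 780000), (nat_lit 1100000)], [(nat_lit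 2), (nat_lit 44), (nat_lit 238), (nat_lit 30), (nat_lit 9)]⟩,
 ⟨⟨[(nat_lit 80), (nat_lit 120), (nat_lit 160)], [(nat_lit 0), (nat_lit 0), (nat_lit 2132)], [((nat_lit 0), (nat_lit 0), (nat_lit 0)), ((nat_lit 0), (nat_lit 0), (nat_lit 0)), ((nat_lit 858), (nat_lit 1000), (nat_lit 713))], ((nat_lit 100), (nat_lit 92), (nat_lit 61))⟩, (nat_lit 1123910), (nat_lit 581), (nat_lit 581), (nat_lit 0), (nat_lit 759569), [(nat_lit 1603296000), (nat_lit 2725056000), (nat_lit 4060224000)], [], [(nat_lit 12875997648), (nat_lit 13138913994), (nat_lit 13553689518), (nat_lit 13749893938), (nat_lit 10904024982), (nat_lit 10999230840), (nat_lit 11293866963), (nat_lit 11542433424)], (nat_lit 1271251), (nat_lit 1271251), (nat_lit 1271251), (nat_lit 1271251), (nat_lit 0), (nat_lit 2118750), [(nat_lit 1100000), (nat_lit 1785001), (nat_lit 1271251)], [(nat_lit 18), (nat_lit 59), (nat_lit 373), (nat_lit 150), (nat_lit 9)]⟩,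
 ⟨⟨[(nat_lit 140), (nat_lit 180), (nat_lit 200)], [(nat_lit 0), (nat_lit 0), (nat_lit 2835)], [((nat_lit 0), (nat_lit 0), (nat_lit 0)), ((nat_lit 0), (nat_lit 0), (nat_lit 0)), ((nat_lit 363), (nat_lit 1000), (nat_lit 798))], ((nat_lit 0), (nat_lit 0), (nat_lit 0))⟩, (nat_lit 46790), (nat_lit 300), (nat_lit 1106), (nat_lit 2967800), (nat_lit 1149832), [(nat_lit 373996000), (nat_lit 534204000), (nat_lit 623200000)], [], [(nat_lit 3394843676), (nat_lit 2939414133), (nat_lit 2810613570), (nat_lit 2643897076), (nat_lit 2473411974), (nat_lit 2482860757), (nat_lit 2198050732), (nat_lit 2757570285)], (nat_lit 780000), (nat_lit 1598751), (nat_lit 169688), (nat_lit 780000), (nat_lit 0), (nat_lit 2118750), [(nat_lit 1977501), (nat_lit 1271251), (nat_lit 1271251)], [(nat_lit 32), (nat_lit 67), (nat_lit 401), (nat_lit 175), (nat_lit 9)]⟩⟩))))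
noncomputable def c17_6 : Tr Lf :=
 (.spl (nat_lit 5) (nat_lit 120) (.spl (nat_lit 0) (nat_lit 370) (.leaf ⟨(nat_lit 35), (nat_lit 965), (nat_lit 0), (nat_lit 0), (nat_lit 0), (nat_lit 3781), (nat_lit 6776), (nat_lit 0), (nat_lit 0), (nat_lit 0), (nat_lit 140000), [((nat_lit 370), [((nat_lit 41), (nat_lit 5), (nat_lit 35))])], ⟨(nat_lit 8), false, true, true, (nat_lit 341), (nat_lit 2738), (nat_lit 3163), [(nat_lit 1771478), (nat_lit 1766852), (nat_lit 1815772), (nat_lit 1811670), (nat_lit 1893385), (nat_lit 1884975), (nat_lit 1937695), (nat_lit 1929809)]⟩, ⟨(nat_lit 3), false, false, false, (nat_lit 109), (nat_lit 2738), (nat_lit 3163), [(nat_lit 1137055), (nat_lit 1144520), (nat_lit 1247770), (nat_lit 1256546), (nat_lit 1289472), (nat_lit 1292206), (nat_lit 1400199), (nat_lit 1404246)]⟩, (nat_lit 4630294), (nat_lit 36165610), (nat_lit 26550194), (nat_lit 4284196), (nat_lit 3), (nat_lit 0), [⟨(nat_lit 1), (nat_lit 50), (nat_lit 65), (nat_lit 100),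 (nat_lit 12052576)⟩], [], [], [⟨(nat_lit 0), (nat_lit 100), (nat_lit 79), (nat_lit 29), (nat_lit 2760349)⟩],
 ⟨⟨[(nat_lit 40), (nat_lit 60), (nat_lit 80)], [(nat_lit 0), (nat_lit 832), (nat_lit 1534)], [((nat_lit 0), (nat_lit 0), (nat_lit 0)), ((nat_lit 1000), (nat_lit 659), (nat_lit 528)), ((nat_lit 1000), (nat_lit 650), (nat_lit 549))], ((nat_lit 63), (nat_lit 100), (nat_lit 62))⟩, (nat_lit 3518266), (nat_lit 248), (nat_lit 248), (nat_lit 0), (nat_lit 330886), [(nat_lit 1896298001), (nat_lit 3339411165), (nat_lit 3926274000)], [(nat_lit 0), (nat_lit 0), (nat_lit 0)], [(nat_lit 28211332811), (nat_lit 28935309668), (nat_lit 33374142473), (nat_lit 33940868032), (nat_lit 27325582937), (nat_lit 27827778458), (nat_lit 30988169667), (nat_lit 31402976321)], (nat_lit 1271251), (nat_lit 1271251), (nat_lit 1271251), (nat_lit 1271251), (nat_lit 111251), (nat_lit 780000), [(nat_lit 490000), (nat_lit 780000), (nat_lit 1100000)], [(nat_lit 2), (nat_lit 44),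 (nat_lit 238), (nat_lit 30), (nat_lit 9)]⟩,
 ⟨⟨[(nat_lit 60), (nat_lit 100), (nat_lit 140)], [(nat_lit 0), (nat_lit 0), (nat_lit 2047)], [((nat_lit 0), (nat_lit 0), (nat_lit 0)), ((nat_lit 0), (nat_lit 0), (nat_lit 0)), ((nat_lit 1000), (nat_lit 993), (nat_lit 781))], ((nat_lit 94), (nat_lit 100), (nat_lit 62))⟩, (nat_lit 3272373), (nat_lit 628), (nat_lit 628), (nat_lit 0), (nat_lit 1008394), [(nat_lit 3167130000), (nat_lit 6031250000), (nat_lit 9497530000)], [], [(nat_lit 37237928816), (nat_lit 38089468500), (nat_lit 39931950844), (nat_lit 40531166660), (nat_lit 34018507409), (nat_lit 34751579466), (nat_lit 36393414591), (nat_lit 36903778710)], (nat_lit 1271251), (nat_lit 1271251), (nat_lit 1271251), (nat_lit 1271251), (nat_lit 0), (nat_lit 780000), [(nat_lit 780000), (nat_lit 1435001), (nat_lit 1271251)], [(nat_lit 11), (nat_lit 55), (nat_lit 262), (nat_lit 30), (nat_lit 7)]⟩,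
 Rw.none⟩) (.trX (nat_lit 3) (nat_lit 0) (nat_lit 1) (nat_lit 66) (nat_lit 45) (nat_lit 100) (nat_lit 390) (.trZ (nat_lit 0) (nat_lit 2) (nat_lit 4) (nat_lit 100) (nat_lit 57) (nat_lit 62) (nat_lit 30) (.leaf ⟨(nat_lit 193), (nat_lit 807), (nat_lit 0), (nat_lit 0), (nat_lit 0), (nat_lit 3616), (nat_lit 5681), (nat_lit 0), (nat_lit 0), (nat_lit 0), (nat_lit 156600), [((nat_lit 380), [((nat_lit 41), (nat_lit 2), (nat_lit 181)), ((nat_lit 41), (nat_lit 5), (nat_lit 12))])], ⟨(nat_lit 8), false, true, true, (nat_lit 335), (nat_lit 2236), (nat_lit 2739), [(nat_lit 1766852), (nat_lit 1762142), (nat_lit 1811671), (nat_lit 1807675), (nat_lit 1870209), (nat_lit 1861919), (nat_lit 1915044), (nat_lit 1907468)]⟩, ⟨(nat_lit 3), false, false, false, (nat_lit 114), (nat_lit 2236), (nat_lit 2739), [(nat_lit 1159252), (nat_lit 1166519), (nat_lit 1271238), (nat_lit 1280289), (nat_lit 1292206), (nat_lit 1294870), (nat_lit 1404204), (nat_lit 1408652)]⟩, (nat_lit 4680946),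 (nat_lit 36420945), (nat_lit 25950601), (nat_lit 4628454), (nat_lit 3), (nat_lit 0), [⟨(nat_lit 1), (nat_lit 60), (nat_lit 56), (nat_lit 100), (nat_lit 62463318)⟩], [], [], [],
 ⟨⟨[(nat_lit 40), (nat_lit 60), (nat_lit 80)], [(nat_lit 0), (nat_lit 1134), (nat_lit 1930)], [((nat_lit 0), (nat_lit 0), (nat_lit 0)), ((nat_lit 1000), (nat_lit 575), (nat_lit 619)), ((nat_lit 1000), (nat_lit 574), (nat_lit 622))], ((nat_lit 57), (nat_lit 100), (nat_lit 64))⟩, (nat_lit 2499747), (nat_lit 246), (nat_lit 246), (nat_lit 0), (nat_lit 343542), [(nat_lit 1770348801), (nat_lit 3134083834), (nat_lit 3568752000)], [(nat_lit 0), (nat_lit 0), (nat_lit 0)], [(nat_lit 28225706180), (nat_lit 28930104073), (nat_lit 32497611773), (nat_lit 33070233734), (nat_lit 27614863295), (nat_lit 28107492033), (nat_lit 30687552998), (nat_lit 31105039443)], (nat_lit 1271251), (nat_lit 1271251), (nat_lit 1271251), (nat_lit 1271251), (nat_lit 169688), (nat_lit 780000), [(nat_lit 490000),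 (nat_lit 780000), (nat_lit 1100000)], [(nat_lit 2), (nat_lit 44), (nat_lit 238), (nat_lit 30), (nat_lit 9)]⟩,
 ⟨⟨[(nat_lit 60), (nat_lit 100), (nat_lit 140)], [(nat_lit 0), (nat_lit 0), (nat_lit 2047)], [((nat_lit 0), (nat_lit 0), (nat_lit 0)), ((nat_lit 0), (nat_lit 0), (nat_lit 0)), ((nat_lit 1000), (nat_lit 993), (nat_lit 781))], ((nat_lit 94), (nat_lit 100), (nat_lit 62))⟩, (nat_lit 3134252), (nat_lit 688), (nat_lit 688), (nat_lit 0), (nat_lit 1132155), [(nat_lit 2648574000), (nat_lit 5043750000), (nat_lit 7942494000)], [], [(nat_lit 31084546874), (nat_lit 31796816440), (nat_lit 33057771801), (nat_lit 33585022937), (nat_lit 28436599712), (nat_lit 28995035676), (nat_lit 30121287626), (nat_lit 30571011350)], (nat_lit 1271251), (nat_lit 1271251), (nat_lit 1271251), (nat_lit 1271251), (nat_lit 0), (nat_lit 780000), [(nat_lit 780000), (nat_lit 1435001), (nat_lit 1271251)], [(nat_lit 11), (nat_lit 55), (nat_lit 276), (nat_lit 30), (nat_lit 7)]⟩,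
 Rw.none⟩)))) (.spl (nat_lit 2) (nat_lit 180) (.spl (nat_lit 6) (nat_lit 20) (.stt (nat_lit 3) (.spl (nat_lit 0) (nat_lit 370) (.leaf ⟨(nat_lit 671), (nat_lit 271), (nat_lit 0), (nat_lit 58), (nat_lit 0), (nat_lit 2965), (nat_lit 2245), (nat_lit 4178), (nat_lit 0), (nat_lit 0), (nat_lit 357100), [((nat_lit 370), [((nat_lit 24), (nat_lit 0), (nat_lit 130)), ((nat_lit 41), (nat_lit 2), (nat_lit 541))])], ⟨(nat_lit 8), false, true, true, (nat_lit 341), (nat_lit 2738), (nat_lit 3163), [(nat_lit 1771478), (nat_lit 1766852), (nat_lit 1815772), (nat_lit 1811670), (nat_lit 1893385), (nat_lit 1884975), (nat_lit 1937695), (nat_lit 1929809)]⟩, ⟨(nat_lit 3), true, false, false, (nat_lit 100), (nat_lit 2738), (nat_lit 3163), [(nat_lit 1137055), (nat_lit 1144520), (nat_lit 1203484), (nat_lit 1211736), (nat_lit 1289472), (nat_lit 1292206), (nat_lit 1355914), (nat_lit 1359435)]⟩, (nat_lit 4534241), (nat_lit 36475195), (nat_lit 26741711), (nat_lit 3783094), (nat_lit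 3), (nat_lit 0), [⟨(nat_lit 1), (nat_lit 50), (nat_lit 65), (nat_lit 100), (nat_lit 47490719)⟩], [⟨(nat_lit 0), (nat_lit 100), (nat_lit 58), (nat_lit 68), (nat_lit 214320155)⟩], [], [⟨(nat_lit 1), (nat_lit 100), (nat_lit 60), (nat_lit 76), (nat_lit 109442109)⟩],
 ⟨⟨[(nat_lit 40), (nat_lit 60)], [(nat_lit 0), (nat_lit 832)], [((nat_lit 0), (nat_lit 0), (nat_lit 0)), ((nat_lit 1000), (nat_lit 659), (nat_lit 528))], ((nat_lit 68), (nat_lit 100), (nat_lit 49))⟩, (nat_lit 265467), (nat_lit 214), (nat_lit 214), (nat_lit 0), (nat_lit 326836), [(nat_lit 1490244466), (nat_lit 1507023200)], [(nat_lit 0), (nat_lit 0)], [(nat_lit 27570871878), (nat_lit 28062565997), (nat_lit 31202024053), (nat_lit 31614141435), (nat_lit 27410181050), (nat_lit 27858928743), (nat_lit 30744858760), (nat_lit 31125178690)], (nat_lit 1271251), (nat_lit 1271251), (nat_lit 1271251), (nat_lit 1271251), (nat_lit 111251), (nat_lit 780000), [(nat_lit 490000), (nat_lit 780000)], [(nat_lit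 1), (nat_lit 38), (nat_lit 238), (nat_lit 30), (nat_lit 12)]⟩,
 ⟨⟨[(nat_lit 60), (nat_lit 100), (nat_lit 120)], [(nat_lit 0), (nat_lit 0), (nat_lit 1164)], [((nat_lit 0), (nat_lit 0), (nat_lit 0)), ((nat_lit 0), (nat_lit 0), (nat_lit 0)), ((nat_lit 1000), (nat_lit 933), (nat_lit 572))], ((nat_lit 92), (nat_lit 100), (nat_lit 44))⟩, (nat_lit 622500), (nat_lit 578), (nat_lit 578), (nat_lit 0), (nat_lit 1207951), [(nat_lit 1079778000), (nat_lit 2056250000), (nat_lit 2621472000)], [], [(nat_lit 11933663733), (nat_lit 12148726680), (nat_lit 12700794014), (nat_lit 12876630064), (nat_lit 12058407249), (nat_lit 12207556417), (nat_lit 12620677526), (nat_lit 12713593035)], (nat_lit 1271251), (nat_lit 1271251), (nat_lit 1271251), (nat_lit 1271251), (nat_lit 780000), (nat_lit 2253751), [(nat_lit 780000), (nat_lit 1435001), (nat_lit 1271251)], [(nat_lit 10), (nat_lit 54), (nat_lit 289), (nat_lit 75), (nat_lit 8)]⟩,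
 ⟨⟨[(nat_lit 140), (nat_lit 160), (nat_lit 180)], [(nat_lit 0), (nat_lit 0), (nat_lit 799)], [((nat_lit 0), (nat_lit 0), (nat_lit 0)), ((nat_lit 0), (nat_lit 0), (nat_lit 0)), ((nat_lit 728), (nat_lit 1000), (nat_lit 454))], ((nat_lit 100), (nat_lit 71), (nat_lit 48))⟩, (nat_lit 1317198), (nat_lit 300), (nat_lit 366), (nat_lit 4303600), (nat_lit 0), [(nat_lit 570836000), (nat_lit 688576000), (nat_lit 815364000)], [], [(nat_lit 3193967501), (nat_lit 2776850909), (nat_lit 177736), (nat_lit 0), (nat_lit 4208959667), (nat_lit 4282853128), (nat_lit 787145327), (nat_lit 759361149)], (nat_lit 0), (nat_lit 0), (nat_lit 0), (nat_lit 0), (nat_lit 0), (nat_lit 0), [], [(nat_lit 31), (nat_lit 65), (nat_lit 373), (nat_lit 150), (nat_lit 9)]⟩⟩) (.trX (nat_lit 3) (nat_lit 0) (nat_lit 1) (nat_lit 66) (nat_lit 45) (nat_lit 100) (nat_lit 390) (.trZ (nat_lit 0) (nat_lit 2) (nat_lit 4) (nat_lit 100) (nat_lit 57) (nat_lit 62) (nat_lit 30) (.leaf ⟨(nat_lit 0), (nat_lit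 0), (nat_lit 0), (nat_lit 1000), (nat_lit 0), (nat_lit 3859), (nat_lit 8621), (nat_lit 20718), (nat_lit 0), (nat_lit 0), (nat_lit 0), [], Pd.none, Pd.none, (nat_lit 0), (nat_lit 1), (nat_lit 0), (nat_lit 0), (nat_lit 0), (nat_lit 0), [], [⟨(nat_lit 0), (nat_lit 100), (nat_lit 50), (nat_lit 75), (nat_lit 2579773027)⟩], [], [],
 ⟨⟨[(nat_lit 40), (nat_lit 60)], [(nat_lit 0), (nat_lit 1134)], [((nat_lit 0), (nat_lit 0), (nat_lit 0)), ((nat_lit 1000), (nat_lit 575), (nat_lit 619))], ((nat_lit 62), (nat_lit 100), (nat_lit 52))⟩, (nat_lit 1105401), (nat_lit 212), (nat_lit 212), (nat_lit 0), (nat_lit 339694), [(nat_lit 2032000002), (nat_lit 3282000000)], [], [(nat_lit 28937652494), (nat_lit 29467159102), (nat_lit 33139825020), (nat_lit 33728878768), (nat_lit 28339728314), (nat_lit 28824474475), (nat_lit 31462080173), (nat_lit 31889960776)], (nat_lit 1271251), (nat_lit 1271251), (nat_lit 1271251), (nat_lit 1271251), (nat_lit 169688), (nat_lit 780000), [(nat_lit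 490000), (nat_lit 780000)], [(nat_lit 1), (nat_lit 38), (nat_lit 238), (nat_lit 30), (nat_lit 11)]⟩,
 ⟨⟨[(nat_lit 60), (nat_lit 100), (nat_lit 120)], [(nat_lit 0), (nat_lit 0), (nat_lit 1164)], [((nat_lit 0), (nat_lit 0), (nat_lit 0)), ((nat_lit 0), (nat_lit 0), (nat_lit 0)), ((nat_lit 1000), (nat_lit 933), (nat_lit 572))], ((nat_lit 92), (nat_lit 100), (nat_lit 44))⟩, (nat_lit 1483689), (nat_lit 644), (nat_lit 644), (nat_lit 0), (nat_lit 1352944), [(nat_lit 3282000000), (nat_lit 6250000000), (nat_lit 7968000000)], [], [(nat_lit 28904422301), (nat_lit 29402088044), (nat_lit 32458426552), (nat_lit 34924551195), (nat_lit 29176610500), (nat_lit 31352012794), (nat_lit 35001741053), (nat_lit 36550359063)], (nat_lit 1271251), (nat_lit 1271251), (nat_lit 1271251), (nat_lit 1271251), (nat_lit 780000), (nat_lit 2253751), [(nat_lit 780000), (nat_lit 1435001), (nat_lit 1271251)], [(nat_lit 10), (nat_lit 54), (nat_lit 289), (nat_lit 75), (nat_lit 8)]⟩,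
 ⟨⟨[(nat_lit 140), (nat_lit 160), (nat_lit 180)], [(nat_lit 0), (nat_lit 0), (nat_lit 799)], [((nat_lit 0), (nat_lit 0), (nat_lit 0)), ((nat_lit 0), (nat_lit 0), (nat_lit 0)), ((nat_lit 728), (nat_lit 1000), (nat_lit 454))], ((nat_lit 100), (nat_lit 71), (nat_lit 48))⟩, (nat_lit 16148487), (nat_lit 278), (nat_lit 278), (nat_lit 0), (nat_lit 0), [(nat_lit 9842000000), (nat_lit 11872000000), (nat_lit 14058000000)], [], [(nat_lit 26770932034), (nat_lit 26687143686), (nat_lit 15978871654), (nat_lit 15387906209), (nat_lit 38436299339), (nat_lit 37393380298), (nat_lit 25663169942), (nat_lit 24695809790)], (nat_lit 0), (nat_lit 0), (nat_lit 0), (nat_lit 0), (nat_lit 0), (nat_lit 0), [], [(nat_lit 31), (nat_lit 65), (nat_lit 373), (nat_lit 150), (nat_lit 9)]⟩⟩)))) (.leaf ⟨(nat_lit 676), (nat_lit 248), (nat_lit 0), (nat_lit 76), (nat_lit 0), (nat_lit 3091), (nat_lit 2551), (nat_lit 1018), (nat_lit 0), (nat_lit 0), (nat_lit 361150), [((nat_lit 380), [((nat_lit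 24), (nat_lit 0), (nat_lit 127)), ((nat_lit 41), (nat_lit 2), (nat_lit 549))])], ⟨(nat_lit 8), false, true, true, (nat_lit 339), (nat_lit 2236), (nat_lit 3163), [(nat_lit 1771478), (nat_lit 1762142), (nat_lit 1815720), (nat_lit 1807623), (nat_lit 1893385), (nat_lit 1876173), (nat_lit 1937695), (nat_lit 1921722)]⟩, ⟨(nat_lit 3), false, false, false, (nat_lit 101), (nat_lit 2236), (nat_lit 3163), [(nat_lit 1136876), (nat_lit 1152119), (nat_lit 1203150), (nat_lit 1220251), (nat_lit 1289472), (nat_lit 1294870), (nat_lit 1355794), (nat_lit 1363050)]⟩, (nat_lit 4544993), (nat_lit 36545164), (nat_lit 26603435), (nat_lit 3851401), (nat_lit 3), (nat_lit 0), [⟨(nat_lit 1), (nat_lit 55), (nat_lit 61), (nat_lit 100), (nat_lit 108377886)⟩], [⟨(nat_lit 0), (nat_lit 100), (nat_lit 54), (nat_lit 71), (nat_lit 1294964)⟩], [], [⟨(nat_lit 1), (nat_lit 100), (nat_lit 60), (nat_lit 76), (nat_lit 129704696)⟩],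
 ⟨⟨[(nat_lit 40), (nat_lit 60)], [(nat_lit 0), (nat_lit 832)], [((nat_lit 0), (nat_lit 0), (nat_lit 0)), ((nat_lit 1000), (nat_lit 659), (nat_lit 528))], ((nat_lit 68), (nat_lit 100), (nat_lit 49))⟩, (nat_lit 544894), (nat_lit 219), (nat_lit 219), (nat_lit 0), (nat_lit 340618), [(nat_lit 1487292801), (nat_lit 1490201200)], [(nat_lit 0), (nat_lit 0)], [(nat_lit 27302967731), (nat_lit 28313770815), (nat_lit 31450130948), (nat_lit 32495177368), (nat_lit 27063674257), (nat_lit 27988052208), (nat_lit 30454173287), (nat_lit 31225044851)], (nat_lit 1271251), (nat_lit 1271251), (nat_lit 1271251), (nat_lit 1271251), (nat_lit 111251), (nat_lit 780000), [(nat_lit 490000), (nat_lit 780000)], [(nat_lit 1), (nat_lit 38), (nat_lit 238), (nat_lit 30), (nat_lit 12)]⟩,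
 ⟨⟨[(nat_lit 60), (nat_lit 100), (nat_lit 120)], [(nat_lit 0), (nat_lit 0), (nat_lit 1164)], [((nat_lit 0), (nat_lit 0), (nat_lit 0)), ((nat_lit 0), (nat_lit 0), (nat_lit 0)), ((nat_lit 1000), (nat_lit 933), (nat_lit 572))], ((nat_lit 92), (nat_lit 100), (nat_lit 44))⟩, (nat_lit 926210), (nat_lit 547), (nat_lit 547), (nat_lit 0), (nat_lit 1125852), [(nat_lit 1063368000), (nat_lit 2025000000), (nat_lit 2581632000)], [], [(nat_lit 10148370647), (nat_lit 10394096826), (nat_lit 10977902965), (nat_lit 11303462552), (nat_lit 10179374874), (nat_lit 10313997765), (nat_lit 11339097482), (nat_lit 11799498870)], (nat_lit 1271251), (nat_lit 1271251), (nat_lit 1271251), (nat_lit 1271251), (nat_lit 780000), (nat_lit 2253751), [(nat_lit 780000), (nat_lit 1435001), (nat_lit 1271251)], [(nat_lit 10), (nat_lit 54), (nat_lit 289), (nat_lit 75), (nat_lit 8)]⟩,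
 ⟨⟨[(nat_lit 140), (nat_lit 160), (nat_lit 180)], [(nat_lit 0), (nat_lit 0), (nat_lit 799)], [((nat_lit 0), (nat_lit 0), (nat_lit 0)), ((nat_lit 0), (nat_lit 0), (nat_lit 0)), ((nat_lit 728), (nat_lit 1000), (nat_lit 454))], ((nat_lit 100), (nat_lit 71), (nat_lit 48))⟩, (nat_lit 255287), (nat_lit 300), (nat_lit 1023), (nat_lit 5639200), (nat_lit 1312600), [(nat_lit 747992000), (nat_lit 902272000), (nat_lit 1068408000)], [], [(nat_lit 4374431834), (nat_lit 4199064058), (nat_lit 3754950958), (nat_lit 3582211855), (nat_lit 4455117909), (nat_lit 5155360429), (nat_lit 4975696392), (nat_lit 5723730004)], (nat_lit 780000), (nat_lit 1271251), (nat_lit 111251), (nat_lit 780000), (nat_lit 780000), (nat_lit 2253751), [(nat_lit 1977501), (nat_lit 1271251), (nat_lit 1271251)], [(nat_lit 31), (nat_lit 65), (nat_lit 373), (nat_lit 150), (nat_lit 9)]⟩⟩)) (.leaf ⟨(nat_lit 462), (nat_lit 494), (nat_lit 0), (nat_lit 44), (nat_lit 0), (nat_lit 3641), (nat_lit 3893),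 (nat_lit 570), (nat_lit 0), (nat_lit 0), (nat_lit 213150), [((nat_lit 380), [((nat_lit 24), (nat_lit 0), (nat_lit 183)), ((nat_lit 41), (nat_lit 2), (nat_lit 279))])], ⟨(nat_lit 8), false, true, true, (nat_lit 339), (nat_lit 2236), (nat_lit 3163), [(nat_lit 1771478), (nat_lit 1762142), (nat_lit 1815720), (nat_lit 1807623), (nat_lit 1893385), (nat_lit 1876173), (nat_lit 1937695), (nat_lit 1921722)]⟩, ⟨(nat_lit 3), false, false, false, (nat_lit 101), (nat_lit 2236), (nat_lit 3163), [(nat_lit 1136876), (nat_lit 1152119), (nat_lit 1203150), (nat_lit 1220251), (nat_lit 1289472), (nat_lit 1294870), (nat_lit 1355794), (nat_lit 1363050)]⟩, (nat_lit 4544993), (nat_lit 36545164), (nat_lit 26603435), (nat_lit 3851401), (nat_lit 3), (nat_lit 0), [], [], [], [⟨(nat_lit 1), (nat_lit 100), (nat_lit 60), (nat_lit 83), (nat_lit 177999754)⟩],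
 ⟨⟨[(nat_lit 40), (nat_lit 60), (nat_lit 80)], [(nat_lit 0), (nat_lit 832), (nat_lit 1534)], [((nat_lit 0), (nat_lit 0), (nat_lit 0)), ((nat_lit 1000), (nat_lit 659), (nat_lit 528)), ((nat_lit 1000), (nat_lit 650), (nat_lit 549))], ((nat_lit 63), (nat_lit 100), (nat_lit 62))⟩, (nat_lit 1028407), (nat_lit 232), (nat_lit 232), (nat_lit 0), (nat_lit 273557), [(nat_lit 1607792801), (nat_lit 2218279451), (nat_lit 2819537600)], [(nat_lit 0), (nat_lit 0), (nat_lit 0)], [(nat_lit 27910174471), (nat_lit 29331454964), (nat_lit 32983763323), (nat_lit 34099277256), (nat_lit 26333358140), (nat_lit 27234472467), (nat_lit 30631299411), (nat_lit 31673681221)], (nat_lit 1271251), (nat_lit 1271251), (nat_lit 1271251), (nat_lit 1271251), (nat_lit 111251), (nat_lit 780000), [(nat_lit 490000), (nat_lit 780000), (nat_lit 1100000)], [(nat_lit 2), (nat_lit 44), (nat_lit 238), (nat_lit 30), (nat_lit 9)]⟩,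
 ⟨⟨[(nat_lit 60), (nat_lit 100), (nat_lit 140)], [(nat_lit 0), (nat_lit 0), (nat_lit 2047)], [((nat_lit 0), (nat_lit 0), (nat_lit 0)), ((nat_lit 0), (nat_lit 0), (nat_lit 0)), ((nat_lit 1000), (nat_lit 993), (nat_lit 781))], ((nat_lit 94), (nat_lit 100), (nat_lit 62))⟩, (nat_lit 1120158), (nat_lit 534), (nat_lit 534), (nat_lit 0), (nat_lit 986782), [(nat_lit 1765716000), (nat_lit 3362500000), (nat_lit 5294996000)], [], [(nat_lit 17417435358), (nat_lit 17863132432), (nat_lit 18876071436), (nat_lit 19274987538), (nat_lit 17691107531), (nat_lit 18035969941), (nat_lit 18904673268), (nat_lit 19191711028)], (nat_lit 1271251), (nat_lit 1271251), (nat_lit 1271251), (nat_lit 1271251), (nat_lit 780000), (nat_lit 2253751), [(nat_lit 780000), (nat_lit 1435001), (nat_lit 1271251)], [(nat_lit 11), (nat_lit 55), (nat_lit 289), (nat_lit 75), (nat_lit 7)]⟩,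
 ⟨⟨[(nat_lit 140), (nat_lit 180), (nat_lit 200)], [(nat_lit 0), (nat_lit 0), (nat_lit 2835)], [((nat_lit 0), (nat_lit 0), (nat_lit 0)), ((nat_lit 0), (nat_lit 0), (nat_lit 0)), ((nat_lit 363), (nat_lit 1000), (nat_lit 798))], ((nat_lit 0), (nat_lit 0), (nat_lit 0))⟩, (nat_lit 12106), (nat_lit 300), (nat_lit 1033), (nat_lit 3436400), (nat_lit 1160764), [(nat_lit 433048000), (nat_lit 618552000), (nat_lit 721600000)], [], [(nat_lit 3111326971), (nat_lit 2989844859), (nat_lit 2744632476), (nat_lit 2616231784), (nat_lit 2870833851), (nat_lit 2956190001), (nat_lit 2856618888), (nat_lit 3278300268)], (nat_lit 780000), (nat_lit 1271251), (nat_lit 111251), (nat_lit 780000), (nat_lit 780000), (nat_lit 2253751), [(nat_lit 1977501), (nat_lit 1271251), (nat_lit 1271251)], [(nat_lit 32), (nat_lit 67), (nat_lit 373), (nat_lit 150), (nat_lit 8)]⟩⟩)) (.trZ (nat_lit 0) (nat_lit 2) (nat_lit 4) (nat_lit 100) (nat_lit 60) (nat_lit 74) (nat_lit 60) (.leaf ⟨(nat_lit 0),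 (nat_lit 0), (nat_lit 0), (nat_lit 1000), (nat_lit 0), (nat_lit 4019), (nat_lit 7475), (nat_lit 12781), (nat_lit 0), (nat_lit 0), (nat_lit 0), [], Pd.none, Pd.none, (nat_lit 0), (nat_lit 1), (nat_lit 0), (nat_lit 0), (nat_lit 0), (nat_lit 0), [], [⟨(nat_lit 0), (nat_lit 100), (nat_lit 53), (nat_lit 85), (nat_lit 1756848247)⟩], [], [],
 ⟨⟨[(nat_lit 40), (nat_lit 60), (nat_lit 80)], [(nat_lit 0), (nat_lit 832), (nat_lit 1534)], [((nat_lit 0), (nat_lit 0), (nat_lit 0)), ((nat_lit 1000), (nat_lit 659), (nat_lit 528)), ((nat_lit 1000), (nat_lit 650), (nat_lit 549))], ((nat_lit 63), (nat_lit 100), (nat_lit 62))⟩, (nat_lit 3548007), (nat_lit 207), (nat_lit 207), (nat_lit 0), (nat_lit 282686), [(nat_lit 2032000001), (nat_lit 3641373181), (nat_lit 4688000000)], [], [(nat_lit 27531727379), (nat_lit 28633301800), (nat_lit 32381938035), (nat_lit 33526040492), (nat_lit 27389046673), (nat_lit 28421036432), (nat_lit 31285606449), (nat_lit 32371998610)], (nat_lit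 1271251), (nat_lit 1271251), (nat_lit 1271251), (nat_lit 1271251), (nat_lit 356250), (nat_lit 780000), [(nat_lit 490000), (nat_lit 780000), (nat_lit 1100000)], [(nat_lit 2), (nat_lit 44), (nat_lit 238), (nat_lit 30), (nat_lit 9)]⟩,
 ⟨⟨[(nat_lit 60), (nat_lit 100), (nat_lit 140)], [(nat_lit 0), (nat_lit 0), (nat_lit 2047)], [((nat_lit 0), (nat_lit 0), (nat_lit 0)), ((nat_lit 0), (nat_lit 0), (nat_lit 0)), ((nat_lit 1000), (nat_lit 993), (nat_lit 781))], ((nat_lit 94), (nat_lit 100), (nat_lit 62))⟩, (nat_lit 4395941), (nat_lit 627), (nat_lit 627), (nat_lit 0), (nat_lit 1197304), [(nat_lit 3282000000), (nat_lit 6250000000), (nat_lit 9842000000)], [], [(nat_lit 33160838775), (nat_lit 33919835850), (nat_lit 35674694725), (nat_lit 36190796750), (nat_lit 33404462300), (nat_lit 33834327425), (nat_lit 35134571838), (nat_lit 35951933050)], (nat_lit 1271251), (nat_lit 1271251), (nat_lit 1271251), (nat_lit 1271251), (nat_lit 780000), (nat_lit 2253751), [(nat_lit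 780000), (nat_lit 1435001), (nat_lit 1271251)], [(nat_lit 11), (nat_lit 55), (nat_lit 289), (nat_lit 75), (nat_lit 7)]⟩,
 ⟨⟨[(nat_lit 120), (nat_lit 160), (nat_lit 180)], [(nat_lit 0), (nat_lit 533), (nat_lit 2066)], [((nat_lit 0), (nat_lit 0), (nat_lit 0)), ((nat_lit 960), (nat_lit 1000), (nat_lit 200)), ((nat_lit 615), (nat_lit 1000), (nat_lit 729))], ((nat_lit 100), (nat_lit 74), (nat_lit 60))⟩, (nat_lit 2473465), (nat_lit 300), (nat_lit 666), (nat_lit 66400000), (nat_lit 700448), [(nat_lit 7968000000), (nat_lit 11872000000), (nat_lit 14058000000)], [], [(nat_lit 47818309937), (nat_lit 47089371291), (nat_lit 43823148265), (nat_lit 43072506923), (nat_lit 57676772009), (nat_lit 45545401481), (nat_lit 62918010635), (nat_lit 51029734728)], (nat_lit 1271251), (nat_lit 1271251), (nat_lit 356250), (nat_lit 780000), (nat_lit 780000), (nat_lit 2253751), [(nat_lit 1695001), (nat_lit 1271251), (nat_lit 1271251)], [(nat_lit 28), (nat_lit 65), (nat_lit 401),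 (nat_lit 175), (nat_lit 9)]⟩⟩))))
noncomputable def c17_7 : Tr Lf :=
 (.spl (nat_lit 1) (nat_lit 280) (.trX (nat_lit 3) (nat_lit 0) (nat_lit 1) (nat_lit 65) (nat_lit 54) (nat_lit 100) (nat_lit 380) (.leaf ⟨(nat_lit 0), (nat_lit 696), (nat_lit 0), (nat_lit 304), (nat_lit 0), (nat_lit 4757), (nat_lit 6993), (nat_lit 4047), (nat_lit 0), (nat_lit 0), (nat_lit 0), [], Pd.none, Pd.none, (nat_lit 0), (nat_lit 1), (nat_lit 0), (nat_lit 0), (nat_lit 3), (nat_lit 0), [⟨(nat_lit 0), (nat_lit 98), (nat_lit 54), (nat_lit 100), (nat_lit 184730280)⟩, ⟨(nat_lit 0), (nat_lit 92), (nat_lit 44), (nat_lit 100), (nat_lit 170100497)⟩], [], [], [],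
 ⟨⟨[(nat_lit 40), (nat_lit 60), (nat_lit 80)], [(nat_lit 0), (nat_lit 832), (nat_lit 1534)], [((nat_lit 0), (nat_lit 0), (nat_lit 0)), ((nat_lit 1000), (nat_lit 659), (nat_lit 528)), ((nat_lit 1000), (nat_lit 650), (nat_lit 549))], ((nat_lit 63), (nat_lit 100), (nat_lit 62))⟩, (nat_lit 1036443), (nat_lit 299), (nat_lit 299), (nat_lit 0), (nat_lit 697238), [(nat_lit 2032000016), (nat_lit 3282000058), (nat_lit 4688000000)], [], [(nat_lit 23056088837), (nat_lit 23828313942), (nat_lit 31225284350), (nat_lit 32480332264), (nat_lit 28614978974), (nat_lit 30053083300), (nat_lit 34881183894), (nat_lit 35688846527)], (nat_lit 1271251), (nat_lit 1271251), (nat_lit 704688), (nat_lit 2890001), (nat_lit 780000), (nat_lit 2581251), [(nat_lit 490000), (nat_lit 780000), (nat_lit 1100000)], [(nat_lit 2), (nat_lit 44), (nat_lit 428), (nat_lit 200), (nat_lit 19)]⟩,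
 ⟨⟨[(nat_lit 80), (nat_lit 120), (nat_lit 160)], [(nat_lit 0), (nat_lit 0), (nat_lit 2132)], [((nat_lit 0), (nat_lit 0), (nat_lit 0)), ((nat_lit 0), (nat_lit 0), (nat_lit 0)), ((nat_lit 858), (nat_lit 1000), (nat_lit 713))], ((nat_lit 100), (nat_lit 92), (nat_lit 61))⟩, (nat_lit 3509271), (nat_lit 245), (nat_lit 245), (nat_lit 0), (nat_lit 0), [(nat_lit 4688000000), (nat_lit 7968000000), (nat_lit 11872000000)], [], [(nat_lit 24402167900), (nat_lit 27466392198), (nat_lit 36335274900), (nat_lit 38062593779), (nat_lit 32674038031), (nat_lit 34225608477), (nat_lit 37846593002), (nat_lit 38510116426)], (nat_lit 0), (nat_lit 0), (nat_lit 0), (nat_lit 0), (nat_lit 0), (nat_lit 0), [], [(nat_lit 18), (nat_lit 59), (nat_lit 538), (nat_lit 300), (nat_lit 14)]⟩,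
 ⟨⟨[(nat_lit 140), (nat_lit 180), (nat_lit 200)], [(nat_lit 0), (nat_lit 0), (nat_lit 2835)], [((nat_lit 0), (nat_lit 0), (nat_lit 0)), ((nat_lit 0), (nat_lit 0), (nat_lit 0)), ((nat_lit 363), (nat_lit 1000), (nat_lit 798))], ((nat_lit 0), (nat_lit 0), (nat_lit 0))⟩, (nat_lit 83640), (nat_lit 300), (nat_lit 491), (nat_lit 23742403), (nat_lit 0), [(nat_lit 2991968000), (nat_lit 4273632000), (nat_lit 4985600000)], [], [(nat_lit 20936504625), (nat_lit 19905573331), (nat_lit 20353026103), (nat_lit 19136916583), (nat_lit 17336678766), (nat_lit 16050183817), (nat_lit 15604545503), (nat_lit 14388435983)], (nat_lit 0), (nat_lit 0), (nat_lit 0), (nat_lit 0), (nat_lit 0), (nat_lit 0), [], [(nat_lit 32), (nat_lit 67), (nat_lit 483), (nat_lit 250), (nat_lit 11)]⟩⟩)) (.trZ (nat_lit 0) (nat_lit 1) (nat_lit 3) (nat_lit 94) (nat_lit 62) (nat_lit 100) (nat_lit 150) (.leaf ⟨(nat_lit 35), (nat_lit 677), (nat_lit 0), (nat_lit 288), (nat_lit 0), (nat_lit 4993), (nat_lit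 6939), (nat_lit 4039), (nat_lit 0), (nat_lit 0), (nat_lit 140000), [((nat_lit 380), [((nat_lit 41), (nat_lit 5), (nat_lit 35))])], ⟨(nat_lit 7), true, false, false, (nat_lit 289), (nat_lit 2236), (nat_lit 3163), [(nat_lit 1512044), (nat_lit 1519444), (nat_lit 1556227), (nat_lit 1564865), (nat_lit 1893385), (nat_lit 1876173), (nat_lit 1937695), (nat_lit 1921722)]⟩, ⟨(nat_lit 3), true, false, true, (nat_lit 204), (nat_lit 2236), (nat_lit 3163), [(nat_lit 1289472), (nat_lit 1294870), (nat_lit 1399976), (nat_lit 1408471), (nat_lit 1624715), (nat_lit 1608455), (nat_lit 1735490), (nat_lit 1722327)]⟩, (nat_lit 5373923), (nat_lit 35840886), (nat_lit 19853887), (nat_lit 11305227), (nat_lit 3), (nat_lit 0), [⟨(nat_lit 0), (nat_lit 87), (nat_lit 53), (nat_lit 100), (nat_lit 148690884)⟩], [], [], [],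
 ⟨⟨[(nat_lit 40), (nat_lit 60), (nat_lit 80)], [(nat_lit 0), (nat_lit 832), (nat_lit 1534)], [((nat_lit 0), (nat_lit 0), (nat_lit 0)), ((nat_lit 1000), (nat_lit 659), (nat_lit 528)), ((nat_lit 1000), (nat_lit 650), (nat_lit 549))], ((nat_lit 63), (nat_lit 100), (nat_lit 62))⟩, (nat_lit 111317), (nat_lit 300), (nat_lit 362), (nat_lit 47407451), (nat_lit 868214), [(nat_lit 1896298022), (nat_lit 2917515393), (nat_lit 3926274000)], [(nat_lit 0), (nat_lit 0), (nat_lit 0)], [(nat_lit 28539814539), (nat_lit 29568212677), (nat_lit 34810899830), (nat_lit 35430664449), (nat_lit 32641405916), (nat_lit 33336382322), (nat_lit 36431458931), (nat_lit 36851291333)], (nat_lit 1271251), (nat_lit 1271251), (nat_lit 1017188), (nat_lit 3134376), (nat_lit 780000), (nat_lit 2581251), [(nat_lit 490000), (nat_lit 780000), (nat_lit 1100000)], [(nat_lit 2), (nat_lit 44), (nat_lit 428), (nat_lit 200), (nat_lit 19)]⟩,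
 ⟨⟨[(nat_lit 60), (nat_lit 100), (nat_lit 140)], [(nat_lit 0), (nat_lit 0), (nat_lit 2047)], [((nat_lit 0), (nat_lit 0), (nat_lit 0)), ((nat_lit 0), (nat_lit 0), (nat_lit 0)), ((nat_lit 1000), (nat_lit 993), (nat_lit 781))], ((nat_lit 94), (nat_lit 100), (nat_lit 62))⟩, (nat_lit 3476055), (nat_lit 219), (nat_lit 219), (nat_lit 0), (nat_lit 0), [(nat_lit 3167130000), (nat_lit 6031250000), (nat_lit 9497530000)], [], [(nat_lit 23422313302), (nat_lit 25971309319), (nat_lit 37736590126), (nat_lit 39942784304), (nat_lit 30789943665), (nat_lit 32010288188), (nat_lit 37913499844), (nat_lit 38726801696)], (nat_lit 0), (nat_lit 0), (nat_lit 0), (nat_lit 0), (nat_lit 0), (nat_lit 0), [], [(nat_lit 11), (nat_lit 55), (nat_lit 428), (nat_lit 200), (nat_lit 12)]⟩,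
 ⟨⟨[(nat_lit 140), (nat_lit 180), (nat_lit 200)], [(nat_lit 0), (nat_lit 0), (nat_lit 2835)], [((nat_lit 0), (nat_lit 0), (nat_lit 0)), ((nat_lit 0), (nat_lit 0), (nat_lit 0)), ((nat_lit 363), (nat_lit 1000), (nat_lit 798))], ((nat_lit 0), (nat_lit 0), (nat_lit 0))⟩, (nat_lit 223891), (nat_lit 300), (nat_lit 491), (nat_lit 22492800), (nat_lit 0), [(nat_lit 2834496000), (nat_lit 4048704000), (nat_lit 4723200000)], [], [(nat_lit 19840965954), (nat_lit 18933635681), (nat_lit 19341501071), (nat_lit 18101034269), (nat_lit 16286467822), (nat_lit 14977641701), (nat_lit 14485318254), (nat_lit 13192383284)], (nat_lit 0), (nat_lit 0), (nat_lit 0), (nat_lit 0), (nat_lit 0), (nat_lit 0), [], [(nat_lit 32), (nat_lit 67), (nat_lit 483), (nat_lit 250), (nat_lit 11)]⟩⟩)))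
noncomputable def c17_8 : Tr Lf :=
 (.spl (nat_lit 1) (nat_lit 280) (.spl (nat_lit 2) (nat_lit 180) (.spl (nat_lit 3) (nat_lit 160) (.leaf ⟨(nat_lit 897), (nat_lit 89), (nat_lit 0), (nat_lit 14), (nat_lit 0), (nat_lit 3498), (nat_lit 1265), (nat_lit 424), (nat_lit 0), (nat_lit 0), (nat_lit 513000), [((nat_lit 380), [((nat_lit 24), (nat_lit 0), (nat_lit 72)), ((nat_lit 41), (nat_lit 2), (nat_lit 825))])], ⟨(nat_lit 6), false, false, false, (nat_lit 188), (nat_lit 2236), (nat_lit 3163), [(nat_lit 1406804), (nat_lit 1416903), (nat_lit 1450987), (nat_lit 1462324), (nat_lit 1483125), (nat_lit 1488302), (nat_lit 1527308), (nat_lit 1533723)]⟩, ⟨(nat_lit 3), true, false, true, (nat_lit 166), (nat_lit 2236), (nat_lit 3163), [(nat_lit 1289472), (nat_lit 1294870), (nat_lit 1355794), (nat_lit 1363050), (nat_lit 1472332), (nat_lit 1465917), (nat_lit 1538797), (nat_lit 1534240)]⟩, (nat_lit 4519979), (nat_lit 45823004), (nat_lit 11656537), (nat_lit 9520459), (nat_lit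 3), (nat_lit 0), [⟨(nat_lit 0), (nat_lit 98), (nat_lit 54), (nat_lit 100), (nat_lit 360712415)⟩, ⟨(nat_lit 0), (nat_lit 100), (nat_lit 61), (nat_lit 92), (nat_lit 35750409)⟩], [], [], [],
 ⟨⟨[(nat_lit 40), (nat_lit 60), (nat_lit 80)], [(nat_lit 0), (nat_lit 832), (nat_lit 1534)], [((nat_lit 0), (nat_lit 0), (nat_lit 0)), ((nat_lit 1000), (nat_lit 659), (nat_lit 528)), ((nat_lit 1000), (nat_lit 650), (nat_lit 549))], ((nat_lit 63), (nat_lit 100), (nat_lit 62))⟩, (nat_lit 0), (nat_lit 198), (nat_lit 198), (nat_lit 0), (nat_lit 415818), [(nat_lit 1362995213), (nat_lit 928532987), (nat_lit 562107200)], [(nat_lit 0), (nat_lit 0), (nat_lit 0)], [(nat_lit 19134186405), (nat_lit 20914610174), (nat_lit 19747515487), (nat_lit 21201383745), (nat_lit 21889805984), (nat_lit 23460295630), (nat_lit 22271442364), (nat_lit 23667556668)], (nat_lit 1271251), (nat_lit 1271251), (nat_lit 704688), (nat_lit 1100000), (nat_lit 780000), (nat_lit 1762501), [(nat_lit 490000),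 (nat_lit 780000), (nat_lit 1100000)], [(nat_lit 2), (nat_lit 44), (nat_lit 317), (nat_lit 100), (nat_lit 14)]⟩,
 ⟨⟨[(nat_lit 80), (nat_lit 120), (nat_lit 160)], [(nat_lit 0), (nat_lit 0), (nat_lit 2132)], [((nat_lit 0), (nat_lit 0), (nat_lit 0)), ((nat_lit 0), (nat_lit 0), (nat_lit 0)), ((nat_lit 858), (nat_lit 1000), (nat_lit 713))], ((nat_lit 100), (nat_lit 92), (nat_lit 61))⟩, (nat_lit 498955), (nat_lit 899), (nat_lit 899), (nat_lit 0), (nat_lit 1290118), [(nat_lit 482864000), (nat_lit 820704000), (nat_lit 1222816000)], [], [(nat_lit 4295572255), (nat_lit 2982589857), (nat_lit 2920727836), (nat_lit 2717316482), (nat_lit 2848244524), (nat_lit 2111039177), (nat_lit 3483178124), (nat_lit 2314515464)], (nat_lit 1271251), (nat_lit 1271251), (nat_lit 704688), (nat_lit 1100000), (nat_lit 0), (nat_lit 780000), [(nat_lit 1100000), (nat_lit 1785001), (nat_lit 1271251)], [(nat_lit 18), (nat_lit 59), (nat_lit 373), (nat_lit 150), (nat_lit 10)]⟩,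
 ⟨⟨[(nat_lit 140), (nat_lit 180), (nat_lit 200)], [(nat_lit 0), (nat_lit 0), (nat_lit 2835)], [((nat_lit 0), (nat_lit 0), (nat_lit 0)), ((nat_lit 0), (nat_lit 0), (nat_lit 0)), ((nat_lit 363), (nat_lit 1000), (nat_lit 798))], ((nat_lit 0), (nat_lit 0), (nat_lit 0))⟩, (nat_lit 29617), (nat_lit 300), (nat_lit 491), (nat_lit 1093400), (nat_lit 0), [(nat_lit 137788000), (nat_lit 196812000), (nat_lit 229600000)], [], [(nat_lit 1133341608), (nat_lit 1041070810), (nat_lit 973581808), (nat_lit 877619486), (nat_lit 711771066), (nat_lit 627238319), (nat_lit 564596656), (nat_lit 475237233)], (nat_lit 0), (nat_lit 0), (nat_lit 0), (nat_lit 0), (nat_lit 0), (nat_lit 0), [], [(nat_lit 32), (nat_lit 67), (nat_lit 373), (nat_lit 150), (nat_lit 8)]⟩⟩) (.leaf ⟨(nat_lit 888), (nat_lit 53), (nat_lit 0), (nat_lit 59), (nat_lit 0), (nat_lit 3376), (nat_lit 1251), (nat_lit 794), (nat_lit 0), (nat_lit 0), (nat_lit 481800), [((nat_lit 380), [((nat_lit 24), (nat_lit 1),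 (nat_lit 255)), ((nat_lit 41), (nat_lit 2), (nat_lit 633))])], ⟨(nat_lit 6), false, false, false, (nat_lit 227), (nat_lit 2236), (nat_lit 3163), [(nat_lit 1483125), (nat_lit 1488302), (nat_lit 1527308), (nat_lit 1533723), (nat_lit 1605240), (nat_lit 1602541), (nat_lit 1649422), (nat_lit 1647962)]⟩, ⟨(nat_lit 3), true, false, true, (nat_lit 166), (nat_lit 2236), (nat_lit 3163), [(nat_lit 1289472), (nat_lit 1294870), (nat_lit 1355794), (nat_lit 1363050), (nat_lit 1472332), (nat_lit 1465917), (nat_lit 1538797), (nat_lit 1534240)]⟩, (nat_lit 4811050), (nat_lit 42733203), (nat_lit 15094654), (nat_lit 9172143), (nat_lit 3), (nat_lit 0), [], [], [], [⟨(nat_lit 0), (nat_lit 100), (nat_lit 100), (nat_lit 40), (nat_lit 28612007)⟩],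
 ⟨⟨[(nat_lit 40), (nat_lit 60), (nat_lit 80)], [(nat_lit 0), (nat_lit 832), (nat_lit 1534)], [((nat_lit 0), (nat_lit 0), (nat_lit 0)), ((nat_lit 1000), (nat_lit 659), (nat_lit 528)), ((nat_lit 1000), (nat_lit 650), (nat_lit 549))], ((nat_lit 63), (nat_lit 100), (nat_lit 62))⟩, (nat_lit 0), (nat_lit 186), (nat_lit 186), (nat_lit 0), (nat_lit 415818), [(nat_lit 1371611201), (nat_lit 990113445), (nat_lit 735005600)], [(nat_lit 0), (nat_lit 0), (nat_lit 0)], [(nat_lit 20255632379), (nat_lit 21489616927), (nat_lit 22331258451), (nat_lit 23415386387), (nat_lit 22704837955), (nat_lit 23736369523), (nat_lit 24464071348), (nat_lit 25465964268)], (nat_lit 1271251), (nat_lit 1271251), (nat_lit 1100000), (nat_lit 1785001), (nat_lit 780000), (nat_lit 1762501), [(nat_lit 490000), (nat_lit 780000), (nat_lit 1100000)], [(nat_lit 2), (nat_lit 44), (nat_lit 272), (nat_lit 60), (nat_lit 11)]⟩,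
 ⟨⟨[(nat_lit 80), (nat_lit 120), (nat_lit 160)], [(nat_lit 0), (nat_lit 0), (nat_lit 2132)], [((nat_lit 0), (nat_lit 0), (nat_lit 0)), ((nat_lit 0), (nat_lit 0), (nat_lit 0)), ((nat_lit 858), (nat_lit 1000), (nat_lit 713))], ((nat_lit 100), (nat_lit 92), (nat_lit 61))⟩, (nat_lit 373865), (nat_lit 875), (nat_lit 875), (nat_lit 0), (nat_lit 1290118), [(nat_lit 525056000), (nat_lit 892416000), (nat_lit 1329664000)], [], [(nat_lit 3320199176), (nat_lit 3376869648), (nat_lit 4543608348), (nat_lit 3528922142), (nat_lit 3890471788), (nat_lit 2734742944), (nat_lit 5313639552), (nat_lit 4187785839)], (nat_lit 1271251), (nat_lit 1271251), (nat_lit 1100000), (nat_lit 1785001), (nat_lit 0), (nat_lit 780000), [(nat_lit 1100000), (nat_lit 1785001), (nat_lit 1271251)], [(nat_lit 18), (nat_lit 59), (nat_lit 401), (nat_lit 175), (nat_lit 10)]⟩,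
 ⟨⟨[(nat_lit 140), (nat_lit 180), (nat_lit 200)], [(nat_lit 0), (nat_lit 0), (nat_lit 2835)], [((nat_lit 0), (nat_lit 0), (nat_lit 0)), ((nat_lit 0), (nat_lit 0), (nat_lit 0)), ((nat_lit 363), (nat_lit 1000), (nat_lit 798))], ((nat_lit 0), (nat_lit 0), (nat_lit 0))⟩, (nat_lit 16233), (nat_lit 300), (nat_lit 491), (nat_lit 4607900), (nat_lit 0), [(nat_lit 580678000), (nat_lit 829422000), (nat_lit 967600000)], [], [(nat_lit 4063299125), (nat_lit 3914651334), (nat_lit 3817453848), (nat_lit 3673404091), (nat_lit 3363012127), (nat_lit 3225731230), (nat_lit 3125030196), (nat_lit 2979365808)], (nat_lit 0), (nat_lit 0), (nat_lit 0), (nat_lit 0), (nat_lit 0), (nat_lit 0), [], [(nat_lit 32), (nat_lit 67), (nat_lit 373), (nat_lit 150), (nat_lit 8)]⟩⟩)) (.leaf ⟨(nat_lit 885), (nat_lit 11), (nat_lit 0), (nat_lit 104), (nat_lit 0), (nat_lit 3374), (nat_lit 1200), (nat_lit 2680), (nat_lit 0), (nat_lit 0), (nat_lit 504750), [((nat_lit 380), [((nat_lit 24), (nat_lit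 0), (nat_lit 75)), ((nat_lit 41), (nat_lit 2), (nat_lit 810))])], ⟨(nat_lit 6), false, false, false, (nat_lit 212), (nat_lit 2236), (nat_lit 3163), [(nat_lit 1406804), (nat_lit 1416903), (nat_lit 1450987), (nat_lit 1462324), (nat_lit 1605240), (nat_lit 1602541), (nat_lit 1649422), (nat_lit 1647962)]⟩, ⟨(nat_lit 4), true, false, false, (nat_lit 188), (nat_lit 2236), (nat_lit 3163), [(nat_lit 1355794), (nat_lit 1363050), (nat_lit 1399976), (nat_lit 1408471), (nat_lit 1538797), (nat_lit 1534240), (nat_lit 1583107), (nat_lit 1579788)]⟩, (nat_lit 4905883), (nat_lit 42381580), (nat_lit 13477429), (nat_lit 11140991), (nat_lit 4), (nat_lit 0), [⟨(nat_lit 0), (nat_lit 98), (nat_lit 54), (nat_lit 100), (nat_lit 90689244)⟩], [], [⟨(nat_lit 0), (nat_lit 100), (nat_lit 95), (nat_lit 30), (nat_lit 146556735)⟩], [],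
 ⟨⟨[(nat_lit 40), (nat_lit 60), (nat_lit 80)], [(nat_lit 0), (nat_lit 832), (nat_lit 1534)], [((nat_lit 0), (nat_lit 0), (nat_lit 0)), ((nat_lit 1000), (nat_lit 659), (nat_lit 528)), ((nat_lit 1000), (nat_lit 650), (nat_lit 549))], ((nat_lit 63), (nat_lit 100), (nat_lit 62))⟩, (nat_lit 48812), (nat_lit 193), (nat_lit 193), (nat_lit 0), (nat_lit 398682), [(nat_lit 1369744001), (nat_lit 920764917), (nat_lit 624272000)], [(nat_lit 0), (nat_lit 0), (nat_lit 0)], [(nat_lit 19439905272), (nat_lit 20764183720), (nat_lit 22171418454), (nat_lit 23377443231), (nat_lit 22066387253), (nat_lit 23329844018), (nat_lit 24461319960), (nat_lit 25463661948)], (nat_lit 1271251), (nat_lit 1271251), (nat_lit 704688), (nat_lit 1756876), (nat_lit 780000), (nat_lit 1762501), [(nat_lit 490000), (nat_lit 780000), (nat_lit 1100000)], [(nat_lit 2), (nat_lit 44), (nat_lit 345), (nat_lit 125), (nat_lit 15)]⟩,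
 ⟨⟨[(nat_lit 80), (nat_lit 120), (nat_lit 160)], [(nat_lit 0), (nat_lit 0), (nat_lit 2132)], [((nat_lit 0), (nat_lit 0), (nat_lit 0)), ((nat_lit 0), (nat_lit 0), (nat_lit 0)), ((nat_lit 858), (nat_lit 1000), (nat_lit 713))], ((nat_lit 100), (nat_lit 92), (nat_lit 61))⟩, (nat_lit 295284), (nat_lit 803), (nat_lit 803), (nat_lit 0), (nat_lit 1043104), [(nat_lit 539120000), (nat_lit 916320000), (nat_lit 1365280000)], [], [(nat_lit 4639555400), (nat_lit 3954158540), (nat_lit 4540232280), (nat_lit 3776505012), (nat_lit 3408809300), (nat_lit 3288331953), (nat_lit 5302477080), (nat_lit 4222521480)], (nat_lit 1271251), (nat_lit 1271251), (nat_lit 704688), (nat_lit 1756876), (nat_lit 0), (nat_lit 780000), [(nat_lit 1100000), (nat_lit 1785001), (nat_lit 1271251)], [(nat_lit 18), (nat_lit 59), (nat_lit 401), (nat_lit 175), (nat_lit 10)]⟩,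
 ⟨⟨[(nat_lit 120), (nat_lit 160), (nat_lit 180)], [(nat_lit 0), (nat_lit 533), (nat_lit 2066)], [((nat_lit 0), (nat_lit 0), (nat_lit 0)), ((nat_lit 960), (nat_lit 1000), (nat_lit 200)), ((nat_lit 615), (nat_lit 1000), (nat_lit 729))], ((nat_lit 100), (nat_lit 74), (nat_lit 60))⟩, (nat_lit 243512), (nat_lit 300), (nat_lit 367), (nat_lit 6905601), (nat_lit 0), [(nat_lit 828672000), (nat_lit 1234688000), (nat_lit 1462032000)], [], [(nat_lit 5329842044), (nat_lit 5246628356), (nat_lit 4649942552), (nat_lit 4761851424), (nat_lit 2910911118), (nat_lit 2826075290), (nat_lit 2268877000), (nat_lit 2245022068)], (nat_lit 0), (nat_lit 0), (nat_lit 0), (nat_lit 0), (nat_lit 0), (nat_lit 0), [], [(nat_lit 28), (nat_lit 65), (nat_lit 373), (nat_lit 150), (nat_lit 9)]⟩⟩)) (.trZ (nat_lit 0) (nat_lit 1) (nat_lit 3) (nat_lit 94) (nat_lit 62) (nat_lit 100) (nat_lit 150) (.spl (nat_lit 0) (nat_lit 370) (.leaf ⟨(nat_lit 763), (nat_lit 153), (nat_lit 0), (nat_lit 84),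 (nat_lit 0), (nat_lit 3582), (nat_lit 2188), (nat_lit 1138), (nat_lit 0), (nat_lit 0), (nat_lit 420350), [((nat_lit 370), [((nat_lit 24), (nat_lit 0), (nat_lit 107)), ((nat_lit 41), (nat_lit 2), (nat_lit 656))])], ⟨(nat_lit 7), false, false, false, (nat_lit 242), (nat_lit 2738), (nat_lit 3163), [(nat_lit 1512356), (nat_lit 1515771), (nat_lit 1556642), (nat_lit 1560582), (nat_lit 1649542), (nat_lit 1648700), (nat_lit 1693828), (nat_lit 1693511)]⟩, ⟨(nat_lit 3), true, false, true, (nat_lit 175), (nat_lit 2738), (nat_lit 3163), [(nat_lit 1289472), (nat_lit 1292206), (nat_lit 1400199), (nat_lit 1404246), (nat_lit 1472332), (nat_lit 1469390), (nat_lit 1583107), (nat_lit 1581477)]⟩, (nat_lit 4974334), (nat_lit 41009963), (nat_lit 16282172), (nat_lit 9707865), (nat_lit 3), (nat_lit 0), [⟨(nat_lit 0), (nat_lit 87), (nat_lit 57), (nat_lit 100), (nat_lit 103110132)⟩], [], [⟨(nat_lit 0), (nat_lit 100), (nat_lit 88), (nat_lit 37), (nat_lit 45519796)⟩], [],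
 ⟨⟨[(nat_lit 40), (nat_lit 60), (nat_lit 80)], [(nat_lit 0), (nat_lit 832), (nat_lit 1534)], [((nat_lit 0), (nat_lit 0), (nat_lit 0)), ((nat_lit 1000), (nat_lit 659), (nat_lit 528)), ((nat_lit 1000), (nat_lit 650), (nat_lit 549))], ((nat_lit 63), (nat_lit 100), (nat_lit 62))⟩, (nat_lit 257840), (nat_lit 199), (nat_lit 199), (nat_lit 0), (nat_lit 475249), [(nat_lit 1438577207), (nat_lit 1278682768), (nat_lit 1258918400)], [(nat_lit 0), (nat_lit 0), (nat_lit 0)], [(nat_lit 19942073620), (nat_lit 20585593464), (nat_lit 22147705297), (nat_lit 22801080845), (nat_lit 22408462168), (nat_lit 22944627416), (nat_lit 24328060680), (nat_lit 24975764722)], (nat_lit 1271251), (nat_lit 1271251), (nat_lit 1017188), (nat_lit 1779376), (nat_lit 780000), (nat_lit 1762501), [(nat_lit 490000), (nat_lit 780000), (nat_lit 1100000)], [(nat_lit 2), (nat_lit 44), (nat_lit 345), (nat_lit 125), (nat_lit 15)]⟩,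
 ⟨⟨[(nat_lit 60), (nat_lit 100), (nat_lit 140)], [(nat_lit 0), (nat_lit 0), (nat_lit 2047)], [((nat_lit 0), (nat_lit 0), (nat_lit 0)), ((nat_lit 0), (nat_lit 0), (nat_lit 0)), ((nat_lit 1000), (nat_lit 993), (nat_lit 781))], ((nat_lit 94), (nat_lit 100), (nat_lit 62))⟩, (nat_lit 732353), (nat_lit 659), (nat_lit 659), (nat_lit 0), (nat_lit 1008394), [(nat_lit 777834000), (nat_lit 1481250000), (nat_lit 2332554000)], [], [(nat_lit 6428589178), (nat_lit 6791143241), (nat_lit 6596042194), (nat_lit 6916691044), (nat_lit 5402058229), (nat_lit 5711439156), (nat_lit 7552671560), (nat_lit 5758222984)], (nat_lit 1271251), (nat_lit 1271251), (nat_lit 1017188), (nat_lit 1779376), (nat_lit 0), (nat_lit 780000), [(nat_lit 780000), (nat_lit 1435001), (nat_lit 1271251)], [(nat_lit 11), (nat_lit 55), (nat_lit 317), (nat_lit 100), (nat_lit 9)]⟩,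
 ⟨⟨[(nat_lit 140), (nat_lit 180), (nat_lit 200)], [(nat_lit 0), (nat_lit 0), (nat_lit 2835)], [((nat_lit 0), (nat_lit 0), (nat_lit 0)), ((nat_lit 0), (nat_lit 0), (nat_lit 0)), ((nat_lit 363), (nat_lit 1000), (nat_lit 798))], ((nat_lit 0), (nat_lit 0), (nat_lit 0))⟩, (nat_lit 23111), (nat_lit 300), (nat_lit 491), (nat_lit 6560402), (nat_lit 0), [(nat_lit 826728000), (nat_lit 1180872000), (nat_lit 1377600000)], [], [(nat_lit 5785005798), (nat_lit 5507214898), (nat_lit 5437193536), (nat_lit 5157664564), (nat_lit 4780403847), (nat_lit 4507982609), (nat_lit 4438140655), (nat_lit 4156574761)], (nat_lit 0), (nat_lit 0), (nat_lit 0), (nat_lit 0), (nat_lit 0), (nat_lit 0), [], [(nat_lit 32), (nat_lit 67), (nat_lit 373), (nat_lit 150), (nat_lit 8)]⟩⟩) (.trZ (nat_lit 0) (nat_lit 1) (nat_lit 3) (nat_lit 93) (nat_lit 53) (nat_lit 100) (nat_lit 170) (.leaf ⟨(nat_lit 774), (nat_lit 159), (nat_lit 0), (nat_lit 67), (nat_lit 0), (nat_lit 3505), (nat_lit 1858),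 (nat_lit 889), (nat_lit 0), (nat_lit 0), (nat_lit 404100), [((nat_lit 380), [((nat_lit 24), (nat_lit 0), (nat_lit 10)), ((nat_lit 24), (nat_lit 1), (nat_lit 284)), ((nat_lit 41), (nat_lit 2), (nat_lit 480))])], ⟨(nat_lit 7), false, true, false, (nat_lit 248), (nat_lit 2236), (nat_lit 2739), [(nat_lit 1545266), (nat_lit 1548227), (nat_lit 1590060), (nat_lit 1593736), (nat_lit 1648684), (nat_lit 1648065), (nat_lit 1693478), (nat_lit 1693574)]⟩, ⟨(nat_lit 3), true, false, true, (nat_lit 175), (nat_lit 2236), (nat_lit 2739), [(nat_lit 1292206), (nat_lit 1294870), (nat_lit 1404204), (nat_lit 1408652), (nat_lit 1469390), (nat_lit 1465917), (nat_lit 1581477), (nat_lit 1579788)]⟩, (nat_lit 5009262), (nat_lit 40491530), (nat_lit 16861584), (nat_lit 9646886), (nat_lit 3), (nat_lit 0), [⟨(nat_lit 0), (nat_lit 87), (nat_lit 48), (nat_lit 100), (nat_lit 224059503)⟩], [], [⟨(nat_lit 0), (nat_lit 100), (nat_lit 88), (nat_lit 37), (nat_lit 98393853)⟩], [],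
 ⟨⟨[(nat_lit 40), (nat_lit 60), (nat_lit 80)], [(nat_lit 0), (nat_lit 1134), (nat_lit 1930)], [((nat_lit 0), (nat_lit 0), (nat_lit 0)), ((nat_lit 1000), (nat_lit 575), (nat_lit 619)), ((nat_lit 1000), (nat_lit 574), (nat_lit 622))], ((nat_lit 57), (nat_lit 100), (nat_lit 64))⟩, (nat_lit 260855), (nat_lit 207), (nat_lit 207), (nat_lit 0), (nat_lit 490799), [(nat_lit 1433708001), (nat_lit 1364533848), (nat_lit 1322249600)], [(nat_lit 0), (nat_lit 0), (nat_lit 0)], [(nat_lit 21077362760), (nat_lit 21695929986), (nat_lit 22831431908), (nat_lit 23508765033), (nat_lit 23365581673), (nat_lit 23910682458), (nat_lit 24923210605), (nat_lit 25564309510)], (nat_lit 1271251), (nat_lit 1271251), (nat_lit 1184688), (nat_lit 1790626), (nat_lit 780000), (nat_lit 1762501), [(nat_lit 490000), (nat_lit 780000), (nat_lit 1100000)], [(nat_lit 2), (nat_lit 44), (nat_lit 272), (nat_lit 60), (nat_lit 11)]⟩,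
 ⟨⟨[(nat_lit 60), (nat_lit 100), (nat_lit 140)], [(nat_lit 0), (nat_lit 0), (nat_lit 2047)], [((nat_lit 0), (nat_lit 0), (nat_lit 0)), ((nat_lit 0), (nat_lit 0), (nat_lit 0)), ((nat_lit 1000), (nat_lit 993), (nat_lit 781))], ((nat_lit 94), (nat_lit 100), (nat_lit 62))⟩, (nat_lit 551306), (nat_lit 726), (nat_lit 726), (nat_lit 0), (nat_lit 1132155), [(nat_lit 741732000), (nat_lit 1412500000), (nat_lit 2224292000)], [], [(nat_lit 7075868944), (nat_lit 7331650442), (nat_lit 7193586152), (nat_lit 7459890344), (nat_lit 6179876632), (nat_lit 6452101929), (nat_lit 6317209646), (nat_lit 6544815560)], (nat_lit 1271251), (nat_lit 1271251), (nat_lit 1184688), (nat_lit 1790626), (nat_lit 0), (nat_lit 780000), [(nat_lit 780000), (nat_lit 1435001), (nat_lit 1271251)], [(nat_lit 11), (nat_lit 55), (nat_lit 317), (nat_lit 100), (nat_lit 9)]⟩,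
 ⟨⟨[(nat_lit 140), (nat_lit 180), (nat_lit 200)], [(nat_lit 0), (nat_lit 0), (nat_lit 2835)], [((nat_lit 0), (nat_lit 0), (nat_lit 0)), ((nat_lit 0), (nat_lit 0), (nat_lit 0)), ((nat_lit 363), (nat_lit 1000), (nat_lit 798))], ((nat_lit 0), (nat_lit 0), (nat_lit 0))⟩, (nat_lit 18434), (nat_lit 300), (nat_lit 491), (nat_lit 5232700), (nat_lit 0), [(nat_lit 659414000), (nat_lit 941886000), (nat_lit 1098800000)], [], [(nat_lit 4614307237), (nat_lit 4388243406), (nat_lit 4331434008), (nat_lit 4115627277), (nat_lit 3831767037), (nat_lit 3621371803), (nat_lit 3567280431), (nat_lit 3336924229)], (nat_lit 0), (nat_lit 0), (nat_lit 0), (nat_lit 0), (nat_lit 0), (nat_lit 0), [], [(nat_lit 32), (nat_lit 67), (nat_lit 373), (nat_lit 150), (nat_lit 8)]⟩⟩)))))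
noncomputable def c17_9 : Tr Lf :=
 (.spl (nat_lit 1) (nat_lit 280) (.spl (nat_lit 2) (nat_lit 180) (.trX (nat_lit 4) (nat_lit 0) (nat_lit 2) (nat_lit 60) (nat_lit 86) (nat_lit 100) (nat_lit 310) (.spl (nat_lit 3) (nat_lit 160) (.spl (nat_lit 2) (nat_lit 160) (.trX (nat_lit 4) (nat_lit 0) (nat_lit 2) (nat_lit 61) (nat_lit 92) (nat_lit 100) (nat_lit 290) (.leaf ⟨(nat_lit 903), (nat_lit 0), (nat_lit 0), (nat_lit 97), (nat_lit 0), (nat_lit 3347), (nat_lit 1140), (nat_lit 1210), (nat_lit 0), (nat_lit 0), (nat_lit 503100), [((nat_lit 380), [((nat_lit 24), (nat_lit 0), (nat_lit 22)), ((nat_lit 24), (nat_lit 1), (nat_lit 155)), ((nat_lit 41), (nat_lit 2), (nat_lit 726))])], ⟨(nat_lit 6), false, false, false, (nat_lit 188), (nat_lit 2236), (nat_lit 3163), [(nat_lit 1406804), (nat_lit 1416903), (nat_lit 1450987), (nat_lit 1462324), (nat_lit 1483125), (nat_lit 1488302), (nat_lit 1527308), (nat_lit 1533723)]⟩, ⟨(nat_lit 6), true, false, true, (nat_lit 211),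 (nat_lit 2236), (nat_lit 3163), [(nat_lit 1472332), (nat_lit 1465917), (nat_lit 1516642), (nat_lit 1511466), (nat_lit 1548524), (nat_lit 1537186), (nat_lit 1592834), (nat_lit 1582735)]⟩, (nat_lit 4903346), (nat_lit 42414654), (nat_lit 11175455), (nat_lit 13409891), (nat_lit 0), (nat_lit 0), [⟨(nat_lit 0), (nat_lit 100), (nat_lit 61), (nat_lit 92), (nat_lit 180409828)⟩], [⟨(nat_lit 1), (nat_lit 92), (nat_lit 61), (nat_lit 100), (nat_lit 196614560)⟩], [], [],
 ⟨⟨[(nat_lit 40), (nat_lit 60), (nat_lit 80)], [(nat_lit 0), (nat_lit 832), (nat_lit 1534)], [((nat_lit 0), (nat_lit 0), (nat_lit 0)), ((nat_lit 1000), (nat_lit 659), (nat_lit 528)), ((nat_lit 1000), (nat_lit 650), (nat_lit 549))], ((nat_lit 63), (nat_lit 100), (nat_lit 62))⟩, (nat_lit 0), (nat_lit 195), (nat_lit 195), (nat_lit 0), (nat_lit 414173), [(nat_lit 1361001206), (nat_lit 926408451), (nat_lit 601858400)], [(nat_lit 0), (nat_lit 0), (nat_lit 0)], [(nat_lit 22144170290), (nat_lit 23301439232),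 (nat_lit 22620393492), (nat_lit 23752686480), (nat_lit 24134896418), (nat_lit 25508609841), (nat_lit 24475114396), (nat_lit 25636240323)], (nat_lit 1271251), (nat_lit 1271251), (nat_lit 704688), (nat_lit 1100000), (nat_lit 1271251), (nat_lit 1271251), [(nat_lit 490000), (nat_lit 780000), (nat_lit 1100000)], [(nat_lit 2), (nat_lit 44), (nat_lit 249), (nat_lit 40), (nat_lit 10)]⟩,
 ⟨⟨[(nat_lit 80), (nat_lit 120), (nat_lit 160)], [(nat_lit 0), (nat_lit 0), (nat_lit 2132)], [((nat_lit 0), (nat_lit 0), (nat_lit 0)), ((nat_lit 0), (nat_lit 0), (nat_lit 0)), ((nat_lit 858), (nat_lit 1000), (nat_lit 713))], ((nat_lit 100), (nat_lit 92), (nat_lit 61))⟩, (nat_lit 385885), (nat_lit 899), (nat_lit 899), (nat_lit 0), (nat_lit 1290118), [(nat_lit 454736000), (nat_lit 772896000), (nat_lit 1151584000)], [], [(nat_lit 4007541140), (nat_lit 2849302935), (nat_lit 2789962524), (nat_lit 2714853262), (nat_lit 2731070293), (nat_lit 2191583002), (nat_lit 3322687336), (nat_lit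 2269505176)], (nat_lit 1271251), (nat_lit 1271251), (nat_lit 704688), (nat_lit 1100000), (nat_lit 0), (nat_lit 780000), [(nat_lit 1100000), (nat_lit 1785001), (nat_lit 1271251)], [(nat_lit 18), (nat_lit 59), (nat_lit 373), (nat_lit 150), (nat_lit 10)]⟩,
 ⟨⟨[(nat_lit 140), (nat_lit 180), (nat_lit 200)], [(nat_lit 0), (nat_lit 0), (nat_lit 2835)], [((nat_lit 0), (nat_lit 0), (nat_lit 0)), ((nat_lit 0), (nat_lit 0), (nat_lit 0)), ((nat_lit 363), (nat_lit 1000), (nat_lit 798))], ((nat_lit 0), (nat_lit 0), (nat_lit 0))⟩, (nat_lit 26688), (nat_lit 300), (nat_lit 434), (nat_lit 7575700), (nat_lit 0), [(nat_lit 954674000), (nat_lit 1363626000), (nat_lit 1590800000)], [], [(nat_lit 6269946674), (nat_lit 6090922477), (nat_lit 6338662550), (nat_lit 6149703870), (nat_lit 5213918265), (nat_lit 5049284644), (nat_lit 5272120273), (nat_lit 5097823444)], (nat_lit 0), (nat_lit 0), (nat_lit 0), (nat_lit 0), (nat_lit 0), (nat_lit 0), [], [(nat_lit 32), (nat_lit 67),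 (nat_lit 373), (nat_lit 150), (nat_lit 8)]⟩⟩)) (.leaf ⟨(nat_lit 0), (nat_lit 0), (nat_lit 730), (nat_lit 270), (nat_lit 0), (nat_lit 4984), (nat_lit 3025), (nat_lit 10805), (nat_lit 0), (nat_lit 0), (nat_lit 0), [], Pd.none, Pd.none, (nat_lit 0), (nat_lit 1), (nat_lit 0), (nat_lit 0), (nat_lit 0), (nat_lit 6), [⟨(nat_lit 0), (nat_lit 98), (nat_lit 54), (nat_lit 100), (nat_lit 824584557)⟩], [⟨(nat_lit 1), (nat_lit 93), (nat_lit 53), (nat_lit 100), (nat_lit 97283141)⟩], [], [⟨(nat_lit 0), (nat_lit 98), (nat_lit 100), (nat_lit 6), (nat_lit 337153592)⟩],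
 ⟨⟨[(nat_lit 40), (nat_lit 60), (nat_lit 80)], [(nat_lit 0), (nat_lit 832), (nat_lit 1534)], [((nat_lit 0), (nat_lit 0), (nat_lit 0)), ((nat_lit 1000), (nat_lit 659), (nat_lit 528)), ((nat_lit 1000), (nat_lit 650), (nat_lit 549))], ((nat_lit 63), (nat_lit 100), (nat_lit 62))⟩, (nat_lit 948090), (nat_lit 190), (nat_lit 190), (nat_lit 0), (nat_lit 386624), [(nat_lit 2032000255), (nat_lit 3282000431), (nat_lit 4688000000)], [], [(nat_lit 23305451146), (nat_lit 25023610909), (nat_lit 23380480116), (nat_lit 24890916388), (nat_lit 26982369225), (nat_lit 28587999006), (nat_lit 26710613702), (nat_lit 28214262333)], (nat_lit 1271251), (nat_lit 1271251), (nat_lit 704688), (nat_lit 1100000), (nat_lit 1271251), (nat_lit 1271251), [(nat_lit 490000), (nat_lit 780000), (nat_lit 1100000)], [(nat_lit 2), (nat_lit 44), (nat_lit 249), (nat_lit 40), (nat_lit 10)]⟩,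
 ⟨⟨[(nat_lit 80), (nat_lit 120), (nat_lit 160)], [(nat_lit 0), (nat_lit 0), (nat_lit 2132)], [((nat_lit 0), (nat_lit 0), (nat_lit 0)), ((nat_lit 0), (nat_lit 0), (nat_lit 0)), ((nat_lit 858), (nat_lit 1000), (nat_lit 713))], ((nat_lit 100), (nat_lit 92), (nat_lit 61))⟩, (nat_lit 731939), (nat_lit 823), (nat_lit 823), (nat_lit 0), (nat_lit 1094699), [(nat_lit 1265760000), (nat_lit 2151360000), (nat_lit 3205440000)], [], [(nat_lit 11045826775), (nat_lit 8631105422), (nat_lit 7879595840), (nat_lit 8262065782), (nat_lit 7749699507), (nat_lit 6775089524), (nat_lit 9371214260), (nat_lit 6576586160)], (nat_lit 1271251), (nat_lit 1271251), (nat_lit 704688), (nat_lit 1100000), (nat_lit 0), (nat_lit 780000), [(nat_lit 1100000), (nat_lit 1785001), (nat_lit 1271251)], [(nat_lit 18), (nat_lit 59), (nat_lit 373), (nat_lit 150), (nat_lit 10)]⟩,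
 ⟨⟨[(nat_lit 120), (nat_lit 160), (nat_lit 180)], [(nat_lit 0), (nat_lit 0), (nat_lit 1613)], [((nat_lit 0), (nat_lit 0), (nat_lit 0)), ((nat_lit 0), (nat_lit 0), (nat_lit 0)), ((nat_lit 620), (nat_lit 1000), (nat_lit 670))], ((nat_lit 100), (nat_lit 68), (nat_lit 61))⟩, (nat_lit 3861407), (nat_lit 297), (nat_lit 297), (nat_lit 0), (nat_lit 0), [(nat_lit 7968000000), (nat_lit 11872000000), (nat_lit 14058000000)], [], [(nat_lit 34161008929), (nat_lit 34687807714), (nat_lit 39560547409), (nat_lit 39837157834), (nat_lit 26894413970), (nat_lit 27268624820), (nat_lit 30752470734), (nat_lit 30940691083)], (nat_lit 0), (nat_lit 0), (nat_lit 0), (nat_lit 0), (nat_lit 0), (nat_lit 0), [], [(nat_lit 28), (nat_lit 65), (nat_lit 401), (nat_lit 175), (nat_lit 9)]⟩⟩)) (.leaf ⟨(nat_lit 891), (nat_lit 0), (nat_lit 0), (nat_lit 109), (nat_lit 0), (nat_lit 3371), (nat_lit 1313), (nat_lit 1442), (nat_lit 0), (nat_lit 0), (nat_lit 503750), [((nat_lit 380), [((nat_lit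 24), (nat_lit 0), (nat_lit 55)), ((nat_lit 24), (nat_lit 1), (nat_lit 58)), ((nat_lit 41), (nat_lit 2), (nat_lit 778))])], ⟨(nat_lit 6), false, false, false, (nat_lit 227), (nat_lit 2236), (nat_lit 3163), [(nat_lit 1483125), (nat_lit 1488302), (nat_lit 1527308), (nat_lit 1533723), (nat_lit 1605240), (nat_lit 1602541), (nat_lit 1649422), (nat_lit 1647962)]⟩, ⟨(nat_lit 6), true, false, true, (nat_lit 222), (nat_lit 2236), (nat_lit 3163), [(nat_lit 1472332), (nat_lit 1465917), (nat_lit 1538797), (nat_lit 1534240), (nat_lit 1579000), (nat_lit 1565693), (nat_lit 1645465), (nat_lit 1634017)]⟩, (nat_lit 5231395), (nat_lit 39049597), (nat_lit 14230687), (nat_lit 13719716), (nat_lit 0), (nat_lit 0), [], [⟨(nat_lit 1), (nat_lit 99), (nat_lit 54), (nat_lit 100), (nat_lit 196117700)⟩], [], [⟨(nat_lit 0), (nat_lit 93), (nat_lit 100), (nat_lit 37), (nat_lit 100915238)⟩],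
 ⟨⟨[(nat_lit 40), (nat_lit 60), (nat_lit 80)], [(nat_lit 0), (nat_lit 832), (nat_lit 1534)], [((nat_lit 0), (nat_lit 0), (nat_lit 0)), ((nat_lit 1000), (nat_lit 659), (nat_lit 528)), ((nat_lit 1000), (nat_lit 650), (nat_lit 549))], ((nat_lit 63), (nat_lit 100), (nat_lit 62))⟩, (nat_lit 0), (nat_lit 184), (nat_lit 184), (nat_lit 0), (nat_lit 415818), [(nat_lit 1366785203), (nat_lit 926400769), (nat_lit 619076800)], [(nat_lit 0), (nat_lit 0), (nat_lit 0)], [(nat_lit 22587507401), (nat_lit 23722759620), (nat_lit 24456560886), (nat_lit 25461357042), (nat_lit 25261681207), (nat_lit 26497824474), (nat_lit 26938182708), (nat_lit 28022680967)], (nat_lit 1271251), (nat_lit 1271251), (nat_lit 1100000), (nat_lit 1785001), (nat_lit 1271251), (nat_lit 1271251), [(nat_lit 490000), (nat_lit 780000), (nat_lit 1100000)], [(nat_lit 2), (nat_lit 44), (nat_lit 203), (nat_lit 0), (nat_lit 7)]⟩,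
 ⟨⟨[(nat_lit 80), (nat_lit 120), (nat_lit 160)], [(nat_lit 0), (nat_lit 0), (nat_lit 2132)], [((nat_lit 0), (nat_lit 0), (nat_lit 0)), ((nat_lit 0), (nat_lit 0), (nat_lit 0)), ((nat_lit 858), (nat_lit 1000), (nat_lit 713))], ((nat_lit 100), (nat_lit 92), (nat_lit 61))⟩, (nat_lit 485883), (nat_lit 875), (nat_lit 875), (nat_lit 0), (nat_lit 1290118), [(nat_lit 510992000), (nat_lit 868512000), (nat_lit 1294048000)], [], [(nat_lit 3026118788), (nat_lit 2953083338), (nat_lit 4396071680), (nat_lit 3214714950), (nat_lit 3707316188), (nat_lit 2494309016), (nat_lit 5177587532), (nat_lit 3995936113)], (nat_lit 1271251), (nat_lit 1271251), (nat_lit 1100000), (nat_lit 1785001), (nat_lit 0), (nat_lit 780000), [(nat_lit 1100000), (nat_lit 1785001), (nat_lit 1271251)], [(nat_lit 18), (nat_lit 59), (nat_lit 401), (nat_lit 175), (nat_lit 10)]⟩,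
 ⟨⟨[(nat_lit 140), (nat_lit 180), (nat_lit 200)], [(nat_lit 0), (nat_lit 0), (nat_lit 2835)], [((nat_lit 0), (nat_lit 0), (nat_lit 0)), ((nat_lit 0), (nat_lit 0), (nat_lit 0)), ((nat_lit 363), (nat_lit 1000), (nat_lit 798))], ((nat_lit 0), (nat_lit 0), (nat_lit 0))⟩, (nat_lit 29989), (nat_lit 300), (nat_lit 434), (nat_lit 8512906), (nat_lit 0), [(nat_lit 1072778000), (nat_lit 1532322000), (nat_lit 1787600000)], [], [(nat_lit 7045446461), (nat_lit 6785830909), (nat_lit 7182154208), (nat_lit 6892289192), (nat_lit 5776237023), (nat_lit 5528247728), (nat_lit 5873959144), (nat_lit 5605950145)], (nat_lit 0), (nat_lit 0), (nat_lit 0), (nat_lit 0), (nat_lit 0), (nat_lit 0), [], [(nat_lit 32), (nat_lit 67), (nat_lit 401), (nat_lit 175), (nat_lit 9)]⟩⟩))) (.leaf ⟨(nat_lit 35), (nat_lit 0), (nat_lit 696), (nat_lit 269), (nat_lit 0), (nat_lit 4521), (nat_lit 2377), (nat_lit 14922), (nat_lit 0), (nat_lit 0), (nat_lit 140000), [((nat_lit 380), [((nat_lit 41),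 (nat_lit 5), (nat_lit 35))])], ⟨(nat_lit 6), false, false, false, (nat_lit 212), (nat_lit 2236), (nat_lit 3163), [(nat_lit 1406804), (nat_lit 1416903), (nat_lit 1450987), (nat_lit 1462324), (nat_lit 1605240), (nat_lit 1602541), (nat_lit 1649422), (nat_lit 1647962)]⟩, ⟨(nat_lit 6), true, false, true, (nat_lit 253), (nat_lit 2236), (nat_lit 3163), [(nat_lit 1538797), (nat_lit 1534240), (nat_lit 1583107), (nat_lit 1579788), (nat_lit 1691180), (nat_lit 1676779), (nat_lit 1735490), (nat_lit 1722327)]⟩, (nat_lit 5302819), (nat_lit 37874175), (nat_lit 12504664), (nat_lit 16621161), (nat_lit 0), (nat_lit 6), [⟨(nat_lit 0), (nat_lit 92), (nat_lit 44), (nat_lit 100), (nat_lit 49066263)⟩], [], [⟨(nat_lit 0), (nat_lit 100), (nat_lit 95), (nat_lit 30), (nat_lit 512556029)⟩], [⟨(nat_lit 0), (nat_lit 90), (nat_lit 100), (nat_lit 34), (nat_lit 61070065)⟩],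
 ⟨⟨[(nat_lit 40), (nat_lit 60), (nat_lit 80)], [(nat_lit 0), (nat_lit 832), (nat_lit 1534)], [((nat_lit 0), (nat_lit 0), (nat_lit 0)), ((nat_lit 1000), (nat_lit 659), (nat_lit 528)), ((nat_lit 1000), (nat_lit 650), (nat_lit 549))], ((nat_lit 63), (nat_lit 100), (nat_lit 62))⟩, (nat_lit 717076), (nat_lit 200), (nat_lit 200), (nat_lit 0), (nat_lit 398682), [(nat_lit 1896298105), (nat_lit 2877456252), (nat_lit 3926274000)], [(nat_lit 0), (nat_lit 0), (nat_lit 0)], [(nat_lit 23509925552), (nat_lit 24713862831), (nat_lit 25356157336), (nat_lit 26344904342), (nat_lit 28295132422), (nat_lit 29695403072), (nat_lit 29392623820), (nat_lit 30538182190)], (nat_lit 1271251), (nat_lit 1271251), (nat_lit 704688), (nat_lit 1756876), (nat_lit 1271251), (nat_lit 1271251), [(nat_lit 490000), (nat_lit 780000), (nat_lit 1100000)], [(nat_lit 2), (nat_lit 44), (nat_lit 272), (nat_lit 60), (nat_lit 11)]⟩,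
 ⟨⟨[(nat_lit 80), (nat_lit 120), (nat_lit 160)], [(nat_lit 0), (nat_lit 0), (nat_lit 2132)], [((nat_lit 0), (nat_lit 0), (nat_lit 0)), ((nat_lit 0), (nat_lit 0), (nat_lit 0)), ((nat_lit 858), (nat_lit 1000), (nat_lit 713))], ((nat_lit 100), (nat_lit 92), (nat_lit 61))⟩, (nat_lit 691858), (nat_lit 803), (nat_lit 803), (nat_lit 0), (nat_lit 1043104), [(nat_lit 1261072000), (nat_lit 2143392000), (nat_lit 3193568000)], [], [(nat_lit 10721012672), (nat_lit 10898805313), (nat_lit 10784858536), (nat_lit 10635148644), (nat_lit 9441966346), (nat_lit 9649635719), (nat_lit 12423295444), (nat_lit 10284083393)], (nat_lit 1271251), (nat_lit 1271251), (nat_lit 704688), (nat_lit 1756876), (nat_lit 0), (nat_lit 780000), [(nat_lit 1100000), (nat_lit 1785001), (nat_lit 1271251)], [(nat_lit 18), (nat_lit 59), (nat_lit 401), (nat_lit 175), (nat_lit 10)]⟩,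
 ⟨⟨[(nat_lit 120), (nat_lit 160), (nat_lit 180)], [(nat_lit 0), (nat_lit 533), (nat_lit 2066)], [((nat_lit 0), (nat_lit 0), (nat_lit 0)), ((nat_lit 960), (nat_lit 1000), (nat_lit 200)), ((nat_lit 615), (nat_lit 1000), (nat_lit 729))], ((nat_lit 100), (nat_lit 74), (nat_lit 60))⟩, (nat_lit 2259512), (nat_lit 300), (nat_lit 304), (nat_lit 64076001), (nat_lit 0), [(nat_lit 7689120000), (nat_lit 11456480000), (nat_lit 13565970000)], [], [(nat_lit 41254723763), (nat_lit 41356974049), (nat_lit 47048986504), (nat_lit 47101244834), (nat_lit 28849567337), (nat_lit 28895821233), (nat_lit 33890060246), (nat_lit 33362092075)], (nat_lit 0), (nat_lit 0), (nat_lit 0), (nat_lit 0), (nat_lit 0), (nat_lit 0), [], [(nat_lit 28), (nat_lit 65), (nat_lit 401), (nat_lit 175), (nat_lit 9)]⟩⟩)) (.trZ (nat_lit 0) (nat_lit 1) (nat_lit 3) (nat_lit 94) (nat_lit 62) (nat_lit 100) (nat_lit 150) (.spl (nat_lit 1) (nat_lit 300) (.leaf ⟨(nat_lit 804), (nat_lit 40), (nat_lit 0),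 (nat_lit 156), (nat_lit 0), (nat_lit 3473), (nat_lit 1919), (nat_lit 2064), (nat_lit 0), (nat_lit 0), (nat_lit 448800), [((nat_lit 380), [((nat_lit 24), (nat_lit 0), (nat_lit 96)), ((nat_lit 41), (nat_lit 2), (nat_lit 708))])], ⟨(nat_lit 7), false, false, false, (nat_lit 237), (nat_lit 2236), (nat_lit 3163), [(nat_lit 1512044), (nat_lit 1519444), (nat_lit 1534135), (nat_lit 1542154), (nat_lit 1649422), (nat_lit 1647962), (nat_lit 1671514), (nat_lit 1670673)]⟩, ⟨(nat_lit 6), true, false, true, (nat_lit 240), (nat_lit 2236), (nat_lit 3163), [(nat_lit 1472332), (nat_lit 1465917), (nat_lit 1583107), (nat_lit 1579788), (nat_lit 1624715), (nat_lit 1608455), (nat_lit 1735490), (nat_lit 1722327)]⟩, (nat_lit 5382237), (nat_lit 37208631), (nat_lit 14782721), (nat_lit 15008648), (nat_lit 6), (nat_lit 0), [⟨(nat_lit 0), (nat_lit 90), (nat_lit 53), (nat_lit 100), (nat_lit 99129624)⟩], [⟨(nat_lit 1), (nat_lit 93), (nat_lit 53), (nat_lit 100), (nat_lit 275583701)⟩],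 [⟨(nat_lit 0), (nat_lit 100), (nat_lit 90), (nat_lit 31), (nat_lit 141332264)⟩], [],
 ⟨⟨[(nat_lit 40), (nat_lit 60), (nat_lit 80)], [(nat_lit 0), (nat_lit 832), (nat_lit 1534)], [((nat_lit 0), (nat_lit 0), (nat_lit 0)), ((nat_lit 1000), (nat_lit 659), (nat_lit 528)), ((nat_lit 1000), (nat_lit 650), (nat_lit 549))], ((nat_lit 63), (nat_lit 100), (nat_lit 62))⟩, (nat_lit 190325), (nat_lit 203), (nat_lit 203), (nat_lit 0), (nat_lit 453448), [(nat_lit 1415377603), (nat_lit 1169794902), (nat_lit 1045203200)], [(nat_lit 0), (nat_lit 0), (nat_lit 0)], [(nat_lit 22510351620), (nat_lit 23604760995), (nat_lit 24410342474), (nat_lit 25539723846), (nat_lit 26900960544), (nat_lit 28076843771), (nat_lit 28386041304), (nat_lit 29407411936)], (nat_lit 1271251), (nat_lit 1271251), (nat_lit 1017188), (nat_lit 1779376), (nat_lit 1271251), (nat_lit 1271251), [(nat_lit 490000), (nat_lit 780000), (nat_lit 1100000)], [(nat_lit 2), (nat_lit 44), (nat_lit 272), (nat_lit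 60), (nat_lit 10)]⟩,
 ⟨⟨[(nat_lit 60), (nat_lit 100), (nat_lit 140)], [(nat_lit 0), (nat_lit 0), (nat_lit 2047)], [((nat_lit 0), (nat_lit 0), (nat_lit 0)), ((nat_lit 0), (nat_lit 0), (nat_lit 0)), ((nat_lit 1000), (nat_lit 993), (nat_lit 781))], ((nat_lit 94), (nat_lit 100), (nat_lit 62))⟩, (nat_lit 650720), (nat_lit 729), (nat_lit 729), (nat_lit 0), (nat_lit 1123587), [(nat_lit 643272000), (nat_lit 1225000000), (nat_lit 1929032000)], [], [(nat_lit 4895626614), (nat_lit 5049246138), (nat_lit 5021737302), (nat_lit 5345408084), (nat_lit 3973936181), (nat_lit 4104522108), (nat_lit 6104729695), (nat_lit 5229914206)], (nat_lit 1271251), (nat_lit 1271251), (nat_lit 1017188), (nat_lit 1779376), (nat_lit 0), (nat_lit 780000), [(nat_lit 780000), (nat_lit 1435001), (nat_lit 1271251)], [(nat_lit 11), (nat_lit 55), (nat_lit 317), (nat_lit 100), (nat_lit 9)]⟩,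
 ⟨⟨[(nat_lit 140), (nat_lit 180), (nat_lit 200)], [(nat_lit 0), (nat_lit 0), (nat_lit 2835)], [((nat_lit 0), (nat_lit 0), (nat_lit 0)), ((nat_lit 0), (nat_lit 0), (nat_lit 0)), ((nat_lit 363), (nat_lit 1000), (nat_lit 798))], ((nat_lit 0), (nat_lit 0), (nat_lit 0))⟩, (nat_lit 42921), (nat_lit 300), (nat_lit 434), (nat_lit 12183600), (nat_lit 0), [(nat_lit 1535352000), (nat_lit 2193048000), (nat_lit 2558400000)], [], [(nat_lit 10083430368), (nat_lit 9583216308), (nat_lit 10440603108), (nat_lit 9822042657), (nat_lit 8266683064), (nat_lit 7776015218), (nat_lit 8549251950), (nat_lit 7973492388)], (nat_lit 0), (nat_lit 0), (nat_lit 0), (nat_lit 0), (nat_lit 0), (nat_lit 0), [], [(nat_lit 32), (nat_lit 67), (nat_lit 401), (nat_lit 175), (nat_lit 9)]⟩⟩) (.trZ (nat_lit 0) (nat_lit 1) (nat_lit 3) (nat_lit 87) (nat_lit 60) (nat_lit 100) (nat_lit 170) (.leaf ⟨(nat_lit 0), (nat_lit 773), (nat_lit 0), (nat_lit 227), (nat_lit 0), (nat_lit 4625), (nat_lit 6027),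 (nat_lit 3003), (nat_lit 0), (nat_lit 0), (nat_lit 0), [], Pd.none, Pd.none, (nat_lit 0), (nat_lit 1), (nat_lit 0), (nat_lit 0), (nat_lit 6), (nat_lit 0), [⟨(nat_lit 0), (nat_lit 84), (nat_lit 53), (nat_lit 100), (nat_lit 601998937)⟩], [⟨(nat_lit 1), (nat_lit 93), (nat_lit 53), (nat_lit 100), (nat_lit 569303203)⟩], [⟨(nat_lit 0), (nat_lit 100), (nat_lit 84), (nat_lit 42), (nat_lit 244258351)⟩, ⟨(nat_lit 0), (nat_lit 100), (nat_lit 94), (nat_lit 12), (nat_lit 2740337)⟩], [],
 ⟨⟨[(nat_lit 40), (nat_lit 60), (nat_lit 80)], [(nat_lit 0), (nat_lit 832), (nat_lit 1534)], [((nat_lit 0), (nat_lit 0), (nat_lit 0)), ((nat_lit 1000), (nat_lit 659), (nat_lit 528)), ((nat_lit 1000), (nat_lit 650), (nat_lit 549))], ((nat_lit 63), (nat_lit 100), (nat_lit 62))⟩, (nat_lit 1324612), (nat_lit 209), (nat_lit 209), (nat_lit 0), (nat_lit 493155), [(nat_lit 2032000036), (nat_lit 3282000074), (nat_lit 4688000000)], [], [(nat_lit 23682782561), (nat_lit 24805221250), (nat_lit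 25063941404), (nat_lit 26424807750), (nat_lit 28314948204), (nat_lit 29624105360), (nat_lit 29492513688), (nat_lit 30650396032)], (nat_lit 1271251), (nat_lit 1271251), (nat_lit 1184688), (nat_lit 1790626), (nat_lit 1271251), (nat_lit 1271251), [(nat_lit 490000), (nat_lit 780000), (nat_lit 1100000)], [(nat_lit 2), (nat_lit 44), (nat_lit 203), (nat_lit 0), (nat_lit 7)]⟩,
 ⟨⟨[(nat_lit 60), (nat_lit 100), (nat_lit 120)], [(nat_lit 0), (nat_lit 609), (nat_lit 1609)], [((nat_lit 0), (nat_lit 0), (nat_lit 0)), ((nat_lit 1000), (nat_lit 905), (nat_lit 238)), ((nat_lit 1000), (nat_lit 882), (nat_lit 668))], ((nat_lit 87), (nat_lit 100), (nat_lit 60))⟩, (nat_lit 6386924), (nat_lit 628), (nat_lit 628), (nat_lit 0), (nat_lit 1082432), [(nat_lit 3282000000), (nat_lit 6250000000), (nat_lit 7968000000)], [], [(nat_lit 23792328996), (nat_lit 24632713033), (nat_lit 25223463262), (nat_lit 26083696572), (nat_lit 22247754126), (nat_lit 23026782735), (nat_lit 23656877355),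 (nat_lit 24407598204)], (nat_lit 1271251), (nat_lit 1271251), (nat_lit 1184688), (nat_lit 1790626), (nat_lit 0), (nat_lit 780000), [(nat_lit 780000), (nat_lit 1435001), (nat_lit 1271251)], [(nat_lit 10), (nat_lit 54), (nat_lit 317), (nat_lit 100), (nat_lit 10)]⟩,
 ⟨⟨[(nat_lit 140), (nat_lit 180), (nat_lit 200)], [(nat_lit 0), (nat_lit 0), (nat_lit 2835)], [((nat_lit 0), (nat_lit 0), (nat_lit 0)), ((nat_lit 0), (nat_lit 0), (nat_lit 0)), ((nat_lit 363), (nat_lit 1000), (nat_lit 798))], ((nat_lit 0), (nat_lit 0), (nat_lit 0))⟩, (nat_lit 62455), (nat_lit 300), (nat_lit 434), (nat_lit 17728701), (nat_lit 0), [(nat_lit 2234134000), (nat_lit 3191166000), (nat_lit 3722800000)], [], [(nat_lit 14672622174), (nat_lit 13944845301), (nat_lit 15192304476), (nat_lit 14292385502), (nat_lit 12029470587), (nat_lit 11315628138), (nat_lit 12440543853), (nat_lit 11602896152)], (nat_lit 0), (nat_lit 0), (nat_lit 0), (nat_lit 0), (nat_lit 0), (nat_lit 0), [], [(nat_lit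 32), (nat_lit 67), (nat_lit 401), (nat_lit 175), (nat_lit 9)]⟩⟩)))))
noncomputable def c17_10 : Tr Lf :=
 (.spl (nat_lit 0) (nat_lit 370) (.leaf ⟨(nat_lit 748), (nat_lit 0), (nat_lit 25), (nat_lit 227), (nat_lit 0), (nat_lit 3674), (nat_lit 1575), (nat_lit 4589), (nat_lit 0), (nat_lit 0), (nat_lit 409950), [((nat_lit 370), [((nat_lit 24), (nat_lit 0), (nat_lit 111)), ((nat_lit 41), (nat_lit 2), (nat_lit 637))])], ⟨(nat_lit 6), false, false, false, (nat_lit 221), (nat_lit 2738), (nat_lit 3163), [(nat_lit 1407099), (nat_lit 1411881), (nat_lit 1495670), (nat_lit 1501502), (nat_lit 1605257), (nat_lit 1603890), (nat_lit 1693828), (nat_lit 1693511)]⟩, ⟨(nat_lit 3), true, false, true, (nat_lit 205), (nat_lit 2738), (nat_lit 3163), [(nat_lit 1289472), (nat_lit 1292206), (nat_lit 1400199), (nat_lit 1404246), (nat_lit 1624716), (nat_lit 1617044), (nat_lit 1735490), (nat_lit 1729131)]⟩, (nat_lit 5084703), (nat_lit 40630165), (nat_lit 13977271), (nat_lit 12392564),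 (nat_lit 0), (nat_lit 6), [⟨(nat_lit 0), (nat_lit 93), (nat_lit 58), (nat_lit 100), (nat_lit 178973569)⟩], [⟨(nat_lit 1), (nat_lit 91), (nat_lit 57), (nat_lit 100), (nat_lit 81027701)⟩], [], [],
 ⟨⟨[(nat_lit 40), (nat_lit 60), (nat_lit 80)], [(nat_lit 0), (nat_lit 832), (nat_lit 1534)], [((nat_lit 0), (nat_lit 0), (nat_lit 0)), ((nat_lit 1000), (nat_lit 659), (nat_lit 528)), ((nat_lit 1000), (nat_lit 650), (nat_lit 549))], ((nat_lit 63), (nat_lit 100), (nat_lit 62))⟩, (nat_lit 162031), (nat_lit 217), (nat_lit 217), (nat_lit 0), (nat_lit 475332), [(nat_lit 1447059203), (nat_lit 1289117572), (nat_lit 1340692028)], [(nat_lit 0), (nat_lit 0), (nat_lit 0)], [(nat_lit 19502292816), (nat_lit 20180226160), (nat_lit 22324538399), (nat_lit 22907299694), (nat_lit 27147208568), (nat_lit 27779451682), (nat_lit 28579097683), (nat_lit 29101692224)], (nat_lit 1271251), (nat_lit 1271251), (nat_lit 704688), (nat_lit 1756876), (nat_lit 780000), (nat_lit 2581251),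 [(nat_lit 490000), (nat_lit 780000), (nat_lit 1100000)], [(nat_lit 2), (nat_lit 44), (nat_lit 373), (nat_lit 150), (nat_lit 16)]⟩,
 ⟨⟨[(nat_lit 80), (nat_lit 120), (nat_lit 160)], [(nat_lit 0), (nat_lit 0), (nat_lit 2132)], [((nat_lit 0), (nat_lit 0), (nat_lit 0)), ((nat_lit 0), (nat_lit 0), (nat_lit 0)), ((nat_lit 858), (nat_lit 1000), (nat_lit 713))], ((nat_lit 100), (nat_lit 92), (nat_lit 61))⟩, (nat_lit 492468), (nat_lit 875), (nat_lit 875), (nat_lit 0), (nat_lit 1415885), [(nat_lit 1064176000), (nat_lit 1808736000), (nat_lit 2694944000)], [], [(nat_lit 11271442766), (nat_lit 11435176542), (nat_lit 11079094828), (nat_lit 11181518534), (nat_lit 11444920297), (nat_lit 11453342792), (nat_lit 13801094212), (nat_lit 11072192512)], (nat_lit 1271251), (nat_lit 1271251), (nat_lit 704688), (nat_lit 1756876), (nat_lit 780000), (nat_lit 3072501), [(nat_lit 1100000), (nat_lit 1785001), (nat_lit 1271251)], [(nat_lit 18), (nat_lit 59), (nat_lit 483), (nat_lit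 250), (nat_lit 12)]⟩,
 ⟨⟨[(nat_lit 140), (nat_lit 180), (nat_lit 200)], [(nat_lit 0), (nat_lit 0), (nat_lit 2835)], [((nat_lit 0), (nat_lit 0), (nat_lit 0)), ((nat_lit 0), (nat_lit 0), (nat_lit 0)), ((nat_lit 363), (nat_lit 1000), (nat_lit 798))], ((nat_lit 0), (nat_lit 0), (nat_lit 0))⟩, (nat_lit 1156349), (nat_lit 291), (nat_lit 291), (nat_lit 0), (nat_lit 0), [(nat_lit 2480184000), (nat_lit 3542616000), (nat_lit 4132800000)], [], [(nat_lit 7085580317), (nat_lit 7413517887), (nat_lit 10271570087), (nat_lit 9739672432), (nat_lit 12484057812), (nat_lit 11543536860), (nat_lit 13152130114), (nat_lit 12199125083)], (nat_lit 0), (nat_lit 0), (nat_lit 0), (nat_lit 0), (nat_lit 0), (nat_lit 0), [], [(nat_lit 32), (nat_lit 67), (nat_lit 483), (nat_lit 250), (nat_lit 10)]⟩⟩) (.trZ (nat_lit 0) (nat_lit 1) (nat_lit 3) (nat_lit 100) (nat_lit 54) (nat_lit 96) (nat_lit 130) (.trX (nat_lit 4) (nat_lit 0) (nat_lit 2) (nat_lit 53) (nat_lit 80) (nat_lit 100) (nat_lit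 330) (.leaf ⟨(nat_lit 767), (nat_lit 0), (nat_lit 45), (nat_lit 188), (nat_lit 0), (nat_lit 3607), (nat_lit 1405), (nat_lit 3466), (nat_lit 0), (nat_lit 0), (nat_lit 396200), [((nat_lit 380), [((nat_lit 24), (nat_lit 1), (nat_lit 320)), ((nat_lit 41), (nat_lit 2), (nat_lit 447))])], ⟨(nat_lit 6), false, false, false, (nat_lit 227), (nat_lit 2236), (nat_lit 2739), [(nat_lit 1441375), (nat_lit 1445669), (nat_lit 1530963), (nat_lit 1536685), (nat_lit 1603890), (nat_lit 1602558), (nat_lit 1693478), (nat_lit 1693574)]⟩, ⟨(nat_lit 3), true, false, true, (nat_lit 201), (nat_lit 2236), (nat_lit 2739), [(nat_lit 1292206), (nat_lit 1294870), (nat_lit 1404204), (nat_lit 1408652), (nat_lit 1602278), (nat_lit 1594202), (nat_lit 1714365), (nat_lit 1708073)]⟩, (nat_lit 5099594), (nat_lit 40389522), (nat_lit 14616973), (nat_lit 11993505), (nat_lit 0), (nat_lit 6), [⟨(nat_lit 0), (nat_lit 92), (nat_lit 49), (nat_lit 100), (nat_lit 132891497)⟩], [⟨(nat_lit 1), (nat_lit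 95), (nat_lit 49), (nat_lit 100), (nat_lit 45989440)⟩], [], [],
 ⟨⟨[(nat_lit 40), (nat_lit 60), (nat_lit 80)], [(nat_lit 0), (nat_lit 1134), (nat_lit 1930)], [((nat_lit 0), (nat_lit 0), (nat_lit 0)), ((nat_lit 1000), (nat_lit 575), (nat_lit 619)), ((nat_lit 1000), (nat_lit 574), (nat_lit 622))], ((nat_lit 57), (nat_lit 100), (nat_lit 64))⟩, (nat_lit 76157), (nat_lit 216), (nat_lit 216), (nat_lit 0), (nat_lit 490876), [(nat_lit 1437850828), (nat_lit 1300260316), (nat_lit 1374110400)], [(nat_lit 0), (nat_lit 0), (nat_lit 0)], [(nat_lit 20695229985), (nat_lit 21327523032), (nat_lit 23046668025), (nat_lit 23624386397), (nat_lit 27103881053), (nat_lit 27732753192), (nat_lit 28554333621), (nat_lit 29086154442)], (nat_lit 1271251), (nat_lit 1271251), (nat_lit 857188), (nat_lit 1768126), (nat_lit 780000), (nat_lit 2499376), [(nat_lit 490000), (nat_lit 780000), (nat_lit 1100000)], [(nat_lit 2), (nat_lit 44), (nat_lit 373), (nat_lit 150), (nat_lit 16)]⟩,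
 ⟨⟨[(nat_lit 80), (nat_lit 120), (nat_lit 160)], [(nat_lit 0), (nat_lit 0), (nat_lit 2132)], [((nat_lit 0), (nat_lit 0), (nat_lit 0)), ((nat_lit 0), (nat_lit 0), (nat_lit 0)), ((nat_lit 858), (nat_lit 1000), (nat_lit 713))], ((nat_lit 100), (nat_lit 92), (nat_lit 61))⟩, (nat_lit 366273), (nat_lit 971), (nat_lit 971), (nat_lit 0), (nat_lit 1622821), [(nat_lit 881344000), (nat_lit 1497984000), (nat_lit 2231936000)], [], [(nat_lit 9335270680), (nat_lit 9382212716), (nat_lit 9137594972), (nat_lit 9148701362), (nat_lit 9358705077), (nat_lit 9159324355), (nat_lit 11706372328), (nat_lit 9272018748)], (nat_lit 1271251), (nat_lit 1271251), (nat_lit 857188), (nat_lit 1768126), (nat_lit 780000), (nat_lit 3072501), [(nat_lit 1100000), (nat_lit 1785001), (nat_lit 1271251)], [(nat_lit 18), (nat_lit 59), (nat_lit 483), (nat_lit 250), (nat_lit 12)]⟩,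
 ⟨⟨[(nat_lit 140), (nat_lit 180), (nat_lit 200)], [(nat_lit 0), (nat_lit 0), (nat_lit 2835)], [((nat_lit 0), (nat_lit 0), (nat_lit 0)), ((nat_lit 0), (nat_lit 0), (nat_lit 0)), ((nat_lit 363), (nat_lit 1000), (nat_lit 798))], ((nat_lit 0), (nat_lit 0), (nat_lit 0))⟩, (nat_lit 690641), (nat_lit 291), (nat_lit 291), (nat_lit 0), (nat_lit 0), [(nat_lit 2293186000), (nat_lit 3275514000), (nat_lit 3821200000)], [], [(nat_lit 7414066108), (nat_lit 7511025265), (nat_lit 9099836144), (nat_lit 8843243301), (nat_lit 11141222078), (nat_lit 10518026631), (nat_lit 10958357305), (nat_lit 10089232390)], (nat_lit 0), (nat_lit 0), (nat_lit 0), (nat_lit 0), (nat_lit 0), (nat_lit 0), [], [(nat_lit 32), (nat_lit 67), (nat_lit 483), (nat_lit 250), (nat_lit 10)]⟩⟩))))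
noncomputable def c17_11 : Tr Lf :=
 (.trX (nat_lit 3) (nat_lit 0) (nat_lit 1) (nat_lit 65) (nat_lit 54) (nat_lit 100) (nat_lit 380) (.spl (nat_lit 2) (nat_lit 180) (.trX (nat_lit 4) (nat_lit 0) (nat_lit 2) (nat_lit 60) (nat_lit 86) (nat_lit 100) (nat_lit 310) (.spl (nat_lit 3) (nat_lit 320) (.spl (nat_lit 4) (nat_lit 200) (.leaf ⟨(nat_lit 859), (nat_lit 132), (nat_lit 0), (nat_lit 9), (nat_lit 0), (nat_lit 3275), (nat_lit 1440), (nat_lit 246), (nat_lit 0), (nat_lit 0), (nat_lit 432000), [((nat_lit 380), [((nat_lit 24), (nat_lit 1), (nat_lit 417)), ((nat_lit 41), (nat_lit 2), (nat_lit 442))])], ⟨(nat_lit 6), false, true, true, (nat_lit 274), (nat_lit 2236), (nat_lit 3163), [(nat_lit 1605240), (nat_lit 1602541), (nat_lit 1649422), (nat_lit 1647962), (nat_lit 1727168), (nat_lit 1716594), (nat_lit 1771478), (nat_lit 1762142)]⟩, ⟨(nat_lit 3), true, false, true, (nat_lit 154), (nat_lit 2236), (nat_lit 3163), [(nat_lit 1289472), (nat_lit 1294870), (nat_lit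 1355794), (nat_lit 1363050), (nat_lit 1411379), (nat_lit 1408901), (nat_lit 1477844), (nat_lit 1477224)]⟩, (nat_lit 4937859), (nat_lit 39609803), (nat_lit 19591917), (nat_lit 7798280), (nat_lit 3), (nat_lit 0), [], [], [], [⟨(nat_lit 0), (nat_lit 100), (nat_lit 80), (nat_lit 60), (nat_lit 40669314)⟩],
 ⟨⟨[(nat_lit 40), (nat_lit 60), (nat_lit 80)], [(nat_lit 0), (nat_lit 832), (nat_lit 1534)], [((nat_lit 0), (nat_lit 0), (nat_lit 0)), ((nat_lit 1000), (nat_lit 659), (nat_lit 528)), ((nat_lit 1000), (nat_lit 650), (nat_lit 549))], ((nat_lit 63), (nat_lit 100), (nat_lit 62))⟩, (nat_lit 496), (nat_lit 197), (nat_lit 197), (nat_lit 0), (nat_lit 415818), [(nat_lit 1399434803), (nat_lit 1150267831), (nat_lit 1035655200)], [(nat_lit 0), (nat_lit 0), (nat_lit 0)], [(nat_lit 22966057695), (nat_lit 24035824845), (nat_lit 25783977470), (nat_lit 26748861288), (nat_lit 24200833820), (nat_lit 25160649683), (nat_lit 26727561970), (nat_lit 27553339908)], (nat_lit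 1271251), (nat_lit 1271251), (nat_lit 1271251), (nat_lit 1271251), (nat_lit 780000), (nat_lit 1435001), [(nat_lit 490000), (nat_lit 780000), (nat_lit 1100000)], [(nat_lit 2), (nat_lit 44), (nat_lit 260), (nat_lit 50), (nat_lit 10)]⟩,
 ⟨⟨[(nat_lit 80), (nat_lit 120), (nat_lit 160)], [(nat_lit 0), (nat_lit 0), (nat_lit 2132)], [((nat_lit 0), (nat_lit 0), (nat_lit 0)), ((nat_lit 0), (nat_lit 0), (nat_lit 0)), ((nat_lit 858), (nat_lit 1000), (nat_lit 713))], ((nat_lit 100), (nat_lit 92), (nat_lit 61))⟩, (nat_lit 562274), (nat_lit 849), (nat_lit 849), (nat_lit 0), (nat_lit 1290118), [(nat_lit 661008000), (nat_lit 1123488000), (nat_lit 1673952000)], [], [(nat_lit 4781714340), (nat_lit 4819552986), (nat_lit 4857391632), (nat_lit 4911524058), (nat_lit 4009703826), (nat_lit 4033886262), (nat_lit 4058068698), (nat_lit 4059463821)], (nat_lit 1271251), (nat_lit 1271251), (nat_lit 1271251), (nat_lit 1271251), (nat_lit 0), (nat_lit 780000), [(nat_lit 1100000),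 (nat_lit 1785001), (nat_lit 1271251)], [(nat_lit 18), (nat_lit 59), (nat_lit 428), (nat_lit 200), (nat_lit 11)]⟩,
 ⟨⟨[(nat_lit 140), (nat_lit 180), (nat_lit 200)], [(nat_lit 0), (nat_lit 0), (nat_lit 2835)], [((nat_lit 0), (nat_lit 0), (nat_lit 0)), ((nat_lit 0), (nat_lit 0), (nat_lit 0)), ((nat_lit 363), (nat_lit 1000), (nat_lit 798))], ((nat_lit 0), (nat_lit 0), (nat_lit 0))⟩, (nat_lit 2476), (nat_lit 300), (nat_lit 491), (nat_lit 702903), (nat_lit 0), [(nat_lit 88578000), (nat_lit 126522000), (nat_lit 147600000)], [], [(nat_lit 708870504), (nat_lit 656344077), (nat_lit 637420686), (nat_lit 584061035), (nat_lit 465800355), (nat_lit 417732877), (nat_lit 400509096), (nat_lit 351055005)], (nat_lit 0), (nat_lit 0), (nat_lit 0), (nat_lit 0), (nat_lit 0), (nat_lit 0), [], [(nat_lit 32), (nat_lit 67), (nat_lit 345), (nat_lit 125), (nat_lit 8)]⟩⟩) (.spl (nat_lit 0) (nat_lit 370) (.leaf ⟨(nat_lit 872), (nat_lit 44), (nat_lit 0), (nat_lit 84), (nat_lit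 0), (nat_lit 3318), (nat_lit 1398), (nat_lit 1142), (nat_lit 0), (nat_lit 0), (nat_lit 417800), [((nat_lit 370), [((nat_lit 24), (nat_lit 1), (nat_lit 527)), ((nat_lit 41), (nat_lit 2), (nat_lit 345))])], ⟨(nat_lit 6), false, true, true, (nat_lit 275), (nat_lit 2738), (nat_lit 3163), [(nat_lit 1605257), (nat_lit 1603890), (nat_lit 1649542), (nat_lit 1648700), (nat_lit 1727168), (nat_lit 1722017), (nat_lit 1771478), (nat_lit 1766852)]⟩, ⟨(nat_lit 5), true, false, true, (nat_lit 211), (nat_lit 2738), (nat_lit 3163), [(nat_lit 1411379), (nat_lit 1410329), (nat_lit 1477844), (nat_lit 1477581), (nat_lit 1579001), (nat_lit 1572748), (nat_lit 1645465), (nat_lit 1640000)]⟩, (nat_lit 5374594), (nat_lit 36470276), (nat_lit 18491423), (nat_lit 12038301), (nat_lit 5), (nat_lit 0), [], [⟨(nat_lit 1), (nat_lit 97), (nat_lit 58), (nat_lit 100), (nat_lit 29796465)⟩], [], [⟨(nat_lit 0), (nat_lit 100), (nat_lit 95), (nat_lit 66), (nat_lit 124427430)⟩],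
 ⟨⟨[(nat_lit 40), (nat_lit 60), (nat_lit 80)], [(nat_lit 0), (nat_lit 832), (nat_lit 1534)], [((nat_lit 0), (nat_lit 0), (nat_lit 0)), ((nat_lit 1000), (nat_lit 659), (nat_lit 528)), ((nat_lit 1000), (nat_lit 650), (nat_lit 549))], ((nat_lit 63), (nat_lit 100), (nat_lit 62))⟩, (nat_lit 0), (nat_lit 170), (nat_lit 170), (nat_lit 0), (nat_lit 389497), [(nat_lit 1401864004), (nat_lit 1134115441), (nat_lit 1084816800)], [(nat_lit 0), (nat_lit 0), (nat_lit 0)], [(nat_lit 23787140558), (nat_lit 24317769679), (nat_lit 26567384558), (nat_lit 27034820777), (nat_lit 26997242300), (nat_lit 27433370441), (nat_lit 29542904950), (nat_lit 29999791415)], (nat_lit 1271251), (nat_lit 1271251), (nat_lit 1271251), (nat_lit 1271251), (nat_lit 1271251), (nat_lit 1271251), [(nat_lit 490000), (nat_lit 780000), (nat_lit 1100000)], [(nat_lit 2), (nat_lit 44), (nat_lit 203), (nat_lit 0), (nat_lit 7)]⟩,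
 ⟨⟨[(nat_lit 80), (nat_lit 120), (nat_lit 160)], [(nat_lit 0), (nat_lit 0), (nat_lit 2132)], [((nat_lit 0), (nat_lit 0), (nat_lit 0)), ((nat_lit 0), (nat_lit 0), (nat_lit 0)), ((nat_lit 858), (nat_lit 1000), (nat_lit 713))], ((nat_lit 100), (nat_lit 92), (nat_lit 61))⟩, (nat_lit 466079), (nat_lit 754), (nat_lit 754), (nat_lit 0), (nat_lit 1112111), [(nat_lit 600064000), (nat_lit 1019904000), (nat_lit 1519616000)], [], [(nat_lit 3861144056), (nat_lit 3939058868), (nat_lit 4327178300), (nat_lit 4617106732), (nat_lit 3077766532), (nat_lit 3138222330), (nat_lit 3223901436), (nat_lit 3400929286)], (nat_lit 1271251), (nat_lit 1271251), (nat_lit 1271251), (nat_lit 1271251), (nat_lit 0), (nat_lit 780000), [(nat_lit 1100000), (nat_lit 1785001), (nat_lit 1271251)], [(nat_lit 18), (nat_lit 59), (nat_lit 428), (nat_lit 200), (nat_lit 11)]⟩,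
 ⟨⟨[(nat_lit 140), (nat_lit 180), (nat_lit 200)], [(nat_lit 0), (nat_lit 0), (nat_lit 2835)], [((nat_lit 0), (nat_lit 0), (nat_lit 0)), ((nat_lit 0), (nat_lit 0), (nat_lit 0)), ((nat_lit 363), (nat_lit 1000), (nat_lit 798))], ((nat_lit 0), (nat_lit 0), (nat_lit 0))⟩, (nat_lit 23258), (nat_lit 300), (nat_lit 448), (nat_lit 6560400), (nat_lit 0), [(nat_lit 826728000), (nat_lit 1180872000), (nat_lit 1377600000)], [], [(nat_lit 5492966168), (nat_lit 5292126604), (nat_lit 5543015008), (nat_lit 5311037689), (nat_lit 4486775950), (nat_lit 4291959222), (nat_lit 4503286500), (nat_lit 4288688717)], (nat_lit 0), (nat_lit 0), (nat_lit 0), (nat_lit 0), (nat_lit 0), (nat_lit 0), [], [(nat_lit 32), (nat_lit 67), (nat_lit 401), (nat_lit 175), (nat_lit 9)]⟩⟩) (.trX (nat_lit 4) (nat_lit 0) (nat_lit 2) (nat_lit 53) (nat_lit 90) (nat_lit 100) (nat_lit 290) (.leaf ⟨(nat_lit 868), (nat_lit 62), (nat_lit 0), (nat_lit 70), (nat_lit 0), (nat_lit 3315), (nat_lit 1404), (nat_lit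 955), (nat_lit 0), (nat_lit 0), (nat_lit 433000), [((nat_lit 380), [((nat_lit 24), (nat_lit 1), (nat_lit 439)), ((nat_lit 41), (nat_lit 2), (nat_lit 429))])], ⟨(nat_lit 6), false, true, true, (nat_lit 274), (nat_lit 2236), (nat_lit 2739), [(nat_lit 1603890), (nat_lit 1602558), (nat_lit 1648684), (nat_lit 1648065), (nat_lit 1722017), (nat_lit 1716594), (nat_lit 1766852), (nat_lit 1762142)]⟩, ⟨(nat_lit 5), true, false, true, (nat_lit 204), (nat_lit 2236), (nat_lit 2739), [(nat_lit 1410329), (nat_lit 1408901), (nat_lit 1477581), (nat_lit 1477224), (nat_lit 1543217), (nat_lit 1537186), (nat_lit 1610469), (nat_lit 1605509)]⟩, (nat_lit 5325060), (nat_lit 36952190), (nat_lit 18543745), (nat_lit 11504065), (nat_lit 5), (nat_lit 0), [], [⟨(nat_lit 1), (nat_lit 100), (nat_lit 50), (nat_lit 100), (nat_lit 95756929)⟩], [], [⟨(nat_lit 0), (nat_lit 100), (nat_lit 94), (nat_lit 61), (nat_lit 114036508)⟩],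
 ⟨⟨[(nat_lit 40), (nat_lit 60), (nat_lit 80)], [(nat_lit 0), (nat_lit 1134), (nat_lit 1930)], [((nat_lit 0), (nat_lit 0), (nat_lit 0)), ((nat_lit 1000), (nat_lit 575), (nat_lit 619)), ((nat_lit 1000), (nat_lit 574), (nat_lit 622))], ((nat_lit 57), (nat_lit 100), (nat_lit 64))⟩, (nat_lit 0), (nat_lit 180), (nat_lit 180), (nat_lit 0), (nat_lit 413469), [(nat_lit 1396697605), (nat_lit 1130762504), (nat_lit 1015146400)], [(nat_lit 0), (nat_lit 0), (nat_lit 0)], [(nat_lit 24550075932), (nat_lit 25032369053), (nat_lit 27031912527), (nat_lit 27594332618), (nat_lit 26812345202), (nat_lit 27240373149), (nat_lit 29371199164), (nat_lit 29847768798)], (nat_lit 1271251), (nat_lit 1271251), (nat_lit 1271251), (nat_lit 1271251), (nat_lit 1271251), (nat_lit 1271251), [(nat_lit 490000), (nat_lit 780000), (nat_lit 1100000)], [(nat_lit 2), (nat_lit 44), (nat_lit 203), (nat_lit 0), (nat_lit 7)]⟩,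
 ⟨⟨[(nat_lit 80), (nat_lit 120), (nat_lit 160)], [(nat_lit 0), (nat_lit 0), (nat_lit 2132)], [((nat_lit 0), (nat_lit 0), (nat_lit 0)), ((nat_lit 0), (nat_lit 0), (nat_lit 0)), ((nat_lit 858), (nat_lit 1000), (nat_lit 713))], ((nat_lit 100), (nat_lit 92), (nat_lit 61))⟩, (nat_lit 498687), (nat_lit 848), (nat_lit 848), (nat_lit 0), (nat_lit 1289003), [(nat_lit 618816000), (nat_lit 1051776000), (nat_lit 1567104000)], [], [(nat_lit 4183888512), (nat_lit 4220498112), (nat_lit 4401538404), (nat_lit 4695835764), (nat_lit 3423091872), (nat_lit 3443081892), (nat_lit 3484812768), (nat_lit 3552482976)], (nat_lit 1271251), (nat_lit 1271251), (nat_lit 1271251), (nat_lit 1271251), (nat_lit 0), (nat_lit 780000), [(nat_lit 1100000), (nat_lit 1785001), (nat_lit 1271251)], [(nat_lit 18), (nat_lit 59), (nat_lit 428), (nat_lit 200), (nat_lit 11)]⟩,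
 ⟨⟨[(nat_lit 140), (nat_lit 180), (nat_lit 200)], [(nat_lit 0), (nat_lit 0), (nat_lit 2835)], [((nat_lit 0), (nat_lit 0), (nat_lit 0)), ((nat_lit 0), (nat_lit 0), (nat_lit 0)), ((nat_lit 363), (nat_lit 1000), (nat_lit 798))], ((nat_lit 0), (nat_lit 0), (nat_lit 0))⟩, (nat_lit 19259), (nat_lit 300), (nat_lit 448), (nat_lit 5467004), (nat_lit 0), [(nat_lit 688940000), (nat_lit 984060000), (nat_lit 1148000000)], [], [(nat_lit 4578791380), (nat_lit 4410566660), (nat_lit 4595163760), (nat_lit 4406614256), (nat_lit 3735627289), (nat_lit 3572457824), (nat_lit 3728853497), (nat_lit 3554572993)], (nat_lit 0), (nat_lit 0), (nat_lit 0), (nat_lit 0), (nat_lit 0), (nat_lit 0), [], [(nat_lit 32), (nat_lit 67), (nat_lit 373), (nat_lit 150), (nat_lit 8)]⟩⟩)))) (.trX (nat_lit 4) (nat_lit 3) (nat_lit 5) (nat_lit 87) (nat_lit 95) (nat_lit 100) (nat_lit 300) (.spl (nat_lit 1) (nat_lit 260) (.trX (nat_lit 3) (nat_lit 0) (nat_lit 1) (nat_lit 63) (nat_lit 61) (nat_lit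 100) (nat_lit 370) (.spl (nat_lit 4) (nat_lit 200) (.leaf ⟨(nat_lit 866), (nat_lit 129), (nat_lit 0), (nat_lit 5), (nat_lit 0), (nat_lit 3252), (nat_lit 1270), (nat_lit 178), (nat_lit 0), (nat_lit 0), (nat_lit 471000), [((nat_lit 380), [((nat_lit 24), (nat_lit 1), (nat_lit 243)), ((nat_lit 41), (nat_lit 2), (nat_lit 623))])], ⟨(nat_lit 8), false, true, true, (nat_lit 308), (nat_lit 2236), (nat_lit 3163), [(nat_lit 1727168), (nat_lit 1716594), (nat_lit 1749323), (nat_lit 1739368), (nat_lit 1803360), (nat_lit 1787863), (nat_lit 1825515), (nat_lit 1810637)]⟩, ⟨(nat_lit 3), true, false, true, (nat_lit 154), (nat_lit 2236), (nat_lit 3163), [(nat_lit 1289472), (nat_lit 1294870), (nat_lit 1355794), (nat_lit 1363050), (nat_lit 1411379), (nat_lit 1408901), (nat_lit 1477844), (nat_lit 1477224)]⟩, (nat_lit 5030493), (nat_lit 36929252), (nat_lit 22640010), (nat_lit 7430738), (nat_lit 3), (nat_lit 0), [⟨(nat_lit 1), (nat_lit 71), (nat_lit 54), (nat_lit 100),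 (nat_lit 342621356)⟩], [], [], [⟨(nat_lit 0), (nat_lit 100), (nat_lit 70), (nat_lit 58), (nat_lit 30790952)⟩],
 ⟨⟨[(nat_lit 40), (nat_lit 60), (nat_lit 80)], [(nat_lit 0), (nat_lit 832), (nat_lit 1534)], [((nat_lit 0), (nat_lit 0), (nat_lit 0)), ((nat_lit 1000), (nat_lit 659), (nat_lit 528)), ((nat_lit 1000), (nat_lit 650), (nat_lit 549))], ((nat_lit 63), (nat_lit 100), (nat_lit 62))⟩, (nat_lit 0), (nat_lit 202), (nat_lit 202), (nat_lit 0), (nat_lit 387094), [(nat_lit 1381754410), (nat_lit 1043977805), (nat_lit 827216800)], [(nat_lit 0), (nat_lit 0), (nat_lit 0)], [(nat_lit 25580415208), (nat_lit 26718344738), (nat_lit 28276064527), (nat_lit 29366280793), (nat_lit 26628168428), (nat_lit 27529327522), (nat_lit 28934981238), (nat_lit 29917052222)], (nat_lit 1271251), (nat_lit 1271251), (nat_lit 1271251), (nat_lit 1271251), (nat_lit 780000), (nat_lit 1435001), [(nat_lit 490000), (nat_lit 780000), (nat_lit 1100000)], [(nat_lit 2), (nat_lit 44), (nat_lit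 260), (nat_lit 50), (nat_lit 9)]⟩,
 ⟨⟨[(nat_lit 80), (nat_lit 120), (nat_lit 160)], [(nat_lit 0), (nat_lit 0), (nat_lit 2132)], [((nat_lit 0), (nat_lit 0), (nat_lit 0)), ((nat_lit 0), (nat_lit 0), (nat_lit 0)), ((nat_lit 858), (nat_lit 1000), (nat_lit 713))], ((nat_lit 100), (nat_lit 92), (nat_lit 61))⟩, (nat_lit 434657), (nat_lit 827), (nat_lit 827), (nat_lit 0), (nat_lit 1279878), [(nat_lit 628192000), (nat_lit 1067712000), (nat_lit 1590848000)], [], [(nat_lit 5139770648), (nat_lit 5148404196), (nat_lit 5258728938), (nat_lit 5259671425), (nat_lit 4448516892), (nat_lit 4452163513), (nat_lit 4547684250), (nat_lit 4544421526)], (nat_lit 1271251), (nat_lit 1271251), (nat_lit 1271251), (nat_lit 1271251), (nat_lit 0), (nat_lit 780000), [(nat_lit 1100000), (nat_lit 1785001), (nat_lit 1271251)], [(nat_lit 18), (nat_lit 59), (nat_lit 317), (nat_lit 100), (nat_lit 8)]⟩,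
 ⟨⟨[(nat_lit 140), (nat_lit 180), (nat_lit 200)], [(nat_lit 0), (nat_lit 0), (nat_lit 2835)], [((nat_lit 0), (nat_lit 0), (nat_lit 0)), ((nat_lit 0), (nat_lit 0), (nat_lit 0)), ((nat_lit 363), (nat_lit 1000), (nat_lit 798))], ((nat_lit 0), (nat_lit 0), (nat_lit 0))⟩, (nat_lit 13181), (nat_lit 300), (nat_lit 491), (nat_lit 390500), (nat_lit 0), [(nat_lit 49210000), (nat_lit 70290000), (nat_lit 82000000)], [], [(nat_lit 424472304), (nat_lit 384727933), (nat_lit 370464806), (nat_lit 330487583), (nat_lit 245971911), (nat_lit 209506642), (nat_lit 196489600), (nat_lit 159078789)], (nat_lit 0), (nat_lit 0), (nat_lit 0), (nat_lit 0), (nat_lit 0), (nat_lit 0), [], [(nat_lit 32), (nat_lit 67), (nat_lit 345), (nat_lit 125), (nat_lit 8)]⟩⟩) (.trZ (nat_lit 3) (nat_lit 4) (nat_lit 5) (nat_lit 100) (nat_lit 80) (nat_lit 60) (nat_lit 40) (.leaf ⟨(nat_lit 895), (nat_lit 0), (nat_lit 0), (nat_lit 105), (nat_lit 0), (nat_lit 3269), (nat_lit 1079), (nat_lit 2520),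 (nat_lit 0), (nat_lit 0), (nat_lit 421000), [((nat_lit 380), [((nat_lit 24), (nat_lit 1), (nat_lit 580)), ((nat_lit 41), (nat_lit 2), (nat_lit 315))])], ⟨(nat_lit 8), false, true, true, (nat_lit 308), (nat_lit 2236), (nat_lit 3163), [(nat_lit 1727168), (nat_lit 1716594), (nat_lit 1749323), (nat_lit 1739368), (nat_lit 1803360), (nat_lit 1787863), (nat_lit 1825515), (nat_lit 1810637)]⟩, ⟨(nat_lit 5), true, false, true, (nat_lit 207), (nat_lit 2236), (nat_lit 3163), [(nat_lit 1411379), (nat_lit 1408901), (nat_lit 1477844), (nat_lit 1477224), (nat_lit 1563762), (nat_lit 1551440), (nat_lit 1630227), (nat_lit 1619763)]⟩, (nat_lit 5430394), (nat_lit 34419065), (nat_lit 21377843), (nat_lit 11203092), (nat_lit 0), (nat_lit 0), [⟨(nat_lit 1), (nat_lit 71), (nat_lit 54), (nat_lit 100), (nat_lit 63782898)⟩], [], [], [⟨(nat_lit 0), (nat_lit 100), (nat_lit 71), (nat_lit 90), (nat_lit 230558493)⟩],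
 ⟨⟨[(nat_lit 40), (nat_lit 60), (nat_lit 80)], [(nat_lit 0), (nat_lit 832), (nat_lit 1534)], [((nat_lit 0), (nat_lit 0), (nat_lit 0)), ((nat_lit 1000), (nat_lit 659), (nat_lit 528)), ((nat_lit 1000), (nat_lit 650), (nat_lit 549))], ((nat_lit 63), (nat_lit 100), (nat_lit 62))⟩, (nat_lit 751), (nat_lit 184), (nat_lit 184), (nat_lit 0), (nat_lit 387094), [(nat_lit 1394606001), (nat_lit 1233402728), (nat_lit 1029160000)], [(nat_lit 0), (nat_lit 0), (nat_lit 0)], [(nat_lit 26720901080), (nat_lit 27546419731), (nat_lit 28955370511), (nat_lit 29939396089), (nat_lit 29173037464), (nat_lit 30101558863), (nat_lit 31282048544), (nat_lit 32104423734)], (nat_lit 1271251), (nat_lit 1271251), (nat_lit 1271251), (nat_lit 1271251), (nat_lit 1271251), (nat_lit 1271251), [(nat_lit 490000), (nat_lit 780000), (nat_lit 1100000)], [(nat_lit 2), (nat_lit 44), (nat_lit 203), (nat_lit 0), (nat_lit 6)]⟩,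
 ⟨⟨[(nat_lit 80), (nat_lit 120), (nat_lit 160)], [(nat_lit 0), (nat_lit 0), (nat_lit 2132)], [((nat_lit 0), (nat_lit 0), (nat_lit 0)), ((nat_lit 0), (nat_lit 0), (nat_lit 0)), ((nat_lit 858), (nat_lit 1000), (nat_lit 713))], ((nat_lit 100), (nat_lit 92), (nat_lit 61))⟩, (nat_lit 325244), (nat_lit 798), (nat_lit 798), (nat_lit 0), (nat_lit 1279878), [(nat_lit 492240000), (nat_lit 836640000), (nat_lit 1246560000)], [], [(nat_lit 3329824066), (nat_lit 3348257712), (nat_lit 3733073100), (nat_lit 3820834370), (nat_lit 2958831672), (nat_lit 2973151090), (nat_lit 3185860895), (nat_lit 3266381555)], (nat_lit 1271251), (nat_lit 1271251), (nat_lit 1271251), (nat_lit 1271251), (nat_lit 230000), (nat_lit 780000), [(nat_lit 1100000), (nat_lit 1785001), (nat_lit 1271251)], [(nat_lit 18), (nat_lit 59), (nat_lit 317), (nat_lit 100), (nat_lit 8)]⟩,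
 ⟨⟨[(nat_lit 140), (nat_lit 180), (nat_lit 200)], [(nat_lit 0), (nat_lit 0), (nat_lit 2835)], [((nat_lit 0), (nat_lit 0), (nat_lit 0)), ((nat_lit 0), (nat_lit 0), (nat_lit 0)), ((nat_lit 363), (nat_lit 1000), (nat_lit 798))], ((nat_lit 0), (nat_lit 0), (nat_lit 0))⟩, (nat_lit 28889), (nat_lit 300), (nat_lit 343), (nat_lit 8200500), (nat_lit 0), [(nat_lit 1033410000), (nat_lit 1476090000), (nat_lit 1722000000)], [], [(nat_lit 5593659435), (nat_lit 5349636810), (nat_lit 6388623150), (nat_lit 6013801317), (nat_lit 4193870424), (nat_lit 3921018465), (nat_lit 4872165270), (nat_lit 4521745358)], (nat_lit 0), (nat_lit 0), (nat_lit 0), (nat_lit 0), (nat_lit 0), (nat_lit 0), [], [(nat_lit 32), (nat_lit 67), (nat_lit 373), (nat_lit 150), (nat_lit 8)]⟩⟩)))) (.leaf ⟨(nat_lit 694), (nat_lit 244), (nat_lit 0), (nat_lit 62), (nat_lit 0), (nat_lit 3404), (nat_lit 2081), (nat_lit 1438), (nat_lit 0), (nat_lit 0), (nat_lit 351700), [((nat_lit 380), [((nat_lit 24),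 (nat_lit 0), (nat_lit 42)), ((nat_lit 24), (nat_lit 1), (nat_lit 250)), ((nat_lit 41), (nat_lit 2), (nat_lit 402))])], ⟨(nat_lit 8), false, true, true, (nat_lit 320), (nat_lit 2236), (nat_lit 3163), [(nat_lit 1749323), (nat_lit 1739368), (nat_lit 1771478), (nat_lit 1762142), (nat_lit 1840753), (nat_lit 1824891), (nat_lit 1862908), (nat_lit 1847666)]⟩, ⟨(nat_lit 3), true, false, true, (nat_lit 183), (nat_lit 2236), (nat_lit 3163), [(nat_lit 1289472), (nat_lit 1294870), (nat_lit 1355794), (nat_lit 1363050), (nat_lit 1563762), (nat_lit 1551440), (nat_lit 1630227), (nat_lit 1619763)]⟩, (nat_lit 5286642), (nat_lit 34704652), (nat_lit 22973635), (nat_lit 9321713), (nat_lit 3), (nat_lit 0), [⟨(nat_lit 1), (nat_lit 65), (nat_lit 56), (nat_lit 100), (nat_lit 22663664)⟩], [⟨(nat_lit 1), (nat_lit 99), (nat_lit 54), (nat_lit 100), (nat_lit 1311860)⟩], [], [⟨(nat_lit 0), (nat_lit 100), (nat_lit 66), (nat_lit 78), (nat_lit 158342569)⟩],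
 ⟨⟨[(nat_lit 40), (nat_lit 60), (nat_lit 80)], [(nat_lit 0), (nat_lit 832), (nat_lit 1534)], [((nat_lit 0), (nat_lit 0), (nat_lit 0)), ((nat_lit 1000), (nat_lit 659), (nat_lit 528)), ((nat_lit 1000), (nat_lit 650), (nat_lit 549))], ((nat_lit 63), (nat_lit 100), (nat_lit 62))⟩, (nat_lit 0), (nat_lit 211), (nat_lit 211), (nat_lit 0), (nat_lit 415662), [(nat_lit 1478645601), (nat_lit 1501178508), (nat_lit 1724342692)], [(nat_lit 0), (nat_lit 0), (nat_lit 0)], [(nat_lit 26534504306), (nat_lit 27425583146), (nat_lit 29077933314), (nat_lit 30156890308), (nat_lit 29535659253), (nat_lit 30245492758), (nat_lit 31868438473), (nat_lit 32679911331)], (nat_lit 1271251), (nat_lit 1271251), (nat_lit 1271251), (nat_lit 1271251), (nat_lit 780000), (nat_lit 2253751), [(nat_lit 490000), (nat_lit 780000), (nat_lit 1100000)], [(nat_lit 2), (nat_lit 44), (nat_lit 289), (nat_lit 75), (nat_lit 11)]⟩,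
 ⟨⟨[(nat_lit 80), (nat_lit 120), (nat_lit 140)], [(nat_lit 0), (nat_lit 528), (nat_lit 1572)], [((nat_lit 0), (nat_lit 0), (nat_lit 0)), ((nat_lit 1000), (nat_lit 959), (nat_lit 206)), ((nat_lit 966), (nat_lit 1000), (nat_lit 679))], ((nat_lit 100), (nat_lit 99), (nat_lit 63))⟩, (nat_lit 2053076), (nat_lit 720), (nat_lit 720), (nat_lit 0), (nat_lit 1185843), [(nat_lit 1434528000), (nat_lit 2438208000), (nat_lit 3011652000)], [], [(nat_lit 10303144860), (nat_lit 10394125376), (nat_lit 10841259772), (nat_lit 10946675806), (nat_lit 9442853840), (nat_lit 9538083588), (nat_lit 9965780332), (nat_lit 10057795744)], (nat_lit 1271251), (nat_lit 1271251), (nat_lit 1271251), (nat_lit 1271251), (nat_lit 0), (nat_lit 780000), [(nat_lit 1100000), (nat_lit 1785001), (nat_lit 1271251)], [(nat_lit 17), (nat_lit 58), (nat_lit 317), (nat_lit 100), (nat_lit 8)]⟩,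
 ⟨⟨[(nat_lit 140), (nat_lit 180), (nat_lit 200)], [(nat_lit 0), (nat_lit 0), (nat_lit 2835)], [((nat_lit 0), (nat_lit 0), (nat_lit 0)), ((nat_lit 0), (nat_lit 0), (nat_lit 0)), ((nat_lit 363), (nat_lit 1000), (nat_lit 798))], ((nat_lit 0), (nat_lit 0), (nat_lit 0))⟩, (nat_lit 17058), (nat_lit 300), (nat_lit 491), (nat_lit 4842203), (nat_lit 0), [(nat_lit 610204000), (nat_lit 871596000), (nat_lit 1016800000)], [], [(nat_lit 4692959052), (nat_lit 4396703296), (nat_lit 4346369258), (nat_lit 4119467585), (nat_lit 3288357210), (nat_lit 3017839067), (nat_lit 2863514619), (nat_lit 2666182179)], (nat_lit 0), (nat_lit 0), (nat_lit 0), (nat_lit 0), (nat_lit 0), (nat_lit 0), [], [(nat_lit 32), (nat_lit 67), (nat_lit 373), (nat_lit 150), (nat_lit 8)]⟩⟩))))) (.spl (nat_lit 6) (nat_lit 20) (.leaf ⟨(nat_lit 0), (nat_lit 0), (nat_lit 215), (nat_lit 785), (nat_lit 0), (nat_lit 4417), (nat_lit 7717), (nat_lit 15225), (nat_lit 0), (nat_lit 0), (nat_lit 0), [], Pd.none,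 Pd.none, (nat_lit 0), (nat_lit 1), (nat_lit 0), (nat_lit 0), (nat_lit 0), (nat_lit 6), [], [], [⟨(nat_lit 0), (nat_lit 100), (nat_lit 98), (nat_lit 10), (nat_lit 1224672200)⟩], [],
 ⟨⟨[(nat_lit 40), (nat_lit 60)], [(nat_lit 0), (nat_lit 832)], [((nat_lit 0), (nat_lit 0), (nat_lit 0)), ((nat_lit 1000), (nat_lit 659), (nat_lit 528))], ((nat_lit 68), (nat_lit 100), (nat_lit 49))⟩, (nat_lit 1549403), (nat_lit 186), (nat_lit 186), (nat_lit 0), (nat_lit 394660), [(nat_lit 2032000016), (nat_lit 3282000000)], [], [(nat_lit 23206338586), (nat_lit 24423703861), (nat_lit 30685669160), (nat_lit 31896466584), (nat_lit 29292733952), (nat_lit 30425968348), (nat_lit 34423196273), (nat_lit 35229460478)], (nat_lit 1271251), (nat_lit 1271251), (nat_lit 1271251), (nat_lit 1271251), (nat_lit 780000), (nat_lit 2581251), [(nat_lit 490000), (nat_lit 780000)], [(nat_lit 1), (nat_lit 38), (nat_lit 203), (nat_lit 0), (nat_lit 9)]⟩,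
 ⟨⟨[(nat_lit 80), (nat_lit 120), (nat_lit 140)], [(nat_lit 0), (nat_lit 0), (nat_lit 1164)], [((nat_lit 0), (nat_lit 0), (nat_lit 0)), ((nat_lit 0), (nat_lit 0), (nat_lit 0)), ((nat_lit 941), (nat_lit 1000), (nat_lit 576))], ((nat_lit 100), (nat_lit 99), (nat_lit 44))⟩, (nat_lit 1592144), (nat_lit 658), (nat_lit 658), (nat_lit 0), (nat_lit 1033987), [(nat_lit 3680080000), (nat_lit 6254880000), (nat_lit 7725970000)], [], [(nat_lit 27267300416), (nat_lit 27756807780), (nat_lit 31469537323), (nat_lit 33847065675), (nat_lit 23067843542), (nat_lit 23458344479), (nat_lit 24970007287), (nat_lit 25884992002)], (nat_lit 1271251), (nat_lit 1271251), (nat_lit 1271251), (nat_lit 1271251), (nat_lit 0), (nat_lit 780000), [(nat_lit 1100000), (nat_lit 1785001), (nat_lit 1271251)], [(nat_lit 17), (nat_lit 58), (nat_lit 428), (nat_lit 200), (nat_lit 12)]⟩,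
 ⟨⟨[(nat_lit 120), (nat_lit 140), (nat_lit 160)], [(nat_lit 0), (nat_lit 266), (nat_lit 862)], [((nat_lit 0), (nat_lit 0), (nat_lit 0)), ((nat_lit 960), (nat_lit 1000), (nat_lit 200)), ((nat_lit 874), (nat_lit 1000), (nat_lit 406))], ((nat_lit 100), (nat_lit 86), (nat_lit 44))⟩, (nat_lit 14952640), (nat_lit 246), (nat_lit 246), (nat_lit 0), (nat_lit 0), [(nat_lit 7968000000), (nat_lit 9842000000), (nat_lit 11872000000)], [], [(nat_lit 17712833023), (nat_lit 20322650033), (nat_lit 39430317394), (nat_lit 41648974332), (nat_lit 7604441298), (nat_lit 9391229223), (nat_lit 23565189638), (nat_lit 25754434638)], (nat_lit 0), (nat_lit 0), (nat_lit 0), (nat_lit 0), (nat_lit 0), (nat_lit 0), [], [(nat_lit 27), (nat_lit 62), (nat_lit 401), (nat_lit 175), (nat_lit 11)]⟩⟩) (.leaf ⟨(nat_lit 401), (nat_lit 323), (nat_lit 0), (nat_lit 276), (nat_lit 0), (nat_lit 3533), (nat_lit 4128), (nat_lit 4887), (nat_lit 0), (nat_lit 0), (nat_lit 232200), [((nat_lit 380),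 [((nat_lit 24), (nat_lit 0), (nat_lit 24)), ((nat_lit 41), (nat_lit 2), (nat_lit 377))])], ⟨(nat_lit 6), false, true, true, (nat_lit 292), (nat_lit 2236), (nat_lit 3163), [(nat_lit 1605240), (nat_lit 1602541), (nat_lit 1649422), (nat_lit 1647962), (nat_lit 1818598), (nat_lit 1802117), (nat_lit 1862908), (nat_lit 1847666)]⟩, ⟨(nat_lit 4), true, false, true, (nat_lit 218), (nat_lit 2236), (nat_lit 3163), [(nat_lit 1355794), (nat_lit 1363050), (nat_lit 1399976), (nat_lit 1408471), (nat_lit 1691180), (nat_lit 1676779), (nat_lit 1735490), (nat_lit 1722327)]⟩, (nat_lit 5462427), (nat_lit 34956729), (nat_lit 19769616), (nat_lit 12273655), (nat_lit 4), (nat_lit 0), [], [], [⟨(nat_lit 0), (nat_lit 100), (nat_lit 98), (nat_lit 10), (nat_lit 380896260)⟩], [⟨(nat_lit 0), (nat_lit 100), (nat_lit 84), (nat_lit 68), (nat_lit 191348)⟩],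
 ⟨⟨[(nat_lit 40), (nat_lit 60), (nat_lit 80)], [(nat_lit 0), (nat_lit 832), (nat_lit 1534)], [((nat_lit 0), (nat_lit 0), (nat_lit 0)), ((nat_lit 1000), (nat_lit 659), (nat_lit 528)), ((nat_lit 1000), (nat_lit 650), (nat_lit 549))], ((nat_lit 63), (nat_lit 100), (nat_lit 62))⟩, (nat_lit 772725), (nat_lit 172), (nat_lit 172), (nat_lit 0), (nat_lit 261278), [(nat_lit 1646899201), (nat_lit 2172603215), (nat_lit 2829140800)], [(nat_lit 0), (nat_lit 0), (nat_lit 0)], [(nat_lit 23071712078), (nat_lit 24198096256), (nat_lit 29282669666), (nat_lit 30378415816), (nat_lit 28634929359), (nat_lit 29472150691), (nat_lit 33283963484), (nat_lit 34035056751)], (nat_lit 1271251), (nat_lit 1271251), (nat_lit 1271251), (nat_lit 1271251), (nat_lit 780000), (nat_lit 2581251), [(nat_lit 490000), (nat_lit 780000), (nat_lit 1100000)], [(nat_lit 2), (nat_lit 44), (nat_lit 317), (nat_lit 100), (nat_lit 13)]⟩,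
 ⟨⟨[(nat_lit 80), (nat_lit 120), (nat_lit 160)], [(nat_lit 0), (nat_lit 0), (nat_lit 2132)], [((nat_lit 0), (nat_lit 0), (nat_lit 0)), ((nat_lit 0), (nat_lit 0), (nat_lit 0)), ((nat_lit 858), (nat_lit 1000), (nat_lit 713))], ((nat_lit 100), (nat_lit 92), (nat_lit 61))⟩, (nat_lit 1782491), (nat_lit 541), (nat_lit 541), (nat_lit 0), (nat_lit 637083), [(nat_lit 2808112000), (nat_lit 4772832000), (nat_lit 7111328000)], [], [(nat_lit 22844354076), (nat_lit 23575232708), (nat_lit 25785104090), (nat_lit 26325644109), (nat_lit 20942687398), (nat_lit 21580575484), (nat_lit 23528159502), (nat_lit 23911483771)], (nat_lit 1271251), (nat_lit 1271251), (nat_lit 1271251), (nat_lit 1271251), (nat_lit 0), (nat_lit 780000), [(nat_lit 1100000), (nat_lit 1785001), (nat_lit 1271251)], [(nat_lit 18), (nat_lit 59), (nat_lit 428), (nat_lit 200), (nat_lit 11)]⟩,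
 ⟨⟨[(nat_lit 120), (nat_lit 160), (nat_lit 180)], [(nat_lit 0), (nat_lit 533), (nat_lit 2066)], [((nat_lit 0), (nat_lit 0), (nat_lit 0)), ((nat_lit 960), (nat_lit 1000), (nat_lit 200)), ((nat_lit 615), (nat_lit 1000), (nat_lit 729))], ((nat_lit 100), (nat_lit 74), (nat_lit 60))⟩, (nat_lit 646244), (nat_lit 300), (nat_lit 367), (nat_lit 18326400), (nat_lit 0), [(nat_lit 2199168000), (nat_lit 3276672000), (nat_lit 3880008000)], [], [(nat_lit 14035143672), (nat_lit 13959717852), (nat_lit 14093587557), (nat_lit 14072824991), (nat_lit 9782219355), (nat_lit 9700695027), (nat_lit 9741065139), (nat_lit 9405150819)], (nat_lit 0), (nat_lit 0), (nat_lit 0), (nat_lit 0), (nat_lit 0), (nat_lit 0), [], [(nat_lit 28), (nat_lit 65), (nat_lit 401), (nat_lit 175), (nat_lit 10)]⟩⟩))))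
noncomputable def c17_12 : Tr Lf :=
 (.spl (nat_lit 6) (nat_lit 20) (.spl (nat_lit 3) (nat_lit 320) (.spl (nat_lit 2) (nat_lit 180) (.trX (nat_lit 4) (nat_lit 0) (nat_lit 2) (nat_lit 60) (nat_lit 86) (nat_lit 100) (nat_lit 310) (.leaf ⟨(nat_lit 798), (nat_lit 119), (nat_lit 0), (nat_lit 83), (nat_lit 0), (nat_lit 3400), (nat_lit 1722), (nat_lit 1765), (nat_lit 0), (nat_lit 0), (nat_lit 444850), [((nat_lit 380), [((nat_lit 24), (nat_lit 0), (nat_lit 97)), ((nat_lit 41), (nat_lit 2), (nat_lit 701))])], ⟨(nat_lit 7), false, true, false, (nat_lit 292), (nat_lit 2236), (nat_lit 3163), [(nat_lit 1649422), (nat_lit 1647962), (nat_lit 1693606), (nat_lit 1693384), (nat_lit 1771478), (nat_lit 1762142), (nat_lit 1815720), (nat_lit 1807623)]⟩, ⟨(nat_lit 3), true, false, true, (nat_lit 186), (nat_lit 2236), (nat_lit 3163), [(nat_lit 1289472), (nat_lit 1294870), (nat_lit 1355794), (nat_lit 1363050), (nat_lit 1579000), (nat_lit 1565693), (nat_lit 1645465), (nat_lit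 1634017)]⟩, (nat_lit 5258792), (nat_lit 36549551), (nat_lit 20515752), (nat_lit 9934697), (nat_lit 3), (nat_lit 0), [], [], [], [⟨(nat_lit 0), (nat_lit 100), (nat_lit 92), (nat_lit 47), (nat_lit 146102728)⟩],
 ⟨⟨[(nat_lit 40), (nat_lit 60)], [(nat_lit 0), (nat_lit 832)], [((nat_lit 0), (nat_lit 0), (nat_lit 0)), ((nat_lit 1000), (nat_lit 659), (nat_lit 528))], ((nat_lit 68), (nat_lit 100), (nat_lit 49))⟩, (nat_lit 0), (nat_lit 192), (nat_lit 192), (nat_lit 0), (nat_lit 485090), [(nat_lit 1418665614), (nat_lit 1118883600)], [(nat_lit 0), (nat_lit 0)], [(nat_lit 22961438470), (nat_lit 24085714470), (nat_lit 25922011870), (nat_lit 26914712100), (nat_lit 27338977570), (nat_lit 28168689970), (nat_lit 29623297750), (nat_lit 30545256125)], (nat_lit 1271251), (nat_lit 1271251), (nat_lit 1271251), (nat_lit 1271251), (nat_lit 780000), (nat_lit 2335626), [(nat_lit 490000), (nat_lit 780000)], [(nat_lit 1), (nat_lit 38), (nat_lit 203), (nat_lit 0), (nat_lit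 9)]⟩,
 ⟨⟨[(nat_lit 60), (nat_lit 100), (nat_lit 120)], [(nat_lit 0), (nat_lit 0), (nat_lit 1164)], [((nat_lit 0), (nat_lit 0), (nat_lit 0)), ((nat_lit 0), (nat_lit 0), (nat_lit 0)), ((nat_lit 1000), (nat_lit 933), (nat_lit 572))], ((nat_lit 92), (nat_lit 100), (nat_lit 44))⟩, (nat_lit 364169), (nat_lit 631), (nat_lit 631), (nat_lit 0), (nat_lit 1125852), [(nat_lit 662964000), (nat_lit 1262500000), (nat_lit 1609536000)], [], [(nat_lit 6212665020), (nat_lit 6427570760), (nat_lit 6609036900), (nat_lit 7192589752), (nat_lit 5365156780), (nat_lit 5566962472), (nat_lit 5719969652), (nat_lit 5872976832)], (nat_lit 1271251), (nat_lit 1271251), (nat_lit 1271251), (nat_lit 1271251), (nat_lit 0), (nat_lit 780000), [(nat_lit 780000), (nat_lit 1435001), (nat_lit 1271251)], [(nat_lit 10), (nat_lit 54), (nat_lit 253), (nat_lit 30), (nat_lit 8)]⟩,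
 ⟨⟨[(nat_lit 140), (nat_lit 160), (nat_lit 180)], [(nat_lit 0), (nat_lit 0), (nat_lit 799)], [((nat_lit 0), (nat_lit 0), (nat_lit 0)), ((nat_lit 0), (nat_lit 0), (nat_lit 0)), ((nat_lit 728), (nat_lit 1000), (nat_lit 454))], ((nat_lit 100), (nat_lit 71), (nat_lit 48))⟩, (nat_lit 260994), (nat_lit 300), (nat_lit 392), (nat_lit 6158600), (nat_lit 0), [(nat_lit 816886000), (nat_lit 985376000), (nat_lit 1166814000)], [], [(nat_lit 4711037060), (nat_lit 4468302646), (nat_lit 4588277489), (nat_lit 4362188310), (nat_lit 3124786718), (nat_lit 2901784068), (nat_lit 2989031485), (nat_lit 2680275231)], (nat_lit 0), (nat_lit 0), (nat_lit 0), (nat_lit 0), (nat_lit 0), (nat_lit 0), [], [(nat_lit 31), (nat_lit 65), (nat_lit 401), (nat_lit 175), (nat_lit 10)]⟩⟩)) (.leaf ⟨(nat_lit 0), (nat_lit 0), (nat_lit 0), (nat_lit 1000), (nat_lit 0), (nat_lit 4752), (nat_lit 8991), (nat_lit 15404), (nat_lit 0), (nat_lit 0), (nat_lit 0), [], Pd.none, Pd.none, (nat_lit 0), (nat_lit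 1), (nat_lit 0), (nat_lit 0), (nat_lit 0), (nat_lit 0), [], [], [⟨(nat_lit 0), (nat_lit 100), (nat_lit 92), (nat_lit 31), (nat_lit 1491844232)⟩], [],
 ⟨⟨[(nat_lit 40), (nat_lit 60)], [(nat_lit 0), (nat_lit 832)], [((nat_lit 0), (nat_lit 0), (nat_lit 0)), ((nat_lit 1000), (nat_lit 659), (nat_lit 528))], ((nat_lit 68), (nat_lit 100), (nat_lit 49))⟩, (nat_lit 0), (nat_lit 187), (nat_lit 187), (nat_lit 0), (nat_lit 462654), [(nat_lit 2032000005), (nat_lit 3282000000)], [], [(nat_lit 23493106428), (nat_lit 24758828288), (nat_lit 27206170752), (nat_lit 28708554488), (nat_lit 29614494584), (nat_lit 30787426396), (nat_lit 32222593760), (nat_lit 33200575620)], (nat_lit 1271251), (nat_lit 1271251), (nat_lit 1271251), (nat_lit 1271251), (nat_lit 780000), (nat_lit 2581251), [(nat_lit 490000), (nat_lit 780000)], [(nat_lit 1), (nat_lit 38), (nat_lit 203), (nat_lit 0), (nat_lit 9)]⟩,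
 ⟨⟨[(nat_lit 60), (nat_lit 100), (nat_lit 120)], [(nat_lit 0), (nat_lit 0), (nat_lit 1164)], [((nat_lit 0), (nat_lit 0), (nat_lit 0)), ((nat_lit 0), (nat_lit 0), (nat_lit 0)), ((nat_lit 1000), (nat_lit 933), (nat_lit 572))], ((nat_lit 92), (nat_lit 100), (nat_lit 44))⟩, (nat_lit 2164436), (nat_lit 533), (nat_lit 533), (nat_lit 0), (nat_lit 912374), [(nat_lit 3282000000), (nat_lit 6250000000), (nat_lit 7968000000)], [], [(nat_lit 27470963550), (nat_lit 29140078120), (nat_lit 32689917758), (nat_lit 36551411656), (nat_lit 22911104375), (nat_lit 24348505134), (nat_lit 25440106905), (nat_lit 27647243990)], (nat_lit 1271251), (nat_lit 1271251), (nat_lit 1271251), (nat_lit 1271251), (nat_lit 0), (nat_lit 780000), [(nat_lit 780000), (nat_lit 1435001), (nat_lit 1271251)], [(nat_lit 10), (nat_lit 54), (nat_lit 238), (nat_lit 30), (nat_lit 7)]⟩,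
 ⟨⟨[(nat_lit 120), (nat_lit 140), (nat_lit 160)], [(nat_lit 0), (nat_lit 266), (nat_lit 862)], [((nat_lit 0), (nat_lit 0), (nat_lit 0)), ((nat_lit 960), (nat_lit 1000), (nat_lit 200)), ((nat_lit 874), (nat_lit 1000), (nat_lit 406))], ((nat_lit 100), (nat_lit 86), (nat_lit 44))⟩, (nat_lit 15326369), (nat_lit 246), (nat_lit 246), (nat_lit 0), (nat_lit 0), [(nat_lit 7968000000), (nat_lit 9842000000), (nat_lit 11872000000)], [], [(nat_lit 17423701604), (nat_lit 20050095908), (nat_lit 39722807287), (nat_lit 41953309997), (nat_lit 7170627580), (nat_lit 8966360672), (nat_lit 23645454043), (nat_lit 25846811973)], (nat_lit 0), (nat_lit 0), (nat_lit 0), (nat_lit 0), (nat_lit 0), (nat_lit 0), [], [(nat_lit 27), (nat_lit 62), (nat_lit 401), (nat_lit 175), (nat_lit 11)]⟩⟩)) (.trX (nat_lit 4) (nat_lit 3) (nat_lit 5) (nat_lit 87) (nat_lit 95) (nat_lit 100) (nat_lit 300) (.leaf ⟨(nat_lit 583), (nat_lit 343), (nat_lit 0), (nat_lit 74), (nat_lit 0), (nat_lit 3551),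 (nat_lit 2951), (nat_lit 2237), (nat_lit 0), (nat_lit 0), (nat_lit 296950), [((nat_lit 380), [((nat_lit 24), (nat_lit 0), (nat_lit 151)), ((nat_lit 41), (nat_lit 2), (nat_lit 432))])], ⟨(nat_lit 8), false, true, true, (nat_lit 339), (nat_lit 2236), (nat_lit 3163), [(nat_lit 1771478), (nat_lit 1762142), (nat_lit 1815720), (nat_lit 1807623), (nat_lit 1893385), (nat_lit 1876173), (nat_lit 1937695), (nat_lit 1921722)]⟩, ⟨(nat_lit 3), true, false, true, (nat_lit 192), (nat_lit 2236), (nat_lit 3163), [(nat_lit 1289472), (nat_lit 1294870), (nat_lit 1399976), (nat_lit 1408471), (nat_lit 1563762), (nat_lit 1551440), (nat_lit 1674537), (nat_lit 1665312)]⟩, (nat_lit 5364439), (nat_lit 32988488), (nat_lit 24354580), (nat_lit 9656932), (nat_lit 3), (nat_lit 0), [], [], [⟨(nat_lit 0), (nat_lit 100), (nat_lit 88), (nat_lit 37), (nat_lit 18021242)⟩], [⟨(nat_lit 0), (nat_lit 100), (nat_lit 60), (nat_lit 83), (nat_lit 206665202)⟩],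
 ⟨⟨[(nat_lit 40), (nat_lit 60)], [(nat_lit 0), (nat_lit 832)], [((nat_lit 0), (nat_lit 0), (nat_lit 0)), ((nat_lit 1000), (nat_lit 659), (nat_lit 528))], ((nat_lit 68), (nat_lit 100), (nat_lit 49))⟩, (nat_lit 478572), (nat_lit 213), (nat_lit 213), (nat_lit 0), (nat_lit 489174), [(nat_lit 1539574405), (nat_lit 1774279600)], [(nat_lit 0), (nat_lit 0)], [(nat_lit 26136337397), (nat_lit 27115059882), (nat_lit 30475512021), (nat_lit 31507415176), (nat_lit 29444365456), (nat_lit 30402220777), (nat_lit 32915419789), (nat_lit 33693091635)], (nat_lit 1271251), (nat_lit 1271251), (nat_lit 1271251), (nat_lit 1271251), (nat_lit 780000), (nat_lit 2253751), [(nat_lit 490000), (nat_lit 780000)], [(nat_lit 1), (nat_lit 38), (nat_lit 203), (nat_lit 0), (nat_lit 8)]⟩,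
 ⟨⟨[(nat_lit 60), (nat_lit 100), (nat_lit 120)], [(nat_lit 0), (nat_lit 0), (nat_lit 1164)], [((nat_lit 0), (nat_lit 0), (nat_lit 0)), ((nat_lit 0), (nat_lit 0), (nat_lit 0)), ((nat_lit 1000), (nat_lit 933), (nat_lit 572))], ((nat_lit 92), (nat_lit 100), (nat_lit 44))⟩, (nat_lit 1189135), (nat_lit 628), (nat_lit 628), (nat_lit 0), (nat_lit 1125852), [(nat_lit 1368594000), (nat_lit 2606250000), (nat_lit 3322656000)], [], [(nat_lit 16001871734), (nat_lit 16370085640), (nat_lit 17169495116), (nat_lit 17427976848), (nat_lit 14601521312), (nat_lit 14911179396), (nat_lit 15623361188), (nat_lit 15843255892)], (nat_lit 1271251), (nat_lit 1271251), (nat_lit 1271251), (nat_lit 1271251), (nat_lit 0), (nat_lit 780000), [(nat_lit 780000), (nat_lit 1435001), (nat_lit 1271251)], [(nat_lit 10), (nat_lit 54), (nat_lit 262), (nat_lit 30), (nat_lit 8)]⟩,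
 ⟨⟨[(nat_lit 140), (nat_lit 160), (nat_lit 180)], [(nat_lit 0), (nat_lit 0), (nat_lit 799)], [((nat_lit 0), (nat_lit 0), (nat_lit 0)), ((nat_lit 0), (nat_lit 0), (nat_lit 0)), ((nat_lit 728), (nat_lit 1000), (nat_lit 454))], ((nat_lit 100), (nat_lit 71), (nat_lit 48))⟩, (nat_lit 1194212), (nat_lit 300), (nat_lit 392), (nat_lit 5490800), (nat_lit 0), [(nat_lit 728308000), (nat_lit 878528000), (nat_lit 1040292000)], [], [(nat_lit 4362968666), (nat_lit 3935633589), (nat_lit 4037648239), (nat_lit 3763913625), (nat_lit 2294061341), (nat_lit 1892222115), (nat_lit 1964399314), (nat_lit 1541943753)], (nat_lit 0), (nat_lit 0), (nat_lit 0), (nat_lit 0), (nat_lit 0), (nat_lit 0), [], [(nat_lit 31), (nat_lit 65), (nat_lit 401), (nat_lit 175), (nat_lit 10)]⟩⟩))) (.spl (nat_lit 2) (nat_lit 180) (.trX (nat_lit 4) (nat_lit 0) (nat_lit 2) (nat_lit 60) (nat_lit 86) (nat_lit 100) (nat_lit 310) (.leaf ⟨(nat_lit 35), (nat_lit 923), (nat_lit 0), (nat_lit 42), (nat_lit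 0), (nat_lit 4083), (nat_lit 6858), (nat_lit 588), (nat_lit 0), (nat_lit 0), (nat_lit 140000), [((nat_lit 380), [((nat_lit 41), (nat_lit 5), (nat_lit 35))])], ⟨(nat_lit 7), false, true, true, (nat_lit 316), (nat_lit 2236), (nat_lit 3163), [(nat_lit 1649422), (nat_lit 1647962), (nat_lit 1693606), (nat_lit 1693384), (nat_lit 1893385), (nat_lit 1876173), (nat_lit 1937695), (nat_lit 1921722)]⟩, ⟨(nat_lit 3), true, false, true, (nat_lit 186), (nat_lit 2236), (nat_lit 3163), [(nat_lit 1289472), (nat_lit 1294870), (nat_lit 1355794), (nat_lit 1363050), (nat_lit 1579000), (nat_lit 1565693), (nat_lit 1645465), (nat_lit 1634017)]⟩, (nat_lit 5302815), (nat_lit 34869334), (nat_lit 22538931), (nat_lit 9591735), (nat_lit 3), (nat_lit 0), [], [⟨(nat_lit 1), (nat_lit 99), (nat_lit 54), (nat_lit 100), (nat_lit 436102942)⟩], [], [⟨(nat_lit 0), (nat_lit 100), (nat_lit 80), (nat_lit 66), (nat_lit 44406865)⟩],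
 ⟨⟨[(nat_lit 40), (nat_lit 60), (nat_lit 80)], [(nat_lit 0), (nat_lit 832), (nat_lit 1534)], [((nat_lit 0), (nat_lit 0), (nat_lit 0)), ((nat_lit 1000), (nat_lit 659), (nat_lit 528)), ((nat_lit 1000), (nat_lit 650), (nat_lit 549))], ((nat_lit 63), (nat_lit 100), (nat_lit 62))⟩, (nat_lit 1065918), (nat_lit 208), (nat_lit 208), (nat_lit 0), (nat_lit 382993), [(nat_lit 1896298004), (nat_lit 2877456009), (nat_lit 3926274000)], [(nat_lit 0), (nat_lit 0), (nat_lit 0)], [(nat_lit 23898058760), (nat_lit 25028537396), (nat_lit 31396388593), (nat_lit 32490232242), (nat_lit 27850421178), (nat_lit 28703212671), (nat_lit 33864651346), (nat_lit 34660384401)], (nat_lit 1271251), (nat_lit 1271251), (nat_lit 1271251), (nat_lit 1271251), (nat_lit 780000), (nat_lit 2335626), [(nat_lit 490000), (nat_lit 780000), (nat_lit 1100000)], [(nat_lit 2), (nat_lit 44), (nat_lit 317), (nat_lit 100), (nat_lit 13)]⟩,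
 ⟨⟨[(nat_lit 60), (nat_lit 100), (nat_lit 140)], [(nat_lit 0), (nat_lit 0), (nat_lit 2047)], [((nat_lit 0), (nat_lit 0), (nat_lit 0)), ((nat_lit 0), (nat_lit 0), (nat_lit 0)), ((nat_lit 1000), (nat_lit 993), (nat_lit 781))], ((nat_lit 94), (nat_lit 100), (nat_lit 62))⟩, (nat_lit 2595696), (nat_lit 568), (nat_lit 568), (nat_lit 0), (nat_lit 824326), [(nat_lit 3167130000), (nat_lit 6031250000), (nat_lit 9497530000)], [], [(nat_lit 32039033674), (nat_lit 33503624240), (nat_lit 38132780420), (nat_lit 39716167688), (nat_lit 29258652644), (nat_lit 30222175804), (nat_lit 34290684881), (nat_lit 35007083186)], (nat_lit 1271251), (nat_lit 1271251), (nat_lit 1271251), (nat_lit 1271251), (nat_lit 0), (nat_lit 780000), [(nat_lit 780000), (nat_lit 1435001), (nat_lit 1271251)], [(nat_lit 11), (nat_lit 55), (nat_lit 373), (nat_lit 150), (nat_lit 10)]⟩,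
 ⟨⟨[(nat_lit 140), (nat_lit 180), (nat_lit 200)], [(nat_lit 0), (nat_lit 0), (nat_lit 2835)], [((nat_lit 0), (nat_lit 0), (nat_lit 0)), ((nat_lit 0), (nat_lit 0), (nat_lit 0)), ((nat_lit 363), (nat_lit 1000), (nat_lit 798))], ((nat_lit 0), (nat_lit 0), (nat_lit 0))⟩, (nat_lit 11556), (nat_lit 300), (nat_lit 491), (nat_lit 3280200), (nat_lit 0), [(nat_lit 413364000), (nat_lit 590436000), (nat_lit 688800000)], [], [(nat_lit 2892717072), (nat_lit 2790705666), (nat_lit 2776013184), (nat_lit 2655270277), (nat_lit 2371062997), (nat_lit 2267655521), (nat_lit 2238681953), (nat_lit 2126925497)], (nat_lit 0), (nat_lit 0), (nat_lit 0), (nat_lit 0), (nat_lit 0), (nat_lit 0), [], [(nat_lit 32), (nat_lit 67), (nat_lit 401), (nat_lit 175), (nat_lit 9)]⟩⟩)) (.leaf ⟨(nat_lit 0), (nat_lit 575), (nat_lit 0), (nat_lit 425), (nat_lit 0), (nat_lit 4481), (nat_lit 7378), (nat_lit 8034), (nat_lit 0), (nat_lit 0), (nat_lit 0), [], Pd.none, Pd.none, (nat_lit 0), (nat_lit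 1), (nat_lit 0), (nat_lit 0), (nat_lit 4), (nat_lit 0), [], [], [⟨(nat_lit 0), (nat_lit 100), (nat_lit 92), (nat_lit 31), (nat_lit 681274173)⟩], [],
 ⟨⟨[(nat_lit 40), (nat_lit 60), (nat_lit 80)], [(nat_lit 0), (nat_lit 832), (nat_lit 1534)], [((nat_lit 0), (nat_lit 0), (nat_lit 0)), ((nat_lit 1000), (nat_lit 659), (nat_lit 528)), ((nat_lit 1000), (nat_lit 650), (nat_lit 549))], ((nat_lit 63), (nat_lit 100), (nat_lit 62))⟩, (nat_lit 1479048), (nat_lit 195), (nat_lit 195), (nat_lit 0), (nat_lit 332449), [(nat_lit 2032000003), (nat_lit 3282000005), (nat_lit 4688000000)], [], [(nat_lit 23303589860), (nat_lit 24487162577), (nat_lit 32085315051), (nat_lit 33225497641), (nat_lit 29354204640), (nat_lit 30495023020), (nat_lit 35363985439), (nat_lit 36126191626)], (nat_lit 1271251), (nat_lit 1271251), (nat_lit 1271251), (nat_lit 1271251), (nat_lit 780000), (nat_lit 2581251), [(nat_lit 490000), (nat_lit 780000), (nat_lit 1100000)], [(nat_lit 2), (nat_lit 44),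 (nat_lit 317), (nat_lit 100), (nat_lit 13)]⟩,
 ⟨⟨[(nat_lit 60), (nat_lit 100), (nat_lit 140)], [(nat_lit 0), (nat_lit 0), (nat_lit 2047)], [((nat_lit 0), (nat_lit 0), (nat_lit 0)), ((nat_lit 0), (nat_lit 0), (nat_lit 0)), ((nat_lit 1000), (nat_lit 993), (nat_lit 781))], ((nat_lit 94), (nat_lit 100), (nat_lit 62))⟩, (nat_lit 2693141), (nat_lit 476), (nat_lit 476), (nat_lit 0), (nat_lit 632891), [(nat_lit 3282000000), (nat_lit 6250000000), (nat_lit 9842000000)], [], [(nat_lit 32376152669), (nat_lit 33915654960), (nat_lit 39601831012), (nat_lit 41915576208), (nat_lit 28963685250), (nat_lit 30303904372), (nat_lit 34593054606), (nat_lit 35333590316)], (nat_lit 1271251), (nat_lit 1271251), (nat_lit 1271251), (nat_lit 1271251), (nat_lit 0), (nat_lit 780000), [(nat_lit 780000), (nat_lit 1435001), (nat_lit 1271251)], [(nat_lit 11), (nat_lit 55), (nat_lit 373), (nat_lit 150), (nat_lit 10)]⟩,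
 ⟨⟨[(nat_lit 120), (nat_lit 160), (nat_lit 180)], [(nat_lit 0), (nat_lit 533), (nat_lit 2066)], [((nat_lit 0), (nat_lit 0), (nat_lit 0)), ((nat_lit 960), (nat_lit 1000), (nat_lit 200)), ((nat_lit 615), (nat_lit 1000), (nat_lit 729))], ((nat_lit 100), (nat_lit 74), (nat_lit 60))⟩, (nat_lit 995122), (nat_lit 300), (nat_lit 367), (nat_lit 28220000), (nat_lit 0), [(nat_lit 3386400000), (nat_lit 5045600000), (nat_lit 5974650000)], [], [(nat_lit 21637105415), (nat_lit 21487718244), (nat_lit 22224797479), (nat_lit 22164236881), (nat_lit 14592923550), (nat_lit 14434555596), (nat_lit 14392898708), (nat_lit 14340853916)], (nat_lit 0), (nat_lit 0), (nat_lit 0), (nat_lit 0), (nat_lit 0), (nat_lit 0), [], [(nat_lit 28), (nat_lit 65), (nat_lit 401), (nat_lit 175), (nat_lit 10)]⟩⟩)))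
noncomputable def c17_13 : Tr Lf :=
 (.leaf ⟨(nat_lit 500), (nat_lit 0), (nat_lit 0), (nat_lit 500), (nat_lit 0), (nat_lit 3811), (nat_lit 3959), (nat_lit 13362), (nat_lit 0), (nat_lit 0), (nat_lit 239800), [((nat_lit 380), [((nat_lit 24), (nat_lit 0), (nat_lit 172)), ((nat_lit 41), (nat_lit 2), (nat_lit 328))])], ⟨(nat_lit 6), false, true, true, (nat_lit 307), (nat_lit 2236), (nat_lit 3163), [(nat_lit 1605240), (nat_lit 1602541), (nat_lit 1693606), (nat_lit 1693384), (nat_lit 1849075), (nat_lit 1830625), (nat_lit 1937695), (nat_lit 1921722)]⟩, ⟨(nat_lit 3), true, false, true, (nat_lit 204), (nat_lit 2236), (nat_lit 3163), [(nat_lit 1289472), (nat_lit 1294870), (nat_lit 1399976), (nat_lit 1408471), (nat_lit 1624715), (nat_lit 1608455), (nat_lit 1735490), (nat_lit 1722327)]⟩, (nat_lit 5410396), (nat_lit 34643246), (nat_lit 21340012), (nat_lit 11016742), (nat_lit 0), (nat_lit 0), [], [⟨(nat_lit 1), (nat_lit 93), (nat_lit 53), (nat_lit 100), (nat_lit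 54396889)⟩], [], [],
 ⟨⟨[(nat_lit 40), (nat_lit 60), (nat_lit 80)], [(nat_lit 0), (nat_lit 832), (nat_lit 1534)], [((nat_lit 0), (nat_lit 0), (nat_lit 0)), ((nat_lit 1000), (nat_lit 659), (nat_lit 528)), ((nat_lit 1000), (nat_lit 650), (nat_lit 549))], ((nat_lit 63), (nat_lit 100), (nat_lit 62))⟩, (nat_lit 1740449), (nat_lit 246), (nat_lit 246), (nat_lit 0), (nat_lit 493640), [(nat_lit 1586246406), (nat_lit 2176925670), (nat_lit 2620044800)], [(nat_lit 0), (nat_lit 0), (nat_lit 0)], [(nat_lit 22631040406), (nat_lit 23817186291), (nat_lit 30925564481), (nat_lit 31987739306), (nat_lit 28710683375), (nat_lit 29772106922), (nat_lit 34453241709), (nat_lit 35179115806)], (nat_lit 1271251), (nat_lit 1271251), (nat_lit 1271251), (nat_lit 1271251), (nat_lit 780000), (nat_lit 2581251), [(nat_lit 490000), (nat_lit 780000), (nat_lit 1100000)], [(nat_lit 2), (nat_lit 44), (nat_lit 317), (nat_lit 100), (nat_lit 13)]⟩,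
 ⟨⟨[(nat_lit 80), (nat_lit 120), (nat_lit 160)], [(nat_lit 0), (nat_lit 0), (nat_lit 2132)], [((nat_lit 0), (nat_lit 0), (nat_lit 0)), ((nat_lit 0), (nat_lit 0), (nat_lit 0)), ((nat_lit 858), (nat_lit 1000), (nat_lit 713))], ((nat_lit 100), (nat_lit 92), (nat_lit 61))⟩, (nat_lit 1121151), (nat_lit 910), (nat_lit 910), (nat_lit 0), (nat_lit 1628254), [(nat_lit 2344000000), (nat_lit 3984000000), (nat_lit 5936000000)], [], [(nat_lit 21107395878), (nat_lit 21284498256), (nat_lit 21890991986), (nat_lit 21897515546), (nat_lit 22734077140), (nat_lit 20910978444), (nat_lit 21106893212), (nat_lit 20835694344)], (nat_lit 1271251), (nat_lit 1271251), (nat_lit 1271251), (nat_lit 1271251), (nat_lit 780000), (nat_lit 3072501), [(nat_lit 1100000), (nat_lit 1785001), (nat_lit 1271251)], [(nat_lit 18), (nat_lit 59), (nat_lit 538), (nat_lit 300), (nat_lit 13)]⟩,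
 ⟨⟨[(nat_lit 140), (nat_lit 180), (nat_lit 200)], [(nat_lit 0), (nat_lit 0), (nat_lit 2835)], [((nat_lit 0), (nat_lit 0), (nat_lit 0)), ((nat_lit 0), (nat_lit 0), (nat_lit 0)), ((nat_lit 363), (nat_lit 1000), (nat_lit 798))], ((nat_lit 0), (nat_lit 0), (nat_lit 0))⟩, (nat_lit 3296515), (nat_lit 291), (nat_lit 291), (nat_lit 0), (nat_lit 0), [(nat_lit 4921000000), (nat_lit 7029000000), (nat_lit 8200000000)], [], [(nat_lit 12564243502), (nat_lit 13444422412), (nat_lit 20958980837), (nat_lit 18901990403), (nat_lit 27548094464), (nat_lit 26588313077), (nat_lit 32762688760), (nat_lit 29484712970)], (nat_lit 0), (nat_lit 0), (nat_lit 0), (nat_lit 0), (nat_lit 0), (nat_lit 0), [], [(nat_lit 32), (nat_lit 67), (nat_lit 483), (nat_lit 250), (nat_lit 10)]⟩⟩)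
noncomputable def c17_14 : Tr Lf :=
 (.spl (nat_lit 2) (nat_lit 180) (.spl (nat_lit 1) (nat_lit 280) (.spl (nat_lit 2) (nat_lit 160) (.trX (nat_lit 5) (nat_lit 1) (nat_lit 2) (nat_lit 100) (nat_lit 40) (nat_lit 100) (nat_lit 390) (.spl (nat_lit 5) (nat_lit 200) (.leaf ⟨(nat_lit 0), (nat_lit 1000), (nat_lit 0), (nat_lit 0), (nat_lit 0), (nat_lit 4887), (nat_lit 10256), (nat_lit 0), (nat_lit 0), (nat_lit 0), (nat_lit 0), [], Pd.none, Pd.none, (nat_lit 0), (nat_lit 1), (nat_lit 0), (nat_lit 0), (nat_lit 3), (nat_lit 0), [⟨(nat_lit 0), (nat_lit 98), (nat_lit 54), (nat_lit 100), (nat_lit 565722306)⟩], [], [], [],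
 ⟨⟨[(nat_lit 40), (nat_lit 60)], [(nat_lit 0), (nat_lit 832)], [((nat_lit 0), (nat_lit 0), (nat_lit 0)), ((nat_lit 1000), (nat_lit 659), (nat_lit 528))], ((nat_lit 68), (nat_lit 100), (nat_lit 49))⟩, (nat_lit 0), (nat_lit 209), (nat_lit 209), (nat_lit 0), (nat_lit 567099), [(nat_lit 2032000059), (nat_lit 3282000000)], [], [(nat_lit 20414572067), (nat_lit 22599629079), (nat_lit 23089180434), (nat_lit 24894159916), (nat_lit 23032241930), (nat_lit 24921564084), (nat_lit 25135486734), (nat_lit 26626102874)], (nat_lit 1271251), (nat_lit 1271251), (nat_lit 704688), (nat_lit 1756876), (nat_lit 780000), (nat_lit 1762501), [(nat_lit 490000), (nat_lit 780000)], [(nat_lit 1), (nat_lit 38), (nat_lit 272), (nat_lit 60), (nat_lit 15)]⟩,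
 ⟨⟨[(nat_lit 80), (nat_lit 120), (nat_lit 140)], [(nat_lit 0), (nat_lit 0), (nat_lit 1164)], [((nat_lit 0), (nat_lit 0), (nat_lit 0)), ((nat_lit 0), (nat_lit 0), (nat_lit 0)), ((nat_lit 941), (nat_lit 1000), (nat_lit 576))], ((nat_lit 100), (nat_lit 99), (nat_lit 44))⟩, (nat_lit 4676820), (nat_lit 173), (nat_lit 173), (nat_lit 0), (nat_lit 0), [(nat_lit 4688000000), (nat_lit 7968000000), (nat_lit 9842000000)], [], [(nat_lit 20076862120), (nat_lit 24602853558), (nat_lit 23625953488), (nat_lit 27502979968), (nat_lit 14499571336), (nat_lit 18352764648), (nat_lit 17798819824), (nat_lit 20722999168)], (nat_lit 0), (nat_lit 0), (nat_lit 0), (nat_lit 0), (nat_lit 0), (nat_lit 0), [], [(nat_lit 17), (nat_lit 58), (nat_lit 428), (nat_lit 200), (nat_lit 12)]⟩,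
 Rw.none⟩) (.spl (nat_lit 1) (nat_lit 260) (.leaf ⟨(nat_lit 487), (nat_lit 513), (nat_lit 0), (nat_lit 0), (nat_lit 0), (nat_lit 3928), (nat_lit 3045), (nat_lit 0), (nat_lit 0), (nat_lit 0), (nat_lit 230600), [((nat_lit 380), [((nat_lit 24), (nat_lit 0), (nat_lit 176)), ((nat_lit 41), (nat_lit 2), (nat_lit 311))])], ⟨(nat_lit 6), true, false, false, (nat_lit 208), (nat_lit 2236), (nat_lit 3163), [(nat_lit 1406804), (nat_lit 1416903), (nat_lit 1428895), (nat_lit 1439613), (nat_lit 1605240), (nat_lit 1602541), (nat_lit 1627331), (nat_lit 1625251)]⟩, ⟨(nat_lit 3), false, false, true, (nat_lit 161), (nat_lit 2236), (nat_lit 3163), [(nat_lit 1289472), (nat_lit 1294870), (nat_lit 1333702), (nat_lit 1340339), (nat_lit 1472332), (nat_lit 1465917), (nat_lit 1516642), (nat_lit 1511466)]⟩, (nat_lit 4634112), (nat_lit 44592721), (nat_lit 13410107), (nat_lit 8997172), (nat_lit 5), (nat_lit 0), [⟨(nat_lit 0), (nat_lit 100), (nat_lit 54), (nat_lit 99), (nat_lit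 352080037)⟩], [], [⟨(nat_lit 1), (nat_lit 40), (nat_lit 100), (nat_lit 100), (nat_lit 279994518)⟩], [],
 ⟨⟨[(nat_lit 40), (nat_lit 60)], [(nat_lit 0), (nat_lit 832)], [((nat_lit 0), (nat_lit 0), (nat_lit 0)), ((nat_lit 1000), (nat_lit 659), (nat_lit 528))], ((nat_lit 68), (nat_lit 100), (nat_lit 49))⟩, (nat_lit 1325688), (nat_lit 195), (nat_lit 195), (nat_lit 0), (nat_lit 508948), [(nat_lit 1593578803), (nat_lit 2067726400)], [(nat_lit 0), (nat_lit 0)], [(nat_lit 19469162177), (nat_lit 21436250295), (nat_lit 22335120063), (nat_lit 23932804132), (nat_lit 22245277271), (nat_lit 23912668153), (nat_lit 24534532720), (nat_lit 25889301256)], (nat_lit 1271251), (nat_lit 1271251), (nat_lit 704688), (nat_lit 1756876), (nat_lit 780000), (nat_lit 1762501), [(nat_lit 490000), (nat_lit 780000)], [(nat_lit 1), (nat_lit 38), (nat_lit 272), (nat_lit 60), (nat_lit 15)]⟩,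
 ⟨⟨[(nat_lit 80), (nat_lit 120), (nat_lit 140)], [(nat_lit 0), (nat_lit 0), (nat_lit 1164)], [((nat_lit 0), (nat_lit 0), (nat_lit 0)), ((nat_lit 0), (nat_lit 0), (nat_lit 0)), ((nat_lit 941), (nat_lit 1000), (nat_lit 576))], ((nat_lit 100), (nat_lit 99), (nat_lit 44))⟩, (nat_lit 151870), (nat_lit 111), (nat_lit 111), (nat_lit 0), (nat_lit 0), [(nat_lit 2404944000), (nat_lit 4087584000), (nat_lit 5048946000)], [], [(nat_lit 6475866501), (nat_lit 7326450878), (nat_lit 8684720346), (nat_lit 9346992635), (nat_lit 13897601958), (nat_lit 14434440452), (nat_lit 14508360503), (nat_lit 14934266589)], (nat_lit 0), (nat_lit 0), (nat_lit 0), (nat_lit 0), (nat_lit 0), (nat_lit 0), [], [(nat_lit 17), (nat_lit 58), (nat_lit 456), (nat_lit 225), (nat_lit 13)]⟩,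
 Rw.none⟩) (.trZ (nat_lit 0) (nat_lit 1) (nat_lit 3) (nat_lit 100) (nat_lit 63) (nat_lit 99) (nat_lit 130) (.trX (nat_lit 5) (nat_lit 1) (nat_lit 2) (nat_lit 97) (nat_lit 49) (nat_lit 100) (nat_lit 380) (.leaf ⟨(nat_lit 35), (nat_lit 965), (nat_lit 0), (nat_lit 0), (nat_lit 0), (nat_lit 4376), (nat_lit 5796), (nat_lit 0), (nat_lit 0), (nat_lit 0), (nat_lit 140000), [((nat_lit 380), [((nat_lit 41), (nat_lit 5), (nat_lit 35))])], ⟨(nat_lit 6), true, false, false, (nat_lit 222), (nat_lit 2236), (nat_lit 3163), [(nat_lit 1459424), (nat_lit 1468173), (nat_lit 1481515), (nat_lit 1490884), (nat_lit 1627331), (nat_lit 1625251), (nat_lit 1649422), (nat_lit 1647962)]⟩, ⟨(nat_lit 3), false, false, true, (nat_lit 161), (nat_lit 2236), (nat_lit 3163), [(nat_lit 1289472), (nat_lit 1294870), (nat_lit 1333702), (nat_lit 1340339), (nat_lit 1472332), (nat_lit 1465917), (nat_lit 1516642), (nat_lit 1511466)]⟩, (nat_lit 4740755), (nat_lit 43379525), (nat_lit 14757048),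 (nat_lit 8863427), (nat_lit 5), (nat_lit 0), [⟨(nat_lit 0), (nat_lit 100), (nat_lit 63), (nat_lit 99), (nat_lit 517929400)⟩], [], [⟨(nat_lit 1), (nat_lit 49), (nat_lit 97), (nat_lit 100), (nat_lit 525705423)⟩], [],
 ⟨⟨[(nat_lit 40), (nat_lit 60)], [(nat_lit 0), (nat_lit 832)], [((nat_lit 0), (nat_lit 0), (nat_lit 0)), ((nat_lit 1000), (nat_lit 659), (nat_lit 528))], ((nat_lit 68), (nat_lit 100), (nat_lit 49))⟩, (nat_lit 2112056), (nat_lit 206), (nat_lit 206), (nat_lit 0), (nat_lit 566916), [(nat_lit 1896298002), (nat_lit 2877456000)], [(nat_lit 0), (nat_lit 0)], [(nat_lit 19963170328), (nat_lit 22008615285), (nat_lit 22632496808), (nat_lit 24381904644), (nat_lit 22653629014), (nat_lit 24379832087), (nat_lit 24801872240), (nat_lit 26233500552)], (nat_lit 1271251), (nat_lit 1271251), (nat_lit 857188), (nat_lit 1768126), (nat_lit 780000), (nat_lit 1762501), [(nat_lit 490000), (nat_lit 780000)], [(nat_lit 1), (nat_lit 38), (nat_lit 203), (nat_lit 0),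 (nat_lit 10)]⟩,
 ⟨⟨[(nat_lit 80), (nat_lit 100), (nat_lit 120)], [(nat_lit 0), (nat_lit 265), (nat_lit 768)], [((nat_lit 0), (nat_lit 0), (nat_lit 0)), ((nat_lit 1000), (nat_lit 959), (nat_lit 206)), ((nat_lit 1000), (nat_lit 958), (nat_lit 392))], ((nat_lit 96), (nat_lit 100), (nat_lit 44))⟩, (nat_lit 164052), (nat_lit 84), (nat_lit 84), (nat_lit 0), (nat_lit 0), [(nat_lit 4523920000), (nat_lit 6031250000), (nat_lit 7689120000)], [], [(nat_lit 13928138182), (nat_lit 15491368416), (nat_lit 17498495079), (nat_lit 18752033713), (nat_lit 26063522947), (nat_lit 27100788309), (nat_lit 27365980274), (nat_lit 28207970541)], (nat_lit 0), (nat_lit 0), (nat_lit 0), (nat_lit 0), (nat_lit 0), (nat_lit 0), [], [(nat_lit 16), (nat_lit 54), (nat_lit 401), (nat_lit 175), (nat_lit 12)]⟩,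
 Rw.none⟩)))))) (.spl (nat_lit 0) (nat_lit 370) (.leaf ⟨(nat_lit 595), (nat_lit 347), (nat_lit 0), (nat_lit 58), (nat_lit 0), (nat_lit 3681), (nat_lit 3470), (nat_lit 526), (nat_lit 0), (nat_lit 0), (nat_lit 304850), [((nat_lit 370), [((nat_lit 24), (nat_lit 0), (nat_lit 149)), ((nat_lit 41), (nat_lit 2), (nat_lit 446))])], ⟨(nat_lit 6), true, false, false, (nat_lit 212), (nat_lit 2738), (nat_lit 3163), [(nat_lit 1407099), (nat_lit 1411881), (nat_lit 1451384), (nat_lit 1456691), (nat_lit 1605257), (nat_lit 1603890), (nat_lit 1649542), (nat_lit 1648700)]⟩, ⟨(nat_lit 4), false, false, true, (nat_lit 175), (nat_lit 2738), (nat_lit 3163), [(nat_lit 1333771), (nat_lit 1337030), (nat_lit 1355914), (nat_lit 1359435), (nat_lit 1516642), (nat_lit 1514225), (nat_lit 1538797), (nat_lit 1536642)]⟩, (nat_lit 4788879), (nat_lit 43344944), (nat_lit 13618570), (nat_lit 10036486), (nat_lit 4), (nat_lit 0), [⟨(nat_lit 0), (nat_lit 93), (nat_lit 53), (nat_lit 100),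 (nat_lit 319250833)⟩], [], [⟨(nat_lit 1), (nat_lit 44), (nat_lit 96), (nat_lit 100), (nat_lit 62368183)⟩], [],
 ⟨⟨[(nat_lit 40), (nat_lit 60)], [(nat_lit 0), (nat_lit 832)], [((nat_lit 0), (nat_lit 0), (nat_lit 0)), ((nat_lit 1000), (nat_lit 659), (nat_lit 528))], ((nat_lit 68), (nat_lit 100), (nat_lit 49))⟩, (nat_lit 494670), (nat_lit 167), (nat_lit 167), (nat_lit 0), (nat_lit 450503), [(nat_lit 1532926004), (nat_lit 1738618000)], [(nat_lit 0), (nat_lit 0)], [(nat_lit 19281277409), (nat_lit 20147904956), (nat_lit 22135599191), (nat_lit 22889123500), (nat_lit 22040199181), (nat_lit 22846508070), (nat_lit 24389925230), (nat_lit 25043334301)], (nat_lit 1271251), (nat_lit 1271251), (nat_lit 704688), (nat_lit 1756876), (nat_lit 780000), (nat_lit 1762501), [(nat_lit 490000), (nat_lit 780000)], [(nat_lit 1), (nat_lit 38), (nat_lit 272), (nat_lit 60), (nat_lit 15)]⟩,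
 ⟨⟨[(nat_lit 80), (nat_lit 120), (nat_lit 140)], [(nat_lit 0), (nat_lit 0), (nat_lit 1164)], [((nat_lit 0), (nat_lit 0), (nat_lit 0)), ((nat_lit 0), (nat_lit 0), (nat_lit 0)), ((nat_lit 941), (nat_lit 1000), (nat_lit 576))], ((nat_lit 100), (nat_lit 99), (nat_lit 44))⟩, (nat_lit 1627855), (nat_lit 173), (nat_lit 173), (nat_lit 0), (nat_lit 0), [(nat_lit 1898640000), (nat_lit 3227040000), (nat_lit 3986010000)], [], [(nat_lit 8462263595), (nat_lit 10086397344), (nat_lit 9897011380), (nat_lit 11138144960), (nat_lit 13184552678), (nat_lit 13860758474), (nat_lit 13026547320), (nat_lit 13532554590)], (nat_lit 0), (nat_lit 0), (nat_lit 0), (nat_lit 0), (nat_lit 0), (nat_lit 0), [], [(nat_lit 17), (nat_lit 58), (nat_lit 483), (nat_lit 250), (nat_lit 14)]⟩,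
 ⟨⟨[(nat_lit 120), (nat_lit 160), (nat_lit 180)], [(nat_lit 0), (nat_lit 0), (nat_lit 1613)], [((nat_lit 0), (nat_lit 0), (nat_lit 0)), ((nat_lit 0), (nat_lit 0), (nat_lit 0)), ((nat_lit 620), (nat_lit 1000), (nat_lit 670))], ((nat_lit 100), (nat_lit 81), (nat_lit 44))⟩, (nat_lit 25242), (nat_lit 300), (nat_lit 1991), (nat_lit 4303604), (nat_lit 3379708), [(nat_lit 462144000), (nat_lit 688576000), (nat_lit 815364000)], [], [(nat_lit 5215922745), (nat_lit 5185395740), (nat_lit 5020846153), (nat_lit 4990433455), (nat_lit 4582405584), (nat_lit 4552166976), (nat_lit 4390612124), (nat_lit 4360534632)], (nat_lit 1100000), (nat_lit 1271251), (nat_lit 780000), (nat_lit 1762501), (nat_lit 0), (nat_lit 2825001), [(nat_lit 1695001), (nat_lit 1271251), (nat_lit 1271251)], [(nat_lit 28), (nat_lit 65), (nat_lit 601), (nat_lit 225), (nat_lit 14)]⟩⟩) (.trZ (nat_lit 0) (nat_lit 1) (nat_lit 3) (nat_lit 100) (nat_lit 54) (nat_lit 96) (nat_lit 130) (.leaf ⟨(nat_lit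 549), (nat_lit 397), (nat_lit 0), (nat_lit 54), (nat_lit 0), (nat_lit 3656), (nat_lit 3864), (nat_lit 502), (nat_lit 0), (nat_lit 0), (nat_lit 273400), [((nat_lit 380), [((nat_lit 24), (nat_lit 0), (nat_lit 160)), ((nat_lit 41), (nat_lit 2), (nat_lit 389))])], ⟨(nat_lit 6), true, false, false, (nat_lit 218), (nat_lit 2236), (nat_lit 2739), [(nat_lit 1441375), (nat_lit 1445669), (nat_lit 1486169), (nat_lit 1491177), (nat_lit 1603890), (nat_lit 1602558), (nat_lit 1648684), (nat_lit 1648065)]⟩, ⟨(nat_lit 4), false, false, true, (nat_lit 175), (nat_lit 2236), (nat_lit 2739), [(nat_lit 1337013), (nat_lit 1340391), (nat_lit 1359410), (nat_lit 1363145), (nat_lit 1514225), (nat_lit 1511466), (nat_lit 1536642), (nat_lit 1534240)]⟩, (nat_lit 4836886), (nat_lit 42808838), (nat_lit 14208000), (nat_lit 9983162), (nat_lit 4), (nat_lit 0), [⟨(nat_lit 0), (nat_lit 97), (nat_lit 49), (nat_lit 100), (nat_lit 330266888)⟩], [], [⟨(nat_lit 1), (nat_lit 44), (nat_lit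 96), (nat_lit 100), (nat_lit 74193258)⟩], [],
 ⟨⟨[(nat_lit 40), (nat_lit 60)], [(nat_lit 0), (nat_lit 1134)], [((nat_lit 0), (nat_lit 0), (nat_lit 0)), ((nat_lit 1000), (nat_lit 575), (nat_lit 619))], ((nat_lit 62), (nat_lit 100), (nat_lit 52))⟩, (nat_lit 434839), (nat_lit 184), (nat_lit 184), (nat_lit 0), (nat_lit 481729), [(nat_lit 1558681601), (nat_lit 1878340800)], [(nat_lit 0), (nat_lit 0)], [(nat_lit 20436787339), (nat_lit 21205548210), (nat_lit 22919618361), (nat_lit 23660135964), (nat_lit 23004464501), (nat_lit 23693755697), (nat_lit 25070333028), (nat_lit 25680323112)], (nat_lit 1271251), (nat_lit 1271251), (nat_lit 857188), (nat_lit 1768126), (nat_lit 780000), (nat_lit 1762501), [(nat_lit 490000), (nat_lit 780000)], [(nat_lit 1), (nat_lit 38), (nat_lit 203), (nat_lit 0), (nat_lit 10)]⟩,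
 ⟨⟨[(nat_lit 80), (nat_lit 120), (nat_lit 140)], [(nat_lit 0), (nat_lit 0), (nat_lit 1164)], [((nat_lit 0), (nat_lit 0), (nat_lit 0)), ((nat_lit 0), (nat_lit 0), (nat_lit 0)), ((nat_lit 941), (nat_lit 1000), (nat_lit 576))], ((nat_lit 100), (nat_lit 99), (nat_lit 44))⟩, (nat_lit 1486926), (nat_lit 164), (nat_lit 164), (nat_lit 0), (nat_lit 0), [(nat_lit 2114288000), (nat_lit 3593568000), (nat_lit 4438742000)], [], [(nat_lit 9787295677), (nat_lit 11541435220), (nat_lit 11400375576), (nat_lit 12782451212), (nat_lit 14481808084), (nat_lit 15211482416), (nat_lit 14506159864), (nat_lit 15069601944)], (nat_lit 0), (nat_lit 0), (nat_lit 0), (nat_lit 0), (nat_lit 0), (nat_lit 0), [], [(nat_lit 17), (nat_lit 58), (nat_lit 483), (nat_lit 250), (nat_lit 14)]⟩,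
 ⟨⟨[(nat_lit 120), (nat_lit 160), (nat_lit 180)], [(nat_lit 0), (nat_lit 0), (nat_lit 1613)], [((nat_lit 0), (nat_lit 0), (nat_lit 0)), ((nat_lit 0), (nat_lit 0), (nat_lit 0)), ((nat_lit 620), (nat_lit 1000), (nat_lit 670))], ((nat_lit 100), (nat_lit 81), (nat_lit 44))⟩, (nat_lit 23502), (nat_lit 300), (nat_lit 2217), (nat_lit 4006800), (nat_lit 3825135), [(nat_lit 430272000), (nat_lit 641088000), (nat_lit 759132000)], [], [(nat_lit 4877774979), (nat_lit 4848978279), (nat_lit 4695297407), (nat_lit 4666651412), (nat_lit 4284281278), (nat_lit 4255909749), (nat_lit 4105524352), (nat_lit 4087058350)], (nat_lit 1100000), (nat_lit 1271251), (nat_lit 780000), (nat_lit 1762501), (nat_lit 0), (nat_lit 2825001), [(nat_lit 1695001), (nat_lit 1271251), (nat_lit 1271251)], [(nat_lit 28), (nat_lit 65), (nat_lit 657), (nat_lit 225), (nat_lit 15)]⟩⟩)))) (.trZ (nat_lit 0) (nat_lit 1) (nat_lit 3) (nat_lit 94) (nat_lit 62) (nat_lit 100) (nat_lit 150) (.trX (nat_lit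 5) (nat_lit 1) (nat_lit 2) (nat_lit 92) (nat_lit 49) (nat_lit 100) (nat_lit 380) (.leaf ⟨(nat_lit 35), (nat_lit 965), (nat_lit 0), (nat_lit 0), (nat_lit 0), (nat_lit 4580), (nat_lit 7225), (nat_lit 0), (nat_lit 0), (nat_lit 0), (nat_lit 140000), [((nat_lit 380), [((nat_lit 41), (nat_lit 5), (nat_lit 35))])], ⟨(nat_lit 7), true, false, false, (nat_lit 242), (nat_lit 2236), (nat_lit 3163), [(nat_lit 1512044), (nat_lit 1519444), (nat_lit 1556227), (nat_lit 1564865), (nat_lit 1649422), (nat_lit 1647962), (nat_lit 1693606), (nat_lit 1693384)]⟩, ⟨(nat_lit 3), false, false, true, (nat_lit 166), (nat_lit 2236), (nat_lit 3163), [(nat_lit 1289472), (nat_lit 1294870), (nat_lit 1355794), (nat_lit 1363050), (nat_lit 1472332), (nat_lit 1465917), (nat_lit 1538797), (nat_lit 1534240)]⟩, (nat_lit 4898823), (nat_lit 41532770), (nat_lit 16450540), (nat_lit 9016690), (nat_lit 3), (nat_lit 0), [⟨(nat_lit 0), (nat_lit 94), (nat_lit 62), (nat_lit 100), (nat_lit 492415826)⟩],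 [], [⟨(nat_lit 1), (nat_lit 49), (nat_lit 92), (nat_lit 100), (nat_lit 287242880)⟩], [],
 ⟨⟨[(nat_lit 40), (nat_lit 60)], [(nat_lit 0), (nat_lit 832)], [((nat_lit 0), (nat_lit 0), (nat_lit 0)), ((nat_lit 1000), (nat_lit 659), (nat_lit 528))], ((nat_lit 68), (nat_lit 100), (nat_lit 49))⟩, (nat_lit 1243653), (nat_lit 251), (nat_lit 251), (nat_lit 0), (nat_lit 715509), [(nat_lit 1896298038), (nat_lit 2877456000)], [(nat_lit 0), (nat_lit 0)], [(nat_lit 20486436444), (nat_lit 22245099619), (nat_lit 22790838140), (nat_lit 24586405770), (nat_lit 22830999889), (nat_lit 24549849653), (nat_lit 24923607200), (nat_lit 26390234160)], (nat_lit 1271251), (nat_lit 1271251), (nat_lit 1017188), (nat_lit 1779376), (nat_lit 780000), (nat_lit 1762501), [(nat_lit 490000), (nat_lit 780000)], [(nat_lit 1), (nat_lit 38), (nat_lit 203), (nat_lit 0), (nat_lit 10)]⟩,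
 ⟨⟨[(nat_lit 60), (nat_lit 100), (nat_lit 120)], [(nat_lit 0), (nat_lit 0), (nat_lit 1164)], [((nat_lit 0), (nat_lit 0), (nat_lit 0)), ((nat_lit 0), (nat_lit 0), (nat_lit 0)), ((nat_lit 1000), (nat_lit 933), (nat_lit 572))], ((nat_lit 92), (nat_lit 100), (nat_lit 44))⟩, (nat_lit 2136125), (nat_lit 142), (nat_lit 142), (nat_lit 0), (nat_lit 0), [(nat_lit 3167130000), (nat_lit 6031250000), (nat_lit 7689120000)], [], [(nat_lit 20720284658), (nat_lit 24493656428), (nat_lit 24051713720), (nat_lit 27134830380), (nat_lit 28324835345), (nat_lit 30563050905), (nat_lit 29458492728), (nat_lit 31295091890)], (nat_lit 0), (nat_lit 0), (nat_lit 0), (nat_lit 0), (nat_lit 0), (nat_lit 0), [], [(nat_lit 10), (nat_lit 54), (nat_lit 401), (nat_lit 175), (nat_lit 13)]⟩,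
 Rw.none⟩)))) (.spl (nat_lit 1) (nat_lit 280) (.leaf ⟨(nat_lit 557), (nat_lit 353), (nat_lit 0), (nat_lit 90), (nat_lit 0), (nat_lit 3620), (nat_lit 3796), (nat_lit 690), (nat_lit 0), (nat_lit 0), (nat_lit 279250), [((nat_lit 380), [((nat_lit 24), (nat_lit 0), (nat_lit 157)), ((nat_lit 41), (nat_lit 2), (nat_lit 400))])], ⟨(nat_lit 6), true, false, false, (nat_lit 212), (nat_lit 2236), (nat_lit 3163), [(nat_lit 1406804), (nat_lit 1416903), (nat_lit 1450987), (nat_lit 1462324), (nat_lit 1605240), (nat_lit 1602541), (nat_lit 1649422), (nat_lit 1647962)]⟩, ⟨(nat_lit 4), false, false, false, (nat_lit 188), (nat_lit 2236), (nat_lit 3163), [(nat_lit 1355794), (nat_lit 1363050), (nat_lit 1399976), (nat_lit 1408471), (nat_lit 1538797), (nat_lit 1534240), (nat_lit 1583107), (nat_lit 1579788)]⟩, (nat_lit 4905883), (nat_lit 42381580), (nat_lit 13477429), (nat_lit 11140991), (nat_lit 4), (nat_lit 0), [⟨(nat_lit 0), (nat_lit 98), (nat_lit 54), (nat_lit 100),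 (nat_lit 288252580)⟩, ⟨(nat_lit 0), (nat_lit 92), (nat_lit 44), (nat_lit 100), (nat_lit 36110152)⟩], [], [⟨(nat_lit 1), (nat_lit 30), (nat_lit 95), (nat_lit 100), (nat_lit 41139603)⟩], [],
 ⟨⟨[(nat_lit 40), (nat_lit 60)], [(nat_lit 0), (nat_lit 832)], [((nat_lit 0), (nat_lit 0), (nat_lit 0)), ((nat_lit 1000), (nat_lit 659), (nat_lit 528))], ((nat_lit 68), (nat_lit 100), (nat_lit 49))⟩, (nat_lit 618290), (nat_lit 182), (nat_lit 182), (nat_lit 0), (nat_lit 459504), [(nat_lit 1554211203), (nat_lit 1853056400)], [(nat_lit 0), (nat_lit 0)], [(nat_lit 19499692204), (nat_lit 21062610394), (nat_lit 22357552312), (nat_lit 23624047530), (nat_lit 22259958367), (nat_lit 23588643183), (nat_lit 24618947092), (nat_lit 25652664240)], (nat_lit 1271251), (nat_lit 1271251), (nat_lit 704688), (nat_lit 1756876), (nat_lit 780000), (nat_lit 1762501), [(nat_lit 490000), (nat_lit 780000)], [(nat_lit 1), (nat_lit 38), (nat_lit 272), (nat_lit 60), (nat_lit 15)]⟩,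
 ⟨⟨[(nat_lit 80), (nat_lit 120), (nat_lit 140)], [(nat_lit 0), (nat_lit 0), (nat_lit 1164)], [((nat_lit 0), (nat_lit 0), (nat_lit 0)), ((nat_lit 0), (nat_lit 0), (nat_lit 0)), ((nat_lit 941), (nat_lit 1000), (nat_lit 576))], ((nat_lit 100), (nat_lit 99), (nat_lit 44))⟩, (nat_lit 1267110), (nat_lit 173), (nat_lit 173), (nat_lit 0), (nat_lit 0), [(nat_lit 2076784000), (nat_lit 3529824000), (nat_lit 4360006000)], [], [(nat_lit 9853933799), (nat_lit 11630583658), (nat_lit 11423301512), (nat_lit 12780976220), (nat_lit 14421612365), (nat_lit 15161273681), (nat_lit 14248607384), (nat_lit 14802706214)], (nat_lit 0), (nat_lit 0), (nat_lit 0), (nat_lit 0), (nat_lit 0), (nat_lit 0), [], [(nat_lit 17), (nat_lit 58), (nat_lit 483), (nat_lit 250), (nat_lit 14)]⟩,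
 ⟨⟨[(nat_lit 120), (nat_lit 140), (nat_lit 160)], [(nat_lit 0), (nat_lit 266), (nat_lit 862)], [((nat_lit 0), (nat_lit 0), (nat_lit 0)), ((nat_lit 960), (nat_lit 1000), (nat_lit 200)), ((nat_lit 874), (nat_lit 1000), (nat_lit 406))], ((nat_lit 100), (nat_lit 86), (nat_lit 44))⟩, (nat_lit 184737), (nat_lit 300), (nat_lit 1691), (nat_lit 5976000), (nat_lit 2927606), [(nat_lit 717120000), (nat_lit 885780000), (nat_lit 1068480000)], [], [(nat_lit 7393402390), (nat_lit 7324446906), (nat_lit 7165938975), (nat_lit 7096337361), (nat_lit 6654718768), (nat_lit 6583525968), (nat_lit 6423799076), (nat_lit 6352390055)], (nat_lit 1271251), (nat_lit 1271251), (nat_lit 780000), (nat_lit 1762501), (nat_lit 0), (nat_lit 2825001), [(nat_lit 1695001), (nat_lit 1271251), (nat_lit 1271251)], [(nat_lit 27), (nat_lit 62), (nat_lit 531), (nat_lit 225), (nat_lit 14)]⟩⟩) (.trZ (nat_lit 0) (nat_lit 1) (nat_lit 3) (nat_lit 94) (nat_lit 62) (nat_lit 100) (nat_lit 150) (.leaf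 ⟨(nat_lit 35), (nat_lit 852), (nat_lit 0), (nat_lit 113), (nat_lit 0), (nat_lit 4458), (nat_lit 6743), (nat_lit 927), (nat_lit 0), (nat_lit 0), (nat_lit 140000), [((nat_lit 380), [((nat_lit 41), (nat_lit 5), (nat_lit 35))])], ⟨(nat_lit 7), true, false, false, (nat_lit 242), (nat_lit 2236), (nat_lit 3163), [(nat_lit 1512044), (nat_lit 1519444), (nat_lit 1556227), (nat_lit 1564865), (nat_lit 1649422), (nat_lit 1647962), (nat_lit 1693606), (nat_lit 1693384)]⟩, ⟨(nat_lit 4), false, false, false, (nat_lit 188), (nat_lit 2236), (nat_lit 3163), [(nat_lit 1355794), (nat_lit 1363050), (nat_lit 1399976), (nat_lit 1408471), (nat_lit 1538797), (nat_lit 1534240), (nat_lit 1583107), (nat_lit 1579788)]⟩, (nat_lit 5084586), (nat_lit 40147672), (nat_lit 16084852), (nat_lit 10767476), (nat_lit 4), (nat_lit 0), [⟨(nat_lit 0), (nat_lit 87), (nat_lit 53), (nat_lit 100), (nat_lit 653616550)⟩], [], [⟨(nat_lit 1), (nat_lit 50), (nat_lit 87), (nat_lit 100), (nat_lit 12535372)⟩,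 ⟨(nat_lit 1), (nat_lit 31), (nat_lit 92), (nat_lit 100), (nat_lit 185491274)⟩], [],
 ⟨⟨[(nat_lit 40), (nat_lit 60)], [(nat_lit 0), (nat_lit 832)], [((nat_lit 0), (nat_lit 0), (nat_lit 0)), ((nat_lit 1000), (nat_lit 659), (nat_lit 528))], ((nat_lit 68), (nat_lit 100), (nat_lit 49))⟩, (nat_lit 1006502), (nat_lit 206), (nat_lit 206), (nat_lit 0), (nat_lit 585130), [(nat_lit 1896298047), (nat_lit 2877456000)], [(nat_lit 0), (nat_lit 0)], [(nat_lit 20323594127), (nat_lit 22120949331), (nat_lit 22696143814), (nat_lit 24464106077), (nat_lit 22796204815), (nat_lit 24445693541), (nat_lit 24850804920), (nat_lit 26296501316)], (nat_lit 1271251), (nat_lit 1271251), (nat_lit 1017188), (nat_lit 1779376), (nat_lit 780000), (nat_lit 1762501), [(nat_lit 490000), (nat_lit 780000)], [(nat_lit 1), (nat_lit 38), (nat_lit 203), (nat_lit 0), (nat_lit 10)]⟩,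
 ⟨⟨[(nat_lit 60), (nat_lit 100), (nat_lit 120)], [(nat_lit 0), (nat_lit 0), (nat_lit 1164)], [((nat_lit 0), (nat_lit 0), (nat_lit 0)), ((nat_lit 0), (nat_lit 0), (nat_lit 0)), ((nat_lit 1000), (nat_lit 933), (nat_lit 572))], ((nat_lit 92), (nat_lit 100), (nat_lit 44))⟩, (nat_lit 2036792), (nat_lit 142), (nat_lit 142), (nat_lit 0), (nat_lit 0), [(nat_lit 3167130000), (nat_lit 6031250000), (nat_lit 7689120000)], [], [(nat_lit 20894884103), (nat_lit 24507900016), (nat_lit 24166938236), (nat_lit 27128211080), (nat_lit 30009356294), (nat_lit 31750350011), (nat_lit 30680337440), (nat_lit 32295217868)], (nat_lit 0), (nat_lit 0), (nat_lit 0), (nat_lit 0), (nat_lit 0), (nat_lit 0), [], [(nat_lit 10), (nat_lit 54), (nat_lit 401), (nat_lit 175), (nat_lit 13)]⟩,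
 ⟨⟨[(nat_lit 120), (nat_lit 140), (nat_lit 160)], [(nat_lit 0), (nat_lit 266), (nat_lit 862)], [((nat_lit 0), (nat_lit 0), (nat_lit 0)), ((nat_lit 960), (nat_lit 1000), (nat_lit 200)), ((nat_lit 874), (nat_lit 1000), (nat_lit 406))], ((nat_lit 100), (nat_lit 86), (nat_lit 44))⟩, (nat_lit 231948), (nat_lit 300), (nat_lit 2055), (nat_lit 7503200), (nat_lit 3657573), [(nat_lit 900384000), (nat_lit 1112146000), (nat_lit 1341536000)], [], [(nat_lit 9244550769), (nat_lit 9148050499), (nat_lit 8934729795), (nat_lit 8838136363), (nat_lit 8236862914), (nat_lit 8139873408), (nat_lit 8224790515), (nat_lit 7831518017)], (nat_lit 1271251), (nat_lit 1271251), (nat_lit 780000), (nat_lit 1762501), (nat_lit 0), (nat_lit 2825001), [(nat_lit 1695001), (nat_lit 1271251), (nat_lit 1271251)], [(nat_lit 27), (nat_lit 62), (nat_lit 622), (nat_lit 225), (nat_lit 16)]⟩⟩))))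
noncomputable def c17_15 : Tr Lf :=
 (.stt (nat_lit 1) (.spl (nat_lit 4) (nat_lit 200) (.spl (nat_lit 2) (nat_lit 180) (.leaf ⟨(nat_lit 1000), (nat_lit 0), (nat_lit 0), (nat_lit 0), (nat_lit 0), (nat_lit 3373), (nat_lit 0), (nat_lit 0), (nat_lit 0), (nat_lit 0), (nat_lit 250000), [((nat_lit 380), [((nat_lit 24), (nat_lit 0), (nat_lit 1000))])], ⟨(nat_lit 6), false, false, false, (nat_lit 221), (nat_lit 2236), (nat_lit 3163), [(nat_lit 1406804), (nat_lit 1416903), (nat_lit 1495170), (nat_lit 1507746), (nat_lit 1605240), (nat_lit 1602541), (nat_lit 1693606), (nat_lit 1693384)]⟩, ⟨(nat_lit 3), false, false, true, (nat_lit 154), (nat_lit 2236), (nat_lit 3163), [(nat_lit 1289472), (nat_lit 1294870), (nat_lit 1355794), (nat_lit 1363050), (nat_lit 1411379), (nat_lit 1408901), (nat_lit 1477844), (nat_lit 1477224)]⟩, (nat_lit 4660110), (nat_lit 43973651), (nat_lit 14718576), (nat_lit 8307773), (nat_lit 0), (nat_lit 0), [], [], [], [],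
 ⟨⟨[(nat_lit 40), (nat_lit 60)], [(nat_lit 0), (nat_lit 832)], [((nat_lit 0), (nat_lit 0), (nat_lit 0)), ((nat_lit 1000), (nat_lit 659), (nat_lit 528))], ((nat_lit 68), (nat_lit 100), (nat_lit 49))⟩, (nat_lit 0), (nat_lit 63), (nat_lit 63), (nat_lit 0), (nat_lit 0), [(nat_lit 1526400022), (nat_lit 1367200000)], [(nat_lit 0), (nat_lit 0)], [(nat_lit 18878749507), (nat_lit 20762970603), (nat_lit 21853985259), (nat_lit 23376440775), (nat_lit 20512845063), (nat_lit 22170754469), (nat_lit 23162477378), (nat_lit 24514964782)], (nat_lit 0), (nat_lit 0), (nat_lit 0), (nat_lit 0), (nat_lit 0), (nat_lit 0), [], [(nat_lit 1), (nat_lit 38), (nat_lit 272), (nat_lit 60), (nat_lit 15)]⟩,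
 Rw.none,
 Rw.none⟩) (.leaf ⟨(nat_lit 947), (nat_lit 25), (nat_lit 0), (nat_lit 28), (nat_lit 0), (nat_lit 3317), (nat_lit 547), (nat_lit 280), (nat_lit 0), (nat_lit 0), (nat_lit 236750), [((nat_lit 380), [((nat_lit 24), (nat_lit 0), (nat_lit 947))])], ⟨(nat_lit 6), false, false, false, (nat_lit 221), (nat_lit 2236), (nat_lit 3163), [(nat_lit 1406804), (nat_lit 1416903), (nat_lit 1495170), (nat_lit 1507746), (nat_lit 1605240), (nat_lit 1602541), (nat_lit 1693606), (nat_lit 1693384)]⟩, ⟨(nat_lit 4), false, false, false, (nat_lit 176), (nat_lit 2236), (nat_lit 3163), [(nat_lit 1355794), (nat_lit 1363050), (nat_lit 1399976), (nat_lit 1408471), (nat_lit 1477844), (nat_lit 1477224), (nat_lit 1522091), (nat_lit 1522710)]⟩, (nat_lit 4868003), (nat_lit 42496024), (nat_lit 14426806), (nat_lit 10077170), (nat_lit 4), (nat_lit 0), [⟨(nat_lit 0), (nat_lit 82), (nat_lit 44), (nat_lit 100), (nat_lit 579672)⟩], [], [], [],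
 ⟨⟨[(nat_lit 40), (nat_lit 60)], [(nat_lit 0), (nat_lit 832)], [((nat_lit 0), (nat_lit 0), (nat_lit 0)), ((nat_lit 1000), (nat_lit 659), (nat_lit 528))], ((nat_lit 68), (nat_lit 100), (nat_lit 49))⟩, (nat_lit 0), (nat_lit 63), (nat_lit 63), (nat_lit 0), (nat_lit 0), [(nat_lit 1540794805), (nat_lit 1468684400)], [(nat_lit 0), (nat_lit 0)], [(nat_lit 18983660609), (nat_lit 20695036076), (nat_lit 21978571414), (nat_lit 23320303211), (nat_lit 20689171248), (nat_lit 22112858778), (nat_lit 23324541807), (nat_lit 24471087004)], (nat_lit 0), (nat_lit 0), (nat_lit 0), (nat_lit 0), (nat_lit 0), (nat_lit 0), [], [(nat_lit 1), (nat_lit 38), (nat_lit 272), (nat_lit 60), (nat_lit 15)]⟩,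
 ⟨⟨[(nat_lit 80), (nat_lit 120), (nat_lit 140)], [(nat_lit 0), (nat_lit 0), (nat_lit 1164)], [((nat_lit 0), (nat_lit 0), (nat_lit 0)), ((nat_lit 0), (nat_lit 0), (nat_lit 0)), ((nat_lit 941), (nat_lit 1000), (nat_lit 576))], ((nat_lit 100), (nat_lit 99), (nat_lit 44))⟩, (nat_lit 98364), (nat_lit 732), (nat_lit 732), (nat_lit 0), (nat_lit 1067570), [(nat_lit 248464000), (nat_lit 422304000), (nat_lit 521626000)], [], [(nat_lit 3130544370), (nat_lit 1959937293), (nat_lit 1742114336), (nat_lit 1805140944), (nat_lit 2145863566), (nat_lit 2065449953), (nat_lit 3115956296), (nat_lit 2191090884)], (nat_lit 1271251), (nat_lit 1271251), (nat_lit 704688), (nat_lit 1756876), (nat_lit 0), (nat_lit 2825001), [(nat_lit 1100000), (nat_lit 1785001), (nat_lit 1271251)], [(nat_lit 17), (nat_lit 58), (nat_lit 483), (nat_lit 250), (nat_lit 14)]⟩,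
 ⟨⟨[(nat_lit 120), (nat_lit 140), (nat_lit 160)], [(nat_lit 0), (nat_lit 266), (nat_lit 862)], [((nat_lit 0), (nat_lit 0), (nat_lit 0)), ((nat_lit 960), (nat_lit 1000), (nat_lit 200)), ((nat_lit 874), (nat_lit 1000), (nat_lit 406))], ((nat_lit 100), (nat_lit 86), (nat_lit 44))⟩, (nat_lit 57474), (nat_lit 300), (nat_lit 1391), (nat_lit 1859200), (nat_lit 2299774), [(nat_lit 223104000), (nat_lit 275576000), (nat_lit 332416000)], [], [(nat_lit 1538772018), (nat_lit 1509548054), (nat_lit 1468522496), (nat_lit 1438922240), (nat_lit 1709079708), (nat_lit 1457090068), (nat_lit 2015230000), (nat_lit 1769577040)], (nat_lit 1271251), (nat_lit 1271251), (nat_lit 780000), (nat_lit 1435001), (nat_lit 0), (nat_lit 2825001), [(nat_lit 1695001), (nat_lit 1271251), (nat_lit 1271251)], [(nat_lit 27), (nat_lit 62), (nat_lit 456), (nat_lit 225), (nat_lit 12)]⟩⟩)) (.spl (nat_lit 2) (nat_lit 180) (.leaf ⟨(nat_lit 1000), (nat_lit 0), (nat_lit 0), (nat_lit 0), (nat_lit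 0), (nat_lit 3350), (nat_lit 0), (nat_lit 0), (nat_lit 0), (nat_lit 0), (nat_lit 250000), [((nat_lit 380), [((nat_lit 24), (nat_lit 0), (nat_lit 1000))])], ⟨(nat_lit 6), false, false, false, (nat_lit 221), (nat_lit 2236), (nat_lit 3163), [(nat_lit 1406804), (nat_lit 1416903), (nat_lit 1495170), (nat_lit 1507746), (nat_lit 1605240), (nat_lit 1602541), (nat_lit 1693606), (nat_lit 1693384)]⟩, ⟨(nat_lit 5), false, false, true, (nat_lit 189), (nat_lit 2236), (nat_lit 3163), [(nat_lit 1411379), (nat_lit 1408901), (nat_lit 1477844), (nat_lit 1477224), (nat_lit 1472332), (nat_lit 1465917), (nat_lit 1538797), (nat_lit 1534240)]⟩, (nat_lit 4974582), (nat_lit 41628487), (nat_lit 14243336), (nat_lit 11128177), (nat_lit 0), (nat_lit 0), [], [], [], [],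
 ⟨⟨[(nat_lit 40), (nat_lit 60)], [(nat_lit 0), (nat_lit 832)], [((nat_lit 0), (nat_lit 0), (nat_lit 0)), ((nat_lit 1000), (nat_lit 659), (nat_lit 528))], ((nat_lit 68), (nat_lit 100), (nat_lit 49))⟩, (nat_lit 0), (nat_lit 54), (nat_lit 54), (nat_lit 0), (nat_lit 0), [(nat_lit 1526400096), (nat_lit 1367200000)], [(nat_lit 0), (nat_lit 0)], [(nat_lit 20537671584), (nat_lit 22146975882), (nat_lit 23185292392), (nat_lit 24496881400), (nat_lit 21768176513), (nat_lit 23304595319), (nat_lit 24189617000), (nat_lit 25445222700)], (nat_lit 0), (nat_lit 0), (nat_lit 0), (nat_lit 0), (nat_lit 0), (nat_lit 0), [], [(nat_lit 1), (nat_lit 38), (nat_lit 272), (nat_lit 60), (nat_lit 14)]⟩,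
 Rw.none,
 Rw.none⟩) (.leaf ⟨(nat_lit 927), (nat_lit 37), (nat_lit 0), (nat_lit 36), (nat_lit 0), (nat_lit 3269), (nat_lit 760), (nat_lit 375), (nat_lit 0), (nat_lit 0), (nat_lit 252300), [((nat_lit 380), [((nat_lit 24), (nat_lit 0), (nat_lit 790)), ((nat_lit 24), (nat_lit 1), (nat_lit 137))])], ⟨(nat_lit 6), false, false, false, (nat_lit 221), (nat_lit 2236), (nat_lit 3163), [(nat_lit 1406804), (nat_lit 1416903), (nat_lit 1495170), (nat_lit 1507746), (nat_lit 1605240), (nat_lit 1602541), (nat_lit 1693606), (nat_lit 1693384)]⟩, ⟨(nat_lit 5), false, true, true, (nat_lit 212), (nat_lit 2236), (nat_lit 3163), [(nat_lit 1477844), (nat_lit 1477224), (nat_lit 1522091), (nat_lit 1522710), (nat_lit 1538797), (nat_lit 1534240), (nat_lit 1583107), (nat_lit 1579788)]⟩, (nat_lit 5135537), (nat_lit 40115231), (nat_lit 13903469), (nat_lit 12981300), (nat_lit 5), (nat_lit 0), [⟨(nat_lit 0), (nat_lit 82), (nat_lit 44), (nat_lit 100), (nat_lit 49435725)⟩], [], [⟨(nat_lit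 0), (nat_lit 100), (nat_lit 92), (nat_lit 40), (nat_lit 302705)⟩], [],
 ⟨⟨[(nat_lit 40), (nat_lit 60)], [(nat_lit 0), (nat_lit 832)], [((nat_lit 0), (nat_lit 0), (nat_lit 0)), ((nat_lit 1000), (nat_lit 659), (nat_lit 528))], ((nat_lit 68), (nat_lit 100), (nat_lit 49))⟩, (nat_lit 1055), (nat_lit 54), (nat_lit 54), (nat_lit 0), (nat_lit 0), [(nat_lit 1525622002), (nat_lit 1454043600)], [(nat_lit 0), (nat_lit 0)], [(nat_lit 20710291601), (nat_lit 22097518373), (nat_lit 23352021356), (nat_lit 24491167785), (nat_lit 21902521407), (nat_lit 23219380960), (nat_lit 24317562562), (nat_lit 25383214834)], (nat_lit 0), (nat_lit 0), (nat_lit 0), (nat_lit 0), (nat_lit 0), (nat_lit 0), [], [(nat_lit 1), (nat_lit 38), (nat_lit 272), (nat_lit 60), (nat_lit 14)]⟩,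
 ⟨⟨[(nat_lit 80), (nat_lit 120), (nat_lit 140)], [(nat_lit 0), (nat_lit 0), (nat_lit 1164)], [((nat_lit 0), (nat_lit 0), (nat_lit 0)), ((nat_lit 0), (nat_lit 0), (nat_lit 0)), ((nat_lit 941), (nat_lit 1000), (nat_lit 576))], ((nat_lit 100), (nat_lit 99), (nat_lit 44))⟩, (nat_lit 156939), (nat_lit 732), (nat_lit 732), (nat_lit 0), (nat_lit 1067570), [(nat_lit 342224000), (nat_lit 581664000), (nat_lit 718466000)], [], [(nat_lit 4330825380), (nat_lit 2704387760), (nat_lit 2358252512), (nat_lit 2448311188), (nat_lit 2953033140), (nat_lit 2855120750), (nat_lit 4298191496), (nat_lit 3013186536)], (nat_lit 1271251), (nat_lit 1271251), (nat_lit 704688), (nat_lit 1756876), (nat_lit 0), (nat_lit 2825001), [(nat_lit 1100000), (nat_lit 1785001), (nat_lit 1271251)], [(nat_lit 17), (nat_lit 58), (nat_lit 483), (nat_lit 250), (nat_lit 14)]⟩,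
 ⟨⟨[(nat_lit 120), (nat_lit 140), (nat_lit 160)], [(nat_lit 0), (nat_lit 266), (nat_lit 862)], [((nat_lit 0), (nat_lit 0), (nat_lit 0)), ((nat_lit 960), (nat_lit 1000), (nat_lit 200)), ((nat_lit 874), (nat_lit 1000), (nat_lit 406))], ((nat_lit 100), (nat_lit 86), (nat_lit 44))⟩, (nat_lit 73895), (nat_lit 300), (nat_lit 1354), (nat_lit 2390400), (nat_lit 2299774), [(nat_lit 286848000), (nat_lit 354312000), (nat_lit 427392000)], [], [(nat_lit 1788837365), (nat_lit 1754377910), (nat_lit 1754800209), (nat_lit 1724607540), (nat_lit 2355212160), (nat_lit 2026212660), (nat_lit 2024147535), (nat_lit 1699278285)], (nat_lit 1271251), (nat_lit 1271251), (nat_lit 1271251), (nat_lit 1271251), (nat_lit 0), (nat_lit 2825001), [(nat_lit 1695001), (nat_lit 1271251), (nat_lit 1271251)], [(nat_lit 27), (nat_lit 62), (nat_lit 456), (nat_lit 225), (nat_lit 12)]⟩⟩))) (.spl (nat_lit 5) (nat_lit 120) (.leaf ⟨(nat_lit 723), (nat_lit 175), (nat_lit 0), (nat_lit 102), (nat_lit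 0), (nat_lit 3695), (nat_lit 2276), (nat_lit 1097), (nat_lit 0), (nat_lit 0), (nat_lit 289200), [((nat_lit 380), [((nat_lit 24), (nat_lit 1), (nat_lit 723))])], ⟨(nat_lit 6), false, false, false, (nat_lit 221), (nat_lit 2236), (nat_lit 3163), [(nat_lit 1406804), (nat_lit 1416903), (nat_lit 1495170), (nat_lit 1507746), (nat_lit 1605240), (nat_lit 1602541), (nat_lit 1693606), (nat_lit 1693384)]⟩, ⟨(nat_lit 3), false, false, true, (nat_lit 175), (nat_lit 2236), (nat_lit 3163), [(nat_lit 1289472), (nat_lit 1294870), (nat_lit 1399976), (nat_lit 1408471), (nat_lit 1472332), (nat_lit 1465917), (nat_lit 1583107), (nat_lit 1579788)]⟩, (nat_lit 4853630), (nat_lit 42606561), (nat_lit 14449555), (nat_lit 9943884), (nat_lit 3), (nat_lit 0), [⟨(nat_lit 0), (nat_lit 93), (nat_lit 53), (nat_lit 100), (nat_lit 135456926)⟩], [], [], [],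
 ⟨⟨[(nat_lit 40), (nat_lit 60)], [(nat_lit 0), (nat_lit 832)], [((nat_lit 0), (nat_lit 0), (nat_lit 0)), ((nat_lit 1000), (nat_lit 659), (nat_lit 528))], ((nat_lit 68), (nat_lit 100), (nat_lit 49))⟩, (nat_lit 0), (nat_lit 144), (nat_lit 144), (nat_lit 0), (nat_lit 340776), [(nat_lit 1492894011), (nat_lit 1618232400)], [(nat_lit 0), (nat_lit 0)], [(nat_lit 19419547877), (nat_lit 21153594136), (nat_lit 22268723113), (nat_lit 23699231768), (nat_lit 22177725196), (nat_lit 23667545367), (nat_lit 24422195593), (nat_lit 25710286890)], (nat_lit 1271251), (nat_lit 1271251), (nat_lit 704688), (nat_lit 1756876), (nat_lit 780000), (nat_lit 1762501), [(nat_lit 490000), (nat_lit 780000)], [(nat_lit 1), (nat_lit 38), (nat_lit 272), (nat_lit 60), (nat_lit 15)]⟩,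
 ⟨⟨[(nat_lit 80), (nat_lit 120), (nat_lit 140)], [(nat_lit 0), (nat_lit 0), (nat_lit 1164)], [((nat_lit 0), (nat_lit 0), (nat_lit 0)), ((nat_lit 0), (nat_lit 0), (nat_lit 0)), ((nat_lit 941), (nat_lit 1000), (nat_lit 576))], ((nat_lit 100), (nat_lit 99), (nat_lit 44))⟩, (nat_lit 258404), (nat_lit 445), (nat_lit 445), (nat_lit 0), (nat_lit 460430), [(nat_lit 1298576000), (nat_lit 2207136000), (nat_lit 2726234000)], [], [(nat_lit 10722586564), (nat_lit 10903640849), (nat_lit 11171351528), (nat_lit 10886212008), (nat_lit 8961309929), (nat_lit 9544081408), (nat_lit 12800791832), (nat_lit 9497290434)], (nat_lit 1271251), (nat_lit 1271251), (nat_lit 704688), (nat_lit 1756876), (nat_lit 0), (nat_lit 780000), [(nat_lit 1100000), (nat_lit 1785001), (nat_lit 1271251)], [(nat_lit 17), (nat_lit 58), (nat_lit 401), (nat_lit 175), (nat_lit 12)]⟩,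
 ⟨⟨[(nat_lit 140), (nat_lit 160), (nat_lit 180)], [(nat_lit 0), (nat_lit 0), (nat_lit 799)], [((nat_lit 0), (nat_lit 0), (nat_lit 0)), ((nat_lit 0), (nat_lit 0), (nat_lit 0)), ((nat_lit 728), (nat_lit 1000), (nat_lit 454))], ((nat_lit 100), (nat_lit 71), (nat_lit 48))⟩, (nat_lit 89617), (nat_lit 300), (nat_lit 1038), (nat_lit 7568401), (nat_lit 1312690), [(nat_lit 1003884000), (nat_lit 1210944000), (nat_lit 1433916000)], [], [(nat_lit 6876741516), (nat_lit 6543717240), (nat_lit 6467746064), (nat_lit 6234638159), (nat_lit 6121097819), (nat_lit 5797279193), (nat_lit 5723964580), (nat_lit 6900740150)], (nat_lit 780000), (nat_lit 1598751), (nat_lit 780000), (nat_lit 1762501), (nat_lit 0), (nat_lit 780000), [(nat_lit 1977501), (nat_lit 1271251), (nat_lit 1271251)], [(nat_lit 31), (nat_lit 65), (nat_lit 373), (nat_lit 150), (nat_lit 9)]⟩⟩) (.leaf ⟨(nat_lit 813), (nat_lit 62), (nat_lit 0), (nat_lit 125), (nat_lit 0), (nat_lit 3520), (nat_lit 1374), (nat_lit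 1133), (nat_lit 0), (nat_lit 0), (nat_lit 325200), [((nat_lit 380), [((nat_lit 24), (nat_lit 1), (nat_lit 813))])], ⟨(nat_lit 6), false, false, false, (nat_lit 221), (nat_lit 2236), (nat_lit 3163), [(nat_lit 1406804), (nat_lit 1416903), (nat_lit 1495170), (nat_lit 1507746), (nat_lit 1605240), (nat_lit 1602541), (nat_lit 1693606), (nat_lit 1693384)]⟩, ⟨(nat_lit 3), false, false, true, (nat_lit 175), (nat_lit 2236), (nat_lit 3163), [(nat_lit 1289472), (nat_lit 1294870), (nat_lit 1399976), (nat_lit 1408471), (nat_lit 1472332), (nat_lit 1465917), (nat_lit 1583107), (nat_lit 1579788)]⟩, (nat_lit 4853630), (nat_lit 42606561), (nat_lit 14449555), (nat_lit 9943884), (nat_lit 3), (nat_lit 0), [⟨(nat_lit 0), (nat_lit 93), (nat_lit 53), (nat_lit 100), (nat_lit 87258026)⟩], [], [], [],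
 ⟨⟨[(nat_lit 40), (nat_lit 60)], [(nat_lit 0), (nat_lit 832)], [((nat_lit 0), (nat_lit 0), (nat_lit 0)), ((nat_lit 1000), (nat_lit 659), (nat_lit 528))], ((nat_lit 68), (nat_lit 100), (nat_lit 49))⟩, (nat_lit 0), (nat_lit 144), (nat_lit 144), (nat_lit 0), (nat_lit 340776), [(nat_lit 1454914001), (nat_lit 1411124400)], [(nat_lit 0), (nat_lit 0)], [(nat_lit 19508667253), (nat_lit 20941298738), (nat_lit 22367880883), (nat_lit 23532690483), (nat_lit 22271550103), (nat_lit 23483440270), (nat_lit 24543952163), (nat_lit 25575834040)], (nat_lit 1271251), (nat_lit 1271251), (nat_lit 704688), (nat_lit 1756876), (nat_lit 780000), (nat_lit 1762501), [(nat_lit 490000), (nat_lit 780000)], [(nat_lit 1), (nat_lit 38), (nat_lit 272), (nat_lit 60), (nat_lit 15)]⟩,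
 ⟨⟨[(nat_lit 80), (nat_lit 120), (nat_lit 140)], [(nat_lit 0), (nat_lit 0), (nat_lit 1164)], [((nat_lit 0), (nat_lit 0), (nat_lit 0)), ((nat_lit 0), (nat_lit 0), (nat_lit 0)), ((nat_lit 941), (nat_lit 1000), (nat_lit 576))], ((nat_lit 100), (nat_lit 99), (nat_lit 44))⟩, (nat_lit 103906), (nat_lit 333), (nat_lit 333), (nat_lit 0), (nat_lit 460430), [(nat_lit 876656000), (nat_lit 1490016000), (nat_lit 1840454000)], [], [(nat_lit 7712544353), (nat_lit 6099996697), (nat_lit 6051021404), (nat_lit 6210470968), (nat_lit 8961876598), (nat_lit 7445464173), (nat_lit 11524925012), (nat_lit 9144283148)], (nat_lit 1271251), (nat_lit 1271251), (nat_lit 704688), (nat_lit 1756876), (nat_lit 780000), (nat_lit 3072501), [(nat_lit 1100000), (nat_lit 1785001), (nat_lit 1271251)], [(nat_lit 17), (nat_lit 58), (nat_lit 483), (nat_lit 250), (nat_lit 14)]⟩,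
 ⟨⟨[(nat_lit 140), (nat_lit 160), (nat_lit 180)], [(nat_lit 0), (nat_lit 0), (nat_lit 799)], [((nat_lit 0), (nat_lit 0), (nat_lit 0)), ((nat_lit 0), (nat_lit 0), (nat_lit 0)), ((nat_lit 728), (nat_lit 1000), (nat_lit 454))], ((nat_lit 100), (nat_lit 71), (nat_lit 48))⟩, (nat_lit 109825), (nat_lit 300), (nat_lit 955), (nat_lit 9275000), (nat_lit 1312690), [(nat_lit 1230250000), (nat_lit 1484000000), (nat_lit 1757250000)], [], [(nat_lit 8604288529), (nat_lit 8289512421), (nat_lit 8218101175), (nat_lit 7894887812), (nat_lit 8066800850), (nat_lit 7713730442), (nat_lit 7635658406), (nat_lit 8460740465)], (nat_lit 780000), (nat_lit 1598751), (nat_lit 780000), (nat_lit 1762501), (nat_lit 780000), (nat_lit 3072501), [(nat_lit 1977501), (nat_lit 1271251), (nat_lit 1271251)], [(nat_lit 31), (nat_lit 65), (nat_lit 456), (nat_lit 225), (nat_lit 11)]⟩⟩)))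
noncomputable def c17_16 : Tr Lf :=
 (.spl (nat_lit 2) (nat_lit 180) (.spl (nat_lit 2) (nat_lit 160) (.trX (nat_lit 5) (nat_lit 1) (nat_lit 2) (nat_lit 100) (nat_lit 40) (nat_lit 100) (nat_lit 390) (.leaf ⟨(nat_lit 35), (nat_lit 965), (nat_lit 0), (nat_lit 0), (nat_lit 0), (nat_lit 4588), (nat_lit 6994), (nat_lit 0), (nat_lit 0), (nat_lit 0), (nat_lit 140000), [((nat_lit 380), [((nat_lit 41), (nat_lit 5), (nat_lit 35))])], ⟨(nat_lit 6), true, false, true, (nat_lit 307), (nat_lit 2236), (nat_lit 3163), [(nat_lit 1605240), (nat_lit 1602541), (nat_lit 1693606), (nat_lit 1693384), (nat_lit 1849075), (nat_lit 1830625), (nat_lit 1937695), (nat_lit 1921722)]⟩, ⟨(nat_lit 3), false, false, true, (nat_lit 161), (nat_lit 2236), (nat_lit 3163), [(nat_lit 1289472), (nat_lit 1294870), (nat_lit 1333702), (nat_lit 1340339), (nat_lit 1472332), (nat_lit 1465917), (nat_lit 1516642), (nat_lit 1511466)]⟩, (nat_lit 5091425), (nat_lit 36691031), (nat_lit 22361097), (nat_lit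 7947872), (nat_lit 3), (nat_lit 0), [], [], [⟨(nat_lit 1), (nat_lit 69), (nat_lit 96), (nat_lit 100), (nat_lit 144105853)⟩, ⟨(nat_lit 1), (nat_lit 40), (nat_lit 100), (nat_lit 100), (nat_lit 32436430)⟩], [],
 ⟨⟨[(nat_lit 40), (nat_lit 60)], [(nat_lit 0), (nat_lit 832)], [((nat_lit 0), (nat_lit 0), (nat_lit 0)), ((nat_lit 1000), (nat_lit 659), (nat_lit 528))], ((nat_lit 68), (nat_lit 100), (nat_lit 49))⟩, (nat_lit 683580), (nat_lit 277), (nat_lit 277), (nat_lit 0), (nat_lit 715897), [(nat_lit 1896298002), (nat_lit 2877456000)], [(nat_lit 0), (nat_lit 0)], [(nat_lit 23804583800), (nat_lit 24884407662), (nat_lit 32270528948), (nat_lit 33423169494), (nat_lit 25562780692), (nat_lit 26464148560), (nat_lit 32727591096), (nat_lit 33691210540)], (nat_lit 1271251), (nat_lit 1271251), (nat_lit 1271251), (nat_lit 1271251), (nat_lit 780000), (nat_lit 1762501), [(nat_lit 490000), (nat_lit 780000)], [(nat_lit 1), (nat_lit 38), (nat_lit 203), (nat_lit 0), (nat_lit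 9)]⟩,
 ⟨⟨[(nat_lit 80), (nat_lit 120), (nat_lit 140)], [(nat_lit 0), (nat_lit 0), (nat_lit 1164)], [((nat_lit 0), (nat_lit 0), (nat_lit 0)), ((nat_lit 0), (nat_lit 0), (nat_lit 0)), ((nat_lit 941), (nat_lit 1000), (nat_lit 576))], ((nat_lit 100), (nat_lit 99), (nat_lit 44))⟩, (nat_lit 2461109), (nat_lit 230), (nat_lit 230), (nat_lit 0), (nat_lit 0), [(nat_lit 4523920000), (nat_lit 7689120000), (nat_lit 9497530000)], [], [(nat_lit 25266480476), (nat_lit 30640220276), (nat_lit 37372375228), (nat_lit 40263236060), (nat_lit 30933908587), (nat_lit 33368873572), (nat_lit 36896248623), (nat_lit 38337181708)], (nat_lit 0), (nat_lit 0), (nat_lit 0), (nat_lit 0), (nat_lit 0), (nat_lit 0), [], [(nat_lit 17), (nat_lit 58), (nat_lit 538), (nat_lit 300), (nat_lit 15)]⟩,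
 Rw.none⟩)) (.leaf ⟨(nat_lit 35), (nat_lit 965), (nat_lit 0), (nat_lit 0), (nat_lit 0), (nat_lit 4545), (nat_lit 7015), (nat_lit 0), (nat_lit 0), (nat_lit 0), (nat_lit 140000), [((nat_lit 380), [((nat_lit 41), (nat_lit 5), (nat_lit 35))])], ⟨(nat_lit 6), true, false, true, (nat_lit 307), (nat_lit 2236), (nat_lit 3163), [(nat_lit 1605240), (nat_lit 1602541), (nat_lit 1693606), (nat_lit 1693384), (nat_lit 1849075), (nat_lit 1830625), (nat_lit 1937695), (nat_lit 1921722)]⟩, ⟨(nat_lit 4), false, false, true, (nat_lit 175), (nat_lit 2236), (nat_lit 3163), [(nat_lit 1333702), (nat_lit 1340339), (nat_lit 1355794), (nat_lit 1363050), (nat_lit 1516642), (nat_lit 1511466), (nat_lit 1538797), (nat_lit 1534240)]⟩, (nat_lit 5201248), (nat_lit 36058253), (nat_lit 22051079), (nat_lit 8890668), (nat_lit 4), (nat_lit 0), [], [], [⟨(nat_lit 1), (nat_lit 54), (nat_lit 93), (nat_lit 100), (nat_lit 186125963)⟩], [],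
 ⟨⟨[(nat_lit 40), (nat_lit 60)], [(nat_lit 0), (nat_lit 832)], [((nat_lit 0), (nat_lit 0), (nat_lit 0)), ((nat_lit 1000), (nat_lit 659), (nat_lit 528))], ((nat_lit 68), (nat_lit 100), (nat_lit 49))⟩, (nat_lit 307877), (nat_lit 252), (nat_lit 252), (nat_lit 0), (nat_lit 617168), [(nat_lit 1896298004), (nat_lit 2877456000)], [(nat_lit 0), (nat_lit 0)], [(nat_lit 23537159991), (nat_lit 24689818784), (nat_lit 32196097195), (nat_lit 33343731273), (nat_lit 25404533166), (nat_lit 26364476731), (nat_lit 32672385890), (nat_lit 33632291725)], (nat_lit 1271251), (nat_lit 1271251), (nat_lit 1271251), (nat_lit 1271251), (nat_lit 780000), (nat_lit 1762501), [(nat_lit 490000), (nat_lit 780000)], [(nat_lit 1), (nat_lit 38), (nat_lit 203), (nat_lit 0), (nat_lit 9)]⟩,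
 ⟨⟨[(nat_lit 80), (nat_lit 120), (nat_lit 140)], [(nat_lit 0), (nat_lit 0), (nat_lit 1164)], [((nat_lit 0), (nat_lit 0), (nat_lit 0)), ((nat_lit 0), (nat_lit 0), (nat_lit 0)), ((nat_lit 941), (nat_lit 1000), (nat_lit 576))], ((nat_lit 100), (nat_lit 99), (nat_lit 44))⟩, (nat_lit 2416199), (nat_lit 230), (nat_lit 230), (nat_lit 0), (nat_lit 0), [(nat_lit 4523920000), (nat_lit 7689120000), (nat_lit 9497530000)], [], [(nat_lit 25318185104), (nat_lit 30700838984), (nat_lit 37445644924), (nat_lit 40339165364), (nat_lit 31587478400), (nat_lit 33910215800), (nat_lit 37318462620), (nat_lit 38835769280)], (nat_lit 0), (nat_lit 0), (nat_lit 0), (nat_lit 0), (nat_lit 0), (nat_lit 0), [], [(nat_lit 17), (nat_lit 58), (nat_lit 538), (nat_lit 300), (nat_lit 15)]⟩,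
 Rw.none⟩)) (.leaf ⟨(nat_lit 0), (nat_lit 903), (nat_lit 0), (nat_lit 97), (nat_lit 0), (nat_lit 4663), (nat_lit 7197), (nat_lit 815), (nat_lit 0), (nat_lit 0), (nat_lit 0), [], Pd.none, Pd.none, (nat_lit 0), (nat_lit 1), (nat_lit 0), (nat_lit 0), (nat_lit 4), (nat_lit 0), [], [], [⟨(nat_lit 1), (nat_lit 40), (nat_lit 92), (nat_lit 100), (nat_lit 116912530)⟩], [],
 ⟨⟨[(nat_lit 40), (nat_lit 60)], [(nat_lit 0), (nat_lit 832)], [((nat_lit 0), (nat_lit 0), (nat_lit 0)), ((nat_lit 1000), (nat_lit 659), (nat_lit 528))], ((nat_lit 68), (nat_lit 100), (nat_lit 49))⟩, (nat_lit 992056), (nat_lit 244), (nat_lit 244), (nat_lit 0), (nat_lit 585473), [(nat_lit 2032000010), (nat_lit 3282000000)], [], [(nat_lit 23632620247), (nat_lit 24800354307), (nat_lit 32400351773), (nat_lit 33561724532), (nat_lit 25483947192), (nat_lit 26455213683), (nat_lit 32823879246), (nat_lit 33793975915)], (nat_lit 1271251), (nat_lit 1271251), (nat_lit 1271251), (nat_lit 1271251), (nat_lit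 780000), (nat_lit 1762501), [(nat_lit 490000), (nat_lit 780000)], [(nat_lit 1), (nat_lit 38), (nat_lit 203), (nat_lit 0), (nat_lit 9)]⟩,
 ⟨⟨[(nat_lit 80), (nat_lit 120), (nat_lit 140)], [(nat_lit 0), (nat_lit 0), (nat_lit 1164)], [((nat_lit 0), (nat_lit 0), (nat_lit 0)), ((nat_lit 0), (nat_lit 0), (nat_lit 0)), ((nat_lit 941), (nat_lit 1000), (nat_lit 576))], ((nat_lit 100), (nat_lit 99), (nat_lit 44))⟩, (nat_lit 2409098), (nat_lit 230), (nat_lit 230), (nat_lit 0), (nat_lit 0), [(nat_lit 4688000000), (nat_lit 7968000000), (nat_lit 9842000000)], [], [(nat_lit 26388038732), (nat_lit 31895835604), (nat_lit 38841637920), (nat_lit 41830931576), (nat_lit 32874061952), (nat_lit 35166736016), (nat_lit 38683224872), (nat_lit 40140471448)], (nat_lit 0), (nat_lit 0), (nat_lit 0), (nat_lit 0), (nat_lit 0), (nat_lit 0), [], [(nat_lit 17), (nat_lit 58), (nat_lit 538), (nat_lit 300), (nat_lit 15)]⟩,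
 ⟨⟨[(nat_lit 120), (nat_lit 140), (nat_lit 160)], [(nat_lit 0), (nat_lit 266), (nat_lit 862)], [((nat_lit 0), (nat_lit 0), (nat_lit 0)), ((nat_lit 960), (nat_lit 1000), (nat_lit 200)), ((nat_lit 874), (nat_lit 1000), (nat_lit 406))], ((nat_lit 100), (nat_lit 86), (nat_lit 44))⟩, (nat_lit 196463), (nat_lit 300), (nat_lit 2056), (nat_lit 6445821), (nat_lit 3659527), [(nat_lit 772896000), (nat_lit 954674000), (nat_lit 1151584000)], [], [(nat_lit 7665308230), (nat_lit 7579750501), (nat_lit 7390844345), (nat_lit 7305222767), (nat_lit 6772587167), (nat_lit 6686657551), (nat_lit 7111331395), (nat_lit 6413660875)], (nat_lit 1271251), (nat_lit 1271251), (nat_lit 780000), (nat_lit 1762501), (nat_lit 0), (nat_lit 2825001), [(nat_lit 1695001), (nat_lit 1271251), (nat_lit 1271251)], [(nat_lit 27), (nat_lit 62), (nat_lit 622), (nat_lit 225), (nat_lit 16)]⟩⟩))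
noncomputable def c17_17 : Tr Lf :=
 (.spl (nat_lit 1) (nat_lit 280) (.spl (nat_lit 2) (nat_lit 160) (.trX (nat_lit 5) (nat_lit 1) (nat_lit 2) (nat_lit 100) (nat_lit 40) (nat_lit 100) (nat_lit 390) (.leaf ⟨(nat_lit 1000), (nat_lit 0), (nat_lit 0), (nat_lit 0), (nat_lit 0), (nat_lit 3142), (nat_lit 0), (nat_lit 0), (nat_lit 0), (nat_lit 0), (nat_lit 250000), [((nat_lit 380), [((nat_lit 24), (nat_lit 0), (nat_lit 1000))])], ⟨(nat_lit 6), false, true, true, (nat_lit 274), (nat_lit 2236), (nat_lit 3163), [(nat_lit 1605240), (nat_lit 1602541), (nat_lit 1649422), (nat_lit 1647962), (nat_lit 1727168), (nat_lit 1716594), (nat_lit 1771478), (nat_lit 1762142)]⟩, ⟨(nat_lit 3), false, false, true, (nat_lit 161), (nat_lit 2236), (nat_lit 3163), [(nat_lit 1289472), (nat_lit 1294870), (nat_lit 1333702), (nat_lit 1340339), (nat_lit 1472332), (nat_lit 1465917), (nat_lit 1516642), (nat_lit 1511466)]⟩, (nat_lit 5003442), (nat_lit 39220274), (nat_lit 19453689), (nat_lit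 8326037), (nat_lit 0), (nat_lit 0), [], [], [], [],
 ⟨⟨[(nat_lit 40), (nat_lit 60)], [(nat_lit 0), (nat_lit 832)], [((nat_lit 0), (nat_lit 0), (nat_lit 0)), ((nat_lit 1000), (nat_lit 659), (nat_lit 528))], ((nat_lit 68), (nat_lit 100), (nat_lit 49))⟩, (nat_lit 0), (nat_lit 69), (nat_lit 69), (nat_lit 0), (nat_lit 0), [(nat_lit 1526400011), (nat_lit 1367200000)], [(nat_lit 0), (nat_lit 0)], [(nat_lit 22050208745), (nat_lit 23303116446), (nat_lit 25360784288), (nat_lit 26572396023), (nat_lit 24400437234), (nat_lit 25494894576), (nat_lit 27230143602), (nat_lit 28163728368)], (nat_lit 0), (nat_lit 0), (nat_lit 0), (nat_lit 0), (nat_lit 0), (nat_lit 0), [], [(nat_lit 1), (nat_lit 38), (nat_lit 203), (nat_lit 0), (nat_lit 9)]⟩,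
 Rw.none,
 Rw.none⟩)) (.leaf ⟨(nat_lit 942), (nat_lit 35), (nat_lit 0), (nat_lit 23), (nat_lit 0), (nat_lit 3161), (nat_lit 535), (nat_lit 249), (nat_lit 0), (nat_lit 0), (nat_lit 235500), [((nat_lit 380), [((nat_lit 24), (nat_lit 0), (nat_lit 942))])], ⟨(nat_lit 6), false, true, true, (nat_lit 274), (nat_lit 2236), (nat_lit 3163), [(nat_lit 1605240), (nat_lit 1602541), (nat_lit 1649422), (nat_lit 1647962), (nat_lit 1727168), (nat_lit 1716594), (nat_lit 1771478), (nat_lit 1762142)]⟩, ⟨(nat_lit 4), false, false, true, (nat_lit 175), (nat_lit 2236), (nat_lit 3163), [(nat_lit 1333702), (nat_lit 1340339), (nat_lit 1355794), (nat_lit 1363050), (nat_lit 1516642), (nat_lit 1511466), (nat_lit 1538797), (nat_lit 1534240)]⟩, (nat_lit 5116784), (nat_lit 38493811), (nat_lit 19190472), (nat_lit 9315717), (nat_lit 4), (nat_lit 0), [], [], [], [],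
 ⟨⟨[(nat_lit 40), (nat_lit 60)], [(nat_lit 0), (nat_lit 832)], [((nat_lit 0), (nat_lit 0), (nat_lit 0)), ((nat_lit 1000), (nat_lit 659), (nat_lit 528))], ((nat_lit 68), (nat_lit 100), (nat_lit 49))⟩, (nat_lit 0), (nat_lit 69), (nat_lit 69), (nat_lit 0), (nat_lit 0), [(nat_lit 1542152803), (nat_lit 1478258400)], [(nat_lit 0), (nat_lit 0)], [(nat_lit 22156661000), (nat_lit 23413045996), (nat_lit 25406969830), (nat_lit 26597605347), (nat_lit 24489986883), (nat_lit 25540682451), (nat_lit 27246629496), (nat_lit 28182384544)], (nat_lit 0), (nat_lit 0), (nat_lit 0), (nat_lit 0), (nat_lit 0), (nat_lit 0), [], [(nat_lit 1), (nat_lit 38), (nat_lit 203), (nat_lit 0), (nat_lit 9)]⟩,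
 ⟨⟨[(nat_lit 80), (nat_lit 120), (nat_lit 140)], [(nat_lit 0), (nat_lit 0), (nat_lit 1164)], [((nat_lit 0), (nat_lit 0), (nat_lit 0)), ((nat_lit 0), (nat_lit 0), (nat_lit 0)), ((nat_lit 941), (nat_lit 1000), (nat_lit 576))], ((nat_lit 100), (nat_lit 99), (nat_lit 44))⟩, (nat_lit 92620), (nat_lit 680), (nat_lit 680), (nat_lit 0), (nat_lit 1085516), [(nat_lit 271904000), (nat_lit 462144000), (nat_lit 570836000)], [], [(nat_lit 2192010600), (nat_lit 2222437052), (nat_lit 2252863504), (nat_lit 2271450396), (nat_lit 2057087348), (nat_lit 1977027394), (nat_lit 2085195076), (nat_lit 2164350828)], (nat_lit 1271251), (nat_lit 1271251), (nat_lit 1271251), (nat_lit 1271251), (nat_lit 0), (nat_lit 2825001), [(nat_lit 1100000), (nat_lit 1785001), (nat_lit 1271251)], [(nat_lit 17), (nat_lit 58), (nat_lit 483), (nat_lit 250), (nat_lit 14)]⟩,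
 ⟨⟨[(nat_lit 120), (nat_lit 160), (nat_lit 180)], [(nat_lit 0), (nat_lit 0), (nat_lit 1613)], [((nat_lit 0), (nat_lit 0), (nat_lit 0)), ((nat_lit 0), (nat_lit 0), (nat_lit 0)), ((nat_lit 620), (nat_lit 1000), (nat_lit 670))], ((nat_lit 100), (nat_lit 81), (nat_lit 44))⟩, (nat_lit 10010), (nat_lit 300), (nat_lit 1559), (nat_lit 1706600), (nat_lit 2495821), [(nat_lit 183264000), (nat_lit 273056000), (nat_lit 323334000)], [], [(nat_lit 1517053940), (nat_lit 1502788961), (nat_lit 1418740340), (nat_lit 1404186178), (nat_lit 1356130468), (nat_lit 1430406163), (nat_lit 1755711828), (nat_lit 1834176325)], (nat_lit 1100000), (nat_lit 1271251), (nat_lit 780000), (nat_lit 1762501), (nat_lit 0), (nat_lit 2825001), [(nat_lit 1695001), (nat_lit 1271251), (nat_lit 1271251)], [(nat_lit 28), (nat_lit 65), (nat_lit 493), (nat_lit 225), (nat_lit 12)]⟩⟩)) (.trX (nat_lit 5) (nat_lit 1) (nat_lit 2) (nat_lit 92) (nat_lit 49) (nat_lit 100) (nat_lit 380) (.spl (nat_lit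 2) (nat_lit 160) (.trX (nat_lit 5) (nat_lit 1) (nat_lit 2) (nat_lit 94) (nat_lit 59) (nat_lit 100) (nat_lit 370) (.spl (nat_lit 4) (nat_lit 200) (.leaf ⟨(nat_lit 949), (nat_lit 51), (nat_lit 0), (nat_lit 0), (nat_lit 0), (nat_lit 3162), (nat_lit 384), (nat_lit 0), (nat_lit 0), (nat_lit 0), (nat_lit 237250), [((nat_lit 380), [((nat_lit 24), (nat_lit 0), (nat_lit 949))])], ⟨(nat_lit 7), false, true, false, (nat_lit 292), (nat_lit 2236), (nat_lit 3163), [(nat_lit 1649422), (nat_lit 1647962), (nat_lit 1693606), (nat_lit 1693384), (nat_lit 1771478), (nat_lit 1762142), (nat_lit 1815720), (nat_lit 1807623)]⟩, ⟨(nat_lit 3), false, false, true, (nat_lit 149), (nat_lit 2236), (nat_lit 3163), [(nat_lit 1289472), (nat_lit 1294870), (nat_lit 1333702), (nat_lit 1340339), (nat_lit 1411379), (nat_lit 1408901), (nat_lit 1455689), (nat_lit 1454450)]⟩, (nat_lit 4953616), (nat_lit 38396083), (nat_lit 21309332), (nat_lit 7294585), (nat_lit 3), (nat_lit 0), [], [], [⟨(nat_lit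 1), (nat_lit 77), (nat_lit 91), (nat_lit 100), (nat_lit 8629982)⟩], [],
 ⟨⟨[(nat_lit 40), (nat_lit 60)], [(nat_lit 0), (nat_lit 832)], [((nat_lit 0), (nat_lit 0), (nat_lit 0)), ((nat_lit 1000), (nat_lit 659), (nat_lit 528))], ((nat_lit 68), (nat_lit 100), (nat_lit 49))⟩, (nat_lit 0), (nat_lit 69), (nat_lit 69), (nat_lit 0), (nat_lit 0), [(nat_lit 1540251626), (nat_lit 1464854800)], [(nat_lit 0), (nat_lit 0)], [(nat_lit 22140284700), (nat_lit 23396852711), (nat_lit 25390905560), (nat_lit 26598932153), (nat_lit 23508012598), (nat_lit 24630665940), (nat_lit 26437855500), (nat_lit 27434970189)], (nat_lit 0), (nat_lit 0), (nat_lit 0), (nat_lit 0), (nat_lit 0), (nat_lit 0), [], [(nat_lit 1), (nat_lit 38), (nat_lit 203), (nat_lit 0), (nat_lit 9)]⟩,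
 ⟨⟨[(nat_lit 60), (nat_lit 100), (nat_lit 120)], [(nat_lit 0), (nat_lit 0), (nat_lit 1164)], [((nat_lit 0), (nat_lit 0), (nat_lit 0)), ((nat_lit 0), (nat_lit 0), (nat_lit 0)), ((nat_lit 1000), (nat_lit 933), (nat_lit 572))], ((nat_lit 92), (nat_lit 100), (nat_lit 44))⟩, (nat_lit 67279), (nat_lit 631), (nat_lit 631), (nat_lit 0), (nat_lit 1125852), [(nat_lit 167382000), (nat_lit 318750000), (nat_lit 406368000)], [], [(nat_lit 1799681670), (nat_lit 1852566192), (nat_lit 1892958396), (nat_lit 1933350600), (nat_lit 1727050371), (nat_lit 1745423699), (nat_lit 1756655502), (nat_lit 1770702029)], (nat_lit 1271251), (nat_lit 1271251), (nat_lit 1271251), (nat_lit 1271251), (nat_lit 0), (nat_lit 2613125), [(nat_lit 780000), (nat_lit 1435001), (nat_lit 1271251)], [(nat_lit 10), (nat_lit 54), (nat_lit 317), (nat_lit 100), (nat_lit 10)]⟩,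
 Rw.none⟩) (.spl (nat_lit 1) (nat_lit 300) (.leaf ⟨(nat_lit 986), (nat_lit 14), (nat_lit 0), (nat_lit 0), (nat_lit 0), (nat_lit 3205), (nat_lit 109), (nat_lit 0), (nat_lit 0), (nat_lit 0), (nat_lit 246500), [((nat_lit 380), [((nat_lit 24), (nat_lit 0), (nat_lit 986))])], ⟨(nat_lit 7), false, true, false, (nat_lit 288), (nat_lit 2236), (nat_lit 3163), [(nat_lit 1649422), (nat_lit 1647962), (nat_lit 1671514), (nat_lit 1670673), (nat_lit 1771478), (nat_lit 1762142), (nat_lit 1793619), (nat_lit 1784902)]⟩, ⟨(nat_lit 5), false, false, true, (nat_lit 185), (nat_lit 2236), (nat_lit 3163), [(nat_lit 1411379), (nat_lit 1408901), (nat_lit 1455689), (nat_lit 1454450), (nat_lit 1472332), (nat_lit 1465917), (nat_lit 1516642), (nat_lit 1511466)]⟩, (nat_lit 5236133), (nat_lit 36953202), (nat_lit 20160915), (nat_lit 9885883), (nat_lit 5), (nat_lit 0), [], [], [⟨(nat_lit 1), (nat_lit 73), (nat_lit 94), (nat_lit 100), (nat_lit 2153826)⟩], [],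
 ⟨⟨[(nat_lit 40), (nat_lit 60)], [(nat_lit 0), (nat_lit 832)], [((nat_lit 0), (nat_lit 0), (nat_lit 0)), ((nat_lit 1000), (nat_lit 659), (nat_lit 528))], ((nat_lit 68), (nat_lit 100), (nat_lit 49))⟩, (nat_lit 0), (nat_lit 54), (nat_lit 54), (nat_lit 0), (nat_lit 0), [(nat_lit 1530202416), (nat_lit 1394007200)], [(nat_lit 0), (nat_lit 0)], [(nat_lit 23375004346), (nat_lit 24521657352), (nat_lit 26385262152), (nat_lit 27479758323), (nat_lit 24344070962), (nat_lit 25447858667), (nat_lit 27187946282), (nat_lit 28225588320)], (nat_lit 0), (nat_lit 0), (nat_lit 0), (nat_lit 0), (nat_lit 0), (nat_lit 0), [], [(nat_lit 1), (nat_lit 38), (nat_lit 203), (nat_lit 0), (nat_lit 8)]⟩,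
 ⟨⟨[(nat_lit 60), (nat_lit 100), (nat_lit 120)], [(nat_lit 0), (nat_lit 0), (nat_lit 1164)], [((nat_lit 0), (nat_lit 0), (nat_lit 0)), ((nat_lit 0), (nat_lit 0), (nat_lit 0)), ((nat_lit 1000), (nat_lit 933), (nat_lit 572))], ((nat_lit 92), (nat_lit 100), (nat_lit 44))⟩, (nat_lit 6720), (nat_lit 627), (nat_lit 627), (nat_lit 0), (nat_lit 1116819), [(nat_lit 45948000), (nat_lit 87500000), (nat_lit 111552000)], [], [(nat_lit 493396802), (nat_lit 500703921), (nat_lit 519100560), (nat_lit 524645320), (nat_lit 469877198), (nat_lit 472321319), (nat_lit 477640525), (nat_lit 479078068)], (nat_lit 1271251), (nat_lit 1271251), (nat_lit 1271251), (nat_lit 1271251), (nat_lit 0), (nat_lit 2613125), [(nat_lit 780000), (nat_lit 1435001), (nat_lit 1271251)], [(nat_lit 10), (nat_lit 54), (nat_lit 317), (nat_lit 100), (nat_lit 10)]⟩,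
 Rw.none⟩) (.trX (nat_lit 5) (nat_lit 1) (nat_lit 2) (nat_lit 88) (nat_lit 68) (nat_lit 100) (nat_lit 350) (.leaf ⟨(nat_lit 695), (nat_lit 305), (nat_lit 0), (nat_lit 0), (nat_lit 0), (nat_lit 3083), (nat_lit 1755), (nat_lit 0), (nat_lit 0), (nat_lit 0), (nat_lit 360800), [((nat_lit 380), [((nat_lit 24), (nat_lit 0), (nat_lit 72)), ((nat_lit 24), (nat_lit 1), (nat_lit 155)), ((nat_lit 41), (nat_lit 2), (nat_lit 468))])], ⟨(nat_lit 7), false, true, false, (nat_lit 297), (nat_lit 2236), (nat_lit 3163), [(nat_lit 1671514), (nat_lit 1670673), (nat_lit 1693606), (nat_lit 1693384), (nat_lit 1793619), (nat_lit 1784902), (nat_lit 1815720), (nat_lit 1807623)]⟩, ⟨(nat_lit 5), false, false, true, (nat_lit 185), (nat_lit 2236), (nat_lit 3163), [(nat_lit 1411379), (nat_lit 1408901), (nat_lit 1455689), (nat_lit 1454450), (nat_lit 1472332), (nat_lit 1465917), (nat_lit 1516642), (nat_lit 1511466)]⟩, (nat_lit 5257968), (nat_lit 36302995), (nat_lit 20938379), (nat_lit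 9758626), (nat_lit 5), (nat_lit 0), [], [], [⟨(nat_lit 1), (nat_lit 68), (nat_lit 88), (nat_lit 100), (nat_lit 67157519)⟩], [],
 ⟨⟨[(nat_lit 40), (nat_lit 60)], [(nat_lit 0), (nat_lit 832)], [((nat_lit 0), (nat_lit 0), (nat_lit 0)), ((nat_lit 1000), (nat_lit 659), (nat_lit 528))], ((nat_lit 68), (nat_lit 100), (nat_lit 49))⟩, (nat_lit 0), (nat_lit 54), (nat_lit 54), (nat_lit 0), (nat_lit 0), [(nat_lit 1477434401), (nat_lit 1467314000)], [(nat_lit 0), (nat_lit 0)], [(nat_lit 23543394199), (nat_lit 24653870402), (nat_lit 26436509501), (nat_lit 27383473077), (nat_lit 24508791441), (nat_lit 25548684945), (nat_lit 27215720491), (nat_lit 28105796032)], (nat_lit 0), (nat_lit 0), (nat_lit 0), (nat_lit 0), (nat_lit 0), (nat_lit 0), [], [(nat_lit 1), (nat_lit 38), (nat_lit 203), (nat_lit 0), (nat_lit 8)]⟩,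
 ⟨⟨[(nat_lit 60), (nat_lit 80), (nat_lit 100)], [(nat_lit 0), (nat_lit 304), (nat_lit 825)], [((nat_lit 0), (nat_lit 0), (nat_lit 0)), ((nat_lit 1000), (nat_lit 905), (nat_lit 238)), ((nat_lit 1000), (nat_lit 871), (nat_lit 407))], ((nat_lit 87), (nat_lit 100), (nat_lit 44))⟩, (nat_lit 1238273), (nat_lit 538), (nat_lit 538), (nat_lit 0), (nat_lit 1076515), [(nat_lit 1001010000), (nat_lit 1429840000), (nat_lit 1906250000)], [], [(nat_lit 8490882314), (nat_lit 8703119244), (nat_lit 9222794334), (nat_lit 9396019364), (nat_lit 9059791395), (nat_lit 9169293114), (nat_lit 9448341767), (nat_lit 9679169923)], (nat_lit 1271251), (nat_lit 1271251), (nat_lit 1271251), (nat_lit 1271251), (nat_lit 0), (nat_lit 2471876), [(nat_lit 780000), (nat_lit 1100000), (nat_lit 1442501)], [(nat_lit 9), (nat_lit 50), (nat_lit 317), (nat_lit 100), (nat_lit 11)]⟩,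
 Rw.none⟩))))) (.spl (nat_lit 0) (nat_lit 370) (.leaf ⟨(nat_lit 497), (nat_lit 377), (nat_lit 0), (nat_lit 126), (nat_lit 0), (nat_lit 3246), (nat_lit 3763), (nat_lit 1194), (nat_lit 0), (nat_lit 0), (nat_lit 237650), [((nat_lit 370), [((nat_lit 24), (nat_lit 0), (nat_lit 173)), ((nat_lit 41), (nat_lit 2), (nat_lit 324))])], ⟨(nat_lit 7), false, true, false, (nat_lit 293), (nat_lit 2738), (nat_lit 3163), [(nat_lit 1649542), (nat_lit 1648700), (nat_lit 1693828), (nat_lit 1693511), (nat_lit 1771478), (nat_lit 1766852), (nat_lit 1815772), (nat_lit 1811670)]⟩, ⟨(nat_lit 4), false, false, true, (nat_lit 175), (nat_lit 2738), (nat_lit 3163), [(nat_lit 1333771), (nat_lit 1337030), (nat_lit 1355914), (nat_lit 1359435), (nat_lit 1516642), (nat_lit 1514225), (nat_lit 1538797), (nat_lit 1536642)]⟩, (nat_lit 5170558), (nat_lit 37107713), (nat_lit 20820499), (nat_lit 9071788), (nat_lit 4), (nat_lit 0), [], [], [], [],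
 ⟨⟨[(nat_lit 40), (nat_lit 60)], [(nat_lit 0), (nat_lit 832)], [((nat_lit 0), (nat_lit 0), (nat_lit 0)), ((nat_lit 1000), (nat_lit 659), (nat_lit 528))], ((nat_lit 68), (nat_lit 100), (nat_lit 49))⟩, (nat_lit 1602082), (nat_lit 66), (nat_lit 66), (nat_lit 0), (nat_lit 0), [(nat_lit 1587926402), (nat_lit 2036800400)], [(nat_lit 0), (nat_lit 0)], [(nat_lit 22012383966), (nat_lit 22678135697), (nat_lit 25465986246), (nat_lit 26088185073), (nat_lit 24417886960), (nat_lit 24972816883), (nat_lit 27270983344), (nat_lit 27744152308)], (nat_lit 0), (nat_lit 0), (nat_lit 0), (nat_lit 0), (nat_lit 0), (nat_lit 0), [], [(nat_lit 1), (nat_lit 38), (nat_lit 203), (nat_lit 0), (nat_lit 9)]⟩,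
 ⟨⟨[(nat_lit 60), (nat_lit 100), (nat_lit 120)], [(nat_lit 0), (nat_lit 0), (nat_lit 1164)], [((nat_lit 0), (nat_lit 0), (nat_lit 0)), ((nat_lit 0), (nat_lit 0), (nat_lit 0)), ((nat_lit 1000), (nat_lit 933), (nat_lit 572))], ((nat_lit 92), (nat_lit 100), (nat_lit 44))⟩, (nat_lit 1718008), (nat_lit 507), (nat_lit 507), (nat_lit 0), (nat_lit 846839), [(nat_lit 1650846000), (nat_lit 3143750000), (nat_lit 4007904000)], [], [(nat_lit 16127476230), (nat_lit 16906015816), (nat_lit 17513955258), (nat_lit 18121894700), (nat_lit 16524779535), (nat_lit 16826084834), (nat_lit 17037216394), (nat_lit 17763503303)], (nat_lit 1271251), (nat_lit 1271251), (nat_lit 1271251), (nat_lit 1271251), (nat_lit 0), (nat_lit 2683751), [(nat_lit 780000), (nat_lit 1435001), (nat_lit 1271251)], [(nat_lit 10), (nat_lit 54), (nat_lit 317), (nat_lit 100), (nat_lit 10)]⟩,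
 ⟨⟨[(nat_lit 120), (nat_lit 160), (nat_lit 180)], [(nat_lit 0), (nat_lit 0), (nat_lit 1613)], [((nat_lit 0), (nat_lit 0), (nat_lit 0)), ((nat_lit 0), (nat_lit 0), (nat_lit 0)), ((nat_lit 620), (nat_lit 1000), (nat_lit 670))], ((nat_lit 100), (nat_lit 81), (nat_lit 44))⟩, (nat_lit 332187), (nat_lit 300), (nat_lit 1658), (nat_lit 9349200), (nat_lit 2697516), [(nat_lit 1003968000), (nat_lit 1495872000), (nat_lit 1771308000)], [], [(nat_lit 10103164422), (nat_lit 10032310768), (nat_lit 9643002240), (nat_lit 9572136232), (nat_lit 8656463325), (nat_lit 8585556486), (nat_lit 8994162858), (nat_lit 9377888613)], (nat_lit 1100000), (nat_lit 1271251), (nat_lit 780000), (nat_lit 1762501), (nat_lit 0), (nat_lit 2683751), [(nat_lit 1695001), (nat_lit 1271251), (nat_lit 1271251)], [(nat_lit 28), (nat_lit 65), (nat_lit 515), (nat_lit 200), (nat_lit 12)]⟩⟩) (.leaf ⟨(nat_lit 847), (nat_lit 114), (nat_lit 0), (nat_lit 39), (nat_lit 0), (nat_lit 3038), (nat_lit 1153),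 (nat_lit 380), (nat_lit 0), (nat_lit 0), (nat_lit 338800), [((nat_lit 380), [((nat_lit 24), (nat_lit 1), (nat_lit 847))])], ⟨(nat_lit 7), false, true, false, (nat_lit 292), (nat_lit 2236), (nat_lit 2739), [(nat_lit 1648684), (nat_lit 1648065), (nat_lit 1693478), (nat_lit 1693574), (nat_lit 1766852), (nat_lit 1762142), (nat_lit 1811671), (nat_lit 1807675)]⟩, ⟨(nat_lit 4), false, false, true, (nat_lit 175), (nat_lit 2236), (nat_lit 2739), [(nat_lit 1337013), (nat_lit 1340391), (nat_lit 1359410), (nat_lit 1363145), (nat_lit 1514225), (nat_lit 1511466), (nat_lit 1536642), (nat_lit 1534240)]⟩, (nat_lit 5169770), (nat_lit 37169164), (nat_lit 20731721), (nat_lit 9099115), (nat_lit 4), (nat_lit 0), [], [], [], [],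
 ⟨⟨[(nat_lit 40), (nat_lit 60)], [(nat_lit 0), (nat_lit 1134)], [((nat_lit 0), (nat_lit 0), (nat_lit 0)), ((nat_lit 1000), (nat_lit 575), (nat_lit 619))], ((nat_lit 62), (nat_lit 100), (nat_lit 52))⟩, (nat_lit 0), (nat_lit 69), (nat_lit 69), (nat_lit 0), (nat_lit 0), [(nat_lit 1440566001), (nat_lit 1332883600)], [(nat_lit 0), (nat_lit 0)], [(nat_lit 22658433772), (nat_lit 23275370816), (nat_lit 25830025093), (nat_lit 26434408147), (nat_lit 24908823813), (nat_lit 25425654585), (nat_lit 27601540177), (nat_lit 28062391732)], (nat_lit 0), (nat_lit 0), (nat_lit 0), (nat_lit 0), (nat_lit 0), (nat_lit 0), [], [(nat_lit 1), (nat_lit 38), (nat_lit 203), (nat_lit 0), (nat_lit 9)]⟩,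
 ⟨⟨[(nat_lit 60), (nat_lit 100), (nat_lit 120)], [(nat_lit 0), (nat_lit 0), (nat_lit 1164)], [((nat_lit 0), (nat_lit 0), (nat_lit 0)), ((nat_lit 0), (nat_lit 0), (nat_lit 0)), ((nat_lit 1000), (nat_lit 933), (nat_lit 572))], ((nat_lit 92), (nat_lit 100), (nat_lit 44))⟩, (nat_lit 256361), (nat_lit 551), (nat_lit 551), (nat_lit 0), (nat_lit 960211), [(nat_lit 502146000), (nat_lit 956250000), (nat_lit 1219104000)], [], [(nat_lit 5331591320), (nat_lit 5490271896), (nat_lit 5611448916), (nat_lit 5732625936), (nat_lit 5188508171), (nat_lit 5249404371), (nat_lit 5288025670), (nat_lit 5412393273)], (nat_lit 1271251), (nat_lit 1271251), (nat_lit 1271251), (nat_lit 1271251), (nat_lit 0), (nat_lit 2683751), [(nat_lit 780000), (nat_lit 1435001), (nat_lit 1271251)], [(nat_lit 10), (nat_lit 54), (nat_lit 317), (nat_lit 100), (nat_lit 10)]⟩,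
 ⟨⟨[(nat_lit 120), (nat_lit 160), (nat_lit 180)], [(nat_lit 0), (nat_lit 0), (nat_lit 1613)], [((nat_lit 0), (nat_lit 0), (nat_lit 0)), ((nat_lit 0), (nat_lit 0), (nat_lit 0)), ((nat_lit 620), (nat_lit 1000), (nat_lit 670))], ((nat_lit 100), (nat_lit 81), (nat_lit 44))⟩, (nat_lit 16973), (nat_lit 300), (nat_lit 1790), (nat_lit 2893804), (nat_lit 2977473), [(nat_lit 310752000), (nat_lit 463008000), (nat_lit 548262000)], [], [(nat_lit 3058527574), (nat_lit 3035858597), (nat_lit 2912561138), (nat_lit 2889936328), (nat_lit 2600016918), (nat_lit 2577474272), (nat_lit 2807701724), (nat_lit 2929071650)], (nat_lit 1100000), (nat_lit 1271251), (nat_lit 780000), (nat_lit 1762501), (nat_lit 0), (nat_lit 2683751), [(nat_lit 1695001), (nat_lit 1271251), (nat_lit 1271251)], [(nat_lit 28), (nat_lit 65), (nat_lit 548), (nat_lit 200), (nat_lit 13)]⟩⟩)))))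
noncomputable def c17_18 : Tr Lf :=
 (.spl (nat_lit 1) (nat_lit 280) (.spl (nat_lit 4) (nat_lit 200) (.leaf ⟨(nat_lit 879), (nat_lit 64), (nat_lit 0), (nat_lit 57), (nat_lit 0), (nat_lit 2963), (nat_lit 1194), (nat_lit 596), (nat_lit 0), (nat_lit 0), (nat_lit 480600), [((nat_lit 380), [((nat_lit 24), (nat_lit 1), (nat_lit 234)), ((nat_lit 41), (nat_lit 2), (nat_lit 645))])], ⟨(nat_lit 6), false, true, true, (nat_lit 274), (nat_lit 2236), (nat_lit 3163), [(nat_lit 1605240), (nat_lit 1602541), (nat_lit 1649422), (nat_lit 1647962), (nat_lit 1727168), (nat_lit 1716594), (nat_lit 1771478), (nat_lit 1762142)]⟩, ⟨(nat_lit 4), false, false, false, (nat_lit 176), (nat_lit 2236), (nat_lit 3163), [(nat_lit 1355794), (nat_lit 1363050), (nat_lit 1399976), (nat_lit 1408471), (nat_lit 1477844), (nat_lit 1477224), (nat_lit 1522091), (nat_lit 1522710)]⟩, (nat_lit 5130060), (nat_lit 38403743), (nat_lit 19157358), (nat_lit 9438899), (nat_lit 4), (nat_lit 0), [], [],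 [], [],
 ⟨⟨[(nat_lit 40), (nat_lit 60)], [(nat_lit 0), (nat_lit 832)], [((nat_lit 0), (nat_lit 0), (nat_lit 0)), ((nat_lit 1000), (nat_lit 659), (nat_lit 528))], ((nat_lit 68), (nat_lit 100), (nat_lit 49))⟩, (nat_lit 0), (nat_lit 69), (nat_lit 69), (nat_lit 0), (nat_lit 0), [(nat_lit 1374430001), (nat_lit 924103200)], [(nat_lit 0), (nat_lit 0)], [(nat_lit 21836087563), (nat_lit 23112305984), (nat_lit 25154932151), (nat_lit 26334897660), (nat_lit 23276822858), (nat_lit 24417544274), (nat_lit 26256595754), (nat_lit 27228419420)], (nat_lit 0), (nat_lit 0), (nat_lit 0), (nat_lit 0), (nat_lit 0), (nat_lit 0), [], [(nat_lit 1), (nat_lit 38), (nat_lit 203), (nat_lit 0), (nat_lit 9)]⟩,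
 ⟨⟨[(nat_lit 80), (nat_lit 120), (nat_lit 140)], [(nat_lit 0), (nat_lit 0), (nat_lit 1164)], [((nat_lit 0), (nat_lit 0), (nat_lit 0)), ((nat_lit 0), (nat_lit 0), (nat_lit 0)), ((nat_lit 941), (nat_lit 1000), (nat_lit 576))], ((nat_lit 100), (nat_lit 99), (nat_lit 44))⟩, (nat_lit 212345), (nat_lit 658), (nat_lit 658), (nat_lit 0), (nat_lit 1033987), [(nat_lit 567248000), (nat_lit 964128000), (nat_lit 1190882000)], [], [(nat_lit 4222508684), (nat_lit 4284168724), (nat_lit 4345828764), (nat_lit 4384421582), (nat_lit 4221610016), (nat_lit 4204352638), (nat_lit 4436681296), (nat_lit 4604884082)], (nat_lit 1271251), (nat_lit 1271251), (nat_lit 1271251), (nat_lit 1271251), (nat_lit 0), (nat_lit 2825001), [(nat_lit 1100000), (nat_lit 1785001), (nat_lit 1271251)], [(nat_lit 17), (nat_lit 58), (nat_lit 483), (nat_lit 250), (nat_lit 14)]⟩,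
 ⟨⟨[(nat_lit 120), (nat_lit 140), (nat_lit 160)], [(nat_lit 0), (nat_lit 266), (nat_lit 862)], [((nat_lit 0), (nat_lit 0), (nat_lit 0)), ((nat_lit 960), (nat_lit 1000), (nat_lit 200)), ((nat_lit 874), (nat_lit 1000), (nat_lit 406))], ((nat_lit 100), (nat_lit 86), (nat_lit 44))⟩, (nat_lit 117000), (nat_lit 300), (nat_lit 1220), (nat_lit 3784800), (nat_lit 1929767), [(nat_lit 454176000), (nat_lit 560994000), (nat_lit 676704000)], [], [(nat_lit 2961491045), (nat_lit 2908585802), (nat_lit 2819424538), (nat_lit 2767029520), (nat_lit 3515487490), (nat_lit 2979109542), (nat_lit 4160338244), (nat_lit 3637448372)], (nat_lit 1271251), (nat_lit 1271251), (nat_lit 780000), (nat_lit 1435001), (nat_lit 0), (nat_lit 2825001), [(nat_lit 1695001), (nat_lit 1271251), (nat_lit 1271251)], [(nat_lit 27), (nat_lit 62), (nat_lit 456), (nat_lit 225), (nat_lit 12)]⟩⟩) (.leaf ⟨(nat_lit 869), (nat_lit 67), (nat_lit 0), (nat_lit 64), (nat_lit 0), (nat_lit 2965), (nat_lit 1338),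 (nat_lit 702), (nat_lit 0), (nat_lit 0), (nat_lit 482150), [((nat_lit 380), [((nat_lit 24), (nat_lit 0), (nat_lit 35)), ((nat_lit 24), (nat_lit 1), (nat_lit 135)), ((nat_lit 41), (nat_lit 2), (nat_lit 699))])], ⟨(nat_lit 6), false, true, true, (nat_lit 274), (nat_lit 2236), (nat_lit 3163), [(nat_lit 1605240), (nat_lit 1602541), (nat_lit 1649422), (nat_lit 1647962), (nat_lit 1727168), (nat_lit 1716594), (nat_lit 1771478), (nat_lit 1762142)]⟩, ⟨(nat_lit 5), false, true, true, (nat_lit 212), (nat_lit 2236), (nat_lit 3163), [(nat_lit 1477844), (nat_lit 1477224), (nat_lit 1522091), (nat_lit 1522710), (nat_lit 1538797), (nat_lit 1534240), (nat_lit 1583107), (nat_lit 1579788)]⟩, (nat_lit 5379210), (nat_lit 36452855), (nat_lit 18415726), (nat_lit 12131419), (nat_lit 5), (nat_lit 0), [], [], [], [⟨(nat_lit 0), (nat_lit 100), (nat_lit 82), (nat_lit 76), (nat_lit 3840392)⟩],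
 ⟨⟨[(nat_lit 40), (nat_lit 60)], [(nat_lit 0), (nat_lit 832)], [((nat_lit 0), (nat_lit 0), (nat_lit 0)), ((nat_lit 1000), (nat_lit 659), (nat_lit 528))], ((nat_lit 68), (nat_lit 100), (nat_lit 49))⟩, (nat_lit 0), (nat_lit 54), (nat_lit 54), (nat_lit 0), (nat_lit 0), [(nat_lit 1379507607), (nat_lit 932580800)], [(nat_lit 0), (nat_lit 0)], [(nat_lit 23284934294), (nat_lit 24425985174), (nat_lit 26265239574), (nat_lit 27237314204), (nat_lit 24286380704), (nat_lit 25354624169), (nat_lit 27076279064), (nat_lit 27989931360)], (nat_lit 0), (nat_lit 0), (nat_lit 0), (nat_lit 0), (nat_lit 0), (nat_lit 0), [], [(nat_lit 1), (nat_lit 38), (nat_lit 203), (nat_lit 0), (nat_lit 8)]⟩,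
 ⟨⟨[(nat_lit 80), (nat_lit 120), (nat_lit 140)], [(nat_lit 0), (nat_lit 0), (nat_lit 1164)], [((nat_lit 0), (nat_lit 0), (nat_lit 0)), ((nat_lit 0), (nat_lit 0), (nat_lit 0)), ((nat_lit 941), (nat_lit 1000), (nat_lit 576))], ((nat_lit 100), (nat_lit 99), (nat_lit 44))⟩, (nat_lit 408776), (nat_lit 658), (nat_lit 658), (nat_lit 0), (nat_lit 1033987), [(nat_lit 614128000), (nat_lit 1043808000), (nat_lit 1289302000)], [], [(nat_lit 4340128328), (nat_lit 4421134406), (nat_lit 4502140484), (nat_lit 4562874760), (nat_lit 4529824816), (nat_lit 4598297378), (nat_lit 4853707520), (nat_lit 5037596518)], (nat_lit 1271251), (nat_lit 1271251), (nat_lit 1271251), (nat_lit 1271251), (nat_lit 0), (nat_lit 2825001), [(nat_lit 1100000), (nat_lit 1785001), (nat_lit 1271251)], [(nat_lit 17), (nat_lit 58), (nat_lit 483), (nat_lit 250), (nat_lit 14)]⟩,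
 ⟨⟨[(nat_lit 120), (nat_lit 140), (nat_lit 160)], [(nat_lit 0), (nat_lit 266), (nat_lit 862)], [((nat_lit 0), (nat_lit 0), (nat_lit 0)), ((nat_lit 960), (nat_lit 1000), (nat_lit 200)), ((nat_lit 874), (nat_lit 1000), (nat_lit 406))], ((nat_lit 100), (nat_lit 86), (nat_lit 44))⟩, (nat_lit 131369), (nat_lit 300), (nat_lit 1183), (nat_lit 4249600), (nat_lit 1929767), [(nat_lit 509952000), (nat_lit 629888000), (nat_lit 759808000)], [], [(nat_lit 3016041093), (nat_lit 2960339655), (nat_lit 2961520056), (nat_lit 2917402894), (nat_lit 4242592928), (nat_lit 3626705864), (nat_lit 3622839950), (nat_lit 3014684714)], (nat_lit 1271251), (nat_lit 1271251), (nat_lit 1271251), (nat_lit 1271251), (nat_lit 0), (nat_lit 2825001), [(nat_lit 1695001), (nat_lit 1271251), (nat_lit 1271251)], [(nat_lit 27), (nat_lit 62), (nat_lit 456), (nat_lit 225), (nat_lit 12)]⟩⟩)) (.leaf ⟨(nat_lit 452), (nat_lit 360), (nat_lit 0), (nat_lit 188), (nat_lit 0), (nat_lit 3252), (nat_lit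 4014), (nat_lit 1594), (nat_lit 0), (nat_lit 0), (nat_lit 205750), [((nat_lit 380), [((nat_lit 24), (nat_lit 0), (nat_lit 187)), ((nat_lit 41), (nat_lit 2), (nat_lit 265))])], ⟨(nat_lit 7), false, true, false, (nat_lit 292), (nat_lit 2236), (nat_lit 3163), [(nat_lit 1649422), (nat_lit 1647962), (nat_lit 1693606), (nat_lit 1693384), (nat_lit 1771478), (nat_lit 1762142), (nat_lit 1815720), (nat_lit 1807623)]⟩, ⟨(nat_lit 4), false, false, false, (nat_lit 188), (nat_lit 2236), (nat_lit 3163), [(nat_lit 1355794), (nat_lit 1363050), (nat_lit 1399976), (nat_lit 1408471), (nat_lit 1538797), (nat_lit 1534240), (nat_lit 1583107), (nat_lit 1579788)]⟩, (nat_lit 5271831), (nat_lit 36458114), (nat_lit 20475322), (nat_lit 10066564), (nat_lit 4), (nat_lit 0), [], [], [], [],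
 ⟨⟨[(nat_lit 40), (nat_lit 60)], [(nat_lit 0), (nat_lit 832)], [((nat_lit 0), (nat_lit 0), (nat_lit 0)), ((nat_lit 1000), (nat_lit 659), (nat_lit 528))], ((nat_lit 68), (nat_lit 100), (nat_lit 49))⟩, (nat_lit 1634967), (nat_lit 69), (nat_lit 69), (nat_lit 0), (nat_lit 0), [(nat_lit 1613756801), (nat_lit 2176420400)], [(nat_lit 0), (nat_lit 0)], [(nat_lit 22058729646), (nat_lit 23391405228), (nat_lit 25475220398), (nat_lit 26718344738), (nat_lit 24463455274), (nat_lit 25574203726), (nat_lit 27317901082), (nat_lit 28271737808)], (nat_lit 0), (nat_lit 0), (nat_lit 0), (nat_lit 0), (nat_lit 0), (nat_lit 0), [], [(nat_lit 1), (nat_lit 38), (nat_lit 203), (nat_lit 0), (nat_lit 9)]⟩,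
 ⟨⟨[(nat_lit 60), (nat_lit 100), (nat_lit 120)], [(nat_lit 0), (nat_lit 0), (nat_lit 1164)], [((nat_lit 0), (nat_lit 0), (nat_lit 0)), ((nat_lit 0), (nat_lit 0), (nat_lit 0)), ((nat_lit 1000), (nat_lit 933), (nat_lit 572))], ((nat_lit 92), (nat_lit 100), (nat_lit 44))⟩, (nat_lit 2037802), (nat_lit 533), (nat_lit 533), (nat_lit 0), (nat_lit 912374), [(nat_lit 1798536000), (nat_lit 3425000000), (nat_lit 4366464000)], [], [(nat_lit 17830756888), (nat_lit 18672064976), (nat_lit 19330724416), (nat_lit 19989383856), (nat_lit 18692571092), (nat_lit 18987972816), (nat_lit 19251907384), (nat_lit 19958796648)], (nat_lit 1271251), (nat_lit 1271251), (nat_lit 1271251), (nat_lit 1271251), (nat_lit 0), (nat_lit 2825001), [(nat_lit 780000), (nat_lit 1435001), (nat_lit 1271251)], [(nat_lit 10), (nat_lit 54), (nat_lit 317), (nat_lit 100), (nat_lit 10)]⟩,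
 ⟨⟨[(nat_lit 120), (nat_lit 140), (nat_lit 160)], [(nat_lit 0), (nat_lit 266), (nat_lit 862)], [((nat_lit 0), (nat_lit 0), (nat_lit 0)), ((nat_lit 960), (nat_lit 1000), (nat_lit 200)), ((nat_lit 874), (nat_lit 1000), (nat_lit 406))], ((nat_lit 100), (nat_lit 86), (nat_lit 44))⟩, (nat_lit 759616), (nat_lit 300), (nat_lit 1390), (nat_lit 12483200), (nat_lit 2298571), [(nat_lit 1497984000), (nat_lit 1850296000), (nat_lit 2231936000)], [], [(nat_lit 12870850999), (nat_lit 12713167270), (nat_lit 12335299463), (nat_lit 12174338192), (nat_lit 11132481003), (nat_lit 10963876944), (nat_lit 13821041450), (nat_lit 12440130558)], (nat_lit 1271251), (nat_lit 1271251), (nat_lit 780000), (nat_lit 1762501), (nat_lit 0), (nat_lit 2825001), [(nat_lit 1695001), (nat_lit 1271251), (nat_lit 1271251)], [(nat_lit 27), (nat_lit 62), (nat_lit 456), (nat_lit 225), (nat_lit 12)]⟩⟩))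
noncomputable def c17_19 : Tr Lf :=
 (.leaf ⟨(nat_lit 381), (nat_lit 409), (nat_lit 0), (nat_lit 210), (nat_lit 0), (nat_lit 3754), (nat_lit 5179), (nat_lit 1767), (nat_lit 0), (nat_lit 0), (nat_lit 157200), [((nat_lit 380), [((nat_lit 24), (nat_lit 0), (nat_lit 204)), ((nat_lit 41), (nat_lit 2), (nat_lit 177))])], ⟨(nat_lit 6), false, true, false, (nat_lit 283), (nat_lit 2236), (nat_lit 3163), [(nat_lit 1605240), (nat_lit 1602541), (nat_lit 1693606), (nat_lit 1693384), (nat_lit 1727168), (nat_lit 1716594), (nat_lit 1815720), (nat_lit 1807623)]⟩, ⟨(nat_lit 3), false, false, true, (nat_lit 175), (nat_lit 2236), (nat_lit 3163), [(nat_lit 1289472), (nat_lit 1294870), (nat_lit 1399976), (nat_lit 1408471), (nat_lit 1472332), (nat_lit 1465917), (nat_lit 1583107), (nat_lit 1579788)]⟩, (nat_lit 5145410), (nat_lit 37814824), (nat_lit 19984740), (nat_lit 9200436), (nat_lit 3), (nat_lit 0), [], [], [], [],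
 ⟨⟨[(nat_lit 40), (nat_lit 60)], [(nat_lit 0), (nat_lit 832)], [((nat_lit 0), (nat_lit 0), (nat_lit 0)), ((nat_lit 1000), (nat_lit 659), (nat_lit 528))], ((nat_lit 68), (nat_lit 100), (nat_lit 49))⟩, (nat_lit 933552), (nat_lit 150), (nat_lit 150), (nat_lit 0), (nat_lit 340776), [(nat_lit 1653456407), (nat_lit 2392099200)], [(nat_lit 0), (nat_lit 0)], [(nat_lit 22605892453), (nat_lit 23806768473), (nat_lit 26052980754), (nat_lit 27384401601), (nat_lit 24751745909), (nat_lit 25755616708), (nat_lit 27655625768), (nat_lit 28764653616)], (nat_lit 1271251), (nat_lit 1271251), (nat_lit 1271251), (nat_lit 1271251), (nat_lit 780000), (nat_lit 1762501), [(nat_lit 490000), (nat_lit 780000)], [(nat_lit 1), (nat_lit 38), (nat_lit 203), (nat_lit 0), (nat_lit 9)]⟩,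
 ⟨⟨[(nat_lit 80), (nat_lit 120), (nat_lit 140)], [(nat_lit 0), (nat_lit 0), (nat_lit 1164)], [((nat_lit 0), (nat_lit 0), (nat_lit 0)), ((nat_lit 0), (nat_lit 0), (nat_lit 0)), ((nat_lit 941), (nat_lit 1000), (nat_lit 576))], ((nat_lit 100), (nat_lit 99), (nat_lit 44))⟩, (nat_lit 1557634), (nat_lit 390), (nat_lit 390), (nat_lit 0), (nat_lit 460430), [(nat_lit 2901872000), (nat_lit 4932192000), (nat_lit 6092198000)], [], [(nat_lit 21260339048), (nat_lit 23002011140), (nat_lit 23002011140), (nat_lit 24503240136), (nat_lit 22430449004), (nat_lit 22199364052), (nat_lit 22199364052), (nat_lit 23312105648)], (nat_lit 1271251), (nat_lit 1271251), (nat_lit 1271251), (nat_lit 1271251), (nat_lit 0), (nat_lit 2825001), [(nat_lit 1100000), (nat_lit 1785001), (nat_lit 1271251)], [(nat_lit 17), (nat_lit 58), (nat_lit 538), (nat_lit 300), (nat_lit 15)]⟩,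
 ⟨⟨[(nat_lit 140), (nat_lit 160), (nat_lit 180)], [(nat_lit 0), (nat_lit 0), (nat_lit 799)], [((nat_lit 0), (nat_lit 0), (nat_lit 0)), ((nat_lit 0), (nat_lit 0), (nat_lit 0)), ((nat_lit 728), (nat_lit 1000), (nat_lit 454))], ((nat_lit 100), (nat_lit 71), (nat_lit 48))⟩, (nat_lit 184506), (nat_lit 300), (nat_lit 1038), (nat_lit 15582000), (nat_lit 1312690), [(nat_lit 2066820000), (nat_lit 2493120000), (nat_lit 2952180000)], [], [(nat_lit 16628669704), (nat_lit 16130431766), (nat_lit 16017639450), (nat_lit 15508561315), (nat_lit 14660610762), (nat_lit 15487562496), (nat_lit 15997892952), (nat_lit 18710546277)], (nat_lit 780000), (nat_lit 1598751), (nat_lit 780000), (nat_lit 1762501), (nat_lit 0), (nat_lit 2825001), [(nat_lit 1977501), (nat_lit 1271251), (nat_lit 1271251)], [(nat_lit 31), (nat_lit 65), (nat_lit 456), (nat_lit 225), (nat_lit 11)]⟩⟩)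
noncomputable def c17_20 : Tr Lf :=
 (.trX (nat_lit 5) (nat_lit 3) (nat_lit 4) (nat_lit 80) (nat_lit 60) (nat_lit 100) (nat_lit 360) (.spl (nat_lit 4) (nat_lit 160) (.trX (nat_lit 5) (nat_lit 3) (nat_lit 4) (nat_lit 82) (nat_lit 76) (nat_lit 100) (nat_lit 340) (.spl (nat_lit 1) (nat_lit 280) (.leaf ⟨(nat_lit 1000), (nat_lit 0), (nat_lit 0), (nat_lit 0), (nat_lit 0), (nat_lit 3059), (nat_lit 0), (nat_lit 0), (nat_lit 0), (nat_lit 0), (nat_lit 250000), [((nat_lit 380), [((nat_lit 24), (nat_lit 0), (nat_lit 1000))])], ⟨(nat_lit 8), false, true, true, (nat_lit 310), (nat_lit 2236), (nat_lit 3163), [(nat_lit 1727168), (nat_lit 1716594), (nat_lit 1771478), (nat_lit 1762142), (nat_lit 1788122), (nat_lit 1773609), (nat_lit 1832432), (nat_lit 1819158)]⟩, ⟨(nat_lit 3), false, false, false, (nat_lit 142), (nat_lit 2236), (nat_lit 3163), [(nat_lit 1289472), (nat_lit 1294870), (nat_lit 1355794), (nat_lit 1363050), (nat_lit 1350426), (nat_lit 1351886), (nat_lit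 1416851), (nat_lit 1420169)]⟩, (nat_lit 4925710), (nat_lit 37341535), (nat_lit 23037400), (nat_lit 6621065), (nat_lit 0), (nat_lit 0), [], [], [], [],
 ⟨⟨[(nat_lit 40), (nat_lit 60)], [(nat_lit 0), (nat_lit 832)], [((nat_lit 0), (nat_lit 0), (nat_lit 0)), ((nat_lit 1000), (nat_lit 659), (nat_lit 528))], ((nat_lit 68), (nat_lit 100), (nat_lit 49))⟩, (nat_lit 0), (nat_lit 81), (nat_lit 81), (nat_lit 0), (nat_lit 0), [(nat_lit 1526400132), (nat_lit 1367200000)], [(nat_lit 0), (nat_lit 0)], [(nat_lit 25406266621), (nat_lit 26500506807), (nat_lit 27436890924), (nat_lit 28530382607), (nat_lit 25680222226), (nat_lit 26723899747), (nat_lit 27580672000), (nat_lit 28553289859)], (nat_lit 0), (nat_lit 0), (nat_lit 0), (nat_lit 0), (nat_lit 0), (nat_lit 0), [], [(nat_lit 1), (nat_lit 38), (nat_lit 203), (nat_lit 0), (nat_lit 8)]⟩,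
 Rw.none,
 Rw.none⟩) (.leaf ⟨(nat_lit 847), (nat_lit 153), (nat_lit 0), (nat_lit 0), (nat_lit 0), (nat_lit 2946), (nat_lit 1142), (nat_lit 0), (nat_lit 0), (nat_lit 0), (nat_lit 338800), [((nat_lit 380), [((nat_lit 24), (nat_lit 1), (nat_lit 847))])], ⟨(nat_lit 8), false, true, true, (nat_lit 328), (nat_lit 2236), (nat_lit 3163), [(nat_lit 1771478), (nat_lit 1762142), (nat_lit 1815720), (nat_lit 1807623), (nat_lit 1832432), (nat_lit 1819158), (nat_lit 1876741), (nat_lit 1864706)]⟩, ⟨(nat_lit 3), false, false, false, (nat_lit 142), (nat_lit 2236), (nat_lit 3163), [(nat_lit 1289472), (nat_lit 1294870), (nat_lit 1355794), (nat_lit 1363050), (nat_lit 1350426), (nat_lit 1351886), (nat_lit 1416851), (nat_lit 1420169)]⟩, (nat_lit 4952036), (nat_lit 35928152), (nat_lit 24631632), (nat_lit 6440216), (nat_lit 3), (nat_lit 0), [], [], [], [⟨(nat_lit 1), (nat_lit 92), (nat_lit 75), (nat_lit 100), (nat_lit 26225060)⟩],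
 ⟨⟨[(nat_lit 40), (nat_lit 60)], [(nat_lit 0), (nat_lit 832)], [((nat_lit 0), (nat_lit 0), (nat_lit 0)), ((nat_lit 1000), (nat_lit 659), (nat_lit 528))], ((nat_lit 68), (nat_lit 100), (nat_lit 49))⟩, (nat_lit 0), (nat_lit 81), (nat_lit 81), (nat_lit 0), (nat_lit 0), [(nat_lit 1440566003), (nat_lit 1332883600)], [(nat_lit 0), (nat_lit 0)], [(nat_lit 25323299225), (nat_lit 26373879501), (nat_lit 27273805256), (nat_lit 28351039911), (nat_lit 25613386423), (nat_lit 26618027208), (nat_lit 27463977790), (nat_lit 28401470799)], (nat_lit 0), (nat_lit 0), (nat_lit 0), (nat_lit 0), (nat_lit 0), (nat_lit 0), [], [(nat_lit 1), (nat_lit 38), (nat_lit 203), (nat_lit 0), (nat_lit 8)]⟩,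
 ⟨⟨[(nat_lit 60), (nat_lit 100), (nat_lit 120)], [(nat_lit 0), (nat_lit 0), (nat_lit 1164)], [((nat_lit 0), (nat_lit 0), (nat_lit 0)), ((nat_lit 0), (nat_lit 0), (nat_lit 0)), ((nat_lit 1000), (nat_lit 933), (nat_lit 572))], ((nat_lit 92), (nat_lit 100), (nat_lit 44))⟩, (nat_lit 204406), (nat_lit 627), (nat_lit 627), (nat_lit 0), (nat_lit 1125852), [(nat_lit 502146000), (nat_lit 956250000), (nat_lit 1219104000)], [], [(nat_lit 5715488232), (nat_lit 5836660764), (nat_lit 5916955323), (nat_lit 6018482084), (nat_lit 5232419271), (nat_lit 5276261271), (nat_lit 5339088221), (nat_lit 5376927674)], (nat_lit 1271251), (nat_lit 1271251), (nat_lit 1271251), (nat_lit 1271251), (nat_lit 0), (nat_lit 2401251), [(nat_lit 780000), (nat_lit 1435001), (nat_lit 1271251)], [(nat_lit 10), (nat_lit 54), (nat_lit 317), (nat_lit 100), (nat_lit 10)]⟩,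
 Rw.none⟩))) (.trZ (nat_lit 3) (nat_lit 4) (nat_lit 5) (nat_lit 100) (nat_lit 82) (nat_lit 44) (nat_lit 10) (.spl (nat_lit 2) (nat_lit 160) (.spl (nat_lit 1) (nat_lit 280) (.leaf ⟨(nat_lit 1000), (nat_lit 0), (nat_lit 0), (nat_lit 0), (nat_lit 0), (nat_lit 3049), (nat_lit 0), (nat_lit 0), (nat_lit 0), (nat_lit 0), (nat_lit 250000), [((nat_lit 380), [((nat_lit 24), (nat_lit 0), (nat_lit 1000))])], ⟨(nat_lit 8), false, true, true, (nat_lit 310), (nat_lit 2236), (nat_lit 3163), [(nat_lit 1727168), (nat_lit 1716594), (nat_lit 1771478), (nat_lit 1762142), (nat_lit 1788122), (nat_lit 1773609), (nat_lit 1832432), (nat_lit 1819158)]⟩, ⟨(nat_lit 4), false, false, true, (nat_lit 161), (nat_lit 2236), (nat_lit 3163), [(nat_lit 1350426), (nat_lit 1351886), (nat_lit 1394735), (nat_lit 1397434), (nat_lit 1411379), (nat_lit 1408901), (nat_lit 1455689), (nat_lit 1454450)]⟩, (nat_lit 5096628), (nat_lit 36474802), (nat_lit 22610637), (nat_lit 7914561), (nat_lit 0),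 (nat_lit 0), [⟨(nat_lit 1), (nat_lit 68), (nat_lit 55), (nat_lit 100), (nat_lit 15192840)⟩], [], [], [],
 ⟨⟨[(nat_lit 40), (nat_lit 60)], [(nat_lit 0), (nat_lit 832)], [((nat_lit 0), (nat_lit 0), (nat_lit 0)), ((nat_lit 1000), (nat_lit 659), (nat_lit 528))], ((nat_lit 68), (nat_lit 100), (nat_lit 49))⟩, (nat_lit 0), (nat_lit 70), (nat_lit 70), (nat_lit 0), (nat_lit 0), [(nat_lit 1526400041), (nat_lit 1367200000)], [(nat_lit 0), (nat_lit 0)], [(nat_lit 25687430864), (nat_lit 26729722195), (nat_lit 27585536778), (nat_lit 28539854544), (nat_lit 26495545978), (nat_lit 27478161096), (nat_lit 28288062254), (nat_lit 29184320392)], (nat_lit 0), (nat_lit 0), (nat_lit 0), (nat_lit 0), (nat_lit 0), (nat_lit 0), [], [(nat_lit 1), (nat_lit 38), (nat_lit 203), (nat_lit 0), (nat_lit 8)]⟩,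
 Rw.none,
 Rw.none⟩) (.spl (nat_lit 1) (nat_lit 300) (.leaf ⟨(nat_lit 1000), (nat_lit 0), (nat_lit 0), (nat_lit 0), (nat_lit 0), (nat_lit 3049), (nat_lit 0), (nat_lit 0), (nat_lit 0), (nat_lit 0), (nat_lit 250000), [((nat_lit 380), [((nat_lit 24), (nat_lit 0), (nat_lit 1000))])], ⟨(nat_lit 8), false, true, true, (nat_lit 323), (nat_lit 2236), (nat_lit 3163), [(nat_lit 1771478), (nat_lit 1762142), (nat_lit 1793619), (nat_lit 1784902), (nat_lit 1832432), (nat_lit 1819158), (nat_lit 1854586), (nat_lit 1841932)]⟩, ⟨(nat_lit 4), false, false, true, (nat_lit 161), (nat_lit 2236), (nat_lit 3163), [(nat_lit 1350426), (nat_lit 1351886), (nat_lit 1394735), (nat_lit 1397434), (nat_lit 1411379), (nat_lit 1408901), (nat_lit 1455689), (nat_lit 1454450)]⟩, (nat_lit 5115855), (nat_lit 35462312), (nat_lit 23785103), (nat_lit 7752585), (nat_lit 0), (nat_lit 0), [], [], [], [],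
 ⟨⟨[(nat_lit 40), (nat_lit 60)], [(nat_lit 0), (nat_lit 832)], [((nat_lit 0), (nat_lit 0), (nat_lit 0)), ((nat_lit 1000), (nat_lit 659), (nat_lit 528))], ((nat_lit 68), (nat_lit 100), (nat_lit 49))⟩, (nat_lit 0), (nat_lit 70), (nat_lit 70), (nat_lit 0), (nat_lit 0), [(nat_lit 1526400118), (nat_lit 1367200000)], [(nat_lit 0), (nat_lit 0)], [(nat_lit 25687431018), (nat_lit 26729722349), (nat_lit 27585536932), (nat_lit 28539854544), (nat_lit 26495546132), (nat_lit 27478161250), (nat_lit 28288062408), (nat_lit 29184320546)], (nat_lit 0), (nat_lit 0), (nat_lit 0), (nat_lit 0), (nat_lit 0), (nat_lit 0), [], [(nat_lit 1), (nat_lit 38), (nat_lit 203), (nat_lit 0), (nat_lit 8)]⟩,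
 Rw.none,
 Rw.none⟩) (.trX (nat_lit 5) (nat_lit 1) (nat_lit 2) (nat_lit 88) (nat_lit 68) (nat_lit 100) (nat_lit 350) (.leaf ⟨(nat_lit 571), (nat_lit 429), (nat_lit 0), (nat_lit 0), (nat_lit 0), (nat_lit 3073), (nat_lit 2448), (nat_lit 0), (nat_lit 0), (nat_lit 0), (nat_lit 288350), [((nat_lit 380), [((nat_lit 24), (nat_lit 0), (nat_lit 155)), ((nat_lit 41), (nat_lit 2), (nat_lit 416))])], ⟨(nat_lit 8), false, true, true, (nat_lit 332), (nat_lit 2236), (nat_lit 3163), [(nat_lit 1793619), (nat_lit 1784902), (nat_lit 1815720), (nat_lit 1807623), (nat_lit 1854586), (nat_lit 1841932), (nat_lit 1876741), (nat_lit 1864706)]⟩, ⟨(nat_lit 4), false, false, true, (nat_lit 161), (nat_lit 2236), (nat_lit 3163), [(nat_lit 1350426), (nat_lit 1351886), (nat_lit 1394735), (nat_lit 1397434), (nat_lit 1411379), (nat_lit 1408901), (nat_lit 1455689), (nat_lit 1454450)]⟩, (nat_lit 5124151), (nat_lit 34798852), (nat_lit 24557415), (nat_lit 7643733), (nat_lit 4), (nat_lit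 0), [], [], [⟨(nat_lit 1), (nat_lit 68), (nat_lit 88), (nat_lit 100), (nat_lit 981630)⟩], [⟨(nat_lit 1), (nat_lit 77), (nat_lit 72), (nat_lit 100), (nat_lit 116935792)⟩],
 ⟨⟨[(nat_lit 40), (nat_lit 60)], [(nat_lit 0), (nat_lit 832)], [((nat_lit 0), (nat_lit 0), (nat_lit 0)), ((nat_lit 1000), (nat_lit 659), (nat_lit 528))], ((nat_lit 68), (nat_lit 100), (nat_lit 49))⟩, (nat_lit 363411), (nat_lit 70), (nat_lit 70), (nat_lit 0), (nat_lit 0), [(nat_lit 1546404401), (nat_lit 1811753200)], [(nat_lit 0), (nat_lit 0)], [(nat_lit 25777648059), (nat_lit 26780350940), (nat_lit 27613869594), (nat_lit 28572099300), (nat_lit 26557243749), (nat_lit 27503044680), (nat_lit 28315008446), (nat_lit 29213881389)], (nat_lit 0), (nat_lit 0), (nat_lit 0), (nat_lit 0), (nat_lit 0), (nat_lit 0), [], [(nat_lit 1), (nat_lit 38), (nat_lit 203), (nat_lit 0), (nat_lit 8)]⟩,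
 ⟨⟨[(nat_lit 60), (nat_lit 80), (nat_lit 100)], [(nat_lit 0), (nat_lit 304), (nat_lit 825)], [((nat_lit 0), (nat_lit 0), (nat_lit 0)), ((nat_lit 1000), (nat_lit 905), (nat_lit 238)), ((nat_lit 1000), (nat_lit 871), (nat_lit 407))], ((nat_lit 87), (nat_lit 100), (nat_lit 44))⟩, (nat_lit 1725400), (nat_lit 537), (nat_lit 537), (nat_lit 0), (nat_lit 1076515), [(nat_lit 1407978000), (nat_lit 2011152000), (nat_lit 2681250000)], [], [(nat_lit 13330885220), (nat_lit 13571873725), (nat_lit 13972494553), (nat_lit 14186108582), (nat_lit 13818019108), (nat_lit 13950173612), (nat_lit 14214242194), (nat_lit 14478805268)], (nat_lit 1271251), (nat_lit 1271251), (nat_lit 1271251), (nat_lit 1271251), (nat_lit 54688), (nat_lit 2487813), [(nat_lit 780000), (nat_lit 1100000), (nat_lit 1442501)], [(nat_lit 9), (nat_lit 50), (nat_lit 317), (nat_lit 100), (nat_lit 11)]⟩,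
 Rw.none⟩)))) (.spl (nat_lit 1) (nat_lit 280) (.leaf ⟨(nat_lit 902), (nat_lit 66), (nat_lit 0), (nat_lit 32), (nat_lit 0), (nat_lit 2921), (nat_lit 897), (nat_lit 372), (nat_lit 0), (nat_lit 0), (nat_lit 360800), [((nat_lit 380), [((nat_lit 24), (nat_lit 1), (nat_lit 902))])], ⟨(nat_lit 8), false, true, true, (nat_lit 310), (nat_lit 2236), (nat_lit 3163), [(nat_lit 1727168), (nat_lit 1716594), (nat_lit 1771478), (nat_lit 1762142), (nat_lit 1788122), (nat_lit 1773609), (nat_lit 1832432), (nat_lit 1819158)]⟩, ⟨(nat_lit 4), false, false, true, (nat_lit 175), (nat_lit 2236), (nat_lit 3163), [(nat_lit 1394735), (nat_lit 1397434), (nat_lit 1416851), (nat_lit 1420169), (nat_lit 1455689), (nat_lit 1454450), (nat_lit 1477844), (nat_lit 1477224)]⟩, (nat_lit 5206284), (nat_lit 35849383), (nat_lit 22296573), (nat_lit 8854044), (nat_lit 4), (nat_lit 0), [⟨(nat_lit 1), (nat_lit 68), (nat_lit 55), (nat_lit 100), (nat_lit 270950661)⟩], [], [], [],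
 ⟨⟨[(nat_lit 40), (nat_lit 60)], [(nat_lit 0), (nat_lit 832)], [((nat_lit 0), (nat_lit 0), (nat_lit 0)), ((nat_lit 1000), (nat_lit 659), (nat_lit 528))], ((nat_lit 68), (nat_lit 100), (nat_lit 49))⟩, (nat_lit 0), (nat_lit 70), (nat_lit 70), (nat_lit 0), (nat_lit 0), [(nat_lit 1417356015), (nat_lit 1206317600)], [(nat_lit 0), (nat_lit 0)], [(nat_lit 25561615708), (nat_lit 26586163807), (nat_lit 27429720214), (nat_lit 28367882512), (nat_lit 26374187014), (nat_lit 27340740436), (nat_lit 28139641018), (nat_lit 29022392853)], (nat_lit 0), (nat_lit 0), (nat_lit 0), (nat_lit 0), (nat_lit 0), (nat_lit 0), [], [(nat_lit 1), (nat_lit 38), (nat_lit 203), (nat_lit 0), (nat_lit 8)]⟩,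
 ⟨⟨[(nat_lit 80), (nat_lit 120), (nat_lit 140)], [(nat_lit 0), (nat_lit 0), (nat_lit 1164)], [((nat_lit 0), (nat_lit 0), (nat_lit 0)), ((nat_lit 0), (nat_lit 0), (nat_lit 0)), ((nat_lit 941), (nat_lit 1000), (nat_lit 576))], ((nat_lit 100), (nat_lit 99), (nat_lit 44))⟩, (nat_lit 165336), (nat_lit 663), (nat_lit 663), (nat_lit 0), (nat_lit 1085516), [(nat_lit 459424000), (nat_lit 780864000), (nat_lit 964516000)], [], [(nat_lit 3774525807), (nat_lit 3805702349), (nat_lit 3869069422), (nat_lit 3889615372), (nat_lit 3227998832), (nat_lit 3329654750), (nat_lit 3471540755), (nat_lit 3609128166)], (nat_lit 1271251), (nat_lit 1271251), (nat_lit 1271251), (nat_lit 1271251), (nat_lit 54688), (nat_lit 2559376), [(nat_lit 1100000), (nat_lit 1785001), (nat_lit 1271251)], [(nat_lit 17), (nat_lit 58), (nat_lit 401), (nat_lit 175), (nat_lit 11)]⟩,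
 ⟨⟨[(nat_lit 120), (nat_lit 160), (nat_lit 180)], [(nat_lit 0), (nat_lit 0), (nat_lit 1613)], [((nat_lit 0), (nat_lit 0), (nat_lit 0)), ((nat_lit 0), (nat_lit 0), (nat_lit 0)), ((nat_lit 620), (nat_lit 1000), (nat_lit 670))], ((nat_lit 100), (nat_lit 81), (nat_lit 44))⟩, (nat_lit 13927), (nat_lit 300), (nat_lit 1531), (nat_lit 2374400), (nat_lit 2495821), [(nat_lit 254976000), (nat_lit 379904000), (nat_lit 449856000)], [], [(nat_lit 1903720740), (nat_lit 1883764885), (nat_lit 1863809029), (nat_lit 1846561964), (nat_lit 2004334480), (nat_lit 2113682978), (nat_lit 2223029860), (nat_lit 2334483041)], (nat_lit 1100000), (nat_lit 1271251), (nat_lit 1100000), (nat_lit 1442501), (nat_lit 54688), (nat_lit 2559376), [(nat_lit 1695001), (nat_lit 1271251), (nat_lit 1271251)], [(nat_lit 28), (nat_lit 65), (nat_lit 476), (nat_lit 200), (nat_lit 11)]⟩⟩) (.leaf ⟨(nat_lit 729), (nat_lit 210), (nat_lit 0), (nat_lit 61), (nat_lit 0), (nat_lit 2968), (nat_lit 1995),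 (nat_lit 614), (nat_lit 0), (nat_lit 0), (nat_lit 397150), [((nat_lit 380), [((nat_lit 24), (nat_lit 0), (nat_lit 115)), ((nat_lit 41), (nat_lit 2), (nat_lit 614))])], ⟨(nat_lit 8), false, true, true, (nat_lit 328), (nat_lit 2236), (nat_lit 3163), [(nat_lit 1771478), (nat_lit 1762142), (nat_lit 1815720), (nat_lit 1807623), (nat_lit 1832432), (nat_lit 1819158), (nat_lit 1876741), (nat_lit 1864706)]⟩, ⟨(nat_lit 4), false, false, true, (nat_lit 175), (nat_lit 2236), (nat_lit 3163), [(nat_lit 1394735), (nat_lit 1397434), (nat_lit 1416851), (nat_lit 1420169), (nat_lit 1455689), (nat_lit 1454450), (nat_lit 1477844), (nat_lit 1477224)]⟩, (nat_lit 5228757), (nat_lit 34552499), (nat_lit 23835232), (nat_lit 8612269), (nat_lit 4), (nat_lit 0), [], [], [], [],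
 ⟨⟨[(nat_lit 40), (nat_lit 60)], [(nat_lit 0), (nat_lit 832)], [((nat_lit 0), (nat_lit 0), (nat_lit 0)), ((nat_lit 1000), (nat_lit 659), (nat_lit 528))], ((nat_lit 68), (nat_lit 100), (nat_lit 49))⟩, (nat_lit 149233), (nat_lit 70), (nat_lit 70), (nat_lit 0), (nat_lit 0), [(nat_lit 1457555603), (nat_lit 1329826800)], [(nat_lit 0), (nat_lit 0)], [(nat_lit 25608133430), (nat_lit 26639196622), (nat_lit 27487254078), (nat_lit 28431028492), (nat_lit 26419068478), (nat_lit 27391519554), (nat_lit 28194459410), (nat_lit 29082154876)], (nat_lit 0), (nat_lit 0), (nat_lit 0), (nat_lit 0), (nat_lit 0), (nat_lit 0), [], [(nat_lit 1), (nat_lit 38), (nat_lit 203), (nat_lit 0), (nat_lit 8)]⟩,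
 ⟨⟨[(nat_lit 60), (nat_lit 100), (nat_lit 120)], [(nat_lit 0), (nat_lit 0), (nat_lit 1164)], [((nat_lit 0), (nat_lit 0), (nat_lit 0)), ((nat_lit 0), (nat_lit 0), (nat_lit 0)), ((nat_lit 1000), (nat_lit 933), (nat_lit 572))], ((nat_lit 92), (nat_lit 100), (nat_lit 44))⟩, (nat_lit 786757), (nat_lit 547), (nat_lit 547), (nat_lit 0), (nat_lit 960901), [(nat_lit 889422000), (nat_lit 1693750000), (nat_lit 2159328000)], [], [(nat_lit 9994142481), (nat_lit 10231944954), (nat_lit 10376088599), (nat_lit 10577395995), (nat_lit 9491291782), (nat_lit 9574146086), (nat_lit 9685607163), (nat_lit 9799969595)], (nat_lit 1271251), (nat_lit 1271251), (nat_lit 1271251), (nat_lit 1271251), (nat_lit 54688), (nat_lit 2559376), [(nat_lit 780000), (nat_lit 1435001), (nat_lit 1271251)], [(nat_lit 10), (nat_lit 54), (nat_lit 317), (nat_lit 100), (nat_lit 10)]⟩,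
 ⟨⟨[(nat_lit 120), (nat_lit 160), (nat_lit 180)], [(nat_lit 0), (nat_lit 0), (nat_lit 1613)], [((nat_lit 0), (nat_lit 0), (nat_lit 0)), ((nat_lit 0), (nat_lit 0), (nat_lit 0)), ((nat_lit 620), (nat_lit 1000), (nat_lit 670))], ((nat_lit 100), (nat_lit 81), (nat_lit 44))⟩, (nat_lit 107031), (nat_lit 300), (nat_lit 1760), (nat_lit 4526200), (nat_lit 2977473), [(nat_lit 486048000), (nat_lit 724192000), (nat_lit 857538000)], [], [(nat_lit 4405171989), (nat_lit 4368433289), (nat_lit 4331694589), (nat_lit 4294936341), (nat_lit 3713814985), (nat_lit 3875747723), (nat_lit 4061834082), (nat_lit 4251397000)], (nat_lit 1100000), (nat_lit 1271251), (nat_lit 1100000), (nat_lit 1442501), (nat_lit 54688), (nat_lit 2559376), [(nat_lit 1695001), (nat_lit 1271251), (nat_lit 1271251)], [(nat_lit 28), (nat_lit 65), (nat_lit 533), (nat_lit 200), (nat_lit 12)]⟩⟩))))))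
noncomputable def c17_21 : Tr Lf :=
 (.trZ (nat_lit 3) (nat_lit 4) (nat_lit 5) (nat_lit 100) (nat_lit 80) (nat_lit 60) (nat_lit 40) (.spl (nat_lit 2) (nat_lit 160) (.spl (nat_lit 1) (nat_lit 280) (.leaf ⟨(nat_lit 1000), (nat_lit 0), (nat_lit 0), (nat_lit 0), (nat_lit 0), (nat_lit 3053), (nat_lit 0), (nat_lit 0), (nat_lit 0), (nat_lit 0), (nat_lit 250000), [((nat_lit 380), [((nat_lit 24), (nat_lit 0), (nat_lit 1000))])], ⟨(nat_lit 8), false, true, true, (nat_lit 310), (nat_lit 2236), (nat_lit 3163), [(nat_lit 1727168), (nat_lit 1716594), (nat_lit 1771478), (nat_lit 1762142), (nat_lit 1788122), (nat_lit 1773609), (nat_lit 1832432), (nat_lit 1819158)]⟩, ⟨(nat_lit 5), false, false, true, (nat_lit 185), (nat_lit 2236), (nat_lit 3163), [(nat_lit 1411379), (nat_lit 1408901), (nat_lit 1455689), (nat_lit 1454450), (nat_lit 1472332), (nat_lit 1465917), (nat_lit 1516642), (nat_lit 1511466)]⟩, (nat_lit 5282738), (nat_lit 35373508), (nat_lit 22054331), (nat_lit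 9572161), (nat_lit 0), (nat_lit 0), [⟨(nat_lit 1), (nat_lit 68), (nat_lit 55), (nat_lit 100), (nat_lit 33683754)⟩], [], [], [],
 ⟨⟨[(nat_lit 40), (nat_lit 60)], [(nat_lit 0), (nat_lit 832)], [((nat_lit 0), (nat_lit 0), (nat_lit 0)), ((nat_lit 1000), (nat_lit 659), (nat_lit 528))], ((nat_lit 68), (nat_lit 100), (nat_lit 49))⟩, (nat_lit 0), (nat_lit 66), (nat_lit 66), (nat_lit 0), (nat_lit 0), [(nat_lit 1526400008), (nat_lit 1367200000)], [(nat_lit 0), (nat_lit 0)], [(nat_lit 26492523128), (nat_lit 27475640174), (nat_lit 28285885100), (nat_lit 29188685529), (nat_lit 27300498986), (nat_lit 28223887271), (nat_lit 28988179472), (nat_lit 29832142389)], (nat_lit 0), (nat_lit 0), (nat_lit 0), (nat_lit 0), (nat_lit 0), (nat_lit 0), [], [(nat_lit 1), (nat_lit 38), (nat_lit 203), (nat_lit 0), (nat_lit 8)]⟩,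
 Rw.none,
 Rw.none⟩) (.trX (nat_lit 5) (nat_lit 1) (nat_lit 2) (nat_lit 94) (nat_lit 59) (nat_lit 100) (nat_lit 370) (.spl (nat_lit 1) (nat_lit 300) (.spl (nat_lit 2) (nat_lit 140) (.trX (nat_lit 5) (nat_lit 1) (nat_lit 2) (nat_lit 96) (nat_lit 69) (nat_lit 100) (nat_lit 360) (.spl (nat_lit 0) (nat_lit 370) (.leaf ⟨(nat_lit 1000), (nat_lit 0), (nat_lit 0), (nat_lit 0), (nat_lit 0), (nat_lit 3077), (nat_lit 0), (nat_lit 0), (nat_lit 0), (nat_lit 0), (nat_lit 250000), [((nat_lit 370), [((nat_lit 24), (nat_lit 0), (nat_lit 1000))])], ⟨(nat_lit 8), false, true, true, (nat_lit 324), (nat_lit 2738), (nat_lit 3163), [(nat_lit 1771478), (nat_lit 1766852), (nat_lit 1793629), (nat_lit 1789265), (nat_lit 1832432), (nat_lit 1825913), (nat_lit 1854586), (nat_lit 1848331)]⟩, ⟨(nat_lit 5), false, false, true, (nat_lit 181), (nat_lit 2738), (nat_lit 3163), [(nat_lit 1411379), (nat_lit 1410329), (nat_lit 1433534), (nat_lit 1432746), (nat_lit 1472332), (nat_lit 1469390),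 (nat_lit 1494487), (nat_lit 1491808)]⟩, (nat_lit 5271758), (nat_lit 34526084), (nat_lit 23395079), (nat_lit 9078837), (nat_lit 0), (nat_lit 0), [], [], [], [],
 ⟨⟨[(nat_lit 40), (nat_lit 60)], [(nat_lit 0), (nat_lit 832)], [((nat_lit 0), (nat_lit 0), (nat_lit 0)), ((nat_lit 1000), (nat_lit 659), (nat_lit 528))], ((nat_lit 68), (nat_lit 100), (nat_lit 49))⟩, (nat_lit 0), (nat_lit 64), (nat_lit 64), (nat_lit 0), (nat_lit 0), [(nat_lit 1526400001), (nat_lit 1367200000)], [(nat_lit 0), (nat_lit 0)], [(nat_lit 26474386410), (nat_lit 26967450717), (nat_lit 28272822558), (nat_lit 28725091663), (nat_lit 27281526732), (nat_lit 27744569015), (nat_lit 28973730306), (nat_lit 29396781200)], (nat_lit 0), (nat_lit 0), (nat_lit 0), (nat_lit 0), (nat_lit 0), (nat_lit 0), [], [(nat_lit 1), (nat_lit 38), (nat_lit 203), (nat_lit 0), (nat_lit 8)]⟩,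
 Rw.none,
 Rw.none⟩) (.leaf ⟨(nat_lit 1000), (nat_lit 0), (nat_lit 0), (nat_lit 0), (nat_lit 0), (nat_lit 3053), (nat_lit 0), (nat_lit 0), (nat_lit 0), (nat_lit 0), (nat_lit 250000), [((nat_lit 380), [((nat_lit 24), (nat_lit 0), (nat_lit 1000))])], ⟨(nat_lit 8), false, true, true, (nat_lit 322), (nat_lit 2236), (nat_lit 2739), [(nat_lit 1766852), (nat_lit 1762142), (nat_lit 1789269), (nat_lit 1784917), (nat_lit 1825913), (nat_lit 1819158), (nat_lit 1848331), (nat_lit 1841932)]⟩, ⟨(nat_lit 5), false, false, true, (nat_lit 180), (nat_lit 2236), (nat_lit 2739), [(nat_lit 1410329), (nat_lit 1408901), (nat_lit 1432746), (nat_lit 1431676), (nat_lit 1469390), (nat_lit 1465917), (nat_lit 1491808), (nat_lit 1488691)]⟩, (nat_lit 5263323), (nat_lit 34718038), (nat_lit 23229709), (nat_lit 9052253), (nat_lit 0), (nat_lit 0), [], [⟨(nat_lit 1), (nat_lit 100), (nat_lit 49), (nat_lit 95), (nat_lit 32255273)⟩], [], [],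
 ⟨⟨[(nat_lit 40), (nat_lit 60)], [(nat_lit 0), (nat_lit 1134)], [((nat_lit 0), (nat_lit 0), (nat_lit 0)), ((nat_lit 1000), (nat_lit 575), (nat_lit 619))], ((nat_lit 62), (nat_lit 100), (nat_lit 52))⟩, (nat_lit 0), (nat_lit 66), (nat_lit 66), (nat_lit 0), (nat_lit 0), [(nat_lit 1526400001), (nat_lit 1367200000)], [(nat_lit 0), (nat_lit 0)], [(nat_lit 26984081637), (nat_lit 27475640160), (nat_lit 28734225579), (nat_lit 29188685529), (nat_lit 27762193115), (nat_lit 28223887257), (nat_lit 29410099580), (nat_lit 29832142389)], (nat_lit 0), (nat_lit 0), (nat_lit 0), (nat_lit 0), (nat_lit 0), (nat_lit 0), [], [(nat_lit 1), (nat_lit 38), (nat_lit 203), (nat_lit 0), (nat_lit 8)]⟩,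
 Rw.none,
 Rw.none⟩))) (.leaf ⟨(nat_lit 826), (nat_lit 137), (nat_lit 0), (nat_lit 37), (nat_lit 0), (nat_lit 2908), (nat_lit 1279), (nat_lit 349), (nat_lit 0), (nat_lit 0), (nat_lit 440600), [((nat_lit 380), [((nat_lit 24), (nat_lit 1), (nat_lit 275)), ((nat_lit 41), (nat_lit 2), (nat_lit 551))])], ⟨(nat_lit 8), false, true, true, (nat_lit 323), (nat_lit 2236), (nat_lit 3163), [(nat_lit 1771478), (nat_lit 1762142), (nat_lit 1793619), (nat_lit 1784902), (nat_lit 1832432), (nat_lit 1819158), (nat_lit 1854586), (nat_lit 1841932)]⟩, ⟨(nat_lit 5), false, false, true, (nat_lit 189), (nat_lit 2236), (nat_lit 3163), [(nat_lit 1433534), (nat_lit 1431676), (nat_lit 1455689), (nat_lit 1454450), (nat_lit 1494487), (nat_lit 1488691), (nat_lit 1516642), (nat_lit 1511466)]⟩, (nat_lit 5332444), (nat_lit 34224306), (nat_lit 23083680), (nat_lit 9692014), (nat_lit 5), (nat_lit 0), [], [], [], [],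
 ⟨⟨[(nat_lit 40), (nat_lit 60)], [(nat_lit 0), (nat_lit 832)], [((nat_lit 0), (nat_lit 0), (nat_lit 0)), ((nat_lit 1000), (nat_lit 659), (nat_lit 528))], ((nat_lit 68), (nat_lit 100), (nat_lit 49))⟩, (nat_lit 0), (nat_lit 66), (nat_lit 66), (nat_lit 0), (nat_lit 0), [(nat_lit 1404466405), (nat_lit 1094909200)], [(nat_lit 0), (nat_lit 0)], [(nat_lit 26358231842), (nat_lit 27323153998), (nat_lit 28120937334), (nat_lit 29006015544), (nat_lit 27171255730), (nat_lit 28078353990), (nat_lit 28831609226), (nat_lit 29661785974)], (nat_lit 0), (nat_lit 0), (nat_lit 0), (nat_lit 0), (nat_lit 0), (nat_lit 0), [], [(nat_lit 1), (nat_lit 38), (nat_lit 203), (nat_lit 0), (nat_lit 8)]⟩,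
 ⟨⟨[(nat_lit 60), (nat_lit 100), (nat_lit 120)], [(nat_lit 0), (nat_lit 0), (nat_lit 1164)], [((nat_lit 0), (nat_lit 0), (nat_lit 0)), ((nat_lit 0), (nat_lit 0), (nat_lit 0)), ((nat_lit 1000), (nat_lit 933), (nat_lit 572))], ((nat_lit 92), (nat_lit 100), (nat_lit 44))⟩, (nat_lit 231430), (nat_lit 550), (nat_lit 550), (nat_lit 0), (nat_lit 1022542), [(nat_lit 571068000), (nat_lit 1087500000), (nat_lit 1386432000)], [], [(nat_lit 6310683965), (nat_lit 6376887881), (nat_lit 6530731302), (nat_lit 6586295077), (nat_lit 6149397993), (nat_lit 6169460699), (nat_lit 6259588493), (nat_lit 6278500997)], (nat_lit 1271251), (nat_lit 1271251), (nat_lit 1271251), (nat_lit 1271251), (nat_lit 230000), (nat_lit 2684376), [(nat_lit 780000), (nat_lit 1435001), (nat_lit 1271251)], [(nat_lit 10), (nat_lit 54), (nat_lit 317), (nat_lit 100), (nat_lit 9)]⟩,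
 ⟨⟨[(nat_lit 140), (nat_lit 160), (nat_lit 180)], [(nat_lit 0), (nat_lit 304), (nat_lit 1085)], [((nat_lit 0), (nat_lit 0), (nat_lit 0)), ((nat_lit 913), (nat_lit 1000), (nat_lit 217)), ((nat_lit 759), (nat_lit 1000), (nat_lit 463))], ((nat_lit 100), (nat_lit 76), (nat_lit 46))⟩, (nat_lit 75947), (nat_lit 300), (nat_lit 2090), (nat_lit 2601101), (nat_lit 3688977), [(nat_lit 364154000), (nat_lit 439264000), (nat_lit 520146000)], [], [(nat_lit 2762377677), (nat_lit 2739631478), (nat_lit 2722146738), (nat_lit 2699446590), (nat_lit 2564004571), (nat_lit 2663240281), (nat_lit 2385737581), (nat_lit 2363471348)], (nat_lit 936250), (nat_lit 1100000), (nat_lit 1271251), (nat_lit 1271251), (nat_lit 230000), (nat_lit 2684376), [(nat_lit 1977501), (nat_lit 1271251), (nat_lit 1271251)], [(nat_lit 31), (nat_lit 65), (nat_lit 619), (nat_lit 200), (nat_lit 14)]⟩⟩)) (.trX (nat_lit 5) (nat_lit 1) (nat_lit 2) (nat_lit 88) (nat_lit 68) (nat_lit 100) (nat_lit 350) (.leaf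 ⟨(nat_lit 649), (nat_lit 351), (nat_lit 0), (nat_lit 0), (nat_lit 0), (nat_lit 3025), (nat_lit 1956), (nat_lit 0), (nat_lit 0), (nat_lit 0), (nat_lit 342150), [((nat_lit 380), [((nat_lit 24), (nat_lit 0), (nat_lit 135)), ((nat_lit 41), (nat_lit 2), (nat_lit 514))])], ⟨(nat_lit 8), false, true, true, (nat_lit 332), (nat_lit 2236), (nat_lit 3163), [(nat_lit 1793619), (nat_lit 1784902), (nat_lit 1815720), (nat_lit 1807623), (nat_lit 1854586), (nat_lit 1841932), (nat_lit 1876741), (nat_lit 1864706)]⟩, ⟨(nat_lit 5), false, false, true, (nat_lit 185), (nat_lit 2236), (nat_lit 3163), [(nat_lit 1411379), (nat_lit 1408901), (nat_lit 1455689), (nat_lit 1454450), (nat_lit 1472332), (nat_lit 1465917), (nat_lit 1516642), (nat_lit 1511466)]⟩, (nat_lit 5307717), (nat_lit 33802682), (nat_lit 23951823), (nat_lit 9245495), (nat_lit 5), (nat_lit 0), [], [], [⟨(nat_lit 1), (nat_lit 68), (nat_lit 88), (nat_lit 100), (nat_lit 84331806)⟩], [],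
 ⟨⟨[(nat_lit 40), (nat_lit 60)], [(nat_lit 0), (nat_lit 832)], [((nat_lit 0), (nat_lit 0), (nat_lit 0)), ((nat_lit 1000), (nat_lit 659), (nat_lit 528))], ((nat_lit 68), (nat_lit 100), (nat_lit 49))⟩, (nat_lit 41602), (nat_lit 66), (nat_lit 66), (nat_lit 0), (nat_lit 0), [(nat_lit 1502483614), (nat_lit 1573610800)], [(nat_lit 0), (nat_lit 0)], [(nat_lit 26589404050), (nat_lit 27529565850), (nat_lit 28307661750), (nat_lit 29166790600), (nat_lit 27370846300), (nat_lit 28254692475), (nat_lit 28989143850), (nat_lit 29799212863)], (nat_lit 0), (nat_lit 0), (nat_lit 0), (nat_lit 0), (nat_lit 0), (nat_lit 0), [], [(nat_lit 1), (nat_lit 38), (nat_lit 203), (nat_lit 0), (nat_lit 8)]⟩,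
 ⟨⟨[(nat_lit 60), (nat_lit 80), (nat_lit 100)], [(nat_lit 0), (nat_lit 304), (nat_lit 825)], [((nat_lit 0), (nat_lit 0), (nat_lit 0)), ((nat_lit 1000), (nat_lit 905), (nat_lit 238)), ((nat_lit 1000), (nat_lit 871), (nat_lit 407))], ((nat_lit 87), (nat_lit 100), (nat_lit 44))⟩, (nat_lit 1388972), (nat_lit 518), (nat_lit 518), (nat_lit 0), (nat_lit 1076515), [(nat_lit 1151982000), (nat_lit 1645488000), (nat_lit 2193750000)], [], [(nat_lit 10646252522), (nat_lit 10837053480), (nat_lit 11156570781), (nat_lit 11325644274), (nat_lit 11239114107), (nat_lit 11341496957), (nat_lit 11565782555), (nat_lit 11793940370)], (nat_lit 1271251), (nat_lit 1271251), (nat_lit 1271251), (nat_lit 1271251), (nat_lit 230000), (nat_lit 2535626), [(nat_lit 780000), (nat_lit 1100000), (nat_lit 1442501)], [(nat_lit 9), (nat_lit 50), (nat_lit 317), (nat_lit 100), (nat_lit 11)]⟩,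
 Rw.none⟩))))) (.spl (nat_lit 1) (nat_lit 280) (.leaf ⟨(nat_lit 898), (nat_lit 68), (nat_lit 0), (nat_lit 34), (nat_lit 0), (nat_lit 2923), (nat_lit 920), (nat_lit 378), (nat_lit 0), (nat_lit 0), (nat_lit 364200), [((nat_lit 380), [((nat_lit 24), (nat_lit 1), (nat_lit 873)), ((nat_lit 41), (nat_lit 2), (nat_lit 25))])], ⟨(nat_lit 8), false, true, true, (nat_lit 310), (nat_lit 2236), (nat_lit 3163), [(nat_lit 1727168), (nat_lit 1716594), (nat_lit 1771478), (nat_lit 1762142), (nat_lit 1788122), (nat_lit 1773609), (nat_lit 1832432), (nat_lit 1819158)]⟩, ⟨(nat_lit 5), false, false, true, (nat_lit 198), (nat_lit 2236), (nat_lit 3163), [(nat_lit 1455689), (nat_lit 1454450), (nat_lit 1477844), (nat_lit 1477224), (nat_lit 1516642), (nat_lit 1511466), (nat_lit 1538797), (nat_lit 1534240)]⟩, (nat_lit 5376765), (nat_lit 34733140), (nat_lit 21724078), (nat_lit 10542782), (nat_lit 5), (nat_lit 0), [⟨(nat_lit 1), (nat_lit 68), (nat_lit 55), (nat_lit 100), (nat_lit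 298506508)⟩], [], [], [],
 ⟨⟨[(nat_lit 40), (nat_lit 60)], [(nat_lit 0), (nat_lit 832)], [((nat_lit 0), (nat_lit 0), (nat_lit 0)), ((nat_lit 1000), (nat_lit 659), (nat_lit 528))], ((nat_lit 68), (nat_lit 100), (nat_lit 49))⟩, (nat_lit 0), (nat_lit 66), (nat_lit 66), (nat_lit 0), (nat_lit 0), [(nat_lit 1417004006), (nat_lit 1202532400)], [(nat_lit 0), (nat_lit 0)], [(nat_lit 26371971604), (nat_lit 27338775990), (nat_lit 28137848456), (nat_lit 29024912439), (nat_lit 27184473282), (nat_lit 28093256717), (nat_lit 28847653708), (nat_lit 29679255304)], (nat_lit 0), (nat_lit 0), (nat_lit 0), (nat_lit 0), (nat_lit 0), (nat_lit 0), [], [(nat_lit 1), (nat_lit 38), (nat_lit 203), (nat_lit 0), (nat_lit 8)]⟩,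
 ⟨⟨[(nat_lit 80), (nat_lit 120), (nat_lit 140)], [(nat_lit 0), (nat_lit 0), (nat_lit 1164)], [((nat_lit 0), (nat_lit 0), (nat_lit 0)), ((nat_lit 0), (nat_lit 0), (nat_lit 0)), ((nat_lit 941), (nat_lit 1000), (nat_lit 576))], ((nat_lit 100), (nat_lit 99), (nat_lit 44))⟩, (nat_lit 171886), (nat_lit 642), (nat_lit 642), (nat_lit 0), (nat_lit 1085516), [(nat_lit 478176000), (nat_lit 812736000), (nat_lit 1003884000)], [], [(nat_lit 3830057720), (nat_lit 3861470774), (nat_lit 3925280366), (nat_lit 3946042587), (nat_lit 3552627238), (nat_lit 3699942341), (nat_lit 3838579962), (nat_lit 3957566637)], (nat_lit 1271251), (nat_lit 1271251), (nat_lit 1271251), (nat_lit 1271251), (nat_lit 230000), (nat_lit 2833126), [(nat_lit 1100000), (nat_lit 1785001), (nat_lit 1271251)], [(nat_lit 17), (nat_lit 58), (nat_lit 401), (nat_lit 175), (nat_lit 11)]⟩,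
 ⟨⟨[(nat_lit 120), (nat_lit 160), (nat_lit 180)], [(nat_lit 0), (nat_lit 0), (nat_lit 1613)], [((nat_lit 0), (nat_lit 0), (nat_lit 0)), ((nat_lit 0), (nat_lit 0), (nat_lit 0)), ((nat_lit 620), (nat_lit 1000), (nat_lit 670))], ((nat_lit 100), (nat_lit 81), (nat_lit 44))⟩, (nat_lit 14797), (nat_lit 300), (nat_lit 1494), (nat_lit 2522803), (nat_lit 2495821), [(nat_lit 270912000), (nat_lit 403648000), (nat_lit 477972000)], [], [(nat_lit 1987898262), (nat_lit 1966019023), (nat_lit 1946376724), (nat_lit 1925975848), (nat_lit 2243867076), (nat_lit 2359738319), (nat_lit 1906974481), (nat_lit 2024941616)], (nat_lit 1100000), (nat_lit 1271251), (nat_lit 1271251), (nat_lit 1271251), (nat_lit 230000), (nat_lit 2833126), [(nat_lit 1695001), (nat_lit 1271251), (nat_lit 1271251)], [(nat_lit 28), (nat_lit 65), (nat_lit 475), (nat_lit 225), (nat_lit 11)]⟩⟩) (.trX (nat_lit 5) (nat_lit 1) (nat_lit 2) (nat_lit 92) (nat_lit 49) (nat_lit 100) (nat_lit 380) (.leaf ⟨(nat_lit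 225), (nat_lit 595), (nat_lit 0), (nat_lit 180), (nat_lit 0), (nat_lit 3313), (nat_lit 5465), (nat_lit 1820), (nat_lit 0), (nat_lit 0), (nat_lit 135000), [((nat_lit 380), [((nat_lit 41), (nat_lit 2), (nat_lit 225))])], ⟨(nat_lit 8), false, true, true, (nat_lit 328), (nat_lit 2236), (nat_lit 3163), [(nat_lit 1771478), (nat_lit 1762142), (nat_lit 1815720), (nat_lit 1807623), (nat_lit 1832432), (nat_lit 1819158), (nat_lit 1876741), (nat_lit 1864706)]⟩, ⟨(nat_lit 5), false, false, true, (nat_lit 198), (nat_lit 2236), (nat_lit 3163), [(nat_lit 1455689), (nat_lit 1454450), (nat_lit 1477844), (nat_lit 1477224), (nat_lit 1516642), (nat_lit 1511466), (nat_lit 1538797), (nat_lit 1534240)]⟩, (nat_lit 5397755), (nat_lit 33520704), (nat_lit 23223269), (nat_lit 10256027), (nat_lit 5), (nat_lit 0), [], [], [], [⟨(nat_lit 1), (nat_lit 63), (nat_lit 72), (nat_lit 100), (nat_lit 10776712)⟩],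
 ⟨⟨[(nat_lit 40), (nat_lit 60)], [(nat_lit 0), (nat_lit 832)], [((nat_lit 0), (nat_lit 0), (nat_lit 0)), ((nat_lit 1000), (nat_lit 659), (nat_lit 528))], ((nat_lit 68), (nat_lit 100), (nat_lit 49))⟩, (nat_lit 2103241), (nat_lit 66), (nat_lit 66), (nat_lit 0), (nat_lit 0), [(nat_lit 1750150003), (nat_lit 2647320000)], [(nat_lit 0), (nat_lit 0)], [(nat_lit 26743542158), (nat_lit 27759284524), (nat_lit 28591874370), (nat_lit 29516231709), (nat_lit 27542466376), (nat_lit 28495064361), (nat_lit 29279146982), (nat_lit 30147487285)], (nat_lit 0), (nat_lit 0), (nat_lit 0), (nat_lit 0), (nat_lit 0), (nat_lit 0), [], [(nat_lit 1), (nat_lit 38), (nat_lit 203), (nat_lit 0), (nat_lit 8)]⟩,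
 ⟨⟨[(nat_lit 60), (nat_lit 100), (nat_lit 120)], [(nat_lit 0), (nat_lit 0), (nat_lit 1164)], [((nat_lit 0), (nat_lit 0), (nat_lit 0)), ((nat_lit 0), (nat_lit 0), (nat_lit 0)), ((nat_lit 1000), (nat_lit 933), (nat_lit 572))], ((nat_lit 92), (nat_lit 100), (nat_lit 44))⟩, (nat_lit 4418010), (nat_lit 526), (nat_lit 526), (nat_lit 0), (nat_lit 960901), [(nat_lit 2543550000), (nat_lit 4843750000), (nat_lit 6175200000)], [], [(nat_lit 26749563805), (nat_lit 27640599560), (nat_lit 28095922783), (nat_lit 28861368960), (nat_lit 27557007243), (nat_lit 27895622695), (nat_lit 28242184500), (nat_lit 28604537043)], (nat_lit 1271251), (nat_lit 1271251), (nat_lit 1271251), (nat_lit 1271251), (nat_lit 230000), (nat_lit 2758751), [(nat_lit 780000), (nat_lit 1435001), (nat_lit 1271251)], [(nat_lit 10), (nat_lit 54), (nat_lit 317), (nat_lit 100), (nat_lit 9)]⟩,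
 ⟨⟨[(nat_lit 120), (nat_lit 160), (nat_lit 180)], [(nat_lit 0), (nat_lit 0), (nat_lit 1613)], [((nat_lit 0), (nat_lit 0), (nat_lit 0)), ((nat_lit 0), (nat_lit 0), (nat_lit 0)), ((nat_lit 620), (nat_lit 1000), (nat_lit 670))], ((nat_lit 100), (nat_lit 81), (nat_lit 44))⟩, (nat_lit 370608), (nat_lit 300), (nat_lit 1723), (nat_lit 13356000), (nat_lit 2977473), [(nat_lit 1434240000), (nat_lit 2136960000), (nat_lit 2530440000)], [], [(nat_lit 12398405469), (nat_lit 12289634426), (nat_lit 12181027797), (nat_lit 12072174547), (nat_lit 11406923330), (nat_lit 11973410658), (nat_lit 10309159964), (nat_lit 10356209390)], (nat_lit 1100000), (nat_lit 1271251), (nat_lit 1271251), (nat_lit 1271251), (nat_lit 230000), (nat_lit 2758751), [(nat_lit 1695001), (nat_lit 1271251), (nat_lit 1271251)], [(nat_lit 28), (nat_lit 65), (nat_lit 531), (nat_lit 200), (nat_lit 12)]⟩⟩)))))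
noncomputable def c17_22 : Tr Lf :=
 (.trX (nat_lit 3) (nat_lit 0) (nat_lit 1) (nat_lit 65) (nat_lit 54) (nat_lit 100) (nat_lit 380) (.spl (nat_lit 4) (nat_lit 200) (.trX (nat_lit 5) (nat_lit 3) (nat_lit 4) (nat_lit 60) (nat_lit 80) (nat_lit 100) (nat_lit 320) (.spl (nat_lit 0) (nat_lit 370) (.leaf ⟨(nat_lit 910), (nat_lit 90), (nat_lit 0), (nat_lit 0), (nat_lit 0), (nat_lit 2953), (nat_lit 803), (nat_lit 0), (nat_lit 0), (nat_lit 0), (nat_lit 313450), [((nat_lit 370), [((nat_lit 24), (nat_lit 0), (nat_lit 337)), ((nat_lit 24), (nat_lit 1), (nat_lit 573))])], ⟨(nat_lit 9), false, true, true, (nat_lit 329), (nat_lit 2738), (nat_lit 3163), [(nat_lit 1788122), (nat_lit 1781079), (nat_lit 1832432), (nat_lit 1825913), (nat_lit 1818598), (nat_lit 1810609), (nat_lit 1862908), (nat_lit 1855444)]⟩, ⟨(nat_lit 3), false, false, true, (nat_lit 154), (nat_lit 2738), (nat_lit 3163), [(nat_lit 1289472), (nat_lit 1292206), (nat_lit 1355914), (nat_lit 1359435),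 (nat_lit 1411379), (nat_lit 1410329), (nat_lit 1477844), (nat_lit 1477581)]⟩, (nat_lit 5057285), (nat_lit 35353021), (nat_lit 24464792), (nat_lit 7182187), (nat_lit 3), (nat_lit 0), [⟨(nat_lit 1), (nat_lit 65), (nat_lit 59), (nat_lit 100), (nat_lit 4925868)⟩, ⟨(nat_lit 1), (nat_lit 54), (nat_lit 65), (nat_lit 100), (nat_lit 297578201)⟩], [], [], [⟨(nat_lit 1), (nat_lit 96), (nat_lit 54), (nat_lit 100), (nat_lit 14129078)⟩],
 ⟨⟨[(nat_lit 40), (nat_lit 60)], [(nat_lit 0), (nat_lit 832)], [((nat_lit 0), (nat_lit 0), (nat_lit 0)), ((nat_lit 1000), (nat_lit 659), (nat_lit 528))], ((nat_lit 68), (nat_lit 100), (nat_lit 49))⟩, (nat_lit 0), (nat_lit 83), (nat_lit 83), (nat_lit 0), (nat_lit 0), [(nat_lit 1464664874), (nat_lit 1318124800)], [(nat_lit 0), (nat_lit 0)], [(nat_lit 27302644856), (nat_lit 27823028772), (nat_lit 28362149636), (nat_lit 28872279646), (nat_lit 28216842032), (nat_lit 28659896925), (nat_lit 29102951818), (nat_lit 29524891946)], (nat_lit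 0), (nat_lit 0), (nat_lit 0), (nat_lit 0), (nat_lit 0), (nat_lit 0), [], [(nat_lit 1), (nat_lit 38), (nat_lit 203), (nat_lit 0), (nat_lit 8)]⟩,
 ⟨⟨[(nat_lit 80), (nat_lit 120), (nat_lit 140)], [(nat_lit 0), (nat_lit 0), (nat_lit 1164)], [((nat_lit 0), (nat_lit 0), (nat_lit 0)), ((nat_lit 0), (nat_lit 0), (nat_lit 0)), ((nat_lit 941), (nat_lit 1000), (nat_lit 576))], ((nat_lit 100), (nat_lit 99), (nat_lit 44))⟩, (nat_lit 128699), (nat_lit 663), (nat_lit 663), (nat_lit 0), (nat_lit 1102698), [(nat_lit 421920000), (nat_lit 717120000), (nat_lit 885780000)], [], [(nat_lit 3623079937), (nat_lit 3642621910), (nat_lit 3665846959), (nat_lit 3680642505), (nat_lit 3082450730), (nat_lit 3072428434), (nat_lit 3103180533), (nat_lit 3182914213)], (nat_lit 1271251), (nat_lit 1271251), (nat_lit 1271251), (nat_lit 1271251), (nat_lit 111251), (nat_lit 2286250), [(nat_lit 1100000), (nat_lit 1785001), (nat_lit 1271251)], [(nat_lit 17), (nat_lit 58), (nat_lit 373), (nat_lit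 150), (nat_lit 10)]⟩,
 Rw.none⟩) (.trX (nat_lit 3) (nat_lit 0) (nat_lit 1) (nat_lit 57) (nat_lit 62) (nat_lit 100) (nat_lit 370) (.leaf ⟨(nat_lit 934), (nat_lit 66), (nat_lit 0), (nat_lit 0), (nat_lit 0), (nat_lit 3072), (nat_lit 590), (nat_lit 0), (nat_lit 0), (nat_lit 0), (nat_lit 233500), [((nat_lit 380), [((nat_lit 24), (nat_lit 0), (nat_lit 934))])], ⟨(nat_lit 9), false, true, true, (nat_lit 323), (nat_lit 2236), (nat_lit 2739), [(nat_lit 1781079), (nat_lit 1773609), (nat_lit 1825913), (nat_lit 1819158), (nat_lit 1795844), (nat_lit 1787863), (nat_lit 1840679), (nat_lit 1833412)]⟩, ⟨(nat_lit 3), false, false, true, (nat_lit 154), (nat_lit 2236), (nat_lit 2739), [(nat_lit 1292206), (nat_lit 1294870), (nat_lit 1359410), (nat_lit 1363145), (nat_lit 1410329), (nat_lit 1408901), (nat_lit 1477581), (nat_lit 1477224)]⟩, (nat_lit 5055305), (nat_lit 35776706), (nat_lit 23942867), (nat_lit 7280427), (nat_lit 3), (nat_lit 0), [⟨(nat_lit 1), (nat_lit 62),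 (nat_lit 57), (nat_lit 100), (nat_lit 356895381)⟩], [], [], [⟨(nat_lit 1), (nat_lit 94), (nat_lit 58), (nat_lit 100), (nat_lit 9752870)⟩],
 ⟨⟨[(nat_lit 40), (nat_lit 60)], [(nat_lit 0), (nat_lit 1134)], [((nat_lit 0), (nat_lit 0), (nat_lit 0)), ((nat_lit 1000), (nat_lit 575), (nat_lit 619))], ((nat_lit 62), (nat_lit 100), (nat_lit 52))⟩, (nat_lit 0), (nat_lit 83), (nat_lit 83), (nat_lit 0), (nat_lit 0), [(nat_lit 1544325654), (nat_lit 1493576800)], [(nat_lit 0), (nat_lit 0)], [(nat_lit 28003333972), (nat_lit 28551014952), (nat_lit 28536111385), (nat_lit 29068888798), (nat_lit 28760739981), (nat_lit 29212621596), (nat_lit 29199782459), (nat_lit 29680470099)], (nat_lit 0), (nat_lit 0), (nat_lit 0), (nat_lit 0), (nat_lit 0), (nat_lit 0), [], [(nat_lit 1), (nat_lit 38), (nat_lit 203), (nat_lit 0), (nat_lit 8)]⟩,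
 ⟨⟨[(nat_lit 80), (nat_lit 120), (nat_lit 140)], [(nat_lit 0), (nat_lit 0), (nat_lit 1164)], [((nat_lit 0), (nat_lit 0), (nat_lit 0)), ((nat_lit 0), (nat_lit 0), (nat_lit 0)), ((nat_lit 941), (nat_lit 1000), (nat_lit 576))], ((nat_lit 100), (nat_lit 99), (nat_lit 44))⟩, (nat_lit 98435), (nat_lit 745), (nat_lit 745), (nat_lit 0), (nat_lit 1279579), [(nat_lit 309408000), (nat_lit 525888000), (nat_lit 649572000)], [], [(nat_lit 2647239967), (nat_lit 2661511547), (nat_lit 2662927129), (nat_lit 2675455558), (nat_lit 2250693524), (nat_lit 2247658720), (nat_lit 2259524735), (nat_lit 2282340163)], (nat_lit 1271251), (nat_lit 1271251), (nat_lit 1271251), (nat_lit 1271251), (nat_lit 111251), (nat_lit 2286250), [(nat_lit 1100000), (nat_lit 1785001), (nat_lit 1271251)], [(nat_lit 17), (nat_lit 58), (nat_lit 373), (nat_lit 150), (nat_lit 10)]⟩,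
 Rw.none⟩)))) (.trZ (nat_lit 3) (nat_lit 4) (nat_lit 5) (nat_lit 100) (nat_lit 60) (nat_lit 80) (nat_lit 80) (.spl (nat_lit 1) (nat_lit 260) (.trX (nat_lit 3) (nat_lit 0) (nat_lit 1) (nat_lit 63) (nat_lit 61) (nat_lit 100) (nat_lit 370) (.leaf ⟨(nat_lit 940), (nat_lit 60), (nat_lit 0), (nat_lit 0), (nat_lit 0), (nat_lit 3121), (nat_lit 528), (nat_lit 0), (nat_lit 0), (nat_lit 0), (nat_lit 235000), [((nat_lit 380), [((nat_lit 24), (nat_lit 0), (nat_lit 940))])], ⟨(nat_lit 9), false, true, true, (nat_lit 320), (nat_lit 2236), (nat_lit 3163), [(nat_lit 1788122), (nat_lit 1773609), (nat_lit 1810277), (nat_lit 1796384), (nat_lit 1803360), (nat_lit 1787863), (nat_lit 1825515), (nat_lit 1810637)]⟩, ⟨(nat_lit 5), false, false, true, (nat_lit 189), (nat_lit 2236), (nat_lit 3163), [(nat_lit 1411379), (nat_lit 1408901), (nat_lit 1477844), (nat_lit 1477224), (nat_lit 1472332), (nat_lit 1465917), (nat_lit 1538797), (nat_lit 1534240)]⟩, (nat_lit 5329007), (nat_lit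 34446803), (nat_lit 22812715), (nat_lit 9740482), (nat_lit 5), (nat_lit 0), [⟨(nat_lit 1), (nat_lit 61), (nat_lit 63), (nat_lit 100), (nat_lit 337407275)⟩], [], [], [⟨(nat_lit 1), (nat_lit 77), (nat_lit 57), (nat_lit 100), (nat_lit 16054243)⟩],
 ⟨⟨[(nat_lit 40), (nat_lit 60)], [(nat_lit 0), (nat_lit 832)], [((nat_lit 0), (nat_lit 0), (nat_lit 0)), ((nat_lit 1000), (nat_lit 659), (nat_lit 528))], ((nat_lit 68), (nat_lit 100), (nat_lit 49))⟩, (nat_lit 0), (nat_lit 69), (nat_lit 69), (nat_lit 0), (nat_lit 0), [(nat_lit 1542696001), (nat_lit 1482088000)], [(nat_lit 0), (nat_lit 0)], [(nat_lit 28281466590), (nat_lit 29274351453), (nat_lit 28777863899), (nat_lit 29744873011), (nat_lit 28980033307), (nat_lit 29912114095), (nat_lit 29446073701), (nat_lit 30354365523)], (nat_lit 0), (nat_lit 0), (nat_lit 0), (nat_lit 0), (nat_lit 0), (nat_lit 0), [], [(nat_lit 1), (nat_lit 38), (nat_lit 203), (nat_lit 0), (nat_lit 7)]⟩,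
 ⟨⟨[(nat_lit 80), (nat_lit 120), (nat_lit 140)], [(nat_lit 0), (nat_lit 0), (nat_lit 1164)], [((nat_lit 0), (nat_lit 0), (nat_lit 0)), ((nat_lit 0), (nat_lit 0), (nat_lit 0)), ((nat_lit 941), (nat_lit 1000), (nat_lit 576))], ((nat_lit 100), (nat_lit 99), (nat_lit 44))⟩, (nat_lit 85195), (nat_lit 696), (nat_lit 696), (nat_lit 0), (nat_lit 1270701), [(nat_lit 281280000), (nat_lit 478080000), (nat_lit 590520000)], [], [(nat_lit 2264866380), (nat_lit 2270792070), (nat_lit 2278249944), (nat_lit 2283431870), (nat_lit 2113155165), (nat_lit 2109383348), (nat_lit 2119131841), (nat_lit 2146011443)], (nat_lit 1271251), (nat_lit 1271251), (nat_lit 1271251), (nat_lit 1271251), (nat_lit 490000), (nat_lit 2599376), [(nat_lit 1100000), (nat_lit 1785001), (nat_lit 1271251)], [(nat_lit 17), (nat_lit 58), (nat_lit 401), (nat_lit 175), (nat_lit 11)]⟩,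
 Rw.none⟩)) (.leaf ⟨(nat_lit 866), (nat_lit 134), (nat_lit 0), (nat_lit 0), (nat_lit 0), (nat_lit 3021), (nat_lit 916), (nat_lit 0), (nat_lit 0), (nat_lit 0), (nat_lit 279650), [((nat_lit 380), [((nat_lit 24), (nat_lit 0), (nat_lit 445)), ((nat_lit 24), (nat_lit 1), (nat_lit 421))])], ⟨(nat_lit 9), false, true, true, (nat_lit 332), (nat_lit 2236), (nat_lit 3163), [(nat_lit 1810277), (nat_lit 1796384), (nat_lit 1832432), (nat_lit 1819158), (nat_lit 1840753), (nat_lit 1824891), (nat_lit 1862908), (nat_lit 1847666)]⟩, ⟨(nat_lit 5), false, false, true, (nat_lit 189), (nat_lit 2236), (nat_lit 3163), [(nat_lit 1411379), (nat_lit 1408901), (nat_lit 1477844), (nat_lit 1477224), (nat_lit 1472332), (nat_lit 1465917), (nat_lit 1538797), (nat_lit 1534240)]⟩, (nat_lit 5339549), (nat_lit 33628170), (nat_lit 23811101), (nat_lit 9560729), (nat_lit 5), (nat_lit 0), [⟨(nat_lit 1), (nat_lit 65), (nat_lit 56), (nat_lit 100), (nat_lit 318072857)⟩], [], [], [⟨(nat_lit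 1), (nat_lit 80), (nat_lit 53), (nat_lit 100), (nat_lit 51523339)⟩],
 ⟨⟨[(nat_lit 40), (nat_lit 60)], [(nat_lit 0), (nat_lit 832)], [((nat_lit 0), (nat_lit 0), (nat_lit 0)), ((nat_lit 1000), (nat_lit 659), (nat_lit 528))], ((nat_lit 68), (nat_lit 100), (nat_lit 49))⟩, (nat_lit 0), (nat_lit 71), (nat_lit 71), (nat_lit 0), (nat_lit 0), [(nat_lit 1499476001), (nat_lit 1461108800)], [(nat_lit 0), (nat_lit 0)], [(nat_lit 28249453790), (nat_lit 29148372153), (nat_lit 29148372153), (nat_lit 30078504843), (nat_lit 28953596994), (nat_lit 29794508645), (nat_lit 29794508645), (nat_lit 30669303975)], (nat_lit 0), (nat_lit 0), (nat_lit 0), (nat_lit 0), (nat_lit 0), (nat_lit 0), [], [(nat_lit 1), (nat_lit 38), (nat_lit 203), (nat_lit 0), (nat_lit 7)]⟩,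
 ⟨⟨[(nat_lit 80), (nat_lit 100), (nat_lit 120)], [(nat_lit 0), (nat_lit 265), (nat_lit 768)], [((nat_lit 0), (nat_lit 0), (nat_lit 0)), ((nat_lit 1000), (nat_lit 959), (nat_lit 206)), ((nat_lit 1000), (nat_lit 958), (nat_lit 392))], ((nat_lit 96), (nat_lit 100), (nat_lit 44))⟩, (nat_lit 435810), (nat_lit 590), (nat_lit 590), (nat_lit 0), (nat_lit 1178034), [(nat_lit 628192000), (nat_lit 837500000), (nat_lit 1067712000)], [], [(nat_lit 4456603776), (nat_lit 4496663244), (nat_lit 4536374501), (nat_lit 4572917262), (nat_lit 4490836926), (nat_lit 4508630509), (nat_lit 4593170765), (nat_lit 4676117818)], (nat_lit 1271251), (nat_lit 1271251), (nat_lit 1271251), (nat_lit 1271251), (nat_lit 490000), (nat_lit 2599376), [(nat_lit 1100000), (nat_lit 1442501), (nat_lit 1271251)], [(nat_lit 16), (nat_lit 54), (nat_lit 317), (nat_lit 100), (nat_lit 9)]⟩,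
 Rw.none⟩)))))
noncomputable def c17_23 : Tr Lf :=
 (.spl (nat_lit 4) (nat_lit 200) (.trX (nat_lit 5) (nat_lit 3) (nat_lit 4) (nat_lit 60) (nat_lit 80) (nat_lit 100) (nat_lit 320) (.spl (nat_lit 1) (nat_lit 300) (.trX (nat_lit 3) (nat_lit 0) (nat_lit 1) (nat_lit 69) (nat_lit 45) (nat_lit 100) (nat_lit 390) (.spl (nat_lit 1) (nat_lit 290) (.trX (nat_lit 3) (nat_lit 0) (nat_lit 1) (nat_lit 67) (nat_lit 50) (nat_lit 100) (nat_lit 380) (.leaf ⟨(nat_lit 878), (nat_lit 122), (nat_lit 0), (nat_lit 0), (nat_lit 0), (nat_lit 2887), (nat_lit 943), (nat_lit 0), (nat_lit 0), (nat_lit 0), (nat_lit 351200), [((nat_lit 380), [((nat_lit 24), (nat_lit 1), (nat_lit 878))])], ⟨(nat_lit 9), false, true, true, (nat_lit 338), (nat_lit 2236), (nat_lit 3163), [(nat_lit 1832432), (nat_lit 1819158), (nat_lit 1843509), (nat_lit 1830545), (nat_lit 1862908), (nat_lit 1847666), (nat_lit 1873986), (nat_lit 1859053)]⟩, ⟨(nat_lit 3), false, false, true, (nat_lit 154), (nat_lit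 2236), (nat_lit 3163), [(nat_lit 1289472), (nat_lit 1294870), (nat_lit 1355794), (nat_lit 1363050), (nat_lit 1411379), (nat_lit 1408901), (nat_lit 1477844), (nat_lit 1477224)]⟩, (nat_lit 5066025), (nat_lit 34619840), (nat_lit 25294286), (nat_lit 7085874), (nat_lit 3), (nat_lit 0), [⟨(nat_lit 1), (nat_lit 60), (nat_lit 58), (nat_lit 100), (nat_lit 303259184)⟩], [], [], [⟨(nat_lit 1), (nat_lit 96), (nat_lit 54), (nat_lit 100), (nat_lit 29192733)⟩],
 ⟨⟨[(nat_lit 40), (nat_lit 60)], [(nat_lit 0), (nat_lit 832)], [((nat_lit 0), (nat_lit 0), (nat_lit 0)), ((nat_lit 1000), (nat_lit 659), (nat_lit 528))], ((nat_lit 68), (nat_lit 100), (nat_lit 49))⟩, (nat_lit 0), (nat_lit 86), (nat_lit 86), (nat_lit 0), (nat_lit 0), [(nat_lit 1427484003), (nat_lit 1261546400)], [(nat_lit 0), (nat_lit 0)], [(nat_lit 27247764499), (nat_lit 28257400805), (nat_lit 28257400805), (nat_lit 29269071024), (nat_lit 28178402242), (nat_lit 29057535036), (nat_lit 29057535036), (nat_lit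 29895090710)], (nat_lit 0), (nat_lit 0), (nat_lit 0), (nat_lit 0), (nat_lit 0), (nat_lit 0), [], [(nat_lit 1), (nat_lit 38), (nat_lit 203), (nat_lit 0), (nat_lit 8)]⟩,
 ⟨⟨[(nat_lit 60), (nat_lit 100), (nat_lit 120)], [(nat_lit 0), (nat_lit 0), (nat_lit 1164)], [((nat_lit 0), (nat_lit 0), (nat_lit 0)), ((nat_lit 0), (nat_lit 0), (nat_lit 0)), ((nat_lit 1000), (nat_lit 933), (nat_lit 572))], ((nat_lit 92), (nat_lit 100), (nat_lit 44))⟩, (nat_lit 165009), (nat_lit 610), (nat_lit 610), (nat_lit 0), (nat_lit 1114500), [(nat_lit 400404000), (nat_lit 762500000), (nat_lit 972096000)], [], [(nat_lit 4486073244), (nat_lit 4505784806), (nat_lit 4566002579), (nat_lit 4583734471), (nat_lit 4050540093), (nat_lit 4057606231), (nat_lit 4163563997), (nat_lit 4208074256)], (nat_lit 1271251), (nat_lit 1271251), (nat_lit 1271251), (nat_lit 1271251), (nat_lit 111251), (nat_lit 2286250), [(nat_lit 780000), (nat_lit 1435001), (nat_lit 1271251)], [(nat_lit 10), (nat_lit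 54), (nat_lit 317), (nat_lit 100), (nat_lit 9)]⟩,
 Rw.none⟩)) (.leaf ⟨(nat_lit 411), (nat_lit 589), (nat_lit 0), (nat_lit 0), (nat_lit 0), (nat_lit 3329), (nat_lit 3498), (nat_lit 0), (nat_lit 0), (nat_lit 0), (nat_lit 178350), [((nat_lit 380), [((nat_lit 24), (nat_lit 0), (nat_lit 195)), ((nat_lit 41), (nat_lit 2), (nat_lit 216))])], ⟨(nat_lit 9), false, true, true, (nat_lit 346), (nat_lit 2236), (nat_lit 3163), [(nat_lit 1843509), (nat_lit 1830545), (nat_lit 1854586), (nat_lit 1841932), (nat_lit 1889224), (nat_lit 1873307), (nat_lit 1900301), (nat_lit 1884694)]⟩, ⟨(nat_lit 3), false, false, true, (nat_lit 154), (nat_lit 2236), (nat_lit 3163), [(nat_lit 1289472), (nat_lit 1294870), (nat_lit 1355794), (nat_lit 1363050), (nat_lit 1411379), (nat_lit 1408901), (nat_lit 1477844), (nat_lit 1477224)]⟩, (nat_lit 5068620), (nat_lit 34072523), (nat_lit 25926830), (nat_lit 7000647), (nat_lit 3), (nat_lit 0), [⟨(nat_lit 1), (nat_lit 57), (nat_lit 60), (nat_lit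 100), (nat_lit 328824177)⟩], [], [], [],
 ⟨⟨[(nat_lit 40), (nat_lit 60)], [(nat_lit 0), (nat_lit 832)], [((nat_lit 0), (nat_lit 0), (nat_lit 0)), ((nat_lit 1000), (nat_lit 659), (nat_lit 528))], ((nat_lit 68), (nat_lit 100), (nat_lit 49))⟩, (nat_lit 743415), (nat_lit 89), (nat_lit 89), (nat_lit 0), (nat_lit 0), [(nat_lit 1636278411), (nat_lit 2299321200)], [(nat_lit 0), (nat_lit 0)], [(nat_lit 27874576985), (nat_lit 28958900552), (nat_lit 29525068506), (nat_lit 30562694337), (nat_lit 28692623411), (nat_lit 29536388397), (nat_lit 30045444143), (nat_lit 30981993595)], (nat_lit 0), (nat_lit 0), (nat_lit 0), (nat_lit 0), (nat_lit 0), (nat_lit 0), [], [(nat_lit 1), (nat_lit 38), (nat_lit 203), (nat_lit 0), (nat_lit 8)]⟩,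
 ⟨⟨[(nat_lit 60), (nat_lit 80), (nat_lit 100)], [(nat_lit 0), (nat_lit 151), (nat_lit 679)], [((nat_lit 0), (nat_lit 0), (nat_lit 0)), ((nat_lit 1000), (nat_lit 953), (nat_lit 118)), ((nat_lit 1000), (nat_lit 894), (nat_lit 411))], ((nat_lit 89), (nat_lit 100), (nat_lit 44))⟩, (nat_lit 3760017), (nat_lit 540), (nat_lit 540), (nat_lit 0), (nat_lit 1092275), [(nat_lit 1933098000), (nat_lit 2761232000), (nat_lit 3681250000)], [], [(nat_lit 18701952589), (nat_lit 18829331565), (nat_lit 20018608190), (nat_lit 20343418727), (nat_lit 18488662570), (nat_lit 18695966144), (nat_lit 19570692470), (nat_lit 19761683540)], (nat_lit 1271251), (nat_lit 1271251), (nat_lit 1271251), (nat_lit 1271251), (nat_lit 111251), (nat_lit 2286250), [(nat_lit 780000), (nat_lit 1100000), (nat_lit 1442501)], [(nat_lit 9), (nat_lit 50), (nat_lit 317), (nat_lit 100), (nat_lit 11)]⟩,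
 Rw.none⟩))) (.leaf ⟨(nat_lit 393), (nat_lit 607), (nat_lit 0), (nat_lit 0), (nat_lit 0), (nat_lit 3341), (nat_lit 3548), (nat_lit 0), (nat_lit 0), (nat_lit 0), (nat_lit 166150), [((nat_lit 380), [((nat_lit 24), (nat_lit 0), (nat_lit 199)), ((nat_lit 41), (nat_lit 2), (nat_lit 194))])], ⟨(nat_lit 9), false, true, true, (nat_lit 356), (nat_lit 2236), (nat_lit 3163), [(nat_lit 1854586), (nat_lit 1841932), (nat_lit 1876741), (nat_lit 1864706), (nat_lit 1915540), (nat_lit 1898948), (nat_lit 1937695), (nat_lit 1921722)]⟩, ⟨(nat_lit 3), false, false, true, (nat_lit 154), (nat_lit 2236), (nat_lit 3163), [(nat_lit 1289472), (nat_lit 1294870), (nat_lit 1355794), (nat_lit 1363050), (nat_lit 1411379), (nat_lit 1408901), (nat_lit 1477844), (nat_lit 1477224)]⟩, (nat_lit 5068729), (nat_lit 33370368), (nat_lit 26740178), (nat_lit 6889454), (nat_lit 3), (nat_lit 0), [], [], [], [⟨(nat_lit 1), (nat_lit 99), (nat_lit 44), (nat_lit 100), (nat_lit 196406429)⟩],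
 ⟨⟨[(nat_lit 40), (nat_lit 60)], [(nat_lit 0), (nat_lit 832)], [((nat_lit 0), (nat_lit 0), (nat_lit 0)), ((nat_lit 1000), (nat_lit 659), (nat_lit 528))], ((nat_lit 68), (nat_lit 100), (nat_lit 49))⟩, (nat_lit 1044344), (nat_lit 91), (nat_lit 91), (nat_lit 0), (nat_lit 0), [(nat_lit 1646416031), (nat_lit 2353719600)], [(nat_lit 0), (nat_lit 0)], [(nat_lit 27843883476), (nat_lit 28977945794), (nat_lit 30112008111), (nat_lit 31119461071), (nat_lit 28672725806), (nat_lit 29552574036), (nat_lit 30571067581), (nat_lit 31481598012)], (nat_lit 0), (nat_lit 0), (nat_lit 0), (nat_lit 0), (nat_lit 0), (nat_lit 0), [], [(nat_lit 1), (nat_lit 38), (nat_lit 203), (nat_lit 0), (nat_lit 8)]⟩,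
 ⟨⟨[(nat_lit 60), (nat_lit 80), (nat_lit 100)], [(nat_lit 0), (nat_lit 304), (nat_lit 825)], [((nat_lit 0), (nat_lit 0), (nat_lit 0)), ((nat_lit 1000), (nat_lit 905), (nat_lit 238)), ((nat_lit 1000), (nat_lit 871), (nat_lit 407))], ((nat_lit 87), (nat_lit 100), (nat_lit 44))⟩, (nat_lit 2797781), (nat_lit 535), (nat_lit 535), (nat_lit 0), (nat_lit 1076515), [(nat_lit 1992174000), (nat_lit 2845616000), (nat_lit 3793750000)], [], [(nat_lit 19098435891), (nat_lit 19819502034), (nat_lit 21423708309), (nat_lit 22054742949), (nat_lit 19212573435), (nat_lit 19660329394), (nat_lit 20665117225), (nat_lit 21038926756)], (nat_lit 1271251), (nat_lit 1271251), (nat_lit 1271251), (nat_lit 1271251), (nat_lit 111251), (nat_lit 2286250), [(nat_lit 780000), (nat_lit 1100000), (nat_lit 1442501)], [(nat_lit 9), (nat_lit 50), (nat_lit 317), (nat_lit 100), (nat_lit 11)]⟩,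
 Rw.none⟩))) (.trZ (nat_lit 3) (nat_lit 4) (nat_lit 5) (nat_lit 100) (nat_lit 60) (nat_lit 80) (nat_lit 80) (.spl (nat_lit 1) (nat_lit 300) (.trX (nat_lit 3) (nat_lit 0) (nat_lit 1) (nat_lit 69) (nat_lit 45) (nat_lit 100) (nat_lit 390) (.spl (nat_lit 2) (nat_lit 160) (.spl (nat_lit 1) (nat_lit 290) (.trX (nat_lit 3) (nat_lit 0) (nat_lit 1) (nat_lit 67) (nat_lit 50) (nat_lit 100) (nat_lit 380) (.spl (nat_lit 2) (nat_lit 140) (.leaf ⟨(nat_lit 919), (nat_lit 81), (nat_lit 0), (nat_lit 0), (nat_lit 0), (nat_lit 3035), (nat_lit 598), (nat_lit 0), (nat_lit 0), (nat_lit 0), (nat_lit 229750), [((nat_lit 380), [((nat_lit 24), (nat_lit 0), (nat_lit 919))])], ⟨(nat_lit 9), false, true, true, (nat_lit 338), (nat_lit 2236), (nat_lit 3163), [(nat_lit 1832432), (nat_lit 1819158), (nat_lit 1843509), (nat_lit 1830545), (nat_lit 1862908), (nat_lit 1847666), (nat_lit 1873986), (nat_lit 1859053)]⟩, ⟨(nat_lit 5), false, false, true, (nat_lit 180), (nat_lit 2236), (nat_lit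 3163), [(nat_lit 1411379), (nat_lit 1408901), (nat_lit 1433534), (nat_lit 1431676), (nat_lit 1472332), (nat_lit 1465917), (nat_lit 1494487), (nat_lit 1488691)]⟩, (nat_lit 5278130), (nat_lit 33545653), (nat_lit 24609897), (nat_lit 8844450), (nat_lit 5), (nat_lit 0), [⟨(nat_lit 1), (nat_lit 60), (nat_lit 58), (nat_lit 100), (nat_lit 267140364)⟩], [], [], [⟨(nat_lit 1), (nat_lit 80), (nat_lit 53), (nat_lit 100), (nat_lit 28978735)⟩],
 ⟨⟨[(nat_lit 40), (nat_lit 60)], [(nat_lit 0), (nat_lit 832)], [((nat_lit 0), (nat_lit 0), (nat_lit 0)), ((nat_lit 1000), (nat_lit 659), (nat_lit 528))], ((nat_lit 68), (nat_lit 100), (nat_lit 49))⟩, (nat_lit 0), (nat_lit 71), (nat_lit 71), (nat_lit 0), (nat_lit 0), [(nat_lit 1548399602), (nat_lit 1522298800)], [(nat_lit 0), (nat_lit 0)], [(nat_lit 28339681184), (nat_lit 29234459354), (nat_lit 29234459354), (nat_lit 30097669404), (nat_lit 29043015524), (nat_lit 29885159609), (nat_lit 29885159609), (nat_lit 30687692699)],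 (nat_lit 0), (nat_lit 0), (nat_lit 0), (nat_lit 0), (nat_lit 0), (nat_lit 0), [], [(nat_lit 1), (nat_lit 38), (nat_lit 203), (nat_lit 0), (nat_lit 7)]⟩,
 ⟨⟨[(nat_lit 60), (nat_lit 100), (nat_lit 120)], [(nat_lit 0), (nat_lit 0), (nat_lit 1164)], [((nat_lit 0), (nat_lit 0), (nat_lit 0)), ((nat_lit 0), (nat_lit 0), (nat_lit 0)), ((nat_lit 1000), (nat_lit 933), (nat_lit 572))], ((nat_lit 92), (nat_lit 100), (nat_lit 44))⟩, (nat_lit 106138), (nat_lit 559), (nat_lit 559), (nat_lit 0), (nat_lit 1114500), [(nat_lit 265842000), (nat_lit 506250000), (nat_lit 645408000)], [], [(nat_lit 2901693293), (nat_lit 2914078479), (nat_lit 2951162289), (nat_lit 2962350446), (nat_lit 2875710025), (nat_lit 2879598350), (nat_lit 2903002918), (nat_lit 2906101054)], (nat_lit 1271251), (nat_lit 1271251), (nat_lit 1271251), (nat_lit 1271251), (nat_lit 490000), (nat_lit 2599376), [(nat_lit 780000), (nat_lit 1435001), (nat_lit 1271251)], [(nat_lit 10), (nat_lit 54), (nat_lit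 317), (nat_lit 100), (nat_lit 9)]⟩,
 Rw.none⟩) (.leaf ⟨(nat_lit 54), (nat_lit 759), (nat_lit 0), (nat_lit 187), (nat_lit 0), (nat_lit 3455), (nat_lit 6976), (nat_lit 1977), (nat_lit 0), (nat_lit 0), (nat_lit 216000), [((nat_lit 380), [((nat_lit 41), (nat_lit 5), (nat_lit 54))])], ⟨(nat_lit 9), false, true, true, (nat_lit 338), (nat_lit 2236), (nat_lit 3163), [(nat_lit 1832432), (nat_lit 1819158), (nat_lit 1843509), (nat_lit 1830545), (nat_lit 1862908), (nat_lit 1847666), (nat_lit 1873986), (nat_lit 1859053)]⟩, ⟨(nat_lit 5), false, false, true, (nat_lit 189), (nat_lit 2236), (nat_lit 3163), [(nat_lit 1433534), (nat_lit 1431676), (nat_lit 1455689), (nat_lit 1454450), (nat_lit 1494487), (nat_lit 1488691), (nat_lit 1516642), (nat_lit 1511466)]⟩, (nat_lit 5342930), (nat_lit 33172109), (nat_lit 24368950), (nat_lit 9458941), (nat_lit 5), (nat_lit 0), [⟨(nat_lit 1), (nat_lit 60), (nat_lit 58), (nat_lit 100), (nat_lit 1325516249)⟩], [⟨(nat_lit 1), (nat_lit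 99), (nat_lit 54), (nat_lit 100), (nat_lit 234023560)⟩], [⟨(nat_lit 1), (nat_lit 66), (nat_lit 93), (nat_lit 100), (nat_lit 57031208)⟩], [],
 ⟨⟨[(nat_lit 40), (nat_lit 60)], [(nat_lit 0), (nat_lit 832)], [((nat_lit 0), (nat_lit 0), (nat_lit 0)), ((nat_lit 1000), (nat_lit 659), (nat_lit 528))], ((nat_lit 68), (nat_lit 100), (nat_lit 49))⟩, (nat_lit 3351092), (nat_lit 71), (nat_lit 71), (nat_lit 0), (nat_lit 0), [(nat_lit 1864508802), (nat_lit 2657846400)], [(nat_lit 0), (nat_lit 0)], [(nat_lit 28743305344), (nat_lit 29695122315), (nat_lit 29695122315), (nat_lit 30672606249), (nat_lit 29422373764), (nat_lit 30304916298), (nat_lit 30304916298), (nat_lit 31221842287)], (nat_lit 0), (nat_lit 0), (nat_lit 0), (nat_lit 0), (nat_lit 0), (nat_lit 0), [], [(nat_lit 1), (nat_lit 38), (nat_lit 203), (nat_lit 0), (nat_lit 7)]⟩,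
 ⟨⟨[(nat_lit 60), (nat_lit 100), (nat_lit 120)], [(nat_lit 0), (nat_lit 0), (nat_lit 1164)], [((nat_lit 0), (nat_lit 0), (nat_lit 0)), ((nat_lit 0), (nat_lit 0), (nat_lit 0)), ((nat_lit 1000), (nat_lit 933), (nat_lit 572))], ((nat_lit 92), (nat_lit 100), (nat_lit 44))⟩, (nat_lit 4530969), (nat_lit 523), (nat_lit 523), (nat_lit 0), (nat_lit 1020316), [(nat_lit 3104772000), (nat_lit 5912500000), (nat_lit 7537728000)], [], [(nat_lit 31728214160), (nat_lit 31955026638), (nat_lit 32538645996), (nat_lit 32746355943), (nat_lit 32605713156), (nat_lit 32701252801), (nat_lit 33604388194), (nat_lit 33901712101)], (nat_lit 1271251), (nat_lit 1271251), (nat_lit 1271251), (nat_lit 1271251), (nat_lit 490000), (nat_lit 2599376), [(nat_lit 780000), (nat_lit 1435001), (nat_lit 1271251)], [(nat_lit 10), (nat_lit 54), (nat_lit 317), (nat_lit 100), (nat_lit 9)]⟩,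
 ⟨⟨[(nat_lit 140), (nat_lit 160), (nat_lit 180)], [(nat_lit 0), (nat_lit 304), (nat_lit 1085)], [((nat_lit 0), (nat_lit 0), (nat_lit 0)), ((nat_lit 913), (nat_lit 1000), (nat_lit 217)), ((nat_lit 759), (nat_lit 1000), (nat_lit 463))], ((nat_lit 100), (nat_lit 76), (nat_lit 46))⟩, (nat_lit 1201164), (nat_lit 300), (nat_lit 1987), (nat_lit 13146100), (nat_lit 3534045), [(nat_lit 1840454000), (nat_lit 2220064000), (nat_lit 2628846000)], [], [(nat_lit 10468755742), (nat_lit 10335384182), (nat_lit 10247909298), (nat_lit 10103119708), (nat_lit 9079467201), (nat_lit 8931682808), (nat_lit 8856633599), (nat_lit 8710187668)], (nat_lit 936250), (nat_lit 1100000), (nat_lit 1271251), (nat_lit 1271251), (nat_lit 490000), (nat_lit 2599376), [(nat_lit 1977501), (nat_lit 1271251), (nat_lit 1271251)], [(nat_lit 31), (nat_lit 65), (nat_lit 591), (nat_lit 200), (nat_lit 13)]⟩⟩))) (.leaf ⟨(nat_lit 698), (nat_lit 302), (nat_lit 0), (nat_lit 0), (nat_lit 0), (nat_lit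 2994), (nat_lit 1774), (nat_lit 0), (nat_lit 0), (nat_lit 0), (nat_lit 344200), [((nat_lit 380), [((nat_lit 24), (nat_lit 1), (nat_lit 373)), ((nat_lit 41), (nat_lit 2), (nat_lit 325))])], ⟨(nat_lit 9), false, true, true, (nat_lit 346), (nat_lit 2236), (nat_lit 3163), [(nat_lit 1843509), (nat_lit 1830545), (nat_lit 1854586), (nat_lit 1841932), (nat_lit 1889224), (nat_lit 1873307), (nat_lit 1900301), (nat_lit 1884694)]⟩, ⟨(nat_lit 5), false, false, true, (nat_lit 185), (nat_lit 2236), (nat_lit 3163), [(nat_lit 1411379), (nat_lit 1408901), (nat_lit 1455689), (nat_lit 1454450), (nat_lit 1472332), (nat_lit 1465917), (nat_lit 1516642), (nat_lit 1511466)]⟩, (nat_lit 5312730), (nat_lit 32854863), (nat_lit 25103381), (nat_lit 9041756), (nat_lit 5), (nat_lit 0), [⟨(nat_lit 1), (nat_lit 57), (nat_lit 60), (nat_lit 100), (nat_lit 123118070)⟩], [], [], [⟨(nat_lit 1), (nat_lit 83), (nat_lit 49), (nat_lit 100), (nat_lit 143439801)⟩],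
 ⟨⟨[(nat_lit 40), (nat_lit 60)], [(nat_lit 0), (nat_lit 832)], [((nat_lit 0), (nat_lit 0), (nat_lit 0)), ((nat_lit 1000), (nat_lit 659), (nat_lit 528))], ((nat_lit 68), (nat_lit 100), (nat_lit 49))⟩, (nat_lit 725), (nat_lit 74), (nat_lit 74), (nat_lit 0), (nat_lit 0), [(nat_lit 1476927201), (nat_lit 1506892400)], [(nat_lit 0), (nat_lit 0)], [(nat_lit 28273296733), (nat_lit 29129366999), (nat_lit 29603171448), (nat_lit 30505138054), (nat_lit 28956646769), (nat_lit 29763074643), (nat_lit 30221951061), (nat_lit 31071016621)], (nat_lit 0), (nat_lit 0), (nat_lit 0), (nat_lit 0), (nat_lit 0), (nat_lit 0), [], [(nat_lit 1), (nat_lit 38), (nat_lit 203), (nat_lit 0), (nat_lit 7)]⟩,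
 ⟨⟨[(nat_lit 60), (nat_lit 80), (nat_lit 100)], [(nat_lit 0), (nat_lit 151), (nat_lit 679)], [((nat_lit 0), (nat_lit 0), (nat_lit 0)), ((nat_lit 1000), (nat_lit 953), (nat_lit 118)), ((nat_lit 1000), (nat_lit 894), (nat_lit 411))], ((nat_lit 89), (nat_lit 100), (nat_lit 44))⟩, (nat_lit 1336947), (nat_lit 502), (nat_lit 502), (nat_lit 0), (nat_lit 1092275), [(nat_lit 991164000), (nat_lit 1415776000), (nat_lit 1887500000)], [], [(nat_lit 9489080448), (nat_lit 9555086124), (nat_lit 9802416567), (nat_lit 9861800208), (nat_lit 10013466175), (nat_lit 10050501637), (nat_lit 10462116651), (nat_lit 10548789007)], (nat_lit 1271251), (nat_lit 1271251), (nat_lit 1271251), (nat_lit 1271251), (nat_lit 490000), (nat_lit 2599376), [(nat_lit 780000), (nat_lit 1100000), (nat_lit 1442501)], [(nat_lit 9), (nat_lit 50), (nat_lit 317), (nat_lit 100), (nat_lit 11)]⟩,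
 Rw.none⟩)) (.leaf ⟨(nat_lit 35), (nat_lit 714), (nat_lit 0), (nat_lit 251), (nat_lit 0), (nat_lit 3485), (nat_lit 7069), (nat_lit 2494), (nat_lit 0), (nat_lit 0), (nat_lit 140000), [((nat_lit 380), [((nat_lit 41), (nat_lit 5), (nat_lit 35))])], ⟨(nat_lit 9), false, true, true, (nat_lit 344), (nat_lit 2236), (nat_lit 3163), [(nat_lit 1832432), (nat_lit 1819158), (nat_lit 1854586), (nat_lit 1841932), (nat_lit 1878147), (nat_lit 1861919), (nat_lit 1900301), (nat_lit 1884694)]⟩, ⟨(nat_lit 5), false, false, true, (nat_lit 198), (nat_lit 2236), (nat_lit 3163), [(nat_lit 1455689), (nat_lit 1454450), (nat_lit 1477844), (nat_lit 1477224), (nat_lit 1516642), (nat_lit 1511466), (nat_lit 1538797), (nat_lit 1534240)]⟩, (nat_lit 5405354), (nat_lit 32455598), (nat_lit 24547599), (nat_lit 9996803), (nat_lit 5), (nat_lit 0), [⟨(nat_lit 1), (nat_lit 58), (nat_lit 59), (nat_lit 100), (nat_lit 301009255)⟩], [], [], [⟨(nat_lit 1), (nat_lit 83), (nat_lit 49), (nat_lit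 100), (nat_lit 16091739)⟩],
 ⟨⟨[(nat_lit 40), (nat_lit 60)], [(nat_lit 0), (nat_lit 832)], [((nat_lit 0), (nat_lit 0), (nat_lit 0)), ((nat_lit 1000), (nat_lit 659), (nat_lit 528))], ((nat_lit 68), (nat_lit 100), (nat_lit 49))⟩, (nat_lit 3784658), (nat_lit 74), (nat_lit 74), (nat_lit 0), (nat_lit 0), [(nat_lit 1896298001), (nat_lit 2877456000)], [(nat_lit 0), (nat_lit 0)], [(nat_lit 28790555582), (nat_lit 29732916105), (nat_lit 30251397995), (nat_lit 31204051697), (nat_lit 29467890722), (nat_lit 30352438757), (nat_lit 30825855652), (nat_lit 31719955302)], (nat_lit 0), (nat_lit 0), (nat_lit 0), (nat_lit 0), (nat_lit 0), (nat_lit 0), [], [(nat_lit 1), (nat_lit 38), (nat_lit 203), (nat_lit 0), (nat_lit 7)]⟩,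
 ⟨⟨[(nat_lit 60), (nat_lit 100), (nat_lit 120)], [(nat_lit 0), (nat_lit 0), (nat_lit 1164)], [((nat_lit 0), (nat_lit 0), (nat_lit 0)), ((nat_lit 0), (nat_lit 0), (nat_lit 0)), ((nat_lit 1000), (nat_lit 933), (nat_lit 572))], ((nat_lit 92), (nat_lit 100), (nat_lit 44))⟩, (nat_lit 4462059), (nat_lit 498), (nat_lit 498), (nat_lit 0), (nat_lit 952650), [(nat_lit 3167130000), (nat_lit 6031250000), (nat_lit 7689120000)], [], [(nat_lit 32525865648), (nat_lit 32988199240), (nat_lit 33762143076), (nat_lit 34166338896), (nat_lit 33445587968), (nat_lit 33642402750), (nat_lit 34850725053), (nat_lit 35424212231)], (nat_lit 1271251), (nat_lit 1271251), (nat_lit 1271251), (nat_lit 1271251), (nat_lit 490000), (nat_lit 2599376), [(nat_lit 780000), (nat_lit 1435001), (nat_lit 1271251)], [(nat_lit 10), (nat_lit 54), (nat_lit 317), (nat_lit 100), (nat_lit 9)]⟩,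
 ⟨⟨[(nat_lit 120), (nat_lit 160), (nat_lit 180)], [(nat_lit 0), (nat_lit 0), (nat_lit 1613)], [((nat_lit 0), (nat_lit 0), (nat_lit 0)), ((nat_lit 0), (nat_lit 0), (nat_lit 0)), ((nat_lit 620), (nat_lit 1000), (nat_lit 670))], ((nat_lit 100), (nat_lit 81), (nat_lit 44))⟩, (nat_lit 872072), (nat_lit 300), (nat_lit 1569), (nat_lit 18624200), (nat_lit 2718950), [(nat_lit 1999968000), (nat_lit 2979872000), (nat_lit 3528558000)], [], [(nat_lit 16948179075), (nat_lit 16801214087), (nat_lit 16654850806), (nat_lit 16507584963), (nat_lit 15773457373), (nat_lit 16542122313), (nat_lit 14726594727), (nat_lit 14577540174)], (nat_lit 1100000), (nat_lit 1271251), (nat_lit 1271251), (nat_lit 1271251), (nat_lit 490000), (nat_lit 2599376), [(nat_lit 1695001), (nat_lit 1271251), (nat_lit 1271251)], [(nat_lit 28), (nat_lit 65), (nat_lit 489), (nat_lit 200), (nat_lit 11)]⟩⟩))) (.leaf ⟨(nat_lit 594), (nat_lit 406), (nat_lit 0), (nat_lit 0), (nat_lit 0), (nat_lit 3061),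 (nat_lit 2262), (nat_lit 0), (nat_lit 0), (nat_lit 0), (nat_lit 304600), [((nat_lit 380), [((nat_lit 24), (nat_lit 0), (nat_lit 148)), ((nat_lit 41), (nat_lit 2), (nat_lit 446))])], ⟨(nat_lit 9), false, true, true, (nat_lit 356), (nat_lit 2236), (nat_lit 3163), [(nat_lit 1854586), (nat_lit 1841932), (nat_lit 1876741), (nat_lit 1864706), (nat_lit 1915540), (nat_lit 1898948), (nat_lit 1937695), (nat_lit 1921722)]⟩, ⟨(nat_lit 5), false, false, true, (nat_lit 189), (nat_lit 2236), (nat_lit 3163), [(nat_lit 1411379), (nat_lit 1408901), (nat_lit 1477844), (nat_lit 1477224), (nat_lit 1472332), (nat_lit 1465917), (nat_lit 1538797), (nat_lit 1534240)]⟩, (nat_lit 5343680), (nat_lit 32033933), (nat_lit 25766129), (nat_lit 9199938), (nat_lit 5), (nat_lit 0), [], [], [], [⟨(nat_lit 1), (nat_lit 86), (nat_lit 44), (nat_lit 100), (nat_lit 208364135)⟩],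
 ⟨⟨[(nat_lit 40), (nat_lit 60)], [(nat_lit 0), (nat_lit 832)], [((nat_lit 0), (nat_lit 0), (nat_lit 0)), ((nat_lit 1000), (nat_lit 659), (nat_lit 528))], ((nat_lit 68), (nat_lit 100), (nat_lit 49))⟩, (nat_lit 194679), (nat_lit 76), (nat_lit 76), (nat_lit 0), (nat_lit 0), [(nat_lit 1533395218), (nat_lit 1740532800)], [(nat_lit 0), (nat_lit 0)], [(nat_lit 28350380298), (nat_lit 29213061052), (nat_lit 30184488101), (nat_lit 31067757592), (nat_lit 29029693182), (nat_lit 29842001713), (nat_lit 30767164362), (nat_lit 31598907505)], (nat_lit 0), (nat_lit 0), (nat_lit 0), (nat_lit 0), (nat_lit 0), (nat_lit 0), [], [(nat_lit 1), (nat_lit 38), (nat_lit 203), (nat_lit 0), (nat_lit 7)]⟩,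
 ⟨⟨[(nat_lit 60), (nat_lit 80), (nat_lit 100)], [(nat_lit 0), (nat_lit 304), (nat_lit 825)], [((nat_lit 0), (nat_lit 0), (nat_lit 0)), ((nat_lit 1000), (nat_lit 905), (nat_lit 238)), ((nat_lit 1000), (nat_lit 871), (nat_lit 407))], ((nat_lit 87), (nat_lit 100), (nat_lit 44))⟩, (nat_lit 1606659), (nat_lit 495), (nat_lit 495), (nat_lit 0), (nat_lit 1076515), [(nat_lit 1332492000), (nat_lit 1903328000), (nat_lit 2537500000)], [], [(nat_lit 12542608534), (nat_lit 12731109752), (nat_lit 13112516012), (nat_lit 13276923160), (nat_lit 13378396653), (nat_lit 13641440428), (nat_lit 14248533352), (nat_lit 14468995056)], (nat_lit 1271251), (nat_lit 1271251), (nat_lit 1271251), (nat_lit 1271251), (nat_lit 490000), (nat_lit 2599376), [(nat_lit 780000), (nat_lit 1100000), (nat_lit 1442501)], [(nat_lit 9), (nat_lit 50), (nat_lit 317), (nat_lit 100), (nat_lit 10)]⟩,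
 Rw.none⟩))))
noncomputable def c17_24 : Tr Lf :=
 (.leaf ⟨(nat_lit 36), (nat_lit 700), (nat_lit 0), (nat_lit 264), (nat_lit 0), (nat_lit 3895), (nat_lit 8188), (nat_lit 2429), (nat_lit 0), (nat_lit 0), (nat_lit 144000), [((nat_lit 380), [((nat_lit 41), (nat_lit 5), (nat_lit 36))])], ⟨(nat_lit 8), false, true, true, (nat_lit 330), (nat_lit 2236), (nat_lit 3163), [(nat_lit 1727168), (nat_lit 1716594), (nat_lit 1815720), (nat_lit 1807623), (nat_lit 1849075), (nat_lit 1830625), (nat_lit 1937695), (nat_lit 1921722)]⟩, ⟨(nat_lit 3), false, false, true, (nat_lit 166), (nat_lit 2236), (nat_lit 3163), [(nat_lit 1289472), (nat_lit 1294870), (nat_lit 1355794), (nat_lit 1363050), (nat_lit 1472332), (nat_lit 1465917), (nat_lit 1538797), (nat_lit 1534240)]⟩, (nat_lit 5159754), (nat_lit 34734113), (nat_lit 24301542), (nat_lit 7964345), (nat_lit 3), (nat_lit 0), [⟨(nat_lit 1), (nat_lit 62), (nat_lit 57), (nat_lit 100), (nat_lit 244036427)⟩], [], [], [],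
 ⟨⟨[(nat_lit 40), (nat_lit 60)], [(nat_lit 0), (nat_lit 832)], [((nat_lit 0), (nat_lit 0), (nat_lit 0)), ((nat_lit 1000), (nat_lit 659), (nat_lit 528))], ((nat_lit 68), (nat_lit 100), (nat_lit 49))⟩, (nat_lit 1060436), (nat_lit 177), (nat_lit 177), (nat_lit 0), (nat_lit 340776), [(nat_lit 1894139206), (nat_lit 2865897600)], [(nat_lit 0), (nat_lit 0)], [(nat_lit 26485193736), (nat_lit 27571481318), (nat_lit 31070966045), (nat_lit 32142920948), (nat_lit 28075737486), (nat_lit 28945927914), (nat_lit 31837888590), (nat_lit 32741658475)], (nat_lit 1271251), (nat_lit 1271251), (nat_lit 1271251), (nat_lit 1271251), (nat_lit 780000), (nat_lit 1762501), [(nat_lit 490000), (nat_lit 780000)], [(nat_lit 1), (nat_lit 38), (nat_lit 203), (nat_lit 0), (nat_lit 8)]⟩,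
 ⟨⟨[(nat_lit 80), (nat_lit 120), (nat_lit 140)], [(nat_lit 0), (nat_lit 0), (nat_lit 1164)], [((nat_lit 0), (nat_lit 0), (nat_lit 0)), ((nat_lit 0), (nat_lit 0), (nat_lit 0)), ((nat_lit 941), (nat_lit 1000), (nat_lit 576))], ((nat_lit 100), (nat_lit 99), (nat_lit 44))⟩, (nat_lit 2427831), (nat_lit 423), (nat_lit 423), (nat_lit 0), (nat_lit 460430), [(nat_lit 4519232000), (nat_lit 7681152000), (nat_lit 9487688000)], [], [(nat_lit 35577259372), (nat_lit 37924252320), (nat_lit 39779289504), (nat_lit 43415882688), (nat_lit 33901988644), (nat_lit 35781432066), (nat_lit 38264429154), (nat_lit 39983161908)], (nat_lit 1271251), (nat_lit 1271251), (nat_lit 1271251), (nat_lit 1271251), (nat_lit 0), (nat_lit 2754376), [(nat_lit 1100000), (nat_lit 1785001), (nat_lit 1271251)], [(nat_lit 17), (nat_lit 58), (nat_lit 428), (nat_lit 200), (nat_lit 12)]⟩,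
 ⟨⟨[(nat_lit 140), (nat_lit 160), (nat_lit 180)], [(nat_lit 0), (nat_lit 0), (nat_lit 799)], [((nat_lit 0), (nat_lit 0), (nat_lit 0)), ((nat_lit 0), (nat_lit 0), (nat_lit 0)), ((nat_lit 728), (nat_lit 1000), (nat_lit 454))], ((nat_lit 100), (nat_lit 71), (nat_lit 48))⟩, (nat_lit 231950), (nat_lit 300), (nat_lit 1038), (nat_lit 19588800), (nat_lit 1312690), [(nat_lit 2598288000), (nat_lit 3134208000), (nat_lit 3711312000)], [], [(nat_lit 19813181081), (nat_lit 19346463871), (nat_lit 18937418689), (nat_lit 18464802691), (nat_lit 17008785684), (nat_lit 18333088208), (nat_lit 20404845601), (nat_lit 22568836369)], (nat_lit 780000), (nat_lit 1271251), (nat_lit 780000), (nat_lit 1762501), (nat_lit 0), (nat_lit 2754376), [(nat_lit 1977501), (nat_lit 1271251), (nat_lit 1271251)], [(nat_lit 31), (nat_lit 65), (nat_lit 456), (nat_lit 225), (nat_lit 11)]⟩⟩)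
noncomputable def c17_25 : Tr Lf :=
 (.spl (nat_lit 1) (nat_lit 280) (.trX (nat_lit 3) (nat_lit 0) (nat_lit 1) (nat_lit 65) (nat_lit 54) (nat_lit 100) (nat_lit 380) (.spl (nat_lit 4) (nat_lit 200) (.trX (nat_lit 5) (nat_lit 3) (nat_lit 4) (nat_lit 80) (nat_lit 60) (nat_lit 100) (nat_lit 360) (.spl (nat_lit 1) (nat_lit 260) (.trX (nat_lit 3) (nat_lit 0) (nat_lit 1) (nat_lit 63) (nat_lit 61) (nat_lit 100) (nat_lit 370) (.leaf ⟨(nat_lit 880), (nat_lit 61), (nat_lit 0), (nat_lit 59), (nat_lit 0), (nat_lit 2980), (nat_lit 1132), (nat_lit 693), (nat_lit 0), (nat_lit 0), (nat_lit 501400), [((nat_lit 380), [((nat_lit 24), (nat_lit 0), (nat_lit 76)), ((nat_lit 41), (nat_lit 2), (nat_lit 804))])], ⟨(nat_lit 8), false, true, true, (nat_lit 308), (nat_lit 2236), (nat_lit 3163), [(nat_lit 1727168), (nat_lit 1716594), (nat_lit 1749323), (nat_lit 1739368), (nat_lit 1803360), (nat_lit 1787863), (nat_lit 1825515), (nat_lit 1810637)]⟩, ⟨(nat_lit 4), false, false,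 false, (nat_lit 176), (nat_lit 2236), (nat_lit 3163), [(nat_lit 1355794), (nat_lit 1363050), (nat_lit 1399976), (nat_lit 1408471), (nat_lit 1477844), (nat_lit 1477224), (nat_lit 1522091), (nat_lit 1522710)]⟩, (nat_lit 5216406), (nat_lit 35885092), (nat_lit 22124401), (nat_lit 8990507), (nat_lit 4), (nat_lit 0), [⟨(nat_lit 1), (nat_lit 71), (nat_lit 54), (nat_lit 100), (nat_lit 335361753)⟩], [], [], [⟨(nat_lit 0), (nat_lit 100), (nat_lit 70), (nat_lit 58), (nat_lit 900821)⟩],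
 ⟨⟨[(nat_lit 40), (nat_lit 60)], [(nat_lit 0), (nat_lit 832)], [((nat_lit 0), (nat_lit 0), (nat_lit 0)), ((nat_lit 1000), (nat_lit 659), (nat_lit 528))], ((nat_lit 68), (nat_lit 100), (nat_lit 49))⟩, (nat_lit 0), (nat_lit 136), (nat_lit 136), (nat_lit 0), (nat_lit 217334), [(nat_lit 1372563207), (nat_lit 868552000)], [(nat_lit 0), (nat_lit 0)], [(nat_lit 25517964241), (nat_lit 26541848211), (nat_lit 27863938355), (nat_lit 28916888445), (nat_lit 26623839741), (nat_lit 27546367141), (nat_lit 28735331641), (nat_lit 29560445741)], (nat_lit 1271251), (nat_lit 1271251), (nat_lit 1271251), (nat_lit 1271251), (nat_lit 780000), (nat_lit 1435001), [(nat_lit 490000), (nat_lit 780000)], [(nat_lit 1), (nat_lit 38), (nat_lit 203), (nat_lit 0), (nat_lit 8)]⟩,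
 ⟨⟨[(nat_lit 80), (nat_lit 120), (nat_lit 140)], [(nat_lit 0), (nat_lit 0), (nat_lit 1164)], [((nat_lit 0), (nat_lit 0), (nat_lit 0)), ((nat_lit 0), (nat_lit 0), (nat_lit 0)), ((nat_lit 941), (nat_lit 1000), (nat_lit 576))], ((nat_lit 100), (nat_lit 99), (nat_lit 44))⟩, (nat_lit 268119), (nat_lit 647), (nat_lit 647), (nat_lit 0), (nat_lit 1025599), [(nat_lit 562560000), (nat_lit 956160000), (nat_lit 1181040000)], [], [(nat_lit 4518840064), (nat_lit 4543147304), (nat_lit 4683636844), (nat_lit 4698919492), (nat_lit 3899801744), (nat_lit 4004031340), (nat_lit 4383543169), (nat_lit 4463696373)], (nat_lit 1271251), (nat_lit 1271251), (nat_lit 1271251), (nat_lit 1271251), (nat_lit 0), (nat_lit 2542501), [(nat_lit 1100000), (nat_lit 1785001), (nat_lit 1271251)], [(nat_lit 17), (nat_lit 58), (nat_lit 401), (nat_lit 175), (nat_lit 11)]⟩,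
 ⟨⟨[(nat_lit 120), (nat_lit 140), (nat_lit 160)], [(nat_lit 0), (nat_lit 266), (nat_lit 862)], [((nat_lit 0), (nat_lit 0), (nat_lit 0)), ((nat_lit 960), (nat_lit 1000), (nat_lit 200)), ((nat_lit 874), (nat_lit 1000), (nat_lit 406))], ((nat_lit 100), (nat_lit 86), (nat_lit 44))⟩, (nat_lit 121287), (nat_lit 300), (nat_lit 1159), (nat_lit 3917600), (nat_lit 1789428), [(nat_lit 470112000), (nat_lit 580678000), (nat_lit 700448000)], [], [(nat_lit 2764224818), (nat_lit 2728673702), (nat_lit 2626587628), (nat_lit 2585532868), (nat_lit 3531363910), (nat_lit 2899414784), (nat_lit 4245766871), (nat_lit 3629934153)], (nat_lit 1271251), (nat_lit 1271251), (nat_lit 780000), (nat_lit 1435001), (nat_lit 0), (nat_lit 2542501), [(nat_lit 1695001), (nat_lit 1271251), (nat_lit 1271251)], [(nat_lit 27), (nat_lit 62), (nat_lit 428), (nat_lit 200), (nat_lit 11)]⟩⟩)) (.leaf ⟨(nat_lit 35), (nat_lit 643), (nat_lit 0), (nat_lit 322), (nat_lit 0), (nat_lit 3863), (nat_lit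 6371), (nat_lit 3162), (nat_lit 0), (nat_lit 0), (nat_lit 140000), [((nat_lit 380), [((nat_lit 41), (nat_lit 5), (nat_lit 35))])], ⟨(nat_lit 8), false, true, true, (nat_lit 320), (nat_lit 2236), (nat_lit 3163), [(nat_lit 1749323), (nat_lit 1739368), (nat_lit 1771478), (nat_lit 1762142), (nat_lit 1840753), (nat_lit 1824891), (nat_lit 1862908), (nat_lit 1847666)]⟩, ⟨(nat_lit 4), false, false, false, (nat_lit 176), (nat_lit 2236), (nat_lit 3163), [(nat_lit 1355794), (nat_lit 1363050), (nat_lit 1399976), (nat_lit 1408471), (nat_lit 1477844), (nat_lit 1477224), (nat_lit 1522091), (nat_lit 1522710)]⟩, (nat_lit 5233662), (nat_lit 35021964), (nat_lit 23149711), (nat_lit 8828325), (nat_lit 4), (nat_lit 0), [⟨(nat_lit 1), (nat_lit 65), (nat_lit 56), (nat_lit 100), (nat_lit 55227368)⟩], [], [], [],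
 ⟨⟨[(nat_lit 40), (nat_lit 60)], [(nat_lit 0), (nat_lit 832)], [((nat_lit 0), (nat_lit 0), (nat_lit 0)), ((nat_lit 1000), (nat_lit 659), (nat_lit 528))], ((nat_lit 68), (nat_lit 100), (nat_lit 49))⟩, (nat_lit 1997570), (nat_lit 142), (nat_lit 142), (nat_lit 0), (nat_lit 234169), [(nat_lit 1896298001), (nat_lit 2877456000)], [(nat_lit 0), (nat_lit 0)], [(nat_lit 26442730596), (nat_lit 27529023510), (nat_lit 29806413821), (nat_lit 30945108976), (nat_lit 27378967151), (nat_lit 28344959150), (nat_lit 30209117859), (nat_lit 31231116327)], (nat_lit 1271251), (nat_lit 1271251), (nat_lit 1271251), (nat_lit 1271251), (nat_lit 780000), (nat_lit 1435001), [(nat_lit 490000), (nat_lit 780000)], [(nat_lit 1), (nat_lit 38), (nat_lit 203), (nat_lit 0), (nat_lit 8)]⟩,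
 ⟨⟨[(nat_lit 80), (nat_lit 100), (nat_lit 120)], [(nat_lit 0), (nat_lit 265), (nat_lit 768)], [((nat_lit 0), (nat_lit 0), (nat_lit 0)), ((nat_lit 1000), (nat_lit 959), (nat_lit 206)), ((nat_lit 1000), (nat_lit 958), (nat_lit 392))], ((nat_lit 96), (nat_lit 100), (nat_lit 44))⟩, (nat_lit 7888205), (nat_lit 554), (nat_lit 554), (nat_lit 0), (nat_lit 951618), [(nat_lit 4523920000), (nat_lit 6031250000), (nat_lit 7689120000)], [], [(nat_lit 31280016938), (nat_lit 31807002024), (nat_lit 33698381852), (nat_lit 34122814914), (nat_lit 31467130444), (nat_lit 31695537359), (nat_lit 33382411370), (nat_lit 33948989200)], (nat_lit 1271251), (nat_lit 1271251), (nat_lit 1271251), (nat_lit 1271251), (nat_lit 0), (nat_lit 2542501), [(nat_lit 1100000), (nat_lit 1442501), (nat_lit 1271251)], [(nat_lit 16), (nat_lit 54), (nat_lit 317), (nat_lit 100), (nat_lit 10)]⟩,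
 ⟨⟨[(nat_lit 120), (nat_lit 140), (nat_lit 160)], [(nat_lit 0), (nat_lit 266), (nat_lit 862)], [((nat_lit 0), (nat_lit 0), (nat_lit 0)), ((nat_lit 960), (nat_lit 1000), (nat_lit 200)), ((nat_lit 874), (nat_lit 1000), (nat_lit 406))], ((nat_lit 100), (nat_lit 86), (nat_lit 44))⟩, (nat_lit 945414), (nat_lit 300), (nat_lit 1219), (nat_lit 21380800), (nat_lit 1928580), [(nat_lit 2565696000), (nat_lit 3169124000), (nat_lit 3822784000)], [], [(nat_lit 18047653761), (nat_lit 17742201563), (nat_lit 17277528275), (nat_lit 16965201049), (nat_lit 18538859911), (nat_lit 15655421044), (nat_lit 21936843849), (nat_lit 19126940454)], (nat_lit 1271251), (nat_lit 1271251), (nat_lit 780000), (nat_lit 1435001), (nat_lit 0), (nat_lit 2542501), [(nat_lit 1695001), (nat_lit 1271251), (nat_lit 1271251)], [(nat_lit 27), (nat_lit 62), (nat_lit 428), (nat_lit 200), (nat_lit 11)]⟩⟩))) (.trZ (nat_lit 3) (nat_lit 4) (nat_lit 5) (nat_lit 100) (nat_lit 80) (nat_lit 60) (nat_lit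 40) (.leaf ⟨(nat_lit 751), (nat_lit 152), (nat_lit 0), (nat_lit 97), (nat_lit 0), (nat_lit 3188), (nat_lit 2014), (nat_lit 1002), (nat_lit 0), (nat_lit 0), (nat_lit 412450), [((nat_lit 380), [((nat_lit 24), (nat_lit 0), (nat_lit 109)), ((nat_lit 41), (nat_lit 2), (nat_lit 642))])], ⟨(nat_lit 8), false, true, true, (nat_lit 315), (nat_lit 2236), (nat_lit 3163), [(nat_lit 1727168), (nat_lit 1716594), (nat_lit 1771478), (nat_lit 1762142), (nat_lit 1818598), (nat_lit 1802117), (nat_lit 1862908), (nat_lit 1847666)]⟩, ⟨(nat_lit 5), false, true, true, (nat_lit 212), (nat_lit 2236), (nat_lit 3163), [(nat_lit 1477844), (nat_lit 1477224), (nat_lit 1522091), (nat_lit 1522710), (nat_lit 1538797), (nat_lit 1534240), (nat_lit 1583107), (nat_lit 1579788)]⟩, (nat_lit 5470183), (nat_lit 33702265), (nat_lit 21873982), (nat_lit 11423753), (nat_lit 5), (nat_lit 0), [⟨(nat_lit 1), (nat_lit 68), (nat_lit 55), (nat_lit 100), (nat_lit 306844479)⟩], [], [], [],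
 ⟨⟨[(nat_lit 40), (nat_lit 60)], [(nat_lit 0), (nat_lit 832)], [((nat_lit 0), (nat_lit 0), (nat_lit 0)), ((nat_lit 1000), (nat_lit 659), (nat_lit 528))], ((nat_lit 68), (nat_lit 100), (nat_lit 49))⟩, (nat_lit 161906), (nat_lit 127), (nat_lit 127), (nat_lit 0), (nat_lit 234238), [(nat_lit 1445091219), (nat_lit 1262333200)], [(nat_lit 0), (nat_lit 0)], [(nat_lit 26534684929), (nat_lit 27481284169), (nat_lit 29358757584), (nat_lit 30307110683), (nat_lit 27318549217), (nat_lit 28208895952), (nat_lit 29990909746), (nat_lit 30881916643)], (nat_lit 1271251), (nat_lit 1271251), (nat_lit 1271251), (nat_lit 1271251), (nat_lit 1271251), (nat_lit 1271251), [(nat_lit 490000), (nat_lit 780000)], [(nat_lit 1), (nat_lit 38), (nat_lit 203), (nat_lit 0), (nat_lit 8)]⟩,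
 ⟨⟨[(nat_lit 80), (nat_lit 120), (nat_lit 140)], [(nat_lit 0), (nat_lit 0), (nat_lit 1164)], [((nat_lit 0), (nat_lit 0), (nat_lit 0)), ((nat_lit 0), (nat_lit 0), (nat_lit 0)), ((nat_lit 941), (nat_lit 1000), (nat_lit 576))], ((nat_lit 100), (nat_lit 99), (nat_lit 44))⟩, (nat_lit 1290728), (nat_lit 622), (nat_lit 622), (nat_lit 0), (nat_lit 1033987), [(nat_lit 1167312000), (nat_lit 1984032000), (nat_lit 2450658000)], [], [(nat_lit 9653150118), (nat_lit 9838163833), (nat_lit 10198221786), (nat_lit 10332084620), (nat_lit 9395600431), (nat_lit 9425581045), (nat_lit 9637299599), (nat_lit 9667207572)], (nat_lit 1271251), (nat_lit 1271251), (nat_lit 1271251), (nat_lit 1271251), (nat_lit 230000), (nat_lit 2833126), [(nat_lit 1100000), (nat_lit 1785001), (nat_lit 1271251)], [(nat_lit 17), (nat_lit 58), (nat_lit 401), (nat_lit 175), (nat_lit 11)]⟩,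
 ⟨⟨[(nat_lit 120), (nat_lit 140), (nat_lit 160)], [(nat_lit 0), (nat_lit 266), (nat_lit 862)], [((nat_lit 0), (nat_lit 0), (nat_lit 0)), ((nat_lit 960), (nat_lit 1000), (nat_lit 200)), ((nat_lit 874), (nat_lit 1000), (nat_lit 406))], ((nat_lit 100), (nat_lit 86), (nat_lit 44))⟩, (nat_lit 325045), (nat_lit 300), (nat_lit 1156), (nat_lit 6440800), (nat_lit 1929767), [(nat_lit 772896000), (nat_lit 954674000), (nat_lit 1151584000)], [], [(nat_lit 4635044127), (nat_lit 4544041167), (nat_lit 4545156329), (nat_lit 4451923046), (nat_lit 6592497074), (nat_lit 5710575877), (nat_lit 5705020100), (nat_lit 4834210457)], (nat_lit 1271251), (nat_lit 1271251), (nat_lit 1271251), (nat_lit 1271251), (nat_lit 230000), (nat_lit 2833126), [(nat_lit 1695001), (nat_lit 1271251), (nat_lit 1271251)], [(nat_lit 27), (nat_lit 62), (nat_lit 456), (nat_lit 225), (nat_lit 12)]⟩⟩)))) (.spl (nat_lit 4) (nat_lit 200) (.trX (nat_lit 5) (nat_lit 3) (nat_lit 4) (nat_lit 80) (nat_lit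 60) (nat_lit 100) (nat_lit 360) (.leaf ⟨(nat_lit 54), (nat_lit 664), (nat_lit 0), (nat_lit 282), (nat_lit 0), (nat_lit 3855), (nat_lit 6798), (nat_lit 2804), (nat_lit 0), (nat_lit 0), (nat_lit 216000), [((nat_lit 380), [((nat_lit 41), (nat_lit 5), (nat_lit 54))])], ⟨(nat_lit 8), false, true, true, (nat_lit 339), (nat_lit 2236), (nat_lit 3163), [(nat_lit 1771478), (nat_lit 1762142), (nat_lit 1815720), (nat_lit 1807623), (nat_lit 1893385), (nat_lit 1876173), (nat_lit 1937695), (nat_lit 1921722)]⟩, ⟨(nat_lit 4), false, false, false, (nat_lit 176), (nat_lit 2236), (nat_lit 3163), [(nat_lit 1355794), (nat_lit 1363050), (nat_lit 1399976), (nat_lit 1408471), (nat_lit 1477844), (nat_lit 1477224), (nat_lit 1522091), (nat_lit 1522710)]⟩, (nat_lit 5248500), (nat_lit 33652094), (nat_lit 24785232), (nat_lit 8562674), (nat_lit 4), (nat_lit 0), [⟨(nat_lit 1), (nat_lit 55), (nat_lit 61), (nat_lit 100), (nat_lit 34694412)⟩], [], [], [],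
 ⟨⟨[(nat_lit 40), (nat_lit 60)], [(nat_lit 0), (nat_lit 832)], [((nat_lit 0), (nat_lit 0), (nat_lit 0)), ((nat_lit 1000), (nat_lit 659), (nat_lit 528))], ((nat_lit 68), (nat_lit 100), (nat_lit 49))⟩, (nat_lit 1870976), (nat_lit 157), (nat_lit 157), (nat_lit 0), (nat_lit 278667), [(nat_lit 1864508805), (nat_lit 2657846400)], [(nat_lit 0), (nat_lit 0)], [(nat_lit 26331231540), (nat_lit 27518409058), (nat_lit 31001727205), (nat_lit 32069024928), (nat_lit 27268928215), (nat_lit 28234071338), (nat_lit 31280717055), (nat_lit 32241290783)], (nat_lit 1271251), (nat_lit 1271251), (nat_lit 1271251), (nat_lit 1271251), (nat_lit 780000), (nat_lit 1435001), [(nat_lit 490000), (nat_lit 780000)], [(nat_lit 1), (nat_lit 38), (nat_lit 203), (nat_lit 0), (nat_lit 8)]⟩,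
 ⟨⟨[(nat_lit 60), (nat_lit 100), (nat_lit 120)], [(nat_lit 0), (nat_lit 0), (nat_lit 1164)], [((nat_lit 0), (nat_lit 0), (nat_lit 0)), ((nat_lit 0), (nat_lit 0), (nat_lit 0)), ((nat_lit 1000), (nat_lit 933), (nat_lit 572))], ((nat_lit 92), (nat_lit 100), (nat_lit 44))⟩, (nat_lit 5578343), (nat_lit 540), (nat_lit 540), (nat_lit 0), (nat_lit 912374), [(nat_lit 3104772000), (nat_lit 5912500000), (nat_lit 7537728000)], [], [(nat_lit 35897718252), (nat_lit 36734138320), (nat_lit 38562226648), (nat_lit 39146566624), (nat_lit 33960889072), (nat_lit 34258425740), (nat_lit 35317506598), (nat_lit 36128121128)], (nat_lit 1271251), (nat_lit 1271251), (nat_lit 1271251), (nat_lit 1271251), (nat_lit 0), (nat_lit 2542501), [(nat_lit 780000), (nat_lit 1435001), (nat_lit 1271251)], [(nat_lit 10), (nat_lit 54), (nat_lit 317), (nat_lit 100), (nat_lit 10)]⟩,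
 ⟨⟨[(nat_lit 120), (nat_lit 140), (nat_lit 160)], [(nat_lit 0), (nat_lit 266), (nat_lit 862)], [((nat_lit 0), (nat_lit 0), (nat_lit 0)), ((nat_lit 960), (nat_lit 1000), (nat_lit 200)), ((nat_lit 874), (nat_lit 1000), (nat_lit 406))], ((nat_lit 100), (nat_lit 86), (nat_lit 44))⟩, (nat_lit 1172368), (nat_lit 300), (nat_lit 1390), (nat_lit 18724800), (nat_lit 2298571), [(nat_lit 2246976000), (nat_lit 2775444000), (nat_lit 3347904000)], [], [(nat_lit 15628860619), (nat_lit 15336906657), (nat_lit 14926700032), (nat_lit 14630962176), (nat_lit 16277080189), (nat_lit 13720102775), (nat_lit 19281062617), (nat_lit 16789295027)], (nat_lit 1271251), (nat_lit 1271251), (nat_lit 780000), (nat_lit 1435001), (nat_lit 0), (nat_lit 2542501), [(nat_lit 1695001), (nat_lit 1271251), (nat_lit 1271251)], [(nat_lit 27), (nat_lit 62), (nat_lit 445), (nat_lit 200), (nat_lit 12)]⟩⟩)) (.trZ (nat_lit 3) (nat_lit 4) (nat_lit 5) (nat_lit 100) (nat_lit 80) (nat_lit 60) (nat_lit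 40) (.leaf ⟨(nat_lit 35), (nat_lit 648), (nat_lit 0), (nat_lit 317), (nat_lit 0), (nat_lit 3918), (nat_lit 6662), (nat_lit 2713), (nat_lit 0), (nat_lit 0), (nat_lit 140000), [((nat_lit 380), [((nat_lit 41), (nat_lit 5), (nat_lit 35))])], ⟨(nat_lit 8), false, true, true, (nat_lit 339), (nat_lit 2236), (nat_lit 3163), [(nat_lit 1771478), (nat_lit 1762142), (nat_lit 1815720), (nat_lit 1807623), (nat_lit 1893385), (nat_lit 1876173), (nat_lit 1937695), (nat_lit 1921722)]⟩, ⟨(nat_lit 5), false, true, true, (nat_lit 212), (nat_lit 2236), (nat_lit 3163), [(nat_lit 1477844), (nat_lit 1477224), (nat_lit 1522091), (nat_lit 1522710), (nat_lit 1538797), (nat_lit 1534240), (nat_lit 1583107), (nat_lit 1579788)]⟩, (nat_lit 5489005), (nat_lit 32172892), (nat_lit 23819165), (nat_lit 11007943), (nat_lit 5), (nat_lit 0), [⟨(nat_lit 1), (nat_lit 55), (nat_lit 61), (nat_lit 100), (nat_lit 73588292)⟩], [], [], [],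
 ⟨⟨[(nat_lit 40), (nat_lit 60)], [(nat_lit 0), (nat_lit 832)], [((nat_lit 0), (nat_lit 0), (nat_lit 0)), ((nat_lit 1000), (nat_lit 659), (nat_lit 528))], ((nat_lit 68), (nat_lit 100), (nat_lit 49))⟩, (nat_lit 3083799), (nat_lit 141), (nat_lit 141), (nat_lit 0), (nat_lit 278667), [(nat_lit 1896298009), (nat_lit 2877456000)], [(nat_lit 0), (nat_lit 0)], [(nat_lit 27261281978), (nat_lit 28233109999), (nat_lit 31367697438), (nat_lit 32334404877), (nat_lit 27996034604), (nat_lit 28925685872), (nat_lit 31867416956), (nat_lit 32773173190)], (nat_lit 1271251), (nat_lit 1271251), (nat_lit 1271251), (nat_lit 1271251), (nat_lit 1271251), (nat_lit 1271251), [(nat_lit 490000), (nat_lit 780000)], [(nat_lit 1), (nat_lit 38), (nat_lit 203), (nat_lit 0), (nat_lit 8)]⟩,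
 ⟨⟨[(nat_lit 60), (nat_lit 100), (nat_lit 120)], [(nat_lit 0), (nat_lit 0), (nat_lit 1164)], [((nat_lit 0), (nat_lit 0), (nat_lit 0)), ((nat_lit 0), (nat_lit 0), (nat_lit 0)), ((nat_lit 1000), (nat_lit 933), (nat_lit 572))], ((nat_lit 92), (nat_lit 100), (nat_lit 44))⟩, (nat_lit 3709313), (nat_lit 513), (nat_lit 513), (nat_lit 0), (nat_lit 912374), [(nat_lit 3167130000), (nat_lit 6031250000), (nat_lit 7689120000)], [], [(nat_lit 33766636699), (nat_lit 34870545908), (nat_lit 37087171768), (nat_lit 37883726498), (nat_lit 35128656081), (nat_lit 35531043312), (nat_lit 37003288348), (nat_lit 37871286938)], (nat_lit 1271251), (nat_lit 1271251), (nat_lit 1271251), (nat_lit 1271251), (nat_lit 230000), (nat_lit 2833126), [(nat_lit 780000), (nat_lit 1435001), (nat_lit 1271251)], [(nat_lit 10), (nat_lit 54), (nat_lit 317), (nat_lit 100), (nat_lit 9)]⟩,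
 ⟨⟨[(nat_lit 120), (nat_lit 140), (nat_lit 160)], [(nat_lit 0), (nat_lit 266), (nat_lit 862)], [((nat_lit 0), (nat_lit 0), (nat_lit 0)), ((nat_lit 960), (nat_lit 1000), (nat_lit 200)), ((nat_lit 874), (nat_lit 1000), (nat_lit 406))], ((nat_lit 100), (nat_lit 86), (nat_lit 44))⟩, (nat_lit 1299132), (nat_lit 300), (nat_lit 1327), (nat_lit 21048800), (nat_lit 2298571), [(nat_lit 2525856000), (nat_lit 3119914000), (nat_lit 3763424000)], [], [(nat_lit 20118623692), (nat_lit 19850732935), (nat_lit 19852087621), (nat_lit 19581487493), (nat_lit 20517865228), (nat_lit 18129988774), (nat_lit 18114946037), (nat_lit 17131015651)], (nat_lit 1271251), (nat_lit 1271251), (nat_lit 1271251), (nat_lit 1271251), (nat_lit 230000), (nat_lit 2833126), [(nat_lit 1695001), (nat_lit 1271251), (nat_lit 1271251)], [(nat_lit 27), (nat_lit 62), (nat_lit 456), (nat_lit 225), (nat_lit 12)]⟩⟩))))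
noncomputable def c17_26 : Tr Lf :=
 (.spl (nat_lit 1) (nat_lit 280) (.stt (nat_lit 1) (.leaf ⟨(nat_lit 980), (nat_lit 20), (nat_lit 0), (nat_lit 0), (nat_lit 0), (nat_lit 3735), (nat_lit 171), (nat_lit 0), (nat_lit 0), (nat_lit 0), (nat_lit 245000), [((nat_lit 380), [((nat_lit 24), (nat_lit 0), (nat_lit 980))])], ⟨(nat_lit 6), true, false, false, (nat_lit 212), (nat_lit 2236), (nat_lit 3163), [(nat_lit 1406804), (nat_lit 1416903), (nat_lit 1450987), (nat_lit 1462324), (nat_lit 1605240), (nat_lit 1602541), (nat_lit 1649422), (nat_lit 1647962)]⟩, ⟨(nat_lit 3), false, false, true, (nat_lit 166), (nat_lit 2236), (nat_lit 3163), [(nat_lit 1289472), (nat_lit 1294870), (nat_lit 1355794), (nat_lit 1363050), (nat_lit 1472332), (nat_lit 1465917), (nat_lit 1538797), (nat_lit 1534240)]⟩, (nat_lit 4710495), (nat_lit 43922598), (nat_lit 13761894), (nat_lit 9315508), (nat_lit 3), (nat_lit 0), [], [], [⟨(nat_lit 1), (nat_lit 55), (nat_lit 99), (nat_lit 100), (nat_lit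 4633619)⟩], [],
 ⟨⟨[(nat_lit 40), (nat_lit 60), (nat_lit 80)], [(nat_lit 0), (nat_lit 832), (nat_lit 1534)], [((nat_lit 0), (nat_lit 0), (nat_lit 0)), ((nat_lit 1000), (nat_lit 659), (nat_lit 528)), ((nat_lit 1000), (nat_lit 650), (nat_lit 549))], ((nat_lit 63), (nat_lit 100), (nat_lit 62))⟩, (nat_lit 0), (nat_lit 70), (nat_lit 70), (nat_lit 0), (nat_lit 0), [(nat_lit 1542939292), (nat_lit 1603708289), (nat_lit 1765248000)], [(nat_lit 0), (nat_lit 0), (nat_lit 0)], [(nat_lit 19577716037), (nat_lit 21265375635), (nat_lit 22376186625), (nat_lit 23744252993), (nat_lit 22311919959), (nat_lit 23709626532), (nat_lit 24506821840), (nat_lit 25741018970)], (nat_lit 0), (nat_lit 0), (nat_lit 0), (nat_lit 0), (nat_lit 0), (nat_lit 0), [], [(nat_lit 2), (nat_lit 44), (nat_lit 345), (nat_lit 125), (nat_lit 15)]⟩,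
 ⟨⟨[(nat_lit 80), (nat_lit 120), (nat_lit 160)], [(nat_lit 0), (nat_lit 0), (nat_lit 2132)], [((nat_lit 0), (nat_lit 0), (nat_lit 0)), ((nat_lit 0), (nat_lit 0), (nat_lit 0)), ((nat_lit 858), (nat_lit 1000), (nat_lit 713))], ((nat_lit 100), (nat_lit 92), (nat_lit 61))⟩, (nat_lit 56825), (nat_lit 225), (nat_lit 225), (nat_lit 0), (nat_lit 0), [(nat_lit 93760000), (nat_lit 159360000), (nat_lit 237440000)], [], [(nat_lit 527781894), (nat_lit 596835600), (nat_lit 576233276), (nat_lit 629137982), (nat_lit 674777381), (nat_lit 699624741), (nat_lit 650320028), (nat_lit 668417028)], (nat_lit 0), (nat_lit 0), (nat_lit 0), (nat_lit 0), (nat_lit 0), (nat_lit 0), [], [(nat_lit 18), (nat_lit 59), (nat_lit 483), (nat_lit 250), (nat_lit 12)]⟩,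
 Rw.none⟩) (.spl (nat_lit 1) (nat_lit 260) (.leaf ⟨(nat_lit 801), (nat_lit 141), (nat_lit 0), (nat_lit 58), (nat_lit 0), (nat_lit 3460), (nat_lit 1535), (nat_lit 503), (nat_lit 0), (nat_lit 0), (nat_lit 388800), [((nat_lit 380), [((nat_lit 24), (nat_lit 1), (nat_lit 459)), ((nat_lit 41), (nat_lit 2), (nat_lit 342))])], ⟨(nat_lit 6), true, false, false, (nat_lit 208), (nat_lit 2236), (nat_lit 3163), [(nat_lit 1406804), (nat_lit 1416903), (nat_lit 1428895), (nat_lit 1439613), (nat_lit 1605240), (nat_lit 1602541), (nat_lit 1627331), (nat_lit 1625251)]⟩, ⟨(nat_lit 3), false, false, true, (nat_lit 166), (nat_lit 2236), (nat_lit 3163), [(nat_lit 1289472), (nat_lit 1294870), (nat_lit 1355794), (nat_lit 1363050), (nat_lit 1472332), (nat_lit 1465917), (nat_lit 1538797), (nat_lit 1534240)]⟩, (nat_lit 4677205), (nat_lit 44283522), (nat_lit 13359687), (nat_lit 9356791), (nat_lit 3), (nat_lit 0), [⟨(nat_lit 0), (nat_lit 96), (nat_lit 44), (nat_lit 100), (nat_lit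 147288418)⟩], [], [], [],
 ⟨⟨[(nat_lit 40), (nat_lit 60), (nat_lit 80)], [(nat_lit 0), (nat_lit 832), (nat_lit 1534)], [((nat_lit 0), (nat_lit 0), (nat_lit 0)), ((nat_lit 1000), (nat_lit 659), (nat_lit 528)), ((nat_lit 1000), (nat_lit 650), (nat_lit 549))], ((nat_lit 63), (nat_lit 100), (nat_lit 62))⟩, (nat_lit 0), (nat_lit 182), (nat_lit 182), (nat_lit 0), (nat_lit 360694), [(nat_lit 1432070817), (nat_lit 1281210977), (nat_lit 1352924000)], [(nat_lit 0), (nat_lit 0), (nat_lit 0)], [(nat_lit 19801280167), (nat_lit 21160135568), (nat_lit 22465603234), (nat_lit 23601851614), (nat_lit 22380643414), (nat_lit 23527645454), (nat_lit 24552735154), (nat_lit 25530817914)], (nat_lit 1271251), (nat_lit 1271251), (nat_lit 704688), (nat_lit 1756876), (nat_lit 780000), (nat_lit 1762501), [(nat_lit 490000), (nat_lit 780000), (nat_lit 1100000)], [(nat_lit 2), (nat_lit 44), (nat_lit 345), (nat_lit 125), (nat_lit 15)]⟩,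
 ⟨⟨[(nat_lit 80), (nat_lit 120), (nat_lit 160)], [(nat_lit 0), (nat_lit 0), (nat_lit 2132)], [((nat_lit 0), (nat_lit 0), (nat_lit 0)), ((nat_lit 0), (nat_lit 0), (nat_lit 0)), ((nat_lit 858), (nat_lit 1000), (nat_lit 713))], ((nat_lit 100), (nat_lit 92), (nat_lit 61))⟩, (nat_lit 645881), (nat_lit 214), (nat_lit 214), (nat_lit 0), (nat_lit 0), [(nat_lit 932912000), (nat_lit 1585632000), (nat_lit 2362528000)], [], [(nat_lit 5019707313), (nat_lit 5342485423), (nat_lit 5519739876), (nat_lit 5768765407), (nat_lit 6530148973), (nat_lit 6651015479), (nat_lit 6475176208), (nat_lit 6596483518)], (nat_lit 0), (nat_lit 0), (nat_lit 0), (nat_lit 0), (nat_lit 0), (nat_lit 0), [], [(nat_lit 18), (nat_lit 59), (nat_lit 456), (nat_lit 225), (nat_lit 12)]⟩,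
 ⟨⟨[(nat_lit 140), (nat_lit 180), (nat_lit 200)], [(nat_lit 0), (nat_lit 0), (nat_lit 2835)], [((nat_lit 0), (nat_lit 0), (nat_lit 0)), ((nat_lit 0), (nat_lit 0), (nat_lit 0)), ((nat_lit 363), (nat_lit 1000), (nat_lit 798))], ((nat_lit 0), (nat_lit 0), (nat_lit 0))⟩, (nat_lit 15958), (nat_lit 300), (nat_lit 1633), (nat_lit 4529800), (nat_lit 2464413), [(nat_lit 570836000), (nat_lit 815364000), (nat_lit 951200000)], [], [(nat_lit 5873173656), (nat_lit 5767457454), (nat_lit 5668710505), (nat_lit 5563963887), (nat_lit 5212836575), (nat_lit 5109734555), (nat_lit 5012598250), (nat_lit 4912746367)], (nat_lit 780000), (nat_lit 1271251), (nat_lit 780000), (nat_lit 1762501), (nat_lit 0), (nat_lit 2825001), [(nat_lit 1977501), (nat_lit 1271251), (nat_lit 1271251)], [(nat_lit 32), (nat_lit 67), (nat_lit 511), (nat_lit 225), (nat_lit 11)]⟩⟩) (.trZ (nat_lit 0) (nat_lit 1) (nat_lit 3) (nat_lit 100) (nat_lit 63) (nat_lit 99) (nat_lit 130) (.trX (nat_lit 5) (nat_lit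 1) (nat_lit 2) (nat_lit 96) (nat_lit 40) (nat_lit 100) (nat_lit 390) (.leaf ⟨(nat_lit 548), (nat_lit 381), (nat_lit 0), (nat_lit 71), (nat_lit 0), (nat_lit 4021), (nat_lit 3451), (nat_lit 639), (nat_lit 0), (nat_lit 0), (nat_lit 272450), [((nat_lit 380), [((nat_lit 24), (nat_lit 0), (nat_lit 161)), ((nat_lit 41), (nat_lit 2), (nat_lit 387))])], ⟨(nat_lit 6), true, false, false, (nat_lit 222), (nat_lit 2236), (nat_lit 3163), [(nat_lit 1459424), (nat_lit 1468173), (nat_lit 1481515), (nat_lit 1490884), (nat_lit 1627331), (nat_lit 1625251), (nat_lit 1649422), (nat_lit 1647962)]⟩, ⟨(nat_lit 3), false, false, true, (nat_lit 166), (nat_lit 2236), (nat_lit 3163), [(nat_lit 1289472), (nat_lit 1294870), (nat_lit 1355794), (nat_lit 1363050), (nat_lit 1472332), (nat_lit 1465917), (nat_lit 1538797), (nat_lit 1534240)]⟩, (nat_lit 4782676), (nat_lit 43085844), (nat_lit 14698365), (nat_lit 9215791), (nat_lit 3), (nat_lit 0), [⟨(nat_lit 0), (nat_lit 96), (nat_lit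 54), (nat_lit 100), (nat_lit 289730848)⟩], [], [⟨(nat_lit 1), (nat_lit 59), (nat_lit 97), (nat_lit 100), (nat_lit 52797409)⟩], [],
 ⟨⟨[(nat_lit 40), (nat_lit 60), (nat_lit 80)], [(nat_lit 0), (nat_lit 832), (nat_lit 1534)], [((nat_lit 0), (nat_lit 0), (nat_lit 0)), ((nat_lit 1000), (nat_lit 659), (nat_lit 528)), ((nat_lit 1000), (nat_lit 650), (nat_lit 549))], ((nat_lit 63), (nat_lit 100), (nat_lit 62))⟩, (nat_lit 217316), (nat_lit 193), (nat_lit 193), (nat_lit 0), (nat_lit 414497), [(nat_lit 1559379220), (nat_lit 1882211914), (nat_lit 2373277686)], [(nat_lit 0), (nat_lit 0), (nat_lit 0)], [(nat_lit 20529081474), (nat_lit 21864801333), (nat_lit 22848069581), (nat_lit 24026032587), (nat_lit 22916747498), (nat_lit 24041558312), (nat_lit 24722566074), (nat_lit 25960753342)], (nat_lit 1271251), (nat_lit 1271251), (nat_lit 857188), (nat_lit 1768126), (nat_lit 780000), (nat_lit 1762501), [(nat_lit 490000), (nat_lit 780000), (nat_lit 1100000)], [(nat_lit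 2), (nat_lit 44), (nat_lit 345), (nat_lit 125), (nat_lit 15)]⟩,
 ⟨⟨[(nat_lit 80), (nat_lit 120), (nat_lit 140)], [(nat_lit 0), (nat_lit 528), (nat_lit 1572)], [((nat_lit 0), (nat_lit 0), (nat_lit 0)), ((nat_lit 1000), (nat_lit 959), (nat_lit 206)), ((nat_lit 966), (nat_lit 1000), (nat_lit 679))], ((nat_lit 100), (nat_lit 99), (nat_lit 63))⟩, (nat_lit 1353738), (nat_lit 164), (nat_lit 164), (nat_lit 0), (nat_lit 0), [(nat_lit 2118976000), (nat_lit 3601536000), (nat_lit 4448584000)], [], [(nat_lit 10271428042), (nat_lit 11088511669), (nat_lit 11691485084), (nat_lit 12339318380), (nat_lit 13888825791), (nat_lit 14214791242), (nat_lit 13974367783), (nat_lit 14264056047)], (nat_lit 0), (nat_lit 0), (nat_lit 0), (nat_lit 0), (nat_lit 0), (nat_lit 0), [], [(nat_lit 17), (nat_lit 58), (nat_lit 483), (nat_lit 250), (nat_lit 14)]⟩,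
 ⟨⟨[(nat_lit 140), (nat_lit 180), (nat_lit 200)], [(nat_lit 0), (nat_lit 0), (nat_lit 2835)], [((nat_lit 0), (nat_lit 0), (nat_lit 0)), ((nat_lit 0), (nat_lit 0), (nat_lit 0)), ((nat_lit 363), (nat_lit 1000), (nat_lit 798))], ((nat_lit 0), (nat_lit 0), (nat_lit 0))⟩, (nat_lit 19534), (nat_lit 300), (nat_lit 1828), (nat_lit 5545106), (nat_lit 2878795), [(nat_lit 698782000), (nat_lit 998118000), (nat_lit 1164400000)], [], [(nat_lit 7215450604), (nat_lit 7083106821), (nat_lit 6958346455), (nat_lit 6827313239), (nat_lit 6396520624), (nat_lit 6267958300), (nat_lit 6146012382), (nat_lit 6025107499)], (nat_lit 780000), (nat_lit 1271251), (nat_lit 780000), (nat_lit 1762501), (nat_lit 0), (nat_lit 2754376), [(nat_lit 1977501), (nat_lit 1271251), (nat_lit 1271251)], [(nat_lit 32), (nat_lit 67), (nat_lit 559), (nat_lit 225), (nat_lit 12)]⟩⟩))))) (.trZ (nat_lit 0) (nat_lit 1) (nat_lit 3) (nat_lit 94) (nat_lit 62) (nat_lit 100) (nat_lit 150) (.trX (nat_lit 5)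 (nat_lit 1) (nat_lit 2) (nat_lit 92) (nat_lit 49) (nat_lit 100) (nat_lit 380) (.spl (nat_lit 2) (nat_lit 160) (.trX (nat_lit 5) (nat_lit 1) (nat_lit 2) (nat_lit 94) (nat_lit 59) (nat_lit 100) (nat_lit 370) (.leaf ⟨(nat_lit 35), (nat_lit 965), (nat_lit 0), (nat_lit 0), (nat_lit 0), (nat_lit 4797), (nat_lit 7397), (nat_lit 0), (nat_lit 0), (nat_lit 0), (nat_lit 140000), [((nat_lit 380), [((nat_lit 41), (nat_lit 5), (nat_lit 35))])], ⟨(nat_lit 7), true, false, false, (nat_lit 242), (nat_lit 2236), (nat_lit 3163), [(nat_lit 1512044), (nat_lit 1519444), (nat_lit 1556227), (nat_lit 1564865), (nat_lit 1649422), (nat_lit 1647962), (nat_lit 1693606), (nat_lit 1693384)]⟩, ⟨(nat_lit 3), false, false, true, (nat_lit 161), (nat_lit 2236), (nat_lit 3163), [(nat_lit 1289472), (nat_lit 1294870), (nat_lit 1333702), (nat_lit 1340339), (nat_lit 1472332), (nat_lit 1465917), (nat_lit 1516642), (nat_lit 1511466)]⟩, (nat_lit 4858231), (nat_lit 41806347), (nat_lit 16519920),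 (nat_lit 8673733), (nat_lit 3), (nat_lit 0), [⟨(nat_lit 0), (nat_lit 87), (nat_lit 53), (nat_lit 100), (nat_lit 365452736)⟩, ⟨(nat_lit 0), (nat_lit 94), (nat_lit 62), (nat_lit 100), (nat_lit 195520406)⟩], [], [⟨(nat_lit 1), (nat_lit 59), (nat_lit 94), (nat_lit 100), (nat_lit 253404911)⟩], [],
 ⟨⟨[(nat_lit 40), (nat_lit 60), (nat_lit 80)], [(nat_lit 0), (nat_lit 832), (nat_lit 1534)], [((nat_lit 0), (nat_lit 0), (nat_lit 0)), ((nat_lit 1000), (nat_lit 659), (nat_lit 528)), ((nat_lit 1000), (nat_lit 650), (nat_lit 549))], ((nat_lit 63), (nat_lit 100), (nat_lit 62))⟩, (nat_lit 601456), (nat_lit 241), (nat_lit 241), (nat_lit 0), (nat_lit 555387), [(nat_lit 1896298015), (nat_lit 2877456007), (nat_lit 3926274000)], [(nat_lit 0), (nat_lit 0), (nat_lit 0)], [(nat_lit 20988954518), (nat_lit 22562307372), (nat_lit 23168937371), (nat_lit 24803938831), (nat_lit 23237110235), (nat_lit 24735679559), (nat_lit 25114539264), (nat_lit 26556955694)], (nat_lit 1271251),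 (nat_lit 1271251), (nat_lit 1017188), (nat_lit 1779376), (nat_lit 780000), (nat_lit 1762501), [(nat_lit 490000), (nat_lit 780000), (nat_lit 1100000)], [(nat_lit 2), (nat_lit 44), (nat_lit 345), (nat_lit 125), (nat_lit 15)]⟩,
 ⟨⟨[(nat_lit 60), (nat_lit 100), (nat_lit 140)], [(nat_lit 0), (nat_lit 0), (nat_lit 2047)], [((nat_lit 0), (nat_lit 0), (nat_lit 0)), ((nat_lit 0), (nat_lit 0), (nat_lit 0)), ((nat_lit 1000), (nat_lit 993), (nat_lit 781))], ((nat_lit 94), (nat_lit 100), (nat_lit 62))⟩, (nat_lit 2767248), (nat_lit 176), (nat_lit 176), (nat_lit 0), (nat_lit 0), [(nat_lit 3167130000), (nat_lit 6031250000), (nat_lit 9497530000)], [], [(nat_lit 22472178409), (nat_lit 25863411242), (nat_lit 25228107000), (nat_lit 28000509620), (nat_lit 27459154809), (nat_lit 29836411932), (nat_lit 28738011716), (nat_lit 30685025201)], (nat_lit 0), (nat_lit 0), (nat_lit 0), (nat_lit 0), (nat_lit 0), (nat_lit 0), [], [(nat_lit 11), (nat_lit 55), (nat_lit 401), (nat_lit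 175), (nat_lit 11)]⟩,
 Rw.none⟩)) (.leaf ⟨(nat_lit 0), (nat_lit 910), (nat_lit 0), (nat_lit 90), (nat_lit 0), (nat_lit 4957), (nat_lit 7256), (nat_lit 849), (nat_lit 0), (nat_lit 0), (nat_lit 0), [], Pd.none, Pd.none, (nat_lit 0), (nat_lit 1), (nat_lit 0), (nat_lit 0), (nat_lit 4), (nat_lit 0), [⟨(nat_lit 0), (nat_lit 87), (nat_lit 53), (nat_lit 100), (nat_lit 669454670)⟩], [], [⟨(nat_lit 1), (nat_lit 49), (nat_lit 92), (nat_lit 100), (nat_lit 183190165)⟩], [],
 ⟨⟨[(nat_lit 40), (nat_lit 60), (nat_lit 80)], [(nat_lit 0), (nat_lit 832), (nat_lit 1534)], [((nat_lit 0), (nat_lit 0), (nat_lit 0)), ((nat_lit 1000), (nat_lit 659), (nat_lit 528)), ((nat_lit 1000), (nat_lit 650), (nat_lit 549))], ((nat_lit 63), (nat_lit 100), (nat_lit 62))⟩, (nat_lit 962531), (nat_lit 200), (nat_lit 200), (nat_lit 0), (nat_lit 457286), [(nat_lit 2032000007), (nat_lit 3282000013), (nat_lit 4688000000)], [], [(nat_lit 21147488998), (nat_lit 22735434272), (nat_lit 23309634321),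 (nat_lit 24964331871), (nat_lit 23381265135), (nat_lit 24885129169), (nat_lit 25227359254), (nat_lit 26679884014)], (nat_lit 1271251), (nat_lit 1271251), (nat_lit 1017188), (nat_lit 1779376), (nat_lit 780000), (nat_lit 1762501), [(nat_lit 490000), (nat_lit 780000), (nat_lit 1100000)], [(nat_lit 2), (nat_lit 44), (nat_lit 345), (nat_lit 125), (nat_lit 15)]⟩,
 ⟨⟨[(nat_lit 60), (nat_lit 100), (nat_lit 140)], [(nat_lit 0), (nat_lit 0), (nat_lit 2047)], [((nat_lit 0), (nat_lit 0), (nat_lit 0)), ((nat_lit 0), (nat_lit 0), (nat_lit 0)), ((nat_lit 1000), (nat_lit 993), (nat_lit 781))], ((nat_lit 94), (nat_lit 100), (nat_lit 62))⟩, (nat_lit 2794446), (nat_lit 176), (nat_lit 176), (nat_lit 0), (nat_lit 0), [(nat_lit 3282000000), (nat_lit 6250000000), (nat_lit 9842000000)], [], [(nat_lit 23384204058), (nat_lit 26782982742), (nat_lit 26217146446), (nat_lit 29003235886), (nat_lit 29425211003), (nat_lit 31404084121), (nat_lit 30325397952), (nat_lit 32203281424)],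 (nat_lit 0), (nat_lit 0), (nat_lit 0), (nat_lit 0), (nat_lit 0), (nat_lit 0), [], [(nat_lit 11), (nat_lit 55), (nat_lit 401), (nat_lit 175), (nat_lit 11)]⟩,
 ⟨⟨[(nat_lit 120), (nat_lit 160), (nat_lit 180)], [(nat_lit 0), (nat_lit 0), (nat_lit 1613)], [((nat_lit 0), (nat_lit 0), (nat_lit 0)), ((nat_lit 0), (nat_lit 0), (nat_lit 0)), ((nat_lit 620), (nat_lit 1000), (nat_lit 670))], ((nat_lit 100), (nat_lit 68), (nat_lit 61))⟩, (nat_lit 39169), (nat_lit 300), (nat_lit 2057), (nat_lit 6678003), (nat_lit 3514656), [(nat_lit 717120000), (nat_lit 1068480000), (nat_lit 1265220000)], [], [(nat_lit 7720962568), (nat_lit 7671468548), (nat_lit 7405708781), (nat_lit 7356427692), (nat_lit 6731416525), (nat_lit 6682556452), (nat_lit 6422195239), (nat_lit 6688730501)], (nat_lit 1100000), (nat_lit 1271251), (nat_lit 780000), (nat_lit 1762501), (nat_lit 0), (nat_lit 2683751), [(nat_lit 1695001), (nat_lit 1271251), (nat_lit 1271251)], [(nat_lit 28), (nat_lit 65),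 (nat_lit 615), (nat_lit 200), (nat_lit 14)]⟩⟩)))))
noncomputable def c17_27 : Tr Lf :=
 (.stt (nat_lit 1) (.spl (nat_lit 4) (nat_lit 200) (.spl (nat_lit 1) (nat_lit 280) (.leaf ⟨(nat_lit 1000), (nat_lit 0), (nat_lit 0), (nat_lit 0), (nat_lit 0), (nat_lit 3770), (nat_lit 0), (nat_lit 0), (nat_lit 0), (nat_lit 0), (nat_lit 250000), [((nat_lit 380), [((nat_lit 24), (nat_lit 0), (nat_lit 1000))])], ⟨(nat_lit 6), false, false, false, (nat_lit 212), (nat_lit 2236), (nat_lit 3163), [(nat_lit 1406804), (nat_lit 1416903), (nat_lit 1450987), (nat_lit 1462324), (nat_lit 1605240), (nat_lit 1602541), (nat_lit 1649422), (nat_lit 1647962)]⟩, ⟨(nat_lit 3), false, false, true, (nat_lit 154), (nat_lit 2236), (nat_lit 3163), [(nat_lit 1289472), (nat_lit 1294870), (nat_lit 1355794), (nat_lit 1363050), (nat_lit 1411379), (nat_lit 1408901), (nat_lit 1477844), (nat_lit 1477224)]⟩, (nat_lit 4595564), (nat_lit 44719912), (nat_lit 13897974), (nat_lit 8382114), (nat_lit 0),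 (nat_lit 0), [], [], [], [],
 ⟨⟨[(nat_lit 40), (nat_lit 60), (nat_lit 80)], [(nat_lit 0), (nat_lit 832), (nat_lit 1534)], [((nat_lit 0), (nat_lit 0), (nat_lit 0)), ((nat_lit 1000), (nat_lit 659), (nat_lit 528)), ((nat_lit 1000), (nat_lit 650), (nat_lit 549))], ((nat_lit 63), (nat_lit 100), (nat_lit 62))⟩, (nat_lit 0), (nat_lit 70), (nat_lit 70), (nat_lit 0), (nat_lit 0), [(nat_lit 1558320455), (nat_lit 1652300165), (nat_lit 1705600000)], [(nat_lit 0), (nat_lit 0), (nat_lit 0)], [(nat_lit 19507462587), (nat_lit 21244577879), (nat_lit 22301851750), (nat_lit 23774416005), (nat_lit 21061083640), (nat_lit 22581193564), (nat_lit 23489892830), (nat_lit 24827099680)], (nat_lit 0), (nat_lit 0), (nat_lit 0), (nat_lit 0), (nat_lit 0), (nat_lit 0), [], [(nat_lit 2), (nat_lit 44), (nat_lit 345), (nat_lit 125), (nat_lit 15)]⟩,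
 Rw.none,
 Rw.none⟩) (.trZ (nat_lit 0) (nat_lit 1) (nat_lit 3) (nat_lit 94) (nat_lit 62) (nat_lit 100) (nat_lit 150) (.trX (nat_lit 5) (nat_lit 1) (nat_lit 2) (nat_lit 92) (nat_lit 49) (nat_lit 100) (nat_lit 380) (.leaf ⟨(nat_lit 988), (nat_lit 12), (nat_lit 0), (nat_lit 0), (nat_lit 0), (nat_lit 3376), (nat_lit 83), (nat_lit 0), (nat_lit 0), (nat_lit 0), (nat_lit 247000), [((nat_lit 380), [((nat_lit 24), (nat_lit 0), (nat_lit 988))])], ⟨(nat_lit 7), false, false, false, (nat_lit 242), (nat_lit 2236), (nat_lit 3163), [(nat_lit 1512044), (nat_lit 1519444), (nat_lit 1556227), (nat_lit 1564865), (nat_lit 1649422), (nat_lit 1647962), (nat_lit 1693606), (nat_lit 1693384)]⟩, ⟨(nat_lit 3), false, false, true, (nat_lit 154), (nat_lit 2236), (nat_lit 3163), [(nat_lit 1289472), (nat_lit 1294870), (nat_lit 1355794), (nat_lit 1363050), (nat_lit 1411379), (nat_lit 1408901), (nat_lit 1477844), (nat_lit 1477224)]⟩, (nat_lit 4789643), (nat_lit 42248986), (nat_lit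 16630094), (nat_lit 8120920), (nat_lit 3), (nat_lit 0), [], [], [⟨(nat_lit 1), (nat_lit 72), (nat_lit 89), (nat_lit 100), (nat_lit 2534138)⟩], [],
 ⟨⟨[(nat_lit 40), (nat_lit 60), (nat_lit 80)], [(nat_lit 0), (nat_lit 832), (nat_lit 1534)], [((nat_lit 0), (nat_lit 0), (nat_lit 0)), ((nat_lit 1000), (nat_lit 659), (nat_lit 528)), ((nat_lit 1000), (nat_lit 650), (nat_lit 549))], ((nat_lit 63), (nat_lit 100), (nat_lit 62))⟩, (nat_lit 0), (nat_lit 55), (nat_lit 55), (nat_lit 0), (nat_lit 0), [(nat_lit 1529659552), (nat_lit 1390727894), (nat_lit 1741388800)], [(nat_lit 0), (nat_lit 0), (nat_lit 0)], [(nat_lit 19334952648), (nat_lit 21019878743), (nat_lit 21856313808), (nat_lit 23379448144), (nat_lit 20962949358), (nat_lit 22403720098), (nat_lit 23165242216), (nat_lit 24517323484)], (nat_lit 0), (nat_lit 0), (nat_lit 0), (nat_lit 0), (nat_lit 0), (nat_lit 0), [], [(nat_lit 2), (nat_lit 44), (nat_lit 345), (nat_lit 125), (nat_lit 15)]⟩,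
 ⟨⟨[(nat_lit 60), (nat_lit 100), (nat_lit 140)], [(nat_lit 0), (nat_lit 0), (nat_lit 2047)], [((nat_lit 0), (nat_lit 0), (nat_lit 0)), ((nat_lit 0), (nat_lit 0), (nat_lit 0)), ((nat_lit 1000), (nat_lit 993), (nat_lit 781))], ((nat_lit 94), (nat_lit 100), (nat_lit 62))⟩, (nat_lit 0), (nat_lit 590), (nat_lit 590), (nat_lit 0), (nat_lit 824326), [(nat_lit 39384000), (nat_lit 75000000), (nat_lit 118104000)], [], [(nat_lit 459252887), (nat_lit 477105805), (nat_lit 471365100), (nat_lit 486010216), (nat_lit 472407380), (nat_lit 479629410), (nat_lit 546802616), (nat_lit 475149360)], (nat_lit 1271251), (nat_lit 1271251), (nat_lit 1017188), (nat_lit 1779376), (nat_lit 0), (nat_lit 2683751), [(nat_lit 780000), (nat_lit 1435001), (nat_lit 1271251)], [(nat_lit 11), (nat_lit 55), (nat_lit 401), (nat_lit 175), (nat_lit 11)]⟩,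
 Rw.none⟩)))) (.spl (nat_lit 1) (nat_lit 280) (.leaf ⟨(nat_lit 988), (nat_lit 6), (nat_lit 0), (nat_lit 6), (nat_lit 0), (nat_lit 3274), (nat_lit 125), (nat_lit 67), (nat_lit 0), (nat_lit 0), (nat_lit 247000), [((nat_lit 380), [((nat_lit 24), (nat_lit 0), (nat_lit 988))])], ⟨(nat_lit 6), false, false, false, (nat_lit 212), (nat_lit 2236), (nat_lit 3163), [(nat_lit 1406804), (nat_lit 1416903), (nat_lit 1450987), (nat_lit 1462324), (nat_lit 1605240), (nat_lit 1602541), (nat_lit 1649422), (nat_lit 1647962)]⟩, ⟨(nat_lit 5), false, false, true, (nat_lit 189), (nat_lit 2236), (nat_lit 3163), [(nat_lit 1411379), (nat_lit 1408901), (nat_lit 1477844), (nat_lit 1477224), (nat_lit 1472332), (nat_lit 1465917), (nat_lit 1538797), (nat_lit 1534240)]⟩, (nat_lit 4915239), (nat_lit 42300560), (nat_lit 13461732), (nat_lit 11237708), (nat_lit 5), (nat_lit 0), [], [], [], [],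
 ⟨⟨[(nat_lit 40), (nat_lit 60), (nat_lit 80)], [(nat_lit 0), (nat_lit 832), (nat_lit 1534)], [((nat_lit 0), (nat_lit 0), (nat_lit 0)), ((nat_lit 1000), (nat_lit 659), (nat_lit 528)), ((nat_lit 1000), (nat_lit 650), (nat_lit 549))], ((nat_lit 63), (nat_lit 100), (nat_lit 62))⟩, (nat_lit 0), (nat_lit 57), (nat_lit 57), (nat_lit 0), (nat_lit 0), [(nat_lit 1529659202), (nat_lit 1397070160), (nat_lit 1741388800)], [(nat_lit 0), (nat_lit 0), (nat_lit 0)], [(nat_lit 20652836067), (nat_lit 22068403158), (nat_lit 23293903406), (nat_lit 24461427160), (nat_lit 21845281743), (nat_lit 23224641106), (nat_lit 24272920968), (nat_lit 25386927642)], (nat_lit 0), (nat_lit 0), (nat_lit 0), (nat_lit 0), (nat_lit 0), (nat_lit 0), [], [(nat_lit 2), (nat_lit 44), (nat_lit 272), (nat_lit 60), (nat_lit 11)]⟩,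
 ⟨⟨[(nat_lit 80), (nat_lit 120), (nat_lit 160)], [(nat_lit 0), (nat_lit 0), (nat_lit 2132)], [((nat_lit 0), (nat_lit 0), (nat_lit 0)), ((nat_lit 0), (nat_lit 0), (nat_lit 0)), ((nat_lit 858), (nat_lit 1000), (nat_lit 713))], ((nat_lit 100), (nat_lit 92), (nat_lit 61))⟩, (nat_lit 10752), (nat_lit 712), (nat_lit 712), (nat_lit 0), (nat_lit 879509), [(nat_lit 56256000), (nat_lit 95616000), (nat_lit 142464000)], [], [(nat_lit 712113543), (nat_lit 578360449), (nat_lit 425145464), (nat_lit 436746366), (nat_lit 485403163), (nat_lit 471939890), (nat_lit 706618624), (nat_lit 600943874)], (nat_lit 1271251), (nat_lit 1271251), (nat_lit 704688), (nat_lit 1756876), (nat_lit 0), (nat_lit 2825001), [(nat_lit 1100000), (nat_lit 1785001), (nat_lit 1271251)], [(nat_lit 18), (nat_lit 59), (nat_lit 483), (nat_lit 250), (nat_lit 12)]⟩,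
 ⟨⟨[(nat_lit 140), (nat_lit 180), (nat_lit 200)], [(nat_lit 0), (nat_lit 0), (nat_lit 2835)], [((nat_lit 0), (nat_lit 0), (nat_lit 0)), ((nat_lit 0), (nat_lit 0), (nat_lit 0)), ((nat_lit 363), (nat_lit 1000), (nat_lit 798))], ((nat_lit 0), (nat_lit 0), (nat_lit 0))⟩, (nat_lit 1651), (nat_lit 300), (nat_lit 2128), (nat_lit 468600), (nat_lit 3576602), [(nat_lit 59052000), (nat_lit 84348000), (nat_lit 98400000)], [], [(nat_lit 444740616), (nat_lit 430046244), (nat_lit 436169704), (nat_lit 421553762), (nat_lit 413872924), (nat_lit 470234899), (nat_lit 355101328), (nat_lit 412542003)], (nat_lit 780000), (nat_lit 1271251), (nat_lit 1271251), (nat_lit 1271251), (nat_lit 0), (nat_lit 2825001), [(nat_lit 1977501), (nat_lit 1271251), (nat_lit 1271251)], [(nat_lit 32), (nat_lit 67), (nat_lit 635), (nat_lit 225), (nat_lit 13)]⟩⟩) (.trZ (nat_lit 0) (nat_lit 1) (nat_lit 3) (nat_lit 94) (nat_lit 62) (nat_lit 100) (nat_lit 150) (.trX (nat_lit 5) (nat_lit 1) (nat_lit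 2) (nat_lit 92) (nat_lit 49) (nat_lit 100) (nat_lit 380) (.spl (nat_lit 1) (nat_lit 300) (.leaf ⟨(nat_lit 1000), (nat_lit 0), (nat_lit 0), (nat_lit 0), (nat_lit 0), (nat_lit 3170), (nat_lit 0), (nat_lit 0), (nat_lit 0), (nat_lit 0), (nat_lit 250000), [((nat_lit 380), [((nat_lit 24), (nat_lit 0), (nat_lit 1000))])], ⟨(nat_lit 7), false, false, false, (nat_lit 237), (nat_lit 2236), (nat_lit 3163), [(nat_lit 1512044), (nat_lit 1519444), (nat_lit 1534135), (nat_lit 1542154), (nat_lit 1649422), (nat_lit 1647962), (nat_lit 1671514), (nat_lit 1670673)]⟩, ⟨(nat_lit 5), false, false, true, (nat_lit 189), (nat_lit 2236), (nat_lit 3163), [(nat_lit 1411379), (nat_lit 1408901), (nat_lit 1477844), (nat_lit 1477224), (nat_lit 1472332), (nat_lit 1465917), (nat_lit 1538797), (nat_lit 1534240)]⟩, (nat_lit 5070019), (nat_lit 40408894), (nat_lit 15671597), (nat_lit 10919509), (nat_lit 0), (nat_lit 0), [], [], [], [],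
 ⟨⟨[(nat_lit 40), (nat_lit 60), (nat_lit 80)], [(nat_lit 0), (nat_lit 832), (nat_lit 1534)], [((nat_lit 0), (nat_lit 0), (nat_lit 0)), ((nat_lit 1000), (nat_lit 659), (nat_lit 528)), ((nat_lit 1000), (nat_lit 650), (nat_lit 549))], ((nat_lit 63), (nat_lit 100), (nat_lit 62))⟩, (nat_lit 0), (nat_lit 47), (nat_lit 47), (nat_lit 0), (nat_lit 0), [(nat_lit 1526400090), (nat_lit 88823049908), (nat_lit 1705600000)], [(nat_lit 0), (nat_lit 0), (nat_lit 0)], [(nat_lit 20727706657), (nat_lit 22230502294), (nat_lit 23055216870), (nat_lit 24355359280), (nat_lit 21936073238), (nat_lit 23346078192), (nat_lit 24082208530), (nat_lit 25306928340)], (nat_lit 0), (nat_lit 0), (nat_lit 0), (nat_lit 0), (nat_lit 0), (nat_lit 0), [], [(nat_lit 2), (nat_lit 44), (nat_lit 272), (nat_lit 60), (nat_lit 11)]⟩,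
 Rw.none,
 Rw.none⟩) (.trZ (nat_lit 0) (nat_lit 1) (nat_lit 3) (nat_lit 87) (nat_lit 60) (nat_lit 100) (nat_lit 170) (.trX (nat_lit 5) (nat_lit 1) (nat_lit 2) (nat_lit 87) (nat_lit 59) (nat_lit 100) (nat_lit 370) (.leaf ⟨(nat_lit 961), (nat_lit 39), (nat_lit 0), (nat_lit 0), (nat_lit 0), (nat_lit 3182), (nat_lit 279), (nat_lit 0), (nat_lit 0), (nat_lit 0), (nat_lit 240250), [((nat_lit 380), [((nat_lit 24), (nat_lit 0), (nat_lit 961))])], ⟨(nat_lit 7), false, true, false, (nat_lit 252), (nat_lit 2236), (nat_lit 3163), [(nat_lit 1564664), (nat_lit 1570714), (nat_lit 1586755), (nat_lit 1593425), (nat_lit 1671514), (nat_lit 1670673), (nat_lit 1693606), (nat_lit 1693384)]⟩, ⟨(nat_lit 5), false, false, true, (nat_lit 189), (nat_lit 2236), (nat_lit 3163), [(nat_lit 1411379), (nat_lit 1408901), (nat_lit 1477844), (nat_lit 1477224), (nat_lit 1472332), (nat_lit 1465917), (nat_lit 1538797), (nat_lit 1534240)]⟩, (nat_lit 5143441), (nat_lit 39302989), (nat_lit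 16977127), (nat_lit 10719884), (nat_lit 5), (nat_lit 0), [⟨(nat_lit 0), (nat_lit 84), (nat_lit 53), (nat_lit 100), (nat_lit 30897016)⟩], [], [⟨(nat_lit 1), (nat_lit 77), (nat_lit 86), (nat_lit 100), (nat_lit 9521741)⟩], [],
 ⟨⟨[(nat_lit 40), (nat_lit 60), (nat_lit 80)], [(nat_lit 0), (nat_lit 832), (nat_lit 1534)], [((nat_lit 0), (nat_lit 0), (nat_lit 0)), ((nat_lit 1000), (nat_lit 659), (nat_lit 528)), ((nat_lit 1000), (nat_lit 650), (nat_lit 549))], ((nat_lit 63), (nat_lit 100), (nat_lit 62))⟩, (nat_lit 0), (nat_lit 45), (nat_lit 45), (nat_lit 0), (nat_lit 0), [(nat_lit 1536992460), (nat_lit 89762272690), (nat_lit 1821913600)], [(nat_lit 0), (nat_lit 0), (nat_lit 0)], [(nat_lit 21117454764), (nat_lit 22564590547), (nat_lit 23062732848), (nat_lit 24364794088), (nat_lit 22292439621), (nat_lit 23651278681), (nat_lit 24089790484), (nat_lit 25316147964)], (nat_lit 0), (nat_lit 0), (nat_lit 0), (nat_lit 0), (nat_lit 0), (nat_lit 0), [], [(nat_lit 2),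 (nat_lit 44), (nat_lit 203), (nat_lit 0), (nat_lit 7)]⟩,
 ⟨⟨[(nat_lit 60), (nat_lit 100), (nat_lit 120)], [(nat_lit 0), (nat_lit 609), (nat_lit 1609)], [((nat_lit 0), (nat_lit 0), (nat_lit 0)), ((nat_lit 1000), (nat_lit 905), (nat_lit 238)), ((nat_lit 1000), (nat_lit 882), (nat_lit 668))], ((nat_lit 87), (nat_lit 100), (nat_lit 60))⟩, (nat_lit 62626), (nat_lit 507), (nat_lit 507), (nat_lit 0), (nat_lit 814513), [(nat_lit 127998000), (nat_lit 243750000), (nat_lit 310752000)], [], [(nat_lit 1079132972), (nat_lit 1120873481), (nat_lit 1136883806), (nat_lit 1172521994), (nat_lit 1187283666), (nat_lit 1182548686), (nat_lit 1533626771), (nat_lit 1413130437)], (nat_lit 1271251), (nat_lit 1271251), (nat_lit 1184688), (nat_lit 1790626), (nat_lit 0), (nat_lit 2613125), [(nat_lit 780000), (nat_lit 1435001), (nat_lit 1271251)], [(nat_lit 10), (nat_lit 54), (nat_lit 401), (nat_lit 175), (nat_lit 13)]⟩,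
 Rw.none⟩)))))))) (.spl (nat_lit 5) (nat_lit 120) (.leaf ⟨(nat_lit 658), (nat_lit 260), (nat_lit 0), (nat_lit 82), (nat_lit 0), (nat_lit 4066), (nat_lit 2413), (nat_lit 1010), (nat_lit 0), (nat_lit 0), (nat_lit 255400), [((nat_lit 380), [((nat_lit 24), (nat_lit 0), (nat_lit 52)), ((nat_lit 24), (nat_lit 1), (nat_lit 606))])], ⟨(nat_lit 6), false, false, false, (nat_lit 221), (nat_lit 2236), (nat_lit 3163), [(nat_lit 1406804), (nat_lit 1416903), (nat_lit 1495170), (nat_lit 1507746), (nat_lit 1605240), (nat_lit 1602541), (nat_lit 1693606), (nat_lit 1693384)]⟩, ⟨(nat_lit 3), false, false, true, (nat_lit 166), (nat_lit 2236), (nat_lit 3163), [(nat_lit 1289472), (nat_lit 1294870), (nat_lit 1355794), (nat_lit 1363050), (nat_lit 1472332), (nat_lit 1465917), (nat_lit 1538797), (nat_lit 1534240)]⟩, (nat_lit 4773164), (nat_lit 43200834), (nat_lit 14569347), (nat_lit 9229819), (nat_lit 3), (nat_lit 0), [⟨(nat_lit 0), (nat_lit 93), (nat_lit 53), (nat_lit 100),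 (nat_lit 203897889)⟩], [], [], [],
 ⟨⟨[(nat_lit 40), (nat_lit 60), (nat_lit 80)], [(nat_lit 0), (nat_lit 832), (nat_lit 1534)], [((nat_lit 0), (nat_lit 0), (nat_lit 0)), ((nat_lit 1000), (nat_lit 659), (nat_lit 528)), ((nat_lit 1000), (nat_lit 650), (nat_lit 549))], ((nat_lit 63), (nat_lit 100), (nat_lit 62))⟩, (nat_lit 0), (nat_lit 153), (nat_lit 153), (nat_lit 0), (nat_lit 273715), [(nat_lit 1528145323), (nat_lit 1787903732), (nat_lit 2270353600)], [(nat_lit 0), (nat_lit 0), (nat_lit 0)], [(nat_lit 20154075825), (nat_lit 21751320617), (nat_lit 22756689079), (nat_lit 24171002783), (nat_lit 22691989657), (nat_lit 24138287104), (nat_lit 24815361104), (nat_lit 25996018968)], (nat_lit 1271251), (nat_lit 1271251), (nat_lit 704688), (nat_lit 1756876), (nat_lit 780000), (nat_lit 1762501), [(nat_lit 490000), (nat_lit 780000), (nat_lit 1100000)], [(nat_lit 2), (nat_lit 44), (nat_lit 345), (nat_lit 125), (nat_lit 15)]⟩,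
 ⟨⟨[(nat_lit 80), (nat_lit 120), (nat_lit 160)], [(nat_lit 0), (nat_lit 0), (nat_lit 2132)], [((nat_lit 0), (nat_lit 0), (nat_lit 0)), ((nat_lit 0), (nat_lit 0), (nat_lit 0)), ((nat_lit 858), (nat_lit 1000), (nat_lit 713))], ((nat_lit 100), (nat_lit 92), (nat_lit 61))⟩, (nat_lit 88259), (nat_lit 436), (nat_lit 436), (nat_lit 0), (nat_lit 360667), [(nat_lit 1603296000), (nat_lit 2725056000), (nat_lit 4060224000)], [], [(nat_lit 13161160857), (nat_lit 14195092663), (nat_lit 13944859696), (nat_lit 14381881720), (nat_lit 12048284939), (nat_lit 12954395779), (nat_lit 15823159948), (nat_lit 12968398874)], (nat_lit 1271251), (nat_lit 1271251), (nat_lit 704688), (nat_lit 1756876), (nat_lit 0), (nat_lit 780000), [(nat_lit 1100000), (nat_lit 1785001), (nat_lit 1271251)], [(nat_lit 18), (nat_lit 59), (nat_lit 401), (nat_lit 175), (nat_lit 10)]⟩,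
 ⟨⟨[(nat_lit 140), (nat_lit 180), (nat_lit 200)], [(nat_lit 0), (nat_lit 0), (nat_lit 2835)], [((nat_lit 0), (nat_lit 0), (nat_lit 0)), ((nat_lit 0), (nat_lit 0), (nat_lit 0)), ((nat_lit 363), (nat_lit 1000), (nat_lit 798))], ((nat_lit 0), (nat_lit 0), (nat_lit 0))⟩, (nat_lit 22561), (nat_lit 300), (nat_lit 1048), (nat_lit 6404200), (nat_lit 1160764), [(nat_lit 807044000), (nat_lit 1152756000), (nat_lit 1344800000)], [], [(nat_lit 6080135408), (nat_lit 5845173649), (nat_lit 5642123256), (nat_lit 5406966744), (nat_lit 5285830328), (nat_lit 5061497838), (nat_lit 4866500680), (nat_lit 5258715572)], (nat_lit 780000), (nat_lit 1271251), (nat_lit 780000), (nat_lit 1762501), (nat_lit 0), (nat_lit 780000), [(nat_lit 1977501), (nat_lit 1271251), (nat_lit 1271251)], [(nat_lit 32), (nat_lit 67), (nat_lit 373), (nat_lit 150), (nat_lit 8)]⟩⟩) (.leaf ⟨(nat_lit 850), (nat_lit 53), (nat_lit 0), (nat_lit 97), (nat_lit 0), (nat_lit 3762), (nat_lit 1566), (nat_lit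 975), (nat_lit 0), (nat_lit 0), (nat_lit 265450), [((nat_lit 380), [((nat_lit 24), (nat_lit 0), (nat_lit 497)), ((nat_lit 24), (nat_lit 1), (nat_lit 353))])], ⟨(nat_lit 6), false, false, false, (nat_lit 221), (nat_lit 2236), (nat_lit 3163), [(nat_lit 1406804), (nat_lit 1416903), (nat_lit 1495170), (nat_lit 1507746), (nat_lit 1605240), (nat_lit 1602541), (nat_lit 1693606), (nat_lit 1693384)]⟩, ⟨(nat_lit 3), false, false, true, (nat_lit 166), (nat_lit 2236), (nat_lit 3163), [(nat_lit 1289472), (nat_lit 1294870), (nat_lit 1355794), (nat_lit 1363050), (nat_lit 1472332), (nat_lit 1465917), (nat_lit 1538797), (nat_lit 1534240)]⟩, (nat_lit 4773164), (nat_lit 43200834), (nat_lit 14569347), (nat_lit 9229819), (nat_lit 3), (nat_lit 0), [⟨(nat_lit 0), (nat_lit 82), (nat_lit 44), (nat_lit 100), (nat_lit 127165425)⟩], [], [], [],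
 ⟨⟨[(nat_lit 40), (nat_lit 60), (nat_lit 80)], [(nat_lit 0), (nat_lit 832), (nat_lit 1534)], [((nat_lit 0), (nat_lit 0), (nat_lit 0)), ((nat_lit 1000), (nat_lit 659), (nat_lit 528)), ((nat_lit 1000), (nat_lit 650), (nat_lit 549))], ((nat_lit 63), (nat_lit 100), (nat_lit 62))⟩, (nat_lit 0), (nat_lit 153), (nat_lit 153), (nat_lit 0), (nat_lit 273715), [(nat_lit 1514048873), (nat_lit 1518020863), (nat_lit 1887786400)], [(nat_lit 0), (nat_lit 0), (nat_lit 0)], [(nat_lit 20073156312), (nat_lit 21490864473), (nat_lit 22706726304), (nat_lit 23866348800), (nat_lit 22631863250), (nat_lit 23814693586), (nat_lit 24687286244), (nat_lit 25761763124)], (nat_lit 1271251), (nat_lit 1271251), (nat_lit 704688), (nat_lit 1756876), (nat_lit 780000), (nat_lit 1762501), [(nat_lit 490000), (nat_lit 780000), (nat_lit 1100000)], [(nat_lit 2), (nat_lit 44), (nat_lit 345), (nat_lit 125), (nat_lit 15)]⟩,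
 ⟨⟨[(nat_lit 80), (nat_lit 120), (nat_lit 160)], [(nat_lit 0), (nat_lit 0), (nat_lit 2132)], [((nat_lit 0), (nat_lit 0), (nat_lit 0)), ((nat_lit 0), (nat_lit 0), (nat_lit 0)), ((nat_lit 858), (nat_lit 1000), (nat_lit 713))], ((nat_lit 100), (nat_lit 92), (nat_lit 61))⟩, (nat_lit 0), (nat_lit 349), (nat_lit 349), (nat_lit 0), (nat_lit 360667), [(nat_lit 703200000), (nat_lit 1195200000), (nat_lit 1780800000)], [], [(nat_lit 7024629353), (nat_lit 4959649200), (nat_lit 4528626420), (nat_lit 4880601972), (nat_lit 7533029850), (nat_lit 6381883908), (nat_lit 10188530760), (nat_lit 7475222784)], (nat_lit 1271251), (nat_lit 1271251), (nat_lit 704688), (nat_lit 1756876), (nat_lit 780000), (nat_lit 3072501), [(nat_lit 1100000), (nat_lit 1785001), (nat_lit 1271251)], [(nat_lit 18), (nat_lit 59), (nat_lit 483), (nat_lit 250), (nat_lit 12)]⟩,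
 ⟨⟨[(nat_lit 140), (nat_lit 180), (nat_lit 200)], [(nat_lit 0), (nat_lit 0), (nat_lit 2835)], [((nat_lit 0), (nat_lit 0), (nat_lit 0)), ((nat_lit 0), (nat_lit 0), (nat_lit 0)), ((nat_lit 363), (nat_lit 1000), (nat_lit 798))], ((nat_lit 0), (nat_lit 0), (nat_lit 0))⟩, (nat_lit 26688), (nat_lit 300), (nat_lit 948), (nat_lit 7575700), (nat_lit 1160764), [(nat_lit 954674000), (nat_lit 1363626000), (nat_lit 1590800000)], [], [(nat_lit 7113483765), (nat_lit 6906890140), (nat_lit 6724371544), (nat_lit 6516950836), (nat_lit 6522858857), (nat_lit 6304122229), (nat_lit 6106195950), (nat_lit 6337831457)], (nat_lit 780000), (nat_lit 1271251), (nat_lit 780000), (nat_lit 1762501), (nat_lit 780000), (nat_lit 3072501), [(nat_lit 1977501), (nat_lit 1271251), (nat_lit 1271251)], [(nat_lit 32), (nat_lit 67), (nat_lit 456), (nat_lit 225), (nat_lit 10)]⟩⟩)))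
noncomputable def c17_28 : Tr Lf :=
 (.stt (nat_lit 2) (.spl (nat_lit 1) (nat_lit 280) (.leaf ⟨(nat_lit 648), (nat_lit 253), (nat_lit 0), (nat_lit 99), (nat_lit 0), (nat_lit 3607), (nat_lit 3015), (nat_lit 731), (nat_lit 0), (nat_lit 0), (nat_lit 341550), [((nat_lit 380), [((nat_lit 24), (nat_lit 0), (nat_lit 135)), ((nat_lit 41), (nat_lit 2), (nat_lit 513))])], ⟨(nat_lit 6), true, false, false, (nat_lit 212), (nat_lit 2236), (nat_lit 3163), [(nat_lit 1406804), (nat_lit 1416903), (nat_lit 1450987), (nat_lit 1462324), (nat_lit 1605240), (nat_lit 1602541), (nat_lit 1649422), (nat_lit 1647962)]⟩, ⟨(nat_lit 4), false, false, false, (nat_lit 188), (nat_lit 2236), (nat_lit 3163), [(nat_lit 1355794), (nat_lit 1363050), (nat_lit 1399976), (nat_lit 1408471), (nat_lit 1538797), (nat_lit 1534240), (nat_lit 1583107), (nat_lit 1579788)]⟩, (nat_lit 4905883), (nat_lit 42381580), (nat_lit 13477429), (nat_lit 11140991), (nat_lit 4), (nat_lit 0), [⟨(nat_lit 0), (nat_lit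 92), (nat_lit 44), (nat_lit 100), (nat_lit 307467381)⟩], [], [], [],
 ⟨⟨[(nat_lit 40), (nat_lit 60), (nat_lit 80)], [(nat_lit 0), (nat_lit 832), (nat_lit 1534)], [((nat_lit 0), (nat_lit 0), (nat_lit 0)), ((nat_lit 1000), (nat_lit 659), (nat_lit 528)), ((nat_lit 1000), (nat_lit 650), (nat_lit 549))], ((nat_lit 63), (nat_lit 100), (nat_lit 62))⟩, (nat_lit 228906), (nat_lit 168), (nat_lit 168), (nat_lit 0), (nat_lit 308042), [(nat_lit 1503011221), (nat_lit 1586690343), (nat_lit 1853345657)], [(nat_lit 0), (nat_lit 0), (nat_lit 0)], [(nat_lit 19853348518), (nat_lit 21240850792), (nat_lit 22502702373), (nat_lit 23642772411), (nat_lit 22422657204), (nat_lit 23574966804), (nat_lit 24548456979), (nat_lit 25642676314)], (nat_lit 1271251), (nat_lit 1271251), (nat_lit 704688), (nat_lit 1756876), (nat_lit 780000), (nat_lit 1762501), [(nat_lit 490000), (nat_lit 780000), (nat_lit 1100000)], [(nat_lit 2), (nat_lit 44), (nat_lit 345), (nat_lit 125), (nat_lit 15)]⟩,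
 ⟨⟨[(nat_lit 80), (nat_lit 120), (nat_lit 160)], [(nat_lit 0), (nat_lit 0), (nat_lit 2132)], [((nat_lit 0), (nat_lit 0), (nat_lit 0)), ((nat_lit 0), (nat_lit 0), (nat_lit 0)), ((nat_lit 858), (nat_lit 1000), (nat_lit 713))], ((nat_lit 100), (nat_lit 92), (nat_lit 61))⟩, (nat_lit 1125363), (nat_lit 225), (nat_lit 225), (nat_lit 0), (nat_lit 0), [(nat_lit 1650176000), (nat_lit 2804736000), (nat_lit 4178944000)], [], [(nat_lit 9023894840), (nat_lit 10240587325), (nat_lit 9876057108), (nat_lit 10808099694), (nat_lit 11609463489), (nat_lit 12046955395), (nat_lit 11322233464), (nat_lit 11761964724)], (nat_lit 0), (nat_lit 0), (nat_lit 0), (nat_lit 0), (nat_lit 0), (nat_lit 0), [], [(nat_lit 18), (nat_lit 59), (nat_lit 483), (nat_lit 250), (nat_lit 12)]⟩,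
 ⟨⟨[(nat_lit 120), (nat_lit 160), (nat_lit 180)], [(nat_lit 0), (nat_lit 533), (nat_lit 2066)], [((nat_lit 0), (nat_lit 0), (nat_lit 0)), ((nat_lit 960), (nat_lit 1000), (nat_lit 200)), ((nat_lit 615), (nat_lit 1000), (nat_lit 729))], ((nat_lit 100), (nat_lit 74), (nat_lit 60))⟩, (nat_lit 231805), (nat_lit 300), (nat_lit 1296), (nat_lit 6573600), (nat_lit 1936662), [(nat_lit 788832000), (nat_lit 1175328000), (nat_lit 1391742000)], [], [(nat_lit 8085490198), (nat_lit 8010693771), (nat_lit 7829586141), (nat_lit 7753621957), (nat_lit 7259152911), (nat_lit 7180169711), (nat_lit 6996522654), (nat_lit 6917086024)], (nat_lit 1271251), (nat_lit 1271251), (nat_lit 780000), (nat_lit 1762501), (nat_lit 0), (nat_lit 2825001), [(nat_lit 1695001), (nat_lit 1271251), (nat_lit 1271251)], [(nat_lit 28), (nat_lit 65), (nat_lit 456), (nat_lit 225), (nat_lit 11)]⟩⟩) (.trZ (nat_lit 0) (nat_lit 1) (nat_lit 3) (nat_lit 94) (nat_lit 62) (nat_lit 100) (nat_lit 150) (.leaf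 ⟨(nat_lit 0), (nat_lit 845), (nat_lit 0), (nat_lit 155), (nat_lit 0), (nat_lit 4967), (nat_lit 6987), (nat_lit 1215), (nat_lit 0), (nat_lit 0), (nat_lit 0), [], Pd.none, Pd.none, (nat_lit 0), (nat_lit 1), (nat_lit 0), (nat_lit 0), (nat_lit 4), (nat_lit 0), [⟨(nat_lit 0), (nat_lit 87), (nat_lit 53), (nat_lit 100), (nat_lit 674950210)⟩], [], [⟨(nat_lit 1), (nat_lit 50), (nat_lit 87), (nat_lit 100), (nat_lit 154377474)⟩], [],
 ⟨⟨[(nat_lit 40), (nat_lit 60), (nat_lit 80)], [(nat_lit 0), (nat_lit 832), (nat_lit 1534)], [((nat_lit 0), (nat_lit 0), (nat_lit 0)), ((nat_lit 1000), (nat_lit 659), (nat_lit 528)), ((nat_lit 1000), (nat_lit 650), (nat_lit 549))], ((nat_lit 63), (nat_lit 100), (nat_lit 62))⟩, (nat_lit 962984), (nat_lit 191), (nat_lit 191), (nat_lit 0), (nat_lit 425897), [(nat_lit 2032001405), (nat_lit 3282001751), (nat_lit 4688000000)], [], [(nat_lit 21119869480), (nat_lit 22732569992), (nat_lit 23304743169), (nat_lit 24974356436), (nat_lit 23352746893),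 (nat_lit 24880785058), (nat_lit 25220725792), (nat_lit 26687567034)], (nat_lit 1271251), (nat_lit 1271251), (nat_lit 1017188), (nat_lit 1779376), (nat_lit 780000), (nat_lit 1762501), [(nat_lit 490000), (nat_lit 780000), (nat_lit 1100000)], [(nat_lit 2), (nat_lit 44), (nat_lit 345), (nat_lit 125), (nat_lit 15)]⟩,
 ⟨⟨[(nat_lit 60), (nat_lit 100), (nat_lit 140)], [(nat_lit 0), (nat_lit 0), (nat_lit 2047)], [((nat_lit 0), (nat_lit 0), (nat_lit 0)), ((nat_lit 0), (nat_lit 0), (nat_lit 0)), ((nat_lit 1000), (nat_lit 993), (nat_lit 781))], ((nat_lit 94), (nat_lit 100), (nat_lit 62))⟩, (nat_lit 2665832), (nat_lit 176), (nat_lit 176), (nat_lit 0), (nat_lit 0), [(nat_lit 3282000000), (nat_lit 6250000000), (nat_lit 9842000000)], [], [(nat_lit 23612772218), (nat_lit 26935670642), (nat_lit 26430636012), (nat_lit 29159632892), (nat_lit 31097880086), (nat_lit 32901171577), (nat_lit 31793082122), (nat_lit 33465919492)], (nat_lit 0), (nat_lit 0), (nat_lit 0), (nat_lit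 0), (nat_lit 0), (nat_lit 0), [], [(nat_lit 11), (nat_lit 55), (nat_lit 401), (nat_lit 175), (nat_lit 11)]⟩,
 ⟨⟨[(nat_lit 120), (nat_lit 160), (nat_lit 180)], [(nat_lit 0), (nat_lit 533), (nat_lit 2066)], [((nat_lit 0), (nat_lit 0), (nat_lit 0)), ((nat_lit 960), (nat_lit 1000), (nat_lit 200)), ((nat_lit 615), (nat_lit 1000), (nat_lit 729))], ((nat_lit 100), (nat_lit 74), (nat_lit 60))⟩, (nat_lit 362927), (nat_lit 300), (nat_lit 1618), (nat_lit 10292000), (nat_lit 2632837), [(nat_lit 1235040000), (nat_lit 1840160000), (nat_lit 2178990000)], [], [(nat_lit 12995755054), (nat_lit 12861071412), (nat_lit 12553887647), (nat_lit 12418831385), (nat_lit 11564851344), (nat_lit 11428483033), (nat_lit 11131694875), (nat_lit 10987757738)], (nat_lit 1271251), (nat_lit 1271251), (nat_lit 780000), (nat_lit 1762501), (nat_lit 0), (nat_lit 2825001), [(nat_lit 1695001), (nat_lit 1271251), (nat_lit 1271251)], [(nat_lit 28), (nat_lit 65), (nat_lit 512), (nat_lit 225),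 (nat_lit 12)]⟩⟩))) (.spl (nat_lit 1) (nat_lit 280) (.spl (nat_lit 4) (nat_lit 200) (.leaf ⟨(nat_lit 906), (nat_lit 47), (nat_lit 0), (nat_lit 47), (nat_lit 0), (nat_lit 3465), (nat_lit 730), (nat_lit 537), (nat_lit 0), (nat_lit 0), (nat_lit 334800), [((nat_lit 380), [((nat_lit 24), (nat_lit 0), (nat_lit 184)), ((nat_lit 24), (nat_lit 1), (nat_lit 722))])], ⟨(nat_lit 6), false, false, false, (nat_lit 212), (nat_lit 2236), (nat_lit 3163), [(nat_lit 1406804), (nat_lit 1416903), (nat_lit 1450987), (nat_lit 1462324), (nat_lit 1605240), (nat_lit 1602541), (nat_lit 1649422), (nat_lit 1647962)]⟩, ⟨(nat_lit 4), false, false, false, (nat_lit 176), (nat_lit 2236), (nat_lit 3163), [(nat_lit 1355794), (nat_lit 1363050), (nat_lit 1399976), (nat_lit 1408471), (nat_lit 1477844), (nat_lit 1477224), (nat_lit 1522091), (nat_lit 1522710)]⟩, (nat_lit 4806906), (nat_lit 43195477), (nat_lit 13631077), (nat_lit 10173446), (nat_lit 4), (nat_lit 0), [⟨(nat_lit 0), (nat_lit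 92), (nat_lit 44), (nat_lit 100), (nat_lit 38967566)⟩], [], [], [],
 ⟨⟨[(nat_lit 40), (nat_lit 60), (nat_lit 80)], [(nat_lit 0), (nat_lit 832), (nat_lit 1534)], [((nat_lit 0), (nat_lit 0), (nat_lit 0)), ((nat_lit 1000), (nat_lit 659), (nat_lit 528)), ((nat_lit 1000), (nat_lit 650), (nat_lit 549))], ((nat_lit 63), (nat_lit 100), (nat_lit 62))⟩, (nat_lit 0), (nat_lit 117), (nat_lit 117), (nat_lit 0), (nat_lit 162127), [(nat_lit 1443341629), (nat_lit 1419353010), (nat_lit 1443579200)], [(nat_lit 0), (nat_lit 0), (nat_lit 0)], [(nat_lit 19408165574), (nat_lit 20959336341), (nat_lit 22231275234), (nat_lit 23486499808), (nat_lit 21010456994), (nat_lit 22360930889), (nat_lit 23478967334), (nat_lit 24588149772)], (nat_lit 1271251), (nat_lit 1271251), (nat_lit 704688), (nat_lit 1756876), (nat_lit 780000), (nat_lit 1435001), [(nat_lit 490000), (nat_lit 780000), (nat_lit 1100000)], [(nat_lit 2), (nat_lit 44), (nat_lit 345), (nat_lit 125), (nat_lit 15)]⟩,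
 ⟨⟨[(nat_lit 80), (nat_lit 120), (nat_lit 160)], [(nat_lit 0), (nat_lit 0), (nat_lit 2132)], [((nat_lit 0), (nat_lit 0), (nat_lit 0)), ((nat_lit 0), (nat_lit 0), (nat_lit 0)), ((nat_lit 858), (nat_lit 1000), (nat_lit 713))], ((nat_lit 100), (nat_lit 92), (nat_lit 61))⟩, (nat_lit 0), (nat_lit 583), (nat_lit 583), (nat_lit 0), (nat_lit 637083), [(nat_lit 440672000), (nat_lit 748992000), (nat_lit 1115968000)], [], [(nat_lit 4861417965), (nat_lit 4080299898), (nat_lit 3972944232), (nat_lit 4084843052), (nat_lit 4049703618), (nat_lit 4097511502), (nat_lit 5292909488), (nat_lit 4675768948)], (nat_lit 1271251), (nat_lit 1271251), (nat_lit 704688), (nat_lit 1756876), (nat_lit 0), (nat_lit 2825001), [(nat_lit 1100000), (nat_lit 1785001), (nat_lit 1271251)], [(nat_lit 18), (nat_lit 59), (nat_lit 483), (nat_lit 250), (nat_lit 12)]⟩,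
 ⟨⟨[(nat_lit 120), (nat_lit 160), (nat_lit 180)], [(nat_lit 0), (nat_lit 533), (nat_lit 2066)], [((nat_lit 0), (nat_lit 0), (nat_lit 0)), ((nat_lit 960), (nat_lit 1000), (nat_lit 200)), ((nat_lit 615), (nat_lit 1000), (nat_lit 729))], ((nat_lit 100), (nat_lit 74), (nat_lit 60))⟩, (nat_lit 110049), (nat_lit 300), (nat_lit 1001), (nat_lit 3120800), (nat_lit 1292441), [(nat_lit 374496000), (nat_lit 557984000), (nat_lit 660726000)], [], [(nat_lit 2652768428), (nat_lit 2605976419), (nat_lit 2514671569), (nat_lit 2465589558), (nat_lit 2962327651), (nat_lit 2479047520), (nat_lit 3531926148), (nat_lit 3060798864)], (nat_lit 1271251), (nat_lit 1271251), (nat_lit 780000), (nat_lit 1435001), (nat_lit 0), (nat_lit 2825001), [(nat_lit 1695001), (nat_lit 1271251), (nat_lit 1271251)], [(nat_lit 28), (nat_lit 65), (nat_lit 456), (nat_lit 225), (nat_lit 11)]⟩⟩) (.leaf ⟨(nat_lit 890), (nat_lit 61), (nat_lit 0), (nat_lit 49), (nat_lit 0), (nat_lit 3466), (nat_lit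 823), (nat_lit 612), (nat_lit 0), (nat_lit 0), (nat_lit 321950), [((nat_lit 380), [((nat_lit 24), (nat_lit 0), (nat_lit 227)), ((nat_lit 24), (nat_lit 1), (nat_lit 663))])], ⟨(nat_lit 6), false, false, false, (nat_lit 212), (nat_lit 2236), (nat_lit 3163), [(nat_lit 1406804), (nat_lit 1416903), (nat_lit 1450987), (nat_lit 1462324), (nat_lit 1605240), (nat_lit 1602541), (nat_lit 1649422), (nat_lit 1647962)]⟩, ⟨(nat_lit 5), false, true, true, (nat_lit 212), (nat_lit 2236), (nat_lit 3163), [(nat_lit 1477844), (nat_lit 1477224), (nat_lit 1522091), (nat_lit 1522710), (nat_lit 1538797), (nat_lit 1534240), (nat_lit 1583107), (nat_lit 1579788)]⟩, (nat_lit 5078780), (nat_lit 40739896), (nat_lit 13145840), (nat_lit 13114264), (nat_lit 5), (nat_lit 0), [⟨(nat_lit 0), (nat_lit 92), (nat_lit 44), (nat_lit 100), (nat_lit 65688936)⟩], [], [], [],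
 ⟨⟨[(nat_lit 40), (nat_lit 60), (nat_lit 80)], [(nat_lit 0), (nat_lit 832), (nat_lit 1534)], [((nat_lit 0), (nat_lit 0), (nat_lit 0)), ((nat_lit 1000), (nat_lit 659), (nat_lit 528)), ((nat_lit 1000), (nat_lit 650), (nat_lit 549))], ((nat_lit 63), (nat_lit 100), (nat_lit 62))⟩, (nat_lit 0), (nat_lit 109), (nat_lit 109), (nat_lit 0), (nat_lit 162127), [(nat_lit 1456560968), (nat_lit 1465170198), (nat_lit 1535618400)], [(nat_lit 0), (nat_lit 0), (nat_lit 0)], [(nat_lit 21114547164), (nat_lit 22465212267), (nat_lit 23582902130), (nat_lit 24692226705), (nat_lit 22251881937), (nat_lit 23519947329), (nat_lit 24496523556), (nat_lit 25534734968)], (nat_lit 1271251), (nat_lit 1271251), (nat_lit 704688), (nat_lit 1756876), (nat_lit 1271251), (nat_lit 1271251), [(nat_lit 490000), (nat_lit 780000), (nat_lit 1100000)], [(nat_lit 2), (nat_lit 44), (nat_lit 272), (nat_lit 60), (nat_lit 11)]⟩,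
 ⟨⟨[(nat_lit 80), (nat_lit 120), (nat_lit 160)], [(nat_lit 0), (nat_lit 0), (nat_lit 2132)], [((nat_lit 0), (nat_lit 0), (nat_lit 0)), ((nat_lit 0), (nat_lit 0), (nat_lit 0)), ((nat_lit 858), (nat_lit 1000), (nat_lit 713))], ((nat_lit 100), (nat_lit 92), (nat_lit 61))⟩, (nat_lit 56558), (nat_lit 583), (nat_lit 583), (nat_lit 0), (nat_lit 637083), [(nat_lit 515680000), (nat_lit 876480000), (nat_lit 1305920000)], [], [(nat_lit 5598977796), (nat_lit 4722634628), (nat_lit 4605269864), (nat_lit 4720902896), (nat_lit 4698276289), (nat_lit 4755260002), (nat_lit 6163440080), (nat_lit 5467677526)], (nat_lit 1271251), (nat_lit 1271251), (nat_lit 704688), (nat_lit 1756876), (nat_lit 0), (nat_lit 2825001), [(nat_lit 1100000), (nat_lit 1785001), (nat_lit 1271251)], [(nat_lit 18), (nat_lit 59), (nat_lit 483), (nat_lit 250), (nat_lit 12)]⟩,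
 ⟨⟨[(nat_lit 120), (nat_lit 160), (nat_lit 180)], [(nat_lit 0), (nat_lit 533), (nat_lit 2066)], [((nat_lit 0), (nat_lit 0), (nat_lit 0)), ((nat_lit 960), (nat_lit 1000), (nat_lit 200)), ((nat_lit 615), (nat_lit 1000), (nat_lit 729))], ((nat_lit 100), (nat_lit 74), (nat_lit 60))⟩, (nat_lit 114732), (nat_lit 300), (nat_lit 963), (nat_lit 3253600), (nat_lit 1292441), [(nat_lit 390432000), (nat_lit 581728000), (nat_lit 688842000)], [], [(nat_lit 2518431030), (nat_lit 2478329361), (nat_lit 2479957167), (nat_lit 2436599885), (nat_lit 3365409068), (nat_lit 2828481884), (nat_lit 2825111600), (nat_lit 2294924984)], (nat_lit 1271251), (nat_lit 1271251), (nat_lit 1271251), (nat_lit 1271251), (nat_lit 0), (nat_lit 2825001), [(nat_lit 1695001), (nat_lit 1271251), (nat_lit 1271251)], [(nat_lit 28), (nat_lit 65), (nat_lit 456), (nat_lit 225), (nat_lit 11)]⟩⟩)) (.trZ (nat_lit 0) (nat_lit 1) (nat_lit 3) (nat_lit 94) (nat_lit 62) (nat_lit 100) (nat_lit 150) (.spl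 (nat_lit 3) (nat_lit 200) (.leaf ⟨(nat_lit 647), (nat_lit 212), (nat_lit 0), (nat_lit 141), (nat_lit 0), (nat_lit 3663), (nat_lit 2256), (nat_lit 1051), (nat_lit 0), (nat_lit 0), (nat_lit 372950), [((nat_lit 380), [((nat_lit 24), (nat_lit 0), (nat_lit 91)), ((nat_lit 24), (nat_lit 1), (nat_lit 343)), ((nat_lit 24), (nat_lit 2), (nat_lit 213))])], ⟨(nat_lit 7), false, false, false, (nat_lit 230), (nat_lit 2236), (nat_lit 3163), [(nat_lit 1512044), (nat_lit 1519444), (nat_lit 1556227), (nat_lit 1564865), (nat_lit 1588366), (nat_lit 1590843), (nat_lit 1632548), (nat_lit 1636264)]⟩, ⟨(nat_lit 4), false, false, false, (nat_lit 188), (nat_lit 2236), (nat_lit 3163), [(nat_lit 1355794), (nat_lit 1363050), (nat_lit 1399976), (nat_lit 1408471), (nat_lit 1538797), (nat_lit 1534240), (nat_lit 1583107), (nat_lit 1579788)]⟩, (nat_lit 5019957), (nat_lit 41033358), (nat_lit 15046078), (nat_lit 10920564), (nat_lit 4), (nat_lit 0), [⟨(nat_lit 0), (nat_lit 87), (nat_lit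 53), (nat_lit 100), (nat_lit 440189411)⟩], [], [], [],
 ⟨⟨[(nat_lit 40), (nat_lit 60), (nat_lit 80)], [(nat_lit 0), (nat_lit 832), (nat_lit 1534)], [((nat_lit 0), (nat_lit 0), (nat_lit 0)), ((nat_lit 1000), (nat_lit 659), (nat_lit 528)), ((nat_lit 1000), (nat_lit 650), (nat_lit 549))], ((nat_lit 63), (nat_lit 100), (nat_lit 62))⟩, (nat_lit 1119), (nat_lit 120), (nat_lit 120), (nat_lit 0), (nat_lit 209875), [(nat_lit 1516937621), (nat_lit 1584875914), (nat_lit 1692007200)], [(nat_lit 0), (nat_lit 0), (nat_lit 0)], [(nat_lit 19950793034), (nat_lit 21494965010), (nat_lit 21189564019), (nat_lit 22628199767), (nat_lit 22548714729), (nat_lit 23836149989), (nat_lit 23537244931), (nat_lit 24742972642)], (nat_lit 1271251), (nat_lit 1271251), (nat_lit 1017188), (nat_lit 1440626), (nat_lit 780000), (nat_lit 1762501), [(nat_lit 490000), (nat_lit 780000), (nat_lit 1100000)], [(nat_lit 2), (nat_lit 44), (nat_lit 345), (nat_lit 125), (nat_lit 15)]⟩,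
 ⟨⟨[(nat_lit 60), (nat_lit 100), (nat_lit 140)], [(nat_lit 0), (nat_lit 0), (nat_lit 2047)], [((nat_lit 0), (nat_lit 0), (nat_lit 0)), ((nat_lit 0), (nat_lit 0), (nat_lit 0)), ((nat_lit 1000), (nat_lit 993), (nat_lit 781))], ((nat_lit 94), (nat_lit 100), (nat_lit 62))⟩, (nat_lit 946120), (nat_lit 488), (nat_lit 488), (nat_lit 0), (nat_lit 632891), [(nat_lit 1158546000), (nat_lit 2206250000), (nat_lit 3474226000)], [], [(nat_lit 12096191972), (nat_lit 11515089478), (nat_lit 11199728924), (nat_lit 11685670354), (nat_lit 13066196204), (nat_lit 12774420750), (nat_lit 14998355048), (nat_lit 13019094056)], (nat_lit 1271251), (nat_lit 1271251), (nat_lit 1017188), (nat_lit 1440626), (nat_lit 0), (nat_lit 2825001), [(nat_lit 780000), (nat_lit 1435001), (nat_lit 1271251)], [(nat_lit 11), (nat_lit 55), (nat_lit 373), (nat_lit 150), (nat_lit 11)]⟩,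
 ⟨⟨[(nat_lit 120), (nat_lit 160), (nat_lit 180)], [(nat_lit 0), (nat_lit 533), (nat_lit 2066)], [((nat_lit 0), (nat_lit 0), (nat_lit 0)), ((nat_lit 960), (nat_lit 1000), (nat_lit 200)), ((nat_lit 615), (nat_lit 1000), (nat_lit 729))], ((nat_lit 100), (nat_lit 74), (nat_lit 60))⟩, (nat_lit 330146), (nat_lit 300), (nat_lit 1175), (nat_lit 9362402), (nat_lit 1676882), [(nat_lit 1123488000), (nat_lit 1673952000), (nat_lit 1982178000)], [], [(nat_lit 11032370105), (nat_lit 10929734766), (nat_lit 10672555905), (nat_lit 10567358324), (nat_lit 9871331114), (nat_lit 9759825414), (nat_lit 9982234015), (nat_lit 9382517688)], (nat_lit 1271251), (nat_lit 1271251), (nat_lit 780000), (nat_lit 1762501), (nat_lit 0), (nat_lit 2825001), [(nat_lit 1695001), (nat_lit 1271251), (nat_lit 1271251)], [(nat_lit 28), (nat_lit 65), (nat_lit 456), (nat_lit 225), (nat_lit 11)]⟩⟩) (.leaf ⟨(nat_lit 442), (nat_lit 363), (nat_lit 0), (nat_lit 195), (nat_lit 0), (nat_lit 3747),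 (nat_lit 3566), (nat_lit 1471), (nat_lit 0), (nat_lit 0), (nat_lit 422000), [((nat_lit 380), [((nat_lit 41), (nat_lit 2), (nat_lit 50)), ((nat_lit 24), (nat_lit 2), (nat_lit 392))])], ⟨(nat_lit 7), false, true, false, (nat_lit 257), (nat_lit 2236), (nat_lit 3163), [(nat_lit 1588366), (nat_lit 1590843), (nat_lit 1632548), (nat_lit 1636264), (nat_lit 1649422), (nat_lit 1647962), (nat_lit 1693606), (nat_lit 1693384)]⟩, ⟨(nat_lit 4), false, false, false, (nat_lit 188), (nat_lit 2236), (nat_lit 3163), [(nat_lit 1355794), (nat_lit 1363050), (nat_lit 1399976), (nat_lit 1408471), (nat_lit 1538797), (nat_lit 1534240), (nat_lit 1583107), (nat_lit 1579788)]⟩, (nat_lit 5153948), (nat_lit 39047676), (nat_lit 17383546), (nat_lit 10568778), (nat_lit 4), (nat_lit 0), [⟨(nat_lit 0), (nat_lit 82), (nat_lit 44), (nat_lit 100), (nat_lit 367260211)⟩], [], [], [],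
 ⟨⟨[(nat_lit 40), (nat_lit 60), (nat_lit 80)], [(nat_lit 0), (nat_lit 832), (nat_lit 1534)], [((nat_lit 0), (nat_lit 0), (nat_lit 0)), ((nat_lit 1000), (nat_lit 659), (nat_lit 528)), ((nat_lit 1000), (nat_lit 650), (nat_lit 549))], ((nat_lit 63), (nat_lit 100), (nat_lit 62))⟩, (nat_lit 1568), (nat_lit 118), (nat_lit 118), (nat_lit 0), (nat_lit 209875), [(nat_lit 1649011205), (nat_lit 1765147968), (nat_lit 1793513600)], [(nat_lit 0), (nat_lit 0), (nat_lit 0)], [(nat_lit 21321477829), (nat_lit 22708293551), (nat_lit 22453946492), (nat_lit 23767272587), (nat_lit 23658870472), (nat_lit 24809016298), (nat_lit 24570261039), (nat_lit 25750238594)], (nat_lit 1271251), (nat_lit 1271251), (nat_lit 1271251), (nat_lit 1271251), (nat_lit 780000), (nat_lit 1762501), [(nat_lit 490000), (nat_lit 780000), (nat_lit 1100000)], [(nat_lit 2), (nat_lit 44), (nat_lit 272), (nat_lit 60), (nat_lit 11)]⟩,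
 ⟨⟨[(nat_lit 60), (nat_lit 100), (nat_lit 140)], [(nat_lit 0), (nat_lit 0), (nat_lit 2047)], [((nat_lit 0), (nat_lit 0), (nat_lit 0)), ((nat_lit 0), (nat_lit 0), (nat_lit 0)), ((nat_lit 1000), (nat_lit 993), (nat_lit 781))], ((nat_lit 94), (nat_lit 100), (nat_lit 62))⟩, (nat_lit 1578940), (nat_lit 476), (nat_lit 476), (nat_lit 0), (nat_lit 632891), [(nat_lit 1831356000), (nat_lit 3487500000), (nat_lit 5491836000)], [], [(nat_lit 17351895736), (nat_lit 18301568004), (nat_lit 17787635124), (nat_lit 18660780764), (nat_lit 20914476028), (nat_lit 20182212040), (nat_lit 19816141056), (nat_lit 20243779352)], (nat_lit 1271251), (nat_lit 1271251), (nat_lit 1271251), (nat_lit 1271251), (nat_lit 0), (nat_lit 2825001), [(nat_lit 780000), (nat_lit 1435001), (nat_lit 1271251)], [(nat_lit 11), (nat_lit 55), (nat_lit 401), (nat_lit 175), (nat_lit 11)]⟩,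
 ⟨⟨[(nat_lit 120), (nat_lit 160), (nat_lit 180)], [(nat_lit 0), (nat_lit 533), (nat_lit 2066)], [((nat_lit 0), (nat_lit 0), (nat_lit 0)), ((nat_lit 960), (nat_lit 1000), (nat_lit 200)), ((nat_lit 615), (nat_lit 1000), (nat_lit 729))], ((nat_lit 100), (nat_lit 74), (nat_lit 60))⟩, (nat_lit 456585), (nat_lit 300), (nat_lit 1175), (nat_lit 12948002), (nat_lit 1676882), [(nat_lit 1553760000), (nat_lit 2315040000), (nat_lit 2741310000)], [], [(nat_lit 15140124647), (nat_lit 14995404523), (nat_lit 14633441488), (nat_lit 14485172026), (nat_lit 13505141766), (nat_lit 13348123588), (nat_lit 13851639355), (nat_lit 12817312141)], (nat_lit 1271251), (nat_lit 1271251), (nat_lit 780000), (nat_lit 1762501), (nat_lit 0), (nat_lit 2825001), [(nat_lit 1695001), (nat_lit 1271251), (nat_lit 1271251)], [(nat_lit 28), (nat_lit 65), (nat_lit 456), (nat_lit 225), (nat_lit 11)]⟩⟩)))))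
noncomputable def c17_29 : Tr Lf :=
 (.spl (nat_lit 4) (nat_lit 200) (.spl (nat_lit 2) (nat_lit 160) (.trX (nat_lit 5) (nat_lit 1) (nat_lit 2) (nat_lit 100) (nat_lit 40) (nat_lit 100) (nat_lit 390) (.leaf ⟨(nat_lit 1000), (nat_lit 0), (nat_lit 0), (nat_lit 0), (nat_lit 0), (nat_lit 3437), (nat_lit 0), (nat_lit 0), (nat_lit 0), (nat_lit 0), (nat_lit 250000), [((nat_lit 380), [((nat_lit 24), (nat_lit 0), (nat_lit 1000))])], ⟨(nat_lit 6), false, true, true, (nat_lit 274), (nat_lit 2236), (nat_lit 3163), [(nat_lit 1605240), (nat_lit 1602541), (nat_lit 1649422), (nat_lit 1647962), (nat_lit 1727168), (nat_lit 1716594), (nat_lit 1771478), (nat_lit 1762142)]⟩, ⟨(nat_lit 3), false, false, true, (nat_lit 149), (nat_lit 2236), (nat_lit 3163), [(nat_lit 1289472), (nat_lit 1294870), (nat_lit 1333702), (nat_lit 1340339), (nat_lit 1411379), (nat_lit 1408901), (nat_lit 1455689), (nat_lit 1454450)]⟩, (nat_lit 4896206), (nat_lit 39846885), (nat_lit 19675023), (nat_lit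 7478092), (nat_lit 0), (nat_lit 0), [], [], [], [],
 ⟨⟨[(nat_lit 40), (nat_lit 60), (nat_lit 80)], [(nat_lit 0), (nat_lit 832), (nat_lit 1534)], [((nat_lit 0), (nat_lit 0), (nat_lit 0)), ((nat_lit 1000), (nat_lit 659), (nat_lit 528)), ((nat_lit 1000), (nat_lit 650), (nat_lit 549))], ((nat_lit 63), (nat_lit 100), (nat_lit 62))⟩, (nat_lit 0), (nat_lit 82), (nat_lit 82), (nat_lit 0), (nat_lit 0), [(nat_lit 1526400009), (nat_lit 1534569766), (nat_lit 1705600000)], [(nat_lit 0), (nat_lit 0), (nat_lit 0)], [(nat_lit 22609172738), (nat_lit 23847098374), (nat_lit 25776258065), (nat_lit 26963803941), (nat_lit 23861111318), (nat_lit 24966313906), (nat_lit 26690760443), (nat_lit 27721405927)], (nat_lit 0), (nat_lit 0), (nat_lit 0), (nat_lit 0), (nat_lit 0), (nat_lit 0), [], [(nat_lit 2), (nat_lit 44), (nat_lit 260), (nat_lit 50), (nat_lit 10)]⟩,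
 Rw.none,
 Rw.none⟩)) (.leaf ⟨(nat_lit 804), (nat_lit 154), (nat_lit 0), (nat_lit 42), (nat_lit 0), (nat_lit 3077), (nat_lit 1632), (nat_lit 409), (nat_lit 0), (nat_lit 0), (nat_lit 424200), [((nat_lit 380), [((nat_lit 24), (nat_lit 1), (nat_lit 291)), ((nat_lit 41), (nat_lit 2), (nat_lit 513))])], ⟨(nat_lit 6), false, true, true, (nat_lit 274), (nat_lit 2236), (nat_lit 3163), [(nat_lit 1605240), (nat_lit 1602541), (nat_lit 1649422), (nat_lit 1647962), (nat_lit 1727168), (nat_lit 1716594), (nat_lit 1771478), (nat_lit 1762142)]⟩, ⟨(nat_lit 4), false, false, false, (nat_lit 163), (nat_lit 2236), (nat_lit 3163), [(nat_lit 1333702), (nat_lit 1340339), (nat_lit 1355794), (nat_lit 1363050), (nat_lit 1455689), (nat_lit 1454450), (nat_lit 1477844), (nat_lit 1477224)]⟩, (nat_lit 5018004), (nat_lit 39130898), (nat_lit 19421682), (nat_lit 8447420), (nat_lit 4), (nat_lit 0), [], [], [], [],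
 ⟨⟨[(nat_lit 40), (nat_lit 60), (nat_lit 80)], [(nat_lit 0), (nat_lit 832), (nat_lit 1534)], [((nat_lit 0), (nat_lit 0), (nat_lit 0)), ((nat_lit 1000), (nat_lit 659), (nat_lit 528)), ((nat_lit 1000), (nat_lit 650), (nat_lit 549))], ((nat_lit 63), (nat_lit 100), (nat_lit 62))⟩, (nat_lit 0), (nat_lit 82), (nat_lit 82), (nat_lit 0), (nat_lit 0), [(nat_lit 1416877641), (nat_lit 1322360855), (nat_lit 1169492000)], [(nat_lit 0), (nat_lit 0), (nat_lit 0)], [(nat_lit 22385492250), (nat_lit 23562562946), (nat_lit 25451788017), (nat_lit 26486153601), (nat_lit 23692028430), (nat_lit 24746061518), (nat_lit 26444052555), (nat_lit 27346435507)], (nat_lit 0), (nat_lit 0), (nat_lit 0), (nat_lit 0), (nat_lit 0), (nat_lit 0), [], [(nat_lit 2), (nat_lit 44), (nat_lit 260), (nat_lit 50), (nat_lit 10)]⟩,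
 ⟨⟨[(nat_lit 80), (nat_lit 120), (nat_lit 160)], [(nat_lit 0), (nat_lit 0), (nat_lit 2132)], [((nat_lit 0), (nat_lit 0), (nat_lit 0)), ((nat_lit 0), (nat_lit 0), (nat_lit 0)), ((nat_lit 858), (nat_lit 1000), (nat_lit 713))], ((nat_lit 100), (nat_lit 92), (nat_lit 61))⟩, (nat_lit 453225), (nat_lit 560), (nat_lit 560), (nat_lit 0), (nat_lit 686623), [(nat_lit 918848000), (nat_lit 1561728000), (nat_lit 2326912000)], [], [(nat_lit 7098012092), (nat_lit 7335395236), (nat_lit 7572778380), (nat_lit 7748577916), (nat_lit 7109441696), (nat_lit 6958738752), (nat_lit 7052994704), (nat_lit 7111603784)], (nat_lit 1271251), (nat_lit 1271251), (nat_lit 1271251), (nat_lit 1271251), (nat_lit 0), (nat_lit 2825001), [(nat_lit 1100000), (nat_lit 1785001), (nat_lit 1271251)], [(nat_lit 18), (nat_lit 59), (nat_lit 483), (nat_lit 250), (nat_lit 12)]⟩,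
 ⟨⟨[(nat_lit 120), (nat_lit 160), (nat_lit 180)], [(nat_lit 0), (nat_lit 0), (nat_lit 1613)], [((nat_lit 0), (nat_lit 0), (nat_lit 0)), ((nat_lit 0), (nat_lit 0), (nat_lit 0)), ((nat_lit 620), (nat_lit 1000), (nat_lit 670))], ((nat_lit 100), (nat_lit 68), (nat_lit 61))⟩, (nat_lit 18279), (nat_lit 300), (nat_lit 1602), (nat_lit 3116400), (nat_lit 2590183), [(nat_lit 334656000), (nat_lit 498624000), (nat_lit 590436000)], [], [(nat_lit 3209216195), (nat_lit 3184882373), (nat_lit 3099250288), (nat_lit 3074927824), (nat_lit 2695754923), (nat_lit 2671235435), (nat_lit 2868824006), (nat_lit 2998346416)], (nat_lit 1100000), (nat_lit 1271251), (nat_lit 780000), (nat_lit 1435001), (nat_lit 0), (nat_lit 2825001), [(nat_lit 1695001), (nat_lit 1271251), (nat_lit 1271251)], [(nat_lit 28), (nat_lit 65), (nat_lit 498), (nat_lit 200), (nat_lit 12)]⟩⟩)) (.stt (nat_lit 2) (.leaf ⟨(nat_lit 72), (nat_lit 928), (nat_lit 0), (nat_lit 0), (nat_lit 0), (nat_lit 4648), (nat_lit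 8328), (nat_lit 0), (nat_lit 0), (nat_lit 0), (nat_lit 18000), [((nat_lit 380), [((nat_lit 24), (nat_lit 0), (nat_lit 72))])], ⟨(nat_lit 6), true, false, true, (nat_lit 274), (nat_lit 2236), (nat_lit 3163), [(nat_lit 1605240), (nat_lit 1602541), (nat_lit 1649422), (nat_lit 1647962), (nat_lit 1727168), (nat_lit 1716594), (nat_lit 1771478), (nat_lit 1762142)]⟩, ⟨(nat_lit 5), false, false, true, (nat_lit 189), (nat_lit 2236), (nat_lit 3163), [(nat_lit 1411379), (nat_lit 1408901), (nat_lit 1477844), (nat_lit 1477224), (nat_lit 1472332), (nat_lit 1465917), (nat_lit 1538797), (nat_lit 1534240)]⟩, (nat_lit 5228979), (nat_lit 37694073), (nat_lit 18892879), (nat_lit 10413048), (nat_lit 5), (nat_lit 0), [], [], [⟨(nat_lit 1), (nat_lit 30), (nat_lit 98), (nat_lit 100), (nat_lit 206210817)⟩], [],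
 ⟨⟨[(nat_lit 40), (nat_lit 60), (nat_lit 80)], [(nat_lit 0), (nat_lit 832), (nat_lit 1534)], [((nat_lit 0), (nat_lit 0), (nat_lit 0)), ((nat_lit 1000), (nat_lit 659), (nat_lit 528)), ((nat_lit 1000), (nat_lit 650), (nat_lit 549))], ((nat_lit 63), (nat_lit 100), (nat_lit 62))⟩, (nat_lit 0), (nat_lit 56), (nat_lit 56), (nat_lit 0), (nat_lit 0), [(nat_lit 2118104995), (nat_lit 3144134420), (nat_lit 4473267200)], [(nat_lit 0), (nat_lit 0), (nat_lit 0)], [(nat_lit 24116636316), (nat_lit 25553591512), (nat_lit 27665525352), (nat_lit 28982764756), (nat_lit 25108497556), (nat_lit 26442478696), (nat_lit 28417932416), (nat_lit 29642475792)], (nat_lit 0), (nat_lit 0), (nat_lit 0), (nat_lit 0), (nat_lit 0), (nat_lit 0), [], [(nat_lit 2), (nat_lit 44), (nat_lit 203), (nat_lit 0), (nat_lit 7)]⟩,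
 ⟨⟨[(nat_lit 80), (nat_lit 120), (nat_lit 160)], [(nat_lit 0), (nat_lit 0), (nat_lit 2132)], [((nat_lit 0), (nat_lit 0), (nat_lit 0)), ((nat_lit 0), (nat_lit 0), (nat_lit 0)), ((nat_lit 858), (nat_lit 1000), (nat_lit 713))], ((nat_lit 100), (nat_lit 92), (nat_lit 61))⟩, (nat_lit 2799371), (nat_lit 223), (nat_lit 223), (nat_lit 0), (nat_lit 0), [(nat_lit 4350464000), (nat_lit 7394304000), (nat_lit 11017216000)], [], [(nat_lit 26490190052), (nat_lit 29012008724), (nat_lit 31533827396), (nat_lit 33438447204), (nat_lit 29683706944), (nat_lit 31394524624), (nat_lit 33105342304), (nat_lit 34362696320)], (nat_lit 0), (nat_lit 0), (nat_lit 0), (nat_lit 0), (nat_lit 0), (nat_lit 0), [], [(nat_lit 18), (nat_lit 59), (nat_lit 483), (nat_lit 250), (nat_lit 12)]⟩,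
 Rw.none⟩) (.spl (nat_lit 1) (nat_lit 260) (.leaf ⟨(nat_lit 896), (nat_lit 81), (nat_lit 0), (nat_lit 23), (nat_lit 0), (nat_lit 3176), (nat_lit 892), (nat_lit 267), (nat_lit 0), (nat_lit 0), (nat_lit 224000), [((nat_lit 380), [((nat_lit 24), (nat_lit 0), (nat_lit 896))])], ⟨(nat_lit 6), false, true, true, (nat_lit 270), (nat_lit 2236), (nat_lit 3163), [(nat_lit 1605240), (nat_lit 1602541), (nat_lit 1627331), (nat_lit 1625251), (nat_lit 1727168), (nat_lit 1716594), (nat_lit 1749323), (nat_lit 1739368)]⟩, ⟨(nat_lit 5), false, false, true, (nat_lit 189), (nat_lit 2236), (nat_lit 3163), [(nat_lit 1411379), (nat_lit 1408901), (nat_lit 1477844), (nat_lit 1477224), (nat_lit 1472332), (nat_lit 1465917), (nat_lit 1538797), (nat_lit 1534240)]⟩, (nat_lit 5213561), (nat_lit 38021572), (nat_lit 18501414), (nat_lit 10477014), (nat_lit 5), (nat_lit 0), [], [], [], [],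
 ⟨⟨[(nat_lit 40), (nat_lit 60), (nat_lit 80)], [(nat_lit 0), (nat_lit 832), (nat_lit 1534)], [((nat_lit 0), (nat_lit 0), (nat_lit 0)), ((nat_lit 1000), (nat_lit 659), (nat_lit 528)), ((nat_lit 1000), (nat_lit 650), (nat_lit 549))], ((nat_lit 63), (nat_lit 100), (nat_lit 62))⟩, (nat_lit 0), (nat_lit 56), (nat_lit 56), (nat_lit 0), (nat_lit 0), [(nat_lit 1554646455), (nat_lit 1566339252), (nat_lit 2015769600)], [(nat_lit 0), (nat_lit 0), (nat_lit 0)], [(nat_lit 23606925363), (nat_lit 24731736679), (nat_lit 26522694907), (nat_lit 27480564779), (nat_lit 24572394587), (nat_lit 25625167475), (nat_lit 27298328187), (nat_lit 28198006259)], (nat_lit 0), (nat_lit 0), (nat_lit 0), (nat_lit 0), (nat_lit 0), (nat_lit 0), [], [(nat_lit 2), (nat_lit 44), (nat_lit 203), (nat_lit 0), (nat_lit 7)]⟩,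
 ⟨⟨[(nat_lit 80), (nat_lit 120), (nat_lit 160)], [(nat_lit 0), (nat_lit 0), (nat_lit 2132)], [((nat_lit 0), (nat_lit 0), (nat_lit 0)), ((nat_lit 0), (nat_lit 0), (nat_lit 0)), ((nat_lit 858), (nat_lit 1000), (nat_lit 713))], ((nat_lit 100), (nat_lit 92), (nat_lit 61))⟩, (nat_lit 252589), (nat_lit 661), (nat_lit 661), (nat_lit 0), (nat_lit 869177), [(nat_lit 487552000), (nat_lit 828672000), (nat_lit 1234688000)], [], [(nat_lit 3939674428), (nat_lit 3979744688), (nat_lit 4099955468), (nat_lit 4127723868), (nat_lit 3748984144), (nat_lit 3696736788), (nat_lit 3729751728), (nat_lit 3733822496)], (nat_lit 1271251), (nat_lit 1271251), (nat_lit 1271251), (nat_lit 1271251), (nat_lit 0), (nat_lit 2825001), [(nat_lit 1100000), (nat_lit 1785001), (nat_lit 1271251)], [(nat_lit 18), (nat_lit 59), (nat_lit 483), (nat_lit 250), (nat_lit 12)]⟩,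
 ⟨⟨[(nat_lit 140), (nat_lit 180), (nat_lit 200)], [(nat_lit 0), (nat_lit 0), (nat_lit 2835)], [((nat_lit 0), (nat_lit 0), (nat_lit 0)), ((nat_lit 0), (nat_lit 0), (nat_lit 0)), ((nat_lit 363), (nat_lit 1000), (nat_lit 798))], ((nat_lit 0), (nat_lit 0), (nat_lit 0))⟩, (nat_lit 6328), (nat_lit 300), (nat_lit 1947), (nat_lit 1796301), (nat_lit 3217441), [(nat_lit 226366000), (nat_lit 323334000), (nat_lit 377200000)], [], [(nat_lit 1661817138), (nat_lit 1600877263), (nat_lit 1630487092), (nat_lit 1569222500), (nat_lit 1600979676), (nat_lit 1823797319), (nat_lit 1366770480), (nat_lit 1593886823)], (nat_lit 780000), (nat_lit 1271251), (nat_lit 1271251), (nat_lit 1271251), (nat_lit 0), (nat_lit 2825001), [(nat_lit 1977501), (nat_lit 1271251), (nat_lit 1271251)], [(nat_lit 32), (nat_lit 67), (nat_lit 590), (nat_lit 225), (nat_lit 12)]⟩⟩) (.trX (nat_lit 5) (nat_lit 1) (nat_lit 2) (nat_lit 96) (nat_lit 40) (nat_lit 100) (nat_lit 390) (.leaf ⟨(nat_lit 790),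 (nat_lit 177), (nat_lit 0), (nat_lit 33), (nat_lit 0), (nat_lit 3299), (nat_lit 1442), (nat_lit 346), (nat_lit 0), (nat_lit 0), (nat_lit 197500), [((nat_lit 380), [((nat_lit 24), (nat_lit 0), (nat_lit 790))])], ⟨(nat_lit 6), false, true, true, (nat_lit 279), (nat_lit 2236), (nat_lit 3163), [(nat_lit 1627331), (nat_lit 1625251), (nat_lit 1649422), (nat_lit 1647962), (nat_lit 1749323), (nat_lit 1739368), (nat_lit 1771478), (nat_lit 1762142)]⟩, ⟨(nat_lit 5), false, false, true, (nat_lit 189), (nat_lit 2236), (nat_lit 3163), [(nat_lit 1411379), (nat_lit 1408901), (nat_lit 1477844), (nat_lit 1477224), (nat_lit 1472332), (nat_lit 1465917), (nat_lit 1538797), (nat_lit 1534240)]⟩, (nat_lit 5243341), (nat_lit 37367888), (nat_lit 19283513), (nat_lit 10348599), (nat_lit 5), (nat_lit 0), [], [], [⟨(nat_lit 1), (nat_lit 59), (nat_lit 97), (nat_lit 100), (nat_lit 7378133)⟩], [],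
 ⟨⟨[(nat_lit 40), (nat_lit 60), (nat_lit 80)], [(nat_lit 0), (nat_lit 832), (nat_lit 1534)], [((nat_lit 0), (nat_lit 0), (nat_lit 0)), ((nat_lit 1000), (nat_lit 659), (nat_lit 528)), ((nat_lit 1000), (nat_lit 650), (nat_lit 549))], ((nat_lit 63), (nat_lit 100), (nat_lit 62))⟩, (nat_lit 0), (nat_lit 56), (nat_lit 56), (nat_lit 0), (nat_lit 0), [(nat_lit 1583436012), (nat_lit 1769308012), (nat_lit 2331904000)], [(nat_lit 0), (nat_lit 0), (nat_lit 0)], [(nat_lit 23689620718), (nat_lit 24833391377), (nat_lit 26635352324), (nat_lit 27607646652), (nat_lit 24655185144), (nat_lit 25724992056), (nat_lit 27406253794), (nat_lit 28318828047)], (nat_lit 0), (nat_lit 0), (nat_lit 0), (nat_lit 0), (nat_lit 0), (nat_lit 0), [], [(nat_lit 2), (nat_lit 44), (nat_lit 203), (nat_lit 0), (nat_lit 7)]⟩,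
 ⟨⟨[(nat_lit 80), (nat_lit 120), (nat_lit 140)], [(nat_lit 0), (nat_lit 528), (nat_lit 1572)], [((nat_lit 0), (nat_lit 0), (nat_lit 0)), ((nat_lit 1000), (nat_lit 959), (nat_lit 206)), ((nat_lit 966), (nat_lit 1000), (nat_lit 679))], ((nat_lit 100), (nat_lit 99), (nat_lit 63))⟩, (nat_lit 872324), (nat_lit 573), (nat_lit 573), (nat_lit 0), (nat_lit 831454), [(nat_lit 984480000), (nat_lit 1673280000), (nat_lit 2066820000)], [], [(nat_lit 7008868080), (nat_lit 7113083128), (nat_lit 7402221768), (nat_lit 7482930312), (nat_lit 6974940510), (nat_lit 7009481676), (nat_lit 7100194279), (nat_lit 7122778268)], (nat_lit 1271251), (nat_lit 1271251), (nat_lit 1271251), (nat_lit 1271251), (nat_lit 0), (nat_lit 2754376), [(nat_lit 1100000), (nat_lit 1785001), (nat_lit 1271251)], [(nat_lit 17), (nat_lit 58), (nat_lit 483), (nat_lit 250), (nat_lit 14)]⟩,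
 ⟨⟨[(nat_lit 140), (nat_lit 180), (nat_lit 200)], [(nat_lit 0), (nat_lit 0), (nat_lit 2835)], [((nat_lit 0), (nat_lit 0), (nat_lit 0)), ((nat_lit 0), (nat_lit 0), (nat_lit 0)), ((nat_lit 363), (nat_lit 1000), (nat_lit 798))], ((nat_lit 0), (nat_lit 0), (nat_lit 0))⟩, (nat_lit 9079), (nat_lit 300), (nat_lit 2128), (nat_lit 2577306), (nat_lit 3576602), [(nat_lit 324786000), (nat_lit 463914000), (nat_lit 541200000)], [], [(nat_lit 2762904937), (nat_lit 2692737329), (nat_lit 2719419940), (nat_lit 2649450799), (nat_lit 2325342131), (nat_lit 2507664405), (nat_lit 2282901366), (nat_lit 2215112713)], (nat_lit 780000), (nat_lit 1271251), (nat_lit 1271251), (nat_lit 1271251), (nat_lit 0), (nat_lit 2754376), [(nat_lit 1977501), (nat_lit 1271251), (nat_lit 1271251)], [(nat_lit 32), (nat_lit 67), (nat_lit 634), (nat_lit 225), (nat_lit 13)]⟩⟩)))))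
noncomputable def c17_30 : Tr Lf :=
 (.trX (nat_lit 5) (nat_lit 3) (nat_lit 4) (nat_lit 82) (nat_lit 44) (nat_lit 100) (nat_lit 390) (.spl (nat_lit 2) (nat_lit 160) (.spl (nat_lit 4) (nat_lit 200) (.trX (nat_lit 5) (nat_lit 3) (nat_lit 4) (nat_lit 80) (nat_lit 60) (nat_lit 100) (nat_lit 360) (.spl (nat_lit 4) (nat_lit 160) (.trX (nat_lit 5) (nat_lit 3) (nat_lit 4) (nat_lit 82) (nat_lit 76) (nat_lit 100) (nat_lit 340) (.leaf ⟨(nat_lit 874), (nat_lit 126), (nat_lit 0), (nat_lit 0), (nat_lit 0), (nat_lit 3273), (nat_lit 1084), (nat_lit 0), (nat_lit 0), (nat_lit 0), (nat_lit 254950), [((nat_lit 380), [((nat_lit 24), (nat_lit 0), (nat_lit 631)), ((nat_lit 24), (nat_lit 1), (nat_lit 243))])], ⟨(nat_lit 8), false, true, true, (nat_lit 315), (nat_lit 2236), (nat_lit 3163), [(nat_lit 1727168), (nat_lit 1716594), (nat_lit 1771478), (nat_lit 1762142), (nat_lit 1818598), (nat_lit 1802117), (nat_lit 1862908), (nat_lit 1847666)]⟩, ⟨(nat_lit 3), false, false,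 false, (nat_lit 138), (nat_lit 2236), (nat_lit 3163), [(nat_lit 1289472), (nat_lit 1294870), (nat_lit 1333702), (nat_lit 1340339), (nat_lit 1350426), (nat_lit 1351886), (nat_lit 1394735), (nat_lit 1397434)]⟩, (nat_lit 4893624), (nat_lit 37066988), (nat_lit 23663772), (nat_lit 6269240), (nat_lit 3), (nat_lit 0), [⟨(nat_lit 1), (nat_lit 68), (nat_lit 55), (nat_lit 100), (nat_lit 305048409)⟩], [], [], [⟨(nat_lit 1), (nat_lit 96), (nat_lit 69), (nat_lit 100), (nat_lit 18383032)⟩],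
 ⟨⟨[(nat_lit 40), (nat_lit 60), (nat_lit 80)], [(nat_lit 0), (nat_lit 832), (nat_lit 1534)], [((nat_lit 0), (nat_lit 0), (nat_lit 0)), ((nat_lit 1000), (nat_lit 659), (nat_lit 528)), ((nat_lit 1000), (nat_lit 650), (nat_lit 549))], ((nat_lit 63), (nat_lit 100), (nat_lit 62))⟩, (nat_lit 0), (nat_lit 100), (nat_lit 100), (nat_lit 0), (nat_lit 0), [(nat_lit 1524074402), (nat_lit 1739846302), (nat_lit 1898840800)], [(nat_lit 0), (nat_lit 0), (nat_lit 0)], [(nat_lit 26113479626), (nat_lit 27139371862), (nat_lit 28916441592), (nat_lit 29931930296), (nat_lit 26330890836), (nat_lit 27309333321), (nat_lit 29007062243), (nat_lit 29856801227)], (nat_lit 0), (nat_lit 0), (nat_lit 0), (nat_lit 0), (nat_lit 0), (nat_lit 0), [], [(nat_lit 2), (nat_lit 44), (nat_lit 249), (nat_lit 40), (nat_lit 9)]⟩,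
 ⟨⟨[(nat_lit 80), (nat_lit 120), (nat_lit 160)], [(nat_lit 0), (nat_lit 0), (nat_lit 2132)], [((nat_lit 0), (nat_lit 0), (nat_lit 0)), ((nat_lit 0), (nat_lit 0), (nat_lit 0)), ((nat_lit 858), (nat_lit 1000), (nat_lit 713))], ((nat_lit 100), (nat_lit 92), (nat_lit 61))⟩, (nat_lit 252272), (nat_lit 653), (nat_lit 653), (nat_lit 0), (nat_lit 879509), [(nat_lit 590688000), (nat_lit 1003968000), (nat_lit 1495872000)], [], [(nat_lit 5071537424), (nat_lit 5138734488), (nat_lit 5307989750), (nat_lit 5372376937), (nat_lit 4350449456), (nat_lit 4370333017), (nat_lit 4524498334), (nat_lit 4604019698)], (nat_lit 1271251), (nat_lit 1271251), (nat_lit 1271251), (nat_lit 1271251), (nat_lit 0), (nat_lit 2401251), [(nat_lit 1100000), (nat_lit 1785001), (nat_lit 1271251)], [(nat_lit 18), (nat_lit 59), (nat_lit 401), (nat_lit 175), (nat_lit 10)]⟩,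
 Rw.none⟩)) (.trZ (nat_lit 3) (nat_lit 4) (nat_lit 5) (nat_lit 100) (nat_lit 82) (nat_lit 44) (nat_lit 10) (.spl (nat_lit 1) (nat_lit 260) (.trX (nat_lit 3) (nat_lit 0) (nat_lit 1) (nat_lit 63) (nat_lit 61) (nat_lit 100) (nat_lit 370) (.leaf ⟨(nat_lit 898), (nat_lit 102), (nat_lit 0), (nat_lit 0), (nat_lit 0), (nat_lit 3312), (nat_lit 894), (nat_lit 0), (nat_lit 0), (nat_lit 0), (nat_lit 242200), [((nat_lit 380), [((nat_lit 24), (nat_lit 0), (nat_lit 780)), ((nat_lit 24), (nat_lit 1), (nat_lit 118))])], ⟨(nat_lit 8), false, true, true, (nat_lit 308), (nat_lit 2236), (nat_lit 3163), [(nat_lit 1727168), (nat_lit 1716594), (nat_lit 1749323), (nat_lit 1739368), (nat_lit 1803360), (nat_lit 1787863), (nat_lit 1825515), (nat_lit 1810637)]⟩, ⟨(nat_lit 4), false, false, true, (nat_lit 161), (nat_lit 2236), (nat_lit 3163), [(nat_lit 1350426), (nat_lit 1351886), (nat_lit 1394735), (nat_lit 1397434), (nat_lit 1411379), (nat_lit 1408901), (nat_lit 1455689),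 (nat_lit 1454450)]⟩, (nat_lit 5093885), (nat_lit 36592002), (nat_lit 22475020), (nat_lit 7932978), (nat_lit 4), (nat_lit 0), [⟨(nat_lit 1), (nat_lit 71), (nat_lit 54), (nat_lit 100), (nat_lit 315964851)⟩], [], [], [⟨(nat_lit 1), (nat_lit 79), (nat_lit 69), (nat_lit 100), (nat_lit 17744961)⟩],
 ⟨⟨[(nat_lit 40), (nat_lit 60), (nat_lit 80)], [(nat_lit 0), (nat_lit 832), (nat_lit 1534)], [((nat_lit 0), (nat_lit 0), (nat_lit 0)), ((nat_lit 1000), (nat_lit 659), (nat_lit 528)), ((nat_lit 1000), (nat_lit 650), (nat_lit 549))], ((nat_lit 63), (nat_lit 100), (nat_lit 62))⟩, (nat_lit 0), (nat_lit 85), (nat_lit 85), (nat_lit 0), (nat_lit 0), [(nat_lit 1536356011), (nat_lit 1692763215), (nat_lit 1921163200)], [(nat_lit 0), (nat_lit 0), (nat_lit 0)], [(nat_lit 26324024507), (nat_lit 27307125347), (nat_lit 28563982037), (nat_lit 29438185592), (nat_lit 27054794395), (nat_lit 27981597427), (nat_lit 29169546900), (nat_lit 29995912929)], (nat_lit 0), (nat_lit 0),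 (nat_lit 0), (nat_lit 0), (nat_lit 0), (nat_lit 0), [], [(nat_lit 2), (nat_lit 44), (nat_lit 203), (nat_lit 0), (nat_lit 6)]⟩,
 ⟨⟨[(nat_lit 80), (nat_lit 120), (nat_lit 160)], [(nat_lit 0), (nat_lit 0), (nat_lit 2132)], [((nat_lit 0), (nat_lit 0), (nat_lit 0)), ((nat_lit 0), (nat_lit 0), (nat_lit 0)), ((nat_lit 858), (nat_lit 1000), (nat_lit 713))], ((nat_lit 100), (nat_lit 92), (nat_lit 61))⟩, (nat_lit 208834), (nat_lit 642), (nat_lit 642), (nat_lit 0), (nat_lit 869177), [(nat_lit 478176000), (nat_lit 812736000), (nat_lit 1210944000)], [], [(nat_lit 3988983178), (nat_lit 4015668493), (nat_lit 4148109392), (nat_lit 4166594345), (nat_lit 3489704376), (nat_lit 3498776320), (nat_lit 3685862410), (nat_lit 3716379041)], (nat_lit 1271251), (nat_lit 1271251), (nat_lit 1271251), (nat_lit 1271251), (nat_lit 54688), (nat_lit 2559376), [(nat_lit 1100000), (nat_lit 1785001), (nat_lit 1271251)], [(nat_lit 18), (nat_lit 59), (nat_lit 401), (nat_lit 175), (nat_lit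 10)]⟩,
 Rw.none⟩)) (.leaf ⟨(nat_lit 774), (nat_lit 226), (nat_lit 0), (nat_lit 0), (nat_lit 0), (nat_lit 3186), (nat_lit 1582), (nat_lit 0), (nat_lit 0), (nat_lit 0), (nat_lit 309600), [((nat_lit 380), [((nat_lit 24), (nat_lit 1), (nat_lit 774))])], ⟨(nat_lit 8), false, true, true, (nat_lit 320), (nat_lit 2236), (nat_lit 3163), [(nat_lit 1749323), (nat_lit 1739368), (nat_lit 1771478), (nat_lit 1762142), (nat_lit 1840753), (nat_lit 1824891), (nat_lit 1862908), (nat_lit 1847666)]⟩, ⟨(nat_lit 4), false, false, true, (nat_lit 161), (nat_lit 2236), (nat_lit 3163), [(nat_lit 1350426), (nat_lit 1351886), (nat_lit 1394735), (nat_lit 1397434), (nat_lit 1411379), (nat_lit 1408901), (nat_lit 1455689), (nat_lit 1454450)]⟩, (nat_lit 5112185), (nat_lit 35692418), (nat_lit 23517739), (nat_lit 7789843), (nat_lit 4), (nat_lit 0), [⟨(nat_lit 1), (nat_lit 65), (nat_lit 56), (nat_lit 100), (nat_lit 169468932)⟩], [], [], [⟨(nat_lit 1), (nat_lit 82), (nat_lit 66), (nat_lit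 100), (nat_lit 53265469)⟩],
 ⟨⟨[(nat_lit 40), (nat_lit 60), (nat_lit 80)], [(nat_lit 0), (nat_lit 832), (nat_lit 1534)], [((nat_lit 0), (nat_lit 0), (nat_lit 0)), ((nat_lit 1000), (nat_lit 659), (nat_lit 528)), ((nat_lit 1000), (nat_lit 650), (nat_lit 549))], ((nat_lit 63), (nat_lit 100), (nat_lit 62))⟩, (nat_lit 0), (nat_lit 88), (nat_lit 88), (nat_lit 0), (nat_lit 0), [(nat_lit 1471372088), (nat_lit 1711654947), (nat_lit 1798193600)], [(nat_lit 0), (nat_lit 0), (nat_lit 0)], [(nat_lit 26270052076), (nat_lit 27238102846), (nat_lit 28919950309), (nat_lit 29760874041), (nat_lit 27006463740), (nat_lit 27919682586), (nat_lit 29509982883), (nat_lit 30305133032)], (nat_lit 0), (nat_lit 0), (nat_lit 0), (nat_lit 0), (nat_lit 0), (nat_lit 0), [], [(nat_lit 2), (nat_lit 44), (nat_lit 203), (nat_lit 0), (nat_lit 6)]⟩,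
 ⟨⟨[(nat_lit 80), (nat_lit 120), (nat_lit 140)], [(nat_lit 0), (nat_lit 528), (nat_lit 1572)], [((nat_lit 0), (nat_lit 0), (nat_lit 0)), ((nat_lit 1000), (nat_lit 959), (nat_lit 206)), ((nat_lit 966), (nat_lit 1000), (nat_lit 679))], ((nat_lit 100), (nat_lit 99), (nat_lit 63))⟩, (nat_lit 720473), (nat_lit 562), (nat_lit 562), (nat_lit 0), (nat_lit 831454), [(nat_lit 1059488000), (nat_lit 1800768000), (nat_lit 2224292000)], [], [(nat_lit 8113149509), (nat_lit 8199149628), (nat_lit 8558152627), (nat_lit 8643452987), (nat_lit 7706507257), (nat_lit 7737365184), (nat_lit 8021002953), (nat_lit 8059097059)], (nat_lit 1271251), (nat_lit 1271251), (nat_lit 1271251), (nat_lit 1271251), (nat_lit 54688), (nat_lit 2559376), [(nat_lit 1100000), (nat_lit 1785001), (nat_lit 1271251)], [(nat_lit 17), (nat_lit 58), (nat_lit 401), (nat_lit 175), (nat_lit 11)]⟩,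
 Rw.none⟩))))) (.trZ (nat_lit 3) (nat_lit 4) (nat_lit 5) (nat_lit 100) (nat_lit 80) (nat_lit 60) (nat_lit 40) (.stt (nat_lit 2) (.leaf ⟨(nat_lit 0), (nat_lit 1000), (nat_lit 0), (nat_lit 0), (nat_lit 0), (nat_lit 5664), (nat_lit 8350), (nat_lit 0), (nat_lit 0), (nat_lit 0), (nat_lit 0), [], Pd.none, Pd.none, (nat_lit 0), (nat_lit 1), (nat_lit 0), (nat_lit 0), (nat_lit 5), (nat_lit 0), [⟨(nat_lit 1), (nat_lit 68), (nat_lit 55), (nat_lit 100), (nat_lit 61018229)⟩], [], [⟨(nat_lit 1), (nat_lit 40), (nat_lit 100), (nat_lit 100), (nat_lit 64301332)⟩], [⟨(nat_lit 1), (nat_lit 68), (nat_lit 66), (nat_lit 100), (nat_lit 252714228)⟩],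
 ⟨⟨[(nat_lit 40), (nat_lit 60), (nat_lit 80)], [(nat_lit 0), (nat_lit 832), (nat_lit 1534)], [((nat_lit 0), (nat_lit 0), (nat_lit 0)), ((nat_lit 1000), (nat_lit 659), (nat_lit 528)), ((nat_lit 1000), (nat_lit 650), (nat_lit 549))], ((nat_lit 63), (nat_lit 100), (nat_lit 62))⟩, (nat_lit 0), (nat_lit 82), (nat_lit 82), (nat_lit 0), (nat_lit 0), [(nat_lit 2379381961), (nat_lit 3611221113), (nat_lit 4688000000)], [], [(nat_lit 28845897240), (nat_lit 30096545172), (nat_lit 32478005052), (nat_lit 33696500274), (nat_lit 29479113968), (nat_lit 30640090256), (nat_lit 32902820688), (nat_lit 34034185904)], (nat_lit 0), (nat_lit 0), (nat_lit 0), (nat_lit 0), (nat_lit 0), (nat_lit 0), [], [(nat_lit 2), (nat_lit 44), (nat_lit 203), (nat_lit 0), (nat_lit 6)]⟩,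
 ⟨⟨[(nat_lit 80), (nat_lit 120), (nat_lit 160)], [(nat_lit 0), (nat_lit 0), (nat_lit 2132)], [((nat_lit 0), (nat_lit 0), (nat_lit 0)), ((nat_lit 0), (nat_lit 0), (nat_lit 0)), ((nat_lit 858), (nat_lit 1000), (nat_lit 713))], ((nat_lit 100), (nat_lit 92), (nat_lit 61))⟩, (nat_lit 2733407), (nat_lit 212), (nat_lit 212), (nat_lit 0), (nat_lit 0), [(nat_lit 4688000000), (nat_lit 7968000000), (nat_lit 11872000000)], [], [(nat_lit 31252110676), (nat_lit 33197024526), (nat_lit 36225013501), (nat_lit 37695941151), (nat_lit 34128927500), (nat_lit 35541196000), (nat_lit 38149867082), (nat_lit 39172072338)], (nat_lit 0), (nat_lit 0), (nat_lit 0), (nat_lit 0), (nat_lit 0), (nat_lit 0), [], [(nat_lit 18), (nat_lit 59), (nat_lit 401), (nat_lit 175), (nat_lit 10)]⟩,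
 Rw.none⟩) (.spl (nat_lit 1) (nat_lit 260) (.trX (nat_lit 3) (nat_lit 0) (nat_lit 1) (nat_lit 63) (nat_lit 61) (nat_lit 100) (nat_lit 370) (.leaf ⟨(nat_lit 874), (nat_lit 100), (nat_lit 0), (nat_lit 26), (nat_lit 0), (nat_lit 3269), (nat_lit 1065), (nat_lit 279), (nat_lit 0), (nat_lit 0), (nat_lit 317350), [((nat_lit 380), [((nat_lit 24), (nat_lit 0), (nat_lit 215)), ((nat_lit 24), (nat_lit 1), (nat_lit 659))])], ⟨(nat_lit 8), false, true, true, (nat_lit 308), (nat_lit 2236), (nat_lit 3163), [(nat_lit 1727168), (nat_lit 1716594), (nat_lit 1749323), (nat_lit 1739368), (nat_lit 1803360), (nat_lit 1787863), (nat_lit 1825515), (nat_lit 1810637)]⟩, ⟨(nat_lit 5), false, false, true, (nat_lit 185), (nat_lit 2236), (nat_lit 3163), [(nat_lit 1411379), (nat_lit 1408901), (nat_lit 1455689), (nat_lit 1454450), (nat_lit 1472332), (nat_lit 1465917), (nat_lit 1516642), (nat_lit 1511466)]⟩, (nat_lit 5280204), (nat_lit 35483248), (nat_lit 21922304), (nat_lit 9594448),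 (nat_lit 5), (nat_lit 0), [⟨(nat_lit 1), (nat_lit 71), (nat_lit 54), (nat_lit 100), (nat_lit 382219329)⟩], [], [], [],
 ⟨⟨[(nat_lit 40), (nat_lit 60), (nat_lit 80)], [(nat_lit 0), (nat_lit 832), (nat_lit 1534)], [((nat_lit 0), (nat_lit 0), (nat_lit 0)), ((nat_lit 1000), (nat_lit 659), (nat_lit 528)), ((nat_lit 1000), (nat_lit 650), (nat_lit 549))], ((nat_lit 63), (nat_lit 100), (nat_lit 62))⟩, (nat_lit 0), (nat_lit 79), (nat_lit 79), (nat_lit 0), (nat_lit 0), [(nat_lit 1461508017), (nat_lit 1474338055), (nat_lit 1586341600)], [(nat_lit 0), (nat_lit 0), (nat_lit 0)], [(nat_lit 26692773875), (nat_lit 27614941034), (nat_lit 28955370511), (nat_lit 29939396089), (nat_lit 27425469131), (nat_lit 28291838744), (nat_lit 29612153492), (nat_lit 30535605157)], (nat_lit 0), (nat_lit 0), (nat_lit 0), (nat_lit 0), (nat_lit 0), (nat_lit 0), [], [(nat_lit 2), (nat_lit 44), (nat_lit 203), (nat_lit 0), (nat_lit 6)]⟩,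
 ⟨⟨[(nat_lit 80), (nat_lit 120), (nat_lit 160)], [(nat_lit 0), (nat_lit 0), (nat_lit 2132)], [((nat_lit 0), (nat_lit 0), (nat_lit 0)), ((nat_lit 0), (nat_lit 0), (nat_lit 0)), ((nat_lit 858), (nat_lit 1000), (nat_lit 713))], ((nat_lit 100), (nat_lit 92), (nat_lit 61))⟩, (nat_lit 234431), (nat_lit 592), (nat_lit 592), (nat_lit 0), (nat_lit 869177), [(nat_lit 590688000), (nat_lit 1003968000), (nat_lit 1495872000)], [], [(nat_lit 4907200640), (nat_lit 4939625366), (nat_lit 5096469272), (nat_lit 5119309628), (nat_lit 4575229537), (nat_lit 4573101625), (nat_lit 4778578189), (nat_lit 4808032443)], (nat_lit 1271251), (nat_lit 1271251), (nat_lit 1271251), (nat_lit 1271251), (nat_lit 230000), (nat_lit 2833126), [(nat_lit 1100000), (nat_lit 1785001), (nat_lit 1271251)], [(nat_lit 18), (nat_lit 59), (nat_lit 401), (nat_lit 175), (nat_lit 10)]⟩,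
 ⟨⟨[(nat_lit 140), (nat_lit 180), (nat_lit 200)], [(nat_lit 0), (nat_lit 0), (nat_lit 2835)], [((nat_lit 0), (nat_lit 0), (nat_lit 0)), ((nat_lit 0), (nat_lit 0), (nat_lit 0)), ((nat_lit 363), (nat_lit 1000), (nat_lit 798))], ((nat_lit 0), (nat_lit 0), (nat_lit 0))⟩, (nat_lit 7153), (nat_lit 300), (nat_lit 1922), (nat_lit 2030607), (nat_lit 3217441), [(nat_lit 255892000), (nat_lit 365508000), (nat_lit 426400000)], [], [(nat_lit 1996064867), (nat_lit 1955660415), (nat_lit 1960303332), (nat_lit 1920021139), (nat_lit 1849207648), (nat_lit 1995590481), (nat_lit 1649564738), (nat_lit 1753119533)], (nat_lit 780000), (nat_lit 1100000), (nat_lit 1271251), (nat_lit 1271251), (nat_lit 230000), (nat_lit 2833126), [(nat_lit 1977501), (nat_lit 1271251), (nat_lit 1271251)], [(nat_lit 32), (nat_lit 67), (nat_lit 580), (nat_lit 200), (nat_lit 12)]⟩⟩)) (.trX (nat_lit 5) (nat_lit 1) (nat_lit 2) (nat_lit 97) (nat_lit 49) (nat_lit 100) (nat_lit 380) (.leaf ⟨(nat_lit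 710), (nat_lit 245), (nat_lit 0), (nat_lit 45), (nat_lit 0), (nat_lit 2945), (nat_lit 2003), (nat_lit 477), (nat_lit 0), (nat_lit 0), (nat_lit 426000), [((nat_lit 380), [((nat_lit 41), (nat_lit 2), (nat_lit 710))])], ⟨(nat_lit 8), false, true, true, (nat_lit 320), (nat_lit 2236), (nat_lit 3163), [(nat_lit 1749323), (nat_lit 1739368), (nat_lit 1771478), (nat_lit 1762142), (nat_lit 1840753), (nat_lit 1824891), (nat_lit 1862908), (nat_lit 1847666)]⟩, ⟨(nat_lit 5), false, false, true, (nat_lit 185), (nat_lit 2236), (nat_lit 3163), [(nat_lit 1411379), (nat_lit 1408901), (nat_lit 1455689), (nat_lit 1454450), (nat_lit 1472332), (nat_lit 1465917), (nat_lit 1516642), (nat_lit 1511466)]⟩, (nat_lit 5297006), (nat_lit 34640571), (nat_lit 22937933), (nat_lit 9421496), (nat_lit 5), (nat_lit 0), [⟨(nat_lit 1), (nat_lit 65), (nat_lit 56), (nat_lit 100), (nat_lit 202251517)⟩], [⟨(nat_lit 1), (nat_lit 100), (nat_lit 54), (nat_lit 98), (nat_lit 120964118)⟩], [⟨(nat_lit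 1), (nat_lit 64), (nat_lit 98), (nat_lit 100), (nat_lit 17118468)⟩], [],
 ⟨⟨[(nat_lit 40), (nat_lit 60), (nat_lit 80)], [(nat_lit 0), (nat_lit 832), (nat_lit 1534)], [((nat_lit 0), (nat_lit 0), (nat_lit 0)), ((nat_lit 1000), (nat_lit 659), (nat_lit 528)), ((nat_lit 1000), (nat_lit 650), (nat_lit 549))], ((nat_lit 63), (nat_lit 100), (nat_lit 62))⟩, (nat_lit 3078), (nat_lit 82), (nat_lit 82), (nat_lit 0), (nat_lit 0), [(nat_lit 1471584017), (nat_lit 1387982458), (nat_lit 1322032000)], [(nat_lit 0), (nat_lit 0), (nat_lit 0)], [(nat_lit 26792848855), (nat_lit 27680085250), (nat_lit 29230984578), (nat_lit 30006434242), (nat_lit 27540051535), (nat_lit 28375259800), (nat_lit 29839204458), (nat_lit 30572546114)], (nat_lit 0), (nat_lit 0), (nat_lit 0), (nat_lit 0), (nat_lit 0), (nat_lit 0), [], [(nat_lit 2), (nat_lit 44), (nat_lit 203), (nat_lit 0), (nat_lit 6)]⟩,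
 ⟨⟨[(nat_lit 80), (nat_lit 120), (nat_lit 140)], [(nat_lit 0), (nat_lit 528), (nat_lit 1572)], [((nat_lit 0), (nat_lit 0), (nat_lit 0)), ((nat_lit 1000), (nat_lit 959), (nat_lit 206)), ((nat_lit 966), (nat_lit 1000), (nat_lit 679))], ((nat_lit 100), (nat_lit 99), (nat_lit 63))⟩, (nat_lit 904761), (nat_lit 526), (nat_lit 526), (nat_lit 0), (nat_lit 831454), [(nat_lit 1359520000), (nat_lit 2310720000), (nat_lit 2854180000)], [], [(nat_lit 10238773894), (nat_lit 10346041500), (nat_lit 10792728637), (nat_lit 10875031785), (nat_lit 10166217227), (nat_lit 10198522537), (nat_lit 10540444310), (nat_lit 10638507918)], (nat_lit 1271251), (nat_lit 1271251), (nat_lit 1271251), (nat_lit 1271251), (nat_lit 230000), (nat_lit 2758751), [(nat_lit 1100000), (nat_lit 1785001), (nat_lit 1271251)], [(nat_lit 17), (nat_lit 58), (nat_lit 401), (nat_lit 175), (nat_lit 11)]⟩,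
 ⟨⟨[(nat_lit 140), (nat_lit 180), (nat_lit 200)], [(nat_lit 0), (nat_lit 0), (nat_lit 2835)], [((nat_lit 0), (nat_lit 0), (nat_lit 0)), ((nat_lit 0), (nat_lit 0), (nat_lit 0)), ((nat_lit 363), (nat_lit 1000), (nat_lit 798))], ((nat_lit 0), (nat_lit 0), (nat_lit 0))⟩, (nat_lit 12381), (nat_lit 300), (nat_lit 2103), (nat_lit 3514500), (nat_lit 3576602), [(nat_lit 442890000), (nat_lit 632610000), (nat_lit 738000000)], [], [(nat_lit 3600477993), (nat_lit 3533605850), (nat_lit 3540590763), (nat_lit 3473930220), (nat_lit 3141338121), (nat_lit 3390975936), (nat_lit 3032080421), (nat_lit 2975115411)], (nat_lit 780000), (nat_lit 1100000), (nat_lit 1271251), (nat_lit 1271251), (nat_lit 230000), (nat_lit 2758751), [(nat_lit 1977501), (nat_lit 1271251), (nat_lit 1271251)], [(nat_lit 32), (nat_lit 67), (nat_lit 624), (nat_lit 200), (nat_lit 13)]⟩⟩)))))) (.spl (nat_lit 1) (nat_lit 260) (.trX (nat_lit 3) (nat_lit 0) (nat_lit 1) (nat_lit 63) (nat_lit 61) (nat_lit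 100) (nat_lit 370) (.leaf ⟨(nat_lit 858), (nat_lit 105), (nat_lit 0), (nat_lit 37), (nat_lit 0), (nat_lit 3208), (nat_lit 1163), (nat_lit 372), (nat_lit 0), (nat_lit 0), (nat_lit 343200), [((nat_lit 380), [((nat_lit 24), (nat_lit 1), (nat_lit 858))])], ⟨(nat_lit 8), false, true, true, (nat_lit 308), (nat_lit 2236), (nat_lit 3163), [(nat_lit 1727168), (nat_lit 1716594), (nat_lit 1749323), (nat_lit 1739368), (nat_lit 1803360), (nat_lit 1787863), (nat_lit 1825515), (nat_lit 1810637)]⟩, ⟨(nat_lit 4), false, false, true, (nat_lit 175), (nat_lit 2236), (nat_lit 3163), [(nat_lit 1333702), (nat_lit 1340339), (nat_lit 1355794), (nat_lit 1363050), (nat_lit 1516642), (nat_lit 1511466), (nat_lit 1538797), (nat_lit 1534240)]⟩, (nat_lit 5203529), (nat_lit 35963185), (nat_lit 22163445), (nat_lit 8873370), (nat_lit 4), (nat_lit 0), [⟨(nat_lit 1), (nat_lit 71), (nat_lit 54), (nat_lit 100), (nat_lit 365242380)⟩], [], [], [],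
 ⟨⟨[(nat_lit 40), (nat_lit 60), (nat_lit 80)], [(nat_lit 0), (nat_lit 832), (nat_lit 1534)], [((nat_lit 0), (nat_lit 0), (nat_lit 0)), ((nat_lit 1000), (nat_lit 659), (nat_lit 528)), ((nat_lit 1000), (nat_lit 650), (nat_lit 549))], ((nat_lit 63), (nat_lit 100), (nat_lit 62))⟩, (nat_lit 0), (nat_lit 97), (nat_lit 97), (nat_lit 0), (nat_lit 0), [(nat_lit 1435924013), (nat_lit 1509283775), (nat_lit 1484571200)], [(nat_lit 0), (nat_lit 0), (nat_lit 0)], [(nat_lit 25669046917), (nat_lit 26686552073), (nat_lit 28209397058), (nat_lit 29293584972), (nat_lit 27368441261), (nat_lit 28228944077), (nat_lit 29543701686), (nat_lit 30460905037)], (nat_lit 0), (nat_lit 0), (nat_lit 0), (nat_lit 0), (nat_lit 0), (nat_lit 0), [], [(nat_lit 2), (nat_lit 44), (nat_lit 272), (nat_lit 60), (nat_lit 10)]⟩,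
 ⟨⟨[(nat_lit 80), (nat_lit 120), (nat_lit 160)], [(nat_lit 0), (nat_lit 0), (nat_lit 2132)], [((nat_lit 0), (nat_lit 0), (nat_lit 0)), ((nat_lit 0), (nat_lit 0), (nat_lit 0)), ((nat_lit 858), (nat_lit 1000), (nat_lit 713))], ((nat_lit 100), (nat_lit 92), (nat_lit 61))⟩, (nat_lit 298468), (nat_lit 552), (nat_lit 552), (nat_lit 0), (nat_lit 677282), [(nat_lit 665696000), (nat_lit 1131456000), (nat_lit 1685824000)], [], [(nat_lit 5587422648), (nat_lit 5651051621), (nat_lit 5896968106), (nat_lit 5945924688), (nat_lit 5136311149), (nat_lit 5148080650), (nat_lit 5323478843), (nat_lit 5370182773)], (nat_lit 1271251), (nat_lit 1271251), (nat_lit 1271251), (nat_lit 1271251), (nat_lit 0), (nat_lit 2754376), [(nat_lit 1100000), (nat_lit 1785001), (nat_lit 1271251)], [(nat_lit 18), (nat_lit 59), (nat_lit 401), (nat_lit 175), (nat_lit 10)]⟩,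
 ⟨⟨[(nat_lit 120), (nat_lit 160), (nat_lit 180)], [(nat_lit 0), (nat_lit 0), (nat_lit 1613)], [((nat_lit 0), (nat_lit 0), (nat_lit 0)), ((nat_lit 0), (nat_lit 0), (nat_lit 0)), ((nat_lit 620), (nat_lit 1000), (nat_lit 670))], ((nat_lit 100), (nat_lit 68), (nat_lit 61))⟩, (nat_lit 16103), (nat_lit 300), (nat_lit 1445), (nat_lit 2745400), (nat_lit 2240761), [(nat_lit 294816000), (nat_lit 439264000), (nat_lit 520146000)], [], [(nat_lit 2690045379), (nat_lit 2667692432), (nat_lit 2542838313), (nat_lit 2520395780), (nat_lit 2220304300), (nat_lit 2231038017), (nat_lit 2722852870), (nat_lit 2841372207)], (nat_lit 1100000), (nat_lit 1271251), (nat_lit 780000), (nat_lit 1762501), (nat_lit 0), (nat_lit 2754376), [(nat_lit 1695001), (nat_lit 1271251), (nat_lit 1271251)], [(nat_lit 28), (nat_lit 65), (nat_lit 463), (nat_lit 225), (nat_lit 11)]⟩⟩)) (.leaf ⟨(nat_lit 54), (nat_lit 764), (nat_lit 0), (nat_lit 182), (nat_lit 0), (nat_lit 3408), (nat_lit 6329), (nat_lit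 1622), (nat_lit 0), (nat_lit 0), (nat_lit 216000), [((nat_lit 380), [((nat_lit 41), (nat_lit 5), (nat_lit 54))])], ⟨(nat_lit 8), false, true, true, (nat_lit 320), (nat_lit 2236), (nat_lit 3163), [(nat_lit 1749323), (nat_lit 1739368), (nat_lit 1771478), (nat_lit 1762142), (nat_lit 1840753), (nat_lit 1824891), (nat_lit 1862908), (nat_lit 1847666)]⟩, ⟨(nat_lit 4), false, false, true, (nat_lit 175), (nat_lit 2236), (nat_lit 3163), [(nat_lit 1333702), (nat_lit 1340339), (nat_lit 1355794), (nat_lit 1363050), (nat_lit 1516642), (nat_lit 1511466), (nat_lit 1538797), (nat_lit 1534240)]⟩, (nat_lit 5220885), (nat_lit 35096060), (nat_lit 23190653), (nat_lit 8713287), (nat_lit 4), (nat_lit 0), [⟨(nat_lit 1), (nat_lit 65), (nat_lit 56), (nat_lit 100), (nat_lit 132262430)⟩], [], [], [⟨(nat_lit 1), (nat_lit 82), (nat_lit 66), (nat_lit 100), (nat_lit 37534864)⟩],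
 ⟨⟨[(nat_lit 40), (nat_lit 60), (nat_lit 80)], [(nat_lit 0), (nat_lit 832), (nat_lit 1534)], [((nat_lit 0), (nat_lit 0), (nat_lit 0)), ((nat_lit 1000), (nat_lit 659), (nat_lit 528)), ((nat_lit 1000), (nat_lit 650), (nat_lit 549))], ((nat_lit 63), (nat_lit 100), (nat_lit 62))⟩, (nat_lit 1183158), (nat_lit 100), (nat_lit 100), (nat_lit 0), (nat_lit 0), [(nat_lit 1864508932), (nat_lit 2801208960), (nat_lit 3512765600)], [(nat_lit 0), (nat_lit 0), (nat_lit 0)], [(nat_lit 26132439464), (nat_lit 27175751020), (nat_lit 29084281728), (nat_lit 30163759316), (nat_lit 27779677408), (nat_lit 28659415624), (nat_lit 30327962528), (nat_lit 31162265520)], (nat_lit 0), (nat_lit 0), (nat_lit 0), (nat_lit 0), (nat_lit 0), (nat_lit 0), [], [(nat_lit 2), (nat_lit 44), (nat_lit 272), (nat_lit 60), (nat_lit 10)]⟩,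
 ⟨⟨[(nat_lit 80), (nat_lit 120), (nat_lit 140)], [(nat_lit 0), (nat_lit 528), (nat_lit 1572)], [((nat_lit 0), (nat_lit 0), (nat_lit 0)), ((nat_lit 1000), (nat_lit 959), (nat_lit 206)), ((nat_lit 966), (nat_lit 1000), (nat_lit 679))], ((nat_lit 100), (nat_lit 99), (nat_lit 63))⟩, (nat_lit 4620265), (nat_lit 490), (nat_lit 490), (nat_lit 0), (nat_lit 655587), [(nat_lit 4434848000), (nat_lit 7537728000), (nat_lit 9310532000)], [], [(nat_lit 32081410762), (nat_lit 32529683196), (nat_lit 34287818143), (nat_lit 34637838981), (nat_lit 31380658554), (nat_lit 31903818837), (nat_lit 34491719135), (nat_lit 34968813956)], (nat_lit 1271251), (nat_lit 1271251), (nat_lit 1271251), (nat_lit 1271251), (nat_lit 0), (nat_lit 2754376), [(nat_lit 1100000), (nat_lit 1785001), (nat_lit 1271251)], [(nat_lit 17), (nat_lit 58), (nat_lit 401), (nat_lit 175), (nat_lit 11)]⟩,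
 ⟨⟨[(nat_lit 120), (nat_lit 160), (nat_lit 180)], [(nat_lit 0), (nat_lit 0), (nat_lit 1613)], [((nat_lit 0), (nat_lit 0), (nat_lit 0)), ((nat_lit 0), (nat_lit 0), (nat_lit 0)), ((nat_lit 620), (nat_lit 1000), (nat_lit 670))], ((nat_lit 100), (nat_lit 68), (nat_lit 61))⟩, (nat_lit 79209), (nat_lit 300), (nat_lit 1602), (nat_lit 13504400), (nat_lit 2590183), [(nat_lit 1450176000), (nat_lit 2160704000), (nat_lit 2558556000)], [], [(nat_lit 15464972646), (nat_lit 15371278651), (nat_lit 14852656520), (nat_lit 14758766177), (nat_lit 13509977383), (nat_lit 13415474637), (nat_lit 12906726615), (nat_lit 13437656845)], (nat_lit 1100000), (nat_lit 1271251), (nat_lit 780000), (nat_lit 1762501), (nat_lit 0), (nat_lit 2754376), [(nat_lit 1695001), (nat_lit 1271251), (nat_lit 1271251)], [(nat_lit 28), (nat_lit 65), (nat_lit 502), (nat_lit 225), (nat_lit 12)]⟩⟩))))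
noncomputable def c17_31 : Tr Lf :=
 (.spl (nat_lit 2) (nat_lit 160) (.trX (nat_lit 5) (nat_lit 1) (nat_lit 2) (nat_lit 100) (nat_lit 40) (nat_lit 100) (nat_lit 390) (.leaf ⟨(nat_lit 356), (nat_lit 566), (nat_lit 0), (nat_lit 78), (nat_lit 0), (nat_lit 4196), (nat_lit 5028), (nat_lit 718), (nat_lit 0), (nat_lit 0), (nat_lit 252800), [((nat_lit 380), [((nat_lit 41), (nat_lit 2), (nat_lit 258)), ((nat_lit 24), (nat_lit 2), (nat_lit 98))])], ⟨(nat_lit 6), false, true, true, (nat_lit 292), (nat_lit 2236), (nat_lit 3163), [(nat_lit 1605240), (nat_lit 1602541), (nat_lit 1649422), (nat_lit 1647962), (nat_lit 1818598), (nat_lit 1802117), (nat_lit 1862908), (nat_lit 1847666)]⟩, ⟨(nat_lit 3), false, false, true, (nat_lit 161), (nat_lit 2236), (nat_lit 3163), [(nat_lit 1289472), (nat_lit 1294870), (nat_lit 1333702), (nat_lit 1340339), (nat_lit 1472332), (nat_lit 1465917), (nat_lit 1516642), (nat_lit 1511466)]⟩, (nat_lit 5058066), (nat_lit 37834121), (nat_lit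 21042751), (nat_lit 8123128), (nat_lit 3), (nat_lit 0), [], [⟨(nat_lit 1), (nat_lit 100), (nat_lit 54), (nat_lit 98), (nat_lit 141988140)⟩], [⟨(nat_lit 1), (nat_lit 60), (nat_lit 100), (nat_lit 100), (nat_lit 34010884)⟩], [],
 ⟨⟨[(nat_lit 40), (nat_lit 60), (nat_lit 80)], [(nat_lit 0), (nat_lit 832), (nat_lit 1534)], [((nat_lit 0), (nat_lit 0), (nat_lit 0)), ((nat_lit 1000), (nat_lit 659), (nat_lit 528)), ((nat_lit 1000), (nat_lit 650), (nat_lit 549))], ((nat_lit 63), (nat_lit 100), (nat_lit 62))⟩, (nat_lit 234878), (nat_lit 211), (nat_lit 211), (nat_lit 0), (nat_lit 414668), [(nat_lit 1679416032), (nat_lit 2176564459), (nat_lit 2800512000)], [(nat_lit 0), (nat_lit 0), (nat_lit 0)], [(nat_lit 23304438347), (nat_lit 24449914173), (nat_lit 30334919286), (nat_lit 31516953892), (nat_lit 25150555615), (nat_lit 26106626756), (nat_lit 31176372682), (nat_lit 32165231431)], (nat_lit 1271251), (nat_lit 1271251), (nat_lit 1271251), (nat_lit 1271251), (nat_lit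 780000), (nat_lit 1762501), [(nat_lit 490000), (nat_lit 780000), (nat_lit 1100000)], [(nat_lit 2), (nat_lit 44), (nat_lit 272), (nat_lit 60), (nat_lit 11)]⟩,
 ⟨⟨[(nat_lit 80), (nat_lit 120), (nat_lit 160)], [(nat_lit 0), (nat_lit 0), (nat_lit 2132)], [((nat_lit 0), (nat_lit 0), (nat_lit 0)), ((nat_lit 0), (nat_lit 0), (nat_lit 0)), ((nat_lit 858), (nat_lit 1000), (nat_lit 713))], ((nat_lit 100), (nat_lit 92), (nat_lit 61))⟩, (nat_lit 1351798), (nat_lit 397), (nat_lit 397), (nat_lit 0), (nat_lit 328642), [(nat_lit 3019072000), (nat_lit 5131392000), (nat_lit 7645568000)], [], [(nat_lit 21954428392), (nat_lit 23085129608), (nat_lit 26503793448), (nat_lit 27155837938), (nat_lit 23173939866), (nat_lit 23007236917), (nat_lit 24467519829), (nat_lit 24762171896)], (nat_lit 1271251), (nat_lit 1271251), (nat_lit 1271251), (nat_lit 1271251), (nat_lit 0), (nat_lit 2754376), [(nat_lit 1100000), (nat_lit 1785001), (nat_lit 1271251)], [(nat_lit 18), (nat_lit 59),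 (nat_lit 538), (nat_lit 300), (nat_lit 13)]⟩,
 ⟨⟨[(nat_lit 140), (nat_lit 180), (nat_lit 200)], [(nat_lit 0), (nat_lit 0), (nat_lit 2835)], [((nat_lit 0), (nat_lit 0), (nat_lit 0)), ((nat_lit 0), (nat_lit 0), (nat_lit 0)), ((nat_lit 363), (nat_lit 1000), (nat_lit 798))], ((nat_lit 0), (nat_lit 0), (nat_lit 0))⟩, (nat_lit 21460), (nat_lit 300), (nat_lit 1828), (nat_lit 6091805), (nat_lit 2878795), [(nat_lit 767676000), (nat_lit 1096524000), (nat_lit 1279200000)], [], [(nat_lit 7742534889), (nat_lit 7638167302), (nat_lit 7451965692), (nat_lit 7348788437), (nat_lit 6817031731), (nat_lit 6716136106), (nat_lit 6533997146), (nat_lit 6434255429)], (nat_lit 780000), (nat_lit 1100000), (nat_lit 780000), (nat_lit 1762501), (nat_lit 0), (nat_lit 2754376), [(nat_lit 1977501), (nat_lit 1271251), (nat_lit 1271251)], [(nat_lit 32), (nat_lit 67), (nat_lit 556), (nat_lit 200), (nat_lit 12)]⟩⟩)) (.leaf ⟨(nat_lit 0), (nat_lit 743), (nat_lit 0), (nat_lit 257), (nat_lit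 0), (nat_lit 4578), (nat_lit 8189), (nat_lit 1976), (nat_lit 0), (nat_lit 0), (nat_lit 0), [], Pd.none, Pd.none, (nat_lit 0), (nat_lit 1), (nat_lit 0), (nat_lit 0), (nat_lit 4), (nat_lit 0), [], [], [], [],
 ⟨⟨[(nat_lit 40), (nat_lit 60), (nat_lit 80)], [(nat_lit 0), (nat_lit 832), (nat_lit 1534)], [((nat_lit 0), (nat_lit 0), (nat_lit 0)), ((nat_lit 1000), (nat_lit 659), (nat_lit 528)), ((nat_lit 1000), (nat_lit 650), (nat_lit 549))], ((nat_lit 63), (nat_lit 100), (nat_lit 62))⟩, (nat_lit 1240666), (nat_lit 190), (nat_lit 190), (nat_lit 0), (nat_lit 331929), [(nat_lit 2032000010), (nat_lit 3282000018), (nat_lit 4688000000)], [], [(nat_lit 23610557228), (nat_lit 24806731521), (nat_lit 30941192823), (nat_lit 32172944156), (nat_lit 25394726702), (nat_lit 26388697556), (nat_lit 31625625501), (nat_lit 32651566996)], (nat_lit 1271251), (nat_lit 1271251), (nat_lit 1271251), (nat_lit 1271251), (nat_lit 780000), (nat_lit 1762501), [(nat_lit 490000), (nat_lit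 780000), (nat_lit 1100000)], [(nat_lit 2), (nat_lit 44), (nat_lit 272), (nat_lit 60), (nat_lit 11)]⟩,
 ⟨⟨[(nat_lit 80), (nat_lit 120), (nat_lit 160)], [(nat_lit 0), (nat_lit 0), (nat_lit 2132)], [((nat_lit 0), (nat_lit 0), (nat_lit 0)), ((nat_lit 0), (nat_lit 0), (nat_lit 0)), ((nat_lit 858), (nat_lit 1000), (nat_lit 713))], ((nat_lit 100), (nat_lit 92), (nat_lit 61))⟩, (nat_lit 2921250), (nat_lit 375), (nat_lit 375), (nat_lit 0), (nat_lit 263507), [(nat_lit 4688000000), (nat_lit 7968000000), (nat_lit 11872000000)], [], [(nat_lit 32000377352), (nat_lit 33791632070), (nat_lit 39230295791), (nat_lit 40248460754), (nat_lit 36396100940), (nat_lit 34634542628), (nat_lit 38625318745), (nat_lit 39579884512)], (nat_lit 1271251), (nat_lit 1271251), (nat_lit 1271251), (nat_lit 1271251), (nat_lit 0), (nat_lit 2825001), [(nat_lit 1100000), (nat_lit 1785001), (nat_lit 1271251)], [(nat_lit 18), (nat_lit 59), (nat_lit 538), (nat_lit 300), (nat_lit 13)]⟩,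
 ⟨⟨[(nat_lit 120), (nat_lit 160), (nat_lit 180)], [(nat_lit 0), (nat_lit 0), (nat_lit 1613)], [((nat_lit 0), (nat_lit 0), (nat_lit 0)), ((nat_lit 0), (nat_lit 0), (nat_lit 0)), ((nat_lit 620), (nat_lit 1000), (nat_lit 670))], ((nat_lit 100), (nat_lit 68), (nat_lit 61))⟩, (nat_lit 111850), (nat_lit 300), (nat_lit 1054), (nat_lit 19069400), (nat_lit 1398423), [(nat_lit 2047776000), (nat_lit 3051104000), (nat_lit 3612906000)], [], [(nat_lit 21175641485), (nat_lit 21084244280), (nat_lit 20518857727), (nat_lit 20424018516), (nat_lit 19057511529), (nat_lit 18954451354), (nat_lit 18352590958), (nat_lit 18354749100)], (nat_lit 1100000), (nat_lit 1271251), (nat_lit 780000), (nat_lit 1762501), (nat_lit 0), (nat_lit 2825001), [(nat_lit 1695001), (nat_lit 1271251), (nat_lit 1271251)], [(nat_lit 28), (nat_lit 65), (nat_lit 456), (nat_lit 225), (nat_lit 11)]⟩⟩))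
noncomputable def c17_32 : Tr Lf :=
 (.leaf ⟨(nat_lit 139), (nat_lit 861), (nat_lit 0), (nat_lit 0), (nat_lit 0), (nat_lit 4546), (nat_lit 6255), (nat_lit 0), (nat_lit 0), (nat_lit 0), (nat_lit 176600), [((nat_lit 380), [((nat_lit 41), (nat_lit 2), (nat_lit 101)), ((nat_lit 24), (nat_lit 2), (nat_lit 12)), ((nat_lit 41), (nat_lit 5), (nat_lit 26))])], ⟨(nat_lit 7), false, true, true, (nat_lit 316), (nat_lit 2236), (nat_lit 3163), [(nat_lit 1649422), (nat_lit 1647962), (nat_lit 1693606), (nat_lit 1693384), (nat_lit 1893385), (nat_lit 1876173), (nat_lit 1937695), (nat_lit 1921722)]⟩, ⟨(nat_lit 3), false, false, true, (nat_lit 166), (nat_lit 2236), (nat_lit 3163), [(nat_lit 1289472), (nat_lit 1294870), (nat_lit 1355794), (nat_lit 1363050), (nat_lit 1472332), (nat_lit 1465917), (nat_lit 1538797), (nat_lit 1534240)]⟩, (nat_lit 5143676), (nat_lit 35810565), (nat_lit 23041274), (nat_lit 8148161), (nat_lit 3), (nat_lit 0), [], [⟨(nat_lit 1), (nat_lit 99),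 (nat_lit 54), (nat_lit 100), (nat_lit 306849013)⟩], [], [],
 ⟨⟨[(nat_lit 40), (nat_lit 60), (nat_lit 80)], [(nat_lit 0), (nat_lit 832), (nat_lit 1534)], [((nat_lit 0), (nat_lit 0), (nat_lit 0)), ((nat_lit 1000), (nat_lit 659), (nat_lit 528)), ((nat_lit 1000), (nat_lit 650), (nat_lit 549))], ((nat_lit 63), (nat_lit 100), (nat_lit 62))⟩, (nat_lit 459056), (nat_lit 263), (nat_lit 263), (nat_lit 0), (nat_lit 555387), [(nat_lit 1807077348), (nat_lit 2650335136), (nat_lit 3561975200)], [(nat_lit 0), (nat_lit 0), (nat_lit 0)], [(nat_lit 23726459334), (nat_lit 24840695637), (nat_lit 32197828166), (nat_lit 33345578673), (nat_lit 25437676452), (nat_lit 26366020584), (nat_lit 32673669732), (nat_lit 33633661930)], (nat_lit 1271251), (nat_lit 1271251), (nat_lit 1271251), (nat_lit 1271251), (nat_lit 780000), (nat_lit 1762501), [(nat_lit 490000), (nat_lit 780000), (nat_lit 1100000)], [(nat_lit 2), (nat_lit 44), (nat_lit 272), (nat_lit 60), (nat_lit 11)]⟩,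
 ⟨⟨[(nat_lit 60), (nat_lit 100), (nat_lit 140)], [(nat_lit 0), (nat_lit 0), (nat_lit 2047)], [((nat_lit 0), (nat_lit 0), (nat_lit 0)), ((nat_lit 0), (nat_lit 0), (nat_lit 0)), ((nat_lit 1000), (nat_lit 993), (nat_lit 781))], ((nat_lit 94), (nat_lit 100), (nat_lit 62))⟩, (nat_lit 2074242), (nat_lit 568), (nat_lit 568), (nat_lit 0), (nat_lit 824326), [(nat_lit 2825802000), (nat_lit 5381250000), (nat_lit 8473962000)], [], [(nat_lit 28670406168), (nat_lit 29735392998), (nat_lit 33838839318), (nat_lit 35816649360), (nat_lit 25406552214), (nat_lit 26385604848), (nat_lit 29574824928), (nat_lit 30102500568)], (nat_lit 1271251), (nat_lit 1271251), (nat_lit 1271251), (nat_lit 1271251), (nat_lit 0), (nat_lit 1412501), [(nat_lit 780000), (nat_lit 1435001), (nat_lit 1271251)], [(nat_lit 11), (nat_lit 55), (nat_lit 373), (nat_lit 150), (nat_lit 10)]⟩,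
 Rw.none⟩)
noncomputable def c17_33 : Tr Lf :=
 (.spl (nat_lit 4) (nat_lit 200) (.spl (nat_lit 4) (nat_lit 160) (.leaf ⟨(nat_lit 750), (nat_lit 250), (nat_lit 0), (nat_lit 0), (nat_lit 0), (nat_lit 3270), (nat_lit 1791), (nat_lit 0), (nat_lit 0), (nat_lit 0), (nat_lit 383400), [((nat_lit 380), [((nat_lit 24), (nat_lit 1), (nat_lit 333)), ((nat_lit 41), (nat_lit 2), (nat_lit 417))])], ⟨(nat_lit 7), false, true, false, (nat_lit 292), (nat_lit 2236), (nat_lit 3163), [(nat_lit 1649422), (nat_lit 1647962), (nat_lit 1693606), (nat_lit 1693384), (nat_lit 1771478), (nat_lit 1762142), (nat_lit 1815720), (nat_lit 1807623)]⟩, ⟨(nat_lit 3), false, false, false, (nat_lit 138), (nat_lit 2236), (nat_lit 3163), [(nat_lit 1289472), (nat_lit 1294870), (nat_lit 1333702), (nat_lit 1340339), (nat_lit 1350426), (nat_lit 1351886), (nat_lit 1394735), (nat_lit 1397434)]⟩, (nat_lit 4841466), (nat_lit 38965922), (nat_lit 21544889), (nat_lit 6489189), (nat_lit 5), (nat_lit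 0), [], [], [⟨(nat_lit 1), (nat_lit 77), (nat_lit 91), (nat_lit 100), (nat_lit 49552356)⟩], [⟨(nat_lit 1), (nat_lit 69), (nat_lit 96), (nat_lit 100), (nat_lit 39097199)⟩],
 ⟨⟨[(nat_lit 40), (nat_lit 60), (nat_lit 80)], [(nat_lit 0), (nat_lit 832), (nat_lit 1534)], [((nat_lit 0), (nat_lit 0), (nat_lit 0)), ((nat_lit 1000), (nat_lit 659), (nat_lit 528)), ((nat_lit 1000), (nat_lit 650), (nat_lit 549))], ((nat_lit 63), (nat_lit 100), (nat_lit 62))⟩, (nat_lit 0), (nat_lit 82), (nat_lit 82), (nat_lit 0), (nat_lit 0), [(nat_lit 1447472867), (nat_lit 1490219226), (nat_lit 1467797600)], [(nat_lit 0), (nat_lit 0), (nat_lit 0)], [(nat_lit 22488181057), (nat_lit 23697876762), (nat_lit 25608511227), (nat_lit 26742227255), (nat_lit 22850269387), (nat_lit 24000486787), (nat_lit 25826436127), (nat_lit 26805510550)], (nat_lit 0), (nat_lit 0), (nat_lit 0), (nat_lit 0), (nat_lit 0), (nat_lit 0), [], [(nat_lit 2), (nat_lit 44), (nat_lit 249), (nat_lit 40), (nat_lit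 9)]⟩,
 ⟨⟨[(nat_lit 60), (nat_lit 100), (nat_lit 140)], [(nat_lit 0), (nat_lit 0), (nat_lit 2047)], [((nat_lit 0), (nat_lit 0), (nat_lit 0)), ((nat_lit 0), (nat_lit 0), (nat_lit 0)), ((nat_lit 1000), (nat_lit 993), (nat_lit 781))], ((nat_lit 94), (nat_lit 100), (nat_lit 62))⟩, (nat_lit 500583), (nat_lit 440), (nat_lit 440), (nat_lit 0), (nat_lit 824326), [(nat_lit 820500000), (nat_lit 1562500000), (nat_lit 2460500000)], [], [(nat_lit 7086150292), (nat_lit 7393118195), (nat_lit 7630744081), (nat_lit 7868369967), (nat_lit 8125061370), (nat_lit 8296172778), (nat_lit 8419255647), (nat_lit 8584315071)], (nat_lit 1271251), (nat_lit 1271251), (nat_lit 1271251), (nat_lit 1271251), (nat_lit 1271251), (nat_lit 1271251), [(nat_lit 780000), (nat_lit 1435001), (nat_lit 1271251)], [(nat_lit 11), (nat_lit 55), (nat_lit 401), (nat_lit 175), (nat_lit 10)]⟩,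
 Rw.none⟩) (.leaf ⟨(nat_lit 835), (nat_lit 165), (nat_lit 0), (nat_lit 0), (nat_lit 0), (nat_lit 3263), (nat_lit 1182), (nat_lit 0), (nat_lit 0), (nat_lit 0), (nat_lit 208750), [((nat_lit 380), [((nat_lit 24), (nat_lit 0), (nat_lit 835))])], ⟨(nat_lit 7), false, true, false, (nat_lit 292), (nat_lit 2236), (nat_lit 3163), [(nat_lit 1649422), (nat_lit 1647962), (nat_lit 1693606), (nat_lit 1693384), (nat_lit 1771478), (nat_lit 1762142), (nat_lit 1815720), (nat_lit 1807623)]⟩, ⟨(nat_lit 4), false, false, true, (nat_lit 161), (nat_lit 2236), (nat_lit 3163), [(nat_lit 1350426), (nat_lit 1351886), (nat_lit 1394735), (nat_lit 1397434), (nat_lit 1411379), (nat_lit 1408901), (nat_lit 1455689), (nat_lit 1454450)]⟩, (nat_lit 5058773), (nat_lit 37814788), (nat_lit 21064364), (nat_lit 8120848), (nat_lit 5), (nat_lit 0), [], [], [⟨(nat_lit 1), (nat_lit 77), (nat_lit 91), (nat_lit 100), (nat_lit 59928250)⟩], [],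
 ⟨⟨[(nat_lit 40), (nat_lit 60), (nat_lit 80)], [(nat_lit 0), (nat_lit 832), (nat_lit 1534)], [((nat_lit 0), (nat_lit 0), (nat_lit 0)), ((nat_lit 1000), (nat_lit 659), (nat_lit 528)), ((nat_lit 1000), (nat_lit 650), (nat_lit 549))], ((nat_lit 63), (nat_lit 100), (nat_lit 62))⟩, (nat_lit 0), (nat_lit 59), (nat_lit 59), (nat_lit 0), (nat_lit 0), [(nat_lit 1571214073), (nat_lit 1683142062), (nat_lit 2197696000)], [(nat_lit 0), (nat_lit 0), (nat_lit 0)], [(nat_lit 22669324451), (nat_lit 23880946273), (nat_lit 25799536845), (nat_lit 26826882156), (nat_lit 23634861013), (nat_lit 24773082596), (nat_lit 26571823235), (nat_lit 27540170224)], (nat_lit 0), (nat_lit 0), (nat_lit 0), (nat_lit 0), (nat_lit 0), (nat_lit 0), [], [(nat_lit 2), (nat_lit 44), (nat_lit 203), (nat_lit 0), (nat_lit 7)]⟩,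
 ⟨⟨[(nat_lit 60), (nat_lit 100), (nat_lit 140)], [(nat_lit 0), (nat_lit 0), (nat_lit 2047)], [((nat_lit 0), (nat_lit 0), (nat_lit 0)), ((nat_lit 0), (nat_lit 0), (nat_lit 0)), ((nat_lit 1000), (nat_lit 993), (nat_lit 781))], ((nat_lit 94), (nat_lit 100), (nat_lit 62))⟩, (nat_lit 330441), (nat_lit 440), (nat_lit 440), (nat_lit 0), (nat_lit 824326), [(nat_lit 541530000), (nat_lit 1031250000), (nat_lit 1623930000)], [], [(nat_lit 4676923869), (nat_lit 4879519875), (nat_lit 5036352042), (nat_lit 5193184209), (nat_lit 5362600400), (nat_lit 5475534810), (nat_lit 5556771666), (nat_lit 5665585160)], (nat_lit 1271251), (nat_lit 1271251), (nat_lit 1271251), (nat_lit 1271251), (nat_lit 1271251), (nat_lit 1271251), [(nat_lit 780000), (nat_lit 1435001), (nat_lit 1271251)], [(nat_lit 11), (nat_lit 55), (nat_lit 401), (nat_lit 175), (nat_lit 10)]⟩,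
 Rw.none⟩)) (.spl (nat_lit 5) (nat_lit 280) (.leaf ⟨(nat_lit 482), (nat_lit 518), (nat_lit 0), (nat_lit 0), (nat_lit 0), (nat_lit 3714), (nat_lit 4087), (nat_lit 0), (nat_lit 0), (nat_lit 0), (nat_lit 123200), [((nat_lit 380), [((nat_lit 24), (nat_lit 0), (nat_lit 464)), ((nat_lit 24), (nat_lit 1), (nat_lit 18))])], ⟨(nat_lit 7), false, true, false, (nat_lit 292), (nat_lit 2236), (nat_lit 3163), [(nat_lit 1649422), (nat_lit 1647962), (nat_lit 1693606), (nat_lit 1693384), (nat_lit 1771478), (nat_lit 1762142), (nat_lit 1815720), (nat_lit 1807623)]⟩, ⟨(nat_lit 5), false, false, true, (nat_lit 185), (nat_lit 2236), (nat_lit 3163), [(nat_lit 1411379), (nat_lit 1408901), (nat_lit 1455689), (nat_lit 1454450), (nat_lit 1472332), (nat_lit 1465917), (nat_lit 1516642), (nat_lit 1511466)]⟩, (nat_lit 5247541), (nat_lit 36627434), (nat_lit 20550107), (nat_lit 9822459), (nat_lit 5), (nat_lit 0), [], [⟨(nat_lit 1), (nat_lit 100), (nat_lit 54), (nat_lit 98), (nat_lit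 254800779)⟩], [], [],
 ⟨⟨[(nat_lit 40), (nat_lit 60), (nat_lit 80)], [(nat_lit 0), (nat_lit 832), (nat_lit 1534)], [((nat_lit 0), (nat_lit 0), (nat_lit 0)), ((nat_lit 1000), (nat_lit 659), (nat_lit 528)), ((nat_lit 1000), (nat_lit 650), (nat_lit 549))], ((nat_lit 63), (nat_lit 100), (nat_lit 62))⟩, (nat_lit 0), (nat_lit 56), (nat_lit 56), (nat_lit 0), (nat_lit 0), [(nat_lit 1664381856), (nat_lit 2352111255), (nat_lit 3236961600)], [(nat_lit 0), (nat_lit 0), (nat_lit 0)], [(nat_lit 23850433795), (nat_lit 25058172969), (nat_lit 26949737499), (nat_lit 28027299563), (nat_lit 24816319431), (nat_lit 25943782285), (nat_lit 27717182591), (nat_lit 28725377456)], (nat_lit 0), (nat_lit 0), (nat_lit 0), (nat_lit 0), (nat_lit 0), (nat_lit 0), [], [(nat_lit 2), (nat_lit 44), (nat_lit 203), (nat_lit 0), (nat_lit 7)]⟩,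
 ⟨⟨[(nat_lit 60), (nat_lit 100), (nat_lit 140)], [(nat_lit 0), (nat_lit 0), (nat_lit 2047)], [((nat_lit 0), (nat_lit 0), (nat_lit 0)), ((nat_lit 0), (nat_lit 0), (nat_lit 0)), ((nat_lit 1000), (nat_lit 993), (nat_lit 781))], ((nat_lit 94), (nat_lit 100), (nat_lit 62))⟩, (nat_lit 1202033), (nat_lit 440), (nat_lit 440), (nat_lit 0), (nat_lit 824326), [(nat_lit 1700076000), (nat_lit 3237500000), (nat_lit 5098156000)], [], [(nat_lit 13218475422), (nat_lit 13872124373), (nat_lit 14370237239), (nat_lit 14903665784), (nat_lit 13938297449), (nat_lit 14455207925), (nat_lit 14953435850), (nat_lit 15453130064)], (nat_lit 1271251), (nat_lit 1271251), (nat_lit 1271251), (nat_lit 1271251), (nat_lit 1271251), (nat_lit 1271251), [(nat_lit 780000), (nat_lit 1435001), (nat_lit 1271251)], [(nat_lit 11), (nat_lit 55), (nat_lit 373), (nat_lit 150), (nat_lit 10)]⟩,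
 Rw.none⟩) (.spl (nat_lit 5) (nat_lit 320) (.leaf ⟨(nat_lit 722), (nat_lit 278), (nat_lit 0), (nat_lit 0), (nat_lit 0), (nat_lit 3378), (nat_lit 2103), (nat_lit 0), (nat_lit 0), (nat_lit 0), (nat_lit 180500), [((nat_lit 380), [((nat_lit 24), (nat_lit 0), (nat_lit 722))])], ⟨(nat_lit 7), false, true, false, (nat_lit 292), (nat_lit 2236), (nat_lit 3163), [(nat_lit 1649422), (nat_lit 1647962), (nat_lit 1693606), (nat_lit 1693384), (nat_lit 1771478), (nat_lit 1762142), (nat_lit 1815720), (nat_lit 1807623)]⟩, ⟨(nat_lit 5), false, false, true, (nat_lit 185), (nat_lit 2236), (nat_lit 3163), [(nat_lit 1411379), (nat_lit 1408901), (nat_lit 1455689), (nat_lit 1454450), (nat_lit 1472332), (nat_lit 1465917), (nat_lit 1516642), (nat_lit 1511466)]⟩, (nat_lit 5247541), (nat_lit 36627434), (nat_lit 20550107), (nat_lit 9822459), (nat_lit 7), (nat_lit 0), [], [⟨(nat_lit 1), (nat_lit 100), (nat_lit 54), (nat_lit 98), (nat_lit 6914684)⟩], [], [],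
 ⟨⟨[(nat_lit 40), (nat_lit 60), (nat_lit 80)], [(nat_lit 0), (nat_lit 832), (nat_lit 1534)], [((nat_lit 0), (nat_lit 0), (nat_lit 0)), ((nat_lit 1000), (nat_lit 659), (nat_lit 528)), ((nat_lit 1000), (nat_lit 650), (nat_lit 549))], ((nat_lit 63), (nat_lit 100), (nat_lit 62))⟩, (nat_lit 0), (nat_lit 56), (nat_lit 56), (nat_lit 0), (nat_lit 0), [(nat_lit 1601904802), (nat_lit 1899514402), (nat_lit 2534707200)], [(nat_lit 0), (nat_lit 0), (nat_lit 0)], [(nat_lit 23742556272), (nat_lit 24898504070), (nat_lit 26707531804), (nat_lit 27689090620), (nat_lit 24708181844), (nat_lit 25788929308), (nat_lit 27475394144), (nat_lit 28396251310)], (nat_lit 0), (nat_lit 0), (nat_lit 0), (nat_lit 0), (nat_lit 0), (nat_lit 0), [], [(nat_lit 2), (nat_lit 44), (nat_lit 203), (nat_lit 0), (nat_lit 7)]⟩,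
 ⟨⟨[(nat_lit 60), (nat_lit 100), (nat_lit 140)], [(nat_lit 0), (nat_lit 0), (nat_lit 2047)], [((nat_lit 0), (nat_lit 0), (nat_lit 0)), ((nat_lit 0), (nat_lit 0), (nat_lit 0)), ((nat_lit 1000), (nat_lit 993), (nat_lit 781))], ((nat_lit 94), (nat_lit 100), (nat_lit 62))⟩, (nat_lit 562805), (nat_lit 429), (nat_lit 429), (nat_lit 0), (nat_lit 824326), [(nat_lit 912396000), (nat_lit 1737500000), (nat_lit 2736076000)], [], [(nat_lit 7922597469), (nat_lit 8198260793), (nat_lit 8404942125), (nat_lit 8611623457), (nat_lit 8198260793), (nat_lit 8436478369), (nat_lit 8611623457), (nat_lit 8786768545)], (nat_lit 1271251), (nat_lit 1271251), (nat_lit 1271251), (nat_lit 1271251), (nat_lit 1271251), (nat_lit 1271251), [(nat_lit 780000), (nat_lit 1435001), (nat_lit 1271251)], [(nat_lit 11), (nat_lit 55), (nat_lit 317), (nat_lit 100), (nat_lit 8)]⟩,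
 Rw.none⟩) (.spl (nat_lit 6) (nat_lit 32) (.spl (nat_lit 1) (nat_lit 300) (.leaf ⟨(nat_lit 860), (nat_lit 140), (nat_lit 0), (nat_lit 0), (nat_lit 0), (nat_lit 3218), (nat_lit 1018), (nat_lit 0), (nat_lit 0), (nat_lit 0), (nat_lit 215000), [((nat_lit 380), [((nat_lit 24), (nat_lit 0), (nat_lit 860))])], ⟨(nat_lit 7), false, true, false, (nat_lit 288), (nat_lit 2236), (nat_lit 3163), [(nat_lit 1649422), (nat_lit 1647962), (nat_lit 1671514), (nat_lit 1670673), (nat_lit 1771478), (nat_lit 1762142), (nat_lit 1793619), (nat_lit 1784902)]⟩, ⟨(nat_lit 5), false, false, true, (nat_lit 185), (nat_lit 2236), (nat_lit 3163), [(nat_lit 1411379), (nat_lit 1408901), (nat_lit 1455689), (nat_lit 1454450), (nat_lit 1472332), (nat_lit 1465917), (nat_lit 1516642), (nat_lit 1511466)]⟩, (nat_lit 5236133), (nat_lit 36953202), (nat_lit 20160915), (nat_lit 9885883), (nat_lit 8), (nat_lit 0), [], [], [⟨(nat_lit 1), (nat_lit 59), (nat_lit 94), (nat_lit 100), (nat_lit 63817226)⟩],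 [],
 ⟨⟨[(nat_lit 40), (nat_lit 60), (nat_lit 80)], [(nat_lit 0), (nat_lit 832), (nat_lit 1534)], [((nat_lit 0), (nat_lit 0), (nat_lit 0)), ((nat_lit 1000), (nat_lit 659), (nat_lit 528)), ((nat_lit 1000), (nat_lit 650), (nat_lit 549))], ((nat_lit 64), (nat_lit 100), (nat_lit 58))⟩, (nat_lit 0), (nat_lit 56), (nat_lit 56), (nat_lit 0), (nat_lit 0), [(nat_lit 1564424152), (nat_lit 1635272116), (nat_lit 2123136000)], [(nat_lit 0), (nat_lit 0), (nat_lit 0)], [(nat_lit 23634736376), (nat_lit 24766021614), (nat_lit 26560736868), (nat_lit 27523532164), (nat_lit 24600238108), (nat_lit 25658827492), (nat_lit 27334754408), (nat_lit 28238836054)], (nat_lit 0), (nat_lit 0), (nat_lit 0), (nat_lit 0), (nat_lit 0), (nat_lit 0), [], [(nat_lit 2), (nat_lit 44), (nat_lit 203), (nat_lit 0), (nat_lit 7)]⟩,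
 ⟨⟨[(nat_lit 60), (nat_lit 100), (nat_lit 120)], [(nat_lit 0), (nat_lit 0), (nat_lit 1164)], [((nat_lit 0), (nat_lit 0), (nat_lit 0)), ((nat_lit 0), (nat_lit 0), (nat_lit 0)), ((nat_lit 1000), (nat_lit 933), (nat_lit 572))], ((nat_lit 93), (nat_lit 100), (nat_lit 55))⟩, (nat_lit 217998), (nat_lit 380), (nat_lit 380), (nat_lit 0), (nat_lit 812676), [(nat_lit 459480000), (nat_lit 875000000), (nat_lit 1115520000)], [], [(nat_lit 4213564980), (nat_lit 4281593050), (nat_lit 4452364696), (nat_lit 4503736484), (nat_lit 4485038808), (nat_lit 4540001987), (nat_lit 4675496876), (nat_lit 4717652186)], (nat_lit 1271251), (nat_lit 1271251), (nat_lit 1271251), (nat_lit 1271251), (nat_lit 1271251), (nat_lit 1271251), [(nat_lit 780000), (nat_lit 1435001), (nat_lit 1271251)], [(nat_lit 10), (nat_lit 54), (nat_lit 219), (nat_lit 0), (nat_lit 5)]⟩,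
 Rw.none⟩) (.trX (nat_lit 5) (nat_lit 1) (nat_lit 2) (nat_lit 88) (nat_lit 68) (nat_lit 100) (nat_lit 350) (.leaf ⟨(nat_lit 67), (nat_lit 933), (nat_lit 0), (nat_lit 0), (nat_lit 0), (nat_lit 4656), (nat_lit 5364), (nat_lit 0), (nat_lit 0), (nat_lit 0), (nat_lit 16750), [((nat_lit 380), [((nat_lit 24), (nat_lit 0), (nat_lit 67))])], ⟨(nat_lit 7), false, true, false, (nat_lit 297), (nat_lit 2236), (nat_lit 3163), [(nat_lit 1671514), (nat_lit 1670673), (nat_lit 1693606), (nat_lit 1693384), (nat_lit 1793619), (nat_lit 1784902), (nat_lit 1815720), (nat_lit 1807623)]⟩, ⟨(nat_lit 5), false, false, true, (nat_lit 185), (nat_lit 2236), (nat_lit 3163), [(nat_lit 1411379), (nat_lit 1408901), (nat_lit 1455689), (nat_lit 1454450), (nat_lit 1472332), (nat_lit 1465917), (nat_lit 1516642), (nat_lit 1511466)]⟩, (nat_lit 5257968), (nat_lit 36302995), (nat_lit 20938379), (nat_lit 9758626), (nat_lit 8), (nat_lit 0), [], [], [⟨(nat_lit 1), (nat_lit 68), (nat_lit 88),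 (nat_lit 100), (nat_lit 461436349)⟩], [],
 ⟨⟨[(nat_lit 40), (nat_lit 60), (nat_lit 80)], [(nat_lit 0), (nat_lit 832), (nat_lit 1534)], [((nat_lit 0), (nat_lit 0), (nat_lit 0)), ((nat_lit 1000), (nat_lit 659), (nat_lit 528)), ((nat_lit 1000), (nat_lit 650), (nat_lit 549))], ((nat_lit 64), (nat_lit 100), (nat_lit 58))⟩, (nat_lit 0), (nat_lit 56), (nat_lit 56), (nat_lit 0), (nat_lit 0), [(nat_lit 2143986499), (nat_lit 3153708427), (nat_lit 4488179200)], [(nat_lit 0), (nat_lit 0), (nat_lit 0)], [(nat_lit 24122495939), (nat_lit 25560785551), (nat_lit 27672703344), (nat_lit 28991097432), (nat_lit 25114360219), (nat_lit 26449492547), (nat_lit 28424753952), (nat_lit 29650331024)], (nat_lit 0), (nat_lit 0), (nat_lit 0), (nat_lit 0), (nat_lit 0), (nat_lit 0), [], [(nat_lit 2), (nat_lit 44), (nat_lit 203), (nat_lit 0), (nat_lit 7)]⟩,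
 ⟨⟨[(nat_lit 60), (nat_lit 100), (nat_lit 120)], [(nat_lit 0), (nat_lit 609), (nat_lit 1609)], [((nat_lit 0), (nat_lit 0), (nat_lit 0)), ((nat_lit 1000), (nat_lit 905), (nat_lit 238)), ((nat_lit 1000), (nat_lit 882), (nat_lit 668))], ((nat_lit 87), (nat_lit 100), (nat_lit 54))⟩, (nat_lit 4666481), (nat_lit 377), (nat_lit 377), (nat_lit 0), (nat_lit 813382), [(nat_lit 3062106000), (nat_lit 5831250000), (nat_lit 7434144000)], [], [(nat_lit 24924874602), (nat_lit 25362943122), (nat_lit 27230860164), (nat_lit 28027982400), (nat_lit 25846012413), (nat_lit 26752373625), (nat_lit 28891386342), (nat_lit 29604390581)], (nat_lit 1271251), (nat_lit 1271251), (nat_lit 1271251), (nat_lit 1271251), (nat_lit 1271251), (nat_lit 1271251), [(nat_lit 780000), (nat_lit 1435001), (nat_lit 1271251)], [(nat_lit 10), (nat_lit 54), (nat_lit 218), (nat_lit 0), (nat_lit 5)]⟩,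
 Rw.none⟩))) (.leaf ⟨(nat_lit 594), (nat_lit 406), (nat_lit 0), (nat_lit 0), (nat_lit 0), (nat_lit 3527), (nat_lit 2998), (nat_lit 0), (nat_lit 0), (nat_lit 0), (nat_lit 148500), [((nat_lit 380), [((nat_lit 24), (nat_lit 0), (nat_lit 594))])], ⟨(nat_lit 7), false, true, false, (nat_lit 292), (nat_lit 2236), (nat_lit 3163), [(nat_lit 1649422), (nat_lit 1647962), (nat_lit 1693606), (nat_lit 1693384), (nat_lit 1771478), (nat_lit 1762142), (nat_lit 1815720), (nat_lit 1807623)]⟩, ⟨(nat_lit 5), false, false, true, (nat_lit 185), (nat_lit 2236), (nat_lit 3163), [(nat_lit 1411379), (nat_lit 1408901), (nat_lit 1455689), (nat_lit 1454450), (nat_lit 1472332), (nat_lit 1465917), (nat_lit 1516642), (nat_lit 1511466)]⟩, (nat_lit 5247541), (nat_lit 36627434), (nat_lit 20550107), (nat_lit 9822459), (nat_lit 8), (nat_lit 0), [], [], [⟨(nat_lit 1), (nat_lit 59), (nat_lit 94), (nat_lit 100), (nat_lit 181935586)⟩], [],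
 ⟨⟨[(nat_lit 40), (nat_lit 60), (nat_lit 80)], [(nat_lit 0), (nat_lit 832), (nat_lit 1534)], [((nat_lit 0), (nat_lit 0), (nat_lit 0)), ((nat_lit 1000), (nat_lit 659), (nat_lit 528)), ((nat_lit 1000), (nat_lit 650), (nat_lit 549))], ((nat_lit 63), (nat_lit 100), (nat_lit 62))⟩, (nat_lit 0), (nat_lit 56), (nat_lit 56), (nat_lit 0), (nat_lit 0), [(nat_lit 1636680603), (nat_lit 2144609054), (nat_lit 2916454400)], [(nat_lit 0), (nat_lit 0), (nat_lit 0)], [(nat_lit 23841854519), (nat_lit 25020769326), (nat_lit 26843125557), (nat_lit 27842157901), (nat_lit 24807595417), (nat_lit 25908977593), (nat_lit 27605255867), (nat_lit 28541761408)], (nat_lit 0), (nat_lit 0), (nat_lit 0), (nat_lit 0), (nat_lit 0), (nat_lit 0), [], [(nat_lit 2), (nat_lit 44), (nat_lit 203), (nat_lit 0), (nat_lit 7)]⟩,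
 ⟨⟨[(nat_lit 60), (nat_lit 100), (nat_lit 140)], [(nat_lit 0), (nat_lit 0), (nat_lit 2047)], [((nat_lit 0), (nat_lit 0), (nat_lit 0)), ((nat_lit 0), (nat_lit 0), (nat_lit 0)), ((nat_lit 1000), (nat_lit 993), (nat_lit 781))], ((nat_lit 94), (nat_lit 100), (nat_lit 62))⟩, (nat_lit 807757), (nat_lit 363), (nat_lit 363), (nat_lit 0), (nat_lit 709421), [(nat_lit 1332492000), (nat_lit 2537500000), (nat_lit 3995852000)], [], [(nat_lit 12222497821), (nat_lit 12570047701), (nat_lit 12827267761), (nat_lit 13084487821), (nat_lit 12944959579), (nat_lit 13221531006), (nat_lit 13419898904), (nat_lit 14034497585)], (nat_lit 1271251), (nat_lit 1271251), (nat_lit 1271251), (nat_lit 1271251), (nat_lit 1271251), (nat_lit 1271251), [(nat_lit 780000), (nat_lit 1435001), (nat_lit 1271251)], [(nat_lit 11), (nat_lit 55), (nat_lit 317), (nat_lit 100), (nat_lit 8)]⟩,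
 Rw.none⟩)))))
def l032 : List St := [⟨⟨(nat_lit 360), (nat_lit 380), (nat_lit 240), (nat_lit 320), (nat_lit 120), (nat_lit 220), (nat_lit 110), (nat_lit 400), (nat_lit 20), (nat_lit 120), (nat_lit 0), (nat_lit 400), (nat_lit 0), (nat_lit 40)⟩, (nat_lit 3), (nat_lit 0), (nat_lit 3), false, true, false⟩,
  ⟨⟨(nat_lit 360), (nat_lit 380), (nat_lit 240), (nat_lit 320), (nat_lit 120), (nat_lit 220), (nat_lit 110), (nat_lit 240), (nat_lit 20), (nat_lit 120), (nat_lit 0), (nat_lit 400), (nat_lit 0), (nat_lit 40)⟩, (nat_lit 3), (nat_lit 1), (nat_lit 3), false, true, false⟩,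
  ⟨⟨(nat_lit 360), (nat_lit 380), (nat_lit 240), (nat_lit 280), (nat_lit 120), (nat_lit 220), (nat_lit 240), (nat_lit 320), (nat_lit 20), (nat_lit 120), (nat_lit 0), (nat_lit 370), (nat_lit 0), (nat_lit 40)⟩, (nat_lit 3), (nat_lit 1), (nat_lit 3), false, true, false⟩,
  ⟨⟨(nat_lit 360), (nat_lit 380), (nat_lit 280), (nat_lit 320), (nat_lit 120), (nat_lit 220), (nat_lit 240), (nat_lit 320), (nat_lit 20), (nat_lit 120), (nat_lit 0), (nat_lit 370), (nat_lit 0), (nat_lit 40)⟩, (nat_lit 3), (nat_lit 1), (nat_lit 3), false, true, false⟩,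
  ⟨⟨(nat_lit 360), (nat_lit 380), (nat_lit 240), (nat_lit 280), (nat_lit 120), (nat_lit 220), (nat_lit 320), (nat_lit 380), (nat_lit 20), (nat_lit 120), (nat_lit 0), (nat_lit 300), (nat_lit 0), (nat_lit 40)⟩, (nat_lit 0), (nat_lit 1), (nat_lit 3), false, true, false⟩,
  ⟨⟨(nat_lit 360), (nat_lit 380), (nat_lit 240), (nat_lit 280), (nat_lit 120), (nat_lit 220), (nat_lit 320), (nat_lit 380), (nat_lit 20), (nat_lit 120), (nat_lit 0), (nat_lit 300), (nat_lit 0), (nat_lit 40)⟩, (nat_lit 1), (nat_lit 1), (nat_lit 3), false, true, false⟩,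
  ⟨⟨(nat_lit 360), (nat_lit 380), (nat_lit 280), (nat_lit 320), (nat_lit 120), (nat_lit 220), (nat_lit 320), (nat_lit 400), (nat_lit 20), (nat_lit 120), (nat_lit 0), (nat_lit 300), (nat_lit 0), (nat_lit 40)⟩, (nat_lit 3), (nat_lit 1), (nat_lit 3), false, true, false⟩,
  ⟨⟨(nat_lit 360), (nat_lit 380), (nat_lit 240), (nat_lit 320), (nat_lit 120), (nat_lit 220), (nat_lit 110), (nat_lit 400), (nat_lit 120), (nat_lit 340), (nat_lit 0), (nat_lit 400), (nat_lit 0), (nat_lit 40)⟩, (nat_lit 3), (nat_lit 0), (nat_lit 0), false, false, false⟩,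
  ⟨⟨(nat_lit 360), (nat_lit 380), (nat_lit 240), (nat_lit 320), (nat_lit 120), (nat_lit 220), (nat_lit 110), (nat_lit 240), (nat_lit 120), (nat_lit 240), (nat_lit 0), (nat_lit 120), (nat_lit 0), (nat_lit 40)⟩, (nat_lit 3), (nat_lit 1), (nat_lit 0), false, false, true⟩,
  ⟨⟨(nat_lit 360), (nat_lit 380), (nat_lit 240), (nat_lit 320), (nat_lit 120), (nat_lit 220), (nat_lit 110), (nat_lit 240), (nat_lit 240), (nat_lit 340), (nat_lit 0), (nat_lit 120), (nat_lit 0), (nat_lit 40)⟩, (nat_lit 3), (nat_lit 1), (nat_lit 0), false, false, true⟩,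
  ⟨⟨(nat_lit 360), (nat_lit 380), (nat_lit 240), (nat_lit 320), (nat_lit 120), (nat_lit 220), (nat_lit 110), (nat_lit 240), (nat_lit 120), (nat_lit 340), (nat_lit 120), (nat_lit 400), (nat_lit 0), (nat_lit 40)⟩, (nat_lit 3), (nat_lit 1), (nat_lit 0), false, false, false⟩,
  ⟨⟨(nat_lit 360), (nat_lit 380), (nat_lit 240), (nat_lit 280), (nat_lit 120), (nat_lit 220), (nat_lit 240), (nat_lit 400), (nat_lit 120), (nat_lit 340), (nat_lit 0), (nat_lit 120), (nat_lit 0), (nat_lit 40)⟩, (nat_lit 3), (nat_lit 1), (nat_lit 0), false, false, true⟩,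
  ⟨⟨(nat_lit 360), (nat_lit 380), (nat_lit 280), (nat_lit 320), (nat_lit 120), (nat_lit 220), (nat_lit 240), (nat_lit 400), (nat_lit 120), (nat_lit 340), (nat_lit 0), (nat_lit 120), (nat_lit 0), (nat_lit 40)⟩, (nat_lit 3), (nat_lit 1), (nat_lit 0), false, false, true⟩,
  ⟨⟨(nat_lit 360), (nat_lit 380), (nat_lit 240), (nat_lit 320), (nat_lit 120), (nat_lit 220), (nat_lit 240), (nat_lit 400), (nat_lit 120), (nat_lit 340), (nat_lit 120), (nat_lit 400), (nat_lit 0), (nat_lit 40)⟩, (nat_lit 3), (nat_lit 1), (nat_lit 0), false, false, false⟩,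
  ⟨⟨(nat_lit 360), (nat_lit 380), (nat_lit 240), (nat_lit 320), (nat_lit 120), (nat_lit 220), (nat_lit 110), (nat_lit 240), (nat_lit 120), (nat_lit 240), (nat_lit 0), (nat_lit 400), (nat_lit 0), (nat_lit 20)⟩, (nat_lit 3), (nat_lit 0), (nat_lit 1), false, false, false⟩,
  ⟨⟨(nat_lit 360), (nat_lit 380), (nat_lit 240), (nat_lit 320), (nat_lit 120), (nat_lit 220), (nat_lit 110), (nat_lit 240), (nat_lit 120), (nat_lit 240), (nat_lit 0), (nat_lit 400), (nat_lit 0), (nat_lit 20)⟩, (nat_lit 3), (nat_lit 1), (nat_lit 1), false, false, false⟩,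
  ⟨⟨(nat_lit 360), (nat_lit 380), (nat_lit 240), (nat_lit 320), (nat_lit 120), (nat_lit 220), (nat_lit 240), (nat_lit 400), (nat_lit 120), (nat_lit 240), (nat_lit 0), (nat_lit 400), (nat_lit 0), (nat_lit 20)⟩, (nat_lit 3), (nat_lit 0), (nat_lit 1), false, false, false⟩,
  ⟨⟨(nat_lit 360), (nat_lit 380), (nat_lit 240), (nat_lit 320), (nat_lit 120), (nat_lit 180), (nat_lit 240), (nat_lit 320), (nat_lit 120), (nat_lit 240), (nat_lit 0), (nat_lit 400), (nat_lit 0), (nat_lit 20)⟩, (nat_lit 0), (nat_lit 1), (nat_lit 1), false, false, false⟩,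
  ⟨⟨(nat_lit 360), (nat_lit 380), (nat_lit 240), (nat_lit 320), (nat_lit 180), (nat_lit 220), (nat_lit 240), (nat_lit 320), (nat_lit 120), (nat_lit 240), (nat_lit 0), (nat_lit 400), (nat_lit 0), (nat_lit 20)⟩, (nat_lit 0), (nat_lit 1), (nat_lit 1), false, false, false⟩,
  ⟨⟨(nat_lit 360), (nat_lit 380), (nat_lit 240), (nat_lit 320), (nat_lit 120), (nat_lit 220), (nat_lit 240), (nat_lit 320), (nat_lit 120), (nat_lit 240), (nat_lit 0), (nat_lit 400), (nat_lit 0), (nat_lit 20)⟩, (nat_lit 1), (nat_lit 1), (nat_lit 1), false, false, false⟩,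
  ⟨⟨(nat_lit 360), (nat_lit 380), (nat_lit 240), (nat_lit 320), (nat_lit 120), (nat_lit 180), (nat_lit 320), (nat_lit 360), (nat_lit 120), (nat_lit 200), (nat_lit 0), (nat_lit 390), (nat_lit 0), (nat_lit 20)⟩, (nat_lit 0), (nat_lit 1), (nat_lit 1), false, false, false⟩,
  ⟨⟨(nat_lit 360), (nat_lit 380), (nat_lit 240), (nat_lit 320), (nat_lit 120), (nat_lit 180), (nat_lit 320), (nat_lit 360), (nat_lit 200), (nat_lit 240), (nat_lit 0), (nat_lit 390), (nat_lit 0), (nat_lit 20)⟩, (nat_lit 0), (nat_lit 1), (nat_lit 1), false, false, false⟩,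
  ⟨⟨(nat_lit 360), (nat_lit 380), (nat_lit 240), (nat_lit 280), (nat_lit 120), (nat_lit 180), (nat_lit 360), (nat_lit 400), (nat_lit 120), (nat_lit 240), (nat_lit 20), (nat_lit 350), (nat_lit 0), (nat_lit 20)⟩, (nat_lit 0), (nat_lit 1), (nat_lit 1), false, false, false⟩,
  ⟨⟨(nat_lit 360), (nat_lit 380), (nat_lit 280), (nat_lit 320), (nat_lit 120), (nat_lit 180), (nat_lit 360), (nat_lit 400), (nat_lit 120), (nat_lit 240), (nat_lit 20), (nat_lit 350), (nat_lit 0), (nat_lit 20)⟩, (nat_lit 0), (nat_lit 1), (nat_lit 1), false, false, false⟩,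
  ⟨⟨(nat_lit 360), (nat_lit 380), (nat_lit 240), (nat_lit 320), (nat_lit 120), (nat_lit 180), (nat_lit 320), (nat_lit 400), (nat_lit 120), (nat_lit 240), (nat_lit 0), (nat_lit 390), (nat_lit 0), (nat_lit 20)⟩, (nat_lit 1), (nat_lit 1), (nat_lit 1), false, false, false⟩,
  ⟨⟨(nat_lit 360), (nat_lit 380), (nat_lit 240), (nat_lit 320), (nat_lit 180), (nat_lit 220), (nat_lit 320), (nat_lit 400), (nat_lit 120), (nat_lit 240), (nat_lit 0), (nat_lit 390), (nat_lit 0), (nat_lit 20)⟩, (nat_lit 3), (nat_lit 1), (nat_lit 1), false, false, false⟩,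
  ⟨⟨(nat_lit 360), (nat_lit 380), (nat_lit 240), (nat_lit 320), (nat_lit 120), (nat_lit 180), (nat_lit 110), (nat_lit 240), (nat_lit 120), (nat_lit 240), (nat_lit 0), (nat_lit 400), (nat_lit 20), (nat_lit 40)⟩, (nat_lit 3), (nat_lit 0), (nat_lit 1), false, false, false⟩,
  ⟨⟨(nat_lit 360), (nat_lit 380), (nat_lit 240), (nat_lit 320), (nat_lit 120), (nat_lit 180), (nat_lit 110), (nat_lit 240), (nat_lit 120), (nat_lit 240), (nat_lit 0), (nat_lit 400), (nat_lit 20), (nat_lit 40)⟩, (nat_lit 3), (nat_lit 1), (nat_lit 1), false, false, false⟩,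
  ⟨⟨(nat_lit 360), (nat_lit 380), (nat_lit 240), (nat_lit 320), (nat_lit 180), (nat_lit 220), (nat_lit 110), (nat_lit 240), (nat_lit 120), (nat_lit 240), (nat_lit 0), (nat_lit 400), (nat_lit 20), (nat_lit 40)⟩, (nat_lit 3), (nat_lit 3), (nat_lit 1), false, false, false⟩,
  ⟨⟨(nat_lit 360), (nat_lit 380), (nat_lit 240), (nat_lit 280), (nat_lit 120), (nat_lit 180), (nat_lit 240), (nat_lit 320), (nat_lit 120), (nat_lit 240), (nat_lit 0), (nat_lit 400), (nat_lit 20), (nat_lit 40)⟩, (nat_lit 0), (nat_lit 3), (nat_lit 1), false, false, false⟩,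
  ⟨⟨(nat_lit 360), (nat_lit 380), (nat_lit 240), (nat_lit 280), (nat_lit 120), (nat_lit 180), (nat_lit 320), (nat_lit 380), (nat_lit 120), (nat_lit 240), (nat_lit 0), (nat_lit 400), (nat_lit 20), (nat_lit 40)⟩, (nat_lit 0), (nat_lit 3), (nat_lit 1), false, false, false⟩,
  ⟨⟨(nat_lit 360), (nat_lit 380), (nat_lit 240), (nat_lit 280), (nat_lit 120), (nat_lit 180), (nat_lit 240), (nat_lit 380), (nat_lit 120), (nat_lit 240), (nat_lit 0), (nat_lit 400), (nat_lit 20), (nat_lit 40)⟩, (nat_lit 1), (nat_lit 3), (nat_lit 1), false, false, false⟩,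
  ⟨⟨(nat_lit 360), (nat_lit 380), (nat_lit 280), (nat_lit 320), (nat_lit 120), (nat_lit 180), (nat_lit 240), (nat_lit 400), (nat_lit 120), (nat_lit 240), (nat_lit 0), (nat_lit 200), (nat_lit 20), (nat_lit 40)⟩, (nat_lit 3), (nat_lit 3), (nat_lit 1), false, false, false⟩,
  ⟨⟨(nat_lit 360), (nat_lit 380), (nat_lit 280), (nat_lit 320), (nat_lit 120), (nat_lit 160), (nat_lit 240), (nat_lit 320), (nat_lit 120), (nat_lit 240), (nat_lit 200), (nat_lit 370), (nat_lit 20), (nat_lit 40)⟩, (nat_lit 0), (nat_lit 3), (nat_lit 1), false, false, false⟩]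
theorem t032 (h : EC env Ei) : ∀ τ ∈ l032, Dead τ :=
  List.forall_mem_cons.mpr ⟨chkT_sound0 h (T := c17_0) (by decide +kernel),
  List.forall_mem_cons.mpr ⟨chkT_sound0 h (T := c17_1) (by decide +kernel),
  List.forall_mem_cons.mpr ⟨chkT_sound0 h (T := c17_2) (by decide +kernel),
  List.forall_mem_cons.mpr ⟨chkT_sound0 h (T := c17_3) (by decide +kernel),
  List.forall_mem_cons.mpr ⟨chkT_sound0 h (T := c17_4) (by decide +kernel),
  List.forall_mem_cons.mpr ⟨chkT_sound0 h (T := c17_5) (by decide +kernel),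
  List.forall_mem_cons.mpr ⟨chkT_sound0 h (T := c17_6) (by decide +kernel),
  List.forall_mem_cons.mpr ⟨chkT_sound0 h (T := c17_7) (by decide +kernel),
  List.forall_mem_cons.mpr ⟨chkT_sound0 h (T := c17_8) (by decide +kernel),
  List.forall_mem_cons.mpr ⟨chkT_sound0 h (T := c17_9) (by decide +kernel),
  List.forall_mem_cons.mpr ⟨chkT_sound0 h (T := c17_10) (by decide +kernel),
  List.forall_mem_cons.mpr ⟨chkT_sound0 h (T := c17_11) (by decide +kernel),
  List.forall_mem_cons.mpr ⟨chkT_sound0 h (T := c17_12) (by decide +kernel),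
  List.forall_mem_cons.mpr ⟨chkT_sound0 h (T := c17_13) (by decide +kernel),
  List.forall_mem_cons.mpr ⟨chkT_sound0 h (T := c17_14) (by decide +kernel),
  List.forall_mem_cons.mpr ⟨chkT_sound0 h (T := c17_15) (by decide +kernel),
  List.forall_mem_cons.mpr ⟨chkT_sound0 h (T := c17_16) (by decide +kernel),
  List.forall_mem_cons.mpr ⟨chkT_sound0 h (T := c17_17) (by decide +kernel),
  List.forall_mem_cons.mpr ⟨chkT_sound0 h (T := c17_18) (by decide +kernel),
  List.forall_mem_cons.mpr ⟨chkT_sound0 h (T := c17_19) (by decide +kernel),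
  List.forall_mem_cons.mpr ⟨chkT_sound0 h (T := c17_20) (by decide +kernel),
  List.forall_mem_cons.mpr ⟨chkT_sound0 h (T := c17_21) (by decide +kernel),
  List.forall_mem_cons.mpr ⟨chkT_sound0 h (T := c17_22) (by decide +kernel),
  List.forall_mem_cons.mpr ⟨chkT_sound0 h (T := c17_23) (by decide +kernel),
  List.forall_mem_cons.mpr ⟨chkT_sound0 h (T := c17_24) (by decide +kernel),
  List.forall_mem_cons.mpr ⟨chkT_sound0 h (T := c17_25) (by decide +kernel),
  List.forall_mem_cons.mpr ⟨chkT_sound0 h (T := c17_26) (by decide +kernel),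
  List.forall_mem_cons.mpr ⟨chkT_sound0 h (T := c17_27) (by decide +kernel),
  List.forall_mem_cons.mpr ⟨chkT_sound0 h (T := c17_28) (by decide +kernel),
  List.forall_mem_cons.mpr ⟨chkT_sound0 h (T := c17_29) (by decide +kernel),
  List.forall_mem_cons.mpr ⟨chkT_sound0 h (T := c17_30) (by decide +kernel),
  List.forall_mem_cons.mpr ⟨chkT_sound0 h (T := c17_31) (by decide +kernel),
  List.forall_mem_cons.mpr ⟨chkT_sound0 h (T := c17_32) (by decide +kernel),
  List.forall_mem_cons.mpr ⟨chkT_sound0 h (T := c17_33) (by decide +kernel),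
  List.forall_mem_nil _⟩⟩⟩⟩⟩⟩⟩⟩⟩⟩⟩⟩⟩⟩⟩⟩⟩⟩⟩⟩⟩⟩⟩⟩⟩⟩⟩⟩⟩⟩⟩⟩⟩⟩
end TC
end Pool.Agent.Lib.MP_6947cd_al
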