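import Pool.Agent.Lib.MP_6947cd_al.C.LeafF
import Pool.Agent.Lib.MP_6947cd_al.TC.E
import Pool.Agent.Lib.MP_6947cd_al.TC.F

/-!
Problem MP_6947cd_al (Chollet).  CASE C, tables and certificates.  Trees of leaves (part 33 of root 17).
-/

set_option autoImplicit false
set_option linter.all false
set_option maxRecDepth 100000
set_option maxHeartbeats 4000000
namespace Pool.Agent.Lib.MP_6947cd_al
namespace TC
open C1
noncomputable def c17_34 : Tr Lf :=
 (.spl (nat_lit 5) (nat_lit 280) (.leaf ⟨(nat_lit 98), (nat_lit 902), (nat_lit 0), (nat_lit 0), (nat_lit 0), (nat_lit 3499), (nat_lit 5645), (nat_lit 0), (nat_lit 0), (nat_lit 0), (nat_lit 194800), [((nat_lit 380), [((nat_lit 41), (nat_lit 2), (nat_lit 58)), ((nat_lit 41), (nat_lit 5), (nat_lit 40))])], ⟨(nat_lit 8), false, true, true, (nat_lit 339), (nat_lit 2236), (nat_lit 3163), [(nat_lit 1771478), (nat_lit 1762142), (nat_lit 1815720), (nat_lit 1807623), (nat_lit 1893385), (nat_lit 1876173), (nat_lit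 1937695), (nat_lit 1921722)]⟩, ⟨(nat_lit 3), false, false, true, (nat_lit 161), (nat_lit 2236), (nat_lit 3163), [(nat_lit 1289472), (nat_lit 1294870), (nat_lit 1333702), (nat_lit 1340339), (nat_lit 1472332), (nat_lit 1465917), (nat_lit 1516642), (nat_lit 1511466)]⟩, (nat_lit 5128310), (nat_lit 34266203), (nat_lit 25179536), (nat_lit 7554261), (nat_lit 5), (nat_lit 0), [], [⟨(nat_lit 1), (nat_lit 100), (nat_lit 54), (nat_lit 98), (nat_lit 365177770)⟩], [], [],
 ⟨⟨[(nat_lit 40), (nat_lit 60), (nat_lit 80)], [(nat_lit 0), (nat_lit 832), (nat_lit 1534)], [((nat_lit 0), (nat_lit 0), (nat_lit 0)), ((nat_lit 1000), (nat_lit 659), (nat_lit 528)), ((nat_lit 1000), (nat_lit 650), (nat_lit 549))], ((nat_lit 63), (nat_lit 100), (nat_lit 62))⟩, (nat_lit 937039), (nat_lit 106), (nat_lit 106), (nat_lit 0), (nat_lit 0), [(nat_lit 1834940014), (nat_lit 2656057784), (nat_lit 3542489600)], [(nat_lit 0), (nat_lit 0), (nat_lit 0)], [(nat_lit 26428958900), (nat_lit 27484012368),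 (nat_lit 30385501529), (nat_lit 31411350350), (nat_lit 28056876642), (nat_lit 28940956005), (nat_lit 31383862346), (nat_lit 32199057295)], (nat_lit 0), (nat_lit 0), (nat_lit 0), (nat_lit 0), (nat_lit 0), (nat_lit 0), [], [(nat_lit 2), (nat_lit 44), (nat_lit 272), (nat_lit 60), (nat_lit 10)]⟩,
 ⟨⟨[(nat_lit 60), (nat_lit 100), (nat_lit 140)], [(nat_lit 0), (nat_lit 0), (nat_lit 2047)], [((nat_lit 0), (nat_lit 0), (nat_lit 0)), ((nat_lit 0), (nat_lit 0), (nat_lit 0)), ((nat_lit 1000), (nat_lit 993), (nat_lit 781))], ((nat_lit 94), (nat_lit 100), (nat_lit 62))⟩, (nat_lit 1955850), (nat_lit 442), (nat_lit 442), (nat_lit 0), (nat_lit 824326), [(nat_lit 2960364000), (nat_lit 5637500000), (nat_lit 8877484000)], [], [(nat_lit 29813181817), (nat_lit 30466794530), (nat_lit 32227513008), (nat_lit 32941546306), (nat_lit 30558753047), (nat_lit 31238020102), (nat_lit 32969660157), (nat_lit 33578925010)], (nat_lit 1271251), (nat_lit 1271251), (nat_lit 1271251),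 (nat_lit 1271251), (nat_lit 1271251), (nat_lit 1271251), [(nat_lit 780000), (nat_lit 1435001), (nat_lit 1271251)], [(nat_lit 11), (nat_lit 55), (nat_lit 289), (nat_lit 75), (nat_lit 7)]⟩,
 Rw.none⟩) (.spl (nat_lit 4) (nat_lit 200) (.trX (nat_lit 3) (nat_lit 5) (nat_lit 4) (nat_lit 92) (nat_lit 40) (nat_lit 100) (nat_lit 390) (.trX (nat_lit 5) (nat_lit 3) (nat_lit 4) (nat_lit 80) (nat_lit 60) (nat_lit 100) (nat_lit 360) (.leaf ⟨(nat_lit 600), (nat_lit 400), (nat_lit 0), (nat_lit 0), (nat_lit 0), (nat_lit 3315), (nat_lit 2703), (nat_lit 0), (nat_lit 0), (nat_lit 0), (nat_lit 421200), [((nat_lit 380), [((nat_lit 41), (nat_lit 2), (nat_lit 582)), ((nat_lit 41), (nat_lit 5), (nat_lit 18))])], ⟨(nat_lit 8), false, true, true, (nat_lit 336), (nat_lit 2236), (nat_lit 3163), [(nat_lit 1771478), (nat_lit 1762142), (nat_lit 1815720), (nat_lit 1807623), (nat_lit 1878147), (nat_lit 1861919), (nat_lit 1922456), (nat_lit 1907468)]⟩, ⟨(nat_lit 3), false, false,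 true, (nat_lit 149), (nat_lit 2236), (nat_lit 3163), [(nat_lit 1289472), (nat_lit 1294870), (nat_lit 1333702), (nat_lit 1340339), (nat_lit 1411379), (nat_lit 1408901), (nat_lit 1455689), (nat_lit 1454450)]⟩, (nat_lit 5025604), (nat_lit 34956509), (nat_lit 25224681), (nat_lit 6818810), (nat_lit 7), (nat_lit 0), [], [], [⟨(nat_lit 1), (nat_lit 77), (nat_lit 91), (nat_lit 100), (nat_lit 40978808)⟩], [⟨(nat_lit 1), (nat_lit 80), (nat_lit 63), (nat_lit 100), (nat_lit 171129100)⟩],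
 ⟨⟨[(nat_lit 40), (nat_lit 60), (nat_lit 80)], [(nat_lit 0), (nat_lit 832), (nat_lit 1534)], [((nat_lit 0), (nat_lit 0), (nat_lit 0)), ((nat_lit 1000), (nat_lit 659), (nat_lit 528)), ((nat_lit 1000), (nat_lit 650), (nat_lit 549))], ((nat_lit 63), (nat_lit 100), (nat_lit 62))⟩, (nat_lit 2348), (nat_lit 103), (nat_lit 103), (nat_lit 0), (nat_lit 0), [(nat_lit 1540662406), (nat_lit 1485498083), (nat_lit 1537109600)], [(nat_lit 0), (nat_lit 0), (nat_lit 0)], [(nat_lit 25727265894), (nat_lit 26801933548), (nat_lit 29501841984), (nat_lit 30537741769), (nat_lit 26668121004), (nat_lit 27595407778), (nat_lit 30026961105), (nat_lit 30962065304)], (nat_lit 0), (nat_lit 0), (nat_lit 0), (nat_lit 0), (nat_lit 0), (nat_lit 0), [], [(nat_lit 2), (nat_lit 44), (nat_lit 260), (nat_lit 50), (nat_lit 9)]⟩,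
 ⟨⟨[(nat_lit 60), (nat_lit 100), (nat_lit 140)], [(nat_lit 0), (nat_lit 0), (nat_lit 2047)], [((nat_lit 0), (nat_lit 0), (nat_lit 0)), ((nat_lit 0), (nat_lit 0), (nat_lit 0)), ((nat_lit 1000), (nat_lit 993), (nat_lit 781))], ((nat_lit 94), (nat_lit 100), (nat_lit 62))⟩, (nat_lit 791184), (nat_lit 425), (nat_lit 425), (nat_lit 0), (nat_lit 824326), [(nat_lit 1312800000), (nat_lit 2500000000), (nat_lit 3936800000)], [], [(nat_lit 13105282402), (nat_lit 13405049256), (nat_lit 13985098127), (nat_lit 14200461101), (nat_lit 13859570310), (nat_lit 14074427776), (nat_lit 14638641262), (nat_lit 14835667058)], (nat_lit 1271251), (nat_lit 1271251), (nat_lit 1271251), (nat_lit 1271251), (nat_lit 1271251), (nat_lit 1271251), [(nat_lit 780000), (nat_lit 1435001), (nat_lit 1271251)], [(nat_lit 11), (nat_lit 55), (nat_lit 240), (nat_lit 0), (nat_lit 5)]⟩,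
 Rw.none⟩))) (.spl (nat_lit 1) (nat_lit 300) (.trX (nat_lit 3) (nat_lit 0) (nat_lit 1) (nat_lit 69) (nat_lit 45) (nat_lit 100) (nat_lit 390) (.stt (nat_lit 2) (.leaf ⟨(nat_lit 0), (nat_lit 1000), (nat_lit 0), (nat_lit 0), (nat_lit 0), (nat_lit 4093), (nat_lit 6302), (nat_lit 0), (nat_lit 0), (nat_lit 0), (nat_lit 0), [], Pd.none, Pd.none, (nat_lit 0), (nat_lit 1), (nat_lit 0), (nat_lit 0), (nat_lit 7), (nat_lit 0), [], [], [⟨(nat_lit 1), (nat_lit 59), (nat_lit 94), (nat_lit 100), (nat_lit 434252251)⟩], [⟨(nat_lit 1), (nat_lit 71), (nat_lit 64), (nat_lit 100), (nat_lit 66080602)⟩],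
 ⟨⟨[(nat_lit 40), (nat_lit 60), (nat_lit 80)], [(nat_lit 0), (nat_lit 832), (nat_lit 1534)], [((nat_lit 0), (nat_lit 0), (nat_lit 0)), ((nat_lit 1000), (nat_lit 659), (nat_lit 528)), ((nat_lit 1000), (nat_lit 650), (nat_lit 549))], ((nat_lit 63), (nat_lit 100), (nat_lit 62))⟩, (nat_lit 1035246), (nat_lit 85), (nat_lit 85), (nat_lit 0), (nat_lit 0), [(nat_lit 2032000467), (nat_lit 3496346457), (nat_lit 4688000000)], [], [(nat_lit 27863768129), (nat_lit 28878255075), (nat_lit 31187830561), (nat_lit 32075697164), (nat_lit 28559567961), (nat_lit 29515705573), (nat_lit 31678281554), (nat_lit 32523529066)], (nat_lit 0), (nat_lit 0), (nat_lit 0), (nat_lit 0), (nat_lit 0), (nat_lit 0), [], [(nat_lit 2), (nat_lit 44), (nat_lit 203), (nat_lit 0), (nat_lit 6)]⟩,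
 ⟨⟨[(nat_lit 60), (nat_lit 100), (nat_lit 140)], [(nat_lit 0), (nat_lit 0), (nat_lit 2047)], [((nat_lit 0), (nat_lit 0), (nat_lit 0)), ((nat_lit 0), (nat_lit 0), (nat_lit 0)), ((nat_lit 1000), (nat_lit 993), (nat_lit 781))], ((nat_lit 94), (nat_lit 100), (nat_lit 62))⟩, (nat_lit 0), (nat_lit 87), (nat_lit 87), (nat_lit 0), (nat_lit 0), [(nat_lit 3282000000), (nat_lit 6250000000), (nat_lit 9842000000)], [], [(nat_lit 28552341548), (nat_lit 29345510172), (nat_lit 32602511219), (nat_lit 33202410992), (nat_lit 32755558774), (nat_lit 33329841053), (nat_lit 35924382460), (nat_lit 36452316900)], (nat_lit 0), (nat_lit 0), (nat_lit 0), (nat_lit 0), (nat_lit 0), (nat_lit 0), [], [(nat_lit 11), (nat_lit 55), (nat_lit 203), (nat_lit 0), (nat_lit 4)]⟩,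
 Rw.none⟩) (.leaf ⟨(nat_lit 35), (nat_lit 844), (nat_lit 0), (nat_lit 121), (nat_lit 0), (nat_lit 3458), (nat_lit 6569), (nat_lit 1420), (nat_lit 0), (nat_lit 0), (nat_lit 140000), [((nat_lit 380), [((nat_lit 41), (nat_lit 5), (nat_lit 35))])], ⟨(nat_lit 8), false, true, true, (nat_lit 332), (nat_lit 2236), (nat_lit 3163), [(nat_lit 1771478), (nat_lit 1762142), (nat_lit 1793619), (nat_lit 1784902), (nat_lit 1878147), (nat_lit 1861919), (nat_lit 1900301), (nat_lit 1884694)]⟩, ⟨(nat_lit 5), false, false, true, (nat_lit 185), (nat_lit 2236), (nat_lit 3163), [(nat_lit 1411379), (nat_lit 1408901), (nat_lit 1455689), (nat_lit 1454450), (nat_lit 1472332), (nat_lit 1465917), (nat_lit 1516642), (nat_lit 1511466)]⟩, (nat_lit 5307633), (nat_lit 33811726), (nat_lit 23940859), (nat_lit 9247415), (nat_lit 7), (nat_lit 0), [], [⟨(nat_lit 1), (nat_lit 100), (nat_lit 54), (nat_lit 98), (nat_lit 314612134)⟩], [⟨(nat_lit 1), (nat_lit 73), (nat_lit 94), (nat_lit 100),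 (nat_lit 295721672)⟩], [],
 ⟨⟨[(nat_lit 40), (nat_lit 60), (nat_lit 80)], [(nat_lit 0), (nat_lit 832), (nat_lit 1534)], [((nat_lit 0), (nat_lit 0), (nat_lit 0)), ((nat_lit 1000), (nat_lit 659), (nat_lit 528)), ((nat_lit 1000), (nat_lit 650), (nat_lit 549))], ((nat_lit 63), (nat_lit 100), (nat_lit 62))⟩, (nat_lit 1419627), (nat_lit 85), (nat_lit 85), (nat_lit 0), (nat_lit 0), [(nat_lit 1896298011), (nat_lit 3018372448), (nat_lit 3926274000)], [(nat_lit 0), (nat_lit 0), (nat_lit 0)], [(nat_lit 27080354149), (nat_lit 28022897587), (nat_lit 30215752136), (nat_lit 31165618564), (nat_lit 27804586741), (nat_lit 28689133807), (nat_lit 30807151735), (nat_lit 31684270283)], (nat_lit 0), (nat_lit 0), (nat_lit 0), (nat_lit 0), (nat_lit 0), (nat_lit 0), [], [(nat_lit 2), (nat_lit 44), (nat_lit 203), (nat_lit 0), (nat_lit 6)]⟩,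
 ⟨⟨[(nat_lit 60), (nat_lit 100), (nat_lit 140)], [(nat_lit 0), (nat_lit 0), (nat_lit 2047)], [((nat_lit 0), (nat_lit 0), (nat_lit 0)), ((nat_lit 0), (nat_lit 0), (nat_lit 0)), ((nat_lit 1000), (nat_lit 993), (nat_lit 781))], ((nat_lit 94), (nat_lit 100), (nat_lit 62))⟩, (nat_lit 1955899), (nat_lit 421), (nat_lit 421), (nat_lit 0), (nat_lit 813965), [(nat_lit 3167130000), (nat_lit 6031250000), (nat_lit 9497530000)], [], [(nat_lit 31375152822), (nat_lit 31736569376), (nat_lit 33502682142), (nat_lit 33786060794), (nat_lit 33471399263), (nat_lit 33791816125), (nat_lit 35447959926), (nat_lit 35809331023)], (nat_lit 1271251), (nat_lit 1271251), (nat_lit 1271251), (nat_lit 1271251), (nat_lit 1271251), (nat_lit 1271251), [(nat_lit 780000), (nat_lit 1435001), (nat_lit 1271251)], [(nat_lit 11), (nat_lit 55), (nat_lit 238), (nat_lit 0), (nat_lit 5)]⟩,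
 ⟨⟨[(nat_lit 140), (nat_lit 180), (nat_lit 200)], [(nat_lit 0), (nat_lit 0), (nat_lit 2835)], [((nat_lit 0), (nat_lit 0), (nat_lit 0)), ((nat_lit 0), (nat_lit 0), (nat_lit 0)), ((nat_lit 363), (nat_lit 1000), (nat_lit 798))], ((nat_lit 0), (nat_lit 0), (nat_lit 0))⟩, (nat_lit 33291), (nat_lit 300), (nat_lit 2202), (nat_lit 9450101), (nat_lit 4005727), [(nat_lit 1190882000), (nat_lit 1701018000), (nat_lit 1984400000)], [], [(nat_lit 6933254788), (nat_lit 6702134790), (nat_lit 6762818932), (nat_lit 6531234268), (nat_lit 6791827887), (nat_lit 6553781071), (nat_lit 6627267585), (nat_lit 6391181509)], (nat_lit 780000), (nat_lit 1100000), (nat_lit 1271251), (nat_lit 1271251), (nat_lit 1271251), (nat_lit 1271251), [(nat_lit 1977501), (nat_lit 1271251), (nat_lit 1271251)], [(nat_lit 32), (nat_lit 67), (nat_lit 647), (nat_lit 200), (nat_lit 13)]⟩⟩))) (.trX (nat_lit 5) (nat_lit 1) (nat_lit 2) (nat_lit 88) (nat_lit 68) (nat_lit 100) (nat_lit 350) (.leaf ⟨(nat_lit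 0), (nat_lit 1000), (nat_lit 0), (nat_lit 0), (nat_lit 0), (nat_lit 3751), (nat_lit 5307), (nat_lit 0), (nat_lit 0), (nat_lit 0), (nat_lit 0), [], Pd.none, Pd.none, (nat_lit 0), (nat_lit 1), (nat_lit 0), (nat_lit 0), (nat_lit 7), (nat_lit 0), [], [], [⟨(nat_lit 1), (nat_lit 68), (nat_lit 88), (nat_lit 100), (nat_lit 427492374)⟩], [],
 ⟨⟨[(nat_lit 40), (nat_lit 60), (nat_lit 80)], [(nat_lit 0), (nat_lit 832), (nat_lit 1534)], [((nat_lit 0), (nat_lit 0), (nat_lit 0)), ((nat_lit 1000), (nat_lit 659), (nat_lit 528)), ((nat_lit 1000), (nat_lit 650), (nat_lit 549))], ((nat_lit 63), (nat_lit 100), (nat_lit 62))⟩, (nat_lit 1755488), (nat_lit 87), (nat_lit 87), (nat_lit 0), (nat_lit 0), [(nat_lit 2032000007), (nat_lit 3477410565), (nat_lit 4688000000)], [], [(nat_lit 27137892797), (nat_lit 28112024858), (nat_lit 31137130391), (nat_lit 32087578627), (nat_lit 27849006021), (nat_lit 28761732948), (nat_lit 31653015342), (nat_lit 32544348955)], (nat_lit 0), (nat_lit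 0), (nat_lit 0), (nat_lit 0), (nat_lit 0), (nat_lit 0), [], [(nat_lit 2), (nat_lit 44), (nat_lit 203), (nat_lit 0), (nat_lit 6)]⟩,
 ⟨⟨[(nat_lit 60), (nat_lit 100), (nat_lit 120)], [(nat_lit 0), (nat_lit 609), (nat_lit 1609)], [((nat_lit 0), (nat_lit 0), (nat_lit 0)), ((nat_lit 1000), (nat_lit 905), (nat_lit 238)), ((nat_lit 1000), (nat_lit 882), (nat_lit 668))], ((nat_lit 87), (nat_lit 100), (nat_lit 60))⟩, (nat_lit 3864683), (nat_lit 379), (nat_lit 379), (nat_lit 0), (nat_lit 814513), [(nat_lit 3282000000), (nat_lit 6250000000), (nat_lit 7968000000)], [], [(nat_lit 30771258663), (nat_lit 31192004800), (nat_lit 33137757615), (nat_lit 33457326720), (nat_lit 32383100284), (nat_lit 32724700048), (nat_lit 34758773752), (nat_lit 35299092911)], (nat_lit 1271251), (nat_lit 1271251), (nat_lit 1271251), (nat_lit 1271251), (nat_lit 1271251), (nat_lit 1271251), [(nat_lit 780000), (nat_lit 1435001), (nat_lit 1271251)], [(nat_lit 10), (nat_lit 54), (nat_lit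 229), (nat_lit 0), (nat_lit 5)]⟩,
 Rw.none⟩)))))
noncomputable def c17_35 : Tr Lf :=
 (.leaf ⟨(nat_lit 35), (nat_lit 832), (nat_lit 0), (nat_lit 133), (nat_lit 0), (nat_lit 3900), (nat_lit 6783), (nat_lit 1441), (nat_lit 0), (nat_lit 0), (nat_lit 140000), [((nat_lit 380), [((nat_lit 41), (nat_lit 5), (nat_lit 35))])], ⟨(nat_lit 7), false, true, true, (nat_lit 316), (nat_lit 2236), (nat_lit 3163), [(nat_lit 1649422), (nat_lit 1647962), (nat_lit 1693606), (nat_lit 1693384), (nat_lit 1893385), (nat_lit 1876173), (nat_lit 1937695), (nat_lit 1921722)]⟩, ⟨(nat_lit 4), false, false, true, (nat_lit 175), (nat_lit 2236), (nat_lit 3163), [(nat_lit 1333702), (nat_lit 1340339), (nat_lit 1355794), (nat_lit 1363050), (nat_lit 1516642), (nat_lit 1511466), (nat_lit 1538797), (nat_lit 1534240)]⟩, (nat_lit 5215432), (nat_lit 35403871), (nat_lit 22825544), (nat_lit 8770585), (nat_lit 5), (nat_lit 0), [], [], [⟨(nat_lit 1), (nat_lit 63), (nat_lit 88), (nat_lit 100),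 (nat_lit 267692882)⟩], [],
 ⟨⟨[(nat_lit 40), (nat_lit 60), (nat_lit 80)], [(nat_lit 0), (nat_lit 832), (nat_lit 1534)], [((nat_lit 0), (nat_lit 0), (nat_lit 0)), ((nat_lit 1000), (nat_lit 659), (nat_lit 528)), ((nat_lit 1000), (nat_lit 650), (nat_lit 549))], ((nat_lit 63), (nat_lit 100), (nat_lit 62))⟩, (nat_lit 1279763), (nat_lit 106), (nat_lit 106), (nat_lit 0), (nat_lit 0), [(nat_lit 1896298065), (nat_lit 2926407866), (nat_lit 3926274000)], [(nat_lit 0), (nat_lit 0), (nat_lit 0)], [(nat_lit 22693913923), (nat_lit 24010105773), (nat_lit 31079620900), (nat_lit 32152157950), (nat_lit 24785809823), (nat_lit 25878883323), (nat_lit 31844307800), (nat_lit 32748509500)], (nat_lit 0), (nat_lit 0), (nat_lit 0), (nat_lit 0), (nat_lit 0), (nat_lit 0), [], [(nat_lit 2), (nat_lit 44), (nat_lit 272), (nat_lit 60), (nat_lit 11)]⟩,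
 ⟨⟨[(nat_lit 60), (nat_lit 100), (nat_lit 140)], [(nat_lit 0), (nat_lit 0), (nat_lit 2047)], [((nat_lit 0), (nat_lit 0), (nat_lit 0)), ((nat_lit 0), (nat_lit 0), (nat_lit 0)), ((nat_lit 1000), (nat_lit 993), (nat_lit 781))], ((nat_lit 94), (nat_lit 100), (nat_lit 62))⟩, (nat_lit 2079146), (nat_lit 366), (nat_lit 366), (nat_lit 0), (nat_lit 679442), [(nat_lit 3167130000), (nat_lit 6031250000), (nat_lit 9497530000)], [], [(nat_lit 27442100757), (nat_lit 28620896396), (nat_lit 32452435825), (nat_lit 33266116968), (nat_lit 31779076587), (nat_lit 32589801498), (nat_lit 36659343072), (nat_lit 37579040478)], (nat_lit 1271251), (nat_lit 1271251), (nat_lit 1271251), (nat_lit 1271251), (nat_lit 1271251), (nat_lit 1271251), [(nat_lit 780000), (nat_lit 1435001), (nat_lit 1271251)], [(nat_lit 11), (nat_lit 55), (nat_lit 428), (nat_lit 200), (nat_lit 11)]⟩,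
 ⟨⟨[(nat_lit 120), (nat_lit 160), (nat_lit 180)], [(nat_lit 0), (nat_lit 0), (nat_lit 1613)], [((nat_lit 0), (nat_lit 0), (nat_lit 0)), ((nat_lit 0), (nat_lit 0), (nat_lit 0)), ((nat_lit 620), (nat_lit 1000), (nat_lit 670))], ((nat_lit 100), (nat_lit 68), (nat_lit 61))⟩, (nat_lit 57883), (nat_lit 300), (nat_lit 1942), (nat_lit 9868605), (nat_lit 3514656), [(nat_lit 1059744000), (nat_lit 1578976000), (nat_lit 1869714000)], [], [(nat_lit 7606671907), (nat_lit 7520796504), (nat_lit 7060562473), (nat_lit 6975031469), (nat_lit 6986393918), (nat_lit 6902468448), (nat_lit 6413883382), (nat_lit 6328345648)], (nat_lit 1100000), (nat_lit 1271251), (nat_lit 780000), (nat_lit 1762501), (nat_lit 1271251), (nat_lit 1271251), [(nat_lit 1695001), (nat_lit 1271251), (nat_lit 1271251)], [(nat_lit 28), (nat_lit 65), (nat_lit 586), (nat_lit 200), (nat_lit 13)]⟩⟩)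
noncomputable def c17_36 : Tr Lf :=
 (.leaf ⟨(nat_lit 0), (nat_lit 1000), (nat_lit 0), (nat_lit 0), (nat_lit 0), (nat_lit 5005), (nat_lit 6898), (nat_lit 0), (nat_lit 0), (nat_lit 0), (nat_lit 0), [], Pd.none, Pd.none, (nat_lit 0), (nat_lit 1), (nat_lit 0), (nat_lit 0), (nat_lit 5), (nat_lit 0), [], [], [⟨(nat_lit 1), (nat_lit 49), (nat_lit 92), (nat_lit 100), (nat_lit 422444052)⟩], [],
 ⟨⟨[(nat_lit 40), (nat_lit 60), (nat_lit 80)], [(nat_lit 0), (nat_lit 832), (nat_lit 1534)], [((nat_lit 0), (nat_lit 0), (nat_lit 0)), ((nat_lit 1000), (nat_lit 659), (nat_lit 528)), ((nat_lit 1000), (nat_lit 650), (nat_lit 549))], ((nat_lit 63), (nat_lit 100), (nat_lit 62))⟩, (nat_lit 458227), (nat_lit 263), (nat_lit 263), (nat_lit 0), (nat_lit 555387), [(nat_lit 2032000359), (nat_lit 3282000023), (nat_lit 4688000000)], [], [(nat_lit 24678229143), (nat_lit 25847915171), (nat_lit 32992343855), (nat_lit 34193535503), (nat_lit 26314116558), (nat_lit 27283881768), (nat_lit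 33262953210), (nat_lit 34262586025)], (nat_lit 1271251), (nat_lit 1271251), (nat_lit 1271251), (nat_lit 1271251), (nat_lit 780000), (nat_lit 1762501), [(nat_lit 490000), (nat_lit 780000), (nat_lit 1100000)], [(nat_lit 2), (nat_lit 44), (nat_lit 272), (nat_lit 60), (nat_lit 11)]⟩,
 ⟨⟨[(nat_lit 60), (nat_lit 100), (nat_lit 140)], [(nat_lit 0), (nat_lit 0), (nat_lit 2047)], [((nat_lit 0), (nat_lit 0), (nat_lit 0)), ((nat_lit 0), (nat_lit 0), (nat_lit 0)), ((nat_lit 1000), (nat_lit 993), (nat_lit 781))], ((nat_lit 94), (nat_lit 100), (nat_lit 62))⟩, (nat_lit 2346605), (nat_lit 225), (nat_lit 225), (nat_lit 0), (nat_lit 346869), [(nat_lit 3282000000), (nat_lit 6250000000), (nat_lit 9842000000)], [], [(nat_lit 25778546095), (nat_lit 27383476677), (nat_lit 32463866164), (nat_lit 33588326584), (nat_lit 31700870562), (nat_lit 32818106814), (nat_lit 37809267684), (nat_lit 38762151278)], (nat_lit 1271251), (nat_lit 1271251), (nat_lit 1271251), (nat_lit 1271251),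 (nat_lit 1271251), (nat_lit 1271251), [(nat_lit 780000), (nat_lit 1435001), (nat_lit 1271251)], [(nat_lit 11), (nat_lit 55), (nat_lit 428), (nat_lit 200), (nat_lit 11)]⟩,
 Rw.none⟩)
noncomputable def c17_37 : Tr Lf :=
 (.spl (nat_lit 5) (nat_lit 200) (.spl (nat_lit 1) (nat_lit 280) (.trX (nat_lit 3) (nat_lit 0) (nat_lit 1) (nat_lit 65) (nat_lit 54) (nat_lit 100) (nat_lit 380) (.spl (nat_lit 0) (nat_lit 370) (.leaf ⟨(nat_lit 0), (nat_lit 781), (nat_lit 0), (nat_lit 219), (nat_lit 0), (nat_lit 4440), (nat_lit 8922), (nat_lit 2931), (nat_lit 0), (nat_lit 0), (nat_lit 0), [], Pd.none, Pd.none, (nat_lit 0), (nat_lit 1), (nat_lit 0), (nat_lit 0), (nat_lit 4), (nat_lit 0), [], [], [⟨(nat_lit 0), (nat_lit 100), (nat_lit 95), (nat_lit 30), (nat_lit 1984577)⟩], [⟨(nat_lit 0), (nat_lit 100), (nat_lit 84), (nat_lit 47), (nat_lit 75416640)⟩],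
 ⟨⟨[(nat_lit 40), (nat_lit 60), (nat_lit 80)], [(nat_lit 0), (nat_lit 832), (nat_lit 1534)], [((nat_lit 0), (nat_lit 0), (nat_lit 0)), ((nat_lit 1000), (nat_lit 659), (nat_lit 528)), ((nat_lit 1000), (nat_lit 650), (nat_lit 549))], ((nat_lit 63), (nat_lit 100), (nat_lit 62))⟩, (nat_lit 1370854), (nat_lit 171), (nat_lit 171), (nat_lit 0), (nat_lit 267832), [(nat_lit 2032000009), (nat_lit 3282000013), (nat_lit 4688000000)], [], [(nat_lit 23170285618), (nat_lit 23799322378), (nat_lit 30722172540), (nat_lit 31329067960), (nat_lit 25039904418), (nat_lit 25561627458), (nat_lit 31463329980), (nat_lit 31969602535)], (nat_lit 1271251), (nat_lit 1271251), (nat_lit 1271251), (nat_lit 1271251), (nat_lit 780000), (nat_lit 1762501), [(nat_lit 490000), (nat_lit 780000), (nat_lit 1100000)], [(nat_lit 2), (nat_lit 44), (nat_lit 272), (nat_lit 60), (nat_lit 11)]⟩,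
 ⟨⟨[(nat_lit 80), (nat_lit 120), (nat_lit 160)], [(nat_lit 0), (nat_lit 0), (nat_lit 2132)], [((nat_lit 0), (nat_lit 0), (nat_lit 0)), ((nat_lit 0), (nat_lit 0), (nat_lit 0)), ((nat_lit 858), (nat_lit 1000), (nat_lit 713))], ((nat_lit 100), (nat_lit 92), (nat_lit 61))⟩, (nat_lit 3365569), (nat_lit 492), (nat_lit 492), (nat_lit 0), (nat_lit 507440), [(nat_lit 4688000000), (nat_lit 7968000000), (nat_lit 11872000000)], [], [(nat_lit 32778119256), (nat_lit 34413810140), (nat_lit 39407564818), (nat_lit 40913218700), (nat_lit 27612924384), (nat_lit 28800707604), (nat_lit 32561263167), (nat_lit 33190049698)], (nat_lit 1271251), (nat_lit 1271251), (nat_lit 1271251), (nat_lit 1271251), (nat_lit 0), (nat_lit 1412501), [(nat_lit 1100000), (nat_lit 1785001), (nat_lit 1271251)], [(nat_lit 18), (nat_lit 59), (nat_lit 456), (nat_lit 225), (nat_lit 11)]⟩,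
 ⟨⟨[(nat_lit 120), (nat_lit 160), (nat_lit 180)], [(nat_lit 0), (nat_lit 533), (nat_lit 2066)], [((nat_lit 0), (nat_lit 0), (nat_lit 0)), ((nat_lit 960), (nat_lit 1000), (nat_lit 200)), ((nat_lit 615), (nat_lit 1000), (nat_lit 729))], ((nat_lit 100), (nat_lit 74), (nat_lit 60))⟩, (nat_lit 512780), (nat_lit 300), (nat_lit 1143), (nat_lit 14541602), (nat_lit 1602018), [(nat_lit 1744992000), (nat_lit 2599968000), (nat_lit 3078702000)], [], [(nat_lit 11647305188), (nat_lit 11466089651), (nat_lit 10766213280), (nat_lit 10547754936), (nat_lit 10351720277), (nat_lit 8469432578), (nat_lit 14364284502), (nat_lit 11656497738)], (nat_lit 1271251), (nat_lit 1271251), (nat_lit 780000), (nat_lit 1762501), (nat_lit 0), (nat_lit 1412501), [(nat_lit 1695001), (nat_lit 1271251), (nat_lit 1271251)], [(nat_lit 28), (nat_lit 65), (nat_lit 401), (nat_lit 175), (nat_lit 10)]⟩⟩) (.trX (nat_lit 3) (nat_lit 0) (nat_lit 1) (nat_lit 57) (nat_lit 62) (nat_lit 100) (nat_lit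 370) (.leaf ⟨(nat_lit 172), (nat_lit 648), (nat_lit 0), (nat_lit 180), (nat_lit 0), (nat_lit 4159), (nat_lit 7081), (nat_lit 2414), (nat_lit 0), (nat_lit 0), (nat_lit 135400), [((nat_lit 380), [((nat_lit 24), (nat_lit 1), (nat_lit 61)), ((nat_lit 24), (nat_lit 2), (nat_lit 111))])], ⟨(nat_lit 6), false, true, true, (nat_lit 288), (nat_lit 2236), (nat_lit 2739), [(nat_lit 1603890), (nat_lit 1602558), (nat_lit 1648684), (nat_lit 1648065), (nat_lit 1795844), (nat_lit 1787863), (nat_lit 1840679), (nat_lit 1833412)]⟩, ⟨(nat_lit 4), false, false, false, (nat_lit 188), (nat_lit 2236), (nat_lit 2739), [(nat_lit 1359410), (nat_lit 1363145), (nat_lit 1404204), (nat_lit 1408652), (nat_lit 1536642), (nat_lit 1534240), (nat_lit 1581477), (nat_lit 1579788)]⟩, (nat_lit 5263301), (nat_lit 36735968), (nat_lit 20123092), (nat_lit 10140940), (nat_lit 4), (nat_lit 0), [], [], [], [⟨(nat_lit 0), (nat_lit 100), (nat_lit 86), (nat_lit 44), (nat_lit 52769466)⟩],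
 ⟨⟨[(nat_lit 40), (nat_lit 60), (nat_lit 80)], [(nat_lit 0), (nat_lit 1134), (nat_lit 1930)], [((nat_lit 0), (nat_lit 0), (nat_lit 0)), ((nat_lit 1000), (nat_lit 575), (nat_lit 619)), ((nat_lit 1000), (nat_lit 574), (nat_lit 622))], ((nat_lit 57), (nat_lit 100), (nat_lit 64))⟩, (nat_lit 769707), (nat_lit 181), (nat_lit 181), (nat_lit 0), (nat_lit 305915), [(nat_lit 1788341868), (nat_lit 2713832815), (nat_lit 3707759200)], [(nat_lit 0), (nat_lit 0), (nat_lit 0)], [(nat_lit 23832475187), (nat_lit 24402757808), (nat_lit 30257564752), (nat_lit 30864806013), (nat_lit 25590213094), (nat_lit 26066779018), (nat_lit 31118184354), (nat_lit 31625492148)], (nat_lit 1271251), (nat_lit 1271251), (nat_lit 1271251), (nat_lit 1271251), (nat_lit 780000), (nat_lit 1762501), [(nat_lit 490000), (nat_lit 780000), (nat_lit 1100000)], [(nat_lit 2), (nat_lit 44), (nat_lit 272), (nat_lit 60), (nat_lit 11)]⟩,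
 ⟨⟨[(nat_lit 80), (nat_lit 120), (nat_lit 160)], [(nat_lit 0), (nat_lit 0), (nat_lit 2132)], [((nat_lit 0), (nat_lit 0), (nat_lit 0)), ((nat_lit 0), (nat_lit 0), (nat_lit 0)), ((nat_lit 858), (nat_lit 1000), (nat_lit 713))], ((nat_lit 100), (nat_lit 92), (nat_lit 61))⟩, (nat_lit 2765026), (nat_lit 541), (nat_lit 541), (nat_lit 0), (nat_lit 636111), [(nat_lit 3881664000), (nat_lit 6597504000), (nat_lit 9830016000)], [], [(nat_lit 27799236584), (nat_lit 29130487830), (nat_lit 32725845474), (nat_lit 33524308393), (nat_lit 23816433088), (nat_lit 24789036762), (nat_lit 27502143698), (nat_lit 28061079360)], (nat_lit 1271251), (nat_lit 1271251), (nat_lit 1271251), (nat_lit 1271251), (nat_lit 0), (nat_lit 1412501), [(nat_lit 1100000), (nat_lit 1785001), (nat_lit 1271251)], [(nat_lit 18), (nat_lit 59), (nat_lit 456), (nat_lit 225), (nat_lit 11)]⟩,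
 ⟨⟨[(nat_lit 120), (nat_lit 160), (nat_lit 180)], [(nat_lit 0), (nat_lit 533), (nat_lit 2066)], [((nat_lit 0), (nat_lit 0), (nat_lit 0)), ((nat_lit 960), (nat_lit 1000), (nat_lit 200)), ((nat_lit 615), (nat_lit 1000), (nat_lit 729))], ((nat_lit 100), (nat_lit 74), (nat_lit 60))⟩, (nat_lit 421463), (nat_lit 300), (nat_lit 1295), (nat_lit 11952002), (nat_lit 1934787), [(nat_lit 1434240000), (nat_lit 2136960000), (nat_lit 2530440000)], [], [(nat_lit 9567332389), (nat_lit 9417811327), (nat_lit 8840894298), (nat_lit 8660714286), (nat_lit 8510426005), (nat_lit 6948682353), (nat_lit 11813756628), (nat_lit 9583597212)], (nat_lit 1271251), (nat_lit 1271251), (nat_lit 780000), (nat_lit 1762501), (nat_lit 0), (nat_lit 1412501), [(nat_lit 1695001), (nat_lit 1271251), (nat_lit 1271251)], [(nat_lit 28), (nat_lit 65), (nat_lit 407), (nat_lit 175), (nat_lit 10)]⟩⟩)))) (.leaf ⟨(nat_lit 0), (nat_lit 848), (nat_lit 0), (nat_lit 152), (nat_lit 0), (nat_lit 4865), (nat_lit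 7043), (nat_lit 1718), (nat_lit 0), (nat_lit 0), (nat_lit 0), [], Pd.none, Pd.none, (nat_lit 0), (nat_lit 1), (nat_lit 0), (nat_lit 0), (nat_lit 4), (nat_lit 0), [], [], [], [⟨(nat_lit 0), (nat_lit 100), (nat_lit 80), (nat_lit 52), (nat_lit 16918433)⟩],
 ⟨⟨[(nat_lit 40), (nat_lit 60), (nat_lit 80)], [(nat_lit 0), (nat_lit 832), (nat_lit 1534)], [((nat_lit 0), (nat_lit 0), (nat_lit 0)), ((nat_lit 1000), (nat_lit 659), (nat_lit 528)), ((nat_lit 1000), (nat_lit 650), (nat_lit 549))], ((nat_lit 63), (nat_lit 100), (nat_lit 62))⟩, (nat_lit 938966), (nat_lit 219), (nat_lit 219), (nat_lit 0), (nat_lit 425897), [(nat_lit 2032000006), (nat_lit 3282000018), (nat_lit 4688000000)], [], [(nat_lit 23993024105), (nat_lit 25145797363), (nat_lit 32750007915), (nat_lit 33934899433), (nat_lit 25651887900), (nat_lit 26609200230), (nat_lit 33083215330), (nat_lit 34070757325)], (nat_lit 1271251), (nat_lit 1271251), (nat_lit 1271251), (nat_lit 1271251), (nat_lit 780000),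 (nat_lit 1762501), [(nat_lit 490000), (nat_lit 780000), (nat_lit 1100000)], [(nat_lit 2), (nat_lit 44), (nat_lit 272), (nat_lit 60), (nat_lit 11)]⟩,
 ⟨⟨[(nat_lit 60), (nat_lit 100), (nat_lit 140)], [(nat_lit 0), (nat_lit 0), (nat_lit 2047)], [((nat_lit 0), (nat_lit 0), (nat_lit 0)), ((nat_lit 0), (nat_lit 0), (nat_lit 0)), ((nat_lit 1000), (nat_lit 993), (nat_lit 781))], ((nat_lit 94), (nat_lit 100), (nat_lit 62))⟩, (nat_lit 2689058), (nat_lit 476), (nat_lit 476), (nat_lit 0), (nat_lit 632891), [(nat_lit 3282000000), (nat_lit 6250000000), (nat_lit 9842000000)], [], [(nat_lit 33394893624), (nat_lit 34907482760), (nat_lit 39686604380), (nat_lit 40978334648), (nat_lit 30407782137), (nat_lit 31510101106), (nat_lit 35178520022), (nat_lit 35795866906)], (nat_lit 1271251), (nat_lit 1271251), (nat_lit 1271251), (nat_lit 1271251), (nat_lit 0), (nat_lit 1412501), [(nat_lit 780000), (nat_lit 1435001), (nat_lit 1271251)], [(nat_lit 11), (nat_lit 55), (nat_lit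 373), (nat_lit 150), (nat_lit 10)]⟩,
 ⟨⟨[(nat_lit 120), (nat_lit 160), (nat_lit 180)], [(nat_lit 0), (nat_lit 533), (nat_lit 2066)], [((nat_lit 0), (nat_lit 0), (nat_lit 0)), ((nat_lit 960), (nat_lit 1000), (nat_lit 200)), ((nat_lit 615), (nat_lit 1000), (nat_lit 729))], ((nat_lit 100), (nat_lit 74), (nat_lit 60))⟩, (nat_lit 355902), (nat_lit 300), (nat_lit 1618), (nat_lit 10092802), (nat_lit 2632837), [(nat_lit 1211136000), (nat_lit 1804544000), (nat_lit 2136816000)], [], [(nat_lit 8628436435), (nat_lit 8479753081), (nat_lit 8035172428), (nat_lit 7874053258), (nat_lit 7046804737), (nat_lit 6799811515), (nat_lit 9491641556), (nat_lit 7904477564)], (nat_lit 1271251), (nat_lit 1271251), (nat_lit 780000), (nat_lit 1762501), (nat_lit 0), (nat_lit 1412501), [(nat_lit 1695001), (nat_lit 1271251), (nat_lit 1271251)], [(nat_lit 28), (nat_lit 65), (nat_lit 487), (nat_lit 175), (nat_lit 11)]⟩⟩)) (.spl (nat_lit 1) (nat_lit 280) (.trX (nat_lit 3) (nat_lit 0)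 (nat_lit 1) (nat_lit 65) (nat_lit 54) (nat_lit 100) (nat_lit 380) (.leaf ⟨(nat_lit 0), (nat_lit 695), (nat_lit 0), (nat_lit 305), (nat_lit 0), (nat_lit 4492), (nat_lit 8181), (nat_lit 2976), (nat_lit 0), (nat_lit 0), (nat_lit 0), [], Pd.none, Pd.none, (nat_lit 0), (nat_lit 1), (nat_lit 0), (nat_lit 0), (nat_lit 5), (nat_lit 0), [], [], [⟨(nat_lit 1), (nat_lit 30), (nat_lit 95), (nat_lit 100), (nat_lit 137881930)⟩], [⟨(nat_lit 1), (nat_lit 63), (nat_lit 84), (nat_lit 100), (nat_lit 20909790)⟩],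
 ⟨⟨[(nat_lit 40), (nat_lit 60), (nat_lit 80)], [(nat_lit 0), (nat_lit 832), (nat_lit 1534)], [((nat_lit 0), (nat_lit 0), (nat_lit 0)), ((nat_lit 1000), (nat_lit 659), (nat_lit 528)), ((nat_lit 1000), (nat_lit 650), (nat_lit 549))], ((nat_lit 63), (nat_lit 100), (nat_lit 62))⟩, (nat_lit 1366936), (nat_lit 184), (nat_lit 184), (nat_lit 0), (nat_lit 308042), [(nat_lit 2032000057), (nat_lit 3282000266), (nat_lit 4688000000)], [], [(nat_lit 23539697848), (nat_lit 24724458350), (nat_lit 30804701922), (nat_lit 32025260484), (nat_lit 25337813684), (nat_lit 26322746352), (nat_lit 31524484814), (nat_lit 32542077837)], (nat_lit 1271251), (nat_lit 1271251), (nat_lit 1271251), (nat_lit 1271251), (nat_lit 780000), (nat_lit 1762501), [(nat_lit 490000), (nat_lit 780000), (nat_lit 1100000)], [(nat_lit 2), (nat_lit 44), (nat_lit 272), (nat_lit 60), (nat_lit 11)]⟩,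
 ⟨⟨[(nat_lit 80), (nat_lit 120), (nat_lit 160)], [(nat_lit 0), (nat_lit 0), (nat_lit 2132)], [((nat_lit 0), (nat_lit 0), (nat_lit 0)), ((nat_lit 0), (nat_lit 0), (nat_lit 0)), ((nat_lit 858), (nat_lit 1000), (nat_lit 713))], ((nat_lit 100), (nat_lit 92), (nat_lit 61))⟩, (nat_lit 2477662), (nat_lit 398), (nat_lit 398), (nat_lit 0), (nat_lit 637083), [(nat_lit 4688000000), (nat_lit 7968000000), (nat_lit 11872000000)], [], [(nat_lit 27697645086), (nat_lit 29039443876), (nat_lit 33220548134), (nat_lit 33962379091), (nat_lit 34082547972), (nat_lit 34648356612), (nat_lit 38614357105), (nat_lit 39568912448)], (nat_lit 1271251), (nat_lit 1271251), (nat_lit 1271251), (nat_lit 1271251), (nat_lit 1271251), (nat_lit 1271251), [(nat_lit 1100000), (nat_lit 1785001), (nat_lit 1271251)], [(nat_lit 18), (nat_lit 59), (nat_lit 538), (nat_lit 300), (nat_lit 13)]⟩,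
 ⟨⟨[(nat_lit 120), (nat_lit 160), (nat_lit 180)], [(nat_lit 0), (nat_lit 533), (nat_lit 2066)], [((nat_lit 0), (nat_lit 0), (nat_lit 0)), ((nat_lit 960), (nat_lit 1000), (nat_lit 200)), ((nat_lit 615), (nat_lit 1000), (nat_lit 729))], ((nat_lit 100), (nat_lit 74), (nat_lit 60))⟩, (nat_lit 714146), (nat_lit 300), (nat_lit 1171), (nat_lit 20252002), (nat_lit 1936662), [(nat_lit 2430240000), (nat_lit 3620960000), (nat_lit 4287690000)], [], [(nat_lit 16582622932), (nat_lit 16258306628), (nat_lit 15468899598), (nat_lit 15138031046), (nat_lit 15590647272), (nat_lit 15246657865), (nat_lit 14419027799), (nat_lit 14075511301)], (nat_lit 1271251), (nat_lit 1271251), (nat_lit 780000), (nat_lit 1762501), (nat_lit 1271251), (nat_lit 1271251), [(nat_lit 1695001), (nat_lit 1271251), (nat_lit 1271251)], [(nat_lit 28), (nat_lit 65), (nat_lit 456), (nat_lit 225), (nat_lit 10)]⟩⟩)) (.leaf ⟨(nat_lit 0), (nat_lit 805), (nat_lit 0), (nat_lit 195), (nat_lit 0), (nat_lit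 4865), (nat_lit 6838), (nat_lit 1911), (nat_lit 0), (nat_lit 0), (nat_lit 0), [], Pd.none, Pd.none, (nat_lit 0), (nat_lit 1), (nat_lit 0), (nat_lit 0), (nat_lit 5), (nat_lit 0), [], [], [⟨(nat_lit 1), (nat_lit 50), (nat_lit 87), (nat_lit 100), (nat_lit 245211882)⟩], [],
 ⟨⟨[(nat_lit 40), (nat_lit 60), (nat_lit 80)], [(nat_lit 0), (nat_lit 832), (nat_lit 1534)], [((nat_lit 0), (nat_lit 0), (nat_lit 0)), ((nat_lit 1000), (nat_lit 659), (nat_lit 528)), ((nat_lit 1000), (nat_lit 650), (nat_lit 549))], ((nat_lit 63), (nat_lit 100), (nat_lit 62))⟩, (nat_lit 938966), (nat_lit 219), (nat_lit 219), (nat_lit 0), (nat_lit 425897), [(nat_lit 2032000026), (nat_lit 3282000055), (nat_lit 4688000000)], [], [(nat_lit 23993024202), (nat_lit 25145797460), (nat_lit 32750007915), (nat_lit 33934899433), (nat_lit 25651887997), (nat_lit 26609200230), (nat_lit 33083215330), (nat_lit 34070757325)], (nat_lit 1271251), (nat_lit 1271251), (nat_lit 1271251), (nat_lit 1271251),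 (nat_lit 780000), (nat_lit 1762501), [(nat_lit 490000), (nat_lit 780000), (nat_lit 1100000)], [(nat_lit 2), (nat_lit 44), (nat_lit 272), (nat_lit 60), (nat_lit 11)]⟩,
 ⟨⟨[(nat_lit 60), (nat_lit 100), (nat_lit 140)], [(nat_lit 0), (nat_lit 0), (nat_lit 2047)], [((nat_lit 0), (nat_lit 0), (nat_lit 0)), ((nat_lit 0), (nat_lit 0), (nat_lit 0)), ((nat_lit 1000), (nat_lit 993), (nat_lit 781))], ((nat_lit 94), (nat_lit 100), (nat_lit 62))⟩, (nat_lit 2102009), (nat_lit 350), (nat_lit 350), (nat_lit 0), (nat_lit 632891), [(nat_lit 3282000000), (nat_lit 6250000000), (nat_lit 9842000000)], [], [(nat_lit 29117250851), (nat_lit 30329854905), (nat_lit 34264377049), (nat_lit 34980225428), (nat_lit 34284477520), (nat_lit 35047855568), (nat_lit 38778925488), (nat_lit 39625742992)], (nat_lit 1271251), (nat_lit 1271251), (nat_lit 1271251), (nat_lit 1271251), (nat_lit 1271251), (nat_lit 1271251), [(nat_lit 780000), (nat_lit 1435001), (nat_lit 1271251)], [(nat_lit 11),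 (nat_lit 55), (nat_lit 428), (nat_lit 200), (nat_lit 11)]⟩,
 ⟨⟨[(nat_lit 120), (nat_lit 160), (nat_lit 180)], [(nat_lit 0), (nat_lit 533), (nat_lit 2066)], [((nat_lit 0), (nat_lit 0), (nat_lit 0)), ((nat_lit 960), (nat_lit 1000), (nat_lit 200)), ((nat_lit 615), (nat_lit 1000), (nat_lit 729))], ((nat_lit 100), (nat_lit 74), (nat_lit 60))⟩, (nat_lit 456585), (nat_lit 300), (nat_lit 1500), (nat_lit 12948002), (nat_lit 2632837), [(nat_lit 1553760000), (nat_lit 2315040000), (nat_lit 2741310000)], [], [(nat_lit 10709253442), (nat_lit 10485247680), (nat_lit 9975070574), (nat_lit 9750236861), (nat_lit 9914663700), (nat_lit 9697587672), (nat_lit 9165381114), (nat_lit 8944408206)], (nat_lit 1271251), (nat_lit 1271251), (nat_lit 780000), (nat_lit 1762501), (nat_lit 1271251), (nat_lit 1271251), [(nat_lit 1695001), (nat_lit 1271251), (nat_lit 1271251)], [(nat_lit 28), (nat_lit 65), (nat_lit 483), (nat_lit 225), (nat_lit 11)]⟩⟩)))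
noncomputable def c17_38 : Tr Lf :=
 (.leaf ⟨(nat_lit 0), (nat_lit 1000), (nat_lit 0), (nat_lit 0), (nat_lit 0), (nat_lit 4855), (nat_lit 9422), (nat_lit 0), (nat_lit 0), (nat_lit 0), (nat_lit 0), [], Pd.none, Pd.none, (nat_lit 0), (nat_lit 1), (nat_lit 0), (nat_lit 0), (nat_lit 6), (nat_lit 0), [⟨(nat_lit 0), (nat_lit 100), (nat_lit 61), (nat_lit 92), (nat_lit 559327605)⟩], [⟨(nat_lit 1), (nat_lit 74), (nat_lit 60), (nat_lit 100), (nat_lit 658613932)⟩], [], [],
 ⟨⟨[(nat_lit 40), (nat_lit 60), (nat_lit 80)], [(nat_lit 0), (nat_lit 832), (nat_lit 1534)], [((nat_lit 0), (nat_lit 0), (nat_lit 0)), ((nat_lit 1000), (nat_lit 659), (nat_lit 528)), ((nat_lit 1000), (nat_lit 650), (nat_lit 549))], ((nat_lit 63), (nat_lit 100), (nat_lit 62))⟩, (nat_lit 674475), (nat_lit 300), (nat_lit 300), (nat_lit 0), (nat_lit 720047), [(nat_lit 2032000007), (nat_lit 3282000004), (nat_lit 4688000000)], [], [(nat_lit 25198108135), (nat_lit 26286525977), (nat_lit 26812055102),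 (nat_lit 27706656692), (nat_lit 28749978999), (nat_lit 30201611531), (nat_lit 29736291978), (nat_lit 30898561259)], (nat_lit 1271251), (nat_lit 1271251), (nat_lit 704688), (nat_lit 1756876), (nat_lit 1271251), (nat_lit 1271251), [(nat_lit 490000), (nat_lit 780000), (nat_lit 1100000)], [(nat_lit 2), (nat_lit 44), (nat_lit 272), (nat_lit 60), (nat_lit 11)]⟩,
 ⟨⟨[(nat_lit 80), (nat_lit 120), (nat_lit 160)], [(nat_lit 0), (nat_lit 0), (nat_lit 2132)], [((nat_lit 0), (nat_lit 0), (nat_lit 0)), ((nat_lit 0), (nat_lit 0), (nat_lit 0)), ((nat_lit 858), (nat_lit 1000), (nat_lit 713))], ((nat_lit 100), (nat_lit 92), (nat_lit 61))⟩, (nat_lit 5506134), (nat_lit 243), (nat_lit 243), (nat_lit 0), (nat_lit 0), [(nat_lit 4688000000), (nat_lit 7968000000), (nat_lit 11872000000)], [], [(nat_lit 21022706300), (nat_lit 28857783988), (nat_lit 23818216880), (nat_lit 31186361952), (nat_lit 15492728226), (nat_lit 22833864802), (nat_lit 18819173788), (nat_lit 24378803344)],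 (nat_lit 0), (nat_lit 0), (nat_lit 0), (nat_lit 0), (nat_lit 0), (nat_lit 0), [], [(nat_lit 18), (nat_lit 59), (nat_lit 428), (nat_lit 200), (nat_lit 11)]⟩,
 Rw.none⟩)
noncomputable def c17_39 : Tr Lf :=
 (.spl (nat_lit 2) (nat_lit 180) (.trX (nat_lit 4) (nat_lit 0) (nat_lit 2) (nat_lit 60) (nat_lit 86) (nat_lit 100) (nat_lit 310) (.spl (nat_lit 3) (nat_lit 160) (.trX (nat_lit 5) (nat_lit 4) (nat_lit 3) (nat_lit 100) (nat_lit 40) (nat_lit 100) (nat_lit 390) (.spl (nat_lit 1) (nat_lit 280) (.stt (nat_lit 1) (.spl (nat_lit 1) (nat_lit 260) (.leaf ⟨(nat_lit 1000), (nat_lit 0), (nat_lit 0), (nat_lit 0), (nat_lit 0), (nat_lit 3527), (nat_lit 0), (nat_lit 0), (nat_lit 0), (nat_lit 0), (nat_lit 250000), [((nat_lit 380), [((nat_lit 24), (nat_lit 0), (nat_lit 1000))])], ⟨(nat_lit 6), true, false, false, (nat_lit 184), (nat_lit 2236), (nat_lit 3163), [(nat_lit 1406804), (nat_lit 1416903), (nat_lit 1428895), (nat_lit 1439613), (nat_lit 1483125), (nat_lit 1488302),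 (nat_lit 1505217), (nat_lit 1511013)]⟩, ⟨(nat_lit 6), false, false, true, (nat_lit 222), (nat_lit 2236), (nat_lit 3163), [(nat_lit 1472332), (nat_lit 1465917), (nat_lit 1538797), (nat_lit 1534240), (nat_lit 1579000), (nat_lit 1565693), (nat_lit 1645465), (nat_lit 1634017)]⟩, (nat_lit 4936445), (nat_lit 41932668), (nat_lit 10685338), (nat_lit 14381994), (nat_lit 0), (nat_lit 0), [⟨(nat_lit 0), (nat_lit 100), (nat_lit 61), (nat_lit 92), (nat_lit 85868527)⟩], [⟨(nat_lit 1), (nat_lit 86), (nat_lit 60), (nat_lit 100), (nat_lit 315591765)⟩], [], [],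
 ⟨⟨[(nat_lit 40), (nat_lit 60), (nat_lit 80)], [(nat_lit 0), (nat_lit 832), (nat_lit 1534)], [((nat_lit 0), (nat_lit 0), (nat_lit 0)), ((nat_lit 1000), (nat_lit 659), (nat_lit 528)), ((nat_lit 1000), (nat_lit 650), (nat_lit 549))], ((nat_lit 63), (nat_lit 100), (nat_lit 62))⟩, (nat_lit 0), (nat_lit 83), (nat_lit 83), (nat_lit 0), (nat_lit 0), [(nat_lit 1526400056), (nat_lit 1497545973), (nat_lit 1705600000)], [(nat_lit 0), (nat_lit 0), (nat_lit 0)], [(nat_lit 22422397307), (nat_lit 23691197910), (nat_lit 22828837348), (nat_lit 24019331788), (nat_lit 25291541786), (nat_lit 26633001460), (nat_lit 25489755638), (nat_lit 26663828384)], (nat_lit 0), (nat_lit 0), (nat_lit 0), (nat_lit 0), (nat_lit 0), (nat_lit 0), [], [(nat_lit 2), (nat_lit 44), (nat_lit 249), (nat_lit 40), (nat_lit 10)]⟩,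
 Rw.none,
 Rw.none⟩) (.trZ (nat_lit 0) (nat_lit 1) (nat_lit 3) (nat_lit 100) (nat_lit 63) (nat_lit 99) (nat_lit 130) (.leaf ⟨(nat_lit 0), (nat_lit 1000), (nat_lit 0), (nat_lit 0), (nat_lit 0), (nat_lit 5925), (nat_lit 5884), (nat_lit 0), (nat_lit 0), (nat_lit 0), (nat_lit 0), [], Pd.none, Pd.none, (nat_lit 0), (nat_lit 1), (nat_lit 0), (nat_lit 0), (nat_lit 6), (nat_lit 0), [⟨(nat_lit 0), (nat_lit 100), (nat_lit 63), (nat_lit 99), (nat_lit 195093111)⟩], [⟨(nat_lit 1), (nat_lit 86), (nat_lit 60), (nat_lit 100), (nat_lit 120386383)⟩], [], [⟨(nat_lit 2), (nat_lit 64), (nat_lit 96), (nat_lit 100), (nat_lit 607568844)⟩],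
 ⟨⟨[(nat_lit 40), (nat_lit 60), (nat_lit 80)], [(nat_lit 0), (nat_lit 832), (nat_lit 1534)], [((nat_lit 0), (nat_lit 0), (nat_lit 0)), ((nat_lit 1000), (nat_lit 659), (nat_lit 528)), ((nat_lit 1000), (nat_lit 650), (nat_lit 549))], ((nat_lit 63), (nat_lit 100), (nat_lit 62))⟩, (nat_lit 0), (nat_lit 73), (nat_lit 73), (nat_lit 0), (nat_lit 0), [(nat_lit 2421754045), (nat_lit 3731081609), (nat_lit 4688000000)], [], [(nat_lit 24357852394), (nat_lit 26101854997), (nat_lit 24291529950), (nat_lit 25961684975), (nat_lit 27867020257), (nat_lit 29596620297), (nat_lit 27653009750), (nat_lit 29215606429)], (nat_lit 0), (nat_lit 0), (nat_lit 0), (nat_lit 0), (nat_lit 0), (nat_lit 0), [], [(nat_lit 2), (nat_lit 44), (nat_lit 249), (nat_lit 40), (nat_lit 9)]⟩,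
 ⟨⟨[(nat_lit 80), (nat_lit 120), (nat_lit 140)], [(nat_lit 0), (nat_lit 528), (nat_lit 1572)], [((nat_lit 0), (nat_lit 0), (nat_lit 0)), ((nat_lit 1000), (nat_lit 959), (nat_lit 206)), ((nat_lit 966), (nat_lit 1000), (nat_lit 679))], ((nat_lit 100), (nat_lit 99), (nat_lit 63))⟩, (nat_lit 0), (nat_lit 106), (nat_lit 106), (nat_lit 0), (nat_lit 0), [(nat_lit 4688000000), (nat_lit 7968000000), (nat_lit 9842000000)], [], [(nat_lit 14599091783), (nat_lit 16199884623), (nat_lit 14973364530), (nat_lit 16500897948), (nat_lit 27864855430), (nat_lit 28881723080), (nat_lit 27657266282), (nat_lit 28530532205)], (nat_lit 0), (nat_lit 0), (nat_lit 0), (nat_lit 0), (nat_lit 0), (nat_lit 0), [], [(nat_lit 17), (nat_lit 58), (nat_lit 456), (nat_lit 225), (nat_lit 12)]⟩,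
 Rw.none⟩))) (.leaf ⟨(nat_lit 580), (nat_lit 353), (nat_lit 0), (nat_lit 67), (nat_lit 0), (nat_lit 4009), (nat_lit 3856), (nat_lit 762), (nat_lit 0), (nat_lit 0), (nat_lit 294800), [((nat_lit 380), [((nat_lit 24), (nat_lit 0), (nat_lit 152)), ((nat_lit 41), (nat_lit 2), (nat_lit 428))])], ⟨(nat_lit 6), true, false, false, (nat_lit 188), (nat_lit 2236), (nat_lit 3163), [(nat_lit 1406804), (nat_lit 1416903), (nat_lit 1450987), (nat_lit 1462324), (nat_lit 1483125), (nat_lit 1488302), (nat_lit 1527308), (nat_lit 1533723)]⟩, ⟨(nat_lit 6), false, false, true, (nat_lit 222), (nat_lit 2236), (nat_lit 3163), [(nat_lit 1472332), (nat_lit 1465917), (nat_lit 1538797), (nat_lit 1534240), (nat_lit 1579000), (nat_lit 1565693), (nat_lit 1645465), (nat_lit 1634017)]⟩, (nat_lit 4972301), (nat_lit 41633186), (nat_lit 11049473), (nat_lit 14317341), (nat_lit 6), (nat_lit 0), [⟨(nat_lit 0), (nat_lit 98), (nat_lit 54), (nat_lit 100), (nat_lit 381372396)⟩], [⟨(nat_lit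 1), (nat_lit 99), (nat_lit 54), (nat_lit 100), (nat_lit 142289170)⟩, ⟨(nat_lit 1), (nat_lit 86), (nat_lit 60), (nat_lit 100), (nat_lit 149165160)⟩], [], [⟨(nat_lit 2), (nat_lit 69), (nat_lit 98), (nat_lit 100), (nat_lit 163058912)⟩],
 ⟨⟨[(nat_lit 40), (nat_lit 60), (nat_lit 80)], [(nat_lit 0), (nat_lit 832), (nat_lit 1534)], [((nat_lit 0), (nat_lit 0), (nat_lit 0)), ((nat_lit 1000), (nat_lit 659), (nat_lit 528)), ((nat_lit 1000), (nat_lit 650), (nat_lit 549))], ((nat_lit 63), (nat_lit 100), (nat_lit 62))⟩, (nat_lit 620434), (nat_lit 252), (nat_lit 252), (nat_lit 0), (nat_lit 571248), [(nat_lit 1541254401), (nat_lit 1851562621), (nat_lit 2205612800)], [(nat_lit 0), (nat_lit 0), (nat_lit 0)], [(nat_lit 22309756387), (nat_lit 23997882513), (nat_lit 22500484682), (nat_lit 24078485494), (nat_lit 25850845894), (nat_lit 27279747388), (nat_lit 25834786559), (nat_lit 27176737899)], (nat_lit 1271251), (nat_lit 1271251), (nat_lit 704688), (nat_lit 1100000),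 (nat_lit 1271251), (nat_lit 1271251), [(nat_lit 490000), (nat_lit 780000), (nat_lit 1100000)], [(nat_lit 2), (nat_lit 44), (nat_lit 249), (nat_lit 40), (nat_lit 10)]⟩,
 ⟨⟨[(nat_lit 80), (nat_lit 120), (nat_lit 160)], [(nat_lit 0), (nat_lit 0), (nat_lit 2132)], [((nat_lit 0), (nat_lit 0), (nat_lit 0)), ((nat_lit 0), (nat_lit 0), (nat_lit 0)), ((nat_lit 858), (nat_lit 1000), (nat_lit 713))], ((nat_lit 100), (nat_lit 92), (nat_lit 61))⟩, (nat_lit 1483593), (nat_lit 166), (nat_lit 166), (nat_lit 0), (nat_lit 0), [(nat_lit 1968960000), (nat_lit 3346560000), (nat_lit 4986240000)], [], [(nat_lit 8139553696), (nat_lit 9300943485), (nat_lit 7915603076), (nat_lit 8985412912), (nat_lit 13226065926), (nat_lit 14054728079), (nat_lit 12728537730), (nat_lit 13430151910)], (nat_lit 0), (nat_lit 0), (nat_lit 0), (nat_lit 0), (nat_lit 0), (nat_lit 0), [], [(nat_lit 18), (nat_lit 59), (nat_lit 456), (nat_lit 225), (nat_lit 11)]⟩,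
 ⟨⟨[(nat_lit 140), (nat_lit 180), (nat_lit 200)], [(nat_lit 0), (nat_lit 0), (nat_lit 2835)], [((nat_lit 0), (nat_lit 0), (nat_lit 0)), ((nat_lit 0), (nat_lit 0), (nat_lit 0)), ((nat_lit 363), (nat_lit 1000), (nat_lit 798))], ((nat_lit 0), (nat_lit 0), (nat_lit 0))⟩, (nat_lit 18434), (nat_lit 300), (nat_lit 2171), (nat_lit 5232700), (nat_lit 3921827), [(nat_lit 659414000), (nat_lit 941886000), (nat_lit 1098800000)], [], [(nat_lit 4074567797), (nat_lit 3923401282), (nat_lit 3930514762), (nat_lit 3779705051), (nat_lit 3763715821), (nat_lit 3586619475), (nat_lit 3668364359), (nat_lit 3491275217)], (nat_lit 780000), (nat_lit 1271251), (nat_lit 1271251), (nat_lit 1271251), (nat_lit 1271251), (nat_lit 1271251), [(nat_lit 1977501), (nat_lit 1271251), (nat_lit 1271251)], [(nat_lit 32), (nat_lit 67), (nat_lit 653), (nat_lit 225), (nat_lit 13)]⟩⟩)) (.trZ (nat_lit 0) (nat_lit 1) (nat_lit 3) (nat_lit 94) (nat_lit 62) (nat_lit 100) (nat_lit 150) (.trX (nat_lit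 5) (nat_lit 1) (nat_lit 2) (nat_lit 92) (nat_lit 49) (nat_lit 100) (nat_lit 380) (.leaf ⟨(nat_lit 35), (nat_lit 965), (nat_lit 0), (nat_lit 0), (nat_lit 0), (nat_lit 4360), (nat_lit 7251), (nat_lit 0), (nat_lit 0), (nat_lit 0), (nat_lit 140000), [((nat_lit 380), [((nat_lit 41), (nat_lit 5), (nat_lit 35))])], ⟨(nat_lit 7), true, false, false, (nat_lit 218), (nat_lit 2236), (nat_lit 3163), [(nat_lit 1512044), (nat_lit 1519444), (nat_lit 1556227), (nat_lit 1564865), (nat_lit 1527308), (nat_lit 1533723), (nat_lit 1571490), (nat_lit 1579145)]⟩, ⟨(nat_lit 6), false, false, true, (nat_lit 222), (nat_lit 2236), (nat_lit 3163), [(nat_lit 1472332), (nat_lit 1465917), (nat_lit 1538797), (nat_lit 1534240), (nat_lit 1579000), (nat_lit 1565693), (nat_lit 1645465), (nat_lit 1634017)]⟩, (nat_lit 5180365), (nat_lit 39633490), (nat_lit 13505768), (nat_lit 13860742), (nat_lit 6), (nat_lit 0), [⟨(nat_lit 0), (nat_lit 94), (nat_lit 62), (nat_lit 100), (nat_lit 634114859)⟩],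 [⟨(nat_lit 1), (nat_lit 86), (nat_lit 60), (nat_lit 100), (nat_lit 77988129)⟩], [], [⟨(nat_lit 2), (nat_lit 59), (nat_lit 95), (nat_lit 100), (nat_lit 568118463)⟩],
 ⟨⟨[(nat_lit 40), (nat_lit 60), (nat_lit 80)], [(nat_lit 0), (nat_lit 832), (nat_lit 1534)], [((nat_lit 0), (nat_lit 0), (nat_lit 0)), ((nat_lit 1000), (nat_lit 659), (nat_lit 528)), ((nat_lit 1000), (nat_lit 650), (nat_lit 549))], ((nat_lit 63), (nat_lit 100), (nat_lit 62))⟩, (nat_lit 2426557), (nat_lit 283), (nat_lit 283), (nat_lit 0), (nat_lit 719655), [(nat_lit 1896298002), (nat_lit 3039008031), (nat_lit 3926274000)], [(nat_lit 0), (nat_lit 0), (nat_lit 0)], [(nat_lit 23571199722), (nat_lit 24709665817), (nat_lit 23648537212), (nat_lit 24771800772), (nat_lit 26171706323), (nat_lit 27590340950), (nat_lit 26151602812), (nat_lit 27550246695)], (nat_lit 1271251), (nat_lit 1271251), (nat_lit 1017188), (nat_lit 1100000), (nat_lit 1271251), (nat_lit 1271251), [(nat_lit 490000), (nat_lit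 780000), (nat_lit 1100000)], [(nat_lit 2), (nat_lit 44), (nat_lit 249), (nat_lit 40), (nat_lit 9)]⟩,
 ⟨⟨[(nat_lit 60), (nat_lit 100), (nat_lit 140)], [(nat_lit 0), (nat_lit 0), (nat_lit 2047)], [((nat_lit 0), (nat_lit 0), (nat_lit 0)), ((nat_lit 0), (nat_lit 0), (nat_lit 0)), ((nat_lit 1000), (nat_lit 993), (nat_lit 781))], ((nat_lit 94), (nat_lit 100), (nat_lit 62))⟩, (nat_lit 35505), (nat_lit 85), (nat_lit 85), (nat_lit 0), (nat_lit 0), [(nat_lit 3167130000), (nat_lit 6031250000), (nat_lit 9497530000)], [], [(nat_lit 16719506238), (nat_lit 19906368665), (nat_lit 16753744063), (nat_lit 19888016030), (nat_lit 28350472449), (nat_lit 30593149815), (nat_lit 28166587326), (nat_lit 30377493425)], (nat_lit 0), (nat_lit 0), (nat_lit 0), (nat_lit 0), (nat_lit 0), (nat_lit 0), [], [(nat_lit 11), (nat_lit 55), (nat_lit 373), (nat_lit 150), (nat_lit 10)]⟩,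
 Rw.none⟩))))) (.spl (nat_lit 1) (nat_lit 280) (.leaf ⟨(nat_lit 35), (nat_lit 965), (nat_lit 0), (nat_lit 0), (nat_lit 0), (nat_lit 4175), (nat_lit 5555), (nat_lit 0), (nat_lit 0), (nat_lit 0), (nat_lit 140000), [((nat_lit 380), [((nat_lit 41), (nat_lit 5), (nat_lit 35))])], ⟨(nat_lit 6), true, false, false, (nat_lit 227), (nat_lit 2236), (nat_lit 3163), [(nat_lit 1483125), (nat_lit 1488302), (nat_lit 1527308), (nat_lit 1533723), (nat_lit 1605240), (nat_lit 1602541), (nat_lit 1649422), (nat_lit 1647962)]⟩, ⟨(nat_lit 6), false, false, true, (nat_lit 222), (nat_lit 2236), (nat_lit 3163), [(nat_lit 1472332), (nat_lit 1465917), (nat_lit 1538797), (nat_lit 1534240), (nat_lit 1579000), (nat_lit 1565693), (nat_lit 1645465), (nat_lit 1634017)]⟩, (nat_lit 5231395), (nat_lit 39049597), (nat_lit 14230687), (nat_lit 13719716), (nat_lit 6), (nat_lit 0), [], [⟨(nat_lit 1), (nat_lit 86), (nat_lit 60), (nat_lit 100), (nat_lit 293904602)⟩], [], [⟨(nat_lit 2), (nat_lit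 38), (nat_lit 93), (nat_lit 100), (nat_lit 564136638)⟩],
 ⟨⟨[(nat_lit 40), (nat_lit 60), (nat_lit 80)], [(nat_lit 0), (nat_lit 832), (nat_lit 1534)], [((nat_lit 0), (nat_lit 0), (nat_lit 0)), ((nat_lit 1000), (nat_lit 659), (nat_lit 528)), ((nat_lit 1000), (nat_lit 650), (nat_lit 549))], ((nat_lit 63), (nat_lit 100), (nat_lit 62))⟩, (nat_lit 1850017), (nat_lit 232), (nat_lit 232), (nat_lit 0), (nat_lit 571248), [(nat_lit 1896298006), (nat_lit 2956020209), (nat_lit 3926274000)], [(nat_lit 0), (nat_lit 0), (nat_lit 0)], [(nat_lit 23477676630), (nat_lit 24654809880), (nat_lit 25264075180), (nat_lit 26296878555), (nat_lit 26102439549), (nat_lit 27353383085), (nat_lit 27598023900), (nat_lit 28790664782)], (nat_lit 1271251), (nat_lit 1271251), (nat_lit 1100000), (nat_lit 1785001), (nat_lit 1271251), (nat_lit 1271251), [(nat_lit 490000), (nat_lit 780000), (nat_lit 1100000)], [(nat_lit 2), (nat_lit 44), (nat_lit 203), (nat_lit 0), (nat_lit 7)]⟩,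
 ⟨⟨[(nat_lit 80), (nat_lit 120), (nat_lit 160)], [(nat_lit 0), (nat_lit 0), (nat_lit 2132)], [((nat_lit 0), (nat_lit 0), (nat_lit 0)), ((nat_lit 0), (nat_lit 0), (nat_lit 0)), ((nat_lit 858), (nat_lit 1000), (nat_lit 713))], ((nat_lit 100), (nat_lit 92), (nat_lit 61))⟩, (nat_lit 15723), (nat_lit 99), (nat_lit 99), (nat_lit 0), (nat_lit 0), [(nat_lit 4523920000), (nat_lit 7689120000), (nat_lit 11456480000)], [], [(nat_lit 13167715260), (nat_lit 16079726925), (nat_lit 16569936750), (nat_lit 19022185555), (nat_lit 26703417340), (nat_lit 28255897310), (nat_lit 28040339560), (nat_lit 29462055320)], (nat_lit 0), (nat_lit 0), (nat_lit 0), (nat_lit 0), (nat_lit 0), (nat_lit 0), [], [(nat_lit 18), (nat_lit 59), (nat_lit 483), (nat_lit 250), (nat_lit 12)]⟩,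
 Rw.none⟩) (.trX (nat_lit 5) (nat_lit 1) (nat_lit 2) (nat_lit 92) (nat_lit 49) (nat_lit 100) (nat_lit 380) (.leaf ⟨(nat_lit 35), (nat_lit 965), (nat_lit 0), (nat_lit 0), (nat_lit 0), (nat_lit 4360), (nat_lit 4414), (nat_lit 0), (nat_lit 0), (nat_lit 0), (nat_lit 140000), [((nat_lit 380), [((nat_lit 41), (nat_lit 5), (nat_lit 35))])], ⟨(nat_lit 7), true, false, false, (nat_lit 245), (nat_lit 2236), (nat_lit 3163), [(nat_lit 1527308), (nat_lit 1533723), (nat_lit 1571490), (nat_lit 1579145), (nat_lit 1649422), (nat_lit 1647962), (nat_lit 1693606), (nat_lit 1693384)]⟩, ⟨(nat_lit 6), false, false, true, (nat_lit 222), (nat_lit 2236), (nat_lit 3163), [(nat_lit 1472332), (nat_lit 1465917), (nat_lit 1538797), (nat_lit 1534240), (nat_lit 1579000), (nat_lit 1565693), (nat_lit 1645465), (nat_lit 1634017)]⟩, (nat_lit 5323588), (nat_lit 37845984), (nat_lit 15735191), (nat_lit 13418825), (nat_lit 6), (nat_lit 0), [⟨(nat_lit 0), (nat_lit 94), (nat_lit 62), (nat_lit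 100), (nat_lit 229373543)⟩], [⟨(nat_lit 1), (nat_lit 86), (nat_lit 60), (nat_lit 100), (nat_lit 417715619)⟩], [⟨(nat_lit 1), (nat_lit 49), (nat_lit 92), (nat_lit 100), (nat_lit 132013001)⟩], [⟨(nat_lit 2), (nat_lit 38), (nat_lit 93), (nat_lit 100), (nat_lit 345979759)⟩],
 ⟨⟨[(nat_lit 40), (nat_lit 60), (nat_lit 80)], [(nat_lit 0), (nat_lit 832), (nat_lit 1534)], [((nat_lit 0), (nat_lit 0), (nat_lit 0)), ((nat_lit 1000), (nat_lit 659), (nat_lit 528)), ((nat_lit 1000), (nat_lit 650), (nat_lit 549))], ((nat_lit 63), (nat_lit 100), (nat_lit 62))⟩, (nat_lit 2350996), (nat_lit 280), (nat_lit 280), (nat_lit 0), (nat_lit 719655), [(nat_lit 1896298001), (nat_lit 3083967467), (nat_lit 3926274000)], [(nat_lit 0), (nat_lit 0), (nat_lit 0)], [(nat_lit 23648537206), (nat_lit 24771800766), (nat_lit 25340478486), (nat_lit 26326966366), (nat_lit 26151602806), (nat_lit 27550246695), (nat_lit 27749853030), (nat_lit 28967377475)], (nat_lit 1271251), (nat_lit 1271251),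 (nat_lit 1100000), (nat_lit 1785001), (nat_lit 1271251), (nat_lit 1271251), [(nat_lit 490000), (nat_lit 780000), (nat_lit 1100000)], [(nat_lit 2), (nat_lit 44), (nat_lit 203), (nat_lit 0), (nat_lit 7)]⟩,
 ⟨⟨[(nat_lit 60), (nat_lit 100), (nat_lit 140)], [(nat_lit 0), (nat_lit 0), (nat_lit 2047)], [((nat_lit 0), (nat_lit 0), (nat_lit 0)), ((nat_lit 0), (nat_lit 0), (nat_lit 0)), ((nat_lit 1000), (nat_lit 993), (nat_lit 781))], ((nat_lit 94), (nat_lit 100), (nat_lit 62))⟩, (nat_lit 52219), (nat_lit 81), (nat_lit 81), (nat_lit 0), (nat_lit 0), [(nat_lit 3167130000), (nat_lit 6031250000), (nat_lit 9497530000)], [], [(nat_lit 15398159634), (nat_lit 18142663516), (nat_lit 18357720432), (nat_lit 20689177172), (nat_lit 25604108513), (nat_lit 27253658544), (nat_lit 27090945221), (nat_lit 28534959746)], (nat_lit 0), (nat_lit 0), (nat_lit 0), (nat_lit 0), (nat_lit 0), (nat_lit 0), [], [(nat_lit 11), (nat_lit 55), (nat_lit 401), (nat_lit 175), (nat_lit 11)]⟩,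
 Rw.none⟩))))) (.spl (nat_lit 3) (nat_lit 160) (.trX (nat_lit 5) (nat_lit 4) (nat_lit 3) (nat_lit 100) (nat_lit 40) (nat_lit 100) (nat_lit 390) (.leaf ⟨(nat_lit 223), (nat_lit 636), (nat_lit 0), (nat_lit 141), (nat_lit 0), (nat_lit 4307), (nat_lit 7574), (nat_lit 1393), (nat_lit 0), (nat_lit 0), (nat_lit 133800), [((nat_lit 380), [((nat_lit 41), (nat_lit 2), (nat_lit 223))])], ⟨(nat_lit 6), true, false, false, (nat_lit 197), (nat_lit 2236), (nat_lit 3163), [(nat_lit 1406804), (nat_lit 1416903), (nat_lit 1495170), (nat_lit 1507746), (nat_lit 1483125), (nat_lit 1488302), (nat_lit 1571490), (nat_lit 1579145)]⟩, ⟨(nat_lit 6), false, true, true, (nat_lit 253), (nat_lit 2236), (nat_lit 3163), [(nat_lit 1538797), (nat_lit 1534240), (nat_lit 1583107), (nat_lit 1579788), (nat_lit 1691180), (nat_lit 1676779), (nat_lit 1735490), (nat_lit 1722327)]⟩, (nat_lit 5205853), (nat_lit 38755562), (nat_lit 11343087), (nat_lit 16901351), (nat_lit 6), (nat_lit 0), [⟨(nat_lit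 0), (nat_lit 93), (nat_lit 53), (nat_lit 100), (nat_lit 881790648)⟩], [⟨(nat_lit 1), (nat_lit 85), (nat_lit 53), (nat_lit 100), (nat_lit 73471122)⟩], [], [⟨(nat_lit 2), (nat_lit 76), (nat_lit 94), (nat_lit 100), (nat_lit 359429221)⟩],
 ⟨⟨[(nat_lit 40), (nat_lit 60), (nat_lit 80)], [(nat_lit 0), (nat_lit 832), (nat_lit 1534)], [((nat_lit 0), (nat_lit 0), (nat_lit 0)), ((nat_lit 1000), (nat_lit 659), (nat_lit 528)), ((nat_lit 1000), (nat_lit 650), (nat_lit 549))], ((nat_lit 63), (nat_lit 100), (nat_lit 62))⟩, (nat_lit 1139768), (nat_lit 263), (nat_lit 263), (nat_lit 0), (nat_lit 589497), [(nat_lit 1751962212), (nat_lit 2652962130), (nat_lit 3630801600)], [(nat_lit 0), (nat_lit 0), (nat_lit 0)], [(nat_lit 22733677929), (nat_lit 24311387192), (nat_lit 23035361052), (nat_lit 24318126962), (nat_lit 28005102074), (nat_lit 29371065916), (nat_lit 27804647352), (nat_lit 29088769763)], (nat_lit 1271251), (nat_lit 1271251), (nat_lit 704688), (nat_lit 1100000),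 (nat_lit 1271251), (nat_lit 1271251), [(nat_lit 490000), (nat_lit 780000), (nat_lit 1100000)], [(nat_lit 2), (nat_lit 44), (nat_lit 249), (nat_lit 40), (nat_lit 10)]⟩,
 ⟨⟨[(nat_lit 80), (nat_lit 120), (nat_lit 160)], [(nat_lit 0), (nat_lit 0), (nat_lit 2132)], [((nat_lit 0), (nat_lit 0), (nat_lit 0)), ((nat_lit 0), (nat_lit 0), (nat_lit 0)), ((nat_lit 858), (nat_lit 1000), (nat_lit 713))], ((nat_lit 100), (nat_lit 92), (nat_lit 61))⟩, (nat_lit 3308899), (nat_lit 169), (nat_lit 169), (nat_lit 0), (nat_lit 0), [(nat_lit 3642576000), (nat_lit 6191136000), (nat_lit 9224544000)], [], [(nat_lit 13539067088), (nat_lit 17989491957), (nat_lit 13047401630), (nat_lit 17141645980), (nat_lit 24506447322), (nat_lit 28657583403), (nat_lit 23377718252), (nat_lit 27234468086)], (nat_lit 0), (nat_lit 0), (nat_lit 0), (nat_lit 0), (nat_lit 0), (nat_lit 0), [], [(nat_lit 18), (nat_lit 59), (nat_lit 456), (nat_lit 225), (nat_lit 11)]⟩,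
 ⟨⟨[(nat_lit 120), (nat_lit 160), (nat_lit 180)], [(nat_lit 0), (nat_lit 533), (nat_lit 2066)], [((nat_lit 0), (nat_lit 0), (nat_lit 0)), ((nat_lit 960), (nat_lit 1000), (nat_lit 200)), ((nat_lit 615), (nat_lit 1000), (nat_lit 729))], ((nat_lit 100), (nat_lit 74), (nat_lit 60))⟩, (nat_lit 330147), (nat_lit 300), (nat_lit 1955), (nat_lit 9362400), (nat_lit 3674228), [(nat_lit 1123488000), (nat_lit 1673952000), (nat_lit 1982178000)], [], [(nat_lit 7226923382), (nat_lit 7065433574), (nat_lit 6896195839), (nat_lit 6733976010), (nat_lit 6589513751), (nat_lit 6426836017), (nat_lit 6398789127), (nat_lit 6254520789)], (nat_lit 1271251), (nat_lit 1271251), (nat_lit 1271251), (nat_lit 1271251), (nat_lit 1271251), (nat_lit 1271251), [(nat_lit 1695001), (nat_lit 1271251), (nat_lit 1271251)], [(nat_lit 28), (nat_lit 65), (nat_lit 608), (nat_lit 250), (nat_lit 13)]⟩⟩)) (.leaf ⟨(nat_lit 35), (nat_lit 876), (nat_lit 0), (nat_lit 89), (nat_lit 0), (nat_lit 4101),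 (nat_lit 5360), (nat_lit 879), (nat_lit 0), (nat_lit 0), (nat_lit 140000), [((nat_lit 380), [((nat_lit 41), (nat_lit 5), (nat_lit 35))])], ⟨(nat_lit 6), true, false, false, (nat_lit 236), (nat_lit 2236), (nat_lit 3163), [(nat_lit 1483125), (nat_lit 1488302), (nat_lit 1571490), (nat_lit 1579145), (nat_lit 1605240), (nat_lit 1602541), (nat_lit 1693606), (nat_lit 1693384)]⟩, ⟨(nat_lit 6), false, true, true, (nat_lit 253), (nat_lit 2236), (nat_lit 3163), [(nat_lit 1538797), (nat_lit 1534240), (nat_lit 1583107), (nat_lit 1579788), (nat_lit 1691180), (nat_lit 1676779), (nat_lit 1735490), (nat_lit 1722327)]⟩, (nat_lit 5435181), (nat_lit 36445647), (nat_lit 14405189), (nat_lit 16149164), (nat_lit 6), (nat_lit 0), [⟨(nat_lit 0), (nat_lit 93), (nat_lit 53), (nat_lit 100), (nat_lit 171607797)⟩], [⟨(nat_lit 1), (nat_lit 85), (nat_lit 53), (nat_lit 100), (nat_lit 274734276)⟩], [], [⟨(nat_lit 2), (nat_lit 45), (nat_lit 89), (nat_lit 100), (nat_lit 444530077)⟩],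
 ⟨⟨[(nat_lit 40), (nat_lit 60), (nat_lit 80)], [(nat_lit 0), (nat_lit 832), (nat_lit 1534)], [((nat_lit 0), (nat_lit 0), (nat_lit 0)), ((nat_lit 1000), (nat_lit 659), (nat_lit 528)), ((nat_lit 1000), (nat_lit 650), (nat_lit 549))], ((nat_lit 63), (nat_lit 100), (nat_lit 62))⟩, (nat_lit 1715677), (nat_lit 247), (nat_lit 247), (nat_lit 0), (nat_lit 589497), [(nat_lit 1896298001), (nat_lit 2955080101), (nat_lit 3926274000)], [(nat_lit 0), (nat_lit 0), (nat_lit 0)], [(nat_lit 23696504077), (nat_lit 24863322467), (nat_lit 25483096063), (nat_lit 26507482308), (nat_lit 27583050165), (nat_lit 28836955724), (nat_lit 28989222430), (nat_lit 30085010905)], (nat_lit 1271251), (nat_lit 1271251), (nat_lit 1100000), (nat_lit 1785001), (nat_lit 1271251), (nat_lit 1271251), [(nat_lit 490000), (nat_lit 780000), (nat_lit 1100000)], [(nat_lit 2), (nat_lit 44), (nat_lit 203), (nat_lit 0), (nat_lit 7)]⟩,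
 ⟨⟨[(nat_lit 80), (nat_lit 120), (nat_lit 160)], [(nat_lit 0), (nat_lit 0), (nat_lit 2132)], [((nat_lit 0), (nat_lit 0), (nat_lit 0)), ((nat_lit 0), (nat_lit 0), (nat_lit 0)), ((nat_lit 858), (nat_lit 1000), (nat_lit 713))], ((nat_lit 100), (nat_lit 92), (nat_lit 61))⟩, (nat_lit 4903), (nat_lit 105), (nat_lit 105), (nat_lit 0), (nat_lit 0), [(nat_lit 4523920000), (nat_lit 7689120000), (nat_lit 11456480000)], [], [(nat_lit 13472730750), (nat_lit 19182258270), (nat_lit 16832887620), (nat_lit 21648658670), (nat_lit 26749811740), (nat_lit 29817393220), (nat_lit 28102280920), (nat_lit 30758544440)], (nat_lit 0), (nat_lit 0), (nat_lit 0), (nat_lit 0), (nat_lit 0), (nat_lit 0), [], [(nat_lit 18), (nat_lit 59), (nat_lit 483), (nat_lit 250), (nat_lit 12)]⟩,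
 ⟨⟨[(nat_lit 120), (nat_lit 160), (nat_lit 180)], [(nat_lit 0), (nat_lit 533), (nat_lit 2066)], [((nat_lit 0), (nat_lit 0), (nat_lit 0)), ((nat_lit 960), (nat_lit 1000), (nat_lit 200)), ((nat_lit 615), (nat_lit 1000), (nat_lit 729))], ((nat_lit 100), (nat_lit 74), (nat_lit 60))⟩, (nat_lit 216728), (nat_lit 300), (nat_lit 1955), (nat_lit 5909600), (nat_lit 3674228), [(nat_lit 709152000), (nat_lit 1056608000), (nat_lit 1251162000)], [], [(nat_lit 4565637767), (nat_lit 4463743765), (nat_lit 4356965899), (nat_lit 4254611073), (nat_lit 4145243879), (nat_lit 4047042449), (nat_lit 4046371449), (nat_lit 3954017409)], (nat_lit 1271251), (nat_lit 1271251), (nat_lit 1271251), (nat_lit 1271251), (nat_lit 1271251), (nat_lit 1271251), [(nat_lit 1695001), (nat_lit 1271251), (nat_lit 1271251)], [(nat_lit 28), (nat_lit 65), (nat_lit 609), (nat_lit 250), (nat_lit 13)]⟩⟩)))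
noncomputable def c17_40 : Tr Lf :=
 (.trX (nat_lit 5) (nat_lit 4) (nat_lit 3) (nat_lit 100) (nat_lit 40) (nat_lit 100) (nat_lit 390) (.spl (nat_lit 2) (nat_lit 160) (.trX (nat_lit 4) (nat_lit 0) (nat_lit 2) (nat_lit 61) (nat_lit 92) (nat_lit 100) (nat_lit 290) (.leaf ⟨(nat_lit 1000), (nat_lit 0), (nat_lit 0), (nat_lit 0), (nat_lit 0), (nat_lit 3687), (nat_lit 0), (nat_lit 0), (nat_lit 0), (nat_lit 0), (nat_lit 250000), [((nat_lit 380), [((nat_lit 24), (nat_lit 0), (nat_lit 1000))])], ⟨(nat_lit 6), false, false, false, (nat_lit 197), (nat_lit 2236), (nat_lit 3163), [(nat_lit 1406804), (nat_lit 1416903), (nat_lit 1495170), (nat_lit 1507746), (nat_lit 1483125), (nat_lit 1488302), (nat_lit 1571490), (nat_lit 1579145)]⟩, ⟨(nat_lit 6), false, false, true, (nat_lit 211), (nat_lit 2236), (nat_lit 3163), [(nat_lit 1472332), (nat_lit 1465917), (nat_lit 1516642), (nat_lit 1511466), (nat_lit 1548524), (nat_lit 1537186), (nat_lit 1592834), (nat_lit 1582735)]⟩,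 (nat_lit 4972779), (nat_lit 41791791), (nat_lit 11919869), (nat_lit 13288340), (nat_lit 0), (nat_lit 0), [⟨(nat_lit 0), (nat_lit 93), (nat_lit 53), (nat_lit 100), (nat_lit 430743626)⟩], [⟨(nat_lit 1), (nat_lit 92), (nat_lit 61), (nat_lit 100), (nat_lit 327152488)⟩], [], [],
 ⟨⟨[(nat_lit 40), (nat_lit 60), (nat_lit 80)], [(nat_lit 0), (nat_lit 832), (nat_lit 1534)], [((nat_lit 0), (nat_lit 0), (nat_lit 0)), ((nat_lit 1000), (nat_lit 659), (nat_lit 528)), ((nat_lit 1000), (nat_lit 650), (nat_lit 549))], ((nat_lit 63), (nat_lit 100), (nat_lit 62))⟩, (nat_lit 0), (nat_lit 77), (nat_lit 77), (nat_lit 0), (nat_lit 0), [(nat_lit 1526400195), (nat_lit 1534726058), (nat_lit 1705600000)], [(nat_lit 0), (nat_lit 0), (nat_lit 0)], [(nat_lit 22270520827), (nat_lit 23659129134), (nat_lit 22618308847), (nat_lit 23891612389), (nat_lit 24496575073), (nat_lit 25936671828), (nat_lit 24620596398), (nat_lit 25972790301)], (nat_lit 0), (nat_lit 0), (nat_lit 0), (nat_lit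 0), (nat_lit 0), (nat_lit 0), [], [(nat_lit 2), (nat_lit 44), (nat_lit 249), (nat_lit 40), (nat_lit 10)]⟩,
 Rw.none,
 Rw.none⟩)) (.spl (nat_lit 1) (nat_lit 280) (.leaf ⟨(nat_lit 929), (nat_lit 29), (nat_lit 0), (nat_lit 42), (nat_lit 0), (nat_lit 3462), (nat_lit 839), (nat_lit 487), (nat_lit 0), (nat_lit 0), (nat_lit 306800), [((nat_lit 380), [((nat_lit 24), (nat_lit 0), (nat_lit 432)), ((nat_lit 24), (nat_lit 1), (nat_lit 497))])], ⟨(nat_lit 6), false, false, false, (nat_lit 188), (nat_lit 2236), (nat_lit 3163), [(nat_lit 1406804), (nat_lit 1416903), (nat_lit 1450987), (nat_lit 1462324), (nat_lit 1483125), (nat_lit 1488302), (nat_lit 1527308), (nat_lit 1533723)]⟩, ⟨(nat_lit 6), false, false, true, (nat_lit 231), (nat_lit 2236), (nat_lit 3163), [(nat_lit 1516642), (nat_lit 1511466), (nat_lit 1538797), (nat_lit 1534240), (nat_lit 1623310), (nat_lit 1611243), (nat_lit 1645465), (nat_lit 1634017)]⟩, (nat_lit 5026611), (nat_lit 40958355), (nat_lit 10936439),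 (nat_lit 15105206), (nat_lit 6), (nat_lit 0), [⟨(nat_lit 0), (nat_lit 98), (nat_lit 54), (nat_lit 100), (nat_lit 186921838)⟩], [⟨(nat_lit 1), (nat_lit 86), (nat_lit 60), (nat_lit 100), (nat_lit 224479146)⟩], [], [],
 ⟨⟨[(nat_lit 40), (nat_lit 60), (nat_lit 80)], [(nat_lit 0), (nat_lit 832), (nat_lit 1534)], [((nat_lit 0), (nat_lit 0), (nat_lit 0)), ((nat_lit 1000), (nat_lit 659), (nat_lit 528)), ((nat_lit 1000), (nat_lit 650), (nat_lit 549))], ((nat_lit 63), (nat_lit 100), (nat_lit 62))⟩, (nat_lit 0), (nat_lit 83), (nat_lit 83), (nat_lit 0), (nat_lit 0), [(nat_lit 1470934801), (nat_lit 1468175974), (nat_lit 1544004000)], [(nat_lit 0), (nat_lit 0), (nat_lit 0)], [(nat_lit 22279185981), (nat_lit 23536798662), (nat_lit 22697303353), (nat_lit 23877610993), (nat_lit 25216032291), (nat_lit 26545784685), (nat_lit 25343862867), (nat_lit 26594660088)], (nat_lit 0), (nat_lit 0), (nat_lit 0), (nat_lit 0), (nat_lit 0), (nat_lit 0), [], [(nat_lit 2), (nat_lit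 44), (nat_lit 249), (nat_lit 40), (nat_lit 10)]⟩,
 ⟨⟨[(nat_lit 80), (nat_lit 120), (nat_lit 160)], [(nat_lit 0), (nat_lit 0), (nat_lit 2132)], [((nat_lit 0), (nat_lit 0), (nat_lit 0)), ((nat_lit 0), (nat_lit 0), (nat_lit 0)), ((nat_lit 858), (nat_lit 1000), (nat_lit 713))], ((nat_lit 100), (nat_lit 92), (nat_lit 61))⟩, (nat_lit 290242), (nat_lit 823), (nat_lit 823), (nat_lit 0), (nat_lit 1094699), [(nat_lit 332848000), (nat_lit 565728000), (nat_lit 842912000)], [], [(nat_lit 2936719641), (nat_lit 2071753748), (nat_lit 1988802876), (nat_lit 1972597270), (nat_lit 4009884929), (nat_lit 3287359471), (nat_lit 4537381873), (nat_lit 3825898966)], (nat_lit 1271251), (nat_lit 1271251), (nat_lit 704688), (nat_lit 1100000), (nat_lit 0), (nat_lit 2754376), [(nat_lit 1100000), (nat_lit 1785001), (nat_lit 1271251)], [(nat_lit 18), (nat_lit 59), (nat_lit 456), (nat_lit 225), (nat_lit 12)]⟩,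
 ⟨⟨[(nat_lit 120), (nat_lit 160), (nat_lit 180)], [(nat_lit 0), (nat_lit 0), (nat_lit 1613)], [((nat_lit 0), (nat_lit 0), (nat_lit 0)), ((nat_lit 0), (nat_lit 0), (nat_lit 0)), ((nat_lit 620), (nat_lit 1000), (nat_lit 670))], ((nat_lit 100), (nat_lit 68), (nat_lit 61))⟩, (nat_lit 18279), (nat_lit 300), (nat_lit 1512), (nat_lit 3116400), (nat_lit 2515773), [(nat_lit 334656000), (nat_lit 498624000), (nat_lit 590436000)], [], [(nat_lit 2440739192), (nat_lit 2417538802), (nat_lit 2415243908), (nat_lit 2390095701), (nat_lit 2202920998), (nat_lit 2353669204), (nat_lit 1878807547), (nat_lit 1857409921)], (nat_lit 1100000), (nat_lit 1271251), (nat_lit 1271251), (nat_lit 1271251), (nat_lit 0), (nat_lit 2754376), [(nat_lit 1695001), (nat_lit 1271251), (nat_lit 1271251)], [(nat_lit 28), (nat_lit 65), (nat_lit 488), (nat_lit 225), (nat_lit 11)]⟩⟩) (.trZ (nat_lit 0) (nat_lit 1) (nat_lit 3) (nat_lit 94) (nat_lit 62) (nat_lit 100) (nat_lit 150) (.trX (nat_lit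 5) (nat_lit 1) (nat_lit 2) (nat_lit 92) (nat_lit 49) (nat_lit 100) (nat_lit 380) (.leaf ⟨(nat_lit 841), (nat_lit 114), (nat_lit 0), (nat_lit 45), (nat_lit 0), (nat_lit 3144), (nat_lit 1216), (nat_lit 563), (nat_lit 0), (nat_lit 0), (nat_lit 336400), [((nat_lit 380), [((nat_lit 24), (nat_lit 1), (nat_lit 841))])], ⟨(nat_lit 7), false, false, false, (nat_lit 218), (nat_lit 2236), (nat_lit 3163), [(nat_lit 1512044), (nat_lit 1519444), (nat_lit 1556227), (nat_lit 1564865), (nat_lit 1527308), (nat_lit 1533723), (nat_lit 1571490), (nat_lit 1579145)]⟩, ⟨(nat_lit 6), false, false, true, (nat_lit 231), (nat_lit 2236), (nat_lit 3163), [(nat_lit 1516642), (nat_lit 1511466), (nat_lit 1538797), (nat_lit 1534240), (nat_lit 1623310), (nat_lit 1611243), (nat_lit 1645465), (nat_lit 1634017)]⟩, (nat_lit 5231667), (nat_lit 39021128), (nat_lit 13361889), (nat_lit 14616983), (nat_lit 6), (nat_lit 0), [⟨(nat_lit 0), (nat_lit 94), (nat_lit 62), (nat_lit 100), (nat_lit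 504230816)⟩], [⟨(nat_lit 1), (nat_lit 86), (nat_lit 60), (nat_lit 100), (nat_lit 304796937)⟩], [], [],
 ⟨⟨[(nat_lit 40), (nat_lit 60), (nat_lit 80)], [(nat_lit 0), (nat_lit 832), (nat_lit 1534)], [((nat_lit 0), (nat_lit 0), (nat_lit 0)), ((nat_lit 1000), (nat_lit 659), (nat_lit 528)), ((nat_lit 1000), (nat_lit 650), (nat_lit 549))], ((nat_lit 63), (nat_lit 100), (nat_lit 62))⟩, (nat_lit 1522), (nat_lit 60), (nat_lit 60), (nat_lit 0), (nat_lit 0), [(nat_lit 1443098014), (nat_lit 1346690814), (nat_lit 1550587786)], [(nat_lit 0), (nat_lit 0), (nat_lit 0)], [(nat_lit 22246595802), (nat_lit 23453476487), (nat_lit 22347798332), (nat_lit 23539214668), (nat_lit 25015612867), (nat_lit 26228832680), (nat_lit 25057770682), (nat_lit 26256267503)], (nat_lit 0), (nat_lit 0), (nat_lit 0), (nat_lit 0), (nat_lit 0), (nat_lit 0), [], [(nat_lit 2), (nat_lit 44), (nat_lit 249), (nat_lit 40), (nat_lit 9)]⟩,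
 ⟨⟨[(nat_lit 60), (nat_lit 100), (nat_lit 140)], [(nat_lit 0), (nat_lit 0), (nat_lit 2047)], [((nat_lit 0), (nat_lit 0), (nat_lit 0)), ((nat_lit 0), (nat_lit 0), (nat_lit 0)), ((nat_lit 1000), (nat_lit 993), (nat_lit 781))], ((nat_lit 94), (nat_lit 100), (nat_lit 62))⟩, (nat_lit 412511), (nat_lit 644), (nat_lit 644), (nat_lit 0), (nat_lit 967825), [(nat_lit 521838000), (nat_lit 993750000), (nat_lit 1564878000)], [], [(nat_lit 5596481032), (nat_lit 5507047637), (nat_lit 5272440440), (nat_lit 5492589692), (nat_lit 5485504212), (nat_lit 5452329816), (nat_lit 5665566504), (nat_lit 5423409428)], (nat_lit 1271251), (nat_lit 1271251), (nat_lit 1017188), (nat_lit 1100000), (nat_lit 0), (nat_lit 2683751), [(nat_lit 780000), (nat_lit 1435001), (nat_lit 1271251)], [(nat_lit 11), (nat_lit 55), (nat_lit 373), (nat_lit 150), (nat_lit 11)]⟩,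
 ⟨⟨[(nat_lit 120), (nat_lit 160), (nat_lit 180)], [(nat_lit 0), (nat_lit 0), (nat_lit 1613)], [((nat_lit 0), (nat_lit 0), (nat_lit 0)), ((nat_lit 0), (nat_lit 0), (nat_lit 0)), ((nat_lit 620), (nat_lit 1000), (nat_lit 670))], ((nat_lit 100), (nat_lit 68), (nat_lit 61))⟩, (nat_lit 19585), (nat_lit 300), (nat_lit 1740), (nat_lit 3339000), (nat_lit 2997486), [(nat_lit 358560000), (nat_lit 534240000), (nat_lit 632610000)], [], [(nat_lit 2488718992), (nat_lit 2465494926), (nat_lit 2500633915), (nat_lit 2476968181), (nat_lit 2329086899), (nat_lit 2500150594), (nat_lit 1933517654), (nat_lit 1908340317)], (nat_lit 1100000), (nat_lit 1271251), (nat_lit 1271251), (nat_lit 1271251), (nat_lit 0), (nat_lit 2683751), [(nat_lit 1695001), (nat_lit 1271251), (nat_lit 1271251)], [(nat_lit 28), (nat_lit 65), (nat_lit 544), (nat_lit 225), (nat_lit 12)]⟩⟩))))))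
noncomputable def c17_41 : Tr Lf :=
 (.leaf ⟨(nat_lit 1000), (nat_lit 0), (nat_lit 0), (nat_lit 0), (nat_lit 0), (nat_lit 3256), (nat_lit 0), (nat_lit 0), (nat_lit 0), (nat_lit 0), (nat_lit 250000), [((nat_lit 380), [((nat_lit 24), (nat_lit 0), (nat_lit 1000))])], ⟨(nat_lit 6), false, false, false, (nat_lit 227), (nat_lit 2236), (nat_lit 3163), [(nat_lit 1483125), (nat_lit 1488302), (nat_lit 1527308), (nat_lit 1533723), (nat_lit 1605240), (nat_lit 1602541), (nat_lit 1649422), (nat_lit 1647962)]⟩, ⟨(nat_lit 6), false, false, true, (nat_lit 211), (nat_lit 2236), (nat_lit 3163), [(nat_lit 1472332), (nat_lit 1465917), (nat_lit 1516642), (nat_lit 1511466), (nat_lit 1548524), (nat_lit 1537186), (nat_lit 1592834), (nat_lit 1582735)]⟩, (nat_lit 5167210), (nat_lit 39737372), (nat_lit 14403196), (nat_lit 12859432), (nat_lit 0), (nat_lit 0), [], [⟨(nat_lit 1), (nat_lit 92), (nat_lit 61), (nat_lit 100), (nat_lit 297229192)⟩], [], [],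
 ⟨⟨[(nat_lit 40), (nat_lit 60), (nat_lit 80)], [(nat_lit 0), (nat_lit 832), (nat_lit 1534)], [((nat_lit 0), (nat_lit 0), (nat_lit 0)), ((nat_lit 1000), (nat_lit 659), (nat_lit 528)), ((nat_lit 1000), (nat_lit 650), (nat_lit 549))], ((nat_lit 63), (nat_lit 100), (nat_lit 62))⟩, (nat_lit 0), (nat_lit 54), (nat_lit 54), (nat_lit 0), (nat_lit 0), [(nat_lit 1526400005), (nat_lit 1376644452), (nat_lit 1705600000)], [(nat_lit 0), (nat_lit 0), (nat_lit 0)], [(nat_lit 22326501449), (nat_lit 23544654266), (nat_lit 24284680026), (nat_lit 25396020882), (nat_lit 24315637388), (nat_lit 25546163711), (nat_lit 26069437010), (nat_lit 27187166757)], (nat_lit 0), (nat_lit 0), (nat_lit 0), (nat_lit 0), (nat_lit 0), (nat_lit 0), [], [(nat_lit 2), (nat_lit 44), (nat_lit 203), (nat_lit 0), (nat_lit 7)]⟩,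
 Rw.none,
 Rw.none⟩)
noncomputable def c17_42 : Tr Lf :=
 (.trX (nat_lit 5) (nat_lit 1) (nat_lit 2) (nat_lit 94) (nat_lit 59) (nat_lit 100) (nat_lit 370) (.spl (nat_lit 1) (nat_lit 300) (.spl (nat_lit 2) (nat_lit 140) (.trX (nat_lit 4) (nat_lit 0) (nat_lit 2) (nat_lit 63) (nat_lit 99) (nat_lit 100) (nat_lit 270) (.trX (nat_lit 5) (nat_lit 1) (nat_lit 2) (nat_lit 96) (nat_lit 69) (nat_lit 100) (nat_lit 360) (.leaf ⟨(nat_lit 1000), (nat_lit 0), (nat_lit 0), (nat_lit 0), (nat_lit 0), (nat_lit 3293), (nat_lit 0), (nat_lit 0), (nat_lit 0), (nat_lit 0), (nat_lit 250000), [((nat_lit 380), [((nat_lit 24), (nat_lit 0), (nat_lit 1000))])], ⟨(nat_lit 7), false, false, false, (nat_lit 240), (nat_lit 2236), (nat_lit 3163), [(nat_lit 1527308), (nat_lit 1533723), (nat_lit 1549399), (nat_lit 1556434), (nat_lit 1649422), (nat_lit 1647962), (nat_lit 1671514), (nat_lit 1670673)]⟩, ⟨(nat_lit 6), false, false, true, (nat_lit 201), (nat_lit 2236), (nat_lit 3163), [(nat_lit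 1472332), (nat_lit 1465917), (nat_lit 1494487), (nat_lit 1488691), (nat_lit 1518047), (nat_lit 1508679), (nat_lit 1540202), (nat_lit 1531453)]⟩, (nat_lit 5170253), (nat_lit 39456533), (nat_lit 15731124), (nat_lit 11812343), (nat_lit 0), (nat_lit 0), [], [⟨(nat_lit 1), (nat_lit 99), (nat_lit 63), (nat_lit 100), (nat_lit 288277570)⟩], [], [],
 ⟨⟨[(nat_lit 40), (nat_lit 60), (nat_lit 80)], [(nat_lit 0), (nat_lit 832), (nat_lit 1534)], [((nat_lit 0), (nat_lit 0), (nat_lit 0)), ((nat_lit 1000), (nat_lit 659), (nat_lit 528)), ((nat_lit 1000), (nat_lit 650), (nat_lit 549))], ((nat_lit 63), (nat_lit 100), (nat_lit 62))⟩, (nat_lit 0), (nat_lit 51), (nat_lit 51), (nat_lit 0), (nat_lit 0), [(nat_lit 1526400018), (nat_lit 1378882463), (nat_lit 1705600000)], [(nat_lit 0), (nat_lit 0), (nat_lit 0)], [(nat_lit 22283870757), (nat_lit 23513315329), (nat_lit 24247109734), (nat_lit 25401429486), (nat_lit 23466807085), (nat_lit 24750754016), (nat_lit 25320984811),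 (nat_lit 26492891881)], (nat_lit 0), (nat_lit 0), (nat_lit 0), (nat_lit 0), (nat_lit 0), (nat_lit 0), [], [(nat_lit 2), (nat_lit 44), (nat_lit 203), (nat_lit 0), (nat_lit 7)]⟩,
 Rw.none,
 Rw.none⟩))) (.leaf ⟨(nat_lit 903), (nat_lit 68), (nat_lit 0), (nat_lit 29), (nat_lit 0), (nat_lit 3329), (nat_lit 888), (nat_lit 301), (nat_lit 0), (nat_lit 0), (nat_lit 225750), [((nat_lit 380), [((nat_lit 24), (nat_lit 0), (nat_lit 903))])], ⟨(nat_lit 7), false, false, false, (nat_lit 240), (nat_lit 2236), (nat_lit 3163), [(nat_lit 1527308), (nat_lit 1533723), (nat_lit 1549399), (nat_lit 1556434), (nat_lit 1649422), (nat_lit 1647962), (nat_lit 1671514), (nat_lit 1670673)]⟩, ⟨(nat_lit 6), false, false, true, (nat_lit 216), (nat_lit 2236), (nat_lit 3163), [(nat_lit 1494487), (nat_lit 1488691), (nat_lit 1516642), (nat_lit 1511466), (nat_lit 1570679), (nat_lit 1559961), (nat_lit 1592834), (nat_lit 1582735)]⟩, (nat_lit 5267179), (nat_lit 38518402), (nat_lit 15466289),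 (nat_lit 13015309), (nat_lit 6), (nat_lit 0), [], [⟨(nat_lit 1), (nat_lit 99), (nat_lit 54), (nat_lit 100), (nat_lit 101463542)⟩, ⟨(nat_lit 1), (nat_lit 92), (nat_lit 61), (nat_lit 100), (nat_lit 157472881)⟩], [], [],
 ⟨⟨[(nat_lit 40), (nat_lit 60), (nat_lit 80)], [(nat_lit 0), (nat_lit 832), (nat_lit 1534)], [((nat_lit 0), (nat_lit 0), (nat_lit 0)), ((nat_lit 1000), (nat_lit 659), (nat_lit 528)), ((nat_lit 1000), (nat_lit 650), (nat_lit 549))], ((nat_lit 63), (nat_lit 100), (nat_lit 62))⟩, (nat_lit 0), (nat_lit 54), (nat_lit 54), (nat_lit 0), (nat_lit 0), [(nat_lit 1552745356), (nat_lit 1552935765), (nat_lit 1994892800)], [(nat_lit 0), (nat_lit 0), (nat_lit 0)], [(nat_lit 22440613349), (nat_lit 23663441575), (nat_lit 24371788641), (nat_lit 25445750193), (nat_lit 24408663163), (nat_lit 25618422971), (nat_lit 26124676840), (nat_lit 27252998395)], (nat_lit 0), (nat_lit 0), (nat_lit 0), (nat_lit 0), (nat_lit 0), (nat_lit 0), [], [(nat_lit 2), (nat_lit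 44), (nat_lit 203), (nat_lit 0), (nat_lit 7)]⟩,
 ⟨⟨[(nat_lit 60), (nat_lit 100), (nat_lit 140)], [(nat_lit 0), (nat_lit 0), (nat_lit 2047)], [((nat_lit 0), (nat_lit 0), (nat_lit 0)), ((nat_lit 0), (nat_lit 0), (nat_lit 0)), ((nat_lit 1000), (nat_lit 993), (nat_lit 781))], ((nat_lit 94), (nat_lit 100), (nat_lit 62))⟩, (nat_lit 54507), (nat_lit 666), (nat_lit 666), (nat_lit 0), (nat_lit 1029223), [(nat_lit 318354000), (nat_lit 606250000), (nat_lit 954674000)], [], [(nat_lit 3285857320), (nat_lit 3110728349), (nat_lit 3090942417), (nat_lit 3175102629), (nat_lit 3142983268), (nat_lit 3221398940), (nat_lit 4127582864), (nat_lit 3744067652)], (nat_lit 1271251), (nat_lit 1271251), (nat_lit 1100000), (nat_lit 1785001), (nat_lit 0), (nat_lit 2613125), [(nat_lit 780000), (nat_lit 1435001), (nat_lit 1271251)], [(nat_lit 11), (nat_lit 55), (nat_lit 401), (nat_lit 175), (nat_lit 11)]⟩,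
 ⟨⟨[(nat_lit 140), (nat_lit 180), (nat_lit 200)], [(nat_lit 0), (nat_lit 608), (nat_lit 3317)], [((nat_lit 0), (nat_lit 0), (nat_lit 0)), ((nat_lit 913), (nat_lit 1000), (nat_lit 217)), ((nat_lit 385), (nat_lit 1000), (nat_lit 814))], ((nat_lit 0), (nat_lit 0), (nat_lit 0))⟩, (nat_lit 66967), (nat_lit 300), (nat_lit 2167), (nat_lit 2038701), (nat_lit 3715317), [(nat_lit 285418000), (nat_lit 407682000), (nat_lit 475600000)], [], [(nat_lit 1965687540), (nat_lit 1940925096), (nat_lit 1935392510), (nat_lit 1910439776), (nat_lit 1697659844), (nat_lit 1783009617), (nat_lit 1534532021), (nat_lit 1509839510)], (nat_lit 936250), (nat_lit 1100000), (nat_lit 1271251), (nat_lit 1271251), (nat_lit 0), (nat_lit 2613125), [(nat_lit 1977501), (nat_lit 1271251), (nat_lit 1271251)], [(nat_lit 32), (nat_lit 67), (nat_lit 645), (nat_lit 225), (nat_lit 13)]⟩⟩)) (.trZ (nat_lit 0) (nat_lit 1) (nat_lit 3) (nat_lit 87) (nat_lit 60) (nat_lit 100) (nat_lit 170) (.trX (nat_lit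 5) (nat_lit 1) (nat_lit 2) (nat_lit 88) (nat_lit 68) (nat_lit 100) (nat_lit 350) (.spl (nat_lit 3) (nat_lit 200) (.spl (nat_lit 5) (nat_lit 120) (.leaf ⟨(nat_lit 0), (nat_lit 1000), (nat_lit 0), (nat_lit 0), (nat_lit 0), (nat_lit 3893), (nat_lit 6643), (nat_lit 0), (nat_lit 0), (nat_lit 0), (nat_lit 0), [], Pd.none, Pd.none, (nat_lit 0), (nat_lit 1), (nat_lit 0), (nat_lit 0), (nat_lit 6), (nat_lit 0), [⟨(nat_lit 0), (nat_lit 84), (nat_lit 53), (nat_lit 100), (nat_lit 576061614)⟩], [⟨(nat_lit 1), (nat_lit 100), (nat_lit 54), (nat_lit 98), (nat_lit 819542721)⟩], [], [],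
 ⟨⟨[(nat_lit 40), (nat_lit 60), (nat_lit 80)], [(nat_lit 0), (nat_lit 832), (nat_lit 1534)], [((nat_lit 0), (nat_lit 0), (nat_lit 0)), ((nat_lit 1000), (nat_lit 659), (nat_lit 528)), ((nat_lit 1000), (nat_lit 650), (nat_lit 549))], ((nat_lit 63), (nat_lit 100), (nat_lit 62))⟩, (nat_lit 1479193), (nat_lit 54), (nat_lit 54), (nat_lit 0), (nat_lit 0), [(nat_lit 2032001361), (nat_lit 3282000810), (nat_lit 4688000000)], [], [(nat_lit 22975807117), (nat_lit 24273583752), (nat_lit 23700325253), (nat_lit 24935655666), (nat_lit 25010314711), (nat_lit 26374814422), (nat_lit 25669554260), (nat_lit 26969157710)], (nat_lit 0), (nat_lit 0), (nat_lit 0), (nat_lit 0), (nat_lit 0), (nat_lit 0), [], [(nat_lit 2), (nat_lit 44), (nat_lit 203), (nat_lit 0), (nat_lit 7)]⟩,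
 ⟨⟨[(nat_lit 60), (nat_lit 100), (nat_lit 120)], [(nat_lit 0), (nat_lit 609), (nat_lit 1609)], [((nat_lit 0), (nat_lit 0), (nat_lit 0)), ((nat_lit 1000), (nat_lit 905), (nat_lit 238)), ((nat_lit 1000), (nat_lit 882), (nat_lit 668))], ((nat_lit 87), (nat_lit 100), (nat_lit 60))⟩, (nat_lit 6888279), (nat_lit 628), (nat_lit 628), (nat_lit 0), (nat_lit 1082432), [(nat_lit 3282000000), (nat_lit 6250000000), (nat_lit 7968000000)], [], [(nat_lit 20963215539), (nat_lit 22067577712), (nat_lit 21418825319), (nat_lit 23479342598), (nat_lit 19007016626), (nat_lit 19909554313), (nat_lit 19648758441), (nat_lit 20498926737)], (nat_lit 1271251), (nat_lit 1271251), (nat_lit 1184688), (nat_lit 1444376), (nat_lit 0), (nat_lit 780000), [(nat_lit 780000), (nat_lit 1435001), (nat_lit 1271251)], [(nat_lit 10), (nat_lit 54), (nat_lit 317), (nat_lit 100), (nat_lit 10)]⟩,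
 Rw.none⟩) (.spl (nat_lit 5) (nat_lit 240) (.leaf ⟨(nat_lit 0), (nat_lit 1000), (nat_lit 0), (nat_lit 0), (nat_lit 0), (nat_lit 3893), (nat_lit 6776), (nat_lit 0), (nat_lit 0), (nat_lit 0), (nat_lit 0), [], Pd.none, Pd.none, (nat_lit 0), (nat_lit 1), (nat_lit 0), (nat_lit 0), (nat_lit 6), (nat_lit 0), [⟨(nat_lit 0), (nat_lit 84), (nat_lit 53), (nat_lit 100), (nat_lit 613119138)⟩], [⟨(nat_lit 1), (nat_lit 100), (nat_lit 54), (nat_lit 98), (nat_lit 736500331)⟩, ⟨(nat_lit 1), (nat_lit 92), (nat_lit 61), (nat_lit 100), (nat_lit 81659765)⟩], [], [],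
 ⟨⟨[(nat_lit 40), (nat_lit 60), (nat_lit 80)], [(nat_lit 0), (nat_lit 832), (nat_lit 1534)], [((nat_lit 0), (nat_lit 0), (nat_lit 0)), ((nat_lit 1000), (nat_lit 659), (nat_lit 528)), ((nat_lit 1000), (nat_lit 650), (nat_lit 549))], ((nat_lit 63), (nat_lit 100), (nat_lit 62))⟩, (nat_lit 1685210), (nat_lit 54), (nat_lit 54), (nat_lit 0), (nat_lit 0), [(nat_lit 2032000012), (nat_lit 3309304394), (nat_lit 4688000000)], [], [(nat_lit 22886016329), (nat_lit 24246119242), (nat_lit 23641607040), (nat_lit 24935529216), (nat_lit 25010312013), (nat_lit 26374814422), (nat_lit 25669554260), (nat_lit 26969157710)], (nat_lit 0), (nat_lit 0), (nat_lit 0), (nat_lit 0), (nat_lit 0), (nat_lit 0), [], [(nat_lit 2), (nat_lit 44), (nat_lit 203), (nat_lit 0), (nat_lit 7)]⟩,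
 ⟨⟨[(nat_lit 60), (nat_lit 100), (nat_lit 120)], [(nat_lit 0), (nat_lit 609), (nat_lit 1609)], [((nat_lit 0), (nat_lit 0), (nat_lit 0)), ((nat_lit 1000), (nat_lit 905), (nat_lit 238)), ((nat_lit 1000), (nat_lit 882), (nat_lit 668))], ((nat_lit 87), (nat_lit 100), (nat_lit 60))⟩, (nat_lit 6052031), (nat_lit 541), (nat_lit 541), (nat_lit 0), (nat_lit 1082432), [(nat_lit 3282000000), (nat_lit 6250000000), (nat_lit 7968000000)], [], [(nat_lit 17554568760), (nat_lit 18321648826), (nat_lit 18038026784), (nat_lit 18875755513), (nat_lit 18980409689), (nat_lit 20159163208), (nat_lit 19524779076), (nat_lit 21182647840)], (nat_lit 1271251), (nat_lit 1271251), (nat_lit 1184688), (nat_lit 1444376), (nat_lit 780000), (nat_lit 1762501), [(nat_lit 780000), (nat_lit 1435001), (nat_lit 1271251)], [(nat_lit 10), (nat_lit 54), (nat_lit 345), (nat_lit 125), (nat_lit 11)]⟩,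
 Rw.none⟩) (.spl (nat_lit 2) (nat_lit 140) (.trX (nat_lit 4) (nat_lit 0) (nat_lit 2) (nat_lit 63) (nat_lit 99) (nat_lit 100) (nat_lit 270) (.trX (nat_lit 5) (nat_lit 1) (nat_lit 2) (nat_lit 91) (nat_lit 77) (nat_lit 100) (nat_lit 340) (.leaf ⟨(nat_lit 717), (nat_lit 283), (nat_lit 0), (nat_lit 0), (nat_lit 0), (nat_lit 3644), (nat_lit 1744), (nat_lit 0), (nat_lit 0), (nat_lit 0), (nat_lit 179250), [((nat_lit 380), [((nat_lit 24), (nat_lit 0), (nat_lit 717))])], ⟨(nat_lit 7), false, true, false, (nat_lit 240), (nat_lit 2236), (nat_lit 3163), [(nat_lit 1564664), (nat_lit 1570714), (nat_lit 1586755), (nat_lit 1593425), (nat_lit 1610457), (nat_lit 1613554), (nat_lit 1632548), (nat_lit 1636264)]⟩, ⟨(nat_lit 6), false, false, true, (nat_lit 201), (nat_lit 2236), (nat_lit 3163), [(nat_lit 1472332), (nat_lit 1465917), (nat_lit 1494487), (nat_lit 1488691), (nat_lit 1518047), (nat_lit 1508679), (nat_lit 1540202), (nat_lit 1531453)]⟩, (nat_lit 5170746), (nat_lit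 39449542), (nat_lit 15739534), (nat_lit 11810924), (nat_lit 6), (nat_lit 0), [⟨(nat_lit 0), (nat_lit 87), (nat_lit 60), (nat_lit 100), (nat_lit 300933467)⟩], [⟨(nat_lit 1), (nat_lit 99), (nat_lit 63), (nat_lit 100), (nat_lit 406699947)⟩], [⟨(nat_lit 1), (nat_lit 77), (nat_lit 91), (nat_lit 100), (nat_lit 111412052)⟩], [],
 ⟨⟨[(nat_lit 40), (nat_lit 60), (nat_lit 80)], [(nat_lit 0), (nat_lit 832), (nat_lit 1534)], [((nat_lit 0), (nat_lit 0), (nat_lit 0)), ((nat_lit 1000), (nat_lit 659), (nat_lit 528)), ((nat_lit 1000), (nat_lit 650), (nat_lit 549))], ((nat_lit 63), (nat_lit 100), (nat_lit 62))⟩, (nat_lit 0), (nat_lit 50), (nat_lit 50), (nat_lit 0), (nat_lit 0), [(nat_lit 1603262803), (nat_lit 1909088403), (nat_lit 2549619200)], [(nat_lit 0), (nat_lit 0), (nat_lit 0)], [(nat_lit 22706750878), (nat_lit 24020732227), (nat_lit 23431124470), (nat_lit 24728034196), (nat_lit 23901816772), (nat_lit 25286941852), (nat_lit 24614115749), (nat_lit 25931401592)],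 (nat_lit 0), (nat_lit 0), (nat_lit 0), (nat_lit 0), (nat_lit 0), (nat_lit 0), [], [(nat_lit 2), (nat_lit 44), (nat_lit 203), (nat_lit 0), (nat_lit 7)]⟩,
 ⟨⟨[(nat_lit 60), (nat_lit 100), (nat_lit 120)], [(nat_lit 0), (nat_lit 609), (nat_lit 1609)], [((nat_lit 0), (nat_lit 0), (nat_lit 0)), ((nat_lit 1000), (nat_lit 905), (nat_lit 238)), ((nat_lit 1000), (nat_lit 882), (nat_lit 668))], ((nat_lit 87), (nat_lit 100), (nat_lit 60))⟩, (nat_lit 1370613), (nat_lit 508), (nat_lit 508), (nat_lit 0), (nat_lit 1082432), [(nat_lit 928806000), (nat_lit 1768750000), (nat_lit 2254944000)], [], [(nat_lit 6654204201), (nat_lit 6800872438), (nat_lit 6732442169), (nat_lit 6870264553), (nat_lit 7323683528), (nat_lit 7609364317), (nat_lit 7457274340), (nat_lit 7779275696)], (nat_lit 1271251), (nat_lit 1271251), (nat_lit 1184688), (nat_lit 1444376), (nat_lit 1271251), (nat_lit 1271251), [(nat_lit 780000), (nat_lit 1435001), (nat_lit 1271251)], [(nat_lit 10), (nat_lit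 54), (nat_lit 260), (nat_lit 50), (nat_lit 7)]⟩,
 Rw.none⟩))) (.leaf ⟨(nat_lit 0), (nat_lit 842), (nat_lit 0), (nat_lit 158), (nat_lit 0), (nat_lit 3900), (nat_lit 5972), (nat_lit 1662), (nat_lit 0), (nat_lit 0), (nat_lit 0), [], Pd.none, Pd.none, (nat_lit 0), (nat_lit 1), (nat_lit 0), (nat_lit 0), (nat_lit 6), (nat_lit 0), [⟨(nat_lit 0), (nat_lit 84), (nat_lit 53), (nat_lit 100), (nat_lit 735165659)⟩], [⟨(nat_lit 1), (nat_lit 99), (nat_lit 54), (nat_lit 100), (nat_lit 552147796)⟩], [⟨(nat_lit 1), (nat_lit 68), (nat_lit 88), (nat_lit 100), (nat_lit 307726581)⟩], [],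
 ⟨⟨[(nat_lit 40), (nat_lit 60), (nat_lit 80)], [(nat_lit 0), (nat_lit 832), (nat_lit 1534)], [((nat_lit 0), (nat_lit 0), (nat_lit 0)), ((nat_lit 1000), (nat_lit 659), (nat_lit 528)), ((nat_lit 1000), (nat_lit 650), (nat_lit 549))], ((nat_lit 63), (nat_lit 100), (nat_lit 62))⟩, (nat_lit 1548136), (nat_lit 54), (nat_lit 54), (nat_lit 0), (nat_lit 0), [(nat_lit 2032000003), (nat_lit 3282000024), (nat_lit 4688000000)], [], [(nat_lit 22909957075), (nat_lit 24240172456), (nat_lit 23634479275), (nat_lit 24929529106), (nat_lit 25013754966), (nat_lit 26381666349), (nat_lit 25675042088), (nat_lit 26975778507)], (nat_lit 0), (nat_lit 0), (nat_lit 0), (nat_lit 0), (nat_lit 0), (nat_lit 0), [], [(nat_lit 2), (nat_lit 44), (nat_lit 203), (nat_lit 0), (nat_lit 7)]⟩,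
 ⟨⟨[(nat_lit 60), (nat_lit 100), (nat_lit 120)], [(nat_lit 0), (nat_lit 609), (nat_lit 1609)], [((nat_lit 0), (nat_lit 0), (nat_lit 0)), ((nat_lit 1000), (nat_lit 905), (nat_lit 238)), ((nat_lit 1000), (nat_lit 882), (nat_lit 668))], ((nat_lit 87), (nat_lit 100), (nat_lit 60))⟩, (nat_lit 5585556), (nat_lit 460), (nat_lit 460), (nat_lit 0), (nat_lit 995046), [(nat_lit 3282000000), (nat_lit 6250000000), (nat_lit 7968000000)], [], [(nat_lit 23179081453), (nat_lit 23773705870), (nat_lit 23541667322), (nat_lit 24141615868), (nat_lit 26684820167), (nat_lit 27536983200), (nat_lit 27020698723), (nat_lit 28099313225)], (nat_lit 1271251), (nat_lit 1271251), (nat_lit 1184688), (nat_lit 1444376), (nat_lit 1271251), (nat_lit 1271251), [(nat_lit 780000), (nat_lit 1435001), (nat_lit 1271251)], [(nat_lit 10), (nat_lit 54), (nat_lit 260), (nat_lit 50), (nat_lit 7)]⟩,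
 ⟨⟨[(nat_lit 140), (nat_lit 180), (nat_lit 200)], [(nat_lit 0), (nat_lit 608), (nat_lit 3317)], [((nat_lit 0), (nat_lit 0), (nat_lit 0)), ((nat_lit 913), (nat_lit 1000), (nat_lit 217)), ((nat_lit 385), (nat_lit 1000), (nat_lit 814))], ((nat_lit 0), (nat_lit 0), (nat_lit 0))⟩, (nat_lit 364855), (nat_lit 300), (nat_lit 2217), (nat_lit 11107401), (nat_lit 4058247), [(nat_lit 1555036000), (nat_lit 2221164000), (nat_lit 2591200000)], [], [(nat_lit 8822322652), (nat_lit 8711025375), (nat_lit 8602131434), (nat_lit 8491078835), (nat_lit 8434077943), (nat_lit 8299479607), (nat_lit 8277136231), (nat_lit 8141275396)], (nat_lit 936250), (nat_lit 1100000), (nat_lit 1271251), (nat_lit 1271251), (nat_lit 1271251), (nat_lit 1271251), [(nat_lit 1977501), (nat_lit 1271251), (nat_lit 1271251)], [(nat_lit 32), (nat_lit 67), (nat_lit 655), (nat_lit 200), (nat_lit 13)]⟩⟩)))) (.spl (nat_lit 0) (nat_lit 370) (.leaf ⟨(nat_lit 694), (nat_lit 306), (nat_lit 0), (nat_lit 0),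 (nat_lit 0), (nat_lit 3191), (nat_lit 1872), (nat_lit 0), (nat_lit 0), (nat_lit 0), (nat_lit 173500), [((nat_lit 370), [((nat_lit 24), (nat_lit 0), (nat_lit 694))])], ⟨(nat_lit 7), false, true, false, (nat_lit 261), (nat_lit 2738), (nat_lit 3163), [(nat_lit 1610714), (nat_lit 1612026), (nat_lit 1632856), (nat_lit 1634431), (nat_lit 1671685), (nat_lit 1671105), (nat_lit 1693828), (nat_lit 1693511)]⟩, ⟨(nat_lit 6), false, false, true, (nat_lit 212), (nat_lit 2738), (nat_lit 3163), [(nat_lit 1472332), (nat_lit 1469390), (nat_lit 1516642), (nat_lit 1514225), (nat_lit 1548524), (nat_lit 1543217), (nat_lit 1592834), (nat_lit 1588052)]⟩, (nat_lit 5335952), (nat_lit 37321077), (nat_lit 17292202), (nat_lit 12386721), (nat_lit 6), (nat_lit 0), [], [⟨(nat_lit 1), (nat_lit 92), (nat_lit 61), (nat_lit 100), (nat_lit 436432401)⟩], [⟨(nat_lit 1), (nat_lit 81), (nat_lit 88), (nat_lit 100), (nat_lit 65254460)⟩], [],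
 ⟨⟨[(nat_lit 40), (nat_lit 60), (nat_lit 80)], [(nat_lit 0), (nat_lit 832), (nat_lit 1534)], [((nat_lit 0), (nat_lit 0), (nat_lit 0)), ((nat_lit 1000), (nat_lit 659), (nat_lit 528)), ((nat_lit 1000), (nat_lit 650), (nat_lit 549))], ((nat_lit 63), (nat_lit 100), (nat_lit 62))⟩, (nat_lit 0), (nat_lit 48), (nat_lit 48), (nat_lit 0), (nat_lit 0), [(nat_lit 1609509601), (nat_lit 88722793887), (nat_lit 2618214400)], [(nat_lit 0), (nat_lit 0), (nat_lit 0)], [(nat_lit 23132942695), (nat_lit 23757010333), (nat_lit 24160049813), (nat_lit 24742669094), (nat_lit 25119203547), (nat_lit 25712194979), (nat_lit 26020250860), (nat_lit 26574400203)], (nat_lit 0), (nat_lit 0), (nat_lit 0), (nat_lit 0), (nat_lit 0), (nat_lit 0), [], [(nat_lit 2), (nat_lit 44), (nat_lit 203), (nat_lit 0), (nat_lit 7)]⟩,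
 ⟨⟨[(nat_lit 60), (nat_lit 100), (nat_lit 120)], [(nat_lit 0), (nat_lit 609), (nat_lit 1609)], [((nat_lit 0), (nat_lit 0), (nat_lit 0)), ((nat_lit 1000), (nat_lit 905), (nat_lit 238)), ((nat_lit 1000), (nat_lit 882), (nat_lit 668))], ((nat_lit 87), (nat_lit 100), (nat_lit 60))⟩, (nat_lit 1257532), (nat_lit 566), (nat_lit 566), (nat_lit 0), (nat_lit 977131), [(nat_lit 1004292000), (nat_lit 1912500000), (nat_lit 2438208000)], [], [(nat_lit 8150791851), (nat_lit 8365727448), (nat_lit 8349602040), (nat_lit 8546907564), (nat_lit 8525966987), (nat_lit 8635162068), (nat_lit 8589999608), (nat_lit 8862943914)], (nat_lit 1271251), (nat_lit 1271251), (nat_lit 1271251), (nat_lit 1271251), (nat_lit 0), (nat_lit 2471876), [(nat_lit 780000), (nat_lit 1435001), (nat_lit 1271251)], [(nat_lit 10), (nat_lit 54), (nat_lit 373), (nat_lit 150), (nat_lit 12)]⟩,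
 Rw.none⟩) (.trX (nat_lit 4) (nat_lit 0) (nat_lit 2) (nat_lit 54) (nat_lit 96) (nat_lit 100) (nat_lit 270) (.leaf ⟨(nat_lit 800), (nat_lit 200), (nat_lit 0), (nat_lit 0), (nat_lit 0), (nat_lit 3469), (nat_lit 1314), (nat_lit 0), (nat_lit 0), (nat_lit 0), (nat_lit 200000), [((nat_lit 380), [((nat_lit 24), (nat_lit 0), (nat_lit 800))])], ⟨(nat_lit 7), false, true, false, (nat_lit 261), (nat_lit 2236), (nat_lit 2739), [(nat_lit 1611985), (nat_lit 1613770), (nat_lit 1634382), (nat_lit 1636524), (nat_lit 1671081), (nat_lit 1670819), (nat_lit 1693478), (nat_lit 1693574)]⟩, ⟨(nat_lit 6), false, false, true, (nat_lit 205), (nat_lit 2236), (nat_lit 2739), [(nat_lit 1469390), (nat_lit 1465917), (nat_lit 1514225), (nat_lit 1511466), (nat_lit 1513686), (nat_lit 1508679), (nat_lit 1558521), (nat_lit 1554227)]⟩, (nat_lit 5289690), (nat_lit 37736902), (nat_lit 17465907), (nat_lit 11797191), (nat_lit 6), (nat_lit 0), [⟨(nat_lit 0), (nat_lit 84), (nat_lit 49), (nat_lit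 100), (nat_lit 42870898)⟩], [⟨(nat_lit 1), (nat_lit 96), (nat_lit 54), (nat_lit 100), (nat_lit 422824585)⟩], [⟨(nat_lit 1), (nat_lit 81), (nat_lit 88), (nat_lit 100), (nat_lit 40546017)⟩], [],
 ⟨⟨[(nat_lit 40), (nat_lit 60), (nat_lit 80)], [(nat_lit 0), (nat_lit 1134), (nat_lit 1930)], [((nat_lit 0), (nat_lit 0), (nat_lit 0)), ((nat_lit 1000), (nat_lit 575), (nat_lit 619)), ((nat_lit 1000), (nat_lit 574), (nat_lit 622))], ((nat_lit 57), (nat_lit 100), (nat_lit 64))⟩, (nat_lit 0), (nat_lit 49), (nat_lit 49), (nat_lit 0), (nat_lit 0), [(nat_lit 1580720098), (nat_lit 1750160098), (nat_lit 2302080000)], [(nat_lit 0), (nat_lit 0), (nat_lit 0)], [(nat_lit 24046722225), (nat_lit 24631709539), (nat_lit 24974105852), (nat_lit 25536650638), (nat_lit 25133594290), (nat_lit 25777053266), (nat_lit 26042416067), (nat_lit 26642210765)], (nat_lit 0), (nat_lit 0), (nat_lit 0), (nat_lit 0), (nat_lit 0), (nat_lit 0), [], [(nat_lit 2), (nat_lit 44), (nat_lit 203),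 (nat_lit 0), (nat_lit 7)]⟩,
 ⟨⟨[(nat_lit 60), (nat_lit 100), (nat_lit 120)], [(nat_lit 0), (nat_lit 609), (nat_lit 1609)], [((nat_lit 0), (nat_lit 0), (nat_lit 0)), ((nat_lit 1000), (nat_lit 905), (nat_lit 238)), ((nat_lit 1000), (nat_lit 882), (nat_lit 668))], ((nat_lit 87), (nat_lit 100), (nat_lit 60))⟩, (nat_lit 559919), (nat_lit 621), (nat_lit 621), (nat_lit 0), (nat_lit 1082255), [(nat_lit 656400000), (nat_lit 1250000000), (nat_lit 1593600000)], [], [(nat_lit 5575244756), (nat_lit 5701020415), (nat_lit 5682486333), (nat_lit 5797577891), (nat_lit 5662397210), (nat_lit 5722261315), (nat_lit 5677905311), (nat_lit 5864072404)], (nat_lit 1271251), (nat_lit 1271251), (nat_lit 1271251), (nat_lit 1271251), (nat_lit 0), (nat_lit 2471876), [(nat_lit 780000), (nat_lit 1435001), (nat_lit 1271251)], [(nat_lit 10), (nat_lit 54), (nat_lit 373), (nat_lit 150), (nat_lit 12)]⟩,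
 Rw.none⟩))))))))
noncomputable def c17_43 : Tr Lf :=
 (.spl (nat_lit 1) (nat_lit 280) (.leaf ⟨(nat_lit 919), (nat_lit 44), (nat_lit 0), (nat_lit 37), (nat_lit 0), (nat_lit 3270), (nat_lit 840), (nat_lit 396), (nat_lit 0), (nat_lit 0), (nat_lit 229750), [((nat_lit 380), [((nat_lit 24), (nat_lit 0), (nat_lit 919))])], ⟨(nat_lit 6), false, false, false, (nat_lit 227), (nat_lit 2236), (nat_lit 3163), [(nat_lit 1483125), (nat_lit 1488302), (nat_lit 1527308), (nat_lit 1533723), (nat_lit 1605240), (nat_lit 1602541), (nat_lit 1649422), (nat_lit 1647962)]⟩, ⟨(nat_lit 6), false, false, true, (nat_lit 231), (nat_lit 2236), (nat_lit 3163), [(nat_lit 1516642), (nat_lit 1511466), (nat_lit 1538797), (nat_lit 1534240), (nat_lit 1623310), (nat_lit 1611243), (nat_lit 1645465), (nat_lit 1634017)]⟩, (nat_lit 5282006), (nat_lit 38455236), (nat_lit 14077816), (nat_lit 14466948), (nat_lit 6), (nat_lit 0), [], [⟨(nat_lit 1), (nat_lit 93), (nat_lit 53), (nat_lit 100),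 (nat_lit 54625473)⟩, ⟨(nat_lit 1), (nat_lit 86), (nat_lit 60), (nat_lit 100), (nat_lit 188144869)⟩], [], [],
 ⟨⟨[(nat_lit 40), (nat_lit 60), (nat_lit 80)], [(nat_lit 0), (nat_lit 832), (nat_lit 1534)], [((nat_lit 0), (nat_lit 0), (nat_lit 0)), ((nat_lit 1000), (nat_lit 659), (nat_lit 528)), ((nat_lit 1000), (nat_lit 650), (nat_lit 549))], ((nat_lit 63), (nat_lit 100), (nat_lit 62))⟩, (nat_lit 0), (nat_lit 58), (nat_lit 58), (nat_lit 0), (nat_lit 0), [(nat_lit 1548399609), (nat_lit 1522298807), (nat_lit 1947174400)], [(nat_lit 0), (nat_lit 0), (nat_lit 0)], [(nat_lit 22477178056), (nat_lit 23689988436), (nat_lit 24408262016), (nat_lit 25474052776), (nat_lit 25217846284), (nat_lit 26390347584), (nat_lit 26855292210), (nat_lit 27926205388)], (nat_lit 0), (nat_lit 0), (nat_lit 0), (nat_lit 0), (nat_lit 0), (nat_lit 0), [], [(nat_lit 2), (nat_lit 44), (nat_lit 203), (nat_lit 0), (nat_lit 7)]⟩,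
 ⟨⟨[(nat_lit 80), (nat_lit 120), (nat_lit 160)], [(nat_lit 0), (nat_lit 0), (nat_lit 2132)], [((nat_lit 0), (nat_lit 0), (nat_lit 0)), ((nat_lit 0), (nat_lit 0), (nat_lit 0)), ((nat_lit 858), (nat_lit 1000), (nat_lit 713))], ((nat_lit 100), (nat_lit 92), (nat_lit 61))⟩, (nat_lit 196015), (nat_lit 795), (nat_lit 795), (nat_lit 0), (nat_lit 1094699), [(nat_lit 379728000), (nat_lit 645408000), (nat_lit 961632000)], [], [(nat_lit 3659531880), (nat_lit 2777938440), (nat_lit 2630459424), (nat_lit 2687939098), (nat_lit 3651029532), (nat_lit 2904818892), (nat_lit 4682151936), (nat_lit 3954444816)], (nat_lit 1271251), (nat_lit 1271251), (nat_lit 1100000), (nat_lit 1785001), (nat_lit 0), (nat_lit 2825001), [(nat_lit 1100000), (nat_lit 1785001), (nat_lit 1271251)], [(nat_lit 18), (nat_lit 59), (nat_lit 483), (nat_lit 250), (nat_lit 12)]⟩,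
 ⟨⟨[(nat_lit 120), (nat_lit 160), (nat_lit 180)], [(nat_lit 0), (nat_lit 0), (nat_lit 1613)], [((nat_lit 0), (nat_lit 0), (nat_lit 0)), ((nat_lit 0), (nat_lit 0), (nat_lit 0)), ((nat_lit 620), (nat_lit 1000), (nat_lit 670))], ((nat_lit 100), (nat_lit 68), (nat_lit 61))⟩, (nat_lit 16103), (nat_lit 300), (nat_lit 1512), (nat_lit 2745400), (nat_lit 2515773), [(nat_lit 294816000), (nat_lit 439264000), (nat_lit 520146000)], [], [(nat_lit 2315969232), (nat_lit 2291620849), (nat_lit 2259085097), (nat_lit 2235387706), (nat_lit 1962593232), (nat_lit 2087669000), (nat_lit 1762828051), (nat_lit 1739710680)], (nat_lit 1100000), (nat_lit 1271251), (nat_lit 1271251), (nat_lit 1271251), (nat_lit 0), (nat_lit 2825001), [(nat_lit 1695001), (nat_lit 1271251), (nat_lit 1271251)], [(nat_lit 28), (nat_lit 65), (nat_lit 490), (nat_lit 225), (nat_lit 11)]⟩⟩) (.trX (nat_lit 5) (nat_lit 1) (nat_lit 2) (nat_lit 92) (nat_lit 49) (nat_lit 100) (nat_lit 380) (.spl (nat_lit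 1) (nat_lit 300) (.leaf ⟨(nat_lit 880), (nat_lit 77), (nat_lit 0), (nat_lit 43), (nat_lit 0), (nat_lit 3217), (nat_lit 1106), (nat_lit 461), (nat_lit 0), (nat_lit 0), (nat_lit 284500), [((nat_lit 380), [((nat_lit 24), (nat_lit 0), (nat_lit 450)), ((nat_lit 24), (nat_lit 1), (nat_lit 430))])], ⟨(nat_lit 7), false, false, false, (nat_lit 240), (nat_lit 2236), (nat_lit 3163), [(nat_lit 1527308), (nat_lit 1533723), (nat_lit 1549399), (nat_lit 1556434), (nat_lit 1649422), (nat_lit 1647962), (nat_lit 1671514), (nat_lit 1670673)]⟩, ⟨(nat_lit 6), false, false, true, (nat_lit 231), (nat_lit 2236), (nat_lit 3163), [(nat_lit 1516642), (nat_lit 1511466), (nat_lit 1538797), (nat_lit 1534240), (nat_lit 1623310), (nat_lit 1611243), (nat_lit 1645465), (nat_lit 1634017)]⟩, (nat_lit 5351894), (nat_lit 37579468), (nat_lit 15191952), (nat_lit 14228580), (nat_lit 6), (nat_lit 0), [], [⟨(nat_lit 1), (nat_lit 93), (nat_lit 53), (nat_lit 100), (nat_lit 91743167)⟩, ⟨(nat_lit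 1), (nat_lit 86), (nat_lit 60), (nat_lit 100), (nat_lit 180880615)⟩], [], [],
 ⟨⟨[(nat_lit 40), (nat_lit 60), (nat_lit 80)], [(nat_lit 0), (nat_lit 832), (nat_lit 1534)], [((nat_lit 0), (nat_lit 0), (nat_lit 0)), ((nat_lit 1000), (nat_lit 659), (nat_lit 528)), ((nat_lit 1000), (nat_lit 650), (nat_lit 549))], ((nat_lit 63), (nat_lit 100), (nat_lit 62))⟩, (nat_lit 0), (nat_lit 58), (nat_lit 58), (nat_lit 0), (nat_lit 0), [(nat_lit 1494320021), (nat_lit 1430824020), (nat_lit 1740472000)], [(nat_lit 0), (nat_lit 0), (nat_lit 0)], [(nat_lit 22395895085), (nat_lit 23599706383), (nat_lit 24326897001), (nat_lit 25385347897), (nat_lit 25123446701), (nat_lit 26333948820), (nat_lit 26811795216), (nat_lit 27875579589)], (nat_lit 0), (nat_lit 0), (nat_lit 0), (nat_lit 0), (nat_lit 0), (nat_lit 0), [], [(nat_lit 2), (nat_lit 44), (nat_lit 203), (nat_lit 0), (nat_lit 7)]⟩,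
 ⟨⟨[(nat_lit 60), (nat_lit 100), (nat_lit 140)], [(nat_lit 0), (nat_lit 0), (nat_lit 2047)], [((nat_lit 0), (nat_lit 0), (nat_lit 0)), ((nat_lit 0), (nat_lit 0), (nat_lit 0)), ((nat_lit 1000), (nat_lit 993), (nat_lit 781))], ((nat_lit 94), (nat_lit 100), (nat_lit 62))⟩, (nat_lit 215498), (nat_lit 636), (nat_lit 636), (nat_lit 0), (nat_lit 959271), [(nat_lit 393840000), (nat_lit 750000000), (nat_lit 1181040000)], [], [(nat_lit 4068509080), (nat_lit 3516580234), (nat_lit 3491069722), (nat_lit 3627036962), (nat_lit 3780169394), (nat_lit 3849882397), (nat_lit 5210624400), (nat_lit 4734441630)], (nat_lit 1271251), (nat_lit 1271251), (nat_lit 1100000), (nat_lit 1785001), (nat_lit 0), (nat_lit 2683751), [(nat_lit 780000), (nat_lit 1435001), (nat_lit 1271251)], [(nat_lit 11), (nat_lit 55), (nat_lit 401), (nat_lit 175), (nat_lit 11)]⟩,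
 ⟨⟨[(nat_lit 120), (nat_lit 160), (nat_lit 180)], [(nat_lit 0), (nat_lit 0), (nat_lit 1613)], [((nat_lit 0), (nat_lit 0), (nat_lit 0)), ((nat_lit 0), (nat_lit 0), (nat_lit 0)), ((nat_lit 620), (nat_lit 1000), (nat_lit 670))], ((nat_lit 100), (nat_lit 68), (nat_lit 61))⟩, (nat_lit 18714), (nat_lit 300), (nat_lit 1619), (nat_lit 3190602), (nat_lit 2738919), [(nat_lit 342624000), (nat_lit 510496000), (nat_lit 604494000)], [], [(nat_lit 2687802188), (nat_lit 2659398500), (nat_lit 2620349329), (nat_lit 2593103824), (nat_lit 2201198221), (nat_lit 2345484575), (nat_lit 2046891256), (nat_lit 2020430857)], (nat_lit 1100000), (nat_lit 1271251), (nat_lit 1271251), (nat_lit 1271251), (nat_lit 0), (nat_lit 2683751), [(nat_lit 1695001), (nat_lit 1271251), (nat_lit 1271251)], [(nat_lit 28), (nat_lit 65), (nat_lit 514), (nat_lit 225), (nat_lit 12)]⟩⟩) (.trZ (nat_lit 0) (nat_lit 1) (nat_lit 3) (nat_lit 87) (nat_lit 60) (nat_lit 100) (nat_lit 170) (.trZ (nat_lit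 1) (nat_lit 2) (nat_lit 5) (nat_lit 100) (nat_lit 88) (nat_lit 32) (nat_lit 10) (.trX (nat_lit 5) (nat_lit 1) (nat_lit 2) (nat_lit 87) (nat_lit 59) (nat_lit 100) (nat_lit 370) (.leaf ⟨(nat_lit 657), (nat_lit 263), (nat_lit 0), (nat_lit 80), (nat_lit 0), (nat_lit 3630), (nat_lit 2204), (nat_lit 848), (nat_lit 0), (nat_lit 0), (nat_lit 164250), [((nat_lit 380), [((nat_lit 24), (nat_lit 0), (nat_lit 657))])], ⟨(nat_lit 7), false, true, false, (nat_lit 252), (nat_lit 2236), (nat_lit 3163), [(nat_lit 1564664), (nat_lit 1570714), (nat_lit 1586755), (nat_lit 1593425), (nat_lit 1671514), (nat_lit 1670673), (nat_lit 1693606), (nat_lit 1693384)]⟩, ⟨(nat_lit 6), false, false, true, (nat_lit 231), (nat_lit 2236), (nat_lit 3163), [(nat_lit 1516642), (nat_lit 1511466), (nat_lit 1538797), (nat_lit 1534240), (nat_lit 1623310), (nat_lit 1611243), (nat_lit 1645465), (nat_lit 1634017)]⟩, (nat_lit 5405771), (nat_lit 36806333), (nat_lit 16181494), (nat_lit 14012173),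 (nat_lit 6), (nat_lit 0), [], [⟨(nat_lit 1), (nat_lit 93), (nat_lit 53), (nat_lit 100), (nat_lit 388661790)⟩], [⟨(nat_lit 1), (nat_lit 68), (nat_lit 84), (nat_lit 100), (nat_lit 35793959)⟩], [],
 ⟨⟨[(nat_lit 40), (nat_lit 60), (nat_lit 80)], [(nat_lit 0), (nat_lit 832), (nat_lit 1534)], [((nat_lit 0), (nat_lit 0), (nat_lit 0)), ((nat_lit 1000), (nat_lit 659), (nat_lit 528)), ((nat_lit 1000), (nat_lit 650), (nat_lit 549))], ((nat_lit 63), (nat_lit 100), (nat_lit 62))⟩, (nat_lit 0), (nat_lit 57), (nat_lit 57), (nat_lit 0), (nat_lit 0), [(nat_lit 1619558848), (nat_lit 2023976446), (nat_lit 2728563200)], [(nat_lit 0), (nat_lit 0), (nat_lit 0)], [(nat_lit 22854909609), (nat_lit 24109059607), (nat_lit 24545095694), (nat_lit 25660742134), (nat_lit 25701387661), (nat_lit 26960514180), (nat_lit 27150743490), (nat_lit 28270078738)], (nat_lit 0), (nat_lit 0), (nat_lit 0), (nat_lit 0), (nat_lit 0), (nat_lit 0), [], [(nat_lit 2), (nat_lit 44), (nat_lit 203),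 (nat_lit 0), (nat_lit 7)]⟩,
 ⟨⟨[(nat_lit 60), (nat_lit 100), (nat_lit 120)], [(nat_lit 0), (nat_lit 609), (nat_lit 1609)], [((nat_lit 0), (nat_lit 0), (nat_lit 0)), ((nat_lit 1000), (nat_lit 905), (nat_lit 238)), ((nat_lit 1000), (nat_lit 882), (nat_lit 668))], ((nat_lit 87), (nat_lit 100), (nat_lit 60))⟩, (nat_lit 2066013), (nat_lit 546), (nat_lit 546), (nat_lit 0), (nat_lit 928643), [(nat_lit 1125726000), (nat_lit 2143750000), (nat_lit 2733024000)], [], [(nat_lit 7631257827), (nat_lit 7498044905), (nat_lit 7670750893), (nat_lit 8365858943), (nat_lit 10110227259), (nat_lit 10148470363), (nat_lit 12930836477), (nat_lit 11978958631)], (nat_lit 1271251), (nat_lit 1271251), (nat_lit 1184688), (nat_lit 1790626), (nat_lit 54688), (nat_lit 2630938), [(nat_lit 780000), (nat_lit 1435001), (nat_lit 1271251)], [(nat_lit 10), (nat_lit 54), (nat_lit 401), (nat_lit 175), (nat_lit 13)]⟩,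
 ⟨⟨[(nat_lit 120), (nat_lit 160), (nat_lit 180)], [(nat_lit 0), (nat_lit 0), (nat_lit 1613)], [((nat_lit 0), (nat_lit 0), (nat_lit 0)), ((nat_lit 0), (nat_lit 0), (nat_lit 0)), ((nat_lit 620), (nat_lit 1000), (nat_lit 670))], ((nat_lit 100), (nat_lit 68), (nat_lit 61))⟩, (nat_lit 34817), (nat_lit 300), (nat_lit 1733), (nat_lit 5936001), (nat_lit 2997486), [(nat_lit 637440000), (nat_lit 949760000), (nat_lit 1124640000)], [], [(nat_lit 5067304564), (nat_lit 5015290706), (nat_lit 4921880103), (nat_lit 4869498747), (nat_lit 4084476760), (nat_lit 4349339188), (nat_lit 3926819335), (nat_lit 3875394279)], (nat_lit 1100000), (nat_lit 1271251), (nat_lit 1271251), (nat_lit 1271251), (nat_lit 54688), (nat_lit 2630938), [(nat_lit 1695001), (nat_lit 1271251), (nat_lit 1271251)], [(nat_lit 28), (nat_lit 65), (nat_lit 541), (nat_lit 225), (nat_lit 12)]⟩⟩)))))))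
noncomputable def c17_44 : Tr Lf :=
 (.spl (nat_lit 3) (nat_lit 160) (.trX (nat_lit 5) (nat_lit 4) (nat_lit 3) (nat_lit 100) (nat_lit 40) (nat_lit 100) (nat_lit 390) (.spl (nat_lit 1) (nat_lit 280) (.leaf ⟨(nat_lit 887), (nat_lit 38), (nat_lit 0), (nat_lit 75), (nat_lit 0), (nat_lit 3491), (nat_lit 1275), (nat_lit 1019), (nat_lit 0), (nat_lit 0), (nat_lit 329900), [((nat_lit 380), [((nat_lit 24), (nat_lit 0), (nat_lit 166)), ((nat_lit 24), (nat_lit 1), (nat_lit 721))])], ⟨(nat_lit 6), false, false, false, (nat_lit 188), (nat_lit 2236), (nat_lit 3163), [(nat_lit 1406804), (nat_lit 1416903), (nat_lit 1450987), (nat_lit 1462324), (nat_lit 1483125), (nat_lit 1488302), (nat_lit 1527308), (nat_lit 1533723)]⟩, ⟨(nat_lit 6), false, false, true, (nat_lit 222), (nat_lit 2236), (nat_lit 3163), [(nat_lit 1472332), (nat_lit 1465917), (nat_lit 1538797), (nat_lit 1534240), (nat_lit 1579000), (nat_lit 1565693), (nat_lit 1645465), (nat_lit 1634017)]⟩, (nat_lit 4972301),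 (nat_lit 41633186), (nat_lit 11049473), (nat_lit 14317341), (nat_lit 6), (nat_lit 0), [⟨(nat_lit 0), (nat_lit 100), (nat_lit 61), (nat_lit 92), (nat_lit 198409781)⟩], [⟨(nat_lit 1), (nat_lit 86), (nat_lit 60), (nat_lit 100), (nat_lit 217430656)⟩], [], [],
 ⟨⟨[(nat_lit 40), (nat_lit 60), (nat_lit 80)], [(nat_lit 0), (nat_lit 832), (nat_lit 1534)], [((nat_lit 0), (nat_lit 0), (nat_lit 0)), ((nat_lit 1000), (nat_lit 659), (nat_lit 528)), ((nat_lit 1000), (nat_lit 650), (nat_lit 549))], ((nat_lit 63), (nat_lit 100), (nat_lit 62))⟩, (nat_lit 0), (nat_lit 165), (nat_lit 165), (nat_lit 0), (nat_lit 293099), [(nat_lit 1448652445), (nat_lit 1307538330), (nat_lit 1500996000)], [(nat_lit 0), (nat_lit 0), (nat_lit 0)], [(nat_lit 22509785502), (nat_lit 23657231169), (nat_lit 22929402487), (nat_lit 24022651317), (nat_lit 25249687857), (nat_lit 26584696785), (nat_lit 25430090124), (nat_lit 26625519789)], (nat_lit 1271251), (nat_lit 1271251), (nat_lit 704688),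 (nat_lit 1100000), (nat_lit 1271251), (nat_lit 1271251), [(nat_lit 490000), (nat_lit 780000), (nat_lit 1100000)], [(nat_lit 2), (nat_lit 44), (nat_lit 249), (nat_lit 40), (nat_lit 10)]⟩,
 ⟨⟨[(nat_lit 80), (nat_lit 120), (nat_lit 160)], [(nat_lit 0), (nat_lit 0), (nat_lit 2132)], [((nat_lit 0), (nat_lit 0), (nat_lit 0)), ((nat_lit 0), (nat_lit 0), (nat_lit 0)), ((nat_lit 858), (nat_lit 1000), (nat_lit 713))], ((nat_lit 100), (nat_lit 92), (nat_lit 61))⟩, (nat_lit 106303), (nat_lit 514), (nat_lit 514), (nat_lit 0), (nat_lit 458381), [(nat_lit 529744000), (nat_lit 900384000), (nat_lit 1341536000)], [], [(nat_lit 4629500245), (nat_lit 4024182505), (nat_lit 3675014780), (nat_lit 3877651446), (nat_lit 6350327718), (nat_lit 5252330151), (nat_lit 7160017239), (nat_lit 6078800664)], (nat_lit 1271251), (nat_lit 1271251), (nat_lit 704688), (nat_lit 1100000), (nat_lit 0), (nat_lit 2754376), [(nat_lit 1100000), (nat_lit 1785001), (nat_lit 1271251)], [(nat_lit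 18), (nat_lit 59), (nat_lit 456), (nat_lit 225), (nat_lit 12)]⟩,
 ⟨⟨[(nat_lit 140), (nat_lit 180), (nat_lit 200)], [(nat_lit 0), (nat_lit 0), (nat_lit 2835)], [((nat_lit 0), (nat_lit 0), (nat_lit 0)), ((nat_lit 0), (nat_lit 0), (nat_lit 0)), ((nat_lit 363), (nat_lit 1000), (nat_lit 798))], ((nat_lit 0), (nat_lit 0), (nat_lit 0))⟩, (nat_lit 20635), (nat_lit 300), (nat_lit 972), (nat_lit 5857500), (nat_lit 1149832), [(nat_lit 738150000), (nat_lit 1054350000), (nat_lit 1230000000)], [], [(nat_lit 5030145572), (nat_lit 4802458308), (nat_lit 4981140578), (nat_lit 4742745360), (nat_lit 4452233587), (nat_lit 5289806119), (nat_lit 3794190666), (nat_lit 3786511546)], (nat_lit 780000), (nat_lit 1271251), (nat_lit 1271251), (nat_lit 1271251), (nat_lit 0), (nat_lit 2754376), [(nat_lit 1977501), (nat_lit 1271251), (nat_lit 1271251)], [(nat_lit 32), (nat_lit 67), (nat_lit 456), (nat_lit 225), (nat_lit 10)]⟩⟩) (.trZ (nat_lit 0) (nat_lit 1) (nat_lit 3) (nat_lit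 94) (nat_lit 62) (nat_lit 100) (nat_lit 150) (.trX (nat_lit 5) (nat_lit 1) (nat_lit 2) (nat_lit 92) (nat_lit 49) (nat_lit 100) (nat_lit 380) (.leaf ⟨(nat_lit 0), (nat_lit 744), (nat_lit 0), (nat_lit 256), (nat_lit 0), (nat_lit 4466), (nat_lit 6384), (nat_lit 2863), (nat_lit 0), (nat_lit 0), (nat_lit 0), [], Pd.none, Pd.none, (nat_lit 0), (nat_lit 1), (nat_lit 0), (nat_lit 0), (nat_lit 6), (nat_lit 0), [⟨(nat_lit 0), (nat_lit 94), (nat_lit 62), (nat_lit 100), (nat_lit 935161865)⟩], [⟨(nat_lit 1), (nat_lit 99), (nat_lit 54), (nat_lit 100), (nat_lit 378555971)⟩], [], [],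
 ⟨⟨[(nat_lit 40), (nat_lit 60), (nat_lit 80)], [(nat_lit 0), (nat_lit 832), (nat_lit 1534)], [((nat_lit 0), (nat_lit 0), (nat_lit 0)), ((nat_lit 1000), (nat_lit 659), (nat_lit 528)), ((nat_lit 1000), (nat_lit 650), (nat_lit 549))], ((nat_lit 63), (nat_lit 100), (nat_lit 62))⟩, (nat_lit 1662718), (nat_lit 167), (nat_lit 167), (nat_lit 0), (nat_lit 344764), [(nat_lit 2032000002), (nat_lit 3352623832), (nat_lit 4688000000)], [], [(nat_lit 22753427704), (nat_lit 24452523450), (nat_lit 22770452512), (nat_lit 24445989356), (nat_lit 26272484206), (nat_lit 27709025060), (nat_lit 26245302461), (nat_lit 27663044224)], (nat_lit 1271251), (nat_lit 1271251), (nat_lit 1017188), (nat_lit 1100000), (nat_lit 1271251), (nat_lit 1271251), [(nat_lit 490000), (nat_lit 780000), (nat_lit 1100000)], [(nat_lit 2), (nat_lit 44), (nat_lit 249), (nat_lit 40), (nat_lit 9)]⟩,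
 ⟨⟨[(nat_lit 60), (nat_lit 100), (nat_lit 140)], [(nat_lit 0), (nat_lit 0), (nat_lit 2047)], [((nat_lit 0), (nat_lit 0), (nat_lit 0)), ((nat_lit 0), (nat_lit 0), (nat_lit 0)), ((nat_lit 1000), (nat_lit 993), (nat_lit 781))], ((nat_lit 94), (nat_lit 100), (nat_lit 62))⟩, (nat_lit 1096300), (nat_lit 378), (nat_lit 378), (nat_lit 0), (nat_lit 434507), [(nat_lit 3282000000), (nat_lit 6250000000), (nat_lit 9842000000)], [], [(nat_lit 34261695028), (nat_lit 35760961100), (nat_lit 33966741100), (nat_lit 35715293420), (nat_lit 36856329595), (nat_lit 37683381094), (nat_lit 36731003400), (nat_lit 37543388660)], (nat_lit 1271251), (nat_lit 1271251), (nat_lit 1017188), (nat_lit 1100000), (nat_lit 0), (nat_lit 2683751), [(nat_lit 780000), (nat_lit 1435001), (nat_lit 1271251)], [(nat_lit 11), (nat_lit 55), (nat_lit 373), (nat_lit 150), (nat_lit 11)]⟩,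
 ⟨⟨[(nat_lit 140), (nat_lit 180), (nat_lit 200)], [(nat_lit 0), (nat_lit 0), (nat_lit 2835)], [((nat_lit 0), (nat_lit 0), (nat_lit 0)), ((nat_lit 0), (nat_lit 0), (nat_lit 0)), ((nat_lit 363), (nat_lit 1000), (nat_lit 798))], ((nat_lit 0), (nat_lit 0), (nat_lit 0))⟩, (nat_lit 70434), (nat_lit 300), (nat_lit 1068), (nat_lit 19993600), (nat_lit 1348934), [(nat_lit 2519552000), (nat_lit 3598848000), (nat_lit 4198400000)], [], [(nat_lit 18589317000), (nat_lit 17923949190), (nat_lit 18170339599), (nat_lit 17503424308), (nat_lit 14646814646), (nat_lit 17077522159), (nat_lit 14222513151), (nat_lit 13553214600)], (nat_lit 780000), (nat_lit 1271251), (nat_lit 1271251), (nat_lit 1271251), (nat_lit 0), (nat_lit 2683751), [(nat_lit 1977501), (nat_lit 1271251), (nat_lit 1271251)], [(nat_lit 32), (nat_lit 67), (nat_lit 456), (nat_lit 225), (nat_lit 10)]⟩⟩))))) (.spl (nat_lit 1) (nat_lit 280) (.leaf ⟨(nat_lit 832), (nat_lit 91), (nat_lit 0), (nat_lit 77), (nat_lit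 0), (nat_lit 3539), (nat_lit 1704), (nat_lit 1047), (nat_lit 0), (nat_lit 0), (nat_lit 334400), [((nat_lit 380), [((nat_lit 24), (nat_lit 1), (nat_lit 824)), ((nat_lit 41), (nat_lit 2), (nat_lit 8))])], ⟨(nat_lit 6), false, false, false, (nat_lit 227), (nat_lit 2236), (nat_lit 3163), [(nat_lit 1483125), (nat_lit 1488302), (nat_lit 1527308), (nat_lit 1533723), (nat_lit 1605240), (nat_lit 1602541), (nat_lit 1649422), (nat_lit 1647962)]⟩, ⟨(nat_lit 6), false, false, true, (nat_lit 222), (nat_lit 2236), (nat_lit 3163), [(nat_lit 1472332), (nat_lit 1465917), (nat_lit 1538797), (nat_lit 1534240), (nat_lit 1579000), (nat_lit 1565693), (nat_lit 1645465), (nat_lit 1634017)]⟩, (nat_lit 5231395), (nat_lit 39049597), (nat_lit 14230687), (nat_lit 13719716), (nat_lit 6), (nat_lit 0), [], [⟨(nat_lit 1), (nat_lit 86), (nat_lit 60), (nat_lit 100), (nat_lit 236474064)⟩], [], [],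
 ⟨⟨[(nat_lit 40), (nat_lit 60), (nat_lit 80)], [(nat_lit 0), (nat_lit 832), (nat_lit 1534)], [((nat_lit 0), (nat_lit 0), (nat_lit 0)), ((nat_lit 1000), (nat_lit 659), (nat_lit 528)), ((nat_lit 1000), (nat_lit 650), (nat_lit 549))], ((nat_lit 63), (nat_lit 100), (nat_lit 62))⟩, (nat_lit 0), (nat_lit 140), (nat_lit 140), (nat_lit 0), (nat_lit 293099), [(nat_lit 1446243209), (nat_lit 1366036900), (nat_lit 1573587200)], [(nat_lit 0), (nat_lit 0), (nat_lit 0)], [(nat_lit 22954308557), (nat_lit 24026114533), (nat_lit 24642969886), (nat_lit 25630304020), (nat_lit 25412592961), (nat_lit 26676597915), (nat_lit 27076059972), (nat_lit 28183155197)], (nat_lit 1271251), (nat_lit 1271251), (nat_lit 1100000), (nat_lit 1785001), (nat_lit 1271251), (nat_lit 1271251), [(nat_lit 490000), (nat_lit 780000), (nat_lit 1100000)], [(nat_lit 2), (nat_lit 44), (nat_lit 203), (nat_lit 0), (nat_lit 7)]⟩,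
 ⟨⟨[(nat_lit 80), (nat_lit 120), (nat_lit 160)], [(nat_lit 0), (nat_lit 0), (nat_lit 2132)], [((nat_lit 0), (nat_lit 0), (nat_lit 0)), ((nat_lit 0), (nat_lit 0), (nat_lit 0)), ((nat_lit 858), (nat_lit 1000), (nat_lit 713))], ((nat_lit 100), (nat_lit 92), (nat_lit 61))⟩, (nat_lit 40844), (nat_lit 491), (nat_lit 491), (nat_lit 0), (nat_lit 458381), [(nat_lit 787584000), (nat_lit 1338624000), (nat_lit 1994496000)], [], [(nat_lit 7531893504), (nat_lit 6349425824), (nat_lit 6214940144), (nat_lit 6429693152), (nat_lit 7565084928), (nat_lit 6516465008), (nat_lit 9666889248), (nat_lit 8190683376)], (nat_lit 1271251), (nat_lit 1271251), (nat_lit 1100000), (nat_lit 1785001), (nat_lit 0), (nat_lit 2825001), [(nat_lit 1100000), (nat_lit 1785001), (nat_lit 1271251)], [(nat_lit 18), (nat_lit 59), (nat_lit 483), (nat_lit 250), (nat_lit 12)]⟩,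
 ⟨⟨[(nat_lit 140), (nat_lit 180), (nat_lit 200)], [(nat_lit 0), (nat_lit 0), (nat_lit 2835)], [((nat_lit 0), (nat_lit 0), (nat_lit 0)), ((nat_lit 0), (nat_lit 0), (nat_lit 0)), ((nat_lit 363), (nat_lit 1000), (nat_lit 798))], ((nat_lit 0), (nat_lit 0), (nat_lit 0))⟩, (nat_lit 21185), (nat_lit 300), (nat_lit 972), (nat_lit 6013703), (nat_lit 1149832), [(nat_lit 757834000), (nat_lit 1082466000), (nat_lit 1262800000)], [], [(nat_lit 5163283484), (nat_lit 4929284718), (nat_lit 5112855572), (nat_lit 4868449978), (nat_lit 4659284784), (nat_lit 5523966683), (nat_lit 3910114972), (nat_lit 3984097061)], (nat_lit 780000), (nat_lit 1271251), (nat_lit 1271251), (nat_lit 1271251), (nat_lit 0), (nat_lit 2825001), [(nat_lit 1977501), (nat_lit 1271251), (nat_lit 1271251)], [(nat_lit 32), (nat_lit 67), (nat_lit 456), (nat_lit 225), (nat_lit 10)]⟩⟩) (.trX (nat_lit 5) (nat_lit 1) (nat_lit 2) (nat_lit 92) (nat_lit 49) (nat_lit 100) (nat_lit 380) (.leaf ⟨(nat_lit 35),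 (nat_lit 703), (nat_lit 0), (nat_lit 262), (nat_lit 0), (nat_lit 4209), (nat_lit 7072), (nat_lit 2584), (nat_lit 0), (nat_lit 0), (nat_lit 140000), [((nat_lit 380), [((nat_lit 41), (nat_lit 5), (nat_lit 35))])], ⟨(nat_lit 7), false, false, false, (nat_lit 245), (nat_lit 2236), (nat_lit 3163), [(nat_lit 1527308), (nat_lit 1533723), (nat_lit 1571490), (nat_lit 1579145), (nat_lit 1649422), (nat_lit 1647962), (nat_lit 1693606), (nat_lit 1693384)]⟩, ⟨(nat_lit 6), false, false, true, (nat_lit 222), (nat_lit 2236), (nat_lit 3163), [(nat_lit 1472332), (nat_lit 1465917), (nat_lit 1538797), (nat_lit 1534240), (nat_lit 1579000), (nat_lit 1565693), (nat_lit 1645465), (nat_lit 1634017)]⟩, (nat_lit 5323588), (nat_lit 37845984), (nat_lit 15735191), (nat_lit 13418825), (nat_lit 6), (nat_lit 0), [], [⟨(nat_lit 1), (nat_lit 99), (nat_lit 54), (nat_lit 100), (nat_lit 352988685)⟩], [], [],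
 ⟨⟨[(nat_lit 40), (nat_lit 60), (nat_lit 80)], [(nat_lit 0), (nat_lit 832), (nat_lit 1534)], [((nat_lit 0), (nat_lit 0), (nat_lit 0)), ((nat_lit 1000), (nat_lit 659), (nat_lit 528)), ((nat_lit 1000), (nat_lit 650), (nat_lit 549))], ((nat_lit 63), (nat_lit 100), (nat_lit 62))⟩, (nat_lit 1159716), (nat_lit 164), (nat_lit 164), (nat_lit 0), (nat_lit 344764), [(nat_lit 1896298010), (nat_lit 2877456007), (nat_lit 3926274000)], [(nat_lit 0), (nat_lit 0), (nat_lit 0)], [(nat_lit 23076062649), (nat_lit 24239318694), (nat_lit 24770203984), (nat_lit 26105194118), (nat_lit 26014443409), (nat_lit 27389563424), (nat_lit 27625927632), (nat_lit 28823141709)], (nat_lit 1271251), (nat_lit 1271251), (nat_lit 1100000), (nat_lit 1785001), (nat_lit 1271251), (nat_lit 1271251), [(nat_lit 490000), (nat_lit 780000), (nat_lit 1100000)], [(nat_lit 2), (nat_lit 44), (nat_lit 203), (nat_lit 0), (nat_lit 7)]⟩,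
 ⟨⟨[(nat_lit 60), (nat_lit 100), (nat_lit 140)], [(nat_lit 0), (nat_lit 0), (nat_lit 2047)], [((nat_lit 0), (nat_lit 0), (nat_lit 0)), ((nat_lit 0), (nat_lit 0), (nat_lit 0)), ((nat_lit 1000), (nat_lit 993), (nat_lit 781))], ((nat_lit 94), (nat_lit 100), (nat_lit 62))⟩, (nat_lit 1385420), (nat_lit 374), (nat_lit 374), (nat_lit 0), (nat_lit 434507), [(nat_lit 3167130000), (nat_lit 6031250000), (nat_lit 9497530000)], [], [(nat_lit 31853233960), (nat_lit 32105330540), (nat_lit 31693624418), (nat_lit 33285060176), (nat_lit 32690662228), (nat_lit 33087868975), (nat_lit 42378980200), (nat_lit 36289351720)], (nat_lit 1271251), (nat_lit 1271251), (nat_lit 1100000), (nat_lit 1785001), (nat_lit 0), (nat_lit 2683751), [(nat_lit 780000), (nat_lit 1435001), (nat_lit 1271251)], [(nat_lit 11), (nat_lit 55), (nat_lit 401), (nat_lit 175), (nat_lit 11)]⟩,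
 ⟨⟨[(nat_lit 140), (nat_lit 180), (nat_lit 200)], [(nat_lit 0), (nat_lit 0), (nat_lit 2835)], [((nat_lit 0), (nat_lit 0), (nat_lit 0)), ((nat_lit 0), (nat_lit 0), (nat_lit 0)), ((nat_lit 363), (nat_lit 1000), (nat_lit 798))], ((nat_lit 0), (nat_lit 0), (nat_lit 0))⟩, (nat_lit 72085), (nat_lit 300), (nat_lit 1068), (nat_lit 20462200), (nat_lit 1348934), [(nat_lit 2578604000), (nat_lit 3683196000), (nat_lit 4296800000)], [], [(nat_lit 20771217838), (nat_lit 20194344054), (nat_lit 20402067874), (nat_lit 19817734325), (nat_lit 17319019216), (nat_lit 17099600752), (nat_lit 16899737622), (nat_lit 16323284712)], (nat_lit 780000), (nat_lit 1271251), (nat_lit 1271251), (nat_lit 1271251), (nat_lit 0), (nat_lit 2683751), [(nat_lit 1977501), (nat_lit 1271251), (nat_lit 1271251)], [(nat_lit 32), (nat_lit 67), (nat_lit 456), (nat_lit 225), (nat_lit 10)]⟩⟩))))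
noncomputable def c17_45 : Tr Lf :=
 (.trX (nat_lit 5) (nat_lit 4) (nat_lit 3) (nat_lit 100) (nat_lit 40) (nat_lit 100) (nat_lit 390) (.spl (nat_lit 2) (nat_lit 200) (.trX (nat_lit 4) (nat_lit 0) (nat_lit 2) (nat_lit 60) (nat_lit 80) (nat_lit 100) (nat_lit 320) (.spl (nat_lit 1) (nat_lit 260) (.leaf ⟨(nat_lit 931), (nat_lit 15), (nat_lit 0), (nat_lit 54), (nat_lit 0), (nat_lit 3284), (nat_lit 809), (nat_lit 586), (nat_lit 0), (nat_lit 0), (nat_lit 372400), [((nat_lit 380), [((nat_lit 24), (nat_lit 1), (nat_lit 931))])], ⟨(nat_lit 6), false, false, false, (nat_lit 184), (nat_lit 2236), (nat_lit 3163), [(nat_lit 1406804), (nat_lit 1416903), (nat_lit 1428895), (nat_lit 1439613), (nat_lit 1483125), (nat_lit 1488302), (nat_lit 1505217), (nat_lit 1511013)]⟩, ⟨(nat_lit 6), false, true, true, (nat_lit 243), (nat_lit 2236), (nat_lit 3163), [(nat_lit 1538797), (nat_lit 1534240), (nat_lit 1560952), (nat_lit 1557014), (nat_lit 1660704), (nat_lit 1648271), (nat_lit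 1682859), (nat_lit 1671045)]⟩, (nat_lit 5056607), (nat_lit 40342603), (nat_lit 10427523), (nat_lit 16229874), (nat_lit 6), (nat_lit 0), [⟨(nat_lit 0), (nat_lit 100), (nat_lit 61), (nat_lit 92), (nat_lit 130760138)⟩], [⟨(nat_lit 1), (nat_lit 80), (nat_lit 60), (nat_lit 100), (nat_lit 209449698)⟩], [⟨(nat_lit 0), (nat_lit 100), (nat_lit 97), (nat_lit 20), (nat_lit 1189863)⟩, ⟨(nat_lit 0), (nat_lit 100), (nat_lit 95), (nat_lit 30), (nat_lit 5666553)⟩], [],
 ⟨⟨[(nat_lit 40), (nat_lit 60), (nat_lit 80)], [(nat_lit 0), (nat_lit 832), (nat_lit 1534)], [((nat_lit 0), (nat_lit 0), (nat_lit 0)), ((nat_lit 1000), (nat_lit 659), (nat_lit 528)), ((nat_lit 1000), (nat_lit 650), (nat_lit 549))], ((nat_lit 63), (nat_lit 100), (nat_lit 62))⟩, (nat_lit 0), (nat_lit 138), (nat_lit 138), (nat_lit 0), (nat_lit 221356), [(nat_lit 1405118007), (nat_lit 1174916611), (nat_lit 1212018400)], [(nat_lit 0), (nat_lit 0), (nat_lit 0)], [(nat_lit 22471943084), (nat_lit 23626070342),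 (nat_lit 22944317894), (nat_lit 24028955162), (nat_lit 25480245379), (nat_lit 26745771118), (nat_lit 25778773886), (nat_lit 26820928260)], (nat_lit 1271251), (nat_lit 1271251), (nat_lit 704688), (nat_lit 1100000), (nat_lit 1271251), (nat_lit 1271251), [(nat_lit 490000), (nat_lit 780000), (nat_lit 1100000)], [(nat_lit 2), (nat_lit 44), (nat_lit 249), (nat_lit 40), (nat_lit 10)]⟩,
 ⟨⟨[(nat_lit 80), (nat_lit 120), (nat_lit 160)], [(nat_lit 0), (nat_lit 0), (nat_lit 2132)], [((nat_lit 0), (nat_lit 0), (nat_lit 0)), ((nat_lit 0), (nat_lit 0), (nat_lit 0)), ((nat_lit 858), (nat_lit 1000), (nat_lit 713))], ((nat_lit 100), (nat_lit 92), (nat_lit 61))⟩, (nat_lit 23554), (nat_lit 797), (nat_lit 797), (nat_lit 0), (nat_lit 1034468), [(nat_lit 323472000), (nat_lit 549792000), (nat_lit 819168000)], [], [(nat_lit 2849304791), (nat_lit 2430304165), (nat_lit 2273954392), (nat_lit 2342539925), (nat_lit 3893594594), (nat_lit 3545249484), (nat_lit 4403081784), (nat_lit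 4060060525)], (nat_lit 1271251), (nat_lit 1271251), (nat_lit 704688), (nat_lit 1100000), (nat_lit 0), (nat_lit 2754376), [(nat_lit 1100000), (nat_lit 1785001), (nat_lit 1271251)], [(nat_lit 18), (nat_lit 59), (nat_lit 456), (nat_lit 225), (nat_lit 12)]⟩,
 ⟨⟨[(nat_lit 120), (nat_lit 160), (nat_lit 180)], [(nat_lit 0), (nat_lit 533), (nat_lit 2066)], [((nat_lit 0), (nat_lit 0), (nat_lit 0)), ((nat_lit 960), (nat_lit 1000), (nat_lit 200)), ((nat_lit 615), (nat_lit 1000), (nat_lit 729))], ((nat_lit 100), (nat_lit 74), (nat_lit 60))⟩, (nat_lit 126439), (nat_lit 300), (nat_lit 1174), (nat_lit 3585601), (nat_lit 1803912), [(nat_lit 430272000), (nat_lit 641088000), (nat_lit 759132000)], [], [(nat_lit 2931013096), (nat_lit 2904122400), (nat_lit 2901130378), (nat_lit 2878307392), (nat_lit 3000955884), (nat_lit 2746317934), (nat_lit 2305282210), (nat_lit 2280144950)], (nat_lit 1271251), (nat_lit 1271251), (nat_lit 1271251), (nat_lit 1271251), (nat_lit 0),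 (nat_lit 2754376), [(nat_lit 1695001), (nat_lit 1271251), (nat_lit 1271251)], [(nat_lit 28), (nat_lit 65), (nat_lit 483), (nat_lit 250), (nat_lit 11)]⟩⟩) (.trZ (nat_lit 0) (nat_lit 1) (nat_lit 3) (nat_lit 100) (nat_lit 63) (nat_lit 99) (nat_lit 130) (.leaf ⟨(nat_lit 879), (nat_lit 38), (nat_lit 0), (nat_lit 83), (nat_lit 0), (nat_lit 3202), (nat_lit 1345), (nat_lit 837), (nat_lit 0), (nat_lit 0), (nat_lit 456000), [((nat_lit 380), [((nat_lit 24), (nat_lit 1), (nat_lit 357)), ((nat_lit 41), (nat_lit 2), (nat_lit 522))])], ⟨(nat_lit 6), false, false, false, (nat_lit 199), (nat_lit 2236), (nat_lit 3163), [(nat_lit 1459424), (nat_lit 1468173), (nat_lit 1481515), (nat_lit 1490884), (nat_lit 1505217), (nat_lit 1511013), (nat_lit 1527308), (nat_lit 1533723)]⟩, ⟨(nat_lit 6), false, true, true, (nat_lit 243), (nat_lit 2236), (nat_lit 3163), [(nat_lit 1538797), (nat_lit 1534240), (nat_lit 1560952), (nat_lit 1557014), (nat_lit 1660704), (nat_lit 1648271),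 (nat_lit 1682859), (nat_lit 1671045)]⟩, (nat_lit 5167311), (nat_lit 39418841), (nat_lit 11607388), (nat_lit 15973771), (nat_lit 6), (nat_lit 0), [⟨(nat_lit 0), (nat_lit 100), (nat_lit 63), (nat_lit 99), (nat_lit 262822224)⟩], [⟨(nat_lit 1), (nat_lit 88), (nat_lit 53), (nat_lit 100), (nat_lit 56982764)⟩, ⟨(nat_lit 1), (nat_lit 80), (nat_lit 60), (nat_lit 100), (nat_lit 99696291)⟩], [], [],
 ⟨⟨[(nat_lit 40), (nat_lit 60), (nat_lit 80)], [(nat_lit 0), (nat_lit 832), (nat_lit 1534)], [((nat_lit 0), (nat_lit 0), (nat_lit 0)), ((nat_lit 1000), (nat_lit 659), (nat_lit 528)), ((nat_lit 1000), (nat_lit 650), (nat_lit 549))], ((nat_lit 63), (nat_lit 100), (nat_lit 62))⟩, (nat_lit 0), (nat_lit 136), (nat_lit 136), (nat_lit 0), (nat_lit 238182), [(nat_lit 1384467003), (nat_lit 1074413323), (nat_lit 880407200)], [(nat_lit 0), (nat_lit 0), (nat_lit 0)], [(nat_lit 22443044588), (nat_lit 23556868862), (nat_lit 22734669146), (nat_lit 23807504400), (nat_lit 25449174855),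 (nat_lit 26671659443), (nat_lit 25551266812), (nat_lit 26730624530)], (nat_lit 1271251), (nat_lit 1271251), (nat_lit 857188), (nat_lit 1100000), (nat_lit 1271251), (nat_lit 1271251), [(nat_lit 490000), (nat_lit 780000), (nat_lit 1100000)], [(nat_lit 2), (nat_lit 44), (nat_lit 249), (nat_lit 40), (nat_lit 9)]⟩,
 ⟨⟨[(nat_lit 80), (nat_lit 120), (nat_lit 140)], [(nat_lit 0), (nat_lit 528), (nat_lit 1572)], [((nat_lit 0), (nat_lit 0), (nat_lit 0)), ((nat_lit 1000), (nat_lit 959), (nat_lit 206)), ((nat_lit 966), (nat_lit 1000), (nat_lit 679))], ((nat_lit 100), (nat_lit 99), (nat_lit 63))⟩, (nat_lit 708738), (nat_lit 660), (nat_lit 660), (nat_lit 0), (nat_lit 959202), [(nat_lit 567248000), (nat_lit 964128000), (nat_lit 1190882000)], [], [(nat_lit 3169494146), (nat_lit 2522633378), (nat_lit 2460353349), (nat_lit 2470264228), (nat_lit 6149285831), (nat_lit 5573686398), (nat_lit 6701770213), (nat_lit 6131481471)], (nat_lit 1271251), (nat_lit 1271251), (nat_lit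 857188), (nat_lit 1100000), (nat_lit 0), (nat_lit 2754376), [(nat_lit 1100000), (nat_lit 1785001), (nat_lit 1271251)], [(nat_lit 17), (nat_lit 58), (nat_lit 456), (nat_lit 225), (nat_lit 13)]⟩,
 ⟨⟨[(nat_lit 120), (nat_lit 160), (nat_lit 180)], [(nat_lit 0), (nat_lit 533), (nat_lit 2066)], [((nat_lit 0), (nat_lit 0), (nat_lit 0)), ((nat_lit 960), (nat_lit 1000), (nat_lit 200)), ((nat_lit 615), (nat_lit 1000), (nat_lit 729))], ((nat_lit 100), (nat_lit 74), (nat_lit 60))⟩, (nat_lit 194342), (nat_lit 300), (nat_lit 1234), (nat_lit 5511200), (nat_lit 1944220), [(nat_lit 661344000), (nat_lit 985376000), (nat_lit 1166814000)], [], [(nat_lit 4762036540), (nat_lit 4718337976), (nat_lit 4671503298), (nat_lit 4625324468), (nat_lit 4572605326), (nat_lit 4208898903), (nat_lit 3703035364), (nat_lit 3660345960)], (nat_lit 1271251), (nat_lit 1271251), (nat_lit 1271251), (nat_lit 1271251), (nat_lit 0), (nat_lit 2754376), [(nat_lit 1695001), (nat_lit 1271251), (nat_lit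 1271251)], [(nat_lit 28), (nat_lit 65), (nat_lit 483), (nat_lit 250), (nat_lit 11)]⟩⟩)))) (.spl (nat_lit 2) (nat_lit 210) (.trX (nat_lit 4) (nat_lit 0) (nat_lit 2) (nat_lit 60) (nat_lit 77) (nat_lit 100) (nat_lit 330) (.leaf ⟨(nat_lit 911), (nat_lit 9), (nat_lit 0), (nat_lit 80), (nat_lit 0), (nat_lit 3110), (nat_lit 1093), (nat_lit 902), (nat_lit 0), (nat_lit 0), (nat_lit 445000), [((nat_lit 380), [((nat_lit 24), (nat_lit 1), (nat_lit 508)), ((nat_lit 41), (nat_lit 2), (nat_lit 403))])], ⟨(nat_lit 6), false, false, false, (nat_lit 188), (nat_lit 2236), (nat_lit 3163), [(nat_lit 1406804), (nat_lit 1416903), (nat_lit 1450987), (nat_lit 1462324), (nat_lit 1483125), (nat_lit 1488302), (nat_lit 1527308), (nat_lit 1533723)]⟩, ⟨(nat_lit 6), false, true, true, (nat_lit 252), (nat_lit 2236), (nat_lit 3163), [(nat_lit 1560952), (nat_lit 1557014), (nat_lit 1572029), (nat_lit 1568401), (nat_lit 1698097), (nat_lit 1685299), (nat_lit 1709174), (nat_lit 1696686)]⟩,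 (nat_lit 5137674), (nat_lit 39343513), (nat_lit 10650921), (nat_lit 17005566), (nat_lit 6), (nat_lit 0), [⟨(nat_lit 0), (nat_lit 100), (nat_lit 61), (nat_lit 92), (nat_lit 201081776)⟩], [⟨(nat_lit 1), (nat_lit 77), (nat_lit 60), (nat_lit 100), (nat_lit 188802107)⟩], [⟨(nat_lit 0), (nat_lit 100), (nat_lit 95), (nat_lit 32), (nat_lit 17172633)⟩], [],
 ⟨⟨[(nat_lit 40), (nat_lit 60), (nat_lit 80)], [(nat_lit 0), (nat_lit 832), (nat_lit 1534)], [((nat_lit 0), (nat_lit 0), (nat_lit 0)), ((nat_lit 1000), (nat_lit 659), (nat_lit 528)), ((nat_lit 1000), (nat_lit 650), (nat_lit 549))], ((nat_lit 63), (nat_lit 100), (nat_lit 62))⟩, (nat_lit 0), (nat_lit 146), (nat_lit 146), (nat_lit 0), (nat_lit 231020), [(nat_lit 1380673206), (nat_lit 1064833580), (nat_lit 880788800)], [(nat_lit 0), (nat_lit 0), (nat_lit 0)], [(nat_lit 22409264262), (nat_lit 23535855020), (nat_lit 22910637912), (nat_lit 23970231882), (nat_lit 25826360997), (nat_lit 27030997703), (nat_lit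 26123591436), (nat_lit 27127433604)], (nat_lit 1271251), (nat_lit 1271251), (nat_lit 704688), (nat_lit 1100000), (nat_lit 1271251), (nat_lit 1271251), [(nat_lit 490000), (nat_lit 780000), (nat_lit 1100000)], [(nat_lit 2), (nat_lit 44), (nat_lit 249), (nat_lit 40), (nat_lit 10)]⟩,
 ⟨⟨[(nat_lit 80), (nat_lit 120), (nat_lit 160)], [(nat_lit 0), (nat_lit 0), (nat_lit 2132)], [((nat_lit 0), (nat_lit 0), (nat_lit 0)), ((nat_lit 0), (nat_lit 0), (nat_lit 0)), ((nat_lit 858), (nat_lit 1000), (nat_lit 713))], ((nat_lit 100), (nat_lit 92), (nat_lit 61))⟩, (nat_lit 429448), (nat_lit 777), (nat_lit 777), (nat_lit 0), (nat_lit 1018838), [(nat_lit 417232000), (nat_lit 709152000), (nat_lit 1056608000)], [], [(nat_lit 3711665147), (nat_lit 2577206838), (nat_lit 2448143188), (nat_lit 2348920736), (nat_lit 5048114083), (nat_lit 4106850286), (nat_lit 5729780282), (nat_lit 4802902073)], (nat_lit 1271251), (nat_lit 1271251), (nat_lit 704688), (nat_lit 1100000), (nat_lit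 0), (nat_lit 2754376), [(nat_lit 1100000), (nat_lit 1785001), (nat_lit 1271251)], [(nat_lit 18), (nat_lit 59), (nat_lit 456), (nat_lit 225), (nat_lit 12)]⟩,
 ⟨⟨[(nat_lit 100), (nat_lit 140), (nat_lit 160)], [(nat_lit 0), (nat_lit 0), (nat_lit 1280)], [((nat_lit 0), (nat_lit 0), (nat_lit 0)), ((nat_lit 0), (nat_lit 0), (nat_lit 0)), ((nat_lit 800), (nat_lit 1000), (nat_lit 600))], ((nat_lit 100), (nat_lit 80), (nat_lit 60))⟩, (nat_lit 39000), (nat_lit 300), (nat_lit 996), (nat_lit 5624000), (nat_lit 1569409), [(nat_lit 500000000), (nat_lit 787360000), (nat_lit 949760000)], [], [(nat_lit 3804181384), (nat_lit 3785209520), (nat_lit 3819842693), (nat_lit 3803001626), (nat_lit 3168762077), (nat_lit 3012709788), (nat_lit 3126814922), (nat_lit 3117687470)], (nat_lit 1271251), (nat_lit 1271251), (nat_lit 1271251), (nat_lit 1271251), (nat_lit 0), (nat_lit 2754376), [(nat_lit 1412501), (nat_lit 1271251), (nat_lit 1271251)], [(nat_lit 23), (nat_lit 62), (nat_lit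 483), (nat_lit 250), (nat_lit 12)]⟩⟩)) (.leaf ⟨(nat_lit 884), (nat_lit 0), (nat_lit 0), (nat_lit 116), (nat_lit 0), (nat_lit 3050), (nat_lit 1331), (nat_lit 1192), (nat_lit 0), (nat_lit 0), (nat_lit 484400), [((nat_lit 380), [((nat_lit 24), (nat_lit 1), (nat_lit 230)), ((nat_lit 41), (nat_lit 2), (nat_lit 654))])], ⟨(nat_lit 6), false, false, false, (nat_lit 188), (nat_lit 2236), (nat_lit 3163), [(nat_lit 1406804), (nat_lit 1416903), (nat_lit 1450987), (nat_lit 1462324), (nat_lit 1483125), (nat_lit 1488302), (nat_lit 1527308), (nat_lit 1533723)]⟩, ⟨(nat_lit 6), false, true, true, (nat_lit 260), (nat_lit 2236), (nat_lit 3163), [(nat_lit 1572029), (nat_lit 1568401), (nat_lit 1583107), (nat_lit 1579788), (nat_lit 1724413), (nat_lit 1710940), (nat_lit 1735490), (nat_lit 1722327)]⟩, (nat_lit 5169697), (nat_lit 38792186), (nat_lit 10548845), (nat_lit 17658969), (nat_lit 0), (nat_lit 0), [⟨(nat_lit 0), (nat_lit 100), (nat_lit 61), (nat_lit 92), (nat_lit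 308786934)⟩], [⟨(nat_lit 1), (nat_lit 74), (nat_lit 60), (nat_lit 100), (nat_lit 166346667)⟩], [⟨(nat_lit 0), (nat_lit 100), (nat_lit 96), (nat_lit 37), (nat_lit 28224419)⟩], [],
 ⟨⟨[(nat_lit 40), (nat_lit 60), (nat_lit 80)], [(nat_lit 0), (nat_lit 832), (nat_lit 1534)], [((nat_lit 0), (nat_lit 0), (nat_lit 0)), ((nat_lit 1000), (nat_lit 659), (nat_lit 528)), ((nat_lit 1000), (nat_lit 650), (nat_lit 549))], ((nat_lit 63), (nat_lit 100), (nat_lit 62))⟩, (nat_lit 0), (nat_lit 151), (nat_lit 151), (nat_lit 0), (nat_lit 229180), [(nat_lit 1371585603), (nat_lit 1046619174), (nat_lit 728788800)], [(nat_lit 0), (nat_lit 0), (nat_lit 0)], [(nat_lit 22348551256), (nat_lit 23465646669), (nat_lit 22859924506), (nat_lit 23910882856), (nat_lit 26302098241), (nat_lit 27465964022), (nat_lit 26629909834), (nat_lit 27573286872)], (nat_lit 1271251), (nat_lit 1271251), (nat_lit 704688), (nat_lit 1100000), (nat_lit 1271251), (nat_lit 1271251), [(nat_lit 490000), (nat_lit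 780000), (nat_lit 1100000)], [(nat_lit 2), (nat_lit 44), (nat_lit 249), (nat_lit 40), (nat_lit 10)]⟩,
 ⟨⟨[(nat_lit 80), (nat_lit 120), (nat_lit 160)], [(nat_lit 0), (nat_lit 0), (nat_lit 2132)], [((nat_lit 0), (nat_lit 0), (nat_lit 0)), ((nat_lit 0), (nat_lit 0), (nat_lit 0)), ((nat_lit 858), (nat_lit 1000), (nat_lit 713))], ((nat_lit 100), (nat_lit 92), (nat_lit 61))⟩, (nat_lit 405656), (nat_lit 778), (nat_lit 778), (nat_lit 0), (nat_lit 1019667), [(nat_lit 543808000), (nat_lit 924288000), (nat_lit 1377152000)], [], [(nat_lit 4768726869), (nat_lit 3524328616), (nat_lit 3292507140), (nat_lit 3354809168), (nat_lit 6530527119), (nat_lit 5384303776), (nat_lit 7372675267), (nat_lit 6243969964)], (nat_lit 1271251), (nat_lit 1271251), (nat_lit 704688), (nat_lit 1100000), (nat_lit 0), (nat_lit 2754376), [(nat_lit 1100000), (nat_lit 1785001), (nat_lit 1271251)], [(nat_lit 18), (nat_lit 59), (nat_lit 456), (nat_lit 225), (nat_lit 12)]⟩,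
 ⟨⟨[(nat_lit 100), (nat_lit 140), (nat_lit 160)], [(nat_lit 0), (nat_lit 256), (nat_lit 1478)], [((nat_lit 0), (nat_lit 0), (nat_lit 0)), ((nat_lit 1000), (nat_lit 1000), (nat_lit 100)), ((nat_lit 806), (nat_lit 1000), (nat_lit 633))], ((nat_lit 100), (nat_lit 83), (nat_lit 60))⟩, (nat_lit 494813), (nat_lit 300), (nat_lit 922), (nat_lit 7250000), (nat_lit 1431053), [(nat_lit 725000000), (nat_lit 1141672000), (nat_lit 1377152000)], [], [(nat_lit 5293866844), (nat_lit 5270271816), (nat_lit 5333642266), (nat_lit 5319392902), (nat_lit 4364658880), (nat_lit 4264260970), (nat_lit 4418887972), (nat_lit 4398491808)], (nat_lit 1271251), (nat_lit 1271251), (nat_lit 1271251), (nat_lit 1271251), (nat_lit 0), (nat_lit 2754376), [(nat_lit 1412501), (nat_lit 1271251), (nat_lit 1271251)], [(nat_lit 23), (nat_lit 62), (nat_lit 483), (nat_lit 250), (nat_lit 12)]⟩⟩))))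
noncomputable def c17_46 : Tr Lf :=
 (.spl (nat_lit 2) (nat_lit 200) (.trX (nat_lit 4) (nat_lit 0) (nat_lit 2) (nat_lit 60) (nat_lit 80) (nat_lit 100) (nat_lit 320) (.spl (nat_lit 1) (nat_lit 260) (.leaf ⟨(nat_lit 915), (nat_lit 33), (nat_lit 0), (nat_lit 52), (nat_lit 0), (nat_lit 3390), (nat_lit 862), (nat_lit 558), (nat_lit 0), (nat_lit 0), (nat_lit 357000), [((nat_lit 380), [((nat_lit 24), (nat_lit 0), (nat_lit 60)), ((nat_lit 24), (nat_lit 1), (nat_lit 855))])], ⟨(nat_lit 6), false, false, false, (nat_lit 222), (nat_lit 2236), (nat_lit 3163), [(nat_lit 1483125), (nat_lit 1488302), (nat_lit 1505217), (nat_lit 1511013), (nat_lit 1605240), (nat_lit 1602541), (nat_lit 1627331), (nat_lit 1625251)]⟩, ⟨(nat_lit 6), false, true, true, (nat_lit 243), (nat_lit 2236), (nat_lit 3163), [(nat_lit 1538797), (nat_lit 1534240), (nat_lit 1560952), (nat_lit 1557014), (nat_lit 1660704), (nat_lit 1648271), (nat_lit 1682859), (nat_lit 1671045)]⟩, (nat_lit 5317262),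 (nat_lit 37947900), (nat_lit 13505809), (nat_lit 15546291), (nat_lit 6), (nat_lit 0), [], [⟨(nat_lit 1), (nat_lit 88), (nat_lit 53), (nat_lit 100), (nat_lit 263673847)⟩], [], [⟨(nat_lit 0), (nat_lit 92), (nat_lit 100), (nat_lit 40), (nat_lit 7126173)⟩],
 ⟨⟨[(nat_lit 40), (nat_lit 60), (nat_lit 80)], [(nat_lit 0), (nat_lit 832), (nat_lit 1534)], [((nat_lit 0), (nat_lit 0), (nat_lit 0)), ((nat_lit 1000), (nat_lit 659), (nat_lit 528)), ((nat_lit 1000), (nat_lit 650), (nat_lit 549))], ((nat_lit 63), (nat_lit 100), (nat_lit 62))⟩, (nat_lit 0), (nat_lit 124), (nat_lit 124), (nat_lit 0), (nat_lit 221356), [(nat_lit 1420894065), (nat_lit 1220905123), (nat_lit 1316828000)], [(nat_lit 0), (nat_lit 0), (nat_lit 0)], [(nat_lit 22869630430), (nat_lit 23969523960), (nat_lit 24634970810), (nat_lit 25604856150), (nat_lit 25728502250), (nat_lit 26937662350), (nat_lit 27345245880), (nat_lit 28407240560)], (nat_lit 1271251), (nat_lit 1271251), (nat_lit 1100000), (nat_lit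 1785001), (nat_lit 1271251), (nat_lit 1271251), [(nat_lit 490000), (nat_lit 780000), (nat_lit 1100000)], [(nat_lit 2), (nat_lit 44), (nat_lit 203), (nat_lit 0), (nat_lit 7)]⟩,
 ⟨⟨[(nat_lit 80), (nat_lit 120), (nat_lit 160)], [(nat_lit 0), (nat_lit 0), (nat_lit 2132)], [((nat_lit 0), (nat_lit 0), (nat_lit 0)), ((nat_lit 0), (nat_lit 0), (nat_lit 0)), ((nat_lit 858), (nat_lit 1000), (nat_lit 713))], ((nat_lit 100), (nat_lit 92), (nat_lit 61))⟩, (nat_lit 9649), (nat_lit 749), (nat_lit 749), (nat_lit 0), (nat_lit 1034468), [(nat_lit 398480000), (nat_lit 677280000), (nat_lit 1009120000)], [], [(nat_lit 3810561752), (nat_lit 3358220356), (nat_lit 3258503176), (nat_lit 3274712411), (nat_lit 3827544996), (nat_lit 3444667870), (nat_lit 4890820280), (nat_lit 4517437222)], (nat_lit 1271251), (nat_lit 1271251), (nat_lit 1100000), (nat_lit 1785001), (nat_lit 0), (nat_lit 2825001), [(nat_lit 1100000), (nat_lit 1785001), (nat_lit 1271251)], [(nat_lit 18), (nat_lit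 59), (nat_lit 456), (nat_lit 225), (nat_lit 12)]⟩,
 ⟨⟨[(nat_lit 120), (nat_lit 160), (nat_lit 180)], [(nat_lit 0), (nat_lit 533), (nat_lit 2066)], [((nat_lit 0), (nat_lit 0), (nat_lit 0)), ((nat_lit 960), (nat_lit 1000), (nat_lit 200)), ((nat_lit 615), (nat_lit 1000), (nat_lit 729))], ((nat_lit 100), (nat_lit 74), (nat_lit 60))⟩, (nat_lit 121756), (nat_lit 300), (nat_lit 1174), (nat_lit 3452801), (nat_lit 1803912), [(nat_lit 414336000), (nat_lit 617344000), (nat_lit 731016000)], [], [(nat_lit 2842221748), (nat_lit 2816787880), (nat_lit 2811304740), (nat_lit 2783277056), (nat_lit 2935027310), (nat_lit 2693324588), (nat_lit 2243982060), (nat_lit 2219525464)], (nat_lit 1271251), (nat_lit 1271251), (nat_lit 1271251), (nat_lit 1271251), (nat_lit 0), (nat_lit 2825001), [(nat_lit 1695001), (nat_lit 1271251), (nat_lit 1271251)], [(nat_lit 28), (nat_lit 65), (nat_lit 483), (nat_lit 250), (nat_lit 11)]⟩⟩) (.leaf ⟨(nat_lit 856), (nat_lit 81), (nat_lit 0),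 (nat_lit 63), (nat_lit 0), (nat_lit 3467), (nat_lit 1117), (nat_lit 641), (nat_lit 0), (nat_lit 0), (nat_lit 342400), [((nat_lit 380), [((nat_lit 24), (nat_lit 1), (nat_lit 856))])], ⟨(nat_lit 6), false, false, false, (nat_lit 231), (nat_lit 2236), (nat_lit 3163), [(nat_lit 1505217), (nat_lit 1511013), (nat_lit 1527308), (nat_lit 1533723), (nat_lit 1627331), (nat_lit 1625251), (nat_lit 1649422), (nat_lit 1647962)]⟩, ⟨(nat_lit 6), false, true, true, (nat_lit 243), (nat_lit 2236), (nat_lit 3163), [(nat_lit 1538797), (nat_lit 1534240), (nat_lit 1560952), (nat_lit 1557014), (nat_lit 1660704), (nat_lit 1648271), (nat_lit 1682859), (nat_lit 1671045)]⟩, (nat_lit 5366386), (nat_lit 37387592), (nat_lit 14234936), (nat_lit 15377472), (nat_lit 6), (nat_lit 0), [], [⟨(nat_lit 1), (nat_lit 88), (nat_lit 53), (nat_lit 100), (nat_lit 272713843)⟩], [], [],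
 ⟨⟨[(nat_lit 40), (nat_lit 60), (nat_lit 80)], [(nat_lit 0), (nat_lit 832), (nat_lit 1534)], [((nat_lit 0), (nat_lit 0), (nat_lit 0)), ((nat_lit 1000), (nat_lit 659), (nat_lit 528)), ((nat_lit 1000), (nat_lit 650), (nat_lit 549))], ((nat_lit 63), (nat_lit 100), (nat_lit 62))⟩, (nat_lit 0), (nat_lit 128), (nat_lit 128), (nat_lit 0), (nat_lit 238182), [(nat_lit 1436768006), (nat_lit 1318122994), (nat_lit 1492038400)], [(nat_lit 0), (nat_lit 0), (nat_lit 0)], [(nat_lit 22971032344), (nat_lit 24034255311), (nat_lit 24687175416), (nat_lit 25666077918), (nat_lit 25800845402), (nat_lit 27022459755), (nat_lit 27410903164), (nat_lit 28482847168)], (nat_lit 1271251), (nat_lit 1271251), (nat_lit 1100000), (nat_lit 1785001), (nat_lit 1271251), (nat_lit 1271251), [(nat_lit 490000), (nat_lit 780000), (nat_lit 1100000)], [(nat_lit 2), (nat_lit 44), (nat_lit 203), (nat_lit 0), (nat_lit 7)]⟩,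
 ⟨⟨[(nat_lit 80), (nat_lit 120), (nat_lit 140)], [(nat_lit 0), (nat_lit 528), (nat_lit 1572)], [((nat_lit 0), (nat_lit 0), (nat_lit 0)), ((nat_lit 1000), (nat_lit 959), (nat_lit 206)), ((nat_lit 966), (nat_lit 1000), (nat_lit 679))], ((nat_lit 100), (nat_lit 99), (nat_lit 63))⟩, (nat_lit 359253), (nat_lit 646), (nat_lit 646), (nat_lit 0), (nat_lit 959202), [(nat_lit 675072000), (nat_lit 1147392000), (nat_lit 1417248000)], [], [(nat_lit 5346186906), (nat_lit 4760327394), (nat_lit 4760571976), (nat_lit 4818219012), (nat_lit 5731827979), (nat_lit 5235686738), (nat_lit 7214710697), (nat_lit 6730872094)], (nat_lit 1271251), (nat_lit 1271251), (nat_lit 1100000), (nat_lit 1785001), (nat_lit 0), (nat_lit 2825001), [(nat_lit 1100000), (nat_lit 1785001), (nat_lit 1271251)], [(nat_lit 17), (nat_lit 58), (nat_lit 483), (nat_lit 250), (nat_lit 14)]⟩,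
 ⟨⟨[(nat_lit 120), (nat_lit 160), (nat_lit 180)], [(nat_lit 0), (nat_lit 533), (nat_lit 2066)], [((nat_lit 0), (nat_lit 0), (nat_lit 0)), ((nat_lit 960), (nat_lit 1000), (nat_lit 200)), ((nat_lit 615), (nat_lit 1000), (nat_lit 729))], ((nat_lit 100), (nat_lit 74), (nat_lit 60))⟩, (nat_lit 147512), (nat_lit 300), (nat_lit 1234), (nat_lit 4183201), (nat_lit 1944220), [(nat_lit 501984000), (nat_lit 747936000), (nat_lit 885654000)], [], [(nat_lit 3587648904), (nat_lit 3554036588), (nat_lit 3522161353), (nat_lit 3490895970), (nat_lit 3531746285), (nat_lit 3254091366), (nat_lit 2797023775), (nat_lit 2763668726)], (nat_lit 1271251), (nat_lit 1271251), (nat_lit 1271251), (nat_lit 1271251), (nat_lit 0), (nat_lit 2825001), [(nat_lit 1695001), (nat_lit 1271251), (nat_lit 1271251)], [(nat_lit 28), (nat_lit 65), (nat_lit 483), (nat_lit 250), (nat_lit 11)]⟩⟩))) (.spl (nat_lit 5) (nat_lit 120) (.spl (nat_lit 0) (nat_lit 370) (.leaf ⟨(nat_lit 893), (nat_lit 16),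 (nat_lit 0), (nat_lit 91), (nat_lit 0), (nat_lit 3085), (nat_lit 1389), (nat_lit 1013), (nat_lit 0), (nat_lit 0), (nat_lit 491000), [((nat_lit 370), [((nat_lit 24), (nat_lit 1), (nat_lit 224)), ((nat_lit 41), (nat_lit 2), (nat_lit 669))])], ⟨(nat_lit 6), false, false, false, (nat_lit 227), (nat_lit 2738), (nat_lit 3163), [(nat_lit 1483313), (nat_lit 1485730), (nat_lit 1527599), (nat_lit 1530541), (nat_lit 1605257), (nat_lit 1603890), (nat_lit 1649542), (nat_lit 1648700)]⟩, ⟨(nat_lit 6), false, true, true, (nat_lit 258), (nat_lit 2738), (nat_lit 3163), [(nat_lit 1560952), (nat_lit 1559060), (nat_lit 1583107), (nat_lit 1581477), (nat_lit 1713335), (nat_lit 1706713), (nat_lit 1735490), (nat_lit 1729131)]⟩, (nat_lit 5409633), (nat_lit 36641849), (nat_lit 13576326), (nat_lit 16781825), (nat_lit 6), (nat_lit 0), [], [⟨(nat_lit 1), (nat_lit 80), (nat_lit 57), (nat_lit 100), (nat_lit 178136508)⟩], [], [⟨(nat_lit 0), (nat_lit 89), (nat_lit 100), (nat_lit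 45), (nat_lit 51105155)⟩],
 ⟨⟨[(nat_lit 40), (nat_lit 60), (nat_lit 80)], [(nat_lit 0), (nat_lit 832), (nat_lit 1534)], [((nat_lit 0), (nat_lit 0), (nat_lit 0)), ((nat_lit 1000), (nat_lit 659), (nat_lit 528)), ((nat_lit 1000), (nat_lit 650), (nat_lit 549))], ((nat_lit 63), (nat_lit 100), (nat_lit 62))⟩, (nat_lit 0), (nat_lit 124), (nat_lit 124), (nat_lit 0), (nat_lit 213756), [(nat_lit 1366563603), (nat_lit 986783683), (nat_lit 680078400)], [(nat_lit 0), (nat_lit 0), (nat_lit 0)], [(nat_lit 22731484056), (nat_lit 23259481954), (nat_lit 24550372109), (nat_lit 25062779604), (nat_lit 26568190952), (nat_lit 27042561667), (nat_lit 28043502562), (nat_lit 28501071622)], (nat_lit 1271251), (nat_lit 1271251), (nat_lit 1100000), (nat_lit 1785001), (nat_lit 1271251), (nat_lit 1271251), [(nat_lit 490000), (nat_lit 780000), (nat_lit 1100000)], [(nat_lit 2), (nat_lit 44), (nat_lit 203), (nat_lit 0), (nat_lit 7)]⟩,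
 ⟨⟨[(nat_lit 80), (nat_lit 120), (nat_lit 160)], [(nat_lit 0), (nat_lit 0), (nat_lit 2132)], [((nat_lit 0), (nat_lit 0), (nat_lit 0)), ((nat_lit 0), (nat_lit 0), (nat_lit 0)), ((nat_lit 858), (nat_lit 1000), (nat_lit 713))], ((nat_lit 100), (nat_lit 92), (nat_lit 61))⟩, (nat_lit 602817), (nat_lit 688), (nat_lit 688), (nat_lit 0), (nat_lit 877514), [(nat_lit 501616000), (nat_lit 852576000), (nat_lit 1270304000)], [], [(nat_lit 2861855204), (nat_lit 2669341872), (nat_lit 4288337400), (nat_lit 2992408478), (nat_lit 3556557404), (nat_lit 2273338088), (nat_lit 5089164756), (nat_lit 3839116149)], (nat_lit 1271251), (nat_lit 1271251), (nat_lit 1100000), (nat_lit 1785001), (nat_lit 0), (nat_lit 780000), [(nat_lit 1100000), (nat_lit 1785001), (nat_lit 1271251)], [(nat_lit 18), (nat_lit 59), (nat_lit 401), (nat_lit 175), (nat_lit 10)]⟩,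
 ⟨⟨[(nat_lit 100), (nat_lit 140), (nat_lit 160)], [(nat_lit 0), (nat_lit 0), (nat_lit 1280)], [((nat_lit 0), (nat_lit 0), (nat_lit 0)), ((nat_lit 0), (nat_lit 0), (nat_lit 0)), ((nat_lit 800), (nat_lit 1000), (nat_lit 600))], ((nat_lit 100), (nat_lit 80), (nat_lit 60))⟩, (nat_lit 44363), (nat_lit 300), (nat_lit 906), (nat_lit 6397300), (nat_lit 1382558), [(nat_lit 568750000), (nat_lit 895622000), (nat_lit 1080352000)], [], [(nat_lit 4386283384), (nat_lit 4344002154), (nat_lit 4401923983), (nat_lit 4367234045), (nat_lit 3732633939), (nat_lit 3690326662), (nat_lit 3698397651), (nat_lit 3658537071)], (nat_lit 1271251), (nat_lit 1271251), (nat_lit 1271251), (nat_lit 1271251), (nat_lit 0), (nat_lit 780000), [(nat_lit 1412501), (nat_lit 1271251), (nat_lit 1271251)], [(nat_lit 23), (nat_lit 62), (nat_lit 401), (nat_lit 175), (nat_lit 10)]⟩⟩) (.trX (nat_lit 4) (nat_lit 0) (nat_lit 2) (nat_lit 53) (nat_lit 80) (nat_lit 100) (nat_lit 330) (.leaf ⟨(nat_lit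 897), (nat_lit 24), (nat_lit 0), (nat_lit 79), (nat_lit 0), (nat_lit 3104), (nat_lit 1215), (nat_lit 898), (nat_lit 0), (nat_lit 0), (nat_lit 458800), [((nat_lit 380), [((nat_lit 24), (nat_lit 1), (nat_lit 397)), ((nat_lit 41), (nat_lit 2), (nat_lit 500))])], ⟨(nat_lit 6), false, false, false, (nat_lit 227), (nat_lit 2236), (nat_lit 2739), [(nat_lit 1485697), (nat_lit 1488457), (nat_lit 1530492), (nat_lit 1533965), (nat_lit 1603890), (nat_lit 1602558), (nat_lit 1648684), (nat_lit 1648065)]⟩, ⟨(nat_lit 6), false, true, true, (nat_lit 254), (nat_lit 2236), (nat_lit 2739), [(nat_lit 1559060), (nat_lit 1557014), (nat_lit 1581477), (nat_lit 1579788), (nat_lit 1691948), (nat_lit 1685299), (nat_lit 1714365), (nat_lit 1708073)]⟩, (nat_lit 5393017), (nat_lit 36922103), (nat_lit 13688345), (nat_lit 16389552), (nat_lit 6), (nat_lit 0), [], [⟨(nat_lit 1), (nat_lit 85), (nat_lit 48), (nat_lit 100), (nat_lit 243133231)⟩], [], [⟨(nat_lit 0), (nat_lit 91), (nat_lit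 100), (nat_lit 43), (nat_lit 39583632)⟩],
 ⟨⟨[(nat_lit 40), (nat_lit 60), (nat_lit 80)], [(nat_lit 0), (nat_lit 1134), (nat_lit 1930)], [((nat_lit 0), (nat_lit 0), (nat_lit 0)), ((nat_lit 1000), (nat_lit 575), (nat_lit 619)), ((nat_lit 1000), (nat_lit 574), (nat_lit 622))], ((nat_lit 57), (nat_lit 100), (nat_lit 64))⟩, (nat_lit 0), (nat_lit 129), (nat_lit 129), (nat_lit 0), (nat_lit 229848), [(nat_lit 1378666010), (nat_lit 1060536557), (nat_lit 835360800)], [(nat_lit 0), (nat_lit 0), (nat_lit 0)], [(nat_lit 23402506904), (nat_lit 23931872108), (nat_lit 25112043380), (nat_lit 25581521326), (nat_lit 26611569276), (nat_lit 27120462614), (nat_lit 28080539999), (nat_lit 28567842304)], (nat_lit 1271251), (nat_lit 1271251), (nat_lit 1100000), (nat_lit 1785001), (nat_lit 1271251), (nat_lit 1271251), [(nat_lit 490000), (nat_lit 780000), (nat_lit 1100000)], [(nat_lit 2), (nat_lit 44), (nat_lit 203), (nat_lit 0), (nat_lit 7)]⟩,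
 ⟨⟨[(nat_lit 80), (nat_lit 120), (nat_lit 160)], [(nat_lit 0), (nat_lit 0), (nat_lit 2132)], [((nat_lit 0), (nat_lit 0), (nat_lit 0)), ((nat_lit 0), (nat_lit 0), (nat_lit 0)), ((nat_lit 858), (nat_lit 1000), (nat_lit 713))], ((nat_lit 100), (nat_lit 92), (nat_lit 61))⟩, (nat_lit 460903), (nat_lit 743), (nat_lit 743), (nat_lit 0), (nat_lit 1019247), [(nat_lit 482864000), (nat_lit 820704000), (nat_lit 1222816000)], [], [(nat_lit 2887490524), (nat_lit 2868111782), (nat_lit 4161044016), (nat_lit 3023672796), (nat_lit 3524507524), (nat_lit 2402037064), (nat_lit 4890891876), (nat_lit 3797436831)], (nat_lit 1271251), (nat_lit 1271251), (nat_lit 1100000), (nat_lit 1785001), (nat_lit 0), (nat_lit 780000), [(nat_lit 1100000), (nat_lit 1785001), (nat_lit 1271251)], [(nat_lit 18), (nat_lit 59), (nat_lit 401), (nat_lit 175), (nat_lit 10)]⟩,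
 ⟨⟨[(nat_lit 100), (nat_lit 140), (nat_lit 160)], [(nat_lit 0), (nat_lit 0), (nat_lit 1280)], [((nat_lit 0), (nat_lit 0), (nat_lit 0)), ((nat_lit 0), (nat_lit 0), (nat_lit 0)), ((nat_lit 800), (nat_lit 1000), (nat_lit 600))], ((nat_lit 100), (nat_lit 80), (nat_lit 60))⟩, (nat_lit 38513), (nat_lit 300), (nat_lit 996), (nat_lit 5553700), (nat_lit 1569895), [(nat_lit 493750000), (nat_lit 777518000), (nat_lit 937888000)], [], [(nat_lit 3725671158), (nat_lit 3697598599), (nat_lit 3753418167), (nat_lit 3730421783), (nat_lit 3141995845), (nat_lit 3104027675), (nat_lit 3124699881), (nat_lit 3089682969)], (nat_lit 1271251), (nat_lit 1271251), (nat_lit 1271251), (nat_lit 1271251), (nat_lit 0), (nat_lit 780000), [(nat_lit 1412501), (nat_lit 1271251), (nat_lit 1271251)], [(nat_lit 23), (nat_lit 62), (nat_lit 401), (nat_lit 175), (nat_lit 10)]⟩⟩))) (.leaf ⟨(nat_lit 826), (nat_lit 0), (nat_lit 0), (nat_lit 174), (nat_lit 0), (nat_lit 3274), (nat_lit 2039), (nat_lit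 1731), (nat_lit 0), (nat_lit 0), (nat_lit 464100), [((nat_lit 380), [((nat_lit 24), (nat_lit 0), (nat_lit 90)), ((nat_lit 41), (nat_lit 2), (nat_lit 736))])], ⟨(nat_lit 6), false, false, false, (nat_lit 227), (nat_lit 2236), (nat_lit 3163), [(nat_lit 1483125), (nat_lit 1488302), (nat_lit 1527308), (nat_lit 1533723), (nat_lit 1605240), (nat_lit 1602541), (nat_lit 1649422), (nat_lit 1647962)]⟩, ⟨(nat_lit 6), false, true, true, (nat_lit 258), (nat_lit 2236), (nat_lit 3163), [(nat_lit 1560952), (nat_lit 1557014), (nat_lit 1583107), (nat_lit 1579788), (nat_lit 1713335), (nat_lit 1699553), (nat_lit 1735490), (nat_lit 1722327)]⟩, (nat_lit 5406978), (nat_lit 36690699), (nat_lit 13604461), (nat_lit 16704840), (nat_lit 0), (nat_lit 0), [⟨(nat_lit 0), (nat_lit 92), (nat_lit 44), (nat_lit 100), (nat_lit 106574427)⟩], [⟨(nat_lit 1), (nat_lit 82), (nat_lit 53), (nat_lit 100), (nat_lit 244958573)⟩], [], [],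
 ⟨⟨[(nat_lit 40), (nat_lit 60), (nat_lit 80)], [(nat_lit 0), (nat_lit 832), (nat_lit 1534)], [((nat_lit 0), (nat_lit 0), (nat_lit 0)), ((nat_lit 1000), (nat_lit 659), (nat_lit 528)), ((nat_lit 1000), (nat_lit 650), (nat_lit 549))], ((nat_lit 63), (nat_lit 100), (nat_lit 62))⟩, (nat_lit 1209169), (nat_lit 132), (nat_lit 132), (nat_lit 0), (nat_lit 231020), [(nat_lit 1402918463), (nat_lit 1250501284), (nat_lit 930355200)], [(nat_lit 0), (nat_lit 0), (nat_lit 0)], [(nat_lit 22392262913), (nat_lit 23586415635), (nat_lit 24335524709), (nat_lit 25386831748), (nat_lit 26693434273), (nat_lit 27826032371), (nat_lit 28194905883), (nat_lit 29192695065)], (nat_lit 1271251), (nat_lit 1271251), (nat_lit 1100000), (nat_lit 1785001), (nat_lit 1271251), (nat_lit 1271251), [(nat_lit 490000), (nat_lit 780000), (nat_lit 1100000)], [(nat_lit 2), (nat_lit 44), (nat_lit 203), (nat_lit 0), (nat_lit 7)]⟩,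
 ⟨⟨[(nat_lit 80), (nat_lit 120), (nat_lit 160)], [(nat_lit 0), (nat_lit 0), (nat_lit 2132)], [((nat_lit 0), (nat_lit 0), (nat_lit 0)), ((nat_lit 0), (nat_lit 0), (nat_lit 0)), ((nat_lit 858), (nat_lit 1000), (nat_lit 713))], ((nat_lit 100), (nat_lit 92), (nat_lit 61))⟩, (nat_lit 939624), (nat_lit 666), (nat_lit 666), (nat_lit 0), (nat_lit 1020166), [(nat_lit 815712000), (nat_lit 1386432000), (nat_lit 2065728000)], [], [(nat_lit 5833699780), (nat_lit 3725233089), (nat_lit 3522495250), (nat_lit 3684677469), (nat_lit 11595274672), (nat_lit 9783937178), (nat_lit 7972599684), (nat_lit 6376144842)], (nat_lit 1271251), (nat_lit 1271251), (nat_lit 1271251), (nat_lit 1271251), (nat_lit 780000), (nat_lit 3072501), [(nat_lit 1100000), (nat_lit 1785001), (nat_lit 1271251)], [(nat_lit 18), (nat_lit 59), (nat_lit 483), (nat_lit 250), (nat_lit 12)]⟩,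
 ⟨⟨[(nat_lit 100), (nat_lit 140), (nat_lit 160)], [(nat_lit 0), (nat_lit 0), (nat_lit 1280)], [((nat_lit 0), (nat_lit 0), (nat_lit 0)), ((nat_lit 0), (nat_lit 0), (nat_lit 0)), ((nat_lit 800), (nat_lit 1000), (nat_lit 600))], ((nat_lit 100), (nat_lit 80), (nat_lit 60))⟩, (nat_lit 285799), (nat_lit 300), (nat_lit 907), (nat_lit 12232200), (nat_lit 1570116), [(nat_lit 1087500000), (nat_lit 1712508000), (nat_lit 2065728000)], [], [(nat_lit 8280046493), (nat_lit 8206157018), (nat_lit 8148497186), (nat_lit 8071732143), (nat_lit 7575881190), (nat_lit 7488774897), (nat_lit 7358877245), (nat_lit 7272210153)], (nat_lit 1271251), (nat_lit 1271251), (nat_lit 1271251), (nat_lit 1271251), (nat_lit 780000), (nat_lit 3072501), [(nat_lit 1412501), (nat_lit 1271251), (nat_lit 1271251)], [(nat_lit 23), (nat_lit 62), (nat_lit 483), (nat_lit 250), (nat_lit 12)]⟩⟩)))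
noncomputable def c17_47 : Tr Lf :=
 (.trZ (nat_lit 0) (nat_lit 1) (nat_lit 3) (nat_lit 94) (nat_lit 62) (nat_lit 100) (nat_lit 150) (.spl (nat_lit 5) (nat_lit 120) (.spl (nat_lit 2) (nat_lit 200) (.trX (nat_lit 4) (nat_lit 0) (nat_lit 2) (nat_lit 60) (nat_lit 80) (nat_lit 100) (nat_lit 320) (.leaf ⟨(nat_lit 729), (nat_lit 179), (nat_lit 0), (nat_lit 92), (nat_lit 0), (nat_lit 3259), (nat_lit 2495), (nat_lit 1022), (nat_lit 0), (nat_lit 0), (nat_lit 397150), [((nat_lit 380), [((nat_lit 24), (nat_lit 0), (nat_lit 115)), ((nat_lit 41), (nat_lit 2), (nat_lit 614))])], ⟨(nat_lit 7), false, false, false, (nat_lit 242), (nat_lit 2236), (nat_lit 3163), [(nat_lit 1512044), (nat_lit 1519444), (nat_lit 1556227), (nat_lit 1564865), (nat_lit 1649422), (nat_lit 1647962), (nat_lit 1693606), (nat_lit 1693384)]⟩, ⟨(nat_lit 6), false, true, true, (nat_lit 243), (nat_lit 2236), (nat_lit 3163), [(nat_lit 1538797), (nat_lit 1534240), (nat_lit 1560952), (nat_lit 1557014),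 (nat_lit 1660704), (nat_lit 1648271), (nat_lit 1682859), (nat_lit 1671045)]⟩, (nat_lit 5418459), (nat_lit 36732986), (nat_lit 15090734), (nat_lit 15176280), (nat_lit 6), (nat_lit 0), [⟨(nat_lit 0), (nat_lit 87), (nat_lit 53), (nat_lit 100), (nat_lit 164553908)⟩], [⟨(nat_lit 1), (nat_lit 88), (nat_lit 53), (nat_lit 100), (nat_lit 299378326)⟩], [⟨(nat_lit 0), (nat_lit 100), (nat_lit 87), (nat_lit 46), (nat_lit 24101117)⟩], [],
 ⟨⟨[(nat_lit 40), (nat_lit 60), (nat_lit 80)], [(nat_lit 0), (nat_lit 832), (nat_lit 1534)], [((nat_lit 0), (nat_lit 0), (nat_lit 0)), ((nat_lit 1000), (nat_lit 659), (nat_lit 528)), ((nat_lit 1000), (nat_lit 650), (nat_lit 549))], ((nat_lit 63), (nat_lit 100), (nat_lit 62))⟩, (nat_lit 367497), (nat_lit 143), (nat_lit 143), (nat_lit 0), (nat_lit 282686), [(nat_lit 1457555604), (nat_lit 1451950444), (nat_lit 1434172800)], [(nat_lit 0), (nat_lit 0), (nat_lit 0)], [(nat_lit 22662074578), (nat_lit 23756940026), (nat_lit 24525180518),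 (nat_lit 25573673578), (nat_lit 25618229264), (nat_lit 26776955573), (nat_lit 27248865142), (nat_lit 28278611136)], (nat_lit 1271251), (nat_lit 1271251), (nat_lit 1017188), (nat_lit 1779376), (nat_lit 1271251), (nat_lit 1271251), [(nat_lit 490000), (nat_lit 780000), (nat_lit 1100000)], [(nat_lit 2), (nat_lit 44), (nat_lit 272), (nat_lit 60), (nat_lit 10)]⟩,
 ⟨⟨[(nat_lit 60), (nat_lit 100), (nat_lit 140)], [(nat_lit 0), (nat_lit 0), (nat_lit 2047)], [((nat_lit 0), (nat_lit 0), (nat_lit 0)), ((nat_lit 0), (nat_lit 0), (nat_lit 0)), ((nat_lit 1000), (nat_lit 993), (nat_lit 781))], ((nat_lit 94), (nat_lit 100), (nat_lit 62))⟩, (nat_lit 840830), (nat_lit 625), (nat_lit 625), (nat_lit 0), (nat_lit 919209), [(nat_lit 889422000), (nat_lit 1693750000), (nat_lit 2667182000)], [], [(nat_lit 7377312092), (nat_lit 7791412214), (nat_lit 7569566412), (nat_lit 7899391148), (nat_lit 6208091966), (nat_lit 6561522410), (nat_lit 8645071171), (nat_lit 6616082844)],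 (nat_lit 1271251), (nat_lit 1271251), (nat_lit 1017188), (nat_lit 1779376), (nat_lit 0), (nat_lit 780000), [(nat_lit 780000), (nat_lit 1435001), (nat_lit 1271251)], [(nat_lit 11), (nat_lit 55), (nat_lit 317), (nat_lit 100), (nat_lit 9)]⟩,
 ⟨⟨[(nat_lit 120), (nat_lit 160), (nat_lit 180)], [(nat_lit 0), (nat_lit 533), (nat_lit 2066)], [((nat_lit 0), (nat_lit 0), (nat_lit 0)), ((nat_lit 960), (nat_lit 1000), (nat_lit 200)), ((nat_lit 615), (nat_lit 1000), (nat_lit 729))], ((nat_lit 100), (nat_lit 74), (nat_lit 60))⟩, (nat_lit 215415), (nat_lit 300), (nat_lit 1405), (nat_lit 6108800), (nat_lit 2314264), [(nat_lit 733056000), (nat_lit 1092224000), (nat_lit 1293336000)], [], [(nat_lit 4919401012), (nat_lit 4871857592), (nat_lit 4901986510), (nat_lit 4861465300), (nat_lit 4188172478), (nat_lit 4141475560), (nat_lit 4120982868), (nat_lit 4074491044)], (nat_lit 1271251), (nat_lit 1271251), (nat_lit 1271251), (nat_lit 1271251), (nat_lit 0), (nat_lit 780000),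 [(nat_lit 1695001), (nat_lit 1271251), (nat_lit 1271251)], [(nat_lit 28), (nat_lit 65), (nat_lit 432), (nat_lit 175), (nat_lit 10)]⟩⟩)) (.trZ (nat_lit 1) (nat_lit 2) (nat_lit 5) (nat_lit 100) (nat_lit 92) (nat_lit 40) (nat_lit 10) (.leaf ⟨(nat_lit 35), (nat_lit 544), (nat_lit 0), (nat_lit 421), (nat_lit 0), (nat_lit 3905), (nat_lit 8844), (nat_lit 4797), (nat_lit 0), (nat_lit 0), (nat_lit 140000), [((nat_lit 380), [((nat_lit 41), (nat_lit 5), (nat_lit 35))])], ⟨(nat_lit 7), false, false, false, (nat_lit 242), (nat_lit 2236), (nat_lit 3163), [(nat_lit 1512044), (nat_lit 1519444), (nat_lit 1556227), (nat_lit 1564865), (nat_lit 1649422), (nat_lit 1647962), (nat_lit 1693606), (nat_lit 1693384)]⟩, ⟨(nat_lit 6), false, true, true, (nat_lit 258), (nat_lit 2236), (nat_lit 3163), [(nat_lit 1560952), (nat_lit 1557014), (nat_lit 1583107), (nat_lit 1579788), (nat_lit 1713335), (nat_lit 1699553), (nat_lit 1735490), (nat_lit 1722327)]⟩, (nat_lit 5482025), (nat_lit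 35805327), (nat_lit 14800417), (nat_lit 16394256), (nat_lit 6), (nat_lit 0), [⟨(nat_lit 0), (nat_lit 82), (nat_lit 44), (nat_lit 100), (nat_lit 987415087)⟩], [⟨(nat_lit 1), (nat_lit 82), (nat_lit 53), (nat_lit 100), (nat_lit 169224094)⟩], [], [⟨(nat_lit 0), (nat_lit 89), (nat_lit 100), (nat_lit 43), (nat_lit 65771182)⟩],
 ⟨⟨[(nat_lit 40), (nat_lit 60), (nat_lit 80)], [(nat_lit 0), (nat_lit 832), (nat_lit 1534)], [((nat_lit 0), (nat_lit 0), (nat_lit 0)), ((nat_lit 1000), (nat_lit 659), (nat_lit 528)), ((nat_lit 1000), (nat_lit 650), (nat_lit 549))], ((nat_lit 63), (nat_lit 100), (nat_lit 62))⟩, (nat_lit 6150369), (nat_lit 149), (nat_lit 149), (nat_lit 0), (nat_lit 272595), [(nat_lit 1896298002), (nat_lit 3457632921), (nat_lit 3926274000)], [(nat_lit 0), (nat_lit 0), (nat_lit 0)], [(nat_lit 22699762809), (nat_lit 24016892960), (nat_lit 24734242906), (nat_lit 25871630310), (nat_lit 27389823840), (nat_lit 28630251944), (nat_lit 28800968448), (nat_lit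 29873530972)], (nat_lit 1271251), (nat_lit 1271251), (nat_lit 1017188), (nat_lit 1779376), (nat_lit 1271251), (nat_lit 1271251), [(nat_lit 490000), (nat_lit 780000), (nat_lit 1100000)], [(nat_lit 2), (nat_lit 44), (nat_lit 272), (nat_lit 60), (nat_lit 10)]⟩,
 ⟨⟨[(nat_lit 60), (nat_lit 100), (nat_lit 140)], [(nat_lit 0), (nat_lit 0), (nat_lit 2047)], [((nat_lit 0), (nat_lit 0), (nat_lit 0)), ((nat_lit 0), (nat_lit 0), (nat_lit 0)), ((nat_lit 1000), (nat_lit 993), (nat_lit 781))], ((nat_lit 94), (nat_lit 100), (nat_lit 62))⟩, (nat_lit 3871932), (nat_lit 608), (nat_lit 608), (nat_lit 0), (nat_lit 890707), [(nat_lit 3167130000), (nat_lit 6031250000), (nat_lit 9497530000)], [], [(nat_lit 24188206210), (nat_lit 26182362822), (nat_lit 25499698297), (nat_lit 27108421103), (nat_lit 20431173868), (nat_lit 22168863349), (nat_lit 30836270184), (nat_lit 22877193306)], (nat_lit 1271251), (nat_lit 1271251), (nat_lit 1017188), (nat_lit 1779376), (nat_lit 54688),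 (nat_lit 780000), [(nat_lit 780000), (nat_lit 1435001), (nat_lit 1271251)], [(nat_lit 11), (nat_lit 55), (nat_lit 317), (nat_lit 100), (nat_lit 9)]⟩,
 ⟨⟨[(nat_lit 100), (nat_lit 140), (nat_lit 160)], [(nat_lit 0), (nat_lit 0), (nat_lit 1280)], [((nat_lit 0), (nat_lit 0), (nat_lit 0)), ((nat_lit 0), (nat_lit 0), (nat_lit 0)), ((nat_lit 800), (nat_lit 1000), (nat_lit 600))], ((nat_lit 100), (nat_lit 80), (nat_lit 60))⟩, (nat_lit 1226213), (nat_lit 300), (nat_lit 1121), (nat_lit 29596300), (nat_lit 1857849), [(nat_lit 2631250000), (nat_lit 4143482000), (nat_lit 4998112000)], [], [(nat_lit 19495808141), (nat_lit 19345840288), (nat_lit 19769789199), (nat_lit 19639840545), (nat_lit 16683378185), (nat_lit 16480277121), (nat_lit 16659491621), (nat_lit 16467778197)], (nat_lit 1271251), (nat_lit 1271251), (nat_lit 1271251), (nat_lit 1271251), (nat_lit 54688), (nat_lit 780000), [(nat_lit 1412501), (nat_lit 1271251), (nat_lit 1271251)], [(nat_lit 23), (nat_lit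 62), (nat_lit 401), (nat_lit 175), (nat_lit 10)]⟩⟩))) (.leaf ⟨(nat_lit 724), (nat_lit 143), (nat_lit 0), (nat_lit 133), (nat_lit 0), (nat_lit 3347), (nat_lit 2404), (nat_lit 1295), (nat_lit 0), (nat_lit 0), (nat_lit 394150), [((nat_lit 380), [((nat_lit 24), (nat_lit 0), (nat_lit 115)), ((nat_lit 41), (nat_lit 2), (nat_lit 609))])], ⟨(nat_lit 7), false, false, false, (nat_lit 242), (nat_lit 2236), (nat_lit 3163), [(nat_lit 1512044), (nat_lit 1519444), (nat_lit 1556227), (nat_lit 1564865), (nat_lit 1649422), (nat_lit 1647962), (nat_lit 1693606), (nat_lit 1693384)]⟩, ⟨(nat_lit 6), false, true, true, (nat_lit 253), (nat_lit 2236), (nat_lit 3163), [(nat_lit 1538797), (nat_lit 1534240), (nat_lit 1583107), (nat_lit 1579788), (nat_lit 1691180), (nat_lit 1676779), (nat_lit 1735490), (nat_lit 1722327)]⟩, (nat_lit 5464021), (nat_lit 36084712), (nat_lit 14888691), (nat_lit 16026597), (nat_lit 6), (nat_lit 0), [⟨(nat_lit 0), (nat_lit 82), (nat_lit 44), (nat_lit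 100), (nat_lit 138825025)⟩], [⟨(nat_lit 1), (nat_lit 85), (nat_lit 53), (nat_lit 100), (nat_lit 319080568)⟩], [⟨(nat_lit 1), (nat_lit 50), (nat_lit 87), (nat_lit 100), (nat_lit 9392472)⟩], [],
 ⟨⟨[(nat_lit 40), (nat_lit 60), (nat_lit 80)], [(nat_lit 0), (nat_lit 832), (nat_lit 1534)], [((nat_lit 0), (nat_lit 0), (nat_lit 0)), ((nat_lit 1000), (nat_lit 659), (nat_lit 528)), ((nat_lit 1000), (nat_lit 650), (nat_lit 549))], ((nat_lit 63), (nat_lit 100), (nat_lit 62))⟩, (nat_lit 685795), (nat_lit 154), (nat_lit 154), (nat_lit 0), (nat_lit 282686), [(nat_lit 1460297632), (nat_lit 1461832788), (nat_lit 1457876800)], [(nat_lit 0), (nat_lit 0), (nat_lit 0)], [(nat_lit 22335830460), (nat_lit 23558039092), (nat_lit 24382553356), (nat_lit 25443077374), (nat_lit 26758375416), (nat_lit 27915433054), (nat_lit 28265020887), (nat_lit 29271460550)], (nat_lit 1271251), (nat_lit 1271251), (nat_lit 1017188), (nat_lit 1779376), (nat_lit 1271251), (nat_lit 1271251),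 [(nat_lit 490000), (nat_lit 780000), (nat_lit 1100000)], [(nat_lit 2), (nat_lit 44), (nat_lit 272), (nat_lit 60), (nat_lit 10)]⟩,
 ⟨⟨[(nat_lit 60), (nat_lit 100), (nat_lit 140)], [(nat_lit 0), (nat_lit 0), (nat_lit 2047)], [((nat_lit 0), (nat_lit 0), (nat_lit 0)), ((nat_lit 0), (nat_lit 0), (nat_lit 0)), ((nat_lit 1000), (nat_lit 993), (nat_lit 781))], ((nat_lit 94), (nat_lit 100), (nat_lit 62))⟩, (nat_lit 914836), (nat_lit 522), (nat_lit 522), (nat_lit 0), (nat_lit 919209), [(nat_lit 905832000), (nat_lit 1725000000), (nat_lit 2716392000)], [], [(nat_lit 6617230280), (nat_lit 6789590258), (nat_lit 6614333908), (nat_lit 7006386256), (nat_lit 9088830677), (nat_lit 9708533282), (nat_lit 12107485080), (nat_lit 9971901296)], (nat_lit 1271251), (nat_lit 1271251), (nat_lit 1017188), (nat_lit 1779376), (nat_lit 780000), (nat_lit 3072501), [(nat_lit 780000), (nat_lit 1435001), (nat_lit 1271251)], [(nat_lit 11), (nat_lit 55), (nat_lit 401), (nat_lit 175),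 (nat_lit 11)]⟩,
 ⟨⟨[(nat_lit 120), (nat_lit 160), (nat_lit 180)], [(nat_lit 0), (nat_lit 533), (nat_lit 2066)], [((nat_lit 0), (nat_lit 0), (nat_lit 0)), ((nat_lit 960), (nat_lit 1000), (nat_lit 200)), ((nat_lit 615), (nat_lit 1000), (nat_lit 729))], ((nat_lit 100), (nat_lit 74), (nat_lit 60))⟩, (nat_lit 374782), (nat_lit 300), (nat_lit 1330), (nat_lit 8831200), (nat_lit 2314264), [(nat_lit 1059744000), (nat_lit 1578976000), (nat_lit 1869714000)], [], [(nat_lit 7179785109), (nat_lit 7030845479), (nat_lit 6928600739), (nat_lit 6775527427), (nat_lit 6305169080), (nat_lit 6155816184), (nat_lit 6114926845), (nat_lit 5974291000)], (nat_lit 1271251), (nat_lit 1271251), (nat_lit 1271251), (nat_lit 1271251), (nat_lit 780000), (nat_lit 3072501), [(nat_lit 1695001), (nat_lit 1271251), (nat_lit 1271251)], [(nat_lit 28), (nat_lit 65), (nat_lit 483), (nat_lit 250), (nat_lit 11)]⟩⟩)))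
noncomputable def c17_48 : Tr Lf :=
 (.spl (nat_lit 5) (nat_lit 200) (.leaf ⟨(nat_lit 0), (nat_lit 1000), (nat_lit 0), (nat_lit 0), (nat_lit 0), (nat_lit 4636), (nat_lit 6736), (nat_lit 0), (nat_lit 0), (nat_lit 0), (nat_lit 0), [], Pd.none, Pd.none, (nat_lit 0), (nat_lit 1), (nat_lit 0), (nat_lit 0), (nat_lit 6), (nat_lit 0), [], [⟨(nat_lit 1), (nat_lit 86), (nat_lit 60), (nat_lit 100), (nat_lit 612377637)⟩], [], [⟨(nat_lit 0), (nat_lit 100), (nat_lit 86), (nat_lit 92), (nat_lit 3326374)⟩],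
 ⟨⟨[(nat_lit 40), (nat_lit 60), (nat_lit 80)], [(nat_lit 0), (nat_lit 832), (nat_lit 1534)], [((nat_lit 0), (nat_lit 0), (nat_lit 0)), ((nat_lit 1000), (nat_lit 659), (nat_lit 528)), ((nat_lit 1000), (nat_lit 650), (nat_lit 549))], ((nat_lit 63), (nat_lit 100), (nat_lit 62))⟩, (nat_lit 947275), (nat_lit 282), (nat_lit 282), (nat_lit 0), (nat_lit 720047), [(nat_lit 2032000044), (nat_lit 3282000189), (nat_lit 4688000000)], [], [(nat_lit 27030499059), (nat_lit 27907261347), (nat_lit 32789215512), (nat_lit 33756980380), (nat_lit 28922731989), (nat_lit 29687886487), (nat_lit 34588162536), (nat_lit 35419368744)], (nat_lit 1271251), (nat_lit 1271251), (nat_lit 1271251), (nat_lit 1271251), (nat_lit 1271251), (nat_lit 1271251), [(nat_lit 490000), (nat_lit 780000), (nat_lit 1100000)], [(nat_lit 2), (nat_lit 44), (nat_lit 207), (nat_lit 0), (nat_lit 7)]⟩,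
 ⟨⟨[(nat_lit 80), (nat_lit 120), (nat_lit 160)], [(nat_lit 0), (nat_lit 0), (nat_lit 2132)], [((nat_lit 0), (nat_lit 0), (nat_lit 0)), ((nat_lit 0), (nat_lit 0), (nat_lit 0)), ((nat_lit 858), (nat_lit 1000), (nat_lit 713))], ((nat_lit 100), (nat_lit 92), (nat_lit 61))⟩, (nat_lit 3015561), (nat_lit 245), (nat_lit 245), (nat_lit 0), (nat_lit 0), [(nat_lit 4688000000), (nat_lit 7968000000), (nat_lit 11872000000)], [], [(nat_lit 27538880368), (nat_lit 32082716780), (nat_lit 38021443260), (nat_lit 40546632332), (nat_lit 24803878412), (nat_lit 27845018028), (nat_lit 32580647660), (nat_lit 35105823712)], (nat_lit 0), (nat_lit 0), (nat_lit 0), (nat_lit 0), (nat_lit 0), (nat_lit 0), [], [(nat_lit 18), (nat_lit 59), (nat_lit 483), (nat_lit 250), (nat_lit 12)]⟩,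
 Rw.none⟩) (.spl (nat_lit 3) (nat_lit 320) (.leaf ⟨(nat_lit 35), (nat_lit 965), (nat_lit 0), (nat_lit 0), (nat_lit 0), (nat_lit 4304), (nat_lit 5321), (nat_lit 0), (nat_lit 0), (nat_lit 0), (nat_lit 140000), [((nat_lit 380), [((nat_lit 41), (nat_lit 5), (nat_lit 35))])], ⟨(nat_lit 6), true, false, false, (nat_lit 283), (nat_lit 2236), (nat_lit 3163), [(nat_lit 1605240), (nat_lit 1602541), (nat_lit 1693606), (nat_lit 1693384), (nat_lit 1727168), (nat_lit 1716594), (nat_lit 1815720), (nat_lit 1807623)]⟩, ⟨(nat_lit 6), false, false, true, (nat_lit 222), (nat_lit 2236), (nat_lit 3163), [(nat_lit 1472332), (nat_lit 1465917), (nat_lit 1538797), (nat_lit 1534240), (nat_lit 1579000), (nat_lit 1565693), (nat_lit 1645465), (nat_lit 1634017)]⟩, (nat_lit 5463820), (nat_lit 35310753), (nat_lit 18945545), (nat_lit 12743702), (nat_lit 6), (nat_lit 0), [], [⟨(nat_lit 1), (nat_lit 86), (nat_lit 60), (nat_lit 100), (nat_lit 597004081)⟩], [⟨(nat_lit 1), (nat_lit 64),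 (nat_lit 95), (nat_lit 100), (nat_lit 2773149)⟩, ⟨(nat_lit 1), (nat_lit 30), (nat_lit 98), (nat_lit 100), (nat_lit 457158372)⟩], [],
 ⟨⟨[(nat_lit 40), (nat_lit 60), (nat_lit 80)], [(nat_lit 0), (nat_lit 832), (nat_lit 1534)], [((nat_lit 0), (nat_lit 0), (nat_lit 0)), ((nat_lit 1000), (nat_lit 659), (nat_lit 528)), ((nat_lit 1000), (nat_lit 650), (nat_lit 549))], ((nat_lit 63), (nat_lit 100), (nat_lit 62))⟩, (nat_lit 1980985), (nat_lit 271), (nat_lit 271), (nat_lit 0), (nat_lit 720047), [(nat_lit 1896298003), (nat_lit 3044480787), (nat_lit 3926274000)], [(nat_lit 0), (nat_lit 0), (nat_lit 0)], [(nat_lit 25537849490), (nat_lit 26518556322), (nat_lit 28124606368), (nat_lit 29304700816), (nat_lit 27703893942), (nat_lit 28913886065), (nat_lit 30509579350), (nat_lit 31521777265)], (nat_lit 1271251), (nat_lit 1271251), (nat_lit 1271251), (nat_lit 1271251), (nat_lit 1271251), (nat_lit 1271251), [(nat_lit 490000), (nat_lit 780000), (nat_lit 1100000)], [(nat_lit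 2), (nat_lit 44), (nat_lit 203), (nat_lit 0), (nat_lit 6)]⟩,
 ⟨⟨[(nat_lit 80), (nat_lit 120), (nat_lit 160)], [(nat_lit 0), (nat_lit 0), (nat_lit 2132)], [((nat_lit 0), (nat_lit 0), (nat_lit 0)), ((nat_lit 0), (nat_lit 0), (nat_lit 0)), ((nat_lit 858), (nat_lit 1000), (nat_lit 713))], ((nat_lit 100), (nat_lit 92), (nat_lit 61))⟩, (nat_lit 39562), (nat_lit 92), (nat_lit 92), (nat_lit 0), (nat_lit 0), [(nat_lit 4523920000), (nat_lit 7689120000), (nat_lit 11456480000)], [], [(nat_lit 16885477794), (nat_lit 21683503532), (nat_lit 21683503532), (nat_lit 25507191054), (nat_lit 28114669192), (nat_lit 30715304576), (nat_lit 30715304576), (nat_lit 33067145632)], (nat_lit 0), (nat_lit 0), (nat_lit 0), (nat_lit 0), (nat_lit 0), (nat_lit 0), [], [(nat_lit 18), (nat_lit 59), (nat_lit 538), (nat_lit 300), (nat_lit 13)]⟩,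
 Rw.none⟩) (.leaf ⟨(nat_lit 35), (nat_lit 965), (nat_lit 0), (nat_lit 0), (nat_lit 0), (nat_lit 4028), (nat_lit 6890), (nat_lit 0), (nat_lit 0), (nat_lit 0), (nat_lit 140000), [((nat_lit 380), [((nat_lit 41), (nat_lit 5), (nat_lit 35))])], ⟨(nat_lit 8), true, false, true, (nat_lit 330), (nat_lit 2236), (nat_lit 3163), [(nat_lit 1727168), (nat_lit 1716594), (nat_lit 1815720), (nat_lit 1807623), (nat_lit 1849075), (nat_lit 1830625), (nat_lit 1937695), (nat_lit 1921722)]⟩, ⟨(nat_lit 6), false, false, true, (nat_lit 222), (nat_lit 2236), (nat_lit 3163), [(nat_lit 1472332), (nat_lit 1465917), (nat_lit 1538797), (nat_lit 1534240), (nat_lit 1579000), (nat_lit 1565693), (nat_lit 1645465), (nat_lit 1634017)]⟩, (nat_lit 5542019), (nat_lit 32302622), (nat_lit 22819073), (nat_lit 11878305), (nat_lit 6), (nat_lit 0), [], [⟨(nat_lit 1), (nat_lit 86), (nat_lit 60), (nat_lit 100), (nat_lit 551925793)⟩], [⟨(nat_lit 1), (nat_lit 30), (nat_lit 98), (nat_lit 100),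 (nat_lit 358521690)⟩], [],
 ⟨⟨[(nat_lit 40), (nat_lit 60), (nat_lit 80)], [(nat_lit 0), (nat_lit 832), (nat_lit 1534)], [((nat_lit 0), (nat_lit 0), (nat_lit 0)), ((nat_lit 1000), (nat_lit 659), (nat_lit 528)), ((nat_lit 1000), (nat_lit 650), (nat_lit 549))], ((nat_lit 63), (nat_lit 100), (nat_lit 62))⟩, (nat_lit 1748876), (nat_lit 282), (nat_lit 282), (nat_lit 0), (nat_lit 720047), [(nat_lit 1896298002), (nat_lit 3025659223), (nat_lit 3926274000)], [(nat_lit 0), (nat_lit 0), (nat_lit 0)], [(nat_lit 28946284124), (nat_lit 29762363788), (nat_lit 32008639576), (nat_lit 32923895740), (nat_lit 30732508431), (nat_lit 31448873764), (nat_lit 33792692728), (nat_lit 34584897712)], (nat_lit 1271251), (nat_lit 1271251), (nat_lit 1271251), (nat_lit 1271251), (nat_lit 1271251), (nat_lit 1271251), [(nat_lit 490000), (nat_lit 780000), (nat_lit 1100000)], [(nat_lit 2), (nat_lit 44), (nat_lit 207), (nat_lit 0), (nat_lit 6)]⟩,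
 ⟨⟨[(nat_lit 80), (nat_lit 120), (nat_lit 160)], [(nat_lit 0), (nat_lit 0), (nat_lit 2132)], [((nat_lit 0), (nat_lit 0), (nat_lit 0)), ((nat_lit 0), (nat_lit 0), (nat_lit 0)), ((nat_lit 858), (nat_lit 1000), (nat_lit 713))], ((nat_lit 100), (nat_lit 92), (nat_lit 61))⟩, (nat_lit 40445), (nat_lit 109), (nat_lit 109), (nat_lit 0), (nat_lit 0), [(nat_lit 4523920000), (nat_lit 7689120000), (nat_lit 11456480000)], [], [(nat_lit 25635627680), (nat_lit 29052833140), (nat_lit 31211858440), (nat_lit 33768217820), (nat_lit 33956149800), (nat_lit 35696704760), (nat_lit 37337865620), (nat_lit 38656546280)], (nat_lit 0), (nat_lit 0), (nat_lit 0), (nat_lit 0), (nat_lit 0), (nat_lit 0), [], [(nat_lit 18), (nat_lit 59), (nat_lit 428), (nat_lit 200), (nat_lit 10)]⟩,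
 Rw.none⟩)))
noncomputable def c17_49 : Tr Lf :=
 (.spl (nat_lit 2) (nat_lit 140) (.trX (nat_lit 4) (nat_lit 0) (nat_lit 2) (nat_lit 63) (nat_lit 99) (nat_lit 100) (nat_lit 270) (.trX (nat_lit 5) (nat_lit 1) (nat_lit 2) (nat_lit 100) (nat_lit 49) (nat_lit 97) (nat_lit 380) (.stt (nat_lit 1) (.spl (nat_lit 1) (nat_lit 260) (.leaf ⟨(nat_lit 927), (nat_lit 73), (nat_lit 0), (nat_lit 0), (nat_lit 0), (nat_lit 3185), (nat_lit 654), (nat_lit 0), (nat_lit 0), (nat_lit 0), (nat_lit 231750), [((nat_lit 380), [((nat_lit 24), (nat_lit 0), (nat_lit 927))])], ⟨(nat_lit 6), false, true, true, (nat_lit 270), (nat_lit 2236), (nat_lit 3163), [(nat_lit 1605240), (nat_lit 1602541), (nat_lit 1627331), (nat_lit 1625251), (nat_lit 1727168), (nat_lit 1716594), (nat_lit 1749323), (nat_lit 1739368)]⟩, ⟨(nat_lit 6), false, false, true, (nat_lit 201), (nat_lit 2236), (nat_lit 3163), [(nat_lit 1472332), (nat_lit 1465917), (nat_lit 1494487), (nat_lit 1488691), (nat_lit 1518047),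 (nat_lit 1508679), (nat_lit 1540202), (nat_lit 1531453)]⟩, (nat_lit 5295203), (nat_lit 37367173), (nat_lit 18262309), (nat_lit 11370518), (nat_lit 6), (nat_lit 0), [], [⟨(nat_lit 1), (nat_lit 99), (nat_lit 63), (nat_lit 100), (nat_lit 269914751)⟩], [⟨(nat_lit 1), (nat_lit 59), (nat_lit 100), (nat_lit 97), (nat_lit 7979368)⟩], [],
 ⟨⟨[(nat_lit 40), (nat_lit 60), (nat_lit 80)], [(nat_lit 0), (nat_lit 832), (nat_lit 1534)], [((nat_lit 0), (nat_lit 0), (nat_lit 0)), ((nat_lit 1000), (nat_lit 659), (nat_lit 528)), ((nat_lit 1000), (nat_lit 650), (nat_lit 549))], ((nat_lit 63), (nat_lit 100), (nat_lit 62))⟩, (nat_lit 0), (nat_lit 55), (nat_lit 55), (nat_lit 0), (nat_lit 0), [(nat_lit 1546226802), (nat_lit 1511955888), (nat_lit 1923315200)], [(nat_lit 0), (nat_lit 0), (nat_lit 0)], [(nat_lit 24498691490), (nat_lit 25552710770), (nat_lit 27235805254), (nat_lit 28205950240), (nat_lit 25521606272), (nat_lit 26518101457), (nat_lit 28131330190), (nat_lit 29108975118)],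 (nat_lit 0), (nat_lit 0), (nat_lit 0), (nat_lit 0), (nat_lit 0), (nat_lit 0), [], [(nat_lit 2), (nat_lit 44), (nat_lit 203), (nat_lit 0), (nat_lit 6)]⟩,
 ⟨⟨[(nat_lit 80), (nat_lit 120), (nat_lit 160)], [(nat_lit 0), (nat_lit 0), (nat_lit 2132)], [((nat_lit 0), (nat_lit 0), (nat_lit 0)), ((nat_lit 0), (nat_lit 0), (nat_lit 0)), ((nat_lit 858), (nat_lit 1000), (nat_lit 713))], ((nat_lit 100), (nat_lit 92), (nat_lit 61))⟩, (nat_lit 168130), (nat_lit 838), (nat_lit 838), (nat_lit 0), (nat_lit 1279878), [(nat_lit 342224000), (nat_lit 581664000), (nat_lit 866656000)], [], [(nat_lit 2920584413), (nat_lit 2932031014), (nat_lit 2966370817), (nat_lit 2971961169), (nat_lit 2560579009), (nat_lit 2555269166), (nat_lit 2539339637), (nat_lit 2530484333)], (nat_lit 1271251), (nat_lit 1271251), (nat_lit 1271251), (nat_lit 1271251), (nat_lit 54688), (nat_lit 2702501), [(nat_lit 1100000), (nat_lit 1785001), (nat_lit 1271251)], [(nat_lit 18), (nat_lit 59), (nat_lit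 483), (nat_lit 250), (nat_lit 12)]⟩,
 Rw.none⟩) (.trX (nat_lit 5) (nat_lit 1) (nat_lit 2) (nat_lit 100) (nat_lit 60) (nat_lit 100) (nat_lit 370) (.leaf ⟨(nat_lit 859), (nat_lit 141), (nat_lit 0), (nat_lit 0), (nat_lit 0), (nat_lit 3239), (nat_lit 1024), (nat_lit 0), (nat_lit 0), (nat_lit 0), (nat_lit 214750), [((nat_lit 380), [((nat_lit 24), (nat_lit 0), (nat_lit 859))])], ⟨(nat_lit 6), false, true, true, (nat_lit 279), (nat_lit 2236), (nat_lit 3163), [(nat_lit 1627331), (nat_lit 1625251), (nat_lit 1649422), (nat_lit 1647962), (nat_lit 1749323), (nat_lit 1739368), (nat_lit 1771478), (nat_lit 1762142)]⟩, ⟨(nat_lit 6), false, false, true, (nat_lit 201), (nat_lit 2236), (nat_lit 3163), [(nat_lit 1472332), (nat_lit 1465917), (nat_lit 1494487), (nat_lit 1488691), (nat_lit 1518047), (nat_lit 1508679), (nat_lit 1540202), (nat_lit 1531453)]⟩, (nat_lit 5324296), (nat_lit 36736499), (nat_lit 19032939), (nat_lit 11230562), (nat_lit 6), (nat_lit 0), [], [⟨(nat_lit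 1), (nat_lit 99), (nat_lit 63), (nat_lit 100), (nat_lit 284479790)⟩], [⟨(nat_lit 1), (nat_lit 70), (nat_lit 100), (nat_lit 100), (nat_lit 20702747)⟩], [],
 ⟨⟨[(nat_lit 40), (nat_lit 60), (nat_lit 80)], [(nat_lit 0), (nat_lit 832), (nat_lit 1534)], [((nat_lit 0), (nat_lit 0), (nat_lit 0)), ((nat_lit 1000), (nat_lit 659), (nat_lit 528)), ((nat_lit 1000), (nat_lit 650), (nat_lit 549))], ((nat_lit 63), (nat_lit 100), (nat_lit 62))⟩, (nat_lit 0), (nat_lit 55), (nat_lit 55), (nat_lit 0), (nat_lit 0), [(nat_lit 1564695677), (nat_lit 1637186882), (nat_lit 2126118400)], [(nat_lit 0), (nat_lit 0), (nat_lit 0)], [(nat_lit 24576990879), (nat_lit 25638488511), (nat_lit 27315798529), (nat_lit 28258973056), (nat_lit 25604043748), (nat_lit 26607336056), (nat_lit 28180331086), (nat_lit 29164273305)], (nat_lit 0), (nat_lit 0), (nat_lit 0), (nat_lit 0), (nat_lit 0), (nat_lit 0), [], [(nat_lit 2), (nat_lit 44), (nat_lit 203), (nat_lit 0), (nat_lit 6)]⟩,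
 ⟨⟨[(nat_lit 80), (nat_lit 120), (nat_lit 140)], [(nat_lit 0), (nat_lit 528), (nat_lit 1572)], [((nat_lit 0), (nat_lit 0), (nat_lit 0)), ((nat_lit 1000), (nat_lit 959), (nat_lit 206)), ((nat_lit 966), (nat_lit 1000), (nat_lit 679))], ((nat_lit 100), (nat_lit 99), (nat_lit 63))⟩, (nat_lit 517803), (nat_lit 725), (nat_lit 725), (nat_lit 0), (nat_lit 1185843), [(nat_lit 661008000), (nat_lit 1123488000), (nat_lit 1387722000)], [], [(nat_lit 4833464076), (nat_lit 4877007598), (nat_lit 4996054349), (nat_lit 5028014056), (nat_lit 4573498764), (nat_lit 4584325484), (nat_lit 4611700248), (nat_lit 4643739250)], (nat_lit 1271251), (nat_lit 1271251), (nat_lit 1271251), (nat_lit 1271251), (nat_lit 54688), (nat_lit 2630938), [(nat_lit 1100000), (nat_lit 1785001), (nat_lit 1271251)], [(nat_lit 17), (nat_lit 58), (nat_lit 483), (nat_lit 250), (nat_lit 13)]⟩,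
 Rw.none⟩))) (.leaf ⟨(nat_lit 0), (nat_lit 683), (nat_lit 0), (nat_lit 317), (nat_lit 0), (nat_lit 4378), (nat_lit 10018), (nat_lit 3884), (nat_lit 0), (nat_lit 0), (nat_lit 0), [], Pd.none, Pd.none, (nat_lit 0), (nat_lit 1), (nat_lit 0), (nat_lit 0), (nat_lit 6), (nat_lit 0), [], [⟨(nat_lit 1), (nat_lit 100), (nat_lit 54), (nat_lit 96), (nat_lit 1118938881)⟩], [], [],
 ⟨⟨[(nat_lit 40), (nat_lit 60), (nat_lit 80)], [(nat_lit 0), (nat_lit 832), (nat_lit 1534)], [((nat_lit 0), (nat_lit 0), (nat_lit 0)), ((nat_lit 1000), (nat_lit 659), (nat_lit 528)), ((nat_lit 1000), (nat_lit 650), (nat_lit 549))], ((nat_lit 63), (nat_lit 100), (nat_lit 62))⟩, (nat_lit 1414213), (nat_lit 135), (nat_lit 135), (nat_lit 0), (nat_lit 293099), [(nat_lit 2032000003), (nat_lit 3282000010), (nat_lit 4688000000)], [], [(nat_lit 25073281400), (nat_lit 26235037156), (nat_lit 28187705576), (nat_lit 29377361712), (nat_lit 26073712732), (nat_lit 27413408865), (nat_lit 29213887022),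 (nat_lit 30330655434)], (nat_lit 1271251), (nat_lit 1271251), (nat_lit 1271251), (nat_lit 1271251), (nat_lit 1271251), (nat_lit 1271251), [(nat_lit 490000), (nat_lit 780000), (nat_lit 1100000)], [(nat_lit 2), (nat_lit 44), (nat_lit 203), (nat_lit 0), (nat_lit 6)]⟩,
 ⟨⟨[(nat_lit 80), (nat_lit 120), (nat_lit 160)], [(nat_lit 0), (nat_lit 0), (nat_lit 2132)], [((nat_lit 0), (nat_lit 0), (nat_lit 0)), ((nat_lit 0), (nat_lit 0), (nat_lit 0)), ((nat_lit 858), (nat_lit 1000), (nat_lit 713))], ((nat_lit 100), (nat_lit 92), (nat_lit 61))⟩, (nat_lit 3925191), (nat_lit 425), (nat_lit 425), (nat_lit 0), (nat_lit 458381), [(nat_lit 4688000000), (nat_lit 7968000000), (nat_lit 11872000000)], [], [(nat_lit 27487168954), (nat_lit 29434189231), (nat_lit 31951676166), (nat_lit 33899265798), (nat_lit 33805405394), (nat_lit 32741780354), (nat_lit 34915300272), (nat_lit 36503225048)], (nat_lit 1271251), (nat_lit 1271251), (nat_lit 1271251), (nat_lit 1271251), (nat_lit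 54688), (nat_lit 2702501), [(nat_lit 1100000), (nat_lit 1785001), (nat_lit 1271251)], [(nat_lit 18), (nat_lit 59), (nat_lit 483), (nat_lit 250), (nat_lit 12)]⟩,
 ⟨⟨[(nat_lit 140), (nat_lit 180), (nat_lit 200)], [(nat_lit 0), (nat_lit 0), (nat_lit 2835)], [((nat_lit 0), (nat_lit 0), (nat_lit 0)), ((nat_lit 0), (nat_lit 0), (nat_lit 0)), ((nat_lit 363), (nat_lit 1000), (nat_lit 798))], ((nat_lit 0), (nat_lit 0), (nat_lit 0))⟩, (nat_lit 87217), (nat_lit 300), (nat_lit 964), (nat_lit 24757700), (nat_lit 1149832), [(nat_lit 3119914000), (nat_lit 4456386000), (nat_lit 5198800000)], [], [(nat_lit 21587459839), (nat_lit 21256489003), (nat_lit 21400773587), (nat_lit 21072345510), (nat_lit 18594033832), (nat_lit 19537135278), (nat_lit 16720849151), (nat_lit 17044018011)], (nat_lit 780000), (nat_lit 936250), (nat_lit 1271251), (nat_lit 1271251), (nat_lit 54688), (nat_lit 2702501), [(nat_lit 1977501), (nat_lit 1271251), (nat_lit 1271251)], [(nat_lit 32), (nat_lit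 67), (nat_lit 428), (nat_lit 200), (nat_lit 9)]⟩⟩)))) (.spl (nat_lit 1) (nat_lit 260) (.leaf ⟨(nat_lit 898), (nat_lit 69), (nat_lit 0), (nat_lit 33), (nat_lit 0), (nat_lit 3320), (nat_lit 984), (nat_lit 382), (nat_lit 0), (nat_lit 0), (nat_lit 359200), [((nat_lit 380), [((nat_lit 24), (nat_lit 1), (nat_lit 898))])], ⟨(nat_lit 6), false, true, true, (nat_lit 270), (nat_lit 2236), (nat_lit 3163), [(nat_lit 1605240), (nat_lit 1602541), (nat_lit 1627331), (nat_lit 1625251), (nat_lit 1727168), (nat_lit 1716594), (nat_lit 1749323), (nat_lit 1739368)]⟩, ⟨(nat_lit 6), false, false, true, (nat_lit 216), (nat_lit 2236), (nat_lit 3163), [(nat_lit 1494487), (nat_lit 1488691), (nat_lit 1516642), (nat_lit 1511466), (nat_lit 1570679), (nat_lit 1559961), (nat_lit 1592834), (nat_lit 1582735)]⟩, (nat_lit 5389004), (nat_lit 36527374), (nat_lit 17948187), (nat_lit 12524439), (nat_lit 6), (nat_lit 0), [], [⟨(nat_lit 1), (nat_lit 99), (nat_lit 54), (nat_lit 100), (nat_lit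 298069387)⟩], [], [⟨(nat_lit 0), (nat_lit 100), (nat_lit 89), (nat_lit 100), (nat_lit 2308348)⟩],
 ⟨⟨[(nat_lit 40), (nat_lit 60), (nat_lit 80)], [(nat_lit 0), (nat_lit 832), (nat_lit 1534)], [((nat_lit 0), (nat_lit 0), (nat_lit 0)), ((nat_lit 1000), (nat_lit 659), (nat_lit 528)), ((nat_lit 1000), (nat_lit 650), (nat_lit 549))], ((nat_lit 63), (nat_lit 100), (nat_lit 62))⟩, (nat_lit 1151), (nat_lit 126), (nat_lit 126), (nat_lit 0), (nat_lit 249560), [(nat_lit 1419044005), (nat_lit 1274844366), (nat_lit 1335227200)], [(nat_lit 0), (nat_lit 0), (nat_lit 0)], [(nat_lit 24788589416), (nat_lit 25750277336), (nat_lit 27285668376), (nat_lit 28338507280), (nat_lit 26349263766), (nat_lit 27244882165), (nat_lit 28899349090), (nat_lit 29853029455)], (nat_lit 1271251), (nat_lit 1271251), (nat_lit 1271251), (nat_lit 1271251), (nat_lit 1271251), (nat_lit 1271251), [(nat_lit 490000), (nat_lit 780000), (nat_lit 1100000)], [(nat_lit 2), (nat_lit 44), (nat_lit 203),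 (nat_lit 0), (nat_lit 6)]⟩,
 ⟨⟨[(nat_lit 80), (nat_lit 120), (nat_lit 160)], [(nat_lit 0), (nat_lit 0), (nat_lit 2132)], [((nat_lit 0), (nat_lit 0), (nat_lit 0)), ((nat_lit 0), (nat_lit 0), (nat_lit 0)), ((nat_lit 858), (nat_lit 1000), (nat_lit 713))], ((nat_lit 100), (nat_lit 92), (nat_lit 61))⟩, (nat_lit 219625), (nat_lit 781), (nat_lit 781), (nat_lit 0), (nat_lit 1166089), [(nat_lit 478176000), (nat_lit 812736000), (nat_lit 1210944000)], [], [(nat_lit 3622581520), (nat_lit 3642561703), (nat_lit 3702502249), (nat_lit 3712821226), (nat_lit 3576176796), (nat_lit 3406536623), (nat_lit 3619603878), (nat_lit 3694790550)], (nat_lit 1271251), (nat_lit 1271251), (nat_lit 1271251), (nat_lit 1271251), (nat_lit 54688), (nat_lit 2774063), [(nat_lit 1100000), (nat_lit 1785001), (nat_lit 1271251)], [(nat_lit 18), (nat_lit 59), (nat_lit 483), (nat_lit 250), (nat_lit 12)]⟩,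
 ⟨⟨[(nat_lit 140), (nat_lit 180), (nat_lit 200)], [(nat_lit 0), (nat_lit 608), (nat_lit 3317)], [((nat_lit 0), (nat_lit 0), (nat_lit 0)), ((nat_lit 913), (nat_lit 1000), (nat_lit 217)), ((nat_lit 385), (nat_lit 1000), (nat_lit 814))], ((nat_lit 0), (nat_lit 0), (nat_lit 0))⟩, (nat_lit 76204), (nat_lit 300), (nat_lit 1889), (nat_lit 2319900), (nat_lit 3169486), [(nat_lit 324786000), (nat_lit 463914000), (nat_lit 541200000)], [], [(nat_lit 2077735562), (nat_lit 2046956650), (nat_lit 2068148549), (nat_lit 2036503944), (nat_lit 2054053780), (nat_lit 2160917905), (nat_lit 1646646005), (nat_lit 1755991698)], (nat_lit 936250), (nat_lit 1100000), (nat_lit 1271251), (nat_lit 1271251), (nat_lit 54688), (nat_lit 2774063), [(nat_lit 1977501), (nat_lit 1271251), (nat_lit 1271251)], [(nat_lit 32), (nat_lit 67), (nat_lit 578), (nat_lit 225), (nat_lit 12)]⟩⟩) (.trX (nat_lit 5) (nat_lit 1) (nat_lit 2) (nat_lit 97) (nat_lit 49) (nat_lit 100) (nat_lit 380) (.leaf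 ⟨(nat_lit 654), (nat_lit 272), (nat_lit 0), (nat_lit 74), (nat_lit 0), (nat_lit 3427), (nat_lit 2339), (nat_lit 749), (nat_lit 0), (nat_lit 0), (nat_lit 392400), [((nat_lit 380), [((nat_lit 41), (nat_lit 2), (nat_lit 654))])], ⟨(nat_lit 6), false, true, true, (nat_lit 279), (nat_lit 2236), (nat_lit 3163), [(nat_lit 1627331), (nat_lit 1625251), (nat_lit 1649422), (nat_lit 1647962), (nat_lit 1749323), (nat_lit 1739368), (nat_lit 1771478), (nat_lit 1762142)]⟩, ⟨(nat_lit 6), false, false, true, (nat_lit 216), (nat_lit 2236), (nat_lit 3163), [(nat_lit 1494487), (nat_lit 1488691), (nat_lit 1516642), (nat_lit 1511466), (nat_lit 1570679), (nat_lit 1559961), (nat_lit 1592834), (nat_lit 1582735)]⟩, (nat_lit 5417421), (nat_lit 35925835), (nat_lit 18704406), (nat_lit 12369759), (nat_lit 6), (nat_lit 0), [], [⟨(nat_lit 1), (nat_lit 99), (nat_lit 54), (nat_lit 100), (nat_lit 306830909)⟩], [], [],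
 ⟨⟨[(nat_lit 40), (nat_lit 60), (nat_lit 80)], [(nat_lit 0), (nat_lit 832), (nat_lit 1534)], [((nat_lit 0), (nat_lit 0), (nat_lit 0)), ((nat_lit 1000), (nat_lit 659), (nat_lit 528)), ((nat_lit 1000), (nat_lit 650), (nat_lit 549))], ((nat_lit 63), (nat_lit 100), (nat_lit 62))⟩, (nat_lit 11749), (nat_lit 130), (nat_lit 130), (nat_lit 0), (nat_lit 268665), [(nat_lit 1503481621), (nat_lit 1454833142), (nat_lit 1587516858)], [(nat_lit 0), (nat_lit 0), (nat_lit 0)], [(nat_lit 25019738705), (nat_lit 25952667920), (nat_lit 27492796064), (nat_lit 28443571008), (nat_lit 26549916162), (nat_lit 27437251437), (nat_lit 29000347674), (nat_lit 29965607526)], (nat_lit 1271251), (nat_lit 1271251), (nat_lit 1271251), (nat_lit 1271251), (nat_lit 1271251), (nat_lit 1271251), [(nat_lit 490000), (nat_lit 780000), (nat_lit 1100000)], [(nat_lit 2), (nat_lit 44), (nat_lit 203), (nat_lit 0), (nat_lit 6)]⟩,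
 ⟨⟨[(nat_lit 80), (nat_lit 120), (nat_lit 140)], [(nat_lit 0), (nat_lit 528), (nat_lit 1572)], [((nat_lit 0), (nat_lit 0), (nat_lit 0)), ((nat_lit 1000), (nat_lit 959), (nat_lit 206)), ((nat_lit 966), (nat_lit 1000), (nat_lit 679))], ((nat_lit 100), (nat_lit 99), (nat_lit 63))⟩, (nat_lit 1968416), (nat_lit 669), (nat_lit 669), (nat_lit 0), (nat_lit 1083145), [(nat_lit 1622048000), (nat_lit 2756928000), (nat_lit 3405332000)], [], [(nat_lit 11219560257), (nat_lit 11356129503), (nat_lit 11734027402), (nat_lit 11838786807), (nat_lit 11009372625), (nat_lit 11053813126), (nat_lit 11217067990), (nat_lit 11459956261)], (nat_lit 1271251), (nat_lit 1271251), (nat_lit 1271251), (nat_lit 1271251), (nat_lit 54688), (nat_lit 2702501), [(nat_lit 1100000), (nat_lit 1785001), (nat_lit 1271251)], [(nat_lit 17), (nat_lit 58), (nat_lit 483), (nat_lit 250), (nat_lit 13)]⟩,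
 ⟨⟨[(nat_lit 140), (nat_lit 180), (nat_lit 200)], [(nat_lit 0), (nat_lit 608), (nat_lit 3317)], [((nat_lit 0), (nat_lit 0), (nat_lit 0)), ((nat_lit 913), (nat_lit 1000), (nat_lit 217)), ((nat_lit 385), (nat_lit 1000), (nat_lit 814))], ((nat_lit 0), (nat_lit 0), (nat_lit 0))⟩, (nat_lit 170882), (nat_lit 300), (nat_lit 2014), (nat_lit 5202200), (nat_lit 3417180), [(nat_lit 728308000), (nat_lit 1040292000), (nat_lit 1213600000)], [], [(nat_lit 5154116976), (nat_lit 5101017007), (nat_lit 5053673000), (nat_lit 5000663368), (nat_lit 4452526343), (nat_lit 4667129411), (nat_lit 4151661993), (nat_lit 4100387093)], (nat_lit 936250), (nat_lit 1100000), (nat_lit 1271251), (nat_lit 1271251), (nat_lit 54688), (nat_lit 2702501), [(nat_lit 1977501), (nat_lit 1271251), (nat_lit 1271251)], [(nat_lit 32), (nat_lit 67), (nat_lit 608), (nat_lit 225), (nat_lit 13)]⟩⟩))))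
noncomputable def c17_50 : Tr Lf :=
 (.trZ (nat_lit 3) (nat_lit 4) (nat_lit 5) (nat_lit 100) (nat_lit 82) (nat_lit 76) (nat_lit 60) (.spl (nat_lit 2) (nat_lit 140) (.trX (nat_lit 4) (nat_lit 0) (nat_lit 2) (nat_lit 63) (nat_lit 99) (nat_lit 100) (nat_lit 270) (.trX (nat_lit 5) (nat_lit 1) (nat_lit 2) (nat_lit 100) (nat_lit 49) (nat_lit 97) (nat_lit 380) (.spl (nat_lit 6) (nat_lit 20) (.stt (nat_lit 1) (.spl (nat_lit 2) (nat_lit 130) (.trX (nat_lit 4) (nat_lit 0) (nat_lit 2) (nat_lit 63) (nat_lit 100) (nat_lit 98) (nat_lit 260) (.trX (nat_lit 5) (nat_lit 1) (nat_lit 2) (nat_lit 100) (nat_lit 54) (nat_lit 96) (nat_lit 370) (.spl (nat_lit 1) (nat_lit 260) (.trX (nat_lit 3) (nat_lit 0) (nat_lit 1) (nat_lit 63) (nat_lit 61) (nat_lit 100) (nat_lit 370) (.leaf ⟨(nat_lit 1000), (nat_lit 0), (nat_lit 0), (nat_lit 0), (nat_lit 0), (nat_lit 3058), (nat_lit 0), (nat_lit 0), (nat_lit 0), (nat_lit 0), (nat_lit 250000), [((nat_lit 380), [((nat_lit 24), (nat_lit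 0), (nat_lit 1000))])], ⟨(nat_lit 8), false, true, true, (nat_lit 308), (nat_lit 2236), (nat_lit 3163), [(nat_lit 1727168), (nat_lit 1716594), (nat_lit 1749323), (nat_lit 1739368), (nat_lit 1803360), (nat_lit 1787863), (nat_lit 1825515), (nat_lit 1810637)]⟩, ⟨(nat_lit 6), false, false, true, (nat_lit 196), (nat_lit 2236), (nat_lit 3163), [(nat_lit 1472332), (nat_lit 1465917), (nat_lit 1483410), (nat_lit 1477304), (nat_lit 1502809), (nat_lit 1494425), (nat_lit 1513886), (nat_lit 1505812)]⟩, (nat_lit 5357373), (nat_lit 34959765), (nat_lit 21656121), (nat_lit 10384114), (nat_lit 0), (nat_lit 0), [⟨(nat_lit 1), (nat_lit 61), (nat_lit 63), (nat_lit 100), (nat_lit 313167570)⟩], [⟨(nat_lit 1), (nat_lit 100), (nat_lit 63), (nat_lit 98), (nat_lit 228423253)⟩], [], [],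
 ⟨⟨[(nat_lit 40), (nat_lit 60)], [(nat_lit 0), (nat_lit 832)], [((nat_lit 0), (nat_lit 0), (nat_lit 0)), ((nat_lit 1000), (nat_lit 659), (nat_lit 528))], ((nat_lit 68), (nat_lit 100), (nat_lit 49))⟩, (nat_lit 0), (nat_lit 65), (nat_lit 65), (nat_lit 0), (nat_lit 0), [(nat_lit 1526400006), (nat_lit 1367200000)], [(nat_lit 0), (nat_lit 0)], [(nat_lit 27296546432), (nat_lit 28220496442), (nat_lit 29407324927), (nat_lit 30277216219), (nat_lit 27889418063), (nat_lit 28781087517), (nat_lit 29928199152), (nat_lit 30797847127)], (nat_lit 0), (nat_lit 0), (nat_lit 0), (nat_lit 0), (nat_lit 0), (nat_lit 0), [], [(nat_lit 1), (nat_lit 38), (nat_lit 203), (nat_lit 0), (nat_lit 7)]⟩,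
 Rw.none,
 Rw.none⟩)) (.trX (nat_lit 5) (nat_lit 1) (nat_lit 2) (nat_lit 100) (nat_lit 64) (nat_lit 98) (nat_lit 360) (.leaf ⟨(nat_lit 840), (nat_lit 160), (nat_lit 0), (nat_lit 0), (nat_lit 0), (nat_lit 2937), (nat_lit 1073), (nat_lit 0), (nat_lit 0), (nat_lit 0), (nat_lit 336000), [((nat_lit 380), [((nat_lit 24), (nat_lit 1), (nat_lit 840))])], ⟨(nat_lit 8), false, true, true, (nat_lit 320), (nat_lit 2236), (nat_lit 3163), [(nat_lit 1749323), (nat_lit 1739368), (nat_lit 1771478), (nat_lit 1762142), (nat_lit 1840753), (nat_lit 1824891), (nat_lit 1862908), (nat_lit 1847666)]⟩, ⟨(nat_lit 6), false, false, true, (nat_lit 196), (nat_lit 2236), (nat_lit 3163), [(nat_lit 1472332), (nat_lit 1465917), (nat_lit 1483410), (nat_lit 1477304), (nat_lit 1502809), (nat_lit 1494425), (nat_lit 1513886), (nat_lit 1505812)]⟩, (nat_lit 5373726), (nat_lit 34143430), (nat_lit 22659348), (nat_lit 10197222), (nat_lit 6), (nat_lit 0), [⟨(nat_lit 1), (nat_lit 54), (nat_lit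 65), (nat_lit 100), (nat_lit 215802854)⟩], [⟨(nat_lit 1), (nat_lit 100), (nat_lit 63), (nat_lit 98), (nat_lit 273302168)⟩], [⟨(nat_lit 1), (nat_lit 72), (nat_lit 100), (nat_lit 99), (nat_lit 29372773)⟩], [],
 ⟨⟨[(nat_lit 40), (nat_lit 60)], [(nat_lit 0), (nat_lit 832)], [((nat_lit 0), (nat_lit 0), (nat_lit 0)), ((nat_lit 1000), (nat_lit 659), (nat_lit 528))], ((nat_lit 68), (nat_lit 100), (nat_lit 49))⟩, (nat_lit 0), (nat_lit 67), (nat_lit 67), (nat_lit 0), (nat_lit 0), [(nat_lit 1443520001), (nat_lit 1348992000)], [(nat_lit 0), (nat_lit 0)], [(nat_lit 27226438132), (nat_lit 28136794397), (nat_lit 29725166473), (nat_lit 30562361076), (nat_lit 27815405154), (nat_lit 28694351972), (nat_lit 30230175678), (nat_lit 31066519485)], (nat_lit 0), (nat_lit 0), (nat_lit 0), (nat_lit 0), (nat_lit 0), (nat_lit 0), [], [(nat_lit 1), (nat_lit 38), (nat_lit 203), (nat_lit 0), (nat_lit 7)]⟩,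
 ⟨⟨[(nat_lit 80), (nat_lit 100), (nat_lit 120)], [(nat_lit 0), (nat_lit 265), (nat_lit 768)], [((nat_lit 0), (nat_lit 0), (nat_lit 0)), ((nat_lit 1000), (nat_lit 959), (nat_lit 206)), ((nat_lit 1000), (nat_lit 958), (nat_lit 392))], ((nat_lit 96), (nat_lit 100), (nat_lit 44))⟩, (nat_lit 505213), (nat_lit 610), (nat_lit 610), (nat_lit 0), (nat_lit 1178034), [(nat_lit 750080000), (nat_lit 1000000000), (nat_lit 1274880000)], [], [(nat_lit 5480868898), (nat_lit 5530819326), (nat_lit 5737943401), (nat_lit 5776626056), (nat_lit 5499745717), (nat_lit 5517673788), (nat_lit 5639184033), (nat_lit 5650731318)], (nat_lit 1271251), (nat_lit 1271251), (nat_lit 1271251), (nat_lit 1271251), (nat_lit 356250), (nat_lit 2643751), [(nat_lit 1100000), (nat_lit 1442501), (nat_lit 1271251)], [(nat_lit 16), (nat_lit 54), (nat_lit 317), (nat_lit 100), (nat_lit 9)]⟩,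
 Rw.none⟩))))) (.leaf ⟨(nat_lit 855), (nat_lit 115), (nat_lit 0), (nat_lit 30), (nat_lit 0), (nat_lit 2862), (nat_lit 1212), (nat_lit 342), (nat_lit 0), (nat_lit 0), (nat_lit 462600), [((nat_lit 380), [((nat_lit 24), (nat_lit 1), (nat_lit 252)), ((nat_lit 41), (nat_lit 2), (nat_lit 603))])], ⟨(nat_lit 8), false, true, true, (nat_lit 315), (nat_lit 2236), (nat_lit 3163), [(nat_lit 1727168), (nat_lit 1716594), (nat_lit 1771478), (nat_lit 1762142), (nat_lit 1818598), (nat_lit 1802117), (nat_lit 1862908), (nat_lit 1847666)]⟩, ⟨(nat_lit 6), false, false, true, (nat_lit 203), (nat_lit 2236), (nat_lit 3163), [(nat_lit 1483410), (nat_lit 1477304), (nat_lit 1494487), (nat_lit 1488691), (nat_lit 1529125), (nat_lit 1520066), (nat_lit 1540202), (nat_lit 1531453)]⟩, (nat_lit 5417221), (nat_lit 34102568), (nat_lit 22093941), (nat_lit 10803491), (nat_lit 6), (nat_lit 0), [⟨(nat_lit 1), (nat_lit 54), (nat_lit 65), (nat_lit 100), (nat_lit 228527405)⟩], [⟨(nat_lit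 1), (nat_lit 99), (nat_lit 63), (nat_lit 100), (nat_lit 232511776)⟩], [], [],
 ⟨⟨[(nat_lit 40), (nat_lit 60)], [(nat_lit 0), (nat_lit 832)], [((nat_lit 0), (nat_lit 0), (nat_lit 0)), ((nat_lit 1000), (nat_lit 659), (nat_lit 528))], ((nat_lit 68), (nat_lit 100), (nat_lit 49))⟩, (nat_lit 0), (nat_lit 67), (nat_lit 67), (nat_lit 0), (nat_lit 0), [(nat_lit 1387985205), (nat_lit 1001155200)], [(nat_lit 0), (nat_lit 0)], [(nat_lit 27174656790), (nat_lit 28076587180), (nat_lit 29652183156), (nat_lit 30466876345), (nat_lit 28054477004), (nat_lit 28910103139), (nat_lit 30407687943), (nat_lit 31222268928)], (nat_lit 0), (nat_lit 0), (nat_lit 0), (nat_lit 0), (nat_lit 0), (nat_lit 0), [], [(nat_lit 1), (nat_lit 38), (nat_lit 203), (nat_lit 0), (nat_lit 7)]⟩,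
 ⟨⟨[(nat_lit 80), (nat_lit 120), (nat_lit 140)], [(nat_lit 0), (nat_lit 0), (nat_lit 1164)], [((nat_lit 0), (nat_lit 0), (nat_lit 0)), ((nat_lit 0), (nat_lit 0), (nat_lit 0)), ((nat_lit 941), (nat_lit 1000), (nat_lit 576))], ((nat_lit 100), (nat_lit 99), (nat_lit 44))⟩, (nat_lit 251317), (nat_lit 683), (nat_lit 683), (nat_lit 0), (nat_lit 1219289), [(nat_lit 679760000), (nat_lit 1155360000), (nat_lit 1427090000)], [], [(nat_lit 5735804616), (nat_lit 5783124888), (nat_lit 5932177930), (nat_lit 5968328966), (nat_lit 5442422893), (nat_lit 5435067341), (nat_lit 5532115264), (nat_lit 5590410060)], (nat_lit 1271251), (nat_lit 1271251), (nat_lit 1271251), (nat_lit 1271251), (nat_lit 356250), (nat_lit 2796251), [(nat_lit 1100000), (nat_lit 1785001), (nat_lit 1271251)], [(nat_lit 17), (nat_lit 58), (nat_lit 401), (nat_lit 175), (nat_lit 11)]⟩,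
 ⟨⟨[(nat_lit 140), (nat_lit 160), (nat_lit 180)], [(nat_lit 0), (nat_lit 151), (nat_lit 943)], [((nat_lit 0), (nat_lit 0), (nat_lit 0)), ((nat_lit 955), (nat_lit 1000), (nat_lit 113)), ((nat_lit 742), (nat_lit 1000), (nat_lit 459))], ((nat_lit 100), (nat_lit 74), (nat_lit 47))⟩, (nat_lit 123975), (nat_lit 300), (nat_lit 2246), (nat_lit 2109000), (nat_lit 4034988), [(nat_lit 295260000), (nat_lit 356160000), (nat_lit 421740000)], [], [(nat_lit 1570146600), (nat_lit 1557963060), (nat_lit 1563254182), (nat_lit 1550856609), (nat_lit 1347854630), (nat_lit 1335022941), (nat_lit 1339793567), (nat_lit 1326759263)], (nat_lit 857188), (nat_lit 936250), (nat_lit 1271251), (nat_lit 1271251), (nat_lit 356250), (nat_lit 2796251), [(nat_lit 1977501), (nat_lit 1271251), (nat_lit 1271251)], [(nat_lit 31), (nat_lit 65), (nat_lit 661), (nat_lit 200), (nat_lit 15)]⟩⟩)) (.leaf ⟨(nat_lit 0), (nat_lit 635), (nat_lit 0), (nat_lit 365), (nat_lit 0), (nat_lit 3821), (nat_lit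 8322), (nat_lit 3681), (nat_lit 0), (nat_lit 0), (nat_lit 0), [], Pd.none, Pd.none, (nat_lit 0), (nat_lit 1), (nat_lit 0), (nat_lit 0), (nat_lit 6), (nat_lit 0), [⟨(nat_lit 1), (nat_lit 68), (nat_lit 55), (nat_lit 100), (nat_lit 130573389)⟩, ⟨(nat_lit 1), (nat_lit 54), (nat_lit 65), (nat_lit 100), (nat_lit 6403310)⟩], [⟨(nat_lit 1), (nat_lit 100), (nat_lit 54), (nat_lit 96), (nat_lit 873455614)⟩], [], [],
 ⟨⟨[(nat_lit 40), (nat_lit 60)], [(nat_lit 0), (nat_lit 832)], [((nat_lit 0), (nat_lit 0), (nat_lit 0)), ((nat_lit 1000), (nat_lit 659), (nat_lit 528))], ((nat_lit 68), (nat_lit 100), (nat_lit 49))⟩, (nat_lit 1289643), (nat_lit 135), (nat_lit 135), (nat_lit 0), (nat_lit 288950), [(nat_lit 2032000026), (nat_lit 3282000000)], [], [(nat_lit 28232862838), (nat_lit 29147766751), (nat_lit 30735352245), (nat_lit 31687807775), (nat_lit 29082710341), (nat_lit 29947989918), (nat_lit 31556091939), (nat_lit 32454005471)], (nat_lit 1271251), (nat_lit 1271251),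 (nat_lit 1271251), (nat_lit 1271251), (nat_lit 1271251), (nat_lit 1271251), [(nat_lit 490000), (nat_lit 780000)], [(nat_lit 1), (nat_lit 38), (nat_lit 203), (nat_lit 0), (nat_lit 7)]⟩,
 ⟨⟨[(nat_lit 80), (nat_lit 120), (nat_lit 140)], [(nat_lit 0), (nat_lit 0), (nat_lit 1164)], [((nat_lit 0), (nat_lit 0), (nat_lit 0)), ((nat_lit 0), (nat_lit 0), (nat_lit 0)), ((nat_lit 941), (nat_lit 1000), (nat_lit 576))], ((nat_lit 100), (nat_lit 99), (nat_lit 44))⟩, (nat_lit 2455973), (nat_lit 350), (nat_lit 350), (nat_lit 0), (nat_lit 448852), [(nat_lit 4688000000), (nat_lit 7968000000), (nat_lit 9842000000)], [], [(nat_lit 31150729152), (nat_lit 32675288690), (nat_lit 35074635176), (nat_lit 36236161541), (nat_lit 34338542702), (nat_lit 34984125993), (nat_lit 37418164780), (nat_lit 38507379105)], (nat_lit 1271251), (nat_lit 1271251), (nat_lit 1271251), (nat_lit 1271251), (nat_lit 356250), (nat_lit 2796251), [(nat_lit 1100000), (nat_lit 1785001), (nat_lit 1271251)],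 [(nat_lit 17), (nat_lit 58), (nat_lit 401), (nat_lit 175), (nat_lit 11)]⟩,
 ⟨⟨[(nat_lit 140), (nat_lit 160), (nat_lit 180)], [(nat_lit 0), (nat_lit 0), (nat_lit 799)], [((nat_lit 0), (nat_lit 0), (nat_lit 0)), ((nat_lit 0), (nat_lit 0), (nat_lit 0)), ((nat_lit 728), (nat_lit 1000), (nat_lit 454))], ((nat_lit 100), (nat_lit 71), (nat_lit 48))⟩, (nat_lit 320688), (nat_lit 300), (nat_lit 839), (nat_lit 27083002), (nat_lit 1113601), [(nat_lit 3592330000), (nat_lit 4333280000), (nat_lit 5131170000)], [], [(nat_lit 22182278347), (nat_lit 21926836305), (nat_lit 22077763051), (nat_lit 21818712528), (nat_lit 22535681410), (nat_lit 23469846137), (nat_lit 20158427193), (nat_lit 21107033403)], (nat_lit 780000), (nat_lit 936250), (nat_lit 1271251), (nat_lit 1271251), (nat_lit 356250), (nat_lit 2796251), [(nat_lit 1977501), (nat_lit 1271251), (nat_lit 1271251)], [(nat_lit 31), (nat_lit 65), (nat_lit 428), (nat_lit 200), (nat_lit 10)]⟩⟩)) (.spl (nat_lit 1) (nat_lit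 260) (.trX (nat_lit 3) (nat_lit 0) (nat_lit 1) (nat_lit 63) (nat_lit 61) (nat_lit 100) (nat_lit 370) (.leaf ⟨(nat_lit 824), (nat_lit 137), (nat_lit 0), (nat_lit 39), (nat_lit 0), (nat_lit 3081), (nat_lit 1512), (nat_lit 429), (nat_lit 0), (nat_lit 0), (nat_lit 417600), [((nat_lit 380), [((nat_lit 24), (nat_lit 1), (nat_lit 384)), ((nat_lit 41), (nat_lit 2), (nat_lit 440))])], ⟨(nat_lit 8), false, true, true, (nat_lit 308), (nat_lit 2236), (nat_lit 3163), [(nat_lit 1727168), (nat_lit 1716594), (nat_lit 1749323), (nat_lit 1739368), (nat_lit 1803360), (nat_lit 1787863), (nat_lit 1825515), (nat_lit 1810637)]⟩, ⟨(nat_lit 6), false, false, true, (nat_lit 201), (nat_lit 2236), (nat_lit 3163), [(nat_lit 1472332), (nat_lit 1465917), (nat_lit 1494487), (nat_lit 1488691), (nat_lit 1518047), (nat_lit 1508679), (nat_lit 1540202), (nat_lit 1531453)]⟩, (nat_lit 5391912), (nat_lit 34710092), (nat_lit 21528038), (nat_lit 10761870), (nat_lit 6), (nat_lit 0), [⟨(nat_lit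 1), (nat_lit 71), (nat_lit 54), (nat_lit 100), (nat_lit 276523324)⟩], [⟨(nat_lit 1), (nat_lit 100), (nat_lit 54), (nat_lit 96), (nat_lit 280972596)⟩], [], [],
 ⟨⟨[(nat_lit 40), (nat_lit 60), (nat_lit 80)], [(nat_lit 0), (nat_lit 832), (nat_lit 1534)], [((nat_lit 0), (nat_lit 0), (nat_lit 0)), ((nat_lit 1000), (nat_lit 659), (nat_lit 528)), ((nat_lit 1000), (nat_lit 650), (nat_lit 549))], ((nat_lit 63), (nat_lit 100), (nat_lit 62))⟩, (nat_lit 0), (nat_lit 121), (nat_lit 121), (nat_lit 0), (nat_lit 196407), [(nat_lit 1414368002), (nat_lit 1209189970), (nat_lit 1168345600)], [(nat_lit 0), (nat_lit 0), (nat_lit 0)], [(nat_lit 27552970394), (nat_lit 28357614043), (nat_lit 29401187271), (nat_lit 30305381838), (nat_lit 28336955986), (nat_lit 29101429054), (nat_lit 30231042617), (nat_lit 31086705676)], (nat_lit 1271251), (nat_lit 1271251), (nat_lit 1271251), (nat_lit 1271251), (nat_lit 1271251), (nat_lit 1271251), [(nat_lit 490000), (nat_lit 780000), (nat_lit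 1100000)], [(nat_lit 2), (nat_lit 44), (nat_lit 203), (nat_lit 0), (nat_lit 6)]⟩,
 ⟨⟨[(nat_lit 80), (nat_lit 120), (nat_lit 160)], [(nat_lit 0), (nat_lit 0), (nat_lit 2132)], [((nat_lit 0), (nat_lit 0), (nat_lit 0)), ((nat_lit 0), (nat_lit 0), (nat_lit 0)), ((nat_lit 858), (nat_lit 1000), (nat_lit 713))], ((nat_lit 100), (nat_lit 92), (nat_lit 61))⟩, (nat_lit 353773), (nat_lit 578), (nat_lit 578), (nat_lit 0), (nat_lit 869177), [(nat_lit 825088000), (nat_lit 1402368000), (nat_lit 2089472000)], [], [(nat_lit 6528623132), (nat_lit 6572567572), (nat_lit 6789673117), (nat_lit 6820276737), (nat_lit 6226744520), (nat_lit 6236515224), (nat_lit 6535987930), (nat_lit 6623573672)], (nat_lit 1271251), (nat_lit 1271251), (nat_lit 1271251), (nat_lit 1271251), (nat_lit 356250), (nat_lit 2796251), [(nat_lit 1100000), (nat_lit 1785001), (nat_lit 1271251)], [(nat_lit 18), (nat_lit 59), (nat_lit 401), (nat_lit 175), (nat_lit 10)]⟩,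
 ⟨⟨[(nat_lit 140), (nat_lit 180), (nat_lit 200)], [(nat_lit 0), (nat_lit 0), (nat_lit 2835)], [((nat_lit 0), (nat_lit 0), (nat_lit 0)), ((nat_lit 0), (nat_lit 0), (nat_lit 0)), ((nat_lit 363), (nat_lit 1000), (nat_lit 798))], ((nat_lit 0), (nat_lit 0), (nat_lit 0))⟩, (nat_lit 10730), (nat_lit 300), (nat_lit 1890), (nat_lit 3045903), (nat_lit 3217441), [(nat_lit 383838000), (nat_lit 548262000), (nat_lit 639600000)], [], [(nat_lit 2760955056), (nat_lit 2729780299), (nat_lit 2725998945), (nat_lit 2694849704), (nat_lit 2438947914), (nat_lit 2545607903), (nat_lit 2294590992), (nat_lit 2270235270)], (nat_lit 780000), (nat_lit 936250), (nat_lit 1271251), (nat_lit 1271251), (nat_lit 356250), (nat_lit 2796251), [(nat_lit 1977501), (nat_lit 1271251), (nat_lit 1271251)], [(nat_lit 32), (nat_lit 67), (nat_lit 572), (nat_lit 200), (nat_lit 12)]⟩⟩)) (.trX (nat_lit 5) (nat_lit 1) (nat_lit 2) (nat_lit 100) (nat_lit 60) (nat_lit 100) (nat_lit 370) (.leaf ⟨(nat_lit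 35), (nat_lit 816), (nat_lit 0), (nat_lit 149), (nat_lit 0), (nat_lit 3943), (nat_lit 6138), (nat_lit 1607), (nat_lit 0), (nat_lit 0), (nat_lit 140000), [((nat_lit 380), [((nat_lit 41), (nat_lit 5), (nat_lit 35))])], ⟨(nat_lit 8), false, true, true, (nat_lit 320), (nat_lit 2236), (nat_lit 3163), [(nat_lit 1749323), (nat_lit 1739368), (nat_lit 1771478), (nat_lit 1762142), (nat_lit 1840753), (nat_lit 1824891), (nat_lit 1862908), (nat_lit 1847666)]⟩, ⟨(nat_lit 6), false, false, true, (nat_lit 201), (nat_lit 2236), (nat_lit 3163), [(nat_lit 1472332), (nat_lit 1465917), (nat_lit 1494487), (nat_lit 1488691), (nat_lit 1518047), (nat_lit 1508679), (nat_lit 1540202), (nat_lit 1531453)]⟩, (nat_lit 5408106), (nat_lit 33906200), (nat_lit 22525428), (nat_lit 10568372), (nat_lit 6), (nat_lit 0), [], [⟨(nat_lit 1), (nat_lit 100), (nat_lit 54), (nat_lit 96), (nat_lit 1714952051)⟩], [⟨(nat_lit 1), (nat_lit 70), (nat_lit 100), (nat_lit 100), (nat_lit 73179114)⟩],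 [],
 ⟨⟨[(nat_lit 40), (nat_lit 60), (nat_lit 80)], [(nat_lit 0), (nat_lit 832), (nat_lit 1534)], [((nat_lit 0), (nat_lit 0), (nat_lit 0)), ((nat_lit 1000), (nat_lit 659), (nat_lit 528)), ((nat_lit 1000), (nat_lit 650), (nat_lit 549))], ((nat_lit 63), (nat_lit 100), (nat_lit 62))⟩, (nat_lit 1051459), (nat_lit 128), (nat_lit 128), (nat_lit 0), (nat_lit 218042), [(nat_lit 1896298003), (nat_lit 2877456024), (nat_lit 3926274000)], [(nat_lit 0), (nat_lit 0), (nat_lit 0)], [(nat_lit 28068642419), (nat_lit 28950233472), (nat_lit 30878830894), (nat_lit 31843129605), (nat_lit 28879088095), (nat_lit 29885197817), (nat_lit 31702200527), (nat_lit 32610701882)], (nat_lit 1271251), (nat_lit 1271251), (nat_lit 1271251), (nat_lit 1271251), (nat_lit 1271251), (nat_lit 1271251), [(nat_lit 490000), (nat_lit 780000), (nat_lit 1100000)], [(nat_lit 2), (nat_lit 44), (nat_lit 203), (nat_lit 0), (nat_lit 6)]⟩,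
 ⟨⟨[(nat_lit 80), (nat_lit 120), (nat_lit 140)], [(nat_lit 0), (nat_lit 528), (nat_lit 1572)], [((nat_lit 0), (nat_lit 0), (nat_lit 0)), ((nat_lit 1000), (nat_lit 959), (nat_lit 206)), ((nat_lit 966), (nat_lit 1000), (nat_lit 679))], ((nat_lit 100), (nat_lit 99), (nat_lit 63))⟩, (nat_lit 5632666), (nat_lit 511), (nat_lit 511), (nat_lit 0), (nat_lit 831454), [(nat_lit 4523920000), (nat_lit 7689120000), (nat_lit 9497530000)], [], [(nat_lit 31496001073), (nat_lit 31847675391), (nat_lit 33259430915), (nat_lit 33534765576), (nat_lit 32125652395), (nat_lit 32302083721), (nat_lit 33657604609), (nat_lit 34194883727)], (nat_lit 1271251), (nat_lit 1271251), (nat_lit 1271251), (nat_lit 1271251), (nat_lit 356250), (nat_lit 2720001), [(nat_lit 1100000), (nat_lit 1785001), (nat_lit 1271251)], [(nat_lit 17), (nat_lit 58), (nat_lit 401), (nat_lit 175), (nat_lit 11)]⟩,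
 ⟨⟨[(nat_lit 140), (nat_lit 180), (nat_lit 200)], [(nat_lit 0), (nat_lit 0), (nat_lit 2835)], [((nat_lit 0), (nat_lit 0), (nat_lit 0)), ((nat_lit 0), (nat_lit 0), (nat_lit 0)), ((nat_lit 363), (nat_lit 1000), (nat_lit 798))], ((nat_lit 0), (nat_lit 0), (nat_lit 0))⟩, (nat_lit 40995), (nat_lit 300), (nat_lit 2071), (nat_lit 11636900), (nat_lit 3576602), [(nat_lit 1466458000), (nat_lit 2094642000), (nat_lit 2443600000)], [], [(nat_lit 11153532839), (nat_lit 11040635454), (nat_lit 11023208695), (nat_lit 10910430117), (nat_lit 9610113910), (nat_lit 9506216748), (nat_lit 9479966948), (nat_lit 9369798761)], (nat_lit 780000), (nat_lit 936250), (nat_lit 1271251), (nat_lit 1271251), (nat_lit 356250), (nat_lit 2720001), [(nat_lit 1977501), (nat_lit 1271251), (nat_lit 1271251)], [(nat_lit 32), (nat_lit 67), (nat_lit 616), (nat_lit 200), (nat_lit 13)]⟩⟩)))))) (.spl (nat_lit 1) (nat_lit 260) (.trX (nat_lit 3) (nat_lit 0) (nat_lit 1) (nat_lit 63) (nat_lit 61)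 (nat_lit 100) (nat_lit 370) (.leaf ⟨(nat_lit 866), (nat_lit 92), (nat_lit 0), (nat_lit 42), (nat_lit 0), (nat_lit 3030), (nat_lit 1253), (nat_lit 474), (nat_lit 0), (nat_lit 0), (nat_lit 470800), [((nat_lit 380), [((nat_lit 24), (nat_lit 1), (nat_lit 244)), ((nat_lit 41), (nat_lit 2), (nat_lit 622))])], ⟨(nat_lit 8), false, true, true, (nat_lit 308), (nat_lit 2236), (nat_lit 3163), [(nat_lit 1727168), (nat_lit 1716594), (nat_lit 1749323), (nat_lit 1739368), (nat_lit 1803360), (nat_lit 1787863), (nat_lit 1825515), (nat_lit 1810637)]⟩, ⟨(nat_lit 6), false, false, true, (nat_lit 216), (nat_lit 2236), (nat_lit 3163), [(nat_lit 1494487), (nat_lit 1488691), (nat_lit 1516642), (nat_lit 1511466), (nat_lit 1570679), (nat_lit 1559961), (nat_lit 1592834), (nat_lit 1582735)]⟩, (nat_lit 5483621), (nat_lit 33991018), (nat_lit 21155225), (nat_lit 11853757), (nat_lit 6), (nat_lit 0), [⟨(nat_lit 1), (nat_lit 61), (nat_lit 63), (nat_lit 100), (nat_lit 242609698)⟩],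 [⟨(nat_lit 1), (nat_lit 99), (nat_lit 54), (nat_lit 100), (nat_lit 163079624)⟩, ⟨(nat_lit 1), (nat_lit 92), (nat_lit 61), (nat_lit 100), (nat_lit 91838331)⟩], [], [],
 ⟨⟨[(nat_lit 40), (nat_lit 60), (nat_lit 80)], [(nat_lit 0), (nat_lit 832), (nat_lit 1534)], [((nat_lit 0), (nat_lit 0), (nat_lit 0)), ((nat_lit 1000), (nat_lit 659), (nat_lit 528)), ((nat_lit 1000), (nat_lit 650), (nat_lit 549))], ((nat_lit 63), (nat_lit 100), (nat_lit 62))⟩, (nat_lit 0), (nat_lit 134), (nat_lit 134), (nat_lit 0), (nat_lit 249560), [(nat_lit 1381792803), (nat_lit 1065207211), (nat_lit 828224000)], [(nat_lit 0), (nat_lit 0), (nat_lit 0)], [(nat_lit 27366938509), (nat_lit 28240079339), (nat_lit 29367978997), (nat_lit 30242927639), (nat_lit 28785956322), (nat_lit 29584961196), (nat_lit 30724747001), (nat_lit 31543739019)], (nat_lit 1271251), (nat_lit 1271251), (nat_lit 1271251), (nat_lit 1271251), (nat_lit 1271251), (nat_lit 1271251), [(nat_lit 490000), (nat_lit 780000),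 (nat_lit 1100000)], [(nat_lit 2), (nat_lit 44), (nat_lit 203), (nat_lit 0), (nat_lit 6)]⟩,
 ⟨⟨[(nat_lit 80), (nat_lit 120), (nat_lit 160)], [(nat_lit 0), (nat_lit 0), (nat_lit 2132)], [((nat_lit 0), (nat_lit 0), (nat_lit 0)), ((nat_lit 0), (nat_lit 0), (nat_lit 0)), ((nat_lit 858), (nat_lit 1000), (nat_lit 713))], ((nat_lit 100), (nat_lit 92), (nat_lit 61))⟩, (nat_lit 286366), (nat_lit 719), (nat_lit 719), (nat_lit 0), (nat_lit 1166089), [(nat_lit 628192000), (nat_lit 1067712000), (nat_lit 1590848000)], [], [(nat_lit 4676027031), (nat_lit 4688759067), (nat_lit 4836757335), (nat_lit 4852137463), (nat_lit 4713613276), (nat_lit 4811439250), (nat_lit 5193367033), (nat_lit 5267200589)], (nat_lit 1271251), (nat_lit 1271251), (nat_lit 1271251), (nat_lit 1271251), (nat_lit 356250), (nat_lit 2872501), [(nat_lit 1100000), (nat_lit 1785001), (nat_lit 1271251)], [(nat_lit 18), (nat_lit 59), (nat_lit 401), (nat_lit 175), (nat_lit 10)]⟩,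
 ⟨⟨[(nat_lit 140), (nat_lit 180), (nat_lit 200)], [(nat_lit 0), (nat_lit 608), (nat_lit 3317)], [((nat_lit 0), (nat_lit 0), (nat_lit 0)), ((nat_lit 913), (nat_lit 1000), (nat_lit 217)), ((nat_lit 385), (nat_lit 1000), (nat_lit 814))], ((nat_lit 0), (nat_lit 0), (nat_lit 0))⟩, (nat_lit 96987), (nat_lit 300), (nat_lit 1857), (nat_lit 2952600), (nat_lit 3169486), [(nat_lit 413364000), (nat_lit 590436000), (nat_lit 688800000)], [], [(nat_lit 2510281581), (nat_lit 2471705928), (nat_lit 2474672658), (nat_lit 2435531340), (nat_lit 2123247738), (nat_lit 2083753767), (nat_lit 2088740145), (nat_lit 2049940822)], (nat_lit 936250), (nat_lit 1100000), (nat_lit 1271251), (nat_lit 1271251), (nat_lit 356250), (nat_lit 2872501), [(nat_lit 1977501), (nat_lit 1271251), (nat_lit 1271251)], [(nat_lit 32), (nat_lit 67), (nat_lit 570), (nat_lit 225), (nat_lit 12)]⟩⟩)) (.trX (nat_lit 5) (nat_lit 1) (nat_lit 2) (nat_lit 97) (nat_lit 49) (nat_lit 100) (nat_lit 380) (.leaf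 ⟨(nat_lit 554), (nat_lit 355), (nat_lit 0), (nat_lit 91), (nat_lit 0), (nat_lit 3327), (nat_lit 2972), (nat_lit 941), (nat_lit 0), (nat_lit 0), (nat_lit 276400), [((nat_lit 380), [((nat_lit 24), (nat_lit 0), (nat_lit 160)), ((nat_lit 41), (nat_lit 2), (nat_lit 394))])], ⟨(nat_lit 8), false, true, true, (nat_lit 320), (nat_lit 2236), (nat_lit 3163), [(nat_lit 1749323), (nat_lit 1739368), (nat_lit 1771478), (nat_lit 1762142), (nat_lit 1840753), (nat_lit 1824891), (nat_lit 1862908), (nat_lit 1847666)]⟩, ⟨(nat_lit 6), false, false, true, (nat_lit 216), (nat_lit 2236), (nat_lit 3163), [(nat_lit 1494487), (nat_lit 1488691), (nat_lit 1516642), (nat_lit 1511466), (nat_lit 1570679), (nat_lit 1559961), (nat_lit 1592834), (nat_lit 1582735)]⟩, (nat_lit 5499545), (nat_lit 33222522), (nat_lit 22136058), (nat_lit 11641420), (nat_lit 6), (nat_lit 0), [⟨(nat_lit 1), (nat_lit 65), (nat_lit 56), (nat_lit 100), (nat_lit 313064912)⟩], [⟨(nat_lit 1), (nat_lit 99), (nat_lit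 54), (nat_lit 100), (nat_lit 380236959)⟩], [], [⟨(nat_lit 1), (nat_lit 52), (nat_lit 70), (nat_lit 100), (nat_lit 23069424)⟩],
 ⟨⟨[(nat_lit 40), (nat_lit 60), (nat_lit 80)], [(nat_lit 0), (nat_lit 832), (nat_lit 1534)], [((nat_lit 0), (nat_lit 0), (nat_lit 0)), ((nat_lit 1000), (nat_lit 659), (nat_lit 528)), ((nat_lit 1000), (nat_lit 650), (nat_lit 549))], ((nat_lit 63), (nat_lit 100), (nat_lit 62))⟩, (nat_lit 675843), (nat_lit 140), (nat_lit 140), (nat_lit 0), (nat_lit 268665), [(nat_lit 1556125602), (nat_lit 1909002090), (nat_lit 2342940800)], [(nat_lit 0), (nat_lit 0), (nat_lit 0)], [(nat_lit 27519628772), (nat_lit 28346001355), (nat_lit 30154381322), (nat_lit 31058881679), (nat_lit 28905956474), (nat_lit 29860394376), (nat_lit 31504532319), (nat_lit 32326601290)], (nat_lit 1271251), (nat_lit 1271251), (nat_lit 1271251), (nat_lit 1271251), (nat_lit 1271251), (nat_lit 1271251), [(nat_lit 490000), (nat_lit 780000), (nat_lit 1100000)], [(nat_lit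 2), (nat_lit 44), (nat_lit 203), (nat_lit 0), (nat_lit 6)]⟩,
 ⟨⟨[(nat_lit 80), (nat_lit 120), (nat_lit 140)], [(nat_lit 0), (nat_lit 528), (nat_lit 1572)], [((nat_lit 0), (nat_lit 0), (nat_lit 0)), ((nat_lit 1000), (nat_lit 959), (nat_lit 206)), ((nat_lit 966), (nat_lit 1000), (nat_lit 679))], ((nat_lit 100), (nat_lit 99), (nat_lit 63))⟩, (nat_lit 2668156), (nat_lit 623), (nat_lit 623), (nat_lit 0), (nat_lit 1083145), [(nat_lit 2090848000), (nat_lit 3553728000), (nat_lit 4389532000)], [], [(nat_lit 14418898893), (nat_lit 14547382855), (nat_lit 15107037724), (nat_lit 15204640884), (nat_lit 14623871860), (nat_lit 14727432649), (nat_lit 15984218743), (nat_lit 16221558034)], (nat_lit 1271251), (nat_lit 1271251), (nat_lit 1271251), (nat_lit 1271251), (nat_lit 356250), (nat_lit 2796251), [(nat_lit 1100000), (nat_lit 1785001), (nat_lit 1271251)], [(nat_lit 17), (nat_lit 58), (nat_lit 401), (nat_lit 175), (nat_lit 11)]⟩,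
 ⟨⟨[(nat_lit 140), (nat_lit 180), (nat_lit 200)], [(nat_lit 0), (nat_lit 608), (nat_lit 3317)], [((nat_lit 0), (nat_lit 0), (nat_lit 0)), ((nat_lit 913), (nat_lit 1000), (nat_lit 217)), ((nat_lit 385), (nat_lit 1000), (nat_lit 814))], ((nat_lit 0), (nat_lit 0), (nat_lit 0))⟩, (nat_lit 210138), (nat_lit 300), (nat_lit 1976), (nat_lit 6397301), (nat_lit 3417180), [(nat_lit 895622000), (nat_lit 1279278000), (nat_lit 1492400000)], [], [(nat_lit 5823963943), (nat_lit 5749293182), (nat_lit 5723068838), (nat_lit 5646965759), (nat_lit 4917387780), (nat_lit 4840642961), (nat_lit 4825559249), (nat_lit 4748168235)], (nat_lit 936250), (nat_lit 1100000), (nat_lit 1271251), (nat_lit 1271251), (nat_lit 356250), (nat_lit 2796251), [(nat_lit 1977501), (nat_lit 1271251), (nat_lit 1271251)], [(nat_lit 32), (nat_lit 67), (nat_lit 598), (nat_lit 225), (nat_lit 12)]⟩⟩)))))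
noncomputable def c17_51 : Tr Lf :=
 (.spl (nat_lit 3) (nat_lit 320) (.spl (nat_lit 5) (nat_lit 200) (.leaf ⟨(nat_lit 853), (nat_lit 97), (nat_lit 0), (nat_lit 50), (nat_lit 0), (nat_lit 3121), (nat_lit 1517), (nat_lit 627), (nat_lit 0), (nat_lit 0), (nat_lit 453400), [((nat_lit 380), [((nat_lit 24), (nat_lit 1), (nat_lit 292)), ((nat_lit 41), (nat_lit 2), (nat_lit 561))])], ⟨(nat_lit 6), false, true, true, (nat_lit 274), (nat_lit 2236), (nat_lit 3163), [(nat_lit 1605240), (nat_lit 1602541), (nat_lit 1649422), (nat_lit 1647962), (nat_lit 1727168), (nat_lit 1716594), (nat_lit 1771478), (nat_lit 1762142)]⟩, ⟨(nat_lit 6), false, false, true, (nat_lit 231), (nat_lit 2236), (nat_lit 3163), [(nat_lit 1516642), (nat_lit 1511466), (nat_lit 1538797), (nat_lit 1534240), (nat_lit 1623310), (nat_lit 1611243), (nat_lit 1645465), (nat_lit 1634017)]⟩, (nat_lit 5485813), (nat_lit 35398626), (nat_lit 17996803), (nat_lit 13604571), (nat_lit 6), (nat_lit 0), [], [⟨(nat_lit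 1), (nat_lit 93), (nat_lit 53), (nat_lit 100), (nat_lit 232546429)⟩], [], [⟨(nat_lit 0), (nat_lit 100), (nat_lit 99), (nat_lit 77), (nat_lit 56753812)⟩],
 ⟨⟨[(nat_lit 40), (nat_lit 60), (nat_lit 80)], [(nat_lit 0), (nat_lit 832), (nat_lit 1534)], [((nat_lit 0), (nat_lit 0), (nat_lit 0)), ((nat_lit 1000), (nat_lit 659), (nat_lit 528)), ((nat_lit 1000), (nat_lit 650), (nat_lit 549))], ((nat_lit 63), (nat_lit 100), (nat_lit 62))⟩, (nat_lit 0), (nat_lit 127), (nat_lit 127), (nat_lit 0), (nat_lit 250696), [(nat_lit 1392256415), (nat_lit 1102758714), (nat_lit 938200000)], [(nat_lit 0), (nat_lit 0), (nat_lit 0)], [(nat_lit 24739700482), (nat_lit 25678084308), (nat_lit 27261089515), (nat_lit 28143654396), (nat_lit 26924172454), (nat_lit 27825131922), (nat_lit 29349766150), (nat_lit 30243874048)], (nat_lit 1271251), (nat_lit 1271251), (nat_lit 1271251), (nat_lit 1271251), (nat_lit 1271251), (nat_lit 1271251), [(nat_lit 490000), (nat_lit 780000), (nat_lit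 1100000)], [(nat_lit 2), (nat_lit 44), (nat_lit 203), (nat_lit 0), (nat_lit 6)]⟩,
 ⟨⟨[(nat_lit 80), (nat_lit 120), (nat_lit 160)], [(nat_lit 0), (nat_lit 0), (nat_lit 2132)], [((nat_lit 0), (nat_lit 0), (nat_lit 0)), ((nat_lit 0), (nat_lit 0), (nat_lit 0)), ((nat_lit 858), (nat_lit 1000), (nat_lit 713))], ((nat_lit 100), (nat_lit 92), (nat_lit 61))⟩, (nat_lit 592289), (nat_lit 741), (nat_lit 741), (nat_lit 0), (nat_lit 1094699), [(nat_lit 689136000), (nat_lit 1171296000), (nat_lit 1745184000)], [], [(nat_lit 4719114591), (nat_lit 4808561637), (nat_lit 4898008683), (nat_lit 4977305241), (nat_lit 3774563816), (nat_lit 3825055689), (nat_lit 3875547562), (nat_lit 3919646307)], (nat_lit 1271251), (nat_lit 1271251), (nat_lit 1271251), (nat_lit 1271251), (nat_lit 54688), (nat_lit 1414376), [(nat_lit 1100000), (nat_lit 1785001), (nat_lit 1271251)], [(nat_lit 18), (nat_lit 59), (nat_lit 428), (nat_lit 200), (nat_lit 11)]⟩,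
 ⟨⟨[(nat_lit 120), (nat_lit 160), (nat_lit 180)], [(nat_lit 0), (nat_lit 0), (nat_lit 1613)], [((nat_lit 0), (nat_lit 0), (nat_lit 0)), ((nat_lit 0), (nat_lit 0), (nat_lit 0)), ((nat_lit 620), (nat_lit 1000), (nat_lit 670))], ((nat_lit 100), (nat_lit 68), (nat_lit 61))⟩, (nat_lit 21761), (nat_lit 300), (nat_lit 1505), (nat_lit 3710000), (nat_lit 2515773), [(nat_lit 398400000), (nat_lit 593600000), (nat_lit 702900000)], [], [(nat_lit 2716437678), (nat_lit 2688800424), (nat_lit 2727433083), (nat_lit 2701171862), (nat_lit 2138423218), (nat_lit 2106892751), (nat_lit 2128205760), (nat_lit 2100824729)], (nat_lit 1100000), (nat_lit 1271251), (nat_lit 1271251), (nat_lit 1271251), (nat_lit 54688), (nat_lit 1414376), [(nat_lit 1695001), (nat_lit 1271251), (nat_lit 1271251)], [(nat_lit 28), (nat_lit 65), (nat_lit 463), (nat_lit 175), (nat_lit 11)]⟩⟩) (.leaf ⟨(nat_lit 833), (nat_lit 110), (nat_lit 0), (nat_lit 57), (nat_lit 0), (nat_lit 3132), (nat_lit 1413),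 (nat_lit 609), (nat_lit 0), (nat_lit 0), (nat_lit 446400), [((nat_lit 380), [((nat_lit 24), (nat_lit 1), (nat_lit 267)), ((nat_lit 41), (nat_lit 2), (nat_lit 566))])], ⟨(nat_lit 6), false, true, true, (nat_lit 274), (nat_lit 2236), (nat_lit 3163), [(nat_lit 1605240), (nat_lit 1602541), (nat_lit 1649422), (nat_lit 1647962), (nat_lit 1727168), (nat_lit 1716594), (nat_lit 1771478), (nat_lit 1762142)]⟩, ⟨(nat_lit 6), false, false, true, (nat_lit 231), (nat_lit 2236), (nat_lit 3163), [(nat_lit 1516642), (nat_lit 1511466), (nat_lit 1538797), (nat_lit 1534240), (nat_lit 1623310), (nat_lit 1611243), (nat_lit 1645465), (nat_lit 1634017)]⟩, (nat_lit 5485813), (nat_lit 35398626), (nat_lit 17996803), (nat_lit 13604571), (nat_lit 6), (nat_lit 0), [], [⟨(nat_lit 1), (nat_lit 93), (nat_lit 53), (nat_lit 100), (nat_lit 307204541)⟩], [⟨(nat_lit 1), (nat_lit 44), (nat_lit 96), (nat_lit 100), (nat_lit 5239136)⟩], [],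
 ⟨⟨[(nat_lit 40), (nat_lit 60), (nat_lit 80)], [(nat_lit 0), (nat_lit 832), (nat_lit 1534)], [((nat_lit 0), (nat_lit 0), (nat_lit 0)), ((nat_lit 1000), (nat_lit 659), (nat_lit 528)), ((nat_lit 1000), (nat_lit 650), (nat_lit 549))], ((nat_lit 63), (nat_lit 100), (nat_lit 62))⟩, (nat_lit 3023), (nat_lit 127), (nat_lit 127), (nat_lit 0), (nat_lit 250696), [(nat_lit 1400455221), (nat_lit 1139029923), (nat_lit 1007836000)], [(nat_lit 0), (nat_lit 0), (nat_lit 0)], [(nat_lit 24798989144), (nat_lit 25738661136), (nat_lit 27269096503), (nat_lit 28153909328), (nat_lit 26957386553), (nat_lit 27834040265), (nat_lit 29360550550), (nat_lit 30255756495)], (nat_lit 1271251), (nat_lit 1271251), (nat_lit 1271251), (nat_lit 1271251), (nat_lit 1271251), (nat_lit 1271251), [(nat_lit 490000), (nat_lit 780000), (nat_lit 1100000)], [(nat_lit 2), (nat_lit 44), (nat_lit 203), (nat_lit 0), (nat_lit 6)]⟩,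
 ⟨⟨[(nat_lit 80), (nat_lit 120), (nat_lit 160)], [(nat_lit 0), (nat_lit 0), (nat_lit 2132)], [((nat_lit 0), (nat_lit 0), (nat_lit 0)), ((nat_lit 0), (nat_lit 0), (nat_lit 0)), ((nat_lit 858), (nat_lit 1000), (nat_lit 713))], ((nat_lit 100), (nat_lit 92), (nat_lit 61))⟩, (nat_lit 374116), (nat_lit 638), (nat_lit 638), (nat_lit 0), (nat_lit 1094699), [(nat_lit 782896000), (nat_lit 1330656000), (nat_lit 1982624000)], [], [(nat_lit 5510040640), (nat_lit 5595900871), (nat_lit 5681761102), (nat_lit 5741548183), (nat_lit 5998706256), (nat_lit 6035114720), (nat_lit 6071523184), (nat_lit 6085227814)], (nat_lit 1271251), (nat_lit 1271251), (nat_lit 1271251), (nat_lit 1271251), (nat_lit 1271251), (nat_lit 1271251), [(nat_lit 1100000), (nat_lit 1785001), (nat_lit 1271251)], [(nat_lit 18), (nat_lit 59), (nat_lit 483), (nat_lit 250), (nat_lit 11)]⟩,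
 ⟨⟨[(nat_lit 120), (nat_lit 160), (nat_lit 180)], [(nat_lit 0), (nat_lit 0), (nat_lit 1613)], [((nat_lit 0), (nat_lit 0), (nat_lit 0)), ((nat_lit 0), (nat_lit 0), (nat_lit 0)), ((nat_lit 620), (nat_lit 1000), (nat_lit 670))], ((nat_lit 100), (nat_lit 68), (nat_lit 61))⟩, (nat_lit 26051), (nat_lit 300), (nat_lit 1391), (nat_lit 4229400), (nat_lit 2515773), [(nat_lit 454176000), (nat_lit 676704000), (nat_lit 801306000)], [], [(nat_lit 3039539580), (nat_lit 3003267872), (nat_lit 2945902087), (nat_lit 2909071661), (nat_lit 2792170584), (nat_lit 2755788666), (nat_lit 2720874320), (nat_lit 2685347023)], (nat_lit 1100000), (nat_lit 1271251), (nat_lit 1271251), (nat_lit 1271251), (nat_lit 1271251), (nat_lit 1271251), [(nat_lit 1695001), (nat_lit 1271251), (nat_lit 1271251)], [(nat_lit 28), (nat_lit 65), (nat_lit 459), (nat_lit 225), (nat_lit 10)]⟩⟩)) (.trZ (nat_lit 3) (nat_lit 4) (nat_lit 5) (nat_lit 100) (nat_lit 82) (nat_lit 76) (nat_lit 60) (.spl (nat_lit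 1) (nat_lit 260) (.trX (nat_lit 3) (nat_lit 0) (nat_lit 1) (nat_lit 63) (nat_lit 61) (nat_lit 100) (nat_lit 370) (.leaf ⟨(nat_lit 818), (nat_lit 114), (nat_lit 0), (nat_lit 68), (nat_lit 0), (nat_lit 3072), (nat_lit 1566), (nat_lit 743), (nat_lit 0), (nat_lit 0), (nat_lit 458600), [((nat_lit 380), [((nat_lit 24), (nat_lit 0), (nat_lit 92)), ((nat_lit 41), (nat_lit 2), (nat_lit 726))])], ⟨(nat_lit 8), false, true, true, (nat_lit 308), (nat_lit 2236), (nat_lit 3163), [(nat_lit 1727168), (nat_lit 1716594), (nat_lit 1749323), (nat_lit 1739368), (nat_lit 1803360), (nat_lit 1787863), (nat_lit 1825515), (nat_lit 1810637)]⟩, ⟨(nat_lit 6), false, false, true, (nat_lit 231), (nat_lit 2236), (nat_lit 3163), [(nat_lit 1516642), (nat_lit 1511466), (nat_lit 1538797), (nat_lit 1534240), (nat_lit 1623310), (nat_lit 1611243), (nat_lit 1645465), (nat_lit 1634017)]⟩, (nat_lit 5564776), (nat_lit 33268222), (nat_lit 20774840), (nat_lit 12956938), (nat_lit 6), (nat_lit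 0), [⟨(nat_lit 1), (nat_lit 71), (nat_lit 54), (nat_lit 100), (nat_lit 295435720)⟩], [⟨(nat_lit 1), (nat_lit 93), (nat_lit 53), (nat_lit 100), (nat_lit 249204415)⟩], [], [],
 ⟨⟨[(nat_lit 40), (nat_lit 60), (nat_lit 80)], [(nat_lit 0), (nat_lit 832), (nat_lit 1534)], [((nat_lit 0), (nat_lit 0), (nat_lit 0)), ((nat_lit 1000), (nat_lit 659), (nat_lit 528)), ((nat_lit 1000), (nat_lit 650), (nat_lit 549))], ((nat_lit 63), (nat_lit 100), (nat_lit 62))⟩, (nat_lit 258033), (nat_lit 130), (nat_lit 130), (nat_lit 0), (nat_lit 232548), [(nat_lit 1407417627), (nat_lit 1128355254), (nat_lit 971798400)], [(nat_lit 0), (nat_lit 0), (nat_lit 0)], [(nat_lit 27380471521), (nat_lit 28257961913), (nat_lit 29391087824), (nat_lit 30294360508), (nat_lit 29371387021), (nat_lit 30190943145), (nat_lit 31326848158), (nat_lit 32117104813)], (nat_lit 1271251), (nat_lit 1271251), (nat_lit 1271251), (nat_lit 1271251), (nat_lit 1271251), (nat_lit 1271251), [(nat_lit 490000), (nat_lit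 780000), (nat_lit 1100000)], [(nat_lit 2), (nat_lit 44), (nat_lit 203), (nat_lit 0), (nat_lit 6)]⟩,
 ⟨⟨[(nat_lit 80), (nat_lit 120), (nat_lit 160)], [(nat_lit 0), (nat_lit 0), (nat_lit 2132)], [((nat_lit 0), (nat_lit 0), (nat_lit 0)), ((nat_lit 0), (nat_lit 0), (nat_lit 0)), ((nat_lit 858), (nat_lit 1000), (nat_lit 713))], ((nat_lit 100), (nat_lit 92), (nat_lit 61))⟩, (nat_lit 591700), (nat_lit 688), (nat_lit 688), (nat_lit 0), (nat_lit 1085478), [(nat_lit 853216000), (nat_lit 1450176000), (nat_lit 2160704000)], [], [(nat_lit 6548076960), (nat_lit 6614020793), (nat_lit 6882609440), (nat_lit 6932440377), (nat_lit 6505768624), (nat_lit 6539843418), (nat_lit 7014143895), (nat_lit 7106901395)], (nat_lit 1271251), (nat_lit 1271251), (nat_lit 1271251), (nat_lit 1271251), (nat_lit 356250), (nat_lit 2948751), [(nat_lit 1100000), (nat_lit 1785001), (nat_lit 1271251)], [(nat_lit 18), (nat_lit 59), (nat_lit 401), (nat_lit 175), (nat_lit 10)]⟩,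
 ⟨⟨[(nat_lit 120), (nat_lit 160), (nat_lit 180)], [(nat_lit 0), (nat_lit 0), (nat_lit 1613)], [((nat_lit 0), (nat_lit 0), (nat_lit 0)), ((nat_lit 0), (nat_lit 0), (nat_lit 0)), ((nat_lit 620), (nat_lit 1000), (nat_lit 670))], ((nat_lit 100), (nat_lit 68), (nat_lit 61))⟩, (nat_lit 72346), (nat_lit 300), (nat_lit 1381), (nat_lit 5045600), (nat_lit 2330654), [(nat_lit 541824000), (nat_lit 807296000), (nat_lit 955944000)], [], [(nat_lit 3885176785), (nat_lit 3842254744), (nat_lit 3787715159), (nat_lit 3746309044), (nat_lit 4015029588), (nat_lit 4248730695), (nat_lit 3181393160), (nat_lit 3141713475)], (nat_lit 1100000), (nat_lit 1271251), (nat_lit 1271251), (nat_lit 1271251), (nat_lit 356250), (nat_lit 2948751), [(nat_lit 1695001), (nat_lit 1271251), (nat_lit 1271251)], [(nat_lit 28), (nat_lit 65), (nat_lit 457), (nat_lit 225), (nat_lit 10)]⟩⟩)) (.trX (nat_lit 5) (nat_lit 1) (nat_lit 2) (nat_lit 96) (nat_lit 40) (nat_lit 100) (nat_lit 390) (.leaf ⟨(nat_lit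 35), (nat_lit 699), (nat_lit 0), (nat_lit 266), (nat_lit 0), (nat_lit 3662), (nat_lit 6390), (nat_lit 2653), (nat_lit 0), (nat_lit 0), (nat_lit 140000), [((nat_lit 380), [((nat_lit 41), (nat_lit 5), (nat_lit 35))])], ⟨(nat_lit 8), false, true, true, (nat_lit 320), (nat_lit 2236), (nat_lit 3163), [(nat_lit 1749323), (nat_lit 1739368), (nat_lit 1771478), (nat_lit 1762142), (nat_lit 1840753), (nat_lit 1824891), (nat_lit 1862908), (nat_lit 1847666)]⟩, ⟨(nat_lit 6), false, false, true, (nat_lit 231), (nat_lit 2236), (nat_lit 3163), [(nat_lit 1516642), (nat_lit 1511466), (nat_lit 1538797), (nat_lit 1534240), (nat_lit 1623310), (nat_lit 1611243), (nat_lit 1645465), (nat_lit 1634017)]⟩, (nat_lit 5580695), (nat_lit 32534643), (nat_lit 21739362), (nat_lit 12725995), (nat_lit 6), (nat_lit 0), [⟨(nat_lit 1), (nat_lit 65), (nat_lit 56), (nat_lit 100), (nat_lit 192899333)⟩], [⟨(nat_lit 1), (nat_lit 93), (nat_lit 53), (nat_lit 100), (nat_lit 291196067)⟩], [⟨(nat_lit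 1), (nat_lit 49), (nat_lit 95), (nat_lit 100), (nat_lit 18758061)⟩], [],
 ⟨⟨[(nat_lit 40), (nat_lit 60), (nat_lit 80)], [(nat_lit 0), (nat_lit 832), (nat_lit 1534)], [((nat_lit 0), (nat_lit 0), (nat_lit 0)), ((nat_lit 1000), (nat_lit 659), (nat_lit 528)), ((nat_lit 1000), (nat_lit 650), (nat_lit 549))], ((nat_lit 63), (nat_lit 100), (nat_lit 62))⟩, (nat_lit 2030398), (nat_lit 136), (nat_lit 136), (nat_lit 0), (nat_lit 250613), [(nat_lit 1896298001), (nat_lit 3022092465), (nat_lit 3926274000)], [(nat_lit 0), (nat_lit 0), (nat_lit 0)], [(nat_lit 27957315943), (nat_lit 28895907325), (nat_lit 30548359579), (nat_lit 31485380145), (nat_lit 30008503631), (nat_lit 30828621971), (nat_lit 32455421266), (nat_lit 33268994688)], (nat_lit 1271251), (nat_lit 1271251), (nat_lit 1271251), (nat_lit 1271251), (nat_lit 1271251), (nat_lit 1271251), [(nat_lit 490000), (nat_lit 780000), (nat_lit 1100000)], [(nat_lit 2), (nat_lit 44), (nat_lit 203), (nat_lit 0), (nat_lit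 6)]⟩,
 ⟨⟨[(nat_lit 80), (nat_lit 120), (nat_lit 140)], [(nat_lit 0), (nat_lit 528), (nat_lit 1572)], [((nat_lit 0), (nat_lit 0), (nat_lit 0)), ((nat_lit 1000), (nat_lit 959), (nat_lit 206)), ((nat_lit 966), (nat_lit 1000), (nat_lit 679))], ((nat_lit 100), (nat_lit 99), (nat_lit 63))⟩, (nat_lit 7464106), (nat_lit 594), (nat_lit 594), (nat_lit 0), (nat_lit 1008358), [(nat_lit 4523920000), (nat_lit 7689120000), (nat_lit 9497530000)], [], [(nat_lit 29521238019), (nat_lit 30019095803), (nat_lit 31817048233), (nat_lit 32218054808), (nat_lit 32095848242), (nat_lit 32472243654), (nat_lit 35096818188), (nat_lit 35583225407)], (nat_lit 1271251), (nat_lit 1271251), (nat_lit 1271251), (nat_lit 1271251), (nat_lit 356250), (nat_lit 2872501), [(nat_lit 1100000), (nat_lit 1785001), (nat_lit 1271251)], [(nat_lit 17), (nat_lit 58), (nat_lit 401), (nat_lit 175), (nat_lit 11)]⟩,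
 ⟨⟨[(nat_lit 120), (nat_lit 160), (nat_lit 180)], [(nat_lit 0), (nat_lit 0), (nat_lit 1613)], [((nat_lit 0), (nat_lit 0), (nat_lit 0)), ((nat_lit 0), (nat_lit 0), (nat_lit 0)), ((nat_lit 620), (nat_lit 1000), (nat_lit 670))], ((nat_lit 100), (nat_lit 68), (nat_lit 61))⟩, (nat_lit 163367), (nat_lit 300), (nat_lit 1472), (nat_lit 19737200), (nat_lit 2515733), [(nat_lit 2119488000), (nat_lit 3157952000), (nat_lit 3739428000)], [], [(nat_lit 17689985874), (nat_lit 17532302198), (nat_lit 17266492960), (nat_lit 17107077758), (nat_lit 15173802841), (nat_lit 16015131092), (nat_lit 14721909946), (nat_lit 14559927116)], (nat_lit 1100000), (nat_lit 1271251), (nat_lit 1271251), (nat_lit 1271251), (nat_lit 356250), (nat_lit 2872501), [(nat_lit 1695001), (nat_lit 1271251), (nat_lit 1271251)], [(nat_lit 28), (nat_lit 65), (nat_lit 478), (nat_lit 225), (nat_lit 11)]⟩⟩)))))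
noncomputable def c17_52 : Tr Lf :=
 (.spl (nat_lit 3) (nat_lit 280) (.leaf ⟨(nat_lit 848), (nat_lit 152), (nat_lit 0), (nat_lit 0), (nat_lit 0), (nat_lit 3517), (nat_lit 1210), (nat_lit 0), (nat_lit 0), (nat_lit 0), (nat_lit 311450), [((nat_lit 380), [((nat_lit 24), (nat_lit 0), (nat_lit 185)), ((nat_lit 24), (nat_lit 1), (nat_lit 663))])], ⟨(nat_lit 7), false, true, false, (nat_lit 276), (nat_lit 2236), (nat_lit 3163), [(nat_lit 1649422), (nat_lit 1647962), (nat_lit 1671514), (nat_lit 1670673), (nat_lit 1710480), (nat_lit 1705082), (nat_lit 1732571), (nat_lit 1727793)]⟩, ⟨(nat_lit 6), false, false, true, (nat_lit 201), (nat_lit 2236), (nat_lit 3163), [(nat_lit 1472332), (nat_lit 1465917), (nat_lit 1494487), (nat_lit 1488691), (nat_lit 1518047), (nat_lit 1508679), (nat_lit 1540202), (nat_lit 1531453)]⟩, (nat_lit 5315536), (nat_lit 36935511), (nat_lit 18789449), (nat_lit 11275040), (nat_lit 6), (nat_lit 0), [], [⟨(nat_lit 1), (nat_lit 99), (nat_lit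 63), (nat_lit 100), (nat_lit 289616053)⟩], [⟨(nat_lit 1), (nat_lit 78), (nat_lit 95), (nat_lit 100), (nat_lit 22662004)⟩], [],
 ⟨⟨[(nat_lit 40), (nat_lit 60), (nat_lit 80)], [(nat_lit 0), (nat_lit 832), (nat_lit 1534)], [((nat_lit 0), (nat_lit 0), (nat_lit 0)), ((nat_lit 1000), (nat_lit 659), (nat_lit 528)), ((nat_lit 1000), (nat_lit 650), (nat_lit 549))], ((nat_lit 63), (nat_lit 100), (nat_lit 62))⟩, (nat_lit 0), (nat_lit 138), (nat_lit 138), (nat_lit 0), (nat_lit 317028), [(nat_lit 1467968002), (nat_lit 1415935736), (nat_lit 1660879200)], [(nat_lit 0), (nat_lit 0), (nat_lit 0)], [(nat_lit 24849220216), (nat_lit 25802684610), (nat_lit 26082362021), (nat_lit 27052735751), (nat_lit 25766253218), (nat_lit 26697910004), (nat_lit 26955248009), (nat_lit 28065945331)], (nat_lit 1271251), (nat_lit 1271251), (nat_lit 1271251), (nat_lit 1271251), (nat_lit 1271251), (nat_lit 1271251), [(nat_lit 490000), (nat_lit 780000), (nat_lit 1100000)], [(nat_lit 2),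 (nat_lit 44), (nat_lit 203), (nat_lit 0), (nat_lit 6)]⟩,
 ⟨⟨[(nat_lit 60), (nat_lit 100), (nat_lit 140)], [(nat_lit 0), (nat_lit 0), (nat_lit 2047)], [((nat_lit 0), (nat_lit 0), (nat_lit 0)), ((nat_lit 0), (nat_lit 0), (nat_lit 0)), ((nat_lit 1000), (nat_lit 993), (nat_lit 781))], ((nat_lit 94), (nat_lit 100), (nat_lit 62))⟩, (nat_lit 282064), (nat_lit 691), (nat_lit 691), (nat_lit 0), (nat_lit 1123587), [(nat_lit 498864000), (nat_lit 950000000), (nat_lit 1495984000)], [], [(nat_lit 5101248041), (nat_lit 5170673816), (nat_lit 5222252360), (nat_lit 5282754520), (nat_lit 4761182760), (nat_lit 4794240268), (nat_lit 4815198647), (nat_lit 4852912824)], (nat_lit 1271251), (nat_lit 1271251), (nat_lit 1271251), (nat_lit 1271251), (nat_lit 54688), (nat_lit 2559376), [(nat_lit 780000), (nat_lit 1435001), (nat_lit 1271251)], [(nat_lit 11), (nat_lit 55), (nat_lit 401), (nat_lit 175), (nat_lit 11)]⟩,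
 Rw.none⟩) (.trZ (nat_lit 3) (nat_lit 4) (nat_lit 5) (nat_lit 100) (nat_lit 94) (nat_lit 59) (nat_lit 30) (.spl (nat_lit 1) (nat_lit 290) (.leaf ⟨(nat_lit 856), (nat_lit 144), (nat_lit 0), (nat_lit 0), (nat_lit 0), (nat_lit 3429), (nat_lit 1118), (nat_lit 0), (nat_lit 0), (nat_lit 0), (nat_lit 311950), [((nat_lit 380), [((nat_lit 24), (nat_lit 0), (nat_lit 203)), ((nat_lit 24), (nat_lit 1), (nat_lit 653))])], ⟨(nat_lit 7), false, true, true, (nat_lit 297), (nat_lit 2236), (nat_lit 3163), [(nat_lit 1710480), (nat_lit 1705082), (nat_lit 1721526), (nat_lit 1716437), (nat_lit 1771478), (nat_lit 1762142), (nat_lit 1782556), (nat_lit 1773529)]⟩, ⟨(nat_lit 6), false, false, true, (nat_lit 201), (nat_lit 2236), (nat_lit 3163), [(nat_lit 1472332), (nat_lit 1465917), (nat_lit 1494487), (nat_lit 1488691), (nat_lit 1518047), (nat_lit 1508679), (nat_lit 1540202), (nat_lit 1531453)]⟩, (nat_lit 5371732), (nat_lit 35449667), (nat_lit 20614158), (nat_lit 10936175),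 (nat_lit 6), (nat_lit 0), [], [⟨(nat_lit 1), (nat_lit 99), (nat_lit 63), (nat_lit 100), (nat_lit 290040432)⟩], [⟨(nat_lit 1), (nat_lit 76), (nat_lit 97), (nat_lit 100), (nat_lit 22247612)⟩], [],
 ⟨⟨[(nat_lit 40), (nat_lit 60), (nat_lit 80)], [(nat_lit 0), (nat_lit 832), (nat_lit 1534)], [((nat_lit 0), (nat_lit 0), (nat_lit 0)), ((nat_lit 1000), (nat_lit 659), (nat_lit 528)), ((nat_lit 1000), (nat_lit 650), (nat_lit 549))], ((nat_lit 63), (nat_lit 100), (nat_lit 62))⟩, (nat_lit 4951), (nat_lit 138), (nat_lit 138), (nat_lit 0), (nat_lit 304508), [(nat_lit 1467299203), (nat_lit 1428590044), (nat_lit 1644532000)], [(nat_lit 0), (nat_lit 0), (nat_lit 0)], [(nat_lit 26232015103), (nat_lit 27131760409), (nat_lit 27484177682), (nat_lit 28445534816), (nat_lit 27095708006), (nat_lit 27983557828), (nat_lit 28352741646), (nat_lit 29358841000)], (nat_lit 1271251), (nat_lit 1271251), (nat_lit 1271251), (nat_lit 1271251), (nat_lit 1271251), (nat_lit 1271251),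 [(nat_lit 490000), (nat_lit 780000), (nat_lit 1100000)], [(nat_lit 2), (nat_lit 44), (nat_lit 203), (nat_lit 0), (nat_lit 6)]⟩,
 ⟨⟨[(nat_lit 60), (nat_lit 100), (nat_lit 140)], [(nat_lit 0), (nat_lit 0), (nat_lit 2047)], [((nat_lit 0), (nat_lit 0), (nat_lit 0)), ((nat_lit 0), (nat_lit 0), (nat_lit 0)), ((nat_lit 1000), (nat_lit 993), (nat_lit 781))], ((nat_lit 94), (nat_lit 100), (nat_lit 62))⟩, (nat_lit 249820), (nat_lit 653), (nat_lit 653), (nat_lit 0), (nat_lit 1121176), [(nat_lit 472608000), (nat_lit 900000000), (nat_lit 1417248000)], [], [(nat_lit 4978897785), (nat_lit 5006961957), (nat_lit 5091154470), (nat_lit 5115150187), (nat_lit 4717545403), (nat_lit 4726000397), (nat_lit 4754254138), (nat_lit 4765534436)], (nat_lit 1271251), (nat_lit 1271251), (nat_lit 1271251), (nat_lit 1271251), (nat_lit 169688), (nat_lit 2593126), [(nat_lit 780000), (nat_lit 1435001), (nat_lit 1271251)], [(nat_lit 11), (nat_lit 55), (nat_lit 317), (nat_lit 100), (nat_lit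 8)]⟩,
 Rw.none⟩) (.trX (nat_lit 5) (nat_lit 1) (nat_lit 2) (nat_lit 94) (nat_lit 73) (nat_lit 100) (nat_lit 350) (.leaf ⟨(nat_lit 803), (nat_lit 197), (nat_lit 0), (nat_lit 0), (nat_lit 0), (nat_lit 3476), (nat_lit 1407), (nat_lit 0), (nat_lit 0), (nat_lit 0), (nat_lit 321200), [((nat_lit 380), [((nat_lit 24), (nat_lit 1), (nat_lit 803))])], ⟨(nat_lit 7), false, true, true, (nat_lit 302), (nat_lit 2236), (nat_lit 3163), [(nat_lit 1721526), (nat_lit 1716437), (nat_lit 1732571), (nat_lit 1727793), (nat_lit 1782556), (nat_lit 1773529), (nat_lit 1793619), (nat_lit 1784902)]⟩, ⟨(nat_lit 6), false, false, true, (nat_lit 201), (nat_lit 2236), (nat_lit 3163), [(nat_lit 1472332), (nat_lit 1465917), (nat_lit 1494487), (nat_lit 1488691), (nat_lit 1518047), (nat_lit 1508679), (nat_lit 1540202), (nat_lit 1531453)]⟩, (nat_lit 5380741), (nat_lit 35142254), (nat_lit 20993582), (nat_lit 10864164), (nat_lit 6), (nat_lit 0), [], [⟨(nat_lit 1), (nat_lit 99), (nat_lit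 63), (nat_lit 100), (nat_lit 324863020)⟩], [⟨(nat_lit 1), (nat_lit 80), (nat_lit 94), (nat_lit 100), (nat_lit 34066073)⟩], [],
 ⟨⟨[(nat_lit 40), (nat_lit 60), (nat_lit 80)], [(nat_lit 0), (nat_lit 832), (nat_lit 1534)], [((nat_lit 0), (nat_lit 0), (nat_lit 0)), ((nat_lit 1000), (nat_lit 659), (nat_lit 528)), ((nat_lit 1000), (nat_lit 650), (nat_lit 549))], ((nat_lit 63), (nat_lit 100), (nat_lit 62))⟩, (nat_lit 0), (nat_lit 142), (nat_lit 142), (nat_lit 0), (nat_lit 316986), [(nat_lit 1459134010), (nat_lit 1434479952), (nat_lit 1690243848)], [(nat_lit 0), (nat_lit 0), (nat_lit 0)], [(nat_lit 26187517178), (nat_lit 27082896774), (nat_lit 27434278708), (nat_lit 28491684304), (nat_lit 27044164273), (nat_lit 28027560244), (nat_lit 28395390574), (nat_lit 29406970903)], (nat_lit 1271251), (nat_lit 1271251), (nat_lit 1271251), (nat_lit 1271251), (nat_lit 1271251), (nat_lit 1271251), [(nat_lit 490000), (nat_lit 780000), (nat_lit 1100000)], [(nat_lit 2),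 (nat_lit 44), (nat_lit 203), (nat_lit 0), (nat_lit 6)]⟩,
 ⟨⟨[(nat_lit 60), (nat_lit 100), (nat_lit 120)], [(nat_lit 0), (nat_lit 302), (nat_lit 1376)], [((nat_lit 0), (nat_lit 0), (nat_lit 0)), ((nat_lit 1000), (nat_lit 953), (nat_lit 118)), ((nat_lit 1000), (nat_lit 911), (nat_lit 628))], ((nat_lit 91), (nat_lit 100), (nat_lit 61))⟩, (nat_lit 503437), (nat_lit 588), (nat_lit 588), (nat_lit 0), (nat_lit 1098513), [(nat_lit 646554000), (nat_lit 1231250000), (nat_lit 1569696000)], [], [(nat_lit 6387191982), (nat_lit 6435519772), (nat_lit 6574462494), (nat_lit 6616749635), (nat_lit 6254125324), (nat_lit 6274451017), (nat_lit 6331752236), (nat_lit 6350076411)], (nat_lit 1271251), (nat_lit 1271251), (nat_lit 1271251), (nat_lit 1271251), (nat_lit 169688), (nat_lit 2519688), [(nat_lit 780000), (nat_lit 1435001), (nat_lit 1271251)], [(nat_lit 10), (nat_lit 54), (nat_lit 317), (nat_lit 100), (nat_lit 10)]⟩,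
 Rw.none⟩)))))
noncomputable def c17_53 : Tr Lf :=
 (.trZ (nat_lit 3) (nat_lit 4) (nat_lit 5) (nat_lit 100) (nat_lit 82) (nat_lit 76) (nat_lit 60) (.stt (nat_lit 1) (.spl (nat_lit 5) (nat_lit 200) (.leaf ⟨(nat_lit 666), (nat_lit 334), (nat_lit 0), (nat_lit 0), (nat_lit 0), (nat_lit 2949), (nat_lit 2668), (nat_lit 0), (nat_lit 0), (nat_lit 0), (nat_lit 353750), [((nat_lit 380), [((nat_lit 24), (nat_lit 0), (nat_lit 131)), ((nat_lit 41), (nat_lit 2), (nat_lit 535))])], ⟨(nat_lit 8), false, true, true, (nat_lit 332), (nat_lit 2236), (nat_lit 3163), [(nat_lit 1771478), (nat_lit 1762142), (nat_lit 1793619), (nat_lit 1784902), (nat_lit 1878147), (nat_lit 1861919), (nat_lit 1900301), (nat_lit 1884694)]⟩, ⟨(nat_lit 6), false, false, true, (nat_lit 201), (nat_lit 2236), (nat_lit 3163), [(nat_lit 1472332), (nat_lit 1465917), (nat_lit 1494487), (nat_lit 1488691), (nat_lit 1518047), (nat_lit 1508679), (nat_lit 1540202), (nat_lit 1531453)]⟩, (nat_lit 5418295),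 (nat_lit 33114899), (nat_lit 23511141), (nat_lit 10373960), (nat_lit 6), (nat_lit 0), [⟨(nat_lit 1), (nat_lit 58), (nat_lit 59), (nat_lit 100), (nat_lit 193602607)⟩], [⟨(nat_lit 1), (nat_lit 100), (nat_lit 54), (nat_lit 96), (nat_lit 452829114)⟩], [], [],
 ⟨⟨[(nat_lit 40), (nat_lit 60), (nat_lit 80)], [(nat_lit 0), (nat_lit 832), (nat_lit 1534)], [((nat_lit 0), (nat_lit 0), (nat_lit 0)), ((nat_lit 1000), (nat_lit 659), (nat_lit 528)), ((nat_lit 1000), (nat_lit 650), (nat_lit 549))], ((nat_lit 63), (nat_lit 100), (nat_lit 62))⟩, (nat_lit 909481), (nat_lit 78), (nat_lit 78), (nat_lit 0), (nat_lit 0), [(nat_lit 1492994416), (nat_lit 1626731747), (nat_lit 1760977600)], [(nat_lit 0), (nat_lit 0), (nat_lit 0)], [(nat_lit 27315900842), (nat_lit 28227605247), (nat_lit 30235041609), (nat_lit 31011541589), (nat_lit 28199932226), (nat_lit 29064392873), (nat_lit 30971124148), (nat_lit 31745129766)], (nat_lit 0), (nat_lit 0), (nat_lit 0), (nat_lit 0), (nat_lit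 0), (nat_lit 0), [], [(nat_lit 2), (nat_lit 44), (nat_lit 203), (nat_lit 0), (nat_lit 6)]⟩,
 ⟨⟨[(nat_lit 60), (nat_lit 100), (nat_lit 140)], [(nat_lit 0), (nat_lit 0), (nat_lit 2047)], [((nat_lit 0), (nat_lit 0), (nat_lit 0)), ((nat_lit 0), (nat_lit 0), (nat_lit 0)), ((nat_lit 1000), (nat_lit 993), (nat_lit 781))], ((nat_lit 94), (nat_lit 100), (nat_lit 62))⟩, (nat_lit 1111622), (nat_lit 630), (nat_lit 630), (nat_lit 0), (nat_lit 1123587), [(nat_lit 1096188000), (nat_lit 2087500000), (nat_lit 3287228000)], [], [(nat_lit 10774874185), (nat_lit 10914931900), (nat_lit 11588093123), (nat_lit 11917278782), (nat_lit 10077210218), (nat_lit 10180551885), (nat_lit 10729670649), (nat_lit 10800271906)], (nat_lit 1271251), (nat_lit 1271251), (nat_lit 1271251), (nat_lit 1271251), (nat_lit 356250), (nat_lit 1423751), [(nat_lit 780000), (nat_lit 1435001), (nat_lit 1271251)], [(nat_lit 11), (nat_lit 55), (nat_lit 269), (nat_lit 50), (nat_lit 7)]⟩,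
 Rw.none⟩) (.spl (nat_lit 6) (nat_lit 20) (.spl (nat_lit 6) (nat_lit 12) (.spl (nat_lit 2) (nat_lit 130) (.trX (nat_lit 4) (nat_lit 0) (nat_lit 2) (nat_lit 63) (nat_lit 100) (nat_lit 98) (nat_lit 260) (.trX (nat_lit 5) (nat_lit 1) (nat_lit 2) (nat_lit 98) (nat_lit 74) (nat_lit 100) (nat_lit 350) (.leaf ⟨(nat_lit 749), (nat_lit 251), (nat_lit 0), (nat_lit 0), (nat_lit 0), (nat_lit 2918), (nat_lit 1561), (nat_lit 0), (nat_lit 0), (nat_lit 0), (nat_lit 411250), [((nat_lit 380), [((nat_lit 24), (nat_lit 0), (nat_lit 109)), ((nat_lit 41), (nat_lit 2), (nat_lit 640))])], ⟨(nat_lit 8), false, true, true, (nat_lit 332), (nat_lit 2236), (nat_lit 3163), [(nat_lit 1771478), (nat_lit 1762142), (nat_lit 1793619), (nat_lit 1784902), (nat_lit 1878147), (nat_lit 1861919), (nat_lit 1900301), (nat_lit 1884694)]⟩, ⟨(nat_lit 6), false, false, true, (nat_lit 196), (nat_lit 2236), (nat_lit 3163), [(nat_lit 1472332), (nat_lit 1465917), (nat_lit 1483410), (nat_lit 1477304),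 (nat_lit 1502809), (nat_lit 1494425), (nat_lit 1513886), (nat_lit 1505812)]⟩, (nat_lit 5384020), (nat_lit 33340083), (nat_lit 23650573), (nat_lit 10009344), (nat_lit 6), (nat_lit 0), [⟨(nat_lit 1), (nat_lit 45), (nat_lit 69), (nat_lit 100), (nat_lit 176339001)⟩], [⟨(nat_lit 1), (nat_lit 100), (nat_lit 63), (nat_lit 98), (nat_lit 297562470)⟩], [⟨(nat_lit 1), (nat_lit 81), (nat_lit 96), (nat_lit 100), (nat_lit 75279343)⟩], [],
 ⟨⟨[(nat_lit 40), (nat_lit 60)], [(nat_lit 0), (nat_lit 832)], [((nat_lit 0), (nat_lit 0), (nat_lit 0)), ((nat_lit 1000), (nat_lit 659), (nat_lit 528))], ((nat_lit 72), (nat_lit 100), (nat_lit 41))⟩, (nat_lit 62044), (nat_lit 69), (nat_lit 69), (nat_lit 0), (nat_lit 0), [(nat_lit 1446230401), (nat_lit 1267974800)], [(nat_lit 0), (nat_lit 0)], [(nat_lit 27246878622), (nat_lit 28155100332), (nat_lit 30155795325), (nat_lit 30970569901), (nat_lit 27835232523), (nat_lit 28712181572), (nat_lit 30646546564), (nat_lit 31459502160)],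 (nat_lit 0), (nat_lit 0), (nat_lit 0), (nat_lit 0), (nat_lit 0), (nat_lit 0), [], [(nat_lit 1), (nat_lit 38), (nat_lit 203), (nat_lit 0), (nat_lit 7)]⟩,
 ⟨⟨[(nat_lit 60), (nat_lit 80), (nat_lit 100)], [(nat_lit 0), (nat_lit 0), (nat_lit 534)], [((nat_lit 0), (nat_lit 0), (nat_lit 0)), ((nat_lit 0), (nat_lit 0), (nat_lit 0)), ((nat_lit 1000), (nat_lit 917), (nat_lit 393))], ((nat_lit 92), (nat_lit 100), (nat_lit 34))⟩, (nat_lit 877663), (nat_lit 462), (nat_lit 462), (nat_lit 0), (nat_lit 1115129), [(nat_lit 823782000), (nat_lit 1176688000), (nat_lit 1568750000)], [], [(nat_lit 7789707460), (nat_lit 7898390788), (nat_lit 8357500364), (nat_lit 8441713834), (nat_lit 8413536870), (nat_lit 8482806286), (nat_lit 8822995399), (nat_lit 8873633900)], (nat_lit 1271251), (nat_lit 1271251), (nat_lit 1271251), (nat_lit 1271251), (nat_lit 1271251), (nat_lit 1271251), [(nat_lit 780000), (nat_lit 1100000), (nat_lit 1442501)], [(nat_lit 9), (nat_lit 50), (nat_lit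 246), (nat_lit 0), (nat_lit 7)]⟩,
 Rw.none⟩))) (.leaf ⟨(nat_lit 35), (nat_lit 816), (nat_lit 0), (nat_lit 149), (nat_lit 0), (nat_lit 3446), (nat_lit 6116), (nat_lit 1601), (nat_lit 0), (nat_lit 0), (nat_lit 140000), [((nat_lit 380), [((nat_lit 41), (nat_lit 5), (nat_lit 35))])], ⟨(nat_lit 8), false, true, true, (nat_lit 332), (nat_lit 2236), (nat_lit 3163), [(nat_lit 1771478), (nat_lit 1762142), (nat_lit 1793619), (nat_lit 1784902), (nat_lit 1878147), (nat_lit 1861919), (nat_lit 1900301), (nat_lit 1884694)]⟩, ⟨(nat_lit 6), false, false, true, (nat_lit 203), (nat_lit 2236), (nat_lit 3163), [(nat_lit 1483410), (nat_lit 1477304), (nat_lit 1494487), (nat_lit 1488691), (nat_lit 1529125), (nat_lit 1520066), (nat_lit 1540202), (nat_lit 1531453)]⟩, (nat_lit 5432728), (nat_lit 33017269), (nat_lit 23450524), (nat_lit 10532207), (nat_lit 6), (nat_lit 0), [], [⟨(nat_lit 1), (nat_lit 100), (nat_lit 54), (nat_lit 97), (nat_lit 1475327588)⟩], [⟨(nat_lit 1), (nat_lit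 76), (nat_lit 94), (nat_lit 100), (nat_lit 209744152)⟩], [],
 ⟨⟨[(nat_lit 40), (nat_lit 60)], [(nat_lit 0), (nat_lit 832)], [((nat_lit 0), (nat_lit 0), (nat_lit 0)), ((nat_lit 1000), (nat_lit 659), (nat_lit 528))], ((nat_lit 72), (nat_lit 100), (nat_lit 41))⟩, (nat_lit 2388546), (nat_lit 69), (nat_lit 69), (nat_lit 0), (nat_lit 0), [(nat_lit 1896298024), (nat_lit 2877456000)], [(nat_lit 0), (nat_lit 0)], [(nat_lit 27729624588), (nat_lit 28697164458), (nat_lit 30812680179), (nat_lit 31668410275), (nat_lit 28637712884), (nat_lit 29552641956), (nat_lit 31563457644), (nat_lit 32405041163)], (nat_lit 0), (nat_lit 0), (nat_lit 0), (nat_lit 0), (nat_lit 0), (nat_lit 0), [], [(nat_lit 1), (nat_lit 38), (nat_lit 203), (nat_lit 0), (nat_lit 7)]⟩,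
 ⟨⟨[(nat_lit 60), (nat_lit 80), (nat_lit 100)], [(nat_lit 0), (nat_lit 0), (nat_lit 534)], [((nat_lit 0), (nat_lit 0), (nat_lit 0)), ((nat_lit 0), (nat_lit 0), (nat_lit 0)), ((nat_lit 1000), (nat_lit 917), (nat_lit 393))], ((nat_lit 92), (nat_lit 100), (nat_lit 34))⟩, (nat_lit 5330198), (nat_lit 445), (nat_lit 445), (nat_lit 0), (nat_lit 1064830), [(nat_lit 3167130000), (nat_lit 4523920000), (nat_lit 6031250000)], [], [(nat_lit 29366052761), (nat_lit 29784649584), (nat_lit 31563703660), (nat_lit 31886790537), (nat_lit 32003153546), (nat_lit 32256938825), (nat_lit 34203370220), (nat_lit 34738571587)], (nat_lit 1271251), (nat_lit 1271251), (nat_lit 1271251), (nat_lit 1271251), (nat_lit 1271251), (nat_lit 1271251), [(nat_lit 780000), (nat_lit 1100000), (nat_lit 1442501)], [(nat_lit 9), (nat_lit 50), (nat_lit 243), (nat_lit 0), (nat_lit 7)]⟩,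
 ⟨⟨[(nat_lit 140), (nat_lit 160), (nat_lit 180)], [(nat_lit 0), (nat_lit 151), (nat_lit 943)], [((nat_lit 0), (nat_lit 0), (nat_lit 0)), ((nat_lit 955), (nat_lit 1000), (nat_lit 113)), ((nat_lit 742), (nat_lit 1000), (nat_lit 459))], ((nat_lit 100), (nat_lit 81), (nat_lit 36))⟩, (nat_lit 1192307), (nat_lit 300), (nat_lit 2357), (nat_lit 10474700), (nat_lit 4375115), [(nat_lit 1466458000), (nat_lit 1768928000), (nat_lit 2094642000)], [], [(nat_lit 7363445438), (nat_lit 7312853350), (nat_lit 7290917080), (nat_lit 7232455844), (nat_lit 7001504025), (nat_lit 6941534426), (nat_lit 6935846438), (nat_lit 6875258567)], (nat_lit 857188), (nat_lit 936250), (nat_lit 1271251), (nat_lit 1271251), (nat_lit 1271251), (nat_lit 1271251), [(nat_lit 1977501), (nat_lit 1271251), (nat_lit 1271251)], [(nat_lit 31), (nat_lit 65), (nat_lit 686), (nat_lit 200), (nat_lit 15)]⟩⟩)) (.leaf ⟨(nat_lit 0), (nat_lit 852), (nat_lit 0), (nat_lit 148), (nat_lit 0), (nat_lit 3673),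 (nat_lit 7225), (nat_lit 1664), (nat_lit 0), (nat_lit 0), (nat_lit 0), [], Pd.none, Pd.none, (nat_lit 0), (nat_lit 1), (nat_lit 0), (nat_lit 0), (nat_lit 6), (nat_lit 0), [], [⟨(nat_lit 1), (nat_lit 100), (nat_lit 54), (nat_lit 96), (nat_lit 1724738491)⟩], [⟨(nat_lit 1), (nat_lit 78), (nat_lit 95), (nat_lit 100), (nat_lit 206960770)⟩], [],
 ⟨⟨[(nat_lit 40), (nat_lit 60)], [(nat_lit 0), (nat_lit 832)], [((nat_lit 0), (nat_lit 0), (nat_lit 0)), ((nat_lit 1000), (nat_lit 659), (nat_lit 528))], ((nat_lit 68), (nat_lit 100), (nat_lit 49))⟩, (nat_lit 1355939), (nat_lit 69), (nat_lit 69), (nat_lit 0), (nat_lit 0), [(nat_lit 2032000016), (nat_lit 3282000000)], [], [(nat_lit 27862836558), (nat_lit 28814624987), (nat_lit 31057085923), (nat_lit 31968428769), (nat_lit 28745684070), (nat_lit 29678638905), (nat_lit 31846294181), (nat_lit 32706449386)], (nat_lit 0), (nat_lit 0), (nat_lit 0), (nat_lit 0), (nat_lit 0), (nat_lit 0), [], [(nat_lit 1), (nat_lit 38),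 (nat_lit 203), (nat_lit 0), (nat_lit 7)]⟩,
 ⟨⟨[(nat_lit 60), (nat_lit 100), (nat_lit 120)], [(nat_lit 0), (nat_lit 0), (nat_lit 1164)], [((nat_lit 0), (nat_lit 0), (nat_lit 0)), ((nat_lit 0), (nat_lit 0), (nat_lit 0)), ((nat_lit 1000), (nat_lit 933), (nat_lit 572))], ((nat_lit 92), (nat_lit 100), (nat_lit 44))⟩, (nat_lit 1498635), (nat_lit 431), (nat_lit 431), (nat_lit 0), (nat_lit 919530), [(nat_lit 3282000000), (nat_lit 6250000000), (nat_lit 7968000000)], [], [(nat_lit 31996899010), (nat_lit 32391196060), (nat_lit 34269660979), (nat_lit 34554626867), (nat_lit 34342068375), (nat_lit 34583890913), (nat_lit 36554046913), (nat_lit 37118139316)], (nat_lit 1271251), (nat_lit 1271251), (nat_lit 1271251), (nat_lit 1271251), (nat_lit 1271251), (nat_lit 1271251), [(nat_lit 780000), (nat_lit 1435001), (nat_lit 1271251)], [(nat_lit 10), (nat_lit 54), (nat_lit 317), (nat_lit 100), (nat_lit 9)]⟩,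
 ⟨⟨[(nat_lit 140), (nat_lit 160), (nat_lit 180)], [(nat_lit 0), (nat_lit 0), (nat_lit 799)], [((nat_lit 0), (nat_lit 0), (nat_lit 0)), ((nat_lit 0), (nat_lit 0), (nat_lit 0)), ((nat_lit 728), (nat_lit 1000), (nat_lit 454))], ((nat_lit 100), (nat_lit 71), (nat_lit 48))⟩, (nat_lit 130033), (nat_lit 300), (nat_lit 2406), (nat_lit 10981600), (nat_lit 4456870), [(nat_lit 1456616000), (nat_lit 1757056000), (nat_lit 2080584000)], [], [(nat_lit 7477405928), (nat_lit 7356287111), (nat_lit 7399871711), (nat_lit 7276765994), (nat_lit 7101520584), (nat_lit 6975179104), (nat_lit 7030962849), (nat_lit 6903356206)], (nat_lit 780000), (nat_lit 936250), (nat_lit 1271251), (nat_lit 1271251), (nat_lit 1271251), (nat_lit 1271251), [(nat_lit 1977501), (nat_lit 1271251), (nat_lit 1271251)], [(nat_lit 31), (nat_lit 65), (nat_lit 698), (nat_lit 200), (nat_lit 15)]⟩⟩)) (.leaf ⟨(nat_lit 0), (nat_lit 863), (nat_lit 0), (nat_lit 137), (nat_lit 0), (nat_lit 3725), (nat_lit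 6862), (nat_lit 1602), (nat_lit 0), (nat_lit 0), (nat_lit 0), [], Pd.none, Pd.none, (nat_lit 0), (nat_lit 1), (nat_lit 0), (nat_lit 0), (nat_lit 6), (nat_lit 0), [], [⟨(nat_lit 1), (nat_lit 100), (nat_lit 54), (nat_lit 96), (nat_lit 1621435915)⟩], [⟨(nat_lit 1), (nat_lit 78), (nat_lit 95), (nat_lit 100), (nat_lit 217135148)⟩], [],
 ⟨⟨[(nat_lit 40), (nat_lit 60), (nat_lit 80)], [(nat_lit 0), (nat_lit 832), (nat_lit 1534)], [((nat_lit 0), (nat_lit 0), (nat_lit 0)), ((nat_lit 1000), (nat_lit 659), (nat_lit 528)), ((nat_lit 1000), (nat_lit 650), (nat_lit 549))], ((nat_lit 63), (nat_lit 100), (nat_lit 62))⟩, (nat_lit 1761854), (nat_lit 78), (nat_lit 78), (nat_lit 0), (nat_lit 0), [(nat_lit 2032000047), (nat_lit 3422073529), (nat_lit 4688000000)], [], [(nat_lit 27869215861), (nat_lit 28779442186), (nat_lit 31121043232), (nat_lit 32037155472), (nat_lit 28710099399), (nat_lit 29661956988), (nat_lit 31911084930), (nat_lit 32775494442)], (nat_lit 0), (nat_lit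 0), (nat_lit 0), (nat_lit 0), (nat_lit 0), (nat_lit 0), [], [(nat_lit 2), (nat_lit 44), (nat_lit 203), (nat_lit 0), (nat_lit 6)]⟩,
 ⟨⟨[(nat_lit 60), (nat_lit 100), (nat_lit 140)], [(nat_lit 0), (nat_lit 0), (nat_lit 2047)], [((nat_lit 0), (nat_lit 0), (nat_lit 0)), ((nat_lit 0), (nat_lit 0), (nat_lit 0)), ((nat_lit 1000), (nat_lit 993), (nat_lit 781))], ((nat_lit 94), (nat_lit 100), (nat_lit 62))⟩, (nat_lit 2049622), (nat_lit 437), (nat_lit 437), (nat_lit 0), (nat_lit 813965), [(nat_lit 3282000000), (nat_lit 6250000000), (nat_lit 9842000000)], [], [(nat_lit 31312195790), (nat_lit 31785137866), (nat_lit 33931210181), (nat_lit 34280623061), (nat_lit 34191052108), (nat_lit 34538801406), (nat_lit 36308148291), (nat_lit 36660032000)], (nat_lit 1271251), (nat_lit 1271251), (nat_lit 1271251), (nat_lit 1271251), (nat_lit 1271251), (nat_lit 1271251), [(nat_lit 780000), (nat_lit 1435001), (nat_lit 1271251)], [(nat_lit 11), (nat_lit 55), (nat_lit 317), (nat_lit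 100), (nat_lit 8)]⟩,
 ⟨⟨[(nat_lit 140), (nat_lit 180), (nat_lit 200)], [(nat_lit 0), (nat_lit 0), (nat_lit 2835)], [((nat_lit 0), (nat_lit 0), (nat_lit 0)), ((nat_lit 0), (nat_lit 0), (nat_lit 0)), ((nat_lit 363), (nat_lit 1000), (nat_lit 798))], ((nat_lit 0), (nat_lit 0), (nat_lit 0))⟩, (nat_lit 37693), (nat_lit 300), (nat_lit 2219), (nat_lit 10699702), (nat_lit 4005727), [(nat_lit 1348354000), (nat_lit 1925946000), (nat_lit 2246800000)], [], [(nat_lit 7989615384), (nat_lit 7859895649), (nat_lit 7901505166), (nat_lit 7771585537), (nat_lit 7524233676), (nat_lit 7390515012), (nat_lit 7449071705), (nat_lit 7315570886)], (nat_lit 780000), (nat_lit 936250), (nat_lit 1271251), (nat_lit 1271251), (nat_lit 1271251), (nat_lit 1271251), [(nat_lit 1977501), (nat_lit 1271251), (nat_lit 1271251)], [(nat_lit 32), (nat_lit 67), (nat_lit 651), (nat_lit 200), (nat_lit 13)]⟩⟩))) (.leaf ⟨(nat_lit 0), (nat_lit 748), (nat_lit 0), (nat_lit 252), (nat_lit 0), (nat_lit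 4226), (nat_lit 6899), (nat_lit 2671), (nat_lit 0), (nat_lit 0), (nat_lit 0), [], Pd.none, Pd.none, (nat_lit 0), (nat_lit 1), (nat_lit 0), (nat_lit 0), (nat_lit 6), (nat_lit 0), [], [⟨(nat_lit 1), (nat_lit 100), (nat_lit 54), (nat_lit 96), (nat_lit 670672595)⟩], [], [],
 ⟨⟨[(nat_lit 40), (nat_lit 60), (nat_lit 80)], [(nat_lit 0), (nat_lit 832), (nat_lit 1534)], [((nat_lit 0), (nat_lit 0), (nat_lit 0)), ((nat_lit 1000), (nat_lit 659), (nat_lit 528)), ((nat_lit 1000), (nat_lit 650), (nat_lit 549))], ((nat_lit 63), (nat_lit 100), (nat_lit 62))⟩, (nat_lit 988691), (nat_lit 164), (nat_lit 164), (nat_lit 0), (nat_lit 317028), [(nat_lit 2032000034), (nat_lit 3282000038), (nat_lit 4688000000)], [], [(nat_lit 28939398618), (nat_lit 29806383516), (nat_lit 31737247305), (nat_lit 32699310827), (nat_lit 29723354150), (nat_lit 30542637600), (nat_lit 32535318875), (nat_lit 33440716997)], (nat_lit 1271251), (nat_lit 1271251), (nat_lit 1271251), (nat_lit 1271251),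 (nat_lit 1271251), (nat_lit 1271251), [(nat_lit 490000), (nat_lit 780000), (nat_lit 1100000)], [(nat_lit 2), (nat_lit 44), (nat_lit 203), (nat_lit 0), (nat_lit 6)]⟩,
 ⟨⟨[(nat_lit 60), (nat_lit 100), (nat_lit 140)], [(nat_lit 0), (nat_lit 0), (nat_lit 2047)], [((nat_lit 0), (nat_lit 0), (nat_lit 0)), ((nat_lit 0), (nat_lit 0), (nat_lit 0)), ((nat_lit 1000), (nat_lit 993), (nat_lit 781))], ((nat_lit 94), (nat_lit 100), (nat_lit 62))⟩, (nat_lit 1679427), (nat_lit 338), (nat_lit 338), (nat_lit 0), (nat_lit 430439), [(nat_lit 3282000000), (nat_lit 6250000000), (nat_lit 9842000000)], [], [(nat_lit 31428687831), (nat_lit 32217878036), (nat_lit 35500465908), (nat_lit 36093430450), (nat_lit 33881630493), (nat_lit 34247081411), (nat_lit 36271391796), (nat_lit 36706726134)], (nat_lit 1271251), (nat_lit 1271251), (nat_lit 1271251), (nat_lit 1271251), (nat_lit 356250), (nat_lit 2643751), [(nat_lit 780000), (nat_lit 1435001), (nat_lit 1271251)], [(nat_lit 11),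 (nat_lit 55), (nat_lit 317), (nat_lit 100), (nat_lit 8)]⟩,
 ⟨⟨[(nat_lit 140), (nat_lit 180), (nat_lit 200)], [(nat_lit 0), (nat_lit 0), (nat_lit 2835)], [((nat_lit 0), (nat_lit 0), (nat_lit 0)), ((nat_lit 0), (nat_lit 0), (nat_lit 0)), ((nat_lit 363), (nat_lit 1000), (nat_lit 798))], ((nat_lit 0), (nat_lit 0), (nat_lit 0))⟩, (nat_lit 69333), (nat_lit 300), (nat_lit 964), (nat_lit 19681205), (nat_lit 1242341), [(nat_lit 2480184000), (nat_lit 3542616000), (nat_lit 4132800000)], [], [(nat_lit 17581794021), (nat_lit 17369513758), (nat_lit 17434309782), (nat_lit 17220762184), (nat_lit 15128431787), (nat_lit 15722560675), (nat_lit 14975245581), (nat_lit 14756488241)], (nat_lit 780000), (nat_lit 936250), (nat_lit 1271251), (nat_lit 1271251), (nat_lit 356250), (nat_lit 2643751), [(nat_lit 1977501), (nat_lit 1271251), (nat_lit 1271251)], [(nat_lit 32), (nat_lit 67), (nat_lit 428), (nat_lit 200), (nat_lit 9)]⟩⟩)))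
noncomputable def c17_54 : Tr Lf :=
 (.spl (nat_lit 3) (nat_lit 320) (.leaf ⟨(nat_lit 764), (nat_lit 185), (nat_lit 0), (nat_lit 51), (nat_lit 0), (nat_lit 3179), (nat_lit 1823), (nat_lit 533), (nat_lit 0), (nat_lit 0), (nat_lit 421300), [((nat_lit 380), [((nat_lit 24), (nat_lit 0), (nat_lit 106)), ((nat_lit 41), (nat_lit 2), (nat_lit 658))])], ⟨(nat_lit 7), false, true, false, (nat_lit 288), (nat_lit 2236), (nat_lit 3163), [(nat_lit 1649422), (nat_lit 1647962), (nat_lit 1671514), (nat_lit 1670673), (nat_lit 1771478), (nat_lit 1762142), (nat_lit 1793619), (nat_lit 1784902)]⟩, ⟨(nat_lit 6), false, false, true, (nat_lit 216), (nat_lit 2236), (nat_lit 3163), [(nat_lit 1494487), (nat_lit 1488691), (nat_lit 1516642), (nat_lit 1511466), (nat_lit 1570679), (nat_lit 1559961), (nat_lit 1592834), (nat_lit 1582735)]⟩, (nat_lit 5441899), (nat_lit 35328982), (nat_lit 19457491), (nat_lit 12213527), (nat_lit 6), (nat_lit 0), [], [⟨(nat_lit 1), (nat_lit 99), (nat_lit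 54), (nat_lit 100), (nat_lit 323030022)⟩], [], [],
 ⟨⟨[(nat_lit 40), (nat_lit 60), (nat_lit 80)], [(nat_lit 0), (nat_lit 832), (nat_lit 1534)], [((nat_lit 0), (nat_lit 0), (nat_lit 0)), ((nat_lit 1000), (nat_lit 659), (nat_lit 528)), ((nat_lit 1000), (nat_lit 650), (nat_lit 549))], ((nat_lit 63), (nat_lit 100), (nat_lit 62))⟩, (nat_lit 125575), (nat_lit 136), (nat_lit 136), (nat_lit 0), (nat_lit 291680), [(nat_lit 1437841606), (nat_lit 1313548297), (nat_lit 1252419200)], [(nat_lit 0), (nat_lit 0), (nat_lit 0)], [(nat_lit 24835890310), (nat_lit 25781066284), (nat_lit 27310373548), (nat_lit 28200058816), (nat_lit 26382343224), (nat_lit 27245096646), (nat_lit 28766257498), (nat_lit 29704678914)], (nat_lit 1271251), (nat_lit 1271251), (nat_lit 1271251), (nat_lit 1271251), (nat_lit 1271251), (nat_lit 1271251), [(nat_lit 490000), (nat_lit 780000), (nat_lit 1100000)], [(nat_lit 2), (nat_lit 44), (nat_lit 203), (nat_lit 0), (nat_lit 6)]⟩,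
 ⟨⟨[(nat_lit 60), (nat_lit 100), (nat_lit 140)], [(nat_lit 0), (nat_lit 0), (nat_lit 2047)], [((nat_lit 0), (nat_lit 0), (nat_lit 0)), ((nat_lit 0), (nat_lit 0), (nat_lit 0)), ((nat_lit 1000), (nat_lit 993), (nat_lit 781))], ((nat_lit 94), (nat_lit 100), (nat_lit 62))⟩, (nat_lit 515603), (nat_lit 637), (nat_lit 637), (nat_lit 0), (nat_lit 1029223), [(nat_lit 774552000), (nat_lit 1475000000), (nat_lit 2322712000)], [], [(nat_lit 7987281282), (nat_lit 8094706479), (nat_lit 8362912123), (nat_lit 8466849860), (nat_lit 7725527377), (nat_lit 7774706128), (nat_lit 7886384635), (nat_lit 8060814668)], (nat_lit 1271251), (nat_lit 1271251), (nat_lit 1271251), (nat_lit 1271251), (nat_lit 54688), (nat_lit 2630938), [(nat_lit 780000), (nat_lit 1435001), (nat_lit 1271251)], [(nat_lit 11), (nat_lit 55), (nat_lit 401), (nat_lit 175), (nat_lit 11)]⟩,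
 ⟨⟨[(nat_lit 140), (nat_lit 180), (nat_lit 200)], [(nat_lit 0), (nat_lit 608), (nat_lit 3317)], [((nat_lit 0), (nat_lit 0), (nat_lit 0)), ((nat_lit 913), (nat_lit 1000), (nat_lit 217)), ((nat_lit 385), (nat_lit 1000), (nat_lit 814))], ((nat_lit 0), (nat_lit 0), (nat_lit 0))⟩, (nat_lit 117770), (nat_lit 300), (nat_lit 2161), (nat_lit 3585300), (nat_lit 3715317), [(nat_lit 501942000), (nat_lit 716958000), (nat_lit 836400000)], [], [(nat_lit 3404271667), (nat_lit 3360518181), (nat_lit 3351378152), (nat_lit 3307208596), (nat_lit 3029148850), (nat_lit 3180052501), (nat_lit 2680548538), (nat_lit 2636745635)], (nat_lit 936250), (nat_lit 1100000), (nat_lit 1271251), (nat_lit 1271251), (nat_lit 54688), (nat_lit 2630938), [(nat_lit 1977501), (nat_lit 1271251), (nat_lit 1271251)], [(nat_lit 32), (nat_lit 67), (nat_lit 643), (nat_lit 225), (nat_lit 13)]⟩⟩) (.trZ (nat_lit 3) (nat_lit 4) (nat_lit 5) (nat_lit 100) (nat_lit 82) (nat_lit 76) (nat_lit 60) (.spl (nat_lit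 1) (nat_lit 290) (.trX (nat_lit 3) (nat_lit 0) (nat_lit 1) (nat_lit 67) (nat_lit 50) (nat_lit 100) (nat_lit 380) (.leaf ⟨(nat_lit 707), (nat_lit 231), (nat_lit 0), (nat_lit 62), (nat_lit 0), (nat_lit 3077), (nat_lit 2136), (nat_lit 643), (nat_lit 0), (nat_lit 0), (nat_lit 382200), [((nat_lit 380), [((nat_lit 24), (nat_lit 0), (nat_lit 120)), ((nat_lit 41), (nat_lit 2), (nat_lit 587))])], ⟨(nat_lit 8), false, true, true, (nat_lit 327), (nat_lit 2236), (nat_lit 3163), [(nat_lit 1771478), (nat_lit 1762142), (nat_lit 1782556), (nat_lit 1773529), (nat_lit 1862908), (nat_lit 1847666), (nat_lit 1873986), (nat_lit 1859053)]⟩, ⟨(nat_lit 6), false, false, true, (nat_lit 216), (nat_lit 2236), (nat_lit 3163), [(nat_lit 1494487), (nat_lit 1488691), (nat_lit 1516642), (nat_lit 1511466), (nat_lit 1570679), (nat_lit 1559961), (nat_lit 1592834), (nat_lit 1582735)]⟩, (nat_lit 5505929), (nat_lit 32793553), (nat_lit 22685282), (nat_lit 11521165), (nat_lit 6), (nat_lit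 0), [⟨(nat_lit 1), (nat_lit 60), (nat_lit 58), (nat_lit 100), (nat_lit 202026969)⟩], [⟨(nat_lit 1), (nat_lit 99), (nat_lit 54), (nat_lit 100), (nat_lit 316491608)⟩], [⟨(nat_lit 1), (nat_lit 66), (nat_lit 93), (nat_lit 100), (nat_lit 5513344)⟩], [],
 ⟨⟨[(nat_lit 40), (nat_lit 60), (nat_lit 80)], [(nat_lit 0), (nat_lit 832), (nat_lit 1534)], [((nat_lit 0), (nat_lit 0), (nat_lit 0)), ((nat_lit 1000), (nat_lit 659), (nat_lit 528)), ((nat_lit 1000), (nat_lit 650), (nat_lit 549))], ((nat_lit 63), (nat_lit 100), (nat_lit 62))⟩, (nat_lit 433132), (nat_lit 145), (nat_lit 145), (nat_lit 0), (nat_lit 279676), [(nat_lit 1469836801), (nat_lit 1457176177), (nat_lit 1547262400)], [(nat_lit 0), (nat_lit 0), (nat_lit 0)], [(nat_lit 27560188393), (nat_lit 28438196590), (nat_lit 29973697845), (nat_lit 30741448472), (nat_lit 28982635737), (nat_lit 29785728042), (nat_lit 31201536663), (nat_lit 32003624243)], (nat_lit 1271251), (nat_lit 1271251), (nat_lit 1271251), (nat_lit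 1271251), (nat_lit 1271251), (nat_lit 1271251), [(nat_lit 490000), (nat_lit 780000), (nat_lit 1100000)], [(nat_lit 2), (nat_lit 44), (nat_lit 203), (nat_lit 0), (nat_lit 6)]⟩,
 ⟨⟨[(nat_lit 60), (nat_lit 100), (nat_lit 140)], [(nat_lit 0), (nat_lit 0), (nat_lit 2047)], [((nat_lit 0), (nat_lit 0), (nat_lit 0)), ((nat_lit 0), (nat_lit 0), (nat_lit 0)), ((nat_lit 1000), (nat_lit 993), (nat_lit 781))], ((nat_lit 94), (nat_lit 100), (nat_lit 62))⟩, (nat_lit 832731), (nat_lit 595), (nat_lit 595), (nat_lit 0), (nat_lit 1026917), [(nat_lit 961626000), (nat_lit 1831250000), (nat_lit 2883706000)], [], [(nat_lit 10335958208), (nat_lit 10397081007), (nat_lit 10926428786), (nat_lit 10973546227), (nat_lit 10426110127), (nat_lit 10447177570), (nat_lit 10730440878), (nat_lit 10805006308)], (nat_lit 1271251), (nat_lit 1271251), (nat_lit 1271251), (nat_lit 1271251), (nat_lit 356250), (nat_lit 2720001), [(nat_lit 780000), (nat_lit 1435001), (nat_lit 1271251)], [(nat_lit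 11), (nat_lit 55), (nat_lit 317), (nat_lit 100), (nat_lit 8)]⟩,
 ⟨⟨[(nat_lit 140), (nat_lit 180), (nat_lit 200)], [(nat_lit 0), (nat_lit 608), (nat_lit 3317)], [((nat_lit 0), (nat_lit 0), (nat_lit 0)), ((nat_lit 913), (nat_lit 1000), (nat_lit 217)), ((nat_lit 385), (nat_lit 1000), (nat_lit 814))], ((nat_lit 0), (nat_lit 0), (nat_lit 0))⟩, (nat_lit 169212), (nat_lit 300), (nat_lit 2053), (nat_lit 4358600), (nat_lit 3560363), [(nat_lit 610204000), (nat_lit 871596000), (nat_lit 1016800000)], [], [(nat_lit 3961130914), (nat_lit 3916128229), (nat_lit 3888973796), (nat_lit 3836931875), (nat_lit 3348286089), (nat_lit 3304304971), (nat_lit 3283284630), (nat_lit 3230547256)], (nat_lit 936250), (nat_lit 1100000), (nat_lit 1271251), (nat_lit 1271251), (nat_lit 356250), (nat_lit 2720001), [(nat_lit 1977501), (nat_lit 1271251), (nat_lit 1271251)], [(nat_lit 32), (nat_lit 67), (nat_lit 616), (nat_lit 225), (nat_lit 13)]⟩⟩)) (.trX (nat_lit 5) (nat_lit 1) (nat_lit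 2) (nat_lit 91) (nat_lit 63) (nat_lit 100) (nat_lit 360) (.leaf ⟨(nat_lit 0), (nat_lit 842), (nat_lit 0), (nat_lit 158), (nat_lit 0), (nat_lit 3894), (nat_lit 5993), (nat_lit 1646), (nat_lit 0), (nat_lit 0), (nat_lit 0), [], Pd.none, Pd.none, (nat_lit 0), (nat_lit 1), (nat_lit 0), (nat_lit 0), (nat_lit 6), (nat_lit 0), [], [⟨(nat_lit 1), (nat_lit 99), (nat_lit 54), (nat_lit 100), (nat_lit 478311602)⟩], [⟨(nat_lit 1), (nat_lit 70), (nat_lit 91), (nat_lit 100), (nat_lit 81581968)⟩], [],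
 ⟨⟨[(nat_lit 40), (nat_lit 60), (nat_lit 80)], [(nat_lit 0), (nat_lit 832), (nat_lit 1534)], [((nat_lit 0), (nat_lit 0), (nat_lit 0)), ((nat_lit 1000), (nat_lit 659), (nat_lit 528)), ((nat_lit 1000), (nat_lit 650), (nat_lit 549))], ((nat_lit 63), (nat_lit 100), (nat_lit 62))⟩, (nat_lit 1422437), (nat_lit 155), (nat_lit 155), (nat_lit 0), (nat_lit 291641), [(nat_lit 2032000048), (nat_lit 3288718808), (nat_lit 4688000000)], [], [(nat_lit 28623113198), (nat_lit 29499568324), (nat_lit 31490812547), (nat_lit 32260517259), (nat_lit 30002847254), (nat_lit 30829615094), (nat_lit 32650155115), (nat_lit 33492806615)], (nat_lit 1271251), (nat_lit 1271251), (nat_lit 1271251), (nat_lit 1271251), (nat_lit 1271251), (nat_lit 1271251), [(nat_lit 490000), (nat_lit 780000), (nat_lit 1100000)], [(nat_lit 2), (nat_lit 44), (nat_lit 203), (nat_lit 0), (nat_lit 6)]⟩,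
 ⟨⟨[(nat_lit 60), (nat_lit 100), (nat_lit 120)], [(nat_lit 0), (nat_lit 302), (nat_lit 1376)], [((nat_lit 0), (nat_lit 0), (nat_lit 0)), ((nat_lit 1000), (nat_lit 953), (nat_lit 118)), ((nat_lit 1000), (nat_lit 911), (nat_lit 628))], ((nat_lit 91), (nat_lit 100), (nat_lit 61))⟩, (nat_lit 6254793), (nat_lit 532), (nat_lit 532), (nat_lit 0), (nat_lit 1007919), [(nat_lit 3282000000), (nat_lit 6250000000), (nat_lit 7968000000)], [], [(nat_lit 32270623679), (nat_lit 32451286640), (nat_lit 34180778151), (nat_lit 34319280221), (nat_lit 32836189820), (nat_lit 32915176852), (nat_lit 35287886686), (nat_lit 35563350850)], (nat_lit 1271251), (nat_lit 1271251), (nat_lit 1271251), (nat_lit 1271251), (nat_lit 356250), (nat_lit 2643751), [(nat_lit 780000), (nat_lit 1435001), (nat_lit 1271251)], [(nat_lit 10), (nat_lit 54), (nat_lit 317), (nat_lit 100), (nat_lit 9)]⟩,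
 ⟨⟨[(nat_lit 140), (nat_lit 180), (nat_lit 200)], [(nat_lit 0), (nat_lit 608), (nat_lit 3317)], [((nat_lit 0), (nat_lit 0), (nat_lit 0)), ((nat_lit 913), (nat_lit 1000), (nat_lit 217)), ((nat_lit 385), (nat_lit 1000), (nat_lit 814))], ((nat_lit 0), (nat_lit 0), (nat_lit 0))⟩, (nat_lit 364855), (nat_lit 300), (nat_lit 2130), (nat_lit 11107401), (nat_lit 3715317), [(nat_lit 1555036000), (nat_lit 2221164000), (nat_lit 2591200000)], [], [(nat_lit 10034145714), (nat_lit 9901819412), (nat_lit 9870281096), (nat_lit 9736905431), (nat_lit 8499851978), (nat_lit 8368859974), (nat_lit 8343104507), (nat_lit 8208418827)], (nat_lit 936250), (nat_lit 1100000), (nat_lit 1271251), (nat_lit 1271251), (nat_lit 356250), (nat_lit 2643751), [(nat_lit 1977501), (nat_lit 1271251), (nat_lit 1271251)], [(nat_lit 32), (nat_lit 67), (nat_lit 634), (nat_lit 225), (nat_lit 13)]⟩⟩)))))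
noncomputable def c17_55 : Tr Lf :=
 (.trX (nat_lit 5) (nat_lit 1) (nat_lit 2) (nat_lit 88) (nat_lit 68) (nat_lit 100) (nat_lit 350) (.spl (nat_lit 3) (nat_lit 320) (.spl (nat_lit 6) (nat_lit 20) (.spl (nat_lit 0) (nat_lit 370) (.leaf ⟨(nat_lit 543), (nat_lit 457), (nat_lit 0), (nat_lit 0), (nat_lit 0), (nat_lit 3375), (nat_lit 2630), (nat_lit 0), (nat_lit 0), (nat_lit 0), (nat_lit 269450), [((nat_lit 370), [((nat_lit 24), (nat_lit 0), (nat_lit 161)), ((nat_lit 41), (nat_lit 2), (nat_lit 382))])], ⟨(nat_lit 7), false, true, false, (nat_lit 297), (nat_lit 2738), (nat_lit 3163), [(nat_lit 1671685), (nat_lit 1671105), (nat_lit 1693828), (nat_lit 1693511), (nat_lit 1793629), (nat_lit 1789265), (nat_lit 1815772), (nat_lit 1811670)]⟩, ⟨(nat_lit 6), false, false, true, (nat_lit 212), (nat_lit 2738), (nat_lit 3163), [(nat_lit 1472332), (nat_lit 1469390), (nat_lit 1516642), (nat_lit 1514225), (nat_lit 1548524), (nat_lit 1543217), (nat_lit 1592834), (nat_lit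 1588052)]⟩, (nat_lit 5442184), (nat_lit 34889732), (nat_lit 20333020), (nat_lit 11777248), (nat_lit 6), (nat_lit 0), [], [⟨(nat_lit 1), (nat_lit 100), (nat_lit 59), (nat_lit 100), (nat_lit 442077054)⟩], [⟨(nat_lit 1), (nat_lit 68), (nat_lit 88), (nat_lit 100), (nat_lit 102478126)⟩], [],
 ⟨⟨[(nat_lit 40), (nat_lit 60)], [(nat_lit 0), (nat_lit 832)], [((nat_lit 0), (nat_lit 0), (nat_lit 0)), ((nat_lit 1000), (nat_lit 659), (nat_lit 528))], ((nat_lit 68), (nat_lit 100), (nat_lit 49))⟩, (nat_lit 477558), (nat_lit 131), (nat_lit 131), (nat_lit 0), (nat_lit 326813), [(nat_lit 1562070416), (nat_lit 1896171600)], [(nat_lit 0), (nat_lit 0)], [(nat_lit 24709624426), (nat_lit 25218939489), (nat_lit 27387466498), (nat_lit 27862483750), (nat_lit 26357123342), (nat_lit 26840708819), (nat_lit 28951264250), (nat_lit 29431080469)], (nat_lit 1271251), (nat_lit 1271251), (nat_lit 1271251), (nat_lit 1271251), (nat_lit 1271251), (nat_lit 1271251), [(nat_lit 490000),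 (nat_lit 780000)], [(nat_lit 1), (nat_lit 38), (nat_lit 203), (nat_lit 0), (nat_lit 8)]⟩,
 ⟨⟨[(nat_lit 60), (nat_lit 80), (nat_lit 100)], [(nat_lit 0), (nat_lit 304), (nat_lit 825)], [((nat_lit 0), (nat_lit 0), (nat_lit 0)), ((nat_lit 1000), (nat_lit 905), (nat_lit 238)), ((nat_lit 1000), (nat_lit 871), (nat_lit 407))], ((nat_lit 87), (nat_lit 100), (nat_lit 44))⟩, (nat_lit 1966190), (nat_lit 484), (nat_lit 484), (nat_lit 0), (nat_lit 971235), [(nat_lit 1499874000), (nat_lit 2142416000), (nat_lit 2856250000)], [], [(nat_lit 12374176015), (nat_lit 12710180584), (nat_lit 13533577329), (nat_lit 13808042910), (nat_lit 13481558755), (nat_lit 13669103965), (nat_lit 14155008082), (nat_lit 14503245903)], (nat_lit 1271251), (nat_lit 1271251), (nat_lit 1271251), (nat_lit 1271251), (nat_lit 54688), (nat_lit 2487813), [(nat_lit 780000), (nat_lit 1100000), (nat_lit 1442501)], [(nat_lit 9), (nat_lit 50), (nat_lit 317), (nat_lit 100), (nat_lit 11)]⟩,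
 Rw.none⟩) (.trX (nat_lit 4) (nat_lit 0) (nat_lit 2) (nat_lit 54) (nat_lit 96) (nat_lit 100) (nat_lit 270) (.leaf ⟨(nat_lit 649), (nat_lit 351), (nat_lit 0), (nat_lit 0), (nat_lit 0), (nat_lit 3250), (nat_lit 2020), (nat_lit 0), (nat_lit 0), (nat_lit 0), (nat_lit 342150), [((nat_lit 380), [((nat_lit 24), (nat_lit 0), (nat_lit 135)), ((nat_lit 41), (nat_lit 2), (nat_lit 514))])], ⟨(nat_lit 7), false, true, false, (nat_lit 296), (nat_lit 2236), (nat_lit 2739), [(nat_lit 1671081), (nat_lit 1670819), (nat_lit 1693478), (nat_lit 1693574), (nat_lit 1789269), (nat_lit 1784917), (nat_lit 1811671), (nat_lit 1807675)]⟩, ⟨(nat_lit 6), false, false, true, (nat_lit 205), (nat_lit 2236), (nat_lit 2739), [(nat_lit 1469390), (nat_lit 1465917), (nat_lit 1514225), (nat_lit 1511466), (nat_lit 1513686), (nat_lit 1508679), (nat_lit 1558521), (nat_lit 1554227)]⟩, (nat_lit 5394180), (nat_lit 35327826), (nat_lit 20435935), (nat_lit 11236239), (nat_lit 6), (nat_lit 0),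 [], [⟨(nat_lit 1), (nat_lit 96), (nat_lit 54), (nat_lit 100), (nat_lit 410289138)⟩], [⟨(nat_lit 1), (nat_lit 68), (nat_lit 88), (nat_lit 100), (nat_lit 77115476)⟩], [],
 ⟨⟨[(nat_lit 40), (nat_lit 60)], [(nat_lit 0), (nat_lit 1134)], [((nat_lit 0), (nat_lit 0), (nat_lit 0)), ((nat_lit 1000), (nat_lit 575), (nat_lit 619))], ((nat_lit 62), (nat_lit 100), (nat_lit 52))⟩, (nat_lit 87938), (nat_lit 136), (nat_lit 136), (nat_lit 0), (nat_lit 339673), [(nat_lit 1502483615), (nat_lit 1573610800)], [(nat_lit 0), (nat_lit 0)], [(nat_lit 25303856713), (nat_lit 25805217588), (nat_lit 27845185463), (nat_lit 28293146595), (nat_lit 26256854995), (nat_lit 26731423526), (nat_lit 28682925250), (nat_lit 29175537750)], (nat_lit 1271251), (nat_lit 1271251), (nat_lit 1271251), (nat_lit 1271251), (nat_lit 1271251), (nat_lit 1271251), [(nat_lit 490000), (nat_lit 780000)], [(nat_lit 1), (nat_lit 38), (nat_lit 203), (nat_lit 0), (nat_lit 8)]⟩,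
 ⟨⟨[(nat_lit 60), (nat_lit 80), (nat_lit 100)], [(nat_lit 0), (nat_lit 304), (nat_lit 825)], [((nat_lit 0), (nat_lit 0), (nat_lit 0)), ((nat_lit 1000), (nat_lit 905), (nat_lit 238)), ((nat_lit 1000), (nat_lit 871), (nat_lit 407))], ((nat_lit 87), (nat_lit 100), (nat_lit 44))⟩, (nat_lit 1425030), (nat_lit 532), (nat_lit 532), (nat_lit 0), (nat_lit 1076344), [(nat_lit 1151982000), (nat_lit 1645488000), (nat_lit 2193750000)], [], [(nat_lit 9699175897), (nat_lit 9941196383), (nat_lit 10533911033), (nat_lit 10731482583), (nat_lit 10424466445), (nat_lit 10550482465), (nat_lit 10871693102), (nat_lit 11139275318)], (nat_lit 1271251), (nat_lit 1271251), (nat_lit 1271251), (nat_lit 1271251), (nat_lit 54688), (nat_lit 2487813), [(nat_lit 780000), (nat_lit 1100000), (nat_lit 1442501)], [(nat_lit 9), (nat_lit 50), (nat_lit 317), (nat_lit 100), (nat_lit 11)]⟩,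
 Rw.none⟩))) (.leaf ⟨(nat_lit 437), (nat_lit 563), (nat_lit 0), (nat_lit 0), (nat_lit 0), (nat_lit 3964), (nat_lit 3353), (nat_lit 0), (nat_lit 0), (nat_lit 0), (nat_lit 308200), [((nat_lit 380), [((nat_lit 41), (nat_lit 2), (nat_lit 322)), ((nat_lit 24), (nat_lit 2), (nat_lit 115))])], ⟨(nat_lit 7), false, true, false, (nat_lit 297), (nat_lit 2236), (nat_lit 3163), [(nat_lit 1671514), (nat_lit 1670673), (nat_lit 1693606), (nat_lit 1693384), (nat_lit 1793619), (nat_lit 1784902), (nat_lit 1815720), (nat_lit 1807623)]⟩, ⟨(nat_lit 6), false, false, true, (nat_lit 211), (nat_lit 2236), (nat_lit 3163), [(nat_lit 1472332), (nat_lit 1465917), (nat_lit 1516642), (nat_lit 1511466), (nat_lit 1548524), (nat_lit 1537186), (nat_lit 1592834), (nat_lit 1582735)]⟩, (nat_lit 5435904), (nat_lit 34965609), (nat_lit 20314762), (nat_lit 11719629), (nat_lit 6), (nat_lit 0), [], [⟨(nat_lit 1), (nat_lit 100), (nat_lit 54), (nat_lit 98), (nat_lit 535256879)⟩], [⟨(nat_lit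 1), (nat_lit 68), (nat_lit 88), (nat_lit 100), (nat_lit 124077818)⟩], [],
 ⟨⟨[(nat_lit 40), (nat_lit 60), (nat_lit 80)], [(nat_lit 0), (nat_lit 832), (nat_lit 1534)], [((nat_lit 0), (nat_lit 0), (nat_lit 0)), ((nat_lit 1000), (nat_lit 659), (nat_lit 528)), ((nat_lit 1000), (nat_lit 650), (nat_lit 549))], ((nat_lit 63), (nat_lit 100), (nat_lit 62))⟩, (nat_lit 3243), (nat_lit 132), (nat_lit 132), (nat_lit 0), (nat_lit 273477), [(nat_lit 1634353066), (nat_lit 1938950601), (nat_lit 2381854400)], [(nat_lit 0), (nat_lit 0), (nat_lit 0)], [(nat_lit 25272158305), (nat_lit 26263669453), (nat_lit 27846698206), (nat_lit 28970853456), (nat_lit 26827580025), (nat_lit 27825643458), (nat_lit 29507228418), (nat_lit 30530602141)], (nat_lit 1271251), (nat_lit 1271251), (nat_lit 1271251), (nat_lit 1271251), (nat_lit 1271251), (nat_lit 1271251), [(nat_lit 490000), (nat_lit 780000), (nat_lit 1100000)], [(nat_lit 2), (nat_lit 44), (nat_lit 203), (nat_lit 0), (nat_lit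 6)]⟩,
 ⟨⟨[(nat_lit 60), (nat_lit 100), (nat_lit 120)], [(nat_lit 0), (nat_lit 609), (nat_lit 1609)], [((nat_lit 0), (nat_lit 0), (nat_lit 0)), ((nat_lit 1000), (nat_lit 905), (nat_lit 238)), ((nat_lit 1000), (nat_lit 882), (nat_lit 668))], ((nat_lit 87), (nat_lit 100), (nat_lit 60))⟩, (nat_lit 2073919), (nat_lit 488), (nat_lit 488), (nat_lit 0), (nat_lit 814513), [(nat_lit 1847766000), (nat_lit 3518750000), (nat_lit 4485984000)], [], [(nat_lit 15517384651), (nat_lit 15922767425), (nat_lit 16903779395), (nat_lit 17230783384), (nat_lit 16364229621), (nat_lit 16574823098), (nat_lit 17539684625), (nat_lit 17974660504)], (nat_lit 1271251), (nat_lit 1271251), (nat_lit 1271251), (nat_lit 1271251), (nat_lit 54688), (nat_lit 2487813), [(nat_lit 780000), (nat_lit 1435001), (nat_lit 1271251)], [(nat_lit 10), (nat_lit 54), (nat_lit 317), (nat_lit 100), (nat_lit 10)]⟩,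
 Rw.none⟩)) (.trZ (nat_lit 3) (nat_lit 4) (nat_lit 5) (nat_lit 100) (nat_lit 82) (nat_lit 76) (nat_lit 60) (.stt (nat_lit 1) (.spl (nat_lit 0) (nat_lit 370) (.leaf ⟨(nat_lit 54), (nat_lit 946), (nat_lit 0), (nat_lit 0), (nat_lit 0), (nat_lit 3517), (nat_lit 5147), (nat_lit 0), (nat_lit 0), (nat_lit 0), (nat_lit 216000), [((nat_lit 370), [((nat_lit 41), (nat_lit 5), (nat_lit 54))])], ⟨(nat_lit 8), false, true, true, (nat_lit 345), (nat_lit 2738), (nat_lit 3163), [(nat_lit 1793629), (nat_lit 1789265), (nat_lit 1815772), (nat_lit 1811670), (nat_lit 1915540), (nat_lit 1907392), (nat_lit 1937695), (nat_lit 1929809)]⟩, ⟨(nat_lit 6), false, false, true, (nat_lit 212), (nat_lit 2738), (nat_lit 3163), [(nat_lit 1472332), (nat_lit 1469390), (nat_lit 1516642), (nat_lit 1514225), (nat_lit 1548524), (nat_lit 1543217), (nat_lit 1592834), (nat_lit 1588052)]⟩, (nat_lit 5493051), (nat_lit 31792912), (nat_lit 24266507), (nat_lit 10940581), (nat_lit 6), (nat_lit 0),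 [], [⟨(nat_lit 1), (nat_lit 100), (nat_lit 59), (nat_lit 100), (nat_lit 579940966)⟩], [⟨(nat_lit 1), (nat_lit 68), (nat_lit 88), (nat_lit 100), (nat_lit 240053234)⟩], [],
 ⟨⟨[(nat_lit 40), (nat_lit 60), (nat_lit 80)], [(nat_lit 0), (nat_lit 832), (nat_lit 1534)], [((nat_lit 0), (nat_lit 0), (nat_lit 0)), ((nat_lit 1000), (nat_lit 659), (nat_lit 528)), ((nat_lit 1000), (nat_lit 650), (nat_lit 549))], ((nat_lit 63), (nat_lit 100), (nat_lit 62))⟩, (nat_lit 1172413), (nat_lit 79), (nat_lit 79), (nat_lit 0), (nat_lit 0), [(nat_lit 1864508871), (nat_lit 2775199132), (nat_lit 3512765600)], [(nat_lit 0), (nat_lit 0), (nat_lit 0)], [(nat_lit 27670494731), (nat_lit 28115605486), (nat_lit 31352596314), (nat_lit 31788158650), (nat_lit 29129128401), (nat_lit 29572799558), (nat_lit 32617978772), (nat_lit 33013648723)], (nat_lit 0), (nat_lit 0), (nat_lit 0), (nat_lit 0), (nat_lit 0), (nat_lit 0), [], [(nat_lit 2), (nat_lit 44), (nat_lit 203), (nat_lit 0), (nat_lit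 6)]⟩,
 ⟨⟨[(nat_lit 60), (nat_lit 100), (nat_lit 120)], [(nat_lit 0), (nat_lit 609), (nat_lit 1609)], [((nat_lit 0), (nat_lit 0), (nat_lit 0)), ((nat_lit 1000), (nat_lit 905), (nat_lit 238)), ((nat_lit 1000), (nat_lit 882), (nat_lit 668))], ((nat_lit 87), (nat_lit 100), (nat_lit 60))⟩, (nat_lit 4518376), (nat_lit 521), (nat_lit 521), (nat_lit 0), (nat_lit 977131), [(nat_lit 3104772000), (nat_lit 5912500000), (nat_lit 7537728000)], [], [(nat_lit 28566398429), (nat_lit 29096246719), (nat_lit 31375959655), (nat_lit 31787250940), (nat_lit 30829272551), (nat_lit 31165576529), (nat_lit 33042703233), (nat_lit 33555132804)], (nat_lit 1271251), (nat_lit 1271251), (nat_lit 1271251), (nat_lit 1271251), (nat_lit 356250), (nat_lit 2567501), [(nat_lit 780000), (nat_lit 1435001), (nat_lit 1271251)], [(nat_lit 10), (nat_lit 54), (nat_lit 317), (nat_lit 100), (nat_lit 9)]⟩,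
 Rw.none⟩) (.trX (nat_lit 3) (nat_lit 0) (nat_lit 1) (nat_lit 66) (nat_lit 45) (nat_lit 100) (nat_lit 390) (.trX (nat_lit 4) (nat_lit 0) (nat_lit 2) (nat_lit 54) (nat_lit 96) (nat_lit 100) (nat_lit 270) (.spl (nat_lit 3) (nat_lit 360) (.leaf ⟨(nat_lit 369), (nat_lit 631), (nat_lit 0), (nat_lit 0), (nat_lit 0), (nat_lit 3185), (nat_lit 3516), (nat_lit 0), (nat_lit 0), (nat_lit 0), (nat_lit 149650), [((nat_lit 380), [((nat_lit 24), (nat_lit 0), (nat_lit 205)), ((nat_lit 41), (nat_lit 2), (nat_lit 164))])], ⟨(nat_lit 8), false, true, true, (nat_lit 331), (nat_lit 2236), (nat_lit 2739), [(nat_lit 1789269), (nat_lit 1784917), (nat_lit 1811671), (nat_lit 1807675), (nat_lit 1848331), (nat_lit 1841932), (nat_lit 1870748), (nat_lit 1864706)]⟩, ⟨(nat_lit 6), false, false, true, (nat_lit 205), (nat_lit 2236), (nat_lit 2739), [(nat_lit 1469390), (nat_lit 1465917), (nat_lit 1514225), (nat_lit 1511466), (nat_lit 1513686), (nat_lit 1508679), (nat_lit 1558521),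 (nat_lit 1554227)]⟩, (nat_lit 5442106), (nat_lit 33007426), (nat_lit 23334665), (nat_lit 10657909), (nat_lit 6), (nat_lit 0), [], [⟨(nat_lit 1), (nat_lit 100), (nat_lit 49), (nat_lit 97), (nat_lit 557614219)⟩], [⟨(nat_lit 1), (nat_lit 68), (nat_lit 88), (nat_lit 100), (nat_lit 149456425)⟩], [],
 ⟨⟨[(nat_lit 40), (nat_lit 60), (nat_lit 80)], [(nat_lit 0), (nat_lit 1134), (nat_lit 1930)], [((nat_lit 0), (nat_lit 0), (nat_lit 0)), ((nat_lit 1000), (nat_lit 575), (nat_lit 619)), ((nat_lit 1000), (nat_lit 574), (nat_lit 622))], ((nat_lit 57), (nat_lit 100), (nat_lit 64))⟩, (nat_lit 911144), (nat_lit 67), (nat_lit 67), (nat_lit 0), (nat_lit 0), [(nat_lit 1659913648), (nat_lit 2546561513), (nat_lit 3299116800)], [(nat_lit 0), (nat_lit 0), (nat_lit 0)], [(nat_lit 28104130511), (nat_lit 28533275883), (nat_lit 29639068007), (nat_lit 30032015151), (nat_lit 28903861901), (nat_lit 29310816416), (nat_lit 30388006303), (nat_lit 30794411105)], (nat_lit 0), (nat_lit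 0), (nat_lit 0), (nat_lit 0), (nat_lit 0), (nat_lit 0), [], [(nat_lit 2), (nat_lit 44), (nat_lit 203), (nat_lit 0), (nat_lit 6)]⟩,
 ⟨⟨[(nat_lit 60), (nat_lit 100), (nat_lit 120)], [(nat_lit 0), (nat_lit 609), (nat_lit 1609)], [((nat_lit 0), (nat_lit 0), (nat_lit 0)), ((nat_lit 1000), (nat_lit 905), (nat_lit 238)), ((nat_lit 1000), (nat_lit 882), (nat_lit 668))], ((nat_lit 87), (nat_lit 100), (nat_lit 60))⟩, (nat_lit 2860229), (nat_lit 557), (nat_lit 557), (nat_lit 0), (nat_lit 1082255), [(nat_lit 2070942000), (nat_lit 3943750000), (nat_lit 5027808000)], [], [(nat_lit 19400114611), (nat_lit 19668845259), (nat_lit 20147544566), (nat_lit 20384487710), (nat_lit 20221133055), (nat_lit 20403797795), (nat_lit 20791674965), (nat_lit 21201830320)], (nat_lit 1271251), (nat_lit 1271251), (nat_lit 1271251), (nat_lit 1271251), (nat_lit 356250), (nat_lit 2567501), [(nat_lit 780000), (nat_lit 1435001), (nat_lit 1271251)], [(nat_lit 10), (nat_lit 54), (nat_lit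 317), (nat_lit 100), (nat_lit 9)]⟩,
 Rw.none⟩) (.trZ (nat_lit 3) (nat_lit 4) (nat_lit 5) (nat_lit 100) (nat_lit 61) (nat_lit 92) (nat_lit 110) (.leaf ⟨(nat_lit 329), (nat_lit 671), (nat_lit 0), (nat_lit 0), (nat_lit 0), (nat_lit 3194), (nat_lit 3650), (nat_lit 0), (nat_lit 0), (nat_lit 0), (nat_lit 107300), [((nat_lit 380), [((nat_lit 24), (nat_lit 0), (nat_lit 162)), ((nat_lit 24), (nat_lit 1), (nat_lit 167))])], ⟨(nat_lit 9), false, true, true, (nat_lit 351), (nat_lit 2236), (nat_lit 2739), [(nat_lit 1848331), (nat_lit 1841932), (nat_lit 1870748), (nat_lit 1864706), (nat_lit 1892627), (nat_lit 1884694), (nat_lit 1915044), (nat_lit 1907468)]⟩, ⟨(nat_lit 6), false, false, true, (nat_lit 205), (nat_lit 2236), (nat_lit 2739), [(nat_lit 1469390), (nat_lit 1465917), (nat_lit 1514225), (nat_lit 1511466), (nat_lit 1513686), (nat_lit 1508679), (nat_lit 1558521), (nat_lit 1554227)]⟩, (nat_lit 5447288), (nat_lit 31703719), (nat_lit 24978076), (nat_lit 10318205),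 (nat_lit 6), (nat_lit 0), [⟨(nat_lit 1), (nat_lit 56), (nat_lit 58), (nat_lit 100), (nat_lit 76491987)⟩], [⟨(nat_lit 1), (nat_lit 100), (nat_lit 49), (nat_lit 97), (nat_lit 573728875)⟩], [⟨(nat_lit 1), (nat_lit 68), (nat_lit 88), (nat_lit 100), (nat_lit 184243341)⟩], [],
 ⟨⟨[(nat_lit 40), (nat_lit 60), (nat_lit 80)], [(nat_lit 0), (nat_lit 1134), (nat_lit 1930)], [((nat_lit 0), (nat_lit 0), (nat_lit 0)), ((nat_lit 1000), (nat_lit 575), (nat_lit 619)), ((nat_lit 1000), (nat_lit 574), (nat_lit 622))], ((nat_lit 57), (nat_lit 100), (nat_lit 64))⟩, (nat_lit 1042597), (nat_lit 78), (nat_lit 78), (nat_lit 0), (nat_lit 0), [(nat_lit 1683526821), (nat_lit 2697986915), (nat_lit 3581340000)], [(nat_lit 0), (nat_lit 0), (nat_lit 0)], [(nat_lit 29682628623), (nat_lit 30075806112), (nat_lit 30901645404), (nat_lit 31335350096), (nat_lit 30430458561), (nat_lit 30836714048), (nat_lit 31659954954), (nat_lit 32070438201)], (nat_lit 0), (nat_lit 0), (nat_lit 0), (nat_lit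 0), (nat_lit 0), (nat_lit 0), [], [(nat_lit 2), (nat_lit 44), (nat_lit 203), (nat_lit 0), (nat_lit 6)]⟩,
 ⟨⟨[(nat_lit 60), (nat_lit 100), (nat_lit 120)], [(nat_lit 0), (nat_lit 609), (nat_lit 1609)], [((nat_lit 0), (nat_lit 0), (nat_lit 0)), ((nat_lit 1000), (nat_lit 905), (nat_lit 238)), ((nat_lit 1000), (nat_lit 882), (nat_lit 668))], ((nat_lit 87), (nat_lit 100), (nat_lit 60))⟩, (nat_lit 3078895), (nat_lit 532), (nat_lit 532), (nat_lit 0), (nat_lit 1082255), [(nat_lit 2202222000), (nat_lit 4193750000), (nat_lit 5346528000)], [], [(nat_lit 21234756211), (nat_lit 21507781026), (nat_lit 21864433543), (nat_lit 22111098920), (nat_lit 22561401434), (nat_lit 22770538269), (nat_lit 23080393551), (nat_lit 23461462072)], (nat_lit 1271251), (nat_lit 1271251), (nat_lit 1271251), (nat_lit 1271251), (nat_lit 704688), (nat_lit 2647188), [(nat_lit 780000), (nat_lit 1435001), (nat_lit 1271251)], [(nat_lit 10), (nat_lit 54), (nat_lit 317), (nat_lit 100), (nat_lit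 9)]⟩,
 Rw.none⟩)))))) (.leaf ⟨(nat_lit 0), (nat_lit 753), (nat_lit 0), (nat_lit 247), (nat_lit 0), (nat_lit 4546), (nat_lit 6197), (nat_lit 2715), (nat_lit 0), (nat_lit 0), (nat_lit 0), [], Pd.none, Pd.none, (nat_lit 0), (nat_lit 1), (nat_lit 0), (nat_lit 0), (nat_lit 6), (nat_lit 0), [], [⟨(nat_lit 1), (nat_lit 100), (nat_lit 54), (nat_lit 98), (nat_lit 532865631)⟩], [⟨(nat_lit 1), (nat_lit 81), (nat_lit 88), (nat_lit 100), (nat_lit 150548)⟩], [],
 ⟨⟨[(nat_lit 40), (nat_lit 60), (nat_lit 80)], [(nat_lit 0), (nat_lit 832), (nat_lit 1534)], [((nat_lit 0), (nat_lit 0), (nat_lit 0)), ((nat_lit 1000), (nat_lit 659), (nat_lit 528)), ((nat_lit 1000), (nat_lit 650), (nat_lit 549))], ((nat_lit 63), (nat_lit 100), (nat_lit 62))⟩, (nat_lit 586968), (nat_lit 173), (nat_lit 173), (nat_lit 0), (nat_lit 344681), [(nat_lit 2032000008), (nat_lit 3282000015), (nat_lit 4688000000)], [], [(nat_lit 29462505991), (nat_lit 30304088499), (nat_lit 32793398584), (nat_lit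 33633661930), (nat_lit 30715036026), (nat_lit 31478965444), (nat_lit 33957057117), (nat_lit 34820935603)], (nat_lit 1271251), (nat_lit 1271251), (nat_lit 1271251), (nat_lit 1271251), (nat_lit 1271251), (nat_lit 1271251), [(nat_lit 490000), (nat_lit 780000), (nat_lit 1100000)], [(nat_lit 2), (nat_lit 44), (nat_lit 203), (nat_lit 0), (nat_lit 6)]⟩,
 ⟨⟨[(nat_lit 60), (nat_lit 100), (nat_lit 120)], [(nat_lit 0), (nat_lit 609), (nat_lit 1609)], [((nat_lit 0), (nat_lit 0), (nat_lit 0)), ((nat_lit 1000), (nat_lit 905), (nat_lit 238)), ((nat_lit 1000), (nat_lit 882), (nat_lit 668))], ((nat_lit 87), (nat_lit 100), (nat_lit 60))⟩, (nat_lit 1212412), (nat_lit 305), (nat_lit 305), (nat_lit 0), (nat_lit 430148), [(nat_lit 3282000000), (nat_lit 6250000000), (nat_lit 7968000000)], [], [(nat_lit 30667283309), (nat_lit 31513778582), (nat_lit 35248941911), (nat_lit 35869884508), (nat_lit 33444842865), (nat_lit 33881469443), (nat_lit 36134915090), (nat_lit 36440046356)],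 (nat_lit 1271251), (nat_lit 1271251), (nat_lit 1271251), (nat_lit 1271251), (nat_lit 356250), (nat_lit 2567501), [(nat_lit 780000), (nat_lit 1435001), (nat_lit 1271251)], [(nat_lit 10), (nat_lit 54), (nat_lit 317), (nat_lit 100), (nat_lit 9)]⟩,
 ⟨⟨[(nat_lit 140), (nat_lit 180), (nat_lit 200)], [(nat_lit 0), (nat_lit 0), (nat_lit 2835)], [((nat_lit 0), (nat_lit 0), (nat_lit 0)), ((nat_lit 0), (nat_lit 0), (nat_lit 0)), ((nat_lit 363), (nat_lit 1000), (nat_lit 798))], ((nat_lit 0), (nat_lit 0), (nat_lit 0))⟩, (nat_lit 67958), (nat_lit 300), (nat_lit 1022), (nat_lit 19290700), (nat_lit 1348934), [(nat_lit 2430974000), (nat_lit 3472326000), (nat_lit 4050800000)], [], [(nat_lit 17082689840), (nat_lit 16640135430), (nat_lit 16805382617), (nat_lit 16359470705), (nat_lit 14520875447), (nat_lit 15937860705), (nat_lit 14202917278), (nat_lit 13760083486)], (nat_lit 780000), (nat_lit 1100000), (nat_lit 1271251), (nat_lit 1271251), (nat_lit 356250), (nat_lit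 2567501), [(nat_lit 1977501), (nat_lit 1271251), (nat_lit 1271251)], [(nat_lit 32), (nat_lit 67), (nat_lit 428), (nat_lit 200), (nat_lit 9)]⟩⟩)))))
noncomputable def c17_56 : Tr Lf :=
 (.spl (nat_lit 5) (nat_lit 200) (.spl (nat_lit 0) (nat_lit 370) (.leaf ⟨(nat_lit 35), (nat_lit 792), (nat_lit 0), (nat_lit 173), (nat_lit 0), (nat_lit 4124), (nat_lit 7443), (nat_lit 2385), (nat_lit 0), (nat_lit 0), (nat_lit 140000), [((nat_lit 370), [((nat_lit 41), (nat_lit 5), (nat_lit 35))])], ⟨(nat_lit 7), false, true, true, (nat_lit 317), (nat_lit 2738), (nat_lit 3163), [(nat_lit 1649542), (nat_lit 1648700), (nat_lit 1693828), (nat_lit 1693511), (nat_lit 1893385), (nat_lit 1884975), (nat_lit 1937695), (nat_lit 1929809)]⟩, ⟨(nat_lit 6), false, false, true, (nat_lit 232), (nat_lit 2738), (nat_lit 3163), [(nat_lit 1516642), (nat_lit 1514225), (nat_lit 1538797), (nat_lit 1536642), (nat_lit 1623310), (nat_lit 1617582), (nat_lit 1645465), (nat_lit 1640000)]⟩, (nat_lit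 5581260), (nat_lit 32698749), (nat_lit 21445998), (nat_lit 12855253), (nat_lit 6), (nat_lit 0), [], [⟨(nat_lit 1), (nat_lit 91), (nat_lit 57), (nat_lit 100), (nat_lit 341451435)⟩], [], [⟨(nat_lit 0), (nat_lit 100), (nat_lit 86), (nat_lit 92), (nat_lit 119240893)⟩],
 ⟨⟨[(nat_lit 40), (nat_lit 60), (nat_lit 80)], [(nat_lit 0), (nat_lit 832), (nat_lit 1534)], [((nat_lit 0), (nat_lit 0), (nat_lit 0)), ((nat_lit 1000), (nat_lit 659), (nat_lit 528)), ((nat_lit 1000), (nat_lit 650), (nat_lit 549))], ((nat_lit 63), (nat_lit 100), (nat_lit 62))⟩, (nat_lit 3583086), (nat_lit 152), (nat_lit 152), (nat_lit 0), (nat_lit 284125), [(nat_lit 1896298022), (nat_lit 3328223607), (nat_lit 3926274000)], [(nat_lit 0), (nat_lit 0), (nat_lit 0)], [(nat_lit 24798506544), (nat_lit 25346126334), (nat_lit 32131888408), (nat_lit 32593661914), (nat_lit 27556168302), (nat_lit 28149058846), (nat_lit 33918293224), (nat_lit 34317474760)], (nat_lit 1271251), (nat_lit 1271251), (nat_lit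 1271251), (nat_lit 1271251), (nat_lit 1271251), (nat_lit 1271251), [(nat_lit 490000), (nat_lit 780000), (nat_lit 1100000)], [(nat_lit 2), (nat_lit 44), (nat_lit 203), (nat_lit 0), (nat_lit 6)]⟩,
 ⟨⟨[(nat_lit 60), (nat_lit 100), (nat_lit 140)], [(nat_lit 0), (nat_lit 0), (nat_lit 2047)], [((nat_lit 0), (nat_lit 0), (nat_lit 0)), ((nat_lit 0), (nat_lit 0), (nat_lit 0)), ((nat_lit 1000), (nat_lit 993), (nat_lit 781))], ((nat_lit 94), (nat_lit 100), (nat_lit 62))⟩, (nat_lit 3521637), (nat_lit 572), (nat_lit 572), (nat_lit 0), (nat_lit 853741), [(nat_lit 3167130000), (nat_lit 6031250000), (nat_lit 9497530000)], [], [(nat_lit 29861066637), (nat_lit 31359062108), (nat_lit 38213957242), (nat_lit 40489628947), (nat_lit 26772503792), (nat_lit 27886616376), (nat_lit 31530606392), (nat_lit 32747075880)], (nat_lit 1271251), (nat_lit 1271251), (nat_lit 1271251), (nat_lit 1271251), (nat_lit 54688), (nat_lit 1414376), [(nat_lit 780000), (nat_lit 1435001), (nat_lit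 1271251)], [(nat_lit 11), (nat_lit 55), (nat_lit 373), (nat_lit 150), (nat_lit 10)]⟩,
 ⟨⟨[(nat_lit 120), (nat_lit 160), (nat_lit 180)], [(nat_lit 0), (nat_lit 0), (nat_lit 1613)], [((nat_lit 0), (nat_lit 0), (nat_lit 0)), ((nat_lit 0), (nat_lit 0), (nat_lit 0)), ((nat_lit 620), (nat_lit 1000), (nat_lit 670))], ((nat_lit 100), (nat_lit 68), (nat_lit 61))⟩, (nat_lit 698903), (nat_lit 300), (nat_lit 1596), (nat_lit 12836600), (nat_lit 2717460), [(nat_lit 1378464000), (nat_lit 2053856000), (nat_lit 2432034000)], [], [(nat_lit 9024986539), (nat_lit 8934754663), (nat_lit 9064532972), (nat_lit 9008054088), (nat_lit 6772529388), (nat_lit 6675847544), (nat_lit 6749410701), (nat_lit 6682478541)], (nat_lit 1100000), (nat_lit 1271251), (nat_lit 1271251), (nat_lit 1271251), (nat_lit 54688), (nat_lit 1414376), [(nat_lit 1695001), (nat_lit 1271251), (nat_lit 1271251)], [(nat_lit 28), (nat_lit 65), (nat_lit 486), (nat_lit 175), (nat_lit 11)]⟩⟩) (.trX (nat_lit 3)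 (nat_lit 0) (nat_lit 1) (nat_lit 66) (nat_lit 45) (nat_lit 100) (nat_lit 390) (.trX (nat_lit 4) (nat_lit 0) (nat_lit 2) (nat_lit 53) (nat_lit 90) (nat_lit 100) (nat_lit 290) (.leaf ⟨(nat_lit 568), (nat_lit 351), (nat_lit 0), (nat_lit 81), (nat_lit 0), (nat_lit 3514), (nat_lit 3246), (nat_lit 1024), (nat_lit 0), (nat_lit 0), (nat_lit 286200), [((nat_lit 380), [((nat_lit 24), (nat_lit 0), (nat_lit 156)), ((nat_lit 41), (nat_lit 2), (nat_lit 412))])], ⟨(nat_lit 7), false, true, true, (nat_lit 312), (nat_lit 2236), (nat_lit 2739), [(nat_lit 1648684), (nat_lit 1648065), (nat_lit 1693478), (nat_lit 1693574), (nat_lit 1870209), (nat_lit 1861919), (nat_lit 1915044), (nat_lit 1907468)]⟩, ⟨(nat_lit 6), false, false, true, (nat_lit 224), (nat_lit 2236), (nat_lit 2739), [(nat_lit 1514225), (nat_lit 1511466), (nat_lit 1536642), (nat_lit 1534240), (nat_lit 1588052), (nat_lit 1582735), (nat_lit 1610469), (nat_lit 1605509)]⟩, (nat_lit 5536009), (nat_lit 33340842),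 (nat_lit 21265218), (nat_lit 12393940), (nat_lit 6), (nat_lit 0), [], [⟨(nat_lit 1), (nat_lit 95), (nat_lit 49), (nat_lit 100), (nat_lit 312097574)⟩], [], [⟨(nat_lit 0), (nat_lit 100), (nat_lit 87), (nat_lit 86), (nat_lit 66333644)⟩],
 ⟨⟨[(nat_lit 40), (nat_lit 60), (nat_lit 80)], [(nat_lit 0), (nat_lit 1134), (nat_lit 1930)], [((nat_lit 0), (nat_lit 0), (nat_lit 0)), ((nat_lit 1000), (nat_lit 575), (nat_lit 619)), ((nat_lit 1000), (nat_lit 574), (nat_lit 622))], ((nat_lit 57), (nat_lit 100), (nat_lit 64))⟩, (nat_lit 592792), (nat_lit 157), (nat_lit 157), (nat_lit 0), (nat_lit 296623), [(nat_lit 1548147207), (nat_lit 2068987201), (nat_lit 2269536000)], [(nat_lit 0), (nat_lit 0), (nat_lit 0)], [(nat_lit 25354271259), (nat_lit 25863828574), (nat_lit 31309903904), (nat_lit 31758283656), (nat_lit 26956385069), (nat_lit 27420093476), (nat_lit 32579659779), (nat_lit 32986695647)], (nat_lit 1271251), (nat_lit 1271251), (nat_lit 1271251), (nat_lit 1271251),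 (nat_lit 1271251), (nat_lit 1271251), [(nat_lit 490000), (nat_lit 780000), (nat_lit 1100000)], [(nat_lit 2), (nat_lit 44), (nat_lit 203), (nat_lit 0), (nat_lit 6)]⟩,
 ⟨⟨[(nat_lit 60), (nat_lit 100), (nat_lit 140)], [(nat_lit 0), (nat_lit 0), (nat_lit 2047)], [((nat_lit 0), (nat_lit 0), (nat_lit 0)), ((nat_lit 0), (nat_lit 0), (nat_lit 0)), ((nat_lit 1000), (nat_lit 993), (nat_lit 781))], ((nat_lit 94), (nat_lit 100), (nat_lit 62))⟩, (nat_lit 1732137), (nat_lit 614), (nat_lit 614), (nat_lit 0), (nat_lit 967094), [(nat_lit 1417824000), (nat_lit 2700000000), (nat_lit 4251744000)], [], [(nat_lit 14798152805), (nat_lit 15290412153), (nat_lit 16744217692), (nat_lit 17427672284), (nat_lit 13398299100), (nat_lit 13757714820), (nat_lit 14857320709), (nat_lit 15045247140)], (nat_lit 1271251), (nat_lit 1271251), (nat_lit 1271251), (nat_lit 1271251), (nat_lit 54688), (nat_lit 1414376), [(nat_lit 780000), (nat_lit 1435001), (nat_lit 1271251)], [(nat_lit 11),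 (nat_lit 55), (nat_lit 373), (nat_lit 150), (nat_lit 10)]⟩,
 ⟨⟨[(nat_lit 120), (nat_lit 160), (nat_lit 180)], [(nat_lit 0), (nat_lit 0), (nat_lit 1613)], [((nat_lit 0), (nat_lit 0), (nat_lit 0)), ((nat_lit 0), (nat_lit 0), (nat_lit 0)), ((nat_lit 620), (nat_lit 1000), (nat_lit 670))], ((nat_lit 100), (nat_lit 68), (nat_lit 61))⟩, (nat_lit 150970), (nat_lit 300), (nat_lit 1733), (nat_lit 6010200), (nat_lit 2997486), [(nat_lit 645408000), (nat_lit 961632000), (nat_lit 1138698000)], [], [(nat_lit 4378166134), (nat_lit 4341737718), (nat_lit 4396742863), (nat_lit 4355544133), (nat_lit 3429109506), (nat_lit 3389640645), (nat_lit 3425310407), (nat_lit 3381981100)], (nat_lit 1100000), (nat_lit 1271251), (nat_lit 1271251), (nat_lit 1271251), (nat_lit 54688), (nat_lit 1414376), [(nat_lit 1695001), (nat_lit 1271251), (nat_lit 1271251)], [(nat_lit 28), (nat_lit 65), (nat_lit 517), (nat_lit 175), (nat_lit 12)]⟩⟩)))) (.spl (nat_lit 0) (nat_lit 370) (.leaf ⟨(nat_lit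 35), (nat_lit 743), (nat_lit 0), (nat_lit 222), (nat_lit 0), (nat_lit 3969), (nat_lit 6808), (nat_lit 2377), (nat_lit 0), (nat_lit 0), (nat_lit 140000), [((nat_lit 370), [((nat_lit 41), (nat_lit 5), (nat_lit 35))])], ⟨(nat_lit 7), false, true, true, (nat_lit 317), (nat_lit 2738), (nat_lit 3163), [(nat_lit 1649542), (nat_lit 1648700), (nat_lit 1693828), (nat_lit 1693511), (nat_lit 1893385), (nat_lit 1884975), (nat_lit 1937695), (nat_lit 1929809)]⟩, ⟨(nat_lit 6), false, false, true, (nat_lit 232), (nat_lit 2738), (nat_lit 3163), [(nat_lit 1516642), (nat_lit 1514225), (nat_lit 1538797), (nat_lit 1536642), (nat_lit 1623310), (nat_lit 1617582), (nat_lit 1645465), (nat_lit 1640000)]⟩, (nat_lit 5581260), (nat_lit 32698749), (nat_lit 21445998), (nat_lit 12855253), (nat_lit 6), (nat_lit 0), [], [⟨(nat_lit 1), (nat_lit 91), (nat_lit 57), (nat_lit 100), (nat_lit 374931066)⟩], [⟨(nat_lit 1), (nat_lit 63), (nat_lit 88), (nat_lit 100), (nat_lit 210077142)⟩],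 [],
 ⟨⟨[(nat_lit 40), (nat_lit 60), (nat_lit 80)], [(nat_lit 0), (nat_lit 832), (nat_lit 1534)], [((nat_lit 0), (nat_lit 0), (nat_lit 0)), ((nat_lit 1000), (nat_lit 659), (nat_lit 528)), ((nat_lit 1000), (nat_lit 650), (nat_lit 549))], ((nat_lit 63), (nat_lit 100), (nat_lit 62))⟩, (nat_lit 4069467), (nat_lit 152), (nat_lit 152), (nat_lit 0), (nat_lit 284125), [(nat_lit 1896298001), (nat_lit 3332128647), (nat_lit 3926274000)], [(nat_lit 0), (nat_lit 0), (nat_lit 0)], [(nat_lit 25164105890), (nat_lit 25702054068), (nat_lit 31932892898), (nat_lit 32387973272), (nat_lit 27545058904), (nat_lit 28012860868), (nat_lit 33715500757), (nat_lit 34109710920)], (nat_lit 1271251), (nat_lit 1271251), (nat_lit 1271251), (nat_lit 1271251), (nat_lit 1271251), (nat_lit 1271251), [(nat_lit 490000), (nat_lit 780000), (nat_lit 1100000)], [(nat_lit 2), (nat_lit 44), (nat_lit 203), (nat_lit 0), (nat_lit 6)]⟩,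
 ⟨⟨[(nat_lit 60), (nat_lit 100), (nat_lit 140)], [(nat_lit 0), (nat_lit 0), (nat_lit 2047)], [((nat_lit 0), (nat_lit 0), (nat_lit 0)), ((nat_lit 0), (nat_lit 0), (nat_lit 0)), ((nat_lit 1000), (nat_lit 993), (nat_lit 781))], ((nat_lit 94), (nat_lit 100), (nat_lit 62))⟩, (nat_lit 3165835), (nat_lit 452), (nat_lit 452), (nat_lit 0), (nat_lit 853741), [(nat_lit 3167130000), (nat_lit 6031250000), (nat_lit 9497530000)], [], [(nat_lit 26327587717), (nat_lit 27776295412), (nat_lit 32380119989), (nat_lit 33199687118), (nat_lit 31709133974), (nat_lit 32519919148), (nat_lit 36693630772), (nat_lit 37613360753)], (nat_lit 1271251), (nat_lit 1271251), (nat_lit 1271251), (nat_lit 1271251), (nat_lit 1271251), (nat_lit 1271251), [(nat_lit 780000), (nat_lit 1435001), (nat_lit 1271251)], [(nat_lit 11), (nat_lit 55), (nat_lit 428), (nat_lit 200), (nat_lit 11)]⟩,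
 ⟨⟨[(nat_lit 120), (nat_lit 160), (nat_lit 180)], [(nat_lit 0), (nat_lit 0), (nat_lit 1613)], [((nat_lit 0), (nat_lit 0), (nat_lit 0)), ((nat_lit 0), (nat_lit 0), (nat_lit 0)), ((nat_lit 620), (nat_lit 1000), (nat_lit 670))], ((nat_lit 100), (nat_lit 68), (nat_lit 61))⟩, (nat_lit 427274), (nat_lit 300), (nat_lit 1491), (nat_lit 16472400), (nat_lit 2717460), [(nat_lit 1768896000), (nat_lit 2635584000), (nat_lit 3120876000)], [], [(nat_lit 11876319650), (nat_lit 11732733112), (nat_lit 11484134602), (nat_lit 11339143072), (nat_lit 10877684615), (nat_lit 10737358458), (nat_lit 10582496012), (nat_lit 10446132498)], (nat_lit 1100000), (nat_lit 1271251), (nat_lit 1271251), (nat_lit 1271251), (nat_lit 1271251), (nat_lit 1271251), [(nat_lit 1695001), (nat_lit 1271251), (nat_lit 1271251)], [(nat_lit 28), (nat_lit 65), (nat_lit 482), (nat_lit 225), (nat_lit 11)]⟩⟩) (.trX (nat_lit 3) (nat_lit 0) (nat_lit 1) (nat_lit 66) (nat_lit 45) (nat_lit 100) (nat_lit 390)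 (.trX (nat_lit 4) (nat_lit 0) (nat_lit 2) (nat_lit 53) (nat_lit 90) (nat_lit 100) (nat_lit 290) (.leaf ⟨(nat_lit 54), (nat_lit 722), (nat_lit 0), (nat_lit 224), (nat_lit 0), (nat_lit 3931), (nat_lit 6956), (nat_lit 2427), (nat_lit 0), (nat_lit 0), (nat_lit 216000), [((nat_lit 380), [((nat_lit 41), (nat_lit 5), (nat_lit 54))])], ⟨(nat_lit 7), false, true, true, (nat_lit 312), (nat_lit 2236), (nat_lit 2739), [(nat_lit 1648684), (nat_lit 1648065), (nat_lit 1693478), (nat_lit 1693574), (nat_lit 1870209), (nat_lit 1861919), (nat_lit 1915044), (nat_lit 1907468)]⟩, ⟨(nat_lit 6), false, false, true, (nat_lit 224), (nat_lit 2236), (nat_lit 2739), [(nat_lit 1514225), (nat_lit 1511466), (nat_lit 1536642), (nat_lit 1534240), (nat_lit 1588052), (nat_lit 1582735), (nat_lit 1610469), (nat_lit 1605509)]⟩, (nat_lit 5536009), (nat_lit 33340842), (nat_lit 21265218), (nat_lit 12393940), (nat_lit 6), (nat_lit 0), [], [⟨(nat_lit 1), (nat_lit 95), (nat_lit 49), (nat_lit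 100), (nat_lit 424310274)⟩], [⟨(nat_lit 1), (nat_lit 63), (nat_lit 88), (nat_lit 100), (nat_lit 163420279)⟩], [],
 ⟨⟨[(nat_lit 40), (nat_lit 60), (nat_lit 80)], [(nat_lit 0), (nat_lit 1134), (nat_lit 1930)], [((nat_lit 0), (nat_lit 0), (nat_lit 0)), ((nat_lit 1000), (nat_lit 575), (nat_lit 619)), ((nat_lit 1000), (nat_lit 574), (nat_lit 622))], ((nat_lit 57), (nat_lit 100), (nat_lit 64))⟩, (nat_lit 3861823), (nat_lit 157), (nat_lit 157), (nat_lit 0), (nat_lit 296623), [(nat_lit 1864508801), (nat_lit 3238444539), (nat_lit 3512765600)], [(nat_lit 0), (nat_lit 0), (nat_lit 0)], [(nat_lit 25662156991), (nat_lit 26197734063), (nat_lit 31841915761), (nat_lit 32309418952), (nat_lit 27308685861), (nat_lit 27795883951), (nat_lit 33119368708), (nat_lit 33542085841)], (nat_lit 1271251), (nat_lit 1271251), (nat_lit 1271251), (nat_lit 1271251), (nat_lit 1271251), (nat_lit 1271251), [(nat_lit 490000), (nat_lit 780000), (nat_lit 1100000)], [(nat_lit 2), (nat_lit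 44), (nat_lit 203), (nat_lit 0), (nat_lit 6)]⟩,
 ⟨⟨[(nat_lit 60), (nat_lit 100), (nat_lit 140)], [(nat_lit 0), (nat_lit 0), (nat_lit 2047)], [((nat_lit 0), (nat_lit 0), (nat_lit 0)), ((nat_lit 0), (nat_lit 0), (nat_lit 0)), ((nat_lit 1000), (nat_lit 993), (nat_lit 781))], ((nat_lit 94), (nat_lit 100), (nat_lit 62))⟩, (nat_lit 3566475), (nat_lit 494), (nat_lit 494), (nat_lit 0), (nat_lit 967094), [(nat_lit 3104772000), (nat_lit 5912500000), (nat_lit 9310532000)], [], [(nat_lit 27585984084), (nat_lit 28664934820), (nat_lit 31847094569), (nat_lit 32457268411), (nat_lit 31546615545), (nat_lit 32115807328), (nat_lit 35802617523), (nat_lit 36761925288)], (nat_lit 1271251), (nat_lit 1271251), (nat_lit 1271251), (nat_lit 1271251), (nat_lit 1271251), (nat_lit 1271251), [(nat_lit 780000), (nat_lit 1435001), (nat_lit 1271251)], [(nat_lit 11), (nat_lit 55), (nat_lit 428), (nat_lit 200), (nat_lit 11)]⟩,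
 ⟨⟨[(nat_lit 120), (nat_lit 160), (nat_lit 180)], [(nat_lit 0), (nat_lit 0), (nat_lit 1613)], [((nat_lit 0), (nat_lit 0), (nat_lit 0)), ((nat_lit 0), (nat_lit 0), (nat_lit 0)), ((nat_lit 620), (nat_lit 1000), (nat_lit 670))], ((nat_lit 100), (nat_lit 68), (nat_lit 61))⟩, (nat_lit 430871), (nat_lit 300), (nat_lit 1628), (nat_lit 16620800), (nat_lit 2997486), [(nat_lit 1784832000), (nat_lit 2659328000), (nat_lit 3148992000)], [], [(nat_lit 11748555602), (nat_lit 11601385559), (nat_lit 11449851417), (nat_lit 11302043429), (nat_lit 10795695121), (nat_lit 10658010158), (nat_lit 10611055992), (nat_lit 10472832403)], (nat_lit 1100000), (nat_lit 1271251), (nat_lit 1271251), (nat_lit 1271251), (nat_lit 1271251), (nat_lit 1271251), [(nat_lit 1695001), (nat_lit 1271251), (nat_lit 1271251)], [(nat_lit 28), (nat_lit 65), (nat_lit 514), (nat_lit 225), (nat_lit 11)]⟩⟩)))))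
noncomputable def c17_57 : Tr Lf :=
 (.stt (nat_lit 2) (.spl (nat_lit 0) (nat_lit 370) (.leaf ⟨(nat_lit 0), (nat_lit 883), (nat_lit 0), (nat_lit 117), (nat_lit 0), (nat_lit 4398), (nat_lit 7859), (nat_lit 1141), (nat_lit 0), (nat_lit 0), (nat_lit 0), [], Pd.none, Pd.none, (nat_lit 0), (nat_lit 1), (nat_lit 0), (nat_lit 0), (nat_lit 6), (nat_lit 0), [], [⟨(nat_lit 1), (nat_lit 83), (nat_lit 57), (nat_lit 100), (nat_lit 423520505)⟩], [⟨(nat_lit 1), (nat_lit 40), (nat_lit 92), (nat_lit 100), (nat_lit 98995147)⟩], [],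
 ⟨⟨[(nat_lit 40), (nat_lit 60), (nat_lit 80)], [(nat_lit 0), (nat_lit 832), (nat_lit 1534)], [((nat_lit 0), (nat_lit 0), (nat_lit 0)), ((nat_lit 1000), (nat_lit 659), (nat_lit 528)), ((nat_lit 1000), (nat_lit 650), (nat_lit 549))], ((nat_lit 63), (nat_lit 100), (nat_lit 62))⟩, (nat_lit 1339340), (nat_lit 236), (nat_lit 236), (nat_lit 0), (nat_lit 566835), [(nat_lit 2032000007), (nat_lit 3282000019), (nat_lit 4688000000)], [], [(nat_lit 26289737384), (nat_lit 26747231542), (nat_lit 32483661116), (nat_lit 32957266353), (nat_lit 29315863717), (nat_lit 29839976292), (nat_lit 35251161962), (nat_lit 35630014635)], (nat_lit 1271251), (nat_lit 1271251), (nat_lit 1271251), (nat_lit 1271251), (nat_lit 1271251), (nat_lit 1271251), [(nat_lit 490000), (nat_lit 780000), (nat_lit 1100000)], [(nat_lit 2), (nat_lit 44), (nat_lit 203), (nat_lit 0), (nat_lit 6)]⟩,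
 ⟨⟨[(nat_lit 80), (nat_lit 120), (nat_lit 160)], [(nat_lit 0), (nat_lit 0), (nat_lit 2132)], [((nat_lit 0), (nat_lit 0), (nat_lit 0)), ((nat_lit 0), (nat_lit 0), (nat_lit 0)), ((nat_lit 858), (nat_lit 1000), (nat_lit 713))], ((nat_lit 100), (nat_lit 92), (nat_lit 61))⟩, (nat_lit 2909716), (nat_lit 245), (nat_lit 245), (nat_lit 0), (nat_lit 0), [(nat_lit 4688000000), (nat_lit 7968000000), (nat_lit 11872000000)], [], [(nat_lit 27832128028), (nat_lit 32857117671), (nat_lit 39371653979), (nat_lit 42347372634), (nat_lit 32623955040), (nat_lit 34923469552), (nat_lit 39419263912), (nat_lit 41089636456)], (nat_lit 0), (nat_lit 0), (nat_lit 0), (nat_lit 0), (nat_lit 0), (nat_lit 0), [], [(nat_lit 18), (nat_lit 59), (nat_lit 538), (nat_lit 300), (nat_lit 13)]⟩,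
 ⟨⟨[(nat_lit 120), (nat_lit 160), (nat_lit 180)], [(nat_lit 0), (nat_lit 533), (nat_lit 2066)], [((nat_lit 0), (nat_lit 0), (nat_lit 0)), ((nat_lit 960), (nat_lit 1000), (nat_lit 200)), ((nat_lit 615), (nat_lit 1000), (nat_lit 729))], ((nat_lit 100), (nat_lit 74), (nat_lit 60))⟩, (nat_lit 273951), (nat_lit 300), (nat_lit 1900), (nat_lit 7768801), (nat_lit 3352869), [(nat_lit 932256000), (nat_lit 1389024000), (nat_lit 1644786000)], [], [(nat_lit 7009428821), (nat_lit 6874630452), (nat_lit 6739012258), (nat_lit 6603370292), (nat_lit 6628671025), (nat_lit 5640202187), (nat_lit 5383539299), (nat_lit 5249349160)], (nat_lit 1271251), (nat_lit 1271251), (nat_lit 1271251), (nat_lit 1271251), (nat_lit 54688), (nat_lit 2845626), [(nat_lit 1695001), (nat_lit 1271251), (nat_lit 1271251)], [(nat_lit 28), (nat_lit 65), (nat_lit 595), (nat_lit 250), (nat_lit 14)]⟩⟩) (.trX (nat_lit 3) (nat_lit 0) (nat_lit 1) (nat_lit 66) (nat_lit 45) (nat_lit 100) (nat_lit 390)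 (.trX (nat_lit 4) (nat_lit 0) (nat_lit 2) (nat_lit 53) (nat_lit 80) (nat_lit 100) (nat_lit 330) (.leaf ⟨(nat_lit 0), (nat_lit 890), (nat_lit 0), (nat_lit 110), (nat_lit 0), (nat_lit 4457), (nat_lit 7815), (nat_lit 1082), (nat_lit 0), (nat_lit 0), (nat_lit 0), [], Pd.none, Pd.none, (nat_lit 0), (nat_lit 1), (nat_lit 0), (nat_lit 0), (nat_lit 6), (nat_lit 0), [], [⟨(nat_lit 1), (nat_lit 88), (nat_lit 48), (nat_lit 100), (nat_lit 532972215)⟩], [⟨(nat_lit 1), (nat_lit 40), (nat_lit 92), (nat_lit 100), (nat_lit 118737580)⟩], [],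
 ⟨⟨[(nat_lit 40), (nat_lit 60), (nat_lit 80)], [(nat_lit 0), (nat_lit 1134), (nat_lit 1930)], [((nat_lit 0), (nat_lit 0), (nat_lit 0)), ((nat_lit 1000), (nat_lit 575), (nat_lit 619)), ((nat_lit 1000), (nat_lit 574), (nat_lit 622))], ((nat_lit 57), (nat_lit 100), (nat_lit 64))⟩, (nat_lit 1027484), (nat_lit 243), (nat_lit 243), (nat_lit 0), (nat_lit 586962), [(nat_lit 2032000046), (nat_lit 3282000464), (nat_lit 4688000000)], [], [(nat_lit 26570298479), (nat_lit 27030473132), (nat_lit 32512990671), (nat_lit 33004615991), (nat_lit 29377570256), (nat_lit 29962029823), (nat_lit 34933959838), (nat_lit 35336678284)], (nat_lit 1271251), (nat_lit 1271251), (nat_lit 1271251), (nat_lit 1271251), (nat_lit 1271251), (nat_lit 1271251), [(nat_lit 490000), (nat_lit 780000), (nat_lit 1100000)], [(nat_lit 2), (nat_lit 44), (nat_lit 203), (nat_lit 0), (nat_lit 6)]⟩,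
 ⟨⟨[(nat_lit 80), (nat_lit 120), (nat_lit 160)], [(nat_lit 0), (nat_lit 0), (nat_lit 2132)], [((nat_lit 0), (nat_lit 0), (nat_lit 0)), ((nat_lit 0), (nat_lit 0), (nat_lit 0)), ((nat_lit 858), (nat_lit 1000), (nat_lit 713))], ((nat_lit 100), (nat_lit 92), (nat_lit 61))⟩, (nat_lit 2978199), (nat_lit 242), (nat_lit 242), (nat_lit 0), (nat_lit 0), [(nat_lit 4688000000), (nat_lit 7968000000), (nat_lit 11872000000)], [], [(nat_lit 27679497632), (nat_lit 32689611887), (nat_lit 38370090570), (nat_lit 41133536460), (nat_lit 32494139320), (nat_lit 34939638320), (nat_lit 38734018498), (nat_lit 40523784463)], (nat_lit 0), (nat_lit 0), (nat_lit 0), (nat_lit 0), (nat_lit 0), (nat_lit 0), [], [(nat_lit 18), (nat_lit 59), (nat_lit 538), (nat_lit 300), (nat_lit 13)]⟩,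
 ⟨⟨[(nat_lit 120), (nat_lit 160), (nat_lit 180)], [(nat_lit 0), (nat_lit 533), (nat_lit 2066)], [((nat_lit 0), (nat_lit 0), (nat_lit 0)), ((nat_lit 960), (nat_lit 1000), (nat_lit 200)), ((nat_lit 615), (nat_lit 1000), (nat_lit 729))], ((nat_lit 100), (nat_lit 74), (nat_lit 60))⟩, (nat_lit 257561), (nat_lit 300), (nat_lit 2063), (nat_lit 7304000), (nat_lit 3673266), [(nat_lit 876480000), (nat_lit 1305920000), (nat_lit 1546380000)], [], [(nat_lit 6533517531), (nat_lit 6406805587), (nat_lit 6295820442), (nat_lit 6168718734), (nat_lit 6239234610), (nat_lit 5301878534), (nat_lit 5030670741), (nat_lit 4905360809)], (nat_lit 1271251), (nat_lit 1271251), (nat_lit 1271251), (nat_lit 1271251), (nat_lit 54688), (nat_lit 2845626), [(nat_lit 1695001), (nat_lit 1271251), (nat_lit 1271251)], [(nat_lit 28), (nat_lit 65), (nat_lit 635), (nat_lit 250), (nat_lit 14)]⟩⟩)))) (.spl (nat_lit 1) (nat_lit 280) (.trX (nat_lit 3) (nat_lit 0) (nat_lit 1) (nat_lit 65) (nat_lit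 54) (nat_lit 100) (nat_lit 380) (.spl (nat_lit 5) (nat_lit 120) (.trX (nat_lit 3) (nat_lit 4) (nat_lit 5) (nat_lit 100) (nat_lit 59) (nat_lit 94) (nat_lit 370) (.spl (nat_lit 3) (nat_lit 320) (.leaf ⟨(nat_lit 804), (nat_lit 97), (nat_lit 0), (nat_lit 99), (nat_lit 0), (nat_lit 3150), (nat_lit 2229), (nat_lit 1070), (nat_lit 0), (nat_lit 0), (nat_lit 449150), [((nat_lit 380), [((nat_lit 24), (nat_lit 0), (nat_lit 95)), ((nat_lit 41), (nat_lit 2), (nat_lit 709))])], ⟨(nat_lit 6), false, true, true, (nat_lit 274), (nat_lit 2236), (nat_lit 3163), [(nat_lit 1605240), (nat_lit 1602541), (nat_lit 1649422), (nat_lit 1647962), (nat_lit 1727168), (nat_lit 1716594), (nat_lit 1771478), (nat_lit 1762142)]⟩, ⟨(nat_lit 6), false, true, true, (nat_lit 253), (nat_lit 2236), (nat_lit 3163), [(nat_lit 1538797), (nat_lit 1534240), (nat_lit 1583107), (nat_lit 1579788), (nat_lit 1691180), (nat_lit 1676779), (nat_lit 1735490), (nat_lit 1722327)]⟩, (nat_lit 5588399), (nat_lit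 34158997), (nat_lit 17489326), (nat_lit 15351677), (nat_lit 6), (nat_lit 0), [], [⟨(nat_lit 1), (nat_lit 85), (nat_lit 53), (nat_lit 100), (nat_lit 82172589)⟩], [], [⟨(nat_lit 0), (nat_lit 97), (nat_lit 100), (nat_lit 84), (nat_lit 131771087)⟩],
 ⟨⟨[(nat_lit 40), (nat_lit 60), (nat_lit 80)], [(nat_lit 0), (nat_lit 832), (nat_lit 1534)], [((nat_lit 0), (nat_lit 0), (nat_lit 0)), ((nat_lit 1000), (nat_lit 659), (nat_lit 528)), ((nat_lit 1000), (nat_lit 650), (nat_lit 549))], ((nat_lit 63), (nat_lit 100), (nat_lit 62))⟩, (nat_lit 401259), (nat_lit 127), (nat_lit 127), (nat_lit 0), (nat_lit 238260), [(nat_lit 1415305601), (nat_lit 1230660957), (nat_lit 1043444800)], [(nat_lit 0), (nat_lit 0), (nat_lit 0)], [(nat_lit 24585199803), (nat_lit 25618873903), (nat_lit 27286501303), (nat_lit 28172069453), (nat_lit 28097352278), (nat_lit 29058901638), (nat_lit 30497331875), (nat_lit 31336001813)], (nat_lit 1271251), (nat_lit 1271251), (nat_lit 1271251), (nat_lit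 1271251), (nat_lit 1271251), (nat_lit 1271251), [(nat_lit 490000), (nat_lit 780000), (nat_lit 1100000)], [(nat_lit 2), (nat_lit 44), (nat_lit 203), (nat_lit 0), (nat_lit 6)]⟩,
 ⟨⟨[(nat_lit 80), (nat_lit 120), (nat_lit 160)], [(nat_lit 0), (nat_lit 0), (nat_lit 2132)], [((nat_lit 0), (nat_lit 0), (nat_lit 0)), ((nat_lit 0), (nat_lit 0), (nat_lit 0)), ((nat_lit 858), (nat_lit 1000), (nat_lit 713))], ((nat_lit 100), (nat_lit 92), (nat_lit 61))⟩, (nat_lit 961653), (nat_lit 721), (nat_lit 721), (nat_lit 0), (nat_lit 1043104), [(nat_lit 918848000), (nat_lit 1561728000), (nat_lit 2326912000)], [], [(nat_lit 5413898256), (nat_lit 5612833885), (nat_lit 6090615491), (nat_lit 6971615244), (nat_lit 4280636222), (nat_lit 4413245194), (nat_lit 4650501980), (nat_lit 4996146227)], (nat_lit 1271251), (nat_lit 1271251), (nat_lit 1271251), (nat_lit 1271251), (nat_lit 54688), (nat_lit 780000), [(nat_lit 1100000), (nat_lit 1785001), (nat_lit 1271251)], [(nat_lit 18),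 (nat_lit 59), (nat_lit 428), (nat_lit 200), (nat_lit 11)]⟩,
 ⟨⟨[(nat_lit 120), (nat_lit 160), (nat_lit 180)], [(nat_lit 0), (nat_lit 533), (nat_lit 2066)], [((nat_lit 0), (nat_lit 0), (nat_lit 0)), ((nat_lit 960), (nat_lit 1000), (nat_lit 200)), ((nat_lit 615), (nat_lit 1000), (nat_lit 729))], ((nat_lit 100), (nat_lit 74), (nat_lit 60))⟩, (nat_lit 308292), (nat_lit 300), (nat_lit 1227), (nat_lit 6573600), (nat_lit 1944847), [(nat_lit 788832000), (nat_lit 1175328000), (nat_lit 1391742000)], [], [(nat_lit 5313014708), (nat_lit 5215403801), (nat_lit 5287126204), (nat_lit 5199586284), (nat_lit 4625180326), (nat_lit 4528937313), (nat_lit 4564835941), (nat_lit 4456560658)], (nat_lit 1271251), (nat_lit 1271251), (nat_lit 1271251), (nat_lit 1271251), (nat_lit 54688), (nat_lit 780000), [(nat_lit 1695001), (nat_lit 1271251), (nat_lit 1271251)], [(nat_lit 28), (nat_lit 65), (nat_lit 401), (nat_lit 175), (nat_lit 9)]⟩⟩) (.trX (nat_lit 4) (nat_lit 3) (nat_lit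 5) (nat_lit 87) (nat_lit 95) (nat_lit 100) (nat_lit 300) (.trZ (nat_lit 3) (nat_lit 4) (nat_lit 5) (nat_lit 100) (nat_lit 82) (nat_lit 76) (nat_lit 60) (.leaf ⟨(nat_lit 671), (nat_lit 180), (nat_lit 0), (nat_lit 149), (nat_lit 0), (nat_lit 3244), (nat_lit 3316), (nat_lit 1760), (nat_lit 0), (nat_lit 0), (nat_lit 357100), [((nat_lit 380), [((nat_lit 24), (nat_lit 0), (nat_lit 130)), ((nat_lit 41), (nat_lit 2), (nat_lit 541))])], ⟨(nat_lit 8), false, true, true, (nat_lit 312), (nat_lit 2236), (nat_lit 3163), [(nat_lit 1727168), (nat_lit 1716594), (nat_lit 1771478), (nat_lit 1762142), (nat_lit 1803360), (nat_lit 1787863), (nat_lit 1847670), (nat_lit 1833412)]⟩, ⟨(nat_lit 6), false, true, true, (nat_lit 241), (nat_lit 2236), (nat_lit 3163), [(nat_lit 1538797), (nat_lit 1534240), (nat_lit 1583107), (nat_lit 1579788), (nat_lit 1630227), (nat_lit 1619763), (nat_lit 1674537), (nat_lit 1665312)]⟩, (nat_lit 5622690), (nat_lit 32487823), (nat_lit 20861756),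 (nat_lit 13650421), (nat_lit 6), (nat_lit 0), [], [], [], [⟨(nat_lit 0), (nat_lit 100), (nat_lit 74), (nat_lit 98), (nat_lit 221940800)⟩],
 ⟨⟨[(nat_lit 40), (nat_lit 60), (nat_lit 80)], [(nat_lit 0), (nat_lit 832), (nat_lit 1534)], [((nat_lit 0), (nat_lit 0), (nat_lit 0)), ((nat_lit 1000), (nat_lit 659), (nat_lit 528)), ((nat_lit 1000), (nat_lit 650), (nat_lit 549))], ((nat_lit 63), (nat_lit 100), (nat_lit 62))⟩, (nat_lit 1849815), (nat_lit 132), (nat_lit 132), (nat_lit 0), (nat_lit 238260), [(nat_lit 1490244403), (nat_lit 1708146861), (nat_lit 1735515200)], [(nat_lit 0), (nat_lit 0), (nat_lit 0)], [(nat_lit 27369553489), (nat_lit 28264856373), (nat_lit 29584099473), (nat_lit 30504990354), (nat_lit 29148983564), (nat_lit 30074904438), (nat_lit 31252640222), (nat_lit 32072988332)], (nat_lit 1271251), (nat_lit 1271251), (nat_lit 1271251), (nat_lit 1271251), (nat_lit 1271251), (nat_lit 1271251), [(nat_lit 490000), (nat_lit 780000), (nat_lit 1100000)],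 [(nat_lit 2), (nat_lit 44), (nat_lit 203), (nat_lit 0), (nat_lit 6)]⟩,
 ⟨⟨[(nat_lit 80), (nat_lit 120), (nat_lit 160)], [(nat_lit 0), (nat_lit 0), (nat_lit 2132)], [((nat_lit 0), (nat_lit 0), (nat_lit 0)), ((nat_lit 0), (nat_lit 0), (nat_lit 0)), ((nat_lit 858), (nat_lit 1000), (nat_lit 713))], ((nat_lit 100), (nat_lit 92), (nat_lit 61))⟩, (nat_lit 1824234), (nat_lit 672), (nat_lit 672), (nat_lit 0), (nat_lit 1043104), [(nat_lit 1542352000), (nat_lit 2621472000), (nat_lit 3905888000)], [], [(nat_lit 10111083673), (nat_lit 10346041940), (nat_lit 10758590266), (nat_lit 11564141061), (nat_lit 9359836498), (nat_lit 9566593106), (nat_lit 9955185052), (nat_lit 10387852282)], (nat_lit 1271251), (nat_lit 1271251), (nat_lit 1271251), (nat_lit 1271251), (nat_lit 356250), (nat_lit 780000), [(nat_lit 1100000), (nat_lit 1785001), (nat_lit 1271251)], [(nat_lit 18), (nat_lit 59), (nat_lit 317), (nat_lit 100), (nat_lit 7)]⟩,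
 ⟨⟨[(nat_lit 120), (nat_lit 160), (nat_lit 180)], [(nat_lit 0), (nat_lit 533), (nat_lit 2066)], [((nat_lit 0), (nat_lit 0), (nat_lit 0)), ((nat_lit 960), (nat_lit 1000), (nat_lit 200)), ((nat_lit 615), (nat_lit 1000), (nat_lit 729))], ((nat_lit 100), (nat_lit 74), (nat_lit 60))⟩, (nat_lit 551759), (nat_lit 300), (nat_lit 1193), (nat_lit 9893600), (nat_lit 1944847), [(nat_lit 1187232000), (nat_lit 1768928000), (nat_lit 2094642000)], [], [(nat_lit 6898180384), (nat_lit 6782251677), (nat_lit 6934095729), (nat_lit 6799278898), (nat_lit 6366269431), (nat_lit 6239004978), (nat_lit 6380224412), (nat_lit 6244002398)], (nat_lit 1271251), (nat_lit 1271251), (nat_lit 1271251), (nat_lit 1271251), (nat_lit 356250), (nat_lit 780000), [(nat_lit 1695001), (nat_lit 1271251), (nat_lit 1271251)], [(nat_lit 28), (nat_lit 65), (nat_lit 401), (nat_lit 175), (nat_lit 9)]⟩⟩))))) (.leaf ⟨(nat_lit 419), (nat_lit 248), (nat_lit 0), (nat_lit 333), (nat_lit 0), (nat_lit 3372),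 (nat_lit 5630), (nat_lit 3426), (nat_lit 0), (nat_lit 0), (nat_lit 183850), [((nat_lit 380), [((nat_lit 24), (nat_lit 0), (nat_lit 193)), ((nat_lit 41), (nat_lit 2), (nat_lit 226))])], ⟨(nat_lit 6), false, true, true, (nat_lit 292), (nat_lit 2236), (nat_lit 3163), [(nat_lit 1605240), (nat_lit 1602541), (nat_lit 1649422), (nat_lit 1647962), (nat_lit 1818598), (nat_lit 1802117), (nat_lit 1862908), (nat_lit 1847666)]⟩, ⟨(nat_lit 6), false, true, true, (nat_lit 253), (nat_lit 2236), (nat_lit 3163), [(nat_lit 1538797), (nat_lit 1534240), (nat_lit 1583107), (nat_lit 1579788), (nat_lit 1691180), (nat_lit 1676779), (nat_lit 1735490), (nat_lit 1722327)]⟩, (nat_lit 5635861), (nat_lit 33119014), (nat_lit 18907576), (nat_lit 14973410), (nat_lit 6), (nat_lit 0), [], [⟨(nat_lit 1), (nat_lit 85), (nat_lit 53), (nat_lit 100), (nat_lit 119222510)⟩], [], [],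
 ⟨⟨[(nat_lit 40), (nat_lit 60), (nat_lit 80)], [(nat_lit 0), (nat_lit 832), (nat_lit 1534)], [((nat_lit 0), (nat_lit 0), (nat_lit 0)), ((nat_lit 1000), (nat_lit 659), (nat_lit 528)), ((nat_lit 1000), (nat_lit 650), (nat_lit 549))], ((nat_lit 63), (nat_lit 100), (nat_lit 62))⟩, (nat_lit 6088933), (nat_lit 135), (nat_lit 135), (nat_lit 0), (nat_lit 238260), [(nat_lit 1631779413), (nat_lit 2773513007), (nat_lit 3040976000)], [(nat_lit 0), (nat_lit 0), (nat_lit 0)], [(nat_lit 24854153199), (nat_lit 25918084567), (nat_lit 30207303774), (nat_lit 31116172517), (nat_lit 28431273197), (nat_lit 29300630202), (nat_lit 33076478779), (nat_lit 33817523946)], (nat_lit 1271251), (nat_lit 1271251), (nat_lit 1271251), (nat_lit 1271251), (nat_lit 1271251), (nat_lit 1271251), [(nat_lit 490000), (nat_lit 780000), (nat_lit 1100000)], [(nat_lit 2), (nat_lit 44), (nat_lit 203), (nat_lit 0), (nat_lit 6)]⟩,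
 ⟨⟨[(nat_lit 80), (nat_lit 120), (nat_lit 160)], [(nat_lit 0), (nat_lit 0), (nat_lit 2132)], [((nat_lit 0), (nat_lit 0), (nat_lit 0)), ((nat_lit 0), (nat_lit 0), (nat_lit 0)), ((nat_lit 858), (nat_lit 1000), (nat_lit 713))], ((nat_lit 100), (nat_lit 92), (nat_lit 61))⟩, (nat_lit 1990479), (nat_lit 651), (nat_lit 651), (nat_lit 0), (nat_lit 1043104), [(nat_lit 2723728000), (nat_lit 4629408000), (nat_lit 6897632000)], [], [(nat_lit 16347837398), (nat_lit 16875707810), (nat_lit 18644786302), (nat_lit 18885380114), (nat_lit 26512198336), (nat_lit 21634827996), (nat_lit 23636390660), (nat_lit 24192129836)], (nat_lit 1271251), (nat_lit 1271251), (nat_lit 1271251), (nat_lit 1271251), (nat_lit 780000), (nat_lit 3072501), [(nat_lit 1100000), (nat_lit 1785001), (nat_lit 1271251)], [(nat_lit 18), (nat_lit 59), (nat_lit 538), (nat_lit 300), (nat_lit 13)]⟩,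
 ⟨⟨[(nat_lit 120), (nat_lit 160), (nat_lit 180)], [(nat_lit 0), (nat_lit 533), (nat_lit 2066)], [((nat_lit 0), (nat_lit 0), (nat_lit 0)), ((nat_lit 960), (nat_lit 1000), (nat_lit 200)), ((nat_lit 615), (nat_lit 1000), (nat_lit 729))], ((nat_lit 100), (nat_lit 74), (nat_lit 60))⟩, (nat_lit 1451663), (nat_lit 300), (nat_lit 1157), (nat_lit 22111200), (nat_lit 1944847), [(nat_lit 2653344000), (nat_lit 3953376000), (nat_lit 4681314000)], [], [(nat_lit 16500627455), (nat_lit 16145765496), (nat_lit 16077868891), (nat_lit 15739791627), (nat_lit 14894136183), (nat_lit 14564297085), (nat_lit 14733998198), (nat_lit 14428176581)], (nat_lit 1271251), (nat_lit 1271251), (nat_lit 1271251), (nat_lit 1271251), (nat_lit 780000), (nat_lit 3072501), [(nat_lit 1695001), (nat_lit 1271251), (nat_lit 1271251)], [(nat_lit 28), (nat_lit 65), (nat_lit 483), (nat_lit 250), (nat_lit 11)]⟩⟩))) (.spl (nat_lit 1) (nat_lit 300) (.trX (nat_lit 3) (nat_lit 0) (nat_lit 1) (nat_lit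 69) (nat_lit 45) (nat_lit 100) (nat_lit 390) (.leaf ⟨(nat_lit 54), (nat_lit 631), (nat_lit 0), (nat_lit 315), (nat_lit 0), (nat_lit 3663), (nat_lit 7512), (nat_lit 3310), (nat_lit 0), (nat_lit 0), (nat_lit 216000), [((nat_lit 380), [((nat_lit 41), (nat_lit 5), (nat_lit 54))])], ⟨(nat_lit 7), false, true, true, (nat_lit 308), (nat_lit 2236), (nat_lit 3163), [(nat_lit 1649422), (nat_lit 1647962), (nat_lit 1671514), (nat_lit 1670673), (nat_lit 1878147), (nat_lit 1861919), (nat_lit 1900301), (nat_lit 1884694)]⟩, ⟨(nat_lit 6), false, true, true, (nat_lit 253), (nat_lit 2236), (nat_lit 3163), [(nat_lit 1538797), (nat_lit 1534240), (nat_lit 1583107), (nat_lit 1579788), (nat_lit 1691180), (nat_lit 1676779), (nat_lit 1735490), (nat_lit 1722327)]⟩, (nat_lit 5667727), (nat_lit 32168137), (nat_lit 20212153), (nat_lit 14619710), (nat_lit 6), (nat_lit 0), [], [⟨(nat_lit 1), (nat_lit 85), (nat_lit 53), (nat_lit 100), (nat_lit 272434503)⟩], [], [⟨(nat_lit 0), (nat_lit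 100), (nat_lit 92), (nat_lit 99), (nat_lit 3197357)⟩],
 ⟨⟨[(nat_lit 40), (nat_lit 60), (nat_lit 80)], [(nat_lit 0), (nat_lit 832), (nat_lit 1534)], [((nat_lit 0), (nat_lit 0), (nat_lit 0)), ((nat_lit 1000), (nat_lit 659), (nat_lit 528)), ((nat_lit 1000), (nat_lit 650), (nat_lit 549))], ((nat_lit 63), (nat_lit 100), (nat_lit 62))⟩, (nat_lit 2900551), (nat_lit 141), (nat_lit 141), (nat_lit 0), (nat_lit 258736), [(nat_lit 1864508801), (nat_lit 3201660894), (nat_lit 3512765600)], [(nat_lit 0), (nat_lit 0), (nat_lit 0)], [(nat_lit 25053619743), (nat_lit 26157212665), (nat_lit 31044786440), (nat_lit 31955212095), (nat_lit 28715899873), (nat_lit 29612977174), (nat_lit 33851780108), (nat_lit 34590307678)], (nat_lit 1271251), (nat_lit 1271251), (nat_lit 1271251), (nat_lit 1271251), (nat_lit 1271251), (nat_lit 1271251), [(nat_lit 490000), (nat_lit 780000), (nat_lit 1100000)], [(nat_lit 2), (nat_lit 44), (nat_lit 203), (nat_lit 0), (nat_lit 6)]⟩,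
 ⟨⟨[(nat_lit 60), (nat_lit 100), (nat_lit 140)], [(nat_lit 0), (nat_lit 0), (nat_lit 2047)], [((nat_lit 0), (nat_lit 0), (nat_lit 0)), ((nat_lit 0), (nat_lit 0), (nat_lit 0)), ((nat_lit 1000), (nat_lit 993), (nat_lit 781))], ((nat_lit 94), (nat_lit 100), (nat_lit 62))⟩, (nat_lit 4632540), (nat_lit 593), (nat_lit 593), (nat_lit 0), (nat_lit 911110), [(nat_lit 3104772000), (nat_lit 5912500000), (nat_lit 9310532000)], [], [(nat_lit 30780356503), (nat_lit 31327063954), (nat_lit 36800616109), (nat_lit 38000771435), (nat_lit 31001018308), (nat_lit 31831167946), (nat_lit 37656547582), (nat_lit 38079527060)], (nat_lit 1271251), (nat_lit 1271251), (nat_lit 1271251), (nat_lit 1271251), (nat_lit 54688), (nat_lit 2845626), [(nat_lit 780000), (nat_lit 1435001), (nat_lit 1271251)], [(nat_lit 11), (nat_lit 55), (nat_lit 428), (nat_lit 200), (nat_lit 12)]⟩,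
 ⟨⟨[(nat_lit 120), (nat_lit 160), (nat_lit 180)], [(nat_lit 0), (nat_lit 533), (nat_lit 2066)], [((nat_lit 0), (nat_lit 0), (nat_lit 0)), ((nat_lit 960), (nat_lit 1000), (nat_lit 200)), ((nat_lit 615), (nat_lit 1000), (nat_lit 729))], ((nat_lit 100), (nat_lit 74), (nat_lit 60))⟩, (nat_lit 1425765), (nat_lit 300), (nat_lit 1311), (nat_lit 20916000), (nat_lit 2115467), [(nat_lit 2509920000), (nat_lit 3739680000), (nat_lit 4428270000)], [], [(nat_lit 17230299190), (nat_lit 16912516897), (nat_lit 17067484948), (nat_lit 16730463843), (nat_lit 18030170950), (nat_lit 15162658370), (nat_lit 13820378023), (nat_lit 13520651568)], (nat_lit 1271251), (nat_lit 1271251), (nat_lit 1271251), (nat_lit 1271251), (nat_lit 54688), (nat_lit 2845626), [(nat_lit 1695001), (nat_lit 1271251), (nat_lit 1271251)], [(nat_lit 28), (nat_lit 65), (nat_lit 483), (nat_lit 250), (nat_lit 11)]⟩⟩)) (.trX (nat_lit 5) (nat_lit 1) (nat_lit 2) (nat_lit 87) (nat_lit 41) (nat_lit 100) (nat_lit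 390) (.leaf ⟨(nat_lit 0), (nat_lit 734), (nat_lit 0), (nat_lit 266), (nat_lit 0), (nat_lit 3951), (nat_lit 5716), (nat_lit 2393), (nat_lit 0), (nat_lit 0), (nat_lit 0), [], Pd.none, Pd.none, (nat_lit 0), (nat_lit 1), (nat_lit 0), (nat_lit 0), (nat_lit 6), (nat_lit 0), [], [⟨(nat_lit 1), (nat_lit 85), (nat_lit 53), (nat_lit 100), (nat_lit 354447096)⟩], [⟨(nat_lit 1), (nat_lit 55), (nat_lit 84), (nat_lit 100), (nat_lit 4636445)⟩], [],
 ⟨⟨[(nat_lit 40), (nat_lit 60), (nat_lit 80)], [(nat_lit 0), (nat_lit 832), (nat_lit 1534)], [((nat_lit 0), (nat_lit 0), (nat_lit 0)), ((nat_lit 1000), (nat_lit 659), (nat_lit 528)), ((nat_lit 1000), (nat_lit 650), (nat_lit 549))], ((nat_lit 63), (nat_lit 100), (nat_lit 62))⟩, (nat_lit 1415928), (nat_lit 154), (nat_lit 154), (nat_lit 0), (nat_lit 282614), [(nat_lit 2032000001), (nat_lit 3299986297), (nat_lit 4688000000)], [], [(nat_lit 26023068084), (nat_lit 27013160841), (nat_lit 31909783742), (nat_lit 32818389955),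 (nat_lit 29331102627), (nat_lit 30173636727), (nat_lit 34643546369), (nat_lit 35377012246)], (nat_lit 1271251), (nat_lit 1271251), (nat_lit 1271251), (nat_lit 1271251), (nat_lit 1271251), (nat_lit 1271251), [(nat_lit 490000), (nat_lit 780000), (nat_lit 1100000)], [(nat_lit 2), (nat_lit 44), (nat_lit 203), (nat_lit 0), (nat_lit 6)]⟩,
 ⟨⟨[(nat_lit 60), (nat_lit 100), (nat_lit 120)], [(nat_lit 0), (nat_lit 609), (nat_lit 1609)], [((nat_lit 0), (nat_lit 0), (nat_lit 0)), ((nat_lit 1000), (nat_lit 905), (nat_lit 238)), ((nat_lit 1000), (nat_lit 882), (nat_lit 668))], ((nat_lit 87), (nat_lit 100), (nat_lit 60))⟩, (nat_lit 4773153), (nat_lit 520), (nat_lit 520), (nat_lit 0), (nat_lit 881499), [(nat_lit 3282000000), (nat_lit 6250000000), (nat_lit 7968000000)], [], [(nat_lit 27564051223), (nat_lit 28190171059), (nat_lit 35603948060), (nat_lit 36636370854), (nat_lit 30990796086), (nat_lit 31374929414), (nat_lit 37125527316), (nat_lit 37578263010)], (nat_lit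 1271251), (nat_lit 1271251), (nat_lit 1271251), (nat_lit 1271251), (nat_lit 54688), (nat_lit 2774063), [(nat_lit 780000), (nat_lit 1435001), (nat_lit 1271251)], [(nat_lit 10), (nat_lit 54), (nat_lit 317), (nat_lit 100), (nat_lit 10)]⟩,
 ⟨⟨[(nat_lit 120), (nat_lit 160), (nat_lit 180)], [(nat_lit 0), (nat_lit 533), (nat_lit 2066)], [((nat_lit 0), (nat_lit 0), (nat_lit 0)), ((nat_lit 960), (nat_lit 1000), (nat_lit 200)), ((nat_lit 615), (nat_lit 1000), (nat_lit 729))], ((nat_lit 100), (nat_lit 74), (nat_lit 60))⟩, (nat_lit 622829), (nat_lit 300), (nat_lit 1398), (nat_lit 17662401), (nat_lit 2314264), [(nat_lit 2119488000), (nat_lit 3157952000), (nat_lit 3739428000)], [], [(nat_lit 17458826888), (nat_lit 17184986075), (nat_lit 16983613935), (nat_lit 16703417387), (nat_lit 14682140689), (nat_lit 14398111982), (nat_lit 14156168250), (nat_lit 13872201848)], (nat_lit 1271251), (nat_lit 1271251), (nat_lit 1271251), (nat_lit 1271251), (nat_lit 54688), (nat_lit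 2774063), [(nat_lit 1695001), (nat_lit 1271251), (nat_lit 1271251)], [(nat_lit 28), (nat_lit 65), (nat_lit 483), (nat_lit 250), (nat_lit 11)]⟩⟩)))))
noncomputable def c17_58 : Tr Lf :=
 (.spl (nat_lit 1) (nat_lit 280) (.trX (nat_lit 3) (nat_lit 0) (nat_lit 1) (nat_lit 65) (nat_lit 54) (nat_lit 100) (nat_lit 380) (.spl (nat_lit 3) (nat_lit 240) (.spl (nat_lit 5) (nat_lit 200) (.leaf ⟨(nat_lit 0), (nat_lit 1000), (nat_lit 0), (nat_lit 0), (nat_lit 17157), (nat_lit 4907), (nat_lit 8498), (nat_lit 0), (nat_lit 0), (nat_lit 0), (nat_lit 0), [], Pd.none, Pd.none, (nat_lit 0), (nat_lit 1), (nat_lit 0), (nat_lit 0), (nat_lit 3), (nat_lit 0), [⟨(nat_lit 0), (nat_lit 98), (nat_lit 54), (nat_lit 100), (nat_lit 422022418)⟩, ⟨(nat_lit 0), (nat_lit 92), (nat_lit 44), (nat_lit 100), (nat_lit 268554726)⟩], [⟨(nat_lit 0), (nat_lit 100), (nat_lit 44), (nat_lit 94), (nat_lit 31788125)⟩], [], [],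
 ⟨⟨[(nat_lit 40), (nat_lit 80), (nat_lit 100)], [(nat_lit 0), (nat_lit 1598), (nat_lit 2533)], [((nat_lit 0), (nat_lit 0), (nat_lit 0)), ((nat_lit 1000), (nat_lit 625), (nat_lit 623)), ((nat_lit 1000), (nat_lit 604), (nat_lit 730))], ((nat_lit 60), (nat_lit 100), (nat_lit 78))⟩, (nat_lit 1472552), (nat_lit 256), (nat_lit 256), (nat_lit 0), (nat_lit 299067), [(nat_lit 2032000024), (nat_lit 4688000045), (nat_lit 6250000000)], [], [(nat_lit 23383867279), (nat_lit 25963983304), (nat_lit 25976698844), (nat_lit 28026139789), (nat_lit 21529954049), (nat_lit 22879415021), (nat_lit 23546364861), (nat_lit 24914608494)], (nat_lit 1271251), (nat_lit 1271251), (nat_lit 704688), (nat_lit 1756876), (nat_lit 111251), (nat_lit 780000), [(nat_lit 490000), (nat_lit 1100000), (nat_lit 1442501)], [(nat_lit 3), (nat_lit 50), (nat_lit 317), (nat_lit 100), (nat_lit 12)]⟩,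
 ⟨⟨[(nat_lit 80), (nat_lit 140), (nat_lit 180)], [(nat_lit 0), (nat_lit 0), (nat_lit 3656)], [((nat_lit 0), (nat_lit 0), (nat_lit 0)), ((nat_lit 0), (nat_lit 0), (nat_lit 0)), ((nat_lit 637), (nat_lit 1000), (nat_lit 908))], ((nat_lit 100), (nat_lit 78), (nat_lit 80))⟩, (nat_lit 3241627), (nat_lit 365), (nat_lit 365), (nat_lit 0), (nat_lit 0), [(nat_lit 4688000000), (nat_lit 9842000000), (nat_lit 14058000000)], [], [(nat_lit 28039841425), (nat_lit 30928170739), (nat_lit 29309069304), (nat_lit 32167231864), (nat_lit 21790324466), (nat_lit 24743548466), (nat_lit 24232577556), (nat_lit 26554899662)], (nat_lit 0), (nat_lit 0), (nat_lit 0), (nat_lit 0), (nat_lit 0), (nat_lit 0), [], [(nat_lit 19), (nat_lit 63), (nat_lit 428), (nat_lit 200), (nat_lit 10)]⟩,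
 Rw.none⟩) (.spl (nat_lit 3) (nat_lit 160) (.leaf ⟨(nat_lit 878), (nat_lit 69), (nat_lit 0), (nat_lit 53), (nat_lit 0), (nat_lit 3966), (nat_lit 1359), (nat_lit 612), (nat_lit 0), (nat_lit 0), (nat_lit 454000), [((nat_lit 380), [((nat_lit 25), (nat_lit 1), (nat_lit 364)), ((nat_lit 41), (nat_lit 2), (nat_lit 514))])], ⟨(nat_lit 6), true, false, false, (nat_lit 188), (nat_lit 2236), (nat_lit 3163), [(nat_lit 1406804), (nat_lit 1416903), (nat_lit 1450987), (nat_lit 1462324), (nat_lit 1483125), (nat_lit 1488302), (nat_lit 1527308), (nat_lit 1533723)]⟩, ⟨(nat_lit 3), false, false, false, (nat_lit 110), (nat_lit 2236), (nat_lit 3163), [(nat_lit 1136876), (nat_lit 1152119), (nat_lit 1247334), (nat_lit 1265673), (nat_lit 1289472), (nat_lit 1294870), (nat_lit 1399976), (nat_lit 1408471)]⟩, (nat_lit 3874443), (nat_lit 49758777), (nat_lit 12044695), (nat_lit 5196528), (nat_lit 5), (nat_lit 0), [⟨(nat_lit 0), (nat_lit 98), (nat_lit 54), (nat_lit 100), (nat_lit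 288365311)⟩], [⟨(nat_lit 0), (nat_lit 100), (nat_lit 53), (nat_lit 77), (nat_lit 297909797)⟩], [⟨(nat_lit 1), (nat_lit 44), (nat_lit 96), (nat_lit 100), (nat_lit 6031133)⟩], [],
 ⟨⟨[(nat_lit 40), (nat_lit 80), (nat_lit 100)], [(nat_lit 0), (nat_lit 1598), (nat_lit 2533)], [((nat_lit 0), (nat_lit 0), (nat_lit 0)), ((nat_lit 1000), (nat_lit 625), (nat_lit 623)), ((nat_lit 1000), (nat_lit 604), (nat_lit 730))], ((nat_lit 60), (nat_lit 100), (nat_lit 78))⟩, (nat_lit 0), (nat_lit 256), (nat_lit 256), (nat_lit 0), (nat_lit 299067), [(nat_lit 1387871453), (nat_lit 895512915), (nat_lit 728431200)], [(nat_lit 0), (nat_lit 0), (nat_lit 0)], [(nat_lit 21576042780), (nat_lit 23838256305), (nat_lit 21694610000), (nat_lit 23808226906), (nat_lit 19530724937), (nat_lit 21482348725), (nat_lit 19903325022), (nat_lit 21654759915)], (nat_lit 1271251), (nat_lit 1271251), (nat_lit 704688), (nat_lit 1100000), (nat_lit 111251), (nat_lit 780000), [(nat_lit 490000), (nat_lit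 1100000), (nat_lit 1442501)], [(nat_lit 3), (nat_lit 50), (nat_lit 289), (nat_lit 75), (nat_lit 11)]⟩,
 ⟨⟨[(nat_lit 80), (nat_lit 140), (nat_lit 180)], [(nat_lit 0), (nat_lit 0), (nat_lit 3656)], [((nat_lit 0), (nat_lit 0), (nat_lit 0)), ((nat_lit 0), (nat_lit 0), (nat_lit 0)), ((nat_lit 637), (nat_lit 1000), (nat_lit 908))], ((nat_lit 100), (nat_lit 78), (nat_lit 80))⟩, (nat_lit 268906), (nat_lit 201), (nat_lit 201), (nat_lit 0), (nat_lit 0), [(nat_lit 571936000), (nat_lit 1200724000), (nat_lit 1715076000)], [], [(nat_lit 2993474927), (nat_lit 3310024343), (nat_lit 2840312734), (nat_lit 3130729397), (nat_lit 4479263967), (nat_lit 4606317153), (nat_lit 4205236912), (nat_lit 4319395670)], (nat_lit 0), (nat_lit 0), (nat_lit 0), (nat_lit 0), (nat_lit 0), (nat_lit 0), [], [(nat_lit 19), (nat_lit 63), (nat_lit 456), (nat_lit 225), (nat_lit 10)]⟩,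
 ⟨⟨[(nat_lit 140), (nat_lit 180), (nat_lit 200)], [(nat_lit 0), (nat_lit 0), (nat_lit 2835)], [((nat_lit 0), (nat_lit 0), (nat_lit 0)), ((nat_lit 0), (nat_lit 0), (nat_lit 0)), ((nat_lit 363), (nat_lit 1000), (nat_lit 798))], ((nat_lit 0), (nat_lit 0), (nat_lit 0))⟩, (nat_lit 14582), (nat_lit 300), (nat_lit 1411), (nat_lit 4139301), (nat_lit 2102387), [(nat_lit 521626000), (nat_lit 745074000), (nat_lit 869200000)], [], [(nat_lit 3754163247), (nat_lit 3538336103), (nat_lit 3399722512), (nat_lit 3184198273), (nat_lit 3612441917), (nat_lit 3392136236), (nat_lit 3201878896), (nat_lit 2987269513)], (nat_lit 780000), (nat_lit 1598751), (nat_lit 111251), (nat_lit 780000), (nat_lit 1271251), (nat_lit 1271251), [(nat_lit 1977501), (nat_lit 1271251), (nat_lit 1271251)], [(nat_lit 32), (nat_lit 67), (nat_lit 446), (nat_lit 200), (nat_lit 10)]⟩⟩) (.leaf ⟨(nat_lit 0), (nat_lit 875), (nat_lit 0), (nat_lit 125), (nat_lit 0), (nat_lit 5137), (nat_lit 5756), (nat_lit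 1427), (nat_lit 0), (nat_lit 0), (nat_lit 0), [], Pd.none, Pd.none, (nat_lit 0), (nat_lit 1), (nat_lit 0), (nat_lit 0), (nat_lit 5), (nat_lit 0), [], [⟨(nat_lit 0), (nat_lit 100), (nat_lit 53), (nat_lit 77), (nat_lit 116678935)⟩], [⟨(nat_lit 1), (nat_lit 44), (nat_lit 96), (nat_lit 100), (nat_lit 343722244)⟩], [⟨(nat_lit 1), (nat_lit 65), (nat_lit 100), (nat_lit 76), (nat_lit 142720460)⟩],
 ⟨⟨[(nat_lit 40), (nat_lit 80), (nat_lit 100)], [(nat_lit 0), (nat_lit 1598), (nat_lit 2533)], [((nat_lit 0), (nat_lit 0), (nat_lit 0)), ((nat_lit 1000), (nat_lit 625), (nat_lit 623)), ((nat_lit 1000), (nat_lit 604), (nat_lit 730))], ((nat_lit 60), (nat_lit 100), (nat_lit 78))⟩, (nat_lit 1500544), (nat_lit 241), (nat_lit 241), (nat_lit 0), (nat_lit 299067), [(nat_lit 2032000029), (nat_lit 4688000051), (nat_lit 6250000000)], [], [(nat_lit 23629102000), (nat_lit 26106128217), (nat_lit 26375121059), (nat_lit 28482780581), (nat_lit 21055398177), (nat_lit 22816218416),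 (nat_lit 23261193220), (nat_lit 25144774041)], (nat_lit 1271251), (nat_lit 1271251), (nat_lit 1100000), (nat_lit 1785001), (nat_lit 111251), (nat_lit 780000), [(nat_lit 490000), (nat_lit 1100000), (nat_lit 1442501)], [(nat_lit 3), (nat_lit 50), (nat_lit 317), (nat_lit 100), (nat_lit 11)]⟩,
 ⟨⟨[(nat_lit 80), (nat_lit 140), (nat_lit 180)], [(nat_lit 0), (nat_lit 0), (nat_lit 3656)], [((nat_lit 0), (nat_lit 0), (nat_lit 0)), ((nat_lit 0), (nat_lit 0), (nat_lit 0)), ((nat_lit 637), (nat_lit 1000), (nat_lit 908))], ((nat_lit 100), (nat_lit 78), (nat_lit 80))⟩, (nat_lit 0), (nat_lit 117), (nat_lit 117), (nat_lit 0), (nat_lit 0), [(nat_lit 4688000000), (nat_lit 9842000000), (nat_lit 14058000000)], [], [(nat_lit 13646046408), (nat_lit 16663535132), (nat_lit 17171561704), (nat_lit 19712643728), (nat_lit 27672048480), (nat_lit 29280765288), (nat_lit 29057498112), (nat_lit 30530138440)], (nat_lit 0), (nat_lit 0), (nat_lit 0), (nat_lit 0), (nat_lit 0), (nat_lit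 0), [], [(nat_lit 19), (nat_lit 63), (nat_lit 483), (nat_lit 250), (nat_lit 11)]⟩,
 ⟨⟨[(nat_lit 140), (nat_lit 180), (nat_lit 200)], [(nat_lit 0), (nat_lit 0), (nat_lit 2835)], [((nat_lit 0), (nat_lit 0), (nat_lit 0)), ((nat_lit 0), (nat_lit 0), (nat_lit 0)), ((nat_lit 363), (nat_lit 1000), (nat_lit 798))], ((nat_lit 0), (nat_lit 0), (nat_lit 0))⟩, (nat_lit 34392), (nat_lit 300), (nat_lit 1411), (nat_lit 9762500), (nat_lit 2102387), [(nat_lit 1230250000), (nat_lit 1757250000), (nat_lit 2050000000)], [], [(nat_lit 8931697654), (nat_lit 8417542133), (nat_lit 8106624075), (nat_lit 7605709495), (nat_lit 8546187802), (nat_lit 8034499781), (nat_lit 7620166072), (nat_lit 7101118498)], (nat_lit 780000), (nat_lit 1598751), (nat_lit 111251), (nat_lit 780000), (nat_lit 1271251), (nat_lit 1271251), [(nat_lit 1977501), (nat_lit 1271251), (nat_lit 1271251)], [(nat_lit 32), (nat_lit 67), (nat_lit 446), (nat_lit 200), (nat_lit 10)]⟩⟩))) (.trX (nat_lit 5) (nat_lit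 3) (nat_lit 4) (nat_lit 100) (nat_lit 59) (nat_lit 94) (nat_lit 370) (.leaf ⟨(nat_lit 0), (nat_lit 911), (nat_lit 0), (nat_lit 89), (nat_lit 4763), (nat_lit 5057), (nat_lit 9486), (nat_lit 860), (nat_lit 0), (nat_lit 0), (nat_lit 0), [], Pd.none, Pd.none, (nat_lit 0), (nat_lit 1), (nat_lit 0), (nat_lit 0), (nat_lit 3), (nat_lit 0), [], [⟨(nat_lit 0), (nat_lit 100), (nat_lit 44), (nat_lit 94), (nat_lit 181306680)⟩], [], [⟨(nat_lit 1), (nat_lit 100), (nat_lit 87), (nat_lit 79), (nat_lit 54132582)⟩],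
 ⟨⟨[(nat_lit 40), (nat_lit 80), (nat_lit 100)], [(nat_lit 0), (nat_lit 1598), (nat_lit 2533)], [((nat_lit 0), (nat_lit 0), (nat_lit 0)), ((nat_lit 1000), (nat_lit 625), (nat_lit 623)), ((nat_lit 1000), (nat_lit 604), (nat_lit 730))], ((nat_lit 60), (nat_lit 100), (nat_lit 78))⟩, (nat_lit 1217895), (nat_lit 261), (nat_lit 261), (nat_lit 0), (nat_lit 299067), [(nat_lit 2032000042), (nat_lit 4688000039), (nat_lit 6250000000)], [], [(nat_lit 26335560601), (nat_lit 28323949001), (nat_lit 35438171179), (nat_lit 36833638254), (nat_lit 24457517034), (nat_lit 25516694440), (nat_lit 31701415400), (nat_lit 32995507864)], (nat_lit 1271251), (nat_lit 1271251), (nat_lit 1271251), (nat_lit 1271251), (nat_lit 111251), (nat_lit 780000), [(nat_lit 490000), (nat_lit 1100000), (nat_lit 1442501)], [(nat_lit 3), (nat_lit 50), (nat_lit 238), (nat_lit 30), (nat_lit 8)]⟩,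
 ⟨⟨[(nat_lit 80), (nat_lit 140), (nat_lit 180)], [(nat_lit 0), (nat_lit 0), (nat_lit 3656)], [((nat_lit 0), (nat_lit 0), (nat_lit 0)), ((nat_lit 0), (nat_lit 0), (nat_lit 0)), ((nat_lit 637), (nat_lit 1000), (nat_lit 908))], ((nat_lit 100), (nat_lit 78), (nat_lit 80))⟩, (nat_lit 2197733), (nat_lit 287), (nat_lit 287), (nat_lit 0), (nat_lit 0), [(nat_lit 4688000000), (nat_lit 9842000000), (nat_lit 14058000000)], [], [(nat_lit 33697787464), (nat_lit 36042692004), (nat_lit 43239118976), (nat_lit 44499056355), (nat_lit 32485873398), (nat_lit 33800262773), (nat_lit 38148894398), (nat_lit 39330817729)], (nat_lit 0), (nat_lit 0), (nat_lit 0), (nat_lit 0), (nat_lit 0), (nat_lit 0), [], [(nat_lit 19), (nat_lit 63), (nat_lit 538), (nat_lit 300), (nat_lit 12)]⟩,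
 ⟨⟨[(nat_lit 140), (nat_lit 180), (nat_lit 200)], [(nat_lit 0), (nat_lit 0), (nat_lit 2835)], [((nat_lit 0), (nat_lit 0), (nat_lit 0)), ((nat_lit 0), (nat_lit 0), (nat_lit 0)), ((nat_lit 363), (nat_lit 1000), (nat_lit 798))], ((nat_lit 0), (nat_lit 0), (nat_lit 0))⟩, (nat_lit 24487), (nat_lit 300), (nat_lit 1530), (nat_lit 6950900), (nat_lit 2102387), [(nat_lit 875938000), (nat_lit 1251162000), (nat_lit 1459600000)], [], [(nat_lit 8431331574), (nat_lit 8126904347), (nat_lit 7999625808), (nat_lit 7701629120), (nat_lit 7289416049), (nat_lit 6991870181), (nat_lit 6882870290), (nat_lit 6590956536)], (nat_lit 780000), (nat_lit 1598751), (nat_lit 111251), (nat_lit 780000), (nat_lit 0), (nat_lit 2613125), [(nat_lit 1977501), (nat_lit 1271251), (nat_lit 1271251)], [(nat_lit 32), (nat_lit 67), (nat_lit 472), (nat_lit 200), (nat_lit 11)]⟩⟩)))) (.trZ (nat_lit 0) (nat_lit 1) (nat_lit 3) (nat_lit 94) (nat_lit 62) (nat_lit 100) (nat_lit 150) (.spl (nat_lit 5)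 (nat_lit 200) (.leaf ⟨(nat_lit 0), (nat_lit 1000), (nat_lit 0), (nat_lit 0), (nat_lit 0), (nat_lit 6422), (nat_lit 8913), (nat_lit 0), (nat_lit 0), (nat_lit 0), (nat_lit 0), [], Pd.none, Pd.none, (nat_lit 0), (nat_lit 1), (nat_lit 0), (nat_lit 0), (nat_lit 3), (nat_lit 0), [], [⟨(nat_lit 0), (nat_lit 100), (nat_lit 53), (nat_lit 77), (nat_lit 232549507)⟩], [], [],
 ⟨⟨[(nat_lit 40), (nat_lit 80), (nat_lit 100)], [(nat_lit 0), (nat_lit 1598), (nat_lit 2533)], [((nat_lit 0), (nat_lit 0), (nat_lit 0)), ((nat_lit 1000), (nat_lit 625), (nat_lit 623)), ((nat_lit 1000), (nat_lit 604), (nat_lit 730))], ((nat_lit 60), (nat_lit 100), (nat_lit 78))⟩, (nat_lit 461903), (nat_lit 300), (nat_lit 315), (nat_lit 50800001), (nat_lit 433653), [(nat_lit 2032000010), (nat_lit 4750155779), (nat_lit 6250000000)], [], [(nat_lit 30292552067), (nat_lit 31632530660), (nat_lit 40738366295), (nat_lit 42210189596), (nat_lit 27889653784), (nat_lit 29096564732), (nat_lit 35445129762),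 (nat_lit 36811302011)], (nat_lit 1271251), (nat_lit 1271251), (nat_lit 1017188), (nat_lit 3134376), (nat_lit 111251), (nat_lit 780000), [(nat_lit 490000), (nat_lit 1100000), (nat_lit 1442501)], [(nat_lit 3), (nat_lit 50), (nat_lit 373), (nat_lit 150), (nat_lit 14)]⟩,
 ⟨⟨[(nat_lit 60), (nat_lit 120), (nat_lit 160)], [(nat_lit 0), (nat_lit 0), (nat_lit 3243)], [((nat_lit 0), (nat_lit 0), (nat_lit 0)), ((nat_lit 0), (nat_lit 0), (nat_lit 0)), ((nat_lit 878), (nat_lit 1000), (nat_lit 945))], ((nat_lit 100), (nat_lit 96), (nat_lit 86))⟩, (nat_lit 2200627), (nat_lit 252), (nat_lit 252), (nat_lit 0), (nat_lit 0), [(nat_lit 3282000000), (nat_lit 7968000000), (nat_lit 11872000000)], [], [(nat_lit 31097357677), (nat_lit 33401448295), (nat_lit 43670738402), (nat_lit 46210100968), (nat_lit 25122218119), (nat_lit 26848271134), (nat_lit 33430364164), (nat_lit 35357952960)], (nat_lit 0), (nat_lit 0), (nat_lit 0), (nat_lit 0), (nat_lit 0), (nat_lit 0), [], [(nat_lit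 12), (nat_lit 59), (nat_lit 483), (nat_lit 250), (nat_lit 12)]⟩,
 Rw.none⟩) (.trX (nat_lit 3) (nat_lit 5) (nat_lit 4) (nat_lit 100) (nat_lit 40) (nat_lit 92) (nat_lit 390) (.leaf ⟨(nat_lit 35), (nat_lit 877), (nat_lit 0), (nat_lit 88), (nat_lit 0), (nat_lit 7376), (nat_lit 8143), (nat_lit 1015), (nat_lit 0), (nat_lit 0), (nat_lit 140000), [((nat_lit 380), [((nat_lit 41), (nat_lit 5), (nat_lit 35))])], ⟨(nat_lit 7), true, false, false, (nat_lit 286), (nat_lit 2236), (nat_lit 3163), [(nat_lit 1512044), (nat_lit 1519444), (nat_lit 1556227), (nat_lit 1564865), (nat_lit 1878147), (nat_lit 1861919), (nat_lit 1922456), (nat_lit 1907468)]⟩, ⟨(nat_lit 3), false, false, false, (nat_lit 110), (nat_lit 2236), (nat_lit 3163), [(nat_lit 1136876), (nat_lit 1152119), (nat_lit 1247334), (nat_lit 1265673), (nat_lit 1289472), (nat_lit 1294870), (nat_lit 1399976), (nat_lit 1408471)]⟩, (nat_lit 4529041), (nat_lit 40783050), (nat_lit 21496386), (nat_lit 4720564), (nat_lit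 5), (nat_lit 0), [], [⟨(nat_lit 0), (nat_lit 100), (nat_lit 44), (nat_lit 94), (nat_lit 463184252)⟩], [⟨(nat_lit 1), (nat_lit 63), (nat_lit 88), (nat_lit 100), (nat_lit 383072841)⟩], [⟨(nat_lit 1), (nat_lit 92), (nat_lit 100), (nat_lit 82), (nat_lit 15942076)⟩],
 ⟨⟨[(nat_lit 40), (nat_lit 80), (nat_lit 100)], [(nat_lit 0), (nat_lit 1598), (nat_lit 2533)], [((nat_lit 0), (nat_lit 0), (nat_lit 0)), ((nat_lit 1000), (nat_lit 625), (nat_lit 623)), ((nat_lit 1000), (nat_lit 604), (nat_lit 730))], ((nat_lit 60), (nat_lit 100), (nat_lit 78))⟩, (nat_lit 125762), (nat_lit 300), (nat_lit 313), (nat_lit 47407451), (nat_lit 433653), [(nat_lit 1896298039), (nat_lit 3973969953), (nat_lit 5059300000)], [(nat_lit 0), (nat_lit 0), (nat_lit 0)], [(nat_lit 27487793054), (nat_lit 30708142831), (nat_lit 42466787285), (nat_lit 44128193626), (nat_lit 24320682504), (nat_lit 25668573098), (nat_lit 36239192256), (nat_lit 37775768670)], (nat_lit 1271251), (nat_lit 1271251),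 (nat_lit 1017188), (nat_lit 3049688), (nat_lit 111251), (nat_lit 780000), [(nat_lit 490000), (nat_lit 1100000), (nat_lit 1442501)], [(nat_lit 3), (nat_lit 50), (nat_lit 373), (nat_lit 150), (nat_lit 14)]⟩,
 ⟨⟨[(nat_lit 60), (nat_lit 120), (nat_lit 160)], [(nat_lit 0), (nat_lit 0), (nat_lit 3243)], [((nat_lit 0), (nat_lit 0), (nat_lit 0)), ((nat_lit 0), (nat_lit 0), (nat_lit 0)), ((nat_lit 878), (nat_lit 1000), (nat_lit 945))], ((nat_lit 100), (nat_lit 96), (nat_lit 86))⟩, (nat_lit 0), (nat_lit 109), (nat_lit 109), (nat_lit 0), (nat_lit 0), [(nat_lit 3167130000), (nat_lit 7689120000), (nat_lit 11456480000)], [], [(nat_lit 19312088823), (nat_lit 22405100692), (nat_lit 31355554158), (nat_lit 32770226519), (nat_lit 32094873702), (nat_lit 33598449411), (nat_lit 39089042850), (nat_lit 39949570535)], (nat_lit 0), (nat_lit 0), (nat_lit 0), (nat_lit 0), (nat_lit 0), (nat_lit 0), [], [(nat_lit 12), (nat_lit 59), (nat_lit 538), (nat_lit 300), (nat_lit 13)]⟩,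
 ⟨⟨[(nat_lit 140), (nat_lit 180), (nat_lit 200)], [(nat_lit 0), (nat_lit 0), (nat_lit 2835)], [((nat_lit 0), (nat_lit 0), (nat_lit 0)), ((nat_lit 0), (nat_lit 0), (nat_lit 0)), ((nat_lit 363), (nat_lit 1000), (nat_lit 798))], ((nat_lit 0), (nat_lit 0), (nat_lit 0))⟩, (nat_lit 24212), (nat_lit 300), (nat_lit 1895), (nat_lit 6872800), (nat_lit 3135015), [(nat_lit 866096000), (nat_lit 1237104000), (nat_lit 1443200000)], [], [(nat_lit 6238769063), (nat_lit 5878884457), (nat_lit 5651026827), (nat_lit 5293694518), (nat_lit 5999860445), (nat_lit 5634624485), (nat_lit 5321138984), (nat_lit 4963262666)], (nat_lit 780000), (nat_lit 1598751), (nat_lit 111251), (nat_lit 780000), (nat_lit 1271251), (nat_lit 1271251), [(nat_lit 1977501), (nat_lit 1271251), (nat_lit 1271251)], [(nat_lit 32), (nat_lit 67), (nat_lit 567), (nat_lit 200), (nat_lit 12)]⟩⟩)))))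
noncomputable def c17_59 : Tr Lf :=
 (.spl (nat_lit 4) (nat_lit 80) (.spl (nat_lit 1) (nat_lit 260) (.spl (nat_lit 2) (nat_lit 160) (.trX (nat_lit 5) (nat_lit 1) (nat_lit 2) (nat_lit 100) (nat_lit 40) (nat_lit 100) (nat_lit 390) (.leaf ⟨(nat_lit 1000), (nat_lit 0), (nat_lit 0), (nat_lit 0), (nat_lit 3015), (nat_lit 3170), (nat_lit 0), (nat_lit 0), (nat_lit 0), (nat_lit 0), (nat_lit 461000), [((nat_lit 380), [((nat_lit 25), (nat_lit 1), (nat_lit 695)), ((nat_lit 41), (nat_lit 2), (nat_lit 305))])], ⟨(nat_lit 6), false, false, false, (nat_lit 208), (nat_lit 2236), (nat_lit 3163), [(nat_lit 1406804), (nat_lit 1416903), (nat_lit 1428895), (nat_lit 1439613), (nat_lit 1605240), (nat_lit 1602541), (nat_lit 1627331), (nat_lit 1625251)]⟩, ⟨(nat_lit 3), false, false, false, (nat_lit 84), (nat_lit 2236), (nat_lit 3163), [(nat_lit 1136876), (nat_lit 1152119), (nat_lit 1181059), (nat_lit 1197540), (nat_lit 1228462), (nat_lit 1237798), (nat_lit 1272645), (nat_lit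 1283220)]⟩, (nat_lit 3720674), (nat_lit 49485529), (nat_lit 14033599), (nat_lit 3480872), (nat_lit 0), (nat_lit 0), [], [⟨(nat_lit 0), (nat_lit 100), (nat_lit 55), (nat_lit 68), (nat_lit 164290063)⟩], [], [],
 ⟨⟨[(nat_lit 40), (nat_lit 80), (nat_lit 100)], [(nat_lit 0), (nat_lit 1598), (nat_lit 2533)], [((nat_lit 0), (nat_lit 0), (nat_lit 0)), ((nat_lit 1000), (nat_lit 625), (nat_lit 623)), ((nat_lit 1000), (nat_lit 604), (nat_lit 730))], ((nat_lit 60), (nat_lit 100), (nat_lit 78))⟩, (nat_lit 0), (nat_lit 208), (nat_lit 208), (nat_lit 0), (nat_lit 139829), [(nat_lit 1355560007), (nat_lit 646648001), (nat_lit 418172000)], [(nat_lit 0), (nat_lit 0), (nat_lit 0)], [(nat_lit 20537514990), (nat_lit 22040085539), (nat_lit 23080427474), (nat_lit 24577509108), (nat_lit 19871436043), (nat_lit 21088712666), (nat_lit 22351764228), (nat_lit 23459679284)], (nat_lit 1271251), (nat_lit 1271251), (nat_lit 704688), (nat_lit 1756876), (nat_lit 111251), (nat_lit 490000),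 [(nat_lit 490000), (nat_lit 1100000), (nat_lit 1442501)], [(nat_lit 3), (nat_lit 50), (nat_lit 317), (nat_lit 100), (nat_lit 12)]⟩,
 Rw.none,
 Rw.none⟩)) (.trZ (nat_lit 0) (nat_lit 2) (nat_lit 4) (nat_lit 100) (nat_lit 61) (nat_lit 68) (nat_lit 50) (.leaf ⟨(nat_lit 1000), (nat_lit 0), (nat_lit 0), (nat_lit 0), (nat_lit 5091), (nat_lit 3178), (nat_lit 0), (nat_lit 0), (nat_lit 0), (nat_lit 0), (nat_lit 445800), [((nat_lit 380), [((nat_lit 25), (nat_lit 1), (nat_lit 771)), ((nat_lit 41), (nat_lit 2), (nat_lit 229))])], ⟨(nat_lit 6), false, false, false, (nat_lit 208), (nat_lit 2236), (nat_lit 3163), [(nat_lit 1406804), (nat_lit 1416903), (nat_lit 1428895), (nat_lit 1439613), (nat_lit 1605240), (nat_lit 1602541), (nat_lit 1627331), (nat_lit 1625251)]⟩, ⟨(nat_lit 4), false, false, false, (nat_lit 107), (nat_lit 2236), (nat_lit 3163), [(nat_lit 1226852), (nat_lit 1240380), (nat_lit 1248943), (nat_lit 1263091), (nat_lit 1272645), (nat_lit 1283220), (nat_lit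 1294736), (nat_lit 1305930)]⟩, (nat_lit 4017542), (nat_lit 48167454), (nat_lit 13901173), (nat_lit 4931373), (nat_lit 0), (nat_lit 0), [], [⟨(nat_lit 0), (nat_lit 100), (nat_lit 53), (nat_lit 77), (nat_lit 233826929)⟩], [], [],
 ⟨⟨[(nat_lit 40), (nat_lit 80), (nat_lit 100)], [(nat_lit 0), (nat_lit 1598), (nat_lit 2533)], [((nat_lit 0), (nat_lit 0), (nat_lit 0)), ((nat_lit 1000), (nat_lit 625), (nat_lit 623)), ((nat_lit 1000), (nat_lit 604), (nat_lit 730))], ((nat_lit 60), (nat_lit 100), (nat_lit 78))⟩, (nat_lit 0), (nat_lit 157), (nat_lit 157), (nat_lit 0), (nat_lit 97032), [(nat_lit 1362248085), (nat_lit 818242775), (nat_lit 542021600)], [(nat_lit 0), (nat_lit 0), (nat_lit 0)], [(nat_lit 19773410093), (nat_lit 21306720114), (nat_lit 22542286382), (nat_lit 23772641741), (nat_lit 19322392183), (nat_lit 20758580024), (nat_lit 22089950825), (nat_lit 23267917179)], (nat_lit 1271251), (nat_lit 1271251), (nat_lit 704688), (nat_lit 1756876), (nat_lit 292188),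 (nat_lit 490000), [(nat_lit 490000), (nat_lit 1100000), (nat_lit 1442501)], [(nat_lit 3), (nat_lit 50), (nat_lit 317), (nat_lit 100), (nat_lit 12)]⟩,
 Rw.none,
 Rw.none⟩))) (.trZ (nat_lit 0) (nat_lit 1) (nat_lit 3) (nat_lit 100) (nat_lit 63) (nat_lit 99) (nat_lit 130) (.trX (nat_lit 5) (nat_lit 1) (nat_lit 2) (nat_lit 96) (nat_lit 40) (nat_lit 100) (nat_lit 390) (.spl (nat_lit 5) (nat_lit 200) (.spl (nat_lit 2) (nat_lit 160) (.leaf ⟨(nat_lit 854), (nat_lit 146), (nat_lit 0), (nat_lit 0), (nat_lit 376), (nat_lit 3898), (nat_lit 1125), (nat_lit 0), (nat_lit 0), (nat_lit 0), (nat_lit 369400), [((nat_lit 380), [((nat_lit 25), (nat_lit 1), (nat_lit 715)), ((nat_lit 41), (nat_lit 2), (nat_lit 139))])], ⟨(nat_lit 6), false, false, false, (nat_lit 222), (nat_lit 2236), (nat_lit 3163), [(nat_lit 1459424), (nat_lit 1468173), (nat_lit 1481515), (nat_lit 1490884), (nat_lit 1627331), (nat_lit 1625251), (nat_lit 1649422), (nat_lit 1647962)]⟩, ⟨(nat_lit 3), false,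 false, false, (nat_lit 84), (nat_lit 2236), (nat_lit 3163), [(nat_lit 1136876), (nat_lit 1152119), (nat_lit 1181059), (nat_lit 1197540), (nat_lit 1228462), (nat_lit 1237798), (nat_lit 1272645), (nat_lit 1283220)]⟩, (nat_lit 3850749), (nat_lit 48029089), (nat_lit 15524813), (nat_lit 3446098), (nat_lit 3), (nat_lit 0), [], [⟨(nat_lit 0), (nat_lit 100), (nat_lit 55), (nat_lit 68), (nat_lit 240965464)⟩], [], [],
 ⟨⟨[(nat_lit 40), (nat_lit 80), (nat_lit 100)], [(nat_lit 0), (nat_lit 1598), (nat_lit 2533)], [((nat_lit 0), (nat_lit 0), (nat_lit 0)), ((nat_lit 1000), (nat_lit 625), (nat_lit 623)), ((nat_lit 1000), (nat_lit 604), (nat_lit 730))], ((nat_lit 60), (nat_lit 100), (nat_lit 78))⟩, (nat_lit 0), (nat_lit 208), (nat_lit 208), (nat_lit 0), (nat_lit 162791), [(nat_lit 1430845605), (nat_lit 1358932801), (nat_lit 1467566400)], [(nat_lit 0), (nat_lit 0), (nat_lit 0)], [(nat_lit 21752287210), (nat_lit 23680701324), (nat_lit 24237444947), (nat_lit 26022876486),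 (nat_lit 20516689983), (nat_lit 21858081787), (nat_lit 22713485074), (nat_lit 24026943938)], (nat_lit 1271251), (nat_lit 1271251), (nat_lit 857188), (nat_lit 1768126), (nat_lit 111251), (nat_lit 490000), [(nat_lit 490000), (nat_lit 1100000), (nat_lit 1442501)], [(nat_lit 3), (nat_lit 50), (nat_lit 317), (nat_lit 100), (nat_lit 12)]⟩,
 ⟨⟨[(nat_lit 80), (nat_lit 120), (nat_lit 160)], [(nat_lit 0), (nat_lit 528), (nat_lit 2577)], [((nat_lit 0), (nat_lit 0), (nat_lit 0)), ((nat_lit 1000), (nat_lit 959), (nat_lit 206)), ((nat_lit 929), (nat_lit 1000), (nat_lit 742))], ((nat_lit 100), (nat_lit 87), (nat_lit 82))⟩, (nat_lit 0), (nat_lit 596), (nat_lit 596), (nat_lit 0), (nat_lit 695161), [(nat_lit 684448000), (nat_lit 1163328000), (nat_lit 1733312000)], [], [(nat_lit 6755194423), (nat_lit 6829651218), (nat_lit 6738798571), (nat_lit 6795290118), (nat_lit 6089039107), (nat_lit 6130239292), (nat_lit 7504892176), (nat_lit 7011392926)], (nat_lit 1271251), (nat_lit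 1271251), (nat_lit 857188), (nat_lit 1768126), (nat_lit 0), (nat_lit 1412501), [(nat_lit 1100000), (nat_lit 1785001), (nat_lit 1271251)], [(nat_lit 18), (nat_lit 59), (nat_lit 428), (nat_lit 200), (nat_lit 11)]⟩,
 Rw.none⟩) (.trZ (nat_lit 0) (nat_lit 2) (nat_lit 4) (nat_lit 100) (nat_lit 61) (nat_lit 68) (nat_lit 50) (.leaf ⟨(nat_lit 800), (nat_lit 193), (nat_lit 0), (nat_lit 7), (nat_lit 2730), (nat_lit 3457), (nat_lit 1292), (nat_lit 158), (nat_lit 0), (nat_lit 0), (nat_lit 456550), [((nat_lit 380), [((nat_lit 25), (nat_lit 0), (nat_lit 67)), ((nat_lit 41), (nat_lit 2), (nat_lit 733))])], ⟨(nat_lit 6), false, false, false, (nat_lit 222), (nat_lit 2236), (nat_lit 3163), [(nat_lit 1459424), (nat_lit 1468173), (nat_lit 1481515), (nat_lit 1490884), (nat_lit 1627331), (nat_lit 1625251), (nat_lit 1649422), (nat_lit 1647962)]⟩, ⟨(nat_lit 4), false, false, false, (nat_lit 107), (nat_lit 2236), (nat_lit 3163), [(nat_lit 1226852), (nat_lit 1240380), (nat_lit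 1248943), (nat_lit 1263091), (nat_lit 1272645), (nat_lit 1283220), (nat_lit 1294736), (nat_lit 1305930)]⟩, (nat_lit 4140472), (nat_lit 46775660), (nat_lit 15350459), (nat_lit 4873881), (nat_lit 4), (nat_lit 0), [], [⟨(nat_lit 0), (nat_lit 100), (nat_lit 53), (nat_lit 77), (nat_lit 258182035)⟩], [], [],
 ⟨⟨[(nat_lit 40), (nat_lit 80), (nat_lit 100)], [(nat_lit 0), (nat_lit 1598), (nat_lit 2533)], [((nat_lit 0), (nat_lit 0), (nat_lit 0)), ((nat_lit 1000), (nat_lit 625), (nat_lit 623)), ((nat_lit 1000), (nat_lit 604), (nat_lit 730))], ((nat_lit 60), (nat_lit 100), (nat_lit 78))⟩, (nat_lit 0), (nat_lit 158), (nat_lit 158), (nat_lit 0), (nat_lit 118040), [(nat_lit 1418658447), (nat_lit 1183253760), (nat_lit 868250800)], [(nat_lit 0), (nat_lit 0), (nat_lit 0)], [(nat_lit 20301916276), (nat_lit 21889100772), (nat_lit 22832419717), (nat_lit 24217012890), (nat_lit 19660222197), (nat_lit 21192160517), (nat_lit 22179142398), (nat_lit 23476940517)], (nat_lit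 1271251), (nat_lit 1271251), (nat_lit 857188), (nat_lit 1768126), (nat_lit 292188), (nat_lit 490000), [(nat_lit 490000), (nat_lit 1100000), (nat_lit 1442501)], [(nat_lit 3), (nat_lit 50), (nat_lit 317), (nat_lit 100), (nat_lit 11)]⟩,
 ⟨⟨[(nat_lit 80), (nat_lit 120), (nat_lit 160)], [(nat_lit 0), (nat_lit 528), (nat_lit 2577)], [((nat_lit 0), (nat_lit 0), (nat_lit 0)), ((nat_lit 1000), (nat_lit 959), (nat_lit 206)), ((nat_lit 929), (nat_lit 1000), (nat_lit 742))], ((nat_lit 100), (nat_lit 87), (nat_lit 82))⟩, (nat_lit 0), (nat_lit 530), (nat_lit 530), (nat_lit 0), (nat_lit 525672), [(nat_lit 937600000), (nat_lit 1593600000), (nat_lit 2374400000)], [], [(nat_lit 9134899714), (nat_lit 9254018373), (nat_lit 9246935160), (nat_lit 9341341392), (nat_lit 8521085729), (nat_lit 8610646182), (nat_lit 10208526080), (nat_lit 9641769608)], (nat_lit 1271251), (nat_lit 1271251), (nat_lit 857188), (nat_lit 1768126), (nat_lit 0), (nat_lit 1412501), [(nat_lit 1100000),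 (nat_lit 1785001), (nat_lit 1271251)], [(nat_lit 18), (nat_lit 59), (nat_lit 428), (nat_lit 200), (nat_lit 11)]⟩,
 ⟨⟨[(nat_lit 120), (nat_lit 160), (nat_lit 200)], [(nat_lit 0), (nat_lit 0), (nat_lit 3198)], [((nat_lit 0), (nat_lit 0), (nat_lit 0)), ((nat_lit 0), (nat_lit 0), (nat_lit 0)), ((nat_lit 572), (nat_lit 1000), (nat_lit 714))], ((nat_lit 0), (nat_lit 0), (nat_lit 0))⟩, (nat_lit 3415), (nat_lit 300), (nat_lit 709), (nat_lit 519400), (nat_lit 372697), [(nat_lit 55776000), (nat_lit 83104000), (nat_lit 114800000)], [], [(nat_lit 653220061), (nat_lit 619304210), (nat_lit 572235043), (nat_lit 538843183), (nat_lit 370919992), (nat_lit 364854484), (nat_lit 326409870), (nat_lit 320645233)], (nat_lit 1100000), (nat_lit 1271251), (nat_lit 292188), (nat_lit 490000), (nat_lit 0), (nat_lit 1412501), [(nat_lit 1695001), (nat_lit 1271251), (nat_lit 1271251)], [(nat_lit 29), (nat_lit 66), (nat_lit 345), (nat_lit 125), (nat_lit 8)]⟩⟩))) (.leaf ⟨(nat_lit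 687), (nat_lit 179), (nat_lit 0), (nat_lit 134), (nat_lit 0), (nat_lit 3133), (nat_lit 2575), (nat_lit 2089), (nat_lit 0), (nat_lit 0), (nat_lit 368100), [((nat_lit 380), [((nat_lit 25), (nat_lit 0), (nat_lit 126)), ((nat_lit 41), (nat_lit 2), (nat_lit 561))])], ⟨(nat_lit 6), false, false, false, (nat_lit 222), (nat_lit 2236), (nat_lit 3163), [(nat_lit 1459424), (nat_lit 1468173), (nat_lit 1481515), (nat_lit 1490884), (nat_lit 1627331), (nat_lit 1625251), (nat_lit 1649422), (nat_lit 1647962)]⟩, ⟨(nat_lit 3), false, false, false, (nat_lit 89), (nat_lit 2236), (nat_lit 3163), [(nat_lit 1136876), (nat_lit 1152119), (nat_lit 1203150), (nat_lit 1220251), (nat_lit 1228462), (nat_lit 1237798), (nat_lit 1294736), (nat_lit 1305930)]⟩, (nat_lit 3910654), (nat_lit 47786086), (nat_lit 15493108), (nat_lit 3720806), (nat_lit 5), (nat_lit 0), [⟨(nat_lit 0), (nat_lit 96), (nat_lit 54), (nat_lit 100), (nat_lit 132960351)⟩], [⟨(nat_lit 0), (nat_lit 100), (nat_lit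 54), (nat_lit 71), (nat_lit 453209631)⟩], [], [],
 ⟨⟨[(nat_lit 40), (nat_lit 80), (nat_lit 100)], [(nat_lit 0), (nat_lit 1598), (nat_lit 2533)], [((nat_lit 0), (nat_lit 0), (nat_lit 0)), ((nat_lit 1000), (nat_lit 625), (nat_lit 623)), ((nat_lit 1000), (nat_lit 604), (nat_lit 730))], ((nat_lit 60), (nat_lit 100), (nat_lit 78))⟩, (nat_lit 663137), (nat_lit 208), (nat_lit 208), (nat_lit 0), (nat_lit 162791), [(nat_lit 1481560081), (nat_lit 1656040899), (nat_lit 1822339701)], [(nat_lit 0), (nat_lit 0), (nat_lit 0)], [(nat_lit 20609485173), (nat_lit 22043340076), (nat_lit 23102250246), (nat_lit 24504049502), (nat_lit 19968012614), (nat_lit 21217499845), (nat_lit 22392618588), (nat_lit 23495153465)], (nat_lit 1271251), (nat_lit 1271251), (nat_lit 857188), (nat_lit 1768126), (nat_lit 111251), (nat_lit 490000), [(nat_lit 490000), (nat_lit 1100000), (nat_lit 1442501)], [(nat_lit 3), (nat_lit 50), (nat_lit 317), (nat_lit 100), (nat_lit 12)]⟩,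
 ⟨⟨[(nat_lit 80), (nat_lit 120), (nat_lit 160)], [(nat_lit 0), (nat_lit 528), (nat_lit 2577)], [((nat_lit 0), (nat_lit 0), (nat_lit 0)), ((nat_lit 1000), (nat_lit 959), (nat_lit 206)), ((nat_lit 929), (nat_lit 1000), (nat_lit 742))], ((nat_lit 100), (nat_lit 87), (nat_lit 82))⟩, (nat_lit 979195), (nat_lit 486), (nat_lit 486), (nat_lit 0), (nat_lit 697971), [(nat_lit 1467344000), (nat_lit 2493984000), (nat_lit 3715936000)], [], [(nat_lit 7866358165), (nat_lit 8046519419), (nat_lit 9145962918), (nat_lit 8132526915), (nat_lit 9729541850), (nat_lit 9927060802), (nat_lit 9758931832), (nat_lit 10053291670)], (nat_lit 1271251), (nat_lit 1271251), (nat_lit 857188), (nat_lit 1768126), (nat_lit 1271251), (nat_lit 1271251), [(nat_lit 1100000), (nat_lit 1785001), (nat_lit 1271251)], [(nat_lit 18), (nat_lit 59), (nat_lit 483), (nat_lit 250), (nat_lit 12)]⟩,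
 ⟨⟨[(nat_lit 140), (nat_lit 180), (nat_lit 200)], [(nat_lit 0), (nat_lit 0), (nat_lit 2835)], [((nat_lit 0), (nat_lit 0), (nat_lit 0)), ((nat_lit 0), (nat_lit 0), (nat_lit 0)), ((nat_lit 363), (nat_lit 1000), (nat_lit 798))], ((nat_lit 0), (nat_lit 0), (nat_lit 0))⟩, (nat_lit 36868), (nat_lit 300), (nat_lit 808), (nat_lit 10465400), (nat_lit 753590), [(nat_lit 1318828000), (nat_lit 1883772000), (nat_lit 2197600000)], [], [(nat_lit 8535853040), (nat_lit 8098546305), (nat_lit 7490890650), (nat_lit 7035584324), (nat_lit 8978060223), (nat_lit 8498073169), (nat_lit 7801613883), (nat_lit 7328074900)], (nat_lit 780000), (nat_lit 1271251), (nat_lit 111251), (nat_lit 490000), (nat_lit 1271251), (nat_lit 1271251), [(nat_lit 1977501), (nat_lit 1271251), (nat_lit 1271251)], [(nat_lit 32), (nat_lit 67), (nat_lit 401), (nat_lit 175), (nat_lit 9)]⟩⟩))))) (.spl (nat_lit 1) (nat_lit 260) (.leaf ⟨(nat_lit 1000), (nat_lit 0), (nat_lit 0), (nat_lit 0), (nat_lit 1724),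 (nat_lit 4073), (nat_lit 0), (nat_lit 0), (nat_lit 0), (nat_lit 0), (nat_lit 328050), [((nat_lit 380), [((nat_lit 25), (nat_lit 0), (nat_lit 777)), ((nat_lit 41), (nat_lit 2), (nat_lit 223))])], ⟨(nat_lit 6), false, false, false, (nat_lit 208), (nat_lit 2236), (nat_lit 3163), [(nat_lit 1406804), (nat_lit 1416903), (nat_lit 1428895), (nat_lit 1439613), (nat_lit 1605240), (nat_lit 1602541), (nat_lit 1627331), (nat_lit 1625251)]⟩, ⟨(nat_lit 3), false, false, false, (nat_lit 119), (nat_lit 2236), (nat_lit 3163), [(nat_lit 1228462), (nat_lit 1237798), (nat_lit 1294736), (nat_lit 1305930), (nat_lit 1289472), (nat_lit 1294870), (nat_lit 1355794), (nat_lit 1363050)]⟩, (nat_lit 4164082), (nat_lit 47434144), (nat_lit 13815317), (nat_lit 5750539), (nat_lit 0), (nat_lit 0), [], [], [], [],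
 ⟨⟨[(nat_lit 40), (nat_lit 80), (nat_lit 100)], [(nat_lit 0), (nat_lit 1598), (nat_lit 2533)], [((nat_lit 0), (nat_lit 0), (nat_lit 0)), ((nat_lit 1000), (nat_lit 625), (nat_lit 623)), ((nat_lit 1000), (nat_lit 604), (nat_lit 730))], ((nat_lit 60), (nat_lit 100), (nat_lit 78))⟩, (nat_lit 0), (nat_lit 148), (nat_lit 148), (nat_lit 0), (nat_lit 139829), [(nat_lit 1532702933), (nat_lit 1718907766), (nat_lit 1486374800)], [(nat_lit 0), (nat_lit 0), (nat_lit 0)], [(nat_lit 19971307092), (nat_lit 21712145894), (nat_lit 22618388622), (nat_lit 24026368531), (nat_lit 20256539861), (nat_lit 21909100454), (nat_lit 22780910388), (nat_lit 24120290490)], (nat_lit 1271251), (nat_lit 1271251), (nat_lit 704688), (nat_lit 1756876), (nat_lit 490000), (nat_lit 780000), [(nat_lit 490000), (nat_lit 1100000), (nat_lit 1442501)], [(nat_lit 3), (nat_lit 50), (nat_lit 317), (nat_lit 100), (nat_lit 11)]⟩,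
 Rw.none,
 Rw.none⟩) (.trZ (nat_lit 0) (nat_lit 1) (nat_lit 3) (nat_lit 100) (nat_lit 63) (nat_lit 99) (nat_lit 130) (.trX (nat_lit 5) (nat_lit 1) (nat_lit 2) (nat_lit 96) (nat_lit 40) (nat_lit 100) (nat_lit 390) (.spl (nat_lit 0) (nat_lit 370) (.leaf ⟨(nat_lit 925), (nat_lit 52), (nat_lit 0), (nat_lit 23), (nat_lit 3701), (nat_lit 3730), (nat_lit 679), (nat_lit 209), (nat_lit 0), (nat_lit 0), (nat_lit 425500), [((nat_lit 370), [((nat_lit 25), (nat_lit 0), (nat_lit 370)), ((nat_lit 41), (nat_lit 2), (nat_lit 555))])], ⟨(nat_lit 6), false, false, false, (nat_lit 222), (nat_lit 2738), (nat_lit 3163), [(nat_lit 1459728), (nat_lit 1463826), (nat_lit 1481870), (nat_lit 1486231), (nat_lit 1627400), (nat_lit 1626295), (nat_lit 1649542), (nat_lit 1648700)]⟩, ⟨(nat_lit 3), false, false, false, (nat_lit 118), (nat_lit 2738), (nat_lit 3163), [(nat_lit 1228513), (nat_lit 1233139), (nat_lit 1294942), (nat_lit 1300356), (nat_lit 1289472), (nat_lit 1292206), (nat_lit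 1355914), (nat_lit 1359435)]⟩, (nat_lit 4271273), (nat_lit 46156515), (nat_lit 15219498), (nat_lit 5623987), (nat_lit 3), (nat_lit 0), [], [], [], [],
 ⟨⟨[(nat_lit 40), (nat_lit 80), (nat_lit 100)], [(nat_lit 0), (nat_lit 1598), (nat_lit 2533)], [((nat_lit 0), (nat_lit 0), (nat_lit 0)), ((nat_lit 1000), (nat_lit 625), (nat_lit 623)), ((nat_lit 1000), (nat_lit 604), (nat_lit 730))], ((nat_lit 60), (nat_lit 100), (nat_lit 78))⟩, (nat_lit 0), (nat_lit 133), (nat_lit 133), (nat_lit 0), (nat_lit 135531), [(nat_lit 1451589779), (nat_lit 1142971558), (nat_lit 855918000)], [(nat_lit 0), (nat_lit 0), (nat_lit 0)], [(nat_lit 19565614248), (nat_lit 20373360536), (nat_lit 22087534220), (nat_lit 22771569065), (nat_lit 19895608755), (nat_lit 20663169246), (nat_lit 22305984880), (nat_lit 22947124640)], (nat_lit 1271251), (nat_lit 1271251), (nat_lit 857188), (nat_lit 1768126), (nat_lit 490000), (nat_lit 780000), [(nat_lit 490000), (nat_lit 1100000), (nat_lit 1442501)],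 [(nat_lit 3), (nat_lit 50), (nat_lit 317), (nat_lit 100), (nat_lit 11)]⟩,
 ⟨⟨[(nat_lit 80), (nat_lit 120), (nat_lit 160)], [(nat_lit 0), (nat_lit 528), (nat_lit 2577)], [((nat_lit 0), (nat_lit 0), (nat_lit 0)), ((nat_lit 1000), (nat_lit 959), (nat_lit 206)), ((nat_lit 929), (nat_lit 1000), (nat_lit 742))], ((nat_lit 100), (nat_lit 87), (nat_lit 82))⟩, (nat_lit 0), (nat_lit 543), (nat_lit 543), (nat_lit 0), (nat_lit 557133), [(nat_lit 351600000), (nat_lit 597600000), (nat_lit 890400000)], [], [(nat_lit 3428616623), (nat_lit 3068128308), (nat_lit 3023239837), (nat_lit 3069665206), (nat_lit 2931729355), (nat_lit 2980194188), (nat_lit 3997028747), (nat_lit 3709128334)], (nat_lit 1271251), (nat_lit 1271251), (nat_lit 857188), (nat_lit 1768126), (nat_lit 0), (nat_lit 2754376), [(nat_lit 1100000), (nat_lit 1785001), (nat_lit 1271251)], [(nat_lit 18), (nat_lit 59), (nat_lit 483), (nat_lit 250), (nat_lit 12)]⟩,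
 ⟨⟨[(nat_lit 140), (nat_lit 180), (nat_lit 200)], [(nat_lit 0), (nat_lit 0), (nat_lit 2835)], [((nat_lit 0), (nat_lit 0), (nat_lit 0)), ((nat_lit 0), (nat_lit 0), (nat_lit 0)), ((nat_lit 363), (nat_lit 1000), (nat_lit 798))], ((nat_lit 0), (nat_lit 0), (nat_lit 0))⟩, (nat_lit 6328), (nat_lit 300), (nat_lit 832), (nat_lit 1796301), (nat_lit 611167), [(nat_lit 226366000), (nat_lit 323334000), (nat_lit 377200000)], [], [(nat_lit 1930860930), (nat_lit 1886693144), (nat_lit 1893722546), (nat_lit 1849836900), (nat_lit 1672862202), (nat_lit 1627186982), (nat_lit 1636377568), (nat_lit 1592467998)], (nat_lit 780000), (nat_lit 1271251), (nat_lit 490000), (nat_lit 780000), (nat_lit 0), (nat_lit 2754376), [(nat_lit 1977501), (nat_lit 1271251), (nat_lit 1271251)], [(nat_lit 32), (nat_lit 67), (nat_lit 401), (nat_lit 175), (nat_lit 9)]⟩⟩) (.trZ (nat_lit 0) (nat_lit 1) (nat_lit 3) (nat_lit 98) (nat_lit 54) (nat_lit 100) (nat_lit 150) (.leaf ⟨(nat_lit 902), (nat_lit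 63), (nat_lit 0), (nat_lit 35), (nat_lit 1208), (nat_lit 3680), (nat_lit 1019), (nat_lit 389), (nat_lit 0), (nat_lit 0), (nat_lit 225500), [((nat_lit 380), [((nat_lit 25), (nat_lit 0), (nat_lit 902))])], ⟨(nat_lit 6), false, false, false, (nat_lit 229), (nat_lit 2236), (nat_lit 2739), [(nat_lit 1493321), (nat_lit 1496948), (nat_lit 1515717), (nat_lit 1519702), (nat_lit 1626287), (nat_lit 1625312), (nat_lit 1648684), (nat_lit 1648065)]⟩, ⟨(nat_lit 3), false, false, false, (nat_lit 119), (nat_lit 2236), (nat_lit 2739), [(nat_lit 1233122), (nat_lit 1237832), (nat_lit 1300314), (nat_lit 1306094), (nat_lit 1292206), (nat_lit 1294870), (nat_lit 1359410), (nat_lit 1363145)]⟩, (nat_lit 4338329), (nat_lit 45463701), (nat_lit 15831469), (nat_lit 5704830), (nat_lit 3), (nat_lit 0), [], [], [], [],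
 ⟨⟨[(nat_lit 40), (nat_lit 80), (nat_lit 100)], [(nat_lit 0), (nat_lit 2008), (nat_lit 2969)], [((nat_lit 0), (nat_lit 0), (nat_lit 0)), ((nat_lit 1000), (nat_lit 540), (nat_lit 733)), ((nat_lit 1000), (nat_lit 536), (nat_lit 751))], ((nat_lit 53), (nat_lit 100), (nat_lit 79))⟩, (nat_lit 532992), (nat_lit 143), (nat_lit 143), (nat_lit 0), (nat_lit 161523), [(nat_lit 1560094992), (nat_lit 2326377903), (nat_lit 2522936000)], [(nat_lit 0), (nat_lit 0), (nat_lit 0)], [(nat_lit 20618443290), (nat_lit 21398989257), (nat_lit 22855427552), (nat_lit 23554474960), (nat_lit 20919895461), (nat_lit 21653061625), (nat_lit 23050199742), (nat_lit 23687177652)], (nat_lit 1271251), (nat_lit 1271251), (nat_lit 1017188), (nat_lit 1779376), (nat_lit 490000), (nat_lit 780000), [(nat_lit 490000), (nat_lit 1100000), (nat_lit 1442501)], [(nat_lit 3), (nat_lit 50), (nat_lit 317), (nat_lit 100), (nat_lit 11)]⟩,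
 ⟨⟨[(nat_lit 80), (nat_lit 120), (nat_lit 160)], [(nat_lit 0), (nat_lit 528), (nat_lit 2577)], [((nat_lit 0), (nat_lit 0), (nat_lit 0)), ((nat_lit 1000), (nat_lit 959), (nat_lit 206)), ((nat_lit 929), (nat_lit 1000), (nat_lit 742))], ((nat_lit 100), (nat_lit 87), (nat_lit 82))⟩, (nat_lit 0), (nat_lit 587), (nat_lit 587), (nat_lit 0), (nat_lit 697628), [(nat_lit 459424000), (nat_lit 780864000), (nat_lit 1163456000)], [], [(nat_lit 4170607268), (nat_lit 3785650447), (nat_lit 3702351697), (nat_lit 3753191418), (nat_lit 3749110701), (nat_lit 3812411139), (nat_lit 5110784443), (nat_lit 4667992513)], (nat_lit 1271251), (nat_lit 1271251), (nat_lit 1017188), (nat_lit 1779376), (nat_lit 0), (nat_lit 2754376), [(nat_lit 1100000), (nat_lit 1785001), (nat_lit 1271251)], [(nat_lit 18), (nat_lit 59), (nat_lit 483), (nat_lit 250), (nat_lit 12)]⟩,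
 ⟨⟨[(nat_lit 140), (nat_lit 180), (nat_lit 200)], [(nat_lit 0), (nat_lit 0), (nat_lit 2835)], [((nat_lit 0), (nat_lit 0), (nat_lit 0)), ((nat_lit 0), (nat_lit 0), (nat_lit 0)), ((nat_lit 363), (nat_lit 1000), (nat_lit 798))], ((nat_lit 0), (nat_lit 0), (nat_lit 0))⟩, (nat_lit 9630), (nat_lit 300), (nat_lit 890), (nat_lit 2733500), (nat_lit 753590), [(nat_lit 344470000), (nat_lit 492030000), (nat_lit 574000000)], [], [(nat_lit 2768655128), (nat_lit 2680322020), (nat_lit 2695175852), (nat_lit 2607450493), (nat_lit 2251365815), (nat_lit 2404325070), (nat_lit 2238626517), (nat_lit 2551625606)], (nat_lit 780000), (nat_lit 1271251), (nat_lit 490000), (nat_lit 780000), (nat_lit 0), (nat_lit 2754376), [(nat_lit 1977501), (nat_lit 1271251), (nat_lit 1271251)], [(nat_lit 32), (nat_lit 67), (nat_lit 401), (nat_lit 175), (nat_lit 9)]⟩⟩)))))))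
noncomputable def c17_60 : Tr Lf :=
 (.trZ (nat_lit 0) (nat_lit 2) (nat_lit 4) (nat_lit 100) (nat_lit 60) (nat_lit 74) (nat_lit 60) (.spl (nat_lit 5) (nat_lit 120) (.spl (nat_lit 3) (nat_lit 160) (.leaf ⟨(nat_lit 912), (nat_lit 88), (nat_lit 0), (nat_lit 0), (nat_lit 6082), (nat_lit 3529), (nat_lit 1129), (nat_lit 0), (nat_lit 0), (nat_lit 0), (nat_lit 483850), [((nat_lit 380), [((nat_lit 25), (nat_lit 0), (nat_lit 181)), ((nat_lit 41), (nat_lit 2), (nat_lit 731))])], ⟨(nat_lit 6), false, false, false, (nat_lit 188), (nat_lit 2236), (nat_lit 3163), [(nat_lit 1406804), (nat_lit 1416903), (nat_lit 1450987), (nat_lit 1462324), (nat_lit 1483125), (nat_lit 1488302), (nat_lit 1527308), (nat_lit 1533723)]⟩, ⟨(nat_lit 4), false, false, false, (nat_lit 135), (nat_lit 2236), (nat_lit 3163), [(nat_lit 1264208), (nat_lit 1277371), (nat_lit 1308390), (nat_lit 1322792), (nat_lit 1355794), (nat_lit 1363050), (nat_lit 1399976), (nat_lit 1408471)]⟩, (nat_lit 4188404),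 (nat_lit 48035978), (nat_lit 11900025), (nat_lit 7063997), (nat_lit 4), (nat_lit 0), [⟨(nat_lit 0), (nat_lit 98), (nat_lit 54), (nat_lit 100), (nat_lit 180816048)⟩], [⟨(nat_lit 0), (nat_lit 100), (nat_lit 53), (nat_lit 85), (nat_lit 110772508)⟩], [⟨(nat_lit 0), (nat_lit 100), (nat_lit 92), (nat_lit 49), (nat_lit 7591737)⟩], [],
 ⟨⟨[(nat_lit 40), (nat_lit 80), (nat_lit 100)], [(nat_lit 0), (nat_lit 1598), (nat_lit 2533)], [((nat_lit 0), (nat_lit 0), (nat_lit 0)), ((nat_lit 1000), (nat_lit 625), (nat_lit 623)), ((nat_lit 1000), (nat_lit 604), (nat_lit 730))], ((nat_lit 60), (nat_lit 100), (nat_lit 78))⟩, (nat_lit 0), (nat_lit 152), (nat_lit 152), (nat_lit 0), (nat_lit 104938), [(nat_lit 1381635632), (nat_lit 817313435), (nat_lit 411131600)], [(nat_lit 0), (nat_lit 0), (nat_lit 0)], [(nat_lit 19445230698), (nat_lit 21439204171), (nat_lit 19890863596), (nat_lit 21643830117), (nat_lit 19344642453), (nat_lit 20952216787), (nat_lit 19798225193), (nat_lit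 21231415073)], (nat_lit 1271251), (nat_lit 1271251), (nat_lit 704688), (nat_lit 1100000), (nat_lit 356250), (nat_lit 780000), [(nat_lit 490000), (nat_lit 1100000), (nat_lit 1442501)], [(nat_lit 3), (nat_lit 50), (nat_lit 289), (nat_lit 75), (nat_lit 10)]⟩,
 ⟨⟨[(nat_lit 80), (nat_lit 140), (nat_lit 180)], [(nat_lit 0), (nat_lit 0), (nat_lit 3656)], [((nat_lit 0), (nat_lit 0), (nat_lit 0)), ((nat_lit 0), (nat_lit 0), (nat_lit 0)), ((nat_lit 637), (nat_lit 1000), (nat_lit 908))], ((nat_lit 100), (nat_lit 78), (nat_lit 80))⟩, (nat_lit 226791), (nat_lit 564), (nat_lit 564), (nat_lit 0), (nat_lit 383548), [(nat_lit 412544000), (nat_lit 866096000), (nat_lit 1237104000)], [], [(nat_lit 3141512899), (nat_lit 3318979873), (nat_lit 3106705808), (nat_lit 3131073194), (nat_lit 3115267189), (nat_lit 2514368233), (nat_lit 3718315210), (nat_lit 2688959621)], (nat_lit 1271251), (nat_lit 1271251), (nat_lit 704688), (nat_lit 1100000), (nat_lit 0), (nat_lit 780000),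 [(nat_lit 1100000), (nat_lit 2127501), (nat_lit 1271251)], [(nat_lit 19), (nat_lit 63), (nat_lit 373), (nat_lit 150), (nat_lit 9)]⟩,
 Rw.none⟩) (.leaf ⟨(nat_lit 629), (nat_lit 371), (nat_lit 0), (nat_lit 0), (nat_lit 425), (nat_lit 5356), (nat_lit 2520), (nat_lit 0), (nat_lit 0), (nat_lit 0), (nat_lit 275200), [((nat_lit 380), [((nat_lit 25), (nat_lit 0), (nat_lit 292)), ((nat_lit 41), (nat_lit 2), (nat_lit 337))])], ⟨(nat_lit 6), false, false, false, (nat_lit 227), (nat_lit 2236), (nat_lit 3163), [(nat_lit 1483125), (nat_lit 1488302), (nat_lit 1527308), (nat_lit 1533723), (nat_lit 1605240), (nat_lit 1602541), (nat_lit 1649422), (nat_lit 1647962)]⟩, ⟨(nat_lit 4), false, false, false, (nat_lit 135), (nat_lit 2236), (nat_lit 3163), [(nat_lit 1264208), (nat_lit 1277371), (nat_lit 1308390), (nat_lit 1322792), (nat_lit 1355794), (nat_lit 1363050), (nat_lit 1399976), (nat_lit 1408471)]⟩, (nat_lit 4502847), (nat_lit 44678276), (nat_lit 15484666), (nat_lit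 6837058), (nat_lit 4), (nat_lit 0), [], [⟨(nat_lit 0), (nat_lit 100), (nat_lit 53), (nat_lit 85), (nat_lit 140870715)⟩], [⟨(nat_lit 0), (nat_lit 100), (nat_lit 95), (nat_lit 30), (nat_lit 7469702)⟩], [],
 ⟨⟨[(nat_lit 40), (nat_lit 80), (nat_lit 100)], [(nat_lit 0), (nat_lit 1598), (nat_lit 2533)], [((nat_lit 0), (nat_lit 0), (nat_lit 0)), ((nat_lit 1000), (nat_lit 625), (nat_lit 623)), ((nat_lit 1000), (nat_lit 604), (nat_lit 730))], ((nat_lit 60), (nat_lit 100), (nat_lit 78))⟩, (nat_lit 0), (nat_lit 138), (nat_lit 138), (nat_lit 0), (nat_lit 104938), [(nat_lit 1879183760), (nat_lit 2663577022), (nat_lit 2696453200)], [(nat_lit 0), (nat_lit 0), (nat_lit 0)], [(nat_lit 21949132944), (nat_lit 24247438488), (nat_lit 24576514302), (nat_lit 26683811965), (nat_lit 21196386652), (nat_lit 23001863290), (nat_lit 23409220136), (nat_lit 25364312014)], (nat_lit 1271251), (nat_lit 1271251), (nat_lit 1100000), (nat_lit 1785001), (nat_lit 356250), (nat_lit 780000),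 [(nat_lit 490000), (nat_lit 1100000), (nat_lit 1442501)], [(nat_lit 3), (nat_lit 50), (nat_lit 317), (nat_lit 100), (nat_lit 11)]⟩,
 ⟨⟨[(nat_lit 80), (nat_lit 140), (nat_lit 180)], [(nat_lit 0), (nat_lit 0), (nat_lit 3656)], [((nat_lit 0), (nat_lit 0), (nat_lit 0)), ((nat_lit 0), (nat_lit 0), (nat_lit 0)), ((nat_lit 637), (nat_lit 1000), (nat_lit 908))], ((nat_lit 100), (nat_lit 78), (nat_lit 80))⟩, (nat_lit 721109), (nat_lit 493), (nat_lit 493), (nat_lit 0), (nat_lit 383548), [(nat_lit 1739248000), (nat_lit 3651382000), (nat_lit 5215518000)], [], [(nat_lit 14738728760), (nat_lit 15086708426), (nat_lit 14943501824), (nat_lit 15401348976), (nat_lit 13409614882), (nat_lit 13758461304), (nat_lit 14722469412), (nat_lit 14060324887)], (nat_lit 1271251), (nat_lit 1271251), (nat_lit 1100000), (nat_lit 1785001), (nat_lit 0), (nat_lit 780000), [(nat_lit 1100000), (nat_lit 2127501), (nat_lit 1271251)], [(nat_lit 19), (nat_lit 63), (nat_lit 401), (nat_lit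 175), (nat_lit 9)]⟩,
 Rw.none⟩)) (.spl (nat_lit 0) (nat_lit 370) (.spl (nat_lit 6) (nat_lit 68) (.leaf ⟨(nat_lit 873), (nat_lit 0), (nat_lit 0), (nat_lit 127), (nat_lit 5430), (nat_lit 3286), (nat_lit 947), (nat_lit 1165), (nat_lit 0), (nat_lit 0), (nat_lit 520300), [((nat_lit 370), [((nat_lit 25), (nat_lit 0), (nat_lit 10)), ((nat_lit 41), (nat_lit 2), (nat_lit 863))])], ⟨(nat_lit 6), false, false, false, (nat_lit 212), (nat_lit 2738), (nat_lit 3163), [(nat_lit 1407099), (nat_lit 1411881), (nat_lit 1451384), (nat_lit 1456691), (nat_lit 1605257), (nat_lit 1603890), (nat_lit 1649542), (nat_lit 1648700)]⟩, ⟨(nat_lit 4), false, false, false, (nat_lit 134), (nat_lit 2738), (nat_lit 3163), [(nat_lit 1264456), (nat_lit 1270816), (nat_lit 1308742), (nat_lit 1315626), (nat_lit 1355914), (nat_lit 1359435), (nat_lit 1400199), (nat_lit 1404246)]⟩, (nat_lit 4379346), (nat_lit 46072412), (nat_lit 14068639), (nat_lit 6858949), (nat_lit 0), (nat_lit 0), [⟨(nat_lit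 0), (nat_lit 100), (nat_lit 59), (nat_lit 100), (nat_lit 63660467)⟩], [⟨(nat_lit 0), (nat_lit 100), (nat_lit 57), (nat_lit 83), (nat_lit 7667203)⟩, ⟨(nat_lit 0), (nat_lit 100), (nat_lit 60), (nat_lit 74), (nat_lit 131296244)⟩], [], [],
 ⟨⟨[(nat_lit 40), (nat_lit 80), (nat_lit 100)], [(nat_lit 0), (nat_lit 1598), (nat_lit 2533)], [((nat_lit 0), (nat_lit 0), (nat_lit 0)), ((nat_lit 1000), (nat_lit 625), (nat_lit 623)), ((nat_lit 1000), (nat_lit 604), (nat_lit 730))], ((nat_lit 60), (nat_lit 100), (nat_lit 75))⟩, (nat_lit 893), (nat_lit 137), (nat_lit 137), (nat_lit 0), (nat_lit 78131), [(nat_lit 1378491266), (nat_lit 785555179), (nat_lit 198402800)], [(nat_lit 0), (nat_lit 0), (nat_lit 0)], [(nat_lit 19213461881), (nat_lit 20037119194), (nat_lit 22058194737), (nat_lit 22857526733), (nat_lit 19333033711), (nat_lit 20027619421), (nat_lit 21967718967), (nat_lit 22538011984)], (nat_lit 1271251), (nat_lit 1271251), (nat_lit 704688), (nat_lit 1756876),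 (nat_lit 356250), (nat_lit 780000), [(nat_lit 490000), (nat_lit 1100000), (nat_lit 1442501)], [(nat_lit 3), (nat_lit 50), (nat_lit 317), (nat_lit 100), (nat_lit 12)]⟩,
 ⟨⟨[(nat_lit 80), (nat_lit 140), (nat_lit 180)], [(nat_lit 0), (nat_lit 0), (nat_lit 3656)], [((nat_lit 0), (nat_lit 0), (nat_lit 0)), ((nat_lit 0), (nat_lit 0), (nat_lit 0)), ((nat_lit 637), (nat_lit 1000), (nat_lit 908))], ((nat_lit 100), (nat_lit 81), (nat_lit 77))⟩, (nat_lit 298249), (nat_lit 411), (nat_lit 411), (nat_lit 0), (nat_lit 356269), [(nat_lit 595376000), (nat_lit 1249934000), (nat_lit 1785366000)], [], [(nat_lit 4495244793), (nat_lit 4385044341), (nat_lit 4904264286), (nat_lit 4463269555), (nat_lit 6945519128), (nat_lit 6101433880), (nat_lit 8739176984), (nat_lit 7928806356)], (nat_lit 1271251), (nat_lit 1271251), (nat_lit 704688), (nat_lit 1756876), (nat_lit 780000), (nat_lit 3072501), [(nat_lit 1100000), (nat_lit 2127501), (nat_lit 1271251)], [(nat_lit 19), (nat_lit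 63), (nat_lit 483), (nat_lit 250), (nat_lit 11)]⟩,
 ⟨⟨[(nat_lit 120), (nat_lit 160), (nat_lit 200)], [(nat_lit 0), (nat_lit 533), (nat_lit 3597)], [((nat_lit 0), (nat_lit 0), (nat_lit 0)), ((nat_lit 960), (nat_lit 1000), (nat_lit 200)), ((nat_lit 612), (nat_lit 1000), (nat_lit 732))], ((nat_lit 0), (nat_lit 0), (nat_lit 0))⟩, (nat_lit 67600), (nat_lit 300), (nat_lit 477), (nat_lit 9198214), (nat_lit 204496), [(nat_lit 1011936000), (nat_lit 1507744000), (nat_lit 2082800000)], [], [(nat_lit 7470153131), (nat_lit 7431581775), (nat_lit 7108611054), (nat_lit 7068428162), (nat_lit 8291418262), (nat_lit 7456712708), (nat_lit 8884423445), (nat_lit 7835966550)], (nat_lit 1271251), (nat_lit 1271251), (nat_lit 356250), (nat_lit 780000), (nat_lit 780000), (nat_lit 3072501), [(nat_lit 1695001), (nat_lit 1271251), (nat_lit 1271251)], [(nat_lit 29), (nat_lit 66), (nat_lit 428), (nat_lit 200), (nat_lit 9)]⟩⟩) (.dle (nat_lit 0))) (.trZ (nat_lit 0) (nat_lit 1) (nat_lit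 3) (nat_lit 100) (nat_lit 54) (nat_lit 96) (nat_lit 130) (.trZ (nat_lit 0) (nat_lit 2) (nat_lit 4) (nat_lit 100) (nat_lit 53) (nat_lit 80) (nat_lit 70) (.leaf ⟨(nat_lit 838), (nat_lit 0), (nat_lit 0), (nat_lit 162), (nat_lit 3206), (nat_lit 3559), (nat_lit 1137), (nat_lit 1504), (nat_lit 0), (nat_lit 0), (nat_lit 209500), [((nat_lit 380), [((nat_lit 25), (nat_lit 0), (nat_lit 838))])], ⟨(nat_lit 6), false, false, false, (nat_lit 218), (nat_lit 2236), (nat_lit 2739), [(nat_lit 1441375), (nat_lit 1445669), (nat_lit 1486169), (nat_lit 1491177), (nat_lit 1603890), (nat_lit 1602558), (nat_lit 1648684), (nat_lit 1648065)]⟩, ⟨(nat_lit 4), false, false, false, (nat_lit 139), (nat_lit 2236), (nat_lit 2739), [(nat_lit 1285540), (nat_lit 1291832), (nat_lit 1330334), (nat_lit 1337340), (nat_lit 1359410), (nat_lit 1363145), (nat_lit 1404204), (nat_lit 1408652)]⟩, (nat_lit 4486073), (nat_lit 45165396), (nat_lit 14641034), (nat_lit 7193570), (nat_lit 0), (nat_lit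 0), [⟨(nat_lit 0), (nat_lit 97), (nat_lit 49), (nat_lit 100), (nat_lit 86669722)⟩], [⟨(nat_lit 0), (nat_lit 100), (nat_lit 53), (nat_lit 80), (nat_lit 117197635)⟩], [], [],
 ⟨⟨[(nat_lit 40), (nat_lit 80), (nat_lit 100)], [(nat_lit 0), (nat_lit 2008), (nat_lit 2969)], [((nat_lit 0), (nat_lit 0), (nat_lit 0)), ((nat_lit 1000), (nat_lit 540), (nat_lit 733)), ((nat_lit 1000), (nat_lit 536), (nat_lit 751))], ((nat_lit 53), (nat_lit 100), (nat_lit 79))⟩, (nat_lit 741330), (nat_lit 139), (nat_lit 139), (nat_lit 0), (nat_lit 103900), [(nat_lit 1571740040), (nat_lit 2333875166), (nat_lit 2787384000)], [(nat_lit 0), (nat_lit 0), (nat_lit 0)], [(nat_lit 20360524943), (nat_lit 21222013842), (nat_lit 22905063356), (nat_lit 23732625089), (nat_lit 20529336031), (nat_lit 21233653851), (nat_lit 22814227583), (nat_lit 23562897684)], (nat_lit 1271251), (nat_lit 1271251), (nat_lit 857188), (nat_lit 1768126), (nat_lit 422188), (nat_lit 780000), [(nat_lit 490000), (nat_lit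 1100000), (nat_lit 1442501)], [(nat_lit 3), (nat_lit 50), (nat_lit 317), (nat_lit 100), (nat_lit 11)]⟩,
 ⟨⟨[(nat_lit 80), (nat_lit 140), (nat_lit 180)], [(nat_lit 0), (nat_lit 0), (nat_lit 3656)], [((nat_lit 0), (nat_lit 0), (nat_lit 0)), ((nat_lit 0), (nat_lit 0), (nat_lit 0)), ((nat_lit 637), (nat_lit 1000), (nat_lit 908))], ((nat_lit 100), (nat_lit 78), (nat_lit 80))⟩, (nat_lit 349917), (nat_lit 459), (nat_lit 459), (nat_lit 0), (nat_lit 490949), [(nat_lit 759456000), (nat_lit 1594404000), (nat_lit 2277396000)], [], [(nat_lit 5550952038), (nat_lit 5745855918), (nat_lit 6334624746), (nat_lit 5885584860), (nat_lit 9055046820), (nat_lit 8048039462), (nat_lit 11026243884), (nat_lit 10053285696)], (nat_lit 1271251), (nat_lit 1271251), (nat_lit 857188), (nat_lit 1768126), (nat_lit 780000), (nat_lit 3072501), [(nat_lit 1100000), (nat_lit 2127501), (nat_lit 1271251)], [(nat_lit 19), (nat_lit 63), (nat_lit 483), (nat_lit 250), (nat_lit 11)]⟩,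
 ⟨⟨[(nat_lit 120), (nat_lit 160), (nat_lit 200)], [(nat_lit 0), (nat_lit 533), (nat_lit 3597)], [((nat_lit 0), (nat_lit 0), (nat_lit 0)), ((nat_lit 960), (nat_lit 1000), (nat_lit 200)), ((nat_lit 612), (nat_lit 1000), (nat_lit 732))], ((nat_lit 0), (nat_lit 0), (nat_lit 0))⟩, (nat_lit 86230), (nat_lit 300), (nat_lit 502), (nat_lit 11733154), (nat_lit 283488), [(nat_lit 1290816000), (nat_lit 1923264000), (nat_lit 2656800000)], [], [(nat_lit 9484484120), (nat_lit 9425803099), (nat_lit 9142297212), (nat_lit 9080874022), (nat_lit 10703171968), (nat_lit 9381035596), (nat_lit 11375679824), (nat_lit 10022135472)], (nat_lit 1271251), (nat_lit 1271251), (nat_lit 422188), (nat_lit 780000), (nat_lit 780000), (nat_lit 3072501), [(nat_lit 1695001), (nat_lit 1271251), (nat_lit 1271251)], [(nat_lit 29), (nat_lit 66), (nat_lit 428), (nat_lit 200), (nat_lit 9)]⟩⟩))))))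
noncomputable def c17_61 : Tr Lf :=
 (.trZ (nat_lit 0) (nat_lit 1) (nat_lit 3) (nat_lit 94) (nat_lit 62) (nat_lit 100) (nat_lit 150) (.spl (nat_lit 5) (nat_lit 200) (.spl (nat_lit 2) (nat_lit 180) (.leaf ⟨(nat_lit 770), (nat_lit 230), (nat_lit 0), (nat_lit 0), (nat_lit 0), (nat_lit 3329), (nat_lit 2245), (nat_lit 0), (nat_lit 0), (nat_lit 0), (nat_lit 405000), [((nat_lit 380), [((nat_lit 25), (nat_lit 1), (nat_lit 285)), ((nat_lit 41), (nat_lit 2), (nat_lit 485))])], ⟨(nat_lit 7), false, false, false, (nat_lit 242), (nat_lit 2236), (nat_lit 3163), [(nat_lit 1512044), (nat_lit 1519444), (nat_lit 1556227), (nat_lit 1564865), (nat_lit 1649422), (nat_lit 1647962), (nat_lit 1693606), (nat_lit 1693384)]⟩, ⟨(nat_lit 3), false, false, false, (nat_lit 101), (nat_lit 2236), (nat_lit 3163), [(nat_lit 1136876), (nat_lit 1152119), (nat_lit 1203150), (nat_lit 1220251), (nat_lit 1289472), (nat_lit 1294870), (nat_lit 1355794), (nat_lit 1363050)]⟩, (nat_lit 4203405),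 (nat_lit 45292921), (nat_lit 17311716), (nat_lit 4395363), (nat_lit 3), (nat_lit 0), [⟨(nat_lit 0), (nat_lit 82), (nat_lit 44), (nat_lit 100), (nat_lit 121967399)⟩], [⟨(nat_lit 0), (nat_lit 100), (nat_lit 54), (nat_lit 71), (nat_lit 39122699)⟩], [], [],
 ⟨⟨[(nat_lit 40), (nat_lit 80), (nat_lit 100)], [(nat_lit 0), (nat_lit 1598), (nat_lit 2533)], [((nat_lit 0), (nat_lit 0), (nat_lit 0)), ((nat_lit 1000), (nat_lit 625), (nat_lit 623)), ((nat_lit 1000), (nat_lit 604), (nat_lit 730))], ((nat_lit 60), (nat_lit 100), (nat_lit 78))⟩, (nat_lit 310396), (nat_lit 220), (nat_lit 220), (nat_lit 0), (nat_lit 221369), [(nat_lit 1435356057), (nat_lit 1324408363), (nat_lit 1352265637)], [(nat_lit 0), (nat_lit 0), (nat_lit 0)], [(nat_lit 21145327982), (nat_lit 22526426130), (nat_lit 23243175995), (nat_lit 24893186873), (nat_lit 20799713598), (nat_lit 21928168830), (nat_lit 22732889568), (nat_lit 23810334762)], (nat_lit 1271251), (nat_lit 1271251), (nat_lit 1017188),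 (nat_lit 1779376), (nat_lit 111251), (nat_lit 780000), [(nat_lit 490000), (nat_lit 1100000), (nat_lit 1442501)], [(nat_lit 3), (nat_lit 50), (nat_lit 317), (nat_lit 100), (nat_lit 12)]⟩,
 ⟨⟨[(nat_lit 60), (nat_lit 120), (nat_lit 160)], [(nat_lit 0), (nat_lit 0), (nat_lit 3243)], [((nat_lit 0), (nat_lit 0), (nat_lit 0)), ((nat_lit 0), (nat_lit 0), (nat_lit 0)), ((nat_lit 878), (nat_lit 1000), (nat_lit 945))], ((nat_lit 100), (nat_lit 96), (nat_lit 86))⟩, (nat_lit 370787), (nat_lit 645), (nat_lit 645), (nat_lit 0), (nat_lit 766272), [(nat_lit 754860000), (nat_lit 1832640000), (nat_lit 2730560000)], [], [(nat_lit 8108715554), (nat_lit 8343096619), (nat_lit 8030733389), (nat_lit 8206943899), (nat_lit 6519621914), (nat_lit 6676387568), (nat_lit 7870786785), (nat_lit 6556024080)], (nat_lit 1271251), (nat_lit 1271251), (nat_lit 1017188), (nat_lit 1779376), (nat_lit 0), (nat_lit 1412501), [(nat_lit 780000), (nat_lit 1762501), (nat_lit 1271251)], [(nat_lit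 12), (nat_lit 59), (nat_lit 428), (nat_lit 200), (nat_lit 11)]⟩,
 Rw.none⟩) (.trZ (nat_lit 0) (nat_lit 2) (nat_lit 4) (nat_lit 100) (nat_lit 60) (nat_lit 74) (nat_lit 60) (.leaf ⟨(nat_lit 62), (nat_lit 877), (nat_lit 0), (nat_lit 61), (nat_lit 0), (nat_lit 4023), (nat_lit 6022), (nat_lit 1197), (nat_lit 0), (nat_lit 0), (nat_lit 215000), [((nat_lit 380), [((nat_lit 25), (nat_lit 2), (nat_lit 11)), ((nat_lit 41), (nat_lit 5), (nat_lit 51))])], ⟨(nat_lit 7), false, false, false, (nat_lit 242), (nat_lit 2236), (nat_lit 3163), [(nat_lit 1512044), (nat_lit 1519444), (nat_lit 1556227), (nat_lit 1564865), (nat_lit 1649422), (nat_lit 1647962), (nat_lit 1693606), (nat_lit 1693384)]⟩, ⟨(nat_lit 4), false, false, false, (nat_lit 135), (nat_lit 2236), (nat_lit 3163), [(nat_lit 1264208), (nat_lit 1277371), (nat_lit 1308390), (nat_lit 1322792), (nat_lit 1355794), (nat_lit 1363050), (nat_lit 1399976), (nat_lit 1408471)]⟩, (nat_lit 4598159), (nat_lit 43372937),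 (nat_lit 16897794), (nat_lit 6729269), (nat_lit 4), (nat_lit 0), [⟨(nat_lit 0), (nat_lit 87), (nat_lit 53), (nat_lit 100), (nat_lit 587019957)⟩], [⟨(nat_lit 0), (nat_lit 100), (nat_lit 44), (nat_lit 94), (nat_lit 335942765)⟩], [], [],
 ⟨⟨[(nat_lit 40), (nat_lit 80), (nat_lit 100)], [(nat_lit 0), (nat_lit 1598), (nat_lit 2533)], [((nat_lit 0), (nat_lit 0), (nat_lit 0)), ((nat_lit 1000), (nat_lit 625), (nat_lit 623)), ((nat_lit 1000), (nat_lit 604), (nat_lit 730))], ((nat_lit 60), (nat_lit 100), (nat_lit 78))⟩, (nat_lit 1193755), (nat_lit 156), (nat_lit 156), (nat_lit 0), (nat_lit 155517), [(nat_lit 1859304047), (nat_lit 3659276172), (nat_lit 4403343200)], [(nat_lit 0), (nat_lit 0), (nat_lit 0)], [(nat_lit 20727902692), (nat_lit 22390307859), (nat_lit 23081612195), (nat_lit 24734571064), (nat_lit 20548678268), (nat_lit 22009578886), (nat_lit 22745743367), (nat_lit 24028037500)], (nat_lit 1271251), (nat_lit 1271251), (nat_lit 1017188), (nat_lit 1779376),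 (nat_lit 356250), (nat_lit 780000), [(nat_lit 490000), (nat_lit 1100000), (nat_lit 1442501)], [(nat_lit 3), (nat_lit 50), (nat_lit 317), (nat_lit 100), (nat_lit 11)]⟩,
 ⟨⟨[(nat_lit 60), (nat_lit 120), (nat_lit 160)], [(nat_lit 0), (nat_lit 0), (nat_lit 3243)], [((nat_lit 0), (nat_lit 0), (nat_lit 0)), ((nat_lit 0), (nat_lit 0), (nat_lit 0)), ((nat_lit 878), (nat_lit 1000), (nat_lit 945))], ((nat_lit 100), (nat_lit 96), (nat_lit 86))⟩, (nat_lit 2035076), (nat_lit 540), (nat_lit 540), (nat_lit 0), (nat_lit 575425), [(nat_lit 3078516000), (nat_lit 7473984000), (nat_lit 11135936000)], [], [(nat_lit 35867846149), (nat_lit 37504850162), (nat_lit 37150143700), (nat_lit 38507653368), (nat_lit 33579737094), (nat_lit 34682282605), (nat_lit 35159899446), (nat_lit 35261023088)], (nat_lit 1271251), (nat_lit 1271251), (nat_lit 1017188), (nat_lit 1779376), (nat_lit 0), (nat_lit 1412501), [(nat_lit 780000), (nat_lit 1762501), (nat_lit 1271251)], [(nat_lit 12),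 (nat_lit 59), (nat_lit 428), (nat_lit 200), (nat_lit 11)]⟩,
 ⟨⟨[(nat_lit 120), (nat_lit 160), (nat_lit 200)], [(nat_lit 0), (nat_lit 533), (nat_lit 3597)], [((nat_lit 0), (nat_lit 0), (nat_lit 0)), ((nat_lit 960), (nat_lit 1000), (nat_lit 200)), ((nat_lit 612), (nat_lit 1000), (nat_lit 732))], ((nat_lit 0), (nat_lit 0), (nat_lit 0))⟩, (nat_lit 32470), (nat_lit 300), (nat_lit 711), (nat_lit 4418035), (nat_lit 420323), [(nat_lit 486048000), (nat_lit 724192000), (nat_lit 1000400000)], [], [(nat_lit 4818503327), (nat_lit 4497230872), (nat_lit 4081481256), (nat_lit 4000580392), (nat_lit 3089488033), (nat_lit 3004604330), (nat_lit 3049351004), (nat_lit 2564361914)], (nat_lit 1271251), (nat_lit 1271251), (nat_lit 356250), (nat_lit 780000), (nat_lit 0), (nat_lit 1412501), [(nat_lit 1695001), (nat_lit 1271251), (nat_lit 1271251)], [(nat_lit 29), (nat_lit 66), (nat_lit 373), (nat_lit 150), (nat_lit 8)]⟩⟩))) (.spl (nat_lit 0) (nat_lit 370) (.leaf ⟨(nat_lit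 618), (nat_lit 246), (nat_lit 0), (nat_lit 136), (nat_lit 0), (nat_lit 3086), (nat_lit 3276), (nat_lit 2054), (nat_lit 0), (nat_lit 0), (nat_lit 370800), [((nat_lit 370), [((nat_lit 41), (nat_lit 2), (nat_lit 618))])], ⟨(nat_lit 7), false, false, false, (nat_lit 242), (nat_lit 2738), (nat_lit 3163), [(nat_lit 1512356), (nat_lit 1515771), (nat_lit 1556642), (nat_lit 1560582), (nat_lit 1649542), (nat_lit 1648700), (nat_lit 1693828), (nat_lit 1693511)]⟩, ⟨(nat_lit 3), false, false, false, (nat_lit 109), (nat_lit 2738), (nat_lit 3163), [(nat_lit 1137055), (nat_lit 1144520), (nat_lit 1247770), (nat_lit 1256546), (nat_lit 1289472), (nat_lit 1292206), (nat_lit 1400199), (nat_lit 1404246)]⟩, (nat_lit 4296885), (nat_lit 44897868), (nat_lit 17196094), (nat_lit 4906038), (nat_lit 5), (nat_lit 0), [⟨(nat_lit 0), (nat_lit 80), (nat_lit 53), (nat_lit 100), (nat_lit 346678415)⟩], [⟨(nat_lit 0), (nat_lit 100), (nat_lit 65), (nat_lit 54), (nat_lit 173565207)⟩],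 [], [⟨(nat_lit 1), (nat_lit 87), (nat_lit 100), (nat_lit 48), (nat_lit 59803690)⟩],
 ⟨⟨[(nat_lit 40), (nat_lit 80), (nat_lit 100)], [(nat_lit 0), (nat_lit 1598), (nat_lit 2533)], [((nat_lit 0), (nat_lit 0), (nat_lit 0)), ((nat_lit 1000), (nat_lit 625), (nat_lit 623)), ((nat_lit 1000), (nat_lit 604), (nat_lit 730))], ((nat_lit 60), (nat_lit 100), (nat_lit 78))⟩, (nat_lit 791949), (nat_lit 207), (nat_lit 207), (nat_lit 0), (nat_lit 200627), [(nat_lit 1523987212), (nat_lit 1801842695), (nat_lit 1946000800)], [(nat_lit 0), (nat_lit 0), (nat_lit 0)], [(nat_lit 20762248644), (nat_lit 21424398570), (nat_lit 23042130875), (nat_lit 23616485106), (nat_lit 20591639333), (nat_lit 21193359346), (nat_lit 22723277911), (nat_lit 23246407756)], (nat_lit 1271251), (nat_lit 1271251), (nat_lit 1017188), (nat_lit 1779376), (nat_lit 111251), (nat_lit 780000), [(nat_lit 490000), (nat_lit 1100000), (nat_lit 1442501)], [(nat_lit 3), (nat_lit 50), (nat_lit 317), (nat_lit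 100), (nat_lit 12)]⟩,
 ⟨⟨[(nat_lit 60), (nat_lit 120), (nat_lit 160)], [(nat_lit 0), (nat_lit 0), (nat_lit 3243)], [((nat_lit 0), (nat_lit 0), (nat_lit 0)), ((nat_lit 0), (nat_lit 0), (nat_lit 0)), ((nat_lit 878), (nat_lit 1000), (nat_lit 945))], ((nat_lit 100), (nat_lit 96), (nat_lit 86))⟩, (nat_lit 665794), (nat_lit 428), (nat_lit 428), (nat_lit 0), (nat_lit 672435), [(nat_lit 1253724000), (nat_lit 3043776000), (nat_lit 4535104000)], [], [(nat_lit 11496916392), (nat_lit 11924327947), (nat_lit 11523437712), (nat_lit 11857359288), (nat_lit 13527599058), (nat_lit 13776998415), (nat_lit 13277825184), (nat_lit 13458390880)], (nat_lit 1271251), (nat_lit 1271251), (nat_lit 1017188), (nat_lit 1779376), (nat_lit 1271251), (nat_lit 1271251), [(nat_lit 780000), (nat_lit 1762501), (nat_lit 1271251)], [(nat_lit 12), (nat_lit 59), (nat_lit 483), (nat_lit 250), (nat_lit 12)]⟩,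
 ⟨⟨[(nat_lit 140), (nat_lit 180), (nat_lit 200)], [(nat_lit 0), (nat_lit 0), (nat_lit 2835)], [((nat_lit 0), (nat_lit 0), (nat_lit 0)), ((nat_lit 0), (nat_lit 0), (nat_lit 0)), ((nat_lit 363), (nat_lit 1000), (nat_lit 798))], ((nat_lit 0), (nat_lit 0), (nat_lit 0))⟩, (nat_lit 37418), (nat_lit 300), (nat_lit 869), (nat_lit 10621600), (nat_lit 899646), [(nat_lit 1338512000), (nat_lit 1911888000), (nat_lit 2230400000)], [], [(nat_lit 8745512241), (nat_lit 8096395764), (nat_lit 7338180290), (nat_lit 7770655654), (nat_lit 9162500062), (nat_lit 8555005553), (nat_lit 7592258348), (nat_lit 6909769481)], (nat_lit 780000), (nat_lit 1598751), (nat_lit 111251), (nat_lit 780000), (nat_lit 1271251), (nat_lit 1271251), [(nat_lit 1977501), (nat_lit 1271251), (nat_lit 1271251)], [(nat_lit 32), (nat_lit 67), (nat_lit 428), (nat_lit 200), (nat_lit 9)]⟩⟩) (.trZ (nat_lit 0) (nat_lit 1) (nat_lit 3) (nat_lit 93) (nat_lit 53) (nat_lit 100) (nat_lit 170) (.trZ (nat_lit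 0) (nat_lit 2) (nat_lit 4) (nat_lit 100) (nat_lit 57) (nat_lit 62) (nat_lit 30) (.leaf ⟨(nat_lit 683), (nat_lit 186), (nat_lit 0), (nat_lit 131), (nat_lit 0), (nat_lit 3292), (nat_lit 2719), (nat_lit 1703), (nat_lit 0), (nat_lit 0), (nat_lit 273200), [((nat_lit 380), [((nat_lit 25), (nat_lit 1), (nat_lit 683))])], ⟨(nat_lit 7), false, true, false, (nat_lit 248), (nat_lit 2236), (nat_lit 2739), [(nat_lit 1545266), (nat_lit 1548227), (nat_lit 1590060), (nat_lit 1593736), (nat_lit 1648684), (nat_lit 1648065), (nat_lit 1693478), (nat_lit 1693574)]⟩, ⟨(nat_lit 3), false, false, false, (nat_lit 114), (nat_lit 2236), (nat_lit 2739), [(nat_lit 1159252), (nat_lit 1166519), (nat_lit 1271238), (nat_lit 1280289), (nat_lit 1292206), (nat_lit 1294870), (nat_lit 1404204), (nat_lit 1408652)]⟩, (nat_lit 4398811), (nat_lit 44012438), (nat_lit 17767052), (nat_lit 5220510), (nat_lit 5), (nat_lit 0), [⟨(nat_lit 0), (nat_lit 82), (nat_lit 44), (nat_lit 100), (nat_lit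 354271927)⟩], [⟨(nat_lit 0), (nat_lit 100), (nat_lit 57), (nat_lit 62), (nat_lit 272041859)⟩], [], [],
 ⟨⟨[(nat_lit 40), (nat_lit 80), (nat_lit 100)], [(nat_lit 0), (nat_lit 2008), (nat_lit 2969)], [((nat_lit 0), (nat_lit 0), (nat_lit 0)), ((nat_lit 1000), (nat_lit 540), (nat_lit 733)), ((nat_lit 1000), (nat_lit 536), (nat_lit 751))], ((nat_lit 53), (nat_lit 100), (nat_lit 79))⟩, (nat_lit 685912), (nat_lit 209), (nat_lit 209), (nat_lit 0), (nat_lit 220165), [(nat_lit 1514145699), (nat_lit 2137406451), (nat_lit 2606331600)], [(nat_lit 0), (nat_lit 0), (nat_lit 0)], [(nat_lit 22042886354), (nat_lit 22695036948), (nat_lit 23852830136), (nat_lit 24531203577), (nat_lit 21782455529), (nat_lit 22384935153), (nat_lit 23529161824), (nat_lit 24115129626)], (nat_lit 1271251), (nat_lit 1271251), (nat_lit 1184688), (nat_lit 1790626), (nat_lit 169688), (nat_lit 780000), [(nat_lit 490000), (nat_lit 1100000), (nat_lit 1442501)], [(nat_lit 3), (nat_lit 50), (nat_lit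 317), (nat_lit 100), (nat_lit 11)]⟩,
 ⟨⟨[(nat_lit 60), (nat_lit 120), (nat_lit 160)], [(nat_lit 0), (nat_lit 0), (nat_lit 3243)], [((nat_lit 0), (nat_lit 0), (nat_lit 0)), ((nat_lit 0), (nat_lit 0), (nat_lit 0)), ((nat_lit 878), (nat_lit 1000), (nat_lit 945))], ((nat_lit 100), (nat_lit 96), (nat_lit 86))⟩, (nat_lit 542788), (nat_lit 498), (nat_lit 498), (nat_lit 0), (nat_lit 771927), [(nat_lit 1040394000), (nat_lit 2525856000), (nat_lit 3763424000)], [], [(nat_lit 9523768165), (nat_lit 9862667715), (nat_lit 9592835832), (nat_lit 9869939924), (nat_lit 11130574907), (nat_lit 11326111861), (nat_lit 11017211104), (nat_lit 11168833388)], (nat_lit 1271251), (nat_lit 1271251), (nat_lit 1184688), (nat_lit 1790626), (nat_lit 1271251), (nat_lit 1271251), [(nat_lit 780000), (nat_lit 1762501), (nat_lit 1271251)], [(nat_lit 12), (nat_lit 59), (nat_lit 483), (nat_lit 250), (nat_lit 12)]⟩,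
 ⟨⟨[(nat_lit 140), (nat_lit 180), (nat_lit 200)], [(nat_lit 0), (nat_lit 0), (nat_lit 2835)], [((nat_lit 0), (nat_lit 0), (nat_lit 0)), ((nat_lit 0), (nat_lit 0), (nat_lit 0)), ((nat_lit 363), (nat_lit 1000), (nat_lit 798))], ((nat_lit 0), (nat_lit 0), (nat_lit 0))⟩, (nat_lit 36043), (nat_lit 300), (nat_lit 913), (nat_lit 10231100), (nat_lit 1023294), [(nat_lit 1289302000), (nat_lit 1841598000), (nat_lit 2148400000)], [], [(nat_lit 8626844624), (nat_lit 8092459812), (nat_lit 7635063961), (nat_lit 7321660380), (nat_lit 8619275214), (nat_lit 8056726614), (nat_lit 7498247954), (nat_lit 6961851031)], (nat_lit 780000), (nat_lit 1598751), (nat_lit 169688), (nat_lit 780000), (nat_lit 1271251), (nat_lit 1271251), [(nat_lit 1977501), (nat_lit 1271251), (nat_lit 1271251)], [(nat_lit 32), (nat_lit 67), (nat_lit 428), (nat_lit 200), (nat_lit 9)]⟩⟩))))))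
noncomputable def c17_62 : Tr Lf :=
 (.spl (nat_lit 5) (nat_lit 200) (.spl (nat_lit 6) (nat_lit 60) (.leaf ⟨(nat_lit 332), (nat_lit 668), (nat_lit 0), (nat_lit 0), (nat_lit 0), (nat_lit 3658), (nat_lit 5827), (nat_lit 0), (nat_lit 0), (nat_lit 0), (nat_lit 123250), [((nat_lit 380), [((nat_lit 25), (nat_lit 0), (nat_lit 217)), ((nat_lit 41), (nat_lit 2), (nat_lit 115))])], ⟨(nat_lit 6), false, true, true, (nat_lit 274), (nat_lit 2236), (nat_lit 3163), [(nat_lit 1605240), (nat_lit 1602541), (nat_lit 1649422), (nat_lit 1647962), (nat_lit 1727168), (nat_lit 1716594), (nat_lit 1771478), (nat_lit 1762142)]⟩, ⟨(nat_lit 3), false, false, false, (nat_lit 110), (nat_lit 2236), (nat_lit 3163), [(nat_lit 1136876), (nat_lit 1152119), (nat_lit 1247334), (nat_lit 1265673), (nat_lit 1289472), (nat_lit 1294870), (nat_lit 1399976), (nat_lit 1408471)]⟩, (nat_lit 4482447), (nat_lit 41857408), (nat_lit 20346639), (nat_lit 4795953), (nat_lit 3), (nat_lit 0), [], [],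 [], [],
 ⟨⟨[(nat_lit 40), (nat_lit 80), (nat_lit 100)], [(nat_lit 0), (nat_lit 1598), (nat_lit 2533)], [((nat_lit 0), (nat_lit 0), (nat_lit 0)), ((nat_lit 1000), (nat_lit 625), (nat_lit 623)), ((nat_lit 1000), (nat_lit 604), (nat_lit 730))], ((nat_lit 61), (nat_lit 100), (nat_lit 72))⟩, (nat_lit 1380661), (nat_lit 207), (nat_lit 207), (nat_lit 0), (nat_lit 160845), [(nat_lit 1681511211), (nat_lit 3497797494), (nat_lit 4552450000)], [(nat_lit 0), (nat_lit 0), (nat_lit 0)], [(nat_lit 23922301981), (nat_lit 25546381746), (nat_lit 27946743698), (nat_lit 29371263082), (nat_lit 23217571990), (nat_lit 24239638921), (nat_lit 26022397511), (nat_lit 27257028177)], (nat_lit 1271251), (nat_lit 1271251), (nat_lit 1271251), (nat_lit 1271251), (nat_lit 111251), (nat_lit 780000), [(nat_lit 490000), (nat_lit 1100000), (nat_lit 1442501)], [(nat_lit 3), (nat_lit 50), (nat_lit 238), (nat_lit 30), (nat_lit 8)]⟩,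
 ⟨⟨[(nat_lit 80), (nat_lit 120), (nat_lit 160)], [(nat_lit 0), (nat_lit 0), (nat_lit 2132)], [((nat_lit 0), (nat_lit 0), (nat_lit 0)), ((nat_lit 0), (nat_lit 0), (nat_lit 0)), ((nat_lit 858), (nat_lit 1000), (nat_lit 713))], ((nat_lit 100), (nat_lit 85), (nat_lit 73))⟩, (nat_lit 1867306), (nat_lit 571), (nat_lit 571), (nat_lit 0), (nat_lit 716636), [(nat_lit 3131584000), (nat_lit 5322624000), (nat_lit 7930496000)], [], [(nat_lit 22973608776), (nat_lit 23792442340), (nat_lit 24611275904), (nat_lit 25211893138), (nat_lit 19062946196), (nat_lit 19647466081), (nat_lit 20436170588), (nat_lit 21020690473)], (nat_lit 1271251), (nat_lit 1271251), (nat_lit 1271251), (nat_lit 1271251), (nat_lit 0), (nat_lit 1412501), [(nat_lit 1100000), (nat_lit 1785001), (nat_lit 1271251)], [(nat_lit 18), (nat_lit 59), (nat_lit 428), (nat_lit 200), (nat_lit 11)]⟩,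
 Rw.none⟩) (.spl (nat_lit 0) (nat_lit 370) (.leaf ⟨(nat_lit 0), (nat_lit 1000), (nat_lit 0), (nat_lit 0), (nat_lit 5757), (nat_lit 4771), (nat_lit 8348), (nat_lit 0), (nat_lit 0), (nat_lit 0), (nat_lit 0), [], Pd.none, Pd.none, (nat_lit 0), (nat_lit 1), (nat_lit 0), (nat_lit 0), (nat_lit 3), (nat_lit 0), [], [], [], [],
 ⟨⟨[(nat_lit 40), (nat_lit 80), (nat_lit 100)], [(nat_lit 0), (nat_lit 1598), (nat_lit 2533)], [((nat_lit 0), (nat_lit 0), (nat_lit 0)), ((nat_lit 1000), (nat_lit 625), (nat_lit 623)), ((nat_lit 1000), (nat_lit 604), (nat_lit 730))], ((nat_lit 60), (nat_lit 100), (nat_lit 78))⟩, (nat_lit 1481316), (nat_lit 168), (nat_lit 168), (nat_lit 0), (nat_lit 78775), [(nat_lit 2032000248), (nat_lit 4688000182), (nat_lit 6250000000)], [], [(nat_lit 25741110056), (nat_lit 26748618079), (nat_lit 30340952501), (nat_lit 31159238243), (nat_lit 23625712796), (nat_lit 24204371915), (nat_lit 27228125271), (nat_lit 27980944542)], (nat_lit 1271251), (nat_lit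 1271251), (nat_lit 1271251), (nat_lit 1271251), (nat_lit 111251), (nat_lit 780000), [(nat_lit 490000), (nat_lit 1100000), (nat_lit 1442501)], [(nat_lit 3), (nat_lit 50), (nat_lit 238), (nat_lit 30), (nat_lit 8)]⟩,
 ⟨⟨[(nat_lit 80), (nat_lit 140), (nat_lit 180)], [(nat_lit 0), (nat_lit 0), (nat_lit 3656)], [((nat_lit 0), (nat_lit 0), (nat_lit 0)), ((nat_lit 0), (nat_lit 0), (nat_lit 0)), ((nat_lit 637), (nat_lit 1000), (nat_lit 908))], ((nat_lit 100), (nat_lit 78), (nat_lit 80))⟩, (nat_lit 2220601), (nat_lit 454), (nat_lit 454), (nat_lit 0), (nat_lit 338623), [(nat_lit 4688000000), (nat_lit 9842000000), (nat_lit 14058000000)], [], [(nat_lit 38250596632), (nat_lit 39586388872), (nat_lit 40951297616), (nat_lit 42348169688), (nat_lit 31960191984), (nat_lit 33336052824), (nat_lit 34711913664), (nat_lit 35744187120)], (nat_lit 1271251), (nat_lit 1271251), (nat_lit 1271251), (nat_lit 1271251), (nat_lit 0), (nat_lit 1412501), [(nat_lit 1100000), (nat_lit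 2127501), (nat_lit 1271251)], [(nat_lit 19), (nat_lit 63), (nat_lit 428), (nat_lit 200), (nat_lit 10)]⟩,
 Rw.none⟩) (.trZ (nat_lit 0) (nat_lit 2) (nat_lit 4) (nat_lit 100) (nat_lit 57) (nat_lit 62) (nat_lit 30) (.leaf ⟨(nat_lit 588), (nat_lit 412), (nat_lit 0), (nat_lit 0), (nat_lit 0), (nat_lit 3155), (nat_lit 4348), (nat_lit 0), (nat_lit 0), (nat_lit 0), (nat_lit 235200), [((nat_lit 380), [((nat_lit 25), (nat_lit 1), (nat_lit 588))])], ⟨(nat_lit 6), false, true, true, (nat_lit 274), (nat_lit 2236), (nat_lit 2739), [(nat_lit 1603890), (nat_lit 1602558), (nat_lit 1648684), (nat_lit 1648065), (nat_lit 1722017), (nat_lit 1716594), (nat_lit 1766852), (nat_lit 1762142)]⟩, ⟨(nat_lit 3), false, false, false, (nat_lit 114), (nat_lit 2236), (nat_lit 2739), [(nat_lit 1159252), (nat_lit 1166519), (nat_lit 1271238), (nat_lit 1280289), (nat_lit 1292206), (nat_lit 1294870), (nat_lit 1404204), (nat_lit 1408652)]⟩, (nat_lit 4526583), (nat_lit 41709937), (nat_lit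 20226386), (nat_lit 5063677), (nat_lit 3), (nat_lit 0), [], [], [⟨(nat_lit 0), (nat_lit 100), (nat_lit 96), (nat_lit 16), (nat_lit 762543)⟩], [],
 ⟨⟨[(nat_lit 40), (nat_lit 80), (nat_lit 100)], [(nat_lit 0), (nat_lit 2008), (nat_lit 2969)], [((nat_lit 0), (nat_lit 0), (nat_lit 0)), ((nat_lit 1000), (nat_lit 540), (nat_lit 733)), ((nat_lit 1000), (nat_lit 536), (nat_lit 751))], ((nat_lit 53), (nat_lit 100), (nat_lit 79))⟩, (nat_lit 756556), (nat_lit 173), (nat_lit 173), (nat_lit 0), (nat_lit 107976), [(nat_lit 1553627209), (nat_lit 2492172848), (nat_lit 3113137600)], [(nat_lit 0), (nat_lit 0), (nat_lit 0)], [(nat_lit 24458188918), (nat_lit 24980076741), (nat_lit 27297889017), (nat_lit 27911246590), (nat_lit 24154427998), (nat_lit 24635017809), (nat_lit 26800991752), (nat_lit 27252833719)], (nat_lit 1271251), (nat_lit 1271251), (nat_lit 1271251), (nat_lit 1271251), (nat_lit 169688), (nat_lit 780000), [(nat_lit 490000), (nat_lit 1100000), (nat_lit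 1442501)], [(nat_lit 3), (nat_lit 50), (nat_lit 238), (nat_lit 30), (nat_lit 8)]⟩,
 ⟨⟨[(nat_lit 80), (nat_lit 140), (nat_lit 180)], [(nat_lit 0), (nat_lit 0), (nat_lit 3656)], [((nat_lit 0), (nat_lit 0), (nat_lit 0)), ((nat_lit 0), (nat_lit 0), (nat_lit 0)), ((nat_lit 637), (nat_lit 1000), (nat_lit 908))], ((nat_lit 100), (nat_lit 78), (nat_lit 80))⟩, (nat_lit 809715), (nat_lit 550), (nat_lit 550), (nat_lit 0), (nat_lit 477742), [(nat_lit 1931456000), (nat_lit 4054904000), (nat_lit 5791896000)], [], [(nat_lit 16195037416), (nat_lit 16495315696), (nat_lit 16961974656), (nat_lit 17282891944), (nat_lit 12717746064), (nat_lit 13030473980), (nat_lit 13343201896), (nat_lit 13539934180)], (nat_lit 1271251), (nat_lit 1271251), (nat_lit 1271251), (nat_lit 1271251), (nat_lit 0), (nat_lit 1412501), [(nat_lit 1100000), (nat_lit 2127501), (nat_lit 1271251)], [(nat_lit 19), (nat_lit 63), (nat_lit 428), (nat_lit 200), (nat_lit 10)]⟩,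
 Rw.none⟩)))) (.spl (nat_lit 1) (nat_lit 260) (.leaf ⟨(nat_lit 678), (nat_lit 189), (nat_lit 0), (nat_lit 133), (nat_lit 0), (nat_lit 3018), (nat_lit 2318), (nat_lit 2112), (nat_lit 0), (nat_lit 0), (nat_lit 361650), [((nat_lit 380), [((nat_lit 25), (nat_lit 0), (nat_lit 129)), ((nat_lit 41), (nat_lit 2), (nat_lit 549))])], ⟨(nat_lit 6), false, true, true, (nat_lit 270), (nat_lit 2236), (nat_lit 3163), [(nat_lit 1605240), (nat_lit 1602541), (nat_lit 1627331), (nat_lit 1625251), (nat_lit 1727168), (nat_lit 1716594), (nat_lit 1749323), (nat_lit 1739368)]⟩, ⟨(nat_lit 3), false, false, false, (nat_lit 110), (nat_lit 2236), (nat_lit 3163), [(nat_lit 1136876), (nat_lit 1152119), (nat_lit 1247334), (nat_lit 1265673), (nat_lit 1289472), (nat_lit 1294870), (nat_lit 1399976), (nat_lit 1408471)]⟩, (nat_lit 4462796), (nat_lit 42262624), (nat_lit 19914094), (nat_lit 4823282), (nat_lit 5), (nat_lit 0), [], [⟨(nat_lit 0), (nat_lit 100), (nat_lit 53), (nat_lit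 77), (nat_lit 296617971)⟩], [], [⟨(nat_lit 1), (nat_lit 99), (nat_lit 100), (nat_lit 82), (nat_lit 19338510)⟩],
 ⟨⟨[(nat_lit 40), (nat_lit 80), (nat_lit 100)], [(nat_lit 0), (nat_lit 1598), (nat_lit 2533)], [((nat_lit 0), (nat_lit 0), (nat_lit 0)), ((nat_lit 1000), (nat_lit 625), (nat_lit 623)), ((nat_lit 1000), (nat_lit 604), (nat_lit 730))], ((nat_lit 60), (nat_lit 100), (nat_lit 78))⟩, (nat_lit 446599), (nat_lit 201), (nat_lit 201), (nat_lit 0), (nat_lit 139829), [(nat_lit 1486693693), (nat_lit 1701861562), (nat_lit 1894786838)], [(nat_lit 0), (nat_lit 0), (nat_lit 0)], [(nat_lit 24105704131), (nat_lit 25137990787), (nat_lit 26902916511), (nat_lit 27872604522), (nat_lit 23820938403), (nat_lit 24854163751), (nat_lit 26579095141), (nat_lit 27466795552)], (nat_lit 1271251), (nat_lit 1271251), (nat_lit 1271251), (nat_lit 1271251), (nat_lit 111251), (nat_lit 780000), [(nat_lit 490000), (nat_lit 1100000), (nat_lit 1442501)], [(nat_lit 3), (nat_lit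 50), (nat_lit 238), (nat_lit 30), (nat_lit 8)]⟩,
 ⟨⟨[(nat_lit 80), (nat_lit 140), (nat_lit 180)], [(nat_lit 0), (nat_lit 0), (nat_lit 3656)], [((nat_lit 0), (nat_lit 0), (nat_lit 0)), ((nat_lit 0), (nat_lit 0), (nat_lit 0)), ((nat_lit 637), (nat_lit 1000), (nat_lit 908))], ((nat_lit 100), (nat_lit 78), (nat_lit 80))⟩, (nat_lit 605734), (nat_lit 474), (nat_lit 474), (nat_lit 0), (nat_lit 687413), [(nat_lit 1509536000), (nat_lit 3169124000), (nat_lit 4526676000)], [], [(nat_lit 11370181712), (nat_lit 11510168620), (nat_lit 11930129344), (nat_lit 12045612049), (nat_lit 12651272479), (nat_lit 12767329126), (nat_lit 13115499066), (nat_lit 13198160039)], (nat_lit 1271251), (nat_lit 1271251), (nat_lit 1271251), (nat_lit 1271251), (nat_lit 1271251), (nat_lit 1271251), [(nat_lit 1100000), (nat_lit 2127501), (nat_lit 1271251)], [(nat_lit 19), (nat_lit 63), (nat_lit 483), (nat_lit 250), (nat_lit 10)]⟩,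
 ⟨⟨[(nat_lit 140), (nat_lit 180), (nat_lit 200)], [(nat_lit 0), (nat_lit 0), (nat_lit 2835)], [((nat_lit 0), (nat_lit 0), (nat_lit 0)), ((nat_lit 0), (nat_lit 0), (nat_lit 0)), ((nat_lit 363), (nat_lit 1000), (nat_lit 798))], ((nat_lit 0), (nat_lit 0), (nat_lit 0))⟩, (nat_lit 36593), (nat_lit 300), (nat_lit 746), (nat_lit 10387300), (nat_lit 647609), [(nat_lit 1308986000), (nat_lit 1869714000), (nat_lit 2181200000)], [], [(nat_lit 8424187123), (nat_lit 7899845327), (nat_lit 6968688820), (nat_lit 7660486248), (nat_lit 8794694028), (nat_lit 8098552295), (nat_lit 7191173934), (nat_lit 6517758056)], (nat_lit 780000), (nat_lit 1598751), (nat_lit 111251), (nat_lit 780000), (nat_lit 1271251), (nat_lit 1271251), [(nat_lit 1977501), (nat_lit 1271251), (nat_lit 1271251)], [(nat_lit 32), (nat_lit 67), (nat_lit 428), (nat_lit 200), (nat_lit 9)]⟩⟩) (.leaf ⟨(nat_lit 36), (nat_lit 514), (nat_lit 0), (nat_lit 450), (nat_lit 0), (nat_lit 3698), (nat_lit 7607), (nat_lit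 7146), (nat_lit 0), (nat_lit 0), (nat_lit 144000), [((nat_lit 380), [((nat_lit 41), (nat_lit 5), (nat_lit 36))])], ⟨(nat_lit 6), false, true, true, (nat_lit 279), (nat_lit 2236), (nat_lit 3163), [(nat_lit 1627331), (nat_lit 1625251), (nat_lit 1649422), (nat_lit 1647962), (nat_lit 1749323), (nat_lit 1739368), (nat_lit 1771478), (nat_lit 1762142)]⟩, ⟨(nat_lit 3), false, false, false, (nat_lit 110), (nat_lit 2236), (nat_lit 3163), [(nat_lit 1136876), (nat_lit 1152119), (nat_lit 1247334), (nat_lit 1265673), (nat_lit 1289472), (nat_lit 1294870), (nat_lit 1399976), (nat_lit 1408471)]⟩, (nat_lit 4500870), (nat_lit 41454082), (nat_lit 20777775), (nat_lit 4768143), (nat_lit 5), (nat_lit 0), [], [⟨(nat_lit 0), (nat_lit 100), (nat_lit 53), (nat_lit 77), (nat_lit 816541044)⟩], [], [⟨(nat_lit 1), (nat_lit 99), (nat_lit 100), (nat_lit 82), (nat_lit 26002766)⟩],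
 ⟨⟨[(nat_lit 40), (nat_lit 80), (nat_lit 100)], [(nat_lit 0), (nat_lit 1598), (nat_lit 2533)], [((nat_lit 0), (nat_lit 0), (nat_lit 0)), ((nat_lit 1000), (nat_lit 625), (nat_lit 623)), ((nat_lit 1000), (nat_lit 604), (nat_lit 730))], ((nat_lit 60), (nat_lit 100), (nat_lit 78))⟩, (nat_lit 1490854), (nat_lit 208), (nat_lit 208), (nat_lit 0), (nat_lit 162791), [(nat_lit 1894139201), (nat_lit 3904510404), (nat_lit 5025280000)], [(nat_lit 0), (nat_lit 0), (nat_lit 0)], [(nat_lit 24498440058), (nat_lit 25625797536), (nat_lit 28032788938), (nat_lit 29464929242), (nat_lit 23884342919), (nat_lit 25014254747), (nat_lit 26800627537), (nat_lit 27814781886)], (nat_lit 1271251), (nat_lit 1271251), (nat_lit 1271251), (nat_lit 1271251), (nat_lit 111251), (nat_lit 780000), [(nat_lit 490000), (nat_lit 1100000), (nat_lit 1442501)], [(nat_lit 3), (nat_lit 50), (nat_lit 238), (nat_lit 30), (nat_lit 8)]⟩,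
 ⟨⟨[(nat_lit 80), (nat_lit 120), (nat_lit 160)], [(nat_lit 0), (nat_lit 528), (nat_lit 2577)], [((nat_lit 0), (nat_lit 0), (nat_lit 0)), ((nat_lit 1000), (nat_lit 959), (nat_lit 206)), ((nat_lit 929), (nat_lit 1000), (nat_lit 742))], ((nat_lit 100), (nat_lit 87), (nat_lit 82))⟩, (nat_lit 3119652), (nat_lit 418), (nat_lit 418), (nat_lit 0), (nat_lit 703432), [(nat_lit 4519232000), (nat_lit 7681152000), (nat_lit 11444608000)], [], [(nat_lit 23293123059), (nat_lit 23932282248), (nat_lit 25921315727), (nat_lit 26560993196), (nat_lit 28750558675), (nat_lit 29211660023), (nat_lit 31598314411), (nat_lit 32343737644)], (nat_lit 1271251), (nat_lit 1271251), (nat_lit 1271251), (nat_lit 1271251), (nat_lit 1271251), (nat_lit 1271251), [(nat_lit 1100000), (nat_lit 1785001), (nat_lit 1271251)], [(nat_lit 18), (nat_lit 59), (nat_lit 483), (nat_lit 250), (nat_lit 11)]⟩,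
 ⟨⟨[(nat_lit 140), (nat_lit 180), (nat_lit 200)], [(nat_lit 0), (nat_lit 0), (nat_lit 2835)], [((nat_lit 0), (nat_lit 0), (nat_lit 0)), ((nat_lit 0), (nat_lit 0), (nat_lit 0)), ((nat_lit 363), (nat_lit 1000), (nat_lit 798))], ((nat_lit 0), (nat_lit 0), (nat_lit 0))⟩, (nat_lit 123810), (nat_lit 300), (nat_lit 808), (nat_lit 35145000), (nat_lit 753590), [(nat_lit 4428900000), (nat_lit 6326100000), (nat_lit 7380000000)], [], [(nat_lit 28502720541), (nat_lit 26728776457), (nat_lit 23577998454), (nat_lit 25919018663), (nat_lit 29756501609), (nat_lit 27401275590), (nat_lit 24330943868), (nat_lit 22052411878)], (nat_lit 780000), (nat_lit 1598751), (nat_lit 111251), (nat_lit 780000), (nat_lit 1271251), (nat_lit 1271251), [(nat_lit 1977501), (nat_lit 1271251), (nat_lit 1271251)], [(nat_lit 32), (nat_lit 67), (nat_lit 428), (nat_lit 200), (nat_lit 9)]⟩⟩)))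
noncomputable def c17_63 : Tr Lf :=
 (.trX (nat_lit 5) (nat_lit 3) (nat_lit 4) (nat_lit 87) (nat_lit 95) (nat_lit 100) (nat_lit 300) (.spl (nat_lit 6) (nat_lit 60) (.spl (nat_lit 5) (nat_lit 160) (.spl (nat_lit 0) (nat_lit 370) (.leaf ⟨(nat_lit 0), (nat_lit 1000), (nat_lit 0), (nat_lit 0), (nat_lit 0), (nat_lit 3949), (nat_lit 7083), (nat_lit 0), (nat_lit 0), (nat_lit 0), (nat_lit 0), [], Pd.none, Pd.none, (nat_lit 0), (nat_lit 1), (nat_lit 0), (nat_lit 0), (nat_lit 3), (nat_lit 0), [], [], [], [],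
 ⟨⟨[(nat_lit 40), (nat_lit 80), (nat_lit 100)], [(nat_lit 0), (nat_lit 1598), (nat_lit 2533)], [((nat_lit 0), (nat_lit 0), (nat_lit 0)), ((nat_lit 1000), (nat_lit 625), (nat_lit 623)), ((nat_lit 1000), (nat_lit 604), (nat_lit 730))], ((nat_lit 61), (nat_lit 100), (nat_lit 72))⟩, (nat_lit 1766932), (nat_lit 213), (nat_lit 213), (nat_lit 0), (nat_lit 133616), [(nat_lit 2032000005), (nat_lit 4688000028), (nat_lit 6250000000)], [], [(nat_lit 28572722819), (nat_lit 29312703608), (nat_lit 32525128795), (nat_lit 33143239894), (nat_lit 27527509107), (nat_lit 27951732420), (nat_lit 30035239673), (nat_lit 30517848685)], (nat_lit 1271251), (nat_lit 1271251), (nat_lit 1271251), (nat_lit 1271251), (nat_lit 111251), (nat_lit 780000), [(nat_lit 490000), (nat_lit 1100000), (nat_lit 1442501)], [(nat_lit 3), (nat_lit 50), (nat_lit 238), (nat_lit 30), (nat_lit 8)]⟩,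
 ⟨⟨[(nat_lit 80), (nat_lit 120), (nat_lit 160)], [(nat_lit 0), (nat_lit 0), (nat_lit 2132)], [((nat_lit 0), (nat_lit 0), (nat_lit 0)), ((nat_lit 0), (nat_lit 0), (nat_lit 0)), ((nat_lit 858), (nat_lit 1000), (nat_lit 713))], ((nat_lit 100), (nat_lit 85), (nat_lit 73))⟩, (nat_lit 2569335), (nat_lit 516), (nat_lit 516), (nat_lit 0), (nat_lit 574844), [(nat_lit 4688000000), (nat_lit 7968000000), (nat_lit 11872000000)], [], [(nat_lit 40483651068), (nat_lit 41373715726), (nat_lit 42937160433), (nat_lit 43607322090), (nat_lit 35917110840), (nat_lit 36685217182), (nat_lit 38002299126), (nat_lit 38588277946)], (nat_lit 1271251), (nat_lit 1271251), (nat_lit 1271251), (nat_lit 1271251), (nat_lit 0), (nat_lit 1100000), [(nat_lit 1100000), (nat_lit 1785001), (nat_lit 1271251)], [(nat_lit 18), (nat_lit 59), (nat_lit 345), (nat_lit 125), (nat_lit 8)]⟩,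
 Rw.none⟩) (.trX (nat_lit 3) (nat_lit 0) (nat_lit 1) (nat_lit 57) (nat_lit 62) (nat_lit 100) (nat_lit 370) (.trZ (nat_lit 0) (nat_lit 2) (nat_lit 4) (nat_lit 100) (nat_lit 57) (nat_lit 62) (nat_lit 30) (.leaf ⟨(nat_lit 327), (nat_lit 673), (nat_lit 0), (nat_lit 0), (nat_lit 0), (nat_lit 3512), (nat_lit 5903), (nat_lit 0), (nat_lit 0), (nat_lit 0), (nat_lit 107400), [((nat_lit 380), [((nat_lit 25), (nat_lit 0), (nat_lit 156)), ((nat_lit 25), (nat_lit 1), (nat_lit 171))])], ⟨(nat_lit 8), false, true, true, (nat_lit 311), (nat_lit 2236), (nat_lit 2739), [(nat_lit 1722017), (nat_lit 1716594), (nat_lit 1766852), (nat_lit 1762142), (nat_lit 1795844), (nat_lit 1787863), (nat_lit 1840679), (nat_lit 1833412)]⟩, ⟨(nat_lit 3), false, false, false, (nat_lit 114), (nat_lit 2236), (nat_lit 2739), [(nat_lit 1159252), (nat_lit 1166519), (nat_lit 1271238), (nat_lit 1280289), (nat_lit 1292206), (nat_lit 1294870), (nat_lit 1404204), (nat_lit 1408652)]⟩, (nat_lit 4644641),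 (nat_lit 38415122), (nat_lit 23781238), (nat_lit 4803640), (nat_lit 3), (nat_lit 0), [⟨(nat_lit 1), (nat_lit 72), (nat_lit 51), (nat_lit 100), (nat_lit 128380471)⟩], [], [], [⟨(nat_lit 0), (nat_lit 100), (nat_lit 88), (nat_lit 17), (nat_lit 32371275)⟩],
 ⟨⟨[(nat_lit 40), (nat_lit 60), (nat_lit 80)], [(nat_lit 0), (nat_lit 1134), (nat_lit 1930)], [((nat_lit 0), (nat_lit 0), (nat_lit 0)), ((nat_lit 1000), (nat_lit 575), (nat_lit 619)), ((nat_lit 1000), (nat_lit 574), (nat_lit 622))], ((nat_lit 54), (nat_lit 100), (nat_lit 73))⟩, (nat_lit 827470), (nat_lit 186), (nat_lit 186), (nat_lit 0), (nat_lit 159684), [(nat_lit 1684812591), (nat_lit 2590309415), (nat_lit 3585723200)], [(nat_lit 0), (nat_lit 0), (nat_lit 0)], [(nat_lit 28081954380), (nat_lit 28700253361), (nat_lit 31017881848), (nat_lit 31620318461), (nat_lit 27549574489), (nat_lit 28000592749), (nat_lit 29629505445), (nat_lit 30049450313)], (nat_lit 1271251), (nat_lit 1271251), (nat_lit 1271251),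 (nat_lit 1271251), (nat_lit 169688), (nat_lit 780000), [(nat_lit 490000), (nat_lit 780000), (nat_lit 1100000)], [(nat_lit 2), (nat_lit 44), (nat_lit 238), (nat_lit 30), (nat_lit 9)]⟩,
 ⟨⟨[(nat_lit 80), (nat_lit 120), (nat_lit 160)], [(nat_lit 0), (nat_lit 0), (nat_lit 2132)], [((nat_lit 0), (nat_lit 0), (nat_lit 0)), ((nat_lit 0), (nat_lit 0), (nat_lit 0)), ((nat_lit 858), (nat_lit 1000), (nat_lit 713))], ((nat_lit 100), (nat_lit 85), (nat_lit 73))⟩, (nat_lit 1642312), (nat_lit 565), (nat_lit 565), (nat_lit 0), (nat_lit 715034), [(nat_lit 3155024000), (nat_lit 5362464000), (nat_lit 7989856000)], [], [(nat_lit 26107400724), (nat_lit 26463313600), (nat_lit 27259888147), (nat_lit 27650288195), (nat_lit 22003241292), (nat_lit 22396698288), (nat_lit 23081954097), (nat_lit 23367901990)], (nat_lit 1271251), (nat_lit 1271251), (nat_lit 1271251), (nat_lit 1271251), (nat_lit 0), (nat_lit 1100000), [(nat_lit 1100000), (nat_lit 1785001), (nat_lit 1271251)],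 [(nat_lit 18), (nat_lit 59), (nat_lit 345), (nat_lit 125), (nat_lit 8)]⟩,
 Rw.none⟩)))) (.leaf ⟨(nat_lit 395), (nat_lit 498), (nat_lit 0), (nat_lit 107), (nat_lit 0), (nat_lit 3361), (nat_lit 5491), (nat_lit 1382), (nat_lit 0), (nat_lit 0), (nat_lit 166300), [((nat_lit 380), [((nat_lit 25), (nat_lit 0), (nat_lit 202)), ((nat_lit 41), (nat_lit 2), (nat_lit 193))])], ⟨(nat_lit 8), false, true, true, (nat_lit 315), (nat_lit 2236), (nat_lit 3163), [(nat_lit 1727168), (nat_lit 1716594), (nat_lit 1771478), (nat_lit 1762142), (nat_lit 1818598), (nat_lit 1802117), (nat_lit 1862908), (nat_lit 1847666)]⟩, ⟨(nat_lit 3), false, false, false, (nat_lit 110), (nat_lit 2236), (nat_lit 3163), [(nat_lit 1136876), (nat_lit 1152119), (nat_lit 1247334), (nat_lit 1265673), (nat_lit 1289472), (nat_lit 1294870), (nat_lit 1399976), (nat_lit 1408471)]⟩, (nat_lit 4608656), (nat_lit 38227927), (nat_lit 24246721), (nat_lit 4525352), (nat_lit 4), (nat_lit 0), [⟨(nat_lit 1),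 (nat_lit 68), (nat_lit 55), (nat_lit 100), (nat_lit 3990905)⟩], [⟨(nat_lit 0), (nat_lit 100), (nat_lit 53), (nat_lit 77), (nat_lit 456793)⟩], [], [⟨(nat_lit 1), (nat_lit 100), (nat_lit 66), (nat_lit 76), (nat_lit 161226393)⟩, ⟨(nat_lit 1), (nat_lit 100), (nat_lit 67), (nat_lit 85), (nat_lit 9962322)⟩],
 ⟨⟨[(nat_lit 40), (nat_lit 80), (nat_lit 100)], [(nat_lit 0), (nat_lit 1598), (nat_lit 2533)], [((nat_lit 0), (nat_lit 0), (nat_lit 0)), ((nat_lit 1000), (nat_lit 625), (nat_lit 623)), ((nat_lit 1000), (nat_lit 604), (nat_lit 730))], ((nat_lit 61), (nat_lit 100), (nat_lit 72))⟩, (nat_lit 1289690), (nat_lit 223), (nat_lit 223), (nat_lit 0), (nat_lit 160845), [(nat_lit 1646265222), (nat_lit 3246025485), (nat_lit 4071206800)], [(nat_lit 0), (nat_lit 0), (nat_lit 0)], [(nat_lit 27311242271), (nat_lit 28675791844), (nat_lit 30979218215), (nat_lit 32130931400), (nat_lit 26722030404), (nat_lit 27596461527), (nat_lit 29202506875), (nat_lit 30083696444)],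 (nat_lit 1271251), (nat_lit 1271251), (nat_lit 1271251), (nat_lit 1271251), (nat_lit 111251), (nat_lit 780000), [(nat_lit 490000), (nat_lit 1100000), (nat_lit 1442501)], [(nat_lit 3), (nat_lit 50), (nat_lit 238), (nat_lit 30), (nat_lit 8)]⟩,
 ⟨⟨[(nat_lit 80), (nat_lit 120), (nat_lit 160)], [(nat_lit 0), (nat_lit 0), (nat_lit 2132)], [((nat_lit 0), (nat_lit 0), (nat_lit 0)), ((nat_lit 0), (nat_lit 0), (nat_lit 0)), ((nat_lit 858), (nat_lit 1000), (nat_lit 713))], ((nat_lit 100), (nat_lit 85), (nat_lit 73))⟩, (nat_lit 1438575), (nat_lit 438), (nat_lit 438), (nat_lit 0), (nat_lit 716636), [(nat_lit 2836240000), (nat_lit 4820640000), (nat_lit 7182560000)], [], [(nat_lit 18277626048), (nat_lit 18702508508), (nat_lit 19652395050), (nat_lit 19992475078), (nat_lit 18627155158), (nat_lit 18980623983), (nat_lit 20307362687), (nat_lit 20947158409)], (nat_lit 1271251), (nat_lit 1271251), (nat_lit 1271251), (nat_lit 1271251), (nat_lit 1100000), (nat_lit 2298751),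 [(nat_lit 1100000), (nat_lit 1785001), (nat_lit 1271251)], [(nat_lit 18), (nat_lit 59), (nat_lit 373), (nat_lit 150), (nat_lit 9)]⟩,
 ⟨⟨[(nat_lit 140), (nat_lit 180), (nat_lit 200)], [(nat_lit 0), (nat_lit 0), (nat_lit 2835)], [((nat_lit 0), (nat_lit 0), (nat_lit 0)), ((nat_lit 0), (nat_lit 0), (nat_lit 0)), ((nat_lit 363), (nat_lit 1000), (nat_lit 798))], ((nat_lit 0), (nat_lit 0), (nat_lit 0))⟩, (nat_lit 29439), (nat_lit 300), (nat_lit 818), (nat_lit 8356703), (nat_lit 736119), [(nat_lit 1053094000), (nat_lit 1504206000), (nat_lit 1754800000)], [], [(nat_lit 7305188328), (nat_lit 6877492431), (nat_lit 6432419424), (nat_lit 6240451683), (nat_lit 6987594828), (nat_lit 8107375080), (nat_lit 7209662124), (nat_lit 8931272193)], (nat_lit 780000), (nat_lit 1598751), (nat_lit 111251), (nat_lit 780000), (nat_lit 1100000), (nat_lit 2298751), [(nat_lit 1977501), (nat_lit 1271251), (nat_lit 1271251)], [(nat_lit 32), (nat_lit 67), (nat_lit 401), (nat_lit 175),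 (nat_lit 9)]⟩⟩)) (.spl (nat_lit 1) (nat_lit 260) (.trX (nat_lit 3) (nat_lit 0) (nat_lit 1) (nat_lit 63) (nat_lit 61) (nat_lit 100) (nat_lit 370) (.leaf ⟨(nat_lit 53), (nat_lit 935), (nat_lit 0), (nat_lit 12), (nat_lit 0), (nat_lit 3874), (nat_lit 9522), (nat_lit 152), (nat_lit 0), (nat_lit 0), (nat_lit 212000), [((nat_lit 380), [((nat_lit 41), (nat_lit 5), (nat_lit 53))])], ⟨(nat_lit 8), false, true, true, (nat_lit 308), (nat_lit 2236), (nat_lit 3163), [(nat_lit 1727168), (nat_lit 1716594), (nat_lit 1749323), (nat_lit 1739368), (nat_lit 1803360), (nat_lit 1787863), (nat_lit 1825515), (nat_lit 1810637)]⟩, ⟨(nat_lit 3), false, false, false, (nat_lit 110), (nat_lit 2236), (nat_lit 3163), [(nat_lit 1136876), (nat_lit 1152119), (nat_lit 1247334), (nat_lit 1265673), (nat_lit 1289472), (nat_lit 1294870), (nat_lit 1399976), (nat_lit 1408471)]⟩, (nat_lit 4592788), (nat_lit 38866767), (nat_lit 23557081), (nat_lit 4576152), (nat_lit 3), (nat_lit 0), [⟨(nat_lit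 1), (nat_lit 71), (nat_lit 54), (nat_lit 100), (nat_lit 240303556)⟩], [], [], [],
 ⟨⟨[(nat_lit 40), (nat_lit 80), (nat_lit 100)], [(nat_lit 0), (nat_lit 1598), (nat_lit 2533)], [((nat_lit 0), (nat_lit 0), (nat_lit 0)), ((nat_lit 1000), (nat_lit 625), (nat_lit 623)), ((nat_lit 1000), (nat_lit 604), (nat_lit 730))], ((nat_lit 60), (nat_lit 100), (nat_lit 78))⟩, (nat_lit 1107307), (nat_lit 198), (nat_lit 198), (nat_lit 0), (nat_lit 85122), [(nat_lit 1865871602), (nat_lit 3534529204), (nat_lit 4446940000)], [(nat_lit 0), (nat_lit 0), (nat_lit 0)], [(nat_lit 28411387994), (nat_lit 29877060346), (nat_lit 31675186601), (nat_lit 32940667817), (nat_lit 26649804197), (nat_lit 27543618381), (nat_lit 29218500112), (nat_lit 30393935354)], (nat_lit 1271251), (nat_lit 1271251), (nat_lit 1271251), (nat_lit 1271251), (nat_lit 111251), (nat_lit 780000), [(nat_lit 490000), (nat_lit 1100000), (nat_lit 1442501)], [(nat_lit 3), (nat_lit 50), (nat_lit 238), (nat_lit 30),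 (nat_lit 8)]⟩,
 ⟨⟨[(nat_lit 80), (nat_lit 140), (nat_lit 180)], [(nat_lit 0), (nat_lit 0), (nat_lit 3656)], [((nat_lit 0), (nat_lit 0), (nat_lit 0)), ((nat_lit 0), (nat_lit 0), (nat_lit 0)), ((nat_lit 637), (nat_lit 1000), (nat_lit 908))], ((nat_lit 100), (nat_lit 78), (nat_lit 80))⟩, (nat_lit 1380778), (nat_lit 480), (nat_lit 480), (nat_lit 0), (nat_lit 411325), [(nat_lit 4439536000), (nat_lit 9320374000), (nat_lit 13312926000)], [], [(nat_lit 41261928572), (nat_lit 41476472296), (nat_lit 43337564689), (nat_lit 43982002826), (nat_lit 32549207362), (nat_lit 32558529139), (nat_lit 34366534468), (nat_lit 34666718872)], (nat_lit 1271251), (nat_lit 1271251), (nat_lit 1271251), (nat_lit 1271251), (nat_lit 0), (nat_lit 2118750), [(nat_lit 1100000), (nat_lit 2127501), (nat_lit 1271251)], [(nat_lit 19), (nat_lit 63), (nat_lit 483), (nat_lit 250), (nat_lit 11)]⟩,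
 ⟨⟨[(nat_lit 140), (nat_lit 180), (nat_lit 200)], [(nat_lit 0), (nat_lit 0), (nat_lit 2835)], [((nat_lit 0), (nat_lit 0), (nat_lit 0)), ((nat_lit 0), (nat_lit 0), (nat_lit 0)), ((nat_lit 363), (nat_lit 1000), (nat_lit 798))], ((nat_lit 0), (nat_lit 0), (nat_lit 0))⟩, (nat_lit 3302), (nat_lit 300), (nat_lit 805), (nat_lit 937200), (nat_lit 412348), [(nat_lit 118104000), (nat_lit 168696000), (nat_lit 196800000)], [], [(nat_lit 1111512806), (nat_lit 940600689), (nat_lit 879811064), (nat_lit 829611582), (nat_lit 788172021), (nat_lit 785102493), (nat_lit 686260220), (nat_lit 876338643)], (nat_lit 780000), (nat_lit 1598751), (nat_lit 111251), (nat_lit 780000), (nat_lit 0), (nat_lit 2118750), [(nat_lit 1977501), (nat_lit 1271251), (nat_lit 1271251)], [(nat_lit 32), (nat_lit 67), (nat_lit 401), (nat_lit 175), (nat_lit 9)]⟩⟩)) (.leaf ⟨(nat_lit 0), (nat_lit 956), (nat_lit 0), (nat_lit 44), (nat_lit 0), (nat_lit 4012), (nat_lit 7686), (nat_lit 557), (nat_lit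 0), (nat_lit 0), (nat_lit 0), [], Pd.none, Pd.none, (nat_lit 0), (nat_lit 1), (nat_lit 0), (nat_lit 0), (nat_lit 3), (nat_lit 0), [], [], [], [⟨(nat_lit 1), (nat_lit 100), (nat_lit 66), (nat_lit 76), (nat_lit 46967336)⟩],
 ⟨⟨[(nat_lit 40), (nat_lit 80), (nat_lit 100)], [(nat_lit 0), (nat_lit 1598), (nat_lit 2533)], [((nat_lit 0), (nat_lit 0), (nat_lit 0)), ((nat_lit 1000), (nat_lit 625), (nat_lit 623)), ((nat_lit 1000), (nat_lit 604), (nat_lit 730))], ((nat_lit 60), (nat_lit 100), (nat_lit 78))⟩, (nat_lit 1701452), (nat_lit 209), (nat_lit 209), (nat_lit 0), (nat_lit 109073), [(nat_lit 2032000002), (nat_lit 4688000004), (nat_lit 6250000000)], [], [(nat_lit 28708244072), (nat_lit 30200208598), (nat_lit 32690762071), (nat_lit 33936038807), (nat_lit 27042932498), (nat_lit 27948464456), (nat_lit 30042892242), (nat_lit 31200979524)], (nat_lit 1271251), (nat_lit 1271251), (nat_lit 1271251), (nat_lit 1271251), (nat_lit 111251), (nat_lit 780000), [(nat_lit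 490000), (nat_lit 1100000), (nat_lit 1442501)], [(nat_lit 3), (nat_lit 50), (nat_lit 238), (nat_lit 30), (nat_lit 8)]⟩,
 ⟨⟨[(nat_lit 80), (nat_lit 120), (nat_lit 160)], [(nat_lit 0), (nat_lit 528), (nat_lit 2577)], [((nat_lit 0), (nat_lit 0), (nat_lit 0)), ((nat_lit 1000), (nat_lit 959), (nat_lit 206)), ((nat_lit 929), (nat_lit 1000), (nat_lit 742))], ((nat_lit 100), (nat_lit 87), (nat_lit 82))⟩, (nat_lit 2589956), (nat_lit 445), (nat_lit 445), (nat_lit 0), (nat_lit 462488), [(nat_lit 4688000000), (nat_lit 7968000000), (nat_lit 11872000000)], [], [(nat_lit 35837565566), (nat_lit 36284263984), (nat_lit 38551637708), (nat_lit 39280091884), (nat_lit 31322073390), (nat_lit 31627946465), (nat_lit 33143458395), (nat_lit 33359290089)], (nat_lit 1271251), (nat_lit 1271251), (nat_lit 1271251), (nat_lit 1271251), (nat_lit 0), (nat_lit 2118750), [(nat_lit 1100000), (nat_lit 1785001), (nat_lit 1271251)], [(nat_lit 18), (nat_lit 59), (nat_lit 373), (nat_lit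 150), (nat_lit 9)]⟩,
 ⟨⟨[(nat_lit 140), (nat_lit 180), (nat_lit 200)], [(nat_lit 0), (nat_lit 0), (nat_lit 2835)], [((nat_lit 0), (nat_lit 0), (nat_lit 0)), ((nat_lit 0), (nat_lit 0), (nat_lit 0)), ((nat_lit 363), (nat_lit 1000), (nat_lit 798))], ((nat_lit 0), (nat_lit 0), (nat_lit 0))⟩, (nat_lit 12106), (nat_lit 300), (nat_lit 852), (nat_lit 3436400), (nat_lit 529803), [(nat_lit 433048000), (nat_lit 618552000), (nat_lit 721600000)], [], [(nat_lit 4074318695), (nat_lit 3448963832), (nat_lit 3226765682), (nat_lit 3042279532), (nat_lit 2890467504), (nat_lit 2878274241), (nat_lit 2517045441), (nat_lit 3212677108)], (nat_lit 780000), (nat_lit 1598751), (nat_lit 111251), (nat_lit 780000), (nat_lit 0), (nat_lit 2118750), [(nat_lit 1977501), (nat_lit 1271251), (nat_lit 1271251)], [(nat_lit 32), (nat_lit 67), (nat_lit 401), (nat_lit 175), (nat_lit 9)]⟩⟩))))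
noncomputable def c17_64 : Tr Lf :=
 (.spl (nat_lit 5) (nat_lit 200) (.spl (nat_lit 5) (nat_lit 120) (.leaf ⟨(nat_lit 0), (nat_lit 1000), (nat_lit 0), (nat_lit 0), (nat_lit 0), (nat_lit 4252), (nat_lit 6231), (nat_lit 0), (nat_lit 0), (nat_lit 0), (nat_lit 0), [], Pd.none, Pd.none, (nat_lit 0), (nat_lit 1), (nat_lit 0), (nat_lit 0), (nat_lit 3), (nat_lit 0), [], [⟨(nat_lit 0), (nat_lit 100), (nat_lit 53), (nat_lit 77), (nat_lit 18590376)⟩], [], [],
 ⟨⟨[(nat_lit 40), (nat_lit 80), (nat_lit 100)], [(nat_lit 0), (nat_lit 1598), (nat_lit 2533)], [((nat_lit 0), (nat_lit 0), (nat_lit 0)), ((nat_lit 1000), (nat_lit 625), (nat_lit 623)), ((nat_lit 1000), (nat_lit 604), (nat_lit 730))], ((nat_lit 60), (nat_lit 100), (nat_lit 78))⟩, (nat_lit 1776211), (nat_lit 245), (nat_lit 245), (nat_lit 0), (nat_lit 221369), [(nat_lit 2032000115), (nat_lit 4688000392), (nat_lit 6250000000)], [], [(nat_lit 25038650795), (nat_lit 26725706227), (nat_lit 34687489470), (nat_lit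 35881286403), (nat_lit 24117801861), (nat_lit 25144678812), (nat_lit 31688922692), (nat_lit 32802442926)], (nat_lit 1271251), (nat_lit 1271251), (nat_lit 1271251), (nat_lit 1271251), (nat_lit 111251), (nat_lit 780000), [(nat_lit 490000), (nat_lit 1100000), (nat_lit 1442501)], [(nat_lit 3), (nat_lit 50), (nat_lit 238), (nat_lit 30), (nat_lit 8)]⟩,
 ⟨⟨[(nat_lit 60), (nat_lit 120), (nat_lit 160)], [(nat_lit 0), (nat_lit 0), (nat_lit 3243)], [((nat_lit 0), (nat_lit 0), (nat_lit 0)), ((nat_lit 0), (nat_lit 0), (nat_lit 0)), ((nat_lit 878), (nat_lit 1000), (nat_lit 945))], ((nat_lit 100), (nat_lit 96), (nat_lit 86))⟩, (nat_lit 1746823), (nat_lit 541), (nat_lit 541), (nat_lit 0), (nat_lit 645482), [(nat_lit 3282000000), (nat_lit 7968000000), (nat_lit 11872000000)], [], [(nat_lit 40803699895), (nat_lit 41937362427), (nat_lit 45983515212), (nat_lit 46803055156), (nat_lit 37665972441), (nat_lit 38648742870), (nat_lit 42223708777), (nat_lit 42951465498)],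 (nat_lit 1271251), (nat_lit 1271251), (nat_lit 1271251), (nat_lit 1271251), (nat_lit 0), (nat_lit 780000), [(nat_lit 780000), (nat_lit 1762501), (nat_lit 1271251)], [(nat_lit 12), (nat_lit 59), (nat_lit 456), (nat_lit 225), (nat_lit 11)]⟩,
 Rw.none⟩) (.leaf ⟨(nat_lit 35), (nat_lit 871), (nat_lit 0), (nat_lit 94), (nat_lit 0), (nat_lit 3885), (nat_lit 6591), (nat_lit 1538), (nat_lit 0), (nat_lit 0), (nat_lit 140000), [((nat_lit 380), [((nat_lit 41), (nat_lit 5), (nat_lit 35))])], ⟨(nat_lit 7), false, true, true, (nat_lit 316), (nat_lit 2236), (nat_lit 3163), [(nat_lit 1649422), (nat_lit 1647962), (nat_lit 1693606), (nat_lit 1693384), (nat_lit 1893385), (nat_lit 1876173), (nat_lit 1937695), (nat_lit 1921722)]⟩, ⟨(nat_lit 3), false, false, false, (nat_lit 110), (nat_lit 2236), (nat_lit 3163), [(nat_lit 1136876), (nat_lit 1152119), (nat_lit 1247334), (nat_lit 1265673), (nat_lit 1289472), (nat_lit 1294870), (nat_lit 1399976), (nat_lit 1408471)]⟩, (nat_lit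 4609108), (nat_lit 38207967), (nat_lit 24268289), (nat_lit 4523744), (nat_lit 3), (nat_lit 0), [], [⟨(nat_lit 0), (nat_lit 100), (nat_lit 53), (nat_lit 77), (nat_lit 63563513)⟩], [], [],
 ⟨⟨[(nat_lit 40), (nat_lit 80), (nat_lit 100)], [(nat_lit 0), (nat_lit 1598), (nat_lit 2533)], [((nat_lit 0), (nat_lit 0), (nat_lit 0)), ((nat_lit 1000), (nat_lit 625), (nat_lit 623)), ((nat_lit 1000), (nat_lit 604), (nat_lit 730))], ((nat_lit 60), (nat_lit 100), (nat_lit 78))⟩, (nat_lit 1373982), (nat_lit 245), (nat_lit 245), (nat_lit 0), (nat_lit 221369), [(nat_lit 1896298002), (nat_lit 3926274005), (nat_lit 5059300000)], [(nat_lit 0), (nat_lit 0), (nat_lit 0)], [(nat_lit 25277462750), (nat_lit 26361790679), (nat_lit 33664138413), (nat_lit 34810914297), (nat_lit 24578613767), (nat_lit 25564773655), (nat_lit 31053656335), (nat_lit 32124446943)], (nat_lit 1271251), (nat_lit 1271251), (nat_lit 1271251), (nat_lit 1271251), (nat_lit 111251), (nat_lit 780000), [(nat_lit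 490000), (nat_lit 1100000), (nat_lit 1442501)], [(nat_lit 3), (nat_lit 50), (nat_lit 238), (nat_lit 30), (nat_lit 8)]⟩,
 ⟨⟨[(nat_lit 60), (nat_lit 120), (nat_lit 160)], [(nat_lit 0), (nat_lit 0), (nat_lit 3243)], [((nat_lit 0), (nat_lit 0), (nat_lit 0)), ((nat_lit 0), (nat_lit 0), (nat_lit 0)), ((nat_lit 878), (nat_lit 1000), (nat_lit 945))], ((nat_lit 100), (nat_lit 96), (nat_lit 86))⟩, (nat_lit 1675608), (nat_lit 509), (nat_lit 509), (nat_lit 0), (nat_lit 773027), [(nat_lit 3167130000), (nat_lit 7689120000), (nat_lit 11456480000)], [], [(nat_lit 34521439143), (nat_lit 35504023440), (nat_lit 39248272892), (nat_lit 39943500288), (nat_lit 34240312500), (nat_lit 35073633352), (nat_lit 38596350932), (nat_lit 39174651720)], (nat_lit 1271251), (nat_lit 1271251), (nat_lit 1271251), (nat_lit 1271251), (nat_lit 780000), (nat_lit 1435001), [(nat_lit 780000), (nat_lit 1762501), (nat_lit 1271251)], [(nat_lit 12), (nat_lit 59), (nat_lit 483), (nat_lit 250),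 (nat_lit 12)]⟩,
 ⟨⟨[(nat_lit 140), (nat_lit 180), (nat_lit 200)], [(nat_lit 0), (nat_lit 0), (nat_lit 2835)], [((nat_lit 0), (nat_lit 0), (nat_lit 0)), ((nat_lit 0), (nat_lit 0), (nat_lit 0)), ((nat_lit 363), (nat_lit 1000), (nat_lit 798))], ((nat_lit 0), (nat_lit 0), (nat_lit 0))⟩, (nat_lit 25862), (nat_lit 300), (nat_lit 962), (nat_lit 7341407), (nat_lit 1023294), [(nat_lit 925148000), (nat_lit 1321452000), (nat_lit 1541600000)], [], [(nat_lit 6837293522), (nat_lit 5975250595), (nat_lit 5286969362), (nat_lit 5134671485), (nat_lit 5962525095), (nat_lit 5779897829), (nat_lit 4834186838), (nat_lit 6509997277)], (nat_lit 780000), (nat_lit 1598751), (nat_lit 111251), (nat_lit 780000), (nat_lit 780000), (nat_lit 1435001), [(nat_lit 1977501), (nat_lit 1271251), (nat_lit 1271251)], [(nat_lit 32), (nat_lit 67), (nat_lit 373), (nat_lit 150), (nat_lit 8)]⟩⟩)) (.trX (nat_lit 3) (nat_lit 5) (nat_lit 4) (nat_lit 100) (nat_lit 40) (nat_lit 92) (nat_lit 390)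 (.spl (nat_lit 0) (nat_lit 370) (.leaf ⟨(nat_lit 35), (nat_lit 636), (nat_lit 0), (nat_lit 329), (nat_lit 0), (nat_lit 3708), (nat_lit 8347), (nat_lit 5225), (nat_lit 0), (nat_lit 0), (nat_lit 140000), [((nat_lit 370), [((nat_lit 41), (nat_lit 5), (nat_lit 35))])], ⟨(nat_lit 7), false, true, true, (nat_lit 314), (nat_lit 2738), (nat_lit 3163), [(nat_lit 1649542), (nat_lit 1648700), (nat_lit 1693828), (nat_lit 1693511), (nat_lit 1878147), (nat_lit 1870209), (nat_lit 1922456), (nat_lit 1915044)]⟩, ⟨(nat_lit 3), false, false, false, (nat_lit 109), (nat_lit 2738), (nat_lit 3163), [(nat_lit 1137055), (nat_lit 1144520), (nat_lit 1247770), (nat_lit 1256546), (nat_lit 1289472), (nat_lit 1292206), (nat_lit 1400199), (nat_lit 1404246)]⟩, (nat_lit 4592554), (nat_lit 38432953), (nat_lit 24097053), (nat_lit 4469994), (nat_lit 5), (nat_lit 0), [], [⟨(nat_lit 0), (nat_lit 100), (nat_lit 65), (nat_lit 54), (nat_lit 345402489)⟩], [], [⟨(nat_lit 1), (nat_lit 100),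 (nat_lit 84), (nat_lit 78), (nat_lit 103797201)⟩],
 ⟨⟨[(nat_lit 40), (nat_lit 80), (nat_lit 100)], [(nat_lit 0), (nat_lit 1598), (nat_lit 2533)], [((nat_lit 0), (nat_lit 0), (nat_lit 0)), ((nat_lit 1000), (nat_lit 625), (nat_lit 623)), ((nat_lit 1000), (nat_lit 604), (nat_lit 730))], ((nat_lit 60), (nat_lit 100), (nat_lit 78))⟩, (nat_lit 1799945), (nat_lit 234), (nat_lit 234), (nat_lit 0), (nat_lit 200627), [(nat_lit 1896298013), (nat_lit 3983696531), (nat_lit 5059300000)], [(nat_lit 0), (nat_lit 0), (nat_lit 0)], [(nat_lit 24186103340), (nat_lit 24772678999), (nat_lit 32531051708), (nat_lit 33112472497), (nat_lit 23621452202), (nat_lit 24153921837), (nat_lit 30153843623), (nat_lit 30696019804)], (nat_lit 1271251), (nat_lit 1271251), (nat_lit 1271251), (nat_lit 1271251), (nat_lit 111251), (nat_lit 780000), [(nat_lit 490000), (nat_lit 1100000), (nat_lit 1442501)], [(nat_lit 3), (nat_lit 50), (nat_lit 238), (nat_lit 30), (nat_lit 8)]⟩,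
 ⟨⟨[(nat_lit 60), (nat_lit 120), (nat_lit 160)], [(nat_lit 0), (nat_lit 0), (nat_lit 3243)], [((nat_lit 0), (nat_lit 0), (nat_lit 0)), ((nat_lit 0), (nat_lit 0), (nat_lit 0)), ((nat_lit 878), (nat_lit 1000), (nat_lit 945))], ((nat_lit 100), (nat_lit 96), (nat_lit 86))⟩, (nat_lit 1682181), (nat_lit 407), (nat_lit 407), (nat_lit 0), (nat_lit 672435), [(nat_lit 3167130000), (nat_lit 7689120000), (nat_lit 11456480000)], [], [(nat_lit 28893327465), (nat_lit 29737305944), (nat_lit 33164756060), (nat_lit 33737358809), (nat_lit 32313636979), (nat_lit 32876003943), (nat_lit 37590382500), (nat_lit 38643816972)], (nat_lit 1271251), (nat_lit 1271251), (nat_lit 1271251), (nat_lit 1271251), (nat_lit 1271251), (nat_lit 1271251), [(nat_lit 780000), (nat_lit 1762501), (nat_lit 1271251)], [(nat_lit 12), (nat_lit 59), (nat_lit 538), (nat_lit 300), (nat_lit 13)]⟩,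
 ⟨⟨[(nat_lit 140), (nat_lit 180), (nat_lit 200)], [(nat_lit 0), (nat_lit 0), (nat_lit 2835)], [((nat_lit 0), (nat_lit 0), (nat_lit 0)), ((nat_lit 0), (nat_lit 0), (nat_lit 0)), ((nat_lit 363), (nat_lit 1000), (nat_lit 798))], ((nat_lit 0), (nat_lit 0), (nat_lit 0))⟩, (nat_lit 90519), (nat_lit 300), (nat_lit 869), (nat_lit 25694900), (nat_lit 899646), [(nat_lit 3238018000), (nat_lit 4625082000), (nat_lit 5395600000)], [], [(nat_lit 20838308595), (nat_lit 19541622038), (nat_lit 17237171991), (nat_lit 18949967081), (nat_lit 21755373000), (nat_lit 20033930817), (nat_lit 17788283790), (nat_lit 16122220804)], (nat_lit 780000), (nat_lit 1598751), (nat_lit 111251), (nat_lit 780000), (nat_lit 1271251), (nat_lit 1271251), [(nat_lit 1977501), (nat_lit 1271251), (nat_lit 1271251)], [(nat_lit 32), (nat_lit 67), (nat_lit 428), (nat_lit 200), (nat_lit 9)]⟩⟩) (.trZ (nat_lit 0) (nat_lit 2) (nat_lit 4) (nat_lit 100) (nat_lit 57) (nat_lit 62) (nat_lit 30) (.spl (nat_lit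 0) (nat_lit 375) (.leaf ⟨(nat_lit 35), (nat_lit 635), (nat_lit 0), (nat_lit 330), (nat_lit 0), (nat_lit 3736), (nat_lit 8372), (nat_lit 5276), (nat_lit 0), (nat_lit 0), (nat_lit 140000), [((nat_lit 375), [((nat_lit 41), (nat_lit 5), (nat_lit 35))])], ⟨(nat_lit 7), false, true, true, (nat_lit 312), (nat_lit 2500), (nat_lit 2739), [(nat_lit 1648720), (nat_lit 1648376), (nat_lit 1693546), (nat_lit 1693529), (nat_lit 1870209), (nat_lit 1866128), (nat_lit 1915044), (nat_lit 1911289)]⟩, ⟨(nat_lit 3), false, false, false, (nat_lit 113), (nat_lit 2500), (nat_lit 2739), [(nat_lit 1159306), (nat_lit 1162890), (nat_lit 1271371), (nat_lit 1275771), (nat_lit 1292206), (nat_lit 1293547), (nat_lit 1404275), (nat_lit 1406432)]⟩, (nat_lit 4640746), (nat_lit 38347455), (nat_lit 23891430), (nat_lit 4761115), (nat_lit 5), (nat_lit 0), [], [⟨(nat_lit 0), (nat_lit 100), (nat_lit 57), (nat_lit 62), (nat_lit 378447019)⟩], [], [⟨(nat_lit 1), (nat_lit 100), (nat_lit 85),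 (nat_lit 81), (nat_lit 102815114)⟩],
 ⟨⟨[(nat_lit 40), (nat_lit 80), (nat_lit 100)], [(nat_lit 0), (nat_lit 2008), (nat_lit 2969)], [((nat_lit 0), (nat_lit 0), (nat_lit 0)), ((nat_lit 1000), (nat_lit 540), (nat_lit 733)), ((nat_lit 1000), (nat_lit 536), (nat_lit 751))], ((nat_lit 53), (nat_lit 100), (nat_lit 79))⟩, (nat_lit 1517133), (nat_lit 232), (nat_lit 232), (nat_lit 0), (nat_lit 210164), [(nat_lit 1896298009), (nat_lit 4042447358), (nat_lit 5059300000)], [(nat_lit 0), (nat_lit 0), (nat_lit 0)], [(nat_lit 24626215595), (nat_lit 24919134045), (nat_lit 32814754117), (nat_lit 33105122329), (nat_lit 24140052656), (nat_lit 24407280591), (nat_lit 30744198893), (nat_lit 31016150007)], (nat_lit 1271251), (nat_lit 1271251), (nat_lit 1271251), (nat_lit 1271251), (nat_lit 169688), (nat_lit 780000), [(nat_lit 490000), (nat_lit 1100000), (nat_lit 1442501)], [(nat_lit 3), (nat_lit 50), (nat_lit 238), (nat_lit 30), (nat_lit 8)]⟩,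
 ⟨⟨[(nat_lit 60), (nat_lit 120), (nat_lit 160)], [(nat_lit 0), (nat_lit 0), (nat_lit 3243)], [((nat_lit 0), (nat_lit 0), (nat_lit 0)), ((nat_lit 0), (nat_lit 0), (nat_lit 0)), ((nat_lit 878), (nat_lit 1000), (nat_lit 945))], ((nat_lit 100), (nat_lit 96), (nat_lit 86))⟩, (nat_lit 1682272), (nat_lit 424), (nat_lit 424), (nat_lit 0), (nat_lit 721043), [(nat_lit 3167130000), (nat_lit 7689120000), (nat_lit 11456480000)], [], [(nat_lit 28817211327), (nat_lit 29661337506), (nat_lit 33092213069), (nat_lit 33664280859), (nat_lit 32237769873), (nat_lit 32799586231), (nat_lit 37622646859), (nat_lit 38676450495)], (nat_lit 1271251), (nat_lit 1271251), (nat_lit 1271251), (nat_lit 1271251), (nat_lit 1271251), (nat_lit 1271251), [(nat_lit 780000), (nat_lit 1762501), (nat_lit 1271251)], [(nat_lit 12), (nat_lit 59), (nat_lit 538), (nat_lit 300), (nat_lit 13)]⟩,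
 ⟨⟨[(nat_lit 140), (nat_lit 180), (nat_lit 200)], [(nat_lit 0), (nat_lit 0), (nat_lit 2835)], [((nat_lit 0), (nat_lit 0), (nat_lit 0)), ((nat_lit 0), (nat_lit 0), (nat_lit 0)), ((nat_lit 363), (nat_lit 1000), (nat_lit 798))], ((nat_lit 0), (nat_lit 0), (nat_lit 0))⟩, (nat_lit 90794), (nat_lit 300), (nat_lit 887), (nat_lit 25773000), (nat_lit 961053), [(nat_lit 3247860000), (nat_lit 4639140000), (nat_lit 5412000000)], [], [(nat_lit 20416946796), (nat_lit 19116980169), (nat_lit 17218986844), (nat_lit 19028384255), (nat_lit 21331976001), (nat_lit 19586945346), (nat_lit 17817504013), (nat_lit 16131529815)], (nat_lit 780000), (nat_lit 1598751), (nat_lit 169688), (nat_lit 780000), (nat_lit 1271251), (nat_lit 1271251), [(nat_lit 1977501), (nat_lit 1271251), (nat_lit 1271251)], [(nat_lit 32), (nat_lit 67), (nat_lit 428), (nat_lit 200), (nat_lit 9)]⟩⟩) (.trZ (nat_lit 0) (nat_lit 2) (nat_lit 4) (nat_lit 100) (nat_lit 53) (nat_lit 66) (nat_lit 40) (.leaf ⟨(nat_lit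 248), (nat_lit 458), (nat_lit 0), (nat_lit 294), (nat_lit 0), (nat_lit 3549), (nat_lit 5962), (nat_lit 4420), (nat_lit 0), (nat_lit 0), (nat_lit 125800), [((nat_lit 380), [((nat_lit 25), (nat_lit 1), (nat_lit 115)), ((nat_lit 41), (nat_lit 2), (nat_lit 133))])], ⟨(nat_lit 7), false, true, true, (nat_lit 312), (nat_lit 2236), (nat_lit 2500), [(nat_lit 1648374), (nat_lit 1648099), (nat_lit 1693523), (nat_lit 1693636), (nat_lit 1866128), (nat_lit 1861919), (nat_lit 1911289), (nat_lit 1907468)]⟩, ⟨(nat_lit 3), false, false, false, (nat_lit 117), (nat_lit 2236), (nat_lit 2500), [(nat_lit 1177401), (nat_lit 1180823), (nat_lit 1290275), (nat_lit 1294664), (nat_lit 1293547), (nat_lit 1294870), (nat_lit 1406424), (nat_lit 1408716)]⟩, (nat_lit 4682093), (nat_lit 38249550), (nat_lit 23735428), (nat_lit 5015022), (nat_lit 5), (nat_lit 0), [], [⟨(nat_lit 0), (nat_lit 100), (nat_lit 53), (nat_lit 66), (nat_lit 455325966)⟩], [], [⟨(nat_lit 1), (nat_lit 100), (nat_lit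 86), (nat_lit 84), (nat_lit 23681308)⟩],
 ⟨⟨[(nat_lit 40), (nat_lit 80), (nat_lit 100)], [(nat_lit 0), (nat_lit 2244), (nat_lit 3243)], [((nat_lit 0), (nat_lit 0), (nat_lit 0)), ((nat_lit 1000), (nat_lit 495), (nat_lit 771)), ((nat_lit 1000), (nat_lit 493), (nat_lit 781))], ((nat_lit 49), (nat_lit 100), (nat_lit 80))⟩, (nat_lit 1356088), (nat_lit 229), (nat_lit 229), (nat_lit 0), (nat_lit 219836), [(nat_lit 1733911202), (nat_lit 3755079842), (nat_lit 4710232800)], [(nat_lit 0), (nat_lit 0), (nat_lit 0)], [(nat_lit 24402826526), (nat_lit 24685708180), (nat_lit 32252891556), (nat_lit 32535675478), (nat_lit 24154017569), (nat_lit 24460159131), (nat_lit 30688618759), (nat_lit 30954806112)], (nat_lit 1271251), (nat_lit 1271251), (nat_lit 1271251), (nat_lit 1271251), (nat_lit 230000), (nat_lit 780000), [(nat_lit 490000), (nat_lit 1100000), (nat_lit 1442501)], [(nat_lit 3), (nat_lit 50), (nat_lit 238), (nat_lit 30), (nat_lit 8)]⟩,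
 ⟨⟨[(nat_lit 60), (nat_lit 120), (nat_lit 160)], [(nat_lit 0), (nat_lit 0), (nat_lit 3243)], [((nat_lit 0), (nat_lit 0), (nat_lit 0)), ((nat_lit 0), (nat_lit 0), (nat_lit 0)), ((nat_lit 878), (nat_lit 1000), (nat_lit 945))], ((nat_lit 100), (nat_lit 96), (nat_lit 86))⟩, (nat_lit 1308850), (nat_lit 469), (nat_lit 469), (nat_lit 0), (nat_lit 771375), [(nat_lit 2468064000), (nat_lit 5991936000), (nat_lit 8927744000)], [], [(nat_lit 24168058128), (nat_lit 24822454760), (nat_lit 27418940494), (nat_lit 27876766148), (nat_lit 26827832298), (nat_lit 27278021067), (nat_lit 28803232142), (nat_lit 29405860698)], (nat_lit 1271251), (nat_lit 1271251), (nat_lit 1271251), (nat_lit 1271251), (nat_lit 1271251), (nat_lit 1271251), [(nat_lit 780000), (nat_lit 1762501), (nat_lit 1271251)], [(nat_lit 12), (nat_lit 59), (nat_lit 538), (nat_lit 300), (nat_lit 13)]⟩,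
 ⟨⟨[(nat_lit 140), (nat_lit 180), (nat_lit 200)], [(nat_lit 0), (nat_lit 0), (nat_lit 2835)], [((nat_lit 0), (nat_lit 0), (nat_lit 0)), ((nat_lit 0), (nat_lit 0), (nat_lit 0)), ((nat_lit 363), (nat_lit 1000), (nat_lit 798))], ((nat_lit 0), (nat_lit 0), (nat_lit 0))⟩, (nat_lit 80889), (nat_lit 300), (nat_lit 905), (nat_lit 22961400), (nat_lit 1023294), [(nat_lit 2893548000), (nat_lit 4133052000), (nat_lit 4821600000)], [], [(nat_lit 18196264664), (nat_lit 16746615555), (nat_lit 15904145156), (nat_lit 16786316089), (nat_lit 18583712538), (nat_lit 17148566089), (nat_lit 16072194144), (nat_lit 14688705484)], (nat_lit 780000), (nat_lit 1598751), (nat_lit 230000), (nat_lit 780000), (nat_lit 1271251), (nat_lit 1271251), [(nat_lit 1977501), (nat_lit 1271251), (nat_lit 1271251)], [(nat_lit 32), (nat_lit 67), (nat_lit 428), (nat_lit 200), (nat_lit 9)]⟩⟩)))))))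
noncomputable def c17_65 : Tr Lf :=
 (.stt (nat_lit 1) (.spl (nat_lit 0) (nat_lit 370) (.leaf ⟨(nat_lit 1000), (nat_lit 0), (nat_lit 0), (nat_lit 0), (nat_lit 4939), (nat_lit 3768), (nat_lit 0), (nat_lit 0), (nat_lit 0), (nat_lit 0), (nat_lit 250000), [((nat_lit 370), [((nat_lit 25), (nat_lit 0), (nat_lit 1000))])], ⟨(nat_lit 6), false, false, false, (nat_lit 212), (nat_lit 2738), (nat_lit 3163), [(nat_lit 1407099), (nat_lit 1411881), (nat_lit 1451384), (nat_lit 1456691), (nat_lit 1605257), (nat_lit 1603890), (nat_lit 1649542), (nat_lit 1648700)]⟩, ⟨(nat_lit 3), false, false, true, (nat_lit 154), (nat_lit 2738), (nat_lit 3163), [(nat_lit 1289472), (nat_lit 1292206), (nat_lit 1355914), (nat_lit 1359435), (nat_lit 1411379), (nat_lit 1410329), (nat_lit 1477844), (nat_lit 1477581)]⟩, (nat_lit 4590446), (nat_lit 44766834), (nat_lit 13865044), (nat_lit 8368122), (nat_lit 0), (nat_lit 0), [], [], [], [],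
 ⟨⟨[(nat_lit 40), (nat_lit 80), (nat_lit 100)], [(nat_lit 0), (nat_lit 1598), (nat_lit 2533)], [((nat_lit 0), (nat_lit 0), (nat_lit 0)), ((nat_lit 1000), (nat_lit 625), (nat_lit 623)), ((nat_lit 1000), (nat_lit 604), (nat_lit 730))], ((nat_lit 60), (nat_lit 100), (nat_lit 78))⟩, (nat_lit 0), (nat_lit 69), (nat_lit 69), (nat_lit 0), (nat_lit 0), [(nat_lit 1555614662), (nat_lit 1715600009), (nat_lit 2118000000)], [(nat_lit 0), (nat_lit 0), (nat_lit 0)], [(nat_lit 19518068621), (nat_lit 20365942996), (nat_lit 22312691009), (nat_lit 22999742051), (nat_lit 21071909035), (nat_lit 21821063862), (nat_lit 23501064081), (nat_lit 24111950035)], (nat_lit 0), (nat_lit 0), (nat_lit 0), (nat_lit 0), (nat_lit 0), (nat_lit 0), [], [(nat_lit 3), (nat_lit 50), (nat_lit 345), (nat_lit 125), (nat_lit 12)]⟩,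
 Rw.none,
 Rw.none⟩) (.trZ (nat_lit 0) (nat_lit 1) (nat_lit 3) (nat_lit 100) (nat_lit 54) (nat_lit 96) (nat_lit 130) (.leaf ⟨(nat_lit 1000), (nat_lit 0), (nat_lit 0), (nat_lit 0), (nat_lit 758), (nat_lit 3684), (nat_lit 0), (nat_lit 0), (nat_lit 0), (nat_lit 0), (nat_lit 250000), [((nat_lit 380), [((nat_lit 25), (nat_lit 0), (nat_lit 1000))])], ⟨(nat_lit 6), false, false, false, (nat_lit 218), (nat_lit 2236), (nat_lit 2739), [(nat_lit 1441375), (nat_lit 1445669), (nat_lit 1486169), (nat_lit 1491177), (nat_lit 1603890), (nat_lit 1602558), (nat_lit 1648684), (nat_lit 1648065)]⟩, ⟨(nat_lit 3), false, false, true, (nat_lit 154), (nat_lit 2236), (nat_lit 2739), [(nat_lit 1292206), (nat_lit 1294870), (nat_lit 1359410), (nat_lit 1363145), (nat_lit 1410329), (nat_lit 1408901), (nat_lit 1477581), (nat_lit 1477224)]⟩, (nat_lit 4643847), (nat_lit 44180805), (nat_lit 14468772), (nat_lit 8350423), (nat_lit 0), (nat_lit 0), [], [], [], [],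
 ⟨⟨[(nat_lit 40), (nat_lit 80), (nat_lit 100)], [(nat_lit 0), (nat_lit 2008), (nat_lit 2969)], [((nat_lit 0), (nat_lit 0), (nat_lit 0)), ((nat_lit 1000), (nat_lit 540), (nat_lit 733)), ((nat_lit 1000), (nat_lit 536), (nat_lit 751))], ((nat_lit 53), (nat_lit 100), (nat_lit 79))⟩, (nat_lit 0), (nat_lit 72), (nat_lit 72), (nat_lit 0), (nat_lit 0), [(nat_lit 1545465103), (nat_lit 1715600022), (nat_lit 2118000000)], [(nat_lit 0), (nat_lit 0), (nat_lit 0)], [(nat_lit 20551607364), (nat_lit 21367199290), (nat_lit 23027308743), (nat_lit 23706677964), (nat_lit 21987639194), (nat_lit 22709158107), (nat_lit 24154677635), (nat_lit 24759483556)], (nat_lit 0), (nat_lit 0), (nat_lit 0), (nat_lit 0), (nat_lit 0), (nat_lit 0), [], [(nat_lit 3), (nat_lit 50), (nat_lit 345), (nat_lit 125), (nat_lit 12)]⟩,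
 Rw.none,
 Rw.none⟩))) (.stt (nat_lit 2) (.spl (nat_lit 5) (nat_lit 200) (.leaf ⟨(nat_lit 0), (nat_lit 992), (nat_lit 0), (nat_lit 8), (nat_lit 12148), (nat_lit 4870), (nat_lit 8308), (nat_lit 122), (nat_lit 0), (nat_lit 0), (nat_lit 0), [], Pd.none, Pd.none, (nat_lit 0), (nat_lit 1), (nat_lit 0), (nat_lit 0), (nat_lit 3), (nat_lit 0), [⟨(nat_lit 0), (nat_lit 98), (nat_lit 54), (nat_lit 100), (nat_lit 630057622)⟩], [], [], [],
 ⟨⟨[(nat_lit 40), (nat_lit 80), (nat_lit 100)], [(nat_lit 0), (nat_lit 1598), (nat_lit 2533)], [((nat_lit 0), (nat_lit 0), (nat_lit 0)), ((nat_lit 1000), (nat_lit 625), (nat_lit 623)), ((nat_lit 1000), (nat_lit 604), (nat_lit 730))], ((nat_lit 60), (nat_lit 100), (nat_lit 78))⟩, (nat_lit 1578686), (nat_lit 221), (nat_lit 221), (nat_lit 0), (nat_lit 360703), [(nat_lit 2032000013), (nat_lit 4688000027), (nat_lit 6250000000)], [], [(nat_lit 20916841618), (nat_lit 22612677019), (nat_lit 23184329082), (nat_lit 24877118155), (nat_lit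 22063403031), (nat_lit 23718430352), (nat_lit 24063074852), (nat_lit 25691957080)], (nat_lit 1271251), (nat_lit 1271251), (nat_lit 704688), (nat_lit 1756876), (nat_lit 780000), (nat_lit 1435001), [(nat_lit 490000), (nat_lit 1100000), (nat_lit 1442501)], [(nat_lit 3), (nat_lit 50), (nat_lit 345), (nat_lit 125), (nat_lit 12)]⟩,
 ⟨⟨[(nat_lit 80), (nat_lit 140), (nat_lit 180)], [(nat_lit 0), (nat_lit 0), (nat_lit 3656)], [((nat_lit 0), (nat_lit 0), (nat_lit 0)), ((nat_lit 0), (nat_lit 0), (nat_lit 0)), ((nat_lit 637), (nat_lit 1000), (nat_lit 908))], ((nat_lit 100), (nat_lit 78), (nat_lit 80))⟩, (nat_lit 3225678), (nat_lit 365), (nat_lit 365), (nat_lit 0), (nat_lit 0), [(nat_lit 4688000000), (nat_lit 9842000000), (nat_lit 14058000000)], [], [(nat_lit 27945484734), (nat_lit 30797114455), (nat_lit 29257332368), (nat_lit 32132068944), (nat_lit 21923924170), (nat_lit 24892338986), (nat_lit 24436500376), (nat_lit 26731615052)], (nat_lit 0), (nat_lit 0),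 (nat_lit 0), (nat_lit 0), (nat_lit 0), (nat_lit 0), [], [(nat_lit 19), (nat_lit 63), (nat_lit 428), (nat_lit 200), (nat_lit 10)]⟩,
 ⟨⟨[(nat_lit 140), (nat_lit 180), (nat_lit 200)], [(nat_lit 0), (nat_lit 0), (nat_lit 2835)], [((nat_lit 0), (nat_lit 0), (nat_lit 0)), ((nat_lit 0), (nat_lit 0), (nat_lit 0)), ((nat_lit 363), (nat_lit 1000), (nat_lit 798))], ((nat_lit 0), (nat_lit 0), (nat_lit 0))⟩, (nat_lit 2201), (nat_lit 300), (nat_lit 1466), (nat_lit 624801), (nat_lit 2102387), [(nat_lit 78736000), (nat_lit 112464000), (nat_lit 131200000)], [], [(nat_lit 609923139), (nat_lit 543052253), (nat_lit 533283776), (nat_lit 505837554), (nat_lit 429293910), (nat_lit 475192992), (nat_lit 502449020), (nat_lit 588795127)], (nat_lit 780000), (nat_lit 1271251), (nat_lit 780000), (nat_lit 1435001), (nat_lit 0), (nat_lit 1412501), [(nat_lit 1977501), (nat_lit 1271251), (nat_lit 1271251)], [(nat_lit 32), (nat_lit 67), (nat_lit 439), (nat_lit 150), (nat_lit 10)]⟩⟩)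 (.leaf ⟨(nat_lit 852), (nat_lit 91), (nat_lit 0), (nat_lit 57), (nat_lit 0), (nat_lit 3816), (nat_lit 1554), (nat_lit 657), (nat_lit 0), (nat_lit 0), (nat_lit 428000), [((nat_lit 380), [((nat_lit 25), (nat_lit 1), (nat_lit 416)), ((nat_lit 41), (nat_lit 2), (nat_lit 436))])], ⟨(nat_lit 6), true, false, false, (nat_lit 212), (nat_lit 2236), (nat_lit 3163), [(nat_lit 1406804), (nat_lit 1416903), (nat_lit 1450987), (nat_lit 1462324), (nat_lit 1605240), (nat_lit 1602541), (nat_lit 1649422), (nat_lit 1647962)]⟩, ⟨(nat_lit 3), false, false, true, (nat_lit 154), (nat_lit 2236), (nat_lit 3163), [(nat_lit 1289472), (nat_lit 1294870), (nat_lit 1355794), (nat_lit 1363050), (nat_lit 1411379), (nat_lit 1408901), (nat_lit 1477844), (nat_lit 1477224)]⟩, (nat_lit 4595564), (nat_lit 44719912), (nat_lit 13897974), (nat_lit 8382114), (nat_lit 5), (nat_lit 0), [⟨(nat_lit 0), (nat_lit 98), (nat_lit 54), (nat_lit 100), (nat_lit 76248050)⟩, ⟨(nat_lit 0), (nat_lit 92),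 (nat_lit 44), (nat_lit 100), (nat_lit 519179)⟩], [], [⟨(nat_lit 1), (nat_lit 55), (nat_lit 99), (nat_lit 100), (nat_lit 20726785)⟩], [],
 ⟨⟨[(nat_lit 40), (nat_lit 80), (nat_lit 100)], [(nat_lit 0), (nat_lit 1598), (nat_lit 2533)], [((nat_lit 0), (nat_lit 0), (nat_lit 0)), ((nat_lit 1000), (nat_lit 625), (nat_lit 623)), ((nat_lit 1000), (nat_lit 604), (nat_lit 730))], ((nat_lit 60), (nat_lit 100), (nat_lit 78))⟩, (nat_lit 17019), (nat_lit 221), (nat_lit 221), (nat_lit 0), (nat_lit 360703), [(nat_lit 1405541002), (nat_lit 1067501011), (nat_lit 994244800)], [(nat_lit 0), (nat_lit 0), (nat_lit 0)], [(nat_lit 19982417429), (nat_lit 21393607761), (nat_lit 22362206369), (nat_lit 23820529004), (nat_lit 21260598409), (nat_lit 22628750739), (nat_lit 23433653905), (nat_lit 24863266444)], (nat_lit 1271251), (nat_lit 1271251), (nat_lit 704688), (nat_lit 1756876), (nat_lit 780000), (nat_lit 1435001), [(nat_lit 490000), (nat_lit 1100000), (nat_lit 1442501)],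 [(nat_lit 3), (nat_lit 50), (nat_lit 345), (nat_lit 125), (nat_lit 12)]⟩,
 ⟨⟨[(nat_lit 80), (nat_lit 140), (nat_lit 180)], [(nat_lit 0), (nat_lit 0), (nat_lit 3656)], [((nat_lit 0), (nat_lit 0), (nat_lit 0)), ((nat_lit 0), (nat_lit 0), (nat_lit 0)), ((nat_lit 637), (nat_lit 1000), (nat_lit 908))], ((nat_lit 100), (nat_lit 78), (nat_lit 80))⟩, (nat_lit 334708), (nat_lit 201), (nat_lit 201), (nat_lit 0), (nat_lit 0), [(nat_lit 693824000), (nat_lit 1456616000), (nat_lit 2080584000)], [], [(nat_lit 3637869605), (nat_lit 4009289878), (nat_lit 3685572040), (nat_lit 3961658566), (nat_lit 5382813470), (nat_lit 5536035016), (nat_lit 5073498608), (nat_lit 5239072868)], (nat_lit 0), (nat_lit 0), (nat_lit 0), (nat_lit 0), (nat_lit 0), (nat_lit 0), [], [(nat_lit 19), (nat_lit 63), (nat_lit 483), (nat_lit 250), (nat_lit 11)]⟩,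
 ⟨⟨[(nat_lit 140), (nat_lit 180), (nat_lit 200)], [(nat_lit 0), (nat_lit 0), (nat_lit 2835)], [((nat_lit 0), (nat_lit 0), (nat_lit 0)), ((nat_lit 0), (nat_lit 0), (nat_lit 0)), ((nat_lit 363), (nat_lit 1000), (nat_lit 798))], ((nat_lit 0), (nat_lit 0), (nat_lit 0))⟩, (nat_lit 15683), (nat_lit 300), (nat_lit 1339), (nat_lit 4451700), (nat_lit 2102387), [(nat_lit 560994000), (nat_lit 801306000), (nat_lit 934800000)], [], [(nat_lit 3662713953), (nat_lit 3514485056), (nat_lit 3463572876), (nat_lit 3315872096), (nat_lit 3448500168), (nat_lit 3294035241), (nat_lit 3241111158), (nat_lit 3091477508)], (nat_lit 780000), (nat_lit 1271251), (nat_lit 780000), (nat_lit 1435001), (nat_lit 1271251), (nat_lit 1271251), [(nat_lit 1977501), (nat_lit 1271251), (nat_lit 1271251)], [(nat_lit 32), (nat_lit 67), (nat_lit 433), (nat_lit 200), (nat_lit 9)]⟩⟩)) (.spl (nat_lit 5) (nat_lit 120) (.spl (nat_lit 3) (nat_lit 160) (.leaf ⟨(nat_lit 917), (nat_lit 83), (nat_lit 0),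 (nat_lit 0), (nat_lit 2916), (nat_lit 3808), (nat_lit 1065), (nat_lit 0), (nat_lit 0), (nat_lit 0), (nat_lit 423800), [((nat_lit 380), [((nat_lit 25), (nat_lit 1), (nat_lit 632)), ((nat_lit 41), (nat_lit 2), (nat_lit 285))])], ⟨(nat_lit 6), false, false, false, (nat_lit 188), (nat_lit 2236), (nat_lit 3163), [(nat_lit 1406804), (nat_lit 1416903), (nat_lit 1450987), (nat_lit 1462324), (nat_lit 1483125), (nat_lit 1488302), (nat_lit 1527308), (nat_lit 1533723)]⟩, ⟨(nat_lit 3), false, false, true, (nat_lit 154), (nat_lit 2236), (nat_lit 3163), [(nat_lit 1289472), (nat_lit 1294870), (nat_lit 1355794), (nat_lit 1363050), (nat_lit 1411379), (nat_lit 1408901), (nat_lit 1477844), (nat_lit 1477224)]⟩, (nat_lit 4399507), (nat_lit 46684453), (nat_lit 11758431), (nat_lit 8557116), (nat_lit 3), (nat_lit 0), [⟨(nat_lit 0), (nat_lit 98), (nat_lit 54), (nat_lit 100), (nat_lit 175715334)⟩], [], [], [],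
 ⟨⟨[(nat_lit 40), (nat_lit 80), (nat_lit 100)], [(nat_lit 0), (nat_lit 1598), (nat_lit 2533)], [((nat_lit 0), (nat_lit 0), (nat_lit 0)), ((nat_lit 1000), (nat_lit 625), (nat_lit 623)), ((nat_lit 1000), (nat_lit 604), (nat_lit 730))], ((nat_lit 60), (nat_lit 100), (nat_lit 78))⟩, (nat_lit 790), (nat_lit 161), (nat_lit 161), (nat_lit 0), (nat_lit 224517), [(nat_lit 1391814811), (nat_lit 976731211), (nat_lit 893552400)], [(nat_lit 0), (nat_lit 0), (nat_lit 0)], [(nat_lit 19860339672), (nat_lit 21334638093), (nat_lit 20293138092), (nat_lit 21632990450), (nat_lit 21160333913), (nat_lit 22620479926), (nat_lit 21482206458), (nat_lit 22803596228)], (nat_lit 1271251), (nat_lit 1271251), (nat_lit 704688), (nat_lit 1100000), (nat_lit 780000), (nat_lit 1435001), [(nat_lit 490000), (nat_lit 1100000), (nat_lit 1442501)], [(nat_lit 3), (nat_lit 50), (nat_lit 317), (nat_lit 100), (nat_lit 11)]⟩,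
 ⟨⟨[(nat_lit 80), (nat_lit 140), (nat_lit 180)], [(nat_lit 0), (nat_lit 0), (nat_lit 3656)], [((nat_lit 0), (nat_lit 0), (nat_lit 0)), ((nat_lit 0), (nat_lit 0), (nat_lit 0)), ((nat_lit 637), (nat_lit 1000), (nat_lit 908))], ((nat_lit 100), (nat_lit 78), (nat_lit 80))⟩, (nat_lit 247730), (nat_lit 465), (nat_lit 465), (nat_lit 0), (nat_lit 251428), [(nat_lit 389104000), (nat_lit 816886000), (nat_lit 1166814000)], [], [(nat_lit 2826420280), (nat_lit 3006705472), (nat_lit 2930087224), (nat_lit 2828994980), (nat_lit 2938145565), (nat_lit 2170565157), (nat_lit 3506990194), (nat_lit 2535986029)], (nat_lit 1271251), (nat_lit 1271251), (nat_lit 704688), (nat_lit 1100000), (nat_lit 0), (nat_lit 780000), [(nat_lit 1100000), (nat_lit 2127501), (nat_lit 1271251)], [(nat_lit 19), (nat_lit 63), (nat_lit 373), (nat_lit 150), (nat_lit 9)]⟩,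
 Rw.none⟩) (.leaf ⟨(nat_lit 0), (nat_lit 1000), (nat_lit 0), (nat_lit 0), (nat_lit 0), (nat_lit 8110), (nat_lit 6730), (nat_lit 0), (nat_lit 0), (nat_lit 0), (nat_lit 0), [], Pd.none, Pd.none, (nat_lit 0), (nat_lit 1), (nat_lit 0), (nat_lit 0), (nat_lit 3), (nat_lit 0), [], [], [⟨(nat_lit 0), (nat_lit 100), (nat_lit 99), (nat_lit 5), (nat_lit 19837941)⟩], [],
 ⟨⟨[(nat_lit 40), (nat_lit 80), (nat_lit 100)], [(nat_lit 0), (nat_lit 1598), (nat_lit 2533)], [((nat_lit 0), (nat_lit 0), (nat_lit 0)), ((nat_lit 1000), (nat_lit 625), (nat_lit 623)), ((nat_lit 1000), (nat_lit 604), (nat_lit 730))], ((nat_lit 60), (nat_lit 100), (nat_lit 78))⟩, (nat_lit 0), (nat_lit 147), (nat_lit 147), (nat_lit 0), (nat_lit 224517), [(nat_lit 2795685005), (nat_lit 5441267890), (nat_lit 6250000000)], [], [(nat_lit 23412637870), (nat_lit 25779684025), (nat_lit 25713982160), (nat_lit 28125077215), (nat_lit 24152619260), (nat_lit 26213430260), (nat_lit 26000361970), (nat_lit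 28239355240)], (nat_lit 1271251), (nat_lit 1271251), (nat_lit 1100000), (nat_lit 1785001), (nat_lit 780000), (nat_lit 1435001), [(nat_lit 490000), (nat_lit 1100000), (nat_lit 1442501)], [(nat_lit 3), (nat_lit 50), (nat_lit 345), (nat_lit 125), (nat_lit 12)]⟩,
 ⟨⟨[(nat_lit 80), (nat_lit 140), (nat_lit 180)], [(nat_lit 0), (nat_lit 0), (nat_lit 3656)], [((nat_lit 0), (nat_lit 0), (nat_lit 0)), ((nat_lit 0), (nat_lit 0), (nat_lit 0)), ((nat_lit 637), (nat_lit 1000), (nat_lit 908))], ((nat_lit 100), (nat_lit 78), (nat_lit 80))⟩, (nat_lit 1827409), (nat_lit 438), (nat_lit 438), (nat_lit 0), (nat_lit 251428), [(nat_lit 4688000000), (nat_lit 9842000000), (nat_lit 14058000000)], [], [(nat_lit 39632988176), (nat_lit 41118801916), (nat_lit 40712533576), (nat_lit 41974900976), (nat_lit 35879933356), (nat_lit 37011504996), (nat_lit 39694072380), (nat_lit 37590762736)], (nat_lit 1271251), (nat_lit 1271251), (nat_lit 1100000), (nat_lit 1785001), (nat_lit 0),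 (nat_lit 780000), [(nat_lit 1100000), (nat_lit 2127501), (nat_lit 1271251)], [(nat_lit 19), (nat_lit 63), (nat_lit 401), (nat_lit 175), (nat_lit 9)]⟩,
 Rw.none⟩)) (.spl (nat_lit 0) (nat_lit 370) (.leaf ⟨(nat_lit 896), (nat_lit 0), (nat_lit 0), (nat_lit 104), (nat_lit 672), (nat_lit 3753), (nat_lit 1469), (nat_lit 1162), (nat_lit 0), (nat_lit 0), (nat_lit 440300), [((nat_lit 370), [((nat_lit 25), (nat_lit 0), (nat_lit 278)), ((nat_lit 41), (nat_lit 2), (nat_lit 618))])], ⟨(nat_lit 6), false, false, false, (nat_lit 212), (nat_lit 2738), (nat_lit 3163), [(nat_lit 1407099), (nat_lit 1411881), (nat_lit 1451384), (nat_lit 1456691), (nat_lit 1605257), (nat_lit 1603890), (nat_lit 1649542), (nat_lit 1648700)]⟩, ⟨(nat_lit 3), false, false, true, (nat_lit 154), (nat_lit 2738), (nat_lit 3163), [(nat_lit 1289472), (nat_lit 1292206), (nat_lit 1355914), (nat_lit 1359435), (nat_lit 1411379), (nat_lit 1410329), (nat_lit 1477844), (nat_lit 1477581)]⟩, (nat_lit 4590446),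 (nat_lit 44766834), (nat_lit 13865044), (nat_lit 8368122), (nat_lit 0), (nat_lit 0), [⟨(nat_lit 0), (nat_lit 100), (nat_lit 59), (nat_lit 100), (nat_lit 14732648)⟩, ⟨(nat_lit 0), (nat_lit 93), (nat_lit 53), (nat_lit 100), (nat_lit 3032636)⟩], [], [], [],
 ⟨⟨[(nat_lit 40), (nat_lit 80), (nat_lit 100)], [(nat_lit 0), (nat_lit 1598), (nat_lit 2533)], [((nat_lit 0), (nat_lit 0), (nat_lit 0)), ((nat_lit 1000), (nat_lit 625), (nat_lit 623)), ((nat_lit 1000), (nat_lit 604), (nat_lit 730))], ((nat_lit 60), (nat_lit 100), (nat_lit 78))⟩, (nat_lit 0), (nat_lit 143), (nat_lit 143), (nat_lit 0), (nat_lit 187492), [(nat_lit 1460031705), (nat_lit 1226911340), (nat_lit 797304800)], [(nat_lit 0), (nat_lit 0), (nat_lit 0)], [(nat_lit 19663555621), (nat_lit 20454086538), (nat_lit 22236942468), (nat_lit 22953154522), (nat_lit 21089774969), (nat_lit 21789801416), (nat_lit 23388648058), (nat_lit 24101190880)], (nat_lit 1271251), (nat_lit 1271251), (nat_lit 704688),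 (nat_lit 1756876), (nat_lit 780000), (nat_lit 1435001), [(nat_lit 490000), (nat_lit 1100000), (nat_lit 1442501)], [(nat_lit 3), (nat_lit 50), (nat_lit 345), (nat_lit 125), (nat_lit 12)]⟩,
 ⟨⟨[(nat_lit 80), (nat_lit 140), (nat_lit 180)], [(nat_lit 0), (nat_lit 0), (nat_lit 3656)], [((nat_lit 0), (nat_lit 0), (nat_lit 0)), ((nat_lit 0), (nat_lit 0), (nat_lit 0)), ((nat_lit 637), (nat_lit 1000), (nat_lit 908))], ((nat_lit 100), (nat_lit 78), (nat_lit 80))⟩, (nat_lit 79216), (nat_lit 388), (nat_lit 388), (nat_lit 0), (nat_lit 300560), [(nat_lit 487552000), (nat_lit 1023568000), (nat_lit 1462032000)], [], [(nat_lit 4197652511), (nat_lit 3386821884), (nat_lit 3817405722), (nat_lit 3311121364), (nat_lit 6522412156), (nat_lit 5213054997), (nat_lit 8913328268), (nat_lit 7656269712)], (nat_lit 1271251), (nat_lit 1271251), (nat_lit 704688), (nat_lit 1756876), (nat_lit 780000), (nat_lit 3072501), [(nat_lit 1100000), (nat_lit 2127501), (nat_lit 1271251)], [(nat_lit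 19), (nat_lit 63), (nat_lit 483), (nat_lit 250), (nat_lit 11)]⟩,
 ⟨⟨[(nat_lit 140), (nat_lit 180), (nat_lit 200)], [(nat_lit 0), (nat_lit 0), (nat_lit 2835)], [((nat_lit 0), (nat_lit 0), (nat_lit 0)), ((nat_lit 0), (nat_lit 0), (nat_lit 0)), ((nat_lit 363), (nat_lit 1000), (nat_lit 798))], ((nat_lit 0), (nat_lit 0), (nat_lit 0))⟩, (nat_lit 28614), (nat_lit 300), (nat_lit 691), (nat_lit 8122400), (nat_lit 611167), [(nat_lit 1023568000), (nat_lit 1462032000), (nat_lit 1705600000)], [], [(nat_lit 7409925568), (nat_lit 6579047666), (nat_lit 6497668508), (nat_lit 6263343749), (nat_lit 6369519012), (nat_lit 6107024683), (nat_lit 6015600508), (nat_lit 6523076440)], (nat_lit 780000), (nat_lit 1271251), (nat_lit 780000), (nat_lit 1435001), (nat_lit 780000), (nat_lit 3072501), [(nat_lit 1977501), (nat_lit 1271251), (nat_lit 1271251)], [(nat_lit 32), (nat_lit 67), (nat_lit 428), (nat_lit 200), (nat_lit 9)]⟩⟩) (.trZ (nat_lit 0) (nat_lit 1) (nat_lit 3) (nat_lit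 100) (nat_lit 54) (nat_lit 96) (nat_lit 130) (.leaf ⟨(nat_lit 901), (nat_lit 0), (nat_lit 0), (nat_lit 99), (nat_lit 0), (nat_lit 3649), (nat_lit 1319), (nat_lit 1062), (nat_lit 0), (nat_lit 0), (nat_lit 225250), [((nat_lit 380), [((nat_lit 25), (nat_lit 0), (nat_lit 901))])], ⟨(nat_lit 6), false, false, false, (nat_lit 218), (nat_lit 2236), (nat_lit 2739), [(nat_lit 1441375), (nat_lit 1445669), (nat_lit 1486169), (nat_lit 1491177), (nat_lit 1603890), (nat_lit 1602558), (nat_lit 1648684), (nat_lit 1648065)]⟩, ⟨(nat_lit 3), false, false, true, (nat_lit 154), (nat_lit 2236), (nat_lit 2739), [(nat_lit 1292206), (nat_lit 1294870), (nat_lit 1359410), (nat_lit 1363145), (nat_lit 1410329), (nat_lit 1408901), (nat_lit 1477581), (nat_lit 1477224)]⟩, (nat_lit 4643847), (nat_lit 44180805), (nat_lit 14468772), (nat_lit 8350423), (nat_lit 0), (nat_lit 0), [⟨(nat_lit 0), (nat_lit 92), (nat_lit 44), (nat_lit 100), (nat_lit 21739845)⟩], [], [], [],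
 ⟨⟨[(nat_lit 40), (nat_lit 80), (nat_lit 100)], [(nat_lit 0), (nat_lit 2008), (nat_lit 2969)], [((nat_lit 0), (nat_lit 0), (nat_lit 0)), ((nat_lit 1000), (nat_lit 540), (nat_lit 733)), ((nat_lit 1000), (nat_lit 536), (nat_lit 751))], ((nat_lit 53), (nat_lit 100), (nat_lit 79))⟩, (nat_lit 594890), (nat_lit 155), (nat_lit 155), (nat_lit 0), (nat_lit 222205), [(nat_lit 1554730008), (nat_lit 2286620985), (nat_lit 2527068000)], [(nat_lit 0), (nat_lit 0), (nat_lit 0)], [(nat_lit 20593600453), (nat_lit 21348511666), (nat_lit 22882032997), (nat_lit 23653118769), (nat_lit 21935084640), (nat_lit 22584948810), (nat_lit 24029357040), (nat_lit 24731965366)], (nat_lit 1271251), (nat_lit 1271251), (nat_lit 857188), (nat_lit 1768126), (nat_lit 780000), (nat_lit 1435001), [(nat_lit 490000), (nat_lit 1100000), (nat_lit 1442501)], [(nat_lit 3), (nat_lit 50), (nat_lit 345), (nat_lit 125), (nat_lit 12)]⟩,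
 ⟨⟨[(nat_lit 80), (nat_lit 140), (nat_lit 180)], [(nat_lit 0), (nat_lit 0), (nat_lit 3656)], [((nat_lit 0), (nat_lit 0), (nat_lit 0)), ((nat_lit 0), (nat_lit 0), (nat_lit 0)), ((nat_lit 637), (nat_lit 1000), (nat_lit 908))], ((nat_lit 100), (nat_lit 78), (nat_lit 80))⟩, (nat_lit 0), (nat_lit 406), (nat_lit 406), (nat_lit 0), (nat_lit 367839), [(nat_lit 464112000), (nat_lit 974358000), (nat_lit 1391742000)], [], [(nat_lit 3326175949), (nat_lit 3510833056), (nat_lit 3720427062), (nat_lit 3453769875), (nat_lit 6384850760), (nat_lit 5216651371), (nat_lit 8347534088), (nat_lit 7218834132)], (nat_lit 1271251), (nat_lit 1271251), (nat_lit 857188), (nat_lit 1768126), (nat_lit 780000), (nat_lit 3072501), [(nat_lit 1100000), (nat_lit 2127501), (nat_lit 1271251)], [(nat_lit 19), (nat_lit 63), (nat_lit 483), (nat_lit 250), (nat_lit 11)]⟩,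
 ⟨⟨[(nat_lit 140), (nat_lit 180), (nat_lit 200)], [(nat_lit 0), (nat_lit 0), (nat_lit 2835)], [((nat_lit 0), (nat_lit 0), (nat_lit 0)), ((nat_lit 0), (nat_lit 0), (nat_lit 0)), ((nat_lit 363), (nat_lit 1000), (nat_lit 798))], ((nat_lit 0), (nat_lit 0), (nat_lit 0))⟩, (nat_lit 27238), (nat_lit 300), (nat_lit 755), (nat_lit 7731902), (nat_lit 753590), [(nat_lit 974358000), (nat_lit 1391742000), (nat_lit 1623600000)], [], [(nat_lit 6890116968), (nat_lit 6453477617), (nat_lit 6378487137), (nat_lit 6162107696), (nat_lit 6171366093), (nat_lit 5932268049), (nat_lit 5849591096), (nat_lit 6115554360)], (nat_lit 780000), (nat_lit 1271251), (nat_lit 780000), (nat_lit 1435001), (nat_lit 780000), (nat_lit 3072501), [(nat_lit 1977501), (nat_lit 1271251), (nat_lit 1271251)], [(nat_lit 32), (nat_lit 67), (nat_lit 428), (nat_lit 200), (nat_lit 9)]⟩⟩))))))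
noncomputable def c17_66 : Tr Lf :=
 (.trZ (nat_lit 0) (nat_lit 1) (nat_lit 3) (nat_lit 94) (nat_lit 62) (nat_lit 100) (nat_lit 150) (.trX (nat_lit 5) (nat_lit 1) (nat_lit 2) (nat_lit 92) (nat_lit 49) (nat_lit 100) (nat_lit 380) (.spl (nat_lit 5) (nat_lit 200) (.stt (nat_lit 1) (.leaf ⟨(nat_lit 803), (nat_lit 197), (nat_lit 0), (nat_lit 0), (nat_lit 0), (nat_lit 4164), (nat_lit 1925), (nat_lit 0), (nat_lit 0), (nat_lit 0), (nat_lit 200750), [((nat_lit 380), [((nat_lit 25), (nat_lit 0), (nat_lit 803))])], ⟨(nat_lit 7), false, false, false, (nat_lit 242), (nat_lit 2236), (nat_lit 3163), [(nat_lit 1512044), (nat_lit 1519444), (nat_lit 1556227), (nat_lit 1564865), (nat_lit 1649422), (nat_lit 1647962), (nat_lit 1693606), (nat_lit 1693384)]⟩, ⟨(nat_lit 3), false, false, true, (nat_lit 154), (nat_lit 2236), (nat_lit 3163), [(nat_lit 1289472), (nat_lit 1294870), (nat_lit 1355794), (nat_lit 1363050), (nat_lit 1411379), (nat_lit 1408901), (nat_lit 1477844),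 (nat_lit 1477224)]⟩, (nat_lit 4789643), (nat_lit 42248986), (nat_lit 16630094), (nat_lit 8120920), (nat_lit 3), (nat_lit 0), [⟨(nat_lit 0), (nat_lit 82), (nat_lit 44), (nat_lit 100), (nat_lit 106207836)⟩], [], [⟨(nat_lit 0), (nat_lit 100), (nat_lit 80), (nat_lit 52), (nat_lit 4483501)⟩], [],
 ⟨⟨[(nat_lit 40), (nat_lit 80), (nat_lit 100)], [(nat_lit 0), (nat_lit 1598), (nat_lit 2533)], [((nat_lit 0), (nat_lit 0), (nat_lit 0)), ((nat_lit 1000), (nat_lit 625), (nat_lit 623)), ((nat_lit 1000), (nat_lit 604), (nat_lit 730))], ((nat_lit 60), (nat_lit 100), (nat_lit 78))⟩, (nat_lit 0), (nat_lit 66), (nat_lit 66), (nat_lit 0), (nat_lit 0), [(nat_lit 1663557522), (nat_lit 2301162806), (nat_lit 2932004000)], [(nat_lit 0), (nat_lit 0), (nat_lit 0)], [(nat_lit 20300478002), (nat_lit 21997151318), (nat_lit 22732082306), (nat_lit 24178612988), (nat_lit 21741404244), (nat_lit 23238913361), (nat_lit 23854720962), (nat_lit 25137444596)], (nat_lit 0), (nat_lit 0),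 (nat_lit 0), (nat_lit 0), (nat_lit 0), (nat_lit 0), [], [(nat_lit 3), (nat_lit 50), (nat_lit 345), (nat_lit 125), (nat_lit 12)]⟩,
 ⟨⟨[(nat_lit 60), (nat_lit 120), (nat_lit 160)], [(nat_lit 0), (nat_lit 0), (nat_lit 3243)], [((nat_lit 0), (nat_lit 0), (nat_lit 0)), ((nat_lit 0), (nat_lit 0), (nat_lit 0)), ((nat_lit 878), (nat_lit 1000), (nat_lit 945))], ((nat_lit 100), (nat_lit 96), (nat_lit 86))⟩, (nat_lit 330229), (nat_lit 645), (nat_lit 645), (nat_lit 0), (nat_lit 766272), [(nat_lit 646554000), (nat_lit 1569696000), (nat_lit 2338784000)], [], [(nat_lit 6898156040), (nat_lit 7098945956), (nat_lit 6830935429), (nat_lit 6983534789), (nat_lit 5534921370), (nat_lit 5702512525), (nat_lit 6739440357), (nat_lit 5606678288)], (nat_lit 1271251), (nat_lit 1271251), (nat_lit 1017188), (nat_lit 1779376), (nat_lit 0), (nat_lit 1412501), [(nat_lit 780000), (nat_lit 1762501), (nat_lit 1271251)], [(nat_lit 12), (nat_lit 59), (nat_lit 428), (nat_lit 200), (nat_lit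 11)]⟩,
 Rw.none⟩) (.leaf ⟨(nat_lit 0), (nat_lit 942), (nat_lit 0), (nat_lit 58), (nat_lit 0), (nat_lit 4801), (nat_lit 9766), (nat_lit 737), (nat_lit 0), (nat_lit 0), (nat_lit 0), [], Pd.none, Pd.none, (nat_lit 0), (nat_lit 1), (nat_lit 0), (nat_lit 0), (nat_lit 3), (nat_lit 0), [⟨(nat_lit 0), (nat_lit 82), (nat_lit 44), (nat_lit 100), (nat_lit 112701510)⟩], [], [], [],
 ⟨⟨[(nat_lit 40), (nat_lit 80), (nat_lit 100)], [(nat_lit 0), (nat_lit 1598), (nat_lit 2533)], [((nat_lit 0), (nat_lit 0), (nat_lit 0)), ((nat_lit 1000), (nat_lit 625), (nat_lit 623)), ((nat_lit 1000), (nat_lit 604), (nat_lit 730))], ((nat_lit 60), (nat_lit 100), (nat_lit 78))⟩, (nat_lit 1617170), (nat_lit 260), (nat_lit 260), (nat_lit 0), (nat_lit 516903), [(nat_lit 2032000030), (nat_lit 4688000059), (nat_lit 6250000000)], [], [(nat_lit 21446918156), (nat_lit 22710589806), (nat_lit 23244429289), (nat_lit 24807948657), (nat_lit 22489515771), (nat_lit 23610942647), (nat_lit 24012402986),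 (nat_lit 25637706934)], (nat_lit 1271251), (nat_lit 1271251), (nat_lit 1017188), (nat_lit 1779376), (nat_lit 780000), (nat_lit 1435001), [(nat_lit 490000), (nat_lit 1100000), (nat_lit 1442501)], [(nat_lit 3), (nat_lit 50), (nat_lit 345), (nat_lit 125), (nat_lit 12)]⟩,
 ⟨⟨[(nat_lit 60), (nat_lit 120), (nat_lit 160)], [(nat_lit 0), (nat_lit 0), (nat_lit 3243)], [((nat_lit 0), (nat_lit 0), (nat_lit 0)), ((nat_lit 0), (nat_lit 0), (nat_lit 0)), ((nat_lit 878), (nat_lit 1000), (nat_lit 945))], ((nat_lit 100), (nat_lit 96), (nat_lit 86))⟩, (nat_lit 2196862), (nat_lit 435), (nat_lit 435), (nat_lit 0), (nat_lit 405329), [(nat_lit 3282000000), (nat_lit 7968000000), (nat_lit 11872000000)], [], [(nat_lit 32104228233), (nat_lit 33714453495), (nat_lit 32662400420), (nat_lit 34361663072), (nat_lit 25756349869), (nat_lit 27304688580), (nat_lit 34215801054), (nat_lit 27423652472)], (nat_lit 1271251), (nat_lit 1271251), (nat_lit 1017188), (nat_lit 1779376), (nat_lit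 0), (nat_lit 1412501), [(nat_lit 780000), (nat_lit 1762501), (nat_lit 1271251)], [(nat_lit 12), (nat_lit 59), (nat_lit 428), (nat_lit 200), (nat_lit 11)]⟩,
 ⟨⟨[(nat_lit 140), (nat_lit 180), (nat_lit 200)], [(nat_lit 0), (nat_lit 0), (nat_lit 2835)], [((nat_lit 0), (nat_lit 0), (nat_lit 0)), ((nat_lit 0), (nat_lit 0), (nat_lit 0)), ((nat_lit 363), (nat_lit 1000), (nat_lit 798))], ((nat_lit 0), (nat_lit 0), (nat_lit 0))⟩, (nat_lit 15958), (nat_lit 300), (nat_lit 1948), (nat_lit 4529800), (nat_lit 3135015), [(nat_lit 570836000), (nat_lit 815364000), (nat_lit 951200000)], [], [(nat_lit 4246877678), (nat_lit 4078934156), (nat_lit 4022942716), (nat_lit 3863762585), (nat_lit 3442501274), (nat_lit 3329469843), (nat_lit 3500458310), (nat_lit 4041079501)], (nat_lit 780000), (nat_lit 1271251), (nat_lit 780000), (nat_lit 1435001), (nat_lit 0), (nat_lit 1412501), [(nat_lit 1977501), (nat_lit 1271251), (nat_lit 1271251)], [(nat_lit 32), (nat_lit 67), (nat_lit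 560), (nat_lit 150), (nat_lit 12)]⟩⟩)) (.stt (nat_lit 2) (.leaf ⟨(nat_lit 0), (nat_lit 1000), (nat_lit 0), (nat_lit 0), (nat_lit 1704), (nat_lit 5058), (nat_lit 9420), (nat_lit 0), (nat_lit 0), (nat_lit 0), (nat_lit 0), [], Pd.none, Pd.none, (nat_lit 0), (nat_lit 1), (nat_lit 0), (nat_lit 0), (nat_lit 5), (nat_lit 0), [⟨(nat_lit 0), (nat_lit 94), (nat_lit 62), (nat_lit 100), (nat_lit 522786370)⟩], [], [⟨(nat_lit 1), (nat_lit 49), (nat_lit 92), (nat_lit 100), (nat_lit 591116018)⟩], [],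
 ⟨⟨[(nat_lit 40), (nat_lit 80), (nat_lit 100)], [(nat_lit 0), (nat_lit 1598), (nat_lit 2533)], [((nat_lit 0), (nat_lit 0), (nat_lit 0)), ((nat_lit 1000), (nat_lit 625), (nat_lit 623)), ((nat_lit 1000), (nat_lit 604), (nat_lit 730))], ((nat_lit 60), (nat_lit 100), (nat_lit 78))⟩, (nat_lit 1493912), (nat_lit 260), (nat_lit 260), (nat_lit 0), (nat_lit 516903), [(nat_lit 2032000695), (nat_lit 4688005315), (nat_lit 6250000000)], [], [(nat_lit 21250055535), (nat_lit 22846808459), (nat_lit 23313814152), (nat_lit 25065579977), (nat_lit 22259696680), (nat_lit 23818051874), (nat_lit 24165365788), (nat_lit 25839769072)], (nat_lit 1271251), (nat_lit 1271251), (nat_lit 1017188), (nat_lit 1779376), (nat_lit 780000), (nat_lit 1435001), [(nat_lit 490000), (nat_lit 1100000), (nat_lit 1442501)], [(nat_lit 3), (nat_lit 50), (nat_lit 345), (nat_lit 125), (nat_lit 12)]⟩,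
 ⟨⟨[(nat_lit 60), (nat_lit 120), (nat_lit 160)], [(nat_lit 0), (nat_lit 0), (nat_lit 3243)], [((nat_lit 0), (nat_lit 0), (nat_lit 0)), ((nat_lit 0), (nat_lit 0), (nat_lit 0)), ((nat_lit 878), (nat_lit 1000), (nat_lit 945))], ((nat_lit 100), (nat_lit 96), (nat_lit 86))⟩, (nat_lit 0), (nat_lit 100), (nat_lit 100), (nat_lit 0), (nat_lit 0), [(nat_lit 3282000000), (nat_lit 7968000000), (nat_lit 11872000000)], [], [(nat_lit 18941399215), (nat_lit 22375136595), (nat_lit 21601089260), (nat_lit 24380557840), (nat_lit 31296237945), (nat_lit 33909239533), (nat_lit 32218468760), (nat_lit 34328121680)], (nat_lit 0), (nat_lit 0), (nat_lit 0), (nat_lit 0), (nat_lit 0), (nat_lit 0), [], [(nat_lit 12), (nat_lit 59), (nat_lit 483), (nat_lit 250), (nat_lit 12)]⟩,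
 Rw.none⟩) (.spl (nat_lit 0) (nat_lit 370) (.leaf ⟨(nat_lit 651), (nat_lit 291), (nat_lit 0), (nat_lit 58), (nat_lit 0), (nat_lit 4043), (nat_lit 3111), (nat_lit 673), (nat_lit 0), (nat_lit 0), (nat_lit 434200), [((nat_lit 370), [((nat_lit 41), (nat_lit 2), (nat_lit 542)), ((nat_lit 25), (nat_lit 2), (nat_lit 109))])], ⟨(nat_lit 7), false, false, false, (nat_lit 242), (nat_lit 2738), (nat_lit 3163), [(nat_lit 1512356), (nat_lit 1515771), (nat_lit 1556642), (nat_lit 1560582), (nat_lit 1649542), (nat_lit 1648700), (nat_lit 1693828), (nat_lit 1693511)]⟩, ⟨(nat_lit 3), false, false, true, (nat_lit 154), (nat_lit 2738), (nat_lit 3163), [(nat_lit 1289472), (nat_lit 1292206), (nat_lit 1355914), (nat_lit 1359435), (nat_lit 1411379), (nat_lit 1410329), (nat_lit 1477844), (nat_lit 1477581)]⟩, (nat_lit 4785863), (nat_lit 42287070), (nat_lit 16605596), (nat_lit 8107334), (nat_lit 5), (nat_lit 0), [⟨(nat_lit 0), (nat_lit 80), (nat_lit 53), (nat_lit 100), (nat_lit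 249575841)⟩], [], [⟨(nat_lit 1), (nat_lit 72), (nat_lit 89), (nat_lit 100), (nat_lit 81214269)⟩], [],
 ⟨⟨[(nat_lit 40), (nat_lit 80), (nat_lit 100)], [(nat_lit 0), (nat_lit 1598), (nat_lit 2533)], [((nat_lit 0), (nat_lit 0), (nat_lit 0)), ((nat_lit 1000), (nat_lit 625), (nat_lit 623)), ((nat_lit 1000), (nat_lit 604), (nat_lit 730))], ((nat_lit 60), (nat_lit 100), (nat_lit 78))⟩, (nat_lit 0), (nat_lit 159), (nat_lit 159), (nat_lit 0), (nat_lit 277030), [(nat_lit 1509376032), (nat_lit 1396925456), (nat_lit 1369076744)], [(nat_lit 0), (nat_lit 0), (nat_lit 0)], [(nat_lit 20721631738), (nat_lit 21340179693), (nat_lit 22677215652), (nat_lit 23344408593), (nat_lit 21896680420), (nat_lit 22447683700), (nat_lit 23707161005), (nat_lit 24301496780)], (nat_lit 1271251), (nat_lit 1271251), (nat_lit 1017188), (nat_lit 1779376), (nat_lit 780000), (nat_lit 1435001), [(nat_lit 490000), (nat_lit 1100000), (nat_lit 1442501)], [(nat_lit 3), (nat_lit 50), (nat_lit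 345), (nat_lit 125), (nat_lit 12)]⟩,
 ⟨⟨[(nat_lit 60), (nat_lit 120), (nat_lit 160)], [(nat_lit 0), (nat_lit 0), (nat_lit 3243)], [((nat_lit 0), (nat_lit 0), (nat_lit 0)), ((nat_lit 0), (nat_lit 0), (nat_lit 0)), ((nat_lit 878), (nat_lit 1000), (nat_lit 945))], ((nat_lit 100), (nat_lit 96), (nat_lit 86))⟩, (nat_lit 579966), (nat_lit 426), (nat_lit 426), (nat_lit 0), (nat_lit 666169), [(nat_lit 1145418000), (nat_lit 2780832000), (nat_lit 4143328000)], [], [(nat_lit 10259752490), (nat_lit 10653702312), (nat_lit 10261881426), (nat_lit 10567671206), (nat_lit 11738888407), (nat_lit 11997102406), (nat_lit 11530455692), (nat_lit 11807129858)], (nat_lit 1271251), (nat_lit 1271251), (nat_lit 1017188), (nat_lit 1779376), (nat_lit 1271251), (nat_lit 1271251), [(nat_lit 780000), (nat_lit 1762501), (nat_lit 1271251)], [(nat_lit 12), (nat_lit 59), (nat_lit 483), (nat_lit 250), (nat_lit 12)]⟩,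
 ⟨⟨[(nat_lit 140), (nat_lit 180), (nat_lit 200)], [(nat_lit 0), (nat_lit 0), (nat_lit 2835)], [((nat_lit 0), (nat_lit 0), (nat_lit 0)), ((nat_lit 0), (nat_lit 0), (nat_lit 0)), ((nat_lit 363), (nat_lit 1000), (nat_lit 798))], ((nat_lit 0), (nat_lit 0), (nat_lit 0))⟩, (nat_lit 15958), (nat_lit 300), (nat_lit 1783), (nat_lit 4529800), (nat_lit 3039068), [(nat_lit 570836000), (nat_lit 815364000), (nat_lit 951200000)], [], [(nat_lit 3702848757), (nat_lit 3550747757), (nat_lit 3498509114), (nat_lit 3346954797), (nat_lit 3496931921), (nat_lit 3339987322), (nat_lit 3285880297), (nat_lit 3129639893)], (nat_lit 780000), (nat_lit 1271251), (nat_lit 780000), (nat_lit 1435001), (nat_lit 1271251), (nat_lit 1271251), [(nat_lit 1977501), (nat_lit 1271251), (nat_lit 1271251)], [(nat_lit 32), (nat_lit 67), (nat_lit 541), (nat_lit 200), (nat_lit 11)]⟩⟩) (.trZ (nat_lit 0) (nat_lit 1) (nat_lit 3) (nat_lit 93) (nat_lit 53) (nat_lit 100) (nat_lit 170) (.leaf ⟨(nat_lit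 781), (nat_lit 180), (nat_lit 0), (nat_lit 39), (nat_lit 0), (nat_lit 3821), (nat_lit 1938), (nat_lit 453), (nat_lit 0), (nat_lit 0), (nat_lit 195250), [((nat_lit 380), [((nat_lit 25), (nat_lit 0), (nat_lit 781))])], ⟨(nat_lit 7), false, true, false, (nat_lit 248), (nat_lit 2236), (nat_lit 2739), [(nat_lit 1545266), (nat_lit 1548227), (nat_lit 1590060), (nat_lit 1593736), (nat_lit 1648684), (nat_lit 1648065), (nat_lit 1693478), (nat_lit 1693574)]⟩, ⟨(nat_lit 3), false, false, true, (nat_lit 154), (nat_lit 2236), (nat_lit 2739), [(nat_lit 1292206), (nat_lit 1294870), (nat_lit 1359410), (nat_lit 1363145), (nat_lit 1410329), (nat_lit 1408901), (nat_lit 1477581), (nat_lit 1477224)]⟩, (nat_lit 4825458), (nat_lit 41721702), (nat_lit 17197567), (nat_lit 8080731), (nat_lit 5), (nat_lit 0), [⟨(nat_lit 0), (nat_lit 82), (nat_lit 44), (nat_lit 100), (nat_lit 274172794)⟩], [], [⟨(nat_lit 1), (nat_lit 72), (nat_lit 89), (nat_lit 100), (nat_lit 47468448)⟩], [],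
 ⟨⟨[(nat_lit 40), (nat_lit 80), (nat_lit 100)], [(nat_lit 0), (nat_lit 2008), (nat_lit 2969)], [((nat_lit 0), (nat_lit 0), (nat_lit 0)), ((nat_lit 1000), (nat_lit 540), (nat_lit 733)), ((nat_lit 1000), (nat_lit 536), (nat_lit 751))], ((nat_lit 53), (nat_lit 100), (nat_lit 79))⟩, (nat_lit 603139), (nat_lit 170), (nat_lit 170), (nat_lit 0), (nat_lit 302515), [(nat_lit 1587130037), (nat_lit 2367784411), (nat_lit 3022908000)], [(nat_lit 0), (nat_lit 0), (nat_lit 0)], [(nat_lit 21795438224), (nat_lit 22380023969), (nat_lit 23332671801), (nat_lit 23938420439), (nat_lit 22890381538), (nat_lit 23429741004), (nat_lit 24346529033), (nat_lit 24867197614)], (nat_lit 1271251), (nat_lit 1271251), (nat_lit 1184688), (nat_lit 1790626), (nat_lit 780000), (nat_lit 1435001), [(nat_lit 490000), (nat_lit 1100000), (nat_lit 1442501)], [(nat_lit 3), (nat_lit 50), (nat_lit 345), (nat_lit 125), (nat_lit 12)]⟩,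
 ⟨⟨[(nat_lit 60), (nat_lit 120), (nat_lit 160)], [(nat_lit 0), (nat_lit 0), (nat_lit 3243)], [((nat_lit 0), (nat_lit 0), (nat_lit 0)), ((nat_lit 0), (nat_lit 0), (nat_lit 0)), ((nat_lit 878), (nat_lit 1000), (nat_lit 945))], ((nat_lit 100), (nat_lit 96), (nat_lit 86))⟩, (nat_lit 369805), (nat_lit 495), (nat_lit 495), (nat_lit 0), (nat_lit 765225), [(nat_lit 718758000), (nat_lit 1744992000), (nat_lit 2599968000)], [], [(nat_lit 6423268454), (nat_lit 6658866157), (nat_lit 6463350492), (nat_lit 6655149771), (nat_lit 7342762294), (nat_lit 7495515130), (nat_lit 7278237071), (nat_lit 7396525587)], (nat_lit 1271251), (nat_lit 1271251), (nat_lit 1184688), (nat_lit 1790626), (nat_lit 1271251), (nat_lit 1271251), [(nat_lit 780000), (nat_lit 1762501), (nat_lit 1271251)], [(nat_lit 12), (nat_lit 59), (nat_lit 483), (nat_lit 250), (nat_lit 12)]⟩,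
 ⟨⟨[(nat_lit 140), (nat_lit 180), (nat_lit 200)], [(nat_lit 0), (nat_lit 0), (nat_lit 2835)], [((nat_lit 0), (nat_lit 0), (nat_lit 0)), ((nat_lit 0), (nat_lit 0), (nat_lit 0)), ((nat_lit 363), (nat_lit 1000), (nat_lit 798))], ((nat_lit 0), (nat_lit 0), (nat_lit 0))⟩, (nat_lit 10730), (nat_lit 300), (nat_lit 2033), (nat_lit 3045903), (nat_lit 3530963), [(nat_lit 383838000), (nat_lit 548262000), (nat_lit 639600000)], [], [(nat_lit 2487339381), (nat_lit 2384932253), (nat_lit 2349761184), (nat_lit 2247722621), (nat_lit 2349457761), (nat_lit 2243788817), (nat_lit 2207359623), (nat_lit 2102165326)], (nat_lit 780000), (nat_lit 1271251), (nat_lit 780000), (nat_lit 1435001), (nat_lit 1271251), (nat_lit 1271251), [(nat_lit 1977501), (nat_lit 1271251), (nat_lit 1271251)], [(nat_lit 32), (nat_lit 67), (nat_lit 604), (nat_lit 200), (nat_lit 12)]⟩⟩)))))))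
noncomputable def c17_67 : Tr Lf :=
 (.leaf ⟨(nat_lit 1000), (nat_lit 0), (nat_lit 0), (nat_lit 0), (nat_lit 4823), (nat_lit 3946), (nat_lit 0), (nat_lit 0), (nat_lit 0), (nat_lit 0), (nat_lit 250000), [((nat_lit 370), [((nat_lit 25), (nat_lit 0), (nat_lit 1000))])], ⟨(nat_lit 6), false, false, false, (nat_lit 197), (nat_lit 2738), (nat_lit 3163), [(nat_lit 1407099), (nat_lit 1411881), (nat_lit 1495670), (nat_lit 1501502), (nat_lit 1483313), (nat_lit 1485730), (nat_lit 1571884), (nat_lit 1575351)]⟩, ⟨(nat_lit 5), false, false, true, (nat_lit 190), (nat_lit 2738), (nat_lit 3163), [(nat_lit 1411379), (nat_lit 1410329), (nat_lit 1477844), (nat_lit 1477581), (nat_lit 1472332), (nat_lit 1469390), (nat_lit 1538797), (nat_lit 1536642)]⟩, (nat_lit 4804039), (nat_lit 43433454), (nat_lit 12117009), (nat_lit 11449537), (nat_lit 0), (nat_lit 0), [⟨(nat_lit 0), (nat_lit 93), (nat_lit 58), (nat_lit 100), (nat_lit 544572646)⟩], [], [], [],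
 ⟨⟨[(nat_lit 40), (nat_lit 80), (nat_lit 100)], [(nat_lit 0), (nat_lit 1598), (nat_lit 2533)], [((nat_lit 0), (nat_lit 0), (nat_lit 0)), ((nat_lit 1000), (nat_lit 625), (nat_lit 623)), ((nat_lit 1000), (nat_lit 604), (nat_lit 730))], ((nat_lit 60), (nat_lit 100), (nat_lit 78))⟩, (nat_lit 0), (nat_lit 62), (nat_lit 62), (nat_lit 0), (nat_lit 0), [(nat_lit 1570372721), (nat_lit 1715600002), (nat_lit 2118000000)], [(nat_lit 0), (nat_lit 0), (nat_lit 0)], [(nat_lit 20998449674), (nat_lit 21858169549), (nat_lit 21348370624), (nat_lit 22067300102), (nat_lit 22257981680), (nat_lit 23094793179), (nat_lit 22461776846), (nat_lit 23244793454)], (nat_lit 0), (nat_lit 0), (nat_lit 0), (nat_lit 0), (nat_lit 0), (nat_lit 0), [], [(nat_lit 3), (nat_lit 50), (nat_lit 249), (nat_lit 40), (nat_lit 8)]⟩,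
 Rw.none,
 Rw.none⟩)
noncomputable def c17_68 : Tr Lf :=
 (.spl (nat_lit 4) (nat_lit 260) (.leaf ⟨(nat_lit 1000), (nat_lit 0), (nat_lit 0), (nat_lit 0), (nat_lit 4823), (nat_lit 3843), (nat_lit 0), (nat_lit 0), (nat_lit 0), (nat_lit 0), (nat_lit 250000), [((nat_lit 370), [((nat_lit 25), (nat_lit 0), (nat_lit 1000))])], ⟨(nat_lit 6), false, false, false, (nat_lit 197), (nat_lit 2738), (nat_lit 3163), [(nat_lit 1407099), (nat_lit 1411881), (nat_lit 1495670), (nat_lit 1501502), (nat_lit 1483313), (nat_lit 1485730), (nat_lit 1571884), (nat_lit 1575351)]⟩, ⟨(nat_lit 6), false, false, true, (nat_lit 208), (nat_lit 2738), (nat_lit 3163), [(nat_lit 1472332), (nat_lit 1469390), (nat_lit 1538797), (nat_lit 1536642), (nat_lit 1502809), (nat_lit 1498921), (nat_lit 1569274), (nat_lit 1566173)]⟩, (nat_lit 4941208), (nat_lit 42116953), (nat_lit 11898682), (nat_lit 12984365), (nat_lit 0), (nat_lit 0), [⟨(nat_lit 0), (nat_lit 93), (nat_lit 58), (nat_lit 100), (nat_lit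 546936651)⟩], [], [], [],
 ⟨⟨[(nat_lit 40), (nat_lit 80), (nat_lit 100)], [(nat_lit 0), (nat_lit 1598), (nat_lit 2533)], [((nat_lit 0), (nat_lit 0), (nat_lit 0)), ((nat_lit 1000), (nat_lit 625), (nat_lit 623)), ((nat_lit 1000), (nat_lit 604), (nat_lit 730))], ((nat_lit 60), (nat_lit 100), (nat_lit 78))⟩, (nat_lit 0), (nat_lit 67), (nat_lit 67), (nat_lit 0), (nat_lit 0), [(nat_lit 1558692559), (nat_lit 1715600118), (nat_lit 2118000000)], [(nat_lit 0), (nat_lit 0), (nat_lit 0)], [(nat_lit 22221212124), (nat_lit 22998289910), (nat_lit 22521247720), (nat_lit 23179633180), (nat_lit 23169009186), (nat_lit 23958093644), (nat_lit 23339603168), (nat_lit 24078542625)], (nat_lit 0), (nat_lit 0), (nat_lit 0), (nat_lit 0), (nat_lit 0), (nat_lit 0), [], [(nat_lit 3), (nat_lit 50), (nat_lit 249), (nat_lit 40), (nat_lit 8)]⟩,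
 Rw.none,
 Rw.none⟩) (.trX (nat_lit 5) (nat_lit 4) (nat_lit 3) (nat_lit 97) (nat_lit 49) (nat_lit 100) (nat_lit 380) (.spl (nat_lit 3) (nat_lit 140) (.trX (nat_lit 5) (nat_lit 4) (nat_lit 3) (nat_lit 100) (nat_lit 60) (nat_lit 100) (nat_lit 370) (.leaf ⟨(nat_lit 1000), (nat_lit 0), (nat_lit 0), (nat_lit 0), (nat_lit 5187), (nat_lit 3718), (nat_lit 0), (nat_lit 0), (nat_lit 0), (nat_lit 0), (nat_lit 250000), [((nat_lit 370), [((nat_lit 25), (nat_lit 0), (nat_lit 1000))])], ⟨(nat_lit 6), false, false, false, (nat_lit 191), (nat_lit 2738), (nat_lit 3163), [(nat_lit 1407099), (nat_lit 1411881), (nat_lit 1495670), (nat_lit 1501502), (nat_lit 1452828), (nat_lit 1456191), (nat_lit 1541399), (nat_lit 1545812)]⟩, ⟨(nat_lit 6), false, false, true, (nat_lit 220), (nat_lit 2738), (nat_lit 3163), [(nat_lit 1502809), (nat_lit 1498921), (nat_lit 1569274), (nat_lit 1566173), (nat_lit 1533286), (nat_lit 1528452), (nat_lit 1599750), (nat_lit 1595704)]⟩, (nat_lit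 4976003), (nat_lit 41642956), (nat_lit 11250330), (nat_lit 14106714), (nat_lit 0), (nat_lit 0), [⟨(nat_lit 0), (nat_lit 93), (nat_lit 58), (nat_lit 100), (nat_lit 572906449)⟩], [], [], [],
 ⟨⟨[(nat_lit 40), (nat_lit 80), (nat_lit 100)], [(nat_lit 0), (nat_lit 1598), (nat_lit 2533)], [((nat_lit 0), (nat_lit 0), (nat_lit 0)), ((nat_lit 1000), (nat_lit 625), (nat_lit 623)), ((nat_lit 1000), (nat_lit 604), (nat_lit 730))], ((nat_lit 60), (nat_lit 100), (nat_lit 78))⟩, (nat_lit 0), (nat_lit 71), (nat_lit 71), (nat_lit 0), (nat_lit 0), [(nat_lit 1546708305), (nat_lit 1715600091), (nat_lit 2118000000)], [(nat_lit 0), (nat_lit 0), (nat_lit 0)], [(nat_lit 23129230632), (nat_lit 23829755109), (nat_lit 23293640388), (nat_lit 23932099812), (nat_lit 24037762635), (nat_lit 24778335925), (nat_lit 24124201399), (nat_lit 24837385111)], (nat_lit 0), (nat_lit 0), (nat_lit 0), (nat_lit 0), (nat_lit 0), (nat_lit 0), [], [(nat_lit 3), (nat_lit 50), (nat_lit 249), (nat_lit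 40), (nat_lit 8)]⟩,
 Rw.none,
 Rw.none⟩)) (.spl (nat_lit 1) (nat_lit 280) (.spl (nat_lit 1) (nat_lit 260) (.leaf ⟨(nat_lit 1000), (nat_lit 0), (nat_lit 0), (nat_lit 0), (nat_lit 5020), (nat_lit 3636), (nat_lit 0), (nat_lit 0), (nat_lit 0), (nat_lit 0), (nat_lit 250000), [((nat_lit 370), [((nat_lit 25), (nat_lit 0), (nat_lit 1000))])], ⟨(nat_lit 6), false, false, false, (nat_lit 192), (nat_lit 2738), (nat_lit 3163), [(nat_lit 1452828), (nat_lit 1456191), (nat_lit 1474970), (nat_lit 1478596), (nat_lit 1483313), (nat_lit 1485730), (nat_lit 1505456), (nat_lit 1508135)]⟩, ⟨(nat_lit 6), false, false, true, (nat_lit 220), (nat_lit 2738), (nat_lit 3163), [(nat_lit 1502809), (nat_lit 1498921), (nat_lit 1569274), (nat_lit 1566173), (nat_lit 1533286), (nat_lit 1528452), (nat_lit 1599750), (nat_lit 1595704)]⟩, (nat_lit 4988682), (nat_lit 41532122), (nat_lit 11384943), (nat_lit 14082935), (nat_lit 0), (nat_lit 0), [⟨(nat_lit 0), (nat_lit 98), (nat_lit 54), (nat_lit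 100), (nat_lit 69053407)⟩], [], [], [],
 ⟨⟨[(nat_lit 40), (nat_lit 80), (nat_lit 100)], [(nat_lit 0), (nat_lit 1598), (nat_lit 2533)], [((nat_lit 0), (nat_lit 0), (nat_lit 0)), ((nat_lit 1000), (nat_lit 625), (nat_lit 623)), ((nat_lit 1000), (nat_lit 604), (nat_lit 730))], ((nat_lit 60), (nat_lit 100), (nat_lit 78))⟩, (nat_lit 0), (nat_lit 63), (nat_lit 63), (nat_lit 0), (nat_lit 0), [(nat_lit 1540299270), (nat_lit 1715600030), (nat_lit 2118000000)], [(nat_lit 0), (nat_lit 0), (nat_lit 0)], [(nat_lit 23340991658), (nat_lit 23960295285), (nat_lit 23476455914), (nat_lit 24060481906), (nat_lit 24152839213), (nat_lit 24758441497), (nat_lit 24249227726), (nat_lit 24839379184)], (nat_lit 0), (nat_lit 0), (nat_lit 0), (nat_lit 0), (nat_lit 0), (nat_lit 0), [], [(nat_lit 3), (nat_lit 50), (nat_lit 249), (nat_lit 40), (nat_lit 8)]⟩,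
 Rw.none,
 Rw.none⟩) (.spl (nat_lit 2) (nat_lit 160) (.leaf ⟨(nat_lit 946), (nat_lit 42), (nat_lit 0), (nat_lit 12), (nat_lit 3662), (nat_lit 3868), (nat_lit 586), (nat_lit 152), (nat_lit 0), (nat_lit 0), (nat_lit 236500), [((nat_lit 370), [((nat_lit 25), (nat_lit 0), (nat_lit 946))])], ⟨(nat_lit 6), false, false, false, (nat_lit 201), (nat_lit 2738), (nat_lit 3163), [(nat_lit 1474970), (nat_lit 1478596), (nat_lit 1497113), (nat_lit 1501001), (nat_lit 1505456), (nat_lit 1508135), (nat_lit 1527599), (nat_lit 1530541)]⟩, ⟨(nat_lit 6), false, false, true, (nat_lit 215), (nat_lit 2738), (nat_lit 3163), [(nat_lit 1502809), (nat_lit 1498921), (nat_lit 1547119), (nat_lit 1543756), (nat_lit 1533286), (nat_lit 1528452), (nat_lit 1577595), (nat_lit 1573286)]⟩, (nat_lit 5026134), (nat_lit 41251327), (nat_lit 12180036), (nat_lit 13568637), (nat_lit 6), (nat_lit 0), [⟨(nat_lit 0), (nat_lit 97), (nat_lit 58), (nat_lit 100), (nat_lit 284020947)⟩], [⟨(nat_lit 1),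 (nat_lit 92), (nat_lit 61), (nat_lit 100), (nat_lit 149573341)⟩], [], [],
 ⟨⟨[(nat_lit 40), (nat_lit 80), (nat_lit 100)], [(nat_lit 0), (nat_lit 1598), (nat_lit 2533)], [((nat_lit 0), (nat_lit 0), (nat_lit 0)), ((nat_lit 1000), (nat_lit 625), (nat_lit 623)), ((nat_lit 1000), (nat_lit 604), (nat_lit 730))], ((nat_lit 60), (nat_lit 100), (nat_lit 78))⟩, (nat_lit 0), (nat_lit 63), (nat_lit 63), (nat_lit 0), (nat_lit 0), [(nat_lit 1578686839), (nat_lit 1876109605), (nat_lit 2341128000)], [(nat_lit 0), (nat_lit 0), (nat_lit 0)], [(nat_lit 23390141433), (nat_lit 24052323487), (nat_lit 23487383905), (nat_lit 24121375843), (nat_lit 24254218474), (nat_lit 24981794161), (nat_lit 24307445253), (nat_lit 25005783823)], (nat_lit 0), (nat_lit 0), (nat_lit 0), (nat_lit 0), (nat_lit 0), (nat_lit 0), [], [(nat_lit 3), (nat_lit 50), (nat_lit 249), (nat_lit 40), (nat_lit 8)]⟩,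
 ⟨⟨[(nat_lit 80), (nat_lit 120), (nat_lit 160)], [(nat_lit 0), (nat_lit 528), (nat_lit 2577)], [((nat_lit 0), (nat_lit 0), (nat_lit 0)), ((nat_lit 1000), (nat_lit 959), (nat_lit 206)), ((nat_lit 929), (nat_lit 1000), (nat_lit 742))], ((nat_lit 100), (nat_lit 87), (nat_lit 82))⟩, (nat_lit 36735), (nat_lit 537), (nat_lit 537), (nat_lit 0), (nat_lit 554518), [(nat_lit 253152000), (nat_lit 430272000), (nat_lit 641088000)], [], [(nat_lit 2486520093), (nat_lit 2176608279), (nat_lit 2171801028), (nat_lit 1864657085), (nat_lit 2020747750), (nat_lit 1981529583), (nat_lit 2179596117), (nat_lit 1938846733)], (nat_lit 1271251), (nat_lit 1271251), (nat_lit 936250), (nat_lit 1100000), (nat_lit 0), (nat_lit 2683751), [(nat_lit 1100000), (nat_lit 1785001), (nat_lit 1271251)], [(nat_lit 18), (nat_lit 59), (nat_lit 456), (nat_lit 225), (nat_lit 12)]⟩,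
 ⟨⟨[(nat_lit 140), (nat_lit 180), (nat_lit 200)], [(nat_lit 0), (nat_lit 0), (nat_lit 2835)], [((nat_lit 0), (nat_lit 0), (nat_lit 0)), ((nat_lit 0), (nat_lit 0), (nat_lit 0)), ((nat_lit 363), (nat_lit 1000), (nat_lit 798))], ((nat_lit 0), (nat_lit 0), (nat_lit 0))⟩, (nat_lit 3302), (nat_lit 300), (nat_lit 1879), (nat_lit 937200), (nat_lit 3130723), [(nat_lit 118104000), (nat_lit 168696000), (nat_lit 196800000)], [], [(nat_lit 816395704), (nat_lit 790803200), (nat_lit 814598544), (nat_lit 788737200), (nat_lit 628590072), (nat_lit 707614360), (nat_lit 621487950), (nat_lit 642966632)], (nat_lit 780000), (nat_lit 1100000), (nat_lit 1271251), (nat_lit 1271251), (nat_lit 0), (nat_lit 2683751), [(nat_lit 1977501), (nat_lit 1271251), (nat_lit 1271251)], [(nat_lit 32), (nat_lit 67), (nat_lit 573), (nat_lit 225), (nat_lit 12)]⟩⟩) (.leaf ⟨(nat_lit 891), (nat_lit 85), (nat_lit 0), (nat_lit 24), (nat_lit 3003), (nat_lit 3927), (nat_lit 785), (nat_lit 280),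 (nat_lit 0), (nat_lit 0), (nat_lit 222750), [((nat_lit 370), [((nat_lit 25), (nat_lit 0), (nat_lit 891))])], ⟨(nat_lit 6), false, false, false, (nat_lit 201), (nat_lit 2738), (nat_lit 3163), [(nat_lit 1474970), (nat_lit 1478596), (nat_lit 1497113), (nat_lit 1501001), (nat_lit 1505456), (nat_lit 1508135), (nat_lit 1527599), (nat_lit 1530541)]⟩, ⟨(nat_lit 6), false, false, true, (nat_lit 229), (nat_lit 2738), (nat_lit 3163), [(nat_lit 1547119), (nat_lit 1543756), (nat_lit 1569274), (nat_lit 1566173), (nat_lit 1577595), (nat_lit 1573286), (nat_lit 1599750), (nat_lit 1595704)]⟩, (nat_lit 5108279), (nat_lit 40286296), (nat_lit 11994903), (nat_lit 14718801), (nat_lit 6), (nat_lit 0), [⟨(nat_lit 0), (nat_lit 97), (nat_lit 58), (nat_lit 100), (nat_lit 200302133)⟩], [], [], [],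
 ⟨⟨[(nat_lit 40), (nat_lit 80), (nat_lit 100)], [(nat_lit 0), (nat_lit 1598), (nat_lit 2533)], [((nat_lit 0), (nat_lit 0), (nat_lit 0)), ((nat_lit 1000), (nat_lit 625), (nat_lit 623)), ((nat_lit 1000), (nat_lit 604), (nat_lit 730))], ((nat_lit 60), (nat_lit 100), (nat_lit 78))⟩, (nat_lit 0), (nat_lit 63), (nat_lit 63), (nat_lit 0), (nat_lit 0), [(nat_lit 1594242521), (nat_lit 2039591632), (nat_lit 2568388000)], [(nat_lit 0), (nat_lit 0), (nat_lit 0)], [(nat_lit 23528446796), (nat_lit 24184227128), (nat_lit 23620826082), (nat_lit 24259524583), (nat_lit 24373543057), (nat_lit 25038595054), (nat_lit 24444913354), (nat_lit 25056796110)], (nat_lit 0), (nat_lit 0), (nat_lit 0), (nat_lit 0), (nat_lit 0), (nat_lit 0), [], [(nat_lit 3), (nat_lit 50), (nat_lit 249), (nat_lit 40), (nat_lit 8)]⟩,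
 ⟨⟨[(nat_lit 80), (nat_lit 120), (nat_lit 160)], [(nat_lit 0), (nat_lit 528), (nat_lit 2577)], [((nat_lit 0), (nat_lit 0), (nat_lit 0)), ((nat_lit 1000), (nat_lit 959), (nat_lit 206)), ((nat_lit 929), (nat_lit 1000), (nat_lit 742))], ((nat_lit 100), (nat_lit 87), (nat_lit 82))⟩, (nat_lit 70096), (nat_lit 430), (nat_lit 430), (nat_lit 0), (nat_lit 389793), [(nat_lit 510992000), (nat_lit 868512000), (nat_lit 1294048000)], [], [(nat_lit 4407906342), (nat_lit 4090016512), (nat_lit 3986311690), (nat_lit 4069934846), (nat_lit 4353435104), (nat_lit 4283870805), (nat_lit 4590240545), (nat_lit 4248049232)], (nat_lit 1271251), (nat_lit 1271251), (nat_lit 936250), (nat_lit 1100000), (nat_lit 0), (nat_lit 2683751), [(nat_lit 1100000), (nat_lit 1785001), (nat_lit 1271251)], [(nat_lit 18), (nat_lit 59), (nat_lit 456), (nat_lit 225), (nat_lit 12)]⟩,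
 ⟨⟨[(nat_lit 120), (nat_lit 160), (nat_lit 200)], [(nat_lit 0), (nat_lit 0), (nat_lit 3198)], [((nat_lit 0), (nat_lit 0), (nat_lit 0)), ((nat_lit 0), (nat_lit 0), (nat_lit 0)), ((nat_lit 572), (nat_lit 1000), (nat_lit 714))], ((nat_lit 0), (nat_lit 0), (nat_lit 0))⟩, (nat_lit 11707), (nat_lit 300), (nat_lit 972), (nat_lit 1780806), (nat_lit 1226183), [(nat_lit 191232000), (nat_lit 284928000), (nat_lit 393600000)], [], [(nat_lit 1566128672), (nat_lit 1548954302), (nat_lit 1557485904), (nat_lit 1542798600), (nat_lit 1208994802), (nat_lit 1200634695), (nat_lit 1200582572), (nat_lit 1183552762)], (nat_lit 1100000), (nat_lit 1271251), (nat_lit 1271251), (nat_lit 1271251), (nat_lit 0), (nat_lit 2683751), [(nat_lit 1695001), (nat_lit 1271251), (nat_lit 1271251)], [(nat_lit 29), (nat_lit 66), (nat_lit 456), (nat_lit 225), (nat_lit 10)]⟩⟩))) (.trZ (nat_lit 0) (nat_lit 1) (nat_lit 3) (nat_lit 94) (nat_lit 62) (nat_lit 100) (nat_lit 150) (.spl (nat_lit 0)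 (nat_lit 365) (.spl (nat_lit 1) (nat_lit 300) (.leaf ⟨(nat_lit 855), (nat_lit 114), (nat_lit 0), (nat_lit 31), (nat_lit 0), (nat_lit 3169), (nat_lit 1771), (nat_lit 345), (nat_lit 0), (nat_lit 0), (nat_lit 213750), [((nat_lit 365), [((nat_lit 25), (nat_lit 0), (nat_lit 855))])], ⟨(nat_lit 7), false, false, false, (nat_lit 213), (nat_lit 2958), (nat_lit 3163), [(nat_lit 1512412), (nat_lit 1514066), (nat_lit 1534563), (nat_lit 1536340), (nat_lit 1527651), (nat_lit 1529072), (nat_lit 1549803), (nat_lit 1551346)]⟩, ⟨(nat_lit 6), false, false, true, (nat_lit 220), (nat_lit 2958), (nat_lit 3163), [(nat_lit 1502809), (nat_lit 1500922), (nat_lit 1569274), (nat_lit 1567753), (nat_lit 1533286), (nat_lit 1530932), (nat_lit 1599750), (nat_lit 1597763)]⟩, (nat_lit 5136085), (nat_lit 40115212), (nat_lit 13076590), (nat_lit 13808198), (nat_lit 6), (nat_lit 0), [⟨(nat_lit 0), (nat_lit 94), (nat_lit 62), (nat_lit 100), (nat_lit 806340950)⟩], [⟨(nat_lit 1), (nat_lit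 96), (nat_lit 60), (nat_lit 100), (nat_lit 9748414)⟩], [], [],
 ⟨⟨[(nat_lit 40), (nat_lit 80), (nat_lit 100)], [(nat_lit 0), (nat_lit 1598), (nat_lit 2533)], [((nat_lit 0), (nat_lit 0), (nat_lit 0)), ((nat_lit 1000), (nat_lit 625), (nat_lit 623)), ((nat_lit 1000), (nat_lit 604), (nat_lit 730))], ((nat_lit 60), (nat_lit 100), (nat_lit 78))⟩, (nat_lit 0), (nat_lit 57), (nat_lit 57), (nat_lit 0), (nat_lit 0), [(nat_lit 1567150020), (nat_lit 100206733746), (nat_lit 2717140000)], [(nat_lit 0), (nat_lit 0), (nat_lit 0)], [(nat_lit 22832661452), (nat_lit 23155366538), (nat_lit 22914884738), (nat_lit 23233459963), (nat_lit 23704344208), (nat_lit 24030507093), (nat_lit 23760532471), (nat_lit 24082420739)], (nat_lit 0), (nat_lit 0), (nat_lit 0), (nat_lit 0), (nat_lit 0), (nat_lit 0), [], [(nat_lit 3), (nat_lit 50), (nat_lit 249), (nat_lit 40), (nat_lit 8)]⟩,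
 ⟨⟨[(nat_lit 60), (nat_lit 120), (nat_lit 160)], [(nat_lit 0), (nat_lit 0), (nat_lit 3243)], [((nat_lit 0), (nat_lit 0), (nat_lit 0)), ((nat_lit 0), (nat_lit 0), (nat_lit 0)), ((nat_lit 878), (nat_lit 1000), (nat_lit 945))], ((nat_lit 100), (nat_lit 96), (nat_lit 86))⟩, (nat_lit 56535), (nat_lit 529), (nat_lit 529), (nat_lit 0), (nat_lit 547305), [(nat_lit 475890000), (nat_lit 1155360000), (nat_lit 1721440000)], [], [(nat_lit 5174408226), (nat_lit 5471162576), (nat_lit 5131360711), (nat_lit 5423155817), (nat_lit 5293931169), (nat_lit 5398844196), (nat_lit 5226275424), (nat_lit 5328911175)], (nat_lit 1271251), (nat_lit 1271251), (nat_lit 1017188), (nat_lit 1100000), (nat_lit 0), (nat_lit 2683751), [(nat_lit 780000), (nat_lit 1762501), (nat_lit 1271251)], [(nat_lit 12), (nat_lit 59), (nat_lit 456), (nat_lit 225), (nat_lit 12)]⟩,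
 ⟨⟨[(nat_lit 140), (nat_lit 180), (nat_lit 200)], [(nat_lit 0), (nat_lit 0), (nat_lit 2835)], [((nat_lit 0), (nat_lit 0), (nat_lit 0)), ((nat_lit 0), (nat_lit 0), (nat_lit 0)), ((nat_lit 363), (nat_lit 1000), (nat_lit 798))], ((nat_lit 0), (nat_lit 0), (nat_lit 0))⟩, (nat_lit 8529), (nat_lit 300), (nat_lit 2095), (nat_lit 2421102), (nat_lit 3565092), [(nat_lit 305102000), (nat_lit 435798000), (nat_lit 508400000)], [], [(nat_lit 2245142464), (nat_lit 2174212447), (nat_lit 2230317564), (nat_lit 2155314289), (nat_lit 1810713979), (nat_lit 1920268576), (nat_lit 1791968202), (nat_lit 1774404107)], (nat_lit 780000), (nat_lit 1271251), (nat_lit 1271251), (nat_lit 1271251), (nat_lit 0), (nat_lit 2683751), [(nat_lit 1977501), (nat_lit 1271251), (nat_lit 1271251)], [(nat_lit 32), (nat_lit 67), (nat_lit 629), (nat_lit 225), (nat_lit 13)]⟩⟩) (.emL (nat_lit 0) (nat_lit 1) (nat_lit 3) (nat_lit 87) (nat_lit 60) (nat_lit 100))) (.emL (nat_lit 0) (nat_lit 1) (nat_lit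 3) (nat_lit 93) (nat_lit 58) (nat_lit 100))))))))
noncomputable def c17_69 : Tr Lf :=
 (.trX (nat_lit 5) (nat_lit 4) (nat_lit 3) (nat_lit 94) (nat_lit 59) (nat_lit 100) (nat_lit 370) (.spl (nat_lit 2) (nat_lit 160) (.trX (nat_lit 4) (nat_lit 0) (nat_lit 2) (nat_lit 61) (nat_lit 92) (nat_lit 100) (nat_lit 290) (.spl (nat_lit 1) (nat_lit 280) (.spl (nat_lit 6) (nat_lit 60) (.leaf ⟨(nat_lit 932), (nat_lit 40), (nat_lit 0), (nat_lit 28), (nat_lit 0), (nat_lit 3906), (nat_lit 770), (nat_lit 334), (nat_lit 0), (nat_lit 0), (nat_lit 233000), [((nat_lit 370), [((nat_lit 25), (nat_lit 0), (nat_lit 932))])], ⟨(nat_lit 6), false, false, false, (nat_lit 188), (nat_lit 2738), (nat_lit 3163), [(nat_lit 1407099), (nat_lit 1411881), (nat_lit 1451384), (nat_lit 1456691), (nat_lit 1483313), (nat_lit 1485730), (nat_lit 1527599), (nat_lit 1530541)]⟩, ⟨(nat_lit 7), false, false, true, (nat_lit 224), (nat_lit 2738), (nat_lit 3163), [(nat_lit 1533286), (nat_lit 1528452),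 (nat_lit 1577595), (nat_lit 1573286), (nat_lit 1548524), (nat_lit 1543217), (nat_lit 1592834), (nat_lit 1588052)]⟩, (nat_lit 4981848), (nat_lit 41496650), (nat_lit 10956683), (nat_lit 14546667), (nat_lit 7), (nat_lit 0), [⟨(nat_lit 0), (nat_lit 100), (nat_lit 59), (nat_lit 100), (nat_lit 171870410)⟩], [⟨(nat_lit 1), (nat_lit 92), (nat_lit 61), (nat_lit 100), (nat_lit 363348999)⟩], [], [],
 ⟨⟨[(nat_lit 40), (nat_lit 80), (nat_lit 100)], [(nat_lit 0), (nat_lit 1598), (nat_lit 2533)], [((nat_lit 0), (nat_lit 0), (nat_lit 0)), ((nat_lit 1000), (nat_lit 625), (nat_lit 623)), ((nat_lit 1000), (nat_lit 604), (nat_lit 730))], ((nat_lit 61), (nat_lit 100), (nat_lit 72))⟩, (nat_lit 0), (nat_lit 74), (nat_lit 74), (nat_lit 0), (nat_lit 0), [(nat_lit 1586278146), (nat_lit 1917723218), (nat_lit 2398976000)], [(nat_lit 0), (nat_lit 0), (nat_lit 0)], [(nat_lit 24228652712), (nat_lit 24988236350), (nat_lit 24332304134), (nat_lit 25038472079), (nat_lit 24729538677),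 (nat_lit 25470966392), (nat_lit 24798193370), (nat_lit 25493880725)], (nat_lit 0), (nat_lit 0), (nat_lit 0), (nat_lit 0), (nat_lit 0), (nat_lit 0), [], [(nat_lit 3), (nat_lit 50), (nat_lit 249), (nat_lit 40), (nat_lit 8)]⟩,
 ⟨⟨[(nat_lit 80), (nat_lit 120), (nat_lit 160)], [(nat_lit 0), (nat_lit 0), (nat_lit 2132)], [((nat_lit 0), (nat_lit 0), (nat_lit 0)), ((nat_lit 0), (nat_lit 0), (nat_lit 0)), ((nat_lit 858), (nat_lit 1000), (nat_lit 713))], ((nat_lit 100), (nat_lit 85), (nat_lit 73))⟩, (nat_lit 12022), (nat_lit 555), (nat_lit 555), (nat_lit 0), (nat_lit 565055), [(nat_lit 318784000), (nat_lit 541824000), (nat_lit 807296000)], [], [(nat_lit 2787915150), (nat_lit 2530920763), (nat_lit 2317019792), (nat_lit 2442704364), (nat_lit 3688233212), (nat_lit 3020968392), (nat_lit 4171537229), (nat_lit 3514540119)], (nat_lit 1271251), (nat_lit 1271251), (nat_lit 704688), (nat_lit 1100000), (nat_lit 0), (nat_lit 2613125), [(nat_lit 1100000), (nat_lit 1785001),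 (nat_lit 1271251)], [(nat_lit 18), (nat_lit 59), (nat_lit 456), (nat_lit 225), (nat_lit 12)]⟩,
 ⟨⟨[(nat_lit 140), (nat_lit 180), (nat_lit 200)], [(nat_lit 0), (nat_lit 0), (nat_lit 2835)], [((nat_lit 0), (nat_lit 0), (nat_lit 0)), ((nat_lit 0), (nat_lit 0), (nat_lit 0)), ((nat_lit 363), (nat_lit 1000), (nat_lit 798))], ((nat_lit 0), (nat_lit 0), (nat_lit 0))⟩, (nat_lit 7704), (nat_lit 300), (nat_lit 1863), (nat_lit 2186800), (nat_lit 3113497), [(nat_lit 275576000), (nat_lit 393624000), (nat_lit 459200000)], [], [(nat_lit 1937574828), (nat_lit 1880131956), (nat_lit 1932321985), (nat_lit 1874724501), (nat_lit 1498696398), (nat_lit 1469817833), (nat_lit 1493906002), (nat_lit 1437270282)], (nat_lit 780000), (nat_lit 1100000), (nat_lit 1271251), (nat_lit 1271251), (nat_lit 0), (nat_lit 2613125), [(nat_lit 1977501), (nat_lit 1271251), (nat_lit 1271251)], [(nat_lit 32), (nat_lit 67), (nat_lit 569), (nat_lit 225), (nat_lit 12)]⟩⟩) (.spl (nat_lit 1) (nat_lit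 260) (.leaf ⟨(nat_lit 1000), (nat_lit 0), (nat_lit 0), (nat_lit 0), (nat_lit 300000), (nat_lit 3628), (nat_lit 0), (nat_lit 0), (nat_lit 0), (nat_lit 0), (nat_lit 250000), [((nat_lit 370), [((nat_lit 25), (nat_lit 0), (nat_lit 1000))])], ⟨(nat_lit 6), false, false, false, (nat_lit 183), (nat_lit 2738), (nat_lit 3163), [(nat_lit 1407099), (nat_lit 1411881), (nat_lit 1429241), (nat_lit 1434286), (nat_lit 1483313), (nat_lit 1485730), (nat_lit 1505456), (nat_lit 1508135)]⟩, ⟨(nat_lit 7), false, false, true, (nat_lit 224), (nat_lit 2738), (nat_lit 3163), [(nat_lit 1533286), (nat_lit 1528452), (nat_lit 1577595), (nat_lit 1573286), (nat_lit 1548524), (nat_lit 1543217), (nat_lit 1592834), (nat_lit 1588052)]⟩, (nat_lit 4946150), (nat_lit 41791706), (nat_lit 10596194), (nat_lit 14612100), (nat_lit 0), (nat_lit 0), [⟨(nat_lit 0), (nat_lit 100), (nat_lit 58), (nat_lit 97), (nat_lit 70571700)⟩], [⟨(nat_lit 1), (nat_lit 92), (nat_lit 61), (nat_lit 100), (nat_lit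 15589128534)⟩], [], [],
 ⟨⟨[(nat_lit 40), (nat_lit 80), (nat_lit 100)], [(nat_lit 0), (nat_lit 1598), (nat_lit 2533)], [((nat_lit 0), (nat_lit 0), (nat_lit 0)), ((nat_lit 1000), (nat_lit 625), (nat_lit 623)), ((nat_lit 1000), (nat_lit 604), (nat_lit 730))], ((nat_lit 60), (nat_lit 100), (nat_lit 78))⟩, (nat_lit 0), (nat_lit 74), (nat_lit 74), (nat_lit 0), (nat_lit 0), [(nat_lit 1534249275), (nat_lit 1715600015), (nat_lit 2118000000)], [(nat_lit 0), (nat_lit 0), (nat_lit 0)], [(nat_lit 24010064276), (nat_lit 24677851678), (nat_lit 24252755023), (nat_lit 24842309057), (nat_lit 24436842409), (nat_lit 25148101836), (nat_lit 24654597377), (nat_lit 25243528711)], (nat_lit 0), (nat_lit 0), (nat_lit 0), (nat_lit 0), (nat_lit 0), (nat_lit 0), [], [(nat_lit 3), (nat_lit 50), (nat_lit 249), (nat_lit 40), (nat_lit 8)]⟩,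
 Rw.none,
 Rw.none⟩) (.trZ (nat_lit 0) (nat_lit 1) (nat_lit 3) (nat_lit 100) (nat_lit 63) (nat_lit 99) (nat_lit 130) (.leaf ⟨(nat_lit 0), (nat_lit 446), (nat_lit 0), (nat_lit 554), (nat_lit 100317), (nat_lit 6125), (nat_lit 9236), (nat_lit 6705), (nat_lit 0), (nat_lit 0), (nat_lit 0), [], Pd.none, Pd.none, (nat_lit 0), (nat_lit 1), (nat_lit 0), (nat_lit 0), (nat_lit 7), (nat_lit 0), [⟨(nat_lit 0), (nat_lit 97), (nat_lit 58), (nat_lit 100), (nat_lit 1235903161)⟩], [⟨(nat_lit 1), (nat_lit 92), (nat_lit 61), (nat_lit 100), (nat_lit 10445659117)⟩], [], [],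
 ⟨⟨[(nat_lit 40), (nat_lit 80), (nat_lit 100)], [(nat_lit 0), (nat_lit 1598), (nat_lit 2533)], [((nat_lit 0), (nat_lit 0), (nat_lit 0)), ((nat_lit 1000), (nat_lit 625), (nat_lit 623)), ((nat_lit 1000), (nat_lit 604), (nat_lit 730))], ((nat_lit 60), (nat_lit 100), (nat_lit 78))⟩, (nat_lit 0), (nat_lit 68), (nat_lit 68), (nat_lit 0), (nat_lit 0), [(nat_lit 2606781882), (nat_lit 4688000040), (nat_lit 6250000000)], [], [(nat_lit 26300949657), (nat_lit 27258356422), (nat_lit 26124192790), (nat_lit 26947294157), (nat_lit 26893348907), (nat_lit 27825723198), (nat_lit 26611227790), (nat_lit 27492194102)], (nat_lit 0), (nat_lit 0), (nat_lit 0), (nat_lit 0), (nat_lit 0), (nat_lit 0), [], [(nat_lit 3), (nat_lit 50), (nat_lit 249), (nat_lit 40), (nat_lit 8)]⟩,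
 ⟨⟨[(nat_lit 80), (nat_lit 120), (nat_lit 160)], [(nat_lit 0), (nat_lit 528), (nat_lit 2577)], [((nat_lit 0), (nat_lit 0), (nat_lit 0)), ((nat_lit 1000), (nat_lit 959), (nat_lit 206)), ((nat_lit 929), (nat_lit 1000), (nat_lit 742))], ((nat_lit 100), (nat_lit 87), (nat_lit 82))⟩, (nat_lit 4510388), (nat_lit 406), (nat_lit 406), (nat_lit 0), (nat_lit 316550), [(nat_lit 4688000000), (nat_lit 7968000000), (nat_lit 11872000000)], [], [(nat_lit 27475099292), (nat_lit 24355283759), (nat_lit 23990955140), (nat_lit 23845513460), (nat_lit 49252185314), (nat_lit 45274961388), (nat_lit 53172622324), (nat_lit 49232346150)], (nat_lit 1271251), (nat_lit 1271251), (nat_lit 857188), (nat_lit 1100000), (nat_lit 0), (nat_lit 2613125), [(nat_lit 1100000), (nat_lit 1785001), (nat_lit 1271251)], [(nat_lit 18), (nat_lit 59), (nat_lit 456), (nat_lit 225), (nat_lit 12)]⟩,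
 ⟨⟨[(nat_lit 140), (nat_lit 180), (nat_lit 200)], [(nat_lit 0), (nat_lit 0), (nat_lit 2835)], [((nat_lit 0), (nat_lit 0), (nat_lit 0)), ((nat_lit 0), (nat_lit 0), (nat_lit 0)), ((nat_lit 363), (nat_lit 1000), (nat_lit 798))], ((nat_lit 0), (nat_lit 0), (nat_lit 0))⟩, (nat_lit 152423), (nat_lit 300), (nat_lit 1241), (nat_lit 43267404), (nat_lit 1770294), [(nat_lit 5452468000), (nat_lit 7788132000), (nat_lit 9085600000)], [], [(nat_lit 38041194650), (nat_lit 36884054884), (nat_lit 37975394004), (nat_lit 36842837201), (nat_lit 29361322250), (nat_lit 29073072736), (nat_lit 29263914099), (nat_lit 28122872333)], (nat_lit 780000), (nat_lit 1100000), (nat_lit 1271251), (nat_lit 1271251), (nat_lit 0), (nat_lit 2613125), [(nat_lit 1977501), (nat_lit 1271251), (nat_lit 1271251)], [(nat_lit 32), (nat_lit 67), (nat_lit 456), (nat_lit 225), (nat_lit 10)]⟩⟩)))) (.trZ (nat_lit 0) (nat_lit 1) (nat_lit 3) (nat_lit 94) (nat_lit 62) (nat_lit 100) (nat_lit 150) (.spl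 (nat_lit 2) (nat_lit 140) (.emL (nat_lit 4) (nat_lit 0) (nat_lit 2) (nat_lit 63) (nat_lit 99) (nat_lit 100)) (.leaf ⟨(nat_lit 707), (nat_lit 205), (nat_lit 0), (nat_lit 88), (nat_lit 0), (nat_lit 4464), (nat_lit 3320), (nat_lit 922), (nat_lit 0), (nat_lit 0), (nat_lit 176750), [((nat_lit 370), [((nat_lit 25), (nat_lit 0), (nat_lit 707))])], ⟨(nat_lit 7), false, false, false, (nat_lit 218), (nat_lit 2738), (nat_lit 3163), [(nat_lit 1512356), (nat_lit 1515771), (nat_lit 1556642), (nat_lit 1560582), (nat_lit 1527599), (nat_lit 1530541), (nat_lit 1571884), (nat_lit 1575351)]⟩, ⟨(nat_lit 7), false, false, true, (nat_lit 229), (nat_lit 2738), (nat_lit 3163), [(nat_lit 1555441), (nat_lit 1550869), (nat_lit 1577595), (nat_lit 1573286), (nat_lit 1570679), (nat_lit 1565634), (nat_lit 1592834), (nat_lit 1588052)]⟩, (nat_lit 5216310), (nat_lit 39204483), (nat_lit 13338970), (nat_lit 14456547), (nat_lit 7), (nat_lit 0), [⟨(nat_lit 0), (nat_lit 94), (nat_lit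 62), (nat_lit 100), (nat_lit 1253336840)⟩], [⟨(nat_lit 1), (nat_lit 92), (nat_lit 61), (nat_lit 100), (nat_lit 590863847)⟩], [], [],
 ⟨⟨[(nat_lit 40), (nat_lit 80), (nat_lit 100)], [(nat_lit 0), (nat_lit 1598), (nat_lit 2533)], [((nat_lit 0), (nat_lit 0), (nat_lit 0)), ((nat_lit 1000), (nat_lit 625), (nat_lit 623)), ((nat_lit 1000), (nat_lit 604), (nat_lit 730))], ((nat_lit 60), (nat_lit 100), (nat_lit 78))⟩, (nat_lit 0), (nat_lit 62), (nat_lit 62), (nat_lit 0), (nat_lit 0), [(nat_lit 1739892072), (nat_lit 2586513201), (nat_lit 3328676000)], [(nat_lit 0), (nat_lit 0), (nat_lit 0)], [(nat_lit 24762682634), (nat_lit 25537026379), (nat_lit 24755064105), (nat_lit 25518473304), (nat_lit 25265316002), (nat_lit 26020912332), (nat_lit 25250865708), (nat_lit 25996385846)], (nat_lit 0), (nat_lit 0), (nat_lit 0), (nat_lit 0), (nat_lit 0), (nat_lit 0), [], [(nat_lit 3), (nat_lit 50), (nat_lit 249), (nat_lit 40), (nat_lit 8)]⟩,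
 ⟨⟨[(nat_lit 60), (nat_lit 120), (nat_lit 160)], [(nat_lit 0), (nat_lit 0), (nat_lit 3243)], [((nat_lit 0), (nat_lit 0), (nat_lit 0)), ((nat_lit 0), (nat_lit 0), (nat_lit 0)), ((nat_lit 878), (nat_lit 1000), (nat_lit 945))], ((nat_lit 100), (nat_lit 96), (nat_lit 86))⟩, (nat_lit 725012), (nat_lit 542), (nat_lit 542), (nat_lit 0), (nat_lit 582839), [(nat_lit 961626000), (nat_lit 2334624000), (nat_lit 3478496000)], [], [(nat_lit 8361243188), (nat_lit 9501045256), (nat_lit 8285284502), (nat_lit 9406302996), (nat_lit 10020039559), (nat_lit 10215312141), (nat_lit 10481609124), (nat_lit 10092404637)], (nat_lit 1271251), (nat_lit 1271251), (nat_lit 1017188), (nat_lit 1100000), (nat_lit 0), (nat_lit 2613125), [(nat_lit 780000), (nat_lit 1762501), (nat_lit 1271251)], [(nat_lit 12), (nat_lit 59), (nat_lit 456), (nat_lit 225), (nat_lit 12)]⟩,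
 ⟨⟨[(nat_lit 140), (nat_lit 180), (nat_lit 200)], [(nat_lit 0), (nat_lit 608), (nat_lit 3317)], [((nat_lit 0), (nat_lit 0), (nat_lit 0)), ((nat_lit 913), (nat_lit 1000), (nat_lit 217)), ((nat_lit 385), (nat_lit 1000), (nat_lit 814))], ((nat_lit 0), (nat_lit 0), (nat_lit 0))⟩, (nat_lit 203211), (nat_lit 300), (nat_lit 1866), (nat_lit 6186400), (nat_lit 3141877), [(nat_lit 866096000), (nat_lit 1237104000), (nat_lit 1443200000)], [], [(nat_lit 5854068516), (nat_lit 5777456868), (nat_lit 5840958392), (nat_lit 5764122237), (nat_lit 4631683450), (nat_lit 4630434467), (nat_lit 4613796701), (nat_lit 4537975857)], (nat_lit 936250), (nat_lit 1100000), (nat_lit 1271251), (nat_lit 1271251), (nat_lit 0), (nat_lit 2613125), [(nat_lit 1977501), (nat_lit 1271251), (nat_lit 1271251)], [(nat_lit 32), (nat_lit 67), (nat_lit 569), (nat_lit 225), (nat_lit 12)]⟩⟩))))) (.spl (nat_lit 1) (nat_lit 280) (.spl (nat_lit 1) (nat_lit 260) (.spl (nat_lit 6) (nat_lit 64) (.leaf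 ⟨(nat_lit 922), (nat_lit 39), (nat_lit 0), (nat_lit 39), (nat_lit 3438), (nat_lit 3675), (nat_lit 927), (nat_lit 512), (nat_lit 0), (nat_lit 0), (nat_lit 230500), [((nat_lit 370), [((nat_lit 25), (nat_lit 0), (nat_lit 922))])], ⟨(nat_lit 6), false, false, false, (nat_lit 183), (nat_lit 2738), (nat_lit 3163), [(nat_lit 1407099), (nat_lit 1411881), (nat_lit 1429241), (nat_lit 1434286), (nat_lit 1483313), (nat_lit 1485730), (nat_lit 1505456), (nat_lit 1508135)]⟩, ⟨(nat_lit 7), false, false, true, (nat_lit 244), (nat_lit 2738), (nat_lit 3163), [(nat_lit 1577595), (nat_lit 1573286), (nat_lit 1599750), (nat_lit 1595704), (nat_lit 1623310), (nat_lit 1617582), (nat_lit 1645465), (nat_lit 1640000)]⟩, (nat_lit 5055593), (nat_lit 40316830), (nat_lit 10357656), (nat_lit 16325514), (nat_lit 7), (nat_lit 0), [⟨(nat_lit 0), (nat_lit 100), (nat_lit 58), (nat_lit 97), (nat_lit 160060727)⟩], [⟨(nat_lit 1), (nat_lit 91), (nat_lit 57), (nat_lit 100), (nat_lit 326247249)⟩],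 [], [],
 ⟨⟨[(nat_lit 40), (nat_lit 80), (nat_lit 100)], [(nat_lit 0), (nat_lit 1598), (nat_lit 2533)], [((nat_lit 0), (nat_lit 0), (nat_lit 0)), ((nat_lit 1000), (nat_lit 625), (nat_lit 623)), ((nat_lit 1000), (nat_lit 604), (nat_lit 730))], ((nat_lit 60), (nat_lit 100), (nat_lit 74))⟩, (nat_lit 0), (nat_lit 78), (nat_lit 78), (nat_lit 0), (nat_lit 0), [(nat_lit 1557935880), (nat_lit 1947447203), (nat_lit 2440296000)], [(nat_lit 0), (nat_lit 0), (nat_lit 0)], [(nat_lit 24231290363), (nat_lit 24862830907), (nat_lit 24463879253), (nat_lit 25056943153), (nat_lit 25517060450), (nat_lit 26147406983), (nat_lit 25674216953), (nat_lit 26228982863)], (nat_lit 0), (nat_lit 0), (nat_lit 0), (nat_lit 0), (nat_lit 0), (nat_lit 0), [], [(nat_lit 3), (nat_lit 50), (nat_lit 249), (nat_lit 40), (nat_lit 8)]⟩,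
 ⟨⟨[(nat_lit 80), (nat_lit 120), (nat_lit 160)], [(nat_lit 0), (nat_lit 0), (nat_lit 2132)], [((nat_lit 0), (nat_lit 0), (nat_lit 0)), ((nat_lit 0), (nat_lit 0), (nat_lit 0)), ((nat_lit 858), (nat_lit 1000), (nat_lit 713))], ((nat_lit 100), (nat_lit 83), (nat_lit 75))⟩, (nat_lit 0), (nat_lit 417), (nat_lit 417), (nat_lit 0), (nat_lit 326302), [(nat_lit 365664000), (nat_lit 621504000), (nat_lit 926016000)], [], [(nat_lit 3230146713), (nat_lit 2795936229), (nat_lit 2591237688), (nat_lit 2694819147), (nat_lit 4248083863), (nat_lit 3846425105), (nat_lit 4823820266), (nat_lit 4428342135)], (nat_lit 1271251), (nat_lit 1271251), (nat_lit 704688), (nat_lit 1100000), (nat_lit 0), (nat_lit 2613125), [(nat_lit 1100000), (nat_lit 1785001), (nat_lit 1271251)], [(nat_lit 18), (nat_lit 59), (nat_lit 428), (nat_lit 200), (nat_lit 11)]⟩,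
 ⟨⟨[(nat_lit 120), (nat_lit 160), (nat_lit 200)], [(nat_lit 0), (nat_lit 0), (nat_lit 3198)], [((nat_lit 0), (nat_lit 0), (nat_lit 0)), ((nat_lit 0), (nat_lit 0), (nat_lit 0)), ((nat_lit 572), (nat_lit 1000), (nat_lit 714))], ((nat_lit 0), (nat_lit 0), (nat_lit 0))⟩, (nat_lit 19024), (nat_lit 300), (nat_lit 824), (nat_lit 2893807), (nat_lit 876924), [(nat_lit 310752000), (nat_lit 463008000), (nat_lit 639600000)], [], [(nat_lit 2445014172), (nat_lit 2416638632), (nat_lit 2433823380), (nat_lit 2405268050), (nat_lit 1841171074), (nat_lit 1814448149), (nat_lit 1833506665), (nat_lit 1805708723)], (nat_lit 1100000), (nat_lit 1271251), (nat_lit 1271251), (nat_lit 1271251), (nat_lit 0), (nat_lit 2613125), [(nat_lit 1695001), (nat_lit 1271251), (nat_lit 1271251)], [(nat_lit 29), (nat_lit 66), (nat_lit 456), (nat_lit 225), (nat_lit 10)]⟩⟩) (.dle (nat_lit 0))) (.trZ (nat_lit 0) (nat_lit 1) (nat_lit 3) (nat_lit 100) (nat_lit 63) (nat_lit 99) (nat_lit 130) (.spl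 (nat_lit 5) (nat_lit 200) (.leaf ⟨(nat_lit 573), (nat_lit 311), (nat_lit 0), (nat_lit 116), (nat_lit 0), (nat_lit 4688), (nat_lit 4633), (nat_lit 1526), (nat_lit 0), (nat_lit 0), (nat_lit 143250), [((nat_lit 370), [((nat_lit 25), (nat_lit 0), (nat_lit 573))])], ⟨(nat_lit 6), false, false, false, (nat_lit 198), (nat_lit 2738), (nat_lit 3163), [(nat_lit 1459728), (nat_lit 1463826), (nat_lit 1481870), (nat_lit 1486231), (nat_lit 1505456), (nat_lit 1508135), (nat_lit 1527599), (nat_lit 1530541)]⟩, ⟨(nat_lit 7), false, false, true, (nat_lit 244), (nat_lit 2738), (nat_lit 3163), [(nat_lit 1577595), (nat_lit 1573286), (nat_lit 1599750), (nat_lit 1595704), (nat_lit 1623310), (nat_lit 1617582), (nat_lit 1645465), (nat_lit 1640000)]⟩, (nat_lit 5167071), (nat_lit 39393969), (nat_lit 11538445), (nat_lit 16067586), (nat_lit 7), (nat_lit 0), [⟨(nat_lit 0), (nat_lit 97), (nat_lit 58), (nat_lit 100), (nat_lit 582712587)⟩], [⟨(nat_lit 1), (nat_lit 91), (nat_lit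 57), (nat_lit 100), (nat_lit 425478456)⟩], [], [],
 ⟨⟨[(nat_lit 40), (nat_lit 80), (nat_lit 100)], [(nat_lit 0), (nat_lit 1598), (nat_lit 2533)], [((nat_lit 0), (nat_lit 0), (nat_lit 0)), ((nat_lit 1000), (nat_lit 625), (nat_lit 623)), ((nat_lit 1000), (nat_lit 604), (nat_lit 730))], ((nat_lit 60), (nat_lit 100), (nat_lit 78))⟩, (nat_lit 0), (nat_lit 72), (nat_lit 72), (nat_lit 0), (nat_lit 0), [(nat_lit 1892999973), (nat_lit 2984814936), (nat_lit 3882364000)], [(nat_lit 0), (nat_lit 0), (nat_lit 0)], [(nat_lit 25045684123), (nat_lit 25801264468), (nat_lit 25054601104), (nat_lit 25723313818), (nat_lit 26561198834), (nat_lit 27317703698), (nat_lit 26444721564), (nat_lit 27172001060)], (nat_lit 0), (nat_lit 0), (nat_lit 0), (nat_lit 0), (nat_lit 0), (nat_lit 0), [], [(nat_lit 3), (nat_lit 50), (nat_lit 249), (nat_lit 40), (nat_lit 8)]⟩,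
 ⟨⟨[(nat_lit 80), (nat_lit 120), (nat_lit 160)], [(nat_lit 0), (nat_lit 528), (nat_lit 2577)], [((nat_lit 0), (nat_lit 0), (nat_lit 0)), ((nat_lit 1000), (nat_lit 959), (nat_lit 206)), ((nat_lit 929), (nat_lit 1000), (nat_lit 742))], ((nat_lit 100), (nat_lit 87), (nat_lit 82))⟩, (nat_lit 428058), (nat_lit 435), (nat_lit 435), (nat_lit 0), (nat_lit 389793), [(nat_lit 2001776000), (nat_lit 3402336000), (nat_lit 5069344000)], [], [(nat_lit 14058782803), (nat_lit 14626083580), (nat_lit 13778585043), (nat_lit 14316590844), (nat_lit 15150771048), (nat_lit 13045261632), (nat_lit 16875904115), (nat_lit 14791139825)], (nat_lit 1271251), (nat_lit 1271251), (nat_lit 857188), (nat_lit 1100000), (nat_lit 0), (nat_lit 1412501), [(nat_lit 1100000), (nat_lit 1785001), (nat_lit 1271251)], [(nat_lit 18), (nat_lit 59), (nat_lit 401), (nat_lit 175), (nat_lit 10)]⟩,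
 ⟨⟨[(nat_lit 120), (nat_lit 160), (nat_lit 200)], [(nat_lit 0), (nat_lit 0), (nat_lit 3198)], [((nat_lit 0), (nat_lit 0), (nat_lit 0)), ((nat_lit 0), (nat_lit 0), (nat_lit 0)), ((nat_lit 572), (nat_lit 1000), (nat_lit 714))], ((nat_lit 0), (nat_lit 0), (nat_lit 0))⟩, (nat_lit 56585), (nat_lit 300), (nat_lit 959), (nat_lit 8607206), (nat_lit 1226183), [(nat_lit 924288000), (nat_lit 1377152000), (nat_lit 1902400000)], [], [(nat_lit 7267626760), (nat_lit 7182980277), (nat_lit 7234146850), (nat_lit 7154078941), (nat_lit 5564384768), (nat_lit 5480775175), (nat_lit 5519881739), (nat_lit 5433776221)], (nat_lit 1100000), (nat_lit 1271251), (nat_lit 1271251), (nat_lit 1271251), (nat_lit 0), (nat_lit 1412501), [(nat_lit 1695001), (nat_lit 1271251), (nat_lit 1271251)], [(nat_lit 29), (nat_lit 66), (nat_lit 401), (nat_lit 175), (nat_lit 8)]⟩⟩) (.leaf ⟨(nat_lit 0), (nat_lit 0), (nat_lit 0), (nat_lit 1000), (nat_lit 0), (nat_lit 6087), (nat_lit 12082), (nat_lit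 11915), (nat_lit 0), (nat_lit 0), (nat_lit 0), [], Pd.none, Pd.none, (nat_lit 0), (nat_lit 1), (nat_lit 0), (nat_lit 0), (nat_lit 0), (nat_lit 0), [⟨(nat_lit 0), (nat_lit 97), (nat_lit 58), (nat_lit 100), (nat_lit 3521699124)⟩], [⟨(nat_lit 1), (nat_lit 91), (nat_lit 57), (nat_lit 100), (nat_lit 7115866467)⟩], [], [],
 ⟨⟨[(nat_lit 40), (nat_lit 80), (nat_lit 100)], [(nat_lit 0), (nat_lit 1598), (nat_lit 2533)], [((nat_lit 0), (nat_lit 0), (nat_lit 0)), ((nat_lit 1000), (nat_lit 625), (nat_lit 623)), ((nat_lit 1000), (nat_lit 604), (nat_lit 730))], ((nat_lit 60), (nat_lit 100), (nat_lit 78))⟩, (nat_lit 0), (nat_lit 72), (nat_lit 72), (nat_lit 0), (nat_lit 0), [(nat_lit 3006486440), (nat_lit 4688000001), (nat_lit 6250000000)], [], [(nat_lit 26312445368), (nat_lit 27219825111), (nat_lit 26140947483), (nat_lit 26914605901), (nat_lit 28038033248), (nat_lit 28917015819), (nat_lit 27701421230), (nat_lit 28544708167)], (nat_lit 0), (nat_lit 0), (nat_lit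 0), (nat_lit 0), (nat_lit 0), (nat_lit 0), [], [(nat_lit 3), (nat_lit 50), (nat_lit 249), (nat_lit 40), (nat_lit 8)]⟩,
 ⟨⟨[(nat_lit 80), (nat_lit 120), (nat_lit 160)], [(nat_lit 0), (nat_lit 528), (nat_lit 2577)], [((nat_lit 0), (nat_lit 0), (nat_lit 0)), ((nat_lit 1000), (nat_lit 959), (nat_lit 206)), ((nat_lit 929), (nat_lit 1000), (nat_lit 742))], ((nat_lit 100), (nat_lit 87), (nat_lit 82))⟩, (nat_lit 5309579), (nat_lit 328), (nat_lit 328), (nat_lit 0), (nat_lit 389793), [(nat_lit 4688000000), (nat_lit 7968000000), (nat_lit 11872000000)], [], [(nat_lit 12308606670), (nat_lit 13888614937), (nat_lit 11836258871), (nat_lit 13097980404), (nat_lit 31650814711), (nat_lit 33298646452), (nat_lit 30501322017), (nat_lit 32071608315)], (nat_lit 1271251), (nat_lit 1271251), (nat_lit 857188), (nat_lit 1100000), (nat_lit 1271251), (nat_lit 1271251), [(nat_lit 1100000), (nat_lit 1785001), (nat_lit 1271251)], [(nat_lit 18), (nat_lit 59), (nat_lit 456), (nat_lit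 225), (nat_lit 11)]⟩,
 ⟨⟨[(nat_lit 120), (nat_lit 160), (nat_lit 200)], [(nat_lit 0), (nat_lit 0), (nat_lit 3198)], [((nat_lit 0), (nat_lit 0), (nat_lit 0)), ((nat_lit 0), (nat_lit 0), (nat_lit 0)), ((nat_lit 572), (nat_lit 1000), (nat_lit 714))], ((nat_lit 0), (nat_lit 0), (nat_lit 0))⟩, (nat_lit 487805), (nat_lit 300), (nat_lit 840), (nat_lit 74200000), (nat_lit 1226183), [(nat_lit 7968000000), (nat_lit 11872000000), (nat_lit 16400000000)], [], [(nat_lit 51459980290), (nat_lit 50834741824), (nat_lit 51159029425), (nat_lit 50513906512), (nat_lit 49212198317), (nat_lit 48489159750), (nat_lit 48913170746), (nat_lit 48295096810)], (nat_lit 1100000), (nat_lit 1271251), (nat_lit 1271251), (nat_lit 1271251), (nat_lit 1271251), (nat_lit 1271251), [(nat_lit 1695001), (nat_lit 1271251), (nat_lit 1271251)], [(nat_lit 29), (nat_lit 66), (nat_lit 456), (nat_lit 225), (nat_lit 9)]⟩⟩)))) (.trZ (nat_lit 0) (nat_lit 1) (nat_lit 3) (nat_lit 94) (nat_lit 62) (nat_lit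 100) (nat_lit 150) (.leaf ⟨(nat_lit 0), (nat_lit 687), (nat_lit 0), (nat_lit 313), (nat_lit 0), (nat_lit 6203), (nat_lit 12770), (nat_lit 4003), (nat_lit 0), (nat_lit 0), (nat_lit 0), [], Pd.none, Pd.none, (nat_lit 0), (nat_lit 1), (nat_lit 0), (nat_lit 0), (nat_lit 7), (nat_lit 0), [⟨(nat_lit 0), (nat_lit 94), (nat_lit 62), (nat_lit 100), (nat_lit 3231853882)⟩], [⟨(nat_lit 1), (nat_lit 91), (nat_lit 57), (nat_lit 100), (nat_lit 511871215)⟩], [], [],
 ⟨⟨[(nat_lit 40), (nat_lit 80), (nat_lit 100)], [(nat_lit 0), (nat_lit 1598), (nat_lit 2533)], [((nat_lit 0), (nat_lit 0), (nat_lit 0)), ((nat_lit 1000), (nat_lit 625), (nat_lit 623)), ((nat_lit 1000), (nat_lit 604), (nat_lit 730))], ((nat_lit 60), (nat_lit 100), (nat_lit 78))⟩, (nat_lit 0), (nat_lit 66), (nat_lit 66), (nat_lit 0), (nat_lit 0), [(nat_lit 2542837525), (nat_lit 4688000012), (nat_lit 6250000000)], [], [(nat_lit 26183879950), (nat_lit 27122076404), (nat_lit 26089801470), (nat_lit 27014391102),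 (nat_lit 27923910467), (nat_lit 28788893695), (nat_lit 27805622203), (nat_lit 28658528056)], (nat_lit 0), (nat_lit 0), (nat_lit 0), (nat_lit 0), (nat_lit 0), (nat_lit 0), [], [(nat_lit 3), (nat_lit 50), (nat_lit 249), (nat_lit 40), (nat_lit 8)]⟩,
 ⟨⟨[(nat_lit 60), (nat_lit 120), (nat_lit 160)], [(nat_lit 0), (nat_lit 0), (nat_lit 3243)], [((nat_lit 0), (nat_lit 0), (nat_lit 0)), ((nat_lit 0), (nat_lit 0), (nat_lit 0)), ((nat_lit 878), (nat_lit 1000), (nat_lit 945))], ((nat_lit 100), (nat_lit 96), (nat_lit 86))⟩, (nat_lit 3549561), (nat_lit 520), (nat_lit 520), (nat_lit 0), (nat_lit 523263), [(nat_lit 3282000000), (nat_lit 7968000000), (nat_lit 11872000000)], [], [(nat_lit 27355483710), (nat_lit 29904820322), (nat_lit 25364294680), (nat_lit 29513117437), (nat_lit 33107713849), (nat_lit 36413481349), (nat_lit 34495101410), (nat_lit 35914997335)], (nat_lit 1271251), (nat_lit 1271251), (nat_lit 1017188), (nat_lit 1100000), (nat_lit 0), (nat_lit 2613125),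 [(nat_lit 780000), (nat_lit 1762501), (nat_lit 1271251)], [(nat_lit 12), (nat_lit 59), (nat_lit 456), (nat_lit 225), (nat_lit 12)]⟩,
 ⟨⟨[(nat_lit 120), (nat_lit 160), (nat_lit 200)], [(nat_lit 0), (nat_lit 0), (nat_lit 3198)], [((nat_lit 0), (nat_lit 0), (nat_lit 0)), ((nat_lit 0), (nat_lit 0), (nat_lit 0)), ((nat_lit 572), (nat_lit 1000), (nat_lit 714))], ((nat_lit 0), (nat_lit 0), (nat_lit 0))⟩, (nat_lit 152683), (nat_lit 300), (nat_lit 1379), (nat_lit 23224600), (nat_lit 2141897), [(nat_lit 2493984000), (nat_lit 3715936000), (nat_lit 5133200000)], [], [(nat_lit 19782707120), (nat_lit 19563369906), (nat_lit 19699491725), (nat_lit 19472473839), (nat_lit 14936828136), (nat_lit 14730460754), (nat_lit 14881273137), (nat_lit 14666460415)], (nat_lit 1100000), (nat_lit 1271251), (nat_lit 1271251), (nat_lit 1271251), (nat_lit 0), (nat_lit 2613125), [(nat_lit 1695001), (nat_lit 1271251), (nat_lit 1271251)], [(nat_lit 29), (nat_lit 66), (nat_lit 456), (nat_lit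 225), (nat_lit 10)]⟩⟩)))))
def l033 : List St := [⟨⟨(nat_lit 360), (nat_lit 380), (nat_lit 280), (nat_lit 320), (nat_lit 120), (nat_lit 160), (nat_lit 320), (nat_lit 400), (nat_lit 120), (nat_lit 240), (nat_lit 200), (nat_lit 370), (nat_lit 20), (nat_lit 40)⟩, (nat_lit 0), (nat_lit 3), (nat_lit 1), false, false, false⟩,
  ⟨⟨(nat_lit 360), (nat_lit 380), (nat_lit 280), (nat_lit 320), (nat_lit 160), (nat_lit 180), (nat_lit 240), (nat_lit 400), (nat_lit 120), (nat_lit 240), (nat_lit 200), (nat_lit 380), (nat_lit 20), (nat_lit 40)⟩, (nat_lit 0), (nat_lit 3), (nat_lit 1), false, false, false⟩,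
  ⟨⟨(nat_lit 360), (nat_lit 380), (nat_lit 280), (nat_lit 320), (nat_lit 120), (nat_lit 180), (nat_lit 240), (nat_lit 400), (nat_lit 120), (nat_lit 240), (nat_lit 200), (nat_lit 380), (nat_lit 20), (nat_lit 40)⟩, (nat_lit 1), (nat_lit 3), (nat_lit 1), false, false, false⟩,
  ⟨⟨(nat_lit 360), (nat_lit 380), (nat_lit 240), (nat_lit 320), (nat_lit 180), (nat_lit 220), (nat_lit 240), (nat_lit 400), (nat_lit 120), (nat_lit 240), (nat_lit 0), (nat_lit 400), (nat_lit 20), (nat_lit 40)⟩, (nat_lit 3), (nat_lit 3), (nat_lit 1), false, false, false⟩,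
  ⟨⟨(nat_lit 360), (nat_lit 380), (nat_lit 240), (nat_lit 320), (nat_lit 120), (nat_lit 220), (nat_lit 110), (nat_lit 240), (nat_lit 240), (nat_lit 340), (nat_lit 0), (nat_lit 200), (nat_lit 0), (nat_lit 40)⟩, (nat_lit 3), (nat_lit 0), (nat_lit 1), false, false, false⟩,
  ⟨⟨(nat_lit 360), (nat_lit 380), (nat_lit 240), (nat_lit 320), (nat_lit 120), (nat_lit 220), (nat_lit 110), (nat_lit 240), (nat_lit 240), (nat_lit 340), (nat_lit 200), (nat_lit 400), (nat_lit 0), (nat_lit 40)⟩, (nat_lit 3), (nat_lit 0), (nat_lit 1), false, false, false⟩,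
  ⟨⟨(nat_lit 360), (nat_lit 380), (nat_lit 240), (nat_lit 320), (nat_lit 120), (nat_lit 180), (nat_lit 110), (nat_lit 160), (nat_lit 240), (nat_lit 310), (nat_lit 0), (nat_lit 400), (nat_lit 0), (nat_lit 40)⟩, (nat_lit 0), (nat_lit 1), (nat_lit 1), false, false, false⟩,
  ⟨⟨(nat_lit 360), (nat_lit 380), (nat_lit 240), (nat_lit 280), (nat_lit 120), (nat_lit 160), (nat_lit 160), (nat_lit 240), (nat_lit 240), (nat_lit 290), (nat_lit 0), (nat_lit 390), (nat_lit 0), (nat_lit 40)⟩, (nat_lit 0), (nat_lit 1), (nat_lit 1), false, false, false⟩,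
  ⟨⟨(nat_lit 360), (nat_lit 380), (nat_lit 280), (nat_lit 320), (nat_lit 120), (nat_lit 160), (nat_lit 160), (nat_lit 240), (nat_lit 240), (nat_lit 290), (nat_lit 0), (nat_lit 390), (nat_lit 0), (nat_lit 40)⟩, (nat_lit 0), (nat_lit 1), (nat_lit 1), false, false, false⟩,
  ⟨⟨(nat_lit 360), (nat_lit 380), (nat_lit 240), (nat_lit 320), (nat_lit 160), (nat_lit 180), (nat_lit 160), (nat_lit 240), (nat_lit 240), (nat_lit 310), (nat_lit 0), (nat_lit 400), (nat_lit 0), (nat_lit 40)⟩, (nat_lit 0), (nat_lit 1), (nat_lit 1), false, false, false⟩,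
  ⟨⟨(nat_lit 360), (nat_lit 380), (nat_lit 240), (nat_lit 320), (nat_lit 120), (nat_lit 180), (nat_lit 110), (nat_lit 240), (nat_lit 240), (nat_lit 310), (nat_lit 0), (nat_lit 400), (nat_lit 0), (nat_lit 40)⟩, (nat_lit 1), (nat_lit 1), (nat_lit 1), false, false, false⟩,
  ⟨⟨(nat_lit 360), (nat_lit 380), (nat_lit 240), (nat_lit 280), (nat_lit 180), (nat_lit 220), (nat_lit 110), (nat_lit 160), (nat_lit 240), (nat_lit 340), (nat_lit 0), (nat_lit 400), (nat_lit 0), (nat_lit 40)⟩, (nat_lit 3), (nat_lit 1), (nat_lit 1), false, false, false⟩,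
  ⟨⟨(nat_lit 360), (nat_lit 380), (nat_lit 240), (nat_lit 280), (nat_lit 180), (nat_lit 220), (nat_lit 160), (nat_lit 240), (nat_lit 240), (nat_lit 340), (nat_lit 0), (nat_lit 400), (nat_lit 0), (nat_lit 40)⟩, (nat_lit 3), (nat_lit 1), (nat_lit 1), false, false, false⟩,
  ⟨⟨(nat_lit 360), (nat_lit 380), (nat_lit 280), (nat_lit 320), (nat_lit 180), (nat_lit 220), (nat_lit 110), (nat_lit 240), (nat_lit 240), (nat_lit 340), (nat_lit 0), (nat_lit 400), (nat_lit 0), (nat_lit 40)⟩, (nat_lit 3), (nat_lit 1), (nat_lit 1), false, false, false⟩,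
  ⟨⟨(nat_lit 360), (nat_lit 380), (nat_lit 240), (nat_lit 320), (nat_lit 120), (nat_lit 180), (nat_lit 240), (nat_lit 400), (nat_lit 240), (nat_lit 310), (nat_lit 10), (nat_lit 400), (nat_lit 0), (nat_lit 40)⟩, (nat_lit 3), (nat_lit 0), (nat_lit 1), false, false, false⟩,
  ⟨⟨(nat_lit 360), (nat_lit 380), (nat_lit 240), (nat_lit 280), (nat_lit 120), (nat_lit 160), (nat_lit 240), (nat_lit 320), (nat_lit 240), (nat_lit 290), (nat_lit 10), (nat_lit 390), (nat_lit 0), (nat_lit 40)⟩, (nat_lit 3), (nat_lit 1), (nat_lit 1), false, false, false⟩,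
  ⟨⟨(nat_lit 360), (nat_lit 380), (nat_lit 240), (nat_lit 280), (nat_lit 120), (nat_lit 160), (nat_lit 320), (nat_lit 380), (nat_lit 240), (nat_lit 290), (nat_lit 10), (nat_lit 390), (nat_lit 0), (nat_lit 40)⟩, (nat_lit 3), (nat_lit 1), (nat_lit 1), false, false, false⟩,
  ⟨⟨(nat_lit 360), (nat_lit 380), (nat_lit 240), (nat_lit 280), (nat_lit 160), (nat_lit 180), (nat_lit 240), (nat_lit 380), (nat_lit 240), (nat_lit 310), (nat_lit 10), (nat_lit 400), (nat_lit 0), (nat_lit 40)⟩, (nat_lit 3), (nat_lit 1), (nat_lit 1), false, false, false⟩,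
  ⟨⟨(nat_lit 360), (nat_lit 380), (nat_lit 280), (nat_lit 300), (nat_lit 120), (nat_lit 140), (nat_lit 240), (nat_lit 320), (nat_lit 240), (nat_lit 270), (nat_lit 10), (nat_lit 360), (nat_lit 0), (nat_lit 40)⟩, (nat_lit 3), (nat_lit 1), (nat_lit 1), false, false, false⟩,
  ⟨⟨(nat_lit 360), (nat_lit 380), (nat_lit 280), (nat_lit 300), (nat_lit 120), (nat_lit 140), (nat_lit 320), (nat_lit 390), (nat_lit 240), (nat_lit 270), (nat_lit 10), (nat_lit 360), (nat_lit 0), (nat_lit 40)⟩, (nat_lit 3), (nat_lit 1), (nat_lit 1), false, false, false⟩,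
  ⟨⟨(nat_lit 360), (nat_lit 380), (nat_lit 280), (nat_lit 300), (nat_lit 140), (nat_lit 160), (nat_lit 240), (nat_lit 390), (nat_lit 240), (nat_lit 290), (nat_lit 10), (nat_lit 370), (nat_lit 0), (nat_lit 40)⟩, (nat_lit 3), (nat_lit 1), (nat_lit 1), false, false, false⟩,
  ⟨⟨(nat_lit 360), (nat_lit 380), (nat_lit 300), (nat_lit 320), (nat_lit 120), (nat_lit 160), (nat_lit 240), (nat_lit 400), (nat_lit 240), (nat_lit 290), (nat_lit 10), (nat_lit 370), (nat_lit 0), (nat_lit 40)⟩, (nat_lit 3), (nat_lit 1), (nat_lit 1), false, false, false⟩,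
  ⟨⟨(nat_lit 360), (nat_lit 380), (nat_lit 280), (nat_lit 320), (nat_lit 160), (nat_lit 180), (nat_lit 240), (nat_lit 400), (nat_lit 240), (nat_lit 310), (nat_lit 10), (nat_lit 380), (nat_lit 0), (nat_lit 40)⟩, (nat_lit 3), (nat_lit 1), (nat_lit 1), false, false, false⟩,
  ⟨⟨(nat_lit 360), (nat_lit 380), (nat_lit 240), (nat_lit 320), (nat_lit 180), (nat_lit 220), (nat_lit 240), (nat_lit 400), (nat_lit 240), (nat_lit 340), (nat_lit 10), (nat_lit 400), (nat_lit 0), (nat_lit 40)⟩, (nat_lit 3), (nat_lit 3), (nat_lit 1), false, false, false⟩,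
  ⟨⟨(nat_lit 360), (nat_lit 380), (nat_lit 240), (nat_lit 320), (nat_lit 120), (nat_lit 220), (nat_lit 110), (nat_lit 400), (nat_lit 20), (nat_lit 120), (nat_lit 0), (nat_lit 400), (nat_lit 40), (nat_lit 76)⟩, (nat_lit 3), (nat_lit 0), (nat_lit 3), false, true, false⟩,
  ⟨⟨(nat_lit 360), (nat_lit 380), (nat_lit 240), (nat_lit 280), (nat_lit 120), (nat_lit 180), (nat_lit 110), (nat_lit 240), (nat_lit 20), (nat_lit 120), (nat_lit 0), (nat_lit 400), (nat_lit 40), (nat_lit 76)⟩, (nat_lit 3), (nat_lit 1), (nat_lit 3), false, true, false⟩,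
  ⟨⟨(nat_lit 360), (nat_lit 380), (nat_lit 240), (nat_lit 280), (nat_lit 180), (nat_lit 220), (nat_lit 110), (nat_lit 240), (nat_lit 20), (nat_lit 120), (nat_lit 0), (nat_lit 400), (nat_lit 40), (nat_lit 76)⟩, (nat_lit 3), (nat_lit 1), (nat_lit 3), false, true, false⟩,
  ⟨⟨(nat_lit 360), (nat_lit 380), (nat_lit 280), (nat_lit 320), (nat_lit 120), (nat_lit 220), (nat_lit 110), (nat_lit 240), (nat_lit 20), (nat_lit 120), (nat_lit 0), (nat_lit 400), (nat_lit 40), (nat_lit 76)⟩, (nat_lit 3), (nat_lit 1), (nat_lit 3), false, true, false⟩,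
  ⟨⟨(nat_lit 360), (nat_lit 380), (nat_lit 240), (nat_lit 280), (nat_lit 120), (nat_lit 220), (nat_lit 240), (nat_lit 320), (nat_lit 20), (nat_lit 120), (nat_lit 0), (nat_lit 370), (nat_lit 40), (nat_lit 76)⟩, (nat_lit 3), (nat_lit 1), (nat_lit 3), false, true, false⟩,
  ⟨⟨(nat_lit 360), (nat_lit 380), (nat_lit 240), (nat_lit 280), (nat_lit 120), (nat_lit 220), (nat_lit 320), (nat_lit 380), (nat_lit 20), (nat_lit 120), (nat_lit 0), (nat_lit 370), (nat_lit 40), (nat_lit 76)⟩, (nat_lit 3), (nat_lit 1), (nat_lit 3), false, true, false⟩,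
  ⟨⟨(nat_lit 360), (nat_lit 380), (nat_lit 280), (nat_lit 320), (nat_lit 120), (nat_lit 220), (nat_lit 240), (nat_lit 400), (nat_lit 20), (nat_lit 120), (nat_lit 0), (nat_lit 370), (nat_lit 40), (nat_lit 76)⟩, (nat_lit 3), (nat_lit 1), (nat_lit 3), false, true, false⟩,
  ⟨⟨(nat_lit 360), (nat_lit 380), (nat_lit 240), (nat_lit 280), (nat_lit 120), (nat_lit 180), (nat_lit 110), (nat_lit 240), (nat_lit 120), (nat_lit 200), (nat_lit 0), (nat_lit 400), (nat_lit 40), (nat_lit 76)⟩, (nat_lit 3), (nat_lit 3), (nat_lit 3), false, false, false⟩,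
  ⟨⟨(nat_lit 360), (nat_lit 380), (nat_lit 280), (nat_lit 320), (nat_lit 120), (nat_lit 180), (nat_lit 110), (nat_lit 240), (nat_lit 120), (nat_lit 200), (nat_lit 0), (nat_lit 400), (nat_lit 40), (nat_lit 76)⟩, (nat_lit 3), (nat_lit 3), (nat_lit 3), false, false, false⟩,
  ⟨⟨(nat_lit 360), (nat_lit 370), (nat_lit 240), (nat_lit 320), (nat_lit 120), (nat_lit 180), (nat_lit 110), (nat_lit 160), (nat_lit 200), (nat_lit 240), (nat_lit 0), (nat_lit 400), (nat_lit 40), (nat_lit 76)⟩, (nat_lit 0), (nat_lit 3), (nat_lit 3), false, false, false⟩,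
  ⟨⟨(nat_lit 360), (nat_lit 370), (nat_lit 240), (nat_lit 320), (nat_lit 120), (nat_lit 180), (nat_lit 110), (nat_lit 160), (nat_lit 240), (nat_lit 280), (nat_lit 0), (nat_lit 390), (nat_lit 40), (nat_lit 76)⟩, (nat_lit 0), (nat_lit 3), (nat_lit 3), false, false, false⟩,
  ⟨⟨(nat_lit 360), (nat_lit 370), (nat_lit 240), (nat_lit 320), (nat_lit 120), (nat_lit 180), (nat_lit 110), (nat_lit 160), (nat_lit 280), (nat_lit 310), (nat_lit 0), (nat_lit 390), (nat_lit 40), (nat_lit 76)⟩, (nat_lit 0), (nat_lit 3), (nat_lit 3), false, false, false⟩]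
theorem t033 (h : EC env Ei) : ∀ τ ∈ l033, Dead τ :=
  List.forall_mem_cons.mpr ⟨chkT_sound0 h (T := c17_34) (by decide +kernel),
  List.forall_mem_cons.mpr ⟨chkT_sound0 h (T := c17_35) (by decide +kernel),
  List.forall_mem_cons.mpr ⟨chkT_sound0 h (T := c17_36) (by decide +kernel),
  List.forall_mem_cons.mpr ⟨chkT_sound0 h (T := c17_37) (by decide +kernel),
  List.forall_mem_cons.mpr ⟨chkT_sound0 h (T := c17_38) (by decide +kernel),
  List.forall_mem_cons.mpr ⟨chkT_sound0 h (T := c17_39) (by decide +kernel),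
  List.forall_mem_cons.mpr ⟨chkT_sound0 h (T := c17_40) (by decide +kernel),
  List.forall_mem_cons.mpr ⟨chkT_sound0 h (T := c17_41) (by decide +kernel),
  List.forall_mem_cons.mpr ⟨chkT_sound0 h (T := c17_42) (by decide +kernel),
  List.forall_mem_cons.mpr ⟨chkT_sound0 h (T := c17_43) (by decide +kernel),
  List.forall_mem_cons.mpr ⟨chkT_sound0 h (T := c17_44) (by decide +kernel),
  List.forall_mem_cons.mpr ⟨chkT_sound0 h (T := c17_45) (by decide +kernel),
  List.forall_mem_cons.mpr ⟨chkT_sound0 h (T := c17_46) (by decide +kernel),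
  List.forall_mem_cons.mpr ⟨chkT_sound0 h (T := c17_47) (by decide +kernel),
  List.forall_mem_cons.mpr ⟨chkT_sound0 h (T := c17_48) (by decide +kernel),
  List.forall_mem_cons.mpr ⟨chkT_sound0 h (T := c17_49) (by decide +kernel),
  List.forall_mem_cons.mpr ⟨chkT_sound0 h (T := c17_50) (by decide +kernel),
  List.forall_mem_cons.mpr ⟨chkT_sound0 h (T := c17_51) (by decide +kernel),
  List.forall_mem_cons.mpr ⟨chkT_sound0 h (T := c17_52) (by decide +kernel),
  List.forall_mem_cons.mpr ⟨chkT_sound0 h (T := c17_53) (by decide +kernel),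
  List.forall_mem_cons.mpr ⟨chkT_sound0 h (T := c17_54) (by decide +kernel),
  List.forall_mem_cons.mpr ⟨chkT_sound0 h (T := c17_55) (by decide +kernel),
  List.forall_mem_cons.mpr ⟨chkT_sound0 h (T := c17_56) (by decide +kernel),
  List.forall_mem_cons.mpr ⟨chkT_sound0 h (T := c17_57) (by decide +kernel),
  List.forall_mem_cons.mpr ⟨chkT_sound0 h (T := c17_58) (by decide +kernel),
  List.forall_mem_cons.mpr ⟨chkT_sound0 h (T := c17_59) (by decide +kernel),
  List.forall_mem_cons.mpr ⟨chkT_sound0 h (T := c17_60) (by decide +kernel),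
  List.forall_mem_cons.mpr ⟨chkT_sound0 h (T := c17_61) (by decide +kernel),
  List.forall_mem_cons.mpr ⟨chkT_sound0 h (T := c17_62) (by decide +kernel),
  List.forall_mem_cons.mpr ⟨chkT_sound0 h (T := c17_63) (by decide +kernel),
  List.forall_mem_cons.mpr ⟨chkT_sound0 h (T := c17_64) (by decide +kernel),
  List.forall_mem_cons.mpr ⟨chkT_sound0 h (T := c17_65) (by decide +kernel),
  List.forall_mem_cons.mpr ⟨chkT_sound0 h (T := c17_66) (by decide +kernel),
  List.forall_mem_cons.mpr ⟨chkT_sound0 h (T := c17_67) (by decide +kernel),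
  List.forall_mem_cons.mpr ⟨chkT_sound0 h (T := c17_68) (by decide +kernel),
  List.forall_mem_cons.mpr ⟨chkT_sound0 h (T := c17_69) (by decide +kernel),
  List.forall_mem_nil _⟩⟩⟩⟩⟩⟩⟩⟩⟩⟩⟩⟩⟩⟩⟩⟩⟩⟩⟩⟩⟩⟩⟩⟩⟩⟩⟩⟩⟩⟩⟩⟩⟩⟩⟩⟩
end TC
end Pool.Agent.Lib.MP_6947cd_al
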