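import Pool.Agent.Lib.MP_6947cd_al.C.LeafF
import Pool.Agent.Lib.MP_6947cd_al.TC.E
import Pool.Agent.Lib.MP_6947cd_al.TC.F

/-!
Problem MP_6947cd_al (Chollet).  CASE C, tables and certificates.  Trees of leaves (part 34 of root 17).
-/

set_option autoImplicit false
set_option linter.all false
set_option maxRecDepth 100000
set_option maxHeartbeats 4000000
namespace Pool.Agent.Lib.MP_6947cd_al
namespace TC
open C1
noncomputable def c17_70 : Tr Lf :=
 (.trZ (nat_lit 0) (nat_lit 1) (nat_lit 3) (nat_lit 100) (nat_lit 54) (nat_lit 96) (nat_lit 130) (.trX (nat_lit 4) (nat_lit 0) (nat_lit 2) (nat_lit 53) (nat_lit 90) (nat_lit 100) (nat_lit 290) (.spl (nat_lit 1) (nat_lit 280) (.spl (nat_lit 4) (nat_lit 240) (.leaf ⟨(nat_lit 1000), (nat_lit 0), (nat_lit 0), (nat_lit 0), (nat_lit 4939), (nat_lit 3849), (nat_lit 0), (nat_lit 0), (nat_lit 0), (nat_lit 0), (nat_lit 250000), [((nat_lit 380), [((nat_lit 25), (nat_lit 0), (nat_lit 1000))])], ⟨(nat_lit 6), false,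 false, false, (nat_lit 195), (nat_lit 2236), (nat_lit 2739), [(nat_lit 1441375), (nat_lit 1445669), (nat_lit 1486169), (nat_lit 1491177), (nat_lit 1485697), (nat_lit 1488457), (nat_lit 1530492), (nat_lit 1533965)]⟩, ⟨(nat_lit 5), false, false, true, (nat_lit 189), (nat_lit 2236), (nat_lit 2739), [(nat_lit 1410329), (nat_lit 1408901), (nat_lit 1477581), (nat_lit 1477224), (nat_lit 1469390), (nat_lit 1465917), (nat_lit 1536642), (nat_lit 1534240)]⟩, (nat_lit 4786614), (nat_lit 43594928), (nat_lit 11998672), (nat_lit 11406400), (nat_lit 0), (nat_lit 0), [⟨(nat_lit 0), (nat_lit 97), (nat_lit 49), (nat_lit 100), (nat_lit 567189568)⟩], [], [], [],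
 ⟨⟨[(nat_lit 40), (nat_lit 80), (nat_lit 100)], [(nat_lit 0), (nat_lit 2008), (nat_lit 2969)], [((nat_lit 0), (nat_lit 0), (nat_lit 0)), ((nat_lit 1000), (nat_lit 540), (nat_lit 733)), ((nat_lit 1000), (nat_lit 536), (nat_lit 751))], ((nat_lit 53), (nat_lit 100), (nat_lit 79))⟩, (nat_lit 0), (nat_lit 62), (nat_lit 62), (nat_lit 0), (nat_lit 0), [(nat_lit 1585854468), (nat_lit 1715600048), (nat_lit 2118000000)], [(nat_lit 0), (nat_lit 0), (nat_lit 0)], [(nat_lit 21923691057), (nat_lit 22732158099), (nat_lit 22115199696), (nat_lit 22836093484), (nat_lit 23073146977), (nat_lit 23877662285), (nat_lit 23177000251), (nat_lit 23949818934)], (nat_lit 0), (nat_lit 0), (nat_lit 0), (nat_lit 0), (nat_lit 0), (nat_lit 0), [], [(nat_lit 3), (nat_lit 50), (nat_lit 249), (nat_lit 40), (nat_lit 8)]⟩,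
 Rw.none,
 Rw.none⟩) (.trX (nat_lit 5) (nat_lit 4) (nat_lit 3) (nat_lit 100) (nat_lit 40) (nat_lit 100) (nat_lit 390) (.spl (nat_lit 1) (nat_lit 260) (.leaf ⟨(nat_lit 1000), (nat_lit 0), (nat_lit 0), (nat_lit 0), (nat_lit 5020), (nat_lit 3578), (nat_lit 0), (nat_lit 0), (nat_lit 0), (nat_lit 0), (nat_lit 250000), [((nat_lit 380), [((nat_lit 25), (nat_lit 0), (nat_lit 1000))])], ⟨(nat_lit 6), false, false, false, (nat_lit 191), (nat_lit 2236), (nat_lit 2739), [(nat_lit 1441375), (nat_lit 1445669), (nat_lit 1463772), (nat_lit 1468423), (nat_lit 1485697), (nat_lit 1488457), (nat_lit 1508094), (nat_lit 1511211)]⟩, ⟨(nat_lit 6), false, false, true, (nat_lit 215), (nat_lit 2236), (nat_lit 2739), [(nat_lit 1469390), (nat_lit 1465917), (nat_lit 1536642), (nat_lit 1534240), (nat_lit 1543217), (nat_lit 1537186), (nat_lit 1610469), (nat_lit 1605509)]⟩, (nat_lit 4946048), (nat_lit 41984736), (nat_lit 11308612), (nat_lit 13706652), (nat_lit 0), (nat_lit 0), [⟨(nat_lit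 0), (nat_lit 100), (nat_lit 50), (nat_lit 100), (nat_lit 80318117)⟩], [⟨(nat_lit 1), (nat_lit 90), (nat_lit 53), (nat_lit 100), (nat_lit 364813667)⟩], [], [],
 ⟨⟨[(nat_lit 40), (nat_lit 80), (nat_lit 100)], [(nat_lit 0), (nat_lit 2008), (nat_lit 2969)], [((nat_lit 0), (nat_lit 0), (nat_lit 0)), ((nat_lit 1000), (nat_lit 540), (nat_lit 733)), ((nat_lit 1000), (nat_lit 536), (nat_lit 751))], ((nat_lit 53), (nat_lit 100), (nat_lit 79))⟩, (nat_lit 0), (nat_lit 73), (nat_lit 73), (nat_lit 0), (nat_lit 0), [(nat_lit 1528001251), (nat_lit 1715600013), (nat_lit 2118000000)], [(nat_lit 0), (nat_lit 0), (nat_lit 0)], [(nat_lit 23157936934), (nat_lit 23785339709), (nat_lit 23372576132), (nat_lit 23971819712), (nat_lit 25133420151), (nat_lit 25825622649), (nat_lit 25248238384), (nat_lit 25864896337)], (nat_lit 0), (nat_lit 0), (nat_lit 0), (nat_lit 0), (nat_lit 0), (nat_lit 0), [], [(nat_lit 3), (nat_lit 50), (nat_lit 249), (nat_lit 40), (nat_lit 8)]⟩,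
 Rw.none,
 Rw.none⟩) (.trZ (nat_lit 0) (nat_lit 1) (nat_lit 3) (nat_lit 98) (nat_lit 54) (nat_lit 100) (nat_lit 150) (.spl (nat_lit 6) (nat_lit 60) (.leaf ⟨(nat_lit 1000), (nat_lit 0), (nat_lit 0), (nat_lit 0), (nat_lit 0), (nat_lit 3245), (nat_lit 0), (nat_lit 0), (nat_lit 0), (nat_lit 0), (nat_lit 250000), [((nat_lit 380), [((nat_lit 25), (nat_lit 0), (nat_lit 1000))])], ⟨(nat_lit 6), false, false, false, (nat_lit 205), (nat_lit 2236), (nat_lit 2739), [(nat_lit 1493321), (nat_lit 1496948), (nat_lit 1515717), (nat_lit 1519702), (nat_lit 1508094), (nat_lit 1511211), (nat_lit 1530492), (nat_lit 1533965)]⟩, ⟨(nat_lit 6), false, false, true, (nat_lit 215), (nat_lit 2236), (nat_lit 2739), [(nat_lit 1469390), (nat_lit 1465917), (nat_lit 1536642), (nat_lit 1534240), (nat_lit 1543217), (nat_lit 1537186), (nat_lit 1610469), (nat_lit 1605509)]⟩, (nat_lit 5055708), (nat_lit 40964723), (nat_lit 12540741), (nat_lit 13494536), (nat_lit 0), (nat_lit 0), [⟨(nat_lit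 0), (nat_lit 98), (nat_lit 54), (nat_lit 100), (nat_lit 385024602)⟩], [⟨(nat_lit 1), (nat_lit 90), (nat_lit 53), (nat_lit 100), (nat_lit 384168413)⟩], [], [],
 ⟨⟨[(nat_lit 40), (nat_lit 60), (nat_lit 80)], [(nat_lit 0), (nat_lit 1134), (nat_lit 1930)], [((nat_lit 0), (nat_lit 0), (nat_lit 0)), ((nat_lit 1000), (nat_lit 575), (nat_lit 619)), ((nat_lit 1000), (nat_lit 574), (nat_lit 622))], ((nat_lit 54), (nat_lit 100), (nat_lit 73))⟩, (nat_lit 0), (nat_lit 57), (nat_lit 57), (nat_lit 0), (nat_lit 0), [(nat_lit 1528000438), (nat_lit 1368800579), (nat_lit 1715600000)], [(nat_lit 0), (nat_lit 0), (nat_lit 0)], [(nat_lit 22848140600), (nat_lit 23474060591), (nat_lit 22937880122), (nat_lit 23557172121), (nat_lit 24859553832), (nat_lit 25504258513), (nat_lit 24899362754), (nat_lit 25535275330)], (nat_lit 0), (nat_lit 0), (nat_lit 0), (nat_lit 0), (nat_lit 0), (nat_lit 0), [], [(nat_lit 2), (nat_lit 44), (nat_lit 249), (nat_lit 40), (nat_lit 9)]⟩,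
 Rw.none,
 Rw.none⟩) (.leaf ⟨(nat_lit 919), (nat_lit 57), (nat_lit 0), (nat_lit 24), (nat_lit 5787), (nat_lit 3813), (nat_lit 851), (nat_lit 334), (nat_lit 0), (nat_lit 0), (nat_lit 229750), [((nat_lit 380), [((nat_lit 25), (nat_lit 0), (nat_lit 919))])], ⟨(nat_lit 6), false, false, false, (nat_lit 205), (nat_lit 2236), (nat_lit 2739), [(nat_lit 1493321), (nat_lit 1496948), (nat_lit 1515717), (nat_lit 1519702), (nat_lit 1508094), (nat_lit 1511211), (nat_lit 1530492), (nat_lit 1533965)]⟩, ⟨(nat_lit 6), false, false, true, (nat_lit 215), (nat_lit 2236), (nat_lit 2739), [(nat_lit 1469390), (nat_lit 1465917), (nat_lit 1536642), (nat_lit 1534240), (nat_lit 1543217), (nat_lit 1537186), (nat_lit 1610469), (nat_lit 1605509)]⟩, (nat_lit 5055708), (nat_lit 40964723), (nat_lit 12540741), (nat_lit 13494536), (nat_lit 6), (nat_lit 0), [⟨(nat_lit 0), (nat_lit 98), (nat_lit 54), (nat_lit 100), (nat_lit 442205384)⟩], [⟨(nat_lit 1), (nat_lit 90), (nat_lit 53), (nat_lit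 100), (nat_lit 369597046)⟩], [], [],
 ⟨⟨[(nat_lit 40), (nat_lit 80), (nat_lit 100)], [(nat_lit 0), (nat_lit 2008), (nat_lit 2969)], [((nat_lit 0), (nat_lit 0), (nat_lit 0)), ((nat_lit 1000), (nat_lit 540), (nat_lit 733)), ((nat_lit 1000), (nat_lit 536), (nat_lit 751))], ((nat_lit 53), (nat_lit 100), (nat_lit 79))⟩, (nat_lit 0), (nat_lit 67), (nat_lit 67), (nat_lit 0), (nat_lit 0), [(nat_lit 1574450408), (nat_lit 1956364402), (nat_lit 2452692000)], [(nat_lit 0), (nat_lit 0), (nat_lit 0)], [(nat_lit 23382814432), (nat_lit 24047485606), (nat_lit 23435173049), (nat_lit 24091012513), (nat_lit 25400695446), (nat_lit 26097070723), (nat_lit 25410356468), (nat_lit 26097511763)], (nat_lit 0), (nat_lit 0), (nat_lit 0), (nat_lit 0), (nat_lit 0), (nat_lit 0), [], [(nat_lit 3), (nat_lit 50), (nat_lit 249), (nat_lit 40), (nat_lit 8)]⟩,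
 ⟨⟨[(nat_lit 80), (nat_lit 120), (nat_lit 160)], [(nat_lit 0), (nat_lit 528), (nat_lit 2577)], [((nat_lit 0), (nat_lit 0), (nat_lit 0)), ((nat_lit 1000), (nat_lit 959), (nat_lit 206)), ((nat_lit 929), (nat_lit 1000), (nat_lit 742))], ((nat_lit 100), (nat_lit 87), (nat_lit 82))⟩, (nat_lit 0), (nat_lit 495), (nat_lit 495), (nat_lit 0), (nat_lit 456822), [(nat_lit 379728000), (nat_lit 645408000), (nat_lit 961632000)], [], [(nat_lit 3458246091), (nat_lit 3069186998), (nat_lit 3229725678), (nat_lit 3048923842), (nat_lit 3237990951), (nat_lit 3149685303), (nat_lit 3358280229), (nat_lit 3118203283)], (nat_lit 1271251), (nat_lit 1271251), (nat_lit 1017188), (nat_lit 1100000), (nat_lit 0), (nat_lit 2754376), [(nat_lit 1100000), (nat_lit 1785001), (nat_lit 1271251)], [(nat_lit 18), (nat_lit 59), (nat_lit 456), (nat_lit 225), (nat_lit 12)]⟩,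
 ⟨⟨[(nat_lit 140), (nat_lit 180), (nat_lit 200)], [(nat_lit 0), (nat_lit 0), (nat_lit 2835)], [((nat_lit 0), (nat_lit 0), (nat_lit 0)), ((nat_lit 0), (nat_lit 0), (nat_lit 0)), ((nat_lit 363), (nat_lit 1000), (nat_lit 798))], ((nat_lit 0), (nat_lit 0), (nat_lit 0))⟩, (nat_lit 6603), (nat_lit 300), (nat_lit 1615), (nat_lit 1874403), (nat_lit 2556663), [(nat_lit 236208000), (nat_lit 337392000), (nat_lit 393600000)], [], [(nat_lit 1600057168), (nat_lit 1524899406), (nat_lit 1588061393), (nat_lit 1510818725), (nat_lit 1428536726), (nat_lit 1701924374), (nat_lit 1207700670), (nat_lit 1349968404)], (nat_lit 780000), (nat_lit 1271251), (nat_lit 1271251), (nat_lit 1271251), (nat_lit 0), (nat_lit 2754376), [(nat_lit 1977501), (nat_lit 1271251), (nat_lit 1271251)], [(nat_lit 32), (nat_lit 67), (nat_lit 512), (nat_lit 225), (nat_lit 11)]⟩⟩)))))) (.emL (nat_lit 0) (nat_lit 1) (nat_lit 3) (nat_lit 93) (nat_lit 53) (nat_lit 100)))))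
noncomputable def c17_71 : Tr Lf :=
 (.spl (nat_lit 5) (nat_lit 200) (.spl (nat_lit 1) (nat_lit 260) (.leaf ⟨(nat_lit 962), (nat_lit 26), (nat_lit 0), (nat_lit 12), (nat_lit 3136), (nat_lit 3654), (nat_lit 461), (nat_lit 169), (nat_lit 0), (nat_lit 0), (nat_lit 240500), [((nat_lit 380), [((nat_lit 25), (nat_lit 0), (nat_lit 962))])], ⟨(nat_lit 6), false, false, false, (nat_lit 222), (nat_lit 2236), (nat_lit 3163), [(nat_lit 1483125), (nat_lit 1488302), (nat_lit 1505217), (nat_lit 1511013), (nat_lit 1605240), (nat_lit 1602541), (nat_lit 1627331), (nat_lit 1625251)]⟩, ⟨(nat_lit 5), false, false, true, (nat_lit 200), (nat_lit 2236), (nat_lit 3163), [(nat_lit 1411379), (nat_lit 1408901), (nat_lit 1455689), (nat_lit 1454450), (nat_lit 1548524), (nat_lit 1537186), (nat_lit 1592834), (nat_lit 1582735)]⟩, (nat_lit 5059963), (nat_lit 40842204), (nat_lit 14206232), (nat_lit 11951564), (nat_lit 5), (nat_lit 0), [], [⟨(nat_lit 1), (nat_lit 92), (nat_lit 61),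 (nat_lit 100), (nat_lit 231167172)⟩], [], [],
 ⟨⟨[(nat_lit 40), (nat_lit 80), (nat_lit 100)], [(nat_lit 0), (nat_lit 1598), (nat_lit 2533)], [((nat_lit 0), (nat_lit 0), (nat_lit 0)), ((nat_lit 1000), (nat_lit 625), (nat_lit 623)), ((nat_lit 1000), (nat_lit 604), (nat_lit 730))], ((nat_lit 60), (nat_lit 100), (nat_lit 78))⟩, (nat_lit 0), (nat_lit 64), (nat_lit 64), (nat_lit 0), (nat_lit 0), [(nat_lit 1538260208), (nat_lit 1828551270), (nat_lit 2275016000)], [(nat_lit 0), (nat_lit 0), (nat_lit 0)], [(nat_lit 21721727542), (nat_lit 23020314918), (nat_lit 23708670556), (nat_lit 24885001335), (nat_lit 24756971936), (nat_lit 25940125156), (nat_lit 26370668804), (nat_lit 27546084451)], (nat_lit 0), (nat_lit 0), (nat_lit 0), (nat_lit 0), (nat_lit 0), (nat_lit 0), [], [(nat_lit 3), (nat_lit 50), (nat_lit 272), (nat_lit 60), (nat_lit 9)]⟩,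
 ⟨⟨[(nat_lit 80), (nat_lit 140), (nat_lit 180)], [(nat_lit 0), (nat_lit 0), (nat_lit 3656)], [((nat_lit 0), (nat_lit 0), (nat_lit 0)), ((nat_lit 0), (nat_lit 0), (nat_lit 0)), ((nat_lit 637), (nat_lit 1000), (nat_lit 908))], ((nat_lit 100), (nat_lit 78), (nat_lit 80))⟩, (nat_lit 87593), (nat_lit 654), (nat_lit 654), (nat_lit 0), (nat_lit 678871), [(nat_lit 178144000), (nat_lit 373996000), (nat_lit 534204000)], [], [(nat_lit 1818805576), (nat_lit 1576892138), (nat_lit 1356479028), (nat_lit 1379397738), (nat_lit 1367870742), (nat_lit 1152057280), (nat_lit 1871878890), (nat_lit 1661722590)], (nat_lit 1271251), (nat_lit 1271251), (nat_lit 1100000), (nat_lit 1785001), (nat_lit 0), (nat_lit 1412501), [(nat_lit 1100000), (nat_lit 2127501), (nat_lit 1271251)], [(nat_lit 19), (nat_lit 63), (nat_lit 401), (nat_lit 175), (nat_lit 9)]⟩,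
 ⟨⟨[(nat_lit 140), (nat_lit 180), (nat_lit 200)], [(nat_lit 0), (nat_lit 0), (nat_lit 2835)], [((nat_lit 0), (nat_lit 0), (nat_lit 0)), ((nat_lit 0), (nat_lit 0), (nat_lit 0)), ((nat_lit 363), (nat_lit 1000), (nat_lit 798))], ((nat_lit 0), (nat_lit 0), (nat_lit 0))⟩, (nat_lit 3302), (nat_lit 300), (nat_lit 1978), (nat_lit 937200), (nat_lit 3282441), [(nat_lit 118104000), (nat_lit 168696000), (nat_lit 196800000)], [], [(nat_lit 814792260), (nat_lit 786046222), (nat_lit 791407108), (nat_lit 761988537), (nat_lit 623914926), (nat_lit 696097016), (nat_lit 598520678), (nat_lit 570569388)], (nat_lit 780000), (nat_lit 1100000), (nat_lit 1271251), (nat_lit 1271251), (nat_lit 0), (nat_lit 1412501), [(nat_lit 1977501), (nat_lit 1271251), (nat_lit 1271251)], [(nat_lit 32), (nat_lit 67), (nat_lit 576), (nat_lit 175), (nat_lit 12)]⟩⟩) (.leaf ⟨(nat_lit 843), (nat_lit 136), (nat_lit 0), (nat_lit 21), (nat_lit 1244), (nat_lit 4078), (nat_lit 1270), (nat_lit 295),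 (nat_lit 0), (nat_lit 0), (nat_lit 210750), [((nat_lit 380), [((nat_lit 25), (nat_lit 0), (nat_lit 843))])], ⟨(nat_lit 6), false, false, false, (nat_lit 231), (nat_lit 2236), (nat_lit 3163), [(nat_lit 1505217), (nat_lit 1511013), (nat_lit 1527308), (nat_lit 1533723), (nat_lit 1627331), (nat_lit 1625251), (nat_lit 1649422), (nat_lit 1647962)]⟩, ⟨(nat_lit 5), false, false, true, (nat_lit 200), (nat_lit 2236), (nat_lit 3163), [(nat_lit 1411379), (nat_lit 1408901), (nat_lit 1455689), (nat_lit 1454450), (nat_lit 1548524), (nat_lit 1537186), (nat_lit 1592834), (nat_lit 1582735)]⟩, (nat_lit 5112556), (nat_lit 40192735), (nat_lit 14980093), (nat_lit 11827172), (nat_lit 5), (nat_lit 0), [], [⟨(nat_lit 1), (nat_lit 92), (nat_lit 61), (nat_lit 100), (nat_lit 310235351)⟩], [], [⟨(nat_lit 0), (nat_lit 97), (nat_lit 100), (nat_lit 23), (nat_lit 520275)⟩],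
 ⟨⟨[(nat_lit 40), (nat_lit 80), (nat_lit 100)], [(nat_lit 0), (nat_lit 1598), (nat_lit 2533)], [((nat_lit 0), (nat_lit 0), (nat_lit 0)), ((nat_lit 1000), (nat_lit 625), (nat_lit 623)), ((nat_lit 1000), (nat_lit 604), (nat_lit 730))], ((nat_lit 60), (nat_lit 100), (nat_lit 78))⟩, (nat_lit 0), (nat_lit 64), (nat_lit 64), (nat_lit 0), (nat_lit 0), [(nat_lit 1625763219), (nat_lit 2182266813), (nat_lit 2766724000)], [(nat_lit 0), (nat_lit 0), (nat_lit 0)], [(nat_lit 21735904359), (nat_lit 23196488068), (nat_lit 23786188375), (nat_lit 25069259752), (nat_lit 24938205975), (nat_lit 26359822775), (nat_lit 26691452630), (nat_lit 27928449029)], (nat_lit 0), (nat_lit 0), (nat_lit 0), (nat_lit 0), (nat_lit 0), (nat_lit 0), [], [(nat_lit 3), (nat_lit 50), (nat_lit 272), (nat_lit 60), (nat_lit 9)]⟩,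
 ⟨⟨[(nat_lit 80), (nat_lit 120), (nat_lit 160)], [(nat_lit 0), (nat_lit 528), (nat_lit 2577)], [((nat_lit 0), (nat_lit 0), (nat_lit 0)), ((nat_lit 1000), (nat_lit 959), (nat_lit 206)), ((nat_lit 929), (nat_lit 1000), (nat_lit 742))], ((nat_lit 100), (nat_lit 87), (nat_lit 82))⟩, (nat_lit 327097), (nat_lit 582), (nat_lit 582), (nat_lit 0), (nat_lit 695161), [(nat_lit 736016000), (nat_lit 1250976000), (nat_lit 1863904000)], [], [(nat_lit 5880943540), (nat_lit 5422650661), (nat_lit 5440224640), (nat_lit 5534610125), (nat_lit 4531523939), (nat_lit 4616586976), (nat_lit 6030689219), (nat_lit 5459212714)], (nat_lit 1271251), (nat_lit 1271251), (nat_lit 1100000), (nat_lit 1785001), (nat_lit 0), (nat_lit 1412501), [(nat_lit 1100000), (nat_lit 1785001), (nat_lit 1271251)], [(nat_lit 18), (nat_lit 59), (nat_lit 428), (nat_lit 200), (nat_lit 11)]⟩,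
 ⟨⟨[(nat_lit 140), (nat_lit 180), (nat_lit 200)], [(nat_lit 0), (nat_lit 0), (nat_lit 2835)], [((nat_lit 0), (nat_lit 0), (nat_lit 0)), ((nat_lit 0), (nat_lit 0), (nat_lit 0)), ((nat_lit 363), (nat_lit 1000), (nat_lit 798))], ((nat_lit 0), (nat_lit 0), (nat_lit 0))⟩, (nat_lit 5778), (nat_lit 300), (nat_lit 2312), (nat_lit 1640100), (nat_lit 3932896), [(nat_lit 206682000), (nat_lit 295218000), (nat_lit 344400000)], [], [(nat_lit 1426682928), (nat_lit 1376536816), (nat_lit 1385945947), (nat_lit 1334178499), (nat_lit 1093635528), (nat_lit 1217675096), (nat_lit 1049386097), (nat_lit 1000624405)], (nat_lit 780000), (nat_lit 1100000), (nat_lit 1271251), (nat_lit 1271251), (nat_lit 0), (nat_lit 1412501), [(nat_lit 1977501), (nat_lit 1271251), (nat_lit 1271251)], [(nat_lit 32), (nat_lit 67), (nat_lit 660), (nat_lit 175), (nat_lit 14)]⟩⟩)) (.spl (nat_lit 0) (nat_lit 370) (.leaf ⟨(nat_lit 911), (nat_lit 58), (nat_lit 0), (nat_lit 31), (nat_lit 0), (nat_lit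 3781), (nat_lit 960), (nat_lit 350), (nat_lit 0), (nat_lit 0), (nat_lit 227750), [((nat_lit 370), [((nat_lit 25), (nat_lit 0), (nat_lit 911))])], ⟨(nat_lit 6), false, false, false, (nat_lit 227), (nat_lit 2738), (nat_lit 3163), [(nat_lit 1483313), (nat_lit 1485730), (nat_lit 1527599), (nat_lit 1530541), (nat_lit 1605257), (nat_lit 1603890), (nat_lit 1649542), (nat_lit 1648700)]⟩, ⟨(nat_lit 5), false, false, true, (nat_lit 200), (nat_lit 2738), (nat_lit 3163), [(nat_lit 1411379), (nat_lit 1410329), (nat_lit 1455689), (nat_lit 1455164), (nat_lit 1548524), (nat_lit 1543217), (nat_lit 1592834), (nat_lit 1588052)]⟩, (nat_lit 5090768), (nat_lit 40483806), (nat_lit 14569066), (nat_lit 11947128), (nat_lit 5), (nat_lit 0), [], [⟨(nat_lit 1), (nat_lit 100), (nat_lit 59), (nat_lit 100), (nat_lit 236936472)⟩], [⟨(nat_lit 1), (nat_lit 60), (nat_lit 100), (nat_lit 100), (nat_lit 924093)⟩], [],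
 ⟨⟨[(nat_lit 40), (nat_lit 80), (nat_lit 100)], [(nat_lit 0), (nat_lit 1598), (nat_lit 2533)], [((nat_lit 0), (nat_lit 0), (nat_lit 0)), ((nat_lit 1000), (nat_lit 625), (nat_lit 623)), ((nat_lit 1000), (nat_lit 604), (nat_lit 730))], ((nat_lit 60), (nat_lit 100), (nat_lit 78))⟩, (nat_lit 0), (nat_lit 59), (nat_lit 59), (nat_lit 0), (nat_lit 0), [(nat_lit 1574321212), (nat_lit 1980143655), (nat_lit 2485748000)], [(nat_lit 0), (nat_lit 0), (nat_lit 0)], [(nat_lit 21739571263), (nat_lit 22414090800), (nat_lit 23757994654), (nat_lit 24369881079), (nat_lit 24856901229), (nat_lit 25444845005), (nat_lit 26466709760), (nat_lit 27063661612)], (nat_lit 0), (nat_lit 0), (nat_lit 0), (nat_lit 0), (nat_lit 0), (nat_lit 0), [], [(nat_lit 3), (nat_lit 50), (nat_lit 272), (nat_lit 60), (nat_lit 9)]⟩,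
 ⟨⟨[(nat_lit 80), (nat_lit 140), (nat_lit 180)], [(nat_lit 0), (nat_lit 0), (nat_lit 3656)], [((nat_lit 0), (nat_lit 0), (nat_lit 0)), ((nat_lit 0), (nat_lit 0), (nat_lit 0)), ((nat_lit 637), (nat_lit 1000), (nat_lit 908))], ((nat_lit 100), (nat_lit 78), (nat_lit 80))⟩, (nat_lit 181783), (nat_lit 446), (nat_lit 446), (nat_lit 0), (nat_lit 569759), [(nat_lit 417232000), (nat_lit 875938000), (nat_lit 1251162000)], [], [(nat_lit 2656980388), (nat_lit 2594147644), (nat_lit 3733579304), (nat_lit 2858307944), (nat_lit 3056565211), (nat_lit 3146412327), (nat_lit 3009226471), (nat_lit 3075750769)], (nat_lit 1271251), (nat_lit 1271251), (nat_lit 1100000), (nat_lit 1785001), (nat_lit 1271251), (nat_lit 1271251), [(nat_lit 1100000), (nat_lit 2127501), (nat_lit 1271251)], [(nat_lit 19), (nat_lit 63), (nat_lit 483), (nat_lit 250), (nat_lit 11)]⟩,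
 ⟨⟨[(nat_lit 140), (nat_lit 180), (nat_lit 200)], [(nat_lit 0), (nat_lit 0), (nat_lit 2835)], [((nat_lit 0), (nat_lit 0), (nat_lit 0)), ((nat_lit 0), (nat_lit 0), (nat_lit 0)), ((nat_lit 363), (nat_lit 1000), (nat_lit 798))], ((nat_lit 0), (nat_lit 0), (nat_lit 0))⟩, (nat_lit 8529), (nat_lit 300), (nat_lit 1788), (nat_lit 2421102), (nat_lit 3130723), [(nat_lit 305102000), (nat_lit 435798000), (nat_lit 508400000)], [], [(nat_lit 1931087542), (nat_lit 1877830762), (nat_lit 1844651582), (nat_lit 1788045090), (nat_lit 1798190842), (nat_lit 1739602400), (nat_lit 1717286739), (nat_lit 1658259260)], (nat_lit 780000), (nat_lit 1100000), (nat_lit 1271251), (nat_lit 1271251), (nat_lit 1271251), (nat_lit 1271251), [(nat_lit 1977501), (nat_lit 1271251), (nat_lit 1271251)], [(nat_lit 32), (nat_lit 67), (nat_lit 552), (nat_lit 225), (nat_lit 11)]⟩⟩) (.trX (nat_lit 4) (nat_lit 0) (nat_lit 2) (nat_lit 54) (nat_lit 96) (nat_lit 100) (nat_lit 270) (.leaf ⟨(nat_lit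 896), (nat_lit 79), (nat_lit 0), (nat_lit 25), (nat_lit 0), (nat_lit 3825), (nat_lit 1122), (nat_lit 287), (nat_lit 0), (nat_lit 0), (nat_lit 224000), [((nat_lit 380), [((nat_lit 25), (nat_lit 0), (nat_lit 896))])], ⟨(nat_lit 6), false, false, false, (nat_lit 227), (nat_lit 2236), (nat_lit 2739), [(nat_lit 1485697), (nat_lit 1488457), (nat_lit 1530492), (nat_lit 1533965), (nat_lit 1603890), (nat_lit 1602558), (nat_lit 1648684), (nat_lit 1648065)]⟩, ⟨(nat_lit 5), false, false, true, (nat_lit 193), (nat_lit 2236), (nat_lit 2739), [(nat_lit 1410329), (nat_lit 1408901), (nat_lit 1455164), (nat_lit 1454450), (nat_lit 1513686), (nat_lit 1508679), (nat_lit 1558521), (nat_lit 1554227)]⟩, (nat_lit 5041220), (nat_lit 40923072), (nat_lit 14710844), (nat_lit 11366084), (nat_lit 5), (nat_lit 0), [], [⟨(nat_lit 1), (nat_lit 100), (nat_lit 49), (nat_lit 97), (nat_lit 126566132)⟩, ⟨(nat_lit 1), (nat_lit 96), (nat_lit 54), (nat_lit 100), (nat_lit 151121432)⟩], [⟨(nat_lit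 1), (nat_lit 60), (nat_lit 100), (nat_lit 100), (nat_lit 11228994)⟩], [],
 ⟨⟨[(nat_lit 40), (nat_lit 80), (nat_lit 100)], [(nat_lit 0), (nat_lit 2008), (nat_lit 2969)], [((nat_lit 0), (nat_lit 0), (nat_lit 0)), ((nat_lit 1000), (nat_lit 540), (nat_lit 733)), ((nat_lit 1000), (nat_lit 536), (nat_lit 751))], ((nat_lit 53), (nat_lit 100), (nat_lit 79))⟩, (nat_lit 0), (nat_lit 60), (nat_lit 60), (nat_lit 0), (nat_lit 0), [(nat_lit 1580942328), (nat_lit 2024729642), (nat_lit 2547728000)], [(nat_lit 0), (nat_lit 0), (nat_lit 0)], [(nat_lit 22436451936), (nat_lit 23142864955), (nat_lit 24392085949), (nat_lit 25007358580), (nat_lit 24683874658), (nat_lit 25301288324), (nat_lit 26317155438), (nat_lit 26944242144)], (nat_lit 0), (nat_lit 0), (nat_lit 0), (nat_lit 0), (nat_lit 0), (nat_lit 0), [], [(nat_lit 3), (nat_lit 50), (nat_lit 272), (nat_lit 60), (nat_lit 9)]⟩,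
 ⟨⟨[(nat_lit 80), (nat_lit 140), (nat_lit 180)], [(nat_lit 0), (nat_lit 0), (nat_lit 3656)], [((nat_lit 0), (nat_lit 0), (nat_lit 0)), ((nat_lit 0), (nat_lit 0), (nat_lit 0)), ((nat_lit 637), (nat_lit 1000), (nat_lit 908))], ((nat_lit 100), (nat_lit 78), (nat_lit 80))⟩, (nat_lit 212421), (nat_lit 546), (nat_lit 546), (nat_lit 0), (nat_lit 709116), [(nat_lit 487552000), (nat_lit 1023568000), (nat_lit 1462032000)], [], [(nat_lit 3136962276), (nat_lit 3241839066), (nat_lit 4362817748), (nat_lit 3339844346), (nat_lit 3597531232), (nat_lit 3676684174), (nat_lit 3516335166), (nat_lit 3594045469)], (nat_lit 1271251), (nat_lit 1271251), (nat_lit 1100000), (nat_lit 1785001), (nat_lit 1271251), (nat_lit 1271251), [(nat_lit 1100000), (nat_lit 2127501), (nat_lit 1271251)], [(nat_lit 19), (nat_lit 63), (nat_lit 483), (nat_lit 250), (nat_lit 11)]⟩,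
 ⟨⟨[(nat_lit 140), (nat_lit 180), (nat_lit 200)], [(nat_lit 0), (nat_lit 0), (nat_lit 2835)], [((nat_lit 0), (nat_lit 0), (nat_lit 0)), ((nat_lit 0), (nat_lit 0), (nat_lit 0)), ((nat_lit 363), (nat_lit 1000), (nat_lit 798))], ((nat_lit 0), (nat_lit 0), (nat_lit 0))⟩, (nat_lit 6878), (nat_lit 300), (nat_lit 2201), (nat_lit 1952505), (nat_lit 3932896), [(nat_lit 246050000), (nat_lit 351450000), (nat_lit 410000000)], [], [(nat_lit 1527658605), (nat_lit 1488279472), (nat_lit 1471078336), (nat_lit 1429413756), (nat_lit 1428531282), (nat_lit 1380297912), (nat_lit 1377395379), (nat_lit 1328928877)], (nat_lit 780000), (nat_lit 1100000), (nat_lit 1271251), (nat_lit 1271251), (nat_lit 1271251), (nat_lit 1271251), [(nat_lit 1977501), (nat_lit 1271251), (nat_lit 1271251)], [(nat_lit 32), (nat_lit 67), (nat_lit 653), (nat_lit 225), (nat_lit 13)]⟩⟩))))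
noncomputable def c17_72 : Tr Lf :=
 (.trX (nat_lit 5) (nat_lit 1) (nat_lit 2) (nat_lit 94) (nat_lit 59) (nat_lit 100) (nat_lit 370) (.stt (nat_lit 2) (.spl (nat_lit 5) (nat_lit 200) (.leaf ⟨(nat_lit 0), (nat_lit 1000), (nat_lit 0), (nat_lit 0), (nat_lit 6774), (nat_lit 6136), (nat_lit 8493), (nat_lit 0), (nat_lit 0), (nat_lit 0), (nat_lit 0), [], Pd.none, Pd.none, (nat_lit 0), (nat_lit 1), (nat_lit 0), (nat_lit 0), (nat_lit 5), (nat_lit 0), [⟨(nat_lit 0), (nat_lit 94), (nat_lit 62), (nat_lit 100), (nat_lit 357444936)⟩], [⟨(nat_lit 1), (nat_lit 92), (nat_lit 61), (nat_lit 100), (nat_lit 659960305)⟩], [], [],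
 ⟨⟨[(nat_lit 40), (nat_lit 80), (nat_lit 100)], [(nat_lit 0), (nat_lit 1598), (nat_lit 2533)], [((nat_lit 0), (nat_lit 0), (nat_lit 0)), ((nat_lit 1000), (nat_lit 625), (nat_lit 623)), ((nat_lit 1000), (nat_lit 604), (nat_lit 730))], ((nat_lit 60), (nat_lit 100), (nat_lit 78))⟩, (nat_lit 0), (nat_lit 64), (nat_lit 64), (nat_lit 0), (nat_lit 0), [(nat_lit 2575526718), (nat_lit 4688000005), (nat_lit 6250000000)], [], [(nat_lit 23007880957), (nat_lit 24856944065), (nat_lit 25086713549), (nat_lit 26687329324), (nat_lit 26607260242), (nat_lit 28396939991), (nat_lit 28248761810), (nat_lit 29784360117)], (nat_lit 0), (nat_lit 0), (nat_lit 0), (nat_lit 0), (nat_lit 0), (nat_lit 0), [], [(nat_lit 3), (nat_lit 50), (nat_lit 272), (nat_lit 60), (nat_lit 9)]⟩,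
 ⟨⟨[(nat_lit 60), (nat_lit 120), (nat_lit 160)], [(nat_lit 0), (nat_lit 0), (nat_lit 3243)], [((nat_lit 0), (nat_lit 0), (nat_lit 0)), ((nat_lit 0), (nat_lit 0), (nat_lit 0)), ((nat_lit 878), (nat_lit 1000), (nat_lit 945))], ((nat_lit 100), (nat_lit 96), (nat_lit 86))⟩, (nat_lit 2932085), (nat_lit 221), (nat_lit 221), (nat_lit 0), (nat_lit 0), [(nat_lit 3282000000), (nat_lit 7968000000), (nat_lit 11872000000)], [], [(nat_lit 25664521263), (nat_lit 28851500129), (nat_lit 27981527751), (nat_lit 30950752688), (nat_lit 19924570734), (nat_lit 23088331206), (nat_lit 22574760929), (nat_lit 25193766736)], (nat_lit 0), (nat_lit 0), (nat_lit 0), (nat_lit 0), (nat_lit 0), (nat_lit 0), [], [(nat_lit 12), (nat_lit 59), (nat_lit 428), (nat_lit 200), (nat_lit 11)]⟩,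
 Rw.none⟩) (.leaf ⟨(nat_lit 0), (nat_lit 1000), (nat_lit 0), (nat_lit 0), (nat_lit 5281), (nat_lit 6136), (nat_lit 4777), (nat_lit 0), (nat_lit 0), (nat_lit 0), (nat_lit 0), [], Pd.none, Pd.none, (nat_lit 0), (nat_lit 1), (nat_lit 0), (nat_lit 0), (nat_lit 5), (nat_lit 0), [], [⟨(nat_lit 1), (nat_lit 92), (nat_lit 61), (nat_lit 100), (nat_lit 664028990)⟩], [⟨(nat_lit 1), (nat_lit 59), (nat_lit 94), (nat_lit 100), (nat_lit 565256393)⟩], [],
 ⟨⟨[(nat_lit 40), (nat_lit 80), (nat_lit 100)], [(nat_lit 0), (nat_lit 1598), (nat_lit 2533)], [((nat_lit 0), (nat_lit 0), (nat_lit 0)), ((nat_lit 1000), (nat_lit 625), (nat_lit 623)), ((nat_lit 1000), (nat_lit 604), (nat_lit 730))], ((nat_lit 60), (nat_lit 100), (nat_lit 78))⟩, (nat_lit 0), (nat_lit 64), (nat_lit 64), (nat_lit 0), (nat_lit 0), [(nat_lit 2548207706), (nat_lit 4688000067), (nat_lit 6250000000)], [], [(nat_lit 23007881019), (nat_lit 24856944127), (nat_lit 25086713611), (nat_lit 26687329324), (nat_lit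 26607260242), (nat_lit 28396939991), (nat_lit 28248761810), (nat_lit 29784360117)], (nat_lit 0), (nat_lit 0), (nat_lit 0), (nat_lit 0), (nat_lit 0), (nat_lit 0), [], [(nat_lit 3), (nat_lit 50), (nat_lit 272), (nat_lit 60), (nat_lit 9)]⟩,
 ⟨⟨[(nat_lit 60), (nat_lit 120), (nat_lit 160)], [(nat_lit 0), (nat_lit 0), (nat_lit 3243)], [((nat_lit 0), (nat_lit 0), (nat_lit 0)), ((nat_lit 0), (nat_lit 0), (nat_lit 0)), ((nat_lit 878), (nat_lit 1000), (nat_lit 945))], ((nat_lit 100), (nat_lit 96), (nat_lit 86))⟩, (nat_lit 0), (nat_lit 90), (nat_lit 90), (nat_lit 0), (nat_lit 0), [(nat_lit 3282000000), (nat_lit 7968000000), (nat_lit 11872000000)], [], [(nat_lit 15707542842), (nat_lit 18616903588), (nat_lit 18810785211), (nat_lit 21277662146), (nat_lit 25787721304), (nat_lit 27749864084), (nat_lit 27469956432), (nat_lit 29148535546)], (nat_lit 0), (nat_lit 0), (nat_lit 0), (nat_lit 0), (nat_lit 0), (nat_lit 0), [], [(nat_lit 12), (nat_lit 59), (nat_lit 483),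 (nat_lit 250), (nat_lit 12)]⟩,
 Rw.none⟩)) (.spl (nat_lit 5) (nat_lit 120) (.leaf ⟨(nat_lit 402), (nat_lit 598), (nat_lit 0), (nat_lit 0), (nat_lit 0), (nat_lit 4963), (nat_lit 5967), (nat_lit 0), (nat_lit 0), (nat_lit 0), (nat_lit 100500), [((nat_lit 380), [((nat_lit 25), (nat_lit 0), (nat_lit 402))])], ⟨(nat_lit 7), false, false, false, (nat_lit 245), (nat_lit 2236), (nat_lit 3163), [(nat_lit 1527308), (nat_lit 1533723), (nat_lit 1571490), (nat_lit 1579145), (nat_lit 1649422), (nat_lit 1647962), (nat_lit 1693606), (nat_lit 1693384)]⟩, ⟨(nat_lit 5), false, false, true, (nat_lit 200), (nat_lit 2236), (nat_lit 3163), [(nat_lit 1411379), (nat_lit 1408901), (nat_lit 1455689), (nat_lit 1454450), (nat_lit 1548524), (nat_lit 1537186), (nat_lit 1592834), (nat_lit 1582735)]⟩, (nat_lit 5182683), (nat_lit 39221935), (nat_lit 16143607), (nat_lit 11634458), (nat_lit 5), (nat_lit 0), [⟨(nat_lit 0), (nat_lit 82), (nat_lit 44), (nat_lit 100), (nat_lit 552167885)⟩],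 [⟨(nat_lit 1), (nat_lit 100), (nat_lit 54), (nat_lit 98), (nat_lit 521181823)⟩], [], [⟨(nat_lit 0), (nat_lit 97), (nat_lit 100), (nat_lit 23), (nat_lit 77757976)⟩],
 ⟨⟨[(nat_lit 40), (nat_lit 80), (nat_lit 100)], [(nat_lit 0), (nat_lit 1598), (nat_lit 2533)], [((nat_lit 0), (nat_lit 0), (nat_lit 0)), ((nat_lit 1000), (nat_lit 625), (nat_lit 623)), ((nat_lit 1000), (nat_lit 604), (nat_lit 730))], ((nat_lit 60), (nat_lit 100), (nat_lit 78))⟩, (nat_lit 0), (nat_lit 64), (nat_lit 64), (nat_lit 0), (nat_lit 0), [(nat_lit 1978336365), (nat_lit 3493095208), (nat_lit 4588936000)], [(nat_lit 0), (nat_lit 0), (nat_lit 0)], [(nat_lit 22516181449), (nat_lit 24143822626), (nat_lit 24578742185), (nat_lit 25984446701), (nat_lit 25889019910), (nat_lit 27235842569), (nat_lit 27417077089), (nat_lit 28726544905)], (nat_lit 0), (nat_lit 0), (nat_lit 0), (nat_lit 0), (nat_lit 0), (nat_lit 0), [], [(nat_lit 3), (nat_lit 50), (nat_lit 272), (nat_lit 60), (nat_lit 9)]⟩,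
 ⟨⟨[(nat_lit 60), (nat_lit 120), (nat_lit 160)], [(nat_lit 0), (nat_lit 0), (nat_lit 3243)], [((nat_lit 0), (nat_lit 0), (nat_lit 0)), ((nat_lit 0), (nat_lit 0), (nat_lit 0)), ((nat_lit 878), (nat_lit 1000), (nat_lit 945))], ((nat_lit 100), (nat_lit 96), (nat_lit 86))⟩, (nat_lit 1303595), (nat_lit 562), (nat_lit 562), (nat_lit 0), (nat_lit 645482), [(nat_lit 1962636000), (nat_lit 4764864000), (nat_lit 7099456000)], [], [(nat_lit 18865255055), (nat_lit 19818011483), (nat_lit 19268715050), (nat_lit 20295493995), (nat_lit 15088811826), (nat_lit 16158157522), (nat_lit 15644684861), (nat_lit 16529924840)], (nat_lit 1271251), (nat_lit 1271251), (nat_lit 1100000), (nat_lit 1785001), (nat_lit 0), (nat_lit 780000), [(nat_lit 780000), (nat_lit 1762501), (nat_lit 1271251)], [(nat_lit 12), (nat_lit 59), (nat_lit 401), (nat_lit 175), (nat_lit 10)]⟩,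
 Rw.none⟩) (.spl (nat_lit 5) (nat_lit 240) (.leaf ⟨(nat_lit 687), (nat_lit 262), (nat_lit 0), (nat_lit 51), (nat_lit 0), (nat_lit 4286), (nat_lit 2968), (nat_lit 669), (nat_lit 0), (nat_lit 0), (nat_lit 171750), [((nat_lit 380), [((nat_lit 25), (nat_lit 0), (nat_lit 687))])], ⟨(nat_lit 7), false, false, false, (nat_lit 245), (nat_lit 2236), (nat_lit 3163), [(nat_lit 1527308), (nat_lit 1533723), (nat_lit 1571490), (nat_lit 1579145), (nat_lit 1649422), (nat_lit 1647962), (nat_lit 1693606), (nat_lit 1693384)]⟩, ⟨(nat_lit 5), false, false, true, (nat_lit 200), (nat_lit 2236), (nat_lit 3163), [(nat_lit 1411379), (nat_lit 1408901), (nat_lit 1455689), (nat_lit 1454450), (nat_lit 1548524), (nat_lit 1537186), (nat_lit 1592834), (nat_lit 1582735)]⟩, (nat_lit 5182683), (nat_lit 39221935), (nat_lit 16143607), (nat_lit 11634458), (nat_lit 5), (nat_lit 0), [⟨(nat_lit 0), (nat_lit 82), (nat_lit 44), (nat_lit 100), (nat_lit 208639647)⟩], [⟨(nat_lit 1), (nat_lit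 100), (nat_lit 54), (nat_lit 98), (nat_lit 353603273)⟩], [], [],
 ⟨⟨[(nat_lit 40), (nat_lit 80), (nat_lit 100)], [(nat_lit 0), (nat_lit 1598), (nat_lit 2533)], [((nat_lit 0), (nat_lit 0), (nat_lit 0)), ((nat_lit 1000), (nat_lit 625), (nat_lit 623)), ((nat_lit 1000), (nat_lit 604), (nat_lit 730))], ((nat_lit 60), (nat_lit 100), (nat_lit 78))⟩, (nat_lit 0), (nat_lit 64), (nat_lit 64), (nat_lit 0), (nat_lit 0), [(nat_lit 1701843472), (nat_lit 2645961233), (nat_lit 3411316000)], [(nat_lit 0), (nat_lit 0), (nat_lit 0)], [(nat_lit 22074904235), (nat_lit 23574751168), (nat_lit 24128073627), (nat_lit 25429575318), (nat_lit 25317286827), (nat_lit 26566026563), (nat_lit 26889635885), (nat_lit 28116024105)], (nat_lit 0), (nat_lit 0), (nat_lit 0), (nat_lit 0), (nat_lit 0), (nat_lit 0), [], [(nat_lit 3), (nat_lit 50), (nat_lit 272), (nat_lit 60), (nat_lit 9)]⟩,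
 ⟨⟨[(nat_lit 60), (nat_lit 120), (nat_lit 160)], [(nat_lit 0), (nat_lit 0), (nat_lit 3243)], [((nat_lit 0), (nat_lit 0), (nat_lit 0)), ((nat_lit 0), (nat_lit 0), (nat_lit 0)), ((nat_lit 878), (nat_lit 1000), (nat_lit 945))], ((nat_lit 100), (nat_lit 96), (nat_lit 86))⟩, (nat_lit 584040), (nat_lit 526), (nat_lit 526), (nat_lit 0), (nat_lit 763120), [(nat_lit 1027266000), (nat_lit 2493984000), (nat_lit 3715936000)], [], [(nat_lit 8629384203), (nat_lit 9053105414), (nat_lit 8753741501), (nat_lit 9091823392), (nat_lit 8464666804), (nat_lit 8826230868), (nat_lit 9594328384), (nat_lit 8880430372)], (nat_lit 1271251), (nat_lit 1271251), (nat_lit 1100000), (nat_lit 1785001), (nat_lit 780000), (nat_lit 1762501), [(nat_lit 780000), (nat_lit 1762501), (nat_lit 1271251)], [(nat_lit 12), (nat_lit 59), (nat_lit 428), (nat_lit 200), (nat_lit 10)]⟩,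
 ⟨⟨[(nat_lit 140), (nat_lit 180), (nat_lit 200)], [(nat_lit 0), (nat_lit 0), (nat_lit 2835)], [((nat_lit 0), (nat_lit 0), (nat_lit 0)), ((nat_lit 0), (nat_lit 0), (nat_lit 0)), ((nat_lit 363), (nat_lit 1000), (nat_lit 798))], ((nat_lit 0), (nat_lit 0), (nat_lit 0))⟩, (nat_lit 14032), (nat_lit 300), (nat_lit 2033), (nat_lit 3983100), (nat_lit 3530963), [(nat_lit 501942000), (nat_lit 716958000), (nat_lit 836400000)], [], [(nat_lit 2955299835), (nat_lit 2850275544), (nat_lit 2868978507), (nat_lit 2760106000), (nat_lit 2703192684), (nat_lit 2597054262), (nat_lit 2601660069), (nat_lit 2492257158)], (nat_lit 780000), (nat_lit 1100000), (nat_lit 1271251), (nat_lit 1271251), (nat_lit 780000), (nat_lit 1762501), [(nat_lit 1977501), (nat_lit 1271251), (nat_lit 1271251)], [(nat_lit 32), (nat_lit 67), (nat_lit 595), (nat_lit 175), (nat_lit 12)]⟩⟩) (.spl (nat_lit 1) (nat_lit 300) (.leaf ⟨(nat_lit 821), (nat_lit 136), (nat_lit 0), (nat_lit 43), (nat_lit 0), (nat_lit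 4043), (nat_lit 1664), (nat_lit 494), (nat_lit 0), (nat_lit 0), (nat_lit 205250), [((nat_lit 380), [((nat_lit 25), (nat_lit 0), (nat_lit 821))])], ⟨(nat_lit 7), false, false, false, (nat_lit 240), (nat_lit 2236), (nat_lit 3163), [(nat_lit 1527308), (nat_lit 1533723), (nat_lit 1549399), (nat_lit 1556434), (nat_lit 1649422), (nat_lit 1647962), (nat_lit 1671514), (nat_lit 1670673)]⟩, ⟨(nat_lit 5), false, false, true, (nat_lit 200), (nat_lit 2236), (nat_lit 3163), [(nat_lit 1411379), (nat_lit 1408901), (nat_lit 1455689), (nat_lit 1454450), (nat_lit 1548524), (nat_lit 1537186), (nat_lit 1592834), (nat_lit 1582735)]⟩, (nat_lit 5160459), (nat_lit 39544952), (nat_lit 15755588), (nat_lit 11699460), (nat_lit 6), (nat_lit 0), [⟨(nat_lit 0), (nat_lit 90), (nat_lit 53), (nat_lit 100), (nat_lit 38493503)⟩, ⟨(nat_lit 0), (nat_lit 87), (nat_lit 44), (nat_lit 100), (nat_lit 16030297)⟩], [⟨(nat_lit 1), (nat_lit 100), (nat_lit 54), (nat_lit 98), (nat_lit 318449983)⟩],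 [⟨(nat_lit 1), (nat_lit 73), (nat_lit 94), (nat_lit 100), (nat_lit 38138949)⟩], [],
 ⟨⟨[(nat_lit 40), (nat_lit 80), (nat_lit 100)], [(nat_lit 0), (nat_lit 1598), (nat_lit 2533)], [((nat_lit 0), (nat_lit 0), (nat_lit 0)), ((nat_lit 1000), (nat_lit 625), (nat_lit 623)), ((nat_lit 1000), (nat_lit 604), (nat_lit 730))], ((nat_lit 60), (nat_lit 100), (nat_lit 78))⟩, (nat_lit 0), (nat_lit 64), (nat_lit 64), (nat_lit 0), (nat_lit 0), [(nat_lit 1623924877), (nat_lit 2247659684), (nat_lit 2857628000)], [(nat_lit 0), (nat_lit 0), (nat_lit 0)], [(nat_lit 21822279485), (nat_lit 23276256402), (nat_lit 23872077981), (nat_lit 25136177477), (nat_lit 25017836706), (nat_lit 26325177924), (nat_lit 26664967780), (nat_lit 27896885915)], (nat_lit 0), (nat_lit 0), (nat_lit 0), (nat_lit 0), (nat_lit 0), (nat_lit 0), [], [(nat_lit 3), (nat_lit 50), (nat_lit 272), (nat_lit 60), (nat_lit 9)]⟩,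
 ⟨⟨[(nat_lit 60), (nat_lit 120), (nat_lit 160)], [(nat_lit 0), (nat_lit 0), (nat_lit 3243)], [((nat_lit 0), (nat_lit 0), (nat_lit 0)), ((nat_lit 0), (nat_lit 0), (nat_lit 0)), ((nat_lit 878), (nat_lit 1000), (nat_lit 945))], ((nat_lit 100), (nat_lit 96), (nat_lit 86))⟩, (nat_lit 319714), (nat_lit 434), (nat_lit 434), (nat_lit 0), (nat_lit 720012), [(nat_lit 587478000), (nat_lit 1426272000), (nat_lit 2125088000)], [], [(nat_lit 4985637710), (nat_lit 5074165154), (nat_lit 4991165954), (nat_lit 5086731815), (nat_lit 5706839890), (nat_lit 5774984246), (nat_lit 5663917264), (nat_lit 5762012010)], (nat_lit 1271251), (nat_lit 1271251), (nat_lit 1100000), (nat_lit 1785001), (nat_lit 1271251), (nat_lit 1271251), [(nat_lit 780000), (nat_lit 1762501), (nat_lit 1271251)], [(nat_lit 12), (nat_lit 59), (nat_lit 483), (nat_lit 250), (nat_lit 11)]⟩,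
 ⟨⟨[(nat_lit 140), (nat_lit 180), (nat_lit 200)], [(nat_lit 0), (nat_lit 0), (nat_lit 2835)], [((nat_lit 0), (nat_lit 0), (nat_lit 0)), ((nat_lit 0), (nat_lit 0), (nat_lit 0)), ((nat_lit 363), (nat_lit 1000), (nat_lit 798))], ((nat_lit 0), (nat_lit 0), (nat_lit 0))⟩, (nat_lit 11831), (nat_lit 300), (nat_lit 1718), (nat_lit 3358300), (nat_lit 3025371), [(nat_lit 423206000), (nat_lit 604494000), (nat_lit 705200000)], [], [(nat_lit 2560065160), (nat_lit 2480385566), (nat_lit 2443132809), (nat_lit 2362956741), (nat_lit 2461684477), (nat_lit 2379286185), (nat_lit 2351855308), (nat_lit 2268890012)], (nat_lit 780000), (nat_lit 1100000), (nat_lit 1271251), (nat_lit 1271251), (nat_lit 1271251), (nat_lit 1271251), [(nat_lit 1977501), (nat_lit 1271251), (nat_lit 1271251)], [(nat_lit 32), (nat_lit 67), (nat_lit 532), (nat_lit 225), (nat_lit 11)]⟩⟩) (.trZ (nat_lit 0) (nat_lit 1) (nat_lit 3) (nat_lit 87) (nat_lit 60) (nat_lit 100) (nat_lit 170) (.trX (nat_lit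 5) (nat_lit 1) (nat_lit 2) (nat_lit 88) (nat_lit 68) (nat_lit 100) (nat_lit 350) (.leaf ⟨(nat_lit 0), (nat_lit 861), (nat_lit 0), (nat_lit 139), (nat_lit 0), (nat_lit 5902), (nat_lit 6670), (nat_lit 1611), (nat_lit 0), (nat_lit 0), (nat_lit 0), [], Pd.none, Pd.none, (nat_lit 0), (nat_lit 1), (nat_lit 0), (nat_lit 0), (nat_lit 6), (nat_lit 0), [⟨(nat_lit 0), (nat_lit 82), (nat_lit 44), (nat_lit 100), (nat_lit 871142830)⟩], [⟨(nat_lit 1), (nat_lit 100), (nat_lit 54), (nat_lit 98), (nat_lit 473650334)⟩], [⟨(nat_lit 1), (nat_lit 81), (nat_lit 88), (nat_lit 100), (nat_lit 326356804)⟩], [],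
 ⟨⟨[(nat_lit 40), (nat_lit 80), (nat_lit 100)], [(nat_lit 0), (nat_lit 1598), (nat_lit 2533)], [((nat_lit 0), (nat_lit 0), (nat_lit 0)), ((nat_lit 1000), (nat_lit 625), (nat_lit 623)), ((nat_lit 1000), (nat_lit 604), (nat_lit 730))], ((nat_lit 60), (nat_lit 100), (nat_lit 78))⟩, (nat_lit 0), (nat_lit 63), (nat_lit 63), (nat_lit 0), (nat_lit 0), [(nat_lit 2474477355), (nat_lit 4688000003), (nat_lit 6250000000)], [], [(nat_lit 23407610635), (nat_lit 25180670367), (nat_lit 25223748861), (nat_lit 26773982848), (nat_lit 26885271296), (nat_lit 28341750482), (nat_lit 28168567539), (nat_lit 29573338157)], (nat_lit 0), (nat_lit 0), (nat_lit 0), (nat_lit 0), (nat_lit 0), (nat_lit 0), [], [(nat_lit 3), (nat_lit 50), (nat_lit 272), (nat_lit 60), (nat_lit 9)]⟩,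
 ⟨⟨[(nat_lit 60), (nat_lit 100), (nat_lit 140)], [(nat_lit 0), (nat_lit 609), (nat_lit 2558)], [((nat_lit 0), (nat_lit 0), (nat_lit 0)), ((nat_lit 1000), (nat_lit 905), (nat_lit 238)), ((nat_lit 1000), (nat_lit 904), (nat_lit 760))], ((nat_lit 93), (nat_lit 100), (nat_lit 84))⟩, (nat_lit 2645643), (nat_lit 410), (nat_lit 410), (nat_lit 0), (nat_lit 749418), [(nat_lit 3282000000), (nat_lit 6250000000), (nat_lit 9842000000)], [], [(nat_lit 24236125441), (nat_lit 24879308822), (nat_lit 24935384409), (nat_lit 25609890599), (nat_lit 27878094244), (nat_lit 28439371619), (nat_lit 28363927473), (nat_lit 29399170620)], (nat_lit 1271251), (nat_lit 1271251), (nat_lit 1184688), (nat_lit 1790626), (nat_lit 1271251), (nat_lit 1271251), [(nat_lit 780000), (nat_lit 1435001), (nat_lit 1271251)], [(nat_lit 11), (nat_lit 55), (nat_lit 373), (nat_lit 150), (nat_lit 10)]⟩,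
 ⟨⟨[(nat_lit 140), (nat_lit 180), (nat_lit 200)], [(nat_lit 0), (nat_lit 0), (nat_lit 2835)], [((nat_lit 0), (nat_lit 0), (nat_lit 0)), ((nat_lit 0), (nat_lit 0), (nat_lit 0)), ((nat_lit 363), (nat_lit 1000), (nat_lit 798))], ((nat_lit 0), (nat_lit 0), (nat_lit 0))⟩, (nat_lit 38243), (nat_lit 300), (nat_lit 1968), (nat_lit 10855906), (nat_lit 3530963), [(nat_lit 1368038000), (nat_lit 1954062000), (nat_lit 2279600000)], [], [(nat_lit 8191714406), (nat_lit 7931343348), (nat_lit 7831755812), (nat_lit 7569199764), (nat_lit 7914486229), (nat_lit 7647286249), (nat_lit 7554806666), (nat_lit 7286738092)], (nat_lit 780000), (nat_lit 1100000), (nat_lit 1271251), (nat_lit 1271251), (nat_lit 1271251), (nat_lit 1271251), [(nat_lit 1977501), (nat_lit 1271251), (nat_lit 1271251)], [(nat_lit 32), (nat_lit 67), (nat_lit 592), (nat_lit 200), (nat_lit 12)]⟩⟩))))))))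
noncomputable def c17_73 : Tr Lf :=
 (.spl (nat_lit 5) (nat_lit 120) (.spl (nat_lit 1) (nat_lit 260) (.spl (nat_lit 6) (nat_lit 60) (.leaf ⟨(nat_lit 750), (nat_lit 179), (nat_lit 0), (nat_lit 71), (nat_lit 0), (nat_lit 4048), (nat_lit 1835), (nat_lit 944), (nat_lit 0), (nat_lit 0), (nat_lit 187500), [((nat_lit 380), [((nat_lit 25), (nat_lit 0), (nat_lit 750))])], ⟨(nat_lit 6), false, false, false, (nat_lit 222), (nat_lit 2236), (nat_lit 3163), [(nat_lit 1483125), (nat_lit 1488302), (nat_lit 1505217), (nat_lit 1511013), (nat_lit 1605240), (nat_lit 1602541), (nat_lit 1627331), (nat_lit 1625251)]⟩, ⟨(nat_lit 5), false, false, true, (nat_lit 219), (nat_lit 2236), (nat_lit 3163), [(nat_lit 1455689), (nat_lit 1454450), (nat_lit 1477844), (nat_lit 1477224), (nat_lit 1623310), (nat_lit 1611243), (nat_lit 1645465), (nat_lit 1634017)]⟩, (nat_lit 5188677), (nat_lit 39540260), (nat_lit 13901381), (nat_lit 13558359), (nat_lit 5), (nat_lit 0), [], [⟨(nat_lit 1),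 (nat_lit 93), (nat_lit 53), (nat_lit 100), (nat_lit 276132977)⟩], [], [⟨(nat_lit 0), (nat_lit 96), (nat_lit 100), (nat_lit 27), (nat_lit 2100767)⟩],
 ⟨⟨[(nat_lit 40), (nat_lit 80), (nat_lit 100)], [(nat_lit 0), (nat_lit 1598), (nat_lit 2533)], [((nat_lit 0), (nat_lit 0), (nat_lit 0)), ((nat_lit 1000), (nat_lit 625), (nat_lit 623)), ((nat_lit 1000), (nat_lit 604), (nat_lit 730))], ((nat_lit 61), (nat_lit 100), (nat_lit 72))⟩, (nat_lit 0), (nat_lit 68), (nat_lit 68), (nat_lit 0), (nat_lit 0), [(nat_lit 1649617789), (nat_lit 2458700005), (nat_lit 3151000000)], [(nat_lit 0), (nat_lit 0), (nat_lit 0)], [(nat_lit 22030322341), (nat_lit 23485243085), (nat_lit 24080190197), (nat_lit 25345059285), (nat_lit 26059186875), (nat_lit 27218728016), (nat_lit 27534909373), (nat_lit 28669353905)], (nat_lit 0), (nat_lit 0), (nat_lit 0), (nat_lit 0), (nat_lit 0), (nat_lit 0), [], [(nat_lit 3), (nat_lit 50), (nat_lit 272), (nat_lit 60), (nat_lit 9)]⟩,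
 ⟨⟨[(nat_lit 80), (nat_lit 120), (nat_lit 160)], [(nat_lit 0), (nat_lit 0), (nat_lit 2132)], [((nat_lit 0), (nat_lit 0), (nat_lit 0)), ((nat_lit 0), (nat_lit 0), (nat_lit 0)), ((nat_lit 858), (nat_lit 1000), (nat_lit 713))], ((nat_lit 100), (nat_lit 85), (nat_lit 73))⟩, (nat_lit 202987), (nat_lit 420), (nat_lit 420), (nat_lit 0), (nat_lit 389984), [(nat_lit 1172000000), (nat_lit 1992000000), (nat_lit 2968000000)], [], [(nat_lit 8899511216), (nat_lit 9118316331), (nat_lit 10400939540), (nat_lit 9542060450), (nat_lit 9475473020), (nat_lit 8627846150), (nat_lit 11797873880), (nat_lit 10972157828)], (nat_lit 1271251), (nat_lit 1271251), (nat_lit 1100000), (nat_lit 1785001), (nat_lit 0), (nat_lit 780000), [(nat_lit 1100000), (nat_lit 1785001), (nat_lit 1271251)], [(nat_lit 18), (nat_lit 59), (nat_lit 401), (nat_lit 175), (nat_lit 10)]⟩,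
 ⟨⟨[(nat_lit 120), (nat_lit 160), (nat_lit 200)], [(nat_lit 0), (nat_lit 0), (nat_lit 3198)], [((nat_lit 0), (nat_lit 0), (nat_lit 0)), ((nat_lit 0), (nat_lit 0), (nat_lit 0)), ((nat_lit 572), (nat_lit 1000), (nat_lit 714))], ((nat_lit 0), (nat_lit 0), (nat_lit 0))⟩, (nat_lit 34634), (nat_lit 300), (nat_lit 861), (nat_lit 5268203), (nat_lit 903156), [(nat_lit 565728000), (nat_lit 842912000), (nat_lit 1164400000)], [], [(nat_lit 4555904986), (nat_lit 4507176395), (nat_lit 4416262437), (nat_lit 4378643464), (nat_lit 3773928244), (nat_lit 3727048171), (nat_lit 3630132262), (nat_lit 3577846164)], (nat_lit 1100000), (nat_lit 1271251), (nat_lit 1271251), (nat_lit 1271251), (nat_lit 0), (nat_lit 780000), [(nat_lit 1695001), (nat_lit 1271251), (nat_lit 1271251)], [(nat_lit 29), (nat_lit 66), (nat_lit 401), (nat_lit 175), (nat_lit 9)]⟩⟩) (.leaf ⟨(nat_lit 846), (nat_lit 106), (nat_lit 0), (nat_lit 48), (nat_lit 5690), (nat_lit 3823), (nat_lit 1187), (nat_lit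 630), (nat_lit 0), (nat_lit 0), (nat_lit 211500), [((nat_lit 380), [((nat_lit 25), (nat_lit 0), (nat_lit 846))])], ⟨(nat_lit 6), false, false, false, (nat_lit 222), (nat_lit 2236), (nat_lit 3163), [(nat_lit 1483125), (nat_lit 1488302), (nat_lit 1505217), (nat_lit 1511013), (nat_lit 1605240), (nat_lit 1602541), (nat_lit 1627331), (nat_lit 1625251)]⟩, ⟨(nat_lit 5), false, false, true, (nat_lit 219), (nat_lit 2236), (nat_lit 3163), [(nat_lit 1455689), (nat_lit 1454450), (nat_lit 1477844), (nat_lit 1477224), (nat_lit 1623310), (nat_lit 1611243), (nat_lit 1645465), (nat_lit 1634017)]⟩, (nat_lit 5188677), (nat_lit 39540260), (nat_lit 13901381), (nat_lit 13558359), (nat_lit 5), (nat_lit 0), [], [⟨(nat_lit 1), (nat_lit 93), (nat_lit 53), (nat_lit 100), (nat_lit 264184853)⟩], [], [⟨(nat_lit 0), (nat_lit 96), (nat_lit 100), (nat_lit 27), (nat_lit 65915511)⟩],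
 ⟨⟨[(nat_lit 40), (nat_lit 80), (nat_lit 100)], [(nat_lit 0), (nat_lit 1598), (nat_lit 2533)], [((nat_lit 0), (nat_lit 0), (nat_lit 0)), ((nat_lit 1000), (nat_lit 625), (nat_lit 623)), ((nat_lit 1000), (nat_lit 604), (nat_lit 730))], ((nat_lit 60), (nat_lit 100), (nat_lit 78))⟩, (nat_lit 0), (nat_lit 68), (nat_lit 68), (nat_lit 0), (nat_lit 0), [(nat_lit 1573848382), (nat_lit 2173349633), (nat_lit 2754328000)], [(nat_lit 0), (nat_lit 0), (nat_lit 0)], [(nat_lit 21879857894), (nat_lit 23292306401), (nat_lit 23926604550), (nat_lit 25156841976), (nat_lit 25850012503), (nat_lit 26979387163), (nat_lit 27344861183), (nat_lit 28454433062)], (nat_lit 0), (nat_lit 0), (nat_lit 0), (nat_lit 0), (nat_lit 0), (nat_lit 0), [], [(nat_lit 3), (nat_lit 50), (nat_lit 272), (nat_lit 60), (nat_lit 9)]⟩,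
 ⟨⟨[(nat_lit 80), (nat_lit 140), (nat_lit 180)], [(nat_lit 0), (nat_lit 0), (nat_lit 3656)], [((nat_lit 0), (nat_lit 0), (nat_lit 0)), ((nat_lit 0), (nat_lit 0), (nat_lit 0)), ((nat_lit 637), (nat_lit 1000), (nat_lit 908))], ((nat_lit 100), (nat_lit 78), (nat_lit 80))⟩, (nat_lit 399108), (nat_lit 402), (nat_lit 402), (nat_lit 0), (nat_lit 162298), [(nat_lit 721952000), (nat_lit 1515668000), (nat_lit 2164932000)], [], [(nat_lit 6332774712), (nat_lit 5710514489), (nat_lit 5833460816), (nat_lit 5970495149), (nat_lit 4911141818), (nat_lit 5031435230), (nat_lit 6086687130), (nat_lit 5531002576)], (nat_lit 1271251), (nat_lit 1271251), (nat_lit 1100000), (nat_lit 1785001), (nat_lit 0), (nat_lit 780000), [(nat_lit 1100000), (nat_lit 2127501), (nat_lit 1271251)], [(nat_lit 19), (nat_lit 63), (nat_lit 401), (nat_lit 175), (nat_lit 9)]⟩,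
 ⟨⟨[(nat_lit 120), (nat_lit 160), (nat_lit 200)], [(nat_lit 0), (nat_lit 0), (nat_lit 3198)], [((nat_lit 0), (nat_lit 0), (nat_lit 0)), ((nat_lit 0), (nat_lit 0), (nat_lit 0)), ((nat_lit 572), (nat_lit 1000), (nat_lit 714))], ((nat_lit 0), (nat_lit 0), (nat_lit 0))⟩, (nat_lit 23415), (nat_lit 300), (nat_lit 622), (nat_lit 3561600), (nat_lit 374354), [(nat_lit 382464000), (nat_lit 569856000), (nat_lit 787200000)], [], [(nat_lit 3090495108), (nat_lit 3058174026), (nat_lit 2995711170), (nat_lit 2960328711), (nat_lit 2569511880), (nat_lit 2538418101), (nat_lit 2474671902), (nat_lit 2439960555)], (nat_lit 1100000), (nat_lit 1271251), (nat_lit 1271251), (nat_lit 1271251), (nat_lit 0), (nat_lit 780000), [(nat_lit 1695001), (nat_lit 1271251), (nat_lit 1271251)], [(nat_lit 29), (nat_lit 66), (nat_lit 401), (nat_lit 175), (nat_lit 9)]⟩⟩)) (.leaf ⟨(nat_lit 449), (nat_lit 420), (nat_lit 0), (nat_lit 131), (nat_lit 0), (nat_lit 4659), (nat_lit 3943), (nat_lit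 1752), (nat_lit 0), (nat_lit 0), (nat_lit 112250), [((nat_lit 380), [((nat_lit 25), (nat_lit 0), (nat_lit 449))])], ⟨(nat_lit 6), false, false, false, (nat_lit 231), (nat_lit 2236), (nat_lit 3163), [(nat_lit 1505217), (nat_lit 1511013), (nat_lit 1527308), (nat_lit 1533723), (nat_lit 1627331), (nat_lit 1625251), (nat_lit 1649422), (nat_lit 1647962)]⟩, ⟨(nat_lit 5), false, false, true, (nat_lit 219), (nat_lit 2236), (nat_lit 3163), [(nat_lit 1455689), (nat_lit 1454450), (nat_lit 1477844), (nat_lit 1477224), (nat_lit 1623310), (nat_lit 1611243), (nat_lit 1645465), (nat_lit 1634017)]⟩, (nat_lit 5239458), (nat_lit 38931265), (nat_lit 14654849), (nat_lit 13413886), (nat_lit 5), (nat_lit 0), [], [⟨(nat_lit 1), (nat_lit 93), (nat_lit 53), (nat_lit 100), (nat_lit 318225247)⟩], [], [],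
 ⟨⟨[(nat_lit 40), (nat_lit 80), (nat_lit 100)], [(nat_lit 0), (nat_lit 1598), (nat_lit 2533)], [((nat_lit 0), (nat_lit 0), (nat_lit 0)), ((nat_lit 1000), (nat_lit 625), (nat_lit 623)), ((nat_lit 1000), (nat_lit 604), (nat_lit 730))], ((nat_lit 60), (nat_lit 100), (nat_lit 78))⟩, (nat_lit 0), (nat_lit 68), (nat_lit 68), (nat_lit 0), (nat_lit 0), [(nat_lit 1912556825), (nat_lit 3353392475), (nat_lit 4394732000)], [(nat_lit 0), (nat_lit 0), (nat_lit 0)], [(nat_lit 22558724588), (nat_lit 24128981053), (nat_lit 24617068236), (nat_lit 25975981528), (nat_lit 26747019185), (nat_lit 27988479082), (nat_lit 28170803476), (nat_lit 29252983397)], (nat_lit 0), (nat_lit 0), (nat_lit 0), (nat_lit 0), (nat_lit 0), (nat_lit 0), [], [(nat_lit 3), (nat_lit 50), (nat_lit 272), (nat_lit 60), (nat_lit 9)]⟩,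
 ⟨⟨[(nat_lit 80), (nat_lit 120), (nat_lit 160)], [(nat_lit 0), (nat_lit 528), (nat_lit 2577)], [((nat_lit 0), (nat_lit 0), (nat_lit 0)), ((nat_lit 1000), (nat_lit 959), (nat_lit 206)), ((nat_lit 929), (nat_lit 1000), (nat_lit 742))], ((nat_lit 100), (nat_lit 87), (nat_lit 82))⟩, (nat_lit 1499235), (nat_lit 434), (nat_lit 434), (nat_lit 0), (nat_lit 422559), [(nat_lit 2583088000), (nat_lit 4390368000), (nat_lit 6541472000)], [], [(nat_lit 16569946817), (nat_lit 17037424495), (nat_lit 20313947782), (nat_lit 18468410860), (nat_lit 18354754438), (nat_lit 16533395992), (nat_lit 23429980022), (nat_lit 21655702967)], (nat_lit 1271251), (nat_lit 1271251), (nat_lit 1100000), (nat_lit 1785001), (nat_lit 0), (nat_lit 780000), [(nat_lit 1100000), (nat_lit 1785001), (nat_lit 1271251)], [(nat_lit 18), (nat_lit 59), (nat_lit 401), (nat_lit 175), (nat_lit 10)]⟩,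
 ⟨⟨[(nat_lit 120), (nat_lit 160), (nat_lit 200)], [(nat_lit 0), (nat_lit 0), (nat_lit 3198)], [((nat_lit 0), (nat_lit 0), (nat_lit 0)), ((nat_lit 0), (nat_lit 0), (nat_lit 0)), ((nat_lit 572), (nat_lit 1000), (nat_lit 714))], ((nat_lit 0), (nat_lit 0), (nat_lit 0))⟩, (nat_lit 63902), (nat_lit 300), (nat_lit 943), (nat_lit 9720208), (nat_lit 1112536), [(nat_lit 1043808000), (nat_lit 1555232000), (nat_lit 2148400000)], [], [(nat_lit 8392898186), (nat_lit 8302212231), (nat_lit 8148857957), (nat_lit 8078756608), (nat_lit 6940493052), (nat_lit 6853245760), (nat_lit 6672209539), (nat_lit 6574941209)], (nat_lit 1100000), (nat_lit 1271251), (nat_lit 1271251), (nat_lit 1271251), (nat_lit 0), (nat_lit 780000), [(nat_lit 1695001), (nat_lit 1271251), (nat_lit 1271251)], [(nat_lit 29), (nat_lit 66), (nat_lit 401), (nat_lit 175), (nat_lit 9)]⟩⟩)) (.stt (nat_lit 2) (.leaf ⟨(nat_lit 0), (nat_lit 809), (nat_lit 0), (nat_lit 191), (nat_lit 0), (nat_lit 5806), (nat_lit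 5756), (nat_lit 2014), (nat_lit 0), (nat_lit 0), (nat_lit 0), [], Pd.none, Pd.none, (nat_lit 0), (nat_lit 1), (nat_lit 0), (nat_lit 0), (nat_lit 5), (nat_lit 0), [⟨(nat_lit 0), (nat_lit 92), (nat_lit 44), (nat_lit 100), (nat_lit 627426947)⟩], [⟨(nat_lit 1), (nat_lit 93), (nat_lit 53), (nat_lit 100), (nat_lit 475686387)⟩], [⟨(nat_lit 1), (nat_lit 44), (nat_lit 96), (nat_lit 100), (nat_lit 297826977)⟩], [],
 ⟨⟨[(nat_lit 40), (nat_lit 80), (nat_lit 100)], [(nat_lit 0), (nat_lit 1598), (nat_lit 2533)], [((nat_lit 0), (nat_lit 0), (nat_lit 0)), ((nat_lit 1000), (nat_lit 625), (nat_lit 623)), ((nat_lit 1000), (nat_lit 604), (nat_lit 730))], ((nat_lit 60), (nat_lit 100), (nat_lit 78))⟩, (nat_lit 0), (nat_lit 68), (nat_lit 68), (nat_lit 0), (nat_lit 0), [(nat_lit 2419930719), (nat_lit 4688000002), (nat_lit 6250000000)], [], [(nat_lit 23205713644), (nat_lit 24992484137), (nat_lit 25279968476), (nat_lit 26815426287), (nat_lit 27693298392), (nat_lit 29088975241),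 (nat_lit 29019581661), (nat_lit 30348602098)], (nat_lit 0), (nat_lit 0), (nat_lit 0), (nat_lit 0), (nat_lit 0), (nat_lit 0), [], [(nat_lit 3), (nat_lit 50), (nat_lit 272), (nat_lit 60), (nat_lit 9)]⟩,
 ⟨⟨[(nat_lit 80), (nat_lit 140), (nat_lit 180)], [(nat_lit 0), (nat_lit 0), (nat_lit 3656)], [((nat_lit 0), (nat_lit 0), (nat_lit 0)), ((nat_lit 0), (nat_lit 0), (nat_lit 0)), ((nat_lit 637), (nat_lit 1000), (nat_lit 908))], ((nat_lit 100), (nat_lit 78), (nat_lit 80))⟩, (nat_lit 0), (nat_lit 117), (nat_lit 117), (nat_lit 0), (nat_lit 0), [(nat_lit 4688000000), (nat_lit 9842000000), (nat_lit 14058000000)], [], [(nat_lit 10965869936), (nat_lit 14454839092), (nat_lit 15115354800), (nat_lit 18045407372), (nat_lit 27672048480), (nat_lit 29280765288), (nat_lit 29057498112), (nat_lit 30530138440)], (nat_lit 0), (nat_lit 0), (nat_lit 0), (nat_lit 0), (nat_lit 0), (nat_lit 0), [], [(nat_lit 19), (nat_lit 63), (nat_lit 483), (nat_lit 250), (nat_lit 11)]⟩,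
 ⟨⟨[(nat_lit 120), (nat_lit 160), (nat_lit 200)], [(nat_lit 0), (nat_lit 0), (nat_lit 3198)], [((nat_lit 0), (nat_lit 0), (nat_lit 0)), ((nat_lit 0), (nat_lit 0), (nat_lit 0)), ((nat_lit 572), (nat_lit 1000), (nat_lit 714))], ((nat_lit 0), (nat_lit 0), (nat_lit 0))⟩, (nat_lit 93171), (nat_lit 300), (nat_lit 1107), (nat_lit 14172200), (nat_lit 1657682), [(nat_lit 1521888000), (nat_lit 2267552000), (nat_lit 3132400000)], [], [(nat_lit 12219655983), (nat_lit 12096203575), (nat_lit 11688607449), (nat_lit 11561403626), (nat_lit 10837912822), (nat_lit 10705830179), (nat_lit 10249007185), (nat_lit 10118098968)], (nat_lit 1100000), (nat_lit 1271251), (nat_lit 1271251), (nat_lit 1271251), (nat_lit 780000), (nat_lit 3072501), [(nat_lit 1695001), (nat_lit 1271251), (nat_lit 1271251)], [(nat_lit 29), (nat_lit 66), (nat_lit 456), (nat_lit 225), (nat_lit 9)]⟩⟩) (.leaf ⟨(nat_lit 927), (nat_lit 0), (nat_lit 0), (nat_lit 73), (nat_lit 0), (nat_lit 3634), (nat_lit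 862), (nat_lit 831), (nat_lit 0), (nat_lit 0), (nat_lit 231750), [((nat_lit 380), [((nat_lit 25), (nat_lit 0), (nat_lit 927))])], ⟨(nat_lit 6), false, false, false, (nat_lit 227), (nat_lit 2236), (nat_lit 3163), [(nat_lit 1483125), (nat_lit 1488302), (nat_lit 1527308), (nat_lit 1533723), (nat_lit 1605240), (nat_lit 1602541), (nat_lit 1649422), (nat_lit 1647962)]⟩, ⟨(nat_lit 5), false, false, true, (nat_lit 219), (nat_lit 2236), (nat_lit 3163), [(nat_lit 1455689), (nat_lit 1454450), (nat_lit 1477844), (nat_lit 1477224), (nat_lit 1623310), (nat_lit 1611243), (nat_lit 1645465), (nat_lit 1634017)]⟩, (nat_lit 5214635), (nat_lit 39235643), (nat_lit 14277823), (nat_lit 13486534), (nat_lit 0), (nat_lit 0), [], [⟨(nat_lit 1), (nat_lit 93), (nat_lit 53), (nat_lit 100), (nat_lit 194742502)⟩], [], [],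
 ⟨⟨[(nat_lit 40), (nat_lit 80), (nat_lit 100)], [(nat_lit 0), (nat_lit 1598), (nat_lit 2533)], [((nat_lit 0), (nat_lit 0), (nat_lit 0)), ((nat_lit 1000), (nat_lit 625), (nat_lit 623)), ((nat_lit 1000), (nat_lit 604), (nat_lit 730))], ((nat_lit 60), (nat_lit 100), (nat_lit 78))⟩, (nat_lit 0), (nat_lit 68), (nat_lit 68), (nat_lit 0), (nat_lit 0), [(nat_lit 1558605583), (nat_lit 1932585528), (nat_lit 2419636000)], [(nat_lit 0), (nat_lit 0), (nat_lit 0)], [(nat_lit 21872848855), (nat_lit 23167952351), (nat_lit 23859525049), (nat_lit 24997669643), (nat_lit 25673236238), (nat_lit 26777690040), (nat_lit 27184150910), (nat_lit 28273899553)], (nat_lit 0), (nat_lit 0), (nat_lit 0), (nat_lit 0), (nat_lit 0), (nat_lit 0), [], [(nat_lit 3), (nat_lit 50), (nat_lit 272), (nat_lit 60), (nat_lit 9)]⟩,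
 ⟨⟨[(nat_lit 80), (nat_lit 140), (nat_lit 180)], [(nat_lit 0), (nat_lit 0), (nat_lit 3656)], [((nat_lit 0), (nat_lit 0), (nat_lit 0)), ((nat_lit 0), (nat_lit 0), (nat_lit 0)), ((nat_lit 637), (nat_lit 1000), (nat_lit 908))], ((nat_lit 100), (nat_lit 78), (nat_lit 80))⟩, (nat_lit 177273), (nat_lit 465), (nat_lit 465), (nat_lit 0), (nat_lit 539591), [(nat_lit 342224000), (nat_lit 718466000), (nat_lit 1026234000)], [], [(nat_lit 2570637556), (nat_lit 2004228348), (nat_lit 1917209292), (nat_lit 2011888868), (nat_lit 5524065112), (nat_lit 4767929056), (nat_lit 4011793000), (nat_lit 3274158912)], (nat_lit 1271251), (nat_lit 1271251), (nat_lit 1271251), (nat_lit 1271251), (nat_lit 780000), (nat_lit 3072501), [(nat_lit 1100000), (nat_lit 2127501), (nat_lit 1271251)], [(nat_lit 19), (nat_lit 63), (nat_lit 483), (nat_lit 250), (nat_lit 11)]⟩,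
 ⟨⟨[(nat_lit 120), (nat_lit 160), (nat_lit 200)], [(nat_lit 0), (nat_lit 0), (nat_lit 3198)], [((nat_lit 0), (nat_lit 0), (nat_lit 0)), ((nat_lit 0), (nat_lit 0), (nat_lit 0)), ((nat_lit 572), (nat_lit 1000), (nat_lit 714))], ((nat_lit 0), (nat_lit 0), (nat_lit 0))⟩, (nat_lit 35610), (nat_lit 300), (nat_lit 861), (nat_lit 5416600), (nat_lit 1112536), [(nat_lit 581664000), (nat_lit 866656000), (nat_lit 1197200000)], [], [(nat_lit 4325036753), (nat_lit 4277409191), (nat_lit 4140041731), (nat_lit 4089721448), (nat_lit 3869668830), (nat_lit 3820460733), (nat_lit 3681907677), (nat_lit 3629894413)], (nat_lit 1100000), (nat_lit 1271251), (nat_lit 1271251), (nat_lit 1271251), (nat_lit 780000), (nat_lit 3072501), [(nat_lit 1695001), (nat_lit 1271251), (nat_lit 1271251)], [(nat_lit 29), (nat_lit 66), (nat_lit 456), (nat_lit 225), (nat_lit 9)]⟩⟩)))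
noncomputable def c17_74 : Tr Lf :=
 (.trX (nat_lit 5) (nat_lit 1) (nat_lit 2) (nat_lit 92) (nat_lit 49) (nat_lit 100) (nat_lit 380) (.spl (nat_lit 5) (nat_lit 120) (.leaf ⟨(nat_lit 486), (nat_lit 409), (nat_lit 0), (nat_lit 105), (nat_lit 0), (nat_lit 4667), (nat_lit 5243), (nat_lit 1567), (nat_lit 0), (nat_lit 0), (nat_lit 121500), [((nat_lit 380), [((nat_lit 25), (nat_lit 0), (nat_lit 486))])], ⟨(nat_lit 7), false, false, false, (nat_lit 245), (nat_lit 2236), (nat_lit 3163), [(nat_lit 1527308), (nat_lit 1533723), (nat_lit 1571490), (nat_lit 1579145), (nat_lit 1649422), (nat_lit 1647962), (nat_lit 1693606), (nat_lit 1693384)]⟩, ⟨(nat_lit 5), false, false, true, (nat_lit 219), (nat_lit 2236), (nat_lit 3163), [(nat_lit 1455689), (nat_lit 1454450), (nat_lit 1477844), (nat_lit 1477224), (nat_lit 1623310), (nat_lit 1611243), (nat_lit 1645465), (nat_lit 1634017)]⟩, (nat_lit 5307230), (nat_lit 38020486), (nat_lit 15788112), (nat_lit 13191402), (nat_lit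 5), (nat_lit 0), [⟨(nat_lit 0), (nat_lit 82), (nat_lit 44), (nat_lit 100), (nat_lit 527082494)⟩], [⟨(nat_lit 1), (nat_lit 93), (nat_lit 53), (nat_lit 100), (nat_lit 265486155)⟩], [], [⟨(nat_lit 0), (nat_lit 96), (nat_lit 100), (nat_lit 27), (nat_lit 210444440)⟩],
 ⟨⟨[(nat_lit 40), (nat_lit 80), (nat_lit 100)], [(nat_lit 0), (nat_lit 1598), (nat_lit 2533)], [((nat_lit 0), (nat_lit 0), (nat_lit 0)), ((nat_lit 1000), (nat_lit 625), (nat_lit 623)), ((nat_lit 1000), (nat_lit 604), (nat_lit 730))], ((nat_lit 60), (nat_lit 100), (nat_lit 78))⟩, (nat_lit 0), (nat_lit 68), (nat_lit 68), (nat_lit 0), (nat_lit 0), [(nat_lit 1871652532), (nat_lit 3243413603), (nat_lit 4241848000)], [(nat_lit 0), (nat_lit 0), (nat_lit 0)], [(nat_lit 22443949772), (nat_lit 24015716361), (nat_lit 24502404396), (nat_lit 25862549036), (nat_lit 26634331833), (nat_lit 27876933876), (nat_lit 28057436082), (nat_lit 29260625027)], (nat_lit 0), (nat_lit 0), (nat_lit 0), (nat_lit 0), (nat_lit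 0), (nat_lit 0), [], [(nat_lit 3), (nat_lit 50), (nat_lit 272), (nat_lit 60), (nat_lit 9)]⟩,
 ⟨⟨[(nat_lit 60), (nat_lit 120), (nat_lit 160)], [(nat_lit 0), (nat_lit 0), (nat_lit 3243)], [((nat_lit 0), (nat_lit 0), (nat_lit 0)), ((nat_lit 0), (nat_lit 0), (nat_lit 0)), ((nat_lit 878), (nat_lit 1000), (nat_lit 945))], ((nat_lit 100), (nat_lit 96), (nat_lit 86))⟩, (nat_lit 1211987), (nat_lit 506), (nat_lit 506), (nat_lit 0), (nat_lit 500227), [(nat_lit 1686948000), (nat_lit 4095552000), (nat_lit 6102208000)], [], [(nat_lit 15707511951), (nat_lit 16805074492), (nat_lit 16325147090), (nat_lit 17215718915), (nat_lit 12629253797), (nat_lit 13579178906), (nat_lit 13120001957), (nat_lit 13887388400)], (nat_lit 1271251), (nat_lit 1271251), (nat_lit 1100000), (nat_lit 1785001), (nat_lit 0), (nat_lit 780000), [(nat_lit 780000), (nat_lit 1762501), (nat_lit 1271251)], [(nat_lit 12), (nat_lit 59), (nat_lit 401), (nat_lit 175), (nat_lit 10)]⟩,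
 ⟨⟨[(nat_lit 120), (nat_lit 160), (nat_lit 200)], [(nat_lit 0), (nat_lit 0), (nat_lit 3198)], [((nat_lit 0), (nat_lit 0), (nat_lit 0)), ((nat_lit 0), (nat_lit 0), (nat_lit 0)), ((nat_lit 572), (nat_lit 1000), (nat_lit 714))], ((nat_lit 0), (nat_lit 0), (nat_lit 0))⟩, (nat_lit 51220), (nat_lit 300), (nat_lit 1183), (nat_lit 7791000), (nat_lit 1627774), [(nat_lit 836640000), (nat_lit 1246560000), (nat_lit 1722000000)], [], [(nat_lit 6519723640), (nat_lit 6470590702), (nat_lit 6540122798), (nat_lit 6472957395), (nat_lit 5203181192), (nat_lit 5121343473), (nat_lit 5117828260), (nat_lit 5054123765)], (nat_lit 1100000), (nat_lit 1271251), (nat_lit 1271251), (nat_lit 1271251), (nat_lit 0), (nat_lit 780000), [(nat_lit 1695001), (nat_lit 1271251), (nat_lit 1271251)], [(nat_lit 29), (nat_lit 66), (nat_lit 401), (nat_lit 175), (nat_lit 9)]⟩⟩) (.stt (nat_lit 2) (.leaf ⟨(nat_lit 0), (nat_lit 868), (nat_lit 0), (nat_lit 132), (nat_lit 0), (nat_lit 5981), (nat_lit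 4550), (nat_lit 1406), (nat_lit 0), (nat_lit 0), (nat_lit 0), [], Pd.none, Pd.none, (nat_lit 0), (nat_lit 1), (nat_lit 0), (nat_lit 0), (nat_lit 5), (nat_lit 0), [⟨(nat_lit 0), (nat_lit 87), (nat_lit 53), (nat_lit 100), (nat_lit 589893536)⟩], [⟨(nat_lit 1), (nat_lit 93), (nat_lit 53), (nat_lit 100), (nat_lit 537252944)⟩], [⟨(nat_lit 1), (nat_lit 63), (nat_lit 88), (nat_lit 100), (nat_lit 333836257)⟩], [],
 ⟨⟨[(nat_lit 40), (nat_lit 80), (nat_lit 100)], [(nat_lit 0), (nat_lit 1598), (nat_lit 2533)], [((nat_lit 0), (nat_lit 0), (nat_lit 0)), ((nat_lit 1000), (nat_lit 625), (nat_lit 623)), ((nat_lit 1000), (nat_lit 604), (nat_lit 730))], ((nat_lit 60), (nat_lit 100), (nat_lit 78))⟩, (nat_lit 0), (nat_lit 68), (nat_lit 68), (nat_lit 0), (nat_lit 0), [(nat_lit 2468791747), (nat_lit 4688000002), (nat_lit 6250000000)], [], [(nat_lit 23100802369), (nat_lit 24920606825), (nat_lit 25177484801), (nat_lit 26739878350), (nat_lit 27634050392), (nat_lit 29275197576),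 (nat_lit 29080204488), (nat_lit 30515762754)], (nat_lit 0), (nat_lit 0), (nat_lit 0), (nat_lit 0), (nat_lit 0), (nat_lit 0), [], [(nat_lit 3), (nat_lit 50), (nat_lit 272), (nat_lit 60), (nat_lit 9)]⟩,
 ⟨⟨[(nat_lit 60), (nat_lit 120), (nat_lit 160)], [(nat_lit 0), (nat_lit 0), (nat_lit 3243)], [((nat_lit 0), (nat_lit 0), (nat_lit 0)), ((nat_lit 0), (nat_lit 0), (nat_lit 0)), ((nat_lit 878), (nat_lit 1000), (nat_lit 945))], ((nat_lit 100), (nat_lit 96), (nat_lit 86))⟩, (nat_lit 0), (nat_lit 95), (nat_lit 95), (nat_lit 0), (nat_lit 0), [(nat_lit 3282000000), (nat_lit 7968000000), (nat_lit 11872000000)], [], [(nat_lit 13639143250), (nat_lit 16897135000), (nat_lit 17183555100), (nat_lit 19941279200), (nat_lit 26536381225), (nat_lit 28242618300), (nat_lit 28078862575), (nat_lit 29546645900)], (nat_lit 0), (nat_lit 0), (nat_lit 0), (nat_lit 0), (nat_lit 0), (nat_lit 0), [], [(nat_lit 12), (nat_lit 59), (nat_lit 483), (nat_lit 250), (nat_lit 12)]⟩,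
 ⟨⟨[(nat_lit 120), (nat_lit 160), (nat_lit 200)], [(nat_lit 0), (nat_lit 0), (nat_lit 3198)], [((nat_lit 0), (nat_lit 0), (nat_lit 0)), ((nat_lit 0), (nat_lit 0), (nat_lit 0)), ((nat_lit 572), (nat_lit 1000), (nat_lit 714))], ((nat_lit 0), (nat_lit 0), (nat_lit 0))⟩, (nat_lit 64390), (nat_lit 300), (nat_lit 1519), (nat_lit 9794404), (nat_lit 2542941), [(nat_lit 1051776000), (nat_lit 1567104000), (nat_lit 2164800000)], [], [(nat_lit 8473151200), (nat_lit 8381852629), (nat_lit 8040554154), (nat_lit 7948530696), (nat_lit 7433089116), (nat_lit 7341335716), (nat_lit 7034567400), (nat_lit 6943887436)], (nat_lit 1100000), (nat_lit 1271251), (nat_lit 1271251), (nat_lit 1271251), (nat_lit 780000), (nat_lit 2908751), [(nat_lit 1695001), (nat_lit 1271251), (nat_lit 1271251)], [(nat_lit 29), (nat_lit 66), (nat_lit 489), (nat_lit 225), (nat_lit 10)]⟩⟩) (.spl (nat_lit 1) (nat_lit 300) (.leaf ⟨(nat_lit 752), (nat_lit 106), (nat_lit 0), (nat_lit 142), (nat_lit 0),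 (nat_lit 3950), (nat_lit 2925), (nat_lit 1363), (nat_lit 0), (nat_lit 0), (nat_lit 188000), [((nat_lit 380), [((nat_lit 25), (nat_lit 0), (nat_lit 752))])], ⟨(nat_lit 7), false, false, false, (nat_lit 240), (nat_lit 2236), (nat_lit 3163), [(nat_lit 1527308), (nat_lit 1533723), (nat_lit 1549399), (nat_lit 1556434), (nat_lit 1649422), (nat_lit 1647962), (nat_lit 1671514), (nat_lit 1670673)]⟩, ⟨(nat_lit 5), false, false, true, (nat_lit 219), (nat_lit 2236), (nat_lit 3163), [(nat_lit 1455689), (nat_lit 1454450), (nat_lit 1477844), (nat_lit 1477224), (nat_lit 1623310), (nat_lit 1611243), (nat_lit 1645465), (nat_lit 1634017)]⟩, (nat_lit 5285744), (nat_lit 38323601), (nat_lit 15410118), (nat_lit 13266281), (nat_lit 5), (nat_lit 0), [], [⟨(nat_lit 1), (nat_lit 93), (nat_lit 53), (nat_lit 100), (nat_lit 188321822)⟩], [], [],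
 ⟨⟨[(nat_lit 40), (nat_lit 80), (nat_lit 100)], [(nat_lit 0), (nat_lit 1598), (nat_lit 2533)], [((nat_lit 0), (nat_lit 0), (nat_lit 0)), ((nat_lit 1000), (nat_lit 625), (nat_lit 623)), ((nat_lit 1000), (nat_lit 604), (nat_lit 730))], ((nat_lit 60), (nat_lit 100), (nat_lit 78))⟩, (nat_lit 0), (nat_lit 68), (nat_lit 68), (nat_lit 0), (nat_lit 0), [(nat_lit 1681315936), (nat_lit 2452755201), (nat_lit 3142736000)], [(nat_lit 0), (nat_lit 0), (nat_lit 0)], [(nat_lit 22093210337), (nat_lit 23519549576), (nat_lit 24131636251), (nat_lit 25381421326), (nat_lit 26086420951), (nat_lit 27232822914), (nat_lit 27570473964), (nat_lit 28575821383)], (nat_lit 0), (nat_lit 0), (nat_lit 0), (nat_lit 0), (nat_lit 0), (nat_lit 0), [], [(nat_lit 3), (nat_lit 50), (nat_lit 272), (nat_lit 60), (nat_lit 9)]⟩,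
 ⟨⟨[(nat_lit 60), (nat_lit 120), (nat_lit 160)], [(nat_lit 0), (nat_lit 0), (nat_lit 3243)], [((nat_lit 0), (nat_lit 0), (nat_lit 0)), ((nat_lit 0), (nat_lit 0), (nat_lit 0)), ((nat_lit 878), (nat_lit 1000), (nat_lit 945))], ((nat_lit 100), (nat_lit 96), (nat_lit 86))⟩, (nat_lit 0), (nat_lit 407), (nat_lit 407), (nat_lit 0), (nat_lit 564725), [(nat_lit 813936000), (nat_lit 1976064000), (nat_lit 2944256000)], [], [(nat_lit 6819231971), (nat_lit 7106286769), (nat_lit 7215997394), (nat_lit 7568219771), (nat_lit 9278909580), (nat_lit 9452673982), (nat_lit 12427016913), (nat_lit 11135859026)], (nat_lit 1271251), (nat_lit 1271251), (nat_lit 1100000), (nat_lit 1785001), (nat_lit 780000), (nat_lit 2908751), [(nat_lit 780000), (nat_lit 1762501), (nat_lit 1271251)], [(nat_lit 12), (nat_lit 59), (nat_lit 483), (nat_lit 250), (nat_lit 12)]⟩,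
 ⟨⟨[(nat_lit 120), (nat_lit 160), (nat_lit 200)], [(nat_lit 0), (nat_lit 0), (nat_lit 3198)], [((nat_lit 0), (nat_lit 0), (nat_lit 0)), ((nat_lit 0), (nat_lit 0), (nat_lit 0)), ((nat_lit 572), (nat_lit 1000), (nat_lit 714))], ((nat_lit 0), (nat_lit 0), (nat_lit 0))⟩, (nat_lit 69268), (nat_lit 300), (nat_lit 958), (nat_lit 10536405), (nat_lit 1351816), [(nat_lit 1131456000), (nat_lit 1685824000), (nat_lit 2328800000)], [], [(nat_lit 9471368876), (nat_lit 9395288081), (nat_lit 9158934268), (nat_lit 9079545241), (nat_lit 8676975807), (nat_lit 8595250657), (nat_lit 8336589166), (nat_lit 8251951524)], (nat_lit 1100000), (nat_lit 1271251), (nat_lit 1271251), (nat_lit 1271251), (nat_lit 780000), (nat_lit 2908751), [(nat_lit 1695001), (nat_lit 1271251), (nat_lit 1271251)], [(nat_lit 29), (nat_lit 66), (nat_lit 456), (nat_lit 225), (nat_lit 9)]⟩⟩) (.trZ (nat_lit 0) (nat_lit 1) (nat_lit 3) (nat_lit 87) (nat_lit 60) (nat_lit 100) (nat_lit 170) (.trX (nat_lit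 5) (nat_lit 1) (nat_lit 2) (nat_lit 87) (nat_lit 59) (nat_lit 100) (nat_lit 370) (.leaf ⟨(nat_lit 0), (nat_lit 611), (nat_lit 0), (nat_lit 389), (nat_lit 0), (nat_lit 5794), (nat_lit 10131), (nat_lit 4209), (nat_lit 0), (nat_lit 0), (nat_lit 0), [], Pd.none, Pd.none, (nat_lit 0), (nat_lit 1), (nat_lit 0), (nat_lit 0), (nat_lit 5), (nat_lit 0), [⟨(nat_lit 0), (nat_lit 82), (nat_lit 44), (nat_lit 100), (nat_lit 888438844)⟩], [⟨(nat_lit 1), (nat_lit 93), (nat_lit 53), (nat_lit 100), (nat_lit 164176334)⟩], [⟨(nat_lit 1), (nat_lit 68), (nat_lit 84), (nat_lit 100), (nat_lit 31631122)⟩], [],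
 ⟨⟨[(nat_lit 40), (nat_lit 80), (nat_lit 100)], [(nat_lit 0), (nat_lit 1598), (nat_lit 2533)], [((nat_lit 0), (nat_lit 0), (nat_lit 0)), ((nat_lit 1000), (nat_lit 625), (nat_lit 623)), ((nat_lit 1000), (nat_lit 604), (nat_lit 730))], ((nat_lit 60), (nat_lit 100), (nat_lit 78))⟩, (nat_lit 0), (nat_lit 67), (nat_lit 67), (nat_lit 0), (nat_lit 0), [(nat_lit 2599115348), (nat_lit 4688000047), (nat_lit 6250000000)], [], [(nat_lit 23472168651), (nat_lit 25225312144), (nat_lit 25286995973), (nat_lit 26820606762), (nat_lit 27863274074), (nat_lit 29233822453), (nat_lit 29024664489), (nat_lit 30337139653)], (nat_lit 0), (nat_lit 0), (nat_lit 0), (nat_lit 0), (nat_lit 0), (nat_lit 0), [], [(nat_lit 3), (nat_lit 50), (nat_lit 272), (nat_lit 60), (nat_lit 9)]⟩,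
 ⟨⟨[(nat_lit 60), (nat_lit 100), (nat_lit 140)], [(nat_lit 0), (nat_lit 609), (nat_lit 2558)], [((nat_lit 0), (nat_lit 0), (nat_lit 0)), ((nat_lit 1000), (nat_lit 905), (nat_lit 238)), ((nat_lit 1000), (nat_lit 904), (nat_lit 760))], ((nat_lit 93), (nat_lit 100), (nat_lit 84))⟩, (nat_lit 288690), (nat_lit 360), (nat_lit 360), (nat_lit 0), (nat_lit 606079), [(nat_lit 3282000000), (nat_lit 6250000000), (nat_lit 9842000000)], [], [(nat_lit 23327188167), (nat_lit 25120752206), (nat_lit 25521582184), (nat_lit 27028514728), (nat_lit 33287823484), (nat_lit 34107655021), (nat_lit 36024247143), (nat_lit 34059749038)], (nat_lit 1271251), (nat_lit 1271251), (nat_lit 1184688), (nat_lit 1790626), (nat_lit 780000), (nat_lit 2826876), [(nat_lit 780000), (nat_lit 1435001), (nat_lit 1271251)], [(nat_lit 11), (nat_lit 55), (nat_lit 401), (nat_lit 175), (nat_lit 11)]⟩,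
 ⟨⟨[(nat_lit 120), (nat_lit 160), (nat_lit 200)], [(nat_lit 0), (nat_lit 0), (nat_lit 3198)], [((nat_lit 0), (nat_lit 0), (nat_lit 0)), ((nat_lit 0), (nat_lit 0), (nat_lit 0)), ((nat_lit 572), (nat_lit 1000), (nat_lit 714))], ((nat_lit 0), (nat_lit 0), (nat_lit 0))⟩, (nat_lit 189756), (nat_lit 300), (nat_lit 1095), (nat_lit 28863802), (nat_lit 1627774), [(nat_lit 3099552000), (nat_lit 4618208000), (nat_lit 6379600000)], [], [(nat_lit 24287643795), (nat_lit 24027268594), (nat_lit 23164111993), (nat_lit 22895983854), (nat_lit 21539907395), (nat_lit 21277338172), (nat_lit 20431332832), (nat_lit 20159957845)], (nat_lit 1100000), (nat_lit 1271251), (nat_lit 1271251), (nat_lit 1271251), (nat_lit 780000), (nat_lit 2826876), [(nat_lit 1695001), (nat_lit 1271251), (nat_lit 1271251)], [(nat_lit 29), (nat_lit 66), (nat_lit 456), (nat_lit 225), (nat_lit 9)]⟩⟩)))))))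
noncomputable def c17_75 : Tr Lf :=
 (.leaf ⟨(nat_lit 0), (nat_lit 906), (nat_lit 0), (nat_lit 94), (nat_lit 20489), (nat_lit 4225), (nat_lit 7029), (nat_lit 1431), (nat_lit 0), (nat_lit 0), (nat_lit 0), [], Pd.none, Pd.none, (nat_lit 0), (nat_lit 1), (nat_lit 0), (nat_lit 0), (nat_lit 5), (nat_lit 0), [⟨(nat_lit 0), (nat_lit 100), (nat_lit 54), (nat_lit 99), (nat_lit 682168090)⟩], [⟨(nat_lit 1), (nat_lit 99), (nat_lit 54), (nat_lit 100), (nat_lit 487892107)⟩], [], [⟨(nat_lit 0), (nat_lit 97), (nat_lit 100), (nat_lit 15), (nat_lit 147354481)⟩],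
 ⟨⟨[(nat_lit 40), (nat_lit 80), (nat_lit 100)], [(nat_lit 0), (nat_lit 1598), (nat_lit 2533)], [((nat_lit 0), (nat_lit 0), (nat_lit 0)), ((nat_lit 1000), (nat_lit 625), (nat_lit 623)), ((nat_lit 1000), (nat_lit 604), (nat_lit 730))], ((nat_lit 60), (nat_lit 100), (nat_lit 78))⟩, (nat_lit 1741633), (nat_lit 185), (nat_lit 185), (nat_lit 0), (nat_lit 301199), [(nat_lit 2032000096), (nat_lit 4688000192), (nat_lit 6250000000)], [], [(nat_lit 22766348100), (nat_lit 23950525186), (nat_lit 24619036940), (nat_lit 25592570603), (nat_lit 26101521832), (nat_lit 27569575439), (nat_lit 27639058800), (nat_lit 28838424969)], (nat_lit 1271251), (nat_lit 1271251), (nat_lit 704688), (nat_lit 1756876), (nat_lit 1271251), (nat_lit 1271251), [(nat_lit 490000), (nat_lit 1100000), (nat_lit 1442501)], [(nat_lit 3), (nat_lit 50), (nat_lit 272), (nat_lit 60), (nat_lit 9)]⟩,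
 ⟨⟨[(nat_lit 80), (nat_lit 140), (nat_lit 180)], [(nat_lit 0), (nat_lit 0), (nat_lit 3656)], [((nat_lit 0), (nat_lit 0), (nat_lit 0)), ((nat_lit 0), (nat_lit 0), (nat_lit 0)), ((nat_lit 637), (nat_lit 1000), (nat_lit 908))], ((nat_lit 100), (nat_lit 78), (nat_lit 80))⟩, (nat_lit 3399598), (nat_lit 363), (nat_lit 363), (nat_lit 0), (nat_lit 0), [(nat_lit 4688000000), (nat_lit 9842000000), (nat_lit 14058000000)], [], [(nat_lit 26281948401), (nat_lit 27769212470), (nat_lit 29375595428), (nat_lit 30526411492), (nat_lit 22877873255), (nat_lit 24195324873), (nat_lit 25666513846), (nat_lit 26686617480)], (nat_lit 0), (nat_lit 0), (nat_lit 0), (nat_lit 0), (nat_lit 0), (nat_lit 0), [], [(nat_lit 19), (nat_lit 63), (nat_lit 401), (nat_lit 175), (nat_lit 9)]⟩,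
 ⟨⟨[(nat_lit 140), (nat_lit 180), (nat_lit 200)], [(nat_lit 0), (nat_lit 0), (nat_lit 2835)], [((nat_lit 0), (nat_lit 0), (nat_lit 0)), ((nat_lit 0), (nat_lit 0), (nat_lit 0)), ((nat_lit 363), (nat_lit 1000), (nat_lit 798))], ((nat_lit 0), (nat_lit 0), (nat_lit 0))⟩, (nat_lit 25862), (nat_lit 300), (nat_lit 764), (nat_lit 7341407), (nat_lit 647609), [(nat_lit 925148000), (nat_lit 1321452000), (nat_lit 1541600000)], [], [(nat_lit 6268736428), (nat_lit 5943244692), (nat_lit 6243464288), (nat_lit 5941069076), (nat_lit 5049224845), (nat_lit 4740455891), (nat_lit 4922706854), (nat_lit 4642431148)], (nat_lit 780000), (nat_lit 1271251), (nat_lit 1271251), (nat_lit 1271251), (nat_lit 0), (nat_lit 780000), [(nat_lit 1977501), (nat_lit 1271251), (nat_lit 1271251)], [(nat_lit 32), (nat_lit 67), (nat_lit 401), (nat_lit 175), (nat_lit 9)]⟩⟩)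
noncomputable def c17_76 : Tr Lf :=
 (.spl (nat_lit 2) (nat_lit 160) (.trX (nat_lit 4) (nat_lit 0) (nat_lit 2) (nat_lit 61) (nat_lit 92) (nat_lit 100) (nat_lit 290) (.spl (nat_lit 6) (nat_lit 60) (.leaf ⟨(nat_lit 606), (nat_lit 353), (nat_lit 0), (nat_lit 41), (nat_lit 7727), (nat_lit 3520), (nat_lit 2880), (nat_lit 634), (nat_lit 0), (nat_lit 0), (nat_lit 363600), [((nat_lit 380), [((nat_lit 41), (nat_lit 2), (nat_lit 606))])], ⟨(nat_lit 6), false, false, false, (nat_lit 184), (nat_lit 2236), (nat_lit 3163), [(nat_lit 1406804), (nat_lit 1416903), (nat_lit 1428895), (nat_lit 1439613), (nat_lit 1483125), (nat_lit 1488302), (nat_lit 1505217), (nat_lit 1511013)]⟩, ⟨(nat_lit 5), false, false, true, (nat_lit 200), (nat_lit 2236), (nat_lit 3163), [(nat_lit 1411379), (nat_lit 1408901), (nat_lit 1455689), (nat_lit 1454450), (nat_lit 1548524), (nat_lit 1537186), (nat_lit 1592834), (nat_lit 1582735)]⟩, (nat_lit 4779532), (nat_lit 43624400), (nat_lit 10936125),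 (nat_lit 12439475), (nat_lit 5), (nat_lit 0), [⟨(nat_lit 0), (nat_lit 100), (nat_lit 54), (nat_lit 99), (nat_lit 26210097)⟩, ⟨(nat_lit 0), (nat_lit 100), (nat_lit 61), (nat_lit 92), (nat_lit 412436983)⟩], [⟨(nat_lit 1), (nat_lit 92), (nat_lit 61), (nat_lit 100), (nat_lit 326012435)⟩], [], [],
 ⟨⟨[(nat_lit 40), (nat_lit 80), (nat_lit 100)], [(nat_lit 0), (nat_lit 1598), (nat_lit 2533)], [((nat_lit 0), (nat_lit 0), (nat_lit 0)), ((nat_lit 1000), (nat_lit 625), (nat_lit 623)), ((nat_lit 1000), (nat_lit 604), (nat_lit 730))], ((nat_lit 61), (nat_lit 100), (nat_lit 72))⟩, (nat_lit 464085), (nat_lit 147), (nat_lit 147), (nat_lit 0), (nat_lit 189466), [(nat_lit 1530822401), (nat_lit 1876352867), (nat_lit 2029573600)], [(nat_lit 0), (nat_lit 0), (nat_lit 0)], [(nat_lit 21364362376), (nat_lit 22641443841), (nat_lit 21784902576), (nat_lit 22982834316), (nat_lit 24319845296), (nat_lit 25726417852), (nat_lit 24567379046), (nat_lit 25807484870)], (nat_lit 1271251),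 (nat_lit 1271251), (nat_lit 704688), (nat_lit 1100000), (nat_lit 1271251), (nat_lit 1271251), [(nat_lit 490000), (nat_lit 1100000), (nat_lit 1442501)], [(nat_lit 3), (nat_lit 50), (nat_lit 249), (nat_lit 40), (nat_lit 8)]⟩,
 ⟨⟨[(nat_lit 80), (nat_lit 120), (nat_lit 160)], [(nat_lit 0), (nat_lit 0), (nat_lit 2132)], [((nat_lit 0), (nat_lit 0), (nat_lit 0)), ((nat_lit 0), (nat_lit 0), (nat_lit 0)), ((nat_lit 858), (nat_lit 1000), (nat_lit 713))], ((nat_lit 100), (nat_lit 85), (nat_lit 73))⟩, (nat_lit 0), (nat_lit 378), (nat_lit 378), (nat_lit 0), (nat_lit 229366), [(nat_lit 1847072000), (nat_lit 3139392000), (nat_lit 4677568000)], [], [(nat_lit 14988345680), (nat_lit 15219701651), (nat_lit 14730024536), (nat_lit 15067108114), (nat_lit 13356931076), (nat_lit 13679123377), (nat_lit 14943231472), (nat_lit 13612896112)], (nat_lit 1271251), (nat_lit 1271251), (nat_lit 704688), (nat_lit 1100000), (nat_lit 0), (nat_lit 780000), [(nat_lit 1100000), (nat_lit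 1785001), (nat_lit 1271251)], [(nat_lit 18), (nat_lit 59), (nat_lit 373), (nat_lit 150), (nat_lit 10)]⟩,
 ⟨⟨[(nat_lit 140), (nat_lit 180), (nat_lit 200)], [(nat_lit 0), (nat_lit 0), (nat_lit 2835)], [((nat_lit 0), (nat_lit 0), (nat_lit 0)), ((nat_lit 0), (nat_lit 0), (nat_lit 0)), ((nat_lit 363), (nat_lit 1000), (nat_lit 798))], ((nat_lit 0), (nat_lit 0), (nat_lit 0))⟩, (nat_lit 11280), (nat_lit 300), (nat_lit 756), (nat_lit 3202106), (nat_lit 630319), [(nat_lit 403522000), (nat_lit 576378000), (nat_lit 672400000)], [], [(nat_lit 2723787692), (nat_lit 2614039384), (nat_lit 2711717968), (nat_lit 2606980934), (nat_lit 2182546930), (nat_lit 2078743484), (nat_lit 2127788311), (nat_lit 2031381066)], (nat_lit 780000), (nat_lit 1100000), (nat_lit 1271251), (nat_lit 1271251), (nat_lit 0), (nat_lit 780000), [(nat_lit 1977501), (nat_lit 1271251), (nat_lit 1271251)], [(nat_lit 32), (nat_lit 67), (nat_lit 373), (nat_lit 150), (nat_lit 8)]⟩⟩) (.spl (nat_lit 0)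 (nat_lit 370) (.leaf ⟨(nat_lit 515), (nat_lit 485), (nat_lit 0), (nat_lit 0), (nat_lit 19086), (nat_lit 6018), (nat_lit 6799), (nat_lit 0), (nat_lit 0), (nat_lit 0), (nat_lit 128750), [((nat_lit 370), [((nat_lit 25), (nat_lit 0), (nat_lit 515))])], ⟨(nat_lit 6), false, false, false, (nat_lit 183), (nat_lit 2738), (nat_lit 3163), [(nat_lit 1407099), (nat_lit 1411881), (nat_lit 1429241), (nat_lit 1434286), (nat_lit 1483313), (nat_lit 1485730), (nat_lit 1505456), (nat_lit 1508135)]⟩, ⟨(nat_lit 5), false, false, true, (nat_lit 200), (nat_lit 2738), (nat_lit 3163), [(nat_lit 1411379), (nat_lit 1410329), (nat_lit 1455689), (nat_lit 1455164), (nat_lit 1548524), (nat_lit 1543217), (nat_lit 1592834), (nat_lit 1588052)]⟩, (nat_lit 4778502), (nat_lit 43625929), (nat_lit 10867397), (nat_lit 12506674), (nat_lit 5), (nat_lit 0), [⟨(nat_lit 0), (nat_lit 100), (nat_lit 58), (nat_lit 97), (nat_lit 706917245)⟩], [⟨(nat_lit 1), (nat_lit 100), (nat_lit 59), (nat_lit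 100), (nat_lit 488926972)⟩], [], [],
 ⟨⟨[(nat_lit 40), (nat_lit 80), (nat_lit 100)], [(nat_lit 0), (nat_lit 1598), (nat_lit 2533)], [((nat_lit 0), (nat_lit 0), (nat_lit 0)), ((nat_lit 1000), (nat_lit 625), (nat_lit 623)), ((nat_lit 1000), (nat_lit 604), (nat_lit 730))], ((nat_lit 60), (nat_lit 100), (nat_lit 78))⟩, (nat_lit 0), (nat_lit 108), (nat_lit 108), (nat_lit 0), (nat_lit 70767), [(nat_lit 2131248881), (nat_lit 3592812265), (nat_lit 4122020000)], [(nat_lit 0), (nat_lit 0), (nat_lit 0)], [(nat_lit 23438992325), (nat_lit 24352531332), (nat_lit 23331791988), (nat_lit 24182182735), (nat_lit 26976201381), (nat_lit 27923807915), (nat_lit 26617476044), (nat_lit 27395835593)], (nat_lit 1271251), (nat_lit 1271251), (nat_lit 704688), (nat_lit 1100000), (nat_lit 1271251), (nat_lit 1271251), [(nat_lit 490000), (nat_lit 1100000), (nat_lit 1442501)], [(nat_lit 3), (nat_lit 50), (nat_lit 249), (nat_lit 40), (nat_lit 8)]⟩,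
 ⟨⟨[(nat_lit 80), (nat_lit 140), (nat_lit 180)], [(nat_lit 0), (nat_lit 0), (nat_lit 3656)], [((nat_lit 0), (nat_lit 0), (nat_lit 0)), ((nat_lit 0), (nat_lit 0), (nat_lit 0)), ((nat_lit 637), (nat_lit 1000), (nat_lit 908))], ((nat_lit 100), (nat_lit 78), (nat_lit 80))⟩, (nat_lit 1736604), (nat_lit 397), (nat_lit 397), (nat_lit 0), (nat_lit 85195), [(nat_lit 2273680000), (nat_lit 4773370000), (nat_lit 6818130000)], [], [(nat_lit 15282320933), (nat_lit 16108590969), (nat_lit 14557894636), (nat_lit 15286641187), (nat_lit 10425376388), (nat_lit 11122741365), (nat_lit 11762874604), (nat_lit 10398352954)], (nat_lit 1271251), (nat_lit 1271251), (nat_lit 704688), (nat_lit 1100000), (nat_lit 0), (nat_lit 780000), [(nat_lit 1100000), (nat_lit 2127501), (nat_lit 1271251)], [(nat_lit 19), (nat_lit 63), (nat_lit 373), (nat_lit 150), (nat_lit 9)]⟩,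
 Rw.none⟩) (.trZ (nat_lit 0) (nat_lit 1) (nat_lit 3) (nat_lit 100) (nat_lit 54) (nat_lit 96) (nat_lit 130) (.trX (nat_lit 4) (nat_lit 0) (nat_lit 2) (nat_lit 54) (nat_lit 96) (nat_lit 100) (nat_lit 270) (.leaf ⟨(nat_lit 823), (nat_lit 134), (nat_lit 0), (nat_lit 43), (nat_lit 8083), (nat_lit 3745), (nat_lit 2390), (nat_lit 972), (nat_lit 0), (nat_lit 0), (nat_lit 205750), [((nat_lit 380), [((nat_lit 25), (nat_lit 0), (nat_lit 823))])], ⟨(nat_lit 6), false, false, false, (nat_lit 191), (nat_lit 2236), (nat_lit 2739), [(nat_lit 1441375), (nat_lit 1445669), (nat_lit 1463772), (nat_lit 1468423), (nat_lit 1485697), (nat_lit 1488457), (nat_lit 1508094), (nat_lit 1511211)]⟩, ⟨(nat_lit 5), false, false, true, (nat_lit 193), (nat_lit 2236), (nat_lit 2739), [(nat_lit 1410329), (nat_lit 1408901), (nat_lit 1455164), (nat_lit 1454450), (nat_lit 1513686), (nat_lit 1508679), (nat_lit 1558521), (nat_lit 1554227)]⟩, (nat_lit 4784305), (nat_lit 43621334), (nat_lit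 11565726), (nat_lit 11812940), (nat_lit 5), (nat_lit 0), [⟨(nat_lit 0), (nat_lit 100), (nat_lit 50), (nat_lit 100), (nat_lit 339888708)⟩], [⟨(nat_lit 1), (nat_lit 100), (nat_lit 49), (nat_lit 97), (nat_lit 297025507)⟩], [], [],
 ⟨⟨[(nat_lit 40), (nat_lit 80), (nat_lit 100)], [(nat_lit 0), (nat_lit 2008), (nat_lit 2969)], [((nat_lit 0), (nat_lit 0), (nat_lit 0)), ((nat_lit 1000), (nat_lit 540), (nat_lit 733)), ((nat_lit 1000), (nat_lit 536), (nat_lit 751))], ((nat_lit 53), (nat_lit 100), (nat_lit 79))⟩, (nat_lit 588435), (nat_lit 116), (nat_lit 116), (nat_lit 0), (nat_lit 114101), [(nat_lit 1575790055), (nat_lit 2434359364), (nat_lit 2849364000)], [(nat_lit 0), (nat_lit 0), (nat_lit 0)], [(nat_lit 22213462143), (nat_lit 22895066551), (nat_lit 22388952478), (nat_lit 23042525240), (nat_lit 24380353097), (nat_lit 25122163269), (nat_lit 24477308754), (nat_lit 25164595329)], (nat_lit 1271251), (nat_lit 1271251), (nat_lit 857188), (nat_lit 1100000), (nat_lit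 1271251), (nat_lit 1271251), [(nat_lit 490000), (nat_lit 1100000), (nat_lit 1442501)], [(nat_lit 3), (nat_lit 50), (nat_lit 249), (nat_lit 40), (nat_lit 8)]⟩,
 ⟨⟨[(nat_lit 80), (nat_lit 140), (nat_lit 180)], [(nat_lit 0), (nat_lit 0), (nat_lit 3656)], [((nat_lit 0), (nat_lit 0), (nat_lit 0)), ((nat_lit 0), (nat_lit 0), (nat_lit 0)), ((nat_lit 637), (nat_lit 1000), (nat_lit 908))], ((nat_lit 100), (nat_lit 78), (nat_lit 80))⟩, (nat_lit 467896), (nat_lit 410), (nat_lit 410), (nat_lit 0), (nat_lit 143354), [(nat_lit 829776000), (nat_lit 1742034000), (nat_lit 2488266000)], [], [(nat_lit 6063276106), (nat_lit 6253463567), (nat_lit 6167070936), (nat_lit 6027837030), (nat_lit 6617912210), (nat_lit 5517383384), (nat_lit 7432816756), (nat_lit 6343286261)], (nat_lit 1271251), (nat_lit 1271251), (nat_lit 857188), (nat_lit 1100000), (nat_lit 0), (nat_lit 780000), [(nat_lit 1100000), (nat_lit 2127501), (nat_lit 1271251)], [(nat_lit 19), (nat_lit 63), (nat_lit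 373), (nat_lit 150), (nat_lit 9)]⟩,
 ⟨⟨[(nat_lit 140), (nat_lit 180), (nat_lit 200)], [(nat_lit 0), (nat_lit 0), (nat_lit 2835)], [((nat_lit 0), (nat_lit 0), (nat_lit 0)), ((nat_lit 0), (nat_lit 0), (nat_lit 0)), ((nat_lit 363), (nat_lit 1000), (nat_lit 798))], ((nat_lit 0), (nat_lit 0), (nat_lit 0))⟩, (nat_lit 11831), (nat_lit 300), (nat_lit 663), (nat_lit 3358300), (nat_lit 412348), [(nat_lit 423206000), (nat_lit 604494000), (nat_lit 705200000)], [], [(nat_lit 2965052282), (nat_lit 2801566592), (nat_lit 2914538752), (nat_lit 2743610023), (nat_lit 2041513692), (nat_lit 1988552432), (nat_lit 1990413319), (nat_lit 1832521539)], (nat_lit 780000), (nat_lit 1100000), (nat_lit 1271251), (nat_lit 1271251), (nat_lit 0), (nat_lit 780000), [(nat_lit 1977501), (nat_lit 1271251), (nat_lit 1271251)], [(nat_lit 32), (nat_lit 67), (nat_lit 373), (nat_lit 150), (nat_lit 8)]⟩⟩)))))) (.spl (nat_lit 6) (nat_lit 60) (.leaf ⟨(nat_lit 689), (nat_lit 155), (nat_lit 0),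 (nat_lit 156), (nat_lit 7140), (nat_lit 3428), (nat_lit 2331), (nat_lit 1763), (nat_lit 0), (nat_lit 0), (nat_lit 413400), [((nat_lit 380), [((nat_lit 41), (nat_lit 2), (nat_lit 689))])], ⟨(nat_lit 6), false, false, false, (nat_lit 184), (nat_lit 2236), (nat_lit 3163), [(nat_lit 1406804), (nat_lit 1416903), (nat_lit 1428895), (nat_lit 1439613), (nat_lit 1483125), (nat_lit 1488302), (nat_lit 1505217), (nat_lit 1511013)]⟩, ⟨(nat_lit 5), false, false, true, (nat_lit 219), (nat_lit 2236), (nat_lit 3163), [(nat_lit 1455689), (nat_lit 1454450), (nat_lit 1477844), (nat_lit 1477224), (nat_lit 1623310), (nat_lit 1611243), (nat_lit 1645465), (nat_lit 1634017)]⟩, (nat_lit 4918269), (nat_lit 42146966), (nat_lit 10718496), (nat_lit 14134538), (nat_lit 5), (nat_lit 0), [⟨(nat_lit 0), (nat_lit 100), (nat_lit 54), (nat_lit 99), (nat_lit 464047417)⟩], [⟨(nat_lit 1), (nat_lit 93), (nat_lit 53), (nat_lit 100), (nat_lit 136642340)⟩], [⟨(nat_lit 0), (nat_lit 100), (nat_lit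 98), (nat_lit 10), (nat_lit 158751112)⟩], [],
 ⟨⟨[(nat_lit 40), (nat_lit 80), (nat_lit 100)], [(nat_lit 0), (nat_lit 1598), (nat_lit 2533)], [((nat_lit 0), (nat_lit 0), (nat_lit 0)), ((nat_lit 1000), (nat_lit 625), (nat_lit 623)), ((nat_lit 1000), (nat_lit 604), (nat_lit 730))], ((nat_lit 61), (nat_lit 100), (nat_lit 72))⟩, (nat_lit 159143), (nat_lit 137), (nat_lit 137), (nat_lit 0), (nat_lit 141800), [(nat_lit 1483545692), (nat_lit 1483584254), (nat_lit 1451528400)], [(nat_lit 0), (nat_lit 0), (nat_lit 0)], [(nat_lit 21620298325), (nat_lit 22881353551), (nat_lit 22057110105), (nat_lit 23240451841), (nat_lit 25323553442), (nat_lit 26500163603), (nat_lit 25535231272), (nat_lit 26558479749)], (nat_lit 1271251), (nat_lit 1271251), (nat_lit 704688), (nat_lit 1100000), (nat_lit 1271251), (nat_lit 1271251), [(nat_lit 490000), (nat_lit 1100000), (nat_lit 1442501)], [(nat_lit 3), (nat_lit 50), (nat_lit 249), (nat_lit 40), (nat_lit 8)]⟩,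
 ⟨⟨[(nat_lit 80), (nat_lit 120), (nat_lit 160)], [(nat_lit 0), (nat_lit 0), (nat_lit 2132)], [((nat_lit 0), (nat_lit 0), (nat_lit 0)), ((nat_lit 0), (nat_lit 0), (nat_lit 0)), ((nat_lit 858), (nat_lit 1000), (nat_lit 713))], ((nat_lit 100), (nat_lit 85), (nat_lit 73))⟩, (nat_lit 0), (nat_lit 350), (nat_lit 350), (nat_lit 0), (nat_lit 158636), [(nat_lit 1457968000), (nat_lit 2478048000), (nat_lit 3692192000)], [], [(nat_lit 11873413669), (nat_lit 11978416666), (nat_lit 11519467508), (nat_lit 11842732247), (nat_lit 10400108950), (nat_lit 10657011408), (nat_lit 11348596842), (nat_lit 10538362050)], (nat_lit 1271251), (nat_lit 1271251), (nat_lit 704688), (nat_lit 1100000), (nat_lit 0), (nat_lit 780000), [(nat_lit 1100000), (nat_lit 1785001), (nat_lit 1271251)], [(nat_lit 18), (nat_lit 59), (nat_lit 373), (nat_lit 150), (nat_lit 10)]⟩,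
 ⟨⟨[(nat_lit 120), (nat_lit 160), (nat_lit 200)], [(nat_lit 0), (nat_lit 0), (nat_lit 3198)], [((nat_lit 0), (nat_lit 0), (nat_lit 0)), ((nat_lit 0), (nat_lit 0), (nat_lit 0)), ((nat_lit 572), (nat_lit 1000), (nat_lit 714))], ((nat_lit 0), (nat_lit 0), (nat_lit 0))⟩, (nat_lit 76098), (nat_lit 300), (nat_lit 547), (nat_lit 11575200), (nat_lit 297864), [(nat_lit 1243008000), (nat_lit 1852032000), (nat_lit 2558400000)], [], [(nat_lit 9595085931), (nat_lit 9535538431), (nat_lit 9686894645), (nat_lit 9625228161), (nat_lit 8202199746), (nat_lit 8140329681), (nat_lit 8146267564), (nat_lit 8088021980)], (nat_lit 1100000), (nat_lit 1271251), (nat_lit 1271251), (nat_lit 1271251), (nat_lit 0), (nat_lit 780000), [(nat_lit 1695001), (nat_lit 1271251), (nat_lit 1271251)], [(nat_lit 29), (nat_lit 66), (nat_lit 401), (nat_lit 175), (nat_lit 9)]⟩⟩) (.leaf ⟨(nat_lit 511), (nat_lit 300), (nat_lit 0), (nat_lit 189), (nat_lit 16720), (nat_lit 4611), (nat_lit 6874), (nat_lit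 2153), (nat_lit 0), (nat_lit 0), (nat_lit 306600), [((nat_lit 380), [((nat_lit 41), (nat_lit 2), (nat_lit 511))])], ⟨(nat_lit 6), false, false, false, (nat_lit 184), (nat_lit 2236), (nat_lit 3163), [(nat_lit 1406804), (nat_lit 1416903), (nat_lit 1428895), (nat_lit 1439613), (nat_lit 1483125), (nat_lit 1488302), (nat_lit 1505217), (nat_lit 1511013)]⟩, ⟨(nat_lit 5), false, false, true, (nat_lit 219), (nat_lit 2236), (nat_lit 3163), [(nat_lit 1455689), (nat_lit 1454450), (nat_lit 1477844), (nat_lit 1477224), (nat_lit 1623310), (nat_lit 1611243), (nat_lit 1645465), (nat_lit 1634017)]⟩, (nat_lit 4918269), (nat_lit 42146966), (nat_lit 10718496), (nat_lit 14134538), (nat_lit 5), (nat_lit 0), [⟨(nat_lit 0), (nat_lit 100), (nat_lit 54), (nat_lit 99), (nat_lit 806343926)⟩], [⟨(nat_lit 1), (nat_lit 93), (nat_lit 53), (nat_lit 100), (nat_lit 181355508)⟩], [⟨(nat_lit 0), (nat_lit 100), (nat_lit 98), (nat_lit 10), (nat_lit 290098506)⟩], [],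
 ⟨⟨[(nat_lit 40), (nat_lit 80), (nat_lit 100)], [(nat_lit 0), (nat_lit 1598), (nat_lit 2533)], [((nat_lit 0), (nat_lit 0), (nat_lit 0)), ((nat_lit 1000), (nat_lit 625), (nat_lit 623)), ((nat_lit 1000), (nat_lit 604), (nat_lit 730))], ((nat_lit 60), (nat_lit 100), (nat_lit 78))⟩, (nat_lit 0), (nat_lit 114), (nat_lit 114), (nat_lit 0), (nat_lit 59151), [(nat_lit 1796612036), (nat_lit 2548311450), (nat_lit 2691191600)], [(nat_lit 0), (nat_lit 0), (nat_lit 0)], [(nat_lit 22614135433), (nat_lit 24175948836), (nat_lit 22780105026), (nat_lit 24239117489), (nat_lit 26756265136), (nat_lit 28087508900), (nat_lit 26658646527), (nat_lit 27817342729)], (nat_lit 1271251), (nat_lit 1271251), (nat_lit 704688), (nat_lit 1100000), (nat_lit 1271251), (nat_lit 1271251), [(nat_lit 490000), (nat_lit 1100000), (nat_lit 1442501)], [(nat_lit 3), (nat_lit 50), (nat_lit 249), (nat_lit 40), (nat_lit 8)]⟩,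
 ⟨⟨[(nat_lit 80), (nat_lit 140), (nat_lit 180)], [(nat_lit 0), (nat_lit 0), (nat_lit 3656)], [((nat_lit 0), (nat_lit 0), (nat_lit 0)), ((nat_lit 0), (nat_lit 0), (nat_lit 0)), ((nat_lit 637), (nat_lit 1000), (nat_lit 908))], ((nat_lit 100), (nat_lit 78), (nat_lit 80))⟩, (nat_lit 1681677), (nat_lit 391), (nat_lit 391), (nat_lit 0), (nat_lit 68777), [(nat_lit 2292432000), (nat_lit 4812738000), (nat_lit 6874362000)], [], [(nat_lit 15655724711), (nat_lit 16511656319), (nat_lit 14659990936), (nat_lit 15410618590), (nat_lit 10480543357), (nat_lit 11184879706), (nat_lit 11841160496), (nat_lit 10451149755)], (nat_lit 1271251), (nat_lit 1271251), (nat_lit 704688), (nat_lit 1100000), (nat_lit 0), (nat_lit 780000), [(nat_lit 1100000), (nat_lit 2127501), (nat_lit 1271251)], [(nat_lit 19), (nat_lit 63), (nat_lit 373), (nat_lit 150), (nat_lit 9)]⟩,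
 ⟨⟨[(nat_lit 120), (nat_lit 160), (nat_lit 200)], [(nat_lit 0), (nat_lit 0), (nat_lit 3198)], [((nat_lit 0), (nat_lit 0), (nat_lit 0)), ((nat_lit 0), (nat_lit 0), (nat_lit 0)), ((nat_lit 572), (nat_lit 1000), (nat_lit 714))], ((nat_lit 0), (nat_lit 0), (nat_lit 0))⟩, (nat_lit 92195), (nat_lit 300), (nat_lit 477), (nat_lit 14023802), (nat_lit 131886), [(nat_lit 1505952000), (nat_lit 2243808000), (nat_lit 3099600000)], [], [(nat_lit 11604822884), (nat_lit 11555024054), (nat_lit 11736947521), (nat_lit 11661085507), (nat_lit 9826741268), (nat_lit 9764493918), (nat_lit 9853138044), (nat_lit 9781472531)], (nat_lit 1100000), (nat_lit 1271251), (nat_lit 1271251), (nat_lit 1271251), (nat_lit 0), (nat_lit 780000), [(nat_lit 1695001), (nat_lit 1271251), (nat_lit 1271251)], [(nat_lit 29), (nat_lit 66), (nat_lit 401), (nat_lit 175), (nat_lit 9)]⟩⟩)))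
noncomputable def c17_77 : Tr Lf :=
 (.spl (nat_lit 3) (nat_lit 200) (.spl (nat_lit 2) (nat_lit 160) (.trX (nat_lit 4) (nat_lit 0) (nat_lit 2) (nat_lit 61) (nat_lit 92) (nat_lit 100) (nat_lit 290) (.spl (nat_lit 6) (nat_lit 60) (.leaf ⟨(nat_lit 36), (nat_lit 819), (nat_lit 0), (nat_lit 145), (nat_lit 0), (nat_lit 4121), (nat_lit 8763), (nat_lit 3124), (nat_lit 0), (nat_lit 0), (nat_lit 144000), [((nat_lit 380), [((nat_lit 41), (nat_lit 5), (nat_lit 36))])], ⟨(nat_lit 6), false, false, false, (nat_lit 211), (nat_lit 2236), (nat_lit 3163), [(nat_lit 1483125), (nat_lit 1488302), (nat_lit 1505217), (nat_lit 1511013), (nat_lit 1544182), (nat_lit 1545421), (nat_lit 1566274), (nat_lit 1568132)]⟩, ⟨(nat_lit 5), false, false, true, (nat_lit 200), (nat_lit 2236), (nat_lit 3163), [(nat_lit 1411379), (nat_lit 1408901), (nat_lit 1455689), (nat_lit 1454450), (nat_lit 1548524), (nat_lit 1537186), (nat_lit 1592834), (nat_lit 1582735)]⟩, (nat_lit 4983277), (nat_lit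 41699958), (nat_lit 13190042), (nat_lit 12110000), (nat_lit 5), (nat_lit 0), [], [⟨(nat_lit 1), (nat_lit 100), (nat_lit 54), (nat_lit 98), (nat_lit 484787704)⟩], [], [],
 ⟨⟨[(nat_lit 40), (nat_lit 80), (nat_lit 100)], [(nat_lit 0), (nat_lit 1598), (nat_lit 2533)], [((nat_lit 0), (nat_lit 0), (nat_lit 0)), ((nat_lit 1000), (nat_lit 625), (nat_lit 623)), ((nat_lit 1000), (nat_lit 604), (nat_lit 730))], ((nat_lit 61), (nat_lit 100), (nat_lit 72))⟩, (nat_lit 1474678), (nat_lit 131), (nat_lit 131), (nat_lit 0), (nat_lit 189466), [(nat_lit 1894139214), (nat_lit 3981649417), (nat_lit 5025280000)], [(nat_lit 0), (nat_lit 0), (nat_lit 0)], [(nat_lit 21766790214), (nat_lit 23060032741), (nat_lit 22687088899), (nat_lit 24077376425), (nat_lit 24972610131), (nat_lit 26402386448), (nat_lit 25848300646), (nat_lit 27184806509)], (nat_lit 1271251), (nat_lit 1271251), (nat_lit 1100000), (nat_lit 1442501), (nat_lit 1271251), (nat_lit 1271251), [(nat_lit 490000), (nat_lit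 1100000), (nat_lit 1442501)], [(nat_lit 3), (nat_lit 50), (nat_lit 260), (nat_lit 50), (nat_lit 8)]⟩,
 ⟨⟨[(nat_lit 80), (nat_lit 120), (nat_lit 160)], [(nat_lit 0), (nat_lit 0), (nat_lit 2132)], [((nat_lit 0), (nat_lit 0), (nat_lit 0)), ((nat_lit 0), (nat_lit 0), (nat_lit 0)), ((nat_lit 858), (nat_lit 1000), (nat_lit 713))], ((nat_lit 100), (nat_lit 85), (nat_lit 73))⟩, (nat_lit 17388), (nat_lit 355), (nat_lit 355), (nat_lit 0), (nat_lit 229366), [(nat_lit 4519232000), (nat_lit 7681152000), (nat_lit 11444608000)], [], [(nat_lit 34331720560), (nat_lit 35434811623), (nat_lit 35189254136), (nat_lit 36192705214), (nat_lit 35142771628), (nat_lit 31094949142), (nat_lit 40373155564), (nat_lit 36377650379)], (nat_lit 1271251), (nat_lit 1271251), (nat_lit 1100000), (nat_lit 1442501), (nat_lit 0), (nat_lit 780000), [(nat_lit 1100000), (nat_lit 1785001), (nat_lit 1271251)], [(nat_lit 18), (nat_lit 59), (nat_lit 373), (nat_lit 150), (nat_lit 10)]⟩,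
 ⟨⟨[(nat_lit 140), (nat_lit 180), (nat_lit 200)], [(nat_lit 0), (nat_lit 0), (nat_lit 2835)], [((nat_lit 0), (nat_lit 0), (nat_lit 0)), ((nat_lit 0), (nat_lit 0), (nat_lit 0)), ((nat_lit 363), (nat_lit 1000), (nat_lit 798))], ((nat_lit 0), (nat_lit 0), (nat_lit 0))⟩, (nat_lit 39894), (nat_lit 300), (nat_lit 756), (nat_lit 11324503), (nat_lit 630319), [(nat_lit 1427090000), (nat_lit 2038410000), (nat_lit 2378000000)], [], [(nat_lit 9937671678), (nat_lit 9417109616), (nat_lit 9829600128), (nat_lit 9274623819), (nat_lit 6980896420), (nat_lit 6705200672), (nat_lit 6860509816), (nat_lit 6347626574)], (nat_lit 780000), (nat_lit 1100000), (nat_lit 1271251), (nat_lit 1271251), (nat_lit 0), (nat_lit 780000), [(nat_lit 1977501), (nat_lit 1271251), (nat_lit 1271251)], [(nat_lit 32), (nat_lit 67), (nat_lit 373), (nat_lit 150), (nat_lit 8)]⟩⟩) (.leaf ⟨(nat_lit 779), (nat_lit 156), (nat_lit 0), (nat_lit 65), (nat_lit 4702), (nat_lit 4620), (nat_lit 2976), (nat_lit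 1201), (nat_lit 0), (nat_lit 0), (nat_lit 256700), [((nat_lit 380), [((nat_lit 25), (nat_lit 0), (nat_lit 602)), ((nat_lit 41), (nat_lit 2), (nat_lit 177))])], ⟨(nat_lit 6), false, false, false, (nat_lit 211), (nat_lit 2236), (nat_lit 3163), [(nat_lit 1483125), (nat_lit 1488302), (nat_lit 1505217), (nat_lit 1511013), (nat_lit 1544182), (nat_lit 1545421), (nat_lit 1566274), (nat_lit 1568132)]⟩, ⟨(nat_lit 5), false, false, true, (nat_lit 200), (nat_lit 2236), (nat_lit 3163), [(nat_lit 1411379), (nat_lit 1408901), (nat_lit 1455689), (nat_lit 1454450), (nat_lit 1548524), (nat_lit 1537186), (nat_lit 1592834), (nat_lit 1582735)]⟩, (nat_lit 4983277), (nat_lit 41699958), (nat_lit 13190042), (nat_lit 12110000), (nat_lit 5), (nat_lit 0), [], [⟨(nat_lit 1), (nat_lit 100), (nat_lit 54), (nat_lit 98), (nat_lit 265742011)⟩], [], [],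
 ⟨⟨[(nat_lit 40), (nat_lit 80), (nat_lit 100)], [(nat_lit 0), (nat_lit 1598), (nat_lit 2533)], [((nat_lit 0), (nat_lit 0), (nat_lit 0)), ((nat_lit 1000), (nat_lit 625), (nat_lit 623)), ((nat_lit 1000), (nat_lit 604), (nat_lit 730))], ((nat_lit 60), (nat_lit 100), (nat_lit 78))⟩, (nat_lit 0), (nat_lit 110), (nat_lit 110), (nat_lit 0), (nat_lit 115930), [(nat_lit 1714798613), (nat_lit 2352699048), (nat_lit 2529837200)], [(nat_lit 0), (nat_lit 0), (nat_lit 0)], [(nat_lit 22613127120), (nat_lit 24073686080), (nat_lit 23556959530), (nat_lit 24920696675), (nat_lit 25681048910), (nat_lit 26896458205), (nat_lit 26388532815), (nat_lit 27656774712)], (nat_lit 1271251), (nat_lit 1271251), (nat_lit 1100000), (nat_lit 1442501), (nat_lit 1271251), (nat_lit 1271251), [(nat_lit 490000), (nat_lit 1100000), (nat_lit 1442501)], [(nat_lit 3), (nat_lit 50), (nat_lit 260), (nat_lit 50), (nat_lit 8)]⟩,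
 ⟨⟨[(nat_lit 80), (nat_lit 140), (nat_lit 180)], [(nat_lit 0), (nat_lit 0), (nat_lit 3656)], [((nat_lit 0), (nat_lit 0), (nat_lit 0)), ((nat_lit 0), (nat_lit 0), (nat_lit 0)), ((nat_lit 637), (nat_lit 1000), (nat_lit 908))], ((nat_lit 100), (nat_lit 78), (nat_lit 80))⟩, (nat_lit 437293), (nat_lit 394), (nat_lit 394), (nat_lit 0), (nat_lit 143246), [(nat_lit 1036048000), (nat_lit 2175082000), (nat_lit 3106818000)], [], [(nat_lit 7833959492), (nat_lit 8058023470), (nat_lit 9261688348), (nat_lit 8253509104), (nat_lit 9283663192), (nat_lit 7926992584), (nat_lit 10950224764), (nat_lit 9610846948)], (nat_lit 1271251), (nat_lit 1271251), (nat_lit 1100000), (nat_lit 1442501), (nat_lit 0), (nat_lit 780000), [(nat_lit 1100000), (nat_lit 2127501), (nat_lit 1271251)], [(nat_lit 19), (nat_lit 63), (nat_lit 373), (nat_lit 150), (nat_lit 9)]⟩,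
 ⟨⟨[(nat_lit 140), (nat_lit 180), (nat_lit 200)], [(nat_lit 0), (nat_lit 0), (nat_lit 2835)], [((nat_lit 0), (nat_lit 0), (nat_lit 0)), ((nat_lit 0), (nat_lit 0), (nat_lit 0)), ((nat_lit 363), (nat_lit 1000), (nat_lit 798))], ((nat_lit 0), (nat_lit 0), (nat_lit 0))⟩, (nat_lit 17884), (nat_lit 300), (nat_lit 663), (nat_lit 5076500), (nat_lit 412348), [(nat_lit 639730000), (nat_lit 913770000), (nat_lit 1066000000)], [], [(nat_lit 4375971182), (nat_lit 4182488164), (nat_lit 4352236672), (nat_lit 4145192194), (nat_lit 3254875870), (nat_lit 3077634714), (nat_lit 3225692159), (nat_lit 3034659885)], (nat_lit 780000), (nat_lit 1100000), (nat_lit 1271251), (nat_lit 1271251), (nat_lit 0), (nat_lit 780000), [(nat_lit 1977501), (nat_lit 1271251), (nat_lit 1271251)], [(nat_lit 32), (nat_lit 67), (nat_lit 373), (nat_lit 150), (nat_lit 8)]⟩⟩))) (.spl (nat_lit 0) (nat_lit 370) (.spl (nat_lit 6) (nat_lit 64) (.leaf ⟨(nat_lit 0), (nat_lit 596), (nat_lit 0), (nat_lit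 404), (nat_lit 0), (nat_lit 4592), (nat_lit 8839), (nat_lit 4601), (nat_lit 0), (nat_lit 0), (nat_lit 0), [], Pd.none, Pd.none, (nat_lit 0), (nat_lit 1), (nat_lit 0), (nat_lit 0), (nat_lit 5), (nat_lit 0), [], [⟨(nat_lit 1), (nat_lit 91), (nat_lit 57), (nat_lit 100), (nat_lit 605859)⟩], [], [⟨(nat_lit 0), (nat_lit 97), (nat_lit 100), (nat_lit 18), (nat_lit 119398947)⟩],
 ⟨⟨[(nat_lit 40), (nat_lit 80), (nat_lit 100)], [(nat_lit 0), (nat_lit 1598), (nat_lit 2533)], [((nat_lit 0), (nat_lit 0), (nat_lit 0)), ((nat_lit 1000), (nat_lit 625), (nat_lit 623)), ((nat_lit 1000), (nat_lit 604), (nat_lit 730))], ((nat_lit 60), (nat_lit 100), (nat_lit 74))⟩, (nat_lit 1457533), (nat_lit 104), (nat_lit 104), (nat_lit 0), (nat_lit 98821), [(nat_lit 2110904574), (nat_lit 4924301938), (nat_lit 6250000000)], [], [(nat_lit 22658854183), (nat_lit 23386728001), (nat_lit 23602846739), (nat_lit 24282533730), (nat_lit 26533315605), (nat_lit 27111317713), (nat_lit 27184785830),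 (nat_lit 27821212573)], (nat_lit 1271251), (nat_lit 1271251), (nat_lit 1100000), (nat_lit 1442501), (nat_lit 1271251), (nat_lit 1271251), [(nat_lit 490000), (nat_lit 1100000), (nat_lit 1442501)], [(nat_lit 3), (nat_lit 50), (nat_lit 260), (nat_lit 50), (nat_lit 8)]⟩,
 ⟨⟨[(nat_lit 80), (nat_lit 120), (nat_lit 160)], [(nat_lit 0), (nat_lit 0), (nat_lit 2132)], [((nat_lit 0), (nat_lit 0), (nat_lit 0)), ((nat_lit 0), (nat_lit 0), (nat_lit 0)), ((nat_lit 858), (nat_lit 1000), (nat_lit 713))], ((nat_lit 100), (nat_lit 83), (nat_lit 75))⟩, (nat_lit 0), (nat_lit 239), (nat_lit 239), (nat_lit 0), (nat_lit 107892), [(nat_lit 4688000000), (nat_lit 7968000000), (nat_lit 11872000000)], [], [(nat_lit 32046001196), (nat_lit 33678443655), (nat_lit 36222409230), (nat_lit 34984088618), (nat_lit 36662836668), (nat_lit 32579908110), (nat_lit 41976448908), (nat_lit 37946291390)], (nat_lit 1271251), (nat_lit 1271251), (nat_lit 1100000), (nat_lit 1442501), (nat_lit 0),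 (nat_lit 780000), [(nat_lit 1100000), (nat_lit 1785001), (nat_lit 1271251)], [(nat_lit 18), (nat_lit 59), (nat_lit 373), (nat_lit 150), (nat_lit 10)]⟩,
 ⟨⟨[(nat_lit 120), (nat_lit 160), (nat_lit 200)], [(nat_lit 0), (nat_lit 0), (nat_lit 3198)], [((nat_lit 0), (nat_lit 0), (nat_lit 0)), ((nat_lit 0), (nat_lit 0), (nat_lit 0)), ((nat_lit 572), (nat_lit 1000), (nat_lit 714))], ((nat_lit 0), (nat_lit 0), (nat_lit 0))⟩, (nat_lit 197073), (nat_lit 300), (nat_lit 506), (nat_lit 29976803), (nat_lit 202230), [(nat_lit 3219072000), (nat_lit 4796288000), (nat_lit 6625600000)], [], [(nat_lit 24806316691), (nat_lit 24699464957), (nat_lit 25088438726), (nat_lit 24926358248), (nat_lit 21073185406), (nat_lit 20927969399), (nat_lit 21062866686), (nat_lit 20909752913)], (nat_lit 1100000), (nat_lit 1271251), (nat_lit 1271251), (nat_lit 1271251), (nat_lit 0), (nat_lit 780000), [(nat_lit 1695001), (nat_lit 1271251), (nat_lit 1271251)], [(nat_lit 29), (nat_lit 66), (nat_lit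 401), (nat_lit 175), (nat_lit 9)]⟩⟩) (.dle (nat_lit 0))) (.trX (nat_lit 4) (nat_lit 0) (nat_lit 2) (nat_lit 53) (nat_lit 90) (nat_lit 100) (nat_lit 290) (.leaf ⟨(nat_lit 698), (nat_lit 96), (nat_lit 0), (nat_lit 206), (nat_lit 48), (nat_lit 4868), (nat_lit 4066), (nat_lit 2300), (nat_lit 0), (nat_lit 0), (nat_lit 174500), [((nat_lit 380), [((nat_lit 25), (nat_lit 0), (nat_lit 698))])], ⟨(nat_lit 6), false, false, false, (nat_lit 211), (nat_lit 2236), (nat_lit 2739), [(nat_lit 1485697), (nat_lit 1488457), (nat_lit 1508094), (nat_lit 1511211), (nat_lit 1544794), (nat_lit 1545508), (nat_lit 1567191), (nat_lit 1568262)]⟩, ⟨(nat_lit 5), false, false, true, (nat_lit 213), (nat_lit 2236), (nat_lit 2739), [(nat_lit 1455164), (nat_lit 1454450), (nat_lit 1477581), (nat_lit 1477224), (nat_lit 1588052), (nat_lit 1582735), (nat_lit 1610469), (nat_lit 1605509)]⟩, (nat_lit 5076244), (nat_lit 40766186), (nat_lit 13037834), (nat_lit 13195980), (nat_lit 5), (nat_lit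 0), [], [⟨(nat_lit 1), (nat_lit 95), (nat_lit 49), (nat_lit 100), (nat_lit 24889594)⟩], [], [⟨(nat_lit 0), (nat_lit 98), (nat_lit 100), (nat_lit 13), (nat_lit 110713638)⟩],
 ⟨⟨[(nat_lit 40), (nat_lit 80), (nat_lit 100)], [(nat_lit 0), (nat_lit 2008), (nat_lit 2969)], [((nat_lit 0), (nat_lit 0), (nat_lit 0)), ((nat_lit 1000), (nat_lit 540), (nat_lit 733)), ((nat_lit 1000), (nat_lit 536), (nat_lit 751))], ((nat_lit 53), (nat_lit 100), (nat_lit 79))⟩, (nat_lit 170906), (nat_lit 117), (nat_lit 117), (nat_lit 0), (nat_lit 141412), [(nat_lit 1834515962), (nat_lit 2950943417), (nat_lit 3365864000)], [(nat_lit 0), (nat_lit 0), (nat_lit 0)], [(nat_lit 23538361946), (nat_lit 24289948718), (nat_lit 24430380300), (nat_lit 25131571451), (nat_lit 26517270062), (nat_lit 27141806546), (nat_lit 27173733591), (nat_lit 27891340071)], (nat_lit 1271251), (nat_lit 1271251), (nat_lit 1100000), (nat_lit 1442501), (nat_lit 1271251), (nat_lit 1271251), [(nat_lit 490000),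 (nat_lit 1100000), (nat_lit 1442501)], [(nat_lit 3), (nat_lit 50), (nat_lit 260), (nat_lit 50), (nat_lit 8)]⟩,
 ⟨⟨[(nat_lit 80), (nat_lit 140), (nat_lit 180)], [(nat_lit 0), (nat_lit 0), (nat_lit 3656)], [((nat_lit 0), (nat_lit 0), (nat_lit 0)), ((nat_lit 0), (nat_lit 0), (nat_lit 0)), ((nat_lit 637), (nat_lit 1000), (nat_lit 908))], ((nat_lit 100), (nat_lit 78), (nat_lit 80))⟩, (nat_lit 429490), (nat_lit 402), (nat_lit 402), (nat_lit 0), (nat_lit 162036), [(nat_lit 1415776000), (nat_lit 2972284000), (nat_lit 4245516000)], [], [(nat_lit 11320123744), (nat_lit 11625533764), (nat_lit 12656442100), (nat_lit 11892552933), (nat_lit 12686563140), (nat_lit 10832993687), (nat_lit 14963601706), (nat_lit 13133658763)], (nat_lit 1271251), (nat_lit 1271251), (nat_lit 1100000), (nat_lit 1442501), (nat_lit 0), (nat_lit 780000), [(nat_lit 1100000), (nat_lit 2127501), (nat_lit 1271251)], [(nat_lit 19), (nat_lit 63), (nat_lit 373), (nat_lit 150), (nat_lit 9)]⟩,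
 ⟨⟨[(nat_lit 120), (nat_lit 160), (nat_lit 200)], [(nat_lit 0), (nat_lit 0), (nat_lit 3198)], [((nat_lit 0), (nat_lit 0), (nat_lit 0)), ((nat_lit 0), (nat_lit 0), (nat_lit 0)), ((nat_lit 572), (nat_lit 1000), (nat_lit 714))], ((nat_lit 0), (nat_lit 0), (nat_lit 0))⟩, (nat_lit 100488), (nat_lit 300), (nat_lit 550), (nat_lit 15285200), (nat_lit 305551), [(nat_lit 1641408000), (nat_lit 2445632000), (nat_lit 3378400000)], [], [(nat_lit 12705409903), (nat_lit 12622702188), (nat_lit 12722069580), (nat_lit 12648310452), (nat_lit 10895444839), (nat_lit 10814920219), (nat_lit 10754895528), (nat_lit 10660068989)], (nat_lit 1100000), (nat_lit 1271251), (nat_lit 1271251), (nat_lit 1271251), (nat_lit 0), (nat_lit 780000), [(nat_lit 1695001), (nat_lit 1271251), (nat_lit 1271251)], [(nat_lit 29), (nat_lit 66), (nat_lit 373), (nat_lit 150), (nat_lit 8)]⟩⟩)))) (.leaf ⟨(nat_lit 0), (nat_lit 842), (nat_lit 0), (nat_lit 158), (nat_lit 13), (nat_lit 7413), (nat_lit 10449),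 (nat_lit 2476), (nat_lit 0), (nat_lit 0), (nat_lit 0), [], Pd.none, Pd.none, (nat_lit 0), (nat_lit 1), (nat_lit 0), (nat_lit 0), (nat_lit 5), (nat_lit 0), [], [⟨(nat_lit 1), (nat_lit 99), (nat_lit 54), (nat_lit 100), (nat_lit 223263880)⟩], [], [⟨(nat_lit 0), (nat_lit 97), (nat_lit 100), (nat_lit 37), (nat_lit 390728187)⟩],
 ⟨⟨[(nat_lit 40), (nat_lit 80), (nat_lit 100)], [(nat_lit 0), (nat_lit 1598), (nat_lit 2533)], [((nat_lit 0), (nat_lit 0), (nat_lit 0)), ((nat_lit 1000), (nat_lit 625), (nat_lit 623)), ((nat_lit 1000), (nat_lit 604), (nat_lit 730))], ((nat_lit 60), (nat_lit 100), (nat_lit 78))⟩, (nat_lit 0), (nat_lit 130), (nat_lit 130), (nat_lit 0), (nat_lit 192895), [(nat_lit 2769251889), (nat_lit 5452649313), (nat_lit 6250000000)], [], [(nat_lit 25515986405), (nat_lit 27314949059), (nat_lit 26443844251), (nat_lit 28101281031), (nat_lit 29574527804), (nat_lit 31341321429), (nat_lit 30255444024), (nat_lit 31883614524)], (nat_lit 1271251), (nat_lit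 1271251), (nat_lit 1271251), (nat_lit 1271251), (nat_lit 1271251), (nat_lit 1271251), [(nat_lit 490000), (nat_lit 1100000), (nat_lit 1442501)], [(nat_lit 3), (nat_lit 50), (nat_lit 203), (nat_lit 0), (nat_lit 6)]⟩,
 ⟨⟨[(nat_lit 80), (nat_lit 140), (nat_lit 180)], [(nat_lit 0), (nat_lit 0), (nat_lit 3656)], [((nat_lit 0), (nat_lit 0), (nat_lit 0)), ((nat_lit 0), (nat_lit 0), (nat_lit 0)), ((nat_lit 637), (nat_lit 1000), (nat_lit 908))], ((nat_lit 100), (nat_lit 78), (nat_lit 80))⟩, (nat_lit 2826575), (nat_lit 421), (nat_lit 421), (nat_lit 0), (nat_lit 233788), [(nat_lit 4688000000), (nat_lit 9842000000), (nat_lit 14058000000)], [], [(nat_lit 34332927746), (nat_lit 35474118618), (nat_lit 35260512256), (nat_lit 36283121469), (nat_lit 27345731669), (nat_lit 28345376394), (nat_lit 28139114314), (nat_lit 29033792148)], (nat_lit 1271251), (nat_lit 1271251), (nat_lit 1271251), (nat_lit 1271251), (nat_lit 0), (nat_lit 780000), [(nat_lit 1100000), (nat_lit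 2127501), (nat_lit 1271251)], [(nat_lit 19), (nat_lit 63), (nat_lit 401), (nat_lit 175), (nat_lit 9)]⟩,
 ⟨⟨[(nat_lit 140), (nat_lit 180), (nat_lit 200)], [(nat_lit 0), (nat_lit 0), (nat_lit 2835)], [((nat_lit 0), (nat_lit 0), (nat_lit 0)), ((nat_lit 0), (nat_lit 0), (nat_lit 0)), ((nat_lit 363), (nat_lit 1000), (nat_lit 798))], ((nat_lit 0), (nat_lit 0), (nat_lit 0))⟩, (nat_lit 43471), (nat_lit 300), (nat_lit 764), (nat_lit 12339800), (nat_lit 647609), [(nat_lit 1555036000), (nat_lit 2221164000), (nat_lit 2591200000)], [], [(nat_lit 10461722120), (nat_lit 9999451947), (nat_lit 10513067776), (nat_lit 9985013790), (nat_lit 8344897756), (nat_lit 7949005321), (nat_lit 8220426976), (nat_lit 7730786474)], (nat_lit 780000), (nat_lit 1271251), (nat_lit 1271251), (nat_lit 1271251), (nat_lit 0), (nat_lit 780000), [(nat_lit 1977501), (nat_lit 1271251), (nat_lit 1271251)], [(nat_lit 32), (nat_lit 67), (nat_lit 401), (nat_lit 175), (nat_lit 9)]⟩⟩))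
noncomputable def c17_78 : Tr Lf :=
 (.trZ (nat_lit 0) (nat_lit 1) (nat_lit 3) (nat_lit 100) (nat_lit 63) (nat_lit 99) (nat_lit 130) (.leaf ⟨(nat_lit 0), (nat_lit 795), (nat_lit 0), (nat_lit 205), (nat_lit 1745), (nat_lit 6123), (nat_lit 10648), (nat_lit 3213), (nat_lit 0), (nat_lit 0), (nat_lit 0), [], Pd.none, Pd.none, (nat_lit 0), (nat_lit 1), (nat_lit 0), (nat_lit 0), (nat_lit 5), (nat_lit 0), [⟨(nat_lit 0), (nat_lit 96), (nat_lit 54), (nat_lit 100), (nat_lit 128607081)⟩], [⟨(nat_lit 1), (nat_lit 99), (nat_lit 54), (nat_lit 100), (nat_lit 388175489)⟩], [], [],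
 ⟨⟨[(nat_lit 40), (nat_lit 80), (nat_lit 100)], [(nat_lit 0), (nat_lit 1598), (nat_lit 2533)], [((nat_lit 0), (nat_lit 0), (nat_lit 0)), ((nat_lit 1000), (nat_lit 625), (nat_lit 623)), ((nat_lit 1000), (nat_lit 604), (nat_lit 730))], ((nat_lit 60), (nat_lit 100), (nat_lit 78))⟩, (nat_lit 610080), (nat_lit 207), (nat_lit 207), (nat_lit 0), (nat_lit 360451), [(nat_lit 2444515291), (nat_lit 4701326998), (nat_lit 6250000000)], [], [(nat_lit 24196619984), (nat_lit 25721037382), (nat_lit 25719303781), (nat_lit 27196370826), (nat_lit 28321581217), (nat_lit 29840304632), (nat_lit 29197270846), (nat_lit 30651401687)], (nat_lit 1271251), (nat_lit 1271251), (nat_lit 857188), (nat_lit 1768126), (nat_lit 1271251), (nat_lit 1271251), [(nat_lit 490000), (nat_lit 1100000), (nat_lit 1442501)], [(nat_lit 3), (nat_lit 50), (nat_lit 272), (nat_lit 60), (nat_lit 9)]⟩,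
 ⟨⟨[(nat_lit 80), (nat_lit 120), (nat_lit 160)], [(nat_lit 0), (nat_lit 528), (nat_lit 2577)], [((nat_lit 0), (nat_lit 0), (nat_lit 0)), ((nat_lit 1000), (nat_lit 959), (nat_lit 206)), ((nat_lit 929), (nat_lit 1000), (nat_lit 742))], ((nat_lit 100), (nat_lit 87), (nat_lit 82))⟩, (nat_lit 2618319), (nat_lit 379), (nat_lit 379), (nat_lit 0), (nat_lit 246628), [(nat_lit 4688000000), (nat_lit 7968000000), (nat_lit 11872000000)], [], [(nat_lit 28046169558), (nat_lit 29973333367), (nat_lit 33556472128), (nat_lit 31656466353), (nat_lit 25082375622), (nat_lit 21851693538), (nat_lit 40448808300), (nat_lit 35657405288)], (nat_lit 1271251), (nat_lit 1271251), (nat_lit 857188), (nat_lit 1768126), (nat_lit 0), (nat_lit 780000), [(nat_lit 1100000), (nat_lit 1785001), (nat_lit 1271251)], [(nat_lit 18), (nat_lit 59), (nat_lit 401), (nat_lit 175), (nat_lit 10)]⟩,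
 ⟨⟨[(nat_lit 140), (nat_lit 180), (nat_lit 200)], [(nat_lit 0), (nat_lit 0), (nat_lit 2835)], [((nat_lit 0), (nat_lit 0), (nat_lit 0)), ((nat_lit 0), (nat_lit 0), (nat_lit 0)), ((nat_lit 363), (nat_lit 1000), (nat_lit 798))], ((nat_lit 0), (nat_lit 0), (nat_lit 0))⟩, (nat_lit 56402), (nat_lit 300), (nat_lit 825), (nat_lit 16010502), (nat_lit 753590), [(nat_lit 2017610000), (nat_lit 2881890000), (nat_lit 3362000000)], [], [(nat_lit 13573881526), (nat_lit 12974037834), (nat_lit 13640497680), (nat_lit 12955233362), (nat_lit 10826300707), (nat_lit 10313685548), (nat_lit 10665387574), (nat_lit 10029971711)], (nat_lit 780000), (nat_lit 1271251), (nat_lit 1271251), (nat_lit 1271251), (nat_lit 0), (nat_lit 780000), [(nat_lit 1977501), (nat_lit 1271251), (nat_lit 1271251)], [(nat_lit 32), (nat_lit 67), (nat_lit 401), (nat_lit 175), (nat_lit 9)]⟩⟩))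
noncomputable def c17_79 : Tr Lf :=
 (.stt (nat_lit 2) (.spl (nat_lit 3) (nat_lit 160) (.leaf ⟨(nat_lit 846), (nat_lit 78), (nat_lit 0), (nat_lit 76), (nat_lit 0), (nat_lit 4195), (nat_lit 1798), (nat_lit 899), (nat_lit 0), (nat_lit 0), (nat_lit 317900), [((nat_lit 380), [((nat_lit 25), (nat_lit 0), (nat_lit 542)), ((nat_lit 41), (nat_lit 2), (nat_lit 304))])], ⟨(nat_lit 6), true, false, false, (nat_lit 188), (nat_lit 2236), (nat_lit 3163), [(nat_lit 1406804), (nat_lit 1416903), (nat_lit 1450987), (nat_lit 1462324), (nat_lit 1483125), (nat_lit 1488302), (nat_lit 1527308), (nat_lit 1533723)]⟩, ⟨(nat_lit 5), false, false, true, (nat_lit 210), (nat_lit 2236), (nat_lit 3163), [(nat_lit 1411379), (nat_lit 1408901), (nat_lit 1477844), (nat_lit 1477224), (nat_lit 1579000), (nat_lit 1565693), (nat_lit 1645465), (nat_lit 1634017)]⟩, (nat_lit 4893505), (nat_lit 42520381), (nat_lit 11192081), (nat_lit 13287538), (nat_lit 5), (nat_lit 0), [⟨(nat_lit 0), (nat_lit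 98), (nat_lit 54), (nat_lit 100), (nat_lit 332507966)⟩], [⟨(nat_lit 1), (nat_lit 99), (nat_lit 54), (nat_lit 100), (nat_lit 237637325)⟩], [], [],
 ⟨⟨[(nat_lit 40), (nat_lit 80), (nat_lit 100)], [(nat_lit 0), (nat_lit 1598), (nat_lit 2533)], [((nat_lit 0), (nat_lit 0), (nat_lit 0)), ((nat_lit 1000), (nat_lit 625), (nat_lit 623)), ((nat_lit 1000), (nat_lit 604), (nat_lit 730))], ((nat_lit 60), (nat_lit 100), (nat_lit 78))⟩, (nat_lit 0), (nat_lit 214), (nat_lit 214), (nat_lit 0), (nat_lit 360703), [(nat_lit 1514726543), (nat_lit 1635756405), (nat_lit 1893278400)], [(nat_lit 0), (nat_lit 0), (nat_lit 0)], [(nat_lit 22162411032), (nat_lit 23478770582), (nat_lit 22414542525), (nat_lit 23629652705), (nat_lit 26066705729), (nat_lit 27529321543), (nat_lit 26031332015), (nat_lit 27374665637)], (nat_lit 1271251), (nat_lit 1271251), (nat_lit 704688), (nat_lit 1100000), (nat_lit 1271251), (nat_lit 1271251), [(nat_lit 490000), (nat_lit 1100000), (nat_lit 1442501)],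 [(nat_lit 3), (nat_lit 50), (nat_lit 249), (nat_lit 40), (nat_lit 8)]⟩,
 ⟨⟨[(nat_lit 80), (nat_lit 140), (nat_lit 180)], [(nat_lit 0), (nat_lit 0), (nat_lit 3656)], [((nat_lit 0), (nat_lit 0), (nat_lit 0)), ((nat_lit 0), (nat_lit 0), (nat_lit 0)), ((nat_lit 637), (nat_lit 1000), (nat_lit 908))], ((nat_lit 100), (nat_lit 78), (nat_lit 80))⟩, (nat_lit 382385), (nat_lit 201), (nat_lit 201), (nat_lit 0), (nat_lit 0), [(nat_lit 721952000), (nat_lit 1515668000), (nat_lit 2164932000)], [], [(nat_lit 3587021359), (nat_lit 4072071699), (nat_lit 3396864916), (nat_lit 3843008226), (nat_lit 5514607465), (nat_lit 5897930394), (nat_lit 5204657960), (nat_lit 5546258716)], (nat_lit 0), (nat_lit 0), (nat_lit 0), (nat_lit 0), (nat_lit 0), (nat_lit 0), [], [(nat_lit 19), (nat_lit 63), (nat_lit 456), (nat_lit 225), (nat_lit 10)]⟩,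
 ⟨⟨[(nat_lit 140), (nat_lit 180), (nat_lit 200)], [(nat_lit 0), (nat_lit 0), (nat_lit 2835)], [((nat_lit 0), (nat_lit 0), (nat_lit 0)), ((nat_lit 0), (nat_lit 0), (nat_lit 0)), ((nat_lit 363), (nat_lit 1000), (nat_lit 798))], ((nat_lit 0), (nat_lit 0), (nat_lit 0))⟩, (nat_lit 20910), (nat_lit 300), (nat_lit 1339), (nat_lit 5935601), (nat_lit 2102387), [(nat_lit 747992000), (nat_lit 1068408000), (nat_lit 1246400000)], [], [(nat_lit 4759597279), (nat_lit 4557042704), (nat_lit 4553196737), (nat_lit 4349421746), (nat_lit 4257626186), (nat_lit 4234304588), (nat_lit 4053020904), (nat_lit 3840419604)], (nat_lit 780000), (nat_lit 1271251), (nat_lit 1271251), (nat_lit 1271251), (nat_lit 780000), (nat_lit 3072501), [(nat_lit 1977501), (nat_lit 1271251), (nat_lit 1271251)], [(nat_lit 32), (nat_lit 67), (nat_lit 456), (nat_lit 225), (nat_lit 10)]⟩⟩) (.leaf ⟨(nat_lit 0), (nat_lit 830), (nat_lit 0), (nat_lit 170), (nat_lit 0), (nat_lit 4926), (nat_lit 5756), (nat_lit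 1897), (nat_lit 0), (nat_lit 0), (nat_lit 0), [], Pd.none, Pd.none, (nat_lit 0), (nat_lit 1), (nat_lit 0), (nat_lit 0), (nat_lit 5), (nat_lit 0), [], [⟨(nat_lit 1), (nat_lit 99), (nat_lit 54), (nat_lit 100), (nat_lit 511618072)⟩], [⟨(nat_lit 1), (nat_lit 55), (nat_lit 99), (nat_lit 100), (nat_lit 334059524)⟩], [],
 ⟨⟨[(nat_lit 40), (nat_lit 80), (nat_lit 100)], [(nat_lit 0), (nat_lit 1598), (nat_lit 2533)], [((nat_lit 0), (nat_lit 0), (nat_lit 0)), ((nat_lit 1000), (nat_lit 625), (nat_lit 623)), ((nat_lit 1000), (nat_lit 604), (nat_lit 730))], ((nat_lit 60), (nat_lit 100), (nat_lit 78))⟩, (nat_lit 1514181), (nat_lit 188), (nat_lit 188), (nat_lit 0), (nat_lit 360703), [(nat_lit 2032102560), (nat_lit 4688000841), (nat_lit 6250000000)], [], [(nat_lit 22363955226), (nat_lit 23819810101), (nat_lit 24190834729), (nat_lit 25735986184), (nat_lit 26658513216), (nat_lit 28152542931), (nat_lit 28214368098), (nat_lit 29508022798)], (nat_lit 1271251), (nat_lit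 1271251), (nat_lit 1100000), (nat_lit 1785001), (nat_lit 1271251), (nat_lit 1271251), [(nat_lit 490000), (nat_lit 1100000), (nat_lit 1442501)], [(nat_lit 3), (nat_lit 50), (nat_lit 272), (nat_lit 60), (nat_lit 9)]⟩,
 ⟨⟨[(nat_lit 80), (nat_lit 140), (nat_lit 180)], [(nat_lit 0), (nat_lit 0), (nat_lit 3656)], [((nat_lit 0), (nat_lit 0), (nat_lit 0)), ((nat_lit 0), (nat_lit 0), (nat_lit 0)), ((nat_lit 637), (nat_lit 1000), (nat_lit 908))], ((nat_lit 100), (nat_lit 78), (nat_lit 80))⟩, (nat_lit 0), (nat_lit 117), (nat_lit 117), (nat_lit 0), (nat_lit 0), [(nat_lit 4688000000), (nat_lit 9842000000), (nat_lit 14058000000)], [], [(nat_lit 10965869936), (nat_lit 14454839092), (nat_lit 15115354800), (nat_lit 18045407372), (nat_lit 27672048480), (nat_lit 29280765288), (nat_lit 29057498112), (nat_lit 30530138440)], (nat_lit 0), (nat_lit 0), (nat_lit 0), (nat_lit 0), (nat_lit 0), (nat_lit 0), [], [(nat_lit 19), (nat_lit 63), (nat_lit 483), (nat_lit 250), (nat_lit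 11)]⟩,
 ⟨⟨[(nat_lit 140), (nat_lit 180), (nat_lit 200)], [(nat_lit 0), (nat_lit 0), (nat_lit 2835)], [((nat_lit 0), (nat_lit 0), (nat_lit 0)), ((nat_lit 0), (nat_lit 0), (nat_lit 0)), ((nat_lit 363), (nat_lit 1000), (nat_lit 798))], ((nat_lit 0), (nat_lit 0), (nat_lit 0))⟩, (nat_lit 46773), (nat_lit 300), (nat_lit 1339), (nat_lit 13277000), (nat_lit 2102387), [(nat_lit 1673140000), (nat_lit 2389860000), (nat_lit 2788000000)], [], [(nat_lit 11329806143), (nat_lit 10903662381), (nat_lit 10765234364), (nat_lit 10336074777), (nat_lit 9951690360), (nat_lit 9511775708), (nat_lit 9431809615), (nat_lit 8985174476)], (nat_lit 780000), (nat_lit 1271251), (nat_lit 1271251), (nat_lit 1271251), (nat_lit 780000), (nat_lit 3072501), [(nat_lit 1977501), (nat_lit 1271251), (nat_lit 1271251)], [(nat_lit 32), (nat_lit 67), (nat_lit 456), (nat_lit 225), (nat_lit 10)]⟩⟩)) (.leaf ⟨(nat_lit 840), (nat_lit 0), (nat_lit 0), (nat_lit 160), (nat_lit 0), (nat_lit 3761), (nat_lit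 1470), (nat_lit 1874), (nat_lit 0), (nat_lit 0), (nat_lit 410800), [((nat_lit 380), [((nat_lit 25), (nat_lit 1), (nat_lit 466)), ((nat_lit 41), (nat_lit 2), (nat_lit 374))])], ⟨(nat_lit 6), false, false, false, (nat_lit 212), (nat_lit 2236), (nat_lit 3163), [(nat_lit 1406804), (nat_lit 1416903), (nat_lit 1450987), (nat_lit 1462324), (nat_lit 1605240), (nat_lit 1602541), (nat_lit 1649422), (nat_lit 1647962)]⟩, ⟨(nat_lit 5), false, false, true, (nat_lit 210), (nat_lit 2236), (nat_lit 3163), [(nat_lit 1411379), (nat_lit 1408901), (nat_lit 1477844), (nat_lit 1477224), (nat_lit 1579000), (nat_lit 1565693), (nat_lit 1645465), (nat_lit 1634017)]⟩, (nat_lit 5066689), (nat_lit 40866206), (nat_lit 13172332), (nat_lit 12961462), (nat_lit 0), (nat_lit 0), [⟨(nat_lit 0), (nat_lit 98), (nat_lit 54), (nat_lit 100), (nat_lit 109225962)⟩], [⟨(nat_lit 1), (nat_lit 99), (nat_lit 54), (nat_lit 100), (nat_lit 125670248)⟩], [], [],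
 ⟨⟨[(nat_lit 40), (nat_lit 80), (nat_lit 100)], [(nat_lit 0), (nat_lit 1598), (nat_lit 2533)], [((nat_lit 0), (nat_lit 0), (nat_lit 0)), ((nat_lit 1000), (nat_lit 625), (nat_lit 623)), ((nat_lit 1000), (nat_lit 604), (nat_lit 730))], ((nat_lit 60), (nat_lit 100), (nat_lit 78))⟩, (nat_lit 3444), (nat_lit 160), (nat_lit 160), (nat_lit 0), (nat_lit 224517), [(nat_lit 1415984067), (nat_lit 1174710469), (nat_lit 1159297600)], [(nat_lit 0), (nat_lit 0), (nat_lit 0)], [(nat_lit 21716722117), (nat_lit 22841159800), (nat_lit 23668087195), (nat_lit 24820023574), (nat_lit 25563032780), (nat_lit 26946981848), (nat_lit 27258254928), (nat_lit 28395210429)], (nat_lit 1271251), (nat_lit 1271251), (nat_lit 704688), (nat_lit 1756876), (nat_lit 1271251), (nat_lit 1271251), [(nat_lit 490000), (nat_lit 1100000), (nat_lit 1442501)], [(nat_lit 3), (nat_lit 50), (nat_lit 272), (nat_lit 60), (nat_lit 9)]⟩,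
 ⟨⟨[(nat_lit 80), (nat_lit 140), (nat_lit 180)], [(nat_lit 0), (nat_lit 0), (nat_lit 3656)], [((nat_lit 0), (nat_lit 0), (nat_lit 0)), ((nat_lit 0), (nat_lit 0), (nat_lit 0)), ((nat_lit 637), (nat_lit 1000), (nat_lit 908))], ((nat_lit 100), (nat_lit 78), (nat_lit 80))⟩, (nat_lit 369267), (nat_lit 417), (nat_lit 417), (nat_lit 0), (nat_lit 368621), [(nat_lit 750080000), (nat_lit 1574720000), (nat_lit 2249280000)], [], [(nat_lit 5869551530), (nat_lit 5225741236), (nat_lit 6099262140), (nat_lit 5140348390), (nat_lit 9083588840), (nat_lit 7773340355), (nat_lit 11711524680), (nat_lit 10453610400)], (nat_lit 1271251), (nat_lit 1271251), (nat_lit 704688), (nat_lit 1756876), (nat_lit 780000), (nat_lit 3072501), [(nat_lit 1100000), (nat_lit 2127501), (nat_lit 1271251)], [(nat_lit 19), (nat_lit 63), (nat_lit 483), (nat_lit 250), (nat_lit 11)]⟩,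
 ⟨⟨[(nat_lit 140), (nat_lit 180), (nat_lit 200)], [(nat_lit 0), (nat_lit 0), (nat_lit 2835)], [((nat_lit 0), (nat_lit 0), (nat_lit 0)), ((nat_lit 0), (nat_lit 0), (nat_lit 0)), ((nat_lit 363), (nat_lit 1000), (nat_lit 798))], ((nat_lit 0), (nat_lit 0), (nat_lit 0))⟩, (nat_lit 44021), (nat_lit 300), (nat_lit 713), (nat_lit 12496003), (nat_lit 753590), [(nat_lit 1574720000), (nat_lit 2249280000), (nat_lit 2624000000)], [], [(nat_lit 9759843672), (nat_lit 9372289114), (nat_lit 9487159015), (nat_lit 9090338009), (nat_lit 9015151796), (nat_lit 8886883592), (nat_lit 8591197717), (nat_lit 8149213221)], (nat_lit 780000), (nat_lit 1271251), (nat_lit 1271251), (nat_lit 1271251), (nat_lit 780000), (nat_lit 3072501), [(nat_lit 1977501), (nat_lit 1271251), (nat_lit 1271251)], [(nat_lit 32), (nat_lit 67), (nat_lit 456), (nat_lit 225), (nat_lit 10)]⟩⟩))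
noncomputable def c17_80 : Tr Lf :=
 (.trZ (nat_lit 0) (nat_lit 1) (nat_lit 3) (nat_lit 94) (nat_lit 62) (nat_lit 100) (nat_lit 150) (.trX (nat_lit 5) (nat_lit 1) (nat_lit 2) (nat_lit 92) (nat_lit 49) (nat_lit 100) (nat_lit 380) (.spl (nat_lit 5) (nat_lit 200) (.leaf ⟨(nat_lit 0), (nat_lit 876), (nat_lit 0), (nat_lit 124), (nat_lit 0), (nat_lit 4963), (nat_lit 10362), (nat_lit 1501), (nat_lit 0), (nat_lit 0), (nat_lit 0), [], Pd.none, Pd.none, (nat_lit 0), (nat_lit 1), (nat_lit 0), (nat_lit 0), (nat_lit 5), (nat_lit 0), [⟨(nat_lit 0), (nat_lit 87), (nat_lit 53), (nat_lit 100), (nat_lit 475129815)⟩], [⟨(nat_lit 1), (nat_lit 99), (nat_lit 54), (nat_lit 100), (nat_lit 474791901)⟩], [], [],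
 ⟨⟨[(nat_lit 40), (nat_lit 80), (nat_lit 100)], [(nat_lit 0), (nat_lit 1598), (nat_lit 2533)], [((nat_lit 0), (nat_lit 0), (nat_lit 0)), ((nat_lit 1000), (nat_lit 625), (nat_lit 623)), ((nat_lit 1000), (nat_lit 604), (nat_lit 730))], ((nat_lit 60), (nat_lit 100), (nat_lit 78))⟩, (nat_lit 1253580), (nat_lit 248), (nat_lit 248), (nat_lit 0), (nat_lit 516903), [(nat_lit 2032000024), (nat_lit 4688000058), (nat_lit 6250000000)], [], [(nat_lit 23525123681), (nat_lit 24665388155), (nat_lit 25031451558), (nat_lit 26142269066), (nat_lit 26933677665), (nat_lit 28265496778), (nat_lit 28244733924), (nat_lit 29543365337)], (nat_lit 1271251), (nat_lit 1271251), (nat_lit 1017188), (nat_lit 1779376), (nat_lit 1271251), (nat_lit 1271251), [(nat_lit 490000), (nat_lit 1100000), (nat_lit 1442501)], [(nat_lit 3), (nat_lit 50), (nat_lit 272), (nat_lit 60), (nat_lit 9)]⟩,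
 ⟨⟨[(nat_lit 60), (nat_lit 120), (nat_lit 160)], [(nat_lit 0), (nat_lit 0), (nat_lit 3243)], [((nat_lit 0), (nat_lit 0), (nat_lit 0)), ((nat_lit 0), (nat_lit 0), (nat_lit 0)), ((nat_lit 878), (nat_lit 1000), (nat_lit 945))], ((nat_lit 100), (nat_lit 96), (nat_lit 86))⟩, (nat_lit 2221417), (nat_lit 435), (nat_lit 435), (nat_lit 0), (nat_lit 405329), [(nat_lit 3282000000), (nat_lit 7968000000), (nat_lit 11872000000)], [], [(nat_lit 30947655062), (nat_lit 32597695806), (nat_lit 31425622940), (nat_lit 34032437685), (nat_lit 24004733583), (nat_lit 25591259057), (nat_lit 33633669378), (nat_lit 25612463304)], (nat_lit 1271251), (nat_lit 1271251), (nat_lit 1017188), (nat_lit 1779376), (nat_lit 0), (nat_lit 1412501), [(nat_lit 780000), (nat_lit 1762501), (nat_lit 1271251)], [(nat_lit 12), (nat_lit 59), (nat_lit 428), (nat_lit 200), (nat_lit 11)]⟩,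
 ⟨⟨[(nat_lit 140), (nat_lit 180), (nat_lit 200)], [(nat_lit 0), (nat_lit 0), (nat_lit 2835)], [((nat_lit 0), (nat_lit 0), (nat_lit 0)), ((nat_lit 0), (nat_lit 0), (nat_lit 0)), ((nat_lit 363), (nat_lit 1000), (nat_lit 798))], ((nat_lit 0), (nat_lit 0), (nat_lit 0))⟩, (nat_lit 34116), (nat_lit 300), (nat_lit 1908), (nat_lit 9684406), (nat_lit 3135015), [(nat_lit 1220408000), (nat_lit 1743192000), (nat_lit 2033600000)], [], [(nat_lit 8788556814), (nat_lit 8441783338), (nat_lit 8483818841), (nat_lit 8144489660), (nat_lit 7185525358), (nat_lit 7459934444), (nat_lit 6831156020), (nat_lit 6489493740)], (nat_lit 780000), (nat_lit 1271251), (nat_lit 1271251), (nat_lit 1271251), (nat_lit 0), (nat_lit 1412501), [(nat_lit 1977501), (nat_lit 1271251), (nat_lit 1271251)], [(nat_lit 32), (nat_lit 67), (nat_lit 564), (nat_lit 175), (nat_lit 12)]⟩⟩) (.spl (nat_lit 0) (nat_lit 370) (.spl (nat_lit 0) (nat_lit 365) (.leaf ⟨(nat_lit 0), (nat_lit 832), (nat_lit 0), (nat_lit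 168), (nat_lit 0), (nat_lit 7522), (nat_lit 9271), (nat_lit 1893), (nat_lit 0), (nat_lit 0), (nat_lit 0), [], Pd.none, Pd.none, (nat_lit 0), (nat_lit 1), (nat_lit 0), (nat_lit 0), (nat_lit 5), (nat_lit 0), [⟨(nat_lit 0), (nat_lit 87), (nat_lit 59), (nat_lit 100), (nat_lit 630058080)⟩], [⟨(nat_lit 1), (nat_lit 96), (nat_lit 60), (nat_lit 100), (nat_lit 472463695)⟩], [⟨(nat_lit 1), (nat_lit 72), (nat_lit 89), (nat_lit 100), (nat_lit 320610969)⟩], [],
 ⟨⟨[(nat_lit 40), (nat_lit 80), (nat_lit 100)], [(nat_lit 0), (nat_lit 1598), (nat_lit 2533)], [((nat_lit 0), (nat_lit 0), (nat_lit 0)), ((nat_lit 1000), (nat_lit 625), (nat_lit 623)), ((nat_lit 1000), (nat_lit 604), (nat_lit 730))], ((nat_lit 60), (nat_lit 100), (nat_lit 78))⟩, (nat_lit 0), (nat_lit 222), (nat_lit 222), (nat_lit 0), (nat_lit 449337), [(nat_lit 2645081077), (nat_lit 4806462319), (nat_lit 6250000000)], [], [(nat_lit 24599862228), (nat_lit 25097237405), (nat_lit 26374490494), (nat_lit 26792659825),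 (nat_lit 29178575073), (nat_lit 29666124781), (nat_lit 30344900106), (nat_lit 30755608013)], (nat_lit 1271251), (nat_lit 1271251), (nat_lit 1017188), (nat_lit 1779376), (nat_lit 1271251), (nat_lit 1271251), [(nat_lit 490000), (nat_lit 1100000), (nat_lit 1442501)], [(nat_lit 3), (nat_lit 50), (nat_lit 272), (nat_lit 60), (nat_lit 9)]⟩,
 ⟨⟨[(nat_lit 60), (nat_lit 120), (nat_lit 160)], [(nat_lit 0), (nat_lit 0), (nat_lit 3243)], [((nat_lit 0), (nat_lit 0), (nat_lit 0)), ((nat_lit 0), (nat_lit 0), (nat_lit 0)), ((nat_lit 878), (nat_lit 1000), (nat_lit 945))], ((nat_lit 100), (nat_lit 96), (nat_lit 86))⟩, (nat_lit 1977814), (nat_lit 262), (nat_lit 262), (nat_lit 0), (nat_lit 333611), [(nat_lit 3282000000), (nat_lit 7968000000), (nat_lit 11872000000)], [], [(nat_lit 25210907754), (nat_lit 26966686538), (nat_lit 25830729858), (nat_lit 27227671748), (nat_lit 31962130442), (nat_lit 33736749627), (nat_lit 32088078413), (nat_lit 34181817984)], (nat_lit 1271251),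 (nat_lit 1271251), (nat_lit 1017188), (nat_lit 1779376), (nat_lit 1271251), (nat_lit 1271251), [(nat_lit 780000), (nat_lit 1762501), (nat_lit 1271251)], [(nat_lit 12), (nat_lit 59), (nat_lit 483), (nat_lit 250), (nat_lit 12)]⟩,
 ⟨⟨[(nat_lit 140), (nat_lit 180), (nat_lit 200)], [(nat_lit 0), (nat_lit 0), (nat_lit 2835)], [((nat_lit 0), (nat_lit 0), (nat_lit 0)), ((nat_lit 0), (nat_lit 0), (nat_lit 0)), ((nat_lit 363), (nat_lit 1000), (nat_lit 798))], ((nat_lit 0), (nat_lit 0), (nat_lit 0))⟩, (nat_lit 46222), (nat_lit 300), (nat_lit 1513), (nat_lit 13120804), (nat_lit 2560871), [(nat_lit 1653456000), (nat_lit 2361744000), (nat_lit 2755200000)], [], [(nat_lit 10493642781), (nat_lit 10074564335), (nat_lit 9938910604), (nat_lit 9509736687), (nat_lit 9773755642), (nat_lit 9337679871), (nat_lit 9263646364), (nat_lit 8820258624)], (nat_lit 780000), (nat_lit 1271251), (nat_lit 1271251), (nat_lit 1271251), (nat_lit 1271251), (nat_lit 1271251), [(nat_lit 1977501),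 (nat_lit 1271251), (nat_lit 1271251)], [(nat_lit 32), (nat_lit 67), (nat_lit 487), (nat_lit 225), (nat_lit 10)]⟩⟩) (.trZ (nat_lit 0) (nat_lit 1) (nat_lit 3) (nat_lit 93) (nat_lit 58) (nat_lit 100) (nat_lit 160) (.trX (nat_lit 4) (nat_lit 0) (nat_lit 2) (nat_lit 57) (nat_lit 88) (nat_lit 100) (nat_lit 300) (.leaf ⟨(nat_lit 0), (nat_lit 840), (nat_lit 0), (nat_lit 160), (nat_lit 0), (nat_lit 5944), (nat_lit 9285), (nat_lit 1802), (nat_lit 0), (nat_lit 0), (nat_lit 0), [], Pd.none, Pd.none, (nat_lit 0), (nat_lit 1), (nat_lit 0), (nat_lit 0), (nat_lit 5), (nat_lit 0), [⟨(nat_lit 0), (nat_lit 87), (nat_lit 55), (nat_lit 100), (nat_lit 609473727)⟩], [⟨(nat_lit 1), (nat_lit 98), (nat_lit 56), (nat_lit 100), (nat_lit 453186083)⟩], [⟨(nat_lit 1), (nat_lit 72), (nat_lit 89), (nat_lit 100), (nat_lit 325815848)⟩], [],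
 ⟨⟨[(nat_lit 40), (nat_lit 80), (nat_lit 100)], [(nat_lit 0), (nat_lit 1799), (nat_lit 2724)], [((nat_lit 0), (nat_lit 0), (nat_lit 0)), ((nat_lit 1000), (nat_lit 580), (nat_lit 696)), ((nat_lit 1000), (nat_lit 574), (nat_lit 723))], ((nat_lit 57), (nat_lit 100), (nat_lit 79))⟩, (nat_lit 780122), (nat_lit 226), (nat_lit 226), (nat_lit 0), (nat_lit 471147), [(nat_lit 2270817705), (nat_lit 4733575811), (nat_lit 6250000000)], [], [(nat_lit 23812911433), (nat_lit 24224990302), (nat_lit 25616486709), (nat_lit 25979496458), (nat_lit 27439514862), (nat_lit 27866795423), (nat_lit 28943946321), (nat_lit 29311236565)], (nat_lit 1271251), (nat_lit 1271251), (nat_lit 1100000), (nat_lit 1785001), (nat_lit 1271251), (nat_lit 1271251), [(nat_lit 490000), (nat_lit 1100000), (nat_lit 1442501)], [(nat_lit 3), (nat_lit 50), (nat_lit 272), (nat_lit 60), (nat_lit 9)]⟩,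
 ⟨⟨[(nat_lit 60), (nat_lit 120), (nat_lit 160)], [(nat_lit 0), (nat_lit 0), (nat_lit 3243)], [((nat_lit 0), (nat_lit 0), (nat_lit 0)), ((nat_lit 0), (nat_lit 0), (nat_lit 0)), ((nat_lit 878), (nat_lit 1000), (nat_lit 945))], ((nat_lit 100), (nat_lit 96), (nat_lit 86))⟩, (nat_lit 1966610), (nat_lit 266), (nat_lit 266), (nat_lit 0), (nat_lit 356959), [(nat_lit 3282000000), (nat_lit 7968000000), (nat_lit 11872000000)], [], [(nat_lit 25040938245), (nat_lit 26765871380), (nat_lit 25840386870), (nat_lit 27238037020), (nat_lit 31683380550), (nat_lit 33429619525), (nat_lit 32100329855), (nat_lit 34195564640)], (nat_lit 1271251), (nat_lit 1271251), (nat_lit 1100000), (nat_lit 1785001), (nat_lit 1271251), (nat_lit 1271251), [(nat_lit 780000), (nat_lit 1762501), (nat_lit 1271251)], [(nat_lit 12), (nat_lit 59), (nat_lit 483), (nat_lit 250), (nat_lit 12)]⟩,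
 ⟨⟨[(nat_lit 140), (nat_lit 180), (nat_lit 200)], [(nat_lit 0), (nat_lit 0), (nat_lit 2835)], [((nat_lit 0), (nat_lit 0), (nat_lit 0)), ((nat_lit 0), (nat_lit 0), (nat_lit 0)), ((nat_lit 363), (nat_lit 1000), (nat_lit 798))], ((nat_lit 0), (nat_lit 0), (nat_lit 0))⟩, (nat_lit 44021), (nat_lit 300), (nat_lit 1607), (nat_lit 12496003), (nat_lit 2749957), [(nat_lit 1574720000), (nat_lit 2249280000), (nat_lit 2624000000)], [], [(nat_lit 10013542048), (nat_lit 9623954272), (nat_lit 9509425636), (nat_lit 9101657935), (nat_lit 9312230523), (nat_lit 8897170853), (nat_lit 8863549362), (nat_lit 8442400828)], (nat_lit 780000), (nat_lit 1271251), (nat_lit 1271251), (nat_lit 1271251), (nat_lit 1271251), (nat_lit 1271251), [(nat_lit 1977501), (nat_lit 1271251), (nat_lit 1271251)], [(nat_lit 32), (nat_lit 67), (nat_lit 510), (nat_lit 225), (nat_lit 10)]⟩⟩)))) (.trZ (nat_lit 0) (nat_lit 1) (nat_lit 3) (nat_lit 93) (nat_lit 53) (nat_lit 100) (nat_lit 170) (.trX (nat_lit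 4) (nat_lit 0) (nat_lit 2) (nat_lit 53) (nat_lit 90) (nat_lit 100) (nat_lit 290) (.leaf ⟨(nat_lit 0), (nat_lit 844), (nat_lit 0), (nat_lit 156), (nat_lit 0), (nat_lit 4756), (nat_lit 8895), (nat_lit 1761), (nat_lit 0), (nat_lit 0), (nat_lit 0), [], Pd.none, Pd.none, (nat_lit 0), (nat_lit 1), (nat_lit 0), (nat_lit 0), (nat_lit 5), (nat_lit 0), [⟨(nat_lit 0), (nat_lit 87), (nat_lit 48), (nat_lit 100), (nat_lit 822884501)⟩], [⟨(nat_lit 1), (nat_lit 100), (nat_lit 50), (nat_lit 100), (nat_lit 502957756)⟩], [⟨(nat_lit 1), (nat_lit 72), (nat_lit 89), (nat_lit 100), (nat_lit 293908961)⟩], [],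
 ⟨⟨[(nat_lit 40), (nat_lit 80), (nat_lit 100)], [(nat_lit 0), (nat_lit 2008), (nat_lit 2969)], [((nat_lit 0), (nat_lit 0), (nat_lit 0)), ((nat_lit 1000), (nat_lit 540), (nat_lit 733)), ((nat_lit 1000), (nat_lit 536), (nat_lit 751))], ((nat_lit 53), (nat_lit 100), (nat_lit 79))⟩, (nat_lit 1285779), (nat_lit 241), (nat_lit 241), (nat_lit 0), (nat_lit 513513), [(nat_lit 2032000401), (nat_lit 4688000167), (nat_lit 6250000000)], [], [(nat_lit 23667216476), (nat_lit 24209184557), (nat_lit 24959909288), (nat_lit 25602874815), (nat_lit 26460950679), (nat_lit 27219559100), (nat_lit 27872186821), (nat_lit 28539871632)], (nat_lit 1271251), (nat_lit 1271251), (nat_lit 1184688), (nat_lit 1790626), (nat_lit 1271251), (nat_lit 1271251), [(nat_lit 490000), (nat_lit 1100000), (nat_lit 1442501)], [(nat_lit 3), (nat_lit 50), (nat_lit 272), (nat_lit 60), (nat_lit 9)]⟩,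
 ⟨⟨[(nat_lit 60), (nat_lit 120), (nat_lit 160)], [(nat_lit 0), (nat_lit 0), (nat_lit 3243)], [((nat_lit 0), (nat_lit 0), (nat_lit 0)), ((nat_lit 0), (nat_lit 0), (nat_lit 0)), ((nat_lit 878), (nat_lit 1000), (nat_lit 945))], ((nat_lit 100), (nat_lit 96), (nat_lit 86))⟩, (nat_lit 1800846), (nat_lit 281), (nat_lit 281), (nat_lit 0), (nat_lit 404789), [(nat_lit 3282000000), (nat_lit 7968000000), (nat_lit 11872000000)], [], [(nat_lit 26389158232), (nat_lit 28043342727), (nat_lit 27121120122), (nat_lit 28499040172), (nat_lit 32326144841), (nat_lit 33584799272), (nat_lit 32403506850), (nat_lit 33812622080)], (nat_lit 1271251), (nat_lit 1271251), (nat_lit 1184688), (nat_lit 1790626), (nat_lit 1271251), (nat_lit 1271251), [(nat_lit 780000), (nat_lit 1762501), (nat_lit 1271251)], [(nat_lit 12), (nat_lit 59), (nat_lit 483), (nat_lit 250), (nat_lit 12)]⟩,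
 ⟨⟨[(nat_lit 140), (nat_lit 180), (nat_lit 200)], [(nat_lit 0), (nat_lit 0), (nat_lit 2835)], [((nat_lit 0), (nat_lit 0), (nat_lit 0)), ((nat_lit 0), (nat_lit 0), (nat_lit 0)), ((nat_lit 363), (nat_lit 1000), (nat_lit 798))], ((nat_lit 0), (nat_lit 0), (nat_lit 0))⟩, (nat_lit 42921), (nat_lit 300), (nat_lit 1791), (nat_lit 12183600), (nat_lit 3135015), [(nat_lit 1535352000), (nat_lit 2193048000), (nat_lit 2558400000)], [], [(nat_lit 9719903577), (nat_lit 9346236053), (nat_lit 9284524197), (nat_lit 8886513313), (nat_lit 9061030526), (nat_lit 8655163319), (nat_lit 8658104304), (nat_lit 8247148079)], (nat_lit 780000), (nat_lit 1271251), (nat_lit 1271251), (nat_lit 1271251), (nat_lit 1271251), (nat_lit 1271251), [(nat_lit 1977501), (nat_lit 1271251), (nat_lit 1271251)], [(nat_lit 32), (nat_lit 67), (nat_lit 554), (nat_lit 225), (nat_lit 11)]⟩⟩)))))))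
noncomputable def c17_81 : Tr Lf :=
 (.spl (nat_lit 1) (nat_lit 260) (.spl (nat_lit 0) (nat_lit 370) (.spl (nat_lit 6) (nat_lit 60) (.leaf ⟨(nat_lit 415), (nat_lit 422), (nat_lit 0), (nat_lit 163), (nat_lit 1933), (nat_lit 3823), (nat_lit 4189), (nat_lit 2396), (nat_lit 0), (nat_lit 0), (nat_lit 550000), [((nat_lit 370), [((nat_lit 25), (nat_lit 2), (nat_lit 370)), ((nat_lit 41), (nat_lit 5), (nat_lit 45))])], ⟨(nat_lit 6), false, false, false, (nat_lit 207), (nat_lit 2738), (nat_lit 3163), [(nat_lit 1407099), (nat_lit 1411881), (nat_lit 1429241), (nat_lit 1434286), (nat_lit 1605257), (nat_lit 1603890), (nat_lit 1627400), (nat_lit 1626295)]⟩, ⟨(nat_lit 4), false, false, false, (nat_lit 188), (nat_lit 2738), (nat_lit 3163), [(nat_lit 1355914), (nat_lit 1359435), (nat_lit 1400199), (nat_lit 1404246), (nat_lit 1538797), (nat_lit 1536642), (nat_lit 1583107), (nat_lit 1581477)]⟩, (nat_lit 4870284), (nat_lit 42758064), (nat_lit 13058259), (nat_lit 11183677),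 (nat_lit 4), (nat_lit 0), [⟨(nat_lit 0), (nat_lit 100), (nat_lit 58), (nat_lit 97), (nat_lit 201842892)⟩], [], [], [],
 ⟨⟨[(nat_lit 40), (nat_lit 80), (nat_lit 100)], [(nat_lit 0), (nat_lit 1598), (nat_lit 2533)], [((nat_lit 0), (nat_lit 0), (nat_lit 0)), ((nat_lit 1000), (nat_lit 625), (nat_lit 623)), ((nat_lit 1000), (nat_lit 604), (nat_lit 730))], ((nat_lit 61), (nat_lit 100), (nat_lit 72))⟩, (nat_lit 0), (nat_lit 126), (nat_lit 126), (nat_lit 0), (nat_lit 130036), [(nat_lit 1669880035), (nat_lit 1436776107), (nat_lit 964044000)], [(nat_lit 0), (nat_lit 0), (nat_lit 0)], [(nat_lit 19818351252), (nat_lit 20607627154), (nat_lit 22381292570), (nat_lit 23020821389), (nat_lit 22321119022), (nat_lit 22979551412), (nat_lit 24471875020), (nat_lit 25140252283)], (nat_lit 1271251), (nat_lit 1271251), (nat_lit 704688), (nat_lit 1756876), (nat_lit 780000), (nat_lit 1762501), [(nat_lit 490000), (nat_lit 1100000), (nat_lit 1442501)], [(nat_lit 3), (nat_lit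 50), (nat_lit 345), (nat_lit 125), (nat_lit 12)]⟩,
 ⟨⟨[(nat_lit 80), (nat_lit 120), (nat_lit 160)], [(nat_lit 0), (nat_lit 0), (nat_lit 2132)], [((nat_lit 0), (nat_lit 0), (nat_lit 0)), ((nat_lit 0), (nat_lit 0), (nat_lit 0)), ((nat_lit 858), (nat_lit 1000), (nat_lit 713))], ((nat_lit 100), (nat_lit 85), (nat_lit 73))⟩, (nat_lit 0), (nat_lit 373), (nat_lit 373), (nat_lit 0), (nat_lit 217511), [(nat_lit 2742480000), (nat_lit 4661280000), (nat_lit 6945120000)], [], [(nat_lit 22190792410), (nat_lit 22728213870), (nat_lit 23829496456), (nat_lit 23391656096), (nat_lit 20048036285), (nat_lit 20522517049), (nat_lit 27063055012), (nat_lit 25178082509)], (nat_lit 1271251), (nat_lit 1271251), (nat_lit 704688), (nat_lit 1756876), (nat_lit 0), (nat_lit 780000), [(nat_lit 1100000), (nat_lit 1785001), (nat_lit 1271251)], [(nat_lit 18), (nat_lit 59), (nat_lit 401), (nat_lit 175), (nat_lit 10)]⟩,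
 ⟨⟨[(nat_lit 120), (nat_lit 160), (nat_lit 180)], [(nat_lit 0), (nat_lit 533), (nat_lit 2066)], [((nat_lit 0), (nat_lit 0), (nat_lit 0)), ((nat_lit 960), (nat_lit 1000), (nat_lit 200)), ((nat_lit 615), (nat_lit 1000), (nat_lit 729))], ((nat_lit 100), (nat_lit 63), (nat_lit 72))⟩, (nat_lit 78033), (nat_lit 300), (nat_lit 591), (nat_lit 11834655), (nat_lit 406782), [(nat_lit 1298784000), (nat_lit 1935136000), (nat_lit 2291454000)], [], [(nat_lit 9019890097), (nat_lit 8804702573), (nat_lit 8211293073), (nat_lit 8125242022), (nat_lit 7038764538), (nat_lit 6880858696), (nat_lit 9058879186), (nat_lit 6784890694)], (nat_lit 1271251), (nat_lit 1271251), (nat_lit 780000), (nat_lit 1762501), (nat_lit 0), (nat_lit 780000), [(nat_lit 1695001), (nat_lit 1271251), (nat_lit 1271251)], [(nat_lit 28), (nat_lit 65), (nat_lit 373), (nat_lit 150), (nat_lit 9)]⟩⟩) (.dle (nat_lit 0))) (.trZ (nat_lit 0) (nat_lit 1) (nat_lit 3) (nat_lit 100) (nat_lit 54) (nat_lit 96) (nat_lit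 130) (.spl (nat_lit 6) (nat_lit 60) (.leaf ⟨(nat_lit 686), (nat_lit 197), (nat_lit 0), (nat_lit 117), (nat_lit 0), (nat_lit 3683), (nat_lit 2293), (nat_lit 1214), (nat_lit 0), (nat_lit 0), (nat_lit 171500), [((nat_lit 380), [((nat_lit 25), (nat_lit 0), (nat_lit 686))])], ⟨(nat_lit 6), false, false, false, (nat_lit 214), (nat_lit 2236), (nat_lit 2739), [(nat_lit 1441375), (nat_lit 1445669), (nat_lit 1463772), (nat_lit 1468423), (nat_lit 1603890), (nat_lit 1602558), (nat_lit 1626287), (nat_lit 1625312)]⟩, ⟨(nat_lit 4), false, false, false, (nat_lit 188), (nat_lit 2236), (nat_lit 2739), [(nat_lit 1359410), (nat_lit 1363145), (nat_lit 1404204), (nat_lit 1408652), (nat_lit 1536642), (nat_lit 1534240), (nat_lit 1581477), (nat_lit 1579788)]⟩, (nat_lit 4919660), (nat_lit 42234520), (nat_lit 13627538), (nat_lit 11137942), (nat_lit 4), (nat_lit 0), [⟨(nat_lit 0), (nat_lit 96), (nat_lit 44), (nat_lit 100), (nat_lit 43272282)⟩], [], [], [],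
 ⟨⟨[(nat_lit 40), (nat_lit 60), (nat_lit 80)], [(nat_lit 0), (nat_lit 1134), (nat_lit 1930)], [((nat_lit 0), (nat_lit 0), (nat_lit 0)), ((nat_lit 1000), (nat_lit 575), (nat_lit 619)), ((nat_lit 1000), (nat_lit 574), (nat_lit 622))], ((nat_lit 54), (nat_lit 100), (nat_lit 73))⟩, (nat_lit 502281), (nat_lit 120), (nat_lit 120), (nat_lit 0), (nat_lit 192756), [(nat_lit 1612780012), (nat_lit 2171115817), (nat_lit 2648933600)], [(nat_lit 0), (nat_lit 0), (nat_lit 0)], [(nat_lit 20560985574), (nat_lit 21331267951), (nat_lit 23020906516), (nat_lit 23687202290), (nat_lit 23088518519), (nat_lit 23720202556), (nat_lit 25044699343), (nat_lit 25701067266)], (nat_lit 1271251), (nat_lit 1271251), (nat_lit 857188), (nat_lit 1768126), (nat_lit 780000), (nat_lit 1762501), [(nat_lit 490000), (nat_lit 780000), (nat_lit 1100000)], [(nat_lit 2), (nat_lit 44), (nat_lit 345), (nat_lit 125), (nat_lit 15)]⟩,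
 ⟨⟨[(nat_lit 80), (nat_lit 120), (nat_lit 160)], [(nat_lit 0), (nat_lit 0), (nat_lit 2132)], [((nat_lit 0), (nat_lit 0), (nat_lit 0)), ((nat_lit 0), (nat_lit 0), (nat_lit 0)), ((nat_lit 858), (nat_lit 1000), (nat_lit 713))], ((nat_lit 100), (nat_lit 85), (nat_lit 73))⟩, (nat_lit 590343), (nat_lit 414), (nat_lit 414), (nat_lit 0), (nat_lit 342317), [(nat_lit 1472032000), (nat_lit 2501952000), (nat_lit 3727808000)], [], [(nat_lit 10740114853), (nat_lit 10822094794), (nat_lit 12890788360), (nat_lit 11817540538), (nat_lit 11011046423), (nat_lit 9941010664), (nat_lit 14641384132), (nat_lit 13609576553)], (nat_lit 1271251), (nat_lit 1271251), (nat_lit 857188), (nat_lit 1768126), (nat_lit 0), (nat_lit 780000), [(nat_lit 1100000), (nat_lit 1785001), (nat_lit 1271251)], [(nat_lit 18), (nat_lit 59), (nat_lit 401), (nat_lit 175), (nat_lit 10)]⟩,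
 ⟨⟨[(nat_lit 120), (nat_lit 160), (nat_lit 180)], [(nat_lit 0), (nat_lit 533), (nat_lit 2066)], [((nat_lit 0), (nat_lit 0), (nat_lit 0)), ((nat_lit 960), (nat_lit 1000), (nat_lit 200)), ((nat_lit 615), (nat_lit 1000), (nat_lit 729))], ((nat_lit 100), (nat_lit 63), (nat_lit 72))⟩, (nat_lit 273951), (nat_lit 300), (nat_lit 695), (nat_lit 7768801), (nat_lit 643985), [(nat_lit 932256000), (nat_lit 1389024000), (nat_lit 1644786000)], [], [(nat_lit 6697887839), (nat_lit 6609782986), (nat_lit 6323216509), (nat_lit 6250562787), (nat_lit 5837003605), (nat_lit 5749620821), (nat_lit 6063814649), (nat_lit 5375427601)], (nat_lit 1271251), (nat_lit 1271251), (nat_lit 780000), (nat_lit 1762501), (nat_lit 0), (nat_lit 780000), [(nat_lit 1695001), (nat_lit 1271251), (nat_lit 1271251)], [(nat_lit 28), (nat_lit 65), (nat_lit 373), (nat_lit 150), (nat_lit 9)]⟩⟩) (.stt (nat_lit 1) (.spl (nat_lit 0) (nat_lit 375) (.spl (nat_lit 6) (nat_lit 68) (.leaf ⟨(nat_lit 0), (nat_lit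 756), (nat_lit 0), (nat_lit 244), (nat_lit 25561), (nat_lit 6096), (nat_lit 5396), (nat_lit 2876), (nat_lit 0), (nat_lit 0), (nat_lit 0), [], Pd.none, Pd.none, (nat_lit 0), (nat_lit 1), (nat_lit 0), (nat_lit 0), (nat_lit 4), (nat_lit 0), [], [], [], [],
 ⟨⟨[(nat_lit 40), (nat_lit 80), (nat_lit 100)], [(nat_lit 0), (nat_lit 2008), (nat_lit 2969)], [((nat_lit 0), (nat_lit 0), (nat_lit 0)), ((nat_lit 1000), (nat_lit 540), (nat_lit 733)), ((nat_lit 1000), (nat_lit 536), (nat_lit 751))], ((nat_lit 53), (nat_lit 100), (nat_lit 76))⟩, (nat_lit 0), (nat_lit 68), (nat_lit 68), (nat_lit 0), (nat_lit 0), [(nat_lit 2474957548), (nat_lit 4688000005), (nat_lit 6250000000)], [], [(nat_lit 22907243796), (nat_lit 23457702135), (nat_lit 25208151229), (nat_lit 25658124841), (nat_lit 25166710080), (nat_lit 25610389000), (nat_lit 26757984321), (nat_lit 27123301254)], (nat_lit 0), (nat_lit 0), (nat_lit 0), (nat_lit 0), (nat_lit 0), (nat_lit 0), [], [(nat_lit 3), (nat_lit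 50), (nat_lit 345), (nat_lit 125), (nat_lit 12)]⟩,
 ⟨⟨[(nat_lit 80), (nat_lit 140), (nat_lit 180)], [(nat_lit 0), (nat_lit 0), (nat_lit 3656)], [((nat_lit 0), (nat_lit 0), (nat_lit 0)), ((nat_lit 0), (nat_lit 0), (nat_lit 0)), ((nat_lit 637), (nat_lit 1000), (nat_lit 908))], ((nat_lit 100), (nat_lit 81), (nat_lit 77))⟩, (nat_lit 117252), (nat_lit 376), (nat_lit 376), (nat_lit 0), (nat_lit 59908), [(nat_lit 4688000000), (nat_lit 9842000000), (nat_lit 14058000000)], [], [(nat_lit 38132459384), (nat_lit 39095469726), (nat_lit 47249098352), (nat_lit 44757025900), (nat_lit 42704177004), (nat_lit 40219468406), (nat_lit 52380964576), (nat_lit 49983796972)], (nat_lit 1271251), (nat_lit 1271251), (nat_lit 857188), (nat_lit 1768126), (nat_lit 0), (nat_lit 780000), [(nat_lit 1100000), (nat_lit 2127501), (nat_lit 1271251)], [(nat_lit 19), (nat_lit 63), (nat_lit 401), (nat_lit 175), (nat_lit 9)]⟩,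
 ⟨⟨[(nat_lit 120), (nat_lit 160), (nat_lit 200)], [(nat_lit 0), (nat_lit 533), (nat_lit 3597)], [((nat_lit 0), (nat_lit 0), (nat_lit 0)), ((nat_lit 960), (nat_lit 1000), (nat_lit 200)), ((nat_lit 612), (nat_lit 1000), (nat_lit 732))], ((nat_lit 0), (nat_lit 0), (nat_lit 0))⟩, (nat_lit 129878), (nat_lit 300), (nat_lit 494), (nat_lit 17672145), (nat_lit 99219), [(nat_lit 1944192000), (nat_lit 2896768000), (nat_lit 4001600000)], [], [(nat_lit 15396463672), (nat_lit 15281470888), (nat_lit 14627682708), (nat_lit 14468915932), (nat_lit 12881101214), (nat_lit 12736663413), (nat_lit 12944371762), (nat_lit 11989555964)], (nat_lit 1271251), (nat_lit 1271251), (nat_lit 780000), (nat_lit 1762501), (nat_lit 0), (nat_lit 780000), [(nat_lit 1695001), (nat_lit 1271251), (nat_lit 1271251)], [(nat_lit 29), (nat_lit 66), (nat_lit 373), (nat_lit 150), (nat_lit 8)]⟩⟩) (.dle (nat_lit 0))) (.trZ (nat_lit 0) (nat_lit 1) (nat_lit 3) (nat_lit 100) (nat_lit 49) (nat_lit 97)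 (nat_lit 140) (.leaf ⟨(nat_lit 904), (nat_lit 25), (nat_lit 0), (nat_lit 71), (nat_lit 3540), (nat_lit 3846), (nat_lit 1295), (nat_lit 773), (nat_lit 0), (nat_lit 0), (nat_lit 226000), [((nat_lit 380), [((nat_lit 25), (nat_lit 0), (nat_lit 904))])], ⟨(nat_lit 6), false, false, false, (nat_lit 217), (nat_lit 2236), (nat_lit 2500), [(nat_lit 1458037), (nat_lit 1459997), (nat_lit 1480612), (nat_lit 1482766), (nat_lit 1603223), (nat_lit 1602562), (nat_lit 1625799), (nat_lit 1625331)]⟩, ⟨(nat_lit 4), false, false, false, (nat_lit 188), (nat_lit 2236), (nat_lit 2500), [(nat_lit 1361275), (nat_lit 1363179), (nat_lit 1406424), (nat_lit 1408716), (nat_lit 1535482), (nat_lit 1534240), (nat_lit 1580644), (nat_lit 1579788)]⟩, (nat_lit 4941009), (nat_lit 41997438), (nat_lit 13892432), (nat_lit 11110130), (nat_lit 4), (nat_lit 0), [], [], [⟨(nat_lit 0), (nat_lit 100), (nat_lit 97), (nat_lit 25), (nat_lit 32591562)⟩], [],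
 ⟨⟨[(nat_lit 40), (nat_lit 80), (nat_lit 100)], [(nat_lit 0), (nat_lit 2244), (nat_lit 3243)], [((nat_lit 0), (nat_lit 0), (nat_lit 0)), ((nat_lit 1000), (nat_lit 495), (nat_lit 771)), ((nat_lit 1000), (nat_lit 493), (nat_lit 781))], ((nat_lit 49), (nat_lit 100), (nat_lit 80))⟩, (nat_lit 0), (nat_lit 69), (nat_lit 69), (nat_lit 0), (nat_lit 0), [(nat_lit 1590261261), (nat_lit 2000950403), (nat_lit 2514672000)], [(nat_lit 0), (nat_lit 0), (nat_lit 0)], [(nat_lit 21286398921), (nat_lit 21698106998), (nat_lit 23606586896), (nat_lit 23953678976), (nat_lit 23699706416), (nat_lit 24037912471), (nat_lit 25539312465), (nat_lit 25826881211)], (nat_lit 0), (nat_lit 0), (nat_lit 0), (nat_lit 0), (nat_lit 0), (nat_lit 0), [], [(nat_lit 3), (nat_lit 50), (nat_lit 345), (nat_lit 125), (nat_lit 12)]⟩,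
 ⟨⟨[(nat_lit 80), (nat_lit 140), (nat_lit 180)], [(nat_lit 0), (nat_lit 0), (nat_lit 3656)], [((nat_lit 0), (nat_lit 0), (nat_lit 0)), ((nat_lit 0), (nat_lit 0), (nat_lit 0)), ((nat_lit 637), (nat_lit 1000), (nat_lit 908))], ((nat_lit 100), (nat_lit 78), (nat_lit 80))⟩, (nat_lit 137018), (nat_lit 393), (nat_lit 393), (nat_lit 0), (nat_lit 114111), [(nat_lit 450048000), (nat_lit 944832000), (nat_lit 1349568000)], [], [(nat_lit 3675721508), (nat_lit 3776847287), (nat_lit 4636838032), (nat_lit 4038759117), (nat_lit 3726988528), (nat_lit 3132663333), (nat_lit 5419191012), (nat_lit 4843888557)], (nat_lit 1271251), (nat_lit 1271251), (nat_lit 936250), (nat_lit 1773751), (nat_lit 0), (nat_lit 780000), [(nat_lit 1100000), (nat_lit 2127501), (nat_lit 1271251)], [(nat_lit 19), (nat_lit 63), (nat_lit 401), (nat_lit 175), (nat_lit 9)]⟩,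
 ⟨⟨[(nat_lit 120), (nat_lit 160), (nat_lit 200)], [(nat_lit 0), (nat_lit 533), (nat_lit 3597)], [((nat_lit 0), (nat_lit 0), (nat_lit 0)), ((nat_lit 960), (nat_lit 1000), (nat_lit 200)), ((nat_lit 612), (nat_lit 1000), (nat_lit 732))], ((nat_lit 0), (nat_lit 0), (nat_lit 0))⟩, (nat_lit 37792), (nat_lit 300), (nat_lit 541), (nat_lit 5142311), (nat_lit 212697), [(nat_lit 565728000), (nat_lit 842912000), (nat_lit 1164400000)], [], [(nat_lit 4487794754), (nat_lit 4439663021), (nat_lit 4254801571), (nat_lit 4216290297), (nat_lit 3868489489), (nat_lit 3821923678), (nat_lit 3711223418), (nat_lit 3592134115)], (nat_lit 1271251), (nat_lit 1271251), (nat_lit 780000), (nat_lit 1762501), (nat_lit 0), (nat_lit 780000), [(nat_lit 1695001), (nat_lit 1271251), (nat_lit 1271251)], [(nat_lit 29), (nat_lit 66), (nat_lit 373), (nat_lit 150), (nat_lit 8)]⟩⟩))) (.leaf ⟨(nat_lit 0), (nat_lit 755), (nat_lit 0), (nat_lit 245), (nat_lit 13507), (nat_lit 4210), (nat_lit 5314),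 (nat_lit 2898), (nat_lit 0), (nat_lit 0), (nat_lit 0), [], Pd.none, Pd.none, (nat_lit 0), (nat_lit 1), (nat_lit 0), (nat_lit 0), (nat_lit 4), (nat_lit 0), [], [], [], [],
 ⟨⟨[(nat_lit 40), (nat_lit 80), (nat_lit 100)], [(nat_lit 0), (nat_lit 2008), (nat_lit 2969)], [((nat_lit 0), (nat_lit 0), (nat_lit 0)), ((nat_lit 1000), (nat_lit 540), (nat_lit 733)), ((nat_lit 1000), (nat_lit 536), (nat_lit 751))], ((nat_lit 53), (nat_lit 100), (nat_lit 79))⟩, (nat_lit 1474836), (nat_lit 108), (nat_lit 108), (nat_lit 0), (nat_lit 63423), [(nat_lit 2032000033), (nat_lit 5003385703), (nat_lit 6250000000)], [], [(nat_lit 21600359053), (nat_lit 22369814233), (nat_lit 23826609277), (nat_lit 24467988154), (nat_lit 23864123093), (nat_lit 24497290998), (nat_lit 25573041724), (nat_lit 26105962420)], (nat_lit 1271251), (nat_lit 1271251), (nat_lit 857188), (nat_lit 1768126), (nat_lit 780000), (nat_lit 1762501), [(nat_lit 490000), (nat_lit 1100000), (nat_lit 1442501)], [(nat_lit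 3), (nat_lit 50), (nat_lit 345), (nat_lit 125), (nat_lit 12)]⟩,
 ⟨⟨[(nat_lit 80), (nat_lit 140), (nat_lit 180)], [(nat_lit 0), (nat_lit 0), (nat_lit 3656)], [((nat_lit 0), (nat_lit 0), (nat_lit 0)), ((nat_lit 0), (nat_lit 0), (nat_lit 0)), ((nat_lit 637), (nat_lit 1000), (nat_lit 908))], ((nat_lit 100), (nat_lit 78), (nat_lit 80))⟩, (nat_lit 107200), (nat_lit 372), (nat_lit 372), (nat_lit 0), (nat_lit 48257), [(nat_lit 4688000000), (nat_lit 9842000000), (nat_lit 14058000000)], [], [(nat_lit 38208196314), (nat_lit 39165182044), (nat_lit 47241750168), (nat_lit 44787548350), (nat_lit 42757936286), (nat_lit 40310986418), (nat_lit 52343043184), (nat_lit 49982303998)], (nat_lit 1271251), (nat_lit 1271251), (nat_lit 857188), (nat_lit 1768126), (nat_lit 0), (nat_lit 780000), [(nat_lit 1100000), (nat_lit 2127501), (nat_lit 1271251)], [(nat_lit 19), (nat_lit 63), (nat_lit 401), (nat_lit 175), (nat_lit 9)]⟩,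
 ⟨⟨[(nat_lit 120), (nat_lit 160), (nat_lit 200)], [(nat_lit 0), (nat_lit 533), (nat_lit 3597)], [((nat_lit 0), (nat_lit 0), (nat_lit 0)), ((nat_lit 960), (nat_lit 1000), (nat_lit 200)), ((nat_lit 612), (nat_lit 1000), (nat_lit 732))], ((nat_lit 0), (nat_lit 0), (nat_lit 0))⟩, (nat_lit 130410), (nat_lit 300), (nat_lit 485), (nat_lit 17744577), (nat_lit 78412), [(nat_lit 1952160000), (nat_lit 2908640000), (nat_lit 4018000000)], [], [(nat_lit 15464530813), (nat_lit 15347952435), (nat_lit 14687892853), (nat_lit 14527246143), (nat_lit 12916913831), (nat_lit 12782232732), (nat_lit 13006277599), (nat_lit 12027536746)], (nat_lit 1271251), (nat_lit 1271251), (nat_lit 780000), (nat_lit 1762501), (nat_lit 0), (nat_lit 780000), [(nat_lit 1695001), (nat_lit 1271251), (nat_lit 1271251)], [(nat_lit 29), (nat_lit 66), (nat_lit 373), (nat_lit 150), (nat_lit 8)]⟩⟩))))) (.trZ (nat_lit 0) (nat_lit 1) (nat_lit 3) (nat_lit 100) (nat_lit 63) (nat_lit 99) (nat_lit 130)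 (.leaf ⟨(nat_lit 0), (nat_lit 766), (nat_lit 0), (nat_lit 234), (nat_lit 0), (nat_lit 4917), (nat_lit 6778), (nat_lit 3181), (nat_lit 0), (nat_lit 0), (nat_lit 0), [], Pd.none, Pd.none, (nat_lit 0), (nat_lit 1), (nat_lit 0), (nat_lit 0), (nat_lit 4), (nat_lit 0), [], [], [], [],
 ⟨⟨[(nat_lit 40), (nat_lit 80), (nat_lit 100)], [(nat_lit 0), (nat_lit 1598), (nat_lit 2533)], [((nat_lit 0), (nat_lit 0), (nat_lit 0)), ((nat_lit 1000), (nat_lit 625), (nat_lit 623)), ((nat_lit 1000), (nat_lit 604), (nat_lit 730))], ((nat_lit 60), (nat_lit 100), (nat_lit 78))⟩, (nat_lit 1487752), (nat_lit 163), (nat_lit 163), (nat_lit 0), (nat_lit 248730), [(nat_lit 2033361533), (nat_lit 4688000092), (nat_lit 6250000000)], [], [(nat_lit 21305436188), (nat_lit 22867876376), (nat_lit 23393353036), (nat_lit 24924233611), (nat_lit 23399578240), (nat_lit 24895342264), (nat_lit 25124708580), (nat_lit 26649151934)], (nat_lit 1271251), (nat_lit 1271251), (nat_lit 857188), (nat_lit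 1768126), (nat_lit 780000), (nat_lit 1762501), [(nat_lit 490000), (nat_lit 1100000), (nat_lit 1442501)], [(nat_lit 3), (nat_lit 50), (nat_lit 345), (nat_lit 125), (nat_lit 12)]⟩,
 ⟨⟨[(nat_lit 80), (nat_lit 120), (nat_lit 160)], [(nat_lit 0), (nat_lit 528), (nat_lit 2577)], [((nat_lit 0), (nat_lit 0), (nat_lit 0)), ((nat_lit 1000), (nat_lit 959), (nat_lit 206)), ((nat_lit 929), (nat_lit 1000), (nat_lit 742))], ((nat_lit 100), (nat_lit 87), (nat_lit 82))⟩, (nat_lit 3402898), (nat_lit 429), (nat_lit 429), (nat_lit 0), (nat_lit 375469), [(nat_lit 4688000000), (nat_lit 7968000000), (nat_lit 11872000000)], [], [(nat_lit 28804880264), (nat_lit 29674959058), (nat_lit 36261550516), (nat_lit 33089080504), (nat_lit 30676995073), (nat_lit 27514019768), (nat_lit 41782836633), (nat_lit 38732862026)], (nat_lit 1271251), (nat_lit 1271251), (nat_lit 857188), (nat_lit 1768126), (nat_lit 0), (nat_lit 780000), [(nat_lit 1100000), (nat_lit 1785001), (nat_lit 1271251)],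 [(nat_lit 18), (nat_lit 59), (nat_lit 401), (nat_lit 175), (nat_lit 10)]⟩,
 ⟨⟨[(nat_lit 120), (nat_lit 160), (nat_lit 200)], [(nat_lit 0), (nat_lit 533), (nat_lit 3597)], [((nat_lit 0), (nat_lit 0), (nat_lit 0)), ((nat_lit 960), (nat_lit 1000), (nat_lit 200)), ((nat_lit 612), (nat_lit 1000), (nat_lit 732))], ((nat_lit 0), (nat_lit 0), (nat_lit 0))⟩, (nat_lit 124555), (nat_lit 300), (nat_lit 852), (nat_lit 16947879), (nat_lit 802233), [(nat_lit 1864512000), (nat_lit 2778048000), (nat_lit 3837600000)], [], [(nat_lit 15460299082), (nat_lit 15139784477), (nat_lit 14184575355), (nat_lit 13842913601), (nat_lit 12770075430), (nat_lit 12463159988), (nat_lit 12780507030), (nat_lit 11231800477)], (nat_lit 1271251), (nat_lit 1271251), (nat_lit 780000), (nat_lit 1762501), (nat_lit 0), (nat_lit 780000), [(nat_lit 1695001), (nat_lit 1271251), (nat_lit 1271251)], [(nat_lit 29), (nat_lit 66), (nat_lit 373), (nat_lit 150), (nat_lit 8)]⟩⟩)))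
noncomputable def c17_82 : Tr Lf :=
 (.stt (nat_lit 2) (.leaf ⟨(nat_lit 0), (nat_lit 565), (nat_lit 0), (nat_lit 435), (nat_lit 0), (nat_lit 4579), (nat_lit 10503), (nat_lit 4006), (nat_lit 0), (nat_lit 0), (nat_lit 0), [], Pd.none, Pd.none, (nat_lit 0), (nat_lit 1), (nat_lit 0), (nat_lit 0), (nat_lit 4), (nat_lit 0), [⟨(nat_lit 0), (nat_lit 98), (nat_lit 54), (nat_lit 100), (nat_lit 13245592)⟩, ⟨(nat_lit 0), (nat_lit 92), (nat_lit 44), (nat_lit 100), (nat_lit 1056357146)⟩], [], [], [],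
 ⟨⟨[(nat_lit 40), (nat_lit 80), (nat_lit 100)], [(nat_lit 0), (nat_lit 1598), (nat_lit 2533)], [((nat_lit 0), (nat_lit 0), (nat_lit 0)), ((nat_lit 1000), (nat_lit 625), (nat_lit 623)), ((nat_lit 1000), (nat_lit 604), (nat_lit 730))], ((nat_lit 60), (nat_lit 100), (nat_lit 78))⟩, (nat_lit 1740310), (nat_lit 168), (nat_lit 168), (nat_lit 0), (nat_lit 248513), [(nat_lit 2032000031), (nat_lit 4688000015), (nat_lit 6250000000)], [], [(nat_lit 20833669478), (nat_lit 22225989178), (nat_lit 22972290374), (nat_lit 24585403314), (nat_lit 22943447318), (nat_lit 24597539114), (nat_lit 24923010460), (nat_lit 26389465858)], (nat_lit 1271251), (nat_lit 1271251), (nat_lit 704688), (nat_lit 1756876), (nat_lit 780000), (nat_lit 1762501), [(nat_lit 490000), (nat_lit 1100000), (nat_lit 1442501)], [(nat_lit 3), (nat_lit 50), (nat_lit 345), (nat_lit 125), (nat_lit 12)]⟩,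
 ⟨⟨[(nat_lit 80), (nat_lit 140), (nat_lit 180)], [(nat_lit 0), (nat_lit 0), (nat_lit 3656)], [((nat_lit 0), (nat_lit 0), (nat_lit 0)), ((nat_lit 0), (nat_lit 0), (nat_lit 0)), ((nat_lit 637), (nat_lit 1000), (nat_lit 908))], ((nat_lit 100), (nat_lit 78), (nat_lit 80))⟩, (nat_lit 2394856), (nat_lit 201), (nat_lit 201), (nat_lit 0), (nat_lit 0), [(nat_lit 4688000000), (nat_lit 9842000000), (nat_lit 14058000000)], [], [(nat_lit 23893925475), (nat_lit 26845514575), (nat_lit 24842176772), (nat_lit 27059989228), (nat_lit 35883593840), (nat_lit 37405733926), (nat_lit 34279126376), (nat_lit 35398139470)], (nat_lit 0), (nat_lit 0), (nat_lit 0), (nat_lit 0), (nat_lit 0), (nat_lit 0), [], [(nat_lit 19), (nat_lit 63), (nat_lit 483), (nat_lit 250), (nat_lit 11)]⟩,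
 ⟨⟨[(nat_lit 120), (nat_lit 160), (nat_lit 200)], [(nat_lit 0), (nat_lit 533), (nat_lit 3597)], [((nat_lit 0), (nat_lit 0), (nat_lit 0)), ((nat_lit 960), (nat_lit 1000), (nat_lit 200)), ((nat_lit 612), (nat_lit 1000), (nat_lit 732))], ((nat_lit 0), (nat_lit 0), (nat_lit 0))⟩, (nat_lit 1018537), (nat_lit 300), (nat_lit 920), (nat_lit 28884000), (nat_lit 1184467), [(nat_lit 3466080000), (nat_lit 5164320000), (nat_lit 7134000000)], [], [(nat_lit 27584187374), (nat_lit 27177702828), (nat_lit 26087057472), (nat_lit 25665068476), (nat_lit 25581088044), (nat_lit 25104743307), (nat_lit 25424784204), (nat_lit 23440937852)], (nat_lit 1271251), (nat_lit 1271251), (nat_lit 780000), (nat_lit 1762501), (nat_lit 780000), (nat_lit 3072501), [(nat_lit 1695001), (nat_lit 1271251), (nat_lit 1271251)], [(nat_lit 29), (nat_lit 66), (nat_lit 456), (nat_lit 225), (nat_lit 10)]⟩⟩) (.spl (nat_lit 0) (nat_lit 370) (.spl (nat_lit 6) (nat_lit 68) (.leaf ⟨(nat_lit 843), (nat_lit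 0), (nat_lit 0), (nat_lit 157), (nat_lit 13), (nat_lit 3481), (nat_lit 1222), (nat_lit 1512), (nat_lit 0), (nat_lit 0), (nat_lit 525000), [((nat_lit 370), [((nat_lit 41), (nat_lit 2), (nat_lit 795)), ((nat_lit 25), (nat_lit 2), (nat_lit 48))])], ⟨(nat_lit 6), false, false, false, (nat_lit 212), (nat_lit 2738), (nat_lit 3163), [(nat_lit 1407099), (nat_lit 1411881), (nat_lit 1451384), (nat_lit 1456691), (nat_lit 1605257), (nat_lit 1603890), (nat_lit 1649542), (nat_lit 1648700)]⟩, ⟨(nat_lit 4), false, false, false, (nat_lit 188), (nat_lit 2738), (nat_lit 3163), [(nat_lit 1355914), (nat_lit 1359435), (nat_lit 1400199), (nat_lit 1404246), (nat_lit 1538797), (nat_lit 1536642), (nat_lit 1583107), (nat_lit 1581477)]⟩, (nat_lit 4901833), (nat_lit 42422513), (nat_lit 13445976), (nat_lit 11131511), (nat_lit 0), (nat_lit 0), [⟨(nat_lit 0), (nat_lit 100), (nat_lit 59), (nat_lit 100), (nat_lit 68591107)⟩], [], [], [],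
 ⟨⟨[(nat_lit 40), (nat_lit 80), (nat_lit 100)], [(nat_lit 0), (nat_lit 1598), (nat_lit 2533)], [((nat_lit 0), (nat_lit 0), (nat_lit 0)), ((nat_lit 1000), (nat_lit 625), (nat_lit 623)), ((nat_lit 1000), (nat_lit 604), (nat_lit 730))], ((nat_lit 60), (nat_lit 100), (nat_lit 75))⟩, (nat_lit 0), (nat_lit 123), (nat_lit 123), (nat_lit 0), (nat_lit 120997), [(nat_lit 1397670420), (nat_lit 834551133), (nat_lit 226159600)], [(nat_lit 0), (nat_lit 0), (nat_lit 0)], [(nat_lit 19174083317), (nat_lit 19935538137), (nat_lit 21937813023), (nat_lit 22711259550), (nat_lit 21875835031), (nat_lit 22659123083), (nat_lit 24267789940), (nat_lit 24906830101)], (nat_lit 1271251), (nat_lit 1271251), (nat_lit 704688), (nat_lit 1756876), (nat_lit 780000), (nat_lit 1762501), [(nat_lit 490000), (nat_lit 1100000), (nat_lit 1442501)], [(nat_lit 3), (nat_lit 50), (nat_lit 345), (nat_lit 125), (nat_lit 12)]⟩,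
 ⟨⟨[(nat_lit 80), (nat_lit 140), (nat_lit 180)], [(nat_lit 0), (nat_lit 0), (nat_lit 3656)], [((nat_lit 0), (nat_lit 0), (nat_lit 0)), ((nat_lit 0), (nat_lit 0), (nat_lit 0)), ((nat_lit 637), (nat_lit 1000), (nat_lit 908))], ((nat_lit 100), (nat_lit 81), (nat_lit 77))⟩, (nat_lit 364061), (nat_lit 411), (nat_lit 411), (nat_lit 0), (nat_lit 356269), [(nat_lit 736016000), (nat_lit 1545194000), (nat_lit 2207106000)], [], [(nat_lit 5595320218), (nat_lit 5378122334), (nat_lit 6048054996), (nat_lit 5428174210), (nat_lit 8647939748), (nat_lit 7558739987), (nat_lit 10933504564), (nat_lit 9887809836)], (nat_lit 1271251), (nat_lit 1271251), (nat_lit 704688), (nat_lit 1756876), (nat_lit 780000), (nat_lit 3072501), [(nat_lit 1100000), (nat_lit 2127501), (nat_lit 1271251)], [(nat_lit 19), (nat_lit 63), (nat_lit 483), (nat_lit 250), (nat_lit 11)]⟩,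
 ⟨⟨[(nat_lit 120), (nat_lit 160), (nat_lit 200)], [(nat_lit 0), (nat_lit 533), (nat_lit 3597)], [((nat_lit 0), (nat_lit 0), (nat_lit 0)), ((nat_lit 960), (nat_lit 1000), (nat_lit 200)), ((nat_lit 612), (nat_lit 1000), (nat_lit 732))], ((nat_lit 0), (nat_lit 0), (nat_lit 0))⟩, (nat_lit 83569), (nat_lit 300), (nat_lit 639), (nat_lit 11371012), (nat_lit 572523), [(nat_lit 1250976000), (nat_lit 1863904000), (nat_lit 2574800000)], [], [(nat_lit 9802079369), (nat_lit 9680065291), (nat_lit 9301414646), (nat_lit 9168447311), (nat_lit 9332361329), (nat_lit 9169322387), (nat_lit 9328558480), (nat_lit 8562349603)], (nat_lit 1271251), (nat_lit 1271251), (nat_lit 780000), (nat_lit 1762501), (nat_lit 780000), (nat_lit 3072501), [(nat_lit 1695001), (nat_lit 1271251), (nat_lit 1271251)], [(nat_lit 29), (nat_lit 66), (nat_lit 456), (nat_lit 225), (nat_lit 10)]⟩⟩) (.dle (nat_lit 0))) (.trZ (nat_lit 0) (nat_lit 1) (nat_lit 3) (nat_lit 100) (nat_lit 54) (nat_lit 96)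 (nat_lit 130) (.leaf ⟨(nat_lit 846), (nat_lit 0), (nat_lit 0), (nat_lit 154), (nat_lit 0), (nat_lit 3673), (nat_lit 1306), (nat_lit 1293), (nat_lit 0), (nat_lit 0), (nat_lit 211500), [((nat_lit 380), [((nat_lit 25), (nat_lit 0), (nat_lit 846))])], ⟨(nat_lit 6), false, false, false, (nat_lit 218), (nat_lit 2236), (nat_lit 2739), [(nat_lit 1441375), (nat_lit 1445669), (nat_lit 1486169), (nat_lit 1491177), (nat_lit 1603890), (nat_lit 1602558), (nat_lit 1648684), (nat_lit 1648065)]⟩, ⟨(nat_lit 4), false, false, false, (nat_lit 188), (nat_lit 2236), (nat_lit 2739), [(nat_lit 1359410), (nat_lit 1363145), (nat_lit 1404204), (nat_lit 1408652), (nat_lit 1536642), (nat_lit 1534240), (nat_lit 1581477), (nat_lit 1579788)]⟩, (nat_lit 4949753), (nat_lit 41894835), (nat_lit 14021819), (nat_lit 11083346), (nat_lit 0), (nat_lit 0), [⟨(nat_lit 0), (nat_lit 97), (nat_lit 49), (nat_lit 100), (nat_lit 51278009)⟩], [], [], [],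
 ⟨⟨[(nat_lit 40), (nat_lit 80), (nat_lit 100)], [(nat_lit 0), (nat_lit 2008), (nat_lit 2969)], [((nat_lit 0), (nat_lit 0), (nat_lit 0)), ((nat_lit 1000), (nat_lit 540), (nat_lit 733)), ((nat_lit 1000), (nat_lit 536), (nat_lit 751))], ((nat_lit 53), (nat_lit 100), (nat_lit 79))⟩, (nat_lit 668277), (nat_lit 136), (nat_lit 136), (nat_lit 0), (nat_lit 159614), [(nat_lit 1569580050), (nat_lit 2468012777), (nat_lit 2754328000)], [(nat_lit 0), (nat_lit 0), (nat_lit 0)], [(nat_lit 20592973850), (nat_lit 21354075192), (nat_lit 22882522026), (nat_lit 23677177725), (nat_lit 22931511007), (nat_lit 23709954723), (nat_lit 25037874133), (nat_lit 25693384246)], (nat_lit 1271251), (nat_lit 1271251), (nat_lit 857188), (nat_lit 1768126), (nat_lit 780000), (nat_lit 1762501), [(nat_lit 490000), (nat_lit 1100000), (nat_lit 1442501)], [(nat_lit 3), (nat_lit 50), (nat_lit 345), (nat_lit 125), (nat_lit 12)]⟩,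
 ⟨⟨[(nat_lit 80), (nat_lit 140), (nat_lit 180)], [(nat_lit 0), (nat_lit 0), (nat_lit 3656)], [((nat_lit 0), (nat_lit 0), (nat_lit 0)), ((nat_lit 0), (nat_lit 0), (nat_lit 0)), ((nat_lit 637), (nat_lit 1000), (nat_lit 908))], ((nat_lit 100), (nat_lit 78), (nat_lit 80))⟩, (nat_lit 383139), (nat_lit 459), (nat_lit 459), (nat_lit 0), (nat_lit 490949), [(nat_lit 721952000), (nat_lit 1515668000), (nat_lit 2164932000)], [], [(nat_lit 4882864866), (nat_lit 4995279835), (nat_lit 5967431844), (nat_lit 5137346938), (nat_lit 8914931152), (nat_lit 7758245479), (nat_lit 11062232080), (nat_lit 9944656536)], (nat_lit 1271251), (nat_lit 1271251), (nat_lit 857188), (nat_lit 1768126), (nat_lit 780000), (nat_lit 3072501), [(nat_lit 1100000), (nat_lit 2127501), (nat_lit 1271251)], [(nat_lit 19), (nat_lit 63), (nat_lit 483), (nat_lit 250), (nat_lit 11)]⟩,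
 ⟨⟨[(nat_lit 120), (nat_lit 160), (nat_lit 200)], [(nat_lit 0), (nat_lit 533), (nat_lit 3597)], [((nat_lit 0), (nat_lit 0), (nat_lit 0)), ((nat_lit 960), (nat_lit 1000), (nat_lit 200)), ((nat_lit 612), (nat_lit 1000), (nat_lit 732))], ((nat_lit 0), (nat_lit 0), (nat_lit 0))⟩, (nat_lit 359171), (nat_lit 300), (nat_lit 734), (nat_lit 10230312), (nat_lit 802233), [(nat_lit 1227072000), (nat_lit 1828288000), (nat_lit 2525600000)], [], [(nat_lit 9650801402), (nat_lit 9546230919), (nat_lit 9235490100), (nat_lit 9122990645), (nat_lit 9205009109), (nat_lit 9069515807), (nat_lit 8716207406), (nat_lit 8576950874)], (nat_lit 1271251), (nat_lit 1271251), (nat_lit 780000), (nat_lit 1762501), (nat_lit 780000), (nat_lit 3072501), [(nat_lit 1695001), (nat_lit 1271251), (nat_lit 1271251)], [(nat_lit 29), (nat_lit 66), (nat_lit 456), (nat_lit 225), (nat_lit 10)]⟩⟩))))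
noncomputable def c17_83 : Tr Lf :=
 (.trZ (nat_lit 0) (nat_lit 1) (nat_lit 3) (nat_lit 94) (nat_lit 62) (nat_lit 100) (nat_lit 150) (.spl (nat_lit 5) (nat_lit 200) (.spl (nat_lit 5) (nat_lit 120) (.leaf ⟨(nat_lit 0), (nat_lit 778), (nat_lit 0), (nat_lit 222), (nat_lit 0), (nat_lit 4526), (nat_lit 10746), (nat_lit 3146), (nat_lit 0), (nat_lit 0), (nat_lit 0), [], Pd.none, Pd.none, (nat_lit 0), (nat_lit 1), (nat_lit 0), (nat_lit 0), (nat_lit 4), (nat_lit 0), [⟨(nat_lit 0), (nat_lit 82), (nat_lit 44), (nat_lit 100), (nat_lit 949662348)⟩], [], [⟨(nat_lit 0), (nat_lit 100), (nat_lit 92), (nat_lit 31), (nat_lit 367932922)⟩], [],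
 ⟨⟨[(nat_lit 40), (nat_lit 80), (nat_lit 100)], [(nat_lit 0), (nat_lit 1598), (nat_lit 2533)], [((nat_lit 0), (nat_lit 0), (nat_lit 0)), ((nat_lit 1000), (nat_lit 625), (nat_lit 623)), ((nat_lit 1000), (nat_lit 604), (nat_lit 730))], ((nat_lit 60), (nat_lit 100), (nat_lit 78))⟩, (nat_lit 1682379), (nat_lit 218), (nat_lit 218), (nat_lit 0), (nat_lit 388134), [(nat_lit 2032000032), (nat_lit 4688000032), (nat_lit 6250000000)], [], [(nat_lit 21435623981), (nat_lit 22746212116), (nat_lit 23326569787), (nat_lit 24532273119), (nat_lit 23418773029), (nat_lit 24503747767), (nat_lit 24891383240), (nat_lit 26348745852)], (nat_lit 1271251), (nat_lit 1271251), (nat_lit 1017188), (nat_lit 1779376), (nat_lit 780000), (nat_lit 1762501), [(nat_lit 490000), (nat_lit 1100000), (nat_lit 1442501)], [(nat_lit 3), (nat_lit 50), (nat_lit 345), (nat_lit 125), (nat_lit 12)]⟩,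
 ⟨⟨[(nat_lit 60), (nat_lit 120), (nat_lit 160)], [(nat_lit 0), (nat_lit 0), (nat_lit 3243)], [((nat_lit 0), (nat_lit 0), (nat_lit 0)), ((nat_lit 0), (nat_lit 0), (nat_lit 0)), ((nat_lit 878), (nat_lit 1000), (nat_lit 945))], ((nat_lit 100), (nat_lit 96), (nat_lit 86))⟩, (nat_lit 2410377), (nat_lit 493), (nat_lit 493), (nat_lit 0), (nat_lit 453858), [(nat_lit 3282000000), (nat_lit 7968000000), (nat_lit 11872000000)], [], [(nat_lit 29641004233), (nat_lit 32242327710), (nat_lit 30628773020), (nat_lit 33647839317), (nat_lit 23224899490), (nat_lit 25157932162), (nat_lit 23962151522), (nat_lit 25486157240)], (nat_lit 1271251), (nat_lit 1271251), (nat_lit 1017188), (nat_lit 1779376), (nat_lit 0), (nat_lit 780000), [(nat_lit 780000), (nat_lit 1762501), (nat_lit 1271251)], [(nat_lit 12), (nat_lit 59), (nat_lit 401), (nat_lit 175), (nat_lit 10)]⟩,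
 ⟨⟨[(nat_lit 120), (nat_lit 160), (nat_lit 200)], [(nat_lit 0), (nat_lit 533), (nat_lit 3597)], [((nat_lit 0), (nat_lit 0), (nat_lit 0)), ((nat_lit 960), (nat_lit 1000), (nat_lit 200)), ((nat_lit 612), (nat_lit 1000), (nat_lit 732))], ((nat_lit 0), (nat_lit 0), (nat_lit 0))⟩, (nat_lit 519371), (nat_lit 300), (nat_lit 1031), (nat_lit 14742246), (nat_lit 1197831), [(nat_lit 1768896000), (nat_lit 2635584000), (nat_lit 3640800000)], [], [(nat_lit 13742371420), (nat_lit 13568588164), (nat_lit 12787589782), (nat_lit 12579430114), (nat_lit 11067961768), (nat_lit 10758345688), (nat_lit 12236188115), (nat_lit 9795603010)], (nat_lit 1271251), (nat_lit 1271251), (nat_lit 780000), (nat_lit 1762501), (nat_lit 0), (nat_lit 780000), [(nat_lit 1695001), (nat_lit 1271251), (nat_lit 1271251)], [(nat_lit 29), (nat_lit 66), (nat_lit 373), (nat_lit 150), (nat_lit 8)]⟩⟩) (.leaf ⟨(nat_lit 0), (nat_lit 718), (nat_lit 0), (nat_lit 282), (nat_lit 0), (nat_lit 4670), (nat_lit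 8827), (nat_lit 2788), (nat_lit 0), (nat_lit 0), (nat_lit 0), [], Pd.none, Pd.none, (nat_lit 0), (nat_lit 1), (nat_lit 0), (nat_lit 0), (nat_lit 4), (nat_lit 0), [⟨(nat_lit 0), (nat_lit 82), (nat_lit 44), (nat_lit 100), (nat_lit 874314706)⟩], [], [], [],
 ⟨⟨[(nat_lit 40), (nat_lit 80), (nat_lit 100)], [(nat_lit 0), (nat_lit 1598), (nat_lit 2533)], [((nat_lit 0), (nat_lit 0), (nat_lit 0)), ((nat_lit 1000), (nat_lit 625), (nat_lit 623)), ((nat_lit 1000), (nat_lit 604), (nat_lit 730))], ((nat_lit 60), (nat_lit 100), (nat_lit 78))⟩, (nat_lit 1681179), (nat_lit 218), (nat_lit 218), (nat_lit 0), (nat_lit 388134), [(nat_lit 2032000025), (nat_lit 4688000021), (nat_lit 6250000000)], [], [(nat_lit 21133285181), (nat_lit 22465854640), (nat_lit 23019165337), (nat_lit 24676626855), (nat_lit 23095952227), (nat_lit 24626686129), (nat_lit 24977313800), (nat_lit 26459381340)], (nat_lit 1271251), (nat_lit 1271251), (nat_lit 1017188), (nat_lit 1779376), (nat_lit 780000),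 (nat_lit 1762501), [(nat_lit 490000), (nat_lit 1100000), (nat_lit 1442501)], [(nat_lit 3), (nat_lit 50), (nat_lit 345), (nat_lit 125), (nat_lit 12)]⟩,
 ⟨⟨[(nat_lit 60), (nat_lit 120), (nat_lit 160)], [(nat_lit 0), (nat_lit 0), (nat_lit 3243)], [((nat_lit 0), (nat_lit 0), (nat_lit 0)), ((nat_lit 0), (nat_lit 0), (nat_lit 0)), ((nat_lit 878), (nat_lit 1000), (nat_lit 945))], ((nat_lit 100), (nat_lit 96), (nat_lit 86))⟩, (nat_lit 2107737), (nat_lit 417), (nat_lit 417), (nat_lit 0), (nat_lit 575425), [(nat_lit 3282000000), (nat_lit 7968000000), (nat_lit 11872000000)], [], [(nat_lit 25606802785), (nat_lit 27631895686), (nat_lit 26664445635), (nat_lit 28296559443), (nat_lit 25575736343), (nat_lit 27294648530), (nat_lit 26384319902), (nat_lit 27812360490)], (nat_lit 1271251), (nat_lit 1271251), (nat_lit 1017188), (nat_lit 1779376), (nat_lit 780000), (nat_lit 1435001), [(nat_lit 780000), (nat_lit 1762501), (nat_lit 1271251)], [(nat_lit 12), (nat_lit 59),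 (nat_lit 428), (nat_lit 200), (nat_lit 10)]⟩,
 ⟨⟨[(nat_lit 120), (nat_lit 160), (nat_lit 200)], [(nat_lit 0), (nat_lit 533), (nat_lit 3597)], [((nat_lit 0), (nat_lit 0), (nat_lit 0)), ((nat_lit 960), (nat_lit 1000), (nat_lit 200)), ((nat_lit 612), (nat_lit 1000), (nat_lit 732))], ((nat_lit 0), (nat_lit 0), (nat_lit 0))⟩, (nat_lit 660293), (nat_lit 300), (nat_lit 1238), (nat_lit 18724800), (nat_lit 1852574), [(nat_lit 2246976000), (nat_lit 3347904000), (nat_lit 4624800000)], [], [(nat_lit 17609768767), (nat_lit 17260725517), (nat_lit 16445463190), (nat_lit 16095217242), (nat_lit 16794054526), (nat_lit 16444911653), (nat_lit 17282186496), (nat_lit 15283949311)], (nat_lit 1271251), (nat_lit 1271251), (nat_lit 780000), (nat_lit 1762501), (nat_lit 780000), (nat_lit 1435001), [(nat_lit 1695001), (nat_lit 1271251), (nat_lit 1271251)], [(nat_lit 29), (nat_lit 66), (nat_lit 401), (nat_lit 175), (nat_lit 8)]⟩⟩)) (.leaf ⟨(nat_lit 0), (nat_lit 695), (nat_lit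 0), (nat_lit 305), (nat_lit 0), (nat_lit 4693), (nat_lit 8416), (nat_lit 2983), (nat_lit 0), (nat_lit 0), (nat_lit 0), [], Pd.none, Pd.none, (nat_lit 0), (nat_lit 1), (nat_lit 0), (nat_lit 0), (nat_lit 5), (nat_lit 0), [⟨(nat_lit 0), (nat_lit 82), (nat_lit 44), (nat_lit 100), (nat_lit 1060592429)⟩], [], [⟨(nat_lit 1), (nat_lit 50), (nat_lit 87), (nat_lit 100), (nat_lit 151105583)⟩], [],
 ⟨⟨[(nat_lit 40), (nat_lit 80), (nat_lit 100)], [(nat_lit 0), (nat_lit 1598), (nat_lit 2533)], [((nat_lit 0), (nat_lit 0), (nat_lit 0)), ((nat_lit 1000), (nat_lit 625), (nat_lit 623)), ((nat_lit 1000), (nat_lit 604), (nat_lit 730))], ((nat_lit 60), (nat_lit 100), (nat_lit 78))⟩, (nat_lit 1474445), (nat_lit 218), (nat_lit 218), (nat_lit 0), (nat_lit 388134), [(nat_lit 2032000017), (nat_lit 4688000018), (nat_lit 6250000000)], [], [(nat_lit 21938221327), (nat_lit 23274219816), (nat_lit 23823292386), (nat_lit 24971225105), (nat_lit 23897616942), (nat_lit 25001194108),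 (nat_lit 25328762108), (nat_lit 26477052286)], (nat_lit 1271251), (nat_lit 1271251), (nat_lit 1017188), (nat_lit 1779376), (nat_lit 780000), (nat_lit 1762501), [(nat_lit 490000), (nat_lit 1100000), (nat_lit 1442501)], [(nat_lit 3), (nat_lit 50), (nat_lit 345), (nat_lit 125), (nat_lit 12)]⟩,
 ⟨⟨[(nat_lit 60), (nat_lit 120), (nat_lit 160)], [(nat_lit 0), (nat_lit 0), (nat_lit 3243)], [((nat_lit 0), (nat_lit 0), (nat_lit 0)), ((nat_lit 0), (nat_lit 0), (nat_lit 0)), ((nat_lit 878), (nat_lit 1000), (nat_lit 945))], ((nat_lit 100), (nat_lit 96), (nat_lit 86))⟩, (nat_lit 1657937), (nat_lit 390), (nat_lit 390), (nat_lit 0), (nat_lit 575425), [(nat_lit 3282000000), (nat_lit 7968000000), (nat_lit 11872000000)], [], [(nat_lit 27762175149), (nat_lit 29446960825), (nat_lit 28497327669), (nat_lit 29851015109), (nat_lit 34806227649), (nat_lit 35662568857), (nat_lit 34242570832), (nat_lit 35054297216)], (nat_lit 1271251), (nat_lit 1271251), (nat_lit 1017188), (nat_lit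 1779376), (nat_lit 1271251), (nat_lit 1271251), [(nat_lit 780000), (nat_lit 1762501), (nat_lit 1271251)], [(nat_lit 12), (nat_lit 59), (nat_lit 483), (nat_lit 250), (nat_lit 12)]⟩,
 ⟨⟨[(nat_lit 120), (nat_lit 160), (nat_lit 200)], [(nat_lit 0), (nat_lit 533), (nat_lit 3597)], [((nat_lit 0), (nat_lit 0), (nat_lit 0)), ((nat_lit 960), (nat_lit 1000), (nat_lit 200)), ((nat_lit 612), (nat_lit 1000), (nat_lit 732))], ((nat_lit 0), (nat_lit 0), (nat_lit 0))⟩, (nat_lit 714146), (nat_lit 300), (nat_lit 1196), (nat_lit 20252002), (nat_lit 1852574), [(nat_lit 2430240000), (nat_lit 3620960000), (nat_lit 5002000000)], [], [(nat_lit 18353121056), (nat_lit 17982130028), (nat_lit 17118942035), (nat_lit 16746747468), (nat_lit 17172574197), (nat_lit 16792053742), (nat_lit 15895114606), (nat_lit 15526814186)], (nat_lit 1271251), (nat_lit 1271251), (nat_lit 780000), (nat_lit 1762501), (nat_lit 1271251), (nat_lit 1271251), [(nat_lit 1695001), (nat_lit 1271251), (nat_lit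 1271251)], [(nat_lit 29), (nat_lit 66), (nat_lit 456), (nat_lit 225), (nat_lit 9)]⟩⟩)))
noncomputable def c17_84 : Tr Lf :=
 (.spl (nat_lit 6) (nat_lit 60) (.spl (nat_lit 3) (nat_lit 160) (.spl (nat_lit 0) (nat_lit 370) (.leaf ⟨(nat_lit 0), (nat_lit 439), (nat_lit 0), (nat_lit 561), (nat_lit 0), (nat_lit 4695), (nat_lit 7587), (nat_lit 6989), (nat_lit 0), (nat_lit 0), (nat_lit 0), [], Pd.none, Pd.none, (nat_lit 0), (nat_lit 1), (nat_lit 0), (nat_lit 0), (nat_lit 6), (nat_lit 0), [⟨(nat_lit 0), (nat_lit 100), (nat_lit 59), (nat_lit 100), (nat_lit 1311439195)⟩], [], [⟨(nat_lit 0), (nat_lit 100), (nat_lit 98), (nat_lit 10), (nat_lit 515920924)⟩], [],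
 ⟨⟨[(nat_lit 40), (nat_lit 80), (nat_lit 100)], [(nat_lit 0), (nat_lit 1598), (nat_lit 2533)], [((nat_lit 0), (nat_lit 0), (nat_lit 0)), ((nat_lit 1000), (nat_lit 625), (nat_lit 623)), ((nat_lit 1000), (nat_lit 604), (nat_lit 730))], ((nat_lit 61), (nat_lit 100), (nat_lit 72))⟩, (nat_lit 1651141), (nat_lit 154), (nat_lit 154), (nat_lit 0), (nat_lit 186722), [(nat_lit 2032000003), (nat_lit 4688000003), (nat_lit 6250000000)], [], [(nat_lit 23064878345), (nat_lit 23796549957), (nat_lit 23187836745), (nat_lit 23824747855), (nat_lit 28530951490), (nat_lit 29245033976), (nat_lit 28222024578), (nat_lit 28892542431)], (nat_lit 1271251), (nat_lit 1271251), (nat_lit 704688), (nat_lit 1100000), (nat_lit 1271251), (nat_lit 1271251), [(nat_lit 490000), (nat_lit 1100000), (nat_lit 1442501)], [(nat_lit 3), (nat_lit 50), (nat_lit 249), (nat_lit 40), (nat_lit 8)]⟩,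
 ⟨⟨[(nat_lit 80), (nat_lit 120), (nat_lit 160)], [(nat_lit 0), (nat_lit 0), (nat_lit 2132)], [((nat_lit 0), (nat_lit 0), (nat_lit 0)), ((nat_lit 0), (nat_lit 0), (nat_lit 0)), ((nat_lit 858), (nat_lit 1000), (nat_lit 713))], ((nat_lit 100), (nat_lit 85), (nat_lit 73))⟩, (nat_lit 0), (nat_lit 400), (nat_lit 400), (nat_lit 0), (nat_lit 276257), [(nat_lit 4688000000), (nat_lit 7968000000), (nat_lit 11872000000)], [], [(nat_lit 38245830533), (nat_lit 39590638414), (nat_lit 36960196432), (nat_lit 39051140974), (nat_lit 33213214790), (nat_lit 34873542164), (nat_lit 37697724844), (nat_lit 34409544040)], (nat_lit 1271251), (nat_lit 1271251), (nat_lit 704688), (nat_lit 1100000), (nat_lit 0), (nat_lit 780000), [(nat_lit 1100000), (nat_lit 1785001), (nat_lit 1271251)], [(nat_lit 18), (nat_lit 59), (nat_lit 373), (nat_lit 150), (nat_lit 10)]⟩,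
 ⟨⟨[(nat_lit 120), (nat_lit 160), (nat_lit 180)], [(nat_lit 0), (nat_lit 533), (nat_lit 2066)], [((nat_lit 0), (nat_lit 0), (nat_lit 0)), ((nat_lit 960), (nat_lit 1000), (nat_lit 200)), ((nat_lit 615), (nat_lit 1000), (nat_lit 729))], ((nat_lit 100), (nat_lit 63), (nat_lit 72))⟩, (nat_lit 593879), (nat_lit 300), (nat_lit 611), (nat_lit 39647841), (nat_lit 570453), [(nat_lit 4470048000), (nat_lit 6660192000), (nat_lit 7886538000)], [], [(nat_lit 29716446840), (nat_lit 29222291304), (nat_lit 30129465459), (nat_lit 29760410363), (nat_lit 24316108222), (nat_lit 23827930069), (nat_lit 24601994672), (nat_lit 23988385676)], (nat_lit 1271251), (nat_lit 1271251), (nat_lit 1271251), (nat_lit 1271251), (nat_lit 0), (nat_lit 780000), [(nat_lit 1695001), (nat_lit 1271251), (nat_lit 1271251)], [(nat_lit 28), (nat_lit 65), (nat_lit 401), (nat_lit 175), (nat_lit 9)]⟩⟩) (.trZ (nat_lit 0) (nat_lit 1) (nat_lit 3) (nat_lit 100) (nat_lit 54) (nat_lit 96) (nat_lit 130)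 (.trX (nat_lit 4) (nat_lit 0) (nat_lit 2) (nat_lit 53) (nat_lit 80) (nat_lit 100) (nat_lit 330) (.leaf ⟨(nat_lit 0), (nat_lit 600), (nat_lit 0), (nat_lit 400), (nat_lit 0), (nat_lit 4474), (nat_lit 8026), (nat_lit 4859), (nat_lit 0), (nat_lit 0), (nat_lit 0), [], Pd.none, Pd.none, (nat_lit 0), (nat_lit 1), (nat_lit 0), (nat_lit 0), (nat_lit 6), (nat_lit 0), [⟨(nat_lit 0), (nat_lit 97), (nat_lit 49), (nat_lit 100), (nat_lit 2061286117)⟩], [⟨(nat_lit 1), (nat_lit 88), (nat_lit 48), (nat_lit 100), (nat_lit 203026435)⟩], [], [⟨(nat_lit 0), (nat_lit 94), (nat_lit 100), (nat_lit 17), (nat_lit 130933161)⟩],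
 ⟨⟨[(nat_lit 40), (nat_lit 60), (nat_lit 80)], [(nat_lit 0), (nat_lit 1134), (nat_lit 1930)], [((nat_lit 0), (nat_lit 0), (nat_lit 0)), ((nat_lit 1000), (nat_lit 575), (nat_lit 619)), ((nat_lit 1000), (nat_lit 574), (nat_lit 622))], ((nat_lit 54), (nat_lit 100), (nat_lit 73))⟩, (nat_lit 1045694), (nat_lit 140), (nat_lit 140), (nat_lit 0), (nat_lit 244055), [(nat_lit 2032000015), (nat_lit 3282000017), (nat_lit 4688000000)], [], [(nat_lit 23815129359), (nat_lit 24489157140), (nat_lit 23943722292), (nat_lit 24542458788), (nat_lit 28190723899), (nat_lit 28889650655), (nat_lit 28039469900), (nat_lit 28712171941)], (nat_lit 1271251), (nat_lit 1271251), (nat_lit 857188), (nat_lit 1100000), (nat_lit 1271251), (nat_lit 1271251), [(nat_lit 490000), (nat_lit 780000), (nat_lit 1100000)], [(nat_lit 2), (nat_lit 44), (nat_lit 249), (nat_lit 40), (nat_lit 9)]⟩,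
 ⟨⟨[(nat_lit 80), (nat_lit 120), (nat_lit 160)], [(nat_lit 0), (nat_lit 0), (nat_lit 2132)], [((nat_lit 0), (nat_lit 0), (nat_lit 0)), ((nat_lit 0), (nat_lit 0), (nat_lit 0)), ((nat_lit 858), (nat_lit 1000), (nat_lit 713))], ((nat_lit 100), (nat_lit 85), (nat_lit 73))⟩, (nat_lit 2081735), (nat_lit 431), (nat_lit 431), (nat_lit 0), (nat_lit 380244), [(nat_lit 4688000000), (nat_lit 7968000000), (nat_lit 11872000000)], [], [(nat_lit 34357560026), (nat_lit 34666298654), (nat_lit 32139979316), (nat_lit 34288637432), (nat_lit 34281337266), (nat_lit 29489722283), (nat_lit 37334852712), (nat_lit 29920080768)], (nat_lit 1271251), (nat_lit 1271251), (nat_lit 857188), (nat_lit 1100000), (nat_lit 0), (nat_lit 780000), [(nat_lit 1100000), (nat_lit 1785001), (nat_lit 1271251)], [(nat_lit 18), (nat_lit 59), (nat_lit 373), (nat_lit 150), (nat_lit 10)]⟩,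
 ⟨⟨[(nat_lit 120), (nat_lit 160), (nat_lit 180)], [(nat_lit 0), (nat_lit 533), (nat_lit 2066)], [((nat_lit 0), (nat_lit 0), (nat_lit 0)), ((nat_lit 960), (nat_lit 1000), (nat_lit 200)), ((nat_lit 615), (nat_lit 1000), (nat_lit 729))], ((nat_lit 100), (nat_lit 63), (nat_lit 72))⟩, (nat_lit 936585), (nat_lit 300), (nat_lit 725), (nat_lit 26560002), (nat_lit 795206), [(nat_lit 3187200000), (nat_lit 4748800000), (nat_lit 5623200000)], [], [(nat_lit 20466768303), (nat_lit 20130093701), (nat_lit 20684597786), (nat_lit 20453930602), (nat_lit 16727429473), (nat_lit 16394666451), (nat_lit 16870817865), (nat_lit 16460517672)], (nat_lit 1271251), (nat_lit 1271251), (nat_lit 1271251), (nat_lit 1271251), (nat_lit 0), (nat_lit 780000), [(nat_lit 1695001), (nat_lit 1271251), (nat_lit 1271251)], [(nat_lit 28), (nat_lit 65), (nat_lit 401), (nat_lit 175), (nat_lit 9)]⟩⟩)))) (.spl (nat_lit 0) (nat_lit 370) (.leaf ⟨(nat_lit 0), (nat_lit 503), (nat_lit 0), (nat_lit 497),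 (nat_lit 0), (nat_lit 4327), (nat_lit 11317), (nat_lit 6264), (nat_lit 0), (nat_lit 0), (nat_lit 0), [], Pd.none, Pd.none, (nat_lit 0), (nat_lit 1), (nat_lit 0), (nat_lit 0), (nat_lit 6), (nat_lit 0), [], [], [], [⟨(nat_lit 0), (nat_lit 89), (nat_lit 100), (nat_lit 45), (nat_lit 180333695)⟩],
 ⟨⟨[(nat_lit 40), (nat_lit 80), (nat_lit 100)], [(nat_lit 0), (nat_lit 1598), (nat_lit 2533)], [((nat_lit 0), (nat_lit 0), (nat_lit 0)), ((nat_lit 1000), (nat_lit 625), (nat_lit 623)), ((nat_lit 1000), (nat_lit 604), (nat_lit 730))], ((nat_lit 61), (nat_lit 100), (nat_lit 72))⟩, (nat_lit 1810212), (nat_lit 137), (nat_lit 137), (nat_lit 0), (nat_lit 186722), [(nat_lit 2032000092), (nat_lit 4903185831), (nat_lit 6250000000)], [], [(nat_lit 23003462016), (nat_lit 23620335479), (nat_lit 24772631980), (nat_lit 25484242867), (nat_lit 27826161642), (nat_lit 28469689685), (nat_lit 29206290797), (nat_lit 29767575506)], (nat_lit 1271251), (nat_lit 1271251), (nat_lit 1100000),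 (nat_lit 1785001), (nat_lit 1271251), (nat_lit 1271251), [(nat_lit 490000), (nat_lit 1100000), (nat_lit 1442501)], [(nat_lit 3), (nat_lit 50), (nat_lit 272), (nat_lit 60), (nat_lit 9)]⟩,
 ⟨⟨[(nat_lit 80), (nat_lit 120), (nat_lit 160)], [(nat_lit 0), (nat_lit 0), (nat_lit 2132)], [((nat_lit 0), (nat_lit 0), (nat_lit 0)), ((nat_lit 0), (nat_lit 0), (nat_lit 0)), ((nat_lit 858), (nat_lit 1000), (nat_lit 713))], ((nat_lit 100), (nat_lit 85), (nat_lit 73))⟩, (nat_lit 3350302), (nat_lit 377), (nat_lit 377), (nat_lit 0), (nat_lit 276257), [(nat_lit 4688000000), (nat_lit 7968000000), (nat_lit 11872000000)], [], [(nat_lit 28554395004), (nat_lit 29153607278), (nat_lit 40528075108), (nat_lit 31544647750), (nat_lit 34614551604), (nat_lit 24159409056), (nat_lit 47452895776), (nat_lit 37268014505)], (nat_lit 1271251), (nat_lit 1271251), (nat_lit 1100000), (nat_lit 1785001), (nat_lit 0), (nat_lit 780000), [(nat_lit 1100000), (nat_lit 1785001), (nat_lit 1271251)],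 [(nat_lit 18), (nat_lit 59), (nat_lit 401), (nat_lit 175), (nat_lit 10)]⟩,
 ⟨⟨[(nat_lit 120), (nat_lit 160), (nat_lit 180)], [(nat_lit 0), (nat_lit 533), (nat_lit 2066)], [((nat_lit 0), (nat_lit 0), (nat_lit 0)), ((nat_lit 960), (nat_lit 1000), (nat_lit 200)), ((nat_lit 615), (nat_lit 1000), (nat_lit 729))], ((nat_lit 100), (nat_lit 63), (nat_lit 72))⟩, (nat_lit 1163707), (nat_lit 300), (nat_lit 611), (nat_lit 33000802), (nat_lit 570453), [(nat_lit 3960096000), (nat_lit 5900384000), (nat_lit 6986826000)], [], [(nat_lit 25062036747), (nat_lit 24615137617), (nat_lit 25912400102), (nat_lit 25577168424), (nat_lit 20213070603), (nat_lit 19771670884), (nat_lit 20566678250), (nat_lit 20242136654)], (nat_lit 1271251), (nat_lit 1271251), (nat_lit 1271251), (nat_lit 1271251), (nat_lit 0), (nat_lit 780000), [(nat_lit 1695001), (nat_lit 1271251), (nat_lit 1271251)], [(nat_lit 28), (nat_lit 65), (nat_lit 401), (nat_lit 175), (nat_lit 9)]⟩⟩) (.trX (nat_lit 4)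 (nat_lit 0) (nat_lit 2) (nat_lit 53) (nat_lit 80) (nat_lit 100) (nat_lit 330) (.leaf ⟨(nat_lit 0), (nat_lit 634), (nat_lit 0), (nat_lit 366), (nat_lit 0), (nat_lit 4764), (nat_lit 7156), (nat_lit 4331), (nat_lit 0), (nat_lit 0), (nat_lit 0), [], Pd.none, Pd.none, (nat_lit 0), (nat_lit 1), (nat_lit 0), (nat_lit 0), (nat_lit 6), (nat_lit 0), [], [⟨(nat_lit 1), (nat_lit 88), (nat_lit 48), (nat_lit 100), (nat_lit 256139539)⟩], [], [⟨(nat_lit 0), (nat_lit 91), (nat_lit 100), (nat_lit 43), (nat_lit 40408990)⟩],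
 ⟨⟨[(nat_lit 40), (nat_lit 60), (nat_lit 80)], [(nat_lit 0), (nat_lit 1134), (nat_lit 1930)], [((nat_lit 0), (nat_lit 0), (nat_lit 0)), ((nat_lit 1000), (nat_lit 575), (nat_lit 619)), ((nat_lit 1000), (nat_lit 574), (nat_lit 622))], ((nat_lit 54), (nat_lit 100), (nat_lit 73))⟩, (nat_lit 637943), (nat_lit 132), (nat_lit 132), (nat_lit 0), (nat_lit 244055), [(nat_lit 2032000004), (nat_lit 3282000001), (nat_lit 4688000000)], [], [(nat_lit 24585586289), (nat_lit 25203799477), (nat_lit 26225793254), (nat_lit 26864320482), (nat_lit 28401984203), (nat_lit 29049103112), (nat_lit 29674903958), (nat_lit 30278375402)], (nat_lit 1271251), (nat_lit 1271251), (nat_lit 1100000), (nat_lit 1785001), (nat_lit 1271251), (nat_lit 1271251), [(nat_lit 490000), (nat_lit 780000), (nat_lit 1100000)], [(nat_lit 2), (nat_lit 44), (nat_lit 203), (nat_lit 0), (nat_lit 7)]⟩,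
 ⟨⟨[(nat_lit 80), (nat_lit 120), (nat_lit 160)], [(nat_lit 0), (nat_lit 0), (nat_lit 2132)], [((nat_lit 0), (nat_lit 0), (nat_lit 0)), ((nat_lit 0), (nat_lit 0), (nat_lit 0)), ((nat_lit 858), (nat_lit 1000), (nat_lit 713))], ((nat_lit 100), (nat_lit 85), (nat_lit 73))⟩, (nat_lit 2776280), (nat_lit 418), (nat_lit 418), (nat_lit 0), (nat_lit 380244), [(nat_lit 4688000000), (nat_lit 7968000000), (nat_lit 11872000000)], [], [(nat_lit 33074855472), (nat_lit 33450447752), (nat_lit 41653525744), (nat_lit 34954736896), (nat_lit 38053984272), (nat_lit 31442956608), (nat_lit 47179401568), (nat_lit 40739266340)], (nat_lit 1271251), (nat_lit 1271251), (nat_lit 1100000), (nat_lit 1785001), (nat_lit 0), (nat_lit 780000), [(nat_lit 1100000), (nat_lit 1785001), (nat_lit 1271251)], [(nat_lit 18), (nat_lit 59), (nat_lit 401), (nat_lit 175), (nat_lit 10)]⟩,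
 ⟨⟨[(nat_lit 120), (nat_lit 160), (nat_lit 180)], [(nat_lit 0), (nat_lit 533), (nat_lit 2066)], [((nat_lit 0), (nat_lit 0), (nat_lit 0)), ((nat_lit 960), (nat_lit 1000), (nat_lit 200)), ((nat_lit 615), (nat_lit 1000), (nat_lit 729))], ((nat_lit 100), (nat_lit 63), (nat_lit 72))⟩, (nat_lit 856976), (nat_lit 300), (nat_lit 725), (nat_lit 24302400), (nat_lit 795206), [(nat_lit 2916288000), (nat_lit 4345152000), (nat_lit 5145228000)], [], [(nat_lit 18913713009), (nat_lit 18620152827), (nat_lit 19124189140), (nat_lit 18755192195), (nat_lit 15607019519), (nat_lit 15304797764), (nat_lit 15738564948), (nat_lit 15378839706)], (nat_lit 1271251), (nat_lit 1271251), (nat_lit 1271251), (nat_lit 1271251), (nat_lit 0), (nat_lit 780000), [(nat_lit 1695001), (nat_lit 1271251), (nat_lit 1271251)], [(nat_lit 28), (nat_lit 65), (nat_lit 401), (nat_lit 175), (nat_lit 9)]⟩⟩)))) (.spl (nat_lit 1) (nat_lit 260) (.spl (nat_lit 3) (nat_lit 160) (.spl (nat_lit 0) (nat_lit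 370) (.dle (nat_lit 0)) (.trZ (nat_lit 0) (nat_lit 1) (nat_lit 3) (nat_lit 100) (nat_lit 54) (nat_lit 96) (nat_lit 130) (.trX (nat_lit 4) (nat_lit 0) (nat_lit 2) (nat_lit 53) (nat_lit 80) (nat_lit 100) (nat_lit 330) (.leaf ⟨(nat_lit 421), (nat_lit 145), (nat_lit 0), (nat_lit 434), (nat_lit 18376), (nat_lit 3858), (nat_lit 7819), (nat_lit 4723), (nat_lit 0), (nat_lit 0), (nat_lit 105250), [((nat_lit 380), [((nat_lit 25), (nat_lit 0), (nat_lit 421))])], ⟨(nat_lit 6), false, false, false, (nat_lit 191), (nat_lit 2236), (nat_lit 2739), [(nat_lit 1441375), (nat_lit 1445669), (nat_lit 1463772), (nat_lit 1468423), (nat_lit 1485697), (nat_lit 1488457), (nat_lit 1508094), (nat_lit 1511211)]⟩, ⟨(nat_lit 6), false, true, true, (nat_lit 249), (nat_lit 2236), (nat_lit 2739), [(nat_lit 1536642), (nat_lit 1534240), (nat_lit 1581477), (nat_lit 1579788), (nat_lit 1669530), (nat_lit 1662525), (nat_lit 1714365), (nat_lit 1708073)]⟩, (nat_lit 5139815), (nat_lit 39439416),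 (nat_lit 10861794), (nat_lit 16698790), (nat_lit 6), (nat_lit 0), [⟨(nat_lit 0), (nat_lit 100), (nat_lit 50), (nat_lit 100), (nat_lit 966230077)⟩], [], [⟨(nat_lit 0), (nat_lit 100), (nat_lit 98), (nat_lit 10), (nat_lit 274710043)⟩], [],
 ⟨⟨[(nat_lit 40), (nat_lit 80), (nat_lit 100)], [(nat_lit 0), (nat_lit 2008), (nat_lit 2969)], [((nat_lit 0), (nat_lit 0), (nat_lit 0)), ((nat_lit 1000), (nat_lit 540), (nat_lit 733)), ((nat_lit 1000), (nat_lit 536), (nat_lit 751))], ((nat_lit 53), (nat_lit 100), (nat_lit 79))⟩, (nat_lit 1128836), (nat_lit 113), (nat_lit 113), (nat_lit 0), (nat_lit 63423), [(nat_lit 1684330020), (nat_lit 3782643345), (nat_lit 4510428000)], [(nat_lit 0), (nat_lit 0), (nat_lit 0)], [(nat_lit 23243901958), (nat_lit 23887469142), (nat_lit 23367527918), (nat_lit 23986292098), (nat_lit 27418526444), (nat_lit 28067679678), (nat_lit 27370927602), (nat_lit 27996483660)], (nat_lit 1271251), (nat_lit 1271251), (nat_lit 857188), (nat_lit 1100000),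 (nat_lit 1271251), (nat_lit 1271251), [(nat_lit 490000), (nat_lit 1100000), (nat_lit 1442501)], [(nat_lit 3), (nat_lit 50), (nat_lit 249), (nat_lit 40), (nat_lit 8)]⟩,
 ⟨⟨[(nat_lit 80), (nat_lit 140), (nat_lit 180)], [(nat_lit 0), (nat_lit 0), (nat_lit 3656)], [((nat_lit 0), (nat_lit 0), (nat_lit 0)), ((nat_lit 0), (nat_lit 0), (nat_lit 0)), ((nat_lit 637), (nat_lit 1000), (nat_lit 908))], ((nat_lit 100), (nat_lit 78), (nat_lit 80))⟩, (nat_lit 1406930), (nat_lit 398), (nat_lit 398), (nat_lit 0), (nat_lit 114111), [(nat_lit 2714352000), (nat_lit 5698518000), (nat_lit 8139582000)], [], [(nat_lit 20285808765), (nat_lit 20907983264), (nat_lit 20173046616), (nat_lit 20170797942), (nat_lit 21647857981), (nat_lit 18047424970), (nat_lit 24313795238), (nat_lit 20749343799)], (nat_lit 1271251), (nat_lit 1271251), (nat_lit 857188), (nat_lit 1100000), (nat_lit 0), (nat_lit 780000), [(nat_lit 1100000), (nat_lit 2127501), (nat_lit 1271251)], [(nat_lit 19), (nat_lit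 63), (nat_lit 373), (nat_lit 150), (nat_lit 9)]⟩,
 ⟨⟨[(nat_lit 120), (nat_lit 160), (nat_lit 200)], [(nat_lit 0), (nat_lit 533), (nat_lit 3597)], [((nat_lit 0), (nat_lit 0), (nat_lit 0)), ((nat_lit 960), (nat_lit 1000), (nat_lit 200)), ((nat_lit 612), (nat_lit 1000), (nat_lit 732))], ((nat_lit 0), (nat_lit 0), (nat_lit 0))⟩, (nat_lit 231013), (nat_lit 300), (nat_lit 491), (nat_lit 31433238), (nat_lit 212697), [(nat_lit 3458112000), (nat_lit 5152448000), (nat_lit 7117600000)], [], [(nat_lit 26008153230), (nat_lit 25772998874), (nat_lit 26690866993), (nat_lit 26345839440), (nat_lit 22185615000), (nat_lit 21888787675), (nat_lit 22572381110), (nat_lit 22247312221)], (nat_lit 1271251), (nat_lit 1271251), (nat_lit 1271251), (nat_lit 1271251), (nat_lit 0), (nat_lit 780000), [(nat_lit 1695001), (nat_lit 1271251), (nat_lit 1271251)], [(nat_lit 29), (nat_lit 66), (nat_lit 401), (nat_lit 175), (nat_lit 8)]⟩⟩)))) (.leaf ⟨(nat_lit 0), (nat_lit 610), (nat_lit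 0), (nat_lit 390), (nat_lit 5451), (nat_lit 6940), (nat_lit 3690), (nat_lit 3889), (nat_lit 0), (nat_lit 0), (nat_lit 0), [], Pd.none, Pd.none, (nat_lit 0), (nat_lit 1), (nat_lit 0), (nat_lit 0), (nat_lit 6), (nat_lit 0), [⟨(nat_lit 0), (nat_lit 96), (nat_lit 44), (nat_lit 100), (nat_lit 16436286)⟩], [⟨(nat_lit 1), (nat_lit 85), (nat_lit 53), (nat_lit 100), (nat_lit 279080755)⟩], [⟨(nat_lit 0), (nat_lit 100), (nat_lit 98), (nat_lit 10), (nat_lit 324380434)⟩], [],
 ⟨⟨[(nat_lit 40), (nat_lit 80), (nat_lit 100)], [(nat_lit 0), (nat_lit 1598), (nat_lit 2533)], [((nat_lit 0), (nat_lit 0), (nat_lit 0)), ((nat_lit 1000), (nat_lit 625), (nat_lit 623)), ((nat_lit 1000), (nat_lit 604), (nat_lit 730))], ((nat_lit 60), (nat_lit 100), (nat_lit 78))⟩, (nat_lit 0), (nat_lit 106), (nat_lit 106), (nat_lit 0), (nat_lit 63909), [(nat_lit 2871506706), (nat_lit 5291226553), (nat_lit 6250000000)], [], [(nat_lit 25939546120), (nat_lit 27653121260), (nat_lit 27550056640),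 (nat_lit 29019083920), (nat_lit 30982915240), (nat_lit 32307344355), (nat_lit 31791677840), (nat_lit 33148232995)], (nat_lit 1271251), (nat_lit 1271251), (nat_lit 1100000), (nat_lit 1785001), (nat_lit 1271251), (nat_lit 1271251), [(nat_lit 490000), (nat_lit 1100000), (nat_lit 1442501)], [(nat_lit 3), (nat_lit 50), (nat_lit 272), (nat_lit 60), (nat_lit 9)]⟩,
 ⟨⟨[(nat_lit 80), (nat_lit 140), (nat_lit 180)], [(nat_lit 0), (nat_lit 0), (nat_lit 3656)], [((nat_lit 0), (nat_lit 0), (nat_lit 0)), ((nat_lit 0), (nat_lit 0), (nat_lit 0)), ((nat_lit 637), (nat_lit 1000), (nat_lit 908))], ((nat_lit 100), (nat_lit 78), (nat_lit 80))⟩, (nat_lit 1250384), (nat_lit 382), (nat_lit 382), (nat_lit 0), (nat_lit 114111), [(nat_lit 4688000000), (nat_lit 9842000000), (nat_lit 14058000000)], [], [(nat_lit 35000035576), (nat_lit 35808125570), (nat_lit 37113611560), (nat_lit 37864624580), (nat_lit 34473704440), (nat_lit 35157016015), (nat_lit 40223014140), (nat_lit 38495570160)],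 (nat_lit 1271251), (nat_lit 1271251), (nat_lit 1100000), (nat_lit 1785001), (nat_lit 0), (nat_lit 780000), [(nat_lit 1100000), (nat_lit 2127501), (nat_lit 1271251)], [(nat_lit 19), (nat_lit 63), (nat_lit 401), (nat_lit 175), (nat_lit 9)]⟩,
 ⟨⟨[(nat_lit 120), (nat_lit 160), (nat_lit 200)], [(nat_lit 0), (nat_lit 533), (nat_lit 3597)], [((nat_lit 0), (nat_lit 0), (nat_lit 0)), ((nat_lit 960), (nat_lit 1000), (nat_lit 200)), ((nat_lit 612), (nat_lit 1000), (nat_lit 732))], ((nat_lit 0), (nat_lit 0), (nat_lit 0))⟩, (nat_lit 207592), (nat_lit 300), (nat_lit 491), (nat_lit 28246460), (nat_lit 212697), [(nat_lit 3107520000), (nat_lit 4630080000), (nat_lit 6396000000)], [], [(nat_lit 23675023505), (nat_lit 23445146005), (nat_lit 24120766922), (nat_lit 23847875899), (nat_lit 20577893705), (nat_lit 20355893145), (nat_lit 20952389094), (nat_lit 20652414153)], (nat_lit 1271251), (nat_lit 1271251), (nat_lit 1271251), (nat_lit 1271251), (nat_lit 0), (nat_lit 780000),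 [(nat_lit 1695001), (nat_lit 1271251), (nat_lit 1271251)], [(nat_lit 29), (nat_lit 66), (nat_lit 401), (nat_lit 175), (nat_lit 8)]⟩⟩)) (.trZ (nat_lit 0) (nat_lit 1) (nat_lit 3) (nat_lit 100) (nat_lit 63) (nat_lit 99) (nat_lit 130) (.leaf ⟨(nat_lit 0), (nat_lit 483), (nat_lit 0), (nat_lit 517), (nat_lit 3586), (nat_lit 6995), (nat_lit 10701), (nat_lit 5625), (nat_lit 0), (nat_lit 0), (nat_lit 0), [], Pd.none, Pd.none, (nat_lit 0), (nat_lit 1), (nat_lit 0), (nat_lit 0), (nat_lit 6), (nat_lit 0), [⟨(nat_lit 0), (nat_lit 96), (nat_lit 54), (nat_lit 100), (nat_lit 806719212)⟩], [⟨(nat_lit 1), (nat_lit 85), (nat_lit 53), (nat_lit 100), (nat_lit 131547843)⟩], [⟨(nat_lit 0), (nat_lit 100), (nat_lit 96), (nat_lit 20), (nat_lit 156058413)⟩], [],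
 ⟨⟨[(nat_lit 40), (nat_lit 80), (nat_lit 100)], [(nat_lit 0), (nat_lit 1598), (nat_lit 2533)], [((nat_lit 0), (nat_lit 0), (nat_lit 0)), ((nat_lit 1000), (nat_lit 625), (nat_lit 623)), ((nat_lit 1000), (nat_lit 604), (nat_lit 730))], ((nat_lit 60), (nat_lit 100), (nat_lit 78))⟩, (nat_lit 0), (nat_lit 130), (nat_lit 130), (nat_lit 0), (nat_lit 113678), [(nat_lit 2637164915), (nat_lit 5248995931), (nat_lit 6250000000)], [], [(nat_lit 26141088793), (nat_lit 27940968164), (nat_lit 27513974220), (nat_lit 28989890910), (nat_lit 31433920644), (nat_lit 33016820359), (nat_lit 31768850103), (nat_lit 33207576854)], (nat_lit 1271251), (nat_lit 1271251), (nat_lit 857188), (nat_lit 1768126), (nat_lit 1271251), (nat_lit 1271251), [(nat_lit 490000), (nat_lit 1100000), (nat_lit 1442501)], [(nat_lit 3), (nat_lit 50), (nat_lit 272), (nat_lit 60), (nat_lit 9)]⟩,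
 ⟨⟨[(nat_lit 80), (nat_lit 120), (nat_lit 160)], [(nat_lit 0), (nat_lit 528), (nat_lit 2577)], [((nat_lit 0), (nat_lit 0), (nat_lit 0)), ((nat_lit 1000), (nat_lit 959), (nat_lit 206)), ((nat_lit 929), (nat_lit 1000), (nat_lit 742))], ((nat_lit 100), (nat_lit 87), (nat_lit 82))⟩, (nat_lit 1341845), (nat_lit 350), (nat_lit 350), (nat_lit 0), (nat_lit 172394), [(nat_lit 4688000000), (nat_lit 7968000000), (nat_lit 11872000000)], [], [(nat_lit 31973222836), (nat_lit 33291195649), (nat_lit 34187730810), (nat_lit 34968408777), (nat_lit 25674061778), (nat_lit 25735374300), (nat_lit 41098843637), (nat_lit 36283591605)], (nat_lit 1271251), (nat_lit 1271251), (nat_lit 857188), (nat_lit 1768126), (nat_lit 0), (nat_lit 780000), [(nat_lit 1100000), (nat_lit 1785001), (nat_lit 1271251)], [(nat_lit 18), (nat_lit 59), (nat_lit 401), (nat_lit 175), (nat_lit 10)]⟩,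
 ⟨⟨[(nat_lit 120), (nat_lit 160), (nat_lit 200)], [(nat_lit 0), (nat_lit 533), (nat_lit 3597)], [((nat_lit 0), (nat_lit 0), (nat_lit 0)), ((nat_lit 960), (nat_lit 1000), (nat_lit 200)), ((nat_lit 612), (nat_lit 1000), (nat_lit 732))], ((nat_lit 0), (nat_lit 0), (nat_lit 0))⟩, (nat_lit 275192), (nat_lit 300), (nat_lit 555), (nat_lit 37444672), (nat_lit 367386), [(nat_lit 4119456000), (nat_lit 6137824000), (nat_lit 8478800000)], [], [(nat_lit 30983552215), (nat_lit 30702058243), (nat_lit 31976161513), (nat_lit 31548040668), (nat_lit 26605787462), (nat_lit 26190516113), (nat_lit 27051576546), (nat_lit 26648658880)], (nat_lit 1271251), (nat_lit 1271251), (nat_lit 1271251), (nat_lit 1271251), (nat_lit 0), (nat_lit 780000), [(nat_lit 1695001), (nat_lit 1271251), (nat_lit 1271251)], [(nat_lit 29), (nat_lit 66), (nat_lit 401), (nat_lit 175), (nat_lit 8)]⟩⟩))))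
noncomputable def c17_85 : Tr Lf :=
 (.stt (nat_lit 2) (.leaf ⟨(nat_lit 0), (nat_lit 466), (nat_lit 0), (nat_lit 534), (nat_lit 0), (nat_lit 4353), (nat_lit 10600), (nat_lit 4869), (nat_lit 0), (nat_lit 0), (nat_lit 0), [], Pd.none, Pd.none, (nat_lit 0), (nat_lit 1), (nat_lit 0), (nat_lit 0), (nat_lit 6), (nat_lit 0), [⟨(nat_lit 0), (nat_lit 92), (nat_lit 44), (nat_lit 100), (nat_lit 1077521216)⟩], [⟨(nat_lit 1), (nat_lit 85), (nat_lit 53), (nat_lit 100), (nat_lit 143919753)⟩], [], [],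
 ⟨⟨[(nat_lit 40), (nat_lit 80), (nat_lit 100)], [(nat_lit 0), (nat_lit 1598), (nat_lit 2533)], [((nat_lit 0), (nat_lit 0), (nat_lit 0)), ((nat_lit 1000), (nat_lit 625), (nat_lit 623)), ((nat_lit 1000), (nat_lit 604), (nat_lit 730))], ((nat_lit 60), (nat_lit 100), (nat_lit 78))⟩, (nat_lit 1680488), (nat_lit 174), (nat_lit 174), (nat_lit 0), (nat_lit 248513), [(nat_lit 2032000069), (nat_lit 4688000022), (nat_lit 6250000000)], [], [(nat_lit 23672741237), (nat_lit 24793214267), (nat_lit 25285786691), (nat_lit 26216520285), (nat_lit 28067445046), (nat_lit 29440783249), (nat_lit 29231263264), (nat_lit 30356913676)], (nat_lit 1271251), (nat_lit 1271251), (nat_lit 704688), (nat_lit 1756876), (nat_lit 1271251), (nat_lit 1271251), [(nat_lit 490000), (nat_lit 1100000), (nat_lit 1442501)], [(nat_lit 3), (nat_lit 50), (nat_lit 272), (nat_lit 60), (nat_lit 9)]⟩,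
 ⟨⟨[(nat_lit 80), (nat_lit 140), (nat_lit 180)], [(nat_lit 0), (nat_lit 0), (nat_lit 3656)], [((nat_lit 0), (nat_lit 0), (nat_lit 0)), ((nat_lit 0), (nat_lit 0), (nat_lit 0)), ((nat_lit 637), (nat_lit 1000), (nat_lit 908))], ((nat_lit 100), (nat_lit 78), (nat_lit 80))⟩, (nat_lit 3117142), (nat_lit 201), (nat_lit 201), (nat_lit 0), (nat_lit 0), [(nat_lit 4688000000), (nat_lit 9842000000), (nat_lit 14058000000)], [], [(nat_lit 21230141998), (nat_lit 24198121248), (nat_lit 22158958448), (nat_lit 24387358648), (nat_lit 35834987500), (nat_lit 37408706200), (nat_lit 34238075200), (nat_lit 35497612000)], (nat_lit 0), (nat_lit 0), (nat_lit 0), (nat_lit 0), (nat_lit 0), (nat_lit 0), [], [(nat_lit 19), (nat_lit 63), (nat_lit 483), (nat_lit 250), (nat_lit 11)]⟩,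
 ⟨⟨[(nat_lit 120), (nat_lit 160), (nat_lit 200)], [(nat_lit 0), (nat_lit 533), (nat_lit 3597)], [((nat_lit 0), (nat_lit 0), (nat_lit 0)), ((nat_lit 960), (nat_lit 1000), (nat_lit 200)), ((nat_lit 612), (nat_lit 1000), (nat_lit 732))], ((nat_lit 0), (nat_lit 0), (nat_lit 0))⟩, (nat_lit 1250341), (nat_lit 300), (nat_lit 865), (nat_lit 35457602), (nat_lit 1184467), [(nat_lit 4254912000), (nat_lit 6339648000), (nat_lit 8757600000)], [], [(nat_lit 32223760341), (nat_lit 31713630771), (nat_lit 31696593330), (nat_lit 31148332531), (nat_lit 29613925714), (nat_lit 29029898278), (nat_lit 28787375628), (nat_lit 28179377919)], (nat_lit 1271251), (nat_lit 1271251), (nat_lit 1271251), (nat_lit 1271251), (nat_lit 780000), (nat_lit 3072501), [(nat_lit 1695001), (nat_lit 1271251), (nat_lit 1271251)], [(nat_lit 29), (nat_lit 66), (nat_lit 483), (nat_lit 250), (nat_lit 10)]⟩⟩) (.leaf ⟨(nat_lit 0), (nat_lit 0), (nat_lit 0), (nat_lit 1000), (nat_lit 0), (nat_lit 4507),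 (nat_lit 7895), (nat_lit 9566), (nat_lit 0), (nat_lit 0), (nat_lit 0), [], Pd.none, Pd.none, (nat_lit 0), (nat_lit 1), (nat_lit 0), (nat_lit 0), (nat_lit 0), (nat_lit 0), [⟨(nat_lit 0), (nat_lit 92), (nat_lit 44), (nat_lit 100), (nat_lit 987865546)⟩], [], [], [],
 ⟨⟨[(nat_lit 40), (nat_lit 80), (nat_lit 100)], [(nat_lit 0), (nat_lit 1598), (nat_lit 2533)], [((nat_lit 0), (nat_lit 0), (nat_lit 0)), ((nat_lit 1000), (nat_lit 625), (nat_lit 623)), ((nat_lit 1000), (nat_lit 604), (nat_lit 730))], ((nat_lit 60), (nat_lit 100), (nat_lit 78))⟩, (nat_lit 1670915), (nat_lit 150), (nat_lit 150), (nat_lit 0), (nat_lit 161426), [(nat_lit 2032000716), (nat_lit 4688000760), (nat_lit 6250000000)], [], [(nat_lit 23383730917), (nat_lit 24523280928), (nat_lit 24959272443), (nat_lit 26334148114), (nat_lit 28276158474), (nat_lit 29674184754), (nat_lit 29379177107), (nat_lit 30523076480)], (nat_lit 1271251), (nat_lit 1271251), (nat_lit 704688), (nat_lit 1756876), (nat_lit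 1271251), (nat_lit 1271251), [(nat_lit 490000), (nat_lit 1100000), (nat_lit 1442501)], [(nat_lit 3), (nat_lit 50), (nat_lit 272), (nat_lit 60), (nat_lit 9)]⟩,
 ⟨⟨[(nat_lit 80), (nat_lit 140), (nat_lit 180)], [(nat_lit 0), (nat_lit 0), (nat_lit 3656)], [((nat_lit 0), (nat_lit 0), (nat_lit 0)), ((nat_lit 0), (nat_lit 0), (nat_lit 0)), ((nat_lit 637), (nat_lit 1000), (nat_lit 908))], ((nat_lit 100), (nat_lit 78), (nat_lit 80))⟩, (nat_lit 2475647), (nat_lit 469), (nat_lit 469), (nat_lit 0), (nat_lit 489637), [(nat_lit 4688000000), (nat_lit 9842000000), (nat_lit 14058000000)], [], [(nat_lit 35722070205), (nat_lit 33552495227), (nat_lit 38490681870), (nat_lit 34379915755), (nat_lit 55216699700), (nat_lit 48179684878), (nat_lit 69922770020), (nat_lit 63166829040)], (nat_lit 1271251), (nat_lit 1271251), (nat_lit 704688), (nat_lit 1756876), (nat_lit 780000), (nat_lit 3072501), [(nat_lit 1100000), (nat_lit 2127501), (nat_lit 1271251)], [(nat_lit 19), (nat_lit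 63), (nat_lit 483), (nat_lit 250), (nat_lit 11)]⟩,
 ⟨⟨[(nat_lit 120), (nat_lit 160), (nat_lit 200)], [(nat_lit 0), (nat_lit 533), (nat_lit 3597)], [((nat_lit 0), (nat_lit 0), (nat_lit 0)), ((nat_lit 960), (nat_lit 1000), (nat_lit 200)), ((nat_lit 612), (nat_lit 1000), (nat_lit 732))], ((nat_lit 0), (nat_lit 0), (nat_lit 0))⟩, (nat_lit 2341463), (nat_lit 300), (nat_lit 680), (nat_lit 66400002), (nat_lit 802233), [(nat_lit 7968000000), (nat_lit 11872000000), (nat_lit 16400000000)], [], [(nat_lit 55575040096), (nat_lit 54767751912), (nat_lit 55470224493), (nat_lit 54534217981), (nat_lit 52203169650), (nat_lit 51141138166), (nat_lit 51122903548), (nat_lit 49982631084)], (nat_lit 1271251), (nat_lit 1271251), (nat_lit 1271251), (nat_lit 1271251), (nat_lit 780000), (nat_lit 3072501), [(nat_lit 1695001), (nat_lit 1271251), (nat_lit 1271251)], [(nat_lit 29), (nat_lit 66), (nat_lit 483), (nat_lit 250), (nat_lit 10)]⟩⟩))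
noncomputable def c17_86 : Tr Lf :=
 (.trZ (nat_lit 0) (nat_lit 1) (nat_lit 3) (nat_lit 94) (nat_lit 62) (nat_lit 100) (nat_lit 150) (.spl (nat_lit 5) (nat_lit 120) (.leaf ⟨(nat_lit 0), (nat_lit 661), (nat_lit 0), (nat_lit 339), (nat_lit 0), (nat_lit 4811), (nat_lit 10746), (nat_lit 4479), (nat_lit 0), (nat_lit 0), (nat_lit 0), [], Pd.none, Pd.none, (nat_lit 0), (nat_lit 1), (nat_lit 0), (nat_lit 0), (nat_lit 6), (nat_lit 0), [⟨(nat_lit 0), (nat_lit 82), (nat_lit 44), (nat_lit 100), (nat_lit 1554936207)⟩], [], [⟨(nat_lit 0), (nat_lit 100), (nat_lit 92), (nat_lit 31), (nat_lit 115634616)⟩], [⟨(nat_lit 0), (nat_lit 89), (nat_lit 100), (nat_lit 43), (nat_lit 503044333)⟩],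
 ⟨⟨[(nat_lit 40), (nat_lit 80), (nat_lit 100)], [(nat_lit 0), (nat_lit 1598), (nat_lit 2533)], [((nat_lit 0), (nat_lit 0), (nat_lit 0)), ((nat_lit 1000), (nat_lit 625), (nat_lit 623)), ((nat_lit 1000), (nat_lit 604), (nat_lit 730))], ((nat_lit 60), (nat_lit 100), (nat_lit 78))⟩, (nat_lit 1483980), (nat_lit 214), (nat_lit 214), (nat_lit 0), (nat_lit 388134), [(nat_lit 2032000217), (nat_lit 4688000283), (nat_lit 6250000000)], [], [(nat_lit 23839367697), (nat_lit 24886844270), (nat_lit 25195104145), (nat_lit 26567711922), (nat_lit 28415078808), (nat_lit 29790871862), (nat_lit 29671162875), (nat_lit 30851086172)], (nat_lit 1271251), (nat_lit 1271251), (nat_lit 1017188), (nat_lit 1779376), (nat_lit 1271251), (nat_lit 1271251), [(nat_lit 490000), (nat_lit 1100000), (nat_lit 1442501)], [(nat_lit 3), (nat_lit 50), (nat_lit 272), (nat_lit 60), (nat_lit 9)]⟩,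
 ⟨⟨[(nat_lit 60), (nat_lit 120), (nat_lit 160)], [(nat_lit 0), (nat_lit 0), (nat_lit 3243)], [((nat_lit 0), (nat_lit 0), (nat_lit 0)), ((nat_lit 0), (nat_lit 0), (nat_lit 0)), ((nat_lit 878), (nat_lit 1000), (nat_lit 945))], ((nat_lit 100), (nat_lit 96), (nat_lit 86))⟩, (nat_lit 2410377), (nat_lit 493), (nat_lit 493), (nat_lit 0), (nat_lit 453858), [(nat_lit 3282000000), (nat_lit 7968000000), (nat_lit 11872000000)], [], [(nat_lit 29641004233), (nat_lit 32242327710), (nat_lit 30628773020), (nat_lit 33647839317), (nat_lit 23224899490), (nat_lit 25157932162), (nat_lit 23962151522), (nat_lit 25486157240)], (nat_lit 1271251), (nat_lit 1271251), (nat_lit 1017188), (nat_lit 1779376), (nat_lit 0), (nat_lit 780000), [(nat_lit 780000), (nat_lit 1762501), (nat_lit 1271251)], [(nat_lit 12), (nat_lit 59), (nat_lit 401), (nat_lit 175), (nat_lit 10)]⟩,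
 ⟨⟨[(nat_lit 120), (nat_lit 160), (nat_lit 200)], [(nat_lit 0), (nat_lit 533), (nat_lit 3597)], [((nat_lit 0), (nat_lit 0), (nat_lit 0)), ((nat_lit 960), (nat_lit 1000), (nat_lit 200)), ((nat_lit 612), (nat_lit 1000), (nat_lit 732))], ((nat_lit 0), (nat_lit 0), (nat_lit 0))⟩, (nat_lit 793756), (nat_lit 300), (nat_lit 952), (nat_lit 22509601), (nat_lit 1197831), [(nat_lit 2701152000), (nat_lit 4024608000), (nat_lit 5559600000)], [], [(nat_lit 19517883991), (nat_lit 19239138805), (nat_lit 20151547092), (nat_lit 19758406185), (nat_lit 15836778086), (nat_lit 15379389401), (nat_lit 16118996042), (nat_lit 15747654474)], (nat_lit 1271251), (nat_lit 1271251), (nat_lit 1271251), (nat_lit 1271251), (nat_lit 0), (nat_lit 780000), [(nat_lit 1695001), (nat_lit 1271251), (nat_lit 1271251)], [(nat_lit 29), (nat_lit 66), (nat_lit 401), (nat_lit 175), (nat_lit 8)]⟩⟩) (.spl (nat_lit 3) (nat_lit 200) (.leaf ⟨(nat_lit 0), (nat_lit 336), (nat_lit 0), (nat_lit 664), (nat_lit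 0), (nat_lit 4729), (nat_lit 12533), (nat_lit 6491), (nat_lit 0), (nat_lit 0), (nat_lit 0), [], Pd.none, Pd.none, (nat_lit 0), (nat_lit 1), (nat_lit 0), (nat_lit 0), (nat_lit 6), (nat_lit 0), [⟨(nat_lit 0), (nat_lit 87), (nat_lit 53), (nat_lit 100), (nat_lit 2598797618)⟩, ⟨(nat_lit 0), (nat_lit 82), (nat_lit 44), (nat_lit 100), (nat_lit 1933945087)⟩], [], [], [],
 ⟨⟨[(nat_lit 40), (nat_lit 80), (nat_lit 100)], [(nat_lit 0), (nat_lit 1598), (nat_lit 2533)], [((nat_lit 0), (nat_lit 0), (nat_lit 0)), ((nat_lit 1000), (nat_lit 625), (nat_lit 623)), ((nat_lit 1000), (nat_lit 604), (nat_lit 730))], ((nat_lit 60), (nat_lit 100), (nat_lit 78))⟩, (nat_lit 1521186), (nat_lit 214), (nat_lit 214), (nat_lit 0), (nat_lit 388134), [(nat_lit 2032000271), (nat_lit 4688000556), (nat_lit 6250000000)], [], [(nat_lit 23922628772), (nat_lit 24960905967), (nat_lit 24618222788), (nat_lit 25581098086), (nat_lit 28322285312), (nat_lit 29685826792), (nat_lit 28925501213),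 (nat_lit 30183615849)], (nat_lit 1271251), (nat_lit 1271251), (nat_lit 1017188), (nat_lit 1440626), (nat_lit 1271251), (nat_lit 1271251), [(nat_lit 490000), (nat_lit 1100000), (nat_lit 1442501)], [(nat_lit 3), (nat_lit 50), (nat_lit 260), (nat_lit 50), (nat_lit 8)]⟩,
 ⟨⟨[(nat_lit 60), (nat_lit 120), (nat_lit 160)], [(nat_lit 0), (nat_lit 0), (nat_lit 3243)], [((nat_lit 0), (nat_lit 0), (nat_lit 0)), ((nat_lit 0), (nat_lit 0), (nat_lit 0)), ((nat_lit 878), (nat_lit 1000), (nat_lit 945))], ((nat_lit 100), (nat_lit 96), (nat_lit 86))⟩, (nat_lit 0), (nat_lit 417), (nat_lit 417), (nat_lit 0), (nat_lit 575425), [(nat_lit 3282000000), (nat_lit 7968000000), (nat_lit 11872000000)], [], [(nat_lit 26720443036), (nat_lit 30420956761), (nat_lit 27572122316), (nat_lit 30863878052), (nat_lit 39418526402), (nat_lit 40682584312), (nat_lit 46321781746), (nat_lit 39650983360)], (nat_lit 1271251), (nat_lit 1271251), (nat_lit 1017188), (nat_lit 1440626), (nat_lit 780000),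 (nat_lit 3072501), [(nat_lit 780000), (nat_lit 1762501), (nat_lit 1271251)], [(nat_lit 12), (nat_lit 59), (nat_lit 483), (nat_lit 250), (nat_lit 12)]⟩,
 ⟨⟨[(nat_lit 120), (nat_lit 160), (nat_lit 200)], [(nat_lit 0), (nat_lit 533), (nat_lit 3597)], [((nat_lit 0), (nat_lit 0), (nat_lit 0)), ((nat_lit 960), (nat_lit 1000), (nat_lit 200)), ((nat_lit 612), (nat_lit 1000), (nat_lit 732))], ((nat_lit 0), (nat_lit 0), (nat_lit 0))⟩, (nat_lit 1554732), (nat_lit 300), (nat_lit 1163), (nat_lit 44089600), (nat_lit 1852574), [(nat_lit 5290752000), (nat_lit 7883008000), (nat_lit 10889600000)], [], [(nat_lit 39000409280), (nat_lit 38221536732), (nat_lit 37840068179), (nat_lit 37031593842), (nat_lit 34621017677), (nat_lit 33819004202), (nat_lit 33457433839), (nat_lit 32676152289)], (nat_lit 1271251), (nat_lit 1271251), (nat_lit 1271251), (nat_lit 1271251), (nat_lit 780000), (nat_lit 3072501), [(nat_lit 1695001), (nat_lit 1271251), (nat_lit 1271251)], [(nat_lit 29),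 (nat_lit 66), (nat_lit 483), (nat_lit 250), (nat_lit 10)]⟩⟩) (.leaf ⟨(nat_lit 0), (nat_lit 634), (nat_lit 0), (nat_lit 366), (nat_lit 0), (nat_lit 4485), (nat_lit 8416), (nat_lit 3508), (nat_lit 0), (nat_lit 0), (nat_lit 0), [], Pd.none, Pd.none, (nat_lit 0), (nat_lit 1), (nat_lit 0), (nat_lit 0), (nat_lit 6), (nat_lit 0), [⟨(nat_lit 0), (nat_lit 82), (nat_lit 44), (nat_lit 100), (nat_lit 930246317)⟩], [⟨(nat_lit 1), (nat_lit 85), (nat_lit 53), (nat_lit 100), (nat_lit 336737627)⟩], [⟨(nat_lit 1), (nat_lit 50), (nat_lit 87), (nat_lit 100), (nat_lit 16767135)⟩], [],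
 ⟨⟨[(nat_lit 40), (nat_lit 80), (nat_lit 100)], [(nat_lit 0), (nat_lit 1598), (nat_lit 2533)], [((nat_lit 0), (nat_lit 0), (nat_lit 0)), ((nat_lit 1000), (nat_lit 625), (nat_lit 623)), ((nat_lit 1000), (nat_lit 604), (nat_lit 730))], ((nat_lit 60), (nat_lit 100), (nat_lit 78))⟩, (nat_lit 1581291), (nat_lit 204), (nat_lit 204), (nat_lit 0), (nat_lit 388134), [(nat_lit 2032000006), (nat_lit 4688000004), (nat_lit 6250000000)], [], [(nat_lit 24671846484), (nat_lit 25671717757), (nat_lit 25381802249), (nat_lit 26317245470), (nat_lit 28677085545), (nat_lit 29902847794), (nat_lit 29358046558), (nat_lit 30499338937)], (nat_lit 1271251), (nat_lit 1271251), (nat_lit 1271251), (nat_lit 1271251), (nat_lit 1271251), (nat_lit 1271251), [(nat_lit 490000), (nat_lit 1100000), (nat_lit 1442501)], [(nat_lit 3), (nat_lit 50), (nat_lit 203), (nat_lit 0), (nat_lit 6)]⟩,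
 ⟨⟨[(nat_lit 60), (nat_lit 120), (nat_lit 160)], [(nat_lit 0), (nat_lit 0), (nat_lit 3243)], [((nat_lit 0), (nat_lit 0), (nat_lit 0)), ((nat_lit 0), (nat_lit 0), (nat_lit 0)), ((nat_lit 878), (nat_lit 1000), (nat_lit 945))], ((nat_lit 100), (nat_lit 96), (nat_lit 86))⟩, (nat_lit 1657937), (nat_lit 403), (nat_lit 403), (nat_lit 0), (nat_lit 575425), [(nat_lit 3282000000), (nat_lit 7968000000), (nat_lit 11872000000)], [], [(nat_lit 28202923989), (nat_lit 29976377365), (nat_lit 28814885517), (nat_lit 30416378181), (nat_lit 38732200192), (nat_lit 35205400965), (nat_lit 34242570832), (nat_lit 35054297216)], (nat_lit 1271251), (nat_lit 1271251), (nat_lit 1271251), (nat_lit 1271251), (nat_lit 780000), (nat_lit 3072501), [(nat_lit 780000), (nat_lit 1762501), (nat_lit 1271251)], [(nat_lit 12), (nat_lit 59), (nat_lit 483), (nat_lit 250), (nat_lit 12)]⟩,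
 ⟨⟨[(nat_lit 120), (nat_lit 160), (nat_lit 200)], [(nat_lit 0), (nat_lit 533), (nat_lit 3597)], [((nat_lit 0), (nat_lit 0), (nat_lit 0)), ((nat_lit 960), (nat_lit 1000), (nat_lit 200)), ((nat_lit 612), (nat_lit 1000), (nat_lit 732))], ((nat_lit 0), (nat_lit 0), (nat_lit 0))⟩, (nat_lit 856976), (nat_lit 300), (nat_lit 1163), (nat_lit 24302400), (nat_lit 1852574), [(nat_lit 2916288000), (nat_lit 4345152000), (nat_lit 6002400000)], [], [(nat_lit 21905487177), (nat_lit 21487851499), (nat_lit 21287346096), (nat_lit 20853596080), (nat_lit 19562146258), (nat_lit 19114827382), (nat_lit 18815691660), (nat_lit 18369090839)], (nat_lit 1271251), (nat_lit 1271251), (nat_lit 1271251), (nat_lit 1271251), (nat_lit 780000), (nat_lit 3072501), [(nat_lit 1695001), (nat_lit 1271251), (nat_lit 1271251)], [(nat_lit 29), (nat_lit 66), (nat_lit 483), (nat_lit 250), (nat_lit 10)]⟩⟩))))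
noncomputable def c17_87 : Tr Lf :=
 (.spl (nat_lit 5) (nat_lit 200) (.spl (nat_lit 5) (nat_lit 120) (.spl (nat_lit 1) (nat_lit 260) (.leaf ⟨(nat_lit 799), (nat_lit 201), (nat_lit 0), (nat_lit 0), (nat_lit 0), (nat_lit 3480), (nat_lit 2106), (nat_lit 0), (nat_lit 0), (nat_lit 0), (nat_lit 399400), [((nat_lit 380), [((nat_lit 25), (nat_lit 1), (nat_lit 400)), ((nat_lit 41), (nat_lit 2), (nat_lit 399))])], ⟨(nat_lit 6), false, true, true, (nat_lit 270), (nat_lit 2236), (nat_lit 3163), [(nat_lit 1605240), (nat_lit 1602541), (nat_lit 1627331), (nat_lit 1625251), (nat_lit 1727168), (nat_lit 1716594), (nat_lit 1749323), (nat_lit 1739368)]⟩, ⟨(nat_lit 3), false, false, true, (nat_lit 149), (nat_lit 2236), (nat_lit 3163), [(nat_lit 1289472), (nat_lit 1294870), (nat_lit 1333702), (nat_lit 1340339), (nat_lit 1411379), (nat_lit 1408901), (nat_lit 1455689), (nat_lit 1454450)]⟩, (nat_lit 4879040), (nat_lit 40213996), (nat_lit 19263243), (nat_lit 7522761), (nat_lit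 3), (nat_lit 0), [], [], [], [⟨(nat_lit 0), (nat_lit 100), (nat_lit 80), (nat_lit 60), (nat_lit 41168565)⟩],
 ⟨⟨[(nat_lit 40), (nat_lit 80), (nat_lit 100)], [(nat_lit 0), (nat_lit 1598), (nat_lit 2533)], [((nat_lit 0), (nat_lit 0), (nat_lit 0)), ((nat_lit 1000), (nat_lit 625), (nat_lit 623)), ((nat_lit 1000), (nat_lit 604), (nat_lit 730))], ((nat_lit 60), (nat_lit 100), (nat_lit 78))⟩, (nat_lit 0), (nat_lit 180), (nat_lit 180), (nat_lit 0), (nat_lit 299787), [(nat_lit 1430823693), (nat_lit 1302660909), (nat_lit 1337284400)], [(nat_lit 0), (nat_lit 0), (nat_lit 0)], [(nat_lit 23646206562), (nat_lit 24646607622), (nat_lit 26232999162), (nat_lit 27089497762), (nat_lit 24661123962), (nat_lit 25559190242), (nat_lit 26976575242), (nat_lit 27766324080)], (nat_lit 1271251), (nat_lit 1271251), (nat_lit 1271251), (nat_lit 1271251), (nat_lit 780000), (nat_lit 1435001), [(nat_lit 490000), (nat_lit 1100000), (nat_lit 1442501)], [(nat_lit 3), (nat_lit 50), (nat_lit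 260), (nat_lit 50), (nat_lit 8)]⟩,
 ⟨⟨[(nat_lit 80), (nat_lit 140), (nat_lit 180)], [(nat_lit 0), (nat_lit 0), (nat_lit 3656)], [((nat_lit 0), (nat_lit 0), (nat_lit 0)), ((nat_lit 0), (nat_lit 0), (nat_lit 0)), ((nat_lit 637), (nat_lit 1000), (nat_lit 908))], ((nat_lit 100), (nat_lit 78), (nat_lit 80))⟩, (nat_lit 367158), (nat_lit 586), (nat_lit 586), (nat_lit 0), (nat_lit 569419), [(nat_lit 942288000), (nat_lit 1978242000), (nat_lit 2825658000)], [], [(nat_lit 8031648444), (nat_lit 8104966146), (nat_lit 8324919252), (nat_lit 8383567458), (nat_lit 6573597822), (nat_lit 6634498209), (nat_lit 6868240800), (nat_lit 6933204968)], (nat_lit 1271251), (nat_lit 1271251), (nat_lit 1271251), (nat_lit 1271251), (nat_lit 0), (nat_lit 780000), [(nat_lit 1100000), (nat_lit 2127501), (nat_lit 1271251)], [(nat_lit 19), (nat_lit 63), (nat_lit 401), (nat_lit 175), (nat_lit 9)]⟩,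
 Rw.none⟩) (.leaf ⟨(nat_lit 0), (nat_lit 1000), (nat_lit 0), (nat_lit 0), (nat_lit 0), (nat_lit 4508), (nat_lit 7797), (nat_lit 0), (nat_lit 0), (nat_lit 0), (nat_lit 0), [], Pd.none, Pd.none, (nat_lit 0), (nat_lit 1), (nat_lit 0), (nat_lit 0), (nat_lit 3), (nat_lit 0), [], [], [], [⟨(nat_lit 0), (nat_lit 100), (nat_lit 94), (nat_lit 21), (nat_lit 27941903)⟩],
 ⟨⟨[(nat_lit 40), (nat_lit 80), (nat_lit 100)], [(nat_lit 0), (nat_lit 1598), (nat_lit 2533)], [((nat_lit 0), (nat_lit 0), (nat_lit 0)), ((nat_lit 1000), (nat_lit 625), (nat_lit 623)), ((nat_lit 1000), (nat_lit 604), (nat_lit 730))], ((nat_lit 60), (nat_lit 100), (nat_lit 78))⟩, (nat_lit 1633117), (nat_lit 211), (nat_lit 211), (nat_lit 0), (nat_lit 358935), [(nat_lit 2032001504), (nat_lit 4688000504), (nat_lit 6250000000)], [], [(nat_lit 23569118257), (nat_lit 24694469633), (nat_lit 26924228508), (nat_lit 28384813702), (nat_lit 24403832397), (nat_lit 25407340372), (nat_lit 27539910492), (nat_lit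 28836942926)], (nat_lit 1271251), (nat_lit 1271251), (nat_lit 1271251), (nat_lit 1271251), (nat_lit 780000), (nat_lit 1435001), [(nat_lit 490000), (nat_lit 1100000), (nat_lit 1442501)], [(nat_lit 3), (nat_lit 50), (nat_lit 260), (nat_lit 50), (nat_lit 8)]⟩,
 ⟨⟨[(nat_lit 80), (nat_lit 120), (nat_lit 160)], [(nat_lit 0), (nat_lit 528), (nat_lit 2577)], [((nat_lit 0), (nat_lit 0), (nat_lit 0)), ((nat_lit 1000), (nat_lit 959), (nat_lit 206)), ((nat_lit 929), (nat_lit 1000), (nat_lit 742))], ((nat_lit 100), (nat_lit 87), (nat_lit 82))⟩, (nat_lit 6077938), (nat_lit 520), (nat_lit 520), (nat_lit 0), (nat_lit 585136), [(nat_lit 4688000000), (nat_lit 7968000000), (nat_lit 11872000000)], [], [(nat_lit 26367667361), (nat_lit 27120877598), (nat_lit 29267611574), (nat_lit 30599058986), (nat_lit 22455065375), (nat_lit 23001805268), (nat_lit 24660068675), (nat_lit 25180464962)], (nat_lit 1271251), (nat_lit 1271251), (nat_lit 1271251), (nat_lit 1271251), (nat_lit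 0), (nat_lit 780000), [(nat_lit 1100000), (nat_lit 1785001), (nat_lit 1271251)], [(nat_lit 18), (nat_lit 59), (nat_lit 428), (nat_lit 200), (nat_lit 11)]⟩,
 Rw.none⟩)) (.spl (nat_lit 0) (nat_lit 370) (.leaf ⟨(nat_lit 337), (nat_lit 590), (nat_lit 0), (nat_lit 73), (nat_lit 0), (nat_lit 4052), (nat_lit 4863), (nat_lit 846), (nat_lit 0), (nat_lit 0), (nat_lit 337000), [((nat_lit 370), [((nat_lit 25), (nat_lit 2), (nat_lit 337))])], ⟨(nat_lit 6), false, true, true, (nat_lit 275), (nat_lit 2738), (nat_lit 3163), [(nat_lit 1605257), (nat_lit 1603890), (nat_lit 1649542), (nat_lit 1648700), (nat_lit 1727168), (nat_lit 1722017), (nat_lit 1771478), (nat_lit 1766852)]⟩, ⟨(nat_lit 3), false, false, true, (nat_lit 149), (nat_lit 2738), (nat_lit 3163), [(nat_lit 1289472), (nat_lit 1292206), (nat_lit 1333771), (nat_lit 1337030), (nat_lit 1411379), (nat_lit 1410329), (nat_lit 1455689), (nat_lit 1455164)]⟩, (nat_lit 4896712), (nat_lit 39806334), (nat_lit 19735114),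 (nat_lit 7458552), (nat_lit 3), (nat_lit 0), [], [], [], [],
 ⟨⟨[(nat_lit 40), (nat_lit 80), (nat_lit 100)], [(nat_lit 0), (nat_lit 1598), (nat_lit 2533)], [((nat_lit 0), (nat_lit 0), (nat_lit 0)), ((nat_lit 1000), (nat_lit 625), (nat_lit 623)), ((nat_lit 1000), (nat_lit 604), (nat_lit 730))], ((nat_lit 60), (nat_lit 100), (nat_lit 78))⟩, (nat_lit 571622), (nat_lit 177), (nat_lit 177), (nat_lit 0), (nat_lit 300756), [(nat_lit 1696986189), (nat_lit 2415701375), (nat_lit 2829854400)], [(nat_lit 0), (nat_lit 0), (nat_lit 0)], [(nat_lit 22915839226), (nat_lit 23450802198), (nat_lit 26397320052), (nat_lit 27088554995), (nat_lit 23830487886), (nat_lit 24308492397), (nat_lit 27130764948), (nat_lit 27746372671)], (nat_lit 1271251), (nat_lit 1271251), (nat_lit 1271251), (nat_lit 1271251), (nat_lit 780000), (nat_lit 1435001), [(nat_lit 490000), (nat_lit 1100000), (nat_lit 1442501)], [(nat_lit 3), (nat_lit 50), (nat_lit 260), (nat_lit 50), (nat_lit 8)]⟩,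
 ⟨⟨[(nat_lit 80), (nat_lit 140), (nat_lit 180)], [(nat_lit 0), (nat_lit 0), (nat_lit 3656)], [((nat_lit 0), (nat_lit 0), (nat_lit 0)), ((nat_lit 0), (nat_lit 0), (nat_lit 0)), ((nat_lit 637), (nat_lit 1000), (nat_lit 908))], ((nat_lit 100), (nat_lit 78), (nat_lit 80))⟩, (nat_lit 1339683), (nat_lit 456), (nat_lit 456), (nat_lit 0), (nat_lit 569759), [(nat_lit 3108144000), (nat_lit 6525246000), (nat_lit 9320454000)], [], [(nat_lit 22999100250), (nat_lit 23761825230), (nat_lit 24524550210), (nat_lit 25260285438), (nat_lit 22773305550), (nat_lit 23418600744), (nat_lit 24294930750), (nat_lit 24966651276)], (nat_lit 1271251), (nat_lit 1271251), (nat_lit 1271251), (nat_lit 1271251), (nat_lit 780000), (nat_lit 1435001), [(nat_lit 1100000), (nat_lit 2127501), (nat_lit 1271251)], [(nat_lit 19), (nat_lit 63), (nat_lit 428), (nat_lit 200), (nat_lit 9)]⟩,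
 ⟨⟨[(nat_lit 140), (nat_lit 180), (nat_lit 200)], [(nat_lit 0), (nat_lit 0), (nat_lit 2835)], [((nat_lit 0), (nat_lit 0), (nat_lit 0)), ((nat_lit 0), (nat_lit 0), (nat_lit 0)), ((nat_lit 363), (nat_lit 1000), (nat_lit 798))], ((nat_lit 0), (nat_lit 0), (nat_lit 0))⟩, (nat_lit 20085), (nat_lit 300), (nat_lit 1873), (nat_lit 5701300), (nat_lit 3130723), [(nat_lit 718466000), (nat_lit 1026234000), (nat_lit 1197200000)], [], [(nat_lit 4923889725), (nat_lit 4785404081), (nat_lit 4666153242), (nat_lit 4528562033), (nat_lit 4666153242), (nat_lit 4528562033), (nat_lit 4409734284), (nat_lit 4799147384)], (nat_lit 780000), (nat_lit 1100000), (nat_lit 780000), (nat_lit 1435001), (nat_lit 780000), (nat_lit 1435001), [(nat_lit 1977501), (nat_lit 1271251), (nat_lit 1271251)], [(nat_lit 32), (nat_lit 67), (nat_lit 539), (nat_lit 150), (nat_lit 11)]⟩⟩) (.leaf ⟨(nat_lit 828), (nat_lit 146), (nat_lit 0), (nat_lit 26), (nat_lit 0), (nat_lit 3473), (nat_lit 1880), (nat_lit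 322), (nat_lit 0), (nat_lit 0), (nat_lit 331200), [((nat_lit 380), [((nat_lit 25), (nat_lit 1), (nat_lit 828))])], ⟨(nat_lit 6), false, true, true, (nat_lit 274), (nat_lit 2236), (nat_lit 2739), [(nat_lit 1603890), (nat_lit 1602558), (nat_lit 1648684), (nat_lit 1648065), (nat_lit 1722017), (nat_lit 1716594), (nat_lit 1766852), (nat_lit 1762142)]⟩, ⟨(nat_lit 3), false, false, true, (nat_lit 150), (nat_lit 2236), (nat_lit 2739), [(nat_lit 1292206), (nat_lit 1294870), (nat_lit 1337013), (nat_lit 1340391), (nat_lit 1410329), (nat_lit 1408901), (nat_lit 1455164), (nat_lit 1454450)]⟩, (nat_lit 4896151), (nat_lit 39882908), (nat_lit 19617044), (nat_lit 7500048), (nat_lit 3), (nat_lit 0), [], [], [], [],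
 ⟨⟨[(nat_lit 40), (nat_lit 80), (nat_lit 100)], [(nat_lit 0), (nat_lit 2008), (nat_lit 2969)], [((nat_lit 0), (nat_lit 0), (nat_lit 0)), ((nat_lit 1000), (nat_lit 540), (nat_lit 733)), ((nat_lit 1000), (nat_lit 536), (nat_lit 751))], ((nat_lit 53), (nat_lit 100), (nat_lit 79))⟩, (nat_lit 170203), (nat_lit 210), (nat_lit 210), (nat_lit 0), (nat_lit 355762), [(nat_lit 1453883229), (nat_lit 1606956177), (nat_lit 1832785600)], [(nat_lit 0), (nat_lit 0), (nat_lit 0)], [(nat_lit 24136921597), (nat_lit 24636696712), (nat_lit 26650637321), (nat_lit 27078564551), (nat_lit 25101969542), (nat_lit 25550648137), (nat_lit 27353756661), (nat_lit 27758902969)], (nat_lit 1271251), (nat_lit 1271251), (nat_lit 1271251), (nat_lit 1271251), (nat_lit 780000), (nat_lit 1435001), [(nat_lit 490000), (nat_lit 1100000), (nat_lit 1442501)], [(nat_lit 3), (nat_lit 50), (nat_lit 260), (nat_lit 50), (nat_lit 8)]⟩,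
 ⟨⟨[(nat_lit 80), (nat_lit 140), (nat_lit 180)], [(nat_lit 0), (nat_lit 0), (nat_lit 3656)], [((nat_lit 0), (nat_lit 0), (nat_lit 0)), ((nat_lit 0), (nat_lit 0), (nat_lit 0)), ((nat_lit 637), (nat_lit 1000), (nat_lit 908))], ((nat_lit 100), (nat_lit 78), (nat_lit 80))⟩, (nat_lit 300043), (nat_lit 554), (nat_lit 554), (nat_lit 0), (nat_lit 709116), [(nat_lit 806336000), (nat_lit 1692824000), (nat_lit 2417976000)], [], [(nat_lit 5463777744), (nat_lit 5566643896), (nat_lit 5669510048), (nat_lit 5767797992), (nat_lit 5162932808), (nat_lit 5239275248), (nat_lit 5369564328), (nat_lit 5450443956)], (nat_lit 1271251), (nat_lit 1271251), (nat_lit 1271251), (nat_lit 1271251), (nat_lit 780000), (nat_lit 1435001), [(nat_lit 1100000), (nat_lit 2127501), (nat_lit 1271251)], [(nat_lit 19), (nat_lit 63), (nat_lit 428), (nat_lit 200), (nat_lit 9)]⟩,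
 ⟨⟨[(nat_lit 140), (nat_lit 180), (nat_lit 200)], [(nat_lit 0), (nat_lit 0), (nat_lit 2835)], [((nat_lit 0), (nat_lit 0), (nat_lit 0)), ((nat_lit 0), (nat_lit 0), (nat_lit 0)), ((nat_lit 363), (nat_lit 1000), (nat_lit 798))], ((nat_lit 0), (nat_lit 0), (nat_lit 0))⟩, (nat_lit 7153), (nat_lit 300), (nat_lit 2282), (nat_lit 2030607), (nat_lit 3932896), [(nat_lit 255892000), (nat_lit 365508000), (nat_lit 426400000)], [], [(nat_lit 1670261448), (nat_lit 1617425158), (nat_lit 1573800654), (nat_lit 1521177386), (nat_lit 1573800654), (nat_lit 1521177386), (nat_lit 1592407228), (nat_lit 1738338928)], (nat_lit 780000), (nat_lit 1100000), (nat_lit 780000), (nat_lit 1435001), (nat_lit 780000), (nat_lit 1435001), [(nat_lit 1977501), (nat_lit 1271251), (nat_lit 1271251)], [(nat_lit 32), (nat_lit 67), (nat_lit 641), (nat_lit 150), (nat_lit 13)]⟩⟩))) (.spl (nat_lit 1) (nat_lit 260) (.leaf ⟨(nat_lit 832), (nat_lit 139), (nat_lit 0), (nat_lit 29), (nat_lit 0), (nat_lit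 3453), (nat_lit 1669), (nat_lit 341), (nat_lit 0), (nat_lit 0), (nat_lit 395600), [((nat_lit 380), [((nat_lit 25), (nat_lit 1), (nat_lit 518)), ((nat_lit 41), (nat_lit 2), (nat_lit 314))])], ⟨(nat_lit 6), false, true, true, (nat_lit 270), (nat_lit 2236), (nat_lit 3163), [(nat_lit 1605240), (nat_lit 1602541), (nat_lit 1627331), (nat_lit 1625251), (nat_lit 1727168), (nat_lit 1716594), (nat_lit 1749323), (nat_lit 1739368)]⟩, ⟨(nat_lit 3), false, false, true, (nat_lit 149), (nat_lit 2236), (nat_lit 3163), [(nat_lit 1289472), (nat_lit 1294870), (nat_lit 1333702), (nat_lit 1340339), (nat_lit 1411379), (nat_lit 1408901), (nat_lit 1455689), (nat_lit 1454450)]⟩, (nat_lit 4879040), (nat_lit 40213996), (nat_lit 19263243), (nat_lit 7522761), (nat_lit 5), (nat_lit 0), [], [], [⟨(nat_lit 1), (nat_lit 55), (nat_lit 100), (nat_lit 99), (nat_lit 15664794)⟩], [⟨(nat_lit 1), (nat_lit 59), (nat_lit 94), (nat_lit 100), (nat_lit 21290530)⟩],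
 ⟨⟨[(nat_lit 40), (nat_lit 80), (nat_lit 100)], [(nat_lit 0), (nat_lit 1598), (nat_lit 2533)], [((nat_lit 0), (nat_lit 0), (nat_lit 0)), ((nat_lit 1000), (nat_lit 625), (nat_lit 623)), ((nat_lit 1000), (nat_lit 604), (nat_lit 730))], ((nat_lit 60), (nat_lit 100), (nat_lit 78))⟩, (nat_lit 0), (nat_lit 180), (nat_lit 180), (nat_lit 0), (nat_lit 299787), [(nat_lit 1424589114), (nat_lit 1264970053), (nat_lit 1299752000)], [(nat_lit 0), (nat_lit 0), (nat_lit 0)], [(nat_lit 23623316533), (nat_lit 24620435824), (nat_lit 26205368743), (nat_lit 27059382803), (nat_lit 24642966898), (nat_lit 25538298119), (nat_lit 26955040181), (nat_lit 27738071279)], (nat_lit 1271251), (nat_lit 1271251), (nat_lit 1271251), (nat_lit 1271251), (nat_lit 780000), (nat_lit 1435001), [(nat_lit 490000), (nat_lit 1100000), (nat_lit 1442501)], [(nat_lit 3), (nat_lit 50), (nat_lit 260), (nat_lit 50), (nat_lit 8)]⟩,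
 ⟨⟨[(nat_lit 80), (nat_lit 140), (nat_lit 180)], [(nat_lit 0), (nat_lit 0), (nat_lit 3656)], [((nat_lit 0), (nat_lit 0), (nat_lit 0)), ((nat_lit 0), (nat_lit 0), (nat_lit 0)), ((nat_lit 637), (nat_lit 1000), (nat_lit 908))], ((nat_lit 100), (nat_lit 78), (nat_lit 80))⟩, (nat_lit 310289), (nat_lit 470), (nat_lit 470), (nat_lit 0), (nat_lit 678871), [(nat_lit 787584000), (nat_lit 1653456000), (nat_lit 2361744000)], [], [(nat_lit 5090363760), (nat_lit 5175197497), (nat_lit 5429698708), (nat_lit 5487386079), (nat_lit 5913127781), (nat_lit 5962276657), (nat_lit 6109723287), (nat_lit 6137443404)], (nat_lit 1271251), (nat_lit 1271251), (nat_lit 1271251), (nat_lit 1271251), (nat_lit 1271251), (nat_lit 1271251), [(nat_lit 1100000), (nat_lit 2127501), (nat_lit 1271251)], [(nat_lit 19), (nat_lit 63), (nat_lit 483), (nat_lit 250), (nat_lit 10)]⟩,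
 ⟨⟨[(nat_lit 140), (nat_lit 180), (nat_lit 200)], [(nat_lit 0), (nat_lit 0), (nat_lit 2835)], [((nat_lit 0), (nat_lit 0), (nat_lit 0)), ((nat_lit 0), (nat_lit 0), (nat_lit 0)), ((nat_lit 363), (nat_lit 1000), (nat_lit 798))], ((nat_lit 0), (nat_lit 0), (nat_lit 0))⟩, (nat_lit 7979), (nat_lit 300), (nat_lit 1906), (nat_lit 2264900), (nat_lit 3282441), [(nat_lit 285418000), (nat_lit 407682000), (nat_lit 475600000)], [], [(nat_lit 1827159141), (nat_lit 1771512227), (nat_lit 1723274428), (nat_lit 1671068040), (nat_lit 1733135183), (nat_lit 1675487055), (nat_lit 1628539976), (nat_lit 1571252397)], (nat_lit 780000), (nat_lit 1100000), (nat_lit 780000), (nat_lit 1435001), (nat_lit 1271251), (nat_lit 1271251), [(nat_lit 1977501), (nat_lit 1271251), (nat_lit 1271251)], [(nat_lit 32), (nat_lit 67), (nat_lit 571), (nat_lit 200), (nat_lit 12)]⟩⟩) (.trX (nat_lit 5) (nat_lit 1) (nat_lit 2) (nat_lit 97) (nat_lit 49) (nat_lit 100) (nat_lit 380) (.leaf ⟨(nat_lit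 651), (nat_lit 310), (nat_lit 0), (nat_lit 39), (nat_lit 0), (nat_lit 3418), (nat_lit 2587), (nat_lit 452), (nat_lit 0), (nat_lit 0), (nat_lit 348950), [((nat_lit 380), [((nat_lit 25), (nat_lit 0), (nat_lit 119)), ((nat_lit 41), (nat_lit 2), (nat_lit 532))])], ⟨(nat_lit 6), false, true, true, (nat_lit 279), (nat_lit 2236), (nat_lit 3163), [(nat_lit 1627331), (nat_lit 1625251), (nat_lit 1649422), (nat_lit 1647962), (nat_lit 1749323), (nat_lit 1739368), (nat_lit 1771478), (nat_lit 1762142)]⟩, ⟨(nat_lit 3), false, false, true, (nat_lit 149), (nat_lit 2236), (nat_lit 3163), [(nat_lit 1289472), (nat_lit 1294870), (nat_lit 1333702), (nat_lit 1340339), (nat_lit 1411379), (nat_lit 1408901), (nat_lit 1455689), (nat_lit 1454450)]⟩, (nat_lit 4912228), (nat_lit 39481403), (nat_lit 20085697), (nat_lit 7432900), (nat_lit 5), (nat_lit 0), [], [], [⟨(nat_lit 1), (nat_lit 64), (nat_lit 98), (nat_lit 100), (nat_lit 95406265)⟩], [],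
 ⟨⟨[(nat_lit 40), (nat_lit 80), (nat_lit 100)], [(nat_lit 0), (nat_lit 1598), (nat_lit 2533)], [((nat_lit 0), (nat_lit 0), (nat_lit 0)), ((nat_lit 1000), (nat_lit 625), (nat_lit 623)), ((nat_lit 1000), (nat_lit 604), (nat_lit 730))], ((nat_lit 60), (nat_lit 100), (nat_lit 78))⟩, (nat_lit 437246), (nat_lit 211), (nat_lit 211), (nat_lit 0), (nat_lit 358935), [(nat_lit 1502239293), (nat_lit 1812192093), (nat_lit 2053242907)], [(nat_lit 0), (nat_lit 0), (nat_lit 0)], [(nat_lit 23271337663), (nat_lit 24264202809), (nat_lit 25887235443), (nat_lit 26938594617), (nat_lit 24297123353), (nat_lit 25188993869), (nat_lit 26763920806), (nat_lit 27701615821)], (nat_lit 1271251), (nat_lit 1271251), (nat_lit 1271251), (nat_lit 1271251), (nat_lit 780000), (nat_lit 1435001), [(nat_lit 490000), (nat_lit 1100000), (nat_lit 1442501)], [(nat_lit 3), (nat_lit 50), (nat_lit 260), (nat_lit 50), (nat_lit 8)]⟩,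
 ⟨⟨[(nat_lit 80), (nat_lit 120), (nat_lit 160)], [(nat_lit 0), (nat_lit 528), (nat_lit 2577)], [((nat_lit 0), (nat_lit 0), (nat_lit 0)), ((nat_lit 1000), (nat_lit 959), (nat_lit 206)), ((nat_lit 929), (nat_lit 1000), (nat_lit 742))], ((nat_lit 100), (nat_lit 87), (nat_lit 82))⟩, (nat_lit 932275), (nat_lit 415), (nat_lit 415), (nat_lit 0), (nat_lit 695161), [(nat_lit 1636112000), (nat_lit 2780832000), (nat_lit 4143328000)], [], [(nat_lit 9470857127), (nat_lit 9620362505), (nat_lit 10222989148), (nat_lit 10396649385), (nat_lit 11132417124), (nat_lit 11248218925), (nat_lit 11680152599), (nat_lit 11795954400)], (nat_lit 1271251), (nat_lit 1271251), (nat_lit 1271251), (nat_lit 1271251), (nat_lit 1271251), (nat_lit 1271251), [(nat_lit 1100000), (nat_lit 1785001), (nat_lit 1271251)], [(nat_lit 18), (nat_lit 59), (nat_lit 483), (nat_lit 250), (nat_lit 11)]⟩,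
 ⟨⟨[(nat_lit 140), (nat_lit 180), (nat_lit 200)], [(nat_lit 0), (nat_lit 0), (nat_lit 2835)], [((nat_lit 0), (nat_lit 0), (nat_lit 0)), ((nat_lit 0), (nat_lit 0), (nat_lit 0)), ((nat_lit 363), (nat_lit 1000), (nat_lit 798))], ((nat_lit 0), (nat_lit 0), (nat_lit 0))⟩, (nat_lit 10730), (nat_lit 300), (nat_lit 2241), (nat_lit 3045903), (nat_lit 3932896), [(nat_lit 383838000), (nat_lit 548262000), (nat_lit 639600000)], [], [(nat_lit 2492731656), (nat_lit 2419218523), (nat_lit 2355534546), (nat_lit 2282492516), (nat_lit 2353603464), (nat_lit 2277168263), (nat_lit 2211900832), (nat_lit 2136059183)], (nat_lit 780000), (nat_lit 1100000), (nat_lit 780000), (nat_lit 1435001), (nat_lit 1271251), (nat_lit 1271251), [(nat_lit 1977501), (nat_lit 1271251), (nat_lit 1271251)], [(nat_lit 32), (nat_lit 67), (nat_lit 653), (nat_lit 200), (nat_lit 13)]⟩⟩))))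
noncomputable def c17_88 : Tr Lf :=
 (.trX (nat_lit 5) (nat_lit 3) (nat_lit 4) (nat_lit 80) (nat_lit 60) (nat_lit 100) (nat_lit 360) (.stt (nat_lit 2) (.leaf ⟨(nat_lit 0), (nat_lit 1000), (nat_lit 0), (nat_lit 0), (nat_lit 2607), (nat_lit 4773), (nat_lit 10206), (nat_lit 0), (nat_lit 0), (nat_lit 0), (nat_lit 0), [], Pd.none, Pd.none, (nat_lit 0), (nat_lit 1), (nat_lit 0), (nat_lit 0), (nat_lit 3), (nat_lit 0), [⟨(nat_lit 1), (nat_lit 68), (nat_lit 55), (nat_lit 100), (nat_lit 141481395)⟩], [], [], [⟨(nat_lit 1), (nat_lit 89), (nat_lit 68), (nat_lit 100), (nat_lit 154693611)⟩],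
 ⟨⟨[(nat_lit 40), (nat_lit 80), (nat_lit 100)], [(nat_lit 0), (nat_lit 1598), (nat_lit 2533)], [((nat_lit 0), (nat_lit 0), (nat_lit 0)), ((nat_lit 1000), (nat_lit 625), (nat_lit 623)), ((nat_lit 1000), (nat_lit 604), (nat_lit 730))], ((nat_lit 60), (nat_lit 100), (nat_lit 78))⟩, (nat_lit 1115659), (nat_lit 225), (nat_lit 225), (nat_lit 0), (nat_lit 359180), [(nat_lit 2032000161), (nat_lit 4688000022), (nat_lit 6250000000)], [], [(nat_lit 28066230263), (nat_lit 29101034522), (nat_lit 31250678006), (nat_lit 32507808296), (nat_lit 28502101535), (nat_lit 29424644409), (nat_lit 31355529489), (nat_lit 32476812825)], (nat_lit 1271251), (nat_lit 1271251), (nat_lit 1271251), (nat_lit 1271251), (nat_lit 780000), (nat_lit 1435001), [(nat_lit 490000), (nat_lit 1100000), (nat_lit 1442501)], [(nat_lit 3), (nat_lit 50), (nat_lit 260), (nat_lit 50), (nat_lit 8)]⟩,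
 ⟨⟨[(nat_lit 80), (nat_lit 140), (nat_lit 180)], [(nat_lit 0), (nat_lit 0), (nat_lit 3656)], [((nat_lit 0), (nat_lit 0), (nat_lit 0)), ((nat_lit 0), (nat_lit 0), (nat_lit 0)), ((nat_lit 637), (nat_lit 1000), (nat_lit 908))], ((nat_lit 100), (nat_lit 78), (nat_lit 80))⟩, (nat_lit 2019196), (nat_lit 287), (nat_lit 287), (nat_lit 0), (nat_lit 0), [(nat_lit 4688000000), (nat_lit 9842000000), (nat_lit 14058000000)], [], [(nat_lit 39641507656), (nat_lit 41436358316), (nat_lit 44725670728), (nat_lit 46006507187), (nat_lit 34137118836), (nat_lit 35135939906), (nat_lit 38244460227), (nat_lit 39522300682)], (nat_lit 0), (nat_lit 0), (nat_lit 0), (nat_lit 0), (nat_lit 0), (nat_lit 0), [], [(nat_lit 19), (nat_lit 63), (nat_lit 538), (nat_lit 300), (nat_lit 12)]⟩,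
 Rw.none⟩) (.spl (nat_lit 1) (nat_lit 260) (.trX (nat_lit 3) (nat_lit 0) (nat_lit 1) (nat_lit 63) (nat_lit 61) (nat_lit 100) (nat_lit 370) (.spl (nat_lit 5) (nat_lit 120) (.leaf ⟨(nat_lit 737), (nat_lit 242), (nat_lit 0), (nat_lit 21), (nat_lit 0), (nat_lit 3513), (nat_lit 2575), (nat_lit 344), (nat_lit 0), (nat_lit 0), (nat_lit 392000), [((nat_lit 380), [((nat_lit 25), (nat_lit 1), (nat_lit 251)), ((nat_lit 41), (nat_lit 2), (nat_lit 486))])], ⟨(nat_lit 8), false, true, true, (nat_lit 308), (nat_lit 2236), (nat_lit 3163), [(nat_lit 1727168), (nat_lit 1716594), (nat_lit 1749323), (nat_lit 1739368), (nat_lit 1803360), (nat_lit 1787863), (nat_lit 1825515), (nat_lit 1810637)]⟩, ⟨(nat_lit 3), false, false, true, (nat_lit 149), (nat_lit 2236), (nat_lit 3163), [(nat_lit 1289472), (nat_lit 1294870), (nat_lit 1333702), (nat_lit 1340339), (nat_lit 1411379), (nat_lit 1408901), (nat_lit 1455689), (nat_lit 1454450)]⟩, (nat_lit 4990325), (nat_lit 37134127), (nat_lit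 22739495), (nat_lit 7126378), (nat_lit 3), (nat_lit 0), [⟨(nat_lit 1), (nat_lit 71), (nat_lit 54), (nat_lit 100), (nat_lit 240781354)⟩], [], [], [⟨(nat_lit 0), (nat_lit 100), (nat_lit 70), (nat_lit 58), (nat_lit 98278622)⟩],
 ⟨⟨[(nat_lit 40), (nat_lit 80), (nat_lit 100)], [(nat_lit 0), (nat_lit 1598), (nat_lit 2533)], [((nat_lit 0), (nat_lit 0), (nat_lit 0)), ((nat_lit 1000), (nat_lit 625), (nat_lit 623)), ((nat_lit 1000), (nat_lit 604), (nat_lit 730))], ((nat_lit 60), (nat_lit 100), (nat_lit 78))⟩, (nat_lit 56992), (nat_lit 164), (nat_lit 164), (nat_lit 0), (nat_lit 191483), [(nat_lit 1454397628), (nat_lit 1446672598), (nat_lit 1526266802)], [(nat_lit 0), (nat_lit 0), (nat_lit 0)], [(nat_lit 26288344172), (nat_lit 27147879432), (nat_lit 28671523832), (nat_lit 29797499186), (nat_lit 27024470370), (nat_lit 27800566349), (nat_lit 29248016547), (nat_lit 30260096300)], (nat_lit 1271251), (nat_lit 1271251), (nat_lit 1271251), (nat_lit 1271251), (nat_lit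 780000), (nat_lit 1435001), [(nat_lit 490000), (nat_lit 1100000), (nat_lit 1442501)], [(nat_lit 3), (nat_lit 50), (nat_lit 260), (nat_lit 50), (nat_lit 8)]⟩,
 ⟨⟨[(nat_lit 80), (nat_lit 140), (nat_lit 180)], [(nat_lit 0), (nat_lit 0), (nat_lit 3656)], [((nat_lit 0), (nat_lit 0), (nat_lit 0)), ((nat_lit 0), (nat_lit 0), (nat_lit 0)), ((nat_lit 637), (nat_lit 1000), (nat_lit 908))], ((nat_lit 100), (nat_lit 78), (nat_lit 80))⟩, (nat_lit 456329), (nat_lit 573), (nat_lit 573), (nat_lit 0), (nat_lit 569419), [(nat_lit 1232944000), (nat_lit 2588446000), (nat_lit 3697254000)], [], [(nat_lit 11325271628), (nat_lit 11385994054), (nat_lit 11795839428), (nat_lit 11870322279), (nat_lit 9508748650), (nat_lit 9583117547), (nat_lit 9997782060), (nat_lit 10057866059)], (nat_lit 1271251), (nat_lit 1271251), (nat_lit 1271251), (nat_lit 1271251), (nat_lit 0), (nat_lit 780000), [(nat_lit 1100000), (nat_lit 2127501), (nat_lit 1271251)], [(nat_lit 19), (nat_lit 63), (nat_lit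 428), (nat_lit 200), (nat_lit 9)]⟩,
 ⟨⟨[(nat_lit 140), (nat_lit 180), (nat_lit 200)], [(nat_lit 0), (nat_lit 0), (nat_lit 2835)], [((nat_lit 0), (nat_lit 0), (nat_lit 0)), ((nat_lit 0), (nat_lit 0), (nat_lit 0)), ((nat_lit 363), (nat_lit 1000), (nat_lit 798))], ((nat_lit 0), (nat_lit 0), (nat_lit 0))⟩, (nat_lit 5778), (nat_lit 300), (nat_lit 1514), (nat_lit 1640100), (nat_lit 2212040), [(nat_lit 206682000), (nat_lit 295218000), (nat_lit 344400000)], [], [(nat_lit 1646893427), (nat_lit 1453955213), (nat_lit 1396371974), (nat_lit 1342662864), (nat_lit 1180467385), (nat_lit 1123436569), (nat_lit 1079278124), (nat_lit 1209902684)], (nat_lit 780000), (nat_lit 1100000), (nat_lit 780000), (nat_lit 1435001), (nat_lit 0), (nat_lit 780000), [(nat_lit 1977501), (nat_lit 1271251), (nat_lit 1271251)], [(nat_lit 32), (nat_lit 67), (nat_lit 439), (nat_lit 125), (nat_lit 10)]⟩⟩) (.spl (nat_lit 4) (nat_lit 160) (.trX (nat_lit 5) (nat_lit 3) (nat_lit 4) (nat_lit 82)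 (nat_lit 76) (nat_lit 100) (nat_lit 340) (.leaf ⟨(nat_lit 804), (nat_lit 140), (nat_lit 0), (nat_lit 56), (nat_lit 0), (nat_lit 3445), (nat_lit 2004), (nat_lit 600), (nat_lit 0), (nat_lit 0), (nat_lit 415600), [((nat_lit 380), [((nat_lit 25), (nat_lit 1), (nat_lit 334)), ((nat_lit 41), (nat_lit 2), (nat_lit 470))])], ⟨(nat_lit 8), false, true, true, (nat_lit 308), (nat_lit 2236), (nat_lit 3163), [(nat_lit 1727168), (nat_lit 1716594), (nat_lit 1749323), (nat_lit 1739368), (nat_lit 1803360), (nat_lit 1787863), (nat_lit 1825515), (nat_lit 1810637)]⟩, ⟨(nat_lit 3), false, false, false, (nat_lit 138), (nat_lit 2236), (nat_lit 3163), [(nat_lit 1289472), (nat_lit 1294870), (nat_lit 1333702), (nat_lit 1340339), (nat_lit 1350426), (nat_lit 1351886), (nat_lit 1394735), (nat_lit 1397434)]⟩, (nat_lit 4880012), (nat_lit 37665139), (nat_lit 22994668), (nat_lit 6340193), (nat_lit 3), (nat_lit 0), [⟨(nat_lit 1), (nat_lit 71), (nat_lit 54), (nat_lit 100), (nat_lit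 394583784)⟩], [], [], [],
 ⟨⟨[(nat_lit 40), (nat_lit 80), (nat_lit 100)], [(nat_lit 0), (nat_lit 1598), (nat_lit 2533)], [((nat_lit 0), (nat_lit 0), (nat_lit 0)), ((nat_lit 1000), (nat_lit 625), (nat_lit 623)), ((nat_lit 1000), (nat_lit 604), (nat_lit 730))], ((nat_lit 60), (nat_lit 100), (nat_lit 78))⟩, (nat_lit 8747), (nat_lit 164), (nat_lit 164), (nat_lit 0), (nat_lit 191483), [(nat_lit 1422497803), (nat_lit 1212534426), (nat_lit 1194908800)], [(nat_lit 0), (nat_lit 0), (nat_lit 0)], [(nat_lit 26025813612), (nat_lit 26974418393), (nat_lit 28568492289), (nat_lit 29685151099), (nat_lit 26182469032), (nat_lit 26998231925), (nat_lit 28523265127), (nat_lit 29590308291)], (nat_lit 1271251), (nat_lit 1271251), (nat_lit 1271251), (nat_lit 1271251), (nat_lit 780000), (nat_lit 1100000), [(nat_lit 490000), (nat_lit 1100000), (nat_lit 1442501)], [(nat_lit 3), (nat_lit 50), (nat_lit 249), (nat_lit 40), (nat_lit 7)]⟩,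
 ⟨⟨[(nat_lit 80), (nat_lit 140), (nat_lit 180)], [(nat_lit 0), (nat_lit 0), (nat_lit 3656)], [((nat_lit 0), (nat_lit 0), (nat_lit 0)), ((nat_lit 0), (nat_lit 0), (nat_lit 0)), ((nat_lit 637), (nat_lit 1000), (nat_lit 908))], ((nat_lit 100), (nat_lit 78), (nat_lit 80))⟩, (nat_lit 347224), (nat_lit 496), (nat_lit 496), (nat_lit 0), (nat_lit 678871), [(nat_lit 918848000), (nat_lit 1929032000), (nat_lit 2755368000)], [], [(nat_lit 6837493952), (nat_lit 6901188486), (nat_lit 7217868787), (nat_lit 7261313266), (nat_lit 6736482464), (nat_lit 6747772048), (nat_lit 7118947054), (nat_lit 7163789206)], (nat_lit 1271251), (nat_lit 1271251), (nat_lit 1271251), (nat_lit 1271251), (nat_lit 780000), (nat_lit 2581251), [(nat_lit 1100000), (nat_lit 2127501), (nat_lit 1271251)], [(nat_lit 19), (nat_lit 63), (nat_lit 483), (nat_lit 250), (nat_lit 10)]⟩,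
 ⟨⟨[(nat_lit 140), (nat_lit 180), (nat_lit 200)], [(nat_lit 0), (nat_lit 0), (nat_lit 2835)], [((nat_lit 0), (nat_lit 0), (nat_lit 0)), ((nat_lit 0), (nat_lit 0), (nat_lit 0)), ((nat_lit 363), (nat_lit 1000), (nat_lit 798))], ((nat_lit 0), (nat_lit 0), (nat_lit 0))⟩, (nat_lit 15407), (nat_lit 300), (nat_lit 1436), (nat_lit 4373606), (nat_lit 2212040), [(nat_lit 551152000), (nat_lit 787248000), (nat_lit 918400000)], [], [(nat_lit 4140485693), (nat_lit 4047374642), (nat_lit 4041328188), (nat_lit 3948776504), (nat_lit 3784887412), (nat_lit 4077474812), (nat_lit 4073942912), (nat_lit 4373691912)], (nat_lit 780000), (nat_lit 1100000), (nat_lit 780000), (nat_lit 1100000), (nat_lit 780000), (nat_lit 2581251), [(nat_lit 1977501), (nat_lit 1271251), (nat_lit 1271251)], [(nat_lit 32), (nat_lit 67), (nat_lit 442), (nat_lit 175), (nat_lit 9)]⟩⟩)) (.leaf ⟨(nat_lit 797), (nat_lit 151), (nat_lit 0), (nat_lit 52), (nat_lit 0), (nat_lit 3417), (nat_lit 2019), (nat_lit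 614), (nat_lit 0), (nat_lit 0), (nat_lit 413600), [((nat_lit 380), [((nat_lit 25), (nat_lit 1), (nat_lit 323)), ((nat_lit 41), (nat_lit 2), (nat_lit 474))])], ⟨(nat_lit 8), false, true, true, (nat_lit 308), (nat_lit 2236), (nat_lit 3163), [(nat_lit 1727168), (nat_lit 1716594), (nat_lit 1749323), (nat_lit 1739368), (nat_lit 1803360), (nat_lit 1787863), (nat_lit 1825515), (nat_lit 1810637)]⟩, ⟨(nat_lit 4), false, false, true, (nat_lit 161), (nat_lit 2236), (nat_lit 3163), [(nat_lit 1350426), (nat_lit 1351886), (nat_lit 1394735), (nat_lit 1397434), (nat_lit 1411379), (nat_lit 1408901), (nat_lit 1455689), (nat_lit 1454450)]⟩, (nat_lit 5093885), (nat_lit 36592002), (nat_lit 22475020), (nat_lit 7932978), (nat_lit 4), (nat_lit 0), [⟨(nat_lit 1), (nat_lit 71), (nat_lit 54), (nat_lit 100), (nat_lit 365894406)⟩], [], [], [],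
 ⟨⟨[(nat_lit 40), (nat_lit 80), (nat_lit 100)], [(nat_lit 0), (nat_lit 1598), (nat_lit 2533)], [((nat_lit 0), (nat_lit 0), (nat_lit 0)), ((nat_lit 1000), (nat_lit 625), (nat_lit 623)), ((nat_lit 1000), (nat_lit 604), (nat_lit 730))], ((nat_lit 60), (nat_lit 100), (nat_lit 78))⟩, (nat_lit 0), (nat_lit 150), (nat_lit 150), (nat_lit 0), (nat_lit 191483), [(nat_lit 1425054833), (nat_lit 1234769367), (nat_lit 1225734033)], [(nat_lit 0), (nat_lit 0), (nat_lit 0)], [(nat_lit 26334651149), (nat_lit 27146905681), (nat_lit 28487520964), (nat_lit 29550993544), (nat_lit 26931184279), (nat_lit 27700574237), (nat_lit 29132877123), (nat_lit 30133919168)], (nat_lit 1271251), (nat_lit 1271251), (nat_lit 1271251), (nat_lit 1271251), (nat_lit 1100000), (nat_lit 1442501), [(nat_lit 490000), (nat_lit 1100000), (nat_lit 1442501)], [(nat_lit 3), (nat_lit 50), (nat_lit 260), (nat_lit 50), (nat_lit 8)]⟩,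
 ⟨⟨[(nat_lit 80), (nat_lit 140), (nat_lit 180)], [(nat_lit 0), (nat_lit 0), (nat_lit 3656)], [((nat_lit 0), (nat_lit 0), (nat_lit 0)), ((nat_lit 0), (nat_lit 0), (nat_lit 0)), ((nat_lit 637), (nat_lit 1000), (nat_lit 908))], ((nat_lit 100), (nat_lit 78), (nat_lit 80))⟩, (nat_lit 342924), (nat_lit 496), (nat_lit 496), (nat_lit 0), (nat_lit 678871), [(nat_lit 951664000), (nat_lit 1997926000), (nat_lit 2853774000)], [], [(nat_lit 7286259530), (nat_lit 7323431681), (nat_lit 7630709471), (nat_lit 7676592797), (nat_lit 7254759520), (nat_lit 7262152448), (nat_lit 7615113687), (nat_lit 7669707056)], (nat_lit 1271251), (nat_lit 1271251), (nat_lit 1271251), (nat_lit 1271251), (nat_lit 780000), (nat_lit 2745001), [(nat_lit 1100000), (nat_lit 2127501), (nat_lit 1271251)], [(nat_lit 19), (nat_lit 63), (nat_lit 483), (nat_lit 250), (nat_lit 10)]⟩,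
 ⟨⟨[(nat_lit 140), (nat_lit 180), (nat_lit 200)], [(nat_lit 0), (nat_lit 0), (nat_lit 2835)], [((nat_lit 0), (nat_lit 0), (nat_lit 0)), ((nat_lit 0), (nat_lit 0), (nat_lit 0)), ((nat_lit 363), (nat_lit 1000), (nat_lit 798))], ((nat_lit 0), (nat_lit 0), (nat_lit 0))⟩, (nat_lit 14307), (nat_lit 300), (nat_lit 1414), (nat_lit 4061200), (nat_lit 2212040), [(nat_lit 511784000), (nat_lit 731016000), (nat_lit 852800000)], [], [(nat_lit 3340202544), (nat_lit 3239937372), (nat_lit 3262525758), (nat_lit 3162232752), (nat_lit 2983723404), (nat_lit 2881088988), (nat_lit 2905939086), (nat_lit 2901317906)], (nat_lit 780000), (nat_lit 1100000), (nat_lit 1100000), (nat_lit 1442501), (nat_lit 780000), (nat_lit 2745001), [(nat_lit 1977501), (nat_lit 1271251), (nat_lit 1271251)], [(nat_lit 32), (nat_lit 67), (nat_lit 444), (nat_lit 200), (nat_lit 9)]⟩⟩)))) (.spl (nat_lit 1) (nat_lit 270) (.trX (nat_lit 3) (nat_lit 0) (nat_lit 1) (nat_lit 64) (nat_lit 58) (nat_lit 100)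 (nat_lit 370) (.leaf ⟨(nat_lit 653), (nat_lit 281), (nat_lit 0), (nat_lit 66), (nat_lit 0), (nat_lit 3491), (nat_lit 2536), (nat_lit 708), (nat_lit 0), (nat_lit 0), (nat_lit 349450), [((nat_lit 380), [((nat_lit 25), (nat_lit 0), (nat_lit 121)), ((nat_lit 41), (nat_lit 2), (nat_lit 532))])], ⟨(nat_lit 8), false, true, true, (nat_lit 315), (nat_lit 2236), (nat_lit 3163), [(nat_lit 1749323), (nat_lit 1739368), (nat_lit 1760401), (nat_lit 1750755), (nat_lit 1825515), (nat_lit 1810637), (nat_lit 1836592), (nat_lit 1822025)]⟩, ⟨(nat_lit 3), false, false, true, (nat_lit 149), (nat_lit 2236), (nat_lit 3163), [(nat_lit 1289472), (nat_lit 1294870), (nat_lit 1333702), (nat_lit 1340339), (nat_lit 1411379), (nat_lit 1408901), (nat_lit 1455689), (nat_lit 1454450)]⟩, (nat_lit 5002068), (nat_lit 36608171), (nat_lit 23337788), (nat_lit 7054041), (nat_lit 3), (nat_lit 0), [⟨(nat_lit 1), (nat_lit 67), (nat_lit 56), (nat_lit 100), (nat_lit 269743404)⟩], [], [], [],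
 ⟨⟨[(nat_lit 40), (nat_lit 80), (nat_lit 100)], [(nat_lit 0), (nat_lit 1598), (nat_lit 2533)], [((nat_lit 0), (nat_lit 0), (nat_lit 0)), ((nat_lit 1000), (nat_lit 625), (nat_lit 623)), ((nat_lit 1000), (nat_lit 604), (nat_lit 730))], ((nat_lit 60), (nat_lit 100), (nat_lit 78))⟩, (nat_lit 293076), (nat_lit 168), (nat_lit 168), (nat_lit 0), (nat_lit 206332), [(nat_lit 1501050534), (nat_lit 1806251208), (nat_lit 2044974592)], [(nat_lit 0), (nat_lit 0), (nat_lit 0)], [(nat_lit 26281879850), (nat_lit 27139390670), (nat_lit 28638190098), (nat_lit 29761151276), (nat_lit 27022972636), (nat_lit 27796115444), (nat_lit 29221630429), (nat_lit 30231180707)], (nat_lit 1271251), (nat_lit 1271251), (nat_lit 1271251), (nat_lit 1271251), (nat_lit 780000), (nat_lit 1435001), [(nat_lit 490000), (nat_lit 1100000), (nat_lit 1442501)], [(nat_lit 3), (nat_lit 50), (nat_lit 260), (nat_lit 50), (nat_lit 8)]⟩,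
 ⟨⟨[(nat_lit 80), (nat_lit 120), (nat_lit 160)], [(nat_lit 0), (nat_lit 528), (nat_lit 2577)], [((nat_lit 0), (nat_lit 0), (nat_lit 0)), ((nat_lit 1000), (nat_lit 959), (nat_lit 206)), ((nat_lit 929), (nat_lit 1000), (nat_lit 742))], ((nat_lit 100), (nat_lit 87), (nat_lit 82))⟩, (nat_lit 951549), (nat_lit 550), (nat_lit 550), (nat_lit 0), (nat_lit 681477), [(nat_lit 1626736000), (nat_lit 2764896000), (nat_lit 4119584000)], [], [(nat_lit 12495695357), (nat_lit 12573016498), (nat_lit 13182104255), (nat_lit 13243115035), (nat_lit 11713267026), (nat_lit 11752832440), (nat_lit 12147489506), (nat_lit 12175993893)], (nat_lit 1271251), (nat_lit 1271251), (nat_lit 1271251), (nat_lit 1271251), (nat_lit 0), (nat_lit 2542501), [(nat_lit 1100000), (nat_lit 1785001), (nat_lit 1271251)], [(nat_lit 18), (nat_lit 59), (nat_lit 401), (nat_lit 175), (nat_lit 10)]⟩,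
 ⟨⟨[(nat_lit 140), (nat_lit 180), (nat_lit 200)], [(nat_lit 0), (nat_lit 0), (nat_lit 2835)], [((nat_lit 0), (nat_lit 0), (nat_lit 0)), ((nat_lit 0), (nat_lit 0), (nat_lit 0)), ((nat_lit 363), (nat_lit 1000), (nat_lit 798))], ((nat_lit 0), (nat_lit 0), (nat_lit 0))⟩, (nat_lit 18159), (nat_lit 300), (nat_lit 1598), (nat_lit 5154600), (nat_lit 2389092), [(nat_lit 649572000), (nat_lit 927828000), (nat_lit 1082400000)], [], [(nat_lit 5340799371), (nat_lit 5230324190), (nat_lit 5129667159), (nat_lit 5020177096), (nat_lit 4415106906), (nat_lit 4368749052), (nat_lit 4772742792), (nat_lit 5138307288)], (nat_lit 780000), (nat_lit 1100000), (nat_lit 780000), (nat_lit 1435001), (nat_lit 0), (nat_lit 2542501), [(nat_lit 1977501), (nat_lit 1271251), (nat_lit 1271251)], [(nat_lit 32), (nat_lit 67), (nat_lit 490), (nat_lit 200), (nat_lit 11)]⟩⟩)) (.leaf ⟨(nat_lit 599), (nat_lit 332), (nat_lit 0), (nat_lit 69), (nat_lit 0), (nat_lit 3534), (nat_lit 2624), (nat_lit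 700), (nat_lit 0), (nat_lit 0), (nat_lit 359400), [((nat_lit 380), [((nat_lit 41), (nat_lit 2), (nat_lit 599))])], ⟨(nat_lit 8), false, true, true, (nat_lit 322), (nat_lit 2236), (nat_lit 3163), [(nat_lit 1760401), (nat_lit 1750755), (nat_lit 1771478), (nat_lit 1762142), (nat_lit 1851831), (nat_lit 1836278), (nat_lit 1862908), (nat_lit 1847666)]⟩, ⟨(nat_lit 3), false, false, true, (nat_lit 149), (nat_lit 2236), (nat_lit 3163), [(nat_lit 1289472), (nat_lit 1294870), (nat_lit 1333702), (nat_lit 1340339), (nat_lit 1411379), (nat_lit 1408901), (nat_lit 1455689), (nat_lit 1454450)]⟩, (nat_lit 5012542), (nat_lit 36033322), (nat_lit 23993143), (nat_lit 6973535), (nat_lit 3), (nat_lit 0), [⟨(nat_lit 1), (nat_lit 64), (nat_lit 57), (nat_lit 100), (nat_lit 216027651)⟩], [], [], [⟨(nat_lit 1), (nat_lit 89), (nat_lit 68), (nat_lit 100), (nat_lit 1525149)⟩],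
 ⟨⟨[(nat_lit 40), (nat_lit 80), (nat_lit 100)], [(nat_lit 0), (nat_lit 1598), (nat_lit 2533)], [((nat_lit 0), (nat_lit 0), (nat_lit 0)), ((nat_lit 1000), (nat_lit 625), (nat_lit 623)), ((nat_lit 1000), (nat_lit 604), (nat_lit 730))], ((nat_lit 60), (nat_lit 100), (nat_lit 78))⟩, (nat_lit 291962), (nat_lit 175), (nat_lit 175), (nat_lit 0), (nat_lit 222774), [(nat_lit 1534809601), (nat_lit 1853227402), (nat_lit 2078324400)], [(nat_lit 0), (nat_lit 0), (nat_lit 0)], [(nat_lit 26314841709), (nat_lit 27176309389), (nat_lit 29284256769), (nat_lit 30380133068), (nat_lit 27046227073), (nat_lit 27822624465), (nat_lit 29794645962), (nat_lit 30780749132)], (nat_lit 1271251), (nat_lit 1271251), (nat_lit 1271251), (nat_lit 1271251), (nat_lit 780000), (nat_lit 1435001), [(nat_lit 490000), (nat_lit 1100000), (nat_lit 1442501)], [(nat_lit 3), (nat_lit 50), (nat_lit 260), (nat_lit 50), (nat_lit 8)]⟩,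
 ⟨⟨[(nat_lit 80), (nat_lit 120), (nat_lit 160)], [(nat_lit 0), (nat_lit 796), (nat_lit 2802)], [((nat_lit 0), (nat_lit 0), (nat_lit 0)), ((nat_lit 1000), (nat_lit 938), (nat_lit 310)), ((nat_lit 969), (nat_lit 1000), (nat_lit 759))], ((nat_lit 100), (nat_lit 91), (nat_lit 84))⟩, (nat_lit 1245885), (nat_lit 552), (nat_lit 552), (nat_lit 0), (nat_lit 691137), [(nat_lit 1879888000), (nat_lit 3195168000), (nat_lit 4760672000)], [], [(nat_lit 14377751739), (nat_lit 14454890982), (nat_lit 15138386874), (nat_lit 15198399750), (nat_lit 13666910765), (nat_lit 13695227997), (nat_lit 14063775780), (nat_lit 14081746136)], (nat_lit 1271251), (nat_lit 1271251), (nat_lit 1271251), (nat_lit 1271251), (nat_lit 0), (nat_lit 2542501), [(nat_lit 1100000), (nat_lit 1785001), (nat_lit 1271251)], [(nat_lit 18), (nat_lit 59), (nat_lit 401), (nat_lit 175), (nat_lit 10)]⟩,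
 ⟨⟨[(nat_lit 140), (nat_lit 180), (nat_lit 200)], [(nat_lit 0), (nat_lit 0), (nat_lit 2835)], [((nat_lit 0), (nat_lit 0), (nat_lit 0)), ((nat_lit 0), (nat_lit 0), (nat_lit 0)), ((nat_lit 363), (nat_lit 1000), (nat_lit 798))], ((nat_lit 0), (nat_lit 0), (nat_lit 0))⟩, (nat_lit 18984), (nat_lit 300), (nat_lit 1687), (nat_lit 5388902), (nat_lit 2584099), [(nat_lit 679098000), (nat_lit 970002000), (nat_lit 1131600000)], [], [(nat_lit 6003639448), (nat_lit 5897456266), (nat_lit 5800390637), (nat_lit 5695136404), (nat_lit 5111732649), (nat_lit 5009192962), (nat_lit 4915893264), (nat_lit 5282121664)], (nat_lit 780000), (nat_lit 1100000), (nat_lit 780000), (nat_lit 1435001), (nat_lit 0), (nat_lit 2542501), [(nat_lit 1977501), (nat_lit 1271251), (nat_lit 1271251)], [(nat_lit 32), (nat_lit 67), (nat_lit 512), (nat_lit 200), (nat_lit 11)]⟩⟩)))))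
noncomputable def c17_89 : Tr Lf :=
 (.spl (nat_lit 1) (nat_lit 260) (.trX (nat_lit 3) (nat_lit 0) (nat_lit 1) (nat_lit 63) (nat_lit 61) (nat_lit 100) (nat_lit 370) (.spl (nat_lit 6) (nat_lit 60) (.spl (nat_lit 3) (nat_lit 320) (.leaf ⟨(nat_lit 729), (nat_lit 234), (nat_lit 0), (nat_lit 37), (nat_lit 0), (nat_lit 3452), (nat_lit 2572), (nat_lit 521), (nat_lit 0), (nat_lit 0), (nat_lit 384000), [((nat_lit 380), [((nat_lit 25), (nat_lit 0), (nat_lit 48)), ((nat_lit 25), (nat_lit 1), (nat_lit 183)), ((nat_lit 41), (nat_lit 2), (nat_lit 498))])], ⟨(nat_lit 6), false, true, true, (nat_lit 270), (nat_lit 2236), (nat_lit 3163), [(nat_lit 1605240), (nat_lit 1602541), (nat_lit 1627331), (nat_lit 1625251), (nat_lit 1727168), (nat_lit 1716594), (nat_lit 1749323), (nat_lit 1739368)]⟩, ⟨(nat_lit 5), false, false, true, (nat_lit 200), (nat_lit 2236), (nat_lit 3163), [(nat_lit 1411379), (nat_lit 1408901), (nat_lit 1455689), (nat_lit 1454450), (nat_lit 1548524),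 (nat_lit 1537186), (nat_lit 1592834), (nat_lit 1582735)]⟩, (nat_lit 5285744), (nat_lit 37446260), (nat_lit 18291475), (nat_lit 11262265), (nat_lit 5), (nat_lit 0), [], [⟨(nat_lit 1), (nat_lit 100), (nat_lit 54), (nat_lit 98), (nat_lit 263852989)⟩], [], [⟨(nat_lit 0), (nat_lit 100), (nat_lit 94), (nat_lit 61), (nat_lit 44461136)⟩],
 ⟨⟨[(nat_lit 40), (nat_lit 80), (nat_lit 100)], [(nat_lit 0), (nat_lit 1598), (nat_lit 2533)], [((nat_lit 0), (nat_lit 0), (nat_lit 0)), ((nat_lit 1000), (nat_lit 625), (nat_lit 623)), ((nat_lit 1000), (nat_lit 604), (nat_lit 730))], ((nat_lit 61), (nat_lit 100), (nat_lit 72))⟩, (nat_lit 137594), (nat_lit 161), (nat_lit 161), (nat_lit 0), (nat_lit 297770), [(nat_lit 1458253748), (nat_lit 1501011218), (nat_lit 1607124400)], [(nat_lit 0), (nat_lit 0), (nat_lit 0)], [(nat_lit 24653988756), (nat_lit 25549218678), (nat_lit 26965936928), (nat_lit 27737029694), (nat_lit 26749295644), (nat_lit 27517866870), (nat_lit 29023945474),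 (nat_lit 29991910813)], (nat_lit 1271251), (nat_lit 1271251), (nat_lit 1271251), (nat_lit 1271251), (nat_lit 1271251), (nat_lit 1271251), [(nat_lit 490000), (nat_lit 1100000), (nat_lit 1442501)], [(nat_lit 3), (nat_lit 50), (nat_lit 203), (nat_lit 0), (nat_lit 6)]⟩,
 ⟨⟨[(nat_lit 80), (nat_lit 120), (nat_lit 160)], [(nat_lit 0), (nat_lit 0), (nat_lit 2132)], [((nat_lit 0), (nat_lit 0), (nat_lit 0)), ((nat_lit 0), (nat_lit 0), (nat_lit 0)), ((nat_lit 858), (nat_lit 1000), (nat_lit 713))], ((nat_lit 100), (nat_lit 85), (nat_lit 73))⟩, (nat_lit 792794), (nat_lit 555), (nat_lit 555), (nat_lit 0), (nat_lit 674449), [(nat_lit 1270448000), (nat_lit 2159328000), (nat_lit 3217312000)], [], [(nat_lit 8828915564), (nat_lit 8998857351), (nat_lit 9508682712), (nat_lit 9631110159), (nat_lit 7026217004), (nat_lit 7167425773), (nat_lit 7658469812), (nat_lit 7777667473)], (nat_lit 1271251), (nat_lit 1271251), (nat_lit 1271251), (nat_lit 1271251), (nat_lit 0), (nat_lit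 1412501), [(nat_lit 1100000), (nat_lit 1785001), (nat_lit 1271251)], [(nat_lit 18), (nat_lit 59), (nat_lit 428), (nat_lit 200), (nat_lit 11)]⟩,
 ⟨⟨[(nat_lit 140), (nat_lit 180), (nat_lit 200)], [(nat_lit 0), (nat_lit 0), (nat_lit 2835)], [((nat_lit 0), (nat_lit 0), (nat_lit 0)), ((nat_lit 0), (nat_lit 0), (nat_lit 0)), ((nat_lit 363), (nat_lit 1000), (nat_lit 798))], ((nat_lit 0), (nat_lit 0), (nat_lit 0))⟩, (nat_lit 10180), (nat_lit 300), (nat_lit 1970), (nat_lit 2889700), (nat_lit 3265152), [(nat_lit 364154000), (nat_lit 520146000), (nat_lit 606800000)], [], [(nat_lit 2512364632), (nat_lit 2423748732), (nat_lit 2440281194), (nat_lit 2349459474), (nat_lit 1923935956), (nat_lit 2146244168), (nat_lit 1845658190), (nat_lit 1759492055)], (nat_lit 780000), (nat_lit 1100000), (nat_lit 1271251), (nat_lit 1271251), (nat_lit 0), (nat_lit 1412501), [(nat_lit 1977501), (nat_lit 1271251), (nat_lit 1271251)], [(nat_lit 32), (nat_lit 67), (nat_lit 574), (nat_lit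 175), (nat_lit 12)]⟩⟩) (.trZ (nat_lit 3) (nat_lit 4) (nat_lit 5) (nat_lit 100) (nat_lit 80) (nat_lit 60) (nat_lit 40) (.leaf ⟨(nat_lit 490), (nat_lit 462), (nat_lit 0), (nat_lit 48), (nat_lit 0), (nat_lit 3603), (nat_lit 3804), (nat_lit 773), (nat_lit 0), (nat_lit 0), (nat_lit 294000), [((nat_lit 380), [((nat_lit 41), (nat_lit 2), (nat_lit 490))])], ⟨(nat_lit 8), false, true, true, (nat_lit 308), (nat_lit 2236), (nat_lit 3163), [(nat_lit 1727168), (nat_lit 1716594), (nat_lit 1749323), (nat_lit 1739368), (nat_lit 1803360), (nat_lit 1787863), (nat_lit 1825515), (nat_lit 1810637)]⟩, ⟨(nat_lit 5), false, false, true, (nat_lit 200), (nat_lit 2236), (nat_lit 3163), [(nat_lit 1411379), (nat_lit 1408901), (nat_lit 1455689), (nat_lit 1454450), (nat_lit 1548524), (nat_lit 1537186), (nat_lit 1592834), (nat_lit 1582735)]⟩, (nat_lit 5382699), (nat_lit 34777713), (nat_lit 21562797), (nat_lit 10659490), (nat_lit 5), (nat_lit 0), [⟨(nat_lit 1), (nat_lit 71), (nat_lit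 54), (nat_lit 100), (nat_lit 237277910)⟩], [⟨(nat_lit 1), (nat_lit 100), (nat_lit 54), (nat_lit 98), (nat_lit 379792099)⟩], [], [⟨(nat_lit 0), (nat_lit 100), (nat_lit 71), (nat_lit 88), (nat_lit 11418660)⟩],
 ⟨⟨[(nat_lit 40), (nat_lit 80), (nat_lit 100)], [(nat_lit 0), (nat_lit 1598), (nat_lit 2533)], [((nat_lit 0), (nat_lit 0), (nat_lit 0)), ((nat_lit 1000), (nat_lit 625), (nat_lit 623)), ((nat_lit 1000), (nat_lit 604), (nat_lit 730))], ((nat_lit 61), (nat_lit 100), (nat_lit 72))⟩, (nat_lit 558095), (nat_lit 172), (nat_lit 172), (nat_lit 0), (nat_lit 297770), [(nat_lit 1596896022), (nat_lit 2365008066), (nat_lit 2837444000)], [(nat_lit 0), (nat_lit 0), (nat_lit 0)], [(nat_lit 27126682357), (nat_lit 27908302221), (nat_lit 29355959757), (nat_lit 30378387361), (nat_lit 29166476186), (nat_lit 30150782670), (nat_lit 31393612301), (nat_lit 32261103737)], (nat_lit 1271251), (nat_lit 1271251), (nat_lit 1271251), (nat_lit 1271251), (nat_lit 1271251), (nat_lit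 1271251), [(nat_lit 490000), (nat_lit 1100000), (nat_lit 1442501)], [(nat_lit 3), (nat_lit 50), (nat_lit 203), (nat_lit 0), (nat_lit 5)]⟩,
 ⟨⟨[(nat_lit 80), (nat_lit 120), (nat_lit 160)], [(nat_lit 0), (nat_lit 0), (nat_lit 2132)], [((nat_lit 0), (nat_lit 0), (nat_lit 0)), ((nat_lit 0), (nat_lit 0), (nat_lit 0)), ((nat_lit 858), (nat_lit 1000), (nat_lit 713))], ((nat_lit 100), (nat_lit 85), (nat_lit 73))⟩, (nat_lit 1346555), (nat_lit 521), (nat_lit 521), (nat_lit 0), (nat_lit 674449), [(nat_lit 2390880000), (nat_lit 4063680000), (nat_lit 6054720000)], [], [(nat_lit 19207346552), (nat_lit 19427958137), (nat_lit 20241466517), (nat_lit 20414986748), (nat_lit 17638225728), (nat_lit 17813775333), (nat_lit 18570723491), (nat_lit 18746636752)], (nat_lit 1271251), (nat_lit 1271251), (nat_lit 1271251), (nat_lit 1271251), (nat_lit 230000), (nat_lit 1420001), [(nat_lit 1100000), (nat_lit 1785001), (nat_lit 1271251)], [(nat_lit 18), (nat_lit 59), (nat_lit 345),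 (nat_lit 125), (nat_lit 8)]⟩,
 ⟨⟨[(nat_lit 140), (nat_lit 180), (nat_lit 200)], [(nat_lit 0), (nat_lit 0), (nat_lit 2835)], [((nat_lit 0), (nat_lit 0), (nat_lit 0)), ((nat_lit 0), (nat_lit 0), (nat_lit 0)), ((nat_lit 363), (nat_lit 1000), (nat_lit 798))], ((nat_lit 0), (nat_lit 0), (nat_lit 0))⟩, (nat_lit 13206), (nat_lit 300), (nat_lit 1945), (nat_lit 3748805), (nat_lit 3265152), [(nat_lit 472416000), (nat_lit 674784000), (nat_lit 787200000)], [], [(nat_lit 2898156570), (nat_lit 2782905882), (nat_lit 2896472339), (nat_lit 2772086480), (nat_lit 2541122886), (nat_lit 2872996936), (nat_lit 2264425190), (nat_lit 2144544304)], (nat_lit 780000), (nat_lit 1100000), (nat_lit 1271251), (nat_lit 1271251), (nat_lit 230000), (nat_lit 1420001), [(nat_lit 1977501), (nat_lit 1271251), (nat_lit 1271251)], [(nat_lit 32), (nat_lit 67), (nat_lit 568), (nat_lit 175), (nat_lit 12)]⟩⟩))) (.spl (nat_lit 3) (nat_lit 320) (.leaf ⟨(nat_lit 31), (nat_lit 952), (nat_lit 0),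 (nat_lit 17), (nat_lit 0), (nat_lit 7196), (nat_lit 7519), (nat_lit 266), (nat_lit 0), (nat_lit 0), (nat_lit 7750), [((nat_lit 380), [((nat_lit 25), (nat_lit 0), (nat_lit 31))])], ⟨(nat_lit 6), false, true, true, (nat_lit 270), (nat_lit 2236), (nat_lit 3163), [(nat_lit 1605240), (nat_lit 1602541), (nat_lit 1627331), (nat_lit 1625251), (nat_lit 1727168), (nat_lit 1716594), (nat_lit 1749323), (nat_lit 1739368)]⟩, ⟨(nat_lit 5), false, false, true, (nat_lit 200), (nat_lit 2236), (nat_lit 3163), [(nat_lit 1411379), (nat_lit 1408901), (nat_lit 1455689), (nat_lit 1454450), (nat_lit 1548524), (nat_lit 1537186), (nat_lit 1592834), (nat_lit 1582735)]⟩, (nat_lit 5285744), (nat_lit 37446260), (nat_lit 18291475), (nat_lit 11262265), (nat_lit 5), (nat_lit 0), [], [⟨(nat_lit 1), (nat_lit 100), (nat_lit 54), (nat_lit 98), (nat_lit 665412470)⟩], [], [],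
 ⟨⟨[(nat_lit 40), (nat_lit 80), (nat_lit 100)], [(nat_lit 0), (nat_lit 1598), (nat_lit 2533)], [((nat_lit 0), (nat_lit 0), (nat_lit 0)), ((nat_lit 1000), (nat_lit 625), (nat_lit 623)), ((nat_lit 1000), (nat_lit 604), (nat_lit 730))], ((nat_lit 60), (nat_lit 100), (nat_lit 78))⟩, (nat_lit 0), (nat_lit 128), (nat_lit 128), (nat_lit 0), (nat_lit 179193), [(nat_lit 2592502931), (nat_lit 5200946914), (nat_lit 6121908000)], [(nat_lit 0), (nat_lit 0), (nat_lit 0)], [(nat_lit 26453823492), (nat_lit 28080919006), (nat_lit 29988430012), (nat_lit 31636722062), (nat_lit 29261102016), (nat_lit 30740271562), (nat_lit 32557952002), (nat_lit 33931091149)], (nat_lit 1271251), (nat_lit 1271251), (nat_lit 1271251), (nat_lit 1271251), (nat_lit 1271251), (nat_lit 1271251), [(nat_lit 490000), (nat_lit 1100000), (nat_lit 1442501)], [(nat_lit 3), (nat_lit 50), (nat_lit 203), (nat_lit 0), (nat_lit 6)]⟩,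
 ⟨⟨[(nat_lit 80), (nat_lit 140), (nat_lit 180)], [(nat_lit 0), (nat_lit 0), (nat_lit 3656)], [((nat_lit 0), (nat_lit 0), (nat_lit 0)), ((nat_lit 0), (nat_lit 0), (nat_lit 0)), ((nat_lit 637), (nat_lit 1000), (nat_lit 908))], ((nat_lit 100), (nat_lit 78), (nat_lit 80))⟩, (nat_lit 2298915), (nat_lit 480), (nat_lit 480), (nat_lit 0), (nat_lit 403067), [(nat_lit 4542672000), (nat_lit 9536898000), (nat_lit 13622202000)], [], [(nat_lit 36887864424), (nat_lit 37522117654), (nat_lit 40116142432), (nat_lit 40778125958), (nat_lit 32120909416), (nat_lit 32769000228), (nat_lit 34723199850), (nat_lit 35217955819)], (nat_lit 1271251), (nat_lit 1271251), (nat_lit 1271251), (nat_lit 1271251), (nat_lit 0), (nat_lit 1412501), [(nat_lit 1100000), (nat_lit 2127501), (nat_lit 1271251)], [(nat_lit 19), (nat_lit 63), (nat_lit 428), (nat_lit 200), (nat_lit 10)]⟩,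
 ⟨⟨[(nat_lit 140), (nat_lit 180), (nat_lit 200)], [(nat_lit 0), (nat_lit 0), (nat_lit 2835)], [((nat_lit 0), (nat_lit 0), (nat_lit 0)), ((nat_lit 0), (nat_lit 0), (nat_lit 0)), ((nat_lit 363), (nat_lit 1000), (nat_lit 798))], ((nat_lit 0), (nat_lit 0), (nat_lit 0))⟩, (nat_lit 4677), (nat_lit 300), (nat_lit 1346), (nat_lit 1327704), (nat_lit 1938405), [(nat_lit 167314000), (nat_lit 238986000), (nat_lit 278800000)], [], [(nat_lit 1126060892), (nat_lit 1084480760), (nat_lit 1125218992), (nat_lit 1081138006), (nat_lit 888851068), (nat_lit 1003671168), (nat_lit 810542655), (nat_lit 769600263)], (nat_lit 780000), (nat_lit 1100000), (nat_lit 1271251), (nat_lit 1271251), (nat_lit 0), (nat_lit 1412501), [(nat_lit 1977501), (nat_lit 1271251), (nat_lit 1271251)], [(nat_lit 32), (nat_lit 67), (nat_lit 418), (nat_lit 175), (nat_lit 9)]⟩⟩) (.trZ (nat_lit 3) (nat_lit 4) (nat_lit 5) (nat_lit 100) (nat_lit 80) (nat_lit 60) (nat_lit 40) (.leaf ⟨(nat_lit 0), (nat_lit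 914), (nat_lit 0), (nat_lit 86), (nat_lit 0), (nat_lit 5284), (nat_lit 6777), (nat_lit 1384), (nat_lit 0), (nat_lit 0), (nat_lit 0), [], Pd.none, Pd.none, (nat_lit 0), (nat_lit 1), (nat_lit 0), (nat_lit 0), (nat_lit 5), (nat_lit 0), [], [⟨(nat_lit 1), (nat_lit 100), (nat_lit 54), (nat_lit 98), (nat_lit 450047589)⟩], [], [⟨(nat_lit 0), (nat_lit 100), (nat_lit 71), (nat_lit 88), (nat_lit 34436373)⟩],
 ⟨⟨[(nat_lit 40), (nat_lit 80), (nat_lit 100)], [(nat_lit 0), (nat_lit 1598), (nat_lit 2533)], [((nat_lit 0), (nat_lit 0), (nat_lit 0)), ((nat_lit 1000), (nat_lit 625), (nat_lit 623)), ((nat_lit 1000), (nat_lit 604), (nat_lit 730))], ((nat_lit 60), (nat_lit 100), (nat_lit 78))⟩, (nat_lit 743283), (nat_lit 140), (nat_lit 140), (nat_lit 0), (nat_lit 179193), [(nat_lit 2274156861), (nat_lit 5070653419), (nat_lit 6250000000)], [], [(nat_lit 29068666709), (nat_lit 30198554755), (nat_lit 31602729699), (nat_lit 32587801516), (nat_lit 31100649956), (nat_lit 32043431523),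 (nat_lit 33355850640), (nat_lit 34365623965)], (nat_lit 1271251), (nat_lit 1271251), (nat_lit 1271251), (nat_lit 1271251), (nat_lit 1271251), (nat_lit 1271251), [(nat_lit 490000), (nat_lit 1100000), (nat_lit 1442501)], [(nat_lit 3), (nat_lit 50), (nat_lit 203), (nat_lit 0), (nat_lit 5)]⟩,
 ⟨⟨[(nat_lit 80), (nat_lit 140), (nat_lit 180)], [(nat_lit 0), (nat_lit 0), (nat_lit 3656)], [((nat_lit 0), (nat_lit 0), (nat_lit 0)), ((nat_lit 0), (nat_lit 0), (nat_lit 0)), ((nat_lit 637), (nat_lit 1000), (nat_lit 908))], ((nat_lit 100), (nat_lit 78), (nat_lit 80))⟩, (nat_lit 1907453), (nat_lit 445), (nat_lit 445), (nat_lit 0), (nat_lit 403067), [(nat_lit 4688000000), (nat_lit 9842000000), (nat_lit 14058000000)], [], [(nat_lit 40895663786), (nat_lit 41368470816), (nat_lit 43068860011), (nat_lit 43444694610), (nat_lit 38022868126), (nat_lit 38434247790), (nat_lit 39899873813), (nat_lit 40305386674)], (nat_lit 1271251), (nat_lit 1271251), (nat_lit 1271251), (nat_lit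 1271251), (nat_lit 230000), (nat_lit 1420001), [(nat_lit 1100000), (nat_lit 2127501), (nat_lit 1271251)], [(nat_lit 19), (nat_lit 63), (nat_lit 456), (nat_lit 225), (nat_lit 10)]⟩,
 ⟨⟨[(nat_lit 140), (nat_lit 180), (nat_lit 200)], [(nat_lit 0), (nat_lit 0), (nat_lit 2835)], [((nat_lit 0), (nat_lit 0), (nat_lit 0)), ((nat_lit 0), (nat_lit 0), (nat_lit 0)), ((nat_lit 363), (nat_lit 1000), (nat_lit 798))], ((nat_lit 0), (nat_lit 0), (nat_lit 0))⟩, (nat_lit 23661), (nat_lit 300), (nat_lit 1317), (nat_lit 6716606), (nat_lit 1938405), [(nat_lit 846412000), (nat_lit 1208988000), (nat_lit 1410400000)], [], [(nat_lit 5193032740), (nat_lit 4986232502), (nat_lit 5189635726), (nat_lit 4966972238), (nat_lit 4552519600), (nat_lit 5146792000), (nat_lit 4058149339), (nat_lit 3843549640)], (nat_lit 780000), (nat_lit 1100000), (nat_lit 1271251), (nat_lit 1271251), (nat_lit 230000), (nat_lit 1420001), [(nat_lit 1977501), (nat_lit 1271251), (nat_lit 1271251)], [(nat_lit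 32), (nat_lit 67), (nat_lit 411), (nat_lit 175), (nat_lit 9)]⟩⟩))))) (.leaf ⟨(nat_lit 56), (nat_lit 907), (nat_lit 0), (nat_lit 37), (nat_lit 0), (nat_lit 4131), (nat_lit 7164), (nat_lit 580), (nat_lit 0), (nat_lit 0), (nat_lit 224000), [((nat_lit 380), [((nat_lit 41), (nat_lit 5), (nat_lit 56))])], ⟨(nat_lit 6), false, true, true, (nat_lit 296), (nat_lit 2236), (nat_lit 3163), [(nat_lit 1627331), (nat_lit 1625251), (nat_lit 1649422), (nat_lit 1647962), (nat_lit 1840753), (nat_lit 1824891), (nat_lit 1862908), (nat_lit 1847666)]⟩, ⟨(nat_lit 5), false, false, true, (nat_lit 200), (nat_lit 2236), (nat_lit 3163), [(nat_lit 1411379), (nat_lit 1408901), (nat_lit 1455689), (nat_lit 1454450), (nat_lit 1548524), (nat_lit 1537186), (nat_lit 1592834), (nat_lit 1582735)]⟩, (nat_lit 5360647), (nat_lit 35579267), (nat_lit 20575052), (nat_lit 10845681), (nat_lit 5), (nat_lit 0), [], [⟨(nat_lit 1), (nat_lit 100), (nat_lit 54), (nat_lit 98), (nat_lit 642058082)⟩],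 [], [],
 ⟨⟨[(nat_lit 40), (nat_lit 80), (nat_lit 100)], [(nat_lit 0), (nat_lit 1598), (nat_lit 2533)], [((nat_lit 0), (nat_lit 0), (nat_lit 0)), ((nat_lit 1000), (nat_lit 625), (nat_lit 623)), ((nat_lit 1000), (nat_lit 604), (nat_lit 730))], ((nat_lit 60), (nat_lit 100), (nat_lit 78))⟩, (nat_lit 1112199), (nat_lit 203), (nat_lit 203), (nat_lit 0), (nat_lit 358935), [(nat_lit 1864083294), (nat_lit 3469238491), (nat_lit 4344880000)], [(nat_lit 0), (nat_lit 0), (nat_lit 0)], [(nat_lit 24147810753), (nat_lit 25111822357), (nat_lit 30546742383), (nat_lit 31597980790), (nat_lit 26731558260), (nat_lit 27976244601), (nat_lit 32478966349), (nat_lit 33365295473)], (nat_lit 1271251), (nat_lit 1271251), (nat_lit 1271251), (nat_lit 1271251), (nat_lit 1271251), (nat_lit 1271251), [(nat_lit 490000), (nat_lit 1100000), (nat_lit 1442501)], [(nat_lit 3), (nat_lit 50), (nat_lit 203), (nat_lit 0), (nat_lit 6)]⟩,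
 ⟨⟨[(nat_lit 80), (nat_lit 120), (nat_lit 160)], [(nat_lit 0), (nat_lit 528), (nat_lit 2577)], [((nat_lit 0), (nat_lit 0), (nat_lit 0)), ((nat_lit 1000), (nat_lit 959), (nat_lit 206)), ((nat_lit 929), (nat_lit 1000), (nat_lit 742))], ((nat_lit 100), (nat_lit 87), (nat_lit 82))⟩, (nat_lit 2994325), (nat_lit 561), (nat_lit 561), (nat_lit 0), (nat_lit 695161), [(nat_lit 4425472000), (nat_lit 7521792000), (nat_lit 11207168000)], [], [(nat_lit 30306055204), (nat_lit 30782585640), (nat_lit 35141237074), (nat_lit 35569514027), (nat_lit 26655300120), (nat_lit 26995168144), (nat_lit 29955616438), (nat_lit 30263398513)], (nat_lit 1271251), (nat_lit 1271251), (nat_lit 1271251), (nat_lit 1271251), (nat_lit 0), (nat_lit 1412501), [(nat_lit 1100000), (nat_lit 1785001), (nat_lit 1271251)], [(nat_lit 18), (nat_lit 59), (nat_lit 456), (nat_lit 225), (nat_lit 11)]⟩,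
 ⟨⟨[(nat_lit 140), (nat_lit 180), (nat_lit 200)], [(nat_lit 0), (nat_lit 0), (nat_lit 2835)], [((nat_lit 0), (nat_lit 0), (nat_lit 0)), ((nat_lit 0), (nat_lit 0), (nat_lit 0)), ((nat_lit 363), (nat_lit 1000), (nat_lit 798))], ((nat_lit 0), (nat_lit 0), (nat_lit 0))⟩, (nat_lit 10180), (nat_lit 300), (nat_lit 2312), (nat_lit 2889700), (nat_lit 3932896), [(nat_lit 364154000), (nat_lit 520146000), (nat_lit 606800000)], [], [(nat_lit 2449956582), (nat_lit 2360543936), (nat_lit 2449290000), (nat_lit 2353127415), (nat_lit 1934886152), (nat_lit 2185159152), (nat_lit 1762952709), (nat_lit 1673636310)], (nat_lit 780000), (nat_lit 1100000), (nat_lit 1271251), (nat_lit 1271251), (nat_lit 0), (nat_lit 1412501), [(nat_lit 1977501), (nat_lit 1271251), (nat_lit 1271251)], [(nat_lit 32), (nat_lit 67), (nat_lit 660), (nat_lit 175), (nat_lit 14)]⟩⟩))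
noncomputable def c17_90 : Tr Lf :=
 (.stt (nat_lit 2) (.leaf ⟨(nat_lit 0), (nat_lit 926), (nat_lit 0), (nat_lit 74), (nat_lit 0), (nat_lit 6226), (nat_lit 5303), (nat_lit 838), (nat_lit 0), (nat_lit 0), (nat_lit 0), [], Pd.none, Pd.none, (nat_lit 0), (nat_lit 1), (nat_lit 0), (nat_lit 0), (nat_lit 5), (nat_lit 0), [], [⟨(nat_lit 1), (nat_lit 100), (nat_lit 54), (nat_lit 98), (nat_lit 520815366)⟩], [⟨(nat_lit 1), (nat_lit 60), (nat_lit 100), (nat_lit 100), (nat_lit 359904089)⟩], [],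
 ⟨⟨[(nat_lit 40), (nat_lit 80), (nat_lit 100)], [(nat_lit 0), (nat_lit 1598), (nat_lit 2533)], [((nat_lit 0), (nat_lit 0), (nat_lit 0)), ((nat_lit 1000), (nat_lit 625), (nat_lit 623)), ((nat_lit 1000), (nat_lit 604), (nat_lit 730))], ((nat_lit 60), (nat_lit 100), (nat_lit 78))⟩, (nat_lit 258845), (nat_lit 203), (nat_lit 203), (nat_lit 0), (nat_lit 359180), [(nat_lit 2477492757), (nat_lit 4688000130), (nat_lit 6250000000)], [], [(nat_lit 26976371267), (nat_lit 28231993769), (nat_lit 33186008718), (nat_lit 34465820529), (nat_lit 29270875011), (nat_lit 30500114351), (nat_lit 35018069949), (nat_lit 36071843126)], (nat_lit 1271251), (nat_lit 1271251), (nat_lit 1271251), (nat_lit 1271251), (nat_lit 1271251), (nat_lit 1271251), [(nat_lit 490000), (nat_lit 1100000), (nat_lit 1442501)], [(nat_lit 3), (nat_lit 50), (nat_lit 203), (nat_lit 0), (nat_lit 6)]⟩,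
 ⟨⟨[(nat_lit 80), (nat_lit 140), (nat_lit 180)], [(nat_lit 0), (nat_lit 0), (nat_lit 3656)], [((nat_lit 0), (nat_lit 0), (nat_lit 0)), ((nat_lit 0), (nat_lit 0), (nat_lit 0)), ((nat_lit 637), (nat_lit 1000), (nat_lit 908))], ((nat_lit 100), (nat_lit 78), (nat_lit 80))⟩, (nat_lit 0), (nat_lit 116), (nat_lit 116), (nat_lit 0), (nat_lit 0), [(nat_lit 4688000000), (nat_lit 9842000000), (nat_lit 14058000000)], [], [(nat_lit 17782416802), (nat_lit 20220439514), (nat_lit 27032572643), (nat_lit 28607044456), (nat_lit 28525646400), (nat_lit 29916866599), (nat_lit 34122746590), (nat_lit 35120079566)], (nat_lit 0), (nat_lit 0), (nat_lit 0), (nat_lit 0), (nat_lit 0), (nat_lit 0), [], [(nat_lit 19), (nat_lit 63), (nat_lit 538), (nat_lit 300), (nat_lit 12)]⟩,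
 ⟨⟨[(nat_lit 140), (nat_lit 180), (nat_lit 200)], [(nat_lit 0), (nat_lit 0), (nat_lit 2835)], [((nat_lit 0), (nat_lit 0), (nat_lit 0)), ((nat_lit 0), (nat_lit 0), (nat_lit 0)), ((nat_lit 363), (nat_lit 1000), (nat_lit 798))], ((nat_lit 0), (nat_lit 0), (nat_lit 0))⟩, (nat_lit 20360), (nat_lit 300), (nat_lit 2201), (nat_lit 5779400), (nat_lit 3932896), [(nat_lit 728308000), (nat_lit 1040292000), (nat_lit 1213600000)], [], [(nat_lit 4703140771), (nat_lit 4588416692), (nat_lit 4485887295), (nat_lit 4371778236), (nat_lit 4280977071), (nat_lit 4165423372), (nat_lit 4087369621), (nat_lit 3948588757)], (nat_lit 780000), (nat_lit 1100000), (nat_lit 1271251), (nat_lit 1271251), (nat_lit 1271251), (nat_lit 1271251), [(nat_lit 1977501), (nat_lit 1271251), (nat_lit 1271251)], [(nat_lit 32), (nat_lit 67), (nat_lit 656), (nat_lit 225), (nat_lit 13)]⟩⟩) (.spl (nat_lit 1) (nat_lit 260) (.trX (nat_lit 3) (nat_lit 0) (nat_lit 1) (nat_lit 63) (nat_lit 61) (nat_lit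 100) (nat_lit 370) (.spl (nat_lit 3) (nat_lit 320) (.spl (nat_lit 0) (nat_lit 370) (.leaf ⟨(nat_lit 563), (nat_lit 318), (nat_lit 0), (nat_lit 119), (nat_lit 0), (nat_lit 3625), (nat_lit 4389), (nat_lit 1342), (nat_lit 0), (nat_lit 0), (nat_lit 337800), [((nat_lit 370), [((nat_lit 41), (nat_lit 2), (nat_lit 563))])], ⟨(nat_lit 6), false, true, true, (nat_lit 270), (nat_lit 2738), (nat_lit 3163), [(nat_lit 1605257), (nat_lit 1603890), (nat_lit 1627400), (nat_lit 1626295), (nat_lit 1727168), (nat_lit 1722017), (nat_lit 1749323), (nat_lit 1744435)]⟩, ⟨(nat_lit 5), false, false, true, (nat_lit 200), (nat_lit 2738), (nat_lit 3163), [(nat_lit 1411379), (nat_lit 1410329), (nat_lit 1455689), (nat_lit 1455164), (nat_lit 1548524), (nat_lit 1543217), (nat_lit 1592834), (nat_lit 1588052)]⟩, (nat_lit 5292540), (nat_lit 37362470), (nat_lit 18333330), (nat_lit 11304200), (nat_lit 5), (nat_lit 0), [], [⟨(nat_lit 1), (nat_lit 100), (nat_lit 59), (nat_lit 100), (nat_lit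 227416607)⟩], [⟨(nat_lit 1), (nat_lit 55), (nat_lit 100), (nat_lit 99), (nat_lit 56250465)⟩], [],
 ⟨⟨[(nat_lit 40), (nat_lit 80), (nat_lit 100)], [(nat_lit 0), (nat_lit 1598), (nat_lit 2533)], [((nat_lit 0), (nat_lit 0), (nat_lit 0)), ((nat_lit 1000), (nat_lit 625), (nat_lit 623)), ((nat_lit 1000), (nat_lit 604), (nat_lit 730))], ((nat_lit 60), (nat_lit 100), (nat_lit 78))⟩, (nat_lit 355242), (nat_lit 116), (nat_lit 116), (nat_lit 0), (nat_lit 150376), [(nat_lit 1555315284), (nat_lit 2218319167), (nat_lit 2329042800)], [(nat_lit 0), (nat_lit 0), (nat_lit 0)], [(nat_lit 24087981473), (nat_lit 24620574255), (nat_lit 26855024689), (nat_lit 27332616971), (nat_lit 26546578564), (nat_lit 27023935986), (nat_lit 29187242250), (nat_lit 29680585907)], (nat_lit 1271251), (nat_lit 1271251), (nat_lit 1271251), (nat_lit 1271251), (nat_lit 1271251), (nat_lit 1271251), [(nat_lit 490000), (nat_lit 1100000), (nat_lit 1442501)], [(nat_lit 3), (nat_lit 50), (nat_lit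 203), (nat_lit 0), (nat_lit 6)]⟩,
 ⟨⟨[(nat_lit 80), (nat_lit 140), (nat_lit 180)], [(nat_lit 0), (nat_lit 0), (nat_lit 3656)], [((nat_lit 0), (nat_lit 0), (nat_lit 0)), ((nat_lit 0), (nat_lit 0), (nat_lit 0)), ((nat_lit 637), (nat_lit 1000), (nat_lit 908))], ((nat_lit 100), (nat_lit 78), (nat_lit 80))⟩, (nat_lit 788484), (nat_lit 399), (nat_lit 399), (nat_lit 0), (nat_lit 510000), [(nat_lit 2048656000), (nat_lit 4300954000), (nat_lit 6143346000)], [], [(nat_lit 13223353330), (nat_lit 13444357473), (nat_lit 14107369902), (nat_lit 14257101996), (nat_lit 15295449170), (nat_lit 15422765945), (nat_lit 15917057962), (nat_lit 16015781677)], (nat_lit 1271251), (nat_lit 1271251), (nat_lit 1271251), (nat_lit 1271251), (nat_lit 1271251), (nat_lit 1271251), [(nat_lit 1100000), (nat_lit 2127501), (nat_lit 1271251)], [(nat_lit 19), (nat_lit 63), (nat_lit 483), (nat_lit 250), (nat_lit 10)]⟩,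
 ⟨⟨[(nat_lit 140), (nat_lit 180), (nat_lit 200)], [(nat_lit 0), (nat_lit 0), (nat_lit 2835)], [((nat_lit 0), (nat_lit 0), (nat_lit 0)), ((nat_lit 0), (nat_lit 0), (nat_lit 0)), ((nat_lit 363), (nat_lit 1000), (nat_lit 798))], ((nat_lit 0), (nat_lit 0), (nat_lit 0))⟩, (nat_lit 32741), (nat_lit 300), (nat_lit 1089), (nat_lit 9293900), (nat_lit 1647779), [(nat_lit 1171198000), (nat_lit 1672902000), (nat_lit 1951600000)], [], [(nat_lit 7402041766), (nat_lit 7186565786), (nat_lit 7090522004), (nat_lit 6873534186), (nat_lit 6909787776), (nat_lit 6685205268), (nat_lit 6599735825), (nat_lit 6373468069)], (nat_lit 780000), (nat_lit 1100000), (nat_lit 1271251), (nat_lit 1271251), (nat_lit 1271251), (nat_lit 1271251), [(nat_lit 1977501), (nat_lit 1271251), (nat_lit 1271251)], [(nat_lit 32), (nat_lit 67), (nat_lit 456), (nat_lit 225), (nat_lit 9)]⟩⟩) (.trX (nat_lit 4) (nat_lit 0) (nat_lit 2) (nat_lit 54) (nat_lit 96) (nat_lit 100) (nat_lit 270) (.leaf ⟨(nat_lit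 803), (nat_lit 141), (nat_lit 0), (nat_lit 56), (nat_lit 0), (nat_lit 3366), (nat_lit 1957), (nat_lit 642), (nat_lit 0), (nat_lit 0), (nat_lit 200750), [((nat_lit 380), [((nat_lit 25), (nat_lit 0), (nat_lit 803))])], ⟨(nat_lit 6), false, true, true, (nat_lit 269), (nat_lit 2236), (nat_lit 2739), [(nat_lit 1603890), (nat_lit 1602558), (nat_lit 1626287), (nat_lit 1625312), (nat_lit 1722017), (nat_lit 1716594), (nat_lit 1744435), (nat_lit 1739368)]⟩, ⟨(nat_lit 5), false, false, true, (nat_lit 193), (nat_lit 2236), (nat_lit 2739), [(nat_lit 1410329), (nat_lit 1408901), (nat_lit 1455164), (nat_lit 1454450), (nat_lit 1513686), (nat_lit 1508679), (nat_lit 1558521), (nat_lit 1554227)]⟩, (nat_lit 5239248), (nat_lit 37849669), (nat_lit 18369159), (nat_lit 10781172), (nat_lit 5), (nat_lit 0), [], [⟨(nat_lit 1), (nat_lit 100), (nat_lit 49), (nat_lit 97), (nat_lit 273673681)⟩], [⟨(nat_lit 1), (nat_lit 55), (nat_lit 100), (nat_lit 99), (nat_lit 22949792)⟩], [],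
 ⟨⟨[(nat_lit 40), (nat_lit 80), (nat_lit 100)], [(nat_lit 0), (nat_lit 2008), (nat_lit 2969)], [((nat_lit 0), (nat_lit 0), (nat_lit 0)), ((nat_lit 1000), (nat_lit 540), (nat_lit 733)), ((nat_lit 1000), (nat_lit 536), (nat_lit 751))], ((nat_lit 53), (nat_lit 100), (nat_lit 79))⟩, (nat_lit 624338), (nat_lit 131), (nat_lit 131), (nat_lit 0), (nat_lit 189343), [(nat_lit 1581190001), (nat_lit 2388517841), (nat_lit 2932004000)], [(nat_lit 0), (nat_lit 0), (nat_lit 0)], [(nat_lit 24634006619), (nat_lit 25149882180), (nat_lit 27207093902), (nat_lit 27647682787), (nat_lit 26356101572), (nat_lit 26813467439), (nat_lit 28794950191), (nat_lit 29294326448)], (nat_lit 1271251), (nat_lit 1271251), (nat_lit 1271251), (nat_lit 1271251), (nat_lit 1271251), (nat_lit 1271251), [(nat_lit 490000), (nat_lit 1100000), (nat_lit 1442501)], [(nat_lit 3), (nat_lit 50), (nat_lit 203), (nat_lit 0), (nat_lit 6)]⟩,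
 ⟨⟨[(nat_lit 80), (nat_lit 140), (nat_lit 180)], [(nat_lit 0), (nat_lit 0), (nat_lit 3656)], [((nat_lit 0), (nat_lit 0), (nat_lit 0)), ((nat_lit 0), (nat_lit 0), (nat_lit 0)), ((nat_lit 637), (nat_lit 1000), (nat_lit 908))], ((nat_lit 100), (nat_lit 78), (nat_lit 80))⟩, (nat_lit 363851), (nat_lit 470), (nat_lit 470), (nat_lit 0), (nat_lit 678449), [(nat_lit 923536000), (nat_lit 1938874000), (nat_lit 2769426000)], [], [(nat_lit 5969239066), (nat_lit 6068716009), (nat_lit 6367146838), (nat_lit 6434792836), (nat_lit 6934028450), (nat_lit 6991662483), (nat_lit 7164564580), (nat_lit 7197071933)], (nat_lit 1271251), (nat_lit 1271251), (nat_lit 1271251), (nat_lit 1271251), (nat_lit 1271251), (nat_lit 1271251), [(nat_lit 1100000), (nat_lit 2127501), (nat_lit 1271251)], [(nat_lit 19), (nat_lit 63), (nat_lit 483), (nat_lit 250), (nat_lit 10)]⟩,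
 ⟨⟨[(nat_lit 140), (nat_lit 180), (nat_lit 200)], [(nat_lit 0), (nat_lit 0), (nat_lit 2835)], [((nat_lit 0), (nat_lit 0), (nat_lit 0)), ((nat_lit 0), (nat_lit 0), (nat_lit 0)), ((nat_lit 363), (nat_lit 1000), (nat_lit 798))], ((nat_lit 0), (nat_lit 0), (nat_lit 0))⟩, (nat_lit 15407), (nat_lit 300), (nat_lit 1347), (nat_lit 4373606), (nat_lit 2212040), [(nat_lit 551152000), (nat_lit 787248000), (nat_lit 918400000)], [], [(nat_lit 3422869276), (nat_lit 3319385974), (nat_lit 3300522862), (nat_lit 3196605350), (nat_lit 3203919102), (nat_lit 3096059079), (nat_lit 3088015987), (nat_lit 2979638269)], (nat_lit 780000), (nat_lit 1100000), (nat_lit 1271251), (nat_lit 1271251), (nat_lit 1271251), (nat_lit 1271251), [(nat_lit 1977501), (nat_lit 1271251), (nat_lit 1271251)], [(nat_lit 32), (nat_lit 67), (nat_lit 456), (nat_lit 225), (nat_lit 9)]⟩⟩))) (.spl (nat_lit 0) (nat_lit 370) (.leaf ⟨(nat_lit 35), (nat_lit 727), (nat_lit 0), (nat_lit 238), (nat_lit 0),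 (nat_lit 3687), (nat_lit 9024), (nat_lit 2759), (nat_lit 0), (nat_lit 0), (nat_lit 140000), [((nat_lit 370), [((nat_lit 41), (nat_lit 5), (nat_lit 35))])], ⟨(nat_lit 8), false, true, true, (nat_lit 309), (nat_lit 2738), (nat_lit 3163), [(nat_lit 1727168), (nat_lit 1722017), (nat_lit 1749323), (nat_lit 1744435), (nat_lit 1803360), (nat_lit 1795844), (nat_lit 1825515), (nat_lit 1818261)]⟩, ⟨(nat_lit 5), false, false, true, (nat_lit 200), (nat_lit 2738), (nat_lit 3163), [(nat_lit 1411379), (nat_lit 1410329), (nat_lit 1455689), (nat_lit 1455164), (nat_lit 1548524), (nat_lit 1543217), (nat_lit 1592834), (nat_lit 1588052)]⟩, (nat_lit 5389208), (nat_lit 34656609), (nat_lit 21655775), (nat_lit 10687616), (nat_lit 5), (nat_lit 0), [], [⟨(nat_lit 1), (nat_lit 100), (nat_lit 59), (nat_lit 100), (nat_lit 241488972)⟩], [⟨(nat_lit 1), (nat_lit 55), (nat_lit 100), (nat_lit 99), (nat_lit 122346624)⟩], [],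
 ⟨⟨[(nat_lit 40), (nat_lit 80), (nat_lit 100)], [(nat_lit 0), (nat_lit 1598), (nat_lit 2533)], [((nat_lit 0), (nat_lit 0), (nat_lit 0)), ((nat_lit 1000), (nat_lit 625), (nat_lit 623)), ((nat_lit 1000), (nat_lit 604), (nat_lit 730))], ((nat_lit 60), (nat_lit 100), (nat_lit 78))⟩, (nat_lit 1304671), (nat_lit 130), (nat_lit 130), (nat_lit 0), (nat_lit 150376), [(nat_lit 1896298004), (nat_lit 3926274148), (nat_lit 5059300000)], [(nat_lit 0), (nat_lit 0), (nat_lit 0)], [(nat_lit 27376548122), (nat_lit 27832743788), (nat_lit 29460944703), (nat_lit 29972749552), (nat_lit 29407581096), (nat_lit 29814641957), (nat_lit 31491665852), (nat_lit 31928966502)], (nat_lit 1271251), (nat_lit 1271251), (nat_lit 1271251), (nat_lit 1271251), (nat_lit 1271251), (nat_lit 1271251), [(nat_lit 490000), (nat_lit 1100000), (nat_lit 1442501)], [(nat_lit 3), (nat_lit 50), (nat_lit 203), (nat_lit 0), (nat_lit 5)]⟩,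
 ⟨⟨[(nat_lit 80), (nat_lit 140), (nat_lit 180)], [(nat_lit 0), (nat_lit 0), (nat_lit 3656)], [((nat_lit 0), (nat_lit 0), (nat_lit 0)), ((nat_lit 0), (nat_lit 0), (nat_lit 0)), ((nat_lit 637), (nat_lit 1000), (nat_lit 908))], ((nat_lit 100), (nat_lit 78), (nat_lit 80))⟩, (nat_lit 1548923), (nat_lit 397), (nat_lit 397), (nat_lit 0), (nat_lit 510000), [(nat_lit 4523920000), (nat_lit 9497530000), (nat_lit 13565970000)], [], [(nat_lit 33039940106), (nat_lit 33375125973), (nat_lit 34975059075), (nat_lit 35210128887), (nat_lit 36132836714), (nat_lit 36304388184), (nat_lit 37798137055), (nat_lit 37932550706)], (nat_lit 1271251), (nat_lit 1271251), (nat_lit 1271251), (nat_lit 1271251), (nat_lit 1271251), (nat_lit 1271251), [(nat_lit 1100000), (nat_lit 2127501), (nat_lit 1271251)], [(nat_lit 19), (nat_lit 63), (nat_lit 538), (nat_lit 300), (nat_lit 11)]⟩,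
 ⟨⟨[(nat_lit 140), (nat_lit 180), (nat_lit 200)], [(nat_lit 0), (nat_lit 0), (nat_lit 2835)], [((nat_lit 0), (nat_lit 0), (nat_lit 0)), ((nat_lit 0), (nat_lit 0), (nat_lit 0)), ((nat_lit 363), (nat_lit 1000), (nat_lit 798))], ((nat_lit 0), (nat_lit 0), (nat_lit 0))⟩, (nat_lit 65481), (nat_lit 300), (nat_lit 1089), (nat_lit 18587807), (nat_lit 1647779), [(nat_lit 2342396000), (nat_lit 3345804000), (nat_lit 3903200000)], [], [(nat_lit 14371088382), (nat_lit 13925217197), (nat_lit 13738635137), (nat_lit 13289803905), (nat_lit 13477547832), (nat_lit 13012918714), (nat_lit 12949889444), (nat_lit 12480107170)], (nat_lit 780000), (nat_lit 1100000), (nat_lit 1271251), (nat_lit 1271251), (nat_lit 1271251), (nat_lit 1271251), [(nat_lit 1977501), (nat_lit 1271251), (nat_lit 1271251)], [(nat_lit 32), (nat_lit 67), (nat_lit 456), (nat_lit 225), (nat_lit 9)]⟩⟩) (.trX (nat_lit 3) (nat_lit 0) (nat_lit 1) (nat_lit 55) (nat_lit 68) (nat_lit 100) (nat_lit 360) (.trX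 (nat_lit 4) (nat_lit 0) (nat_lit 2) (nat_lit 54) (nat_lit 96) (nat_lit 100) (nat_lit 270) (.leaf ⟨(nat_lit 774), (nat_lit 166), (nat_lit 0), (nat_lit 60), (nat_lit 0), (nat_lit 3311), (nat_lit 2138), (nat_lit 685), (nat_lit 0), (nat_lit 0), (nat_lit 193500), [((nat_lit 380), [((nat_lit 25), (nat_lit 0), (nat_lit 774))])], ⟨(nat_lit 8), false, true, true, (nat_lit 304), (nat_lit 2236), (nat_lit 2739), [(nat_lit 1722017), (nat_lit 1716594), (nat_lit 1744435), (nat_lit 1739368), (nat_lit 1781079), (nat_lit 1773609), (nat_lit 1803496), (nat_lit 1796384)]⟩, ⟨(nat_lit 5), false, false, true, (nat_lit 193), (nat_lit 2236), (nat_lit 2739), [(nat_lit 1410329), (nat_lit 1408901), (nat_lit 1455164), (nat_lit 1454450), (nat_lit 1513686), (nat_lit 1508679), (nat_lit 1558521), (nat_lit 1554227)]⟩, (nat_lit 5332419), (nat_lit 35372635), (nat_lit 21367936), (nat_lit 10259429), (nat_lit 5), (nat_lit 0), [⟨(nat_lit 1), (nat_lit 75), (nat_lit 50), (nat_lit 100), (nat_lit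 283427366)⟩], [⟨(nat_lit 1), (nat_lit 100), (nat_lit 49), (nat_lit 97), (nat_lit 269899691)⟩], [], [⟨(nat_lit 1), (nat_lit 57), (nat_lit 73), (nat_lit 100), (nat_lit 34970906)⟩],
 ⟨⟨[(nat_lit 40), (nat_lit 80), (nat_lit 100)], [(nat_lit 0), (nat_lit 2008), (nat_lit 2969)], [((nat_lit 0), (nat_lit 0), (nat_lit 0)), ((nat_lit 1000), (nat_lit 540), (nat_lit 733)), ((nat_lit 1000), (nat_lit 536), (nat_lit 751))], ((nat_lit 53), (nat_lit 100), (nat_lit 79))⟩, (nat_lit 609283), (nat_lit 141), (nat_lit 141), (nat_lit 0), (nat_lit 189343), [(nat_lit 1589020003), (nat_lit 2478108882), (nat_lit 3051832000)], [(nat_lit 0), (nat_lit 0), (nat_lit 0)], [(nat_lit 27442105993), (nat_lit 27879990176), (nat_lit 29005744009), (nat_lit 29513712123), (nat_lit 28856120202), (nat_lit 29283510884), (nat_lit 30495369384), (nat_lit 30945310138)], (nat_lit 1271251), (nat_lit 1271251), (nat_lit 1271251), (nat_lit 1271251), (nat_lit 1271251), (nat_lit 1271251), [(nat_lit 490000),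 (nat_lit 1100000), (nat_lit 1442501)], [(nat_lit 3), (nat_lit 50), (nat_lit 203), (nat_lit 0), (nat_lit 5)]⟩,
 ⟨⟨[(nat_lit 80), (nat_lit 140), (nat_lit 180)], [(nat_lit 0), (nat_lit 0), (nat_lit 3656)], [((nat_lit 0), (nat_lit 0), (nat_lit 0)), ((nat_lit 0), (nat_lit 0), (nat_lit 0)), ((nat_lit 637), (nat_lit 1000), (nat_lit 908))], ((nat_lit 100), (nat_lit 78), (nat_lit 80))⟩, (nat_lit 373366), (nat_lit 462), (nat_lit 462), (nat_lit 0), (nat_lit 678449), [(nat_lit 1059488000), (nat_lit 2224292000), (nat_lit 3177108000)], [], [(nat_lit 7655406428), (nat_lit 7733738599), (nat_lit 8019793086), (nat_lit 8079181996), (nat_lit 8416801988), (nat_lit 8456439904), (nat_lit 8725806178), (nat_lit 8761147011)], (nat_lit 1271251), (nat_lit 1271251), (nat_lit 1271251), (nat_lit 1271251), (nat_lit 1271251), (nat_lit 1271251), [(nat_lit 1100000), (nat_lit 2127501), (nat_lit 1271251)], [(nat_lit 19), (nat_lit 63), (nat_lit 538), (nat_lit 300), (nat_lit 11)]⟩,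
 ⟨⟨[(nat_lit 140), (nat_lit 180), (nat_lit 200)], [(nat_lit 0), (nat_lit 0), (nat_lit 2835)], [((nat_lit 0), (nat_lit 0), (nat_lit 0)), ((nat_lit 0), (nat_lit 0), (nat_lit 0)), ((nat_lit 363), (nat_lit 1000), (nat_lit 798))], ((nat_lit 0), (nat_lit 0), (nat_lit 0))⟩, (nat_lit 16508), (nat_lit 300), (nat_lit 1347), (nat_lit 4686000), (nat_lit 2212040), [(nat_lit 590520000), (nat_lit 843480000), (nat_lit 984000000)], [], [(nat_lit 3683848830), (nat_lit 3573542215), (nat_lit 3553516735), (nat_lit 3442744484), (nat_lit 3445795164), (nat_lit 3330824118), (nat_lit 3317199825), (nat_lit 3201688785)], (nat_lit 780000), (nat_lit 1100000), (nat_lit 1271251), (nat_lit 1271251), (nat_lit 1271251), (nat_lit 1271251), [(nat_lit 1977501), (nat_lit 1271251), (nat_lit 1271251)], [(nat_lit 32), (nat_lit 67), (nat_lit 456), (nat_lit 225), (nat_lit 9)]⟩⟩)))))) (.trX (nat_lit 5) (nat_lit 1) (nat_lit 2) (nat_lit 97) (nat_lit 49) (nat_lit 100) (nat_lit 380) (.spl (nat_lit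 1) (nat_lit 270) (.trX (nat_lit 3) (nat_lit 0) (nat_lit 1) (nat_lit 64) (nat_lit 58) (nat_lit 100) (nat_lit 370) (.leaf ⟨(nat_lit 232), (nat_lit 635), (nat_lit 0), (nat_lit 133), (nat_lit 0), (nat_lit 3953), (nat_lit 5367), (nat_lit 1551), (nat_lit 0), (nat_lit 0), (nat_lit 139200), [((nat_lit 380), [((nat_lit 41), (nat_lit 2), (nat_lit 232))])], ⟨(nat_lit 6), false, true, true, (nat_lit 291), (nat_lit 2236), (nat_lit 3163), [(nat_lit 1627331), (nat_lit 1625251), (nat_lit 1638377), (nat_lit 1636607), (nat_lit 1825515), (nat_lit 1810637), (nat_lit 1836592), (nat_lit 1822025)]⟩, ⟨(nat_lit 5), false, false, true, (nat_lit 200), (nat_lit 2236), (nat_lit 3163), [(nat_lit 1411379), (nat_lit 1408901), (nat_lit 1455689), (nat_lit 1454450), (nat_lit 1548524), (nat_lit 1537186), (nat_lit 1592834), (nat_lit 1582735)]⟩, (nat_lit 5348803), (nat_lit 35938925), (nat_lit 20133246), (nat_lit 10927829), (nat_lit 5), (nat_lit 0), [], [⟨(nat_lit 1), (nat_lit 100), (nat_lit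 54), (nat_lit 98), (nat_lit 411321084)⟩], [⟨(nat_lit 1), (nat_lit 62), (nat_lit 99), (nat_lit 100), (nat_lit 159768457)⟩], [],
 ⟨⟨[(nat_lit 40), (nat_lit 80), (nat_lit 100)], [(nat_lit 0), (nat_lit 1598), (nat_lit 2533)], [((nat_lit 0), (nat_lit 0), (nat_lit 0)), ((nat_lit 1000), (nat_lit 625), (nat_lit 623)), ((nat_lit 1000), (nat_lit 604), (nat_lit 730))], ((nat_lit 60), (nat_lit 100), (nat_lit 78))⟩, (nat_lit 1296909), (nat_lit 148), (nat_lit 148), (nat_lit 0), (nat_lit 206332), [(nat_lit 1743852804), (nat_lit 3588134417), (nat_lit 4634259200)], [(nat_lit 0), (nat_lit 0), (nat_lit 0)], [(nat_lit 24090134573), (nat_lit 25036115044), (nat_lit 29775738907), (nat_lit 30838408155), (nat_lit 26596863880), (nat_lit 27815723623), (nat_lit 31802168766), (nat_lit 32699284629)], (nat_lit 1271251), (nat_lit 1271251), (nat_lit 1271251), (nat_lit 1271251), (nat_lit 1271251), (nat_lit 1271251), [(nat_lit 490000), (nat_lit 1100000), (nat_lit 1442501)], [(nat_lit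 3), (nat_lit 50), (nat_lit 203), (nat_lit 0), (nat_lit 6)]⟩,
 ⟨⟨[(nat_lit 80), (nat_lit 120), (nat_lit 160)], [(nat_lit 0), (nat_lit 528), (nat_lit 2577)], [((nat_lit 0), (nat_lit 0), (nat_lit 0)), ((nat_lit 1000), (nat_lit 959), (nat_lit 206)), ((nat_lit 929), (nat_lit 1000), (nat_lit 742))], ((nat_lit 100), (nat_lit 87), (nat_lit 82))⟩, (nat_lit 2081722), (nat_lit 411), (nat_lit 411), (nat_lit 0), (nat_lit 681477), [(nat_lit 3600384000), (nat_lit 6119424000), (nat_lit 9117696000)], [], [(nat_lit 21989204993), (nat_lit 22153130275), (nat_lit 24628643341), (nat_lit 24769983580), (nat_lit 24987024831), (nat_lit 25129221477), (nat_lit 27498609417), (nat_lit 27598585116)], (nat_lit 1271251), (nat_lit 1271251), (nat_lit 1271251), (nat_lit 1271251), (nat_lit 1271251), (nat_lit 1271251), [(nat_lit 1100000), (nat_lit 1785001), (nat_lit 1271251)], [(nat_lit 18), (nat_lit 59), (nat_lit 538), (nat_lit 300), (nat_lit 13)]⟩,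
 ⟨⟨[(nat_lit 140), (nat_lit 180), (nat_lit 200)], [(nat_lit 0), (nat_lit 0), (nat_lit 2835)], [((nat_lit 0), (nat_lit 0), (nat_lit 0)), ((nat_lit 0), (nat_lit 0), (nat_lit 0)), ((nat_lit 363), (nat_lit 1000), (nat_lit 798))], ((nat_lit 0), (nat_lit 0), (nat_lit 0))⟩, (nat_lit 36593), (nat_lit 300), (nat_lit 1435), (nat_lit 10387300), (nat_lit 2389092), [(nat_lit 1308986000), (nat_lit 1869714000), (nat_lit 2181200000)], [], [(nat_lit 7977749528), (nat_lit 7726754957), (nat_lit 7637519619), (nat_lit 7384828025), (nat_lit 7499708221), (nat_lit 7239087334), (nat_lit 7206293697), (nat_lit 6943300187)], (nat_lit 780000), (nat_lit 1100000), (nat_lit 1271251), (nat_lit 1271251), (nat_lit 1271251), (nat_lit 1271251), [(nat_lit 1977501), (nat_lit 1271251), (nat_lit 1271251)], [(nat_lit 32), (nat_lit 67), (nat_lit 463), (nat_lit 225), (nat_lit 9)]⟩⟩)) (.trX (nat_lit 5) (nat_lit 1) (nat_lit 2) (nat_lit 96) (nat_lit 54) (nat_lit 100) (nat_lit 370) (.leaf ⟨(nat_lit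 35), (nat_lit 822), (nat_lit 0), (nat_lit 143), (nat_lit 0), (nat_lit 4167), (nat_lit 6230), (nat_lit 1681), (nat_lit 0), (nat_lit 0), (nat_lit 140000), [((nat_lit 380), [((nat_lit 41), (nat_lit 5), (nat_lit 35))])], ⟨(nat_lit 6), false, true, true, (nat_lit 299), (nat_lit 2236), (nat_lit 3163), [(nat_lit 1638377), (nat_lit 1636607), (nat_lit 1649422), (nat_lit 1647962), (nat_lit 1851831), (nat_lit 1836278), (nat_lit 1862908), (nat_lit 1847666)]⟩, ⟨(nat_lit 5), false, false, true, (nat_lit 200), (nat_lit 2236), (nat_lit 3163), [(nat_lit 1411379), (nat_lit 1408901), (nat_lit 1455689), (nat_lit 1454450), (nat_lit 1548524), (nat_lit 1537186), (nat_lit 1592834), (nat_lit 1582735)]⟩, (nat_lit 5365370), (nat_lit 35424510), (nat_lit 20765426), (nat_lit 10810064), (nat_lit 5), (nat_lit 0), [], [⟨(nat_lit 1), (nat_lit 100), (nat_lit 54), (nat_lit 98), (nat_lit 479806826)⟩], [⟨(nat_lit 1), (nat_lit 67), (nat_lit 97), (nat_lit 100), (nat_lit 209454584)⟩], [],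
 ⟨⟨[(nat_lit 40), (nat_lit 80), (nat_lit 100)], [(nat_lit 0), (nat_lit 1598), (nat_lit 2533)], [((nat_lit 0), (nat_lit 0), (nat_lit 0)), ((nat_lit 1000), (nat_lit 625), (nat_lit 623)), ((nat_lit 1000), (nat_lit 604), (nat_lit 730))], ((nat_lit 60), (nat_lit 100), (nat_lit 78))⟩, (nat_lit 1371098), (nat_lit 154), (nat_lit 154), (nat_lit 0), (nat_lit 222774), [(nat_lit 1896298003), (nat_lit 3926274022), (nat_lit 5059300000)], [(nat_lit 0), (nat_lit 0), (nat_lit 0)], [(nat_lit 24197568196), (nat_lit 25165374055), (nat_lit 30592094931), (nat_lit 31647261091), (nat_lit 26758799820), (nat_lit 28008709518), (nat_lit 32522597724), (nat_lit 33411804168)], (nat_lit 1271251), (nat_lit 1271251), (nat_lit 1271251), (nat_lit 1271251), (nat_lit 1271251), (nat_lit 1271251), [(nat_lit 490000), (nat_lit 1100000), (nat_lit 1442501)], [(nat_lit 3), (nat_lit 50), (nat_lit 203), (nat_lit 0), (nat_lit 6)]⟩,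
 ⟨⟨[(nat_lit 80), (nat_lit 120), (nat_lit 160)], [(nat_lit 0), (nat_lit 796), (nat_lit 2802)], [((nat_lit 0), (nat_lit 0), (nat_lit 0)), ((nat_lit 1000), (nat_lit 938), (nat_lit 310)), ((nat_lit 969), (nat_lit 1000), (nat_lit 759))], ((nat_lit 100), (nat_lit 91), (nat_lit 84))⟩, (nat_lit 4042714), (nat_lit 414), (nat_lit 414), (nat_lit 0), (nat_lit 691137), [(nat_lit 4523920000), (nat_lit 7689120000), (nat_lit 11456480000)], [], [(nat_lit 26464884107), (nat_lit 26681840103), (nat_lit 29753362765), (nat_lit 29883680253), (nat_lit 29512297138), (nat_lit 29634014858), (nat_lit 34040416545), (nat_lit 34309559404)], (nat_lit 1271251), (nat_lit 1271251), (nat_lit 1271251), (nat_lit 1271251), (nat_lit 1271251), (nat_lit 1271251), [(nat_lit 1100000), (nat_lit 1785001), (nat_lit 1271251)], [(nat_lit 18), (nat_lit 59), (nat_lit 538), (nat_lit 300), (nat_lit 13)]⟩,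
 ⟨⟨[(nat_lit 140), (nat_lit 180), (nat_lit 200)], [(nat_lit 0), (nat_lit 0), (nat_lit 2835)], [((nat_lit 0), (nat_lit 0), (nat_lit 0)), ((nat_lit 0), (nat_lit 0), (nat_lit 0)), ((nat_lit 363), (nat_lit 1000), (nat_lit 798))], ((nat_lit 0), (nat_lit 0), (nat_lit 0))⟩, (nat_lit 39344), (nat_lit 300), (nat_lit 1524), (nat_lit 11168300), (nat_lit 2584099), [(nat_lit 1407406000), (nat_lit 2010294000), (nat_lit 2345200000)], [], [(nat_lit 8500312768), (nat_lit 8227784147), (nat_lit 8153690384), (nat_lit 7879274808), (nat_lit 8014527295), (nat_lit 7735914739), (nat_lit 7705070436), (nat_lit 7421075851)], (nat_lit 780000), (nat_lit 1100000), (nat_lit 1271251), (nat_lit 1271251), (nat_lit 1271251), (nat_lit 1271251), [(nat_lit 1977501), (nat_lit 1271251), (nat_lit 1271251)], [(nat_lit 32), (nat_lit 67), (nat_lit 484), (nat_lit 225), (nat_lit 10)]⟩⟩))))))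
noncomputable def c17_91 : Tr Lf :=
 (.spl (nat_lit 5) (nat_lit 120) (.spl (nat_lit 6) (nat_lit 60) (.leaf ⟨(nat_lit 0), (nat_lit 836), (nat_lit 0), (nat_lit 164), (nat_lit 0), (nat_lit 4124), (nat_lit 9948), (nat_lit 2551), (nat_lit 0), (nat_lit 0), (nat_lit 0), [], Pd.none, Pd.none, (nat_lit 0), (nat_lit 1), (nat_lit 0), (nat_lit 0), (nat_lit 4), (nat_lit 0), [], [], [], [⟨(nat_lit 0), (nat_lit 100), (nat_lit 84), (nat_lit 61), (nat_lit 266407339)⟩],
 ⟨⟨[(nat_lit 40), (nat_lit 80), (nat_lit 100)], [(nat_lit 0), (nat_lit 1598), (nat_lit 2533)], [((nat_lit 0), (nat_lit 0), (nat_lit 0)), ((nat_lit 1000), (nat_lit 625), (nat_lit 623)), ((nat_lit 1000), (nat_lit 604), (nat_lit 730))], ((nat_lit 61), (nat_lit 100), (nat_lit 72))⟩, (nat_lit 1663842), (nat_lit 198), (nat_lit 198), (nat_lit 0), (nat_lit 270776), [(nat_lit 2032000099), (nat_lit 4688000034), (nat_lit 6250000000)], [], [(nat_lit 24275155759), (nat_lit 25353833087), (nat_lit 30220647834), (nat_lit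 31393311748), (nat_lit 27877659449), (nat_lit 28741973261), (nat_lit 33021996756), (nat_lit 33869326526)], (nat_lit 1271251), (nat_lit 1271251), (nat_lit 1271251), (nat_lit 1271251), (nat_lit 780000), (nat_lit 2335626), [(nat_lit 490000), (nat_lit 1100000), (nat_lit 1442501)], [(nat_lit 3), (nat_lit 50), (nat_lit 317), (nat_lit 100), (nat_lit 11)]⟩,
 ⟨⟨[(nat_lit 80), (nat_lit 120), (nat_lit 160)], [(nat_lit 0), (nat_lit 0), (nat_lit 2132)], [((nat_lit 0), (nat_lit 0), (nat_lit 0)), ((nat_lit 0), (nat_lit 0), (nat_lit 0)), ((nat_lit 858), (nat_lit 1000), (nat_lit 713))], ((nat_lit 100), (nat_lit 85), (nat_lit 73))⟩, (nat_lit 3230778), (nat_lit 432), (nat_lit 432), (nat_lit 0), (nat_lit 428721), [(nat_lit 4688000000), (nat_lit 7968000000), (nat_lit 11872000000)], [], [(nat_lit 31013679320), (nat_lit 32284766776), (nat_lit 40352433912), (nat_lit 43402140800), (nat_lit 24769762952), (nat_lit 26248376036), (nat_lit 30958964572), (nat_lit 32785116662)],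 (nat_lit 1271251), (nat_lit 1271251), (nat_lit 1271251), (nat_lit 1271251), (nat_lit 0), (nat_lit 780000), [(nat_lit 1100000), (nat_lit 1785001), (nat_lit 1271251)], [(nat_lit 18), (nat_lit 59), (nat_lit 428), (nat_lit 200), (nat_lit 11)]⟩,
 ⟨⟨[(nat_lit 120), (nat_lit 160), (nat_lit 200)], [(nat_lit 0), (nat_lit 0), (nat_lit 3198)], [((nat_lit 0), (nat_lit 0), (nat_lit 0)), ((nat_lit 0), (nat_lit 0), (nat_lit 0)), ((nat_lit 572), (nat_lit 1000), (nat_lit 714))], ((nat_lit 0), (nat_lit 0), (nat_lit 0))⟩, (nat_lit 80000), (nat_lit 300), (nat_lit 1002), (nat_lit 12168800), (nat_lit 1102891), [(nat_lit 1306752000), (nat_lit 1947008000), (nat_lit 2689600000)], [], [(nat_lit 10837518214), (nat_lit 10765162027), (nat_lit 10220517371), (nat_lit 10108629710), (nat_lit 8639396771), (nat_lit 8508704625), (nat_lit 10574083101), (nat_lit 11251482853)], (nat_lit 1100000), (nat_lit 1271251), (nat_lit 780000), (nat_lit 2335626), (nat_lit 0), (nat_lit 780000), [(nat_lit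 1695001), (nat_lit 1271251), (nat_lit 1271251)], [(nat_lit 29), (nat_lit 66), (nat_lit 401), (nat_lit 175), (nat_lit 9)]⟩⟩) (.leaf ⟨(nat_lit 0), (nat_lit 813), (nat_lit 0), (nat_lit 187), (nat_lit 0), (nat_lit 7035), (nat_lit 7465), (nat_lit 2801), (nat_lit 0), (nat_lit 0), (nat_lit 0), [], Pd.none, Pd.none, (nat_lit 0), (nat_lit 1), (nat_lit 0), (nat_lit 0), (nat_lit 4), (nat_lit 0), [], [], [], [⟨(nat_lit 0), (nat_lit 100), (nat_lit 84), (nat_lit 61), (nat_lit 221877901)⟩],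
 ⟨⟨[(nat_lit 40), (nat_lit 80), (nat_lit 100)], [(nat_lit 0), (nat_lit 1598), (nat_lit 2533)], [((nat_lit 0), (nat_lit 0), (nat_lit 0)), ((nat_lit 1000), (nat_lit 625), (nat_lit 623)), ((nat_lit 1000), (nat_lit 604), (nat_lit 730))], ((nat_lit 60), (nat_lit 100), (nat_lit 78))⟩, (nat_lit 0), (nat_lit 153), (nat_lit 153), (nat_lit 0), (nat_lit 141408), [(nat_lit 2645565909), (nat_lit 4757944117), (nat_lit 6250000000)], [], [(nat_lit 26373045332), (nat_lit 28033910550), (nat_lit 34840706123), (nat_lit 36392232320), (nat_lit 30274639870), (nat_lit 31522745194), (nat_lit 36591912886), (nat_lit 37651936873)], (nat_lit 1271251), (nat_lit 1271251), (nat_lit 1271251), (nat_lit 1271251), (nat_lit 780000), (nat_lit 2335626), [(nat_lit 490000), (nat_lit 1100000), (nat_lit 1442501)], [(nat_lit 3), (nat_lit 50), (nat_lit 317), (nat_lit 100), (nat_lit 11)]⟩,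
 ⟨⟨[(nat_lit 80), (nat_lit 140), (nat_lit 180)], [(nat_lit 0), (nat_lit 0), (nat_lit 3656)], [((nat_lit 0), (nat_lit 0), (nat_lit 0)), ((nat_lit 0), (nat_lit 0), (nat_lit 0)), ((nat_lit 637), (nat_lit 1000), (nat_lit 908))], ((nat_lit 100), (nat_lit 78), (nat_lit 80))⟩, (nat_lit 2285583), (nat_lit 415), (nat_lit 415), (nat_lit 0), (nat_lit 227545), [(nat_lit 4688000000), (nat_lit 9842000000), (nat_lit 14058000000)], [], [(nat_lit 38572088592), (nat_lit 39867810292), (nat_lit 45135177865), (nat_lit 46166075975), (nat_lit 33840674300), (nat_lit 35129376085), (nat_lit 39822780170), (nat_lit 40742336869)], (nat_lit 1271251), (nat_lit 1271251), (nat_lit 1271251), (nat_lit 1271251), (nat_lit 0), (nat_lit 780000), [(nat_lit 1100000), (nat_lit 2127501), (nat_lit 1271251)], [(nat_lit 19), (nat_lit 63), (nat_lit 428), (nat_lit 200), (nat_lit 10)]⟩,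
 ⟨⟨[(nat_lit 120), (nat_lit 160), (nat_lit 200)], [(nat_lit 0), (nat_lit 0), (nat_lit 3198)], [((nat_lit 0), (nat_lit 0), (nat_lit 0)), ((nat_lit 0), (nat_lit 0), (nat_lit 0)), ((nat_lit 572), (nat_lit 1000), (nat_lit 714))], ((nat_lit 0), (nat_lit 0), (nat_lit 0))⟩, (nat_lit 91220), (nat_lit 300), (nat_lit 740), (nat_lit 13875400), (nat_lit 577586), [(nat_lit 1490016000), (nat_lit 2220064000), (nat_lit 3066800000)], [], [(nat_lit 12452502664), (nat_lit 12305044530), (nat_lit 11648188727), (nat_lit 11527879047), (nat_lit 10049600968), (nat_lit 9908334478), (nat_lit 11918216110), (nat_lit 12666747188)], (nat_lit 1100000), (nat_lit 1271251), (nat_lit 780000), (nat_lit 2335626), (nat_lit 0), (nat_lit 780000), [(nat_lit 1695001), (nat_lit 1271251), (nat_lit 1271251)], [(nat_lit 29), (nat_lit 66), (nat_lit 401), (nat_lit 175), (nat_lit 9)]⟩⟩)) (.stt (nat_lit 2) (.spl (nat_lit 0) (nat_lit 370) (.leaf ⟨(nat_lit 0), (nat_lit 612), (nat_lit 0), (nat_lit 388),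 (nat_lit 0), (nat_lit 4232), (nat_lit 9237), (nat_lit 3442), (nat_lit 0), (nat_lit 0), (nat_lit 0), [], Pd.none, Pd.none, (nat_lit 0), (nat_lit 1), (nat_lit 0), (nat_lit 0), (nat_lit 4), (nat_lit 0), [], [], [], [],
 ⟨⟨[(nat_lit 40), (nat_lit 80), (nat_lit 100)], [(nat_lit 0), (nat_lit 1598), (nat_lit 2533)], [((nat_lit 0), (nat_lit 0), (nat_lit 0)), ((nat_lit 1000), (nat_lit 625), (nat_lit 623)), ((nat_lit 1000), (nat_lit 604), (nat_lit 730))], ((nat_lit 60), (nat_lit 100), (nat_lit 78))⟩, (nat_lit 1603748), (nat_lit 169), (nat_lit 169), (nat_lit 0), (nat_lit 211688), [(nat_lit 2032000006), (nat_lit 4688000021), (nat_lit 6250000000)], [], [(nat_lit 24289132743), (nat_lit 24835034945), (nat_lit 30392055012), (nat_lit 30985414988), (nat_lit 27848732527), (nat_lit 28245744033), (nat_lit 33154442974), (nat_lit 33582053407)], (nat_lit 1271251), (nat_lit 1271251), (nat_lit 1271251), (nat_lit 1271251), (nat_lit 780000), (nat_lit 2335626), [(nat_lit 490000),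 (nat_lit 1100000), (nat_lit 1442501)], [(nat_lit 3), (nat_lit 50), (nat_lit 317), (nat_lit 100), (nat_lit 11)]⟩,
 ⟨⟨[(nat_lit 80), (nat_lit 140), (nat_lit 180)], [(nat_lit 0), (nat_lit 0), (nat_lit 3656)], [((nat_lit 0), (nat_lit 0), (nat_lit 0)), ((nat_lit 0), (nat_lit 0), (nat_lit 0)), ((nat_lit 637), (nat_lit 1000), (nat_lit 908))], ((nat_lit 100), (nat_lit 78), (nat_lit 80))⟩, (nat_lit 1955303), (nat_lit 189), (nat_lit 189), (nat_lit 0), (nat_lit 0), [(nat_lit 4688000000), (nat_lit 9842000000), (nat_lit 14058000000)], [], [(nat_lit 27004404564), (nat_lit 29084030588), (nat_lit 35451262003), (nat_lit 36593206209), (nat_lit 35183867628), (nat_lit 35909607710), (nat_lit 40061293585), (nat_lit 41017224896)], (nat_lit 0), (nat_lit 0), (nat_lit 0), (nat_lit 0), (nat_lit 0), (nat_lit 0), [], [(nat_lit 19), (nat_lit 63), (nat_lit 538), (nat_lit 300), (nat_lit 12)]⟩,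
 ⟨⟨[(nat_lit 120), (nat_lit 160), (nat_lit 200)], [(nat_lit 0), (nat_lit 0), (nat_lit 3198)], [((nat_lit 0), (nat_lit 0), (nat_lit 0)), ((nat_lit 0), (nat_lit 0), (nat_lit 0)), ((nat_lit 572), (nat_lit 1000), (nat_lit 714))], ((nat_lit 0), (nat_lit 0), (nat_lit 0))⟩, (nat_lit 189268), (nat_lit 300), (nat_lit 945), (nat_lit 28789605), (nat_lit 1226183), [(nat_lit 3091584000), (nat_lit 4606336000), (nat_lit 6363200000)], [], [(nat_lit 28273697030), (nat_lit 28092099205), (nat_lit 26614577947), (nat_lit 26421528614), (nat_lit 26379835102), (nat_lit 26175838303), (nat_lit 24506283760), (nat_lit 25554423800)], (nat_lit 1100000), (nat_lit 1271251), (nat_lit 780000), (nat_lit 2335626), (nat_lit 780000), (nat_lit 3072501), [(nat_lit 1695001), (nat_lit 1271251), (nat_lit 1271251)], [(nat_lit 29), (nat_lit 66), (nat_lit 456), (nat_lit 225), (nat_lit 10)]⟩⟩) (.trX (nat_lit 3) (nat_lit 0) (nat_lit 1) (nat_lit 57) (nat_lit 62) (nat_lit 100) (nat_lit 370) (.trX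 (nat_lit 4) (nat_lit 0) (nat_lit 2) (nat_lit 53) (nat_lit 90) (nat_lit 100) (nat_lit 290) (.leaf ⟨(nat_lit 0), (nat_lit 816), (nat_lit 0), (nat_lit 184), (nat_lit 0), (nat_lit 4313), (nat_lit 9680), (nat_lit 1731), (nat_lit 0), (nat_lit 0), (nat_lit 0), [], Pd.none, Pd.none, (nat_lit 0), (nat_lit 1), (nat_lit 0), (nat_lit 0), (nat_lit 4), (nat_lit 0), [], [⟨(nat_lit 1), (nat_lit 95), (nat_lit 49), (nat_lit 100), (nat_lit 254222371)⟩], [⟨(nat_lit 1), (nat_lit 44), (nat_lit 96), (nat_lit 100), (nat_lit 175792960)⟩], [],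
 ⟨⟨[(nat_lit 40), (nat_lit 80), (nat_lit 100)], [(nat_lit 0), (nat_lit 2008), (nat_lit 2969)], [((nat_lit 0), (nat_lit 0), (nat_lit 0)), ((nat_lit 1000), (nat_lit 540), (nat_lit 733)), ((nat_lit 1000), (nat_lit 536), (nat_lit 751))], ((nat_lit 53), (nat_lit 100), (nat_lit 79))⟩, (nat_lit 1304751), (nat_lit 191), (nat_lit 191), (nat_lit 0), (nat_lit 269574), [(nat_lit 2032000041), (nat_lit 4698264616), (nat_lit 6250000000)], [], [(nat_lit 24805856072), (nat_lit 25356680927), (nat_lit 30501450509), (nat_lit 31119241386), (nat_lit 27677113022), (nat_lit 28140372793), (nat_lit 32686191624), (nat_lit 33149984975)], (nat_lit 1271251), (nat_lit 1271251), (nat_lit 1271251), (nat_lit 1271251), (nat_lit 780000), (nat_lit 2171876), [(nat_lit 490000), (nat_lit 1100000), (nat_lit 1442501)], [(nat_lit 3), (nat_lit 50), (nat_lit 289), (nat_lit 75), (nat_lit 9)]⟩,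
 ⟨⟨[(nat_lit 80), (nat_lit 140), (nat_lit 180)], [(nat_lit 0), (nat_lit 0), (nat_lit 3656)], [((nat_lit 0), (nat_lit 0), (nat_lit 0)), ((nat_lit 0), (nat_lit 0), (nat_lit 0)), ((nat_lit 637), (nat_lit 1000), (nat_lit 908))], ((nat_lit 100), (nat_lit 78), (nat_lit 80))⟩, (nat_lit 1963881), (nat_lit 185), (nat_lit 185), (nat_lit 0), (nat_lit 0), [(nat_lit 4688000000), (nat_lit 9842000000), (nat_lit 14058000000)], [], [(nat_lit 26778759544), (nat_lit 28906739904), (nat_lit 34711697964), (nat_lit 35935543409), (nat_lit 35030020504), (nat_lit 35730560400), (nat_lit 39966604480), (nat_lit 40994146570)], (nat_lit 0), (nat_lit 0), (nat_lit 0), (nat_lit 0), (nat_lit 0), (nat_lit 0), [], [(nat_lit 19), (nat_lit 63), (nat_lit 538), (nat_lit 300), (nat_lit 12)]⟩,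
 ⟨⟨[(nat_lit 120), (nat_lit 160), (nat_lit 200)], [(nat_lit 0), (nat_lit 0), (nat_lit 3198)], [((nat_lit 0), (nat_lit 0), (nat_lit 0)), ((nat_lit 0), (nat_lit 0), (nat_lit 0)), ((nat_lit 572), (nat_lit 1000), (nat_lit 714))], ((nat_lit 0), (nat_lit 0), (nat_lit 0))⟩, (nat_lit 89756), (nat_lit 300), (nat_lit 1145), (nat_lit 13652802), (nat_lit 1657682), [(nat_lit 1466112000), (nat_lit 2184448000), (nat_lit 3017600000)], [], [(nat_lit 13533737164), (nat_lit 13431282894), (nat_lit 12662581685), (nat_lit 12557805638), (nat_lit 12371460918), (nat_lit 12262734286), (nat_lit 11448948870), (nat_lit 11961990728)], (nat_lit 1100000), (nat_lit 1271251), (nat_lit 780000), (nat_lit 2171876), (nat_lit 780000), (nat_lit 3072501), [(nat_lit 1695001), (nat_lit 1271251), (nat_lit 1271251)], [(nat_lit 29), (nat_lit 66), (nat_lit 456), (nat_lit 225), (nat_lit 10)]⟩⟩)))) (.leaf ⟨(nat_lit 0), (nat_lit 553), (nat_lit 0), (nat_lit 447), (nat_lit 0), (nat_lit 4058), (nat_lit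 9720), (nat_lit 4564), (nat_lit 0), (nat_lit 0), (nat_lit 0), [], Pd.none, Pd.none, (nat_lit 0), (nat_lit 1), (nat_lit 0), (nat_lit 0), (nat_lit 4), (nat_lit 0), [], [], [], [],
 ⟨⟨[(nat_lit 40), (nat_lit 80), (nat_lit 100)], [(nat_lit 0), (nat_lit 1598), (nat_lit 2533)], [((nat_lit 0), (nat_lit 0), (nat_lit 0)), ((nat_lit 1000), (nat_lit 625), (nat_lit 623)), ((nat_lit 1000), (nat_lit 604), (nat_lit 730))], ((nat_lit 60), (nat_lit 100), (nat_lit 78))⟩, (nat_lit 1854663), (nat_lit 162), (nat_lit 162), (nat_lit 0), (nat_lit 174568), [(nat_lit 2032000034), (nat_lit 4688000479), (nat_lit 6250000000)], [], [(nat_lit 23630040336), (nat_lit 24700775587), (nat_lit 30115899003), (nat_lit 31279973116), (nat_lit 27512902500), (nat_lit 28678905943), (nat_lit 32941057400), (nat_lit 33783564835)], (nat_lit 1271251), (nat_lit 1271251), (nat_lit 1271251), (nat_lit 1271251), (nat_lit 780000), (nat_lit 2335626), [(nat_lit 490000), (nat_lit 1100000), (nat_lit 1442501)],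 [(nat_lit 3), (nat_lit 50), (nat_lit 317), (nat_lit 100), (nat_lit 11)]⟩,
 ⟨⟨[(nat_lit 80), (nat_lit 140), (nat_lit 180)], [(nat_lit 0), (nat_lit 0), (nat_lit 3656)], [((nat_lit 0), (nat_lit 0), (nat_lit 0)), ((nat_lit 0), (nat_lit 0), (nat_lit 0)), ((nat_lit 637), (nat_lit 1000), (nat_lit 908))], ((nat_lit 100), (nat_lit 78), (nat_lit 80))⟩, (nat_lit 2299907), (nat_lit 443), (nat_lit 443), (nat_lit 0), (nat_lit 539591), [(nat_lit 4688000000), (nat_lit 9842000000), (nat_lit 14058000000)], [], [(nat_lit 29970480568), (nat_lit 31199066680), (nat_lit 36552439360), (nat_lit 37487534700), (nat_lit 36411200960), (nat_lit 36604618240), (nat_lit 40723102600), (nat_lit 41679663260)], (nat_lit 1271251), (nat_lit 1271251), (nat_lit 1271251), (nat_lit 1271251), (nat_lit 780000), (nat_lit 3072501), [(nat_lit 1100000), (nat_lit 2127501), (nat_lit 1271251)], [(nat_lit 19), (nat_lit 63), (nat_lit 538), (nat_lit 300), (nat_lit 12)]⟩,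
 ⟨⟨[(nat_lit 120), (nat_lit 160), (nat_lit 200)], [(nat_lit 0), (nat_lit 0), (nat_lit 3198)], [((nat_lit 0), (nat_lit 0), (nat_lit 0)), ((nat_lit 0), (nat_lit 0), (nat_lit 0)), ((nat_lit 572), (nat_lit 1000), (nat_lit 714))], ((nat_lit 0), (nat_lit 0), (nat_lit 0))⟩, (nat_lit 218049), (nat_lit 300), (nat_lit 899), (nat_lit 33167400), (nat_lit 1112536), [(nat_lit 3561696000), (nat_lit 5306784000), (nat_lit 7330800000)], [], [(nat_lit 29788779711), (nat_lit 29543896315), (nat_lit 27561324200), (nat_lit 27296742611), (nat_lit 27355296904), (nat_lit 27072012651), (nat_lit 29870709684), (nat_lit 31216042556)], (nat_lit 1100000), (nat_lit 1271251), (nat_lit 780000), (nat_lit 2335626), (nat_lit 780000), (nat_lit 3072501), [(nat_lit 1695001), (nat_lit 1271251), (nat_lit 1271251)], [(nat_lit 29), (nat_lit 66), (nat_lit 456), (nat_lit 225), (nat_lit 10)]⟩⟩)))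
noncomputable def c17_92 : Tr Lf :=
 (.spl (nat_lit 5) (nat_lit 120) (.spl (nat_lit 4) (nat_lit 200) (.leaf ⟨(nat_lit 0), (nat_lit 1000), (nat_lit 0), (nat_lit 0), (nat_lit 0), (nat_lit 4904), (nat_lit 6368), (nat_lit 0), (nat_lit 0), (nat_lit 0), (nat_lit 0), [], Pd.none, Pd.none, (nat_lit 0), (nat_lit 1), (nat_lit 0), (nat_lit 0), (nat_lit 3), (nat_lit 0), [], [], [], [⟨(nat_lit 0), (nat_lit 100), (nat_lit 82), (nat_lit 44), (nat_lit 18167724)⟩],
 ⟨⟨[(nat_lit 40), (nat_lit 80), (nat_lit 100)], [(nat_lit 0), (nat_lit 1598), (nat_lit 2533)], [((nat_lit 0), (nat_lit 0), (nat_lit 0)), ((nat_lit 1000), (nat_lit 625), (nat_lit 623)), ((nat_lit 1000), (nat_lit 604), (nat_lit 730))], ((nat_lit 60), (nat_lit 100), (nat_lit 78))⟩, (nat_lit 1432321), (nat_lit 276), (nat_lit 276), (nat_lit 0), (nat_lit 516903), [(nat_lit 2032000002), (nat_lit 4688000004), (nat_lit 6250000000)], [], [(nat_lit 24086873767), (nat_lit 25114917959), (nat_lit 32817515784), (nat_lit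 34006948052), (nat_lit 24803495503), (nat_lit 25719086547), (nat_lit 32729009464), (nat_lit 33791714356)], (nat_lit 1271251), (nat_lit 1271251), (nat_lit 1271251), (nat_lit 1271251), (nat_lit 780000), (nat_lit 1435001), [(nat_lit 490000), (nat_lit 1100000), (nat_lit 1442501)], [(nat_lit 3), (nat_lit 50), (nat_lit 260), (nat_lit 50), (nat_lit 8)]⟩,
 ⟨⟨[(nat_lit 60), (nat_lit 120), (nat_lit 160)], [(nat_lit 0), (nat_lit 0), (nat_lit 3243)], [((nat_lit 0), (nat_lit 0), (nat_lit 0)), ((nat_lit 0), (nat_lit 0), (nat_lit 0)), ((nat_lit 878), (nat_lit 1000), (nat_lit 945))], ((nat_lit 100), (nat_lit 96), (nat_lit 86))⟩, (nat_lit 1705233), (nat_lit 541), (nat_lit 541), (nat_lit 0), (nat_lit 645482), [(nat_lit 3282000000), (nat_lit 7968000000), (nat_lit 11872000000)], [], [(nat_lit 40669667733), (nat_lit 41808395429), (nat_lit 45746950736), (nat_lit 46566000768), (nat_lit 37208122421), (nat_lit 38168647013), (nat_lit 41868792056), (nat_lit 42594876144)],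 (nat_lit 1271251), (nat_lit 1271251), (nat_lit 1271251), (nat_lit 1271251), (nat_lit 0), (nat_lit 780000), [(nat_lit 780000), (nat_lit 1762501), (nat_lit 1271251)], [(nat_lit 12), (nat_lit 59), (nat_lit 456), (nat_lit 225), (nat_lit 11)]⟩,
 Rw.none⟩) (.trX (nat_lit 3) (nat_lit 4) (nat_lit 5) (nat_lit 100) (nat_lit 40) (nat_lit 92) (nat_lit 390) (.leaf ⟨(nat_lit 0), (nat_lit 889), (nat_lit 0), (nat_lit 111), (nat_lit 0), (nat_lit 4729), (nat_lit 6606), (nat_lit 1509), (nat_lit 0), (nat_lit 0), (nat_lit 0), [], Pd.none, Pd.none, (nat_lit 0), (nat_lit 1), (nat_lit 0), (nat_lit 0), (nat_lit 5), (nat_lit 0), [], [⟨(nat_lit 1), (nat_lit 99), (nat_lit 54), (nat_lit 100), (nat_lit 563539149)⟩], [⟨(nat_lit 0), (nat_lit 100), (nat_lit 89), (nat_lit 28), (nat_lit 163011875)⟩], [⟨(nat_lit 0), (nat_lit 100), (nat_lit 85), (nat_lit 81), (nat_lit 8611313)⟩],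
 ⟨⟨[(nat_lit 40), (nat_lit 80), (nat_lit 100)], [(nat_lit 0), (nat_lit 1598), (nat_lit 2533)], [((nat_lit 0), (nat_lit 0), (nat_lit 0)), ((nat_lit 1000), (nat_lit 625), (nat_lit 623)), ((nat_lit 1000), (nat_lit 604), (nat_lit 730))], ((nat_lit 60), (nat_lit 100), (nat_lit 78))⟩, (nat_lit 1521186), (nat_lit 252), (nat_lit 252), (nat_lit 0), (nat_lit 516903), [(nat_lit 2032000011), (nat_lit 4688000018), (nat_lit 6250000000)], [], [(nat_lit 24618221730), (nat_lit 25581098086), (nat_lit 31893747943), (nat_lit 32974822720), (nat_lit 28052690592), (nat_lit 29319847659), (nat_lit 34236889434), (nat_lit 35101242617)], (nat_lit 1271251), (nat_lit 1271251), (nat_lit 1271251), (nat_lit 1271251), (nat_lit 1271251), (nat_lit 1271251), [(nat_lit 490000), (nat_lit 1100000), (nat_lit 1442501)], [(nat_lit 3), (nat_lit 50), (nat_lit 203), (nat_lit 0), (nat_lit 6)]⟩,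
 ⟨⟨[(nat_lit 60), (nat_lit 120), (nat_lit 160)], [(nat_lit 0), (nat_lit 0), (nat_lit 3243)], [((nat_lit 0), (nat_lit 0), (nat_lit 0)), ((nat_lit 0), (nat_lit 0), (nat_lit 0)), ((nat_lit 878), (nat_lit 1000), (nat_lit 945))], ((nat_lit 100), (nat_lit 96), (nat_lit 86))⟩, (nat_lit 2001619), (nat_lit 541), (nat_lit 541), (nat_lit 0), (nat_lit 645482), [(nat_lit 3282000000), (nat_lit 7968000000), (nat_lit 11872000000)], [], [(nat_lit 39241332967), (nat_lit 40681056352), (nat_lit 44897559546), (nat_lit 45756924501), (nat_lit 36034015718), (nat_lit 37111525640), (nat_lit 40861258464), (nat_lit 41620663548)], (nat_lit 1271251), (nat_lit 1271251), (nat_lit 1271251), (nat_lit 1271251), (nat_lit 0), (nat_lit 780000), [(nat_lit 780000), (nat_lit 1762501), (nat_lit 1271251)], [(nat_lit 12), (nat_lit 59), (nat_lit 456), (nat_lit 225), (nat_lit 11)]⟩,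
 ⟨⟨[(nat_lit 140), (nat_lit 180), (nat_lit 200)], [(nat_lit 0), (nat_lit 0), (nat_lit 2835)], [((nat_lit 0), (nat_lit 0), (nat_lit 0)), ((nat_lit 0), (nat_lit 0), (nat_lit 0)), ((nat_lit 363), (nat_lit 1000), (nat_lit 798))], ((nat_lit 0), (nat_lit 0), (nat_lit 0))⟩, (nat_lit 30540), (nat_lit 300), (nat_lit 448), (nat_lit 8669100), (nat_lit 0), [(nat_lit 1092462000), (nat_lit 1560438000), (nat_lit 1820400000)], [], [(nat_lit 7258534194), (nat_lit 6993157451), (nat_lit 7324679472), (nat_lit 7018157991), (nat_lit 5929025815), (nat_lit 5671607043), (nat_lit 5950825905), (nat_lit 5667268993)], (nat_lit 0), (nat_lit 0), (nat_lit 0), (nat_lit 0), (nat_lit 0), (nat_lit 0), [], [(nat_lit 32), (nat_lit 67), (nat_lit 401), (nat_lit 175), (nat_lit 9)]⟩⟩))) (.leaf ⟨(nat_lit 0), (nat_lit 0), (nat_lit 0), (nat_lit 1000), (nat_lit 0), (nat_lit 4918), (nat_lit 9059), (nat_lit 19063), (nat_lit 0), (nat_lit 0), (nat_lit 0), [], Pd.none, Pd.none, (nat_lit 0), (nat_lit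 1), (nat_lit 0), (nat_lit 0), (nat_lit 0), (nat_lit 0), [], [], [], [],
 ⟨⟨[(nat_lit 40), (nat_lit 80), (nat_lit 100)], [(nat_lit 0), (nat_lit 1598), (nat_lit 2533)], [((nat_lit 0), (nat_lit 0), (nat_lit 0)), ((nat_lit 1000), (nat_lit 625), (nat_lit 623)), ((nat_lit 1000), (nat_lit 604), (nat_lit 730))], ((nat_lit 60), (nat_lit 100), (nat_lit 78))⟩, (nat_lit 1467052), (nat_lit 276), (nat_lit 276), (nat_lit 0), (nat_lit 516903), [(nat_lit 2032000757), (nat_lit 4688001213), (nat_lit 6250000000)], [], [(nat_lit 23896265508), (nat_lit 24925720172), (nat_lit 32841749378), (nat_lit 34032811659), (nat_lit 28207802514), (nat_lit 29500381168), (nat_lit 34957113993), (nat_lit 35806409585)], (nat_lit 1271251), (nat_lit 1271251), (nat_lit 1271251), (nat_lit 1271251), (nat_lit 780000), (nat_lit 2335626), [(nat_lit 490000), (nat_lit 1100000), (nat_lit 1442501)], [(nat_lit 3), (nat_lit 50), (nat_lit 317), (nat_lit 100), (nat_lit 11)]⟩,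
 ⟨⟨[(nat_lit 60), (nat_lit 120), (nat_lit 160)], [(nat_lit 0), (nat_lit 0), (nat_lit 3243)], [((nat_lit 0), (nat_lit 0), (nat_lit 0)), ((nat_lit 0), (nat_lit 0), (nat_lit 0)), ((nat_lit 878), (nat_lit 1000), (nat_lit 945))], ((nat_lit 100), (nat_lit 96), (nat_lit 86))⟩, (nat_lit 1916382), (nat_lit 507), (nat_lit 507), (nat_lit 0), (nat_lit 766272), [(nat_lit 3282000000), (nat_lit 7968000000), (nat_lit 11872000000)], [], [(nat_lit 28982777812), (nat_lit 30223354460), (nat_lit 34897398653), (nat_lit 36663306608), (nat_lit 32600922620), (nat_lit 33973654336), (nat_lit 40773096472), (nat_lit 41728795849)], (nat_lit 1271251), (nat_lit 1271251), (nat_lit 1271251), (nat_lit 1271251), (nat_lit 780000), (nat_lit 2908751), [(nat_lit 780000), (nat_lit 1762501), (nat_lit 1271251)], [(nat_lit 12), (nat_lit 59), (nat_lit 538), (nat_lit 300), (nat_lit 13)]⟩,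
 ⟨⟨[(nat_lit 140), (nat_lit 180), (nat_lit 200)], [(nat_lit 0), (nat_lit 0), (nat_lit 2835)], [((nat_lit 0), (nat_lit 0), (nat_lit 0)), ((nat_lit 0), (nat_lit 0), (nat_lit 0)), ((nat_lit 363), (nat_lit 1000), (nat_lit 798))], ((nat_lit 0), (nat_lit 0), (nat_lit 0))⟩, (nat_lit 5004325), (nat_lit 282), (nat_lit 282), (nat_lit 0), (nat_lit 0), [(nat_lit 9842000000), (nat_lit 14058000000), (nat_lit 16400000000)], [], [(nat_lit 27170639407), (nat_lit 27353753255), (nat_lit 36752294902), (nat_lit 35036705860), (nat_lit 46945786035), (nat_lit 44114739329), (nat_lit 45609434192), (nat_lit 43150020927)], (nat_lit 0), (nat_lit 0), (nat_lit 0), (nat_lit 0), (nat_lit 0), (nat_lit 0), [], [(nat_lit 32), (nat_lit 67), (nat_lit 456), (nat_lit 225), (nat_lit 10)]⟩⟩))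
noncomputable def c17_93 : Tr Lf :=
 (.trX (nat_lit 3) (nat_lit 0) (nat_lit 1) (nat_lit 69) (nat_lit 45) (nat_lit 100) (nat_lit 390) (.stt (nat_lit 2) (.spl (nat_lit 2) (nat_lit 140) (.trX (nat_lit 4) (nat_lit 0) (nat_lit 2) (nat_lit 63) (nat_lit 99) (nat_lit 100) (nat_lit 270) (.trX (nat_lit 5) (nat_lit 1) (nat_lit 2) (nat_lit 96) (nat_lit 69) (nat_lit 100) (nat_lit 360) (.leaf ⟨(nat_lit 0), (nat_lit 1000), (nat_lit 0), (nat_lit 0), (nat_lit 0), (nat_lit 5866), (nat_lit 7592), (nat_lit 0), (nat_lit 0), (nat_lit 0), (nat_lit 0), [], Pd.none, Pd.none, (nat_lit 0), (nat_lit 1), (nat_lit 0), (nat_lit 0), (nat_lit 3), (nat_lit 0), [], [⟨(nat_lit 1), (nat_lit 100), (nat_lit 54), (nat_lit 96), (nat_lit 425077606)⟩], [⟨(nat_lit 1), (nat_lit 69), (nat_lit 96), (nat_lit 100), (nat_lit 156901601)⟩], [],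
 ⟨⟨[(nat_lit 40), (nat_lit 80), (nat_lit 100)], [(nat_lit 0), (nat_lit 1598), (nat_lit 2533)], [((nat_lit 0), (nat_lit 0), (nat_lit 0)), ((nat_lit 1000), (nat_lit 625), (nat_lit 623)), ((nat_lit 1000), (nat_lit 604), (nat_lit 730))], ((nat_lit 60), (nat_lit 100), (nat_lit 78))⟩, (nat_lit 577103), (nat_lit 228), (nat_lit 228), (nat_lit 0), (nat_lit 360592), [(nat_lit 2353346089), (nat_lit 4688000094), (nat_lit 6250000000)], [], [(nat_lit 25676623035), (nat_lit 27054733180), (nat_lit 33734046009), (nat_lit 35084456033), (nat_lit 27915628961), (nat_lit 29164173040), (nat_lit 34578719412), (nat_lit 35618291828)], (nat_lit 1271251), (nat_lit 1271251), (nat_lit 1271251), (nat_lit 1271251), (nat_lit 780000), (nat_lit 2008126), [(nat_lit 490000), (nat_lit 1100000), (nat_lit 1442501)], [(nat_lit 3), (nat_lit 50), (nat_lit 289), (nat_lit 75), (nat_lit 9)]⟩,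
 ⟨⟨[(nat_lit 60), (nat_lit 120), (nat_lit 160)], [(nat_lit 0), (nat_lit 0), (nat_lit 3243)], [((nat_lit 0), (nat_lit 0), (nat_lit 0)), ((nat_lit 0), (nat_lit 0), (nat_lit 0)), ((nat_lit 878), (nat_lit 1000), (nat_lit 945))], ((nat_lit 100), (nat_lit 96), (nat_lit 86))⟩, (nat_lit 1997401), (nat_lit 249), (nat_lit 249), (nat_lit 0), (nat_lit 0), [(nat_lit 3282000000), (nat_lit 7968000000), (nat_lit 11872000000)], [], [(nat_lit 30630736221), (nat_lit 31871767717), (nat_lit 40106148947), (nat_lit 40794172682), (nat_lit 31231763365), (nat_lit 31951089544), (nat_lit 37085901559), (nat_lit 37581294646)], (nat_lit 0), (nat_lit 0), (nat_lit 0), (nat_lit 0), (nat_lit 0), (nat_lit 0), [], [(nat_lit 12), (nat_lit 59), (nat_lit 538), (nat_lit 300), (nat_lit 13)]⟩,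
 Rw.none⟩))) (.leaf ⟨(nat_lit 0), (nat_lit 909), (nat_lit 0), (nat_lit 91), (nat_lit 0), (nat_lit 5984), (nat_lit 7687), (nat_lit 737), (nat_lit 0), (nat_lit 0), (nat_lit 0), [], Pd.none, Pd.none, (nat_lit 0), (nat_lit 1), (nat_lit 0), (nat_lit 0), (nat_lit 3), (nat_lit 0), [], [⟨(nat_lit 1), (nat_lit 99), (nat_lit 54), (nat_lit 100), (nat_lit 320887015)⟩], [⟨(nat_lit 1), (nat_lit 68), (nat_lit 92), (nat_lit 100), (nat_lit 88753820)⟩], [],
 ⟨⟨[(nat_lit 40), (nat_lit 80), (nat_lit 100)], [(nat_lit 0), (nat_lit 1598), (nat_lit 2533)], [((nat_lit 0), (nat_lit 0), (nat_lit 0)), ((nat_lit 1000), (nat_lit 625), (nat_lit 623)), ((nat_lit 1000), (nat_lit 604), (nat_lit 730))], ((nat_lit 60), (nat_lit 100), (nat_lit 78))⟩, (nat_lit 424790), (nat_lit 213), (nat_lit 213), (nat_lit 0), (nat_lit 309205), [(nat_lit 2385429370), (nat_lit 4688000434), (nat_lit 6250000000)], [], [(nat_lit 26128421160), (nat_lit 27522170140), (nat_lit 33929812404), (nat_lit 35294770530),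 (nat_lit 28984593194), (nat_lit 30188290462), (nat_lit 35276576736), (nat_lit 36276416940)], (nat_lit 1271251), (nat_lit 1271251), (nat_lit 1271251), (nat_lit 1271251), (nat_lit 780000), (nat_lit 2171876), [(nat_lit 490000), (nat_lit 1100000), (nat_lit 1442501)], [(nat_lit 3), (nat_lit 50), (nat_lit 289), (nat_lit 75), (nat_lit 9)]⟩,
 ⟨⟨[(nat_lit 60), (nat_lit 120), (nat_lit 160)], [(nat_lit 0), (nat_lit 0), (nat_lit 3243)], [((nat_lit 0), (nat_lit 0), (nat_lit 0)), ((nat_lit 0), (nat_lit 0), (nat_lit 0)), ((nat_lit 878), (nat_lit 1000), (nat_lit 945))], ((nat_lit 100), (nat_lit 96), (nat_lit 86))⟩, (nat_lit 1968721), (nat_lit 249), (nat_lit 249), (nat_lit 0), (nat_lit 0), [(nat_lit 3282000000), (nat_lit 7968000000), (nat_lit 11872000000)], [], [(nat_lit 30764019951), (nat_lit 32013141932), (nat_lit 40303116212), (nat_lit 40993409735), (nat_lit 31809654077), (nat_lit 32517452094), (nat_lit 37711275471), (nat_lit 38249988254)], (nat_lit 0), (nat_lit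 0), (nat_lit 0), (nat_lit 0), (nat_lit 0), (nat_lit 0), [], [(nat_lit 12), (nat_lit 59), (nat_lit 538), (nat_lit 300), (nat_lit 13)]⟩,
 ⟨⟨[(nat_lit 140), (nat_lit 180), (nat_lit 200)], [(nat_lit 0), (nat_lit 608), (nat_lit 3317)], [((nat_lit 0), (nat_lit 0), (nat_lit 0)), ((nat_lit 913), (nat_lit 1000), (nat_lit 217)), ((nat_lit 385), (nat_lit 1000), (nat_lit 814))], ((nat_lit 0), (nat_lit 0), (nat_lit 0))⟩, (nat_lit 210138), (nat_lit 300), (nat_lit 1888), (nat_lit 6397301), (nat_lit 3028549), [(nat_lit 895622000), (nat_lit 1279278000), (nat_lit 1492400000)], [], [(nat_lit 8934044884), (nat_lit 8882745545), (nat_lit 8558057129), (nat_lit 8507358896), (nat_lit 8055848676), (nat_lit 8006224211), (nat_lit 7686961299), (nat_lit 7637940855)], (nat_lit 936250), (nat_lit 1100000), (nat_lit 780000), (nat_lit 2171876), (nat_lit 0), (nat_lit 2613125), [(nat_lit 1977501), (nat_lit 1271251), (nat_lit 1271251)], [(nat_lit 32), (nat_lit 67), (nat_lit 575), (nat_lit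 225), (nat_lit 12)]⟩⟩)) (.spl (nat_lit 5) (nat_lit 200) (.spl (nat_lit 0) (nat_lit 370) (.leaf ⟨(nat_lit 0), (nat_lit 990), (nat_lit 0), (nat_lit 10), (nat_lit 0), (nat_lit 4285), (nat_lit 8353), (nat_lit 116), (nat_lit 0), (nat_lit 0), (nat_lit 0), [], Pd.none, Pd.none, (nat_lit 0), (nat_lit 1), (nat_lit 0), (nat_lit 0), (nat_lit 3), (nat_lit 0), [], [⟨(nat_lit 1), (nat_lit 100), (nat_lit 59), (nat_lit 100), (nat_lit 475131143)⟩], [], [],
 ⟨⟨[(nat_lit 40), (nat_lit 80), (nat_lit 100)], [(nat_lit 0), (nat_lit 1598), (nat_lit 2533)], [((nat_lit 0), (nat_lit 0), (nat_lit 0)), ((nat_lit 1000), (nat_lit 625), (nat_lit 623)), ((nat_lit 1000), (nat_lit 604), (nat_lit 730))], ((nat_lit 60), (nat_lit 100), (nat_lit 78))⟩, (nat_lit 1628441), (nat_lit 160), (nat_lit 160), (nat_lit 0), (nat_lit 166025), [(nat_lit 2032000023), (nat_lit 4688000035), (nat_lit 6250000000)], [], [(nat_lit 24072159557), (nat_lit 24621282755), (nat_lit 31111108117), (nat_lit 31688853174),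 (nat_lit 27064423772), (nat_lit 27481606951), (nat_lit 33141509591), (nat_lit 33577538877)], (nat_lit 1271251), (nat_lit 1271251), (nat_lit 1271251), (nat_lit 1271251), (nat_lit 780000), (nat_lit 2171876), [(nat_lit 490000), (nat_lit 1100000), (nat_lit 1442501)], [(nat_lit 3), (nat_lit 50), (nat_lit 289), (nat_lit 75), (nat_lit 9)]⟩,
 ⟨⟨[(nat_lit 60), (nat_lit 120), (nat_lit 160)], [(nat_lit 0), (nat_lit 0), (nat_lit 3243)], [((nat_lit 0), (nat_lit 0), (nat_lit 0)), ((nat_lit 0), (nat_lit 0), (nat_lit 0)), ((nat_lit 878), (nat_lit 1000), (nat_lit 945))], ((nat_lit 100), (nat_lit 96), (nat_lit 86))⟩, (nat_lit 1788078), (nat_lit 489), (nat_lit 489), (nat_lit 0), (nat_lit 507035), [(nat_lit 3282000000), (nat_lit 7968000000), (nat_lit 11872000000)], [], [(nat_lit 36504771938), (nat_lit 37110830496), (nat_lit 41829375073), (nat_lit 42323947859), (nat_lit 30695677173), (nat_lit 31133840461), (nat_lit 35228681848), (nat_lit 35528542097)], (nat_lit 1271251),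 (nat_lit 1271251), (nat_lit 1271251), (nat_lit 1271251), (nat_lit 0), (nat_lit 1412501), [(nat_lit 780000), (nat_lit 1762501), (nat_lit 1271251)], [(nat_lit 12), (nat_lit 59), (nat_lit 456), (nat_lit 225), (nat_lit 11)]⟩,
 ⟨⟨[(nat_lit 140), (nat_lit 180), (nat_lit 200)], [(nat_lit 0), (nat_lit 0), (nat_lit 2835)], [((nat_lit 0), (nat_lit 0), (nat_lit 0)), ((nat_lit 0), (nat_lit 0), (nat_lit 0)), ((nat_lit 363), (nat_lit 1000), (nat_lit 798))], ((nat_lit 0), (nat_lit 0), (nat_lit 0))⟩, (nat_lit 2751), (nat_lit 300), (nat_lit 1654), (nat_lit 781005), (nat_lit 2511057), [(nat_lit 98420000), (nat_lit 140580000), (nat_lit 164000000)], [], [(nat_lit 758516868), (nat_lit 738834880), (nat_lit 700252954), (nat_lit 680386017), (nat_lit 638613140), (nat_lit 619743026), (nat_lit 723422387), (nat_lit 779955837)], (nat_lit 780000), (nat_lit 1100000), (nat_lit 780000), (nat_lit 2171876), (nat_lit 0), (nat_lit 1412501), [(nat_lit 1977501), (nat_lit 1271251), (nat_lit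 1271251)], [(nat_lit 32), (nat_lit 67), (nat_lit 495), (nat_lit 175), (nat_lit 11)]⟩⟩) (.trX (nat_lit 3) (nat_lit 0) (nat_lit 1) (nat_lit 61) (nat_lit 55) (nat_lit 100) (nat_lit 380) (.trX (nat_lit 4) (nat_lit 0) (nat_lit 2) (nat_lit 54) (nat_lit 96) (nat_lit 100) (nat_lit 270) (.leaf ⟨(nat_lit 0), (nat_lit 1000), (nat_lit 0), (nat_lit 0), (nat_lit 0), (nat_lit 4227), (nat_lit 8437), (nat_lit 0), (nat_lit 0), (nat_lit 0), (nat_lit 0), [], Pd.none, Pd.none, (nat_lit 0), (nat_lit 1), (nat_lit 0), (nat_lit 0), (nat_lit 3), (nat_lit 0), [], [⟨(nat_lit 1), (nat_lit 100), (nat_lit 49), (nat_lit 97), (nat_lit 600673179)⟩], [], [],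
 ⟨⟨[(nat_lit 40), (nat_lit 80), (nat_lit 100)], [(nat_lit 0), (nat_lit 2008), (nat_lit 2969)], [((nat_lit 0), (nat_lit 0), (nat_lit 0)), ((nat_lit 1000), (nat_lit 540), (nat_lit 733)), ((nat_lit 1000), (nat_lit 536), (nat_lit 751))], ((nat_lit 53), (nat_lit 100), (nat_lit 79))⟩, (nat_lit 1450511), (nat_lit 165), (nat_lit 165), (nat_lit 0), (nat_lit 188840), [(nat_lit 2032000001), (nat_lit 4688000004), (nat_lit 6250000000)], [], [(nat_lit 24251466687), (nat_lit 24797077030), (nat_lit 30977154100), (nat_lit 31570188704), (nat_lit 26811229051), (nat_lit 27285300050), (nat_lit 32508896367), (nat_lit 32975470577)], (nat_lit 1271251), (nat_lit 1271251), (nat_lit 1271251), (nat_lit 1271251), (nat_lit 780000), (nat_lit 2008126), [(nat_lit 490000), (nat_lit 1100000), (nat_lit 1442501)], [(nat_lit 3), (nat_lit 50), (nat_lit 289), (nat_lit 75), (nat_lit 9)]⟩,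
 ⟨⟨[(nat_lit 60), (nat_lit 120), (nat_lit 160)], [(nat_lit 0), (nat_lit 0), (nat_lit 3243)], [((nat_lit 0), (nat_lit 0), (nat_lit 0)), ((nat_lit 0), (nat_lit 0), (nat_lit 0)), ((nat_lit 878), (nat_lit 1000), (nat_lit 945))], ((nat_lit 100), (nat_lit 96), (nat_lit 86))⟩, (nat_lit 1788231), (nat_lit 527), (nat_lit 527), (nat_lit 0), (nat_lit 607819), [(nat_lit 3282000000), (nat_lit 7968000000), (nat_lit 11872000000)], [], [(nat_lit 36339397535), (nat_lit 36947008917), (nat_lit 41189389510), (nat_lit 41684328466), (nat_lit 30440422350), (nat_lit 30877080769), (nat_lit 34606468554), (nat_lit 34925099446)], (nat_lit 1271251), (nat_lit 1271251), (nat_lit 1271251), (nat_lit 1271251), (nat_lit 0), (nat_lit 1412501), [(nat_lit 780000), (nat_lit 1762501), (nat_lit 1271251)], [(nat_lit 12), (nat_lit 59), (nat_lit 456), (nat_lit 225), (nat_lit 11)]⟩,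
 Rw.none⟩)))) (.spl (nat_lit 0) (nat_lit 370) (.leaf ⟨(nat_lit 0), (nat_lit 857), (nat_lit 0), (nat_lit 143), (nat_lit 0), (nat_lit 4285), (nat_lit 8163), (nat_lit 1639), (nat_lit 0), (nat_lit 0), (nat_lit 0), [], Pd.none, Pd.none, (nat_lit 0), (nat_lit 1), (nat_lit 0), (nat_lit 0), (nat_lit 5), (nat_lit 0), [], [⟨(nat_lit 1), (nat_lit 100), (nat_lit 59), (nat_lit 100), (nat_lit 260063564)⟩], [⟨(nat_lit 1), (nat_lit 73), (nat_lit 94), (nat_lit 100), (nat_lit 261496999)⟩], [],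
 ⟨⟨[(nat_lit 40), (nat_lit 80), (nat_lit 100)], [(nat_lit 0), (nat_lit 1598), (nat_lit 2533)], [((nat_lit 0), (nat_lit 0), (nat_lit 0)), ((nat_lit 1000), (nat_lit 625), (nat_lit 623)), ((nat_lit 1000), (nat_lit 604), (nat_lit 730))], ((nat_lit 60), (nat_lit 100), (nat_lit 78))⟩, (nat_lit 1628437), (nat_lit 160), (nat_lit 160), (nat_lit 0), (nat_lit 166025), [(nat_lit 2032000222), (nat_lit 4688000314), (nat_lit 6250000000)], [], [(nat_lit 24072176559), (nat_lit 24621299757), (nat_lit 31111108117), (nat_lit 31688853174), (nat_lit 27064440774), (nat_lit 27481606951), (nat_lit 33141509591), (nat_lit 33577538877)], (nat_lit 1271251), (nat_lit 1271251), (nat_lit 1271251), (nat_lit 1271251), (nat_lit 780000), (nat_lit 2171876), [(nat_lit 490000), (nat_lit 1100000), (nat_lit 1442501)], [(nat_lit 3), (nat_lit 50), (nat_lit 289), (nat_lit 75), (nat_lit 9)]⟩,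
 ⟨⟨[(nat_lit 60), (nat_lit 120), (nat_lit 160)], [(nat_lit 0), (nat_lit 0), (nat_lit 3243)], [((nat_lit 0), (nat_lit 0), (nat_lit 0)), ((nat_lit 0), (nat_lit 0), (nat_lit 0)), ((nat_lit 878), (nat_lit 1000), (nat_lit 945))], ((nat_lit 100), (nat_lit 96), (nat_lit 86))⟩, (nat_lit 1712537), (nat_lit 348), (nat_lit 348), (nat_lit 0), (nat_lit 507035), [(nat_lit 3282000000), (nat_lit 7968000000), (nat_lit 11872000000)], [], [(nat_lit 28802361489), (nat_lit 29472805574), (nat_lit 34149974046), (nat_lit 34616765550), (nat_lit 33226316697), (nat_lit 33706218752), (nat_lit 38325588874), (nat_lit 38867816098)], (nat_lit 1271251), (nat_lit 1271251), (nat_lit 1271251), (nat_lit 1271251), (nat_lit 1271251), (nat_lit 1271251), [(nat_lit 780000), (nat_lit 1762501), (nat_lit 1271251)], [(nat_lit 12), (nat_lit 59), (nat_lit 538), (nat_lit 300), (nat_lit 13)]⟩,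
 ⟨⟨[(nat_lit 140), (nat_lit 180), (nat_lit 200)], [(nat_lit 0), (nat_lit 0), (nat_lit 2835)], [((nat_lit 0), (nat_lit 0), (nat_lit 0)), ((nat_lit 0), (nat_lit 0), (nat_lit 0)), ((nat_lit 363), (nat_lit 1000), (nat_lit 798))], ((nat_lit 0), (nat_lit 0), (nat_lit 0))⟩, (nat_lit 39344), (nat_lit 300), (nat_lit 1530), (nat_lit 11168300), (nat_lit 2511057), [(nat_lit 1407406000), (nat_lit 2010294000), (nat_lit 2345200000)], [], [(nat_lit 9238863447), (nat_lit 8972996241), (nat_lit 8359796624), (nat_lit 8093804975), (nat_lit 8713693841), (nat_lit 8438425042), (nat_lit 7832971574), (nat_lit 7557876841)], (nat_lit 780000), (nat_lit 1100000), (nat_lit 780000), (nat_lit 2171876), (nat_lit 1271251), (nat_lit 1271251), [(nat_lit 1977501), (nat_lit 1271251), (nat_lit 1271251)], [(nat_lit 32), (nat_lit 67), (nat_lit 485), (nat_lit 225), (nat_lit 10)]⟩⟩) (.trX (nat_lit 3) (nat_lit 0) (nat_lit 1) (nat_lit 61) (nat_lit 55) (nat_lit 100) (nat_lit 380) (.trX (nat_lit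 4) (nat_lit 0) (nat_lit 2) (nat_lit 54) (nat_lit 96) (nat_lit 100) (nat_lit 270) (.leaf ⟨(nat_lit 191), (nat_lit 700), (nat_lit 0), (nat_lit 109), (nat_lit 0), (nat_lit 3842), (nat_lit 6325), (nat_lit 1291), (nat_lit 0), (nat_lit 0), (nat_lit 128200), [((nat_lit 380), [((nat_lit 41), (nat_lit 2), (nat_lit 157)), ((nat_lit 25), (nat_lit 2), (nat_lit 34))])], ⟨(nat_lit 7), false, true, true, (nat_lit 305), (nat_lit 2236), (nat_lit 2739), [(nat_lit 1648684), (nat_lit 1648065), (nat_lit 1671081), (nat_lit 1670819), (nat_lit 1855444), (nat_lit 1847666), (nat_lit 1877861), (nat_lit 1870440)]⟩, ⟨(nat_lit 3), false, false, true, (nat_lit 170), (nat_lit 2236), (nat_lit 2739), [(nat_lit 1292206), (nat_lit 1294870), (nat_lit 1337013), (nat_lit 1340391), (nat_lit 1513686), (nat_lit 1508679), (nat_lit 1558521), (nat_lit 1554227)]⟩, (nat_lit 5159664), (nat_lit 36444460), (nat_lit 21969760), (nat_lit 8585780), (nat_lit 5), (nat_lit 0), [], [⟨(nat_lit 1), (nat_lit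 100), (nat_lit 49), (nat_lit 97), (nat_lit 310747971)⟩], [⟨(nat_lit 1), (nat_lit 73), (nat_lit 94), (nat_lit 100), (nat_lit 195555679)⟩], [],
 ⟨⟨[(nat_lit 40), (nat_lit 80), (nat_lit 100)], [(nat_lit 0), (nat_lit 2008), (nat_lit 2969)], [((nat_lit 0), (nat_lit 0), (nat_lit 0)), ((nat_lit 1000), (nat_lit 540), (nat_lit 733)), ((nat_lit 1000), (nat_lit 536), (nat_lit 751))], ((nat_lit 53), (nat_lit 100), (nat_lit 79))⟩, (nat_lit 1153507), (nat_lit 165), (nat_lit 165), (nat_lit 0), (nat_lit 188840), [(nat_lit 1777907603), (nat_lit 3717551575), (nat_lit 4811530000)], [(nat_lit 0), (nat_lit 0), (nat_lit 0)], [(nat_lit 23878380500), (nat_lit 24404251925), (nat_lit 30341065666), (nat_lit 30909046684), (nat_lit 26504336716), (nat_lit 26959804402), (nat_lit 32031109791), (nat_lit 32480977804)], (nat_lit 1271251), (nat_lit 1271251), (nat_lit 1271251), (nat_lit 1271251), (nat_lit 780000), (nat_lit 2008126), [(nat_lit 490000), (nat_lit 1100000), (nat_lit 1442501)],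 [(nat_lit 3), (nat_lit 50), (nat_lit 289), (nat_lit 75), (nat_lit 9)]⟩,
 ⟨⟨[(nat_lit 60), (nat_lit 120), (nat_lit 160)], [(nat_lit 0), (nat_lit 0), (nat_lit 3243)], [((nat_lit 0), (nat_lit 0), (nat_lit 0)), ((nat_lit 0), (nat_lit 0), (nat_lit 0)), ((nat_lit 878), (nat_lit 1000), (nat_lit 945))], ((nat_lit 100), (nat_lit 96), (nat_lit 86))⟩, (nat_lit 1385785), (nat_lit 383), (nat_lit 383), (nat_lit 0), (nat_lit 607819), [(nat_lit 2655138000), (nat_lit 6446112000), (nat_lit 9604448000)], [], [(nat_lit 23831391723), (nat_lit 24366727047), (nat_lit 27752641893), (nat_lit 28073636678), (nat_lit 27386312175), (nat_lit 27772931395), (nat_lit 30326253715), (nat_lit 30600246471)], (nat_lit 1271251), (nat_lit 1271251), (nat_lit 1271251), (nat_lit 1271251), (nat_lit 1271251), (nat_lit 1271251), [(nat_lit 780000), (nat_lit 1762501), (nat_lit 1271251)], [(nat_lit 12), (nat_lit 59), (nat_lit 538), (nat_lit 300), (nat_lit 13)]⟩,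
 ⟨⟨[(nat_lit 140), (nat_lit 180), (nat_lit 200)], [(nat_lit 0), (nat_lit 0), (nat_lit 2835)], [((nat_lit 0), (nat_lit 0), (nat_lit 0)), ((nat_lit 0), (nat_lit 0), (nat_lit 0)), ((nat_lit 363), (nat_lit 1000), (nat_lit 798))], ((nat_lit 0), (nat_lit 0), (nat_lit 0))⟩, (nat_lit 29989), (nat_lit 300), (nat_lit 1776), (nat_lit 8512906), (nat_lit 3025371), [(nat_lit 1072778000), (nat_lit 1532322000), (nat_lit 1787600000)], [], [(nat_lit 6817400211), (nat_lit 6606375247), (nat_lit 6216306766), (nat_lit 6006239811), (nat_lit 6472412246), (nat_lit 6256911877), (nat_lit 5880421593), (nat_lit 5663244822)], (nat_lit 780000), (nat_lit 1100000), (nat_lit 780000), (nat_lit 2008126), (nat_lit 1271251), (nat_lit 1271251), [(nat_lit 1977501), (nat_lit 1271251), (nat_lit 1271251)], [(nat_lit 32), (nat_lit 67), (nat_lit 544), (nat_lit 200), (nat_lit 11)]⟩⟩)))))))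
noncomputable def c17_94 : Tr Lf :=
 (.trX (nat_lit 5) (nat_lit 1) (nat_lit 2) (nat_lit 88) (nat_lit 68) (nat_lit 100) (nat_lit 350) (.spl (nat_lit 4) (nat_lit 200) (.spl (nat_lit 0) (nat_lit 370) (.leaf ⟨(nat_lit 0), (nat_lit 1000), (nat_lit 0), (nat_lit 0), (nat_lit 0), (nat_lit 4765), (nat_lit 6084), (nat_lit 0), (nat_lit 0), (nat_lit 0), (nat_lit 0), [], Pd.none, Pd.none, (nat_lit 0), (nat_lit 1), (nat_lit 0), (nat_lit 0), (nat_lit 3), (nat_lit 0), [], [], [⟨(nat_lit 1), (nat_lit 81), (nat_lit 88), (nat_lit 100), (nat_lit 186619116)⟩], [],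
 ⟨⟨[(nat_lit 40), (nat_lit 80), (nat_lit 100)], [(nat_lit 0), (nat_lit 1598), (nat_lit 2533)], [((nat_lit 0), (nat_lit 0), (nat_lit 0)), ((nat_lit 1000), (nat_lit 625), (nat_lit 623)), ((nat_lit 1000), (nat_lit 604), (nat_lit 730))], ((nat_lit 60), (nat_lit 100), (nat_lit 78))⟩, (nat_lit 1568161), (nat_lit 239), (nat_lit 239), (nat_lit 0), (nat_lit 395639), [(nat_lit 2032000319), (nat_lit 4688000486), (nat_lit 6250000000)], [], [(nat_lit 23547238633), (nat_lit 24089075621), (nat_lit 32576910815), (nat_lit 33163535099), (nat_lit 24317668993), (nat_lit 24800189400), (nat_lit 32537100365), (nat_lit 33061686257)], (nat_lit 1271251), (nat_lit 1271251), (nat_lit 1271251), (nat_lit 1271251), (nat_lit 780000), (nat_lit 1435001), [(nat_lit 490000), (nat_lit 1100000), (nat_lit 1442501)], [(nat_lit 3), (nat_lit 50), (nat_lit 260), (nat_lit 50), (nat_lit 8)]⟩,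
 ⟨⟨[(nat_lit 60), (nat_lit 100), (nat_lit 140)], [(nat_lit 0), (nat_lit 609), (nat_lit 2558)], [((nat_lit 0), (nat_lit 0), (nat_lit 0)), ((nat_lit 1000), (nat_lit 905), (nat_lit 238)), ((nat_lit 1000), (nat_lit 904), (nat_lit 760))], ((nat_lit 93), (nat_lit 100), (nat_lit 84))⟩, (nat_lit 2219094), (nat_lit 447), (nat_lit 447), (nat_lit 0), (nat_lit 548913), [(nat_lit 3282000000), (nat_lit 6250000000), (nat_lit 9842000000)], [], [(nat_lit 31141691276), (nat_lit 31746182608), (nat_lit 37233530580), (nat_lit 38295305824), (nat_lit 31174671837), (nat_lit 31540005554), (nat_lit 35746479640), (nat_lit 36294703026)], (nat_lit 1271251), (nat_lit 1271251), (nat_lit 1271251), (nat_lit 1271251), (nat_lit 0), (nat_lit 2471876), [(nat_lit 780000), (nat_lit 1435001), (nat_lit 1271251)], [(nat_lit 11), (nat_lit 55), (nat_lit 428), (nat_lit 200), (nat_lit 12)]⟩,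
 Rw.none⟩) (.trX (nat_lit 3) (nat_lit 0) (nat_lit 1) (nat_lit 66) (nat_lit 45) (nat_lit 100) (nat_lit 390) (.leaf ⟨(nat_lit 0), (nat_lit 1000), (nat_lit 0), (nat_lit 0), (nat_lit 0), (nat_lit 4612), (nat_lit 6076), (nat_lit 0), (nat_lit 0), (nat_lit 0), (nat_lit 0), [], Pd.none, Pd.none, (nat_lit 0), (nat_lit 1), (nat_lit 0), (nat_lit 0), (nat_lit 3), (nat_lit 0), [], [], [⟨(nat_lit 1), (nat_lit 81), (nat_lit 88), (nat_lit 100), (nat_lit 193700910)⟩], [],
 ⟨⟨[(nat_lit 40), (nat_lit 80), (nat_lit 100)], [(nat_lit 0), (nat_lit 2008), (nat_lit 2969)], [((nat_lit 0), (nat_lit 0), (nat_lit 0)), ((nat_lit 1000), (nat_lit 540), (nat_lit 733)), ((nat_lit 1000), (nat_lit 536), (nat_lit 751))], ((nat_lit 53), (nat_lit 100), (nat_lit 79))⟩, (nat_lit 1348168), (nat_lit 249), (nat_lit 249), (nat_lit 0), (nat_lit 431113), [(nat_lit 2032000133), (nat_lit 4688000127), (nat_lit 6250000000)], [], [(nat_lit 24275327527), (nat_lit 24808679517), (nat_lit 32251516106),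 (nat_lit 32849418915), (nat_lit 25013859019), (nat_lit 25489183413), (nat_lit 32273780849), (nat_lit 32808279143)], (nat_lit 1271251), (nat_lit 1271251), (nat_lit 1271251), (nat_lit 1271251), (nat_lit 780000), (nat_lit 1435001), [(nat_lit 490000), (nat_lit 1100000), (nat_lit 1442501)], [(nat_lit 3), (nat_lit 50), (nat_lit 260), (nat_lit 50), (nat_lit 8)]⟩,
 ⟨⟨[(nat_lit 60), (nat_lit 100), (nat_lit 140)], [(nat_lit 0), (nat_lit 609), (nat_lit 2558)], [((nat_lit 0), (nat_lit 0), (nat_lit 0)), ((nat_lit 1000), (nat_lit 905), (nat_lit 238)), ((nat_lit 1000), (nat_lit 904), (nat_lit 760))], ((nat_lit 93), (nat_lit 100), (nat_lit 84))⟩, (nat_lit 3107624), (nat_lit 474), (nat_lit 474), (nat_lit 0), (nat_lit 634620), [(nat_lit 3282000000), (nat_lit 6250000000), (nat_lit 9842000000)], [], [(nat_lit 30021106716), (nat_lit 30654412816), (nat_lit 36199738824), (nat_lit 37319578196), (nat_lit 30410525326), (nat_lit 30720461574), (nat_lit 35177215832), (nat_lit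 35754027904)], (nat_lit 1271251), (nat_lit 1271251), (nat_lit 1271251), (nat_lit 1271251), (nat_lit 0), (nat_lit 2471876), [(nat_lit 780000), (nat_lit 1435001), (nat_lit 1271251)], [(nat_lit 11), (nat_lit 55), (nat_lit 428), (nat_lit 200), (nat_lit 12)]⟩,
 Rw.none⟩))) (.stt (nat_lit 2) (.leaf ⟨(nat_lit 0), (nat_lit 1000), (nat_lit 0), (nat_lit 0), (nat_lit 0), (nat_lit 4508), (nat_lit 9041), (nat_lit 0), (nat_lit 0), (nat_lit 0), (nat_lit 0), [], Pd.none, Pd.none, (nat_lit 0), (nat_lit 1), (nat_lit 0), (nat_lit 0), (nat_lit 5), (nat_lit 0), [], [⟨(nat_lit 1), (nat_lit 92), (nat_lit 61), (nat_lit 100), (nat_lit 493402744)⟩], [⟨(nat_lit 1), (nat_lit 68), (nat_lit 88), (nat_lit 100), (nat_lit 97186679)⟩], [],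
 ⟨⟨[(nat_lit 40), (nat_lit 80), (nat_lit 100)], [(nat_lit 0), (nat_lit 1598), (nat_lit 2533)], [((nat_lit 0), (nat_lit 0), (nat_lit 0)), ((nat_lit 1000), (nat_lit 625), (nat_lit 623)), ((nat_lit 1000), (nat_lit 604), (nat_lit 730))], ((nat_lit 60), (nat_lit 100), (nat_lit 78))⟩, (nat_lit 1586357), (nat_lit 229), (nat_lit 229), (nat_lit 0), (nat_lit 433446), [(nat_lit 2032000014), (nat_lit 4688000027), (nat_lit 6250000000)], [], [(nat_lit 25002792600), (nat_lit 25943852692), (nat_lit 32182275628), (nat_lit 33206425762), (nat_lit 27017667262), (nat_lit 28316224426), (nat_lit 33907606216), (nat_lit 34768805920)], (nat_lit 1271251), (nat_lit 1271251), (nat_lit 1271251), (nat_lit 1271251), (nat_lit 1271251), (nat_lit 1271251), [(nat_lit 490000), (nat_lit 1100000), (nat_lit 1442501)], [(nat_lit 3), (nat_lit 50), (nat_lit 203), (nat_lit 0), (nat_lit 6)]⟩,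
 ⟨⟨[(nat_lit 60), (nat_lit 100), (nat_lit 140)], [(nat_lit 0), (nat_lit 609), (nat_lit 2558)], [((nat_lit 0), (nat_lit 0), (nat_lit 0)), ((nat_lit 1000), (nat_lit 905), (nat_lit 238)), ((nat_lit 1000), (nat_lit 904), (nat_lit 760))], ((nat_lit 93), (nat_lit 100), (nat_lit 84))⟩, (nat_lit 8400), (nat_lit 219), (nat_lit 219), (nat_lit 0), (nat_lit 0), [(nat_lit 3282000000), (nat_lit 6250000000), (nat_lit 9842000000)], [], [(nat_lit 33828705508), (nat_lit 35411174428), (nat_lit 45884978402), (nat_lit 46690686544), (nat_lit 33430591579), (nat_lit 34147980461), (nat_lit 39505355204), (nat_lit 40083659412)], (nat_lit 0), (nat_lit 0), (nat_lit 0), (nat_lit 0), (nat_lit 0), (nat_lit 0), [], [(nat_lit 11), (nat_lit 55), (nat_lit 428), (nat_lit 200), (nat_lit 12)]⟩,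
 Rw.none⟩) (.leaf ⟨(nat_lit 0), (nat_lit 896), (nat_lit 0), (nat_lit 104), (nat_lit 0), (nat_lit 4085), (nat_lit 6436), (nat_lit 1171), (nat_lit 0), (nat_lit 0), (nat_lit 0), [], Pd.none, Pd.none, (nat_lit 0), (nat_lit 1), (nat_lit 0), (nat_lit 0), (nat_lit 5), (nat_lit 0), [], [⟨(nat_lit 1), (nat_lit 100), (nat_lit 54), (nat_lit 98), (nat_lit 370211954)⟩], [⟨(nat_lit 1), (nat_lit 81), (nat_lit 88), (nat_lit 100), (nat_lit 71312020)⟩], [],
 ⟨⟨[(nat_lit 40), (nat_lit 80), (nat_lit 100)], [(nat_lit 0), (nat_lit 1598), (nat_lit 2533)], [((nat_lit 0), (nat_lit 0), (nat_lit 0)), ((nat_lit 1000), (nat_lit 625), (nat_lit 623)), ((nat_lit 1000), (nat_lit 604), (nat_lit 730))], ((nat_lit 60), (nat_lit 100), (nat_lit 78))⟩, (nat_lit 1778845), (nat_lit 158), (nat_lit 158), (nat_lit 0), (nat_lit 221276), [(nat_lit 2032000125), (nat_lit 4688000175), (nat_lit 6250000000)], [], [(nat_lit 24793540400), (nat_lit 25752892273), (nat_lit 31598264485), (nat_lit 32581231128),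 (nat_lit 27038348418), (nat_lit 27935899623), (nat_lit 33357139608), (nat_lit 34188520244)], (nat_lit 1271251), (nat_lit 1271251), (nat_lit 1271251), (nat_lit 1271251), (nat_lit 1271251), (nat_lit 1271251), [(nat_lit 490000), (nat_lit 1100000), (nat_lit 1442501)], [(nat_lit 3), (nat_lit 50), (nat_lit 203), (nat_lit 0), (nat_lit 6)]⟩,
 ⟨⟨[(nat_lit 60), (nat_lit 100), (nat_lit 140)], [(nat_lit 0), (nat_lit 609), (nat_lit 2558)], [((nat_lit 0), (nat_lit 0), (nat_lit 0)), ((nat_lit 1000), (nat_lit 905), (nat_lit 238)), ((nat_lit 1000), (nat_lit 904), (nat_lit 760))], ((nat_lit 93), (nat_lit 100), (nat_lit 84))⟩, (nat_lit 2268394), (nat_lit 475), (nat_lit 475), (nat_lit 0), (nat_lit 634801), [(nat_lit 3282000000), (nat_lit 6250000000), (nat_lit 9842000000)], [], [(nat_lit 31425644670), (nat_lit 31980896854), (nat_lit 38192464820), (nat_lit 39280108896), (nat_lit 30780607057), (nat_lit 31133690860), (nat_lit 36193934560), (nat_lit 36745738754)], (nat_lit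 1271251), (nat_lit 1271251), (nat_lit 1271251), (nat_lit 1271251), (nat_lit 0), (nat_lit 2471876), [(nat_lit 780000), (nat_lit 1435001), (nat_lit 1271251)], [(nat_lit 11), (nat_lit 55), (nat_lit 428), (nat_lit 200), (nat_lit 12)]⟩,
 ⟨⟨[(nat_lit 140), (nat_lit 180), (nat_lit 200)], [(nat_lit 0), (nat_lit 0), (nat_lit 2835)], [((nat_lit 0), (nat_lit 0), (nat_lit 0)), ((nat_lit 0), (nat_lit 0), (nat_lit 0)), ((nat_lit 363), (nat_lit 1000), (nat_lit 798))], ((nat_lit 0), (nat_lit 0), (nat_lit 0))⟩, (nat_lit 28614), (nat_lit 300), (nat_lit 2105), (nat_lit 8122400), (nat_lit 3530963), [(nat_lit 1023568000), (nat_lit 1462032000), (nat_lit 1705600000)], [], [(nat_lit 7664567104), (nat_lit 7467915264), (nat_lit 7391771519), (nat_lit 7193454504), (nat_lit 6687154116), (nat_lit 7281906321), (nat_lit 5850912542), (nat_lit 5690354884)], (nat_lit 780000), (nat_lit 1100000), (nat_lit 1271251), (nat_lit 1271251), (nat_lit 0), (nat_lit 2471876), [(nat_lit 1977501),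 (nat_lit 1271251), (nat_lit 1271251)], [(nat_lit 32), (nat_lit 67), (nat_lit 627), (nat_lit 200), (nat_lit 13)]⟩⟩))))
noncomputable def c17_95 : Tr Lf :=
 (.spl (nat_lit 5) (nat_lit 200) (.spl (nat_lit 0) (nat_lit 370) (.leaf ⟨(nat_lit 0), (nat_lit 883), (nat_lit 0), (nat_lit 117), (nat_lit 0), (nat_lit 4609), (nat_lit 8137), (nat_lit 1550), (nat_lit 0), (nat_lit 0), (nat_lit 0), [], Pd.none, Pd.none, (nat_lit 0), (nat_lit 1), (nat_lit 0), (nat_lit 0), (nat_lit 4), (nat_lit 0), [], [⟨(nat_lit 1), (nat_lit 91), (nat_lit 57), (nat_lit 100), (nat_lit 282807048)⟩], [], [⟨(nat_lit 0), (nat_lit 100), (nat_lit 80), (nat_lit 66), (nat_lit 21859826)⟩],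
 ⟨⟨[(nat_lit 40), (nat_lit 80), (nat_lit 100)], [(nat_lit 0), (nat_lit 1598), (nat_lit 2533)], [((nat_lit 0), (nat_lit 0), (nat_lit 0)), ((nat_lit 1000), (nat_lit 625), (nat_lit 623)), ((nat_lit 1000), (nat_lit 604), (nat_lit 730))], ((nat_lit 60), (nat_lit 100), (nat_lit 78))⟩, (nat_lit 1360432), (nat_lit 210), (nat_lit 210), (nat_lit 0), (nat_lit 296934), [(nat_lit 2032000013), (nat_lit 4688000016), (nat_lit 6250000000)], [], [(nat_lit 24840225410), (nat_lit 25373411028), (nat_lit 32306879339), (nat_lit 32884422122), (nat_lit 28191373142), (nat_lit 28579715021), (nat_lit 34552837397), (nat_lit 34967574520)], (nat_lit 1271251), (nat_lit 1271251), (nat_lit 1271251), (nat_lit 1271251), (nat_lit 780000), (nat_lit 2335626), [(nat_lit 490000), (nat_lit 1100000), (nat_lit 1442501)], [(nat_lit 3), (nat_lit 50), (nat_lit 317), (nat_lit 100), (nat_lit 11)]⟩,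
 ⟨⟨[(nat_lit 60), (nat_lit 120), (nat_lit 160)], [(nat_lit 0), (nat_lit 0), (nat_lit 3243)], [((nat_lit 0), (nat_lit 0), (nat_lit 0)), ((nat_lit 0), (nat_lit 0), (nat_lit 0)), ((nat_lit 878), (nat_lit 1000), (nat_lit 945))], ((nat_lit 100), (nat_lit 96), (nat_lit 86))⟩, (nat_lit 1946420), (nat_lit 428), (nat_lit 428), (nat_lit 0), (nat_lit 421904), [(nat_lit 3282000000), (nat_lit 7968000000), (nat_lit 11872000000)], [], [(nat_lit 36415241408), (nat_lit 37619372572), (nat_lit 42692333524), (nat_lit 44039057832), (nat_lit 31214125734), (nat_lit 32374033604), (nat_lit 36228302644), (nat_lit 36794483530)], (nat_lit 1271251), (nat_lit 1271251), (nat_lit 1271251), (nat_lit 1271251), (nat_lit 0), (nat_lit 1412501), [(nat_lit 780000), (nat_lit 1762501), (nat_lit 1271251)], [(nat_lit 12), (nat_lit 59), (nat_lit 483), (nat_lit 250), (nat_lit 12)]⟩,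
 ⟨⟨[(nat_lit 120), (nat_lit 160), (nat_lit 200)], [(nat_lit 0), (nat_lit 0), (nat_lit 3198)], [((nat_lit 0), (nat_lit 0), (nat_lit 0)), ((nat_lit 0), (nat_lit 0), (nat_lit 0)), ((nat_lit 572), (nat_lit 1000), (nat_lit 714))], ((nat_lit 0), (nat_lit 0), (nat_lit 0))⟩, (nat_lit 57073), (nat_lit 300), (nat_lit 1460), (nat_lit 8681403), (nat_lit 2141897), [(nat_lit 932256000), (nat_lit 1389024000), (nat_lit 1918800000)], [], [(nat_lit 7970661000), (nat_lit 7893565212), (nat_lit 7279491030), (nat_lit 7215592246), (nat_lit 6231402100), (nat_lit 6154559188), (nat_lit 8539820202), (nat_lit 8981937074)], (nat_lit 1100000), (nat_lit 1271251), (nat_lit 780000), (nat_lit 2335626), (nat_lit 0), (nat_lit 1412501), [(nat_lit 1695001), (nat_lit 1271251), (nat_lit 1271251)], [(nat_lit 29), (nat_lit 66), (nat_lit 452), (nat_lit 175), (nat_lit 10)]⟩⟩) (.trX (nat_lit 3) (nat_lit 0) (nat_lit 1) (nat_lit 66) (nat_lit 45) (nat_lit 100) (nat_lit 390) (.trX (nat_lit 4) (nat_lit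 0) (nat_lit 2) (nat_lit 53) (nat_lit 90) (nat_lit 100) (nat_lit 290) (.leaf ⟨(nat_lit 0), (nat_lit 884), (nat_lit 0), (nat_lit 116), (nat_lit 0), (nat_lit 4438), (nat_lit 8240), (nat_lit 1575), (nat_lit 0), (nat_lit 0), (nat_lit 0), [], Pd.none, Pd.none, (nat_lit 0), (nat_lit 1), (nat_lit 0), (nat_lit 0), (nat_lit 4), (nat_lit 0), [], [⟨(nat_lit 1), (nat_lit 95), (nat_lit 49), (nat_lit 100), (nat_lit 319596079)⟩], [⟨(nat_lit 0), (nat_lit 100), (nat_lit 80), (nat_lit 52), (nat_lit 37130039)⟩], [⟨(nat_lit 0), (nat_lit 100), (nat_lit 82), (nat_lit 60), (nat_lit 3966842)⟩],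
 ⟨⟨[(nat_lit 40), (nat_lit 80), (nat_lit 100)], [(nat_lit 0), (nat_lit 2008), (nat_lit 2969)], [((nat_lit 0), (nat_lit 0), (nat_lit 0)), ((nat_lit 1000), (nat_lit 540), (nat_lit 733)), ((nat_lit 1000), (nat_lit 536), (nat_lit 751))], ((nat_lit 53), (nat_lit 100), (nat_lit 79))⟩, (nat_lit 1269145), (nat_lit 220), (nat_lit 220), (nat_lit 0), (nat_lit 332896), [(nat_lit 2032000003), (nat_lit 4688000008), (nat_lit 6250000000)], [], [(nat_lit 25144010454), (nat_lit 25667712839), (nat_lit 31952117482), (nat_lit 32539294148), (nat_lit 27857488968), (nat_lit 28254684072), (nat_lit 33775561578), (nat_lit 34217344422)], (nat_lit 1271251), (nat_lit 1271251), (nat_lit 1271251), (nat_lit 1271251), (nat_lit 780000), (nat_lit 2171876), [(nat_lit 490000), (nat_lit 1100000), (nat_lit 1442501)], [(nat_lit 3), (nat_lit 50), (nat_lit 289), (nat_lit 75), (nat_lit 9)]⟩,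
 ⟨⟨[(nat_lit 60), (nat_lit 120), (nat_lit 160)], [(nat_lit 0), (nat_lit 0), (nat_lit 3243)], [((nat_lit 0), (nat_lit 0), (nat_lit 0)), ((nat_lit 0), (nat_lit 0), (nat_lit 0)), ((nat_lit 878), (nat_lit 1000), (nat_lit 945))], ((nat_lit 100), (nat_lit 96), (nat_lit 86))⟩, (nat_lit 1948764), (nat_lit 486), (nat_lit 486), (nat_lit 0), (nat_lit 499471), [(nat_lit 3282000000), (nat_lit 7968000000), (nat_lit 11872000000)], [], [(nat_lit 36205467708), (nat_lit 37413406988), (nat_lit 42027832340), (nat_lit 43165074540), (nat_lit 30897460680), (nat_lit 32061026080), (nat_lit 35556576165), (nat_lit 36158714680)], (nat_lit 1271251), (nat_lit 1271251), (nat_lit 1271251), (nat_lit 1271251), (nat_lit 0), (nat_lit 1412501), [(nat_lit 780000), (nat_lit 1762501), (nat_lit 1271251)], [(nat_lit 12), (nat_lit 59), (nat_lit 483), (nat_lit 250), (nat_lit 12)]⟩,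
 ⟨⟨[(nat_lit 120), (nat_lit 160), (nat_lit 200)], [(nat_lit 0), (nat_lit 0), (nat_lit 3198)], [((nat_lit 0), (nat_lit 0), (nat_lit 0)), ((nat_lit 0), (nat_lit 0), (nat_lit 0)), ((nat_lit 572), (nat_lit 1000), (nat_lit 714))], ((nat_lit 0), (nat_lit 0), (nat_lit 0))⟩, (nat_lit 56585), (nat_lit 300), (nat_lit 1646), (nat_lit 8607206), (nat_lit 2542941), [(nat_lit 924288000), (nat_lit 1377152000), (nat_lit 1902400000)], [], [(nat_lit 7868629400), (nat_lit 7789328340), (nat_lit 7181608559), (nat_lit 7121453398), (nat_lit 6093573300), (nat_lit 6014588550), (nat_lit 8161878621), (nat_lit 8604447165)], (nat_lit 1100000), (nat_lit 1271251), (nat_lit 780000), (nat_lit 2171876), (nat_lit 0), (nat_lit 1412501), [(nat_lit 1695001), (nat_lit 1271251), (nat_lit 1271251)], [(nat_lit 29), (nat_lit 66), (nat_lit 496), (nat_lit 175), (nat_lit 11)]⟩⟩)))) (.spl (nat_lit 0) (nat_lit 370) (.leaf ⟨(nat_lit 0), (nat_lit 851), (nat_lit 0), (nat_lit 149), (nat_lit 0), (nat_lit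 4609), (nat_lit 8148), (nat_lit 1609), (nat_lit 0), (nat_lit 0), (nat_lit 0), [], Pd.none, Pd.none, (nat_lit 0), (nat_lit 1), (nat_lit 0), (nat_lit 0), (nat_lit 5), (nat_lit 0), [], [⟨(nat_lit 1), (nat_lit 91), (nat_lit 57), (nat_lit 100), (nat_lit 248436766)⟩], [⟨(nat_lit 1), (nat_lit 63), (nat_lit 88), (nat_lit 100), (nat_lit 268185165)⟩], [],
 ⟨⟨[(nat_lit 40), (nat_lit 80), (nat_lit 100)], [(nat_lit 0), (nat_lit 1598), (nat_lit 2533)], [((nat_lit 0), (nat_lit 0), (nat_lit 0)), ((nat_lit 1000), (nat_lit 625), (nat_lit 623)), ((nat_lit 1000), (nat_lit 604), (nat_lit 730))], ((nat_lit 60), (nat_lit 100), (nat_lit 78))⟩, (nat_lit 1360432), (nat_lit 210), (nat_lit 210), (nat_lit 0), (nat_lit 296934), [(nat_lit 2032000039), (nat_lit 4688000048), (nat_lit 6250000000)], [], [(nat_lit 24840225494), (nat_lit 25373411112), (nat_lit 32306879339), (nat_lit 32884422122), (nat_lit 28191373226), (nat_lit 28579715021), (nat_lit 34552837397), (nat_lit 34967574520)],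 (nat_lit 1271251), (nat_lit 1271251), (nat_lit 1271251), (nat_lit 1271251), (nat_lit 780000), (nat_lit 2335626), [(nat_lit 490000), (nat_lit 1100000), (nat_lit 1442501)], [(nat_lit 3), (nat_lit 50), (nat_lit 317), (nat_lit 100), (nat_lit 11)]⟩,
 ⟨⟨[(nat_lit 60), (nat_lit 120), (nat_lit 160)], [(nat_lit 0), (nat_lit 0), (nat_lit 3243)], [((nat_lit 0), (nat_lit 0), (nat_lit 0)), ((nat_lit 0), (nat_lit 0), (nat_lit 0)), ((nat_lit 878), (nat_lit 1000), (nat_lit 945))], ((nat_lit 100), (nat_lit 96), (nat_lit 86))⟩, (nat_lit 1604087), (nat_lit 306), (nat_lit 306), (nat_lit 0), (nat_lit 421904), [(nat_lit 3282000000), (nat_lit 7968000000), (nat_lit 11872000000)], [], [(nat_lit 29182647939), (nat_lit 30522777259), (nat_lit 34954855067), (nat_lit 35608647083), (nat_lit 33999105421), (nat_lit 34648139915), (nat_lit 39523652684), (nat_lit 40478165028)], (nat_lit 1271251), (nat_lit 1271251), (nat_lit 1271251), (nat_lit 1271251), (nat_lit 1271251), (nat_lit 1271251),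 [(nat_lit 780000), (nat_lit 1762501), (nat_lit 1271251)], [(nat_lit 12), (nat_lit 59), (nat_lit 538), (nat_lit 300), (nat_lit 13)]⟩,
 ⟨⟨[(nat_lit 120), (nat_lit 160), (nat_lit 200)], [(nat_lit 0), (nat_lit 0), (nat_lit 3198)], [((nat_lit 0), (nat_lit 0), (nat_lit 0)), ((nat_lit 0), (nat_lit 0), (nat_lit 0)), ((nat_lit 572), (nat_lit 1000), (nat_lit 714))], ((nat_lit 0), (nat_lit 0), (nat_lit 0))⟩, (nat_lit 72683), (nat_lit 300), (nat_lit 1329), (nat_lit 11055800), (nat_lit 2141897), [(nat_lit 1187232000), (nat_lit 1768928000), (nat_lit 2443600000)], [], [(nat_lit 9361797030), (nat_lit 9258190957), (nat_lit 8406638174), (nat_lit 8304029788), (nat_lit 8748402412), (nat_lit 8647908960), (nat_lit 7827753452), (nat_lit 7723501647)], (nat_lit 1100000), (nat_lit 1271251), (nat_lit 780000), (nat_lit 2335626), (nat_lit 1271251), (nat_lit 1271251), [(nat_lit 1695001), (nat_lit 1271251), (nat_lit 1271251)], [(nat_lit 29), (nat_lit 66), (nat_lit 456), (nat_lit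 225), (nat_lit 9)]⟩⟩) (.trX (nat_lit 3) (nat_lit 0) (nat_lit 1) (nat_lit 66) (nat_lit 45) (nat_lit 100) (nat_lit 390) (.trX (nat_lit 4) (nat_lit 0) (nat_lit 2) (nat_lit 53) (nat_lit 90) (nat_lit 100) (nat_lit 290) (.leaf ⟨(nat_lit 0), (nat_lit 848), (nat_lit 0), (nat_lit 152), (nat_lit 0), (nat_lit 4438), (nat_lit 8202), (nat_lit 1638), (nat_lit 0), (nat_lit 0), (nat_lit 0), [], Pd.none, Pd.none, (nat_lit 0), (nat_lit 1), (nat_lit 0), (nat_lit 0), (nat_lit 5), (nat_lit 0), [], [⟨(nat_lit 1), (nat_lit 95), (nat_lit 49), (nat_lit 100), (nat_lit 263546919)⟩], [⟨(nat_lit 1), (nat_lit 63), (nat_lit 88), (nat_lit 100), (nat_lit 274643675)⟩], [],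
 ⟨⟨[(nat_lit 40), (nat_lit 80), (nat_lit 100)], [(nat_lit 0), (nat_lit 2008), (nat_lit 2969)], [((nat_lit 0), (nat_lit 0), (nat_lit 0)), ((nat_lit 1000), (nat_lit 540), (nat_lit 733)), ((nat_lit 1000), (nat_lit 536), (nat_lit 751))], ((nat_lit 53), (nat_lit 100), (nat_lit 79))⟩, (nat_lit 1269145), (nat_lit 220), (nat_lit 220), (nat_lit 0), (nat_lit 332896), [(nat_lit 2032000005), (nat_lit 4688000010), (nat_lit 6250000000)], [], [(nat_lit 25144010460), (nat_lit 25667712845), (nat_lit 31952117482), (nat_lit 32539294148), (nat_lit 27857488974), (nat_lit 28254684078), (nat_lit 33775561578), (nat_lit 34217344422)], (nat_lit 1271251), (nat_lit 1271251), (nat_lit 1271251), (nat_lit 1271251), (nat_lit 780000), (nat_lit 2171876), [(nat_lit 490000), (nat_lit 1100000), (nat_lit 1442501)], [(nat_lit 3), (nat_lit 50), (nat_lit 289), (nat_lit 75), (nat_lit 9)]⟩,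
 ⟨⟨[(nat_lit 60), (nat_lit 120), (nat_lit 160)], [(nat_lit 0), (nat_lit 0), (nat_lit 3243)], [((nat_lit 0), (nat_lit 0), (nat_lit 0)), ((nat_lit 0), (nat_lit 0), (nat_lit 0)), ((nat_lit 878), (nat_lit 1000), (nat_lit 945))], ((nat_lit 100), (nat_lit 96), (nat_lit 86))⟩, (nat_lit 1684540), (nat_lit 345), (nat_lit 345), (nat_lit 0), (nat_lit 499471), [(nat_lit 3282000000), (nat_lit 7968000000), (nat_lit 11872000000)], [], [(nat_lit 28818839700), (nat_lit 30161700880), (nat_lit 34175537326), (nat_lit 35037338132), (nat_lit 33641047993), (nat_lit 34552047782), (nat_lit 38975257461), (nat_lit 39996254612)], (nat_lit 1271251), (nat_lit 1271251), (nat_lit 1271251), (nat_lit 1271251), (nat_lit 1271251), (nat_lit 1271251), [(nat_lit 780000), (nat_lit 1762501), (nat_lit 1271251)], [(nat_lit 12), (nat_lit 59), (nat_lit 538), (nat_lit 300), (nat_lit 13)]⟩,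
 ⟨⟨[(nat_lit 120), (nat_lit 160), (nat_lit 200)], [(nat_lit 0), (nat_lit 0), (nat_lit 3198)], [((nat_lit 0), (nat_lit 0), (nat_lit 0)), ((nat_lit 0), (nat_lit 0), (nat_lit 0)), ((nat_lit 572), (nat_lit 1000), (nat_lit 714))], ((nat_lit 0), (nat_lit 0), (nat_lit 0))⟩, (nat_lit 74146), (nat_lit 300), (nat_lit 1519), (nat_lit 11278406), (nat_lit 2542941), [(nat_lit 1211136000), (nat_lit 1804544000), (nat_lit 2492800000)], [], [(nat_lit 9584680848), (nat_lit 9477983648), (nat_lit 8680747873), (nat_lit 8574255015), (nat_lit 8939339275), (nat_lit 8837112537), (nat_lit 8068885080), (nat_lit 7963568604)], (nat_lit 1100000), (nat_lit 1271251), (nat_lit 780000), (nat_lit 2171876), (nat_lit 1271251), (nat_lit 1271251), [(nat_lit 1695001), (nat_lit 1271251), (nat_lit 1271251)], [(nat_lit 29), (nat_lit 66), (nat_lit 486), (nat_lit 225), (nat_lit 10)]⟩⟩)))))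
noncomputable def c17_96 : Tr Lf :=
 (.spl (nat_lit 5) (nat_lit 120) (.spl (nat_lit 1) (nat_lit 280) (.trX (nat_lit 3) (nat_lit 0) (nat_lit 1) (nat_lit 65) (nat_lit 54) (nat_lit 100) (nat_lit 380) (.spl (nat_lit 4) (nat_lit 240) (.leaf ⟨(nat_lit 0), (nat_lit 786), (nat_lit 0), (nat_lit 214), (nat_lit 0), (nat_lit 4351), (nat_lit 7481), (nat_lit 3040), (nat_lit 0), (nat_lit 0), (nat_lit 0), [], Pd.none, Pd.none, (nat_lit 0), (nat_lit 1), (nat_lit 0), (nat_lit 0), (nat_lit 4), (nat_lit 0), [], [], [⟨(nat_lit 0), (nat_lit 100), (nat_lit 95), (nat_lit 30), (nat_lit 192148789)⟩], [⟨(nat_lit 0), (nat_lit 100), (nat_lit 84), (nat_lit 47), (nat_lit 41297671)⟩],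
 ⟨⟨[(nat_lit 40), (nat_lit 80), (nat_lit 100)], [(nat_lit 0), (nat_lit 1598), (nat_lit 2533)], [((nat_lit 0), (nat_lit 0), (nat_lit 0)), ((nat_lit 1000), (nat_lit 625), (nat_lit 623)), ((nat_lit 1000), (nat_lit 604), (nat_lit 730))], ((nat_lit 60), (nat_lit 100), (nat_lit 78))⟩, (nat_lit 1682397), (nat_lit 183), (nat_lit 183), (nat_lit 0), (nat_lit 248513), [(nat_lit 2032000082), (nat_lit 4688000210), (nat_lit 6250000000)], [], [(nat_lit 23706101807), (nat_lit 24812370304), (nat_lit 30580920329), (nat_lit 31783127952), (nat_lit 25282654861), (nat_lit 26215606280), (nat_lit 31358661130), (nat_lit 32362566543)], (nat_lit 1271251), (nat_lit 1271251), (nat_lit 1271251), (nat_lit 1271251), (nat_lit 780000), (nat_lit 1762501), [(nat_lit 490000), (nat_lit 1100000), (nat_lit 1442501)], [(nat_lit 3), (nat_lit 50), (nat_lit 272), (nat_lit 60), (nat_lit 9)]⟩,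
 ⟨⟨[(nat_lit 80), (nat_lit 140), (nat_lit 180)], [(nat_lit 0), (nat_lit 0), (nat_lit 3656)], [((nat_lit 0), (nat_lit 0), (nat_lit 0)), ((nat_lit 0), (nat_lit 0), (nat_lit 0)), ((nat_lit 637), (nat_lit 1000), (nat_lit 908))], ((nat_lit 100), (nat_lit 78), (nat_lit 80))⟩, (nat_lit 2412929), (nat_lit 472), (nat_lit 472), (nat_lit 0), (nat_lit 383548), [(nat_lit 4688000000), (nat_lit 9842000000), (nat_lit 14058000000)], [], [(nat_lit 38096381312), (nat_lit 39854002058), (nat_lit 45127042841), (nat_lit 46158199415), (nat_lit 34368652794), (nat_lit 35405427781), (nat_lit 39799575978), (nat_lit 40719242929)], (nat_lit 1271251), (nat_lit 1271251), (nat_lit 1271251), (nat_lit 1271251), (nat_lit 0), (nat_lit 780000), [(nat_lit 1100000), (nat_lit 2127501), (nat_lit 1271251)], [(nat_lit 19), (nat_lit 63), (nat_lit 428), (nat_lit 200), (nat_lit 10)]⟩,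
 ⟨⟨[(nat_lit 120), (nat_lit 160), (nat_lit 200)], [(nat_lit 0), (nat_lit 533), (nat_lit 3597)], [((nat_lit 0), (nat_lit 0), (nat_lit 0)), ((nat_lit 960), (nat_lit 1000), (nat_lit 200)), ((nat_lit 612), (nat_lit 1000), (nat_lit 732))], ((nat_lit 0), (nat_lit 0), (nat_lit 0))⟩, (nat_lit 501073), (nat_lit 300), (nat_lit 852), (nat_lit 14209601), (nat_lit 802233), [(nat_lit 1705152000), (nat_lit 2540608000), (nat_lit 3509600000)], [], [(nat_lit 13239230023), (nat_lit 13081851238), (nat_lit 12326405142), (nat_lit 12124859746), (nat_lit 10654170184), (nat_lit 10354650859), (nat_lit 11801633904), (nat_lit 9433999403)], (nat_lit 1271251), (nat_lit 1271251), (nat_lit 780000), (nat_lit 1762501), (nat_lit 0), (nat_lit 780000), [(nat_lit 1695001), (nat_lit 1271251), (nat_lit 1271251)], [(nat_lit 29), (nat_lit 66), (nat_lit 373), (nat_lit 150), (nat_lit 8)]⟩⟩) (.trX (nat_lit 3) (nat_lit 4) (nat_lit 5) (nat_lit 100) (nat_lit 59) (nat_lit 94) (nat_lit 370) (.trZ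 (nat_lit 3) (nat_lit 4) (nat_lit 5) (nat_lit 100) (nat_lit 100) (nat_lit 40) (nat_lit 10) (.leaf ⟨(nat_lit 0), (nat_lit 742), (nat_lit 0), (nat_lit 258), (nat_lit 0), (nat_lit 4485), (nat_lit 7397), (nat_lit 3433), (nat_lit 0), (nat_lit 0), (nat_lit 0), [], Pd.none, Pd.none, (nat_lit 0), (nat_lit 1), (nat_lit 0), (nat_lit 0), (nat_lit 6), (nat_lit 0), [], [], [], [⟨(nat_lit 0), (nat_lit 100), (nat_lit 95), (nat_lit 95), (nat_lit 299248368)⟩],
 ⟨⟨[(nat_lit 40), (nat_lit 80), (nat_lit 100)], [(nat_lit 0), (nat_lit 1598), (nat_lit 2533)], [((nat_lit 0), (nat_lit 0), (nat_lit 0)), ((nat_lit 1000), (nat_lit 625), (nat_lit 623)), ((nat_lit 1000), (nat_lit 604), (nat_lit 730))], ((nat_lit 60), (nat_lit 100), (nat_lit 78))⟩, (nat_lit 1581291), (nat_lit 154), (nat_lit 154), (nat_lit 0), (nat_lit 248513), [(nat_lit 2032000006), (nat_lit 4688000006), (nat_lit 6250000000)], [], [(nat_lit 25381802251), (nat_lit 26317245470), (nat_lit 30976700964), (nat_lit 32024709181),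 (nat_lit 29358046558), (nat_lit 30499338937), (nat_lit 34081532990), (nat_lit 34916083626)], (nat_lit 1271251), (nat_lit 1271251), (nat_lit 1271251), (nat_lit 1271251), (nat_lit 1271251), (nat_lit 1271251), [(nat_lit 490000), (nat_lit 1100000), (nat_lit 1442501)], [(nat_lit 3), (nat_lit 50), (nat_lit 203), (nat_lit 0), (nat_lit 5)]⟩,
 ⟨⟨[(nat_lit 80), (nat_lit 140), (nat_lit 180)], [(nat_lit 0), (nat_lit 0), (nat_lit 3656)], [((nat_lit 0), (nat_lit 0), (nat_lit 0)), ((nat_lit 0), (nat_lit 0), (nat_lit 0)), ((nat_lit 637), (nat_lit 1000), (nat_lit 908))], ((nat_lit 100), (nat_lit 78), (nat_lit 80))⟩, (nat_lit 2322539), (nat_lit 463), (nat_lit 463), (nat_lit 0), (nat_lit 383548), [(nat_lit 4688000000), (nat_lit 9842000000), (nat_lit 14058000000)], [], [(nat_lit 37932662112), (nat_lit 39399462522), (nat_lit 44027869744), (nat_lit 45104348057), (nat_lit 34674977778), (nat_lit 35709566497), (nat_lit 39401192079), (nat_lit 40366879718)], (nat_lit 1271251),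 (nat_lit 1271251), (nat_lit 1271251), (nat_lit 1271251), (nat_lit 54688), (nat_lit 780000), [(nat_lit 1100000), (nat_lit 2127501), (nat_lit 1271251)], [(nat_lit 19), (nat_lit 63), (nat_lit 428), (nat_lit 200), (nat_lit 10)]⟩,
 ⟨⟨[(nat_lit 120), (nat_lit 160), (nat_lit 200)], [(nat_lit 0), (nat_lit 533), (nat_lit 3597)], [((nat_lit 0), (nat_lit 0), (nat_lit 0)), ((nat_lit 960), (nat_lit 1000), (nat_lit 200)), ((nat_lit 612), (nat_lit 1000), (nat_lit 732))], ((nat_lit 0), (nat_lit 0), (nat_lit 0))⟩, (nat_lit 604097), (nat_lit 300), (nat_lit 759), (nat_lit 17131202), (nat_lit 802233), [(nat_lit 2055744000), (nat_lit 3062976000), (nat_lit 4231200000)], [], [(nat_lit 14549265761), (nat_lit 14336437902), (nat_lit 15028540901), (nat_lit 14728494402), (nat_lit 11993967551), (nat_lit 11642269201), (nat_lit 12243014943), (nat_lit 11957121045)], (nat_lit 1271251), (nat_lit 1271251), (nat_lit 1271251), (nat_lit 1271251), (nat_lit 54688), (nat_lit 780000), [(nat_lit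 1695001), (nat_lit 1271251), (nat_lit 1271251)], [(nat_lit 29), (nat_lit 66), (nat_lit 401), (nat_lit 175), (nat_lit 8)]⟩⟩))))) (.leaf ⟨(nat_lit 0), (nat_lit 717), (nat_lit 0), (nat_lit 283), (nat_lit 0), (nat_lit 4669), (nat_lit 8660), (nat_lit 3195), (nat_lit 0), (nat_lit 0), (nat_lit 0), [], Pd.none, Pd.none, (nat_lit 0), (nat_lit 1), (nat_lit 0), (nat_lit 0), (nat_lit 4), (nat_lit 0), [], [], [⟨(nat_lit 0), (nat_lit 100), (nat_lit 87), (nat_lit 50), (nat_lit 157225999)⟩], [⟨(nat_lit 0), (nat_lit 100), (nat_lit 81), (nat_lit 72), (nat_lit 75218022)⟩],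
 ⟨⟨[(nat_lit 40), (nat_lit 80), (nat_lit 100)], [(nat_lit 0), (nat_lit 1598), (nat_lit 2533)], [((nat_lit 0), (nat_lit 0), (nat_lit 0)), ((nat_lit 1000), (nat_lit 625), (nat_lit 623)), ((nat_lit 1000), (nat_lit 604), (nat_lit 730))], ((nat_lit 60), (nat_lit 100), (nat_lit 78))⟩, (nat_lit 1191106), (nat_lit 238), (nat_lit 238), (nat_lit 0), (nat_lit 388134), [(nat_lit 2032000002), (nat_lit 4688000003), (nat_lit 6250000000)], [], [(nat_lit 25372457481), (nat_lit 26445483616), (nat_lit 32410737599), (nat_lit 33572808935), (nat_lit 29717273461), (nat_lit 30697871119), (nat_lit 35619537411), (nat_lit 36391938274)], (nat_lit 1271251), (nat_lit 1271251), (nat_lit 1271251), (nat_lit 1271251), (nat_lit 780000), (nat_lit 2581251), [(nat_lit 490000), (nat_lit 1100000), (nat_lit 1442501)], [(nat_lit 3), (nat_lit 50), (nat_lit 317), (nat_lit 100), (nat_lit 11)]⟩,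
 ⟨⟨[(nat_lit 60), (nat_lit 120), (nat_lit 160)], [(nat_lit 0), (nat_lit 0), (nat_lit 3243)], [((nat_lit 0), (nat_lit 0), (nat_lit 0)), ((nat_lit 0), (nat_lit 0), (nat_lit 0)), ((nat_lit 878), (nat_lit 1000), (nat_lit 945))], ((nat_lit 100), (nat_lit 96), (nat_lit 86))⟩, (nat_lit 1958358), (nat_lit 439), (nat_lit 439), (nat_lit 0), (nat_lit 453858), [(nat_lit 3282000000), (nat_lit 7968000000), (nat_lit 11872000000)], [], [(nat_lit 35349963246), (nat_lit 36573450720), (nat_lit 43000097640), (nat_lit 45502273760), (nat_lit 29957752126), (nat_lit 31343770400), (nat_lit 35931061220), (nat_lit 36629162280)], (nat_lit 1271251), (nat_lit 1271251), (nat_lit 1271251), (nat_lit 1271251), (nat_lit 0), (nat_lit 780000), [(nat_lit 780000), (nat_lit 1762501), (nat_lit 1271251)], [(nat_lit 12), (nat_lit 59), (nat_lit 456), (nat_lit 225), (nat_lit 11)]⟩,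
 ⟨⟨[(nat_lit 120), (nat_lit 160), (nat_lit 200)], [(nat_lit 0), (nat_lit 533), (nat_lit 3597)], [((nat_lit 0), (nat_lit 0), (nat_lit 0)), ((nat_lit 960), (nat_lit 1000), (nat_lit 200)), ((nat_lit 612), (nat_lit 1000), (nat_lit 732))], ((nat_lit 0), (nat_lit 0), (nat_lit 0))⟩, (nat_lit 662634), (nat_lit 300), (nat_lit 1031), (nat_lit 18791201), (nat_lit 1197831), [(nat_lit 2254944000), (nat_lit 3359776000), (nat_lit 4641200000)], [], [(nat_lit 18301448594), (nat_lit 18011341753), (nat_lit 17014732485), (nat_lit 16657800625), (nat_lit 15852809697), (nat_lit 15493534377), (nat_lit 18791221643), (nat_lit 15858615012)], (nat_lit 1271251), (nat_lit 1271251), (nat_lit 780000), (nat_lit 2581251), (nat_lit 0), (nat_lit 780000), [(nat_lit 1695001), (nat_lit 1271251), (nat_lit 1271251)], [(nat_lit 29), (nat_lit 66), (nat_lit 401), (nat_lit 175), (nat_lit 9)]⟩⟩)) (.spl (nat_lit 1) (nat_lit 280) (.trX (nat_lit 3) (nat_lit 0) (nat_lit 1) (nat_lit 65) (nat_lit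 54) (nat_lit 100) (nat_lit 380) (.leaf ⟨(nat_lit 0), (nat_lit 530), (nat_lit 0), (nat_lit 470), (nat_lit 0), (nat_lit 4087), (nat_lit 9789), (nat_lit 3910), (nat_lit 0), (nat_lit 0), (nat_lit 0), [], Pd.none, Pd.none, (nat_lit 0), (nat_lit 1), (nat_lit 0), (nat_lit 0), (nat_lit 4), (nat_lit 0), [], [], [], [],
 ⟨⟨[(nat_lit 40), (nat_lit 80), (nat_lit 100)], [(nat_lit 0), (nat_lit 1598), (nat_lit 2533)], [((nat_lit 0), (nat_lit 0), (nat_lit 0)), ((nat_lit 1000), (nat_lit 625), (nat_lit 623)), ((nat_lit 1000), (nat_lit 604), (nat_lit 730))], ((nat_lit 60), (nat_lit 100), (nat_lit 78))⟩, (nat_lit 1824837), (nat_lit 183), (nat_lit 183), (nat_lit 0), (nat_lit 248513), [(nat_lit 2032000171), (nat_lit 4688000222), (nat_lit 6250000000)], [], [(nat_lit 23690345260), (nat_lit 24764525349), (nat_lit 30161925005), (nat_lit 31329773424), (nat_lit 29015442829), (nat_lit 30069905195), (nat_lit 33997917065), (nat_lit 34783585784)], (nat_lit 1271251), (nat_lit 1271251),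 (nat_lit 1271251), (nat_lit 1271251), (nat_lit 780000), (nat_lit 2581251), [(nat_lit 490000), (nat_lit 1100000), (nat_lit 1442501)], [(nat_lit 3), (nat_lit 50), (nat_lit 317), (nat_lit 100), (nat_lit 11)]⟩,
 ⟨⟨[(nat_lit 80), (nat_lit 140), (nat_lit 180)], [(nat_lit 0), (nat_lit 0), (nat_lit 3656)], [((nat_lit 0), (nat_lit 0), (nat_lit 0)), ((nat_lit 0), (nat_lit 0), (nat_lit 0)), ((nat_lit 637), (nat_lit 1000), (nat_lit 908))], ((nat_lit 100), (nat_lit 78), (nat_lit 80))⟩, (nat_lit 2304122), (nat_lit 424), (nat_lit 424), (nat_lit 0), (nat_lit 489637), [(nat_lit 4688000000), (nat_lit 9842000000), (nat_lit 14058000000)], [], [(nat_lit 29848092790), (nat_lit 31078915586), (nat_lit 36452371282), (nat_lit 37387942084), (nat_lit 36393589952), (nat_lit 36480290038), (nat_lit 40817646745), (nat_lit 41774297312)], (nat_lit 1271251), (nat_lit 1271251), (nat_lit 1271251), (nat_lit 1271251), (nat_lit 780000), (nat_lit 3072501), [(nat_lit 1100000), (nat_lit 2127501),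 (nat_lit 1271251)], [(nat_lit 19), (nat_lit 63), (nat_lit 538), (nat_lit 300), (nat_lit 12)]⟩,
 ⟨⟨[(nat_lit 120), (nat_lit 160), (nat_lit 200)], [(nat_lit 0), (nat_lit 533), (nat_lit 3597)], [((nat_lit 0), (nat_lit 0), (nat_lit 0)), ((nat_lit 960), (nat_lit 1000), (nat_lit 200)), ((nat_lit 612), (nat_lit 1000), (nat_lit 732))], ((nat_lit 0), (nat_lit 0), (nat_lit 0))⟩, (nat_lit 1100488), (nat_lit 300), (nat_lit 920), (nat_lit 31208000), (nat_lit 1184467), [(nat_lit 3744960000), (nat_lit 5579840000), (nat_lit 7708000000)], [], [(nat_lit 31761505011), (nat_lit 31368067237), (nat_lit 29858876652), (nat_lit 29428319810), (nat_lit 29739633459), (nat_lit 29290717167), (nat_lit 31809004058), (nat_lit 28267437493)], (nat_lit 1271251), (nat_lit 1271251), (nat_lit 780000), (nat_lit 2581251), (nat_lit 780000), (nat_lit 3072501), [(nat_lit 1695001), (nat_lit 1271251), (nat_lit 1271251)], [(nat_lit 29), (nat_lit 66), (nat_lit 483), (nat_lit 250), (nat_lit 10)]⟩⟩))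 (.spl (nat_lit 1) (nat_lit 300) (.trX (nat_lit 3) (nat_lit 0) (nat_lit 1) (nat_lit 69) (nat_lit 45) (nat_lit 100) (nat_lit 390) (.leaf ⟨(nat_lit 0), (nat_lit 625), (nat_lit 0), (nat_lit 375), (nat_lit 0), (nat_lit 4203), (nat_lit 8217), (nat_lit 2887), (nat_lit 0), (nat_lit 0), (nat_lit 0), [], Pd.none, Pd.none, (nat_lit 0), (nat_lit 1), (nat_lit 0), (nat_lit 0), (nat_lit 4), (nat_lit 0), [], [⟨(nat_lit 1), (nat_lit 85), (nat_lit 53), (nat_lit 100), (nat_lit 68084091)⟩], [], [],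
 ⟨⟨[(nat_lit 40), (nat_lit 80), (nat_lit 100)], [(nat_lit 0), (nat_lit 1598), (nat_lit 2533)], [((nat_lit 0), (nat_lit 0), (nat_lit 0)), ((nat_lit 1000), (nat_lit 625), (nat_lit 623)), ((nat_lit 1000), (nat_lit 604), (nat_lit 730))], ((nat_lit 60), (nat_lit 100), (nat_lit 78))⟩, (nat_lit 1559484), (nat_lit 214), (nat_lit 214), (nat_lit 0), (nat_lit 312380), [(nat_lit 2032000250), (nat_lit 4688000394), (nat_lit 6250000000)], [], [(nat_lit 25149691810), (nat_lit 26171031555), (nat_lit 30975067062), (nat_lit 32120447479), (nat_lit 29488891101), (nat_lit 30195066788), (nat_lit 34566751954), (nat_lit 35336771666)], (nat_lit 1271251), (nat_lit 1271251), (nat_lit 1271251), (nat_lit 1271251), (nat_lit 780000), (nat_lit 2581251), [(nat_lit 490000), (nat_lit 1100000), (nat_lit 1442501)], [(nat_lit 3), (nat_lit 50), (nat_lit 317), (nat_lit 100), (nat_lit 11)]⟩,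
 ⟨⟨[(nat_lit 60), (nat_lit 120), (nat_lit 160)], [(nat_lit 0), (nat_lit 0), (nat_lit 3243)], [((nat_lit 0), (nat_lit 0), (nat_lit 0)), ((nat_lit 0), (nat_lit 0), (nat_lit 0)), ((nat_lit 878), (nat_lit 1000), (nat_lit 945))], ((nat_lit 100), (nat_lit 96), (nat_lit 86))⟩, (nat_lit 1590310), (nat_lit 382), (nat_lit 382), (nat_lit 0), (nat_lit 520027), [(nat_lit 3282000000), (nat_lit 7968000000), (nat_lit 11872000000)], [], [(nat_lit 29369129216), (nat_lit 30162462400), (nat_lit 35609396116), (nat_lit 36035924031), (nat_lit 34710033866), (nat_lit 34992422618), (nat_lit 40195054964), (nat_lit 40641482511)], (nat_lit 1271251), (nat_lit 1271251), (nat_lit 1271251), (nat_lit 1271251), (nat_lit 780000), (nat_lit 3072501), [(nat_lit 780000), (nat_lit 1762501), (nat_lit 1271251)], [(nat_lit 12), (nat_lit 59), (nat_lit 538), (nat_lit 300), (nat_lit 13)]⟩,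
 ⟨⟨[(nat_lit 120), (nat_lit 160), (nat_lit 200)], [(nat_lit 0), (nat_lit 533), (nat_lit 3597)], [((nat_lit 0), (nat_lit 0), (nat_lit 0)), ((nat_lit 960), (nat_lit 1000), (nat_lit 200)), ((nat_lit 612), (nat_lit 1000), (nat_lit 732))], ((nat_lit 0), (nat_lit 0), (nat_lit 0))⟩, (nat_lit 878049), (nat_lit 300), (nat_lit 1069), (nat_lit 24900000), (nat_lit 1490337), [(nat_lit 2988000000), (nat_lit 4452000000), (nat_lit 6150000000)], [], [(nat_lit 27969983524), (nat_lit 27662503886), (nat_lit 26454058818), (nat_lit 26128696950), (nat_lit 26297038598), (nat_lit 25961952216), (nat_lit 24620138854), (nat_lit 24271232697)], (nat_lit 1271251), (nat_lit 1271251), (nat_lit 780000), (nat_lit 2581251), (nat_lit 780000), (nat_lit 3072501), [(nat_lit 1695001), (nat_lit 1271251), (nat_lit 1271251)], [(nat_lit 29), (nat_lit 66), (nat_lit 483), (nat_lit 250), (nat_lit 10)]⟩⟩)) (.trX (nat_lit 5) (nat_lit 1) (nat_lit 2) (nat_lit 87) (nat_lit 41) (nat_lit 100) (nat_lit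 390) (.leaf ⟨(nat_lit 0), (nat_lit 741), (nat_lit 0), (nat_lit 259), (nat_lit 0), (nat_lit 4221), (nat_lit 6273), (nat_lit 2082), (nat_lit 0), (nat_lit 0), (nat_lit 0), [], Pd.none, Pd.none, (nat_lit 0), (nat_lit 1), (nat_lit 0), (nat_lit 0), (nat_lit 4), (nat_lit 0), [], [⟨(nat_lit 1), (nat_lit 85), (nat_lit 53), (nat_lit 100), (nat_lit 193860740)⟩], [⟨(nat_lit 1), (nat_lit 55), (nat_lit 84), (nat_lit 100), (nat_lit 110749132)⟩], [],
 ⟨⟨[(nat_lit 40), (nat_lit 80), (nat_lit 100)], [(nat_lit 0), (nat_lit 1598), (nat_lit 2533)], [((nat_lit 0), (nat_lit 0), (nat_lit 0)), ((nat_lit 1000), (nat_lit 625), (nat_lit 623)), ((nat_lit 1000), (nat_lit 604), (nat_lit 730))], ((nat_lit 60), (nat_lit 100), (nat_lit 78))⟩, (nat_lit 1540803), (nat_lit 238), (nat_lit 238), (nat_lit 0), (nat_lit 387887), [(nat_lit 2032000003), (nat_lit 4688000006), (nat_lit 6250000000)], [], [(nat_lit 25176686059), (nat_lit 26200022274), (nat_lit 31635262591), (nat_lit 32745173511),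 (nat_lit 29514549696), (nat_lit 30216251625), (nat_lit 35010562499), (nat_lit 35758669666)], (nat_lit 1271251), (nat_lit 1271251), (nat_lit 1271251), (nat_lit 1271251), (nat_lit 780000), (nat_lit 2581251), [(nat_lit 490000), (nat_lit 1100000), (nat_lit 1442501)], [(nat_lit 3), (nat_lit 50), (nat_lit 317), (nat_lit 100), (nat_lit 11)]⟩,
 ⟨⟨[(nat_lit 60), (nat_lit 100), (nat_lit 140)], [(nat_lit 0), (nat_lit 609), (nat_lit 2558)], [((nat_lit 0), (nat_lit 0), (nat_lit 0)), ((nat_lit 1000), (nat_lit 905), (nat_lit 238)), ((nat_lit 1000), (nat_lit 904), (nat_lit 760))], ((nat_lit 93), (nat_lit 100), (nat_lit 84))⟩, (nat_lit 2197670), (nat_lit 352), (nat_lit 352), (nat_lit 0), (nat_lit 562879), [(nat_lit 3282000000), (nat_lit 6250000000), (nat_lit 9842000000)], [], [(nat_lit 27444571145), (nat_lit 28051533832), (nat_lit 32676162976), (nat_lit 33073717722), (nat_lit 31888072161), (nat_lit 32228962643), (nat_lit 37908568917), (nat_lit 38359899718)], (nat_lit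 1271251), (nat_lit 1271251), (nat_lit 1271251), (nat_lit 1271251), (nat_lit 780000), (nat_lit 2990626), [(nat_lit 780000), (nat_lit 1435001), (nat_lit 1271251)], [(nat_lit 11), (nat_lit 55), (nat_lit 428), (nat_lit 200), (nat_lit 11)]⟩,
 ⟨⟨[(nat_lit 120), (nat_lit 160), (nat_lit 200)], [(nat_lit 0), (nat_lit 533), (nat_lit 3597)], [((nat_lit 0), (nat_lit 0), (nat_lit 0)), ((nat_lit 960), (nat_lit 1000), (nat_lit 200)), ((nat_lit 612), (nat_lit 1000), (nat_lit 732))], ((nat_lit 0), (nat_lit 0), (nat_lit 0))⟩, (nat_lit 606439), (nat_lit 300), (nat_lit 1238), (nat_lit 17197601), (nat_lit 1852574), [(nat_lit 2063712000), (nat_lit 3074848000), (nat_lit 4247600000)], [], [(nat_lit 19639558649), (nat_lit 19399324761), (nat_lit 18430967785), (nat_lit 18183483804), (nat_lit 18287724206), (nat_lit 18036332341), (nat_lit 17009431682), (nat_lit 16754355691)], (nat_lit 1271251), (nat_lit 1271251), (nat_lit 780000), (nat_lit 2581251), (nat_lit 780000), (nat_lit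 2990626), [(nat_lit 1695001), (nat_lit 1271251), (nat_lit 1271251)], [(nat_lit 29), (nat_lit 66), (nat_lit 483), (nat_lit 250), (nat_lit 10)]⟩⟩)))))
noncomputable def c17_97 : Tr Lf :=
 (.spl (nat_lit 5) (nat_lit 200) (.spl (nat_lit 5) (nat_lit 120) (.leaf ⟨(nat_lit 683), (nat_lit 317), (nat_lit 0), (nat_lit 0), (nat_lit 15348), (nat_lit 3415), (nat_lit 2073), (nat_lit 0), (nat_lit 0), (nat_lit 0), (nat_lit 579400), [((nat_lit 380), [((nat_lit 41), (nat_lit 2), (nat_lit 259)), ((nat_lit 26), (nat_lit 2), (nat_lit 424))])], ⟨(nat_lit 6), false, false, false, (nat_lit 188), (nat_lit 2236), (nat_lit 3163), [(nat_lit 1406804), (nat_lit 1416903), (nat_lit 1450987), (nat_lit 1462324), (nat_lit 1483125), (nat_lit 1488302), (nat_lit 1527308), (nat_lit 1533723)]⟩, ⟨(nat_lit 3), false, false, false, (nat_lit 89), (nat_lit 2236), (nat_lit 3163), [(nat_lit 1136876), (nat_lit 1152119), (nat_lit 1203150), (nat_lit 1220251), (nat_lit 1228462), (nat_lit 1237798),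 (nat_lit 1294736), (nat_lit 1305930)]⟩, (nat_lit 3592225), (nat_lit 51079363), (nat_lit 12124902), (nat_lit 3795735), (nat_lit 3), (nat_lit 0), [⟨(nat_lit 0), (nat_lit 98), (nat_lit 54), (nat_lit 100), (nat_lit 747839155)⟩], [⟨(nat_lit 0), (nat_lit 100), (nat_lit 54), (nat_lit 71), (nat_lit 124435159)⟩], [], [],
 ⟨⟨[(nat_lit 40), (nat_lit 80), (nat_lit 120)], [(nat_lit 0), (nat_lit 1598), (nat_lit 3468)], [((nat_lit 0), (nat_lit 0), (nat_lit 0)), ((nat_lit 1000), (nat_lit 625), (nat_lit 623)), ((nat_lit 1000), (nat_lit 604), (nat_lit 730))], ((nat_lit 61), (nat_lit 100), (nat_lit 91))⟩, (nat_lit 0), (nat_lit 247), (nat_lit 247), (nat_lit 0), (nat_lit 126780), [(nat_lit 1503244805), (nat_lit 775824088), (nat_lit 0)], [(nat_lit 0), (nat_lit 0), (nat_lit 429560000)], [(nat_lit 20943081364), (nat_lit 22593542622), (nat_lit 21358304635), (nat_lit 22726977015), (nat_lit 20060205093), (nat_lit 21313059902), (nat_lit 20517300400), (nat_lit 21734979395)],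 (nat_lit 1271251), (nat_lit 1271251), (nat_lit 704688), (nat_lit 1100000), (nat_lit 111251), (nat_lit 490000), [(nat_lit 490000), (nat_lit 1100000), (nat_lit 1785001)], [(nat_lit 4), (nat_lit 51), (nat_lit 272), (nat_lit 60), (nat_lit 9)]⟩,
 ⟨⟨[(nat_lit 80), (nat_lit 140), (nat_lit 180)], [(nat_lit 0), (nat_lit 0), (nat_lit 3656)], [((nat_lit 0), (nat_lit 0), (nat_lit 0)), ((nat_lit 0), (nat_lit 0), (nat_lit 0)), ((nat_lit 637), (nat_lit 1000), (nat_lit 908))], ((nat_lit 100), (nat_lit 62), (nat_lit 92))⟩, (nat_lit 0), (nat_lit 467), (nat_lit 467), (nat_lit 0), (nat_lit 256371), [(nat_lit 1486096000), (nat_lit 3119914000), (nat_lit 4456386000)], [], [(nat_lit 14921549283), (nat_lit 15379193586), (nat_lit 14779106208), (nat_lit 15180718570), (nat_lit 13770519013), (nat_lit 14156596824), (nat_lit 14165184898), (nat_lit 13995926624)], (nat_lit 1271251), (nat_lit 1271251), (nat_lit 704688), (nat_lit 1100000), (nat_lit 0), (nat_lit 780000), [(nat_lit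 1100000), (nat_lit 2127501), (nat_lit 1271251)], [(nat_lit 19), (nat_lit 63), (nat_lit 373), (nat_lit 150), (nat_lit 9)]⟩,
 Rw.none⟩) (.leaf ⟨(nat_lit 751), (nat_lit 249), (nat_lit 0), (nat_lit 0), (nat_lit 14488), (nat_lit 3371), (nat_lit 3276), (nat_lit 0), (nat_lit 0), (nat_lit 0), (nat_lit 569000), [((nat_lit 380), [((nat_lit 41), (nat_lit 2), (nat_lit 455)), ((nat_lit 26), (nat_lit 2), (nat_lit 296))])], ⟨(nat_lit 6), false, false, false, (nat_lit 188), (nat_lit 2236), (nat_lit 3163), [(nat_lit 1406804), (nat_lit 1416903), (nat_lit 1450987), (nat_lit 1462324), (nat_lit 1483125), (nat_lit 1488302), (nat_lit 1527308), (nat_lit 1533723)]⟩, ⟨(nat_lit 3), false, false, false, (nat_lit 89), (nat_lit 2236), (nat_lit 3163), [(nat_lit 1136876), (nat_lit 1152119), (nat_lit 1203150), (nat_lit 1220251), (nat_lit 1228462), (nat_lit 1237798), (nat_lit 1294736), (nat_lit 1305930)]⟩, (nat_lit 3592225), (nat_lit 51079363), (nat_lit 12124902), (nat_lit 3795735),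 (nat_lit 3), (nat_lit 0), [⟨(nat_lit 0), (nat_lit 98), (nat_lit 54), (nat_lit 100), (nat_lit 761929296)⟩], [⟨(nat_lit 0), (nat_lit 100), (nat_lit 54), (nat_lit 71), (nat_lit 144713569)⟩], [], [],
 ⟨⟨[(nat_lit 40), (nat_lit 80), (nat_lit 120)], [(nat_lit 0), (nat_lit 1598), (nat_lit 3468)], [((nat_lit 0), (nat_lit 0), (nat_lit 0)), ((nat_lit 1000), (nat_lit 625), (nat_lit 623)), ((nat_lit 1000), (nat_lit 604), (nat_lit 730))], ((nat_lit 61), (nat_lit 100), (nat_lit 91))⟩, (nat_lit 0), (nat_lit 247), (nat_lit 247), (nat_lit 0), (nat_lit 126780), [(nat_lit 1459596815), (nat_lit 719017455), (nat_lit 0)], [(nat_lit 0), (nat_lit 0), (nat_lit 487614400)], [(nat_lit 20858593117), (nat_lit 22494146248), (nat_lit 21265858315), (nat_lit 22640634011), (nat_lit 19981968350), (nat_lit 21228375061), (nat_lit 20447822476), (nat_lit 21658159939)], (nat_lit 1271251), (nat_lit 1271251), (nat_lit 704688), (nat_lit 1100000), (nat_lit 111251), (nat_lit 490000), [(nat_lit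 490000), (nat_lit 1100000), (nat_lit 1785001)], [(nat_lit 4), (nat_lit 51), (nat_lit 272), (nat_lit 60), (nat_lit 9)]⟩,
 ⟨⟨[(nat_lit 80), (nat_lit 140), (nat_lit 180)], [(nat_lit 0), (nat_lit 0), (nat_lit 3656)], [((nat_lit 0), (nat_lit 0), (nat_lit 0)), ((nat_lit 0), (nat_lit 0), (nat_lit 0)), ((nat_lit 637), (nat_lit 1000), (nat_lit 908))], ((nat_lit 100), (nat_lit 62), (nat_lit 92))⟩, (nat_lit 0), (nat_lit 391), (nat_lit 391), (nat_lit 0), (nat_lit 307738), [(nat_lit 1167312000), (nat_lit 2450658000), (nat_lit 3500442000)], [], [(nat_lit 9870563964), (nat_lit 9082919180), (nat_lit 8147592276), (nat_lit 8581304238), (nat_lit 8285318048), (nat_lit 8677378237), (nat_lit 9182393604), (nat_lit 8152800816)], (nat_lit 1271251), (nat_lit 1271251), (nat_lit 704688), (nat_lit 1100000), (nat_lit 780000), (nat_lit 1435001), [(nat_lit 1100000), (nat_lit 2127501), (nat_lit 1271251)], [(nat_lit 19), (nat_lit 63), (nat_lit 401), (nat_lit 175), (nat_lit 9)]⟩,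
 Rw.none⟩)) (.spl (nat_lit 0) (nat_lit 370) (.spl (nat_lit 6) (nat_lit 96) (.leaf ⟨(nat_lit 818), (nat_lit 114), (nat_lit 0), (nat_lit 68), (nat_lit 9550), (nat_lit 3348), (nat_lit 2027), (nat_lit 839), (nat_lit 0), (nat_lit 0), (nat_lit 578400), [((nat_lit 370), [((nat_lit 41), (nat_lit 2), (nat_lit 599)), ((nat_lit 26), (nat_lit 2), (nat_lit 219))])], ⟨(nat_lit 6), false, false, false, (nat_lit 188), (nat_lit 2738), (nat_lit 3163), [(nat_lit 1407099), (nat_lit 1411881), (nat_lit 1451384), (nat_lit 1456691), (nat_lit 1483313), (nat_lit 1485730), (nat_lit 1527599), (nat_lit 1530541)]⟩, ⟨(nat_lit 3), false, false, false, (nat_lit 88), (nat_lit 2738), (nat_lit 3163), [(nat_lit 1137055), (nat_lit 1144520), (nat_lit 1203484), (nat_lit 1211736), (nat_lit 1228513), (nat_lit 1233139), (nat_lit 1294942), (nat_lit 1300356)]⟩, (nat_lit 3566117), (nat_lit 51230428), (nat_lit 12054454), (nat_lit 3715118), (nat_lit 5), (nat_lit 0), [⟨(nat_lit 0), (nat_lit 93),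 (nat_lit 53), (nat_lit 100), (nat_lit 341101458)⟩], [⟨(nat_lit 0), (nat_lit 100), (nat_lit 65), (nat_lit 54), (nat_lit 260846969)⟩], [⟨(nat_lit 1), (nat_lit 55), (nat_lit 99), (nat_lit 100), (nat_lit 22764386)⟩], [],
 ⟨⟨[(nat_lit 40), (nat_lit 80), (nat_lit 120)], [(nat_lit 0), (nat_lit 1598), (nat_lit 3468)], [((nat_lit 0), (nat_lit 0), (nat_lit 0)), ((nat_lit 1000), (nat_lit 625), (nat_lit 623)), ((nat_lit 1000), (nat_lit 604), (nat_lit 730))], ((nat_lit 60), (nat_lit 100), (nat_lit 86))⟩, (nat_lit 0), (nat_lit 187), (nat_lit 187), (nat_lit 0), (nat_lit 68487), [(nat_lit 1418476835), (nat_lit 582480424), (nat_lit 0)], [(nat_lit 0), (nat_lit 0), (nat_lit 769322000)], [(nat_lit 20563067824), (nat_lit 21415473228), (nat_lit 20929565150), (nat_lit 21634847054), (nat_lit 19610244698), (nat_lit 20253191865), (nat_lit 20123535518), (nat_lit 20726785440)], (nat_lit 1271251), (nat_lit 1271251), (nat_lit 704688), (nat_lit 1100000), (nat_lit 111251), (nat_lit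 490000), [(nat_lit 490000), (nat_lit 1100000), (nat_lit 1785001)], [(nat_lit 4), (nat_lit 51), (nat_lit 272), (nat_lit 60), (nat_lit 9)]⟩,
 ⟨⟨[(nat_lit 80), (nat_lit 140), (nat_lit 180)], [(nat_lit 0), (nat_lit 0), (nat_lit 3656)], [((nat_lit 0), (nat_lit 0), (nat_lit 0)), ((nat_lit 0), (nat_lit 0), (nat_lit 0)), ((nat_lit 637), (nat_lit 1000), (nat_lit 908))], ((nat_lit 100), (nat_lit 69), (nat_lit 87))⟩, (nat_lit 401154), (nat_lit 262), (nat_lit 262), (nat_lit 0), (nat_lit 158228), [(nat_lit 853216000), (nat_lit 1791244000), (nat_lit 2558556000)], [], [(nat_lit 4465821742), (nat_lit 4938003210), (nat_lit 5372778626), (nat_lit 4670610329), (nat_lit 6682107585), (nat_lit 6871642180), (nat_lit 6273414160), (nat_lit 6443772366)], (nat_lit 1271251), (nat_lit 1271251), (nat_lit 704688), (nat_lit 1100000), (nat_lit 1271251), (nat_lit 1271251), [(nat_lit 1100000), (nat_lit 2127501), (nat_lit 1271251)], [(nat_lit 19), (nat_lit 63), (nat_lit 456), (nat_lit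 225), (nat_lit 10)]⟩,
 ⟨⟨[(nat_lit 140), (nat_lit 180), (nat_lit 200)], [(nat_lit 0), (nat_lit 0), (nat_lit 2835)], [((nat_lit 0), (nat_lit 0), (nat_lit 0)), ((nat_lit 0), (nat_lit 0), (nat_lit 0)), ((nat_lit 363), (nat_lit 1000), (nat_lit 798))], ((nat_lit 0), (nat_lit 0), (nat_lit 0))⟩, (nat_lit 18709), (nat_lit 300), (nat_lit 670), (nat_lit 5310800), (nat_lit 471866), [(nat_lit 669256000), (nat_lit 955944000), (nat_lit 1115200000)], [], [(nat_lit 4606433823), (nat_lit 4429388927), (nat_lit 4196207686), (nat_lit 4026205178), (nat_lit 4548614569), (nat_lit 4358424808), (nat_lit 4138799956), (nat_lit 3942144777)], (nat_lit 780000), (nat_lit 1271251), (nat_lit 111251), (nat_lit 490000), (nat_lit 1271251), (nat_lit 1271251), [(nat_lit 1977501), (nat_lit 1271251), (nat_lit 1271251)], [(nat_lit 32), (nat_lit 67), (nat_lit 401), (nat_lit 175), (nat_lit 9)]⟩⟩) (.dle (nat_lit 0))) (.trZ (nat_lit 0) (nat_lit 1) (nat_lit 3) (nat_lit 100) (nat_lit 54) (nat_lit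 96) (nat_lit 130) (.trZ (nat_lit 0) (nat_lit 2) (nat_lit 4) (nat_lit 100) (nat_lit 57) (nat_lit 62) (nat_lit 30) (.leaf ⟨(nat_lit 929), (nat_lit 33), (nat_lit 0), (nat_lit 38), (nat_lit 10725), (nat_lit 3337), (nat_lit 1031), (nat_lit 481), (nat_lit 0), (nat_lit 0), (nat_lit 371600), [((nat_lit 380), [((nat_lit 26), (nat_lit 1), (nat_lit 929))])], ⟨(nat_lit 6), false, false, false, (nat_lit 195), (nat_lit 2236), (nat_lit 2739), [(nat_lit 1441375), (nat_lit 1445669), (nat_lit 1486169), (nat_lit 1491177), (nat_lit 1485697), (nat_lit 1488457), (nat_lit 1530492), (nat_lit 1533965)]⟩, ⟨(nat_lit 3), false, false, false, (nat_lit 93), (nat_lit 2236), (nat_lit 2739), [(nat_lit 1159252), (nat_lit 1166519), (nat_lit 1226443), (nat_lit 1234781), (nat_lit 1233122), (nat_lit 1237832), (nat_lit 1300314), (nat_lit 1306094)]⟩, (nat_lit 3720098), (nat_lit 50180415), (nat_lit 12760640), (nat_lit 4058945), (nat_lit 5), (nat_lit 0), [⟨(nat_lit 0), (nat_lit 97), (nat_lit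 49), (nat_lit 100), (nat_lit 726391584)⟩], [⟨(nat_lit 0), (nat_lit 100), (nat_lit 57), (nat_lit 62), (nat_lit 265966502)⟩], [⟨(nat_lit 1), (nat_lit 55), (nat_lit 99), (nat_lit 100), (nat_lit 563081)⟩], [],
 ⟨⟨[(nat_lit 40), (nat_lit 80), (nat_lit 120)], [(nat_lit 0), (nat_lit 2008), (nat_lit 3930)], [((nat_lit 0), (nat_lit 0), (nat_lit 0)), ((nat_lit 1000), (nat_lit 540), (nat_lit 733)), ((nat_lit 1000), (nat_lit 536), (nat_lit 751))], ((nat_lit 53), (nat_lit 100), (nat_lit 90))⟩, (nat_lit 527497), (nat_lit 196), (nat_lit 196), (nat_lit 0), (nat_lit 124891), [(nat_lit 1410421249), (nat_lit 1520285476), (nat_lit 1305583600)], [(nat_lit 0), (nat_lit 0), (nat_lit 0)], [(nat_lit 21224616413), (nat_lit 22164110328), (nat_lit 21421429880), (nat_lit 22272989838), (nat_lit 20445284873), (nat_lit 21071381706), (nat_lit 20730567081), (nat_lit 21332899311)], (nat_lit 1271251), (nat_lit 1271251), (nat_lit 857188), (nat_lit 1100000), (nat_lit 169688), (nat_lit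 490000), [(nat_lit 490000), (nat_lit 1100000), (nat_lit 1785001)], [(nat_lit 4), (nat_lit 51), (nat_lit 272), (nat_lit 60), (nat_lit 8)]⟩,
 ⟨⟨[(nat_lit 80), (nat_lit 140), (nat_lit 180)], [(nat_lit 0), (nat_lit 0), (nat_lit 3656)], [((nat_lit 0), (nat_lit 0), (nat_lit 0)), ((nat_lit 0), (nat_lit 0), (nat_lit 0)), ((nat_lit 637), (nat_lit 1000), (nat_lit 908))], ((nat_lit 100), (nat_lit 62), (nat_lit 92))⟩, (nat_lit 77557), (nat_lit 309), (nat_lit 309), (nat_lit 0), (nat_lit 307738), [(nat_lit 332848000), (nat_lit 698782000), (nat_lit 998118000)], [], [(nat_lit 1880179505), (nat_lit 2088707181), (nat_lit 1867980878), (nat_lit 1994182017), (nat_lit 2855417488), (nat_lit 2928143954), (nat_lit 2719374560), (nat_lit 2786918282)], (nat_lit 1271251), (nat_lit 1271251), (nat_lit 857188), (nat_lit 1100000), (nat_lit 1271251), (nat_lit 1271251), [(nat_lit 1100000), (nat_lit 2127501), (nat_lit 1271251)], [(nat_lit 19), (nat_lit 63), (nat_lit 456), (nat_lit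 225), (nat_lit 10)]⟩,
 ⟨⟨[(nat_lit 140), (nat_lit 180), (nat_lit 200)], [(nat_lit 0), (nat_lit 0), (nat_lit 2835)], [((nat_lit 0), (nat_lit 0), (nat_lit 0)), ((nat_lit 0), (nat_lit 0), (nat_lit 0)), ((nat_lit 363), (nat_lit 1000), (nat_lit 798))], ((nat_lit 0), (nat_lit 0), (nat_lit 0))⟩, (nat_lit 10455), (nat_lit 300), (nat_lit 863), (nat_lit 2967801), (nat_lit 903800), [(nat_lit 373996000), (nat_lit 534204000), (nat_lit 623200000)], [], [(nat_lit 2528085474), (nat_lit 2418050087), (nat_lit 2350030106), (nat_lit 2241774152), (nat_lit 2499268603), (nat_lit 2390556614), (nat_lit 2286859980), (nat_lit 2173310397)], (nat_lit 780000), (nat_lit 1271251), (nat_lit 169688), (nat_lit 490000), (nat_lit 1271251), (nat_lit 1271251), [(nat_lit 1977501), (nat_lit 1271251), (nat_lit 1271251)], [(nat_lit 32), (nat_lit 67), (nat_lit 401), (nat_lit 175), (nat_lit 9)]⟩⟩)))))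
noncomputable def c17_98 : Tr Lf :=
 (.trX (nat_lit 5) (nat_lit 3) (nat_lit 4) (nat_lit 100) (nat_lit 44) (nat_lit 82) (nat_lit 390) (.spl (nat_lit 5) (nat_lit 200) (.spl (nat_lit 5) (nat_lit 120) (.leaf ⟨(nat_lit 161), (nat_lit 839), (nat_lit 0), (nat_lit 0), (nat_lit 12928), (nat_lit 4105), (nat_lit 5488), (nat_lit 0), (nat_lit 0), (nat_lit 0), (nat_lit 644000), [((nat_lit 380), [((nat_lit 41), (nat_lit 5), (nat_lit 161))])], ⟨(nat_lit 6), false, false, false, (nat_lit 227), (nat_lit 2236), (nat_lit 3163), [(nat_lit 1483125), (nat_lit 1488302), (nat_lit 1527308), (nat_lit 1533723), (nat_lit 1605240), (nat_lit 1602541), (nat_lit 1649422), (nat_lit 1647962)]⟩, ⟨(nat_lit 3), false, false, false, (nat_lit 89), (nat_lit 2236), (nat_lit 3163), [(nat_lit 1136876), (nat_lit 1152119), (nat_lit 1203150), (nat_lit 1220251), (nat_lit 1228462), (nat_lit 1237798), (nat_lit 1294736), (nat_lit 1305930)]⟩, (nat_lit 3945495), (nat_lit 47360338), (nat_lit 15931937),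 (nat_lit 3707725), (nat_lit 3), (nat_lit 0), [⟨(nat_lit 0), (nat_lit 92), (nat_lit 44), (nat_lit 100), (nat_lit 205996986)⟩], [⟨(nat_lit 0), (nat_lit 100), (nat_lit 44), (nat_lit 86), (nat_lit 160332636)⟩], [], [],
 ⟨⟨[(nat_lit 40), (nat_lit 80), (nat_lit 120)], [(nat_lit 0), (nat_lit 1598), (nat_lit 3468)], [((nat_lit 0), (nat_lit 0), (nat_lit 0)), ((nat_lit 1000), (nat_lit 625), (nat_lit 623)), ((nat_lit 1000), (nat_lit 604), (nat_lit 730))], ((nat_lit 61), (nat_lit 100), (nat_lit 91))⟩, (nat_lit 0), (nat_lit 195), (nat_lit 195), (nat_lit 0), (nat_lit 126780), [(nat_lit 1841739212), (nat_lit 1429127352), (nat_lit 209860800)], [(nat_lit 0), (nat_lit 0), (nat_lit 0)], [(nat_lit 22191219890), (nat_lit 24080992305), (nat_lit 24587417903), (nat_lit 26433853199), (nat_lit 20768155214), (nat_lit 21977081220), (nat_lit 22595924124), (nat_lit 24064792435)], (nat_lit 1271251), (nat_lit 1271251), (nat_lit 1100000), (nat_lit 1785001), (nat_lit 111251), (nat_lit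 490000), [(nat_lit 490000), (nat_lit 1100000), (nat_lit 1785001)], [(nat_lit 4), (nat_lit 51), (nat_lit 317), (nat_lit 100), (nat_lit 10)]⟩,
 ⟨⟨[(nat_lit 80), (nat_lit 140), (nat_lit 180)], [(nat_lit 0), (nat_lit 0), (nat_lit 3656)], [((nat_lit 0), (nat_lit 0), (nat_lit 0)), ((nat_lit 0), (nat_lit 0), (nat_lit 0)), ((nat_lit 637), (nat_lit 1000), (nat_lit 908))], ((nat_lit 100), (nat_lit 62), (nat_lit 92))⟩, (nat_lit 1669865), (nat_lit 440), (nat_lit 440), (nat_lit 0), (nat_lit 256371), [(nat_lit 3933232000), (nat_lit 8257438000), (nat_lit 11794662000)], [], [(nat_lit 33009638808), (nat_lit 34071828242), (nat_lit 33782210572), (nat_lit 34810423568), (nat_lit 29990674940), (nat_lit 30934411238), (nat_lit 33330899556), (nat_lit 31568011816)], (nat_lit 1271251), (nat_lit 1271251), (nat_lit 1100000), (nat_lit 1785001), (nat_lit 0), (nat_lit 780000), [(nat_lit 1100000), (nat_lit 2127501), (nat_lit 1271251)], [(nat_lit 19), (nat_lit 63), (nat_lit 401),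 (nat_lit 175), (nat_lit 9)]⟩,
 Rw.none⟩) (.leaf ⟨(nat_lit 54), (nat_lit 880), (nat_lit 0), (nat_lit 66), (nat_lit 9758), (nat_lit 4135), (nat_lit 3548), (nat_lit 1092), (nat_lit 0), (nat_lit 0), (nat_lit 216000), [((nat_lit 380), [((nat_lit 41), (nat_lit 5), (nat_lit 54))])], ⟨(nat_lit 6), false, false, false, (nat_lit 227), (nat_lit 2236), (nat_lit 3163), [(nat_lit 1483125), (nat_lit 1488302), (nat_lit 1527308), (nat_lit 1533723), (nat_lit 1605240), (nat_lit 1602541), (nat_lit 1649422), (nat_lit 1647962)]⟩, ⟨(nat_lit 3), false, false, false, (nat_lit 89), (nat_lit 2236), (nat_lit 3163), [(nat_lit 1136876), (nat_lit 1152119), (nat_lit 1203150), (nat_lit 1220251), (nat_lit 1228462), (nat_lit 1237798), (nat_lit 1294736), (nat_lit 1305930)]⟩, (nat_lit 3945495), (nat_lit 47360338), (nat_lit 15931937), (nat_lit 3707725), (nat_lit 3), (nat_lit 0), [⟨(nat_lit 0), (nat_lit 92), (nat_lit 44), (nat_lit 100), (nat_lit 1308476)⟩], [⟨(nat_lit 0), (nat_lit 100),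 (nat_lit 54), (nat_lit 71), (nat_lit 253709984)⟩], [], [],
 ⟨⟨[(nat_lit 40), (nat_lit 80), (nat_lit 120)], [(nat_lit 0), (nat_lit 1598), (nat_lit 3468)], [((nat_lit 0), (nat_lit 0), (nat_lit 0)), ((nat_lit 1000), (nat_lit 625), (nat_lit 623)), ((nat_lit 1000), (nat_lit 604), (nat_lit 730))], ((nat_lit 61), (nat_lit 100), (nat_lit 91))⟩, (nat_lit 1369912), (nat_lit 195), (nat_lit 195), (nat_lit 0), (nat_lit 126780), [(nat_lit 1864508809), (nat_lit 3615971893), (nat_lit 5365891200)], [(nat_lit 0), (nat_lit 0), (nat_lit 0)], [(nat_lit 22607788214), (nat_lit 24191205827), (nat_lit 24687010014), (nat_lit 26493415042), (nat_lit 21134094660), (nat_lit 22380688667), (nat_lit 22995224302), (nat_lit 24245018774)], (nat_lit 1271251), (nat_lit 1271251), (nat_lit 1100000), (nat_lit 1785001), (nat_lit 111251), (nat_lit 490000), [(nat_lit 490000), (nat_lit 1100000), (nat_lit 1785001)], [(nat_lit 4), (nat_lit 51), (nat_lit 317), (nat_lit 100), (nat_lit 10)]⟩,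
 ⟨⟨[(nat_lit 80), (nat_lit 140), (nat_lit 180)], [(nat_lit 0), (nat_lit 0), (nat_lit 3656)], [((nat_lit 0), (nat_lit 0), (nat_lit 0)), ((nat_lit 0), (nat_lit 0), (nat_lit 0)), ((nat_lit 637), (nat_lit 1000), (nat_lit 908))], ((nat_lit 100), (nat_lit 62), (nat_lit 92))⟩, (nat_lit 0), (nat_lit 364), (nat_lit 364), (nat_lit 0), (nat_lit 307738), [(nat_lit 4434848000), (nat_lit 9310532000), (nat_lit 13298868000)], [], [(nat_lit 36175109548), (nat_lit 37572197484), (nat_lit 38041008480), (nat_lit 39034152346), (nat_lit 37501728480), (nat_lit 38442013918), (nat_lit 43171435192), (nat_lit 39936578124)], (nat_lit 1271251), (nat_lit 1271251), (nat_lit 1100000), (nat_lit 1785001), (nat_lit 780000), (nat_lit 1435001), [(nat_lit 1100000), (nat_lit 2127501), (nat_lit 1271251)], [(nat_lit 19), (nat_lit 63), (nat_lit 428), (nat_lit 200), (nat_lit 10)]⟩,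
 ⟨⟨[(nat_lit 140), (nat_lit 180), (nat_lit 200)], [(nat_lit 0), (nat_lit 0), (nat_lit 2835)], [((nat_lit 0), (nat_lit 0), (nat_lit 0)), ((nat_lit 0), (nat_lit 0), (nat_lit 0)), ((nat_lit 363), (nat_lit 1000), (nat_lit 798))], ((nat_lit 0), (nat_lit 0), (nat_lit 0))⟩, (nat_lit 18159), (nat_lit 300), (nat_lit 912), (nat_lit 5154600), (nat_lit 903800), [(nat_lit 649572000), (nat_lit 927828000), (nat_lit 1082400000)], [], [(nat_lit 4819763804), (nat_lit 4261177233), (nat_lit 3900722976), (nat_lit 3660956385), (nat_lit 4188794415), (nat_lit 3985035000), (nat_lit 3576866856), (nat_lit 3777840462)], (nat_lit 780000), (nat_lit 1271251), (nat_lit 111251), (nat_lit 490000), (nat_lit 780000), (nat_lit 1435001), [(nat_lit 1977501), (nat_lit 1271251), (nat_lit 1271251)], [(nat_lit 32), (nat_lit 67), (nat_lit 345), (nat_lit 125), (nat_lit 8)]⟩⟩)) (.stt (nat_lit 2) (.leaf ⟨(nat_lit 0), (nat_lit 885), (nat_lit 0), (nat_lit 115), (nat_lit 16553), (nat_lit 4360),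 (nat_lit 5863), (nat_lit 1344), (nat_lit 0), (nat_lit 0), (nat_lit 0), [], Pd.none, Pd.none, (nat_lit 0), (nat_lit 1), (nat_lit 0), (nat_lit 0), (nat_lit 5), (nat_lit 0), [⟨(nat_lit 0), (nat_lit 92), (nat_lit 44), (nat_lit 100), (nat_lit 566441171)⟩], [⟨(nat_lit 0), (nat_lit 100), (nat_lit 54), (nat_lit 71), (nat_lit 316669767)⟩], [⟨(nat_lit 1), (nat_lit 55), (nat_lit 99), (nat_lit 100), (nat_lit 416029527)⟩], [],
 ⟨⟨[(nat_lit 40), (nat_lit 80), (nat_lit 120)], [(nat_lit 0), (nat_lit 1598), (nat_lit 3468)], [((nat_lit 0), (nat_lit 0), (nat_lit 0)), ((nat_lit 1000), (nat_lit 625), (nat_lit 623)), ((nat_lit 1000), (nat_lit 604), (nat_lit 730))], ((nat_lit 61), (nat_lit 100), (nat_lit 91))⟩, (nat_lit 2045851), (nat_lit 195), (nat_lit 195), (nat_lit 0), (nat_lit 126780), [(nat_lit 2032000062), (nat_lit 4747689601), (nat_lit 7968000000)], [], [(nat_lit 22951186112), (nat_lit 24581389260), (nat_lit 25031550912), (nat_lit 26940128860), (nat_lit 21247826216),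 (nat_lit 22623431172), (nat_lit 23202549656), (nat_lit 24482521772)], (nat_lit 1271251), (nat_lit 1271251), (nat_lit 1100000), (nat_lit 1785001), (nat_lit 111251), (nat_lit 490000), [(nat_lit 490000), (nat_lit 1100000), (nat_lit 1785001)], [(nat_lit 4), (nat_lit 51), (nat_lit 317), (nat_lit 100), (nat_lit 10)]⟩,
 ⟨⟨[(nat_lit 80), (nat_lit 140), (nat_lit 180)], [(nat_lit 0), (nat_lit 0), (nat_lit 3656)], [((nat_lit 0), (nat_lit 0), (nat_lit 0)), ((nat_lit 0), (nat_lit 0), (nat_lit 0)), ((nat_lit 637), (nat_lit 1000), (nat_lit 908))], ((nat_lit 100), (nat_lit 62), (nat_lit 92))⟩, (nat_lit 0), (nat_lit 111), (nat_lit 111), (nat_lit 0), (nat_lit 0), [(nat_lit 4688000000), (nat_lit 9842000000), (nat_lit 14058000000)], [], [(nat_lit 13478678934), (nat_lit 16527580611), (nat_lit 17027275842), (nat_lit 19592700794), (nat_lit 26816775251), (nat_lit 28509090310), (nat_lit 28309094400), (nat_lit 29872796630)], (nat_lit 0), (nat_lit 0), (nat_lit 0), (nat_lit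 0), (nat_lit 0), (nat_lit 0), [], [(nat_lit 19), (nat_lit 63), (nat_lit 483), (nat_lit 250), (nat_lit 11)]⟩,
 ⟨⟨[(nat_lit 140), (nat_lit 180), (nat_lit 200)], [(nat_lit 0), (nat_lit 0), (nat_lit 2835)], [((nat_lit 0), (nat_lit 0), (nat_lit 0)), ((nat_lit 0), (nat_lit 0), (nat_lit 0)), ((nat_lit 363), (nat_lit 1000), (nat_lit 798))], ((nat_lit 0), (nat_lit 0), (nat_lit 0))⟩, (nat_lit 31640), (nat_lit 300), (nat_lit 871), (nat_lit 8981503), (nat_lit 903800), [(nat_lit 1131830000), (nat_lit 1616670000), (nat_lit 1886000000)], [], [(nat_lit 8086839020), (nat_lit 7782408725), (nat_lit 7495065152), (nat_lit 7199441840), (nat_lit 7799838658), (nat_lit 7481113619), (nat_lit 7147707284), (nat_lit 6840446464)], (nat_lit 780000), (nat_lit 1271251), (nat_lit 111251), (nat_lit 490000), (nat_lit 1271251), (nat_lit 1271251), [(nat_lit 1977501), (nat_lit 1271251), (nat_lit 1271251)], [(nat_lit 32), (nat_lit 67), (nat_lit 401), (nat_lit 175), (nat_lit 9)]⟩⟩) (.spl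 (nat_lit 0) (nat_lit 370) (.spl (nat_lit 6) (nat_lit 96) (.leaf ⟨(nat_lit 35), (nat_lit 479), (nat_lit 0), (nat_lit 486), (nat_lit 8891), (nat_lit 3534), (nat_lit 6841), (nat_lit 6447), (nat_lit 0), (nat_lit 0), (nat_lit 140000), [((nat_lit 370), [((nat_lit 41), (nat_lit 5), (nat_lit 35))])], ⟨(nat_lit 6), false, false, false, (nat_lit 227), (nat_lit 2738), (nat_lit 3163), [(nat_lit 1483313), (nat_lit 1485730), (nat_lit 1527599), (nat_lit 1530541), (nat_lit 1605257), (nat_lit 1603890), (nat_lit 1649542), (nat_lit 1648700)]⟩, ⟨(nat_lit 3), false, false, false, (nat_lit 88), (nat_lit 2738), (nat_lit 3163), [(nat_lit 1137055), (nat_lit 1144520), (nat_lit 1203484), (nat_lit 1211736), (nat_lit 1228513), (nat_lit 1233139), (nat_lit 1294942), (nat_lit 1300356)]⟩, (nat_lit 3927399), (nat_lit 47443967), (nat_lit 15926556), (nat_lit 3629477), (nat_lit 5), (nat_lit 0), [], [⟨(nat_lit 0), (nat_lit 100), (nat_lit 65), (nat_lit 54), (nat_lit 923605002)⟩], [],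 [],
 ⟨⟨[(nat_lit 40), (nat_lit 80), (nat_lit 120)], [(nat_lit 0), (nat_lit 1598), (nat_lit 3468)], [((nat_lit 0), (nat_lit 0), (nat_lit 0)), ((nat_lit 1000), (nat_lit 625), (nat_lit 623)), ((nat_lit 1000), (nat_lit 604), (nat_lit 730))], ((nat_lit 60), (nat_lit 100), (nat_lit 86))⟩, (nat_lit 1922210), (nat_lit 164), (nat_lit 164), (nat_lit 0), (nat_lit 38665), [(nat_lit 1896298002), (nat_lit 4104445315), (nat_lit 6281448000)], [(nat_lit 0), (nat_lit 0), (nat_lit 0)], [(nat_lit 21551235363), (nat_lit 22240223336), (nat_lit 23598291447), (nat_lit 24449242122), (nat_lit 20450856414), (nat_lit 21109383335), (nat_lit 22651150794), (nat_lit 23335857031)], (nat_lit 1271251), (nat_lit 1271251), (nat_lit 1100000), (nat_lit 1785001), (nat_lit 111251), (nat_lit 490000), [(nat_lit 490000), (nat_lit 1100000), (nat_lit 1785001)], [(nat_lit 4), (nat_lit 51), (nat_lit 317), (nat_lit 100), (nat_lit 10)]⟩,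
 ⟨⟨[(nat_lit 80), (nat_lit 140), (nat_lit 180)], [(nat_lit 0), (nat_lit 0), (nat_lit 3656)], [((nat_lit 0), (nat_lit 0), (nat_lit 0)), ((nat_lit 0), (nat_lit 0), (nat_lit 0)), ((nat_lit 637), (nat_lit 1000), (nat_lit 908))], ((nat_lit 100), (nat_lit 69), (nat_lit 87))⟩, (nat_lit 0), (nat_lit 232), (nat_lit 232), (nat_lit 0), (nat_lit 158228), [(nat_lit 4523920000), (nat_lit 9497530000), (nat_lit 13565970000)], [], [(nat_lit 32649876394), (nat_lit 34434565095), (nat_lit 40773065762), (nat_lit 35660907872), (nat_lit 40747504430), (nat_lit 41689381316), (nat_lit 40941821234), (nat_lit 41702822537)], (nat_lit 1271251), (nat_lit 1271251), (nat_lit 1100000), (nat_lit 1785001), (nat_lit 1271251), (nat_lit 1271251), [(nat_lit 1100000), (nat_lit 2127501), (nat_lit 1271251)], [(nat_lit 19), (nat_lit 63), (nat_lit 483), (nat_lit 250), (nat_lit 11)]⟩,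
 ⟨⟨[(nat_lit 140), (nat_lit 180), (nat_lit 200)], [(nat_lit 0), (nat_lit 0), (nat_lit 2835)], [((nat_lit 0), (nat_lit 0), (nat_lit 0)), ((nat_lit 0), (nat_lit 0), (nat_lit 0)), ((nat_lit 363), (nat_lit 1000), (nat_lit 798))], ((nat_lit 0), (nat_lit 0), (nat_lit 0))⟩, (nat_lit 133714), (nat_lit 300), (nat_lit 517), (nat_lit 37956605), (nat_lit 190847), [(nat_lit 4783212000), (nat_lit 6832188000), (nat_lit 7970400000)], [], [(nat_lit 30777929546), (nat_lit 29544564534), (nat_lit 27494851840), (nat_lit 26320589151), (nat_lit 32378982097), (nat_lit 30911421803), (nat_lit 28797598877), (nat_lit 27406321483)], (nat_lit 780000), (nat_lit 1271251), (nat_lit 111251), (nat_lit 490000), (nat_lit 1271251), (nat_lit 1271251), [(nat_lit 1977501), (nat_lit 1271251), (nat_lit 1271251)], [(nat_lit 32), (nat_lit 67), (nat_lit 401), (nat_lit 175), (nat_lit 9)]⟩⟩) (.dle (nat_lit 0))) (.trZ (nat_lit 0) (nat_lit 2) (nat_lit 4) (nat_lit 100) (nat_lit 57) (nat_lit 62) (nat_lit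 30) (.leaf ⟨(nat_lit 327), (nat_lit 383), (nat_lit 0), (nat_lit 290), (nat_lit 2721), (nat_lit 3301), (nat_lit 4052), (nat_lit 3934), (nat_lit 0), (nat_lit 0), (nat_lit 107550), [((nat_lit 380), [((nat_lit 26), (nat_lit 0), (nat_lit 155)), ((nat_lit 26), (nat_lit 1), (nat_lit 172))])], ⟨(nat_lit 6), false, false, false, (nat_lit 227), (nat_lit 2236), (nat_lit 2739), [(nat_lit 1485697), (nat_lit 1488457), (nat_lit 1530492), (nat_lit 1533965), (nat_lit 1603890), (nat_lit 1602558), (nat_lit 1648684), (nat_lit 1648065)]⟩, ⟨(nat_lit 3), false, false, false, (nat_lit 93), (nat_lit 2236), (nat_lit 2739), [(nat_lit 1159252), (nat_lit 1166519), (nat_lit 1226443), (nat_lit 1234781), (nat_lit 1233122), (nat_lit 1237832), (nat_lit 1300314), (nat_lit 1306094)]⟩, (nat_lit 4002816), (nat_lit 47108881), (nat_lit 15918807), (nat_lit 3972312), (nat_lit 5), (nat_lit 0), [], [⟨(nat_lit 0), (nat_lit 100), (nat_lit 57), (nat_lit 62), (nat_lit 678982087)⟩], [], [],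
 ⟨⟨[(nat_lit 40), (nat_lit 80), (nat_lit 120)], [(nat_lit 0), (nat_lit 2008), (nat_lit 3930)], [((nat_lit 0), (nat_lit 0), (nat_lit 0)), ((nat_lit 1000), (nat_lit 540), (nat_lit 733)), ((nat_lit 1000), (nat_lit 536), (nat_lit 751))], ((nat_lit 53), (nat_lit 100), (nat_lit 90))⟩, (nat_lit 1639763), (nat_lit 173), (nat_lit 173), (nat_lit 0), (nat_lit 71332), [(nat_lit 1684887602), (nat_lit 4008637935), (nat_lit 5888928800)], [(nat_lit 0), (nat_lit 0), (nat_lit 0)], [(nat_lit 21775563670), (nat_lit 22437275303), (nat_lit 23731505166), (nat_lit 24547895158), (nat_lit 20945888982), (nat_lit 21583287113), (nat_lit 23020361094), (nat_lit 23682593199)], (nat_lit 1271251), (nat_lit 1271251), (nat_lit 1100000), (nat_lit 1785001), (nat_lit 169688), (nat_lit 490000), [(nat_lit 490000), (nat_lit 1100000), (nat_lit 1785001)], [(nat_lit 4), (nat_lit 51), (nat_lit 317), (nat_lit 100), (nat_lit 10)]⟩,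
 ⟨⟨[(nat_lit 80), (nat_lit 140), (nat_lit 180)], [(nat_lit 0), (nat_lit 0), (nat_lit 3656)], [((nat_lit 0), (nat_lit 0), (nat_lit 0)), ((nat_lit 0), (nat_lit 0), (nat_lit 0)), ((nat_lit 637), (nat_lit 1000), (nat_lit 908))], ((nat_lit 100), (nat_lit 62), (nat_lit 92))⟩, (nat_lit 0), (nat_lit 291), (nat_lit 291), (nat_lit 0), (nat_lit 307738), [(nat_lit 3155024000), (nat_lit 6623666000), (nat_lit 9461034000)], [], [(nat_lit 23951885372), (nat_lit 24967291615), (nat_lit 28494154672), (nat_lit 25731097287), (nat_lit 28498303499), (nat_lit 29148666885), (nat_lit 28776407971), (nat_lit 29315262359)], (nat_lit 1271251), (nat_lit 1271251), (nat_lit 1100000), (nat_lit 1785001), (nat_lit 1271251), (nat_lit 1271251), [(nat_lit 1100000), (nat_lit 2127501), (nat_lit 1271251)], [(nat_lit 19), (nat_lit 63), (nat_lit 483), (nat_lit 250), (nat_lit 11)]⟩,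
 ⟨⟨[(nat_lit 140), (nat_lit 180), (nat_lit 200)], [(nat_lit 0), (nat_lit 0), (nat_lit 2835)], [((nat_lit 0), (nat_lit 0), (nat_lit 0)), ((nat_lit 0), (nat_lit 0), (nat_lit 0)), ((nat_lit 363), (nat_lit 1000), (nat_lit 798))], ((nat_lit 0), (nat_lit 0), (nat_lit 0))⟩, (nat_lit 79788), (nat_lit 300), (nat_lit 616), (nat_lit 22649006), (nat_lit 370193), [(nat_lit 2854180000), (nat_lit 4076820000), (nat_lit 4756000000)], [], [(nat_lit 18878909857), (nat_lit 18027840105), (nat_lit 17259946044), (nat_lit 16436659032), (nat_lit 18969935913), (nat_lit 18075771188), (nat_lit 17145062010), (nat_lit 16289744812)], (nat_lit 780000), (nat_lit 1271251), (nat_lit 169688), (nat_lit 490000), (nat_lit 1271251), (nat_lit 1271251), [(nat_lit 1977501), (nat_lit 1271251), (nat_lit 1271251)], [(nat_lit 32), (nat_lit 67), (nat_lit 401), (nat_lit 175), (nat_lit 9)]⟩⟩))))))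
noncomputable def c17_99 : Tr Lf :=
 (.spl (nat_lit 3) (nat_lit 160) (.leaf ⟨(nat_lit 1000), (nat_lit 0), (nat_lit 0), (nat_lit 0), (nat_lit 14009), (nat_lit 3304), (nat_lit 0), (nat_lit 0), (nat_lit 0), (nat_lit 0), (nat_lit 563000), [((nat_lit 380), [((nat_lit 26), (nat_lit 1), (nat_lit 185)), ((nat_lit 41), (nat_lit 2), (nat_lit 815))])], ⟨(nat_lit 6), false, false, false, (nat_lit 188), (nat_lit 2236), (nat_lit 3163), [(nat_lit 1406804), (nat_lit 1416903), (nat_lit 1450987), (nat_lit 1462324), (nat_lit 1483125), (nat_lit 1488302), (nat_lit 1527308), (nat_lit 1533723)]⟩, ⟨(nat_lit 3), false, false, false, (nat_lit 119), (nat_lit 2236), (nat_lit 3163), [(nat_lit 1228462), (nat_lit 1237798), (nat_lit 1294736), (nat_lit 1305930), (nat_lit 1289472), (nat_lit 1294870), (nat_lit 1355794), (nat_lit 1363050)]⟩, (nat_lit 3987311), (nat_lit 49173581), (nat_lit 12000364), (nat_lit 5826055), (nat_lit 0), (nat_lit 0), [⟨(nat_lit 0), (nat_lit 98), (nat_lit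 54), (nat_lit 100), (nat_lit 890503561)⟩], [], [], [],
 ⟨⟨[(nat_lit 40), (nat_lit 80), (nat_lit 120)], [(nat_lit 0), (nat_lit 1598), (nat_lit 3468)], [((nat_lit 0), (nat_lit 0), (nat_lit 0)), ((nat_lit 1000), (nat_lit 625), (nat_lit 623)), ((nat_lit 1000), (nat_lit 604), (nat_lit 730))], ((nat_lit 61), (nat_lit 100), (nat_lit 91))⟩, (nat_lit 0), (nat_lit 168), (nat_lit 168), (nat_lit 0), (nat_lit 126780), [(nat_lit 1310384152), (nat_lit 682485466), (nat_lit 0)], [(nat_lit 0), (nat_lit 0), (nat_lit 1066690000)], [(nat_lit 18966015634), (nat_lit 20415895686), (nat_lit 19419552104), (nat_lit 20753233016), (nat_lit 19309311370), (nat_lit 20679265560), (nat_lit 19776753920), (nat_lit 21014343252)], (nat_lit 1271251), (nat_lit 1271251), (nat_lit 704688), (nat_lit 1100000), (nat_lit 490000), (nat_lit 780000), [(nat_lit 490000), (nat_lit 1100000), (nat_lit 1785001)], [(nat_lit 4), (nat_lit 51), (nat_lit 289), (nat_lit 75), (nat_lit 9)]⟩,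
 Rw.none,
 Rw.none⟩) (.spl (nat_lit 5) (nat_lit 200) (.spl (nat_lit 5) (nat_lit 120) (.leaf ⟨(nat_lit 549), (nat_lit 451), (nat_lit 0), (nat_lit 0), (nat_lit 10941), (nat_lit 3648), (nat_lit 2950), (nat_lit 0), (nat_lit 0), (nat_lit 0), (nat_lit 585000), [((nat_lit 380), [((nat_lit 26), (nat_lit 2), (nat_lit 537)), ((nat_lit 41), (nat_lit 5), (nat_lit 12))])], ⟨(nat_lit 6), false, false, false, (nat_lit 227), (nat_lit 2236), (nat_lit 3163), [(nat_lit 1483125), (nat_lit 1488302), (nat_lit 1527308), (nat_lit 1533723), (nat_lit 1605240), (nat_lit 1602541), (nat_lit 1649422), (nat_lit 1647962)]⟩, ⟨(nat_lit 3), false, false, false, (nat_lit 119), (nat_lit 2236), (nat_lit 3163), [(nat_lit 1228462), (nat_lit 1237798), (nat_lit 1294736), (nat_lit 1305930), (nat_lit 1289472), (nat_lit 1294870), (nat_lit 1355794), (nat_lit 1363050)]⟩, (nat_lit 4315447), (nat_lit 45679413), (nat_lit 15664771), (nat_lit 5655816), (nat_lit 3), (nat_lit 0), [⟨(nat_lit 0), (nat_lit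 92), (nat_lit 44), (nat_lit 100), (nat_lit 255012538)⟩], [], [], [],
 ⟨⟨[(nat_lit 40), (nat_lit 80), (nat_lit 120)], [(nat_lit 0), (nat_lit 1598), (nat_lit 3468)], [((nat_lit 0), (nat_lit 0), (nat_lit 0)), ((nat_lit 1000), (nat_lit 625), (nat_lit 623)), ((nat_lit 1000), (nat_lit 604), (nat_lit 730))], ((nat_lit 61), (nat_lit 100), (nat_lit 91))⟩, (nat_lit 0), (nat_lit 153), (nat_lit 153), (nat_lit 0), (nat_lit 126780), [(nat_lit 1591798129), (nat_lit 1234291553), (nat_lit 0)], [(nat_lit 0), (nat_lit 0), (nat_lit 143497200)], [(nat_lit 20270402353), (nat_lit 21653791992), (nat_lit 22292396336), (nat_lit 23530746672), (nat_lit 20578164145), (nat_lit 21856102824), (nat_lit 22496208825), (nat_lit 23652116312)], (nat_lit 1271251), (nat_lit 1271251), (nat_lit 1100000), (nat_lit 1785001), (nat_lit 490000), (nat_lit 780000), [(nat_lit 490000), (nat_lit 1100000), (nat_lit 1785001)], [(nat_lit 4), (nat_lit 51), (nat_lit 317), (nat_lit 100), (nat_lit 10)]⟩,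
 ⟨⟨[(nat_lit 80), (nat_lit 140), (nat_lit 180)], [(nat_lit 0), (nat_lit 0), (nat_lit 3656)], [((nat_lit 0), (nat_lit 0), (nat_lit 0)), ((nat_lit 0), (nat_lit 0), (nat_lit 0)), ((nat_lit 637), (nat_lit 1000), (nat_lit 908))], ((nat_lit 100), (nat_lit 62), (nat_lit 92))⟩, (nat_lit 616804), (nat_lit 440), (nat_lit 440), (nat_lit 0), (nat_lit 256371), [(nat_lit 2114288000), (nat_lit 4438742000), (nat_lit 6340158000)], [], [(nat_lit 18770233556), (nat_lit 19341840526), (nat_lit 19186215556), (nat_lit 19738874336), (nat_lit 17148128032), (nat_lit 17655426858), (nat_lit 17916856152), (nat_lit 17928933457)], (nat_lit 1271251), (nat_lit 1271251), (nat_lit 1100000), (nat_lit 1785001), (nat_lit 0), (nat_lit 780000), [(nat_lit 1100000), (nat_lit 2127501), (nat_lit 1271251)], [(nat_lit 19), (nat_lit 63), (nat_lit 401), (nat_lit 175), (nat_lit 9)]⟩,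
 Rw.none⟩) (.leaf ⟨(nat_lit 131), (nat_lit 756), (nat_lit 0), (nat_lit 113), (nat_lit 13372), (nat_lit 5022), (nat_lit 4659), (nat_lit 1479), (nat_lit 0), (nat_lit 0), (nat_lit 524000), [((nat_lit 380), [((nat_lit 41), (nat_lit 5), (nat_lit 131))])], ⟨(nat_lit 6), false, false, false, (nat_lit 227), (nat_lit 2236), (nat_lit 3163), [(nat_lit 1483125), (nat_lit 1488302), (nat_lit 1527308), (nat_lit 1533723), (nat_lit 1605240), (nat_lit 1602541), (nat_lit 1649422), (nat_lit 1647962)]⟩, ⟨(nat_lit 3), false, false, false, (nat_lit 119), (nat_lit 2236), (nat_lit 3163), [(nat_lit 1228462), (nat_lit 1237798), (nat_lit 1294736), (nat_lit 1305930), (nat_lit 1289472), (nat_lit 1294870), (nat_lit 1355794), (nat_lit 1363050)]⟩, (nat_lit 4315447), (nat_lit 45679413), (nat_lit 15664771), (nat_lit 5655816), (nat_lit 3), (nat_lit 0), [], [], [], [],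
 ⟨⟨[(nat_lit 40), (nat_lit 80), (nat_lit 120)], [(nat_lit 0), (nat_lit 1598), (nat_lit 3468)], [((nat_lit 0), (nat_lit 0), (nat_lit 0)), ((nat_lit 1000), (nat_lit 625), (nat_lit 623)), ((nat_lit 1000), (nat_lit 604), (nat_lit 730))], ((nat_lit 61), (nat_lit 100), (nat_lit 91))⟩, (nat_lit 13150), (nat_lit 153), (nat_lit 153), (nat_lit 0), (nat_lit 126780), [(nat_lit 2066531743), (nat_lit 2661123459), (nat_lit 1655476800)], [(nat_lit 0), (nat_lit 0), (nat_lit 0)], [(nat_lit 21626725592), (nat_lit 23316758088), (nat_lit 23701073504), (nat_lit 25165877434), (nat_lit 21680753850), (nat_lit 23284213161), (nat_lit 23644113636), (nat_lit 25029539082)], (nat_lit 1271251), (nat_lit 1271251), (nat_lit 1100000), (nat_lit 1785001), (nat_lit 490000), (nat_lit 780000), [(nat_lit 490000), (nat_lit 1100000), (nat_lit 1785001)], [(nat_lit 4), (nat_lit 51), (nat_lit 317), (nat_lit 100), (nat_lit 10)]⟩,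
 ⟨⟨[(nat_lit 80), (nat_lit 140), (nat_lit 180)], [(nat_lit 0), (nat_lit 0), (nat_lit 3656)], [((nat_lit 0), (nat_lit 0), (nat_lit 0)), ((nat_lit 0), (nat_lit 0), (nat_lit 0)), ((nat_lit 637), (nat_lit 1000), (nat_lit 908))], ((nat_lit 100), (nat_lit 62), (nat_lit 92))⟩, (nat_lit 0), (nat_lit 364), (nat_lit 364), (nat_lit 0), (nat_lit 307738), [(nat_lit 4073872000), (nat_lit 8552698000), (nat_lit 12216402000)], [], [(nat_lit 31163592158), (nat_lit 32606243018), (nat_lit 34701092142), (nat_lit 33860032087), (nat_lit 34037732142), (nat_lit 33131651751), (nat_lit 40460179942), (nat_lit 36212378623)], (nat_lit 1271251), (nat_lit 1271251), (nat_lit 1100000), (nat_lit 1785001), (nat_lit 780000), (nat_lit 1435001), [(nat_lit 1100000), (nat_lit 2127501), (nat_lit 1271251)], [(nat_lit 19), (nat_lit 63), (nat_lit 428), (nat_lit 200), (nat_lit 10)]⟩,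
 ⟨⟨[(nat_lit 140), (nat_lit 180), (nat_lit 200)], [(nat_lit 0), (nat_lit 0), (nat_lit 2835)], [((nat_lit 0), (nat_lit 0), (nat_lit 0)), ((nat_lit 0), (nat_lit 0), (nat_lit 0)), ((nat_lit 363), (nat_lit 1000), (nat_lit 798))], ((nat_lit 0), (nat_lit 0), (nat_lit 0))⟩, (nat_lit 31090), (nat_lit 300), (nat_lit 862), (nat_lit 8825300), (nat_lit 903800), [(nat_lit 1112146000), (nat_lit 1588554000), (nat_lit 1853200000)], [], [(nat_lit 7273488282), (nat_lit 6937660257), (nat_lit 6999247800), (nat_lit 6665159665), (nat_lit 6821696006), (nat_lit 6515782080), (nat_lit 6554637473), (nat_lit 6663823852)], (nat_lit 780000), (nat_lit 1271251), (nat_lit 490000), (nat_lit 780000), (nat_lit 780000), (nat_lit 1435001), [(nat_lit 1977501), (nat_lit 1271251), (nat_lit 1271251)], [(nat_lit 32), (nat_lit 67), (nat_lit 345), (nat_lit 125), (nat_lit 8)]⟩⟩)) (.leaf ⟨(nat_lit 868), (nat_lit 58), (nat_lit 0), (nat_lit 74), (nat_lit 3444), (nat_lit 3325), (nat_lit 2064), (nat_lit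 948), (nat_lit 0), (nat_lit 0), (nat_lit 550000), [((nat_lit 380), [((nat_lit 41), (nat_lit 2), (nat_lit 795)), ((nat_lit 26), (nat_lit 2), (nat_lit 73))])], ⟨(nat_lit 6), false, false, false, (nat_lit 227), (nat_lit 2236), (nat_lit 3163), [(nat_lit 1483125), (nat_lit 1488302), (nat_lit 1527308), (nat_lit 1533723), (nat_lit 1605240), (nat_lit 1602541), (nat_lit 1649422), (nat_lit 1647962)]⟩, ⟨(nat_lit 3), false, false, false, (nat_lit 119), (nat_lit 2236), (nat_lit 3163), [(nat_lit 1228462), (nat_lit 1237798), (nat_lit 1294736), (nat_lit 1305930), (nat_lit 1289472), (nat_lit 1294870), (nat_lit 1355794), (nat_lit 1363050)]⟩, (nat_lit 4315447), (nat_lit 45679413), (nat_lit 15664771), (nat_lit 5655816), (nat_lit 5), (nat_lit 0), [], [], [], [],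
 ⟨⟨[(nat_lit 40), (nat_lit 80), (nat_lit 120)], [(nat_lit 0), (nat_lit 1598), (nat_lit 3468)], [((nat_lit 0), (nat_lit 0), (nat_lit 0)), ((nat_lit 1000), (nat_lit 625), (nat_lit 623)), ((nat_lit 1000), (nat_lit 604), (nat_lit 730))], ((nat_lit 61), (nat_lit 100), (nat_lit 91))⟩, (nat_lit 0), (nat_lit 153), (nat_lit 153), (nat_lit 0), (nat_lit 126780), [(nat_lit 1384390405), (nat_lit 869079321), (nat_lit 0)], [(nat_lit 0), (nat_lit 0), (nat_lit 574865200)], [(nat_lit 19963787555), (nat_lit 21243676100), (nat_lit 21971341655), (nat_lit 23128734850), (nat_lit 20317971230), (nat_lit 21536964218), (nat_lit 22236489105), (nat_lit 23328322863)], (nat_lit 1271251), (nat_lit 1271251), (nat_lit 1100000), (nat_lit 1785001), (nat_lit 490000), (nat_lit 780000), [(nat_lit 490000), (nat_lit 1100000), (nat_lit 1785001)], [(nat_lit 4), (nat_lit 51), (nat_lit 317), (nat_lit 100), (nat_lit 10)]⟩,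
 ⟨⟨[(nat_lit 80), (nat_lit 140), (nat_lit 180)], [(nat_lit 0), (nat_lit 0), (nat_lit 3656)], [((nat_lit 0), (nat_lit 0), (nat_lit 0)), ((nat_lit 0), (nat_lit 0), (nat_lit 0)), ((nat_lit 637), (nat_lit 1000), (nat_lit 908))], ((nat_lit 100), (nat_lit 62), (nat_lit 92))⟩, (nat_lit 39322), (nat_lit 294), (nat_lit 294), (nat_lit 0), (nat_lit 307738), [(nat_lit 618816000), (nat_lit 1299144000), (nat_lit 1855656000)], [], [(nat_lit 3635957848), (nat_lit 4019529616), (nat_lit 5485231680), (nat_lit 4099729180), (nat_lit 5429002576), (nat_lit 5554273000), (nat_lit 5210565664), (nat_lit 5367430536)], (nat_lit 1271251), (nat_lit 1271251), (nat_lit 1100000), (nat_lit 1785001), (nat_lit 1271251), (nat_lit 1271251), [(nat_lit 1100000), (nat_lit 2127501), (nat_lit 1271251)], [(nat_lit 19), (nat_lit 63), (nat_lit 483), (nat_lit 250), (nat_lit 11)]⟩,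
 ⟨⟨[(nat_lit 140), (nat_lit 180), (nat_lit 200)], [(nat_lit 0), (nat_lit 0), (nat_lit 2835)], [((nat_lit 0), (nat_lit 0), (nat_lit 0)), ((nat_lit 0), (nat_lit 0), (nat_lit 0)), ((nat_lit 363), (nat_lit 1000), (nat_lit 798))], ((nat_lit 0), (nat_lit 0), (nat_lit 0))⟩, (nat_lit 20360), (nat_lit 300), (nat_lit 820), (nat_lit 5779400), (nat_lit 903800), [(nat_lit 728308000), (nat_lit 1040292000), (nat_lit 1213600000)], [], [(nat_lit 4537544968), (nat_lit 4323488422), (nat_lit 4364070886), (nat_lit 4151051721), (nat_lit 4429495520), (nat_lit 4223772988), (nat_lit 4245059040), (nat_lit 4040884371)], (nat_lit 780000), (nat_lit 1271251), (nat_lit 490000), (nat_lit 780000), (nat_lit 1271251), (nat_lit 1271251), [(nat_lit 1977501), (nat_lit 1271251), (nat_lit 1271251)], [(nat_lit 32), (nat_lit 67), (nat_lit 401), (nat_lit 175), (nat_lit 9)]⟩⟩)))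
noncomputable def c17_100 : Tr Lf :=
 (.trZ (nat_lit 0) (nat_lit 2) (nat_lit 4) (nat_lit 100) (nat_lit 60) (nat_lit 74) (nat_lit 60) (.spl (nat_lit 6) (nat_lit 80) (.spl (nat_lit 1) (nat_lit 260) (.dle (nat_lit 0)) (.trZ (nat_lit 0) (nat_lit 1) (nat_lit 3) (nat_lit 100) (nat_lit 63) (nat_lit 99) (nat_lit 130) (.leaf ⟨(nat_lit 0), (nat_lit 710), (nat_lit 0), (nat_lit 290), (nat_lit 47567), (nat_lit 4213), (nat_lit 2995), (nat_lit 2422), (nat_lit 0), (nat_lit 0), (nat_lit 0), [], Pd.none, Pd.none, (nat_lit 0), (nat_lit 1), (nat_lit 0), (nat_lit 0), (nat_lit 4), (nat_lit 0), [⟨(nat_lit 0), (nat_lit 92), (nat_lit 44), (nat_lit 100), (nat_lit 287413161)⟩], [⟨(nat_lit 0), (nat_lit 100), (nat_lit 53), (nat_lit 85), (nat_lit 573842907)⟩], [], [],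
 ⟨⟨[(nat_lit 40), (nat_lit 80), (nat_lit 100)], [(nat_lit 0), (nat_lit 1598), (nat_lit 2533)], [((nat_lit 0), (nat_lit 0), (nat_lit 0)), ((nat_lit 1000), (nat_lit 625), (nat_lit 623)), ((nat_lit 1000), (nat_lit 604), (nat_lit 730))], ((nat_lit 60), (nat_lit 100), (nat_lit 80))⟩, (nat_lit 1817825), (nat_lit 124), (nat_lit 124), (nat_lit 0), (nat_lit 26297), [(nat_lit 2032000134), (nat_lit 4952303569), (nat_lit 6250000000)], [], [(nat_lit 20852250830), (nat_lit 22605915828), (nat_lit 23332608720), (nat_lit 25012407352), (nat_lit 20602022212), (nat_lit 22143575283), (nat_lit 22955860494), (nat_lit 24239189165)], (nat_lit 1271251), (nat_lit 1271251), (nat_lit 857188), (nat_lit 1768126), (nat_lit 356250), (nat_lit 780000), [(nat_lit 490000), (nat_lit 1100000), (nat_lit 1442501)], [(nat_lit 3), (nat_lit 50), (nat_lit 317), (nat_lit 100), (nat_lit 11)]⟩,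
 ⟨⟨[(nat_lit 80), (nat_lit 120), (nat_lit 160)], [(nat_lit 0), (nat_lit 528), (nat_lit 2577)], [((nat_lit 0), (nat_lit 0), (nat_lit 0)), ((nat_lit 1000), (nat_lit 959), (nat_lit 206)), ((nat_lit 929), (nat_lit 1000), (nat_lit 742))], ((nat_lit 100), (nat_lit 85), (nat_lit 84))⟩, (nat_lit 0), (nat_lit 246), (nat_lit 246), (nat_lit 0), (nat_lit 70829), [(nat_lit 4688000000), (nat_lit 7968000000), (nat_lit 11872000000)], [], [(nat_lit 36019417956), (nat_lit 36899420999), (nat_lit 38419156655), (nat_lit 39162782990), (nat_lit 43535847206), (nat_lit 43999129424), (nat_lit 50582441895), (nat_lit 49316458390)], (nat_lit 1271251), (nat_lit 1271251), (nat_lit 857188), (nat_lit 1768126), (nat_lit 0), (nat_lit 2825001), [(nat_lit 1100000), (nat_lit 1785001), (nat_lit 1271251)], [(nat_lit 18), (nat_lit 59), (nat_lit 483), (nat_lit 250), (nat_lit 12)]⟩,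
 ⟨⟨[(nat_lit 120), (nat_lit 160), (nat_lit 200)], [(nat_lit 0), (nat_lit 533), (nat_lit 3597)], [((nat_lit 0), (nat_lit 0), (nat_lit 0)), ((nat_lit 960), (nat_lit 1000), (nat_lit 200)), ((nat_lit 612), (nat_lit 1000), (nat_lit 732))], ((nat_lit 0), (nat_lit 0), (nat_lit 0))⟩, (nat_lit 154363), (nat_lit 300), (nat_lit 533), (nat_lit 21003782), (nat_lit 85556), [(nat_lit 2310720000), (nat_lit 3442880000), (nat_lit 4756000000)], [], [(nat_lit 19679840302), (nat_lit 19583024960), (nat_lit 18891552122), (nat_lit 18793438942), (nat_lit 17806163019), (nat_lit 17603878387), (nat_lit 17034728070), (nat_lit 16833631158)], (nat_lit 1271251), (nat_lit 1271251), (nat_lit 356250), (nat_lit 780000), (nat_lit 0), (nat_lit 2825001), [(nat_lit 1695001), (nat_lit 1271251), (nat_lit 1271251)], [(nat_lit 29), (nat_lit 66), (nat_lit 428), (nat_lit 200), (nat_lit 9)]⟩⟩))) (.dle (nat_lit 0))))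
noncomputable def c17_101 : Tr Lf :=
 (.spl (nat_lit 5) (nat_lit 120) (.spl (nat_lit 1) (nat_lit 300) (.spl (nat_lit 6) (nat_lit 128) (.leaf ⟨(nat_lit 0), (nat_lit 1000), (nat_lit 0), (nat_lit 0), (nat_lit 14457), (nat_lit 9661), (nat_lit 6351), (nat_lit 0), (nat_lit 0), (nat_lit 0), (nat_lit 0), [], Pd.none, Pd.none, (nat_lit 0), (nat_lit 1), (nat_lit 0), (nat_lit 0), (nat_lit 3), (nat_lit 0), [⟨(nat_lit 0), (nat_lit 90), (nat_lit 53), (nat_lit 100), (nat_lit 744122492)⟩], [⟨(nat_lit 0), (nat_lit 100), (nat_lit 53), (nat_lit 77), (nat_lit 279204384)⟩], [], [],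
 ⟨⟨[(nat_lit 40), (nat_lit 100), (nat_lit 140)], [(nat_lit 0), (nat_lit 2396), (nat_lit 4896)], [((nat_lit 0), (nat_lit 0), (nat_lit 0)), ((nat_lit 1000), (nat_lit 625), (nat_lit 623)), ((nat_lit 1000), (nat_lit 625), (nat_lit 975))], ((nat_lit 62), (nat_lit 100), (nat_lit 97))⟩, (nat_lit 557598), (nat_lit 300), (nat_lit 301), (nat_lit 50800002), (nat_lit 185908), [(nat_lit 2032000010), (nat_lit 6378966265), (nat_lit 9842000000)], [], [(nat_lit 34852701594), (nat_lit 36512890395), (nat_lit 35386779796), (nat_lit 37464706430), (nat_lit 29348373172), (nat_lit 30720233406), (nat_lit 29418230612), (nat_lit 30949566607)], (nat_lit 1271251), (nat_lit 1271251), (nat_lit 1017188), (nat_lit 1779376), (nat_lit 111251), (nat_lit 780000), [(nat_lit 490000), (nat_lit 1427501), (nat_lit 1271251)], [(nat_lit 5), (nat_lit 55), (nat_lit 317), (nat_lit 100), (nat_lit 9)]⟩,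
 ⟨⟨[(nat_lit 60), (nat_lit 120), (nat_lit 180)], [(nat_lit 0), (nat_lit 0), (nat_lit 4796)], [((nat_lit 0), (nat_lit 0), (nat_lit 0)), ((nat_lit 0), (nat_lit 0), (nat_lit 0)), ((nat_lit 802), (nat_lit 1000), (nat_lit 999))], ((nat_lit 98), (nat_lit 75), (nat_lit 100))⟩, (nat_lit 2435506), (nat_lit 455), (nat_lit 455), (nat_lit 0), (nat_lit 311577), [(nat_lit 3282000000), (nat_lit 7968000000), (nat_lit 14058000000)], [], [(nat_lit 33183632248), (nat_lit 34028307886), (nat_lit 34225454162), (nat_lit 34923544951), (nat_lit 29390709224), (nat_lit 30250803289), (nat_lit 30925272400), (nat_lit 31640316758)], (nat_lit 1271251), (nat_lit 1271251), (nat_lit 1017188), (nat_lit 1779376), (nat_lit 0), (nat_lit 780000), [(nat_lit 780000), (nat_lit 1762501), (nat_lit 1271251)], [(nat_lit 13), (nat_lit 60), (nat_lit 401), (nat_lit 175), (nat_lit 9)]⟩,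
 Rw.none⟩) (.dle (nat_lit 0))) (.trZ (nat_lit 0) (nat_lit 1) (nat_lit 3) (nat_lit 87) (nat_lit 60) (nat_lit 100) (nat_lit 170) (.leaf ⟨(nat_lit 0), (nat_lit 1000), (nat_lit 0), (nat_lit 0), (nat_lit 12721), (nat_lit 9661), (nat_lit 8416), (nat_lit 0), (nat_lit 0), (nat_lit 0), (nat_lit 0), [], Pd.none, Pd.none, (nat_lit 0), (nat_lit 1), (nat_lit 0), (nat_lit 0), (nat_lit 3), (nat_lit 0), [⟨(nat_lit 0), (nat_lit 84), (nat_lit 53), (nat_lit 100), (nat_lit 836951230)⟩], [⟨(nat_lit 0), (nat_lit 100), (nat_lit 53), (nat_lit 77), (nat_lit 347364338)⟩], [⟨(nat_lit 0), (nat_lit 100), (nat_lit 84), (nat_lit 42), (nat_lit 73119208)⟩], [],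
 ⟨⟨[(nat_lit 40), (nat_lit 100), (nat_lit 140)], [(nat_lit 0), (nat_lit 2396), (nat_lit 4896)], [((nat_lit 0), (nat_lit 0), (nat_lit 0)), ((nat_lit 1000), (nat_lit 625), (nat_lit 623)), ((nat_lit 1000), (nat_lit 625), (nat_lit 975))], ((nat_lit 62), (nat_lit 95), (nat_lit 100))⟩, (nat_lit 557598), (nat_lit 300), (nat_lit 319), (nat_lit 50800002), (nat_lit 257445), [(nat_lit 2032000002), (nat_lit 6377355424), (nat_lit 9842000000)], [], [(nat_lit 34640329692), (nat_lit 36381097154), (nat_lit 35386779796), (nat_lit 37464706430), (nat_lit 29142178163), (nat_lit 30467197158), (nat_lit 29418230612), (nat_lit 30949566607)], (nat_lit 1271251), (nat_lit 1271251), (nat_lit 1184688), (nat_lit 1790626), (nat_lit 111251), (nat_lit 780000), [(nat_lit 490000), (nat_lit 1427501), (nat_lit 1271251)], [(nat_lit 5), (nat_lit 55), (nat_lit 317), (nat_lit 100), (nat_lit 9)]⟩,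
 ⟨⟨[(nat_lit 60), (nat_lit 120), (nat_lit 180)], [(nat_lit 0), (nat_lit 913), (nat_lit 5370)], [((nat_lit 0), (nat_lit 0), (nat_lit 0)), ((nat_lit 1000), (nat_lit 905), (nat_lit 238)), ((nat_lit 862), (nat_lit 939), (nat_lit 1000))], ((nat_lit 89), (nat_lit 71), (nat_lit 100))⟩, (nat_lit 3218050), (nat_lit 470), (nat_lit 470), (nat_lit 0), (nat_lit 375635), [(nat_lit 3282000000), (nat_lit 7968000000), (nat_lit 14058000000)], [], [(nat_lit 26463507586), (nat_lit 27412285506), (nat_lit 27448375946), (nat_lit 28248159852), (nat_lit 21707147956), (nat_lit 22534996900), (nat_lit 22518963926), (nat_lit 23214698090)], (nat_lit 1271251), (nat_lit 1271251), (nat_lit 1184688), (nat_lit 1790626), (nat_lit 0), (nat_lit 780000), [(nat_lit 780000), (nat_lit 1762501), (nat_lit 1271251)], [(nat_lit 13), (nat_lit 60), (nat_lit 401), (nat_lit 175), (nat_lit 9)]⟩,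
 Rw.none⟩))) (.stt (nat_lit 1) (.leaf ⟨(nat_lit 0), (nat_lit 923), (nat_lit 0), (nat_lit 77), (nat_lit 15992), (nat_lit 3850), (nat_lit 9447), (nat_lit 1223), (nat_lit 0), (nat_lit 0), (nat_lit 0), [], Pd.none, Pd.none, (nat_lit 0), (nat_lit 1), (nat_lit 0), (nat_lit 0), (nat_lit 3), (nat_lit 0), [⟨(nat_lit 0), (nat_lit 87), (nat_lit 53), (nat_lit 100), (nat_lit 813734597)⟩], [⟨(nat_lit 0), (nat_lit 100), (nat_lit 53), (nat_lit 77), (nat_lit 51586930)⟩], [], [],
 ⟨⟨[(nat_lit 40), (nat_lit 100), (nat_lit 140)], [(nat_lit 0), (nat_lit 2396), (nat_lit 4896)], [((nat_lit 0), (nat_lit 0), (nat_lit 0)), ((nat_lit 1000), (nat_lit 625), (nat_lit 623)), ((nat_lit 1000), (nat_lit 625), (nat_lit 975))], ((nat_lit 62), (nat_lit 95), (nat_lit 100))⟩, (nat_lit 2162024), (nat_lit 199), (nat_lit 199), (nat_lit 0), (nat_lit 0), [(nat_lit 2032000153), (nat_lit 6250000770), (nat_lit 9842000000)], [], [(nat_lit 22844315884), (nat_lit 24259232306), (nat_lit 24710888471),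 (nat_lit 25927694459), (nat_lit 21663783174), (nat_lit 22884326481), (nat_lit 23427481972), (nat_lit 24581496422)], (nat_lit 0), (nat_lit 0), (nat_lit 0), (nat_lit 0), (nat_lit 0), (nat_lit 0), [], [(nat_lit 5), (nat_lit 55), (nat_lit 317), (nat_lit 100), (nat_lit 9)]⟩,
 ⟨⟨[(nat_lit 60), (nat_lit 120), (nat_lit 180)], [(nat_lit 0), (nat_lit 0), (nat_lit 4796)], [((nat_lit 0), (nat_lit 0), (nat_lit 0)), ((nat_lit 0), (nat_lit 0), (nat_lit 0)), ((nat_lit 802), (nat_lit 1000), (nat_lit 999))], ((nat_lit 94), (nat_lit 63), (nat_lit 100))⟩, (nat_lit 2222117), (nat_lit 427), (nat_lit 427), (nat_lit 0), (nat_lit 462321), [(nat_lit 3282000000), (nat_lit 7968000000), (nat_lit 14058000000)], [], [(nat_lit 26577073345), (nat_lit 27738808541), (nat_lit 26461089742), (nat_lit 27866672454), (nat_lit 25421656147), (nat_lit 26909442188), (nat_lit 25607600022), (nat_lit 26751420866)], (nat_lit 1271251), (nat_lit 1271251), (nat_lit 1017188), (nat_lit 1779376), (nat_lit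 780000), (nat_lit 1435001), [(nat_lit 780000), (nat_lit 1762501), (nat_lit 1271251)], [(nat_lit 13), (nat_lit 60), (nat_lit 428), (nat_lit 200), (nat_lit 9)]⟩,
 ⟨⟨[(nat_lit 140), (nat_lit 180), (nat_lit 200)], [(nat_lit 0), (nat_lit 0), (nat_lit 2835)], [((nat_lit 0), (nat_lit 0), (nat_lit 0)), ((nat_lit 0), (nat_lit 0), (nat_lit 0)), ((nat_lit 363), (nat_lit 1000), (nat_lit 798))], ((nat_lit 0), (nat_lit 0), (nat_lit 0))⟩, (nat_lit 21185), (nat_lit 300), (nat_lit 1354), (nat_lit 6013703), (nat_lit 1896402), [(nat_lit 757834000), (nat_lit 1082466000), (nat_lit 1262800000)], [], [(nat_lit 5542686085), (nat_lit 4888174810), (nat_lit 4391263215), (nat_lit 4187130054), (nat_lit 4877076807), (nat_lit 4700082802), (nat_lit 4033976985), (nat_lit 5286674356)], (nat_lit 780000), (nat_lit 1598751), (nat_lit 111251), (nat_lit 780000), (nat_lit 780000), (nat_lit 1435001), [(nat_lit 1977501), (nat_lit 1271251), (nat_lit 1271251)], [(nat_lit 32), (nat_lit 67),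 (nat_lit 406), (nat_lit 150), (nat_lit 9)]⟩⟩) (.leaf ⟨(nat_lit 0), (nat_lit 946), (nat_lit 0), (nat_lit 54), (nat_lit 15154), (nat_lit 9661), (nat_lit 11399), (nat_lit 858), (nat_lit 0), (nat_lit 0), (nat_lit 0), [], Pd.none, Pd.none, (nat_lit 0), (nat_lit 1), (nat_lit 0), (nat_lit 0), (nat_lit 3), (nat_lit 0), [⟨(nat_lit 0), (nat_lit 87), (nat_lit 53), (nat_lit 100), (nat_lit 859573249)⟩], [⟨(nat_lit 0), (nat_lit 100), (nat_lit 53), (nat_lit 77), (nat_lit 422219349)⟩], [], [],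
 ⟨⟨[(nat_lit 40), (nat_lit 100), (nat_lit 140)], [(nat_lit 0), (nat_lit 2396), (nat_lit 4896)], [((nat_lit 0), (nat_lit 0), (nat_lit 0)), ((nat_lit 1000), (nat_lit 625), (nat_lit 623)), ((nat_lit 1000), (nat_lit 625), (nat_lit 975))], ((nat_lit 62), (nat_lit 95), (nat_lit 100))⟩, (nat_lit 557598), (nat_lit 300), (nat_lit 324), (nat_lit 50800005), (nat_lit 257221), [(nat_lit 2032000197), (nat_lit 6378930505), (nat_lit 9842000000)], [], [(nat_lit 34852702494), (nat_lit 36512890395), (nat_lit 35386779796), (nat_lit 37464706430), (nat_lit 29348374072), (nat_lit 30720234306), (nat_lit 29418231512), (nat_lit 30949566607)], (nat_lit 1271251), (nat_lit 1271251), (nat_lit 1017188), (nat_lit 1779376), (nat_lit 111251), (nat_lit 780000), [(nat_lit 490000), (nat_lit 1427501), (nat_lit 1271251)], [(nat_lit 5), (nat_lit 55), (nat_lit 317), (nat_lit 100), (nat_lit 9)]⟩,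
 ⟨⟨[(nat_lit 60), (nat_lit 120), (nat_lit 180)], [(nat_lit 0), (nat_lit 0), (nat_lit 4796)], [((nat_lit 0), (nat_lit 0), (nat_lit 0)), ((nat_lit 0), (nat_lit 0), (nat_lit 0)), ((nat_lit 802), (nat_lit 1000), (nat_lit 999))], ((nat_lit 94), (nat_lit 63), (nat_lit 100))⟩, (nat_lit 2546909), (nat_lit 275), (nat_lit 275), (nat_lit 0), (nat_lit 261941), [(nat_lit 3282000000), (nat_lit 7968000000), (nat_lit 14058000000)], [], [(nat_lit 23176371190), (nat_lit 25086954056), (nat_lit 23305454048), (nat_lit 25621066696), (nat_lit 21684664239), (nat_lit 24139147464), (nat_lit 23162185174), (nat_lit 24253701602)], (nat_lit 1271251), (nat_lit 1271251), (nat_lit 1017188), (nat_lit 1779376), (nat_lit 780000), (nat_lit 1435001), [(nat_lit 780000), (nat_lit 1762501), (nat_lit 1271251)], [(nat_lit 13), (nat_lit 60), (nat_lit 428), (nat_lit 200), (nat_lit 9)]⟩,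
 ⟨⟨[(nat_lit 140), (nat_lit 180), (nat_lit 200)], [(nat_lit 0), (nat_lit 0), (nat_lit 2835)], [((nat_lit 0), (nat_lit 0), (nat_lit 0)), ((nat_lit 0), (nat_lit 0), (nat_lit 0)), ((nat_lit 363), (nat_lit 1000), (nat_lit 798))], ((nat_lit 0), (nat_lit 0), (nat_lit 0))⟩, (nat_lit 14857), (nat_lit 300), (nat_lit 1354), (nat_lit 4217403), (nat_lit 1896402), [(nat_lit 531468000), (nat_lit 759132000), (nat_lit 885600000)], [], [(nat_lit 3887570022), (nat_lit 3428125510), (nat_lit 3079076442), (nat_lit 2936588985), (nat_lit 3420348195), (nat_lit 3296453889), (nat_lit 2828396958), (nat_lit 3707926787)], (nat_lit 780000), (nat_lit 1598751), (nat_lit 111251), (nat_lit 780000), (nat_lit 780000), (nat_lit 1435001), [(nat_lit 1977501), (nat_lit 1271251), (nat_lit 1271251)], [(nat_lit 32), (nat_lit 67), (nat_lit 406), (nat_lit 150), (nat_lit 9)]⟩⟩)))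
noncomputable def c17_102 : Tr Lf :=
 (.stt (nat_lit 2) (.spl (nat_lit 0) (nat_lit 370) (.spl (nat_lit 6) (nat_lit 132) (.leaf ⟨(nat_lit 0), (nat_lit 884), (nat_lit 0), (nat_lit 116), (nat_lit 12965), (nat_lit 10113), (nat_lit 8438), (nat_lit 1428), (nat_lit 0), (nat_lit 0), (nat_lit 0), [], Pd.none, Pd.none, (nat_lit 0), (nat_lit 1), (nat_lit 0), (nat_lit 0), (nat_lit 5), (nat_lit 0), [⟨(nat_lit 0), (nat_lit 87), (nat_lit 57), (nat_lit 100), (nat_lit 755368749)⟩], [⟨(nat_lit 0), (nat_lit 100), (nat_lit 57), (nat_lit 74), (nat_lit 494812995)⟩], [⟨(nat_lit 1), (nat_lit 63), (nat_lit 88), (nat_lit 100), (nat_lit 447633399)⟩], [],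
 ⟨⟨[(nat_lit 40), (nat_lit 100), (nat_lit 140)], [(nat_lit 0), (nat_lit 2396), (nat_lit 4896)], [((nat_lit 0), (nat_lit 0), (nat_lit 0)), ((nat_lit 1000), (nat_lit 625), (nat_lit 623)), ((nat_lit 1000), (nat_lit 625), (nat_lit 975))], ((nat_lit 63), (nat_lit 100), (nat_lit 98))⟩, (nat_lit 557598), (nat_lit 300), (nat_lit 304), (nat_lit 50800002), (nat_lit 207430), [(nat_lit 2032000022), (nat_lit 6377561848), (nat_lit 9842000000)], [], [(nat_lit 34472459136), (nat_lit 35566589602), (nat_lit 35606177658), (nat_lit 36678501962), (nat_lit 28638724143), (nat_lit 29344281488), (nat_lit 28920384879), (nat_lit 29888542800)], (nat_lit 1271251), (nat_lit 1271251), (nat_lit 1017188), (nat_lit 1779376), (nat_lit 111251), (nat_lit 780000), [(nat_lit 490000), (nat_lit 1427501), (nat_lit 1271251)], [(nat_lit 5), (nat_lit 55), (nat_lit 317), (nat_lit 100), (nat_lit 9)]⟩,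
 ⟨⟨[(nat_lit 60), (nat_lit 120), (nat_lit 180)], [(nat_lit 0), (nat_lit 0), (nat_lit 4796)], [((nat_lit 0), (nat_lit 0), (nat_lit 0)), ((nat_lit 0), (nat_lit 0), (nat_lit 0)), ((nat_lit 802), (nat_lit 1000), (nat_lit 999))], ((nat_lit 97), (nat_lit 73), (nat_lit 100))⟩, (nat_lit 0), (nat_lit 109), (nat_lit 109), (nat_lit 0), (nat_lit 0), [(nat_lit 3282000000), (nat_lit 7968000000), (nat_lit 14058000000)], [], [(nat_lit 20012900414), (nat_lit 23218014446), (nat_lit 22632530014), (nat_lit 25242015376), (nat_lit 33259006168), (nat_lit 34816696426), (nat_lit 33465961864), (nat_lit 35078148808)], (nat_lit 0), (nat_lit 0), (nat_lit 0), (nat_lit 0), (nat_lit 0), (nat_lit 0), [], [(nat_lit 13), (nat_lit 60), (nat_lit 483), (nat_lit 250), (nat_lit 10)]⟩,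
 ⟨⟨[(nat_lit 140), (nat_lit 180), (nat_lit 200)], [(nat_lit 0), (nat_lit 0), (nat_lit 2835)], [((nat_lit 0), (nat_lit 0), (nat_lit 0)), ((nat_lit 0), (nat_lit 0), (nat_lit 0)), ((nat_lit 363), (nat_lit 1000), (nat_lit 798))], ((nat_lit 0), (nat_lit 0), (nat_lit 0))⟩, (nat_lit 31915), (nat_lit 300), (nat_lit 1122), (nat_lit 9059605), (nat_lit 1471619), [(nat_lit 1141672000), (nat_lit 1630728000), (nat_lit 1902400000)], [], [(nat_lit 7944554444), (nat_lit 7443333034), (nat_lit 7053018236), (nat_lit 6566894150), (nat_lit 7764589688), (nat_lit 7292290501), (nat_lit 6791104088), (nat_lit 6286731526)], (nat_lit 780000), (nat_lit 1598751), (nat_lit 111251), (nat_lit 780000), (nat_lit 1271251), (nat_lit 1271251), [(nat_lit 1977501), (nat_lit 1271251), (nat_lit 1271251)], [(nat_lit 32), (nat_lit 67), (nat_lit 428), (nat_lit 200), (nat_lit 9)]⟩⟩) (.dle (nat_lit 0))) (.trZ (nat_lit 0) (nat_lit 1) (nat_lit 3) (nat_lit 93) (nat_lit 53) (nat_lit 100) (nat_lit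 170) (.trZ (nat_lit 0) (nat_lit 2) (nat_lit 4) (nat_lit 100) (nat_lit 57) (nat_lit 62) (nat_lit 30) (.leaf ⟨(nat_lit 0), (nat_lit 886), (nat_lit 0), (nat_lit 114), (nat_lit 11729), (nat_lit 9825), (nat_lit 8430), (nat_lit 1325), (nat_lit 0), (nat_lit 0), (nat_lit 0), [], Pd.none, Pd.none, (nat_lit 0), (nat_lit 1), (nat_lit 0), (nat_lit 0), (nat_lit 5), (nat_lit 0), [⟨(nat_lit 0), (nat_lit 87), (nat_lit 48), (nat_lit 100), (nat_lit 1393439998)⟩], [], [⟨(nat_lit 1), (nat_lit 63), (nat_lit 88), (nat_lit 100), (nat_lit 34594822)⟩], [⟨(nat_lit 1), (nat_lit 64), (nat_lit 100), (nat_lit 78), (nat_lit 465840132)⟩],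
 ⟨⟨[(nat_lit 40), (nat_lit 100), (nat_lit 140)], [(nat_lit 0), (nat_lit 2998), (nat_lit 5352)], [((nat_lit 0), (nat_lit 0), (nat_lit 0)), ((nat_lit 1000), (nat_lit 532), (nat_lit 779)), ((nat_lit 1000), (nat_lit 531), (nat_lit 919))], ((nat_lit 54), (nat_lit 98), (nat_lit 100))⟩, (nat_lit 510090), (nat_lit 300), (nat_lit 310), (nat_lit 50800001), (nat_lit 254770), [(nat_lit 2032000001), (nat_lit 6540691728), (nat_lit 9842000000)], [], [(nat_lit 34466725023), (nat_lit 35565740612), (nat_lit 35603589247), (nat_lit 36647436854), (nat_lit 29543974342), (nat_lit 30213266753), (nat_lit 29966568264), (nat_lit 30915870033)], (nat_lit 1271251), (nat_lit 1271251), (nat_lit 1184688), (nat_lit 1790626), (nat_lit 169688), (nat_lit 780000), [(nat_lit 490000), (nat_lit 1427501), (nat_lit 1271251)], [(nat_lit 5), (nat_lit 55), (nat_lit 317), (nat_lit 100), (nat_lit 9)]⟩,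
 ⟨⟨[(nat_lit 60), (nat_lit 120), (nat_lit 180)], [(nat_lit 0), (nat_lit 0), (nat_lit 4796)], [((nat_lit 0), (nat_lit 0), (nat_lit 0)), ((nat_lit 0), (nat_lit 0), (nat_lit 0)), ((nat_lit 802), (nat_lit 1000), (nat_lit 999))], ((nat_lit 94), (nat_lit 63), (nat_lit 100))⟩, (nat_lit 0), (nat_lit 103), (nat_lit 103), (nat_lit 0), (nat_lit 0), [(nat_lit 3282000000), (nat_lit 7968000000), (nat_lit 14058000000)], [], [(nat_lit 20325909022), (nat_lit 23407670848), (nat_lit 22640932790), (nat_lit 25249033360), (nat_lit 33075919385), (nat_lit 34572073890), (nat_lit 33469184040), (nat_lit 35069259880)], (nat_lit 0), (nat_lit 0), (nat_lit 0), (nat_lit 0), (nat_lit 0), (nat_lit 0), [], [(nat_lit 13), (nat_lit 60), (nat_lit 483), (nat_lit 250), (nat_lit 10)]⟩,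
 ⟨⟨[(nat_lit 140), (nat_lit 180), (nat_lit 200)], [(nat_lit 0), (nat_lit 0), (nat_lit 2835)], [((nat_lit 0), (nat_lit 0), (nat_lit 0)), ((nat_lit 0), (nat_lit 0), (nat_lit 0)), ((nat_lit 363), (nat_lit 1000), (nat_lit 798))], ((nat_lit 0), (nat_lit 0), (nat_lit 0))⟩, (nat_lit 31365), (nat_lit 300), (nat_lit 1306), (nat_lit 8903402), (nat_lit 1896402), [(nat_lit 1121988000), (nat_lit 1602612000), (nat_lit 1869600000)], [], [(nat_lit 7945355977), (nat_lit 7486372521), (nat_lit 7266114881), (nat_lit 6798644259), (nat_lit 7649139242), (nat_lit 7173878754), (nat_lit 6860192006), (nat_lit 6400956847)], (nat_lit 780000), (nat_lit 1598751), (nat_lit 169688), (nat_lit 780000), (nat_lit 1271251), (nat_lit 1271251), [(nat_lit 1977501), (nat_lit 1271251), (nat_lit 1271251)], [(nat_lit 32), (nat_lit 67), (nat_lit 428), (nat_lit 200), (nat_lit 9)]⟩⟩)))) (.spl (nat_lit 6) (nat_lit 116) (.spl (nat_lit 0) (nat_lit 370) (.leaf ⟨(nat_lit 8), (nat_lit 586), (nat_lit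 0), (nat_lit 406), (nat_lit 9561), (nat_lit 3977), (nat_lit 8349), (nat_lit 5166), (nat_lit 0), (nat_lit 0), (nat_lit 2000), [((nat_lit 370), [((nat_lit 26), (nat_lit 0), (nat_lit 8))])], ⟨(nat_lit 7), false, false, false, (nat_lit 242), (nat_lit 2738), (nat_lit 3163), [(nat_lit 1512356), (nat_lit 1515771), (nat_lit 1556642), (nat_lit 1560582), (nat_lit 1649542), (nat_lit 1648700), (nat_lit 1693828), (nat_lit 1693511)]⟩, ⟨(nat_lit 3), false, false, false, (nat_lit 109), (nat_lit 2738), (nat_lit 3163), [(nat_lit 1137055), (nat_lit 1144520), (nat_lit 1247770), (nat_lit 1256546), (nat_lit 1289472), (nat_lit 1292206), (nat_lit 1400199), (nat_lit 1404246)]⟩, (nat_lit 4296885), (nat_lit 44897868), (nat_lit 17196094), (nat_lit 4906038), (nat_lit 5), (nat_lit 0), [⟨(nat_lit 0), (nat_lit 87), (nat_lit 57), (nat_lit 100), (nat_lit 666843712)⟩], [⟨(nat_lit 0), (nat_lit 100), (nat_lit 65), (nat_lit 54), (nat_lit 587318839)⟩], [], [],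
 ⟨⟨[(nat_lit 40), (nat_lit 100), (nat_lit 140)], [(nat_lit 0), (nat_lit 2396), (nat_lit 4896)], [((nat_lit 0), (nat_lit 0), (nat_lit 0)), ((nat_lit 1000), (nat_lit 625), (nat_lit 623)), ((nat_lit 1000), (nat_lit 625), (nat_lit 975))], ((nat_lit 61), (nat_lit 100), (nat_lit 93))⟩, (nat_lit 2304687), (nat_lit 228), (nat_lit 228), (nat_lit 0), (nat_lit 110318), [(nat_lit 2023990444), (nat_lit 6353408659), (nat_lit 9667264000)], [(nat_lit 0), (nat_lit 0), (nat_lit 0)], [(nat_lit 22090851913), (nat_lit 22763065972), (nat_lit 24365687279), (nat_lit 25272704975), (nat_lit 21106277738), (nat_lit 21689567811), (nat_lit 22933409023), (nat_lit 23519396228)], (nat_lit 1271251), (nat_lit 1271251), (nat_lit 1017188), (nat_lit 1779376), (nat_lit 111251), (nat_lit 780000), [(nat_lit 490000), (nat_lit 1427501), (nat_lit 1271251)], [(nat_lit 5), (nat_lit 55), (nat_lit 317), (nat_lit 100), (nat_lit 9)]⟩,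
 ⟨⟨[(nat_lit 60), (nat_lit 120), (nat_lit 180)], [(nat_lit 0), (nat_lit 0), (nat_lit 4796)], [((nat_lit 0), (nat_lit 0), (nat_lit 0)), ((nat_lit 0), (nat_lit 0), (nat_lit 0)), ((nat_lit 802), (nat_lit 1000), (nat_lit 999))], ((nat_lit 100), (nat_lit 82), (nat_lit 99))⟩, (nat_lit 1939371), (nat_lit 301), (nat_lit 301), (nat_lit 0), (nat_lit 358932), [(nat_lit 3255744000), (nat_lit 7904256000), (nat_lit 13945536000)], [], [(nat_lit 28134782258), (nat_lit 29552299402), (nat_lit 28468069395), (nat_lit 29596586524), (nat_lit 34303507007), (nat_lit 35240678406), (nat_lit 33968063892), (nat_lit 34773639068)], (nat_lit 1271251), (nat_lit 1271251), (nat_lit 1017188), (nat_lit 1779376), (nat_lit 1271251), (nat_lit 1271251), [(nat_lit 780000), (nat_lit 1762501), (nat_lit 1271251)], [(nat_lit 13), (nat_lit 60), (nat_lit 483), (nat_lit 250), (nat_lit 10)]⟩,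
 ⟨⟨[(nat_lit 140), (nat_lit 180), (nat_lit 200)], [(nat_lit 0), (nat_lit 0), (nat_lit 2835)], [((nat_lit 0), (nat_lit 0), (nat_lit 0)), ((nat_lit 0), (nat_lit 0), (nat_lit 0)), ((nat_lit 363), (nat_lit 1000), (nat_lit 798))], ((nat_lit 0), (nat_lit 0), (nat_lit 0))⟩, (nat_lit 111704), (nat_lit 300), (nat_lit 705), (nat_lit 31708600), (nat_lit 552678), [(nat_lit 3995852000), (nat_lit 5707548000), (nat_lit 6658400000)], [], [(nat_lit 27308375983), (nat_lit 25690513664), (nat_lit 23847583858), (nat_lit 22625163824), (nat_lit 27182174152), (nat_lit 25475311950), (nat_lit 23369796352), (nat_lit 21700877366)], (nat_lit 780000), (nat_lit 1598751), (nat_lit 111251), (nat_lit 780000), (nat_lit 1271251), (nat_lit 1271251), [(nat_lit 1977501), (nat_lit 1271251), (nat_lit 1271251)], [(nat_lit 32), (nat_lit 67), (nat_lit 428), (nat_lit 200), (nat_lit 9)]⟩⟩) (.trZ (nat_lit 0) (nat_lit 1) (nat_lit 3) (nat_lit 93) (nat_lit 53) (nat_lit 100) (nat_lit 170) (.trZ (nat_lit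 0) (nat_lit 2) (nat_lit 4) (nat_lit 100) (nat_lit 57) (nat_lit 62) (nat_lit 30) (.leaf ⟨(nat_lit 0), (nat_lit 571), (nat_lit 0), (nat_lit 429), (nat_lit 0), (nat_lit 4120), (nat_lit 8449), (nat_lit 5722), (nat_lit 0), (nat_lit 0), (nat_lit 0), [], Pd.none, Pd.none, (nat_lit 0), (nat_lit 1), (nat_lit 0), (nat_lit 0), (nat_lit 5), (nat_lit 0), [⟨(nat_lit 0), (nat_lit 87), (nat_lit 48), (nat_lit 100), (nat_lit 784762618)⟩], [⟨(nat_lit 0), (nat_lit 100), (nat_lit 57), (nat_lit 62), (nat_lit 698366288)⟩], [], [],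
 ⟨⟨[(nat_lit 40), (nat_lit 80), (nat_lit 120)], [(nat_lit 0), (nat_lit 2008), (nat_lit 3930)], [((nat_lit 0), (nat_lit 0), (nat_lit 0)), ((nat_lit 1000), (nat_lit 540), (nat_lit 733)), ((nat_lit 1000), (nat_lit 536), (nat_lit 751))], ((nat_lit 53), (nat_lit 100), (nat_lit 91))⟩, (nat_lit 1790263), (nat_lit 190), (nat_lit 190), (nat_lit 0), (nat_lit 134790), [(nat_lit 2032000003), (nat_lit 4956536692), (nat_lit 7968000000)], [], [(nat_lit 23661626281), (nat_lit 24432894434), (nat_lit 25387022583), (nat_lit 26067030565), (nat_lit 22843979340), (nat_lit 23469077659), (nat_lit 24394622936), (nat_lit 24949935936)], (nat_lit 1271251), (nat_lit 1271251), (nat_lit 1184688), (nat_lit 1790626), (nat_lit 169688), (nat_lit 780000), [(nat_lit 490000), (nat_lit 1100000), (nat_lit 1785001)], [(nat_lit 4), (nat_lit 51), (nat_lit 317), (nat_lit 100), (nat_lit 10)]⟩,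
 ⟨⟨[(nat_lit 60), (nat_lit 120), (nat_lit 180)], [(nat_lit 0), (nat_lit 0), (nat_lit 4796)], [((nat_lit 0), (nat_lit 0), (nat_lit 0)), ((nat_lit 0), (nat_lit 0), (nat_lit 0)), ((nat_lit 802), (nat_lit 1000), (nat_lit 999))], ((nat_lit 100), (nat_lit 82), (nat_lit 99))⟩, (nat_lit 1930849), (nat_lit 389), (nat_lit 389), (nat_lit 0), (nat_lit 455659), [(nat_lit 3282000000), (nat_lit 7968000000), (nat_lit 14058000000)], [], [(nat_lit 28303527207), (nat_lit 29675477701), (nat_lit 28755243151), (nat_lit 29893802004), (nat_lit 34333986267), (nat_lit 35235882609), (nat_lit 34185588148), (nat_lit 35090371084)], (nat_lit 1271251), (nat_lit 1271251), (nat_lit 1184688), (nat_lit 1790626), (nat_lit 1271251), (nat_lit 1271251), [(nat_lit 780000), (nat_lit 1762501), (nat_lit 1271251)], [(nat_lit 13), (nat_lit 60), (nat_lit 483), (nat_lit 250), (nat_lit 10)]⟩,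
 ⟨⟨[(nat_lit 140), (nat_lit 180), (nat_lit 200)], [(nat_lit 0), (nat_lit 0), (nat_lit 2835)], [((nat_lit 0), (nat_lit 0), (nat_lit 0)), ((nat_lit 0), (nat_lit 0), (nat_lit 0)), ((nat_lit 363), (nat_lit 1000), (nat_lit 798))], ((nat_lit 0), (nat_lit 0), (nat_lit 0))⟩, (nat_lit 118032), (nat_lit 300), (nat_lit 759), (nat_lit 33504900), (nat_lit 699777), [(nat_lit 4222218000), (nat_lit 6030882000), (nat_lit 7035600000)], [], [(nat_lit 28057916973), (nat_lit 26245039514), (nat_lit 24669310994), (nat_lit 24062997387), (nat_lit 28237407394), (nat_lit 26328837001), (nat_lit 24457896016), (nat_lit 22637610617)], (nat_lit 780000), (nat_lit 1598751), (nat_lit 169688), (nat_lit 780000), (nat_lit 1271251), (nat_lit 1271251), [(nat_lit 1977501), (nat_lit 1271251), (nat_lit 1271251)], [(nat_lit 32), (nat_lit 67), (nat_lit 428), (nat_lit 200), (nat_lit 9)]⟩⟩)))) (.leaf ⟨(nat_lit 0), (nat_lit 518), (nat_lit 0), (nat_lit 482), (nat_lit 27695), (nat_lit 3923), (nat_lit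 8189), (nat_lit 5586), (nat_lit 0), (nat_lit 0), (nat_lit 0), [], Pd.none, Pd.none, (nat_lit 0), (nat_lit 1), (nat_lit 0), (nat_lit 0), (nat_lit 5), (nat_lit 0), [⟨(nat_lit 0), (nat_lit 87), (nat_lit 53), (nat_lit 100), (nat_lit 855108964)⟩], [⟨(nat_lit 0), (nat_lit 100), (nat_lit 53), (nat_lit 77), (nat_lit 642795594)⟩, ⟨(nat_lit 0), (nat_lit 100), (nat_lit 65), (nat_lit 54), (nat_lit 130437864)⟩], [], [],
 ⟨⟨[(nat_lit 40), (nat_lit 100), (nat_lit 140)], [(nat_lit 0), (nat_lit 2396), (nat_lit 4896)], [((nat_lit 0), (nat_lit 0), (nat_lit 0)), ((nat_lit 1000), (nat_lit 625), (nat_lit 623)), ((nat_lit 1000), (nat_lit 625), (nat_lit 975))], ((nat_lit 62), (nat_lit 95), (nat_lit 100))⟩, (nat_lit 2141933), (nat_lit 216), (nat_lit 216), (nat_lit 0), (nat_lit 54884), [(nat_lit 2032000002), (nat_lit 6250000006), (nat_lit 9842000000)], [], [(nat_lit 23311931284), (nat_lit 24412852076), (nat_lit 24971524492), (nat_lit 26072511355), (nat_lit 22322180512), (nat_lit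 23345481014), (nat_lit 23900034886), (nat_lit 24904696811)], (nat_lit 1271251), (nat_lit 1271251), (nat_lit 1017188), (nat_lit 1779376), (nat_lit 111251), (nat_lit 780000), [(nat_lit 490000), (nat_lit 1427501), (nat_lit 1271251)], [(nat_lit 5), (nat_lit 55), (nat_lit 317), (nat_lit 100), (nat_lit 9)]⟩,
 ⟨⟨[(nat_lit 60), (nat_lit 120), (nat_lit 180)], [(nat_lit 0), (nat_lit 0), (nat_lit 4796)], [((nat_lit 0), (nat_lit 0), (nat_lit 0)), ((nat_lit 0), (nat_lit 0), (nat_lit 0)), ((nat_lit 802), (nat_lit 1000), (nat_lit 999))], ((nat_lit 94), (nat_lit 63), (nat_lit 100))⟩, (nat_lit 1932939), (nat_lit 239), (nat_lit 239), (nat_lit 0), (nat_lit 175740), [(nat_lit 3282000000), (nat_lit 7968000000), (nat_lit 14058000000)], [], [(nat_lit 26043118088), (nat_lit 28112160162), (nat_lit 27065400949), (nat_lit 28744128582), (nat_lit 34687907835), (nat_lit 35631624594), (nat_lit 34077008752), (nat_lit 34802203792)], (nat_lit 1271251), (nat_lit 1271251), (nat_lit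 1017188), (nat_lit 1779376), (nat_lit 1271251), (nat_lit 1271251), [(nat_lit 780000), (nat_lit 1762501), (nat_lit 1271251)], [(nat_lit 13), (nat_lit 60), (nat_lit 483), (nat_lit 250), (nat_lit 10)]⟩,
 ⟨⟨[(nat_lit 140), (nat_lit 180), (nat_lit 200)], [(nat_lit 0), (nat_lit 0), (nat_lit 2835)], [((nat_lit 0), (nat_lit 0), (nat_lit 0)), ((nat_lit 0), (nat_lit 0), (nat_lit 0)), ((nat_lit 363), (nat_lit 1000), (nat_lit 798))], ((nat_lit 0), (nat_lit 0), (nat_lit 0))⟩, (nat_lit 132614), (nat_lit 300), (nat_lit 573), (nat_lit 37644200), (nat_lit 306028), [(nat_lit 4743844000), (nat_lit 6775956000), (nat_lit 7904800000)], [], [(nat_lit 31631641679), (nat_lit 30099379615), (nat_lit 28002245506), (nat_lit 26536130705), (nat_lit 32173842944), (nat_lit 30399401125), (nat_lit 28046484967), (nat_lit 26370971182)], (nat_lit 780000), (nat_lit 1598751), (nat_lit 111251), (nat_lit 780000), (nat_lit 1271251), (nat_lit 1271251), [(nat_lit 1977501), (nat_lit 1271251),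 (nat_lit 1271251)], [(nat_lit 32), (nat_lit 67), (nat_lit 428), (nat_lit 200), (nat_lit 9)]⟩⟩)))
noncomputable def c17_103 : Tr Lf :=
 (.trX (nat_lit 5) (nat_lit 3) (nat_lit 4) (nat_lit 100) (nat_lit 59) (nat_lit 94) (nat_lit 370) (.spl (nat_lit 1) (nat_lit 280) (.trX (nat_lit 3) (nat_lit 0) (nat_lit 1) (nat_lit 65) (nat_lit 54) (nat_lit 100) (nat_lit 380) (.spl (nat_lit 6) (nat_lit 112) (.spl (nat_lit 5) (nat_lit 200) (.leaf ⟨(nat_lit 0), (nat_lit 1000), (nat_lit 0), (nat_lit 0), (nat_lit 12620), (nat_lit 4776), (nat_lit 8170), (nat_lit 0), (nat_lit 0), (nat_lit 0), (nat_lit 0), [], Pd.none, Pd.none, (nat_lit 0), (nat_lit 1), (nat_lit 0), (nat_lit 0), (nat_lit 3), (nat_lit 0), [], [], [], [],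
 ⟨⟨[(nat_lit 40), (nat_lit 80), (nat_lit 120)], [(nat_lit 0), (nat_lit 1598), (nat_lit 3468)], [((nat_lit 0), (nat_lit 0), (nat_lit 0)), ((nat_lit 1000), (nat_lit 625), (nat_lit 623)), ((nat_lit 1000), (nat_lit 604), (nat_lit 730))], ((nat_lit 61), (nat_lit 100), (nat_lit 91))⟩, (nat_lit 1362639), (nat_lit 244), (nat_lit 244), (nat_lit 0), (nat_lit 126780), [(nat_lit 2032000078), (nat_lit 4688000183), (nat_lit 7968000000)], [], [(nat_lit 27561022736), (nat_lit 29040915078), (nat_lit 34699394184), (nat_lit 36054475149), (nat_lit 25718567917), (nat_lit 26729312061), (nat_lit 31598838878), (nat_lit 32552875785)], (nat_lit 1271251), (nat_lit 1271251), (nat_lit 1271251), (nat_lit 1271251), (nat_lit 111251), (nat_lit 780000), [(nat_lit 490000), (nat_lit 1100000), (nat_lit 1785001)], [(nat_lit 4), (nat_lit 51), (nat_lit 238), (nat_lit 30), (nat_lit 7)]⟩,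
 ⟨⟨[(nat_lit 80), (nat_lit 140), (nat_lit 180)], [(nat_lit 0), (nat_lit 0), (nat_lit 3656)], [((nat_lit 0), (nat_lit 0), (nat_lit 0)), ((nat_lit 0), (nat_lit 0), (nat_lit 0)), ((nat_lit 637), (nat_lit 1000), (nat_lit 908))], ((nat_lit 100), (nat_lit 62), (nat_lit 92))⟩, (nat_lit 1932242), (nat_lit 445), (nat_lit 445), (nat_lit 0), (nat_lit 312378), [(nat_lit 4688000000), (nat_lit 9842000000), (nat_lit 14058000000)], [], [(nat_lit 39417536768), (nat_lit 40745251368), (nat_lit 44990666188), (nat_lit 45819015050), (nat_lit 33167277968), (nat_lit 34152341268), (nat_lit 37923190575), (nat_lit 38683743453)], (nat_lit 1271251), (nat_lit 1271251), (nat_lit 1271251), (nat_lit 1271251), (nat_lit 0), (nat_lit 1412501), [(nat_lit 1100000), (nat_lit 2127501), (nat_lit 1271251)], [(nat_lit 19), (nat_lit 63), (nat_lit 456), (nat_lit 225), (nat_lit 10)]⟩,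
 Rw.none⟩) (.leaf ⟨(nat_lit 0), (nat_lit 732), (nat_lit 0), (nat_lit 268), (nat_lit 0), (nat_lit 4639), (nat_lit 10870), (nat_lit 3450), (nat_lit 0), (nat_lit 0), (nat_lit 0), [], Pd.none, Pd.none, (nat_lit 0), (nat_lit 1), (nat_lit 0), (nat_lit 0), (nat_lit 5), (nat_lit 0), [], [⟨(nat_lit 0), (nat_lit 100), (nat_lit 53), (nat_lit 77), (nat_lit 88549307)⟩], [], [⟨(nat_lit 1), (nat_lit 100), (nat_lit 87), (nat_lit 79), (nat_lit 249336289)⟩],
 ⟨⟨[(nat_lit 40), (nat_lit 80), (nat_lit 120)], [(nat_lit 0), (nat_lit 1598), (nat_lit 3468)], [((nat_lit 0), (nat_lit 0), (nat_lit 0)), ((nat_lit 1000), (nat_lit 625), (nat_lit 623)), ((nat_lit 1000), (nat_lit 604), (nat_lit 730))], ((nat_lit 61), (nat_lit 100), (nat_lit 91))⟩, (nat_lit 1786996), (nat_lit 244), (nat_lit 244), (nat_lit 0), (nat_lit 126780), [(nat_lit 2032000146), (nat_lit 4692710353), (nat_lit 7968000000)], [], [(nat_lit 26036629854), (nat_lit 27494053996), (nat_lit 34339207536), (nat_lit 35674598476),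 (nat_lit 23974034086), (nat_lit 25295045531), (nat_lit 31038006137), (nat_lit 32277696528)], (nat_lit 1271251), (nat_lit 1271251), (nat_lit 1271251), (nat_lit 1271251), (nat_lit 111251), (nat_lit 780000), [(nat_lit 490000), (nat_lit 1100000), (nat_lit 1785001)], [(nat_lit 4), (nat_lit 51), (nat_lit 238), (nat_lit 30), (nat_lit 7)]⟩,
 ⟨⟨[(nat_lit 80), (nat_lit 140), (nat_lit 180)], [(nat_lit 0), (nat_lit 0), (nat_lit 3656)], [((nat_lit 0), (nat_lit 0), (nat_lit 0)), ((nat_lit 0), (nat_lit 0), (nat_lit 0)), ((nat_lit 637), (nat_lit 1000), (nat_lit 908))], ((nat_lit 100), (nat_lit 62), (nat_lit 92))⟩, (nat_lit 2135448), (nat_lit 280), (nat_lit 280), (nat_lit 0), (nat_lit 312378), [(nat_lit 4688000000), (nat_lit 9842000000), (nat_lit 14058000000)], [], [(nat_lit 25125538912), (nat_lit 27020883302), (nat_lit 33033785832), (nat_lit 33982070440), (nat_lit 32189966182), (nat_lit 33066023785), (nat_lit 39843729899), (nat_lit 41055938783)], (nat_lit 1271251),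 (nat_lit 1271251), (nat_lit 1271251), (nat_lit 1271251), (nat_lit 1271251), (nat_lit 1271251), [(nat_lit 1100000), (nat_lit 2127501), (nat_lit 1271251)], [(nat_lit 19), (nat_lit 63), (nat_lit 538), (nat_lit 300), (nat_lit 12)]⟩,
 ⟨⟨[(nat_lit 140), (nat_lit 180), (nat_lit 200)], [(nat_lit 0), (nat_lit 0), (nat_lit 2835)], [((nat_lit 0), (nat_lit 0), (nat_lit 0)), ((nat_lit 0), (nat_lit 0), (nat_lit 0)), ((nat_lit 363), (nat_lit 1000), (nat_lit 798))], ((nat_lit 0), (nat_lit 0), (nat_lit 0))⟩, (nat_lit 73735), (nat_lit 300), (nat_lit 871), (nat_lit 20930807), (nat_lit 903800), [(nat_lit 2637656000), (nat_lit 3767544000), (nat_lit 4395200000)], [], [(nat_lit 17976589891), (nat_lit 16891238407), (nat_lit 15744013660), (nat_lit 14958508571), (nat_lit 17614513747), (nat_lit 16540017042), (nat_lit 15265024681), (nat_lit 14065606031)], (nat_lit 780000), (nat_lit 1598751), (nat_lit 111251), (nat_lit 780000), (nat_lit 1271251), (nat_lit 1271251), [(nat_lit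 1977501), (nat_lit 1271251), (nat_lit 1271251)], [(nat_lit 32), (nat_lit 67), (nat_lit 428), (nat_lit 200), (nat_lit 9)]⟩⟩)) (.dle (nat_lit 0)))) (.spl (nat_lit 5) (nat_lit 200) (.spl (nat_lit 1) (nat_lit 300) (.trX (nat_lit 3) (nat_lit 0) (nat_lit 1) (nat_lit 69) (nat_lit 45) (nat_lit 100) (nat_lit 390) (.spl (nat_lit 6) (nat_lit 128) (.leaf ⟨(nat_lit 0), (nat_lit 1000), (nat_lit 0), (nat_lit 0), (nat_lit 10178), (nat_lit 4454), (nat_lit 8178), (nat_lit 0), (nat_lit 0), (nat_lit 0), (nat_lit 0), [], Pd.none, Pd.none, (nat_lit 0), (nat_lit 1), (nat_lit 0), (nat_lit 0), (nat_lit 3), (nat_lit 0), [], [⟨(nat_lit 0), (nat_lit 100), (nat_lit 53), (nat_lit 77), (nat_lit 39169351)⟩], [], [],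
 ⟨⟨[(nat_lit 40), (nat_lit 100), (nat_lit 140)], [(nat_lit 0), (nat_lit 2396), (nat_lit 4896)], [((nat_lit 0), (nat_lit 0), (nat_lit 0)), ((nat_lit 1000), (nat_lit 625), (nat_lit 623)), ((nat_lit 1000), (nat_lit 625), (nat_lit 975))], ((nat_lit 62), (nat_lit 100), (nat_lit 97))⟩, (nat_lit 1934994), (nat_lit 297), (nat_lit 297), (nat_lit 0), (nat_lit 185908), [(nat_lit 2032000004), (nat_lit 6250000012), (nat_lit 9842000000)], [], [(nat_lit 26115605025), (nat_lit 27421879570), (nat_lit 34551787460), (nat_lit 35816027434), (nat_lit 24420800334), (nat_lit 25275642579), (nat_lit 31391485412), (nat_lit 32567811368)], (nat_lit 1271251), (nat_lit 1271251), (nat_lit 1271251), (nat_lit 1271251), (nat_lit 111251), (nat_lit 780000), [(nat_lit 490000), (nat_lit 1427501), (nat_lit 1271251)], [(nat_lit 5), (nat_lit 55), (nat_lit 373), (nat_lit 150), (nat_lit 10)]⟩,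
 ⟨⟨[(nat_lit 60), (nat_lit 120), (nat_lit 180)], [(nat_lit 0), (nat_lit 0), (nat_lit 4796)], [((nat_lit 0), (nat_lit 0), (nat_lit 0)), ((nat_lit 0), (nat_lit 0), (nat_lit 0)), ((nat_lit 802), (nat_lit 1000), (nat_lit 999))], ((nat_lit 98), (nat_lit 75), (nat_lit 100))⟩, (nat_lit 1983631), (nat_lit 454), (nat_lit 454), (nat_lit 0), (nat_lit 374516), [(nat_lit 3282000000), (nat_lit 7968000000), (nat_lit 14058000000)], [], [(nat_lit 37141978060), (nat_lit 37647192244), (nat_lit 42136720398), (nat_lit 42710714192), (nat_lit 31088074596), (nat_lit 31668756486), (nat_lit 35736482782), (nat_lit 36038215389)], (nat_lit 1271251), (nat_lit 1271251), (nat_lit 1271251), (nat_lit 1271251), (nat_lit 0), (nat_lit 1412501), [(nat_lit 780000), (nat_lit 1762501), (nat_lit 1271251)], [(nat_lit 13), (nat_lit 60), (nat_lit 456), (nat_lit 225), (nat_lit 10)]⟩,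
 Rw.none⟩) (.dle (nat_lit 0)))) (.spl (nat_lit 1) (nat_lit 310) (.trX (nat_lit 3) (nat_lit 0) (nat_lit 1) (nat_lit 72) (nat_lit 40) (nat_lit 100) (nat_lit 390) (.spl (nat_lit 6) (nat_lit 140) (.leaf ⟨(nat_lit 0), (nat_lit 1000), (nat_lit 0), (nat_lit 0), (nat_lit 5444), (nat_lit 7648), (nat_lit 7492), (nat_lit 0), (nat_lit 0), (nat_lit 0), (nat_lit 0), [], Pd.none, Pd.none, (nat_lit 0), (nat_lit 1), (nat_lit 0), (nat_lit 0), (nat_lit 3), (nat_lit 0), [], [⟨(nat_lit 0), (nat_lit 100), (nat_lit 53), (nat_lit 77), (nat_lit 194136908)⟩], [], [],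
 ⟨⟨[(nat_lit 40), (nat_lit 100), (nat_lit 140)], [(nat_lit 0), (nat_lit 2396), (nat_lit 4896)], [((nat_lit 0), (nat_lit 0), (nat_lit 0)), ((nat_lit 1000), (nat_lit 625), (nat_lit 623)), ((nat_lit 1000), (nat_lit 625), (nat_lit 975))], ((nat_lit 63), (nat_lit 99), (nat_lit 100))⟩, (nat_lit 557598), (nat_lit 300), (nat_lit 307), (nat_lit 50800005), (nat_lit 220141), [(nat_lit 2032000185), (nat_lit 6372413790), (nat_lit 9842000000)], [], [(nat_lit 37055534905), (nat_lit 38173695958), (nat_lit 43203570294), (nat_lit 44901947631), (nat_lit 32939588516), (nat_lit 33951297944), (nat_lit 37430586140), (nat_lit 38260561410)], (nat_lit 1271251), (nat_lit 1271251), (nat_lit 1271251), (nat_lit 1271251), (nat_lit 111251), (nat_lit 780000), [(nat_lit 490000), (nat_lit 1427501), (nat_lit 1271251)], [(nat_lit 5), (nat_lit 55), (nat_lit 373), (nat_lit 150), (nat_lit 10)]⟩,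
 ⟨⟨[(nat_lit 60), (nat_lit 120), (nat_lit 180)], [(nat_lit 0), (nat_lit 913), (nat_lit 5370)], [((nat_lit 0), (nat_lit 0), (nat_lit 0)), ((nat_lit 1000), (nat_lit 905), (nat_lit 238)), ((nat_lit 862), (nat_lit 939), (nat_lit 1000))], ((nat_lit 91), (nat_lit 77), (nat_lit 100))⟩, (nat_lit 2072315), (nat_lit 464), (nat_lit 464), (nat_lit 0), (nat_lit 407055), [(nat_lit 3282000000), (nat_lit 7968000000), (nat_lit 14058000000)], [], [(nat_lit 33517174540), (nat_lit 33766890828), (nat_lit 40242180874), (nat_lit 40526940670), (nat_lit 28089592926), (nat_lit 28373807499), (nat_lit 32435424337), (nat_lit 32655891317)], (nat_lit 1271251), (nat_lit 1271251), (nat_lit 1271251), (nat_lit 1271251), (nat_lit 0), (nat_lit 1412501), [(nat_lit 780000), (nat_lit 1762501), (nat_lit 1271251)], [(nat_lit 13), (nat_lit 60), (nat_lit 456), (nat_lit 225), (nat_lit 10)]⟩,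
 Rw.none⟩) (.dle (nat_lit 0)))) (.leaf ⟨(nat_lit 0), (nat_lit 1000), (nat_lit 0), (nat_lit 0), (nat_lit 7263), (nat_lit 8117), (nat_lit 6453), (nat_lit 0), (nat_lit 0), (nat_lit 0), (nat_lit 0), [], Pd.none, Pd.none, (nat_lit 0), (nat_lit 1), (nat_lit 0), (nat_lit 0), (nat_lit 3), (nat_lit 0), [], [⟨(nat_lit 0), (nat_lit 100), (nat_lit 53), (nat_lit 77), (nat_lit 262742339)⟩], [], [],
 ⟨⟨[(nat_lit 40), (nat_lit 100), (nat_lit 140)], [(nat_lit 0), (nat_lit 2396), (nat_lit 4896)], [((nat_lit 0), (nat_lit 0), (nat_lit 0)), ((nat_lit 1000), (nat_lit 625), (nat_lit 623)), ((nat_lit 1000), (nat_lit 625), (nat_lit 975))], ((nat_lit 62), (nat_lit 95), (nat_lit 100))⟩, (nat_lit 557598), (nat_lit 300), (nat_lit 320), (nat_lit 50800002), (nat_lit 257333), [(nat_lit 2032000006), (nat_lit 6360334112), (nat_lit 9842000000)], [], [(nat_lit 36577668966), (nat_lit 37732208427), (nat_lit 45464742433), (nat_lit 47153733795), (nat_lit 32119162164), (nat_lit 33162229401),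 (nat_lit 38379125607), (nat_lit 39942645859)], (nat_lit 1271251), (nat_lit 1271251), (nat_lit 1271251), (nat_lit 1271251), (nat_lit 111251), (nat_lit 780000), [(nat_lit 490000), (nat_lit 1427501), (nat_lit 1271251)], [(nat_lit 5), (nat_lit 55), (nat_lit 373), (nat_lit 150), (nat_lit 10)]⟩,
 ⟨⟨[(nat_lit 60), (nat_lit 120), (nat_lit 180)], [(nat_lit 0), (nat_lit 1362), (nat_lit 5659)], [((nat_lit 0), (nat_lit 0), (nat_lit 0)), ((nat_lit 1000), (nat_lit 858), (nat_lit 354)), ((nat_lit 895), (nat_lit 904), (nat_lit 1000))], ((nat_lit 86), (nat_lit 76), (nat_lit 100))⟩, (nat_lit 2108440), (nat_lit 476), (nat_lit 476), (nat_lit 0), (nat_lit 442706), [(nat_lit 3282000000), (nat_lit 7968000000), (nat_lit 14058000000)], [], [(nat_lit 32921635442), (nat_lit 33166973384), (nat_lit 38967901197), (nat_lit 39327670408), (nat_lit 28601448826), (nat_lit 28876468836), (nat_lit 32924785947), (nat_lit 33076991730)], (nat_lit 1271251), (nat_lit 1271251), (nat_lit 1271251),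 (nat_lit 1271251), (nat_lit 0), (nat_lit 1412501), [(nat_lit 780000), (nat_lit 1762501), (nat_lit 1271251)], [(nat_lit 13), (nat_lit 60), (nat_lit 483), (nat_lit 250), (nat_lit 11)]⟩,
 Rw.none⟩))) (.trX (nat_lit 3) (nat_lit 5) (nat_lit 4) (nat_lit 100) (nat_lit 40) (nat_lit 92) (nat_lit 390) (.stt (nat_lit 2) (.leaf ⟨(nat_lit 0), (nat_lit 891), (nat_lit 0), (nat_lit 109), (nat_lit 4239), (nat_lit 9436), (nat_lit 8686), (nat_lit 1273), (nat_lit 0), (nat_lit 0), (nat_lit 0), [], Pd.none, Pd.none, (nat_lit 0), (nat_lit 1), (nat_lit 0), (nat_lit 0), (nat_lit 5), (nat_lit 0), [], [], [⟨(nat_lit 1), (nat_lit 63), (nat_lit 88), (nat_lit 100), (nat_lit 91760247)⟩], [⟨(nat_lit 1), (nat_lit 100), (nat_lit 90), (nat_lit 96), (nat_lit 327460221)⟩],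
 ⟨⟨[(nat_lit 40), (nat_lit 100), (nat_lit 140)], [(nat_lit 0), (nat_lit 2396), (nat_lit 4896)], [((nat_lit 0), (nat_lit 0), (nat_lit 0)), ((nat_lit 1000), (nat_lit 625), (nat_lit 623)), ((nat_lit 1000), (nat_lit 625), (nat_lit 975))], ((nat_lit 62), (nat_lit 95), (nat_lit 100))⟩, (nat_lit 568456), (nat_lit 300), (nat_lit 319), (nat_lit 50800001), (nat_lit 257221), [(nat_lit 2032000001), (nat_lit 6401312812), (nat_lit 9842000000)], [], [(nat_lit 35233736928), (nat_lit 37268647503), (nat_lit 48046835074), (nat_lit 49988242344), (nat_lit 29811824612), (nat_lit 30943081508), (nat_lit 39656808991), (nat_lit 41447360745)], (nat_lit 1271251), (nat_lit 1271251), (nat_lit 1271251), (nat_lit 1271251), (nat_lit 111251), (nat_lit 780000), [(nat_lit 490000), (nat_lit 1427501), (nat_lit 1271251)], [(nat_lit 5), (nat_lit 55), (nat_lit 373), (nat_lit 150), (nat_lit 10)]⟩,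
 ⟨⟨[(nat_lit 60), (nat_lit 120), (nat_lit 180)], [(nat_lit 0), (nat_lit 0), (nat_lit 4796)], [((nat_lit 0), (nat_lit 0), (nat_lit 0)), ((nat_lit 0), (nat_lit 0), (nat_lit 0)), ((nat_lit 802), (nat_lit 1000), (nat_lit 999))], ((nat_lit 94), (nat_lit 63), (nat_lit 100))⟩, (nat_lit 0), (nat_lit 99), (nat_lit 99), (nat_lit 0), (nat_lit 0), [(nat_lit 3282000000), (nat_lit 7968000000), (nat_lit 14058000000)], [], [(nat_lit 22372043958), (nat_lit 25024457872), (nat_lit 32397905189), (nat_lit 34138716044), (nat_lit 31261706323), (nat_lit 32734253428), (nat_lit 39000559272), (nat_lit 40092736634)], (nat_lit 0), (nat_lit 0), (nat_lit 0), (nat_lit 0), (nat_lit 0), (nat_lit 0), [], [(nat_lit 13), (nat_lit 60), (nat_lit 538), (nat_lit 300), (nat_lit 11)]⟩,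
 ⟨⟨[(nat_lit 140), (nat_lit 180), (nat_lit 200)], [(nat_lit 0), (nat_lit 0), (nat_lit 2835)], [((nat_lit 0), (nat_lit 0), (nat_lit 0)), ((nat_lit 0), (nat_lit 0), (nat_lit 0)), ((nat_lit 363), (nat_lit 1000), (nat_lit 798))], ((nat_lit 0), (nat_lit 0), (nat_lit 0))⟩, (nat_lit 29989), (nat_lit 300), (nat_lit 1314), (nat_lit 8512906), (nat_lit 1896402), [(nat_lit 1072778000), (nat_lit 1532322000), (nat_lit 1787600000)], [], [(nat_lit 7667501671), (nat_lit 7228146841), (nat_lit 6914461161), (nat_lit 6464735235), (nat_lit 7370180954), (nat_lit 6924553093), (nat_lit 6544118392), (nat_lit 6086331406)], (nat_lit 780000), (nat_lit 1598751), (nat_lit 111251), (nat_lit 780000), (nat_lit 1271251), (nat_lit 1271251), [(nat_lit 1977501), (nat_lit 1271251), (nat_lit 1271251)], [(nat_lit 32), (nat_lit 67), (nat_lit 428), (nat_lit 200), (nat_lit 9)]⟩⟩) (.leaf ⟨(nat_lit 0), (nat_lit 708), (nat_lit 0), (nat_lit 292), (nat_lit 4331), (nat_lit 4138), (nat_lit 8937),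 (nat_lit 4450), (nat_lit 0), (nat_lit 0), (nat_lit 0), [], Pd.none, Pd.none, (nat_lit 0), (nat_lit 1), (nat_lit 0), (nat_lit 0), (nat_lit 5), (nat_lit 0), [], [⟨(nat_lit 0), (nat_lit 100), (nat_lit 53), (nat_lit 77), (nat_lit 135935609)⟩, ⟨(nat_lit 0), (nat_lit 100), (nat_lit 65), (nat_lit 54), (nat_lit 62911906)⟩], [], [⟨(nat_lit 1), (nat_lit 100), (nat_lit 84), (nat_lit 78), (nat_lit 198608261)⟩],
 ⟨⟨[(nat_lit 40), (nat_lit 100), (nat_lit 140)], [(nat_lit 0), (nat_lit 2396), (nat_lit 4896)], [((nat_lit 0), (nat_lit 0), (nat_lit 0)), ((nat_lit 1000), (nat_lit 625), (nat_lit 623)), ((nat_lit 1000), (nat_lit 625), (nat_lit 975))], ((nat_lit 62), (nat_lit 95), (nat_lit 100))⟩, (nat_lit 2082477), (nat_lit 284), (nat_lit 284), (nat_lit 0), (nat_lit 140332), [(nat_lit 2032000113), (nat_lit 6265387118), (nat_lit 9842000000)], [], [(nat_lit 25356350887), (nat_lit 26499610403), (nat_lit 33695818965), (nat_lit 34917107340), (nat_lit 24321946461), (nat_lit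 25289945198), (nat_lit 30867229641), (nat_lit 32004596273)], (nat_lit 1271251), (nat_lit 1271251), (nat_lit 1271251), (nat_lit 1271251), (nat_lit 111251), (nat_lit 780000), [(nat_lit 490000), (nat_lit 1427501), (nat_lit 1271251)], [(nat_lit 5), (nat_lit 55), (nat_lit 373), (nat_lit 150), (nat_lit 10)]⟩,
 ⟨⟨[(nat_lit 60), (nat_lit 120), (nat_lit 180)], [(nat_lit 0), (nat_lit 0), (nat_lit 4796)], [((nat_lit 0), (nat_lit 0), (nat_lit 0)), ((nat_lit 0), (nat_lit 0), (nat_lit 0)), ((nat_lit 802), (nat_lit 1000), (nat_lit 999))], ((nat_lit 94), (nat_lit 63), (nat_lit 100))⟩, (nat_lit 1984723), (nat_lit 375), (nat_lit 375), (nat_lit 0), (nat_lit 462321), [(nat_lit 3282000000), (nat_lit 7968000000), (nat_lit 14058000000)], [], [(nat_lit 27626171407), (nat_lit 28778783196), (nat_lit 33297165375), (nat_lit 34418267859), (nat_lit 32087341147), (nat_lit 32964920445), (nat_lit 39324493440), (nat_lit 40420377209)], (nat_lit 1271251), (nat_lit 1271251), (nat_lit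 1271251), (nat_lit 1271251), (nat_lit 1271251), (nat_lit 1271251), [(nat_lit 780000), (nat_lit 1762501), (nat_lit 1271251)], [(nat_lit 13), (nat_lit 60), (nat_lit 538), (nat_lit 300), (nat_lit 11)]⟩,
 ⟨⟨[(nat_lit 140), (nat_lit 180), (nat_lit 200)], [(nat_lit 0), (nat_lit 0), (nat_lit 2835)], [((nat_lit 0), (nat_lit 0), (nat_lit 0)), ((nat_lit 0), (nat_lit 0), (nat_lit 0)), ((nat_lit 363), (nat_lit 1000), (nat_lit 798))], ((nat_lit 0), (nat_lit 0), (nat_lit 0))⟩, (nat_lit 80339), (nat_lit 300), (nat_lit 802), (nat_lit 22805200), (nat_lit 738417), [(nat_lit 2873864000), (nat_lit 4104936000), (nat_lit 4788800000)], [], [(nat_lit 18727483679), (nat_lit 17376496807), (nat_lit 15675234918), (nat_lit 16707732165), (nat_lit 19283717357), (nat_lit 17807372544), (nat_lit 15920359408), (nat_lit 14520887062)], (nat_lit 780000), (nat_lit 1598751), (nat_lit 111251), (nat_lit 780000), (nat_lit 1271251), (nat_lit 1271251), [(nat_lit 1977501), (nat_lit 1271251),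 (nat_lit 1271251)], [(nat_lit 32), (nat_lit 67), (nat_lit 428), (nat_lit 200), (nat_lit 9)]⟩⟩))))))
noncomputable def c17_104 : Tr Lf :=
 (.spl (nat_lit 0) (nat_lit 370) (.spl (nat_lit 6) (nat_lit 96) (.spl (nat_lit 5) (nat_lit 120) (.leaf ⟨(nat_lit 784), (nat_lit 216), (nat_lit 0), (nat_lit 0), (nat_lit 14984), (nat_lit 4314), (nat_lit 2772), (nat_lit 0), (nat_lit 0), (nat_lit 0), (nat_lit 501600), [((nat_lit 370), [((nat_lit 41), (nat_lit 2), (nat_lit 706)), ((nat_lit 26), (nat_lit 2), (nat_lit 78))])], ⟨(nat_lit 6), false, false, false, (nat_lit 188), (nat_lit 2738), (nat_lit 3163), [(nat_lit 1407099), (nat_lit 1411881), (nat_lit 1451384), (nat_lit 1456691), (nat_lit 1483313), (nat_lit 1485730), (nat_lit 1527599), (nat_lit 1530541)]⟩, ⟨(nat_lit 3), false, false, true, (nat_lit 154), (nat_lit 2738), (nat_lit 3163), [(nat_lit 1289472), (nat_lit 1292206), (nat_lit 1355914), (nat_lit 1359435), (nat_lit 1411379), (nat_lit 1410329), (nat_lit 1477844),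 (nat_lit 1477581)]⟩, (nat_lit 4390240), (nat_lit 46763389), (nat_lit 11692067), (nat_lit 8544544), (nat_lit 3), (nat_lit 0), [⟨(nat_lit 0), (nat_lit 93), (nat_lit 53), (nat_lit 100), (nat_lit 399087663)⟩], [], [], [],
 ⟨⟨[(nat_lit 40), (nat_lit 80), (nat_lit 120)], [(nat_lit 0), (nat_lit 1598), (nat_lit 3468)], [((nat_lit 0), (nat_lit 0), (nat_lit 0)), ((nat_lit 1000), (nat_lit 625), (nat_lit 623)), ((nat_lit 1000), (nat_lit 604), (nat_lit 730))], ((nat_lit 60), (nat_lit 100), (nat_lit 86))⟩, (nat_lit 0), (nat_lit 136), (nat_lit 136), (nat_lit 0), (nat_lit 82379), [(nat_lit 1692188130), (nat_lit 1560648129), (nat_lit 196719200)], [(nat_lit 0), (nat_lit 0), (nat_lit 0)], [(nat_lit 20344839960), (nat_lit 21133144635), (nat_lit 20564694950), (nat_lit 21301677829), (nat_lit 21518571125), (nat_lit 22215928686), (nat_lit 21662434206), (nat_lit 22315888518)], (nat_lit 1271251), (nat_lit 1271251), (nat_lit 704688), (nat_lit 1100000), (nat_lit 780000), (nat_lit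 1435001), [(nat_lit 490000), (nat_lit 1100000), (nat_lit 1785001)], [(nat_lit 4), (nat_lit 51), (nat_lit 317), (nat_lit 100), (nat_lit 10)]⟩,
 ⟨⟨[(nat_lit 80), (nat_lit 140), (nat_lit 180)], [(nat_lit 0), (nat_lit 0), (nat_lit 3656)], [((nat_lit 0), (nat_lit 0), (nat_lit 0)), ((nat_lit 0), (nat_lit 0), (nat_lit 0)), ((nat_lit 637), (nat_lit 1000), (nat_lit 908))], ((nat_lit 100), (nat_lit 69), (nat_lit 87))⟩, (nat_lit 483901), (nat_lit 417), (nat_lit 417), (nat_lit 0), (nat_lit 131842), [(nat_lit 1012608000), (nat_lit 2125872000), (nat_lit 3036528000)], [], [(nat_lit 7943232820), (nat_lit 8412446992), (nat_lit 7624990080), (nat_lit 7949868808), (nat_lit 7645912452), (nat_lit 6191317714), (nat_lit 9126457416), (nat_lit 6599111364)], (nat_lit 1271251), (nat_lit 1271251), (nat_lit 704688), (nat_lit 1100000), (nat_lit 0), (nat_lit 780000), [(nat_lit 1100000), (nat_lit 2127501), (nat_lit 1271251)], [(nat_lit 19), (nat_lit 63), (nat_lit 373), (nat_lit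 150), (nat_lit 9)]⟩,
 Rw.none⟩) (.leaf ⟨(nat_lit 938), (nat_lit 26), (nat_lit 0), (nat_lit 36), (nat_lit 9188), (nat_lit 4216), (nat_lit 429), (nat_lit 403), (nat_lit 0), (nat_lit 0), (nat_lit 476200), [((nat_lit 370), [((nat_lit 26), (nat_lit 1), (nat_lit 433)), ((nat_lit 41), (nat_lit 2), (nat_lit 505))])], ⟨(nat_lit 6), false, false, false, (nat_lit 188), (nat_lit 2738), (nat_lit 3163), [(nat_lit 1407099), (nat_lit 1411881), (nat_lit 1451384), (nat_lit 1456691), (nat_lit 1483313), (nat_lit 1485730), (nat_lit 1527599), (nat_lit 1530541)]⟩, ⟨(nat_lit 3), false, false, true, (nat_lit 154), (nat_lit 2738), (nat_lit 3163), [(nat_lit 1289472), (nat_lit 1292206), (nat_lit 1355914), (nat_lit 1359435), (nat_lit 1411379), (nat_lit 1410329), (nat_lit 1477844), (nat_lit 1477581)]⟩, (nat_lit 4390240), (nat_lit 46763389), (nat_lit 11692067), (nat_lit 8544544), (nat_lit 3), (nat_lit 0), [⟨(nat_lit 0), (nat_lit 93), (nat_lit 53), (nat_lit 100), (nat_lit 524570542)⟩],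 [], [], [],
 ⟨⟨[(nat_lit 40), (nat_lit 80), (nat_lit 120)], [(nat_lit 0), (nat_lit 1598), (nat_lit 3468)], [((nat_lit 0), (nat_lit 0), (nat_lit 0)), ((nat_lit 1000), (nat_lit 625), (nat_lit 623)), ((nat_lit 1000), (nat_lit 604), (nat_lit 730))], ((nat_lit 60), (nat_lit 100), (nat_lit 86))⟩, (nat_lit 1471), (nat_lit 136), (nat_lit 136), (nat_lit 0), (nat_lit 82379), [(nat_lit 1541144226), (nat_lit 1488364434), (nat_lit 86609200)], [(nat_lit 0), (nat_lit 0), (nat_lit 0)], [(nat_lit 20251314462), (nat_lit 21029797001), (nat_lit 20490606772), (nat_lit 21218627526), (nat_lit 21440583686), (nat_lit 22129660979), (nat_lit 21604613636), (nat_lit 22249977334)], (nat_lit 1271251), (nat_lit 1271251), (nat_lit 704688), (nat_lit 1100000), (nat_lit 780000), (nat_lit 1435001), [(nat_lit 490000), (nat_lit 1100000), (nat_lit 1785001)], [(nat_lit 4), (nat_lit 51), (nat_lit 317), (nat_lit 100), (nat_lit 10)]⟩,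
 ⟨⟨[(nat_lit 80), (nat_lit 140), (nat_lit 180)], [(nat_lit 0), (nat_lit 0), (nat_lit 3656)], [((nat_lit 0), (nat_lit 0), (nat_lit 0)), ((nat_lit 0), (nat_lit 0), (nat_lit 0)), ((nat_lit 637), (nat_lit 1000), (nat_lit 908))], ((nat_lit 100), (nat_lit 69), (nat_lit 87))⟩, (nat_lit 2620), (nat_lit 262), (nat_lit 262), (nat_lit 0), (nat_lit 158228), [(nat_lit 290656000), (nat_lit 610204000), (nat_lit 871596000)], [], [(nat_lit 2169716671), (nat_lit 2213072837), (nat_lit 2071188180), (nat_lit 2185107696), (nat_lit 3350625988), (nat_lit 2968247349), (nat_lit 3644496716), (nat_lit 3268183064)], (nat_lit 1271251), (nat_lit 1271251), (nat_lit 704688), (nat_lit 1100000), (nat_lit 780000), (nat_lit 3072501), [(nat_lit 1100000), (nat_lit 2127501), (nat_lit 1271251)], [(nat_lit 19), (nat_lit 63), (nat_lit 456), (nat_lit 225), (nat_lit 10)]⟩,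
 ⟨⟨[(nat_lit 140), (nat_lit 180), (nat_lit 200)], [(nat_lit 0), (nat_lit 0), (nat_lit 2835)], [((nat_lit 0), (nat_lit 0), (nat_lit 0)), ((nat_lit 0), (nat_lit 0), (nat_lit 0)), ((nat_lit 363), (nat_lit 1000), (nat_lit 798))], ((nat_lit 0), (nat_lit 0), (nat_lit 0))⟩, (nat_lit 9905), (nat_lit 300), (nat_lit 812), (nat_lit 2811600), (nat_lit 843213), [(nat_lit 354312000), (nat_lit 506088000), (nat_lit 590400000)], [], [(nat_lit 2567824992), (nat_lit 2365766888), (nat_lit 2335593336), (nat_lit 2248532534), (nat_lit 2227962376), (nat_lit 2133948483), (nat_lit 2101544016), (nat_lit 2259624820)], (nat_lit 780000), (nat_lit 1271251), (nat_lit 780000), (nat_lit 1435001), (nat_lit 780000), (nat_lit 3072501), [(nat_lit 1977501), (nat_lit 1271251), (nat_lit 1271251)], [(nat_lit 32), (nat_lit 67), (nat_lit 428), (nat_lit 200), (nat_lit 9)]⟩⟩)) (.dle (nat_lit 0))) (.trZ (nat_lit 0) (nat_lit 1) (nat_lit 3) (nat_lit 100) (nat_lit 54) (nat_lit 96) (nat_lit 130)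 (.spl (nat_lit 1) (nat_lit 260) (.spl (nat_lit 6) (nat_lit 100) (.leaf ⟨(nat_lit 1000), (nat_lit 0), (nat_lit 0), (nat_lit 0), (nat_lit 9811), (nat_lit 3591), (nat_lit 0), (nat_lit 0), (nat_lit 0), (nat_lit 0), (nat_lit 250000), [((nat_lit 380), [((nat_lit 26), (nat_lit 0), (nat_lit 1000))])], ⟨(nat_lit 6), false, false, false, (nat_lit 191), (nat_lit 2236), (nat_lit 2739), [(nat_lit 1441375), (nat_lit 1445669), (nat_lit 1463772), (nat_lit 1468423), (nat_lit 1485697), (nat_lit 1488457), (nat_lit 1508094), (nat_lit 1511211)]⟩, ⟨(nat_lit 3), false, false, true, (nat_lit 154), (nat_lit 2236), (nat_lit 2739), [(nat_lit 1292206), (nat_lit 1294870), (nat_lit 1359410), (nat_lit 1363145), (nat_lit 1410329), (nat_lit 1408901), (nat_lit 1477581), (nat_lit 1477224)]⟩, (nat_lit 4421702), (nat_lit 46486999), (nat_lit 11949860), (nat_lit 8563141), (nat_lit 0), (nat_lit 0), [⟨(nat_lit 0), (nat_lit 100), (nat_lit 50), (nat_lit 100), (nat_lit 642637248)⟩], [], [],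 [],
 ⟨⟨[(nat_lit 40), (nat_lit 80), (nat_lit 120)], [(nat_lit 0), (nat_lit 2008), (nat_lit 3930)], [((nat_lit 0), (nat_lit 0), (nat_lit 0)), ((nat_lit 1000), (nat_lit 540), (nat_lit 733)), ((nat_lit 1000), (nat_lit 536), (nat_lit 751))], ((nat_lit 53), (nat_lit 100), (nat_lit 87))⟩, (nat_lit 754456), (nat_lit 140), (nat_lit 140), (nat_lit 0), (nat_lit 94488), [(nat_lit 1531200103), (nat_lit 2442879511), (nat_lit 2512800000)], [(nat_lit 0), (nat_lit 0), (nat_lit 0)], [(nat_lit 20699050219), (nat_lit 21396900778), (nat_lit 20907638984), (nat_lit 21560881241), (nat_lit 21887602409), (nat_lit 22502654485), (nat_lit 22067788792), (nat_lit 22631598556)], (nat_lit 1271251), (nat_lit 1271251), (nat_lit 857188), (nat_lit 1100000), (nat_lit 780000), (nat_lit 1435001), [(nat_lit 490000), (nat_lit 1100000), (nat_lit 1785001)], [(nat_lit 4), (nat_lit 51), (nat_lit 317), (nat_lit 100), (nat_lit 9)]⟩,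
 Rw.none,
 Rw.none⟩) (.dle (nat_lit 0))) (.trZ (nat_lit 0) (nat_lit 1) (nat_lit 3) (nat_lit 98) (nat_lit 54) (nat_lit 100) (nat_lit 150) (.trX (nat_lit 5) (nat_lit 1) (nat_lit 2) (nat_lit 96) (nat_lit 40) (nat_lit 100) (nat_lit 390) (.leaf ⟨(nat_lit 1000), (nat_lit 0), (nat_lit 0), (nat_lit 0), (nat_lit 12262), (nat_lit 3636), (nat_lit 0), (nat_lit 0), (nat_lit 0), (nat_lit 0), (nat_lit 250000), [((nat_lit 380), [((nat_lit 26), (nat_lit 0), (nat_lit 1000))])], ⟨(nat_lit 6), false, false, false, (nat_lit 205), (nat_lit 2236), (nat_lit 2739), [(nat_lit 1493321), (nat_lit 1496948), (nat_lit 1515717), (nat_lit 1519702), (nat_lit 1508094), (nat_lit 1511211), (nat_lit 1530492), (nat_lit 1533965)]⟩, ⟨(nat_lit 3), false, false, true, (nat_lit 154), (nat_lit 2236), (nat_lit 2739), [(nat_lit 1292206), (nat_lit 1294870), (nat_lit 1359410), (nat_lit 1363145), (nat_lit 1410329), (nat_lit 1408901), (nat_lit 1477581), (nat_lit 1477224)]⟩, (nat_lit 4546933), (nat_lit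 45255006), (nat_lit 13290269), (nat_lit 8454725), (nat_lit 0), (nat_lit 0), [⟨(nat_lit 0), (nat_lit 98), (nat_lit 54), (nat_lit 100), (nat_lit 1179838493)⟩], [], [], [],
 ⟨⟨[(nat_lit 40), (nat_lit 80), (nat_lit 120)], [(nat_lit 0), (nat_lit 2008), (nat_lit 3930)], [((nat_lit 0), (nat_lit 0), (nat_lit 0)), ((nat_lit 1000), (nat_lit 540), (nat_lit 733)), ((nat_lit 1000), (nat_lit 536), (nat_lit 751))], ((nat_lit 53), (nat_lit 100), (nat_lit 90))⟩, (nat_lit 793429), (nat_lit 151), (nat_lit 151), (nat_lit 0), (nat_lit 150340), [(nat_lit 1531200760), (nat_lit 2412534867), (nat_lit 2512800000)], [(nat_lit 0), (nat_lit 0), (nat_lit 0)], [(nat_lit 20660293622), (nat_lit 21344347615), (nat_lit 20722085139), (nat_lit 21397064748), (nat_lit 21809309288), (nat_lit 22622344510), (nat_lit 21858255217), (nat_lit 22667266276)], (nat_lit 1271251), (nat_lit 1271251), (nat_lit 1017188), (nat_lit 1100000), (nat_lit 780000), (nat_lit 1435001), [(nat_lit 490000), (nat_lit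 1100000), (nat_lit 1785001)], [(nat_lit 4), (nat_lit 51), (nat_lit 317), (nat_lit 100), (nat_lit 9)]⟩,
 Rw.none,
 Rw.none⟩))))))
noncomputable def c17_105 : Tr Lf :=
 (.spl (nat_lit 5) (nat_lit 200) (.stt (nat_lit 2) (.leaf ⟨(nat_lit 0), (nat_lit 1000), (nat_lit 0), (nat_lit 0), (nat_lit 22721), (nat_lit 4828), (nat_lit 8390), (nat_lit 0), (nat_lit 0), (nat_lit 0), (nat_lit 0), [], Pd.none, Pd.none, (nat_lit 0), (nat_lit 1), (nat_lit 0), (nat_lit 0), (nat_lit 3), (nat_lit 0), [⟨(nat_lit 0), (nat_lit 92), (nat_lit 44), (nat_lit 100), (nat_lit 665671637)⟩], [], [], [],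
 ⟨⟨[(nat_lit 40), (nat_lit 80), (nat_lit 120)], [(nat_lit 0), (nat_lit 1598), (nat_lit 3468)], [((nat_lit 0), (nat_lit 0), (nat_lit 0)), ((nat_lit 1000), (nat_lit 625), (nat_lit 623)), ((nat_lit 1000), (nat_lit 604), (nat_lit 730))], ((nat_lit 61), (nat_lit 100), (nat_lit 91))⟩, (nat_lit 1833007), (nat_lit 148), (nat_lit 148), (nat_lit 0), (nat_lit 152931), [(nat_lit 2250164446), (nat_lit 5379716060), (nat_lit 7968000000)], [], [(nat_lit 21763420224), (nat_lit 23331396838), (nat_lit 23727310988), (nat_lit 25083822092), (nat_lit 22775837536), (nat_lit 24160763054), (nat_lit 24456306012), (nat_lit 25658935252)], (nat_lit 1271251), (nat_lit 1271251), (nat_lit 1100000), (nat_lit 1785001), (nat_lit 780000), (nat_lit 1435001), [(nat_lit 490000), (nat_lit 1100000), (nat_lit 1785001)], [(nat_lit 4), (nat_lit 51), (nat_lit 345), (nat_lit 125), (nat_lit 10)]⟩,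
 ⟨⟨[(nat_lit 80), (nat_lit 140), (nat_lit 180)], [(nat_lit 0), (nat_lit 0), (nat_lit 3656)], [((nat_lit 0), (nat_lit 0), (nat_lit 0)), ((nat_lit 0), (nat_lit 0), (nat_lit 0)), ((nat_lit 637), (nat_lit 1000), (nat_lit 908))], ((nat_lit 100), (nat_lit 62), (nat_lit 92))⟩, (nat_lit 2843999), (nat_lit 267), (nat_lit 267), (nat_lit 0), (nat_lit 0), [(nat_lit 4688000000), (nat_lit 9842000000), (nat_lit 14058000000)], [], [(nat_lit 28601134816), (nat_lit 31266877696), (nat_lit 30700244536), (nat_lit 32904981636), (nat_lit 22595943996), (nat_lit 24655205306), (nat_lit 24348491580), (nat_lit 26655348410)], (nat_lit 0), (nat_lit 0), (nat_lit 0), (nat_lit 0), (nat_lit 0), (nat_lit 0), [], [(nat_lit 19), (nat_lit 63), (nat_lit 428), (nat_lit 200), (nat_lit 10)]⟩,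
 Rw.none⟩) (.spl (nat_lit 4) (nat_lit 160) (.spl (nat_lit 5) (nat_lit 120) (.leaf ⟨(nat_lit 355), (nat_lit 645), (nat_lit 0), (nat_lit 0), (nat_lit 6975), (nat_lit 9257), (nat_lit 4359), (nat_lit 0), (nat_lit 0), (nat_lit 0), (nat_lit 88750), [((nat_lit 380), [((nat_lit 26), (nat_lit 0), (nat_lit 355))])], ⟨(nat_lit 6), false, false, false, (nat_lit 227), (nat_lit 2236), (nat_lit 3163), [(nat_lit 1483125), (nat_lit 1488302), (nat_lit 1527308), (nat_lit 1533723), (nat_lit 1605240), (nat_lit 1602541), (nat_lit 1649422), (nat_lit 1647962)]⟩, ⟨(nat_lit 3), false, false, false, (nat_lit 142), (nat_lit 2236), (nat_lit 3163), [(nat_lit 1289472), (nat_lit 1294870), (nat_lit 1355794), (nat_lit 1363050), (nat_lit 1350426), (nat_lit 1351886), (nat_lit 1416851), (nat_lit 1420169)]⟩, (nat_lit 4579130), (nat_lit 44235396), (nat_lit 15400361), (nat_lit 7364243), (nat_lit 3), (nat_lit 0), [⟨(nat_lit 0), (nat_lit 92), (nat_lit 44), (nat_lit 100), (nat_lit 126560661)⟩],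 [], [], [],
 ⟨⟨[(nat_lit 40), (nat_lit 80), (nat_lit 120)], [(nat_lit 0), (nat_lit 1598), (nat_lit 3468)], [((nat_lit 0), (nat_lit 0), (nat_lit 0)), ((nat_lit 1000), (nat_lit 625), (nat_lit 623)), ((nat_lit 1000), (nat_lit 604), (nat_lit 730))], ((nat_lit 61), (nat_lit 100), (nat_lit 91))⟩, (nat_lit 0), (nat_lit 132), (nat_lit 132), (nat_lit 0), (nat_lit 98495), [(nat_lit 3039507822), (nat_lit 5446839714), (nat_lit 6031404000)], [(nat_lit 0), (nat_lit 0), (nat_lit 0)], [(nat_lit 24325173375), (nat_lit 26780429393), (nat_lit 26421046031), (nat_lit 29274894821), (nat_lit 23711083798), (nat_lit 25946789179), (nat_lit 25614543424), (nat_lit 28298748662)], (nat_lit 1271251), (nat_lit 1271251), (nat_lit 1100000), (nat_lit 1785001), (nat_lit 780000), (nat_lit 1100000), [(nat_lit 490000), (nat_lit 1100000), (nat_lit 1785001)], [(nat_lit 4), (nat_lit 51), (nat_lit 317), (nat_lit 100), (nat_lit 9)]⟩,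
 ⟨⟨[(nat_lit 80), (nat_lit 140), (nat_lit 180)], [(nat_lit 0), (nat_lit 0), (nat_lit 3656)], [((nat_lit 0), (nat_lit 0), (nat_lit 0)), ((nat_lit 0), (nat_lit 0), (nat_lit 0)), ((nat_lit 637), (nat_lit 1000), (nat_lit 908))], ((nat_lit 100), (nat_lit 62), (nat_lit 92))⟩, (nat_lit 1163012), (nat_lit 440), (nat_lit 440), (nat_lit 0), (nat_lit 256371), [(nat_lit 3023760000), (nat_lit 6348090000), (nat_lit 9067410000)], [], [(nat_lit 25591240712), (nat_lit 26570565404), (nat_lit 26305370432), (nat_lit 27120421052), (nat_lit 23155502426), (nat_lit 23886013508), (nat_lit 25599518694), (nat_lit 24257023655)], (nat_lit 1271251), (nat_lit 1271251), (nat_lit 1100000), (nat_lit 1785001), (nat_lit 0), (nat_lit 780000), [(nat_lit 1100000), (nat_lit 2127501), (nat_lit 1271251)], [(nat_lit 19), (nat_lit 63), (nat_lit 401), (nat_lit 175), (nat_lit 9)]⟩,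
 Rw.none⟩) (.leaf ⟨(nat_lit 0), (nat_lit 910), (nat_lit 0), (nat_lit 90), (nat_lit 9090), (nat_lit 10074), (nat_lit 4506), (nat_lit 1175), (nat_lit 0), (nat_lit 0), (nat_lit 0), [], Pd.none, Pd.none, (nat_lit 0), (nat_lit 1), (nat_lit 0), (nat_lit 0), (nat_lit 3), (nat_lit 0), [], [], [], [],
 ⟨⟨[(nat_lit 40), (nat_lit 80), (nat_lit 120)], [(nat_lit 0), (nat_lit 1598), (nat_lit 3468)], [((nat_lit 0), (nat_lit 0), (nat_lit 0)), ((nat_lit 1000), (nat_lit 625), (nat_lit 623)), ((nat_lit 1000), (nat_lit 604), (nat_lit 730))], ((nat_lit 61), (nat_lit 100), (nat_lit 91))⟩, (nat_lit 0), (nat_lit 132), (nat_lit 132), (nat_lit 0), (nat_lit 98495), [(nat_lit 3832546537), (nat_lit 6721671199), (nat_lit 7968000000)], [], [(nat_lit 25918935750), (nat_lit 28446408387), (nat_lit 27868468212), (nat_lit 30093901781), (nat_lit 25175955436), (nat_lit 27550332678), (nat_lit 26945120656), (nat_lit 28955752284)], (nat_lit 1271251), (nat_lit 1271251), (nat_lit 1100000),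 (nat_lit 1785001), (nat_lit 780000), (nat_lit 1100000), [(nat_lit 490000), (nat_lit 1100000), (nat_lit 1785001)], [(nat_lit 4), (nat_lit 51), (nat_lit 317), (nat_lit 100), (nat_lit 9)]⟩,
 ⟨⟨[(nat_lit 80), (nat_lit 140), (nat_lit 180)], [(nat_lit 0), (nat_lit 0), (nat_lit 3656)], [((nat_lit 0), (nat_lit 0), (nat_lit 0)), ((nat_lit 0), (nat_lit 0), (nat_lit 0)), ((nat_lit 637), (nat_lit 1000), (nat_lit 908))], ((nat_lit 100), (nat_lit 62), (nat_lit 92))⟩, (nat_lit 0), (nat_lit 364), (nat_lit 364), (nat_lit 0), (nat_lit 307738), [(nat_lit 4688000000), (nat_lit 9842000000), (nat_lit 14058000000)], [], [(nat_lit 37124489968), (nat_lit 38687290696), (nat_lit 40081035036), (nat_lit 40184572484), (nat_lit 39420315036), (nat_lit 39459090912), (nat_lit 46068985652), (nat_lit 41960680706)], (nat_lit 1271251), (nat_lit 1271251), (nat_lit 1100000), (nat_lit 1785001), (nat_lit 780000), (nat_lit 1435001), [(nat_lit 1100000), (nat_lit 2127501), (nat_lit 1271251)],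 [(nat_lit 19), (nat_lit 63), (nat_lit 428), (nat_lit 200), (nat_lit 10)]⟩,
 ⟨⟨[(nat_lit 140), (nat_lit 180), (nat_lit 200)], [(nat_lit 0), (nat_lit 0), (nat_lit 2835)], [((nat_lit 0), (nat_lit 0), (nat_lit 0)), ((nat_lit 0), (nat_lit 0), (nat_lit 0)), ((nat_lit 363), (nat_lit 1000), (nat_lit 798))], ((nat_lit 0), (nat_lit 0), (nat_lit 0))⟩, (nat_lit 24762), (nat_lit 300), (nat_lit 920), (nat_lit 7029000), (nat_lit 1094374), [(nat_lit 885780000), (nat_lit 1265220000), (nat_lit 1476000000)], [], [(nat_lit 5584310810), (nat_lit 5319071342), (nat_lit 5366552250), (nat_lit 5102693015), (nat_lit 5227201650), (nat_lit 5304878472), (nat_lit 5014427460), (nat_lit 5816325190)], (nat_lit 780000), (nat_lit 1271251), (nat_lit 780000), (nat_lit 1100000), (nat_lit 780000), (nat_lit 1435001), [(nat_lit 1977501), (nat_lit 1271251), (nat_lit 1271251)], [(nat_lit 32), (nat_lit 67), (nat_lit 373), (nat_lit 150), (nat_lit 8)]⟩⟩)) (.leaf ⟨(nat_lit 825), (nat_lit 175),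 (nat_lit 0), (nat_lit 0), (nat_lit 5834), (nat_lit 4111), (nat_lit 1379), (nat_lit 0), (nat_lit 0), (nat_lit 0), (nat_lit 206250), [((nat_lit 380), [((nat_lit 26), (nat_lit 0), (nat_lit 825))])], ⟨(nat_lit 6), false, false, false, (nat_lit 227), (nat_lit 2236), (nat_lit 3163), [(nat_lit 1483125), (nat_lit 1488302), (nat_lit 1527308), (nat_lit 1533723), (nat_lit 1605240), (nat_lit 1602541), (nat_lit 1649422), (nat_lit 1647962)]⟩, ⟨(nat_lit 4), false, false, true, (nat_lit 166), (nat_lit 2236), (nat_lit 3163), [(nat_lit 1350426), (nat_lit 1351886), (nat_lit 1416851), (nat_lit 1420169), (nat_lit 1411379), (nat_lit 1408901), (nat_lit 1477844), (nat_lit 1477224)]⟩, (nat_lit 4811145), (nat_lit 42732531), (nat_lit 15094511), (nat_lit 9172958), (nat_lit 4), (nat_lit 0), [], [], [], [],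
 ⟨⟨[(nat_lit 40), (nat_lit 80), (nat_lit 120)], [(nat_lit 0), (nat_lit 1598), (nat_lit 3468)], [((nat_lit 0), (nat_lit 0), (nat_lit 0)), ((nat_lit 1000), (nat_lit 625), (nat_lit 623)), ((nat_lit 1000), (nat_lit 604), (nat_lit 730))], ((nat_lit 61), (nat_lit 100), (nat_lit 91))⟩, (nat_lit 0), (nat_lit 80), (nat_lit 80), (nat_lit 0), (nat_lit 98495), [(nat_lit 1645397360), (nat_lit 2235440027), (nat_lit 3467460000)], [(nat_lit 0), (nat_lit 0), (nat_lit 0)], [(nat_lit 20652240427), (nat_lit 22223607005), (nat_lit 22886348181), (nat_lit 24248607544), (nat_lit 21769294304), (nat_lit 23236107275), (nat_lit 23820036096), (nat_lit 25095205474)], (nat_lit 1271251), (nat_lit 1271251), (nat_lit 1100000), (nat_lit 1785001), (nat_lit 1100000), (nat_lit 1442501), [(nat_lit 490000), (nat_lit 1100000), (nat_lit 1785001)], [(nat_lit 4), (nat_lit 51), (nat_lit 345), (nat_lit 125), (nat_lit 10)]⟩,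
 ⟨⟨[(nat_lit 80), (nat_lit 140), (nat_lit 180)], [(nat_lit 0), (nat_lit 0), (nat_lit 3656)], [((nat_lit 0), (nat_lit 0), (nat_lit 0)), ((nat_lit 0), (nat_lit 0), (nat_lit 0)), ((nat_lit 637), (nat_lit 1000), (nat_lit 908))], ((nat_lit 100), (nat_lit 62), (nat_lit 92))⟩, (nat_lit 99337), (nat_lit 462), (nat_lit 462), (nat_lit 0), (nat_lit 307738), [(nat_lit 820400000), (nat_lit 1722350000), (nat_lit 2460150000)], [], [(nat_lit 7628766712), (nat_lit 7909318984), (nat_lit 7803273352), (nat_lit 8033320372), (nat_lit 6663762098), (nat_lit 6875688302), (nat_lit 8260801318), (nat_lit 7003510479)], (nat_lit 1271251), (nat_lit 1271251), (nat_lit 1100000), (nat_lit 1785001), (nat_lit 0), (nat_lit 1412501), [(nat_lit 1100000), (nat_lit 2127501), (nat_lit 1271251)], [(nat_lit 19), (nat_lit 63), (nat_lit 428), (nat_lit 200), (nat_lit 10)]⟩,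
 Rw.none⟩))) (.stt (nat_lit 1) (.leaf ⟨(nat_lit 873), (nat_lit 75), (nat_lit 0), (nat_lit 52), (nat_lit 68), (nat_lit 3993), (nat_lit 2034), (nat_lit 600), (nat_lit 0), (nat_lit 0), (nat_lit 218250), [((nat_lit 380), [((nat_lit 26), (nat_lit 0), (nat_lit 873))])], ⟨(nat_lit 6), false, false, false, (nat_lit 227), (nat_lit 2236), (nat_lit 3163), [(nat_lit 1483125), (nat_lit 1488302), (nat_lit 1527308), (nat_lit 1533723), (nat_lit 1605240), (nat_lit 1602541), (nat_lit 1649422), (nat_lit 1647962)]⟩, ⟨(nat_lit 3), false, false, true, (nat_lit 154), (nat_lit 2236), (nat_lit 3163), [(nat_lit 1289472), (nat_lit 1294870), (nat_lit 1355794), (nat_lit 1363050), (nat_lit 1411379), (nat_lit 1408901), (nat_lit 1477844), (nat_lit 1477224)]⟩, (nat_lit 4699146), (nat_lit 43490140), (nat_lit 15252408), (nat_lit 8257452), (nat_lit 5), (nat_lit 0), [], [], [⟨(nat_lit 1), (nat_lit 55), (nat_lit 99), (nat_lit 100), (nat_lit 8467742)⟩], [],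
 ⟨⟨[(nat_lit 40), (nat_lit 80), (nat_lit 120)], [(nat_lit 0), (nat_lit 1598), (nat_lit 3468)], [((nat_lit 0), (nat_lit 0), (nat_lit 0)), ((nat_lit 1000), (nat_lit 625), (nat_lit 623)), ((nat_lit 1000), (nat_lit 604), (nat_lit 730))], ((nat_lit 61), (nat_lit 100), (nat_lit 91))⟩, (nat_lit 0), (nat_lit 65), (nat_lit 65), (nat_lit 0), (nat_lit 0), [(nat_lit 1600654201), (nat_lit 2092745606), (nat_lit 3205610400)], [(nat_lit 0), (nat_lit 0), (nat_lit 0)], [(nat_lit 20253432973), (nat_lit 21887803510), (nat_lit 22595420981), (nat_lit 24010675678), (nat_lit 21697340057), (nat_lit 23141878699), (nat_lit 23746444953), (nat_lit 25002848524)], (nat_lit 0), (nat_lit 0), (nat_lit 0), (nat_lit 0), (nat_lit 0), (nat_lit 0), [], [(nat_lit 4), (nat_lit 51), (nat_lit 345), (nat_lit 125), (nat_lit 10)]⟩,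
 ⟨⟨[(nat_lit 80), (nat_lit 140), (nat_lit 180)], [(nat_lit 0), (nat_lit 0), (nat_lit 3656)], [((nat_lit 0), (nat_lit 0), (nat_lit 0)), ((nat_lit 0), (nat_lit 0), (nat_lit 0)), ((nat_lit 637), (nat_lit 1000), (nat_lit 908))], ((nat_lit 100), (nat_lit 62), (nat_lit 92))⟩, (nat_lit 0), (nat_lit 294), (nat_lit 294), (nat_lit 0), (nat_lit 307738), [(nat_lit 595376000), (nat_lit 1249934000), (nat_lit 1785366000)], [], [(nat_lit 3607562010), (nat_lit 3982233578), (nat_lit 5273528140), (nat_lit 4055656467), (nat_lit 5358357048), (nat_lit 5479024902), (nat_lit 5138189596), (nat_lit 5213840888)], (nat_lit 1271251), (nat_lit 1271251), (nat_lit 1100000), (nat_lit 1785001), (nat_lit 1271251), (nat_lit 1271251), [(nat_lit 1100000), (nat_lit 2127501), (nat_lit 1271251)], [(nat_lit 19), (nat_lit 63), (nat_lit 483), (nat_lit 250), (nat_lit 11)]⟩,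
 ⟨⟨[(nat_lit 140), (nat_lit 180), (nat_lit 200)], [(nat_lit 0), (nat_lit 0), (nat_lit 2835)], [((nat_lit 0), (nat_lit 0), (nat_lit 0)), ((nat_lit 0), (nat_lit 0), (nat_lit 0)), ((nat_lit 363), (nat_lit 1000), (nat_lit 798))], ((nat_lit 0), (nat_lit 0), (nat_lit 0))⟩, (nat_lit 14307), (nat_lit 300), (nat_lit 1121), (nat_lit 4061200), (nat_lit 1627982), [(nat_lit 511784000), (nat_lit 731016000), (nat_lit 852800000)], [], [(nat_lit 3338017608), (nat_lit 3202611726), (nat_lit 3156104360), (nat_lit 3021181582), (nat_lit 3143358976), (nat_lit 3002710664), (nat_lit 2955049680), (nat_lit 2818354660)], (nat_lit 780000), (nat_lit 1271251), (nat_lit 780000), (nat_lit 1435001), (nat_lit 1271251), (nat_lit 1271251), [(nat_lit 1977501), (nat_lit 1271251), (nat_lit 1271251)], [(nat_lit 32), (nat_lit 67), (nat_lit 428), (nat_lit 200), (nat_lit 9)]⟩⟩) (.leaf ⟨(nat_lit 766), (nat_lit 85), (nat_lit 0), (nat_lit 149), (nat_lit 0), (nat_lit 3495), (nat_lit 4173), (nat_lit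 1778), (nat_lit 0), (nat_lit 0), (nat_lit 576800), [((nat_lit 380), [((nat_lit 41), (nat_lit 2), (nat_lit 473)), ((nat_lit 26), (nat_lit 2), (nat_lit 293))])], ⟨(nat_lit 6), false, false, false, (nat_lit 227), (nat_lit 2236), (nat_lit 3163), [(nat_lit 1483125), (nat_lit 1488302), (nat_lit 1527308), (nat_lit 1533723), (nat_lit 1605240), (nat_lit 1602541), (nat_lit 1649422), (nat_lit 1647962)]⟩, ⟨(nat_lit 3), false, false, true, (nat_lit 154), (nat_lit 2236), (nat_lit 3163), [(nat_lit 1289472), (nat_lit 1294870), (nat_lit 1355794), (nat_lit 1363050), (nat_lit 1411379), (nat_lit 1408901), (nat_lit 1477844), (nat_lit 1477224)]⟩, (nat_lit 4699146), (nat_lit 43490140), (nat_lit 15252408), (nat_lit 8257452), (nat_lit 5), (nat_lit 0), [], [], [], [],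
 ⟨⟨[(nat_lit 40), (nat_lit 80), (nat_lit 120)], [(nat_lit 0), (nat_lit 1598), (nat_lit 3468)], [((nat_lit 0), (nat_lit 0), (nat_lit 0)), ((nat_lit 1000), (nat_lit 625), (nat_lit 623)), ((nat_lit 1000), (nat_lit 604), (nat_lit 730))], ((nat_lit 61), (nat_lit 100), (nat_lit 91))⟩, (nat_lit 0), (nat_lit 148), (nat_lit 148), (nat_lit 0), (nat_lit 152931), [(nat_lit 1451238756), (nat_lit 863323331), (nat_lit 0)], [(nat_lit 0), (nat_lit 0), (nat_lit 615766000)], [(nat_lit 20144664671), (nat_lit 21420052873), (nat_lit 22063421810), (nat_lit 23498740468), (nat_lit 21387806971), (nat_lit 22555507420), (nat_lit 23235090070), (nat_lit 24610885330)], (nat_lit 1271251), (nat_lit 1271251), (nat_lit 1100000), (nat_lit 1785001), (nat_lit 780000), (nat_lit 1435001), [(nat_lit 490000), (nat_lit 1100000), (nat_lit 1785001)], [(nat_lit 4), (nat_lit 51), (nat_lit 345), (nat_lit 125), (nat_lit 10)]⟩,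
 ⟨⟨[(nat_lit 80), (nat_lit 140), (nat_lit 180)], [(nat_lit 0), (nat_lit 0), (nat_lit 3656)], [((nat_lit 0), (nat_lit 0), (nat_lit 0)), ((nat_lit 0), (nat_lit 0), (nat_lit 0)), ((nat_lit 637), (nat_lit 1000), (nat_lit 908))], ((nat_lit 100), (nat_lit 62), (nat_lit 92))⟩, (nat_lit 0), (nat_lit 239), (nat_lit 239), (nat_lit 0), (nat_lit 167115), [(nat_lit 1096992000), (nat_lit 2303028000), (nat_lit 3289572000)], [], [(nat_lit 6391137090), (nat_lit 7131165951), (nat_lit 9681891570), (nat_lit 7233445479), (nat_lit 9843596256), (nat_lit 10067187234), (nat_lit 9433286928), (nat_lit 10042185582)], (nat_lit 1271251), (nat_lit 1271251), (nat_lit 1100000), (nat_lit 1785001), (nat_lit 1271251), (nat_lit 1271251), [(nat_lit 1100000), (nat_lit 2127501), (nat_lit 1271251)], [(nat_lit 19), (nat_lit 63), (nat_lit 483), (nat_lit 250), (nat_lit 11)]⟩,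
 ⟨⟨[(nat_lit 140), (nat_lit 180), (nat_lit 200)], [(nat_lit 0), (nat_lit 0), (nat_lit 2835)], [((nat_lit 0), (nat_lit 0), (nat_lit 0)), ((nat_lit 0), (nat_lit 0), (nat_lit 0)), ((nat_lit 363), (nat_lit 1000), (nat_lit 798))], ((nat_lit 0), (nat_lit 0), (nat_lit 0))⟩, (nat_lit 40995), (nat_lit 300), (nat_lit 780), (nat_lit 11636900), (nat_lit 903800), [(nat_lit 1466458000), (nat_lit 2094642000), (nat_lit 2443600000)], [], [(nat_lit 8990156460), (nat_lit 8634080666), (nat_lit 8509282202), (nat_lit 8150400251), (nat_lit 8856644770), (nat_lit 8446785388), (nat_lit 8304190172), (nat_lit 7895093835)], (nat_lit 780000), (nat_lit 1271251), (nat_lit 780000), (nat_lit 1435001), (nat_lit 1271251), (nat_lit 1271251), [(nat_lit 1977501), (nat_lit 1271251), (nat_lit 1271251)], [(nat_lit 32), (nat_lit 67), (nat_lit 428), (nat_lit 200), (nat_lit 9)]⟩⟩)))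
noncomputable def c17_106 : Tr Lf :=
 (.spl (nat_lit 2) (nat_lit 160) (.trX (nat_lit 4) (nat_lit 0) (nat_lit 2) (nat_lit 61) (nat_lit 92) (nat_lit 100) (nat_lit 290) (.trX (nat_lit 5) (nat_lit 1) (nat_lit 2) (nat_lit 100) (nat_lit 40) (nat_lit 100) (nat_lit 390) (.spl (nat_lit 3) (nat_lit 140) (.leaf ⟨(nat_lit 1000), (nat_lit 0), (nat_lit 0), (nat_lit 0), (nat_lit 40428), (nat_lit 3379), (nat_lit 0), (nat_lit 0), (nat_lit 0), (nat_lit 0), (nat_lit 532800), [((nat_lit 380), [((nat_lit 26), (nat_lit 1), (nat_lit 336)), ((nat_lit 41), (nat_lit 2), (nat_lit 664))])], ⟨(nat_lit 6), false, false, false, (nat_lit 183), (nat_lit 2236), (nat_lit 3163), [(nat_lit 1406804), (nat_lit 1416903), (nat_lit 1450987), (nat_lit 1462324), (nat_lit 1452597), (nat_lit 1459742), (nat_lit 1496780), (nat_lit 1505164)]⟩, ⟨(nat_lit 5), false, false, true, (nat_lit 200), (nat_lit 2236), (nat_lit 3163), [(nat_lit 1411379), (nat_lit 1408901), (nat_lit 1455689), (nat_lit 1454450),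 (nat_lit 1548524), (nat_lit 1537186), (nat_lit 1592834), (nat_lit 1582735)]⟩, (nat_lit 4767347), (nat_lit 43727202), (nat_lit 10816797), (nat_lit 12456001), (nat_lit 0), (nat_lit 0), [⟨(nat_lit 0), (nat_lit 98), (nat_lit 54), (nat_lit 100), (nat_lit 1911902488)⟩], [⟨(nat_lit 1), (nat_lit 100), (nat_lit 54), (nat_lit 98), (nat_lit 338314995)⟩], [], [],
 ⟨⟨[(nat_lit 40), (nat_lit 80), (nat_lit 120)], [(nat_lit 0), (nat_lit 1598), (nat_lit 3468)], [((nat_lit 0), (nat_lit 0), (nat_lit 0)), ((nat_lit 1000), (nat_lit 625), (nat_lit 623)), ((nat_lit 1000), (nat_lit 604), (nat_lit 730))], ((nat_lit 61), (nat_lit 100), (nat_lit 91))⟩, (nat_lit 0), (nat_lit 155), (nat_lit 155), (nat_lit 0), (nat_lit 151730), [(nat_lit 1323430401), (nat_lit 666560180), (nat_lit 0)], [(nat_lit 0), (nat_lit 0), (nat_lit 721504000)], [(nat_lit 20955495170), (nat_lit 22192209258), (nat_lit 21157258053), (nat_lit 22349082255), (nat_lit 24168936762), (nat_lit 25548898028), (nat_lit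 24289976402), (nat_lit 25620308580)], (nat_lit 1271251), (nat_lit 1271251), (nat_lit 704688), (nat_lit 936250), (nat_lit 1271251), (nat_lit 1271251), [(nat_lit 490000), (nat_lit 1100000), (nat_lit 1785001)], [(nat_lit 4), (nat_lit 51), (nat_lit 345), (nat_lit 125), (nat_lit 10)]⟩,
 Rw.none,
 Rw.none⟩) (.spl (nat_lit 6) (nat_lit 96) (.stt (nat_lit 1) (.leaf ⟨(nat_lit 1000), (nat_lit 0), (nat_lit 0), (nat_lit 0), (nat_lit 16995), (nat_lit 3695), (nat_lit 0), (nat_lit 0), (nat_lit 0), (nat_lit 0), (nat_lit 250000), [((nat_lit 380), [((nat_lit 26), (nat_lit 0), (nat_lit 1000))])], ⟨(nat_lit 6), false, false, false, (nat_lit 197), (nat_lit 2236), (nat_lit 3163), [(nat_lit 1452597), (nat_lit 1459742), (nat_lit 1496780), (nat_lit 1505164), (nat_lit 1483125), (nat_lit 1488302), (nat_lit 1527308), (nat_lit 1533723)]⟩, ⟨(nat_lit 5), false, false, true, (nat_lit 200), (nat_lit 2236), (nat_lit 3163), [(nat_lit 1411379), (nat_lit 1408901), (nat_lit 1455689),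 (nat_lit 1454450), (nat_lit 1548524), (nat_lit 1537186), (nat_lit 1592834), (nat_lit 1582735)]⟩, (nat_lit 4887229), (nat_lit 42660625), (nat_lit 12060237), (nat_lit 12279138), (nat_lit 0), (nat_lit 0), [⟨(nat_lit 0), (nat_lit 98), (nat_lit 54), (nat_lit 100), (nat_lit 573149444)⟩], [⟨(nat_lit 1), (nat_lit 100), (nat_lit 54), (nat_lit 98), (nat_lit 294674401)⟩], [], [],
 ⟨⟨[(nat_lit 40), (nat_lit 80), (nat_lit 120)], [(nat_lit 0), (nat_lit 1598), (nat_lit 3468)], [((nat_lit 0), (nat_lit 0), (nat_lit 0)), ((nat_lit 1000), (nat_lit 625), (nat_lit 623)), ((nat_lit 1000), (nat_lit 604), (nat_lit 730))], ((nat_lit 60), (nat_lit 100), (nat_lit 86))⟩, (nat_lit 0), (nat_lit 70), (nat_lit 70), (nat_lit 0), (nat_lit 0), [(nat_lit 1531200037), (nat_lit 1715200032), (nat_lit 2512800000)], [(nat_lit 0), (nat_lit 0), (nat_lit 0)], [(nat_lit 21368381959), (nat_lit 22765972132), (nat_lit 21546495689), (nat_lit 22886729920), (nat_lit 24578247007), (nat_lit 25967123024),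 (nat_lit 24627021572), (nat_lit 25980709124)], (nat_lit 0), (nat_lit 0), (nat_lit 0), (nat_lit 0), (nat_lit 0), (nat_lit 0), [], [(nat_lit 4), (nat_lit 51), (nat_lit 345), (nat_lit 125), (nat_lit 10)]⟩,
 Rw.none,
 Rw.none⟩) (.spl (nat_lit 5) (nat_lit 120) (.spl (nat_lit 1) (nat_lit 260) (.leaf ⟨(nat_lit 0), (nat_lit 977), (nat_lit 0), (nat_lit 23), (nat_lit 33930), (nat_lit 4361), (nat_lit 6345), (nat_lit 467), (nat_lit 0), (nat_lit 0), (nat_lit 0), [], Pd.none, Pd.none, (nat_lit 0), (nat_lit 1), (nat_lit 0), (nat_lit 0), (nat_lit 5), (nat_lit 0), [⟨(nat_lit 0), (nat_lit 100), (nat_lit 54), (nat_lit 99), (nat_lit 908451060)⟩, ⟨(nat_lit 0), (nat_lit 96), (nat_lit 44), (nat_lit 100), (nat_lit 136417743)⟩], [⟨(nat_lit 1), (nat_lit 100), (nat_lit 54), (nat_lit 98), (nat_lit 679171536)⟩], [], [],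
 ⟨⟨[(nat_lit 40), (nat_lit 80), (nat_lit 120)], [(nat_lit 0), (nat_lit 1598), (nat_lit 3468)], [((nat_lit 0), (nat_lit 0), (nat_lit 0)), ((nat_lit 1000), (nat_lit 625), (nat_lit 623)), ((nat_lit 1000), (nat_lit 604), (nat_lit 730))], ((nat_lit 60), (nat_lit 100), (nat_lit 86))⟩, (nat_lit 1971409), (nat_lit 129), (nat_lit 129), (nat_lit 0), (nat_lit 94885), [(nat_lit 2032001183), (nat_lit 5182639922), (nat_lit 7968000000)], [], [(nat_lit 22515667921), (nat_lit 23864558236), (nat_lit 22569344407), (nat_lit 23882389986), (nat_lit 25359321893), (nat_lit 26698067390), (nat_lit 25339411759), (nat_lit 26639951138)], (nat_lit 1271251), (nat_lit 1271251), (nat_lit 936250), (nat_lit 1100000), (nat_lit 1271251), (nat_lit 1271251), [(nat_lit 490000), (nat_lit 1100000), (nat_lit 1785001)], [(nat_lit 4), (nat_lit 51), (nat_lit 345), (nat_lit 125), (nat_lit 10)]⟩,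
 ⟨⟨[(nat_lit 80), (nat_lit 140), (nat_lit 180)], [(nat_lit 0), (nat_lit 0), (nat_lit 3656)], [((nat_lit 0), (nat_lit 0), (nat_lit 0)), ((nat_lit 0), (nat_lit 0), (nat_lit 0)), ((nat_lit 637), (nat_lit 1000), (nat_lit 908))], ((nat_lit 100), (nat_lit 69), (nat_lit 87))⟩, (nat_lit 1111087), (nat_lit 379), (nat_lit 379), (nat_lit 0), (nat_lit 79349), [(nat_lit 4688000000), (nat_lit 9842000000), (nat_lit 14058000000)], [], [(nat_lit 34009712238), (nat_lit 35082689002), (nat_lit 33933541668), (nat_lit 34922047663), (nat_lit 30396240388), (nat_lit 31309444790), (nat_lit 31846518220), (nat_lit 31232784518)], (nat_lit 1271251), (nat_lit 1271251), (nat_lit 936250), (nat_lit 1100000), (nat_lit 0), (nat_lit 780000), [(nat_lit 1100000), (nat_lit 2127501), (nat_lit 1271251)], [(nat_lit 19), (nat_lit 63), (nat_lit 373), (nat_lit 150), (nat_lit 9)]⟩,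
 ⟨⟨[(nat_lit 140), (nat_lit 180), (nat_lit 200)], [(nat_lit 0), (nat_lit 0), (nat_lit 2835)], [((nat_lit 0), (nat_lit 0), (nat_lit 0)), ((nat_lit 0), (nat_lit 0), (nat_lit 0)), ((nat_lit 363), (nat_lit 1000), (nat_lit 798))], ((nat_lit 0), (nat_lit 0), (nat_lit 0))⟩, (nat_lit 6328), (nat_lit 300), (nat_lit 561), (nat_lit 1796301), (nat_lit 234956), [(nat_lit 226366000), (nat_lit 323334000), (nat_lit 377200000)], [], [(nat_lit 1565039602), (nat_lit 1488172412), (nat_lit 1551432784), (nat_lit 1469373705), (nat_lit 1125271962), (nat_lit 1063512427), (nat_lit 1109721929), (nat_lit 1033930902)], (nat_lit 780000), (nat_lit 1100000), (nat_lit 1271251), (nat_lit 1271251), (nat_lit 0), (nat_lit 780000), [(nat_lit 1977501), (nat_lit 1271251), (nat_lit 1271251)], [(nat_lit 32), (nat_lit 67), (nat_lit 373), (nat_lit 150), (nat_lit 8)]⟩⟩) (.leaf ⟨(nat_lit 0), (nat_lit 1000), (nat_lit 0), (nat_lit 0), (nat_lit 34980), (nat_lit 8701), (nat_lit 13631), (nat_lit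 0), (nat_lit 0), (nat_lit 0), (nat_lit 0), [], Pd.none, Pd.none, (nat_lit 0), (nat_lit 1), (nat_lit 0), (nat_lit 0), (nat_lit 5), (nat_lit 0), [⟨(nat_lit 0), (nat_lit 96), (nat_lit 54), (nat_lit 100), (nat_lit 1787308039)⟩], [⟨(nat_lit 1), (nat_lit 100), (nat_lit 54), (nat_lit 98), (nat_lit 771304714)⟩], [⟨(nat_lit 0), (nat_lit 100), (nat_lit 98), (nat_lit 6), (nat_lit 285266014)⟩], [],
 ⟨⟨[(nat_lit 40), (nat_lit 80), (nat_lit 120)], [(nat_lit 0), (nat_lit 1598), (nat_lit 3468)], [((nat_lit 0), (nat_lit 0), (nat_lit 0)), ((nat_lit 1000), (nat_lit 625), (nat_lit 623)), ((nat_lit 1000), (nat_lit 604), (nat_lit 730))], ((nat_lit 60), (nat_lit 100), (nat_lit 86))⟩, (nat_lit 337815), (nat_lit 145), (nat_lit 145), (nat_lit 0), (nat_lit 150798), [(nat_lit 2846562112), (nat_lit 6540409612), (nat_lit 7968000000)], [], [(nat_lit 25996618448), (nat_lit 28039670606), (nat_lit 25693053259), (nat_lit 27674105128), (nat_lit 29379526100), (nat_lit 31461278421),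 (nat_lit 28955282036), (nat_lit 30935912616)], (nat_lit 1271251), (nat_lit 1271251), (nat_lit 936250), (nat_lit 1100000), (nat_lit 1271251), (nat_lit 1271251), [(nat_lit 490000), (nat_lit 1100000), (nat_lit 1785001)], [(nat_lit 4), (nat_lit 51), (nat_lit 345), (nat_lit 125), (nat_lit 10)]⟩,
 ⟨⟨[(nat_lit 80), (nat_lit 140), (nat_lit 180)], [(nat_lit 0), (nat_lit 792), (nat_lit 4228)], [((nat_lit 0), (nat_lit 0), (nat_lit 0)), ((nat_lit 1000), (nat_lit 959), (nat_lit 206)), ((nat_lit 709), (nat_lit 1000), (nat_lit 949))], ((nat_lit 100), (nat_lit 79), (nat_lit 90))⟩, (nat_lit 4635619), (nat_lit 392), (nat_lit 392), (nat_lit 0), (nat_lit 109892), [(nat_lit 4688000000), (nat_lit 9842000000), (nat_lit 14058000000)], [], [(nat_lit 25142343176), (nat_lit 26914801610), (nat_lit 24517626377), (nat_lit 25993983184), (nat_lit 15341938432), (nat_lit 16677032341), (nat_lit 14772085745), (nat_lit 16055318930)], (nat_lit 1271251), (nat_lit 1271251), (nat_lit 936250),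 (nat_lit 1100000), (nat_lit 0), (nat_lit 780000), [(nat_lit 1100000), (nat_lit 2127501), (nat_lit 1271251)], [(nat_lit 19), (nat_lit 63), (nat_lit 373), (nat_lit 150), (nat_lit 9)]⟩,
 Rw.none⟩)) (.spl (nat_lit 0) (nat_lit 370) (.leaf ⟨(nat_lit 0), (nat_lit 181), (nat_lit 0), (nat_lit 819), (nat_lit 0), (nat_lit 10876), (nat_lit 6926), (nat_lit 11714), (nat_lit 0), (nat_lit 0), (nat_lit 0), [], Pd.none, Pd.none, (nat_lit 0), (nat_lit 1), (nat_lit 0), (nat_lit 0), (nat_lit 5), (nat_lit 0), [⟨(nat_lit 0), (nat_lit 100), (nat_lit 59), (nat_lit 100), (nat_lit 1276788569)⟩], [], [], [],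
 ⟨⟨[(nat_lit 40), (nat_lit 80), (nat_lit 120)], [(nat_lit 0), (nat_lit 1598), (nat_lit 3468)], [((nat_lit 0), (nat_lit 0), (nat_lit 0)), ((nat_lit 1000), (nat_lit 625), (nat_lit 623)), ((nat_lit 1000), (nat_lit 604), (nat_lit 730))], ((nat_lit 60), (nat_lit 100), (nat_lit 86))⟩, (nat_lit 0), (nat_lit 121), (nat_lit 121), (nat_lit 0), (nat_lit 82009), [(nat_lit 4009236190), (nat_lit 7518251840), (nat_lit 7968000000)], [], [(nat_lit 26073467599), (nat_lit 27303376622), (nat_lit 25590870004), (nat_lit 26748782307), (nat_lit 31129105280), (nat_lit 32488738394), (nat_lit 30452541397), (nat_lit 31770692008)], (nat_lit 1271251), (nat_lit 1271251), (nat_lit 936250), (nat_lit 1100000), (nat_lit 1271251), (nat_lit 1271251), [(nat_lit 490000), (nat_lit 1100000), (nat_lit 1785001)], [(nat_lit 4), (nat_lit 51), (nat_lit 345), (nat_lit 125), (nat_lit 10)]⟩,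
 ⟨⟨[(nat_lit 80), (nat_lit 140), (nat_lit 180)], [(nat_lit 0), (nat_lit 0), (nat_lit 3656)], [((nat_lit 0), (nat_lit 0), (nat_lit 0)), ((nat_lit 0), (nat_lit 0), (nat_lit 0)), ((nat_lit 637), (nat_lit 1000), (nat_lit 908))], ((nat_lit 100), (nat_lit 69), (nat_lit 87))⟩, (nat_lit 1190260), (nat_lit 214), (nat_lit 214), (nat_lit 0), (nat_lit 85135), [(nat_lit 4688000000), (nat_lit 9842000000), (nat_lit 14058000000)], [], [(nat_lit 29547421812), (nat_lit 31221327843), (nat_lit 31271604776), (nat_lit 31037520856), (nat_lit 55690325699), (nat_lit 49555902135), (nat_lit 57755489600), (nat_lit 51660502247)], (nat_lit 1271251), (nat_lit 1271251), (nat_lit 936250), (nat_lit 1100000), (nat_lit 780000), (nat_lit 2990626), [(nat_lit 1100000), (nat_lit 2127501), (nat_lit 1271251)], [(nat_lit 19), (nat_lit 63), (nat_lit 456), (nat_lit 225), (nat_lit 10)]⟩,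
 ⟨⟨[(nat_lit 140), (nat_lit 180), (nat_lit 200)], [(nat_lit 0), (nat_lit 0), (nat_lit 2835)], [((nat_lit 0), (nat_lit 0), (nat_lit 0)), ((nat_lit 0), (nat_lit 0), (nat_lit 0)), ((nat_lit 363), (nat_lit 1000), (nat_lit 798))], ((nat_lit 0), (nat_lit 0), (nat_lit 0))⟩, (nat_lit 225333), (nat_lit 300), (nat_lit 561), (nat_lit 63963905), (nat_lit 471866), [(nat_lit 8060598000), (nat_lit 11513502000), (nat_lit 13431600000)], [], [(nat_lit 43163070616), (nat_lit 41563421700), (nat_lit 43220211768), (nat_lit 41479750075), (nat_lit 42359878234), (nat_lit 44226383427), (nat_lit 40797456068), (nat_lit 38753171767)], (nat_lit 780000), (nat_lit 1100000), (nat_lit 1271251), (nat_lit 1271251), (nat_lit 780000), (nat_lit 2990626), [(nat_lit 1977501), (nat_lit 1271251), (nat_lit 1271251)], [(nat_lit 32), (nat_lit 67), (nat_lit 456), (nat_lit 225), (nat_lit 10)]⟩⟩) (.trX (nat_lit 4) (nat_lit 0) (nat_lit 2) (nat_lit 54) (nat_lit 96) (nat_lit 100) (nat_lit 270) (.leaf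 ⟨(nat_lit 865), (nat_lit 30), (nat_lit 0), (nat_lit 105), (nat_lit 7901), (nat_lit 6192), (nat_lit 980), (nat_lit 1291), (nat_lit 0), (nat_lit 0), (nat_lit 216250), [((nat_lit 380), [((nat_lit 26), (nat_lit 0), (nat_lit 865))])], ⟨(nat_lit 6), false, false, false, (nat_lit 198), (nat_lit 2236), (nat_lit 2739), [(nat_lit 1456150), (nat_lit 1459932), (nat_lit 1500944), (nat_lit 1505440), (nat_lit 1485697), (nat_lit 1488457), (nat_lit 1530492), (nat_lit 1533965)]⟩, ⟨(nat_lit 5), false, false, true, (nat_lit 193), (nat_lit 2236), (nat_lit 2739), [(nat_lit 1410329), (nat_lit 1408901), (nat_lit 1455164), (nat_lit 1454450), (nat_lit 1513686), (nat_lit 1508679), (nat_lit 1558521), (nat_lit 1554227)]⟩, (nat_lit 4843264), (nat_lit 43073415), (nat_lit 12198794), (nat_lit 11727791), (nat_lit 5), (nat_lit 0), [⟨(nat_lit 0), (nat_lit 97), (nat_lit 49), (nat_lit 100), (nat_lit 1124680215)⟩], [⟨(nat_lit 1), (nat_lit 100), (nat_lit 49), (nat_lit 97), (nat_lit 179751090)⟩],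 [], [],
 ⟨⟨[(nat_lit 40), (nat_lit 80), (nat_lit 120)], [(nat_lit 0), (nat_lit 2008), (nat_lit 3930)], [((nat_lit 0), (nat_lit 0), (nat_lit 0)), ((nat_lit 1000), (nat_lit 540), (nat_lit 733)), ((nat_lit 1000), (nat_lit 536), (nat_lit 751))], ((nat_lit 53), (nat_lit 100), (nat_lit 85))⟩, (nat_lit 0), (nat_lit 142), (nat_lit 142), (nat_lit 0), (nat_lit 148426), [(nat_lit 2095505663), (nat_lit 3526207659), (nat_lit 3249252000)], [(nat_lit 0), (nat_lit 0), (nat_lit 0)], [(nat_lit 24533085678), (nat_lit 25353960597), (nat_lit 24412605944), (nat_lit 25210041120), (nat_lit 26656469532), (nat_lit 27631838487), (nat_lit 26457326686), (nat_lit 27405015000)], (nat_lit 1271251), (nat_lit 1271251), (nat_lit 936250), (nat_lit 1100000), (nat_lit 1271251), (nat_lit 1271251), [(nat_lit 490000), (nat_lit 1100000), (nat_lit 1785001)], [(nat_lit 4), (nat_lit 51), (nat_lit 345), (nat_lit 125), (nat_lit 10)]⟩,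
 ⟨⟨[(nat_lit 80), (nat_lit 140), (nat_lit 180)], [(nat_lit 0), (nat_lit 0), (nat_lit 3656)], [((nat_lit 0), (nat_lit 0), (nat_lit 0)), ((nat_lit 0), (nat_lit 0), (nat_lit 0)), ((nat_lit 637), (nat_lit 1000), (nat_lit 908))], ((nat_lit 100), (nat_lit 69), (nat_lit 87))⟩, (nat_lit 78214), (nat_lit 244), (nat_lit 244), (nat_lit 0), (nat_lit 161948), [(nat_lit 632880000), (nat_lit 1328670000), (nat_lit 1897830000)], [], [(nat_lit 4196814341), (nat_lit 4507437610), (nat_lit 4177326746), (nat_lit 4478717896), (nat_lit 7579110233), (nat_lit 6711114984), (nat_lit 7867067520), (nat_lit 7004652330)], (nat_lit 1271251), (nat_lit 1271251), (nat_lit 936250), (nat_lit 1100000), (nat_lit 780000), (nat_lit 2990626), [(nat_lit 1100000), (nat_lit 2127501), (nat_lit 1271251)], [(nat_lit 19), (nat_lit 63), (nat_lit 456), (nat_lit 225), (nat_lit 10)]⟩,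
 ⟨⟨[(nat_lit 140), (nat_lit 180), (nat_lit 200)], [(nat_lit 0), (nat_lit 0), (nat_lit 2835)], [((nat_lit 0), (nat_lit 0), (nat_lit 0)), ((nat_lit 0), (nat_lit 0), (nat_lit 0)), ((nat_lit 363), (nat_lit 1000), (nat_lit 798))], ((nat_lit 0), (nat_lit 0), (nat_lit 0))⟩, (nat_lit 28889), (nat_lit 300), (nat_lit 777), (nat_lit 8200500), (nat_lit 896048), [(nat_lit 1033410000), (nat_lit 1476090000), (nat_lit 1722000000)], [], [(nat_lit 6257984429), (nat_lit 6059151416), (nat_lit 6117097813), (nat_lit 5912931371), (nat_lit 5740555848), (nat_lit 5521188779), (nat_lit 5526938873), (nat_lit 5305165575)], (nat_lit 780000), (nat_lit 1100000), (nat_lit 1271251), (nat_lit 1271251), (nat_lit 780000), (nat_lit 2990626), [(nat_lit 1977501), (nat_lit 1271251), (nat_lit 1271251)], [(nat_lit 32), (nat_lit 67), (nat_lit 456), (nat_lit 225), (nat_lit 10)]⟩⟩))))) (.leaf ⟨(nat_lit 1000), (nat_lit 0), (nat_lit 0), (nat_lit 0), (nat_lit 300000), (nat_lit 6013), (nat_lit 0),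 (nat_lit 0), (nat_lit 0), (nat_lit 0), (nat_lit 250000), [((nat_lit 380), [((nat_lit 26), (nat_lit 0), (nat_lit 1000))])], ⟨(nat_lit 6), false, false, false, (nat_lit 197), (nat_lit 2236), (nat_lit 3163), [(nat_lit 1452597), (nat_lit 1459742), (nat_lit 1496780), (nat_lit 1505164), (nat_lit 1483125), (nat_lit 1488302), (nat_lit 1527308), (nat_lit 1533723)]⟩, ⟨(nat_lit 5), false, false, true, (nat_lit 200), (nat_lit 2236), (nat_lit 3163), [(nat_lit 1411379), (nat_lit 1408901), (nat_lit 1455689), (nat_lit 1454450), (nat_lit 1548524), (nat_lit 1537186), (nat_lit 1592834), (nat_lit 1582735)]⟩, (nat_lit 4887229), (nat_lit 42660625), (nat_lit 12060237), (nat_lit 12279138), (nat_lit 0), (nat_lit 0), [⟨(nat_lit 0), (nat_lit 92), (nat_lit 44), (nat_lit 100), (nat_lit 11386662937)⟩], [⟨(nat_lit 1), (nat_lit 100), (nat_lit 54), (nat_lit 98), (nat_lit 388892113)⟩], [], [],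
 ⟨⟨[(nat_lit 40), (nat_lit 80), (nat_lit 120)], [(nat_lit 0), (nat_lit 1598), (nat_lit 3468)], [((nat_lit 0), (nat_lit 0), (nat_lit 0)), ((nat_lit 1000), (nat_lit 625), (nat_lit 623)), ((nat_lit 1000), (nat_lit 604), (nat_lit 730))], ((nat_lit 61), (nat_lit 100), (nat_lit 91))⟩, (nat_lit 0), (nat_lit 104), (nat_lit 104), (nat_lit 0), (nat_lit 55432), [(nat_lit 2835521314), (nat_lit 3586857098), (nat_lit 2512800000)], [(nat_lit 0), (nat_lit 0), (nat_lit 0)], [(nat_lit 23065850756), (nat_lit 24690837809), (nat_lit 22983544927), (nat_lit 24551314508), (nat_lit 26692839609), (nat_lit 28511160621), (nat_lit 26507477630), (nat_lit 28275188088)], (nat_lit 1271251), (nat_lit 1271251), (nat_lit 936250), (nat_lit 1100000), (nat_lit 1271251), (nat_lit 1271251), [(nat_lit 490000), (nat_lit 1100000), (nat_lit 1785001)], [(nat_lit 4), (nat_lit 51), (nat_lit 345), (nat_lit 125), (nat_lit 10)]⟩,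
 Rw.none,
 Rw.none⟩))))) (.spl (nat_lit 6) (nat_lit 88) (.leaf ⟨(nat_lit 1000), (nat_lit 0), (nat_lit 0), (nat_lit 0), (nat_lit 300000), (nat_lit 3358), (nat_lit 0), (nat_lit 0), (nat_lit 0), (nat_lit 0), (nat_lit 454400), [((nat_lit 380), [((nat_lit 26), (nat_lit 1), (nat_lit 728)), ((nat_lit 41), (nat_lit 2), (nat_lit 272))])], ⟨(nat_lit 6), false, false, false, (nat_lit 188), (nat_lit 2236), (nat_lit 3163), [(nat_lit 1406804), (nat_lit 1416903), (nat_lit 1450987), (nat_lit 1462324), (nat_lit 1483125), (nat_lit 1488302), (nat_lit 1527308), (nat_lit 1533723)]⟩, ⟨(nat_lit 5), false, false, true, (nat_lit 219), (nat_lit 2236), (nat_lit 3163), [(nat_lit 1455689), (nat_lit 1454450), (nat_lit 1477844), (nat_lit 1477224), (nat_lit 1623310), (nat_lit 1611243), (nat_lit 1645465), (nat_lit 1634017)]⟩, (nat_lit 4954304), (nat_lit 41844519), (nat_lit 11084072), (nat_lit 14071409), (nat_lit 0), (nat_lit 0), [⟨(nat_lit 0), (nat_lit 92), (nat_lit 44), (nat_lit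 100), (nat_lit 10450100832)⟩], [⟨(nat_lit 1), (nat_lit 93), (nat_lit 53), (nat_lit 100), (nat_lit 261358667)⟩], [], [],
 ⟨⟨[(nat_lit 40), (nat_lit 80), (nat_lit 120)], [(nat_lit 0), (nat_lit 1598), (nat_lit 3468)], [((nat_lit 0), (nat_lit 0), (nat_lit 0)), ((nat_lit 1000), (nat_lit 625), (nat_lit 623)), ((nat_lit 1000), (nat_lit 604), (nat_lit 730))], ((nat_lit 60), (nat_lit 100), (nat_lit 83))⟩, (nat_lit 0), (nat_lit 130), (nat_lit 130), (nat_lit 0), (nat_lit 49352), [(nat_lit 1357299254), (nat_lit 1350619700), (nat_lit 174608000)], [(nat_lit 0), (nat_lit 0), (nat_lit 0)], [(nat_lit 21884738067), (nat_lit 23092749141), (nat_lit 22265594260), (nat_lit 23359567985), (nat_lit 25399911958), (nat_lit 26406237846), (nat_lit 25543077391), (nat_lit 26484360568)], (nat_lit 1271251), (nat_lit 1271251), (nat_lit 704688), (nat_lit 1100000), (nat_lit 1271251), (nat_lit 1271251), [(nat_lit 490000), (nat_lit 1100000), (nat_lit 1785001)], [(nat_lit 4), (nat_lit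 51), (nat_lit 345), (nat_lit 125), (nat_lit 10)]⟩,
 Rw.none,
 Rw.none⟩) (.dle (nat_lit 0))))
def l034 : List St := [⟨⟨(nat_lit 370), (nat_lit 380), (nat_lit 240), (nat_lit 320), (nat_lit 120), (nat_lit 180), (nat_lit 110), (nat_lit 160), (nat_lit 200), (nat_lit 310), (nat_lit 0), (nat_lit 400), (nat_lit 40), (nat_lit 76)⟩, (nat_lit 0), (nat_lit 3), (nat_lit 3), false, false, false⟩,
  ⟨⟨(nat_lit 360), (nat_lit 380), (nat_lit 240), (nat_lit 280), (nat_lit 120), (nat_lit 160), (nat_lit 160), (nat_lit 240), (nat_lit 200), (nat_lit 290), (nat_lit 0), (nat_lit 390), (nat_lit 40), (nat_lit 76)⟩, (nat_lit 0), (nat_lit 3), (nat_lit 3), false, false, false⟩,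
  ⟨⟨(nat_lit 360), (nat_lit 380), (nat_lit 280), (nat_lit 320), (nat_lit 120), (nat_lit 160), (nat_lit 160), (nat_lit 240), (nat_lit 200), (nat_lit 290), (nat_lit 0), (nat_lit 390), (nat_lit 40), (nat_lit 76)⟩, (nat_lit 0), (nat_lit 3), (nat_lit 3), false, false, false⟩,
  ⟨⟨(nat_lit 360), (nat_lit 380), (nat_lit 240), (nat_lit 280), (nat_lit 160), (nat_lit 180), (nat_lit 160), (nat_lit 240), (nat_lit 200), (nat_lit 310), (nat_lit 0), (nat_lit 400), (nat_lit 40), (nat_lit 76)⟩, (nat_lit 0), (nat_lit 3), (nat_lit 3), false, false, false⟩,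
  ⟨⟨(nat_lit 360), (nat_lit 380), (nat_lit 280), (nat_lit 320), (nat_lit 160), (nat_lit 180), (nat_lit 160), (nat_lit 240), (nat_lit 200), (nat_lit 310), (nat_lit 0), (nat_lit 400), (nat_lit 40), (nat_lit 76)⟩, (nat_lit 0), (nat_lit 3), (nat_lit 3), false, false, false⟩,
  ⟨⟨(nat_lit 360), (nat_lit 380), (nat_lit 240), (nat_lit 260), (nat_lit 120), (nat_lit 180), (nat_lit 110), (nat_lit 240), (nat_lit 200), (nat_lit 310), (nat_lit 0), (nat_lit 120), (nat_lit 40), (nat_lit 76)⟩, (nat_lit 1), (nat_lit 0), (nat_lit 3), false, false, true⟩,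
  ⟨⟨(nat_lit 360), (nat_lit 380), (nat_lit 240), (nat_lit 260), (nat_lit 120), (nat_lit 180), (nat_lit 110), (nat_lit 160), (nat_lit 200), (nat_lit 310), (nat_lit 0), (nat_lit 120), (nat_lit 40), (nat_lit 76)⟩, (nat_lit 1), (nat_lit 1), (nat_lit 3), false, false, true⟩,
  ⟨⟨(nat_lit 360), (nat_lit 380), (nat_lit 240), (nat_lit 260), (nat_lit 120), (nat_lit 180), (nat_lit 160), (nat_lit 240), (nat_lit 200), (nat_lit 310), (nat_lit 0), (nat_lit 120), (nat_lit 40), (nat_lit 76)⟩, (nat_lit 1), (nat_lit 1), (nat_lit 3), false, false, true⟩,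
  ⟨⟨(nat_lit 360), (nat_lit 380), (nat_lit 260), (nat_lit 280), (nat_lit 120), (nat_lit 180), (nat_lit 110), (nat_lit 240), (nat_lit 200), (nat_lit 310), (nat_lit 0), (nat_lit 120), (nat_lit 40), (nat_lit 76)⟩, (nat_lit 1), (nat_lit 3), (nat_lit 3), false, false, true⟩,
  ⟨⟨(nat_lit 360), (nat_lit 380), (nat_lit 240), (nat_lit 280), (nat_lit 120), (nat_lit 180), (nat_lit 110), (nat_lit 240), (nat_lit 200), (nat_lit 310), (nat_lit 120), (nat_lit 400), (nat_lit 40), (nat_lit 76)⟩, (nat_lit 1), (nat_lit 3), (nat_lit 3), false, false, false⟩,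
  ⟨⟨(nat_lit 360), (nat_lit 380), (nat_lit 280), (nat_lit 320), (nat_lit 120), (nat_lit 180), (nat_lit 110), (nat_lit 240), (nat_lit 200), (nat_lit 310), (nat_lit 0), (nat_lit 400), (nat_lit 40), (nat_lit 76)⟩, (nat_lit 1), (nat_lit 3), (nat_lit 3), false, false, false⟩,
  ⟨⟨(nat_lit 360), (nat_lit 380), (nat_lit 240), (nat_lit 280), (nat_lit 180), (nat_lit 220), (nat_lit 110), (nat_lit 240), (nat_lit 120), (nat_lit 240), (nat_lit 0), (nat_lit 120), (nat_lit 40), (nat_lit 76)⟩, (nat_lit 3), (nat_lit 3), (nat_lit 3), false, false, true⟩,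
  ⟨⟨(nat_lit 360), (nat_lit 380), (nat_lit 240), (nat_lit 280), (nat_lit 180), (nat_lit 220), (nat_lit 110), (nat_lit 240), (nat_lit 120), (nat_lit 240), (nat_lit 120), (nat_lit 400), (nat_lit 40), (nat_lit 76)⟩, (nat_lit 3), (nat_lit 3), (nat_lit 3), false, false, false⟩,
  ⟨⟨(nat_lit 360), (nat_lit 380), (nat_lit 280), (nat_lit 320), (nat_lit 180), (nat_lit 220), (nat_lit 110), (nat_lit 240), (nat_lit 120), (nat_lit 240), (nat_lit 0), (nat_lit 400), (nat_lit 40), (nat_lit 76)⟩, (nat_lit 3), (nat_lit 3), (nat_lit 3), false, false, false⟩,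
  ⟨⟨(nat_lit 360), (nat_lit 380), (nat_lit 240), (nat_lit 280), (nat_lit 180), (nat_lit 220), (nat_lit 110), (nat_lit 240), (nat_lit 240), (nat_lit 340), (nat_lit 0), (nat_lit 120), (nat_lit 40), (nat_lit 76)⟩, (nat_lit 3), (nat_lit 3), (nat_lit 3), false, false, true⟩,
  ⟨⟨(nat_lit 360), (nat_lit 380), (nat_lit 240), (nat_lit 280), (nat_lit 180), (nat_lit 220), (nat_lit 110), (nat_lit 240), (nat_lit 240), (nat_lit 340), (nat_lit 120), (nat_lit 400), (nat_lit 40), (nat_lit 76)⟩, (nat_lit 3), (nat_lit 3), (nat_lit 3), false, false, false⟩,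
  ⟨⟨(nat_lit 360), (nat_lit 380), (nat_lit 280), (nat_lit 320), (nat_lit 180), (nat_lit 220), (nat_lit 110), (nat_lit 240), (nat_lit 240), (nat_lit 340), (nat_lit 0), (nat_lit 400), (nat_lit 40), (nat_lit 76)⟩, (nat_lit 3), (nat_lit 3), (nat_lit 3), false, false, false⟩,
  ⟨⟨(nat_lit 360), (nat_lit 380), (nat_lit 240), (nat_lit 280), (nat_lit 120), (nat_lit 160), (nat_lit 240), (nat_lit 320), (nat_lit 120), (nat_lit 200), (nat_lit 0), (nat_lit 390), (nat_lit 40), (nat_lit 76)⟩, (nat_lit 3), (nat_lit 3), (nat_lit 3), false, false, false⟩,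
  ⟨⟨(nat_lit 360), (nat_lit 380), (nat_lit 240), (nat_lit 280), (nat_lit 120), (nat_lit 160), (nat_lit 320), (nat_lit 380), (nat_lit 120), (nat_lit 200), (nat_lit 0), (nat_lit 390), (nat_lit 40), (nat_lit 76)⟩, (nat_lit 3), (nat_lit 3), (nat_lit 3), false, false, false⟩,
  ⟨⟨(nat_lit 360), (nat_lit 380), (nat_lit 240), (nat_lit 280), (nat_lit 120), (nat_lit 160), (nat_lit 240), (nat_lit 380), (nat_lit 200), (nat_lit 290), (nat_lit 0), (nat_lit 200), (nat_lit 40), (nat_lit 76)⟩, (nat_lit 3), (nat_lit 3), (nat_lit 3), false, false, false⟩,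
  ⟨⟨(nat_lit 360), (nat_lit 380), (nat_lit 240), (nat_lit 280), (nat_lit 120), (nat_lit 160), (nat_lit 240), (nat_lit 380), (nat_lit 200), (nat_lit 290), (nat_lit 200), (nat_lit 390), (nat_lit 40), (nat_lit 76)⟩, (nat_lit 3), (nat_lit 3), (nat_lit 3), false, false, false⟩,
  ⟨⟨(nat_lit 360), (nat_lit 380), (nat_lit 240), (nat_lit 280), (nat_lit 160), (nat_lit 180), (nat_lit 240), (nat_lit 380), (nat_lit 120), (nat_lit 310), (nat_lit 0), (nat_lit 400), (nat_lit 40), (nat_lit 76)⟩, (nat_lit 3), (nat_lit 3), (nat_lit 3), false, false, false⟩,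
  ⟨⟨(nat_lit 360), (nat_lit 380), (nat_lit 280), (nat_lit 320), (nat_lit 120), (nat_lit 180), (nat_lit 240), (nat_lit 400), (nat_lit 120), (nat_lit 310), (nat_lit 0), (nat_lit 380), (nat_lit 40), (nat_lit 76)⟩, (nat_lit 3), (nat_lit 3), (nat_lit 0), false, false, false⟩,
  ⟨⟨(nat_lit 360), (nat_lit 380), (nat_lit 280), (nat_lit 300), (nat_lit 120), (nat_lit 160), (nat_lit 240), (nat_lit 400), (nat_lit 120), (nat_lit 290), (nat_lit 0), (nat_lit 370), (nat_lit 40), (nat_lit 76)⟩, (nat_lit 3), (nat_lit 3), (nat_lit 1), false, false, false⟩,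
  ⟨⟨(nat_lit 360), (nat_lit 380), (nat_lit 300), (nat_lit 320), (nat_lit 120), (nat_lit 160), (nat_lit 240), (nat_lit 400), (nat_lit 120), (nat_lit 290), (nat_lit 0), (nat_lit 370), (nat_lit 40), (nat_lit 76)⟩, (nat_lit 3), (nat_lit 3), (nat_lit 1), false, false, false⟩,
  ⟨⟨(nat_lit 360), (nat_lit 380), (nat_lit 280), (nat_lit 320), (nat_lit 160), (nat_lit 180), (nat_lit 240), (nat_lit 400), (nat_lit 120), (nat_lit 310), (nat_lit 0), (nat_lit 380), (nat_lit 40), (nat_lit 76)⟩, (nat_lit 3), (nat_lit 3), (nat_lit 1), false, false, false⟩,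
  ⟨⟨(nat_lit 360), (nat_lit 380), (nat_lit 240), (nat_lit 320), (nat_lit 180), (nat_lit 220), (nat_lit 240), (nat_lit 400), (nat_lit 120), (nat_lit 340), (nat_lit 0), (nat_lit 400), (nat_lit 40), (nat_lit 76)⟩, (nat_lit 3), (nat_lit 3), (nat_lit 3), false, false, false⟩,
  ⟨⟨(nat_lit 360), (nat_lit 380), (nat_lit 240), (nat_lit 280), (nat_lit 120), (nat_lit 180), (nat_lit 110), (nat_lit 160), (nat_lit 20), (nat_lit 80), (nat_lit 0), (nat_lit 400), (nat_lit 76), (nat_lit 112)⟩, (nat_lit 3), (nat_lit 3), (nat_lit 3), false, true, false⟩,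
  ⟨⟨(nat_lit 360), (nat_lit 380), (nat_lit 240), (nat_lit 280), (nat_lit 120), (nat_lit 180), (nat_lit 160), (nat_lit 240), (nat_lit 20), (nat_lit 80), (nat_lit 0), (nat_lit 400), (nat_lit 76), (nat_lit 112)⟩, (nat_lit 3), (nat_lit 3), (nat_lit 3), false, true, false⟩,
  ⟨⟨(nat_lit 360), (nat_lit 380), (nat_lit 240), (nat_lit 280), (nat_lit 120), (nat_lit 180), (nat_lit 110), (nat_lit 240), (nat_lit 80), (nat_lit 120), (nat_lit 0), (nat_lit 400), (nat_lit 76), (nat_lit 112)⟩, (nat_lit 3), (nat_lit 3), (nat_lit 3), false, true, false⟩,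
  ⟨⟨(nat_lit 360), (nat_lit 380), (nat_lit 240), (nat_lit 280), (nat_lit 180), (nat_lit 220), (nat_lit 110), (nat_lit 240), (nat_lit 20), (nat_lit 120), (nat_lit 0), (nat_lit 400), (nat_lit 76), (nat_lit 112)⟩, (nat_lit 3), (nat_lit 3), (nat_lit 3), false, true, false⟩,
  ⟨⟨(nat_lit 360), (nat_lit 380), (nat_lit 280), (nat_lit 320), (nat_lit 120), (nat_lit 220), (nat_lit 150), (nat_lit 240), (nat_lit 20), (nat_lit 120), (nat_lit 0), (nat_lit 200), (nat_lit 76), (nat_lit 152)⟩, (nat_lit 3), (nat_lit 3), (nat_lit 3), false, true, false⟩,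
  ⟨⟨(nat_lit 360), (nat_lit 380), (nat_lit 280), (nat_lit 320), (nat_lit 120), (nat_lit 220), (nat_lit 150), (nat_lit 240), (nat_lit 20), (nat_lit 120), (nat_lit 200), (nat_lit 400), (nat_lit 76), (nat_lit 152)⟩, (nat_lit 3), (nat_lit 3), (nat_lit 3), false, true, false⟩,
  ⟨⟨(nat_lit 360), (nat_lit 380), (nat_lit 240), (nat_lit 320), (nat_lit 120), (nat_lit 220), (nat_lit 240), (nat_lit 400), (nat_lit 20), (nat_lit 120), (nat_lit 0), (nat_lit 400), (nat_lit 76), (nat_lit 152)⟩, (nat_lit 3), (nat_lit 3), (nat_lit 3), false, true, false⟩,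
  ⟨⟨(nat_lit 360), (nat_lit 380), (nat_lit 240), (nat_lit 280), (nat_lit 120), (nat_lit 180), (nat_lit 110), (nat_lit 160), (nat_lit 120), (nat_lit 200), (nat_lit 0), (nat_lit 400), (nat_lit 76), (nat_lit 112)⟩, (nat_lit 3), (nat_lit 3), (nat_lit 3), false, false, false⟩,
  ⟨⟨(nat_lit 360), (nat_lit 380), (nat_lit 240), (nat_lit 280), (nat_lit 120), (nat_lit 180), (nat_lit 160), (nat_lit 240), (nat_lit 120), (nat_lit 200), (nat_lit 0), (nat_lit 400), (nat_lit 76), (nat_lit 112)⟩, (nat_lit 3), (nat_lit 3), (nat_lit 3), false, false, false⟩,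
  ⟨⟨(nat_lit 360), (nat_lit 380), (nat_lit 240), (nat_lit 280), (nat_lit 120), (nat_lit 180), (nat_lit 110), (nat_lit 160), (nat_lit 200), (nat_lit 310), (nat_lit 0), (nat_lit 400), (nat_lit 76), (nat_lit 112)⟩, (nat_lit 3), (nat_lit 3), (nat_lit 3), false, false, false⟩]
theorem t034 (h : EC env Ei) : ∀ τ ∈ l034, Dead τ :=
  List.forall_mem_cons.mpr ⟨chkT_sound0 h (T := c17_70) (by decide +kernel),
  List.forall_mem_cons.mpr ⟨chkT_sound0 h (T := c17_71) (by decide +kernel),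
  List.forall_mem_cons.mpr ⟨chkT_sound0 h (T := c17_72) (by decide +kernel),
  List.forall_mem_cons.mpr ⟨chkT_sound0 h (T := c17_73) (by decide +kernel),
  List.forall_mem_cons.mpr ⟨chkT_sound0 h (T := c17_74) (by decide +kernel),
  List.forall_mem_cons.mpr ⟨chkT_sound0 h (T := c17_75) (by decide +kernel),
  List.forall_mem_cons.mpr ⟨chkT_sound0 h (T := c17_76) (by decide +kernel),
  List.forall_mem_cons.mpr ⟨chkT_sound0 h (T := c17_77) (by decide +kernel),
  List.forall_mem_cons.mpr ⟨chkT_sound0 h (T := c17_78) (by decide +kernel),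
  List.forall_mem_cons.mpr ⟨chkT_sound0 h (T := c17_79) (by decide +kernel),
  List.forall_mem_cons.mpr ⟨chkT_sound0 h (T := c17_80) (by decide +kernel),
  List.forall_mem_cons.mpr ⟨chkT_sound0 h (T := c17_81) (by decide +kernel),
  List.forall_mem_cons.mpr ⟨chkT_sound0 h (T := c17_82) (by decide +kernel),
  List.forall_mem_cons.mpr ⟨chkT_sound0 h (T := c17_83) (by decide +kernel),
  List.forall_mem_cons.mpr ⟨chkT_sound0 h (T := c17_84) (by decide +kernel),
  List.forall_mem_cons.mpr ⟨chkT_sound0 h (T := c17_85) (by decide +kernel),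
  List.forall_mem_cons.mpr ⟨chkT_sound0 h (T := c17_86) (by decide +kernel),
  List.forall_mem_cons.mpr ⟨chkT_sound0 h (T := c17_87) (by decide +kernel),
  List.forall_mem_cons.mpr ⟨chkT_sound0 h (T := c17_88) (by decide +kernel),
  List.forall_mem_cons.mpr ⟨chkT_sound0 h (T := c17_89) (by decide +kernel),
  List.forall_mem_cons.mpr ⟨chkT_sound0 h (T := c17_90) (by decide +kernel),
  List.forall_mem_cons.mpr ⟨chkT_sound0 h (T := c17_91) (by decide +kernel),
  List.forall_mem_cons.mpr ⟨chkT_sound0 h (T := c17_92) (by decide +kernel),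
  List.forall_mem_cons.mpr ⟨chkT_sound0 h (T := c17_93) (by decide +kernel),
  List.forall_mem_cons.mpr ⟨chkT_sound0 h (T := c17_94) (by decide +kernel),
  List.forall_mem_cons.mpr ⟨chkT_sound0 h (T := c17_95) (by decide +kernel),
  List.forall_mem_cons.mpr ⟨chkT_sound0 h (T := c17_96) (by decide +kernel),
  List.forall_mem_cons.mpr ⟨chkT_sound0 h (T := c17_97) (by decide +kernel),
  List.forall_mem_cons.mpr ⟨chkT_sound0 h (T := c17_98) (by decide +kernel),
  List.forall_mem_cons.mpr ⟨chkT_sound0 h (T := c17_99) (by decide +kernel),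
  List.forall_mem_cons.mpr ⟨chkT_sound0 h (T := c17_100) (by decide +kernel),
  List.forall_mem_cons.mpr ⟨chkT_sound0 h (T := c17_101) (by decide +kernel),
  List.forall_mem_cons.mpr ⟨chkT_sound0 h (T := c17_102) (by decide +kernel),
  List.forall_mem_cons.mpr ⟨chkT_sound0 h (T := c17_103) (by decide +kernel),
  List.forall_mem_cons.mpr ⟨chkT_sound0 h (T := c17_104) (by decide +kernel),
  List.forall_mem_cons.mpr ⟨chkT_sound0 h (T := c17_105) (by decide +kernel),
  List.forall_mem_cons.mpr ⟨chkT_sound0 h (T := c17_106) (by decide +kernel),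
  List.forall_mem_nil _⟩⟩⟩⟩⟩⟩⟩⟩⟩⟩⟩⟩⟩⟩⟩⟩⟩⟩⟩⟩⟩⟩⟩⟩⟩⟩⟩⟩⟩⟩⟩⟩⟩⟩⟩⟩⟩
end TC
end Pool.Agent.Lib.MP_6947cd_al
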