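import Pool.Agent.Lib.MP_6947cd_al.C.LeafF
import Pool.Agent.Lib.MP_6947cd_al.TC.E
import Pool.Agent.Lib.MP_6947cd_al.TC.F

/-!
Problem MP_6947cd_al (Chollet).  CASE C, tables and certificates.  Trees of leaves (part 35 of root 17).
-/

set_option autoImplicit false
set_option linter.all false
set_option maxRecDepth 100000
set_option maxHeartbeats 4000000
namespace Pool.Agent.Lib.MP_6947cd_al
namespace TC
open C1
noncomputable def c17_107 : Tr Lf :=
 (.trX (nat_lit 4) (nat_lit 0) (nat_lit 2) (nat_lit 61) (nat_lit 92) (nat_lit 100) (nat_lit 290) (.trX (nat_lit 5) (nat_lit 1) (nat_lit 2) (nat_lit 100) (nat_lit 40) (nat_lit 100) (nat_lit 390) (.spl (nat_lit 5) (nat_lit 200) (.spl (nat_lit 0) (nat_lit 370) (.spl (nat_lit 6) (nat_lit 96) (.leaf ⟨(nat_lit 789), (nat_lit 183), (nat_lit 0), (nat_lit 28), (nat_lit 11613), (nat_lit 4126), (nat_lit 2210), (nat_lit 394), (nat_lit 0), (nat_lit 0), (nat_lit 197250), [((nat_lit 370), [((nat_lit 26), (nat_lit 0), (nat_lit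 789))])], ⟨(nat_lit 6), false, false, false, (nat_lit 227), (nat_lit 2738), (nat_lit 3163), [(nat_lit 1483313), (nat_lit 1485730), (nat_lit 1527599), (nat_lit 1530541), (nat_lit 1605257), (nat_lit 1603890), (nat_lit 1649542), (nat_lit 1648700)]⟩, ⟨(nat_lit 5), false, false, true, (nat_lit 200), (nat_lit 2738), (nat_lit 3163), [(nat_lit 1411379), (nat_lit 1410329), (nat_lit 1455689), (nat_lit 1455164), (nat_lit 1548524), (nat_lit 1543217), (nat_lit 1592834), (nat_lit 1588052)]⟩, (nat_lit 5090768), (nat_lit 40483806), (nat_lit 14569066), (nat_lit 11947128), (nat_lit 5), (nat_lit 0), [], [⟨(nat_lit 1), (nat_lit 100), (nat_lit 59), (nat_lit 100), (nat_lit 311545151)⟩], [], [],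
 ⟨⟨[(nat_lit 40), (nat_lit 80), (nat_lit 120)], [(nat_lit 0), (nat_lit 1598), (nat_lit 3468)], [((nat_lit 0), (nat_lit 0), (nat_lit 0)), ((nat_lit 1000), (nat_lit 625), (nat_lit 623)), ((nat_lit 1000), (nat_lit 604), (nat_lit 730))], ((nat_lit 60), (nat_lit 100), (nat_lit 86))⟩, (nat_lit 0), (nat_lit 80), (nat_lit 80), (nat_lit 0), (nat_lit 82009), [(nat_lit 1648046012), (nat_lit 2342460801), (nat_lit 3663847200)], [(nat_lit 0), (nat_lit 0), (nat_lit 0)], [(nat_lit 21867322683), (nat_lit 22602144910), (nat_lit 23918272555), (nat_lit 24556709921), (nat_lit 25078873755), (nat_lit 25692001024), (nat_lit 26727774710), (nat_lit 27349755148)], (nat_lit 1271251), (nat_lit 1271251), (nat_lit 1100000), (nat_lit 1785001), (nat_lit 1271251), (nat_lit 1271251), [(nat_lit 490000), (nat_lit 1100000), (nat_lit 1785001)], [(nat_lit 4), (nat_lit 51), (nat_lit 373), (nat_lit 150), (nat_lit 11)]⟩,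
 ⟨⟨[(nat_lit 80), (nat_lit 140), (nat_lit 180)], [(nat_lit 0), (nat_lit 0), (nat_lit 3656)], [((nat_lit 0), (nat_lit 0), (nat_lit 0)), ((nat_lit 0), (nat_lit 0), (nat_lit 0)), ((nat_lit 637), (nat_lit 1000), (nat_lit 908))], ((nat_lit 100), (nat_lit 69), (nat_lit 87))⟩, (nat_lit 542613), (nat_lit 401), (nat_lit 401), (nat_lit 0), (nat_lit 157226), [(nat_lit 989168000), (nat_lit 2076662000), (nat_lit 2966238000)], [], [(nat_lit 9566154600), (nat_lit 7738986462), (nat_lit 7516079232), (nat_lit 7866992174), (nat_lit 7729589232), (nat_lit 5996556538), (nat_lit 10224763636), (nat_lit 8209816026)], (nat_lit 1271251), (nat_lit 1271251), (nat_lit 1100000), (nat_lit 1785001), (nat_lit 0), (nat_lit 1412501), [(nat_lit 1100000), (nat_lit 2127501), (nat_lit 1271251)], [(nat_lit 19), (nat_lit 63), (nat_lit 428), (nat_lit 200), (nat_lit 10)]⟩,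
 ⟨⟨[(nat_lit 140), (nat_lit 180), (nat_lit 200)], [(nat_lit 0), (nat_lit 0), (nat_lit 2835)], [((nat_lit 0), (nat_lit 0), (nat_lit 0)), ((nat_lit 0), (nat_lit 0), (nat_lit 0)), ((nat_lit 363), (nat_lit 1000), (nat_lit 798))], ((nat_lit 0), (nat_lit 0), (nat_lit 0))⟩, (nat_lit 7704), (nat_lit 300), (nat_lit 862), (nat_lit 2186800), (nat_lit 843213), [(nat_lit 275576000), (nat_lit 393624000), (nat_lit 459200000)], [], [(nat_lit 1901535928), (nat_lit 1834532708), (nat_lit 1847053699), (nat_lit 1777952529), (nat_lit 1456594564), (nat_lit 1624006512), (nat_lit 1397425986), (nat_lit 1332274339)], (nat_lit 780000), (nat_lit 1100000), (nat_lit 1271251), (nat_lit 1271251), (nat_lit 0), (nat_lit 1412501), [(nat_lit 1977501), (nat_lit 1271251), (nat_lit 1271251)], [(nat_lit 32), (nat_lit 67), (nat_lit 401), (nat_lit 175), (nat_lit 9)]⟩⟩) (.dle (nat_lit 0))) (.trX (nat_lit 4) (nat_lit 0) (nat_lit 2) (nat_lit 54) (nat_lit 96) (nat_lit 100) (nat_lit 270) (.spl (nat_lit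 6) (nat_lit 96) (.spl (nat_lit 1) (nat_lit 260) (.spl (nat_lit 0) (nat_lit 375) (.leaf ⟨(nat_lit 849), (nat_lit 125), (nat_lit 0), (nat_lit 26), (nat_lit 12975), (nat_lit 4033), (nat_lit 1836), (nat_lit 375), (nat_lit 0), (nat_lit 0), (nat_lit 212250), [((nat_lit 375), [((nat_lit 26), (nat_lit 0), (nat_lit 849))])], ⟨(nat_lit 6), false, false, false, (nat_lit 222), (nat_lit 2500), (nat_lit 2739), [(nat_lit 1485757), (nat_lit 1487080), (nat_lit 1508170), (nat_lit 1509657), (nat_lit 1603894), (nat_lit 1603223), (nat_lit 1626307), (nat_lit 1625800)]⟩, ⟨(nat_lit 5), false, false, true, (nat_lit 193), (nat_lit 2500), (nat_lit 2739), [(nat_lit 1410329), (nat_lit 1409676), (nat_lit 1455164), (nat_lit 1454837), (nat_lit 1513686), (nat_lit 1511289), (nat_lit 1558521), (nat_lit 1556450)]⟩, (nat_lit 5015585), (nat_lit 41243193), (nat_lit 14306191), (nat_lit 11450616), (nat_lit 5), (nat_lit 0), [], [⟨(nat_lit 1), (nat_lit 100), (nat_lit 52), (nat_lit 98), (nat_lit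 312552375)⟩], [], [],
 ⟨⟨[(nat_lit 40), (nat_lit 80), (nat_lit 120)], [(nat_lit 0), (nat_lit 2008), (nat_lit 3930)], [((nat_lit 0), (nat_lit 0), (nat_lit 0)), ((nat_lit 1000), (nat_lit 540), (nat_lit 733)), ((nat_lit 1000), (nat_lit 536), (nat_lit 751))], ((nat_lit 53), (nat_lit 100), (nat_lit 85))⟩, (nat_lit 0), (nat_lit 72), (nat_lit 72), (nat_lit 0), (nat_lit 57868), [(nat_lit 1621473105), (nat_lit 2164092802), (nat_lit 3336535200)], [(nat_lit 0), (nat_lit 0), (nat_lit 0)], [(nat_lit 22470752164), (nat_lit 22833774480), (nat_lit 24425647465), (nat_lit 24741287542), (nat_lit 24740493988), (nat_lit 25057735499), (nat_lit 26477013246), (nat_lit 26798861581)], (nat_lit 1271251), (nat_lit 1271251), (nat_lit 1100000), (nat_lit 1785001), (nat_lit 1271251), (nat_lit 1271251), [(nat_lit 490000), (nat_lit 1100000), (nat_lit 1785001)], [(nat_lit 4), (nat_lit 51), (nat_lit 373), (nat_lit 150), (nat_lit 11)]⟩,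
 ⟨⟨[(nat_lit 80), (nat_lit 140), (nat_lit 180)], [(nat_lit 0), (nat_lit 0), (nat_lit 3656)], [((nat_lit 0), (nat_lit 0), (nat_lit 0)), ((nat_lit 0), (nat_lit 0), (nat_lit 0)), ((nat_lit 637), (nat_lit 1000), (nat_lit 908))], ((nat_lit 100), (nat_lit 69), (nat_lit 87))⟩, (nat_lit 116232), (nat_lit 389), (nat_lit 389), (nat_lit 0), (nat_lit 130118), [(nat_lit 707888000), (nat_lit 1486142000), (nat_lit 2122758000)], [], [(nat_lit 7233655096), (nat_lit 6270848275), (nat_lit 6212448024), (nat_lit 6326357344), (nat_lit 5433899868), (nat_lit 4661705890), (nat_lit 7440252968), (nat_lit 6603274730)], (nat_lit 1271251), (nat_lit 1271251), (nat_lit 1100000), (nat_lit 1785001), (nat_lit 0), (nat_lit 1412501), [(nat_lit 1100000), (nat_lit 2127501), (nat_lit 1271251)], [(nat_lit 19), (nat_lit 63), (nat_lit 401), (nat_lit 175), (nat_lit 9)]⟩,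
 ⟨⟨[(nat_lit 140), (nat_lit 180), (nat_lit 200)], [(nat_lit 0), (nat_lit 0), (nat_lit 2835)], [((nat_lit 0), (nat_lit 0), (nat_lit 0)), ((nat_lit 0), (nat_lit 0), (nat_lit 0)), ((nat_lit 363), (nat_lit 1000), (nat_lit 798))], ((nat_lit 0), (nat_lit 0), (nat_lit 0))⟩, (nat_lit 7153), (nat_lit 300), (nat_lit 751), (nat_lit 2030607), (nat_lit 618525), [(nat_lit 255892000), (nat_lit 365508000), (nat_lit 426400000)], [], [(nat_lit 1756006748), (nat_lit 1691845646), (nat_lit 1708862644), (nat_lit 1643720351), (nat_lit 1349562706), (nat_lit 1514036456), (nat_lit 1281083850), (nat_lit 1219290376)], (nat_lit 780000), (nat_lit 1100000), (nat_lit 1271251), (nat_lit 1271251), (nat_lit 0), (nat_lit 1412501), [(nat_lit 1977501), (nat_lit 1271251), (nat_lit 1271251)], [(nat_lit 32), (nat_lit 67), (nat_lit 401), (nat_lit 175), (nat_lit 9)]⟩⟩) (.trX (nat_lit 4) (nat_lit 0) (nat_lit 2) (nat_lit 49) (nat_lit 97) (nat_lit 100) (nat_lit 260) (.leaf ⟨(nat_lit 853), (nat_lit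 132), (nat_lit 0), (nat_lit 15), (nat_lit 7205), (nat_lit 4955), (nat_lit 1859), (nat_lit 228), (nat_lit 0), (nat_lit 0), (nat_lit 213250), [((nat_lit 380), [((nat_lit 26), (nat_lit 0), (nat_lit 853))])], ⟨(nat_lit 6), false, false, false, (nat_lit 223), (nat_lit 2236), (nat_lit 2500), [(nat_lit 1487074), (nat_lit 1488510), (nat_lit 1509649), (nat_lit 1511279), (nat_lit 1603223), (nat_lit 1602562), (nat_lit 1625799), (nat_lit 1625331)]⟩, ⟨(nat_lit 5), false, false, true, (nat_lit 190), (nat_lit 2236), (nat_lit 2500), [(nat_lit 1409676), (nat_lit 1408901), (nat_lit 1454837), (nat_lit 1454450), (nat_lit 1496773), (nat_lit 1494425), (nat_lit 1541934), (nat_lit 1539973)]⟩, (nat_lit 4990252), (nat_lit 41460573), (nat_lit 14372824), (nat_lit 11166603), (nat_lit 5), (nat_lit 0), [], [⟨(nat_lit 1), (nat_lit 100), (nat_lit 47), (nat_lit 97), (nat_lit 344533728)⟩], [], [],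
 ⟨⟨[(nat_lit 40), (nat_lit 80), (nat_lit 100)], [(nat_lit 0), (nat_lit 2244), (nat_lit 3243)], [((nat_lit 0), (nat_lit 0), (nat_lit 0)), ((nat_lit 1000), (nat_lit 495), (nat_lit 771)), ((nat_lit 1000), (nat_lit 493), (nat_lit 781))], ((nat_lit 48), (nat_lit 100), (nat_lit 85))⟩, (nat_lit 0), (nat_lit 88), (nat_lit 88), (nat_lit 0), (nat_lit 93278), [(nat_lit 1777952841), (nat_lit 2536018556), (nat_lit 2701520000)], [(nat_lit 0), (nat_lit 0), (nat_lit 0)], [(nat_lit 23714082792), (nat_lit 24093613545), (nat_lit 25444639935), (nat_lit 25773078818), (nat_lit 25458122860), (nat_lit 25795120060), (nat_lit 27128671914), (nat_lit 27494740638)], (nat_lit 1271251), (nat_lit 1271251), (nat_lit 1100000), (nat_lit 1785001), (nat_lit 1271251), (nat_lit 1271251), [(nat_lit 490000), (nat_lit 1100000), (nat_lit 1442501)], [(nat_lit 3), (nat_lit 50), (nat_lit 272), (nat_lit 60), (nat_lit 9)]⟩,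
 ⟨⟨[(nat_lit 80), (nat_lit 140), (nat_lit 180)], [(nat_lit 0), (nat_lit 0), (nat_lit 3656)], [((nat_lit 0), (nat_lit 0), (nat_lit 0)), ((nat_lit 0), (nat_lit 0), (nat_lit 0)), ((nat_lit 637), (nat_lit 1000), (nat_lit 908))], ((nat_lit 100), (nat_lit 69), (nat_lit 87))⟩, (nat_lit 0), (nat_lit 424), (nat_lit 424), (nat_lit 0), (nat_lit 215545), [(nat_lit 689136000), (nat_lit 1446774000), (nat_lit 2066526000)], [], [(nat_lit 7151200544), (nat_lit 6482814284), (nat_lit 6416211504), (nat_lit 6605831721), (nat_lit 5262447798), (nat_lit 4833491760), (nat_lit 7277791910), (nat_lit 6430328651)], (nat_lit 1271251), (nat_lit 1271251), (nat_lit 1100000), (nat_lit 1785001), (nat_lit 0), (nat_lit 1412501), [(nat_lit 1100000), (nat_lit 2127501), (nat_lit 1271251)], [(nat_lit 19), (nat_lit 63), (nat_lit 401), (nat_lit 175), (nat_lit 9)]⟩,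
 ⟨⟨[(nat_lit 140), (nat_lit 180), (nat_lit 200)], [(nat_lit 0), (nat_lit 0), (nat_lit 2835)], [((nat_lit 0), (nat_lit 0), (nat_lit 0)), ((nat_lit 0), (nat_lit 0), (nat_lit 0)), ((nat_lit 363), (nat_lit 1000), (nat_lit 798))], ((nat_lit 0), (nat_lit 0), (nat_lit 0))⟩, (nat_lit 4127), (nat_lit 300), (nat_lit 938), (nat_lit 1171500), (nat_lit 1024313), [(nat_lit 147630000), (nat_lit 210870000), (nat_lit 246000000)], [], [(nat_lit 1000702428), (nat_lit 961208730), (nat_lit 983240040), (nat_lit 946934250), (nat_lit 782203368), (nat_lit 881169168), (nat_lit 718545693), (nat_lit 684764040)], (nat_lit 780000), (nat_lit 1100000), (nat_lit 1271251), (nat_lit 1271251), (nat_lit 0), (nat_lit 1412501), [(nat_lit 1977501), (nat_lit 1271251), (nat_lit 1271251)], [(nat_lit 32), (nat_lit 67), (nat_lit 401), (nat_lit 175), (nat_lit 9)]⟩⟩))) (.spl (nat_lit 5) (nat_lit 120) (.leaf ⟨(nat_lit 0), (nat_lit 1000), (nat_lit 0), (nat_lit 0), (nat_lit 16575), (nat_lit 9715),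 (nat_lit 6482), (nat_lit 0), (nat_lit 0), (nat_lit 0), (nat_lit 0), [], Pd.none, Pd.none, (nat_lit 0), (nat_lit 1), (nat_lit 0), (nat_lit 0), (nat_lit 5), (nat_lit 0), [⟨(nat_lit 0), (nat_lit 95), (nat_lit 49), (nat_lit 100), (nat_lit 581470027)⟩], [⟨(nat_lit 1), (nat_lit 100), (nat_lit 49), (nat_lit 97), (nat_lit 801145871)⟩], [], [],
 ⟨⟨[(nat_lit 40), (nat_lit 80), (nat_lit 120)], [(nat_lit 0), (nat_lit 2008), (nat_lit 3930)], [((nat_lit 0), (nat_lit 0), (nat_lit 0)), ((nat_lit 1000), (nat_lit 540), (nat_lit 733)), ((nat_lit 1000), (nat_lit 536), (nat_lit 751))], ((nat_lit 53), (nat_lit 100), (nat_lit 85))⟩, (nat_lit 0), (nat_lit 135), (nat_lit 135), (nat_lit 0), (nat_lit 148426), [(nat_lit 3164226754), (nat_lit 6621664271), (nat_lit 7968000000)], [], [(nat_lit 27339338599), (nat_lit 28407901213), (nat_lit 28652454943), (nat_lit 29558591995), (nat_lit 29561470606), (nat_lit 30630596735), (nat_lit 30855348661), (nat_lit 31941334342)], (nat_lit 1271251),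 (nat_lit 1271251), (nat_lit 1100000), (nat_lit 1785001), (nat_lit 1271251), (nat_lit 1271251), [(nat_lit 490000), (nat_lit 1100000), (nat_lit 1785001)], [(nat_lit 4), (nat_lit 51), (nat_lit 373), (nat_lit 150), (nat_lit 11)]⟩,
 ⟨⟨[(nat_lit 80), (nat_lit 140), (nat_lit 180)], [(nat_lit 0), (nat_lit 792), (nat_lit 4228)], [((nat_lit 0), (nat_lit 0), (nat_lit 0)), ((nat_lit 1000), (nat_lit 959), (nat_lit 206)), ((nat_lit 709), (nat_lit 1000), (nat_lit 949))], ((nat_lit 100), (nat_lit 79), (nat_lit 90))⟩, (nat_lit 2289676), (nat_lit 436), (nat_lit 436), (nat_lit 0), (nat_lit 244779), [(nat_lit 4688000000), (nat_lit 9842000000), (nat_lit 14058000000)], [], [(nat_lit 35852452516), (nat_lit 36484404896), (nat_lit 36892190778), (nat_lit 37587616820), (nat_lit 32316050348), (nat_lit 33048968444), (nat_lit 34889303056), (nat_lit 34159281944)], (nat_lit 1271251), (nat_lit 1271251), (nat_lit 1100000), (nat_lit 1785001), (nat_lit 0), (nat_lit 780000), [(nat_lit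 1100000), (nat_lit 2127501), (nat_lit 1271251)], [(nat_lit 19), (nat_lit 63), (nat_lit 401), (nat_lit 175), (nat_lit 9)]⟩,
 Rw.none⟩) (.leaf ⟨(nat_lit 0), (nat_lit 876), (nat_lit 0), (nat_lit 124), (nat_lit 2147), (nat_lit 9589), (nat_lit 6848), (nat_lit 1471), (nat_lit 0), (nat_lit 0), (nat_lit 0), [], Pd.none, Pd.none, (nat_lit 0), (nat_lit 1), (nat_lit 0), (nat_lit 0), (nat_lit 5), (nat_lit 0), [], [⟨(nat_lit 1), (nat_lit 100), (nat_lit 49), (nat_lit 97), (nat_lit 537405356)⟩], [], [],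
 ⟨⟨[(nat_lit 40), (nat_lit 80), (nat_lit 120)], [(nat_lit 0), (nat_lit 2008), (nat_lit 3930)], [((nat_lit 0), (nat_lit 0), (nat_lit 0)), ((nat_lit 1000), (nat_lit 540), (nat_lit 733)), ((nat_lit 1000), (nat_lit 536), (nat_lit 751))], ((nat_lit 53), (nat_lit 100), (nat_lit 85))⟩, (nat_lit 0), (nat_lit 135), (nat_lit 135), (nat_lit 0), (nat_lit 148426), [(nat_lit 3354332152), (nat_lit 6643048405), (nat_lit 7968000000)], [], [(nat_lit 27403429980), (nat_lit 28462295728), (nat_lit 28723661386), (nat_lit 29621933077), (nat_lit 29619207169), (nat_lit 30520662021), (nat_lit 30758257802), (nat_lit 31834435595)], (nat_lit 1271251), (nat_lit 1271251), (nat_lit 1100000), (nat_lit 1785001), (nat_lit 1271251), (nat_lit 1271251), [(nat_lit 490000), (nat_lit 1100000), (nat_lit 1785001)], [(nat_lit 4), (nat_lit 51), (nat_lit 373), (nat_lit 150), (nat_lit 11)]⟩,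
 ⟨⟨[(nat_lit 80), (nat_lit 140), (nat_lit 180)], [(nat_lit 0), (nat_lit 792), (nat_lit 4228)], [((nat_lit 0), (nat_lit 0), (nat_lit 0)), ((nat_lit 1000), (nat_lit 959), (nat_lit 206)), ((nat_lit 709), (nat_lit 1000), (nat_lit 949))], ((nat_lit 100), (nat_lit 79), (nat_lit 90))⟩, (nat_lit 0), (nat_lit 292), (nat_lit 292), (nat_lit 0), (nat_lit 290343), [(nat_lit 4688000000), (nat_lit 9842000000), (nat_lit 14058000000)], [], [(nat_lit 34580770256), (nat_lit 35495416368), (nat_lit 36467704672), (nat_lit 37019583624), (nat_lit 35525944672), (nat_lit 35809439896), (nat_lit 44290185632), (nat_lit 41168384448)], (nat_lit 1271251), (nat_lit 1271251), (nat_lit 1100000), (nat_lit 1785001), (nat_lit 780000), (nat_lit 1435001), [(nat_lit 1100000), (nat_lit 2127501), (nat_lit 1271251)], [(nat_lit 19), (nat_lit 63), (nat_lit 428), (nat_lit 200), (nat_lit 10)]⟩,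
 ⟨⟨[(nat_lit 140), (nat_lit 180), (nat_lit 200)], [(nat_lit 0), (nat_lit 0), (nat_lit 2835)], [((nat_lit 0), (nat_lit 0), (nat_lit 0)), ((nat_lit 0), (nat_lit 0), (nat_lit 0)), ((nat_lit 363), (nat_lit 1000), (nat_lit 798))], ((nat_lit 0), (nat_lit 0), (nat_lit 0))⟩, (nat_lit 34116), (nat_lit 300), (nat_lit 1118), (nat_lit 9684406), (nat_lit 1620230), [(nat_lit 1220408000), (nat_lit 1743192000), (nat_lit 2033600000)], [], [(nat_lit 7742958771), (nat_lit 7504304020), (nat_lit 7504492411), (nat_lit 7263895603), (nat_lit 7306567738), (nat_lit 7154949240), (nat_lit 7061743328), (nat_lit 6822293016)], (nat_lit 780000), (nat_lit 1100000), (nat_lit 1271251), (nat_lit 1271251), (nat_lit 780000), (nat_lit 1435001), [(nat_lit 1977501), (nat_lit 1271251), (nat_lit 1271251)], [(nat_lit 32), (nat_lit 67), (nat_lit 401), (nat_lit 175), (nat_lit 8)]⟩⟩))) (.leaf ⟨(nat_lit 0), (nat_lit 936), (nat_lit 0), (nat_lit 64), (nat_lit 37767), (nat_lit 6124), (nat_lit 5545),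 (nat_lit 972), (nat_lit 0), (nat_lit 0), (nat_lit 0), [], Pd.none, Pd.none, (nat_lit 0), (nat_lit 1), (nat_lit 0), (nat_lit 0), (nat_lit 5), (nat_lit 0), [], [⟨(nat_lit 1), (nat_lit 100), (nat_lit 49), (nat_lit 97), (nat_lit 693482209)⟩], [], [],
 ⟨⟨[(nat_lit 40), (nat_lit 80), (nat_lit 120)], [(nat_lit 0), (nat_lit 2008), (nat_lit 3930)], [((nat_lit 0), (nat_lit 0), (nat_lit 0)), ((nat_lit 1000), (nat_lit 540), (nat_lit 733)), ((nat_lit 1000), (nat_lit 536), (nat_lit 751))], ((nat_lit 53), (nat_lit 100), (nat_lit 90))⟩, (nat_lit 0), (nat_lit 74), (nat_lit 74), (nat_lit 0), (nat_lit 55055), [(nat_lit 2592393785), (nat_lit 4688000093), (nat_lit 7968000000)], [], [(nat_lit 23938473922), (nat_lit 24861872883), (nat_lit 25885943036), (nat_lit 26678144983), (nat_lit 26432587103), (nat_lit 27342755688), (nat_lit 28088259172), (nat_lit 28894720066)], (nat_lit 1271251), (nat_lit 1271251), (nat_lit 1100000), (nat_lit 1785001), (nat_lit 1271251), (nat_lit 1271251),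 [(nat_lit 490000), (nat_lit 1100000), (nat_lit 1785001)], [(nat_lit 4), (nat_lit 51), (nat_lit 373), (nat_lit 150), (nat_lit 11)]⟩,
 ⟨⟨[(nat_lit 80), (nat_lit 140), (nat_lit 180)], [(nat_lit 0), (nat_lit 0), (nat_lit 3656)], [((nat_lit 0), (nat_lit 0), (nat_lit 0)), ((nat_lit 0), (nat_lit 0), (nat_lit 0)), ((nat_lit 637), (nat_lit 1000), (nat_lit 908))], ((nat_lit 100), (nat_lit 62), (nat_lit 92))⟩, (nat_lit 0), (nat_lit 382), (nat_lit 382), (nat_lit 0), (nat_lit 110475), [(nat_lit 4688000000), (nat_lit 9842000000), (nat_lit 14058000000)], [], [(nat_lit 38470482140), (nat_lit 40338420530), (nat_lit 40315796400), (nat_lit 41901623620), (nat_lit 38525805270), (nat_lit 37839967340), (nat_lit 46075741890), (nat_lit 41020138045)], (nat_lit 1271251), (nat_lit 1271251), (nat_lit 1100000), (nat_lit 1785001), (nat_lit 0), (nat_lit 1412501), [(nat_lit 1100000), (nat_lit 2127501), (nat_lit 1271251)], [(nat_lit 19), (nat_lit 63), (nat_lit 428), (nat_lit 200),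 (nat_lit 10)]⟩,
 ⟨⟨[(nat_lit 140), (nat_lit 180), (nat_lit 200)], [(nat_lit 0), (nat_lit 0), (nat_lit 2835)], [((nat_lit 0), (nat_lit 0), (nat_lit 0)), ((nat_lit 0), (nat_lit 0), (nat_lit 0)), ((nat_lit 363), (nat_lit 1000), (nat_lit 798))], ((nat_lit 0), (nat_lit 0), (nat_lit 0))⟩, (nat_lit 17608), (nat_lit 300), (nat_lit 744), (nat_lit 4998407), (nat_lit 601606), [(nat_lit 629888000), (nat_lit 899712000), (nat_lit 1049600000)], [], [(nat_lit 4270517464), (nat_lit 4102181104), (nat_lit 4206000560), (nat_lit 4049574746), (nat_lit 3337153256), (nat_lit 3759127456), (nat_lit 3072387799), (nat_lit 2926932959)], (nat_lit 780000), (nat_lit 1100000), (nat_lit 1271251), (nat_lit 1271251), (nat_lit 0), (nat_lit 1412501), [(nat_lit 1977501), (nat_lit 1271251), (nat_lit 1271251)], [(nat_lit 32), (nat_lit 67), (nat_lit 401), (nat_lit 175), (nat_lit 9)]⟩⟩)))) (.stt (nat_lit 1) (.leaf ⟨(nat_lit 883), (nat_lit 52), (nat_lit 0), (nat_lit 65), (nat_lit 117), (nat_lit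 3963), (nat_lit 1949), (nat_lit 756), (nat_lit 0), (nat_lit 0), (nat_lit 220750), [((nat_lit 380), [((nat_lit 26), (nat_lit 0), (nat_lit 883))])], ⟨(nat_lit 6), false, false, false, (nat_lit 227), (nat_lit 2236), (nat_lit 3163), [(nat_lit 1483125), (nat_lit 1488302), (nat_lit 1527308), (nat_lit 1533723), (nat_lit 1605240), (nat_lit 1602541), (nat_lit 1649422), (nat_lit 1647962)]⟩, ⟨(nat_lit 5), false, false, true, (nat_lit 200), (nat_lit 2236), (nat_lit 3163), [(nat_lit 1411379), (nat_lit 1408901), (nat_lit 1455689), (nat_lit 1454450), (nat_lit 1548524), (nat_lit 1537186), (nat_lit 1592834), (nat_lit 1582735)]⟩, (nat_lit 5086851), (nat_lit 40517311), (nat_lit 14592886), (nat_lit 11889803), (nat_lit 5), (nat_lit 0), [], [⟨(nat_lit 1), (nat_lit 100), (nat_lit 54), (nat_lit 98), (nat_lit 266176531)⟩], [], [],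
 ⟨⟨[(nat_lit 40), (nat_lit 80), (nat_lit 120)], [(nat_lit 0), (nat_lit 1598), (nat_lit 3468)], [((nat_lit 0), (nat_lit 0), (nat_lit 0)), ((nat_lit 1000), (nat_lit 625), (nat_lit 623)), ((nat_lit 1000), (nat_lit 604), (nat_lit 730))], ((nat_lit 61), (nat_lit 100), (nat_lit 91))⟩, (nat_lit 0), (nat_lit 64), (nat_lit 64), (nat_lit 0), (nat_lit 0), [(nat_lit 1601385287), (nat_lit 2063017605), (nat_lit 3151058400)], [(nat_lit 0), (nat_lit 0), (nat_lit 0)], [(nat_lit 21685596846), (nat_lit 23124472523), (nat_lit 23734285582), (nat_lit 24986071598), (nat_lit 24865738307), (nat_lit 26245989694), (nat_lit 26604430980), (nat_lit 27824741655)], (nat_lit 0), (nat_lit 0), (nat_lit 0), (nat_lit 0), (nat_lit 0), (nat_lit 0), [], [(nat_lit 4), (nat_lit 51), (nat_lit 373), (nat_lit 150), (nat_lit 11)]⟩,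
 ⟨⟨[(nat_lit 80), (nat_lit 140), (nat_lit 180)], [(nat_lit 0), (nat_lit 0), (nat_lit 3656)], [((nat_lit 0), (nat_lit 0), (nat_lit 0)), ((nat_lit 0), (nat_lit 0), (nat_lit 0)), ((nat_lit 637), (nat_lit 1000), (nat_lit 908))], ((nat_lit 100), (nat_lit 62), (nat_lit 92))⟩, (nat_lit 0), (nat_lit 290), (nat_lit 290), (nat_lit 0), (nat_lit 304831), [(nat_lit 548496000), (nat_lit 1151514000), (nat_lit 1644786000)], [], [(nat_lit 3278287720), (nat_lit 3632238163), (nat_lit 4852160010), (nat_lit 3694047652), (nat_lit 4814841114), (nat_lit 4939175320), (nat_lit 4616369278), (nat_lit 4695983742)], (nat_lit 1271251), (nat_lit 1271251), (nat_lit 1100000), (nat_lit 1785001), (nat_lit 1271251), (nat_lit 1271251), [(nat_lit 1100000), (nat_lit 2127501), (nat_lit 1271251)], [(nat_lit 19), (nat_lit 63), (nat_lit 483), (nat_lit 250), (nat_lit 11)]⟩,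
 ⟨⟨[(nat_lit 140), (nat_lit 180), (nat_lit 200)], [(nat_lit 0), (nat_lit 0), (nat_lit 2835)], [((nat_lit 0), (nat_lit 0), (nat_lit 0)), ((nat_lit 0), (nat_lit 0), (nat_lit 0)), ((nat_lit 363), (nat_lit 1000), (nat_lit 798))], ((nat_lit 0), (nat_lit 0), (nat_lit 0))⟩, (nat_lit 17884), (nat_lit 300), (nat_lit 1081), (nat_lit 5076500), (nat_lit 1627982), [(nat_lit 639730000), (nat_lit 913770000), (nat_lit 1066000000)], [], [(nat_lit 3910490278), (nat_lit 3788223100), (nat_lit 3741334195), (nat_lit 3618246995), (nat_lit 3673166970), (nat_lit 3546525780), (nat_lit 3529081039), (nat_lit 3400247471)], (nat_lit 780000), (nat_lit 1100000), (nat_lit 1271251), (nat_lit 1271251), (nat_lit 1271251), (nat_lit 1271251), [(nat_lit 1977501), (nat_lit 1271251), (nat_lit 1271251)], [(nat_lit 32), (nat_lit 67), (nat_lit 456), (nat_lit 225), (nat_lit 9)]⟩⟩) (.leaf ⟨(nat_lit 0), (nat_lit 359), (nat_lit 0), (nat_lit 641), (nat_lit 0), (nat_lit 10468), (nat_lit 17610), (nat_lit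 6920), (nat_lit 0), (nat_lit 0), (nat_lit 0), [], Pd.none, Pd.none, (nat_lit 0), (nat_lit 1), (nat_lit 0), (nat_lit 0), (nat_lit 5), (nat_lit 0), [⟨(nat_lit 0), (nat_lit 92), (nat_lit 44), (nat_lit 100), (nat_lit 776451753)⟩], [], [], [],
 ⟨⟨[(nat_lit 40), (nat_lit 80), (nat_lit 120)], [(nat_lit 0), (nat_lit 1598), (nat_lit 3468)], [((nat_lit 0), (nat_lit 0), (nat_lit 0)), ((nat_lit 1000), (nat_lit 625), (nat_lit 623)), ((nat_lit 1000), (nat_lit 604), (nat_lit 730))], ((nat_lit 61), (nat_lit 100), (nat_lit 91))⟩, (nat_lit 0), (nat_lit 139), (nat_lit 139), (nat_lit 0), (nat_lit 151730), [(nat_lit 3676703961), (nat_lit 6736002377), (nat_lit 7968000000)], [], [(nat_lit 25829803372), (nat_lit 28082829230), (nat_lit 27385322048), (nat_lit 30093295012), (nat_lit 30121555171), (nat_lit 32684982646), (nat_lit 31526829530), (nat_lit 33690971796)], (nat_lit 1271251), (nat_lit 1271251), (nat_lit 1100000), (nat_lit 1785001), (nat_lit 1271251), (nat_lit 1271251),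 [(nat_lit 490000), (nat_lit 1100000), (nat_lit 1785001)], [(nat_lit 4), (nat_lit 51), (nat_lit 373), (nat_lit 150), (nat_lit 11)]⟩,
 ⟨⟨[(nat_lit 80), (nat_lit 140), (nat_lit 180)], [(nat_lit 0), (nat_lit 0), (nat_lit 3656)], [((nat_lit 0), (nat_lit 0), (nat_lit 0)), ((nat_lit 0), (nat_lit 0), (nat_lit 0)), ((nat_lit 637), (nat_lit 1000), (nat_lit 908))], ((nat_lit 100), (nat_lit 62), (nat_lit 92))⟩, (nat_lit 129990), (nat_lit 234), (nat_lit 234), (nat_lit 0), (nat_lit 164207), [(nat_lit 4688000000), (nat_lit 9842000000), (nat_lit 14058000000)], [], [(nat_lit 26971664220), (nat_lit 30108088910), (nat_lit 41393819620), (nat_lit 30562511130), (nat_lit 40570517030), (nat_lit 41641821830), (nat_lit 38685401550), (nat_lit 41035929615)], (nat_lit 1271251), (nat_lit 1271251), (nat_lit 1100000), (nat_lit 1785001), (nat_lit 1271251), (nat_lit 1271251), [(nat_lit 1100000), (nat_lit 2127501), (nat_lit 1271251)], [(nat_lit 19), (nat_lit 63), (nat_lit 483), (nat_lit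 250), (nat_lit 11)]⟩,
 ⟨⟨[(nat_lit 140), (nat_lit 180), (nat_lit 200)], [(nat_lit 0), (nat_lit 0), (nat_lit 2835)], [((nat_lit 0), (nat_lit 0), (nat_lit 0)), ((nat_lit 0), (nat_lit 0), (nat_lit 0)), ((nat_lit 363), (nat_lit 1000), (nat_lit 798))], ((nat_lit 0), (nat_lit 0), (nat_lit 0))⟩, (nat_lit 176360), (nat_lit 300), (nat_lit 738), (nat_lit 50062100), (nat_lit 903800), [(nat_lit 6308722000), (nat_lit 9011178000), (nat_lit 10512400000)], [], [(nat_lit 39145931727), (nat_lit 38096092809), (nat_lit 38020547357), (nat_lit 36944453057), (nat_lit 37704086916), (nat_lit 36575609694), (nat_lit 36446281570), (nat_lit 35290017915)], (nat_lit 780000), (nat_lit 1100000), (nat_lit 1271251), (nat_lit 1271251), (nat_lit 1271251), (nat_lit 1271251), [(nat_lit 1977501), (nat_lit 1271251), (nat_lit 1271251)], [(nat_lit 32), (nat_lit 67), (nat_lit 456), (nat_lit 225), (nat_lit 9)]⟩⟩)))))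
noncomputable def c17_108 : Tr Lf :=
 (.spl (nat_lit 6) (nat_lit 88) (.leaf ⟨(nat_lit 0), (nat_lit 595), (nat_lit 0), (nat_lit 405), (nat_lit 12959), (nat_lit 5806), (nat_lit 2753), (nat_lit 3525), (nat_lit 0), (nat_lit 0), (nat_lit 0), [], Pd.none, Pd.none, (nat_lit 0), (nat_lit 1), (nat_lit 0), (nat_lit 0), (nat_lit 5), (nat_lit 0), [⟨(nat_lit 0), (nat_lit 92), (nat_lit 44), (nat_lit 100), (nat_lit 289372855)⟩], [⟨(nat_lit 1), (nat_lit 93), (nat_lit 53), (nat_lit 100), (nat_lit 64347905)⟩], [], [],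
 ⟨⟨[(nat_lit 40), (nat_lit 80), (nat_lit 120)], [(nat_lit 0), (nat_lit 1598), (nat_lit 3468)], [((nat_lit 0), (nat_lit 0), (nat_lit 0)), ((nat_lit 1000), (nat_lit 625), (nat_lit 623)), ((nat_lit 1000), (nat_lit 604), (nat_lit 730))], ((nat_lit 60), (nat_lit 100), (nat_lit 83))⟩, (nat_lit 0), (nat_lit 80), (nat_lit 80), (nat_lit 0), (nat_lit 49352), [(nat_lit 2384644596), (nat_lit 4688000074), (nat_lit 7968000000)], [], [(nat_lit 23205713716), (nat_lit 24992484209), (nat_lit 25279968548), (nat_lit 26815426359), (nat_lit 27693298464), (nat_lit 29088975241), (nat_lit 29019581733), (nat_lit 30348602098)], (nat_lit 1271251), (nat_lit 1271251), (nat_lit 1100000), (nat_lit 1785001), (nat_lit 1271251), (nat_lit 1271251), [(nat_lit 490000), (nat_lit 1100000), (nat_lit 1785001)], [(nat_lit 4), (nat_lit 51), (nat_lit 373), (nat_lit 150), (nat_lit 11)]⟩,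
 ⟨⟨[(nat_lit 80), (nat_lit 140), (nat_lit 180)], [(nat_lit 0), (nat_lit 0), (nat_lit 3656)], [((nat_lit 0), (nat_lit 0), (nat_lit 0)), ((nat_lit 0), (nat_lit 0), (nat_lit 0)), ((nat_lit 637), (nat_lit 1000), (nat_lit 908))], ((nat_lit 100), (nat_lit 73), (nat_lit 85))⟩, (nat_lit 857066), (nat_lit 377), (nat_lit 377), (nat_lit 0), (nat_lit 97696), [(nat_lit 4688000000), (nat_lit 9842000000), (nat_lit 14058000000)], [], [(nat_lit 36994123180), (nat_lit 38481586766), (nat_lit 39024038372), (nat_lit 40410517320), (nat_lit 48149969444), (nat_lit 45735070880), (nat_lit 53603407328), (nat_lit 51247599156)], (nat_lit 1271251), (nat_lit 1271251), (nat_lit 1100000), (nat_lit 1785001), (nat_lit 0), (nat_lit 2825001), [(nat_lit 1100000), (nat_lit 2127501), (nat_lit 1271251)], [(nat_lit 19), (nat_lit 63), (nat_lit 483), (nat_lit 250), (nat_lit 11)]⟩,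
 ⟨⟨[(nat_lit 120), (nat_lit 160), (nat_lit 200)], [(nat_lit 0), (nat_lit 0), (nat_lit 3198)], [((nat_lit 0), (nat_lit 0), (nat_lit 0)), ((nat_lit 0), (nat_lit 0), (nat_lit 0)), ((nat_lit 572), (nat_lit 1000), (nat_lit 714))], ((nat_lit 0), (nat_lit 0), (nat_lit 0))⟩, (nat_lit 197561), (nat_lit 300), (nat_lit 548), (nat_lit 30051000), (nat_lit 300111), [(nat_lit 3227040000), (nat_lit 4808160000), (nat_lit 6642000000)], [], [(nat_lit 26182361915), (nat_lit 26086999712), (nat_lit 26184953627), (nat_lit 26058357345), (nat_lit 24259693830), (nat_lit 25405461900), (nat_lit 22696002358), (nat_lit 22519471565)], (nat_lit 1100000), (nat_lit 1271251), (nat_lit 1271251), (nat_lit 1271251), (nat_lit 0), (nat_lit 2825001), [(nat_lit 1695001), (nat_lit 1271251), (nat_lit 1271251)], [(nat_lit 29), (nat_lit 66), (nat_lit 456), (nat_lit 225), (nat_lit 10)]⟩⟩) (.dle (nat_lit 0)))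
noncomputable def c17_109 : Tr Lf :=
 (.spl (nat_lit 5) (nat_lit 120) (.spl (nat_lit 1) (nat_lit 300) (.spl (nat_lit 6) (nat_lit 128) (.leaf ⟨(nat_lit 0), (nat_lit 1000), (nat_lit 0), (nat_lit 0), (nat_lit 16465), (nat_lit 4461), (nat_lit 6351), (nat_lit 0), (nat_lit 0), (nat_lit 0), (nat_lit 0), [], Pd.none, Pd.none, (nat_lit 0), (nat_lit 1), (nat_lit 0), (nat_lit 0), (nat_lit 3), (nat_lit 0), [⟨(nat_lit 0), (nat_lit 90), (nat_lit 53), (nat_lit 100), (nat_lit 702183764)⟩], [], [], [],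
 ⟨⟨[(nat_lit 40), (nat_lit 100), (nat_lit 140)], [(nat_lit 0), (nat_lit 2396), (nat_lit 4896)], [((nat_lit 0), (nat_lit 0), (nat_lit 0)), ((nat_lit 1000), (nat_lit 625), (nat_lit 623)), ((nat_lit 1000), (nat_lit 625), (nat_lit 975))], ((nat_lit 62), (nat_lit 100), (nat_lit 97))⟩, (nat_lit 2017459), (nat_lit 208), (nat_lit 208), (nat_lit 0), (nat_lit 222131), [(nat_lit 2032011945), (nat_lit 6250001459), (nat_lit 9842000000)], [], [(nat_lit 22120182206), (nat_lit 23332009800), (nat_lit 23674243875), (nat_lit 24870455751), (nat_lit 22823540239), (nat_lit 24059340205), (nat_lit 24306124152), (nat_lit 25370989622)], (nat_lit 1271251), (nat_lit 1271251), (nat_lit 1017188), (nat_lit 1779376), (nat_lit 780000), (nat_lit 1435001), [(nat_lit 490000), (nat_lit 1427501), (nat_lit 1271251)], [(nat_lit 5), (nat_lit 55), (nat_lit 345), (nat_lit 125), (nat_lit 9)]⟩,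
 ⟨⟨[(nat_lit 60), (nat_lit 120), (nat_lit 180)], [(nat_lit 0), (nat_lit 0), (nat_lit 4796)], [((nat_lit 0), (nat_lit 0), (nat_lit 0)), ((nat_lit 0), (nat_lit 0), (nat_lit 0)), ((nat_lit 802), (nat_lit 1000), (nat_lit 999))], ((nat_lit 98), (nat_lit 75), (nat_lit 100))⟩, (nat_lit 2435507), (nat_lit 455), (nat_lit 455), (nat_lit 0), (nat_lit 311577), [(nat_lit 3282000000), (nat_lit 7968000000), (nat_lit 14058000000)], [], [(nat_lit 33183627452), (nat_lit 34028303090), (nat_lit 34225449366), (nat_lit 34923540155), (nat_lit 29390709224), (nat_lit 30250803289), (nat_lit 30925272400), (nat_lit 31640316758)], (nat_lit 1271251), (nat_lit 1271251), (nat_lit 1017188), (nat_lit 1779376), (nat_lit 0), (nat_lit 780000), [(nat_lit 780000), (nat_lit 1762501), (nat_lit 1271251)], [(nat_lit 13), (nat_lit 60), (nat_lit 401), (nat_lit 175), (nat_lit 9)]⟩,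
 Rw.none⟩) (.dle (nat_lit 0))) (.trZ (nat_lit 0) (nat_lit 1) (nat_lit 3) (nat_lit 87) (nat_lit 60) (nat_lit 100) (nat_lit 170) (.leaf ⟨(nat_lit 0), (nat_lit 1000), (nat_lit 0), (nat_lit 0), (nat_lit 12536), (nat_lit 8957), (nat_lit 8498), (nat_lit 0), (nat_lit 0), (nat_lit 0), (nat_lit 0), [], Pd.none, Pd.none, (nat_lit 0), (nat_lit 1), (nat_lit 0), (nat_lit 0), (nat_lit 3), (nat_lit 0), [⟨(nat_lit 0), (nat_lit 84), (nat_lit 53), (nat_lit 100), (nat_lit 722509513)⟩], [], [⟨(nat_lit 0), (nat_lit 100), (nat_lit 86), (nat_lit 33), (nat_lit 74576008)⟩], [],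
 ⟨⟨[(nat_lit 40), (nat_lit 100), (nat_lit 140)], [(nat_lit 0), (nat_lit 2396), (nat_lit 4896)], [((nat_lit 0), (nat_lit 0), (nat_lit 0)), ((nat_lit 1000), (nat_lit 625), (nat_lit 623)), ((nat_lit 1000), (nat_lit 625), (nat_lit 975))], ((nat_lit 62), (nat_lit 95), (nat_lit 100))⟩, (nat_lit 874024), (nat_lit 232), (nat_lit 232), (nat_lit 0), (nat_lit 304804), [(nat_lit 3056424315), (nat_lit 7029576240), (nat_lit 9842000000)], [], [(nat_lit 26421733386), (nat_lit 28482133937), (nat_lit 27760042739), (nat_lit 29544985583), (nat_lit 26354650760), (nat_lit 28149484944), (nat_lit 27349107288), (nat_lit 28905295438)], (nat_lit 1271251), (nat_lit 1271251), (nat_lit 1184688), (nat_lit 1790626), (nat_lit 780000), (nat_lit 1435001), [(nat_lit 490000), (nat_lit 1427501), (nat_lit 1271251)], [(nat_lit 5), (nat_lit 55), (nat_lit 345), (nat_lit 125), (nat_lit 9)]⟩,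
 ⟨⟨[(nat_lit 60), (nat_lit 120), (nat_lit 180)], [(nat_lit 0), (nat_lit 913), (nat_lit 5370)], [((nat_lit 0), (nat_lit 0), (nat_lit 0)), ((nat_lit 1000), (nat_lit 905), (nat_lit 238)), ((nat_lit 862), (nat_lit 939), (nat_lit 1000))], ((nat_lit 89), (nat_lit 71), (nat_lit 100))⟩, (nat_lit 3258235), (nat_lit 470), (nat_lit 470), (nat_lit 0), (nat_lit 375635), [(nat_lit 3282000000), (nat_lit 7968000000), (nat_lit 14058000000)], [], [(nat_lit 26191418537), (nat_lit 27144502328), (nat_lit 27171236773), (nat_lit 28101655754), (nat_lit 21370543460), (nat_lit 22201793323), (nat_lit 22176304088), (nat_lit 22874370455)], (nat_lit 1271251), (nat_lit 1271251), (nat_lit 1184688), (nat_lit 1790626), (nat_lit 0), (nat_lit 780000), [(nat_lit 780000), (nat_lit 1762501), (nat_lit 1271251)], [(nat_lit 13), (nat_lit 60), (nat_lit 401), (nat_lit 175), (nat_lit 9)]⟩,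
 Rw.none⟩))) (.leaf ⟨(nat_lit 0), (nat_lit 886), (nat_lit 0), (nat_lit 114), (nat_lit 5957), (nat_lit 13200), (nat_lit 10015), (nat_lit 1321), (nat_lit 0), (nat_lit 0), (nat_lit 0), [], Pd.none, Pd.none, (nat_lit 0), (nat_lit 1), (nat_lit 0), (nat_lit 0), (nat_lit 3), (nat_lit 0), [⟨(nat_lit 0), (nat_lit 87), (nat_lit 53), (nat_lit 100), (nat_lit 822633335)⟩], [], [], [],
 ⟨⟨[(nat_lit 40), (nat_lit 100), (nat_lit 140)], [(nat_lit 0), (nat_lit 2396), (nat_lit 4896)], [((nat_lit 0), (nat_lit 0), (nat_lit 0)), ((nat_lit 1000), (nat_lit 625), (nat_lit 623)), ((nat_lit 1000), (nat_lit 625), (nat_lit 975))], ((nat_lit 62), (nat_lit 95), (nat_lit 100))⟩, (nat_lit 0), (nat_lit 236), (nat_lit 236), (nat_lit 0), (nat_lit 304519), [(nat_lit 4514609325), (nat_lit 8570690662), (nat_lit 9842000000)], [], [(nat_lit 29623111975), (nat_lit 32452605913), (nat_lit 30611914800), (nat_lit 33227580800), (nat_lit 28788071400), (nat_lit 31231055750), (nat_lit 29216845200),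 (nat_lit 32241286300)], (nat_lit 1271251), (nat_lit 1271251), (nat_lit 1017188), (nat_lit 1779376), (nat_lit 780000), (nat_lit 1435001), [(nat_lit 490000), (nat_lit 1427501), (nat_lit 1271251)], [(nat_lit 5), (nat_lit 55), (nat_lit 345), (nat_lit 125), (nat_lit 9)]⟩,
 ⟨⟨[(nat_lit 60), (nat_lit 120), (nat_lit 180)], [(nat_lit 0), (nat_lit 0), (nat_lit 4796)], [((nat_lit 0), (nat_lit 0), (nat_lit 0)), ((nat_lit 0), (nat_lit 0), (nat_lit 0)), ((nat_lit 802), (nat_lit 1000), (nat_lit 999))], ((nat_lit 94), (nat_lit 63), (nat_lit 100))⟩, (nat_lit 2428494), (nat_lit 425), (nat_lit 425), (nat_lit 0), (nat_lit 455893), [(nat_lit 3282000000), (nat_lit 7968000000), (nat_lit 14058000000)], [], [(nat_lit 24193662490), (nat_lit 26009211975), (nat_lit 24601323906), (nat_lit 26493824876), (nat_lit 23517611445), (nat_lit 25150468610), (nat_lit 24896024390), (nat_lit 25488478050)], (nat_lit 1271251), (nat_lit 1271251), (nat_lit 1017188), (nat_lit 1779376), (nat_lit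 780000), (nat_lit 1435001), [(nat_lit 780000), (nat_lit 1762501), (nat_lit 1271251)], [(nat_lit 13), (nat_lit 60), (nat_lit 428), (nat_lit 200), (nat_lit 9)]⟩,
 ⟨⟨[(nat_lit 140), (nat_lit 180), (nat_lit 200)], [(nat_lit 0), (nat_lit 0), (nat_lit 2835)], [((nat_lit 0), (nat_lit 0), (nat_lit 0)), ((nat_lit 0), (nat_lit 0), (nat_lit 0)), ((nat_lit 363), (nat_lit 1000), (nat_lit 798))], ((nat_lit 0), (nat_lit 0), (nat_lit 0))⟩, (nat_lit 31365), (nat_lit 300), (nat_lit 1941), (nat_lit 8903402), (nat_lit 3271510), [(nat_lit 1121988000), (nat_lit 1602612000), (nat_lit 1869600000)], [], [(nat_lit 7690118713), (nat_lit 7390637446), (nat_lit 7287683981), (nat_lit 6989236513), (nat_lit 7287683981), (nat_lit 6989236513), (nat_lit 6886734218), (nat_lit 7875015759)], (nat_lit 780000), (nat_lit 1271251), (nat_lit 780000), (nat_lit 1435001), (nat_lit 780000), (nat_lit 1435001), [(nat_lit 1977501), (nat_lit 1271251), (nat_lit 1271251)], [(nat_lit 32), (nat_lit 67),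 (nat_lit 558), (nat_lit 150), (nat_lit 12)]⟩⟩))
noncomputable def c17_110 : Tr Lf :=
 (.stt (nat_lit 1) (.stt (nat_lit 2) (.leaf ⟨(nat_lit 0), (nat_lit 938), (nat_lit 0), (nat_lit 62), (nat_lit 11538), (nat_lit 7833), (nat_lit 8967), (nat_lit 714), (nat_lit 0), (nat_lit 0), (nat_lit 0), [], Pd.none, Pd.none, (nat_lit 0), (nat_lit 1), (nat_lit 0), (nat_lit 0), (nat_lit 5), (nat_lit 0), [⟨(nat_lit 0), (nat_lit 87), (nat_lit 53), (nat_lit 100), (nat_lit 769461836)⟩], [], [⟨(nat_lit 1), (nat_lit 72), (nat_lit 89), (nat_lit 100), (nat_lit 504942393)⟩], [],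
 ⟨⟨[(nat_lit 40), (nat_lit 100), (nat_lit 140)], [(nat_lit 0), (nat_lit 2396), (nat_lit 4896)], [((nat_lit 0), (nat_lit 0), (nat_lit 0)), ((nat_lit 1000), (nat_lit 625), (nat_lit 623)), ((nat_lit 1000), (nat_lit 625), (nat_lit 975))], ((nat_lit 62), (nat_lit 95), (nat_lit 100))⟩, (nat_lit 0), (nat_lit 81), (nat_lit 81), (nat_lit 0), (nat_lit 0), [(nat_lit 3065732511), (nat_lit 6250000030), (nat_lit 9842000000)], [], [(nat_lit 23615946995), (nat_lit 25962931557), (nat_lit 25839586178), (nat_lit 27847396765), (nat_lit 24417615053), (nat_lit 26461594505), (nat_lit 26176609621), (nat_lit 28021568422)], (nat_lit 0), (nat_lit 0), (nat_lit 0), (nat_lit 0), (nat_lit 0), (nat_lit 0), [], [(nat_lit 5), (nat_lit 55), (nat_lit 345), (nat_lit 125), (nat_lit 9)]⟩,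
 ⟨⟨[(nat_lit 60), (nat_lit 120), (nat_lit 180)], [(nat_lit 0), (nat_lit 0), (nat_lit 4796)], [((nat_lit 0), (nat_lit 0), (nat_lit 0)), ((nat_lit 0), (nat_lit 0), (nat_lit 0)), ((nat_lit 802), (nat_lit 1000), (nat_lit 999))], ((nat_lit 94), (nat_lit 63), (nat_lit 100))⟩, (nat_lit 0), (nat_lit 100), (nat_lit 100), (nat_lit 0), (nat_lit 0), [(nat_lit 3282000000), (nat_lit 7968000000), (nat_lit 14058000000)], [], [(nat_lit 19435686428), (nat_lit 22763959066), (nat_lit 22076896451), (nat_lit 24777951184), (nat_lit 31444481176), (nat_lit 33384823913), (nat_lit 31822684410), (nat_lit 33883319168)], (nat_lit 0), (nat_lit 0), (nat_lit 0), (nat_lit 0), (nat_lit 0), (nat_lit 0), [], [(nat_lit 13), (nat_lit 60), (nat_lit 483), (nat_lit 250), (nat_lit 10)]⟩,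
 ⟨⟨[(nat_lit 140), (nat_lit 180), (nat_lit 200)], [(nat_lit 0), (nat_lit 0), (nat_lit 2835)], [((nat_lit 0), (nat_lit 0), (nat_lit 0)), ((nat_lit 0), (nat_lit 0), (nat_lit 0)), ((nat_lit 363), (nat_lit 1000), (nat_lit 798))], ((nat_lit 0), (nat_lit 0), (nat_lit 0))⟩, (nat_lit 17058), (nat_lit 300), (nat_lit 1901), (nat_lit 4842203), (nat_lit 3271510), [(nat_lit 610204000), (nat_lit 871596000), (nat_lit 1016800000)], [], [(nat_lit 3987413298), (nat_lit 3826361385), (nat_lit 3771044392), (nat_lit 3610565609), (nat_lit 3760546018), (nat_lit 3594373601), (nat_lit 3537080294), (nat_lit 3371647427)], (nat_lit 780000), (nat_lit 1271251), (nat_lit 780000), (nat_lit 1435001), (nat_lit 1271251), (nat_lit 1271251), [(nat_lit 1977501), (nat_lit 1271251), (nat_lit 1271251)], [(nat_lit 32), (nat_lit 67), (nat_lit 571), (nat_lit 200), (nat_lit 12)]⟩⟩) (.spl (nat_lit 0) (nat_lit 370) (.spl (nat_lit 6) (nat_lit 132) (.leaf ⟨(nat_lit 0), (nat_lit 788), (nat_lit 0),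 (nat_lit 212), (nat_lit 4301), (nat_lit 8024), (nat_lit 8759), (nat_lit 2475), (nat_lit 0), (nat_lit 0), (nat_lit 0), [], Pd.none, Pd.none, (nat_lit 0), (nat_lit 1), (nat_lit 0), (nat_lit 0), (nat_lit 5), (nat_lit 0), [⟨(nat_lit 0), (nat_lit 87), (nat_lit 57), (nat_lit 100), (nat_lit 714451297)⟩], [], [⟨(nat_lit 1), (nat_lit 72), (nat_lit 89), (nat_lit 100), (nat_lit 226223137)⟩], [],
 ⟨⟨[(nat_lit 40), (nat_lit 100), (nat_lit 140)], [(nat_lit 0), (nat_lit 2396), (nat_lit 4896)], [((nat_lit 0), (nat_lit 0), (nat_lit 0)), ((nat_lit 1000), (nat_lit 625), (nat_lit 623)), ((nat_lit 1000), (nat_lit 625), (nat_lit 975))], ((nat_lit 63), (nat_lit 100), (nat_lit 98))⟩, (nat_lit 0), (nat_lit 72), (nat_lit 72), (nat_lit 0), (nat_lit 0), [(nat_lit 3060718128), (nat_lit 6250000002), (nat_lit 9842000000)], [], [(nat_lit 23530279647), (nat_lit 24723618273), (nat_lit 25752978346), (nat_lit 26751537784), (nat_lit 24305688284), (nat_lit 25344407014), (nat_lit 26055081450),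 (nat_lit 27051213290)], (nat_lit 0), (nat_lit 0), (nat_lit 0), (nat_lit 0), (nat_lit 0), (nat_lit 0), [], [(nat_lit 5), (nat_lit 55), (nat_lit 345), (nat_lit 125), (nat_lit 9)]⟩,
 ⟨⟨[(nat_lit 60), (nat_lit 120), (nat_lit 180)], [(nat_lit 0), (nat_lit 0), (nat_lit 4796)], [((nat_lit 0), (nat_lit 0), (nat_lit 0)), ((nat_lit 0), (nat_lit 0), (nat_lit 0)), ((nat_lit 802), (nat_lit 1000), (nat_lit 999))], ((nat_lit 97), (nat_lit 73), (nat_lit 100))⟩, (nat_lit 2056660), (nat_lit 296), (nat_lit 296), (nat_lit 0), (nat_lit 355419), [(nat_lit 3282000000), (nat_lit 7968000000), (nat_lit 14058000000)], [], [(nat_lit 27322602179), (nat_lit 28771112708), (nat_lit 27598750045), (nat_lit 28746235968), (nat_lit 32890679840), (nat_lit 33963782426), (nat_lit 32646371570), (nat_lit 33679083136)], (nat_lit 1271251), (nat_lit 1271251), (nat_lit 1017188), (nat_lit 1779376), (nat_lit 1271251), (nat_lit 1271251), [(nat_lit 780000), (nat_lit 1762501), (nat_lit 1271251)], [(nat_lit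 13), (nat_lit 60), (nat_lit 483), (nat_lit 250), (nat_lit 10)]⟩,
 ⟨⟨[(nat_lit 140), (nat_lit 180), (nat_lit 200)], [(nat_lit 0), (nat_lit 0), (nat_lit 2835)], [((nat_lit 0), (nat_lit 0), (nat_lit 0)), ((nat_lit 0), (nat_lit 0), (nat_lit 0)), ((nat_lit 363), (nat_lit 1000), (nat_lit 798))], ((nat_lit 0), (nat_lit 0), (nat_lit 0))⟩, (nat_lit 58328), (nat_lit 300), (nat_lit 1115), (nat_lit 16557201), (nat_lit 1613347), [(nat_lit 2086504000), (nat_lit 2980296000), (nat_lit 3476800000)], [], [(nat_lit 13453295623), (nat_lit 12893057056), (nat_lit 12700656410), (nat_lit 12142447392), (nat_lit 12719418435), (nat_lit 12141316640), (nat_lit 11942028501), (nat_lit 11384791094)], (nat_lit 780000), (nat_lit 1271251), (nat_lit 780000), (nat_lit 1435001), (nat_lit 1271251), (nat_lit 1271251), [(nat_lit 1977501), (nat_lit 1271251), (nat_lit 1271251)], [(nat_lit 32), (nat_lit 67), (nat_lit 428), (nat_lit 200), (nat_lit 9)]⟩⟩) (.dle (nat_lit 0))) (.trZ (nat_lit 0)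 (nat_lit 1) (nat_lit 3) (nat_lit 93) (nat_lit 53) (nat_lit 100) (nat_lit 170) (.spl (nat_lit 0) (nat_lit 375) (.spl (nat_lit 6) (nat_lit 140) (.leaf ⟨(nat_lit 0), (nat_lit 781), (nat_lit 0), (nat_lit 219), (nat_lit 387), (nat_lit 7911), (nat_lit 9076), (nat_lit 2557), (nat_lit 0), (nat_lit 0), (nat_lit 0), [], Pd.none, Pd.none, (nat_lit 0), (nat_lit 1), (nat_lit 0), (nat_lit 0), (nat_lit 5), (nat_lit 0), [⟨(nat_lit 0), (nat_lit 87), (nat_lit 51), (nat_lit 100), (nat_lit 723921560)⟩], [], [⟨(nat_lit 1), (nat_lit 72), (nat_lit 89), (nat_lit 100), (nat_lit 225210794)⟩], [],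
 ⟨⟨[(nat_lit 40), (nat_lit 100), (nat_lit 140)], [(nat_lit 0), (nat_lit 2998), (nat_lit 5352)], [((nat_lit 0), (nat_lit 0), (nat_lit 0)), ((nat_lit 1000), (nat_lit 532), (nat_lit 779)), ((nat_lit 1000), (nat_lit 531), (nat_lit 919))], ((nat_lit 54), (nat_lit 100), (nat_lit 98))⟩, (nat_lit 0), (nat_lit 75), (nat_lit 75), (nat_lit 0), (nat_lit 0), [(nat_lit 2975421968), (nat_lit 6250000003), (nat_lit 9842000000)], [], [(nat_lit 24937611411), (nat_lit 25508348382), (nat_lit 26793371176), (nat_lit 27288267207), (nat_lit 25502557203), (nat_lit 25999728997), (nat_lit 26990514244), (nat_lit 27528028867)], (nat_lit 0), (nat_lit 0), (nat_lit 0), (nat_lit 0), (nat_lit 0), (nat_lit 0), [], [(nat_lit 5), (nat_lit 55), (nat_lit 345), (nat_lit 125), (nat_lit 9)]⟩,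
 ⟨⟨[(nat_lit 60), (nat_lit 120), (nat_lit 180)], [(nat_lit 0), (nat_lit 0), (nat_lit 4796)], [((nat_lit 0), (nat_lit 0), (nat_lit 0)), ((nat_lit 0), (nat_lit 0), (nat_lit 0)), ((nat_lit 802), (nat_lit 1000), (nat_lit 999))], ((nat_lit 96), (nat_lit 69), (nat_lit 100))⟩, (nat_lit 1943891), (nat_lit 370), (nat_lit 370), (nat_lit 0), (nat_lit 405220), [(nat_lit 3282000000), (nat_lit 7968000000), (nat_lit 14058000000)], [], [(nat_lit 27194202685), (nat_lit 28598416091), (nat_lit 27573997184), (nat_lit 28730611756), (nat_lit 33030033967), (nat_lit 34058900216), (nat_lit 32741832754), (nat_lit 33990346704)], (nat_lit 1271251), (nat_lit 1271251), (nat_lit 1184688), (nat_lit 1790626), (nat_lit 1271251), (nat_lit 1271251), [(nat_lit 780000), (nat_lit 1762501), (nat_lit 1271251)], [(nat_lit 13), (nat_lit 60), (nat_lit 483), (nat_lit 250), (nat_lit 10)]⟩,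
 ⟨⟨[(nat_lit 140), (nat_lit 180), (nat_lit 200)], [(nat_lit 0), (nat_lit 0), (nat_lit 2835)], [((nat_lit 0), (nat_lit 0), (nat_lit 0)), ((nat_lit 0), (nat_lit 0), (nat_lit 0)), ((nat_lit 363), (nat_lit 1000), (nat_lit 798))], ((nat_lit 0), (nat_lit 0), (nat_lit 0))⟩, (nat_lit 60254), (nat_lit 300), (nat_lit 1231), (nat_lit 17103900), (nat_lit 1857964), [(nat_lit 2155398000), (nat_lit 3078702000), (nat_lit 3591600000)], [], [(nat_lit 13896006501), (nat_lit 13317190387), (nat_lit 13118409936), (nat_lit 12541690963), (nat_lit 13138244649), (nat_lit 12540972546), (nat_lit 12335127610), (nat_lit 11759854521)], (nat_lit 780000), (nat_lit 1271251), (nat_lit 780000), (nat_lit 1435001), (nat_lit 1271251), (nat_lit 1271251), [(nat_lit 1977501), (nat_lit 1271251), (nat_lit 1271251)], [(nat_lit 32), (nat_lit 67), (nat_lit 428), (nat_lit 200), (nat_lit 9)]⟩⟩) (.dle (nat_lit 0))) (.trZ (nat_lit 0) (nat_lit 1) (nat_lit 3) (nat_lit 92) (nat_lit 49) (nat_lit 100) (nat_lit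 180) (.spl (nat_lit 1) (nat_lit 300) (.spl (nat_lit 6) (nat_lit 128) (.leaf ⟨(nat_lit 0), (nat_lit 792), (nat_lit 0), (nat_lit 208), (nat_lit 0), (nat_lit 6124), (nat_lit 8933), (nat_lit 2429), (nat_lit 0), (nat_lit 0), (nat_lit 0), [], Pd.none, Pd.none, (nat_lit 0), (nat_lit 1), (nat_lit 0), (nat_lit 0), (nat_lit 5), (nat_lit 0), [⟨(nat_lit 0), (nat_lit 89), (nat_lit 46), (nat_lit 100), (nat_lit 537954032)⟩, ⟨(nat_lit 0), (nat_lit 87), (nat_lit 44), (nat_lit 100), (nat_lit 254418411)⟩], [], [⟨(nat_lit 1), (nat_lit 68), (nat_lit 92), (nat_lit 100), (nat_lit 232387972)⟩], [],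
 ⟨⟨[(nat_lit 40), (nat_lit 80), (nat_lit 120)], [(nat_lit 0), (nat_lit 2244), (nat_lit 4243)], [((nat_lit 0), (nat_lit 0), (nat_lit 0)), ((nat_lit 1000), (nat_lit 495), (nat_lit 771)), ((nat_lit 1000), (nat_lit 493), (nat_lit 781))], ((nat_lit 49), (nat_lit 100), (nat_lit 94))⟩, (nat_lit 0), (nat_lit 65), (nat_lit 65), (nat_lit 0), (nat_lit 0), [(nat_lit 2442186857), (nat_lit 4688000027), (nat_lit 7968000000)], [], [(nat_lit 23968717171), (nat_lit 24477389421), (nat_lit 25650216274), (nat_lit 26134198606), (nat_lit 24870640989), (nat_lit 25315940842), (nat_lit 26282043944), (nat_lit 26678144917)], (nat_lit 0), (nat_lit 0), (nat_lit 0), (nat_lit 0), (nat_lit 0), (nat_lit 0), [], [(nat_lit 4), (nat_lit 51), (nat_lit 345), (nat_lit 125), (nat_lit 10)]⟩,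
 ⟨⟨[(nat_lit 60), (nat_lit 120), (nat_lit 180)], [(nat_lit 0), (nat_lit 0), (nat_lit 4796)], [((nat_lit 0), (nat_lit 0), (nat_lit 0)), ((nat_lit 0), (nat_lit 0), (nat_lit 0)), ((nat_lit 802), (nat_lit 1000), (nat_lit 999))], ((nat_lit 98), (nat_lit 75), (nat_lit 100))⟩, (nat_lit 2088352), (nat_lit 291), (nat_lit 291), (nat_lit 0), (nat_lit 369461), [(nat_lit 3282000000), (nat_lit 7968000000), (nat_lit 14058000000)], [], [(nat_lit 26796705570), (nat_lit 27477678983), (nat_lit 27136303543), (nat_lit 27712551844), (nat_lit 32323597291), (nat_lit 32822622211), (nat_lit 32335647590), (nat_lit 32821114016)], (nat_lit 1271251), (nat_lit 1271251), (nat_lit 1271251), (nat_lit 1271251), (nat_lit 1271251), (nat_lit 1271251), [(nat_lit 780000), (nat_lit 1762501), (nat_lit 1271251)], [(nat_lit 13), (nat_lit 60), (nat_lit 483), (nat_lit 250), (nat_lit 10)]⟩,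
 ⟨⟨[(nat_lit 140), (nat_lit 180), (nat_lit 200)], [(nat_lit 0), (nat_lit 0), (nat_lit 2835)], [((nat_lit 0), (nat_lit 0), (nat_lit 0)), ((nat_lit 0), (nat_lit 0), (nat_lit 0)), ((nat_lit 363), (nat_lit 1000), (nat_lit 798))], ((nat_lit 0), (nat_lit 0), (nat_lit 0))⟩, (nat_lit 57228), (nat_lit 300), (nat_lit 1094), (nat_lit 16244800), (nat_lit 1564386), [(nat_lit 2047136000), (nat_lit 2924064000), (nat_lit 3411200000)], [], [(nat_lit 13195694457), (nat_lit 12645827998), (nat_lit 12456989942), (nat_lit 11909116190), (nat_lit 12476534453), (nat_lit 11909134440), (nat_lit 11714359119), (nat_lit 11167853765)], (nat_lit 780000), (nat_lit 1271251), (nat_lit 780000), (nat_lit 1435001), (nat_lit 1271251), (nat_lit 1271251), [(nat_lit 1977501), (nat_lit 1271251), (nat_lit 1271251)], [(nat_lit 32), (nat_lit 67), (nat_lit 428), (nat_lit 200), (nat_lit 9)]⟩⟩) (.dle (nat_lit 0))) (.trZ (nat_lit 0) (nat_lit 1) (nat_lit 3) (nat_lit 87) (nat_lit 48) (nat_lit 100) (nat_lit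 200) (.trX (nat_lit 5) (nat_lit 1) (nat_lit 2) (nat_lit 87) (nat_lit 59) (nat_lit 100) (nat_lit 370) (.leaf ⟨(nat_lit 0), (nat_lit 813), (nat_lit 0), (nat_lit 187), (nat_lit 0), (nat_lit 7743), (nat_lit 7945), (nat_lit 2190), (nat_lit 0), (nat_lit 0), (nat_lit 0), [], Pd.none, Pd.none, (nat_lit 0), (nat_lit 1), (nat_lit 0), (nat_lit 0), (nat_lit 5), (nat_lit 0), [⟨(nat_lit 0), (nat_lit 84), (nat_lit 46), (nat_lit 100), (nat_lit 819853839)⟩], [], [⟨(nat_lit 1), (nat_lit 77), (nat_lit 86), (nat_lit 100), (nat_lit 278911964)⟩], [],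
 ⟨⟨[(nat_lit 40), (nat_lit 100), (nat_lit 140)], [(nat_lit 0), (nat_lit 3299), (nat_lit 5587)], [((nat_lit 0), (nat_lit 0), (nat_lit 0)), ((nat_lit 1000), (nat_lit 484), (nat_lit 858)), ((nat_lit 1000), (nat_lit 484), (nat_lit 894))], ((nat_lit 50), (nat_lit 99), (nat_lit 100))⟩, (nat_lit 0), (nat_lit 78), (nat_lit 78), (nat_lit 0), (nat_lit 0), [(nat_lit 2928594680), (nat_lit 6250000151), (nat_lit 9842000000)], [], [(nat_lit 26326578127), (nat_lit 26856896963), (nat_lit 27343151021), (nat_lit 27830735941), (nat_lit 26695693136), (nat_lit 27158289548), (nat_lit 27511557718), (nat_lit 27950807362)], (nat_lit 0), (nat_lit 0), (nat_lit 0), (nat_lit 0), (nat_lit 0), (nat_lit 0), [], [(nat_lit 5), (nat_lit 55), (nat_lit 345), (nat_lit 125), (nat_lit 9)]⟩,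
 ⟨⟨[(nat_lit 60), (nat_lit 120), (nat_lit 180)], [(nat_lit 0), (nat_lit 913), (nat_lit 5370)], [((nat_lit 0), (nat_lit 0), (nat_lit 0)), ((nat_lit 1000), (nat_lit 905), (nat_lit 238)), ((nat_lit 862), (nat_lit 939), (nat_lit 1000))], ((nat_lit 89), (nat_lit 71), (nat_lit 100))⟩, (nat_lit 2088234), (nat_lit 376), (nat_lit 376), (nat_lit 0), (nat_lit 441834), [(nat_lit 3282000000), (nat_lit 7968000000), (nat_lit 14058000000)], [], [(nat_lit 26128743981), (nat_lit 26754186993), (nat_lit 26356482636), (nat_lit 26918505218), (nat_lit 31267700317), (nat_lit 31762004589), (nat_lit 31207569616), (nat_lit 32054535610)], (nat_lit 1271251), (nat_lit 1271251), (nat_lit 1271251), (nat_lit 1271251), (nat_lit 1271251), (nat_lit 1271251), [(nat_lit 780000), (nat_lit 1762501), (nat_lit 1271251)], [(nat_lit 13), (nat_lit 60), (nat_lit 483), (nat_lit 250), (nat_lit 10)]⟩,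
 ⟨⟨[(nat_lit 140), (nat_lit 180), (nat_lit 200)], [(nat_lit 0), (nat_lit 0), (nat_lit 2835)], [((nat_lit 0), (nat_lit 0), (nat_lit 0)), ((nat_lit 0), (nat_lit 0), (nat_lit 0)), ((nat_lit 363), (nat_lit 1000), (nat_lit 798))], ((nat_lit 0), (nat_lit 0), (nat_lit 0))⟩, (nat_lit 51450), (nat_lit 300), (nat_lit 1344), (nat_lit 14604700), (nat_lit 2113524), [(nat_lit 1840454000), (nat_lit 2628846000), (nat_lit 3066800000)], [], [(nat_lit 11829812898), (nat_lit 11333689409), (nat_lit 11163312830), (nat_lit 10668993825), (nat_lit 11202102187), (nat_lit 10692676972), (nat_lit 10517014465), (nat_lit 10013982134)], (nat_lit 780000), (nat_lit 1271251), (nat_lit 780000), (nat_lit 1435001), (nat_lit 1271251), (nat_lit 1271251), [(nat_lit 1977501), (nat_lit 1271251), (nat_lit 1271251)], [(nat_lit 32), (nat_lit 67), (nat_lit 430), (nat_lit 200), (nat_lit 9)]⟩⟩))))))))) (.stt (nat_lit 2) (.leaf ⟨(nat_lit 0), (nat_lit 901), (nat_lit 0), (nat_lit 99), (nat_lit 17209),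 (nat_lit 6169), (nat_lit 9286), (nat_lit 1156), (nat_lit 0), (nat_lit 0), (nat_lit 0), [], Pd.none, Pd.none, (nat_lit 0), (nat_lit 1), (nat_lit 0), (nat_lit 0), (nat_lit 5), (nat_lit 0), [⟨(nat_lit 0), (nat_lit 87), (nat_lit 53), (nat_lit 100), (nat_lit 773594383)⟩], [], [⟨(nat_lit 1), (nat_lit 72), (nat_lit 89), (nat_lit 100), (nat_lit 488860196)⟩], [],
 ⟨⟨[(nat_lit 40), (nat_lit 100), (nat_lit 140)], [(nat_lit 0), (nat_lit 2396), (nat_lit 4896)], [((nat_lit 0), (nat_lit 0), (nat_lit 0)), ((nat_lit 1000), (nat_lit 625), (nat_lit 623)), ((nat_lit 1000), (nat_lit 625), (nat_lit 975))], ((nat_lit 62), (nat_lit 95), (nat_lit 100))⟩, (nat_lit 1583205), (nat_lit 236), (nat_lit 236), (nat_lit 0), (nat_lit 304519), [(nat_lit 2399224904), (nat_lit 6547516638), (nat_lit 9842000000)], [], [(nat_lit 23635766342), (nat_lit 25310187825), (nat_lit 25225778551), (nat_lit 26645645341), (nat_lit 24184183118), (nat_lit 25656617896), (nat_lit 25461500184), (nat_lit 26713275046)],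 (nat_lit 1271251), (nat_lit 1271251), (nat_lit 1017188), (nat_lit 1779376), (nat_lit 780000), (nat_lit 1435001), [(nat_lit 490000), (nat_lit 1427501), (nat_lit 1271251)], [(nat_lit 5), (nat_lit 55), (nat_lit 345), (nat_lit 125), (nat_lit 9)]⟩,
 ⟨⟨[(nat_lit 60), (nat_lit 120), (nat_lit 180)], [(nat_lit 0), (nat_lit 0), (nat_lit 4796)], [((nat_lit 0), (nat_lit 0), (nat_lit 0)), ((nat_lit 0), (nat_lit 0), (nat_lit 0)), ((nat_lit 802), (nat_lit 1000), (nat_lit 999))], ((nat_lit 94), (nat_lit 63), (nat_lit 100))⟩, (nat_lit 0), (nat_lit 100), (nat_lit 100), (nat_lit 0), (nat_lit 0), [(nat_lit 3282000000), (nat_lit 7968000000), (nat_lit 14058000000)], [], [(nat_lit 19087612210), (nat_lit 22490152514), (nat_lit 21741835758), (nat_lit 24498109072), (nat_lit 31340089144), (nat_lit 33754114383), (nat_lit 32101204958), (nat_lit 34196546544)], (nat_lit 0), (nat_lit 0), (nat_lit 0), (nat_lit 0), (nat_lit 0), (nat_lit 0), [], [(nat_lit 13), (nat_lit 60), (nat_lit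 483), (nat_lit 250), (nat_lit 10)]⟩,
 ⟨⟨[(nat_lit 140), (nat_lit 180), (nat_lit 200)], [(nat_lit 0), (nat_lit 0), (nat_lit 2835)], [((nat_lit 0), (nat_lit 0), (nat_lit 0)), ((nat_lit 0), (nat_lit 0), (nat_lit 0)), ((nat_lit 363), (nat_lit 1000), (nat_lit 798))], ((nat_lit 0), (nat_lit 0), (nat_lit 0))⟩, (nat_lit 27238), (nat_lit 300), (nat_lit 1248), (nat_lit 7731902), (nat_lit 1896402), [(nat_lit 974358000), (nat_lit 1391742000), (nat_lit 1623600000)], [], [(nat_lit 6281241296), (nat_lit 6019557441), (nat_lit 5929688498), (nat_lit 5668952865), (nat_lit 5938810552), (nat_lit 5668782566), (nat_lit 5575890427), (nat_lit 5315807337)], (nat_lit 780000), (nat_lit 1271251), (nat_lit 780000), (nat_lit 1435001), (nat_lit 1271251), (nat_lit 1271251), [(nat_lit 1977501), (nat_lit 1271251), (nat_lit 1271251)], [(nat_lit 32), (nat_lit 67), (nat_lit 428), (nat_lit 200), (nat_lit 9)]⟩⟩) (.leaf ⟨(nat_lit 0), (nat_lit 420), (nat_lit 0), (nat_lit 580), (nat_lit 0),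 (nat_lit 4216), (nat_lit 16114), (nat_lit 7708), (nat_lit 0), (nat_lit 0), (nat_lit 0), [], Pd.none, Pd.none, (nat_lit 0), (nat_lit 1), (nat_lit 0), (nat_lit 0), (nat_lit 5), (nat_lit 0), [⟨(nat_lit 0), (nat_lit 87), (nat_lit 53), (nat_lit 100), (nat_lit 911112600)⟩], [], [], [],
 ⟨⟨[(nat_lit 40), (nat_lit 100), (nat_lit 140)], [(nat_lit 0), (nat_lit 2396), (nat_lit 4896)], [((nat_lit 0), (nat_lit 0), (nat_lit 0)), ((nat_lit 1000), (nat_lit 625), (nat_lit 623)), ((nat_lit 1000), (nat_lit 625), (nat_lit 975))], ((nat_lit 62), (nat_lit 95), (nat_lit 100))⟩, (nat_lit 2200420), (nat_lit 197), (nat_lit 197), (nat_lit 0), (nat_lit 187630), [(nat_lit 2032000006), (nat_lit 6365470041), (nat_lit 9842000000)], [], [(nat_lit 21103927950), (nat_lit 22457452148), (nat_lit 22860885064), (nat_lit 24221511604), (nat_lit 22066903717), (nat_lit 23239419895), (nat_lit 23775396653), (nat_lit 25177760044)], (nat_lit 1271251), (nat_lit 1271251), (nat_lit 1017188), (nat_lit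 1779376), (nat_lit 780000), (nat_lit 1435001), [(nat_lit 490000), (nat_lit 1427501), (nat_lit 1271251)], [(nat_lit 5), (nat_lit 55), (nat_lit 345), (nat_lit 125), (nat_lit 9)]⟩,
 ⟨⟨[(nat_lit 60), (nat_lit 120), (nat_lit 180)], [(nat_lit 0), (nat_lit 0), (nat_lit 4796)], [((nat_lit 0), (nat_lit 0), (nat_lit 0)), ((nat_lit 0), (nat_lit 0), (nat_lit 0)), ((nat_lit 802), (nat_lit 1000), (nat_lit 999))], ((nat_lit 94), (nat_lit 63), (nat_lit 100))⟩, (nat_lit 341785), (nat_lit 261), (nat_lit 261), (nat_lit 0), (nat_lit 255513), [(nat_lit 3282000000), (nat_lit 7968000000), (nat_lit 14058000000)], [], [(nat_lit 30183703638), (nat_lit 33204341077), (nat_lit 30239848758), (nat_lit 32558892616), (nat_lit 40494702893), (nat_lit 41691634260), (nat_lit 38076408242), (nat_lit 40900987056)], (nat_lit 1271251), (nat_lit 1271251), (nat_lit 1017188), (nat_lit 1779376), (nat_lit 1271251), (nat_lit 1271251), [(nat_lit 780000), (nat_lit 1762501), (nat_lit 1271251)], [(nat_lit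 13), (nat_lit 60), (nat_lit 483), (nat_lit 250), (nat_lit 10)]⟩,
 ⟨⟨[(nat_lit 140), (nat_lit 180), (nat_lit 200)], [(nat_lit 0), (nat_lit 0), (nat_lit 2835)], [((nat_lit 0), (nat_lit 0), (nat_lit 0)), ((nat_lit 0), (nat_lit 0), (nat_lit 0)), ((nat_lit 363), (nat_lit 1000), (nat_lit 798))], ((nat_lit 0), (nat_lit 0), (nat_lit 0))⟩, (nat_lit 159577), (nat_lit 300), (nat_lit 706), (nat_lit 45298000), (nat_lit 738417), [(nat_lit 5708360000), (nat_lit 8153640000), (nat_lit 9512000000)], [], [(nat_lit 33408795012), (nat_lit 31811601929), (nat_lit 31251117760), (nat_lit 29637914336), (nat_lit 32643739834), (nat_lit 31018915853), (nat_lit 30443186410), (nat_lit 28804247358)], (nat_lit 780000), (nat_lit 1271251), (nat_lit 780000), (nat_lit 1435001), (nat_lit 1271251), (nat_lit 1271251), [(nat_lit 1977501), (nat_lit 1271251), (nat_lit 1271251)], [(nat_lit 32), (nat_lit 67), (nat_lit 428), (nat_lit 200), (nat_lit 9)]⟩⟩)))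
noncomputable def c17_111 : Tr Lf :=
 (.spl (nat_lit 1) (nat_lit 300) (.spl (nat_lit 6) (nat_lit 128) (.spl (nat_lit 0) (nat_lit 370) (.spl (nat_lit 6) (nat_lit 112) (.leaf ⟨(nat_lit 0), (nat_lit 1000), (nat_lit 0), (nat_lit 0), (nat_lit 19950), (nat_lit 9457), (nat_lit 9648), (nat_lit 0), (nat_lit 0), (nat_lit 0), (nat_lit 0), [], Pd.none, Pd.none, (nat_lit 0), (nat_lit 1), (nat_lit 0), (nat_lit 0), (nat_lit 5), (nat_lit 0), [⟨(nat_lit 0), (nat_lit 90), (nat_lit 57), (nat_lit 100), (nat_lit 579814278)⟩], [⟨(nat_lit 1), (nat_lit 97), (nat_lit 58), (nat_lit 100), (nat_lit 745515982)⟩], [⟨(nat_lit 0), (nat_lit 100), (nat_lit 92), (nat_lit 22), (nat_lit 138608396)⟩], [],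
 ⟨⟨[(nat_lit 40), (nat_lit 80), (nat_lit 120)], [(nat_lit 0), (nat_lit 1598), (nat_lit 3468)], [((nat_lit 0), (nat_lit 0), (nat_lit 0)), ((nat_lit 1000), (nat_lit 625), (nat_lit 623)), ((nat_lit 1000), (nat_lit 604), (nat_lit 730))], ((nat_lit 61), (nat_lit 100), (nat_lit 91))⟩, (nat_lit 0), (nat_lit 143), (nat_lit 143), (nat_lit 0), (nat_lit 157748), [(nat_lit 3176198338), (nat_lit 6669209863), (nat_lit 7968000000)], [], [(nat_lit 26604763395), (nat_lit 27670109627), (nat_lit 27908226822), (nat_lit 28798258612), (nat_lit 31017664854), (nat_lit 32157428241), (nat_lit 31932950736), (nat_lit 32884500863)], (nat_lit 1271251), (nat_lit 1271251), (nat_lit 1017188), (nat_lit 1779376), (nat_lit 1271251), (nat_lit 1271251), [(nat_lit 490000), (nat_lit 1100000), (nat_lit 1785001)], [(nat_lit 4), (nat_lit 51), (nat_lit 373), (nat_lit 150), (nat_lit 11)]⟩,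
 ⟨⟨[(nat_lit 60), (nat_lit 120), (nat_lit 180)], [(nat_lit 0), (nat_lit 0), (nat_lit 4796)], [((nat_lit 0), (nat_lit 0), (nat_lit 0)), ((nat_lit 0), (nat_lit 0), (nat_lit 0)), ((nat_lit 802), (nat_lit 1000), (nat_lit 999))], ((nat_lit 100), (nat_lit 83), (nat_lit 98))⟩, (nat_lit 3022652), (nat_lit 420), (nat_lit 420), (nat_lit 0), (nat_lit 211098), [(nat_lit 3282000000), (nat_lit 7968000000), (nat_lit 14058000000)], [], [(nat_lit 28829214110), (nat_lit 29839364367), (nat_lit 30491247984), (nat_lit 31762672024), (nat_lit 22361942122), (nat_lit 23742538583), (nat_lit 24291674744), (nat_lit 25406217988)], (nat_lit 1271251), (nat_lit 1271251), (nat_lit 1017188), (nat_lit 1779376), (nat_lit 0), (nat_lit 780000), [(nat_lit 780000), (nat_lit 1762501), (nat_lit 1271251)], [(nat_lit 13), (nat_lit 60), (nat_lit 401), (nat_lit 175), (nat_lit 9)]⟩,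
 Rw.none⟩) (.dle (nat_lit 0))) (.trZ (nat_lit 0) (nat_lit 1) (nat_lit 3) (nat_lit 93) (nat_lit 53) (nat_lit 100) (nat_lit 170) (.trX (nat_lit 4) (nat_lit 0) (nat_lit 2) (nat_lit 53) (nat_lit 90) (nat_lit 100) (nat_lit 290) (.leaf ⟨(nat_lit 0), (nat_lit 1000), (nat_lit 0), (nat_lit 0), (nat_lit 18406), (nat_lit 9430), (nat_lit 7446), (nat_lit 0), (nat_lit 0), (nat_lit 0), (nat_lit 0), [], Pd.none, Pd.none, (nat_lit 0), (nat_lit 1), (nat_lit 0), (nat_lit 0), (nat_lit 5), (nat_lit 0), [⟨(nat_lit 0), (nat_lit 89), (nat_lit 48), (nat_lit 100), (nat_lit 750870547)⟩], [⟨(nat_lit 1), (nat_lit 100), (nat_lit 50), (nat_lit 100), (nat_lit 793098312)⟩], [⟨(nat_lit 0), (nat_lit 100), (nat_lit 92), (nat_lit 22), (nat_lit 41536730)⟩], [],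
 ⟨⟨[(nat_lit 40), (nat_lit 80), (nat_lit 120)], [(nat_lit 0), (nat_lit 2008), (nat_lit 3930)], [((nat_lit 0), (nat_lit 0), (nat_lit 0)), ((nat_lit 1000), (nat_lit 540), (nat_lit 733)), ((nat_lit 1000), (nat_lit 536), (nat_lit 751))], ((nat_lit 54), (nat_lit 100), (nat_lit 95))⟩, (nat_lit 0), (nat_lit 157), (nat_lit 157), (nat_lit 0), (nat_lit 219004), [(nat_lit 2950496214), (nat_lit 6738333871), (nat_lit 7968000000)], [], [(nat_lit 27650458440), (nat_lit 28677302309), (nat_lit 28813517135), (nat_lit 29701863490), (nat_lit 30703470325), (nat_lit 31794688444), (nat_lit 31748132287), (nat_lit 32754900023)], (nat_lit 1271251), (nat_lit 1271251), (nat_lit 1184688), (nat_lit 1790626), (nat_lit 1271251), (nat_lit 1271251), [(nat_lit 490000), (nat_lit 1100000), (nat_lit 1785001)], [(nat_lit 4), (nat_lit 51), (nat_lit 373), (nat_lit 150), (nat_lit 11)]⟩,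
 ⟨⟨[(nat_lit 60), (nat_lit 120), (nat_lit 180)], [(nat_lit 0), (nat_lit 0), (nat_lit 4796)], [((nat_lit 0), (nat_lit 0), (nat_lit 0)), ((nat_lit 0), (nat_lit 0), (nat_lit 0)), ((nat_lit 802), (nat_lit 1000), (nat_lit 999))], ((nat_lit 98), (nat_lit 75), (nat_lit 100))⟩, (nat_lit 2545610), (nat_lit 448), (nat_lit 448), (nat_lit 0), (nat_lit 311802), [(nat_lit 3282000000), (nat_lit 7968000000), (nat_lit 14058000000)], [], [(nat_lit 32127372208), (nat_lit 32993768492), (nat_lit 33026858988), (nat_lit 33873645748), (nat_lit 27175764195), (nat_lit 27948364999), (nat_lit 29073540112), (nat_lit 29411340001)], (nat_lit 1271251), (nat_lit 1271251), (nat_lit 1184688), (nat_lit 1790626), (nat_lit 0), (nat_lit 780000), [(nat_lit 780000), (nat_lit 1762501), (nat_lit 1271251)], [(nat_lit 13), (nat_lit 60), (nat_lit 401), (nat_lit 175), (nat_lit 9)]⟩,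
 Rw.none⟩)))) (.dle (nat_lit 0))) (.trZ (nat_lit 0) (nat_lit 1) (nat_lit 3) (nat_lit 87) (nat_lit 60) (nat_lit 100) (nat_lit 170) (.spl (nat_lit 0) (nat_lit 370) (.spl (nat_lit 6) (nat_lit 132) (.leaf ⟨(nat_lit 0), (nat_lit 916), (nat_lit 0), (nat_lit 84), (nat_lit 17273), (nat_lit 7844), (nat_lit 7548), (nat_lit 1313), (nat_lit 0), (nat_lit 0), (nat_lit 0), [], Pd.none, Pd.none, (nat_lit 0), (nat_lit 1), (nat_lit 0), (nat_lit 0), (nat_lit 5), (nat_lit 0), [⟨(nat_lit 0), (nat_lit 84), (nat_lit 57), (nat_lit 100), (nat_lit 585309355)⟩], [⟨(nat_lit 1), (nat_lit 97), (nat_lit 58), (nat_lit 100), (nat_lit 534512811)⟩], [⟨(nat_lit 0), (nat_lit 100), (nat_lit 86), (nat_lit 33), (nat_lit 196493806)⟩], [],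
 ⟨⟨[(nat_lit 40), (nat_lit 100), (nat_lit 140)], [(nat_lit 0), (nat_lit 2396), (nat_lit 4896)], [((nat_lit 0), (nat_lit 0), (nat_lit 0)), ((nat_lit 1000), (nat_lit 625), (nat_lit 623)), ((nat_lit 1000), (nat_lit 625), (nat_lit 975))], ((nat_lit 63), (nat_lit 100), (nat_lit 98))⟩, (nat_lit 1001396), (nat_lit 191), (nat_lit 191), (nat_lit 0), (nat_lit 246537), [(nat_lit 2789205695), (nat_lit 7863583397), (nat_lit 9842000000)], [], [(nat_lit 26289074640), (nat_lit 27112977074), (nat_lit 27358060848), (nat_lit 28075323788), (nat_lit 29721227044), (nat_lit 30416630637), (nat_lit 30609164862), (nat_lit 31452236101)], (nat_lit 1271251), (nat_lit 1271251), (nat_lit 1184688), (nat_lit 1790626), (nat_lit 1271251), (nat_lit 1271251), [(nat_lit 490000), (nat_lit 1427501), (nat_lit 1271251)], [(nat_lit 5), (nat_lit 55), (nat_lit 373), (nat_lit 150), (nat_lit 10)]⟩,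
 ⟨⟨[(nat_lit 60), (nat_lit 120), (nat_lit 180)], [(nat_lit 0), (nat_lit 913), (nat_lit 5370)], [((nat_lit 0), (nat_lit 0), (nat_lit 0)), ((nat_lit 1000), (nat_lit 905), (nat_lit 238)), ((nat_lit 862), (nat_lit 939), (nat_lit 1000))], ((nat_lit 92), (nat_lit 81), (nat_lit 100))⟩, (nat_lit 2932869), (nat_lit 440), (nat_lit 440), (nat_lit 0), (nat_lit 288630), [(nat_lit 3282000000), (nat_lit 7968000000), (nat_lit 14058000000)], [], [(nat_lit 26726514521), (nat_lit 27959869426), (nat_lit 28420443430), (nat_lit 29535984470), (nat_lit 22304038102), (nat_lit 23461794778), (nat_lit 23870397844), (nat_lit 24856231038)], (nat_lit 1271251), (nat_lit 1271251), (nat_lit 1184688), (nat_lit 1790626), (nat_lit 0), (nat_lit 780000), [(nat_lit 780000), (nat_lit 1762501), (nat_lit 1271251)], [(nat_lit 13), (nat_lit 60), (nat_lit 401), (nat_lit 175), (nat_lit 9)]⟩,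
 ⟨⟨[(nat_lit 140), (nat_lit 180), (nat_lit 200)], [(nat_lit 0), (nat_lit 0), (nat_lit 2835)], [((nat_lit 0), (nat_lit 0), (nat_lit 0)), ((nat_lit 0), (nat_lit 0), (nat_lit 0)), ((nat_lit 363), (nat_lit 1000), (nat_lit 798))], ((nat_lit 0), (nat_lit 0), (nat_lit 0))⟩, (nat_lit 23111), (nat_lit 300), (nat_lit 1207), (nat_lit 6560402), (nat_lit 1613347), [(nat_lit 826728000), (nat_lit 1180872000), (nat_lit 1377600000)], [], [(nat_lit 5565491700), (nat_lit 5315702661), (nat_lit 5588337648), (nat_lit 5308538191), (nat_lit 4443270523), (nat_lit 4225317947), (nat_lit 4372911898), (nat_lit 4113476259)], (nat_lit 780000), (nat_lit 1271251), (nat_lit 1271251), (nat_lit 1271251), (nat_lit 0), (nat_lit 780000), [(nat_lit 1977501), (nat_lit 1271251), (nat_lit 1271251)], [(nat_lit 32), (nat_lit 67), (nat_lit 401), (nat_lit 175), (nat_lit 9)]⟩⟩) (.dle (nat_lit 0))) (.trZ (nat_lit 0) (nat_lit 1) (nat_lit 3) (nat_lit 87) (nat_lit 53) (nat_lit 100) (nat_lit 190) (.trX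 (nat_lit 4) (nat_lit 0) (nat_lit 2) (nat_lit 53) (nat_lit 90) (nat_lit 100) (nat_lit 290) (.leaf ⟨(nat_lit 0), (nat_lit 1000), (nat_lit 0), (nat_lit 0), (nat_lit 18662), (nat_lit 9402), (nat_lit 8498), (nat_lit 0), (nat_lit 0), (nat_lit 0), (nat_lit 0), [], Pd.none, Pd.none, (nat_lit 0), (nat_lit 1), (nat_lit 0), (nat_lit 0), (nat_lit 5), (nat_lit 0), [⟨(nat_lit 0), (nat_lit 84), (nat_lit 49), (nat_lit 100), (nat_lit 782541756)⟩], [⟨(nat_lit 1), (nat_lit 100), (nat_lit 50), (nat_lit 100), (nat_lit 720762619)⟩], [⟨(nat_lit 0), (nat_lit 100), (nat_lit 86), (nat_lit 33), (nat_lit 88903808)⟩], [],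
 ⟨⟨[(nat_lit 40), (nat_lit 100), (nat_lit 140)], [(nat_lit 0), (nat_lit 2998), (nat_lit 5352)], [((nat_lit 0), (nat_lit 0), (nat_lit 0)), ((nat_lit 1000), (nat_lit 532), (nat_lit 779)), ((nat_lit 1000), (nat_lit 531), (nat_lit 919))], ((nat_lit 54), (nat_lit 98), (nat_lit 100))⟩, (nat_lit 495698), (nat_lit 208), (nat_lit 208), (nat_lit 0), (nat_lit 301259), [(nat_lit 3328442577), (nat_lit 7281915028), (nat_lit 9842000000)], [], [(nat_lit 28924658162), (nat_lit 29815917772), (nat_lit 29524824286), (nat_lit 30327208556), (nat_lit 31326658276), (nat_lit 32046901993), (nat_lit 31724913101), (nat_lit 32729649532)], (nat_lit 1271251), (nat_lit 1271251), (nat_lit 1271251), (nat_lit 1271251), (nat_lit 1271251), (nat_lit 1271251), [(nat_lit 490000), (nat_lit 1427501), (nat_lit 1271251)], [(nat_lit 5), (nat_lit 55), (nat_lit 373), (nat_lit 150), (nat_lit 9)]⟩,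
 ⟨⟨[(nat_lit 60), (nat_lit 120), (nat_lit 180)], [(nat_lit 0), (nat_lit 913), (nat_lit 5370)], [((nat_lit 0), (nat_lit 0), (nat_lit 0)), ((nat_lit 1000), (nat_lit 905), (nat_lit 238)), ((nat_lit 862), (nat_lit 939), (nat_lit 1000))], ((nat_lit 89), (nat_lit 71), (nat_lit 100))⟩, (nat_lit 3258235), (nat_lit 465), (nat_lit 465), (nat_lit 0), (nat_lit 375436), [(nat_lit 3282000000), (nat_lit 7968000000), (nat_lit 14058000000)], [], [(nat_lit 26471366605), (nat_lit 27381248506), (nat_lit 27171236773), (nat_lit 28101655754), (nat_lit 21600760782), (nat_lit 22393958218), (nat_lit 22176304088), (nat_lit 22874370455)], (nat_lit 1271251), (nat_lit 1271251), (nat_lit 1271251), (nat_lit 1271251), (nat_lit 0), (nat_lit 780000), [(nat_lit 780000), (nat_lit 1762501), (nat_lit 1271251)], [(nat_lit 13), (nat_lit 60), (nat_lit 401), (nat_lit 175), (nat_lit 9)]⟩,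
 Rw.none⟩))))))
noncomputable def c17_112 : Tr Lf :=
 (.stt (nat_lit 2) (.spl (nat_lit 0) (nat_lit 370) (.spl (nat_lit 6) (nat_lit 132) (.leaf ⟨(nat_lit 0), (nat_lit 930), (nat_lit 0), (nat_lit 70), (nat_lit 22612), (nat_lit 4256), (nat_lit 8847), (nat_lit 785), (nat_lit 0), (nat_lit 0), (nat_lit 0), [], Pd.none, Pd.none, (nat_lit 0), (nat_lit 1), (nat_lit 0), (nat_lit 0), (nat_lit 5), (nat_lit 0), [⟨(nat_lit 0), (nat_lit 87), (nat_lit 57), (nat_lit 100), (nat_lit 672951345)⟩], [⟨(nat_lit 1), (nat_lit 97), (nat_lit 58), (nat_lit 100), (nat_lit 518722640)⟩], [⟨(nat_lit 1), (nat_lit 72), (nat_lit 89), (nat_lit 100), (nat_lit 377765316)⟩], [],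
 ⟨⟨[(nat_lit 40), (nat_lit 100), (nat_lit 140)], [(nat_lit 0), (nat_lit 2396), (nat_lit 4896)], [((nat_lit 0), (nat_lit 0), (nat_lit 0)), ((nat_lit 1000), (nat_lit 625), (nat_lit 623)), ((nat_lit 1000), (nat_lit 625), (nat_lit 975))], ((nat_lit 63), (nat_lit 100), (nat_lit 98))⟩, (nat_lit 2000641), (nat_lit 196), (nat_lit 196), (nat_lit 0), (nat_lit 246464), [(nat_lit 2032000027), (nat_lit 6439277178), (nat_lit 9842000000)], [], [(nat_lit 22997154737), (nat_lit 23600969660), (nat_lit 24504975600), (nat_lit 25026208160), (nat_lit 26186621437), (nat_lit 26773363037), (nat_lit 27664500438), (nat_lit 28266268362)], (nat_lit 1271251), (nat_lit 1271251), (nat_lit 1017188), (nat_lit 1779376), (nat_lit 1271251), (nat_lit 1271251), [(nat_lit 490000), (nat_lit 1427501), (nat_lit 1271251)], [(nat_lit 5), (nat_lit 55), (nat_lit 373), (nat_lit 150), (nat_lit 10)]⟩,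
 ⟨⟨[(nat_lit 60), (nat_lit 120), (nat_lit 180)], [(nat_lit 0), (nat_lit 0), (nat_lit 4796)], [((nat_lit 0), (nat_lit 0), (nat_lit 0)), ((nat_lit 0), (nat_lit 0), (nat_lit 0)), ((nat_lit 802), (nat_lit 1000), (nat_lit 999))], ((nat_lit 97), (nat_lit 73), (nat_lit 100))⟩, (nat_lit 0), (nat_lit 100), (nat_lit 100), (nat_lit 0), (nat_lit 0), [(nat_lit 3282000000), (nat_lit 7968000000), (nat_lit 14058000000)], [], [(nat_lit 18028043856), (nat_lit 21890670861), (nat_lit 21336279747), (nat_lit 24475676544), (nat_lit 31483750906), (nat_lit 33245910193), (nat_lit 31882674990), (nat_lit 33765490688)], (nat_lit 0), (nat_lit 0), (nat_lit 0), (nat_lit 0), (nat_lit 0), (nat_lit 0), [], [(nat_lit 13), (nat_lit 60), (nat_lit 483), (nat_lit 250), (nat_lit 11)]⟩,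
 ⟨⟨[(nat_lit 140), (nat_lit 180), (nat_lit 200)], [(nat_lit 0), (nat_lit 0), (nat_lit 2835)], [((nat_lit 0), (nat_lit 0), (nat_lit 0)), ((nat_lit 0), (nat_lit 0), (nat_lit 0)), ((nat_lit 363), (nat_lit 1000), (nat_lit 798))], ((nat_lit 0), (nat_lit 0), (nat_lit 0))⟩, (nat_lit 19259), (nat_lit 300), (nat_lit 1535), (nat_lit 5467004), (nat_lit 2520405), [(nat_lit 688940000), (nat_lit 984060000), (nat_lit 1148000000)], [], [(nat_lit 4640522885), (nat_lit 4466097028), (nat_lit 4404240214), (nat_lit 4225617178), (nat_lit 4089429583), (nat_lit 3908827667), (nat_lit 3878366066), (nat_lit 3694723311)], (nat_lit 780000), (nat_lit 1271251), (nat_lit 1271251), (nat_lit 1271251), (nat_lit 780000), (nat_lit 2908751), [(nat_lit 1977501), (nat_lit 1271251), (nat_lit 1271251)], [(nat_lit 32), (nat_lit 67), (nat_lit 493), (nat_lit 225), (nat_lit 10)]⟩⟩) (.dle (nat_lit 0))) (.trZ (nat_lit 0) (nat_lit 1) (nat_lit 3) (nat_lit 93) (nat_lit 53) (nat_lit 100) (nat_lit 170)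 (.trX (nat_lit 4) (nat_lit 0) (nat_lit 2) (nat_lit 53) (nat_lit 90) (nat_lit 100) (nat_lit 290) (.leaf ⟨(nat_lit 0), (nat_lit 949), (nat_lit 0), (nat_lit 51), (nat_lit 23308), (nat_lit 4406), (nat_lit 4550), (nat_lit 574), (nat_lit 0), (nat_lit 0), (nat_lit 0), [], Pd.none, Pd.none, (nat_lit 0), (nat_lit 1), (nat_lit 0), (nat_lit 0), (nat_lit 5), (nat_lit 0), [⟨(nat_lit 0), (nat_lit 87), (nat_lit 48), (nat_lit 100), (nat_lit 618833966)⟩], [⟨(nat_lit 1), (nat_lit 100), (nat_lit 50), (nat_lit 100), (nat_lit 594106144)⟩], [⟨(nat_lit 1), (nat_lit 72), (nat_lit 89), (nat_lit 100), (nat_lit 403615079)⟩], [],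
 ⟨⟨[(nat_lit 40), (nat_lit 100), (nat_lit 140)], [(nat_lit 0), (nat_lit 2998), (nat_lit 5352)], [((nat_lit 0), (nat_lit 0), (nat_lit 0)), ((nat_lit 1000), (nat_lit 532), (nat_lit 779)), ((nat_lit 1000), (nat_lit 531), (nat_lit 919))], ((nat_lit 54), (nat_lit 98), (nat_lit 100))⟩, (nat_lit 1795910), (nat_lit 211), (nat_lit 211), (nat_lit 0), (nat_lit 301326), [(nat_lit 2032000001), (nat_lit 6466969538), (nat_lit 9842000000)], [], [(nat_lit 23901348753), (nat_lit 24497586280), (nat_lit 25132579826), (nat_lit 25662007636), (nat_lit 26251144697), (nat_lit 26876962765), (nat_lit 27581947003), (nat_lit 28224240495)], (nat_lit 1271251), (nat_lit 1271251), (nat_lit 1184688), (nat_lit 1790626), (nat_lit 1271251), (nat_lit 1271251), [(nat_lit 490000), (nat_lit 1427501), (nat_lit 1271251)], [(nat_lit 5), (nat_lit 55), (nat_lit 373), (nat_lit 150), (nat_lit 10)]⟩,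
 ⟨⟨[(nat_lit 60), (nat_lit 120), (nat_lit 180)], [(nat_lit 0), (nat_lit 0), (nat_lit 4796)], [((nat_lit 0), (nat_lit 0), (nat_lit 0)), ((nat_lit 0), (nat_lit 0), (nat_lit 0)), ((nat_lit 802), (nat_lit 1000), (nat_lit 999))], ((nat_lit 94), (nat_lit 63), (nat_lit 100))⟩, (nat_lit 0), (nat_lit 94), (nat_lit 94), (nat_lit 0), (nat_lit 0), [(nat_lit 3282000000), (nat_lit 7968000000), (nat_lit 14058000000)], [], [(nat_lit 14082194732), (nat_lit 17277653025), (nat_lit 17183555100), (nat_lit 19941279200), (nat_lit 26729191394), (nat_lit 28405621750), (nat_lit 28078862575), (nat_lit 29546645900)], (nat_lit 0), (nat_lit 0), (nat_lit 0), (nat_lit 0), (nat_lit 0), (nat_lit 0), [], [(nat_lit 13), (nat_lit 60), (nat_lit 483), (nat_lit 250), (nat_lit 11)]⟩,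
 ⟨⟨[(nat_lit 140), (nat_lit 180), (nat_lit 200)], [(nat_lit 0), (nat_lit 0), (nat_lit 2835)], [((nat_lit 0), (nat_lit 0), (nat_lit 0)), ((nat_lit 0), (nat_lit 0), (nat_lit 0)), ((nat_lit 363), (nat_lit 1000), (nat_lit 798))], ((nat_lit 0), (nat_lit 0), (nat_lit 0))⟩, (nat_lit 14032), (nat_lit 300), (nat_lit 1901), (nat_lit 3983100), (nat_lit 3271510), [(nat_lit 501942000), (nat_lit 716958000), (nat_lit 836400000)], [], [(nat_lit 3375526302), (nat_lit 3254740711), (nat_lit 3222796148), (nat_lit 3103466978), (nat_lit 2970032433), (nat_lit 2837845450), (nat_lit 2838873085), (nat_lit 2705024127)], (nat_lit 780000), (nat_lit 1271251), (nat_lit 1271251), (nat_lit 1271251), (nat_lit 780000), (nat_lit 2908751), [(nat_lit 1977501), (nat_lit 1271251), (nat_lit 1271251)], [(nat_lit 32), (nat_lit 67), (nat_lit 582), (nat_lit 225), (nat_lit 12)]⟩⟩)))) (.stt (nat_lit 1) (.spl (nat_lit 5) (nat_lit 240) (.leaf ⟨(nat_lit 0), (nat_lit 829), (nat_lit 0), (nat_lit 171),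 (nat_lit 10717), (nat_lit 7215), (nat_lit 10820), (nat_lit 2233), (nat_lit 0), (nat_lit 0), (nat_lit 0), [], Pd.none, Pd.none, (nat_lit 0), (nat_lit 1), (nat_lit 0), (nat_lit 0), (nat_lit 5), (nat_lit 0), [⟨(nat_lit 0), (nat_lit 87), (nat_lit 53), (nat_lit 100), (nat_lit 752053541)⟩], [⟨(nat_lit 1), (nat_lit 99), (nat_lit 54), (nat_lit 100), (nat_lit 472383481)⟩], [], [],
 ⟨⟨[(nat_lit 40), (nat_lit 100), (nat_lit 140)], [(nat_lit 0), (nat_lit 2396), (nat_lit 4896)], [((nat_lit 0), (nat_lit 0), (nat_lit 0)), ((nat_lit 1000), (nat_lit 625), (nat_lit 623)), ((nat_lit 1000), (nat_lit 625), (nat_lit 975))], ((nat_lit 62), (nat_lit 95), (nat_lit 100))⟩, (nat_lit 0), (nat_lit 83), (nat_lit 83), (nat_lit 0), (nat_lit 0), [(nat_lit 2909074298), (nat_lit 6250000022), (nat_lit 9842000000)], [], [(nat_lit 24779765439), (nat_lit 26715488094), (nat_lit 26569826327), (nat_lit 28199578450), (nat_lit 29290196496), (nat_lit 30786974265), (nat_lit 30182278652), (nat_lit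 31694484182)], (nat_lit 0), (nat_lit 0), (nat_lit 0), (nat_lit 0), (nat_lit 0), (nat_lit 0), [], [(nat_lit 5), (nat_lit 55), (nat_lit 373), (nat_lit 150), (nat_lit 10)]⟩,
 ⟨⟨[(nat_lit 60), (nat_lit 120), (nat_lit 180)], [(nat_lit 0), (nat_lit 0), (nat_lit 4796)], [((nat_lit 0), (nat_lit 0), (nat_lit 0)), ((nat_lit 0), (nat_lit 0), (nat_lit 0)), ((nat_lit 802), (nat_lit 1000), (nat_lit 999))], ((nat_lit 94), (nat_lit 63), (nat_lit 100))⟩, (nat_lit 2100539), (nat_lit 425), (nat_lit 425), (nat_lit 0), (nat_lit 455893), [(nat_lit 3282000000), (nat_lit 7968000000), (nat_lit 14058000000)], [], [(nat_lit 26168932195), (nat_lit 27278901942), (nat_lit 25636974116), (nat_lit 27889387756), (nat_lit 24736782386), (nat_lit 26874262636), (nat_lit 29241148440), (nat_lit 26810750076)], (nat_lit 1271251), (nat_lit 1271251), (nat_lit 1017188), (nat_lit 1779376), (nat_lit 780000), (nat_lit 1762501), [(nat_lit 780000), (nat_lit 1762501), (nat_lit 1271251)], [(nat_lit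 13), (nat_lit 60), (nat_lit 428), (nat_lit 200), (nat_lit 9)]⟩,
 ⟨⟨[(nat_lit 140), (nat_lit 180), (nat_lit 200)], [(nat_lit 0), (nat_lit 0), (nat_lit 2835)], [((nat_lit 0), (nat_lit 0), (nat_lit 0)), ((nat_lit 0), (nat_lit 0), (nat_lit 0)), ((nat_lit 363), (nat_lit 1000), (nat_lit 798))], ((nat_lit 0), (nat_lit 0), (nat_lit 0))⟩, (nat_lit 47048), (nat_lit 300), (nat_lit 1344), (nat_lit 13355100), (nat_lit 2113524), [(nat_lit 1682982000), (nat_lit 2403918000), (nat_lit 2804400000)], [], [(nat_lit 9929856921), (nat_lit 9469238335), (nat_lit 9611394415), (nat_lit 9121829578), (nat_lit 9089193036), (nat_lit 8618250951), (nat_lit 8706500307), (nat_lit 8210398409)], (nat_lit 780000), (nat_lit 1271251), (nat_lit 1271251), (nat_lit 1271251), (nat_lit 780000), (nat_lit 1762501), [(nat_lit 1977501), (nat_lit 1271251), (nat_lit 1271251)], [(nat_lit 32), (nat_lit 67), (nat_lit 428), (nat_lit 200), (nat_lit 9)]⟩⟩) (.spl (nat_lit 1) (nat_lit 300) (.spl (nat_lit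 6) (nat_lit 128) (.leaf ⟨(nat_lit 0), (nat_lit 719), (nat_lit 0), (nat_lit 281), (nat_lit 0), (nat_lit 7522), (nat_lit 9451), (nat_lit 3277), (nat_lit 0), (nat_lit 0), (nat_lit 0), [], Pd.none, Pd.none, (nat_lit 0), (nat_lit 1), (nat_lit 0), (nat_lit 0), (nat_lit 6), (nat_lit 0), [⟨(nat_lit 0), (nat_lit 90), (nat_lit 53), (nat_lit 100), (nat_lit 801202942)⟩], [⟨(nat_lit 1), (nat_lit 99), (nat_lit 54), (nat_lit 100), (nat_lit 343414886)⟩], [⟨(nat_lit 1), (nat_lit 68), (nat_lit 92), (nat_lit 100), (nat_lit 267351417)⟩], [],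
 ⟨⟨[(nat_lit 40), (nat_lit 100), (nat_lit 140)], [(nat_lit 0), (nat_lit 2396), (nat_lit 4896)], [((nat_lit 0), (nat_lit 0), (nat_lit 0)), ((nat_lit 1000), (nat_lit 625), (nat_lit 623)), ((nat_lit 1000), (nat_lit 625), (nat_lit 975))], ((nat_lit 62), (nat_lit 100), (nat_lit 97))⟩, (nat_lit 0), (nat_lit 83), (nat_lit 83), (nat_lit 0), (nat_lit 0), [(nat_lit 2937370412), (nat_lit 6250000221), (nat_lit 9842000000)], [], [(nat_lit 24599862449), (nat_lit 26589363157), (nat_lit 26374490715), (nat_lit 28047168038), (nat_lit 29178575294), (nat_lit 31130710317), (nat_lit 30344900106), (nat_lit 31987731733)], (nat_lit 0), (nat_lit 0), (nat_lit 0), (nat_lit 0), (nat_lit 0), (nat_lit 0), [], [(nat_lit 5), (nat_lit 55), (nat_lit 373), (nat_lit 150), (nat_lit 10)]⟩,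
 ⟨⟨[(nat_lit 60), (nat_lit 120), (nat_lit 180)], [(nat_lit 0), (nat_lit 0), (nat_lit 4796)], [((nat_lit 0), (nat_lit 0), (nat_lit 0)), ((nat_lit 0), (nat_lit 0), (nat_lit 0)), ((nat_lit 802), (nat_lit 1000), (nat_lit 999))], ((nat_lit 98), (nat_lit 75), (nat_lit 100))⟩, (nat_lit 2014593), (nat_lit 300), (nat_lit 300), (nat_lit 0), (nat_lit 369320), [(nat_lit 3282000000), (nat_lit 7968000000), (nat_lit 14058000000)], [], [(nat_lit 26716208616), (nat_lit 27380534018), (nat_lit 26660138284), (nat_lit 27176081312), (nat_lit 33034051381), (nat_lit 33576427930), (nat_lit 32271328150), (nat_lit 33302078829)], (nat_lit 1271251), (nat_lit 1271251), (nat_lit 1017188), (nat_lit 1779376), (nat_lit 1271251), (nat_lit 1271251), [(nat_lit 780000), (nat_lit 1762501), (nat_lit 1271251)], [(nat_lit 13), (nat_lit 60), (nat_lit 483), (nat_lit 250), (nat_lit 10)]⟩,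
 ⟨⟨[(nat_lit 140), (nat_lit 180), (nat_lit 200)], [(nat_lit 0), (nat_lit 0), (nat_lit 2835)], [((nat_lit 0), (nat_lit 0), (nat_lit 0)), ((nat_lit 0), (nat_lit 0), (nat_lit 0)), ((nat_lit 363), (nat_lit 1000), (nat_lit 798))], ((nat_lit 0), (nat_lit 0), (nat_lit 0))⟩, (nat_lit 77312), (nat_lit 300), (nat_lit 1035), (nat_lit 21946103), (nat_lit 1564386), [(nat_lit 2765602000), (nat_lit 3950298000), (nat_lit 4608400000)], [], [(nat_lit 16440051266), (nat_lit 15699930207), (nat_lit 15628314456), (nat_lit 14887114009), (nat_lit 15844909152), (nat_lit 15101024461), (nat_lit 15129989630), (nat_lit 14367956606)], (nat_lit 780000), (nat_lit 1271251), (nat_lit 1271251), (nat_lit 1271251), (nat_lit 1271251), (nat_lit 1271251), [(nat_lit 1977501), (nat_lit 1271251), (nat_lit 1271251)], [(nat_lit 32), (nat_lit 67), (nat_lit 456), (nat_lit 225), (nat_lit 9)]⟩⟩) (.dle (nat_lit 0))) (.trZ (nat_lit 0) (nat_lit 1) (nat_lit 3) (nat_lit 87) (nat_lit 60) (nat_lit 100)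 (nat_lit 170) (.trX (nat_lit 5) (nat_lit 1) (nat_lit 2) (nat_lit 87) (nat_lit 59) (nat_lit 100) (nat_lit 370) (.leaf ⟨(nat_lit 0), (nat_lit 754), (nat_lit 0), (nat_lit 246), (nat_lit 0), (nat_lit 7514), (nat_lit 7727), (nat_lit 2793), (nat_lit 0), (nat_lit 0), (nat_lit 0), [], Pd.none, Pd.none, (nat_lit 0), (nat_lit 1), (nat_lit 0), (nat_lit 0), (nat_lit 6), (nat_lit 0), [⟨(nat_lit 0), (nat_lit 84), (nat_lit 53), (nat_lit 100), (nat_lit 761320467)⟩], [⟨(nat_lit 1), (nat_lit 99), (nat_lit 54), (nat_lit 100), (nat_lit 369269086)⟩], [⟨(nat_lit 1), (nat_lit 77), (nat_lit 86), (nat_lit 100), (nat_lit 270966127)⟩], [],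
 ⟨⟨[(nat_lit 40), (nat_lit 100), (nat_lit 140)], [(nat_lit 0), (nat_lit 2396), (nat_lit 4896)], [((nat_lit 0), (nat_lit 0), (nat_lit 0)), ((nat_lit 1000), (nat_lit 625), (nat_lit 623)), ((nat_lit 1000), (nat_lit 625), (nat_lit 975))], ((nat_lit 62), (nat_lit 95), (nat_lit 100))⟩, (nat_lit 0), (nat_lit 78), (nat_lit 78), (nat_lit 0), (nat_lit 0), [(nat_lit 2966384326), (nat_lit 6250000001), (nat_lit 9842000000)], [], [(nat_lit 24756840370), (nat_lit 26678898418), (nat_lit 26379580679), (nat_lit 28051139430), (nat_lit 29152655563), (nat_lit 31040703335), (nat_lit 30338334522), (nat_lit 31980090103)], (nat_lit 0), (nat_lit 0), (nat_lit 0), (nat_lit 0), (nat_lit 0), (nat_lit 0), [], [(nat_lit 5), (nat_lit 55), (nat_lit 373), (nat_lit 150), (nat_lit 10)]⟩,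
 ⟨⟨[(nat_lit 60), (nat_lit 120), (nat_lit 180)], [(nat_lit 0), (nat_lit 913), (nat_lit 5370)], [((nat_lit 0), (nat_lit 0), (nat_lit 0)), ((nat_lit 1000), (nat_lit 905), (nat_lit 238)), ((nat_lit 862), (nat_lit 939), (nat_lit 1000))], ((nat_lit 89), (nat_lit 71), (nat_lit 100))⟩, (nat_lit 2133600), (nat_lit 374), (nat_lit 374), (nat_lit 0), (nat_lit 442209), [(nat_lit 3282000000), (nat_lit 7968000000), (nat_lit 14058000000)], [], [(nat_lit 26334109496), (nat_lit 26936096120), (nat_lit 26621474380), (nat_lit 27122887536), (nat_lit 31111342948), (nat_lit 31644964757), (nat_lit 31046698358), (nat_lit 31854564646)], (nat_lit 1271251), (nat_lit 1271251), (nat_lit 1184688), (nat_lit 1790626), (nat_lit 1271251), (nat_lit 1271251), [(nat_lit 780000), (nat_lit 1762501), (nat_lit 1271251)], [(nat_lit 13), (nat_lit 60), (nat_lit 483), (nat_lit 250), (nat_lit 10)]⟩,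
 ⟨⟨[(nat_lit 140), (nat_lit 180), (nat_lit 200)], [(nat_lit 0), (nat_lit 0), (nat_lit 2835)], [((nat_lit 0), (nat_lit 0), (nat_lit 0)), ((nat_lit 0), (nat_lit 0), (nat_lit 0)), ((nat_lit 363), (nat_lit 1000), (nat_lit 798))], ((nat_lit 0), (nat_lit 0), (nat_lit 0))⟩, (nat_lit 67683), (nat_lit 300), (nat_lit 1285), (nat_lit 19212600), (nat_lit 2113524), [(nat_lit 2421132000), (nat_lit 3458268000), (nat_lit 4034400000)], [], [(nat_lit 14842803870), (nat_lit 14216242583), (nat_lit 14062652715), (nat_lit 13427776018), (nat_lit 14232981220), (nat_lit 13591251243), (nat_lit 13485781397), (nat_lit 12838979795)], (nat_lit 780000), (nat_lit 1271251), (nat_lit 1271251), (nat_lit 1271251), (nat_lit 1271251), (nat_lit 1271251), [(nat_lit 1977501), (nat_lit 1271251), (nat_lit 1271251)], [(nat_lit 32), (nat_lit 67), (nat_lit 456), (nat_lit 225), (nat_lit 9)]⟩⟩))))) (.leaf ⟨(nat_lit 0), (nat_lit 552), (nat_lit 0), (nat_lit 448), (nat_lit 0), (nat_lit 11444), (nat_lit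 5258), (nat_lit 5443), (nat_lit 0), (nat_lit 0), (nat_lit 0), [], Pd.none, Pd.none, (nat_lit 0), (nat_lit 1), (nat_lit 0), (nat_lit 0), (nat_lit 5), (nat_lit 0), [⟨(nat_lit 0), (nat_lit 87), (nat_lit 53), (nat_lit 100), (nat_lit 837559642)⟩], [⟨(nat_lit 1), (nat_lit 99), (nat_lit 54), (nat_lit 100), (nat_lit 156979127)⟩], [], [],
 ⟨⟨[(nat_lit 40), (nat_lit 100), (nat_lit 140)], [(nat_lit 0), (nat_lit 2396), (nat_lit 4896)], [((nat_lit 0), (nat_lit 0), (nat_lit 0)), ((nat_lit 1000), (nat_lit 625), (nat_lit 623)), ((nat_lit 1000), (nat_lit 625), (nat_lit 975))], ((nat_lit 62), (nat_lit 95), (nat_lit 100))⟩, (nat_lit 241413), (nat_lit 181), (nat_lit 181), (nat_lit 0), (nat_lit 187630), [(nat_lit 3801412141), (nat_lit 9617855096), (nat_lit 9842000000)], [], [(nat_lit 28392200800), (nat_lit 30592789325), (nat_lit 29032899216), (nat_lit 30860797096), (nat_lit 32906711292), (nat_lit 35522022352), (nat_lit 33563677662), (nat_lit 35734040840)], (nat_lit 1271251),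 (nat_lit 1271251), (nat_lit 1017188), (nat_lit 1779376), (nat_lit 1271251), (nat_lit 1271251), [(nat_lit 490000), (nat_lit 1427501), (nat_lit 1271251)], [(nat_lit 5), (nat_lit 55), (nat_lit 373), (nat_lit 150), (nat_lit 10)]⟩,
 ⟨⟨[(nat_lit 60), (nat_lit 120), (nat_lit 180)], [(nat_lit 0), (nat_lit 0), (nat_lit 4796)], [((nat_lit 0), (nat_lit 0), (nat_lit 0)), ((nat_lit 0), (nat_lit 0), (nat_lit 0)), ((nat_lit 802), (nat_lit 1000), (nat_lit 999))], ((nat_lit 94), (nat_lit 63), (nat_lit 100))⟩, (nat_lit 4175), (nat_lit 273), (nat_lit 273), (nat_lit 0), (nat_lit 255513), [(nat_lit 3282000000), (nat_lit 7968000000), (nat_lit 14058000000)], [], [(nat_lit 36047416635), (nat_lit 37823470764), (nat_lit 37609056840), (nat_lit 39168635620), (nat_lit 43029765891), (nat_lit 44043925642), (nat_lit 46227946954), (nat_lit 44227654410)], (nat_lit 1271251), (nat_lit 1271251), (nat_lit 1017188), (nat_lit 1779376), (nat_lit 780000), (nat_lit 2908751), [(nat_lit 780000),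 (nat_lit 1762501), (nat_lit 1271251)], [(nat_lit 13), (nat_lit 60), (nat_lit 483), (nat_lit 250), (nat_lit 11)]⟩,
 ⟨⟨[(nat_lit 140), (nat_lit 180), (nat_lit 200)], [(nat_lit 0), (nat_lit 0), (nat_lit 2835)], [((nat_lit 0), (nat_lit 0), (nat_lit 0)), ((nat_lit 0), (nat_lit 0), (nat_lit 0)), ((nat_lit 363), (nat_lit 1000), (nat_lit 798))], ((nat_lit 0), (nat_lit 0), (nat_lit 0))⟩, (nat_lit 123259), (nat_lit 300), (nat_lit 706), (nat_lit 34988804), (nat_lit 738417), [(nat_lit 4409216000), (nat_lit 6297984000), (nat_lit 7347200000)], [], [(nat_lit 26831902449), (nat_lit 25738461373), (nat_lit 26114867123), (nat_lit 24948079237), (nat_lit 24648397321), (nat_lit 23914126836), (nat_lit 23442331979), (nat_lit 22239674520)], (nat_lit 780000), (nat_lit 1271251), (nat_lit 1271251), (nat_lit 1271251), (nat_lit 780000), (nat_lit 2908751), [(nat_lit 1977501), (nat_lit 1271251), (nat_lit 1271251)], [(nat_lit 32), (nat_lit 67), (nat_lit 456), (nat_lit 225), (nat_lit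 10)]⟩⟩)))
noncomputable def c17_113 : Tr Lf :=
 (.spl (nat_lit 6) (nat_lit 108) (.spl (nat_lit 5) (nat_lit 120) (.spl (nat_lit 1) (nat_lit 280) (.spl (nat_lit 6) (nat_lit 80) (.spl (nat_lit 1) (nat_lit 260) (.dle (nat_lit 0)) (.trZ (nat_lit 0) (nat_lit 1) (nat_lit 3) (nat_lit 100) (nat_lit 63) (nat_lit 99) (nat_lit 130) (.leaf ⟨(nat_lit 0), (nat_lit 650), (nat_lit 0), (nat_lit 350), (nat_lit 35738), (nat_lit 6786), (nat_lit 6656), (nat_lit 3490), (nat_lit 0), (nat_lit 0), (nat_lit 0), [], Pd.none, Pd.none, (nat_lit 0), (nat_lit 1), (nat_lit 0), (nat_lit 0), (nat_lit 4), (nat_lit 0), [⟨(nat_lit 0), (nat_lit 92), (nat_lit 44), (nat_lit 100), (nat_lit 967601802)⟩], [⟨(nat_lit 1), (nat_lit 85), (nat_lit 53), (nat_lit 100), (nat_lit 373680)⟩], [], [],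
 ⟨⟨[(nat_lit 40), (nat_lit 80), (nat_lit 100)], [(nat_lit 0), (nat_lit 1598), (nat_lit 2533)], [((nat_lit 0), (nat_lit 0), (nat_lit 0)), ((nat_lit 1000), (nat_lit 625), (nat_lit 623)), ((nat_lit 1000), (nat_lit 604), (nat_lit 730))], ((nat_lit 60), (nat_lit 100), (nat_lit 80))⟩, (nat_lit 0), (nat_lit 109), (nat_lit 109), (nat_lit 0), (nat_lit 35350), [(nat_lit 2952941319), (nat_lit 5245229246), (nat_lit 6250000000)], [], [(nat_lit 24145542691), (nat_lit 26339611763), (nat_lit 26314342016), (nat_lit 28105366080), (nat_lit 31462060639), (nat_lit 32825557787), (nat_lit 31855601546), (nat_lit 32982070191)], (nat_lit 1271251), (nat_lit 1271251), (nat_lit 857188), (nat_lit 1768126), (nat_lit 780000), (nat_lit 2581251), [(nat_lit 490000), (nat_lit 1100000), (nat_lit 1442501)], [(nat_lit 3), (nat_lit 50), (nat_lit 373), (nat_lit 150), (nat_lit 13)]⟩,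
 ⟨⟨[(nat_lit 80), (nat_lit 120), (nat_lit 160)], [(nat_lit 0), (nat_lit 528), (nat_lit 2577)], [((nat_lit 0), (nat_lit 0), (nat_lit 0)), ((nat_lit 1000), (nat_lit 959), (nat_lit 206)), ((nat_lit 929), (nat_lit 1000), (nat_lit 742))], ((nat_lit 100), (nat_lit 85), (nat_lit 84))⟩, (nat_lit 3735173), (nat_lit 238), (nat_lit 238), (nat_lit 0), (nat_lit 53472), [(nat_lit 4688000000), (nat_lit 7968000000), (nat_lit 11872000000)], [], [(nat_lit 23746182901), (nat_lit 24996890639), (nat_lit 25924638203), (nat_lit 27085957131), (nat_lit 20124399013), (nat_lit 21218299483), (nat_lit 28056982320), (nat_lit 24898454064)], (nat_lit 1271251), (nat_lit 1271251), (nat_lit 857188), (nat_lit 1768126), (nat_lit 0), (nat_lit 780000), [(nat_lit 1100000), (nat_lit 1785001), (nat_lit 1271251)], [(nat_lit 18), (nat_lit 59), (nat_lit 401), (nat_lit 175), (nat_lit 10)]⟩,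
 ⟨⟨[(nat_lit 120), (nat_lit 160), (nat_lit 200)], [(nat_lit 0), (nat_lit 533), (nat_lit 3597)], [((nat_lit 0), (nat_lit 0), (nat_lit 0)), ((nat_lit 960), (nat_lit 1000), (nat_lit 200)), ((nat_lit 612), (nat_lit 1000), (nat_lit 732))], ((nat_lit 0), (nat_lit 0), (nat_lit 0))⟩, (nat_lit 186300), (nat_lit 300), (nat_lit 495), (nat_lit 25349395), (nat_lit 102017), [(nat_lit 2788800000), (nat_lit 4155200000), (nat_lit 5740000000)], [], [(nat_lit 22193649646), (nat_lit 22030279012), (nat_lit 21646983912), (nat_lit 21401960970), (nat_lit 19359453768), (nat_lit 19203457913), (nat_lit 22410607927), (nat_lit 19207228539)], (nat_lit 1271251), (nat_lit 1271251), (nat_lit 780000), (nat_lit 2581251), (nat_lit 0), (nat_lit 780000), [(nat_lit 1695001), (nat_lit 1271251), (nat_lit 1271251)], [(nat_lit 29), (nat_lit 66), (nat_lit 401), (nat_lit 175), (nat_lit 9)]⟩⟩))) (.dle (nat_lit 0))) (.trZ (nat_lit 0) (nat_lit 1) (nat_lit 3) (nat_lit 94) (nat_lit 62) (nat_lit 100)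 (nat_lit 150) (.leaf ⟨(nat_lit 0), (nat_lit 709), (nat_lit 0), (nat_lit 291), (nat_lit 16383), (nat_lit 8253), (nat_lit 9868), (nat_lit 3611), (nat_lit 0), (nat_lit 0), (nat_lit 0), [], Pd.none, Pd.none, (nat_lit 0), (nat_lit 1), (nat_lit 0), (nat_lit 0), (nat_lit 4), (nat_lit 0), [⟨(nat_lit 0), (nat_lit 87), (nat_lit 53), (nat_lit 100), (nat_lit 914333786)⟩], [⟨(nat_lit 1), (nat_lit 85), (nat_lit 53), (nat_lit 100), (nat_lit 50076210)⟩], [⟨(nat_lit 0), (nat_lit 100), (nat_lit 87), (nat_lit 50), (nat_lit 297638199)⟩], [],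
 ⟨⟨[(nat_lit 40), (nat_lit 80), (nat_lit 120)], [(nat_lit 0), (nat_lit 1598), (nat_lit 3468)], [((nat_lit 0), (nat_lit 0), (nat_lit 0)), ((nat_lit 1000), (nat_lit 625), (nat_lit 623)), ((nat_lit 1000), (nat_lit 604), (nat_lit 730))], ((nat_lit 61), (nat_lit 100), (nat_lit 90))⟩, (nat_lit 0), (nat_lit 151), (nat_lit 151), (nat_lit 0), (nat_lit 151543), [(nat_lit 3058499409), (nat_lit 6571306159), (nat_lit 7968000000)], [], [(nat_lit 26795354129), (nat_lit 29024120549), (nat_lit 28637589414), (nat_lit 30504572793), (nat_lit 33221442753), (nat_lit 34587858362), (nat_lit 33414618862), (nat_lit 34564932751)], (nat_lit 1271251), (nat_lit 1271251), (nat_lit 1017188), (nat_lit 1779376), (nat_lit 780000), (nat_lit 2581251), [(nat_lit 490000), (nat_lit 1100000), (nat_lit 1785001)], [(nat_lit 4), (nat_lit 51), (nat_lit 373), (nat_lit 150), (nat_lit 11)]⟩,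
 ⟨⟨[(nat_lit 60), (nat_lit 120), (nat_lit 180)], [(nat_lit 0), (nat_lit 0), (nat_lit 4796)], [((nat_lit 0), (nat_lit 0), (nat_lit 0)), ((nat_lit 0), (nat_lit 0), (nat_lit 0)), ((nat_lit 802), (nat_lit 1000), (nat_lit 999))], ((nat_lit 100), (nat_lit 85), (nat_lit 97))⟩, (nat_lit 2898821), (nat_lit 410), (nat_lit 410), (nat_lit 0), (nat_lit 181183), [(nat_lit 3282000000), (nat_lit 7968000000), (nat_lit 14058000000)], [], [(nat_lit 29320449866), (nat_lit 32112928292), (nat_lit 30444963660), (nat_lit 32839521024), (nat_lit 22141460528), (nat_lit 24750671579), (nat_lit 23878042404), (nat_lit 26134096712)], (nat_lit 1271251), (nat_lit 1271251), (nat_lit 1017188), (nat_lit 1779376), (nat_lit 0), (nat_lit 780000), [(nat_lit 780000), (nat_lit 1762501), (nat_lit 1271251)], [(nat_lit 13), (nat_lit 60), (nat_lit 401), (nat_lit 175), (nat_lit 9)]⟩,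
 ⟨⟨[(nat_lit 120), (nat_lit 160), (nat_lit 200)], [(nat_lit 0), (nat_lit 533), (nat_lit 3597)], [((nat_lit 0), (nat_lit 0), (nat_lit 0)), ((nat_lit 960), (nat_lit 1000), (nat_lit 200)), ((nat_lit 612), (nat_lit 1000), (nat_lit 732))], ((nat_lit 0), (nat_lit 0), (nat_lit 0))⟩, (nat_lit 154896), (nat_lit 300), (nat_lit 690), (nat_lit 21076203), (nat_lit 469695), [(nat_lit 2318688000), (nat_lit 3454752000), (nat_lit 4772400000)], [], [(nat_lit 19557820903), (nat_lit 19210882101), (nat_lit 17999212099), (nat_lit 17694980886), (nat_lit 16541044647), (nat_lit 16208998992), (nat_lit 19907855519), (nat_lit 16593413408)], (nat_lit 1271251), (nat_lit 1271251), (nat_lit 780000), (nat_lit 2581251), (nat_lit 0), (nat_lit 780000), [(nat_lit 1695001), (nat_lit 1271251), (nat_lit 1271251)], [(nat_lit 29), (nat_lit 66), (nat_lit 401), (nat_lit 175), (nat_lit 9)]⟩⟩))) (.spl (nat_lit 1) (nat_lit 280) (.spl (nat_lit 6) (nat_lit 80) (.leaf ⟨(nat_lit 0), (nat_lit 0), (nat_lit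 0), (nat_lit 1000), (nat_lit 128309), (nat_lit 7800), (nat_lit 6848), (nat_lit 8187), (nat_lit 0), (nat_lit 0), (nat_lit 0), [], Pd.none, Pd.none, (nat_lit 0), (nat_lit 1), (nat_lit 0), (nat_lit 0), (nat_lit 0), (nat_lit 0), [⟨(nat_lit 0), (nat_lit 92), (nat_lit 44), (nat_lit 100), (nat_lit 1284469753)⟩], [], [], [],
 ⟨⟨[(nat_lit 40), (nat_lit 80), (nat_lit 100)], [(nat_lit 0), (nat_lit 1598), (nat_lit 2533)], [((nat_lit 0), (nat_lit 0), (nat_lit 0)), ((nat_lit 1000), (nat_lit 625), (nat_lit 623)), ((nat_lit 1000), (nat_lit 604), (nat_lit 730))], ((nat_lit 60), (nat_lit 100), (nat_lit 80))⟩, (nat_lit 0), (nat_lit 116), (nat_lit 116), (nat_lit 0), (nat_lit 35350), [(nat_lit 3371132803), (nat_lit 5592091560), (nat_lit 6250000000)], [], [(nat_lit 23901066225), (nat_lit 26386363938), (nat_lit 25854549800), (nat_lit 27814378500), (nat_lit 32739102100), (nat_lit 34665036413), (nat_lit 32542036100), (nat_lit 34076155150)], (nat_lit 1271251), (nat_lit 1271251),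 (nat_lit 704688), (nat_lit 1756876), (nat_lit 780000), (nat_lit 2581251), [(nat_lit 490000), (nat_lit 1100000), (nat_lit 1442501)], [(nat_lit 3), (nat_lit 50), (nat_lit 373), (nat_lit 150), (nat_lit 13)]⟩,
 ⟨⟨[(nat_lit 80), (nat_lit 140), (nat_lit 180)], [(nat_lit 0), (nat_lit 0), (nat_lit 3656)], [((nat_lit 0), (nat_lit 0), (nat_lit 0)), ((nat_lit 0), (nat_lit 0), (nat_lit 0)), ((nat_lit 637), (nat_lit 1000), (nat_lit 908))], ((nat_lit 100), (nat_lit 76), (nat_lit 82))⟩, (nat_lit 1233494), (nat_lit 233), (nat_lit 233), (nat_lit 0), (nat_lit 81852), [(nat_lit 4688000000), (nat_lit 9842000000), (nat_lit 14058000000)], [], [(nat_lit 34942286592), (nat_lit 31344504773), (nat_lit 38790641088), (nat_lit 32509929560), (nat_lit 53956467680), (nat_lit 47852670656), (nat_lit 67270430048), (nat_lit 61410432096)], (nat_lit 1271251), (nat_lit 1271251), (nat_lit 704688), (nat_lit 1756876), (nat_lit 780000), (nat_lit 3072501), [(nat_lit 1100000), (nat_lit 2127501),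 (nat_lit 1271251)], [(nat_lit 19), (nat_lit 63), (nat_lit 483), (nat_lit 250), (nat_lit 11)]⟩,
 ⟨⟨[(nat_lit 120), (nat_lit 160), (nat_lit 200)], [(nat_lit 0), (nat_lit 533), (nat_lit 3597)], [((nat_lit 0), (nat_lit 0), (nat_lit 0)), ((nat_lit 960), (nat_lit 1000), (nat_lit 200)), ((nat_lit 612), (nat_lit 1000), (nat_lit 732))], ((nat_lit 0), (nat_lit 0), (nat_lit 0))⟩, (nat_lit 532287), (nat_lit 300), (nat_lit 406), (nat_lit 72426819), (nat_lit 148107), [(nat_lit 7968000000), (nat_lit 11872000000), (nat_lit 16400000000)], [], [(nat_lit 54800086033), (nat_lit 54727588717), (nat_lit 55190741749), (nat_lit 54769687954), (nat_lit 56888287594), (nat_lit 56323511302), (nat_lit 67247445979), (nat_lit 59831894709)], (nat_lit 1271251), (nat_lit 1271251), (nat_lit 780000), (nat_lit 2581251), (nat_lit 780000), (nat_lit 3072501), [(nat_lit 1695001), (nat_lit 1271251), (nat_lit 1271251)], [(nat_lit 29), (nat_lit 66), (nat_lit 483), (nat_lit 250), (nat_lit 10)]⟩⟩)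 (.dle (nat_lit 0))) (.trZ (nat_lit 0) (nat_lit 1) (nat_lit 3) (nat_lit 94) (nat_lit 62) (nat_lit 100) (nat_lit 150) (.leaf ⟨(nat_lit 0), (nat_lit 379), (nat_lit 0), (nat_lit 621), (nat_lit 9877), (nat_lit 10006), (nat_lit 5258), (nat_lit 4898), (nat_lit 0), (nat_lit 0), (nat_lit 0), [], Pd.none, Pd.none, (nat_lit 0), (nat_lit 1), (nat_lit 0), (nat_lit 0), (nat_lit 4), (nat_lit 0), [⟨(nat_lit 0), (nat_lit 87), (nat_lit 53), (nat_lit 100), (nat_lit 808999370)⟩], [], [], [],
 ⟨⟨[(nat_lit 40), (nat_lit 80), (nat_lit 120)], [(nat_lit 0), (nat_lit 1598), (nat_lit 3468)], [((nat_lit 0), (nat_lit 0), (nat_lit 0)), ((nat_lit 1000), (nat_lit 625), (nat_lit 623)), ((nat_lit 1000), (nat_lit 604), (nat_lit 730))], ((nat_lit 61), (nat_lit 100), (nat_lit 90))⟩, (nat_lit 0), (nat_lit 151), (nat_lit 151), (nat_lit 0), (nat_lit 151543), [(nat_lit 3530008919), (nat_lit 7451238012), (nat_lit 7968000000)], [], [(nat_lit 26129289508), (nat_lit 28684833973), (nat_lit 27897188828),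 (nat_lit 30025734739), (nat_lit 34293886268), (nat_lit 36445861350), (nat_lit 34660853877), (nat_lit 36456383376)], (nat_lit 1271251), (nat_lit 1271251), (nat_lit 1017188), (nat_lit 1779376), (nat_lit 780000), (nat_lit 2581251), [(nat_lit 490000), (nat_lit 1100000), (nat_lit 1785001)], [(nat_lit 4), (nat_lit 51), (nat_lit 373), (nat_lit 150), (nat_lit 11)]⟩,
 ⟨⟨[(nat_lit 60), (nat_lit 120), (nat_lit 180)], [(nat_lit 0), (nat_lit 0), (nat_lit 4796)], [((nat_lit 0), (nat_lit 0), (nat_lit 0)), ((nat_lit 0), (nat_lit 0), (nat_lit 0)), ((nat_lit 802), (nat_lit 1000), (nat_lit 999))], ((nat_lit 100), (nat_lit 85), (nat_lit 97))⟩, (nat_lit 2222436), (nat_lit 262), (nat_lit 262), (nat_lit 0), (nat_lit 228201), [(nat_lit 3282000000), (nat_lit 7968000000), (nat_lit 14058000000)], [], [(nat_lit 26405414980), (nat_lit 27184691008), (nat_lit 26970277084), (nat_lit 28530126004), (nat_lit 39453914209), (nat_lit 35256404566), (nat_lit 47991075712), (nat_lit 43378821208)],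 (nat_lit 1271251), (nat_lit 1271251), (nat_lit 1017188), (nat_lit 1779376), (nat_lit 780000), (nat_lit 3072501), [(nat_lit 780000), (nat_lit 1762501), (nat_lit 1271251)], [(nat_lit 13), (nat_lit 60), (nat_lit 483), (nat_lit 250), (nat_lit 11)]⟩,
 ⟨⟨[(nat_lit 120), (nat_lit 160), (nat_lit 200)], [(nat_lit 0), (nat_lit 533), (nat_lit 3597)], [((nat_lit 0), (nat_lit 0), (nat_lit 0)), ((nat_lit 960), (nat_lit 1000), (nat_lit 200)), ((nat_lit 612), (nat_lit 1000), (nat_lit 732))], ((nat_lit 0), (nat_lit 0), (nat_lit 0))⟩, (nat_lit 330550), (nat_lit 300), (nat_lit 696), (nat_lit 44977059), (nat_lit 711336), [(nat_lit 4948128000), (nat_lit 7372512000), (nat_lit 10184400000)], [], [(nat_lit 42102023396), (nat_lit 41747641278), (nat_lit 40537095447), (nat_lit 40091946540), (nat_lit 40758213107), (nat_lit 40272724125), (nat_lit 41153213129), (nat_lit 37912604042)], (nat_lit 1271251), (nat_lit 1271251), (nat_lit 780000), (nat_lit 2581251), (nat_lit 780000), (nat_lit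 3072501), [(nat_lit 1695001), (nat_lit 1271251), (nat_lit 1271251)], [(nat_lit 29), (nat_lit 66), (nat_lit 483), (nat_lit 250), (nat_lit 10)]⟩⟩)))) (.dle (nat_lit 0)))
noncomputable def c17_114 : Tr Lf :=
 (.trX (nat_lit 3) (nat_lit 0) (nat_lit 1) (nat_lit 65) (nat_lit 54) (nat_lit 100) (nat_lit 380) (.spl (nat_lit 6) (nat_lit 112) (.spl (nat_lit 5) (nat_lit 200) (.spl (nat_lit 1) (nat_lit 260) (.trX (nat_lit 3) (nat_lit 0) (nat_lit 1) (nat_lit 63) (nat_lit 61) (nat_lit 100) (nat_lit 370) (.spl (nat_lit 6) (nat_lit 100) (.spl (nat_lit 1) (nat_lit 250) (.trX (nat_lit 3) (nat_lit 0) (nat_lit 1) (nat_lit 62) (nat_lit 65) (nat_lit 100) (nat_lit 360) (.spl (nat_lit 6) (nat_lit 92) (.leaf ⟨(nat_lit 0), (nat_lit 1000), (nat_lit 0), (nat_lit 0), (nat_lit 20624), (nat_lit 4172), (nat_lit 11024), (nat_lit 0), (nat_lit 0), (nat_lit 0), (nat_lit 0), [], Pd.none, Pd.none, (nat_lit 0), (nat_lit 1), (nat_lit 0), (nat_lit 0), (nat_lit 3), (nat_lit 0), [], [⟨(nat_lit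 1), (nat_lit 99), (nat_lit 54), (nat_lit 100), (nat_lit 500600639)⟩], [], [⟨(nat_lit 0), (nat_lit 100), (nat_lit 87), (nat_lit 57), (nat_lit 67740011)⟩],
 ⟨⟨[(nat_lit 40), (nat_lit 80), (nat_lit 120)], [(nat_lit 0), (nat_lit 1598), (nat_lit 3468)], [((nat_lit 0), (nat_lit 0), (nat_lit 0)), ((nat_lit 1000), (nat_lit 625), (nat_lit 623)), ((nat_lit 1000), (nat_lit 604), (nat_lit 730))], ((nat_lit 60), (nat_lit 100), (nat_lit 84))⟩, (nat_lit 1724320), (nat_lit 145), (nat_lit 145), (nat_lit 0), (nat_lit 71918), [(nat_lit 2032000017), (nat_lit 5288591452), (nat_lit 7968000000)], [], [(nat_lit 24453027001), (nat_lit 25640411917), (nat_lit 29343531838), (nat_lit 30297553825), (nat_lit 28217328127), (nat_lit 29121093642), (nat_lit 32180630011), (nat_lit 33080861742)], (nat_lit 1271251), (nat_lit 1271251), (nat_lit 1271251), (nat_lit 1271251), (nat_lit 780000), (nat_lit 2335626), [(nat_lit 490000), (nat_lit 1100000), (nat_lit 1785001)], [(nat_lit 4), (nat_lit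 51), (nat_lit 317), (nat_lit 100), (nat_lit 9)]⟩,
 ⟨⟨[(nat_lit 80), (nat_lit 140), (nat_lit 180)], [(nat_lit 0), (nat_lit 0), (nat_lit 3656)], [((nat_lit 0), (nat_lit 0), (nat_lit 0)), ((nat_lit 0), (nat_lit 0), (nat_lit 0)), ((nat_lit 637), (nat_lit 1000), (nat_lit 908))], ((nat_lit 100), (nat_lit 71), (nat_lit 86))⟩, (nat_lit 2593251), (nat_lit 393), (nat_lit 393), (nat_lit 0), (nat_lit 175525), [(nat_lit 4688000000), (nat_lit 9842000000), (nat_lit 14058000000)], [], [(nat_lit 35193894888), (nat_lit 35558202168), (nat_lit 41854751312), (nat_lit 42164132506), (nat_lit 26571819792), (nat_lit 26951462772), (nat_lit 31853028504), (nat_lit 32065868726)], (nat_lit 1271251), (nat_lit 1271251), (nat_lit 1271251), (nat_lit 1271251), (nat_lit 0), (nat_lit 1412501), [(nat_lit 1100000), (nat_lit 2127501), (nat_lit 1271251)], [(nat_lit 19), (nat_lit 63), (nat_lit 456), (nat_lit 225), (nat_lit 10)]⟩,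
 Rw.none⟩) (.dle (nat_lit 0)))) (.leaf ⟨(nat_lit 0), (nat_lit 1000), (nat_lit 0), (nat_lit 0), (nat_lit 18155), (nat_lit 4084), (nat_lit 9987), (nat_lit 0), (nat_lit 0), (nat_lit 0), (nat_lit 0), [], Pd.none, Pd.none, (nat_lit 0), (nat_lit 1), (nat_lit 0), (nat_lit 0), (nat_lit 3), (nat_lit 0), [], [⟨(nat_lit 1), (nat_lit 99), (nat_lit 54), (nat_lit 100), (nat_lit 521297568)⟩], [], [⟨(nat_lit 0), (nat_lit 100), (nat_lit 85), (nat_lit 59), (nat_lit 42042865)⟩],
 ⟨⟨[(nat_lit 40), (nat_lit 80), (nat_lit 120)], [(nat_lit 0), (nat_lit 1598), (nat_lit 3468)], [((nat_lit 0), (nat_lit 0), (nat_lit 0)), ((nat_lit 1000), (nat_lit 625), (nat_lit 623)), ((nat_lit 1000), (nat_lit 604), (nat_lit 730))], ((nat_lit 60), (nat_lit 100), (nat_lit 87))⟩, (nat_lit 1723511), (nat_lit 154), (nat_lit 154), (nat_lit 0), (nat_lit 95519), [(nat_lit 2032000730), (nat_lit 5186283197), (nat_lit 7968000000)], [], [(nat_lit 24559105550), (nat_lit 25734361602), (nat_lit 29820637153),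 (nat_lit 30741243560), (nat_lit 28313951370), (nat_lit 29164770024), (nat_lit 32526434059), (nat_lit 33395146172)], (nat_lit 1271251), (nat_lit 1271251), (nat_lit 1271251), (nat_lit 1271251), (nat_lit 780000), (nat_lit 2335626), [(nat_lit 490000), (nat_lit 1100000), (nat_lit 1785001)], [(nat_lit 4), (nat_lit 51), (nat_lit 317), (nat_lit 100), (nat_lit 9)]⟩,
 ⟨⟨[(nat_lit 80), (nat_lit 140), (nat_lit 180)], [(nat_lit 0), (nat_lit 395), (nat_lit 3941)], [((nat_lit 0), (nat_lit 0), (nat_lit 0)), ((nat_lit 1000), (nat_lit 979), (nat_lit 103)), ((nat_lit 672), (nat_lit 1000), (nat_lit 927))], ((nat_lit 100), (nat_lit 72), (nat_lit 89))⟩, (nat_lit 2528409), (nat_lit 407), (nat_lit 407), (nat_lit 0), (nat_lit 213695), [(nat_lit 4688000000), (nat_lit 9842000000), (nat_lit 14058000000)], [], [(nat_lit 34720751963), (nat_lit 35073294478), (nat_lit 41448785164), (nat_lit 41733791481), (nat_lit 27028288764), (nat_lit 27394105941), (nat_lit 32443880364), (nat_lit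 32643326582)], (nat_lit 1271251), (nat_lit 1271251), (nat_lit 1271251), (nat_lit 1271251), (nat_lit 0), (nat_lit 1412501), [(nat_lit 1100000), (nat_lit 2127501), (nat_lit 1271251)], [(nat_lit 19), (nat_lit 63), (nat_lit 456), (nat_lit 225), (nat_lit 10)]⟩,
 Rw.none⟩)) (.dle (nat_lit 0)))) (.spl (nat_lit 0) (nat_lit 370) (.spl (nat_lit 6) (nat_lit 96) (.leaf ⟨(nat_lit 0), (nat_lit 1000), (nat_lit 0), (nat_lit 0), (nat_lit 24737), (nat_lit 4114), (nat_lit 9087), (nat_lit 0), (nat_lit 0), (nat_lit 0), (nat_lit 0), [], Pd.none, Pd.none, (nat_lit 0), (nat_lit 1), (nat_lit 0), (nat_lit 0), (nat_lit 3), (nat_lit 0), [], [⟨(nat_lit 1), (nat_lit 97), (nat_lit 58), (nat_lit 100), (nat_lit 489794373)⟩], [], [⟨(nat_lit 0), (nat_lit 100), (nat_lit 84), (nat_lit 61), (nat_lit 10044141)⟩],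
 ⟨⟨[(nat_lit 40), (nat_lit 80), (nat_lit 120)], [(nat_lit 0), (nat_lit 1598), (nat_lit 3468)], [((nat_lit 0), (nat_lit 0), (nat_lit 0)), ((nat_lit 1000), (nat_lit 625), (nat_lit 623)), ((nat_lit 1000), (nat_lit 604), (nat_lit 730))], ((nat_lit 60), (nat_lit 100), (nat_lit 86))⟩, (nat_lit 1710146), (nat_lit 151), (nat_lit 151), (nat_lit 0), (nat_lit 82379), [(nat_lit 2032000192), (nat_lit 5179757177), (nat_lit 7968000000)], [], [(nat_lit 24570248392), (nat_lit 25159943838), (nat_lit 30342198380), (nat_lit 30791196401), (nat_lit 28321454237), (nat_lit 28748059061), (nat_lit 33009733217), (nat_lit 33433032774)], (nat_lit 1271251), (nat_lit 1271251), (nat_lit 1271251), (nat_lit 1271251), (nat_lit 780000), (nat_lit 2335626), [(nat_lit 490000), (nat_lit 1100000), (nat_lit 1785001)], [(nat_lit 4), (nat_lit 51), (nat_lit 317), (nat_lit 100), (nat_lit 9)]⟩,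
 ⟨⟨[(nat_lit 80), (nat_lit 140), (nat_lit 180)], [(nat_lit 0), (nat_lit 792), (nat_lit 4228)], [((nat_lit 0), (nat_lit 0), (nat_lit 0)), ((nat_lit 1000), (nat_lit 959), (nat_lit 206)), ((nat_lit 709), (nat_lit 1000), (nat_lit 949))], ((nat_lit 100), (nat_lit 79), (nat_lit 90))⟩, (nat_lit 2559772), (nat_lit 385), (nat_lit 385), (nat_lit 0), (nat_lit 153246), [(nat_lit 4688000000), (nat_lit 9842000000), (nat_lit 14058000000)], [], [(nat_lit 33735829062), (nat_lit 34420493092), (nat_lit 40784360908), (nat_lit 41313483950), (nat_lit 27125104503), (nat_lit 27832740358), (nat_lit 32654937055), (nat_lit 33031213425)], (nat_lit 1271251), (nat_lit 1271251), (nat_lit 1271251), (nat_lit 1271251), (nat_lit 0), (nat_lit 1412501), [(nat_lit 1100000), (nat_lit 2127501), (nat_lit 1271251)], [(nat_lit 19), (nat_lit 63), (nat_lit 456), (nat_lit 225), (nat_lit 10)]⟩,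
 Rw.none⟩) (.dle (nat_lit 0))) (.trX (nat_lit 3) (nat_lit 0) (nat_lit 1) (nat_lit 57) (nat_lit 62) (nat_lit 100) (nat_lit 370) (.trX (nat_lit 4) (nat_lit 0) (nat_lit 2) (nat_lit 53) (nat_lit 90) (nat_lit 100) (nat_lit 290) (.leaf ⟨(nat_lit 0), (nat_lit 1000), (nat_lit 0), (nat_lit 0), (nat_lit 12911), (nat_lit 4316), (nat_lit 9232), (nat_lit 0), (nat_lit 0), (nat_lit 0), (nat_lit 0), [], Pd.none, Pd.none, (nat_lit 0), (nat_lit 1), (nat_lit 0), (nat_lit 0), (nat_lit 3), (nat_lit 0), [], [⟨(nat_lit 1), (nat_lit 100), (nat_lit 50), (nat_lit 100), (nat_lit 539416808)⟩], [], [⟨(nat_lit 0), (nat_lit 100), (nat_lit 85), (nat_lit 55), (nat_lit 14645389)⟩],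
 ⟨⟨[(nat_lit 40), (nat_lit 80), (nat_lit 120)], [(nat_lit 0), (nat_lit 2008), (nat_lit 3930)], [((nat_lit 0), (nat_lit 0), (nat_lit 0)), ((nat_lit 1000), (nat_lit 540), (nat_lit 733)), ((nat_lit 1000), (nat_lit 536), (nat_lit 751))], ((nat_lit 53), (nat_lit 100), (nat_lit 90))⟩, (nat_lit 1430374), (nat_lit 169), (nat_lit 169), (nat_lit 0), (nat_lit 150340), [(nat_lit 2032000004), (nat_lit 4780799809), (nat_lit 7968000000)], [], [(nat_lit 25516366291), (nat_lit 26030042421), (nat_lit 30654212339), (nat_lit 31124873248), (nat_lit 28343793755), (nat_lit 28821982611), (nat_lit 32689820499), (nat_lit 33153740811)], (nat_lit 1271251), (nat_lit 1271251), (nat_lit 1271251), (nat_lit 1271251), (nat_lit 780000), (nat_lit 2171876), [(nat_lit 490000), (nat_lit 1100000), (nat_lit 1785001)], [(nat_lit 4), (nat_lit 51), (nat_lit 289), (nat_lit 75), (nat_lit 8)]⟩,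
 ⟨⟨[(nat_lit 80), (nat_lit 140), (nat_lit 180)], [(nat_lit 0), (nat_lit 792), (nat_lit 4228)], [((nat_lit 0), (nat_lit 0), (nat_lit 0)), ((nat_lit 1000), (nat_lit 959), (nat_lit 206)), ((nat_lit 709), (nat_lit 1000), (nat_lit 949))], ((nat_lit 100), (nat_lit 72), (nat_lit 94))⟩, (nat_lit 2578105), (nat_lit 435), (nat_lit 435), (nat_lit 0), (nat_lit 294307), [(nat_lit 4688000000), (nat_lit 9842000000), (nat_lit 14058000000)], [], [(nat_lit 33555281572), (nat_lit 34266906656), (nat_lit 40054909363), (nat_lit 40616573962), (nat_lit 26807960616), (nat_lit 27519462896), (nat_lit 31889383403), (nat_lit 32289832980)], (nat_lit 1271251), (nat_lit 1271251), (nat_lit 1271251), (nat_lit 1271251), (nat_lit 0), (nat_lit 1412501), [(nat_lit 1100000), (nat_lit 2127501), (nat_lit 1271251)], [(nat_lit 19), (nat_lit 63), (nat_lit 456), (nat_lit 225), (nat_lit 10)]⟩,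
 Rw.none⟩))))) (.stt (nat_lit 2) (.leaf ⟨(nat_lit 0), (nat_lit 863), (nat_lit 0), (nat_lit 137), (nat_lit 7481), (nat_lit 4311), (nat_lit 10055), (nat_lit 1530), (nat_lit 0), (nat_lit 0), (nat_lit 0), [], Pd.none, Pd.none, (nat_lit 0), (nat_lit 1), (nat_lit 0), (nat_lit 0), (nat_lit 5), (nat_lit 0), [], [⟨(nat_lit 1), (nat_lit 99), (nat_lit 54), (nat_lit 100), (nat_lit 288753209)⟩], [⟨(nat_lit 1), (nat_lit 55), (nat_lit 99), (nat_lit 100), (nat_lit 342413207)⟩], [],
 ⟨⟨[(nat_lit 40), (nat_lit 80), (nat_lit 120)], [(nat_lit 0), (nat_lit 1598), (nat_lit 3468)], [((nat_lit 0), (nat_lit 0), (nat_lit 0)), ((nat_lit 1000), (nat_lit 625), (nat_lit 623)), ((nat_lit 1000), (nat_lit 604), (nat_lit 730))], ((nat_lit 61), (nat_lit 100), (nat_lit 91))⟩, (nat_lit 1582491), (nat_lit 172), (nat_lit 172), (nat_lit 0), (nat_lit 152931), [(nat_lit 2032003492), (nat_lit 4688524641), (nat_lit 7968000000)], [], [(nat_lit 25397881087), (nat_lit 26424690297), (nat_lit 30800227349),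 (nat_lit 31714900204), (nat_lit 28633296962), (nat_lit 29548652973), (nat_lit 33251324931), (nat_lit 34112317984)], (nat_lit 1271251), (nat_lit 1271251), (nat_lit 1271251), (nat_lit 1271251), (nat_lit 780000), (nat_lit 2335626), [(nat_lit 490000), (nat_lit 1100000), (nat_lit 1785001)], [(nat_lit 4), (nat_lit 51), (nat_lit 317), (nat_lit 100), (nat_lit 9)]⟩,
 ⟨⟨[(nat_lit 80), (nat_lit 140), (nat_lit 180)], [(nat_lit 0), (nat_lit 0), (nat_lit 3656)], [((nat_lit 0), (nat_lit 0), (nat_lit 0)), ((nat_lit 0), (nat_lit 0), (nat_lit 0)), ((nat_lit 637), (nat_lit 1000), (nat_lit 908))], ((nat_lit 100), (nat_lit 62), (nat_lit 92))⟩, (nat_lit 0), (nat_lit 119), (nat_lit 119), (nat_lit 0), (nat_lit 0), [(nat_lit 4688000000), (nat_lit 9842000000), (nat_lit 14058000000)], [], [(nat_lit 22561483710), (nat_lit 25106763545), (nat_lit 32680408930), (nat_lit 34105483553), (nat_lit 34468723560), (nat_lit 35578996650), (nat_lit 41182121275), (nat_lit 42139118440)], (nat_lit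 0), (nat_lit 0), (nat_lit 0), (nat_lit 0), (nat_lit 0), (nat_lit 0), [], [(nat_lit 19), (nat_lit 63), (nat_lit 538), (nat_lit 300), (nat_lit 12)]⟩,
 ⟨⟨[(nat_lit 140), (nat_lit 180), (nat_lit 200)], [(nat_lit 0), (nat_lit 0), (nat_lit 2835)], [((nat_lit 0), (nat_lit 0), (nat_lit 0)), ((nat_lit 0), (nat_lit 0), (nat_lit 0)), ((nat_lit 363), (nat_lit 1000), (nat_lit 798))], ((nat_lit 0), (nat_lit 0), (nat_lit 0))⟩, (nat_lit 37693), (nat_lit 300), (nat_lit 1121), (nat_lit 10699702), (nat_lit 1627982), [(nat_lit 1348354000), (nat_lit 1925946000), (nat_lit 2246800000)], [], [(nat_lit 9068156198), (nat_lit 8725844374), (nat_lit 8189401051), (nat_lit 7843300332), (nat_lit 8493853536), (nat_lit 8137157527), (nat_lit 7594750054), (nat_lit 7234535198)], (nat_lit 780000), (nat_lit 1271251), (nat_lit 780000), (nat_lit 2335626), (nat_lit 1271251), (nat_lit 1271251), [(nat_lit 1977501), (nat_lit 1271251), (nat_lit 1271251)], [(nat_lit 32), (nat_lit 67), (nat_lit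 456), (nat_lit 225), (nat_lit 10)]⟩⟩) (.leaf ⟨(nat_lit 0), (nat_lit 685), (nat_lit 0), (nat_lit 315), (nat_lit 0), (nat_lit 4084), (nat_lit 9509), (nat_lit 3523), (nat_lit 0), (nat_lit 0), (nat_lit 0), [], Pd.none, Pd.none, (nat_lit 0), (nat_lit 1), (nat_lit 0), (nat_lit 0), (nat_lit 5), (nat_lit 0), [], [⟨(nat_lit 1), (nat_lit 99), (nat_lit 54), (nat_lit 100), (nat_lit 73793168)⟩], [⟨(nat_lit 1), (nat_lit 55), (nat_lit 99), (nat_lit 100), (nat_lit 159696884)⟩], [],
 ⟨⟨[(nat_lit 40), (nat_lit 80), (nat_lit 120)], [(nat_lit 0), (nat_lit 1598), (nat_lit 3468)], [((nat_lit 0), (nat_lit 0), (nat_lit 0)), ((nat_lit 1000), (nat_lit 625), (nat_lit 623)), ((nat_lit 1000), (nat_lit 604), (nat_lit 730))], ((nat_lit 61), (nat_lit 100), (nat_lit 91))⟩, (nat_lit 1693334), (nat_lit 157), (nat_lit 157), (nat_lit 0), (nat_lit 98495), [(nat_lit 2032000006), (nat_lit 5203596292), (nat_lit 7968000000)], [], [(nat_lit 24663758662), (nat_lit 25839014714), (nat_lit 30398169183),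 (nat_lit 31324621668), (nat_lit 28418604482), (nat_lit 29269423136), (nat_lit 32972942601), (nat_lit 33817349744)], (nat_lit 1271251), (nat_lit 1271251), (nat_lit 1271251), (nat_lit 1271251), (nat_lit 780000), (nat_lit 2335626), [(nat_lit 490000), (nat_lit 1100000), (nat_lit 1785001)], [(nat_lit 4), (nat_lit 51), (nat_lit 317), (nat_lit 100), (nat_lit 9)]⟩,
 ⟨⟨[(nat_lit 80), (nat_lit 140), (nat_lit 180)], [(nat_lit 0), (nat_lit 0), (nat_lit 3656)], [((nat_lit 0), (nat_lit 0), (nat_lit 0)), ((nat_lit 0), (nat_lit 0), (nat_lit 0)), ((nat_lit 637), (nat_lit 1000), (nat_lit 908))], ((nat_lit 100), (nat_lit 62), (nat_lit 92))⟩, (nat_lit 1958657), (nat_lit 278), (nat_lit 278), (nat_lit 0), (nat_lit 307738), [(nat_lit 4688000000), (nat_lit 9842000000), (nat_lit 14058000000)], [], [(nat_lit 26647227568), (nat_lit 28432607241), (nat_lit 34020239462), (nat_lit 34962335263), (nat_lit 35096399580), (nat_lit 35799726684), (nat_lit 40433989345), (nat_lit 41390275072)],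 (nat_lit 1271251), (nat_lit 1271251), (nat_lit 1271251), (nat_lit 1271251), (nat_lit 1271251), (nat_lit 1271251), [(nat_lit 1100000), (nat_lit 2127501), (nat_lit 1271251)], [(nat_lit 19), (nat_lit 63), (nat_lit 538), (nat_lit 300), (nat_lit 12)]⟩,
 ⟨⟨[(nat_lit 140), (nat_lit 180), (nat_lit 200)], [(nat_lit 0), (nat_lit 0), (nat_lit 2835)], [((nat_lit 0), (nat_lit 0), (nat_lit 0)), ((nat_lit 0), (nat_lit 0), (nat_lit 0)), ((nat_lit 363), (nat_lit 1000), (nat_lit 798))], ((nat_lit 0), (nat_lit 0), (nat_lit 0))⟩, (nat_lit 86667), (nat_lit 300), (nat_lit 879), (nat_lit 24601500), (nat_lit 1094374), [(nat_lit 3100230000), (nat_lit 4428270000), (nat_lit 5166000000)], [], [(nat_lit 20448312081), (nat_lit 19687455538), (nat_lit 18628582057), (nat_lit 17843915850), (nat_lit 19508261848), (nat_lit 18686604043), (nat_lit 17436898648), (nat_lit 16616538581)], (nat_lit 780000), (nat_lit 1271251), (nat_lit 780000), (nat_lit 2335626), (nat_lit 1271251), (nat_lit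 1271251), [(nat_lit 1977501), (nat_lit 1271251), (nat_lit 1271251)], [(nat_lit 32), (nat_lit 67), (nat_lit 456), (nat_lit 225), (nat_lit 10)]⟩⟩))) (.dle (nat_lit 0))))
noncomputable def c17_115 : Tr Lf :=
 (.spl (nat_lit 1) (nat_lit 300) (.trX (nat_lit 3) (nat_lit 0) (nat_lit 1) (nat_lit 69) (nat_lit 45) (nat_lit 100) (nat_lit 390) (.spl (nat_lit 6) (nat_lit 128) (.spl (nat_lit 5) (nat_lit 120) (.leaf ⟨(nat_lit 0), (nat_lit 1000), (nat_lit 0), (nat_lit 0), (nat_lit 15170), (nat_lit 4543), (nat_lit 8115), (nat_lit 0), (nat_lit 0), (nat_lit 0), (nat_lit 0), [], Pd.none, Pd.none, (nat_lit 0), (nat_lit 1), (nat_lit 0), (nat_lit 0), (nat_lit 3), (nat_lit 0), [], [⟨(nat_lit 1), (nat_lit 99), (nat_lit 54), (nat_lit 100), (nat_lit 424432762)⟩], [], [⟨(nat_lit 0), (nat_lit 100), (nat_lit 82), (nat_lit 64), (nat_lit 116556707)⟩],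
 ⟨⟨[(nat_lit 40), (nat_lit 100), (nat_lit 140)], [(nat_lit 0), (nat_lit 2396), (nat_lit 4896)], [((nat_lit 0), (nat_lit 0), (nat_lit 0)), ((nat_lit 1000), (nat_lit 625), (nat_lit 623)), ((nat_lit 1000), (nat_lit 625), (nat_lit 975))], ((nat_lit 62), (nat_lit 100), (nat_lit 97))⟩, (nat_lit 1747346), (nat_lit 220), (nat_lit 220), (nat_lit 0), (nat_lit 222131), [(nat_lit 2032000694), (nat_lit 6250001655), (nat_lit 9842000000)], [], [(nat_lit 25261445134), (nat_lit 26176081648), (nat_lit 31539139727), (nat_lit 32726438404), (nat_lit 28278115691), (nat_lit 29142179762), (nat_lit 34001163043), (nat_lit 34852755470)], (nat_lit 1271251), (nat_lit 1271251), (nat_lit 1271251), (nat_lit 1271251), (nat_lit 780000), (nat_lit 2335626), [(nat_lit 490000), (nat_lit 1427501), (nat_lit 1271251)], [(nat_lit 5), (nat_lit 55), (nat_lit 401), (nat_lit 175), (nat_lit 10)]⟩,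
 ⟨⟨[(nat_lit 60), (nat_lit 120), (nat_lit 180)], [(nat_lit 0), (nat_lit 0), (nat_lit 4796)], [((nat_lit 0), (nat_lit 0), (nat_lit 0)), ((nat_lit 0), (nat_lit 0), (nat_lit 0)), ((nat_lit 802), (nat_lit 1000), (nat_lit 999))], ((nat_lit 98), (nat_lit 75), (nat_lit 100))⟩, (nat_lit 2462542), (nat_lit 433), (nat_lit 433), (nat_lit 0), (nat_lit 311577), [(nat_lit 3282000000), (nat_lit 7968000000), (nat_lit 14058000000)], [], [(nat_lit 33015582938), (nat_lit 33770366923), (nat_lit 40890337374), (nat_lit 41541458010), (nat_lit 27348179898), (nat_lit 28194525003), (nat_lit 34990055384), (nat_lit 35569387955)], (nat_lit 1271251), (nat_lit 1271251), (nat_lit 1271251), (nat_lit 1271251), (nat_lit 0), (nat_lit 780000), [(nat_lit 780000), (nat_lit 1762501), (nat_lit 1271251)], [(nat_lit 13), (nat_lit 60), (nat_lit 456), (nat_lit 225), (nat_lit 10)]⟩,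
 Rw.none⟩) (.leaf ⟨(nat_lit 0), (nat_lit 875), (nat_lit 0), (nat_lit 125), (nat_lit 10444), (nat_lit 4258), (nat_lit 8949), (nat_lit 1354), (nat_lit 0), (nat_lit 0), (nat_lit 0), [], Pd.none, Pd.none, (nat_lit 0), (nat_lit 1), (nat_lit 0), (nat_lit 0), (nat_lit 3), (nat_lit 0), [], [⟨(nat_lit 1), (nat_lit 99), (nat_lit 54), (nat_lit 100), (nat_lit 381795334)⟩], [], [],
 ⟨⟨[(nat_lit 40), (nat_lit 100), (nat_lit 140)], [(nat_lit 0), (nat_lit 2396), (nat_lit 4896)], [((nat_lit 0), (nat_lit 0), (nat_lit 0)), ((nat_lit 1000), (nat_lit 625), (nat_lit 623)), ((nat_lit 1000), (nat_lit 625), (nat_lit 975))], ((nat_lit 62), (nat_lit 100), (nat_lit 97))⟩, (nat_lit 1829825), (nat_lit 220), (nat_lit 220), (nat_lit 0), (nat_lit 222131), [(nat_lit 2032000099), (nat_lit 6259069589), (nat_lit 9842000000)], [], [(nat_lit 25291082690), (nat_lit 26180950815), (nat_lit 31066314111), (nat_lit 32218475423), (nat_lit 28028343786), (nat_lit 28870454291), (nat_lit 33639969379),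 (nat_lit 34472009034)], (nat_lit 1271251), (nat_lit 1271251), (nat_lit 1271251), (nat_lit 1271251), (nat_lit 780000), (nat_lit 2335626), [(nat_lit 490000), (nat_lit 1427501), (nat_lit 1271251)], [(nat_lit 5), (nat_lit 55), (nat_lit 401), (nat_lit 175), (nat_lit 10)]⟩,
 ⟨⟨[(nat_lit 60), (nat_lit 120), (nat_lit 180)], [(nat_lit 0), (nat_lit 0), (nat_lit 4796)], [((nat_lit 0), (nat_lit 0), (nat_lit 0)), ((nat_lit 0), (nat_lit 0), (nat_lit 0)), ((nat_lit 802), (nat_lit 1000), (nat_lit 999))], ((nat_lit 98), (nat_lit 75), (nat_lit 100))⟩, (nat_lit 2223730), (nat_lit 372), (nat_lit 372), (nat_lit 0), (nat_lit 369320), [(nat_lit 3282000000), (nat_lit 7968000000), (nat_lit 14058000000)], [], [(nat_lit 27216119478), (nat_lit 27906586330), (nat_lit 33828003361), (nat_lit 34420077158), (nat_lit 26458483375), (nat_lit 27034962052), (nat_lit 32819337393), (nat_lit 33350697437)], (nat_lit 1271251), (nat_lit 1271251), (nat_lit 1271251), (nat_lit 1271251), (nat_lit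 780000), (nat_lit 1435001), [(nat_lit 780000), (nat_lit 1762501), (nat_lit 1271251)], [(nat_lit 13), (nat_lit 60), (nat_lit 456), (nat_lit 225), (nat_lit 10)]⟩,
 ⟨⟨[(nat_lit 140), (nat_lit 180), (nat_lit 200)], [(nat_lit 0), (nat_lit 0), (nat_lit 2835)], [((nat_lit 0), (nat_lit 0), (nat_lit 0)), ((nat_lit 0), (nat_lit 0), (nat_lit 0)), ((nat_lit 363), (nat_lit 1000), (nat_lit 798))], ((nat_lit 0), (nat_lit 0), (nat_lit 0))⟩, (nat_lit 34392), (nat_lit 300), (nat_lit 1510), (nat_lit 9762500), (nat_lit 2376043), [(nat_lit 1230250000), (nat_lit 1757250000), (nat_lit 2050000000)], [], [(nat_lit 9114544209), (nat_lit 8814024620), (nat_lit 8292749107), (nat_lit 9001575942), (nat_lit 8711632062), (nat_lit 8415869622), (nat_lit 9351104669), (nat_lit 10446805304)], (nat_lit 780000), (nat_lit 1271251), (nat_lit 780000), (nat_lit 2335626), (nat_lit 780000), (nat_lit 1435001), [(nat_lit 1977501), (nat_lit 1271251), (nat_lit 1271251)], [(nat_lit 32), (nat_lit 67),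 (nat_lit 464), (nat_lit 175), (nat_lit 10)]⟩⟩)) (.dle (nat_lit 0)))) (.spl (nat_lit 6) (nat_lit 116) (.spl (nat_lit 0) (nat_lit 370) (.leaf ⟨(nat_lit 0), (nat_lit 917), (nat_lit 0), (nat_lit 83), (nat_lit 9346), (nat_lit 4258), (nat_lit 7251), (nat_lit 956), (nat_lit 0), (nat_lit 0), (nat_lit 0), [], Pd.none, Pd.none, (nat_lit 0), (nat_lit 1), (nat_lit 0), (nat_lit 0), (nat_lit 3), (nat_lit 0), [], [⟨(nat_lit 1), (nat_lit 97), (nat_lit 58), (nat_lit 100), (nat_lit 330807020)⟩], [], [],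
 ⟨⟨[(nat_lit 40), (nat_lit 100), (nat_lit 140)], [(nat_lit 0), (nat_lit 2396), (nat_lit 4896)], [((nat_lit 0), (nat_lit 0), (nat_lit 0)), ((nat_lit 1000), (nat_lit 625), (nat_lit 623)), ((nat_lit 1000), (nat_lit 625), (nat_lit 975))], ((nat_lit 61), (nat_lit 100), (nat_lit 93))⟩, (nat_lit 1810311), (nat_lit 227), (nat_lit 227), (nat_lit 0), (nat_lit 245197), [(nat_lit 2032000002), (nat_lit 6250000050), (nat_lit 9842000000)], [], [(nat_lit 25424309142), (nat_lit 25869243205), (nat_lit 31699308518), (nat_lit 32256417924), (nat_lit 28123884136), (nat_lit 28544682334), (nat_lit 34093610583), (nat_lit 34497089952)], (nat_lit 1271251), (nat_lit 1271251), (nat_lit 1271251), (nat_lit 1271251), (nat_lit 780000), (nat_lit 2335626), [(nat_lit 490000), (nat_lit 1427501), (nat_lit 1271251)], [(nat_lit 5), (nat_lit 55), (nat_lit 428), (nat_lit 200), (nat_lit 11)]⟩,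
 ⟨⟨[(nat_lit 60), (nat_lit 120), (nat_lit 160)], [(nat_lit 0), (nat_lit 913), (nat_lit 3885)], [((nat_lit 0), (nat_lit 0), (nat_lit 0)), ((nat_lit 1000), (nat_lit 905), (nat_lit 238)), ((nat_lit 886), (nat_lit 948), (nat_lit 1000))], ((nat_lit 95), (nat_lit 90), (nat_lit 100))⟩, (nat_lit 1922734), (nat_lit 399), (nat_lit 399), (nat_lit 0), (nat_lit 339777), [(nat_lit 3282000000), (nat_lit 7968000000), (nat_lit 11872000000)], [], [(nat_lit 34071507276), (nat_lit 34657194262), (nat_lit 40412724495), (nat_lit 41560263736), (nat_lit 29288920444), (nat_lit 29800137666), (nat_lit 33810569675), (nat_lit 34104877764)], (nat_lit 1271251), (nat_lit 1271251), (nat_lit 1271251), (nat_lit 1271251), (nat_lit 0), (nat_lit 1412501), [(nat_lit 780000), (nat_lit 1762501), (nat_lit 1271251)], [(nat_lit 12), (nat_lit 59), (nat_lit 483), (nat_lit 250), (nat_lit 12)]⟩,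
 ⟨⟨[(nat_lit 140), (nat_lit 180), (nat_lit 200)], [(nat_lit 0), (nat_lit 0), (nat_lit 2835)], [((nat_lit 0), (nat_lit 0), (nat_lit 0)), ((nat_lit 0), (nat_lit 0), (nat_lit 0)), ((nat_lit 363), (nat_lit 1000), (nat_lit 798))], ((nat_lit 0), (nat_lit 0), (nat_lit 0))⟩, (nat_lit 22836), (nat_lit 300), (nat_lit 1653), (nat_lit 6482300), (nat_lit 2508522), [(nat_lit 816886000), (nat_lit 1166814000), (nat_lit 1361200000)], [], [(nat_lit 6320821520), (nat_lit 6096101805), (nat_lit 5803830600), (nat_lit 5579399074), (nat_lit 5337115032), (nat_lit 5121467433), (nat_lit 6236652007), (nat_lit 6999948099)], (nat_lit 780000), (nat_lit 1271251), (nat_lit 780000), (nat_lit 2335626), (nat_lit 0), (nat_lit 1412501), [(nat_lit 1977501), (nat_lit 1271251), (nat_lit 1271251)], [(nat_lit 32), (nat_lit 67), (nat_lit 500), (nat_lit 175), (nat_lit 11)]⟩⟩) (.trX (nat_lit 3) (nat_lit 0) (nat_lit 1) (nat_lit 66) (nat_lit 45) (nat_lit 100) (nat_lit 390) (.trX (nat_lit 4) (nat_lit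 0) (nat_lit 2) (nat_lit 53) (nat_lit 90) (nat_lit 100) (nat_lit 290) (.leaf ⟨(nat_lit 0), (nat_lit 916), (nat_lit 0), (nat_lit 84), (nat_lit 0), (nat_lit 6182), (nat_lit 7397), (nat_lit 976), (nat_lit 0), (nat_lit 0), (nat_lit 0), [], Pd.none, Pd.none, (nat_lit 0), (nat_lit 1), (nat_lit 0), (nat_lit 0), (nat_lit 3), (nat_lit 0), [], [⟨(nat_lit 1), (nat_lit 100), (nat_lit 50), (nat_lit 100), (nat_lit 304697926)⟩], [], [],
 ⟨⟨[(nat_lit 40), (nat_lit 80), (nat_lit 120)], [(nat_lit 0), (nat_lit 2008), (nat_lit 3930)], [((nat_lit 0), (nat_lit 0), (nat_lit 0)), ((nat_lit 1000), (nat_lit 540), (nat_lit 733)), ((nat_lit 1000), (nat_lit 536), (nat_lit 751))], ((nat_lit 53), (nat_lit 100), (nat_lit 91))⟩, (nat_lit 609545), (nat_lit 234), (nat_lit 234), (nat_lit 0), (nat_lit 297153), [(nat_lit 2342754101), (nat_lit 4978204531), (nat_lit 7968000000)], [], [(nat_lit 27895946929), (nat_lit 28675104592), (nat_lit 35128808104), (nat_lit 35647899356), (nat_lit 30572096610),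 (nat_lit 31138191005), (nat_lit 36032761509), (nat_lit 36540127392)], (nat_lit 1271251), (nat_lit 1271251), (nat_lit 1271251), (nat_lit 1271251), (nat_lit 780000), (nat_lit 2171876), [(nat_lit 490000), (nat_lit 1100000), (nat_lit 1785001)], [(nat_lit 4), (nat_lit 51), (nat_lit 289), (nat_lit 75), (nat_lit 8)]⟩,
 ⟨⟨[(nat_lit 60), (nat_lit 120), (nat_lit 160)], [(nat_lit 0), (nat_lit 913), (nat_lit 3885)], [((nat_lit 0), (nat_lit 0), (nat_lit 0)), ((nat_lit 1000), (nat_lit 905), (nat_lit 238)), ((nat_lit 886), (nat_lit 948), (nat_lit 1000))], ((nat_lit 95), (nat_lit 90), (nat_lit 100))⟩, (nat_lit 1941892), (nat_lit 430), (nat_lit 430), (nat_lit 0), (nat_lit 435605), [(nat_lit 3282000000), (nat_lit 7968000000), (nat_lit 11872000000)], [], [(nat_lit 33678220838), (nat_lit 34266606780), (nat_lit 39660460278), (nat_lit 40887924162), (nat_lit 28737168101), (nat_lit 29303983336), (nat_lit 32993972294), (nat_lit 33304060966)], (nat_lit 1271251), (nat_lit 1271251),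 (nat_lit 1271251), (nat_lit 1271251), (nat_lit 0), (nat_lit 1412501), [(nat_lit 780000), (nat_lit 1762501), (nat_lit 1271251)], [(nat_lit 12), (nat_lit 59), (nat_lit 483), (nat_lit 250), (nat_lit 12)]⟩,
 ⟨⟨[(nat_lit 140), (nat_lit 180), (nat_lit 200)], [(nat_lit 0), (nat_lit 0), (nat_lit 2835)], [((nat_lit 0), (nat_lit 0), (nat_lit 0)), ((nat_lit 0), (nat_lit 0), (nat_lit 0)), ((nat_lit 363), (nat_lit 1000), (nat_lit 798))], ((nat_lit 0), (nat_lit 0), (nat_lit 0))⟩, (nat_lit 23111), (nat_lit 300), (nat_lit 2000), (nat_lit 6560402), (nat_lit 3232870), [(nat_lit 826728000), (nat_lit 1180872000), (nat_lit 1377600000)], [], [(nat_lit 6367709144), (nat_lit 6144514828), (nat_lit 5877158016), (nat_lit 5649096353), (nat_lit 5355682736), (nat_lit 5135026078), (nat_lit 6079686076), (nat_lit 6848995027)], (nat_lit 780000), (nat_lit 1271251), (nat_lit 780000), (nat_lit 2171876), (nat_lit 0), (nat_lit 1412501), [(nat_lit 1977501), (nat_lit 1271251), (nat_lit 1271251)],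 [(nat_lit 32), (nat_lit 67), (nat_lit 584), (nat_lit 175), (nat_lit 13)]⟩⟩)))) (.leaf ⟨(nat_lit 0), (nat_lit 964), (nat_lit 0), (nat_lit 36), (nat_lit 27854), (nat_lit 5416), (nat_lit 6422), (nat_lit 417), (nat_lit 0), (nat_lit 0), (nat_lit 0), [], Pd.none, Pd.none, (nat_lit 0), (nat_lit 1), (nat_lit 0), (nat_lit 0), (nat_lit 3), (nat_lit 0), [], [⟨(nat_lit 1), (nat_lit 99), (nat_lit 54), (nat_lit 100), (nat_lit 497261846)⟩], [], [],
 ⟨⟨[(nat_lit 40), (nat_lit 100), (nat_lit 140)], [(nat_lit 0), (nat_lit 2396), (nat_lit 4896)], [((nat_lit 0), (nat_lit 0), (nat_lit 0)), ((nat_lit 1000), (nat_lit 625), (nat_lit 623)), ((nat_lit 1000), (nat_lit 625), (nat_lit 975))], ((nat_lit 62), (nat_lit 95), (nat_lit 100))⟩, (nat_lit 1240410), (nat_lit 190), (nat_lit 190), (nat_lit 0), (nat_lit 115308), [(nat_lit 2349903490), (nat_lit 7257204659), (nat_lit 9842000000)], [], [(nat_lit 27157412824), (nat_lit 28478677652), (nat_lit 34084639496), (nat_lit 34953325060),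 (nat_lit 30289785318), (nat_lit 31218573047), (nat_lit 35608666566), (nat_lit 36489907239)], (nat_lit 1271251), (nat_lit 1271251), (nat_lit 1271251), (nat_lit 1271251), (nat_lit 780000), (nat_lit 2335626), [(nat_lit 490000), (nat_lit 1427501), (nat_lit 1271251)], [(nat_lit 5), (nat_lit 55), (nat_lit 428), (nat_lit 200), (nat_lit 11)]⟩,
 ⟨⟨[(nat_lit 60), (nat_lit 120), (nat_lit 180)], [(nat_lit 0), (nat_lit 913), (nat_lit 5370)], [((nat_lit 0), (nat_lit 0), (nat_lit 0)), ((nat_lit 1000), (nat_lit 905), (nat_lit 238)), ((nat_lit 862), (nat_lit 939), (nat_lit 1000))], ((nat_lit 89), (nat_lit 71), (nat_lit 100))⟩, (nat_lit 2287550), (nat_lit 385), (nat_lit 385), (nat_lit 0), (nat_lit 167937), [(nat_lit 3282000000), (nat_lit 7968000000), (nat_lit 14058000000)], [], [(nat_lit 32190359244), (nat_lit 32890731902), (nat_lit 38655672216), (nat_lit 39242460516), (nat_lit 27799595507), (nat_lit 28339786840), (nat_lit 33780895102), (nat_lit 34233784288)], (nat_lit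 1271251), (nat_lit 1271251), (nat_lit 1271251), (nat_lit 1271251), (nat_lit 0), (nat_lit 1412501), [(nat_lit 780000), (nat_lit 1762501), (nat_lit 1271251)], [(nat_lit 13), (nat_lit 60), (nat_lit 483), (nat_lit 250), (nat_lit 11)]⟩,
 ⟨⟨[(nat_lit 140), (nat_lit 180), (nat_lit 200)], [(nat_lit 0), (nat_lit 0), (nat_lit 2835)], [((nat_lit 0), (nat_lit 0), (nat_lit 0)), ((nat_lit 0), (nat_lit 0), (nat_lit 0)), ((nat_lit 363), (nat_lit 1000), (nat_lit 798))], ((nat_lit 0), (nat_lit 0), (nat_lit 0))⟩, (nat_lit 9905), (nat_lit 300), (nat_lit 1074), (nat_lit 2811600), (nat_lit 1223625), [(nat_lit 354312000), (nat_lit 506088000), (nat_lit 590400000)], [], [(nat_lit 2732071530), (nat_lit 2636800520), (nat_lit 2509944683), (nat_lit 2411895096), (nat_lit 2302224669), (nat_lit 2208022980), (nat_lit 2709835836), (nat_lit 3042379031)], (nat_lit 780000), (nat_lit 1271251), (nat_lit 780000), (nat_lit 2335626), (nat_lit 0), (nat_lit 1412501), [(nat_lit 1977501), (nat_lit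 1271251), (nat_lit 1271251)], [(nat_lit 32), (nat_lit 67), (nat_lit 401), (nat_lit 175), (nat_lit 9)]⟩⟩)))
noncomputable def c17_116 : Tr Lf :=
 (.stt (nat_lit 2) (.leaf ⟨(nat_lit 0), (nat_lit 948), (nat_lit 0), (nat_lit 52), (nat_lit 17230), (nat_lit 4404), (nat_lit 8292), (nat_lit 587), (nat_lit 0), (nat_lit 0), (nat_lit 0), [], Pd.none, Pd.none, (nat_lit 0), (nat_lit 1), (nat_lit 0), (nat_lit 0), (nat_lit 5), (nat_lit 0), [], [⟨(nat_lit 1), (nat_lit 99), (nat_lit 54), (nat_lit 100), (nat_lit 396804310)⟩], [⟨(nat_lit 1), (nat_lit 72), (nat_lit 89), (nat_lit 100), (nat_lit 416962511)⟩], [],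
 ⟨⟨[(nat_lit 40), (nat_lit 100), (nat_lit 140)], [(nat_lit 0), (nat_lit 2396), (nat_lit 4896)], [((nat_lit 0), (nat_lit 0), (nat_lit 0)), ((nat_lit 1000), (nat_lit 625), (nat_lit 623)), ((nat_lit 1000), (nat_lit 625), (nat_lit 975))], ((nat_lit 62), (nat_lit 95), (nat_lit 100))⟩, (nat_lit 1576231), (nat_lit 259), (nat_lit 259), (nat_lit 0), (nat_lit 304519), [(nat_lit 2032000090), (nat_lit 6250000093), (nat_lit 9842000000)], [], [(nat_lit 26812578407), (nat_lit 27714975157), (nat_lit 32279206788), (nat_lit 33083247802), (nat_lit 29384025586), (nat_lit 30044263007), (nat_lit 34284628004), (nat_lit 35100952166)], (nat_lit 1271251), (nat_lit 1271251), (nat_lit 1271251), (nat_lit 1271251), (nat_lit 780000), (nat_lit 2335626), [(nat_lit 490000), (nat_lit 1427501), (nat_lit 1271251)], [(nat_lit 5), (nat_lit 55), (nat_lit 428), (nat_lit 200), (nat_lit 11)]⟩,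
 ⟨⟨[(nat_lit 60), (nat_lit 120), (nat_lit 180)], [(nat_lit 0), (nat_lit 0), (nat_lit 4796)], [((nat_lit 0), (nat_lit 0), (nat_lit 0)), ((nat_lit 0), (nat_lit 0), (nat_lit 0)), ((nat_lit 802), (nat_lit 1000), (nat_lit 999))], ((nat_lit 94), (nat_lit 63), (nat_lit 100))⟩, (nat_lit 0), (nat_lit 103), (nat_lit 103), (nat_lit 0), (nat_lit 0), [(nat_lit 3282000000), (nat_lit 7968000000), (nat_lit 14058000000)], [], [(nat_lit 22785880676), (nat_lit 25370093584), (nat_lit 33289812872), (nat_lit 34671064864), (nat_lit 32160131422), (nat_lit 33540032148), (nat_lit 39721149836), (nat_lit 40675849812)], (nat_lit 0), (nat_lit 0), (nat_lit 0), (nat_lit 0), (nat_lit 0), (nat_lit 0), [], [(nat_lit 13), (nat_lit 60), (nat_lit 538), (nat_lit 300), (nat_lit 11)]⟩,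
 ⟨⟨[(nat_lit 140), (nat_lit 180), (nat_lit 200)], [(nat_lit 0), (nat_lit 0), (nat_lit 2835)], [((nat_lit 0), (nat_lit 0), (nat_lit 0)), ((nat_lit 0), (nat_lit 0), (nat_lit 0)), ((nat_lit 363), (nat_lit 1000), (nat_lit 798))], ((nat_lit 0), (nat_lit 0), (nat_lit 0))⟩, (nat_lit 14307), (nat_lit 300), (nat_lit 1901), (nat_lit 4061200), (nat_lit 3271510), [(nat_lit 511784000), (nat_lit 731016000), (nat_lit 852800000)], [], [(nat_lit 3420326298), (nat_lit 3295733930), (nat_lit 3069721401), (nat_lit 2946183838), (nat_lit 3203084099), (nat_lit 3067203652), (nat_lit 2862029109), (nat_lit 2725089373)], (nat_lit 780000), (nat_lit 1271251), (nat_lit 780000), (nat_lit 2335626), (nat_lit 1271251), (nat_lit 1271251), [(nat_lit 1977501), (nat_lit 1271251), (nat_lit 1271251)], [(nat_lit 32), (nat_lit 67), (nat_lit 584), (nat_lit 225), (nat_lit 12)]⟩⟩) (.spl (nat_lit 6) (nat_lit 116) (.spl (nat_lit 1) (nat_lit 300) (.trX (nat_lit 3) (nat_lit 0) (nat_lit 1) (nat_lit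 69) (nat_lit 45) (nat_lit 100) (nat_lit 390) (.spl (nat_lit 0) (nat_lit 370) (.leaf ⟨(nat_lit 0), (nat_lit 718), (nat_lit 0), (nat_lit 282), (nat_lit 0), (nat_lit 4022), (nat_lit 7660), (nat_lit 3188), (nat_lit 0), (nat_lit 0), (nat_lit 0), [], Pd.none, Pd.none, (nat_lit 0), (nat_lit 1), (nat_lit 0), (nat_lit 0), (nat_lit 5), (nat_lit 0), [], [⟨(nat_lit 1), (nat_lit 97), (nat_lit 58), (nat_lit 100), (nat_lit 88099505)⟩], [⟨(nat_lit 1), (nat_lit 68), (nat_lit 92), (nat_lit 100), (nat_lit 170094819)⟩], [],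
 ⟨⟨[(nat_lit 40), (nat_lit 100), (nat_lit 140)], [(nat_lit 0), (nat_lit 2396), (nat_lit 4896)], [((nat_lit 0), (nat_lit 0), (nat_lit 0)), ((nat_lit 1000), (nat_lit 625), (nat_lit 623)), ((nat_lit 1000), (nat_lit 625), (nat_lit 975))], ((nat_lit 61), (nat_lit 100), (nat_lit 93))⟩, (nat_lit 1941307), (nat_lit 181), (nat_lit 181), (nat_lit 0), (nat_lit 98806), [(nat_lit 2032000205), (nat_lit 6250121086), (nat_lit 9842000000)], [], [(nat_lit 24319849745), (nat_lit 24858281566), (nat_lit 30674781320), (nat_lit 31236313874), (nat_lit 27665371817), (nat_lit 28058487857), (nat_lit 33340875679), (nat_lit 33748799973)], (nat_lit 1271251), (nat_lit 1271251), (nat_lit 1271251), (nat_lit 1271251), (nat_lit 780000), (nat_lit 2335626), [(nat_lit 490000), (nat_lit 1427501), (nat_lit 1271251)], [(nat_lit 5), (nat_lit 55), (nat_lit 401), (nat_lit 175), (nat_lit 10)]⟩,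
 ⟨⟨[(nat_lit 60), (nat_lit 120), (nat_lit 180)], [(nat_lit 0), (nat_lit 0), (nat_lit 4796)], [((nat_lit 0), (nat_lit 0), (nat_lit 0)), ((nat_lit 0), (nat_lit 0), (nat_lit 0)), ((nat_lit 802), (nat_lit 1000), (nat_lit 999))], ((nat_lit 100), (nat_lit 82), (nat_lit 99))⟩, (nat_lit 2048768), (nat_lit 248), (nat_lit 248), (nat_lit 0), (nat_lit 252158), [(nat_lit 3282000000), (nat_lit 7968000000), (nat_lit 14058000000)], [], [(nat_lit 26807375092), (nat_lit 27625368102), (nat_lit 33261246580), (nat_lit 33702086219), (nat_lit 32735076322), (nat_lit 33150314175), (nat_lit 38254489465), (nat_lit 38762775902)], (nat_lit 1271251), (nat_lit 1271251), (nat_lit 1271251), (nat_lit 1271251), (nat_lit 1271251), (nat_lit 1271251), [(nat_lit 780000), (nat_lit 1762501), (nat_lit 1271251)], [(nat_lit 13), (nat_lit 60), (nat_lit 538), (nat_lit 300), (nat_lit 11)]⟩,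
 ⟨⟨[(nat_lit 140), (nat_lit 180), (nat_lit 200)], [(nat_lit 0), (nat_lit 0), (nat_lit 2835)], [((nat_lit 0), (nat_lit 0), (nat_lit 0)), ((nat_lit 0), (nat_lit 0), (nat_lit 0)), ((nat_lit 363), (nat_lit 1000), (nat_lit 798))], ((nat_lit 0), (nat_lit 0), (nat_lit 0))⟩, (nat_lit 77587), (nat_lit 300), (nat_lit 860), (nat_lit 22024205), (nat_lit 1051841), [(nat_lit 2775444000), (nat_lit 3964356000), (nat_lit 4624800000)], [], [(nat_lit 18181651126), (nat_lit 17490799717), (nat_lit 16527185195), (nat_lit 15814938811), (nat_lit 17351281996), (nat_lit 16613019956), (nat_lit 15498034708), (nat_lit 14762495774)], (nat_lit 780000), (nat_lit 1271251), (nat_lit 780000), (nat_lit 2335626), (nat_lit 1271251), (nat_lit 1271251), [(nat_lit 1977501), (nat_lit 1271251), (nat_lit 1271251)], [(nat_lit 32), (nat_lit 67), (nat_lit 456), (nat_lit 225), (nat_lit 10)]⟩⟩) (.trX (nat_lit 3) (nat_lit 0) (nat_lit 1) (nat_lit 61) (nat_lit 55) (nat_lit 100) (nat_lit 380) (.trX (nat_lit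 4) (nat_lit 0) (nat_lit 2) (nat_lit 53) (nat_lit 90) (nat_lit 100) (nat_lit 290) (.leaf ⟨(nat_lit 0), (nat_lit 797), (nat_lit 0), (nat_lit 203), (nat_lit 0), (nat_lit 4316), (nat_lit 8630), (nat_lit 2349), (nat_lit 0), (nat_lit 0), (nat_lit 0), [], Pd.none, Pd.none, (nat_lit 0), (nat_lit 1), (nat_lit 0), (nat_lit 0), (nat_lit 5), (nat_lit 0), [], [⟨(nat_lit 1), (nat_lit 100), (nat_lit 50), (nat_lit 100), (nat_lit 188020422)⟩], [⟨(nat_lit 1), (nat_lit 68), (nat_lit 92), (nat_lit 100), (nat_lit 217164646)⟩], [],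
 ⟨⟨[(nat_lit 40), (nat_lit 80), (nat_lit 120)], [(nat_lit 0), (nat_lit 2008), (nat_lit 3930)], [((nat_lit 0), (nat_lit 0), (nat_lit 0)), ((nat_lit 1000), (nat_lit 540), (nat_lit 733)), ((nat_lit 1000), (nat_lit 536), (nat_lit 751))], ((nat_lit 53), (nat_lit 100), (nat_lit 91))⟩, (nat_lit 1394423), (nat_lit 168), (nat_lit 168), (nat_lit 0), (nat_lit 136850), [(nat_lit 2032000005), (nat_lit 4713684675), (nat_lit 7968000000)], [], [(nat_lit 25662728196), (nat_lit 26176404326), (nat_lit 31266160678), (nat_lit 31723708740), (nat_lit 28485081187), (nat_lit 28963270041), (nat_lit 33153740811), (nat_lit 33604298488)], (nat_lit 1271251), (nat_lit 1271251), (nat_lit 1271251), (nat_lit 1271251), (nat_lit 780000), (nat_lit 2171876), [(nat_lit 490000), (nat_lit 1100000), (nat_lit 1785001)], [(nat_lit 4), (nat_lit 51), (nat_lit 289), (nat_lit 75), (nat_lit 8)]⟩,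
 ⟨⟨[(nat_lit 60), (nat_lit 120), (nat_lit 180)], [(nat_lit 0), (nat_lit 0), (nat_lit 4796)], [((nat_lit 0), (nat_lit 0), (nat_lit 0)), ((nat_lit 0), (nat_lit 0), (nat_lit 0)), ((nat_lit 802), (nat_lit 1000), (nat_lit 999))], ((nat_lit 100), (nat_lit 82), (nat_lit 99))⟩, (nat_lit 1938948), (nat_lit 286), (nat_lit 286), (nat_lit 0), (nat_lit 368099), [(nat_lit 3282000000), (nat_lit 7968000000), (nat_lit 14058000000)], [], [(nat_lit 28393459242), (nat_lit 28965344797), (nat_lit 33039650440), (nat_lit 33508699824), (nat_lit 32921838967), (nat_lit 33334093605), (nat_lit 38904130075), (nat_lit 39451050742)], (nat_lit 1271251), (nat_lit 1271251), (nat_lit 1271251), (nat_lit 1271251), (nat_lit 1271251), (nat_lit 1271251), [(nat_lit 780000), (nat_lit 1762501), (nat_lit 1271251)], [(nat_lit 13), (nat_lit 60), (nat_lit 538), (nat_lit 300), (nat_lit 11)]⟩,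
 ⟨⟨[(nat_lit 140), (nat_lit 180), (nat_lit 200)], [(nat_lit 0), (nat_lit 0), (nat_lit 2835)], [((nat_lit 0), (nat_lit 0), (nat_lit 0)), ((nat_lit 0), (nat_lit 0), (nat_lit 0)), ((nat_lit 363), (nat_lit 1000), (nat_lit 798))], ((nat_lit 0), (nat_lit 0), (nat_lit 0))⟩, (nat_lit 55852), (nat_lit 300), (nat_lit 1090), (nat_lit 15854300), (nat_lit 1556507), [(nat_lit 1997926000), (nat_lit 2853774000), (nat_lit 3329200000)], [], [(nat_lit 12995020437), (nat_lit 12464514491), (nat_lit 11736749950), (nat_lit 11211960047), (nat_lit 12266208793), (nat_lit 11718818848), (nat_lit 11055094292), (nat_lit 10514250866)], (nat_lit 780000), (nat_lit 1271251), (nat_lit 780000), (nat_lit 2171876), (nat_lit 1271251), (nat_lit 1271251), [(nat_lit 1977501), (nat_lit 1271251), (nat_lit 1271251)], [(nat_lit 32), (nat_lit 67), (nat_lit 456), (nat_lit 225), (nat_lit 10)]⟩⟩))))) (.trX (nat_lit 5) (nat_lit 1) (nat_lit 2) (nat_lit 87) (nat_lit 59) (nat_lit 100) (nat_lit 370) (.leaf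 ⟨(nat_lit 6), (nat_lit 826), (nat_lit 0), (nat_lit 168), (nat_lit 0), (nat_lit 4250), (nat_lit 8183), (nat_lit 1904), (nat_lit 0), (nat_lit 0), (nat_lit 1500), [((nat_lit 380), [((nat_lit 26), (nat_lit 0), (nat_lit 6))])], ⟨(nat_lit 7), false, true, true, (nat_lit 320), (nat_lit 2236), (nat_lit 3163), [(nat_lit 1671514), (nat_lit 1670673), (nat_lit 1693606), (nat_lit 1693384), (nat_lit 1915540), (nat_lit 1898948), (nat_lit 1937695), (nat_lit 1921722)]⟩, ⟨(nat_lit 3), false, false, true, (nat_lit 186), (nat_lit 2236), (nat_lit 3163), [(nat_lit 1289472), (nat_lit 1294870), (nat_lit 1355794), (nat_lit 1363050), (nat_lit 1579000), (nat_lit 1565693), (nat_lit 1645465), (nat_lit 1634017)]⟩, (nat_lit 5308318), (nat_lit 34555587), (nat_lit 22918596), (nat_lit 9525817), (nat_lit 5), (nat_lit 0), [], [⟨(nat_lit 1), (nat_lit 99), (nat_lit 54), (nat_lit 100), (nat_lit 228193911)⟩], [⟨(nat_lit 1), (nat_lit 77), (nat_lit 86), (nat_lit 100), (nat_lit 271478735)⟩],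 [],
 ⟨⟨[(nat_lit 40), (nat_lit 100), (nat_lit 140)], [(nat_lit 0), (nat_lit 2396), (nat_lit 4896)], [((nat_lit 0), (nat_lit 0), (nat_lit 0)), ((nat_lit 1000), (nat_lit 625), (nat_lit 623)), ((nat_lit 1000), (nat_lit 625), (nat_lit 975))], ((nat_lit 61), (nat_lit 100), (nat_lit 93))⟩, (nat_lit 1806682), (nat_lit 210), (nat_lit 210), (nat_lit 0), (nat_lit 183342), [(nat_lit 2025992805), (nat_lit 6244098373), (nat_lit 9716867209)], [(nat_lit 0), (nat_lit 0), (nat_lit 0)], [(nat_lit 25331189993), (nat_lit 26220371618), (nat_lit 31685460750), (nat_lit 32798748125), (nat_lit 28020354247), (nat_lit 28862344012), (nat_lit 34083143875), (nat_lit 34889589438)], (nat_lit 1271251), (nat_lit 1271251), (nat_lit 1271251), (nat_lit 1271251), (nat_lit 780000), (nat_lit 2335626), [(nat_lit 490000), (nat_lit 1427501), (nat_lit 1271251)], [(nat_lit 5), (nat_lit 55), (nat_lit 428), (nat_lit 200), (nat_lit 11)]⟩,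
 ⟨⟨[(nat_lit 60), (nat_lit 120), (nat_lit 160)], [(nat_lit 0), (nat_lit 913), (nat_lit 3885)], [((nat_lit 0), (nat_lit 0), (nat_lit 0)), ((nat_lit 1000), (nat_lit 905), (nat_lit 238)), ((nat_lit 886), (nat_lit 948), (nat_lit 1000))], ((nat_lit 95), (nat_lit 90), (nat_lit 100))⟩, (nat_lit 1258909), (nat_lit 322), (nat_lit 322), (nat_lit 0), (nat_lit 435846), [(nat_lit 3262308000), (nat_lit 7920192000), (nat_lit 11800768000)], [], [(nat_lit 28646462765), (nat_lit 29314628984), (nat_lit 34987859932), (nat_lit 35494044117), (nat_lit 33352673822), (nat_lit 33887184783), (nat_lit 39332876769), (nat_lit 39838060959)], (nat_lit 1271251), (nat_lit 1271251), (nat_lit 1271251), (nat_lit 1271251), (nat_lit 1271251), (nat_lit 1271251), [(nat_lit 780000), (nat_lit 1762501), (nat_lit 1271251)], [(nat_lit 12), (nat_lit 59), (nat_lit 538), (nat_lit 300), (nat_lit 13)]⟩,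
 ⟨⟨[(nat_lit 140), (nat_lit 180), (nat_lit 200)], [(nat_lit 0), (nat_lit 0), (nat_lit 2835)], [((nat_lit 0), (nat_lit 0), (nat_lit 0)), ((nat_lit 0), (nat_lit 0), (nat_lit 0)), ((nat_lit 363), (nat_lit 1000), (nat_lit 798))], ((nat_lit 0), (nat_lit 0), (nat_lit 0))⟩, (nat_lit 46222), (nat_lit 300), (nat_lit 1327), (nat_lit 13120804), (nat_lit 2074884), [(nat_lit 1653456000), (nat_lit 2361744000), (nat_lit 2755200000)], [], [(nat_lit 10986836040), (nat_lit 10557535294), (nat_lit 9871080446), (nat_lit 9438790074), (nat_lit 10325972728), (nat_lit 9886967161), (nat_lit 9226587564), (nat_lit 8781674090)], (nat_lit 780000), (nat_lit 1271251), (nat_lit 780000), (nat_lit 2335626), (nat_lit 1271251), (nat_lit 1271251), [(nat_lit 1977501), (nat_lit 1271251), (nat_lit 1271251)], [(nat_lit 32), (nat_lit 67), (nat_lit 456), (nat_lit 225), (nat_lit 10)]⟩⟩))) (.leaf ⟨(nat_lit 0), (nat_lit 644), (nat_lit 0), (nat_lit 356), (nat_lit 0), (nat_lit 4104), (nat_lit 11139),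 (nat_lit 3876), (nat_lit 0), (nat_lit 0), (nat_lit 0), [], Pd.none, Pd.none, (nat_lit 0), (nat_lit 1), (nat_lit 0), (nat_lit 0), (nat_lit 5), (nat_lit 0), [], [], [⟨(nat_lit 1), (nat_lit 72), (nat_lit 89), (nat_lit 100), (nat_lit 121796745)⟩], [],
 ⟨⟨[(nat_lit 40), (nat_lit 100), (nat_lit 140)], [(nat_lit 0), (nat_lit 2396), (nat_lit 4896)], [((nat_lit 0), (nat_lit 0), (nat_lit 0)), ((nat_lit 1000), (nat_lit 625), (nat_lit 623)), ((nat_lit 1000), (nat_lit 625), (nat_lit 975))], ((nat_lit 62), (nat_lit 95), (nat_lit 100))⟩, (nat_lit 1675506), (nat_lit 178), (nat_lit 178), (nat_lit 0), (nat_lit 72620), [(nat_lit 2032001035), (nat_lit 6623675544), (nat_lit 9842000000)], [], [(nat_lit 25531491643), (nat_lit 26618294587), (nat_lit 31745354088), (nat_lit 32529623604), (nat_lit 28866335606), (nat_lit 29697502007), (nat_lit 33892126454), (nat_lit 34689206591)], (nat_lit 1271251), (nat_lit 1271251), (nat_lit 1271251), (nat_lit 1271251), (nat_lit 780000), (nat_lit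 2335626), [(nat_lit 490000), (nat_lit 1427501), (nat_lit 1271251)], [(nat_lit 5), (nat_lit 55), (nat_lit 428), (nat_lit 200), (nat_lit 11)]⟩,
 ⟨⟨[(nat_lit 60), (nat_lit 120), (nat_lit 180)], [(nat_lit 0), (nat_lit 0), (nat_lit 4796)], [((nat_lit 0), (nat_lit 0), (nat_lit 0)), ((nat_lit 0), (nat_lit 0), (nat_lit 0)), ((nat_lit 802), (nat_lit 1000), (nat_lit 999))], ((nat_lit 94), (nat_lit 63), (nat_lit 100))⟩, (nat_lit 829903), (nat_lit 224), (nat_lit 224), (nat_lit 0), (nat_lit 173608), [(nat_lit 3282000000), (nat_lit 7968000000), (nat_lit 14058000000)], [], [(nat_lit 30696590755), (nat_lit 32613669538), (nat_lit 38992877855), (nat_lit 39798915628), (nat_lit 37361546010), (nat_lit 38170857017), (nat_lit 43625833112), (nat_lit 44584242729)], (nat_lit 1271251), (nat_lit 1271251), (nat_lit 1271251), (nat_lit 1271251), (nat_lit 1271251), (nat_lit 1271251), [(nat_lit 780000), (nat_lit 1762501), (nat_lit 1271251)], [(nat_lit 13), (nat_lit 60), (nat_lit 538),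 (nat_lit 300), (nat_lit 11)]⟩,
 ⟨⟨[(nat_lit 140), (nat_lit 180), (nat_lit 200)], [(nat_lit 0), (nat_lit 0), (nat_lit 2835)], [((nat_lit 0), (nat_lit 0), (nat_lit 0)), ((nat_lit 0), (nat_lit 0), (nat_lit 0)), ((nat_lit 363), (nat_lit 1000), (nat_lit 798))], ((nat_lit 0), (nat_lit 0), (nat_lit 0))⟩, (nat_lit 97947), (nat_lit 300), (nat_lit 736), (nat_lit 27803602), (nat_lit 804152), [(nat_lit 3503752000), (nat_lit 5004648000), (nat_lit 5838400000)], [], [(nat_lit 22679389258), (nat_lit 21891341986), (nat_lit 20890320464), (nat_lit 20062861883), (nat_lit 21975079188), (nat_lit 21122548551), (nat_lit 20026443429), (nat_lit 19143174705)], (nat_lit 780000), (nat_lit 1271251), (nat_lit 780000), (nat_lit 2335626), (nat_lit 1271251), (nat_lit 1271251), [(nat_lit 1977501), (nat_lit 1271251), (nat_lit 1271251)], [(nat_lit 32), (nat_lit 67), (nat_lit 456), (nat_lit 225), (nat_lit 10)]⟩⟩)))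
noncomputable def c17_117 : Tr Lf :=
 (.spl (nat_lit 6) (nat_lit 108) (.spl (nat_lit 5) (nat_lit 120) (.spl (nat_lit 1) (nat_lit 280) (.trX (nat_lit 3) (nat_lit 0) (nat_lit 1) (nat_lit 65) (nat_lit 54) (nat_lit 100) (nat_lit 380) (.spl (nat_lit 6) (nat_lit 80) (.leaf ⟨(nat_lit 0), (nat_lit 752), (nat_lit 0), (nat_lit 248), (nat_lit 23963), (nat_lit 6425), (nat_lit 11124), (nat_lit 2801), (nat_lit 0), (nat_lit 0), (nat_lit 0), [], Pd.none, Pd.none, (nat_lit 0), (nat_lit 1), (nat_lit 0), (nat_lit 0), (nat_lit 4), (nat_lit 0), [], [], [⟨(nat_lit 0), (nat_lit 100), (nat_lit 95), (nat_lit 30), (nat_lit 173014610)⟩], [⟨(nat_lit 0), (nat_lit 100), (nat_lit 84), (nat_lit 68), (nat_lit 188963903)⟩],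
 ⟨⟨[(nat_lit 40), (nat_lit 80), (nat_lit 100)], [(nat_lit 0), (nat_lit 1598), (nat_lit 2533)], [((nat_lit 0), (nat_lit 0), (nat_lit 0)), ((nat_lit 1000), (nat_lit 625), (nat_lit 623)), ((nat_lit 1000), (nat_lit 604), (nat_lit 730))], ((nat_lit 60), (nat_lit 100), (nat_lit 80))⟩, (nat_lit 0), (nat_lit 125), (nat_lit 125), (nat_lit 0), (nat_lit 35350), [(nat_lit 2453082223), (nat_lit 5167369674), (nat_lit 6250000000)], [], [(nat_lit 26478035300), (nat_lit 28208962250), (nat_lit 34161428688), (nat_lit 35344708600), (nat_lit 32005448675), (nat_lit 33100353913), (nat_lit 37010955822), (nat_lit 37942540436)], (nat_lit 1271251), (nat_lit 1271251), (nat_lit 1271251), (nat_lit 1271251), (nat_lit 780000), (nat_lit 2581251), [(nat_lit 490000), (nat_lit 1100000), (nat_lit 1442501)], [(nat_lit 3), (nat_lit 50), (nat_lit 317), (nat_lit 100), (nat_lit 11)]⟩,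
 ⟨⟨[(nat_lit 80), (nat_lit 140), (nat_lit 180)], [(nat_lit 0), (nat_lit 0), (nat_lit 3656)], [((nat_lit 0), (nat_lit 0), (nat_lit 0)), ((nat_lit 0), (nat_lit 0), (nat_lit 0)), ((nat_lit 637), (nat_lit 1000), (nat_lit 908))], ((nat_lit 100), (nat_lit 76), (nat_lit 82))⟩, (nat_lit 2556678), (nat_lit 309), (nat_lit 309), (nat_lit 0), (nat_lit 61482), [(nat_lit 4688000000), (nat_lit 9842000000), (nat_lit 14058000000)], [], [(nat_lit 35264291376), (nat_lit 36726187832), (nat_lit 43823757648), (nat_lit 46254940400), (nat_lit 26910199864), (nat_lit 28751991556), (nat_lit 34516271512), (nat_lit 35461041465)], (nat_lit 1271251), (nat_lit 1271251), (nat_lit 1271251), (nat_lit 1271251), (nat_lit 0), (nat_lit 780000), [(nat_lit 1100000), (nat_lit 2127501), (nat_lit 1271251)], [(nat_lit 19), (nat_lit 63), (nat_lit 428), (nat_lit 200), (nat_lit 10)]⟩,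
 ⟨⟨[(nat_lit 120), (nat_lit 160), (nat_lit 200)], [(nat_lit 0), (nat_lit 533), (nat_lit 3597)], [((nat_lit 0), (nat_lit 0), (nat_lit 0)), ((nat_lit 960), (nat_lit 1000), (nat_lit 200)), ((nat_lit 612), (nat_lit 1000), (nat_lit 732))], ((nat_lit 0), (nat_lit 0), (nat_lit 0))⟩, (nat_lit 132007), (nat_lit 300), (nat_lit 495), (nat_lit 17961855), (nat_lit 102017), [(nat_lit 1976064000), (nat_lit 2944256000), (nat_lit 4067200000)], [], [(nat_lit 15589660330), (nat_lit 15485936431), (nat_lit 15338898958), (nat_lit 15118925192), (nat_lit 13262211605), (nat_lit 13113228803), (nat_lit 16469270600), (nat_lit 13898306226)], (nat_lit 1271251), (nat_lit 1271251), (nat_lit 780000), (nat_lit 2581251), (nat_lit 0), (nat_lit 780000), [(nat_lit 1695001), (nat_lit 1271251), (nat_lit 1271251)], [(nat_lit 29), (nat_lit 66), (nat_lit 401), (nat_lit 175), (nat_lit 9)]⟩⟩) (.dle (nat_lit 0)))) (.leaf ⟨(nat_lit 0), (nat_lit 759), (nat_lit 0), (nat_lit 241), (nat_lit 5445),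 (nat_lit 7564), (nat_lit 8019), (nat_lit 2934), (nat_lit 0), (nat_lit 0), (nat_lit 0), [], Pd.none, Pd.none, (nat_lit 0), (nat_lit 1), (nat_lit 0), (nat_lit 0), (nat_lit 4), (nat_lit 0), [], [], [⟨(nat_lit 0), (nat_lit 100), (nat_lit 87), (nat_lit 50), (nat_lit 96528540)⟩], [⟨(nat_lit 0), (nat_lit 100), (nat_lit 81), (nat_lit 72), (nat_lit 137132843)⟩],
 ⟨⟨[(nat_lit 40), (nat_lit 80), (nat_lit 120)], [(nat_lit 0), (nat_lit 1598), (nat_lit 3468)], [((nat_lit 0), (nat_lit 0), (nat_lit 0)), ((nat_lit 1000), (nat_lit 625), (nat_lit 623)), ((nat_lit 1000), (nat_lit 604), (nat_lit 730))], ((nat_lit 61), (nat_lit 100), (nat_lit 90))⟩, (nat_lit 0), (nat_lit 176), (nat_lit 176), (nat_lit 0), (nat_lit 151543), [(nat_lit 2940132783), (nat_lit 5305299371), (nat_lit 7968000000)], [], [(nat_lit 28928596832), (nat_lit 30692889584), (nat_lit 37813927364), (nat_lit 38921407966), (nat_lit 33735006962), (nat_lit 34832738361), (nat_lit 39554765916), (nat_lit 40484153944)],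 (nat_lit 1271251), (nat_lit 1271251), (nat_lit 1271251), (nat_lit 1271251), (nat_lit 780000), (nat_lit 2581251), [(nat_lit 490000), (nat_lit 1100000), (nat_lit 1785001)], [(nat_lit 4), (nat_lit 51), (nat_lit 317), (nat_lit 100), (nat_lit 9)]⟩,
 ⟨⟨[(nat_lit 60), (nat_lit 120), (nat_lit 180)], [(nat_lit 0), (nat_lit 0), (nat_lit 4796)], [((nat_lit 0), (nat_lit 0), (nat_lit 0)), ((nat_lit 0), (nat_lit 0), (nat_lit 0)), ((nat_lit 802), (nat_lit 1000), (nat_lit 999))], ((nat_lit 100), (nat_lit 85), (nat_lit 97))⟩, (nat_lit 2434158), (nat_lit 392), (nat_lit 392), (nat_lit 0), (nat_lit 181183), [(nat_lit 3282000000), (nat_lit 7968000000), (nat_lit 14058000000)], [], [(nat_lit 33210499354), (nat_lit 34713896636), (nat_lit 41602723332), (nat_lit 43708924984), (nat_lit 27631348730), (nat_lit 29383836246), (nat_lit 35719254760), (nat_lit 36815532004)], (nat_lit 1271251), (nat_lit 1271251), (nat_lit 1271251), (nat_lit 1271251), (nat_lit 0), (nat_lit 780000), [(nat_lit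 780000), (nat_lit 1762501), (nat_lit 1271251)], [(nat_lit 13), (nat_lit 60), (nat_lit 456), (nat_lit 225), (nat_lit 10)]⟩,
 ⟨⟨[(nat_lit 120), (nat_lit 160), (nat_lit 200)], [(nat_lit 0), (nat_lit 533), (nat_lit 3597)], [((nat_lit 0), (nat_lit 0), (nat_lit 0)), ((nat_lit 960), (nat_lit 1000), (nat_lit 200)), ((nat_lit 612), (nat_lit 1000), (nat_lit 732))], ((nat_lit 0), (nat_lit 0), (nat_lit 0))⟩, (nat_lit 128281), (nat_lit 300), (nat_lit 690), (nat_lit 17454867), (nat_lit 469695), [(nat_lit 1920288000), (nat_lit 2861152000), (nat_lit 3952400000)], [], [(nat_lit 16251744934), (nat_lit 15972887649), (nat_lit 15001337381), (nat_lit 14662518624), (nat_lit 13807228033), (nat_lit 13540373901), (nat_lit 16385603837), (nat_lit 13692562255)], (nat_lit 1271251), (nat_lit 1271251), (nat_lit 780000), (nat_lit 2581251), (nat_lit 0), (nat_lit 780000), [(nat_lit 1695001), (nat_lit 1271251), (nat_lit 1271251)], [(nat_lit 29), (nat_lit 66), (nat_lit 401), (nat_lit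 175), (nat_lit 9)]⟩⟩)) (.leaf ⟨(nat_lit 0), (nat_lit 533), (nat_lit 0), (nat_lit 467), (nat_lit 199), (nat_lit 4530), (nat_lit 6819), (nat_lit 3456), (nat_lit 0), (nat_lit 0), (nat_lit 0), [], Pd.none, Pd.none, (nat_lit 0), (nat_lit 1), (nat_lit 0), (nat_lit 0), (nat_lit 4), (nat_lit 0), [], [], [], [],
 ⟨⟨[(nat_lit 40), (nat_lit 80), (nat_lit 120)], [(nat_lit 0), (nat_lit 1598), (nat_lit 3468)], [((nat_lit 0), (nat_lit 0), (nat_lit 0)), ((nat_lit 1000), (nat_lit 625), (nat_lit 623)), ((nat_lit 1000), (nat_lit 604), (nat_lit 730))], ((nat_lit 61), (nat_lit 100), (nat_lit 90))⟩, (nat_lit 1544973), (nat_lit 176), (nat_lit 176), (nat_lit 0), (nat_lit 151543), [(nat_lit 2032000066), (nat_lit 4688000063), (nat_lit 7968000000)], [], [(nat_lit 25114326711), (nat_lit 26164921511), (nat_lit 32170132630), (nat_lit 33316020265), (nat_lit 29787864251), (nat_lit 30657143794), (nat_lit 35430592070), (nat_lit 36195455380)], (nat_lit 1271251), (nat_lit 1271251), (nat_lit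 1271251), (nat_lit 1271251), (nat_lit 780000), (nat_lit 2581251), [(nat_lit 490000), (nat_lit 1100000), (nat_lit 1785001)], [(nat_lit 4), (nat_lit 51), (nat_lit 317), (nat_lit 100), (nat_lit 9)]⟩,
 ⟨⟨[(nat_lit 80), (nat_lit 140), (nat_lit 180)], [(nat_lit 0), (nat_lit 0), (nat_lit 3656)], [((nat_lit 0), (nat_lit 0), (nat_lit 0)), ((nat_lit 0), (nat_lit 0), (nat_lit 0)), ((nat_lit 637), (nat_lit 1000), (nat_lit 908))], ((nat_lit 100), (nat_lit 64), (nat_lit 91))⟩, (nat_lit 1955134), (nat_lit 291), (nat_lit 291), (nat_lit 0), (nat_lit 247664), [(nat_lit 4688000000), (nat_lit 9842000000), (nat_lit 14058000000)], [], [(nat_lit 28207170040), (nat_lit 31696863156), (nat_lit 36505653312), (nat_lit 38468954670), (nat_lit 37151628992), (nat_lit 37935556892), (nat_lit 41067296656), (nat_lit 42065651856)], (nat_lit 1271251), (nat_lit 1271251), (nat_lit 1271251), (nat_lit 1271251), (nat_lit 780000), (nat_lit 3072501), [(nat_lit 1100000), (nat_lit 2127501), (nat_lit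 1271251)], [(nat_lit 19), (nat_lit 63), (nat_lit 538), (nat_lit 300), (nat_lit 12)]⟩,
 ⟨⟨[(nat_lit 120), (nat_lit 160), (nat_lit 200)], [(nat_lit 0), (nat_lit 533), (nat_lit 3597)], [((nat_lit 0), (nat_lit 0), (nat_lit 0)), ((nat_lit 960), (nat_lit 1000), (nat_lit 200)), ((nat_lit 612), (nat_lit 1000), (nat_lit 732))], ((nat_lit 0), (nat_lit 0), (nat_lit 0))⟩, (nat_lit 248578), (nat_lit 300), (nat_lit 696), (nat_lit 33823325), (nat_lit 711336), [(nat_lit 3721056000), (nat_lit 5544224000), (nat_lit 7658800000)], [], [(nat_lit 32308974320), (nat_lit 32076260691), (nat_lit 31299727124), (nat_lit 31001439721), (nat_lit 31484099484), (nat_lit 31156869445), (nat_lit 30205729032), (nat_lit 29574523489)], (nat_lit 1271251), (nat_lit 1271251), (nat_lit 780000), (nat_lit 2581251), (nat_lit 780000), (nat_lit 3072501), [(nat_lit 1695001), (nat_lit 1271251), (nat_lit 1271251)], [(nat_lit 29), (nat_lit 66), (nat_lit 483), (nat_lit 250), (nat_lit 10)]⟩⟩)) (.dle (nat_lit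 0)))
noncomputable def c17_118 : Tr Lf :=
 (.spl (nat_lit 5) (nat_lit 120) (.spl (nat_lit 4) (nat_lit 240) (.leaf ⟨(nat_lit 36), (nat_lit 678), (nat_lit 0), (nat_lit 286), (nat_lit 0), (nat_lit 7347), (nat_lit 7621), (nat_lit 3373), (nat_lit 0), (nat_lit 284967), (nat_lit 144000), [((nat_lit 380), [((nat_lit 41), (nat_lit 5), (nat_lit 36))])], ⟨(nat_lit 6), true, false, false, (nat_lit 268), (nat_lit 2236), (nat_lit 3163), [(nat_lit 1406804), (nat_lit 1416903), (nat_lit 1495170), (nat_lit 1507746), (nat_lit 1849075), (nat_lit 1830625), (nat_lit 1937695), (nat_lit 1921722)]⟩, ⟨(nat_lit 5), false, false, false, (nat_lit 211), (nat_lit 2236), (nat_lit 3163), [(nat_lit 1354183), (nat_lit 1365632), (nat_lit 1464641), (nat_lit 1479186), (nat_lit 1583107), (nat_lit 1579788), (nat_lit 1693606), (nat_lit 1693384)]⟩, (nat_lit 5352888), (nat_lit 36913729), (nat_lit 17943872), (nat_lit 12142399), (nat_lit 5), (nat_lit 0), [⟨(nat_lit 0), (nat_lit 93), (nat_lit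 53), (nat_lit 100), (nat_lit 22188156)⟩], [⟨(nat_lit 0), (nat_lit 96), (nat_lit 54), (nat_lit 100), (nat_lit 102654302)⟩, ⟨(nat_lit 0), (nat_lit 100), (nat_lit 60), (nat_lit 86), (nat_lit 104239653)⟩], [⟨(nat_lit 0), (nat_lit 100), (nat_lit 98), (nat_lit 74), (nat_lit 498622613)⟩], [],
 ⟨⟨[(nat_lit 40), (nat_lit 80), (nat_lit 100)], [(nat_lit 0), (nat_lit 1598), (nat_lit 2533)], [((nat_lit 0), (nat_lit 0), (nat_lit 0)), ((nat_lit 1000), (nat_lit 625), (nat_lit 623)), ((nat_lit 1000), (nat_lit 604), (nat_lit 730))], ((nat_lit 61), (nat_lit 100), (nat_lit 70))⟩, (nat_lit 114462), (nat_lit 300), (nat_lit 463), (nat_lit 47353481), (nat_lit 942665), [(nat_lit 1894139209), (nat_lit 3947341446), (nat_lit 5025280000)], [(nat_lit 0), (nat_lit 0), (nat_lit 0)], [(nat_lit 26169251029), (nat_lit 27287141271), (nat_lit 37880396630), (nat_lit 39410254650), (nat_lit 26251584367), (nat_lit 27509555732), (nat_lit 36269711174), (nat_lit 37471606135)], (nat_lit 1271251),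 (nat_lit 1271251), (nat_lit 704688), (nat_lit 3051876), (nat_lit 559688), (nat_lit 1745625), [(nat_lit 490000), (nat_lit 1100000), (nat_lit 1442501)], [(nat_lit 3), (nat_lit 50), (nat_lit 401), (nat_lit 175), (nat_lit 15)]⟩,
 ⟨⟨[(nat_lit 80), (nat_lit 120), (nat_lit 160)], [(nat_lit 0), (nat_lit 0), (nat_lit 2132)], [((nat_lit 0), (nat_lit 0), (nat_lit 0)), ((nat_lit 0), (nat_lit 0), (nat_lit 0)), ((nat_lit 858), (nat_lit 1000), (nat_lit 713))], ((nat_lit 100), (nat_lit 86), (nat_lit 71))⟩, (nat_lit 5256993), (nat_lit 252), (nat_lit 252), (nat_lit 0), (nat_lit 0), [(nat_lit 4519232000), (nat_lit 7681152000), (nat_lit 11444608000)], [], [(nat_lit 19846147430), (nat_lit 27290600506), (nat_lit 37548257320), (nat_lit 41829566376), (nat_lit 15819756064), (nat_lit 21910357182), (nat_lit 31247799188), (nat_lit 34324299004)], (nat_lit 0), (nat_lit 0), (nat_lit 0), (nat_lit 0), (nat_lit 0), (nat_lit 0), [], [(nat_lit 18), (nat_lit 59), (nat_lit 456), (nat_lit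 225), (nat_lit 12)]⟩,
 ⟨⟨[(nat_lit 100), (nat_lit 140), (nat_lit 180)], [(nat_lit 0), (nat_lit 508), (nat_lit 2854)], [((nat_lit 0), (nat_lit 0), (nat_lit 0)), ((nat_lit 1000), (nat_lit 1000), (nat_lit 198)), ((nat_lit 777), (nat_lit 1000), (nat_lit 712))], ((nat_lit 100), (nat_lit 79), (nat_lit 70))⟩, (nat_lit 614787), (nat_lit 300), (nat_lit 1144), (nat_lit 17875002), (nat_lit 1613343), [(nat_lit 1787500000), (nat_lit 2814812000), (nat_lit 4020588000)], [], [(nat_lit 15368821125), (nat_lit 15468096085), (nat_lit 13967682065), (nat_lit 14053552096), (nat_lit 12722414159), (nat_lit 12774789385), (nat_lit 11387103542), (nat_lit 11264233646)], (nat_lit 1271251), (nat_lit 1271251), (nat_lit 559688), (nat_lit 1745625), (nat_lit 0), (nat_lit 780000), [(nat_lit 1412501), (nat_lit 1271251), (nat_lit 1271251)], [(nat_lit 24), (nat_lit 63), (nat_lit 401), (nat_lit 175), (nat_lit 10)]⟩⟩) (.trX (nat_lit 3) (nat_lit 4) (nat_lit 5) (nat_lit 100) (nat_lit 59) (nat_lit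 94) (nat_lit 370) (.leaf ⟨(nat_lit 0), (nat_lit 580), (nat_lit 0), (nat_lit 420), (nat_lit 0), (nat_lit 6919), (nat_lit 8685), (nat_lit 4000), (nat_lit 0), (nat_lit 87141), (nat_lit 0), [], Pd.none, Pd.none, (nat_lit 0), (nat_lit 1), (nat_lit 0), (nat_lit 0), (nat_lit 6), (nat_lit 0), [⟨(nat_lit 0), (nat_lit 93), (nat_lit 53), (nat_lit 100), (nat_lit 222889667)⟩], [⟨(nat_lit 1), (nat_lit 65), (nat_lit 56), (nat_lit 100), (nat_lit 228133441)⟩], [⟨(nat_lit 0), (nat_lit 100), (nat_lit 98), (nat_lit 74), (nat_lit 438953573)⟩, ⟨(nat_lit 0), (nat_lit 100), (nat_lit 98), (nat_lit 30), (nat_lit 90835564)⟩], [],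
 ⟨⟨[(nat_lit 40), (nat_lit 80), (nat_lit 100)], [(nat_lit 0), (nat_lit 1598), (nat_lit 2533)], [((nat_lit 0), (nat_lit 0), (nat_lit 0)), ((nat_lit 1000), (nat_lit 625), (nat_lit 623)), ((nat_lit 1000), (nat_lit 604), (nat_lit 730))], ((nat_lit 61), (nat_lit 100), (nat_lit 70))⟩, (nat_lit 461903), (nat_lit 300), (nat_lit 434), (nat_lit 50800001), (nat_lit 942665), [(nat_lit 2032000003), (nat_lit 4741595410), (nat_lit 6250000000)], [], [(nat_lit 29306149675), (nat_lit 30117213974), (nat_lit 33708040230), (nat_lit 35005366413), (nat_lit 36556334097), (nat_lit 37998170984), (nat_lit 39934891220), (nat_lit 40744571472)], (nat_lit 1271251), (nat_lit 1271251), (nat_lit 704688), (nat_lit 2809063), (nat_lit 1271251), (nat_lit 1271251), [(nat_lit 490000), (nat_lit 1100000), (nat_lit 1442501)], [(nat_lit 3), (nat_lit 50), (nat_lit 317), (nat_lit 100), (nat_lit 11)]⟩,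
 ⟨⟨[(nat_lit 80), (nat_lit 120), (nat_lit 160)], [(nat_lit 0), (nat_lit 0), (nat_lit 2132)], [((nat_lit 0), (nat_lit 0), (nat_lit 0)), ((nat_lit 0), (nat_lit 0), (nat_lit 0)), ((nat_lit 858), (nat_lit 1000), (nat_lit 713))], ((nat_lit 100), (nat_lit 86), (nat_lit 71))⟩, (nat_lit 5980321), (nat_lit 244), (nat_lit 244), (nat_lit 0), (nat_lit 0), [(nat_lit 4688000000), (nat_lit 7968000000), (nat_lit 11872000000)], [], [(nat_lit 19745384868), (nat_lit 28591429240), (nat_lit 36426669385), (nat_lit 41956952710), (nat_lit 14783377822), (nat_lit 22243316128), (nat_lit 29420814008), (nat_lit 33276666115)], (nat_lit 0), (nat_lit 0), (nat_lit 0), (nat_lit 0), (nat_lit 0), (nat_lit 0), [], [(nat_lit 18), (nat_lit 59), (nat_lit 456), (nat_lit 225), (nat_lit 12)]⟩,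
 ⟨⟨[(nat_lit 100), (nat_lit 140), (nat_lit 180)], [(nat_lit 0), (nat_lit 508), (nat_lit 2854)], [((nat_lit 0), (nat_lit 0), (nat_lit 0)), ((nat_lit 1000), (nat_lit 1000), (nat_lit 198)), ((nat_lit 777), (nat_lit 1000), (nat_lit 712))], ((nat_lit 100), (nat_lit 79), (nat_lit 70))⟩, (nat_lit 902835), (nat_lit 300), (nat_lit 1071), (nat_lit 26250000), (nat_lit 1613343), [(nat_lit 2625000000), (nat_lit 4133640000), (nat_lit 5904360000)], [], [(nat_lit 23331346580), (nat_lit 22686065520), (nat_lit 23004551200), (nat_lit 22648319600), (nat_lit 20727497665), (nat_lit 20059001320), (nat_lit 20154024150), (nat_lit 19559155680)], (nat_lit 1271251), (nat_lit 1271251), (nat_lit 1271251), (nat_lit 1271251), (nat_lit 0), (nat_lit 780000), [(nat_lit 1412501), (nat_lit 1271251), (nat_lit 1271251)], [(nat_lit 24), (nat_lit 63), (nat_lit 456), (nat_lit 225), (nat_lit 10)]⟩⟩))) (.stt (nat_lit 1) (.spl (nat_lit 3) (nat_lit 240) (.spl (nat_lit 1) (nat_lit 280) (.ord (.trX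 (nat_lit 4) (nat_lit 0) (nat_lit 2) (nat_lit 65) (nat_lit 54) (nat_lit 100) (nat_lit 380) (.leaf ⟨(nat_lit 0), (nat_lit 497), (nat_lit 0), (nat_lit 503), (nat_lit 0), (nat_lit 3480), (nat_lit 8568), (nat_lit 4208), (nat_lit 0), (nat_lit 8951), (nat_lit 0), [], Pd.none, Pd.none, (nat_lit 0), (nat_lit 1), (nat_lit 0), (nat_lit 0), (nat_lit 5), (nat_lit 0), [⟨(nat_lit 0), (nat_lit 92), (nat_lit 44), (nat_lit 100), (nat_lit 920271579)⟩], [], [], [],
 ⟨⟨[(nat_lit 40), (nat_lit 80), (nat_lit 100)], [(nat_lit 0), (nat_lit 1598), (nat_lit 2533)], [((nat_lit 0), (nat_lit 0), (nat_lit 0)), ((nat_lit 1000), (nat_lit 625), (nat_lit 623)), ((nat_lit 1000), (nat_lit 604), (nat_lit 730))], ((nat_lit 61), (nat_lit 100), (nat_lit 70))⟩, (nat_lit 3843393), (nat_lit 119), (nat_lit 119), (nat_lit 0), (nat_lit 0), [(nat_lit 2032000003), (nat_lit 5891999164), (nat_lit 6250000000)], [], [(nat_lit 19236526254), (nat_lit 21001794974), (nat_lit 22419023056), (nat_lit 23848706191),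 (nat_lit 29314913466), (nat_lit 30319255118), (nat_lit 30626381846), (nat_lit 31466817366)], (nat_lit 0), (nat_lit 0), (nat_lit 0), (nat_lit 0), (nat_lit 0), (nat_lit 0), [], [(nat_lit 3), (nat_lit 50), (nat_lit 401), (nat_lit 175), (nat_lit 15)]⟩,
 ⟨⟨[(nat_lit 80), (nat_lit 120), (nat_lit 160)], [(nat_lit 0), (nat_lit 0), (nat_lit 2132)], [((nat_lit 0), (nat_lit 0), (nat_lit 0)), ((nat_lit 0), (nat_lit 0), (nat_lit 0)), ((nat_lit 858), (nat_lit 1000), (nat_lit 713))], ((nat_lit 100), (nat_lit 86), (nat_lit 71))⟩, (nat_lit 5131511), (nat_lit 170), (nat_lit 170), (nat_lit 0), (nat_lit 0), [(nat_lit 4688000000), (nat_lit 7968000000), (nat_lit 11872000000)], [], [(nat_lit 15279730730), (nat_lit 18379988270), (nat_lit 18518890800), (nat_lit 21597786168), (nat_lit 32554443556), (nat_lit 34224094902), (nat_lit 32164271104), (nat_lit 33413816320)], (nat_lit 0), (nat_lit 0), (nat_lit 0), (nat_lit 0), (nat_lit 0), (nat_lit 0), [], [(nat_lit 18), (nat_lit 59),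 (nat_lit 483), (nat_lit 250), (nat_lit 12)]⟩,
 ⟨⟨[(nat_lit 100), (nat_lit 140), (nat_lit 180)], [(nat_lit 0), (nat_lit 508), (nat_lit 2854)], [((nat_lit 0), (nat_lit 0), (nat_lit 0)), ((nat_lit 1000), (nat_lit 1000), (nat_lit 198)), ((nat_lit 777), (nat_lit 1000), (nat_lit 712))], ((nat_lit 100), (nat_lit 79), (nat_lit 70))⟩, (nat_lit 1278416), (nat_lit 300), (nat_lit 1231), (nat_lit 31437500), (nat_lit 1996396), [(nat_lit 3143750000), (nat_lit 4950526000), (nat_lit 7071174000)], [], [(nat_lit 31568147985), (nat_lit 31056344399), (nat_lit 32749595378), (nat_lit 28125212276), (nat_lit 29072223588), (nat_lit 28489893036), (nat_lit 25939800096), (nat_lit 25315733262)], (nat_lit 1271251), (nat_lit 1271251), (nat_lit 559688), (nat_lit 2852501), (nat_lit 1271251), (nat_lit 1271251), [(nat_lit 1412501), (nat_lit 1271251), (nat_lit 1271251)], [(nat_lit 24), (nat_lit 63), (nat_lit 538), (nat_lit 300), (nat_lit 12)]⟩⟩))) (.trZ (nat_lit 0) (nat_lit 1) (nat_lit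 3) (nat_lit 94) (nat_lit 62) (nat_lit 100) (nat_lit 150) (.leaf ⟨(nat_lit 0), (nat_lit 736), (nat_lit 0), (nat_lit 264), (nat_lit 0), (nat_lit 3559), (nat_lit 6741), (nat_lit 2389), (nat_lit 0), (nat_lit 45963), (nat_lit 0), [], Pd.none, Pd.none, (nat_lit 0), (nat_lit 1), (nat_lit 0), (nat_lit 0), (nat_lit 5), (nat_lit 0), [⟨(nat_lit 0), (nat_lit 82), (nat_lit 44), (nat_lit 100), (nat_lit 829417995)⟩], [⟨(nat_lit 1), (nat_lit 65), (nat_lit 56), (nat_lit 100), (nat_lit 225792455)⟩], [], [⟨(nat_lit 2), (nat_lit 25), (nat_lit 97), (nat_lit 100), (nat_lit 134824562)⟩],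
 ⟨⟨[(nat_lit 40), (nat_lit 80), (nat_lit 100)], [(nat_lit 0), (nat_lit 1598), (nat_lit 2533)], [((nat_lit 0), (nat_lit 0), (nat_lit 0)), ((nat_lit 1000), (nat_lit 625), (nat_lit 623)), ((nat_lit 1000), (nat_lit 604), (nat_lit 730))], ((nat_lit 61), (nat_lit 100), (nat_lit 70))⟩, (nat_lit 2267630), (nat_lit 110), (nat_lit 110), (nat_lit 0), (nat_lit 0), [(nat_lit 2032000015), (nat_lit 5036474143), (nat_lit 6250000000)], [], [(nat_lit 20115561357), (nat_lit 21540103325), (nat_lit 22438565301), (nat_lit 23803429350), (nat_lit 30375522668), (nat_lit 31375299907), (nat_lit 31477785456), (nat_lit 32281269595)], (nat_lit 0), (nat_lit 0), (nat_lit 0), (nat_lit 0), (nat_lit 0), (nat_lit 0), [], [(nat_lit 3), (nat_lit 50), (nat_lit 401), (nat_lit 175), (nat_lit 15)]⟩,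
 ⟨⟨[(nat_lit 60), (nat_lit 100), (nat_lit 140)], [(nat_lit 0), (nat_lit 0), (nat_lit 2047)], [((nat_lit 0), (nat_lit 0), (nat_lit 0)), ((nat_lit 0), (nat_lit 0), (nat_lit 0)), ((nat_lit 1000), (nat_lit 993), (nat_lit 781))], ((nat_lit 98), (nat_lit 100), (nat_lit 74))⟩, (nat_lit 12901), (nat_lit 94), (nat_lit 94), (nat_lit 0), (nat_lit 0), [(nat_lit 3282000000), (nat_lit 6250000000), (nat_lit 9842000000)], [], [(nat_lit 16271620040), (nat_lit 19865629915), (nat_lit 19813240183), (nat_lit 22767681528), (nat_lit 31141633785), (nat_lit 32736861959), (nat_lit 31880509046), (nat_lit 33192584956)], (nat_lit 0), (nat_lit 0), (nat_lit 0), (nat_lit 0), (nat_lit 0), (nat_lit 0), [], [(nat_lit 11), (nat_lit 55), (nat_lit 401), (nat_lit 175), (nat_lit 11)]⟩,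
 ⟨⟨[(nat_lit 100), (nat_lit 140), (nat_lit 180)], [(nat_lit 0), (nat_lit 508), (nat_lit 2854)], [((nat_lit 0), (nat_lit 0), (nat_lit 0)), ((nat_lit 1000), (nat_lit 1000), (nat_lit 198)), ((nat_lit 777), (nat_lit 1000), (nat_lit 712))], ((nat_lit 100), (nat_lit 79), (nat_lit 70))⟩, (nat_lit 583254), (nat_lit 300), (nat_lit 1468), (nat_lit 16500000), (nat_lit 2483929), [(nat_lit 1650000000), (nat_lit 2598288000), (nat_lit 3711312000)], [], [(nat_lit 15618834574), (nat_lit 15072133867), (nat_lit 18222508302), (nat_lit 13137026022), (nat_lit 13991093810), (nat_lit 13402891865), (nat_lit 12001473845), (nat_lit 11667065832)], (nat_lit 1271251), (nat_lit 1271251), (nat_lit 559688), (nat_lit 3010626), (nat_lit 1271251), (nat_lit 1271251), [(nat_lit 1412501), (nat_lit 1271251), (nat_lit 1271251)], [(nat_lit 24), (nat_lit 63), (nat_lit 538), (nat_lit 300), (nat_lit 12)]⟩⟩))) (.spl (nat_lit 1) (nat_lit 280) (.ord (.trX (nat_lit 3) (nat_lit 0) (nat_lit 1) (nat_lit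 65) (nat_lit 54) (nat_lit 100) (nat_lit 380) (.trX (nat_lit 4) (nat_lit 0) (nat_lit 2) (nat_lit 65) (nat_lit 54) (nat_lit 100) (nat_lit 380) (.leaf ⟨(nat_lit 0), (nat_lit 541), (nat_lit 0), (nat_lit 459), (nat_lit 0), (nat_lit 3615), (nat_lit 8219), (nat_lit 3729), (nat_lit 0), (nat_lit 33603), (nat_lit 0), [], Pd.none, Pd.none, (nat_lit 0), (nat_lit 1), (nat_lit 0), (nat_lit 0), (nat_lit 5), (nat_lit 0), [⟨(nat_lit 1), (nat_lit 68), (nat_lit 55), (nat_lit 100), (nat_lit 2336120)⟩], [], [], [],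
 ⟨⟨[(nat_lit 40), (nat_lit 80), (nat_lit 100)], [(nat_lit 0), (nat_lit 1598), (nat_lit 2533)], [((nat_lit 0), (nat_lit 0), (nat_lit 0)), ((nat_lit 1000), (nat_lit 625), (nat_lit 623)), ((nat_lit 1000), (nat_lit 604), (nat_lit 730))], ((nat_lit 61), (nat_lit 100), (nat_lit 70))⟩, (nat_lit 5813662), (nat_lit 126), (nat_lit 126), (nat_lit 0), (nat_lit 0), [(nat_lit 2032000007), (nat_lit 7892546532), (nat_lit 6250000000)], [], [(nat_lit 23033621084), (nat_lit 24401910765), (nat_lit 29652156412), (nat_lit 30641615856), (nat_lit 30989161314), (nat_lit 31799227928), (nat_lit 34879468876), (nat_lit 35512454513)], (nat_lit 0), (nat_lit 0), (nat_lit 0), (nat_lit 0), (nat_lit 0), (nat_lit 0), [], [(nat_lit 3), (nat_lit 50), (nat_lit 317), (nat_lit 100), (nat_lit 11)]⟩,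
 ⟨⟨[(nat_lit 80), (nat_lit 120), (nat_lit 160)], [(nat_lit 0), (nat_lit 0), (nat_lit 2132)], [((nat_lit 0), (nat_lit 0), (nat_lit 0)), ((nat_lit 0), (nat_lit 0), (nat_lit 0)), ((nat_lit 858), (nat_lit 1000), (nat_lit 713))], ((nat_lit 100), (nat_lit 86), (nat_lit 71))⟩, (nat_lit 287660), (nat_lit 105), (nat_lit 105), (nat_lit 0), (nat_lit 0), [(nat_lit 4688000000), (nat_lit 7968000000), (nat_lit 11872000000)], [], [(nat_lit 19227118488), (nat_lit 21924903519), (nat_lit 30513865639), (nat_lit 32307555597), (nat_lit 32317158232), (nat_lit 33554168932), (nat_lit 38666424895), (nat_lit 39621029752)], (nat_lit 0), (nat_lit 0), (nat_lit 0), (nat_lit 0), (nat_lit 0), (nat_lit 0), [], [(nat_lit 18), (nat_lit 59), (nat_lit 538), (nat_lit 300), (nat_lit 13)]⟩,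
 ⟨⟨[(nat_lit 100), (nat_lit 140), (nat_lit 180)], [(nat_lit 0), (nat_lit 508), (nat_lit 2854)], [((nat_lit 0), (nat_lit 0), (nat_lit 0)), ((nat_lit 1000), (nat_lit 1000), (nat_lit 198)), ((nat_lit 777), (nat_lit 1000), (nat_lit 712))], ((nat_lit 100), (nat_lit 79), (nat_lit 70))⟩, (nat_lit 1926019), (nat_lit 300), (nat_lit 1231), (nat_lit 28687500), (nat_lit 1996396), [(nat_lit 2868750000), (nat_lit 4517478000), (nat_lit 6452622000)], [], [(nat_lit 29692801809), (nat_lit 29248163900), (nat_lit 29597828093), (nat_lit 26690786228), (nat_lit 27521276179), (nat_lit 27013390504), (nat_lit 24782977025), (nat_lit 24237479692)], (nat_lit 1271251), (nat_lit 1271251), (nat_lit 559688), (nat_lit 2852501), (nat_lit 1271251), (nat_lit 1271251), [(nat_lit 1412501), (nat_lit 1271251), (nat_lit 1271251)], [(nat_lit 24), (nat_lit 63), (nat_lit 538), (nat_lit 300), (nat_lit 12)]⟩⟩)))) (.leaf ⟨(nat_lit 0), (nat_lit 720), (nat_lit 0), (nat_lit 280), (nat_lit 0), (nat_lit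 3717), (nat_lit 5937), (nat_lit 2534), (nat_lit 0), (nat_lit 907), (nat_lit 0), [], Pd.none, Pd.none, (nat_lit 0), (nat_lit 1), (nat_lit 0), (nat_lit 0), (nat_lit 5), (nat_lit 0), [], [⟨(nat_lit 1), (nat_lit 65), (nat_lit 56), (nat_lit 100), (nat_lit 247758709)⟩], [⟨(nat_lit 1), (nat_lit 18), (nat_lit 92), (nat_lit 100), (nat_lit 76162516)⟩], [],
 ⟨⟨[(nat_lit 40), (nat_lit 80), (nat_lit 100)], [(nat_lit 0), (nat_lit 1598), (nat_lit 2533)], [((nat_lit 0), (nat_lit 0), (nat_lit 0)), ((nat_lit 1000), (nat_lit 625), (nat_lit 623)), ((nat_lit 1000), (nat_lit 604), (nat_lit 730))], ((nat_lit 61), (nat_lit 100), (nat_lit 70))⟩, (nat_lit 1800554), (nat_lit 132), (nat_lit 132), (nat_lit 0), (nat_lit 0), [(nat_lit 2032000001), (nat_lit 4694511044), (nat_lit 6250000000)], [], [(nat_lit 23403542068), (nat_lit 24655521620), (nat_lit 30906733753), (nat_lit 31991978028), (nat_lit 31722096035), (nat_lit 32498119419), (nat_lit 36383135354), (nat_lit 36999251467)],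 (nat_lit 0), (nat_lit 0), (nat_lit 0), (nat_lit 0), (nat_lit 0), (nat_lit 0), [], [(nat_lit 3), (nat_lit 50), (nat_lit 317), (nat_lit 100), (nat_lit 11)]⟩,
 ⟨⟨[(nat_lit 60), (nat_lit 100), (nat_lit 140)], [(nat_lit 0), (nat_lit 0), (nat_lit 2047)], [((nat_lit 0), (nat_lit 0), (nat_lit 0)), ((nat_lit 0), (nat_lit 0), (nat_lit 0)), ((nat_lit 1000), (nat_lit 993), (nat_lit 781))], ((nat_lit 98), (nat_lit 100), (nat_lit 74))⟩, (nat_lit 2566354), (nat_lit 143), (nat_lit 143), (nat_lit 0), (nat_lit 0), [(nat_lit 3282000000), (nat_lit 6250000000), (nat_lit 9842000000)], [], [(nat_lit 22771699182), (nat_lit 25022893758), (nat_lit 31881902700), (nat_lit 33183812384), (nat_lit 32166245822), (nat_lit 33437643884), (nat_lit 37639103366), (nat_lit 38334278360)], (nat_lit 0), (nat_lit 0), (nat_lit 0), (nat_lit 0), (nat_lit 0), (nat_lit 0), [], [(nat_lit 11), (nat_lit 55), (nat_lit 428), (nat_lit 200), (nat_lit 11)]⟩,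
 ⟨⟨[(nat_lit 100), (nat_lit 140), (nat_lit 180)], [(nat_lit 0), (nat_lit 508), (nat_lit 2854)], [((nat_lit 0), (nat_lit 0), (nat_lit 0)), ((nat_lit 1000), (nat_lit 1000), (nat_lit 198)), ((nat_lit 777), (nat_lit 1000), (nat_lit 712))], ((nat_lit 100), (nat_lit 79), (nat_lit 70))⟩, (nat_lit 602535), (nat_lit 300), (nat_lit 1468), (nat_lit 17500000), (nat_lit 2483929), [(nat_lit 1750000000), (nat_lit 2755760000), (nat_lit 3936240000)], [], [(nat_lit 16563375224), (nat_lit 15983469121), (nat_lit 19327487172), (nat_lit 13930842772), (nat_lit 14836775414), (nat_lit 14212850911), (nat_lit 12726331422), (nat_lit 12373704560)], (nat_lit 1271251), (nat_lit 1271251), (nat_lit 559688), (nat_lit 3010626), (nat_lit 1271251), (nat_lit 1271251), [(nat_lit 1412501), (nat_lit 1271251), (nat_lit 1271251)], [(nat_lit 24), (nat_lit 63), (nat_lit 538), (nat_lit 300), (nat_lit 12)]⟩⟩))) (.leaf ⟨(nat_lit 0), (nat_lit 458), (nat_lit 0), (nat_lit 542), (nat_lit 0), (nat_lit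 7010), (nat_lit 8360), (nat_lit 4666), (nat_lit 0), (nat_lit 206644), (nat_lit 0), [], Pd.none, Pd.none, (nat_lit 0), (nat_lit 1), (nat_lit 0), (nat_lit 0), (nat_lit 5), (nat_lit 0), [⟨(nat_lit 0), (nat_lit 82), (nat_lit 44), (nat_lit 100), (nat_lit 279781541)⟩], [], [], [],
 ⟨⟨[(nat_lit 40), (nat_lit 80), (nat_lit 100)], [(nat_lit 0), (nat_lit 1598), (nat_lit 2533)], [((nat_lit 0), (nat_lit 0), (nat_lit 0)), ((nat_lit 1000), (nat_lit 625), (nat_lit 623)), ((nat_lit 1000), (nat_lit 604), (nat_lit 730))], ((nat_lit 61), (nat_lit 100), (nat_lit 70))⟩, (nat_lit 1172607), (nat_lit 300), (nat_lit 463), (nat_lit 50800001), (nat_lit 942665), [(nat_lit 2032000006), (nat_lit 5593291541), (nat_lit 6250000000)], [], [(nat_lit 29060821571), (nat_lit 30035095347), (nat_lit 37232979443), (nat_lit 38721560649), (nat_lit 36719620288), (nat_lit 38172235887), (nat_lit 41328437620), (nat_lit 42056479510)], (nat_lit 1271251), (nat_lit 1271251), (nat_lit 704688), (nat_lit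 3051876), (nat_lit 559688), (nat_lit 3010626), [(nat_lit 490000), (nat_lit 1100000), (nat_lit 1442501)], [(nat_lit 3), (nat_lit 50), (nat_lit 428), (nat_lit 200), (nat_lit 16)]⟩,
 ⟨⟨[(nat_lit 80), (nat_lit 120), (nat_lit 160)], [(nat_lit 0), (nat_lit 0), (nat_lit 2132)], [((nat_lit 0), (nat_lit 0), (nat_lit 0)), ((nat_lit 0), (nat_lit 0), (nat_lit 0)), ((nat_lit 858), (nat_lit 1000), (nat_lit 713))], ((nat_lit 100), (nat_lit 86), (nat_lit 71))⟩, (nat_lit 4985492), (nat_lit 172), (nat_lit 172), (nat_lit 0), (nat_lit 0), [(nat_lit 4688000000), (nat_lit 7968000000), (nat_lit 11872000000)], [], [(nat_lit 15720458446), (nat_lit 22445527390), (nat_lit 32358258640), (nat_lit 35616126320), (nat_lit 32570237620), (nat_lit 35916958740), (nat_lit 40149004480), (nat_lit 41807962240)], (nat_lit 0), (nat_lit 0), (nat_lit 0), (nat_lit 0), (nat_lit 0), (nat_lit 0), [], [(nat_lit 18), (nat_lit 59), (nat_lit 538), (nat_lit 300), (nat_lit 13)]⟩,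
 ⟨⟨[(nat_lit 100), (nat_lit 140), (nat_lit 180)], [(nat_lit 0), (nat_lit 508), (nat_lit 2854)], [((nat_lit 0), (nat_lit 0), (nat_lit 0)), ((nat_lit 1000), (nat_lit 1000), (nat_lit 198)), ((nat_lit 777), (nat_lit 1000), (nat_lit 712))], ((nat_lit 100), (nat_lit 79), (nat_lit 70))⟩, (nat_lit 1257125), (nat_lit 300), (nat_lit 979), (nat_lit 33875000), (nat_lit 1446169), [(nat_lit 3387500000), (nat_lit 5334364000), (nat_lit 7619436000)], [], [(nat_lit 31647825657), (nat_lit 31030152888), (nat_lit 36753734748), (nat_lit 28084692080), (nat_lit 29509617859), (nat_lit 28644192032), (nat_lit 26186981904), (nat_lit 25142502560)], (nat_lit 1271251), (nat_lit 1271251), (nat_lit 559688), (nat_lit 3010626), (nat_lit 1271251), (nat_lit 1271251), [(nat_lit 1412501), (nat_lit 1271251), (nat_lit 1271251)], [(nat_lit 24), (nat_lit 63), (nat_lit 538), (nat_lit 300), (nat_lit 12)]⟩⟩)))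
noncomputable def c17_119 : Tr Lf :=
 (.spl (nat_lit 5) (nat_lit 120) (.spl (nat_lit 1) (nat_lit 260) (.ord (.spl (nat_lit 4) (nat_lit 160) (.spl (nat_lit 3) (nat_lit 160) (.leaf ⟨(nat_lit 873), (nat_lit 78), (nat_lit 0), (nat_lit 49), (nat_lit 0), (nat_lit 3505), (nat_lit 1403), (nat_lit 1206), (nat_lit 0), (nat_lit 2520765376597), (nat_lit 496150), [((nat_lit 380), [((nat_lit 25), (nat_lit 0), (nat_lit 79)), ((nat_lit 41), (nat_lit 2), (nat_lit 794))])], ⟨(nat_lit 6), false, false, false, (nat_lit 184), (nat_lit 2236), (nat_lit 3163), [(nat_lit 1406804), (nat_lit 1416903), (nat_lit 1428895), (nat_lit 1439613), (nat_lit 1483125), (nat_lit 1488302), (nat_lit 1505217), (nat_lit 1511013)]⟩, ⟨(nat_lit 5), false, false, false, (nat_lit 174), (nat_lit 2236), (nat_lit 3163), [(nat_lit 1354183), (nat_lit 1365632), (nat_lit 1398366), (nat_lit 1411053), (nat_lit 1461034), (nat_lit 1465591), (nat_lit 1505217), (nat_lit 1511013)]⟩, (nat_lit 4556033), (nat_lit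 45591637), (nat_lit 11193718), (nat_lit 10214645), (nat_lit 5), (nat_lit 0), [⟨(nat_lit 0), (nat_lit 100), (nat_lit 61), (nat_lit 92), (nat_lit 167366422)⟩], [⟨(nat_lit 0), (nat_lit 100), (nat_lit 54), (nat_lit 96), (nat_lit 110073686)⟩, ⟨(nat_lit 0), (nat_lit 100), (nat_lit 60), (nat_lit 86), (nat_lit 5570048)⟩], [⟨(nat_lit 0), (nat_lit 100), (nat_lit 99), (nat_lit 45), (nat_lit 76364898)⟩], [],
 ⟨⟨[(nat_lit 40), (nat_lit 80), (nat_lit 100)], [(nat_lit 0), (nat_lit 1598), (nat_lit 2533)], [((nat_lit 0), (nat_lit 0), (nat_lit 0)), ((nat_lit 1000), (nat_lit 625), (nat_lit 623)), ((nat_lit 1000), (nat_lit 604), (nat_lit 730))], ((nat_lit 61), (nat_lit 100), (nat_lit 70))⟩, (nat_lit 350334), (nat_lit 252), (nat_lit 252), (nat_lit 0), (nat_lit 426773), [(nat_lit 1376811601), (nat_lit 783749732), (nat_lit 393838400)], [(nat_lit 0), (nat_lit 0), (nat_lit 0)], [(nat_lit 18754559825), (nat_lit 20755339032), (nat_lit 19330103151), (nat_lit 21024027775), (nat_lit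 19537459711), (nat_lit 21146785934), (nat_lit 20123867824), (nat_lit 21453681330)], (nat_lit 1271251), (nat_lit 1271251), (nat_lit 704688), (nat_lit 1100000), (nat_lit 559688), (nat_lit 1100000), [(nat_lit 490000), (nat_lit 1100000), (nat_lit 1442501)], [(nat_lit 3), (nat_lit 50), (nat_lit 317), (nat_lit 100), (nat_lit 11)]⟩,
 ⟨⟨[(nat_lit 80), (nat_lit 120), (nat_lit 160)], [(nat_lit 0), (nat_lit 0), (nat_lit 2132)], [((nat_lit 0), (nat_lit 0), (nat_lit 0)), ((nat_lit 0), (nat_lit 0), (nat_lit 0)), ((nat_lit 858), (nat_lit 1000), (nat_lit 713))], ((nat_lit 100), (nat_lit 86), (nat_lit 71))⟩, (nat_lit 0), (nat_lit 821), (nat_lit 821), (nat_lit 0), (nat_lit 1090821), [(nat_lit 595376000), (nat_lit 1011936000), (nat_lit 1507744000)], [], [(nat_lit 5180989957), (nat_lit 4744040579), (nat_lit 4499076076), (nat_lit 4563653214), (nat_lit 3871087898), (nat_lit 3902580237), (nat_lit 4424366132), (nat_lit 3776289566)], (nat_lit 1271251), (nat_lit 1271251), (nat_lit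 704688), (nat_lit 1100000), (nat_lit 0), (nat_lit 780000), [(nat_lit 1100000), (nat_lit 1785001), (nat_lit 1271251)], [(nat_lit 18), (nat_lit 59), (nat_lit 373), (nat_lit 150), (nat_lit 10)]⟩,
 ⟨⟨[(nat_lit 100), (nat_lit 140), (nat_lit 180)], [(nat_lit 0), (nat_lit 508), (nat_lit 2854)], [((nat_lit 0), (nat_lit 0), (nat_lit 0)), ((nat_lit 1000), (nat_lit 1000), (nat_lit 198)), ((nat_lit 777), (nat_lit 1000), (nat_lit 712))], ((nat_lit 100), (nat_lit 79), (nat_lit 70))⟩, (nat_lit 105331), (nat_lit 300), (nat_lit 979), (nat_lit 3062500), (nat_lit 1252563), [(nat_lit 306250000), (nat_lit 482258000), (nat_lit 688842000)], [], [(nat_lit 2564609831), (nat_lit 2597007746), (nat_lit 2190062270), (nat_lit 2209585556), (nat_lit 1465536823), (nat_lit 1490250455), (nat_lit 1937098048), (nat_lit 1134926519)], (nat_lit 1271251), (nat_lit 1271251), (nat_lit 559688), (nat_lit 1100000), (nat_lit 0), (nat_lit 780000), [(nat_lit 1412501), (nat_lit 1271251), (nat_lit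 1271251)], [(nat_lit 24), (nat_lit 63), (nat_lit 373), (nat_lit 150), (nat_lit 9)]⟩⟩) (.leaf ⟨(nat_lit 872), (nat_lit 35), (nat_lit 0), (nat_lit 93), (nat_lit 0), (nat_lit 3491), (nat_lit 1380), (nat_lit 1253), (nat_lit 0), (nat_lit 28058), (nat_lit 495550), [((nat_lit 380), [((nat_lit 25), (nat_lit 0), (nat_lit 79)), ((nat_lit 41), (nat_lit 2), (nat_lit 793))])], ⟨(nat_lit 6), false, false, false, (nat_lit 222), (nat_lit 2236), (nat_lit 3163), [(nat_lit 1483125), (nat_lit 1488302), (nat_lit 1505217), (nat_lit 1511013), (nat_lit 1605240), (nat_lit 1602541), (nat_lit 1627331), (nat_lit 1625251)]⟩, ⟨(nat_lit 5), false, false, false, (nat_lit 174), (nat_lit 2236), (nat_lit 3163), [(nat_lit 1354183), (nat_lit 1365632), (nat_lit 1398366), (nat_lit 1411053), (nat_lit 1461034), (nat_lit 1465591), (nat_lit 1505217), (nat_lit 1511013)]⟩, (nat_lit 4852794), (nat_lit 42574427), (nat_lit 14583368), (nat_lit 9842205), (nat_lit 5), (nat_lit 0), [], [⟨(nat_lit 0),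 (nat_lit 100), (nat_lit 54), (nat_lit 96), (nat_lit 191157445)⟩], [⟨(nat_lit 0), (nat_lit 100), (nat_lit 99), (nat_lit 45), (nat_lit 52618712)⟩], [],
 ⟨⟨[(nat_lit 40), (nat_lit 80), (nat_lit 100)], [(nat_lit 0), (nat_lit 1598), (nat_lit 2533)], [((nat_lit 0), (nat_lit 0), (nat_lit 0)), ((nat_lit 1000), (nat_lit 625), (nat_lit 623)), ((nat_lit 1000), (nat_lit 604), (nat_lit 730))], ((nat_lit 61), (nat_lit 100), (nat_lit 70))⟩, (nat_lit 273703), (nat_lit 237), (nat_lit 237), (nat_lit 0), (nat_lit 426773), [(nat_lit 1377349601), (nat_lit 821557375), (nat_lit 400802800)], [(nat_lit 0), (nat_lit 0), (nat_lit 0)], [(nat_lit 19567127158), (nat_lit 21008494532), (nat_lit 21761010009), (nat_lit 23369332994), (nat_lit 20295711630), (nat_lit 21477632292), (nat_lit 22345406208), (nat_lit 23661927506)], (nat_lit 1271251), (nat_lit 1271251), (nat_lit 1100000), (nat_lit 1785001), (nat_lit 559688), (nat_lit 1100000), [(nat_lit 490000), (nat_lit 1100000), (nat_lit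 1442501)], [(nat_lit 3), (nat_lit 50), (nat_lit 317), (nat_lit 100), (nat_lit 11)]⟩,
 ⟨⟨[(nat_lit 80), (nat_lit 120), (nat_lit 160)], [(nat_lit 0), (nat_lit 0), (nat_lit 2132)], [((nat_lit 0), (nat_lit 0), (nat_lit 0)), ((nat_lit 0), (nat_lit 0), (nat_lit 0)), ((nat_lit 858), (nat_lit 1000), (nat_lit 713))], ((nat_lit 100), (nat_lit 86), (nat_lit 71))⟩, (nat_lit 57264), (nat_lit 791), (nat_lit 791), (nat_lit 0), (nat_lit 1090821), [(nat_lit 600064000), (nat_lit 1019904000), (nat_lit 1519616000)], [], [(nat_lit 4544144672), (nat_lit 4579103456), (nat_lit 5206141776), (nat_lit 4607776940), (nat_lit 4487346704), (nat_lit 3849894344), (nat_lit 6069463296), (nat_lit 5448488826)], (nat_lit 1271251), (nat_lit 1271251), (nat_lit 1100000), (nat_lit 1785001), (nat_lit 0), (nat_lit 780000), [(nat_lit 1100000), (nat_lit 1785001), (nat_lit 1271251)], [(nat_lit 18), (nat_lit 59), (nat_lit 401), (nat_lit 175), (nat_lit 10)]⟩,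
 ⟨⟨[(nat_lit 100), (nat_lit 140), (nat_lit 180)], [(nat_lit 0), (nat_lit 508), (nat_lit 2854)], [((nat_lit 0), (nat_lit 0), (nat_lit 0)), ((nat_lit 1000), (nat_lit 1000), (nat_lit 198)), ((nat_lit 777), (nat_lit 1000), (nat_lit 712))], ((nat_lit 100), (nat_lit 79), (nat_lit 70))⟩, (nat_lit 199913), (nat_lit 300), (nat_lit 979), (nat_lit 5812502), (nat_lit 1252563), [(nat_lit 581250000), (nat_lit 915306000), (nat_lit 1307394000)], [], [(nat_lit 4822176558), (nat_lit 4796478078), (nat_lit 4449834993), (nat_lit 4446495770), (nat_lit 3818217760), (nat_lit 3788789243), (nat_lit 3964954960), (nat_lit 3432071151)], (nat_lit 1271251), (nat_lit 1271251), (nat_lit 559688), (nat_lit 1100000), (nat_lit 0), (nat_lit 780000), [(nat_lit 1412501), (nat_lit 1271251), (nat_lit 1271251)], [(nat_lit 24), (nat_lit 63), (nat_lit 373), (nat_lit 150), (nat_lit 9)]⟩⟩)) (.spl (nat_lit 0) (nat_lit 370) (.leaf ⟨(nat_lit 895), (nat_lit 0), (nat_lit 0), (nat_lit 105), (nat_lit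 0), (nat_lit 3404), (nat_lit 1180), (nat_lit 1294), (nat_lit 0), (nat_lit 91316457908), (nat_lit 511100), [((nat_lit 370), [((nat_lit 25), (nat_lit 0), (nat_lit 74)), ((nat_lit 41), (nat_lit 2), (nat_lit 821))])], ⟨(nat_lit 6), false, false, false, (nat_lit 207), (nat_lit 2738), (nat_lit 3163), [(nat_lit 1407099), (nat_lit 1411881), (nat_lit 1429241), (nat_lit 1434286), (nat_lit 1605257), (nat_lit 1603890), (nat_lit 1627400), (nat_lit 1626295)]⟩, ⟨(nat_lit 5), false, false, false, (nat_lit 218), (nat_lit 2738), (nat_lit 3163), [(nat_lit 1461170), (nat_lit 1463325), (nat_lit 1505456), (nat_lit 1508135), (nat_lit 1583107), (nat_lit 1581477), (nat_lit 1627400), (nat_lit 1626295)]⟩, (nat_lit 5085283), (nat_lit 40650692), (nat_lit 12652366), (nat_lit 13696942), (nat_lit 0), (nat_lit 0), [⟨(nat_lit 0), (nat_lit 100), (nat_lit 58), (nat_lit 97), (nat_lit 46783745)⟩], [], [⟨(nat_lit 0), (nat_lit 100), (nat_lit 99), (nat_lit 45), (nat_lit 90601770)⟩], [],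
 ⟨⟨[(nat_lit 40), (nat_lit 80), (nat_lit 100)], [(nat_lit 0), (nat_lit 1598), (nat_lit 2533)], [((nat_lit 0), (nat_lit 0), (nat_lit 0)), ((nat_lit 1000), (nat_lit 625), (nat_lit 623)), ((nat_lit 1000), (nat_lit 604), (nat_lit 730))], ((nat_lit 61), (nat_lit 100), (nat_lit 70))⟩, (nat_lit 114365), (nat_lit 216), (nat_lit 216), (nat_lit 0), (nat_lit 401376), [(nat_lit 1364564415), (nat_lit 575845730), (nat_lit 247706070)], [(nat_lit 0), (nat_lit 0), (nat_lit 0)], [(nat_lit 19703331467), (nat_lit 20355068899), (nat_lit 22499912236), (nat_lit 23070413644), (nat_lit 21979291141), (nat_lit 22587077671), (nat_lit 24369840436), (nat_lit 24872534026)], (nat_lit 1271251), (nat_lit 1271251), (nat_lit 704688), (nat_lit 1756876), (nat_lit 1100000), (nat_lit 1785001), [(nat_lit 490000), (nat_lit 1100000), (nat_lit 1442501)], [(nat_lit 3), (nat_lit 50), (nat_lit 345), (nat_lit 125), (nat_lit 12)]⟩,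
 ⟨⟨[(nat_lit 80), (nat_lit 120), (nat_lit 160)], [(nat_lit 0), (nat_lit 0), (nat_lit 2132)], [((nat_lit 0), (nat_lit 0), (nat_lit 0)), ((nat_lit 0), (nat_lit 0), (nat_lit 0)), ((nat_lit 858), (nat_lit 1000), (nat_lit 713))], ((nat_lit 100), (nat_lit 86), (nat_lit 71))⟩, (nat_lit 13199), (nat_lit 743), (nat_lit 743), (nat_lit 0), (nat_lit 960717), [(nat_lit 492240000), (nat_lit 836640000), (nat_lit 1246560000)], [], [(nat_lit 4298259820), (nat_lit 3838882152), (nat_lit 4113126280), (nat_lit 3867621882), (nat_lit 3081113362), (nat_lit 3116062976), (nat_lit 4837447000), (nat_lit 4306468830)], (nat_lit 1271251), (nat_lit 1271251), (nat_lit 704688), (nat_lit 1756876), (nat_lit 0), (nat_lit 780000), [(nat_lit 1100000), (nat_lit 1785001), (nat_lit 1271251)], [(nat_lit 18), (nat_lit 59), (nat_lit 401), (nat_lit 175), (nat_lit 10)]⟩,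
 ⟨⟨[(nat_lit 100), (nat_lit 140), (nat_lit 180)], [(nat_lit 0), (nat_lit 508), (nat_lit 2854)], [((nat_lit 0), (nat_lit 0), (nat_lit 0)), ((nat_lit 1000), (nat_lit 1000), (nat_lit 198)), ((nat_lit 777), (nat_lit 1000), (nat_lit 712))], ((nat_lit 100), (nat_lit 79), (nat_lit 70))⟩, (nat_lit 225709), (nat_lit 300), (nat_lit 855), (nat_lit 6562500), (nat_lit 1093716), [(nat_lit 656250000), (nat_lit 1033410000), (nat_lit 1476090000)], [], [(nat_lit 5205158646), (nat_lit 5177272780), (nat_lit 5030639451), (nat_lit 4986541604), (nat_lit 4206304843), (nat_lit 4174345229), (nat_lit 4033577574), (nat_lit 3986113951)], (nat_lit 1271251), (nat_lit 1271251), (nat_lit 1100000), (nat_lit 1785001), (nat_lit 0), (nat_lit 780000), [(nat_lit 1412501), (nat_lit 1271251), (nat_lit 1271251)], [(nat_lit 24), (nat_lit 63), (nat_lit 401), (nat_lit 175), (nat_lit 9)]⟩⟩) (.trZ (nat_lit 0) (nat_lit 1) (nat_lit 3) (nat_lit 100) (nat_lit 54) (nat_lit 96) (nat_lit 130) (.leaf ⟨(nat_lit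 887), (nat_lit 10), (nat_lit 0), (nat_lit 103), (nat_lit 0), (nat_lit 3383), (nat_lit 1270), (nat_lit 1206), (nat_lit 0), (nat_lit 377857), (nat_lit 491400), [((nat_lit 380), [((nat_lit 25), (nat_lit 1), (nat_lit 204)), ((nat_lit 41), (nat_lit 2), (nat_lit 683))])], ⟨(nat_lit 6), false, false, false, (nat_lit 214), (nat_lit 2236), (nat_lit 2739), [(nat_lit 1441375), (nat_lit 1445669), (nat_lit 1463772), (nat_lit 1468423), (nat_lit 1603890), (nat_lit 1602558), (nat_lit 1626287), (nat_lit 1625312)]⟩, ⟨(nat_lit 5), false, false, false, (nat_lit 218), (nat_lit 2236), (nat_lit 2739), [(nat_lit 1463300), (nat_lit 1465703), (nat_lit 1508094), (nat_lit 1511211), (nat_lit 1581477), (nat_lit 1579788), (nat_lit 1626287), (nat_lit 1625312)]⟩, (nat_lit 5130436), (nat_lit 40183564), (nat_lit 13199892), (nat_lit 13616544), (nat_lit 5), (nat_lit 0), [], [], [⟨(nat_lit 0), (nat_lit 100), (nat_lit 99), (nat_lit 45), (nat_lit 64939178)⟩], [],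
 ⟨⟨[(nat_lit 40), (nat_lit 60), (nat_lit 80)], [(nat_lit 0), (nat_lit 1134), (nat_lit 1930)], [((nat_lit 0), (nat_lit 0), (nat_lit 0)), ((nat_lit 1000), (nat_lit 575), (nat_lit 619)), ((nat_lit 1000), (nat_lit 574), (nat_lit 622))], ((nat_lit 54), (nat_lit 100), (nat_lit 72))⟩, (nat_lit 8153), (nat_lit 186), (nat_lit 186), (nat_lit 0), (nat_lit 424389), [(nat_lit 1369296013), (nat_lit 957131614), (nat_lit 688216000)], [(nat_lit 0), (nat_lit 0), (nat_lit 0)], [(nat_lit 20897032460), (nat_lit 21506843853), (nat_lit 23137374470), (nat_lit 23706271436), (nat_lit 22873514086), (nat_lit 23436546104), (nat_lit 24939682897), (nat_lit 25470576666)], (nat_lit 1271251), (nat_lit 1271251), (nat_lit 857188), (nat_lit 1768126), (nat_lit 1100000), (nat_lit 1785001), [(nat_lit 490000), (nat_lit 780000), (nat_lit 1100000)], [(nat_lit 2), (nat_lit 44), (nat_lit 272), (nat_lit 60), (nat_lit 11)]⟩,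
 ⟨⟨[(nat_lit 80), (nat_lit 120), (nat_lit 160)], [(nat_lit 0), (nat_lit 0), (nat_lit 2132)], [((nat_lit 0), (nat_lit 0), (nat_lit 0)), ((nat_lit 0), (nat_lit 0), (nat_lit 0)), ((nat_lit 858), (nat_lit 1000), (nat_lit 713))], ((nat_lit 100), (nat_lit 86), (nat_lit 71))⟩, (nat_lit 291659), (nat_lit 812), (nat_lit 812), (nat_lit 0), (nat_lit 1090561), [(nat_lit 529744000), (nat_lit 900384000), (nat_lit 1341536000)], [], [(nat_lit 3959373790), (nat_lit 3473595325), (nat_lit 4488705856), (nat_lit 3894277276), (nat_lit 3479495523), (nat_lit 2886845975), (nat_lit 5268244936), (nat_lit 4696768431)], (nat_lit 1271251), (nat_lit 1271251), (nat_lit 857188), (nat_lit 1768126), (nat_lit 0), (nat_lit 780000), [(nat_lit 1100000), (nat_lit 1785001), (nat_lit 1271251)], [(nat_lit 18), (nat_lit 59), (nat_lit 401), (nat_lit 175), (nat_lit 10)]⟩,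
 ⟨⟨[(nat_lit 100), (nat_lit 140), (nat_lit 180)], [(nat_lit 0), (nat_lit 508), (nat_lit 2854)], [((nat_lit 0), (nat_lit 0), (nat_lit 0)), ((nat_lit 1000), (nat_lit 1000), (nat_lit 198)), ((nat_lit 777), (nat_lit 1000), (nat_lit 712))], ((nat_lit 100), (nat_lit 79), (nat_lit 70))⟩, (nat_lit 221409), (nat_lit 300), (nat_lit 943), (nat_lit 6437502), (nat_lit 1251442), [(nat_lit 643750000), (nat_lit 1013726000), (nat_lit 1447974000)], [], [(nat_lit 5201114070), (nat_lit 5178947860), (nat_lit 5045627273), (nat_lit 5007804601), (nat_lit 4278137150), (nat_lit 4252026261), (nat_lit 4124064207), (nat_lit 4083362816)], (nat_lit 1271251), (nat_lit 1271251), (nat_lit 1100000), (nat_lit 1785001), (nat_lit 0), (nat_lit 780000), [(nat_lit 1412501), (nat_lit 1271251), (nat_lit 1271251)], [(nat_lit 24), (nat_lit 63), (nat_lit 401), (nat_lit 175), (nat_lit 9)]⟩⟩))))) (.trZ (nat_lit 0) (nat_lit 1) (nat_lit 3) (nat_lit 100) (nat_lit 63) (nat_lit 99) (nat_lit 130) (.trZ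 (nat_lit 1) (nat_lit 2) (nat_lit 5) (nat_lit 100) (nat_lit 96) (nat_lit 40) (nat_lit 10) (.spl (nat_lit 0) (nat_lit 370) (.leaf ⟨(nat_lit 460), (nat_lit 289), (nat_lit 0), (nat_lit 251), (nat_lit 0), (nat_lit 4028), (nat_lit 4275), (nat_lit 3159), (nat_lit 0), (nat_lit 112646), (nat_lit 276000), [((nat_lit 370), [((nat_lit 41), (nat_lit 2), (nat_lit 460))])], ⟨(nat_lit 6), false, false, false, (nat_lit 222), (nat_lit 2738), (nat_lit 3163), [(nat_lit 1459728), (nat_lit 1463826), (nat_lit 1481870), (nat_lit 1486231), (nat_lit 1627400), (nat_lit 1626295), (nat_lit 1649542), (nat_lit 1648700)]⟩, ⟨(nat_lit 5), false, false, false, (nat_lit 201), (nat_lit 2738), (nat_lit 3163), [(nat_lit 1354470), (nat_lit 1359935), (nat_lit 1420899), (nat_lit 1427152), (nat_lit 1583107), (nat_lit 1581477), (nat_lit 1649542), (nat_lit 1648700)]⟩, (nat_lit 5070626), (nat_lit 40745519), (nat_lit 14161504), (nat_lit 12092977), (nat_lit 5), (nat_lit 0), [], [⟨(nat_lit 0), (nat_lit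 100), (nat_lit 58), (nat_lit 97), (nat_lit 191325010)⟩], [⟨(nat_lit 0), (nat_lit 100), (nat_lit 97), (nat_lit 59), (nat_lit 79922517)⟩], [],
 ⟨⟨[(nat_lit 40), (nat_lit 80), (nat_lit 100)], [(nat_lit 0), (nat_lit 1598), (nat_lit 2533)], [((nat_lit 0), (nat_lit 0), (nat_lit 0)), ((nat_lit 1000), (nat_lit 625), (nat_lit 623)), ((nat_lit 1000), (nat_lit 604), (nat_lit 730))], ((nat_lit 61), (nat_lit 100), (nat_lit 70))⟩, (nat_lit 1019684), (nat_lit 252), (nat_lit 252), (nat_lit 0), (nat_lit 463418), [(nat_lit 1613984022), (nat_lit 2507232368), (nat_lit 3046376000)], [(nat_lit 0), (nat_lit 0), (nat_lit 0)], [(nat_lit 19414028749), (nat_lit 20467514586), (nat_lit 22251342695), (nat_lit 23119428164), (nat_lit 22399399267), (nat_lit 23223813883), (nat_lit 24594206720), (nat_lit 25280169088)], (nat_lit 1271251), (nat_lit 1271251), (nat_lit 857188), (nat_lit 1768126), (nat_lit 559688), (nat_lit 1745625), [(nat_lit 490000), (nat_lit 1100000), (nat_lit 1442501)],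 [(nat_lit 3), (nat_lit 50), (nat_lit 345), (nat_lit 125), (nat_lit 12)]⟩,
 ⟨⟨[(nat_lit 80), (nat_lit 120), (nat_lit 160)], [(nat_lit 0), (nat_lit 528), (nat_lit 2577)], [((nat_lit 0), (nat_lit 0), (nat_lit 0)), ((nat_lit 1000), (nat_lit 959), (nat_lit 206)), ((nat_lit 929), (nat_lit 1000), (nat_lit 742))], ((nat_lit 100), (nat_lit 94), (nat_lit 73))⟩, (nat_lit 3855812), (nat_lit 712), (nat_lit 712), (nat_lit 0), (nat_lit 930000), [(nat_lit 2531520000), (nat_lit 4302720000), (nat_lit 6410880000)], [], [(nat_lit 13209552389), (nat_lit 13441998085), (nat_lit 18079370124), (nat_lit 16084992849), (nat_lit 14545230119), (nat_lit 12550287743), (nat_lit 21219323132), (nat_lit 19295652219)], (nat_lit 1271251), (nat_lit 1271251), (nat_lit 857188), (nat_lit 1768126), (nat_lit 54688), (nat_lit 780000), [(nat_lit 1100000), (nat_lit 1785001), (nat_lit 1271251)], [(nat_lit 18), (nat_lit 59), (nat_lit 401), (nat_lit 175), (nat_lit 10)]⟩,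
 ⟨⟨[(nat_lit 100), (nat_lit 140), (nat_lit 180)], [(nat_lit 0), (nat_lit 508), (nat_lit 2854)], [((nat_lit 0), (nat_lit 0), (nat_lit 0)), ((nat_lit 1000), (nat_lit 1000), (nat_lit 198)), ((nat_lit 777), (nat_lit 1000), (nat_lit 712))], ((nat_lit 100), (nat_lit 79), (nat_lit 70))⟩, (nat_lit 539551), (nat_lit 300), (nat_lit 949), (nat_lit 15687501), (nat_lit 1192646), [(nat_lit 1568750000), (nat_lit 2470342000), (nat_lit 3528558000)], [], [(nat_lit 13013486299), (nat_lit 12998543314), (nat_lit 11668380738), (nat_lit 11743552698), (nat_lit 10759743221), (nat_lit 10724196293), (nat_lit 9468593074), (nat_lit 9386788622)], (nat_lit 1271251), (nat_lit 1271251), (nat_lit 559688), (nat_lit 1745625), (nat_lit 54688), (nat_lit 780000), [(nat_lit 1412501), (nat_lit 1271251), (nat_lit 1271251)], [(nat_lit 24), (nat_lit 63), (nat_lit 401), (nat_lit 175), (nat_lit 10)]⟩⟩) (.trZ (nat_lit 0) (nat_lit 1) (nat_lit 3) (nat_lit 98) (nat_lit 54) (nat_lit 100) (nat_lit 150)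 (.trZ (nat_lit 0) (nat_lit 2) (nat_lit 4) (nat_lit 100) (nat_lit 53) (nat_lit 90) (nat_lit 110) (.leaf ⟨(nat_lit 270), (nat_lit 397), (nat_lit 0), (nat_lit 333), (nat_lit 0), (nat_lit 3949), (nat_lit 5372), (nat_lit 4018), (nat_lit 0), (nat_lit 414294), (nat_lit 121400), [((nat_lit 380), [((nat_lit 25), (nat_lit 0), (nat_lit 116)), ((nat_lit 41), (nat_lit 2), (nat_lit 154))])], ⟨(nat_lit 6), false, false, false, (nat_lit 229), (nat_lit 2236), (nat_lit 2739), [(nat_lit 1493321), (nat_lit 1496948), (nat_lit 1515717), (nat_lit 1519702), (nat_lit 1626287), (nat_lit 1625312), (nat_lit 1648684), (nat_lit 1648065)]⟩, ⟨(nat_lit 5), false, false, false, (nat_lit 208), (nat_lit 2236), (nat_lit 2739), [(nat_lit 1389430), (nat_lit 1394390), (nat_lit 1456621), (nat_lit 1462652), (nat_lit 1581477), (nat_lit 1579788), (nat_lit 1648684), (nat_lit 1648065)]⟩, (nat_lit 5155780), (nat_lit 39829122), (nat_lit 14612847), (nat_lit 12558031), (nat_lit 5), (nat_lit 0), [],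 [⟨(nat_lit 0), (nat_lit 92), (nat_lit 44), (nat_lit 100), (nat_lit 299543392)⟩], [⟨(nat_lit 0), (nat_lit 100), (nat_lit 97), (nat_lit 59), (nat_lit 78485525)⟩], [],
 ⟨⟨[(nat_lit 40), (nat_lit 60), (nat_lit 80)], [(nat_lit 0), (nat_lit 1134), (nat_lit 1930)], [((nat_lit 0), (nat_lit 0), (nat_lit 0)), ((nat_lit 1000), (nat_lit 575), (nat_lit 619)), ((nat_lit 1000), (nat_lit 574), (nat_lit 622))], ((nat_lit 54), (nat_lit 100), (nat_lit 72))⟩, (nat_lit 1199210), (nat_lit 209), (nat_lit 209), (nat_lit 0), (nat_lit 479945), [(nat_lit 1719331215), (nat_lit 2700997547), (nat_lit 3613118400)], [(nat_lit 0), (nat_lit 0), (nat_lit 0)], [(nat_lit 20878046651), (nat_lit 21563740370), (nat_lit 23097603954), (nat_lit 23934760765), (nat_lit 23298511708), (nat_lit 24011140581), (nat_lit 25226249929), (nat_lit 25905435598)], (nat_lit 1271251), (nat_lit 1271251), (nat_lit 1017188), (nat_lit 1779376), (nat_lit 704688), (nat_lit 1756876), [(nat_lit 490000), (nat_lit 780000),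 (nat_lit 1100000)], [(nat_lit 2), (nat_lit 44), (nat_lit 345), (nat_lit 125), (nat_lit 15)]⟩,
 ⟨⟨[(nat_lit 80), (nat_lit 120), (nat_lit 160)], [(nat_lit 0), (nat_lit 528), (nat_lit 2577)], [((nat_lit 0), (nat_lit 0), (nat_lit 0)), ((nat_lit 1000), (nat_lit 959), (nat_lit 206)), ((nat_lit 929), (nat_lit 1000), (nat_lit 742))], ((nat_lit 100), (nat_lit 94), (nat_lit 73))⟩, (nat_lit 6062293), (nat_lit 742), (nat_lit 742), (nat_lit 0), (nat_lit 1032722), [(nat_lit 3422240000), (nat_lit 5816640000), (nat_lit 8666560000)], [], [(nat_lit 18358802002), (nat_lit 18793911120), (nat_lit 24600306032), (nat_lit 22094155220), (nat_lit 21219501752), (nat_lit 18729584788), (nat_lit 28695212454), (nat_lit 26277911836)], (nat_lit 1271251), (nat_lit 1271251), (nat_lit 1017188), (nat_lit 1779376), (nat_lit 54688), (nat_lit 780000), [(nat_lit 1100000), (nat_lit 1785001), (nat_lit 1271251)], [(nat_lit 18), (nat_lit 59), (nat_lit 401), (nat_lit 175), (nat_lit 10)]⟩,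
 ⟨⟨[(nat_lit 100), (nat_lit 140), (nat_lit 180)], [(nat_lit 0), (nat_lit 508), (nat_lit 2854)], [((nat_lit 0), (nat_lit 0), (nat_lit 0)), ((nat_lit 1000), (nat_lit 1000), (nat_lit 198)), ((nat_lit 777), (nat_lit 1000), (nat_lit 712))], ((nat_lit 100), (nat_lit 79), (nat_lit 70))⟩, (nat_lit 715819), (nat_lit 300), (nat_lit 997), (nat_lit 20812500), (nat_lit 1342161), [(nat_lit 2081250000), (nat_lit 3277386000), (nat_lit 4681314000)], [], [(nat_lit 17146788256), (nat_lit 17131371056), (nat_lit 15797841222), (nat_lit 15669711246), (nat_lit 14318843842), (nat_lit 14276919148), (nat_lit 13018879080), (nat_lit 12870538533)], (nat_lit 1271251), (nat_lit 1271251), (nat_lit 704688), (nat_lit 1756876), (nat_lit 54688), (nat_lit 780000), [(nat_lit 1412501), (nat_lit 1271251), (nat_lit 1271251)], [(nat_lit 24), (nat_lit 63), (nat_lit 401), (nat_lit 175), (nat_lit 9)]⟩⟩))))))) (.spl (nat_lit 4) (nat_lit 160) (.leaf ⟨(nat_lit 863), (nat_lit 0), (nat_lit 0), (nat_lit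 137), (nat_lit 0), (nat_lit 3671), (nat_lit 1195), (nat_lit 1424), (nat_lit 0), (nat_lit 10114), (nat_lit 489100), [((nat_lit 380), [((nat_lit 25), (nat_lit 0), (nat_lit 82)), ((nat_lit 41), (nat_lit 2), (nat_lit 781))])], ⟨(nat_lit 6), false, false, false, (nat_lit 212), (nat_lit 2236), (nat_lit 3163), [(nat_lit 1406804), (nat_lit 1416903), (nat_lit 1450987), (nat_lit 1462324), (nat_lit 1605240), (nat_lit 1602541), (nat_lit 1649422), (nat_lit 1647962)]⟩, ⟨(nat_lit 5), false, false, false, (nat_lit 178), (nat_lit 2236), (nat_lit 3163), [(nat_lit 1354183), (nat_lit 1365632), (nat_lit 1420458), (nat_lit 1433765), (nat_lit 1461034), (nat_lit 1465591), (nat_lit 1527308), (nat_lit 1533723)]⟩, (nat_lit 4821913), (nat_lit 43076807), (nat_lit 13609140), (nat_lit 10314053), (nat_lit 0), (nat_lit 0), [⟨(nat_lit 0), (nat_lit 98), (nat_lit 54), (nat_lit 100), (nat_lit 82732837)⟩], [⟨(nat_lit 0), (nat_lit 100), (nat_lit 54), (nat_lit 99), (nat_lit 252255906)⟩],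 [], [],
 ⟨⟨[(nat_lit 40), (nat_lit 80), (nat_lit 100)], [(nat_lit 0), (nat_lit 1598), (nat_lit 2533)], [((nat_lit 0), (nat_lit 0), (nat_lit 0)), ((nat_lit 1000), (nat_lit 625), (nat_lit 623)), ((nat_lit 1000), (nat_lit 604), (nat_lit 730))], ((nat_lit 61), (nat_lit 100), (nat_lit 70))⟩, (nat_lit 281344), (nat_lit 270), (nat_lit 270), (nat_lit 0), (nat_lit 482440), [(nat_lit 1382548401), (nat_lit 798654457), (nat_lit 471979600)], [(nat_lit 0), (nat_lit 0), (nat_lit 0)], [(nat_lit 18927711273), (nat_lit 20981297964), (nat_lit 21925367334), (nat_lit 23576544381), (nat_lit 19675689998), (nat_lit 21315387838), (nat_lit 22399321117), (nat_lit 23806677386)], (nat_lit 1271251), (nat_lit 1271251), (nat_lit 704688), (nat_lit 1756876), (nat_lit 559688), (nat_lit 1100000), [(nat_lit 490000), (nat_lit 1100000), (nat_lit 1442501)], [(nat_lit 3), (nat_lit 50), (nat_lit 317), (nat_lit 100), (nat_lit 11)]⟩,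
 ⟨⟨[(nat_lit 80), (nat_lit 120), (nat_lit 160)], [(nat_lit 0), (nat_lit 0), (nat_lit 2132)], [((nat_lit 0), (nat_lit 0), (nat_lit 0)), ((nat_lit 0), (nat_lit 0), (nat_lit 0)), ((nat_lit 858), (nat_lit 1000), (nat_lit 713))], ((nat_lit 100), (nat_lit 86), (nat_lit 71))⟩, (nat_lit 322803), (nat_lit 1016), (nat_lit 1016), (nat_lit 0), (nat_lit 1709576), [(nat_lit 642256000), (nat_lit 1091616000), (nat_lit 1626464000)], [], [(nat_lit 5990728062), (nat_lit 5660192010), (nat_lit 5393614766), (nat_lit 5397592170), (nat_lit 6705501273), (nat_lit 5626574910), (nat_lit 8826739372), (nat_lit 7791489362)], (nat_lit 1271251), (nat_lit 1271251), (nat_lit 704688), (nat_lit 1756876), (nat_lit 780000), (nat_lit 3072501), [(nat_lit 1100000), (nat_lit 1785001), (nat_lit 1271251)], [(nat_lit 18), (nat_lit 59), (nat_lit 483), (nat_lit 250), (nat_lit 12)]⟩,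
 ⟨⟨[(nat_lit 100), (nat_lit 140), (nat_lit 180)], [(nat_lit 0), (nat_lit 508), (nat_lit 2854)], [((nat_lit 0), (nat_lit 0), (nat_lit 0)), ((nat_lit 1000), (nat_lit 1000), (nat_lit 198)), ((nat_lit 777), (nat_lit 1000), (nat_lit 712))], ((nat_lit 100), (nat_lit 79), (nat_lit 70))⟩, (nat_lit 312020), (nat_lit 300), (nat_lit 939), (nat_lit 8562500), (nat_lit 1347054), [(nat_lit 856250000), (nat_lit 1348354000), (nat_lit 1925946000)], [], [(nat_lit 6768678528), (nat_lit 6662349406), (nat_lit 6372867706), (nat_lit 6265620696), (nat_lit 6887490256), (nat_lit 6268588141), (nat_lit 7974260080), (nat_lit 6060210416)], (nat_lit 1271251), (nat_lit 1271251), (nat_lit 559688), (nat_lit 1100000), (nat_lit 780000), (nat_lit 3072501), [(nat_lit 1412501), (nat_lit 1271251), (nat_lit 1271251)], [(nat_lit 24), (nat_lit 63), (nat_lit 456), (nat_lit 225), (nat_lit 10)]⟩⟩) (.leaf ⟨(nat_lit 870), (nat_lit 0), (nat_lit 0), (nat_lit 130), (nat_lit 0), (nat_lit 3439), (nat_lit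 1097), (nat_lit 1359), (nat_lit 0), (nat_lit 315080), (nat_lit 494000), [((nat_lit 380), [((nat_lit 25), (nat_lit 0), (nat_lit 80)), ((nat_lit 41), (nat_lit 2), (nat_lit 790))])], ⟨(nat_lit 6), false, false, false, (nat_lit 212), (nat_lit 2236), (nat_lit 3163), [(nat_lit 1406804), (nat_lit 1416903), (nat_lit 1450987), (nat_lit 1462324), (nat_lit 1605240), (nat_lit 1602541), (nat_lit 1649422), (nat_lit 1647962)]⟩, ⟨(nat_lit 5), false, false, false, (nat_lit 222), (nat_lit 2236), (nat_lit 3163), [(nat_lit 1461034), (nat_lit 1465591), (nat_lit 1527308), (nat_lit 1533723), (nat_lit 1583107), (nat_lit 1579788), (nat_lit 1649422), (nat_lit 1647962)]⟩, (nat_lit 5145614), (nat_lit 40001296), (nat_lit 12987811), (nat_lit 14010893), (nat_lit 0), (nat_lit 0), [⟨(nat_lit 0), (nat_lit 92), (nat_lit 44), (nat_lit 100), (nat_lit 85670851)⟩], [], [], [],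
 ⟨⟨[(nat_lit 40), (nat_lit 80), (nat_lit 100)], [(nat_lit 0), (nat_lit 1598), (nat_lit 2533)], [((nat_lit 0), (nat_lit 0), (nat_lit 0)), ((nat_lit 1000), (nat_lit 625), (nat_lit 623)), ((nat_lit 1000), (nat_lit 604), (nat_lit 730))], ((nat_lit 61), (nat_lit 100), (nat_lit 70))⟩, (nat_lit 251763), (nat_lit 249), (nat_lit 249), (nat_lit 0), (nat_lit 482440), [(nat_lit 1378556022), (nat_lit 798008953), (nat_lit 417564000)], [(nat_lit 0), (nat_lit 0), (nat_lit 0)], [(nat_lit 19981804721), (nat_lit 21166850065), (nat_lit 22473147204), (nat_lit 23620110874), (nat_lit 21957816841), (nat_lit 23398225911), (nat_lit 24343252154), (nat_lit 25513601578)], (nat_lit 1271251), (nat_lit 1271251), (nat_lit 704688), (nat_lit 1756876), (nat_lit 1100000), (nat_lit 1785001), [(nat_lit 490000), (nat_lit 1100000), (nat_lit 1442501)], [(nat_lit 3), (nat_lit 50), (nat_lit 345), (nat_lit 125), (nat_lit 12)]⟩,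
 ⟨⟨[(nat_lit 80), (nat_lit 120), (nat_lit 160)], [(nat_lit 0), (nat_lit 0), (nat_lit 2132)], [((nat_lit 0), (nat_lit 0), (nat_lit 0)), ((nat_lit 0), (nat_lit 0), (nat_lit 0)), ((nat_lit 858), (nat_lit 1000), (nat_lit 713))], ((nat_lit 100), (nat_lit 86), (nat_lit 71))⟩, (nat_lit 253156), (nat_lit 1016), (nat_lit 1016), (nat_lit 0), (nat_lit 1709576), [(nat_lit 609440000), (nat_lit 1035840000), (nat_lit 1543360000)], [], [(nat_lit 5617886974), (nat_lit 5614209988), (nat_lit 5374432834), (nat_lit 5380617933), (nat_lit 6335459895), (nat_lit 5489161128), (nat_lit 8300563400), (nat_lit 7350212554)], (nat_lit 1271251), (nat_lit 1271251), (nat_lit 704688), (nat_lit 1756876), (nat_lit 780000), (nat_lit 3072501), [(nat_lit 1100000), (nat_lit 1785001), (nat_lit 1271251)], [(nat_lit 18), (nat_lit 59), (nat_lit 483), (nat_lit 250), (nat_lit 12)]⟩,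
 ⟨⟨[(nat_lit 100), (nat_lit 140), (nat_lit 180)], [(nat_lit 0), (nat_lit 508), (nat_lit 2854)], [((nat_lit 0), (nat_lit 0), (nat_lit 0)), ((nat_lit 1000), (nat_lit 1000), (nat_lit 198)), ((nat_lit 777), (nat_lit 1000), (nat_lit 712))], ((nat_lit 100), (nat_lit 79), (nat_lit 70))⟩, (nat_lit 279449), (nat_lit 300), (nat_lit 903), (nat_lit 8125000), (nat_lit 1347054), [(nat_lit 812500000), (nat_lit 1279460000), (nat_lit 1827540000)], [], [(nat_lit 6007195666), (nat_lit 5914502563), (nat_lit 5771753719), (nat_lit 5663123241), (nat_lit 8597649414), (nat_lit 6770968590), (nat_lit 6167337483), (nat_lit 5315406418)], (nat_lit 1271251), (nat_lit 1271251), (nat_lit 1271251), (nat_lit 1271251), (nat_lit 780000), (nat_lit 3072501), [(nat_lit 1412501), (nat_lit 1271251), (nat_lit 1271251)], [(nat_lit 24), (nat_lit 63), (nat_lit 483), (nat_lit 250), (nat_lit 11)]⟩⟩)))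
noncomputable def c17_120 : Tr Lf :=
 (.spl (nat_lit 3) (nat_lit 320) (.spl (nat_lit 4) (nat_lit 160) (.spl (nat_lit 1) (nat_lit 260) (.ord (.leaf ⟨(nat_lit 837), (nat_lit 56), (nat_lit 0), (nat_lit 107), (nat_lit 0), (nat_lit 3285), (nat_lit 1720), (nat_lit 1416), (nat_lit 0), (nat_lit 4814619), (nat_lit 471750), [((nat_lit 380), [((nat_lit 25), (nat_lit 0), (nat_lit 87)), ((nat_lit 41), (nat_lit 2), (nat_lit 750))])], ⟨(nat_lit 6), false, true, true, (nat_lit 270), (nat_lit 2236), (nat_lit 3163), [(nat_lit 1605240), (nat_lit 1602541), (nat_lit 1627331), (nat_lit 1625251), (nat_lit 1727168), (nat_lit 1716594), (nat_lit 1749323), (nat_lit 1739368)]⟩, ⟨(nat_lit 5), false, false, false, (nat_lit 174), (nat_lit 2236), (nat_lit 3163), [(nat_lit 1354183), (nat_lit 1365632), (nat_lit 1398366), (nat_lit 1411053), (nat_lit 1461034), (nat_lit 1465591), (nat_lit 1505217), (nat_lit 1511013)]⟩, (nat_lit 5091901), (nat_lit 38896532), (nat_lit 18812940), (nat_lit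 9290528), (nat_lit 5), (nat_lit 0), [], [⟨(nat_lit 0), (nat_lit 100), (nat_lit 54), (nat_lit 96), (nat_lit 223104113)⟩], [⟨(nat_lit 0), (nat_lit 100), (nat_lit 99), (nat_lit 45), (nat_lit 128576069)⟩], [],
 ⟨⟨[(nat_lit 40), (nat_lit 80), (nat_lit 100)], [(nat_lit 0), (nat_lit 1598), (nat_lit 2533)], [((nat_lit 0), (nat_lit 0), (nat_lit 0)), ((nat_lit 1000), (nat_lit 625), (nat_lit 623)), ((nat_lit 1000), (nat_lit 604), (nat_lit 730))], ((nat_lit 61), (nat_lit 100), (nat_lit 70))⟩, (nat_lit 147696), (nat_lit 242), (nat_lit 242), (nat_lit 0), (nat_lit 426773), [(nat_lit 1397087269), (nat_lit 959220357), (nat_lit 667216000)], [(nat_lit 0), (nat_lit 0), (nat_lit 0)], [(nat_lit 22730845919), (nat_lit 23769134233), (nat_lit 25471926449), (nat_lit 26717204224), (nat_lit 23328553639), (nat_lit 24290789379), (nat_lit 25862871746), (nat_lit 26822029525)], (nat_lit 1271251), (nat_lit 1271251), (nat_lit 1271251), (nat_lit 1271251), (nat_lit 559688), (nat_lit 1100000),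 [(nat_lit 490000), (nat_lit 1100000), (nat_lit 1442501)], [(nat_lit 3), (nat_lit 50), (nat_lit 249), (nat_lit 40), (nat_lit 8)]⟩,
 ⟨⟨[(nat_lit 80), (nat_lit 120), (nat_lit 160)], [(nat_lit 0), (nat_lit 0), (nat_lit 2132)], [((nat_lit 0), (nat_lit 0), (nat_lit 0)), ((nat_lit 0), (nat_lit 0), (nat_lit 0)), ((nat_lit 858), (nat_lit 1000), (nat_lit 713))], ((nat_lit 100), (nat_lit 86), (nat_lit 71))⟩, (nat_lit 690081), (nat_lit 746), (nat_lit 746), (nat_lit 0), (nat_lit 1090821), [(nat_lit 764144000), (nat_lit 1298784000), (nat_lit 1935136000)], [], [(nat_lit 5169309152), (nat_lit 5219329925), (nat_lit 5381248972), (nat_lit 5450105739), (nat_lit 4214278104), (nat_lit 4253465674), (nat_lit 4371028384), (nat_lit 4392342438)], (nat_lit 1271251), (nat_lit 1271251), (nat_lit 1271251), (nat_lit 1271251), (nat_lit 0), (nat_lit 780000), [(nat_lit 1100000), (nat_lit 1785001), (nat_lit 1271251)], [(nat_lit 18), (nat_lit 59), (nat_lit 401), (nat_lit 175), (nat_lit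 10)]⟩,
 ⟨⟨[(nat_lit 100), (nat_lit 140), (nat_lit 180)], [(nat_lit 0), (nat_lit 508), (nat_lit 2854)], [((nat_lit 0), (nat_lit 0), (nat_lit 0)), ((nat_lit 1000), (nat_lit 1000), (nat_lit 198)), ((nat_lit 777), (nat_lit 1000), (nat_lit 712))], ((nat_lit 100), (nat_lit 79), (nat_lit 70))⟩, (nat_lit 230008), (nat_lit 300), (nat_lit 979), (nat_lit 6687500), (nat_lit 1252563), [(nat_lit 668750000), (nat_lit 1053094000), (nat_lit 1504206000)], [], [(nat_lit 5576866745), (nat_lit 5549281438), (nat_lit 5158165848), (nat_lit 5122112632), (nat_lit 4445302746), (nat_lit 4413445209), (nat_lit 4568963936), (nat_lit 4012303746)], (nat_lit 1271251), (nat_lit 1271251), (nat_lit 559688), (nat_lit 1100000), (nat_lit 0), (nat_lit 780000), [(nat_lit 1412501), (nat_lit 1271251), (nat_lit 1271251)], [(nat_lit 24), (nat_lit 63), (nat_lit 373), (nat_lit 150), (nat_lit 9)]⟩⟩)) (.trZ (nat_lit 1) (nat_lit 2) (nat_lit 5) (nat_lit 100) (nat_lit 96) (nat_lit 40) (nat_lit 10) (.leaf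 ⟨(nat_lit 0), (nat_lit 615), (nat_lit 0), (nat_lit 385), (nat_lit 0), (nat_lit 4485), (nat_lit 7870), (nat_lit 5554), (nat_lit 0), (nat_lit 12065), (nat_lit 0), [], Pd.none, Pd.none, (nat_lit 0), (nat_lit 1), (nat_lit 0), (nat_lit 0), (nat_lit 5), (nat_lit 0), [], [⟨(nat_lit 0), (nat_lit 100), (nat_lit 54), (nat_lit 99), (nat_lit 537077074)⟩], [⟨(nat_lit 0), (nat_lit 100), (nat_lit 96), (nat_lit 40), (nat_lit 374839395)⟩], [],
 ⟨⟨[(nat_lit 40), (nat_lit 80), (nat_lit 100)], [(nat_lit 0), (nat_lit 1598), (nat_lit 2533)], [((nat_lit 0), (nat_lit 0), (nat_lit 0)), ((nat_lit 1000), (nat_lit 625), (nat_lit 623)), ((nat_lit 1000), (nat_lit 604), (nat_lit 730))], ((nat_lit 61), (nat_lit 100), (nat_lit 70))⟩, (nat_lit 2125950), (nat_lit 259), (nat_lit 259), (nat_lit 0), (nat_lit 482291), [(nat_lit 2032000004), (nat_lit 4814855042), (nat_lit 6250000000)], [], [(nat_lit 22722229160), (nat_lit 24513600322), (nat_lit 27001188042), (nat_lit 28512359374), (nat_lit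 23239476940), (nat_lit 24461268510), (nat_lit 26759603910), (nat_lit 28143547525)], (nat_lit 1271251), (nat_lit 1271251), (nat_lit 1271251), (nat_lit 1271251), (nat_lit 559688), (nat_lit 1100000), [(nat_lit 490000), (nat_lit 1100000), (nat_lit 1442501)], [(nat_lit 3), (nat_lit 50), (nat_lit 249), (nat_lit 40), (nat_lit 8)]⟩,
 ⟨⟨[(nat_lit 80), (nat_lit 120), (nat_lit 160)], [(nat_lit 0), (nat_lit 528), (nat_lit 2577)], [((nat_lit 0), (nat_lit 0), (nat_lit 0)), ((nat_lit 1000), (nat_lit 959), (nat_lit 206)), ((nat_lit 929), (nat_lit 1000), (nat_lit 742))], ((nat_lit 100), (nat_lit 94), (nat_lit 73))⟩, (nat_lit 8729743), (nat_lit 714), (nat_lit 714), (nat_lit 0), (nat_lit 1032941), [(nat_lit 4688000000), (nat_lit 7968000000), (nat_lit 11872000000)], [], [(nat_lit 23786282577), (nat_lit 24506479183), (nat_lit 28110658987), (nat_lit 29879401803), (nat_lit 21156083800), (nat_lit 21781344380), (nat_lit 23519560070), (nat_lit 24007254600)], (nat_lit 1271251),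 (nat_lit 1271251), (nat_lit 1271251), (nat_lit 1271251), (nat_lit 54688), (nat_lit 780000), [(nat_lit 1100000), (nat_lit 1785001), (nat_lit 1271251)], [(nat_lit 18), (nat_lit 59), (nat_lit 428), (nat_lit 200), (nat_lit 11)]⟩,
 ⟨⟨[(nat_lit 100), (nat_lit 140), (nat_lit 180)], [(nat_lit 0), (nat_lit 508), (nat_lit 2854)], [((nat_lit 0), (nat_lit 0), (nat_lit 0)), ((nat_lit 1000), (nat_lit 1000), (nat_lit 198)), ((nat_lit 777), (nat_lit 1000), (nat_lit 712))], ((nat_lit 100), (nat_lit 79), (nat_lit 70))⟩, (nat_lit 849476), (nat_lit 300), (nat_lit 1008), (nat_lit 24062500), (nat_lit 1344350), [(nat_lit 2406250000), (nat_lit 3789170000), (nat_lit 5412330000)], [], [(nat_lit 19106029091), (nat_lit 19702276797), (nat_lit 17603362048), (nat_lit 18092038593), (nat_lit 15057814978), (nat_lit 15349145580), (nat_lit 16311924096), (nat_lit 13866306526)], (nat_lit 1271251), (nat_lit 1271251), (nat_lit 559688), (nat_lit 1100000), (nat_lit 54688), (nat_lit 780000),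 [(nat_lit 1412501), (nat_lit 1271251), (nat_lit 1271251)], [(nat_lit 24), (nat_lit 63), (nat_lit 373), (nat_lit 150), (nat_lit 9)]⟩⟩))) (.spl (nat_lit 1) (nat_lit 260) (.ord (.leaf ⟨(nat_lit 853), (nat_lit 39), (nat_lit 0), (nat_lit 108), (nat_lit 0), (nat_lit 3273), (nat_lit 1558), (nat_lit 1428), (nat_lit 0), (nat_lit 194912), (nat_lit 482050), [((nat_lit 380), [((nat_lit 25), (nat_lit 0), (nat_lit 85)), ((nat_lit 41), (nat_lit 2), (nat_lit 768))])], ⟨(nat_lit 6), false, true, true, (nat_lit 270), (nat_lit 2236), (nat_lit 3163), [(nat_lit 1605240), (nat_lit 1602541), (nat_lit 1627331), (nat_lit 1625251), (nat_lit 1727168), (nat_lit 1716594), (nat_lit 1749323), (nat_lit 1739368)]⟩, ⟨(nat_lit 5), false, false, false, (nat_lit 218), (nat_lit 2236), (nat_lit 3163), [(nat_lit 1461034), (nat_lit 1465591), (nat_lit 1505217), (nat_lit 1511013), (nat_lit 1583107), (nat_lit 1579788), (nat_lit 1627331), (nat_lit 1625251)]⟩, (nat_lit 5400972), (nat_lit 36411944),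 (nat_lit 17904393), (nat_lit 12683663), (nat_lit 5), (nat_lit 0), [], [], [⟨(nat_lit 0), (nat_lit 100), (nat_lit 99), (nat_lit 45), (nat_lit 94001535)⟩], [⟨(nat_lit 0), (nat_lit 100), (nat_lit 92), (nat_lit 40), (nat_lit 55335072)⟩],
 ⟨⟨[(nat_lit 40), (nat_lit 80), (nat_lit 100)], [(nat_lit 0), (nat_lit 1598), (nat_lit 2533)], [((nat_lit 0), (nat_lit 0), (nat_lit 0)), ((nat_lit 1000), (nat_lit 625), (nat_lit 623)), ((nat_lit 1000), (nat_lit 604), (nat_lit 730))], ((nat_lit 61), (nat_lit 100), (nat_lit 70))⟩, (nat_lit 55092), (nat_lit 218), (nat_lit 218), (nat_lit 0), (nat_lit 426773), [(nat_lit 1388285203), (nat_lit 850756586), (nat_lit 550120800)], [(nat_lit 0), (nat_lit 0), (nat_lit 0)], [(nat_lit 23451434013), (nat_lit 24412234985), (nat_lit 25983571665), (nat_lit 26810350623), (nat_lit 25037273085), (nat_lit 25889433663), (nat_lit 27365777360), (nat_lit 28292357792)], (nat_lit 1271251), (nat_lit 1271251), (nat_lit 1271251), (nat_lit 1271251), (nat_lit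 1100000), (nat_lit 1785001), [(nat_lit 490000), (nat_lit 1100000), (nat_lit 1442501)], [(nat_lit 3), (nat_lit 50), (nat_lit 272), (nat_lit 60), (nat_lit 9)]⟩,
 ⟨⟨[(nat_lit 80), (nat_lit 120), (nat_lit 160)], [(nat_lit 0), (nat_lit 0), (nat_lit 2132)], [((nat_lit 0), (nat_lit 0), (nat_lit 0)), ((nat_lit 0), (nat_lit 0), (nat_lit 0)), ((nat_lit 858), (nat_lit 1000), (nat_lit 713))], ((nat_lit 100), (nat_lit 86), (nat_lit 71))⟩, (nat_lit 630117), (nat_lit 746), (nat_lit 746), (nat_lit 0), (nat_lit 1090821), [(nat_lit 689136000), (nat_lit 1171296000), (nat_lit 1745184000)], [], [(nat_lit 4633271032), (nat_lit 4678335187), (nat_lit 4831777468), (nat_lit 4902975930), (nat_lit 3767159884), (nat_lit 3802422093), (nat_lit 3908208720), (nat_lit 3932048066)], (nat_lit 1271251), (nat_lit 1271251), (nat_lit 1271251), (nat_lit 1271251), (nat_lit 0), (nat_lit 780000), [(nat_lit 1100000), (nat_lit 1785001), (nat_lit 1271251)], [(nat_lit 18), (nat_lit 59), (nat_lit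 401), (nat_lit 175), (nat_lit 10)]⟩,
 ⟨⟨[(nat_lit 100), (nat_lit 140), (nat_lit 180)], [(nat_lit 0), (nat_lit 508), (nat_lit 2854)], [((nat_lit 0), (nat_lit 0), (nat_lit 0)), ((nat_lit 1000), (nat_lit 1000), (nat_lit 198)), ((nat_lit 777), (nat_lit 1000), (nat_lit 712))], ((nat_lit 100), (nat_lit 79), (nat_lit 70))⟩, (nat_lit 232157), (nat_lit 300), (nat_lit 943), (nat_lit 6750002), (nat_lit 1252563), [(nat_lit 675000000), (nat_lit 1062936000), (nat_lit 1518264000)], [], [(nat_lit 5208225948), (nat_lit 5171596800), (nat_lit 5052131592), (nat_lit 5087766252), (nat_lit 4093762062), (nat_lit 4052863938), (nat_lit 3892568262), (nat_lit 3899994324)], (nat_lit 1271251), (nat_lit 1271251), (nat_lit 1100000), (nat_lit 1785001), (nat_lit 0), (nat_lit 780000), [(nat_lit 1412501), (nat_lit 1271251), (nat_lit 1271251)], [(nat_lit 24), (nat_lit 63), (nat_lit 401), (nat_lit 175), (nat_lit 9)]⟩⟩)) (.trZ (nat_lit 1) (nat_lit 2) (nat_lit 5) (nat_lit 100) (nat_lit 96)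 (nat_lit 40) (nat_lit 10) (.leaf ⟨(nat_lit 0), (nat_lit 573), (nat_lit 0), (nat_lit 427), (nat_lit 0), (nat_lit 4306), (nat_lit 7875), (nat_lit 5679), (nat_lit 0), (nat_lit 58148), (nat_lit 0), [], Pd.none, Pd.none, (nat_lit 0), (nat_lit 1), (nat_lit 0), (nat_lit 0), (nat_lit 5), (nat_lit 0), [], [], [⟨(nat_lit 0), (nat_lit 100), (nat_lit 97), (nat_lit 59), (nat_lit 310224229)⟩, ⟨(nat_lit 0), (nat_lit 100), (nat_lit 96), (nat_lit 40), (nat_lit 212753905)⟩], [],
 ⟨⟨[(nat_lit 40), (nat_lit 80), (nat_lit 100)], [(nat_lit 0), (nat_lit 1598), (nat_lit 2533)], [((nat_lit 0), (nat_lit 0), (nat_lit 0)), ((nat_lit 1000), (nat_lit 625), (nat_lit 623)), ((nat_lit 1000), (nat_lit 604), (nat_lit 730))], ((nat_lit 61), (nat_lit 100), (nat_lit 70))⟩, (nat_lit 2472530), (nat_lit 235), (nat_lit 235), (nat_lit 0), (nat_lit 482291), [(nat_lit 2032000012), (nat_lit 4885735993), (nat_lit 6250000000)], [], [(nat_lit 23037546712), (nat_lit 24317322796), (nat_lit 26591020636),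 (nat_lit 27946421090), (nat_lit 24912030012), (nat_lit 26179719412), (nat_lit 28126311752), (nat_lit 29306664624)], (nat_lit 1271251), (nat_lit 1271251), (nat_lit 1271251), (nat_lit 1271251), (nat_lit 1100000), (nat_lit 1785001), [(nat_lit 490000), (nat_lit 1100000), (nat_lit 1442501)], [(nat_lit 3), (nat_lit 50), (nat_lit 272), (nat_lit 60), (nat_lit 9)]⟩,
 ⟨⟨[(nat_lit 80), (nat_lit 120), (nat_lit 160)], [(nat_lit 0), (nat_lit 528), (nat_lit 2577)], [((nat_lit 0), (nat_lit 0), (nat_lit 0)), ((nat_lit 1000), (nat_lit 959), (nat_lit 206)), ((nat_lit 929), (nat_lit 1000), (nat_lit 742))], ((nat_lit 100), (nat_lit 94), (nat_lit 73))⟩, (nat_lit 8559913), (nat_lit 714), (nat_lit 714), (nat_lit 0), (nat_lit 1032941), [(nat_lit 4688000000), (nat_lit 7968000000), (nat_lit 11872000000)], [], [(nat_lit 23763525704), (nat_lit 24483896282), (nat_lit 28118098579), (nat_lit 29887524782), (nat_lit 21130582500), (nat_lit 21755970750), (nat_lit 23494496875), (nat_lit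 23982246500)], (nat_lit 1271251), (nat_lit 1271251), (nat_lit 1271251), (nat_lit 1271251), (nat_lit 54688), (nat_lit 780000), [(nat_lit 1100000), (nat_lit 1785001), (nat_lit 1271251)], [(nat_lit 18), (nat_lit 59), (nat_lit 428), (nat_lit 200), (nat_lit 11)]⟩,
 ⟨⟨[(nat_lit 100), (nat_lit 140), (nat_lit 180)], [(nat_lit 0), (nat_lit 508), (nat_lit 2854)], [((nat_lit 0), (nat_lit 0), (nat_lit 0)), ((nat_lit 1000), (nat_lit 1000), (nat_lit 198)), ((nat_lit 777), (nat_lit 1000), (nat_lit 712))], ((nat_lit 100), (nat_lit 79), (nat_lit 70))⟩, (nat_lit 951230), (nat_lit 300), (nat_lit 973), (nat_lit 26687500), (nat_lit 1344350), [(nat_lit 2668750000), (nat_lit 4202534000), (nat_lit 6002766000)], [], [(nat_lit 20099611442), (nat_lit 20222583828), (nat_lit 19478542691), (nat_lit 19820255574), (nat_lit 16106100626), (nat_lit 15956911541), (nat_lit 15302609814), (nat_lit 15546527278)], (nat_lit 1271251), (nat_lit 1271251), (nat_lit 1100000), (nat_lit 1785001),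 (nat_lit 54688), (nat_lit 780000), [(nat_lit 1412501), (nat_lit 1271251), (nat_lit 1271251)], [(nat_lit 24), (nat_lit 63), (nat_lit 401), (nat_lit 175), (nat_lit 9)]⟩⟩)))) (.spl (nat_lit 1) (nat_lit 260) (.ord (.trX (nat_lit 3) (nat_lit 0) (nat_lit 1) (nat_lit 63) (nat_lit 61) (nat_lit 100) (nat_lit 370) (.spl (nat_lit 6) (nat_lit 28) (.spl (nat_lit 1) (nat_lit 250) (.ord (.trX (nat_lit 3) (nat_lit 0) (nat_lit 1) (nat_lit 62) (nat_lit 65) (nat_lit 100) (nat_lit 360) (.leaf ⟨(nat_lit 834), (nat_lit 38), (nat_lit 0), (nat_lit 128), (nat_lit 0), (nat_lit 3389), (nat_lit 1627), (nat_lit 1306), (nat_lit 0), (nat_lit 59836), (nat_lit 469950), [((nat_lit 380), [((nat_lit 24), (nat_lit 0), (nat_lit 87)), ((nat_lit 41), (nat_lit 2), (nat_lit 747))])], ⟨(nat_lit 8), false, true, true, (nat_lit 303), (nat_lit 2236), (nat_lit 3163), [(nat_lit 1727168), (nat_lit 1716594), (nat_lit 1738246), (nat_lit 1727981), (nat_lit 1788122), (nat_lit 1773609), (nat_lit 1799199),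 (nat_lit 1784996)]⟩, ⟨(nat_lit 5), false, false, false, (nat_lit 195), (nat_lit 2236), (nat_lit 3163), [(nat_lit 1354183), (nat_lit 1365632), (nat_lit 1387320), (nat_lit 1399698), (nat_lit 1583107), (nat_lit 1579788), (nat_lit 1616285), (nat_lit 1613896)]⟩, (nat_lit 5342826), (nat_lit 35358145), (nat_lit 21235221), (nat_lit 10406634), (nat_lit 5), (nat_lit 0), [⟨(nat_lit 1), (nat_lit 73), (nat_lit 54), (nat_lit 100), (nat_lit 385202740)⟩], [⟨(nat_lit 0), (nat_lit 100), (nat_lit 54), (nat_lit 94), (nat_lit 117396183)⟩], [⟨(nat_lit 0), (nat_lit 100), (nat_lit 99), (nat_lit 40), (nat_lit 120783749)⟩, ⟨(nat_lit 0), (nat_lit 100), (nat_lit 98), (nat_lit 30), (nat_lit 19220116)⟩], [],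
 ⟨⟨[(nat_lit 40), (nat_lit 60), (nat_lit 80)], [(nat_lit 0), (nat_lit 832), (nat_lit 1534)], [((nat_lit 0), (nat_lit 0), (nat_lit 0)), ((nat_lit 1000), (nat_lit 659), (nat_lit 528)), ((nat_lit 1000), (nat_lit 650), (nat_lit 549))], ((nat_lit 65), (nat_lit 100), (nat_lit 55))⟩, (nat_lit 199947), (nat_lit 210), (nat_lit 210), (nat_lit 0), (nat_lit 395827), [(nat_lit 1398448004), (nat_lit 1102392949), (nat_lit 887153600)], [(nat_lit 0), (nat_lit 0), (nat_lit 0)], [(nat_lit 25638692583), (nat_lit 26872784337), (nat_lit 27917854147), (nat_lit 29097230393), (nat_lit 27578530344), (nat_lit 28406258656), (nat_lit 29266328863), (nat_lit 30227296701)], (nat_lit 1271251), (nat_lit 1271251), (nat_lit 1271251), (nat_lit 1271251), (nat_lit 559688), (nat_lit 1745625), [(nat_lit 490000), (nat_lit 780000), (nat_lit 1100000)], [(nat_lit 2), (nat_lit 44), (nat_lit 272), (nat_lit 60), (nat_lit 10)]⟩,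
 ⟨⟨[(nat_lit 80), (nat_lit 120), (nat_lit 140)], [(nat_lit 0), (nat_lit 0), (nat_lit 1164)], [((nat_lit 0), (nat_lit 0), (nat_lit 0)), ((nat_lit 0), (nat_lit 0), (nat_lit 0)), ((nat_lit 941), (nat_lit 1000), (nat_lit 576))], ((nat_lit 100), (nat_lit 96), (nat_lit 52))⟩, (nat_lit 764207), (nat_lit 656), (nat_lit 656), (nat_lit 0), (nat_lit 1048634), [(nat_lit 778208000), (nat_lit 1322688000), (nat_lit 1633772000)], [], [(nat_lit 5993658272), (nat_lit 6009959041), (nat_lit 6178045644), (nat_lit 6230675961), (nat_lit 5067278584), (nat_lit 5079399820), (nat_lit 5225236936), (nat_lit 5232755185)], (nat_lit 1271251), (nat_lit 1271251), (nat_lit 1271251), (nat_lit 1271251), (nat_lit 0), (nat_lit 780000), [(nat_lit 1100000), (nat_lit 1785001), (nat_lit 1271251)], [(nat_lit 17), (nat_lit 58), (nat_lit 317), (nat_lit 100), (nat_lit 9)]⟩,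
 ⟨⟨[(nat_lit 100), (nat_lit 140), (nat_lit 160)], [(nat_lit 0), (nat_lit 508), (nat_lit 1689)], [((nat_lit 0), (nat_lit 0), (nat_lit 0)), ((nat_lit 1000), (nat_lit 1000), (nat_lit 198)), ((nat_lit 811), (nat_lit 1000), (nat_lit 671))], ((nat_lit 100), (nat_lit 91), (nat_lit 51))⟩, (nat_lit 372497), (nat_lit 300), (nat_lit 885), (nat_lit 8000000), (nat_lit 1197163), [(nat_lit 800000000), (nat_lit 1259776000), (nat_lit 1519616000)], [], [(nat_lit 6511629370), (nat_lit 6340065788), (nat_lit 5858294088), (nat_lit 5797647976), (nat_lit 5549922631), (nat_lit 5498567055), (nat_lit 5029649854), (nat_lit 4967635704)], (nat_lit 1271251), (nat_lit 1271251), (nat_lit 559688), (nat_lit 1745625), (nat_lit 0), (nat_lit 780000), [(nat_lit 1412501), (nat_lit 1271251), (nat_lit 1271251)], [(nat_lit 23), (nat_lit 62), (nat_lit 401), (nat_lit 175), (nat_lit 11)]⟩⟩))) (.trZ (nat_lit 1) (nat_lit 2) (nat_lit 5) (nat_lit 100) (nat_lit 97) (nat_lit 35) (nat_lit 10) (.leaf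 ⟨(nat_lit 0), (nat_lit 432), (nat_lit 0), (nat_lit 568), (nat_lit 0), (nat_lit 4329), (nat_lit 7681), (nat_lit 5906), (nat_lit 0), (nat_lit 197358), (nat_lit 0), [], Pd.none, Pd.none, (nat_lit 0), (nat_lit 1), (nat_lit 0), (nat_lit 0), (nat_lit 5), (nat_lit 0), [⟨(nat_lit 1), (nat_lit 70), (nat_lit 55), (nat_lit 100), (nat_lit 694677042)⟩], [⟨(nat_lit 0), (nat_lit 100), (nat_lit 54), (nat_lit 96), (nat_lit 557680929)⟩], [⟨(nat_lit 0), (nat_lit 100), (nat_lit 97), (nat_lit 35), (nat_lit 577687495)⟩], [],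
 ⟨⟨[(nat_lit 40), (nat_lit 60), (nat_lit 80)], [(nat_lit 0), (nat_lit 832), (nat_lit 1534)], [((nat_lit 0), (nat_lit 0), (nat_lit 0)), ((nat_lit 1000), (nat_lit 659), (nat_lit 528)), ((nat_lit 1000), (nat_lit 650), (nat_lit 549))], ((nat_lit 65), (nat_lit 100), (nat_lit 55))⟩, (nat_lit 1398829), (nat_lit 219), (nat_lit 219), (nat_lit 0), (nat_lit 419702), [(nat_lit 2032000027), (nat_lit 3282006610), (nat_lit 4688000000)], [], [(nat_lit 27318261193), (nat_lit 28278989204), (nat_lit 30100009548), (nat_lit 31381285128), (nat_lit 28693438042), (nat_lit 29505388518), (nat_lit 30801643887), (nat_lit 31833672810)], (nat_lit 1271251), (nat_lit 1271251), (nat_lit 1271251), (nat_lit 1271251), (nat_lit 559688), (nat_lit 1745625), [(nat_lit 490000), (nat_lit 780000), (nat_lit 1100000)], [(nat_lit 2), (nat_lit 44), (nat_lit 272), (nat_lit 60), (nat_lit 10)]⟩,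
 ⟨⟨[(nat_lit 80), (nat_lit 120), (nat_lit 140)], [(nat_lit 0), (nat_lit 264), (nat_lit 1360)], [((nat_lit 0), (nat_lit 0), (nat_lit 0)), ((nat_lit 1000), (nat_lit 979), (nat_lit 103)), ((nat_lit 951), (nat_lit 1000), (nat_lit 628))], ((nat_lit 100), (nat_lit 99), (nat_lit 53))⟩, (nat_lit 12911699), (nat_lit 634), (nat_lit 634), (nat_lit 0), (nat_lit 1016366), [(nat_lit 4688000000), (nat_lit 7968000000), (nat_lit 9842000000)], [], [(nat_lit 28113216212), (nat_lit 28407703927), (nat_lit 33705719700), (nat_lit 34400252176), (nat_lit 24870693340), (nat_lit 25028803811), (nat_lit 27089689932), (nat_lit 27732977364)], (nat_lit 1271251), (nat_lit 1271251), (nat_lit 1271251), (nat_lit 1271251), (nat_lit 54688), (nat_lit 780000), [(nat_lit 1100000), (nat_lit 1785001), (nat_lit 1271251)], [(nat_lit 17), (nat_lit 58), (nat_lit 317), (nat_lit 100), (nat_lit 8)]⟩,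
 ⟨⟨[(nat_lit 100), (nat_lit 140), (nat_lit 160)], [(nat_lit 0), (nat_lit 508), (nat_lit 1689)], [((nat_lit 0), (nat_lit 0), (nat_lit 0)), ((nat_lit 1000), (nat_lit 1000), (nat_lit 198)), ((nat_lit 811), (nat_lit 1000), (nat_lit 671))], ((nat_lit 100), (nat_lit 91), (nat_lit 51))⟩, (nat_lit 1220976), (nat_lit 300), (nat_lit 893), (nat_lit 35500002), (nat_lit 1233403), [(nat_lit 3550000000), (nat_lit 5590256000), (nat_lit 6743296000)], [], [(nat_lit 27538617767), (nat_lit 27289154353), (nat_lit 25122741981), (nat_lit 24965104144), (nat_lit 24100487911), (nat_lit 23834817397), (nat_lit 21725761194), (nat_lit 21392928782)], (nat_lit 1271251), (nat_lit 1271251), (nat_lit 559688), (nat_lit 1745625), (nat_lit 54688), (nat_lit 780000), [(nat_lit 1412501), (nat_lit 1271251), (nat_lit 1271251)], [(nat_lit 23), (nat_lit 62), (nat_lit 401), (nat_lit 175), (nat_lit 11)]⟩⟩))) (.leaf ⟨(nat_lit 0), (nat_lit 357), (nat_lit 0), (nat_lit 643), (nat_lit 0), (nat_lit 4048),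 (nat_lit 9066), (nat_lit 7584), (nat_lit 0), (nat_lit 170614), (nat_lit 0), [], Pd.none, Pd.none, (nat_lit 0), (nat_lit 1), (nat_lit 0), (nat_lit 0), (nat_lit 5), (nat_lit 0), [⟨(nat_lit 1), (nat_lit 71), (nat_lit 54), (nat_lit 100), (nat_lit 94818072)⟩], [⟨(nat_lit 0), (nat_lit 100), (nat_lit 54), (nat_lit 96), (nat_lit 718883664)⟩], [⟨(nat_lit 0), (nat_lit 100), (nat_lit 98), (nat_lit 30), (nat_lit 806973619)⟩], [],
 ⟨⟨[(nat_lit 40), (nat_lit 80), (nat_lit 100)], [(nat_lit 0), (nat_lit 1598), (nat_lit 2533)], [((nat_lit 0), (nat_lit 0), (nat_lit 0)), ((nat_lit 1000), (nat_lit 625), (nat_lit 623)), ((nat_lit 1000), (nat_lit 604), (nat_lit 730))], ((nat_lit 61), (nat_lit 100), (nat_lit 70))⟩, (nat_lit 1704212), (nat_lit 188), (nat_lit 188), (nat_lit 0), (nat_lit 228171), [(nat_lit 2032000016), (nat_lit 4688000194), (nat_lit 6250000000)], [], [(nat_lit 26916729938), (nat_lit 27858623706), (nat_lit 29623963478), (nat_lit 30864740399), (nat_lit 28313876922),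 (nat_lit 29179367080), (nat_lit 30486316716), (nat_lit 31489562422)], (nat_lit 1271251), (nat_lit 1271251), (nat_lit 1271251), (nat_lit 1271251), (nat_lit 559688), (nat_lit 1745625), [(nat_lit 490000), (nat_lit 1100000), (nat_lit 1442501)], [(nat_lit 3), (nat_lit 50), (nat_lit 272), (nat_lit 60), (nat_lit 9)]⟩,
 ⟨⟨[(nat_lit 80), (nat_lit 120), (nat_lit 160)], [(nat_lit 0), (nat_lit 0), (nat_lit 2132)], [((nat_lit 0), (nat_lit 0), (nat_lit 0)), ((nat_lit 0), (nat_lit 0), (nat_lit 0)), ((nat_lit 858), (nat_lit 1000), (nat_lit 713))], ((nat_lit 100), (nat_lit 86), (nat_lit 71))⟩, (nat_lit 2992928), (nat_lit 510), (nat_lit 510), (nat_lit 0), (nat_lit 560295), [(nat_lit 4688000000), (nat_lit 7968000000), (nat_lit 11872000000)], [], [(nat_lit 35761562480), (nat_lit 36380767748), (nat_lit 38584812407), (nat_lit 39385102404), (nat_lit 30203698040), (nat_lit 30738904826), (nat_lit 32692711775), (nat_lit 33110021885)], (nat_lit 1271251), (nat_lit 1271251), (nat_lit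 1271251), (nat_lit 1271251), (nat_lit 0), (nat_lit 780000), [(nat_lit 1100000), (nat_lit 1785001), (nat_lit 1271251)], [(nat_lit 18), (nat_lit 59), (nat_lit 317), (nat_lit 100), (nat_lit 8)]⟩,
 ⟨⟨[(nat_lit 100), (nat_lit 140), (nat_lit 180)], [(nat_lit 0), (nat_lit 508), (nat_lit 2854)], [((nat_lit 0), (nat_lit 0), (nat_lit 0)), ((nat_lit 1000), (nat_lit 1000), (nat_lit 198)), ((nat_lit 777), (nat_lit 1000), (nat_lit 712))], ((nat_lit 100), (nat_lit 79), (nat_lit 70))⟩, (nat_lit 1382197), (nat_lit 300), (nat_lit 678), (nat_lit 40187500), (nat_lit 633283), [(nat_lit 4018750000), (nat_lit 6328406000), (nat_lit 9039294000)], [], [(nat_lit 34553512172), (nat_lit 34458039157), (nat_lit 31401731795), (nat_lit 31160509201), (nat_lit 28601867145), (nat_lit 28482680308), (nat_lit 25599364659), (nat_lit 25340165477)], (nat_lit 1271251), (nat_lit 1271251), (nat_lit 559688), (nat_lit 1745625), (nat_lit 0), (nat_lit 780000), [(nat_lit 1412501), (nat_lit 1271251),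 (nat_lit 1271251)], [(nat_lit 24), (nat_lit 63), (nat_lit 401), (nat_lit 175), (nat_lit 10)]⟩⟩)))) (.trZ (nat_lit 1) (nat_lit 2) (nat_lit 5) (nat_lit 100) (nat_lit 96) (nat_lit 40) (nat_lit 10) (.leaf ⟨(nat_lit 0), (nat_lit 608), (nat_lit 0), (nat_lit 392), (nat_lit 0), (nat_lit 4149), (nat_lit 6691), (nat_lit 4934), (nat_lit 0), (nat_lit 98865), (nat_lit 0), [], Pd.none, Pd.none, (nat_lit 0), (nat_lit 1), (nat_lit 0), (nat_lit 0), (nat_lit 5), (nat_lit 0), [⟨(nat_lit 1), (nat_lit 65), (nat_lit 56), (nat_lit 100), (nat_lit 33532758)⟩], [⟨(nat_lit 0), (nat_lit 100), (nat_lit 54), (nat_lit 99), (nat_lit 270358450)⟩], [⟨(nat_lit 0), (nat_lit 100), (nat_lit 96), (nat_lit 40), (nat_lit 418898826)⟩], [],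
 ⟨⟨[(nat_lit 40), (nat_lit 80), (nat_lit 100)], [(nat_lit 0), (nat_lit 1598), (nat_lit 2533)], [((nat_lit 0), (nat_lit 0), (nat_lit 0)), ((nat_lit 1000), (nat_lit 625), (nat_lit 623)), ((nat_lit 1000), (nat_lit 604), (nat_lit 730))], ((nat_lit 61), (nat_lit 100), (nat_lit 70))⟩, (nat_lit 1964638), (nat_lit 272), (nat_lit 272), (nat_lit 0), (nat_lit 482291), [(nat_lit 2032000013), (nat_lit 4734105338), (nat_lit 6250000000)], [], [(nat_lit 27080547249), (nat_lit 28009715932), (nat_lit 30442265093), (nat_lit 31658539674), (nat_lit 28622026549), (nat_lit 29500028255), (nat_lit 31121098121), (nat_lit 32105394333)], (nat_lit 1271251), (nat_lit 1271251), (nat_lit 1271251), (nat_lit 1271251), (nat_lit 559688), (nat_lit 1745625), [(nat_lit 490000), (nat_lit 1100000), (nat_lit 1442501)], [(nat_lit 3), (nat_lit 50), (nat_lit 272), (nat_lit 60), (nat_lit 9)]⟩,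
 ⟨⟨[(nat_lit 80), (nat_lit 120), (nat_lit 160)], [(nat_lit 0), (nat_lit 528), (nat_lit 2577)], [((nat_lit 0), (nat_lit 0), (nat_lit 0)), ((nat_lit 1000), (nat_lit 959), (nat_lit 206)), ((nat_lit 929), (nat_lit 1000), (nat_lit 742))], ((nat_lit 100), (nat_lit 94), (nat_lit 73))⟩, (nat_lit 7525719), (nat_lit 700), (nat_lit 700), (nat_lit 0), (nat_lit 1032941), [(nat_lit 4688000000), (nat_lit 7968000000), (nat_lit 11872000000)], [], [(nat_lit 31849461032), (nat_lit 32301520175), (nat_lit 34231939861), (nat_lit 34760969597), (nat_lit 29429461451), (nat_lit 29904164580), (nat_lit 31652290488), (nat_lit 32032834313)], (nat_lit 1271251), (nat_lit 1271251), (nat_lit 1271251), (nat_lit 1271251), (nat_lit 54688), (nat_lit 780000), [(nat_lit 1100000), (nat_lit 1785001), (nat_lit 1271251)], [(nat_lit 18), (nat_lit 59), (nat_lit 317), (nat_lit 100), (nat_lit 8)]⟩,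
 ⟨⟨[(nat_lit 100), (nat_lit 140), (nat_lit 180)], [(nat_lit 0), (nat_lit 508), (nat_lit 2854)], [((nat_lit 0), (nat_lit 0), (nat_lit 0)), ((nat_lit 1000), (nat_lit 1000), (nat_lit 198)), ((nat_lit 777), (nat_lit 1000), (nat_lit 712))], ((nat_lit 100), (nat_lit 79), (nat_lit 70))⟩, (nat_lit 842646), (nat_lit 300), (nat_lit 1008), (nat_lit 24500000), (nat_lit 1344350), [(nat_lit 2450000000), (nat_lit 3858064000), (nat_lit 5510736000)], [], [(nat_lit 20324470127), (nat_lit 20299960286), (nat_lit 18222352744), (nat_lit 18340309379), (nat_lit 16803198298), (nat_lit 16747640574), (nat_lit 14786487346), (nat_lit 14659259838)], (nat_lit 1271251), (nat_lit 1271251), (nat_lit 559688), (nat_lit 1745625), (nat_lit 54688), (nat_lit 780000), [(nat_lit 1412501), (nat_lit 1271251), (nat_lit 1271251)], [(nat_lit 24), (nat_lit 63), (nat_lit 401), (nat_lit 175), (nat_lit 10)]⟩⟩))))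
noncomputable def c17_121 : Tr Lf :=
 (.stt (nat_lit 3) (.leaf ⟨(nat_lit 0), (nat_lit 0), (nat_lit 0), (nat_lit 1000), (nat_lit 0), (nat_lit 4423), (nat_lit 7969), (nat_lit 13307), (nat_lit 0), (nat_lit 19224512287603), (nat_lit 0), [], Pd.none, Pd.none, (nat_lit 0), (nat_lit 1), (nat_lit 0), (nat_lit 0), (nat_lit 0), (nat_lit 0), [], [⟨(nat_lit 0), (nat_lit 92), (nat_lit 44), (nat_lit 100), (nat_lit 909953007)⟩], [], [],
 ⟨⟨[(nat_lit 40), (nat_lit 80), (nat_lit 100)], [(nat_lit 0), (nat_lit 1598), (nat_lit 2533)], [((nat_lit 0), (nat_lit 0), (nat_lit 0)), ((nat_lit 1000), (nat_lit 625), (nat_lit 623)), ((nat_lit 1000), (nat_lit 604), (nat_lit 730))], ((nat_lit 61), (nat_lit 100), (nat_lit 70))⟩, (nat_lit 2029934), (nat_lit 272), (nat_lit 272), (nat_lit 0), (nat_lit 482440), [(nat_lit 2032000001), (nat_lit 4764992304), (nat_lit 6250000000)], [], [(nat_lit 23317967276), (nat_lit 24442227511), (nat_lit 30927185498), (nat_lit 32180973402), (nat_lit 25208569139),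 (nat_lit 26269610746), (nat_lit 31443337054), (nat_lit 32454231885)], (nat_lit 1271251), (nat_lit 1271251), (nat_lit 1271251), (nat_lit 1271251), (nat_lit 559688), (nat_lit 1745625), [(nat_lit 490000), (nat_lit 1100000), (nat_lit 1442501)], [(nat_lit 3), (nat_lit 50), (nat_lit 272), (nat_lit 60), (nat_lit 9)]⟩,
 ⟨⟨[(nat_lit 80), (nat_lit 120), (nat_lit 160)], [(nat_lit 0), (nat_lit 0), (nat_lit 2132)], [((nat_lit 0), (nat_lit 0), (nat_lit 0)), ((nat_lit 0), (nat_lit 0), (nat_lit 0)), ((nat_lit 858), (nat_lit 1000), (nat_lit 713))], ((nat_lit 100), (nat_lit 86), (nat_lit 71))⟩, (nat_lit 1825333), (nat_lit 963), (nat_lit 963), (nat_lit 0), (nat_lit 1709576), [(nat_lit 4688000000), (nat_lit 7968000000), (nat_lit 11872000000)], [], [(nat_lit 44769438246), (nat_lit 44763209179), (nat_lit 45309719236), (nat_lit 45202212572), (nat_lit 45472869740), (nat_lit 43316177162), (nat_lit 43169372989), (nat_lit 42831297546)], (nat_lit 1271251), (nat_lit 1271251),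 (nat_lit 1271251), (nat_lit 1271251), (nat_lit 780000), (nat_lit 3072501), [(nat_lit 1100000), (nat_lit 1785001), (nat_lit 1271251)], [(nat_lit 18), (nat_lit 59), (nat_lit 538), (nat_lit 300), (nat_lit 13)]⟩,
 ⟨⟨[(nat_lit 100), (nat_lit 140), (nat_lit 180)], [(nat_lit 0), (nat_lit 508), (nat_lit 2854)], [((nat_lit 0), (nat_lit 0), (nat_lit 0)), ((nat_lit 1000), (nat_lit 1000), (nat_lit 198)), ((nat_lit 777), (nat_lit 1000), (nat_lit 712))], ((nat_lit 100), (nat_lit 79), (nat_lit 70))⟩, (nat_lit 14188699), (nat_lit 216), (nat_lit 216), (nat_lit 0), (nat_lit 0), [(nat_lit 6250000000), (nat_lit 9842000000), (nat_lit 14058000000)], [], [(nat_lit 6833366739), (nat_lit 13340332180), (nat_lit 10499825915), (nat_lit 15871799202), (nat_lit 38117519492), (nat_lit 41712555495), (nat_lit 35817412911), (nat_lit 38273613430)], (nat_lit 0), (nat_lit 0), (nat_lit 0), (nat_lit 0), (nat_lit 0), (nat_lit 0), [], [(nat_lit 24), (nat_lit 63), (nat_lit 483), (nat_lit 250),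 (nat_lit 11)]⟩⟩) (.leaf ⟨(nat_lit 321), (nat_lit 107), (nat_lit 0), (nat_lit 572), (nat_lit 0), (nat_lit 3736), (nat_lit 6650), (nat_lit 5253), (nat_lit 0), (nat_lit 13267), (nat_lit 115950), [((nat_lit 380), [((nat_lit 25), (nat_lit 0), (nat_lit 219)), ((nat_lit 41), (nat_lit 2), (nat_lit 102))])], ⟨(nat_lit 6), false, true, true, (nat_lit 292), (nat_lit 2236), (nat_lit 3163), [(nat_lit 1605240), (nat_lit 1602541), (nat_lit 1649422), (nat_lit 1647962), (nat_lit 1818598), (nat_lit 1802117), (nat_lit 1862908), (nat_lit 1847666)]⟩, ⟨(nat_lit 5), false, false, false, (nat_lit 202), (nat_lit 2236), (nat_lit 3163), [(nat_lit 1354183), (nat_lit 1365632), (nat_lit 1420458), (nat_lit 1433765), (nat_lit 1583107), (nat_lit 1579788), (nat_lit 1649422), (nat_lit 1647962)]⟩, (nat_lit 5364540), (nat_lit 35780216), (nat_lit 20144106), (nat_lit 11075678), (nat_lit 5), (nat_lit 0), [], [⟨(nat_lit 0), (nat_lit 100), (nat_lit 54), (nat_lit 99), (nat_lit 164591559)⟩],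 [], [],
 ⟨⟨[(nat_lit 40), (nat_lit 80), (nat_lit 100)], [(nat_lit 0), (nat_lit 1598), (nat_lit 2533)], [((nat_lit 0), (nat_lit 0), (nat_lit 0)), ((nat_lit 1000), (nat_lit 625), (nat_lit 623)), ((nat_lit 1000), (nat_lit 604), (nat_lit 730))], ((nat_lit 61), (nat_lit 100), (nat_lit 70))⟩, (nat_lit 4917052), (nat_lit 204), (nat_lit 204), (nat_lit 0), (nat_lit 250025), [(nat_lit 1687727202), (nat_lit 5482534627), (nat_lit 4634723200)], [(nat_lit 0), (nat_lit 0), (nat_lit 0)], [(nat_lit 22349187770), (nat_lit 23652334557), (nat_lit 29711344920), (nat_lit 30871075697), (nat_lit 24879401192), (nat_lit 25926220312), (nat_lit 30635387612), (nat_lit 31579591746)], (nat_lit 1271251), (nat_lit 1271251), (nat_lit 1271251), (nat_lit 1271251), (nat_lit 559688), (nat_lit 1745625), [(nat_lit 490000), (nat_lit 1100000), (nat_lit 1442501)], [(nat_lit 3), (nat_lit 50), (nat_lit 272), (nat_lit 60), (nat_lit 9)]⟩,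
 ⟨⟨[(nat_lit 80), (nat_lit 120), (nat_lit 160)], [(nat_lit 0), (nat_lit 0), (nat_lit 2132)], [((nat_lit 0), (nat_lit 0), (nat_lit 0)), ((nat_lit 0), (nat_lit 0), (nat_lit 0)), ((nat_lit 858), (nat_lit 1000), (nat_lit 713))], ((nat_lit 100), (nat_lit 86), (nat_lit 71))⟩, (nat_lit 3029327), (nat_lit 699), (nat_lit 699), (nat_lit 0), (nat_lit 1162554), [(nat_lit 3183152000), (nat_lit 5410272000), (nat_lit 8061088000)], [], [(nat_lit 18831477042), (nat_lit 19449116470), (nat_lit 21523685509), (nat_lit 22139166613), (nat_lit 30990641024), (nat_lit 25229626324), (nat_lit 27719661340), (nat_lit 28369231335)], (nat_lit 1271251), (nat_lit 1271251), (nat_lit 1271251), (nat_lit 1271251), (nat_lit 780000), (nat_lit 3072501), [(nat_lit 1100000), (nat_lit 1785001), (nat_lit 1271251)], [(nat_lit 18), (nat_lit 59), (nat_lit 538), (nat_lit 300), (nat_lit 13)]⟩,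
 ⟨⟨[(nat_lit 100), (nat_lit 140), (nat_lit 180)], [(nat_lit 0), (nat_lit 508), (nat_lit 2854)], [((nat_lit 0), (nat_lit 0), (nat_lit 0)), ((nat_lit 1000), (nat_lit 1000), (nat_lit 198)), ((nat_lit 777), (nat_lit 1000), (nat_lit 712))], ((nat_lit 100), (nat_lit 79), (nat_lit 70))⟩, (nat_lit 1533722), (nat_lit 300), (nat_lit 939), (nat_lit 35750000), (nat_lit 1347054), [(nat_lit 3575000000), (nat_lit 5629624000), (nat_lit 8041176000)], [], [(nat_lit 31729033395), (nat_lit 31246066544), (nat_lit 29308953530), (nat_lit 28766672188), (nat_lit 29205550025), (nat_lit 28549796087), (nat_lit 37973662681), (nat_lit 31089653458)], (nat_lit 1271251), (nat_lit 1271251), (nat_lit 559688), (nat_lit 1745625), (nat_lit 780000), (nat_lit 3072501), [(nat_lit 1412501), (nat_lit 1271251), (nat_lit 1271251)], [(nat_lit 24), (nat_lit 63), (nat_lit 483), (nat_lit 250), (nat_lit 11)]⟩⟩))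
noncomputable def c17_122 : Tr Lf :=
 (.spl (nat_lit 5) (nat_lit 120) (.spl (nat_lit 6) (nat_lit 28) (.spl (nat_lit 6) (nat_lit 16) (.spl (nat_lit 3) (nat_lit 160) (.leaf ⟨(nat_lit 554), (nat_lit 28), (nat_lit 0), (nat_lit 418), (nat_lit 0), (nat_lit 3874), (nat_lit 4153), (nat_lit 3979), (nat_lit 0), (nat_lit 4191295), (nat_lit 276400), [((nat_lit 380), [((nat_lit 24), (nat_lit 0), (nat_lit 160)), ((nat_lit 41), (nat_lit 2), (nat_lit 394))])], ⟨(nat_lit 6), false, false, false, (nat_lit 188), (nat_lit 2236), (nat_lit 3163), [(nat_lit 1406804), (nat_lit 1416903), (nat_lit 1450987), (nat_lit 1462324), (nat_lit 1483125), (nat_lit 1488302), (nat_lit 1527308), (nat_lit 1533723)]⟩, ⟨(nat_lit 6), false, true, true, (nat_lit 287), (nat_lit 2236), (nat_lit 3163), [(nat_lit 1583107), (nat_lit 1579788), (nat_lit 1649422), (nat_lit 1647962), (nat_lit 1796444), (nat_lit 1779343), (nat_lit 1862908), (nat_lit 1847666)]⟩, (nat_lit 5262107), (nat_lit 36782728), (nat_lit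 10158458), (nat_lit 20058814), (nat_lit 6), (nat_lit 0), [⟨(nat_lit 0), (nat_lit 98), (nat_lit 54), (nat_lit 100), (nat_lit 1326212041)⟩], [], [⟨(nat_lit 0), (nat_lit 100), (nat_lit 98), (nat_lit 30), (nat_lit 242034612)⟩], [],
 ⟨⟨[(nat_lit 40), (nat_lit 60)], [(nat_lit 0), (nat_lit 832)], [((nat_lit 0), (nat_lit 0), (nat_lit 0)), ((nat_lit 1000), (nat_lit 659), (nat_lit 528))], ((nat_lit 69), (nat_lit 100), (nat_lit 45))⟩, (nat_lit 3097322), (nat_lit 207), (nat_lit 207), (nat_lit 0), (nat_lit 473529), [(nat_lit 1556125623), (nat_lit 1864236800)], [(nat_lit 0), (nat_lit 0)], [(nat_lit 22209964563), (nat_lit 23855858581), (nat_lit 22666910243), (nat_lit 23969923084), (nat_lit 29867772941), (nat_lit 31020732250), (nat_lit 29648268031), (nat_lit 30737064742)], (nat_lit 1271251), (nat_lit 1271251), (nat_lit 704688), (nat_lit 1100000), (nat_lit 1271251), (nat_lit 1271251), [(nat_lit 490000), (nat_lit 780000)], [(nat_lit 1), (nat_lit 38), (nat_lit 249),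 (nat_lit 40), (nat_lit 12)]⟩,
 ⟨⟨[(nat_lit 80), (nat_lit 100), (nat_lit 120)], [(nat_lit 0), (nat_lit 0), (nat_lit 511)], [((nat_lit 0), (nat_lit 0), (nat_lit 0)), ((nat_lit 0), (nat_lit 0), (nat_lit 0)), ((nat_lit 1000), (nat_lit 997), (nat_lit 383))], ((nat_lit 100), (nat_lit 100), (nat_lit 40))⟩, (nat_lit 3140596), (nat_lit 677), (nat_lit 677), (nat_lit 0), (nat_lit 1142394), [(nat_lit 2090848000), (nat_lit 2787500000), (nat_lit 3553728000)], [], [(nat_lit 17554777967), (nat_lit 13244251563), (nat_lit 13637348440), (nat_lit 12525479386), (nat_lit 13762554265), (nat_lit 10946423624), (nat_lit 16107817840), (nat_lit 12271093708)], (nat_lit 1271251), (nat_lit 1271251), (nat_lit 704688), (nat_lit 1100000), (nat_lit 0), (nat_lit 780000), [(nat_lit 1100000), (nat_lit 1442501), (nat_lit 1271251)], [(nat_lit 16), (nat_lit 54), (nat_lit 289), (nat_lit 75), (nat_lit 10)]⟩,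
 ⟨⟨[(nat_lit 100), (nat_lit 120), (nat_lit 140)], [(nat_lit 0), (nat_lit 254), (nat_lit 778)], [((nat_lit 0), (nat_lit 0), (nat_lit 0)), ((nat_lit 1000), (nat_lit 1000), (nat_lit 198)), ((nat_lit 960), (nat_lit 1000), (nat_lit 392))], ((nat_lit 100), (nat_lit 96), (nat_lit 39))⟩, (nat_lit 1819174), (nat_lit 300), (nat_lit 799), (nat_lit 26125000), (nat_lit 1322669), [(nat_lit 2612500000), (nat_lit 3330624000), (nat_lit 4113956000)], [], [(nat_lit 17397801377), (nat_lit 17379607906), (nat_lit 17944871983), (nat_lit 17987781771), (nat_lit 15075734199), (nat_lit 15012064739), (nat_lit 15479608472), (nat_lit 15274739961)], (nat_lit 1271251), (nat_lit 1271251), (nat_lit 1271251), (nat_lit 1271251), (nat_lit 0), (nat_lit 780000), [(nat_lit 1412501), (nat_lit 1271251), (nat_lit 1271251)], [(nat_lit 22), (nat_lit 58), (nat_lit 428), (nat_lit 200), (nat_lit 12)]⟩⟩) (.leaf ⟨(nat_lit 107), (nat_lit 295), (nat_lit 0), (nat_lit 598), (nat_lit 0), (nat_lit 4204),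 (nat_lit 6587), (nat_lit 5785), (nat_lit 0), (nat_lit 47576155154), (nat_lit 193400), [((nat_lit 380), [((nat_lit 41), (nat_lit 2), (nat_lit 69)), ((nat_lit 41), (nat_lit 5), (nat_lit 38))])], ⟨(nat_lit 6), false, false, false, (nat_lit 227), (nat_lit 2236), (nat_lit 3163), [(nat_lit 1483125), (nat_lit 1488302), (nat_lit 1527308), (nat_lit 1533723), (nat_lit 1605240), (nat_lit 1602541), (nat_lit 1649422), (nat_lit 1647962)]⟩, ⟨(nat_lit 6), false, true, true, (nat_lit 287), (nat_lit 2236), (nat_lit 3163), [(nat_lit 1583107), (nat_lit 1579788), (nat_lit 1649422), (nat_lit 1647962), (nat_lit 1796444), (nat_lit 1779343), (nat_lit 1862908), (nat_lit 1847666)]⟩, (nat_lit 5502611), (nat_lit 34764918), (nat_lit 13057123), (nat_lit 19177959), (nat_lit 6), (nat_lit 0), [], [], [⟨(nat_lit 0), (nat_lit 100), (nat_lit 99), (nat_lit 55), (nat_lit 4561624)⟩, ⟨(nat_lit 0), (nat_lit 100), (nat_lit 98), (nat_lit 30), (nat_lit 455785479)⟩], [],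
 ⟨⟨[(nat_lit 40), (nat_lit 60)], [(nat_lit 0), (nat_lit 832)], [((nat_lit 0), (nat_lit 0), (nat_lit 0)), ((nat_lit 1000), (nat_lit 659), (nat_lit 528))], ((nat_lit 69), (nat_lit 100), (nat_lit 45))⟩, (nat_lit 4014018), (nat_lit 194), (nat_lit 194), (nat_lit 0), (nat_lit 473529), [(nat_lit 1828611222), (nat_lit 2648145600)], [(nat_lit 0), (nat_lit 0)], [(nat_lit 23053485998), (nat_lit 24235297864), (nat_lit 24839808742), (nat_lit 26101352608), (nat_lit 30091633426), (nat_lit 31220404109), (nat_lit 31185781118), (nat_lit 32175416469)], (nat_lit 1271251), (nat_lit 1271251), (nat_lit 1100000), (nat_lit 1785001), (nat_lit 1271251), (nat_lit 1271251), [(nat_lit 490000), (nat_lit 780000)], [(nat_lit 1), (nat_lit 38), (nat_lit 203), (nat_lit 0), (nat_lit 9)]⟩,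
 ⟨⟨[(nat_lit 80), (nat_lit 100), (nat_lit 120)], [(nat_lit 0), (nat_lit 0), (nat_lit 511)], [((nat_lit 0), (nat_lit 0), (nat_lit 0)), ((nat_lit 0), (nat_lit 0), (nat_lit 0)), ((nat_lit 1000), (nat_lit 997), (nat_lit 383))], ((nat_lit 100), (nat_lit 100), (nat_lit 40))⟩, (nat_lit 7566620), (nat_lit 656), (nat_lit 656), (nat_lit 0), (nat_lit 1142394), [(nat_lit 4186384000), (nat_lit 5581250000), (nat_lit 7115424000)], [], [(nat_lit 30701662868), (nat_lit 31694458094), (nat_lit 31654685736), (nat_lit 32297095596), (nat_lit 28246691038), (nat_lit 29016548104), (nat_lit 36407315542), (nat_lit 30401677575)], (nat_lit 1271251), (nat_lit 1271251), (nat_lit 1100000), (nat_lit 1785001), (nat_lit 0), (nat_lit 780000), [(nat_lit 1100000), (nat_lit 1442501), (nat_lit 1271251)], [(nat_lit 16), (nat_lit 54), (nat_lit 317), (nat_lit 100), (nat_lit 10)]⟩,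
 ⟨⟨[(nat_lit 100), (nat_lit 120), (nat_lit 140)], [(nat_lit 0), (nat_lit 254), (nat_lit 778)], [((nat_lit 0), (nat_lit 0), (nat_lit 0)), ((nat_lit 1000), (nat_lit 1000), (nat_lit 198)), ((nat_lit 960), (nat_lit 1000), (nat_lit 392))], ((nat_lit 100), (nat_lit 96), (nat_lit 39))⟩, (nat_lit 1983050), (nat_lit 300), (nat_lit 799), (nat_lit 37375000), (nat_lit 1322669), [(nat_lit 3737500000), (nat_lit 4764864000), (nat_lit 5885516000)], [], [(nat_lit 24486673835), (nat_lit 24450540790), (nat_lit 25381169571), (nat_lit 25558960356), (nat_lit 21085120557), (nat_lit 20994658529), (nat_lit 21661026942), (nat_lit 21475238142)], (nat_lit 1271251), (nat_lit 1271251), (nat_lit 1271251), (nat_lit 1271251), (nat_lit 0), (nat_lit 780000), [(nat_lit 1412501), (nat_lit 1271251), (nat_lit 1271251)], [(nat_lit 22), (nat_lit 58), (nat_lit 428), (nat_lit 200), (nat_lit 12)]⟩⟩)) (.spl (nat_lit 0) (nat_lit 370) (.leaf ⟨(nat_lit 563), (nat_lit 0), (nat_lit 0), (nat_lit 437),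 (nat_lit 0), (nat_lit 3851), (nat_lit 3875), (nat_lit 4579), (nat_lit 0), (nat_lit 49739), (nat_lit 283200), [((nat_lit 370), [((nat_lit 24), (nat_lit 0), (nat_lit 156)), ((nat_lit 41), (nat_lit 2), (nat_lit 407))])], ⟨(nat_lit 6), false, false, false, (nat_lit 212), (nat_lit 2738), (nat_lit 3163), [(nat_lit 1407099), (nat_lit 1411881), (nat_lit 1451384), (nat_lit 1456691), (nat_lit 1605257), (nat_lit 1603890), (nat_lit 1649542), (nat_lit 1648700)]⟩, ⟨(nat_lit 6), false, true, true, (nat_lit 288), (nat_lit 2738), (nat_lit 3163), [(nat_lit 1583107), (nat_lit 1581477), (nat_lit 1649542), (nat_lit 1648700), (nat_lit 1796444), (nat_lit 1788192), (nat_lit 1862908), (nat_lit 1855444)]⟩, (nat_lit 5418963), (nat_lit 35500252), (nat_lit 11886480), (nat_lit 19613268), (nat_lit 0), (nat_lit 0), [⟨(nat_lit 0), (nat_lit 100), (nat_lit 59), (nat_lit 100), (nat_lit 382117532)⟩], [], [⟨(nat_lit 0), (nat_lit 100), (nat_lit 98), (nat_lit 30), (nat_lit 267024034)⟩],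 [],
 ⟨⟨[(nat_lit 40), (nat_lit 60), (nat_lit 80)], [(nat_lit 0), (nat_lit 832), (nat_lit 1534)], [((nat_lit 0), (nat_lit 0), (nat_lit 0)), ((nat_lit 1000), (nat_lit 659), (nat_lit 528)), ((nat_lit 1000), (nat_lit 650), (nat_lit 549))], ((nat_lit 65), (nat_lit 100), (nat_lit 55))⟩, (nat_lit 485452), (nat_lit 189), (nat_lit 189), (nat_lit 0), (nat_lit 326856), [(nat_lit 1550822404), (nat_lit 1837056600), (nat_lit 2293240000)], [(nat_lit 0), (nat_lit 0), (nat_lit 0)], [(nat_lit 22447773464), (nat_lit 23005785310), (nat_lit 24496903418), (nat_lit 25159362871), (nat_lit 29829869022), (nat_lit 30404826050), (nat_lit 30770633880), (nat_lit 31248317774)], (nat_lit 1271251), (nat_lit 1271251), (nat_lit 704688), (nat_lit 1756876), (nat_lit 1271251), (nat_lit 1271251), [(nat_lit 490000), (nat_lit 780000), (nat_lit 1100000)], [(nat_lit 2), (nat_lit 44), (nat_lit 272), (nat_lit 60), (nat_lit 11)]⟩,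
 ⟨⟨[(nat_lit 80), (nat_lit 120), (nat_lit 140)], [(nat_lit 0), (nat_lit 0), (nat_lit 1164)], [((nat_lit 0), (nat_lit 0), (nat_lit 0)), ((nat_lit 0), (nat_lit 0), (nat_lit 0)), ((nat_lit 941), (nat_lit 1000), (nat_lit 576))], ((nat_lit 100), (nat_lit 96), (nat_lit 52))⟩, (nat_lit 0), (nat_lit 561), (nat_lit 561), (nat_lit 0), (nat_lit 704063), [(nat_lit 2048656000), (nat_lit 3482016000), (nat_lit 4300954000)], [], [(nat_lit 17125630605), (nat_lit 17678249575), (nat_lit 17515221224), (nat_lit 17410077584), (nat_lit 15036242690), (nat_lit 15512187373), (nat_lit 20181451724), (nat_lit 16694095099)], (nat_lit 1271251), (nat_lit 1271251), (nat_lit 704688), (nat_lit 1756876), (nat_lit 0), (nat_lit 780000), [(nat_lit 1100000), (nat_lit 1785001), (nat_lit 1271251)], [(nat_lit 17), (nat_lit 58), (nat_lit 401), (nat_lit 175), (nat_lit 12)]⟩,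
 ⟨⟨[(nat_lit 100), (nat_lit 140), (nat_lit 160)], [(nat_lit 0), (nat_lit 508), (nat_lit 1689)], [((nat_lit 0), (nat_lit 0), (nat_lit 0)), ((nat_lit 1000), (nat_lit 1000), (nat_lit 198)), ((nat_lit 811), (nat_lit 1000), (nat_lit 671))], ((nat_lit 100), (nat_lit 91), (nat_lit 51))⟩, (nat_lit 939378), (nat_lit 300), (nat_lit 642), (nat_lit 27312500), (nat_lit 804297), [(nat_lit 2731250000), (nat_lit 4300954000), (nat_lit 5188064000)], [], [(nat_lit 19515911522), (nat_lit 19402431514), (nat_lit 20461119613), (nat_lit 20700444824), (nat_lit 16455145653), (nat_lit 16309884335), (nat_lit 17015258186), (nat_lit 16948899665)], (nat_lit 1271251), (nat_lit 1271251), (nat_lit 1271251), (nat_lit 1271251), (nat_lit 0), (nat_lit 780000), [(nat_lit 1412501), (nat_lit 1271251), (nat_lit 1271251)], [(nat_lit 23), (nat_lit 62), (nat_lit 428), (nat_lit 200), (nat_lit 11)]⟩⟩) (.trZ (nat_lit 0) (nat_lit 1) (nat_lit 3) (nat_lit 100) (nat_lit 54) (nat_lit 96) (nat_lit 130)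 (.trX (nat_lit 4) (nat_lit 0) (nat_lit 2) (nat_lit 57) (nat_lit 62) (nat_lit 100) (nat_lit 370) (.leaf ⟨(nat_lit 518), (nat_lit 31), (nat_lit 0), (nat_lit 451), (nat_lit 0), (nat_lit 3861), (nat_lit 5078), (nat_lit 4754), (nat_lit 0), (nat_lit 52002), (nat_lit 207200), [((nat_lit 380), [((nat_lit 24), (nat_lit 1), (nat_lit 518))])], ⟨(nat_lit 6), false, false, false, (nat_lit 218), (nat_lit 2236), (nat_lit 2739), [(nat_lit 1441375), (nat_lit 1445669), (nat_lit 1486169), (nat_lit 1491177), (nat_lit 1603890), (nat_lit 1602558), (nat_lit 1648684), (nat_lit 1648065)]⟩, ⟨(nat_lit 6), false, true, true, (nat_lit 284), (nat_lit 2236), (nat_lit 2739), [(nat_lit 1581477), (nat_lit 1579788), (nat_lit 1648684), (nat_lit 1648065), (nat_lit 1773427), (nat_lit 1765089), (nat_lit 1840679), (nat_lit 1833412)]⟩, (nat_lit 5445832), (nat_lit 35464016), (nat_lit 12475835), (nat_lit 19060149), (nat_lit 6), (nat_lit 0), [⟨(nat_lit 0), (nat_lit 97), (nat_lit 49), (nat_lit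 100), (nat_lit 278631535)⟩], [], [⟨(nat_lit 0), (nat_lit 100), (nat_lit 98), (nat_lit 30), (nat_lit 252474276)⟩], [],
 ⟨⟨[(nat_lit 40), (nat_lit 60)], [(nat_lit 0), (nat_lit 1134)], [((nat_lit 0), (nat_lit 0), (nat_lit 0)), ((nat_lit 1000), (nat_lit 575), (nat_lit 619))], ((nat_lit 59), (nat_lit 100), (nat_lit 58))⟩, (nat_lit 0), (nat_lit 164), (nat_lit 164), (nat_lit 0), (nat_lit 349988), [(nat_lit 1579404005), (nat_lit 2089978400)], [(nat_lit 0), (nat_lit 0)], [(nat_lit 23288320010), (nat_lit 23889296824), (nat_lit 25241209624), (nat_lit 25837825022), (nat_lit 29742814277), (nat_lit 30322946060), (nat_lit 30768518176), (nat_lit 31260563695)], (nat_lit 1271251), (nat_lit 1271251), (nat_lit 857188), (nat_lit 1768126), (nat_lit 1271251), (nat_lit 1271251), [(nat_lit 490000), (nat_lit 780000)], [(nat_lit 1), (nat_lit 38), (nat_lit 203), (nat_lit 0), (nat_lit 9)]⟩,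
 ⟨⟨[(nat_lit 80), (nat_lit 120), (nat_lit 140)], [(nat_lit 0), (nat_lit 0), (nat_lit 1164)], [((nat_lit 0), (nat_lit 0), (nat_lit 0)), ((nat_lit 0), (nat_lit 0), (nat_lit 0)), ((nat_lit 941), (nat_lit 1000), (nat_lit 576))], ((nat_lit 100), (nat_lit 96), (nat_lit 52))⟩, (nat_lit 0), (nat_lit 603), (nat_lit 603), (nat_lit 0), (nat_lit 823732), [(nat_lit 2259616000), (nat_lit 3840576000), (nat_lit 4743844000)], [], [(nat_lit 16816752358), (nat_lit 17008524946), (nat_lit 19261145936), (nat_lit 16680027584), (nat_lit 15210088147), (nat_lit 14017045388), (nat_lit 22472229848), (nat_lit 17902217734)], (nat_lit 1271251), (nat_lit 1271251), (nat_lit 857188), (nat_lit 1768126), (nat_lit 0), (nat_lit 780000), [(nat_lit 1100000), (nat_lit 1785001), (nat_lit 1271251)], [(nat_lit 17), (nat_lit 58), (nat_lit 401), (nat_lit 175), (nat_lit 12)]⟩,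
 ⟨⟨[(nat_lit 100), (nat_lit 140), (nat_lit 160)], [(nat_lit 0), (nat_lit 508), (nat_lit 1689)], [((nat_lit 0), (nat_lit 0), (nat_lit 0)), ((nat_lit 1000), (nat_lit 1000), (nat_lit 198)), ((nat_lit 811), (nat_lit 1000), (nat_lit 671))], ((nat_lit 100), (nat_lit 91), (nat_lit 51))⟩, (nat_lit 969472), (nat_lit 300), (nat_lit 704), (nat_lit 28187502), (nat_lit 950773), [(nat_lit 2818750000), (nat_lit 4438742000), (nat_lit 5354272000)], [], [(nat_lit 20050513491), (nat_lit 19929945262), (nat_lit 20890162089), (nat_lit 21123616948), (nat_lit 16868844388), (nat_lit 16715384709), (nat_lit 17357278868), (nat_lit 17250127391)], (nat_lit 1271251), (nat_lit 1271251), (nat_lit 1271251), (nat_lit 1271251), (nat_lit 0), (nat_lit 780000), [(nat_lit 1412501), (nat_lit 1271251), (nat_lit 1271251)], [(nat_lit 23), (nat_lit 62), (nat_lit 428), (nat_lit 200), (nat_lit 11)]⟩⟩))))) (.spl (nat_lit 0) (nat_lit 370) (.leaf ⟨(nat_lit 579), (nat_lit 0), (nat_lit 0), (nat_lit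 421), (nat_lit 0), (nat_lit 3759), (nat_lit 3934), (nat_lit 4438), (nat_lit 0), (nat_lit 1859324), (nat_lit 347400), [((nat_lit 370), [((nat_lit 41), (nat_lit 2), (nat_lit 579))])], ⟨(nat_lit 6), false, false, false, (nat_lit 212), (nat_lit 2738), (nat_lit 3163), [(nat_lit 1407099), (nat_lit 1411881), (nat_lit 1451384), (nat_lit 1456691), (nat_lit 1605257), (nat_lit 1603890), (nat_lit 1649542), (nat_lit 1648700)]⟩, ⟨(nat_lit 6), false, true, true, (nat_lit 288), (nat_lit 2738), (nat_lit 3163), [(nat_lit 1583107), (nat_lit 1581477), (nat_lit 1649542), (nat_lit 1648700), (nat_lit 1796444), (nat_lit 1788192), (nat_lit 1862908), (nat_lit 1855444)]⟩, (nat_lit 5418963), (nat_lit 35500252), (nat_lit 11886480), (nat_lit 19613268), (nat_lit 0), (nat_lit 0), [⟨(nat_lit 0), (nat_lit 100), (nat_lit 59), (nat_lit 100), (nat_lit 363467658)⟩], [], [⟨(nat_lit 0), (nat_lit 100), (nat_lit 98), (nat_lit 30), (nat_lit 276272279)⟩], [],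
 ⟨⟨[(nat_lit 40), (nat_lit 80), (nat_lit 100)], [(nat_lit 0), (nat_lit 1598), (nat_lit 2533)], [((nat_lit 0), (nat_lit 0), (nat_lit 0)), ((nat_lit 1000), (nat_lit 625), (nat_lit 623)), ((nat_lit 1000), (nat_lit 604), (nat_lit 730))], ((nat_lit 61), (nat_lit 100), (nat_lit 70))⟩, (nat_lit 538762), (nat_lit 186), (nat_lit 186), (nat_lit 0), (nat_lit 250259), [(nat_lit 1546202024), (nat_lit 1946575529), (nat_lit 2217612400)], [(nat_lit 0), (nat_lit 0), (nat_lit 0)], [(nat_lit 22396895453), (nat_lit 22920340648), (nat_lit 24433683660), (nat_lit 25096570939), (nat_lit 29678253344), (nat_lit 30247119865), (nat_lit 30662436866), (nat_lit 31135655298)], (nat_lit 1271251), (nat_lit 1271251), (nat_lit 704688), (nat_lit 1756876), (nat_lit 1271251), (nat_lit 1271251), [(nat_lit 490000), (nat_lit 1100000), (nat_lit 1442501)], [(nat_lit 3), (nat_lit 50), (nat_lit 272), (nat_lit 60), (nat_lit 9)]⟩,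
 ⟨⟨[(nat_lit 80), (nat_lit 120), (nat_lit 160)], [(nat_lit 0), (nat_lit 0), (nat_lit 2132)], [((nat_lit 0), (nat_lit 0), (nat_lit 0)), ((nat_lit 0), (nat_lit 0), (nat_lit 0)), ((nat_lit 858), (nat_lit 1000), (nat_lit 713))], ((nat_lit 100), (nat_lit 86), (nat_lit 71))⟩, (nat_lit 0), (nat_lit 537), (nat_lit 537), (nat_lit 0), (nat_lit 516907), [(nat_lit 1973648000), (nat_lit 3354528000), (nat_lit 4998112000)], [], [(nat_lit 16646602746), (nat_lit 17176453614), (nat_lit 16797000808), (nat_lit 16990515014), (nat_lit 14089587904), (nat_lit 14713011726), (nat_lit 19433147344), (nat_lit 15892692902)], (nat_lit 1271251), (nat_lit 1271251), (nat_lit 704688), (nat_lit 1756876), (nat_lit 0), (nat_lit 780000), [(nat_lit 1100000), (nat_lit 1785001), (nat_lit 1271251)], [(nat_lit 18), (nat_lit 59), (nat_lit 401), (nat_lit 175), (nat_lit 10)]⟩,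
 ⟨⟨[(nat_lit 100), (nat_lit 140), (nat_lit 180)], [(nat_lit 0), (nat_lit 508), (nat_lit 2854)], [((nat_lit 0), (nat_lit 0), (nat_lit 0)), ((nat_lit 1000), (nat_lit 1000), (nat_lit 198)), ((nat_lit 777), (nat_lit 1000), (nat_lit 712))], ((nat_lit 100), (nat_lit 79), (nat_lit 70))⟩, (nat_lit 904984), (nat_lit 300), (nat_lit 599), (nat_lit 26312501), (nat_lit 587401), [(nat_lit 2631250000), (nat_lit 4143482000), (nat_lit 5918418000)], [], [(nat_lit 21482846315), (nat_lit 21398985958), (nat_lit 22106206927), (nat_lit 22108614167), (nat_lit 18154354300), (nat_lit 18045954709), (nat_lit 18647992643), (nat_lit 18337415185)], (nat_lit 1271251), (nat_lit 1271251), (nat_lit 1271251), (nat_lit 1271251), (nat_lit 0), (nat_lit 780000), [(nat_lit 1412501), (nat_lit 1271251), (nat_lit 1271251)], [(nat_lit 24), (nat_lit 63), (nat_lit 428), (nat_lit 200), (nat_lit 10)]⟩⟩) (.trZ (nat_lit 0) (nat_lit 1) (nat_lit 3) (nat_lit 100) (nat_lit 54) (nat_lit 96) (nat_lit 130)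 (.trX (nat_lit 4) (nat_lit 0) (nat_lit 2) (nat_lit 57) (nat_lit 62) (nat_lit 100) (nat_lit 370) (.leaf ⟨(nat_lit 522), (nat_lit 0), (nat_lit 0), (nat_lit 478), (nat_lit 0), (nat_lit 3891), (nat_lit 5373), (nat_lit 4622), (nat_lit 0), (nat_lit 92216), (nat_lit 152250), [((nat_lit 380), [((nat_lit 25), (nat_lit 0), (nat_lit 377)), ((nat_lit 25), (nat_lit 1), (nat_lit 145))])], ⟨(nat_lit 6), false, false, false, (nat_lit 218), (nat_lit 2236), (nat_lit 2739), [(nat_lit 1441375), (nat_lit 1445669), (nat_lit 1486169), (nat_lit 1491177), (nat_lit 1603890), (nat_lit 1602558), (nat_lit 1648684), (nat_lit 1648065)]⟩, ⟨(nat_lit 6), false, true, true, (nat_lit 284), (nat_lit 2236), (nat_lit 2739), [(nat_lit 1581477), (nat_lit 1579788), (nat_lit 1648684), (nat_lit 1648065), (nat_lit 1773427), (nat_lit 1765089), (nat_lit 1840679), (nat_lit 1833412)]⟩, (nat_lit 5445832), (nat_lit 35464016), (nat_lit 12475835), (nat_lit 19060149), (nat_lit 0), (nat_lit 0), [⟨(nat_lit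 0), (nat_lit 97), (nat_lit 49), (nat_lit 100), (nat_lit 303035786)⟩], [], [⟨(nat_lit 0), (nat_lit 100), (nat_lit 99), (nat_lit 55), (nat_lit 216742624)⟩, ⟨(nat_lit 0), (nat_lit 100), (nat_lit 98), (nat_lit 30), (nat_lit 68286312)⟩], [],
 ⟨⟨[(nat_lit 40), (nat_lit 60), (nat_lit 80)], [(nat_lit 0), (nat_lit 1134), (nat_lit 1930)], [((nat_lit 0), (nat_lit 0), (nat_lit 0)), ((nat_lit 1000), (nat_lit 575), (nat_lit 619)), ((nat_lit 1000), (nat_lit 574), (nat_lit 622))], ((nat_lit 54), (nat_lit 100), (nat_lit 72))⟩, (nat_lit 565325), (nat_lit 170), (nat_lit 170), (nat_lit 0), (nat_lit 277388), [(nat_lit 1635948005), (nat_lit 2227297829), (nat_lit 3025917200)], [(nat_lit 0), (nat_lit 0), (nat_lit 0)], [(nat_lit 23334556671), (nat_lit 23917683408), (nat_lit 25190464575), (nat_lit 25860874082), (nat_lit 29788499469), (nat_lit 30370650796), (nat_lit 30803719469), (nat_lit 31297301459)], (nat_lit 1271251), (nat_lit 1271251), (nat_lit 857188), (nat_lit 1768126),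 (nat_lit 1271251), (nat_lit 1271251), [(nat_lit 490000), (nat_lit 780000), (nat_lit 1100000)], [(nat_lit 2), (nat_lit 44), (nat_lit 272), (nat_lit 60), (nat_lit 10)]⟩,
 ⟨⟨[(nat_lit 80), (nat_lit 120), (nat_lit 160)], [(nat_lit 0), (nat_lit 0), (nat_lit 2132)], [((nat_lit 0), (nat_lit 0), (nat_lit 0)), ((nat_lit 0), (nat_lit 0), (nat_lit 0)), ((nat_lit 858), (nat_lit 1000), (nat_lit 713))], ((nat_lit 100), (nat_lit 86), (nat_lit 71))⟩, (nat_lit 69293), (nat_lit 574), (nat_lit 574), (nat_lit 0), (nat_lit 635055), [(nat_lit 2240864000), (nat_lit 3808704000), (nat_lit 5674816000)], [], [(nat_lit 16748668493), (nat_lit 17598215390), (nat_lit 18987356808), (nat_lit 18329403410), (nat_lit 14717718613), (nat_lit 14069167427), (nat_lit 22285140900), (nat_lit 17449639701)], (nat_lit 1271251), (nat_lit 1271251), (nat_lit 857188), (nat_lit 1768126), (nat_lit 0), (nat_lit 780000), [(nat_lit 1100000), (nat_lit 1785001), (nat_lit 1271251)], [(nat_lit 18), (nat_lit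 59), (nat_lit 401), (nat_lit 175), (nat_lit 10)]⟩,
 ⟨⟨[(nat_lit 100), (nat_lit 140), (nat_lit 180)], [(nat_lit 0), (nat_lit 508), (nat_lit 2854)], [((nat_lit 0), (nat_lit 0), (nat_lit 0)), ((nat_lit 1000), (nat_lit 1000), (nat_lit 198)), ((nat_lit 777), (nat_lit 1000), (nat_lit 712))], ((nat_lit 100), (nat_lit 79), (nat_lit 70))⟩, (nat_lit 1027512), (nat_lit 300), (nat_lit 655), (nat_lit 29875000), (nat_lit 731038), [(nat_lit 2987500000), (nat_lit 4704476000), (nat_lit 6719724000)], [], [(nat_lit 25120587872), (nat_lit 25076106084), (nat_lit 25777620736), (nat_lit 25516832731), (nat_lit 21713271543), (nat_lit 21641599684), (nat_lit 22249642495), (nat_lit 21980643554)], (nat_lit 1271251), (nat_lit 1271251), (nat_lit 1271251), (nat_lit 1271251), (nat_lit 0), (nat_lit 780000), [(nat_lit 1412501), (nat_lit 1271251), (nat_lit 1271251)], [(nat_lit 24), (nat_lit 63), (nat_lit 428), (nat_lit 200), (nat_lit 10)]⟩⟩))))) (.stt (nat_lit 3) (.leaf ⟨(nat_lit 0),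 (nat_lit 0), (nat_lit 396), (nat_lit 604), (nat_lit 0), (nat_lit 4065), (nat_lit 3739), (nat_lit 9110), (nat_lit 0), (nat_lit 12230549984025), (nat_lit 0), [], Pd.none, Pd.none, (nat_lit 0), (nat_lit 1), (nat_lit 0), (nat_lit 0), (nat_lit 0), (nat_lit 6), [⟨(nat_lit 0), (nat_lit 92), (nat_lit 44), (nat_lit 100), (nat_lit 465333547)⟩], [⟨(nat_lit 1), (nat_lit 71), (nat_lit 54), (nat_lit 100), (nat_lit 120708778)⟩], [], [],
 ⟨⟨[(nat_lit 40), (nat_lit 80), (nat_lit 100)], [(nat_lit 0), (nat_lit 1598), (nat_lit 2533)], [((nat_lit 0), (nat_lit 0), (nat_lit 0)), ((nat_lit 1000), (nat_lit 625), (nat_lit 623)), ((nat_lit 1000), (nat_lit 604), (nat_lit 730))], ((nat_lit 61), (nat_lit 100), (nat_lit 70))⟩, (nat_lit 2033106), (nat_lit 265), (nat_lit 265), (nat_lit 0), (nat_lit 482440), [(nat_lit 2032000004), (nat_lit 4712290577), (nat_lit 6250000000)], [], [(nat_lit 24512696247), (nat_lit 25566552168), (nat_lit 26298118058), (nat_lit 27288448215), (nat_lit 30182540273),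 (nat_lit 31360788423), (nat_lit 31241835393), (nat_lit 31998974004)], (nat_lit 1271251), (nat_lit 1271251), (nat_lit 704688), (nat_lit 1756876), (nat_lit 1271251), (nat_lit 1271251), [(nat_lit 490000), (nat_lit 1100000), (nat_lit 1442501)], [(nat_lit 3), (nat_lit 50), (nat_lit 272), (nat_lit 60), (nat_lit 9)]⟩,
 ⟨⟨[(nat_lit 80), (nat_lit 120), (nat_lit 160)], [(nat_lit 0), (nat_lit 0), (nat_lit 2132)], [((nat_lit 0), (nat_lit 0), (nat_lit 0)), ((nat_lit 0), (nat_lit 0), (nat_lit 0)), ((nat_lit 858), (nat_lit 1000), (nat_lit 713))], ((nat_lit 100), (nat_lit 86), (nat_lit 71))⟩, (nat_lit 1229703), (nat_lit 1016), (nat_lit 1016), (nat_lit 0), (nat_lit 1709576), [(nat_lit 2831552000), (nat_lit 4812672000), (nat_lit 7170688000)], [], [(nat_lit 35867732228), (nat_lit 35999564392), (nat_lit 35353314052), (nat_lit 35426976145), (nat_lit 35996345976), (nat_lit 35979979664), (nat_lit 35802563264), (nat_lit 35105032754)], (nat_lit 1271251), (nat_lit 1271251),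 (nat_lit 704688), (nat_lit 1756876), (nat_lit 780000), (nat_lit 3072501), [(nat_lit 1100000), (nat_lit 1785001), (nat_lit 1271251)], [(nat_lit 18), (nat_lit 59), (nat_lit 483), (nat_lit 250), (nat_lit 12)]⟩,
 ⟨⟨[(nat_lit 100), (nat_lit 140), (nat_lit 180)], [(nat_lit 0), (nat_lit 508), (nat_lit 2854)], [((nat_lit 0), (nat_lit 0), (nat_lit 0)), ((nat_lit 1000), (nat_lit 1000), (nat_lit 198)), ((nat_lit 777), (nat_lit 1000), (nat_lit 712))], ((nat_lit 100), (nat_lit 79), (nat_lit 70))⟩, (nat_lit 5042515), (nat_lit 191), (nat_lit 191), (nat_lit 0), (nat_lit 0), [(nat_lit 6250000000), (nat_lit 9842000000), (nat_lit 14058000000)], [], [(nat_lit 20831483595), (nat_lit 23556161610), (nat_lit 30930282313), (nat_lit 32872039998), (nat_lit 32216277720), (nat_lit 33969631900), (nat_lit 39947733108), (nat_lit 40843043380)], (nat_lit 0), (nat_lit 0), (nat_lit 0), (nat_lit 0), (nat_lit 0), (nat_lit 0), [], [(nat_lit 24), (nat_lit 63), (nat_lit 538), (nat_lit 300),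 (nat_lit 12)]⟩⟩) (.leaf ⟨(nat_lit 667), (nat_lit 0), (nat_lit 0), (nat_lit 333), (nat_lit 0), (nat_lit 3516), (nat_lit 2879), (nat_lit 2928), (nat_lit 0), (nat_lit 651920), (nat_lit 354350), [((nat_lit 380), [((nat_lit 25), (nat_lit 0), (nat_lit 131)), ((nat_lit 41), (nat_lit 2), (nat_lit 536))])], ⟨(nat_lit 6), false, false, false, (nat_lit 212), (nat_lit 2236), (nat_lit 3163), [(nat_lit 1406804), (nat_lit 1416903), (nat_lit 1450987), (nat_lit 1462324), (nat_lit 1605240), (nat_lit 1602541), (nat_lit 1649422), (nat_lit 1647962)]⟩, ⟨(nat_lit 6), false, true, true, (nat_lit 287), (nat_lit 2236), (nat_lit 3163), [(nat_lit 1583107), (nat_lit 1579788), (nat_lit 1649422), (nat_lit 1647962), (nat_lit 1796444), (nat_lit 1779343), (nat_lit 1862908), (nat_lit 1847666)]⟩, (nat_lit 5418890), (nat_lit 35544216), (nat_lit 11932148), (nat_lit 19523636), (nat_lit 0), (nat_lit 0), [⟨(nat_lit 0), (nat_lit 92), (nat_lit 44), (nat_lit 100), (nat_lit 581578864)⟩], [⟨(nat_lit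 1), (nat_lit 71), (nat_lit 54), (nat_lit 100), (nat_lit 112075297)⟩], [], [],
 ⟨⟨[(nat_lit 40), (nat_lit 80), (nat_lit 100)], [(nat_lit 0), (nat_lit 1598), (nat_lit 2533)], [((nat_lit 0), (nat_lit 0), (nat_lit 0)), ((nat_lit 1000), (nat_lit 625), (nat_lit 623)), ((nat_lit 1000), (nat_lit 604), (nat_lit 730))], ((nat_lit 61), (nat_lit 100), (nat_lit 70))⟩, (nat_lit 1282554), (nat_lit 192), (nat_lit 192), (nat_lit 0), (nat_lit 250025), [(nat_lit 1492828012), (nat_lit 2382366742), (nat_lit 1975789600)], [(nat_lit 0), (nat_lit 0), (nat_lit 0)], [(nat_lit 22244535197), (nat_lit 23479232154), (nat_lit 24618719752), (nat_lit 25638083972), (nat_lit 29277790194), (nat_lit 30383349475), (nat_lit 30376655622), (nat_lit 31299503201)], (nat_lit 1271251), (nat_lit 1271251), (nat_lit 704688), (nat_lit 1756876), (nat_lit 1271251), (nat_lit 1271251), [(nat_lit 490000), (nat_lit 1100000), (nat_lit 1442501)], [(nat_lit 3), (nat_lit 50), (nat_lit 272), (nat_lit 60), (nat_lit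 9)]⟩,
 ⟨⟨[(nat_lit 80), (nat_lit 120), (nat_lit 160)], [(nat_lit 0), (nat_lit 0), (nat_lit 2132)], [((nat_lit 0), (nat_lit 0), (nat_lit 0)), ((nat_lit 0), (nat_lit 0), (nat_lit 0)), ((nat_lit 858), (nat_lit 1000), (nat_lit 713))], ((nat_lit 100), (nat_lit 86), (nat_lit 71))⟩, (nat_lit 1171706), (nat_lit 747), (nat_lit 747), (nat_lit 0), (nat_lit 1162554), [(nat_lit 1561104000), (nat_lit 2653344000), (nat_lit 3953376000)], [], [(nat_lit 14515087737), (nat_lit 12234749686), (nat_lit 11716512338), (nat_lit 11891255077), (nat_lit 16279742357), (nat_lit 13680387545), (nat_lit 21402608988), (nat_lit 18908479466)], (nat_lit 1271251), (nat_lit 1271251), (nat_lit 704688), (nat_lit 1756876), (nat_lit 780000), (nat_lit 3072501), [(nat_lit 1100000), (nat_lit 1785001), (nat_lit 1271251)], [(nat_lit 18), (nat_lit 59), (nat_lit 483), (nat_lit 250), (nat_lit 12)]⟩,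
 ⟨⟨[(nat_lit 100), (nat_lit 140), (nat_lit 180)], [(nat_lit 0), (nat_lit 508), (nat_lit 2854)], [((nat_lit 0), (nat_lit 0), (nat_lit 0)), ((nat_lit 1000), (nat_lit 1000), (nat_lit 198)), ((nat_lit 777), (nat_lit 1000), (nat_lit 712))], ((nat_lit 100), (nat_lit 79), (nat_lit 70))⟩, (nat_lit 858940), (nat_lit 300), (nat_lit 849), (nat_lit 20812500), (nat_lit 1347054), [(nat_lit 2081250000), (nat_lit 3277386000), (nat_lit 4681314000)], [], [(nat_lit 17063182496), (nat_lit 16876518144), (nat_lit 17022015922), (nat_lit 16748489469), (nat_lit 15990376833), (nat_lit 15676409244), (nat_lit 15593042808), (nat_lit 15222290172)], (nat_lit 1271251), (nat_lit 1271251), (nat_lit 1271251), (nat_lit 1271251), (nat_lit 780000), (nat_lit 3072501), [(nat_lit 1412501), (nat_lit 1271251), (nat_lit 1271251)], [(nat_lit 24), (nat_lit 63), (nat_lit 538), (nat_lit 300), (nat_lit 12)]⟩⟩)))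
noncomputable def c17_123 : Tr Lf :=
 (.trZ (nat_lit 3) (nat_lit 4) (nat_lit 5) (nat_lit 100) (nat_lit 100) (nat_lit 40) (nat_lit 10) (.spl (nat_lit 5) (nat_lit 120) (.trX (nat_lit 3) (nat_lit 4) (nat_lit 5) (nat_lit 100) (nat_lit 59) (nat_lit 94) (nat_lit 370) (.trX (nat_lit 4) (nat_lit 3) (nat_lit 5) (nat_lit 100) (nat_lit 59) (nat_lit 94) (nat_lit 370) (.spl (nat_lit 1) (nat_lit 260) (.ord (.leaf ⟨(nat_lit 843), (nat_lit 22), (nat_lit 0), (nat_lit 135), (nat_lit 0), (nat_lit 3406), (nat_lit 1640), (nat_lit 1471), (nat_lit 0), (nat_lit 22068), (nat_lit 475350), [((nat_lit 380), [((nat_lit 25), (nat_lit 0), (nat_lit 87)), ((nat_lit 41), (nat_lit 2), (nat_lit 756))])], ⟨(nat_lit 6), false, true, true, (nat_lit 284), (nat_lit 2236), (nat_lit 3163), [(nat_lit 1605240), (nat_lit 1602541), (nat_lit 1627331), (nat_lit 1625251), (nat_lit 1803360), (nat_lit 1787863), (nat_lit 1825515), (nat_lit 1810637)]⟩, ⟨(nat_lit 6), false, true, true, (nat_lit 280), (nat_lit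 2236), (nat_lit 3163), [(nat_lit 1583107), (nat_lit 1579788), (nat_lit 1627331), (nat_lit 1625251), (nat_lit 1781205), (nat_lit 1765089), (nat_lit 1825515), (nat_lit 1810637)]⟩, (nat_lit 5710234), (nat_lit 32132930), (nat_lit 17661702), (nat_lit 17205368), (nat_lit 6), (nat_lit 0), [], [], [], [⟨(nat_lit 0), (nat_lit 95), (nat_lit 95), (nat_lit 100), (nat_lit 176434692)⟩],
 ⟨⟨[(nat_lit 40), (nat_lit 80), (nat_lit 100)], [(nat_lit 0), (nat_lit 1598), (nat_lit 2533)], [((nat_lit 0), (nat_lit 0), (nat_lit 0)), ((nat_lit 1000), (nat_lit 625), (nat_lit 623)), ((nat_lit 1000), (nat_lit 604), (nat_lit 730))], ((nat_lit 61), (nat_lit 100), (nat_lit 70))⟩, (nat_lit 113507), (nat_lit 214), (nat_lit 214), (nat_lit 0), (nat_lit 426773), [(nat_lit 1393788401), (nat_lit 935983892), (nat_lit 625429600)], [(nat_lit 0), (nat_lit 0), (nat_lit 0)], [(nat_lit 24622550836), (nat_lit 25488247612), (nat_lit 29765889515), (nat_lit 30703374278), (nat_lit 29765889515), (nat_lit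 30703374278), (nat_lit 33819243412), (nat_lit 34528005140)], (nat_lit 1271251), (nat_lit 1271251), (nat_lit 1271251), (nat_lit 1271251), (nat_lit 1271251), (nat_lit 1271251), [(nat_lit 490000), (nat_lit 1100000), (nat_lit 1442501)], [(nat_lit 3), (nat_lit 50), (nat_lit 203), (nat_lit 0), (nat_lit 5)]⟩,
 ⟨⟨[(nat_lit 80), (nat_lit 120), (nat_lit 160)], [(nat_lit 0), (nat_lit 0), (nat_lit 2132)], [((nat_lit 0), (nat_lit 0), (nat_lit 0)), ((nat_lit 0), (nat_lit 0), (nat_lit 0)), ((nat_lit 858), (nat_lit 1000), (nat_lit 713))], ((nat_lit 100), (nat_lit 86), (nat_lit 71))⟩, (nat_lit 494516), (nat_lit 739), (nat_lit 739), (nat_lit 0), (nat_lit 1090821), [(nat_lit 736016000), (nat_lit 1250976000), (nat_lit 1863904000)], [], [(nat_lit 4955852829), (nat_lit 5003478152), (nat_lit 6046055895), (nat_lit 6306268708), (nat_lit 4140816616), (nat_lit 4178753926), (nat_lit 4742204437), (nat_lit 4863311192)], (nat_lit 1271251), (nat_lit 1271251), (nat_lit 1271251), (nat_lit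 1271251), (nat_lit 54688), (nat_lit 780000), [(nat_lit 1100000), (nat_lit 1785001), (nat_lit 1271251)], [(nat_lit 18), (nat_lit 59), (nat_lit 428), (nat_lit 200), (nat_lit 11)]⟩,
 ⟨⟨[(nat_lit 100), (nat_lit 140), (nat_lit 180)], [(nat_lit 0), (nat_lit 508), (nat_lit 2854)], [((nat_lit 0), (nat_lit 0), (nat_lit 0)), ((nat_lit 1000), (nat_lit 1000), (nat_lit 198)), ((nat_lit 777), (nat_lit 1000), (nat_lit 712))], ((nat_lit 100), (nat_lit 79), (nat_lit 70))⟩, (nat_lit 290197), (nat_lit 300), (nat_lit 905), (nat_lit 8437500), (nat_lit 1252563), [(nat_lit 843750000), (nat_lit 1328670000), (nat_lit 1897830000)], [], [(nat_lit 6694294446), (nat_lit 6654952857), (nat_lit 6890103134), (nat_lit 6872417905), (nat_lit 5747684299), (nat_lit 5653098419), (nat_lit 5825085699), (nat_lit 5751207612)], (nat_lit 1271251), (nat_lit 1271251), (nat_lit 1271251), (nat_lit 1271251), (nat_lit 54688), (nat_lit 780000), [(nat_lit 1412501), (nat_lit 1271251), (nat_lit 1271251)],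 [(nat_lit 24), (nat_lit 63), (nat_lit 428), (nat_lit 200), (nat_lit 10)]⟩⟩)) (.leaf ⟨(nat_lit 0), (nat_lit 441), (nat_lit 0), (nat_lit 559), (nat_lit 0), (nat_lit 4423), (nat_lit 8248), (nat_lit 6086), (nat_lit 0), (nat_lit 4852), (nat_lit 0), [], Pd.none, Pd.none, (nat_lit 0), (nat_lit 1), (nat_lit 0), (nat_lit 0), (nat_lit 6), (nat_lit 0), [], [], [⟨(nat_lit 0), (nat_lit 100), (nat_lit 97), (nat_lit 59), (nat_lit 301021826)⟩], [⟨(nat_lit 0), (nat_lit 95), (nat_lit 95), (nat_lit 100), (nat_lit 314869863)⟩],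
 ⟨⟨[(nat_lit 40), (nat_lit 80), (nat_lit 100)], [(nat_lit 0), (nat_lit 1598), (nat_lit 2533)], [((nat_lit 0), (nat_lit 0), (nat_lit 0)), ((nat_lit 1000), (nat_lit 625), (nat_lit 623)), ((nat_lit 1000), (nat_lit 604), (nat_lit 730))], ((nat_lit 61), (nat_lit 100), (nat_lit 70))⟩, (nat_lit 2531075), (nat_lit 231), (nat_lit 231), (nat_lit 0), (nat_lit 482291), [(nat_lit 2032000001), (nat_lit 5044367926), (nat_lit 6250000000)], [], [(nat_lit 25208569139), (nat_lit 26269610746), (nat_lit 30907126998), (nat_lit 31948784469), (nat_lit 30907126998), (nat_lit 31948784469), (nat_lit 35184041299), (nat_lit 35949048386)], (nat_lit 1271251), (nat_lit 1271251), (nat_lit 1271251), (nat_lit 1271251), (nat_lit 1271251), (nat_lit 1271251), [(nat_lit 490000), (nat_lit 1100000), (nat_lit 1442501)], [(nat_lit 3), (nat_lit 50), (nat_lit 203), (nat_lit 0), (nat_lit 5)]⟩,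
 ⟨⟨[(nat_lit 80), (nat_lit 120), (nat_lit 160)], [(nat_lit 0), (nat_lit 528), (nat_lit 2577)], [((nat_lit 0), (nat_lit 0), (nat_lit 0)), ((nat_lit 1000), (nat_lit 959), (nat_lit 206)), ((nat_lit 929), (nat_lit 1000), (nat_lit 742))], ((nat_lit 100), (nat_lit 94), (nat_lit 73))⟩, (nat_lit 9026726), (nat_lit 714), (nat_lit 714), (nat_lit 0), (nat_lit 1032941), [(nat_lit 4688000000), (nat_lit 7968000000), (nat_lit 11872000000)], [], [(nat_lit 22065862968), (nat_lit 22799211848), (nat_lit 35582925326), (nat_lit 37027081123), (nat_lit 19228185520), (nat_lit 19863097952), (nat_lit 28287094131), (nat_lit 29623541464)], (nat_lit 1271251), (nat_lit 1271251), (nat_lit 1271251), (nat_lit 1271251), (nat_lit 54688), (nat_lit 780000), [(nat_lit 1100000), (nat_lit 1785001), (nat_lit 1271251)], [(nat_lit 18), (nat_lit 59), (nat_lit 428), (nat_lit 200), (nat_lit 11)]⟩,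
 ⟨⟨[(nat_lit 100), (nat_lit 140), (nat_lit 180)], [(nat_lit 0), (nat_lit 508), (nat_lit 2854)], [((nat_lit 0), (nat_lit 0), (nat_lit 0)), ((nat_lit 1000), (nat_lit 1000), (nat_lit 198)), ((nat_lit 777), (nat_lit 1000), (nat_lit 712))], ((nat_lit 100), (nat_lit 79), (nat_lit 70))⟩, (nat_lit 1292069), (nat_lit 300), (nat_lit 942), (nat_lit 34937500), (nat_lit 1344350), [(nat_lit 3493750000), (nat_lit 5501678000), (nat_lit 7858422000)], [], [(nat_lit 27729954046), (nat_lit 27593501954), (nat_lit 28531952996), (nat_lit 28554135736), (nat_lit 23820390019), (nat_lit 23427008407), (nat_lit 24134102722), (nat_lit 23898161273)], (nat_lit 1271251), (nat_lit 1271251), (nat_lit 1271251), (nat_lit 1271251), (nat_lit 54688), (nat_lit 780000), [(nat_lit 1412501), (nat_lit 1271251), (nat_lit 1271251)], [(nat_lit 24), (nat_lit 63), (nat_lit 428), (nat_lit 200), (nat_lit 10)]⟩⟩)))) (.leaf ⟨(nat_lit 0), (nat_lit 0), (nat_lit 0), (nat_lit 1000), (nat_lit 0), (nat_lit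 4423), (nat_lit 10438), (nat_lit 12453), (nat_lit 0), (nat_lit 6421522182176), (nat_lit 0), [], Pd.none, Pd.none, (nat_lit 0), (nat_lit 1), (nat_lit 0), (nat_lit 0), (nat_lit 0), (nat_lit 0), [], [], [], [],
 ⟨⟨[(nat_lit 40), (nat_lit 80), (nat_lit 100)], [(nat_lit 0), (nat_lit 1598), (nat_lit 2533)], [((nat_lit 0), (nat_lit 0), (nat_lit 0)), ((nat_lit 1000), (nat_lit 625), (nat_lit 623)), ((nat_lit 1000), (nat_lit 604), (nat_lit 730))], ((nat_lit 61), (nat_lit 100), (nat_lit 70))⟩, (nat_lit 11325357), (nat_lit 232), (nat_lit 232), (nat_lit 0), (nat_lit 482440), [(nat_lit 2032000021), (nat_lit 9043130042), (nat_lit 6250000000)], [], [(nat_lit 25208569239), (nat_lit 26269610746), (nat_lit 31443337054), (nat_lit 32454231885), (nat_lit 31443337054), (nat_lit 32454231885), (nat_lit 35959621450), (nat_lit 36681675609)], (nat_lit 1271251), (nat_lit 1271251), (nat_lit 1271251), (nat_lit 1271251), (nat_lit 1271251), (nat_lit 1271251), [(nat_lit 490000), (nat_lit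 1100000), (nat_lit 1442501)], [(nat_lit 3), (nat_lit 50), (nat_lit 203), (nat_lit 0), (nat_lit 5)]⟩,
 ⟨⟨[(nat_lit 80), (nat_lit 120), (nat_lit 160)], [(nat_lit 0), (nat_lit 0), (nat_lit 2132)], [((nat_lit 0), (nat_lit 0), (nat_lit 0)), ((nat_lit 0), (nat_lit 0), (nat_lit 0)), ((nat_lit 858), (nat_lit 1000), (nat_lit 713))], ((nat_lit 100), (nat_lit 86), (nat_lit 71))⟩, (nat_lit 7510027), (nat_lit 963), (nat_lit 963), (nat_lit 0), (nat_lit 1709576), [(nat_lit 4688000000), (nat_lit 7968000000), (nat_lit 11872000000)], [], [(nat_lit 27463398476), (nat_lit 27380480282), (nat_lit 30458795947), (nat_lit 33355786097), (nat_lit 45701153480), (nat_lit 36658526196), (nat_lit 41706909790), (nat_lit 42664406004)], (nat_lit 1271251), (nat_lit 1271251), (nat_lit 1271251), (nat_lit 1271251), (nat_lit 780000), (nat_lit 3072501), [(nat_lit 1100000), (nat_lit 1785001), (nat_lit 1271251)], [(nat_lit 18), (nat_lit 59), (nat_lit 538), (nat_lit 300), (nat_lit 13)]⟩,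
 ⟨⟨[(nat_lit 100), (nat_lit 140), (nat_lit 180)], [(nat_lit 0), (nat_lit 508), (nat_lit 2854)], [((nat_lit 0), (nat_lit 0), (nat_lit 0)), ((nat_lit 1000), (nat_lit 1000), (nat_lit 198)), ((nat_lit 777), (nat_lit 1000), (nat_lit 712))], ((nat_lit 100), (nat_lit 79), (nat_lit 70))⟩, (nat_lit 4559450), (nat_lit 300), (nat_lit 849), (nat_lit 62500000), (nat_lit 1347054), [(nat_lit 6250000000), (nat_lit 9842000000), (nat_lit 14058000000)], [], [(nat_lit 38073828457), (nat_lit 37581254917), (nat_lit 41226088219), (nat_lit 40975226723), (nat_lit 37885254810), (nat_lit 37397844970), (nat_lit 44708510273), (nat_lit 45427994624)], (nat_lit 1271251), (nat_lit 1271251), (nat_lit 1271251), (nat_lit 1271251), (nat_lit 780000), (nat_lit 3072501), [(nat_lit 1412501), (nat_lit 1271251), (nat_lit 1271251)], [(nat_lit 24), (nat_lit 63), (nat_lit 538), (nat_lit 300), (nat_lit 12)]⟩⟩)))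
noncomputable def c17_124 : Tr Lf :=
 (.trZ (nat_lit 0) (nat_lit 1) (nat_lit 3) (nat_lit 94) (nat_lit 62) (nat_lit 100) (nat_lit 150) (.trZ (nat_lit 1) (nat_lit 2) (nat_lit 5) (nat_lit 100) (nat_lit 92) (nat_lit 49) (nat_lit 20) (.stt (nat_lit 3) (.leaf ⟨(nat_lit 0), (nat_lit 0), (nat_lit 253), (nat_lit 747), (nat_lit 0), (nat_lit 7819), (nat_lit 6124), (nat_lit 7471), (nat_lit 0), (nat_lit 121693), (nat_lit 0), [], Pd.none, Pd.none, (nat_lit 0), (nat_lit 1), (nat_lit 0), (nat_lit 0), (nat_lit 0), (nat_lit 7), [⟨(nat_lit 0), (nat_lit 87), (nat_lit 53), (nat_lit 100), (nat_lit 157310658)⟩], [⟨(nat_lit 0), (nat_lit 96), (nat_lit 54), (nat_lit 100), (nat_lit 290188265)⟩], [⟨(nat_lit 0), (nat_lit 100), (nat_lit 92), (nat_lit 82), (nat_lit 207323605)⟩], [],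
 ⟨⟨[(nat_lit 40), (nat_lit 80), (nat_lit 100)], [(nat_lit 0), (nat_lit 1598), (nat_lit 2533)], [((nat_lit 0), (nat_lit 0), (nat_lit 0)), ((nat_lit 1000), (nat_lit 625), (nat_lit 623)), ((nat_lit 1000), (nat_lit 604), (nat_lit 730))], ((nat_lit 61), (nat_lit 100), (nat_lit 70))⟩, (nat_lit 461903), (nat_lit 300), (nat_lit 329), (nat_lit 50800001), (nat_lit 621184), [(nat_lit 2032000002), (nat_lit 4688000043), (nat_lit 6250000000)], [], [(nat_lit 27713579550), (nat_lit 25974768174), (nat_lit 38787164916), (nat_lit 40374834971), (nat_lit 36939427583), (nat_lit 38409406049), (nat_lit 42738097657), (nat_lit 43298902069)], (nat_lit 1271251), (nat_lit 1271251), (nat_lit 1017188), (nat_lit 3134376), (nat_lit 559688), (nat_lit 3010626), [(nat_lit 490000), (nat_lit 1100000), (nat_lit 1442501)], [(nat_lit 3), (nat_lit 50), (nat_lit 428), (nat_lit 200), (nat_lit 16)]⟩,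
 ⟨⟨[(nat_lit 60), (nat_lit 100), (nat_lit 140)], [(nat_lit 0), (nat_lit 0), (nat_lit 2047)], [((nat_lit 0), (nat_lit 0), (nat_lit 0)), ((nat_lit 0), (nat_lit 0), (nat_lit 0)), ((nat_lit 1000), (nat_lit 993), (nat_lit 781))], ((nat_lit 98), (nat_lit 100), (nat_lit 74))⟩, (nat_lit 1420282), (nat_lit 930), (nat_lit 930), (nat_lit 0), (nat_lit 1616154), [(nat_lit 2451654000), (nat_lit 4668750000), (nat_lit 7351974000)], [], [(nat_lit 27514286033), (nat_lit 27874446643), (nat_lit 29781027407), (nat_lit 31592261961), (nat_lit 32850719322), (nat_lit 27461504400), (nat_lit 30436176388), (nat_lit 31057174632)], (nat_lit 1271251), (nat_lit 1271251), (nat_lit 1271251), (nat_lit 1271251), (nat_lit 111251), (nat_lit 2866250), [(nat_lit 780000), (nat_lit 1435001), (nat_lit 1271251)], [(nat_lit 11), (nat_lit 55), (nat_lit 428), (nat_lit 200), (nat_lit 12)]⟩,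
 ⟨⟨[(nat_lit 100), (nat_lit 140), (nat_lit 180)], [(nat_lit 0), (nat_lit 508), (nat_lit 2854)], [((nat_lit 0), (nat_lit 0), (nat_lit 0)), ((nat_lit 1000), (nat_lit 1000), (nat_lit 198)), ((nat_lit 777), (nat_lit 1000), (nat_lit 712))], ((nat_lit 100), (nat_lit 79), (nat_lit 70))⟩, (nat_lit 9196987), (nat_lit 296), (nat_lit 296), (nat_lit 0), (nat_lit 0), [(nat_lit 6250000000), (nat_lit 9842000000), (nat_lit 14058000000)], [], [(nat_lit 22063474032), (nat_lit 28755706983), (nat_lit 35614651322), (nat_lit 40450973367), (nat_lit 31658682491), (nat_lit 35028523563), (nat_lit 38876244515), (nat_lit 40533328264)], (nat_lit 0), (nat_lit 0), (nat_lit 0), (nat_lit 0), (nat_lit 0), (nat_lit 0), [], [(nat_lit 24), (nat_lit 63), (nat_lit 538), (nat_lit 300), (nat_lit 13)]⟩⟩) (.spl (nat_lit 4) (nat_lit 240) (.spl (nat_lit 3) (nat_lit 280) (.spl (nat_lit 5) (nat_lit 120) (.leaf ⟨(nat_lit 590), (nat_lit 225), (nat_lit 0), (nat_lit 185), (nat_lit 0), (nat_lit 3571),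 (nat_lit 3257), (nat_lit 2156), (nat_lit 0), (nat_lit 534079), (nat_lit 301150), [((nat_lit 380), [((nat_lit 25), (nat_lit 0), (nat_lit 151)), ((nat_lit 41), (nat_lit 2), (nat_lit 439))])], ⟨(nat_lit 7), false, false, false, (nat_lit 254), (nat_lit 2236), (nat_lit 3163), [(nat_lit 1512044), (nat_lit 1519444), (nat_lit 1556227), (nat_lit 1564865), (nat_lit 1710480), (nat_lit 1705082), (nat_lit 1754663), (nat_lit 1750503)]⟩, ⟨(nat_lit 5), false, false, false, (nat_lit 211), (nat_lit 2236), (nat_lit 3163), [(nat_lit 1354183), (nat_lit 1365632), (nat_lit 1464641), (nat_lit 1479186), (nat_lit 1583107), (nat_lit 1579788), (nat_lit 1693606), (nat_lit 1693384)]⟩, (nat_lit 5296344), (nat_lit 37920252), (nat_lit 16698418), (nat_lit 12381330), (nat_lit 5), (nat_lit 0), [⟨(nat_lit 0), (nat_lit 87), (nat_lit 53), (nat_lit 100), (nat_lit 1136774)⟩, ⟨(nat_lit 0), (nat_lit 82), (nat_lit 44), (nat_lit 100), (nat_lit 213589070)⟩], [⟨(nat_lit 0), (nat_lit 96), (nat_lit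 54), (nat_lit 100), (nat_lit 121753590)⟩], [⟨(nat_lit 0), (nat_lit 100), (nat_lit 92), (nat_lit 82), (nat_lit 219712404)⟩], [],
 ⟨⟨[(nat_lit 40), (nat_lit 80), (nat_lit 100)], [(nat_lit 0), (nat_lit 1598), (nat_lit 2533)], [((nat_lit 0), (nat_lit 0), (nat_lit 0)), ((nat_lit 1000), (nat_lit 625), (nat_lit 623)), ((nat_lit 1000), (nat_lit 604), (nat_lit 730))], ((nat_lit 61), (nat_lit 100), (nat_lit 70))⟩, (nat_lit 1187039), (nat_lit 191), (nat_lit 191), (nat_lit 0), (nat_lit 300216), [(nat_lit 1536191249), (nat_lit 2293559922), (nat_lit 2568696400)], [(nat_lit 0), (nat_lit 0), (nat_lit 0)], [(nat_lit 19566706165), (nat_lit 21048301921), (nat_lit 23816314957), (nat_lit 25303238239), (nat_lit 22692596971), (nat_lit 23874536172), (nat_lit 25986097431), (nat_lit 27099991313)], (nat_lit 1271251), (nat_lit 1271251), (nat_lit 1017188), (nat_lit 2118126), (nat_lit 559688), (nat_lit 1745625), [(nat_lit 490000), (nat_lit 1100000), (nat_lit 1442501)], [(nat_lit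 3), (nat_lit 50), (nat_lit 373), (nat_lit 150), (nat_lit 13)]⟩,
 ⟨⟨[(nat_lit 60), (nat_lit 100), (nat_lit 140)], [(nat_lit 0), (nat_lit 0), (nat_lit 2047)], [((nat_lit 0), (nat_lit 0), (nat_lit 0)), ((nat_lit 0), (nat_lit 0), (nat_lit 0)), ((nat_lit 1000), (nat_lit 993), (nat_lit 781))], ((nat_lit 98), (nat_lit 100), (nat_lit 74))⟩, (nat_lit 1449888), (nat_lit 681), (nat_lit 681), (nat_lit 0), (nat_lit 1066077), [(nat_lit 1345620000), (nat_lit 2562500000), (nat_lit 4035220000)], [], [(nat_lit 12830907045), (nat_lit 13410958529), (nat_lit 13584145255), (nat_lit 13997983350), (nat_lit 11725721921), (nat_lit 12235317625), (nat_lit 12348229203), (nat_lit 12708792623)], (nat_lit 1271251), (nat_lit 1271251), (nat_lit 1017188), (nat_lit 2118126), (nat_lit 111251), (nat_lit 780000), [(nat_lit 780000), (nat_lit 1435001), (nat_lit 1271251)], [(nat_lit 11), (nat_lit 55), (nat_lit 317), (nat_lit 100), (nat_lit 9)]⟩,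
 ⟨⟨[(nat_lit 100), (nat_lit 140), (nat_lit 180)], [(nat_lit 0), (nat_lit 508), (nat_lit 2854)], [((nat_lit 0), (nat_lit 0), (nat_lit 0)), ((nat_lit 1000), (nat_lit 1000), (nat_lit 198)), ((nat_lit 777), (nat_lit 1000), (nat_lit 712))], ((nat_lit 100), (nat_lit 79), (nat_lit 70))⟩, (nat_lit 428419), (nat_lit 300), (nat_lit 1125), (nat_lit 11562500), (nat_lit 1599921), [(nat_lit 1156250000), (nat_lit 1820770000), (nat_lit 2600730000)], [], [(nat_lit 9630616512), (nat_lit 9696826038), (nat_lit 8752648993), (nat_lit 8736541134), (nat_lit 8305248578), (nat_lit 8319855863), (nat_lit 7434015852), (nat_lit 7359316438)], (nat_lit 1271251), (nat_lit 1271251), (nat_lit 559688), (nat_lit 1745625), (nat_lit 111251), (nat_lit 780000), [(nat_lit 1412501), (nat_lit 1271251), (nat_lit 1271251)], [(nat_lit 24), (nat_lit 63), (nat_lit 401), (nat_lit 175), (nat_lit 9)]⟩⟩) (.leaf ⟨(nat_lit 6), (nat_lit 287), (nat_lit 0), (nat_lit 707), (nat_lit 0), (nat_lit 4168), (nat_lit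 9243), (nat_lit 6119), (nat_lit 0), (nat_lit 146741), (nat_lit 24000), [((nat_lit 380), [((nat_lit 41), (nat_lit 5), (nat_lit 6))])], ⟨(nat_lit 7), false, false, false, (nat_lit 254), (nat_lit 2236), (nat_lit 3163), [(nat_lit 1512044), (nat_lit 1519444), (nat_lit 1556227), (nat_lit 1564865), (nat_lit 1710480), (nat_lit 1705082), (nat_lit 1754663), (nat_lit 1750503)]⟩, ⟨(nat_lit 5), false, false, false, (nat_lit 211), (nat_lit 2236), (nat_lit 3163), [(nat_lit 1354183), (nat_lit 1365632), (nat_lit 1464641), (nat_lit 1479186), (nat_lit 1583107), (nat_lit 1579788), (nat_lit 1693606), (nat_lit 1693384)]⟩, (nat_lit 5296344), (nat_lit 37920252), (nat_lit 16698418), (nat_lit 12381330), (nat_lit 5), (nat_lit 0), [⟨(nat_lit 0), (nat_lit 82), (nat_lit 44), (nat_lit 100), (nat_lit 1105806874)⟩], [⟨(nat_lit 0), (nat_lit 96), (nat_lit 54), (nat_lit 100), (nat_lit 151175259)⟩], [], [],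
 ⟨⟨[(nat_lit 40), (nat_lit 80), (nat_lit 100)], [(nat_lit 0), (nat_lit 1598), (nat_lit 2533)], [((nat_lit 0), (nat_lit 0), (nat_lit 0)), ((nat_lit 1000), (nat_lit 625), (nat_lit 623)), ((nat_lit 1000), (nat_lit 604), (nat_lit 730))], ((nat_lit 61), (nat_lit 100), (nat_lit 70))⟩, (nat_lit 5245295), (nat_lit 191), (nat_lit 191), (nat_lit 0), (nat_lit 300216), [(nat_lit 2008736841), (nat_lit 7032329941), (nat_lit 6045880000)], [(nat_lit 0), (nat_lit 0), (nat_lit 0)], [(nat_lit 20128129421), (nat_lit 21739272948), (nat_lit 24481632204), (nat_lit 26093408633), (nat_lit 23189665958), (nat_lit 24464631117), (nat_lit 26523468844), (nat_lit 27622427804)], (nat_lit 1271251), (nat_lit 1271251), (nat_lit 1017188), (nat_lit 2118126), (nat_lit 559688), (nat_lit 1745625), [(nat_lit 490000), (nat_lit 1100000), (nat_lit 1442501)], [(nat_lit 3), (nat_lit 50), (nat_lit 373), (nat_lit 150), (nat_lit 13)]⟩,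
 ⟨⟨[(nat_lit 60), (nat_lit 100), (nat_lit 140)], [(nat_lit 0), (nat_lit 0), (nat_lit 2047)], [((nat_lit 0), (nat_lit 0), (nat_lit 0)), ((nat_lit 0), (nat_lit 0), (nat_lit 0)), ((nat_lit 1000), (nat_lit 993), (nat_lit 781))], ((nat_lit 98), (nat_lit 100), (nat_lit 74))⟩, (nat_lit 3672143), (nat_lit 609), (nat_lit 609), (nat_lit 0), (nat_lit 1066077), [(nat_lit 3262308000), (nat_lit 6212500000), (nat_lit 9782948000)], [], [(nat_lit 23657728590), (nat_lit 22358289667), (nat_lit 22895963503), (nat_lit 24166313379), (nat_lit 41764302063), (nat_lit 35737184740), (nat_lit 35568064059), (nat_lit 37177870556)], (nat_lit 1271251), (nat_lit 1271251), (nat_lit 1271251), (nat_lit 1271251), (nat_lit 780000), (nat_lit 3072501), [(nat_lit 780000), (nat_lit 1435001), (nat_lit 1271251)], [(nat_lit 11), (nat_lit 55), (nat_lit 401), (nat_lit 175), (nat_lit 11)]⟩,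
 ⟨⟨[(nat_lit 100), (nat_lit 140), (nat_lit 180)], [(nat_lit 0), (nat_lit 508), (nat_lit 2854)], [((nat_lit 0), (nat_lit 0), (nat_lit 0)), ((nat_lit 1000), (nat_lit 1000), (nat_lit 198)), ((nat_lit 777), (nat_lit 1000), (nat_lit 712))], ((nat_lit 100), (nat_lit 79), (nat_lit 70))⟩, (nat_lit 2004365), (nat_lit 300), (nat_lit 1043), (nat_lit 44187500), (nat_lit 1599921), [(nat_lit 4418750000), (nat_lit 6958294000), (nat_lit 9939006000)], [], [(nat_lit 41200331975), (nat_lit 40304217059), (nat_lit 38422699007), (nat_lit 37434282926), (nat_lit 38301401481), (nat_lit 37161779045), (nat_lit 46115851919), (nat_lit 34062323272)], (nat_lit 1271251), (nat_lit 1271251), (nat_lit 559688), (nat_lit 1745625), (nat_lit 780000), (nat_lit 3072501), [(nat_lit 1412501), (nat_lit 1271251), (nat_lit 1271251)], [(nat_lit 24), (nat_lit 63), (nat_lit 483), (nat_lit 250), (nat_lit 11)]⟩⟩)) (.leaf ⟨(nat_lit 35), (nat_lit 530), (nat_lit 0), (nat_lit 435), (nat_lit 0), (nat_lit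 3977), (nat_lit 7190), (nat_lit 4449), (nat_lit 0), (nat_lit 168126), (nat_lit 140000), [((nat_lit 380), [((nat_lit 41), (nat_lit 5), (nat_lit 35))])], ⟨(nat_lit 7), false, true, true, (nat_lit 327), (nat_lit 2236), (nat_lit 3163), [(nat_lit 1710480), (nat_lit 1705082), (nat_lit 1754663), (nat_lit 1750503), (nat_lit 1893385), (nat_lit 1876173), (nat_lit 1937695), (nat_lit 1921722)]⟩, ⟨(nat_lit 5), false, false, false, (nat_lit 211), (nat_lit 2236), (nat_lit 3163), [(nat_lit 1354183), (nat_lit 1365632), (nat_lit 1464641), (nat_lit 1479186), (nat_lit 1583107), (nat_lit 1579788), (nat_lit 1693606), (nat_lit 1693384)]⟩, (nat_lit 5475840), (nat_lit 32973431), (nat_lit 22892184), (nat_lit 11134385), (nat_lit 5), (nat_lit 0), [], [⟨(nat_lit 0), (nat_lit 96), (nat_lit 54), (nat_lit 100), (nat_lit 303781167)⟩], [⟨(nat_lit 0), (nat_lit 100), (nat_lit 92), (nat_lit 82), (nat_lit 36576414)⟩], [],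
 ⟨⟨[(nat_lit 40), (nat_lit 80), (nat_lit 100)], [(nat_lit 0), (nat_lit 1598), (nat_lit 2533)], [((nat_lit 0), (nat_lit 0), (nat_lit 0)), ((nat_lit 1000), (nat_lit 625), (nat_lit 623)), ((nat_lit 1000), (nat_lit 604), (nat_lit 730))], ((nat_lit 61), (nat_lit 100), (nat_lit 70))⟩, (nat_lit 4145031), (nat_lit 224), (nat_lit 224), (nat_lit 0), (nat_lit 300216), [(nat_lit 1896298029), (nat_lit 5121241639), (nat_lit 5059300000)], [(nat_lit 0), (nat_lit 0), (nat_lit 0)], [(nat_lit 24373711106), (nat_lit 25840607050), (nat_lit 31406224758), (nat_lit 32523314646), (nat_lit 26506522461), (nat_lit 27503130360), (nat_lit 31943163634), (nat_lit 32854015285)], (nat_lit 1271251), (nat_lit 1271251), (nat_lit 1271251), (nat_lit 1271251), (nat_lit 559688), (nat_lit 1745625), [(nat_lit 490000), (nat_lit 1100000), (nat_lit 1442501)], [(nat_lit 3), (nat_lit 50), (nat_lit 272), (nat_lit 60), (nat_lit 9)]⟩,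
 ⟨⟨[(nat_lit 60), (nat_lit 100), (nat_lit 140)], [(nat_lit 0), (nat_lit 0), (nat_lit 2047)], [((nat_lit 0), (nat_lit 0), (nat_lit 0)), ((nat_lit 0), (nat_lit 0), (nat_lit 0)), ((nat_lit 1000), (nat_lit 993), (nat_lit 781))], ((nat_lit 98), (nat_lit 100), (nat_lit 74))⟩, (nat_lit 2875733), (nat_lit 639), (nat_lit 639), (nat_lit 0), (nat_lit 1066077), [(nat_lit 3167130000), (nat_lit 6031250000), (nat_lit 9497530000)], [], [(nat_lit 33908100297), (nat_lit 34871110073), (nat_lit 37580312140), (nat_lit 38985773865), (nat_lit 33884727595), (nat_lit 34156570470), (nat_lit 38276239020), (nat_lit 39086681480)], (nat_lit 1271251), (nat_lit 1271251), (nat_lit 1271251), (nat_lit 1271251), (nat_lit 111251), (nat_lit 2866250), [(nat_lit 780000), (nat_lit 1435001), (nat_lit 1271251)], [(nat_lit 11), (nat_lit 55), (nat_lit 317), (nat_lit 100), (nat_lit 8)]⟩,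
 ⟨⟨[(nat_lit 100), (nat_lit 140), (nat_lit 180)], [(nat_lit 0), (nat_lit 508), (nat_lit 2854)], [((nat_lit 0), (nat_lit 0), (nat_lit 0)), ((nat_lit 1000), (nat_lit 1000), (nat_lit 198)), ((nat_lit 777), (nat_lit 1000), (nat_lit 712))], ((nat_lit 100), (nat_lit 79), (nat_lit 70))⟩, (nat_lit 1142365), (nat_lit 300), (nat_lit 1125), (nat_lit 27187500), (nat_lit 1599921), [(nat_lit 2718750000), (nat_lit 4281270000), (nat_lit 6115230000)], [], [(nat_lit 24298228388), (nat_lit 23930526936), (nat_lit 22239887794), (nat_lit 21760943106), (nat_lit 20352899403), (nat_lit 20081165805), (nat_lit 25845715041), (nat_lit 17965481076)], (nat_lit 1271251), (nat_lit 1271251), (nat_lit 559688), (nat_lit 1745625), (nat_lit 111251), (nat_lit 2866250), [(nat_lit 1412501), (nat_lit 1271251), (nat_lit 1271251)], [(nat_lit 24), (nat_lit 63), (nat_lit 483), (nat_lit 250), (nat_lit 11)]⟩⟩)) (.spl (nat_lit 6) (nat_lit 28) (.leaf ⟨(nat_lit 0), (nat_lit 408), (nat_lit 0), (nat_lit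 592), (nat_lit 0), (nat_lit 3960), (nat_lit 7944), (nat_lit 5433), (nat_lit 0), (nat_lit 17031), (nat_lit 0), [], Pd.none, Pd.none, (nat_lit 0), (nat_lit 1), (nat_lit 0), (nat_lit 0), (nat_lit 6), (nat_lit 0), [⟨(nat_lit 0), (nat_lit 82), (nat_lit 44), (nat_lit 100), (nat_lit 351534308)⟩], [], [⟨(nat_lit 0), (nat_lit 100), (nat_lit 92), (nat_lit 82), (nat_lit 49641691)⟩], [],
 ⟨⟨[(nat_lit 40), (nat_lit 60), (nat_lit 80)], [(nat_lit 0), (nat_lit 832), (nat_lit 1534)], [((nat_lit 0), (nat_lit 0), (nat_lit 0)), ((nat_lit 1000), (nat_lit 659), (nat_lit 528)), ((nat_lit 1000), (nat_lit 650), (nat_lit 549))], ((nat_lit 65), (nat_lit 100), (nat_lit 55))⟩, (nat_lit 6217672), (nat_lit 175), (nat_lit 175), (nat_lit 0), (nat_lit 293170), [(nat_lit 2032000005), (nat_lit 4284637542), (nat_lit 4688000000)], [], [(nat_lit 23768091450), (nat_lit 25010645555), (nat_lit 31921338320), (nat_lit 32830721800), (nat_lit 30993392590), (nat_lit 32037430555), (nat_lit 36748063520),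 (nat_lit 37372438960)], (nat_lit 1271251), (nat_lit 1271251), (nat_lit 1017188), (nat_lit 3134376), (nat_lit 1271251), (nat_lit 1271251), [(nat_lit 490000), (nat_lit 780000), (nat_lit 1100000)], [(nat_lit 2), (nat_lit 44), (nat_lit 317), (nat_lit 100), (nat_lit 13)]⟩,
 ⟨⟨[(nat_lit 60), (nat_lit 100), (nat_lit 120)], [(nat_lit 0), (nat_lit 0), (nat_lit 1164)], [((nat_lit 0), (nat_lit 0), (nat_lit 0)), ((nat_lit 0), (nat_lit 0), (nat_lit 0)), ((nat_lit 1000), (nat_lit 933), (nat_lit 572))], ((nat_lit 92), (nat_lit 100), (nat_lit 51))⟩, (nat_lit 2283725), (nat_lit 609), (nat_lit 609), (nat_lit 0), (nat_lit 1054172), [(nat_lit 3282000000), (nat_lit 6250000000), (nat_lit 7968000000)], [], [(nat_lit 31294507296), (nat_lit 32709273359), (nat_lit 39261328012), (nat_lit 41648693088), (nat_lit 43993363268), (nat_lit 37002520136), (nat_lit 40377290144), (nat_lit 41211508096)], (nat_lit 1271251), (nat_lit 1271251), (nat_lit 1271251), (nat_lit 1271251), (nat_lit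 111251), (nat_lit 2866250), [(nat_lit 780000), (nat_lit 1435001), (nat_lit 1271251)], [(nat_lit 10), (nat_lit 54), (nat_lit 428), (nat_lit 200), (nat_lit 14)]⟩,
 ⟨⟨[(nat_lit 100), (nat_lit 140), (nat_lit 160)], [(nat_lit 0), (nat_lit 508), (nat_lit 1689)], [((nat_lit 0), (nat_lit 0), (nat_lit 0)), ((nat_lit 1000), (nat_lit 1000), (nat_lit 198)), ((nat_lit 811), (nat_lit 1000), (nat_lit 671))], ((nat_lit 100), (nat_lit 91), (nat_lit 51))⟩, (nat_lit 2364102), (nat_lit 300), (nat_lit 978), (nat_lit 37000000), (nat_lit 1579929), [(nat_lit 3700000000), (nat_lit 5826464000), (nat_lit 7028224000)], [], [(nat_lit 29859432519), (nat_lit 29133284202), (nat_lit 29297337442), (nat_lit 28633368037), (nat_lit 24701808898), (nat_lit 23751775648), (nat_lit 24590324133), (nat_lit 25444093048)], (nat_lit 1271251), (nat_lit 1271251), (nat_lit 1271251), (nat_lit 1271251), (nat_lit 111251), (nat_lit 2866250), [(nat_lit 1412501), (nat_lit 1271251), (nat_lit 1271251)], [(nat_lit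 23), (nat_lit 62), (nat_lit 538), (nat_lit 300), (nat_lit 13)]⟩⟩) (.leaf ⟨(nat_lit 0), (nat_lit 329), (nat_lit 0), (nat_lit 671), (nat_lit 0), (nat_lit 4095), (nat_lit 9374), (nat_lit 6334), (nat_lit 0), (nat_lit 533080), (nat_lit 0), [], Pd.none, Pd.none, (nat_lit 0), (nat_lit 1), (nat_lit 0), (nat_lit 0), (nat_lit 6), (nat_lit 0), [], [], [⟨(nat_lit 0), (nat_lit 100), (nat_lit 92), (nat_lit 82), (nat_lit 158112548)⟩], [],
 ⟨⟨[(nat_lit 40), (nat_lit 80), (nat_lit 100)], [(nat_lit 0), (nat_lit 1598), (nat_lit 2533)], [((nat_lit 0), (nat_lit 0), (nat_lit 0)), ((nat_lit 1000), (nat_lit 625), (nat_lit 623)), ((nat_lit 1000), (nat_lit 604), (nat_lit 730))], ((nat_lit 61), (nat_lit 100), (nat_lit 70))⟩, (nat_lit 2101628), (nat_lit 165), (nat_lit 165), (nat_lit 0), (nat_lit 204961), [(nat_lit 2032000328), (nat_lit 4794195894), (nat_lit 6250000000)], [], [(nat_lit 22991124280), (nat_lit 24135786420), (nat_lit 32094656990), (nat_lit 33015699475), (nat_lit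 31201403662), (nat_lit 32260342370), (nat_lit 36950801390), (nat_lit 37579765345)], (nat_lit 1271251), (nat_lit 1271251), (nat_lit 1017188), (nat_lit 3134376), (nat_lit 1271251), (nat_lit 1271251), [(nat_lit 490000), (nat_lit 1100000), (nat_lit 1442501)], [(nat_lit 3), (nat_lit 50), (nat_lit 317), (nat_lit 100), (nat_lit 10)]⟩,
 ⟨⟨[(nat_lit 60), (nat_lit 100), (nat_lit 140)], [(nat_lit 0), (nat_lit 0), (nat_lit 2047)], [((nat_lit 0), (nat_lit 0), (nat_lit 0)), ((nat_lit 0), (nat_lit 0), (nat_lit 0)), ((nat_lit 1000), (nat_lit 993), (nat_lit 781))], ((nat_lit 98), (nat_lit 100), (nat_lit 74))⟩, (nat_lit 480676), (nat_lit 488), (nat_lit 488), (nat_lit 0), (nat_lit 671884), [(nat_lit 3282000000), (nat_lit 6250000000), (nat_lit 9842000000)], [], [(nat_lit 31611524806), (nat_lit 30723700722), (nat_lit 42683360409), (nat_lit 45269706198), (nat_lit 43900534103), (nat_lit 36549234373), (nat_lit 42443891824), (nat_lit 43261819216)], (nat_lit 1271251), (nat_lit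 1271251), (nat_lit 1271251), (nat_lit 1271251), (nat_lit 111251), (nat_lit 2866250), [(nat_lit 780000), (nat_lit 1435001), (nat_lit 1271251)], [(nat_lit 11), (nat_lit 55), (nat_lit 428), (nat_lit 200), (nat_lit 12)]⟩,
 ⟨⟨[(nat_lit 100), (nat_lit 140), (nat_lit 180)], [(nat_lit 0), (nat_lit 508), (nat_lit 2854)], [((nat_lit 0), (nat_lit 0), (nat_lit 0)), ((nat_lit 1000), (nat_lit 1000), (nat_lit 198)), ((nat_lit 777), (nat_lit 1000), (nat_lit 712))], ((nat_lit 100), (nat_lit 79), (nat_lit 70))⟩, (nat_lit 1442386), (nat_lit 300), (nat_lit 774), (nat_lit 41937500), (nat_lit 998310), [(nat_lit 4193750000), (nat_lit 6603982000), (nat_lit 9432918000)], [], [(nat_lit 36125749379), (nat_lit 35523975945), (nat_lit 36087784797), (nat_lit 35352205170), (nat_lit 30076022147), (nat_lit 29076510872), (nat_lit 29802515226), (nat_lit 29091833144)], (nat_lit 1271251), (nat_lit 1271251), (nat_lit 1271251), (nat_lit 1271251), (nat_lit 111251), (nat_lit 2866250), [(nat_lit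 1412501), (nat_lit 1271251), (nat_lit 1271251)], [(nat_lit 24), (nat_lit 63), (nat_lit 538), (nat_lit 300), (nat_lit 12)]⟩⟩))))))
noncomputable def c17_125 : Tr Lf :=
 (.spl (nat_lit 1) (nat_lit 280) (.ord (.spl (nat_lit 6) (nat_lit 88) (.spl (nat_lit 2) (nat_lit 260) (.spl (nat_lit 6) (nat_lit 80) (.spl (nat_lit 5) (nat_lit 120) (.spl (nat_lit 3) (nat_lit 160) (.spl (nat_lit 4) (nat_lit 160) (.leaf ⟨(nat_lit 809), (nat_lit 47), (nat_lit 0), (nat_lit 144), (nat_lit 12438), (nat_lit 3618), (nat_lit 2451), (nat_lit 1687), (nat_lit 0), (nat_lit 13225), (nat_lit 500600), [((nat_lit 380), [((nat_lit 41), (nat_lit 2), (nat_lit 771)), ((nat_lit 25), (nat_lit 2), (nat_lit 38))])], ⟨(nat_lit 6), false, false, false, (nat_lit 188), (nat_lit 2236), (nat_lit 3163), [(nat_lit 1406804), (nat_lit 1416903), (nat_lit 1450987), (nat_lit 1462324), (nat_lit 1483125), (nat_lit 1488302), (nat_lit 1527308), (nat_lit 1533723)]⟩, ⟨(nat_lit 5), false, false, false, (nat_lit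 174), (nat_lit 2236), (nat_lit 3163), [(nat_lit 1354183), (nat_lit 1365632), (nat_lit 1398366), (nat_lit 1411053), (nat_lit 1461034), (nat_lit 1465591), (nat_lit 1505217), (nat_lit 1511013)]⟩, (nat_lit 4595586), (nat_lit 45241409), (nat_lit 11582958), (nat_lit 10175633), (nat_lit 5), (nat_lit 0), [⟨(nat_lit 0), (nat_lit 98), (nat_lit 54), (nat_lit 100), (nat_lit 402759585)⟩], [⟨(nat_lit 0), (nat_lit 100), (nat_lit 54), (nat_lit 96), (nat_lit 300888418)⟩], [⟨(nat_lit 0), (nat_lit 100), (nat_lit 97), (nat_lit 49), (nat_lit 102331369)⟩], [],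
 ⟨⟨[(nat_lit 40), (nat_lit 80), (nat_lit 100)], [(nat_lit 0), (nat_lit 1598), (nat_lit 2533)], [((nat_lit 0), (nat_lit 0), (nat_lit 0)), ((nat_lit 1000), (nat_lit 625), (nat_lit 623)), ((nat_lit 1000), (nat_lit 604), (nat_lit 730))], ((nat_lit 60), (nat_lit 100), (nat_lit 80))⟩, (nat_lit 3957), (nat_lit 149), (nat_lit 149), (nat_lit 0), (nat_lit 153747), [(nat_lit 1416652810), (nat_lit 979373292), (nat_lit 494793200)], [(nat_lit 0), (nat_lit 0), (nat_lit 0)], [(nat_lit 19126984474), (nat_lit 20909154450), (nat_lit 19575668296), (nat_lit 21149403238), (nat_lit 19744320649), (nat_lit 21261557110), (nat_lit 20169623833), (nat_lit 21541994661)], (nat_lit 1271251), (nat_lit 1271251), (nat_lit 704688), (nat_lit 1100000), (nat_lit 559688), (nat_lit 1100000), [(nat_lit 490000), (nat_lit 1100000), (nat_lit 1442501)], [(nat_lit 3), (nat_lit 50), (nat_lit 317), (nat_lit 100), (nat_lit 11)]⟩,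
 ⟨⟨[(nat_lit 80), (nat_lit 140), (nat_lit 180)], [(nat_lit 0), (nat_lit 0), (nat_lit 3656)], [((nat_lit 0), (nat_lit 0), (nat_lit 0)), ((nat_lit 0), (nat_lit 0), (nat_lit 0)), ((nat_lit 637), (nat_lit 1000), (nat_lit 908))], ((nat_lit 100), (nat_lit 76), (nat_lit 82))⟩, (nat_lit 446484), (nat_lit 451), (nat_lit 451), (nat_lit 0), (nat_lit 218128), [(nat_lit 895408000), (nat_lit 1879822000), (nat_lit 2685078000)], [], [(nat_lit 6955963094), (nat_lit 7370855372), (nat_lit 6742582264), (nat_lit 6961854960), (nat_lit 6761101791), (nat_lit 5406958797), (nat_lit 8070218902), (nat_lit 5835541711)], (nat_lit 1271251), (nat_lit 1271251), (nat_lit 704688), (nat_lit 1100000), (nat_lit 0), (nat_lit 780000), [(nat_lit 1100000), (nat_lit 2127501), (nat_lit 1271251)], [(nat_lit 19), (nat_lit 63), (nat_lit 373), (nat_lit 150), (nat_lit 9)]⟩,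
 ⟨⟨[(nat_lit 100), (nat_lit 140), (nat_lit 180)], [(nat_lit 0), (nat_lit 508), (nat_lit 2854)], [((nat_lit 0), (nat_lit 0), (nat_lit 0)), ((nat_lit 1000), (nat_lit 1000), (nat_lit 198)), ((nat_lit 777), (nat_lit 1000), (nat_lit 712))], ((nat_lit 100), (nat_lit 68), (nat_lit 80))⟩, (nat_lit 91862), (nat_lit 300), (nat_lit 488), (nat_lit 9789877), (nat_lit 270638), [(nat_lit 900000000), (nat_lit 1417248000), (nat_lit 2024352000)], [], [(nat_lit 7562390226), (nat_lit 7678247206), (nat_lit 7135547932), (nat_lit 7231020334), (nat_lit 6161457751), (nat_lit 6263426079), (nat_lit 6209760272), (nat_lit 5858503011)], (nat_lit 1271251), (nat_lit 1271251), (nat_lit 559688), (nat_lit 1100000), (nat_lit 0), (nat_lit 780000), [(nat_lit 1412501), (nat_lit 1271251), (nat_lit 1271251)], [(nat_lit 24), (nat_lit 63), (nat_lit 373), (nat_lit 150), (nat_lit 9)]⟩⟩) (.leaf ⟨(nat_lit 0), (nat_lit 49), (nat_lit 0), (nat_lit 951), (nat_lit 22116), (nat_lit 8239), (nat_lit 14265),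 (nat_lit 12260), (nat_lit 0), (nat_lit 179280), (nat_lit 0), [], Pd.none, Pd.none, (nat_lit 0), (nat_lit 1), (nat_lit 0), (nat_lit 0), (nat_lit 5), (nat_lit 0), [⟨(nat_lit 0), (nat_lit 98), (nat_lit 54), (nat_lit 100), (nat_lit 1603667758)⟩], [], [⟨(nat_lit 0), (nat_lit 100), (nat_lit 98), (nat_lit 30), (nat_lit 840266775)⟩], [],
 ⟨⟨[(nat_lit 40), (nat_lit 80), (nat_lit 100)], [(nat_lit 0), (nat_lit 1598), (nat_lit 2533)], [((nat_lit 0), (nat_lit 0), (nat_lit 0)), ((nat_lit 1000), (nat_lit 625), (nat_lit 623)), ((nat_lit 1000), (nat_lit 604), (nat_lit 730))], ((nat_lit 60), (nat_lit 100), (nat_lit 80))⟩, (nat_lit 0), (nat_lit 129), (nat_lit 129), (nat_lit 0), (nat_lit 153747), [(nat_lit 3306272804), (nat_lit 5623061394), (nat_lit 6250000000)], [], [(nat_lit 23436166748), (nat_lit 25954987241), (nat_lit 23005321326), (nat_lit 25256050441), (nat_lit 25786058160), (nat_lit 28447965711), (nat_lit 25138710022), (nat_lit 27480107674)], (nat_lit 1271251),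 (nat_lit 1271251), (nat_lit 704688), (nat_lit 1100000), (nat_lit 1100000), (nat_lit 1785001), [(nat_lit 490000), (nat_lit 1100000), (nat_lit 1442501)], [(nat_lit 3), (nat_lit 50), (nat_lit 317), (nat_lit 100), (nat_lit 11)]⟩,
 ⟨⟨[(nat_lit 80), (nat_lit 140), (nat_lit 180)], [(nat_lit 0), (nat_lit 0), (nat_lit 3656)], [((nat_lit 0), (nat_lit 0), (nat_lit 0)), ((nat_lit 0), (nat_lit 0), (nat_lit 0)), ((nat_lit 637), (nat_lit 1000), (nat_lit 908))], ((nat_lit 100), (nat_lit 76), (nat_lit 82))⟩, (nat_lit 2873486), (nat_lit 451), (nat_lit 451), (nat_lit 0), (nat_lit 218128), [(nat_lit 4688000000), (nat_lit 9842000000), (nat_lit 14058000000)], [], [(nat_lit 34019586907), (nat_lit 38021845431), (nat_lit 34320039440), (nat_lit 35563184724), (nat_lit 34256047365), (nat_lit 24835184516), (nat_lit 41698684010), (nat_lit 28692698645)], (nat_lit 1271251), (nat_lit 1271251), (nat_lit 704688), (nat_lit 1100000), (nat_lit 0), (nat_lit 780000), [(nat_lit 1100000),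 (nat_lit 2127501), (nat_lit 1271251)], [(nat_lit 19), (nat_lit 63), (nat_lit 373), (nat_lit 150), (nat_lit 9)]⟩,
 ⟨⟨[(nat_lit 100), (nat_lit 140), (nat_lit 180)], [(nat_lit 0), (nat_lit 508), (nat_lit 2854)], [((nat_lit 0), (nat_lit 0), (nat_lit 0)), ((nat_lit 1000), (nat_lit 1000), (nat_lit 198)), ((nat_lit 777), (nat_lit 1000), (nat_lit 712))], ((nat_lit 100), (nat_lit 68), (nat_lit 80))⟩, (nat_lit 606675), (nat_lit 300), (nat_lit 451), (nat_lit 64653937), (nat_lit 270638), [(nat_lit 5943750000), (nat_lit 9359742000), (nat_lit 13369158000)], [], [(nat_lit 46874278322), (nat_lit 47481843512), (nat_lit 46485767294), (nat_lit 46812148438), (nat_lit 36830780473), (nat_lit 37341811083), (nat_lit 36403435780), (nat_lit 36654282886)], (nat_lit 1271251), (nat_lit 1271251), (nat_lit 1100000), (nat_lit 1785001), (nat_lit 0), (nat_lit 780000), [(nat_lit 1412501), (nat_lit 1271251), (nat_lit 1271251)], [(nat_lit 24), (nat_lit 63), (nat_lit 401), (nat_lit 175),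 (nat_lit 9)]⟩⟩)) (.spl (nat_lit 0) (nat_lit 370) (.spl (nat_lit 6) (nat_lit 72) (.leaf ⟨(nat_lit 0), (nat_lit 690), (nat_lit 0), (nat_lit 310), (nat_lit 23314), (nat_lit 4508), (nat_lit 6436), (nat_lit 3431), (nat_lit 0), (nat_lit 70419), (nat_lit 0), [], Pd.none, Pd.none, (nat_lit 0), (nat_lit 1), (nat_lit 0), (nat_lit 0), (nat_lit 5), (nat_lit 0), [], [⟨(nat_lit 0), (nat_lit 100), (nat_lit 58), (nat_lit 94), (nat_lit 107414772)⟩], [⟨(nat_lit 0), (nat_lit 100), (nat_lit 97), (nat_lit 49), (nat_lit 386600099)⟩], [],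
 ⟨⟨[(nat_lit 40), (nat_lit 80), (nat_lit 100)], [(nat_lit 0), (nat_lit 1598), (nat_lit 2533)], [((nat_lit 0), (nat_lit 0), (nat_lit 0)), ((nat_lit 1000), (nat_lit 625), (nat_lit 623)), ((nat_lit 1000), (nat_lit 604), (nat_lit 730))], ((nat_lit 60), (nat_lit 100), (nat_lit 77))⟩, (nat_lit 1895017), (nat_lit 111), (nat_lit 111), (nat_lit 0), (nat_lit 96928), [(nat_lit 2117136835), (nat_lit 5046086183), (nat_lit 6250000000)], [], [(nat_lit 20207162898), (nat_lit 21056463323), (nat_lit 22689628895), (nat_lit 23614853114), (nat_lit 22795385056), (nat_lit 23637574692), (nat_lit 24880641920), (nat_lit 25607779168)], (nat_lit 1271251), (nat_lit 1271251), (nat_lit 1100000), (nat_lit 1785001), (nat_lit 559688), (nat_lit 1745625), [(nat_lit 490000), (nat_lit 1100000), (nat_lit 1442501)], [(nat_lit 3), (nat_lit 50), (nat_lit 345), (nat_lit 125), (nat_lit 12)]⟩,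
 ⟨⟨[(nat_lit 80), (nat_lit 140), (nat_lit 180)], [(nat_lit 0), (nat_lit 0), (nat_lit 3656)], [((nat_lit 0), (nat_lit 0), (nat_lit 0)), ((nat_lit 0), (nat_lit 0), (nat_lit 0)), ((nat_lit 637), (nat_lit 1000), (nat_lit 908))], ((nat_lit 100), (nat_lit 80), (nat_lit 78))⟩, (nat_lit 2079727), (nat_lit 390), (nat_lit 390), (nat_lit 0), (nat_lit 131890), [(nat_lit 4688000000), (nat_lit 9842000000), (nat_lit 14058000000)], [], [(nat_lit 39185360024), (nat_lit 40447082456), (nat_lit 40119612712), (nat_lit 41302115592), (nat_lit 35675570800), (nat_lit 36796765144), (nat_lit 39745226616), (nat_lit 37910908144)], (nat_lit 1271251), (nat_lit 1271251), (nat_lit 1100000), (nat_lit 1785001), (nat_lit 0), (nat_lit 780000), [(nat_lit 1100000), (nat_lit 2127501), (nat_lit 1271251)], [(nat_lit 19), (nat_lit 63), (nat_lit 401), (nat_lit 175), (nat_lit 9)]⟩,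
 ⟨⟨[(nat_lit 100), (nat_lit 140), (nat_lit 180)], [(nat_lit 0), (nat_lit 508), (nat_lit 2854)], [((nat_lit 0), (nat_lit 0), (nat_lit 0)), ((nat_lit 1000), (nat_lit 1000), (nat_lit 198)), ((nat_lit 777), (nat_lit 1000), (nat_lit 712))], ((nat_lit 100), (nat_lit 72), (nat_lit 77))⟩, (nat_lit 197759), (nat_lit 300), (nat_lit 436), (nat_lit 21075422), (nat_lit 147135), [(nat_lit 1937500000), (nat_lit 3051020000), (nat_lit 4357980000)], [], [(nat_lit 16252977790), (nat_lit 16503818191), (nat_lit 15370802620), (nat_lit 15499855611), (nat_lit 13522883496), (nat_lit 13656654015), (nat_lit 12624031172), (nat_lit 12730336798)], (nat_lit 1271251), (nat_lit 1271251), (nat_lit 559688), (nat_lit 1745625), (nat_lit 0), (nat_lit 780000), [(nat_lit 1412501), (nat_lit 1271251), (nat_lit 1271251)], [(nat_lit 24), (nat_lit 63), (nat_lit 401), (nat_lit 175), (nat_lit 10)]⟩⟩) (.dle (nat_lit 0))) (.trZ (nat_lit 0) (nat_lit 2) (nat_lit 4) (nat_lit 100) (nat_lit 53) (nat_lit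 90) (nat_lit 110) (.leaf ⟨(nat_lit 459), (nat_lit 319), (nat_lit 0), (nat_lit 222), (nat_lit 10652), (nat_lit 3784), (nat_lit 3538), (nat_lit 3038), (nat_lit 0), (nat_lit 156249), (nat_lit 114750), [((nat_lit 380), [((nat_lit 25), (nat_lit 0), (nat_lit 459))])], ⟨(nat_lit 6), false, false, false, (nat_lit 227), (nat_lit 2236), (nat_lit 2739), [(nat_lit 1485697), (nat_lit 1488457), (nat_lit 1530492), (nat_lit 1533965), (nat_lit 1603890), (nat_lit 1602558), (nat_lit 1648684), (nat_lit 1648065)]⟩, ⟨(nat_lit 5), false, false, false, (nat_lit 204), (nat_lit 2236), (nat_lit 2739), [(nat_lit 1389430), (nat_lit 1394390), (nat_lit 1434224), (nat_lit 1439898), (nat_lit 1581477), (nat_lit 1579788), (nat_lit 1626287), (nat_lit 1625312)]⟩, (nat_lit 5115908), (nat_lit 40241041), (nat_lit 14548032), (nat_lit 12210927), (nat_lit 5), (nat_lit 0), [⟨(nat_lit 0), (nat_lit 97), (nat_lit 49), (nat_lit 100), (nat_lit 113562697)⟩], [⟨(nat_lit 0), (nat_lit 100), (nat_lit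 49), (nat_lit 97), (nat_lit 119510234)⟩], [⟨(nat_lit 0), (nat_lit 100), (nat_lit 97), (nat_lit 49), (nat_lit 297754716)⟩], [],
 ⟨⟨[(nat_lit 40), (nat_lit 80), (nat_lit 100)], [(nat_lit 0), (nat_lit 2008), (nat_lit 2969)], [((nat_lit 0), (nat_lit 0), (nat_lit 0)), ((nat_lit 1000), (nat_lit 540), (nat_lit 733)), ((nat_lit 1000), (nat_lit 536), (nat_lit 751))], ((nat_lit 53), (nat_lit 100), (nat_lit 80))⟩, (nat_lit 1213960), (nat_lit 128), (nat_lit 128), (nat_lit 0), (nat_lit 151529), [(nat_lit 1674070605), (nat_lit 3660167316), (nat_lit 4353412000)], [(nat_lit 0), (nat_lit 0), (nat_lit 0)], [(nat_lit 20731824882), (nat_lit 21438681376), (nat_lit 22943011339), (nat_lit 23761175959), (nat_lit 23131571816), (nat_lit 23897548144), (nat_lit 25113633964), (nat_lit 25778665768)], (nat_lit 1271251), (nat_lit 1271251), (nat_lit 1100000), (nat_lit 1785001), (nat_lit 704688), (nat_lit 1756876), [(nat_lit 490000), (nat_lit 1100000), (nat_lit 1442501)], [(nat_lit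 3), (nat_lit 50), (nat_lit 345), (nat_lit 125), (nat_lit 12)]⟩,
 ⟨⟨[(nat_lit 80), (nat_lit 140), (nat_lit 180)], [(nat_lit 0), (nat_lit 0), (nat_lit 3656)], [((nat_lit 0), (nat_lit 0), (nat_lit 0)), ((nat_lit 0), (nat_lit 0), (nat_lit 0)), ((nat_lit 637), (nat_lit 1000), (nat_lit 908))], ((nat_lit 100), (nat_lit 76), (nat_lit 82))⟩, (nat_lit 1076755), (nat_lit 425), (nat_lit 425), (nat_lit 0), (nat_lit 218128), [(nat_lit 2536208000), (nat_lit 5324522000), (nat_lit 7605378000)], [], [(nat_lit 21285499988), (nat_lit 21970909922), (nat_lit 21784572292), (nat_lit 22446728648), (nat_lit 19340265112), (nat_lit 19948774062), (nat_lit 21492402360), (nat_lit 20357559568)], (nat_lit 1271251), (nat_lit 1271251), (nat_lit 1100000), (nat_lit 1785001), (nat_lit 0), (nat_lit 780000), [(nat_lit 1100000), (nat_lit 2127501), (nat_lit 1271251)], [(nat_lit 19), (nat_lit 63), (nat_lit 401), (nat_lit 175), (nat_lit 9)]⟩,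
 ⟨⟨[(nat_lit 100), (nat_lit 140), (nat_lit 180)], [(nat_lit 0), (nat_lit 508), (nat_lit 2854)], [((nat_lit 0), (nat_lit 0), (nat_lit 0)), ((nat_lit 1000), (nat_lit 1000), (nat_lit 198)), ((nat_lit 777), (nat_lit 1000), (nat_lit 712))], ((nat_lit 100), (nat_lit 68), (nat_lit 80))⟩, (nat_lit 141621), (nat_lit 300), (nat_lit 477), (nat_lit 15092721), (nat_lit 270638), [(nat_lit 1387500000), (nat_lit 2184924000), (nat_lit 3120876000)], [], [(nat_lit 11486263892), (nat_lit 11649863411), (nat_lit 10783784468), (nat_lit 10852918714), (nat_lit 8918025073), (nat_lit 9058190007), (nat_lit 8262116536), (nat_lit 8313034556)], (nat_lit 1271251), (nat_lit 1271251), (nat_lit 704688), (nat_lit 1756876), (nat_lit 0), (nat_lit 780000), [(nat_lit 1412501), (nat_lit 1271251), (nat_lit 1271251)], [(nat_lit 24), (nat_lit 63), (nat_lit 401), (nat_lit 175), (nat_lit 9)]⟩⟩)))) (.leaf ⟨(nat_lit 0), (nat_lit 0), (nat_lit 0), (nat_lit 1000), (nat_lit 23062), (nat_lit 4317), (nat_lit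 6832), (nat_lit 5543), (nat_lit 0), (nat_lit 209039), (nat_lit 0), [], Pd.none, Pd.none, (nat_lit 0), (nat_lit 1), (nat_lit 0), (nat_lit 0), (nat_lit 0), (nat_lit 0), [⟨(nat_lit 0), (nat_lit 98), (nat_lit 54), (nat_lit 100), (nat_lit 849829910)⟩], [⟨(nat_lit 0), (nat_lit 100), (nat_lit 54), (nat_lit 96), (nat_lit 473045806)⟩], [], [],
 ⟨⟨[(nat_lit 40), (nat_lit 80), (nat_lit 100)], [(nat_lit 0), (nat_lit 1598), (nat_lit 2533)], [((nat_lit 0), (nat_lit 0), (nat_lit 0)), ((nat_lit 1000), (nat_lit 625), (nat_lit 623)), ((nat_lit 1000), (nat_lit 604), (nat_lit 730))], ((nat_lit 60), (nat_lit 100), (nat_lit 80))⟩, (nat_lit 1778187), (nat_lit 149), (nat_lit 149), (nat_lit 0), (nat_lit 153747), [(nat_lit 2032000230), (nat_lit 4838618038), (nat_lit 6250000000)], [], [(nat_lit 20255988144), (nat_lit 22032178813), (nat_lit 22837695871), (nat_lit 24320203027), (nat_lit 22899063678), (nat_lit 24321907483), (nat_lit 24766741661), (nat_lit 26188170734)], (nat_lit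 1271251), (nat_lit 1271251), (nat_lit 704688), (nat_lit 1756876), (nat_lit 559688), (nat_lit 1745625), [(nat_lit 490000), (nat_lit 1100000), (nat_lit 1442501)], [(nat_lit 3), (nat_lit 50), (nat_lit 345), (nat_lit 125), (nat_lit 12)]⟩,
 ⟨⟨[(nat_lit 80), (nat_lit 140), (nat_lit 180)], [(nat_lit 0), (nat_lit 0), (nat_lit 3656)], [((nat_lit 0), (nat_lit 0), (nat_lit 0)), ((nat_lit 0), (nat_lit 0), (nat_lit 0)), ((nat_lit 637), (nat_lit 1000), (nat_lit 908))], ((nat_lit 100), (nat_lit 76), (nat_lit 82))⟩, (nat_lit 2148244), (nat_lit 389), (nat_lit 389), (nat_lit 0), (nat_lit 302805), [(nat_lit 4688000000), (nat_lit 9842000000), (nat_lit 14058000000)], [], [(nat_lit 34930370128), (nat_lit 36161578981), (nat_lit 38795224992), (nat_lit 36836720128), (nat_lit 53937209120), (nat_lit 47847673304), (nat_lit 67229897632), (nat_lit 61383591264)], (nat_lit 1271251), (nat_lit 1271251), (nat_lit 704688), (nat_lit 1756876), (nat_lit 780000), (nat_lit 3072501), [(nat_lit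 1100000), (nat_lit 2127501), (nat_lit 1271251)], [(nat_lit 19), (nat_lit 63), (nat_lit 483), (nat_lit 250), (nat_lit 11)]⟩,
 ⟨⟨[(nat_lit 100), (nat_lit 140), (nat_lit 180)], [(nat_lit 0), (nat_lit 508), (nat_lit 2854)], [((nat_lit 0), (nat_lit 0), (nat_lit 0)), ((nat_lit 1000), (nat_lit 1000), (nat_lit 198)), ((nat_lit 777), (nat_lit 1000), (nat_lit 712))], ((nat_lit 100), (nat_lit 68), (nat_lit 80))⟩, (nat_lit 637933), (nat_lit 300), (nat_lit 441), (nat_lit 67985218), (nat_lit 390894), [(nat_lit 6250000000), (nat_lit 9842000000), (nat_lit 14058000000)], [], [(nat_lit 52316234108), (nat_lit 52929741553), (nat_lit 52096118810), (nat_lit 52523392766), (nat_lit 56001946515), (nat_lit 56141839601), (nat_lit 58399635219), (nat_lit 54666806619)], (nat_lit 1271251), (nat_lit 1271251), (nat_lit 559688), (nat_lit 1745625), (nat_lit 780000), (nat_lit 3072501), [(nat_lit 1412501), (nat_lit 1271251), (nat_lit 1271251)], [(nat_lit 24), (nat_lit 63), (nat_lit 456),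 (nat_lit 225), (nat_lit 10)]⟩⟩)) (.dle (nat_lit 0))) (.ord (.trZ (nat_lit 0) (nat_lit 1) (nat_lit 3) (nat_lit 100) (nat_lit 63) (nat_lit 99) (nat_lit 130) (.trZ (nat_lit 0) (nat_lit 2) (nat_lit 4) (nat_lit 100) (nat_lit 63) (nat_lit 99) (nat_lit 130) (.trZ (nat_lit 1) (nat_lit 2) (nat_lit 5) (nat_lit 100) (nat_lit 100) (nat_lit 60) (nat_lit 30) (.leaf ⟨(nat_lit 0), (nat_lit 0), (nat_lit 0), (nat_lit 1000), (nat_lit 25572), (nat_lit 4296), (nat_lit 4990), (nat_lit 8985), (nat_lit 0), (nat_lit 314621), (nat_lit 0), [], Pd.none, Pd.none, (nat_lit 0), (nat_lit 1), (nat_lit 0), (nat_lit 0), (nat_lit 0), (nat_lit 0), [⟨(nat_lit 0), (nat_lit 96), (nat_lit 54), (nat_lit 100), (nat_lit 1028967611)⟩], [⟨(nat_lit 0), (nat_lit 96), (nat_lit 54), (nat_lit 100), (nat_lit 1070421133)⟩], [⟨(nat_lit 0), (nat_lit 100), (nat_lit 100), (nat_lit 70), (nat_lit 82423128)⟩], [],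
 ⟨⟨[(nat_lit 40), (nat_lit 80), (nat_lit 120)], [(nat_lit 0), (nat_lit 1598), (nat_lit 3468)], [((nat_lit 0), (nat_lit 0), (nat_lit 0)), ((nat_lit 1000), (nat_lit 625), (nat_lit 623)), ((nat_lit 1000), (nat_lit 604), (nat_lit 730))], ((nat_lit 60), (nat_lit 100), (nat_lit 83))⟩, (nat_lit 2256807), (nat_lit 165), (nat_lit 165), (nat_lit 0), (nat_lit 187543), [(nat_lit 2032000095), (nat_lit 5352171179), (nat_lit 7968000000)], [], [(nat_lit 20426916196), (nat_lit 21939217286), (nat_lit 22595185394), (nat_lit 24303601377), (nat_lit 22595185394), (nat_lit 24303601377), (nat_lit 24754133040), (nat_lit 26172036392)], (nat_lit 1271251), (nat_lit 1271251), (nat_lit 857188), (nat_lit 1768126), (nat_lit 857188), (nat_lit 1768126), [(nat_lit 490000), (nat_lit 1100000), (nat_lit 1785001)], [(nat_lit 4), (nat_lit 51), (nat_lit 345), (nat_lit 125), (nat_lit 10)]⟩,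
 ⟨⟨[(nat_lit 80), (nat_lit 140), (nat_lit 180)], [(nat_lit 0), (nat_lit 792), (nat_lit 4228)], [((nat_lit 0), (nat_lit 0), (nat_lit 0)), ((nat_lit 1000), (nat_lit 959), (nat_lit 206)), ((nat_lit 709), (nat_lit 1000), (nat_lit 949))], ((nat_lit 100), (nat_lit 82), (nat_lit 87))⟩, (nat_lit 2071794), (nat_lit 470), (nat_lit 470), (nat_lit 0), (nat_lit 357845), [(nat_lit 4688000000), (nat_lit 9842000000), (nat_lit 14058000000)], [], [(nat_lit 38583149070), (nat_lit 39173915898), (nat_lit 39474879538), (nat_lit 39973193349), (nat_lit 44830762695), (nat_lit 43306080627), (nat_lit 54609686012), (nat_lit 52474654632)], (nat_lit 1271251), (nat_lit 1271251), (nat_lit 857188), (nat_lit 1768126), (nat_lit 169688), (nat_lit 2886876), [(nat_lit 1100000), (nat_lit 2127501), (nat_lit 1271251)], [(nat_lit 19), (nat_lit 63), (nat_lit 483), (nat_lit 250), (nat_lit 11)]⟩,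
 ⟨⟨[(nat_lit 80), (nat_lit 140), (nat_lit 180)], [(nat_lit 0), (nat_lit 792), (nat_lit 4228)], [((nat_lit 0), (nat_lit 0), (nat_lit 0)), ((nat_lit 1000), (nat_lit 959), (nat_lit 206)), ((nat_lit 709), (nat_lit 1000), (nat_lit 949))], ((nat_lit 100), (nat_lit 82), (nat_lit 87))⟩, (nat_lit 2068182), (nat_lit 300), (nat_lit 470), (nat_lit 58600000), (nat_lit 357845), [(nat_lit 4688000000), (nat_lit 9842000000), (nat_lit 14058000000)], [], [(nat_lit 46899194050), (nat_lit 47290728480), (nat_lit 45596751791), (nat_lit 45868650367), (nat_lit 45546414295), (nat_lit 44521848273), (nat_lit 60237163146), (nat_lit 56392823076)], (nat_lit 1271251), (nat_lit 1271251), (nat_lit 857188), (nat_lit 1768126), (nat_lit 169688), (nat_lit 2886876), [(nat_lit 1100000), (nat_lit 2127501), (nat_lit 1271251)], [(nat_lit 19), (nat_lit 63), (nat_lit 483), (nat_lit 250), (nat_lit 11)]⟩⟩)))))) (.dle (nat_lit 0)))) (.trZ (nat_lit 0) (nat_lit 1) (nat_lit 3) (nat_lit 94) (nat_lit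 62) (nat_lit 100) (nat_lit 150) (.trZ (nat_lit 1) (nat_lit 2) (nat_lit 5) (nat_lit 100) (nat_lit 92) (nat_lit 49) (nat_lit 20) (.spl (nat_lit 5) (nat_lit 120) (.leaf ⟨(nat_lit 0), (nat_lit 574), (nat_lit 0), (nat_lit 426), (nat_lit 21523), (nat_lit 4545), (nat_lit 11442), (nat_lit 6309), (nat_lit 0), (nat_lit 380276), (nat_lit 0), [], Pd.none, Pd.none, (nat_lit 0), (nat_lit 1), (nat_lit 0), (nat_lit 0), (nat_lit 5), (nat_lit 0), [⟨(nat_lit 0), (nat_lit 87), (nat_lit 53), (nat_lit 100), (nat_lit 912205652)⟩], [⟨(nat_lit 0), (nat_lit 96), (nat_lit 54), (nat_lit 100), (nat_lit 435164056)⟩], [⟨(nat_lit 0), (nat_lit 100), (nat_lit 92), (nat_lit 82), (nat_lit 363760303)⟩, ⟨(nat_lit 0), (nat_lit 100), (nat_lit 92), (nat_lit 49), (nat_lit 364634698)⟩], [],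
 ⟨⟨[(nat_lit 40), (nat_lit 80), (nat_lit 120)], [(nat_lit 0), (nat_lit 1598), (nat_lit 3468)], [((nat_lit 0), (nat_lit 0), (nat_lit 0)), ((nat_lit 1000), (nat_lit 625), (nat_lit 623)), ((nat_lit 1000), (nat_lit 604), (nat_lit 730))], ((nat_lit 61), (nat_lit 100), (nat_lit 91))⟩, (nat_lit 1867596), (nat_lit 265), (nat_lit 265), (nat_lit 0), (nat_lit 376601), [(nat_lit 2032002349), (nat_lit 4688002219), (nat_lit 7968000000)], [], [(nat_lit 21628585847), (nat_lit 23227310307), (nat_lit 23708252705), (nat_lit 25073226331), (nat_lit 23745516860), (nat_lit 25009207104), (nat_lit 25276170732), (nat_lit 26363343590)], (nat_lit 1271251), (nat_lit 1271251), (nat_lit 1017188), (nat_lit 1779376), (nat_lit 559688), (nat_lit 1745625), [(nat_lit 490000), (nat_lit 1100000), (nat_lit 1785001)], [(nat_lit 4), (nat_lit 51), (nat_lit 345), (nat_lit 125), (nat_lit 10)]⟩,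
 ⟨⟨[(nat_lit 60), (nat_lit 120), (nat_lit 180)], [(nat_lit 0), (nat_lit 0), (nat_lit 4796)], [((nat_lit 0), (nat_lit 0), (nat_lit 0)), ((nat_lit 0), (nat_lit 0), (nat_lit 0)), ((nat_lit 802), (nat_lit 1000), (nat_lit 999))], ((nat_lit 100), (nat_lit 83), (nat_lit 98))⟩, (nat_lit 3206923), (nat_lit 466), (nat_lit 466), (nat_lit 0), (nat_lit 385653), [(nat_lit 3282000000), (nat_lit 7968000000), (nat_lit 14058000000)], [], [(nat_lit 26731218751), (nat_lit 29943394194), (nat_lit 27920168645), (nat_lit 30486689854), (nat_lit 21303076711), (nat_lit 23298496474), (nat_lit 21968489824), (nat_lit 23531747480)], (nat_lit 1271251), (nat_lit 1271251), (nat_lit 1017188), (nat_lit 1779376), (nat_lit 111251), (nat_lit 780000), [(nat_lit 780000), (nat_lit 1762501), (nat_lit 1271251)], [(nat_lit 13), (nat_lit 60), (nat_lit 401), (nat_lit 175), (nat_lit 9)]⟩,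
 ⟨⟨[(nat_lit 100), (nat_lit 160), (nat_lit 200)], [(nat_lit 0), (nat_lit 761), (nat_lit 5273)], [((nat_lit 0), (nat_lit 0), (nat_lit 0)), ((nat_lit 1000), (nat_lit 1000), (nat_lit 198)), ((nat_lit 518), (nat_lit 1000), (nat_lit 909))], ((nat_lit 0), (nat_lit 0), (nat_lit 0))⟩, (nat_lit 153771), (nat_lit 300), (nat_lit 710), (nat_lit 30877828), (nat_lit 559160), [(nat_lit 2662500000), (nat_lit 5057472000), (nat_lit 6986400000)], [], [(nat_lit 26889724491), (nat_lit 27359220568), (nat_lit 24021615898), (nat_lit 24069858901), (nat_lit 22520888871), (nat_lit 22620502955), (nat_lit 19535154399), (nat_lit 19520386696)], (nat_lit 1271251), (nat_lit 1271251), (nat_lit 559688), (nat_lit 1745625), (nat_lit 111251), (nat_lit 780000), [(nat_lit 1412501), (nat_lit 1271251), (nat_lit 1271251)], [(nat_lit 25), (nat_lit 66), (nat_lit 401), (nat_lit 175), (nat_lit 9)]⟩⟩) (.leaf ⟨(nat_lit 0), (nat_lit 158), (nat_lit 0), (nat_lit 842), (nat_lit 3380), (nat_lit 4482),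 (nat_lit 10330), (nat_lit 7677), (nat_lit 0), (nat_lit 1496), (nat_lit 0), [], Pd.none, Pd.none, (nat_lit 0), (nat_lit 1), (nat_lit 0), (nat_lit 0), (nat_lit 5), (nat_lit 0), [⟨(nat_lit 0), (nat_lit 87), (nat_lit 53), (nat_lit 100), (nat_lit 918972147)⟩], [], [], [],
 ⟨⟨[(nat_lit 40), (nat_lit 80), (nat_lit 120)], [(nat_lit 0), (nat_lit 1598), (nat_lit 3468)], [((nat_lit 0), (nat_lit 0), (nat_lit 0)), ((nat_lit 1000), (nat_lit 625), (nat_lit 623)), ((nat_lit 1000), (nat_lit 604), (nat_lit 730))], ((nat_lit 61), (nat_lit 100), (nat_lit 91))⟩, (nat_lit 2032256), (nat_lit 265), (nat_lit 265), (nat_lit 0), (nat_lit 376601), [(nat_lit 2032000086), (nat_lit 4756482542), (nat_lit 7968000000)], [], [(nat_lit 21074742193), (nat_lit 22660365389), (nat_lit 23155717539), (nat_lit 24510784589), (nat_lit 23237653620), (nat_lit 24466183268), (nat_lit 24865126680), (nat_lit 26314940564)], (nat_lit 1271251), (nat_lit 1271251), (nat_lit 1017188), (nat_lit 1779376),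 (nat_lit 559688), (nat_lit 1745625), [(nat_lit 490000), (nat_lit 1100000), (nat_lit 1785001)], [(nat_lit 4), (nat_lit 51), (nat_lit 345), (nat_lit 125), (nat_lit 10)]⟩,
 ⟨⟨[(nat_lit 60), (nat_lit 120), (nat_lit 180)], [(nat_lit 0), (nat_lit 0), (nat_lit 4796)], [((nat_lit 0), (nat_lit 0), (nat_lit 0)), ((nat_lit 0), (nat_lit 0), (nat_lit 0)), ((nat_lit 802), (nat_lit 1000), (nat_lit 999))], ((nat_lit 100), (nat_lit 83), (nat_lit 98))⟩, (nat_lit 2306447), (nat_lit 466), (nat_lit 466), (nat_lit 0), (nat_lit 566687), [(nat_lit 3282000000), (nat_lit 7968000000), (nat_lit 14058000000)], [], [(nat_lit 24898443603), (nat_lit 26334463003), (nat_lit 25153967810), (nat_lit 27009780388), (nat_lit 38016728773), (nat_lit 37314168930), (nat_lit 51848149120), (nat_lit 42786797080)], (nat_lit 1271251), (nat_lit 1271251), (nat_lit 1017188), (nat_lit 1779376), (nat_lit 780000), (nat_lit 3072501), [(nat_lit 780000), (nat_lit 1762501), (nat_lit 1271251)], [(nat_lit 13),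 (nat_lit 60), (nat_lit 483), (nat_lit 250), (nat_lit 11)]⟩,
 ⟨⟨[(nat_lit 100), (nat_lit 160), (nat_lit 200)], [(nat_lit 0), (nat_lit 761), (nat_lit 5273)], [((nat_lit 0), (nat_lit 0), (nat_lit 0)), ((nat_lit 1000), (nat_lit 1000), (nat_lit 198)), ((nat_lit 518), (nat_lit 1000), (nat_lit 909))], ((nat_lit 0), (nat_lit 0), (nat_lit 0))⟩, (nat_lit 1697351), (nat_lit 300), (nat_lit 749), (nat_lit 54403375), (nat_lit 838031), [(nat_lit 5262500000), (nat_lit 9996224000), (nat_lit 13808800000)], [], [(nat_lit 49989099013), (nat_lit 49272490462), (nat_lit 46415409279), (nat_lit 45581044458), (nat_lit 47476448475), (nat_lit 46360978253), (nat_lit 55776381193), (nat_lit 42174311944)], (nat_lit 1271251), (nat_lit 1271251), (nat_lit 559688), (nat_lit 1745625), (nat_lit 780000), (nat_lit 3072501), [(nat_lit 1412501), (nat_lit 1271251), (nat_lit 1271251)], [(nat_lit 25), (nat_lit 66), (nat_lit 483), (nat_lit 250), (nat_lit 10)]⟩⟩)))))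
noncomputable def c17_126 : Tr Lf :=
 (.spl (nat_lit 1) (nat_lit 280) (.ord (.trX (nat_lit 3) (nat_lit 0) (nat_lit 1) (nat_lit 65) (nat_lit 54) (nat_lit 100) (nat_lit 380) (.spl (nat_lit 6) (nat_lit 88) (.spl (nat_lit 0) (nat_lit 370) (.spl (nat_lit 6) (nat_lit 76) (.leaf ⟨(nat_lit 0), (nat_lit 355), (nat_lit 0), (nat_lit 645), (nat_lit 19407), (nat_lit 4734), (nat_lit 10476), (nat_lit 6981), (nat_lit 0), (nat_lit 7636), (nat_lit 0), [], Pd.none, Pd.none, (nat_lit 0), (nat_lit 1), (nat_lit 0), (nat_lit 0), (nat_lit 5), (nat_lit 0), [], [⟨(nat_lit 0), (nat_lit 100), (nat_lit 58), (nat_lit 97), (nat_lit 574419190)⟩], [⟨(nat_lit 0), (nat_lit 100), (nat_lit 99), (nat_lit 55), (nat_lit 135508883)⟩], [],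
 ⟨⟨[(nat_lit 40), (nat_lit 80), (nat_lit 100)], [(nat_lit 0), (nat_lit 1598), (nat_lit 2533)], [((nat_lit 0), (nat_lit 0), (nat_lit 0)), ((nat_lit 1000), (nat_lit 625), (nat_lit 623)), ((nat_lit 1000), (nat_lit 604), (nat_lit 730))], ((nat_lit 60), (nat_lit 100), (nat_lit 78))⟩, (nat_lit 1499903), (nat_lit 158), (nat_lit 158), (nat_lit 0), (nat_lit 134414), [(nat_lit 2032000043), (nat_lit 4688001030), (nat_lit 6250000000)], [], [(nat_lit 23559254950), (nat_lit 24157938916), (nat_lit 31477587855), (nat_lit 32125771303), (nat_lit 25198035405), (nat_lit 25794385059), (nat_lit 31809090003), (nat_lit 32329632620)], (nat_lit 1271251), (nat_lit 1271251), (nat_lit 1271251), (nat_lit 1271251), (nat_lit 559688), (nat_lit 1745625), [(nat_lit 490000), (nat_lit 1100000), (nat_lit 1442501)], [(nat_lit 3), (nat_lit 50), (nat_lit 272), (nat_lit 60), (nat_lit 9)]⟩,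
 ⟨⟨[(nat_lit 80), (nat_lit 140), (nat_lit 180)], [(nat_lit 0), (nat_lit 0), (nat_lit 3656)], [((nat_lit 0), (nat_lit 0), (nat_lit 0)), ((nat_lit 0), (nat_lit 0), (nat_lit 0)), ((nat_lit 637), (nat_lit 1000), (nat_lit 908))], ((nat_lit 100), (nat_lit 78), (nat_lit 80))⟩, (nat_lit 2508663), (nat_lit 423), (nat_lit 423), (nat_lit 0), (nat_lit 251949), [(nat_lit 4688000000), (nat_lit 9842000000), (nat_lit 14058000000)], [], [(nat_lit 35850111528), (nat_lit 37282548968), (nat_lit 43604268036), (nat_lit 44683805840), (nat_lit 42807785376), (nat_lit 35408841080), (nat_lit 41758977580), (nat_lit 42716523308)], (nat_lit 1271251), (nat_lit 1271251), (nat_lit 1271251), (nat_lit 1271251), (nat_lit 0), (nat_lit 2825001), [(nat_lit 1100000), (nat_lit 2127501), (nat_lit 1271251)], [(nat_lit 19), (nat_lit 63), (nat_lit 538), (nat_lit 300), (nat_lit 12)]⟩,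
 ⟨⟨[(nat_lit 100), (nat_lit 140), (nat_lit 180)], [(nat_lit 0), (nat_lit 508), (nat_lit 2854)], [((nat_lit 0), (nat_lit 0), (nat_lit 0)), ((nat_lit 1000), (nat_lit 1000), (nat_lit 198)), ((nat_lit 777), (nat_lit 1000), (nat_lit 712))], ((nat_lit 100), (nat_lit 70), (nat_lit 79))⟩, (nat_lit 411467), (nat_lit 300), (nat_lit 484), (nat_lit 43850463), (nat_lit 261280), [(nat_lit 4031250000), (nat_lit 6348090000), (nat_lit 9067410000)], [], [(nat_lit 33793277450), (nat_lit 34774358399), (nat_lit 32041900170), (nat_lit 32621016894), (nat_lit 30565732747), (nat_lit 30466110291), (nat_lit 37590726093), (nat_lit 28442188422)], (nat_lit 1271251), (nat_lit 1271251), (nat_lit 559688), (nat_lit 1745625), (nat_lit 0), (nat_lit 2825001), [(nat_lit 1412501), (nat_lit 1271251), (nat_lit 1271251)], [(nat_lit 24), (nat_lit 63), (nat_lit 483), (nat_lit 250), (nat_lit 11)]⟩⟩) (.dle (nat_lit 0))) (.trX (nat_lit 3) (nat_lit 0) (nat_lit 1) (nat_lit 57) (nat_lit 62) (nat_lit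 100) (nat_lit 370) (.trZ (nat_lit 0) (nat_lit 2) (nat_lit 4) (nat_lit 100) (nat_lit 53) (nat_lit 90) (nat_lit 110) (.leaf ⟨(nat_lit 0), (nat_lit 458), (nat_lit 0), (nat_lit 542), (nat_lit 46), (nat_lit 4504), (nat_lit 10676), (nat_lit 8131), (nat_lit 0), (nat_lit 39349), (nat_lit 0), [], Pd.none, Pd.none, (nat_lit 0), (nat_lit 1), (nat_lit 0), (nat_lit 0), (nat_lit 5), (nat_lit 0), [], [⟨(nat_lit 0), (nat_lit 100), (nat_lit 50), (nat_lit 100), (nat_lit 530219947)⟩], [⟨(nat_lit 0), (nat_lit 100), (nat_lit 99), (nat_lit 55), (nat_lit 9237024)⟩], [],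
 ⟨⟨[(nat_lit 40), (nat_lit 80), (nat_lit 100)], [(nat_lit 0), (nat_lit 2008), (nat_lit 2969)], [((nat_lit 0), (nat_lit 0), (nat_lit 0)), ((nat_lit 1000), (nat_lit 540), (nat_lit 733)), ((nat_lit 1000), (nat_lit 536), (nat_lit 751))], ((nat_lit 53), (nat_lit 100), (nat_lit 83))⟩, (nat_lit 1404911), (nat_lit 165), (nat_lit 165), (nat_lit 0), (nat_lit 185218), [(nat_lit 2032000007), (nat_lit 4688000012), (nat_lit 6250000000)], [], [(nat_lit 23870026945), (nat_lit 24584396762), (nat_lit 30885864164), (nat_lit 31524197119), (nat_lit 25605049084), (nat_lit 26331843208), (nat_lit 31522999225), (nat_lit 32047976431)], (nat_lit 1271251), (nat_lit 1271251), (nat_lit 1271251), (nat_lit 1271251), (nat_lit 704688), (nat_lit 1756876), [(nat_lit 490000), (nat_lit 1100000), (nat_lit 1442501)], [(nat_lit 3), (nat_lit 50), (nat_lit 272), (nat_lit 60), (nat_lit 9)]⟩,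
 ⟨⟨[(nat_lit 80), (nat_lit 140), (nat_lit 180)], [(nat_lit 0), (nat_lit 0), (nat_lit 3656)], [((nat_lit 0), (nat_lit 0), (nat_lit 0)), ((nat_lit 0), (nat_lit 0), (nat_lit 0)), ((nat_lit 637), (nat_lit 1000), (nat_lit 908))], ((nat_lit 100), (nat_lit 73), (nat_lit 85))⟩, (nat_lit 2523445), (nat_lit 466), (nat_lit 466), (nat_lit 0), (nat_lit 367985), [(nat_lit 4688000000), (nat_lit 9842000000), (nat_lit 14058000000)], [], [(nat_lit 35669439736), (nat_lit 37110876616), (nat_lit 42781823762), (nat_lit 43937366067), (nat_lit 42727940576), (nat_lit 35575549240), (nat_lit 41288319886), (nat_lit 42323481874)], (nat_lit 1271251), (nat_lit 1271251), (nat_lit 1271251), (nat_lit 1271251), (nat_lit 0), (nat_lit 2825001), [(nat_lit 1100000), (nat_lit 2127501), (nat_lit 1271251)], [(nat_lit 19), (nat_lit 63), (nat_lit 538), (nat_lit 300), (nat_lit 12)]⟩,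
 ⟨⟨[(nat_lit 100), (nat_lit 140), (nat_lit 180)], [(nat_lit 0), (nat_lit 508), (nat_lit 2854)], [((nat_lit 0), (nat_lit 0), (nat_lit 0)), ((nat_lit 1000), (nat_lit 1000), (nat_lit 198)), ((nat_lit 777), (nat_lit 1000), (nat_lit 712))], ((nat_lit 100), (nat_lit 64), (nat_lit 83))⟩, (nat_lit 345760), (nat_lit 300), (nat_lit 579), (nat_lit 36847986), (nat_lit 406550), [(nat_lit 3387500000), (nat_lit 5334364000), (nat_lit 7619436000)], [], [(nat_lit 28068914872), (nat_lit 28869397190), (nat_lit 26053094828), (nat_lit 26454245482), (nat_lit 23851540446), (nat_lit 24309147914), (nat_lit 34705300467), (nat_lit 24049698146)], (nat_lit 1271251), (nat_lit 1271251), (nat_lit 704688), (nat_lit 1756876), (nat_lit 0), (nat_lit 2825001), [(nat_lit 1412501), (nat_lit 1271251), (nat_lit 1271251)], [(nat_lit 24), (nat_lit 63), (nat_lit 483), (nat_lit 250), (nat_lit 11)]⟩⟩)))) (.dle (nat_lit 0))))) (.trZ (nat_lit 1) (nat_lit 2) (nat_lit 5) (nat_lit 100) (nat_lit 92)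 (nat_lit 49) (nat_lit 20) (.spl (nat_lit 1) (nat_lit 300) (.ord (.trX (nat_lit 3) (nat_lit 0) (nat_lit 1) (nat_lit 69) (nat_lit 45) (nat_lit 100) (nat_lit 390) (.spl (nat_lit 6) (nat_lit 100) (.leaf ⟨(nat_lit 0), (nat_lit 573), (nat_lit 0), (nat_lit 427), (nat_lit 0), (nat_lit 4607), (nat_lit 8955), (nat_lit 5417), (nat_lit 0), (nat_lit 62930), (nat_lit 0), [], Pd.none, Pd.none, (nat_lit 0), (nat_lit 1), (nat_lit 0), (nat_lit 0), (nat_lit 5), (nat_lit 0), [], [⟨(nat_lit 0), (nat_lit 98), (nat_lit 54), (nat_lit 100), (nat_lit 391109176)⟩], [⟨(nat_lit 0), (nat_lit 100), (nat_lit 94), (nat_lit 73), (nat_lit 44364770)⟩], [],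
 ⟨⟨[(nat_lit 40), (nat_lit 80), (nat_lit 120)], [(nat_lit 0), (nat_lit 1598), (nat_lit 3468)], [((nat_lit 0), (nat_lit 0), (nat_lit 0)), ((nat_lit 1000), (nat_lit 625), (nat_lit 623)), ((nat_lit 1000), (nat_lit 604), (nat_lit 730))], ((nat_lit 60), (nat_lit 100), (nat_lit 87))⟩, (nat_lit 1839463), (nat_lit 243), (nat_lit 243), (nat_lit 0), (nat_lit 274711), [(nat_lit 2032000038), (nat_lit 4716398746), (nat_lit 7968000000)], [], [(nat_lit 23787605976), (nat_lit 25162328932), (nat_lit 31934677682), (nat_lit 33171294476), (nat_lit 25355449916), (nat_lit 26426477482), (nat_lit 32205857588), (nat_lit 33202866097)], (nat_lit 1271251), (nat_lit 1271251), (nat_lit 1271251), (nat_lit 1271251), (nat_lit 559688), (nat_lit 1745625), [(nat_lit 490000), (nat_lit 1100000), (nat_lit 1785001)], [(nat_lit 4), (nat_lit 51), (nat_lit 272), (nat_lit 60), (nat_lit 8)]⟩,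
 ⟨⟨[(nat_lit 60), (nat_lit 120), (nat_lit 160)], [(nat_lit 0), (nat_lit 0), (nat_lit 3243)], [((nat_lit 0), (nat_lit 0), (nat_lit 0)), ((nat_lit 0), (nat_lit 0), (nat_lit 0)), ((nat_lit 878), (nat_lit 1000), (nat_lit 945))], ((nat_lit 100), (nat_lit 88), (nat_lit 94))⟩, (nat_lit 1702202), (nat_lit 423), (nat_lit 423), (nat_lit 0), (nat_lit 454137), [(nat_lit 3282000000), (nat_lit 7968000000), (nat_lit 11872000000)], [], [(nat_lit 34401737889), (nat_lit 35008619782), (nat_lit 40852701993), (nat_lit 41643913556), (nat_lit 33810680950), (nat_lit 34731638365), (nat_lit 41234411360), (nat_lit 41678977487)], (nat_lit 1271251), (nat_lit 1271251), (nat_lit 1271251), (nat_lit 1271251), (nat_lit 111251), (nat_lit 2866250), [(nat_lit 780000), (nat_lit 1762501), (nat_lit 1271251)], [(nat_lit 12), (nat_lit 59), (nat_lit 538), (nat_lit 300), (nat_lit 13)]⟩,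
 ⟨⟨[(nat_lit 100), (nat_lit 160), (nat_lit 200)], [(nat_lit 0), (nat_lit 761), (nat_lit 5273)], [((nat_lit 0), (nat_lit 0), (nat_lit 0)), ((nat_lit 1000), (nat_lit 1000), (nat_lit 198)), ((nat_lit 518), (nat_lit 1000), (nat_lit 909))], ((nat_lit 0), (nat_lit 0), (nat_lit 0))⟩, (nat_lit 207415), (nat_lit 300), (nat_lit 725), (nat_lit 30696883), (nat_lit 597770), [(nat_lit 2668750000), (nat_lit 5069344000), (nat_lit 7002800000)], [], [(nat_lit 27807987124), (nat_lit 27369667325), (nat_lit 24906508257), (nat_lit 24324379781), (nat_lit 22564585319), (nat_lit 22121435823), (nat_lit 26807731497), (nat_lit 19038267538)], (nat_lit 1271251), (nat_lit 1271251), (nat_lit 559688), (nat_lit 1745625), (nat_lit 111251), (nat_lit 2866250), [(nat_lit 1412501), (nat_lit 1271251), (nat_lit 1271251)], [(nat_lit 25), (nat_lit 66), (nat_lit 483), (nat_lit 250), (nat_lit 10)]⟩⟩) (.dle (nat_lit 0))))) (.trZ (nat_lit 1) (nat_lit 2) (nat_lit 5) (nat_lit 100) (nat_lit 87) (nat_lit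 59) (nat_lit 30) (.leaf ⟨(nat_lit 0), (nat_lit 631), (nat_lit 0), (nat_lit 369), (nat_lit 0), (nat_lit 4637), (nat_lit 7054), (nat_lit 4307), (nat_lit 0), (nat_lit 4594), (nat_lit 0), [], Pd.none, Pd.none, (nat_lit 0), (nat_lit 1), (nat_lit 0), (nat_lit 0), (nat_lit 5), (nat_lit 0), [], [⟨(nat_lit 0), (nat_lit 96), (nat_lit 54), (nat_lit 100), (nat_lit 254016316)⟩], [], [],
 ⟨⟨[(nat_lit 40), (nat_lit 80), (nat_lit 120)], [(nat_lit 0), (nat_lit 1598), (nat_lit 3468)], [((nat_lit 0), (nat_lit 0), (nat_lit 0)), ((nat_lit 1000), (nat_lit 625), (nat_lit 623)), ((nat_lit 1000), (nat_lit 604), (nat_lit 730))], ((nat_lit 61), (nat_lit 100), (nat_lit 91))⟩, (nat_lit 1752681), (nat_lit 274), (nat_lit 274), (nat_lit 0), (nat_lit 376869), [(nat_lit 2032000005), (nat_lit 4688000022), (nat_lit 7968000000)], [], [(nat_lit 24079753707), (nat_lit 25459194080), (nat_lit 32674163463), (nat_lit 33872092213), (nat_lit 25613860768), (nat_lit 26710947598), (nat_lit 32790499354),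 (nat_lit 33758350585)], (nat_lit 1271251), (nat_lit 1271251), (nat_lit 1271251), (nat_lit 1271251), (nat_lit 559688), (nat_lit 1745625), [(nat_lit 490000), (nat_lit 1100000), (nat_lit 1785001)], [(nat_lit 4), (nat_lit 51), (nat_lit 272), (nat_lit 60), (nat_lit 8)]⟩,
 ⟨⟨[(nat_lit 60), (nat_lit 120), (nat_lit 160)], [(nat_lit 0), (nat_lit 913), (nat_lit 3885)], [((nat_lit 0), (nat_lit 0), (nat_lit 0)), ((nat_lit 1000), (nat_lit 905), (nat_lit 238)), ((nat_lit 886), (nat_lit 948), (nat_lit 1000))], ((nat_lit 96), (nat_lit 92), (nat_lit 100))⟩, (nat_lit 2133254), (nat_lit 460), (nat_lit 460), (nat_lit 0), (nat_lit 544048), [(nat_lit 3282000000), (nat_lit 7968000000), (nat_lit 11872000000)], [], [(nat_lit 31905429895), (nat_lit 32635090268), (nat_lit 37703654632), (nat_lit 38588028465), (nat_lit 33724034326), (nat_lit 33985469758), (nat_lit 39513261920), (nat_lit 39935440336)], (nat_lit 1271251), (nat_lit 1271251), (nat_lit 1271251), (nat_lit 1271251),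 (nat_lit 169688), (nat_lit 2886876), [(nat_lit 780000), (nat_lit 1762501), (nat_lit 1271251)], [(nat_lit 12), (nat_lit 59), (nat_lit 538), (nat_lit 300), (nat_lit 13)]⟩,
 ⟨⟨[(nat_lit 100), (nat_lit 160), (nat_lit 200)], [(nat_lit 0), (nat_lit 761), (nat_lit 5273)], [((nat_lit 0), (nat_lit 0), (nat_lit 0)), ((nat_lit 1000), (nat_lit 1000), (nat_lit 198)), ((nat_lit 518), (nat_lit 1000), (nat_lit 909))], ((nat_lit 0), (nat_lit 0), (nat_lit 0))⟩, (nat_lit 291448), (nat_lit 300), (nat_lit 845), (nat_lit 25993601), (nat_lit 842128), [(nat_lit 2306250000), (nat_lit 4380768000), (nat_lit 6051600000)], [], [(nat_lit 23825981351), (nat_lit 23433355024), (nat_lit 21550230258), (nat_lit 21058026647), (nat_lit 19635108020), (nat_lit 19287557679), (nat_lit 23039858995), (nat_lit 16867401956)], (nat_lit 1271251), (nat_lit 1271251), (nat_lit 559688), (nat_lit 1745625), (nat_lit 169688), (nat_lit 2886876), [(nat_lit 1412501), (nat_lit 1271251), (nat_lit 1271251)],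 [(nat_lit 25), (nat_lit 66), (nat_lit 483), (nat_lit 250), (nat_lit 10)]⟩⟩)))))
noncomputable def c17_127 : Tr Lf :=
 (.spl (nat_lit 1) (nat_lit 280) (.ord (.trX (nat_lit 3) (nat_lit 0) (nat_lit 1) (nat_lit 65) (nat_lit 54) (nat_lit 100) (nat_lit 380) (.trX (nat_lit 4) (nat_lit 0) (nat_lit 2) (nat_lit 65) (nat_lit 54) (nat_lit 100) (nat_lit 380) (.spl (nat_lit 6) (nat_lit 88) (.spl (nat_lit 5) (nat_lit 120) (.trX (nat_lit 3) (nat_lit 4) (nat_lit 5) (nat_lit 100) (nat_lit 59) (nat_lit 94) (nat_lit 370) (.leaf ⟨(nat_lit 0), (nat_lit 0), (nat_lit 0), (nat_lit 1000), (nat_lit 11339), (nat_lit 4346), (nat_lit 7216), (nat_lit 10287), (nat_lit 0), (nat_lit 14529), (nat_lit 0), [], Pd.none, Pd.none, (nat_lit 0), (nat_lit 1), (nat_lit 0), (nat_lit 0), (nat_lit 0), (nat_lit 0), [⟨(nat_lit 0), (nat_lit 92), (nat_lit 44), (nat_lit 100), (nat_lit 44014258)⟩], [], [⟨(nat_lit 0), (nat_lit 100), (nat_lit 98), (nat_lit 30), (nat_lit 589056483)⟩], [],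
 ⟨⟨[(nat_lit 40), (nat_lit 80), (nat_lit 120)], [(nat_lit 0), (nat_lit 1598), (nat_lit 3468)], [((nat_lit 0), (nat_lit 0), (nat_lit 0)), ((nat_lit 1000), (nat_lit 625), (nat_lit 623)), ((nat_lit 1000), (nat_lit 604), (nat_lit 730))], ((nat_lit 60), (nat_lit 100), (nat_lit 83))⟩, (nat_lit 2082182), (nat_lit 184), (nat_lit 184), (nat_lit 0), (nat_lit 187348), [(nat_lit 2032000016), (nat_lit 5088852847), (nat_lit 7968000000)], [], [(nat_lit 23200088288), (nat_lit 24353703869), (nat_lit 30820720620), (nat_lit 31854490876), (nat_lit 30645627289), (nat_lit 31861080490), (nat_lit 35471842517), (nat_lit 36211071699)], (nat_lit 1271251), (nat_lit 1271251), (nat_lit 704688), (nat_lit 2809063), (nat_lit 1271251), (nat_lit 1271251), [(nat_lit 490000), (nat_lit 1100000), (nat_lit 1785001)], [(nat_lit 4), (nat_lit 51), (nat_lit 317), (nat_lit 100), (nat_lit 9)]⟩,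
 ⟨⟨[(nat_lit 80), (nat_lit 140), (nat_lit 180)], [(nat_lit 0), (nat_lit 0), (nat_lit 3656)], [((nat_lit 0), (nat_lit 0), (nat_lit 0)), ((nat_lit 0), (nat_lit 0), (nat_lit 0)), ((nat_lit 637), (nat_lit 1000), (nat_lit 908))], ((nat_lit 100), (nat_lit 73), (nat_lit 85))⟩, (nat_lit 2568236), (nat_lit 468), (nat_lit 468), (nat_lit 0), (nat_lit 259872), [(nat_lit 4688000000), (nat_lit 9842000000), (nat_lit 14058000000)], [], [(nat_lit 37300333220), (nat_lit 38977225618), (nat_lit 60174814432), (nat_lit 53783816104), (nat_lit 39877335856), (nat_lit 35115198829), (nat_lit 66793751808), (nat_lit 60635795102)], (nat_lit 1271251), (nat_lit 1271251), (nat_lit 704688), (nat_lit 2809063), (nat_lit 0), (nat_lit 780000), [(nat_lit 1100000), (nat_lit 2127501), (nat_lit 1271251)], [(nat_lit 19), (nat_lit 63), (nat_lit 428), (nat_lit 200), (nat_lit 10)]⟩,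
 ⟨⟨[(nat_lit 100), (nat_lit 140), (nat_lit 180)], [(nat_lit 0), (nat_lit 508), (nat_lit 2854)], [((nat_lit 0), (nat_lit 0), (nat_lit 0)), ((nat_lit 1000), (nat_lit 1000), (nat_lit 198)), ((nat_lit 777), (nat_lit 1000), (nat_lit 712))], ((nat_lit 100), (nat_lit 64), (nat_lit 83))⟩, (nat_lit 637933), (nat_lit 300), (nat_lit 440), (nat_lit 67985218), (nat_lit 281807), [(nat_lit 6250000000), (nat_lit 9842000000), (nat_lit 14058000000)], [], [(nat_lit 49883846000), (nat_lit 50801942898), (nat_lit 54546175382), (nat_lit 54580143878), (nat_lit 42167765335), (nat_lit 42575096236), (nat_lit 45885113242), (nat_lit 45874476308)], (nat_lit 1271251), (nat_lit 1271251), (nat_lit 1271251), (nat_lit 1271251), (nat_lit 0), (nat_lit 780000), [(nat_lit 1412501), (nat_lit 1271251), (nat_lit 1271251)], [(nat_lit 24), (nat_lit 63), (nat_lit 428), (nat_lit 200), (nat_lit 10)]⟩⟩)) (.leaf ⟨(nat_lit 0), (nat_lit 0), (nat_lit 0), (nat_lit 1000), (nat_lit 0), (nat_lit 4346),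 (nat_lit 5328), (nat_lit 11642), (nat_lit 0), (nat_lit 2556), (nat_lit 0), [], Pd.none, Pd.none, (nat_lit 0), (nat_lit 1), (nat_lit 0), (nat_lit 0), (nat_lit 0), (nat_lit 0), [], [], [], [],
 ⟨⟨[(nat_lit 40), (nat_lit 80), (nat_lit 120)], [(nat_lit 0), (nat_lit 1598), (nat_lit 3468)], [((nat_lit 0), (nat_lit 0), (nat_lit 0)), ((nat_lit 1000), (nat_lit 625), (nat_lit 623)), ((nat_lit 1000), (nat_lit 604), (nat_lit 730))], ((nat_lit 60), (nat_lit 100), (nat_lit 83))⟩, (nat_lit 1741734), (nat_lit 184), (nat_lit 184), (nat_lit 0), (nat_lit 187348), [(nat_lit 2032000001), (nat_lit 4688000470), (nat_lit 7968000000)], [], [(nat_lit 24491108335), (nat_lit 25534525924), (nat_lit 31352780857), (nat_lit 32356200894), (nat_lit 30645627289), (nat_lit 31861080490), (nat_lit 35851891087), (nat_lit 36570252312)], (nat_lit 1271251), (nat_lit 1271251), (nat_lit 704688), (nat_lit 2890001), (nat_lit 1271251), (nat_lit 1271251), [(nat_lit 490000), (nat_lit 1100000), (nat_lit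 1785001)], [(nat_lit 4), (nat_lit 51), (nat_lit 317), (nat_lit 100), (nat_lit 9)]⟩,
 ⟨⟨[(nat_lit 80), (nat_lit 140), (nat_lit 180)], [(nat_lit 0), (nat_lit 0), (nat_lit 3656)], [((nat_lit 0), (nat_lit 0), (nat_lit 0)), ((nat_lit 0), (nat_lit 0), (nat_lit 0)), ((nat_lit 637), (nat_lit 1000), (nat_lit 908))], ((nat_lit 100), (nat_lit 73), (nat_lit 85))⟩, (nat_lit 2073068), (nat_lit 416), (nat_lit 416), (nat_lit 0), (nat_lit 367985), [(nat_lit 4688000000), (nat_lit 9842000000), (nat_lit 14058000000)], [], [(nat_lit 41872773996), (nat_lit 39739276157), (nat_lit 63078640904), (nat_lit 58313763884), (nat_lit 45221426216), (nat_lit 45939156318), (nat_lit 47495221352), (nat_lit 47810888632)], (nat_lit 1271251), (nat_lit 1271251), (nat_lit 704688), (nat_lit 2890001), (nat_lit 1271251), (nat_lit 1271251), [(nat_lit 1100000), (nat_lit 2127501), (nat_lit 1271251)], [(nat_lit 19), (nat_lit 63), (nat_lit 538), (nat_lit 300), (nat_lit 12)]⟩,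
 ⟨⟨[(nat_lit 100), (nat_lit 140), (nat_lit 180)], [(nat_lit 0), (nat_lit 508), (nat_lit 2854)], [((nat_lit 0), (nat_lit 0), (nat_lit 0)), ((nat_lit 1000), (nat_lit 1000), (nat_lit 198)), ((nat_lit 777), (nat_lit 1000), (nat_lit 712))], ((nat_lit 100), (nat_lit 64), (nat_lit 83))⟩, (nat_lit 637933), (nat_lit 300), (nat_lit 398), (nat_lit 67985218), (nat_lit 406550), [(nat_lit 6250000000), (nat_lit 9842000000), (nat_lit 14058000000)], [], [(nat_lit 39953337944), (nat_lit 40678934018), (nat_lit 44205847514), (nat_lit 44044931595), (nat_lit 41239630820), (nat_lit 40676124404), (nat_lit 43868818623), (nat_lit 44315701636)], (nat_lit 1271251), (nat_lit 1271251), (nat_lit 1271251), (nat_lit 1271251), (nat_lit 780000), (nat_lit 3072501), [(nat_lit 1412501), (nat_lit 1271251), (nat_lit 1271251)], [(nat_lit 24), (nat_lit 63), (nat_lit 538), (nat_lit 300), (nat_lit 12)]⟩⟩)) (.dle (nat_lit 0)))))) (.trZ (nat_lit 0) (nat_lit 1) (nat_lit 3) (nat_lit 94) (nat_lit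 62) (nat_lit 100) (nat_lit 150) (.trZ (nat_lit 1) (nat_lit 2) (nat_lit 5) (nat_lit 100) (nat_lit 92) (nat_lit 49) (nat_lit 20) (.spl (nat_lit 5) (nat_lit 120) (.trX (nat_lit 3) (nat_lit 4) (nat_lit 5) (nat_lit 100) (nat_lit 59) (nat_lit 94) (nat_lit 370) (.leaf ⟨(nat_lit 0), (nat_lit 0), (nat_lit 0), (nat_lit 1000), (nat_lit 0), (nat_lit 4916), (nat_lit 10347), (nat_lit 12481), (nat_lit 0), (nat_lit 51409), (nat_lit 0), [], Pd.none, Pd.none, (nat_lit 0), (nat_lit 1), (nat_lit 0), (nat_lit 0), (nat_lit 0), (nat_lit 0), [⟨(nat_lit 0), (nat_lit 87), (nat_lit 53), (nat_lit 100), (nat_lit 100553153)⟩], [], [⟨(nat_lit 0), (nat_lit 100), (nat_lit 92), (nat_lit 49), (nat_lit 968226687)⟩], [],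
 ⟨⟨[(nat_lit 40), (nat_lit 80), (nat_lit 120)], [(nat_lit 0), (nat_lit 1598), (nat_lit 3468)], [((nat_lit 0), (nat_lit 0), (nat_lit 0)), ((nat_lit 1000), (nat_lit 625), (nat_lit 623)), ((nat_lit 1000), (nat_lit 604), (nat_lit 730))], ((nat_lit 61), (nat_lit 100), (nat_lit 91))⟩, (nat_lit 1873469), (nat_lit 251), (nat_lit 251), (nat_lit 0), (nat_lit 376601), [(nat_lit 2068517794), (nat_lit 4969617505), (nat_lit 7968000000)], [], [(nat_lit 23520734788), (nat_lit 24836705831), (nat_lit 31460352247), (nat_lit 32552508387), (nat_lit 32466419139), (nat_lit 33615976441), (nat_lit 37069518598), (nat_lit 37790850526)], (nat_lit 1271251), (nat_lit 1271251), (nat_lit 1017188), (nat_lit 2880313), (nat_lit 1271251), (nat_lit 1271251), [(nat_lit 490000), (nat_lit 1100000), (nat_lit 1785001)], [(nat_lit 4), (nat_lit 51), (nat_lit 317), (nat_lit 100), (nat_lit 9)]⟩,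
 ⟨⟨[(nat_lit 60), (nat_lit 120), (nat_lit 180)], [(nat_lit 0), (nat_lit 0), (nat_lit 4796)], [((nat_lit 0), (nat_lit 0), (nat_lit 0)), ((nat_lit 0), (nat_lit 0), (nat_lit 0)), ((nat_lit 802), (nat_lit 1000), (nat_lit 999))], ((nat_lit 100), (nat_lit 83), (nat_lit 98))⟩, (nat_lit 2764962), (nat_lit 466), (nat_lit 466), (nat_lit 0), (nat_lit 385653), [(nat_lit 3282000000), (nat_lit 7968000000), (nat_lit 14058000000)], [], [(nat_lit 29079674766), (nat_lit 31234073917), (nat_lit 40399295810), (nat_lit 43685122823), (nat_lit 24326634101), (nat_lit 26223901759), (nat_lit 43416148908), (nat_lit 34901617852)], (nat_lit 1271251), (nat_lit 1271251), (nat_lit 1017188), (nat_lit 2880313), (nat_lit 111251), (nat_lit 780000), [(nat_lit 780000), (nat_lit 1762501), (nat_lit 1271251)], [(nat_lit 13), (nat_lit 60), (nat_lit 456), (nat_lit 225), (nat_lit 10)]⟩,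
 ⟨⟨[(nat_lit 100), (nat_lit 160), (nat_lit 200)], [(nat_lit 0), (nat_lit 761), (nat_lit 5273)], [((nat_lit 0), (nat_lit 0), (nat_lit 0)), ((nat_lit 1000), (nat_lit 1000), (nat_lit 198)), ((nat_lit 518), (nat_lit 1000), (nat_lit 909))], ((nat_lit 0), (nat_lit 0), (nat_lit 0))⟩, (nat_lit 2459919), (nat_lit 300), (nat_lit 640), (nat_lit 62500011), (nat_lit 559160), [(nat_lit 6250000000), (nat_lit 11872000000), (nat_lit 16400000000)], [], [(nat_lit 53070828510), (nat_lit 53485997737), (nat_lit 56576108795), (nat_lit 55402368880), (nat_lit 44912543342), (nat_lit 44688019736), (nat_lit 47480614308), (nat_lit 46293269664)], (nat_lit 1271251), (nat_lit 1271251), (nat_lit 1271251), (nat_lit 1271251), (nat_lit 111251), (nat_lit 780000), [(nat_lit 1412501), (nat_lit 1271251), (nat_lit 1271251)], [(nat_lit 25), (nat_lit 66), (nat_lit 456), (nat_lit 225), (nat_lit 9)]⟩⟩)) (.leaf ⟨(nat_lit 0), (nat_lit 0), (nat_lit 0), (nat_lit 1000), (nat_lit 0), (nat_lit 4575),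 (nat_lit 10390), (nat_lit 9090), (nat_lit 0), (nat_lit 785), (nat_lit 0), [], Pd.none, Pd.none, (nat_lit 0), (nat_lit 1), (nat_lit 0), (nat_lit 0), (nat_lit 0), (nat_lit 0), [], [], [], [],
 ⟨⟨[(nat_lit 40), (nat_lit 80), (nat_lit 120)], [(nat_lit 0), (nat_lit 1598), (nat_lit 3468)], [((nat_lit 0), (nat_lit 0), (nat_lit 0)), ((nat_lit 1000), (nat_lit 625), (nat_lit 623)), ((nat_lit 1000), (nat_lit 604), (nat_lit 730))], ((nat_lit 61), (nat_lit 100), (nat_lit 91))⟩, (nat_lit 1997707), (nat_lit 251), (nat_lit 251), (nat_lit 0), (nat_lit 376601), [(nat_lit 2032000001), (nat_lit 5028942151), (nat_lit 7968000000)], [], [(nat_lit 23491525990), (nat_lit 24545837977), (nat_lit 32710901150), (nat_lit 33673397875), (nat_lit 31940998582), (nat_lit 33052917710), (nat_lit 37671647150), (nat_lit 38316925825)], (nat_lit 1271251), (nat_lit 1271251), (nat_lit 1017188), (nat_lit 3134376), (nat_lit 1271251), (nat_lit 1271251), [(nat_lit 490000), (nat_lit 1100000), (nat_lit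 1785001)], [(nat_lit 4), (nat_lit 51), (nat_lit 317), (nat_lit 100), (nat_lit 9)]⟩,
 ⟨⟨[(nat_lit 60), (nat_lit 120), (nat_lit 180)], [(nat_lit 0), (nat_lit 0), (nat_lit 4796)], [((nat_lit 0), (nat_lit 0), (nat_lit 0)), ((nat_lit 0), (nat_lit 0), (nat_lit 0)), ((nat_lit 802), (nat_lit 1000), (nat_lit 999))], ((nat_lit 100), (nat_lit 83), (nat_lit 98))⟩, (nat_lit 2352285), (nat_lit 466), (nat_lit 466), (nat_lit 0), (nat_lit 566687), [(nat_lit 3282000000), (nat_lit 7968000000), (nat_lit 14058000000)], [], [(nat_lit 24880235900), (nat_lit 26109333785), (nat_lit 36089094190), (nat_lit 38657293680), (nat_lit 49574837648), (nat_lit 40194836560), (nat_lit 43912190640), (nat_lit 44718543760)], (nat_lit 1271251), (nat_lit 1271251), (nat_lit 1271251), (nat_lit 1271251), (nat_lit 780000), (nat_lit 3072501), [(nat_lit 780000), (nat_lit 1762501), (nat_lit 1271251)], [(nat_lit 13), (nat_lit 60), (nat_lit 538), (nat_lit 300), (nat_lit 12)]⟩,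
 ⟨⟨[(nat_lit 100), (nat_lit 160), (nat_lit 200)], [(nat_lit 0), (nat_lit 761), (nat_lit 5273)], [((nat_lit 0), (nat_lit 0), (nat_lit 0)), ((nat_lit 1000), (nat_lit 1000), (nat_lit 198)), ((nat_lit 518), (nat_lit 1000), (nat_lit 909))], ((nat_lit 0), (nat_lit 0), (nat_lit 0))⟩, (nat_lit 2459921), (nat_lit 300), (nat_lit 679), (nat_lit 62500001), (nat_lit 838031), [(nat_lit 6250000000), (nat_lit 11872000000), (nat_lit 16400000000)], [], [(nat_lit 53654935480), (nat_lit 52945170180), (nat_lit 53982609125), (nat_lit 52643859780), (nat_lit 50422678690), (nat_lit 48923820440), (nat_lit 49249270170), (nat_lit 47344519480)], (nat_lit 1271251), (nat_lit 1271251), (nat_lit 1271251), (nat_lit 1271251), (nat_lit 780000), (nat_lit 3072501), [(nat_lit 1412501), (nat_lit 1271251), (nat_lit 1271251)], [(nat_lit 25), (nat_lit 66), (nat_lit 538), (nat_lit 300), (nat_lit 11)]⟩⟩)))))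
def l035 : List St := [⟨⟨(nat_lit 360), (nat_lit 380), (nat_lit 240), (nat_lit 280), (nat_lit 120), (nat_lit 160), (nat_lit 160), (nat_lit 240), (nat_lit 200), (nat_lit 310), (nat_lit 0), (nat_lit 400), (nat_lit 76), (nat_lit 112)⟩, (nat_lit 3), (nat_lit 3), (nat_lit 3), false, false, false⟩,
  ⟨⟨(nat_lit 360), (nat_lit 380), (nat_lit 240), (nat_lit 280), (nat_lit 160), (nat_lit 180), (nat_lit 160), (nat_lit 240), (nat_lit 200), (nat_lit 310), (nat_lit 0), (nat_lit 400), (nat_lit 76), (nat_lit 112)⟩, (nat_lit 3), (nat_lit 3), (nat_lit 3), false, false, false⟩,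
  ⟨⟨(nat_lit 360), (nat_lit 380), (nat_lit 280), (nat_lit 320), (nat_lit 120), (nat_lit 180), (nat_lit 150), (nat_lit 240), (nat_lit 120), (nat_lit 200), (nat_lit 0), (nat_lit 200), (nat_lit 76), (nat_lit 152)⟩, (nat_lit 3), (nat_lit 3), (nat_lit 3), false, false, false⟩,
  ⟨⟨(nat_lit 360), (nat_lit 380), (nat_lit 280), (nat_lit 320), (nat_lit 120), (nat_lit 180), (nat_lit 150), (nat_lit 240), (nat_lit 120), (nat_lit 200), (nat_lit 200), (nat_lit 380), (nat_lit 76), (nat_lit 152)⟩, (nat_lit 3), (nat_lit 3), (nat_lit 3), false, false, false⟩,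
  ⟨⟨(nat_lit 360), (nat_lit 380), (nat_lit 280), (nat_lit 320), (nat_lit 120), (nat_lit 180), (nat_lit 150), (nat_lit 240), (nat_lit 200), (nat_lit 310), (nat_lit 0), (nat_lit 120), (nat_lit 76), (nat_lit 152)⟩, (nat_lit 3), (nat_lit 3), (nat_lit 3), false, false, true⟩,
  ⟨⟨(nat_lit 360), (nat_lit 380), (nat_lit 280), (nat_lit 320), (nat_lit 120), (nat_lit 180), (nat_lit 150), (nat_lit 240), (nat_lit 200), (nat_lit 310), (nat_lit 120), (nat_lit 380), (nat_lit 76), (nat_lit 152)⟩, (nat_lit 3), (nat_lit 3), (nat_lit 3), false, false, false⟩,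
  ⟨⟨(nat_lit 360), (nat_lit 380), (nat_lit 240), (nat_lit 320), (nat_lit 180), (nat_lit 220), (nat_lit 110), (nat_lit 240), (nat_lit 120), (nat_lit 340), (nat_lit 0), (nat_lit 400), (nat_lit 76), (nat_lit 152)⟩, (nat_lit 3), (nat_lit 3), (nat_lit 3), false, false, false⟩,
  ⟨⟨(nat_lit 360), (nat_lit 380), (nat_lit 240), (nat_lit 280), (nat_lit 120), (nat_lit 180), (nat_lit 240), (nat_lit 400), (nat_lit 120), (nat_lit 310), (nat_lit 0), (nat_lit 400), (nat_lit 76), (nat_lit 152)⟩, (nat_lit 3), (nat_lit 3), (nat_lit 3), false, false, false⟩,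
  ⟨⟨(nat_lit 360), (nat_lit 380), (nat_lit 280), (nat_lit 320), (nat_lit 120), (nat_lit 180), (nat_lit 240), (nat_lit 400), (nat_lit 120), (nat_lit 310), (nat_lit 0), (nat_lit 200), (nat_lit 76), (nat_lit 152)⟩, (nat_lit 3), (nat_lit 3), (nat_lit 3), false, false, false⟩,
  ⟨⟨(nat_lit 360), (nat_lit 380), (nat_lit 280), (nat_lit 320), (nat_lit 120), (nat_lit 180), (nat_lit 240), (nat_lit 400), (nat_lit 120), (nat_lit 310), (nat_lit 200), (nat_lit 380), (nat_lit 76), (nat_lit 152)⟩, (nat_lit 3), (nat_lit 3), (nat_lit 3), false, false, false⟩,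
  ⟨⟨(nat_lit 360), (nat_lit 380), (nat_lit 240), (nat_lit 320), (nat_lit 180), (nat_lit 220), (nat_lit 240), (nat_lit 400), (nat_lit 120), (nat_lit 340), (nat_lit 0), (nat_lit 400), (nat_lit 76), (nat_lit 152)⟩, (nat_lit 3), (nat_lit 3), (nat_lit 3), false, false, false⟩,
  ⟨⟨(nat_lit 360), (nat_lit 380), (nat_lit 240), (nat_lit 320), (nat_lit 220), (nat_lit 320), (nat_lit 110), (nat_lit 400), (nat_lit 90), (nat_lit 400), (nat_lit 0), (nat_lit 400), (nat_lit 0), (nat_lit 56)⟩, (nat_lit 3), (nat_lit 0), (nat_lit 3), false, false, false⟩,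
  ⟨⟨(nat_lit 360), (nat_lit 380), (nat_lit 240), (nat_lit 280), (nat_lit 220), (nat_lit 280), (nat_lit 110), (nat_lit 240), (nat_lit 90), (nat_lit 240), (nat_lit 0), (nat_lit 400), (nat_lit 0), (nat_lit 56)⟩, (nat_lit 3), (nat_lit 1), (nat_lit 3), false, false, false⟩,
  ⟨⟨(nat_lit 360), (nat_lit 380), (nat_lit 240), (nat_lit 280), (nat_lit 220), (nat_lit 280), (nat_lit 240), (nat_lit 380), (nat_lit 90), (nat_lit 240), (nat_lit 0), (nat_lit 120), (nat_lit 0), (nat_lit 56)⟩, (nat_lit 3), (nat_lit 1), (nat_lit 3), false, false, true⟩,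
  ⟨⟨(nat_lit 360), (nat_lit 380), (nat_lit 240), (nat_lit 280), (nat_lit 220), (nat_lit 280), (nat_lit 240), (nat_lit 380), (nat_lit 90), (nat_lit 240), (nat_lit 120), (nat_lit 400), (nat_lit 0), (nat_lit 56)⟩, (nat_lit 3), (nat_lit 1), (nat_lit 3), false, false, false⟩,
  ⟨⟨(nat_lit 360), (nat_lit 380), (nat_lit 240), (nat_lit 280), (nat_lit 220), (nat_lit 280), (nat_lit 110), (nat_lit 240), (nat_lit 240), (nat_lit 380), (nat_lit 0), (nat_lit 400), (nat_lit 0), (nat_lit 56)⟩, (nat_lit 3), (nat_lit 1), (nat_lit 3), false, false, false⟩,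
  ⟨⟨(nat_lit 360), (nat_lit 380), (nat_lit 240), (nat_lit 280), (nat_lit 220), (nat_lit 280), (nat_lit 240), (nat_lit 380), (nat_lit 240), (nat_lit 380), (nat_lit 0), (nat_lit 400), (nat_lit 0), (nat_lit 56)⟩, (nat_lit 3), (nat_lit 1), (nat_lit 3), false, false, false⟩,
  ⟨⟨(nat_lit 360), (nat_lit 380), (nat_lit 280), (nat_lit 320), (nat_lit 220), (nat_lit 320), (nat_lit 110), (nat_lit 400), (nat_lit 90), (nat_lit 400), (nat_lit 0), (nat_lit 400), (nat_lit 0), (nat_lit 56)⟩, (nat_lit 3), (nat_lit 1), (nat_lit 3), false, false, false⟩,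
  ⟨⟨(nat_lit 360), (nat_lit 380), (nat_lit 240), (nat_lit 320), (nat_lit 220), (nat_lit 320), (nat_lit 110), (nat_lit 240), (nat_lit 90), (nat_lit 240), (nat_lit 0), (nat_lit 400), (nat_lit 56), (nat_lit 112)⟩, (nat_lit 3), (nat_lit 3), (nat_lit 3), false, false, false⟩,
  ⟨⟨(nat_lit 360), (nat_lit 380), (nat_lit 240), (nat_lit 320), (nat_lit 220), (nat_lit 320), (nat_lit 240), (nat_lit 400), (nat_lit 90), (nat_lit 240), (nat_lit 0), (nat_lit 400), (nat_lit 56), (nat_lit 112)⟩, (nat_lit 3), (nat_lit 3), (nat_lit 3), false, false, false⟩,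
  ⟨⟨(nat_lit 360), (nat_lit 380), (nat_lit 240), (nat_lit 320), (nat_lit 220), (nat_lit 320), (nat_lit 110), (nat_lit 400), (nat_lit 240), (nat_lit 400), (nat_lit 0), (nat_lit 400), (nat_lit 56), (nat_lit 112)⟩, (nat_lit 3), (nat_lit 3), (nat_lit 3), false, false, false⟩]
theorem t035 (h : EC env Ei) : ∀ τ ∈ l035, Dead τ :=
  List.forall_mem_cons.mpr ⟨chkT_sound0 h (T := c17_107) (by decide +kernel),
  List.forall_mem_cons.mpr ⟨chkT_sound0 h (T := c17_108) (by decide +kernel),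
  List.forall_mem_cons.mpr ⟨chkT_sound0 h (T := c17_109) (by decide +kernel),
  List.forall_mem_cons.mpr ⟨chkT_sound0 h (T := c17_110) (by decide +kernel),
  List.forall_mem_cons.mpr ⟨chkT_sound0 h (T := c17_111) (by decide +kernel),
  List.forall_mem_cons.mpr ⟨chkT_sound0 h (T := c17_112) (by decide +kernel),
  List.forall_mem_cons.mpr ⟨chkT_sound0 h (T := c17_113) (by decide +kernel),
  List.forall_mem_cons.mpr ⟨chkT_sound0 h (T := c17_114) (by decide +kernel),
  List.forall_mem_cons.mpr ⟨chkT_sound0 h (T := c17_115) (by decide +kernel),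
  List.forall_mem_cons.mpr ⟨chkT_sound0 h (T := c17_116) (by decide +kernel),
  List.forall_mem_cons.mpr ⟨chkT_sound0 h (T := c17_117) (by decide +kernel),
  List.forall_mem_cons.mpr ⟨chkT_sound0 h (T := c17_118) (by decide +kernel),
  List.forall_mem_cons.mpr ⟨chkT_sound0 h (T := c17_119) (by decide +kernel),
  List.forall_mem_cons.mpr ⟨chkT_sound0 h (T := c17_120) (by decide +kernel),
  List.forall_mem_cons.mpr ⟨chkT_sound0 h (T := c17_121) (by decide +kernel),
  List.forall_mem_cons.mpr ⟨chkT_sound0 h (T := c17_122) (by decide +kernel),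
  List.forall_mem_cons.mpr ⟨chkT_sound0 h (T := c17_123) (by decide +kernel),
  List.forall_mem_cons.mpr ⟨chkT_sound0 h (T := c17_124) (by decide +kernel),
  List.forall_mem_cons.mpr ⟨chkT_sound0 h (T := c17_125) (by decide +kernel),
  List.forall_mem_cons.mpr ⟨chkT_sound0 h (T := c17_126) (by decide +kernel),
  List.forall_mem_cons.mpr ⟨chkT_sound0 h (T := c17_127) (by decide +kernel),
  List.forall_mem_nil _⟩⟩⟩⟩⟩⟩⟩⟩⟩⟩⟩⟩⟩⟩⟩⟩⟩⟩⟩⟩⟩
end TC
end Pool.Agent.Lib.MP_6947cd_al
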