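import Pool.Agent.Lib.MP_6947cd_al.C.LeafF
import Pool.Agent.Lib.MP_6947cd_al.TC.E
import Pool.Agent.Lib.MP_6947cd_al.TC.F

/-!
Problem MP_6947cd_al (Chollet).  CASE C, tables and certificates.  Trees of leaves (part 36 of root 18).
-/

set_option autoImplicit false
set_option linter.all false
set_option maxRecDepth 100000
set_option maxHeartbeats 4000000
namespace Pool.Agent.Lib.MP_6947cd_al
namespace TC
open C1
noncomputable def c18_0 : Tr Lf :=
 (.spl (nat_lit 5) (nat_lit 120) (.spl (nat_lit 6) (nat_lit 52) (.leaf ⟨(nat_lit 35), (nat_lit 889), (nat_lit 0), (nat_lit 76), (nat_lit 0), (nat_lit 4129), (nat_lit 6005), (nat_lit 1191), (nat_lit 22083), (nat_lit 0), (nat_lit 140000), [((nat_lit 380), [((nat_lit 41), (nat_lit 5), (nat_lit 35))])], ⟨(nat_lit 8), false, true, false, (nat_lit 326), (nat_lit 2236), (nat_lit 3163), [(nat_lit 1632548), (nat_lit 1636264), (nat_lit 1698823), (nat_lit 1704397), (nat_lit 1937695), (nat_lit 1921722), (nat_lit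 2004104), (nat_lit 1989990)]⟩, ⟨(nat_lit 3), true, false, false, (nat_lit 142), (nat_lit 2236), (nat_lit 3163), [(nat_lit 1136876), (nat_lit 1152119), (nat_lit 1291516), (nat_lit 1311094), (nat_lit 1411379), (nat_lit 1408901), (nat_lit 1566274), (nat_lit 1568132)]⟩, (nat_lit 4952465), (nat_lit 36015340), (nat_lit 24519843), (nat_lit 6464817), (nat_lit 3), (nat_lit 0), [⟨(nat_lit 0), (nat_lit 69), (nat_lit 55), (nat_lit 100), (nat_lit 58255288)⟩, ⟨(nat_lit 0), (nat_lit 80), (nat_lit 60), (nat_lit 100), (nat_lit 10869266)⟩], [], [⟨(nat_lit 0), (nat_lit 100), (nat_lit 66), (nat_lit 72), (nat_lit 69841688)⟩], [],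
 ⟨⟨[(nat_lit 40), (nat_lit 80), (nat_lit 100)], [(nat_lit 0), (nat_lit 1598), (nat_lit 2533)], [((nat_lit 0), (nat_lit 0), (nat_lit 0)), ((nat_lit 1000), (nat_lit 625), (nat_lit 623)), ((nat_lit 1000), (nat_lit 604), (nat_lit 730))], ((nat_lit 61), (nat_lit 100), (nat_lit 68))⟩, (nat_lit 1603591), (nat_lit 174), (nat_lit 174), (nat_lit 0), (nat_lit 0), [(nat_lit 1896298005), (nat_lit 3980883616), (nat_lit 5059300000)], [(nat_lit 0), (nat_lit 0), (nat_lit 0)], [(nat_lit 23296439198), (nat_lit 25304795581), (nat_lit 34344513503), (nat_lit 35522551338), (nat_lit 22913361647), (nat_lit 24083946805), (nat_lit 31659012689), (nat_lit 32646263194)], (nat_lit 0), (nat_lit 0), (nat_lit 0), (nat_lit 0), (nat_lit 0), (nat_lit 0), [], [(nat_lit 3), (nat_lit 50), (nat_lit 260), (nat_lit 50), (nat_lit 9)]⟩,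
 ⟨⟨[(nat_lit 40), (nat_lit 80), (nat_lit 120)], [(nat_lit 0), (nat_lit 0), (nat_lit 2151)], [((nat_lit 0), (nat_lit 0), (nat_lit 0)), ((nat_lit 0), (nat_lit 0), (nat_lit 0)), ((nat_lit 1000), (nat_lit 815), (nat_lit 753))], ((nat_lit 80), (nat_lit 100), (nat_lit 68))⟩, (nat_lit 1941303), (nat_lit 624), (nat_lit 624), (nat_lit 0), (nat_lit 1081426), [(nat_lit 1960880000), (nat_lit 4523920000), (nat_lit 7689120000)], [], [(nat_lit 31888902200), (nat_lit 34389231085), (nat_lit 37329698880), (nat_lit 41553163590), (nat_lit 30023376515), (nat_lit 32035940270), (nat_lit 34457802030), (nat_lit 35930008403)], (nat_lit 1271251), (nat_lit 1271251), (nat_lit 1271251), (nat_lit 1271251), (nat_lit 0), (nat_lit 780000), [(nat_lit 490000), (nat_lit 1100000), (nat_lit 1785001)], [(nat_lit 4), (nat_lit 51), (nat_lit 373), (nat_lit 150), (nat_lit 12)]⟩,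
 ⟨⟨[(nat_lit 140), (nat_lit 180), (nat_lit 200)], [(nat_lit 0), (nat_lit 0), (nat_lit 2835)], [((nat_lit 0), (nat_lit 0), (nat_lit 0)), ((nat_lit 0), (nat_lit 0), (nat_lit 0)), ((nat_lit 363), (nat_lit 1000), (nat_lit 798))], ((nat_lit 0), (nat_lit 0), (nat_lit 0))⟩, (nat_lit 32861), (nat_lit 300), (nat_lit 619), (nat_lit 5935600), (nat_lit 0), [(nat_lit 747992000), (nat_lit 1068408000), (nat_lit 1246400000)], [], [(nat_lit 6338918085), (nat_lit 6014765158), (nat_lit 5032207324), (nat_lit 4709856465), (nat_lit 5197062547), (nat_lit 4813982900), (nat_lit 4013976013), (nat_lit 3637440826)], (nat_lit 0), (nat_lit 0), (nat_lit 0), (nat_lit 0), (nat_lit 0), (nat_lit 0), [], [(nat_lit 32), (nat_lit 67), (nat_lit 373), (nat_lit 150), (nat_lit 9)]⟩⟩) (.leaf ⟨(nat_lit 0), (nat_lit 965), (nat_lit 0), (nat_lit 35), (nat_lit 0), (nat_lit 4998), (nat_lit 6845), (nat_lit 579), (nat_lit 600219), (nat_lit 0), (nat_lit 0), [], Pd.none, Pd.none, (nat_lit 0),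 (nat_lit 1), (nat_lit 0), (nat_lit 0), (nat_lit 3), (nat_lit 0), [⟨(nat_lit 0), (nat_lit 69), (nat_lit 55), (nat_lit 100), (nat_lit 111036411)⟩], [], [⟨(nat_lit 0), (nat_lit 100), (nat_lit 66), (nat_lit 72), (nat_lit 107549487)⟩], [],
 ⟨⟨[(nat_lit 40), (nat_lit 80), (nat_lit 120)], [(nat_lit 0), (nat_lit 1598), (nat_lit 3468)], [((nat_lit 0), (nat_lit 0), (nat_lit 0)), ((nat_lit 1000), (nat_lit 625), (nat_lit 623)), ((nat_lit 1000), (nat_lit 604), (nat_lit 730))], ((nat_lit 61), (nat_lit 100), (nat_lit 89))⟩, (nat_lit 1195047), (nat_lit 190), (nat_lit 190), (nat_lit 0), (nat_lit 0), [(nat_lit 2101816259), (nat_lit 4688000366), (nat_lit 7968000000)], [], [(nat_lit 27185862908), (nat_lit 28825524824), (nat_lit 36767652655), (nat_lit 38057029160), (nat_lit 25925029287), (nat_lit 27042801857), (nat_lit 33080362276), (nat_lit 33930646497)], (nat_lit 0), (nat_lit 0), (nat_lit 0), (nat_lit 0), (nat_lit 0), (nat_lit 0), [], [(nat_lit 4), (nat_lit 51),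 (nat_lit 373), (nat_lit 150), (nat_lit 12)]⟩,
 ⟨⟨[(nat_lit 40), (nat_lit 100), (nat_lit 160)], [(nat_lit 0), (nat_lit 0), (nat_lit 4607)], [((nat_lit 0), (nat_lit 0), (nat_lit 0)), ((nat_lit 0), (nat_lit 0), (nat_lit 0)), ((nat_lit 846), (nat_lit 837), (nat_lit 1000))], ((nat_lit 88), (nat_lit 100), (nat_lit 96))⟩, (nat_lit 1677660), (nat_lit 555), (nat_lit 555), (nat_lit 0), (nat_lit 673979), [(nat_lit 2032000000), (nat_lit 6250000000), (nat_lit 11872000000)], [], [(nat_lit 35898371240), (nat_lit 38303076898), (nat_lit 41069796780), (nat_lit 45042438470), (nat_lit 32364713025), (nat_lit 34522975822), (nat_lit 37186819590), (nat_lit 38877929003)], (nat_lit 1271251), (nat_lit 1271251), (nat_lit 1271251), (nat_lit 1271251), (nat_lit 0), (nat_lit 780000), [(nat_lit 490000), (nat_lit 1427501), (nat_lit 1271251)], [(nat_lit 6), (nat_lit 56), (nat_lit 373), (nat_lit 150), (nat_lit 9)]⟩,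
 ⟨⟨[(nat_lit 140), (nat_lit 180), (nat_lit 200)], [(nat_lit 0), (nat_lit 0), (nat_lit 2835)], [((nat_lit 0), (nat_lit 0), (nat_lit 0)), ((nat_lit 0), (nat_lit 0), (nat_lit 0)), ((nat_lit 363), (nat_lit 1000), (nat_lit 798))], ((nat_lit 0), (nat_lit 0), (nat_lit 0))⟩, (nat_lit 9630), (nat_lit 300), (nat_lit 619), (nat_lit 2733500), (nat_lit 0), [(nat_lit 344470000), (nat_lit 492030000), (nat_lit 574000000)], [], [(nat_lit 2970615396), (nat_lit 2807393065), (nat_lit 2329527178), (nat_lit 2167537397), (nat_lit 2367217128), (nat_lit 2220453318), (nat_lit 1795230330), (nat_lit 1643085721)], (nat_lit 0), (nat_lit 0), (nat_lit 0), (nat_lit 0), (nat_lit 0), (nat_lit 0), [], [(nat_lit 32), (nat_lit 67), (nat_lit 373), (nat_lit 150), (nat_lit 9)]⟩⟩)) (.spl (nat_lit 6) (nat_lit 52) (.spl (nat_lit 3) (nat_lit 320) (.spl (nat_lit 0) (nat_lit 370) (.ord (.leaf ⟨(nat_lit 486), (nat_lit 343), (nat_lit 0), (nat_lit 171), (nat_lit 0), (nat_lit 3153), (nat_lit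 3197), (nat_lit 2430), (nat_lit 106042), (nat_lit 0), (nat_lit 229300), [((nat_lit 370), [((nat_lit 25), (nat_lit 0), (nat_lit 178)), ((nat_lit 41), (nat_lit 2), (nat_lit 308))])], ⟨(nat_lit 8), false, true, false, (nat_lit 301), (nat_lit 2738), (nat_lit 3163), [(nat_lit 1632856), (nat_lit 1634431), (nat_lit 1688213), (nat_lit 1690444), (nat_lit 1815772), (nat_lit 1811670), (nat_lit 1871128), (nat_lit 1867683)]⟩, ⟨(nat_lit 3), true, false, false, (nat_lit 142), (nat_lit 2738), (nat_lit 3163), [(nat_lit 1137055), (nat_lit 1144520), (nat_lit 1292055), (nat_lit 1301357), (nat_lit 1411379), (nat_lit 1410329), (nat_lit 1566428), (nat_lit 1567215)]⟩, (nat_lit 4901030), (nat_lit 38085773), (nat_lit 22245743), (nat_lit 6668484), (nat_lit 3), (nat_lit 0), [⟨(nat_lit 0), (nat_lit 70), (nat_lit 58), (nat_lit 100), (nat_lit 89703046)⟩], [⟨(nat_lit 0), (nat_lit 100), (nat_lit 57), (nat_lit 80), (nat_lit 129444777)⟩], [], [],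
 ⟨⟨[(nat_lit 40), (nat_lit 80), (nat_lit 100)], [(nat_lit 0), (nat_lit 1598), (nat_lit 2533)], [((nat_lit 0), (nat_lit 0), (nat_lit 0)), ((nat_lit 1000), (nat_lit 625), (nat_lit 623)), ((nat_lit 1000), (nat_lit 604), (nat_lit 730))], ((nat_lit 61), (nat_lit 100), (nat_lit 68))⟩, (nat_lit 1236629), (nat_lit 147), (nat_lit 147), (nat_lit 0), (nat_lit 0), [(nat_lit 1594831202), (nat_lit 2698746469), (nat_lit 3369468800)], [(nat_lit 0), (nat_lit 0), (nat_lit 0)], [(nat_lit 21853235245), (nat_lit 22512304910), (nat_lit 26860422543), (nat_lit 27524575178), (nat_lit 23098941343), (nat_lit 23689198508), (nat_lit 27035519588), (nat_lit 27506793933)], (nat_lit 0), (nat_lit 0), (nat_lit 0), (nat_lit 0), (nat_lit 0), (nat_lit 0), [], [(nat_lit 3), (nat_lit 50), (nat_lit 260), (nat_lit 50), (nat_lit 9)]⟩,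
 ⟨⟨[(nat_lit 40), (nat_lit 80), (nat_lit 120)], [(nat_lit 0), (nat_lit 0), (nat_lit 2151)], [((nat_lit 0), (nat_lit 0), (nat_lit 0)), ((nat_lit 0), (nat_lit 0), (nat_lit 0)), ((nat_lit 1000), (nat_lit 815), (nat_lit 753))], ((nat_lit 80), (nat_lit 100), (nat_lit 68))⟩, (nat_lit 982430), (nat_lit 591), (nat_lit 591), (nat_lit 0), (nat_lit 1191372), [(nat_lit 1044448000), (nat_lit 2409632000), (nat_lit 4095552000)], [], [(nat_lit 15890897104), (nat_lit 16862573803), (nat_lit 17064660702), (nat_lit 17874897525), (nat_lit 18031750045), (nat_lit 18624527404), (nat_lit 18500648695), (nat_lit 18954756718)], (nat_lit 1271251), (nat_lit 1271251), (nat_lit 1271251), (nat_lit 1271251), (nat_lit 780000), (nat_lit 2990626), [(nat_lit 490000), (nat_lit 1100000), (nat_lit 1785001)], [(nat_lit 4), (nat_lit 51), (nat_lit 428), (nat_lit 200), (nat_lit 13)]⟩,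
 ⟨⟨[(nat_lit 140), (nat_lit 180), (nat_lit 200)], [(nat_lit 0), (nat_lit 0), (nat_lit 2835)], [((nat_lit 0), (nat_lit 0), (nat_lit 0)), ((nat_lit 0), (nat_lit 0), (nat_lit 0)), ((nat_lit 363), (nat_lit 1000), (nat_lit 798))], ((nat_lit 0), (nat_lit 0), (nat_lit 0))⟩, (nat_lit 47048), (nat_lit 300), (nat_lit 467), (nat_lit 13355100), (nat_lit 0), [(nat_lit 1682982000), (nat_lit 2403918000), (nat_lit 2804400000)], [], [(nat_lit 11341754357), (nat_lit 10802916285), (nat_lit 9030252724), (nat_lit 8446583192), (nat_lit 11418821693), (nat_lit 10441056434), (nat_lit 8861249896), (nat_lit 7903843115)], (nat_lit 0), (nat_lit 0), (nat_lit 0), (nat_lit 0), (nat_lit 0), (nat_lit 0), [], [(nat_lit 32), (nat_lit 67), (nat_lit 456), (nat_lit 225), (nat_lit 10)]⟩⟩)) (.trZ (nat_lit 0) (nat_lit 1) (nat_lit 3) (nat_lit 80) (nat_lit 53) (nat_lit 100) (nat_lit 210) (.trZ (nat_lit 0) (nat_lit 2) (nat_lit 4) (nat_lit 100) (nat_lit 57) (nat_lit 62) (nat_lit 30) (.leaf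 ⟨(nat_lit 546), (nat_lit 296), (nat_lit 0), (nat_lit 158), (nat_lit 0), (nat_lit 2978), (nat_lit 2819), (nat_lit 2262), (nat_lit 834054), (nat_lit 0), (nat_lit 239600), [((nat_lit 380), [((nat_lit 25), (nat_lit 1), (nat_lit 440)), ((nat_lit 41), (nat_lit 2), (nat_lit 106))])], ⟨(nat_lit 8), false, true, false, (nat_lit 305), (nat_lit 2236), (nat_lit 2739), [(nat_lit 1649156), (nat_lit 1650786), (nat_lit 1716348), (nat_lit 1719048), (nat_lit 1811671), (nat_lit 1807675), (nat_lit 1878862), (nat_lit 1875937)]⟩, ⟨(nat_lit 3), true, false, false, (nat_lit 146), (nat_lit 2236), (nat_lit 2739), [(nat_lit 1159252), (nat_lit 1166519), (nat_lit 1316032), (nat_lit 1325797), (nat_lit 1410329), (nat_lit 1408901), (nat_lit 1567191), (nat_lit 1568262)]⟩, (nat_lit 4954885), (nat_lit 37484439), (nat_lit 22586965), (nat_lit 6928596), (nat_lit 3), (nat_lit 0), [⟨(nat_lit 0), (nat_lit 70), (nat_lit 51), (nat_lit 100), (nat_lit 105665817)⟩, ⟨(nat_lit 0), (nat_lit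 80), (nat_lit 53), (nat_lit 100), (nat_lit 14109632)⟩], [⟨(nat_lit 0), (nat_lit 100), (nat_lit 48), (nat_lit 85), (nat_lit 124440301)⟩, ⟨(nat_lit 0), (nat_lit 100), (nat_lit 57), (nat_lit 62), (nat_lit 6149180)⟩], [], [],
 ⟨⟨[(nat_lit 40), (nat_lit 60), (nat_lit 80)], [(nat_lit 0), (nat_lit 1134), (nat_lit 1930)], [((nat_lit 0), (nat_lit 0), (nat_lit 0)), ((nat_lit 1000), (nat_lit 575), (nat_lit 619)), ((nat_lit 1000), (nat_lit 574), (nat_lit 622))], ((nat_lit 55), (nat_lit 100), (nat_lit 70))⟩, (nat_lit 941372), (nat_lit 123), (nat_lit 123), (nat_lit 0), (nat_lit 0), [(nat_lit 1561830446), (nat_lit 2094419757), (nat_lit 2542339200)], [(nat_lit 0), (nat_lit 0), (nat_lit 0)], [(nat_lit 22822171184), (nat_lit 23448511472), (nat_lit 26966364709), (nat_lit 27520757980), (nat_lit 24132012869), (nat_lit 24698342745), (nat_lit 27655738840), (nat_lit 28116886810)], (nat_lit 0), (nat_lit 0), (nat_lit 0), (nat_lit 0), (nat_lit 0), (nat_lit 0), [], [(nat_lit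 2), (nat_lit 44), (nat_lit 260), (nat_lit 50), (nat_lit 11)]⟩,
 ⟨⟨[(nat_lit 40), (nat_lit 80), (nat_lit 120)], [(nat_lit 0), (nat_lit 0), (nat_lit 2151)], [((nat_lit 0), (nat_lit 0), (nat_lit 0)), ((nat_lit 0), (nat_lit 0), (nat_lit 0)), ((nat_lit 1000), (nat_lit 815), (nat_lit 753))], ((nat_lit 80), (nat_lit 100), (nat_lit 68))⟩, (nat_lit 843739), (nat_lit 636), (nat_lit 636), (nat_lit 0), (nat_lit 1305838), [(nat_lit 922528000), (nat_lit 2128352000), (nat_lit 3617472000)], [], [(nat_lit 14210422534), (nat_lit 15140821777), (nat_lit 15096625458), (nat_lit 15954915843), (nat_lit 15959282160), (nat_lit 16575924542), (nat_lit 16366475554), (nat_lit 16947806510)], (nat_lit 1271251), (nat_lit 1271251), (nat_lit 1271251), (nat_lit 1271251), (nat_lit 780000), (nat_lit 2990626), [(nat_lit 490000), (nat_lit 1100000), (nat_lit 1785001)], [(nat_lit 4), (nat_lit 51), (nat_lit 428), (nat_lit 200), (nat_lit 13)]⟩,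
 ⟨⟨[(nat_lit 140), (nat_lit 180), (nat_lit 200)], [(nat_lit 0), (nat_lit 0), (nat_lit 2835)], [((nat_lit 0), (nat_lit 0), (nat_lit 0)), ((nat_lit 0), (nat_lit 0), (nat_lit 0)), ((nat_lit 363), (nat_lit 1000), (nat_lit 798))], ((nat_lit 0), (nat_lit 0), (nat_lit 0))⟩, (nat_lit 43471), (nat_lit 300), (nat_lit 454), (nat_lit 12339800), (nat_lit 0), [(nat_lit 1555036000), (nat_lit 2221164000), (nat_lit 2591200000)], [], [(nat_lit 10273251216), (nat_lit 9775424619), (nat_lit 8325584052), (nat_lit 7786864646), (nat_lit 10342591050), (nat_lit 9437189274), (nat_lit 8169684190), (nat_lit 7275816129)], (nat_lit 0), (nat_lit 0), (nat_lit 0), (nat_lit 0), (nat_lit 0), (nat_lit 0), [], [(nat_lit 32), (nat_lit 67), (nat_lit 456), (nat_lit 225), (nat_lit 10)]⟩⟩)))) (.trX (nat_lit 5) (nat_lit 3) (nat_lit 4) (nat_lit 80) (nat_lit 60) (nat_lit 100) (nat_lit 360) (.spl (nat_lit 0) (nat_lit 370) (.ord (.leaf ⟨(nat_lit 54), (nat_lit 687), (nat_lit 0), (nat_lit 259),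 (nat_lit 0), (nat_lit 3478), (nat_lit 5937), (nat_lit 3680), (nat_lit 12275), (nat_lit 0), (nat_lit 216000), [((nat_lit 370), [((nat_lit 41), (nat_lit 5), (nat_lit 54))])], ⟨(nat_lit 8), false, true, true, (nat_lit 361), (nat_lit 2738), (nat_lit 3163), [(nat_lit 1815772), (nat_lit 1811670), (nat_lit 1871128), (nat_lit 1867683), (nat_lit 1937695), (nat_lit 1929809), (nat_lit 1993071), (nat_lit 1985842)]⟩, ⟨(nat_lit 3), true, false, false, (nat_lit 142), (nat_lit 2738), (nat_lit 3163), [(nat_lit 1137055), (nat_lit 1144520), (nat_lit 1292055), (nat_lit 1301357), (nat_lit 1411379), (nat_lit 1410329), (nat_lit 1566428), (nat_lit 1567215)]⟩, (nat_lit 4958247), (nat_lit 33449093), (nat_lit 27487549), (nat_lit 6063358), (nat_lit 3), (nat_lit 0), [], [⟨(nat_lit 0), (nat_lit 100), (nat_lit 57), (nat_lit 80), (nat_lit 1871271)⟩, ⟨(nat_lit 0), (nat_lit 100), (nat_lit 65), (nat_lit 54), (nat_lit 103011482)⟩], [], [⟨(nat_lit 1), (nat_lit 100), (nat_lit 61),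 (nat_lit 91), (nat_lit 56562734)⟩],
 ⟨⟨[(nat_lit 40), (nat_lit 80), (nat_lit 100)], [(nat_lit 0), (nat_lit 1598), (nat_lit 2533)], [((nat_lit 0), (nat_lit 0), (nat_lit 0)), ((nat_lit 1000), (nat_lit 625), (nat_lit 623)), ((nat_lit 1000), (nat_lit 604), (nat_lit 730))], ((nat_lit 61), (nat_lit 100), (nat_lit 68))⟩, (nat_lit 2135428), (nat_lit 172), (nat_lit 172), (nat_lit 0), (nat_lit 0), [(nat_lit 1864508802), (nat_lit 3940838765), (nat_lit 4412920000)], [(nat_lit 0), (nat_lit 0), (nat_lit 0)], [(nat_lit 27691149795), (nat_lit 28255120021), (nat_lit 32529250455), (nat_lit 33076565418), (nat_lit 28075606790), (nat_lit 28538176711), (nat_lit 31457624436), (nat_lit 31840558927)], (nat_lit 0), (nat_lit 0), (nat_lit 0), (nat_lit 0), (nat_lit 0), (nat_lit 0), [], [(nat_lit 3), (nat_lit 50), (nat_lit 260), (nat_lit 50), (nat_lit 8)]⟩,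
 ⟨⟨[(nat_lit 40), (nat_lit 80), (nat_lit 120)], [(nat_lit 0), (nat_lit 0), (nat_lit 2151)], [((nat_lit 0), (nat_lit 0), (nat_lit 0)), ((nat_lit 0), (nat_lit 0), (nat_lit 0)), ((nat_lit 1000), (nat_lit 815), (nat_lit 753))], ((nat_lit 80), (nat_lit 100), (nat_lit 68))⟩, (nat_lit 2323329), (nat_lit 559), (nat_lit 559), (nat_lit 0), (nat_lit 1191372), [(nat_lit 1922272000), (nat_lit 4434848000), (nat_lit 7537728000)], [], [(nat_lit 31142890150), (nat_lit 32638676233), (nat_lit 33536147882), (nat_lit 34741179177), (nat_lit 33155698518), (nat_lit 34071602360), (nat_lit 34998628610), (nat_lit 36908103448)], (nat_lit 1271251), (nat_lit 1271251), (nat_lit 1271251), (nat_lit 1271251), (nat_lit 780000), (nat_lit 2745001), [(nat_lit 490000), (nat_lit 1100000), (nat_lit 1785001)], [(nat_lit 4), (nat_lit 51), (nat_lit 317), (nat_lit 100), (nat_lit 9)]⟩,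
 ⟨⟨[(nat_lit 140), (nat_lit 180), (nat_lit 200)], [(nat_lit 0), (nat_lit 0), (nat_lit 2835)], [((nat_lit 0), (nat_lit 0), (nat_lit 0)), ((nat_lit 0), (nat_lit 0), (nat_lit 0)), ((nat_lit 363), (nat_lit 1000), (nat_lit 798))], ((nat_lit 0), (nat_lit 0), (nat_lit 0))⟩, (nat_lit 185799), (nat_lit 300), (nat_lit 467), (nat_lit 20227900), (nat_lit 0), [(nat_lit 2549078000), (nat_lit 3641022000), (nat_lit 4247600000)], [], [(nat_lit 17178166074), (nat_lit 16362251645), (nat_lit 13678008506), (nat_lit 12793915696), (nat_lit 16955589020), (nat_lit 15584885001), (nat_lit 13170170291), (nat_lit 11812399801)], (nat_lit 0), (nat_lit 0), (nat_lit 0), (nat_lit 0), (nat_lit 0), (nat_lit 0), [], [(nat_lit 32), (nat_lit 67), (nat_lit 456), (nat_lit 225), (nat_lit 10)]⟩⟩)) (.trZ (nat_lit 0) (nat_lit 2) (nat_lit 4) (nat_lit 100) (nat_lit 57) (nat_lit 62) (nat_lit 30) (.leaf ⟨(nat_lit 238), (nat_lit 541), (nat_lit 0), (nat_lit 221), (nat_lit 0), (nat_lit 2977),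 (nat_lit 4669), (nat_lit 3165), (nat_lit 1085846), (nat_lit 0), (nat_lit 134750), [((nat_lit 380), [((nat_lit 25), (nat_lit 0), (nat_lit 23)), ((nat_lit 41), (nat_lit 2), (nat_lit 215))])], ⟨(nat_lit 8), false, true, true, (nat_lit 361), (nat_lit 2236), (nat_lit 2739), [(nat_lit 1811671), (nat_lit 1807675), (nat_lit 1878862), (nat_lit 1875937), (nat_lit 1929809), (nat_lit 1921722), (nat_lit 1997054), (nat_lit 1990037)]⟩, ⟨(nat_lit 3), true, false, false, (nat_lit 146), (nat_lit 2236), (nat_lit 2739), [(nat_lit 1159252), (nat_lit 1166519), (nat_lit 1316032), (nat_lit 1325797), (nat_lit 1410329), (nat_lit 1408901), (nat_lit 1567191), (nat_lit 1568262)]⟩, (nat_lit 4999450), (nat_lit 33287319), (nat_lit 27367272), (nat_lit 6345409), (nat_lit 3), (nat_lit 0), [], [⟨(nat_lit 0), (nat_lit 100), (nat_lit 57), (nat_lit 62), (nat_lit 101678741)⟩], [], [⟨(nat_lit 1), (nat_lit 100), (nat_lit 61), (nat_lit 92), (nat_lit 15332477)⟩, ⟨(nat_lit 1), (nat_lit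 100), (nat_lit 61), (nat_lit 92), (nat_lit 15332477)⟩],
 ⟨⟨[(nat_lit 40), (nat_lit 60), (nat_lit 80)], [(nat_lit 0), (nat_lit 1134), (nat_lit 1930)], [((nat_lit 0), (nat_lit 0), (nat_lit 0)), ((nat_lit 1000), (nat_lit 575), (nat_lit 619)), ((nat_lit 1000), (nat_lit 574), (nat_lit 622))], ((nat_lit 55), (nat_lit 100), (nat_lit 70))⟩, (nat_lit 1676705), (nat_lit 152), (nat_lit 152), (nat_lit 0), (nat_lit 0), [(nat_lit 1740248861), (nat_lit 2893698789), (nat_lit 3600362800)], [(nat_lit 0), (nat_lit 0), (nat_lit 0)], [(nat_lit 27502197554), (nat_lit 28056512999), (nat_lit 31431445733), (nat_lit 31884706102), (nat_lit 28192410926), (nat_lit 28653501031), (nat_lit 31491749774), (nat_lit 31874963480)], (nat_lit 0), (nat_lit 0), (nat_lit 0), (nat_lit 0), (nat_lit 0), (nat_lit 0), [], [(nat_lit 2), (nat_lit 44), (nat_lit 260), (nat_lit 50), (nat_lit 10)]⟩,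
 ⟨⟨[(nat_lit 40), (nat_lit 80), (nat_lit 120)], [(nat_lit 0), (nat_lit 0), (nat_lit 2151)], [((nat_lit 0), (nat_lit 0), (nat_lit 0)), ((nat_lit 0), (nat_lit 0), (nat_lit 0)), ((nat_lit 1000), (nat_lit 815), (nat_lit 753))], ((nat_lit 80), (nat_lit 100), (nat_lit 68))⟩, (nat_lit 1810777), (nat_lit 619), (nat_lit 619), (nat_lit 0), (nat_lit 1305838), [(nat_lit 1548384000), (nat_lit 3572256000), (nat_lit 6071616000)], [], [(nat_lit 25689038584), (nat_lit 27083466013), (nat_lit 27561501154), (nat_lit 28719928372), (nat_lit 27307330846), (nat_lit 28191292578), (nat_lit 28485946488), (nat_lit 29872300435)], (nat_lit 1271251), (nat_lit 1271251), (nat_lit 1271251), (nat_lit 1271251), (nat_lit 780000), (nat_lit 2745001), [(nat_lit 490000), (nat_lit 1100000), (nat_lit 1785001)], [(nat_lit 4), (nat_lit 51), (nat_lit 317), (nat_lit 100), (nat_lit 9)]⟩,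
 ⟨⟨[(nat_lit 140), (nat_lit 180), (nat_lit 200)], [(nat_lit 0), (nat_lit 0), (nat_lit 2835)], [((nat_lit 0), (nat_lit 0), (nat_lit 0)), ((nat_lit 0), (nat_lit 0), (nat_lit 0)), ((nat_lit 363), (nat_lit 1000), (nat_lit 798))], ((nat_lit 0), (nat_lit 0), (nat_lit 0))⟩, (nat_lit 137411), (nat_lit 300), (nat_lit 454), (nat_lit 17260100), (nat_lit 0), [(nat_lit 2175082000), (nat_lit 3106818000), (nat_lit 3624400000)], [], [(nat_lit 14369725457), (nat_lit 13673235072), (nat_lit 11644609734), (nat_lit 10890636816), (nat_lit 14177650210), (nat_lit 13004601657), (nat_lit 11210628809), (nat_lit 10038841282)], (nat_lit 0), (nat_lit 0), (nat_lit 0), (nat_lit 0), (nat_lit 0), (nat_lit 0), [], [(nat_lit 32), (nat_lit 67), (nat_lit 456), (nat_lit 225), (nat_lit 10)]⟩⟩))))) (.spl (nat_lit 5) (nat_lit 240) (.leaf ⟨(nat_lit 0), (nat_lit 840), (nat_lit 0), (nat_lit 160), (nat_lit 0), (nat_lit 3409), (nat_lit 7054), (nat_lit 2284), (nat_lit 180), (nat_lit 0), (nat_lit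 0), [], Pd.none, Pd.none, (nat_lit 0), (nat_lit 1), (nat_lit 0), (nat_lit 0), (nat_lit 3), (nat_lit 0), [⟨(nat_lit 0), (nat_lit 69), (nat_lit 55), (nat_lit 100), (nat_lit 339299572)⟩], [⟨(nat_lit 0), (nat_lit 100), (nat_lit 53), (nat_lit 82), (nat_lit 16931499)⟩], [], [],
 ⟨⟨[(nat_lit 40), (nat_lit 80), (nat_lit 120)], [(nat_lit 0), (nat_lit 1598), (nat_lit 3468)], [((nat_lit 0), (nat_lit 0), (nat_lit 0)), ((nat_lit 1000), (nat_lit 625), (nat_lit 623)), ((nat_lit 1000), (nat_lit 604), (nat_lit 730))], ((nat_lit 61), (nat_lit 100), (nat_lit 89))⟩, (nat_lit 1970251), (nat_lit 190), (nat_lit 190), (nat_lit 0), (nat_lit 0), [(nat_lit 2032000001), (nat_lit 4688000001), (nat_lit 7968000000)], [], [(nat_lit 25095259701), (nat_lit 26180519066), (nat_lit 32511141639), (nat_lit 33423586924), (nat_lit 25573715444), (nat_lit 26550570704), (nat_lit 32250504038), (nat_lit 33011331259)], (nat_lit 0), (nat_lit 0), (nat_lit 0), (nat_lit 0), (nat_lit 0), (nat_lit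 0), [], [(nat_lit 4), (nat_lit 51), (nat_lit 373), (nat_lit 150), (nat_lit 12)]⟩,
 ⟨⟨[(nat_lit 40), (nat_lit 100), (nat_lit 160)], [(nat_lit 0), (nat_lit 0), (nat_lit 4607)], [((nat_lit 0), (nat_lit 0), (nat_lit 0)), ((nat_lit 0), (nat_lit 0), (nat_lit 0)), ((nat_lit 846), (nat_lit 837), (nat_lit 1000))], ((nat_lit 88), (nat_lit 100), (nat_lit 96))⟩, (nat_lit 1590798), (nat_lit 529), (nat_lit 529), (nat_lit 0), (nat_lit 807711), [(nat_lit 2032000000), (nat_lit 6250000000), (nat_lit 11872000000)], [], [(nat_lit 32008482028), (nat_lit 34166503399), (nat_lit 36460131188), (nat_lit 38165127083), (nat_lit 31779451754), (nat_lit 33757011140), (nat_lit 35695313696), (nat_lit 37070136070)], (nat_lit 1271251), (nat_lit 1271251), (nat_lit 1271251), (nat_lit 1271251), (nat_lit 780000), (nat_lit 1762501), [(nat_lit 490000), (nat_lit 1427501), (nat_lit 1271251)], [(nat_lit 6), (nat_lit 56), (nat_lit 401), (nat_lit 175), (nat_lit 10)]⟩,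
 ⟨⟨[(nat_lit 140), (nat_lit 180), (nat_lit 200)], [(nat_lit 0), (nat_lit 0), (nat_lit 2835)], [((nat_lit 0), (nat_lit 0), (nat_lit 0)), ((nat_lit 0), (nat_lit 0), (nat_lit 0)), ((nat_lit 363), (nat_lit 1000), (nat_lit 798))], ((nat_lit 0), (nat_lit 0), (nat_lit 0))⟩, (nat_lit 44021), (nat_lit 300), (nat_lit 467), (nat_lit 12496003), (nat_lit 0), [(nat_lit 1574720000), (nat_lit 2249280000), (nat_lit 2624000000)], [], [(nat_lit 10617668454), (nat_lit 10109172091), (nat_lit 8437440295), (nat_lit 7892401067), (nat_lit 9972079880), (nat_lit 9357917660), (nat_lit 7793299896), (nat_lit 7150209846)], (nat_lit 0), (nat_lit 0), (nat_lit 0), (nat_lit 0), (nat_lit 0), (nat_lit 0), [], [(nat_lit 32), (nat_lit 67), (nat_lit 401), (nat_lit 175), (nat_lit 9)]⟩⟩) (.leaf ⟨(nat_lit 0), (nat_lit 0), (nat_lit 0), (nat_lit 1000), (nat_lit 0), (nat_lit 3877), (nat_lit 7573), (nat_lit 13407), (nat_lit 582960429244), (nat_lit 0), (nat_lit 0), [], Pd.none, Pd.none, (nat_lit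 0), (nat_lit 1), (nat_lit 0), (nat_lit 0), (nat_lit 0), (nat_lit 0), [⟨(nat_lit 0), (nat_lit 56), (nat_lit 56), (nat_lit 100), (nat_lit 293262600)⟩], [⟨(nat_lit 0), (nat_lit 100), (nat_lit 65), (nat_lit 54), (nat_lit 1374319449)⟩], [], [],
 ⟨⟨[(nat_lit 40), (nat_lit 80), (nat_lit 120)], [(nat_lit 0), (nat_lit 1598), (nat_lit 3468)], [((nat_lit 0), (nat_lit 0), (nat_lit 0)), ((nat_lit 1000), (nat_lit 625), (nat_lit 623)), ((nat_lit 1000), (nat_lit 604), (nat_lit 730))], ((nat_lit 61), (nat_lit 100), (nat_lit 89))⟩, (nat_lit 1952995), (nat_lit 190), (nat_lit 190), (nat_lit 0), (nat_lit 0), [(nat_lit 2032000006), (nat_lit 4688000071), (nat_lit 7968000000)], [], [(nat_lit 24484112003), (nat_lit 25756017466), (nat_lit 33641831033), (nat_lit 34787581935), (nat_lit 24687492582), (nat_lit 25719639936), (nat_lit 31416821026), (nat_lit 32273806816)], (nat_lit 0), (nat_lit 0), (nat_lit 0), (nat_lit 0), (nat_lit 0), (nat_lit 0), [], [(nat_lit 4), (nat_lit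 51), (nat_lit 373), (nat_lit 150), (nat_lit 12)]⟩,
 ⟨⟨[(nat_lit 40), (nat_lit 100), (nat_lit 160)], [(nat_lit 0), (nat_lit 0), (nat_lit 4607)], [((nat_lit 0), (nat_lit 0), (nat_lit 0)), ((nat_lit 0), (nat_lit 0), (nat_lit 0)), ((nat_lit 846), (nat_lit 837), (nat_lit 1000))], ((nat_lit 88), (nat_lit 100), (nat_lit 96))⟩, (nat_lit 1528918), (nat_lit 489), (nat_lit 489), (nat_lit 0), (nat_lit 807711), [(nat_lit 2032000000), (nat_lit 6250000000), (nat_lit 11872000000)], [], [(nat_lit 30017809704), (nat_lit 31804003304), (nat_lit 34117033468), (nat_lit 37781272465), (nat_lit 33480132114), (nat_lit 37023112742), (nat_lit 40184186468), (nat_lit 42517068746)], (nat_lit 1271251), (nat_lit 1271251), (nat_lit 1271251), (nat_lit 1271251), (nat_lit 1271251), (nat_lit 1271251), [(nat_lit 490000), (nat_lit 1427501), (nat_lit 1271251)], [(nat_lit 6), (nat_lit 56), (nat_lit 428), (nat_lit 200), (nat_lit 10)]⟩,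
 ⟨⟨[(nat_lit 140), (nat_lit 180), (nat_lit 200)], [(nat_lit 0), (nat_lit 0), (nat_lit 2835)], [((nat_lit 0), (nat_lit 0), (nat_lit 0)), ((nat_lit 0), (nat_lit 0), (nat_lit 0)), ((nat_lit 363), (nat_lit 1000), (nat_lit 798))], ((nat_lit 0), (nat_lit 0), (nat_lit 0))⟩, (nat_lit 275132), (nat_lit 300), (nat_lit 417), (nat_lit 78100004), (nat_lit 0), [(nat_lit 9842000000), (nat_lit 14058000000), (nat_lit 16400000000)], [], [(nat_lit 62249899230), (nat_lit 58805444335), (nat_lit 49645951236), (nat_lit 46006901396), (nat_lit 66646383485), (nat_lit 61386680874), (nat_lit 52679710136), (nat_lit 47524763652)], (nat_lit 0), (nat_lit 0), (nat_lit 0), (nat_lit 0), (nat_lit 0), (nat_lit 0), [], [(nat_lit 32), (nat_lit 67), (nat_lit 456), (nat_lit 225), (nat_lit 10)]⟩⟩))))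
noncomputable def c18_1 : Tr Lf :=
 (.spl (nat_lit 3) (nat_lit 320) (.spl (nat_lit 6) (nat_lit 52) (.spl (nat_lit 5) (nat_lit 120) (.leaf ⟨(nat_lit 54), (nat_lit 695), (nat_lit 0), (nat_lit 251), (nat_lit 0), (nat_lit 3550), (nat_lit 6049), (nat_lit 3412), (nat_lit 6912), (nat_lit 0), (nat_lit 216000), [((nat_lit 380), [((nat_lit 41), (nat_lit 5), (nat_lit 54))])], ⟨(nat_lit 8), false, true, false, (nat_lit 303), (nat_lit 2236), (nat_lit 3163), [(nat_lit 1632548), (nat_lit 1636264), (nat_lit 1698823), (nat_lit 1704397), (nat_lit 1815720), (nat_lit 1807623), (nat_lit 1881994), (nat_lit 1875755)]⟩, ⟨(nat_lit 5), true, false, true, (nat_lit 246), (nat_lit 2236), (nat_lit 3163), [(nat_lit 1411379), (nat_lit 1408901), (nat_lit 1566274), (nat_lit 1568132), (nat_lit 1670430), (nat_lit 1651217), (nat_lit 1825515), (nat_lit 1810637)]⟩, (nat_lit 5626465), (nat_lit 32860302), (nat_lit 19962235), (nat_lit 14177463), (nat_lit 5), (nat_lit 0), [⟨(nat_lit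 0), (nat_lit 80), (nat_lit 60), (nat_lit 100), (nat_lit 343237053)⟩], [⟨(nat_lit 1), (nat_lit 88), (nat_lit 53), (nat_lit 100), (nat_lit 405814152)⟩], [⟨(nat_lit 0), (nat_lit 100), (nat_lit 87), (nat_lit 25), (nat_lit 285031742)⟩], [],
 ⟨⟨[(nat_lit 40), (nat_lit 80), (nat_lit 100)], [(nat_lit 0), (nat_lit 1598), (nat_lit 2533)], [((nat_lit 0), (nat_lit 0), (nat_lit 0)), ((nat_lit 1000), (nat_lit 625), (nat_lit 623)), ((nat_lit 1000), (nat_lit 604), (nat_lit 730))], ((nat_lit 61), (nat_lit 100), (nat_lit 68))⟩, (nat_lit 1633922), (nat_lit 80), (nat_lit 80), (nat_lit 0), (nat_lit 0), [(nat_lit 1864508801), (nat_lit 3687707751), (nat_lit 4412920000)], [(nat_lit 0), (nat_lit 0), (nat_lit 0)], [(nat_lit 22564262902), (nat_lit 23892212377), (nat_lit 26793159802), (nat_lit 27839104975), (nat_lit 29292393200), (nat_lit 30308727069), (nat_lit 32174303888), (nat_lit 32983771682)], (nat_lit 0), (nat_lit 0), (nat_lit 0), (nat_lit 0), (nat_lit 0), (nat_lit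 0), [], [(nat_lit 3), (nat_lit 50), (nat_lit 203), (nat_lit 0), (nat_lit 6)]⟩,
 ⟨⟨[(nat_lit 40), (nat_lit 80), (nat_lit 120)], [(nat_lit 0), (nat_lit 0), (nat_lit 2151)], [((nat_lit 0), (nat_lit 0), (nat_lit 0)), ((nat_lit 0), (nat_lit 0), (nat_lit 0)), ((nat_lit 1000), (nat_lit 815), (nat_lit 753))], ((nat_lit 80), (nat_lit 100), (nat_lit 68))⟩, (nat_lit 2687264), (nat_lit 624), (nat_lit 624), (nat_lit 0), (nat_lit 1081426), [(nat_lit 1922272000), (nat_lit 4434848000), (nat_lit 7537728000)], [], [(nat_lit 30420575666), (nat_lit 33039375724), (nat_lit 33060768268), (nat_lit 35186758354), (nat_lit 28344039829), (nat_lit 30620752952), (nat_lit 30585176966), (nat_lit 32391708233)], (nat_lit 1271251), (nat_lit 1271251), (nat_lit 1271251), (nat_lit 1271251), (nat_lit 0), (nat_lit 780000), [(nat_lit 490000), (nat_lit 1100000), (nat_lit 1785001)], [(nat_lit 4), (nat_lit 51), (nat_lit 345), (nat_lit 125), (nat_lit 11)]⟩,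
 ⟨⟨[(nat_lit 140), (nat_lit 180), (nat_lit 200)], [(nat_lit 0), (nat_lit 0), (nat_lit 2835)], [((nat_lit 0), (nat_lit 0), (nat_lit 0)), ((nat_lit 0), (nat_lit 0), (nat_lit 0)), ((nat_lit 363), (nat_lit 1000), (nat_lit 798))], ((nat_lit 0), (nat_lit 0), (nat_lit 0))⟩, (nat_lit 181034), (nat_lit 300), (nat_lit 448), (nat_lit 19603100), (nat_lit 0), [(nat_lit 2470342000), (nat_lit 3528558000), (nat_lit 4116400000)], [], [(nat_lit 16413346010), (nat_lit 15580134383), (nat_lit 17151503529), (nat_lit 15850931874), (nat_lit 13407321176), (nat_lit 12560849645), (nat_lit 13977298553), (nat_lit 12759357198)], (nat_lit 0), (nat_lit 0), (nat_lit 0), (nat_lit 0), (nat_lit 0), (nat_lit 0), [], [(nat_lit 32), (nat_lit 67), (nat_lit 428), (nat_lit 200), (nat_lit 9)]⟩⟩) (.leaf ⟨(nat_lit 0), (nat_lit 0), (nat_lit 0), (nat_lit 1000), (nat_lit 0), (nat_lit 3914), (nat_lit 6799), (nat_lit 23481), (nat_lit 5107), (nat_lit 0), (nat_lit 0), [], Pd.none, Pd.none, (nat_lit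 0), (nat_lit 1), (nat_lit 0), (nat_lit 0), (nat_lit 0), (nat_lit 0), [⟨(nat_lit 0), (nat_lit 69), (nat_lit 55), (nat_lit 100), (nat_lit 507063814)⟩], [⟨(nat_lit 1), (nat_lit 88), (nat_lit 53), (nat_lit 100), (nat_lit 606152012)⟩], [], [],
 ⟨⟨[(nat_lit 40), (nat_lit 80), (nat_lit 100)], [(nat_lit 0), (nat_lit 1598), (nat_lit 2533)], [((nat_lit 0), (nat_lit 0), (nat_lit 0)), ((nat_lit 1000), (nat_lit 625), (nat_lit 623)), ((nat_lit 1000), (nat_lit 604), (nat_lit 730))], ((nat_lit 61), (nat_lit 100), (nat_lit 68))⟩, (nat_lit 1919495), (nat_lit 80), (nat_lit 80), (nat_lit 0), (nat_lit 0), [(nat_lit 2032000006), (nat_lit 4688000002), (nat_lit 6250000000)], [], [(nat_lit 22655127059), (nat_lit 23913965450), (nat_lit 27006944586), (nat_lit 28218241733), (nat_lit 29728963516), (nat_lit 30787148695), (nat_lit 32609061939), (nat_lit 33445453766)], (nat_lit 0), (nat_lit 0), (nat_lit 0), (nat_lit 0), (nat_lit 0), (nat_lit 0), [], [(nat_lit 3), (nat_lit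 50), (nat_lit 203), (nat_lit 0), (nat_lit 6)]⟩,
 ⟨⟨[(nat_lit 40), (nat_lit 80), (nat_lit 120)], [(nat_lit 0), (nat_lit 0), (nat_lit 2151)], [((nat_lit 0), (nat_lit 0), (nat_lit 0)), ((nat_lit 0), (nat_lit 0), (nat_lit 0)), ((nat_lit 1000), (nat_lit 815), (nat_lit 753))], ((nat_lit 80), (nat_lit 100), (nat_lit 68))⟩, (nat_lit 1927689), (nat_lit 639), (nat_lit 639), (nat_lit 0), (nat_lit 1307543), [(nat_lit 2032000000), (nat_lit 4688000000), (nat_lit 7968000000)], [], [(nat_lit 27907960050), (nat_lit 30419712188), (nat_lit 30315775982), (nat_lit 32267301218), (nat_lit 32120917022), (nat_lit 35921362926), (nat_lit 35182098420), (nat_lit 38119050257)], (nat_lit 1271251), (nat_lit 1271251), (nat_lit 1271251), (nat_lit 1271251), (nat_lit 780000), (nat_lit 2990626), [(nat_lit 490000), (nat_lit 1100000), (nat_lit 1785001)], [(nat_lit 4), (nat_lit 51), (nat_lit 428), (nat_lit 200), (nat_lit 13)]⟩,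
 ⟨⟨[(nat_lit 140), (nat_lit 180), (nat_lit 200)], [(nat_lit 0), (nat_lit 0), (nat_lit 2835)], [((nat_lit 0), (nat_lit 0), (nat_lit 0)), ((nat_lit 0), (nat_lit 0), (nat_lit 0)), ((nat_lit 363), (nat_lit 1000), (nat_lit 798))], ((nat_lit 0), (nat_lit 0), (nat_lit 0))⟩, (nat_lit 5131421), (nat_lit 277), (nat_lit 277), (nat_lit 0), (nat_lit 0), [(nat_lit 9842000000), (nat_lit 14058000000), (nat_lit 16400000000)], [], [(nat_lit 25655670863), (nat_lit 29023551417), (nat_lit 46870449619), (nat_lit 43173973714), (nat_lit 45033431742), (nat_lit 44845368907), (nat_lit 63565641442), (nat_lit 57439282823)], (nat_lit 0), (nat_lit 0), (nat_lit 0), (nat_lit 0), (nat_lit 0), (nat_lit 0), [], [(nat_lit 32), (nat_lit 67), (nat_lit 538), (nat_lit 300), (nat_lit 11)]⟩⟩)) (.spl (nat_lit 2) (nat_lit 200) (.trX (nat_lit 4) (nat_lit 0) (nat_lit 2) (nat_lit 60) (nat_lit 80) (nat_lit 100) (nat_lit 320) (.trX (nat_lit 5) (nat_lit 1) (nat_lit 2) (nat_lit 80) (nat_lit 60)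 (nat_lit 100) (nat_lit 360) (.leaf ⟨(nat_lit 0), (nat_lit 810), (nat_lit 0), (nat_lit 190), (nat_lit 0), (nat_lit 5707), (nat_lit 7201), (nat_lit 2593), (nat_lit 6140), (nat_lit 0), (nat_lit 0), [], Pd.none, Pd.none, (nat_lit 0), (nat_lit 1), (nat_lit 0), (nat_lit 0), (nat_lit 5), (nat_lit 0), [⟨(nat_lit 0), (nat_lit 69), (nat_lit 55), (nat_lit 100), (nat_lit 446095180)⟩], [⟨(nat_lit 1), (nat_lit 96), (nat_lit 54), (nat_lit 100), (nat_lit 439203616)⟩], [], [],
 ⟨⟨[(nat_lit 40), (nat_lit 80), (nat_lit 120)], [(nat_lit 0), (nat_lit 1598), (nat_lit 3468)], [((nat_lit 0), (nat_lit 0), (nat_lit 0)), ((nat_lit 1000), (nat_lit 625), (nat_lit 623)), ((nat_lit 1000), (nat_lit 604), (nat_lit 730))], ((nat_lit 61), (nat_lit 100), (nat_lit 89))⟩, (nat_lit 0), (nat_lit 67), (nat_lit 67), (nat_lit 0), (nat_lit 0), [(nat_lit 2443880648), (nat_lit 4688000006), (nat_lit 7968000000)], [], [(nat_lit 24301504207), (nat_lit 25945655501), (nat_lit 28830768126), (nat_lit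 30086423967), (nat_lit 28830768126), (nat_lit 30086423967), (nat_lit 32251387308), (nat_lit 33373760476)], (nat_lit 0), (nat_lit 0), (nat_lit 0), (nat_lit 0), (nat_lit 0), (nat_lit 0), [], [(nat_lit 4), (nat_lit 51), (nat_lit 401), (nat_lit 175), (nat_lit 12)]⟩,
 ⟨⟨[(nat_lit 40), (nat_lit 100), (nat_lit 160)], [(nat_lit 0), (nat_lit 0), (nat_lit 4607)], [((nat_lit 0), (nat_lit 0), (nat_lit 0)), ((nat_lit 0), (nat_lit 0), (nat_lit 0)), ((nat_lit 846), (nat_lit 837), (nat_lit 1000))], ((nat_lit 88), (nat_lit 100), (nat_lit 96))⟩, (nat_lit 1805162), (nat_lit 621), (nat_lit 621), (nat_lit 0), (nat_lit 796402), [(nat_lit 2032000000), (nat_lit 6250000000), (nat_lit 11872000000)], [], [(nat_lit 34294442854), (nat_lit 37049779580), (nat_lit 36832956176), (nat_lit 39296582956), (nat_lit 33928999409), (nat_lit 35630887072), (nat_lit 34921199802), (nat_lit 37093354940)], (nat_lit 1271251), (nat_lit 1271251), (nat_lit 1271251), (nat_lit 1271251), (nat_lit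 0), (nat_lit 2542501), [(nat_lit 490000), (nat_lit 1427501), (nat_lit 1271251)], [(nat_lit 6), (nat_lit 56), (nat_lit 401), (nat_lit 175), (nat_lit 10)]⟩,
 ⟨⟨[(nat_lit 140), (nat_lit 180), (nat_lit 200)], [(nat_lit 0), (nat_lit 0), (nat_lit 2835)], [((nat_lit 0), (nat_lit 0), (nat_lit 0)), ((nat_lit 0), (nat_lit 0), (nat_lit 0)), ((nat_lit 363), (nat_lit 1000), (nat_lit 798))], ((nat_lit 0), (nat_lit 0), (nat_lit 0))⟩, (nat_lit 52275), (nat_lit 300), (nat_lit 448), (nat_lit 14839002), (nat_lit 0), [(nat_lit 1869980000), (nat_lit 2671020000), (nat_lit 3116000000)], [], [(nat_lit 12428483396), (nat_lit 11896912400), (nat_lit 12574188752), (nat_lit 11930641702), (nat_lit 9778035722), (nat_lit 9116073400), (nat_lit 9469250948), (nat_lit 8742383161)], (nat_lit 0), (nat_lit 0), (nat_lit 0), (nat_lit 0), (nat_lit 0), (nat_lit 0), [], [(nat_lit 32), (nat_lit 67), (nat_lit 456), (nat_lit 225), (nat_lit 10)]⟩⟩))) (.trZ (nat_lit 1) (nat_lit 2) (nat_lit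 5) (nat_lit 100) (nat_lit 80) (nat_lit 60) (nat_lit 40) (.leaf ⟨(nat_lit 0), (nat_lit 0), (nat_lit 0), (nat_lit 1000), (nat_lit 0), (nat_lit 5707), (nat_lit 7254), (nat_lit 15674), (nat_lit 282602), (nat_lit 0), (nat_lit 0), [], Pd.none, Pd.none, (nat_lit 0), (nat_lit 1), (nat_lit 0), (nat_lit 0), (nat_lit 0), (nat_lit 0), [⟨(nat_lit 0), (nat_lit 69), (nat_lit 55), (nat_lit 100), (nat_lit 482162968)⟩], [], [⟨(nat_lit 0), (nat_lit 100), (nat_lit 80), (nat_lit 60), (nat_lit 511805743)⟩], [],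
 ⟨⟨[(nat_lit 40), (nat_lit 80), (nat_lit 120)], [(nat_lit 0), (nat_lit 1598), (nat_lit 3468)], [((nat_lit 0), (nat_lit 0), (nat_lit 0)), ((nat_lit 1000), (nat_lit 625), (nat_lit 623)), ((nat_lit 1000), (nat_lit 604), (nat_lit 730))], ((nat_lit 61), (nat_lit 100), (nat_lit 89))⟩, (nat_lit 0), (nat_lit 80), (nat_lit 80), (nat_lit 0), (nat_lit 0), [(nat_lit 2514957278), (nat_lit 4688000101), (nat_lit 7968000000)], [], [(nat_lit 24301504302), (nat_lit 25945655596), (nat_lit 28830768221), (nat_lit 30086424062), (nat_lit 31879432133), (nat_lit 33143769504), (nat_lit 34750603657), (nat_lit 35719618540)], (nat_lit 0), (nat_lit 0), (nat_lit 0), (nat_lit 0), (nat_lit 0), (nat_lit 0), [], [(nat_lit 4), (nat_lit 51), (nat_lit 401), (nat_lit 175), (nat_lit 12)]⟩,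
 ⟨⟨[(nat_lit 40), (nat_lit 100), (nat_lit 160)], [(nat_lit 0), (nat_lit 0), (nat_lit 4607)], [((nat_lit 0), (nat_lit 0), (nat_lit 0)), ((nat_lit 0), (nat_lit 0), (nat_lit 0)), ((nat_lit 846), (nat_lit 837), (nat_lit 1000))], ((nat_lit 88), (nat_lit 100), (nat_lit 96))⟩, (nat_lit 2114886), (nat_lit 502), (nat_lit 502), (nat_lit 0), (nat_lit 595101), [(nat_lit 2032000000), (nat_lit 6250000000), (nat_lit 11872000000)], [], [(nat_lit 29143412180), (nat_lit 33157078469), (nat_lit 33084330156), (nat_lit 36149066708), (nat_lit 33463914553), (nat_lit 36569032392), (nat_lit 35701744820), (nat_lit 38727837129)], (nat_lit 1271251), (nat_lit 1271251), (nat_lit 1271251), (nat_lit 1271251), (nat_lit 230000), (nat_lit 2833126), [(nat_lit 490000), (nat_lit 1427501), (nat_lit 1271251)], [(nat_lit 6), (nat_lit 56), (nat_lit 428), (nat_lit 200), (nat_lit 10)]⟩,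
 ⟨⟨[(nat_lit 100), (nat_lit 160), (nat_lit 200)], [(nat_lit 0), (nat_lit 0), (nat_lit 4782)], [((nat_lit 0), (nat_lit 0), (nat_lit 0)), ((nat_lit 0), (nat_lit 0), (nat_lit 0)), ((nat_lit 475), (nat_lit 1000), (nat_lit 880))], ((nat_lit 0), (nat_lit 0), (nat_lit 0))⟩, (nat_lit 326223), (nat_lit 300), (nat_lit 304), (nat_lit 74200009), (nat_lit 0), [(nat_lit 6250000000), (nat_lit 11872000000), (nat_lit 16400000000)], [], [(nat_lit 46086399900), (nat_lit 47763415338), (nat_lit 56953340214), (nat_lit 56822023097), (nat_lit 45567622453), (nat_lit 44879882870), (nat_lit 47668749353), (nat_lit 47421409954)], (nat_lit 0), (nat_lit 0), (nat_lit 0), (nat_lit 0), (nat_lit 0), (nat_lit 0), [], [(nat_lit 25), (nat_lit 66), (nat_lit 538), (nat_lit 300), (nat_lit 11)]⟩⟩)))) (.trZ (nat_lit 3) (nat_lit 4) (nat_lit 5) (nat_lit 100) (nat_lit 80) (nat_lit 60) (nat_lit 40) (.spl (nat_lit 5) (nat_lit 120) (.trX (nat_lit 3) (nat_lit 4) (nat_lit 5) (nat_lit 100) (nat_lit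 40) (nat_lit 92) (nat_lit 390) (.trX (nat_lit 4) (nat_lit 3) (nat_lit 5) (nat_lit 87) (nat_lit 95) (nat_lit 100) (nat_lit 300) (.leaf ⟨(nat_lit 0), (nat_lit 0), (nat_lit 0), (nat_lit 1000), (nat_lit 0), (nat_lit 3750), (nat_lit 6257), (nat_lit 23995), (nat_lit 12818), (nat_lit 0), (nat_lit 0), [], Pd.none, Pd.none, (nat_lit 0), (nat_lit 1), (nat_lit 0), (nat_lit 0), (nat_lit 0), (nat_lit 0), [], [], [], [],
 ⟨⟨[(nat_lit 40), (nat_lit 80), (nat_lit 120)], [(nat_lit 0), (nat_lit 1598), (nat_lit 3468)], [((nat_lit 0), (nat_lit 0), (nat_lit 0)), ((nat_lit 1000), (nat_lit 625), (nat_lit 623)), ((nat_lit 1000), (nat_lit 604), (nat_lit 730))], ((nat_lit 61), (nat_lit 100), (nat_lit 89))⟩, (nat_lit 2085498), (nat_lit 95), (nat_lit 95), (nat_lit 0), (nat_lit 0), [(nat_lit 2032000007), (nat_lit 5080443912), (nat_lit 7968000000)], [], [(nat_lit 27187849193), (nat_lit 28047629818), (nat_lit 30601255500), (nat_lit 31581265782), (nat_lit 29635834500), (nat_lit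 30614390000), (nat_lit 32732676719), (nat_lit 33547181204)], (nat_lit 0), (nat_lit 0), (nat_lit 0), (nat_lit 0), (nat_lit 0), (nat_lit 0), [], [(nat_lit 4), (nat_lit 51), (nat_lit 289), (nat_lit 75), (nat_lit 7)]⟩,
 ⟨⟨[(nat_lit 40), (nat_lit 100), (nat_lit 160)], [(nat_lit 0), (nat_lit 0), (nat_lit 4607)], [((nat_lit 0), (nat_lit 0), (nat_lit 0)), ((nat_lit 0), (nat_lit 0), (nat_lit 0)), ((nat_lit 846), (nat_lit 837), (nat_lit 1000))], ((nat_lit 88), (nat_lit 100), (nat_lit 96))⟩, (nat_lit 1541863), (nat_lit 692), (nat_lit 692), (nat_lit 0), (nat_lit 1108927), [(nat_lit 2032000000), (nat_lit 6250000000), (nat_lit 11872000000)], [], [(nat_lit 41196139818), (nat_lit 42965673819), (nat_lit 43260596153), (nat_lit 44717305262), (nat_lit 39542165262), (nat_lit 41163349983), (nat_lit 41433547437), (nat_lit 42767520218)], (nat_lit 1271251), (nat_lit 1271251), (nat_lit 1271251), (nat_lit 1271251), (nat_lit 230000), (nat_lit 780000), [(nat_lit 490000),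 (nat_lit 1427501), (nat_lit 1271251)], [(nat_lit 6), (nat_lit 56), (nat_lit 285), (nat_lit 30), (nat_lit 6)]⟩,
 ⟨⟨[(nat_lit 140), (nat_lit 180), (nat_lit 200)], [(nat_lit 0), (nat_lit 0), (nat_lit 2835)], [((nat_lit 0), (nat_lit 0), (nat_lit 0)), ((nat_lit 0), (nat_lit 0), (nat_lit 0)), ((nat_lit 363), (nat_lit 1000), (nat_lit 798))], ((nat_lit 0), (nat_lit 0), (nat_lit 0))⟩, (nat_lit 275132), (nat_lit 300), (nat_lit 343), (nat_lit 78100004), (nat_lit 0), [(nat_lit 9842000000), (nat_lit 14058000000), (nat_lit 16400000000)], [], [(nat_lit 53269573786), (nat_lit 53449276400), (nat_lit 60839408118), (nat_lit 57543224924), (nat_lit 39944679554), (nat_lit 39574690170), (nat_lit 46400239408), (nat_lit 43197719166)], (nat_lit 0), (nat_lit 0), (nat_lit 0), (nat_lit 0), (nat_lit 0), (nat_lit 0), [], [(nat_lit 32), (nat_lit 67), (nat_lit 401), (nat_lit 175), (nat_lit 9)]⟩⟩))) (.leaf ⟨(nat_lit 0), (nat_lit 0), (nat_lit 0), (nat_lit 1000), (nat_lit 0),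 (nat_lit 4074), (nat_lit 7559), (nat_lit 16055), (nat_lit 502518), (nat_lit 0), (nat_lit 0), [], Pd.none, Pd.none, (nat_lit 0), (nat_lit 1), (nat_lit 0), (nat_lit 0), (nat_lit 0), (nat_lit 0), [], [⟨(nat_lit 1), (nat_lit 88), (nat_lit 53), (nat_lit 100), (nat_lit 223312187)⟩], [], [],
 ⟨⟨[(nat_lit 40), (nat_lit 80), (nat_lit 120)], [(nat_lit 0), (nat_lit 1598), (nat_lit 3468)], [((nat_lit 0), (nat_lit 0), (nat_lit 0)), ((nat_lit 1000), (nat_lit 625), (nat_lit 623)), ((nat_lit 1000), (nat_lit 604), (nat_lit 730))], ((nat_lit 61), (nat_lit 100), (nat_lit 89))⟩, (nat_lit 1836532), (nat_lit 102), (nat_lit 102), (nat_lit 0), (nat_lit 0), [(nat_lit 2032000206), (nat_lit 5275581363), (nat_lit 7968000000)], [], [(nat_lit 27657079572), (nat_lit 28545046560), (nat_lit 31583077434), (nat_lit 32564973111), (nat_lit 32800164379), (nat_lit 33648390946), (nat_lit 35865003497), (nat_lit 36549196489)], (nat_lit 0), (nat_lit 0), (nat_lit 0), (nat_lit 0), (nat_lit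 0), (nat_lit 0), [], [(nat_lit 4), (nat_lit 51), (nat_lit 317), (nat_lit 100), (nat_lit 8)]⟩,
 ⟨⟨[(nat_lit 40), (nat_lit 100), (nat_lit 160)], [(nat_lit 0), (nat_lit 0), (nat_lit 4607)], [((nat_lit 0), (nat_lit 0), (nat_lit 0)), ((nat_lit 0), (nat_lit 0), (nat_lit 0)), ((nat_lit 846), (nat_lit 837), (nat_lit 1000))], ((nat_lit 88), (nat_lit 100), (nat_lit 96))⟩, (nat_lit 1281240), (nat_lit 728), (nat_lit 728), (nat_lit 0), (nat_lit 1335045), [(nat_lit 2032000000), (nat_lit 6250000000), (nat_lit 11872000000)], [], [(nat_lit 35671439492), (nat_lit 36613099985), (nat_lit 37044411488), (nat_lit 38911796380), (nat_lit 36050079220), (nat_lit 39135925032), (nat_lit 40164540303), (nat_lit 42495853377)], (nat_lit 1271251), (nat_lit 1271251), (nat_lit 1271251), (nat_lit 1271251), (nat_lit 780000), (nat_lit 2990626), [(nat_lit 490000), (nat_lit 1427501), (nat_lit 1271251)], [(nat_lit 6), (nat_lit 56), (nat_lit 329), (nat_lit 100), (nat_lit 7)]⟩,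
 ⟨⟨[(nat_lit 140), (nat_lit 180), (nat_lit 200)], [(nat_lit 0), (nat_lit 0), (nat_lit 2835)], [((nat_lit 0), (nat_lit 0), (nat_lit 0)), ((nat_lit 0), (nat_lit 0), (nat_lit 0)), ((nat_lit 363), (nat_lit 1000), (nat_lit 798))], ((nat_lit 0), (nat_lit 0), (nat_lit 0))⟩, (nat_lit 3586541), (nat_lit 277), (nat_lit 277), (nat_lit 0), (nat_lit 0), [(nat_lit 9842000000), (nat_lit 14058000000), (nat_lit 16400000000)], [], [(nat_lit 29362921955), (nat_lit 31789166472), (nat_lit 44446541954), (nat_lit 42686042842), (nat_lit 43892560510), (nat_lit 40867872611), (nat_lit 51139942135), (nat_lit 47910305761)], (nat_lit 0), (nat_lit 0), (nat_lit 0), (nat_lit 0), (nat_lit 0), (nat_lit 0), [], [(nat_lit 32), (nat_lit 67), (nat_lit 538), (nat_lit 300), (nat_lit 11)]⟩⟩))))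
noncomputable def c18_2 : Tr Lf :=
 (.spl (nat_lit 5) (nat_lit 200) (.spl (nat_lit 0) (nat_lit 370) (.ord (.leaf ⟨(nat_lit 35), (nat_lit 901), (nat_lit 0), (nat_lit 64), (nat_lit 0), (nat_lit 5795), (nat_lit 6283), (nat_lit 1039), (nat_lit 5383621178728), (nat_lit 0), (nat_lit 140000), [((nat_lit 370), [((nat_lit 41), (nat_lit 5), (nat_lit 35))])], ⟨(nat_lit 8), false, true, false, (nat_lit 325), (nat_lit 2738), (nat_lit 3163), [(nat_lit 1632856), (nat_lit 1634431), (nat_lit 1688213), (nat_lit 1690444), (nat_lit 1937695), (nat_lit 1929809), (nat_lit 1993071), (nat_lit 1985842)]⟩, ⟨(nat_lit 3), true, false, false, (nat_lit 118), (nat_lit 2738), (nat_lit 3163), [(nat_lit 1137055), (nat_lit 1144520), (nat_lit 1292055), (nat_lit 1301357), (nat_lit 1289472), (nat_lit 1292206), (nat_lit 1444485), (nat_lit 1449056)]⟩, (nat_lit 4706515), (nat_lit 37148474), (nat_lit 24925703), (nat_lit 4925823), (nat_lit 3), (nat_lit 0), [], [⟨(nat_lit 0), (nat_lit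 100), (nat_lit 57), (nat_lit 80), (nat_lit 142214974)⟩], [], [],
 ⟨⟨[(nat_lit 40), (nat_lit 80), (nat_lit 100)], [(nat_lit 0), (nat_lit 1598), (nat_lit 2533)], [((nat_lit 0), (nat_lit 0), (nat_lit 0)), ((nat_lit 1000), (nat_lit 625), (nat_lit 623)), ((nat_lit 1000), (nat_lit 604), (nat_lit 730))], ((nat_lit 61), (nat_lit 100), (nat_lit 68))⟩, (nat_lit 796155), (nat_lit 300), (nat_lit 498), (nat_lit 47407451), (nat_lit 965501), [(nat_lit 1896298011), (nat_lit 4505669467), (nat_lit 5059300000)], [(nat_lit 0), (nat_lit 0), (nat_lit 0)], [(nat_lit 35363960309), (nat_lit 35740099204), (nat_lit 39344889607), (nat_lit 39685770556), (nat_lit 33462443176), (nat_lit 33802153064), (nat_lit 37019597488), (nat_lit 37234616245)], (nat_lit 1271251), (nat_lit 1271251), (nat_lit 1271251), (nat_lit 1271251), (nat_lit 111251), (nat_lit 780000), [(nat_lit 490000), (nat_lit 1100000), (nat_lit 1442501)], [(nat_lit 3), (nat_lit 50), (nat_lit 238), (nat_lit 30), (nat_lit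 8)]⟩,
 ⟨⟨[(nat_lit 40), (nat_lit 80), (nat_lit 120)], [(nat_lit 0), (nat_lit 0), (nat_lit 2151)], [((nat_lit 0), (nat_lit 0), (nat_lit 0)), ((nat_lit 0), (nat_lit 0), (nat_lit 0)), ((nat_lit 1000), (nat_lit 815), (nat_lit 753))], ((nat_lit 80), (nat_lit 100), (nat_lit 68))⟩, (nat_lit 2485880), (nat_lit 431), (nat_lit 431), (nat_lit 0), (nat_lit 655985), [(nat_lit 1960880000), (nat_lit 4523920000), (nat_lit 7689120000)], [], [(nat_lit 26289769932), (nat_lit 29516762841), (nat_lit 38107469488), (nat_lit 41716907763), (nat_lit 24540601580), (nat_lit 27053149977), (nat_lit 31371408680), (nat_lit 34312611947)], (nat_lit 1271251), (nat_lit 1271251), (nat_lit 1271251), (nat_lit 1271251), (nat_lit 0), (nat_lit 1412501), [(nat_lit 490000), (nat_lit 1100000), (nat_lit 1785001)], [(nat_lit 4), (nat_lit 51), (nat_lit 373), (nat_lit 150), (nat_lit 12)]⟩,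
 ⟨⟨[(nat_lit 140), (nat_lit 180), (nat_lit 200)], [(nat_lit 0), (nat_lit 0), (nat_lit 2835)], [((nat_lit 0), (nat_lit 0), (nat_lit 0)), ((nat_lit 0), (nat_lit 0), (nat_lit 0)), ((nat_lit 363), (nat_lit 1000), (nat_lit 798))], ((nat_lit 0), (nat_lit 0), (nat_lit 0))⟩, (nat_lit 195177), (nat_lit 300), (nat_lit 619), (nat_lit 4998400), (nat_lit 0), [(nat_lit 629888000), (nat_lit 899712000), (nat_lit 1049600000)], [], [(nat_lit 5398740225), (nat_lit 5109296991), (nat_lit 4523849214), (nat_lit 4251309846), (nat_lit 4058015591), (nat_lit 3776559525), (nat_lit 3307735317), (nat_lit 3025237812)], (nat_lit 0), (nat_lit 0), (nat_lit 0), (nat_lit 0), (nat_lit 0), (nat_lit 0), [], [(nat_lit 32), (nat_lit 67), (nat_lit 373), (nat_lit 150), (nat_lit 9)]⟩⟩)) (.trZ (nat_lit 0) (nat_lit 1) (nat_lit 3) (nat_lit 80) (nat_lit 53) (nat_lit 100) (nat_lit 210) (.trZ (nat_lit 0) (nat_lit 2) (nat_lit 4) (nat_lit 100) (nat_lit 57) (nat_lit 62) (nat_lit 30) (.leaf ⟨(nat_lit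 35), (nat_lit 900), (nat_lit 0), (nat_lit 65), (nat_lit 0), (nat_lit 5286), (nat_lit 6210), (nat_lit 1062), (nat_lit 41010), (nat_lit 0), (nat_lit 140000), [((nat_lit 380), [((nat_lit 41), (nat_lit 5), (nat_lit 35))])], ⟨(nat_lit 8), false, true, false, (nat_lit 329), (nat_lit 2236), (nat_lit 2739), [(nat_lit 1649156), (nat_lit 1650786), (nat_lit 1716348), (nat_lit 1719048), (nat_lit 1929809), (nat_lit 1921722), (nat_lit 1997054), (nat_lit 1990037)]⟩, ⟨(nat_lit 3), true, false, false, (nat_lit 123), (nat_lit 2236), (nat_lit 2739), [(nat_lit 1159252), (nat_lit 1166519), (nat_lit 1316032), (nat_lit 1325797), (nat_lit 1292206), (nat_lit 1294870), (nat_lit 1448998), (nat_lit 1454160)]⟩, (nat_lit 4766959), (nat_lit 36603875), (nat_lit 25175597), (nat_lit 5220528), (nat_lit 3), (nat_lit 0), [], [⟨(nat_lit 0), (nat_lit 100), (nat_lit 48), (nat_lit 85), (nat_lit 184117775)⟩], [], [],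
 ⟨⟨[(nat_lit 40), (nat_lit 60), (nat_lit 80)], [(nat_lit 0), (nat_lit 1134), (nat_lit 1930)], [((nat_lit 0), (nat_lit 0), (nat_lit 0)), ((nat_lit 1000), (nat_lit 575), (nat_lit 619)), ((nat_lit 1000), (nat_lit 574), (nat_lit 622))], ((nat_lit 55), (nat_lit 100), (nat_lit 70))⟩, (nat_lit 400571), (nat_lit 300), (nat_lit 460), (nat_lit 47407451), (nat_lit 1026706), [(nat_lit 1896298001), (nat_lit 3137631237), (nat_lit 3926274000)], [(nat_lit 0), (nat_lit 0), (nat_lit 0)], [(nat_lit 32179500151), (nat_lit 32607984681), (nat_lit 37647270172), (nat_lit 38307545470), (nat_lit 31059817027), (nat_lit 31450127087), (nat_lit 35346579321), (nat_lit 35605788810)], (nat_lit 1271251), (nat_lit 1271251), (nat_lit 1271251), (nat_lit 1271251), (nat_lit 169688), (nat_lit 780000), [(nat_lit 490000), (nat_lit 780000), (nat_lit 1100000)], [(nat_lit 2), (nat_lit 44), (nat_lit 238), (nat_lit 30), (nat_lit 10)]⟩,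
 ⟨⟨[(nat_lit 40), (nat_lit 80), (nat_lit 120)], [(nat_lit 0), (nat_lit 0), (nat_lit 2151)], [((nat_lit 0), (nat_lit 0), (nat_lit 0)), ((nat_lit 0), (nat_lit 0), (nat_lit 0)), ((nat_lit 1000), (nat_lit 815), (nat_lit 753))], ((nat_lit 80), (nat_lit 100), (nat_lit 68))⟩, (nat_lit 2277313), (nat_lit 456), (nat_lit 456), (nat_lit 0), (nat_lit 705636), [(nat_lit 1960880000), (nat_lit 4523920000), (nat_lit 7689120000)], [], [(nat_lit 28837627440), (nat_lit 31990907820), (nat_lit 37903234760), (nat_lit 42206237420), (nat_lit 26992155109), (nat_lit 29451575420), (nat_lit 31911549190), (nat_lit 34792958490)], (nat_lit 1271251), (nat_lit 1271251), (nat_lit 1271251), (nat_lit 1271251), (nat_lit 0), (nat_lit 1412501), [(nat_lit 490000), (nat_lit 1100000), (nat_lit 1785001)], [(nat_lit 4), (nat_lit 51), (nat_lit 373), (nat_lit 150), (nat_lit 12)]⟩,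
 ⟨⟨[(nat_lit 140), (nat_lit 180), (nat_lit 200)], [(nat_lit 0), (nat_lit 0), (nat_lit 2835)], [((nat_lit 0), (nat_lit 0), (nat_lit 0)), ((nat_lit 0), (nat_lit 0), (nat_lit 0)), ((nat_lit 363), (nat_lit 1000), (nat_lit 798))], ((nat_lit 0), (nat_lit 0), (nat_lit 0))⟩, (nat_lit 111457), (nat_lit 300), (nat_lit 608), (nat_lit 5076500), (nat_lit 0), [(nat_lit 639730000), (nat_lit 913770000), (nat_lit 1066000000)], [], [(nat_lit 5378174291), (nat_lit 5086312577), (nat_lit 4589988088), (nat_lit 4319871104), (nat_lit 4023587563), (nat_lit 3737841692), (nat_lit 3345821798), (nat_lit 3065400434)], (nat_lit 0), (nat_lit 0), (nat_lit 0), (nat_lit 0), (nat_lit 0), (nat_lit 0), [], [(nat_lit 32), (nat_lit 67), (nat_lit 373), (nat_lit 150), (nat_lit 9)]⟩⟩)))) (.trX (nat_lit 3) (nat_lit 5) (nat_lit 4) (nat_lit 100) (nat_lit 40) (nat_lit 92) (nat_lit 390) (.leaf ⟨(nat_lit 35), (nat_lit 326), (nat_lit 0), (nat_lit 639), (nat_lit 0), (nat_lit 5959), (nat_lit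 6647), (nat_lit 8806), (nat_lit 21275889552256), (nat_lit 0), (nat_lit 140000), [((nat_lit 380), [((nat_lit 41), (nat_lit 5), (nat_lit 35))])], ⟨(nat_lit 8), false, true, false, (nat_lit 323), (nat_lit 2236), (nat_lit 3163), [(nat_lit 1632548), (nat_lit 1636264), (nat_lit 1698823), (nat_lit 1704397), (nat_lit 1922456), (nat_lit 1907468), (nat_lit 1988844), (nat_lit 1975714)]⟩, ⟨(nat_lit 3), true, false, false, (nat_lit 119), (nat_lit 2236), (nat_lit 3163), [(nat_lit 1136876), (nat_lit 1152119), (nat_lit 1291516), (nat_lit 1311094), (nat_lit 1289472), (nat_lit 1294870), (nat_lit 1444159), (nat_lit 1453893)]⟩, (nat_lit 4717010), (nat_lit 37208381), (nat_lit 24783597), (nat_lit 5008022), (nat_lit 5), (nat_lit 0), [⟨(nat_lit 0), (nat_lit 69), (nat_lit 55), (nat_lit 100), (nat_lit 293601773)⟩], [⟨(nat_lit 0), (nat_lit 100), (nat_lit 65), (nat_lit 54), (nat_lit 1101596206)⟩], [], [],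
 ⟨⟨[(nat_lit 40), (nat_lit 80), (nat_lit 100)], [(nat_lit 0), (nat_lit 1598), (nat_lit 2533)], [((nat_lit 0), (nat_lit 0), (nat_lit 0)), ((nat_lit 1000), (nat_lit 625), (nat_lit 623)), ((nat_lit 1000), (nat_lit 604), (nat_lit 730))], ((nat_lit 61), (nat_lit 100), (nat_lit 68))⟩, (nat_lit 971921), (nat_lit 300), (nat_lit 527), (nat_lit 47407451), (nat_lit 1032459), [(nat_lit 1896298001), (nat_lit 4944622388), (nat_lit 5059300000)], [(nat_lit 0), (nat_lit 0), (nat_lit 0)], [(nat_lit 35171016528), (nat_lit 35885862295), (nat_lit 38628472859), (nat_lit 40097276619), (nat_lit 33201416035), (nat_lit 33846073750), (nat_lit 36270863965), (nat_lit 36688028041)], (nat_lit 1271251), (nat_lit 1271251), (nat_lit 1271251), (nat_lit 1271251), (nat_lit 111251), (nat_lit 780000), [(nat_lit 490000), (nat_lit 1100000), (nat_lit 1442501)], [(nat_lit 3), (nat_lit 50), (nat_lit 243), (nat_lit 30), (nat_lit 8)]⟩,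
 ⟨⟨[(nat_lit 40), (nat_lit 80), (nat_lit 120)], [(nat_lit 0), (nat_lit 0), (nat_lit 2151)], [((nat_lit 0), (nat_lit 0), (nat_lit 0)), ((nat_lit 0), (nat_lit 0), (nat_lit 0)), ((nat_lit 1000), (nat_lit 815), (nat_lit 753))], ((nat_lit 80), (nat_lit 100), (nat_lit 68))⟩, (nat_lit 2281385), (nat_lit 361), (nat_lit 361), (nat_lit 0), (nat_lit 706592), [(nat_lit 1960880000), (nat_lit 4523920000), (nat_lit 7689120000)], [], [(nat_lit 21617550971), (nat_lit 25343226875), (nat_lit 31011511966), (nat_lit 34786482049), (nat_lit 31011511966), (nat_lit 34786482049), (nat_lit 37375070776), (nat_lit 39636450928)], (nat_lit 1271251), (nat_lit 1271251), (nat_lit 1271251), (nat_lit 1271251), (nat_lit 1271251), (nat_lit 1271251), [(nat_lit 490000), (nat_lit 1100000), (nat_lit 1785001)], [(nat_lit 4), (nat_lit 51), (nat_lit 428), (nat_lit 200), (nat_lit 13)]⟩,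
 ⟨⟨[(nat_lit 140), (nat_lit 180), (nat_lit 200)], [(nat_lit 0), (nat_lit 0), (nat_lit 2835)], [((nat_lit 0), (nat_lit 0), (nat_lit 0)), ((nat_lit 0), (nat_lit 0), (nat_lit 0)), ((nat_lit 363), (nat_lit 1000), (nat_lit 798))], ((nat_lit 0), (nat_lit 0), (nat_lit 0))⟩, (nat_lit 363989), (nat_lit 300), (nat_lit 424), (nat_lit 49905900), (nat_lit 0), [(nat_lit 6289038000), (nat_lit 8983062000), (nat_lit 10479600000)], [], [(nat_lit 40213974278), (nat_lit 38089118372), (nat_lit 33949364391), (nat_lit 31851914482), (nat_lit 42625798286), (nat_lit 39128596627), (nat_lit 35993064057), (nat_lit 32665427241)], (nat_lit 0), (nat_lit 0), (nat_lit 0), (nat_lit 0), (nat_lit 0), (nat_lit 0), [], [(nat_lit 32), (nat_lit 67), (nat_lit 428), (nat_lit 200), (nat_lit 9)]⟩⟩)))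
noncomputable def c18_3 : Tr Lf :=
 (.spl (nat_lit 1) (nat_lit 360) (.spl (nat_lit 6) (nat_lit 28) (.spl (nat_lit 1) (nat_lit 340) (.leaf ⟨(nat_lit 35), (nat_lit 661), (nat_lit 0), (nat_lit 304), (nat_lit 0), (nat_lit 5028), (nat_lit 6437), (nat_lit 4137), (nat_lit 0), (nat_lit 0), (nat_lit 140000), [((nat_lit 380), [((nat_lit 41), (nat_lit 5), (nat_lit 35))])], ⟨(nat_lit 8), false, true, false, (nat_lit 317), (nat_lit 2236), (nat_lit 3163), [(nat_lit 1632548), (nat_lit 1636264), (nat_lit 1654639), (nat_lit 1658975), (nat_lit 1937695), (nat_lit 1921722), (nat_lit 1959850), (nat_lit 1944496)]⟩, ⟨(nat_lit 3), true, false, true, (nat_lit 222), (nat_lit 2236), (nat_lit 3163), [(nat_lit 1289472), (nat_lit 1294870), (nat_lit 1444159), (nat_lit 1453893), (nat_lit 1670430), (nat_lit 1651217), (nat_lit 1825515), (nat_lit 1810637)]⟩, (nat_lit 5531248), (nat_lit 33103806), (nat_lit 21760607), (nat_lit 12135587), (nat_lit 3), (nat_lit 0), [], [⟨(nat_lit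 1), (nat_lit 88), (nat_lit 53), (nat_lit 100), (nat_lit 13821237)⟩], [], [⟨(nat_lit 0), (nat_lit 100), (nat_lit 89), (nat_lit 70), (nat_lit 305780)⟩],
 ⟨⟨[(nat_lit 40), (nat_lit 60), (nat_lit 80)], [(nat_lit 0), (nat_lit 832), (nat_lit 1534)], [((nat_lit 0), (nat_lit 0), (nat_lit 0)), ((nat_lit 1000), (nat_lit 659), (nat_lit 528)), ((nat_lit 1000), (nat_lit 650), (nat_lit 549))], ((nat_lit 65), (nat_lit 100), (nat_lit 55))⟩, (nat_lit 1165354), (nat_lit 300), (nat_lit 402), (nat_lit 47407451), (nat_lit 972786), [(nat_lit 1896298004), (nat_lit 3319442847), (nat_lit 3926274000)], [(nat_lit 0), (nat_lit 0), (nat_lit 0)], [(nat_lit 30619188590), (nat_lit 31488044457), (nat_lit 35672968888), (nat_lit 36241409514), (nat_lit 34729180542), (nat_lit 35278339621), (nat_lit 37599817967), (nat_lit 37956011158)], (nat_lit 1271251), (nat_lit 1271251), (nat_lit 1271251), (nat_lit 1271251), (nat_lit 780000), (nat_lit 2826876), [(nat_lit 490000), (nat_lit 780000),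 (nat_lit 1100000)], [(nat_lit 2), (nat_lit 44), (nat_lit 317), (nat_lit 100), (nat_lit 13)]⟩,
 ⟨⟨[(nat_lit 40), (nat_lit 80), (nat_lit 100)], [(nat_lit 0), (nat_lit 0), (nat_lit 1280)], [((nat_lit 0), (nat_lit 0), (nat_lit 0)), ((nat_lit 0), (nat_lit 0), (nat_lit 0)), ((nat_lit 1000), (nat_lit 800), (nat_lit 600))], ((nat_lit 80), (nat_lit 100), (nat_lit 51))⟩, (nat_lit 2136329), (nat_lit 406), (nat_lit 406), (nat_lit 0), (nat_lit 678047), [(nat_lit 1960880000), (nat_lit 4523920000), (nat_lit 6031250000)], [], [(nat_lit 25863130488), (nat_lit 27172127295), (nat_lit 38538320832), (nat_lit 40002012962), (nat_lit 30777623994), (nat_lit 32014268556), (nat_lit 37555545000), (nat_lit 38273415219)], (nat_lit 1271251), (nat_lit 1271251), (nat_lit 1271251), (nat_lit 1271251), (nat_lit 0), (nat_lit 2754376), [(nat_lit 490000), (nat_lit 1100000), (nat_lit 1442501)], [(nat_lit 3), (nat_lit 50), (nat_lit 317), (nat_lit 100), (nat_lit 12)]⟩,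
 ⟨⟨[(nat_lit 140), (nat_lit 180), (nat_lit 200)], [(nat_lit 0), (nat_lit 0), (nat_lit 2835)], [((nat_lit 0), (nat_lit 0), (nat_lit 0)), ((nat_lit 0), (nat_lit 0), (nat_lit 0)), ((nat_lit 363), (nat_lit 1000), (nat_lit 798))], ((nat_lit 0), (nat_lit 0), (nat_lit 0))⟩, (nat_lit 897712), (nat_lit 300), (nat_lit 491), (nat_lit 23742400), (nat_lit 0), [(nat_lit 2991968000), (nat_lit 4273632000), (nat_lit 4985600000)], [], [(nat_lit 20936131389), (nat_lit 19941875490), (nat_lit 20774656683), (nat_lit 19196920758), (nat_lit 17159290299), (nat_lit 15604822397), (nat_lit 15515013420), (nat_lit 13610398071)], (nat_lit 0), (nat_lit 0), (nat_lit 0), (nat_lit 0), (nat_lit 0), (nat_lit 0), [], [(nat_lit 32), (nat_lit 67), (nat_lit 538), (nat_lit 300), (nat_lit 12)]⟩⟩) (.trZ (nat_lit 0) (nat_lit 1) (nat_lit 3) (nat_lit 72) (nat_lit 61) (nat_lit 100) (nat_lit 220) (.trZ (nat_lit 1) (nat_lit 2) (nat_lit 5) (nat_lit 100) (nat_lit 78) (nat_lit 39) (nat_lit 10)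 (.trX (nat_lit 5) (nat_lit 1) (nat_lit 2) (nat_lit 75) (nat_lit 48) (nat_lit 100) (nat_lit 380) (.leaf ⟨(nat_lit 35), (nat_lit 648), (nat_lit 0), (nat_lit 317), (nat_lit 0), (nat_lit 5110), (nat_lit 4279), (nat_lit 4404), (nat_lit 0), (nat_lit 0), (nat_lit 140000), [((nat_lit 380), [((nat_lit 41), (nat_lit 5), (nat_lit 35))])], ⟨(nat_lit 8), false, true, false, (nat_lit 332), (nat_lit 2236), (nat_lit 3163), [(nat_lit 1685169), (nat_lit 1687535), (nat_lit 1707260), (nat_lit 1710246), (nat_lit 1959850), (nat_lit 1944496), (nat_lit 1981997), (nat_lit 1967262)]⟩, ⟨(nat_lit 3), true, false, true, (nat_lit 222), (nat_lit 2236), (nat_lit 3163), [(nat_lit 1289472), (nat_lit 1294870), (nat_lit 1444159), (nat_lit 1453893), (nat_lit 1670430), (nat_lit 1651217), (nat_lit 1825515), (nat_lit 1810637)]⟩, (nat_lit 5544520), (nat_lit 32175933), (nat_lit 22963564), (nat_lit 11860503), (nat_lit 3), (nat_lit 0), [⟨(nat_lit 0), (nat_lit 69), (nat_lit 55), (nat_lit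 100), (nat_lit 61526119)⟩], [], [], [],
 ⟨⟨[(nat_lit 40), (nat_lit 60), (nat_lit 80)], [(nat_lit 0), (nat_lit 832), (nat_lit 1534)], [((nat_lit 0), (nat_lit 0), (nat_lit 0)), ((nat_lit 1000), (nat_lit 659), (nat_lit 528)), ((nat_lit 1000), (nat_lit 650), (nat_lit 549))], ((nat_lit 65), (nat_lit 100), (nat_lit 55))⟩, (nat_lit 343117), (nat_lit 300), (nat_lit 439), (nat_lit 47407451), (nat_lit 1089511), [(nat_lit 1896298001), (nat_lit 3039295332), (nat_lit 3926274000)], [(nat_lit 0), (nat_lit 0), (nat_lit 0)], [(nat_lit 31254292090), (nat_lit 32043842167), (nat_lit 35705364645), (nat_lit 36240258487), (nat_lit 34866063631), (nat_lit 35365542968), (nat_lit 37432451779), (nat_lit 38076932335)], (nat_lit 1271251), (nat_lit 1271251), (nat_lit 1271251), (nat_lit 1271251), (nat_lit 780000), (nat_lit 2826876), [(nat_lit 490000), (nat_lit 780000), (nat_lit 1100000)], [(nat_lit 2), (nat_lit 44), (nat_lit 317), (nat_lit 100), (nat_lit 13)]⟩,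
 ⟨⟨[(nat_lit 40), (nat_lit 60), (nat_lit 80)], [(nat_lit 0), (nat_lit 398), (nat_lit 992)], [((nat_lit 0), (nat_lit 0), (nat_lit 0)), ((nat_lit 1000), (nat_lit 814), (nat_lit 310)), ((nat_lit 1000), (nat_lit 752), (nat_lit 464))], ((nat_lit 74), (nat_lit 100), (nat_lit 53))⟩, (nat_lit 3763330), (nat_lit 351), (nat_lit 351), (nat_lit 0), (nat_lit 662288), [(nat_lit 1960880000), (nat_lit 3167130000), (nat_lit 4523920000)], [], [(nat_lit 22815333865), (nat_lit 24061030208), (nat_lit 33237275868), (nat_lit 34416845154), (nat_lit 29243306176), (nat_lit 30100865230), (nat_lit 34797932114), (nat_lit 35454342494)], (nat_lit 1271251), (nat_lit 1271251), (nat_lit 1271251), (nat_lit 1271251), (nat_lit 54688), (nat_lit 2702501), [(nat_lit 490000), (nat_lit 780000), (nat_lit 1100000)], [(nat_lit 2), (nat_lit 44), (nat_lit 317), (nat_lit 100), (nat_lit 14)]⟩,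
 ⟨⟨[(nat_lit 140), (nat_lit 180), (nat_lit 200)], [(nat_lit 0), (nat_lit 0), (nat_lit 2835)], [((nat_lit 0), (nat_lit 0), (nat_lit 0)), ((nat_lit 0), (nat_lit 0), (nat_lit 0)), ((nat_lit 363), (nat_lit 1000), (nat_lit 798))], ((nat_lit 0), (nat_lit 0), (nat_lit 0))⟩, (nat_lit 435319), (nat_lit 300), (nat_lit 479), (nat_lit 24757700), (nat_lit 0), [(nat_lit 3119914000), (nat_lit 4456386000), (nat_lit 5198800000)], [], [(nat_lit 21431640529), (nat_lit 20419010502), (nat_lit 21285494297), (nat_lit 19604076618), (nat_lit 17708493240), (nat_lit 16079165551), (nat_lit 16009737383), (nat_lit 14006497982)], (nat_lit 0), (nat_lit 0), (nat_lit 0), (nat_lit 0), (nat_lit 0), (nat_lit 0), [], [(nat_lit 32), (nat_lit 67), (nat_lit 538), (nat_lit 300), (nat_lit 12)]⟩⟩))))) (.spl (nat_lit 1) (nat_lit 340) (.leaf ⟨(nat_lit 36), (nat_lit 664), (nat_lit 0), (nat_lit 300), (nat_lit 0), (nat_lit 5314), (nat_lit 6435), (nat_lit 3676), (nat_lit 0), (nat_lit 0), (nat_lit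 144000), [((nat_lit 380), [((nat_lit 41), (nat_lit 5), (nat_lit 36))])], ⟨(nat_lit 8), false, true, false, (nat_lit 317), (nat_lit 2236), (nat_lit 3163), [(nat_lit 1632548), (nat_lit 1636264), (nat_lit 1654639), (nat_lit 1658975), (nat_lit 1937695), (nat_lit 1921722), (nat_lit 1959850), (nat_lit 1944496)]⟩, ⟨(nat_lit 3), true, false, true, (nat_lit 222), (nat_lit 2236), (nat_lit 3163), [(nat_lit 1289472), (nat_lit 1294870), (nat_lit 1444159), (nat_lit 1453893), (nat_lit 1670430), (nat_lit 1651217), (nat_lit 1825515), (nat_lit 1810637)]⟩, (nat_lit 5531248), (nat_lit 33103806), (nat_lit 21760607), (nat_lit 12135587), (nat_lit 3), (nat_lit 0), [⟨(nat_lit 0), (nat_lit 75), (nat_lit 46), (nat_lit 100), (nat_lit 1169450)⟩], [⟨(nat_lit 1), (nat_lit 88), (nat_lit 53), (nat_lit 100), (nat_lit 18271053)⟩], [], [],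
 ⟨⟨[(nat_lit 40), (nat_lit 80), (nat_lit 100)], [(nat_lit 0), (nat_lit 1598), (nat_lit 2533)], [((nat_lit 0), (nat_lit 0), (nat_lit 0)), ((nat_lit 1000), (nat_lit 625), (nat_lit 623)), ((nat_lit 1000), (nat_lit 604), (nat_lit 730))], ((nat_lit 61), (nat_lit 100), (nat_lit 68))⟩, (nat_lit 114462), (nat_lit 300), (nat_lit 345), (nat_lit 47353481), (nat_lit 707983), [(nat_lit 1894139202), (nat_lit 3949547327), (nat_lit 5025280000)], [(nat_lit 0), (nat_lit 0), (nat_lit 0)], [(nat_lit 30948159589), (nat_lit 31896380980), (nat_lit 36276133603), (nat_lit 36882023117), (nat_lit 35101589445), (nat_lit 35688045558), (nat_lit 38008602191), (nat_lit 38378210322)], (nat_lit 1271251), (nat_lit 1271251), (nat_lit 1271251), (nat_lit 1271251), (nat_lit 780000), (nat_lit 2826876), [(nat_lit 490000), (nat_lit 1100000), (nat_lit 1442501)], [(nat_lit 3), (nat_lit 50), (nat_lit 317), (nat_lit 100), (nat_lit 11)]⟩,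
 ⟨⟨[(nat_lit 40), (nat_lit 80), (nat_lit 120)], [(nat_lit 0), (nat_lit 0), (nat_lit 2151)], [((nat_lit 0), (nat_lit 0), (nat_lit 0)), ((nat_lit 0), (nat_lit 0), (nat_lit 0)), ((nat_lit 1000), (nat_lit 815), (nat_lit 753))], ((nat_lit 80), (nat_lit 100), (nat_lit 68))⟩, (nat_lit 2185886), (nat_lit 377), (nat_lit 377), (nat_lit 0), (nat_lit 479923), [(nat_lit 1958848000), (nat_lit 4519232000), (nat_lit 7681152000)], [], [(nat_lit 26002379592), (nat_lit 27131582609), (nat_lit 38511451480), (nat_lit 39974230862), (nat_lit 30851570566), (nat_lit 31986777034), (nat_lit 37523181391), (nat_lit 38240482201)], (nat_lit 1271251), (nat_lit 1271251), (nat_lit 1271251), (nat_lit 1271251), (nat_lit 0), (nat_lit 2754376), [(nat_lit 490000), (nat_lit 1100000), (nat_lit 1785001)], [(nat_lit 4), (nat_lit 51), (nat_lit 428), (nat_lit 200), (nat_lit 14)]⟩,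
 ⟨⟨[(nat_lit 140), (nat_lit 180), (nat_lit 200)], [(nat_lit 0), (nat_lit 0), (nat_lit 2835)], [((nat_lit 0), (nat_lit 0), (nat_lit 0)), ((nat_lit 0), (nat_lit 0), (nat_lit 0)), ((nat_lit 363), (nat_lit 1000), (nat_lit 798))], ((nat_lit 0), (nat_lit 0), (nat_lit 0))⟩, (nat_lit 82540), (nat_lit 300), (nat_lit 491), (nat_lit 23430000), (nat_lit 0), [(nat_lit 2952600000), (nat_lit 4217400000), (nat_lit 4920000000)], [], [(nat_lit 20662335377), (nat_lit 19696921914), (nat_lit 20365038704), (nat_lit 19035772847), (nat_lit 17211528591), (nat_lit 15899693144), (nat_lit 15880007098), (nat_lit 14248662550)], (nat_lit 0), (nat_lit 0), (nat_lit 0), (nat_lit 0), (nat_lit 0), (nat_lit 0), [], [(nat_lit 32), (nat_lit 67), (nat_lit 538), (nat_lit 300), (nat_lit 12)]⟩⟩) (.trZ (nat_lit 0) (nat_lit 1) (nat_lit 3) (nat_lit 72) (nat_lit 61) (nat_lit 100) (nat_lit 220) (.trZ (nat_lit 1) (nat_lit 2) (nat_lit 5) (nat_lit 100) (nat_lit 78) (nat_lit 39) (nat_lit 10)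 (.trX (nat_lit 5) (nat_lit 1) (nat_lit 2) (nat_lit 75) (nat_lit 48) (nat_lit 100) (nat_lit 380) (.leaf ⟨(nat_lit 0), (nat_lit 683), (nat_lit 0), (nat_lit 317), (nat_lit 0), (nat_lit 5576), (nat_lit 4396), (nat_lit 4161), (nat_lit 0), (nat_lit 0), (nat_lit 0), [], Pd.none, Pd.none, (nat_lit 0), (nat_lit 1), (nat_lit 0), (nat_lit 0), (nat_lit 3), (nat_lit 0), [⟨(nat_lit 0), (nat_lit 68), (nat_lit 49), (nat_lit 100), (nat_lit 163926791)⟩], [⟨(nat_lit 1), (nat_lit 88), (nat_lit 53), (nat_lit 100), (nat_lit 8473910)⟩], [], [],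
 ⟨⟨[(nat_lit 40), (nat_lit 80), (nat_lit 100)], [(nat_lit 0), (nat_lit 1598), (nat_lit 2533)], [((nat_lit 0), (nat_lit 0), (nat_lit 0)), ((nat_lit 1000), (nat_lit 625), (nat_lit 623)), ((nat_lit 1000), (nat_lit 604), (nat_lit 730))], ((nat_lit 61), (nat_lit 100), (nat_lit 68))⟩, (nat_lit 461903), (nat_lit 300), (nat_lit 380), (nat_lit 50800001), (nat_lit 819872), [(nat_lit 2032000001), (nat_lit 4768074160), (nat_lit 6250000000)], [], [(nat_lit 32295951352), (nat_lit 33162127572), (nat_lit 36999014100), (nat_lit 37570080616), (nat_lit 35846237011), (nat_lit 36379075117), (nat_lit 38418725970), (nat_lit 38764118536)], (nat_lit 1271251), (nat_lit 1271251), (nat_lit 1271251), (nat_lit 1271251), (nat_lit 780000), (nat_lit 2826876), [(nat_lit 490000), (nat_lit 1100000), (nat_lit 1442501)], [(nat_lit 3), (nat_lit 50), (nat_lit 317), (nat_lit 100), (nat_lit 11)]⟩,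
 ⟨⟨[(nat_lit 40), (nat_lit 80), (nat_lit 100)], [(nat_lit 0), (nat_lit 795), (nat_lit 1829)], [((nat_lit 0), (nat_lit 0), (nat_lit 0)), ((nat_lit 1000), (nat_lit 814), (nat_lit 310)), ((nat_lit 1000), (nat_lit 714), (nat_lit 692))], ((nat_lit 71), (nat_lit 100), (nat_lit 67))⟩, (nat_lit 2982758), (nat_lit 337), (nat_lit 337), (nat_lit 0), (nat_lit 496217), [(nat_lit 2032000000), (nat_lit 4688000000), (nat_lit 6250000000)], [], [(nat_lit 24901555982), (nat_lit 25983421845), (nat_lit 34336062919), (nat_lit 35553497563), (nat_lit 30238309767), (nat_lit 31146085555), (nat_lit 36006040216), (nat_lit 36684702276)], (nat_lit 1271251), (nat_lit 1271251), (nat_lit 1271251), (nat_lit 1271251), (nat_lit 54688), (nat_lit 2702501), [(nat_lit 490000), (nat_lit 1100000), (nat_lit 1442501)], [(nat_lit 3), (nat_lit 50), (nat_lit 317), (nat_lit 100), (nat_lit 11)]⟩,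
 ⟨⟨[(nat_lit 140), (nat_lit 180), (nat_lit 200)], [(nat_lit 0), (nat_lit 0), (nat_lit 2835)], [((nat_lit 0), (nat_lit 0), (nat_lit 0)), ((nat_lit 0), (nat_lit 0), (nat_lit 0)), ((nat_lit 363), (nat_lit 1000), (nat_lit 798))], ((nat_lit 0), (nat_lit 0), (nat_lit 0))⟩, (nat_lit 87217), (nat_lit 300), (nat_lit 479), (nat_lit 24757700), (nat_lit 0), [(nat_lit 3119914000), (nat_lit 4456386000), (nat_lit 5198800000)], [], [(nat_lit 21432785959), (nat_lit 20366790622), (nat_lit 21228559928), (nat_lit 19682363768), (nat_lit 17877542751), (nat_lit 16379045746), (nat_lit 16348891936), (nat_lit 14881797022)], (nat_lit 0), (nat_lit 0), (nat_lit 0), (nat_lit 0), (nat_lit 0), (nat_lit 0), [], [(nat_lit 32), (nat_lit 67), (nat_lit 538), (nat_lit 300), (nat_lit 12)]⟩⟩)))))) (.trZ (nat_lit 0) (nat_lit 1) (nat_lit 3) (nat_lit 63) (nat_lit 63) (nat_lit 100) (nat_lit 250) (.trZ (nat_lit 1) (nat_lit 2) (nat_lit 5) (nat_lit 100) (nat_lit 65) (nat_lit 54) (nat_lit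 20) (.trX (nat_lit 5) (nat_lit 1) (nat_lit 2) (nat_lit 63) (nat_lit 61) (nat_lit 100) (nat_lit 370) (.spl (nat_lit 0) (nat_lit 370) (.ord (.leaf ⟨(nat_lit 35), (nat_lit 663), (nat_lit 0), (nat_lit 302), (nat_lit 0), (nat_lit 5688), (nat_lit 4224), (nat_lit 4295), (nat_lit 19355341415400), (nat_lit 0), (nat_lit 140000), [((nat_lit 370), [((nat_lit 41), (nat_lit 5), (nat_lit 35))])], ⟨(nat_lit 9), false, true, false, (nat_lit 349), (nat_lit 2738), (nat_lit 3163), [(nat_lit 1753356), (nat_lit 1753091), (nat_lit 1764428), (nat_lit 1764294), (nat_lit 1982000), (nat_lit 1974640), (nat_lit 1993071), (nat_lit 1985842)]⟩, ⟨(nat_lit 3), true, false, true, (nat_lit 223), (nat_lit 2738), (nat_lit 3163), [(nat_lit 1289472), (nat_lit 1292206), (nat_lit 1444485), (nat_lit 1449056), (nat_lit 1670431), (nat_lit 1661340), (nat_lit 1825515), (nat_lit 1818261)]⟩, (nat_lit 5552254), (nat_lit 31156025), (nat_lit 24248827), (nat_lit 11595148), (nat_lit 3), (nat_lit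 0), [⟨(nat_lit 0), (nat_lit 59), (nat_lit 59), (nat_lit 100), (nat_lit 80324825)⟩], [], [], [],
 ⟨⟨[(nat_lit 40), (nat_lit 80), (nat_lit 100)], [(nat_lit 0), (nat_lit 1598), (nat_lit 2533)], [((nat_lit 0), (nat_lit 0), (nat_lit 0)), ((nat_lit 1000), (nat_lit 625), (nat_lit 623)), ((nat_lit 1000), (nat_lit 604), (nat_lit 730))], ((nat_lit 61), (nat_lit 100), (nat_lit 68))⟩, (nat_lit 1294657), (nat_lit 300), (nat_lit 510), (nat_lit 47407451), (nat_lit 1153963), [(nat_lit 1896298002), (nat_lit 5191157577), (nat_lit 5059300000)], [(nat_lit 0), (nat_lit 0), (nat_lit 0)], [(nat_lit 34661789058), (nat_lit 34962204351), (nat_lit 37665828566), (nat_lit 37874646771), (nat_lit 36576537142), (nat_lit 36759061250), (nat_lit 38198627139), (nat_lit 38551587516)], (nat_lit 1271251), (nat_lit 1271251), (nat_lit 1271251), (nat_lit 1271251), (nat_lit 780000), (nat_lit 2826876), [(nat_lit 490000), (nat_lit 1100000), (nat_lit 1442501)], [(nat_lit 3), (nat_lit 50),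 (nat_lit 317), (nat_lit 100), (nat_lit 11)]⟩,
 ⟨⟨[(nat_lit 40), (nat_lit 80), (nat_lit 100)], [(nat_lit 0), (nat_lit 1598), (nat_lit 2533)], [((nat_lit 0), (nat_lit 0), (nat_lit 0)), ((nat_lit 1000), (nat_lit 625), (nat_lit 623)), ((nat_lit 1000), (nat_lit 604), (nat_lit 730))], ((nat_lit 61), (nat_lit 100), (nat_lit 68))⟩, (nat_lit 2679042), (nat_lit 371), (nat_lit 371), (nat_lit 0), (nat_lit 625714), [(nat_lit 1960880000), (nat_lit 4523920000), (nat_lit 6031250000)], [], [(nat_lit 25039708690), (nat_lit 25620072423), (nat_lit 33810324545), (nat_lit 34394071461), (nat_lit 30225811921), (nat_lit 30561053617), (nat_lit 35028290220), (nat_lit 35364866118)], (nat_lit 1271251), (nat_lit 1271251), (nat_lit 1271251), (nat_lit 1271251), (nat_lit 111251), (nat_lit 2648751), [(nat_lit 490000), (nat_lit 1100000), (nat_lit 1442501)], [(nat_lit 3), (nat_lit 50), (nat_lit 317), (nat_lit 100), (nat_lit 11)]⟩,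
 ⟨⟨[(nat_lit 140), (nat_lit 180), (nat_lit 200)], [(nat_lit 0), (nat_lit 0), (nat_lit 2835)], [((nat_lit 0), (nat_lit 0), (nat_lit 0)), ((nat_lit 0), (nat_lit 0), (nat_lit 0)), ((nat_lit 363), (nat_lit 1000), (nat_lit 798))], ((nat_lit 0), (nat_lit 0), (nat_lit 0))⟩, (nat_lit 601920), (nat_lit 300), (nat_lit 467), (nat_lit 23586200), (nat_lit 0), [(nat_lit 2972284000), (nat_lit 4245516000), (nat_lit 4952800000)], [], [(nat_lit 20032290551), (nat_lit 19079225618), (nat_lit 19903102889), (nat_lit 18259869334), (nat_lit 16683070748), (nat_lit 15117044496), (nat_lit 15073256211), (nat_lit 13174537179)], (nat_lit 0), (nat_lit 0), (nat_lit 0), (nat_lit 0), (nat_lit 0), (nat_lit 0), [], [(nat_lit 32), (nat_lit 67), (nat_lit 483), (nat_lit 250), (nat_lit 11)]⟩⟩)) (.trZ (nat_lit 0) (nat_lit 1) (nat_lit 3) (nat_lit 64) (nat_lit 57) (nat_lit 100) (nat_lit 270) (.trX (nat_lit 4) (nat_lit 0) (nat_lit 2) (nat_lit 55) (nat_lit 68) (nat_lit 100) (nat_lit 360)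 (.leaf ⟨(nat_lit 35), (nat_lit 661), (nat_lit 0), (nat_lit 304), (nat_lit 0), (nat_lit 5208), (nat_lit 4112), (nat_lit 4319), (nat_lit 18504525743852), (nat_lit 0), (nat_lit 140000), [((nat_lit 380), [((nat_lit 41), (nat_lit 5), (nat_lit 35))])], ⟨(nat_lit 9), false, true, false, (nat_lit 355), (nat_lit 2236), (nat_lit 2739), [(nat_lit 1782595), (nat_lit 1781870), (nat_lit 1804992), (nat_lit 1804624), (nat_lit 1974644), (nat_lit 1967270), (nat_lit 1997054), (nat_lit 1990037)]⟩, ⟨(nat_lit 3), true, false, true, (nat_lit 219), (nat_lit 2236), (nat_lit 2739), [(nat_lit 1292206), (nat_lit 1294870), (nat_lit 1448998), (nat_lit 1454160), (nat_lit 1646574), (nat_lit 1636964), (nat_lit 1803496), (nat_lit 1796384)]⟩, (nat_lit 5529819), (nat_lit 30911937), (nat_lit 24882036), (nat_lit 11206027), (nat_lit 3), (nat_lit 0), [⟨(nat_lit 0), (nat_lit 56), (nat_lit 56), (nat_lit 100), (nat_lit 21929063)⟩], [⟨(nat_lit 1), (nat_lit 90), (nat_lit 48), (nat_lit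 100), (nat_lit 7151551)⟩], [], [⟨(nat_lit 0), (nat_lit 100), (nat_lit 75), (nat_lit 83), (nat_lit 399178)⟩],
 ⟨⟨[(nat_lit 40), (nat_lit 60), (nat_lit 80)], [(nat_lit 0), (nat_lit 1134), (nat_lit 1930)], [((nat_lit 0), (nat_lit 0), (nat_lit 0)), ((nat_lit 1000), (nat_lit 575), (nat_lit 619)), ((nat_lit 1000), (nat_lit 574), (nat_lit 622))], ((nat_lit 55), (nat_lit 100), (nat_lit 70))⟩, (nat_lit 668874), (nat_lit 300), (nat_lit 490), (nat_lit 47407451), (nat_lit 1224397), [(nat_lit 1896298001), (nat_lit 3257263754), (nat_lit 3926274000)], [(nat_lit 0), (nat_lit 0), (nat_lit 0)], [(nat_lit 33528688822), (nat_lit 33852731906), (nat_lit 36574279635), (nat_lit 36814773968), (nat_lit 35855526073), (nat_lit 36064823225), (nat_lit 37712997198), (nat_lit 37865578448)], (nat_lit 1271251), (nat_lit 1271251), (nat_lit 1271251), (nat_lit 1271251), (nat_lit 780000), (nat_lit 2745001), [(nat_lit 490000), (nat_lit 780000), (nat_lit 1100000)], [(nat_lit 2), (nat_lit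 44), (nat_lit 317), (nat_lit 100), (nat_lit 13)]⟩,
 ⟨⟨[(nat_lit 40), (nat_lit 80), (nat_lit 100)], [(nat_lit 0), (nat_lit 1598), (nat_lit 2533)], [((nat_lit 0), (nat_lit 0), (nat_lit 0)), ((nat_lit 1000), (nat_lit 625), (nat_lit 623)), ((nat_lit 1000), (nat_lit 604), (nat_lit 730))], ((nat_lit 61), (nat_lit 100), (nat_lit 68))⟩, (nat_lit 2618741), (nat_lit 383), (nat_lit 383), (nat_lit 0), (nat_lit 658442), [(nat_lit 1960880000), (nat_lit 4523920000), (nat_lit 6031250000)], [], [(nat_lit 26167647332), (nat_lit 27269704214), (nat_lit 33498021225), (nat_lit 34651165308), (nat_lit 31058119179), (nat_lit 31699111978), (nat_lit 34868069684), (nat_lit 35536281385)], (nat_lit 1271251), (nat_lit 1271251), (nat_lit 1271251), (nat_lit 1271251), (nat_lit 111251), (nat_lit 2648751), [(nat_lit 490000), (nat_lit 1100000), (nat_lit 1442501)], [(nat_lit 3), (nat_lit 50), (nat_lit 317), (nat_lit 100), (nat_lit 11)]⟩,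
 ⟨⟨[(nat_lit 140), (nat_lit 180), (nat_lit 200)], [(nat_lit 0), (nat_lit 0), (nat_lit 2835)], [((nat_lit 0), (nat_lit 0), (nat_lit 0)), ((nat_lit 0), (nat_lit 0), (nat_lit 0)), ((nat_lit 363), (nat_lit 1000), (nat_lit 798))], ((nat_lit 0), (nat_lit 0), (nat_lit 0))⟩, (nat_lit 643188), (nat_lit 300), (nat_lit 467), (nat_lit 23742400), (nat_lit 0), [(nat_lit 2991968000), (nat_lit 4273632000), (nat_lit 4985600000)], [], [(nat_lit 20162703188), (nat_lit 19205070211), (nat_lit 19901495282), (nat_lit 18292846049), (nat_lit 16796698729), (nat_lit 15222658023), (nat_lit 15138775273), (nat_lit 13198108069)], (nat_lit 0), (nat_lit 0), (nat_lit 0), (nat_lit 0), (nat_lit 0), (nat_lit 0), [], [(nat_lit 32), (nat_lit 67), (nat_lit 483), (nat_lit 250), (nat_lit 11)]⟩⟩))))))))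
noncomputable def c18_4 : Tr Lf :=
 (.spl (nat_lit 4) (nat_lit 120) (.spl (nat_lit 5) (nat_lit 200) (.spl (nat_lit 0) (nat_lit 370) (.ord (.leaf ⟨(nat_lit 0), (nat_lit 976), (nat_lit 0), (nat_lit 24), (nat_lit 0), (nat_lit 6542), (nat_lit 7312), (nat_lit 406), (nat_lit 536970), (nat_lit 0), (nat_lit 0), [], Pd.none, Pd.none, (nat_lit 0), (nat_lit 1), (nat_lit 0), (nat_lit 0), (nat_lit 3), (nat_lit 0), [⟨(nat_lit 0), (nat_lit 59), (nat_lit 59), (nat_lit 100), (nat_lit 50104349)⟩], [⟨(nat_lit 0), (nat_lit 100), (nat_lit 57), (nat_lit 80), (nat_lit 159668223)⟩], [], [],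
 ⟨⟨[(nat_lit 40), (nat_lit 80), (nat_lit 120)], [(nat_lit 0), (nat_lit 1598), (nat_lit 3468)], [((nat_lit 0), (nat_lit 0), (nat_lit 0)), ((nat_lit 1000), (nat_lit 625), (nat_lit 623)), ((nat_lit 1000), (nat_lit 604), (nat_lit 730))], ((nat_lit 61), (nat_lit 100), (nat_lit 89))⟩, (nat_lit 539792), (nat_lit 300), (nat_lit 395), (nat_lit 50800012), (nat_lit 573224), [(nat_lit 2032000002), (nat_lit 4869874759), (nat_lit 7968000000)], [], [(nat_lit 35909471335), (nat_lit 36388521904), (nat_lit 41072976995), (nat_lit 41816576011), (nat_lit 33161432618), (nat_lit 33587688524), (nat_lit 37641783730), (nat_lit 37920733174)], (nat_lit 1271251), (nat_lit 1271251), (nat_lit 1271251), (nat_lit 1271251), (nat_lit 111251), (nat_lit 780000), [(nat_lit 490000), (nat_lit 1100000), (nat_lit 1785001)], [(nat_lit 4), (nat_lit 51), (nat_lit 373), (nat_lit 150), (nat_lit 12)]⟩,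
 ⟨⟨[(nat_lit 40), (nat_lit 100), (nat_lit 160)], [(nat_lit 0), (nat_lit 0), (nat_lit 4607)], [((nat_lit 0), (nat_lit 0), (nat_lit 0)), ((nat_lit 0), (nat_lit 0), (nat_lit 0)), ((nat_lit 846), (nat_lit 837), (nat_lit 1000))], ((nat_lit 88), (nat_lit 100), (nat_lit 96))⟩, (nat_lit 1765058), (nat_lit 418), (nat_lit 418), (nat_lit 0), (nat_lit 403050), [(nat_lit 2032000000), (nat_lit 6250000000), (nat_lit 11872000000)], [], [(nat_lit 32490871506), (nat_lit 35129059246), (nat_lit 41730925632), (nat_lit 45730298032), (nat_lit 28070532242), (nat_lit 30127647307), (nat_lit 33720715472), (nat_lit 36702167480)], (nat_lit 1271251), (nat_lit 1271251), (nat_lit 1271251), (nat_lit 1271251), (nat_lit 0), (nat_lit 1412501), [(nat_lit 490000), (nat_lit 1427501), (nat_lit 1271251)], [(nat_lit 6), (nat_lit 56), (nat_lit 373), (nat_lit 150), (nat_lit 9)]⟩,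
 ⟨⟨[(nat_lit 140), (nat_lit 180), (nat_lit 200)], [(nat_lit 0), (nat_lit 0), (nat_lit 2835)], [((nat_lit 0), (nat_lit 0), (nat_lit 0)), ((nat_lit 0), (nat_lit 0), (nat_lit 0)), ((nat_lit 363), (nat_lit 1000), (nat_lit 798))], ((nat_lit 0), (nat_lit 0), (nat_lit 0))⟩, (nat_lit 6603), (nat_lit 300), (nat_lit 619), (nat_lit 1874403), (nat_lit 0), [(nat_lit 236208000), (nat_lit 337392000), (nat_lit 393600000)], [], [(nat_lit 2052100338), (nat_lit 1936077433), (nat_lit 1704899844), (nat_lit 1599408672), (nat_lit 1524920058), (nat_lit 1412215553), (nat_lit 1225369756), (nat_lit 1117264822)], (nat_lit 0), (nat_lit 0), (nat_lit 0), (nat_lit 0), (nat_lit 0), (nat_lit 0), [], [(nat_lit 32), (nat_lit 67), (nat_lit 373), (nat_lit 150), (nat_lit 9)]⟩⟩)) (.trZ (nat_lit 0) (nat_lit 1) (nat_lit 3) (nat_lit 80) (nat_lit 53) (nat_lit 100) (nat_lit 210) (.trZ (nat_lit 0) (nat_lit 2) (nat_lit 4) (nat_lit 100) (nat_lit 57) (nat_lit 62) (nat_lit 30) (.leaf ⟨(nat_lit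 0), (nat_lit 968), (nat_lit 0), (nat_lit 32), (nat_lit 0), (nat_lit 6443), (nat_lit 6674), (nat_lit 524), (nat_lit 962734), (nat_lit 0), (nat_lit 0), [], Pd.none, Pd.none, (nat_lit 0), (nat_lit 1), (nat_lit 0), (nat_lit 0), (nat_lit 3), (nat_lit 0), [⟨(nat_lit 0), (nat_lit 56), (nat_lit 56), (nat_lit 100), (nat_lit 253854002)⟩], [⟨(nat_lit 0), (nat_lit 100), (nat_lit 48), (nat_lit 85), (nat_lit 134860838)⟩], [], [],
 ⟨⟨[(nat_lit 40), (nat_lit 80), (nat_lit 120)], [(nat_lit 0), (nat_lit 2008), (nat_lit 3930)], [((nat_lit 0), (nat_lit 0), (nat_lit 0)), ((nat_lit 1000), (nat_lit 540), (nat_lit 733)), ((nat_lit 1000), (nat_lit 536), (nat_lit 751))], ((nat_lit 53), (nat_lit 100), (nat_lit 88))⟩, (nat_lit 476336), (nat_lit 300), (nat_lit 411), (nat_lit 50800001), (nat_lit 647501), [(nat_lit 2032000011), (nat_lit 4898456493), (nat_lit 7968000000)], [], [(nat_lit 36332827025), (nat_lit 36773746304), (nat_lit 41061064130), (nat_lit 41526267260), (nat_lit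 34016146699), (nat_lit 34417623086), (nat_lit 38173188693), (nat_lit 38451093761)], (nat_lit 1271251), (nat_lit 1271251), (nat_lit 1271251), (nat_lit 1271251), (nat_lit 169688), (nat_lit 780000), [(nat_lit 490000), (nat_lit 1100000), (nat_lit 1785001)], [(nat_lit 4), (nat_lit 51), (nat_lit 373), (nat_lit 150), (nat_lit 11)]⟩,
 ⟨⟨[(nat_lit 40), (nat_lit 100), (nat_lit 160)], [(nat_lit 0), (nat_lit 0), (nat_lit 4607)], [((nat_lit 0), (nat_lit 0), (nat_lit 0)), ((nat_lit 0), (nat_lit 0), (nat_lit 0)), ((nat_lit 846), (nat_lit 837), (nat_lit 1000))], ((nat_lit 88), (nat_lit 100), (nat_lit 96))⟩, (nat_lit 1725459), (nat_lit 481), (nat_lit 481), (nat_lit 0), (nat_lit 454228), [(nat_lit 2032000000), (nat_lit 6250000000), (nat_lit 11872000000)], [], [(nat_lit 33936487515), (nat_lit 36904845720), (nat_lit 40007481232), (nat_lit 44497679324), (nat_lit 30139895568), (nat_lit 32470590204), (nat_lit 35416005244), (nat_lit 37298168545)], (nat_lit 1271251),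 (nat_lit 1271251), (nat_lit 1271251), (nat_lit 1271251), (nat_lit 0), (nat_lit 1412501), [(nat_lit 490000), (nat_lit 1427501), (nat_lit 1271251)], [(nat_lit 6), (nat_lit 56), (nat_lit 373), (nat_lit 150), (nat_lit 9)]⟩,
 ⟨⟨[(nat_lit 140), (nat_lit 180), (nat_lit 200)], [(nat_lit 0), (nat_lit 0), (nat_lit 2835)], [((nat_lit 0), (nat_lit 0), (nat_lit 0)), ((nat_lit 0), (nat_lit 0), (nat_lit 0)), ((nat_lit 363), (nat_lit 1000), (nat_lit 798))], ((nat_lit 0), (nat_lit 0), (nat_lit 0))⟩, (nat_lit 8804), (nat_lit 300), (nat_lit 608), (nat_lit 2499204), (nat_lit 0), [(nat_lit 314944000), (nat_lit 449856000), (nat_lit 524800000)], [], [(nat_lit 2649549758), (nat_lit 2505335932), (nat_lit 2260344040), (nat_lit 2127076264), (nat_lit 1980952330), (nat_lit 1839770151), (nat_lit 1644826404), (nat_lit 1507893635)], (nat_lit 0), (nat_lit 0), (nat_lit 0), (nat_lit 0), (nat_lit 0), (nat_lit 0), [], [(nat_lit 32), (nat_lit 67), (nat_lit 373), (nat_lit 150), (nat_lit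 9)]⟩⟩)))) (.trX (nat_lit 3) (nat_lit 5) (nat_lit 4) (nat_lit 100) (nat_lit 40) (nat_lit 92) (nat_lit 390) (.leaf ⟨(nat_lit 36), (nat_lit 546), (nat_lit 0), (nat_lit 418), (nat_lit 0), (nat_lit 6320), (nat_lit 6795), (nat_lit 5761), (nat_lit 6469107902978), (nat_lit 0), (nat_lit 144000), [((nat_lit 380), [((nat_lit 41), (nat_lit 5), (nat_lit 36))])], ⟨(nat_lit 8), false, true, false, (nat_lit 323), (nat_lit 2236), (nat_lit 3163), [(nat_lit 1632548), (nat_lit 1636264), (nat_lit 1698823), (nat_lit 1704397), (nat_lit 1922456), (nat_lit 1907468), (nat_lit 1988844), (nat_lit 1975714)]⟩, ⟨(nat_lit 3), true, false, false, (nat_lit 119), (nat_lit 2236), (nat_lit 3163), [(nat_lit 1136876), (nat_lit 1152119), (nat_lit 1291516), (nat_lit 1311094), (nat_lit 1289472), (nat_lit 1294870), (nat_lit 1444159), (nat_lit 1453893)]⟩, (nat_lit 4717010), (nat_lit 37208381), (nat_lit 24783597), (nat_lit 5008022), (nat_lit 5), (nat_lit 0), [⟨(nat_lit 0), (nat_lit 56),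 (nat_lit 56), (nat_lit 100), (nat_lit 724634124)⟩], [⟨(nat_lit 0), (nat_lit 100), (nat_lit 65), (nat_lit 54), (nat_lit 563635708)⟩], [], [⟨(nat_lit 1), (nat_lit 100), (nat_lit 94), (nat_lit 81), (nat_lit 129343041)⟩],
 ⟨⟨[(nat_lit 40), (nat_lit 80), (nat_lit 120)], [(nat_lit 0), (nat_lit 1598), (nat_lit 3468)], [((nat_lit 0), (nat_lit 0), (nat_lit 0)), ((nat_lit 1000), (nat_lit 625), (nat_lit 623)), ((nat_lit 1000), (nat_lit 604), (nat_lit 730))], ((nat_lit 61), (nat_lit 100), (nat_lit 89))⟩, (nat_lit 158836), (nat_lit 300), (nat_lit 417), (nat_lit 47353481), (nat_lit 650091), [(nat_lit 1894139204), (nat_lit 4012909265), (nat_lit 6233260800)], [(nat_lit 0), (nat_lit 0), (nat_lit 0)], [(nat_lit 35081321692), (nat_lit 36074003915), (nat_lit 39833510293), (nat_lit 41124207487), (nat_lit 32539594351), (nat_lit 33339698010), (nat_lit 36656657700), (nat_lit 37227987995)], (nat_lit 1271251), (nat_lit 1271251), (nat_lit 1271251), (nat_lit 1271251),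 (nat_lit 111251), (nat_lit 780000), [(nat_lit 490000), (nat_lit 1100000), (nat_lit 1785001)], [(nat_lit 4), (nat_lit 51), (nat_lit 373), (nat_lit 150), (nat_lit 12)]⟩,
 ⟨⟨[(nat_lit 40), (nat_lit 100), (nat_lit 160)], [(nat_lit 0), (nat_lit 0), (nat_lit 4607)], [((nat_lit 0), (nat_lit 0), (nat_lit 0)), ((nat_lit 0), (nat_lit 0), (nat_lit 0)), ((nat_lit 846), (nat_lit 837), (nat_lit 1000))], ((nat_lit 88), (nat_lit 100), (nat_lit 96))⟩, (nat_lit 1851044), (nat_lit 339), (nat_lit 339), (nat_lit 0), (nat_lit 455228), [(nat_lit 1958848000), (nat_lit 6025000000), (nat_lit 11444608000)], [], [(nat_lit 25236707620), (nat_lit 28225261580), (nat_lit 31663422908), (nat_lit 34970909226), (nat_lit 31663422908), (nat_lit 34970909226), (nat_lit 37548636758), (nat_lit 39826657274)], (nat_lit 1271251), (nat_lit 1271251), (nat_lit 1271251), (nat_lit 1271251), (nat_lit 1271251), (nat_lit 1271251), [(nat_lit 490000), (nat_lit 1427501), (nat_lit 1271251)], [(nat_lit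 6), (nat_lit 56), (nat_lit 428), (nat_lit 200), (nat_lit 10)]⟩,
 ⟨⟨[(nat_lit 140), (nat_lit 180), (nat_lit 200)], [(nat_lit 0), (nat_lit 0), (nat_lit 2835)], [((nat_lit 0), (nat_lit 0), (nat_lit 0)), ((nat_lit 0), (nat_lit 0), (nat_lit 0)), ((nat_lit 363), (nat_lit 1000), (nat_lit 798))], ((nat_lit 0), (nat_lit 0), (nat_lit 0))⟩, (nat_lit 115005), (nat_lit 300), (nat_lit 424), (nat_lit 32645805), (nat_lit 0), [(nat_lit 4113956000), (nat_lit 5876244000), (nat_lit 6855200000)], [], [(nat_lit 26305932340), (nat_lit 24915746846), (nat_lit 22207405701), (nat_lit 20835229777), (nat_lit 27883638729), (nat_lit 25595623295), (nat_lit 23544363624), (nat_lit 21367282354)], (nat_lit 0), (nat_lit 0), (nat_lit 0), (nat_lit 0), (nat_lit 0), (nat_lit 0), [], [(nat_lit 32), (nat_lit 67), (nat_lit 428), (nat_lit 200), (nat_lit 9)]⟩⟩))) (.spl (nat_lit 5) (nat_lit 120) (.spl (nat_lit 4) (nat_lit 240) (.spl (nat_lit 3) (nat_lit 320) (.leaf ⟨(nat_lit 0), (nat_lit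 848), (nat_lit 0), (nat_lit 152), (nat_lit 0), (nat_lit 7535), (nat_lit 6969), (nat_lit 2113), (nat_lit 4610207953724), (nat_lit 0), (nat_lit 0), [], Pd.none, Pd.none, (nat_lit 0), (nat_lit 1), (nat_lit 0), (nat_lit 0), (nat_lit 3), (nat_lit 0), [⟨(nat_lit 0), (nat_lit 56), (nat_lit 56), (nat_lit 100), (nat_lit 746171745)⟩], [], [⟨(nat_lit 0), (nat_lit 100), (nat_lit 66), (nat_lit 72), (nat_lit 347831259)⟩], [],
 ⟨⟨[(nat_lit 40), (nat_lit 80), (nat_lit 120)], [(nat_lit 0), (nat_lit 1598), (nat_lit 3468)], [((nat_lit 0), (nat_lit 0), (nat_lit 0)), ((nat_lit 1000), (nat_lit 625), (nat_lit 623)), ((nat_lit 1000), (nat_lit 604), (nat_lit 730))], ((nat_lit 61), (nat_lit 100), (nat_lit 89))⟩, (nat_lit 539792), (nat_lit 300), (nat_lit 404), (nat_lit 50800012), (nat_lit 771370), [(nat_lit 2032000001), (nat_lit 4873367805), (nat_lit 7968000000)], [], [(nat_lit 30418871545), (nat_lit 31400955170), (nat_lit 32448780005), (nat_lit 33195071928), (nat_lit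 30176950775), (nat_lit 30971695893), (nat_lit 31559935070), (nat_lit 32477232640)], (nat_lit 1271251), (nat_lit 1271251), (nat_lit 1271251), (nat_lit 1271251), (nat_lit 780000), (nat_lit 1762501), [(nat_lit 490000), (nat_lit 1100000), (nat_lit 1785001)], [(nat_lit 4), (nat_lit 51), (nat_lit 373), (nat_lit 150), (nat_lit 11)]⟩,
 ⟨⟨[(nat_lit 40), (nat_lit 100), (nat_lit 160)], [(nat_lit 0), (nat_lit 0), (nat_lit 4607)], [((nat_lit 0), (nat_lit 0), (nat_lit 0)), ((nat_lit 0), (nat_lit 0), (nat_lit 0)), ((nat_lit 846), (nat_lit 837), (nat_lit 1000))], ((nat_lit 88), (nat_lit 100), (nat_lit 96))⟩, (nat_lit 1872129), (nat_lit 395), (nat_lit 395), (nat_lit 0), (nat_lit 321497), [(nat_lit 2032000000), (nat_lit 6250000000), (nat_lit 11872000000)], [], [(nat_lit 32610338841), (nat_lit 35699829822), (nat_lit 35432862808), (nat_lit 38692279564), (nat_lit 28689189526), (nat_lit 31588339966), (nat_lit 31530265682), (nat_lit 34285822606)], (nat_lit 1271251),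 (nat_lit 1271251), (nat_lit 1271251), (nat_lit 1271251), (nat_lit 0), (nat_lit 780000), [(nat_lit 490000), (nat_lit 1427501), (nat_lit 1271251)], [(nat_lit 6), (nat_lit 56), (nat_lit 345), (nat_lit 125), (nat_lit 8)]⟩,
 ⟨⟨[(nat_lit 140), (nat_lit 180), (nat_lit 200)], [(nat_lit 0), (nat_lit 0), (nat_lit 2835)], [((nat_lit 0), (nat_lit 0), (nat_lit 0)), ((nat_lit 0), (nat_lit 0), (nat_lit 0)), ((nat_lit 363), (nat_lit 1000), (nat_lit 798))], ((nat_lit 0), (nat_lit 0), (nat_lit 0))⟩, (nat_lit 41820), (nat_lit 300), (nat_lit 491), (nat_lit 11871202), (nat_lit 0), [(nat_lit 1495984000), (nat_lit 2136816000), (nat_lit 2492800000)], [], [(nat_lit 10467882861), (nat_lit 9984978206), (nat_lit 9854189856), (nat_lit 9284875950), (nat_lit 8596100166), (nat_lit 8065970538), (nat_lit 7952313324), (nat_lit 7416897588)], (nat_lit 0), (nat_lit 0), (nat_lit 0), (nat_lit 0), (nat_lit 0), (nat_lit 0), [], [(nat_lit 32), (nat_lit 67), (nat_lit 401), (nat_lit 175),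 (nat_lit 9)]⟩⟩) (.leaf ⟨(nat_lit 35), (nat_lit 883), (nat_lit 0), (nat_lit 82), (nat_lit 0), (nat_lit 5951), (nat_lit 6557), (nat_lit 1763), (nat_lit 5246020461425), (nat_lit 0), (nat_lit 140000), [((nat_lit 380), [((nat_lit 41), (nat_lit 5), (nat_lit 35))])], ⟨(nat_lit 8), false, true, true, (nat_lit 362), (nat_lit 2236), (nat_lit 3163), [(nat_lit 1815720), (nat_lit 1807623), (nat_lit 1881994), (nat_lit 1875755), (nat_lit 1937695), (nat_lit 1921722), (nat_lit 2004104), (nat_lit 1989990)]⟩, ⟨(nat_lit 3), true, false, false, (nat_lit 184), (nat_lit 2236), (nat_lit 3163), [(nat_lit 1289472), (nat_lit 1294870), (nat_lit 1444159), (nat_lit 1453893), (nat_lit 1472332), (nat_lit 1465917), (nat_lit 1627331), (nat_lit 1625251)]⟩, (nat_lit 5301095), (nat_lit 31845955), (nat_lit 26421770), (nat_lit 8732275), (nat_lit 3), (nat_lit 0), [], [], [⟨(nat_lit 0), (nat_lit 100), (nat_lit 66), (nat_lit 72), (nat_lit 94042526)⟩], [⟨(nat_lit 0), (nat_lit 100), (nat_lit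 60), (nat_lit 74), (nat_lit 176617090)⟩],
 ⟨⟨[(nat_lit 40), (nat_lit 80), (nat_lit 120)], [(nat_lit 0), (nat_lit 1598), (nat_lit 3468)], [((nat_lit 0), (nat_lit 0), (nat_lit 0)), ((nat_lit 1000), (nat_lit 625), (nat_lit 623)), ((nat_lit 1000), (nat_lit 604), (nat_lit 730))], ((nat_lit 61), (nat_lit 100), (nat_lit 89))⟩, (nat_lit 170864), (nat_lit 300), (nat_lit 403), (nat_lit 47407451), (nat_lit 771370), [(nat_lit 1896298013), (nat_lit 4034366385), (nat_lit 6281448000)], [(nat_lit 0), (nat_lit 0), (nat_lit 0)], [(nat_lit 35577270756), (nat_lit 36204153217), (nat_lit 37933802965), (nat_lit 38479232639), (nat_lit 35246608756), (nat_lit 35761212746), (nat_lit 37215072474), (nat_lit 37661189223)], (nat_lit 1271251), (nat_lit 1271251), (nat_lit 1271251), (nat_lit 1271251), (nat_lit 780000), (nat_lit 1762501), [(nat_lit 490000), (nat_lit 1100000), (nat_lit 1785001)], [(nat_lit 4), (nat_lit 51), (nat_lit 272), (nat_lit 60), (nat_lit 7)]⟩,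
 ⟨⟨[(nat_lit 40), (nat_lit 100), (nat_lit 160)], [(nat_lit 0), (nat_lit 0), (nat_lit 4607)], [((nat_lit 0), (nat_lit 0), (nat_lit 0)), ((nat_lit 0), (nat_lit 0), (nat_lit 0)), ((nat_lit 846), (nat_lit 837), (nat_lit 1000))], ((nat_lit 88), (nat_lit 100), (nat_lit 96))⟩, (nat_lit 1570739), (nat_lit 387), (nat_lit 387), (nat_lit 0), (nat_lit 321497), [(nat_lit 1960880000), (nat_lit 6031250000), (nat_lit 11456480000)], [], [(nat_lit 35446567675), (nat_lit 37698794428), (nat_lit 38874049152), (nat_lit 43311684342), (nat_lit 31484350539), (nat_lit 33496042371), (nat_lit 34371926010), (nat_lit 36449441957)], (nat_lit 1271251), (nat_lit 1271251), (nat_lit 1271251), (nat_lit 1271251), (nat_lit 0), (nat_lit 780000), [(nat_lit 490000), (nat_lit 1427501), (nat_lit 1271251)], [(nat_lit 6), (nat_lit 56), (nat_lit 238), (nat_lit 30), (nat_lit 5)]⟩,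
 ⟨⟨[(nat_lit 140), (nat_lit 180), (nat_lit 200)], [(nat_lit 0), (nat_lit 0), (nat_lit 2835)], [((nat_lit 0), (nat_lit 0), (nat_lit 0)), ((nat_lit 0), (nat_lit 0), (nat_lit 0)), ((nat_lit 363), (nat_lit 1000), (nat_lit 798))], ((nat_lit 0), (nat_lit 0), (nat_lit 0))⟩, (nat_lit 22561), (nat_lit 300), (nat_lit 491), (nat_lit 6404200), (nat_lit 0), [(nat_lit 807044000), (nat_lit 1152756000), (nat_lit 1344800000)], [], [(nat_lit 6103817682), (nat_lit 5583216861), (nat_lit 5495247056), (nat_lit 4988666898), (nat_lit 4392139350), (nat_lit 3908800918), (nat_lit 3834106964), (nat_lit 3272477033)], (nat_lit 0), (nat_lit 0), (nat_lit 0), (nat_lit 0), (nat_lit 0), (nat_lit 0), [], [(nat_lit 32), (nat_lit 67), (nat_lit 401), (nat_lit 175), (nat_lit 9)]⟩⟩)) (.trX (nat_lit 3) (nat_lit 4) (nat_lit 5) (nat_lit 100) (nat_lit 59) (nat_lit 94) (nat_lit 370) (.spl (nat_lit 0) (nat_lit 370) (.ord (.leaf ⟨(nat_lit 0), (nat_lit 577), (nat_lit 0), (nat_lit 423), (nat_lit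 0), (nat_lit 6776), (nat_lit 7500), (nat_lit 5596), (nat_lit 107353), (nat_lit 0), (nat_lit 0), [], Pd.none, Pd.none, (nat_lit 0), (nat_lit 1), (nat_lit 0), (nat_lit 0), (nat_lit 6), (nat_lit 0), [⟨(nat_lit 0), (nat_lit 59), (nat_lit 59), (nat_lit 100), (nat_lit 164995079)⟩], [⟨(nat_lit 1), (nat_lit 85), (nat_lit 57), (nat_lit 100), (nat_lit 287190260)⟩], [⟨(nat_lit 0), (nat_lit 100), (nat_lit 69), (nat_lit 69), (nat_lit 839522901)⟩], [],
 ⟨⟨[(nat_lit 40), (nat_lit 80), (nat_lit 120)], [(nat_lit 0), (nat_lit 1598), (nat_lit 3468)], [((nat_lit 0), (nat_lit 0), (nat_lit 0)), ((nat_lit 1000), (nat_lit 625), (nat_lit 623)), ((nat_lit 1000), (nat_lit 604), (nat_lit 730))], ((nat_lit 61), (nat_lit 100), (nat_lit 89))⟩, (nat_lit 539792), (nat_lit 300), (nat_lit 329), (nat_lit 50800012), (nat_lit 681807), [(nat_lit 2032000004), (nat_lit 4863412721), (nat_lit 7968000000)], [], [(nat_lit 30486479845), (nat_lit 30913407662), (nat_lit 33759096652), (nat_lit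 34188910491), (nat_lit 33787652743), (nat_lit 34094323957), (nat_lit 38341730018), (nat_lit 38789300097)], (nat_lit 1271251), (nat_lit 1271251), (nat_lit 1271251), (nat_lit 1271251), (nat_lit 1271251), (nat_lit 1271251), [(nat_lit 490000), (nat_lit 1100000), (nat_lit 1785001)], [(nat_lit 4), (nat_lit 51), (nat_lit 317), (nat_lit 100), (nat_lit 9)]⟩,
 ⟨⟨[(nat_lit 40), (nat_lit 100), (nat_lit 160)], [(nat_lit 0), (nat_lit 0), (nat_lit 4607)], [((nat_lit 0), (nat_lit 0), (nat_lit 0)), ((nat_lit 0), (nat_lit 0), (nat_lit 0)), ((nat_lit 846), (nat_lit 837), (nat_lit 1000))], ((nat_lit 88), (nat_lit 100), (nat_lit 96))⟩, (nat_lit 1968048), (nat_lit 381), (nat_lit 381), (nat_lit 0), (nat_lit 284451), [(nat_lit 2032000000), (nat_lit 6250000000), (nat_lit 11872000000)], [], [(nat_lit 31219848864), (nat_lit 33894124489), (nat_lit 38984657500), (nat_lit 43567407500), (nat_lit 26863473364), (nat_lit 29660781625), (nat_lit 32514198875), (nat_lit 35548618750)],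 (nat_lit 1271251), (nat_lit 1271251), (nat_lit 1271251), (nat_lit 1271251), (nat_lit 0), (nat_lit 780000), [(nat_lit 490000), (nat_lit 1427501), (nat_lit 1271251)], [(nat_lit 6), (nat_lit 56), (nat_lit 345), (nat_lit 125), (nat_lit 8)]⟩,
 ⟨⟨[(nat_lit 140), (nat_lit 180), (nat_lit 200)], [(nat_lit 0), (nat_lit 0), (nat_lit 2835)], [((nat_lit 0), (nat_lit 0), (nat_lit 0)), ((nat_lit 0), (nat_lit 0), (nat_lit 0)), ((nat_lit 363), (nat_lit 1000), (nat_lit 798))], ((nat_lit 0), (nat_lit 0), (nat_lit 0))⟩, (nat_lit 116381), (nat_lit 300), (nat_lit 435), (nat_lit 33036300), (nat_lit 0), [(nat_lit 4163166000), (nat_lit 5946534000), (nat_lit 6937200000)], [], [(nat_lit 27341494959), (nat_lit 25887970759), (nat_lit 28853074711), (nat_lit 26747585393), (nat_lit 22418329478), (nat_lit 20972898160), (nat_lit 23664400976), (nat_lit 21693578382)], (nat_lit 0), (nat_lit 0), (nat_lit 0), (nat_lit 0), (nat_lit 0), (nat_lit 0), [], [(nat_lit 32), (nat_lit 67),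 (nat_lit 428), (nat_lit 200), (nat_lit 9)]⟩⟩)) (.trZ (nat_lit 0) (nat_lit 1) (nat_lit 3) (nat_lit 80) (nat_lit 53) (nat_lit 100) (nat_lit 210) (.trX (nat_lit 4) (nat_lit 0) (nat_lit 2) (nat_lit 55) (nat_lit 68) (nat_lit 100) (nat_lit 360) (.leaf ⟨(nat_lit 0), (nat_lit 487), (nat_lit 0), (nat_lit 513), (nat_lit 0), (nat_lit 7073), (nat_lit 7701), (nat_lit 6787), (nat_lit 791119), (nat_lit 0), (nat_lit 0), [], Pd.none, Pd.none, (nat_lit 0), (nat_lit 1), (nat_lit 0), (nat_lit 0), (nat_lit 6), (nat_lit 0), [⟨(nat_lit 0), (nat_lit 70), (nat_lit 51), (nat_lit 100), (nat_lit 57783870)⟩], [⟨(nat_lit 1), (nat_lit 90), (nat_lit 48), (nat_lit 100), (nat_lit 1660641173)⟩], [⟨(nat_lit 0), (nat_lit 100), (nat_lit 66), (nat_lit 72), (nat_lit 1049707416)⟩], [],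
 ⟨⟨[(nat_lit 40), (nat_lit 80), (nat_lit 120)], [(nat_lit 0), (nat_lit 2008), (nat_lit 3930)], [((nat_lit 0), (nat_lit 0), (nat_lit 0)), ((nat_lit 1000), (nat_lit 540), (nat_lit 733)), ((nat_lit 1000), (nat_lit 536), (nat_lit 751))], ((nat_lit 53), (nat_lit 100), (nat_lit 88))⟩, (nat_lit 476336), (nat_lit 300), (nat_lit 372), (nat_lit 50800002), (nat_lit 767170), [(nat_lit 2032000058), (nat_lit 4952684878), (nat_lit 7968000000)], [], [(nat_lit 31953735087), (nat_lit 32333374313), (nat_lit 34537403293), (nat_lit 35193953601), (nat_lit 34381906600), (nat_lit 34659823498), (nat_lit 38740299313), (nat_lit 39211931027)], (nat_lit 1271251), (nat_lit 1271251), (nat_lit 1271251), (nat_lit 1271251), (nat_lit 1271251), (nat_lit 1271251), [(nat_lit 490000), (nat_lit 1100000), (nat_lit 1785001)], [(nat_lit 4), (nat_lit 51), (nat_lit 317), (nat_lit 100), (nat_lit 9)]⟩,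
 ⟨⟨[(nat_lit 40), (nat_lit 100), (nat_lit 160)], [(nat_lit 0), (nat_lit 0), (nat_lit 4607)], [((nat_lit 0), (nat_lit 0), (nat_lit 0)), ((nat_lit 0), (nat_lit 0), (nat_lit 0)), ((nat_lit 846), (nat_lit 837), (nat_lit 1000))], ((nat_lit 88), (nat_lit 100), (nat_lit 96))⟩, (nat_lit 2116059), (nat_lit 393), (nat_lit 393), (nat_lit 0), (nat_lit 320980), [(nat_lit 2032000000), (nat_lit 6250000000), (nat_lit 11872000000)], [], [(nat_lit 30289134809), (nat_lit 34407344855), (nat_lit 39488818966), (nat_lit 45080497813), (nat_lit 26182015138), (nat_lit 29907975951), (nat_lit 32017428230), (nat_lit 36716819603)], (nat_lit 1271251), (nat_lit 1271251), (nat_lit 1271251), (nat_lit 1271251), (nat_lit 0), (nat_lit 780000), [(nat_lit 490000), (nat_lit 1427501), (nat_lit 1271251)], [(nat_lit 6), (nat_lit 56), (nat_lit 345), (nat_lit 125), (nat_lit 8)]⟩,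
 ⟨⟨[(nat_lit 140), (nat_lit 180), (nat_lit 200)], [(nat_lit 0), (nat_lit 0), (nat_lit 2835)], [((nat_lit 0), (nat_lit 0), (nat_lit 0)), ((nat_lit 0), (nat_lit 0), (nat_lit 0)), ((nat_lit 363), (nat_lit 1000), (nat_lit 798))], ((nat_lit 0), (nat_lit 0), (nat_lit 0))⟩, (nat_lit 141143), (nat_lit 300), (nat_lit 434), (nat_lit 40065300), (nat_lit 0), [(nat_lit 5048946000), (nat_lit 7211754000), (nat_lit 8413200000)], [], [(nat_lit 33158862344), (nat_lit 31395987115), (nat_lit 34772568596), (nat_lit 32287822185), (nat_lit 27185055770), (nat_lit 25434793885), (nat_lit 28504140003), (nat_lit 26177155224)], (nat_lit 0), (nat_lit 0), (nat_lit 0), (nat_lit 0), (nat_lit 0), (nat_lit 0), [], [(nat_lit 32), (nat_lit 67), (nat_lit 428), (nat_lit 200), (nat_lit 9)]⟩⟩)))))) (.leaf ⟨(nat_lit 0), (nat_lit 0), (nat_lit 0), (nat_lit 1000), (nat_lit 0), (nat_lit 6808), (nat_lit 7997), (nat_lit 14806), (nat_lit 6449500436039), (nat_lit 0), (nat_lit 0), [], Pd.none,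 Pd.none, (nat_lit 0), (nat_lit 1), (nat_lit 0), (nat_lit 0), (nat_lit 0), (nat_lit 0), [⟨(nat_lit 0), (nat_lit 56), (nat_lit 56), (nat_lit 100), (nat_lit 597853477)⟩], [], [], [],
 ⟨⟨[(nat_lit 40), (nat_lit 80), (nat_lit 120)], [(nat_lit 0), (nat_lit 1598), (nat_lit 3468)], [((nat_lit 0), (nat_lit 0), (nat_lit 0)), ((nat_lit 1000), (nat_lit 625), (nat_lit 623)), ((nat_lit 1000), (nat_lit 604), (nat_lit 730))], ((nat_lit 61), (nat_lit 100), (nat_lit 89))⟩, (nat_lit 539792), (nat_lit 300), (nat_lit 404), (nat_lit 50800012), (nat_lit 771370), [(nat_lit 2032000006), (nat_lit 4842351051), (nat_lit 7968000000)], [], [(nat_lit 32359904045), (nat_lit 33263412850), (nat_lit 36960652160), (nat_lit 37524398604), (nat_lit 35186977364), (nat_lit 35731161922), (nat_lit 39776101224), (nat_lit 40580885488)], (nat_lit 1271251), (nat_lit 1271251), (nat_lit 1271251), (nat_lit 1271251), (nat_lit 780000), (nat_lit 2826876), [(nat_lit 490000), (nat_lit 1100000),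 (nat_lit 1785001)], [(nat_lit 4), (nat_lit 51), (nat_lit 428), (nat_lit 200), (nat_lit 13)]⟩,
 ⟨⟨[(nat_lit 40), (nat_lit 100), (nat_lit 160)], [(nat_lit 0), (nat_lit 0), (nat_lit 4607)], [((nat_lit 0), (nat_lit 0), (nat_lit 0)), ((nat_lit 0), (nat_lit 0), (nat_lit 0)), ((nat_lit 846), (nat_lit 837), (nat_lit 1000))], ((nat_lit 88), (nat_lit 100), (nat_lit 96))⟩, (nat_lit 1079978), (nat_lit 364), (nat_lit 364), (nat_lit 0), (nat_lit 455228), [(nat_lit 2032000000), (nat_lit 6250000000), (nat_lit 11872000000)], [], [(nat_lit 29659600531), (nat_lit 32600284195), (nat_lit 36946197160), (nat_lit 39721320442), (nat_lit 35183105957), (nat_lit 37705647869), (nat_lit 40779184608), (nat_lit 43159591350)], (nat_lit 1271251), (nat_lit 1271251), (nat_lit 1271251), (nat_lit 1271251), (nat_lit 780000), (nat_lit 2990626), [(nat_lit 490000), (nat_lit 1427501), (nat_lit 1271251)], [(nat_lit 6), (nat_lit 56), (nat_lit 428), (nat_lit 200), (nat_lit 10)]⟩,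
 ⟨⟨[(nat_lit 140), (nat_lit 180), (nat_lit 200)], [(nat_lit 0), (nat_lit 0), (nat_lit 2835)], [((nat_lit 0), (nat_lit 0), (nat_lit 0)), ((nat_lit 0), (nat_lit 0), (nat_lit 0)), ((nat_lit 363), (nat_lit 1000), (nat_lit 798))], ((nat_lit 0), (nat_lit 0), (nat_lit 0))⟩, (nat_lit 1919066), (nat_lit 287), (nat_lit 287), (nat_lit 0), (nat_lit 0), [(nat_lit 9842000000), (nat_lit 14058000000), (nat_lit 16400000000)], [], [(nat_lit 34762676088), (nat_lit 37089433805), (nat_lit 46016252743), (nat_lit 43353741606), (nat_lit 48133055153), (nat_lit 44914923721), (nat_lit 49050028530), (nat_lit 46307600085)], (nat_lit 0), (nat_lit 0), (nat_lit 0), (nat_lit 0), (nat_lit 0), (nat_lit 0), [], [(nat_lit 32), (nat_lit 67), (nat_lit 538), (nat_lit 300), (nat_lit 11)]⟩⟩)))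
noncomputable def c18_5 : Tr Lf :=
 (.spl (nat_lit 3) (nat_lit 320) (.spl (nat_lit 2) (nat_lit 160) (.trX (nat_lit 5) (nat_lit 1) (nat_lit 2) (nat_lit 82) (nat_lit 76) (nat_lit 100) (nat_lit 340) (.leaf ⟨(nat_lit 562), (nat_lit 438), (nat_lit 0), (nat_lit 0), (nat_lit 0), (nat_lit 3337), (nat_lit 2808), (nat_lit 0), (nat_lit 10757), (nat_lit 0), (nat_lit 281900), [((nat_lit 380), [((nat_lit 25), (nat_lit 0), (nat_lit 158)), ((nat_lit 41), (nat_lit 2), (nat_lit 404))])], ⟨(nat_lit 8), false, true, false, (nat_lit 303), (nat_lit 2236), (nat_lit 3163), [(nat_lit 1632548), (nat_lit 1636264), (nat_lit 1698823), (nat_lit 1704397), (nat_lit 1815720), (nat_lit 1807623), (nat_lit 1881994), (nat_lit 1875755)]⟩, ⟨(nat_lit 3), false, false, false, (nat_lit 108), (nat_lit 2236), (nat_lit 3163), [(nat_lit 1136876), (nat_lit 1152119), (nat_lit 1181059), (nat_lit 1197540), (nat_lit 1350426), (nat_lit 1351886), (nat_lit 1394735), (nat_lit 1397434)]⟩, (nat_lit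 4561590), (nat_lit 39398420), (nat_lit 23088890), (nat_lit 4512690), (nat_lit 3), (nat_lit 0), [⟨(nat_lit 0), (nat_lit 69), (nat_lit 55), (nat_lit 100), (nat_lit 132850933)⟩], [], [⟨(nat_lit 1), (nat_lit 96), (nat_lit 69), (nat_lit 100), (nat_lit 99702505)⟩, ⟨(nat_lit 1), (nat_lit 76), (nat_lit 82), (nat_lit 100), (nat_lit 1240660)⟩], [],
 ⟨⟨[(nat_lit 40), (nat_lit 80), (nat_lit 100)], [(nat_lit 0), (nat_lit 1598), (nat_lit 2533)], [((nat_lit 0), (nat_lit 0), (nat_lit 0)), ((nat_lit 1000), (nat_lit 625), (nat_lit 623)), ((nat_lit 1000), (nat_lit 604), (nat_lit 730))], ((nat_lit 61), (nat_lit 100), (nat_lit 68))⟩, (nat_lit 1078005), (nat_lit 151), (nat_lit 151), (nat_lit 0), (nat_lit 0), [(nat_lit 1551966403), (nat_lit 2412174004), (nat_lit 2783526400)], [(nat_lit 0), (nat_lit 0), (nat_lit 0)], [(nat_lit 21956268080), (nat_lit 23741492224), (nat_lit 27256230647), (nat_lit 28619592148), (nat_lit 21789318790), (nat_lit 22888869441), (nat_lit 25856695175),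 (nat_lit 26879447138)], (nat_lit 0), (nat_lit 0), (nat_lit 0), (nat_lit 0), (nat_lit 0), (nat_lit 0), [], [(nat_lit 3), (nat_lit 50), (nat_lit 249), (nat_lit 40), (nat_lit 9)]⟩,
 ⟨⟨[(nat_lit 40), (nat_lit 80), (nat_lit 120)], [(nat_lit 0), (nat_lit 0), (nat_lit 2151)], [((nat_lit 0), (nat_lit 0), (nat_lit 0)), ((nat_lit 0), (nat_lit 0), (nat_lit 0)), ((nat_lit 1000), (nat_lit 815), (nat_lit 753))], ((nat_lit 80), (nat_lit 100), (nat_lit 68))⟩, (nat_lit 711102), (nat_lit 624), (nat_lit 624), (nat_lit 0), (nat_lit 1081426), [(nat_lit 890016000), (nat_lit 2053344000), (nat_lit 3489984000)], [], [(nat_lit 14437666638), (nat_lit 15492250080), (nat_lit 15438637254), (nat_lit 16310558778), (nat_lit 14322523794), (nat_lit 15023952364), (nat_lit 14847435252), (nat_lit 15387572520)], (nat_lit 1271251), (nat_lit 1271251), (nat_lit 1271251), (nat_lit 1271251), (nat_lit 0), (nat_lit 2401251), [(nat_lit 490000), (nat_lit 1100000), (nat_lit 1785001)], [(nat_lit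 4), (nat_lit 51), (nat_lit 401), (nat_lit 175), (nat_lit 13)]⟩,
 Rw.none⟩)) (.trZ (nat_lit 0) (nat_lit 2) (nat_lit 4) (nat_lit 100) (nat_lit 61) (nat_lit 68) (nat_lit 50) (.trZ (nat_lit 1) (nat_lit 2) (nat_lit 5) (nat_lit 100) (nat_lit 82) (nat_lit 44) (nat_lit 10) (.spl (nat_lit 3) (nat_lit 280) (.leaf ⟨(nat_lit 604), (nat_lit 396), (nat_lit 0), (nat_lit 0), (nat_lit 0), (nat_lit 3231), (nat_lit 2505), (nat_lit 0), (nat_lit 66481), (nat_lit 0), (nat_lit 362400), [((nat_lit 380), [((nat_lit 41), (nat_lit 2), (nat_lit 604))])], ⟨(nat_lit 8), false, true, false, (nat_lit 291), (nat_lit 2236), (nat_lit 3163), [(nat_lit 1632548), (nat_lit 1636264), (nat_lit 1698823), (nat_lit 1704397), (nat_lit 1754663), (nat_lit 1750503), (nat_lit 1820937), (nat_lit 1818636)]⟩, ⟨(nat_lit 4), false, false, false, (nat_lit 135), (nat_lit 2236), (nat_lit 3163), [(nat_lit 1226852), (nat_lit 1240380), (nat_lit 1271035), (nat_lit 1285802), (nat_lit 1394735), (nat_lit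 1397434), (nat_lit 1438942), (nat_lit 1442880)]⟩, (nat_lit 4810852), (nat_lit 39198633), (nat_lit 21485080), (nat_lit 6316287), (nat_lit 4), (nat_lit 0), [⟨(nat_lit 0), (nat_lit 69), (nat_lit 55), (nat_lit 100), (nat_lit 205618493)⟩], [], [⟨(nat_lit 1), (nat_lit 82), (nat_lit 66), (nat_lit 100), (nat_lit 92673792)⟩, ⟨(nat_lit 1), (nat_lit 60), (nat_lit 80), (nat_lit 100), (nat_lit 16039979)⟩], [],
 ⟨⟨[(nat_lit 40), (nat_lit 80), (nat_lit 100)], [(nat_lit 0), (nat_lit 1598), (nat_lit 2533)], [((nat_lit 0), (nat_lit 0), (nat_lit 0)), ((nat_lit 1000), (nat_lit 625), (nat_lit 623)), ((nat_lit 1000), (nat_lit 604), (nat_lit 730))], ((nat_lit 61), (nat_lit 100), (nat_lit 68))⟩, (nat_lit 653810), (nat_lit 123), (nat_lit 123), (nat_lit 0), (nat_lit 0), [(nat_lit 1531961657), (nat_lit 1951692929), (nat_lit 2043502400)], [(nat_lit 0), (nat_lit 0), (nat_lit 0)], [(nat_lit 21414718995), (nat_lit 22715479466), (nat_lit 24217642520), (nat_lit 25675934240),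 (nat_lit 21712410041), (nat_lit 22864510138), (nat_lit 24104252948), (nat_lit 25107702781)], (nat_lit 0), (nat_lit 0), (nat_lit 0), (nat_lit 0), (nat_lit 0), (nat_lit 0), [], [(nat_lit 3), (nat_lit 50), (nat_lit 249), (nat_lit 40), (nat_lit 8)]⟩,
 ⟨⟨[(nat_lit 40), (nat_lit 80), (nat_lit 120)], [(nat_lit 0), (nat_lit 0), (nat_lit 2151)], [((nat_lit 0), (nat_lit 0), (nat_lit 0)), ((nat_lit 0), (nat_lit 0), (nat_lit 0)), ((nat_lit 1000), (nat_lit 815), (nat_lit 753))], ((nat_lit 80), (nat_lit 100), (nat_lit 68))⟩, (nat_lit 620934), (nat_lit 544), (nat_lit 544), (nat_lit 0), (nat_lit 934510), [(nat_lit 804672000), (nat_lit 1856448000), (nat_lit 3155328000)], [], [(nat_lit 12320248259), (nat_lit 13443441564), (nat_lit 12998660754), (nat_lit 13957605604), (nat_lit 12833740062), (nat_lit 13464901589), (nat_lit 13070054190), (nat_lit 13799568915)], (nat_lit 1271251), (nat_lit 1271251), (nat_lit 1271251), (nat_lit 1271251), (nat_lit 54688), (nat_lit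 2559376), [(nat_lit 490000), (nat_lit 1100000), (nat_lit 1785001)], [(nat_lit 4), (nat_lit 51), (nat_lit 401), (nat_lit 175), (nat_lit 13)]⟩,
 Rw.none⟩) (.leaf ⟨(nat_lit 471), (nat_lit 529), (nat_lit 0), (nat_lit 0), (nat_lit 0), (nat_lit 3463), (nat_lit 3254), (nat_lit 0), (nat_lit 457148), (nat_lit 0), (nat_lit 218900), [((nat_lit 380), [((nat_lit 25), (nat_lit 0), (nat_lit 182)), ((nat_lit 41), (nat_lit 2), (nat_lit 289))])], ⟨(nat_lit 8), false, true, false, (nat_lit 326), (nat_lit 2236), (nat_lit 3163), [(nat_lit 1754663), (nat_lit 1750503), (nat_lit 1820937), (nat_lit 1818636), (nat_lit 1815720), (nat_lit 1807623), (nat_lit 1881994), (nat_lit 1875755)]⟩, ⟨(nat_lit 4), false, false, false, (nat_lit 135), (nat_lit 2236), (nat_lit 3163), [(nat_lit 1226852), (nat_lit 1240380), (nat_lit 1271035), (nat_lit 1285802), (nat_lit 1394735), (nat_lit 1397434), (nat_lit 1438942), (nat_lit 1442880)]⟩, (nat_lit 4882605), (nat_lit 36317943), (nat_lit 24691948),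 (nat_lit 5990109), (nat_lit 4), (nat_lit 0), [], [], [⟨(nat_lit 1), (nat_lit 82), (nat_lit 66), (nat_lit 100), (nat_lit 427897)⟩, ⟨(nat_lit 1), (nat_lit 60), (nat_lit 80), (nat_lit 100), (nat_lit 118392132)⟩], [],
 ⟨⟨[(nat_lit 40), (nat_lit 80), (nat_lit 100)], [(nat_lit 0), (nat_lit 1598), (nat_lit 2533)], [((nat_lit 0), (nat_lit 0), (nat_lit 0)), ((nat_lit 1000), (nat_lit 625), (nat_lit 623)), ((nat_lit 1000), (nat_lit 604), (nat_lit 730))], ((nat_lit 61), (nat_lit 100), (nat_lit 68))⟩, (nat_lit 1039092), (nat_lit 131), (nat_lit 131), (nat_lit 0), (nat_lit 0), [(nat_lit 1603319671), (nat_lit 2792432842), (nat_lit 3485264400)], [(nat_lit 0), (nat_lit 0), (nat_lit 0)], [(nat_lit 24577899747), (nat_lit 26086582577), (nat_lit 26581827451), (nat_lit 27946593838), (nat_lit 24353005968), (nat_lit 25380645269), (nat_lit 25829153447), (nat_lit 27018054695)], (nat_lit 0), (nat_lit 0), (nat_lit 0), (nat_lit 0), (nat_lit 0), (nat_lit 0), [], [(nat_lit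 3), (nat_lit 50), (nat_lit 249), (nat_lit 40), (nat_lit 8)]⟩,
 ⟨⟨[(nat_lit 40), (nat_lit 80), (nat_lit 120)], [(nat_lit 0), (nat_lit 0), (nat_lit 2151)], [((nat_lit 0), (nat_lit 0), (nat_lit 0)), ((nat_lit 0), (nat_lit 0), (nat_lit 0)), ((nat_lit 1000), (nat_lit 815), (nat_lit 753))], ((nat_lit 80), (nat_lit 100), (nat_lit 68))⟩, (nat_lit 837754), (nat_lit 533), (nat_lit 533), (nat_lit 0), (nat_lit 934510), [(nat_lit 1074928000), (nat_lit 2479952000), (nat_lit 4215072000)], [], [(nat_lit 17686385144), (nat_lit 18952263965), (nat_lit 18264794815), (nat_lit 19419738112), (nat_lit 17865862746), (nat_lit 18674843043), (nat_lit 18190481198), (nat_lit 18937364506)], (nat_lit 1271251), (nat_lit 1271251), (nat_lit 1271251), (nat_lit 1271251), (nat_lit 54688), (nat_lit 2559376), [(nat_lit 490000), (nat_lit 1100000), (nat_lit 1785001)], [(nat_lit 4), (nat_lit 51), (nat_lit 317), (nat_lit 100), (nat_lit 10)]⟩,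
 Rw.none⟩))))) (.trX (nat_lit 5) (nat_lit 3) (nat_lit 4) (nat_lit 82) (nat_lit 76) (nat_lit 100) (nat_lit 340) (.spl (nat_lit 5) (nat_lit 160) (.leaf ⟨(nat_lit 0), (nat_lit 1000), (nat_lit 0), (nat_lit 0), (nat_lit 0), (nat_lit 3879), (nat_lit 6227), (nat_lit 0), (nat_lit 322028), (nat_lit 0), (nat_lit 0), [], Pd.none, Pd.none, (nat_lit 0), (nat_lit 1), (nat_lit 0), (nat_lit 0), (nat_lit 3), (nat_lit 0), [], [], [], [],
 ⟨⟨[(nat_lit 40), (nat_lit 80), (nat_lit 100)], [(nat_lit 0), (nat_lit 1598), (nat_lit 2533)], [((nat_lit 0), (nat_lit 0), (nat_lit 0)), ((nat_lit 1000), (nat_lit 625), (nat_lit 623)), ((nat_lit 1000), (nat_lit 604), (nat_lit 730))], ((nat_lit 61), (nat_lit 100), (nat_lit 68))⟩, (nat_lit 2268081), (nat_lit 174), (nat_lit 174), (nat_lit 0), (nat_lit 0), [(nat_lit 2032000135), (nat_lit 5032754422), (nat_lit 6250000000)], [], [(nat_lit 28422143649), (nat_lit 29888768616), (nat_lit 33647407878), (nat_lit 34793415025), (nat_lit 27151477238),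 (nat_lit 28179832525), (nat_lit 30893625800), (nat_lit 31833790442)], (nat_lit 0), (nat_lit 0), (nat_lit 0), (nat_lit 0), (nat_lit 0), (nat_lit 0), [], [(nat_lit 3), (nat_lit 50), (nat_lit 249), (nat_lit 40), (nat_lit 8)]⟩,
 ⟨⟨[(nat_lit 40), (nat_lit 80), (nat_lit 120)], [(nat_lit 0), (nat_lit 0), (nat_lit 2151)], [((nat_lit 0), (nat_lit 0), (nat_lit 0)), ((nat_lit 0), (nat_lit 0), (nat_lit 0)), ((nat_lit 1000), (nat_lit 815), (nat_lit 753))], ((nat_lit 80), (nat_lit 100), (nat_lit 68))⟩, (nat_lit 1856932), (nat_lit 606), (nat_lit 606), (nat_lit 0), (nat_lit 1081426), [(nat_lit 2032000000), (nat_lit 4688000000), (nat_lit 7968000000)], [], [(nat_lit 35668664932), (nat_lit 37806368896), (nat_lit 38695382072), (nat_lit 43073659802), (nat_lit 32889317544), (nat_lit 34679084550), (nat_lit 35275673552), (nat_lit 36717643565)], (nat_lit 1271251), (nat_lit 1271251), (nat_lit 1271251), (nat_lit 1271251), (nat_lit 0), (nat_lit 1100000), [(nat_lit 490000),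 (nat_lit 1100000), (nat_lit 1785001)], [(nat_lit 4), (nat_lit 51), (nat_lit 269), (nat_lit 40), (nat_lit 8)]⟩,
 Rw.none⟩) (.leaf ⟨(nat_lit 324), (nat_lit 676), (nat_lit 0), (nat_lit 0), (nat_lit 0), (nat_lit 3659), (nat_lit 4246), (nat_lit 0), (nat_lit 2864), (nat_lit 0), (nat_lit 117750), [((nat_lit 380), [((nat_lit 25), (nat_lit 0), (nat_lit 219)), ((nat_lit 41), (nat_lit 2), (nat_lit 105))])], ⟨(nat_lit 8), false, true, true, (nat_lit 362), (nat_lit 2236), (nat_lit 3163), [(nat_lit 1815720), (nat_lit 1807623), (nat_lit 1881994), (nat_lit 1875755), (nat_lit 1937695), (nat_lit 1921722), (nat_lit 2004104), (nat_lit 1989990)]⟩, ⟨(nat_lit 3), false, false, false, (nat_lit 117), (nat_lit 2236), (nat_lit 3163), [(nat_lit 1136876), (nat_lit 1152119), (nat_lit 1225242), (nat_lit 1242962), (nat_lit 1350426), (nat_lit 1351886), (nat_lit 1438942), (nat_lit 1442880)]⟩, (nat_lit 4724005), (nat_lit 34193090), (nat_lit 28196804), (nat_lit 4610106), (nat_lit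 4), (nat_lit 0), [], [], [], [⟨(nat_lit 1), (nat_lit 100), (nat_lit 62), (nat_lit 95), (nat_lit 151903133)⟩],
 ⟨⟨[(nat_lit 40), (nat_lit 80), (nat_lit 100)], [(nat_lit 0), (nat_lit 1598), (nat_lit 2533)], [((nat_lit 0), (nat_lit 0), (nat_lit 0)), ((nat_lit 1000), (nat_lit 625), (nat_lit 623)), ((nat_lit 1000), (nat_lit 604), (nat_lit 730))], ((nat_lit 61), (nat_lit 100), (nat_lit 68))⟩, (nat_lit 1379334), (nat_lit 174), (nat_lit 174), (nat_lit 0), (nat_lit 0), [(nat_lit 1686018401), (nat_lit 3566714015), (nat_lit 4613830000)], [(nat_lit 0), (nat_lit 0), (nat_lit 0)], [(nat_lit 27948894829), (nat_lit 29373604736), (nat_lit 33033954928), (nat_lit 34151775070), (nat_lit 26301977830), (nat_lit 27233902635), (nat_lit 30485320960), (nat_lit 31484914882)], (nat_lit 0), (nat_lit 0), (nat_lit 0), (nat_lit 0), (nat_lit 0), (nat_lit 0), [], [(nat_lit 3), (nat_lit 50), (nat_lit 249), (nat_lit 40), (nat_lit 8)]⟩,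
 ⟨⟨[(nat_lit 40), (nat_lit 80), (nat_lit 120)], [(nat_lit 0), (nat_lit 0), (nat_lit 2151)], [((nat_lit 0), (nat_lit 0), (nat_lit 0)), ((nat_lit 0), (nat_lit 0), (nat_lit 0)), ((nat_lit 1000), (nat_lit 815), (nat_lit 753))], ((nat_lit 80), (nat_lit 100), (nat_lit 68))⟩, (nat_lit 1057689), (nat_lit 507), (nat_lit 507), (nat_lit 0), (nat_lit 1081426), [(nat_lit 1373632000), (nat_lit 3169088000), (nat_lit 5386368000)], [], [(nat_lit 21134264113), (nat_lit 22393185985), (nat_lit 22812826609), (nat_lit 24094654788), (nat_lit 22506861628), (nat_lit 23646655903), (nat_lit 24397658962), (nat_lit 26141370508)], (nat_lit 1271251), (nat_lit 1271251), (nat_lit 1271251), (nat_lit 1271251), (nat_lit 1100000), (nat_lit 2641251), [(nat_lit 490000), (nat_lit 1100000), (nat_lit 1785001)], [(nat_lit 4), (nat_lit 51), (nat_lit 317), (nat_lit 100), (nat_lit 9)]⟩,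
 Rw.none⟩))))
noncomputable def c18_6 : Tr Lf :=
 (.spl (nat_lit 3) (nat_lit 320) (.spl (nat_lit 2) (nat_lit 160) (.trX (nat_lit 4) (nat_lit 0) (nat_lit 2) (nat_lit 61) (nat_lit 92) (nat_lit 100) (nat_lit 290) (.leaf ⟨(nat_lit 232), (nat_lit 768), (nat_lit 0), (nat_lit 0), (nat_lit 0), (nat_lit 3459), (nat_lit 5433), (nat_lit 0), (nat_lit 14680), (nat_lit 0), (nat_lit 139200), [((nat_lit 380), [((nat_lit 41), (nat_lit 2), (nat_lit 232))])], ⟨(nat_lit 8), false, true, false, (nat_lit 303), (nat_lit 2236), (nat_lit 3163), [(nat_lit 1632548), (nat_lit 1636264), (nat_lit 1698823), (nat_lit 1704397), (nat_lit 1815720), (nat_lit 1807623), (nat_lit 1881994), (nat_lit 1875755)]⟩, ⟨(nat_lit 4), false, false, true, (nat_lit 188), (nat_lit 2236), (nat_lit 3163), [(nat_lit 1350426), (nat_lit 1351886), (nat_lit 1394735), (nat_lit 1397434), (nat_lit 1548524), (nat_lit 1537186), (nat_lit 1592834), (nat_lit 1582735)]⟩, (nat_lit 5292026), (nat_lit 35720437),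 (nat_lit 21395051), (nat_lit 9884512), (nat_lit 4), (nat_lit 0), [⟨(nat_lit 0), (nat_lit 69), (nat_lit 55), (nat_lit 100), (nat_lit 328872023)⟩], [⟨(nat_lit 1), (nat_lit 100), (nat_lit 54), (nat_lit 98), (nat_lit 549548740)⟩], [], [],
 ⟨⟨[(nat_lit 40), (nat_lit 80), (nat_lit 100)], [(nat_lit 0), (nat_lit 1598), (nat_lit 2533)], [((nat_lit 0), (nat_lit 0), (nat_lit 0)), ((nat_lit 1000), (nat_lit 625), (nat_lit 623)), ((nat_lit 1000), (nat_lit 604), (nat_lit 730))], ((nat_lit 61), (nat_lit 100), (nat_lit 68))⟩, (nat_lit 1618924), (nat_lit 70), (nat_lit 70), (nat_lit 0), (nat_lit 0), [(nat_lit 1743852806), (nat_lit 3671205206), (nat_lit 4634259200)], [(nat_lit 0), (nat_lit 0), (nat_lit 0)], [(nat_lit 21443664904), (nat_lit 22727342255), (nat_lit 25826774774), (nat_lit 27013649635), (nat_lit 25453689600), (nat_lit 26558668331), (nat_lit 29030552858), (nat_lit 29999275734)], (nat_lit 0), (nat_lit 0), (nat_lit 0), (nat_lit 0), (nat_lit 0), (nat_lit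 0), [], [(nat_lit 3), (nat_lit 50), (nat_lit 289), (nat_lit 75), (nat_lit 9)]⟩,
 ⟨⟨[(nat_lit 40), (nat_lit 80), (nat_lit 120)], [(nat_lit 0), (nat_lit 0), (nat_lit 2151)], [((nat_lit 0), (nat_lit 0), (nat_lit 0)), ((nat_lit 0), (nat_lit 0), (nat_lit 0)), ((nat_lit 1000), (nat_lit 815), (nat_lit 753))], ((nat_lit 80), (nat_lit 100), (nat_lit 68))⟩, (nat_lit 1557046), (nat_lit 624), (nat_lit 624), (nat_lit 0), (nat_lit 1081426), [(nat_lit 1560576000), (nat_lit 3600384000), (nat_lit 6119424000)], [], [(nat_lit 22422131526), (nat_lit 25116907604), (nat_lit 25089304728), (nat_lit 29926155828), (nat_lit 20502902325), (nat_lit 22231582485), (nat_lit 22033015014), (nat_lit 24199585229)], (nat_lit 1271251), (nat_lit 1271251), (nat_lit 1271251), (nat_lit 1271251), (nat_lit 0), (nat_lit 1412501), [(nat_lit 490000), (nat_lit 1100000), (nat_lit 1785001)], [(nat_lit 4), (nat_lit 51), (nat_lit 373), (nat_lit 150), (nat_lit 12)]⟩,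
 Rw.none⟩)) (.trZ (nat_lit 1) (nat_lit 2) (nat_lit 5) (nat_lit 100) (nat_lit 82) (nat_lit 44) (nat_lit 10) (.spl (nat_lit 4) (nat_lit 240) (.leaf ⟨(nat_lit 35), (nat_lit 965), (nat_lit 0), (nat_lit 0), (nat_lit 0), (nat_lit 3735), (nat_lit 6919), (nat_lit 0), (nat_lit 1957), (nat_lit 0), (nat_lit 140000), [((nat_lit 380), [((nat_lit 41), (nat_lit 5), (nat_lit 35))])], ⟨(nat_lit 8), false, true, false, (nat_lit 303), (nat_lit 2236), (nat_lit 3163), [(nat_lit 1632548), (nat_lit 1636264), (nat_lit 1698823), (nat_lit 1704397), (nat_lit 1815720), (nat_lit 1807623), (nat_lit 1881994), (nat_lit 1875755)]⟩, ⟨(nat_lit 4), false, false, true, (nat_lit 191), (nat_lit 2236), (nat_lit 3163), [(nat_lit 1394735), (nat_lit 1397434), (nat_lit 1438942), (nat_lit 1442880), (nat_lit 1516642), (nat_lit 1511466), (nat_lit 1560952), (nat_lit 1557014)]⟩, (nat_lit 5314890), (nat_lit 35563374), (nat_lit 21318755), (nat_lit 10117871), (nat_lit 4), (nat_lit 0), [⟨(nat_lit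 0), (nat_lit 69), (nat_lit 55), (nat_lit 100), (nat_lit 365458638)⟩], [], [], [],
 ⟨⟨[(nat_lit 40), (nat_lit 80), (nat_lit 100)], [(nat_lit 0), (nat_lit 1598), (nat_lit 2533)], [((nat_lit 0), (nat_lit 0), (nat_lit 0)), ((nat_lit 1000), (nat_lit 625), (nat_lit 623)), ((nat_lit 1000), (nat_lit 604), (nat_lit 730))], ((nat_lit 61), (nat_lit 100), (nat_lit 68))⟩, (nat_lit 1978206), (nat_lit 70), (nat_lit 70), (nat_lit 0), (nat_lit 0), [(nat_lit 1896298001), (nat_lit 4209233971), (nat_lit 5059300000)], [(nat_lit 0), (nat_lit 0), (nat_lit 0)], [(nat_lit 21337551102), (nat_lit 22793293097), (nat_lit 26053249410), (nat_lit 27317598775), (nat_lit 23531661322), (nat_lit 24799581490), (nat_lit 27639424620), (nat_lit 28745997440)], (nat_lit 0), (nat_lit 0), (nat_lit 0), (nat_lit 0), (nat_lit 0), (nat_lit 0), [], [(nat_lit 3), (nat_lit 50), (nat_lit 272), (nat_lit 60), (nat_lit 9)]⟩,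
 ⟨⟨[(nat_lit 40), (nat_lit 80), (nat_lit 120)], [(nat_lit 0), (nat_lit 0), (nat_lit 2151)], [((nat_lit 0), (nat_lit 0), (nat_lit 0)), ((nat_lit 0), (nat_lit 0), (nat_lit 0)), ((nat_lit 1000), (nat_lit 815), (nat_lit 753))], ((nat_lit 80), (nat_lit 100), (nat_lit 68))⟩, (nat_lit 2261319), (nat_lit 544), (nat_lit 544), (nat_lit 0), (nat_lit 934510), [(nat_lit 1960880000), (nat_lit 4523920000), (nat_lit 7689120000)], [], [(nat_lit 25786471670), (nat_lit 30988980646), (nat_lit 30965135915), (nat_lit 37061177785), (nat_lit 23746718580), (nat_lit 26382165408), (nat_lit 26208967128), (nat_lit 30503251356)], (nat_lit 1271251), (nat_lit 1271251), (nat_lit 1271251), (nat_lit 1271251), (nat_lit 54688), (nat_lit 1414376), [(nat_lit 490000), (nat_lit 1100000), (nat_lit 1785001)], [(nat_lit 4), (nat_lit 51), (nat_lit 373), (nat_lit 150), (nat_lit 12)]⟩,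
 Rw.none⟩) (.spl (nat_lit 1) (nat_lit 360) (.leaf ⟨(nat_lit 35), (nat_lit 965), (nat_lit 0), (nat_lit 0), (nat_lit 0), (nat_lit 3588), (nat_lit 6835), (nat_lit 0), (nat_lit 0), (nat_lit 0), (nat_lit 140000), [((nat_lit 380), [((nat_lit 41), (nat_lit 5), (nat_lit 35))])], ⟨(nat_lit 8), false, true, false, (nat_lit 298), (nat_lit 2236), (nat_lit 3163), [(nat_lit 1632548), (nat_lit 1636264), (nat_lit 1676731), (nat_lit 1681686), (nat_lit 1815720), (nat_lit 1807623), (nat_lit 1859903), (nat_lit 1853045)]⟩, ⟨(nat_lit 6), false, false, true, (nat_lit 238), (nat_lit 2236), (nat_lit 3163), [(nat_lit 1516642), (nat_lit 1511466), (nat_lit 1560952), (nat_lit 1557014), (nat_lit 1638549), (nat_lit 1625497), (nat_lit 1682859), (nat_lit 1671045)]⟩, (nat_lit 5583872), (nat_lit 33502055), (nat_lit 19789529), (nat_lit 13708416), (nat_lit 6), (nat_lit 0), [⟨(nat_lit 0), (nat_lit 73), (nat_lit 54), (nat_lit 100), (nat_lit 420518008)⟩], [⟨(nat_lit 1), (nat_lit 90),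 (nat_lit 53), (nat_lit 100), (nat_lit 741605605)⟩], [], [],
 ⟨⟨[(nat_lit 40), (nat_lit 80), (nat_lit 100)], [(nat_lit 0), (nat_lit 1598), (nat_lit 2533)], [((nat_lit 0), (nat_lit 0), (nat_lit 0)), ((nat_lit 1000), (nat_lit 625), (nat_lit 623)), ((nat_lit 1000), (nat_lit 604), (nat_lit 730))], ((nat_lit 61), (nat_lit 100), (nat_lit 68))⟩, (nat_lit 1944984), (nat_lit 67), (nat_lit 67), (nat_lit 0), (nat_lit 0), [(nat_lit 1896298010), (nat_lit 4168871408), (nat_lit 5059300000)], [(nat_lit 0), (nat_lit 0), (nat_lit 0)], [(nat_lit 23681878876), (nat_lit 24925557792), (nat_lit 27617372140), (nat_lit 28601657552), (nat_lit 26828021772), (nat_lit 27878685186), (nat_lit 30135260672), (nat_lit 31055006584)], (nat_lit 0), (nat_lit 0), (nat_lit 0), (nat_lit 0), (nat_lit 0), (nat_lit 0), [], [(nat_lit 3), (nat_lit 50), (nat_lit 203), (nat_lit 0), (nat_lit 6)]⟩,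
 ⟨⟨[(nat_lit 40), (nat_lit 80), (nat_lit 120)], [(nat_lit 0), (nat_lit 0), (nat_lit 2151)], [((nat_lit 0), (nat_lit 0), (nat_lit 0)), ((nat_lit 0), (nat_lit 0), (nat_lit 0)), ((nat_lit 1000), (nat_lit 815), (nat_lit 753))], ((nat_lit 80), (nat_lit 100), (nat_lit 68))⟩, (nat_lit 2983624), (nat_lit 537), (nat_lit 537), (nat_lit 0), (nat_lit 922441), [(nat_lit 1960880000), (nat_lit 4523920000), (nat_lit 7689120000)], [], [(nat_lit 26092720403), (nat_lit 28327863545), (nat_lit 30805708073), (nat_lit 34837521734), (nat_lit 24115668840), (nat_lit 25862208950), (nat_lit 26576473680), (nat_lit 28805479995)], (nat_lit 1271251), (nat_lit 1271251), (nat_lit 1271251), (nat_lit 1271251), (nat_lit 54688), (nat_lit 1414376), [(nat_lit 490000), (nat_lit 1100000), (nat_lit 1785001)], [(nat_lit 4), (nat_lit 51), (nat_lit 373), (nat_lit 150), (nat_lit 12)]⟩,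
 Rw.none⟩) (.trZ (nat_lit 0) (nat_lit 1) (nat_lit 3) (nat_lit 63) (nat_lit 63) (nat_lit 100) (nat_lit 250) (.trZ (nat_lit 1) (nat_lit 2) (nat_lit 5) (nat_lit 100) (nat_lit 61) (nat_lit 68) (nat_lit 50) (.leaf ⟨(nat_lit 0), (nat_lit 1000), (nat_lit 0), (nat_lit 0), (nat_lit 0), (nat_lit 3826), (nat_lit 4779), (nat_lit 0), (nat_lit 7215788370584), (nat_lit 0), (nat_lit 0), [], Pd.none, Pd.none, (nat_lit 0), (nat_lit 1), (nat_lit 0), (nat_lit 0), (nat_lit 6), (nat_lit 0), [⟨(nat_lit 0), (nat_lit 59), (nat_lit 59), (nat_lit 100), (nat_lit 239197373)⟩], [⟨(nat_lit 1), (nat_lit 80), (nat_lit 60), (nat_lit 100), (nat_lit 657929980)⟩], [], [],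
 ⟨⟨[(nat_lit 40), (nat_lit 80), (nat_lit 100)], [(nat_lit 0), (nat_lit 1598), (nat_lit 2533)], [((nat_lit 0), (nat_lit 0), (nat_lit 0)), ((nat_lit 1000), (nat_lit 625), (nat_lit 623)), ((nat_lit 1000), (nat_lit 604), (nat_lit 730))], ((nat_lit 61), (nat_lit 100), (nat_lit 68))⟩, (nat_lit 1561323), (nat_lit 67), (nat_lit 67), (nat_lit 0), (nat_lit 0), [(nat_lit 2032000270), (nat_lit 4688000231), (nat_lit 6250000000)], [], [(nat_lit 25588759876), (nat_lit 26651932528), (nat_lit 27960463903), (nat_lit 28880404105), (nat_lit 28241940570), (nat_lit 29145362162), (nat_lit 30372937944), (nat_lit 31315442368)], (nat_lit 0), (nat_lit 0), (nat_lit 0), (nat_lit 0), (nat_lit 0), (nat_lit 0), [], [(nat_lit 3), (nat_lit 50), (nat_lit 203), (nat_lit 0), (nat_lit 5)]⟩,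
 ⟨⟨[(nat_lit 40), (nat_lit 80), (nat_lit 100)], [(nat_lit 0), (nat_lit 1598), (nat_lit 2533)], [((nat_lit 0), (nat_lit 0), (nat_lit 0)), ((nat_lit 1000), (nat_lit 625), (nat_lit 623)), ((nat_lit 1000), (nat_lit 604), (nat_lit 730))], ((nat_lit 61), (nat_lit 100), (nat_lit 68))⟩, (nat_lit 1951552), (nat_lit 442), (nat_lit 442), (nat_lit 0), (nat_lit 900029), [(nat_lit 2032000000), (nat_lit 4688000000), (nat_lit 6250000000)], [], [(nat_lit 25284642464), (nat_lit 26846276908), (nat_lit 28898202617), (nat_lit 30508847154), (nat_lit 25653603067), (nat_lit 26595728188), (nat_lit 27783064971), (nat_lit 29119212326)], (nat_lit 1271251), (nat_lit 1271251), (nat_lit 1271251), (nat_lit 1271251), (nat_lit 292188), (nat_lit 1421875), [(nat_lit 490000), (nat_lit 1100000), (nat_lit 1442501)], [(nat_lit 3), (nat_lit 50), (nat_lit 260), (nat_lit 50), (nat_lit 9)]⟩,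
 Rw.none⟩))))))) (.trZ (nat_lit 3) (nat_lit 4) (nat_lit 5) (nat_lit 100) (nat_lit 82) (nat_lit 44) (nat_lit 10) (.spl (nat_lit 2) (nat_lit 160) (.trX (nat_lit 4) (nat_lit 0) (nat_lit 2) (nat_lit 61) (nat_lit 92) (nat_lit 100) (nat_lit 290) (.leaf ⟨(nat_lit 35), (nat_lit 965), (nat_lit 0), (nat_lit 0), (nat_lit 0), (nat_lit 3371), (nat_lit 6174), (nat_lit 0), (nat_lit 67251), (nat_lit 0), (nat_lit 140000), [((nat_lit 380), [((nat_lit 41), (nat_lit 5), (nat_lit 35))])], ⟨(nat_lit 8), false, true, true, (nat_lit 362), (nat_lit 2236), (nat_lit 3163), [(nat_lit 1815720), (nat_lit 1807623), (nat_lit 1881994), (nat_lit 1875755), (nat_lit 1937695), (nat_lit 1921722), (nat_lit 2004104), (nat_lit 1989990)]⟩, ⟨(nat_lit 4), false, false, true, (nat_lit 188), (nat_lit 2236), (nat_lit 3163), [(nat_lit 1350426), (nat_lit 1351886), (nat_lit 1394735), (nat_lit 1397434), (nat_lit 1548524), (nat_lit 1537186), (nat_lit 1592834), (nat_lit 1582735)]⟩, (nat_lit 5330536),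 (nat_lit 31691688), (nat_lit 26303419), (nat_lit 9004893), (nat_lit 4), (nat_lit 0), [], [⟨(nat_lit 1), (nat_lit 100), (nat_lit 54), (nat_lit 98), (nat_lit 594229632)⟩], [], [],
 ⟨⟨[(nat_lit 40), (nat_lit 80), (nat_lit 100)], [(nat_lit 0), (nat_lit 1598), (nat_lit 2533)], [((nat_lit 0), (nat_lit 0), (nat_lit 0)), ((nat_lit 1000), (nat_lit 625), (nat_lit 623)), ((nat_lit 1000), (nat_lit 604), (nat_lit 730))], ((nat_lit 61), (nat_lit 100), (nat_lit 68))⟩, (nat_lit 1941976), (nat_lit 107), (nat_lit 107), (nat_lit 0), (nat_lit 0), [(nat_lit 1896298004), (nat_lit 4308480148), (nat_lit 5059300000)], [(nat_lit 0), (nat_lit 0), (nat_lit 0)], [(nat_lit 26195102786), (nat_lit 27282029435), (nat_lit 30142259198), (nat_lit 31028910755), (nat_lit 29296342760), (nat_lit 30169121950), (nat_lit 32482833586), (nat_lit 33209030947)], (nat_lit 0), (nat_lit 0), (nat_lit 0), (nat_lit 0), (nat_lit 0), (nat_lit 0), [], [(nat_lit 3), (nat_lit 50), (nat_lit 289), (nat_lit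 75), (nat_lit 9)]⟩,
 ⟨⟨[(nat_lit 40), (nat_lit 80), (nat_lit 120)], [(nat_lit 0), (nat_lit 0), (nat_lit 2151)], [((nat_lit 0), (nat_lit 0), (nat_lit 0)), ((nat_lit 0), (nat_lit 0), (nat_lit 0)), ((nat_lit 1000), (nat_lit 815), (nat_lit 753))], ((nat_lit 80), (nat_lit 100), (nat_lit 68))⟩, (nat_lit 1795191), (nat_lit 600), (nat_lit 600), (nat_lit 0), (nat_lit 1081426), [(nat_lit 1960880000), (nat_lit 4523920000), (nat_lit 7689120000)], [], [(nat_lit 33429835843), (nat_lit 35496957802), (nat_lit 37107799149), (nat_lit 41378316449), (nat_lit 31078578812), (nat_lit 32704069010), (nat_lit 33245899076), (nat_lit 34739750436)], (nat_lit 1271251), (nat_lit 1271251), (nat_lit 1271251), (nat_lit 1271251), (nat_lit 54688), (nat_lit 1414376), [(nat_lit 490000), (nat_lit 1100000), (nat_lit 1785001)], [(nat_lit 4), (nat_lit 51), (nat_lit 273), (nat_lit 50), (nat_lit 8)]⟩,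
 Rw.none⟩)) (.leaf ⟨(nat_lit 35), (nat_lit 965), (nat_lit 0), (nat_lit 0), (nat_lit 0), (nat_lit 3493), (nat_lit 6008), (nat_lit 0), (nat_lit 22903), (nat_lit 0), (nat_lit 140000), [((nat_lit 380), [((nat_lit 41), (nat_lit 5), (nat_lit 35))])], ⟨(nat_lit 8), false, true, true, (nat_lit 362), (nat_lit 2236), (nat_lit 3163), [(nat_lit 1815720), (nat_lit 1807623), (nat_lit 1881994), (nat_lit 1875755), (nat_lit 1937695), (nat_lit 1921722), (nat_lit 2004104), (nat_lit 1989990)]⟩, ⟨(nat_lit 4), false, false, true, (nat_lit 215), (nat_lit 2236), (nat_lit 3163), [(nat_lit 1394735), (nat_lit 1397434), (nat_lit 1438942), (nat_lit 1442880), (nat_lit 1638549), (nat_lit 1625497), (nat_lit 1682859), (nat_lit 1671045)]⟩, (nat_lit 5503816), (nat_lit 30673907), (nat_lit 25517951), (nat_lit 10808142), (nat_lit 4), (nat_lit 0), [], [⟨(nat_lit 1), (nat_lit 90), (nat_lit 53), (nat_lit 100), (nat_lit 579209609)⟩], [], [],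
 ⟨⟨[(nat_lit 40), (nat_lit 80), (nat_lit 100)], [(nat_lit 0), (nat_lit 1598), (nat_lit 2533)], [((nat_lit 0), (nat_lit 0), (nat_lit 0)), ((nat_lit 1000), (nat_lit 625), (nat_lit 623)), ((nat_lit 1000), (nat_lit 604), (nat_lit 730))], ((nat_lit 61), (nat_lit 100), (nat_lit 68))⟩, (nat_lit 1733262), (nat_lit 107), (nat_lit 107), (nat_lit 0), (nat_lit 0), [(nat_lit 1896298029), (nat_lit 4235237237), (nat_lit 5059300000)], [(nat_lit 0), (nat_lit 0), (nat_lit 0)], [(nat_lit 26107155232), (nat_lit 27210993399), (nat_lit 30240065920), (nat_lit 31221672414), (nat_lit 30120106082), (nat_lit 30951277246), (nat_lit 33345724134), (nat_lit 34087729823)], (nat_lit 0), (nat_lit 0), (nat_lit 0), (nat_lit 0), (nat_lit 0), (nat_lit 0), [], [(nat_lit 3), (nat_lit 50), (nat_lit 317), (nat_lit 100), (nat_lit 10)]⟩,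
 ⟨⟨[(nat_lit 40), (nat_lit 80), (nat_lit 120)], [(nat_lit 0), (nat_lit 0), (nat_lit 2151)], [((nat_lit 0), (nat_lit 0), (nat_lit 0)), ((nat_lit 0), (nat_lit 0), (nat_lit 0)), ((nat_lit 1000), (nat_lit 815), (nat_lit 753))], ((nat_lit 80), (nat_lit 100), (nat_lit 68))⟩, (nat_lit 1873479), (nat_lit 533), (nat_lit 533), (nat_lit 0), (nat_lit 934510), [(nat_lit 1960880000), (nat_lit 4523920000), (nat_lit 7689120000)], [], [(nat_lit 32383602748), (nat_lit 34820365577), (nat_lit 36665416370), (nat_lit 40871827935), (nat_lit 30194663186), (nat_lit 32122022198), (nat_lit 32764475202), (nat_lit 34494402187)], (nat_lit 1271251), (nat_lit 1271251), (nat_lit 1271251), (nat_lit 1271251), (nat_lit 54688), (nat_lit 1414376), [(nat_lit 490000), (nat_lit 1100000), (nat_lit 1785001)], [(nat_lit 4), (nat_lit 51), (nat_lit 260), (nat_lit 50), (nat_lit 7)]⟩,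
 Rw.none⟩))))
noncomputable def c18_7 : Tr Lf :=
 (.spl (nat_lit 1) (nat_lit 360) (.spl (nat_lit 1) (nat_lit 340) (.spl (nat_lit 5) (nat_lit 280) (.leaf ⟨(nat_lit 580), (nat_lit 420), (nat_lit 0), (nat_lit 0), (nat_lit 0), (nat_lit 3259), (nat_lit 2849), (nat_lit 0), (nat_lit 0), (nat_lit 0), (nat_lit 294450), [((nat_lit 380), [((nat_lit 25), (nat_lit 0), (nat_lit 153)), ((nat_lit 41), (nat_lit 2), (nat_lit 427))])], ⟨(nat_lit 8), false, true, false, (nat_lit 294), (nat_lit 2236), (nat_lit 3163), [(nat_lit 1632548), (nat_lit 1636264), (nat_lit 1654639), (nat_lit 1658975), (nat_lit 1815720), (nat_lit 1807623), (nat_lit 1837812), (nat_lit 1830334)]⟩, ⟨(nat_lit 4), false, false, true, (nat_lit 182), (nat_lit 2236), (nat_lit 3163), [(nat_lit 1350426), (nat_lit 1351886), (nat_lit 1438942), (nat_lit 1442880), (nat_lit 1472332), (nat_lit 1465917), (nat_lit 1560952), (nat_lit 1557014)]⟩, (nat_lit 5230399), (nat_lit 36651875), (nat_lit 20754824), (nat_lit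 9593301), (nat_lit 5), (nat_lit 0), [⟨(nat_lit 0), (nat_lit 75), (nat_lit 46), (nat_lit 100), (nat_lit 91894966)⟩], [], [], [],
 ⟨⟨[(nat_lit 40), (nat_lit 80), (nat_lit 100)], [(nat_lit 0), (nat_lit 1598), (nat_lit 2533)], [((nat_lit 0), (nat_lit 0), (nat_lit 0)), ((nat_lit 1000), (nat_lit 625), (nat_lit 623)), ((nat_lit 1000), (nat_lit 604), (nat_lit 730))], ((nat_lit 61), (nat_lit 100), (nat_lit 68))⟩, (nat_lit 750181), (nat_lit 70), (nat_lit 70), (nat_lit 0), (nat_lit 0), [(nat_lit 1541837618), (nat_lit 2209309555), (nat_lit 2644005200)], [(nat_lit 0), (nat_lit 0), (nat_lit 0)], [(nat_lit 21435422179), (nat_lit 22665202925), (nat_lit 25604949754), (nat_lit 26793396635), (nat_lit 23417095498), (nat_lit 24498641332), (nat_lit 27233543228), (nat_lit 28278611136)], (nat_lit 0), (nat_lit 0), (nat_lit 0), (nat_lit 0), (nat_lit 0), (nat_lit 0), [], [(nat_lit 3), (nat_lit 50), (nat_lit 272), (nat_lit 60), (nat_lit 9)]⟩,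
 ⟨⟨[(nat_lit 40), (nat_lit 80), (nat_lit 120)], [(nat_lit 0), (nat_lit 0), (nat_lit 2151)], [((nat_lit 0), (nat_lit 0), (nat_lit 0)), ((nat_lit 0), (nat_lit 0), (nat_lit 0)), ((nat_lit 1000), (nat_lit 815), (nat_lit 753))], ((nat_lit 80), (nat_lit 100), (nat_lit 68))⟩, (nat_lit 757277), (nat_lit 501), (nat_lit 501), (nat_lit 0), (nat_lit 1060101), [(nat_lit 853440000), (nat_lit 1968960000), (nat_lit 3346560000)], [], [(nat_lit 11181288077), (nat_lit 11503640506), (nat_lit 12117429058), (nat_lit 12405981770), (nat_lit 11694637213), (nat_lit 12011715111), (nat_lit 12527458594), (nat_lit 12776237180)], (nat_lit 1271251), (nat_lit 1271251), (nat_lit 1271251), (nat_lit 1271251), (nat_lit 1271251), (nat_lit 1271251), [(nat_lit 490000), (nat_lit 1100000), (nat_lit 1785001)], [(nat_lit 4), (nat_lit 51), (nat_lit 373), (nat_lit 150), (nat_lit 11)]⟩,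
 Rw.none⟩) (.spl (nat_lit 6) (nat_lit 28) (.spl (nat_lit 6) (nat_lit 16) (.leaf ⟨(nat_lit 686), (nat_lit 314), (nat_lit 0), (nat_lit 0), (nat_lit 0), (nat_lit 3230), (nat_lit 1718), (nat_lit 0), (nat_lit 0), (nat_lit 0), (nat_lit 367850), [((nat_lit 380), [((nat_lit 24), (nat_lit 0), (nat_lit 125)), ((nat_lit 41), (nat_lit 2), (nat_lit 561))])], ⟨(nat_lit 8), false, true, false, (nat_lit 294), (nat_lit 2236), (nat_lit 3163), [(nat_lit 1632548), (nat_lit 1636264), (nat_lit 1654639), (nat_lit 1658975), (nat_lit 1815720), (nat_lit 1807623), (nat_lit 1837812), (nat_lit 1830334)]⟩, ⟨(nat_lit 4), false, false, true, (nat_lit 182), (nat_lit 2236), (nat_lit 3163), [(nat_lit 1350426), (nat_lit 1351886), (nat_lit 1438942), (nat_lit 1442880), (nat_lit 1472332), (nat_lit 1465917), (nat_lit 1560952), (nat_lit 1557014)]⟩, (nat_lit 5230399), (nat_lit 36651875), (nat_lit 20754824), (nat_lit 9593301), (nat_lit 7), (nat_lit 0), [⟨(nat_lit 0), (nat_lit 75), (nat_lit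 46), (nat_lit 100), (nat_lit 1530378)⟩], [], [⟨(nat_lit 1), (nat_lit 60), (nat_lit 80), (nat_lit 100), (nat_lit 155433349)⟩], [],
 ⟨⟨[(nat_lit 40), (nat_lit 60)], [(nat_lit 0), (nat_lit 832)], [((nat_lit 0), (nat_lit 0), (nat_lit 0)), ((nat_lit 1000), (nat_lit 659), (nat_lit 528))], ((nat_lit 69), (nat_lit 100), (nat_lit 45))⟩, (nat_lit 110892), (nat_lit 59), (nat_lit 59), (nat_lit 0), (nat_lit 0), [(nat_lit 1481654437), (nat_lit 1460181200)], [(nat_lit 0), (nat_lit 0)], [(nat_lit 21180461983), (nat_lit 22473171508), (nat_lit 25577637380), (nat_lit 26761459950), (nat_lit 23270070873), (nat_lit 24403205803), (nat_lit 27208815160), (nat_lit 28250135920)], (nat_lit 0), (nat_lit 0), (nat_lit 0), (nat_lit 0), (nat_lit 0), (nat_lit 0), [], [(nat_lit 1), (nat_lit 38), (nat_lit 203), (nat_lit 0), (nat_lit 9)]⟩,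
 ⟨⟨[(nat_lit 40), (nat_lit 60), (nat_lit 80)], [(nat_lit 0), (nat_lit 0), (nat_lit 615)], [((nat_lit 0), (nat_lit 0), (nat_lit 0)), ((nat_lit 0), (nat_lit 0), (nat_lit 0)), ((nat_lit 1000), (nat_lit 819), (nat_lit 426))], ((nat_lit 82), (nat_lit 100), (nat_lit 40))⟩, (nat_lit 705009), (nat_lit 391), (nat_lit 391), (nat_lit 0), (nat_lit 1049904), [(nat_lit 638048000), (nat_lit 1030548000), (nat_lit 1472032000)], [], [(nat_lit 8799190483), (nat_lit 9025332041), (nat_lit 9504244288), (nat_lit 9694018669), (nat_lit 9538688928), (nat_lit 9738469939), (nat_lit 10112205716), (nat_lit 10361145597)], (nat_lit 1271251), (nat_lit 1271251), (nat_lit 1271251), (nat_lit 1271251), (nat_lit 1271251), (nat_lit 1271251), [(nat_lit 490000), (nat_lit 780000), (nat_lit 1100000)], [(nat_lit 2), (nat_lit 44), (nat_lit 226), (nat_lit 0), (nat_lit 8)]⟩,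
 Rw.none⟩) (.spl (nat_lit 2) (nat_lit 160) (.trX (nat_lit 5) (nat_lit 1) (nat_lit 2) (nat_lit 82) (nat_lit 76) (nat_lit 100) (nat_lit 340) (.leaf ⟨(nat_lit 663), (nat_lit 337), (nat_lit 0), (nat_lit 0), (nat_lit 0), (nat_lit 3461), (nat_lit 2124), (nat_lit 0), (nat_lit 0), (nat_lit 0), (nat_lit 265200), [((nat_lit 380), [((nat_lit 24), (nat_lit 1), (nat_lit 663))])], ⟨(nat_lit 8), false, true, false, (nat_lit 294), (nat_lit 2236), (nat_lit 3163), [(nat_lit 1632548), (nat_lit 1636264), (nat_lit 1654639), (nat_lit 1658975), (nat_lit 1815720), (nat_lit 1807623), (nat_lit 1837812), (nat_lit 1830334)]⟩, ⟨(nat_lit 4), false, false, true, (nat_lit 173), (nat_lit 2236), (nat_lit 3163), [(nat_lit 1350426), (nat_lit 1351886), (nat_lit 1394735), (nat_lit 1397434), (nat_lit 1472332), (nat_lit 1465917), (nat_lit 1516642), (nat_lit 1511466)]⟩, (nat_lit 5160753), (nat_lit 37102667), (nat_lit 20954263), (nat_lit 8943070), (nat_lit 7), (nat_lit 0), [⟨(nat_lit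 0), (nat_lit 75), (nat_lit 46), (nat_lit 100), (nat_lit 20082431)⟩], [], [⟨(nat_lit 1), (nat_lit 76), (nat_lit 82), (nat_lit 100), (nat_lit 157476035)⟩], [],
 ⟨⟨[(nat_lit 40), (nat_lit 60), (nat_lit 80)], [(nat_lit 0), (nat_lit 832), (nat_lit 1534)], [((nat_lit 0), (nat_lit 0), (nat_lit 0)), ((nat_lit 1000), (nat_lit 659), (nat_lit 528)), ((nat_lit 1000), (nat_lit 650), (nat_lit 549))], ((nat_lit 65), (nat_lit 100), (nat_lit 55))⟩, (nat_lit 0), (nat_lit 59), (nat_lit 59), (nat_lit 0), (nat_lit 0), [(nat_lit 1518214009), (nat_lit 1756304409), (nat_lit 2212623200)], [(nat_lit 0), (nat_lit 0), (nat_lit 0)], [(nat_lit 21317941961), (nat_lit 22654222129), (nat_lit 25795194566), (nat_lit 27015852165), (nat_lit 23415068284), (nat_lit 24584153374), (nat_lit 27405787012), (nat_lit 28476955744)], (nat_lit 0), (nat_lit 0), (nat_lit 0), (nat_lit 0), (nat_lit 0), (nat_lit 0), [], [(nat_lit 2), (nat_lit 44), (nat_lit 203), (nat_lit 0), (nat_lit 7)]⟩,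
 ⟨⟨[(nat_lit 40), (nat_lit 80), (nat_lit 100)], [(nat_lit 0), (nat_lit 0), (nat_lit 1280)], [((nat_lit 0), (nat_lit 0), (nat_lit 0)), ((nat_lit 0), (nat_lit 0), (nat_lit 0)), ((nat_lit 1000), (nat_lit 800), (nat_lit 600))], ((nat_lit 80), (nat_lit 100), (nat_lit 51))⟩, (nat_lit 455390), (nat_lit 357), (nat_lit 357), (nat_lit 0), (nat_lit 859290), [(nat_lit 684784000), (nat_lit 1579856000), (nat_lit 2106250000)], [], [(nat_lit 9519460275), (nat_lit 9795147240), (nat_lit 10313544694), (nat_lit 10542564365), (nat_lit 10147857547), (nat_lit 10403049238), (nat_lit 10817635386), (nat_lit 11046774652)], (nat_lit 1271251), (nat_lit 1271251), (nat_lit 1271251), (nat_lit 1271251), (nat_lit 1271251), (nat_lit 1271251), [(nat_lit 490000), (nat_lit 1100000), (nat_lit 1442501)], [(nat_lit 3), (nat_lit 50), (nat_lit 215), (nat_lit 0), (nat_lit 6)]⟩,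
 Rw.none⟩)) (.leaf ⟨(nat_lit 0), (nat_lit 888), (nat_lit 0), (nat_lit 112), (nat_lit 0), (nat_lit 4222), (nat_lit 6139), (nat_lit 1249), (nat_lit 0), (nat_lit 0), (nat_lit 0), [], Pd.none, Pd.none, (nat_lit 0), (nat_lit 1), (nat_lit 0), (nat_lit 0), (nat_lit 7), (nat_lit 0), [⟨(nat_lit 0), (nat_lit 75), (nat_lit 46), (nat_lit 100), (nat_lit 371829349)⟩], [], [⟨(nat_lit 1), (nat_lit 73), (nat_lit 76), (nat_lit 100), (nat_lit 491690198)⟩], [],
 ⟨⟨[(nat_lit 40), (nat_lit 60), (nat_lit 80)], [(nat_lit 0), (nat_lit 832), (nat_lit 1534)], [((nat_lit 0), (nat_lit 0), (nat_lit 0)), ((nat_lit 1000), (nat_lit 659), (nat_lit 528)), ((nat_lit 1000), (nat_lit 650), (nat_lit 549))], ((nat_lit 65), (nat_lit 100), (nat_lit 55))⟩, (nat_lit 670464), (nat_lit 59), (nat_lit 59), (nat_lit 0), (nat_lit 0), [(nat_lit 2032000003), (nat_lit 3282000001), (nat_lit 4688000000)], [], [(nat_lit 21852580942), (nat_lit 23332399027), (nat_lit 26511908932), (nat_lit 27853914830),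 (nat_lit 23974472488), (nat_lit 25260515290), (nat_lit 28054685624), (nat_lit 29224184688)], (nat_lit 0), (nat_lit 0), (nat_lit 0), (nat_lit 0), (nat_lit 0), (nat_lit 0), [], [(nat_lit 2), (nat_lit 44), (nat_lit 203), (nat_lit 0), (nat_lit 7)]⟩,
 ⟨⟨[(nat_lit 40), (nat_lit 80), (nat_lit 100)], [(nat_lit 0), (nat_lit 0), (nat_lit 1280)], [((nat_lit 0), (nat_lit 0), (nat_lit 0)), ((nat_lit 0), (nat_lit 0), (nat_lit 0)), ((nat_lit 1000), (nat_lit 800), (nat_lit 600))], ((nat_lit 80), (nat_lit 100), (nat_lit 51))⟩, (nat_lit 1380972), (nat_lit 315), (nat_lit 315), (nat_lit 0), (nat_lit 722134), [(nat_lit 2032000000), (nat_lit 4688000000), (nat_lit 6250000000)], [], [(nat_lit 27054957339), (nat_lit 28016463053), (nat_lit 29882815892), (nat_lit 30680447847), (nat_lit 30151156744), (nat_lit 30992282601), (nat_lit 32682801516), (nat_lit 33716313008)], (nat_lit 1271251), (nat_lit 1271251), (nat_lit 1271251), (nat_lit 1271251), (nat_lit 1271251), (nat_lit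 1271251), [(nat_lit 490000), (nat_lit 1100000), (nat_lit 1442501)], [(nat_lit 3), (nat_lit 50), (nat_lit 207), (nat_lit 0), (nat_lit 6)]⟩,
 ⟨⟨[(nat_lit 120), (nat_lit 160), (nat_lit 180)], [(nat_lit 0), (nat_lit 0), (nat_lit 1613)], [((nat_lit 0), (nat_lit 0), (nat_lit 0)), ((nat_lit 0), (nat_lit 0), (nat_lit 0)), ((nat_lit 620), (nat_lit 1000), (nat_lit 670))], ((nat_lit 100), (nat_lit 76), (nat_lit 52))⟩, (nat_lit 48744), (nat_lit 300), (nat_lit 2303), (nat_lit 8310400), (nat_lit 4306823), [(nat_lit 892416000), (nat_lit 1329664000), (nat_lit 1574496000)], [], [(nat_lit 5600524965), (nat_lit 5455989913), (nat_lit 5316279266), (nat_lit 5175159847), (nat_lit 5494889352), (nat_lit 5362687635), (nat_lit 5230485918), (nat_lit 5093675263)], (nat_lit 1100000), (nat_lit 1442501), (nat_lit 1100000), (nat_lit 1785001), (nat_lit 1271251), (nat_lit 1271251), [(nat_lit 1695001), (nat_lit 1271251), (nat_lit 1271251)], [(nat_lit 28), (nat_lit 65), (nat_lit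 676), (nat_lit 200), (nat_lit 15)]⟩⟩))) (.spl (nat_lit 0) (nat_lit 370) (.leaf ⟨(nat_lit 0), (nat_lit 1000), (nat_lit 0), (nat_lit 0), (nat_lit 0), (nat_lit 4309), (nat_lit 6480), (nat_lit 0), (nat_lit 0), (nat_lit 0), (nat_lit 0), [], Pd.none, Pd.none, (nat_lit 0), (nat_lit 1), (nat_lit 0), (nat_lit 0), (nat_lit 7), (nat_lit 0), [⟨(nat_lit 0), (nat_lit 76), (nat_lit 57), (nat_lit 100), (nat_lit 208775380)⟩], [], [⟨(nat_lit 1), (nat_lit 60), (nat_lit 80), (nat_lit 100), (nat_lit 556437018)⟩], [],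
 ⟨⟨[(nat_lit 40), (nat_lit 80), (nat_lit 100)], [(nat_lit 0), (nat_lit 1598), (nat_lit 2533)], [((nat_lit 0), (nat_lit 0), (nat_lit 0)), ((nat_lit 1000), (nat_lit 625), (nat_lit 623)), ((nat_lit 1000), (nat_lit 604), (nat_lit 730))], ((nat_lit 61), (nat_lit 100), (nat_lit 68))⟩, (nat_lit 1454061), (nat_lit 65), (nat_lit 65), (nat_lit 0), (nat_lit 0), [(nat_lit 2032000021), (nat_lit 4688000005), (nat_lit 6250000000)], [], [(nat_lit 21875536592), (nat_lit 22581878815), (nat_lit 26593846054), (nat_lit 27271785470), (nat_lit 23871217961), (nat_lit 24485791205), (nat_lit 28128869828), (nat_lit 28719240082)], (nat_lit 0), (nat_lit 0), (nat_lit 0), (nat_lit 0), (nat_lit 0), (nat_lit 0), [], [(nat_lit 3), (nat_lit 50), (nat_lit 272), (nat_lit 60), (nat_lit 9)]⟩,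
 ⟨⟨[(nat_lit 40), (nat_lit 80), (nat_lit 120)], [(nat_lit 0), (nat_lit 0), (nat_lit 2151)], [((nat_lit 0), (nat_lit 0), (nat_lit 0)), ((nat_lit 0), (nat_lit 0), (nat_lit 0)), ((nat_lit 1000), (nat_lit 815), (nat_lit 753))], ((nat_lit 80), (nat_lit 100), (nat_lit 68))⟩, (nat_lit 1824700), (nat_lit 319), (nat_lit 319), (nat_lit 0), (nat_lit 681047), [(nat_lit 2032000000), (nat_lit 4688000000), (nat_lit 7968000000)], [], [(nat_lit 26402974060), (nat_lit 27317026500), (nat_lit 28987359440), (nat_lit 30172926500), (nat_lit 29309366180), (nat_lit 30708189060), (nat_lit 33023339120), (nat_lit 34083550400)], (nat_lit 1271251), (nat_lit 1271251), (nat_lit 1271251), (nat_lit 1271251), (nat_lit 1271251), (nat_lit 1271251), [(nat_lit 490000), (nat_lit 1100000), (nat_lit 1785001)], [(nat_lit 4), (nat_lit 51), (nat_lit 317), (nat_lit 100), (nat_lit 9)]⟩,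
 Rw.none⟩) (.trZ (nat_lit 0) (nat_lit 1) (nat_lit 3) (nat_lit 80) (nat_lit 53) (nat_lit 100) (nat_lit 210) (.leaf ⟨(nat_lit 470), (nat_lit 530), (nat_lit 0), (nat_lit 0), (nat_lit 0), (nat_lit 3741), (nat_lit 3210), (nat_lit 0), (nat_lit 0), (nat_lit 0), (nat_lit 117500), [((nat_lit 380), [((nat_lit 25), (nat_lit 0), (nat_lit 470))])], ⟨(nat_lit 8), false, true, false, (nat_lit 296), (nat_lit 2236), (nat_lit 2739), [(nat_lit 1649156), (nat_lit 1650786), (nat_lit 1671554), (nat_lit 1673540), (nat_lit 1811671), (nat_lit 1807675), (nat_lit 1834068), (nat_lit 1830429)]⟩, ⟨(nat_lit 4), false, false, true, (nat_lit 182), (nat_lit 2236), (nat_lit 2739), [(nat_lit 1351268), (nat_lit 1351886), (nat_lit 1440903), (nat_lit 1442949), (nat_lit 1469390), (nat_lit 1465917), (nat_lit 1559060), (nat_lit 1557014)]⟩, (nat_lit 5235994), (nat_lit 36456503), (nat_lit 20995626), (nat_lit 9547871), (nat_lit 7), (nat_lit 0), [⟨(nat_lit 0), (nat_lit 78), (nat_lit 49),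 (nat_lit 100), (nat_lit 123696684)⟩], [], [⟨(nat_lit 1), (nat_lit 60), (nat_lit 80), (nat_lit 100), (nat_lit 278184186)⟩], [],
 ⟨⟨[(nat_lit 40), (nat_lit 60), (nat_lit 80)], [(nat_lit 0), (nat_lit 1134), (nat_lit 1930)], [((nat_lit 0), (nat_lit 0), (nat_lit 0)), ((nat_lit 1000), (nat_lit 575), (nat_lit 619)), ((nat_lit 1000), (nat_lit 574), (nat_lit 622))], ((nat_lit 55), (nat_lit 100), (nat_lit 70))⟩, (nat_lit 0), (nat_lit 59), (nat_lit 59), (nat_lit 0), (nat_lit 0), [(nat_lit 1671107554), (nat_lit 2382796012), (nat_lit 3290972000)], [(nat_lit 0), (nat_lit 0), (nat_lit 0)], [(nat_lit 22716475526), (nat_lit 23398983346), (nat_lit 26784179509), (nat_lit 27359702718), (nat_lit 24692439940), (nat_lit 25288280134), (nat_lit 28246770153), (nat_lit 28752225210)], (nat_lit 0), (nat_lit 0), (nat_lit 0), (nat_lit 0), (nat_lit 0), (nat_lit 0), [], [(nat_lit 2), (nat_lit 44), (nat_lit 203), (nat_lit 0), (nat_lit 7)]⟩,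
 ⟨⟨[(nat_lit 40), (nat_lit 80), (nat_lit 120)], [(nat_lit 0), (nat_lit 0), (nat_lit 2151)], [((nat_lit 0), (nat_lit 0), (nat_lit 0)), ((nat_lit 0), (nat_lit 0), (nat_lit 0)), ((nat_lit 1000), (nat_lit 815), (nat_lit 753))], ((nat_lit 80), (nat_lit 100), (nat_lit 68))⟩, (nat_lit 973898), (nat_lit 364), (nat_lit 364), (nat_lit 0), (nat_lit 755289), [(nat_lit 1076960000), (nat_lit 2484640000), (nat_lit 4223040000)], [], [(nat_lit 14667883357), (nat_lit 15129322321), (nat_lit 15952568620), (nat_lit 16372989635), (nat_lit 16142933215), (nat_lit 16578375376), (nat_lit 17278870400), (nat_lit 17822615815)], (nat_lit 1271251), (nat_lit 1271251), (nat_lit 1271251), (nat_lit 1271251), (nat_lit 1271251), (nat_lit 1271251), [(nat_lit 490000), (nat_lit 1100000), (nat_lit 1785001)], [(nat_lit 4), (nat_lit 51), (nat_lit 317), (nat_lit 100), (nat_lit 9)]⟩,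
 Rw.none⟩))))) (.trZ (nat_lit 0) (nat_lit 1) (nat_lit 3) (nat_lit 72) (nat_lit 61) (nat_lit 100) (nat_lit 220) (.trX (nat_lit 5) (nat_lit 1) (nat_lit 2) (nat_lit 71) (nat_lit 70) (nat_lit 100) (nat_lit 350) (.leaf ⟨(nat_lit 0), (nat_lit 1000), (nat_lit 0), (nat_lit 0), (nat_lit 0), (nat_lit 4246), (nat_lit 4845), (nat_lit 0), (nat_lit 0), (nat_lit 0), (nat_lit 0), [], Pd.none, Pd.none, (nat_lit 0), (nat_lit 1), (nat_lit 0), (nat_lit 0), (nat_lit 5), (nat_lit 0), [⟨(nat_lit 0), (nat_lit 68), (nat_lit 49), (nat_lit 100), (nat_lit 215637556)⟩], [], [⟨(nat_lit 1), (nat_lit 70), (nat_lit 71), (nat_lit 100), (nat_lit 500234457)⟩], [],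
 ⟨⟨[(nat_lit 40), (nat_lit 80), (nat_lit 100)], [(nat_lit 0), (nat_lit 1598), (nat_lit 2533)], [((nat_lit 0), (nat_lit 0), (nat_lit 0)), ((nat_lit 1000), (nat_lit 625), (nat_lit 623)), ((nat_lit 1000), (nat_lit 604), (nat_lit 730))], ((nat_lit 61), (nat_lit 100), (nat_lit 68))⟩, (nat_lit 1403118), (nat_lit 70), (nat_lit 70), (nat_lit 0), (nat_lit 0), [(nat_lit 2032000005), (nat_lit 4688000002), (nat_lit 6250000000)], [], [(nat_lit 22584885719), (nat_lit 23937328891), (nat_lit 26534512276), (nat_lit 27880345190), (nat_lit 24489735168), (nat_lit 25668434846), (nat_lit 28075150232), (nat_lit 29247750384)], (nat_lit 0), (nat_lit 0), (nat_lit 0), (nat_lit 0), (nat_lit 0), (nat_lit 0), [], [(nat_lit 3), (nat_lit 50), (nat_lit 272), (nat_lit 60), (nat_lit 9)]⟩,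
 ⟨⟨[(nat_lit 40), (nat_lit 80), (nat_lit 100)], [(nat_lit 0), (nat_lit 795), (nat_lit 1829)], [((nat_lit 0), (nat_lit 0), (nat_lit 0)), ((nat_lit 1000), (nat_lit 814), (nat_lit 310)), ((nat_lit 1000), (nat_lit 714), (nat_lit 692))], ((nat_lit 71), (nat_lit 100), (nat_lit 67))⟩, (nat_lit 2813650), (nat_lit 437), (nat_lit 437), (nat_lit 0), (nat_lit 1042699), [(nat_lit 2032000000), (nat_lit 4688000000), (nat_lit 6250000000)], [], [(nat_lit 25186357705), (nat_lit 26003334682), (nat_lit 27582129225), (nat_lit 28259279300), (nat_lit 28759347930), (nat_lit 29953515696), (nat_lit 31829714785), (nat_lit 32788846029)], (nat_lit 1271251), (nat_lit 1271251), (nat_lit 1271251), (nat_lit 1271251), (nat_lit 1271251), (nat_lit 1271251), [(nat_lit 490000), (nat_lit 1100000), (nat_lit 1442501)], [(nat_lit 3), (nat_lit 50), (nat_lit 238), (nat_lit 0), (nat_lit 7)]⟩,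
 Rw.none⟩)))) (.trZ (nat_lit 0) (nat_lit 1) (nat_lit 3) (nat_lit 63) (nat_lit 63) (nat_lit 100) (nat_lit 250) (.trX (nat_lit 5) (nat_lit 1) (nat_lit 2) (nat_lit 60) (nat_lit 80) (nat_lit 100) (nat_lit 320) (.leaf ⟨(nat_lit 0), (nat_lit 1000), (nat_lit 0), (nat_lit 0), (nat_lit 0), (nat_lit 3794), (nat_lit 4568), (nat_lit 0), (nat_lit 305983), (nat_lit 0), (nat_lit 0), [], Pd.none, Pd.none, (nat_lit 0), (nat_lit 1), (nat_lit 0), (nat_lit 0), (nat_lit 5), (nat_lit 0), [⟨(nat_lit 0), (nat_lit 59), (nat_lit 59), (nat_lit 100), (nat_lit 334544471)⟩], [], [⟨(nat_lit 1), (nat_lit 80), (nat_lit 60), (nat_lit 100), (nat_lit 411460876)⟩], [],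
 ⟨⟨[(nat_lit 40), (nat_lit 80), (nat_lit 100)], [(nat_lit 0), (nat_lit 1598), (nat_lit 2533)], [((nat_lit 0), (nat_lit 0), (nat_lit 0)), ((nat_lit 1000), (nat_lit 625), (nat_lit 623)), ((nat_lit 1000), (nat_lit 604), (nat_lit 730))], ((nat_lit 61), (nat_lit 100), (nat_lit 68))⟩, (nat_lit 1630580), (nat_lit 70), (nat_lit 70), (nat_lit 0), (nat_lit 0), [(nat_lit 2032000052), (nat_lit 4688000041), (nat_lit 6250000000)], [], [(nat_lit 23748407981), (nat_lit 24956788492), (nat_lit 26468307705), (nat_lit 27508981035), (nat_lit 25519985454), (nat_lit 26579201858), (nat_lit 27886683417), (nat_lit 28803929776)], (nat_lit 0), (nat_lit 0), (nat_lit 0), (nat_lit 0), (nat_lit 0), (nat_lit 0), [], [(nat_lit 3), (nat_lit 50), (nat_lit 272), (nat_lit 60), (nat_lit 9)]⟩,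
 ⟨⟨[(nat_lit 40), (nat_lit 80), (nat_lit 100)], [(nat_lit 0), (nat_lit 1598), (nat_lit 2533)], [((nat_lit 0), (nat_lit 0), (nat_lit 0)), ((nat_lit 1000), (nat_lit 625), (nat_lit 623)), ((nat_lit 1000), (nat_lit 604), (nat_lit 730))], ((nat_lit 61), (nat_lit 100), (nat_lit 68))⟩, (nat_lit 1785738), (nat_lit 433), (nat_lit 433), (nat_lit 0), (nat_lit 1032009), [(nat_lit 2032000000), (nat_lit 4688000000), (nat_lit 6250000000)], [], [(nat_lit 27093760588), (nat_lit 27882051052), (nat_lit 28846862134), (nat_lit 29536073618), (nat_lit 29500524072), (nat_lit 30241630592), (nat_lit 31113931792), (nat_lit 32127389224)], (nat_lit 1271251), (nat_lit 1271251), (nat_lit 1271251), (nat_lit 1271251), (nat_lit 1271251), (nat_lit 1271251), [(nat_lit 490000), (nat_lit 1100000), (nat_lit 1442501)], [(nat_lit 3), (nat_lit 50), (nat_lit 236), (nat_lit 0), (nat_lit 7)]⟩,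
 Rw.none⟩))))
noncomputable def c18_8 : Tr Lf :=
 (.spl (nat_lit 1) (nat_lit 360) (.spl (nat_lit 1) (nat_lit 340) (.spl (nat_lit 2) (nat_lit 160) (.trX (nat_lit 4) (nat_lit 0) (nat_lit 2) (nat_lit 61) (nat_lit 92) (nat_lit 100) (nat_lit 290) (.trX (nat_lit 5) (nat_lit 1) (nat_lit 2) (nat_lit 82) (nat_lit 76) (nat_lit 100) (nat_lit 340) (.spl (nat_lit 6) (nat_lit 28) (.spl (nat_lit 6) (nat_lit 16) (.leaf ⟨(nat_lit 616), (nat_lit 384), (nat_lit 0), (nat_lit 0), (nat_lit 0), (nat_lit 3263), (nat_lit 2250), (nat_lit 0), (nat_lit 0), (nat_lit 0), (nat_lit 319200), [((nat_lit 380), [((nat_lit 24), (nat_lit 0), (nat_lit 144)), ((nat_lit 41), (nat_lit 2), (nat_lit 472))])], ⟨(nat_lit 8), false, true, false, (nat_lit 294), (nat_lit 2236), (nat_lit 3163), [(nat_lit 1632548), (nat_lit 1636264), (nat_lit 1654639), (nat_lit 1658975), (nat_lit 1815720), (nat_lit 1807623), (nat_lit 1837812), (nat_lit 1830334)]⟩, ⟨(nat_lit 6), false, false, true, (nat_lit 211),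 (nat_lit 2236), (nat_lit 3163), [(nat_lit 1472332), (nat_lit 1465917), (nat_lit 1516642), (nat_lit 1511466), (nat_lit 1548524), (nat_lit 1537186), (nat_lit 1592834), (nat_lit 1582735)]⟩, (nat_lit 5429694), (nat_lit 35156104), (nat_lit 20075371), (nat_lit 11768525), (nat_lit 6), (nat_lit 0), [⟨(nat_lit 0), (nat_lit 80), (nat_lit 60), (nat_lit 100), (nat_lit 19690063)⟩], [⟨(nat_lit 1), (nat_lit 92), (nat_lit 61), (nat_lit 100), (nat_lit 405511419)⟩], [⟨(nat_lit 1), (nat_lit 76), (nat_lit 82), (nat_lit 100), (nat_lit 164327941)⟩], [],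
 ⟨⟨[(nat_lit 40), (nat_lit 60)], [(nat_lit 0), (nat_lit 832)], [((nat_lit 0), (nat_lit 0), (nat_lit 0)), ((nat_lit 1000), (nat_lit 659), (nat_lit 528))], ((nat_lit 69), (nat_lit 100), (nat_lit 45))⟩, (nat_lit 332672), (nat_lit 55), (nat_lit 55), (nat_lit 0), (nat_lit 0), [(nat_lit 1521190405), (nat_lit 1674851200)], [(nat_lit 0), (nat_lit 0)], [(nat_lit 23299763379), (nat_lit 24453918282), (nat_lit 27236953996), (nat_lit 28282538752), (nat_lit 25176046326), (nat_lit 26373286031), (nat_lit 28845546106), (nat_lit 29793057960)], (nat_lit 0), (nat_lit 0), (nat_lit 0), (nat_lit 0), (nat_lit 0), (nat_lit 0), [], [(nat_lit 1), (nat_lit 38), (nat_lit 203), (nat_lit 0), (nat_lit 8)]⟩,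
 ⟨⟨[(nat_lit 40), (nat_lit 60), (nat_lit 80)], [(nat_lit 0), (nat_lit 0), (nat_lit 615)], [((nat_lit 0), (nat_lit 0), (nat_lit 0)), ((nat_lit 0), (nat_lit 0), (nat_lit 0)), ((nat_lit 1000), (nat_lit 819), (nat_lit 426))], ((nat_lit 82), (nat_lit 100), (nat_lit 40))⟩, (nat_lit 1045367), (nat_lit 385), (nat_lit 385), (nat_lit 0), (nat_lit 1049904), [(nat_lit 780288000), (nat_lit 1260288000), (nat_lit 1800192000)], [], [(nat_lit 9259080732), (nat_lit 9608214365), (nat_lit 10386479028), (nat_lit 10662128649), (nat_lit 10662128649), (nat_lit 11008642397), (nat_lit 12006378936), (nat_lit 12418902677)], (nat_lit 1271251), (nat_lit 1271251), (nat_lit 1271251), (nat_lit 1271251), (nat_lit 1271251), (nat_lit 1271251), [(nat_lit 490000), (nat_lit 780000), (nat_lit 1100000)], [(nat_lit 2), (nat_lit 44), (nat_lit 222), (nat_lit 0), (nat_lit 8)]⟩,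
 Rw.none⟩) (.leaf ⟨(nat_lit 541), (nat_lit 459), (nat_lit 0), (nat_lit 0), (nat_lit 0), (nat_lit 3542), (nat_lit 3086), (nat_lit 0), (nat_lit 0), (nat_lit 0), (nat_lit 216400), [((nat_lit 380), [((nat_lit 24), (nat_lit 1), (nat_lit 541))])], ⟨(nat_lit 8), false, true, false, (nat_lit 294), (nat_lit 2236), (nat_lit 3163), [(nat_lit 1632548), (nat_lit 1636264), (nat_lit 1654639), (nat_lit 1658975), (nat_lit 1815720), (nat_lit 1807623), (nat_lit 1837812), (nat_lit 1830334)]⟩, ⟨(nat_lit 6), false, false, true, (nat_lit 211), (nat_lit 2236), (nat_lit 3163), [(nat_lit 1472332), (nat_lit 1465917), (nat_lit 1516642), (nat_lit 1511466), (nat_lit 1548524), (nat_lit 1537186), (nat_lit 1592834), (nat_lit 1582735)]⟩, (nat_lit 5429694), (nat_lit 35156104), (nat_lit 20075371), (nat_lit 11768525), (nat_lit 6), (nat_lit 0), [⟨(nat_lit 0), (nat_lit 77), (nat_lit 53), (nat_lit 100), (nat_lit 33554667)⟩], [⟨(nat_lit 1), (nat_lit 92), (nat_lit 61), (nat_lit 100),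 (nat_lit 473582777)⟩], [⟨(nat_lit 1), (nat_lit 89), (nat_lit 80), (nat_lit 100), (nat_lit 89478835)⟩, ⟨(nat_lit 1), (nat_lit 76), (nat_lit 82), (nat_lit 100), (nat_lit 104997561)⟩], [],
 ⟨⟨[(nat_lit 40), (nat_lit 60), (nat_lit 80)], [(nat_lit 0), (nat_lit 832), (nat_lit 1534)], [((nat_lit 0), (nat_lit 0), (nat_lit 0)), ((nat_lit 1000), (nat_lit 659), (nat_lit 528)), ((nat_lit 1000), (nat_lit 650), (nat_lit 549))], ((nat_lit 65), (nat_lit 100), (nat_lit 55))⟩, (nat_lit 0), (nat_lit 57), (nat_lit 57), (nat_lit 0), (nat_lit 0), [(nat_lit 1569699699), (nat_lit 2037051589), (nat_lit 2668122400)], [(nat_lit 0), (nat_lit 0), (nat_lit 0)], [(nat_lit 23649137740), (nat_lit 24830364662), (nat_lit 27474855064), (nat_lit 28556489968), (nat_lit 25527215833), (nat_lit 26637172060), (nat_lit 29108897554), (nat_lit 30086602648)], (nat_lit 0), (nat_lit 0), (nat_lit 0), (nat_lit 0), (nat_lit 0), (nat_lit 0), [], [(nat_lit 2), (nat_lit 44), (nat_lit 203), (nat_lit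 0), (nat_lit 7)]⟩,
 ⟨⟨[(nat_lit 40), (nat_lit 80), (nat_lit 100)], [(nat_lit 0), (nat_lit 0), (nat_lit 1280)], [((nat_lit 0), (nat_lit 0), (nat_lit 0)), ((nat_lit 0), (nat_lit 0), (nat_lit 0)), ((nat_lit 1000), (nat_lit 800), (nat_lit 600))], ((nat_lit 80), (nat_lit 100), (nat_lit 51))⟩, (nat_lit 606855), (nat_lit 357), (nat_lit 357), (nat_lit 0), (nat_lit 859290), [(nat_lit 932688000), (nat_lit 2151792000), (nat_lit 2868750000)], [], [(nat_lit 11475373454), (nat_lit 11929494077), (nat_lit 12801783258), (nat_lit 13153077079), (nat_lit 13153077079), (nat_lit 13509946934), (nat_lit 14709464581), (nat_lit 15237043577)], (nat_lit 1271251), (nat_lit 1271251), (nat_lit 1271251), (nat_lit 1271251), (nat_lit 1271251), (nat_lit 1271251), [(nat_lit 490000), (nat_lit 1100000), (nat_lit 1442501)], [(nat_lit 3), (nat_lit 50), (nat_lit 215), (nat_lit 0), (nat_lit 6)]⟩,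
 Rw.none⟩)) (.leaf ⟨(nat_lit 35), (nat_lit 965), (nat_lit 0), (nat_lit 0), (nat_lit 0), (nat_lit 4078), (nat_lit 6111), (nat_lit 0), (nat_lit 0), (nat_lit 0), (nat_lit 140000), [((nat_lit 380), [((nat_lit 41), (nat_lit 5), (nat_lit 35))])], ⟨(nat_lit 8), false, true, false, (nat_lit 294), (nat_lit 2236), (nat_lit 3163), [(nat_lit 1632548), (nat_lit 1636264), (nat_lit 1654639), (nat_lit 1658975), (nat_lit 1815720), (nat_lit 1807623), (nat_lit 1837812), (nat_lit 1830334)]⟩, ⟨(nat_lit 6), false, false, true, (nat_lit 211), (nat_lit 2236), (nat_lit 3163), [(nat_lit 1472332), (nat_lit 1465917), (nat_lit 1516642), (nat_lit 1511466), (nat_lit 1548524), (nat_lit 1537186), (nat_lit 1592834), (nat_lit 1582735)]⟩, (nat_lit 5429694), (nat_lit 35156104), (nat_lit 20075371), (nat_lit 11768525), (nat_lit 6), (nat_lit 0), [⟨(nat_lit 0), (nat_lit 77), (nat_lit 53), (nat_lit 100), (nat_lit 312203964)⟩], [⟨(nat_lit 1), (nat_lit 100), (nat_lit 54), (nat_lit 98),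 (nat_lit 730694454)⟩], [⟨(nat_lit 1), (nat_lit 76), (nat_lit 82), (nat_lit 100), (nat_lit 427271001)⟩], [],
 ⟨⟨[(nat_lit 40), (nat_lit 80), (nat_lit 100)], [(nat_lit 0), (nat_lit 1598), (nat_lit 2533)], [((nat_lit 0), (nat_lit 0), (nat_lit 0)), ((nat_lit 1000), (nat_lit 625), (nat_lit 623)), ((nat_lit 1000), (nat_lit 604), (nat_lit 730))], ((nat_lit 61), (nat_lit 100), (nat_lit 68))⟩, (nat_lit 953104), (nat_lit 65), (nat_lit 65), (nat_lit 0), (nat_lit 0), [(nat_lit 1896298022), (nat_lit 3926274001), (nat_lit 5059300000)], [(nat_lit 0), (nat_lit 0), (nat_lit 0)], [(nat_lit 24080103877), (nat_lit 25276622014), (nat_lit 27931897976), (nat_lit 29082790512), (nat_lit 25952131570), (nat_lit 27144135902), (nat_lit 29614834386), (nat_lit 30650545132)], (nat_lit 0), (nat_lit 0), (nat_lit 0), (nat_lit 0), (nat_lit 0), (nat_lit 0), [], [(nat_lit 3), (nat_lit 50), (nat_lit 203), (nat_lit 0), (nat_lit 6)]⟩,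
 ⟨⟨[(nat_lit 40), (nat_lit 80), (nat_lit 120)], [(nat_lit 0), (nat_lit 0), (nat_lit 2151)], [((nat_lit 0), (nat_lit 0), (nat_lit 0)), ((nat_lit 0), (nat_lit 0), (nat_lit 0)), ((nat_lit 1000), (nat_lit 815), (nat_lit 753))], ((nat_lit 80), (nat_lit 100), (nat_lit 68))⟩, (nat_lit 1826868), (nat_lit 369), (nat_lit 369), (nat_lit 0), (nat_lit 755440), [(nat_lit 1960880000), (nat_lit 4523920000), (nat_lit 7689120000)], [], [(nat_lit 23868101842), (nat_lit 24893338809), (nat_lit 26924872018), (nat_lit 27718644051), (nat_lit 27718644051), (nat_lit 28587933892), (nat_lit 30584692455), (nat_lit 31661088684)], (nat_lit 1271251), (nat_lit 1271251), (nat_lit 1271251), (nat_lit 1271251), (nat_lit 1271251), (nat_lit 1271251), [(nat_lit 490000), (nat_lit 1100000), (nat_lit 1785001)], [(nat_lit 4), (nat_lit 51), (nat_lit 401), (nat_lit 175), (nat_lit 12)]⟩,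
 Rw.none⟩)))) (.stt (nat_lit 2) (.leaf ⟨(nat_lit 0), (nat_lit 1000), (nat_lit 0), (nat_lit 0), (nat_lit 0), (nat_lit 5879), (nat_lit 5879), (nat_lit 0), (nat_lit 0), (nat_lit 0), (nat_lit 0), [], Pd.none, Pd.none, (nat_lit 0), (nat_lit 1), (nat_lit 0), (nat_lit 0), (nat_lit 6), (nat_lit 0), [⟨(nat_lit 0), (nat_lit 80), (nat_lit 60), (nat_lit 100), (nat_lit 121089378)⟩], [⟨(nat_lit 1), (nat_lit 80), (nat_lit 60), (nat_lit 100), (nat_lit 363374144)⟩], [⟨(nat_lit 1), (nat_lit 60), (nat_lit 80), (nat_lit 100), (nat_lit 131330323)⟩], [],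
 ⟨⟨[(nat_lit 40), (nat_lit 80), (nat_lit 100)], [(nat_lit 0), (nat_lit 1598), (nat_lit 2533)], [((nat_lit 0), (nat_lit 0), (nat_lit 0)), ((nat_lit 1000), (nat_lit 625), (nat_lit 623)), ((nat_lit 1000), (nat_lit 604), (nat_lit 730))], ((nat_lit 61), (nat_lit 100), (nat_lit 68))⟩, (nat_lit 0), (nat_lit 67), (nat_lit 67), (nat_lit 0), (nat_lit 0), [(nat_lit 2686952964), (nat_lit 4688000005), (nat_lit 6250000000)], [], [(nat_lit 25237218146), (nat_lit 26783912008), (nat_lit 29467596268), (nat_lit 30851199616), (nat_lit 28770251645), (nat_lit 30264955276), (nat_lit 32423154076), (nat_lit 33561974572)], (nat_lit 0), (nat_lit 0), (nat_lit 0), (nat_lit 0), (nat_lit 0), (nat_lit 0), [], [(nat_lit 3), (nat_lit 50), (nat_lit 203), (nat_lit 0), (nat_lit 6)]⟩,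
 ⟨⟨[(nat_lit 40), (nat_lit 80), (nat_lit 120)], [(nat_lit 0), (nat_lit 0), (nat_lit 2151)], [((nat_lit 0), (nat_lit 0), (nat_lit 0)), ((nat_lit 0), (nat_lit 0), (nat_lit 0)), ((nat_lit 1000), (nat_lit 815), (nat_lit 753))], ((nat_lit 80), (nat_lit 100), (nat_lit 68))⟩, (nat_lit 0), (nat_lit 66), (nat_lit 66), (nat_lit 0), (nat_lit 0), [(nat_lit 2032000000), (nat_lit 4688000000), (nat_lit 7968000000)], [], [(nat_lit 20852340161), (nat_lit 22525962279), (nat_lit 26218876686), (nat_lit 27494564163), (nat_lit 28770251640), (nat_lit 30096312763), (nat_lit 32423154076), (nat_lit 33436307958)], (nat_lit 0), (nat_lit 0), (nat_lit 0), (nat_lit 0), (nat_lit 0), (nat_lit 0), [], [(nat_lit 4), (nat_lit 51), (nat_lit 401), (nat_lit 175), (nat_lit 12)]⟩,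
 Rw.none⟩) (.leaf ⟨(nat_lit 36), (nat_lit 778), (nat_lit 0), (nat_lit 186), (nat_lit 0), (nat_lit 3585), (nat_lit 6214), (nat_lit 2019), (nat_lit 0), (nat_lit 0), (nat_lit 144000), [((nat_lit 380), [((nat_lit 41), (nat_lit 5), (nat_lit 36))])], ⟨(nat_lit 8), false, true, false, (nat_lit 294), (nat_lit 2236), (nat_lit 3163), [(nat_lit 1632548), (nat_lit 1636264), (nat_lit 1654639), (nat_lit 1658975), (nat_lit 1815720), (nat_lit 1807623), (nat_lit 1837812), (nat_lit 1830334)]⟩, ⟨(nat_lit 6), false, false, true, (nat_lit 238), (nat_lit 2236), (nat_lit 3163), [(nat_lit 1516642), (nat_lit 1511466), (nat_lit 1560952), (nat_lit 1557014), (nat_lit 1638549), (nat_lit 1625497), (nat_lit 1682859), (nat_lit 1671045)]⟩, (nat_lit 5574453), (nat_lit 33775966), (nat_lit 19426079), (nat_lit 13797955), (nat_lit 6), (nat_lit 0), [⟨(nat_lit 0), (nat_lit 75), (nat_lit 46), (nat_lit 100), (nat_lit 361219681)⟩], [⟨(nat_lit 1), (nat_lit 90), (nat_lit 53), (nat_lit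 100), (nat_lit 489554819)⟩], [⟨(nat_lit 1), (nat_lit 73), (nat_lit 76), (nat_lit 100), (nat_lit 285074641)⟩], [],
 ⟨⟨[(nat_lit 40), (nat_lit 80), (nat_lit 100)], [(nat_lit 0), (nat_lit 1598), (nat_lit 2533)], [((nat_lit 0), (nat_lit 0), (nat_lit 0)), ((nat_lit 1000), (nat_lit 625), (nat_lit 623)), ((nat_lit 1000), (nat_lit 604), (nat_lit 730))], ((nat_lit 61), (nat_lit 100), (nat_lit 68))⟩, (nat_lit 2510876), (nat_lit 67), (nat_lit 67), (nat_lit 0), (nat_lit 0), [(nat_lit 1894139207), (nat_lit 4463097578), (nat_lit 5025280000)], [(nat_lit 0), (nat_lit 0), (nat_lit 0)], [(nat_lit 23680626934), (nat_lit 24923811654), (nat_lit 27615426064), (nat_lit 28598711840), (nat_lit 26825971254), (nat_lit 27875844724), (nat_lit 30132264740), (nat_lit 31051723780)], (nat_lit 0), (nat_lit 0), (nat_lit 0), (nat_lit 0), (nat_lit 0), (nat_lit 0), [], [(nat_lit 3), (nat_lit 50), (nat_lit 203), (nat_lit 0), (nat_lit 6)]⟩,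
 ⟨⟨[(nat_lit 40), (nat_lit 80), (nat_lit 120)], [(nat_lit 0), (nat_lit 0), (nat_lit 2151)], [((nat_lit 0), (nat_lit 0), (nat_lit 0)), ((nat_lit 0), (nat_lit 0), (nat_lit 0)), ((nat_lit 1000), (nat_lit 815), (nat_lit 753))], ((nat_lit 80), (nat_lit 100), (nat_lit 68))⟩, (nat_lit 2498278), (nat_lit 424), (nat_lit 424), (nat_lit 0), (nat_lit 914815), [(nat_lit 1958848000), (nat_lit 4519232000), (nat_lit 7681152000)], [], [(nat_lit 24740064558), (nat_lit 25738895452), (nat_lit 27774101108), (nat_lit 28549711134), (nat_lit 29325321160), (nat_lit 30022988045), (nat_lit 31801823280), (nat_lit 32821305027)], (nat_lit 1271251), (nat_lit 1271251), (nat_lit 1271251), (nat_lit 1271251), (nat_lit 1271251), (nat_lit 1271251), [(nat_lit 490000), (nat_lit 1100000), (nat_lit 1785001)], [(nat_lit 4), (nat_lit 51), (nat_lit 401), (nat_lit 175), (nat_lit 12)]⟩,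
 ⟨⟨[(nat_lit 120), (nat_lit 160), (nat_lit 200)], [(nat_lit 0), (nat_lit 0), (nat_lit 3198)], [((nat_lit 0), (nat_lit 0), (nat_lit 0)), ((nat_lit 0), (nat_lit 0), (nat_lit 0)), ((nat_lit 572), (nat_lit 1000), (nat_lit 714))], ((nat_lit 0), (nat_lit 0), (nat_lit 0))⟩, (nat_lit 333241), (nat_lit 300), (nat_lit 1835), (nat_lit 13801200), (nat_lit 3303817), [(nat_lit 1482048000), (nat_lit 2208192000), (nat_lit 3050400000)], [], [(nat_lit 10796369010), (nat_lit 10539146067), (nat_lit 10384906188), (nat_lit 10126214355), (nat_lit 10032776646), (nat_lit 9780321903), (nat_lit 9714582150), (nat_lit 9454447743)], (nat_lit 1100000), (nat_lit 1442501), (nat_lit 1271251), (nat_lit 1271251), (nat_lit 1271251), (nat_lit 1271251), [(nat_lit 1695001), (nat_lit 1271251), (nat_lit 1271251)], [(nat_lit 29), (nat_lit 66), (nat_lit 569), (nat_lit 225), (nat_lit 11)]⟩⟩))) (.trZ (nat_lit 0) (nat_lit 1) (nat_lit 3) (nat_lit 72) (nat_lit 61) (nat_lit 100) (nat_lit 220)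 (.trX (nat_lit 5) (nat_lit 1) (nat_lit 2) (nat_lit 71) (nat_lit 70) (nat_lit 100) (nat_lit 350) (.spl (nat_lit 6) (nat_lit 28) (.leaf ⟨(nat_lit 35), (nat_lit 965), (nat_lit 0), (nat_lit 0), (nat_lit 0), (nat_lit 3654), (nat_lit 4556), (nat_lit 0), (nat_lit 0), (nat_lit 0), (nat_lit 140000), [((nat_lit 380), [((nat_lit 41), (nat_lit 5), (nat_lit 35))])], ⟨(nat_lit 8), false, true, false, (nat_lit 309), (nat_lit 2236), (nat_lit 3163), [(nat_lit 1685169), (nat_lit 1687535), (nat_lit 1707260), (nat_lit 1710246), (nat_lit 1837812), (nat_lit 1830334), (nat_lit 1859903), (nat_lit 1853045)]⟩, ⟨(nat_lit 6), false, false, true, (nat_lit 229), (nat_lit 2236), (nat_lit 3163), [(nat_lit 1472332), (nat_lit 1465917), (nat_lit 1560952), (nat_lit 1557014), (nat_lit 1594239), (nat_lit 1579948), (nat_lit 1682859), (nat_lit 1671045)]⟩, (nat_lit 5557742), (nat_lit 33307622), (nat_lit 20861260), (nat_lit 12831118), (nat_lit 6), (nat_lit 0), [⟨(nat_lit 0), (nat_lit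 72), (nat_lit 61), (nat_lit 100), (nat_lit 233937599)⟩], [⟨(nat_lit 1), (nat_lit 80), (nat_lit 60), (nat_lit 100), (nat_lit 585031178)⟩], [⟨(nat_lit 1), (nat_lit 70), (nat_lit 71), (nat_lit 100), (nat_lit 487283448)⟩], [],
 ⟨⟨[(nat_lit 40), (nat_lit 60), (nat_lit 80)], [(nat_lit 0), (nat_lit 832), (nat_lit 1534)], [((nat_lit 0), (nat_lit 0), (nat_lit 0)), ((nat_lit 1000), (nat_lit 659), (nat_lit 528)), ((nat_lit 1000), (nat_lit 650), (nat_lit 549))], ((nat_lit 65), (nat_lit 100), (nat_lit 55))⟩, (nat_lit 1105303), (nat_lit 59), (nat_lit 59), (nat_lit 0), (nat_lit 0), [(nat_lit 1896298066), (nat_lit 2877457019), (nat_lit 3926274000)], [(nat_lit 0), (nat_lit 0), (nat_lit 0)], [(nat_lit 24243716911), (nat_lit 25402447344), (nat_lit 27570356568), (nat_lit 28666463216), (nat_lit 27172008207), (nat_lit 28306946490), (nat_lit 30201171176), (nat_lit 31127228272)], (nat_lit 0), (nat_lit 0), (nat_lit 0), (nat_lit 0), (nat_lit 0), (nat_lit 0), [], [(nat_lit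 2), (nat_lit 44), (nat_lit 203), (nat_lit 0), (nat_lit 7)]⟩,
 ⟨⟨[(nat_lit 40), (nat_lit 60), (nat_lit 80)], [(nat_lit 0), (nat_lit 398), (nat_lit 992)], [((nat_lit 0), (nat_lit 0), (nat_lit 0)), ((nat_lit 1000), (nat_lit 814), (nat_lit 310)), ((nat_lit 1000), (nat_lit 752), (nat_lit 464))], ((nat_lit 74), (nat_lit 100), (nat_lit 53))⟩, (nat_lit 2972166), (nat_lit 380), (nat_lit 380), (nat_lit 0), (nat_lit 1035824), [(nat_lit 1960880000), (nat_lit 3167130000), (nat_lit 4523920000)], [], [(nat_lit 23561184712), (nat_lit 24428378846), (nat_lit 26247961966), (nat_lit 27034617033), (nat_lit 27642121654), (nat_lit 28780170699), (nat_lit 30592253583), (nat_lit 31507947161)], (nat_lit 1271251), (nat_lit 1271251), (nat_lit 1271251), (nat_lit 1271251), (nat_lit 1271251), (nat_lit 1271251), [(nat_lit 490000), (nat_lit 780000), (nat_lit 1100000)], [(nat_lit 2), (nat_lit 44), (nat_lit 224), (nat_lit 0), (nat_lit 8)]⟩,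
 Rw.none⟩) (.leaf ⟨(nat_lit 0), (nat_lit 1000), (nat_lit 0), (nat_lit 0), (nat_lit 0), (nat_lit 5183), (nat_lit 4706), (nat_lit 0), (nat_lit 0), (nat_lit 0), (nat_lit 0), [], Pd.none, Pd.none, (nat_lit 0), (nat_lit 1), (nat_lit 0), (nat_lit 0), (nat_lit 6), (nat_lit 0), [⟨(nat_lit 0), (nat_lit 72), (nat_lit 61), (nat_lit 100), (nat_lit 225520965)⟩], [⟨(nat_lit 1), (nat_lit 80), (nat_lit 60), (nat_lit 100), (nat_lit 629458386)⟩], [⟨(nat_lit 1), (nat_lit 70), (nat_lit 71), (nat_lit 100), (nat_lit 488523325)⟩], [],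
 ⟨⟨[(nat_lit 40), (nat_lit 80), (nat_lit 100)], [(nat_lit 0), (nat_lit 1598), (nat_lit 2533)], [((nat_lit 0), (nat_lit 0), (nat_lit 0)), ((nat_lit 1000), (nat_lit 625), (nat_lit 623)), ((nat_lit 1000), (nat_lit 604), (nat_lit 730))], ((nat_lit 61), (nat_lit 100), (nat_lit 68))⟩, (nat_lit 521389), (nat_lit 67), (nat_lit 67), (nat_lit 0), (nat_lit 0), [(nat_lit 2306659588), (nat_lit 4688000135), (nat_lit 6250000000)], [], [(nat_lit 25274060868), (nat_lit 26661304177), (nat_lit 28874122636), (nat_lit 30167794432), (nat_lit 28509960376), (nat_lit 29853903448), (nat_lit 31728097852), (nat_lit 32800364044)], (nat_lit 0), (nat_lit 0), (nat_lit 0), (nat_lit 0), (nat_lit 0), (nat_lit 0), [], [(nat_lit 3), (nat_lit 50), (nat_lit 203), (nat_lit 0), (nat_lit 6)]⟩,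
 ⟨⟨[(nat_lit 40), (nat_lit 80), (nat_lit 100)], [(nat_lit 0), (nat_lit 795), (nat_lit 1829)], [((nat_lit 0), (nat_lit 0), (nat_lit 0)), ((nat_lit 1000), (nat_lit 814), (nat_lit 310)), ((nat_lit 1000), (nat_lit 714), (nat_lit 692))], ((nat_lit 71), (nat_lit 100), (nat_lit 67))⟩, (nat_lit 2576360), (nat_lit 330), (nat_lit 330), (nat_lit 0), (nat_lit 774183), [(nat_lit 2032000000), (nat_lit 4688000000), (nat_lit 6250000000)], [], [(nat_lit 24751008558), (nat_lit 25645512769), (nat_lit 27355841015), (nat_lit 28093493782), (nat_lit 28630562293), (nat_lit 29808059546), (nat_lit 31686063584), (nat_lit 32633709276)], (nat_lit 1271251), (nat_lit 1271251), (nat_lit 1271251), (nat_lit 1271251), (nat_lit 1271251), (nat_lit 1271251), [(nat_lit 490000), (nat_lit 1100000), (nat_lit 1442501)], [(nat_lit 3), (nat_lit 50), (nat_lit 212), (nat_lit 0), (nat_lit 6)]⟩,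
 Rw.none⟩))))) (.trZ (nat_lit 0) (nat_lit 1) (nat_lit 3) (nat_lit 63) (nat_lit 63) (nat_lit 100) (nat_lit 250) (.trX (nat_lit 5) (nat_lit 1) (nat_lit 2) (nat_lit 60) (nat_lit 80) (nat_lit 100) (nat_lit 320) (.leaf ⟨(nat_lit 0), (nat_lit 1000), (nat_lit 0), (nat_lit 0), (nat_lit 0), (nat_lit 3819), (nat_lit 4719), (nat_lit 0), (nat_lit 478558900753), (nat_lit 0), (nat_lit 0), [], Pd.none, Pd.none, (nat_lit 0), (nat_lit 1), (nat_lit 0), (nat_lit 0), (nat_lit 6), (nat_lit 0), [⟨(nat_lit 0), (nat_lit 63), (nat_lit 63), (nat_lit 100), (nat_lit 146384593)⟩], [⟨(nat_lit 1), (nat_lit 80), (nat_lit 60), (nat_lit 100), (nat_lit 602051969)⟩], [⟨(nat_lit 1), (nat_lit 80), (nat_lit 60), (nat_lit 100), (nat_lit 480531942)⟩], [],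
 ⟨⟨[(nat_lit 40), (nat_lit 80), (nat_lit 100)], [(nat_lit 0), (nat_lit 1598), (nat_lit 2533)], [((nat_lit 0), (nat_lit 0), (nat_lit 0)), ((nat_lit 1000), (nat_lit 625), (nat_lit 623)), ((nat_lit 1000), (nat_lit 604), (nat_lit 730))], ((nat_lit 61), (nat_lit 100), (nat_lit 68))⟩, (nat_lit 1691154), (nat_lit 67), (nat_lit 67), (nat_lit 0), (nat_lit 0), [(nat_lit 2032000026), (nat_lit 4688000031), (nat_lit 6250000000)], [], [(nat_lit 25390454829), (nat_lit 26452762051), (nat_lit 27761063779), (nat_lit 28828477376), (nat_lit 28042912834), (nat_lit 29138390516), (nat_lit 30365947436), (nat_lit 31307782492)], (nat_lit 0), (nat_lit 0), (nat_lit 0), (nat_lit 0), (nat_lit 0), (nat_lit 0), [], [(nat_lit 3), (nat_lit 50), (nat_lit 203), (nat_lit 0), (nat_lit 5)]⟩,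
 ⟨⟨[(nat_lit 40), (nat_lit 80), (nat_lit 100)], [(nat_lit 0), (nat_lit 1598), (nat_lit 2533)], [((nat_lit 0), (nat_lit 0), (nat_lit 0)), ((nat_lit 1000), (nat_lit 625), (nat_lit 623)), ((nat_lit 1000), (nat_lit 604), (nat_lit 730))], ((nat_lit 61), (nat_lit 100), (nat_lit 68))⟩, (nat_lit 1763516), (nat_lit 433), (nat_lit 433), (nat_lit 0), (nat_lit 1032009), [(nat_lit 2032000000), (nat_lit 4688000000), (nat_lit 6250000000)], [], [(nat_lit 26419988490), (nat_lit 27218749086), (nat_lit 28182777176), (nat_lit 29056717256), (nat_lit 28827371192), (nat_lit 30034745066), (nat_lit 31264727036), (nat_lit 32292623692)], (nat_lit 1271251), (nat_lit 1271251), (nat_lit 1271251), (nat_lit 1271251), (nat_lit 1271251), (nat_lit 1271251), [(nat_lit 490000), (nat_lit 1100000), (nat_lit 1442501)], [(nat_lit 3), (nat_lit 50), (nat_lit 236), (nat_lit 0), (nat_lit 7)]⟩,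
 Rw.none⟩))))
noncomputable def c18_9 : Tr Lf :=
 (.spl (nat_lit 2) (nat_lit 160) (.trX (nat_lit 4) (nat_lit 0) (nat_lit 2) (nat_lit 61) (nat_lit 92) (nat_lit 100) (nat_lit 290) (.leaf ⟨(nat_lit 54), (nat_lit 946), (nat_lit 0), (nat_lit 0), (nat_lit 0), (nat_lit 3335), (nat_lit 5939), (nat_lit 0), (nat_lit 9403), (nat_lit 0), (nat_lit 216000), [((nat_lit 380), [((nat_lit 41), (nat_lit 5), (nat_lit 54))])], ⟨(nat_lit 8), false, true, true, (nat_lit 362), (nat_lit 2236), (nat_lit 3163), [(nat_lit 1815720), (nat_lit 1807623), (nat_lit 1881994), (nat_lit 1875755), (nat_lit 1937695), (nat_lit 1921722), (nat_lit 2004104), (nat_lit 1989990)]⟩, ⟨(nat_lit 4), false, false, true, (nat_lit 188), (nat_lit 2236), (nat_lit 3163), [(nat_lit 1350426), (nat_lit 1351886), (nat_lit 1394735), (nat_lit 1397434), (nat_lit 1548524), (nat_lit 1537186), (nat_lit 1592834), (nat_lit 1582735)]⟩, (nat_lit 5330536), (nat_lit 31691688), (nat_lit 26303419), (nat_lit 9004893),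 (nat_lit 5), (nat_lit 0), [], [⟨(nat_lit 1), (nat_lit 100), (nat_lit 54), (nat_lit 98), (nat_lit 555599929)⟩], [], [],
 ⟨⟨[(nat_lit 40), (nat_lit 80), (nat_lit 100)], [(nat_lit 0), (nat_lit 1598), (nat_lit 2533)], [((nat_lit 0), (nat_lit 0), (nat_lit 0)), ((nat_lit 1000), (nat_lit 625), (nat_lit 623)), ((nat_lit 1000), (nat_lit 604), (nat_lit 730))], ((nat_lit 61), (nat_lit 100), (nat_lit 68))⟩, (nat_lit 1573584), (nat_lit 107), (nat_lit 107), (nat_lit 0), (nat_lit 0), [(nat_lit 1864508811), (nat_lit 3790003219), (nat_lit 4412920000)], [(nat_lit 0), (nat_lit 0), (nat_lit 0)], [(nat_lit 26157476152), (nat_lit 27239412517), (nat_lit 30087756772), (nat_lit 30971116330), (nat_lit 29258318479), (nat_lit 30127701182), (nat_lit 32433536931), (nat_lit 33159644932)], (nat_lit 0), (nat_lit 0), (nat_lit 0), (nat_lit 0), (nat_lit 0), (nat_lit 0), [], [(nat_lit 3), (nat_lit 50), (nat_lit 289), (nat_lit 75), (nat_lit 9)]⟩,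
 ⟨⟨[(nat_lit 40), (nat_lit 80), (nat_lit 120)], [(nat_lit 0), (nat_lit 0), (nat_lit 2151)], [((nat_lit 0), (nat_lit 0), (nat_lit 0)), ((nat_lit 0), (nat_lit 0), (nat_lit 0)), ((nat_lit 1000), (nat_lit 815), (nat_lit 753))], ((nat_lit 80), (nat_lit 100), (nat_lit 68))⟩, (nat_lit 1758534), (nat_lit 496), (nat_lit 496), (nat_lit 0), (nat_lit 1081426), [(nat_lit 1922272000), (nat_lit 4434848000), (nat_lit 7537728000)], [], [(nat_lit 29384499522), (nat_lit 31279554690), (nat_lit 31911239746), (nat_lit 33888091779), (nat_lit 30343883266), (nat_lit 31960409053), (nat_lit 32499250982), (nat_lit 34963166815)], (nat_lit 1271251), (nat_lit 1271251), (nat_lit 1271251), (nat_lit 1271251), (nat_lit 1271251), (nat_lit 1271251), [(nat_lit 490000), (nat_lit 1100000), (nat_lit 1785001)], [(nat_lit 4), (nat_lit 51), (nat_lit 289), (nat_lit 75), (nat_lit 8)]⟩,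
 Rw.none⟩)) (.stt (nat_lit 2) (.leaf ⟨(nat_lit 0), (nat_lit 1000), (nat_lit 0), (nat_lit 0), (nat_lit 0), (nat_lit 3865), (nat_lit 5180), (nat_lit 0), (nat_lit 40848), (nat_lit 0), (nat_lit 0), [], Pd.none, Pd.none, (nat_lit 0), (nat_lit 1), (nat_lit 0), (nat_lit 0), (nat_lit 5), (nat_lit 0), [⟨(nat_lit 1), (nat_lit 25), (nat_lit 80), (nat_lit 100), (nat_lit 8917864)⟩], [⟨(nat_lit 1), (nat_lit 80), (nat_lit 60), (nat_lit 100), (nat_lit 149622319)⟩], [], [],
 ⟨⟨[(nat_lit 40), (nat_lit 80), (nat_lit 100)], [(nat_lit 0), (nat_lit 1598), (nat_lit 2533)], [((nat_lit 0), (nat_lit 0), (nat_lit 0)), ((nat_lit 1000), (nat_lit 625), (nat_lit 623)), ((nat_lit 1000), (nat_lit 604), (nat_lit 730))], ((nat_lit 61), (nat_lit 100), (nat_lit 68))⟩, (nat_lit 1362265), (nat_lit 107), (nat_lit 107), (nat_lit 0), (nat_lit 0), [(nat_lit 2032000021), (nat_lit 4872171455), (nat_lit 6250000000)], [], [(nat_lit 27693274806), (nat_lit 28681451291), (nat_lit 31283851296),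 (nat_lit 32090963056), (nat_lit 31115849486), (nat_lit 31860486041), (nat_lit 33833727870), (nat_lit 34598415515)], (nat_lit 0), (nat_lit 0), (nat_lit 0), (nat_lit 0), (nat_lit 0), (nat_lit 0), [], [(nat_lit 3), (nat_lit 50), (nat_lit 317), (nat_lit 100), (nat_lit 10)]⟩,
 ⟨⟨[(nat_lit 40), (nat_lit 80), (nat_lit 120)], [(nat_lit 0), (nat_lit 0), (nat_lit 2151)], [((nat_lit 0), (nat_lit 0), (nat_lit 0)), ((nat_lit 0), (nat_lit 0), (nat_lit 0)), ((nat_lit 1000), (nat_lit 815), (nat_lit 753))], ((nat_lit 80), (nat_lit 100), (nat_lit 68))⟩, (nat_lit 1791355), (nat_lit 102), (nat_lit 102), (nat_lit 0), (nat_lit 0), [(nat_lit 2032000000), (nat_lit 4688000000), (nat_lit 7968000000)], [], [(nat_lit 27532621795), (nat_lit 30648688915), (nat_lit 31687377955), (nat_lit 34247562810), (nat_lit 29399974555), (nat_lit 32064979795), (nat_lit 32953314875), (nat_lit 35453016940)], (nat_lit 0), (nat_lit 0), (nat_lit 0), (nat_lit 0), (nat_lit 0), (nat_lit 0), [],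 [(nat_lit 4), (nat_lit 51), (nat_lit 289), (nat_lit 75), (nat_lit 8)]⟩,
 Rw.none⟩) (.leaf ⟨(nat_lit 0), (nat_lit 868), (nat_lit 0), (nat_lit 132), (nat_lit 0), (nat_lit 3527), (nat_lit 5873), (nat_lit 1477), (nat_lit 182668), (nat_lit 0), (nat_lit 0), [], Pd.none, Pd.none, (nat_lit 0), (nat_lit 1), (nat_lit 0), (nat_lit 0), (nat_lit 5), (nat_lit 0), [], [⟨(nat_lit 1), (nat_lit 90), (nat_lit 53), (nat_lit 100), (nat_lit 405947960)⟩], [], [],
 ⟨⟨[(nat_lit 40), (nat_lit 80), (nat_lit 100)], [(nat_lit 0), (nat_lit 1598), (nat_lit 2533)], [((nat_lit 0), (nat_lit 0), (nat_lit 0)), ((nat_lit 1000), (nat_lit 625), (nat_lit 623)), ((nat_lit 1000), (nat_lit 604), (nat_lit 730))], ((nat_lit 61), (nat_lit 100), (nat_lit 68))⟩, (nat_lit 2149244), (nat_lit 107), (nat_lit 107), (nat_lit 0), (nat_lit 0), [(nat_lit 2032000028), (nat_lit 5031196932), (nat_lit 6250000000)], [], [(nat_lit 26354049242), (nat_lit 27462600455), (nat_lit 30374334086), (nat_lit 31275925295),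 (nat_lit 30369021392), (nat_lit 31203033188), (nat_lit 33413148072), (nat_lit 34134405397)], (nat_lit 0), (nat_lit 0), (nat_lit 0), (nat_lit 0), (nat_lit 0), (nat_lit 0), [], [(nat_lit 3), (nat_lit 50), (nat_lit 317), (nat_lit 100), (nat_lit 10)]⟩,
 ⟨⟨[(nat_lit 40), (nat_lit 80), (nat_lit 120)], [(nat_lit 0), (nat_lit 0), (nat_lit 2151)], [((nat_lit 0), (nat_lit 0), (nat_lit 0)), ((nat_lit 0), (nat_lit 0), (nat_lit 0)), ((nat_lit 1000), (nat_lit 815), (nat_lit 753))], ((nat_lit 80), (nat_lit 100), (nat_lit 68))⟩, (nat_lit 2009045), (nat_lit 429), (nat_lit 429), (nat_lit 0), (nat_lit 934510), [(nat_lit 2032000000), (nat_lit 4688000000), (nat_lit 7968000000)], [], [(nat_lit 30825940914), (nat_lit 33148106997), (nat_lit 33922162358), (nat_lit 35794406107), (nat_lit 32134742486), (nat_lit 34123926893), (nat_lit 34786988362), (nat_lit 36403471984)], (nat_lit 1271251), (nat_lit 1271251), (nat_lit 1271251), (nat_lit 1271251), (nat_lit 1271251), (nat_lit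 1271251), [(nat_lit 490000), (nat_lit 1100000), (nat_lit 1785001)], [(nat_lit 4), (nat_lit 51), (nat_lit 289), (nat_lit 75), (nat_lit 8)]⟩,
 ⟨⟨[(nat_lit 120), (nat_lit 160), (nat_lit 200)], [(nat_lit 0), (nat_lit 0), (nat_lit 3198)], [((nat_lit 0), (nat_lit 0), (nat_lit 0)), ((nat_lit 0), (nat_lit 0), (nat_lit 0)), ((nat_lit 572), (nat_lit 1000), (nat_lit 714))], ((nat_lit 0), (nat_lit 0), (nat_lit 0))⟩, (nat_lit 104048), (nat_lit 300), (nat_lit 2217), (nat_lit 9794400), (nat_lit 3967347), [(nat_lit 1051776000), (nat_lit 1567104000), (nat_lit 2164800000)], [], [(nat_lit 7710658192), (nat_lit 7526161423), (nat_lit 7127676340), (nat_lit 6947420857), (nat_lit 7402491290), (nat_lit 7225010887), (nat_lit 6837021718), (nat_lit 6652036080)], (nat_lit 1100000), (nat_lit 1442501), (nat_lit 1100000), (nat_lit 2470001), (nat_lit 1271251), (nat_lit 1271251), [(nat_lit 1695001), (nat_lit 1271251), (nat_lit 1271251)], [(nat_lit 29), (nat_lit 66), (nat_lit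 655), (nat_lit 200), (nat_lit 13)]⟩⟩)))
noncomputable def c18_10 : Tr Lf :=
 (.trX (nat_lit 4) (nat_lit 0) (nat_lit 2) (nat_lit 61) (nat_lit 92) (nat_lit 100) (nat_lit 290) (.trX (nat_lit 5) (nat_lit 1) (nat_lit 2) (nat_lit 82) (nat_lit 76) (nat_lit 100) (nat_lit 340) (.spl (nat_lit 0) (nat_lit 370) (.ord (.spl (nat_lit 4) (nat_lit 240) (.leaf ⟨(nat_lit 35), (nat_lit 965), (nat_lit 0), (nat_lit 0), (nat_lit 0), (nat_lit 3548), (nat_lit 5581), (nat_lit 0), (nat_lit 5792), (nat_lit 0), (nat_lit 140000), [((nat_lit 370), [((nat_lit 41), (nat_lit 5), (nat_lit 35))])], ⟨(nat_lit 8), false, true, true, (nat_lit 361), (nat_lit 2738), (nat_lit 3163), [(nat_lit 1815772), (nat_lit 1811670), (nat_lit 1871128), (nat_lit 1867683), (nat_lit 1937695), (nat_lit 1929809), (nat_lit 1993071), (nat_lit 1985842)]⟩, ⟨(nat_lit 4), false, false, true, (nat_lit 173), (nat_lit 2738), (nat_lit 3163), [(nat_lit 1350426), (nat_lit 1351268), (nat_lit 1394735), (nat_lit 1396102),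 (nat_lit 1472332), (nat_lit 1469390), (nat_lit 1516642), (nat_lit 1514225)]⟩, (nat_lit 5224045), (nat_lit 32305714), (nat_lit 26627583), (nat_lit 8066703), (nat_lit 7), (nat_lit 0), [], [], [⟨(nat_lit 1), (nat_lit 76), (nat_lit 82), (nat_lit 100), (nat_lit 414995632)⟩], [],
 ⟨⟨[(nat_lit 40), (nat_lit 80), (nat_lit 100)], [(nat_lit 0), (nat_lit 1598), (nat_lit 2533)], [((nat_lit 0), (nat_lit 0), (nat_lit 0)), ((nat_lit 1000), (nat_lit 625), (nat_lit 623)), ((nat_lit 1000), (nat_lit 604), (nat_lit 730))], ((nat_lit 61), (nat_lit 100), (nat_lit 68))⟩, (nat_lit 2147524), (nat_lit 104), (nat_lit 104), (nat_lit 0), (nat_lit 0), [(nat_lit 1896298002), (nat_lit 4583827235), (nat_lit 5059300000)], [(nat_lit 0), (nat_lit 0), (nat_lit 0)], [(nat_lit 26067506668), (nat_lit 26623237774), (nat_lit 30321325120), (nat_lit 30815108212), (nat_lit 27648992524), (nat_lit 28138492054), (nat_lit 31392395416), (nat_lit 31829296378)], (nat_lit 0), (nat_lit 0), (nat_lit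 0), (nat_lit 0), (nat_lit 0), (nat_lit 0), [], [(nat_lit 3), (nat_lit 50), (nat_lit 272), (nat_lit 60), (nat_lit 8)]⟩,
 ⟨⟨[(nat_lit 40), (nat_lit 80), (nat_lit 120)], [(nat_lit 0), (nat_lit 0), (nat_lit 2151)], [((nat_lit 0), (nat_lit 0), (nat_lit 0)), ((nat_lit 0), (nat_lit 0), (nat_lit 0)), ((nat_lit 1000), (nat_lit 815), (nat_lit 753))], ((nat_lit 80), (nat_lit 100), (nat_lit 68))⟩, (nat_lit 2328997), (nat_lit 429), (nat_lit 429), (nat_lit 0), (nat_lit 984234), [(nat_lit 1960880000), (nat_lit 4523920000), (nat_lit 7689120000)], [], [(nat_lit 31317997012), (nat_lit 32909322632), (nat_lit 33864118004), (nat_lit 35145597972), (nat_lit 32741220946), (nat_lit 34123454353), (nat_lit 34952794396), (nat_lit 36236527325)], (nat_lit 1271251), (nat_lit 1271251), (nat_lit 1271251), (nat_lit 1271251), (nat_lit 1271251), (nat_lit 1271251), [(nat_lit 490000), (nat_lit 1100000), (nat_lit 1785001)], [(nat_lit 4), (nat_lit 51), (nat_lit 246), (nat_lit 0),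 (nat_lit 6)]⟩,
 Rw.none⟩) (.spl (nat_lit 0) (nat_lit 365) (.ord (.leaf ⟨(nat_lit 54), (nat_lit 946), (nat_lit 0), (nat_lit 0), (nat_lit 0), (nat_lit 3530), (nat_lit 5486), (nat_lit 0), (nat_lit 467), (nat_lit 0), (nat_lit 216000), [((nat_lit 365), [((nat_lit 41), (nat_lit 5), (nat_lit 54))])], ⟨(nat_lit 8), false, true, true, (nat_lit 360), (nat_lit 2958), (nat_lit 3163), [(nat_lit 1815784), (nat_lit 1813720), (nat_lit 1865627), (nat_lit 1863837), (nat_lit 1937695), (nat_lit 1933766), (nat_lit 1987541), (nat_lit 1983887)]⟩, ⟨(nat_lit 6), false, false, true, (nat_lit 213), (nat_lit 2958), (nat_lit 3163), [(nat_lit 1472332), (nat_lit 1470911), (nat_lit 1516642), (nat_lit 1515465), (nat_lit 1548524), (nat_lit 1545938), (nat_lit 1592834), (nat_lit 1590492)]⟩, (nat_lit 5493041), (nat_lit 30848030), (nat_lit 25447345), (nat_lit 10704625), (nat_lit 7), (nat_lit 0), [], [⟨(nat_lit 1), (nat_lit 92), (nat_lit 61), (nat_lit 100), (nat_lit 536483573)⟩],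 [⟨(nat_lit 1), (nat_lit 76), (nat_lit 82), (nat_lit 100), (nat_lit 406814373)⟩], [],
 ⟨⟨[(nat_lit 40), (nat_lit 80), (nat_lit 100)], [(nat_lit 0), (nat_lit 1598), (nat_lit 2533)], [((nat_lit 0), (nat_lit 0), (nat_lit 0)), ((nat_lit 1000), (nat_lit 625), (nat_lit 623)), ((nat_lit 1000), (nat_lit 604), (nat_lit 730))], ((nat_lit 61), (nat_lit 100), (nat_lit 68))⟩, (nat_lit 2123133), (nat_lit 78), (nat_lit 78), (nat_lit 0), (nat_lit 0), [(nat_lit 1864508801), (nat_lit 3893495698), (nat_lit 4412920000)], [(nat_lit 0), (nat_lit 0), (nat_lit 0)], [(nat_lit 27599643302), (nat_lit 27843887515), (nat_lit 31369286260), (nat_lit 31587348108), (nat_lit 29119900390), (nat_lit 29341845476), (nat_lit 32634896185), (nat_lit 32832960267)], (nat_lit 0), (nat_lit 0), (nat_lit 0), (nat_lit 0), (nat_lit 0), (nat_lit 0), [], [(nat_lit 3), (nat_lit 50), (nat_lit 203), (nat_lit 0), (nat_lit 5)]⟩,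
 ⟨⟨[(nat_lit 40), (nat_lit 80), (nat_lit 120)], [(nat_lit 0), (nat_lit 0), (nat_lit 2151)], [((nat_lit 0), (nat_lit 0), (nat_lit 0)), ((nat_lit 0), (nat_lit 0), (nat_lit 0)), ((nat_lit 1000), (nat_lit 815), (nat_lit 753))], ((nat_lit 80), (nat_lit 100), (nat_lit 68))⟩, (nat_lit 1900954), (nat_lit 418), (nat_lit 418), (nat_lit 0), (nat_lit 948970), [(nat_lit 1922272000), (nat_lit 4434848000), (nat_lit 7537728000)], [], [(nat_lit 30648343760), (nat_lit 32053626035), (nat_lit 33146623360), (nat_lit 34277944510), (nat_lit 32044146932), (nat_lit 33264556369), (nat_lit 34213763708), (nat_lit 35346532354)], (nat_lit 1271251), (nat_lit 1271251), (nat_lit 1271251), (nat_lit 1271251), (nat_lit 1271251), (nat_lit 1271251), [(nat_lit 490000), (nat_lit 1100000), (nat_lit 1785001)], [(nat_lit 4), (nat_lit 51), (nat_lit 243), (nat_lit 0), (nat_lit 6)]⟩,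
 Rw.none⟩)) (.trX (nat_lit 4) (nat_lit 0) (nat_lit 2) (nat_lit 58) (nat_lit 94) (nat_lit 100) (nat_lit 280) (.spl (nat_lit 1) (nat_lit 340) (.leaf ⟨(nat_lit 54), (nat_lit 946), (nat_lit 0), (nat_lit 0), (nat_lit 0), (nat_lit 3529), (nat_lit 5624), (nat_lit 0), (nat_lit 0), (nat_lit 0), (nat_lit 216000), [((nat_lit 370), [((nat_lit 41), (nat_lit 5), (nat_lit 54))])], ⟨(nat_lit 8), false, true, true, (nat_lit 353), (nat_lit 2738), (nat_lit 2959), [(nat_lit 1813721), (nat_lit 1811683), (nat_lit 1835994), (nat_lit 1834097), (nat_lit 1933766), (nat_lit 1929809), (nat_lit 1956043), (nat_lit 1952227)]⟩, ⟨(nat_lit 6), false, false, true, (nat_lit 209), (nat_lit 2738), (nat_lit 2959), [(nat_lit 1470911), (nat_lit 1469390), (nat_lit 1515465), (nat_lit 1514225), (nat_lit 1530932), (nat_lit 1528452), (nat_lit 1575486), (nat_lit 1573286)]⟩, (nat_lit 5472434), (nat_lit 31409287), (nat_lit 25026320), (nat_lit 10564393), (nat_lit 7), (nat_lit 0), [], [⟨(nat_lit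 1), (nat_lit 94), (nat_lit 58), (nat_lit 100), (nat_lit 548492160)⟩], [⟨(nat_lit 1), (nat_lit 76), (nat_lit 82), (nat_lit 100), (nat_lit 406719253)⟩], [],
 ⟨⟨[(nat_lit 40), (nat_lit 60), (nat_lit 80)], [(nat_lit 0), (nat_lit 973), (nat_lit 1716)], [((nat_lit 0), (nat_lit 0), (nat_lit 0)), ((nat_lit 1000), (nat_lit 618), (nat_lit 574)), ((nat_lit 1000), (nat_lit 615), (nat_lit 581))], ((nat_lit 58), (nat_lit 100), (nat_lit 69))⟩, (nat_lit 2141168), (nat_lit 79), (nat_lit 79), (nat_lit 0), (nat_lit 0), [(nat_lit 1864508804), (nat_lit 2986593486), (nat_lit 3512765600)], [(nat_lit 0), (nat_lit 0), (nat_lit 0)], [(nat_lit 27844649945), (nat_lit 28088866071), (nat_lit 31586042675), (nat_lit 31804082932), (nat_lit 29042955374), (nat_lit 29269335799), (nat_lit 32582521578), (nat_lit 32784566796)], (nat_lit 0), (nat_lit 0), (nat_lit 0), (nat_lit 0), (nat_lit 0), (nat_lit 0), [], [(nat_lit 2), (nat_lit 44), (nat_lit 203), (nat_lit 0), (nat_lit 6)]⟩,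
 ⟨⟨[(nat_lit 40), (nat_lit 80), (nat_lit 120)], [(nat_lit 0), (nat_lit 0), (nat_lit 2151)], [((nat_lit 0), (nat_lit 0), (nat_lit 0)), ((nat_lit 0), (nat_lit 0), (nat_lit 0)), ((nat_lit 1000), (nat_lit 815), (nat_lit 753))], ((nat_lit 80), (nat_lit 100), (nat_lit 68))⟩, (nat_lit 2346291), (nat_lit 425), (nat_lit 425), (nat_lit 0), (nat_lit 970148), [(nat_lit 1922272000), (nat_lit 4434848000), (nat_lit 7537728000)], [], [(nat_lit 30156702476), (nat_lit 30786578890), (nat_lit 32676208132), (nat_lit 33181890623), (nat_lit 31558080020), (nat_lit 32104163122), (nat_lit 33744651622), (nat_lit 34540801660)], (nat_lit 1271251), (nat_lit 1271251), (nat_lit 1271251), (nat_lit 1271251), (nat_lit 1271251), (nat_lit 1271251), [(nat_lit 490000), (nat_lit 1100000), (nat_lit 1785001)], [(nat_lit 4), (nat_lit 51), (nat_lit 242), (nat_lit 0), (nat_lit 6)]⟩,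
 Rw.none⟩) (.trX (nat_lit 5) (nat_lit 1) (nat_lit 2) (nat_lit 73) (nat_lit 85) (nat_lit 100) (nat_lit 320) (.leaf ⟨(nat_lit 0), (nat_lit 1000), (nat_lit 0), (nat_lit 0), (nat_lit 0), (nat_lit 4054), (nat_lit 4464), (nat_lit 0), (nat_lit 304717), (nat_lit 0), (nat_lit 0), [], Pd.none, Pd.none, (nat_lit 0), (nat_lit 1), (nat_lit 0), (nat_lit 0), (nat_lit 7), (nat_lit 0), [], [⟨(nat_lit 1), (nat_lit 94), (nat_lit 58), (nat_lit 100), (nat_lit 546226218)⟩], [⟨(nat_lit 1), (nat_lit 85), (nat_lit 73), (nat_lit 100), (nat_lit 476722432)⟩], [],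
 ⟨⟨[(nat_lit 40), (nat_lit 60), (nat_lit 80)], [(nat_lit 0), (nat_lit 973), (nat_lit 1716)], [((nat_lit 0), (nat_lit 0), (nat_lit 0)), ((nat_lit 1000), (nat_lit 618), (nat_lit 574)), ((nat_lit 1000), (nat_lit 615), (nat_lit 581))], ((nat_lit 58), (nat_lit 100), (nat_lit 69))⟩, (nat_lit 1057730), (nat_lit 79), (nat_lit 79), (nat_lit 0), (nat_lit 0), [(nat_lit 2032000128), (nat_lit 3449843064), (nat_lit 4688000000)], [], [(nat_lit 28613000312), (nat_lit 28848467451), (nat_lit 32271394869), (nat_lit 32500770269), (nat_lit 29732017207), (nat_lit 29950167324), (nat_lit 33273556503), (nat_lit 33485270646)], (nat_lit 0), (nat_lit 0), (nat_lit 0), (nat_lit 0), (nat_lit 0), (nat_lit 0), [], [(nat_lit 2), (nat_lit 44), (nat_lit 203), (nat_lit 0), (nat_lit 6)]⟩,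
 ⟨⟨[(nat_lit 40), (nat_lit 80), (nat_lit 100)], [(nat_lit 0), (nat_lit 795), (nat_lit 1829)], [((nat_lit 0), (nat_lit 0), (nat_lit 0)), ((nat_lit 1000), (nat_lit 814), (nat_lit 310)), ((nat_lit 1000), (nat_lit 714), (nat_lit 692))], ((nat_lit 71), (nat_lit 100), (nat_lit 67))⟩, (nat_lit 2688959), (nat_lit 399), (nat_lit 399), (nat_lit 0), (nat_lit 971487), [(nat_lit 2032000000), (nat_lit 4688000000), (nat_lit 6250000000)], [], [(nat_lit 30614989457), (nat_lit 31452783137), (nat_lit 32921436375), (nat_lit 34032486986), (nat_lit 31369048697), (nat_lit 32247805803), (nat_lit 33818308360), (nat_lit 35020124068)], (nat_lit 1271251), (nat_lit 1271251), (nat_lit 1271251), (nat_lit 1271251), (nat_lit 1271251), (nat_lit 1271251), [(nat_lit 490000), (nat_lit 1100000), (nat_lit 1442501)], [(nat_lit 3), (nat_lit 50), (nat_lit 236), (nat_lit 0), (nat_lit 6)]⟩,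
 Rw.none⟩))))))) (.trX (nat_lit 4) (nat_lit 0) (nat_lit 2) (nat_lit 54) (nat_lit 96) (nat_lit 100) (nat_lit 270) (.spl (nat_lit 6) (nat_lit 28) (.spl (nat_lit 6) (nat_lit 16) (.leaf ⟨(nat_lit 35), (nat_lit 965), (nat_lit 0), (nat_lit 0), (nat_lit 0), (nat_lit 3552), (nat_lit 5124), (nat_lit 0), (nat_lit 29864), (nat_lit 0), (nat_lit 140000), [((nat_lit 380), [((nat_lit 41), (nat_lit 5), (nat_lit 35))])], ⟨(nat_lit 8), false, true, true, (nat_lit 361), (nat_lit 2236), (nat_lit 2739), [(nat_lit 1811671), (nat_lit 1807675), (nat_lit 1878862), (nat_lit 1875937), (nat_lit 1929809), (nat_lit 1921722), (nat_lit 1997054), (nat_lit 1990037)]⟩, ⟨(nat_lit 4), false, false, true, (nat_lit 182), (nat_lit 2236), (nat_lit 2739), [(nat_lit 1351268), (nat_lit 1351886), (nat_lit 1396102), (nat_lit 1397434), (nat_lit 1513686), (nat_lit 1508679), (nat_lit 1558521), (nat_lit 1554227)]⟩, (nat_lit 5286540), (nat_lit 31995465), (nat_lit 26392884), (nat_lit 8611651),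 (nat_lit 7), (nat_lit 0), [], [⟨(nat_lit 1), (nat_lit 100), (nat_lit 49), (nat_lit 97), (nat_lit 519142356)⟩], [⟨(nat_lit 1), (nat_lit 76), (nat_lit 82), (nat_lit 100), (nat_lit 439220067)⟩], [],
 ⟨⟨[(nat_lit 40), (nat_lit 60)], [(nat_lit 0), (nat_lit 1134)], [((nat_lit 0), (nat_lit 0), (nat_lit 0)), ((nat_lit 1000), (nat_lit 575), (nat_lit 619))], ((nat_lit 64), (nat_lit 100), (nat_lit 48))⟩, (nat_lit 2220266), (nat_lit 81), (nat_lit 81), (nat_lit 0), (nat_lit 0), [(nat_lit 1896298008), (nat_lit 2877456000)], [(nat_lit 0), (nat_lit 0)], [(nat_lit 26620631496), (nat_lit 27176639840), (nat_lit 30821234688), (nat_lit 31315234496), (nat_lit 29021896123), (nat_lit 29484797981), (nat_lit 32570099342), (nat_lit 32983070977)], (nat_lit 0), (nat_lit 0), (nat_lit 0), (nat_lit 0), (nat_lit 0), (nat_lit 0), [], [(nat_lit 1), (nat_lit 38), (nat_lit 203), (nat_lit 0), (nat_lit 8)]⟩,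
 ⟨⟨[(nat_lit 40), (nat_lit 60), (nat_lit 80)], [(nat_lit 0), (nat_lit 0), (nat_lit 615)], [((nat_lit 0), (nat_lit 0), (nat_lit 0)), ((nat_lit 0), (nat_lit 0), (nat_lit 0)), ((nat_lit 1000), (nat_lit 819), (nat_lit 426))], ((nat_lit 82), (nat_lit 100), (nat_lit 40))⟩, (nat_lit 2863458), (nat_lit 396), (nat_lit 396), (nat_lit 0), (nat_lit 1068754), [(nat_lit 1960880000), (nat_lit 3167130000), (nat_lit 4523920000)], [], [(nat_lit 29991058758), (nat_lit 31724631071), (nat_lit 32302488508), (nat_lit 34384011300), (nat_lit 31318098485), (nat_lit 32840470241), (nat_lit 33655673615), (nat_lit 35992378484)], (nat_lit 1271251), (nat_lit 1271251), (nat_lit 1271251), (nat_lit 1271251), (nat_lit 1271251), (nat_lit 1271251), [(nat_lit 490000), (nat_lit 780000), (nat_lit 1100000)], [(nat_lit 2), (nat_lit 44), (nat_lit 239), (nat_lit 0), (nat_lit 8)]⟩,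
 Rw.none⟩) (.leaf ⟨(nat_lit 0), (nat_lit 1000), (nat_lit 0), (nat_lit 0), (nat_lit 0), (nat_lit 3715), (nat_lit 5982), (nat_lit 0), (nat_lit 7685), (nat_lit 0), (nat_lit 0), [], Pd.none, Pd.none, (nat_lit 0), (nat_lit 1), (nat_lit 0), (nat_lit 0), (nat_lit 7), (nat_lit 0), [], [⟨(nat_lit 1), (nat_lit 100), (nat_lit 49), (nat_lit 97), (nat_lit 527105039)⟩], [⟨(nat_lit 1), (nat_lit 76), (nat_lit 82), (nat_lit 100), (nat_lit 447474265)⟩], [],
 ⟨⟨[(nat_lit 40), (nat_lit 60)], [(nat_lit 0), (nat_lit 1134)], [((nat_lit 0), (nat_lit 0), (nat_lit 0)), ((nat_lit 1000), (nat_lit 575), (nat_lit 619))], ((nat_lit 59), (nat_lit 100), (nat_lit 58))⟩, (nat_lit 956955), (nat_lit 81), (nat_lit 81), (nat_lit 0), (nat_lit 0), [(nat_lit 2032000003), (nat_lit 3282000000)], [], [(nat_lit 26896694761), (nat_lit 27439678938), (nat_lit 31070888585), (nat_lit 31573719570), (nat_lit 29199940163), (nat_lit 29651737383), (nat_lit 32787339446), (nat_lit 33206573684)], (nat_lit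 0), (nat_lit 0), (nat_lit 0), (nat_lit 0), (nat_lit 0), (nat_lit 0), [], [(nat_lit 1), (nat_lit 38), (nat_lit 203), (nat_lit 0), (nat_lit 8)]⟩,
 ⟨⟨[(nat_lit 40), (nat_lit 80), (nat_lit 100)], [(nat_lit 0), (nat_lit 0), (nat_lit 1280)], [((nat_lit 0), (nat_lit 0), (nat_lit 0)), ((nat_lit 0), (nat_lit 0), (nat_lit 0)), ((nat_lit 1000), (nat_lit 800), (nat_lit 600))], ((nat_lit 80), (nat_lit 100), (nat_lit 51))⟩, (nat_lit 1227328), (nat_lit 368), (nat_lit 368), (nat_lit 0), (nat_lit 897373), [(nat_lit 2032000000), (nat_lit 4688000000), (nat_lit 6250000000)], [], [(nat_lit 31855374996), (nat_lit 33748175662), (nat_lit 34415428508), (nat_lit 36552966356), (nat_lit 33229282032), (nat_lit 34964003210), (nat_lit 35717121430), (nat_lit 38247924172)], (nat_lit 1271251), (nat_lit 1271251), (nat_lit 1271251), (nat_lit 1271251), (nat_lit 1271251), (nat_lit 1271251), [(nat_lit 490000), (nat_lit 1100000), (nat_lit 1442501)], [(nat_lit 3), (nat_lit 50), (nat_lit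 232), (nat_lit 0), (nat_lit 6)]⟩,
 Rw.none⟩)) (.leaf ⟨(nat_lit 0), (nat_lit 1000), (nat_lit 0), (nat_lit 0), (nat_lit 0), (nat_lit 3715), (nat_lit 5982), (nat_lit 0), (nat_lit 200225), (nat_lit 0), (nat_lit 0), [], Pd.none, Pd.none, (nat_lit 0), (nat_lit 1), (nat_lit 0), (nat_lit 0), (nat_lit 7), (nat_lit 0), [], [⟨(nat_lit 1), (nat_lit 100), (nat_lit 49), (nat_lit 97), (nat_lit 527104625)⟩], [⟨(nat_lit 1), (nat_lit 76), (nat_lit 82), (nat_lit 100), (nat_lit 443085878)⟩], [],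
 ⟨⟨[(nat_lit 40), (nat_lit 60), (nat_lit 80)], [(nat_lit 0), (nat_lit 1134), (nat_lit 1930)], [((nat_lit 0), (nat_lit 0), (nat_lit 0)), ((nat_lit 1000), (nat_lit 575), (nat_lit 619)), ((nat_lit 1000), (nat_lit 574), (nat_lit 622))], ((nat_lit 55), (nat_lit 100), (nat_lit 70))⟩, (nat_lit 1363749), (nat_lit 93), (nat_lit 93), (nat_lit 0), (nat_lit 0), [(nat_lit 2032000087), (nat_lit 3480542538), (nat_lit 4688000000)], [], [(nat_lit 27041561575), (nat_lit 27557180162), (nat_lit 31070888585), (nat_lit 31573719570), (nat_lit 29221832670), (nat_lit 29651739630), (nat_lit 32787339446), (nat_lit 33206573684)], (nat_lit 0), (nat_lit 0), (nat_lit 0), (nat_lit 0), (nat_lit 0), (nat_lit 0), [], [(nat_lit 2), (nat_lit 44), (nat_lit 203), (nat_lit 0), (nat_lit 6)]⟩,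
 ⟨⟨[(nat_lit 40), (nat_lit 80), (nat_lit 120)], [(nat_lit 0), (nat_lit 0), (nat_lit 2151)], [((nat_lit 0), (nat_lit 0), (nat_lit 0)), ((nat_lit 0), (nat_lit 0), (nat_lit 0)), ((nat_lit 1000), (nat_lit 815), (nat_lit 753))], ((nat_lit 80), (nat_lit 100), (nat_lit 68))⟩, (nat_lit 1637678), (nat_lit 376), (nat_lit 376), (nat_lit 0), (nat_lit 813749), [(nat_lit 2032000000), (nat_lit 4688000000), (nat_lit 7968000000)], [], [(nat_lit 31972727002), (nat_lit 33748175662), (nat_lit 34415428508), (nat_lit 36552966356), (nat_lit 33229282032), (nat_lit 34964003210), (nat_lit 35717121430), (nat_lit 38247924172)], (nat_lit 1271251), (nat_lit 1271251), (nat_lit 1271251), (nat_lit 1271251), (nat_lit 1271251), (nat_lit 1271251), [(nat_lit 490000), (nat_lit 1100000), (nat_lit 1785001)], [(nat_lit 4), (nat_lit 51), (nat_lit 234), (nat_lit 0), (nat_lit 5)]⟩,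
 Rw.none⟩))))))
noncomputable def c18_11 : Tr Lf :=
 (.stt (nat_lit 2) (.leaf ⟨(nat_lit 0), (nat_lit 1000), (nat_lit 0), (nat_lit 0), (nat_lit 0), (nat_lit 4032), (nat_lit 7115), (nat_lit 0), (nat_lit 18455), (nat_lit 0), (nat_lit 0), [], Pd.none, Pd.none, (nat_lit 0), (nat_lit 1), (nat_lit 0), (nat_lit 0), (nat_lit 7), (nat_lit 0), [], [⟨(nat_lit 1), (nat_lit 80), (nat_lit 60), (nat_lit 100), (nat_lit 194839834)⟩], [⟨(nat_lit 1), (nat_lit 60), (nat_lit 80), (nat_lit 100), (nat_lit 287276578)⟩], [],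
 ⟨⟨[(nat_lit 40), (nat_lit 80), (nat_lit 100)], [(nat_lit 0), (nat_lit 1598), (nat_lit 2533)], [((nat_lit 0), (nat_lit 0), (nat_lit 0)), ((nat_lit 1000), (nat_lit 625), (nat_lit 623)), ((nat_lit 1000), (nat_lit 604), (nat_lit 730))], ((nat_lit 61), (nat_lit 100), (nat_lit 68))⟩, (nat_lit 1262738), (nat_lit 107), (nat_lit 107), (nat_lit 0), (nat_lit 0), [(nat_lit 2032000016), (nat_lit 4923945796), (nat_lit 6250000000)], [], [(nat_lit 27755902166), (nat_lit 28762146214), (nat_lit 31489467110), (nat_lit 32348867334), (nat_lit 31172369990), (nat_lit 31964924542), (nat_lit 34053111574), (nat_lit 34827674952)], (nat_lit 0), (nat_lit 0), (nat_lit 0), (nat_lit 0), (nat_lit 0), (nat_lit 0), [], [(nat_lit 3), (nat_lit 50), (nat_lit 317), (nat_lit 100), (nat_lit 10)]⟩,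
 ⟨⟨[(nat_lit 40), (nat_lit 80), (nat_lit 120)], [(nat_lit 0), (nat_lit 0), (nat_lit 2151)], [((nat_lit 0), (nat_lit 0), (nat_lit 0)), ((nat_lit 0), (nat_lit 0), (nat_lit 0)), ((nat_lit 1000), (nat_lit 815), (nat_lit 753))], ((nat_lit 80), (nat_lit 100), (nat_lit 68))⟩, (nat_lit 154047), (nat_lit 89), (nat_lit 89), (nat_lit 0), (nat_lit 0), [(nat_lit 2032000000), (nat_lit 4688000000), (nat_lit 7968000000)], [], [(nat_lit 31664968033), (nat_lit 34741727728), (nat_lit 35767314293), (nat_lit 38150171056), (nat_lit 34820715773), (nat_lit 37277715233), (nat_lit 38097201370), (nat_lit 40638892315)], (nat_lit 0), (nat_lit 0), (nat_lit 0), (nat_lit 0), (nat_lit 0), (nat_lit 0), [], [(nat_lit 4), (nat_lit 51), (nat_lit 203), (nat_lit 0), (nat_lit 4)]⟩,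
 Rw.none⟩) (.leaf ⟨(nat_lit 0), (nat_lit 837), (nat_lit 0), (nat_lit 163), (nat_lit 0), (nat_lit 3527), (nat_lit 5789), (nat_lit 1780), (nat_lit 6071), (nat_lit 0), (nat_lit 0), [], Pd.none, Pd.none, (nat_lit 0), (nat_lit 1), (nat_lit 0), (nat_lit 0), (nat_lit 7), (nat_lit 0), [], [⟨(nat_lit 1), (nat_lit 90), (nat_lit 53), (nat_lit 100), (nat_lit 331250148)⟩], [⟨(nat_lit 1), (nat_lit 82), (nat_lit 66), (nat_lit 100), (nat_lit 393555714)⟩], [],
 ⟨⟨[(nat_lit 40), (nat_lit 80), (nat_lit 100)], [(nat_lit 0), (nat_lit 1598), (nat_lit 2533)], [((nat_lit 0), (nat_lit 0), (nat_lit 0)), ((nat_lit 1000), (nat_lit 625), (nat_lit 623)), ((nat_lit 1000), (nat_lit 604), (nat_lit 730))], ((nat_lit 61), (nat_lit 100), (nat_lit 68))⟩, (nat_lit 2666541), (nat_lit 107), (nat_lit 107), (nat_lit 0), (nat_lit 0), [(nat_lit 2032000001), (nat_lit 5326138917), (nat_lit 6250000000)], [], [(nat_lit 26354049188), (nat_lit 27462600401), (nat_lit 30374334032), (nat_lit 31275925241),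 (nat_lit 30369021338), (nat_lit 31203033134), (nat_lit 33413148018), (nat_lit 34134405397)], (nat_lit 0), (nat_lit 0), (nat_lit 0), (nat_lit 0), (nat_lit 0), (nat_lit 0), [], [(nat_lit 3), (nat_lit 50), (nat_lit 317), (nat_lit 100), (nat_lit 10)]⟩,
 ⟨⟨[(nat_lit 40), (nat_lit 80), (nat_lit 120)], [(nat_lit 0), (nat_lit 0), (nat_lit 2151)], [((nat_lit 0), (nat_lit 0), (nat_lit 0)), ((nat_lit 0), (nat_lit 0), (nat_lit 0)), ((nat_lit 1000), (nat_lit 815), (nat_lit 753))], ((nat_lit 80), (nat_lit 100), (nat_lit 68))⟩, (nat_lit 2307037), (nat_lit 414), (nat_lit 414), (nat_lit 0), (nat_lit 934510), [(nat_lit 2032000000), (nat_lit 4688000000), (nat_lit 7968000000)], [], [(nat_lit 32434002398), (nat_lit 34413496649), (nat_lit 35073328066), (nat_lit 36667226823), (nat_lit 34511837032), (nat_lit 36142111251), (nat_lit 36685535990), (nat_lit 38710515709)], (nat_lit 1271251), (nat_lit 1271251), (nat_lit 1271251), (nat_lit 1271251), (nat_lit 1271251), (nat_lit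 1271251), [(nat_lit 490000), (nat_lit 1100000), (nat_lit 1785001)], [(nat_lit 4), (nat_lit 51), (nat_lit 246), (nat_lit 0), (nat_lit 6)]⟩,
 ⟨⟨[(nat_lit 120), (nat_lit 160), (nat_lit 200)], [(nat_lit 0), (nat_lit 0), (nat_lit 3198)], [((nat_lit 0), (nat_lit 0), (nat_lit 0)), ((nat_lit 0), (nat_lit 0), (nat_lit 0)), ((nat_lit 572), (nat_lit 1000), (nat_lit 714))], ((nat_lit 0), (nat_lit 0), (nat_lit 0))⟩, (nat_lit 171690), (nat_lit 300), (nat_lit 2175), (nat_lit 12094600), (nat_lit 3967347), [(nat_lit 1298784000), (nat_lit 1935136000), (nat_lit 2673200000)], [], [(nat_lit 9465686408), (nat_lit 9248162046), (nat_lit 8658517620), (nat_lit 8437477087), (nat_lit 9179316856), (nat_lit 8959739668), (nat_lit 8458604302), (nat_lit 8235417729)], (nat_lit 1100000), (nat_lit 1442501), (nat_lit 1100000), (nat_lit 2470001), (nat_lit 1271251), (nat_lit 1271251), [(nat_lit 1695001), (nat_lit 1271251), (nat_lit 1271251)], [(nat_lit 29), (nat_lit 66), (nat_lit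 654), (nat_lit 225), (nat_lit 13)]⟩⟩))
noncomputable def c18_12 : Tr Lf :=
 (.spl (nat_lit 6) (nat_lit 28) (.spl (nat_lit 3) (nat_lit 320) (.leaf ⟨(nat_lit 35), (nat_lit 965), (nat_lit 0), (nat_lit 0), (nat_lit 0), (nat_lit 5668), (nat_lit 6465), (nat_lit 0), (nat_lit 15610292111869), (nat_lit 0), (nat_lit 140000), [((nat_lit 380), [((nat_lit 41), (nat_lit 5), (nat_lit 35))])], ⟨(nat_lit 8), false, true, false, (nat_lit 303), (nat_lit 2236), (nat_lit 3163), [(nat_lit 1632548), (nat_lit 1636264), (nat_lit 1698823), (nat_lit 1704397), (nat_lit 1815720), (nat_lit 1807623), (nat_lit 1881994), (nat_lit 1875755)]⟩, ⟨(nat_lit 3), false, false, true, (nat_lit 164), (nat_lit 2236), (nat_lit 3163), [(nat_lit 1136876), (nat_lit 1152119), (nat_lit 1225242), (nat_lit 1242962), (nat_lit 1594239), (nat_lit 1579948), (nat_lit 1682859), (nat_lit 1671045)]⟩, (nat_lit 5109020), (nat_lit 36855411), (nat_lit 21937328), (nat_lit 8207261), (nat_lit 3), (nat_lit 0),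 [⟨(nat_lit 0), (nat_lit 69), (nat_lit 55), (nat_lit 100), (nat_lit 352962321)⟩], [⟨(nat_lit 1), (nat_lit 80), (nat_lit 60), (nat_lit 100), (nat_lit 283619999)⟩], [], [],
 ⟨⟨[(nat_lit 40), (nat_lit 60), (nat_lit 80)], [(nat_lit 0), (nat_lit 832), (nat_lit 1534)], [((nat_lit 0), (nat_lit 0), (nat_lit 0)), ((nat_lit 1000), (nat_lit 659), (nat_lit 528)), ((nat_lit 1000), (nat_lit 650), (nat_lit 549))], ((nat_lit 65), (nat_lit 100), (nat_lit 55))⟩, (nat_lit 1312523), (nat_lit 300), (nat_lit 456), (nat_lit 47407451), (nat_lit 1026270), [(nat_lit 1896298001), (nat_lit 3315910612), (nat_lit 3926274000)], [(nat_lit 0), (nat_lit 0), (nat_lit 0)], [(nat_lit 30150163373), (nat_lit 31065000557), (nat_lit 32694696334), (nat_lit 34077987622), (nat_lit 30904027388), (nat_lit 31483042723), (nat_lit 32214716284), (nat_lit 33331084024)], (nat_lit 1271251), (nat_lit 1271251), (nat_lit 1271251), (nat_lit 1271251), (nat_lit 111251), (nat_lit 2286250), [(nat_lit 490000),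 (nat_lit 780000), (nat_lit 1100000)], [(nat_lit 2), (nat_lit 44), (nat_lit 317), (nat_lit 100), (nat_lit 14)]⟩,
 ⟨⟨[(nat_lit 40), (nat_lit 80), (nat_lit 100)], [(nat_lit 0), (nat_lit 0), (nat_lit 1280)], [((nat_lit 0), (nat_lit 0), (nat_lit 0)), ((nat_lit 0), (nat_lit 0), (nat_lit 0)), ((nat_lit 1000), (nat_lit 800), (nat_lit 600))], ((nat_lit 80), (nat_lit 100), (nat_lit 51))⟩, (nat_lit 2334238), (nat_lit 317), (nat_lit 317), (nat_lit 0), (nat_lit 450990), [(nat_lit 1960880000), (nat_lit 4523920000), (nat_lit 6031250000)], [], [(nat_lit 24017057230), (nat_lit 30750001055), (nat_lit 30792394940), (nat_lit 36660591815), (nat_lit 22121960695), (nat_lit 25789312469), (nat_lit 25878553490), (nat_lit 30030371993)], (nat_lit 1271251), (nat_lit 1271251), (nat_lit 1271251), (nat_lit 1271251), (nat_lit 0), (nat_lit 1412501), [(nat_lit 490000), (nat_lit 1100000), (nat_lit 1442501)], [(nat_lit 3), (nat_lit 50), (nat_lit 260), (nat_lit 50), (nat_lit 9)]⟩,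
 Rw.none⟩) (.leaf ⟨(nat_lit 35), (nat_lit 965), (nat_lit 0), (nat_lit 0), (nat_lit 0), (nat_lit 5273), (nat_lit 6233), (nat_lit 0), (nat_lit 15071599401514), (nat_lit 0), (nat_lit 140000), [((nat_lit 380), [((nat_lit 41), (nat_lit 5), (nat_lit 35))])], ⟨(nat_lit 8), false, true, true, (nat_lit 362), (nat_lit 2236), (nat_lit 3163), [(nat_lit 1815720), (nat_lit 1807623), (nat_lit 1881994), (nat_lit 1875755), (nat_lit 1937695), (nat_lit 1921722), (nat_lit 2004104), (nat_lit 1989990)]⟩, ⟨(nat_lit 3), false, false, true, (nat_lit 164), (nat_lit 2236), (nat_lit 3163), [(nat_lit 1136876), (nat_lit 1152119), (nat_lit 1225242), (nat_lit 1242962), (nat_lit 1594239), (nat_lit 1579948), (nat_lit 1682859), (nat_lit 1671045)]⟩, (nat_lit 5152746), (nat_lit 32559976), (nat_lit 26966988), (nat_lit 7473036), (nat_lit 3), (nat_lit 0), [], [⟨(nat_lit 1), (nat_lit 96), (nat_lit 54), (nat_lit 100), (nat_lit 220147246)⟩], [], [⟨(nat_lit 0), (nat_lit 100), (nat_lit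 61), (nat_lit 71), (nat_lit 58240933)⟩],
 ⟨⟨[(nat_lit 40), (nat_lit 60), (nat_lit 80)], [(nat_lit 0), (nat_lit 832), (nat_lit 1534)], [((nat_lit 0), (nat_lit 0), (nat_lit 0)), ((nat_lit 1000), (nat_lit 659), (nat_lit 528)), ((nat_lit 1000), (nat_lit 650), (nat_lit 549))], ((nat_lit 65), (nat_lit 100), (nat_lit 55))⟩, (nat_lit 1197485), (nat_lit 300), (nat_lit 469), (nat_lit 47407451), (nat_lit 1026270), [(nat_lit 1896298001), (nat_lit 3303968890), (nat_lit 3926274000)], [(nat_lit 0), (nat_lit 0), (nat_lit 0)], [(nat_lit 34793665776), (nat_lit 35473835271), (nat_lit 37534468843), (nat_lit 38859079104), (nat_lit 34591792193), (nat_lit 35027770638), (nat_lit 36173522873), (nat_lit 36531333403)], (nat_lit 1271251), (nat_lit 1271251), (nat_lit 1271251), (nat_lit 1271251), (nat_lit 111251), (nat_lit 2286250), [(nat_lit 490000), (nat_lit 780000), (nat_lit 1100000)], [(nat_lit 2), (nat_lit 44), (nat_lit 317), (nat_lit 100), (nat_lit 13)]⟩,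
 ⟨⟨[(nat_lit 40), (nat_lit 80), (nat_lit 100)], [(nat_lit 0), (nat_lit 0), (nat_lit 1280)], [((nat_lit 0), (nat_lit 0), (nat_lit 0)), ((nat_lit 0), (nat_lit 0), (nat_lit 0)), ((nat_lit 1000), (nat_lit 800), (nat_lit 600))], ((nat_lit 80), (nat_lit 100), (nat_lit 51))⟩, (nat_lit 2239343), (nat_lit 333), (nat_lit 333), (nat_lit 0), (nat_lit 450990), [(nat_lit 1960880000), (nat_lit 4523920000), (nat_lit 6031250000)], [], [(nat_lit 30498911076), (nat_lit 36056288423), (nat_lit 37967582688), (nat_lit 42279509118), (nat_lit 27758778004), (nat_lit 30090027562), (nat_lit 31312112680), (nat_lit 34826952525)], (nat_lit 1271251), (nat_lit 1271251), (nat_lit 1271251), (nat_lit 1271251), (nat_lit 0), (nat_lit 1412501), [(nat_lit 490000), (nat_lit 1100000), (nat_lit 1442501)], [(nat_lit 3), (nat_lit 50), (nat_lit 260), (nat_lit 50), (nat_lit 9)]⟩,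
 Rw.none⟩)) (.spl (nat_lit 2) (nat_lit 160) (.trX (nat_lit 4) (nat_lit 0) (nat_lit 2) (nat_lit 61) (nat_lit 92) (nat_lit 100) (nat_lit 290) (.leaf ⟨(nat_lit 29), (nat_lit 971), (nat_lit 0), (nat_lit 0), (nat_lit 0), (nat_lit 5803), (nat_lit 5976), (nat_lit 0), (nat_lit 13186476500575), (nat_lit 0), (nat_lit 116000), [((nat_lit 380), [((nat_lit 41), (nat_lit 5), (nat_lit 29))])], ⟨(nat_lit 8), false, true, false, (nat_lit 326), (nat_lit 2236), (nat_lit 3163), [(nat_lit 1632548), (nat_lit 1636264), (nat_lit 1698823), (nat_lit 1704397), (nat_lit 1937695), (nat_lit 1921722), (nat_lit 2004104), (nat_lit 1989990)]⟩, ⟨(nat_lit 3), false, false, true, (nat_lit 146), (nat_lit 2236), (nat_lit 3163), [(nat_lit 1136876), (nat_lit 1152119), (nat_lit 1181059), (nat_lit 1197540), (nat_lit 1548524), (nat_lit 1537186), (nat_lit 1592834), (nat_lit 1582735)]⟩, (nat_lit 4990287), (nat_lit 35844134), (nat_lit 24423019), (nat_lit 6732847), (nat_lit 3), (nat_lit 0),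 [⟨(nat_lit 0), (nat_lit 56), (nat_lit 56), (nat_lit 100), (nat_lit 308956053)⟩], [⟨(nat_lit 1), (nat_lit 100), (nat_lit 54), (nat_lit 98), (nat_lit 199516687)⟩], [], [],
 ⟨⟨[(nat_lit 40), (nat_lit 80), (nat_lit 100)], [(nat_lit 0), (nat_lit 1598), (nat_lit 2533)], [((nat_lit 0), (nat_lit 0), (nat_lit 0)), ((nat_lit 1000), (nat_lit 625), (nat_lit 623)), ((nat_lit 1000), (nat_lit 604), (nat_lit 730))], ((nat_lit 61), (nat_lit 100), (nat_lit 68))⟩, (nat_lit 183386), (nat_lit 300), (nat_lit 435), (nat_lit 47989033), (nat_lit 793411), [(nat_lit 1919561202), (nat_lit 4100608280), (nat_lit 5263420000)], [(nat_lit 0), (nat_lit 0), (nat_lit 0)], [(nat_lit 33935747231), (nat_lit 34817340963), (nat_lit 39012332768), (nat_lit 40404848086), (nat_lit 33262559760), (nat_lit 33855221010), (nat_lit 36175761549), (nat_lit 36545330627)], (nat_lit 1271251), (nat_lit 1271251), (nat_lit 1271251), (nat_lit 1271251), (nat_lit 111251), (nat_lit 2068751), [(nat_lit 490000),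 (nat_lit 1100000), (nat_lit 1442501)], [(nat_lit 3), (nat_lit 50), (nat_lit 289), (nat_lit 75), (nat_lit 10)]⟩,
 ⟨⟨[(nat_lit 40), (nat_lit 80), (nat_lit 120)], [(nat_lit 0), (nat_lit 0), (nat_lit 2151)], [((nat_lit 0), (nat_lit 0), (nat_lit 0)), ((nat_lit 0), (nat_lit 0), (nat_lit 0)), ((nat_lit 1000), (nat_lit 815), (nat_lit 753))], ((nat_lit 80), (nat_lit 100), (nat_lit 68))⟩, (nat_lit 1979593), (nat_lit 333), (nat_lit 333), (nat_lit 0), (nat_lit 370241), [(nat_lit 1973072000), (nat_lit 4552048000), (nat_lit 7736928000)], [], [(nat_lit 26225282037), (nat_lit 30117109998), (nat_lit 37376207816), (nat_lit 41600194400), (nat_lit 24196419739), (nat_lit 27246732558), (nat_lit 31156058328), (nat_lit 34606367709)], (nat_lit 1271251), (nat_lit 1271251), (nat_lit 1271251), (nat_lit 1271251), (nat_lit 0), (nat_lit 1412501), [(nat_lit 490000), (nat_lit 1100000), (nat_lit 1785001)], [(nat_lit 4), (nat_lit 51), (nat_lit 373), (nat_lit 150), (nat_lit 12)]⟩,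
 Rw.none⟩)) (.trZ (nat_lit 0) (nat_lit 2) (nat_lit 4) (nat_lit 100) (nat_lit 61) (nat_lit 68) (nat_lit 50) (.trZ (nat_lit 1) (nat_lit 2) (nat_lit 5) (nat_lit 100) (nat_lit 82) (nat_lit 44) (nat_lit 10) (.leaf ⟨(nat_lit 0), (nat_lit 877), (nat_lit 0), (nat_lit 123), (nat_lit 0), (nat_lit 5771), (nat_lit 5653), (nat_lit 1303), (nat_lit 9348427264313), (nat_lit 0), (nat_lit 0), [], Pd.none, Pd.none, (nat_lit 0), (nat_lit 1), (nat_lit 0), (nat_lit 0), (nat_lit 4), (nat_lit 0), [⟨(nat_lit 0), (nat_lit 56), (nat_lit 56), (nat_lit 100), (nat_lit 350962282)⟩], [⟨(nat_lit 1), (nat_lit 90), (nat_lit 53), (nat_lit 100), (nat_lit 107116757)⟩], [], [],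
 ⟨⟨[(nat_lit 40), (nat_lit 80), (nat_lit 100)], [(nat_lit 0), (nat_lit 1598), (nat_lit 2533)], [((nat_lit 0), (nat_lit 0), (nat_lit 0)), ((nat_lit 1000), (nat_lit 625), (nat_lit 623)), ((nat_lit 1000), (nat_lit 604), (nat_lit 730))], ((nat_lit 61), (nat_lit 100), (nat_lit 68))⟩, (nat_lit 461903), (nat_lit 300), (nat_lit 366), (nat_lit 50800001), (nat_lit 667145), [(nat_lit 2032000002), (nat_lit 4767504390), (nat_lit 6250000000)], [], [(nat_lit 32168744288), (nat_lit 33184811261), (nat_lit 37757672334), (nat_lit 38396469073), (nat_lit 33501066152), (nat_lit 34154546310), (nat_lit 36759225451), (nat_lit 37214993281)], (nat_lit 1271251), (nat_lit 1271251), (nat_lit 1271251), (nat_lit 1271251), (nat_lit 292188), (nat_lit 2325625), [(nat_lit 490000), (nat_lit 1100000), (nat_lit 1442501)], [(nat_lit 3), (nat_lit 50), (nat_lit 317), (nat_lit 100), (nat_lit 11)]⟩,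
 ⟨⟨[(nat_lit 40), (nat_lit 80), (nat_lit 120)], [(nat_lit 0), (nat_lit 0), (nat_lit 2151)], [((nat_lit 0), (nat_lit 0), (nat_lit 0)), ((nat_lit 0), (nat_lit 0), (nat_lit 0)), ((nat_lit 1000), (nat_lit 815), (nat_lit 753))], ((nat_lit 80), (nat_lit 100), (nat_lit 68))⟩, (nat_lit 2059537), (nat_lit 304), (nat_lit 304), (nat_lit 0), (nat_lit 312116), [(nat_lit 2032000000), (nat_lit 4688000000), (nat_lit 7968000000)], [], [(nat_lit 27603067568), (nat_lit 31397258020), (nat_lit 36468478595), (nat_lit 40606209689), (nat_lit 26277286753), (nat_lit 29289623854), (nat_lit 33152463368), (nat_lit 35326082092)], (nat_lit 1271251), (nat_lit 1271251), (nat_lit 1271251), (nat_lit 1271251), (nat_lit 54688), (nat_lit 1414376), [(nat_lit 490000), (nat_lit 1100000), (nat_lit 1785001)], [(nat_lit 4), (nat_lit 51), (nat_lit 373), (nat_lit 150), (nat_lit 12)]⟩,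
 ⟨⟨[(nat_lit 120), (nat_lit 160), (nat_lit 200)], [(nat_lit 0), (nat_lit 0), (nat_lit 3198)], [((nat_lit 0), (nat_lit 0), (nat_lit 0)), ((nat_lit 0), (nat_lit 0), (nat_lit 0)), ((nat_lit 572), (nat_lit 1000), (nat_lit 714))], ((nat_lit 0), (nat_lit 0), (nat_lit 0))⟩, (nat_lit 60000), (nat_lit 300), (nat_lit 1880), (nat_lit 9126600), (nat_lit 2966173), [(nat_lit 980064000), (nat_lit 1460256000), (nat_lit 2017200000)], [], [(nat_lit 9571011333), (nat_lit 9405127733), (nat_lit 8282958122), (nat_lit 8113292467), (nat_lit 8475741857), (nat_lit 8307869472), (nat_lit 7989182980), (nat_lit 8770156895)], (nat_lit 1100000), (nat_lit 1442501), (nat_lit 292188), (nat_lit 2325625), (nat_lit 54688), (nat_lit 1414376), [(nat_lit 1695001), (nat_lit 1271251), (nat_lit 1271251)], [(nat_lit 29), (nat_lit 66), (nat_lit 560), (nat_lit 200), (nat_lit 12)]⟩⟩)))))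
noncomputable def c18_13 : Tr Lf :=
 (.spl (nat_lit 6) (nat_lit 28) (.spl (nat_lit 2) (nat_lit 160) (.trX (nat_lit 4) (nat_lit 0) (nat_lit 2) (nat_lit 61) (nat_lit 92) (nat_lit 100) (nat_lit 290) (.trX (nat_lit 5) (nat_lit 1) (nat_lit 2) (nat_lit 82) (nat_lit 76) (nat_lit 100) (nat_lit 340) (.spl (nat_lit 6) (nat_lit 16) (.leaf ⟨(nat_lit 35), (nat_lit 965), (nat_lit 0), (nat_lit 0), (nat_lit 0), (nat_lit 5328), (nat_lit 5018), (nat_lit 0), (nat_lit 1743345057240), (nat_lit 0), (nat_lit 140000), [((nat_lit 380), [((nat_lit 41), (nat_lit 5), (nat_lit 35))])], ⟨(nat_lit 8), false, true, false, (nat_lit 326), (nat_lit 2236), (nat_lit 3163), [(nat_lit 1632548), (nat_lit 1636264), (nat_lit 1698823), (nat_lit 1704397), (nat_lit 1937695), (nat_lit 1921722), (nat_lit 2004104), (nat_lit 1989990)]⟩, ⟨(nat_lit 3), false, false, true, (nat_lit 146), (nat_lit 2236), (nat_lit 3163), [(nat_lit 1136876), (nat_lit 1152119), (nat_lit 1181059), (nat_lit 1197540),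 (nat_lit 1548524), (nat_lit 1537186), (nat_lit 1592834), (nat_lit 1582735)]⟩, (nat_lit 4990287), (nat_lit 35844134), (nat_lit 24423019), (nat_lit 6732847), (nat_lit 5), (nat_lit 0), [⟨(nat_lit 0), (nat_lit 69), (nat_lit 55), (nat_lit 100), (nat_lit 2929967)⟩], [⟨(nat_lit 1), (nat_lit 92), (nat_lit 61), (nat_lit 100), (nat_lit 179221688)⟩], [⟨(nat_lit 1), (nat_lit 96), (nat_lit 69), (nat_lit 100), (nat_lit 570417847)⟩], [],
 ⟨⟨[(nat_lit 40), (nat_lit 60)], [(nat_lit 0), (nat_lit 832)], [((nat_lit 0), (nat_lit 0), (nat_lit 0)), ((nat_lit 1000), (nat_lit 659), (nat_lit 528))], ((nat_lit 69), (nat_lit 100), (nat_lit 45))⟩, (nat_lit 520727), (nat_lit 300), (nat_lit 424), (nat_lit 47407451), (nat_lit 1024283), [(nat_lit 1896298003), (nat_lit 2877456000)], [(nat_lit 0), (nat_lit 0)], [(nat_lit 27020891539), (nat_lit 28048346026), (nat_lit 37687832080), (nat_lit 39019489092), (nat_lit 28338680626), (nat_lit 29037508185), (nat_lit 34974704606), (nat_lit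 35893709595)], (nat_lit 1271251), (nat_lit 1271251), (nat_lit 1271251), (nat_lit 1271251), (nat_lit 111251), (nat_lit 2068751), [(nat_lit 490000), (nat_lit 780000)], [(nat_lit 1), (nat_lit 38), (nat_lit 289), (nat_lit 75), (nat_lit 16)]⟩,
 ⟨⟨[(nat_lit 40), (nat_lit 60), (nat_lit 80)], [(nat_lit 0), (nat_lit 0), (nat_lit 615)], [((nat_lit 0), (nat_lit 0), (nat_lit 0)), ((nat_lit 0), (nat_lit 0), (nat_lit 0)), ((nat_lit 1000), (nat_lit 819), (nat_lit 426))], ((nat_lit 82), (nat_lit 100), (nat_lit 40))⟩, (nat_lit 3321686), (nat_lit 206), (nat_lit 206), (nat_lit 0), (nat_lit 448068), [(nat_lit 1960880000), (nat_lit 3167130000), (nat_lit 4523920000)], [], [(nat_lit 21155218676), (nat_lit 24712923934), (nat_lit 29871219880), (nat_lit 33031180702), (nat_lit 26177624866), (nat_lit 29650194592), (nat_lit 33523081925), (nat_lit 35842542608)], (nat_lit 1271251), (nat_lit 1271251), (nat_lit 1271251), (nat_lit 1271251), (nat_lit 1271251), (nat_lit 1271251),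 [(nat_lit 490000), (nat_lit 780000), (nat_lit 1100000)], [(nat_lit 2), (nat_lit 44), (nat_lit 203), (nat_lit 0), (nat_lit 7)]⟩,
 Rw.none⟩) (.spl (nat_lit 1) (nat_lit 360) (.leaf ⟨(nat_lit 35), (nat_lit 965), (nat_lit 0), (nat_lit 0), (nat_lit 0), (nat_lit 5567), (nat_lit 5840), (nat_lit 0), (nat_lit 0), (nat_lit 0), (nat_lit 140000), [((nat_lit 380), [((nat_lit 41), (nat_lit 5), (nat_lit 35))])], ⟨(nat_lit 8), false, true, false, (nat_lit 322), (nat_lit 2236), (nat_lit 3163), [(nat_lit 1632548), (nat_lit 1636264), (nat_lit 1676731), (nat_lit 1681686), (nat_lit 1937695), (nat_lit 1921722), (nat_lit 1981997), (nat_lit 1967262)]⟩, ⟨(nat_lit 3), false, false, true, (nat_lit 146), (nat_lit 2236), (nat_lit 3163), [(nat_lit 1136876), (nat_lit 1152119), (nat_lit 1181059), (nat_lit 1197540), (nat_lit 1548524), (nat_lit 1537186), (nat_lit 1592834), (nat_lit 1582735)]⟩, (nat_lit 4985027), (nat_lit 36190040), (nat_lit 24029755), (nat_lit 6780205), (nat_lit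 5), (nat_lit 0), [⟨(nat_lit 0), (nat_lit 73), (nat_lit 54), (nat_lit 100), (nat_lit 74856205)⟩], [⟨(nat_lit 1), (nat_lit 92), (nat_lit 61), (nat_lit 100), (nat_lit 167950741)⟩], [⟨(nat_lit 1), (nat_lit 92), (nat_lit 75), (nat_lit 100), (nat_lit 496659165)⟩], [],
 ⟨⟨[(nat_lit 40), (nat_lit 60), (nat_lit 80)], [(nat_lit 0), (nat_lit 832), (nat_lit 1534)], [((nat_lit 0), (nat_lit 0), (nat_lit 0)), ((nat_lit 1000), (nat_lit 659), (nat_lit 528)), ((nat_lit 1000), (nat_lit 650), (nat_lit 549))], ((nat_lit 65), (nat_lit 100), (nat_lit 55))⟩, (nat_lit 87144), (nat_lit 300), (nat_lit 379), (nat_lit 47407451), (nat_lit 768369), [(nat_lit 1896298013), (nat_lit 2903047450), (nat_lit 3926274000)], [(nat_lit 0), (nat_lit 0), (nat_lit 0)], [(nat_lit 28760791293), (nat_lit 29834670905), (nat_lit 38354265058), (nat_lit 39716543407), (nat_lit 29446416256), (nat_lit 30171075917), (nat_lit 35285724747), (nat_lit 36221577862)], (nat_lit 1271251), (nat_lit 1271251),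 (nat_lit 1271251), (nat_lit 1271251), (nat_lit 111251), (nat_lit 2068751), [(nat_lit 490000), (nat_lit 780000), (nat_lit 1100000)], [(nat_lit 2), (nat_lit 44), (nat_lit 289), (nat_lit 75), (nat_lit 12)]⟩,
 ⟨⟨[(nat_lit 40), (nat_lit 80), (nat_lit 100)], [(nat_lit 0), (nat_lit 0), (nat_lit 1280)], [((nat_lit 0), (nat_lit 0), (nat_lit 0)), ((nat_lit 0), (nat_lit 0), (nat_lit 0)), ((nat_lit 1000), (nat_lit 800), (nat_lit 600))], ((nat_lit 80), (nat_lit 100), (nat_lit 51))⟩, (nat_lit 1344730), (nat_lit 210), (nat_lit 210), (nat_lit 0), (nat_lit 382038), [(nat_lit 1960880000), (nat_lit 4523920000), (nat_lit 6031250000)], [], [(nat_lit 22291833940), (nat_lit 24866151133), (nat_lit 30846046120), (nat_lit 33112747330), (nat_lit 27331768960), (nat_lit 29213650847), (nat_lit 34551292955), (nat_lit 36186749265)], (nat_lit 1271251), (nat_lit 1271251), (nat_lit 1271251), (nat_lit 1271251), (nat_lit 1271251), (nat_lit 1271251), [(nat_lit 490000), (nat_lit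 1100000), (nat_lit 1442501)], [(nat_lit 3), (nat_lit 50), (nat_lit 203), (nat_lit 0), (nat_lit 6)]⟩,
 Rw.none⟩) (.trZ (nat_lit 0) (nat_lit 1) (nat_lit 3) (nat_lit 63) (nat_lit 63) (nat_lit 100) (nat_lit 250) (.trX (nat_lit 5) (nat_lit 1) (nat_lit 2) (nat_lit 61) (nat_lit 92) (nat_lit 100) (nat_lit 290) (.leaf ⟨(nat_lit 0), (nat_lit 1000), (nat_lit 0), (nat_lit 0), (nat_lit 0), (nat_lit 5889), (nat_lit 4327), (nat_lit 0), (nat_lit 3520373239038), (nat_lit 0), (nat_lit 0), [], Pd.none, Pd.none, (nat_lit 0), (nat_lit 1), (nat_lit 0), (nat_lit 0), (nat_lit 5), (nat_lit 0), [], [⟨(nat_lit 1), (nat_lit 100), (nat_lit 54), (nat_lit 98), (nat_lit 178098388)⟩], [⟨(nat_lit 1), (nat_lit 100), (nat_lit 54), (nat_lit 98), (nat_lit 577715963)⟩], [],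
 ⟨⟨[(nat_lit 40), (nat_lit 60), (nat_lit 80)], [(nat_lit 0), (nat_lit 832), (nat_lit 1534)], [((nat_lit 0), (nat_lit 0), (nat_lit 0)), ((nat_lit 1000), (nat_lit 659), (nat_lit 528)), ((nat_lit 1000), (nat_lit 650), (nat_lit 549))], ((nat_lit 65), (nat_lit 100), (nat_lit 55))⟩, (nat_lit 406780), (nat_lit 300), (nat_lit 420), (nat_lit 50800001), (nat_lit 877583), [(nat_lit 2032000001), (nat_lit 3337429322), (nat_lit 4688000000)], [], [(nat_lit 31227179955), (nat_lit 32141475209), (nat_lit 39252137103), (nat_lit 40655670978), (nat_lit 30912752595), (nat_lit 31526904714), (nat_lit 35704756066), (nat_lit 36663308329)], (nat_lit 1271251), (nat_lit 1271251), (nat_lit 1271251), (nat_lit 1271251), (nat_lit 111251), (nat_lit 2068751), [(nat_lit 490000), (nat_lit 780000), (nat_lit 1100000)], [(nat_lit 2), (nat_lit 44), (nat_lit 289), (nat_lit 75), (nat_lit 12)]⟩,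
 ⟨⟨[(nat_lit 40), (nat_lit 60), (nat_lit 80)], [(nat_lit 0), (nat_lit 832), (nat_lit 1534)], [((nat_lit 0), (nat_lit 0), (nat_lit 0)), ((nat_lit 1000), (nat_lit 659), (nat_lit 528)), ((nat_lit 1000), (nat_lit 650), (nat_lit 549))], ((nat_lit 65), (nat_lit 100), (nat_lit 55))⟩, (nat_lit 1356750), (nat_lit 191), (nat_lit 191), (nat_lit 0), (nat_lit 391349), [(nat_lit 2032000000), (nat_lit 3282000000), (nat_lit 4688000000)], [], [(nat_lit 25354941188), (nat_lit 26371560760), (nat_lit 31932379607), (nat_lit 32938907491), (nat_lit 27596411228), (nat_lit 28498633516), (nat_lit 33672063767), (nat_lit 34520504012)], (nat_lit 1271251), (nat_lit 1271251), (nat_lit 1271251), (nat_lit 1271251), (nat_lit 1271251), (nat_lit 1271251), [(nat_lit 490000), (nat_lit 780000), (nat_lit 1100000)], [(nat_lit 2), (nat_lit 44), (nat_lit 203), (nat_lit 0), (nat_lit 7)]⟩,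
 Rw.none⟩))))))) (.trZ (nat_lit 0) (nat_lit 2) (nat_lit 4) (nat_lit 100) (nat_lit 61) (nat_lit 68) (nat_lit 50) (.leaf ⟨(nat_lit 36), (nat_lit 834), (nat_lit 0), (nat_lit 130), (nat_lit 0), (nat_lit 5537), (nat_lit 5554), (nat_lit 1422), (nat_lit 5352290640215), (nat_lit 0), (nat_lit 144000), [((nat_lit 380), [((nat_lit 41), (nat_lit 5), (nat_lit 36))])], ⟨(nat_lit 8), false, true, false, (nat_lit 326), (nat_lit 2236), (nat_lit 3163), [(nat_lit 1632548), (nat_lit 1636264), (nat_lit 1698823), (nat_lit 1704397), (nat_lit 1937695), (nat_lit 1921722), (nat_lit 2004104), (nat_lit 1989990)]⟩, ⟨(nat_lit 4), false, false, true, (nat_lit 182), (nat_lit 2236), (nat_lit 3163), [(nat_lit 1226852), (nat_lit 1240380), (nat_lit 1271035), (nat_lit 1285802), (nat_lit 1638549), (nat_lit 1625497), (nat_lit 1682859), (nat_lit 1671045)]⟩, (nat_lit 5283396), (nat_lit 34317782), (nat_lit 23543650), (nat_lit 9138568), (nat_lit 5), (nat_lit 0), [⟨(nat_lit 0), (nat_lit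 56), (nat_lit 56), (nat_lit 100), (nat_lit 185365154)⟩], [⟨(nat_lit 1), (nat_lit 90), (nat_lit 53), (nat_lit 100), (nat_lit 113166574)⟩, ⟨(nat_lit 1), (nat_lit 80), (nat_lit 60), (nat_lit 100), (nat_lit 30815427)⟩], [⟨(nat_lit 1), (nat_lit 82), (nat_lit 66), (nat_lit 100), (nat_lit 329966902)⟩], [],
 ⟨⟨[(nat_lit 40), (nat_lit 60), (nat_lit 80)], [(nat_lit 0), (nat_lit 832), (nat_lit 1534)], [((nat_lit 0), (nat_lit 0), (nat_lit 0)), ((nat_lit 1000), (nat_lit 659), (nat_lit 528)), ((nat_lit 1000), (nat_lit 650), (nat_lit 549))], ((nat_lit 65), (nat_lit 100), (nat_lit 55))⟩, (nat_lit 835660), (nat_lit 300), (nat_lit 408), (nat_lit 47353481), (nat_lit 894394), [(nat_lit 1894139201), (nat_lit 3210041963), (nat_lit 3904510400)], [(nat_lit 0), (nat_lit 0), (nat_lit 0)], [(nat_lit 29358401714), (nat_lit 30327859790), (nat_lit 36418549979), (nat_lit 37759354331), (nat_lit 31147808401), (nat_lit 31778070311), (nat_lit 36027121006), (nat_lit 36893755507)],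 (nat_lit 1271251), (nat_lit 1271251), (nat_lit 1271251), (nat_lit 1271251), (nat_lit 292188), (nat_lit 2325625), [(nat_lit 490000), (nat_lit 780000), (nat_lit 1100000)], [(nat_lit 2), (nat_lit 44), (nat_lit 317), (nat_lit 100), (nat_lit 14)]⟩,
 ⟨⟨[(nat_lit 40), (nat_lit 80), (nat_lit 100)], [(nat_lit 0), (nat_lit 0), (nat_lit 1280)], [((nat_lit 0), (nat_lit 0), (nat_lit 0)), ((nat_lit 0), (nat_lit 0), (nat_lit 0)), ((nat_lit 1000), (nat_lit 800), (nat_lit 600))], ((nat_lit 80), (nat_lit 100), (nat_lit 51))⟩, (nat_lit 2372696), (nat_lit 218), (nat_lit 218), (nat_lit 0), (nat_lit 395641), [(nat_lit 1958848000), (nat_lit 4519232000), (nat_lit 6025000000)], [], [(nat_lit 22247581234), (nat_lit 26265358774), (nat_lit 30709346572), (nat_lit 33796845911), (nat_lit 28641883620), (nat_lit 31427096472), (nat_lit 35013937188), (nat_lit 37278259086)], (nat_lit 1271251), (nat_lit 1271251), (nat_lit 1271251), (nat_lit 1271251), (nat_lit 1271251), (nat_lit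 1271251), [(nat_lit 490000), (nat_lit 1100000), (nat_lit 1442501)], [(nat_lit 3), (nat_lit 50), (nat_lit 203), (nat_lit 0), (nat_lit 6)]⟩,
 ⟨⟨[(nat_lit 120), (nat_lit 160), (nat_lit 180)], [(nat_lit 0), (nat_lit 0), (nat_lit 1613)], [((nat_lit 0), (nat_lit 0), (nat_lit 0)), ((nat_lit 0), (nat_lit 0), (nat_lit 0)), ((nat_lit 620), (nat_lit 1000), (nat_lit 670))], ((nat_lit 100), (nat_lit 76), (nat_lit 52))⟩, (nat_lit 255842), (nat_lit 300), (nat_lit 2205), (nat_lit 9646000), (nat_lit 3937234), [(nat_lit 1035840000), (nat_lit 1543360000), (nat_lit 1827540000)], [], [(nat_lit 7805352912), (nat_lit 7637468141), (nat_lit 7631601976), (nat_lit 8478100798), (nat_lit 7277264494), (nat_lit 7123179610), (nat_lit 6037361100), (nat_lit 5875520240)], (nat_lit 1100000), (nat_lit 1442501), (nat_lit 292188), (nat_lit 2325625), (nat_lit 1271251), (nat_lit 1271251), [(nat_lit 1695001), (nat_lit 1271251), (nat_lit 1271251)], [(nat_lit 28), (nat_lit 65), (nat_lit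 662), (nat_lit 225), (nat_lit 15)]⟩⟩))) (.spl (nat_lit 2) (nat_lit 160) (.trX (nat_lit 4) (nat_lit 0) (nat_lit 2) (nat_lit 61) (nat_lit 92) (nat_lit 100) (nat_lit 290) (.trX (nat_lit 5) (nat_lit 1) (nat_lit 2) (nat_lit 82) (nat_lit 76) (nat_lit 100) (nat_lit 340) (.spl (nat_lit 3) (nat_lit 320) (.spl (nat_lit 5) (nat_lit 280) (.leaf ⟨(nat_lit 0), (nat_lit 1000), (nat_lit 0), (nat_lit 0), (nat_lit 0), (nat_lit 6653), (nat_lit 6451), (nat_lit 0), (nat_lit 7839762832950), (nat_lit 0), (nat_lit 0), [], Pd.none, Pd.none, (nat_lit 0), (nat_lit 1), (nat_lit 0), (nat_lit 0), (nat_lit 5), (nat_lit 0), [⟨(nat_lit 0), (nat_lit 69), (nat_lit 55), (nat_lit 100), (nat_lit 499861560)⟩], [⟨(nat_lit 1), (nat_lit 92), (nat_lit 61), (nat_lit 100), (nat_lit 183559565)⟩], [⟨(nat_lit 1), (nat_lit 96), (nat_lit 69), (nat_lit 100), (nat_lit 199083714)⟩], [],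
 ⟨⟨[(nat_lit 40), (nat_lit 80), (nat_lit 100)], [(nat_lit 0), (nat_lit 1598), (nat_lit 2533)], [((nat_lit 0), (nat_lit 0), (nat_lit 0)), ((nat_lit 1000), (nat_lit 625), (nat_lit 623)), ((nat_lit 1000), (nat_lit 604), (nat_lit 730))], ((nat_lit 61), (nat_lit 100), (nat_lit 68))⟩, (nat_lit 461903), (nat_lit 300), (nat_lit 429), (nat_lit 50800001), (nat_lit 793411), [(nat_lit 2032000012), (nat_lit 4767767484), (nat_lit 6250000000)], [], [(nat_lit 32301155181), (nat_lit 33253251443), (nat_lit 34580879718), (nat_lit 36384516812), (nat_lit 30887890360), (nat_lit 31514689233), (nat_lit 32045407786), (nat_lit 33359783745)], (nat_lit 1271251), (nat_lit 1271251), (nat_lit 1271251), (nat_lit 1271251), (nat_lit 111251), (nat_lit 2068751), [(nat_lit 490000), (nat_lit 1100000), (nat_lit 1442501)], [(nat_lit 3), (nat_lit 50), (nat_lit 289), (nat_lit 75), (nat_lit 10)]⟩,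
 ⟨⟨[(nat_lit 40), (nat_lit 80), (nat_lit 120)], [(nat_lit 0), (nat_lit 0), (nat_lit 2151)], [((nat_lit 0), (nat_lit 0), (nat_lit 0)), ((nat_lit 0), (nat_lit 0), (nat_lit 0)), ((nat_lit 1000), (nat_lit 815), (nat_lit 753))], ((nat_lit 80), (nat_lit 100), (nat_lit 68))⟩, (nat_lit 1727333), (nat_lit 198), (nat_lit 198), (nat_lit 0), (nat_lit 370241), [(nat_lit 2032000000), (nat_lit 4688000000), (nat_lit 7968000000)], [], [(nat_lit 23293636875), (nat_lit 27127927734), (nat_lit 27147634163), (nat_lit 30860741610), (nat_lit 25650019002), (nat_lit 28898631176), (nat_lit 28823827232), (nat_lit 32800372286)], (nat_lit 1271251), (nat_lit 1271251), (nat_lit 1271251), (nat_lit 1271251), (nat_lit 1271251), (nat_lit 1271251), [(nat_lit 490000), (nat_lit 1100000), (nat_lit 1785001)], [(nat_lit 4), (nat_lit 51), (nat_lit 373), (nat_lit 150), (nat_lit 11)]⟩,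
 Rw.none⟩) (.leaf ⟨(nat_lit 35), (nat_lit 965), (nat_lit 0), (nat_lit 0), (nat_lit 0), (nat_lit 6761), (nat_lit 6774), (nat_lit 0), (nat_lit 1090991), (nat_lit 0), (nat_lit 140000), [((nat_lit 380), [((nat_lit 41), (nat_lit 5), (nat_lit 35))])], ⟨(nat_lit 8), false, true, false, (nat_lit 303), (nat_lit 2236), (nat_lit 3163), [(nat_lit 1632548), (nat_lit 1636264), (nat_lit 1698823), (nat_lit 1704397), (nat_lit 1815720), (nat_lit 1807623), (nat_lit 1881994), (nat_lit 1875755)]⟩, ⟨(nat_lit 3), false, false, true, (nat_lit 146), (nat_lit 2236), (nat_lit 3163), [(nat_lit 1136876), (nat_lit 1152119), (nat_lit 1181059), (nat_lit 1197540), (nat_lit 1548524), (nat_lit 1537186), (nat_lit 1592834), (nat_lit 1582735)]⟩, (nat_lit 4951938), (nat_lit 37693243), (nat_lit 22326892), (nat_lit 6979865), (nat_lit 7), (nat_lit 0), [⟨(nat_lit 0), (nat_lit 69), (nat_lit 55), (nat_lit 100), (nat_lit 258930686)⟩], [⟨(nat_lit 1), (nat_lit 100), (nat_lit 54), (nat_lit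 98), (nat_lit 123633534)⟩, ⟨(nat_lit 1), (nat_lit 92), (nat_lit 61), (nat_lit 100), (nat_lit 37283561)⟩], [⟨(nat_lit 1), (nat_lit 96), (nat_lit 69), (nat_lit 100), (nat_lit 504806145)⟩, ⟨(nat_lit 1), (nat_lit 76), (nat_lit 82), (nat_lit 100), (nat_lit 174381816)⟩], [],
 ⟨⟨[(nat_lit 40), (nat_lit 80), (nat_lit 100)], [(nat_lit 0), (nat_lit 1598), (nat_lit 2533)], [((nat_lit 0), (nat_lit 0), (nat_lit 0)), ((nat_lit 1000), (nat_lit 625), (nat_lit 623)), ((nat_lit 1000), (nat_lit 604), (nat_lit 730))], ((nat_lit 61), (nat_lit 100), (nat_lit 68))⟩, (nat_lit 125762), (nat_lit 300), (nat_lit 429), (nat_lit 47407451), (nat_lit 793411), [(nat_lit 1896298031), (nat_lit 3973341868), (nat_lit 5059300000)], [(nat_lit 0), (nat_lit 0), (nat_lit 0)], [(nat_lit 30495356389), (nat_lit 31454986377), (nat_lit 34621703191), (nat_lit 36637415444), (nat_lit 29009759066), (nat_lit 29681792594), (nat_lit 32147350282), (nat_lit 33473413947)], (nat_lit 1271251), (nat_lit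 1271251), (nat_lit 1271251), (nat_lit 1271251), (nat_lit 111251), (nat_lit 2068751), [(nat_lit 490000), (nat_lit 1100000), (nat_lit 1442501)], [(nat_lit 3), (nat_lit 50), (nat_lit 289), (nat_lit 75), (nat_lit 10)]⟩,
 ⟨⟨[(nat_lit 40), (nat_lit 80), (nat_lit 120)], [(nat_lit 0), (nat_lit 0), (nat_lit 2151)], [((nat_lit 0), (nat_lit 0), (nat_lit 0)), ((nat_lit 0), (nat_lit 0), (nat_lit 0)), ((nat_lit 1000), (nat_lit 815), (nat_lit 753))], ((nat_lit 80), (nat_lit 100), (nat_lit 68))⟩, (nat_lit 1272064), (nat_lit 205), (nat_lit 205), (nat_lit 0), (nat_lit 370241), [(nat_lit 1960880000), (nat_lit 4523920000), (nat_lit 7689120000)], [], [(nat_lit 24607953656), (nat_lit 28495879657), (nat_lit 28199983414), (nat_lit 32222045282), (nat_lit 27560359118), (nat_lit 31670804037), (nat_lit 31183394715), (nat_lit 34585549328)], (nat_lit 1271251), (nat_lit 1271251), (nat_lit 1271251), (nat_lit 1271251), (nat_lit 1271251), (nat_lit 1271251), [(nat_lit 490000),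 (nat_lit 1100000), (nat_lit 1785001)], [(nat_lit 4), (nat_lit 51), (nat_lit 317), (nat_lit 100), (nat_lit 9)]⟩,
 Rw.none⟩)) (.trZ (nat_lit 5) (nat_lit 3) (nat_lit 4) (nat_lit 80) (nat_lit 100) (nat_lit 60) (nat_lit 40) (.leaf ⟨(nat_lit 0), (nat_lit 1000), (nat_lit 0), (nat_lit 0), (nat_lit 0), (nat_lit 6167), (nat_lit 5593), (nat_lit 0), (nat_lit 2942201372066), (nat_lit 0), (nat_lit 0), [], Pd.none, Pd.none, (nat_lit 0), (nat_lit 1), (nat_lit 0), (nat_lit 0), (nat_lit 5), (nat_lit 0), [], [⟨(nat_lit 1), (nat_lit 100), (nat_lit 54), (nat_lit 98), (nat_lit 211477102)⟩], [⟨(nat_lit 1), (nat_lit 96), (nat_lit 69), (nat_lit 100), (nat_lit 478032327)⟩], [],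
 ⟨⟨[(nat_lit 40), (nat_lit 80), (nat_lit 100)], [(nat_lit 0), (nat_lit 1598), (nat_lit 2533)], [((nat_lit 0), (nat_lit 0), (nat_lit 0)), ((nat_lit 1000), (nat_lit 625), (nat_lit 623)), ((nat_lit 1000), (nat_lit 604), (nat_lit 730))], ((nat_lit 61), (nat_lit 100), (nat_lit 68))⟩, (nat_lit 461903), (nat_lit 300), (nat_lit 422), (nat_lit 50800002), (nat_lit 793411), [(nat_lit 2032000050), (nat_lit 4757909315), (nat_lit 6250000000)], [], [(nat_lit 35449619927), (nat_lit 36163062017), (nat_lit 38623786983), (nat_lit 40050424872), (nat_lit 34081317329), (nat_lit 34561833159), (nat_lit 36066528447), (nat_lit 37044678112)], (nat_lit 1271251), (nat_lit 1271251), (nat_lit 1271251), (nat_lit 1271251), (nat_lit 230000), (nat_lit 2089376), [(nat_lit 490000), (nat_lit 1100000), (nat_lit 1442501)], [(nat_lit 3), (nat_lit 50), (nat_lit 289), (nat_lit 75), (nat_lit 9)]⟩,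
 ⟨⟨[(nat_lit 40), (nat_lit 80), (nat_lit 120)], [(nat_lit 0), (nat_lit 0), (nat_lit 2151)], [((nat_lit 0), (nat_lit 0), (nat_lit 0)), ((nat_lit 0), (nat_lit 0), (nat_lit 0)), ((nat_lit 1000), (nat_lit 815), (nat_lit 753))], ((nat_lit 80), (nat_lit 100), (nat_lit 68))⟩, (nat_lit 1793555), (nat_lit 232), (nat_lit 232), (nat_lit 0), (nat_lit 370241), [(nat_lit 2032000000), (nat_lit 4688000000), (nat_lit 7968000000)], [], [(nat_lit 28489748573), (nat_lit 31247507110), (nat_lit 32166759955), (nat_lit 34810057390), (nat_lit 31836496597), (nat_lit 34180170990), (nat_lit 35230534945), (nat_lit 37698054778)], (nat_lit 1271251), (nat_lit 1271251), (nat_lit 1271251), (nat_lit 1271251), (nat_lit 1271251), (nat_lit 1271251), [(nat_lit 490000), (nat_lit 1100000), (nat_lit 1785001)], [(nat_lit 4), (nat_lit 51), (nat_lit 317), (nat_lit 100), (nat_lit 9)]⟩,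
 Rw.none⟩))))) (.trZ (nat_lit 0) (nat_lit 2) (nat_lit 4) (nat_lit 100) (nat_lit 61) (nat_lit 68) (nat_lit 50) (.leaf ⟨(nat_lit 0), (nat_lit 856), (nat_lit 0), (nat_lit 144), (nat_lit 0), (nat_lit 5990), (nat_lit 5761), (nat_lit 1536), (nat_lit 566410682342), (nat_lit 0), (nat_lit 0), [], Pd.none, Pd.none, (nat_lit 0), (nat_lit 1), (nat_lit 0), (nat_lit 0), (nat_lit 5), (nat_lit 0), [⟨(nat_lit 0), (nat_lit 56), (nat_lit 56), (nat_lit 100), (nat_lit 342062484)⟩], [⟨(nat_lit 1), (nat_lit 90), (nat_lit 53), (nat_lit 100), (nat_lit 92555117)⟩], [⟨(nat_lit 1), (nat_lit 82), (nat_lit 66), (nat_lit 100), (nat_lit 333539741)⟩], [],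
 ⟨⟨[(nat_lit 40), (nat_lit 80), (nat_lit 100)], [(nat_lit 0), (nat_lit 1598), (nat_lit 2533)], [((nat_lit 0), (nat_lit 0), (nat_lit 0)), ((nat_lit 1000), (nat_lit 625), (nat_lit 623)), ((nat_lit 1000), (nat_lit 604), (nat_lit 730))], ((nat_lit 61), (nat_lit 100), (nat_lit 68))⟩, (nat_lit 461903), (nat_lit 300), (nat_lit 366), (nat_lit 50800001), (nat_lit 667145), [(nat_lit 2032000001), (nat_lit 4761419630), (nat_lit 6250000000)], [], [(nat_lit 31530597899), (nat_lit 32565603582), (nat_lit 37499617378), (nat_lit 38897641009), (nat_lit 32725260650), (nat_lit 33387018534), (nat_lit 36621383620), (nat_lit 37515638890)], (nat_lit 1271251), (nat_lit 1271251), (nat_lit 1271251), (nat_lit 1271251), (nat_lit 292188), (nat_lit 2325625), [(nat_lit 490000), (nat_lit 1100000), (nat_lit 1442501)], [(nat_lit 3), (nat_lit 50), (nat_lit 317), (nat_lit 100), (nat_lit 11)]⟩,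
 ⟨⟨[(nat_lit 40), (nat_lit 80), (nat_lit 120)], [(nat_lit 0), (nat_lit 0), (nat_lit 2151)], [((nat_lit 0), (nat_lit 0), (nat_lit 0)), ((nat_lit 0), (nat_lit 0), (nat_lit 0)), ((nat_lit 1000), (nat_lit 815), (nat_lit 753))], ((nat_lit 80), (nat_lit 100), (nat_lit 68))⟩, (nat_lit 1780776), (nat_lit 197), (nat_lit 197), (nat_lit 0), (nat_lit 312116), [(nat_lit 2032000000), (nat_lit 4688000000), (nat_lit 7968000000)], [], [(nat_lit 24477220962), (nat_lit 28083107503), (nat_lit 31952549344), (nat_lit 35058361642), (nat_lit 30089551437), (nat_lit 32601211206), (nat_lit 36320972718), (nat_lit 38669795841)], (nat_lit 1271251), (nat_lit 1271251), (nat_lit 1271251), (nat_lit 1271251), (nat_lit 1271251), (nat_lit 1271251), [(nat_lit 490000), (nat_lit 1100000), (nat_lit 1785001)], [(nat_lit 4), (nat_lit 51), (nat_lit 428), (nat_lit 200), (nat_lit 13)]⟩,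
 ⟨⟨[(nat_lit 120), (nat_lit 160), (nat_lit 200)], [(nat_lit 0), (nat_lit 0), (nat_lit 3198)], [((nat_lit 0), (nat_lit 0), (nat_lit 0)), ((nat_lit 0), (nat_lit 0), (nat_lit 0)), ((nat_lit 572), (nat_lit 1000), (nat_lit 714))], ((nat_lit 0), (nat_lit 0), (nat_lit 0))⟩, (nat_lit 70244), (nat_lit 300), (nat_lit 1764), (nat_lit 10684800), (nat_lit 2966173), [(nat_lit 1147392000), (nat_lit 1709568000), (nat_lit 2361600000)], [], [(nat_lit 9750058944), (nat_lit 9549129102), (nat_lit 8409309696), (nat_lit 9328573248), (nat_lit 9170982804), (nat_lit 8969453856), (nat_lit 7660023840), (nat_lit 7463288832)], (nat_lit 1100000), (nat_lit 1442501), (nat_lit 292188), (nat_lit 2325625), (nat_lit 1271251), (nat_lit 1271251), [(nat_lit 1695001), (nat_lit 1271251), (nat_lit 1271251)], [(nat_lit 29), (nat_lit 66), (nat_lit 551), (nat_lit 225), (nat_lit 11)]⟩⟩))))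
noncomputable def c18_14 : Tr Lf :=
 (.stt (nat_lit 2) (.spl (nat_lit 6) (nat_lit 28) (.spl (nat_lit 1) (nat_lit 360) (.spl (nat_lit 4) (nat_lit 240) (.leaf ⟨(nat_lit 0), (nat_lit 923), (nat_lit 0), (nat_lit 77), (nat_lit 0), (nat_lit 4412), (nat_lit 6266), (nat_lit 751), (nat_lit 0), (nat_lit 0), (nat_lit 0), [], Pd.none, Pd.none, (nat_lit 0), (nat_lit 1), (nat_lit 0), (nat_lit 0), (nat_lit 5), (nat_lit 0), [⟨(nat_lit 0), (nat_lit 73), (nat_lit 54), (nat_lit 100), (nat_lit 75011500)⟩], [], [⟨(nat_lit 1), (nat_lit 59), (nat_lit 72), (nat_lit 100), (nat_lit 225270836)⟩, ⟨(nat_lit 1), (nat_lit 35), (nat_lit 84), (nat_lit 100), (nat_lit 8085490)⟩], [],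
 ⟨⟨[(nat_lit 40), (nat_lit 60), (nat_lit 80)], [(nat_lit 0), (nat_lit 832), (nat_lit 1534)], [((nat_lit 0), (nat_lit 0), (nat_lit 0)), ((nat_lit 1000), (nat_lit 659), (nat_lit 528)), ((nat_lit 1000), (nat_lit 650), (nat_lit 549))], ((nat_lit 65), (nat_lit 100), (nat_lit 55))⟩, (nat_lit 1393083), (nat_lit 118), (nat_lit 118), (nat_lit 0), (nat_lit 0), [(nat_lit 2032000001), (nat_lit 3282000002), (nat_lit 4688000000)], [], [(nat_lit 21843409593), (nat_lit 23262151681), (nat_lit 32333922824), (nat_lit 33517033236), (nat_lit 24217845821), (nat_lit 25332602967), (nat_lit 32501634904), (nat_lit 33450054460)], (nat_lit 0), (nat_lit 0), (nat_lit 0), (nat_lit 0), (nat_lit 0), (nat_lit 0), [], [(nat_lit 2), (nat_lit 44), (nat_lit 272), (nat_lit 60), (nat_lit 11)]⟩,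
 ⟨⟨[(nat_lit 40), (nat_lit 80), (nat_lit 100)], [(nat_lit 0), (nat_lit 0), (nat_lit 1280)], [((nat_lit 0), (nat_lit 0), (nat_lit 0)), ((nat_lit 0), (nat_lit 0), (nat_lit 0)), ((nat_lit 1000), (nat_lit 800), (nat_lit 600))], ((nat_lit 80), (nat_lit 100), (nat_lit 51))⟩, (nat_lit 405654), (nat_lit 157), (nat_lit 157), (nat_lit 0), (nat_lit 0), [(nat_lit 2032000000), (nat_lit 4688000000), (nat_lit 6250000000)], [], [(nat_lit 24402227740), (nat_lit 27779035460), (nat_lit 35994906388), (nat_lit 38873311434), (nat_lit 31853320726), (nat_lit 33922921472), (nat_lit 38350076635), (nat_lit 39807667219)], (nat_lit 0), (nat_lit 0), (nat_lit 0), (nat_lit 0), (nat_lit 0), (nat_lit 0), [], [(nat_lit 3), (nat_lit 50), (nat_lit 317), (nat_lit 100), (nat_lit 11)]⟩,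
 ⟨⟨[(nat_lit 100), (nat_lit 140), (nat_lit 160)], [(nat_lit 0), (nat_lit 0), (nat_lit 1280)], [((nat_lit 0), (nat_lit 0), (nat_lit 0)), ((nat_lit 0), (nat_lit 0), (nat_lit 0)), ((nat_lit 800), (nat_lit 1000), (nat_lit 600))], ((nat_lit 100), (nat_lit 86), (nat_lit 51))⟩, (nat_lit 37538), (nat_lit 300), (nat_lit 2043), (nat_lit 5413100), (nat_lit 3658841), [(nat_lit 481250000), (nat_lit 757834000), (nat_lit 914144000)], [], [(nat_lit 5096893204), (nat_lit 4980118948), (nat_lit 4735642517), (nat_lit 4618758073), (nat_lit 4374486648), (nat_lit 4256284369), (nat_lit 4899190984), (nat_lit 3903525698)], (nat_lit 1271251), (nat_lit 1271251), (nat_lit 490000), (nat_lit 1740001), (nat_lit 230000), (nat_lit 2833126), [(nat_lit 1412501), (nat_lit 1271251), (nat_lit 1271251)], [(nat_lit 23), (nat_lit 62), (nat_lit 622), (nat_lit 225), (nat_lit 16)]⟩⟩) (.leaf ⟨(nat_lit 0), (nat_lit 870), (nat_lit 0), (nat_lit 130), (nat_lit 0), (nat_lit 3654), (nat_lit 5692),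 (nat_lit 1317), (nat_lit 0), (nat_lit 0), (nat_lit 0), [], Pd.none, Pd.none, (nat_lit 0), (nat_lit 1), (nat_lit 0), (nat_lit 0), (nat_lit 6), (nat_lit 0), [⟨(nat_lit 0), (nat_lit 73), (nat_lit 54), (nat_lit 100), (nat_lit 147696907)⟩], [⟨(nat_lit 1), (nat_lit 77), (nat_lit 53), (nat_lit 100), (nat_lit 606822577)⟩], [⟨(nat_lit 1), (nat_lit 59), (nat_lit 72), (nat_lit 100), (nat_lit 175485279)⟩], [],
 ⟨⟨[(nat_lit 40), (nat_lit 60), (nat_lit 80)], [(nat_lit 0), (nat_lit 832), (nat_lit 1534)], [((nat_lit 0), (nat_lit 0), (nat_lit 0)), ((nat_lit 1000), (nat_lit 659), (nat_lit 528)), ((nat_lit 1000), (nat_lit 650), (nat_lit 549))], ((nat_lit 65), (nat_lit 100), (nat_lit 55))⟩, (nat_lit 1747325), (nat_lit 85), (nat_lit 85), (nat_lit 0), (nat_lit 0), [(nat_lit 2032000001), (nat_lit 3401681035), (nat_lit 4688000000)], [], [(nat_lit 24381462529), (nat_lit 25517508954), (nat_lit 31528482668), (nat_lit 32411439070), (nat_lit 29450084563), (nat_lit 30445418962),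 (nat_lit 35264176487), (nat_lit 35929844119)], (nat_lit 0), (nat_lit 0), (nat_lit 0), (nat_lit 0), (nat_lit 0), (nat_lit 0), [], [(nat_lit 2), (nat_lit 44), (nat_lit 203), (nat_lit 0), (nat_lit 7)]⟩,
 ⟨⟨[(nat_lit 40), (nat_lit 80), (nat_lit 100)], [(nat_lit 0), (nat_lit 0), (nat_lit 1280)], [((nat_lit 0), (nat_lit 0), (nat_lit 0)), ((nat_lit 0), (nat_lit 0), (nat_lit 0)), ((nat_lit 1000), (nat_lit 800), (nat_lit 600))], ((nat_lit 80), (nat_lit 100), (nat_lit 51))⟩, (nat_lit 1378464), (nat_lit 157), (nat_lit 157), (nat_lit 0), (nat_lit 0), [(nat_lit 2032000000), (nat_lit 4688000000), (nat_lit 6250000000)], [], [(nat_lit 23916312400), (nat_lit 27103459040), (nat_lit 34693867656), (nat_lit 37426573708), (nat_lit 31423763254), (nat_lit 33165116914), (nat_lit 37544583870), (nat_lit 38959282878)], (nat_lit 0), (nat_lit 0), (nat_lit 0), (nat_lit 0), (nat_lit 0), (nat_lit 0), [], [(nat_lit 3), (nat_lit 50), (nat_lit 317), (nat_lit 100), (nat_lit 11)]⟩,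
 ⟨⟨[(nat_lit 100), (nat_lit 140), (nat_lit 160)], [(nat_lit 0), (nat_lit 0), (nat_lit 1280)], [((nat_lit 0), (nat_lit 0), (nat_lit 0)), ((nat_lit 0), (nat_lit 0), (nat_lit 0)), ((nat_lit 800), (nat_lit 1000), (nat_lit 600))], ((nat_lit 100), (nat_lit 86), (nat_lit 51))⟩, (nat_lit 63375), (nat_lit 300), (nat_lit 1967), (nat_lit 9139000), (nat_lit 3658841), [(nat_lit 812500000), (nat_lit 1279460000), (nat_lit 1543360000)], [], [(nat_lit 7209138453), (nat_lit 7001253197), (nat_lit 6838286751), (nat_lit 6627242464), (nat_lit 5924641540), (nat_lit 5714549365), (nat_lit 5540416451), (nat_lit 5328315600)], (nat_lit 1271251), (nat_lit 1271251), (nat_lit 1271251), (nat_lit 1271251), (nat_lit 230000), (nat_lit 2833126), [(nat_lit 1412501), (nat_lit 1271251), (nat_lit 1271251)], [(nat_lit 23), (nat_lit 62), (nat_lit 620), (nat_lit 300), (nat_lit 15)]⟩⟩)) (.trZ (nat_lit 0) (nat_lit 1) (nat_lit 3) (nat_lit 63) (nat_lit 63) (nat_lit 100) (nat_lit 250) (.trZ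 (nat_lit 1) (nat_lit 2) (nat_lit 5) (nat_lit 100) (nat_lit 60) (nat_lit 80) (nat_lit 80) (.trX (nat_lit 5) (nat_lit 1) (nat_lit 2) (nat_lit 63) (nat_lit 61) (nat_lit 100) (nat_lit 370) (.leaf ⟨(nat_lit 0), (nat_lit 1000), (nat_lit 0), (nat_lit 0), (nat_lit 0), (nat_lit 4095), (nat_lit 4095), (nat_lit 0), (nat_lit 4544080318517), (nat_lit 0), (nat_lit 0), [], Pd.none, Pd.none, (nat_lit 0), (nat_lit 1), (nat_lit 0), (nat_lit 0), (nat_lit 5), (nat_lit 0), [⟨(nat_lit 0), (nat_lit 63), (nat_lit 63), (nat_lit 100), (nat_lit 66074210)⟩], [⟨(nat_lit 1), (nat_lit 61), (nat_lit 63), (nat_lit 100), (nat_lit 442549819)⟩], [⟨(nat_lit 1), (nat_lit 61), (nat_lit 63), (nat_lit 100), (nat_lit 442549734)⟩], [],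
 ⟨⟨[(nat_lit 40), (nat_lit 60), (nat_lit 80)], [(nat_lit 0), (nat_lit 832), (nat_lit 1534)], [((nat_lit 0), (nat_lit 0), (nat_lit 0)), ((nat_lit 1000), (nat_lit 659), (nat_lit 528)), ((nat_lit 1000), (nat_lit 650), (nat_lit 549))], ((nat_lit 65), (nat_lit 100), (nat_lit 55))⟩, (nat_lit 1225394), (nat_lit 118), (nat_lit 118), (nat_lit 0), (nat_lit 0), [(nat_lit 2032000187), (nat_lit 3282000242), (nat_lit 4688000000)], [], [(nat_lit 24358414072), (nat_lit 25602983075), (nat_lit 31704835690), (nat_lit 32848479285), (nat_lit 30824831810), (nat_lit 31813106777), (nat_lit 35895044848), (nat_lit 36580164108)], (nat_lit 0), (nat_lit 0), (nat_lit 0), (nat_lit 0), (nat_lit 0), (nat_lit 0), [], [(nat_lit 2), (nat_lit 44), (nat_lit 317), (nat_lit 100), (nat_lit 13)]⟩,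
 ⟨⟨[(nat_lit 40), (nat_lit 60), (nat_lit 80)], [(nat_lit 0), (nat_lit 832), (nat_lit 1534)], [((nat_lit 0), (nat_lit 0), (nat_lit 0)), ((nat_lit 1000), (nat_lit 659), (nat_lit 528)), ((nat_lit 1000), (nat_lit 650), (nat_lit 549))], ((nat_lit 65), (nat_lit 100), (nat_lit 55))⟩, (nat_lit 1225396), (nat_lit 118), (nat_lit 118), (nat_lit 0), (nat_lit 0), [(nat_lit 2032000000), (nat_lit 3282000000), (nat_lit 4688000000)], [], [(nat_lit 24358408911), (nat_lit 25602977914), (nat_lit 31704835690), (nat_lit 32848479285), (nat_lit 30824831810), (nat_lit 31813106777), (nat_lit 35895044848), (nat_lit 36580164108)], (nat_lit 0), (nat_lit 0), (nat_lit 0), (nat_lit 0), (nat_lit 0), (nat_lit 0), [], [(nat_lit 2), (nat_lit 44), (nat_lit 317), (nat_lit 100), (nat_lit 13)]⟩,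
 Rw.none⟩))))) (.spl (nat_lit 4) (nat_lit 240) (.leaf ⟨(nat_lit 0), (nat_lit 898), (nat_lit 0), (nat_lit 102), (nat_lit 0), (nat_lit 4254), (nat_lit 6183), (nat_lit 1005), (nat_lit 16647), (nat_lit 0), (nat_lit 0), [], Pd.none, Pd.none, (nat_lit 0), (nat_lit 1), (nat_lit 0), (nat_lit 0), (nat_lit 5), (nat_lit 0), [⟨(nat_lit 0), (nat_lit 69), (nat_lit 55), (nat_lit 100), (nat_lit 130205086)⟩], [], [⟨(nat_lit 1), (nat_lit 65), (nat_lit 67), (nat_lit 100), (nat_lit 220584257)⟩], [],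
 ⟨⟨[(nat_lit 40), (nat_lit 80), (nat_lit 100)], [(nat_lit 0), (nat_lit 1598), (nat_lit 2533)], [((nat_lit 0), (nat_lit 0), (nat_lit 0)), ((nat_lit 1000), (nat_lit 625), (nat_lit 623)), ((nat_lit 1000), (nat_lit 604), (nat_lit 730))], ((nat_lit 61), (nat_lit 100), (nat_lit 68))⟩, (nat_lit 1761679), (nat_lit 136), (nat_lit 136), (nat_lit 0), (nat_lit 0), [(nat_lit 2032000013), (nat_lit 4837029699), (nat_lit 6250000000)], [], [(nat_lit 21756375918), (nat_lit 23275807152), (nat_lit 32020371508), (nat_lit 33183810762), (nat_lit 24060622988), (nat_lit 25207636936), (nat_lit 32298787868), (nat_lit 33233562070)], (nat_lit 0), (nat_lit 0), (nat_lit 0), (nat_lit 0), (nat_lit 0), (nat_lit 0), [], [(nat_lit 3), (nat_lit 50), (nat_lit 272), (nat_lit 60), (nat_lit 9)]⟩,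
 ⟨⟨[(nat_lit 40), (nat_lit 80), (nat_lit 120)], [(nat_lit 0), (nat_lit 0), (nat_lit 2151)], [((nat_lit 0), (nat_lit 0), (nat_lit 0)), ((nat_lit 0), (nat_lit 0), (nat_lit 0)), ((nat_lit 1000), (nat_lit 815), (nat_lit 753))], ((nat_lit 80), (nat_lit 100), (nat_lit 68))⟩, (nat_lit 865754), (nat_lit 177), (nat_lit 177), (nat_lit 0), (nat_lit 0), [(nat_lit 2032000000), (nat_lit 4688000000), (nat_lit 7968000000)], [], [(nat_lit 26387417092), (nat_lit 31020912964), (nat_lit 36487442256), (nat_lit 40092782704), (nat_lit 32832508701), (nat_lit 35590505998), (nat_lit 38233602943), (nat_lit 40410685681)], (nat_lit 0), (nat_lit 0), (nat_lit 0), (nat_lit 0), (nat_lit 0), (nat_lit 0), [], [(nat_lit 4), (nat_lit 51), (nat_lit 428), (nat_lit 200), (nat_lit 13)]⟩,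
 ⟨⟨[(nat_lit 100), (nat_lit 140), (nat_lit 180)], [(nat_lit 0), (nat_lit 0), (nat_lit 2434)], [((nat_lit 0), (nat_lit 0), (nat_lit 0)), ((nat_lit 0), (nat_lit 0), (nat_lit 0)), ((nat_lit 726), (nat_lit 1000), (nat_lit 688))], ((nat_lit 100), (nat_lit 74), (nat_lit 67))⟩, (nat_lit 58836), (nat_lit 300), (nat_lit 1735), (nat_lit 7170607), (nat_lit 2922838), [(nat_lit 637500000), (nat_lit 1003884000), (nat_lit 1433916000)], [], [(nat_lit 6928639074), (nat_lit 6760707362), (nat_lit 6388647570), (nat_lit 6220294533), (nat_lit 5870120174), (nat_lit 5698694006), (nat_lit 6508988374), (nat_lit 5176573444)], (nat_lit 1271251), (nat_lit 1271251), (nat_lit 490000), (nat_lit 1740001), (nat_lit 230000), (nat_lit 2833126), [(nat_lit 1412501), (nat_lit 1271251), (nat_lit 1271251)], [(nat_lit 24), (nat_lit 63), (nat_lit 545), (nat_lit 225), (nat_lit 13)]⟩⟩) (.leaf ⟨(nat_lit 0), (nat_lit 845), (nat_lit 0), (nat_lit 155), (nat_lit 0), (nat_lit 3613), (nat_lit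 5573), (nat_lit 1562), (nat_lit 67265), (nat_lit 0), (nat_lit 0), [], Pd.none, Pd.none, (nat_lit 0), (nat_lit 1), (nat_lit 0), (nat_lit 0), (nat_lit 6), (nat_lit 0), [⟨(nat_lit 0), (nat_lit 69), (nat_lit 55), (nat_lit 100), (nat_lit 212275392)⟩], [⟨(nat_lit 1), (nat_lit 77), (nat_lit 53), (nat_lit 100), (nat_lit 518102307)⟩], [⟨(nat_lit 1), (nat_lit 65), (nat_lit 67), (nat_lit 100), (nat_lit 148950667)⟩], [],
 ⟨⟨[(nat_lit 40), (nat_lit 80), (nat_lit 100)], [(nat_lit 0), (nat_lit 1598), (nat_lit 2533)], [((nat_lit 0), (nat_lit 0), (nat_lit 0)), ((nat_lit 1000), (nat_lit 625), (nat_lit 623)), ((nat_lit 1000), (nat_lit 604), (nat_lit 730))], ((nat_lit 61), (nat_lit 100), (nat_lit 68))⟩, (nat_lit 1800804), (nat_lit 90), (nat_lit 90), (nat_lit 0), (nat_lit 0), [(nat_lit 2032000018), (nat_lit 4793007520), (nat_lit 6250000000)], [], [(nat_lit 24840469465), (nat_lit 25904105942), (nat_lit 31475845146), (nat_lit 32355260665), (nat_lit 29596810523), (nat_lit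 30401845067), (nat_lit 35205524327), (nat_lit 35869383531)], (nat_lit 0), (nat_lit 0), (nat_lit 0), (nat_lit 0), (nat_lit 0), (nat_lit 0), [], [(nat_lit 3), (nat_lit 50), (nat_lit 203), (nat_lit 0), (nat_lit 6)]⟩,
 ⟨⟨[(nat_lit 40), (nat_lit 80), (nat_lit 120)], [(nat_lit 0), (nat_lit 0), (nat_lit 2151)], [((nat_lit 0), (nat_lit 0), (nat_lit 0)), ((nat_lit 0), (nat_lit 0), (nat_lit 0)), ((nat_lit 1000), (nat_lit 815), (nat_lit 753))], ((nat_lit 80), (nat_lit 100), (nat_lit 68))⟩, (nat_lit 1715865), (nat_lit 177), (nat_lit 177), (nat_lit 0), (nat_lit 0), [(nat_lit 2032000000), (nat_lit 4688000000), (nat_lit 7968000000)], [], [(nat_lit 25321778511), (nat_lit 29684383143), (nat_lit 34478831619), (nat_lit 38477890359), (nat_lit 31903747258), (nat_lit 34176213992), (nat_lit 37377591468), (nat_lit 39486301746)], (nat_lit 0), (nat_lit 0), (nat_lit 0), (nat_lit 0), (nat_lit 0), (nat_lit 0), [], [(nat_lit 4), (nat_lit 51), (nat_lit 428), (nat_lit 200),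 (nat_lit 13)]⟩,
 ⟨⟨[(nat_lit 100), (nat_lit 140), (nat_lit 180)], [(nat_lit 0), (nat_lit 0), (nat_lit 2434)], [((nat_lit 0), (nat_lit 0), (nat_lit 0)), ((nat_lit 0), (nat_lit 0), (nat_lit 0)), ((nat_lit 726), (nat_lit 1000), (nat_lit 688))], ((nat_lit 100), (nat_lit 74), (nat_lit 67))⟩, (nat_lit 89408), (nat_lit 300), (nat_lit 1660), (nat_lit 10896506), (nat_lit 2922838), [(nat_lit 968750000), (nat_lit 1525510000), (nat_lit 2178990000)], [], [(nat_lit 9313475337), (nat_lit 9049946717), (nat_lit 8864293983), (nat_lit 8595246346), (nat_lit 7663056787), (nat_lit 7395604609), (nat_lit 7190998755), (nat_lit 6976910356)], (nat_lit 1271251), (nat_lit 1271251), (nat_lit 1271251), (nat_lit 1271251), (nat_lit 230000), (nat_lit 2833126), [(nat_lit 1412501), (nat_lit 1271251), (nat_lit 1271251)], [(nat_lit 24), (nat_lit 63), (nat_lit 543), (nat_lit 300), (nat_lit 12)]⟩⟩))) (.spl (nat_lit 4) (nat_lit 240) (.leaf ⟨(nat_lit 0), (nat_lit 733), (nat_lit 0),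 (nat_lit 267), (nat_lit 0), (nat_lit 4097), (nat_lit 6247), (nat_lit 2420), (nat_lit 491198), (nat_lit 0), (nat_lit 0), [], Pd.none, Pd.none, (nat_lit 0), (nat_lit 1), (nat_lit 0), (nat_lit 0), (nat_lit 5), (nat_lit 0), [⟨(nat_lit 0), (nat_lit 69), (nat_lit 55), (nat_lit 100), (nat_lit 69753849)⟩], [], [], [],
 ⟨⟨[(nat_lit 40), (nat_lit 80), (nat_lit 100)], [(nat_lit 0), (nat_lit 1598), (nat_lit 2533)], [((nat_lit 0), (nat_lit 0), (nat_lit 0)), ((nat_lit 1000), (nat_lit 625), (nat_lit 623)), ((nat_lit 1000), (nat_lit 604), (nat_lit 730))], ((nat_lit 61), (nat_lit 100), (nat_lit 68))⟩, (nat_lit 2583917), (nat_lit 136), (nat_lit 136), (nat_lit 0), (nat_lit 0), [(nat_lit 2032000062), (nat_lit 5138651559), (nat_lit 6250000000)], [], [(nat_lit 20947437489), (nat_lit 22851223521), (nat_lit 31708804694), (nat_lit 32852697291), (nat_lit 23836321777), (nat_lit 25084198198), (nat_lit 32097224674), (nat_lit 33018439885)], (nat_lit 0), (nat_lit 0), (nat_lit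 0), (nat_lit 0), (nat_lit 0), (nat_lit 0), [], [(nat_lit 3), (nat_lit 50), (nat_lit 272), (nat_lit 60), (nat_lit 9)]⟩,
 ⟨⟨[(nat_lit 40), (nat_lit 80), (nat_lit 120)], [(nat_lit 0), (nat_lit 0), (nat_lit 2151)], [((nat_lit 0), (nat_lit 0), (nat_lit 0)), ((nat_lit 0), (nat_lit 0), (nat_lit 0)), ((nat_lit 1000), (nat_lit 815), (nat_lit 753))], ((nat_lit 80), (nat_lit 100), (nat_lit 68))⟩, (nat_lit 2283475), (nat_lit 498), (nat_lit 498), (nat_lit 0), (nat_lit 854845), [(nat_lit 2032000000), (nat_lit 4688000000), (nat_lit 7968000000)], [], [(nat_lit 29273527023), (nat_lit 32437015621), (nat_lit 35951840646), (nat_lit 40262214032), (nat_lit 33530479970), (nat_lit 35186276883), (nat_lit 38323413983), (nat_lit 40507670225)], (nat_lit 1271251), (nat_lit 1271251), (nat_lit 1271251), (nat_lit 1271251), (nat_lit 230000), (nat_lit 2833126), [(nat_lit 490000), (nat_lit 1100000), (nat_lit 1785001)], [(nat_lit 4), (nat_lit 51), (nat_lit 428), (nat_lit 200),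 (nat_lit 13)]⟩,
 ⟨⟨[(nat_lit 100), (nat_lit 140), (nat_lit 180)], [(nat_lit 0), (nat_lit 0), (nat_lit 2434)], [((nat_lit 0), (nat_lit 0), (nat_lit 0)), ((nat_lit 0), (nat_lit 0), (nat_lit 0)), ((nat_lit 726), (nat_lit 1000), (nat_lit 688))], ((nat_lit 100), (nat_lit 74), (nat_lit 67))⟩, (nat_lit 242429), (nat_lit 300), (nat_lit 1514), (nat_lit 18770100), (nat_lit 2454021), [(nat_lit 1668750000), (nat_lit 2627814000), (nat_lit 3753486000)], [], [(nat_lit 19927893139), (nat_lit 19544277728), (nat_lit 18657606016), (nat_lit 18270727360), (nat_lit 17469740054), (nat_lit 17071904427), (nat_lit 16641356335), (nat_lit 15799039100)], (nat_lit 1271251), (nat_lit 1271251), (nat_lit 490000), (nat_lit 1740001), (nat_lit 230000), (nat_lit 2833126), [(nat_lit 1412501), (nat_lit 1271251), (nat_lit 1271251)], [(nat_lit 24), (nat_lit 63), (nat_lit 490), (nat_lit 225), (nat_lit 11)]⟩⟩) (.leaf ⟨(nat_lit 0), (nat_lit 726), (nat_lit 0), (nat_lit 274), (nat_lit 0),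 (nat_lit 3559), (nat_lit 6256), (nat_lit 2783), (nat_lit 33786), (nat_lit 0), (nat_lit 0), [], Pd.none, Pd.none, (nat_lit 0), (nat_lit 1), (nat_lit 0), (nat_lit 0), (nat_lit 6), (nat_lit 0), [⟨(nat_lit 0), (nat_lit 56), (nat_lit 56), (nat_lit 100), (nat_lit 255832908)⟩], [⟨(nat_lit 1), (nat_lit 77), (nat_lit 53), (nat_lit 100), (nat_lit 361100134)⟩], [], [],
 ⟨⟨[(nat_lit 40), (nat_lit 80), (nat_lit 100)], [(nat_lit 0), (nat_lit 1598), (nat_lit 2533)], [((nat_lit 0), (nat_lit 0), (nat_lit 0)), ((nat_lit 1000), (nat_lit 625), (nat_lit 623)), ((nat_lit 1000), (nat_lit 604), (nat_lit 730))], ((nat_lit 61), (nat_lit 100), (nat_lit 68))⟩, (nat_lit 2958367), (nat_lit 90), (nat_lit 90), (nat_lit 0), (nat_lit 0), [(nat_lit 2032000003), (nat_lit 5416760492), (nat_lit 6250000000)], [], [(nat_lit 23982917614), (nat_lit 25221819302), (nat_lit 31477785432), (nat_lit 32281269595), (nat_lit 29496769087), (nat_lit 30422830425), (nat_lit 35128275140), (nat_lit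 35789752512)], (nat_lit 0), (nat_lit 0), (nat_lit 0), (nat_lit 0), (nat_lit 0), (nat_lit 0), [], [(nat_lit 3), (nat_lit 50), (nat_lit 203), (nat_lit 0), (nat_lit 6)]⟩,
 ⟨⟨[(nat_lit 40), (nat_lit 80), (nat_lit 120)], [(nat_lit 0), (nat_lit 0), (nat_lit 2151)], [((nat_lit 0), (nat_lit 0), (nat_lit 0)), ((nat_lit 0), (nat_lit 0), (nat_lit 0)), ((nat_lit 1000), (nat_lit 815), (nat_lit 753))], ((nat_lit 80), (nat_lit 100), (nat_lit 68))⟩, (nat_lit 2218239), (nat_lit 498), (nat_lit 498), (nat_lit 0), (nat_lit 854845), [(nat_lit 2032000000), (nat_lit 4688000000), (nat_lit 7968000000)], [], [(nat_lit 29238907704), (nat_lit 32404749696), (nat_lit 35972240208), (nat_lit 40286040312), (nat_lit 33492306560), (nat_lit 35148734392), (nat_lit 38336043660), (nat_lit 40521308676)], (nat_lit 1271251), (nat_lit 1271251), (nat_lit 1271251), (nat_lit 1271251), (nat_lit 230000), (nat_lit 2833126), [(nat_lit 490000), (nat_lit 1100000), (nat_lit 1785001)], [(nat_lit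 4), (nat_lit 51), (nat_lit 428), (nat_lit 200), (nat_lit 13)]⟩,
 ⟨⟨[(nat_lit 100), (nat_lit 140), (nat_lit 180)], [(nat_lit 0), (nat_lit 0), (nat_lit 2434)], [((nat_lit 0), (nat_lit 0), (nat_lit 0)), ((nat_lit 0), (nat_lit 0), (nat_lit 0)), ((nat_lit 726), (nat_lit 1000), (nat_lit 688))], ((nat_lit 100), (nat_lit 74), (nat_lit 67))⟩, (nat_lit 251403), (nat_lit 300), (nat_lit 1438), (nat_lit 19262200), (nat_lit 2454021), [(nat_lit 1712500000), (nat_lit 2696708000), (nat_lit 3851892000)], [], [(nat_lit 16090964989), (nat_lit 15627745891), (nat_lit 15364366598), (nat_lit 14945941681), (nat_lit 13142235916), (nat_lit 12665085057), (nat_lit 12636094466), (nat_lit 12252844670)], (nat_lit 1271251), (nat_lit 1271251), (nat_lit 1271251), (nat_lit 1271251), (nat_lit 230000), (nat_lit 2833126), [(nat_lit 1412501), (nat_lit 1271251), (nat_lit 1271251)], [(nat_lit 24), (nat_lit 63), (nat_lit 538), (nat_lit 300), (nat_lit 12)]⟩⟩)))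
noncomputable def c18_15 : Tr Lf :=
 (.spl (nat_lit 5) (nat_lit 200) (.leaf ⟨(nat_lit 0), (nat_lit 787), (nat_lit 0), (nat_lit 213), (nat_lit 0), (nat_lit 6197), (nat_lit 5963), (nat_lit 2114), (nat_lit 11448505912385), (nat_lit 0), (nat_lit 0), [], Pd.none, Pd.none, (nat_lit 0), (nat_lit 1), (nat_lit 0), (nat_lit 0), (nat_lit 5), (nat_lit 0), [⟨(nat_lit 0), (nat_lit 56), (nat_lit 56), (nat_lit 100), (nat_lit 217132636)⟩], [⟨(nat_lit 1), (nat_lit 77), (nat_lit 53), (nat_lit 100), (nat_lit 149431919)⟩], [⟨(nat_lit 0), (nat_lit 96), (nat_lit 44), (nat_lit 100), (nat_lit 169582411)⟩], [],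
 ⟨⟨[(nat_lit 40), (nat_lit 80), (nat_lit 100)], [(nat_lit 0), (nat_lit 1598), (nat_lit 2533)], [((nat_lit 0), (nat_lit 0), (nat_lit 0)), ((nat_lit 1000), (nat_lit 625), (nat_lit 623)), ((nat_lit 1000), (nat_lit 604), (nat_lit 730))], ((nat_lit 61), (nat_lit 100), (nat_lit 68))⟩, (nat_lit 995181), (nat_lit 300), (nat_lit 406), (nat_lit 50800001), (nat_lit 821594), [(nat_lit 2032000006), (nat_lit 5309783745), (nat_lit 6250000000)], [], [(nat_lit 31548840077), (nat_lit 32466607180), (nat_lit 36431813780), (nat_lit 37281603591), (nat_lit 34473776855), (nat_lit 34997084581), (nat_lit 38902040979), (nat_lit 39679875255)], (nat_lit 1271251), (nat_lit 1271251), (nat_lit 1271251), (nat_lit 1271251), (nat_lit 490000), (nat_lit 2755626), [(nat_lit 490000), (nat_lit 1100000), (nat_lit 1442501)], [(nat_lit 3), (nat_lit 50), (nat_lit 317), (nat_lit 100), (nat_lit 11)]⟩,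
 ⟨⟨[(nat_lit 40), (nat_lit 80), (nat_lit 120)], [(nat_lit 0), (nat_lit 0), (nat_lit 2151)], [((nat_lit 0), (nat_lit 0), (nat_lit 0)), ((nat_lit 0), (nat_lit 0), (nat_lit 0)), ((nat_lit 1000), (nat_lit 815), (nat_lit 753))], ((nat_lit 80), (nat_lit 100), (nat_lit 68))⟩, (nat_lit 2665682), (nat_lit 301), (nat_lit 301), (nat_lit 0), (nat_lit 369025), [(nat_lit 2032000000), (nat_lit 4688000000), (nat_lit 7968000000)], [], [(nat_lit 25053830560), (nat_lit 29466422421), (nat_lit 35308121134), (nat_lit 39510362514), (nat_lit 24965457834), (nat_lit 28529807731), (nat_lit 32431296728), (nat_lit 35356917945)], (nat_lit 1271251), (nat_lit 1271251), (nat_lit 1271251), (nat_lit 1271251), (nat_lit 230000), (nat_lit 1420001), [(nat_lit 490000), (nat_lit 1100000), (nat_lit 1785001)], [(nat_lit 4), (nat_lit 51), (nat_lit 373), (nat_lit 150), (nat_lit 12)]⟩,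
 ⟨⟨[(nat_lit 100), (nat_lit 140), (nat_lit 180)], [(nat_lit 0), (nat_lit 0), (nat_lit 2434)], [((nat_lit 0), (nat_lit 0), (nat_lit 0)), ((nat_lit 0), (nat_lit 0), (nat_lit 0)), ((nat_lit 726), (nat_lit 1000), (nat_lit 688))], ((nat_lit 100), (nat_lit 74), (nat_lit 67))⟩, (nat_lit 202133), (nat_lit 300), (nat_lit 1514), (nat_lit 14973900), (nat_lit 2454021), [(nat_lit 1331250000), (nat_lit 2096346000), (nat_lit 2994354000)], [], [(nat_lit 14160067657), (nat_lit 13813650634), (nat_lit 12442003035), (nat_lit 12081461338), (nat_lit 12820620082), (nat_lit 12475293321), (nat_lit 12793942402), (nat_lit 10754979911)], (nat_lit 1271251), (nat_lit 1271251), (nat_lit 490000), (nat_lit 2755626), (nat_lit 230000), (nat_lit 1420001), [(nat_lit 1412501), (nat_lit 1271251), (nat_lit 1271251)], [(nat_lit 24), (nat_lit 63), (nat_lit 483), (nat_lit 225), (nat_lit 11)]⟩⟩) (.leaf ⟨(nat_lit 0), (nat_lit 744), (nat_lit 0), (nat_lit 256), (nat_lit 0), (nat_lit 6433),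 (nat_lit 5512), (nat_lit 2501), (nat_lit 6519876667587), (nat_lit 0), (nat_lit 0), [], Pd.none, Pd.none, (nat_lit 0), (nat_lit 1), (nat_lit 0), (nat_lit 0), (nat_lit 5), (nat_lit 0), [⟨(nat_lit 0), (nat_lit 56), (nat_lit 56), (nat_lit 100), (nat_lit 249882706)⟩], [⟨(nat_lit 1), (nat_lit 77), (nat_lit 53), (nat_lit 100), (nat_lit 104598971)⟩], [⟨(nat_lit 1), (nat_lit 65), (nat_lit 67), (nat_lit 100), (nat_lit 273777493)⟩], [],
 ⟨⟨[(nat_lit 40), (nat_lit 80), (nat_lit 100)], [(nat_lit 0), (nat_lit 1598), (nat_lit 2533)], [((nat_lit 0), (nat_lit 0), (nat_lit 0)), ((nat_lit 1000), (nat_lit 625), (nat_lit 623)), ((nat_lit 1000), (nat_lit 604), (nat_lit 730))], ((nat_lit 61), (nat_lit 100), (nat_lit 68))⟩, (nat_lit 1346488), (nat_lit 300), (nat_lit 406), (nat_lit 50800001), (nat_lit 821594), [(nat_lit 2032000007), (nat_lit 5614621628), (nat_lit 6250000000)], [], [(nat_lit 30738172555), (nat_lit 31672383320), (nat_lit 36344601366), (nat_lit 37779328299),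 (nat_lit 33569225911), (nat_lit 34097984065), (nat_lit 39239648537), (nat_lit 40027892301)], (nat_lit 1271251), (nat_lit 1271251), (nat_lit 1271251), (nat_lit 1271251), (nat_lit 490000), (nat_lit 2755626), [(nat_lit 490000), (nat_lit 1100000), (nat_lit 1442501)], [(nat_lit 3), (nat_lit 50), (nat_lit 317), (nat_lit 100), (nat_lit 11)]⟩,
 ⟨⟨[(nat_lit 40), (nat_lit 80), (nat_lit 120)], [(nat_lit 0), (nat_lit 0), (nat_lit 2151)], [((nat_lit 0), (nat_lit 0), (nat_lit 0)), ((nat_lit 0), (nat_lit 0), (nat_lit 0)), ((nat_lit 1000), (nat_lit 815), (nat_lit 753))], ((nat_lit 80), (nat_lit 100), (nat_lit 68))⟩, (nat_lit 2433684), (nat_lit 231), (nat_lit 231), (nat_lit 0), (nat_lit 369025), [(nat_lit 2032000000), (nat_lit 4688000000), (nat_lit 7968000000)], [], [(nat_lit 23550568072), (nat_lit 27616462510), (nat_lit 32174104048), (nat_lit 34690339268), (nat_lit 31649414778), (nat_lit 34243856282), (nat_lit 37291990320), (nat_lit 39393863352)], (nat_lit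 1271251), (nat_lit 1271251), (nat_lit 1271251), (nat_lit 1271251), (nat_lit 1271251), (nat_lit 1271251), [(nat_lit 490000), (nat_lit 1100000), (nat_lit 1785001)], [(nat_lit 4), (nat_lit 51), (nat_lit 428), (nat_lit 200), (nat_lit 13)]⟩,
 ⟨⟨[(nat_lit 100), (nat_lit 140), (nat_lit 180)], [(nat_lit 0), (nat_lit 0), (nat_lit 2434)], [((nat_lit 0), (nat_lit 0), (nat_lit 0)), ((nat_lit 0), (nat_lit 0), (nat_lit 0)), ((nat_lit 726), (nat_lit 1000), (nat_lit 688))], ((nat_lit 100), (nat_lit 74), (nat_lit 67))⟩, (nat_lit 260833), (nat_lit 300), (nat_lit 1424), (nat_lit 17996800), (nat_lit 2454021), [(nat_lit 1600000000), (nat_lit 2519552000), (nat_lit 3598848000)], [], [(nat_lit 15658674249), (nat_lit 15256642372), (nat_lit 13670634124), (nat_lit 13248484822), (nat_lit 14635447632), (nat_lit 14215059220), (nat_lit 12566854272), (nat_lit 12136492049)], (nat_lit 1271251), (nat_lit 1271251), (nat_lit 490000), (nat_lit 2755626), (nat_lit 1271251), (nat_lit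 1271251), [(nat_lit 1412501), (nat_lit 1271251), (nat_lit 1271251)], [(nat_lit 24), (nat_lit 63), (nat_lit 538), (nat_lit 300), (nat_lit 12)]⟩⟩))
noncomputable def c18_16 : Tr Lf :=
 (.spl (nat_lit 3) (nat_lit 320) (.spl (nat_lit 4) (nat_lit 160) (.leaf ⟨(nat_lit 35), (nat_lit 965), (nat_lit 0), (nat_lit 0), (nat_lit 0), (nat_lit 7262), (nat_lit 7262), (nat_lit 0), (nat_lit 171440), (nat_lit 0), (nat_lit 140000), [((nat_lit 380), [((nat_lit 41), (nat_lit 5), (nat_lit 35))])], ⟨(nat_lit 8), false, true, false, (nat_lit 303), (nat_lit 2236), (nat_lit 3163), [(nat_lit 1632548), (nat_lit 1636264), (nat_lit 1698823), (nat_lit 1704397), (nat_lit 1815720), (nat_lit 1807623), (nat_lit 1881994), (nat_lit 1875755)]⟩, ⟨(nat_lit 3), false, false, false, (nat_lit 117), (nat_lit 2236), (nat_lit 3163), [(nat_lit 1136876), (nat_lit 1152119), (nat_lit 1225242), (nat_lit 1242962), (nat_lit 1350426), (nat_lit 1351886), (nat_lit 1438942), (nat_lit 1442880)]⟩, (nat_lit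 4659018), (nat_lit 39014431), (nat_lit 22921103), (nat_lit 5064466), (nat_lit 3), (nat_lit 0), [⟨(nat_lit 0), (nat_lit 69), (nat_lit 55), (nat_lit 100), (nat_lit 467276687)⟩], [], [], [],
 ⟨⟨[(nat_lit 40), (nat_lit 80), (nat_lit 120)], [(nat_lit 0), (nat_lit 1598), (nat_lit 3468)], [((nat_lit 0), (nat_lit 0), (nat_lit 0)), ((nat_lit 1000), (nat_lit 625), (nat_lit 623)), ((nat_lit 1000), (nat_lit 604), (nat_lit 730))], ((nat_lit 61), (nat_lit 100), (nat_lit 89))⟩, (nat_lit 170863), (nat_lit 300), (nat_lit 417), (nat_lit 47407460), (nat_lit 650091), [(nat_lit 1896298020), (nat_lit 4034261952), (nat_lit 6281448000)], [(nat_lit 0), (nat_lit 0), (nat_lit 0)], [(nat_lit 33245612044), (nat_lit 34315075415), (nat_lit 35699419822), (nat_lit 37810584098), (nat_lit 29379204762), (nat_lit 30289160567), (nat_lit 31253650092), (nat_lit 31947337130)], (nat_lit 1271251), (nat_lit 1271251), (nat_lit 1271251), (nat_lit 1271251), (nat_lit 111251), (nat_lit 1100000),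 [(nat_lit 490000), (nat_lit 1100000), (nat_lit 1785001)], [(nat_lit 4), (nat_lit 51), (nat_lit 345), (nat_lit 125), (nat_lit 11)]⟩,
 ⟨⟨[(nat_lit 40), (nat_lit 100), (nat_lit 160)], [(nat_lit 0), (nat_lit 0), (nat_lit 4607)], [((nat_lit 0), (nat_lit 0), (nat_lit 0)), ((nat_lit 0), (nat_lit 0), (nat_lit 0)), ((nat_lit 846), (nat_lit 837), (nat_lit 1000))], ((nat_lit 88), (nat_lit 100), (nat_lit 96))⟩, (nat_lit 1651901), (nat_lit 555), (nat_lit 555), (nat_lit 0), (nat_lit 673979), [(nat_lit 1960880000), (nat_lit 6031250000), (nat_lit 11456480000)], [], [(nat_lit 32615293539), (nat_lit 35033443236), (nat_lit 34643819572), (nat_lit 38736582347), (nat_lit 28247723392), (nat_lit 30704485911), (nat_lit 30298865132), (nat_lit 32169859039)], (nat_lit 1271251), (nat_lit 1271251), (nat_lit 1271251), (nat_lit 1271251), (nat_lit 0), (nat_lit 1412501), [(nat_lit 490000), (nat_lit 1427501), (nat_lit 1271251)], [(nat_lit 6), (nat_lit 56), (nat_lit 373), (nat_lit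 150), (nat_lit 9)]⟩,
 Rw.none⟩) (.spl (nat_lit 6) (nat_lit 80) (.leaf ⟨(nat_lit 0), (nat_lit 1000), (nat_lit 0), (nat_lit 0), (nat_lit 0), (nat_lit 4933), (nat_lit 7394), (nat_lit 0), (nat_lit 86171), (nat_lit 0), (nat_lit 0), [], Pd.none, Pd.none, (nat_lit 0), (nat_lit 1), (nat_lit 0), (nat_lit 0), (nat_lit 4), (nat_lit 0), [⟨(nat_lit 0), (nat_lit 69), (nat_lit 55), (nat_lit 100), (nat_lit 532464966)⟩], [⟨(nat_lit 1), (nat_lit 80), (nat_lit 60), (nat_lit 100), (nat_lit 558024495)⟩], [], [],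
 ⟨⟨[(nat_lit 40), (nat_lit 80), (nat_lit 100)], [(nat_lit 0), (nat_lit 1598), (nat_lit 2533)], [((nat_lit 0), (nat_lit 0), (nat_lit 0)), ((nat_lit 1000), (nat_lit 625), (nat_lit 623)), ((nat_lit 1000), (nat_lit 604), (nat_lit 730))], ((nat_lit 60), (nat_lit 100), (nat_lit 80))⟩, (nat_lit 1097846), (nat_lit 294), (nat_lit 294), (nat_lit 0), (nat_lit 646231), [(nat_lit 2032000094), (nat_lit 4688000169), (nat_lit 6250000000)], [], [(nat_lit 24689874689), (nat_lit 25737743690), (nat_lit 27840530431), (nat_lit 28888063585), (nat_lit 28328447825), (nat_lit 29416749298), (nat_lit 31478436852), (nat_lit 32526797044)], (nat_lit 1271251), (nat_lit 1271251), (nat_lit 1271251), (nat_lit 1271251), (nat_lit 1100000), (nat_lit 2470001), [(nat_lit 490000), (nat_lit 1100000), (nat_lit 1442501)], [(nat_lit 3), (nat_lit 50), (nat_lit 317), (nat_lit 100), (nat_lit 11)]⟩,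
 ⟨⟨[(nat_lit 40), (nat_lit 100), (nat_lit 140)], [(nat_lit 0), (nat_lit 0), (nat_lit 3243)], [((nat_lit 0), (nat_lit 0), (nat_lit 0)), ((nat_lit 0), (nat_lit 0), (nat_lit 0)), ((nat_lit 1000), (nat_lit 870), (nat_lit 941))], ((nat_lit 83), (nat_lit 100), (nat_lit 83))⟩, (nat_lit 1476577), (nat_lit 498), (nat_lit 498), (nat_lit 0), (nat_lit 668302), [(nat_lit 2032000000), (nat_lit 6250000000), (nat_lit 9842000000)], [], [(nat_lit 33909965281), (nat_lit 36662078149), (nat_lit 36278076544), (nat_lit 39799300864), (nat_lit 29854460787), (nat_lit 32302727721), (nat_lit 31907381544), (nat_lit 33834384147)], (nat_lit 1271251), (nat_lit 1271251), (nat_lit 1271251), (nat_lit 1271251), (nat_lit 0), (nat_lit 1412501), [(nat_lit 490000), (nat_lit 1427501), (nat_lit 1271251)], [(nat_lit 5), (nat_lit 55), (nat_lit 373), (nat_lit 150), (nat_lit 10)]⟩,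
 Rw.none⟩) (.spl (nat_lit 0) (nat_lit 370) (.ord (.leaf ⟨(nat_lit 0), (nat_lit 1000), (nat_lit 0), (nat_lit 0), (nat_lit 0), (nat_lit 8045), (nat_lit 7697), (nat_lit 0), (nat_lit 44577), (nat_lit 0), (nat_lit 0), [], Pd.none, Pd.none, (nat_lit 0), (nat_lit 1), (nat_lit 0), (nat_lit 0), (nat_lit 4), (nat_lit 0), [⟨(nat_lit 0), (nat_lit 70), (nat_lit 58), (nat_lit 100), (nat_lit 269432727)⟩], [⟨(nat_lit 1), (nat_lit 80), (nat_lit 60), (nat_lit 100), (nat_lit 511533541)⟩], [], [],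
 ⟨⟨[(nat_lit 40), (nat_lit 80), (nat_lit 120)], [(nat_lit 0), (nat_lit 1598), (nat_lit 3468)], [((nat_lit 0), (nat_lit 0), (nat_lit 0)), ((nat_lit 1000), (nat_lit 625), (nat_lit 623)), ((nat_lit 1000), (nat_lit 604), (nat_lit 730))], ((nat_lit 61), (nat_lit 100), (nat_lit 89))⟩, (nat_lit 0), (nat_lit 245), (nat_lit 245), (nat_lit 0), (nat_lit 420144), [(nat_lit 2785970277), (nat_lit 5254126023), (nat_lit 7968000000)], [], [(nat_lit 27248763055), (nat_lit 28188803722), (nat_lit 31808528290), (nat_lit 32512655598), (nat_lit 32127931120), (nat_lit 32780968000), (nat_lit 34703381210), (nat_lit 35259188020)], (nat_lit 1271251), (nat_lit 1271251), (nat_lit 1271251), (nat_lit 1271251), (nat_lit 1100000), (nat_lit 2470001), [(nat_lit 490000), (nat_lit 1100000), (nat_lit 1785001)], [(nat_lit 4), (nat_lit 51), (nat_lit 401), (nat_lit 175), (nat_lit 12)]⟩,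
 ⟨⟨[(nat_lit 40), (nat_lit 100), (nat_lit 160)], [(nat_lit 0), (nat_lit 0), (nat_lit 4607)], [((nat_lit 0), (nat_lit 0), (nat_lit 0)), ((nat_lit 0), (nat_lit 0), (nat_lit 0)), ((nat_lit 846), (nat_lit 837), (nat_lit 1000))], ((nat_lit 88), (nat_lit 100), (nat_lit 96))⟩, (nat_lit 1775951), (nat_lit 464), (nat_lit 464), (nat_lit 0), (nat_lit 436815), [(nat_lit 2032000000), (nat_lit 6250000000), (nat_lit 11872000000)], [], [(nat_lit 31752914215), (nat_lit 34970090468), (nat_lit 35303552755), (nat_lit 39478785902), (nat_lit 26928576356), (nat_lit 29083583361), (nat_lit 29322539836), (nat_lit 31432012303)], (nat_lit 1271251), (nat_lit 1271251), (nat_lit 1271251), (nat_lit 1271251), (nat_lit 0), (nat_lit 1412501), [(nat_lit 490000), (nat_lit 1427501), (nat_lit 1271251)], [(nat_lit 6), (nat_lit 56), (nat_lit 373), (nat_lit 150), (nat_lit 9)]⟩,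
 Rw.none⟩)) (.trZ (nat_lit 0) (nat_lit 1) (nat_lit 3) (nat_lit 80) (nat_lit 53) (nat_lit 100) (nat_lit 210) (.trX (nat_lit 4) (nat_lit 0) (nat_lit 2) (nat_lit 53) (nat_lit 85) (nat_lit 100) (nat_lit 310) (.leaf ⟨(nat_lit 0), (nat_lit 1000), (nat_lit 0), (nat_lit 0), (nat_lit 0), (nat_lit 7001), (nat_lit 7431), (nat_lit 0), (nat_lit 11440), (nat_lit 0), (nat_lit 0), [], Pd.none, Pd.none, (nat_lit 0), (nat_lit 1), (nat_lit 0), (nat_lit 0), (nat_lit 4), (nat_lit 0), [⟨(nat_lit 0), (nat_lit 70), (nat_lit 51), (nat_lit 100), (nat_lit 424193089)⟩], [⟨(nat_lit 1), (nat_lit 85), (nat_lit 53), (nat_lit 100), (nat_lit 571107583)⟩], [], [],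
 ⟨⟨[(nat_lit 40), (nat_lit 80), (nat_lit 120)], [(nat_lit 0), (nat_lit 2008), (nat_lit 3930)], [((nat_lit 0), (nat_lit 0), (nat_lit 0)), ((nat_lit 1000), (nat_lit 540), (nat_lit 733)), ((nat_lit 1000), (nat_lit 536), (nat_lit 751))], ((nat_lit 53), (nat_lit 100), (nat_lit 88))⟩, (nat_lit 409465), (nat_lit 272), (nat_lit 272), (nat_lit 0), (nat_lit 499277), [(nat_lit 2330294799), (nat_lit 5054775582), (nat_lit 7968000000)], [], [(nat_lit 27321446666), (nat_lit 28164467211), (nat_lit 31266002286), (nat_lit 31915869259), (nat_lit 31325190574), (nat_lit 31934338113), (nat_lit 33794427749), (nat_lit 34435137348)], (nat_lit 1271251), (nat_lit 1271251), (nat_lit 1271251), (nat_lit 1271251), (nat_lit 1100000), (nat_lit 2384376), [(nat_lit 490000), (nat_lit 1100000), (nat_lit 1785001)], [(nat_lit 4), (nat_lit 51), (nat_lit 401), (nat_lit 175), (nat_lit 12)]⟩,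
 ⟨⟨[(nat_lit 40), (nat_lit 100), (nat_lit 160)], [(nat_lit 0), (nat_lit 0), (nat_lit 4607)], [((nat_lit 0), (nat_lit 0), (nat_lit 0)), ((nat_lit 0), (nat_lit 0), (nat_lit 0)), ((nat_lit 846), (nat_lit 837), (nat_lit 1000))], ((nat_lit 88), (nat_lit 100), (nat_lit 96))⟩, (nat_lit 1570843), (nat_lit 503), (nat_lit 503), (nat_lit 0), (nat_lit 522325), [(nat_lit 2032000000), (nat_lit 6250000000), (nat_lit 11872000000)], [], [(nat_lit 33286749981), (nat_lit 36640025770), (nat_lit 36033717975), (nat_lit 39895676836), (nat_lit 28692595135), (nat_lit 31131376313), (nat_lit 30530488429), (nat_lit 32573901897)], (nat_lit 1271251), (nat_lit 1271251), (nat_lit 1271251), (nat_lit 1271251), (nat_lit 0), (nat_lit 1412501), [(nat_lit 490000), (nat_lit 1427501), (nat_lit 1271251)], [(nat_lit 6), (nat_lit 56), (nat_lit 373), (nat_lit 150), (nat_lit 9)]⟩,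
 Rw.none⟩)))))) (.spl (nat_lit 4) (nat_lit 160) (.leaf ⟨(nat_lit 0), (nat_lit 1000), (nat_lit 0), (nat_lit 0), (nat_lit 0), (nat_lit 6630), (nat_lit 6733), (nat_lit 0), (nat_lit 355817151231), (nat_lit 0), (nat_lit 0), [], Pd.none, Pd.none, (nat_lit 0), (nat_lit 1), (nat_lit 0), (nat_lit 0), (nat_lit 3), (nat_lit 0), [], [], [], [],
 ⟨⟨[(nat_lit 40), (nat_lit 80), (nat_lit 120)], [(nat_lit 0), (nat_lit 1598), (nat_lit 3468)], [((nat_lit 0), (nat_lit 0), (nat_lit 0)), ((nat_lit 1000), (nat_lit 625), (nat_lit 623)), ((nat_lit 1000), (nat_lit 604), (nat_lit 730))], ((nat_lit 61), (nat_lit 100), (nat_lit 89))⟩, (nat_lit 539792), (nat_lit 300), (nat_lit 418), (nat_lit 50800012), (nat_lit 650091), [(nat_lit 2032000027), (nat_lit 4864250819), (nat_lit 7968000000)], [], [(nat_lit 38045379175), (nat_lit 38829491423), (nat_lit 41318358175), (nat_lit 42816831008), (nat_lit 34286491900), (nat_lit 34957964770), (nat_lit 36686766540), (nat_lit 37215430990)],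 (nat_lit 1271251), (nat_lit 1271251), (nat_lit 1271251), (nat_lit 1271251), (nat_lit 111251), (nat_lit 1100000), [(nat_lit 490000), (nat_lit 1100000), (nat_lit 1785001)], [(nat_lit 4), (nat_lit 51), (nat_lit 249), (nat_lit 40), (nat_lit 7)]⟩,
 ⟨⟨[(nat_lit 40), (nat_lit 100), (nat_lit 160)], [(nat_lit 0), (nat_lit 0), (nat_lit 4607)], [((nat_lit 0), (nat_lit 0), (nat_lit 0)), ((nat_lit 0), (nat_lit 0), (nat_lit 0)), ((nat_lit 846), (nat_lit 837), (nat_lit 1000))], ((nat_lit 88), (nat_lit 100), (nat_lit 96))⟩, (nat_lit 1444342), (nat_lit 534), (nat_lit 534), (nat_lit 0), (nat_lit 673979), [(nat_lit 2032000000), (nat_lit 6250000000), (nat_lit 11872000000)], [], [(nat_lit 39254265754), (nat_lit 41084179036), (nat_lit 41694150130), (nat_lit 44685637158), (nat_lit 34917827942), (nat_lit 36338466642), (nat_lit 36960926886), (nat_lit 38435159378)], (nat_lit 1271251), (nat_lit 1271251), (nat_lit 1271251), (nat_lit 1271251), (nat_lit 0), (nat_lit 1412501),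 [(nat_lit 490000), (nat_lit 1427501), (nat_lit 1271251)], [(nat_lit 6), (nat_lit 56), (nat_lit 260), (nat_lit 50), (nat_lit 6)]⟩,
 Rw.none⟩) (.trZ (nat_lit 3) (nat_lit 4) (nat_lit 5) (nat_lit 100) (nat_lit 82) (nat_lit 44) (nat_lit 10) (.spl (nat_lit 1) (nat_lit 360) (.leaf ⟨(nat_lit 0), (nat_lit 1000), (nat_lit 0), (nat_lit 0), (nat_lit 0), (nat_lit 4402), (nat_lit 7638), (nat_lit 0), (nat_lit 0), (nat_lit 0), (nat_lit 0), [], Pd.none, Pd.none, (nat_lit 0), (nat_lit 1), (nat_lit 0), (nat_lit 0), (nat_lit 4), (nat_lit 0), [], [⟨(nat_lit 1), (nat_lit 96), (nat_lit 54), (nat_lit 100), (nat_lit 419628631)⟩], [], [⟨(nat_lit 0), (nat_lit 100), (nat_lit 61), (nat_lit 92), (nat_lit 122995213)⟩],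
 ⟨⟨[(nat_lit 40), (nat_lit 80), (nat_lit 120)], [(nat_lit 0), (nat_lit 1598), (nat_lit 3468)], [((nat_lit 0), (nat_lit 0), (nat_lit 0)), ((nat_lit 1000), (nat_lit 625), (nat_lit 623)), ((nat_lit 1000), (nat_lit 604), (nat_lit 730))], ((nat_lit 61), (nat_lit 100), (nat_lit 89))⟩, (nat_lit 1522358), (nat_lit 297), (nat_lit 297), (nat_lit 0), (nat_lit 545919), [(nat_lit 2032000025), (nat_lit 4688000056), (nat_lit 7968000000)], [], [(nat_lit 28816156355), (nat_lit 29559085997), (nat_lit 31701891008), (nat_lit 32663162796), (nat_lit 31325492260), (nat_lit 31945740736), (nat_lit 34538184876), (nat_lit 35335615022)], (nat_lit 1271251), (nat_lit 1271251), (nat_lit 1271251), (nat_lit 1271251), (nat_lit 1100000), (nat_lit 2470001), [(nat_lit 490000), (nat_lit 1100000), (nat_lit 1785001)], [(nat_lit 4), (nat_lit 51), (nat_lit 317), (nat_lit 100), (nat_lit 9)]⟩,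
 ⟨⟨[(nat_lit 40), (nat_lit 100), (nat_lit 160)], [(nat_lit 0), (nat_lit 0), (nat_lit 4607)], [((nat_lit 0), (nat_lit 0), (nat_lit 0)), ((nat_lit 0), (nat_lit 0), (nat_lit 0)), ((nat_lit 846), (nat_lit 837), (nat_lit 1000))], ((nat_lit 88), (nat_lit 100), (nat_lit 96))⟩, (nat_lit 1448197), (nat_lit 512), (nat_lit 512), (nat_lit 0), (nat_lit 625432), [(nat_lit 2032000000), (nat_lit 6250000000), (nat_lit 11872000000)], [], [(nat_lit 36130740950), (nat_lit 38679710244), (nat_lit 41758417247), (nat_lit 45027948352), (nat_lit 31290739717), (nat_lit 32260362542), (nat_lit 34107652129), (nat_lit 36503681958)], (nat_lit 1271251), (nat_lit 1271251), (nat_lit 1271251), (nat_lit 1271251), (nat_lit 54688), (nat_lit 1414376), [(nat_lit 490000), (nat_lit 1427501), (nat_lit 1271251)], [(nat_lit 6), (nat_lit 56), (nat_lit 260), (nat_lit 50), (nat_lit 6)]⟩,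
 Rw.none⟩) (.trZ (nat_lit 1) (nat_lit 2) (nat_lit 5) (nat_lit 100) (nat_lit 65) (nat_lit 54) (nat_lit 20) (.leaf ⟨(nat_lit 0), (nat_lit 1000), (nat_lit 0), (nat_lit 0), (nat_lit 0), (nat_lit 6186), (nat_lit 4834), (nat_lit 0), (nat_lit 15635614053587), (nat_lit 0), (nat_lit 0), [], Pd.none, Pd.none, (nat_lit 0), (nat_lit 1), (nat_lit 0), (nat_lit 0), (nat_lit 4), (nat_lit 0), [], [⟨(nat_lit 1), (nat_lit 96), (nat_lit 54), (nat_lit 100), (nat_lit 438478123)⟩], [], [],
 ⟨⟨[(nat_lit 40), (nat_lit 80), (nat_lit 120)], [(nat_lit 0), (nat_lit 1598), (nat_lit 3468)], [((nat_lit 0), (nat_lit 0), (nat_lit 0)), ((nat_lit 1000), (nat_lit 625), (nat_lit 623)), ((nat_lit 1000), (nat_lit 604), (nat_lit 730))], ((nat_lit 61), (nat_lit 100), (nat_lit 89))⟩, (nat_lit 539792), (nat_lit 300), (nat_lit 336), (nat_lit 50800012), (nat_lit 649626), [(nat_lit 2032000003), (nat_lit 4862891130), (nat_lit 7968000000)], [], [(nat_lit 34138922462), (nat_lit 34855296282),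 (nat_lit 36711892248), (nat_lit 37282003322), (nat_lit 35541819952), (nat_lit 36056762368), (nat_lit 37379789256), (nat_lit 37784709846)], (nat_lit 1271251), (nat_lit 1271251), (nat_lit 1271251), (nat_lit 1271251), (nat_lit 1100000), (nat_lit 2470001), [(nat_lit 490000), (nat_lit 1100000), (nat_lit 1785001)], [(nat_lit 4), (nat_lit 51), (nat_lit 317), (nat_lit 100), (nat_lit 9)]⟩,
 ⟨⟨[(nat_lit 40), (nat_lit 80), (nat_lit 120)], [(nat_lit 0), (nat_lit 1598), (nat_lit 3468)], [((nat_lit 0), (nat_lit 0), (nat_lit 0)), ((nat_lit 1000), (nat_lit 625), (nat_lit 623)), ((nat_lit 1000), (nat_lit 604), (nat_lit 730))], ((nat_lit 61), (nat_lit 100), (nat_lit 89))⟩, (nat_lit 1422307), (nat_lit 418), (nat_lit 418), (nat_lit 0), (nat_lit 649626), [(nat_lit 2032000000), (nat_lit 4688000000), (nat_lit 7968000000)], [], [(nat_lit 30843406957), (nat_lit 32125048186), (nat_lit 36310351365), (nat_lit 37578715739), (nat_lit 29060130740), (nat_lit 29698299500),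 (nat_lit 32632364594), (nat_lit 33688254251)], (nat_lit 1271251), (nat_lit 1271251), (nat_lit 1271251), (nat_lit 1271251), (nat_lit 111251), (nat_lit 1416250), [(nat_lit 490000), (nat_lit 1100000), (nat_lit 1785001)], [(nat_lit 4), (nat_lit 51), (nat_lit 260), (nat_lit 50), (nat_lit 7)]⟩,
 Rw.none⟩))))))
noncomputable def c18_17 : Tr Lf :=
 (.spl (nat_lit 3) (nat_lit 320) (.spl (nat_lit 5) (nat_lit 280) (.spl (nat_lit 0) (nat_lit 370) (.ord (.leaf ⟨(nat_lit 0), (nat_lit 1000), (nat_lit 0), (nat_lit 0), (nat_lit 0), (nat_lit 7111), (nat_lit 6850), (nat_lit 0), (nat_lit 7992689432517), (nat_lit 0), (nat_lit 0), [], Pd.none, Pd.none, (nat_lit 0), (nat_lit 1), (nat_lit 0), (nat_lit 0), (nat_lit 5), (nat_lit 0), [⟨(nat_lit 0), (nat_lit 59), (nat_lit 59), (nat_lit 100), (nat_lit 661763582)⟩], [⟨(nat_lit 1), (nat_lit 80), (nat_lit 60), (nat_lit 100), (nat_lit 202781241)⟩], [], [],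
 ⟨⟨[(nat_lit 40), (nat_lit 80), (nat_lit 120)], [(nat_lit 0), (nat_lit 1598), (nat_lit 3468)], [((nat_lit 0), (nat_lit 0), (nat_lit 0)), ((nat_lit 1000), (nat_lit 625), (nat_lit 623)), ((nat_lit 1000), (nat_lit 604), (nat_lit 730))], ((nat_lit 61), (nat_lit 100), (nat_lit 89))⟩, (nat_lit 539792), (nat_lit 300), (nat_lit 390), (nat_lit 50800012), (nat_lit 573224), [(nat_lit 2032000007), (nat_lit 4870536988), (nat_lit 7968000000)], [], [(nat_lit 34763574907), (nat_lit 35292517696), (nat_lit 37085523714), (nat_lit 37489050064), (nat_lit 32884435158), (nat_lit 33203929846), (nat_lit 33788640398), (nat_lit 34281798116)], (nat_lit 1271251), (nat_lit 1271251), (nat_lit 1271251), (nat_lit 1271251), (nat_lit 111251), (nat_lit 2286250), [(nat_lit 490000), (nat_lit 1100000), (nat_lit 1785001)], [(nat_lit 4), (nat_lit 51), (nat_lit 401), (nat_lit 175), (nat_lit 12)]⟩,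
 ⟨⟨[(nat_lit 40), (nat_lit 100), (nat_lit 160)], [(nat_lit 0), (nat_lit 0), (nat_lit 4607)], [((nat_lit 0), (nat_lit 0), (nat_lit 0)), ((nat_lit 0), (nat_lit 0), (nat_lit 0)), ((nat_lit 846), (nat_lit 837), (nat_lit 1000))], ((nat_lit 88), (nat_lit 100), (nat_lit 96))⟩, (nat_lit 0), (nat_lit 72), (nat_lit 72), (nat_lit 0), (nat_lit 0), [(nat_lit 2032000000), (nat_lit 6250000000), (nat_lit 11872000000)], [], [(nat_lit 22448524200), (nat_lit 26726603982), (nat_lit 27678007900), (nat_lit 30915002963), (nat_lit 25661319650), (nat_lit 29253213775), (nat_lit 29801493300), (nat_lit 32529383700)], (nat_lit 0), (nat_lit 0), (nat_lit 0), (nat_lit 0), (nat_lit 0), (nat_lit 0), [], [(nat_lit 6), (nat_lit 56), (nat_lit 373), (nat_lit 150), (nat_lit 9)]⟩,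
 Rw.none⟩)) (.trZ (nat_lit 0) (nat_lit 1) (nat_lit 3) (nat_lit 80) (nat_lit 53) (nat_lit 100) (nat_lit 210) (.trZ (nat_lit 0) (nat_lit 2) (nat_lit 4) (nat_lit 100) (nat_lit 57) (nat_lit 62) (nat_lit 30) (.trX (nat_lit 4) (nat_lit 0) (nat_lit 2) (nat_lit 53) (nat_lit 85) (nat_lit 100) (nat_lit 310) (.leaf ⟨(nat_lit 0), (nat_lit 1000), (nat_lit 0), (nat_lit 0), (nat_lit 0), (nat_lit 7114), (nat_lit 6751), (nat_lit 0), (nat_lit 7281924259549), (nat_lit 0), (nat_lit 0), [], Pd.none, Pd.none, (nat_lit 0), (nat_lit 1), (nat_lit 0), (nat_lit 0), (nat_lit 5), (nat_lit 0), [⟨(nat_lit 0), (nat_lit 56), (nat_lit 56), (nat_lit 100), (nat_lit 698650147)⟩], [⟨(nat_lit 1), (nat_lit 85), (nat_lit 53), (nat_lit 100), (nat_lit 227509062)⟩], [], [],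
 ⟨⟨[(nat_lit 40), (nat_lit 80), (nat_lit 120)], [(nat_lit 0), (nat_lit 2008), (nat_lit 3930)], [((nat_lit 0), (nat_lit 0), (nat_lit 0)), ((nat_lit 1000), (nat_lit 540), (nat_lit 733)), ((nat_lit 1000), (nat_lit 536), (nat_lit 751))], ((nat_lit 53), (nat_lit 100), (nat_lit 88))⟩, (nat_lit 476336), (nat_lit 300), (nat_lit 409), (nat_lit 50800001), (nat_lit 647501), [(nat_lit 2032000002), (nat_lit 4952796812), (nat_lit 7968000000)], [], [(nat_lit 34910639512), (nat_lit 35425707535), (nat_lit 37009620735), (nat_lit 37410179598), (nat_lit 33014217583), (nat_lit 33335977215), (nat_lit 33910852920), (nat_lit 34557202490)], (nat_lit 1271251), (nat_lit 1271251), (nat_lit 1271251), (nat_lit 1271251), (nat_lit 169688), (nat_lit 2225938), [(nat_lit 490000), (nat_lit 1100000), (nat_lit 1785001)], [(nat_lit 4), (nat_lit 51), (nat_lit 401), (nat_lit 175), (nat_lit 12)]⟩,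
 ⟨⟨[(nat_lit 40), (nat_lit 100), (nat_lit 160)], [(nat_lit 0), (nat_lit 0), (nat_lit 4607)], [((nat_lit 0), (nat_lit 0), (nat_lit 0)), ((nat_lit 0), (nat_lit 0), (nat_lit 0)), ((nat_lit 846), (nat_lit 837), (nat_lit 1000))], ((nat_lit 88), (nat_lit 100), (nat_lit 96))⟩, (nat_lit 0), (nat_lit 76), (nat_lit 76), (nat_lit 0), (nat_lit 0), [(nat_lit 2032000000), (nat_lit 6250000000), (nat_lit 11872000000)], [], [(nat_lit 22840178865), (nat_lit 27829396359), (nat_lit 27742087234), (nat_lit 31595205279), (nat_lit 25956470407), (nat_lit 30149467418), (nat_lit 29862408198), (nat_lit 33111798086)], (nat_lit 0), (nat_lit 0), (nat_lit 0), (nat_lit 0), (nat_lit 0), (nat_lit 0), [], [(nat_lit 6), (nat_lit 56), (nat_lit 373), (nat_lit 150), (nat_lit 9)]⟩,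
 Rw.none⟩))))) (.spl (nat_lit 2) (nat_lit 160) (.trX (nat_lit 4) (nat_lit 0) (nat_lit 2) (nat_lit 61) (nat_lit 92) (nat_lit 100) (nat_lit 290) (.trX (nat_lit 5) (nat_lit 1) (nat_lit 2) (nat_lit 82) (nat_lit 76) (nat_lit 100) (nat_lit 340) (.leaf ⟨(nat_lit 0), (nat_lit 1000), (nat_lit 0), (nat_lit 0), (nat_lit 0), (nat_lit 7277), (nat_lit 7380), (nat_lit 0), (nat_lit 60308), (nat_lit 0), (nat_lit 0), [], Pd.none, Pd.none, (nat_lit 0), (nat_lit 1), (nat_lit 0), (nat_lit 0), (nat_lit 7), (nat_lit 0), [⟨(nat_lit 0), (nat_lit 69), (nat_lit 55), (nat_lit 100), (nat_lit 473165736)⟩], [⟨(nat_lit 1), (nat_lit 100), (nat_lit 54), (nat_lit 98), (nat_lit 158224096)⟩], [⟨(nat_lit 1), (nat_lit 96), (nat_lit 69), (nat_lit 100), (nat_lit 142273510)⟩, ⟨(nat_lit 1), (nat_lit 76), (nat_lit 82), (nat_lit 100), (nat_lit 536387326)⟩], [],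
 ⟨⟨[(nat_lit 40), (nat_lit 80), (nat_lit 120)], [(nat_lit 0), (nat_lit 1598), (nat_lit 3468)], [((nat_lit 0), (nat_lit 0), (nat_lit 0)), ((nat_lit 1000), (nat_lit 625), (nat_lit 623)), ((nat_lit 1000), (nat_lit 604), (nat_lit 730))], ((nat_lit 61), (nat_lit 100), (nat_lit 89))⟩, (nat_lit 539792), (nat_lit 300), (nat_lit 417), (nat_lit 50800012), (nat_lit 650091), [(nat_lit 2032000004), (nat_lit 4869603044), (nat_lit 7968000000)], [], [(nat_lit 34437462803), (nat_lit 35508076285), (nat_lit 36754263825), (nat_lit 37845708908), (nat_lit 31846492800), (nat_lit 32542579448), (nat_lit 32923307130), (nat_lit 34016313801)], (nat_lit 1271251), (nat_lit 1271251), (nat_lit 1271251), (nat_lit 1271251), (nat_lit 111251), (nat_lit 2068751), [(nat_lit 490000), (nat_lit 1100000), (nat_lit 1785001)], [(nat_lit 4), (nat_lit 51), (nat_lit 401), (nat_lit 175), (nat_lit 12)]⟩,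
 ⟨⟨[(nat_lit 40), (nat_lit 100), (nat_lit 160)], [(nat_lit 0), (nat_lit 0), (nat_lit 4607)], [((nat_lit 0), (nat_lit 0), (nat_lit 0)), ((nat_lit 0), (nat_lit 0), (nat_lit 0)), ((nat_lit 846), (nat_lit 837), (nat_lit 1000))], ((nat_lit 88), (nat_lit 100), (nat_lit 96))⟩, (nat_lit 0), (nat_lit 83), (nat_lit 83), (nat_lit 0), (nat_lit 0), [(nat_lit 2032000000), (nat_lit 6250000000), (nat_lit 11872000000)], [], [(nat_lit 25247076420), (nat_lit 29752226130), (nat_lit 29475383240), (nat_lit 33764754180), (nat_lit 28685567390), (nat_lit 33234091725), (nat_lit 32639766600), (nat_lit 36259314675)], (nat_lit 0), (nat_lit 0), (nat_lit 0), (nat_lit 0), (nat_lit 0), (nat_lit 0), [], [(nat_lit 6), (nat_lit 56), (nat_lit 401), (nat_lit 175), (nat_lit 9)]⟩,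
 Rw.none⟩))) (.trZ (nat_lit 0) (nat_lit 2) (nat_lit 4) (nat_lit 100) (nat_lit 61) (nat_lit 68) (nat_lit 50) (.leaf ⟨(nat_lit 0), (nat_lit 890), (nat_lit 0), (nat_lit 110), (nat_lit 0), (nat_lit 7398), (nat_lit 6751), (nat_lit 1205), (nat_lit 146092), (nat_lit 0), (nat_lit 0), [], Pd.none, Pd.none, (nat_lit 0), (nat_lit 1), (nat_lit 0), (nat_lit 0), (nat_lit 7), (nat_lit 0), [⟨(nat_lit 0), (nat_lit 69), (nat_lit 55), (nat_lit 100), (nat_lit 387971874)⟩], [⟨(nat_lit 1), (nat_lit 90), (nat_lit 53), (nat_lit 100), (nat_lit 117954381)⟩], [⟨(nat_lit 1), (nat_lit 82), (nat_lit 66), (nat_lit 100), (nat_lit 577254171)⟩], [],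
 ⟨⟨[(nat_lit 40), (nat_lit 80), (nat_lit 120)], [(nat_lit 0), (nat_lit 1598), (nat_lit 3468)], [((nat_lit 0), (nat_lit 0), (nat_lit 0)), ((nat_lit 1000), (nat_lit 625), (nat_lit 623)), ((nat_lit 1000), (nat_lit 604), (nat_lit 730))], ((nat_lit 61), (nat_lit 100), (nat_lit 89))⟩, (nat_lit 539792), (nat_lit 300), (nat_lit 346), (nat_lit 50800012), (nat_lit 523114), [(nat_lit 2032000016), (nat_lit 4870948703), (nat_lit 7968000000)], [], [(nat_lit 31755327954), (nat_lit 32869525756), (nat_lit 34227995433), (nat_lit 35608042773), (nat_lit 31319541257), (nat_lit 32005217742), (nat_lit 33940094312), (nat_lit 35224167664)], (nat_lit 1271251), (nat_lit 1271251), (nat_lit 1271251), (nat_lit 1271251), (nat_lit 292188), (nat_lit 2325625), [(nat_lit 490000), (nat_lit 1100000), (nat_lit 1785001)], [(nat_lit 4), (nat_lit 51), (nat_lit 401), (nat_lit 175), (nat_lit 12)]⟩,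
 ⟨⟨[(nat_lit 40), (nat_lit 100), (nat_lit 160)], [(nat_lit 0), (nat_lit 0), (nat_lit 4607)], [((nat_lit 0), (nat_lit 0), (nat_lit 0)), ((nat_lit 0), (nat_lit 0), (nat_lit 0)), ((nat_lit 846), (nat_lit 837), (nat_lit 1000))], ((nat_lit 88), (nat_lit 100), (nat_lit 96))⟩, (nat_lit 0), (nat_lit 88), (nat_lit 88), (nat_lit 0), (nat_lit 0), [(nat_lit 2032000000), (nat_lit 6250000000), (nat_lit 11872000000)], [], [(nat_lit 25738697159), (nat_lit 30012568601), (nat_lit 29862408198), (nat_lit 33111798086), (nat_lit 30310832597), (nat_lit 33847400043), (nat_lit 33293971644), (nat_lit 36538262165)], (nat_lit 0), (nat_lit 0), (nat_lit 0), (nat_lit 0), (nat_lit 0), (nat_lit 0), [], [(nat_lit 6), (nat_lit 56), (nat_lit 401), (nat_lit 175), (nat_lit 9)]⟩,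
 ⟨⟨[(nat_lit 120), (nat_lit 160), (nat_lit 200)], [(nat_lit 0), (nat_lit 0), (nat_lit 3198)], [((nat_lit 0), (nat_lit 0), (nat_lit 0)), ((nat_lit 0), (nat_lit 0), (nat_lit 0)), ((nat_lit 572), (nat_lit 1000), (nat_lit 714))], ((nat_lit 0), (nat_lit 0), (nat_lit 0))⟩, (nat_lit 53659), (nat_lit 300), (nat_lit 2192), (nat_lit 8162000), (nat_lit 3874320), [(nat_lit 876480000), (nat_lit 1305920000), (nat_lit 1804000000)], [], [(nat_lit 6983020848), (nat_lit 6828466599), (nat_lit 5824609470), (nat_lit 5674805570), (nat_lit 6871514300), (nat_lit 6720300780), (nat_lit 5688898010), (nat_lit 5544464220)], (nat_lit 1100000), (nat_lit 1442501), (nat_lit 292188), (nat_lit 2325625), (nat_lit 1271251), (nat_lit 1271251), [(nat_lit 1695001), (nat_lit 1271251), (nat_lit 1271251)], [(nat_lit 29), (nat_lit 66), (nat_lit 658), (nat_lit 225), (nat_lit 13)]⟩⟩)))) (.trZ (nat_lit 5) (nat_lit 3) (nat_lit 4) (nat_lit 80) (nat_lit 100) (nat_lit 60) (nat_lit 40) (.spl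 (nat_lit 5) (nat_lit 280) (.spl (nat_lit 4) (nat_lit 200) (.leaf ⟨(nat_lit 0), (nat_lit 1000), (nat_lit 0), (nat_lit 0), (nat_lit 0), (nat_lit 6742), (nat_lit 6245), (nat_lit 0), (nat_lit 4084453277487), (nat_lit 0), (nat_lit 0), [], Pd.none, Pd.none, (nat_lit 0), (nat_lit 1), (nat_lit 0), (nat_lit 0), (nat_lit 5), (nat_lit 0), [], [], [⟨(nat_lit 1), (nat_lit 89), (nat_lit 68), (nat_lit 100), (nat_lit 123267005)⟩], [],
 ⟨⟨[(nat_lit 40), (nat_lit 80), (nat_lit 120)], [(nat_lit 0), (nat_lit 1598), (nat_lit 3468)], [((nat_lit 0), (nat_lit 0), (nat_lit 0)), ((nat_lit 1000), (nat_lit 625), (nat_lit 623)), ((nat_lit 1000), (nat_lit 604), (nat_lit 730))], ((nat_lit 61), (nat_lit 100), (nat_lit 89))⟩, (nat_lit 539792), (nat_lit 300), (nat_lit 406), (nat_lit 50800012), (nat_lit 650091), [(nat_lit 2032000001), (nat_lit 4861240082), (nat_lit 7968000000)], [], [(nat_lit 36943226482), (nat_lit 37720967595), (nat_lit 40073045158), (nat_lit 41572659459), (nat_lit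 33979458156), (nat_lit 34607519228), (nat_lit 36219215288), (nat_lit 36711032782)], (nat_lit 1271251), (nat_lit 1271251), (nat_lit 1271251), (nat_lit 1271251), (nat_lit 230000), (nat_lit 1420001), [(nat_lit 490000), (nat_lit 1100000), (nat_lit 1785001)], [(nat_lit 4), (nat_lit 51), (nat_lit 260), (nat_lit 50), (nat_lit 7)]⟩,
 ⟨⟨[(nat_lit 40), (nat_lit 100), (nat_lit 160)], [(nat_lit 0), (nat_lit 0), (nat_lit 4607)], [((nat_lit 0), (nat_lit 0), (nat_lit 0)), ((nat_lit 0), (nat_lit 0), (nat_lit 0)), ((nat_lit 846), (nat_lit 837), (nat_lit 1000))], ((nat_lit 88), (nat_lit 100), (nat_lit 96))⟩, (nat_lit 0), (nat_lit 99), (nat_lit 99), (nat_lit 0), (nat_lit 0), [(nat_lit 2032000000), (nat_lit 6250000000), (nat_lit 11872000000)], [], [(nat_lit 28069603830), (nat_lit 31762866608), (nat_lit 32993954200), (nat_lit 35888590728), (nat_lit 30173751010), (nat_lit 33300169578), (nat_lit 34342309100), (nat_lit 36913672960)], (nat_lit 0), (nat_lit 0), (nat_lit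 0), (nat_lit 0), (nat_lit 0), (nat_lit 0), [], [(nat_lit 6), (nat_lit 56), (nat_lit 289), (nat_lit 75), (nat_lit 6)]⟩,
 Rw.none⟩) (.leaf ⟨(nat_lit 0), (nat_lit 1000), (nat_lit 0), (nat_lit 0), (nat_lit 0), (nat_lit 6157), (nat_lit 6166), (nat_lit 0), (nat_lit 16278343614607), (nat_lit 0), (nat_lit 0), [], Pd.none, Pd.none, (nat_lit 0), (nat_lit 1), (nat_lit 0), (nat_lit 0), (nat_lit 5), (nat_lit 0), [], [⟨(nat_lit 1), (nat_lit 96), (nat_lit 54), (nat_lit 100), (nat_lit 490265502)⟩], [], [],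
 ⟨⟨[(nat_lit 40), (nat_lit 80), (nat_lit 120)], [(nat_lit 0), (nat_lit 1598), (nat_lit 3468)], [((nat_lit 0), (nat_lit 0), (nat_lit 0)), ((nat_lit 1000), (nat_lit 625), (nat_lit 623)), ((nat_lit 1000), (nat_lit 604), (nat_lit 730))], ((nat_lit 61), (nat_lit 100), (nat_lit 89))⟩, (nat_lit 539792), (nat_lit 300), (nat_lit 319), (nat_lit 50800012), (nat_lit 650091), [(nat_lit 2032000001), (nat_lit 4849871568), (nat_lit 7968000000)], [], [(nat_lit 33440059374), (nat_lit 34175519185), (nat_lit 36083904523), (nat_lit 36669674126), (nat_lit 34936504159), (nat_lit 35505328546), (nat_lit 36969788491), (nat_lit 37744898327)], (nat_lit 1271251), (nat_lit 1271251), (nat_lit 1271251), (nat_lit 1271251), (nat_lit 1271251), (nat_lit 1271251), [(nat_lit 490000), (nat_lit 1100000), (nat_lit 1785001)], [(nat_lit 4), (nat_lit 51), (nat_lit 317), (nat_lit 100), (nat_lit 8)]⟩,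
 ⟨⟨[(nat_lit 40), (nat_lit 100), (nat_lit 160)], [(nat_lit 0), (nat_lit 0), (nat_lit 4607)], [((nat_lit 0), (nat_lit 0), (nat_lit 0)), ((nat_lit 0), (nat_lit 0), (nat_lit 0)), ((nat_lit 846), (nat_lit 837), (nat_lit 1000))], ((nat_lit 88), (nat_lit 100), (nat_lit 96))⟩, (nat_lit 0), (nat_lit 99), (nat_lit 99), (nat_lit 0), (nat_lit 0), [(nat_lit 2032000000), (nat_lit 6250000000), (nat_lit 11872000000)], [], [(nat_lit 28120737844), (nat_lit 31789042981), (nat_lit 33011811360), (nat_lit 35889797097), (nat_lit 30222359868), (nat_lit 33329600277), (nat_lit 34365347080), (nat_lit 36805982761)], (nat_lit 0), (nat_lit 0), (nat_lit 0), (nat_lit 0), (nat_lit 0), (nat_lit 0), [], [(nat_lit 6), (nat_lit 56), (nat_lit 289), (nat_lit 75), (nat_lit 6)]⟩,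
 Rw.none⟩)) (.trZ (nat_lit 5) (nat_lit 3) (nat_lit 4) (nat_lit 87) (nat_lit 100) (nat_lit 95) (nat_lit 100) (.spl (nat_lit 2) (nat_lit 160) (.trX (nat_lit 4) (nat_lit 0) (nat_lit 2) (nat_lit 61) (nat_lit 92) (nat_lit 100) (nat_lit 290) (.trX (nat_lit 5) (nat_lit 1) (nat_lit 2) (nat_lit 82) (nat_lit 76) (nat_lit 100) (nat_lit 340) (.leaf ⟨(nat_lit 0), (nat_lit 1000), (nat_lit 0), (nat_lit 0), (nat_lit 0), (nat_lit 6594), (nat_lit 6466), (nat_lit 0), (nat_lit 254258), (nat_lit 0), (nat_lit 0), [], Pd.none, Pd.none, (nat_lit 0), (nat_lit 1), (nat_lit 0), (nat_lit 0), (nat_lit 7), (nat_lit 0), [], [⟨(nat_lit 1), (nat_lit 100), (nat_lit 54), (nat_lit 98), (nat_lit 204905890)⟩, ⟨(nat_lit 1), (nat_lit 92), (nat_lit 61), (nat_lit 100), (nat_lit 59341531)⟩], [⟨(nat_lit 1), (nat_lit 96), (nat_lit 69), (nat_lit 100), (nat_lit 618343065)⟩], [],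
 ⟨⟨[(nat_lit 40), (nat_lit 80), (nat_lit 120)], [(nat_lit 0), (nat_lit 1598), (nat_lit 3468)], [((nat_lit 0), (nat_lit 0), (nat_lit 0)), ((nat_lit 1000), (nat_lit 625), (nat_lit 623)), ((nat_lit 1000), (nat_lit 604), (nat_lit 730))], ((nat_lit 61), (nat_lit 100), (nat_lit 89))⟩, (nat_lit 539792), (nat_lit 300), (nat_lit 373), (nat_lit 50800012), (nat_lit 650091), [(nat_lit 2032000002), (nat_lit 4861793029), (nat_lit 7968000000)], [], [(nat_lit 35264126899), (nat_lit 35992518345), (nat_lit 37869867507), (nat_lit 38444346366), (nat_lit 35052539140), (nat_lit 35565451442), (nat_lit 36874515534), (nat_lit 37630451123)], (nat_lit 1271251), (nat_lit 1271251), (nat_lit 1271251), (nat_lit 1271251), (nat_lit 631250), (nat_lit 2151251), [(nat_lit 490000), (nat_lit 1100000), (nat_lit 1785001)], [(nat_lit 4), (nat_lit 51), (nat_lit 289), (nat_lit 75), (nat_lit 8)]⟩,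
 ⟨⟨[(nat_lit 40), (nat_lit 100), (nat_lit 160)], [(nat_lit 0), (nat_lit 0), (nat_lit 4607)], [((nat_lit 0), (nat_lit 0), (nat_lit 0)), ((nat_lit 0), (nat_lit 0), (nat_lit 0)), ((nat_lit 846), (nat_lit 837), (nat_lit 1000))], ((nat_lit 88), (nat_lit 100), (nat_lit 96))⟩, (nat_lit 0), (nat_lit 92), (nat_lit 92), (nat_lit 0), (nat_lit 0), [(nat_lit 2032000000), (nat_lit 6250000000), (nat_lit 11872000000)], [], [(nat_lit 30037769268), (nat_lit 33217838127), (nat_lit 34277861080), (nat_lit 37216776228), (nat_lit 32403989298), (nat_lit 35195506648), (nat_lit 36322540090), (nat_lit 38932080436)], (nat_lit 0), (nat_lit 0), (nat_lit 0), (nat_lit 0), (nat_lit 0), (nat_lit 0), [], [(nat_lit 6), (nat_lit 56), (nat_lit 317), (nat_lit 100), (nat_lit 7)]⟩,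
 Rw.none⟩))) (.leaf ⟨(nat_lit 0), (nat_lit 908), (nat_lit 0), (nat_lit 92), (nat_lit 0), (nat_lit 6154), (nat_lit 6166), (nat_lit 1007), (nat_lit 618827549696), (nat_lit 0), (nat_lit 0), [], Pd.none, Pd.none, (nat_lit 0), (nat_lit 1), (nat_lit 0), (nat_lit 0), (nat_lit 7), (nat_lit 0), [], [⟨(nat_lit 1), (nat_lit 90), (nat_lit 53), (nat_lit 100), (nat_lit 218413806)⟩], [⟨(nat_lit 1), (nat_lit 82), (nat_lit 66), (nat_lit 100), (nat_lit 525986727)⟩], [],
 ⟨⟨[(nat_lit 40), (nat_lit 80), (nat_lit 120)], [(nat_lit 0), (nat_lit 1598), (nat_lit 3468)], [((nat_lit 0), (nat_lit 0), (nat_lit 0)), ((nat_lit 1000), (nat_lit 625), (nat_lit 623)), ((nat_lit 1000), (nat_lit 604), (nat_lit 730))], ((nat_lit 61), (nat_lit 100), (nat_lit 89))⟩, (nat_lit 539792), (nat_lit 300), (nat_lit 312), (nat_lit 50800012), (nat_lit 523114), [(nat_lit 2032000002), (nat_lit 4856137020), (nat_lit 7968000000)], [], [(nat_lit 33933476428), (nat_lit 34783056416), (nat_lit 36999090424),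 (nat_lit 37679417222), (nat_lit 34944451798), (nat_lit 35513204951), (nat_lit 36977545241), (nat_lit 37740779894)], (nat_lit 1271251), (nat_lit 1271251), (nat_lit 1271251), (nat_lit 1271251), (nat_lit 631250), (nat_lit 2391251), [(nat_lit 490000), (nat_lit 1100000), (nat_lit 1785001)], [(nat_lit 4), (nat_lit 51), (nat_lit 317), (nat_lit 100), (nat_lit 9)]⟩,
 ⟨⟨[(nat_lit 40), (nat_lit 100), (nat_lit 160)], [(nat_lit 0), (nat_lit 0), (nat_lit 4607)], [((nat_lit 0), (nat_lit 0), (nat_lit 0)), ((nat_lit 0), (nat_lit 0), (nat_lit 0)), ((nat_lit 846), (nat_lit 837), (nat_lit 1000))], ((nat_lit 88), (nat_lit 100), (nat_lit 96))⟩, (nat_lit 0), (nat_lit 94), (nat_lit 94), (nat_lit 0), (nat_lit 0), [(nat_lit 2032000000), (nat_lit 6250000000), (nat_lit 11872000000)], [], [(nat_lit 30222359868), (nat_lit 33329600277), (nat_lit 34365347080), (nat_lit 36805982761), (nat_lit 33486781148), (nat_lit 35998564460), (nat_lit 36852267108), (nat_lit 39258779646)],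 (nat_lit 0), (nat_lit 0), (nat_lit 0), (nat_lit 0), (nat_lit 0), (nat_lit 0), [], [(nat_lit 6), (nat_lit 56), (nat_lit 317), (nat_lit 100), (nat_lit 7)]⟩,
 ⟨⟨[(nat_lit 120), (nat_lit 160), (nat_lit 200)], [(nat_lit 0), (nat_lit 0), (nat_lit 3198)], [((nat_lit 0), (nat_lit 0), (nat_lit 0)), ((nat_lit 0), (nat_lit 0), (nat_lit 0)), ((nat_lit 572), (nat_lit 1000), (nat_lit 714))], ((nat_lit 0), (nat_lit 0), (nat_lit 0))⟩, (nat_lit 44878), (nat_lit 300), (nat_lit 2156), (nat_lit 6826401), (nat_lit 3874320), [(nat_lit 733056000), (nat_lit 1092224000), (nat_lit 1508800000)], [], [(nat_lit 5559659746), (nat_lit 5431956054), (nat_lit 4875517538), (nat_lit 4750364800), (nat_lit 5443700151), (nat_lit 5319029584), (nat_lit 4762187026), (nat_lit 4640046882)], (nat_lit 1100000), (nat_lit 1442501), (nat_lit 631250), (nat_lit 2391251), (nat_lit 1271251), (nat_lit 1271251), [(nat_lit 1695001), (nat_lit 1271251), (nat_lit 1271251)], [(nat_lit 29), (nat_lit 66),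 (nat_lit 649), (nat_lit 225), (nat_lit 13)]⟩⟩))))))
noncomputable def c18_18 : Tr Lf :=
 (.spl (nat_lit 2) (nat_lit 160) (.trX (nat_lit 4) (nat_lit 0) (nat_lit 2) (nat_lit 61) (nat_lit 92) (nat_lit 100) (nat_lit 290) (.trX (nat_lit 5) (nat_lit 1) (nat_lit 2) (nat_lit 82) (nat_lit 76) (nat_lit 100) (nat_lit 340) (.spl (nat_lit 2) (nat_lit 140) (.trX (nat_lit 4) (nat_lit 0) (nat_lit 2) (nat_lit 63) (nat_lit 99) (nat_lit 100) (nat_lit 270) (.trX (nat_lit 5) (nat_lit 1) (nat_lit 2) (nat_lit 84) (nat_lit 85) (nat_lit 100) (nat_lit 320) (.spl (nat_lit 3) (nat_lit 320) (.spl (nat_lit 4) (nat_lit 160) (.leaf ⟨(nat_lit 0), (nat_lit 1000), (nat_lit 0), (nat_lit 0), (nat_lit 0), (nat_lit 4625), (nat_lit 7544), (nat_lit 0), (nat_lit 19966), (nat_lit 0), (nat_lit 0), [], Pd.none, Pd.none, (nat_lit 0), (nat_lit 1), (nat_lit 0), (nat_lit 0), (nat_lit 5), (nat_lit 0), [⟨(nat_lit 0), (nat_lit 69), (nat_lit 55), (nat_lit 100), (nat_lit 357741592)⟩], [], [⟨(nat_lit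 1), (nat_lit 100), (nat_lit 71), (nat_lit 100), (nat_lit 441143803)⟩], [],
 ⟨⟨[(nat_lit 40), (nat_lit 80), (nat_lit 120)], [(nat_lit 0), (nat_lit 1598), (nat_lit 3468)], [((nat_lit 0), (nat_lit 0), (nat_lit 0)), ((nat_lit 1000), (nat_lit 625), (nat_lit 623)), ((nat_lit 1000), (nat_lit 604), (nat_lit 730))], ((nat_lit 61), (nat_lit 100), (nat_lit 89))⟩, (nat_lit 2062831), (nat_lit 284), (nat_lit 284), (nat_lit 0), (nat_lit 310594), [(nat_lit 2032000015), (nat_lit 4858194685), (nat_lit 7968000000)], [], [(nat_lit 24135738282), (nat_lit 26283834047), (nat_lit 30026887375), (nat_lit 31635642500), (nat_lit 22330899762), (nat_lit 23451715950), (nat_lit 26891456750), (nat_lit 28297724625)], (nat_lit 1271251), (nat_lit 1271251), (nat_lit 1271251), (nat_lit 1271251), (nat_lit 111251), (nat_lit 1100000), [(nat_lit 490000), (nat_lit 1100000), (nat_lit 1785001)], [(nat_lit 4), (nat_lit 51), (nat_lit 345), (nat_lit 125), (nat_lit 11)]⟩,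
 ⟨⟨[(nat_lit 40), (nat_lit 100), (nat_lit 160)], [(nat_lit 0), (nat_lit 0), (nat_lit 4607)], [((nat_lit 0), (nat_lit 0), (nat_lit 0)), ((nat_lit 0), (nat_lit 0), (nat_lit 0)), ((nat_lit 846), (nat_lit 837), (nat_lit 1000))], ((nat_lit 88), (nat_lit 100), (nat_lit 96))⟩, (nat_lit 1667014), (nat_lit 412), (nat_lit 412), (nat_lit 0), (nat_lit 673979), [(nat_lit 2032000000), (nat_lit 6250000000), (nat_lit 11872000000)], [], [(nat_lit 27864322078), (nat_lit 30367188964), (nat_lit 29759417872), (nat_lit 32268039316), (nat_lit 29759417872), (nat_lit 32268039316), (nat_lit 31667544864), (nat_lit 35383930792)], (nat_lit 1271251), (nat_lit 1271251), (nat_lit 1271251), (nat_lit 1271251), (nat_lit 1271251), (nat_lit 1271251), [(nat_lit 490000), (nat_lit 1427501), (nat_lit 1271251)], [(nat_lit 6), (nat_lit 56), (nat_lit 401), (nat_lit 175), (nat_lit 9)]⟩,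
 Rw.none⟩) (.stt (nat_lit 1) (.leaf ⟨(nat_lit 0), (nat_lit 1000), (nat_lit 0), (nat_lit 0), (nat_lit 0), (nat_lit 5751), (nat_lit 7592), (nat_lit 0), (nat_lit 3617), (nat_lit 0), (nat_lit 0), [], Pd.none, Pd.none, (nat_lit 0), (nat_lit 1), (nat_lit 0), (nat_lit 0), (nat_lit 5), (nat_lit 0), [⟨(nat_lit 0), (nat_lit 69), (nat_lit 55), (nat_lit 100), (nat_lit 485744548)⟩], [⟨(nat_lit 1), (nat_lit 100), (nat_lit 54), (nat_lit 96), (nat_lit 563898945)⟩], [⟨(nat_lit 1), (nat_lit 85), (nat_lit 84), (nat_lit 100), (nat_lit 357999742)⟩], [],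
 ⟨⟨[(nat_lit 40), (nat_lit 80), (nat_lit 120)], [(nat_lit 0), (nat_lit 1598), (nat_lit 3468)], [((nat_lit 0), (nat_lit 0), (nat_lit 0)), ((nat_lit 1000), (nat_lit 625), (nat_lit 623)), ((nat_lit 1000), (nat_lit 604), (nat_lit 730))], ((nat_lit 61), (nat_lit 100), (nat_lit 89))⟩, (nat_lit 0), (nat_lit 70), (nat_lit 70), (nat_lit 0), (nat_lit 0), [(nat_lit 2427142063), (nat_lit 4688000002), (nat_lit 7968000000)], [], [(nat_lit 23238685759), (nat_lit 25015074150), (nat_lit 28186194060), (nat_lit 29537954289), (nat_lit 26625843706), (nat_lit 28053006469), (nat_lit 30459780174), (nat_lit 31736663041)], (nat_lit 0), (nat_lit 0), (nat_lit 0), (nat_lit 0), (nat_lit 0), (nat_lit 0), [], [(nat_lit 4), (nat_lit 51), (nat_lit 373), (nat_lit 150), (nat_lit 11)]⟩,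
 ⟨⟨[(nat_lit 40), (nat_lit 100), (nat_lit 160)], [(nat_lit 0), (nat_lit 0), (nat_lit 4607)], [((nat_lit 0), (nat_lit 0), (nat_lit 0)), ((nat_lit 0), (nat_lit 0), (nat_lit 0)), ((nat_lit 846), (nat_lit 837), (nat_lit 1000))], ((nat_lit 88), (nat_lit 100), (nat_lit 96))⟩, (nat_lit 1666524), (nat_lit 412), (nat_lit 412), (nat_lit 0), (nat_lit 673979), [(nat_lit 2032000000), (nat_lit 6250000000), (nat_lit 11872000000)], [], [(nat_lit 27730462500), (nat_lit 30240431898), (nat_lit 29622358096), (nat_lit 32138115388), (nat_lit 29622358096), (nat_lit 32138115388), (nat_lit 31528582432), (nat_lit 35436455656)], (nat_lit 1271251), (nat_lit 1271251), (nat_lit 1271251), (nat_lit 1271251), (nat_lit 1271251), (nat_lit 1271251), [(nat_lit 490000), (nat_lit 1427501), (nat_lit 1271251)], [(nat_lit 6), (nat_lit 56), (nat_lit 401), (nat_lit 175), (nat_lit 9)]⟩,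
 Rw.none⟩) (.leaf ⟨(nat_lit 0), (nat_lit 828), (nat_lit 0), (nat_lit 172), (nat_lit 0), (nat_lit 8870), (nat_lit 8146), (nat_lit 2168), (nat_lit 17156), (nat_lit 0), (nat_lit 0), [], Pd.none, Pd.none, (nat_lit 0), (nat_lit 1), (nat_lit 0), (nat_lit 0), (nat_lit 5), (nat_lit 0), [⟨(nat_lit 0), (nat_lit 69), (nat_lit 55), (nat_lit 100), (nat_lit 322113544)⟩], [⟨(nat_lit 1), (nat_lit 100), (nat_lit 54), (nat_lit 96), (nat_lit 293875073)⟩], [⟨(nat_lit 1), (nat_lit 100), (nat_lit 71), (nat_lit 100), (nat_lit 310489581)⟩], [],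
 ⟨⟨[(nat_lit 40), (nat_lit 80), (nat_lit 120)], [(nat_lit 0), (nat_lit 1598), (nat_lit 3468)], [((nat_lit 0), (nat_lit 0), (nat_lit 0)), ((nat_lit 1000), (nat_lit 625), (nat_lit 623)), ((nat_lit 1000), (nat_lit 604), (nat_lit 730))], ((nat_lit 61), (nat_lit 100), (nat_lit 89))⟩, (nat_lit 0), (nat_lit 187), (nat_lit 187), (nat_lit 0), (nat_lit 310594), [(nat_lit 3262963816), (nat_lit 5340342212), (nat_lit 7968000000)], [], [(nat_lit 26765625730), (nat_lit 28772689825), (nat_lit 31479156940), (nat_lit 32973167830), (nat_lit 29576661258), (nat_lit 31162048762), (nat_lit 33290035630), (nat_lit 34930645360)], (nat_lit 1271251), (nat_lit 1271251), (nat_lit 1271251), (nat_lit 1271251), (nat_lit 1100000), (nat_lit 2041876), [(nat_lit 490000), (nat_lit 1100000), (nat_lit 1785001)], [(nat_lit 4), (nat_lit 51), (nat_lit 373), (nat_lit 150), (nat_lit 11)]⟩,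
 ⟨⟨[(nat_lit 40), (nat_lit 100), (nat_lit 160)], [(nat_lit 0), (nat_lit 0), (nat_lit 4607)], [((nat_lit 0), (nat_lit 0), (nat_lit 0)), ((nat_lit 0), (nat_lit 0), (nat_lit 0)), ((nat_lit 846), (nat_lit 837), (nat_lit 1000))], ((nat_lit 88), (nat_lit 100), (nat_lit 96))⟩, (nat_lit 1420774), (nat_lit 240), (nat_lit 240), (nat_lit 0), (nat_lit 321497), [(nat_lit 2032000000), (nat_lit 6250000000), (nat_lit 11872000000)], [], [(nat_lit 26545397510), (nat_lit 30452843183), (nat_lit 29825979090), (nat_lit 33035314536), (nat_lit 29825979090), (nat_lit 33035314536), (nat_lit 32055140182), (nat_lit 36042680128)], (nat_lit 1271251), (nat_lit 1271251), (nat_lit 1271251), (nat_lit 1271251), (nat_lit 1271251), (nat_lit 1271251), [(nat_lit 490000), (nat_lit 1427501), (nat_lit 1271251)], [(nat_lit 6), (nat_lit 56), (nat_lit 401), (nat_lit 175), (nat_lit 9)]⟩,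
 ⟨⟨[(nat_lit 140), (nat_lit 180), (nat_lit 200)], [(nat_lit 0), (nat_lit 0), (nat_lit 2835)], [((nat_lit 0), (nat_lit 0), (nat_lit 0)), ((nat_lit 0), (nat_lit 0), (nat_lit 0)), ((nat_lit 363), (nat_lit 1000), (nat_lit 798))], ((nat_lit 0), (nat_lit 0), (nat_lit 0))⟩, (nat_lit 47323), (nat_lit 300), (nat_lit 1044), (nat_lit 13433200), (nat_lit 1502466), [(nat_lit 1692824000), (nat_lit 2417976000), (nat_lit 2820800000)], [], [(nat_lit 9877660216), (nat_lit 9700943532), (nat_lit 9284883847), (nat_lit 9112223731), (nat_lit 9430287408), (nat_lit 9254301592), (nat_lit 8874730878), (nat_lit 8694907998)], (nat_lit 780000), (nat_lit 936250), (nat_lit 1100000), (nat_lit 2041876), (nat_lit 1271251), (nat_lit 1271251), [(nat_lit 1977501), (nat_lit 1271251), (nat_lit 1271251)], [(nat_lit 32), (nat_lit 67), (nat_lit 428), (nat_lit 200), (nat_lit 9)]⟩⟩))) (.trZ (nat_lit 5) (nat_lit 3) (nat_lit 4) (nat_lit 80) (nat_lit 100) (nat_lit 60) (nat_lit 40) (.leaf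 ⟨(nat_lit 0), (nat_lit 1000), (nat_lit 0), (nat_lit 0), (nat_lit 0), (nat_lit 4338), (nat_lit 6680), (nat_lit 0), (nat_lit 3777), (nat_lit 0), (nat_lit 0), [], Pd.none, Pd.none, (nat_lit 0), (nat_lit 1), (nat_lit 0), (nat_lit 0), (nat_lit 5), (nat_lit 0), [], [⟨(nat_lit 1), (nat_lit 100), (nat_lit 54), (nat_lit 96), (nat_lit 273800181)⟩], [⟨(nat_lit 1), (nat_lit 100), (nat_lit 71), (nat_lit 100), (nat_lit 80456354)⟩, ⟨(nat_lit 1), (nat_lit 85), (nat_lit 84), (nat_lit 100), (nat_lit 254686875)⟩], [],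
 ⟨⟨[(nat_lit 40), (nat_lit 80), (nat_lit 120)], [(nat_lit 0), (nat_lit 1598), (nat_lit 3468)], [((nat_lit 0), (nat_lit 0), (nat_lit 0)), ((nat_lit 1000), (nat_lit 625), (nat_lit 623)), ((nat_lit 1000), (nat_lit 604), (nat_lit 730))], ((nat_lit 61), (nat_lit 100), (nat_lit 89))⟩, (nat_lit 1612116), (nat_lit 285), (nat_lit 285), (nat_lit 0), (nat_lit 310594), [(nat_lit 2032000002), (nat_lit 4743639537), (nat_lit 7968000000)], [], [(nat_lit 29207293178), (nat_lit 30363000175), (nat_lit 34013885762), (nat_lit 35208395201), (nat_lit 29732512849), (nat_lit 30453636435), (nat_lit 33174479339), (nat_lit 34060820226)], (nat_lit 1271251), (nat_lit 1271251), (nat_lit 1271251), (nat_lit 1271251), (nat_lit 230000), (nat_lit 1940626), [(nat_lit 490000), (nat_lit 1100000), (nat_lit 1785001)], [(nat_lit 4), (nat_lit 51), (nat_lit 289), (nat_lit 75), (nat_lit 8)]⟩,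
 ⟨⟨[(nat_lit 40), (nat_lit 100), (nat_lit 160)], [(nat_lit 0), (nat_lit 0), (nat_lit 4607)], [((nat_lit 0), (nat_lit 0), (nat_lit 0)), ((nat_lit 0), (nat_lit 0), (nat_lit 0)), ((nat_lit 846), (nat_lit 837), (nat_lit 1000))], ((nat_lit 88), (nat_lit 100), (nat_lit 96))⟩, (nat_lit 1505595), (nat_lit 396), (nat_lit 396), (nat_lit 0), (nat_lit 673979), [(nat_lit 2032000000), (nat_lit 6250000000), (nat_lit 11872000000)], [], [(nat_lit 33011066235), (nat_lit 34831991115), (nat_lit 35438966075), (nat_lit 37282750900), (nat_lit 34191154080), (nat_lit 36016723800), (nat_lit 36625247040), (nat_lit 38462878480)], (nat_lit 1271251), (nat_lit 1271251), (nat_lit 1271251), (nat_lit 1271251), (nat_lit 1271251), (nat_lit 1271251), [(nat_lit 490000), (nat_lit 1427501), (nat_lit 1271251)], [(nat_lit 6), (nat_lit 56), (nat_lit 317), (nat_lit 100), (nat_lit 7)]⟩,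
 Rw.none⟩))))) (.trZ (nat_lit 0) (nat_lit 2) (nat_lit 4) (nat_lit 100) (nat_lit 63) (nat_lit 61) (nat_lit 30) (.spl (nat_lit 0) (nat_lit 370) (.ord (.leaf ⟨(nat_lit 0), (nat_lit 873), (nat_lit 0), (nat_lit 127), (nat_lit 0), (nat_lit 4566), (nat_lit 7526), (nat_lit 1400), (nat_lit 58185039138), (nat_lit 0), (nat_lit 0), [], Pd.none, Pd.none, (nat_lit 0), (nat_lit 1), (nat_lit 0), (nat_lit 0), (nat_lit 5), (nat_lit 0), [⟨(nat_lit 0), (nat_lit 59), (nat_lit 59), (nat_lit 100), (nat_lit 85968271)⟩], [⟨(nat_lit 1), (nat_lit 97), (nat_lit 58), (nat_lit 100), (nat_lit 76134354)⟩], [⟨(nat_lit 1), (nat_lit 90), (nat_lit 71), (nat_lit 100), (nat_lit 268190859)⟩], [],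
 ⟨⟨[(nat_lit 40), (nat_lit 80), (nat_lit 120)], [(nat_lit 0), (nat_lit 1598), (nat_lit 3468)], [((nat_lit 0), (nat_lit 0), (nat_lit 0)), ((nat_lit 1000), (nat_lit 625), (nat_lit 623)), ((nat_lit 1000), (nat_lit 604), (nat_lit 730))], ((nat_lit 61), (nat_lit 100), (nat_lit 89))⟩, (nat_lit 1525182), (nat_lit 271), (nat_lit 271), (nat_lit 0), (nat_lit 242999), [(nat_lit 2032000015), (nat_lit 4688000020), (nat_lit 7968000000)], [], [(nat_lit 26062762092), (nat_lit 26586741349), (nat_lit 35075801135), (nat_lit 35690169547), (nat_lit 27583713757), (nat_lit 27947661958), (nat_lit 33983083907), (nat_lit 34415728093)], (nat_lit 1271251), (nat_lit 1271251), (nat_lit 1271251), (nat_lit 1271251), (nat_lit 169688), (nat_lit 2079063), [(nat_lit 490000), (nat_lit 1100000), (nat_lit 1785001)], [(nat_lit 4), (nat_lit 51), (nat_lit 401), (nat_lit 175), (nat_lit 12)]⟩,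
 ⟨⟨[(nat_lit 40), (nat_lit 100), (nat_lit 160)], [(nat_lit 0), (nat_lit 0), (nat_lit 4607)], [((nat_lit 0), (nat_lit 0), (nat_lit 0)), ((nat_lit 0), (nat_lit 0), (nat_lit 0)), ((nat_lit 846), (nat_lit 837), (nat_lit 1000))], ((nat_lit 88), (nat_lit 100), (nat_lit 96))⟩, (nat_lit 1633271), (nat_lit 360), (nat_lit 360), (nat_lit 0), (nat_lit 522186), [(nat_lit 2032000000), (nat_lit 6250000000), (nat_lit 11872000000)], [], [(nat_lit 28070819957), (nat_lit 30154322827), (nat_lit 33713081920), (nat_lit 37008042228), (nat_lit 30646130455), (nat_lit 32621055736), (nat_lit 37648456990), (nat_lit 39966775495)], (nat_lit 1271251), (nat_lit 1271251), (nat_lit 1271251), (nat_lit 1271251), (nat_lit 1271251), (nat_lit 1271251), [(nat_lit 490000), (nat_lit 1427501), (nat_lit 1271251)], [(nat_lit 6), (nat_lit 56), (nat_lit 428), (nat_lit 200), (nat_lit 10)]⟩,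
 ⟨⟨[(nat_lit 140), (nat_lit 180), (nat_lit 200)], [(nat_lit 0), (nat_lit 608), (nat_lit 3317)], [((nat_lit 0), (nat_lit 0), (nat_lit 0)), ((nat_lit 913), (nat_lit 1000), (nat_lit 217)), ((nat_lit 385), (nat_lit 1000), (nat_lit 814))], ((nat_lit 0), (nat_lit 0), (nat_lit 0))⟩, (nat_lit 37502), (nat_lit 300), (nat_lit 1689), (nat_lit 9792030), (nat_lit 2744119), [(nat_lit 1249934000), (nat_lit 1785366000), (nat_lit 2082800000)], [], [(nat_lit 8990380165), (nat_lit 8876331016), (nat_lit 7945676608), (nat_lit 8313770358), (nat_lit 8533122693), (nat_lit 8415579545), (nat_lit 7057365652), (nat_lit 6952766844)], (nat_lit 936250), (nat_lit 1100000), (nat_lit 169688), (nat_lit 2079063), (nat_lit 1271251), (nat_lit 1271251), [(nat_lit 1977501), (nat_lit 1271251), (nat_lit 1271251)], [(nat_lit 32), (nat_lit 67), (nat_lit 521), (nat_lit 200), (nat_lit 11)]⟩⟩)) (.trZ (nat_lit 0) (nat_lit 1) (nat_lit 3) (nat_lit 80) (nat_lit 53) (nat_lit 100) (nat_lit 210)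 (.trZ (nat_lit 0) (nat_lit 2) (nat_lit 4) (nat_lit 100) (nat_lit 55) (nat_lit 68) (nat_lit 40) (.trX (nat_lit 4) (nat_lit 0) (nat_lit 2) (nat_lit 54) (nat_lit 96) (nat_lit 100) (nat_lit 270) (.leaf ⟨(nat_lit 0), (nat_lit 879), (nat_lit 0), (nat_lit 121), (nat_lit 0), (nat_lit 4491), (nat_lit 7411), (nat_lit 1348), (nat_lit 46312), (nat_lit 0), (nat_lit 0), [], Pd.none, Pd.none, (nat_lit 0), (nat_lit 1), (nat_lit 0), (nat_lit 0), (nat_lit 5), (nat_lit 0), [⟨(nat_lit 0), (nat_lit 70), (nat_lit 51), (nat_lit 100), (nat_lit 29312563)⟩], [⟨(nat_lit 1), (nat_lit 100), (nat_lit 50), (nat_lit 100), (nat_lit 83602075)⟩], [⟨(nat_lit 1), (nat_lit 92), (nat_lit 68), (nat_lit 100), (nat_lit 294936119)⟩], [],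
 ⟨⟨[(nat_lit 40), (nat_lit 80), (nat_lit 120)], [(nat_lit 0), (nat_lit 2008), (nat_lit 3930)], [((nat_lit 0), (nat_lit 0), (nat_lit 0)), ((nat_lit 1000), (nat_lit 540), (nat_lit 733)), ((nat_lit 1000), (nat_lit 536), (nat_lit 751))], ((nat_lit 53), (nat_lit 100), (nat_lit 88))⟩, (nat_lit 1450679), (nat_lit 276), (nat_lit 276), (nat_lit 0), (nat_lit 276119), [(nat_lit 2032000018), (nat_lit 4945247928), (nat_lit 7968000000)], [], [(nat_lit 25783059509), (nat_lit 26530654111), (nat_lit 35006478215), (nat_lit 35613441970), (nat_lit 27152683606), (nat_lit 27602403218), (nat_lit 33821562273), (nat_lit 34270611110)], (nat_lit 1271251), (nat_lit 1271251), (nat_lit 1271251), (nat_lit 1271251), (nat_lit 230000), (nat_lit 1940626), [(nat_lit 490000), (nat_lit 1100000), (nat_lit 1785001)], [(nat_lit 4), (nat_lit 51), (nat_lit 401), (nat_lit 175), (nat_lit 12)]⟩,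
 ⟨⟨[(nat_lit 40), (nat_lit 100), (nat_lit 160)], [(nat_lit 0), (nat_lit 0), (nat_lit 4607)], [((nat_lit 0), (nat_lit 0), (nat_lit 0)), ((nat_lit 0), (nat_lit 0), (nat_lit 0)), ((nat_lit 846), (nat_lit 837), (nat_lit 1000))], ((nat_lit 88), (nat_lit 100), (nat_lit 96))⟩, (nat_lit 1611185), (nat_lit 385), (nat_lit 385), (nat_lit 0), (nat_lit 601819), [(nat_lit 2032000000), (nat_lit 6250000000), (nat_lit 11872000000)], [], [(nat_lit 28563796776), (nat_lit 30999722299), (nat_lit 33576701120), (nat_lit 37497064117), (nat_lit 31019355628), (nat_lit 33366430363), (nat_lit 37504607515), (nat_lit 40267881406)], (nat_lit 1271251), (nat_lit 1271251), (nat_lit 1271251), (nat_lit 1271251), (nat_lit 1271251), (nat_lit 1271251), [(nat_lit 490000), (nat_lit 1427501), (nat_lit 1271251)], [(nat_lit 6), (nat_lit 56), (nat_lit 428), (nat_lit 200), (nat_lit 10)]⟩,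
 ⟨⟨[(nat_lit 140), (nat_lit 180), (nat_lit 200)], [(nat_lit 0), (nat_lit 608), (nat_lit 3317)], [((nat_lit 0), (nat_lit 0), (nat_lit 0)), ((nat_lit 913), (nat_lit 1000), (nat_lit 217)), ((nat_lit 385), (nat_lit 1000), (nat_lit 814))], ((nat_lit 0), (nat_lit 0), (nat_lit 0))⟩, (nat_lit 35730), (nat_lit 300), (nat_lit 1952), (nat_lit 9329418), (nat_lit 3301941), [(nat_lit 1190882000), (nat_lit 1701018000), (nat_lit 1984400000)], [], [(nat_lit 8391858901), (nat_lit 8280764463), (nat_lit 7382560180), (nat_lit 7732172419), (nat_lit 7975024803), (nat_lit 7861025235), (nat_lit 6691509247), (nat_lit 6589841813)], (nat_lit 936250), (nat_lit 1100000), (nat_lit 230000), (nat_lit 1940626), (nat_lit 1271251), (nat_lit 1271251), [(nat_lit 1977501), (nat_lit 1271251), (nat_lit 1271251)], [(nat_lit 32), (nat_lit 67), (nat_lit 585), (nat_lit 200), (nat_lit 12)]⟩⟩))))))))) (.trZ (nat_lit 0) (nat_lit 2) (nat_lit 4) (nat_lit 100) (nat_lit 61) (nat_lit 68) (nat_lit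 50) (.spl (nat_lit 0) (nat_lit 370) (.ord (.leaf ⟨(nat_lit 0), (nat_lit 796), (nat_lit 0), (nat_lit 204), (nat_lit 0), (nat_lit 4464), (nat_lit 7091), (nat_lit 2054), (nat_lit 311142), (nat_lit 0), (nat_lit 0), [], Pd.none, Pd.none, (nat_lit 0), (nat_lit 1), (nat_lit 0), (nat_lit 0), (nat_lit 5), (nat_lit 0), [⟨(nat_lit 0), (nat_lit 70), (nat_lit 58), (nat_lit 100), (nat_lit 47090686)⟩, ⟨(nat_lit 0), (nat_lit 59), (nat_lit 59), (nat_lit 100), (nat_lit 26925110)⟩], [⟨(nat_lit 1), (nat_lit 88), (nat_lit 57), (nat_lit 100), (nat_lit 70794755)⟩], [⟨(nat_lit 1), (nat_lit 79), (nat_lit 69), (nat_lit 100), (nat_lit 265615546)⟩], [],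
 ⟨⟨[(nat_lit 40), (nat_lit 80), (nat_lit 120)], [(nat_lit 0), (nat_lit 1598), (nat_lit 3468)], [((nat_lit 0), (nat_lit 0), (nat_lit 0)), ((nat_lit 1000), (nat_lit 625), (nat_lit 623)), ((nat_lit 1000), (nat_lit 604), (nat_lit 730))], ((nat_lit 61), (nat_lit 100), (nat_lit 89))⟩, (nat_lit 1769523), (nat_lit 251), (nat_lit 251), (nat_lit 0), (nat_lit 216766), [(nat_lit 2032000039), (nat_lit 4851520602), (nat_lit 7968000000)], [], [(nat_lit 24363453391), (nat_lit 24928032736), (nat_lit 33857875984), (nat_lit 34460511839), (nat_lit 27660744465), (nat_lit 28146133636), (nat_lit 34619518832), (nat_lit 35020124068)], (nat_lit 1271251), (nat_lit 1271251), (nat_lit 1271251), (nat_lit 1271251), (nat_lit 292188), (nat_lit 2325625), [(nat_lit 490000), (nat_lit 1100000), (nat_lit 1785001)], [(nat_lit 4), (nat_lit 51), (nat_lit 428), (nat_lit 200), (nat_lit 13)]⟩,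
 ⟨⟨[(nat_lit 40), (nat_lit 100), (nat_lit 160)], [(nat_lit 0), (nat_lit 0), (nat_lit 4607)], [((nat_lit 0), (nat_lit 0), (nat_lit 0)), ((nat_lit 0), (nat_lit 0), (nat_lit 0)), ((nat_lit 846), (nat_lit 837), (nat_lit 1000))], ((nat_lit 88), (nat_lit 100), (nat_lit 96))⟩, (nat_lit 1648771), (nat_lit 341), (nat_lit 341), (nat_lit 0), (nat_lit 466441), [(nat_lit 2032000000), (nat_lit 6250000000), (nat_lit 11872000000)], [], [(nat_lit 27355014091), (nat_lit 29946283212), (nat_lit 33322400209), (nat_lit 36386287484), (nat_lit 31604480247), (nat_lit 33539358829), (nat_lit 38065717258), (nat_lit 40180944186)], (nat_lit 1271251), (nat_lit 1271251), (nat_lit 1271251), (nat_lit 1271251), (nat_lit 1271251), (nat_lit 1271251), [(nat_lit 490000), (nat_lit 1427501), (nat_lit 1271251)], [(nat_lit 6), (nat_lit 56), (nat_lit 428), (nat_lit 200), (nat_lit 10)]⟩,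
 ⟨⟨[(nat_lit 120), (nat_lit 160), (nat_lit 200)], [(nat_lit 0), (nat_lit 0), (nat_lit 3198)], [((nat_lit 0), (nat_lit 0), (nat_lit 0)), ((nat_lit 0), (nat_lit 0), (nat_lit 0)), ((nat_lit 572), (nat_lit 1000), (nat_lit 714))], ((nat_lit 0), (nat_lit 0), (nat_lit 0))⟩, (nat_lit 99512), (nat_lit 300), (nat_lit 1280), (nat_lit 15136804), (nat_lit 1926553), [(nat_lit 1625472000), (nat_lit 2421888000), (nat_lit 3345600000)], [], [(nat_lit 14625247550), (nat_lit 14363474890), (nat_lit 12669748028), (nat_lit 13020489950), (nat_lit 13855584350), (nat_lit 13585690846), (nat_lit 11861625676), (nat_lit 11592684178)], (nat_lit 1100000), (nat_lit 1442501), (nat_lit 292188), (nat_lit 2325625), (nat_lit 1271251), (nat_lit 1271251), [(nat_lit 1695001), (nat_lit 1271251), (nat_lit 1271251)], [(nat_lit 29), (nat_lit 66), (nat_lit 456), (nat_lit 225), (nat_lit 10)]⟩⟩)) (.trZ (nat_lit 0) (nat_lit 1) (nat_lit 3) (nat_lit 80) (nat_lit 53) (nat_lit 100) (nat_lit 210)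 (.trZ (nat_lit 0) (nat_lit 2) (nat_lit 4) (nat_lit 100) (nat_lit 54) (nat_lit 74) (nat_lit 60) (.trX (nat_lit 4) (nat_lit 0) (nat_lit 2) (nat_lit 53) (nat_lit 85) (nat_lit 100) (nat_lit 310) (.leaf ⟨(nat_lit 0), (nat_lit 838), (nat_lit 0), (nat_lit 162), (nat_lit 0), (nat_lit 4410), (nat_lit 7329), (nat_lit 1718), (nat_lit 22972), (nat_lit 0), (nat_lit 0), [], Pd.none, Pd.none, (nat_lit 0), (nat_lit 1), (nat_lit 0), (nat_lit 0), (nat_lit 5), (nat_lit 0), [⟨(nat_lit 0), (nat_lit 70), (nat_lit 51), (nat_lit 100), (nat_lit 82358270)⟩], [⟨(nat_lit 1), (nat_lit 92), (nat_lit 49), (nat_lit 100), (nat_lit 148587564)⟩], [⟨(nat_lit 1), (nat_lit 82), (nat_lit 66), (nat_lit 100), (nat_lit 242547643)⟩], [],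
 ⟨⟨[(nat_lit 40), (nat_lit 80), (nat_lit 120)], [(nat_lit 0), (nat_lit 2008), (nat_lit 3930)], [((nat_lit 0), (nat_lit 0), (nat_lit 0)), ((nat_lit 1000), (nat_lit 540), (nat_lit 733)), ((nat_lit 1000), (nat_lit 536), (nat_lit 751))], ((nat_lit 53), (nat_lit 100), (nat_lit 88))⟩, (nat_lit 1487072), (nat_lit 255), (nat_lit 255), (nat_lit 0), (nat_lit 249220), [(nat_lit 2032000005), (nat_lit 4913807114), (nat_lit 7968000000)], [], [(nat_lit 25251685345), (nat_lit 25799132050), (nat_lit 33859283147), (nat_lit 34455910338), (nat_lit 28343445284), (nat_lit 28754892198), (nat_lit 34700832557), (nat_lit 35109187078)], (nat_lit 1271251), (nat_lit 1271251), (nat_lit 1271251), (nat_lit 1271251), (nat_lit 356250), (nat_lit 2262501), [(nat_lit 490000), (nat_lit 1100000), (nat_lit 1785001)], [(nat_lit 4), (nat_lit 51), (nat_lit 428), (nat_lit 200), (nat_lit 13)]⟩,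
 ⟨⟨[(nat_lit 40), (nat_lit 100), (nat_lit 160)], [(nat_lit 0), (nat_lit 0), (nat_lit 4607)], [((nat_lit 0), (nat_lit 0), (nat_lit 0)), ((nat_lit 0), (nat_lit 0), (nat_lit 0)), ((nat_lit 846), (nat_lit 837), (nat_lit 1000))], ((nat_lit 88), (nat_lit 100), (nat_lit 96))⟩, (nat_lit 1507899), (nat_lit 366), (nat_lit 366), (nat_lit 0), (nat_lit 544089), [(nat_lit 2032000000), (nat_lit 6250000000), (nat_lit 11872000000)], [], [(nat_lit 29273570042), (nat_lit 31697787379), (nat_lit 33911008821), (nat_lit 37375867994), (nat_lit 32345303788), (nat_lit 34646908156), (nat_lit 38377934702), (nat_lit 40950108449)], (nat_lit 1271251), (nat_lit 1271251), (nat_lit 1271251), (nat_lit 1271251), (nat_lit 1271251), (nat_lit 1271251), [(nat_lit 490000), (nat_lit 1427501), (nat_lit 1271251)], [(nat_lit 6), (nat_lit 56), (nat_lit 428), (nat_lit 200), (nat_lit 10)]⟩,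
 ⟨⟨[(nat_lit 120), (nat_lit 160), (nat_lit 200)], [(nat_lit 0), (nat_lit 0), (nat_lit 3198)], [((nat_lit 0), (nat_lit 0), (nat_lit 0)), ((nat_lit 0), (nat_lit 0), (nat_lit 0)), ((nat_lit 572), (nat_lit 1000), (nat_lit 714))], ((nat_lit 0), (nat_lit 0), (nat_lit 0))⟩, (nat_lit 79024), (nat_lit 300), (nat_lit 1468), (nat_lit 12020407), (nat_lit 2345196), [(nat_lit 1290816000), (nat_lit 1923264000), (nat_lit 2656800000)], [], [(nat_lit 10941892010), (nat_lit 10717125225), (nat_lit 9435374683), (nat_lit 10395632288), (nat_lit 10262708781), (nat_lit 10038458637), (nat_lit 8715978321), (nat_lit 8489752319)], (nat_lit 1100000), (nat_lit 1442501), (nat_lit 356250), (nat_lit 2262501), (nat_lit 1271251), (nat_lit 1271251), [(nat_lit 1695001), (nat_lit 1271251), (nat_lit 1271251)], [(nat_lit 29), (nat_lit 66), (nat_lit 476), (nat_lit 225), (nat_lit 10)]⟩⟩)))))))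
noncomputable def c18_19 : Tr Lf :=
 (.trZ (nat_lit 0) (nat_lit 2) (nat_lit 4) (nat_lit 100) (nat_lit 60) (nat_lit 80) (nat_lit 80) (.trZ (nat_lit 1) (nat_lit 2) (nat_lit 5) (nat_lit 100) (nat_lit 80) (nat_lit 60) (nat_lit 40) (.spl (nat_lit 5) (nat_lit 200) (.spl (nat_lit 1) (nat_lit 360) (.leaf ⟨(nat_lit 0), (nat_lit 818), (nat_lit 0), (nat_lit 182), (nat_lit 0), (nat_lit 4312), (nat_lit 7593), (nat_lit 1915), (nat_lit 0), (nat_lit 0), (nat_lit 0), [], Pd.none, Pd.none, (nat_lit 0), (nat_lit 1), (nat_lit 0), (nat_lit 0), (nat_lit 5), (nat_lit 0), [], [⟨(nat_lit 1), (nat_lit 77), (nat_lit 53), (nat_lit 100), (nat_lit 226519806)⟩], [⟨(nat_lit 0), (nat_lit 100), (nat_lit 72), (nat_lit 81), (nat_lit 109293474)⟩], [],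
 ⟨⟨[(nat_lit 40), (nat_lit 80), (nat_lit 120)], [(nat_lit 0), (nat_lit 1598), (nat_lit 3468)], [((nat_lit 0), (nat_lit 0), (nat_lit 0)), ((nat_lit 1000), (nat_lit 625), (nat_lit 623)), ((nat_lit 1000), (nat_lit 604), (nat_lit 730))], ((nat_lit 61), (nat_lit 100), (nat_lit 89))⟩, (nat_lit 1523839), (nat_lit 273), (nat_lit 273), (nat_lit 0), (nat_lit 359691), [(nat_lit 2032000006), (nat_lit 4688000026), (nat_lit 7968000000)], [], [(nat_lit 25784881906), (nat_lit 26765332066), (nat_lit 32240246060), (nat_lit 33306132936), (nat_lit 30748748997), (nat_lit 31591934799), (nat_lit 36205472136), (nat_lit 36900162832)], (nat_lit 1271251), (nat_lit 1271251), (nat_lit 1271251), (nat_lit 1271251), (nat_lit 490000), (nat_lit 2755626), [(nat_lit 490000), (nat_lit 1100000), (nat_lit 1785001)], [(nat_lit 4), (nat_lit 51), (nat_lit 428), (nat_lit 200), (nat_lit 13)]⟩,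
 ⟨⟨[(nat_lit 40), (nat_lit 100), (nat_lit 160)], [(nat_lit 0), (nat_lit 0), (nat_lit 4607)], [((nat_lit 0), (nat_lit 0), (nat_lit 0)), ((nat_lit 0), (nat_lit 0), (nat_lit 0)), ((nat_lit 846), (nat_lit 837), (nat_lit 1000))], ((nat_lit 88), (nat_lit 100), (nat_lit 96))⟩, (nat_lit 1793683), (nat_lit 392), (nat_lit 392), (nat_lit 0), (nat_lit 413720), [(nat_lit 2032000000), (nat_lit 6250000000), (nat_lit 11872000000)], [], [(nat_lit 29906017188), (nat_lit 31991555017), (nat_lit 39002708474), (nat_lit 42217947257), (nat_lit 27141805216), (nat_lit 28815217983), (nat_lit 33792538560), (nat_lit 36441553113)], (nat_lit 1271251), (nat_lit 1271251), (nat_lit 1271251), (nat_lit 1271251), (nat_lit 230000), (nat_lit 1420001), [(nat_lit 490000), (nat_lit 1427501), (nat_lit 1271251)], [(nat_lit 6), (nat_lit 56), (nat_lit 373), (nat_lit 150), (nat_lit 9)]⟩,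
 ⟨⟨[(nat_lit 100), (nat_lit 160), (nat_lit 200)], [(nat_lit 0), (nat_lit 0), (nat_lit 4782)], [((nat_lit 0), (nat_lit 0), (nat_lit 0)), ((nat_lit 0), (nat_lit 0), (nat_lit 0)), ((nat_lit 475), (nat_lit 1000), (nat_lit 880))], ((nat_lit 0), (nat_lit 0), (nat_lit 0))⟩, (nat_lit 59373), (nat_lit 300), (nat_lit 1266), (nat_lit 13504400), (nat_lit 1771991), [(nat_lit 1137500000), (nat_lit 2160704000), (nat_lit 2984800000)], [], [(nat_lit 13255895396), (nat_lit 12916863197), (nat_lit 11590789222), (nat_lit 11249413915), (nat_lit 11882446002), (nat_lit 11546436877), (nat_lit 11111460117), (nat_lit 9866528956)], (nat_lit 1271251), (nat_lit 1271251), (nat_lit 490000), (nat_lit 2755626), (nat_lit 230000), (nat_lit 1420001), [(nat_lit 1412501), (nat_lit 1271251), (nat_lit 1271251)], [(nat_lit 25), (nat_lit 66), (nat_lit 456), (nat_lit 225), (nat_lit 10)]⟩⟩) (.trZ (nat_lit 0) (nat_lit 1) (nat_lit 3) (nat_lit 63) (nat_lit 63) (nat_lit 100) (nat_lit 250)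 (.trZ (nat_lit 1) (nat_lit 2) (nat_lit 5) (nat_lit 100) (nat_lit 60) (nat_lit 80) (nat_lit 80) (.leaf ⟨(nat_lit 0), (nat_lit 845), (nat_lit 0), (nat_lit 155), (nat_lit 0), (nat_lit 4376), (nat_lit 4825), (nat_lit 1568), (nat_lit 4910746564198), (nat_lit 0), (nat_lit 0), [], Pd.none, Pd.none, (nat_lit 0), (nat_lit 1), (nat_lit 0), (nat_lit 0), (nat_lit 5), (nat_lit 0), [⟨(nat_lit 0), (nat_lit 56), (nat_lit 56), (nat_lit 100), (nat_lit 16349708)⟩], [⟨(nat_lit 1), (nat_lit 77), (nat_lit 53), (nat_lit 100), (nat_lit 289586973)⟩], [], [],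
 ⟨⟨[(nat_lit 40), (nat_lit 80), (nat_lit 120)], [(nat_lit 0), (nat_lit 1598), (nat_lit 3468)], [((nat_lit 0), (nat_lit 0), (nat_lit 0)), ((nat_lit 1000), (nat_lit 625), (nat_lit 623)), ((nat_lit 1000), (nat_lit 604), (nat_lit 730))], ((nat_lit 61), (nat_lit 100), (nat_lit 89))⟩, (nat_lit 1440858), (nat_lit 297), (nat_lit 297), (nat_lit 0), (nat_lit 443950), [(nat_lit 2032000001), (nat_lit 4688786405), (nat_lit 7968000000)], [], [(nat_lit 27246628552), (nat_lit 28184775604), (nat_lit 32553389032), (nat_lit 33459861208), (nat_lit 31862871099), (nat_lit 32441436290), (nat_lit 36297026728), (nat_lit 36994540336)], (nat_lit 1271251), (nat_lit 1271251), (nat_lit 1271251), (nat_lit 1271251), (nat_lit 490000), (nat_lit 2755626), [(nat_lit 490000), (nat_lit 1100000), (nat_lit 1785001)], [(nat_lit 4), (nat_lit 51), (nat_lit 317), (nat_lit 100), (nat_lit 9)]⟩,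
 ⟨⟨[(nat_lit 40), (nat_lit 80), (nat_lit 120)], [(nat_lit 0), (nat_lit 1598), (nat_lit 3468)], [((nat_lit 0), (nat_lit 0), (nat_lit 0)), ((nat_lit 1000), (nat_lit 625), (nat_lit 623)), ((nat_lit 1000), (nat_lit 604), (nat_lit 730))], ((nat_lit 61), (nat_lit 100), (nat_lit 89))⟩, (nat_lit 1376033), (nat_lit 297), (nat_lit 297), (nat_lit 0), (nat_lit 443950), [(nat_lit 2032000000), (nat_lit 4688000000), (nat_lit 7968000000)], [], [(nat_lit 26302193038), (nat_lit 27247943513), (nat_lit 33153522150), (nat_lit 34388051475), (nat_lit 26768014751), (nat_lit 27571919978), (nat_lit 32619938825), (nat_lit 33674952238)], (nat_lit 1271251), (nat_lit 1271251), (nat_lit 1271251), (nat_lit 1271251), (nat_lit 490000), (nat_lit 1427501), [(nat_lit 490000), (nat_lit 1100000), (nat_lit 1785001)], [(nat_lit 4), (nat_lit 51), (nat_lit 260), (nat_lit 50), (nat_lit 7)]⟩,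
 ⟨⟨[(nat_lit 100), (nat_lit 160), (nat_lit 200)], [(nat_lit 0), (nat_lit 0), (nat_lit 4782)], [((nat_lit 0), (nat_lit 0), (nat_lit 0)), ((nat_lit 0), (nat_lit 0), (nat_lit 0)), ((nat_lit 475), (nat_lit 1000), (nat_lit 880))], ((nat_lit 0), (nat_lit 0), (nat_lit 0))⟩, (nat_lit 50565), (nat_lit 300), (nat_lit 1422), (nat_lit 11501000), (nat_lit 2171821), [(nat_lit 968750000), (nat_lit 1840160000), (nat_lit 2542000000)], [], [(nat_lit 11472385562), (nat_lit 11191610535), (nat_lit 10090661373), (nat_lit 9803468129), (nat_lit 10755887815), (nat_lit 10475882460), (nat_lit 9410812380), (nat_lit 9094404579)], (nat_lit 1271251), (nat_lit 1271251), (nat_lit 490000), (nat_lit 2755626), (nat_lit 490000), (nat_lit 1427501), [(nat_lit 1412501), (nat_lit 1271251), (nat_lit 1271251)], [(nat_lit 25), (nat_lit 66), (nat_lit 460), (nat_lit 225), (nat_lit 10)]⟩⟩)))) (.stt (nat_lit 2) (.leaf ⟨(nat_lit 0), (nat_lit 808), (nat_lit 0), (nat_lit 192), (nat_lit 0), (nat_lit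 4422), (nat_lit 5747), (nat_lit 1995), (nat_lit 1611676), (nat_lit 0), (nat_lit 0), [], Pd.none, Pd.none, (nat_lit 0), (nat_lit 1), (nat_lit 0), (nat_lit 0), (nat_lit 5), (nat_lit 0), [⟨(nat_lit 0), (nat_lit 69), (nat_lit 55), (nat_lit 100), (nat_lit 296101857)⟩], [⟨(nat_lit 1), (nat_lit 77), (nat_lit 53), (nat_lit 100), (nat_lit 235123881)⟩], [⟨(nat_lit 1), (nat_lit 65), (nat_lit 67), (nat_lit 100), (nat_lit 300576621)⟩], [],
 ⟨⟨[(nat_lit 40), (nat_lit 80), (nat_lit 120)], [(nat_lit 0), (nat_lit 1598), (nat_lit 3468)], [((nat_lit 0), (nat_lit 0), (nat_lit 0)), ((nat_lit 1000), (nat_lit 625), (nat_lit 623)), ((nat_lit 1000), (nat_lit 604), (nat_lit 730))], ((nat_lit 61), (nat_lit 100), (nat_lit 89))⟩, (nat_lit 1508038), (nat_lit 297), (nat_lit 297), (nat_lit 0), (nat_lit 444347), [(nat_lit 2032000177), (nat_lit 4688000903), (nat_lit 7968000000)], [], [(nat_lit 25666225620), (nat_lit 26693100001), (nat_lit 32353767844), (nat_lit 33538123266),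 (nat_lit 30857983927), (nat_lit 31624757307), (nat_lit 36362831591), (nat_lit 37062374167)], (nat_lit 1271251), (nat_lit 1271251), (nat_lit 1271251), (nat_lit 1271251), (nat_lit 490000), (nat_lit 2755626), [(nat_lit 490000), (nat_lit 1100000), (nat_lit 1785001)], [(nat_lit 4), (nat_lit 51), (nat_lit 428), (nat_lit 200), (nat_lit 13)]⟩,
 ⟨⟨[(nat_lit 40), (nat_lit 100), (nat_lit 160)], [(nat_lit 0), (nat_lit 0), (nat_lit 4607)], [((nat_lit 0), (nat_lit 0), (nat_lit 0)), ((nat_lit 0), (nat_lit 0), (nat_lit 0)), ((nat_lit 846), (nat_lit 837), (nat_lit 1000))], ((nat_lit 88), (nat_lit 100), (nat_lit 96))⟩, (nat_lit 0), (nat_lit 99), (nat_lit 99), (nat_lit 0), (nat_lit 0), [(nat_lit 2032000000), (nat_lit 6250000000), (nat_lit 11872000000)], [], [(nat_lit 23487779624), (nat_lit 28105842992), (nat_lit 33106522120), (nat_lit 35896195437), (nat_lit 32517199643), (nat_lit 35400155653), (nat_lit 37995995380), (nat_lit 39749978475)], (nat_lit 0), (nat_lit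 0), (nat_lit 0), (nat_lit 0), (nat_lit 0), (nat_lit 0), [], [(nat_lit 6), (nat_lit 56), (nat_lit 428), (nat_lit 200), (nat_lit 10)]⟩,
 ⟨⟨[(nat_lit 100), (nat_lit 160), (nat_lit 200)], [(nat_lit 0), (nat_lit 0), (nat_lit 4782)], [((nat_lit 0), (nat_lit 0), (nat_lit 0)), ((nat_lit 0), (nat_lit 0), (nat_lit 0)), ((nat_lit 475), (nat_lit 1000), (nat_lit 880))], ((nat_lit 0), (nat_lit 0), (nat_lit 0))⟩, (nat_lit 62635), (nat_lit 300), (nat_lit 1347), (nat_lit 14246400), (nat_lit 2176167), [(nat_lit 1200000000), (nat_lit 2279424000), (nat_lit 3148800000)], [], [(nat_lit 12719692062), (nat_lit 12371181567), (nat_lit 10990621996), (nat_lit 10628129017), (nat_lit 11859511111), (nat_lit 11493488022), (nat_lit 10059787475), (nat_lit 9703613548)], (nat_lit 1271251), (nat_lit 1271251), (nat_lit 490000), (nat_lit 2755626), (nat_lit 1271251), (nat_lit 1271251), [(nat_lit 1412501), (nat_lit 1271251), (nat_lit 1271251)], [(nat_lit 25), (nat_lit 66), (nat_lit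 538), (nat_lit 300), (nat_lit 11)]⟩⟩) (.leaf ⟨(nat_lit 0), (nat_lit 618), (nat_lit 0), (nat_lit 382), (nat_lit 0), (nat_lit 3728), (nat_lit 6201), (nat_lit 3780), (nat_lit 496034110496), (nat_lit 0), (nat_lit 0), [], Pd.none, Pd.none, (nat_lit 0), (nat_lit 1), (nat_lit 0), (nat_lit 0), (nat_lit 5), (nat_lit 0), [⟨(nat_lit 0), (nat_lit 56), (nat_lit 56), (nat_lit 100), (nat_lit 379257845)⟩], [], [⟨(nat_lit 1), (nat_lit 65), (nat_lit 67), (nat_lit 100), (nat_lit 113436441)⟩], [],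
 ⟨⟨[(nat_lit 40), (nat_lit 80), (nat_lit 120)], [(nat_lit 0), (nat_lit 1598), (nat_lit 3468)], [((nat_lit 0), (nat_lit 0), (nat_lit 0)), ((nat_lit 1000), (nat_lit 625), (nat_lit 623)), ((nat_lit 1000), (nat_lit 604), (nat_lit 730))], ((nat_lit 61), (nat_lit 100), (nat_lit 89))⟩, (nat_lit 1830150), (nat_lit 216), (nat_lit 216), (nat_lit 0), (nat_lit 213129), [(nat_lit 2032000020), (nat_lit 4688000083), (nat_lit 7968000000)], [], [(nat_lit 24334006451), (nat_lit 25413010463), (nat_lit 31298372528), (nat_lit 32075169784), (nat_lit 30485726285), (nat_lit 31227353573), (nat_lit 35456822416), (nat_lit 36038968108)], (nat_lit 1271251), (nat_lit 1271251), (nat_lit 1271251), (nat_lit 1271251), (nat_lit 490000), (nat_lit 2755626), [(nat_lit 490000), (nat_lit 1100000), (nat_lit 1785001)], [(nat_lit 4), (nat_lit 51), (nat_lit 428), (nat_lit 200), (nat_lit 13)]⟩,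
 ⟨⟨[(nat_lit 40), (nat_lit 100), (nat_lit 160)], [(nat_lit 0), (nat_lit 0), (nat_lit 4607)], [((nat_lit 0), (nat_lit 0), (nat_lit 0)), ((nat_lit 0), (nat_lit 0), (nat_lit 0)), ((nat_lit 846), (nat_lit 837), (nat_lit 1000))], ((nat_lit 88), (nat_lit 100), (nat_lit 96))⟩, (nat_lit 1543302), (nat_lit 342), (nat_lit 342), (nat_lit 0), (nat_lit 464466), [(nat_lit 2032000000), (nat_lit 6250000000), (nat_lit 11872000000)], [], [(nat_lit 29410008254), (nat_lit 32322269597), (nat_lit 35071478790), (nat_lit 36940168308), (nat_lit 34696958385), (nat_lit 36529390255), (nat_lit 38493563384), (nat_lit 40437962584)], (nat_lit 1271251), (nat_lit 1271251), (nat_lit 1271251), (nat_lit 1271251), (nat_lit 1271251), (nat_lit 1271251), [(nat_lit 490000), (nat_lit 1427501), (nat_lit 1271251)], [(nat_lit 6), (nat_lit 56), (nat_lit 428), (nat_lit 200), (nat_lit 10)]⟩,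
 ⟨⟨[(nat_lit 100), (nat_lit 160), (nat_lit 200)], [(nat_lit 0), (nat_lit 0), (nat_lit 4782)], [((nat_lit 0), (nat_lit 0), (nat_lit 0)), ((nat_lit 0), (nat_lit 0), (nat_lit 0)), ((nat_lit 475), (nat_lit 1000), (nat_lit 880))], ((nat_lit 0), (nat_lit 0), (nat_lit 0))⟩, (nat_lit 124617), (nat_lit 300), (nat_lit 960), (nat_lit 28344408), (nat_lit 1345034), [(nat_lit 2387500000), (nat_lit 4535104000), (nat_lit 6264800000)], [], [(nat_lit 25064439872), (nat_lit 24551824629), (nat_lit 22367018365), (nat_lit 21765465136), (nat_lit 24132420622), (nat_lit 23528056825), (nat_lit 21054343773), (nat_lit 20392099416)], (nat_lit 1271251), (nat_lit 1271251), (nat_lit 490000), (nat_lit 2755626), (nat_lit 1271251), (nat_lit 1271251), [(nat_lit 1412501), (nat_lit 1271251), (nat_lit 1271251)], [(nat_lit 25), (nat_lit 66), (nat_lit 538), (nat_lit 300), (nat_lit 11)]⟩⟩)))))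
noncomputable def c18_20 : Tr Lf :=
 (.spl (nat_lit 6) (nat_lit 144) (.spl (nat_lit 4) (nat_lit 120) (.leaf ⟨(nat_lit 0), (nat_lit 920), (nat_lit 0), (nat_lit 80), (nat_lit 250), (nat_lit 4582), (nat_lit 7860), (nat_lit 962), (nat_lit 0), (nat_lit 0), (nat_lit 0), [], Pd.none, Pd.none, (nat_lit 0), (nat_lit 1), (nat_lit 0), (nat_lit 0), (nat_lit 3), (nat_lit 0), [⟨(nat_lit 0), (nat_lit 77), (nat_lit 53), (nat_lit 100), (nat_lit 346424531)⟩], [], [], [],
 ⟨⟨[(nat_lit 40), (nat_lit 100), (nat_lit 140)], [(nat_lit 0), (nat_lit 2396), (nat_lit 4896)], [((nat_lit 0), (nat_lit 0), (nat_lit 0)), ((nat_lit 1000), (nat_lit 625), (nat_lit 623)), ((nat_lit 1000), (nat_lit 625), (nat_lit 975))], ((nat_lit 63), (nat_lit 99), (nat_lit 100))⟩, (nat_lit 1737210), (nat_lit 300), (nat_lit 300), (nat_lit 0), (nat_lit 215882), [(nat_lit 2032000004), (nat_lit 6250000004), (nat_lit 9842000000)], [], [(nat_lit 26241532390), (nat_lit 27668820256), (nat_lit 30227498644),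 (nat_lit 31534951378), (nat_lit 24871484254), (nat_lit 25794842280), (nat_lit 27858854500), (nat_lit 28874110648)], (nat_lit 1271251), (nat_lit 1271251), (nat_lit 1271251), (nat_lit 1271251), (nat_lit 111251), (nat_lit 780000), [(nat_lit 490000), (nat_lit 1427501), (nat_lit 1271251)], [(nat_lit 5), (nat_lit 55), (nat_lit 345), (nat_lit 125), (nat_lit 9)]⟩,
 ⟨⟨[(nat_lit 40), (nat_lit 100), (nat_lit 160)], [(nat_lit 0), (nat_lit 0), (nat_lit 4607)], [((nat_lit 0), (nat_lit 0), (nat_lit 0)), ((nat_lit 0), (nat_lit 0), (nat_lit 0)), ((nat_lit 846), (nat_lit 837), (nat_lit 1000))], ((nat_lit 84), (nat_lit 85), (nat_lit 100))⟩, (nat_lit 1544061), (nat_lit 386), (nat_lit 386), (nat_lit 0), (nat_lit 319957), [(nat_lit 2032000000), (nat_lit 6250000000), (nat_lit 11872000000)], [], [(nat_lit 34166600226), (nat_lit 35216997346), (nat_lit 36503475533), (nat_lit 37831727173), (nat_lit 29408584773), (nat_lit 30458486373), (nat_lit 31744964560), (nat_lit 33073216200)],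 (nat_lit 1271251), (nat_lit 1271251), (nat_lit 1271251), (nat_lit 1271251), (nat_lit 0), (nat_lit 2260001), [(nat_lit 490000), (nat_lit 1427501), (nat_lit 1271251)], [(nat_lit 6), (nat_lit 56), (nat_lit 401), (nat_lit 175), (nat_lit 10)]⟩,
 ⟨⟨[(nat_lit 140), (nat_lit 180), (nat_lit 200)], [(nat_lit 0), (nat_lit 0), (nat_lit 2835)], [((nat_lit 0), (nat_lit 0), (nat_lit 0)), ((nat_lit 0), (nat_lit 0), (nat_lit 0)), ((nat_lit 363), (nat_lit 1000), (nat_lit 798))], ((nat_lit 0), (nat_lit 0), (nat_lit 0))⟩, (nat_lit 22011), (nat_lit 300), (nat_lit 1316), (nat_lit 6248000), (nat_lit 1618767), [(nat_lit 787360000), (nat_lit 1124640000), (nat_lit 1312000000)], [], [(nat_lit 7220933270), (nat_lit 6942099247), (nat_lit 5987341316), (nat_lit 5904955338), (nat_lit 5322137848), (nat_lit 5240778013), (nat_lit 4714678840), (nat_lit 4887053006)], (nat_lit 780000), (nat_lit 936250), (nat_lit 111251), (nat_lit 780000), (nat_lit 0), (nat_lit 2260001), [(nat_lit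 1977501), (nat_lit 1271251), (nat_lit 1271251)], [(nat_lit 32), (nat_lit 67), (nat_lit 402), (nat_lit 150), (nat_lit 9)]⟩⟩) (.spl (nat_lit 4) (nat_lit 200) (.leaf ⟨(nat_lit 0), (nat_lit 915), (nat_lit 0), (nat_lit 85), (nat_lit 0), (nat_lit 8951), (nat_lit 7721), (nat_lit 897), (nat_lit 0), (nat_lit 0), (nat_lit 0), [], Pd.none, Pd.none, (nat_lit 0), (nat_lit 1), (nat_lit 0), (nat_lit 0), (nat_lit 3), (nat_lit 0), [⟨(nat_lit 0), (nat_lit 77), (nat_lit 53), (nat_lit 100), (nat_lit 432946415)⟩], [], [⟨(nat_lit 1), (nat_lit 93), (nat_lit 81), (nat_lit 100), (nat_lit 30862164)⟩], [],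
 ⟨⟨[(nat_lit 40), (nat_lit 100), (nat_lit 140)], [(nat_lit 0), (nat_lit 2396), (nat_lit 4896)], [((nat_lit 0), (nat_lit 0), (nat_lit 0)), ((nat_lit 1000), (nat_lit 625), (nat_lit 623)), ((nat_lit 1000), (nat_lit 625), (nat_lit 975))], ((nat_lit 63), (nat_lit 99), (nat_lit 100))⟩, (nat_lit 504780), (nat_lit 214), (nat_lit 214), (nat_lit 0), (nat_lit 251460), [(nat_lit 3169129561), (nat_lit 7117309621), (nat_lit 9842000000)], [], [(nat_lit 28805004283), (nat_lit 30746475147), (nat_lit 33170330250), (nat_lit 34613809564), (nat_lit 28591845516), (nat_lit 30283649745), (nat_lit 32205247354), (nat_lit 33464702860)], (nat_lit 1271251), (nat_lit 1271251), (nat_lit 1271251), (nat_lit 1271251), (nat_lit 780000), (nat_lit 1435001), [(nat_lit 490000), (nat_lit 1427501), (nat_lit 1271251)], [(nat_lit 5), (nat_lit 55), (nat_lit 373), (nat_lit 150), (nat_lit 10)]⟩,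
 ⟨⟨[(nat_lit 40), (nat_lit 100), (nat_lit 160)], [(nat_lit 0), (nat_lit 0), (nat_lit 4607)], [((nat_lit 0), (nat_lit 0), (nat_lit 0)), ((nat_lit 0), (nat_lit 0), (nat_lit 0)), ((nat_lit 846), (nat_lit 837), (nat_lit 1000))], ((nat_lit 84), (nat_lit 85), (nat_lit 100))⟩, (nat_lit 1512034), (nat_lit 386), (nat_lit 386), (nat_lit 0), (nat_lit 319957), [(nat_lit 2032000000), (nat_lit 6250000000), (nat_lit 11872000000)], [], [(nat_lit 34534644482), (nat_lit 35575621989), (nat_lit 36785139724), (nat_lit 37853755782), (nat_lit 29959892294), (nat_lit 30669562627), (nat_lit 31879080362), (nat_lit 32947696420)], (nat_lit 1271251), (nat_lit 1271251), (nat_lit 1271251), (nat_lit 1271251), (nat_lit 0), (nat_lit 2260001), [(nat_lit 490000), (nat_lit 1427501), (nat_lit 1271251)], [(nat_lit 6), (nat_lit 56), (nat_lit 401), (nat_lit 175), (nat_lit 10)]⟩,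
 ⟨⟨[(nat_lit 140), (nat_lit 180), (nat_lit 200)], [(nat_lit 0), (nat_lit 0), (nat_lit 2835)], [((nat_lit 0), (nat_lit 0), (nat_lit 0)), ((nat_lit 0), (nat_lit 0), (nat_lit 0)), ((nat_lit 363), (nat_lit 1000), (nat_lit 798))], ((nat_lit 0), (nat_lit 0), (nat_lit 0))⟩, (nat_lit 20414), (nat_lit 300), (nat_lit 1746), (nat_lit 6680632), (nat_lit 2714800), [(nat_lit 836570000), (nat_lit 1194930000), (nat_lit 1394000000)], [], [(nat_lit 7117715031), (nat_lit 7049928494), (nat_lit 6857693583), (nat_lit 6790498566), (nat_lit 6054086829), (nat_lit 5988721522), (nat_lit 5806823880), (nat_lit 6019545811)], (nat_lit 780000), (nat_lit 936250), (nat_lit 780000), (nat_lit 1435001), (nat_lit 0), (nat_lit 2260001), [(nat_lit 1977501), (nat_lit 1271251), (nat_lit 1271251)], [(nat_lit 32), (nat_lit 67), (nat_lit 519), (nat_lit 175), (nat_lit 11)]⟩⟩) (.leaf ⟨(nat_lit 0), (nat_lit 909), (nat_lit 0), (nat_lit 91), (nat_lit 0), (nat_lit 10138), (nat_lit 7860), (nat_lit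 1016), (nat_lit 0), (nat_lit 0), (nat_lit 0), [], Pd.none, Pd.none, (nat_lit 0), (nat_lit 1), (nat_lit 0), (nat_lit 0), (nat_lit 5), (nat_lit 0), [⟨(nat_lit 0), (nat_lit 77), (nat_lit 53), (nat_lit 100), (nat_lit 392829526)⟩], [⟨(nat_lit 1), (nat_lit 100), (nat_lit 54), (nat_lit 96), (nat_lit 422981725)⟩], [⟨(nat_lit 1), (nat_lit 93), (nat_lit 81), (nat_lit 100), (nat_lit 14840886)⟩], [],
 ⟨⟨[(nat_lit 40), (nat_lit 100), (nat_lit 140)], [(nat_lit 0), (nat_lit 2396), (nat_lit 4896)], [((nat_lit 0), (nat_lit 0), (nat_lit 0)), ((nat_lit 1000), (nat_lit 625), (nat_lit 623)), ((nat_lit 1000), (nat_lit 625), (nat_lit 975))], ((nat_lit 63), (nat_lit 99), (nat_lit 100))⟩, (nat_lit 134603), (nat_lit 191), (nat_lit 191), (nat_lit 0), (nat_lit 251460), [(nat_lit 3330478414), (nat_lit 8619079526), (nat_lit 9842000000)], [], [(nat_lit 29775027741), (nat_lit 31612021953), (nat_lit 33485779604), (nat_lit 34841054742), (nat_lit 31493478752), (nat_lit 33054951466),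 (nat_lit 34440649262), (nat_lit 36229128714)], (nat_lit 1271251), (nat_lit 1271251), (nat_lit 1271251), (nat_lit 1271251), (nat_lit 1271251), (nat_lit 1271251), [(nat_lit 490000), (nat_lit 1427501), (nat_lit 1271251)], [(nat_lit 5), (nat_lit 55), (nat_lit 373), (nat_lit 150), (nat_lit 9)]⟩,
 ⟨⟨[(nat_lit 40), (nat_lit 100), (nat_lit 160)], [(nat_lit 0), (nat_lit 0), (nat_lit 4607)], [((nat_lit 0), (nat_lit 0), (nat_lit 0)), ((nat_lit 0), (nat_lit 0), (nat_lit 0)), ((nat_lit 846), (nat_lit 837), (nat_lit 1000))], ((nat_lit 84), (nat_lit 85), (nat_lit 100))⟩, (nat_lit 1544061), (nat_lit 386), (nat_lit 386), (nat_lit 0), (nat_lit 319957), [(nat_lit 2032000000), (nat_lit 6250000000), (nat_lit 11872000000)], [], [(nat_lit 34166600226), (nat_lit 35216997346), (nat_lit 36503475533), (nat_lit 37831727173), (nat_lit 29408584773), (nat_lit 30458486373), (nat_lit 31744964560), (nat_lit 33073216200)], (nat_lit 1271251), (nat_lit 1271251), (nat_lit 1271251),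 (nat_lit 1271251), (nat_lit 0), (nat_lit 2260001), [(nat_lit 490000), (nat_lit 1427501), (nat_lit 1271251)], [(nat_lit 6), (nat_lit 56), (nat_lit 401), (nat_lit 175), (nat_lit 10)]⟩,
 ⟨⟨[(nat_lit 140), (nat_lit 180), (nat_lit 200)], [(nat_lit 0), (nat_lit 0), (nat_lit 2835)], [((nat_lit 0), (nat_lit 0), (nat_lit 0)), ((nat_lit 0), (nat_lit 0), (nat_lit 0)), ((nat_lit 363), (nat_lit 1000), (nat_lit 798))], ((nat_lit 0), (nat_lit 0), (nat_lit 0))⟩, (nat_lit 25037), (nat_lit 300), (nat_lit 1706), (nat_lit 7107101), (nat_lit 2714800), [(nat_lit 895622000), (nat_lit 1279278000), (nat_lit 1492400000)], [], [(nat_lit 6745996956), (nat_lit 6660859259), (nat_lit 6552371590), (nat_lit 6466880203), (nat_lit 5580443456), (nat_lit 5818088224), (nat_lit 5225796154), (nat_lit 5149740957)], (nat_lit 780000), (nat_lit 936250), (nat_lit 1271251), (nat_lit 1271251), (nat_lit 0), (nat_lit 2260001), [(nat_lit 1977501), (nat_lit 1271251), (nat_lit 1271251)], [(nat_lit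 32), (nat_lit 67), (nat_lit 518), (nat_lit 200), (nat_lit 11)]⟩⟩))) (.spl (nat_lit 5) (nat_lit 160) (.leaf ⟨(nat_lit 0), (nat_lit 1000), (nat_lit 0), (nat_lit 0), (nat_lit 18738), (nat_lit 9783), (nat_lit 6892), (nat_lit 0), (nat_lit 0), (nat_lit 0), (nat_lit 0), [], Pd.none, Pd.none, (nat_lit 0), (nat_lit 1), (nat_lit 0), (nat_lit 0), (nat_lit 3), (nat_lit 0), [⟨(nat_lit 0), (nat_lit 75), (nat_lit 46), (nat_lit 100), (nat_lit 506345713)⟩], [⟨(nat_lit 1), (nat_lit 100), (nat_lit 54), (nat_lit 96), (nat_lit 44887914)⟩], [⟨(nat_lit 0), (nat_lit 100), (nat_lit 81), (nat_lit 37), (nat_lit 7694921)⟩], [],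
 ⟨⟨[(nat_lit 40), (nat_lit 100), (nat_lit 140)], [(nat_lit 0), (nat_lit 2396), (nat_lit 4896)], [((nat_lit 0), (nat_lit 0), (nat_lit 0)), ((nat_lit 1000), (nat_lit 625), (nat_lit 623)), ((nat_lit 1000), (nat_lit 625), (nat_lit 975))], ((nat_lit 63), (nat_lit 99), (nat_lit 100))⟩, (nat_lit 0), (nat_lit 227), (nat_lit 227), (nat_lit 0), (nat_lit 99726), [(nat_lit 3439861351), (nat_lit 7086765412), (nat_lit 9842000000)], [], [(nat_lit 37370777403), (nat_lit 39657045515), (nat_lit 42296978476), (nat_lit 43977504652), (nat_lit 32338245151), (nat_lit 33864723607), (nat_lit 35106198975), (nat_lit 36231933404)], (nat_lit 1271251), (nat_lit 1271251), (nat_lit 1271251), (nat_lit 1271251), (nat_lit 111251), (nat_lit 1923751), [(nat_lit 490000), (nat_lit 1427501), (nat_lit 1271251)], [(nat_lit 5), (nat_lit 55), (nat_lit 373), (nat_lit 150), (nat_lit 10)]⟩,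
 ⟨⟨[(nat_lit 40), (nat_lit 100), (nat_lit 160)], [(nat_lit 0), (nat_lit 0), (nat_lit 4607)], [((nat_lit 0), (nat_lit 0), (nat_lit 0)), ((nat_lit 0), (nat_lit 0), (nat_lit 0)), ((nat_lit 846), (nat_lit 837), (nat_lit 1000))], ((nat_lit 84), (nat_lit 85), (nat_lit 100))⟩, (nat_lit 1967507), (nat_lit 325), (nat_lit 325), (nat_lit 0), (nat_lit 127361), [(nat_lit 2032000000), (nat_lit 6250000000), (nat_lit 11872000000)], [], [(nat_lit 30772977118), (nat_lit 31757775782), (nat_lit 34018658227), (nat_lit 35006788091), (nat_lit 25760999811), (nat_lit 26858603815), (nat_lit 29018220864), (nat_lit 30118258524)], (nat_lit 1271251), (nat_lit 1271251), (nat_lit 1271251), (nat_lit 1271251), (nat_lit 0), (nat_lit 1100000), [(nat_lit 490000), (nat_lit 1427501), (nat_lit 1271251)], [(nat_lit 6), (nat_lit 56), (nat_lit 345), (nat_lit 125), (nat_lit 8)]⟩,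
 Rw.none⟩) (.spl (nat_lit 0) (nat_lit 370) (.spl (nat_lit 6) (nat_lit 160) (.leaf ⟨(nat_lit 0), (nat_lit 832), (nat_lit 0), (nat_lit 168), (nat_lit 19810), (nat_lit 6322), (nat_lit 7596), (nat_lit 1081), (nat_lit 0), (nat_lit 0), (nat_lit 0), [], Pd.none, Pd.none, (nat_lit 0), (nat_lit 1), (nat_lit 0), (nat_lit 0), (nat_lit 4), (nat_lit 0), [⟨(nat_lit 0), (nat_lit 73), (nat_lit 54), (nat_lit 100), (nat_lit 179427765)⟩], [], [⟨(nat_lit 1), (nat_lit 93), (nat_lit 81), (nat_lit 100), (nat_lit 288963233)⟩], [],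
 ⟨⟨[(nat_lit 40), (nat_lit 100), (nat_lit 140)], [(nat_lit 0), (nat_lit 2396), (nat_lit 4896)], [((nat_lit 0), (nat_lit 0), (nat_lit 0)), ((nat_lit 1000), (nat_lit 625), (nat_lit 623)), ((nat_lit 1000), (nat_lit 625), (nat_lit 975))], ((nat_lit 63), (nat_lit 99), (nat_lit 100))⟩, (nat_lit 755143), (nat_lit 207), (nat_lit 207), (nat_lit 0), (nat_lit 41099), [(nat_lit 2437290976), (nat_lit 6250000198), (nat_lit 9842000000)], [], [(nat_lit 32108045068), (nat_lit 32784815653), (nat_lit 36228071956), (nat_lit 36876384523), (nat_lit 30574571284), (nat_lit 31044652340), (nat_lit 33208774322), (nat_lit 33662500848)], (nat_lit 1271251), (nat_lit 1271251), (nat_lit 1271251), (nat_lit 1271251), (nat_lit 111251), (nat_lit 1923751), [(nat_lit 490000), (nat_lit 1427501), (nat_lit 1271251)], [(nat_lit 5), (nat_lit 55), (nat_lit 373), (nat_lit 150), (nat_lit 10)]⟩,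
 ⟨⟨[(nat_lit 40), (nat_lit 100), (nat_lit 160)], [(nat_lit 0), (nat_lit 0), (nat_lit 4607)], [((nat_lit 0), (nat_lit 0), (nat_lit 0)), ((nat_lit 0), (nat_lit 0), (nat_lit 0)), ((nat_lit 846), (nat_lit 837), (nat_lit 1000))], ((nat_lit 84), (nat_lit 85), (nat_lit 100))⟩, (nat_lit 0), (nat_lit 80), (nat_lit 80), (nat_lit 0), (nat_lit 49533), [(nat_lit 2032000000), (nat_lit 6250000000), (nat_lit 11872000000)], [], [(nat_lit 20529916000), (nat_lit 22501849968), (nat_lit 26528769600), (nat_lit 28008063212), (nat_lit 27195147464), (nat_lit 28568504138), (nat_lit 31531812016), (nat_lit 32834818920)], (nat_lit 1271251), (nat_lit 1271251), (nat_lit 1271251), (nat_lit 1271251), (nat_lit 1100000), (nat_lit 2470001), [(nat_lit 490000), (nat_lit 1427501), (nat_lit 1271251)], [(nat_lit 6), (nat_lit 56), (nat_lit 401), (nat_lit 175), (nat_lit 9)]⟩,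
 ⟨⟨[(nat_lit 140), (nat_lit 180), (nat_lit 200)], [(nat_lit 0), (nat_lit 0), (nat_lit 2835)], [((nat_lit 0), (nat_lit 0), (nat_lit 0)), ((nat_lit 0), (nat_lit 0), (nat_lit 0)), ((nat_lit 363), (nat_lit 1000), (nat_lit 798))], ((nat_lit 0), (nat_lit 0), (nat_lit 0))⟩, (nat_lit 46222), (nat_lit 300), (nat_lit 665), (nat_lit 13120804), (nat_lit 423112), [(nat_lit 1653456000), (nat_lit 2361744000), (nat_lit 2755200000)], [], [(nat_lit 13193413516), (nat_lit 13129236981), (nat_lit 12329617390), (nat_lit 12265569141), (nat_lit 13111497871), (nat_lit 13041271432), (nat_lit 12180555549), (nat_lit 12488491950)], (nat_lit 780000), (nat_lit 936250), (nat_lit 111251), (nat_lit 1923751), (nat_lit 1100000), (nat_lit 2470001), [(nat_lit 1977501), (nat_lit 1271251), (nat_lit 1271251)], [(nat_lit 32), (nat_lit 67), (nat_lit 428), (nat_lit 200), (nat_lit 9)]⟩⟩) (.dle (nat_lit 0))) (.trZ (nat_lit 0) (nat_lit 1) (nat_lit 3) (nat_lit 80) (nat_lit 53) (nat_lit 100)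 (nat_lit 210) (.trZ (nat_lit 0) (nat_lit 2) (nat_lit 4) (nat_lit 100) (nat_lit 57) (nat_lit 62) (nat_lit 30) (.trX (nat_lit 4) (nat_lit 0) (nat_lit 2) (nat_lit 54) (nat_lit 100) (nat_lit 98) (nat_lit 250) (.leaf ⟨(nat_lit 0), (nat_lit 819), (nat_lit 0), (nat_lit 181), (nat_lit 11819), (nat_lit 4510), (nat_lit 12514), (nat_lit 1458), (nat_lit 0), (nat_lit 0), (nat_lit 0), [], Pd.none, Pd.none, (nat_lit 0), (nat_lit 1), (nat_lit 0), (nat_lit 0), (nat_lit 4), (nat_lit 0), [⟨(nat_lit 0), (nat_lit 78), (nat_lit 49), (nat_lit 100), (nat_lit 486516476)⟩], [], [⟨(nat_lit 1), (nat_lit 93), (nat_lit 81), (nat_lit 100), (nat_lit 138660959)⟩], [],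
 ⟨⟨[(nat_lit 40), (nat_lit 100), (nat_lit 140)], [(nat_lit 0), (nat_lit 2998), (nat_lit 5352)], [((nat_lit 0), (nat_lit 0), (nat_lit 0)), ((nat_lit 1000), (nat_lit 532), (nat_lit 779)), ((nat_lit 1000), (nat_lit 531), (nat_lit 919))], ((nat_lit 54), (nat_lit 100), (nat_lit 98))⟩, (nat_lit 1590532), (nat_lit 220), (nat_lit 220), (nat_lit 0), (nat_lit 98686), [(nat_lit 2068176364), (nat_lit 6470505702), (nat_lit 9842000000)], [], [(nat_lit 26775371141), (nat_lit 27465903910), (nat_lit 30361723701), (nat_lit 30906289486), (nat_lit 26632730576), (nat_lit 27148448467), (nat_lit 29277121096), (nat_lit 29826591620)], (nat_lit 1271251), (nat_lit 1271251), (nat_lit 1271251), (nat_lit 1271251), (nat_lit 169688), (nat_lit 1785313), [(nat_lit 490000), (nat_lit 1427501), (nat_lit 1271251)], [(nat_lit 5), (nat_lit 55), (nat_lit 373), (nat_lit 150), (nat_lit 10)]⟩,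
 ⟨⟨[(nat_lit 40), (nat_lit 100), (nat_lit 160)], [(nat_lit 0), (nat_lit 0), (nat_lit 4607)], [((nat_lit 0), (nat_lit 0), (nat_lit 0)), ((nat_lit 0), (nat_lit 0), (nat_lit 0)), ((nat_lit 846), (nat_lit 837), (nat_lit 1000))], ((nat_lit 84), (nat_lit 85), (nat_lit 100))⟩, (nat_lit 0), (nat_lit 171), (nat_lit 171), (nat_lit 0), (nat_lit 127361), [(nat_lit 2032000000), (nat_lit 6250000000), (nat_lit 11872000000)], [], [(nat_lit 29687902245), (nat_lit 31692415296), (nat_lit 34194174296), (nat_lit 35682177130), (nat_lit 34050393641), (nat_lit 35385623855), (nat_lit 36089046000), (nat_lit 37275871280)], (nat_lit 1271251), (nat_lit 1271251), (nat_lit 1271251), (nat_lit 1271251), (nat_lit 1100000), (nat_lit 2470001), [(nat_lit 490000), (nat_lit 1427501), (nat_lit 1271251)], [(nat_lit 6), (nat_lit 56), (nat_lit 401), (nat_lit 175), (nat_lit 9)]⟩,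
 ⟨⟨[(nat_lit 140), (nat_lit 180), (nat_lit 200)], [(nat_lit 0), (nat_lit 0), (nat_lit 2835)], [((nat_lit 0), (nat_lit 0), (nat_lit 0)), ((nat_lit 0), (nat_lit 0), (nat_lit 0)), ((nat_lit 363), (nat_lit 1000), (nat_lit 798))], ((nat_lit 0), (nat_lit 0), (nat_lit 0))⟩, (nat_lit 49799), (nat_lit 300), (nat_lit 949), (nat_lit 14136100), (nat_lit 1066117), [(nat_lit 1781402000), (nat_lit 2544498000), (nat_lit 2968400000)], [], [(nat_lit 15428331308), (nat_lit 15321548891), (nat_lit 14174675018), (nat_lit 14070587417), (nat_lit 14961706498), (nat_lit 14852103107), (nat_lit 13685816198), (nat_lit 14068689788)], (nat_lit 780000), (nat_lit 936250), (nat_lit 169688), (nat_lit 1785313), (nat_lit 1100000), (nat_lit 2470001), [(nat_lit 1977501), (nat_lit 1271251), (nat_lit 1271251)], [(nat_lit 32), (nat_lit 67), (nat_lit 428), (nat_lit 200), (nat_lit 9)]⟩⟩)))))))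
noncomputable def c18_21 : Tr Lf :=
 (.spl (nat_lit 4) (nat_lit 160) (.spl (nat_lit 4) (nat_lit 80) (.trX (nat_lit 5) (nat_lit 3) (nat_lit 4) (nat_lit 83) (nat_lit 100) (nat_lit 83) (nat_lit 260) (.leaf ⟨(nat_lit 0), (nat_lit 1000), (nat_lit 0), (nat_lit 0), (nat_lit 5932), (nat_lit 6928), (nat_lit 7407), (nat_lit 0), (nat_lit 0), (nat_lit 0), (nat_lit 0), [], Pd.none, Pd.none, (nat_lit 0), (nat_lit 1), (nat_lit 0), (nat_lit 0), (nat_lit 3), (nat_lit 0), [], [⟨(nat_lit 0), (nat_lit 100), (nat_lit 46), (nat_lit 76), (nat_lit 222474256)⟩], [], [⟨(nat_lit 1), (nat_lit 100), (nat_lit 61), (nat_lit 68), (nat_lit 46664532)⟩],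
 ⟨⟨[(nat_lit 40), (nat_lit 100), (nat_lit 140)], [(nat_lit 0), (nat_lit 2396), (nat_lit 4896)], [((nat_lit 0), (nat_lit 0), (nat_lit 0)), ((nat_lit 1000), (nat_lit 625), (nat_lit 623)), ((nat_lit 1000), (nat_lit 625), (nat_lit 975))], ((nat_lit 63), (nat_lit 99), (nat_lit 100))⟩, (nat_lit 557598), (nat_lit 300), (nat_lit 309), (nat_lit 50800002), (nat_lit 219640), [(nat_lit 2032000001), (nat_lit 6379073482), (nat_lit 9842000000)], [], [(nat_lit 39901035815), (nat_lit 40775007785), (nat_lit 43006451603), (nat_lit 43685961492), (nat_lit 36827437794), (nat_lit 37665693447), (nat_lit 39811129410), (nat_lit 40464719565)], (nat_lit 1271251), (nat_lit 1271251), (nat_lit 1271251), (nat_lit 1271251), (nat_lit 111251), (nat_lit 490000), [(nat_lit 490000), (nat_lit 1427501), (nat_lit 1271251)], [(nat_lit 5), (nat_lit 55), (nat_lit 226), (nat_lit 20), (nat_lit 5)]⟩,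
 ⟨⟨[(nat_lit 40), (nat_lit 100), (nat_lit 160)], [(nat_lit 0), (nat_lit 0), (nat_lit 4607)], [((nat_lit 0), (nat_lit 0), (nat_lit 0)), ((nat_lit 0), (nat_lit 0), (nat_lit 0)), ((nat_lit 846), (nat_lit 837), (nat_lit 1000))], ((nat_lit 84), (nat_lit 85), (nat_lit 100))⟩, (nat_lit 1412348), (nat_lit 386), (nat_lit 386), (nat_lit 0), (nat_lit 324674), [(nat_lit 2032000000), (nat_lit 6250000000), (nat_lit 11872000000)], [], [(nat_lit 37884196528), (nat_lit 38651155463), (nat_lit 41996710552), (nat_lit 43608745862), (nat_lit 31604059821), (nat_lit 32153470097), (nat_lit 34615266830), (nat_lit 35729649729)], (nat_lit 1271251), (nat_lit 1271251), (nat_lit 1271251), (nat_lit 1271251), (nat_lit 0), (nat_lit 1836250), [(nat_lit 490000), (nat_lit 1427501), (nat_lit 1271251)], [(nat_lit 6), (nat_lit 56), (nat_lit 289), (nat_lit 75), (nat_lit 7)]⟩,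
 Rw.none⟩)) (.leaf ⟨(nat_lit 0), (nat_lit 925), (nat_lit 0), (nat_lit 75), (nat_lit 2213), (nat_lit 7462), (nat_lit 7235), (nat_lit 840), (nat_lit 0), (nat_lit 0), (nat_lit 0), [], Pd.none, Pd.none, (nat_lit 0), (nat_lit 1), (nat_lit 0), (nat_lit 0), (nat_lit 3), (nat_lit 0), [], [], [], [⟨(nat_lit 1), (nat_lit 100), (nat_lit 62), (nat_lit 94), (nat_lit 27174050)⟩],
 ⟨⟨[(nat_lit 40), (nat_lit 100), (nat_lit 140)], [(nat_lit 0), (nat_lit 2396), (nat_lit 4896)], [((nat_lit 0), (nat_lit 0), (nat_lit 0)), ((nat_lit 1000), (nat_lit 625), (nat_lit 623)), ((nat_lit 1000), (nat_lit 625), (nat_lit 975))], ((nat_lit 63), (nat_lit 99), (nat_lit 100))⟩, (nat_lit 0), (nat_lit 265), (nat_lit 265), (nat_lit 0), (nat_lit 255218), [(nat_lit 2904940445), (nat_lit 6250000005), (nat_lit 9842000000)], [], [(nat_lit 36823776845), (nat_lit 38041101610), (nat_lit 41516381288), (nat_lit 42569762860), (nat_lit 35364776333), (nat_lit 36329909446), (nat_lit 39451015796),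 (nat_lit 40398290770)], (nat_lit 1271251), (nat_lit 1271251), (nat_lit 1271251), (nat_lit 1271251), (nat_lit 490000), (nat_lit 1100000), [(nat_lit 490000), (nat_lit 1427501), (nat_lit 1271251)], [(nat_lit 5), (nat_lit 55), (nat_lit 249), (nat_lit 40), (nat_lit 6)]⟩,
 ⟨⟨[(nat_lit 40), (nat_lit 100), (nat_lit 160)], [(nat_lit 0), (nat_lit 0), (nat_lit 4607)], [((nat_lit 0), (nat_lit 0), (nat_lit 0)), ((nat_lit 0), (nat_lit 0), (nat_lit 0)), ((nat_lit 846), (nat_lit 837), (nat_lit 1000))], ((nat_lit 84), (nat_lit 85), (nat_lit 100))⟩, (nat_lit 1249685), (nat_lit 386), (nat_lit 386), (nat_lit 0), (nat_lit 324674), [(nat_lit 2032000000), (nat_lit 6250000000), (nat_lit 11872000000)], [], [(nat_lit 39481873410), (nat_lit 40242003085), (nat_lit 42522392110), (nat_lit 43399156480), (nat_lit 34102680010), (nat_lit 34543641420), (nat_lit 36407690905), (nat_lit 37284455275)], (nat_lit 1271251), (nat_lit 1271251), (nat_lit 1271251), (nat_lit 1271251), (nat_lit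 0), (nat_lit 2260001), [(nat_lit 490000), (nat_lit 1427501), (nat_lit 1271251)], [(nat_lit 6), (nat_lit 56), (nat_lit 317), (nat_lit 100), (nat_lit 7)]⟩,
 ⟨⟨[(nat_lit 140), (nat_lit 180), (nat_lit 200)], [(nat_lit 0), (nat_lit 0), (nat_lit 2835)], [((nat_lit 0), (nat_lit 0), (nat_lit 0)), ((nat_lit 0), (nat_lit 0), (nat_lit 0)), ((nat_lit 363), (nat_lit 1000), (nat_lit 798))], ((nat_lit 0), (nat_lit 0), (nat_lit 0))⟩, (nat_lit 17529), (nat_lit 300), (nat_lit 1783), (nat_lit 5901527), (nat_lit 2747096), [(nat_lit 738150000), (nat_lit 1054350000), (nat_lit 1230000000)], [], [(nat_lit 6011343920), (nat_lit 5939738510), (nat_lit 5699401760), (nat_lit 5629633290), (nat_lit 4904103140), (nat_lit 4840066400), (nat_lit 4730805660), (nat_lit 4922321940)], (nat_lit 780000), (nat_lit 936250), (nat_lit 490000), (nat_lit 1100000), (nat_lit 0), (nat_lit 2260001), [(nat_lit 1977501), (nat_lit 1271251), (nat_lit 1271251)], [(nat_lit 32), (nat_lit 67), (nat_lit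 524), (nat_lit 175), (nat_lit 11)]⟩⟩)) (.trZ (nat_lit 3) (nat_lit 4) (nat_lit 5) (nat_lit 100) (nat_lit 82) (nat_lit 44) (nat_lit 10) (.spl (nat_lit 4) (nat_lit 200) (.leaf ⟨(nat_lit 0), (nat_lit 912), (nat_lit 0), (nat_lit 88), (nat_lit 0), (nat_lit 9073), (nat_lit 7840), (nat_lit 917), (nat_lit 0), (nat_lit 0), (nat_lit 0), [], Pd.none, Pd.none, (nat_lit 0), (nat_lit 1), (nat_lit 0), (nat_lit 0), (nat_lit 4), (nat_lit 0), [⟨(nat_lit 1), (nat_lit 40), (nat_lit 69), (nat_lit 100), (nat_lit 22691536)⟩], [], [], [],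
 ⟨⟨[(nat_lit 40), (nat_lit 100), (nat_lit 140)], [(nat_lit 0), (nat_lit 2396), (nat_lit 4896)], [((nat_lit 0), (nat_lit 0), (nat_lit 0)), ((nat_lit 1000), (nat_lit 625), (nat_lit 623)), ((nat_lit 1000), (nat_lit 625), (nat_lit 975))], ((nat_lit 63), (nat_lit 99), (nat_lit 100))⟩, (nat_lit 19111), (nat_lit 215), (nat_lit 215), (nat_lit 0), (nat_lit 255218), [(nat_lit 3584633831), (nat_lit 7195376016), (nat_lit 9842000000)], [], [(nat_lit 34415748670), (nat_lit 35787892753), (nat_lit 39243966278), (nat_lit 40285930999), (nat_lit 34528418726), (nat_lit 35797694049), (nat_lit 38991132940), (nat_lit 39953502610)], (nat_lit 1271251), (nat_lit 1271251), (nat_lit 1271251), (nat_lit 1271251), (nat_lit 1100000), (nat_lit 1442501), [(nat_lit 490000), (nat_lit 1427501), (nat_lit 1271251)], [(nat_lit 5), (nat_lit 55), (nat_lit 260), (nat_lit 50), (nat_lit 6)]⟩,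
 ⟨⟨[(nat_lit 40), (nat_lit 100), (nat_lit 160)], [(nat_lit 0), (nat_lit 0), (nat_lit 4607)], [((nat_lit 0), (nat_lit 0), (nat_lit 0)), ((nat_lit 0), (nat_lit 0), (nat_lit 0)), ((nat_lit 846), (nat_lit 837), (nat_lit 1000))], ((nat_lit 84), (nat_lit 85), (nat_lit 100))⟩, (nat_lit 985622), (nat_lit 380), (nat_lit 380), (nat_lit 0), (nat_lit 324674), [(nat_lit 2032000000), (nat_lit 6250000000), (nat_lit 11872000000)], [], [(nat_lit 40954122052), (nat_lit 41733255162), (nat_lit 44070654492), (nat_lit 44659053767), (nat_lit 35301096652), (nat_lit 35745764332), (nat_lit 37372440246), (nat_lit 38041228600)], (nat_lit 1271251), (nat_lit 1271251), (nat_lit 1271251), (nat_lit 1271251), (nat_lit 54688), (nat_lit 2273126), [(nat_lit 490000), (nat_lit 1427501), (nat_lit 1271251)], [(nat_lit 6), (nat_lit 56), (nat_lit 317), (nat_lit 100), (nat_lit 7)]⟩,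
 ⟨⟨[(nat_lit 140), (nat_lit 180), (nat_lit 200)], [(nat_lit 0), (nat_lit 0), (nat_lit 2835)], [((nat_lit 0), (nat_lit 0), (nat_lit 0)), ((nat_lit 0), (nat_lit 0), (nat_lit 0)), ((nat_lit 363), (nat_lit 1000), (nat_lit 798))], ((nat_lit 0), (nat_lit 0), (nat_lit 0))⟩, (nat_lit 24212), (nat_lit 300), (nat_lit 1733), (nat_lit 6872800), (nat_lit 2747096), [(nat_lit 866096000), (nat_lit 1237104000), (nat_lit 1443200000)], [], [(nat_lit 7223684420), (nat_lit 7154950417), (nat_lit 7104517176), (nat_lit 7035979587), (nat_lit 6188729444), (nat_lit 6122265417), (nat_lit 6076087748), (nat_lit 6294243139)], (nat_lit 780000), (nat_lit 936250), (nat_lit 1100000), (nat_lit 1442501), (nat_lit 54688), (nat_lit 2273126), [(nat_lit 1977501), (nat_lit 1271251), (nat_lit 1271251)], [(nat_lit 32), (nat_lit 67), (nat_lit 516), (nat_lit 175), (nat_lit 11)]⟩⟩) (.trZ (nat_lit 3) (nat_lit 4) (nat_lit 5) (nat_lit 100) (nat_lit 80) (nat_lit 60) (nat_lit 40) (.leaf ⟨(nat_lit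 0), (nat_lit 920), (nat_lit 0), (nat_lit 80), (nat_lit 3093), (nat_lit 8807), (nat_lit 7666), (nat_lit 895), (nat_lit 0), (nat_lit 0), (nat_lit 0), [], Pd.none, Pd.none, (nat_lit 0), (nat_lit 1), (nat_lit 0), (nat_lit 0), (nat_lit 5), (nat_lit 0), [], [⟨(nat_lit 1), (nat_lit 100), (nat_lit 54), (nat_lit 96), (nat_lit 238649463)⟩], [⟨(nat_lit 1), (nat_lit 93), (nat_lit 81), (nat_lit 100), (nat_lit 47302533)⟩], [],
 ⟨⟨[(nat_lit 40), (nat_lit 100), (nat_lit 140)], [(nat_lit 0), (nat_lit 2396), (nat_lit 4896)], [((nat_lit 0), (nat_lit 0), (nat_lit 0)), ((nat_lit 1000), (nat_lit 625), (nat_lit 623)), ((nat_lit 1000), (nat_lit 625), (nat_lit 975))], ((nat_lit 63), (nat_lit 99), (nat_lit 100))⟩, (nat_lit 0), (nat_lit 206), (nat_lit 206), (nat_lit 0), (nat_lit 255218), [(nat_lit 3112176168), (nat_lit 6877618411), (nat_lit 9842000000)], [], [(nat_lit 34741171738), (nat_lit 35988967295), (nat_lit 39133577364), (nat_lit 40081984620), (nat_lit 35613728979),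 (nat_lit 36677908186), (nat_lit 39350166681), (nat_lit 40188633701)], (nat_lit 1271251), (nat_lit 1271251), (nat_lit 1271251), (nat_lit 1271251), (nat_lit 1271251), (nat_lit 1271251), [(nat_lit 490000), (nat_lit 1427501), (nat_lit 1271251)], [(nat_lit 5), (nat_lit 55), (nat_lit 289), (nat_lit 75), (nat_lit 7)]⟩,
 ⟨⟨[(nat_lit 40), (nat_lit 100), (nat_lit 160)], [(nat_lit 0), (nat_lit 0), (nat_lit 4607)], [((nat_lit 0), (nat_lit 0), (nat_lit 0)), ((nat_lit 0), (nat_lit 0), (nat_lit 0)), ((nat_lit 846), (nat_lit 837), (nat_lit 1000))], ((nat_lit 84), (nat_lit 85), (nat_lit 100))⟩, (nat_lit 1066533), (nat_lit 360), (nat_lit 360), (nat_lit 0), (nat_lit 324674), [(nat_lit 2032000000), (nat_lit 6250000000), (nat_lit 11872000000)], [], [(nat_lit 38535111174), (nat_lit 39292573490), (nat_lit 41564960438), (nat_lit 42139922842), (nat_lit 34910601162), (nat_lit 35354276694), (nat_lit 37072098589), (nat_lit 37823578090)], (nat_lit 1271251), (nat_lit 1271251),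 (nat_lit 1271251), (nat_lit 1271251), (nat_lit 230000), (nat_lit 2312501), [(nat_lit 490000), (nat_lit 1427501), (nat_lit 1271251)], [(nat_lit 6), (nat_lit 56), (nat_lit 317), (nat_lit 100), (nat_lit 7)]⟩,
 ⟨⟨[(nat_lit 140), (nat_lit 180), (nat_lit 200)], [(nat_lit 0), (nat_lit 0), (nat_lit 2835)], [((nat_lit 0), (nat_lit 0), (nat_lit 0)), ((nat_lit 0), (nat_lit 0), (nat_lit 0)), ((nat_lit 363), (nat_lit 1000), (nat_lit 798))], ((nat_lit 0), (nat_lit 0), (nat_lit 0))⟩, (nat_lit 22011), (nat_lit 300), (nat_lit 1695), (nat_lit 6248000), (nat_lit 2747096), [(nat_lit 787360000), (nat_lit 1124640000), (nat_lit 1312000000)], [], [(nat_lit 5689200610), (nat_lit 5616297183), (nat_lit 5514600788), (nat_lit 5440427078), (nat_lit 5112338680), (nat_lit 5321579765), (nat_lit 4576607235), (nat_lit 4505952400)], (nat_lit 780000), (nat_lit 936250), (nat_lit 1271251), (nat_lit 1271251), (nat_lit 230000), (nat_lit 2312501), [(nat_lit 1977501), (nat_lit 1271251),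 (nat_lit 1271251)], [(nat_lit 32), (nat_lit 67), (nat_lit 515), (nat_lit 200), (nat_lit 11)]⟩⟩)))))
noncomputable def c18_22 : Tr Lf :=
 (.trZ (nat_lit 0) (nat_lit 1) (nat_lit 3) (nat_lit 72) (nat_lit 61) (nat_lit 100) (nat_lit 220) (.trZ (nat_lit 1) (nat_lit 2) (nat_lit 5) (nat_lit 100) (nat_lit 78) (nat_lit 39) (nat_lit 10) (.trX (nat_lit 5) (nat_lit 1) (nat_lit 2) (nat_lit 75) (nat_lit 92) (nat_lit 100) (nat_lit 300) (.spl (nat_lit 6) (nat_lit 156) (.spl (nat_lit 4) (nat_lit 160) (.spl (nat_lit 3) (nat_lit 320) (.leaf ⟨(nat_lit 0), (nat_lit 947), (nat_lit 0), (nat_lit 53), (nat_lit 0), (nat_lit 8187), (nat_lit 6665), (nat_lit 747), (nat_lit 0), (nat_lit 0), (nat_lit 0), [], Pd.none, Pd.none, (nat_lit 0), (nat_lit 1), (nat_lit 0), (nat_lit 0), (nat_lit 3), (nat_lit 0), [⟨(nat_lit 0), (nat_lit 69), (nat_lit 55), (nat_lit 100), (nat_lit 481393575)⟩], [⟨(nat_lit 0), (nat_lit 100), (nat_lit 56), (nat_lit 65), (nat_lit 112652282)⟩], [⟨(nat_lit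 1), (nat_lit 100), (nat_lit 71), (nat_lit 100), (nat_lit 56068331)⟩], [],
 ⟨⟨[(nat_lit 40), (nat_lit 100), (nat_lit 140)], [(nat_lit 0), (nat_lit 2396), (nat_lit 4896)], [((nat_lit 0), (nat_lit 0), (nat_lit 0)), ((nat_lit 1000), (nat_lit 625), (nat_lit 623)), ((nat_lit 1000), (nat_lit 625), (nat_lit 975))], ((nat_lit 63), (nat_lit 99), (nat_lit 100))⟩, (nat_lit 557598), (nat_lit 300), (nat_lit 342), (nat_lit 50800002), (nat_lit 351399), [(nat_lit 2032000001), (nat_lit 6370479226), (nat_lit 9842000000)], [], [(nat_lit 36354017104), (nat_lit 37563384863), (nat_lit 38672991226), (nat_lit 39976779220), (nat_lit 31065943954), (nat_lit 32095230351), (nat_lit 32963956537), (nat_lit 33768004246)], (nat_lit 1271251), (nat_lit 1271251), (nat_lit 1271251), (nat_lit 1271251), (nat_lit 111251), (nat_lit 1100000), [(nat_lit 490000), (nat_lit 1427501), (nat_lit 1271251)], [(nat_lit 5), (nat_lit 55), (nat_lit 345), (nat_lit 125), (nat_lit 9)]⟩,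
 ⟨⟨[(nat_lit 40), (nat_lit 100), (nat_lit 160)], [(nat_lit 0), (nat_lit 1192), (nat_lit 5376)], [((nat_lit 0), (nat_lit 0), (nat_lit 0)), ((nat_lit 1000), (nat_lit 814), (nat_lit 310)), ((nat_lit 919), (nat_lit 747), (nat_lit 1000))], ((nat_lit 75), (nat_lit 92), (nat_lit 100))⟩, (nat_lit 1501632), (nat_lit 403), (nat_lit 403), (nat_lit 0), (nat_lit 395325), [(nat_lit 2032000000), (nat_lit 6250000000), (nat_lit 11872000000)], [], [(nat_lit 31486409383), (nat_lit 33023089563), (nat_lit 35205869017), (nat_lit 36412699512), (nat_lit 29549223460), (nat_lit 30532726523), (nat_lit 31663414993), (nat_lit 32440933548)], (nat_lit 1271251), (nat_lit 1271251), (nat_lit 1271251), (nat_lit 1271251), (nat_lit 54688), (nat_lit 2130001), [(nat_lit 490000), (nat_lit 1427501), (nat_lit 1271251)], [(nat_lit 6), (nat_lit 56), (nat_lit 401), (nat_lit 175), (nat_lit 10)]⟩,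
 ⟨⟨[(nat_lit 140), (nat_lit 180), (nat_lit 200)], [(nat_lit 0), (nat_lit 0), (nat_lit 2835)], [((nat_lit 0), (nat_lit 0), (nat_lit 0)), ((nat_lit 0), (nat_lit 0), (nat_lit 0)), ((nat_lit 363), (nat_lit 1000), (nat_lit 798))], ((nat_lit 0), (nat_lit 0), (nat_lit 0))⟩, (nat_lit 14582), (nat_lit 300), (nat_lit 2339), (nat_lit 4139301), (nat_lit 3803451), [(nat_lit 521626000), (nat_lit 745074000), (nat_lit 869200000)], [], [(nat_lit 5051591442), (nat_lit 4834278304), (nat_lit 3611859957), (nat_lit 3549189984), (nat_lit 3366815764), (nat_lit 3301712673), (nat_lit 3449235703), (nat_lit 3608729573)], (nat_lit 780000), (nat_lit 936250), (nat_lit 111251), (nat_lit 1100000), (nat_lit 54688), (nat_lit 2130001), [(nat_lit 1977501), (nat_lit 1271251), (nat_lit 1271251)], [(nat_lit 32), (nat_lit 67), (nat_lit 660), (nat_lit 150), (nat_lit 14)]⟩⟩) (.leaf ⟨(nat_lit 0), (nat_lit 942), (nat_lit 0), (nat_lit 58), (nat_lit 0), (nat_lit 7223), (nat_lit 5795), (nat_lit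 662), (nat_lit 0), (nat_lit 0), (nat_lit 0), [], Pd.none, Pd.none, (nat_lit 0), (nat_lit 1), (nat_lit 0), (nat_lit 0), (nat_lit 3), (nat_lit 0), [], [], [], [⟨(nat_lit 1), (nat_lit 100), (nat_lit 60), (nat_lit 84), (nat_lit 126639775)⟩],
 ⟨⟨[(nat_lit 40), (nat_lit 100), (nat_lit 140)], [(nat_lit 0), (nat_lit 2396), (nat_lit 4896)], [((nat_lit 0), (nat_lit 0), (nat_lit 0)), ((nat_lit 1000), (nat_lit 625), (nat_lit 623)), ((nat_lit 1000), (nat_lit 625), (nat_lit 975))], ((nat_lit 63), (nat_lit 99), (nat_lit 100))⟩, (nat_lit 557598), (nat_lit 300), (nat_lit 348), (nat_lit 50800002), (nat_lit 351399), [(nat_lit 2032000002), (nat_lit 6372080140), (nat_lit 9842000000)], [], [(nat_lit 39613289068), (nat_lit 40503551101), (nat_lit 42971892718), (nat_lit 44546342341), (nat_lit 34817317488), (nat_lit 35580846734), (nat_lit 37527957648), (nat_lit 38119748481)], (nat_lit 1271251), (nat_lit 1271251), (nat_lit 1271251), (nat_lit 1271251), (nat_lit 111251),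 (nat_lit 1100000), [(nat_lit 490000), (nat_lit 1427501), (nat_lit 1271251)], [(nat_lit 5), (nat_lit 55), (nat_lit 249), (nat_lit 40), (nat_lit 6)]⟩,
 ⟨⟨[(nat_lit 40), (nat_lit 100), (nat_lit 160)], [(nat_lit 0), (nat_lit 1192), (nat_lit 5376)], [((nat_lit 0), (nat_lit 0), (nat_lit 0)), ((nat_lit 1000), (nat_lit 814), (nat_lit 310)), ((nat_lit 919), (nat_lit 747), (nat_lit 1000))], ((nat_lit 75), (nat_lit 92), (nat_lit 100))⟩, (nat_lit 1501926), (nat_lit 401), (nat_lit 401), (nat_lit 0), (nat_lit 395325), [(nat_lit 2032000000), (nat_lit 6250000000), (nat_lit 11872000000)], [], [(nat_lit 34724167780), (nat_lit 35636720006), (nat_lit 38763330989), (nat_lit 39641948104), (nat_lit 32364843664), (nat_lit 32867660964), (nat_lit 34926714821), (nat_lit 35843478505)], (nat_lit 1271251), (nat_lit 1271251), (nat_lit 1271251), (nat_lit 1271251), (nat_lit 54688), (nat_lit 2130001), [(nat_lit 490000), (nat_lit 1427501), (nat_lit 1271251)], [(nat_lit 6), (nat_lit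 56), (nat_lit 289), (nat_lit 75), (nat_lit 7)]⟩,
 ⟨⟨[(nat_lit 140), (nat_lit 180), (nat_lit 200)], [(nat_lit 0), (nat_lit 0), (nat_lit 2835)], [((nat_lit 0), (nat_lit 0), (nat_lit 0)), ((nat_lit 0), (nat_lit 0), (nat_lit 0)), ((nat_lit 363), (nat_lit 1000), (nat_lit 798))], ((nat_lit 0), (nat_lit 0), (nat_lit 0))⟩, (nat_lit 13519), (nat_lit 300), (nat_lit 2339), (nat_lit 4564369), (nat_lit 3803451), [(nat_lit 570836000), (nat_lit 815364000), (nat_lit 951200000)], [], [(nat_lit 4994851713), (nat_lit 4804680301), (nat_lit 4308807278), (nat_lit 4253253912), (nat_lit 4016459795), (nat_lit 3960389044), (nat_lit 3606914934), (nat_lit 3752384425)], (nat_lit 780000), (nat_lit 936250), (nat_lit 111251), (nat_lit 1100000), (nat_lit 54688), (nat_lit 2130001), [(nat_lit 1977501), (nat_lit 1271251), (nat_lit 1271251)], [(nat_lit 32), (nat_lit 67), (nat_lit 660), (nat_lit 150), (nat_lit 14)]⟩⟩)) (.spl (nat_lit 5) (nat_lit 160) (.leaf ⟨(nat_lit 0), (nat_lit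 952), (nat_lit 0), (nat_lit 48), (nat_lit 0), (nat_lit 7238), (nat_lit 6360), (nat_lit 664), (nat_lit 0), (nat_lit 0), (nat_lit 0), [], Pd.none, Pd.none, (nat_lit 0), (nat_lit 1), (nat_lit 0), (nat_lit 0), (nat_lit 4), (nat_lit 0), [], [⟨(nat_lit 1), (nat_lit 100), (nat_lit 54), (nat_lit 96), (nat_lit 402334855)⟩], [], [],
 ⟨⟨[(nat_lit 40), (nat_lit 100), (nat_lit 140)], [(nat_lit 0), (nat_lit 2396), (nat_lit 4896)], [((nat_lit 0), (nat_lit 0), (nat_lit 0)), ((nat_lit 1000), (nat_lit 625), (nat_lit 623)), ((nat_lit 1000), (nat_lit 625), (nat_lit 975))], ((nat_lit 63), (nat_lit 99), (nat_lit 100))⟩, (nat_lit 661442), (nat_lit 251), (nat_lit 251), (nat_lit 0), (nat_lit 351399), [(nat_lit 2740624509), (nat_lit 6512648949), (nat_lit 9842000000)], [], [(nat_lit 28521040397), (nat_lit 30003331495), (nat_lit 36228374772), (nat_lit 37162483698), (nat_lit 30644959367), (nat_lit 31871890005), (nat_lit 36928066789), (nat_lit 38037248751)], (nat_lit 1271251),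 (nat_lit 1271251), (nat_lit 1271251), (nat_lit 1271251), (nat_lit 1100000), (nat_lit 2041876), [(nat_lit 490000), (nat_lit 1427501), (nat_lit 1271251)], [(nat_lit 5), (nat_lit 55), (nat_lit 401), (nat_lit 175), (nat_lit 10)]⟩,
 ⟨⟨[(nat_lit 40), (nat_lit 100), (nat_lit 160)], [(nat_lit 0), (nat_lit 1192), (nat_lit 5376)], [((nat_lit 0), (nat_lit 0), (nat_lit 0)), ((nat_lit 1000), (nat_lit 814), (nat_lit 310)), ((nat_lit 919), (nat_lit 747), (nat_lit 1000))], ((nat_lit 75), (nat_lit 92), (nat_lit 100))⟩, (nat_lit 1352639), (nat_lit 403), (nat_lit 403), (nat_lit 0), (nat_lit 395325), [(nat_lit 2032000000), (nat_lit 6250000000), (nat_lit 11872000000)], [], [(nat_lit 32635958718), (nat_lit 33590172746), (nat_lit 40210273056), (nat_lit 41293109330), (nat_lit 29073620050), (nat_lit 29875492140), (nat_lit 34552843976), (nat_lit 35349347536)], (nat_lit 1271251), (nat_lit 1271251), (nat_lit 1271251), (nat_lit 1271251), (nat_lit 54688), (nat_lit 1100000),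 [(nat_lit 490000), (nat_lit 1427501), (nat_lit 1271251)], [(nat_lit 6), (nat_lit 56), (nat_lit 373), (nat_lit 150), (nat_lit 9)]⟩,
 ⟨⟨[(nat_lit 140), (nat_lit 180), (nat_lit 200)], [(nat_lit 0), (nat_lit 0), (nat_lit 2835)], [((nat_lit 0), (nat_lit 0), (nat_lit 0)), ((nat_lit 0), (nat_lit 0), (nat_lit 0)), ((nat_lit 363), (nat_lit 1000), (nat_lit 798))], ((nat_lit 0), (nat_lit 0), (nat_lit 0))⟩, (nat_lit 13206), (nat_lit 300), (nat_lit 2259), (nat_lit 3748805), (nat_lit 3803451), [(nat_lit 472416000), (nat_lit 674784000), (nat_lit 787200000)], [], [(nat_lit 3283701284), (nat_lit 3228264610), (nat_lit 3136499489), (nat_lit 3079385219), (nat_lit 2655706936), (nat_lit 2603656088), (nat_lit 3319107212), (nat_lit 3458423690)], (nat_lit 780000), (nat_lit 936250), (nat_lit 1100000), (nat_lit 2041876), (nat_lit 54688), (nat_lit 1100000), [(nat_lit 1977501), (nat_lit 1271251), (nat_lit 1271251)], [(nat_lit 32), (nat_lit 67), (nat_lit 636), (nat_lit 150),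 (nat_lit 13)]⟩⟩) (.leaf ⟨(nat_lit 0), (nat_lit 928), (nat_lit 0), (nat_lit 72), (nat_lit 0), (nat_lit 8182), (nat_lit 7068), (nat_lit 813), (nat_lit 0), (nat_lit 0), (nat_lit 0), [], Pd.none, Pd.none, (nat_lit 0), (nat_lit 1), (nat_lit 0), (nat_lit 0), (nat_lit 4), (nat_lit 0), [], [⟨(nat_lit 1), (nat_lit 100), (nat_lit 54), (nat_lit 96), (nat_lit 422027152)⟩], [⟨(nat_lit 1), (nat_lit 100), (nat_lit 71), (nat_lit 100), (nat_lit 323566584)⟩], [],
 ⟨⟨[(nat_lit 40), (nat_lit 100), (nat_lit 140)], [(nat_lit 0), (nat_lit 2396), (nat_lit 4896)], [((nat_lit 0), (nat_lit 0), (nat_lit 0)), ((nat_lit 1000), (nat_lit 625), (nat_lit 623)), ((nat_lit 1000), (nat_lit 625), (nat_lit 975))], ((nat_lit 63), (nat_lit 99), (nat_lit 100))⟩, (nat_lit 353827), (nat_lit 251), (nat_lit 251), (nat_lit 0), (nat_lit 351399), [(nat_lit 2988362340), (nat_lit 6626467827), (nat_lit 9842000000)], [], [(nat_lit 29497811133), (nat_lit 31153499867), (nat_lit 37667960564), (nat_lit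 38657554978), (nat_lit 31628450497), (nat_lit 32943212724), (nat_lit 38149924221), (nat_lit 39331644795)], (nat_lit 1271251), (nat_lit 1271251), (nat_lit 1271251), (nat_lit 1271251), (nat_lit 1100000), (nat_lit 2041876), [(nat_lit 490000), (nat_lit 1427501), (nat_lit 1271251)], [(nat_lit 5), (nat_lit 55), (nat_lit 401), (nat_lit 175), (nat_lit 10)]⟩,
 ⟨⟨[(nat_lit 40), (nat_lit 100), (nat_lit 160)], [(nat_lit 0), (nat_lit 1192), (nat_lit 5376)], [((nat_lit 0), (nat_lit 0), (nat_lit 0)), ((nat_lit 1000), (nat_lit 814), (nat_lit 310)), ((nat_lit 919), (nat_lit 747), (nat_lit 1000))], ((nat_lit 75), (nat_lit 92), (nat_lit 100))⟩, (nat_lit 1320275), (nat_lit 315), (nat_lit 315), (nat_lit 0), (nat_lit 395325), [(nat_lit 2032000000), (nat_lit 6250000000), (nat_lit 11872000000)], [], [(nat_lit 27361020258), (nat_lit 28721450448), (nat_lit 34659260612), (nat_lit 35521913920), (nat_lit 30314087539), (nat_lit 31325639251), (nat_lit 36490100508), (nat_lit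 37504538552)], (nat_lit 1271251), (nat_lit 1271251), (nat_lit 1271251), (nat_lit 1271251), (nat_lit 1100000), (nat_lit 2298751), [(nat_lit 490000), (nat_lit 1427501), (nat_lit 1271251)], [(nat_lit 6), (nat_lit 56), (nat_lit 401), (nat_lit 175), (nat_lit 9)]⟩,
 ⟨⟨[(nat_lit 140), (nat_lit 180), (nat_lit 200)], [(nat_lit 0), (nat_lit 0), (nat_lit 2835)], [((nat_lit 0), (nat_lit 0), (nat_lit 0)), ((nat_lit 0), (nat_lit 0), (nat_lit 0)), ((nat_lit 363), (nat_lit 1000), (nat_lit 798))], ((nat_lit 0), (nat_lit 0), (nat_lit 0))⟩, (nat_lit 19810), (nat_lit 300), (nat_lit 2167), (nat_lit 5623200), (nat_lit 3803451), [(nat_lit 708624000), (nat_lit 1012176000), (nat_lit 1180800000)], [], [(nat_lit 4772571089), (nat_lit 4716464095), (nat_lit 4504754311), (nat_lit 4449058835), (nat_lit 4438936370), (nat_lit 4383308885), (nat_lit 4172103080), (nat_lit 4116895520)], (nat_lit 780000), (nat_lit 936250), (nat_lit 1100000), (nat_lit 2041876), (nat_lit 1100000),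 (nat_lit 2298751), [(nat_lit 1977501), (nat_lit 1271251), (nat_lit 1271251)], [(nat_lit 32), (nat_lit 67), (nat_lit 631), (nat_lit 200), (nat_lit 13)]⟩⟩))) (.spl (nat_lit 4) (nat_lit 160) (.spl (nat_lit 0) (nat_lit 370) (.leaf ⟨(nat_lit 0), (nat_lit 980), (nat_lit 0), (nat_lit 20), (nat_lit 12474), (nat_lit 6889), (nat_lit 7381), (nat_lit 293), (nat_lit 0), (nat_lit 0), (nat_lit 0), [], Pd.none, Pd.none, (nat_lit 0), (nat_lit 1), (nat_lit 0), (nat_lit 0), (nat_lit 3), (nat_lit 0), [⟨(nat_lit 0), (nat_lit 64), (nat_lit 57), (nat_lit 100), (nat_lit 56115665)⟩], [], [⟨(nat_lit 1), (nat_lit 100), (nat_lit 71), (nat_lit 100), (nat_lit 58834592)⟩], [],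
 ⟨⟨[(nat_lit 40), (nat_lit 100), (nat_lit 140)], [(nat_lit 0), (nat_lit 2396), (nat_lit 4896)], [((nat_lit 0), (nat_lit 0), (nat_lit 0)), ((nat_lit 1000), (nat_lit 625), (nat_lit 623)), ((nat_lit 1000), (nat_lit 625), (nat_lit 975))], ((nat_lit 63), (nat_lit 99), (nat_lit 100))⟩, (nat_lit 414271), (nat_lit 253), (nat_lit 253), (nat_lit 0), (nat_lit 105377), [(nat_lit 2580432462), (nat_lit 6250000126), (nat_lit 9842000000)], [], [(nat_lit 34498211401), (nat_lit 35181940515), (nat_lit 43098211687), (nat_lit 43621623032), (nat_lit 30639448480), (nat_lit 31224013385), (nat_lit 37463108246), (nat_lit 37919906123)], (nat_lit 1271251), (nat_lit 1271251), (nat_lit 1271251), (nat_lit 1271251), (nat_lit 111251), (nat_lit 1100000), [(nat_lit 490000), (nat_lit 1427501), (nat_lit 1271251)], [(nat_lit 5), (nat_lit 55), (nat_lit 373), (nat_lit 150), (nat_lit 10)]⟩,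
 ⟨⟨[(nat_lit 40), (nat_lit 100), (nat_lit 160)], [(nat_lit 0), (nat_lit 1192), (nat_lit 5376)], [((nat_lit 0), (nat_lit 0), (nat_lit 0)), ((nat_lit 1000), (nat_lit 814), (nat_lit 310)), ((nat_lit 919), (nat_lit 747), (nat_lit 1000))], ((nat_lit 75), (nat_lit 92), (nat_lit 100))⟩, (nat_lit 0), (nat_lit 314), (nat_lit 314), (nat_lit 0), (nat_lit 113243), [(nat_lit 2032000000), (nat_lit 6250000000), (nat_lit 11872000000)], [], [(nat_lit 40295274756), (nat_lit 41644960507), (nat_lit 48646497547), (nat_lit 49620638955), (nat_lit 37467604621), (nat_lit 38282034267), (nat_lit 42398104706), (nat_lit 43016137706)], (nat_lit 1271251), (nat_lit 1271251), (nat_lit 1271251), (nat_lit 1271251), (nat_lit 54688), (nat_lit 2130001), [(nat_lit 490000), (nat_lit 1427501), (nat_lit 1271251)], [(nat_lit 6), (nat_lit 56), (nat_lit 401), (nat_lit 175), (nat_lit 10)]⟩,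
 ⟨⟨[(nat_lit 140), (nat_lit 180), (nat_lit 200)], [(nat_lit 0), (nat_lit 0), (nat_lit 2835)], [((nat_lit 0), (nat_lit 0), (nat_lit 0)), ((nat_lit 0), (nat_lit 0), (nat_lit 0)), ((nat_lit 363), (nat_lit 1000), (nat_lit 798))], ((nat_lit 0), (nat_lit 0), (nat_lit 0))⟩, (nat_lit 0), (nat_lit 300), (nat_lit 1075), (nat_lit 1640000), (nat_lit 1072346), [(nat_lit 196840000), (nat_lit 281160000), (nat_lit 328000000)], [], [(nat_lit 1968523038), (nat_lit 1883112534), (nat_lit 1398606396), (nat_lit 1373785526), (nat_lit 1300512222), (nat_lit 1275507059), (nat_lit 1313785133), (nat_lit 1375851504)], (nat_lit 780000), (nat_lit 936250), (nat_lit 111251), (nat_lit 1100000), (nat_lit 54688), (nat_lit 2130001), [(nat_lit 1977501), (nat_lit 1271251), (nat_lit 1271251)], [(nat_lit 32), (nat_lit 67), (nat_lit 373), (nat_lit 150), (nat_lit 9)]⟩⟩) (.trZ (nat_lit 0) (nat_lit 1) (nat_lit 3) (nat_lit 73) (nat_lit 54) (nat_lit 100) (nat_lit 240) (.trZ (nat_lit 0) (nat_lit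 2) (nat_lit 4) (nat_lit 100) (nat_lit 57) (nat_lit 62) (nat_lit 30) (.leaf ⟨(nat_lit 0), (nat_lit 941), (nat_lit 0), (nat_lit 59), (nat_lit 5017), (nat_lit 5717), (nat_lit 7392), (nat_lit 747), (nat_lit 0), (nat_lit 0), (nat_lit 0), [], Pd.none, Pd.none, (nat_lit 0), (nat_lit 1), (nat_lit 0), (nat_lit 0), (nat_lit 3), (nat_lit 0), [⟨(nat_lit 0), (nat_lit 68), (nat_lit 49), (nat_lit 100), (nat_lit 36998263)⟩], [], [], [],
 ⟨⟨[(nat_lit 40), (nat_lit 100), (nat_lit 140)], [(nat_lit 0), (nat_lit 2998), (nat_lit 5352)], [((nat_lit 0), (nat_lit 0), (nat_lit 0)), ((nat_lit 1000), (nat_lit 532), (nat_lit 779)), ((nat_lit 1000), (nat_lit 531), (nat_lit 919))], ((nat_lit 54), (nat_lit 100), (nat_lit 98))⟩, (nat_lit 903174), (nat_lit 282), (nat_lit 282), (nat_lit 0), (nat_lit 154771), [(nat_lit 2254479379), (nat_lit 6250000007), (nat_lit 9842000000)], [], [(nat_lit 31641867992), (nat_lit 32383498910), (nat_lit 39027556431), (nat_lit 39506568021), (nat_lit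 28868554699), (nat_lit 29380036427), (nat_lit 35162504393), (nat_lit 35584858947)], (nat_lit 1271251), (nat_lit 1271251), (nat_lit 1271251), (nat_lit 1271251), (nat_lit 169688), (nat_lit 1100000), [(nat_lit 490000), (nat_lit 1427501), (nat_lit 1271251)], [(nat_lit 5), (nat_lit 55), (nat_lit 373), (nat_lit 150), (nat_lit 10)]⟩,
 ⟨⟨[(nat_lit 40), (nat_lit 100), (nat_lit 160)], [(nat_lit 0), (nat_lit 1192), (nat_lit 5376)], [((nat_lit 0), (nat_lit 0), (nat_lit 0)), ((nat_lit 1000), (nat_lit 814), (nat_lit 310)), ((nat_lit 919), (nat_lit 747), (nat_lit 1000))], ((nat_lit 75), (nat_lit 92), (nat_lit 100))⟩, (nat_lit 0), (nat_lit 337), (nat_lit 337), (nat_lit 0), (nat_lit 176393), [(nat_lit 2032000000), (nat_lit 6250000000), (nat_lit 11872000000)], [], [(nat_lit 40572257517), (nat_lit 41969981484), (nat_lit 48659042904), (nat_lit 49633850560), (nat_lit 37512270820), (nat_lit 38366649452), (nat_lit 42393922734), (nat_lit 43012208676)], (nat_lit 1271251),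 (nat_lit 1271251), (nat_lit 1271251), (nat_lit 1271251), (nat_lit 54688), (nat_lit 2130001), [(nat_lit 490000), (nat_lit 1427501), (nat_lit 1271251)], [(nat_lit 6), (nat_lit 56), (nat_lit 401), (nat_lit 175), (nat_lit 10)]⟩,
 ⟨⟨[(nat_lit 140), (nat_lit 180), (nat_lit 200)], [(nat_lit 0), (nat_lit 0), (nat_lit 2835)], [((nat_lit 0), (nat_lit 0), (nat_lit 0)), ((nat_lit 0), (nat_lit 0), (nat_lit 0)), ((nat_lit 363), (nat_lit 1000), (nat_lit 798))], ((nat_lit 0), (nat_lit 0), (nat_lit 0))⟩, (nat_lit 0), (nat_lit 300), (nat_lit 1325), (nat_lit 4838000), (nat_lit 1673427), [(nat_lit 580678000), (nat_lit 829422000), (nat_lit 967600000)], [], [(nat_lit 5259861168), (nat_lit 5045080824), (nat_lit 4309604663), (nat_lit 4245730042), (nat_lit 3953225158), (nat_lit 3890233774), (nat_lit 3746980015), (nat_lit 3910223885)], (nat_lit 780000), (nat_lit 936250), (nat_lit 169688), (nat_lit 1100000), (nat_lit 54688), (nat_lit 2130001), [(nat_lit 1977501), (nat_lit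 1271251), (nat_lit 1271251)], [(nat_lit 32), (nat_lit 67), (nat_lit 407), (nat_lit 150), (nat_lit 9)]⟩⟩)))) (.spl (nat_lit 5) (nat_lit 160) (.leaf ⟨(nat_lit 0), (nat_lit 969), (nat_lit 0), (nat_lit 31), (nat_lit 12720), (nat_lit 8628), (nat_lit 6062), (nat_lit 470), (nat_lit 0), (nat_lit 0), (nat_lit 0), [], Pd.none, Pd.none, (nat_lit 0), (nat_lit 1), (nat_lit 0), (nat_lit 0), (nat_lit 4), (nat_lit 0), [⟨(nat_lit 0), (nat_lit 69), (nat_lit 55), (nat_lit 100), (nat_lit 33930274)⟩], [⟨(nat_lit 1), (nat_lit 100), (nat_lit 54), (nat_lit 96), (nat_lit 357930956)⟩], [], [],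
 ⟨⟨[(nat_lit 40), (nat_lit 100), (nat_lit 140)], [(nat_lit 0), (nat_lit 2396), (nat_lit 4896)], [((nat_lit 0), (nat_lit 0), (nat_lit 0)), ((nat_lit 1000), (nat_lit 625), (nat_lit 623)), ((nat_lit 1000), (nat_lit 625), (nat_lit 975))], ((nat_lit 63), (nat_lit 99), (nat_lit 100))⟩, (nat_lit 0), (nat_lit 186), (nat_lit 186), (nat_lit 0), (nat_lit 157065), [(nat_lit 3126241488), (nat_lit 8791846592), (nat_lit 9842000000)], [], [(nat_lit 31004778750), (nat_lit 32717682259), (nat_lit 39368880424), (nat_lit 40384689380), (nat_lit 33113884955), (nat_lit 34470143886), (nat_lit 39407182521), (nat_lit 40204478497)], (nat_lit 1271251), (nat_lit 1271251), (nat_lit 1271251), (nat_lit 1271251), (nat_lit 1100000), (nat_lit 2041876), [(nat_lit 490000), (nat_lit 1427501), (nat_lit 1271251)], [(nat_lit 5), (nat_lit 55), (nat_lit 401), (nat_lit 175), (nat_lit 10)]⟩,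
 ⟨⟨[(nat_lit 40), (nat_lit 100), (nat_lit 160)], [(nat_lit 0), (nat_lit 1192), (nat_lit 5376)], [((nat_lit 0), (nat_lit 0), (nat_lit 0)), ((nat_lit 1000), (nat_lit 814), (nat_lit 310)), ((nat_lit 919), (nat_lit 747), (nat_lit 1000))], ((nat_lit 75), (nat_lit 92), (nat_lit 100))⟩, (nat_lit 1416421), (nat_lit 337), (nat_lit 337), (nat_lit 0), (nat_lit 176393), [(nat_lit 2032000000), (nat_lit 6250000000), (nat_lit 11872000000)], [], [(nat_lit 31858784595), (nat_lit 33018745800), (nat_lit 39527515898), (nat_lit 40422231374), (nat_lit 28233125492), (nat_lit 29225326496), (nat_lit 34238393362), (nat_lit 35020631364)], (nat_lit 1271251), (nat_lit 1271251), (nat_lit 1271251), (nat_lit 1271251), (nat_lit 54688), (nat_lit 1100000), [(nat_lit 490000), (nat_lit 1427501), (nat_lit 1271251)], [(nat_lit 6), (nat_lit 56), (nat_lit 373), (nat_lit 150), (nat_lit 9)]⟩,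
 ⟨⟨[(nat_lit 140), (nat_lit 180), (nat_lit 200)], [(nat_lit 0), (nat_lit 0), (nat_lit 2835)], [((nat_lit 0), (nat_lit 0), (nat_lit 0)), ((nat_lit 0), (nat_lit 0), (nat_lit 0)), ((nat_lit 363), (nat_lit 1000), (nat_lit 798))], ((nat_lit 0), (nat_lit 0), (nat_lit 0))⟩, (nat_lit 0), (nat_lit 300), (nat_lit 1243), (nat_lit 2542000), (nat_lit 1673427), [(nat_lit 305102000), (nat_lit 435798000), (nat_lit 508400000)], [], [(nat_lit 2151924033), (nat_lit 2111780393), (nat_lit 2042173971), (nat_lit 2004666872), (nat_lit 1701645768), (nat_lit 1663932030), (nat_lit 2202740667), (nat_lit 2299493295)], (nat_lit 780000), (nat_lit 936250), (nat_lit 1100000), (nat_lit 2041876), (nat_lit 54688), (nat_lit 1100000), [(nat_lit 1977501), (nat_lit 1271251), (nat_lit 1271251)], [(nat_lit 32), (nat_lit 67), (nat_lit 382), (nat_lit 150), (nat_lit 8)]⟩⟩) (.leaf ⟨(nat_lit 0), (nat_lit 888), (nat_lit 0), (nat_lit 112), (nat_lit 0), (nat_lit 9266), (nat_lit 11340), (nat_lit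 1262), (nat_lit 0), (nat_lit 0), (nat_lit 0), [], Pd.none, Pd.none, (nat_lit 0), (nat_lit 1), (nat_lit 0), (nat_lit 0), (nat_lit 4), (nat_lit 0), [], [⟨(nat_lit 1), (nat_lit 100), (nat_lit 54), (nat_lit 96), (nat_lit 277530842)⟩], [⟨(nat_lit 1), (nat_lit 100), (nat_lit 71), (nat_lit 100), (nat_lit 213630710)⟩], [],
 ⟨⟨[(nat_lit 40), (nat_lit 100), (nat_lit 140)], [(nat_lit 0), (nat_lit 2396), (nat_lit 4896)], [((nat_lit 0), (nat_lit 0), (nat_lit 0)), ((nat_lit 1000), (nat_lit 625), (nat_lit 623)), ((nat_lit 1000), (nat_lit 625), (nat_lit 975))], ((nat_lit 63), (nat_lit 99), (nat_lit 100))⟩, (nat_lit 0), (nat_lit 186), (nat_lit 186), (nat_lit 0), (nat_lit 157065), [(nat_lit 3167420398), (nat_lit 8440543557), (nat_lit 9842000000)], [], [(nat_lit 30682389375), (nat_lit 32477138236), (nat_lit 39323938428), (nat_lit 40377247110), (nat_lit 32760692542), (nat_lit 34176312228), (nat_lit 39552989323), (nat_lit 40818006354)], (nat_lit 1271251), (nat_lit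 1271251), (nat_lit 1271251), (nat_lit 1271251), (nat_lit 1100000), (nat_lit 2041876), [(nat_lit 490000), (nat_lit 1427501), (nat_lit 1271251)], [(nat_lit 5), (nat_lit 55), (nat_lit 401), (nat_lit 175), (nat_lit 10)]⟩,
 ⟨⟨[(nat_lit 40), (nat_lit 100), (nat_lit 160)], [(nat_lit 0), (nat_lit 1192), (nat_lit 5376)], [((nat_lit 0), (nat_lit 0), (nat_lit 0)), ((nat_lit 1000), (nat_lit 814), (nat_lit 310)), ((nat_lit 919), (nat_lit 747), (nat_lit 1000))], ((nat_lit 75), (nat_lit 92), (nat_lit 100))⟩, (nat_lit 0), (nat_lit 209), (nat_lit 209), (nat_lit 0), (nat_lit 176393), [(nat_lit 2032000000), (nat_lit 6250000000), (nat_lit 11872000000)], [], [(nat_lit 32383720290), (nat_lit 34214946240), (nat_lit 41349335060), (nat_lit 42384236200), (nat_lit 35184603445), (nat_lit 36493484755), (nat_lit 41776779540), (nat_lit 43078810760)], (nat_lit 1271251), (nat_lit 1271251), (nat_lit 1271251), (nat_lit 1271251), (nat_lit 1100000), (nat_lit 2298751), [(nat_lit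 490000), (nat_lit 1427501), (nat_lit 1271251)], [(nat_lit 6), (nat_lit 56), (nat_lit 401), (nat_lit 175), (nat_lit 9)]⟩,
 ⟨⟨[(nat_lit 140), (nat_lit 180), (nat_lit 200)], [(nat_lit 0), (nat_lit 0), (nat_lit 2835)], [((nat_lit 0), (nat_lit 0), (nat_lit 0)), ((nat_lit 0), (nat_lit 0), (nat_lit 0)), ((nat_lit 363), (nat_lit 1000), (nat_lit 798))], ((nat_lit 0), (nat_lit 0), (nat_lit 0))⟩, (nat_lit 30815), (nat_lit 300), (nat_lit 1136), (nat_lit 8747200), (nat_lit 1673427), [(nat_lit 1102304000), (nat_lit 1574496000), (nat_lit 1836800000)], [], [(nat_lit 7287634184), (nat_lit 7186401032), (nat_lit 6894360298), (nat_lit 6792606105), (nat_lit 6814955764), (nat_lit 6712759861), (nat_lit 6405111982), (nat_lit 6397914944)], (nat_lit 780000), (nat_lit 936250), (nat_lit 1100000), (nat_lit 2041876), (nat_lit 1100000), (nat_lit 2298751), [(nat_lit 1977501), (nat_lit 1271251), (nat_lit 1271251)], [(nat_lit 32), (nat_lit 67), (nat_lit 428), (nat_lit 200),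 (nat_lit 9)]⟩⟩)))))))
noncomputable def c18_23 : Tr Lf :=
 (.spl (nat_lit 6) (nat_lit 152) (.spl (nat_lit 5) (nat_lit 160) (.spl (nat_lit 1) (nat_lit 330) (.spl (nat_lit 6) (nat_lit 140) (.leaf ⟨(nat_lit 0), (nat_lit 943), (nat_lit 0), (nat_lit 57), (nat_lit 14310), (nat_lit 4511), (nat_lit 6381), (nat_lit 800), (nat_lit 0), (nat_lit 0), (nat_lit 0), [], Pd.none, Pd.none, (nat_lit 0), (nat_lit 1), (nat_lit 0), (nat_lit 0), (nat_lit 3), (nat_lit 0), [⟨(nat_lit 0), (nat_lit 79), (nat_lit 45), (nat_lit 100), (nat_lit 220861030)⟩], [⟨(nat_lit 1), (nat_lit 99), (nat_lit 54), (nat_lit 100), (nat_lit 161274280)⟩], [], [],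
 ⟨⟨[(nat_lit 40), (nat_lit 100), (nat_lit 140)], [(nat_lit 0), (nat_lit 2396), (nat_lit 4896)], [((nat_lit 0), (nat_lit 0), (nat_lit 0)), ((nat_lit 1000), (nat_lit 625), (nat_lit 623)), ((nat_lit 1000), (nat_lit 625), (nat_lit 975))], ((nat_lit 63), (nat_lit 99), (nat_lit 100))⟩, (nat_lit 1588213), (nat_lit 269), (nat_lit 269), (nat_lit 0), (nat_lit 138609), [(nat_lit 2032000314), (nat_lit 6250000118), (nat_lit 9842000000)], [], [(nat_lit 27104149695), (nat_lit 28231085204), (nat_lit 34929807169), (nat_lit 36151530442), (nat_lit 28173608144), (nat_lit 28913027140), (nat_lit 33911510235), (nat_lit 34772921422)], (nat_lit 1271251), (nat_lit 1271251), (nat_lit 1271251), (nat_lit 1271251), (nat_lit 169688), (nat_lit 2079063), [(nat_lit 490000), (nat_lit 1427501), (nat_lit 1271251)], [(nat_lit 5), (nat_lit 55), (nat_lit 401), (nat_lit 175), (nat_lit 11)]⟩,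
 ⟨⟨[(nat_lit 40), (nat_lit 100), (nat_lit 160)], [(nat_lit 0), (nat_lit 0), (nat_lit 4607)], [((nat_lit 0), (nat_lit 0), (nat_lit 0)), ((nat_lit 0), (nat_lit 0), (nat_lit 0)), ((nat_lit 846), (nat_lit 837), (nat_lit 1000))], ((nat_lit 84), (nat_lit 85), (nat_lit 100))⟩, (nat_lit 1717297), (nat_lit 338), (nat_lit 338), (nat_lit 0), (nat_lit 185424), [(nat_lit 2032000000), (nat_lit 6250000000), (nat_lit 11872000000)], [], [(nat_lit 31497529581), (nat_lit 32115820575), (nat_lit 38774916869), (nat_lit 39145423802), (nat_lit 27787946301), (nat_lit 28315596225), (nat_lit 34135093972), (nat_lit 34553185844)], (nat_lit 1271251), (nat_lit 1271251), (nat_lit 1271251), (nat_lit 1271251), (nat_lit 54688), (nat_lit 1100000), [(nat_lit 490000), (nat_lit 1427501), (nat_lit 1271251)], [(nat_lit 6), (nat_lit 56), (nat_lit 373), (nat_lit 150), (nat_lit 9)]⟩,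
 ⟨⟨[(nat_lit 140), (nat_lit 180), (nat_lit 200)], [(nat_lit 0), (nat_lit 608), (nat_lit 3317)], [((nat_lit 0), (nat_lit 0), (nat_lit 0)), ((nat_lit 913), (nat_lit 1000), (nat_lit 217)), ((nat_lit 385), (nat_lit 1000), (nat_lit 814))], ((nat_lit 0), (nat_lit 0), (nat_lit 0))⟩, (nat_lit 16832), (nat_lit 300), (nat_lit 1062), (nat_lit 4394846), (nat_lit 1086659), [(nat_lit 560994000), (nat_lit 801306000), (nat_lit 934800000)], [], [(nat_lit 5025520894), (nat_lit 4794149922), (nat_lit 3593448103), (nat_lit 3524475336), (nat_lit 3654477600), (nat_lit 3588356070), (nat_lit 3885721500), (nat_lit 4081181900)], (nat_lit 936250), (nat_lit 1100000), (nat_lit 169688), (nat_lit 2079063), (nat_lit 54688), (nat_lit 1100000), [(nat_lit 1977501), (nat_lit 1271251), (nat_lit 1271251)], [(nat_lit 32), (nat_lit 67), (nat_lit 401), (nat_lit 175), (nat_lit 9)]⟩⟩) (.dle (nat_lit 0))) (.trZ (nat_lit 0) (nat_lit 1) (nat_lit 3) (nat_lit 76) (nat_lit 60) (nat_lit 100)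 (nat_lit 210) (.leaf ⟨(nat_lit 0), (nat_lit 925), (nat_lit 0), (nat_lit 75), (nat_lit 11384), (nat_lit 6431), (nat_lit 5565), (nat_lit 890), (nat_lit 0), (nat_lit 0), (nat_lit 0), [], Pd.none, Pd.none, (nat_lit 0), (nat_lit 1), (nat_lit 0), (nat_lit 0), (nat_lit 3), (nat_lit 0), [⟨(nat_lit 0), (nat_lit 75), (nat_lit 46), (nat_lit 100), (nat_lit 270656993)⟩], [⟨(nat_lit 1), (nat_lit 99), (nat_lit 54), (nat_lit 100), (nat_lit 54442620)⟩], [], [],
 ⟨⟨[(nat_lit 40), (nat_lit 100), (nat_lit 140)], [(nat_lit 0), (nat_lit 2396), (nat_lit 4896)], [((nat_lit 0), (nat_lit 0), (nat_lit 0)), ((nat_lit 1000), (nat_lit 625), (nat_lit 623)), ((nat_lit 1000), (nat_lit 625), (nat_lit 975))], ((nat_lit 62), (nat_lit 95), (nat_lit 100))⟩, (nat_lit 729361), (nat_lit 291), (nat_lit 291), (nat_lit 0), (nat_lit 183396), [(nat_lit 2436230319), (nat_lit 6379710403), (nat_lit 9842000000)], [], [(nat_lit 32056983716), (nat_lit 33468323844), (nat_lit 40485079450), (nat_lit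 41493139281), (nat_lit 31310266782), (nat_lit 32429263861), (nat_lit 36862893224), (nat_lit 37543204556)], (nat_lit 1271251), (nat_lit 1271251), (nat_lit 1271251), (nat_lit 1271251), (nat_lit 169688), (nat_lit 2079063), [(nat_lit 490000), (nat_lit 1427501), (nat_lit 1271251)], [(nat_lit 5), (nat_lit 55), (nat_lit 401), (nat_lit 175), (nat_lit 11)]⟩,
 ⟨⟨[(nat_lit 40), (nat_lit 100), (nat_lit 160)], [(nat_lit 0), (nat_lit 592), (nat_lit 4992)], [((nat_lit 0), (nat_lit 0), (nat_lit 0)), ((nat_lit 1000), (nat_lit 908), (nat_lit 154)), ((nat_lit 873), (nat_lit 792), (nat_lit 1000))], ((nat_lit 78), (nat_lit 84), (nat_lit 100))⟩, (nat_lit 1808464), (nat_lit 352), (nat_lit 352), (nat_lit 0), (nat_lit 230352), [(nat_lit 2032000000), (nat_lit 6250000000), (nat_lit 11872000000)], [], [(nat_lit 30662078623), (nat_lit 31227595801), (nat_lit 37246852941), (nat_lit 37601878200), (nat_lit 27637062993), (nat_lit 28122359152), (nat_lit 33534198252), (nat_lit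 33930012099)], (nat_lit 1271251), (nat_lit 1271251), (nat_lit 1271251), (nat_lit 1271251), (nat_lit 54688), (nat_lit 1100000), [(nat_lit 490000), (nat_lit 1427501), (nat_lit 1271251)], [(nat_lit 6), (nat_lit 56), (nat_lit 373), (nat_lit 150), (nat_lit 9)]⟩,
 ⟨⟨[(nat_lit 140), (nat_lit 180), (nat_lit 200)], [(nat_lit 0), (nat_lit 608), (nat_lit 3317)], [((nat_lit 0), (nat_lit 0), (nat_lit 0)), ((nat_lit 913), (nat_lit 1000), (nat_lit 217)), ((nat_lit 385), (nat_lit 1000), (nat_lit 814))], ((nat_lit 0), (nat_lit 0), (nat_lit 0))⟩, (nat_lit 22147), (nat_lit 300), (nat_lit 1217), (nat_lit 5782693), (nat_lit 1440302), [(nat_lit 738150000), (nat_lit 1054350000), (nat_lit 1230000000)], [], [(nat_lit 6124134973), (nat_lit 5885203373), (nat_lit 4989266868), (nat_lit 4912990985), (nat_lit 5139009947), (nat_lit 5064905663), (nat_lit 4902765083), (nat_lit 5127804590)], (nat_lit 936250), (nat_lit 1100000), (nat_lit 169688), (nat_lit 2079063), (nat_lit 54688),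 (nat_lit 1100000), [(nat_lit 1977501), (nat_lit 1271251), (nat_lit 1271251)], [(nat_lit 32), (nat_lit 67), (nat_lit 401), (nat_lit 175), (nat_lit 9)]⟩⟩))) (.stt (nat_lit 2) (.leaf ⟨(nat_lit 0), (nat_lit 849), (nat_lit 0), (nat_lit 151), (nat_lit 0), (nat_lit 4697), (nat_lit 9091), (nat_lit 1546), (nat_lit 0), (nat_lit 0), (nat_lit 0), [], Pd.none, Pd.none, (nat_lit 0), (nat_lit 1), (nat_lit 0), (nat_lit 0), (nat_lit 4), (nat_lit 0), [], [⟨(nat_lit 1), (nat_lit 99), (nat_lit 54), (nat_lit 100), (nat_lit 35371191)⟩], [⟨(nat_lit 1), (nat_lit 85), (nat_lit 78), (nat_lit 100), (nat_lit 267303239)⟩], [],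
 ⟨⟨[(nat_lit 40), (nat_lit 100), (nat_lit 140)], [(nat_lit 0), (nat_lit 2396), (nat_lit 4896)], [((nat_lit 0), (nat_lit 0), (nat_lit 0)), ((nat_lit 1000), (nat_lit 625), (nat_lit 623)), ((nat_lit 1000), (nat_lit 625), (nat_lit 975))], ((nat_lit 62), (nat_lit 95), (nat_lit 100))⟩, (nat_lit 1582357), (nat_lit 291), (nat_lit 291), (nat_lit 0), (nat_lit 183396), [(nat_lit 2032000067), (nat_lit 6250000027), (nat_lit 9842000000)], [], [(nat_lit 26991210104), (nat_lit 28140324136), (nat_lit 35423532218), (nat_lit 36668974048), (nat_lit 27886188576), (nat_lit 28866972877), (nat_lit 34153559382), (nat_lit 35028082499)], (nat_lit 1271251), (nat_lit 1271251), (nat_lit 1271251), (nat_lit 1271251), (nat_lit 169688), (nat_lit 2079063), [(nat_lit 490000), (nat_lit 1427501), (nat_lit 1271251)], [(nat_lit 5), (nat_lit 55), (nat_lit 401), (nat_lit 175), (nat_lit 11)]⟩,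
 ⟨⟨[(nat_lit 40), (nat_lit 120), (nat_lit 180)], [(nat_lit 0), (nat_lit 0), (nat_lit 6400)], [((nat_lit 0), (nat_lit 0), (nat_lit 0)), ((nat_lit 0), (nat_lit 0), (nat_lit 0)), ((nat_lit 600), (nat_lit 800), (nat_lit 1000))], ((nat_lit 82), (nat_lit 80), (nat_lit 100))⟩, (nat_lit 0), (nat_lit 111), (nat_lit 111), (nat_lit 0), (nat_lit 0), [(nat_lit 2032000000), (nat_lit 7968000000), (nat_lit 14058000000)], [], [(nat_lit 22554043322), (nat_lit 24595123406), (nat_lit 35334385884), (nat_lit 36922580462), (nat_lit 30236733328), (nat_lit 31556230683), (nat_lit 39606060715), (nat_lit 40618253372)], (nat_lit 0), (nat_lit 0), (nat_lit 0), (nat_lit 0), (nat_lit 0), (nat_lit 0), [], [(nat_lit 7), (nat_lit 60), (nat_lit 538), (nat_lit 300), (nat_lit 12)]⟩,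
 ⟨⟨[(nat_lit 140), (nat_lit 180), (nat_lit 200)], [(nat_lit 0), (nat_lit 608), (nat_lit 3317)], [((nat_lit 0), (nat_lit 0), (nat_lit 0)), ((nat_lit 913), (nat_lit 1000), (nat_lit 217)), ((nat_lit 385), (nat_lit 1000), (nat_lit 814))], ((nat_lit 0), (nat_lit 0), (nat_lit 0))⟩, (nat_lit 44589), (nat_lit 300), (nat_lit 1109), (nat_lit 11642492), (nat_lit 1440302), [(nat_lit 1486142000), (nat_lit 2122758000), (nat_lit 2476400000)], [], [(nat_lit 11507348567), (nat_lit 11359794425), (nat_lit 9929835331), (nat_lit 9809342345), (nat_lit 10790553996), (nat_lit 10665329532), (nat_lit 9212889050), (nat_lit 9091292949)], (nat_lit 936250), (nat_lit 1100000), (nat_lit 169688), (nat_lit 2079063), (nat_lit 1100000), (nat_lit 2641251), [(nat_lit 1977501), (nat_lit 1271251), (nat_lit 1271251)], [(nat_lit 32), (nat_lit 67), (nat_lit 428), (nat_lit 200), (nat_lit 9)]⟩⟩) (.spl (nat_lit 0) (nat_lit 370) (.spl (nat_lit 6) (nat_lit 136) (.leaf ⟨(nat_lit 0), (nat_lit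 714), (nat_lit 0), (nat_lit 286), (nat_lit 1917), (nat_lit 4033), (nat_lit 9184), (nat_lit 2778), (nat_lit 0), (nat_lit 0), (nat_lit 0), [], Pd.none, Pd.none, (nat_lit 0), (nat_lit 1), (nat_lit 0), (nat_lit 0), (nat_lit 4), (nat_lit 0), [], [], [⟨(nat_lit 1), (nat_lit 85), (nat_lit 78), (nat_lit 100), (nat_lit 83255869)⟩], [⟨(nat_lit 1), (nat_lit 100), (nat_lit 89), (nat_lit 72), (nat_lit 19358423)⟩],
 ⟨⟨[(nat_lit 40), (nat_lit 100), (nat_lit 140)], [(nat_lit 0), (nat_lit 2396), (nat_lit 4896)], [((nat_lit 0), (nat_lit 0), (nat_lit 0)), ((nat_lit 1000), (nat_lit 625), (nat_lit 623)), ((nat_lit 1000), (nat_lit 625), (nat_lit 975))], ((nat_lit 63), (nat_lit 100), (nat_lit 100))⟩, (nat_lit 2090771), (nat_lit 229), (nat_lit 229), (nat_lit 0), (nat_lit 77700), [(nat_lit 2032000001), (nat_lit 6250000002), (nat_lit 9842000000)], [], [(nat_lit 24104496606), (nat_lit 24609822377), (nat_lit 33660986880), (nat_lit 34241371446), (nat_lit 26532241432), (nat_lit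 26981307444), (nat_lit 33289469954), (nat_lit 33703327422)], (nat_lit 1271251), (nat_lit 1271251), (nat_lit 1271251), (nat_lit 1271251), (nat_lit 169688), (nat_lit 2079063), [(nat_lit 490000), (nat_lit 1427501), (nat_lit 1271251)], [(nat_lit 5), (nat_lit 55), (nat_lit 401), (nat_lit 175), (nat_lit 11)]⟩,
 ⟨⟨[(nat_lit 40), (nat_lit 100), (nat_lit 160)], [(nat_lit 0), (nat_lit 0), (nat_lit 4607)], [((nat_lit 0), (nat_lit 0), (nat_lit 0)), ((nat_lit 0), (nat_lit 0), (nat_lit 0)), ((nat_lit 846), (nat_lit 837), (nat_lit 1000))], ((nat_lit 84), (nat_lit 87), (nat_lit 100))⟩, (nat_lit 931722), (nat_lit 200), (nat_lit 200), (nat_lit 0), (nat_lit 155043), [(nat_lit 2032000000), (nat_lit 6250000000), (nat_lit 11872000000)], [], [(nat_lit 27177781802), (nat_lit 28838379494), (nat_lit 36330971338), (nat_lit 37262662602), (nat_lit 32674417806), (nat_lit 33744138719), (nat_lit 39722391160), (nat_lit 40739626928)], (nat_lit 1271251), (nat_lit 1271251), (nat_lit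 1271251), (nat_lit 1271251), (nat_lit 1100000), (nat_lit 2641251), [(nat_lit 490000), (nat_lit 1427501), (nat_lit 1271251)], [(nat_lit 6), (nat_lit 56), (nat_lit 428), (nat_lit 200), (nat_lit 10)]⟩,
 ⟨⟨[(nat_lit 140), (nat_lit 180), (nat_lit 200)], [(nat_lit 0), (nat_lit 608), (nat_lit 3317)], [((nat_lit 0), (nat_lit 0), (nat_lit 0)), ((nat_lit 913), (nat_lit 1000), (nat_lit 217)), ((nat_lit 385), (nat_lit 1000), (nat_lit 814))], ((nat_lit 0), (nat_lit 0), (nat_lit 0))⟩, (nat_lit 84454), (nat_lit 300), (nat_lit 726), (nat_lit 22051334), (nat_lit 610295), [(nat_lit 2814812000), (nat_lit 4020588000), (nat_lit 4690400000)], [], [(nat_lit 21115247155), (nat_lit 20366175832), (nat_lit 17986879965), (nat_lit 17779393396), (nat_lit 19886179852), (nat_lit 19664348779), (nat_lit 17119453199), (nat_lit 16904818876)], (nat_lit 936250), (nat_lit 1100000), (nat_lit 169688), (nat_lit 2079063), (nat_lit 1100000), (nat_lit 2641251), [(nat_lit 1977501), (nat_lit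 1271251), (nat_lit 1271251)], [(nat_lit 32), (nat_lit 67), (nat_lit 428), (nat_lit 200), (nat_lit 9)]⟩⟩) (.dle (nat_lit 0))) (.trZ (nat_lit 0) (nat_lit 1) (nat_lit 3) (nat_lit 80) (nat_lit 53) (nat_lit 100) (nat_lit 210) (.trZ (nat_lit 0) (nat_lit 2) (nat_lit 4) (nat_lit 100) (nat_lit 55) (nat_lit 68) (nat_lit 40) (.trX (nat_lit 4) (nat_lit 0) (nat_lit 2) (nat_lit 54) (nat_lit 96) (nat_lit 100) (nat_lit 270) (.leaf ⟨(nat_lit 0), (nat_lit 753), (nat_lit 0), (nat_lit 247), (nat_lit 1518), (nat_lit 4029), (nat_lit 8635), (nat_lit 2572), (nat_lit 0), (nat_lit 0), (nat_lit 0), [], Pd.none, Pd.none, (nat_lit 0), (nat_lit 1), (nat_lit 0), (nat_lit 0), (nat_lit 4), (nat_lit 0), [], [], [⟨(nat_lit 1), (nat_lit 85), (nat_lit 78), (nat_lit 100), (nat_lit 62311330)⟩], [],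
 ⟨⟨[(nat_lit 40), (nat_lit 100), (nat_lit 140)], [(nat_lit 0), (nat_lit 2998), (nat_lit 5352)], [((nat_lit 0), (nat_lit 0), (nat_lit 0)), ((nat_lit 1000), (nat_lit 532), (nat_lit 779)), ((nat_lit 1000), (nat_lit 531), (nat_lit 919))], ((nat_lit 54), (nat_lit 98), (nat_lit 100))⟩, (nat_lit 1639161), (nat_lit 234), (nat_lit 234), (nat_lit 0), (nat_lit 111471), [(nat_lit 2032000011), (nat_lit 6250000040), (nat_lit 9842000000)], [], [(nat_lit 26144900925), (nat_lit 26644010156), (nat_lit 33812713296), (nat_lit 34390359571), (nat_lit 27603950840), (nat_lit 28027262269), (nat_lit 33205826518), (nat_lit 33637124911)], (nat_lit 1271251), (nat_lit 1271251), (nat_lit 1271251), (nat_lit 1271251), (nat_lit 230000), (nat_lit 1940626), [(nat_lit 490000), (nat_lit 1427501), (nat_lit 1271251)], [(nat_lit 5), (nat_lit 55), (nat_lit 401), (nat_lit 175), (nat_lit 11)]⟩,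
 ⟨⟨[(nat_lit 40), (nat_lit 120), (nat_lit 180)], [(nat_lit 0), (nat_lit 0), (nat_lit 6400)], [((nat_lit 0), (nat_lit 0), (nat_lit 0)), ((nat_lit 0), (nat_lit 0), (nat_lit 0)), ((nat_lit 600), (nat_lit 800), (nat_lit 1000))], ((nat_lit 82), (nat_lit 80), (nat_lit 100))⟩, (nat_lit 1468996), (nat_lit 254), (nat_lit 254), (nat_lit 0), (nat_lit 233163), [(nat_lit 2032000000), (nat_lit 7968000000), (nat_lit 14058000000)], [], [(nat_lit 29253636068), (nat_lit 30242480969), (nat_lit 35154979780), (nat_lit 36298279070), (nat_lit 31916148924), (nat_lit 32811931298), (nat_lit 39035666275), (nat_lit 40023131420)], (nat_lit 1271251), (nat_lit 1271251), (nat_lit 1271251), (nat_lit 1271251), (nat_lit 1100000), (nat_lit 2641251), [(nat_lit 490000), (nat_lit 1740001), (nat_lit 1271251)], [(nat_lit 7), (nat_lit 60), (nat_lit 538), (nat_lit 300), (nat_lit 12)]⟩,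
 ⟨⟨[(nat_lit 140), (nat_lit 180), (nat_lit 200)], [(nat_lit 0), (nat_lit 608), (nat_lit 3317)], [((nat_lit 0), (nat_lit 0), (nat_lit 0)), ((nat_lit 913), (nat_lit 1000), (nat_lit 217)), ((nat_lit 385), (nat_lit 1000), (nat_lit 814))], ((nat_lit 0), (nat_lit 0), (nat_lit 0))⟩, (nat_lit 72937), (nat_lit 300), (nat_lit 872), (nat_lit 19044340), (nat_lit 931028), [(nat_lit 2430974000), (nat_lit 3472326000), (nat_lit 4050800000)], [], [(nat_lit 18305854740), (nat_lit 17670268729), (nat_lit 15567338179), (nat_lit 15366242785), (nat_lit 16932790131), (nat_lit 16720891344), (nat_lit 14544127188), (nat_lit 14606510279)], (nat_lit 936250), (nat_lit 1100000), (nat_lit 230000), (nat_lit 1940626), (nat_lit 1100000), (nat_lit 2641251), [(nat_lit 1977501), (nat_lit 1271251), (nat_lit 1271251)], [(nat_lit 32), (nat_lit 67), (nat_lit 428), (nat_lit 200), (nat_lit 9)]⟩⟩))))))) (.dle (nat_lit 0)))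
noncomputable def c18_24 : Tr Lf :=
 (.trZ (nat_lit 0) (nat_lit 1) (nat_lit 3) (nat_lit 72) (nat_lit 61) (nat_lit 100) (nat_lit 220) (.trZ (nat_lit 1) (nat_lit 2) (nat_lit 5) (nat_lit 100) (nat_lit 75) (nat_lit 48) (nat_lit 20) (.trX (nat_lit 5) (nat_lit 1) (nat_lit 2) (nat_lit 73) (nat_lit 85) (nat_lit 100) (nat_lit 320) (.spl (nat_lit 6) (nat_lit 144) (.spl (nat_lit 4) (nat_lit 160) (.spl (nat_lit 3) (nat_lit 320) (.leaf ⟨(nat_lit 0), (nat_lit 911), (nat_lit 0), (nat_lit 89), (nat_lit 0), (nat_lit 8442), (nat_lit 6773), (nat_lit 1056), (nat_lit 0), (nat_lit 0), (nat_lit 0), [], Pd.none, Pd.none, (nat_lit 0), (nat_lit 1), (nat_lit 0), (nat_lit 0), (nat_lit 3), (nat_lit 0), [⟨(nat_lit 0), (nat_lit 69), (nat_lit 55), (nat_lit 100), (nat_lit 286316290)⟩], [⟨(nat_lit 0), (nat_lit 100), (nat_lit 54), (nat_lit 71), (nat_lit 123448106)⟩], [⟨(nat_lit 1), (nat_lit 92), (nat_lit 68), (nat_lit 100), (nat_lit 91160140)⟩], [],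
 ⟨⟨[(nat_lit 40), (nat_lit 100), (nat_lit 140)], [(nat_lit 0), (nat_lit 2396), (nat_lit 4896)], [((nat_lit 0), (nat_lit 0), (nat_lit 0)), ((nat_lit 1000), (nat_lit 625), (nat_lit 623)), ((nat_lit 1000), (nat_lit 625), (nat_lit 975))], ((nat_lit 63), (nat_lit 98), (nat_lit 100))⟩, (nat_lit 557598), (nat_lit 300), (nat_lit 310), (nat_lit 50800002), (nat_lit 278702), [(nat_lit 2032000005), (nat_lit 6379599993), (nat_lit 9842000000)], [], [(nat_lit 35465319790), (nat_lit 36686479203), (nat_lit 37869994648), (nat_lit 39596061151), (nat_lit 30582003118), (nat_lit 31627901260), (nat_lit 32473700269), (nat_lit 33327109978)], (nat_lit 1271251), (nat_lit 1271251), (nat_lit 1271251), (nat_lit 1271251), (nat_lit 169688), (nat_lit 1100000), [(nat_lit 490000), (nat_lit 1427501), (nat_lit 1271251)], [(nat_lit 5), (nat_lit 55), (nat_lit 345), (nat_lit 125), (nat_lit 9)]⟩,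
 ⟨⟨[(nat_lit 40), (nat_lit 100), (nat_lit 160)], [(nat_lit 0), (nat_lit 1192), (nat_lit 5376)], [((nat_lit 0), (nat_lit 0), (nat_lit 0)), ((nat_lit 1000), (nat_lit 814), (nat_lit 310)), ((nat_lit 919), (nat_lit 747), (nat_lit 1000))], ((nat_lit 74), (nat_lit 91), (nat_lit 100))⟩, (nat_lit 1620136), (nat_lit 370), (nat_lit 370), (nat_lit 0), (nat_lit 313407), [(nat_lit 2032000000), (nat_lit 6250000000), (nat_lit 11872000000)], [], [(nat_lit 30333350712), (nat_lit 31874483526), (nat_lit 34055566304), (nat_lit 35265417910), (nat_lit 29483086889), (nat_lit 30423438719), (nat_lit 32091633460), (nat_lit 33315941812)], (nat_lit 1271251), (nat_lit 1271251), (nat_lit 1271251), (nat_lit 1271251), (nat_lit 111251), (nat_lit 2286250), [(nat_lit 490000), (nat_lit 1427501), (nat_lit 1271251)], [(nat_lit 6), (nat_lit 56), (nat_lit 401), (nat_lit 175), (nat_lit 10)]⟩,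
 ⟨⟨[(nat_lit 140), (nat_lit 180), (nat_lit 200)], [(nat_lit 0), (nat_lit 608), (nat_lit 3317)], [((nat_lit 0), (nat_lit 0), (nat_lit 0)), ((nat_lit 913), (nat_lit 1000), (nat_lit 217)), ((nat_lit 385), (nat_lit 1000), (nat_lit 814))], ((nat_lit 0), (nat_lit 0), (nat_lit 0))⟩, (nat_lit 26281), (nat_lit 300), (nat_lit 1541), (nat_lit 6862130), (nat_lit 2200773), [(nat_lit 875938000), (nat_lit 1251162000), (nat_lit 1459600000)], [], [(nat_lit 7078131962), (nat_lit 6901457271), (nat_lit 6176406752), (nat_lit 6088025865), (nat_lit 5718164681), (nat_lit 5627920417), (nat_lit 6039931584), (nat_lit 6311741336)], (nat_lit 936250), (nat_lit 1100000), (nat_lit 169688), (nat_lit 1100000), (nat_lit 111251), (nat_lit 2286250), [(nat_lit 1977501), (nat_lit 1271251), (nat_lit 1271251)], [(nat_lit 32), (nat_lit 67), (nat_lit 466), (nat_lit 175), (nat_lit 10)]⟩⟩) (.leaf ⟨(nat_lit 0), (nat_lit 915), (nat_lit 0), (nat_lit 85), (nat_lit 0), (nat_lit 7402), (nat_lit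 5650), (nat_lit 927), (nat_lit 0), (nat_lit 0), (nat_lit 0), [], Pd.none, Pd.none, (nat_lit 0), (nat_lit 1), (nat_lit 0), (nat_lit 0), (nat_lit 3), (nat_lit 0), [], [], [⟨(nat_lit 1), (nat_lit 92), (nat_lit 68), (nat_lit 100), (nat_lit 879728)⟩], [⟨(nat_lit 1), (nat_lit 100), (nat_lit 60), (nat_lit 85), (nat_lit 129563024)⟩],
 ⟨⟨[(nat_lit 40), (nat_lit 100), (nat_lit 140)], [(nat_lit 0), (nat_lit 2396), (nat_lit 4896)], [((nat_lit 0), (nat_lit 0), (nat_lit 0)), ((nat_lit 1000), (nat_lit 625), (nat_lit 623)), ((nat_lit 1000), (nat_lit 625), (nat_lit 975))], ((nat_lit 63), (nat_lit 98), (nat_lit 100))⟩, (nat_lit 557598), (nat_lit 300), (nat_lit 319), (nat_lit 50800002), (nat_lit 278702), [(nat_lit 2032000001), (nat_lit 6378561006), (nat_lit 9842000000)], [], [(nat_lit 38882837496), (nat_lit 39776755740), (nat_lit 42603780922), (nat_lit 44194161985), (nat_lit 34473176813), (nat_lit 35244229716), (nat_lit 37206857853), (nat_lit 37802645470)], (nat_lit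 1271251), (nat_lit 1271251), (nat_lit 1271251), (nat_lit 1271251), (nat_lit 169688), (nat_lit 1100000), [(nat_lit 490000), (nat_lit 1427501), (nat_lit 1271251)], [(nat_lit 5), (nat_lit 55), (nat_lit 249), (nat_lit 40), (nat_lit 6)]⟩,
 ⟨⟨[(nat_lit 40), (nat_lit 100), (nat_lit 160)], [(nat_lit 0), (nat_lit 1192), (nat_lit 5376)], [((nat_lit 0), (nat_lit 0), (nat_lit 0)), ((nat_lit 1000), (nat_lit 814), (nat_lit 310)), ((nat_lit 919), (nat_lit 747), (nat_lit 1000))], ((nat_lit 74), (nat_lit 91), (nat_lit 100))⟩, (nat_lit 1571723), (nat_lit 371), (nat_lit 371), (nat_lit 0), (nat_lit 313407), [(nat_lit 2032000000), (nat_lit 6250000000), (nat_lit 11872000000)], [], [(nat_lit 34095939070), (nat_lit 34811837420), (nat_lit 37721212002), (nat_lit 38586283952), (nat_lit 32531826320), (nat_lit 32981529120), (nat_lit 35301834250), (nat_lit 36175358700)], (nat_lit 1271251), (nat_lit 1271251), (nat_lit 1271251), (nat_lit 1271251), (nat_lit 111251), (nat_lit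 2286250), [(nat_lit 490000), (nat_lit 1427501), (nat_lit 1271251)], [(nat_lit 6), (nat_lit 56), (nat_lit 317), (nat_lit 100), (nat_lit 7)]⟩,
 ⟨⟨[(nat_lit 140), (nat_lit 180), (nat_lit 200)], [(nat_lit 0), (nat_lit 608), (nat_lit 3317)], [((nat_lit 0), (nat_lit 0), (nat_lit 0)), ((nat_lit 913), (nat_lit 1000), (nat_lit 217)), ((nat_lit 385), (nat_lit 1000), (nat_lit 814))], ((nat_lit 0), (nat_lit 0), (nat_lit 0))⟩, (nat_lit 25100), (nat_lit 300), (nat_lit 1541), (nat_lit 6553718), (nat_lit 2200773), [(nat_lit 836570000), (nat_lit 1194930000), (nat_lit 1394000000)], [], [(nat_lit 6900709848), (nat_lit 6821026342), (nat_lit 6269090895), (nat_lit 6195155236), (nat_lit 5786691824), (nat_lit 5709460840), (nat_lit 5651713584), (nat_lit 5894820568)], (nat_lit 936250), (nat_lit 1100000), (nat_lit 169688), (nat_lit 1100000), (nat_lit 111251), (nat_lit 2286250), [(nat_lit 1977501), (nat_lit 1271251), (nat_lit 1271251)], [(nat_lit 32), (nat_lit 67), (nat_lit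 466), (nat_lit 175), (nat_lit 10)]⟩⟩)) (.spl (nat_lit 4) (nat_lit 240) (.leaf ⟨(nat_lit 0), (nat_lit 900), (nat_lit 0), (nat_lit 100), (nat_lit 0), (nat_lit 7441), (nat_lit 6099), (nat_lit 926), (nat_lit 0), (nat_lit 0), (nat_lit 0), [], Pd.none, Pd.none, (nat_lit 0), (nat_lit 1), (nat_lit 0), (nat_lit 0), (nat_lit 4), (nat_lit 0), [⟨(nat_lit 0), (nat_lit 69), (nat_lit 55), (nat_lit 100), (nat_lit 125649655)⟩], [], [⟨(nat_lit 1), (nat_lit 92), (nat_lit 68), (nat_lit 100), (nat_lit 76683427)⟩], [],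
 ⟨⟨[(nat_lit 40), (nat_lit 100), (nat_lit 140)], [(nat_lit 0), (nat_lit 2396), (nat_lit 4896)], [((nat_lit 0), (nat_lit 0), (nat_lit 0)), ((nat_lit 1000), (nat_lit 625), (nat_lit 623)), ((nat_lit 1000), (nat_lit 625), (nat_lit 975))], ((nat_lit 63), (nat_lit 98), (nat_lit 100))⟩, (nat_lit 516044), (nat_lit 222), (nat_lit 222), (nat_lit 0), (nat_lit 278702), [(nat_lit 2773389475), (nat_lit 6498294889), (nat_lit 9842000000)], [], [(nat_lit 29230328975), (nat_lit 30638663368), (nat_lit 36925943654), (nat_lit 37871984311), (nat_lit 30222470625), (nat_lit 31559436528), (nat_lit 36790107762), (nat_lit 37600434961)], (nat_lit 1271251), (nat_lit 1271251), (nat_lit 1271251), (nat_lit 1271251), (nat_lit 1100000), (nat_lit 1785001), [(nat_lit 490000), (nat_lit 1427501), (nat_lit 1271251)], [(nat_lit 5), (nat_lit 55), (nat_lit 401), (nat_lit 175), (nat_lit 10)]⟩,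
 ⟨⟨[(nat_lit 40), (nat_lit 100), (nat_lit 160)], [(nat_lit 0), (nat_lit 1192), (nat_lit 5376)], [((nat_lit 0), (nat_lit 0), (nat_lit 0)), ((nat_lit 1000), (nat_lit 814), (nat_lit 310)), ((nat_lit 919), (nat_lit 747), (nat_lit 1000))], ((nat_lit 74), (nat_lit 91), (nat_lit 100))⟩, (nat_lit 1569134), (nat_lit 371), (nat_lit 371), (nat_lit 0), (nat_lit 313407), [(nat_lit 2032000000), (nat_lit 6250000000), (nat_lit 11872000000)], [], [(nat_lit 31059328297), (nat_lit 31976545087), (nat_lit 38407266176), (nat_lit 39837705828), (nat_lit 30094056883), (nat_lit 30991398481), (nat_lit 35863472635), (nat_lit 36764373962)], (nat_lit 1271251), (nat_lit 1271251), (nat_lit 1271251), (nat_lit 1271251), (nat_lit 111251), (nat_lit 2286250), [(nat_lit 490000), (nat_lit 1427501), (nat_lit 1271251)], [(nat_lit 6), (nat_lit 56), (nat_lit 428), (nat_lit 200), (nat_lit 10)]⟩,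
 ⟨⟨[(nat_lit 140), (nat_lit 180), (nat_lit 200)], [(nat_lit 0), (nat_lit 608), (nat_lit 3317)], [((nat_lit 0), (nat_lit 0), (nat_lit 0)), ((nat_lit 913), (nat_lit 1000), (nat_lit 217)), ((nat_lit 385), (nat_lit 1000), (nat_lit 814))], ((nat_lit 0), (nat_lit 0), (nat_lit 0))⟩, (nat_lit 29529), (nat_lit 300), (nat_lit 1463), (nat_lit 7710262), (nat_lit 2200773), [(nat_lit 984200000), (nat_lit 1405800000), (nat_lit 1640000000)], [], [(nat_lit 8803757604), (nat_lit 8733454609), (nat_lit 8569357881), (nat_lit 8499352306), (nat_lit 7799596496), (nat_lit 7731376956), (nat_lit 7568805852), (nat_lit 7832149456)], (nat_lit 936250), (nat_lit 1100000), (nat_lit 1100000), (nat_lit 1785001), (nat_lit 111251), (nat_lit 2286250), [(nat_lit 1977501), (nat_lit 1271251), (nat_lit 1271251)], [(nat_lit 32), (nat_lit 67), (nat_lit 456), (nat_lit 200), (nat_lit 10)]⟩⟩) (.leaf ⟨(nat_lit 0), (nat_lit 892), (nat_lit 0), (nat_lit 108), (nat_lit 0), (nat_lit 8438), (nat_lit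 5947), (nat_lit 1189), (nat_lit 0), (nat_lit 0), (nat_lit 0), [], Pd.none, Pd.none, (nat_lit 0), (nat_lit 1), (nat_lit 0), (nat_lit 0), (nat_lit 6), (nat_lit 0), [⟨(nat_lit 0), (nat_lit 69), (nat_lit 55), (nat_lit 100), (nat_lit 3626639)⟩], [⟨(nat_lit 1), (nat_lit 99), (nat_lit 54), (nat_lit 100), (nat_lit 524807445)⟩], [⟨(nat_lit 1), (nat_lit 92), (nat_lit 68), (nat_lit 100), (nat_lit 56755755)⟩], [],
 ⟨⟨[(nat_lit 40), (nat_lit 100), (nat_lit 140)], [(nat_lit 0), (nat_lit 2396), (nat_lit 4896)], [((nat_lit 0), (nat_lit 0), (nat_lit 0)), ((nat_lit 1000), (nat_lit 625), (nat_lit 623)), ((nat_lit 1000), (nat_lit 625), (nat_lit 975))], ((nat_lit 63), (nat_lit 98), (nat_lit 100))⟩, (nat_lit 194385), (nat_lit 204), (nat_lit 204), (nat_lit 0), (nat_lit 278702), [(nat_lit 2816608791), (nat_lit 6830782298), (nat_lit 9842000000)], [], [(nat_lit 31205981422), (nat_lit 32645939917), (nat_lit 38068787388), (nat_lit 38966499790), (nat_lit 32974943534), (nat_lit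 34245939474), (nat_lit 39021870451), (nat_lit 40160112558)], (nat_lit 1271251), (nat_lit 1271251), (nat_lit 1271251), (nat_lit 1271251), (nat_lit 1271251), (nat_lit 1271251), [(nat_lit 490000), (nat_lit 1427501), (nat_lit 1271251)], [(nat_lit 5), (nat_lit 55), (nat_lit 401), (nat_lit 175), (nat_lit 10)]⟩,
 ⟨⟨[(nat_lit 40), (nat_lit 100), (nat_lit 160)], [(nat_lit 0), (nat_lit 1192), (nat_lit 5376)], [((nat_lit 0), (nat_lit 0), (nat_lit 0)), ((nat_lit 1000), (nat_lit 814), (nat_lit 310)), ((nat_lit 919), (nat_lit 747), (nat_lit 1000))], ((nat_lit 74), (nat_lit 91), (nat_lit 100))⟩, (nat_lit 1873489), (nat_lit 371), (nat_lit 371), (nat_lit 0), (nat_lit 313407), [(nat_lit 2032000000), (nat_lit 6250000000), (nat_lit 11872000000)], [], [(nat_lit 28987632964), (nat_lit 29968271755), (nat_lit 38002900614), (nat_lit 39413865608), (nat_lit 28533503611), (nat_lit 29421437481), (nat_lit 35673341155), (nat_lit 36564974586)], (nat_lit 1271251), (nat_lit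 1271251), (nat_lit 1271251), (nat_lit 1271251), (nat_lit 111251), (nat_lit 2286250), [(nat_lit 490000), (nat_lit 1427501), (nat_lit 1271251)], [(nat_lit 6), (nat_lit 56), (nat_lit 428), (nat_lit 200), (nat_lit 10)]⟩,
 ⟨⟨[(nat_lit 140), (nat_lit 180), (nat_lit 200)], [(nat_lit 0), (nat_lit 608), (nat_lit 3317)], [((nat_lit 0), (nat_lit 0), (nat_lit 0)), ((nat_lit 913), (nat_lit 1000), (nat_lit 217)), ((nat_lit 385), (nat_lit 1000), (nat_lit 814))], ((nat_lit 0), (nat_lit 0), (nat_lit 0))⟩, (nat_lit 31892), (nat_lit 300), (nat_lit 1426), (nat_lit 8327076), (nat_lit 2200773), [(nat_lit 1062936000), (nat_lit 1518264000), (nat_lit 1771200000)], [], [(nat_lit 7571600740), (nat_lit 7474587374), (nat_lit 7444827714), (nat_lit 7345597638), (nat_lit 6203386804), (nat_lit 6284097800), (nat_lit 6046321062), (nat_lit 5954673274)], (nat_lit 936250), (nat_lit 1100000), (nat_lit 1271251), (nat_lit 1271251), (nat_lit 111251), (nat_lit 2286250), [(nat_lit 1977501),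 (nat_lit 1271251), (nat_lit 1271251)], [(nat_lit 32), (nat_lit 67), (nat_lit 453), (nat_lit 200), (nat_lit 10)]⟩⟩))) (.spl (nat_lit 5) (nat_lit 160) (.spl (nat_lit 0) (nat_lit 370) (.spl (nat_lit 6) (nat_lit 164) (.leaf ⟨(nat_lit 0), (nat_lit 932), (nat_lit 0), (nat_lit 68), (nat_lit 38729), (nat_lit 4194), (nat_lit 5448), (nat_lit 764), (nat_lit 0), (nat_lit 0), (nat_lit 0), [], Pd.none, Pd.none, (nat_lit 0), (nat_lit 1), (nat_lit 0), (nat_lit 0), (nat_lit 3), (nat_lit 0), [⟨(nat_lit 0), (nat_lit 64), (nat_lit 57), (nat_lit 100), (nat_lit 202857272)⟩], [⟨(nat_lit 1), (nat_lit 97), (nat_lit 58), (nat_lit 100), (nat_lit 178445828)⟩], [], [],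
 ⟨⟨[(nat_lit 40), (nat_lit 100), (nat_lit 160)], [(nat_lit 0), (nat_lit 2396), (nat_lit 6144)], [((nat_lit 0), (nat_lit 0), (nat_lit 0)), ((nat_lit 1000), (nat_lit 625), (nat_lit 623)), ((nat_lit 1000), (nat_lit 625), (nat_lit 975))], ((nat_lit 61), (nat_lit 92), (nat_lit 100))⟩, (nat_lit 1759693), (nat_lit 246), (nat_lit 246), (nat_lit 0), (nat_lit 61499), [(nat_lit 2032000133), (nat_lit 6256127303), (nat_lit 11872000000)], [], [(nat_lit 27894722609), (nat_lit 28351359480), (nat_lit 34292431074), (nat_lit 34679350100), (nat_lit 28716074378), (nat_lit 29057250195), (nat_lit 33498985613), (nat_lit 33918517868)], (nat_lit 1271251), (nat_lit 1271251), (nat_lit 1271251), (nat_lit 1271251), (nat_lit 169688), (nat_lit 2079063), [(nat_lit 490000), (nat_lit 1427501), (nat_lit 1271251)], [(nat_lit 6), (nat_lit 56), (nat_lit 401), (nat_lit 175), (nat_lit 10)]⟩,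
 ⟨⟨[(nat_lit 40), (nat_lit 100), (nat_lit 160)], [(nat_lit 0), (nat_lit 1192), (nat_lit 5376)], [((nat_lit 0), (nat_lit 0), (nat_lit 0)), ((nat_lit 1000), (nat_lit 814), (nat_lit 310)), ((nat_lit 919), (nat_lit 747), (nat_lit 1000))], ((nat_lit 73), (nat_lit 85), (nat_lit 100))⟩, (nat_lit 1635684), (nat_lit 252), (nat_lit 252), (nat_lit 0), (nat_lit 65694), [(nat_lit 2032000000), (nat_lit 6250000000), (nat_lit 11872000000)], [], [(nat_lit 30454680396), (nat_lit 31546197231), (nat_lit 37169275648), (nat_lit 38022442780), (nat_lit 27808709468), (nat_lit 28753023384), (nat_lit 33128106968), (nat_lit 33871081456)], (nat_lit 1271251), (nat_lit 1271251), (nat_lit 1271251), (nat_lit 1271251), (nat_lit 111251), (nat_lit 1100000), [(nat_lit 490000), (nat_lit 1427501), (nat_lit 1271251)], [(nat_lit 6), (nat_lit 56), (nat_lit 373), (nat_lit 150), (nat_lit 9)]⟩,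
 ⟨⟨[(nat_lit 140), (nat_lit 180), (nat_lit 200)], [(nat_lit 0), (nat_lit 608), (nat_lit 3317)], [((nat_lit 0), (nat_lit 0), (nat_lit 0)), ((nat_lit 913), (nat_lit 1000), (nat_lit 217)), ((nat_lit 385), (nat_lit 1000), (nat_lit 814))], ((nat_lit 0), (nat_lit 0), (nat_lit 0))⟩, (nat_lit 20080), (nat_lit 300), (nat_lit 768), (nat_lit 5242975), (nat_lit 459827), [(nat_lit 669256000), (nat_lit 955944000), (nat_lit 1115200000)], [], [(nat_lit 5287620503), (nat_lit 5224058585), (nat_lit 4513429726), (nat_lit 4451122594), (nat_lit 4650147024), (nat_lit 4589496821), (nat_lit 4389728527), (nat_lit 4585278284)], (nat_lit 936250), (nat_lit 1100000), (nat_lit 169688), (nat_lit 2079063), (nat_lit 111251), (nat_lit 1100000), [(nat_lit 1977501), (nat_lit 1271251), (nat_lit 1271251)], [(nat_lit 32), (nat_lit 67), (nat_lit 401), (nat_lit 175), (nat_lit 9)]⟩⟩) (.dle (nat_lit 0))) (.trZ (nat_lit 0) (nat_lit 1) (nat_lit 3) (nat_lit 73) (nat_lit 54) (nat_lit 100)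 (nat_lit 240) (.trZ (nat_lit 0) (nat_lit 2) (nat_lit 4) (nat_lit 100) (nat_lit 55) (nat_lit 68) (nat_lit 40) (.trX (nat_lit 4) (nat_lit 0) (nat_lit 2) (nat_lit 54) (nat_lit 96) (nat_lit 100) (nat_lit 270) (.leaf ⟨(nat_lit 0), (nat_lit 936), (nat_lit 0), (nat_lit 64), (nat_lit 13944), (nat_lit 7573), (nat_lit 5906), (nat_lit 855), (nat_lit 0), (nat_lit 0), (nat_lit 0), [], Pd.none, Pd.none, (nat_lit 0), (nat_lit 1), (nat_lit 0), (nat_lit 0), (nat_lit 3), (nat_lit 0), [], [], [⟨(nat_lit 0), (nat_lit 100), (nat_lit 68), (nat_lit 58), (nat_lit 1114242)⟩], [],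
 ⟨⟨[(nat_lit 40), (nat_lit 100), (nat_lit 140)], [(nat_lit 0), (nat_lit 2998), (nat_lit 5352)], [((nat_lit 0), (nat_lit 0), (nat_lit 0)), ((nat_lit 1000), (nat_lit 532), (nat_lit 779)), ((nat_lit 1000), (nat_lit 531), (nat_lit 919))], ((nat_lit 54), (nat_lit 96), (nat_lit 100))⟩, (nat_lit 0), (nat_lit 234), (nat_lit 234), (nat_lit 0), (nat_lit 113385), [(nat_lit 2832847983), (nat_lit 6250000332), (nat_lit 9842000000)], [], [(nat_lit 36870520762), (nat_lit 37553621782), (nat_lit 44960122373), (nat_lit 45502553467), (nat_lit 34635726566), (nat_lit 35109042057), (nat_lit 40122000492), (nat_lit 40500775379)], (nat_lit 1271251), (nat_lit 1271251), (nat_lit 1271251), (nat_lit 1271251), (nat_lit 230000), (nat_lit 1940626), [(nat_lit 490000), (nat_lit 1427501), (nat_lit 1271251)], [(nat_lit 5), (nat_lit 55), (nat_lit 401), (nat_lit 175), (nat_lit 11)]⟩,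
 ⟨⟨[(nat_lit 40), (nat_lit 100), (nat_lit 160)], [(nat_lit 0), (nat_lit 1192), (nat_lit 5376)], [((nat_lit 0), (nat_lit 0), (nat_lit 0)), ((nat_lit 1000), (nat_lit 814), (nat_lit 310)), ((nat_lit 919), (nat_lit 747), (nat_lit 1000))], ((nat_lit 73), (nat_lit 85), (nat_lit 100))⟩, (nat_lit 1490836), (nat_lit 303), (nat_lit 303), (nat_lit 0), (nat_lit 129371), [(nat_lit 2032000000), (nat_lit 6250000000), (nat_lit 11872000000)], [], [(nat_lit 31378979735), (nat_lit 32472774578), (nat_lit 38419768418), (nat_lit 39300242096), (nat_lit 28268520170), (nat_lit 29212612652), (nat_lit 33853227118), (nat_lit 34627997244)], (nat_lit 1271251), (nat_lit 1271251), (nat_lit 1271251), (nat_lit 1271251), (nat_lit 111251), (nat_lit 1100000), [(nat_lit 490000), (nat_lit 1427501), (nat_lit 1271251)], [(nat_lit 6), (nat_lit 56), (nat_lit 373), (nat_lit 150), (nat_lit 9)]⟩,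
 ⟨⟨[(nat_lit 140), (nat_lit 180), (nat_lit 200)], [(nat_lit 0), (nat_lit 608), (nat_lit 3317)], [((nat_lit 0), (nat_lit 0), (nat_lit 0)), ((nat_lit 913), (nat_lit 1000), (nat_lit 217)), ((nat_lit 385), (nat_lit 1000), (nat_lit 814))], ((nat_lit 0), (nat_lit 0), (nat_lit 0))⟩, (nat_lit 18899), (nat_lit 300), (nat_lit 955), (nat_lit 4934564), (nat_lit 895697), [(nat_lit 629888000), (nat_lit 899712000), (nat_lit 1049600000)], [], [(nat_lit 5204877940), (nat_lit 4961001849), (nat_lit 4042839766), (nat_lit 3970395639), (nat_lit 4088792571), (nat_lit 4019548656), (nat_lit 4190458065), (nat_lit 4398789493)], (nat_lit 936250), (nat_lit 1100000), (nat_lit 230000), (nat_lit 1940626), (nat_lit 111251), (nat_lit 1100000), [(nat_lit 1977501), (nat_lit 1271251), (nat_lit 1271251)], [(nat_lit 32), (nat_lit 67), (nat_lit 373), (nat_lit 150), (nat_lit 8)]⟩⟩))))) (.spl (nat_lit 0) (nat_lit 370) (.spl (nat_lit 6) (nat_lit 164) (.leaf ⟨(nat_lit 0), (nat_lit 727),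 (nat_lit 0), (nat_lit 273), (nat_lit 16016), (nat_lit 4189), (nat_lit 11677), (nat_lit 1645), (nat_lit 0), (nat_lit 0), (nat_lit 0), [], Pd.none, Pd.none, (nat_lit 0), (nat_lit 1), (nat_lit 0), (nat_lit 0), (nat_lit 4), (nat_lit 0), [⟨(nat_lit 0), (nat_lit 64), (nat_lit 57), (nat_lit 100), (nat_lit 52212817)⟩], [], [⟨(nat_lit 1), (nat_lit 92), (nat_lit 68), (nat_lit 100), (nat_lit 108969763)⟩], [],
 ⟨⟨[(nat_lit 40), (nat_lit 100), (nat_lit 160)], [(nat_lit 0), (nat_lit 2396), (nat_lit 6144)], [((nat_lit 0), (nat_lit 0), (nat_lit 0)), ((nat_lit 1000), (nat_lit 625), (nat_lit 623)), ((nat_lit 1000), (nat_lit 625), (nat_lit 975))], ((nat_lit 61), (nat_lit 92), (nat_lit 100))⟩, (nat_lit 1761168), (nat_lit 246), (nat_lit 246), (nat_lit 0), (nat_lit 61499), [(nat_lit 2032000162), (nat_lit 6250001390), (nat_lit 11872000000)], [], [(nat_lit 27883371792), (nat_lit 28339209578), (nat_lit 34278471229), (nat_lit 34665409915), (nat_lit 28709325253), (nat_lit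 29057596422), (nat_lit 33492478916), (nat_lit 33911834935)], (nat_lit 1271251), (nat_lit 1271251), (nat_lit 1271251), (nat_lit 1271251), (nat_lit 169688), (nat_lit 2079063), [(nat_lit 490000), (nat_lit 1427501), (nat_lit 1271251)], [(nat_lit 6), (nat_lit 56), (nat_lit 401), (nat_lit 175), (nat_lit 10)]⟩,
 ⟨⟨[(nat_lit 40), (nat_lit 100), (nat_lit 160)], [(nat_lit 0), (nat_lit 1192), (nat_lit 5376)], [((nat_lit 0), (nat_lit 0), (nat_lit 0)), ((nat_lit 1000), (nat_lit 814), (nat_lit 310)), ((nat_lit 919), (nat_lit 747), (nat_lit 1000))], ((nat_lit 73), (nat_lit 85), (nat_lit 100))⟩, (nat_lit 6878), (nat_lit 176), (nat_lit 176), (nat_lit 0), (nat_lit 65694), [(nat_lit 2032000000), (nat_lit 6250000000), (nat_lit 11872000000)], [], [(nat_lit 32183048434), (nat_lit 34051413469), (nat_lit 41280195315), (nat_lit 42331434880), (nat_lit 35707272097), (nat_lit 36958831767), (nat_lit 42840797605), (nat_lit 44081806326)], (nat_lit 1271251), (nat_lit 1271251),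 (nat_lit 1271251), (nat_lit 1271251), (nat_lit 1100000), (nat_lit 2470001), [(nat_lit 490000), (nat_lit 1427501), (nat_lit 1271251)], [(nat_lit 6), (nat_lit 56), (nat_lit 428), (nat_lit 200), (nat_lit 10)]⟩,
 ⟨⟨[(nat_lit 140), (nat_lit 180), (nat_lit 200)], [(nat_lit 0), (nat_lit 608), (nat_lit 3317)], [((nat_lit 0), (nat_lit 0), (nat_lit 0)), ((nat_lit 913), (nat_lit 1000), (nat_lit 217)), ((nat_lit 385), (nat_lit 1000), (nat_lit 814))], ((nat_lit 0), (nat_lit 0), (nat_lit 0))⟩, (nat_lit 80615), (nat_lit 300), (nat_lit 660), (nat_lit 21049001), (nat_lit 459827), [(nat_lit 2686866000), (nat_lit 3837834000), (nat_lit 4477200000)], [], [(nat_lit 21170047687), (nat_lit 21078425047), (nat_lit 20044418472), (nat_lit 19950249853), (nat_lit 21088700036), (nat_lit 20987381140), (nat_lit 20431229716), (nat_lit 20972681265)], (nat_lit 936250), (nat_lit 1100000), (nat_lit 169688), (nat_lit 2079063), (nat_lit 1100000), (nat_lit 2470001), [(nat_lit 1977501),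 (nat_lit 1271251), (nat_lit 1271251)], [(nat_lit 32), (nat_lit 67), (nat_lit 428), (nat_lit 200), (nat_lit 9)]⟩⟩) (.dle (nat_lit 0))) (.trZ (nat_lit 0) (nat_lit 1) (nat_lit 3) (nat_lit 73) (nat_lit 54) (nat_lit 100) (nat_lit 240) (.trZ (nat_lit 0) (nat_lit 2) (nat_lit 4) (nat_lit 100) (nat_lit 55) (nat_lit 68) (nat_lit 40) (.trX (nat_lit 4) (nat_lit 0) (nat_lit 2) (nat_lit 54) (nat_lit 96) (nat_lit 100) (nat_lit 270) (.leaf ⟨(nat_lit 0), (nat_lit 807), (nat_lit 0), (nat_lit 193), (nat_lit 0), (nat_lit 4474), (nat_lit 11262), (nat_lit 2046), (nat_lit 0), (nat_lit 0), (nat_lit 0), [], Pd.none, Pd.none, (nat_lit 0), (nat_lit 1), (nat_lit 0), (nat_lit 0), (nat_lit 4), (nat_lit 0), [], [], [⟨(nat_lit 1), (nat_lit 92), (nat_lit 68), (nat_lit 100), (nat_lit 112739296)⟩], [],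
 ⟨⟨[(nat_lit 40), (nat_lit 100), (nat_lit 140)], [(nat_lit 0), (nat_lit 2998), (nat_lit 5352)], [((nat_lit 0), (nat_lit 0), (nat_lit 0)), ((nat_lit 1000), (nat_lit 532), (nat_lit 779)), ((nat_lit 1000), (nat_lit 531), (nat_lit 919))], ((nat_lit 54), (nat_lit 96), (nat_lit 100))⟩, (nat_lit 1333002), (nat_lit 234), (nat_lit 234), (nat_lit 0), (nat_lit 113385), [(nat_lit 2032000036), (nat_lit 6250000019), (nat_lit 9842000000)], [], [(nat_lit 28569619659), (nat_lit 29089279419), (nat_lit 35136918936), (nat_lit 35568436773), (nat_lit 29044861732), (nat_lit 29513053559), (nat_lit 33916504382), (nat_lit 34247301012)], (nat_lit 1271251), (nat_lit 1271251), (nat_lit 1271251), (nat_lit 1271251), (nat_lit 230000), (nat_lit 1940626), [(nat_lit 490000), (nat_lit 1427501), (nat_lit 1271251)], [(nat_lit 5), (nat_lit 55), (nat_lit 401), (nat_lit 175), (nat_lit 11)]⟩,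
 ⟨⟨[(nat_lit 40), (nat_lit 100), (nat_lit 160)], [(nat_lit 0), (nat_lit 1192), (nat_lit 5376)], [((nat_lit 0), (nat_lit 0), (nat_lit 0)), ((nat_lit 1000), (nat_lit 814), (nat_lit 310)), ((nat_lit 919), (nat_lit 747), (nat_lit 1000))], ((nat_lit 73), (nat_lit 85), (nat_lit 100))⟩, (nat_lit 0), (nat_lit 195), (nat_lit 195), (nat_lit 0), (nat_lit 129371), [(nat_lit 2032000000), (nat_lit 6250000000), (nat_lit 11872000000)], [], [(nat_lit 32685527530), (nat_lit 34428179644), (nat_lit 41356779458), (nat_lit 42387946660), (nat_lit 35885793870), (nat_lit 37055300956), (nat_lit 42321688630), (nat_lit 43537393556)], (nat_lit 1271251), (nat_lit 1271251), (nat_lit 1271251), (nat_lit 1271251), (nat_lit 1100000), (nat_lit 2470001), [(nat_lit 490000), (nat_lit 1427501), (nat_lit 1271251)], [(nat_lit 6), (nat_lit 56), (nat_lit 428), (nat_lit 200), (nat_lit 10)]⟩,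
 ⟨⟨[(nat_lit 140), (nat_lit 180), (nat_lit 200)], [(nat_lit 0), (nat_lit 608), (nat_lit 3317)], [((nat_lit 0), (nat_lit 0), (nat_lit 0)), ((nat_lit 913), (nat_lit 1000), (nat_lit 217)), ((nat_lit 385), (nat_lit 1000), (nat_lit 814))], ((nat_lit 0), (nat_lit 0), (nat_lit 0))⟩, (nat_lit 56992), (nat_lit 300), (nat_lit 857), (nat_lit 14880794), (nat_lit 895697), [(nat_lit 1899506000), (nat_lit 2713194000), (nat_lit 3165200000)], [], [(nat_lit 14458092950), (nat_lit 13661342976), (nat_lit 11979597758), (nat_lit 11818731312), (nat_lit 13112344332), (nat_lit 12943110322), (nat_lit 11205954485), (nat_lit 11040807270)], (nat_lit 936250), (nat_lit 1100000), (nat_lit 230000), (nat_lit 1940626), (nat_lit 1100000), (nat_lit 2470001), [(nat_lit 1977501), (nat_lit 1271251), (nat_lit 1271251)], [(nat_lit 32), (nat_lit 67), (nat_lit 428), (nat_lit 200), (nat_lit 9)]⟩⟩))))))))))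
noncomputable def c18_25 : Tr Lf :=
 (.trX (nat_lit 4) (nat_lit 0) (nat_lit 2) (nat_lit 63) (nat_lit 99) (nat_lit 100) (nat_lit 270) (.trX (nat_lit 5) (nat_lit 1) (nat_lit 2) (nat_lit 63) (nat_lit 99) (nat_lit 100) (nat_lit 270) (.spl (nat_lit 4) (nat_lit 160) (.leaf ⟨(nat_lit 0), (nat_lit 1000), (nat_lit 0), (nat_lit 0), (nat_lit 0), (nat_lit 7007), (nat_lit 7007), (nat_lit 0), (nat_lit 1119079419947), (nat_lit 0), (nat_lit 0), [], Pd.none, Pd.none, (nat_lit 0), (nat_lit 1), (nat_lit 0), (nat_lit 0), (nat_lit 3), (nat_lit 0), [⟨(nat_lit 0), (nat_lit 56), (nat_lit 56), (nat_lit 100), (nat_lit 148603361)⟩], [], [⟨(nat_lit 1), (nat_lit 100), (nat_lit 54), (nat_lit 96), (nat_lit 125866308)⟩], [],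
 ⟨⟨[(nat_lit 40), (nat_lit 100), (nat_lit 140)], [(nat_lit 0), (nat_lit 2396), (nat_lit 4896)], [((nat_lit 0), (nat_lit 0), (nat_lit 0)), ((nat_lit 1000), (nat_lit 625), (nat_lit 623)), ((nat_lit 1000), (nat_lit 625), (nat_lit 975))], ((nat_lit 63), (nat_lit 99), (nat_lit 100))⟩, (nat_lit 557598), (nat_lit 300), (nat_lit 387), (nat_lit 50800002), (nat_lit 468564), [(nat_lit 2032000064), (nat_lit 6370601203), (nat_lit 9842000000)], [], [(nat_lit 38318753294), (nat_lit 39154483903), (nat_lit 42943164371), (nat_lit 43916368567), (nat_lit 34293359671), (nat_lit 35006579147), (nat_lit 37915430025), (nat_lit 38502397924)], (nat_lit 1271251), (nat_lit 1271251), (nat_lit 1271251), (nat_lit 1271251), (nat_lit 111251), (nat_lit 1100000), [(nat_lit 490000), (nat_lit 1427501), (nat_lit 1271251)], [(nat_lit 5), (nat_lit 55), (nat_lit 373), (nat_lit 150), (nat_lit 10)]⟩,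
 ⟨⟨[(nat_lit 40), (nat_lit 100), (nat_lit 140)], [(nat_lit 0), (nat_lit 2396), (nat_lit 4896)], [((nat_lit 0), (nat_lit 0), (nat_lit 0)), ((nat_lit 1000), (nat_lit 625), (nat_lit 623)), ((nat_lit 1000), (nat_lit 625), (nat_lit 975))], ((nat_lit 63), (nat_lit 99), (nat_lit 100))⟩, (nat_lit 437724), (nat_lit 387), (nat_lit 387), (nat_lit 0), (nat_lit 468564), [(nat_lit 2032000000), (nat_lit 6250000000), (nat_lit 9842000000)], [], [(nat_lit 35297308316), (nat_lit 36776676028), (nat_lit 43107642454), (nat_lit 44163073627), (nat_lit 32449097158), (nat_lit 33510531087), (nat_lit 37780413627), (nat_lit 38516639846)], (nat_lit 1271251), (nat_lit 1271251), (nat_lit 1271251), (nat_lit 1271251), (nat_lit 111251), (nat_lit 1923751), [(nat_lit 490000), (nat_lit 1427501), (nat_lit 1271251)], [(nat_lit 5), (nat_lit 55), (nat_lit 401), (nat_lit 175), (nat_lit 11)]⟩,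
 Rw.none⟩) (.spl (nat_lit 1) (nat_lit 370) (.leaf ⟨(nat_lit 0), (nat_lit 1000), (nat_lit 0), (nat_lit 0), (nat_lit 0), (nat_lit 7662), (nat_lit 7226), (nat_lit 0), (nat_lit 198830), (nat_lit 0), (nat_lit 0), [], Pd.none, Pd.none, (nat_lit 0), (nat_lit 1), (nat_lit 0), (nat_lit 0), (nat_lit 4), (nat_lit 0), [], [⟨(nat_lit 1), (nat_lit 100), (nat_lit 54), (nat_lit 96), (nat_lit 445422259)⟩], [⟨(nat_lit 1), (nat_lit 100), (nat_lit 58), (nat_lit 97), (nat_lit 106212199)⟩], [],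
 ⟨⟨[(nat_lit 40), (nat_lit 100), (nat_lit 140)], [(nat_lit 0), (nat_lit 2396), (nat_lit 4896)], [((nat_lit 0), (nat_lit 0), (nat_lit 0)), ((nat_lit 1000), (nat_lit 625), (nat_lit 623)), ((nat_lit 1000), (nat_lit 625), (nat_lit 975))], ((nat_lit 63), (nat_lit 99), (nat_lit 100))⟩, (nat_lit 73143), (nat_lit 291), (nat_lit 291), (nat_lit 0), (nat_lit 411654), [(nat_lit 2523904041), (nat_lit 6344905009), (nat_lit 9842000000)], [], [(nat_lit 32492067410), (nat_lit 33655964333), (nat_lit 39078819268), (nat_lit 40037849642), (nat_lit 33786150233), (nat_lit 34973586559), (nat_lit 39356768819), (nat_lit 40117671590)], (nat_lit 1271251), (nat_lit 1271251), (nat_lit 1271251), (nat_lit 1271251), (nat_lit 1100000), (nat_lit 2041876), [(nat_lit 490000), (nat_lit 1427501), (nat_lit 1271251)], [(nat_lit 5), (nat_lit 55), (nat_lit 401), (nat_lit 175), (nat_lit 10)]⟩,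
 ⟨⟨[(nat_lit 40), (nat_lit 100), (nat_lit 140)], [(nat_lit 0), (nat_lit 2396), (nat_lit 4896)], [((nat_lit 0), (nat_lit 0), (nat_lit 0)), ((nat_lit 1000), (nat_lit 625), (nat_lit 623)), ((nat_lit 1000), (nat_lit 625), (nat_lit 975))], ((nat_lit 63), (nat_lit 99), (nat_lit 100))⟩, (nat_lit 349994), (nat_lit 372), (nat_lit 372), (nat_lit 0), (nat_lit 433289), [(nat_lit 2032000000), (nat_lit 6250000000), (nat_lit 9842000000)], [], [(nat_lit 35725082465), (nat_lit 36510954243), (nat_lit 43767780461), (nat_lit 44303484429), (nat_lit 32681803885), (nat_lit 33257111175), (nat_lit 38140182896), (nat_lit 38512421322)], (nat_lit 1271251), (nat_lit 1271251), (nat_lit 1271251), (nat_lit 1271251), (nat_lit 111251), (nat_lit 1923751), [(nat_lit 490000), (nat_lit 1427501), (nat_lit 1271251)], [(nat_lit 5), (nat_lit 55), (nat_lit 401), (nat_lit 175), (nat_lit 11)]⟩,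
 Rw.none⟩) (.ord (.trZ (nat_lit 0) (nat_lit 1) (nat_lit 3) (nat_lit 59) (nat_lit 59) (nat_lit 100) (nat_lit 280) (.trX (nat_lit 4) (nat_lit 0) (nat_lit 2) (nat_lit 54) (nat_lit 100) (nat_lit 98) (nat_lit 250) (.trZ (nat_lit 1) (nat_lit 2) (nat_lit 5) (nat_lit 100) (nat_lit 57) (nat_lit 62) (nat_lit 30) (.trX (nat_lit 5) (nat_lit 1) (nat_lit 2) (nat_lit 54) (nat_lit 100) (nat_lit 98) (nat_lit 250) (.leaf ⟨(nat_lit 0), (nat_lit 1000), (nat_lit 0), (nat_lit 0), (nat_lit 0), (nat_lit 7450), (nat_lit 6986), (nat_lit 0), (nat_lit 12564854788733), (nat_lit 0), (nat_lit 0), [], Pd.none, Pd.none, (nat_lit 0), (nat_lit 1), (nat_lit 0), (nat_lit 0), (nat_lit 4), (nat_lit 0), [⟨(nat_lit 0), (nat_lit 57), (nat_lit 57), (nat_lit 100), (nat_lit 110682352)⟩], [⟨(nat_lit 1), (nat_lit 100), (nat_lit 49), (nat_lit 95), (nat_lit 421793854)⟩], [⟨(nat_lit 1), (nat_lit 100), (nat_lit 49), (nat_lit 95), (nat_lit 68887033)⟩], [],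
 ⟨⟨[(nat_lit 40), (nat_lit 100), (nat_lit 140)], [(nat_lit 0), (nat_lit 2998), (nat_lit 5352)], [((nat_lit 0), (nat_lit 0), (nat_lit 0)), ((nat_lit 1000), (nat_lit 532), (nat_lit 779)), ((nat_lit 1000), (nat_lit 531), (nat_lit 919))], ((nat_lit 54), (nat_lit 100), (nat_lit 98))⟩, (nat_lit 510090), (nat_lit 300), (nat_lit 308), (nat_lit 50800001), (nat_lit 465487), [(nat_lit 2032000027), (nat_lit 6531869509), (nat_lit 9842000000)], [], [(nat_lit 33917389366), (nat_lit 34346282351), (nat_lit 37419182270), (nat_lit 37717611960), (nat_lit 34058717664), (nat_lit 34417256024), (nat_lit 37259962444), (nat_lit 37851137963)], (nat_lit 1271251), (nat_lit 1271251), (nat_lit 1271251), (nat_lit 1271251), (nat_lit 1100000), (nat_lit 1870626), [(nat_lit 490000), (nat_lit 1427501), (nat_lit 1271251)], [(nat_lit 5), (nat_lit 55), (nat_lit 289), (nat_lit 75), (nat_lit 7)]⟩,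
 ⟨⟨[(nat_lit 40), (nat_lit 100), (nat_lit 140)], [(nat_lit 0), (nat_lit 2998), (nat_lit 5352)], [((nat_lit 0), (nat_lit 0), (nat_lit 0)), ((nat_lit 1000), (nat_lit 532), (nat_lit 779)), ((nat_lit 1000), (nat_lit 531), (nat_lit 919))], ((nat_lit 54), (nat_lit 100), (nat_lit 98))⟩, (nat_lit 591967), (nat_lit 375), (nat_lit 375), (nat_lit 0), (nat_lit 465487), [(nat_lit 2032000000), (nat_lit 6250000000), (nat_lit 9842000000)], [], [(nat_lit 35576642739), (nat_lit 36334458418), (nat_lit 42268202204), (nat_lit 43036868757), (nat_lit 32225743389), (nat_lit 32777389784), (nat_lit 36829073895), (nat_lit 37215211695)], (nat_lit 1271251), (nat_lit 1271251), (nat_lit 1271251), (nat_lit 1271251), (nat_lit 169688), (nat_lit 1785313), [(nat_lit 490000), (nat_lit 1427501), (nat_lit 1271251)], [(nat_lit 5), (nat_lit 55), (nat_lit 289), (nat_lit 75), (nat_lit 7)]⟩,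
 Rw.none⟩))))))))))
noncomputable def c18_26 : Tr Lf :=
 (.trZ (nat_lit 0) (nat_lit 2) (nat_lit 4) (nat_lit 100) (nat_lit 63) (nat_lit 61) (nat_lit 30) (.trZ (nat_lit 1) (nat_lit 2) (nat_lit 5) (nat_lit 100) (nat_lit 63) (nat_lit 61) (nat_lit 30) (.spl (nat_lit 0) (nat_lit 370) (.ord (.spl (nat_lit 6) (nat_lit 184) (.spl (nat_lit 6) (nat_lit 144) (.leaf ⟨(nat_lit 0), (nat_lit 892), (nat_lit 0), (nat_lit 108), (nat_lit 0), (nat_lit 7597), (nat_lit 4399), (nat_lit 1006), (nat_lit 2280081225351), (nat_lit 0), (nat_lit 0), [], Pd.none, Pd.none, (nat_lit 0), (nat_lit 1), (nat_lit 0), (nat_lit 0), (nat_lit 3), (nat_lit 0), [⟨(nat_lit 0), (nat_lit 59), (nat_lit 59), (nat_lit 100), (nat_lit 20470662)⟩], [], [⟨(nat_lit 1), (nat_lit 97), (nat_lit 58), (nat_lit 100), (nat_lit 110989313)⟩], [],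
 ⟨⟨[(nat_lit 40), (nat_lit 100), (nat_lit 140)], [(nat_lit 0), (nat_lit 2396), (nat_lit 4896)], [((nat_lit 0), (nat_lit 0), (nat_lit 0)), ((nat_lit 1000), (nat_lit 625), (nat_lit 623)), ((nat_lit 1000), (nat_lit 625), (nat_lit 975))], ((nat_lit 63), (nat_lit 98), (nat_lit 100))⟩, (nat_lit 557598), (nat_lit 300), (nat_lit 321), (nat_lit 50800002), (nat_lit 288346), [(nat_lit 2032000002), (nat_lit 6377178505), (nat_lit 9842000000)], [], [(nat_lit 36813141464), (nat_lit 37353565034), (nat_lit 43121395893), (nat_lit 43929019540), (nat_lit 33558655671), (nat_lit 33910637718), (nat_lit 37927443932), (nat_lit 38466922153)], (nat_lit 1271251), (nat_lit 1271251), (nat_lit 1271251), (nat_lit 1271251), (nat_lit 169688), (nat_lit 2079063), [(nat_lit 490000), (nat_lit 1427501), (nat_lit 1271251)], [(nat_lit 5), (nat_lit 55), (nat_lit 401), (nat_lit 175), (nat_lit 11)]⟩,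
 ⟨⟨[(nat_lit 40), (nat_lit 100), (nat_lit 140)], [(nat_lit 0), (nat_lit 2396), (nat_lit 4896)], [((nat_lit 0), (nat_lit 0), (nat_lit 0)), ((nat_lit 1000), (nat_lit 625), (nat_lit 623)), ((nat_lit 1000), (nat_lit 625), (nat_lit 975))], ((nat_lit 63), (nat_lit 98), (nat_lit 100))⟩, (nat_lit 1834822), (nat_lit 321), (nat_lit 321), (nat_lit 0), (nat_lit 288346), [(nat_lit 2032000000), (nat_lit 6250000000), (nat_lit 9842000000)], [], [(nat_lit 26630297258), (nat_lit 27261833100), (nat_lit 34632510365), (nat_lit 35236230930), (nat_lit 27670247304), (nat_lit 28042076394), (nat_lit 33765760211), (nat_lit 34192518126)], (nat_lit 1271251), (nat_lit 1271251), (nat_lit 1271251), (nat_lit 1271251), (nat_lit 169688), (nat_lit 2079063), [(nat_lit 490000), (nat_lit 1427501), (nat_lit 1271251)], [(nat_lit 5), (nat_lit 55), (nat_lit 401), (nat_lit 175), (nat_lit 11)]⟩,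
 ⟨⟨[(nat_lit 140), (nat_lit 180), (nat_lit 200)], [(nat_lit 0), (nat_lit 608), (nat_lit 3317)], [((nat_lit 0), (nat_lit 0), (nat_lit 0)), ((nat_lit 913), (nat_lit 1000), (nat_lit 217)), ((nat_lit 385), (nat_lit 1000), (nat_lit 814))], ((nat_lit 0), (nat_lit 0), (nat_lit 0))⟩, (nat_lit 31892), (nat_lit 300), (nat_lit 1520), (nat_lit 8327076), (nat_lit 2167677), [(nat_lit 1062936000), (nat_lit 1518264000), (nat_lit 1771200000)], [], [(nat_lit 10071469612), (nat_lit 9993891169), (nat_lit 9090981332), (nat_lit 9015722180), (nat_lit 9090981332), (nat_lit 9015722180), (nat_lit 8143361966), (nat_lit 8431687946)], (nat_lit 936250), (nat_lit 1100000), (nat_lit 169688), (nat_lit 2079063), (nat_lit 169688), (nat_lit 2079063), [(nat_lit 1977501), (nat_lit 1271251), (nat_lit 1271251)], [(nat_lit 32), (nat_lit 67), (nat_lit 473), (nat_lit 200), (nat_lit 10)]⟩⟩) (.spl (nat_lit 0) (nat_lit 365) (.ord (.spl (nat_lit 6) (nat_lit 164) (.leaf ⟨(nat_lit 0), (nat_lit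 783), (nat_lit 0), (nat_lit 217), (nat_lit 34678), (nat_lit 4202), (nat_lit 4204), (nat_lit 1604), (nat_lit 8340350441802), (nat_lit 0), (nat_lit 0), [], Pd.none, Pd.none, (nat_lit 0), (nat_lit 1), (nat_lit 0), (nat_lit 0), (nat_lit 3), (nat_lit 0), [], [], [], [],
 ⟨⟨[(nat_lit 40), (nat_lit 100), (nat_lit 160)], [(nat_lit 0), (nat_lit 2396), (nat_lit 6144)], [((nat_lit 0), (nat_lit 0), (nat_lit 0)), ((nat_lit 1000), (nat_lit 625), (nat_lit 623)), ((nat_lit 1000), (nat_lit 625), (nat_lit 975))], ((nat_lit 61), (nat_lit 92), (nat_lit 100))⟩, (nat_lit 1895570), (nat_lit 245), (nat_lit 245), (nat_lit 0), (nat_lit 62038), [(nat_lit 2033705654), (nat_lit 6416980555), (nat_lit 11872000000)], [], [(nat_lit 27649264955), (nat_lit 27929970409), (nat_lit 34109586522), (nat_lit 34405166488), (nat_lit 28279153434), (nat_lit 28466957423), (nat_lit 33509396329), (nat_lit 33719303445)], (nat_lit 1271251), (nat_lit 1271251), (nat_lit 1271251), (nat_lit 1271251),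 (nat_lit 169688), (nat_lit 2079063), [(nat_lit 490000), (nat_lit 1427501), (nat_lit 1271251)], [(nat_lit 6), (nat_lit 56), (nat_lit 401), (nat_lit 175), (nat_lit 10)]⟩,
 ⟨⟨[(nat_lit 40), (nat_lit 100), (nat_lit 160)], [(nat_lit 0), (nat_lit 2396), (nat_lit 6144)], [((nat_lit 0), (nat_lit 0), (nat_lit 0)), ((nat_lit 1000), (nat_lit 625), (nat_lit 623)), ((nat_lit 1000), (nat_lit 625), (nat_lit 975))], ((nat_lit 61), (nat_lit 92), (nat_lit 100))⟩, (nat_lit 1915922), (nat_lit 245), (nat_lit 245), (nat_lit 0), (nat_lit 62038), [(nat_lit 2032000000), (nat_lit 6250000000), (nat_lit 11872000000)], [], [(nat_lit 27525317402), (nat_lit 27806083880), (nat_lit 34114895393), (nat_lit 34410539119), (nat_lit 28146797712), (nat_lit 28340947348), (nat_lit 33511999008), (nat_lit 33721941371)], (nat_lit 1271251), (nat_lit 1271251), (nat_lit 1271251), (nat_lit 1271251), (nat_lit 169688), (nat_lit 2079063), [(nat_lit 490000), (nat_lit 1427501), (nat_lit 1271251)],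 [(nat_lit 6), (nat_lit 56), (nat_lit 401), (nat_lit 175), (nat_lit 10)]⟩,
 ⟨⟨[(nat_lit 140), (nat_lit 180), (nat_lit 200)], [(nat_lit 0), (nat_lit 608), (nat_lit 3317)], [((nat_lit 0), (nat_lit 0), (nat_lit 0)), ((nat_lit 913), (nat_lit 1000), (nat_lit 217)), ((nat_lit 385), (nat_lit 1000), (nat_lit 814))], ((nat_lit 0), (nat_lit 0), (nat_lit 0))⟩, (nat_lit 64079), (nat_lit 300), (nat_lit 755), (nat_lit 16731256), (nat_lit 451609), [(nat_lit 2135714000), (nat_lit 3050586000), (nat_lit 3558800000)], [], [(nat_lit 18186465185), (nat_lit 18073748483), (nat_lit 16796849681), (nat_lit 16685096640), (nat_lit 16796849681), (nat_lit 16685096640), (nat_lit 15402555412), (nat_lit 15890651554)], (nat_lit 936250), (nat_lit 1100000), (nat_lit 169688), (nat_lit 2079063), (nat_lit 169688), (nat_lit 2079063), [(nat_lit 1977501), (nat_lit 1271251), (nat_lit 1271251)], [(nat_lit 32), (nat_lit 67), (nat_lit 428), (nat_lit 200), (nat_lit 10)]⟩⟩) (.dle (nat_lit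 0)))) (.trZ (nat_lit 0) (nat_lit 1) (nat_lit 3) (nat_lit 63) (nat_lit 60) (nat_lit 100) (nat_lit 260) (.trZ (nat_lit 0) (nat_lit 2) (nat_lit 4) (nat_lit 100) (nat_lit 59) (nat_lit 65) (nat_lit 40) (.trX (nat_lit 4) (nat_lit 0) (nat_lit 2) (nat_lit 58) (nat_lit 94) (nat_lit 100) (nat_lit 280) (.leaf ⟨(nat_lit 0), (nat_lit 840), (nat_lit 0), (nat_lit 160), (nat_lit 9937), (nat_lit 7510), (nat_lit 4868), (nat_lit 1317), (nat_lit 1146671755418), (nat_lit 0), (nat_lit 0), [], Pd.none, Pd.none, (nat_lit 0), (nat_lit 1), (nat_lit 0), (nat_lit 0), (nat_lit 3), (nat_lit 0), [], [], [], [],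
 ⟨⟨[(nat_lit 40), (nat_lit 100), (nat_lit 140)], [(nat_lit 0), (nat_lit 2697), (nat_lit 5124)], [((nat_lit 0), (nat_lit 0), (nat_lit 0)), ((nat_lit 1000), (nat_lit 578), (nat_lit 701)), ((nat_lit 1000), (nat_lit 578), (nat_lit 947))], ((nat_lit 58), (nat_lit 94), (nat_lit 100))⟩, (nat_lit 0), (nat_lit 233), (nat_lit 233), (nat_lit 0), (nat_lit 115198), [(nat_lit 2840874649), (nat_lit 6251642183), (nat_lit 9842000000)], [], [(nat_lit 37277900445), (nat_lit 37602443927), (nat_lit 44635375262), (nat_lit 44905457793), (nat_lit 35167510961), (nat_lit 35389001927), (nat_lit 40102947634), (nat_lit 40286892578)], (nat_lit 1271251), (nat_lit 1271251), (nat_lit 1271251), (nat_lit 1271251), (nat_lit 230000), (nat_lit 2015001), [(nat_lit 490000), (nat_lit 1427501), (nat_lit 1271251)], [(nat_lit 5), (nat_lit 55), (nat_lit 401), (nat_lit 175), (nat_lit 11)]⟩,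
 ⟨⟨[(nat_lit 40), (nat_lit 100), (nat_lit 160)], [(nat_lit 0), (nat_lit 2396), (nat_lit 6144)], [((nat_lit 0), (nat_lit 0), (nat_lit 0)), ((nat_lit 1000), (nat_lit 625), (nat_lit 623)), ((nat_lit 1000), (nat_lit 625), (nat_lit 975))], ((nat_lit 61), (nat_lit 92), (nat_lit 100))⟩, (nat_lit 1501843), (nat_lit 260), (nat_lit 260), (nat_lit 0), (nat_lit 115762), [(nat_lit 2032000000), (nat_lit 6250000000), (nat_lit 11872000000)], [], [(nat_lit 30779637667), (nat_lit 31368867658), (nat_lit 36536837060), (nat_lit 36943894532), (nat_lit 30585514809), (nat_lit 30992451808), (nat_lit 34533280683), (nat_lit 34819724684)], (nat_lit 1271251), (nat_lit 1271251), (nat_lit 1271251), (nat_lit 1271251), (nat_lit 169688), (nat_lit 2079063), [(nat_lit 490000), (nat_lit 1427501), (nat_lit 1271251)], [(nat_lit 6), (nat_lit 56), (nat_lit 401), (nat_lit 175), (nat_lit 9)]⟩,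
 ⟨⟨[(nat_lit 140), (nat_lit 180), (nat_lit 200)], [(nat_lit 0), (nat_lit 608), (nat_lit 3317)], [((nat_lit 0), (nat_lit 0), (nat_lit 0)), ((nat_lit 913), (nat_lit 1000), (nat_lit 217)), ((nat_lit 385), (nat_lit 1000), (nat_lit 814))], ((nat_lit 0), (nat_lit 0), (nat_lit 0))⟩, (nat_lit 47247), (nat_lit 300), (nat_lit 933), (nat_lit 12336411), (nat_lit 862667), [(nat_lit 1574720000), (nat_lit 2249280000), (nat_lit 2624000000)], [], [(nat_lit 14010542609), (nat_lit 13909695322), (nat_lit 12857445142), (nat_lit 12758592558), (nat_lit 12753997305), (nat_lit 12655323410), (nat_lit 11617384824), (nat_lit 11964320953)], (nat_lit 936250), (nat_lit 1100000), (nat_lit 230000), (nat_lit 2015001), (nat_lit 169688), (nat_lit 2079063), [(nat_lit 1977501), (nat_lit 1271251), (nat_lit 1271251)], [(nat_lit 32), (nat_lit 67), (nat_lit 428), (nat_lit 200), (nat_lit 10)]⟩⟩)))))) (.dle (nat_lit 0)))) (.trZ (nat_lit 0) (nat_lit 1) (nat_lit 3) (nat_lit 64) (nat_lit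 57) (nat_lit 100) (nat_lit 270) (.trZ (nat_lit 0) (nat_lit 2) (nat_lit 4) (nat_lit 100) (nat_lit 55) (nat_lit 68) (nat_lit 40) (.trX (nat_lit 4) (nat_lit 0) (nat_lit 2) (nat_lit 54) (nat_lit 96) (nat_lit 100) (nat_lit 270) (.spl (nat_lit 6) (nat_lit 156) (.spl (nat_lit 4) (nat_lit 160) (.leaf ⟨(nat_lit 0), (nat_lit 938), (nat_lit 0), (nat_lit 62), (nat_lit 0), (nat_lit 7080), (nat_lit 4408), (nat_lit 889), (nat_lit 462995643762), (nat_lit 0), (nat_lit 0), [], Pd.none, Pd.none, (nat_lit 0), (nat_lit 1), (nat_lit 0), (nat_lit 0), (nat_lit 3), (nat_lit 0), [⟨(nat_lit 0), (nat_lit 56), (nat_lit 56), (nat_lit 100), (nat_lit 202356398)⟩], [⟨(nat_lit 0), (nat_lit 100), (nat_lit 50), (nat_lit 75), (nat_lit 14462516)⟩], [⟨(nat_lit 1), (nat_lit 99), (nat_lit 54), (nat_lit 100), (nat_lit 164790167)⟩], [],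
 ⟨⟨[(nat_lit 40), (nat_lit 100), (nat_lit 140)], [(nat_lit 0), (nat_lit 2998), (nat_lit 5352)], [((nat_lit 0), (nat_lit 0), (nat_lit 0)), ((nat_lit 1000), (nat_lit 532), (nat_lit 779)), ((nat_lit 1000), (nat_lit 531), (nat_lit 919))], ((nat_lit 54), (nat_lit 97), (nat_lit 100))⟩, (nat_lit 510090), (nat_lit 300), (nat_lit 344), (nat_lit 50800001), (nat_lit 384476), [(nat_lit 2032000001), (nat_lit 6543273054), (nat_lit 9842000000)], [], [(nat_lit 37886465022), (nat_lit 38380444576), (nat_lit 42128593122), (nat_lit 42467468660), (nat_lit 34408815639), (nat_lit 34838343616), (nat_lit 38078777348), (nat_lit 38373076284)], (nat_lit 1271251), (nat_lit 1271251), (nat_lit 1271251), (nat_lit 1271251), (nat_lit 230000), (nat_lit 1100000), [(nat_lit 490000), (nat_lit 1427501), (nat_lit 1271251)], [(nat_lit 5), (nat_lit 55), (nat_lit 373), (nat_lit 150), (nat_lit 10)]⟩,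
 ⟨⟨[(nat_lit 40), (nat_lit 100), (nat_lit 160)], [(nat_lit 0), (nat_lit 2396), (nat_lit 6144)], [((nat_lit 0), (nat_lit 0), (nat_lit 0)), ((nat_lit 1000), (nat_lit 625), (nat_lit 623)), ((nat_lit 1000), (nat_lit 625), (nat_lit 975))], ((nat_lit 62), (nat_lit 94), (nat_lit 100))⟩, (nat_lit 1665758), (nat_lit 387), (nat_lit 387), (nat_lit 0), (nat_lit 386851), [(nat_lit 2032000000), (nat_lit 6250000000), (nat_lit 11872000000)], [], [(nat_lit 29885815649), (nat_lit 30951233350), (nat_lit 35079178360), (nat_lit 35865804624), (nat_lit 30262509372), (nat_lit 30807215512), (nat_lit 33777472266), (nat_lit 34631622545)], (nat_lit 1271251), (nat_lit 1271251), (nat_lit 1271251), (nat_lit 1271251), (nat_lit 169688), (nat_lit 2079063), [(nat_lit 490000), (nat_lit 1427501), (nat_lit 1271251)], [(nat_lit 6), (nat_lit 56), (nat_lit 401), (nat_lit 175), (nat_lit 9)]⟩,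
 ⟨⟨[(nat_lit 140), (nat_lit 180), (nat_lit 200)], [(nat_lit 0), (nat_lit 608), (nat_lit 3317)], [((nat_lit 0), (nat_lit 0), (nat_lit 0)), ((nat_lit 913), (nat_lit 1000), (nat_lit 217)), ((nat_lit 385), (nat_lit 1000), (nat_lit 814))], ((nat_lit 0), (nat_lit 0), (nat_lit 0))⟩, (nat_lit 18308), (nat_lit 300), (nat_lit 1932), (nat_lit 4780362), (nat_lit 3061897), [(nat_lit 610204000), (nat_lit 871596000), (nat_lit 1016800000)], [], [(nat_lit 5043265329), (nat_lit 4790086533), (nat_lit 3950748037), (nat_lit 3876864613), (nat_lit 3662976556), (nat_lit 3635721986), (nat_lit 4250884759), (nat_lit 4467211609)], (nat_lit 936250), (nat_lit 1100000), (nat_lit 230000), (nat_lit 1100000), (nat_lit 169688), (nat_lit 2079063), [(nat_lit 1977501), (nat_lit 1271251), (nat_lit 1271251)], [(nat_lit 32), (nat_lit 67), (nat_lit 560), (nat_lit 175), (nat_lit 12)]⟩⟩) (.leaf ⟨(nat_lit 0), (nat_lit 908), (nat_lit 0), (nat_lit 92), (nat_lit 0), (nat_lit 6909), (nat_lit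 4498), (nat_lit 878), (nat_lit 93496), (nat_lit 0), (nat_lit 0), [], Pd.none, Pd.none, (nat_lit 0), (nat_lit 1), (nat_lit 0), (nat_lit 0), (nat_lit 4), (nat_lit 0), [⟨(nat_lit 0), (nat_lit 60), (nat_lit 55), (nat_lit 100), (nat_lit 116369974)⟩], [⟨(nat_lit 1), (nat_lit 100), (nat_lit 50), (nat_lit 100), (nat_lit 293031645)⟩], [⟨(nat_lit 1), (nat_lit 99), (nat_lit 54), (nat_lit 100), (nat_lit 145932812)⟩], [],
 ⟨⟨[(nat_lit 40), (nat_lit 100), (nat_lit 140)], [(nat_lit 0), (nat_lit 2998), (nat_lit 5352)], [((nat_lit 0), (nat_lit 0), (nat_lit 0)), ((nat_lit 1000), (nat_lit 532), (nat_lit 779)), ((nat_lit 1000), (nat_lit 531), (nat_lit 919))], ((nat_lit 54), (nat_lit 97), (nat_lit 100))⟩, (nat_lit 588094), (nat_lit 282), (nat_lit 282), (nat_lit 0), (nat_lit 384476), [(nat_lit 2518360104), (nat_lit 6614442633), (nat_lit 9842000000)], [], [(nat_lit 30916045818), (nat_lit 31584485221), (nat_lit 36799876781), (nat_lit 37257262427), (nat_lit 32544700732),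 (nat_lit 33080998089), (nat_lit 37173513697), (nat_lit 37586129791)], (nat_lit 1271251), (nat_lit 1271251), (nat_lit 1271251), (nat_lit 1271251), (nat_lit 1100000), (nat_lit 2041876), [(nat_lit 490000), (nat_lit 1427501), (nat_lit 1271251)], [(nat_lit 5), (nat_lit 55), (nat_lit 401), (nat_lit 175), (nat_lit 10)]⟩,
 ⟨⟨[(nat_lit 40), (nat_lit 100), (nat_lit 160)], [(nat_lit 0), (nat_lit 2396), (nat_lit 6144)], [((nat_lit 0), (nat_lit 0), (nat_lit 0)), ((nat_lit 1000), (nat_lit 625), (nat_lit 623)), ((nat_lit 1000), (nat_lit 625), (nat_lit 975))], ((nat_lit 62), (nat_lit 94), (nat_lit 100))⟩, (nat_lit 1640445), (nat_lit 387), (nat_lit 387), (nat_lit 0), (nat_lit 386851), [(nat_lit 2032000000), (nat_lit 6250000000), (nat_lit 11872000000)], [], [(nat_lit 30058835611), (nat_lit 31169513506), (nat_lit 35322855442), (nat_lit 36115365028), (nat_lit 30147273699), (nat_lit 30922104764), (nat_lit 33894592821), (nat_lit 34755087583)], (nat_lit 1271251),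 (nat_lit 1271251), (nat_lit 1271251), (nat_lit 1271251), (nat_lit 169688), (nat_lit 2079063), [(nat_lit 490000), (nat_lit 1427501), (nat_lit 1271251)], [(nat_lit 6), (nat_lit 56), (nat_lit 401), (nat_lit 175), (nat_lit 9)]⟩,
 ⟨⟨[(nat_lit 140), (nat_lit 180), (nat_lit 200)], [(nat_lit 0), (nat_lit 608), (nat_lit 3317)], [((nat_lit 0), (nat_lit 0), (nat_lit 0)), ((nat_lit 913), (nat_lit 1000), (nat_lit 217)), ((nat_lit 385), (nat_lit 1000), (nat_lit 814))], ((nat_lit 0), (nat_lit 0), (nat_lit 0))⟩, (nat_lit 27167), (nat_lit 300), (nat_lit 1863), (nat_lit 7093436), (nat_lit 3061897), [(nat_lit 905464000), (nat_lit 1293336000), (nat_lit 1508800000)], [], [(nat_lit 8316727270), (nat_lit 8253609292), (nat_lit 8027501934), (nat_lit 7964787985), (nat_lit 7515394875), (nat_lit 7454028951), (nat_lit 7230687170), (nat_lit 7475174491)], (nat_lit 936250), (nat_lit 1100000), (nat_lit 1100000), (nat_lit 2041876), (nat_lit 169688), (nat_lit 2079063), [(nat_lit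 1977501), (nat_lit 1271251), (nat_lit 1271251)], [(nat_lit 32), (nat_lit 67), (nat_lit 556), (nat_lit 200), (nat_lit 12)]⟩⟩)) (.spl (nat_lit 4) (nat_lit 160) (.leaf ⟨(nat_lit 0), (nat_lit 926), (nat_lit 0), (nat_lit 74), (nat_lit 3430), (nat_lit 6606), (nat_lit 6981), (nat_lit 897), (nat_lit 2603694), (nat_lit 0), (nat_lit 0), [], Pd.none, Pd.none, (nat_lit 0), (nat_lit 1), (nat_lit 0), (nat_lit 0), (nat_lit 3), (nat_lit 0), [], [], [], [⟨(nat_lit 1), (nat_lit 100), (nat_lit 77), (nat_lit 91), (nat_lit 20106447)⟩],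
 ⟨⟨[(nat_lit 40), (nat_lit 100), (nat_lit 140)], [(nat_lit 0), (nat_lit 2998), (nat_lit 5352)], [((nat_lit 0), (nat_lit 0), (nat_lit 0)), ((nat_lit 1000), (nat_lit 532), (nat_lit 779)), ((nat_lit 1000), (nat_lit 531), (nat_lit 919))], ((nat_lit 54), (nat_lit 96), (nat_lit 100))⟩, (nat_lit 490078), (nat_lit 281), (nat_lit 281), (nat_lit 0), (nat_lit 173393), [(nat_lit 2470749832), (nat_lit 6250000177), (nat_lit 9842000000)], [], [(nat_lit 34926114595), (nat_lit 35672836595), (nat_lit 41498166995), (nat_lit 42005816307), (nat_lit 31701732152), (nat_lit 32216144708), (nat_lit 37336897623), (nat_lit 37785378554)], (nat_lit 1271251), (nat_lit 1271251), (nat_lit 1271251), (nat_lit 1271251), (nat_lit 230000), (nat_lit 1100000), [(nat_lit 490000), (nat_lit 1427501), (nat_lit 1271251)], [(nat_lit 5), (nat_lit 55), (nat_lit 373), (nat_lit 150), (nat_lit 10)]⟩,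
 ⟨⟨[(nat_lit 40), (nat_lit 100), (nat_lit 160)], [(nat_lit 0), (nat_lit 2396), (nat_lit 6144)], [((nat_lit 0), (nat_lit 0), (nat_lit 0)), ((nat_lit 1000), (nat_lit 625), (nat_lit 623)), ((nat_lit 1000), (nat_lit 625), (nat_lit 975))], ((nat_lit 61), (nat_lit 92), (nat_lit 100))⟩, (nat_lit 92577), (nat_lit 325), (nat_lit 325), (nat_lit 0), (nat_lit 175506), [(nat_lit 2032000000), (nat_lit 6250000000), (nat_lit 11872000000)], [], [(nat_lit 41127065613), (nat_lit 42411012726), (nat_lit 47265027621), (nat_lit 48205411219), (nat_lit 38543872338), (nat_lit 39346533560), (nat_lit 42458982969), (nat_lit 43084539872)], (nat_lit 1271251), (nat_lit 1271251), (nat_lit 1271251), (nat_lit 1271251), (nat_lit 169688), (nat_lit 2079063), [(nat_lit 490000), (nat_lit 1427501), (nat_lit 1271251)], [(nat_lit 6), (nat_lit 56), (nat_lit 401), (nat_lit 175), (nat_lit 9)]⟩,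
 ⟨⟨[(nat_lit 140), (nat_lit 180), (nat_lit 200)], [(nat_lit 0), (nat_lit 608), (nat_lit 3317)], [((nat_lit 0), (nat_lit 0), (nat_lit 0)), ((nat_lit 913), (nat_lit 1000), (nat_lit 217)), ((nat_lit 385), (nat_lit 1000), (nat_lit 814))], ((nat_lit 0), (nat_lit 0), (nat_lit 0))⟩, (nat_lit 21852), (nat_lit 300), (nat_lit 1155), (nat_lit 5705589), (nat_lit 1370705), [(nat_lit 728308000), (nat_lit 1040292000), (nat_lit 1213600000)], [], [(nat_lit 5636309536), (nat_lit 5558025310), (nat_lit 5014588291), (nat_lit 4939488286), (nat_lit 4665756350), (nat_lit 4589596063), (nat_lit 4861759753), (nat_lit 5087527857)], (nat_lit 936250), (nat_lit 1100000), (nat_lit 230000), (nat_lit 1100000), (nat_lit 169688), (nat_lit 2079063), [(nat_lit 1977501), (nat_lit 1271251), (nat_lit 1271251)], [(nat_lit 32), (nat_lit 67), (nat_lit 401), (nat_lit 175), (nat_lit 9)]⟩⟩) (.spl (nat_lit 0) (nat_lit 375) (.ord (.leaf ⟨(nat_lit 0), (nat_lit 795), (nat_lit 0), (nat_lit 205),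 (nat_lit 10280), (nat_lit 9325), (nat_lit 4159), (nat_lit 1591), (nat_lit 757821789749), (nat_lit 0), (nat_lit 0), [], Pd.none, Pd.none, (nat_lit 0), (nat_lit 1), (nat_lit 0), (nat_lit 0), (nat_lit 4), (nat_lit 0), [], [⟨(nat_lit 1), (nat_lit 99), (nat_lit 52), (nat_lit 100), (nat_lit 126175293)⟩], [], [],
 ⟨⟨[(nat_lit 40), (nat_lit 100), (nat_lit 140)], [(nat_lit 0), (nat_lit 2998), (nat_lit 5352)], [((nat_lit 0), (nat_lit 0), (nat_lit 0)), ((nat_lit 1000), (nat_lit 532), (nat_lit 779)), ((nat_lit 1000), (nat_lit 531), (nat_lit 919))], ((nat_lit 54), (nat_lit 96), (nat_lit 100))⟩, (nat_lit 0), (nat_lit 176), (nat_lit 176), (nat_lit 0), (nat_lit 124523), [(nat_lit 3223904395), (nat_lit 8742474277), (nat_lit 9842000000)], [], [(nat_lit 33078493016), (nat_lit 33478936636), (nat_lit 39848170613), (nat_lit 40112364744), (nat_lit 34433930437), (nat_lit 34749398674), (nat_lit 40264130760), (nat_lit 40581518433)], (nat_lit 1271251), (nat_lit 1271251),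 (nat_lit 1271251), (nat_lit 1271251), (nat_lit 1100000), (nat_lit 2041876), [(nat_lit 490000), (nat_lit 1427501), (nat_lit 1271251)], [(nat_lit 5), (nat_lit 55), (nat_lit 401), (nat_lit 175), (nat_lit 10)]⟩,
 ⟨⟨[(nat_lit 40), (nat_lit 100), (nat_lit 160)], [(nat_lit 0), (nat_lit 2396), (nat_lit 6144)], [((nat_lit 0), (nat_lit 0), (nat_lit 0)), ((nat_lit 1000), (nat_lit 625), (nat_lit 623)), ((nat_lit 1000), (nat_lit 625), (nat_lit 975))], ((nat_lit 61), (nat_lit 92), (nat_lit 100))⟩, (nat_lit 1680637), (nat_lit 275), (nat_lit 275), (nat_lit 0), (nat_lit 125974), [(nat_lit 2032000000), (nat_lit 6250000000), (nat_lit 11872000000)], [], [(nat_lit 29718791595), (nat_lit 30418170739), (nat_lit 34743869023), (nat_lit 35322678915), (nat_lit 30191757001), (nat_lit 30634777245), (nat_lit 33680664841), (nat_lit 34097076375)], (nat_lit 1271251), (nat_lit 1271251), (nat_lit 1271251), (nat_lit 1271251), (nat_lit 169688), (nat_lit 2079063), [(nat_lit 490000),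 (nat_lit 1427501), (nat_lit 1271251)], [(nat_lit 6), (nat_lit 56), (nat_lit 401), (nat_lit 175), (nat_lit 9)]⟩,
 ⟨⟨[(nat_lit 140), (nat_lit 180), (nat_lit 200)], [(nat_lit 0), (nat_lit 608), (nat_lit 3317)], [((nat_lit 0), (nat_lit 0), (nat_lit 0)), ((nat_lit 913), (nat_lit 1000), (nat_lit 217)), ((nat_lit 385), (nat_lit 1000), (nat_lit 814))], ((nat_lit 0), (nat_lit 0), (nat_lit 0))⟩, (nat_lit 60535), (nat_lit 300), (nat_lit 892), (nat_lit 15806028), (nat_lit 958833), [(nat_lit 2017610000), (nat_lit 2881890000), (nat_lit 3362000000)], [], [(nat_lit 17085426742), (nat_lit 16970943384), (nat_lit 16716887224), (nat_lit 16600418095), (nat_lit 15655919986), (nat_lit 15542913731), (nat_lit 15258335204), (nat_lit 15631094818)], (nat_lit 936250), (nat_lit 1100000), (nat_lit 1100000), (nat_lit 2041876), (nat_lit 169688), (nat_lit 2079063), [(nat_lit 1977501), (nat_lit 1271251), (nat_lit 1271251)], [(nat_lit 32), (nat_lit 67), (nat_lit 428), (nat_lit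 200), (nat_lit 9)]⟩⟩)) (.trZ (nat_lit 0) (nat_lit 1) (nat_lit 3) (nat_lit 66) (nat_lit 53) (nat_lit 100) (nat_lit 280) (.trX (nat_lit 4) (nat_lit 0) (nat_lit 2) (nat_lit 49) (nat_lit 97) (nat_lit 100) (nat_lit 260) (.leaf ⟨(nat_lit 0), (nat_lit 847), (nat_lit 0), (nat_lit 153), (nat_lit 1338), (nat_lit 8856), (nat_lit 5836), (nat_lit 1263), (nat_lit 25119806), (nat_lit 0), (nat_lit 0), [], Pd.none, Pd.none, (nat_lit 0), (nat_lit 1), (nat_lit 0), (nat_lit 0), (nat_lit 4), (nat_lit 0), [], [⟨(nat_lit 1), (nat_lit 100), (nat_lit 47), (nat_lit 99), (nat_lit 134259972)⟩], [], [],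
 ⟨⟨[(nat_lit 40), (nat_lit 100), (nat_lit 140)], [(nat_lit 0), (nat_lit 3299), (nat_lit 5587)], [((nat_lit 0), (nat_lit 0), (nat_lit 0)), ((nat_lit 1000), (nat_lit 484), (nat_lit 858)), ((nat_lit 1000), (nat_lit 484), (nat_lit 894))], ((nat_lit 49), (nat_lit 97), (nat_lit 100))⟩, (nat_lit 0), (nat_lit 191), (nat_lit 191), (nat_lit 0), (nat_lit 172867), [(nat_lit 3111841415), (nat_lit 8494082805), (nat_lit 9842000000)], [], [(nat_lit 34046584852), (nat_lit 34424281984), (nat_lit 40124727232), (nat_lit 40382029760), (nat_lit 34995545310), (nat_lit 35301644179), (nat_lit 39809585354), (nat_lit 40016962914)], (nat_lit 1271251), (nat_lit 1271251), (nat_lit 1271251), (nat_lit 1271251), (nat_lit 1100000), (nat_lit 1956251), [(nat_lit 490000), (nat_lit 1427501), (nat_lit 1271251)], [(nat_lit 5), (nat_lit 55), (nat_lit 289), (nat_lit 75), (nat_lit 7)]⟩,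
 ⟨⟨[(nat_lit 40), (nat_lit 100), (nat_lit 160)], [(nat_lit 0), (nat_lit 2396), (nat_lit 6144)], [((nat_lit 0), (nat_lit 0), (nat_lit 0)), ((nat_lit 1000), (nat_lit 625), (nat_lit 623)), ((nat_lit 1000), (nat_lit 625), (nat_lit 975))], ((nat_lit 61), (nat_lit 92), (nat_lit 100))⟩, (nat_lit 1260884), (nat_lit 325), (nat_lit 325), (nat_lit 0), (nat_lit 175573), [(nat_lit 2032000000), (nat_lit 6250000000), (nat_lit 11872000000)], [], [(nat_lit 33535462046), (nat_lit 34768912316), (nat_lit 38965434508), (nat_lit 39837620651), (nat_lit 32044434068), (nat_lit 32880360402), (nat_lit 35678012229), (nat_lit 36590601140)], (nat_lit 1271251), (nat_lit 1271251), (nat_lit 1271251), (nat_lit 1271251), (nat_lit 169688), (nat_lit 2079063), [(nat_lit 490000), (nat_lit 1427501), (nat_lit 1271251)], [(nat_lit 6), (nat_lit 56), (nat_lit 401), (nat_lit 175), (nat_lit 9)]⟩,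
 ⟨⟨[(nat_lit 140), (nat_lit 180), (nat_lit 200)], [(nat_lit 0), (nat_lit 608), (nat_lit 3317)], [((nat_lit 0), (nat_lit 0), (nat_lit 0)), ((nat_lit 913), (nat_lit 1000), (nat_lit 217)), ((nat_lit 385), (nat_lit 1000), (nat_lit 814))], ((nat_lit 0), (nat_lit 0), (nat_lit 0))⟩, (nat_lit 45180), (nat_lit 300), (nat_lit 1079), (nat_lit 11796692), (nat_lit 1370705), [(nat_lit 1505826000), (nat_lit 2150874000), (nat_lit 2509200000)], [], [(nat_lit 13288481915), (nat_lit 13193649721), (nat_lit 12956431701), (nat_lit 12861172493), (nat_lit 12097846984), (nat_lit 12005107740), (nat_lit 11758150474), (nat_lit 11669394142)], (nat_lit 936250), (nat_lit 1100000), (nat_lit 1100000), (nat_lit 1956251), (nat_lit 169688), (nat_lit 2079063), [(nat_lit 1977501), (nat_lit 1271251), (nat_lit 1271251)], [(nat_lit 32), (nat_lit 67), (nat_lit 428), (nat_lit 200), (nat_lit 9)]⟩⟩))))))))))))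
noncomputable def c18_27 : Tr Lf :=
 (.spl (nat_lit 6) (nat_lit 160) (.spl (nat_lit 1) (nat_lit 340) (.spl (nat_lit 6) (nat_lit 136) (.spl (nat_lit 4) (nat_lit 200) (.leaf ⟨(nat_lit 0), (nat_lit 817), (nat_lit 0), (nat_lit 183), (nat_lit 12698), (nat_lit 4346), (nat_lit 7164), (nat_lit 1508), (nat_lit 0), (nat_lit 0), (nat_lit 0), [], Pd.none, Pd.none, (nat_lit 0), (nat_lit 1), (nat_lit 0), (nat_lit 0), (nat_lit 4), (nat_lit 0), [⟨(nat_lit 0), (nat_lit 75), (nat_lit 46), (nat_lit 100), (nat_lit 26241576)⟩], [], [], [],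
 ⟨⟨[(nat_lit 40), (nat_lit 100), (nat_lit 140)], [(nat_lit 0), (nat_lit 2396), (nat_lit 4896)], [((nat_lit 0), (nat_lit 0), (nat_lit 0)), ((nat_lit 1000), (nat_lit 625), (nat_lit 623)), ((nat_lit 1000), (nat_lit 625), (nat_lit 975))], ((nat_lit 63), (nat_lit 100), (nat_lit 100))⟩, (nat_lit 1921190), (nat_lit 231), (nat_lit 231), (nat_lit 0), (nat_lit 126344), [(nat_lit 2032000038), (nat_lit 6250000021), (nat_lit 9842000000)], [], [(nat_lit 24397168502), (nat_lit 25616455923), (nat_lit 33576273439), (nat_lit 34766640348), (nat_lit 24368144518), (nat_lit 25226653849), (nat_lit 31958611786), (nat_lit 32966989519)], (nat_lit 1271251), (nat_lit 1271251), (nat_lit 1271251), (nat_lit 1271251), (nat_lit 292188), (nat_lit 1421875), [(nat_lit 490000), (nat_lit 1427501), (nat_lit 1271251)], [(nat_lit 5), (nat_lit 55), (nat_lit 373), (nat_lit 150), (nat_lit 10)]⟩,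
 ⟨⟨[(nat_lit 40), (nat_lit 100), (nat_lit 160)], [(nat_lit 0), (nat_lit 0), (nat_lit 4607)], [((nat_lit 0), (nat_lit 0), (nat_lit 0)), ((nat_lit 0), (nat_lit 0), (nat_lit 0)), ((nat_lit 846), (nat_lit 837), (nat_lit 1000))], ((nat_lit 84), (nat_lit 87), (nat_lit 100))⟩, (nat_lit 1374011), (nat_lit 332), (nat_lit 332), (nat_lit 0), (nat_lit 161016), [(nat_lit 2032000000), (nat_lit 6250000000), (nat_lit 11872000000)], [], [(nat_lit 32500258302), (nat_lit 33818521578), (nat_lit 41107945039), (nat_lit 42068977117), (nat_lit 32748658499), (nat_lit 33452471629), (nat_lit 38161481432), (nat_lit 39011038316)], (nat_lit 1271251), (nat_lit 1271251), (nat_lit 1271251), (nat_lit 1271251), (nat_lit 54688), (nat_lit 2559376), [(nat_lit 490000), (nat_lit 1427501), (nat_lit 1271251)], [(nat_lit 6), (nat_lit 56), (nat_lit 428), (nat_lit 200), (nat_lit 11)]⟩,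
 ⟨⟨[(nat_lit 120), (nat_lit 160), (nat_lit 200)], [(nat_lit 0), (nat_lit 0), (nat_lit 3198)], [((nat_lit 0), (nat_lit 0), (nat_lit 0)), ((nat_lit 0), (nat_lit 0), (nat_lit 0)), ((nat_lit 572), (nat_lit 1000), (nat_lit 714))], ((nat_lit 0), (nat_lit 0), (nat_lit 0))⟩, (nat_lit 89268), (nat_lit 300), (nat_lit 879), (nat_lit 13578605), (nat_lit 750098), [(nat_lit 1458144000), (nat_lit 2172576000), (nat_lit 3001200000)], [], [(nat_lit 15223878611), (nat_lit 15069606498), (nat_lit 14242162748), (nat_lit 14087401330), (nat_lit 13528582105), (nat_lit 13360146113), (nat_lit 12570683158), (nat_lit 12405262470)], (nat_lit 1100000), (nat_lit 1442501), (nat_lit 292188), (nat_lit 1421875), (nat_lit 54688), (nat_lit 2559376), [(nat_lit 1695001), (nat_lit 1271251), (nat_lit 1271251)], [(nat_lit 29), (nat_lit 66), (nat_lit 428), (nat_lit 200), (nat_lit 10)]⟩⟩) (.leaf ⟨(nat_lit 0), (nat_lit 764), (nat_lit 0), (nat_lit 236), (nat_lit 6668), (nat_lit 4704), (nat_lit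 7164), (nat_lit 2344), (nat_lit 0), (nat_lit 0), (nat_lit 0), [], Pd.none, Pd.none, (nat_lit 0), (nat_lit 1), (nat_lit 0), (nat_lit 0), (nat_lit 5), (nat_lit 0), [⟨(nat_lit 0), (nat_lit 77), (nat_lit 53), (nat_lit 100), (nat_lit 70996817)⟩], [⟨(nat_lit 1), (nat_lit 90), (nat_lit 53), (nat_lit 100), (nat_lit 258694372)⟩], [], [],
 ⟨⟨[(nat_lit 40), (nat_lit 100), (nat_lit 140)], [(nat_lit 0), (nat_lit 2396), (nat_lit 4896)], [((nat_lit 0), (nat_lit 0), (nat_lit 0)), ((nat_lit 1000), (nat_lit 625), (nat_lit 623)), ((nat_lit 1000), (nat_lit 625), (nat_lit 975))], ((nat_lit 63), (nat_lit 100), (nat_lit 100))⟩, (nat_lit 1727024), (nat_lit 168), (nat_lit 168), (nat_lit 0), (nat_lit 126344), [(nat_lit 2130683298), (nat_lit 6786072701), (nat_lit 9842000000)], [], [(nat_lit 24858986528), (nat_lit 26031311520), (nat_lit 32452881264), (nat_lit 33496114056), (nat_lit 28124077032), (nat_lit 29041093488), (nat_lit 34934359952), (nat_lit 35750203944)], (nat_lit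 1271251), (nat_lit 1271251), (nat_lit 1271251), (nat_lit 1271251), (nat_lit 1271251), (nat_lit 1271251), [(nat_lit 490000), (nat_lit 1427501), (nat_lit 1271251)], [(nat_lit 5), (nat_lit 55), (nat_lit 428), (nat_lit 200), (nat_lit 11)]⟩,
 ⟨⟨[(nat_lit 40), (nat_lit 100), (nat_lit 160)], [(nat_lit 0), (nat_lit 0), (nat_lit 4607)], [((nat_lit 0), (nat_lit 0), (nat_lit 0)), ((nat_lit 0), (nat_lit 0), (nat_lit 0)), ((nat_lit 846), (nat_lit 837), (nat_lit 1000))], ((nat_lit 84), (nat_lit 87), (nat_lit 100))⟩, (nat_lit 1374011), (nat_lit 332), (nat_lit 332), (nat_lit 0), (nat_lit 161016), [(nat_lit 2032000000), (nat_lit 6250000000), (nat_lit 11872000000)], [], [(nat_lit 32500258302), (nat_lit 33818521578), (nat_lit 41107945039), (nat_lit 42068977117), (nat_lit 32748658499), (nat_lit 33452471629), (nat_lit 38161481432), (nat_lit 39011038316)], (nat_lit 1271251), (nat_lit 1271251), (nat_lit 1271251), (nat_lit 1271251), (nat_lit 54688), (nat_lit 2559376),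 [(nat_lit 490000), (nat_lit 1427501), (nat_lit 1271251)], [(nat_lit 6), (nat_lit 56), (nat_lit 428), (nat_lit 200), (nat_lit 11)]⟩,
 ⟨⟨[(nat_lit 120), (nat_lit 160), (nat_lit 200)], [(nat_lit 0), (nat_lit 0), (nat_lit 3198)], [((nat_lit 0), (nat_lit 0), (nat_lit 0)), ((nat_lit 0), (nat_lit 0), (nat_lit 0)), ((nat_lit 572), (nat_lit 1000), (nat_lit 714))], ((nat_lit 0), (nat_lit 0), (nat_lit 0))⟩, (nat_lit 115122), (nat_lit 300), (nat_lit 768), (nat_lit 17511200), (nat_lit 750098), [(nat_lit 1880448000), (nat_lit 2801792000), (nat_lit 3870400000)], [], [(nat_lit 16210433100), (nat_lit 15972112118), (nat_lit 15775800902), (nat_lit 15515412684), (nat_lit 13889161752), (nat_lit 15340782332), (nat_lit 13006363696), (nat_lit 12738195860)], (nat_lit 1100000), (nat_lit 1442501), (nat_lit 1271251), (nat_lit 1271251), (nat_lit 54688), (nat_lit 2559376), [(nat_lit 1695001), (nat_lit 1271251), (nat_lit 1271251)], [(nat_lit 29), (nat_lit 66), (nat_lit 456),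 (nat_lit 225), (nat_lit 10)]⟩⟩)) (.dle (nat_lit 0))) (.trZ (nat_lit 0) (nat_lit 1) (nat_lit 3) (nat_lit 72) (nat_lit 61) (nat_lit 100) (nat_lit 220) (.trZ (nat_lit 1) (nat_lit 2) (nat_lit 5) (nat_lit 100) (nat_lit 73) (nat_lit 55) (nat_lit 30) (.trX (nat_lit 5) (nat_lit 1) (nat_lit 2) (nat_lit 71) (nat_lit 70) (nat_lit 100) (nat_lit 350) (.spl (nat_lit 0) (nat_lit 370) (.spl (nat_lit 6) (nat_lit 144) (.spl (nat_lit 1) (nat_lit 350) (.spl (nat_lit 6) (nat_lit 132) (.leaf ⟨(nat_lit 0), (nat_lit 737), (nat_lit 0), (nat_lit 263), (nat_lit 11318), (nat_lit 4275), (nat_lit 5535), (nat_lit 1792), (nat_lit 0), (nat_lit 0), (nat_lit 0), [], Pd.none, Pd.none, (nat_lit 0), (nat_lit 1), (nat_lit 0), (nat_lit 0), (nat_lit 4), (nat_lit 0), [], [], [], [],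
 ⟨⟨[(nat_lit 40), (nat_lit 100), (nat_lit 140)], [(nat_lit 0), (nat_lit 2396), (nat_lit 4896)], [((nat_lit 0), (nat_lit 0), (nat_lit 0)), ((nat_lit 1000), (nat_lit 625), (nat_lit 623)), ((nat_lit 1000), (nat_lit 625), (nat_lit 975))], ((nat_lit 63), (nat_lit 100), (nat_lit 98))⟩, (nat_lit 1862755), (nat_lit 227), (nat_lit 227), (nat_lit 0), (nat_lit 118717), [(nat_lit 2032000039), (nat_lit 6250000045), (nat_lit 9842000000)], [], [(nat_lit 25306499062), (nat_lit 25800798101), (nat_lit 33406834619), (nat_lit 33997534002), (nat_lit 27898401270), (nat_lit 28325302279), (nat_lit 34371581450), (nat_lit 34766424738)], (nat_lit 1271251), (nat_lit 1271251), (nat_lit 1271251), (nat_lit 1271251), (nat_lit 292188), (nat_lit 2325625), [(nat_lit 490000), (nat_lit 1427501), (nat_lit 1271251)], [(nat_lit 5), (nat_lit 55), (nat_lit 428), (nat_lit 200), (nat_lit 11)]⟩,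
 ⟨⟨[(nat_lit 40), (nat_lit 100), (nat_lit 160)], [(nat_lit 0), (nat_lit 1192), (nat_lit 5376)], [((nat_lit 0), (nat_lit 0), (nat_lit 0)), ((nat_lit 1000), (nat_lit 814), (nat_lit 310)), ((nat_lit 919), (nat_lit 747), (nat_lit 1000))], ((nat_lit 76), (nat_lit 96), (nat_lit 100))⟩, (nat_lit 1891394), (nat_lit 271), (nat_lit 271), (nat_lit 0), (nat_lit 133899), [(nat_lit 2032000000), (nat_lit 6250000000), (nat_lit 11872000000)], [], [(nat_lit 28334499258), (nat_lit 28880683713), (nat_lit 36295646520), (nat_lit 36971797948), (nat_lit 29868838253), (nat_lit 30266909028), (nat_lit 36387026943), (nat_lit 36784919888)], (nat_lit 1271251), (nat_lit 1271251), (nat_lit 1271251), (nat_lit 1271251), (nat_lit 169688), (nat_lit 2519688), [(nat_lit 490000), (nat_lit 1427501), (nat_lit 1271251)], [(nat_lit 6), (nat_lit 56), (nat_lit 428), (nat_lit 200), (nat_lit 10)]⟩,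
 ⟨⟨[(nat_lit 120), (nat_lit 160), (nat_lit 200)], [(nat_lit 0), (nat_lit 0), (nat_lit 3198)], [((nat_lit 0), (nat_lit 0), (nat_lit 0)), ((nat_lit 0), (nat_lit 0), (nat_lit 0)), ((nat_lit 572), (nat_lit 1000), (nat_lit 714))], ((nat_lit 0), (nat_lit 0), (nat_lit 0))⟩, (nat_lit 128293), (nat_lit 300), (nat_lit 834), (nat_lit 19514600), (nat_lit 673628), [(nat_lit 2095584000), (nat_lit 3122336000), (nat_lit 4313200000)], [], [(nat_lit 22428026307), (nat_lit 22275355268), (nat_lit 21082226264), (nat_lit 20912251668), (nat_lit 20866452710), (nat_lit 20692425144), (nat_lit 19437360179), (nat_lit 19772810680)], (nat_lit 1100000), (nat_lit 1442501), (nat_lit 292188), (nat_lit 2325625), (nat_lit 169688), (nat_lit 2519688), [(nat_lit 1695001), (nat_lit 1271251), (nat_lit 1271251)], [(nat_lit 29), (nat_lit 66), (nat_lit 456), (nat_lit 225), (nat_lit 10)]⟩⟩) (.dle (nat_lit 0))) (.trZ (nat_lit 0) (nat_lit 1) (nat_lit 3) (nat_lit 68) (nat_lit 61) (nat_lit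 100) (nat_lit 240) (.trZ (nat_lit 1) (nat_lit 2) (nat_lit 5) (nat_lit 100) (nat_lit 68) (nat_lit 61) (nat_lit 40) (.trX (nat_lit 5) (nat_lit 1) (nat_lit 2) (nat_lit 66) (nat_lit 75) (nat_lit 100) (nat_lit 340) (.leaf ⟨(nat_lit 0), (nat_lit 730), (nat_lit 0), (nat_lit 270), (nat_lit 5948), (nat_lit 4552), (nat_lit 4546), (nat_lit 1893), (nat_lit 0), (nat_lit 0), (nat_lit 0), [], Pd.none, Pd.none, (nat_lit 0), (nat_lit 1), (nat_lit 0), (nat_lit 0), (nat_lit 4), (nat_lit 0), [], [], [], [],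
 ⟨⟨[(nat_lit 40), (nat_lit 100), (nat_lit 140)], [(nat_lit 0), (nat_lit 2396), (nat_lit 4896)], [((nat_lit 0), (nat_lit 0), (nat_lit 0)), ((nat_lit 1000), (nat_lit 625), (nat_lit 623)), ((nat_lit 1000), (nat_lit 625), (nat_lit 975))], ((nat_lit 63), (nat_lit 98), (nat_lit 100))⟩, (nat_lit 1598229), (nat_lit 246), (nat_lit 246), (nat_lit 0), (nat_lit 171373), [(nat_lit 2064446294), (nat_lit 6250001537), (nat_lit 9842000000)], [], [(nat_lit 27168339045), (nat_lit 27688438165), (nat_lit 34067884662), (nat_lit 34676078240), (nat_lit 29294075328), (nat_lit 29716486984), (nat_lit 34734960576), (nat_lit 35138248624)], (nat_lit 1271251), (nat_lit 1271251), (nat_lit 1271251), (nat_lit 1271251), (nat_lit 292188), (nat_lit 2325625), [(nat_lit 490000), (nat_lit 1427501), (nat_lit 1271251)], [(nat_lit 5), (nat_lit 55), (nat_lit 428), (nat_lit 200), (nat_lit 11)]⟩,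
 ⟨⟨[(nat_lit 40), (nat_lit 100), (nat_lit 160)], [(nat_lit 0), (nat_lit 1790), (nat_lit 5765)], [((nat_lit 0), (nat_lit 0), (nat_lit 0)), ((nat_lit 1000), (nat_lit 720), (nat_lit 465)), ((nat_lit 966), (nat_lit 696), (nat_lit 1000))], ((nat_lit 69), (nat_lit 94), (nat_lit 100))⟩, (nat_lit 2008117), (nat_lit 309), (nat_lit 309), (nat_lit 0), (nat_lit 181885), [(nat_lit 2032000000), (nat_lit 6250000000), (nat_lit 11872000000)], [], [(nat_lit 26957919202), (nat_lit 27435881997), (nat_lit 33927685223), (nat_lit 34538139154), (nat_lit 29049609305), (nat_lit 29417911555), (nat_lit 35069475703), (nat_lit 35452341174)], (nat_lit 1271251), (nat_lit 1271251), (nat_lit 1271251), (nat_lit 1271251), (nat_lit 230000), (nat_lit 2461251), [(nat_lit 490000), (nat_lit 1427501), (nat_lit 1271251)], [(nat_lit 6), (nat_lit 56), (nat_lit 428), (nat_lit 200), (nat_lit 10)]⟩,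
 ⟨⟨[(nat_lit 120), (nat_lit 160), (nat_lit 200)], [(nat_lit 0), (nat_lit 0), (nat_lit 3198)], [((nat_lit 0), (nat_lit 0), (nat_lit 0)), ((nat_lit 0), (nat_lit 0), (nat_lit 0)), ((nat_lit 572), (nat_lit 1000), (nat_lit 714))], ((nat_lit 0), (nat_lit 0), (nat_lit 0))⟩, (nat_lit 131707), (nat_lit 300), (nat_lit 942), (nat_lit 20034006), (nat_lit 975204), [(nat_lit 2151360000), (nat_lit 3205440000), (nat_lit 4428000000)], [], [(nat_lit 23533148474), (nat_lit 23358022587), (nat_lit 22066190277), (nat_lit 21876897711), (nat_lit 21943775886), (nat_lit 21752049126), (nat_lit 20413632607), (nat_lit 20374184829)], (nat_lit 1100000), (nat_lit 1442501), (nat_lit 292188), (nat_lit 2325625), (nat_lit 230000), (nat_lit 2461251), [(nat_lit 1695001), (nat_lit 1271251), (nat_lit 1271251)], [(nat_lit 29), (nat_lit 66), (nat_lit 456), (nat_lit 225), (nat_lit 10)]⟩⟩))))) (.dle (nat_lit 0))) (.trZ (nat_lit 0) (nat_lit 1) (nat_lit 3) (nat_lit 73) (nat_lit 54) (nat_lit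 100) (nat_lit 240) (.trZ (nat_lit 0) (nat_lit 2) (nat_lit 4) (nat_lit 100) (nat_lit 54) (nat_lit 74) (nat_lit 60) (.trX (nat_lit 4) (nat_lit 0) (nat_lit 2) (nat_lit 53) (nat_lit 85) (nat_lit 100) (nat_lit 310) (.spl (nat_lit 4) (nat_lit 200) (.leaf ⟨(nat_lit 0), (nat_lit 788), (nat_lit 0), (nat_lit 212), (nat_lit 2594), (nat_lit 4486), (nat_lit 5715), (nat_lit 1884), (nat_lit 0), (nat_lit 0), (nat_lit 0), [], Pd.none, Pd.none, (nat_lit 0), (nat_lit 1), (nat_lit 0), (nat_lit 0), (nat_lit 4), (nat_lit 0), [], [], [⟨(nat_lit 1), (nat_lit 82), (nat_lit 66), (nat_lit 100), (nat_lit 2010938)⟩], [],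
 ⟨⟨[(nat_lit 40), (nat_lit 100), (nat_lit 140)], [(nat_lit 0), (nat_lit 2998), (nat_lit 5352)], [((nat_lit 0), (nat_lit 0), (nat_lit 0)), ((nat_lit 1000), (nat_lit 532), (nat_lit 779)), ((nat_lit 1000), (nat_lit 531), (nat_lit 919))], ((nat_lit 54), (nat_lit 96), (nat_lit 100))⟩, (nat_lit 1484664), (nat_lit 278), (nat_lit 278), (nat_lit 0), (nat_lit 218946), [(nat_lit 2032000250), (nat_lit 6250003294), (nat_lit 9842000000)], [], [(nat_lit 26948582510), (nat_lit 27586949409), (nat_lit 34035248198), (nat_lit 34636652303), (nat_lit 26907424658), (nat_lit 27291070308), (nat_lit 32662905628), (nat_lit 33173909729)], (nat_lit 1271251), (nat_lit 1271251), (nat_lit 1271251), (nat_lit 1271251), (nat_lit 356250), (nat_lit 1423751), [(nat_lit 490000), (nat_lit 1427501), (nat_lit 1271251)], [(nat_lit 5), (nat_lit 55), (nat_lit 373), (nat_lit 150), (nat_lit 10)]⟩,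
 ⟨⟨[(nat_lit 40), (nat_lit 100), (nat_lit 160)], [(nat_lit 0), (nat_lit 1192), (nat_lit 5376)], [((nat_lit 0), (nat_lit 0), (nat_lit 0)), ((nat_lit 1000), (nat_lit 814), (nat_lit 310)), ((nat_lit 919), (nat_lit 747), (nat_lit 1000))], ((nat_lit 73), (nat_lit 85), (nat_lit 100))⟩, (nat_lit 1571518), (nat_lit 345), (nat_lit 345), (nat_lit 0), (nat_lit 248931), [(nat_lit 2032000000), (nat_lit 6250000000), (nat_lit 11872000000)], [], [(nat_lit 30603570833), (nat_lit 31672352174), (nat_lit 37280576897), (nat_lit 38145306867), (nat_lit 31637729019), (nat_lit 32413113832), (nat_lit 36626823933), (nat_lit 37431763543)], (nat_lit 1271251), (nat_lit 1271251), (nat_lit 1271251), (nat_lit 1271251), (nat_lit 169688), (nat_lit 2519688), [(nat_lit 490000), (nat_lit 1427501), (nat_lit 1271251)], [(nat_lit 6), (nat_lit 56), (nat_lit 428), (nat_lit 200), (nat_lit 10)]⟩,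
 ⟨⟨[(nat_lit 120), (nat_lit 160), (nat_lit 200)], [(nat_lit 0), (nat_lit 0), (nat_lit 3198)], [((nat_lit 0), (nat_lit 0), (nat_lit 0)), ((nat_lit 0), (nat_lit 0), (nat_lit 0)), ((nat_lit 572), (nat_lit 1000), (nat_lit 714))], ((nat_lit 0), (nat_lit 0), (nat_lit 0))⟩, (nat_lit 103415), (nat_lit 300), (nat_lit 1103), (nat_lit 15730400), (nat_lit 1322104), [(nat_lit 1689216000), (nat_lit 2516864000), (nat_lit 3476800000)], [], [(nat_lit 17693724488), (nat_lit 17471262767), (nat_lit 16601377984), (nat_lit 16379894692), (nat_lit 15684153387), (nat_lit 15454672134), (nat_lit 14615358368), (nat_lit 14780577943)], (nat_lit 1100000), (nat_lit 1442501), (nat_lit 356250), (nat_lit 1423751), (nat_lit 169688), (nat_lit 2519688), [(nat_lit 1695001), (nat_lit 1271251), (nat_lit 1271251)], [(nat_lit 29), (nat_lit 66), (nat_lit 428), (nat_lit 200), (nat_lit 9)]⟩⟩) (.leaf ⟨(nat_lit 0), (nat_lit 752), (nat_lit 0), (nat_lit 248), (nat_lit 0), (nat_lit 5002), (nat_lit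 5469), (nat_lit 2404), (nat_lit 0), (nat_lit 0), (nat_lit 0), [], Pd.none, Pd.none, (nat_lit 0), (nat_lit 1), (nat_lit 0), (nat_lit 0), (nat_lit 5), (nat_lit 0), [], [⟨(nat_lit 1), (nat_lit 92), (nat_lit 49), (nat_lit 100), (nat_lit 228169655)⟩], [], [],
 ⟨⟨[(nat_lit 40), (nat_lit 100), (nat_lit 140)], [(nat_lit 0), (nat_lit 2998), (nat_lit 5352)], [((nat_lit 0), (nat_lit 0), (nat_lit 0)), ((nat_lit 1000), (nat_lit 532), (nat_lit 779)), ((nat_lit 1000), (nat_lit 531), (nat_lit 919))], ((nat_lit 54), (nat_lit 96), (nat_lit 100))⟩, (nat_lit 1224666), (nat_lit 196), (nat_lit 196), (nat_lit 0), (nat_lit 218946), [(nat_lit 2168299635), (nat_lit 6287428736), (nat_lit 9842000000)], [], [(nat_lit 27883707150), (nat_lit 28445697420), (nat_lit 33654725980), (nat_lit 34031125888), (nat_lit 30480435628), (nat_lit 30929427347), (nat_lit 35494356387), (nat_lit 35921698346)], (nat_lit 1271251), (nat_lit 1271251), (nat_lit 1271251), (nat_lit 1271251), (nat_lit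 1271251), (nat_lit 1271251), [(nat_lit 490000), (nat_lit 1427501), (nat_lit 1271251)], [(nat_lit 5), (nat_lit 55), (nat_lit 428), (nat_lit 200), (nat_lit 11)]⟩,
 ⟨⟨[(nat_lit 40), (nat_lit 100), (nat_lit 160)], [(nat_lit 0), (nat_lit 1192), (nat_lit 5376)], [((nat_lit 0), (nat_lit 0), (nat_lit 0)), ((nat_lit 1000), (nat_lit 814), (nat_lit 310)), ((nat_lit 919), (nat_lit 747), (nat_lit 1000))], ((nat_lit 73), (nat_lit 85), (nat_lit 100))⟩, (nat_lit 1837563), (nat_lit 345), (nat_lit 345), (nat_lit 0), (nat_lit 248931), [(nat_lit 2032000000), (nat_lit 6250000000), (nat_lit 11872000000)], [], [(nat_lit 29068841050), (nat_lit 30115223415), (nat_lit 36128870023), (nat_lit 37472756617), (nat_lit 30321583518), (nat_lit 31084659001), (nat_lit 36299101380), (nat_lit 37091530906)], (nat_lit 1271251), (nat_lit 1271251), (nat_lit 1271251), (nat_lit 1271251), (nat_lit 169688), (nat_lit 2519688), [(nat_lit 490000), (nat_lit 1427501), (nat_lit 1271251)], [(nat_lit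 6), (nat_lit 56), (nat_lit 428), (nat_lit 200), (nat_lit 10)]⟩,
 ⟨⟨[(nat_lit 120), (nat_lit 160), (nat_lit 200)], [(nat_lit 0), (nat_lit 0), (nat_lit 3198)], [((nat_lit 0), (nat_lit 0), (nat_lit 0)), ((nat_lit 0), (nat_lit 0), (nat_lit 0)), ((nat_lit 572), (nat_lit 1000), (nat_lit 714))], ((nat_lit 0), (nat_lit 0), (nat_lit 0))⟩, (nat_lit 120976), (nat_lit 300), (nat_lit 1028), (nat_lit 18401600), (nat_lit 1322104), [(nat_lit 1976064000), (nat_lit 2944256000), (nat_lit 4067200000)], [], [(nat_lit 18232572204), (nat_lit 17941870406), (nat_lit 17620023242), (nat_lit 17319720179), (nat_lit 15604845772), (nat_lit 16136549426), (nat_lit 14936283262), (nat_lit 14629751448)], (nat_lit 1100000), (nat_lit 1442501), (nat_lit 1271251), (nat_lit 1271251), (nat_lit 169688), (nat_lit 2519688), [(nat_lit 1695001), (nat_lit 1271251), (nat_lit 1271251)], [(nat_lit 29), (nat_lit 66), (nat_lit 456), (nat_lit 225), (nat_lit 10)]⟩⟩)))))))))) (.dle (nat_lit 0)))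
def l036 : List St := [⟨⟨(nat_lit 360), (nat_lit 380), (nat_lit 320), (nat_lit 380), (nat_lit 120), (nat_lit 260), (nat_lit 200), (nat_lit 400), (nat_lit 20), (nat_lit 200), (nat_lit 0), (nat_lit 390), (nat_lit 0), (nat_lit 104)⟩, (nat_lit 0), (nat_lit 3), (nat_lit 0), false, false, false⟩,
  ⟨⟨(nat_lit 360), (nat_lit 380), (nat_lit 320), (nat_lit 380), (nat_lit 120), (nat_lit 260), (nat_lit 200), (nat_lit 400), (nat_lit 200), (nat_lit 370), (nat_lit 0), (nat_lit 390), (nat_lit 0), (nat_lit 104)⟩, (nat_lit 0), (nat_lit 3), (nat_lit 0), false, false, false⟩,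
  ⟨⟨(nat_lit 360), (nat_lit 380), (nat_lit 320), (nat_lit 380), (nat_lit 120), (nat_lit 260), (nat_lit 200), (nat_lit 400), (nat_lit 20), (nat_lit 120), (nat_lit 0), (nat_lit 390), (nat_lit 0), (nat_lit 52)⟩, (nat_lit 1), (nat_lit 3), (nat_lit 0), false, true, false⟩,
  ⟨⟨(nat_lit 360), (nat_lit 380), (nat_lit 320), (nat_lit 380), (nat_lit 120), (nat_lit 260), (nat_lit 200), (nat_lit 400), (nat_lit 120), (nat_lit 370), (nat_lit 0), (nat_lit 390), (nat_lit 0), (nat_lit 52)⟩, (nat_lit 1), (nat_lit 3), (nat_lit 0), false, false, false⟩,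
  ⟨⟨(nat_lit 360), (nat_lit 380), (nat_lit 320), (nat_lit 380), (nat_lit 120), (nat_lit 260), (nat_lit 200), (nat_lit 400), (nat_lit 20), (nat_lit 370), (nat_lit 0), (nat_lit 390), (nat_lit 52), (nat_lit 104)⟩, (nat_lit 1), (nat_lit 3), (nat_lit 0), false, false, false⟩,
  ⟨⟨(nat_lit 360), (nat_lit 380), (nat_lit 320), (nat_lit 380), (nat_lit 120), (nat_lit 200), (nat_lit 200), (nat_lit 400), (nat_lit 20), (nat_lit 160), (nat_lit 0), (nat_lit 360), (nat_lit 0), (nat_lit 52)⟩, (nat_lit 0), (nat_lit 3), (nat_lit 1), false, false, false⟩,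
  ⟨⟨(nat_lit 360), (nat_lit 380), (nat_lit 320), (nat_lit 380), (nat_lit 120), (nat_lit 200), (nat_lit 200), (nat_lit 400), (nat_lit 160), (nat_lit 320), (nat_lit 0), (nat_lit 200), (nat_lit 0), (nat_lit 52)⟩, (nat_lit 0), (nat_lit 3), (nat_lit 1), false, false, false⟩,
  ⟨⟨(nat_lit 360), (nat_lit 380), (nat_lit 320), (nat_lit 380), (nat_lit 120), (nat_lit 200), (nat_lit 200), (nat_lit 320), (nat_lit 160), (nat_lit 240), (nat_lit 200), (nat_lit 360), (nat_lit 0), (nat_lit 52)⟩, (nat_lit 0), (nat_lit 3), (nat_lit 1), false, false, false⟩,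
  ⟨⟨(nat_lit 360), (nat_lit 380), (nat_lit 320), (nat_lit 380), (nat_lit 120), (nat_lit 200), (nat_lit 200), (nat_lit 320), (nat_lit 240), (nat_lit 320), (nat_lit 200), (nat_lit 360), (nat_lit 0), (nat_lit 52)⟩, (nat_lit 0), (nat_lit 3), (nat_lit 1), false, false, false⟩,
  ⟨⟨(nat_lit 360), (nat_lit 380), (nat_lit 320), (nat_lit 380), (nat_lit 120), (nat_lit 200), (nat_lit 320), (nat_lit 400), (nat_lit 160), (nat_lit 320), (nat_lit 200), (nat_lit 280), (nat_lit 0), (nat_lit 52)⟩, (nat_lit 0), (nat_lit 3), (nat_lit 1), false, false, false⟩,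
  ⟨⟨(nat_lit 360), (nat_lit 380), (nat_lit 320), (nat_lit 380), (nat_lit 120), (nat_lit 160), (nat_lit 320), (nat_lit 400), (nat_lit 160), (nat_lit 320), (nat_lit 280), (nat_lit 360), (nat_lit 0), (nat_lit 52)⟩, (nat_lit 0), (nat_lit 3), (nat_lit 1), false, false, false⟩,
  ⟨⟨(nat_lit 360), (nat_lit 380), (nat_lit 320), (nat_lit 380), (nat_lit 160), (nat_lit 200), (nat_lit 320), (nat_lit 400), (nat_lit 160), (nat_lit 320), (nat_lit 280), (nat_lit 360), (nat_lit 0), (nat_lit 52)⟩, (nat_lit 0), (nat_lit 3), (nat_lit 1), false, false, false⟩,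
  ⟨⟨(nat_lit 360), (nat_lit 380), (nat_lit 320), (nat_lit 380), (nat_lit 120), (nat_lit 200), (nat_lit 200), (nat_lit 400), (nat_lit 20), (nat_lit 320), (nat_lit 0), (nat_lit 200), (nat_lit 0), (nat_lit 52)⟩, (nat_lit 1), (nat_lit 3), (nat_lit 1), false, false, false⟩,
  ⟨⟨(nat_lit 360), (nat_lit 380), (nat_lit 320), (nat_lit 380), (nat_lit 120), (nat_lit 200), (nat_lit 200), (nat_lit 400), (nat_lit 20), (nat_lit 320), (nat_lit 200), (nat_lit 360), (nat_lit 0), (nat_lit 52)⟩, (nat_lit 1), (nat_lit 3), (nat_lit 1), false, false, false⟩,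
  ⟨⟨(nat_lit 360), (nat_lit 380), (nat_lit 320), (nat_lit 380), (nat_lit 200), (nat_lit 260), (nat_lit 200), (nat_lit 400), (nat_lit 80), (nat_lit 370), (nat_lit 40), (nat_lit 390), (nat_lit 0), (nat_lit 52)⟩, (nat_lit 0), (nat_lit 3), (nat_lit 1), false, false, false⟩,
  ⟨⟨(nat_lit 360), (nat_lit 380), (nat_lit 320), (nat_lit 380), (nat_lit 200), (nat_lit 260), (nat_lit 200), (nat_lit 400), (nat_lit 80), (nat_lit 370), (nat_lit 40), (nat_lit 390), (nat_lit 0), (nat_lit 52)⟩, (nat_lit 1), (nat_lit 3), (nat_lit 1), false, false, false⟩,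
  ⟨⟨(nat_lit 360), (nat_lit 380), (nat_lit 320), (nat_lit 380), (nat_lit 120), (nat_lit 200), (nat_lit 200), (nat_lit 400), (nat_lit 20), (nat_lit 320), (nat_lit 0), (nat_lit 200), (nat_lit 52), (nat_lit 104)⟩, (nat_lit 3), (nat_lit 3), (nat_lit 1), false, false, false⟩,
  ⟨⟨(nat_lit 360), (nat_lit 380), (nat_lit 320), (nat_lit 380), (nat_lit 120), (nat_lit 200), (nat_lit 200), (nat_lit 400), (nat_lit 20), (nat_lit 320), (nat_lit 200), (nat_lit 360), (nat_lit 52), (nat_lit 104)⟩, (nat_lit 3), (nat_lit 0), (nat_lit 1), false, false, false⟩,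
  ⟨⟨(nat_lit 360), (nat_lit 380), (nat_lit 320), (nat_lit 380), (nat_lit 120), (nat_lit 200), (nat_lit 200), (nat_lit 400), (nat_lit 20), (nat_lit 320), (nat_lit 200), (nat_lit 360), (nat_lit 52), (nat_lit 104)⟩, (nat_lit 3), (nat_lit 1), (nat_lit 1), false, false, false⟩,
  ⟨⟨(nat_lit 360), (nat_lit 380), (nat_lit 320), (nat_lit 380), (nat_lit 200), (nat_lit 260), (nat_lit 200), (nat_lit 400), (nat_lit 20), (nat_lit 370), (nat_lit 0), (nat_lit 390), (nat_lit 52), (nat_lit 104)⟩, (nat_lit 3), (nat_lit 3), (nat_lit 1), false, false, false⟩,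
  ⟨⟨(nat_lit 360), (nat_lit 380), (nat_lit 320), (nat_lit 340), (nat_lit 120), (nat_lit 140), (nat_lit 200), (nat_lit 320), (nat_lit 20), (nat_lit 270), (nat_lit 0), (nat_lit 320), (nat_lit 104), (nat_lit 184)⟩, (nat_lit 3), (nat_lit 3), (nat_lit 3), false, false, false⟩,
  ⟨⟨(nat_lit 360), (nat_lit 380), (nat_lit 320), (nat_lit 340), (nat_lit 120), (nat_lit 140), (nat_lit 320), (nat_lit 400), (nat_lit 20), (nat_lit 270), (nat_lit 0), (nat_lit 320), (nat_lit 104), (nat_lit 184)⟩, (nat_lit 3), (nat_lit 3), (nat_lit 3), false, false, false⟩,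
  ⟨⟨(nat_lit 360), (nat_lit 380), (nat_lit 340), (nat_lit 360), (nat_lit 120), (nat_lit 140), (nat_lit 200), (nat_lit 400), (nat_lit 20), (nat_lit 270), (nat_lit 0), (nat_lit 320), (nat_lit 104), (nat_lit 204)⟩, (nat_lit 3), (nat_lit 3), (nat_lit 3), false, false, false⟩,
  ⟨⟨(nat_lit 360), (nat_lit 380), (nat_lit 320), (nat_lit 340), (nat_lit 140), (nat_lit 160), (nat_lit 200), (nat_lit 400), (nat_lit 30), (nat_lit 290), (nat_lit 10), (nat_lit 340), (nat_lit 104), (nat_lit 184)⟩, (nat_lit 3), (nat_lit 3), (nat_lit 3), false, false, false⟩,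
  ⟨⟨(nat_lit 360), (nat_lit 380), (nat_lit 340), (nat_lit 360), (nat_lit 140), (nat_lit 160), (nat_lit 200), (nat_lit 400), (nat_lit 30), (nat_lit 290), (nat_lit 10), (nat_lit 340), (nat_lit 104), (nat_lit 184)⟩, (nat_lit 3), (nat_lit 3), (nat_lit 3), false, false, false⟩,
  ⟨⟨(nat_lit 360), (nat_lit 380), (nat_lit 360), (nat_lit 380), (nat_lit 120), (nat_lit 140), (nat_lit 250), (nat_lit 400), (nat_lit 20), (nat_lit 290), (nat_lit 20), (nat_lit 290), (nat_lit 104), (nat_lit 204)⟩, (nat_lit 3), (nat_lit 3), (nat_lit 3), false, false, false⟩,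
  ⟨⟨(nat_lit 360), (nat_lit 380), (nat_lit 360), (nat_lit 380), (nat_lit 140), (nat_lit 160), (nat_lit 250), (nat_lit 400), (nat_lit 20), (nat_lit 290), (nat_lit 20), (nat_lit 290), (nat_lit 104), (nat_lit 204)⟩, (nat_lit 3), (nat_lit 3), (nat_lit 3), false, false, false⟩,
  ⟨⟨(nat_lit 360), (nat_lit 380), (nat_lit 320), (nat_lit 360), (nat_lit 160), (nat_lit 200), (nat_lit 200), (nat_lit 400), (nat_lit 50), (nat_lit 320), (nat_lit 10), (nat_lit 360), (nat_lit 104), (nat_lit 192)⟩, (nat_lit 3), (nat_lit 3), (nat_lit 3), false, false, false⟩]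
theorem t036 (h : EC env Ei) : ∀ τ ∈ l036, Dead τ :=
  List.forall_mem_cons.mpr ⟨chkT_sound0 h (T := c18_0) (by decide +kernel),
  List.forall_mem_cons.mpr ⟨chkT_sound0 h (T := c18_1) (by decide +kernel),
  List.forall_mem_cons.mpr ⟨chkT_sound0 h (T := c18_2) (by decide +kernel),
  List.forall_mem_cons.mpr ⟨chkT_sound0 h (T := c18_3) (by decide +kernel),
  List.forall_mem_cons.mpr ⟨chkT_sound0 h (T := c18_4) (by decide +kernel),
  List.forall_mem_cons.mpr ⟨chkT_sound0 h (T := c18_5) (by decide +kernel),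
  List.forall_mem_cons.mpr ⟨chkT_sound0 h (T := c18_6) (by decide +kernel),
  List.forall_mem_cons.mpr ⟨chkT_sound0 h (T := c18_7) (by decide +kernel),
  List.forall_mem_cons.mpr ⟨chkT_sound0 h (T := c18_8) (by decide +kernel),
  List.forall_mem_cons.mpr ⟨chkT_sound0 h (T := c18_9) (by decide +kernel),
  List.forall_mem_cons.mpr ⟨chkT_sound0 h (T := c18_10) (by decide +kernel),
  List.forall_mem_cons.mpr ⟨chkT_sound0 h (T := c18_11) (by decide +kernel),
  List.forall_mem_cons.mpr ⟨chkT_sound0 h (T := c18_12) (by decide +kernel),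
  List.forall_mem_cons.mpr ⟨chkT_sound0 h (T := c18_13) (by decide +kernel),
  List.forall_mem_cons.mpr ⟨chkT_sound0 h (T := c18_14) (by decide +kernel),
  List.forall_mem_cons.mpr ⟨chkT_sound0 h (T := c18_15) (by decide +kernel),
  List.forall_mem_cons.mpr ⟨chkT_sound0 h (T := c18_16) (by decide +kernel),
  List.forall_mem_cons.mpr ⟨chkT_sound0 h (T := c18_17) (by decide +kernel),
  List.forall_mem_cons.mpr ⟨chkT_sound0 h (T := c18_18) (by decide +kernel),
  List.forall_mem_cons.mpr ⟨chkT_sound0 h (T := c18_19) (by decide +kernel),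
  List.forall_mem_cons.mpr ⟨chkT_sound0 h (T := c18_20) (by decide +kernel),
  List.forall_mem_cons.mpr ⟨chkT_sound0 h (T := c18_21) (by decide +kernel),
  List.forall_mem_cons.mpr ⟨chkT_sound0 h (T := c18_22) (by decide +kernel),
  List.forall_mem_cons.mpr ⟨chkT_sound0 h (T := c18_23) (by decide +kernel),
  List.forall_mem_cons.mpr ⟨chkT_sound0 h (T := c18_24) (by decide +kernel),
  List.forall_mem_cons.mpr ⟨chkT_sound0 h (T := c18_25) (by decide +kernel),
  List.forall_mem_cons.mpr ⟨chkT_sound0 h (T := c18_26) (by decide +kernel),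
  List.forall_mem_cons.mpr ⟨chkT_sound0 h (T := c18_27) (by decide +kernel),
  List.forall_mem_nil _⟩⟩⟩⟩⟩⟩⟩⟩⟩⟩⟩⟩⟩⟩⟩⟩⟩⟩⟩⟩⟩⟩⟩⟩⟩⟩⟩⟩
end TC
end Pool.Agent.Lib.MP_6947cd_al
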