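import Pool.Agent.Lib.MP_6947cd_al.C.LeafF
import Pool.Agent.Lib.MP_6947cd_al.TC.E
import Pool.Agent.Lib.MP_6947cd_al.TC.F

/-!
Problem MP_6947cd_al (Chollet).  CASE C, tables and certificates.  Trees of leaves (part 37 of root 18).
-/

set_option autoImplicit false
set_option linter.all false
set_option maxRecDepth 100000
set_option maxHeartbeats 4000000
namespace Pool.Agent.Lib.MP_6947cd_al
namespace TC
open C1
noncomputable def c18_28 : Tr Lf :=
 (.trZ (nat_lit 0) (nat_lit 1) (nat_lit 3) (nat_lit 63) (nat_lit 63) (nat_lit 100) (nat_lit 250) (.trZ (nat_lit 1) (nat_lit 2) (nat_lit 5) (nat_lit 100) (nat_lit 61) (nat_lit 68) (nat_lit 50) (.trX (nat_lit 5) (nat_lit 1) (nat_lit 2) (nat_lit 60) (nat_lit 80) (nat_lit 100) (nat_lit 320) (.spl (nat_lit 6) (nat_lit 148) (.spl (nat_lit 4) (nat_lit 200) (.leaf ⟨(nat_lit 0), (nat_lit 883), (nat_lit 0), (nat_lit 117), (nat_lit 0), (nat_lit 7716), (nat_lit 4916), (nat_lit 1267), (nat_lit 541629067785), (nat_lit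 0), (nat_lit 0), [], Pd.none, Pd.none, (nat_lit 0), (nat_lit 1), (nat_lit 0), (nat_lit 0), (nat_lit 4), (nat_lit 0), [], [], [⟨(nat_lit 1), (nat_lit 90), (nat_lit 53), (nat_lit 100), (nat_lit 159391602)⟩], [],
 ⟨⟨[(nat_lit 40), (nat_lit 100), (nat_lit 140)], [(nat_lit 0), (nat_lit 2396), (nat_lit 4896)], [((nat_lit 0), (nat_lit 0), (nat_lit 0)), ((nat_lit 1000), (nat_lit 625), (nat_lit 623)), ((nat_lit 1000), (nat_lit 625), (nat_lit 975))], ((nat_lit 62), (nat_lit 96), (nat_lit 100))⟩, (nat_lit 557598), (nat_lit 300), (nat_lit 319), (nat_lit 50800002), (nat_lit 324446), [(nat_lit 2032000007), (nat_lit 6379610646), (nat_lit 9842000000)], [], [(nat_lit 35536041120), (nat_lit 36609621234), (nat_lit 41618651221), (nat_lit 43234689149), (nat_lit 32379330889), (nat_lit 33248438820), (nat_lit 36611371956), (nat_lit 37947854574)], (nat_lit 1271251), (nat_lit 1271251), (nat_lit 1271251), (nat_lit 1271251), (nat_lit 292188), (nat_lit 1421875), [(nat_lit 490000),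 (nat_lit 1427501), (nat_lit 1271251)], [(nat_lit 5), (nat_lit 55), (nat_lit 373), (nat_lit 150), (nat_lit 10)]⟩,
 ⟨⟨[(nat_lit 40), (nat_lit 100), (nat_lit 140)], [(nat_lit 0), (nat_lit 2396), (nat_lit 4896)], [((nat_lit 0), (nat_lit 0), (nat_lit 0)), ((nat_lit 1000), (nat_lit 625), (nat_lit 623)), ((nat_lit 1000), (nat_lit 625), (nat_lit 975))], ((nat_lit 62), (nat_lit 96), (nat_lit 100))⟩, (nat_lit 1323106), (nat_lit 319), (nat_lit 319), (nat_lit 0), (nat_lit 324446), [(nat_lit 2032000000), (nat_lit 6250000000), (nat_lit 9842000000)], [], [(nat_lit 29101506887), (nat_lit 30158140746), (nat_lit 35309343371), (nat_lit 36198921599), (nat_lit 30685791375), (nat_lit 31539194111), (nat_lit 35212469608), (nat_lit 36041239876)], (nat_lit 1271251), (nat_lit 1271251), (nat_lit 1271251), (nat_lit 1271251), (nat_lit 292188), (nat_lit 2325625), [(nat_lit 490000), (nat_lit 1427501), (nat_lit 1271251)], [(nat_lit 5), (nat_lit 55), (nat_lit 428), (nat_lit 200),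 (nat_lit 11)]⟩,
 ⟨⟨[(nat_lit 120), (nat_lit 160), (nat_lit 200)], [(nat_lit 0), (nat_lit 0), (nat_lit 3198)], [((nat_lit 0), (nat_lit 0), (nat_lit 0)), ((nat_lit 0), (nat_lit 0), (nat_lit 0)), ((nat_lit 572), (nat_lit 1000), (nat_lit 714))], ((nat_lit 0), (nat_lit 0), (nat_lit 0))⟩, (nat_lit 57073), (nat_lit 300), (nat_lit 1375), (nat_lit 8681403), (nat_lit 1947329), [(nat_lit 932256000), (nat_lit 1389024000), (nat_lit 1918800000)], [], [(nat_lit 8643214426), (nat_lit 8483065930), (nat_lit 7770772945), (nat_lit 7610574453), (nat_lit 7403373549), (nat_lit 7239339103), (nat_lit 7687854924), (nat_lit 8443687339)], (nat_lit 1100000), (nat_lit 1442501), (nat_lit 292188), (nat_lit 1421875), (nat_lit 292188), (nat_lit 2325625), [(nat_lit 1695001), (nat_lit 1271251), (nat_lit 1271251)], [(nat_lit 29), (nat_lit 66), (nat_lit 434), (nat_lit 200), (nat_lit 10)]⟩⟩) (.leaf ⟨(nat_lit 0), (nat_lit 859), (nat_lit 0), (nat_lit 141), (nat_lit 0), (nat_lit 7609), (nat_lit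 4859), (nat_lit 1502), (nat_lit 2633440262321), (nat_lit 0), (nat_lit 0), [], Pd.none, Pd.none, (nat_lit 0), (nat_lit 1), (nat_lit 0), (nat_lit 0), (nat_lit 5), (nat_lit 0), [⟨(nat_lit 0), (nat_lit 59), (nat_lit 59), (nat_lit 100), (nat_lit 18528523)⟩], [⟨(nat_lit 1), (nat_lit 90), (nat_lit 53), (nat_lit 100), (nat_lit 337250450)⟩], [⟨(nat_lit 1), (nat_lit 90), (nat_lit 53), (nat_lit 100), (nat_lit 141988430)⟩], [],
 ⟨⟨[(nat_lit 40), (nat_lit 100), (nat_lit 140)], [(nat_lit 0), (nat_lit 2396), (nat_lit 4896)], [((nat_lit 0), (nat_lit 0), (nat_lit 0)), ((nat_lit 1000), (nat_lit 625), (nat_lit 623)), ((nat_lit 1000), (nat_lit 625), (nat_lit 975))], ((nat_lit 62), (nat_lit 96), (nat_lit 100))⟩, (nat_lit 590339), (nat_lit 227), (nat_lit 227), (nat_lit 0), (nat_lit 324446), [(nat_lit 2751313791), (nat_lit 6693608339), (nat_lit 9842000000)], [], [(nat_lit 29864594048), (nat_lit 31241217532), (nat_lit 36463643369), (nat_lit 37789708414), (nat_lit 32859774712),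 (nat_lit 33897496129), (nat_lit 38745249342), (nat_lit 39738219899)], (nat_lit 1271251), (nat_lit 1271251), (nat_lit 1271251), (nat_lit 1271251), (nat_lit 1271251), (nat_lit 1271251), [(nat_lit 490000), (nat_lit 1427501), (nat_lit 1271251)], [(nat_lit 5), (nat_lit 55), (nat_lit 428), (nat_lit 200), (nat_lit 11)]⟩,
 ⟨⟨[(nat_lit 40), (nat_lit 100), (nat_lit 140)], [(nat_lit 0), (nat_lit 2396), (nat_lit 4896)], [((nat_lit 0), (nat_lit 0), (nat_lit 0)), ((nat_lit 1000), (nat_lit 625), (nat_lit 623)), ((nat_lit 1000), (nat_lit 625), (nat_lit 975))], ((nat_lit 62), (nat_lit 96), (nat_lit 100))⟩, (nat_lit 1343116), (nat_lit 319), (nat_lit 319), (nat_lit 0), (nat_lit 324446), [(nat_lit 2032000000), (nat_lit 6250000000), (nat_lit 9842000000)], [], [(nat_lit 29015099758), (nat_lit 30065974582), (nat_lit 35170273236), (nat_lit 36055693474), (nat_lit 30617743582), (nat_lit 31467245031), (nat_lit 35137694842), (nat_lit 35962989649)], (nat_lit 1271251), (nat_lit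 1271251), (nat_lit 1271251), (nat_lit 1271251), (nat_lit 292188), (nat_lit 2325625), [(nat_lit 490000), (nat_lit 1427501), (nat_lit 1271251)], [(nat_lit 5), (nat_lit 55), (nat_lit 428), (nat_lit 200), (nat_lit 11)]⟩,
 ⟨⟨[(nat_lit 120), (nat_lit 160), (nat_lit 200)], [(nat_lit 0), (nat_lit 0), (nat_lit 3198)], [((nat_lit 0), (nat_lit 0), (nat_lit 0)), ((nat_lit 0), (nat_lit 0), (nat_lit 0)), ((nat_lit 572), (nat_lit 1000), (nat_lit 714))], ((nat_lit 0), (nat_lit 0), (nat_lit 0))⟩, (nat_lit 68780), (nat_lit 300), (nat_lit 1289), (nat_lit 10462208), (nat_lit 1947329), [(nat_lit 1123488000), (nat_lit 1673952000), (nat_lit 2312400000)], [], [(nat_lit 9537510014), (nat_lit 9342636217), (nat_lit 9061076667), (nat_lit 8867665453), (nat_lit 8231859288), (nat_lit 9131031434), (nat_lit 7594085440), (nat_lit 7398290818)], (nat_lit 1100000), (nat_lit 1442501), (nat_lit 1271251), (nat_lit 1271251), (nat_lit 292188), (nat_lit 2325625), [(nat_lit 1695001), (nat_lit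 1271251), (nat_lit 1271251)], [(nat_lit 29), (nat_lit 66), (nat_lit 456), (nat_lit 225), (nat_lit 10)]⟩⟩)) (.spl (nat_lit 5) (nat_lit 200) (.spl (nat_lit 0) (nat_lit 370) (.ord (.spl (nat_lit 6) (nat_lit 160) (.leaf ⟨(nat_lit 0), (nat_lit 765), (nat_lit 0), (nat_lit 235), (nat_lit 47981), (nat_lit 4256), (nat_lit 4107), (nat_lit 2305), (nat_lit 6490216747831), (nat_lit 0), (nat_lit 0), [], Pd.none, Pd.none, (nat_lit 0), (nat_lit 1), (nat_lit 0), (nat_lit 0), (nat_lit 4), (nat_lit 0), [⟨(nat_lit 0), (nat_lit 59), (nat_lit 59), (nat_lit 100), (nat_lit 127101869)⟩], [⟨(nat_lit 1), (nat_lit 88), (nat_lit 57), (nat_lit 100), (nat_lit 304832)⟩], [], [],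
 ⟨⟨[(nat_lit 40), (nat_lit 100), (nat_lit 160)], [(nat_lit 0), (nat_lit 2396), (nat_lit 6144)], [((nat_lit 0), (nat_lit 0), (nat_lit 0)), ((nat_lit 1000), (nat_lit 625), (nat_lit 623)), ((nat_lit 1000), (nat_lit 625), (nat_lit 975))], ((nat_lit 61), (nat_lit 92), (nat_lit 100))⟩, (nat_lit 1721570), (nat_lit 226), (nat_lit 226), (nat_lit 0), (nat_lit 41523), [(nat_lit 2032000157), (nat_lit 6250000239), (nat_lit 11872000000)], [], [(nat_lit 28230628967), (nat_lit 28659747707), (nat_lit 33884758208), (nat_lit 34269868052), (nat_lit 30068811552), (nat_lit 30439275093), (nat_lit 34346656528), (nat_lit 34740920572)], (nat_lit 1271251), (nat_lit 1271251), (nat_lit 1271251), (nat_lit 1271251), (nat_lit 292188), (nat_lit 2325625), [(nat_lit 490000), (nat_lit 1427501), (nat_lit 1271251)], [(nat_lit 6), (nat_lit 56), (nat_lit 428), (nat_lit 200), (nat_lit 10)]⟩,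
 ⟨⟨[(nat_lit 40), (nat_lit 100), (nat_lit 160)], [(nat_lit 0), (nat_lit 2396), (nat_lit 6144)], [((nat_lit 0), (nat_lit 0), (nat_lit 0)), ((nat_lit 1000), (nat_lit 625), (nat_lit 623)), ((nat_lit 1000), (nat_lit 625), (nat_lit 975))], ((nat_lit 61), (nat_lit 92), (nat_lit 100))⟩, (nat_lit 1847137), (nat_lit 226), (nat_lit 226), (nat_lit 0), (nat_lit 41523), [(nat_lit 2032000000), (nat_lit 6250000000), (nat_lit 11872000000)], [], [(nat_lit 27406493929), (nat_lit 27829705244), (nat_lit 33005908961), (nat_lit 33585998147), (nat_lit 27118633281), (nat_lit 27474526117), (nat_lit 31628638587), (nat_lit 32121192874)], (nat_lit 1271251), (nat_lit 1271251), (nat_lit 1271251), (nat_lit 1271251), (nat_lit 292188), (nat_lit 1421875), [(nat_lit 490000), (nat_lit 1427501), (nat_lit 1271251)], [(nat_lit 6), (nat_lit 56), (nat_lit 373), (nat_lit 150), (nat_lit 9)]⟩,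
 ⟨⟨[(nat_lit 120), (nat_lit 160), (nat_lit 200)], [(nat_lit 0), (nat_lit 0), (nat_lit 3198)], [((nat_lit 0), (nat_lit 0), (nat_lit 0)), ((nat_lit 0), (nat_lit 0), (nat_lit 0)), ((nat_lit 572), (nat_lit 1000), (nat_lit 714))], ((nat_lit 0), (nat_lit 0), (nat_lit 0))⟩, (nat_lit 114634), (nat_lit 300), (nat_lit 605), (nat_lit 17437003), (nat_lit 217500), [(nat_lit 1872480000), (nat_lit 2789920000), (nat_lit 3854000000)], [], [(nat_lit 16784593326), (nat_lit 16598937050), (nat_lit 14990838305), (nat_lit 14765705003), (nat_lit 15230090139), (nat_lit 15037197846), (nat_lit 15026340100), (nat_lit 16431735545)], (nat_lit 1100000), (nat_lit 1442501), (nat_lit 292188), (nat_lit 2325625), (nat_lit 292188), (nat_lit 1421875), [(nat_lit 1695001), (nat_lit 1271251), (nat_lit 1271251)], [(nat_lit 29), (nat_lit 66), (nat_lit 428), (nat_lit 200), (nat_lit 9)]⟩⟩) (.dle (nat_lit 0)))) (.trZ (nat_lit 0) (nat_lit 1) (nat_lit 3) (nat_lit 64) (nat_lit 57) (nat_lit 100)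 (nat_lit 270) (.trZ (nat_lit 0) (nat_lit 2) (nat_lit 4) (nat_lit 100) (nat_lit 54) (nat_lit 74) (nat_lit 60) (.trX (nat_lit 4) (nat_lit 0) (nat_lit 2) (nat_lit 53) (nat_lit 85) (nat_lit 100) (nat_lit 310) (.leaf ⟨(nat_lit 0), (nat_lit 811), (nat_lit 0), (nat_lit 189), (nat_lit 16315), (nat_lit 5526), (nat_lit 4231), (nat_lit 1912), (nat_lit 914092522975), (nat_lit 0), (nat_lit 0), [], Pd.none, Pd.none, (nat_lit 0), (nat_lit 1), (nat_lit 0), (nat_lit 0), (nat_lit 4), (nat_lit 0), [⟨(nat_lit 0), (nat_lit 56), (nat_lit 56), (nat_lit 100), (nat_lit 171995098)⟩], [], [], [],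
 ⟨⟨[(nat_lit 40), (nat_lit 100), (nat_lit 160)], [(nat_lit 0), (nat_lit 2998), (nat_lit 6528)], [((nat_lit 0), (nat_lit 0), (nat_lit 0)), ((nat_lit 1000), (nat_lit 532), (nat_lit 779)), ((nat_lit 1000), (nat_lit 531), (nat_lit 919))], ((nat_lit 53), (nat_lit 87), (nat_lit 100))⟩, (nat_lit 1186515), (nat_lit 246), (nat_lit 246), (nat_lit 0), (nat_lit 130887), [(nat_lit 2368374900), (nat_lit 7321851334), (nat_lit 11872000000)], [], [(nat_lit 32204217079), (nat_lit 32806642051), (nat_lit 37607521529), (nat_lit 38027975338), (nat_lit 32857373070), (nat_lit 33256305127), (nat_lit 36360195692), (nat_lit 36640928734)], (nat_lit 1271251), (nat_lit 1271251), (nat_lit 1271251), (nat_lit 1271251), (nat_lit 356250), (nat_lit 2262501), [(nat_lit 490000), (nat_lit 1427501), (nat_lit 1271251)], [(nat_lit 6), (nat_lit 56), (nat_lit 428), (nat_lit 200), (nat_lit 10)]⟩,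
 ⟨⟨[(nat_lit 40), (nat_lit 100), (nat_lit 160)], [(nat_lit 0), (nat_lit 2396), (nat_lit 6144)], [((nat_lit 0), (nat_lit 0), (nat_lit 0)), ((nat_lit 1000), (nat_lit 625), (nat_lit 623)), ((nat_lit 1000), (nat_lit 625), (nat_lit 975))], ((nat_lit 60), (nat_lit 82), (nat_lit 100))⟩, (nat_lit 1747088), (nat_lit 253), (nat_lit 253), (nat_lit 0), (nat_lit 132924), [(nat_lit 2032000000), (nat_lit 6250000000), (nat_lit 11872000000)], [], [(nat_lit 28600821588), (nat_lit 29668190734), (nat_lit 33709027541), (nat_lit 34477773529), (nat_lit 28113087178), (nat_lit 28805583684), (nat_lit 32218507648), (nat_lit 32872832085)], (nat_lit 1271251), (nat_lit 1271251), (nat_lit 1271251), (nat_lit 1271251), (nat_lit 292188), (nat_lit 1421875), [(nat_lit 490000), (nat_lit 1427501), (nat_lit 1271251)], [(nat_lit 6), (nat_lit 56), (nat_lit 373), (nat_lit 150), (nat_lit 9)]⟩,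
 ⟨⟨[(nat_lit 120), (nat_lit 160), (nat_lit 200)], [(nat_lit 0), (nat_lit 0), (nat_lit 3198)], [((nat_lit 0), (nat_lit 0), (nat_lit 0)), ((nat_lit 0), (nat_lit 0), (nat_lit 0)), ((nat_lit 572), (nat_lit 1000), (nat_lit 714))], ((nat_lit 0), (nat_lit 0), (nat_lit 0))⟩, (nat_lit 92195), (nat_lit 300), (nat_lit 852), (nat_lit 14023802), (nat_lit 783576), [(nat_lit 1505952000), (nat_lit 2243808000), (nat_lit 3099600000)], [], [(nat_lit 14033855141), (nat_lit 13825198800), (nat_lit 12466817620), (nat_lit 12243179077), (nat_lit 12722212160), (nat_lit 12512809498), (nat_lit 12096830696), (nat_lit 13248772285)], (nat_lit 1100000), (nat_lit 1442501), (nat_lit 356250), (nat_lit 2262501), (nat_lit 292188), (nat_lit 1421875), [(nat_lit 1695001), (nat_lit 1271251), (nat_lit 1271251)], [(nat_lit 29), (nat_lit 66), (nat_lit 428), (nat_lit 200), (nat_lit 9)]⟩⟩))))) (.leaf ⟨(nat_lit 0), (nat_lit 705), (nat_lit 0), (nat_lit 295), (nat_lit 0), (nat_lit 4131), (nat_lit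 10949), (nat_lit 2799), (nat_lit 950077), (nat_lit 0), (nat_lit 0), [], Pd.none, Pd.none, (nat_lit 0), (nat_lit 1), (nat_lit 0), (nat_lit 0), (nat_lit 5), (nat_lit 0), [⟨(nat_lit 0), (nat_lit 56), (nat_lit 56), (nat_lit 100), (nat_lit 973117)⟩], [], [⟨(nat_lit 1), (nat_lit 90), (nat_lit 53), (nat_lit 100), (nat_lit 125783719)⟩], [],
 ⟨⟨[(nat_lit 40), (nat_lit 100), (nat_lit 160)], [(nat_lit 0), (nat_lit 2396), (nat_lit 6144)], [((nat_lit 0), (nat_lit 0), (nat_lit 0)), ((nat_lit 1000), (nat_lit 625), (nat_lit 623)), ((nat_lit 1000), (nat_lit 625), (nat_lit 975))], ((nat_lit 60), (nat_lit 82), (nat_lit 100))⟩, (nat_lit 1774761), (nat_lit 253), (nat_lit 253), (nat_lit 0), (nat_lit 132924), [(nat_lit 2032000053), (nat_lit 6250000035), (nat_lit 11872000000)], [], [(nat_lit 27984605320), (nat_lit 28833327428), (nat_lit 33463212329), (nat_lit 34226393911), (nat_lit 29850264296), (nat_lit 30536355755), (nat_lit 34182676778), (nat_lit 34963583241)], (nat_lit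 1271251), (nat_lit 1271251), (nat_lit 1271251), (nat_lit 1271251), (nat_lit 292188), (nat_lit 2325625), [(nat_lit 490000), (nat_lit 1427501), (nat_lit 1271251)], [(nat_lit 6), (nat_lit 56), (nat_lit 428), (nat_lit 200), (nat_lit 10)]⟩,
 ⟨⟨[(nat_lit 40), (nat_lit 100), (nat_lit 160)], [(nat_lit 0), (nat_lit 2396), (nat_lit 6144)], [((nat_lit 0), (nat_lit 0), (nat_lit 0)), ((nat_lit 1000), (nat_lit 625), (nat_lit 623)), ((nat_lit 1000), (nat_lit 625), (nat_lit 975))], ((nat_lit 60), (nat_lit 82), (nat_lit 100))⟩, (nat_lit 0), (nat_lit 190), (nat_lit 190), (nat_lit 0), (nat_lit 132924), [(nat_lit 2032000000), (nat_lit 6250000000), (nat_lit 11872000000)], [], [(nat_lit 35021161565), (nat_lit 36558588726), (nat_lit 41801957280), (nat_lit 42733244703), (nat_lit 37406036253), (nat_lit 38526603681), (nat_lit 43126788262), (nat_lit 44323408639)], (nat_lit 1271251), (nat_lit 1271251), (nat_lit 1271251), (nat_lit 1271251), (nat_lit 1271251), (nat_lit 1271251),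 [(nat_lit 490000), (nat_lit 1427501), (nat_lit 1271251)], [(nat_lit 6), (nat_lit 56), (nat_lit 428), (nat_lit 200), (nat_lit 10)]⟩,
 ⟨⟨[(nat_lit 120), (nat_lit 160), (nat_lit 200)], [(nat_lit 0), (nat_lit 0), (nat_lit 3198)], [((nat_lit 0), (nat_lit 0), (nat_lit 0)), ((nat_lit 0), (nat_lit 0), (nat_lit 0)), ((nat_lit 572), (nat_lit 1000), (nat_lit 714))], ((nat_lit 0), (nat_lit 0), (nat_lit 0))⟩, (nat_lit 143902), (nat_lit 300), (nat_lit 743), (nat_lit 21889008), (nat_lit 783576), [(nat_lit 2350560000), (nat_lit 3502240000), (nat_lit 4838000000)], [], [(nat_lit 19623978569), (nat_lit 19362145255), (nat_lit 17369142982), (nat_lit 18554953951), (nat_lit 19178845777), (nat_lit 18888130641), (nat_lit 16773652678), (nat_lit 16459637022)], (nat_lit 1100000), (nat_lit 1442501), (nat_lit 292188), (nat_lit 2325625), (nat_lit 1271251), (nat_lit 1271251), [(nat_lit 1695001), (nat_lit 1271251), (nat_lit 1271251)], [(nat_lit 29), (nat_lit 66), (nat_lit 456), (nat_lit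 225), (nat_lit 10)]⟩⟩))))))
noncomputable def c18_29 : Tr Lf :=
 (.trZ (nat_lit 0) (nat_lit 2) (nat_lit 4) (nat_lit 100) (nat_lit 60) (nat_lit 80) (nat_lit 80) (.trZ (nat_lit 1) (nat_lit 2) (nat_lit 5) (nat_lit 100) (nat_lit 80) (nat_lit 60) (nat_lit 40) (.spl (nat_lit 6) (nat_lit 156) (.spl (nat_lit 1) (nat_lit 360) (.spl (nat_lit 6) (nat_lit 136) (.spl (nat_lit 0) (nat_lit 370) (.spl (nat_lit 6) (nat_lit 124) (.leaf ⟨(nat_lit 0), (nat_lit 623), (nat_lit 0), (nat_lit 377), (nat_lit 12211), (nat_lit 4599), (nat_lit 6852), (nat_lit 2701), (nat_lit 0), (nat_lit 0), (nat_lit 0), [], Pd.none, Pd.none, (nat_lit 0), (nat_lit 1), (nat_lit 0), (nat_lit 0), (nat_lit 5), (nat_lit 0), [⟨(nat_lit 0), (nat_lit 64), (nat_lit 57), (nat_lit 100), (nat_lit 185107885)⟩], [], [], [],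
 ⟨⟨[(nat_lit 40), (nat_lit 100), (nat_lit 140)], [(nat_lit 0), (nat_lit 2396), (nat_lit 4896)], [((nat_lit 0), (nat_lit 0), (nat_lit 0)), ((nat_lit 1000), (nat_lit 625), (nat_lit 623)), ((nat_lit 1000), (nat_lit 625), (nat_lit 975))], ((nat_lit 62), (nat_lit 100), (nat_lit 96))⟩, (nat_lit 1796458), (nat_lit 196), (nat_lit 196), (nat_lit 0), (nat_lit 86302), [(nat_lit 2032002180), (nat_lit 6250000013), (nat_lit 9842000000)], [], [(nat_lit 24119804617), (nat_lit 24636226117), (nat_lit 32705024698), (nat_lit 33308220748), (nat_lit 30550531281), (nat_lit 31119003193), (nat_lit 36616037260), (nat_lit 36969712106)], (nat_lit 1271251), (nat_lit 1271251), (nat_lit 1271251), (nat_lit 1271251), (nat_lit 490000), (nat_lit 2755626), [(nat_lit 490000), (nat_lit 1427501), (nat_lit 1271251)], [(nat_lit 5), (nat_lit 55), (nat_lit 428), (nat_lit 200), (nat_lit 11)]⟩,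
 ⟨⟨[(nat_lit 40), (nat_lit 100), (nat_lit 160)], [(nat_lit 0), (nat_lit 0), (nat_lit 4607)], [((nat_lit 0), (nat_lit 0), (nat_lit 0)), ((nat_lit 0), (nat_lit 0), (nat_lit 0)), ((nat_lit 846), (nat_lit 837), (nat_lit 1000))], ((nat_lit 86), (nat_lit 93), (nat_lit 100))⟩, (nat_lit 1458243), (nat_lit 246), (nat_lit 246), (nat_lit 0), (nat_lit 94349), [(nat_lit 2032000000), (nat_lit 6250000000), (nat_lit 11872000000)], [], [(nat_lit 30879557983), (nat_lit 33395233699), (nat_lit 38494510499), (nat_lit 40350434011), (nat_lit 34048298697), (nat_lit 35349448842), (nat_lit 39172408970), (nat_lit 40673787818)], (nat_lit 1271251), (nat_lit 1271251), (nat_lit 1271251), (nat_lit 1271251), (nat_lit 230000), (nat_lit 2833126), [(nat_lit 490000), (nat_lit 1427501), (nat_lit 1271251)], [(nat_lit 6), (nat_lit 56), (nat_lit 428), (nat_lit 200), (nat_lit 10)]⟩,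
 ⟨⟨[(nat_lit 100), (nat_lit 160), (nat_lit 200)], [(nat_lit 0), (nat_lit 0), (nat_lit 4782)], [((nat_lit 0), (nat_lit 0), (nat_lit 0)), ((nat_lit 0), (nat_lit 0), (nat_lit 0)), ((nat_lit 475), (nat_lit 1000), (nat_lit 880))], ((nat_lit 0), (nat_lit 0), (nat_lit 0))⟩, (nat_lit 122986), (nat_lit 300), (nat_lit 608), (nat_lit 27973405), (nat_lit 309486), [(nat_lit 2356250000), (nat_lit 4475744000), (nat_lit 6182800000)], [], [(nat_lit 27254225436), (nat_lit 27135590144), (nat_lit 26359125519), (nat_lit 26099183628), (nat_lit 25650724600), (nat_lit 25382375988), (nat_lit 26999988128), (nat_lit 23801232469)], (nat_lit 1271251), (nat_lit 1271251), (nat_lit 490000), (nat_lit 2755626), (nat_lit 230000), (nat_lit 2833126), [(nat_lit 1412501), (nat_lit 1271251), (nat_lit 1271251)], [(nat_lit 25), (nat_lit 66), (nat_lit 538), (nat_lit 300), (nat_lit 11)]⟩⟩) (.dle (nat_lit 0))) (.trZ (nat_lit 0) (nat_lit 1) (nat_lit 3) (nat_lit 80) (nat_lit 53) (nat_lit 100)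 (nat_lit 210) (.trZ (nat_lit 0) (nat_lit 2) (nat_lit 4) (nat_lit 100) (nat_lit 53) (nat_lit 85) (nat_lit 90) (.trX (nat_lit 4) (nat_lit 0) (nat_lit 2) (nat_lit 55) (nat_lit 68) (nat_lit 100) (nat_lit 360) (.leaf ⟨(nat_lit 0), (nat_lit 629), (nat_lit 0), (nat_lit 371), (nat_lit 4823), (nat_lit 4280), (nat_lit 7049), (nat_lit 2814), (nat_lit 0), (nat_lit 0), (nat_lit 0), [], Pd.none, Pd.none, (nat_lit 0), (nat_lit 1), (nat_lit 0), (nat_lit 0), (nat_lit 5), (nat_lit 0), [⟨(nat_lit 0), (nat_lit 74), (nat_lit 50), (nat_lit 100), (nat_lit 64290701)⟩, ⟨(nat_lit 0), (nat_lit 68), (nat_lit 49), (nat_lit 100), (nat_lit 103792221)⟩], [], [], [],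
 ⟨⟨[(nat_lit 40), (nat_lit 100), (nat_lit 140)], [(nat_lit 0), (nat_lit 2998), (nat_lit 5352)], [((nat_lit 0), (nat_lit 0), (nat_lit 0)), ((nat_lit 1000), (nat_lit 532), (nat_lit 779)), ((nat_lit 1000), (nat_lit 531), (nat_lit 919))], ((nat_lit 54), (nat_lit 100), (nat_lit 97))⟩, (nat_lit 1597139), (nat_lit 208), (nat_lit 208), (nat_lit 0), (nat_lit 134321), [(nat_lit 2032000690), (nat_lit 6250000655), (nat_lit 9842000000)], [], [(nat_lit 25190738013), (nat_lit 25676740489), (nat_lit 32565425028), (nat_lit 33142526165), (nat_lit 30312613930), (nat_lit 30869628970), (nat_lit 36159694840), (nat_lit 36516005680)], (nat_lit 1271251), (nat_lit 1271251), (nat_lit 1271251), (nat_lit 1271251), (nat_lit 559688), (nat_lit 2694376), [(nat_lit 490000), (nat_lit 1427501), (nat_lit 1271251)], [(nat_lit 5), (nat_lit 55), (nat_lit 428), (nat_lit 200), (nat_lit 11)]⟩,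
 ⟨⟨[(nat_lit 40), (nat_lit 100), (nat_lit 160)], [(nat_lit 0), (nat_lit 0), (nat_lit 4607)], [((nat_lit 0), (nat_lit 0), (nat_lit 0)), ((nat_lit 0), (nat_lit 0), (nat_lit 0)), ((nat_lit 846), (nat_lit 837), (nat_lit 1000))], ((nat_lit 84), (nat_lit 87), (nat_lit 100))⟩, (nat_lit 1387498), (nat_lit 277), (nat_lit 277), (nat_lit 0), (nat_lit 157766), [(nat_lit 2032000000), (nat_lit 6250000000), (nat_lit 11872000000)], [], [(nat_lit 31174593811), (nat_lit 33682104998), (nat_lit 38968182714), (nat_lit 40847491308), (nat_lit 34048831377), (nat_lit 35615041442), (nat_lit 39448858578), (nat_lit 40964958054)], (nat_lit 1271251), (nat_lit 1271251), (nat_lit 1271251), (nat_lit 1271251), (nat_lit 230000), (nat_lit 2833126), [(nat_lit 490000), (nat_lit 1427501), (nat_lit 1271251)], [(nat_lit 6), (nat_lit 56), (nat_lit 428), (nat_lit 200), (nat_lit 10)]⟩,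
 ⟨⟨[(nat_lit 100), (nat_lit 160), (nat_lit 200)], [(nat_lit 0), (nat_lit 0), (nat_lit 4782)], [((nat_lit 0), (nat_lit 0), (nat_lit 0)), ((nat_lit 0), (nat_lit 0), (nat_lit 0)), ((nat_lit 475), (nat_lit 1000), (nat_lit 880))], ((nat_lit 0), (nat_lit 0), (nat_lit 0))⟩, (nat_lit 121029), (nat_lit 300), (nat_lit 682), (nat_lit 27528200), (nat_lit 512235), [(nat_lit 2318750000), (nat_lit 4404512000), (nat_lit 6084400000)], [], [(nat_lit 27244355799), (nat_lit 27052584012), (nat_lit 26120862916), (nat_lit 25813415624), (nat_lit 25294389346), (nat_lit 24972411019), (nat_lit 26879417275), (nat_lit 23288780974)], (nat_lit 1271251), (nat_lit 1271251), (nat_lit 559688), (nat_lit 2694376), (nat_lit 230000), (nat_lit 2833126), [(nat_lit 1412501), (nat_lit 1271251), (nat_lit 1271251)], [(nat_lit 25), (nat_lit 66), (nat_lit 538), (nat_lit 300), (nat_lit 11)]⟩⟩))))) (.dle (nat_lit 0))) (.trZ (nat_lit 0) (nat_lit 1) (nat_lit 3) (nat_lit 63) (nat_lit 63) (nat_lit 100)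 (nat_lit 250) (.trZ (nat_lit 1) (nat_lit 2) (nat_lit 5) (nat_lit 100) (nat_lit 60) (nat_lit 80) (nat_lit 80) (.trX (nat_lit 5) (nat_lit 1) (nat_lit 2) (nat_lit 63) (nat_lit 61) (nat_lit 100) (nat_lit 370) (.leaf ⟨(nat_lit 0), (nat_lit 622), (nat_lit 0), (nat_lit 378), (nat_lit 4081), (nat_lit 4241), (nat_lit 4246), (nat_lit 2675), (nat_lit 49162765065), (nat_lit 0), (nat_lit 0), [], Pd.none, Pd.none, (nat_lit 0), (nat_lit 1), (nat_lit 0), (nat_lit 0), (nat_lit 5), (nat_lit 0), [⟨(nat_lit 0), (nat_lit 59), (nat_lit 59), (nat_lit 100), (nat_lit 35161099)⟩], [], [], [],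
 ⟨⟨[(nat_lit 40), (nat_lit 100), (nat_lit 160)], [(nat_lit 0), (nat_lit 2396), (nat_lit 6144)], [((nat_lit 0), (nat_lit 0), (nat_lit 0)), ((nat_lit 1000), (nat_lit 625), (nat_lit 623)), ((nat_lit 1000), (nat_lit 625), (nat_lit 975))], ((nat_lit 62), (nat_lit 94), (nat_lit 100))⟩, (nat_lit 1795510), (nat_lit 263), (nat_lit 263), (nat_lit 0), (nat_lit 234956), [(nat_lit 2032000020), (nat_lit 6250000030), (nat_lit 11872000000)], [], [(nat_lit 26925715349), (nat_lit 27769474892), (nat_lit 32370143894), (nat_lit 33156393723), (nat_lit 31300604386), (nat_lit 31992695943), (nat_lit 36103903761), (nat_lit 36795462789)], (nat_lit 1271251), (nat_lit 1271251), (nat_lit 1271251), (nat_lit 1271251), (nat_lit 490000), (nat_lit 2755626), [(nat_lit 490000), (nat_lit 1427501), (nat_lit 1271251)], [(nat_lit 6), (nat_lit 56), (nat_lit 428), (nat_lit 200), (nat_lit 10)]⟩,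
 ⟨⟨[(nat_lit 40), (nat_lit 100), (nat_lit 160)], [(nat_lit 0), (nat_lit 2396), (nat_lit 6144)], [((nat_lit 0), (nat_lit 0), (nat_lit 0)), ((nat_lit 1000), (nat_lit 625), (nat_lit 623)), ((nat_lit 1000), (nat_lit 625), (nat_lit 975))], ((nat_lit 62), (nat_lit 94), (nat_lit 100))⟩, (nat_lit 1796013), (nat_lit 263), (nat_lit 263), (nat_lit 0), (nat_lit 234956), [(nat_lit 2032000000), (nat_lit 6250000000), (nat_lit 11872000000)], [], [(nat_lit 26911790471), (nat_lit 27767013095), (nat_lit 32369181332), (nat_lit 33166938738), (nat_lit 31295652024), (nat_lit 31998846257), (nat_lit 36111056463), (nat_lit 36802836031)], (nat_lit 1271251), (nat_lit 1271251), (nat_lit 1271251), (nat_lit 1271251), (nat_lit 490000), (nat_lit 2755626), [(nat_lit 490000), (nat_lit 1427501), (nat_lit 1271251)], [(nat_lit 6), (nat_lit 56), (nat_lit 428), (nat_lit 200), (nat_lit 10)]⟩,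
 ⟨⟨[(nat_lit 100), (nat_lit 160), (nat_lit 200)], [(nat_lit 0), (nat_lit 0), (nat_lit 4782)], [((nat_lit 0), (nat_lit 0), (nat_lit 0)), ((nat_lit 0), (nat_lit 0), (nat_lit 0)), ((nat_lit 475), (nat_lit 1000), (nat_lit 880))], ((nat_lit 0), (nat_lit 0), (nat_lit 0))⟩, (nat_lit 123312), (nat_lit 300), (nat_lit 837), (nat_lit 28047611), (nat_lit 888344), [(nat_lit 2362500000), (nat_lit 4487616000), (nat_lit 6199200000)], [], [(nat_lit 30292136290), (nat_lit 30025125626), (nat_lit 28819991469), (nat_lit 28477697219), (nat_lit 28819991469), (nat_lit 28477697219), (nat_lit 27177438985), (nat_lit 26648896366)], (nat_lit 1271251), (nat_lit 1271251), (nat_lit 490000), (nat_lit 2755626), (nat_lit 490000), (nat_lit 2755626), [(nat_lit 1412501), (nat_lit 1271251), (nat_lit 1271251)], [(nat_lit 25), (nat_lit 66), (nat_lit 483), (nat_lit 250), (nat_lit 10)]⟩⟩))))) (.dle (nat_lit 0)))))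
noncomputable def c18_30 : Tr Lf :=
 (.trZ (nat_lit 0) (nat_lit 2) (nat_lit 4) (nat_lit 100) (nat_lit 63) (nat_lit 99) (nat_lit 130) (.trZ (nat_lit 1) (nat_lit 2) (nat_lit 5) (nat_lit 100) (nat_lit 84) (nat_lit 85) (nat_lit 80) (.spl (nat_lit 6) (nat_lit 168) (.stt (nat_lit 1) (.stt (nat_lit 2) (.spl (nat_lit 6) (nat_lit 84) (.leaf ⟨(nat_lit 0), (nat_lit 575), (nat_lit 0), (nat_lit 425), (nat_lit 0), (nat_lit 3547), (nat_lit 4039), (nat_lit 3414), (nat_lit 86974130023), (nat_lit 22218), (nat_lit 0), [], Pd.none, Pd.none, (nat_lit 0), (nat_lit 1), (nat_lit 0), (nat_lit 0), (nat_lit 6), (nat_lit 0), [⟨(nat_lit 0), (nat_lit 56), (nat_lit 56), (nat_lit 100), (nat_lit 354387833)⟩], [⟨(nat_lit 1), (nat_lit 45), (nat_lit 66), (nat_lit 100), (nat_lit 1222589)⟩], [], [],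
 ⟨⟨[(nat_lit 40), (nat_lit 80), (nat_lit 120)], [(nat_lit 0), (nat_lit 1598), (nat_lit 3468)], [((nat_lit 0), (nat_lit 0), (nat_lit 0)), ((nat_lit 1000), (nat_lit 625), (nat_lit 623)), ((nat_lit 1000), (nat_lit 604), (nat_lit 730))], ((nat_lit 60), (nat_lit 100), (nat_lit 81))⟩, (nat_lit 1858257), (nat_lit 133), (nat_lit 133), (nat_lit 0), (nat_lit 0), [(nat_lit 2032000009), (nat_lit 4880239637), (nat_lit 7968000000)], [], [(nat_lit 23831944569), (nat_lit 24996314979), (nat_lit 30909959305), (nat_lit 31670881237), (nat_lit 31365847951), (nat_lit 32177629694), (nat_lit 36190401235), (nat_lit 36739261297)], (nat_lit 0), (nat_lit 0), (nat_lit 0), (nat_lit 0), (nat_lit 0), (nat_lit 0), [], [(nat_lit 4), (nat_lit 51), (nat_lit 428), (nat_lit 200), (nat_lit 13)]⟩,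
 ⟨⟨[(nat_lit 40), (nat_lit 100), (nat_lit 140)], [(nat_lit 0), (nat_lit 0), (nat_lit 3243)], [((nat_lit 0), (nat_lit 0), (nat_lit 0)), ((nat_lit 0), (nat_lit 0), (nat_lit 0)), ((nat_lit 1000), (nat_lit 870), (nat_lit 941))], ((nat_lit 84), (nat_lit 100), (nat_lit 85))⟩, (nat_lit 1544987), (nat_lit 174), (nat_lit 174), (nat_lit 0), (nat_lit 0), [(nat_lit 2032000000), (nat_lit 6250000000), (nat_lit 9842000000)], [], [(nat_lit 25388680879), (nat_lit 29028067852), (nat_lit 33545830327), (nat_lit 35988110329), (nat_lit 33718282924), (nat_lit 35922870544), (nat_lit 38546322920), (nat_lit 40137600338)], (nat_lit 0), (nat_lit 0), (nat_lit 0), (nat_lit 0), (nat_lit 0), (nat_lit 0), [], [(nat_lit 5), (nat_lit 55), (nat_lit 428), (nat_lit 200), (nat_lit 12)]⟩,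
 ⟨⟨[(nat_lit 80), (nat_lit 140), (nat_lit 180)], [(nat_lit 0), (nat_lit 792), (nat_lit 4228)], [((nat_lit 0), (nat_lit 0), (nat_lit 0)), ((nat_lit 1000), (nat_lit 959), (nat_lit 206)), ((nat_lit 709), (nat_lit 1000), (nat_lit 949))], ((nat_lit 100), (nat_lit 84), (nat_lit 85))⟩, (nat_lit 2301844), (nat_lit 300), (nat_lit 1465), (nat_lit 24905000), (nat_lit 2515002), [(nat_lit 1992400000), (nat_lit 4182850000), (nat_lit 5974650000)], [], [(nat_lit 26647851544), (nat_lit 25940535644), (nat_lit 24546535384), (nat_lit 23750113343), (nat_lit 26100061121), (nat_lit 23136695300), (nat_lit 21701322795), (nat_lit 20839933074)], (nat_lit 1271251), (nat_lit 1271251), (nat_lit 1271251), (nat_lit 1271251), (nat_lit 490000), (nat_lit 2990001), [(nat_lit 1100000), (nat_lit 2127501), (nat_lit 1271251)], [(nat_lit 19), (nat_lit 63), (nat_lit 538), (nat_lit 300), (nat_lit 12)]⟩⟩) (.leaf ⟨(nat_lit 0), (nat_lit 0), (nat_lit 0), (nat_lit 1000), (nat_lit 5023), (nat_lit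 4040), (nat_lit 4045), (nat_lit 8790), (nat_lit 47932), (nat_lit 9506), (nat_lit 0), [], Pd.none, Pd.none, (nat_lit 0), (nat_lit 1), (nat_lit 0), (nat_lit 0), (nat_lit 0), (nat_lit 0), [⟨(nat_lit 0), (nat_lit 69), (nat_lit 55), (nat_lit 100), (nat_lit 155576942)⟩], [⟨(nat_lit 0), (nat_lit 100), (nat_lit 63), (nat_lit 99), (nat_lit 559044372)⟩], [⟨(nat_lit 0), (nat_lit 100), (nat_lit 84), (nat_lit 85), (nat_lit 291519654)⟩], [],
 ⟨⟨[(nat_lit 40), (nat_lit 100), (nat_lit 160)], [(nat_lit 0), (nat_lit 2396), (nat_lit 6144)], [((nat_lit 0), (nat_lit 0), (nat_lit 0)), ((nat_lit 1000), (nat_lit 625), (nat_lit 623)), ((nat_lit 1000), (nat_lit 625), (nat_lit 975))], ((nat_lit 61), (nat_lit 90), (nat_lit 100))⟩, (nat_lit 2393818), (nat_lit 174), (nat_lit 174), (nat_lit 0), (nat_lit 0), [(nat_lit 2032000015), (nat_lit 6403155833), (nat_lit 11872000000)], [], [(nat_lit 21950679708), (nat_lit 22994427998), (nat_lit 31253524030), (nat_lit 32330371495), (nat_lit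 31536135640), (nat_lit 32514721060), (nat_lit 36868204480), (nat_lit 37495299040)], (nat_lit 0), (nat_lit 0), (nat_lit 0), (nat_lit 0), (nat_lit 0), (nat_lit 0), [], [(nat_lit 6), (nat_lit 56), (nat_lit 428), (nat_lit 200), (nat_lit 10)]⟩,
 ⟨⟨[(nat_lit 40), (nat_lit 120), (nat_lit 180)], [(nat_lit 0), (nat_lit 0), (nat_lit 6400)], [((nat_lit 0), (nat_lit 0), (nat_lit 0)), ((nat_lit 0), (nat_lit 0), (nat_lit 0)), ((nat_lit 600), (nat_lit 800), (nat_lit 1000))], ((nat_lit 81), (nat_lit 73), (nat_lit 100))⟩, (nat_lit 1682028), (nat_lit 223), (nat_lit 223), (nat_lit 0), (nat_lit 0), [(nat_lit 2032000000), (nat_lit 7968000000), (nat_lit 14058000000)], [], [(nat_lit 27940806650), (nat_lit 31101205198), (nat_lit 35679318640), (nat_lit 38298579465), (nat_lit 36045489870), (nat_lit 38132948500), (nat_lit 40548949920), (nat_lit 42041847075)], (nat_lit 0), (nat_lit 0), (nat_lit 0), (nat_lit 0), (nat_lit 0), (nat_lit 0), [], [(nat_lit 7), (nat_lit 60), (nat_lit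 538), (nat_lit 300), (nat_lit 12)]⟩,
 ⟨⟨[(nat_lit 80), (nat_lit 140), (nat_lit 200)], [(nat_lit 0), (nat_lit 792), (nat_lit 5941)], [((nat_lit 0), (nat_lit 0), (nat_lit 0)), ((nat_lit 1000), (nat_lit 959), (nat_lit 206)), ((nat_lit 709), (nat_lit 1000), (nat_lit 949))], ((nat_lit 0), (nat_lit 0), (nat_lit 0))⟩, (nat_lit 486530), (nat_lit 300), (nat_lit 703), (nat_lit 67547631), (nat_lit 775344), [(nat_lit 4688000000), (nat_lit 9842000000), (nat_lit 16400000000)], [], [(nat_lit 60973340272), (nat_lit 61693669165), (nat_lit 58765176370), (nat_lit 58235239690), (nat_lit 67017372713), (nat_lit 56223959147), (nat_lit 52569888220), (nat_lit 51190155130)], (nat_lit 1271251), (nat_lit 1271251), (nat_lit 1271251), (nat_lit 1271251), (nat_lit 490000), (nat_lit 2990001), [(nat_lit 1100000), (nat_lit 2127501), (nat_lit 1271251)], [(nat_lit 20), (nat_lit 64), (nat_lit 538), (nat_lit 300), (nat_lit 11)]⟩⟩)) (.spl (nat_lit 6) (nat_lit 84) (.leaf ⟨(nat_lit 0), (nat_lit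 108), (nat_lit 0), (nat_lit 892), (nat_lit 0), (nat_lit 3633), (nat_lit 8692), (nat_lit 7921), (nat_lit 15359), (nat_lit 3311), (nat_lit 0), [], Pd.none, Pd.none, (nat_lit 0), (nat_lit 1), (nat_lit 0), (nat_lit 0), (nat_lit 6), (nat_lit 0), [⟨(nat_lit 0), (nat_lit 69), (nat_lit 55), (nat_lit 100), (nat_lit 14932539)⟩], [⟨(nat_lit 0), (nat_lit 80), (nat_lit 53), (nat_lit 100), (nat_lit 10507979)⟩, ⟨(nat_lit 0), (nat_lit 100), (nat_lit 63), (nat_lit 99), (nat_lit 480066591)⟩], [⟨(nat_lit 0), (nat_lit 80), (nat_lit 66), (nat_lit 100), (nat_lit 354901886)⟩], [],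
 ⟨⟨[(nat_lit 40), (nat_lit 80), (nat_lit 120)], [(nat_lit 0), (nat_lit 1598), (nat_lit 3468)], [((nat_lit 0), (nat_lit 0), (nat_lit 0)), ((nat_lit 1000), (nat_lit 625), (nat_lit 623)), ((nat_lit 1000), (nat_lit 604), (nat_lit 730))], ((nat_lit 60), (nat_lit 100), (nat_lit 81))⟩, (nat_lit 2236351), (nat_lit 133), (nat_lit 133), (nat_lit 0), (nat_lit 0), [(nat_lit 2032000001), (nat_lit 4872153102), (nat_lit 7968000000)], [], [(nat_lit 22416607495), (nat_lit 23593930402), (nat_lit 30707633279), (nat_lit 31605097546), (nat_lit 31272614639), (nat_lit 32091239316), (nat_lit 36256987346), (nat_lit 36870248383)], (nat_lit 0), (nat_lit 0), (nat_lit 0), (nat_lit 0), (nat_lit 0), (nat_lit 0), [], [(nat_lit 4), (nat_lit 51), (nat_lit 428), (nat_lit 200), (nat_lit 13)]⟩,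
 ⟨⟨[(nat_lit 40), (nat_lit 100), (nat_lit 140)], [(nat_lit 0), (nat_lit 0), (nat_lit 3243)], [((nat_lit 0), (nat_lit 0), (nat_lit 0)), ((nat_lit 0), (nat_lit 0), (nat_lit 0)), ((nat_lit 1000), (nat_lit 870), (nat_lit 941))], ((nat_lit 84), (nat_lit 100), (nat_lit 85))⟩, (nat_lit 1085368), (nat_lit 918), (nat_lit 918), (nat_lit 0), (nat_lit 1743395), [(nat_lit 2032000000), (nat_lit 6250000000), (nat_lit 9842000000)], [], [(nat_lit 31259648312), (nat_lit 32289407162), (nat_lit 37395642000), (nat_lit 42543566076), (nat_lit 35095864640), (nat_lit 39390384038), (nat_lit 42283978528), (nat_lit 44639612692)], (nat_lit 1271251), (nat_lit 1271251), (nat_lit 1271251), (nat_lit 1271251), (nat_lit 490000), (nat_lit 2990001), [(nat_lit 490000), (nat_lit 1427501), (nat_lit 1271251)], [(nat_lit 5), (nat_lit 55), (nat_lit 428), (nat_lit 200), (nat_lit 12)]⟩,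
 ⟨⟨[(nat_lit 80), (nat_lit 140), (nat_lit 180)], [(nat_lit 0), (nat_lit 792), (nat_lit 4228)], [((nat_lit 0), (nat_lit 0), (nat_lit 0)), ((nat_lit 1000), (nat_lit 959), (nat_lit 206)), ((nat_lit 709), (nat_lit 1000), (nat_lit 949))], ((nat_lit 100), (nat_lit 84), (nat_lit 85))⟩, (nat_lit 7546308), (nat_lit 300), (nat_lit 1009), (nat_lit 52271200), (nat_lit 1553135), [(nat_lit 4181696000), (nat_lit 8779064000), (nat_lit 12539736000)], [], [(nat_lit 47171940707), (nat_lit 46593010433), (nat_lit 43627300302), (nat_lit 43114613961), (nat_lit 54327029369), (nat_lit 41403373893), (nat_lit 38822233325), (nat_lit 40076135251)], (nat_lit 1271251), (nat_lit 1271251), (nat_lit 1271251), (nat_lit 1271251), (nat_lit 490000), (nat_lit 2990001), [(nat_lit 1100000), (nat_lit 2127501), (nat_lit 1271251)], [(nat_lit 19), (nat_lit 63), (nat_lit 538), (nat_lit 300), (nat_lit 12)]⟩⟩) (.leaf ⟨(nat_lit 0), (nat_lit 0), (nat_lit 0), (nat_lit 1000), (nat_lit 0), (nat_lit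 3633), (nat_lit 9622), (nat_lit 12738), (nat_lit 165879), (nat_lit 27966), (nat_lit 0), [], Pd.none, Pd.none, (nat_lit 0), (nat_lit 1), (nat_lit 0), (nat_lit 0), (nat_lit 0), (nat_lit 0), [⟨(nat_lit 0), (nat_lit 69), (nat_lit 55), (nat_lit 100), (nat_lit 3054209)⟩], [⟨(nat_lit 0), (nat_lit 100), (nat_lit 63), (nat_lit 99), (nat_lit 554374807)⟩], [⟨(nat_lit 0), (nat_lit 80), (nat_lit 66), (nat_lit 100), (nat_lit 31742081)⟩], [],
 ⟨⟨[(nat_lit 40), (nat_lit 100), (nat_lit 160)], [(nat_lit 0), (nat_lit 2396), (nat_lit 6144)], [((nat_lit 0), (nat_lit 0), (nat_lit 0)), ((nat_lit 1000), (nat_lit 625), (nat_lit 623)), ((nat_lit 1000), (nat_lit 625), (nat_lit 975))], ((nat_lit 61), (nat_lit 90), (nat_lit 100))⟩, (nat_lit 2341294), (nat_lit 174), (nat_lit 174), (nat_lit 0), (nat_lit 0), [(nat_lit 2032000035), (nat_lit 6250000181), (nat_lit 11872000000)], [], [(nat_lit 22670602803), (nat_lit 23667445507), (nat_lit 30707633381), (nat_lit 31605097546), (nat_lit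 31272614741), (nat_lit 32091239418), (nat_lit 36256987346), (nat_lit 36870248383)], (nat_lit 0), (nat_lit 0), (nat_lit 0), (nat_lit 0), (nat_lit 0), (nat_lit 0), [], [(nat_lit 6), (nat_lit 56), (nat_lit 428), (nat_lit 200), (nat_lit 10)]⟩,
 ⟨⟨[(nat_lit 40), (nat_lit 120), (nat_lit 180)], [(nat_lit 0), (nat_lit 0), (nat_lit 6400)], [((nat_lit 0), (nat_lit 0), (nat_lit 0)), ((nat_lit 0), (nat_lit 0), (nat_lit 0)), ((nat_lit 600), (nat_lit 800), (nat_lit 1000))], ((nat_lit 81), (nat_lit 73), (nat_lit 100))⟩, (nat_lit 1599984), (nat_lit 471), (nat_lit 471), (nat_lit 0), (nat_lit 557625), [(nat_lit 2032000000), (nat_lit 7968000000), (nat_lit 14058000000)], [], [(nat_lit 29387024576), (nat_lit 33594273461), (nat_lit 39009657000), (nat_lit 44504938866), (nat_lit 36198770240), (nat_lit 40764925433), (nat_lit 43617397648), (nat_lit 46067861122)], (nat_lit 1271251), (nat_lit 1271251), (nat_lit 1271251), (nat_lit 1271251), (nat_lit 490000), (nat_lit 2990001),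 [(nat_lit 490000), (nat_lit 1740001), (nat_lit 1271251)], [(nat_lit 7), (nat_lit 60), (nat_lit 538), (nat_lit 300), (nat_lit 12)]⟩,
 ⟨⟨[(nat_lit 80), (nat_lit 140), (nat_lit 200)], [(nat_lit 0), (nat_lit 792), (nat_lit 5941)], [((nat_lit 0), (nat_lit 0), (nat_lit 0)), ((nat_lit 1000), (nat_lit 959), (nat_lit 206)), ((nat_lit 709), (nat_lit 1000), (nat_lit 949))], ((nat_lit 0), (nat_lit 0), (nat_lit 0))⟩, (nat_lit 486530), (nat_lit 300), (nat_lit 602), (nat_lit 67547631), (nat_lit 505026), [(nat_lit 4688000000), (nat_lit 9842000000), (nat_lit 16400000000)], [], [(nat_lit 53067274352), (nat_lit 54638619832), (nat_lit 50918176090), (nat_lit 53825169576), (nat_lit 75889210730), (nat_lit 50495771090), (nat_lit 46915661536), (nat_lit 50853261238)], (nat_lit 1271251), (nat_lit 1271251), (nat_lit 1271251), (nat_lit 1271251), (nat_lit 490000), (nat_lit 2990001), [(nat_lit 1100000), (nat_lit 2127501), (nat_lit 1271251)], [(nat_lit 20), (nat_lit 64), (nat_lit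 538), (nat_lit 300), (nat_lit 11)]⟩⟩))) (.spl (nat_lit 6) (nat_lit 84) (.leaf ⟨(nat_lit 35), (nat_lit 259), (nat_lit 0), (nat_lit 706), (nat_lit 0), (nat_lit 7752), (nat_lit 7873), (nat_lit 5800), (nat_lit 16323928763141), (nat_lit 1648), (nat_lit 140000), [((nat_lit 380), [((nat_lit 41), (nat_lit 5), (nat_lit 35))])], ⟨(nat_lit 8), false, true, false, (nat_lit 326), (nat_lit 2236), (nat_lit 3163), [(nat_lit 1632548), (nat_lit 1636264), (nat_lit 1698823), (nat_lit 1704397), (nat_lit 1937695), (nat_lit 1921722), (nat_lit 2004104), (nat_lit 1989990)]⟩, ⟨(nat_lit 6), false, false, false, (nat_lit 292), (nat_lit 2236), (nat_lit 3163), [(nat_lit 1459424), (nat_lit 1468173), (nat_lit 1591972), (nat_lit 1604438), (nat_lit 1871230), (nat_lit 1853399), (nat_lit 2004104), (nat_lit 1989990)]⟩, (nat_lit 5820642), (nat_lit 29381524), (nat_lit 20531728), (nat_lit 17086748), (nat_lit 6), (nat_lit 0), [], [⟨(nat_lit 0), (nat_lit 100), (nat_lit 63), (nat_lit 99),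 (nat_lit 308152969)⟩], [⟨(nat_lit 0), (nat_lit 80), (nat_lit 66), (nat_lit 100), (nat_lit 277424935)⟩], [],
 ⟨⟨[(nat_lit 40), (nat_lit 80), (nat_lit 120)], [(nat_lit 0), (nat_lit 1598), (nat_lit 3468)], [((nat_lit 0), (nat_lit 0), (nat_lit 0)), ((nat_lit 1000), (nat_lit 625), (nat_lit 623)), ((nat_lit 1000), (nat_lit 604), (nat_lit 730))], ((nat_lit 60), (nat_lit 100), (nat_lit 81))⟩, (nat_lit 170863), (nat_lit 300), (nat_lit 711), (nat_lit 47407460), (nat_lit 1473604), [(nat_lit 1896298001), (nat_lit 4034280699), (nat_lit 6281448000)], [(nat_lit 0), (nat_lit 0), (nat_lit 0)], [(nat_lit 30272153636), (nat_lit 30616661403), (nat_lit 37443611614), (nat_lit 38945155031), (nat_lit 36661075032), (nat_lit 38001062628), (nat_lit 42442745024), (nat_lit 43196006752)], (nat_lit 1271251), (nat_lit 1271251), (nat_lit 1271251), (nat_lit 1271251), (nat_lit 857188), (nat_lit 3093126), [(nat_lit 490000), (nat_lit 1100000), (nat_lit 1785001)], [(nat_lit 4), (nat_lit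 51), (nat_lit 428), (nat_lit 200), (nat_lit 13)]⟩,
 ⟨⟨[(nat_lit 40), (nat_lit 100), (nat_lit 140)], [(nat_lit 0), (nat_lit 0), (nat_lit 3243)], [((nat_lit 0), (nat_lit 0), (nat_lit 0)), ((nat_lit 0), (nat_lit 0), (nat_lit 0)), ((nat_lit 1000), (nat_lit 870), (nat_lit 941))], ((nat_lit 84), (nat_lit 100), (nat_lit 85))⟩, (nat_lit 1406542), (nat_lit 625), (nat_lit 625), (nat_lit 0), (nat_lit 1100786), [(nat_lit 1960880000), (nat_lit 6031250000), (nat_lit 9497530000)], [], [(nat_lit 28505637686), (nat_lit 30880982931), (nat_lit 35193393840), (nat_lit 39968868699), (nat_lit 33257021480), (nat_lit 37250874985), (nat_lit 40065955952), (nat_lit 42286652348)], (nat_lit 1271251), (nat_lit 1271251), (nat_lit 1271251), (nat_lit 1271251), (nat_lit 490000), (nat_lit 2990001), [(nat_lit 490000), (nat_lit 1427501), (nat_lit 1271251)], [(nat_lit 5), (nat_lit 55), (nat_lit 428), (nat_lit 200), (nat_lit 12)]⟩,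
 ⟨⟨[(nat_lit 80), (nat_lit 140), (nat_lit 180)], [(nat_lit 0), (nat_lit 792), (nat_lit 4228)], [((nat_lit 0), (nat_lit 0), (nat_lit 0)), ((nat_lit 1000), (nat_lit 959), (nat_lit 206)), ((nat_lit 709), (nat_lit 1000), (nat_lit 949))], ((nat_lit 100), (nat_lit 84), (nat_lit 85))⟩, (nat_lit 5242921), (nat_lit 300), (nat_lit 1009), (nat_lit 41371600), (nat_lit 1553135), [(nat_lit 3309728000), (nat_lit 6948452000), (nat_lit 9924948000)], [], [(nat_lit 39746936075), (nat_lit 39413902537), (nat_lit 37339039758), (nat_lit 36539678250), (nat_lit 42522148054), (nat_lit 35378887487), (nat_lit 33018878596), (nat_lit 31884309784)], (nat_lit 1271251), (nat_lit 1271251), (nat_lit 1271251), (nat_lit 1271251), (nat_lit 490000), (nat_lit 2990001), [(nat_lit 1100000), (nat_lit 2127501), (nat_lit 1271251)], [(nat_lit 19), (nat_lit 63), (nat_lit 538), (nat_lit 300), (nat_lit 12)]⟩⟩) (.leaf ⟨(nat_lit 0), (nat_lit 0), (nat_lit 0), (nat_lit 1000), (nat_lit 0), (nat_lit 10762),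 (nat_lit 7778), (nat_lit 11784), (nat_lit 18145), (nat_lit 2693), (nat_lit 0), [], Pd.none, Pd.none, (nat_lit 0), (nat_lit 1), (nat_lit 0), (nat_lit 0), (nat_lit 0), (nat_lit 0), [⟨(nat_lit 0), (nat_lit 69), (nat_lit 55), (nat_lit 100), (nat_lit 115860603)⟩], [⟨(nat_lit 0), (nat_lit 100), (nat_lit 63), (nat_lit 99), (nat_lit 634430551)⟩], [⟨(nat_lit 0), (nat_lit 80), (nat_lit 66), (nat_lit 100), (nat_lit 120386389)⟩], [],
 ⟨⟨[(nat_lit 40), (nat_lit 100), (nat_lit 160)], [(nat_lit 0), (nat_lit 2396), (nat_lit 6144)], [((nat_lit 0), (nat_lit 0), (nat_lit 0)), ((nat_lit 1000), (nat_lit 625), (nat_lit 623)), ((nat_lit 1000), (nat_lit 625), (nat_lit 975))], ((nat_lit 61), (nat_lit 90), (nat_lit 100))⟩, (nat_lit 609375), (nat_lit 300), (nat_lit 383), (nat_lit 50800001), (nat_lit 522432), [(nat_lit 2032000002), (nat_lit 6486657813), (nat_lit 11872000000)], [], [(nat_lit 32889275634), (nat_lit 33978176936), (nat_lit 42463052247), (nat_lit 44308974655), (nat_lit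 40816804442), (nat_lit 42449847143), (nat_lit 46963048644), (nat_lit 47818617262)], (nat_lit 1271251), (nat_lit 1271251), (nat_lit 1271251), (nat_lit 1271251), (nat_lit 857188), (nat_lit 3093126), [(nat_lit 490000), (nat_lit 1427501), (nat_lit 1271251)], [(nat_lit 6), (nat_lit 56), (nat_lit 428), (nat_lit 200), (nat_lit 10)]⟩,
 ⟨⟨[(nat_lit 40), (nat_lit 120), (nat_lit 180)], [(nat_lit 0), (nat_lit 0), (nat_lit 6400)], [((nat_lit 0), (nat_lit 0), (nat_lit 0)), ((nat_lit 0), (nat_lit 0), (nat_lit 0)), ((nat_lit 600), (nat_lit 800), (nat_lit 1000))], ((nat_lit 81), (nat_lit 73), (nat_lit 100))⟩, (nat_lit 1691618), (nat_lit 405), (nat_lit 405), (nat_lit 0), (nat_lit 369230), [(nat_lit 2032000000), (nat_lit 7968000000), (nat_lit 14058000000)], [], [(nat_lit 30596459624), (nat_lit 33810678755), (nat_lit 38025523200), (nat_lit 40615937334), (nat_lit 36201864212), (nat_lit 38344105886), (nat_lit 40973499952), (nat_lit 43235936278)], (nat_lit 1271251), (nat_lit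 1271251), (nat_lit 1271251), (nat_lit 1271251), (nat_lit 490000), (nat_lit 2990001), [(nat_lit 490000), (nat_lit 1740001), (nat_lit 1271251)], [(nat_lit 7), (nat_lit 60), (nat_lit 538), (nat_lit 300), (nat_lit 12)]⟩,
 ⟨⟨[(nat_lit 80), (nat_lit 140), (nat_lit 200)], [(nat_lit 0), (nat_lit 792), (nat_lit 5941)], [((nat_lit 0), (nat_lit 0), (nat_lit 0)), ((nat_lit 1000), (nat_lit 959), (nat_lit 206)), ((nat_lit 709), (nat_lit 1000), (nat_lit 949))], ((nat_lit 0), (nat_lit 0), (nat_lit 0))⟩, (nat_lit 486530), (nat_lit 300), (nat_lit 602), (nat_lit 67547631), (nat_lit 505026), [(nat_lit 4688000000), (nat_lit 9842000000), (nat_lit 16400000000)], [], [(nat_lit 54977706694), (nat_lit 55212440599), (nat_lit 51860246320), (nat_lit 53216005278), (nat_lit 73745407926), (nat_lit 50193485338), (nat_lit 46683222422), (nat_lit 49388154784)], (nat_lit 1271251), (nat_lit 1271251), (nat_lit 1271251), (nat_lit 1271251), (nat_lit 490000), (nat_lit 2990001), [(nat_lit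 1100000), (nat_lit 2127501), (nat_lit 1271251)], [(nat_lit 20), (nat_lit 64), (nat_lit 538), (nat_lit 300), (nat_lit 11)]⟩⟩))) (.dle (nat_lit 0)))))
def l037 : List St := [⟨⟨(nat_lit 360), (nat_lit 380), (nat_lit 360), (nat_lit 380), (nat_lit 160), (nat_lit 200), (nat_lit 200), (nat_lit 400), (nat_lit 50), (nat_lit 320), (nat_lit 10), (nat_lit 360), (nat_lit 104), (nat_lit 192)⟩, (nat_lit 3), (nat_lit 3), (nat_lit 3), false, false, false⟩,
  ⟨⟨(nat_lit 360), (nat_lit 380), (nat_lit 320), (nat_lit 380), (nat_lit 200), (nat_lit 260), (nat_lit 200), (nat_lit 400), (nat_lit 20), (nat_lit 370), (nat_lit 0), (nat_lit 390), (nat_lit 104), (nat_lit 204)⟩, (nat_lit 3), (nat_lit 3), (nat_lit 3), false, false, false⟩,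
  ⟨⟨(nat_lit 360), (nat_lit 380), (nat_lit 320), (nat_lit 380), (nat_lit 260), (nat_lit 380), (nat_lit 200), (nat_lit 400), (nat_lit 20), (nat_lit 400), (nat_lit 0), (nat_lit 400), (nat_lit 0), (nat_lit 204)⟩, (nat_lit 3), (nat_lit 3), (nat_lit 3), false, false, false⟩]
theorem t037 (h : EC env Ei) : ∀ τ ∈ l037, Dead τ :=
  List.forall_mem_cons.mpr ⟨chkT_sound0 h (T := c18_28) (by decide +kernel),
  List.forall_mem_cons.mpr ⟨chkT_sound0 h (T := c18_29) (by decide +kernel),
  List.forall_mem_cons.mpr ⟨chkT_sound0 h (T := c18_30) (by decide +kernel),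
  List.forall_mem_nil _⟩⟩⟩
end TC
end Pool.Agent.Lib.MP_6947cd_al
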