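import Pool.Agent.Lib.MP_6947cd_al.TC.F
import Pool.Agent.Lib.MP_6947cd_al.TC.P000
import Pool.Agent.Lib.MP_6947cd_al.TC.P001
import Pool.Agent.Lib.MP_6947cd_al.TC.P002
import Pool.Agent.Lib.MP_6947cd_al.TC.P003

/-!
Problem MP_6947cd_al (Chollet).  CASE C, tables and certificates.  The families of tables are correct.
-/

set_option autoImplicit false
set_option linter.all false
set_option maxRecDepth 100000
set_option maxHeartbeats 4000000
namespace Pool.Agent.Lib.MP_6947cd_al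
namespace TC
open PkA PkA.TF
theorem T0_ok (h : RcOK RE.rowE) : TOK rd0 ks0 T0 := (ndB (a := (nat_lit 160)) (y := (nat_lit 160)) (z := (nat_lit 400)) (N := (nat_lit 11))
 (ndB (a := (nat_lit 80)) (y := (nat_lit 160)) (z := (nat_lit 320)) (N := (nat_lit 11))
 (ndB (a := (nat_lit 0)) (y := (nat_lit 320)) (z := (nat_lit 400)) (N := (nat_lit 11))
 (ndB (a := (nat_lit 0)) (y := (nat_lit 240)) (z := (nat_lit 400)) (N := (nat_lit 11))
 (ndB (a := (nat_lit 0)) (y := (nat_lit 240)) (z := (nat_lit 320)) (N := (nat_lit 11))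
 .nil
 .nil (p000 h).1.1.1.1.1.1.1 (by decide +kernel))
 (ndB (a := (nat_lit 0)) (y := (nat_lit 320)) (z := (nat_lit 320)) (N := (nat_lit 11))
 .nil
 .nil (p000 h).1.1.1.1.1.2.1 (by decide +kernel)) (p000 h).1.1.1.1.1.1.2 (by decide +kernel))
 (ndB (a := (nat_lit 80)) (y := (nat_lit 80)) (z := (nat_lit 320)) (N := (nat_lit 11))
 (ndB (a := (nat_lit 0)) (y := (nat_lit 400)) (z := (nat_lit 400)) (N := (nat_lit 11))
 .nil
 .nil (p000 h).1.1.1.1.2.1.1 (by decide +kernel))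
 (ndB (a := (nat_lit 80)) (y := (nat_lit 80)) (z := (nat_lit 400)) (N := (nat_lit 11))
 .nil
 .nil (p000 h).1.1.1.1.2.2.1 (by decide +kernel)) (p000 h).1.1.1.1.2.1.2 (by decide +kernel)) (p000 h).1.1.1.1.1.2.2 (by decide +kernel))
 (ndB (a := (nat_lit 80)) (y := (nat_lit 320)) (z := (nat_lit 320)) (N := (nat_lit 11))
 (ndB (a := (nat_lit 80)) (y := (nat_lit 240)) (z := (nat_lit 320)) (N := (nat_lit 11))
 (ndB (a := (nat_lit 80)) (y := (nat_lit 160)) (z := (nat_lit 400)) (N := (nat_lit 11))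
 .nil
 .nil (p000 h).1.1.1.1.2.2.2.2 (by decide +kernel))
 (ndB (a := (nat_lit 80)) (y := (nat_lit 240)) (z := (nat_lit 400)) (N := (nat_lit 11))
 .nil
 .nil (p000 h).1.1.1.2.1.1.2 (by decide +kernel)) (p000 h).1.1.1.2.1.1.1 (by decide +kernel))
 (ndB (a := (nat_lit 80)) (y := (nat_lit 400)) (z := (nat_lit 400)) (N := (nat_lit 11))
 (ndB (a := (nat_lit 80)) (y := (nat_lit 320)) (z := (nat_lit 400)) (N := (nat_lit 11))
 .nil
 .nil (p000 h).1.1.1.2.1.2.2 (by decide +kernel))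
 (ndB (a := (nat_lit 160)) (y := (nat_lit 160)) (z := (nat_lit 320)) (N := (nat_lit 11))
 .nil
 .nil (p000 h).1.1.1.2.2.1.2 (by decide +kernel)) (p000 h).1.1.1.2.2.1.1 (by decide +kernel)) (p000 h).1.1.1.2.1.2.1 (by decide +kernel)) (p000 h).1.1.1.1.2.2.2.1 (by decide +kernel))
 (ndB (a := (nat_lit 240)) (y := (nat_lit 320)) (z := (nat_lit 320)) (N := (nat_lit 11))
 (ndB (a := (nat_lit 160)) (y := (nat_lit 320)) (z := (nat_lit 400)) (N := (nat_lit 11))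
 (ndB (a := (nat_lit 160)) (y := (nat_lit 240)) (z := (nat_lit 400)) (N := (nat_lit 11))
 (ndB (a := (nat_lit 160)) (y := (nat_lit 240)) (z := (nat_lit 320)) (N := (nat_lit 11))
 .nil
 .nil (p000 h).1.1.1.2.2.2.2.1 (by decide +kernel))
 (ndB (a := (nat_lit 160)) (y := (nat_lit 320)) (z := (nat_lit 320)) (N := (nat_lit 11))
 .nil
 .nil (p000 h).1.1.2.1.1.1.1 (by decide +kernel)) (p000 h).1.1.1.2.2.2.2.2 (by decide +kernel))
 (ndB (a := (nat_lit 240)) (y := (nat_lit 240)) (z := (nat_lit 320)) (N := (nat_lit 11))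
 (ndB (a := (nat_lit 160)) (y := (nat_lit 400)) (z := (nat_lit 400)) (N := (nat_lit 11))
 .nil
 .nil (p000 h).1.1.2.1.1.2.1 (by decide +kernel))
 (ndB (a := (nat_lit 240)) (y := (nat_lit 240)) (z := (nat_lit 400)) (N := (nat_lit 11))
 .nil
 .nil (p000 h).1.1.2.1.2.1.1 (by decide +kernel)) (p000 h).1.1.2.1.1.2.2 (by decide +kernel)) (p000 h).1.1.2.1.1.1.2 (by decide +kernel))
 (ndB (a := (nat_lit 320)) (y := (nat_lit 320)) (z := (nat_lit 400)) (N := (nat_lit 11))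
 (ndB (a := (nat_lit 240)) (y := (nat_lit 400)) (z := (nat_lit 400)) (N := (nat_lit 11))
 (ndB (a := (nat_lit 240)) (y := (nat_lit 320)) (z := (nat_lit 400)) (N := (nat_lit 11))
 .nil
 .nil (p000 h).1.1.2.1.2.2.1 (by decide +kernel))
 (ndB (a := (nat_lit 320)) (y := (nat_lit 320)) (z := (nat_lit 320)) (N := (nat_lit 11))
 .nil
 .nil (p000 h).1.1.2.1.2.2.2.2 (by decide +kernel)) (p000 h).1.1.2.1.2.2.2.1 (by decide +kernel))
 (ndB (a := (nat_lit 400)) (y := (nat_lit 400)) (z := (nat_lit 400)) (N := (nat_lit 11))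
 (ndB (a := (nat_lit 320)) (y := (nat_lit 400)) (z := (nat_lit 400)) (N := (nat_lit 11))
 .nil
 .nil (p000 h).1.1.2.2.1.1.2 (by decide +kernel))
 .nil (p000 h).1.1.2.2.1.2.1 (by decide +kernel)) (p000 h).1.1.2.2.1.1.1 (by decide +kernel)) (p000 h).1.1.2.1.2.1.2 (by decide +kernel)) (p000 h).1.1.1.2.2.2.1 (by decide +kernel))
theorem F0_ok (h : RcOK RE.rowE) : F0.OK := .of (by decide +kernel) (T0_ok h)
theorem T1_ok (h : RcOK RE.rowE) : TOK rd1 ks1 T1 := (ndB (a := (nat_lit 80)) (y := (nat_lit 320)) (z := (nat_lit 400)) (N := (nat_lit 55))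
 (ndB (a := (nat_lit 0)) (y := (nat_lit 320)) (z := (nat_lit 400)) (N := (nat_lit 55))
 (ndB (a := (nat_lit 0)) (y := (nat_lit 160)) (z := (nat_lit 320)) (N := (nat_lit 55))
 (ndB (a := (nat_lit 0)) (y := (nat_lit 80)) (z := (nat_lit 320)) (N := (nat_lit 55))
 (ndB (a := (nat_lit 0)) (y := (nat_lit 0)) (z := (nat_lit 400)) (N := (nat_lit 55))
 (ndB (a := (nat_lit 0)) (y := (nat_lit 0)) (z := (nat_lit 320)) (N := (nat_lit 55))
 .nil
 .nil (p000 h).1.1.2.2.1.2.2 (by decide +kernel))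
 .nil (p000 h).1.1.2.2.2.1.1 (by decide +kernel))
 (ndB (a := (nat_lit 0)) (y := (nat_lit 80)) (z := (nat_lit 400)) (N := (nat_lit 55))
 .nil
 .nil (p000 h).1.1.2.2.2.2.1 (by decide +kernel)) (p000 h).1.1.2.2.2.1.2 (by decide +kernel))
 (ndB (a := (nat_lit 0)) (y := (nat_lit 240)) (z := (nat_lit 400)) (N := (nat_lit 55))
 (ndB (a := (nat_lit 0)) (y := (nat_lit 240)) (z := (nat_lit 320)) (N := (nat_lit 55))
 (ndB (a := (nat_lit 0)) (y := (nat_lit 160)) (z := (nat_lit 400)) (N := (nat_lit 55))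
 .nil
 .nil (p000 h).1.1.2.2.2.2.2.2 (by decide +kernel))
 .nil (p000 h).1.2.1.1.1.1.1 (by decide +kernel))
 (ndB (a := (nat_lit 0)) (y := (nat_lit 320)) (z := (nat_lit 320)) (N := (nat_lit 55))
 .nil
 .nil (p000 h).1.2.1.1.1.2.1 (by decide +kernel)) (p000 h).1.2.1.1.1.1.2 (by decide +kernel)) (p000 h).1.1.2.2.2.2.2.1 (by decide +kernel))
 (ndB (a := (nat_lit 80)) (y := (nat_lit 160)) (z := (nat_lit 400)) (N := (nat_lit 55))
 (ndB (a := (nat_lit 80)) (y := (nat_lit 80)) (z := (nat_lit 400)) (N := (nat_lit 55))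
 (ndB (a := (nat_lit 80)) (y := (nat_lit 80)) (z := (nat_lit 320)) (N := (nat_lit 55))
 (ndB (a := (nat_lit 0)) (y := (nat_lit 400)) (z := (nat_lit 400)) (N := (nat_lit 55))
 .nil
 .nil (p000 h).1.2.1.1.2.1.1 (by decide +kernel))
 .nil (p000 h).1.2.1.1.2.1.2 (by decide +kernel))
 (ndB (a := (nat_lit 80)) (y := (nat_lit 160)) (z := (nat_lit 320)) (N := (nat_lit 55))
 .nil
 .nil (p000 h).1.2.1.1.2.2.2.1 (by decide +kernel)) (p000 h).1.2.1.1.2.2.1 (by decide +kernel))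
 (ndB (a := (nat_lit 80)) (y := (nat_lit 240)) (z := (nat_lit 400)) (N := (nat_lit 55))
 (ndB (a := (nat_lit 80)) (y := (nat_lit 240)) (z := (nat_lit 320)) (N := (nat_lit 55))
 .nil
 .nil (p000 h).1.2.1.2.1.1.1 (by decide +kernel))
 (ndB (a := (nat_lit 80)) (y := (nat_lit 320)) (z := (nat_lit 320)) (N := (nat_lit 55))
 .nil
 .nil (p000 h).1.2.1.2.1.2.1 (by decide +kernel)) (p000 h).1.2.1.2.1.1.2 (by decide +kernel)) (p000 h).1.2.1.1.2.2.2.2 (by decide +kernel)) (p000 h).1.2.1.1.1.2.2 (by decide +kernel))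
 (ndB (a := (nat_lit 240)) (y := (nat_lit 240)) (z := (nat_lit 320)) (N := (nat_lit 55))
 (ndB (a := (nat_lit 160)) (y := (nat_lit 240)) (z := (nat_lit 400)) (N := (nat_lit 55))
 (ndB (a := (nat_lit 160)) (y := (nat_lit 160)) (z := (nat_lit 400)) (N := (nat_lit 55))
 (ndB (a := (nat_lit 160)) (y := (nat_lit 160)) (z := (nat_lit 320)) (N := (nat_lit 55))
 (ndB (a := (nat_lit 80)) (y := (nat_lit 400)) (z := (nat_lit 400)) (N := (nat_lit 55))
 .nil
 .nil (p000 h).1.2.1.2.2.1.1 (by decide +kernel))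
 .nil (p000 h).1.2.1.2.2.1.2 (by decide +kernel))
 (ndB (a := (nat_lit 160)) (y := (nat_lit 240)) (z := (nat_lit 320)) (N := (nat_lit 55))
 .nil
 .nil (p000 h).1.2.1.2.2.2.2.1 (by decide +kernel)) (p000 h).1.2.1.2.2.2.1 (by decide +kernel))
 (ndB (a := (nat_lit 160)) (y := (nat_lit 320)) (z := (nat_lit 400)) (N := (nat_lit 55))
 (ndB (a := (nat_lit 160)) (y := (nat_lit 320)) (z := (nat_lit 320)) (N := (nat_lit 55))
 .nil
 .nil (p000 h).1.2.2.1.1.1.1 (by decide +kernel))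
 (ndB (a := (nat_lit 160)) (y := (nat_lit 400)) (z := (nat_lit 400)) (N := (nat_lit 55))
 .nil
 .nil (p000 h).1.2.2.1.1.2.1 (by decide +kernel)) (p000 h).1.2.2.1.1.1.2 (by decide +kernel)) (p000 h).1.2.1.2.2.2.2.2 (by decide +kernel))
 (ndB (a := (nat_lit 320)) (y := (nat_lit 320)) (z := (nat_lit 320)) (N := (nat_lit 55))
 (ndB (a := (nat_lit 240)) (y := (nat_lit 320)) (z := (nat_lit 400)) (N := (nat_lit 55))
 (ndB (a := (nat_lit 240)) (y := (nat_lit 320)) (z := (nat_lit 320)) (N := (nat_lit 55))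
 (ndB (a := (nat_lit 240)) (y := (nat_lit 240)) (z := (nat_lit 400)) (N := (nat_lit 55))
 .nil
 .nil (p000 h).1.2.2.1.2.1.1 (by decide +kernel))
 .nil (p000 h).1.2.2.1.2.1.2 (by decide +kernel))
 (ndB (a := (nat_lit 240)) (y := (nat_lit 400)) (z := (nat_lit 400)) (N := (nat_lit 55))
 .nil
 .nil (p000 h).1.2.2.1.2.2.2.1 (by decide +kernel)) (p000 h).1.2.2.1.2.2.1 (by decide +kernel))
 (ndB (a := (nat_lit 320)) (y := (nat_lit 400)) (z := (nat_lit 400)) (N := (nat_lit 55))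
 (ndB (a := (nat_lit 320)) (y := (nat_lit 320)) (z := (nat_lit 400)) (N := (nat_lit 55))
 .nil
 .nil (p000 h).1.2.2.2.1.1.1 (by decide +kernel))
 (ndB (a := (nat_lit 400)) (y := (nat_lit 400)) (z := (nat_lit 400)) (N := (nat_lit 55))
 .nil
 .nil (p000 h).1.2.2.2.1.2.1 (by decide +kernel)) (p000 h).1.2.2.2.1.1.2 (by decide +kernel)) (p000 h).1.2.2.1.2.2.2.2 (by decide +kernel)) (p000 h).1.2.2.1.1.2.2 (by decide +kernel)) (p000 h).1.2.1.2.1.2.2 (by decide +kernel))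
theorem F1_ok (h : RcOK RE.rowE) : F1.OK := .of (by decide +kernel) (T1_ok h)
theorem T2_ok (h : RcOK RE.rowE) : TOK rd2 ks2 T2 := (ndB (a := (nat_lit 80)) (y := (nat_lit 320)) (z := (nat_lit 400)) (N := (nat_lit 560))
 (ndB (a := (nat_lit 0)) (y := (nat_lit 320)) (z := (nat_lit 400)) (N := (nat_lit 560))
 (ndB (a := (nat_lit 0)) (y := (nat_lit 160)) (z := (nat_lit 320)) (N := (nat_lit 560))
 (ndB (a := (nat_lit 0)) (y := (nat_lit 80)) (z := (nat_lit 320)) (N := (nat_lit 560))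
 (ndB (a := (nat_lit 0)) (y := (nat_lit 0)) (z := (nat_lit 400)) (N := (nat_lit 560))
 (ndB (a := (nat_lit 0)) (y := (nat_lit 0)) (z := (nat_lit 320)) (N := (nat_lit 560))
 .nil
 .nil (p000 h).1.2.2.2.1.2.2.1 (by decide +kernel))
 .nil (p000 h).1.2.2.2.1.2.2.2 (by decide +kernel))
 (ndB (a := (nat_lit 0)) (y := (nat_lit 80)) (z := (nat_lit 400)) (N := (nat_lit 560))
 .nil
 .nil (p000 h).1.2.2.2.2.1.2 (by decide +kernel)) (p000 h).1.2.2.2.2.1.1 (by decide +kernel))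
 (ndB (a := (nat_lit 0)) (y := (nat_lit 240)) (z := (nat_lit 400)) (N := (nat_lit 560))
 (ndB (a := (nat_lit 0)) (y := (nat_lit 240)) (z := (nat_lit 320)) (N := (nat_lit 560))
 (ndB (a := (nat_lit 0)) (y := (nat_lit 160)) (z := (nat_lit 400)) (N := (nat_lit 560))
 .nil
 .nil (p000 h).1.2.2.2.2.2.2.1 (by decide +kernel))
 .nil (p000 h).1.2.2.2.2.2.2.2 (by decide +kernel))
 (ndB (a := (nat_lit 0)) (y := (nat_lit 320)) (z := (nat_lit 320)) (N := (nat_lit 560))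
 .nil
 .nil (p000 h).2.1.1.1.1.1.2 (by decide +kernel)) (p000 h).2.1.1.1.1.1.1 (by decide +kernel)) (p000 h).1.2.2.2.2.2.1 (by decide +kernel))
 (ndB (a := (nat_lit 80)) (y := (nat_lit 160)) (z := (nat_lit 400)) (N := (nat_lit 560))
 (ndB (a := (nat_lit 80)) (y := (nat_lit 80)) (z := (nat_lit 400)) (N := (nat_lit 560))
 (ndB (a := (nat_lit 80)) (y := (nat_lit 80)) (z := (nat_lit 320)) (N := (nat_lit 560))
 (ndB (a := (nat_lit 0)) (y := (nat_lit 400)) (z := (nat_lit 400)) (N := (nat_lit 560))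
 .nil
 .nil (p000 h).2.1.1.1.1.2.2 (by decide +kernel))
 .nil (p000 h).2.1.1.1.2.1.1 (by decide +kernel))
 (ndB (a := (nat_lit 80)) (y := (nat_lit 160)) (z := (nat_lit 320)) (N := (nat_lit 560))
 .nil
 .nil (p000 h).2.1.1.1.2.2.1 (by decide +kernel)) (p000 h).2.1.1.1.2.1.2 (by decide +kernel))
 (ndB (a := (nat_lit 80)) (y := (nat_lit 240)) (z := (nat_lit 400)) (N := (nat_lit 560))
 (ndB (a := (nat_lit 80)) (y := (nat_lit 240)) (z := (nat_lit 320)) (N := (nat_lit 560))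
 .nil
 .nil (p000 h).2.1.1.1.2.2.2.2 (by decide +kernel))
 (ndB (a := (nat_lit 80)) (y := (nat_lit 320)) (z := (nat_lit 320)) (N := (nat_lit 560))
 .nil
 .nil (p000 h).2.1.1.2.1.1.2 (by decide +kernel)) (p000 h).2.1.1.2.1.1.1 (by decide +kernel)) (p000 h).2.1.1.1.2.2.2.1 (by decide +kernel)) (p000 h).2.1.1.1.1.2.1 (by decide +kernel))
 (ndB (a := (nat_lit 240)) (y := (nat_lit 240)) (z := (nat_lit 320)) (N := (nat_lit 560))
 (ndB (a := (nat_lit 160)) (y := (nat_lit 240)) (z := (nat_lit 400)) (N := (nat_lit 560))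
 (ndB (a := (nat_lit 160)) (y := (nat_lit 160)) (z := (nat_lit 400)) (N := (nat_lit 560))
 (ndB (a := (nat_lit 160)) (y := (nat_lit 160)) (z := (nat_lit 320)) (N := (nat_lit 560))
 (ndB (a := (nat_lit 80)) (y := (nat_lit 400)) (z := (nat_lit 400)) (N := (nat_lit 560))
 .nil
 .nil (p000 h).2.1.1.2.1.2.2 (by decide +kernel))
 .nil (p000 h).2.1.1.2.2.1.1 (by decide +kernel))
 (ndB (a := (nat_lit 160)) (y := (nat_lit 240)) (z := (nat_lit 320)) (N := (nat_lit 560))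
 .nil
 .nil (p000 h).2.1.1.2.2.2.1 (by decide +kernel)) (p000 h).2.1.1.2.2.1.2 (by decide +kernel))
 (ndB (a := (nat_lit 160)) (y := (nat_lit 320)) (z := (nat_lit 400)) (N := (nat_lit 560))
 (ndB (a := (nat_lit 160)) (y := (nat_lit 320)) (z := (nat_lit 320)) (N := (nat_lit 560))
 .nil
 .nil (p000 h).2.1.1.2.2.2.2.2 (by decide +kernel))
 (ndB (a := (nat_lit 160)) (y := (nat_lit 400)) (z := (nat_lit 400)) (N := (nat_lit 560))
 .nil
 .nil (p000 h).2.1.2.1.1.1.2 (by decide +kernel)) (p000 h).2.1.2.1.1.1.1 (by decide +kernel)) (p000 h).2.1.1.2.2.2.2.1 (by decide +kernel))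
 (ndB (a := (nat_lit 320)) (y := (nat_lit 320)) (z := (nat_lit 320)) (N := (nat_lit 560))
 (ndB (a := (nat_lit 240)) (y := (nat_lit 320)) (z := (nat_lit 400)) (N := (nat_lit 560))
 (ndB (a := (nat_lit 240)) (y := (nat_lit 320)) (z := (nat_lit 320)) (N := (nat_lit 560))
 (ndB (a := (nat_lit 240)) (y := (nat_lit 240)) (z := (nat_lit 400)) (N := (nat_lit 560))
 .nil
 .nil (p000 h).2.1.2.1.1.2.2 (by decide +kernel))
 .nil (p000 h).2.1.2.1.2.1.1 (by decide +kernel))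
 (ndB (a := (nat_lit 240)) (y := (nat_lit 400)) (z := (nat_lit 400)) (N := (nat_lit 560))
 .nil
 .nil (p000 h).2.1.2.1.2.2.1 (by decide +kernel)) (p000 h).2.1.2.1.2.1.2 (by decide +kernel))
 (ndB (a := (nat_lit 320)) (y := (nat_lit 400)) (z := (nat_lit 400)) (N := (nat_lit 560))
 (ndB (a := (nat_lit 320)) (y := (nat_lit 320)) (z := (nat_lit 400)) (N := (nat_lit 560))
 .nil
 .nil (p000 h).2.1.2.1.2.2.2.2 (by decide +kernel))
 (ndB (a := (nat_lit 400)) (y := (nat_lit 400)) (z := (nat_lit 400)) (N := (nat_lit 560))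
 .nil
 .nil (p000 h).2.1.2.2.1.1.2 (by decide +kernel)) (p000 h).2.1.2.2.1.1.1 (by decide +kernel)) (p000 h).2.1.2.1.2.2.2.1 (by decide +kernel)) (p000 h).2.1.2.1.1.2.1 (by decide +kernel)) (p000 h).2.1.1.2.1.2.1 (by decide +kernel))
theorem F2_ok (h : RcOK RE.rowE) : F2.OK := .of (by decide +kernel) (T2_ok h)
theorem T3_ok (h : RcOK RE.rowE) : TOK rd3 ks3 T3 := (ndB (a := (nat_lit 80)) (y := (nat_lit 320)) (z := (nat_lit 400)) (N := (nat_lit 684))
 (ndB (a := (nat_lit 0)) (y := (nat_lit 320)) (z := (nat_lit 400)) (N := (nat_lit 684))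
 (ndB (a := (nat_lit 0)) (y := (nat_lit 160)) (z := (nat_lit 320)) (N := (nat_lit 684))
 (ndB (a := (nat_lit 0)) (y := (nat_lit 80)) (z := (nat_lit 320)) (N := (nat_lit 684))
 (ndB (a := (nat_lit 0)) (y := (nat_lit 0)) (z := (nat_lit 400)) (N := (nat_lit 684))
 (ndB (a := (nat_lit 0)) (y := (nat_lit 0)) (z := (nat_lit 320)) (N := (nat_lit 684))
 .nil
 .nil (p000 h).2.1.2.2.1.2.1 (by decide +kernel))
 .nil (p000 h).2.1.2.2.1.2.2 (by decide +kernel))
 (ndB (a := (nat_lit 0)) (y := (nat_lit 80)) (z := (nat_lit 400)) (N := (nat_lit 684))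
 .nil
 .nil (p000 h).2.1.2.2.2.1.2 (by decide +kernel)) (p000 h).2.1.2.2.2.1.1 (by decide +kernel))
 (ndB (a := (nat_lit 0)) (y := (nat_lit 240)) (z := (nat_lit 400)) (N := (nat_lit 684))
 (ndB (a := (nat_lit 0)) (y := (nat_lit 240)) (z := (nat_lit 320)) (N := (nat_lit 684))
 (ndB (a := (nat_lit 0)) (y := (nat_lit 160)) (z := (nat_lit 400)) (N := (nat_lit 684))
 .nil
 .nil (p000 h).2.1.2.2.2.2.2.1 (by decide +kernel))
 .nil (p000 h).2.1.2.2.2.2.2.2 (by decide +kernel))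
 (ndB (a := (nat_lit 0)) (y := (nat_lit 320)) (z := (nat_lit 320)) (N := (nat_lit 684))
 .nil
 .nil (p000 h).2.2.1.1.1.1.2 (by decide +kernel)) (p000 h).2.2.1.1.1.1.1 (by decide +kernel)) (p000 h).2.1.2.2.2.2.1 (by decide +kernel))
 (ndB (a := (nat_lit 80)) (y := (nat_lit 160)) (z := (nat_lit 400)) (N := (nat_lit 684))
 (ndB (a := (nat_lit 80)) (y := (nat_lit 80)) (z := (nat_lit 400)) (N := (nat_lit 684))
 (ndB (a := (nat_lit 80)) (y := (nat_lit 80)) (z := (nat_lit 320)) (N := (nat_lit 684))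
 (ndB (a := (nat_lit 0)) (y := (nat_lit 400)) (z := (nat_lit 400)) (N := (nat_lit 684))
 .nil
 .nil (p000 h).2.2.1.1.1.2.2 (by decide +kernel))
 .nil (p000 h).2.2.1.1.2.1.1 (by decide +kernel))
 (ndB (a := (nat_lit 80)) (y := (nat_lit 160)) (z := (nat_lit 320)) (N := (nat_lit 684))
 .nil
 .nil (p000 h).2.2.1.1.2.2.1 (by decide +kernel)) (p000 h).2.2.1.1.2.1.2 (by decide +kernel))
 (ndB (a := (nat_lit 80)) (y := (nat_lit 240)) (z := (nat_lit 400)) (N := (nat_lit 684))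
 (ndB (a := (nat_lit 80)) (y := (nat_lit 240)) (z := (nat_lit 320)) (N := (nat_lit 684))
 .nil
 .nil (p000 h).2.2.1.1.2.2.2.2 (by decide +kernel))
 (ndB (a := (nat_lit 80)) (y := (nat_lit 320)) (z := (nat_lit 320)) (N := (nat_lit 684))
 .nil
 .nil (p000 h).2.2.1.2.1.1.2 (by decide +kernel)) (p000 h).2.2.1.2.1.1.1 (by decide +kernel)) (p000 h).2.2.1.1.2.2.2.1 (by decide +kernel)) (p000 h).2.2.1.1.1.2.1 (by decide +kernel))
 (ndB (a := (nat_lit 240)) (y := (nat_lit 240)) (z := (nat_lit 320)) (N := (nat_lit 684))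
 (ndB (a := (nat_lit 160)) (y := (nat_lit 240)) (z := (nat_lit 400)) (N := (nat_lit 684))
 (ndB (a := (nat_lit 160)) (y := (nat_lit 160)) (z := (nat_lit 400)) (N := (nat_lit 684))
 (ndB (a := (nat_lit 160)) (y := (nat_lit 160)) (z := (nat_lit 320)) (N := (nat_lit 684))
 (ndB (a := (nat_lit 80)) (y := (nat_lit 400)) (z := (nat_lit 400)) (N := (nat_lit 684))
 .nil
 .nil (p000 h).2.2.1.2.1.2.2 (by decide +kernel))
 .nil (p000 h).2.2.1.2.2.1.1 (by decide +kernel))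
 (ndB (a := (nat_lit 160)) (y := (nat_lit 240)) (z := (nat_lit 320)) (N := (nat_lit 684))
 .nil
 .nil (p000 h).2.2.1.2.2.2.1 (by decide +kernel)) (p000 h).2.2.1.2.2.1.2 (by decide +kernel))
 (ndB (a := (nat_lit 160)) (y := (nat_lit 320)) (z := (nat_lit 400)) (N := (nat_lit 684))
 (ndB (a := (nat_lit 160)) (y := (nat_lit 320)) (z := (nat_lit 320)) (N := (nat_lit 684))
 .nil
 .nil (p000 h).2.2.1.2.2.2.2.2 (by decide +kernel))
 (ndB (a := (nat_lit 160)) (y := (nat_lit 400)) (z := (nat_lit 400)) (N := (nat_lit 684))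
 .nil
 .nil (p000 h).2.2.2.1.1.1.2 (by decide +kernel)) (p000 h).2.2.2.1.1.1.1 (by decide +kernel)) (p000 h).2.2.1.2.2.2.2.1 (by decide +kernel))
 (ndB (a := (nat_lit 320)) (y := (nat_lit 320)) (z := (nat_lit 320)) (N := (nat_lit 684))
 (ndB (a := (nat_lit 240)) (y := (nat_lit 320)) (z := (nat_lit 400)) (N := (nat_lit 684))
 (ndB (a := (nat_lit 240)) (y := (nat_lit 320)) (z := (nat_lit 320)) (N := (nat_lit 684))
 (ndB (a := (nat_lit 240)) (y := (nat_lit 240)) (z := (nat_lit 400)) (N := (nat_lit 684))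
 .nil
 .nil (p000 h).2.2.2.1.1.2.2 (by decide +kernel))
 .nil (p000 h).2.2.2.1.2.1.1 (by decide +kernel))
 (ndB (a := (nat_lit 240)) (y := (nat_lit 400)) (z := (nat_lit 400)) (N := (nat_lit 684))
 .nil
 .nil (p000 h).2.2.2.1.2.2.1 (by decide +kernel)) (p000 h).2.2.2.1.2.1.2 (by decide +kernel))
 (ndB (a := (nat_lit 320)) (y := (nat_lit 400)) (z := (nat_lit 400)) (N := (nat_lit 684))
 (ndB (a := (nat_lit 320)) (y := (nat_lit 320)) (z := (nat_lit 400)) (N := (nat_lit 684))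
 .nil
 .nil (p000 h).2.2.2.1.2.2.2.2 (by decide +kernel))
 (ndB (a := (nat_lit 400)) (y := (nat_lit 400)) (z := (nat_lit 400)) (N := (nat_lit 684))
 .nil
 .nil (p000 h).2.2.2.2.1.1.2 (by decide +kernel)) (p000 h).2.2.2.2.1.1.1 (by decide +kernel)) (p000 h).2.2.2.1.2.2.2.1 (by decide +kernel)) (p000 h).2.2.2.1.1.2.1 (by decide +kernel)) (p000 h).2.2.1.2.1.2.1 (by decide +kernel))
theorem F3_ok (h : RcOK RE.rowE) : F3.OK := .of (by decide +kernel) (T3_ok h)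
theorem T4_ok (h : RcOK RE.rowE) : TOK rd4 ks4 T4 := (ndB (a := (nat_lit 80)) (y := (nat_lit 320)) (z := (nat_lit 400)) (N := (nat_lit 1320))
 (ndB (a := (nat_lit 0)) (y := (nat_lit 320)) (z := (nat_lit 400)) (N := (nat_lit 1320))
 (ndB (a := (nat_lit 0)) (y := (nat_lit 160)) (z := (nat_lit 320)) (N := (nat_lit 1320))
 (ndB (a := (nat_lit 0)) (y := (nat_lit 80)) (z := (nat_lit 320)) (N := (nat_lit 1320))
 (ndB (a := (nat_lit 0)) (y := (nat_lit 0)) (z := (nat_lit 400)) (N := (nat_lit 1320))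
 (ndB (a := (nat_lit 0)) (y := (nat_lit 0)) (z := (nat_lit 320)) (N := (nat_lit 1320))
 .nil
 .nil (p000 h).2.2.2.2.1.2.1 (by decide +kernel))
 .nil (p000 h).2.2.2.2.1.2.2.1 (by decide +kernel))
 (ndB (a := (nat_lit 0)) (y := (nat_lit 80)) (z := (nat_lit 400)) (N := (nat_lit 1320))
 .nil
 .nil (p000 h).2.2.2.2.2.1.1 (by decide +kernel)) (p000 h).2.2.2.2.1.2.2.2 (by decide +kernel))
 (ndB (a := (nat_lit 0)) (y := (nat_lit 240)) (z := (nat_lit 400)) (N := (nat_lit 1320))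
 (ndB (a := (nat_lit 0)) (y := (nat_lit 240)) (z := (nat_lit 320)) (N := (nat_lit 1320))
 (ndB (a := (nat_lit 0)) (y := (nat_lit 160)) (z := (nat_lit 400)) (N := (nat_lit 1320))
 .nil
 .nil (p000 h).2.2.2.2.2.2.1 (by decide +kernel))
 .nil (p000 h).2.2.2.2.2.2.2.1 (by decide +kernel))
 (ndB (a := (nat_lit 0)) (y := (nat_lit 320)) (z := (nat_lit 320)) (N := (nat_lit 1320))
 .nil
 .nil (p001 h).1.1.1.1.1 (by decide +kernel)) (p000 h).2.2.2.2.2.2.2.2 (by decide +kernel)) (p000 h).2.2.2.2.2.1.2 (by decide +kernel))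
 (ndB (a := (nat_lit 80)) (y := (nat_lit 160)) (z := (nat_lit 400)) (N := (nat_lit 1320))
 (ndB (a := (nat_lit 80)) (y := (nat_lit 80)) (z := (nat_lit 400)) (N := (nat_lit 1320))
 (ndB (a := (nat_lit 80)) (y := (nat_lit 80)) (z := (nat_lit 320)) (N := (nat_lit 1320))
 (ndB (a := (nat_lit 0)) (y := (nat_lit 400)) (z := (nat_lit 400)) (N := (nat_lit 1320))
 .nil
 .nil (p001 h).1.1.1.2.1 (by decide +kernel))
 .nil (p001 h).1.1.1.2.2.1 (by decide +kernel))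
 (ndB (a := (nat_lit 80)) (y := (nat_lit 160)) (z := (nat_lit 320)) (N := (nat_lit 1320))
 .nil
 .nil (p001 h).1.1.2.1.1 (by decide +kernel)) (p001 h).1.1.1.2.2.2 (by decide +kernel))
 (ndB (a := (nat_lit 80)) (y := (nat_lit 240)) (z := (nat_lit 400)) (N := (nat_lit 1320))
 (ndB (a := (nat_lit 80)) (y := (nat_lit 240)) (z := (nat_lit 320)) (N := (nat_lit 1320))
 .nil
 .nil (p001 h).1.1.2.1.2.2 (by decide +kernel))
 (ndB (a := (nat_lit 80)) (y := (nat_lit 320)) (z := (nat_lit 320)) (N := (nat_lit 1320))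
 .nil
 .nil (p001 h).1.1.2.2.2.1 (by decide +kernel)) (p001 h).1.1.2.2.1 (by decide +kernel)) (p001 h).1.1.2.1.2.1 (by decide +kernel)) (p001 h).1.1.1.1.2 (by decide +kernel))
 (ndB (a := (nat_lit 240)) (y := (nat_lit 240)) (z := (nat_lit 320)) (N := (nat_lit 1320))
 (ndB (a := (nat_lit 160)) (y := (nat_lit 240)) (z := (nat_lit 400)) (N := (nat_lit 1320))
 (ndB (a := (nat_lit 160)) (y := (nat_lit 160)) (z := (nat_lit 400)) (N := (nat_lit 1320))
 (ndB (a := (nat_lit 160)) (y := (nat_lit 160)) (z := (nat_lit 320)) (N := (nat_lit 1320))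
 (ndB (a := (nat_lit 80)) (y := (nat_lit 400)) (z := (nat_lit 400)) (N := (nat_lit 1320))
 .nil
 .nil (p001 h).1.2.1.1.1 (by decide +kernel))
 .nil (p001 h).1.2.1.1.2 (by decide +kernel))
 (ndB (a := (nat_lit 160)) (y := (nat_lit 240)) (z := (nat_lit 320)) (N := (nat_lit 1320))
 .nil
 .nil (p001 h).1.2.1.2.2.1 (by decide +kernel)) (p001 h).1.2.1.2.1 (by decide +kernel))
 (ndB (a := (nat_lit 160)) (y := (nat_lit 320)) (z := (nat_lit 400)) (N := (nat_lit 1320))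
 (ndB (a := (nat_lit 160)) (y := (nat_lit 320)) (z := (nat_lit 320)) (N := (nat_lit 1320))
 .nil
 .nil (p001 h).1.2.2.1.1 (by decide +kernel))
 (ndB (a := (nat_lit 160)) (y := (nat_lit 400)) (z := (nat_lit 400)) (N := (nat_lit 1320))
 .nil
 .nil (p001 h).1.2.2.1.2.2 (by decide +kernel)) (p001 h).1.2.2.1.2.1 (by decide +kernel)) (p001 h).1.2.1.2.2.2 (by decide +kernel))
 (ndB (a := (nat_lit 320)) (y := (nat_lit 320)) (z := (nat_lit 320)) (N := (nat_lit 1320))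
 (ndB (a := (nat_lit 240)) (y := (nat_lit 320)) (z := (nat_lit 400)) (N := (nat_lit 1320))
 (ndB (a := (nat_lit 240)) (y := (nat_lit 320)) (z := (nat_lit 320)) (N := (nat_lit 1320))
 (ndB (a := (nat_lit 240)) (y := (nat_lit 240)) (z := (nat_lit 400)) (N := (nat_lit 1320))
 .nil
 .nil (p001 h).1.2.2.2.2.1 (by decide +kernel))
 .nil (p001 h).1.2.2.2.2.2 (by decide +kernel))
 (ndB (a := (nat_lit 240)) (y := (nat_lit 400)) (z := (nat_lit 400)) (N := (nat_lit 1320))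
 .nil
 .nil (p001 h).2.1.1.1.2 (by decide +kernel)) (p001 h).2.1.1.1.1 (by decide +kernel))
 (ndB (a := (nat_lit 320)) (y := (nat_lit 400)) (z := (nat_lit 400)) (N := (nat_lit 1320))
 (ndB (a := (nat_lit 320)) (y := (nat_lit 320)) (z := (nat_lit 400)) (N := (nat_lit 1320))
 .nil
 .nil (p001 h).2.1.1.2.2.1 (by decide +kernel))
 (ndB (a := (nat_lit 400)) (y := (nat_lit 400)) (z := (nat_lit 400)) (N := (nat_lit 1320))
 .nil
 .nil (p001 h).2.1.2.1.1 (by decide +kernel)) (p001 h).2.1.1.2.2.2 (by decide +kernel)) (p001 h).2.1.1.2.1 (by decide +kernel)) (p001 h).1.2.2.2.1 (by decide +kernel)) (p001 h).1.1.2.2.2.2 (by decide +kernel))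
theorem F4_ok (h : RcOK RE.rowE) : F4.OK := .of (by decide +kernel) (T4_ok h)
theorem T5_ok (h : RcOK RE.rowE) : TOK rd5 ks5 T5 := (ndB (a := (nat_lit 80)) (y := (nat_lit 400)) (z := (nat_lit 400)) (N := (nat_lit 2100))
 (ndB (a := (nat_lit 0)) (y := (nat_lit 400)) (z := (nat_lit 400)) (N := (nat_lit 2100))
 (ndB (a := (nat_lit 0)) (y := (nat_lit 240)) (z := (nat_lit 320)) (N := (nat_lit 2100))
 (ndB (a := (nat_lit 0)) (y := (nat_lit 160)) (z := (nat_lit 320)) (N := (nat_lit 2100))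
 (ndB (a := (nat_lit 0)) (y := (nat_lit 80)) (z := (nat_lit 400)) (N := (nat_lit 2100))
 (ndB (a := (nat_lit 0)) (y := (nat_lit 80)) (z := (nat_lit 320)) (N := (nat_lit 2100))
 .nil
 .nil (p001 h).2.1.2.1.2.1 (by decide +kernel))
 .nil (p001 h).2.1.2.1.2.2 (by decide +kernel))
 (ndB (a := (nat_lit 0)) (y := (nat_lit 160)) (z := (nat_lit 400)) (N := (nat_lit 2100))
 .nil
 .nil (p001 h).2.1.2.2.2.1 (by decide +kernel)) (p001 h).2.1.2.2.1 (by decide +kernel))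
 (ndB (a := (nat_lit 0)) (y := (nat_lit 320)) (z := (nat_lit 320)) (N := (nat_lit 2100))
 (ndB (a := (nat_lit 0)) (y := (nat_lit 240)) (z := (nat_lit 400)) (N := (nat_lit 2100))
 .nil
 .nil (p001 h).2.2.1.1.1 (by decide +kernel))
 (ndB (a := (nat_lit 0)) (y := (nat_lit 320)) (z := (nat_lit 400)) (N := (nat_lit 2100))
 .nil
 .nil (p001 h).2.2.1.1.2.2 (by decide +kernel)) (p001 h).2.2.1.1.2.1 (by decide +kernel)) (p001 h).2.1.2.2.2.2 (by decide +kernel))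
 (ndB (a := (nat_lit 80)) (y := (nat_lit 240)) (z := (nat_lit 320)) (N := (nat_lit 2100))
 (ndB (a := (nat_lit 80)) (y := (nat_lit 160)) (z := (nat_lit 320)) (N := (nat_lit 2100))
 (ndB (a := (nat_lit 80)) (y := (nat_lit 80)) (z := (nat_lit 400)) (N := (nat_lit 2100))
 (ndB (a := (nat_lit 80)) (y := (nat_lit 80)) (z := (nat_lit 320)) (N := (nat_lit 2100))
 .nil
 .nil (p001 h).2.2.1.2.2.1 (by decide +kernel))
 .nil (p001 h).2.2.1.2.2.2 (by decide +kernel))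
 (ndB (a := (nat_lit 80)) (y := (nat_lit 160)) (z := (nat_lit 400)) (N := (nat_lit 2100))
 .nil
 .nil (p001 h).2.2.2.1.2.1 (by decide +kernel)) (p001 h).2.2.2.1.1 (by decide +kernel))
 (ndB (a := (nat_lit 80)) (y := (nat_lit 320)) (z := (nat_lit 320)) (N := (nat_lit 2100))
 (ndB (a := (nat_lit 80)) (y := (nat_lit 240)) (z := (nat_lit 400)) (N := (nat_lit 2100))
 .nil
 .nil (p001 h).2.2.2.2.1 (by decide +kernel))
 (ndB (a := (nat_lit 80)) (y := (nat_lit 320)) (z := (nat_lit 400)) (N := (nat_lit 2100))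
 .nil
 .nil (p001 h).2.2.2.2.2.2 (by decide +kernel)) (p001 h).2.2.2.2.2.1 (by decide +kernel)) (p001 h).2.2.2.1.2.2 (by decide +kernel)) (p001 h).2.2.1.2.1 (by decide +kernel))
 (ndB (a := (nat_lit 240)) (y := (nat_lit 240)) (z := (nat_lit 400)) (N := (nat_lit 2100))
 (ndB (a := (nat_lit 160)) (y := (nat_lit 320)) (z := (nat_lit 320)) (N := (nat_lit 2100))
 (ndB (a := (nat_lit 160)) (y := (nat_lit 240)) (z := (nat_lit 320)) (N := (nat_lit 2100))
 (ndB (a := (nat_lit 160)) (y := (nat_lit 160)) (z := (nat_lit 400)) (N := (nat_lit 2100))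
 (ndB (a := (nat_lit 160)) (y := (nat_lit 160)) (z := (nat_lit 320)) (N := (nat_lit 2100))
 .nil
 .nil (p002 h).1.1.1.1.2.1 (by decide +kernel))
 .nil (p002 h).1.1.1.1.2.2 (by decide +kernel))
 (ndB (a := (nat_lit 160)) (y := (nat_lit 240)) (z := (nat_lit 400)) (N := (nat_lit 2100))
 .nil
 .nil (p002 h).1.1.1.2.2.1 (by decide +kernel)) (p002 h).1.1.1.2.1 (by decide +kernel))
 (ndB (a := (nat_lit 160)) (y := (nat_lit 400)) (z := (nat_lit 400)) (N := (nat_lit 2100))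
 (ndB (a := (nat_lit 160)) (y := (nat_lit 320)) (z := (nat_lit 400)) (N := (nat_lit 2100))
 .nil
 .nil (p002 h).1.1.2.1.1 (by decide +kernel))
 (ndB (a := (nat_lit 240)) (y := (nat_lit 240)) (z := (nat_lit 320)) (N := (nat_lit 2100))
 .nil
 .nil (p002 h).1.1.2.1.2.2 (by decide +kernel)) (p002 h).1.1.2.1.2.1 (by decide +kernel)) (p002 h).1.1.1.2.2.2 (by decide +kernel))
 (ndB (a := (nat_lit 320)) (y := (nat_lit 320)) (z := (nat_lit 320)) (N := (nat_lit 2100))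
 (ndB (a := (nat_lit 240)) (y := (nat_lit 320)) (z := (nat_lit 400)) (N := (nat_lit 2100))
 (ndB (a := (nat_lit 240)) (y := (nat_lit 320)) (z := (nat_lit 320)) (N := (nat_lit 2100))
 .nil
 .nil (p002 h).1.1.2.2.2.1 (by decide +kernel))
 (ndB (a := (nat_lit 240)) (y := (nat_lit 400)) (z := (nat_lit 400)) (N := (nat_lit 2100))
 .nil
 .nil (p002 h).1.2.1.1.1 (by decide +kernel)) (p002 h).1.1.2.2.2.2 (by decide +kernel))
 (ndB (a := (nat_lit 320)) (y := (nat_lit 400)) (z := (nat_lit 400)) (N := (nat_lit 2100))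
 (ndB (a := (nat_lit 320)) (y := (nat_lit 320)) (z := (nat_lit 400)) (N := (nat_lit 2100))
 .nil
 .nil (p002 h).1.2.1.1.2.2 (by decide +kernel))
 (ndB (a := (nat_lit 400)) (y := (nat_lit 400)) (z := (nat_lit 400)) (N := (nat_lit 2100))
 .nil
 .nil (p002 h).1.2.1.2.2.1 (by decide +kernel)) (p002 h).1.2.1.2.1 (by decide +kernel)) (p002 h).1.2.1.1.2.1 (by decide +kernel)) (p002 h).1.1.2.2.1 (by decide +kernel)) (p002 h).1.1.1.1.1 (by decide +kernel))
theorem F5_ok (h : RcOK RE.rowE) : F5.OK := .of (by decide +kernel) (T5_ok h)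
theorem T6_ok (h : RcOK RE.rowE) : TOK rd6 ks6 T6 := (ndB (a := (nat_lit 80)) (y := (nat_lit 400)) (z := (nat_lit 400)) (N := (nat_lit 1500))
 (ndB (a := (nat_lit 0)) (y := (nat_lit 400)) (z := (nat_lit 400)) (N := (nat_lit 1500))
 (ndB (a := (nat_lit 0)) (y := (nat_lit 240)) (z := (nat_lit 320)) (N := (nat_lit 1500))
 (ndB (a := (nat_lit 0)) (y := (nat_lit 160)) (z := (nat_lit 320)) (N := (nat_lit 1500))
 (ndB (a := (nat_lit 0)) (y := (nat_lit 80)) (z := (nat_lit 400)) (N := (nat_lit 1500))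
 (ndB (a := (nat_lit 0)) (y := (nat_lit 80)) (z := (nat_lit 320)) (N := (nat_lit 1500))
 .nil
 .nil (p002 h).1.2.1.2.2.2 (by decide +kernel))
 .nil (p002 h).1.2.2.1.1 (by decide +kernel))
 (ndB (a := (nat_lit 0)) (y := (nat_lit 160)) (z := (nat_lit 400)) (N := (nat_lit 1500))
 .nil
 .nil (p002 h).1.2.2.1.2.2 (by decide +kernel)) (p002 h).1.2.2.1.2.1 (by decide +kernel))
 (ndB (a := (nat_lit 0)) (y := (nat_lit 320)) (z := (nat_lit 320)) (N := (nat_lit 1500))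
 (ndB (a := (nat_lit 0)) (y := (nat_lit 240)) (z := (nat_lit 400)) (N := (nat_lit 1500))
 .nil
 .nil (p002 h).1.2.2.2.2.1 (by decide +kernel))
 (ndB (a := (nat_lit 0)) (y := (nat_lit 320)) (z := (nat_lit 400)) (N := (nat_lit 1500))
 .nil
 .nil (p002 h).2.1.1.1.1 (by decide +kernel)) (p002 h).1.2.2.2.2.2 (by decide +kernel)) (p002 h).1.2.2.2.1 (by decide +kernel))
 (ndB (a := (nat_lit 80)) (y := (nat_lit 240)) (z := (nat_lit 320)) (N := (nat_lit 1500))
 (ndB (a := (nat_lit 80)) (y := (nat_lit 160)) (z := (nat_lit 320)) (N := (nat_lit 1500))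
 (ndB (a := (nat_lit 80)) (y := (nat_lit 80)) (z := (nat_lit 400)) (N := (nat_lit 1500))
 (ndB (a := (nat_lit 80)) (y := (nat_lit 80)) (z := (nat_lit 320)) (N := (nat_lit 1500))
 .nil
 .nil (p002 h).2.1.1.1.2.2 (by decide +kernel))
 .nil (p002 h).2.1.1.2.1 (by decide +kernel))
 (ndB (a := (nat_lit 80)) (y := (nat_lit 160)) (z := (nat_lit 400)) (N := (nat_lit 1500))
 .nil
 .nil (p002 h).2.1.1.2.2.2 (by decide +kernel)) (p002 h).2.1.1.2.2.1 (by decide +kernel))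
 (ndB (a := (nat_lit 80)) (y := (nat_lit 320)) (z := (nat_lit 320)) (N := (nat_lit 1500))
 (ndB (a := (nat_lit 80)) (y := (nat_lit 240)) (z := (nat_lit 400)) (N := (nat_lit 1500))
 .nil
 .nil (p002 h).2.1.2.1.2.1 (by decide +kernel))
 (ndB (a := (nat_lit 80)) (y := (nat_lit 320)) (z := (nat_lit 400)) (N := (nat_lit 1500))
 .nil
 .nil (p002 h).2.1.2.2.1 (by decide +kernel)) (p002 h).2.1.2.1.2.2 (by decide +kernel)) (p002 h).2.1.2.1.1 (by decide +kernel)) (p002 h).2.1.1.1.2.1 (by decide +kernel))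
 (ndB (a := (nat_lit 240)) (y := (nat_lit 240)) (z := (nat_lit 400)) (N := (nat_lit 1500))
 (ndB (a := (nat_lit 160)) (y := (nat_lit 320)) (z := (nat_lit 320)) (N := (nat_lit 1500))
 (ndB (a := (nat_lit 160)) (y := (nat_lit 240)) (z := (nat_lit 320)) (N := (nat_lit 1500))
 (ndB (a := (nat_lit 160)) (y := (nat_lit 160)) (z := (nat_lit 400)) (N := (nat_lit 1500))
 (ndB (a := (nat_lit 160)) (y := (nat_lit 160)) (z := (nat_lit 320)) (N := (nat_lit 1500))
 .nil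
 .nil (p002 h).2.1.2.2.2.2 (by decide +kernel))
 .nil (p002 h).2.2.1.1.1 (by decide +kernel))
 (ndB (a := (nat_lit 160)) (y := (nat_lit 240)) (z := (nat_lit 400)) (N := (nat_lit 1500))
 .nil
 .nil (p002 h).2.2.1.1.2.2 (by decide +kernel)) (p002 h).2.2.1.1.2.1 (by decide +kernel))
 (ndB (a := (nat_lit 160)) (y := (nat_lit 400)) (z := (nat_lit 400)) (N := (nat_lit 1500))
 (ndB (a := (nat_lit 160)) (y := (nat_lit 320)) (z := (nat_lit 400)) (N := (nat_lit 1500))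
 .nil
 .nil (p002 h).2.2.1.2.2.1 (by decide +kernel))
 (ndB (a := (nat_lit 240)) (y := (nat_lit 240)) (z := (nat_lit 320)) (N := (nat_lit 1500))
 .nil
 .nil (p002 h).2.2.2.1.1 (by decide +kernel)) (p002 h).2.2.1.2.2.2 (by decide +kernel)) (p002 h).2.2.1.2.1 (by decide +kernel))
 (ndB (a := (nat_lit 320)) (y := (nat_lit 320)) (z := (nat_lit 320)) (N := (nat_lit 1500))
 (ndB (a := (nat_lit 240)) (y := (nat_lit 320)) (z := (nat_lit 400)) (N := (nat_lit 1500))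
 (ndB (a := (nat_lit 240)) (y := (nat_lit 320)) (z := (nat_lit 320)) (N := (nat_lit 1500))
 .nil
 .nil (p002 h).2.2.2.1.2.2 (by decide +kernel))
 (ndB (a := (nat_lit 240)) (y := (nat_lit 400)) (z := (nat_lit 400)) (N := (nat_lit 1500))
 .nil
 .nil (p002 h).2.2.2.2.1.2 (by decide +kernel)) (p002 h).2.2.2.2.1.1 (by decide +kernel))
 (ndB (a := (nat_lit 320)) (y := (nat_lit 400)) (z := (nat_lit 400)) (N := (nat_lit 1500))
 (ndB (a := (nat_lit 320)) (y := (nat_lit 320)) (z := (nat_lit 400)) (N := (nat_lit 1500))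
 .nil
 .nil (p002 h).2.2.2.2.2.2 (by decide +kernel))
 (ndB (a := (nat_lit 400)) (y := (nat_lit 400)) (z := (nat_lit 400)) (N := (nat_lit 1500))
 .nil
 .nil (p003 h).1.1.1.1.1.2.1 (by decide +kernel)) (p003 h).1.1.1.1.1.1 (by decide +kernel)) (p002 h).2.2.2.2.2.1 (by decide +kernel)) (p002 h).2.2.2.1.2.1 (by decide +kernel)) (p002 h).2.1.2.2.2.1 (by decide +kernel))
theorem F6_ok (h : RcOK RE.rowE) : F6.OK := .of (by decide +kernel) (T6_ok h)
theorem T7_ok (h : RcOK RE.rowE) : TOK rd7 ks7 T7 := (ndB (a := (nat_lit 160)) (y := (nat_lit 160)) (z := (nat_lit 400)) (N := (nat_lit 680))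
 (ndB (a := (nat_lit 80)) (y := (nat_lit 160)) (z := (nat_lit 320)) (N := (nat_lit 680))
 (ndB (a := (nat_lit 0)) (y := (nat_lit 240)) (z := (nat_lit 400)) (N := (nat_lit 680))
 (ndB (a := (nat_lit 0)) (y := (nat_lit 160)) (z := (nat_lit 400)) (N := (nat_lit 680))
 (ndB (a := (nat_lit 0)) (y := (nat_lit 160)) (z := (nat_lit 320)) (N := (nat_lit 680))
 .nil
 .nil (p003 h).1.1.1.1.1.2.2 (by decide +kernel))
 (ndB (a := (nat_lit 0)) (y := (nat_lit 240)) (z := (nat_lit 320)) (N := (nat_lit 680))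
 .nil
 .nil (p003 h).1.1.1.1.2.1.2 (by decide +kernel)) (p003 h).1.1.1.1.2.1.1 (by decide +kernel))
 (ndB (a := (nat_lit 0)) (y := (nat_lit 320)) (z := (nat_lit 400)) (N := (nat_lit 680))
 (ndB (a := (nat_lit 0)) (y := (nat_lit 320)) (z := (nat_lit 320)) (N := (nat_lit 680))
 .nil
 .nil (p003 h).1.1.1.1.2.2.2 (by decide +kernel))
 (ndB (a := (nat_lit 0)) (y := (nat_lit 400)) (z := (nat_lit 400)) (N := (nat_lit 680))
 .nil
 .nil (p003 h).1.1.1.2.1.1.2 (by decide +kernel)) (p003 h).1.1.1.2.1.1.1 (by decide +kernel)) (p003 h).1.1.1.1.2.2.1 (by decide +kernel))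
 (ndB (a := (nat_lit 80)) (y := (nat_lit 320)) (z := (nat_lit 320)) (N := (nat_lit 680))
 (ndB (a := (nat_lit 80)) (y := (nat_lit 240)) (z := (nat_lit 320)) (N := (nat_lit 680))
 (ndB (a := (nat_lit 80)) (y := (nat_lit 160)) (z := (nat_lit 400)) (N := (nat_lit 680))
 .nil
 .nil (p003 h).1.1.1.2.1.2.2 (by decide +kernel))
 (ndB (a := (nat_lit 80)) (y := (nat_lit 240)) (z := (nat_lit 400)) (N := (nat_lit 680))
 .nil
 .nil (p003 h).1.1.1.2.2.1.2 (by decide +kernel)) (p003 h).1.1.1.2.2.1.1 (by decide +kernel))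
 (ndB (a := (nat_lit 80)) (y := (nat_lit 400)) (z := (nat_lit 400)) (N := (nat_lit 680))
 (ndB (a := (nat_lit 80)) (y := (nat_lit 320)) (z := (nat_lit 400)) (N := (nat_lit 680))
 .nil
 .nil (p003 h).1.1.1.2.2.2.2 (by decide +kernel))
 (ndB (a := (nat_lit 160)) (y := (nat_lit 160)) (z := (nat_lit 320)) (N := (nat_lit 680))
 .nil
 .nil (p003 h).1.1.2.1.1.2.1 (by decide +kernel)) (p003 h).1.1.2.1.1.1 (by decide +kernel)) (p003 h).1.1.1.2.2.2.1 (by decide +kernel)) (p003 h).1.1.1.2.1.2.1 (by decide +kernel))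
 (ndB (a := (nat_lit 240)) (y := (nat_lit 320)) (z := (nat_lit 320)) (N := (nat_lit 680))
 (ndB (a := (nat_lit 160)) (y := (nat_lit 320)) (z := (nat_lit 400)) (N := (nat_lit 680))
 (ndB (a := (nat_lit 160)) (y := (nat_lit 240)) (z := (nat_lit 400)) (N := (nat_lit 680))
 (ndB (a := (nat_lit 160)) (y := (nat_lit 240)) (z := (nat_lit 320)) (N := (nat_lit 680))
 .nil
 .nil (p003 h).1.1.2.1.2.1.1 (by decide +kernel))
 (ndB (a := (nat_lit 160)) (y := (nat_lit 320)) (z := (nat_lit 320)) (N := (nat_lit 680))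
 .nil
 .nil (p003 h).1.1.2.1.2.2.1 (by decide +kernel)) (p003 h).1.1.2.1.2.1.2 (by decide +kernel))
 (ndB (a := (nat_lit 240)) (y := (nat_lit 240)) (z := (nat_lit 320)) (N := (nat_lit 680))
 (ndB (a := (nat_lit 160)) (y := (nat_lit 400)) (z := (nat_lit 400)) (N := (nat_lit 680))
 .nil
 .nil (p003 h).1.1.2.2.1.1.1 (by decide +kernel))
 (ndB (a := (nat_lit 240)) (y := (nat_lit 240)) (z := (nat_lit 400)) (N := (nat_lit 680))
 .nil
 .nil (p003 h).1.1.2.2.1.2.1 (by decide +kernel)) (p003 h).1.1.2.2.1.1.2 (by decide +kernel)) (p003 h).1.1.2.1.2.2.2 (by decide +kernel))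
 (ndB (a := (nat_lit 320)) (y := (nat_lit 320)) (z := (nat_lit 400)) (N := (nat_lit 680))
 (ndB (a := (nat_lit 240)) (y := (nat_lit 400)) (z := (nat_lit 400)) (N := (nat_lit 680))
 (ndB (a := (nat_lit 240)) (y := (nat_lit 320)) (z := (nat_lit 400)) (N := (nat_lit 680))
 .nil
 .nil (p003 h).1.1.2.2.2.1.1 (by decide +kernel))
 (ndB (a := (nat_lit 320)) (y := (nat_lit 320)) (z := (nat_lit 320)) (N := (nat_lit 680))
 .nil
 .nil (p003 h).1.1.2.2.2.2.1 (by decide +kernel)) (p003 h).1.1.2.2.2.1.2 (by decide +kernel))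
 (ndB (a := (nat_lit 400)) (y := (nat_lit 400)) (z := (nat_lit 400)) (N := (nat_lit 680))
 (ndB (a := (nat_lit 320)) (y := (nat_lit 400)) (z := (nat_lit 400)) (N := (nat_lit 680))
 .nil
 .nil (p003 h).1.2.1.1.1.1 (by decide +kernel))
 .nil (p003 h).1.2.1.1.1.2.1 (by decide +kernel)) (p003 h).1.1.2.2.2.2.2 (by decide +kernel)) (p003 h).1.1.2.2.1.2.2 (by decide +kernel)) (p003 h).1.1.2.1.1.2.2 (by decide +kernel))
theorem F7_ok (h : RcOK RE.rowE) : F7.OK := .of (by decide +kernel) (T7_ok h)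
theorem T8_ok (h : RcOK RE.rowE) : TOK rd8 ks8 T8 := (ndB (a := (nat_lit 80)) (y := (nat_lit 320)) (z := (nat_lit 320)) (N := (nat_lit 35))
 (ndB (a := (nat_lit 0)) (y := (nat_lit 320)) (z := (nat_lit 320)) (N := (nat_lit 35))
 (ndB (a := (nat_lit 0)) (y := (nat_lit 160)) (z := (nat_lit 240)) (N := (nat_lit 35))
 (ndB (a := (nat_lit 0)) (y := (nat_lit 80)) (z := (nat_lit 240)) (N := (nat_lit 35))
 (ndB (a := (nat_lit 0)) (y := (nat_lit 0)) (z := (nat_lit 320)) (N := (nat_lit 35))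
 (ndB (a := (nat_lit 0)) (y := (nat_lit 0)) (z := (nat_lit 240)) (N := (nat_lit 35))
 .nil
 .nil (p003 h).1.2.1.1.1.2.2 (by decide +kernel))
 .nil (p003 h).1.2.1.1.2.1.1 (by decide +kernel))
 (ndB (a := (nat_lit 0)) (y := (nat_lit 80)) (z := (nat_lit 320)) (N := (nat_lit 35))
 .nil
 .nil (p003 h).1.2.1.1.2.2.1 (by decide +kernel)) (p003 h).1.2.1.1.2.1.2 (by decide +kernel))
 (ndB (a := (nat_lit 0)) (y := (nat_lit 240)) (z := (nat_lit 320)) (N := (nat_lit 35))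
 (ndB (a := (nat_lit 0)) (y := (nat_lit 240)) (z := (nat_lit 240)) (N := (nat_lit 35))
 (ndB (a := (nat_lit 0)) (y := (nat_lit 160)) (z := (nat_lit 320)) (N := (nat_lit 35))
 .nil
 .nil (p003 h).1.2.1.2.1.1.1 (by decide +kernel))
 .nil (p003 h).1.2.1.2.1.1.2 (by decide +kernel))
 (ndB (a := (nat_lit 0)) (y := (nat_lit 240)) (z := (nat_lit 400)) (N := (nat_lit 35))
 .nil
 .nil (p003 h).1.2.1.2.1.2.2 (by decide +kernel)) (p003 h).1.2.1.2.1.2.1 (by decide +kernel)) (p003 h).1.2.1.1.2.2.2 (by decide +kernel))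
 (ndB (a := (nat_lit 80)) (y := (nat_lit 160)) (z := (nat_lit 320)) (N := (nat_lit 35))
 (ndB (a := (nat_lit 80)) (y := (nat_lit 80)) (z := (nat_lit 320)) (N := (nat_lit 35))
 (ndB (a := (nat_lit 80)) (y := (nat_lit 80)) (z := (nat_lit 240)) (N := (nat_lit 35))
 (ndB (a := (nat_lit 0)) (y := (nat_lit 320)) (z := (nat_lit 400)) (N := (nat_lit 35))
 .nil
 .nil (p003 h).1.2.1.2.2.1.2 (by decide +kernel))
 .nil (p003 h).1.2.1.2.2.2.1 (by decide +kernel))
 (ndB (a := (nat_lit 80)) (y := (nat_lit 160)) (z := (nat_lit 240)) (N := (nat_lit 35))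
 .nil
 .nil (p003 h).1.2.2.1.1.1.1 (by decide +kernel)) (p003 h).1.2.1.2.2.2.2 (by decide +kernel))
 (ndB (a := (nat_lit 80)) (y := (nat_lit 240)) (z := (nat_lit 320)) (N := (nat_lit 35))
 (ndB (a := (nat_lit 80)) (y := (nat_lit 240)) (z := (nat_lit 240)) (N := (nat_lit 35))
 .nil
 .nil (p003 h).1.2.2.1.1.2.1 (by decide +kernel))
 (ndB (a := (nat_lit 80)) (y := (nat_lit 240)) (z := (nat_lit 400)) (N := (nat_lit 35))
 .nil
 .nil (p003 h).1.2.2.1.2.1.1 (by decide +kernel)) (p003 h).1.2.2.1.1.2.2 (by decide +kernel)) (p003 h).1.2.2.1.1.1.2 (by decide +kernel)) (p003 h).1.2.1.2.2.1.1 (by decide +kernel))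
 (ndB (a := (nat_lit 240)) (y := (nat_lit 240)) (z := (nat_lit 240)) (N := (nat_lit 35))
 (ndB (a := (nat_lit 160)) (y := (nat_lit 240)) (z := (nat_lit 320)) (N := (nat_lit 35))
 (ndB (a := (nat_lit 160)) (y := (nat_lit 160)) (z := (nat_lit 320)) (N := (nat_lit 35))
 (ndB (a := (nat_lit 160)) (y := (nat_lit 160)) (z := (nat_lit 240)) (N := (nat_lit 35))
 (ndB (a := (nat_lit 80)) (y := (nat_lit 320)) (z := (nat_lit 400)) (N := (nat_lit 35))
 .nil
 .nil (p003 h).1.2.2.1.2.2.1 (by decide +kernel))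
 .nil (p003 h).1.2.2.1.2.2.2 (by decide +kernel))
 (ndB (a := (nat_lit 160)) (y := (nat_lit 240)) (z := (nat_lit 240)) (N := (nat_lit 35))
 .nil
 .nil (p003 h).1.2.2.2.1.1.2 (by decide +kernel)) (p003 h).1.2.2.2.1.1.1 (by decide +kernel))
 (ndB (a := (nat_lit 160)) (y := (nat_lit 320)) (z := (nat_lit 320)) (N := (nat_lit 35))
 (ndB (a := (nat_lit 160)) (y := (nat_lit 240)) (z := (nat_lit 400)) (N := (nat_lit 35))
 .nil
 .nil (p003 h).1.2.2.2.1.2.2 (by decide +kernel))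
 (ndB (a := (nat_lit 160)) (y := (nat_lit 320)) (z := (nat_lit 400)) (N := (nat_lit 35))
 .nil
 .nil (p003 h).1.2.2.2.2.1.2 (by decide +kernel)) (p003 h).1.2.2.2.2.1.1 (by decide +kernel)) (p003 h).1.2.2.2.1.2.1 (by decide +kernel))
 (ndB (a := (nat_lit 240)) (y := (nat_lit 400)) (z := (nat_lit 400)) (N := (nat_lit 35))
 (ndB (a := (nat_lit 240)) (y := (nat_lit 320)) (z := (nat_lit 320)) (N := (nat_lit 35))
 (ndB (a := (nat_lit 240)) (y := (nat_lit 240)) (z := (nat_lit 400)) (N := (nat_lit 35))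
 (ndB (a := (nat_lit 240)) (y := (nat_lit 240)) (z := (nat_lit 320)) (N := (nat_lit 35))
 .nil
 .nil (p003 h).1.2.2.2.2.2.2 (by decide +kernel))
 .nil (p003 h).2.1.1.1.1.1 (by decide +kernel))
 (ndB (a := (nat_lit 240)) (y := (nat_lit 320)) (z := (nat_lit 400)) (N := (nat_lit 35))
 .nil
 .nil (p003 h).2.1.1.1.1.2.2 (by decide +kernel)) (p003 h).2.1.1.1.1.2.1 (by decide +kernel))
 (ndB (a := (nat_lit 320)) (y := (nat_lit 320)) (z := (nat_lit 400)) (N := (nat_lit 35))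
 (ndB (a := (nat_lit 320)) (y := (nat_lit 320)) (z := (nat_lit 320)) (N := (nat_lit 35))
 .nil
 .nil (p003 h).2.1.1.1.2.1.2 (by decide +kernel))
 (ndB (a := (nat_lit 320)) (y := (nat_lit 400)) (z := (nat_lit 400)) (N := (nat_lit 35))
 .nil
 .nil (p003 h).2.1.1.1.2.2.2 (by decide +kernel)) (p003 h).2.1.1.1.2.2.1 (by decide +kernel)) (p003 h).2.1.1.1.2.1.1 (by decide +kernel)) (p003 h).1.2.2.2.2.2.1 (by decide +kernel)) (p003 h).1.2.2.1.2.1.2 (by decide +kernel))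
theorem F8_ok (h : RcOK RE.rowE) : F8.OK := .of (by decide +kernel) (T8_ok h)
theorem T9_ok (h : RcOK RE.rowE) : TOK rd9 ks9 T9 := (ndB (a := (nat_lit 80)) (y := (nat_lit 320)) (z := (nat_lit 320)) (N := (nat_lit 560))
 (ndB (a := (nat_lit 0)) (y := (nat_lit 320)) (z := (nat_lit 320)) (N := (nat_lit 560))
 (ndB (a := (nat_lit 0)) (y := (nat_lit 160)) (z := (nat_lit 240)) (N := (nat_lit 560))
 (ndB (a := (nat_lit 0)) (y := (nat_lit 80)) (z := (nat_lit 240)) (N := (nat_lit 560))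
 (ndB (a := (nat_lit 0)) (y := (nat_lit 0)) (z := (nat_lit 320)) (N := (nat_lit 560))
 (ndB (a := (nat_lit 0)) (y := (nat_lit 0)) (z := (nat_lit 240)) (N := (nat_lit 560))
 .nil
 .nil (p003 h).2.1.1.2.1.1.1 (by decide +kernel))
 .nil (p003 h).2.1.1.2.1.1.2 (by decide +kernel))
 (ndB (a := (nat_lit 0)) (y := (nat_lit 80)) (z := (nat_lit 320)) (N := (nat_lit 560))
 .nil
 .nil (p003 h).2.1.1.2.1.2.2 (by decide +kernel)) (p003 h).2.1.1.2.1.2.1 (by decide +kernel))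
 (ndB (a := (nat_lit 0)) (y := (nat_lit 240)) (z := (nat_lit 320)) (N := (nat_lit 560))
 (ndB (a := (nat_lit 0)) (y := (nat_lit 240)) (z := (nat_lit 240)) (N := (nat_lit 560))
 (ndB (a := (nat_lit 0)) (y := (nat_lit 160)) (z := (nat_lit 320)) (N := (nat_lit 560))
 .nil
 .nil (p003 h).2.1.1.2.2.1.2 (by decide +kernel))
 .nil (p003 h).2.1.1.2.2.2.1 (by decide +kernel))
 (ndB (a := (nat_lit 0)) (y := (nat_lit 240)) (z := (nat_lit 400)) (N := (nat_lit 560))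
 .nil
 .nil (p003 h).2.1.2.1.1.1.1 (by decide +kernel)) (p003 h).2.1.1.2.2.2.2 (by decide +kernel)) (p003 h).2.1.1.2.2.1.1 (by decide +kernel))
 (ndB (a := (nat_lit 80)) (y := (nat_lit 160)) (z := (nat_lit 320)) (N := (nat_lit 560))
 (ndB (a := (nat_lit 80)) (y := (nat_lit 80)) (z := (nat_lit 320)) (N := (nat_lit 560))
 (ndB (a := (nat_lit 80)) (y := (nat_lit 80)) (z := (nat_lit 240)) (N := (nat_lit 560))
 (ndB (a := (nat_lit 0)) (y := (nat_lit 320)) (z := (nat_lit 400)) (N := (nat_lit 560))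
 .nil
 .nil (p003 h).2.1.2.1.1.2.1 (by decide +kernel))
 .nil (p003 h).2.1.2.1.1.2.2 (by decide +kernel))
 (ndB (a := (nat_lit 80)) (y := (nat_lit 160)) (z := (nat_lit 240)) (N := (nat_lit 560))
 .nil
 .nil (p003 h).2.1.2.1.2.1.2 (by decide +kernel)) (p003 h).2.1.2.1.2.1.1 (by decide +kernel))
 (ndB (a := (nat_lit 80)) (y := (nat_lit 240)) (z := (nat_lit 320)) (N := (nat_lit 560))
 (ndB (a := (nat_lit 80)) (y := (nat_lit 240)) (z := (nat_lit 240)) (N := (nat_lit 560))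
 .nil
 .nil (p003 h).2.1.2.1.2.2.2 (by decide +kernel))
 (ndB (a := (nat_lit 80)) (y := (nat_lit 240)) (z := (nat_lit 400)) (N := (nat_lit 560))
 .nil
 .nil (p003 h).2.1.2.2.1.1.2 (by decide +kernel)) (p003 h).2.1.2.2.1.1.1 (by decide +kernel)) (p003 h).2.1.2.1.2.2.1 (by decide +kernel)) (p003 h).2.1.2.1.1.1.2 (by decide +kernel))
 (ndB (a := (nat_lit 240)) (y := (nat_lit 240)) (z := (nat_lit 240)) (N := (nat_lit 560))
 (ndB (a := (nat_lit 160)) (y := (nat_lit 240)) (z := (nat_lit 320)) (N := (nat_lit 560))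
 (ndB (a := (nat_lit 160)) (y := (nat_lit 160)) (z := (nat_lit 320)) (N := (nat_lit 560))
 (ndB (a := (nat_lit 160)) (y := (nat_lit 160)) (z := (nat_lit 240)) (N := (nat_lit 560))
 (ndB (a := (nat_lit 80)) (y := (nat_lit 320)) (z := (nat_lit 400)) (N := (nat_lit 560))
 .nil
 .nil (p003 h).2.1.2.2.1.2.2 (by decide +kernel))
 .nil (p003 h).2.1.2.2.2.1.1 (by decide +kernel))
 (ndB (a := (nat_lit 160)) (y := (nat_lit 240)) (z := (nat_lit 240)) (N := (nat_lit 560))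
 .nil
 .nil (p003 h).2.1.2.2.2.2.1 (by decide +kernel)) (p003 h).2.1.2.2.2.1.2 (by decide +kernel))
 (ndB (a := (nat_lit 160)) (y := (nat_lit 320)) (z := (nat_lit 320)) (N := (nat_lit 560))
 (ndB (a := (nat_lit 160)) (y := (nat_lit 240)) (z := (nat_lit 400)) (N := (nat_lit 560))
 .nil
 .nil (p003 h).2.2.1.1.1.1 (by decide +kernel))
 (ndB (a := (nat_lit 160)) (y := (nat_lit 320)) (z := (nat_lit 400)) (N := (nat_lit 560))
 .nil
 .nil (p003 h).2.2.1.1.1.2.2 (by decide +kernel)) (p003 h).2.2.1.1.1.2.1 (by decide +kernel)) (p003 h).2.1.2.2.2.2.2 (by decide +kernel))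
 (ndB (a := (nat_lit 240)) (y := (nat_lit 400)) (z := (nat_lit 400)) (N := (nat_lit 560))
 (ndB (a := (nat_lit 240)) (y := (nat_lit 320)) (z := (nat_lit 320)) (N := (nat_lit 560))
 (ndB (a := (nat_lit 240)) (y := (nat_lit 240)) (z := (nat_lit 400)) (N := (nat_lit 560))
 (ndB (a := (nat_lit 240)) (y := (nat_lit 240)) (z := (nat_lit 320)) (N := (nat_lit 560))
 .nil
 .nil (p003 h).2.2.1.1.2.1.2 (by decide +kernel))
 .nil (p003 h).2.2.1.1.2.2.1 (by decide +kernel))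
 (ndB (a := (nat_lit 240)) (y := (nat_lit 320)) (z := (nat_lit 400)) (N := (nat_lit 560))
 .nil
 .nil (p003 h).2.2.1.2.1.1.1 (by decide +kernel)) (p003 h).2.2.1.1.2.2.2 (by decide +kernel))
 (ndB (a := (nat_lit 320)) (y := (nat_lit 320)) (z := (nat_lit 400)) (N := (nat_lit 560))
 (ndB (a := (nat_lit 320)) (y := (nat_lit 320)) (z := (nat_lit 320)) (N := (nat_lit 560))
 .nil
 .nil (p003 h).2.2.1.2.1.2.1 (by decide +kernel))
 (ndB (a := (nat_lit 320)) (y := (nat_lit 400)) (z := (nat_lit 400)) (N := (nat_lit 560))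
 .nil
 .nil (p003 h).2.2.1.2.2.1.1 (by decide +kernel)) (p003 h).2.2.1.2.1.2.2 (by decide +kernel)) (p003 h).2.2.1.2.1.1.2 (by decide +kernel)) (p003 h).2.2.1.1.2.1.1 (by decide +kernel)) (p003 h).2.1.2.2.1.2.1 (by decide +kernel))
theorem F9_ok (h : RcOK RE.rowE) : F9.OK := .of (by decide +kernel) (T9_ok h)
end TC
end Pool.Agent.Lib.MP_6947cd_al
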