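import Pool.Agent.Lib.MP_6947cd_al.C.LeafF
import Pool.Agent.Lib.MP_6947cd_al.TC.E
import Pool.Agent.Lib.MP_6947cd_al.TC.F
import Pool.Agent.Lib.MP_6947cd_al.TC.L000
import Pool.Agent.Lib.MP_6947cd_al.TC.L001
import Pool.Agent.Lib.MP_6947cd_al.TC.L002
import Pool.Agent.Lib.MP_6947cd_al.TC.L003
import Pool.Agent.Lib.MP_6947cd_al.TC.L004
import Pool.Agent.Lib.MP_6947cd_al.TC.L005
import Pool.Agent.Lib.MP_6947cd_al.TC.L006
import Pool.Agent.Lib.MP_6947cd_al.TC.L007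
import Pool.Agent.Lib.MP_6947cd_al.TC.L008
import Pool.Agent.Lib.MP_6947cd_al.TC.L009
import Pool.Agent.Lib.MP_6947cd_al.TC.L010
import Pool.Agent.Lib.MP_6947cd_al.TC.L011
import Pool.Agent.Lib.MP_6947cd_al.TC.L012
import Pool.Agent.Lib.MP_6947cd_al.TC.L013
import Pool.Agent.Lib.MP_6947cd_al.TC.L014
import Pool.Agent.Lib.MP_6947cd_al.TC.L015
import Pool.Agent.Lib.MP_6947cd_al.TC.L016
import Pool.Agent.Lib.MP_6947cd_al.TC.L017
import Pool.Agent.Lib.MP_6947cd_al.TC.L018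
import Pool.Agent.Lib.MP_6947cd_al.TC.L019
import Pool.Agent.Lib.MP_6947cd_al.TC.L020
import Pool.Agent.Lib.MP_6947cd_al.TC.L021
import Pool.Agent.Lib.MP_6947cd_al.TC.L022
import Pool.Agent.Lib.MP_6947cd_al.TC.L023
import Pool.Agent.Lib.MP_6947cd_al.TC.L024
import Pool.Agent.Lib.MP_6947cd_al.TC.L025
import Pool.Agent.Lib.MP_6947cd_al.TC.L026
import Pool.Agent.Lib.MP_6947cd_al.TC.L027
import Pool.Agent.Lib.MP_6947cd_al.TC.L028
import Pool.Agent.Lib.MP_6947cd_al.TC.L029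
import Pool.Agent.Lib.MP_6947cd_al.TC.L030
import Pool.Agent.Lib.MP_6947cd_al.TC.L031
import Pool.Agent.Lib.MP_6947cd_al.TC.L032
import Pool.Agent.Lib.MP_6947cd_al.TC.L033
import Pool.Agent.Lib.MP_6947cd_al.TC.L034
import Pool.Agent.Lib.MP_6947cd_al.TC.L035
import Pool.Agent.Lib.MP_6947cd_al.TC.L036
import Pool.Agent.Lib.MP_6947cd_al.TC.L037

/-!
Problem MP_6947cd_al (Chollet).  CASE C, tables and certificates.  The boxes of the roots are dead.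
-/

set_option autoImplicit false
set_option linter.all false
set_option maxRecDepth 100000
set_option maxHeartbeats 4000000
namespace Pool.Agent.Lib.MP_6947cd_al
namespace TC
open C1
noncomputable def top0 : Tr Lf :=
 (.ref (nat_lit 0))
theorem r0 (h : EC env Ei) : Dead (rootSt (nat_lit 40) ((nat_lit 120), (nat_lit 260), (nat_lit 120), (nat_lit 260), (nat_lit 120), (nat_lit 260))) :=
  chkT_sound h (refs := l000) (t000 h) (T := top0) (by decide +kernel)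
noncomputable def top1 : Tr Lf :=
 (.dle (nat_lit 0))
theorem r1 (h : EC env Ei) : Dead (rootSt (nat_lit 40) ((nat_lit 260), (nat_lit 280), (nat_lit 120), (nat_lit 240), (nat_lit 120), (nat_lit 240))) :=
  chkT_sound0 h (T := top1) (by decide +kernel)
noncomputable def top2 : Tr Lf :=
 (.ord (.trZ (nat_lit 0) (nat_lit 1) (nat_lit 3) (nat_lit 100) (nat_lit 97) (nat_lit 49) (nat_lit 20) (.spl (nat_lit 6) (nat_lit 24) (.spl (nat_lit 4) (nat_lit 120) (.spl (nat_lit 3) (nat_lit 120) (.spl (nat_lit 4) (nat_lit 80) (.spl (nat_lit 0) (nat_lit 270) (.ref (nat_lit 0)) (.ref (nat_lit 1))) (.ref (nat_lit 2))) (.spl (nat_lit 3) (nat_lit 280) (.ref (nat_lit 3)) (.ref (nat_lit 4)))) (.spl (nat_lit 3) (nat_lit 200) (.spl (nat_lit 2) (nat_lit 200) (.spl (nat_lit 6) (nat_lit 12) (.spl (nat_lit 0) (nat_lit 270) (.ord (.dle (nat_lit 0))) (.trZ (nat_lit 0) (nat_lit 1) (nat_lit 3) (nat_lit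 100) (nat_lit 96) (nat_lit 54) (nat_lit 30) (.trX (nat_lit 4) (nat_lit 0) (nat_lit 2) (nat_lit 94) (nat_lit 35) (nat_lit 100) (nat_lit 390) (.spl (nat_lit 4) (nat_lit 240) (.ref (nat_lit 5)) (.ref (nat_lit 6)))))) (.dle (nat_lit 0))) (.spl (nat_lit 3) (nat_lit 120) (.spl (nat_lit 4) (nat_lit 280) (.ref (nat_lit 7)) (.ref (nat_lit 8))) (.ref (nat_lit 9)))) (.ref (nat_lit 10)))) (.dle (nat_lit 0)))))
theorem r2 (h : EC env Ei) : Dead (rootSt (nat_lit 40) ((nat_lit 260), (nat_lit 280), (nat_lit 240), (nat_lit 320), (nat_lit 120), (nat_lit 320))) :=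
  chkT_sound h (refs := l001) (t001 h) (T := top2) (by decide +kernel)
noncomputable def top3 : Tr Lf :=
 (.trX (nat_lit 3) (nat_lit 0) (nat_lit 1) (nat_lit 88) (nat_lit 32) (nat_lit 100) (nat_lit 390) (.trX (nat_lit 4) (nat_lit 0) (nat_lit 2) (nat_lit 88) (nat_lit 32) (nat_lit 100) (nat_lit 390) (.spl (nat_lit 6) (nat_lit 20) (.spl (nat_lit 4) (nat_lit 200) (.spl (nat_lit 3) (nat_lit 120) (.spl (nat_lit 4) (nat_lit 120) (.spl (nat_lit 3) (nat_lit 80) (.spl (nat_lit 2) (nat_lit 180) (.ref (nat_lit 0)) (.ord (.trZ (nat_lit 0) (nat_lit 1) (nat_lit 3) (nat_lit 100) (nat_lit 87) (nat_lit 41) (nat_lit 10) (.trZ (nat_lit 0) (nat_lit 2) (nat_lit 4) (nat_lit 100) (nat_lit 87) (nat_lit 41) (nat_lit 10) (.spl (nat_lit 3) (nat_lit 40) (.ref (nat_lit 1)) (.ref (nat_lit 2))))))) (.ref (nat_lit 3))) (.ref (nat_lit 4))) (.spl (nat_lit 3) (nat_lit 240) (.spl (nat_lit 4) (nat_lit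 120) (.ref (nat_lit 5)) (.ref (nat_lit 6))) (.ref (nat_lit 7)))) (.spl (nat_lit 3) (nat_lit 200) (.spl (nat_lit 2) (nat_lit 180) (.trX (nat_lit 4) (nat_lit 0) (nat_lit 2) (nat_lit 87) (nat_lit 59) (nat_lit 100) (nat_lit 370) (.spl (nat_lit 3) (nat_lit 120) (.trX (nat_lit 5) (nat_lit 4) (nat_lit 3) (nat_lit 100) (nat_lit 40) (nat_lit 92) (nat_lit 390) (.spl (nat_lit 4) (nat_lit 280) (.ref (nat_lit 8)) (.trX (nat_lit 5) (nat_lit 4) (nat_lit 3) (nat_lit 100) (nat_lit 80) (nat_lit 100) (nat_lit 340) (.spl (nat_lit 3) (nat_lit 80) (.trX (nat_lit 5) (nat_lit 4) (nat_lit 3) (nat_lit 100) (nat_lit 95) (nat_lit 87) (nat_lit 300) (.spl (nat_lit 1) (nat_lit 180) (.ref (nat_lit 9)) (.trZ (nat_lit 0) (nat_lit 1) (nat_lit 3) (nat_lit 100) (nat_lit 87) (nat_lit 41) (nat_lit 10) (.spl (nat_lit 2) (nat_lit 160) (.trX (nat_lit 4) (nat_lit 0) (nat_lit 2) (nat_lit 88) (nat_lit 68)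 (nat_lit 100) (nat_lit 350) (.spl (nat_lit 1) (nat_lit 220) (.spl (nat_lit 6) (nat_lit 12) (.spl (nat_lit 3) (nat_lit 40) (.ref (nat_lit 10)) (.ref (nat_lit 11))) (.dle (nat_lit 0))) (.ref (nat_lit 12)))) (.ref (nat_lit 13)))))) (.ref (nat_lit 14)))))) (.ref (nat_lit 15)))) (.ref (nat_lit 16))) (.spl (nat_lit 2) (nat_lit 180) (.ref (nat_lit 17)) (.ref (nat_lit 18))))) (.dle (nat_lit 0)))))
theorem r3 (h : EC env Ei) : Dead (rootSt (nat_lit 40) ((nat_lit 300), (nat_lit 320), (nat_lit 120), (nat_lit 240), (nat_lit 120), (nat_lit 240))) :=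
  chkT_sound h (refs := l002) (t002 h) (T := top3) (by decide +kernel)
noncomputable def top4 : Tr Lf :=
 (.trZ (nat_lit 0) (nat_lit 1) (nat_lit 3) (nat_lit 100) (nat_lit 88) (nat_lit 68) (nat_lit 50) (.spl (nat_lit 4) (nat_lit 120) (.spl (nat_lit 3) (nat_lit 120) (.spl (nat_lit 6) (nat_lit 40) (.spl (nat_lit 1) (nat_lit 280) (.ord (.spl (nat_lit 4) (nat_lit 80) (.spl (nat_lit 2) (nat_lit 200) (.spl (nat_lit 6) (nat_lit 20) (.spl (nat_lit 3) (nat_lit 80) (.spl (nat_lit 6) (nat_lit 12) (.ref (nat_lit 0)) (.ref (nat_lit 1))) (.ref (nat_lit 2))) (.ref (nat_lit 3))) (.ref (nat_lit 4))) (.ref (nat_lit 5)))) (.ref (nat_lit 6))) (.ref (nat_lit 7))) (.spl (nat_lit 6) (nat_lit 40) (.spl (nat_lit 2) (nat_lit 220) (.stt (nat_lit 2) (.ref (nat_lit 8)) (.spl (nat_lit 3) (nat_lit 280) (.spl (nat_lit 3) (nat_lit 200) (.ref (nat_lit 9)) (.ref (nat_lit 10))) (.ref (nat_lit 11))))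 (.trZ (nat_lit 0) (nat_lit 2) (nat_lit 4) (nat_lit 100) (nat_lit 87) (nat_lit 59) (nat_lit 30) (.stt (nat_lit 2) (.ref (nat_lit 12)) (.ref (nat_lit 13))))) (.ref (nat_lit 14)))) (.spl (nat_lit 6) (nat_lit 40) (.spl (nat_lit 2) (nat_lit 220) (.trX (nat_lit 4) (nat_lit 0) (nat_lit 2) (nat_lit 87) (nat_lit 41) (nat_lit 100) (nat_lit 390) (.spl (nat_lit 3) (nat_lit 120) (.spl (nat_lit 4) (nat_lit 240) (.spl (nat_lit 6) (nat_lit 20) (.stt (nat_lit 3) (.ref (nat_lit 15)) (.spl (nat_lit 2) (nat_lit 180) (.ref (nat_lit 16)) (.ref (nat_lit 17)))) (.ref (nat_lit 18))) (.trX (nat_lit 5) (nat_lit 4) (nat_lit 3) (nat_lit 100) (nat_lit 59) (nat_lit 94) (nat_lit 370) (.spl (nat_lit 2) (nat_lit 180) (.trX (nat_lit 4) (nat_lit 0) (nat_lit 2) (nat_lit 87) (nat_lit 59) (nat_lit 100) (nat_lit 370) (.spl (nat_lit 1) (nat_lit 280) (.spl (nat_lit 6) (nat_lit 20) (.spl (nat_lit 5) (nat_lit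 200) (.stt (nat_lit 2) (.ref (nat_lit 19)) (.spl (nat_lit 1) (nat_lit 260) (.spl (nat_lit 4) (nat_lit 320) (.ref (nat_lit 20)) (.ref (nat_lit 21))) (.ref (nat_lit 22)))) (.ref (nat_lit 23))) (.spl (nat_lit 2) (nat_lit 160) (.trX (nat_lit 4) (nat_lit 0) (nat_lit 2) (nat_lit 88) (nat_lit 68) (nat_lit 100) (nat_lit 350) (.spl (nat_lit 3) (nat_lit 80) (.ref (nat_lit 24)) (.ref (nat_lit 25)))) (.ref (nat_lit 26)))) (.trZ (nat_lit 0) (nat_lit 1) (nat_lit 3) (nat_lit 100) (nat_lit 94) (nat_lit 88) (nat_lit 80) (.stt (nat_lit 3) (.ref (nat_lit 27)) (.spl (nat_lit 5) (nat_lit 200) (.ref (nat_lit 28)) (.ref (nat_lit 29))))))) (.ref (nat_lit 30))))) (.spl (nat_lit 6) (nat_lit 20) (.stt (nat_lit 3) (.stt (nat_lit 2) (.ref (nat_lit 31)) (.ref (nat_lit 32))) (.spl (nat_lit 3) (nat_lit 280) (.spl (nat_lit 4) (nat_lit 240) (.spl (nat_lit 3) (nat_lit 200) (.ref (nat_lit 33)) (.ref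 (nat_lit 34))) (.stt (nat_lit 1) (.spl (nat_lit 2) (nat_lit 180) (.trX (nat_lit 4) (nat_lit 0) (nat_lit 2) (nat_lit 87) (nat_lit 59) (nat_lit 100) (nat_lit 370) (.spl (nat_lit 4) (nat_lit 320) (.spl (nat_lit 3) (nat_lit 200) (.spl (nat_lit 4) (nat_lit 280) (.ref (nat_lit 35)) (.trX (nat_lit 5) (nat_lit 4) (nat_lit 3) (nat_lit 92) (nat_lit 40) (nat_lit 100) (nat_lit 390) (.spl (nat_lit 1) (nat_lit 280) (.ref (nat_lit 36)) (.ref (nat_lit 37))))) (.ref (nat_lit 38))) (.spl (nat_lit 2) (nat_lit 160) (.trX (nat_lit 4) (nat_lit 0) (nat_lit 2) (nat_lit 88) (nat_lit 68) (nat_lit 100) (nat_lit 350) (.trX (nat_lit 5) (nat_lit 1) (nat_lit 2) (nat_lit 100) (nat_lit 40) (nat_lit 100) (nat_lit 390) (.spl (nat_lit 1) (nat_lit 280) (.ref (nat_lit 39)) (.ref (nat_lit 40))))) (.ref (nat_lit 41))))) (.ref (nat_lit 42))) (.ref (nat_lit 43)))) (.stt (nat_lit 1) (.ref (nat_lit 44))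 (.ref (nat_lit 45))))) (.spl (nat_lit 4) (nat_lit 240) (.spl (nat_lit 3) (nat_lit 280) (.spl (nat_lit 3) (nat_lit 200) (.ref (nat_lit 46)) (.ref (nat_lit 47))) (.ref (nat_lit 48))) (.spl (nat_lit 3) (nat_lit 280) (.spl (nat_lit 2) (nat_lit 180) (.trX (nat_lit 4) (nat_lit 0) (nat_lit 2) (nat_lit 87) (nat_lit 59) (nat_lit 100) (nat_lit 370) (.spl (nat_lit 1) (nat_lit 280) (.ref (nat_lit 49)) (.ref (nat_lit 50)))) (.ref (nat_lit 51))) (.ref (nat_lit 52))))))) (.spl (nat_lit 3) (nat_lit 120) (.spl (nat_lit 1) (nat_lit 280) (.ref (nat_lit 53)) (.ref (nat_lit 54))) (.ref (nat_lit 55)))) (.spl (nat_lit 3) (nat_lit 120) (.spl (nat_lit 2) (nat_lit 220) (.trX (nat_lit 4) (nat_lit 0) (nat_lit 2) (nat_lit 87) (nat_lit 41) (nat_lit 100) (nat_lit 390) (.spl (nat_lit 6) (nat_lit 68) (.spl (nat_lit 4) (nat_lit 240) (.ref (nat_lit 56)) (.ref (nat_lit 57))) (.dle (nat_lit 0))))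 (.ref (nat_lit 58))) (.spl (nat_lit 2) (nat_lit 220) (.trX (nat_lit 4) (nat_lit 0) (nat_lit 2) (nat_lit 87) (nat_lit 41) (nat_lit 100) (nat_lit 390) (.spl (nat_lit 6) (nat_lit 68) (.spl (nat_lit 4) (nat_lit 240) (.ref (nat_lit 59)) (.spl (nat_lit 3) (nat_lit 280) (.ref (nat_lit 60)) (.ref (nat_lit 61)))) (.dle (nat_lit 0)))) (.ref (nat_lit 62)))))))
theorem r4 (h : EC env Ei) : Dead (rootSt (nat_lit 76) ((nat_lit 300), (nat_lit 320), (nat_lit 240), (nat_lit 320), (nat_lit 120), (nat_lit 320))) :=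
  chkT_sound h (refs := (l003 ++ l004)) (List.forall_mem_append.mpr ⟨t003 h, (t004 h)⟩) (T := top4) (by decide +kernel)
noncomputable def top5 : Tr Lf :=
 (.spl (nat_lit 6) (nat_lit 8) (.spl (nat_lit 4) (nat_lit 200) (.spl (nat_lit 3) (nat_lit 200) (.spl (nat_lit 4) (nat_lit 120) (.spl (nat_lit 3) (nat_lit 120) (.spl (nat_lit 3) (nat_lit 80) (.spl (nat_lit 3) (nat_lit 40) (.ref (nat_lit 0)) (.ref (nat_lit 1))) (.ref (nat_lit 2))) (.ref (nat_lit 3))) (.ref (nat_lit 4))) (.ref (nat_lit 5))) (.ref (nat_lit 6))) (.dle (nat_lit 0)))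
theorem r5 (h : EC env Ei) : Dead (rootSt (nat_lit 40) ((nat_lit 280), (nat_lit 300), (nat_lit 120), (nat_lit 240), (nat_lit 120), (nat_lit 240))) :=
  chkT_sound h (refs := l005) (t005 h) (T := top5) (by decide +kernel)
noncomputable def top6 : Tr Lf :=
 (.ord (.trZ (nat_lit 0) (nat_lit 1) (nat_lit 3) (nat_lit 100) (nat_lit 94) (nat_lit 59) (nat_lit 30) (.spl (nat_lit 6) (nat_lit 48) (.spl (nat_lit 4) (nat_lit 120) (.spl (nat_lit 3) (nat_lit 120) (.spl (nat_lit 2) (nat_lit 220) (.spl (nat_lit 6) (nat_lit 36) (.spl (nat_lit 3) (nat_lit 80) (.spl (nat_lit 4) (nat_lit 80) (.spl (nat_lit 6) (nat_lit 20) (.spl (nat_lit 0) (nat_lit 290) (.ref (nat_lit 0)) (.ref (nat_lit 1))) (.ref (nat_lit 2))) (.ref (nat_lit 3))) (.ref (nat_lit 4))) (.dle (nat_lit 0))) (.trZ (nat_lit 0) (nat_lit 2) (nat_lit 4) (nat_lit 100) (nat_lit 92) (nat_lit 49) (nat_lit 20) (.spl (nat_lit 6) (nat_lit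 24) (.spl (nat_lit 3) (nat_lit 80) (.ref (nat_lit 5)) (.ref (nat_lit 6))) (.ref (nat_lit 7))))) (.spl (nat_lit 3) (nat_lit 280) (.spl (nat_lit 2) (nat_lit 220) (.spl (nat_lit 6) (nat_lit 36) (.stt (nat_lit 2) (.ref (nat_lit 8)) (.ref (nat_lit 9))) (.dle (nat_lit 0))) (.ref (nat_lit 10))) (.ref (nat_lit 11)))) (.spl (nat_lit 3) (nat_lit 120) (.spl (nat_lit 2) (nat_lit 220) (.spl (nat_lit 6) (nat_lit 36) (.spl (nat_lit 4) (nat_lit 280) (.spl (nat_lit 4) (nat_lit 200) (.spl (nat_lit 2) (nat_lit 180) (.ref (nat_lit 12)) (.ref (nat_lit 13))) (.trX (nat_lit 5) (nat_lit 4) (nat_lit 3) (nat_lit 100) (nat_lit 40) (nat_lit 92) (nat_lit 390) (.spl (nat_lit 1) (nat_lit 280) (.spl (nat_lit 6) (nat_lit 20) (.spl (nat_lit 2) (nat_lit 180) (.ref (nat_lit 14)) (.ref (nat_lit 15))) (.dle (nat_lit 0))) (.ref (nat_lit 16))))) (.trX (nat_lit 5) (nat_lit 4) (nat_lit 3) (nat_lit 100)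 (nat_lit 80) (nat_lit 100) (nat_lit 340) (.spl (nat_lit 2) (nat_lit 180) (.trX (nat_lit 4) (nat_lit 0) (nat_lit 2) (nat_lit 92) (nat_lit 49) (nat_lit 100) (nat_lit 380) (.spl (nat_lit 1) (nat_lit 280) (.spl (nat_lit 6) (nat_lit 20) (.spl (nat_lit 3) (nat_lit 80) (.ref (nat_lit 17)) (.ref (nat_lit 18))) (.dle (nat_lit 0))) (.ref (nat_lit 19)))) (.ref (nat_lit 20))))) (.dle (nat_lit 0))) (.spl (nat_lit 1) (nat_lit 280) (.ref (nat_lit 21)) (.ref (nat_lit 22)))) (.spl (nat_lit 2) (nat_lit 220) (.spl (nat_lit 6) (nat_lit 36) (.spl (nat_lit 4) (nat_lit 280) (.stt (nat_lit 1) (.spl (nat_lit 3) (nat_lit 280) (.spl (nat_lit 4) (nat_lit 200) (.ref (nat_lit 23)) (.spl (nat_lit 2) (nat_lit 180) (.ref (nat_lit 24)) (.ref (nat_lit 25)))) (.ref (nat_lit 26))) (.spl (nat_lit 5) (nat_lit 200) (.stt (nat_lit 2) (.ref (nat_lit 27)) (.spl (nat_lit 1) (nat_lit 280) (.ref (nat_lit 28))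 (.ref (nat_lit 29)))) (.ref (nat_lit 30)))) (.spl (nat_lit 3) (nat_lit 280) (.spl (nat_lit 2) (nat_lit 180) (.trX (nat_lit 4) (nat_lit 0) (nat_lit 2) (nat_lit 92) (nat_lit 49) (nat_lit 100) (nat_lit 380) (.stt (nat_lit 2) (.ref (nat_lit 31)) (.spl (nat_lit 3) (nat_lit 200) (.trX (nat_lit 5) (nat_lit 4) (nat_lit 3) (nat_lit 92) (nat_lit 40) (nat_lit 100) (nat_lit 390) (.spl (nat_lit 6) (nat_lit 20) (.ref (nat_lit 32)) (.ref (nat_lit 33)))) (.ref (nat_lit 34))))) (.ref (nat_lit 35))) (.ref (nat_lit 36)))) (.dle (nat_lit 0))) (.ref (nat_lit 37))))) (.dle (nat_lit 0)))))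
theorem r6 (h : EC env Ei) : Dead (rootSt (nat_lit 60) ((nat_lit 280), (nat_lit 300), (nat_lit 240), (nat_lit 320), (nat_lit 120), (nat_lit 320))) :=
  chkT_sound h (refs := (l006 ++ l007)) (List.forall_mem_append.mpr ⟨t006 h, (t007 h)⟩) (T := top6) (by decide +kernel)
noncomputable def top7 : Tr Lf :=
 (.trZ (nat_lit 0) (nat_lit 1) (nat_lit 3) (nat_lit 100) (nat_lit 78) (nat_lit 39) (nat_lit 10) (.trX (nat_lit 3) (nat_lit 0) (nat_lit 1) (nat_lit 73) (nat_lit 55) (nat_lit 100) (nat_lit 370) (.trZ (nat_lit 0) (nat_lit 2) (nat_lit 4) (nat_lit 100) (nat_lit 78) (nat_lit 39) (nat_lit 10) (.trX (nat_lit 4) (nat_lit 0) (nat_lit 2) (nat_lit 73) (nat_lit 55) (nat_lit 100) (nat_lit 370) (.spl (nat_lit 6) (nat_lit 60) (.spl (nat_lit 6) (nat_lit 32) (.spl (nat_lit 4) (nat_lit 120) (.spl (nat_lit 3) (nat_lit 200) (.ref (nat_lit 0)) (.trX (nat_lit 5) (nat_lit 3) (nat_lit 4)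 (nat_lit 100) (nat_lit 40) (nat_lit 92) (nat_lit 390) (.spl (nat_lit 2) (nat_lit 180) (.spl (nat_lit 1) (nat_lit 180) (.ref (nat_lit 1)) (.spl (nat_lit 3) (nat_lit 280) (.ref (nat_lit 2)) (.ref (nat_lit 3)))) (.ref (nat_lit 4))))) (.spl (nat_lit 3) (nat_lit 200) (.spl (nat_lit 2) (nat_lit 180) (.trX (nat_lit 4) (nat_lit 0) (nat_lit 2) (nat_lit 72) (nat_lit 77) (nat_lit 100) (nat_lit 330) (.spl (nat_lit 3) (nat_lit 120) (.spl (nat_lit 4) (nat_lit 240) (.ref (nat_lit 5)) (.trX (nat_lit 5) (nat_lit 4) (nat_lit 3) (nat_lit 100) (nat_lit 59) (nat_lit 94) (nat_lit 370) (.spl (nat_lit 3) (nat_lit 80) (.ref (nat_lit 6)) (.ref (nat_lit 7))))) (.spl (nat_lit 4) (nat_lit 240) (.ref (nat_lit 8)) (.spl (nat_lit 1) (nat_lit 180) (.ref (nat_lit 9)) (.ref (nat_lit 10)))))) (.ord (.trZ (nat_lit 0) (nat_lit 1) (nat_lit 3) (nat_lit 100) (nat_lit 72) (nat_lit 63) (nat_lit 40) (.spl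 (nat_lit 4) (nat_lit 240) (.ref (nat_lit 11)) (.spl (nat_lit 3) (nat_lit 120) (.trX (nat_lit 5) (nat_lit 4) (nat_lit 3) (nat_lit 100) (nat_lit 59) (nat_lit 94) (nat_lit 370) (.spl (nat_lit 2) (nat_lit 220) (.trX (nat_lit 4) (nat_lit 0) (nat_lit 2) (nat_lit 72) (nat_lit 63) (nat_lit 100) (nat_lit 360) (.stt (nat_lit 3) (.ref (nat_lit 12)) (.spl (nat_lit 4) (nat_lit 320) (.ref (nat_lit 13)) (.trX (nat_lit 5) (nat_lit 4) (nat_lit 3) (nat_lit 87) (nat_lit 95) (nat_lit 100) (nat_lit 300) (.spl (nat_lit 2) (nat_lit 200) (.ref (nat_lit 14)) (.ref (nat_lit 15))))))) (.ref (nat_lit 16)))) (.ref (nat_lit 17))))))) (.spl (nat_lit 2) (nat_lit 180) (.trX (nat_lit 4) (nat_lit 0) (nat_lit 2) (nat_lit 72) (nat_lit 77) (nat_lit 100) (nat_lit 330) (.spl (nat_lit 4) (nat_lit 240) (.spl (nat_lit 1) (nat_lit 180) (.ref (nat_lit 18)) (.stt (nat_lit 1) (.ref (nat_lit 19)) (.ref (nat_lit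 20)))) (.stt (nat_lit 1) (.spl (nat_lit 3) (nat_lit 280) (.ref (nat_lit 21)) (.trZ (nat_lit 3) (nat_lit 4) (nat_lit 5) (nat_lit 100) (nat_lit 94) (nat_lit 59) (nat_lit 30) (.spl (nat_lit 1) (nat_lit 180) (.ref (nat_lit 22)) (.spl (nat_lit 2) (nat_lit 160) (.ref (nat_lit 23)) (.ref (nat_lit 24)))))) (.spl (nat_lit 1) (nat_lit 180) (.ref (nat_lit 25)) (.ref (nat_lit 26)))))) (.ord (.spl (nat_lit 4) (nat_lit 240) (.ref (nat_lit 27)) (.ref (nat_lit 28))))))) (.spl (nat_lit 3) (nat_lit 200) (.spl (nat_lit 4) (nat_lit 120) (.ref (nat_lit 29)) (.spl (nat_lit 4) (nat_lit 240) (.spl (nat_lit 2) (nat_lit 180) (.ref (nat_lit 30)) (.ref (nat_lit 31))) (.spl (nat_lit 2) (nat_lit 180) (.trX (nat_lit 4) (nat_lit 0) (nat_lit 2) (nat_lit 72) (nat_lit 77) (nat_lit 100) (nat_lit 330) (.spl (nat_lit 3) (nat_lit 120) (.ref (nat_lit 32)) (.ref (nat_lit 33)))) (.ref (nat_lit 34)))))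 (.spl (nat_lit 4) (nat_lit 200) (.spl (nat_lit 2) (nat_lit 180) (.spl (nat_lit 1) (nat_lit 180) (.ref (nat_lit 35)) (.spl (nat_lit 3) (nat_lit 280) (.ref (nat_lit 36)) (.ref (nat_lit 37)))) (.ref (nat_lit 38))) (.spl (nat_lit 2) (nat_lit 180) (.trX (nat_lit 4) (nat_lit 0) (nat_lit 2) (nat_lit 72) (nat_lit 77) (nat_lit 100) (nat_lit 330) (.spl (nat_lit 1) (nat_lit 180) (.ref (nat_lit 39)) (.spl (nat_lit 5) (nat_lit 120) (.ref (nat_lit 40)) (.ref (nat_lit 41))))) (.ref (nat_lit 42)))))) (.dle (nat_lit 0)))))))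
theorem r7 (h : EC env Ei) : Dead (rootSt (nat_lit 76) ((nat_lit 340), (nat_lit 360), (nat_lit 120), (nat_lit 240), (nat_lit 120), (nat_lit 240))) :=
  chkT_sound h (refs := (l008 ++ l009)) (List.forall_mem_append.mpr ⟨t008 h, (t009 h)⟩) (T := top7) (by decide +kernel)
noncomputable def top8 : Tr Lf :=
 (.trZ (nat_lit 0) (nat_lit 1) (nat_lit 3) (nat_lit 100) (nat_lit 73) (nat_lit 85) (nat_lit 80) (.trZ (nat_lit 0) (nat_lit 2) (nat_lit 4) (nat_lit 100) (nat_lit 78) (nat_lit 39) (nat_lit 10) (.spl (nat_lit 6) (nat_lit 116) (.spl (nat_lit 4) (nat_lit 120) (.spl (nat_lit 6) (nat_lit 60) (.spl (nat_lit 6) (nat_lit 32) (.spl (nat_lit 2) (nat_lit 220) (.stt (nat_lit 2) (.ref (nat_lit 0)) (.spl (nat_lit 3) (nat_lit 240) (.spl (nat_lit 1) (nat_lit 280) (.ref (nat_lit 1)) (.ref (nat_lit 2))) (.trX (nat_lit 5) (nat_lit 3) (nat_lit 4) (nat_lit 100) (nat_lit 59) (nat_lit 94)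 (nat_lit 370) (.spl (nat_lit 3) (nat_lit 320) (.ref (nat_lit 3)) (.trX (nat_lit 5) (nat_lit 3) (nat_lit 4) (nat_lit 87) (nat_lit 95) (nat_lit 100) (nat_lit 300) (.spl (nat_lit 1) (nat_lit 280) (.trX (nat_lit 3) (nat_lit 0) (nat_lit 1) (nat_lit 78) (nat_lit 39) (nat_lit 100) (nat_lit 390) (.spl (nat_lit 1) (nat_lit 260) (.ref (nat_lit 4)) (.ref (nat_lit 5)))) (.ref (nat_lit 6)))))))) (.ref (nat_lit 7))) (.spl (nat_lit 3) (nat_lit 240) (.spl (nat_lit 1) (nat_lit 280) (.ord (.spl (nat_lit 2) (nat_lit 200) (.spl (nat_lit 5) (nat_lit 200) (.ref (nat_lit 8)) (.ref (nat_lit 9))) (.ref (nat_lit 10)))) (.trZ (nat_lit 0) (nat_lit 1) (nat_lit 3) (nat_lit 99) (nat_lit 77) (nat_lit 100) (nat_lit 120) (.spl (nat_lit 6) (nat_lit 48) (.ref (nat_lit 11)) (.ref (nat_lit 12))))) (.trX (nat_lit 5) (nat_lit 3) (nat_lit 4) (nat_lit 100) (nat_lit 59) (nat_lit 94) (nat_lit 370) (.stt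 (nat_lit 2) (.ref (nat_lit 13)) (.ref (nat_lit 14)))))) (.spl (nat_lit 3) (nat_lit 240) (.spl (nat_lit 6) (nat_lit 88) (.spl (nat_lit 2) (nat_lit 220) (.spl (nat_lit 1) (nat_lit 280) (.spl (nat_lit 6) (nat_lit 80) (.spl (nat_lit 2) (nat_lit 180) (.spl (nat_lit 3) (nat_lit 120) (.ref (nat_lit 15)) (.spl (nat_lit 4) (nat_lit 80) (.ref (nat_lit 16)) (.ref (nat_lit 17)))) (.trZ (nat_lit 0) (nat_lit 2) (nat_lit 4) (nat_lit 100) (nat_lit 72) (nat_lit 63) (nat_lit 40) (.dle (nat_lit 0)))) (.dle (nat_lit 0))) (.ref (nat_lit 18))) (.ref (nat_lit 19))) (.ref (nat_lit 20))) (.ref (nat_lit 21)))) (.spl (nat_lit 6) (nat_lit 60) (.spl (nat_lit 2) (nat_lit 220) (.trX (nat_lit 4) (nat_lit 0) (nat_lit 2) (nat_lit 72) (nat_lit 63) (nat_lit 100) (nat_lit 360) (.spl (nat_lit 3) (nat_lit 120) (.spl (nat_lit 4) (nat_lit 240) (.spl (nat_lit 1) (nat_lit 280) (.spl (nat_lit 2) (nat_lit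 180) (.ref (nat_lit 22)) (.ref (nat_lit 23))) (.emL (nat_lit 0) (nat_lit 1) (nat_lit 3) (nat_lit 99) (nat_lit 77) (nat_lit 100))) (.trX (nat_lit 5) (nat_lit 4) (nat_lit 3) (nat_lit 100) (nat_lit 59) (nat_lit 94) (nat_lit 370) (.spl (nat_lit 2) (nat_lit 180) (.trX (nat_lit 4) (nat_lit 0) (nat_lit 2) (nat_lit 72) (nat_lit 77) (nat_lit 100) (nat_lit 330) (.spl (nat_lit 1) (nat_lit 280) (.spl (nat_lit 6) (nat_lit 32) (.stt (nat_lit 3) (.ref (nat_lit 24)) (.spl (nat_lit 2) (nat_lit 160) (.ref (nat_lit 25)) (.ref (nat_lit 26)))) (.spl (nat_lit 3) (nat_lit 100) (.ref (nat_lit 27)) (.spl (nat_lit 6) (nat_lit 48) (.spl (nat_lit 2) (nat_lit 160) (.ref (nat_lit 28)) (.ref (nat_lit 29))) (.ref (nat_lit 30))))) (.emL (nat_lit 0) (nat_lit 1) (nat_lit 3) (nat_lit 99) (nat_lit 77) (nat_lit 100)))) (.ref (nat_lit 31))))) (.spl (nat_lit 6) (nat_lit 32) (.stt (nat_lit 3) (.stt (nat_lit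 2) (.ref (nat_lit 32)) (.spl (nat_lit 3) (nat_lit 280) (.spl (nat_lit 4) (nat_lit 240) (.ref (nat_lit 33)) (.spl (nat_lit 2) (nat_lit 180) (.ref (nat_lit 34)) (.ref (nat_lit 35)))) (.ref (nat_lit 36)))) (.spl (nat_lit 3) (nat_lit 280) (.spl (nat_lit 2) (nat_lit 180) (.trX (nat_lit 4) (nat_lit 0) (nat_lit 2) (nat_lit 72) (nat_lit 77) (nat_lit 100) (nat_lit 330) (.spl (nat_lit 4) (nat_lit 240) (.stt (nat_lit 2) (.ref (nat_lit 37)) (.ref (nat_lit 38))) (.stt (nat_lit 2) (.spl (nat_lit 1) (nat_lit 280) (.ref (nat_lit 39)) (.ref (nat_lit 40))) (.stt (nat_lit 1) (.spl (nat_lit 2) (nat_lit 160) (.trX (nat_lit 4) (nat_lit 0) (nat_lit 2) (nat_lit 73) (nat_lit 85) (nat_lit 100) (nat_lit 320) (.trX (nat_lit 5) (nat_lit 1) (nat_lit 2) (nat_lit 100) (nat_lit 40) (nat_lit 100) (nat_lit 390) (.spl (nat_lit 3) (nat_lit 200) (.spl (nat_lit 2) (nat_lit 140) (.ref (nat_lit 41)) (.ref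 (nat_lit 42))) (.ref (nat_lit 43))))) (.spl (nat_lit 1) (nat_lit 280) (.ref (nat_lit 44)) (.ref (nat_lit 45)))) (.ref (nat_lit 46)))))) (.spl (nat_lit 4) (nat_lit 240) (.ref (nat_lit 47)) (.stt (nat_lit 2) (.ref (nat_lit 48)) (.spl (nat_lit 3) (nat_lit 200) (.spl (nat_lit 1) (nat_lit 280) (.spl (nat_lit 4) (nat_lit 320) (.ref (nat_lit 49)) (.ref (nat_lit 50))) (.ref (nat_lit 51))) (.ref (nat_lit 52)))))) (.spl (nat_lit 2) (nat_lit 180) (.trX (nat_lit 4) (nat_lit 0) (nat_lit 2) (nat_lit 72) (nat_lit 77) (nat_lit 100) (nat_lit 330) (.stt (nat_lit 2) (.ref (nat_lit 53)) (.spl (nat_lit 4) (nat_lit 240) (.spl (nat_lit 1) (nat_lit 280) (.ref (nat_lit 54)) (.trX (nat_lit 5) (nat_lit 1) (nat_lit 2) (nat_lit 92) (nat_lit 49) (nat_lit 100) (nat_lit 380) (.spl (nat_lit 3) (nat_lit 360) (.ref (nat_lit 55)) (.ref (nat_lit 56))))) (.trZ (nat_lit 3) (nat_lit 4) (nat_lit 5) (nat_lit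 100) (nat_lit 94) (nat_lit 59) (nat_lit 30) (.spl (nat_lit 2) (nat_lit 160) (.trX (nat_lit 4) (nat_lit 0) (nat_lit 2) (nat_lit 73) (nat_lit 85) (nat_lit 100) (nat_lit 320) (.trX (nat_lit 5) (nat_lit 1) (nat_lit 2) (nat_lit 100) (nat_lit 40) (nat_lit 100) (nat_lit 390) (.spl (nat_lit 1) (nat_lit 280) (.ref (nat_lit 57)) (.ref (nat_lit 58))))) (.ref (nat_lit 59))))))) (.ref (nat_lit 60))))) (.spl (nat_lit 3) (nat_lit 280) (.spl (nat_lit 2) (nat_lit 180) (.trX (nat_lit 4) (nat_lit 0) (nat_lit 2) (nat_lit 72) (nat_lit 77) (nat_lit 100) (nat_lit 330) (.spl (nat_lit 4) (nat_lit 240) (.stt (nat_lit 1) (.spl (nat_lit 3) (nat_lit 200) (.ref (nat_lit 61)) (.ref (nat_lit 62))) (.ref (nat_lit 63))) (.stt (nat_lit 1) (.spl (nat_lit 2) (nat_lit 160) (.trX (nat_lit 4) (nat_lit 0) (nat_lit 2) (nat_lit 73) (nat_lit 85) (nat_lit 100) (nat_lit 320) (.trX (nat_lit 5) (nat_lit 1) (nat_lit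 2) (nat_lit 100) (nat_lit 40) (nat_lit 100) (nat_lit 390) (.spl (nat_lit 2) (nat_lit 140) (.trX (nat_lit 4) (nat_lit 0) (nat_lit 2) (nat_lit 75) (nat_lit 92) (nat_lit 100) (nat_lit 300) (.trX (nat_lit 5) (nat_lit 1) (nat_lit 2) (nat_lit 100) (nat_lit 49) (nat_lit 97) (nat_lit 380) (.spl (nat_lit 3) (nat_lit 200) (.ref (nat_lit 64)) (.ref (nat_lit 65))))) (.spl (nat_lit 1) (nat_lit 280) (.ref (nat_lit 66)) (.ref (nat_lit 67)))))) (.spl (nat_lit 1) (nat_lit 280) (.ref (nat_lit 68)) (.ref (nat_lit 69)))) (.spl (nat_lit 1) (nat_lit 280) (.spl (nat_lit 5) (nat_lit 120) (.ref (nat_lit 70)) (.ref (nat_lit 71))) (.ref (nat_lit 72)))))) (.spl (nat_lit 4) (nat_lit 240) (.ref (nat_lit 73)) (.ref (nat_lit 74)))) (.spl (nat_lit 2) (nat_lit 180) (.trX (nat_lit 4) (nat_lit 0) (nat_lit 2) (nat_lit 72) (nat_lit 77) (nat_lit 100) (nat_lit 330) (.spl (nat_lit 1) (nat_lit 280) (.ref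 (nat_lit 75)) (.ref (nat_lit 76)))) (.ref (nat_lit 77))))))) (.stt (nat_lit 2) (.spl (nat_lit 6) (nat_lit 32) (.ref (nat_lit 78)) (.ref (nat_lit 79))) (.spl (nat_lit 1) (nat_lit 280) (.ord (.trX (nat_lit 3) (nat_lit 0) (nat_lit 1) (nat_lit 78) (nat_lit 39) (nat_lit 100) (nat_lit 390) (.trX (nat_lit 4) (nat_lit 0) (nat_lit 2) (nat_lit 78) (nat_lit 39) (nat_lit 100) (nat_lit 390) (.spl (nat_lit 3) (nat_lit 240) (.spl (nat_lit 4) (nat_lit 240) (.ref (nat_lit 80)) (.ref (nat_lit 81))) (.ref (nat_lit 82)))))) (.ref (nat_lit 83))))) (.spl (nat_lit 3) (nat_lit 240) (.spl (nat_lit 2) (nat_lit 220) (.trX (nat_lit 4) (nat_lit 0) (nat_lit 2) (nat_lit 72) (nat_lit 63) (nat_lit 100) (nat_lit 360) (.spl (nat_lit 4) (nat_lit 240) (.spl (nat_lit 1) (nat_lit 280) (.spl (nat_lit 6) (nat_lit 80) (.spl (nat_lit 2) (nat_lit 180) (.spl (nat_lit 0) (nat_lit 350) (.ref (nat_lit 84)) (.ref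 (nat_lit 85))) (.dle (nat_lit 0))) (.dle (nat_lit 0))) (.ref (nat_lit 86))) (.spl (nat_lit 2) (nat_lit 180) (.trX (nat_lit 4) (nat_lit 0) (nat_lit 2) (nat_lit 72) (nat_lit 77) (nat_lit 100) (nat_lit 330) (.spl (nat_lit 1) (nat_lit 280) (.ref (nat_lit 87)) (.trZ (nat_lit 0) (nat_lit 1) (nat_lit 3) (nat_lit 99) (nat_lit 77) (nat_lit 100) (nat_lit 120) (.trX (nat_lit 5) (nat_lit 1) (nat_lit 2) (nat_lit 92) (nat_lit 49) (nat_lit 100) (nat_lit 380) (.spl (nat_lit 1) (nat_lit 300) (.ref (nat_lit 88)) (.ref (nat_lit 89))))))) (.ref (nat_lit 90))))) (.ref (nat_lit 91))) (.spl (nat_lit 2) (nat_lit 220) (.trX (nat_lit 4) (nat_lit 0) (nat_lit 2) (nat_lit 72) (nat_lit 63) (nat_lit 100) (nat_lit 360) (.spl (nat_lit 2) (nat_lit 180) (.ref (nat_lit 92)) (.ref (nat_lit 93)))) (.ref (nat_lit 94)))))) (.dle (nat_lit 0)))))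
theorem r8 (h : EC env Ei) : Dead (rootSt (nat_lit 128) ((nat_lit 340), (nat_lit 360), (nat_lit 240), (nat_lit 320), (nat_lit 120), (nat_lit 320))) :=
  chkT_sound h (refs := (l010 ++ (l011 ++ l012))) (List.forall_mem_append.mpr ⟨t010 h, (List.forall_mem_append.mpr ⟨t011 h, (t012 h)⟩)⟩) (T := top8) (by decide +kernel)
noncomputable def top9 : Tr Lf :=
 (.ord (.trZ (nat_lit 0) (nat_lit 1) (nat_lit 3) (nat_lit 81) (nat_lit 72) (nat_lit 100) (nat_lit 160) (.trZ (nat_lit 0) (nat_lit 2) (nat_lit 4) (nat_lit 100) (nat_lit 78) (nat_lit 39) (nat_lit 10) (.spl (nat_lit 2) (nat_lit 240) (.trX (nat_lit 4) (nat_lit 0) (nat_lit 2) (nat_lit 73) (nat_lit 55) (nat_lit 100) (nat_lit 370) (.trX (nat_lit 5) (nat_lit 1) (nat_lit 2) (nat_lit 82) (nat_lit 44) (nat_lit 100) (nat_lit 390) (.spl (nat_lit 6) (nat_lit 88) (.stt (nat_lit 3) (.spl (nat_lit 6) (nat_lit 44) (.spl (nat_lit 5)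 (nat_lit 120) (.ref (nat_lit 0)) (.ref (nat_lit 1))) (.spl (nat_lit 5) (nat_lit 120) (.ref (nat_lit 2)) (.ref (nat_lit 3)))) (.spl (nat_lit 4) (nat_lit 200) (.spl (nat_lit 5) (nat_lit 200) (.ref (nat_lit 4)) (.spl (nat_lit 6) (nat_lit 44) (.ref (nat_lit 5)) (.ref (nat_lit 6)))) (.spl (nat_lit 6) (nat_lit 44) (.stt (nat_lit 2) (.spl (nat_lit 5) (nat_lit 200) (.ref (nat_lit 7)) (.spl (nat_lit 5) (nat_lit 280) (.ref (nat_lit 8)) (.spl (nat_lit 2) (nat_lit 180) (.ref (nat_lit 9)) (.ref (nat_lit 10))))) (.spl (nat_lit 2) (nat_lit 180) (.trX (nat_lit 4) (nat_lit 0) (nat_lit 2) (nat_lit 72) (nat_lit 77) (nat_lit 100) (nat_lit 330) (.trX (nat_lit 5) (nat_lit 1) (nat_lit 2) (nat_lit 80) (nat_lit 68) (nat_lit 100) (nat_lit 350) (.spl (nat_lit 5) (nat_lit 160) (.ref (nat_lit 11)) (.spl (nat_lit 2) (nat_lit 160) (.trX (nat_lit 4) (nat_lit 0) (nat_lit 2) (nat_lit 73) (nat_lit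 85) (nat_lit 100) (nat_lit 320) (.trX (nat_lit 5) (nat_lit 1) (nat_lit 2) (nat_lit 82) (nat_lit 76) (nat_lit 100) (nat_lit 340) (.spl (nat_lit 3) (nat_lit 280) (.ref (nat_lit 12)) (.ref (nat_lit 13))))) (.ref (nat_lit 14)))))) (.ref (nat_lit 15)))) (.spl (nat_lit 2) (nat_lit 180) (.ref (nat_lit 16)) (.ref (nat_lit 17)))))) (.spl (nat_lit 2) (nat_lit 180) (.trX (nat_lit 4) (nat_lit 0) (nat_lit 2) (nat_lit 72) (nat_lit 77) (nat_lit 100) (nat_lit 330) (.trX (nat_lit 5) (nat_lit 1) (nat_lit 2) (nat_lit 80) (nat_lit 68) (nat_lit 100) (nat_lit 350) (.spl (nat_lit 0) (nat_lit 350) (.ord (.spl (nat_lit 6) (nat_lit 140) (.spl (nat_lit 5) (nat_lit 160) (.ref (nat_lit 18)) (.spl (nat_lit 6) (nat_lit 116) (.ref (nat_lit 19)) (.ref (nat_lit 20)))) (.dle (nat_lit 0)))) (.trZ (nat_lit 0) (nat_lit 1) (nat_lit 3) (nat_lit 80) (nat_lit 66) (nat_lit 100) (nat_lit 180) (.trX (nat_lit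 4) (nat_lit 0) (nat_lit 2) (nat_lit 66) (nat_lit 82) (nat_lit 100) (nat_lit 320) (.spl (nat_lit 1) (nat_lit 340) (.spl (nat_lit 6) (nat_lit 140) (.spl (nat_lit 6) (nat_lit 116) (.spl (nat_lit 2) (nat_lit 160) (.trX (nat_lit 4) (nat_lit 0) (nat_lit 2) (nat_lit 68) (nat_lit 89) (nat_lit 100) (nat_lit 300) (.trX (nat_lit 5) (nat_lit 1) (nat_lit 2) (nat_lit 82) (nat_lit 76) (nat_lit 100) (nat_lit 340) (.spl (nat_lit 3) (nat_lit 280) (.ref (nat_lit 21)) (.ref (nat_lit 22))))) (.ref (nat_lit 23))) (.ref (nat_lit 24))) (.dle (nat_lit 0))) (.trZ (nat_lit 0) (nat_lit 1) (nat_lit 3) (nat_lit 72) (nat_lit 66) (nat_lit 100) (nat_lit 210) (.trZ (nat_lit 1) (nat_lit 2) (nat_lit 5) (nat_lit 100) (nat_lit 78) (nat_lit 39) (nat_lit 10) (.trX (nat_lit 5) (nat_lit 1) (nat_lit 2) (nat_lit 72) (nat_lit 77) (nat_lit 100) (nat_lit 330) (.spl (nat_lit 2) (nat_lit 160) (.trX (nat_lit 4)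 (nat_lit 0) (nat_lit 2) (nat_lit 68) (nat_lit 89) (nat_lit 100) (nat_lit 300) (.trX (nat_lit 5) (nat_lit 1) (nat_lit 2) (nat_lit 73) (nat_lit 85) (nat_lit 100) (nat_lit 320) (.spl (nat_lit 6) (nat_lit 132) (.ref (nat_lit 25)) (.ref (nat_lit 26))))) (.ref (nat_lit 27)))))))))))) (.ref (nat_lit 28)))))) (.ref (nat_lit 29))))))
theorem r9 (h : EC env Ei) : Dead (rootSt (nat_lit 172) ((nat_lit 340), (nat_lit 360), (nat_lit 320), (nat_lit 400), (nat_lit 120), (nat_lit 400))) :=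
  chkT_sound h (refs := l013) (t013 h) (T := top9) (by decide +kernel)
noncomputable def top10 : Tr Lf :=
 (.trX (nat_lit 3) (nat_lit 0) (nat_lit 1) (nat_lit 82) (nat_lit 44) (nat_lit 100) (nat_lit 390) (.trX (nat_lit 4) (nat_lit 0) (nat_lit 2) (nat_lit 82) (nat_lit 44) (nat_lit 100) (nat_lit 390) (.spl (nat_lit 6) (nat_lit 36) (.spl (nat_lit 3) (nat_lit 200) (.spl (nat_lit 4) (nat_lit 200) (.spl (nat_lit 3) (nat_lit 120) (.spl (nat_lit 4) (nat_lit 120) (.spl (nat_lit 2) (nat_lit 180) (.ref (nat_lit 0)) (.ref (nat_lit 1))) (.ref (nat_lit 2))) (.spl (nat_lit 4) (nat_lit 120) (.ref (nat_lit 3)) (.ref (nat_lit 4)))) (.spl (nat_lit 2) (nat_lit 180) (.trX (nat_lit 4) (nat_lit 0) (nat_lit 2) (nat_lit 80) (nat_lit 68) (nat_lit 100) (nat_lit 350) (.spl (nat_lit 3) (nat_lit 120) (.trX (nat_lit 5) (nat_lit 4) (nat_lit 3) (nat_lit 100) (nat_lit 40) (nat_lit 92) (nat_lit 390)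 (.spl (nat_lit 3) (nat_lit 80) (.trX (nat_lit 5) (nat_lit 4) (nat_lit 3) (nat_lit 100) (nat_lit 60) (nat_lit 80) (nat_lit 360) (.spl (nat_lit 4) (nat_lit 280) (.ref (nat_lit 5)) (.trX (nat_lit 5) (nat_lit 4) (nat_lit 3) (nat_lit 100) (nat_lit 95) (nat_lit 87) (nat_lit 300) (.spl (nat_lit 6) (nat_lit 20) (.spl (nat_lit 1) (nat_lit 180) (.ref (nat_lit 6)) (.trZ (nat_lit 0) (nat_lit 1) (nat_lit 3) (nat_lit 100) (nat_lit 80) (nat_lit 52) (nat_lit 20) (.spl (nat_lit 6) (nat_lit 12) (.spl (nat_lit 2) (nat_lit 160) (.ref (nat_lit 7)) (.ref (nat_lit 8))) (.spl (nat_lit 0) (nat_lit 330) (.ref (nat_lit 9)) (.ref (nat_lit 10)))))) (.ref (nat_lit 11)))))) (.spl (nat_lit 4) (nat_lit 280) (.ref (nat_lit 12)) (.trX (nat_lit 5) (nat_lit 4) (nat_lit 3) (nat_lit 100) (nat_lit 80) (nat_lit 100) (nat_lit 340) (.spl (nat_lit 6) (nat_lit 20) (.ref (nat_lit 13)) (.ref (nat_lit 14)))))))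 (.spl (nat_lit 1) (nat_lit 180) (.ref (nat_lit 15)) (.spl (nat_lit 6) (nat_lit 20) (.ref (nat_lit 16)) (.ref (nat_lit 17)))))) (.ord (.trZ (nat_lit 0) (nat_lit 1) (nat_lit 3) (nat_lit 100) (nat_lit 80) (nat_lit 52) (nat_lit 20) (.spl (nat_lit 3) (nat_lit 120) (.trX (nat_lit 5) (nat_lit 4) (nat_lit 3) (nat_lit 100) (nat_lit 40) (nat_lit 92) (nat_lit 390) (.spl (nat_lit 2) (nat_lit 220) (.trX (nat_lit 4) (nat_lit 0) (nat_lit 2) (nat_lit 80) (nat_lit 52) (nat_lit 100) (nat_lit 380) (.spl (nat_lit 6) (nat_lit 28) (.spl (nat_lit 4) (nat_lit 280) (.ref (nat_lit 18)) (.trX (nat_lit 5) (nat_lit 4) (nat_lit 3) (nat_lit 100) (nat_lit 80) (nat_lit 100) (nat_lit 340) (.spl (nat_lit 3) (nat_lit 80) (.ref (nat_lit 19)) (.ref (nat_lit 20))))) (.dle (nat_lit 0)))) (.ref (nat_lit 21)))) (.ref (nat_lit 22))))))) (.spl (nat_lit 4) (nat_lit 200) (.spl (nat_lit 1) (nat_lit 180) (.ord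 (.trX (nat_lit 3) (nat_lit 0) (nat_lit 1) (nat_lit 80) (nat_lit 68) (nat_lit 100) (nat_lit 350) (.spl (nat_lit 6) (nat_lit 28) (.spl (nat_lit 4) (nat_lit 120) (.ref (nat_lit 23)) (.ref (nat_lit 24))) (.dle (nat_lit 0))))) (.spl (nat_lit 3) (nat_lit 280) (.spl (nat_lit 4) (nat_lit 120) (.ref (nat_lit 25)) (.ref (nat_lit 26))) (.trX (nat_lit 5) (nat_lit 3) (nat_lit 4) (nat_lit 92) (nat_lit 40) (nat_lit 100) (nat_lit 390) (.spl (nat_lit 1) (nat_lit 220) (.ord (.trX (nat_lit 3) (nat_lit 0) (nat_lit 1) (nat_lit 80) (nat_lit 52) (nat_lit 100) (nat_lit 380) (.spl (nat_lit 6) (nat_lit 28) (.spl (nat_lit 4) (nat_lit 120) (.ref (nat_lit 27)) (.ref (nat_lit 28))) (.dle (nat_lit 0))))) (.ref (nat_lit 29)))))) (.spl (nat_lit 2) (nat_lit 180) (.trX (nat_lit 4) (nat_lit 0) (nat_lit 2) (nat_lit 80) (nat_lit 68) (nat_lit 100) (nat_lit 350) (.spl (nat_lit 1) (nat_lit 180) (.ref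 (nat_lit 30)) (.spl (nat_lit 3) (nat_lit 280) (.ref (nat_lit 31)) (.ref (nat_lit 32))))) (.ref (nat_lit 33))))) (.dle (nat_lit 0)))))
theorem r10 (h : EC env Ei) : Dead (rootSt (nat_lit 44) ((nat_lit 320), (nat_lit 340), (nat_lit 120), (nat_lit 240), (nat_lit 120), (nat_lit 240))) :=
  chkT_sound h (refs := (l014 ++ l015)) (List.forall_mem_append.mpr ⟨t014 h, (t015 h)⟩) (T := top10) (by decide +kernel)
noncomputable def top11 : Tr Lf :=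
 (.trZ (nat_lit 0) (nat_lit 1) (nat_lit 3) (nat_lit 100) (nat_lit 82) (nat_lit 76) (nat_lit 60) (.spl (nat_lit 6) (nat_lit 88) (.spl (nat_lit 4) (nat_lit 120) (.spl (nat_lit 3) (nat_lit 120) (.spl (nat_lit 6) (nat_lit 44) (.spl (nat_lit 1) (nat_lit 280) (.ord (.spl (nat_lit 2) (nat_lit 200) (.spl (nat_lit 4) (nat_lit 80) (.spl (nat_lit 6) (nat_lit 24) (.ref (nat_lit 0)) (.ref (nat_lit 1))) (.ref (nat_lit 2))) (.trZ (nat_lit 0) (nat_lit 2) (nat_lit 4) (nat_lit 100) (nat_lit 80) (nat_lit 60) (nat_lit 40) (.spl (nat_lit 5) (nat_lit 120) (.ref (nat_lit 3)) (.ref (nat_lit 4)))))) (.ref (nat_lit 5))) (.ref (nat_lit 6))) (.spl (nat_lit 6) (nat_lit 44) (.spl (nat_lit 2) (nat_lit 220) (.stt (nat_lit 2) (.spl (nat_lit 6) (nat_lit 24) (.ref (nat_lit 7)) (.ref (nat_lit 8))) (.spl (nat_lit 3) (nat_lit 280) (.spl (nat_lit 3) (nat_lit 200) (.spl (nat_lit 5) (nat_lit 200) (.ref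 (nat_lit 9)) (.ref (nat_lit 10))) (.ref (nat_lit 11))) (.ref (nat_lit 12)))) (.trZ (nat_lit 0) (nat_lit 2) (nat_lit 4) (nat_lit 100) (nat_lit 80) (nat_lit 68) (nat_lit 50) (.stt (nat_lit 2) (.ref (nat_lit 13)) (.ref (nat_lit 14))))) (.spl (nat_lit 2) (nat_lit 220) (.spl (nat_lit 3) (nat_lit 280) (.spl (nat_lit 1) (nat_lit 280) (.ref (nat_lit 15)) (.spl (nat_lit 5) (nat_lit 200) (.ref (nat_lit 16)) (.spl (nat_lit 1) (nat_lit 300) (.ref (nat_lit 17)) (.ref (nat_lit 18))))) (.ref (nat_lit 19))) (.ref (nat_lit 20))))) (.spl (nat_lit 6) (nat_lit 44) (.spl (nat_lit 2) (nat_lit 220) (.trX (nat_lit 4) (nat_lit 0) (nat_lit 2) (nat_lit 80) (nat_lit 52) (nat_lit 100) (nat_lit 380) (.spl (nat_lit 3) (nat_lit 120) (.spl (nat_lit 4) (nat_lit 240) (.spl (nat_lit 1) (nat_lit 280) (.spl (nat_lit 2) (nat_lit 180) (.spl (nat_lit 6) (nat_lit 24) (.ref (nat_lit 21)) (.ref (nat_lit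 22))) (.ref (nat_lit 23))) (.trZ (nat_lit 0) (nat_lit 1) (nat_lit 3) (nat_lit 100) (nat_lit 87) (nat_lit 95) (nat_lit 100) (.spl (nat_lit 2) (nat_lit 180) (.ref (nat_lit 24)) (.ref (nat_lit 25))))) (.trX (nat_lit 5) (nat_lit 4) (nat_lit 3) (nat_lit 100) (nat_lit 59) (nat_lit 94) (nat_lit 370) (.spl (nat_lit 2) (nat_lit 180) (.trX (nat_lit 4) (nat_lit 0) (nat_lit 2) (nat_lit 80) (nat_lit 68) (nat_lit 100) (nat_lit 350) (.stt (nat_lit 3) (.spl (nat_lit 1) (nat_lit 280) (.spl (nat_lit 6) (nat_lit 24) (.ref (nat_lit 26)) (.spl (nat_lit 1) (nat_lit 260) (.ref (nat_lit 27)) (.ref (nat_lit 28)))) (.ref (nat_lit 29))) (.spl (nat_lit 2) (nat_lit 160) (.trX (nat_lit 4) (nat_lit 0) (nat_lit 2) (nat_lit 82) (nat_lit 76) (nat_lit 100) (nat_lit 340) (.spl (nat_lit 4) (nat_lit 280) (.stt (nat_lit 1) (.ref (nat_lit 30)) (.spl (nat_lit 5) (nat_lit 200) (.ref (nat_lit 31)) (.ref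 (nat_lit 32)))) (.trX (nat_lit 5) (nat_lit 4) (nat_lit 3) (nat_lit 100) (nat_lit 80) (nat_lit 100) (nat_lit 340) (.stt (nat_lit 1) (.spl (nat_lit 1) (nat_lit 280) (.spl (nat_lit 3) (nat_lit 100) (.trX (nat_lit 5) (nat_lit 4) (nat_lit 3) (nat_lit 100) (nat_lit 88) (nat_lit 94) (nat_lit 320) (.spl (nat_lit 3) (nat_lit 80) (.ref (nat_lit 33)) (.spl (nat_lit 0) (nat_lit 330) (.ref (nat_lit 34)) (.ref (nat_lit 35))))) (.spl (nat_lit 2) (nat_lit 140) (.ref (nat_lit 36)) (.ref (nat_lit 37)))) (.ref (nat_lit 38))) (.spl (nat_lit 1) (nat_lit 280) (.spl (nat_lit 6) (nat_lit 24) (.ref (nat_lit 39)) (.ref (nat_lit 40))) (.ref (nat_lit 41))))))) (.spl (nat_lit 1) (nat_lit 280) (.spl (nat_lit 6) (nat_lit 24) (.ref (nat_lit 42)) (.ref (nat_lit 43))) (.ref (nat_lit 44)))))) (.ref (nat_lit 45))))) (.spl (nat_lit 3) (nat_lit 280) (.spl (nat_lit 6) (nat_lit 24) (.stt (nat_lit 3)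 (.stt (nat_lit 2) (.ref (nat_lit 46)) (.spl (nat_lit 4) (nat_lit 240) (.ref (nat_lit 47)) (.ref (nat_lit 48)))) (.spl (nat_lit 0) (nat_lit 330) (.spl (nat_lit 4) (nat_lit 240) (.spl (nat_lit 3) (nat_lit 200) (.ref (nat_lit 49)) (.ref (nat_lit 50))) (.stt (nat_lit 1) (.spl (nat_lit 2) (nat_lit 180) (.trX (nat_lit 4) (nat_lit 0) (nat_lit 2) (nat_lit 80) (nat_lit 68) (nat_lit 100) (nat_lit 350) (.spl (nat_lit 4) (nat_lit 280) (.ref (nat_lit 51)) (.spl (nat_lit 2) (nat_lit 160) (.trX (nat_lit 4) (nat_lit 0) (nat_lit 2) (nat_lit 82) (nat_lit 76) (nat_lit 100) (nat_lit 340) (.trX (nat_lit 5) (nat_lit 1) (nat_lit 2) (nat_lit 100) (nat_lit 40) (nat_lit 100) (nat_lit 390) (.spl (nat_lit 1) (nat_lit 280) (.ref (nat_lit 52)) (.ref (nat_lit 53))))) (.spl (nat_lit 1) (nat_lit 280) (.ref (nat_lit 54)) (.ref (nat_lit 55)))))) (.ref (nat_lit 56))) (.spl (nat_lit 2) (nat_lit 180)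 (.trX (nat_lit 4) (nat_lit 0) (nat_lit 2) (nat_lit 80) (nat_lit 68) (nat_lit 100) (nat_lit 350) (.stt (nat_lit 2) (.ref (nat_lit 57)) (.ref (nat_lit 58)))) (.ref (nat_lit 59))))) (.trX (nat_lit 4) (nat_lit 0) (nat_lit 2) (nat_lit 76) (nat_lit 57) (nat_lit 100) (nat_lit 370) (.spl (nat_lit 4) (nat_lit 240) (.stt (nat_lit 1) (.ref (nat_lit 60)) (.ref (nat_lit 61))) (.spl (nat_lit 2) (nat_lit 180) (.trX (nat_lit 4) (nat_lit 0) (nat_lit 2) (nat_lit 76) (nat_lit 73) (nat_lit 100) (nat_lit 340) (.spl (nat_lit 2) (nat_lit 160) (.trX (nat_lit 4) (nat_lit 0) (nat_lit 2) (nat_lit 78) (nat_lit 81) (nat_lit 100) (nat_lit 330) (.trX (nat_lit 5) (nat_lit 1) (nat_lit 2) (nat_lit 100) (nat_lit 40) (nat_lit 100) (nat_lit 390) (.stt (nat_lit 1) (.spl (nat_lit 3) (nat_lit 200) (.spl (nat_lit 4) (nat_lit 280) (.ref (nat_lit 62)) (.ref (nat_lit 63))) (.ref (nat_lit 64))) (.ref (nat_lit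 65))))) (.stt (nat_lit 2) (.ref (nat_lit 66)) (.ref (nat_lit 67))))) (.ref (nat_lit 68))))))) (.spl (nat_lit 4) (nat_lit 240) (.spl (nat_lit 3) (nat_lit 200) (.spl (nat_lit 2) (nat_lit 180) (.stt (nat_lit 1) (.ref (nat_lit 69)) (.ref (nat_lit 70))) (.ref (nat_lit 71))) (.ref (nat_lit 72))) (.spl (nat_lit 2) (nat_lit 180) (.trX (nat_lit 4) (nat_lit 0) (nat_lit 2) (nat_lit 80) (nat_lit 68) (nat_lit 100) (nat_lit 350) (.stt (nat_lit 1) (.spl (nat_lit 2) (nat_lit 160) (.trX (nat_lit 4) (nat_lit 0) (nat_lit 2) (nat_lit 82) (nat_lit 76) (nat_lit 100) (nat_lit 340) (.trX (nat_lit 5) (nat_lit 1) (nat_lit 2) (nat_lit 100) (nat_lit 40) (nat_lit 100) (nat_lit 390) (.spl (nat_lit 2) (nat_lit 140) (.trX (nat_lit 4) (nat_lit 0) (nat_lit 2) (nat_lit 84) (nat_lit 85) (nat_lit 100) (nat_lit 320) (.trX (nat_lit 5) (nat_lit 1) (nat_lit 2) (nat_lit 100) (nat_lit 49) (nat_lit 97) (nat_lit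 380) (.spl (nat_lit 3) (nat_lit 200) (.spl (nat_lit 4) (nat_lit 280) (.ref (nat_lit 73)) (.ref (nat_lit 74))) (.ref (nat_lit 75))))) (.spl (nat_lit 1) (nat_lit 280) (.ref (nat_lit 76)) (.ref (nat_lit 77)))))) (.ref (nat_lit 78))) (.stt (nat_lit 2) (.ref (nat_lit 79)) (.ref (nat_lit 80))))) (.ref (nat_lit 81))))) (.stt (nat_lit 3) (.ref (nat_lit 82)) (.spl (nat_lit 2) (nat_lit 180) (.trX (nat_lit 4) (nat_lit 0) (nat_lit 2) (nat_lit 80) (nat_lit 68) (nat_lit 100) (nat_lit 350) (.spl (nat_lit 1) (nat_lit 280) (.spl (nat_lit 4) (nat_lit 240) (.ref (nat_lit 83)) (.ref (nat_lit 84))) (.trX (nat_lit 5) (nat_lit 1) (nat_lit 2) (nat_lit 92) (nat_lit 49) (nat_lit 100) (nat_lit 380) (.spl (nat_lit 4) (nat_lit 240) (.ref (nat_lit 85)) (.ref (nat_lit 86)))))) (.ref (nat_lit 87))))))) (.spl (nat_lit 3) (nat_lit 120) (.spl (nat_lit 1) (nat_lit 280) (.ref (nat_lit 88)) (.ref (nat_lit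 89))) (.stt (nat_lit 3) (.ref (nat_lit 90)) (.stt (nat_lit 2) (.ref (nat_lit 91)) (.stt (nat_lit 1) (.ref (nat_lit 92)) (.ref (nat_lit 93))))))) (.spl (nat_lit 3) (nat_lit 120) (.spl (nat_lit 2) (nat_lit 220) (.trX (nat_lit 4) (nat_lit 0) (nat_lit 2) (nat_lit 80) (nat_lit 52) (nat_lit 100) (nat_lit 380) (.spl (nat_lit 4) (nat_lit 240) (.ref (nat_lit 94)) (.ref (nat_lit 95)))) (.ref (nat_lit 96))) (.spl (nat_lit 3) (nat_lit 280) (.spl (nat_lit 2) (nat_lit 220) (.trX (nat_lit 4) (nat_lit 0) (nat_lit 2) (nat_lit 80) (nat_lit 52) (nat_lit 100) (nat_lit 380) (.spl (nat_lit 4) (nat_lit 240) (.ref (nat_lit 97)) (.spl (nat_lit 2) (nat_lit 180) (.trX (nat_lit 4) (nat_lit 0) (nat_lit 2) (nat_lit 80) (nat_lit 68) (nat_lit 100) (nat_lit 350) (.spl (nat_lit 1) (nat_lit 280) (.ref (nat_lit 98)) (.trX (nat_lit 5) (nat_lit 1) (nat_lit 2) (nat_lit 92) (nat_lit 49) (nat_lit 100)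 (nat_lit 380) (.spl (nat_lit 5) (nat_lit 120) (.ref (nat_lit 99)) (.stt (nat_lit 1) (.ref (nat_lit 100)) (.ref (nat_lit 101))))))) (.ref (nat_lit 102))))) (.ref (nat_lit 103))) (.spl (nat_lit 2) (nat_lit 220) (.trX (nat_lit 4) (nat_lit 0) (nat_lit 2) (nat_lit 80) (nat_lit 52) (nat_lit 100) (nat_lit 380) (.spl (nat_lit 4) (nat_lit 240) (.ref (nat_lit 104)) (.ref (nat_lit 105)))) (.ref (nat_lit 106))))))) (.dle (nat_lit 0))))
theorem r11 (h : EC env Ei) : Dead (rootSt (nat_lit 104) ((nat_lit 320), (nat_lit 340), (nat_lit 240), (nat_lit 320), (nat_lit 120), (nat_lit 320))) :=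
  chkT_sound h (refs := (l016 ++ (l017 ++ (l018 ++ l019)))) (List.forall_mem_append.mpr ⟨t016 h, (List.forall_mem_append.mpr ⟨t017 h, (List.forall_mem_append.mpr ⟨t018 h, (t019 h)⟩)⟩)⟩) (T := top11) (by decide +kernel)
noncomputable def top12 : Tr Lf :=
 (.ord (.trZ (nat_lit 0) (nat_lit 1) (nat_lit 3) (nat_lit 83) (nat_lit 83) (nat_lit 100) (nat_lit 140) (.spl (nat_lit 6) (nat_lit 112) (.spl (nat_lit 2) (nat_lit 240) (.trX (nat_lit 4) (nat_lit 0) (nat_lit 2) (nat_lit 82) (nat_lit 44) (nat_lit 100) (nat_lit 390) (.trX (nat_lit 5) (nat_lit 1) (nat_lit 2) (nat_lit 82) (nat_lit 44) (nat_lit 100) (nat_lit 390) (.spl (nat_lit 6) (nat_lit 56) (.spl (nat_lit 2) (nat_lit 180) (.trX (nat_lit 4) (nat_lit 0) (nat_lit 2) (nat_lit 80) (nat_lit 68) (nat_lit 100) (nat_lit 350) (.trX (nat_lit 5) (nat_lit 1) (nat_lit 2) (nat_lit 80) (nat_lit 68) (nat_lit 100) (nat_lit 350) (.spl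 (nat_lit 4) (nat_lit 160) (.spl (nat_lit 5) (nat_lit 160) (.ref (nat_lit 0)) (.spl (nat_lit 6) (nat_lit 28) (.ref (nat_lit 1)) (.ref (nat_lit 2)))) (.stt (nat_lit 3) (.ref (nat_lit 3)) (.spl (nat_lit 5) (nat_lit 160) (.ref (nat_lit 4)) (.spl (nat_lit 6) (nat_lit 28) (.spl (nat_lit 2) (nat_lit 160) (.trX (nat_lit 4) (nat_lit 0) (nat_lit 2) (nat_lit 82) (nat_lit 76) (nat_lit 100) (nat_lit 340) (.trX (nat_lit 5) (nat_lit 1) (nat_lit 2) (nat_lit 82) (nat_lit 76) (nat_lit 100) (nat_lit 340) (.spl (nat_lit 6) (nat_lit 16) (.ref (nat_lit 5)) (.ref (nat_lit 6))))) (.ref (nat_lit 7))) (.ref (nat_lit 8)))))))) (.trZ (nat_lit 0) (nat_lit 2) (nat_lit 4) (nat_lit 100) (nat_lit 80) (nat_lit 52) (nat_lit 20) (.trZ (nat_lit 1) (nat_lit 2) (nat_lit 5) (nat_lit 100) (nat_lit 80) (nat_lit 52) (nat_lit 20) (.spl (nat_lit 5) (nat_lit 200) (.ref (nat_lit 9)) (.stt (nat_lit 1) (.ref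 (nat_lit 10)) (.ref (nat_lit 11))))))) (.spl (nat_lit 4) (nat_lit 200) (.spl (nat_lit 2) (nat_lit 180) (.trX (nat_lit 5) (nat_lit 1) (nat_lit 2) (nat_lit 80) (nat_lit 68) (nat_lit 100) (nat_lit 350) (.spl (nat_lit 1) (nat_lit 330) (.ref (nat_lit 12)) (.ref (nat_lit 13)))) (.ref (nat_lit 14))) (.spl (nat_lit 2) (nat_lit 180) (.trX (nat_lit 4) (nat_lit 0) (nat_lit 2) (nat_lit 80) (nat_lit 68) (nat_lit 100) (nat_lit 350) (.trX (nat_lit 5) (nat_lit 1) (nat_lit 2) (nat_lit 80) (nat_lit 68) (nat_lit 100) (nat_lit 350) (.spl (nat_lit 1) (nat_lit 330) (.ref (nat_lit 15)) (.ref (nat_lit 16))))) (.ref (nat_lit 17))))))) (.ref (nat_lit 18))) (.dle (nat_lit 0)))))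
theorem r12 (h : EC env Ei) : Dead (rootSt (nat_lit 128) ((nat_lit 320), (nat_lit 340), (nat_lit 320), (nat_lit 400), (nat_lit 120), (nat_lit 400))) :=
  chkT_sound h (refs := l020) (t020 h) (T := top12) (by decide +kernel)
noncomputable def top13 : Tr Lf :=
 (.trZ (nat_lit 0) (nat_lit 1) (nat_lit 3) (nat_lit 100) (nat_lit 48) (nat_lit 71) (nat_lit 40) (.trX (nat_lit 3) (nat_lit 0) (nat_lit 1) (nat_lit 44) (nat_lit 81) (nat_lit 100) (nat_lit 330) (.trZ (nat_lit 0) (nat_lit 2) (nat_lit 4) (nat_lit 100) (nat_lit 48) (nat_lit 71) (nat_lit 40) (.trX (nat_lit 4) (nat_lit 0) (nat_lit 2) (nat_lit 44) (nat_lit 81) (nat_lit 100) (nat_lit 330) (.spl (nat_lit 6) (nat_lit 88) (.spl (nat_lit 6) (nat_lit 44) (.spl (nat_lit 1) (nat_lit 180) (.ord (.trX (nat_lit 3) (nat_lit 0) (nat_lit 1) (nat_lit 44) (nat_lit 94) (nat_lit 100) (nat_lit 270) (.trX (nat_lit 4) (nat_lit 0) (nat_lit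 2) (nat_lit 44) (nat_lit 94) (nat_lit 100) (nat_lit 270) (.spl (nat_lit 3) (nat_lit 120) (.ref (nat_lit 0)) (.spl (nat_lit 4) (nat_lit 160) (.ref (nat_lit 1)) (.spl (nat_lit 3) (nat_lit 200) (.spl (nat_lit 1) (nat_lit 160) (.ref (nat_lit 2)) (.spl (nat_lit 3) (nat_lit 160) (.ref (nat_lit 3)) (.ref (nat_lit 4)))) (.ref (nat_lit 5)))))))) (.trZ (nat_lit 0) (nat_lit 1) (nat_lit 3) (nat_lit 100) (nat_lit 44) (nat_lit 86) (nat_lit 90) (.spl (nat_lit 2) (nat_lit 180) (.trX (nat_lit 4) (nat_lit 0) (nat_lit 2) (nat_lit 44) (nat_lit 94) (nat_lit 100) (nat_lit 270) (.spl (nat_lit 4) (nat_lit 120) (.ref (nat_lit 6)) (.spl (nat_lit 3) (nat_lit 200) (.stt (nat_lit 3) (.ref (nat_lit 7)) (.spl (nat_lit 4) (nat_lit 200) (.ref (nat_lit 8)) (.spl (nat_lit 3) (nat_lit 120) (.ref (nat_lit 9)) (.stt (nat_lit 2) (.ref (nat_lit 10)) (.ref (nat_lit 11)))))) (.stt (nat_lit 3) (.stt (nat_lit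 2) (.ref (nat_lit 12)) (.spl (nat_lit 4) (nat_lit 200) (.ref (nat_lit 13)) (.ref (nat_lit 14)))) (.spl (nat_lit 3) (nat_lit 280) (.spl (nat_lit 4) (nat_lit 200) (.ref (nat_lit 15)) (.ref (nat_lit 16))) (.spl (nat_lit 4) (nat_lit 200) (.ref (nat_lit 17)) (.ref (nat_lit 18)))))))) (.trZ (nat_lit 0) (nat_lit 2) (nat_lit 4) (nat_lit 100) (nat_lit 44) (nat_lit 86) (nat_lit 90) (.spl (nat_lit 3) (nat_lit 200) (.spl (nat_lit 4) (nat_lit 200) (.ref (nat_lit 19)) (.stt (nat_lit 3) (.ref (nat_lit 20)) (.ref (nat_lit 21)))) (.spl (nat_lit 4) (nat_lit 200) (.stt (nat_lit 2) (.ref (nat_lit 22)) (.ref (nat_lit 23))) (.stt (nat_lit 1) (.spl (nat_lit 2) (nat_lit 220) (.trX (nat_lit 4) (nat_lit 0) (nat_lit 2) (nat_lit 44) (nat_lit 86) (nat_lit 100) (nat_lit 310) (.spl (nat_lit 3) (nat_lit 280) (.ref (nat_lit 24)) (.ref (nat_lit 25)))) (.ref (nat_lit 26))) (.ref (nat_lit 27)))))))))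 (.spl (nat_lit 3) (nat_lit 120) (.ref (nat_lit 28)) (.spl (nat_lit 2) (nat_lit 180) (.trX (nat_lit 4) (nat_lit 0) (nat_lit 2) (nat_lit 44) (nat_lit 94) (nat_lit 100) (nat_lit 270) (.spl (nat_lit 3) (nat_lit 240) (.spl (nat_lit 4) (nat_lit 160) (.ref (nat_lit 29)) (.spl (nat_lit 1) (nat_lit 180) (.ref (nat_lit 30)) (.spl (nat_lit 4) (nat_lit 200) (.ref (nat_lit 31)) (.spl (nat_lit 0) (nat_lit 390) (.ref (nat_lit 32)) (.ref (nat_lit 33)))))) (.spl (nat_lit 4) (nat_lit 160) (.trX (nat_lit 5) (nat_lit 3) (nat_lit 4) (nat_lit 100) (nat_lit 40) (nat_lit 100) (nat_lit 390) (.spl (nat_lit 1) (nat_lit 180) (.ref (nat_lit 34)) (.spl (nat_lit 3) (nat_lit 280) (.ref (nat_lit 35)) (.trX (nat_lit 5) (nat_lit 3) (nat_lit 4) (nat_lit 94) (nat_lit 59) (nat_lit 100) (nat_lit 370) (.spl (nat_lit 0) (nat_lit 390) (.ref (nat_lit 36)) (.ref (nat_lit 37))))))) (.spl (nat_lit 1) (nat_lit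 180) (.ref (nat_lit 38)) (.spl (nat_lit 0) (nat_lit 390) (.spl (nat_lit 5) (nat_lit 120) (.ref (nat_lit 39)) (.ref (nat_lit 40))) (.trX (nat_lit 3) (nat_lit 0) (nat_lit 1) (nat_lit 32) (nat_lit 89) (nat_lit 100) (nat_lit 300) (.trX (nat_lit 4) (nat_lit 0) (nat_lit 2) (nat_lit 31) (nat_lit 98) (nat_lit 100) (nat_lit 250) (.stt (nat_lit 1) (.ref (nat_lit 41)) (.ref (nat_lit 42)))))))))) (.ord (.trZ (nat_lit 0) (nat_lit 2) (nat_lit 4) (nat_lit 100) (nat_lit 44) (nat_lit 86) (nat_lit 90) (.spl (nat_lit 4) (nat_lit 200) (.spl (nat_lit 3) (nat_lit 240) (.ref (nat_lit 43)) (.spl (nat_lit 1) (nat_lit 220) (.ref (nat_lit 44)) (.ref (nat_lit 45)))) (.spl (nat_lit 3) (nat_lit 240) (.spl (nat_lit 2) (nat_lit 220) (.trX (nat_lit 4) (nat_lit 0) (nat_lit 2) (nat_lit 44) (nat_lit 86) (nat_lit 100) (nat_lit 310) (.spl (nat_lit 0) (nat_lit 390) (.spl (nat_lit 6) (nat_lit 80) (.spl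 (nat_lit 2) (nat_lit 200) (.ref (nat_lit 46)) (.ref (nat_lit 47))) (.dle (nat_lit 0))) (.trX (nat_lit 4) (nat_lit 0) (nat_lit 2) (nat_lit 31) (nat_lit 92) (nat_lit 100) (nat_lit 290) (.spl (nat_lit 5) (nat_lit 120) (.spl (nat_lit 1) (nat_lit 220) (.ref (nat_lit 48)) (.ref (nat_lit 49))) (.ref (nat_lit 50)))))) (.ref (nat_lit 51))) (.spl (nat_lit 5) (nat_lit 120) (.spl (nat_lit 1) (nat_lit 220) (.ref (nat_lit 52)) (.ref (nat_lit 53))) (.ref (nat_lit 54)))))))))) (.spl (nat_lit 0) (nat_lit 390) (.spl (nat_lit 6) (nat_lit 128) (.spl (nat_lit 2) (nat_lit 180) (.trX (nat_lit 4) (nat_lit 0) (nat_lit 2) (nat_lit 44) (nat_lit 94) (nat_lit 100) (nat_lit 270) (.spl (nat_lit 3) (nat_lit 200) (.ref (nat_lit 55)) (.spl (nat_lit 4) (nat_lit 160) (.ref (nat_lit 56)) (.ref (nat_lit 57))))) (.ord (.trZ (nat_lit 0) (nat_lit 1) (nat_lit 3) (nat_lit 100) (nat_lit 44) (nat_lit 86)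 (nat_lit 90) (.trZ (nat_lit 0) (nat_lit 2) (nat_lit 4) (nat_lit 100) (nat_lit 44) (nat_lit 86) (nat_lit 90) (.dle (nat_lit 0)))))) (.dle (nat_lit 0))) (.trZ (nat_lit 0) (nat_lit 1) (nat_lit 3) (nat_lit 100) (nat_lit 34) (nat_lit 81) (nat_lit 60) (.trX (nat_lit 3) (nat_lit 0) (nat_lit 1) (nat_lit 32) (nat_lit 89) (nat_lit 100) (nat_lit 300) (.trZ (nat_lit 0) (nat_lit 2) (nat_lit 4) (nat_lit 100) (nat_lit 34) (nat_lit 81) (nat_lit 60) (.trX (nat_lit 4) (nat_lit 0) (nat_lit 2) (nat_lit 32) (nat_lit 89) (nat_lit 100) (nat_lit 300) (.spl (nat_lit 1) (nat_lit 180) (.ref (nat_lit 58)) (.trZ (nat_lit 0) (nat_lit 1) (nat_lit 3) (nat_lit 100) (nat_lit 31) (nat_lit 92) (nat_lit 110) (.spl (nat_lit 6) (nat_lit 132) (.spl (nat_lit 2) (nat_lit 180) (.trX (nat_lit 4) (nat_lit 0) (nat_lit 2) (nat_lit 31) (nat_lit 98) (nat_lit 100) (nat_lit 250) (.spl (nat_lit 4) (nat_lit 160)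 (.spl (nat_lit 3) (nat_lit 200) (.ref (nat_lit 59)) (.spl (nat_lit 3) (nat_lit 240) (.ref (nat_lit 60)) (.trX (nat_lit 5) (nat_lit 3) (nat_lit 4) (nat_lit 100) (nat_lit 40) (nat_lit 100) (nat_lit 390) (.spl (nat_lit 1) (nat_lit 220) (.ref (nat_lit 61)) (.spl (nat_lit 5) (nat_lit 200) (.ref (nat_lit 62)) (.ref (nat_lit 63))))))) (.spl (nat_lit 3) (nat_lit 200) (.ref (nat_lit 64)) (.spl (nat_lit 3) (nat_lit 240) (.ref (nat_lit 65)) (.ref (nat_lit 66)))))) (.ref (nat_lit 67))) (.dle (nat_lit 0)))))))))))))))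
theorem r13 (h : EC env Ei) : Dead (rootSt (nat_lit 172) ((nat_lit 380), (nat_lit 400), (nat_lit 120), (nat_lit 240), (nat_lit 120), (nat_lit 240))) :=
  chkT_sound h (refs := (l021 ++ (l022 ++ l023))) (List.forall_mem_append.mpr ⟨t021 h, (List.forall_mem_append.mpr ⟨t022 h, (t023 h)⟩)⟩) (T := top13) (by decide +kernel)
noncomputable def top14 : Tr Lf :=
 (.trZ (nat_lit 0) (nat_lit 1) (nat_lit 3) (nat_lit 100) (nat_lit 44) (nat_lit 99) (nat_lit 150) (.trX (nat_lit 3) (nat_lit 0) (nat_lit 1) (nat_lit 54) (nat_lit 57) (nat_lit 100) (nat_lit 380) (.trZ (nat_lit 0) (nat_lit 2) (nat_lit 4) (nat_lit 100) (nat_lit 48) (nat_lit 71) (nat_lit 40) (.trX (nat_lit 4) (nat_lit 0) (nat_lit 2) (nat_lit 54) (nat_lit 57) (nat_lit 100) (nat_lit 380) (.spl (nat_lit 2) (nat_lit 220) (.trX (nat_lit 4) (nat_lit 0) (nat_lit 2) (nat_lit 44) (nat_lit 86) (nat_lit 100) (nat_lit 310) (.spl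 (nat_lit 6) (nat_lit 88) (.spl (nat_lit 6) (nat_lit 44) (.stt (nat_lit 2) (.stt (nat_lit 3) (.ref (nat_lit 0)) (.spl (nat_lit 4) (nat_lit 160) (.ref (nat_lit 1)) (.spl (nat_lit 3) (nat_lit 280) (.spl (nat_lit 1) (nat_lit 280) (.ref (nat_lit 2)) (.ref (nat_lit 3))) (.ref (nat_lit 4))))) (.spl (nat_lit 2) (nat_lit 180) (.trX (nat_lit 4) (nat_lit 0) (nat_lit 2) (nat_lit 44) (nat_lit 94) (nat_lit 100) (nat_lit 270) (.spl (nat_lit 3) (nat_lit 280) (.stt (nat_lit 1) (.spl (nat_lit 4) (nat_lit 160) (.ref (nat_lit 5)) (.spl (nat_lit 1) (nat_lit 280) (.ref (nat_lit 6)) (.ref (nat_lit 7)))) (.spl (nat_lit 4) (nat_lit 160) (.ref (nat_lit 8)) (.ref (nat_lit 9)))) (.stt (nat_lit 1) (.spl (nat_lit 4) (nat_lit 160) (.trX (nat_lit 5) (nat_lit 3) (nat_lit 4) (nat_lit 94) (nat_lit 59) (nat_lit 100) (nat_lit 370) (.spl (nat_lit 3) (nat_lit 320) (.ref (nat_lit 10)) (.trX (nat_lit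 5) (nat_lit 3) (nat_lit 4) (nat_lit 82) (nat_lit 76) (nat_lit 100) (nat_lit 340) (.spl (nat_lit 1) (nat_lit 280) (.ref (nat_lit 11)) (.spl (nat_lit 1) (nat_lit 300) (.trX (nat_lit 3) (nat_lit 0) (nat_lit 1) (nat_lit 50) (nat_lit 65) (nat_lit 100) (nat_lit 370) (.spl (nat_lit 2) (nat_lit 160) (.ref (nat_lit 12)) (.ref (nat_lit 13)))) (.ref (nat_lit 14))))))) (.spl (nat_lit 3) (nat_lit 320) (.spl (nat_lit 4) (nat_lit 200) (.ref (nat_lit 15)) (.trZ (nat_lit 3) (nat_lit 4) (nat_lit 5) (nat_lit 100) (nat_lit 92) (nat_lit 40) (nat_lit 10) (.spl (nat_lit 2) (nat_lit 160) (.trX (nat_lit 4) (nat_lit 0) (nat_lit 2) (nat_lit 44) (nat_lit 99) (nat_lit 100) (nat_lit 250) (.trX (nat_lit 5) (nat_lit 1) (nat_lit 2) (nat_lit 100) (nat_lit 40) (nat_lit 100) (nat_lit 390) (.spl (nat_lit 1) (nat_lit 280) (.ref (nat_lit 16)) (.ref (nat_lit 17))))) (.ref (nat_lit 18))))) (.trZ (nat_lit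 3) (nat_lit 4) (nat_lit 5) (nat_lit 100) (nat_lit 82) (nat_lit 44) (nat_lit 10) (.spl (nat_lit 3) (nat_lit 360) (.spl (nat_lit 4) (nat_lit 200) (.trX (nat_lit 5) (nat_lit 3) (nat_lit 4) (nat_lit 80) (nat_lit 60) (nat_lit 100) (nat_lit 360) (.spl (nat_lit 1) (nat_lit 280) (.ref (nat_lit 19)) (.stt (nat_lit 3) (.ref (nat_lit 20)) (.ref (nat_lit 21))))) (.trZ (nat_lit 3) (nat_lit 4) (nat_lit 5) (nat_lit 100) (nat_lit 80) (nat_lit 60) (nat_lit 40) (.spl (nat_lit 2) (nat_lit 160) (.trX (nat_lit 4) (nat_lit 0) (nat_lit 2) (nat_lit 44) (nat_lit 99) (nat_lit 100) (nat_lit 250) (.trX (nat_lit 5) (nat_lit 1) (nat_lit 2) (nat_lit 100) (nat_lit 40) (nat_lit 100) (nat_lit 390) (.stt (nat_lit 3) (.ref (nat_lit 22)) (.spl (nat_lit 1) (nat_lit 280) (.ref (nat_lit 23)) (.trX (nat_lit 5) (nat_lit 1) (nat_lit 2) (nat_lit 94) (nat_lit 59) (nat_lit 100) (nat_lit 370) (.spl (nat_lit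 1) (nat_lit 300) (.spl (nat_lit 5) (nat_lit 120) (.ref (nat_lit 24)) (.spl (nat_lit 5) (nat_lit 240) (.ref (nat_lit 25)) (.ref (nat_lit 26)))) (.ref (nat_lit 27)))))))) (.ref (nat_lit 28))))) (.trZ (nat_lit 3) (nat_lit 4) (nat_lit 5) (nat_lit 100) (nat_lit 61) (nat_lit 68) (nat_lit 50) (.trX (nat_lit 5) (nat_lit 3) (nat_lit 4) (nat_lit 64) (nat_lit 58) (nat_lit 100) (nat_lit 370) (.spl (nat_lit 1) (nat_lit 280) (.emL (nat_lit 3) (nat_lit 0) (nat_lit 1) (nat_lit 48) (nat_lit 71) (nat_lit 100)) (.spl (nat_lit 2) (nat_lit 160) (.trX (nat_lit 4) (nat_lit 0) (nat_lit 2) (nat_lit 44) (nat_lit 99) (nat_lit 100) (nat_lit 250) (.trX (nat_lit 5) (nat_lit 3) (nat_lit 4) (nat_lit 62) (nat_lit 65) (nat_lit 100) (nat_lit 360) (.stt (nat_lit 3) (.ref (nat_lit 29)) (.spl (nat_lit 1) (nat_lit 300) (.ref (nat_lit 30)) (.ref (nat_lit 31)))))) (.ref (nat_lit 32)))))))))) (.ref (nat_lit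 33))))) (.trZ (nat_lit 0) (nat_lit 2) (nat_lit 4) (nat_lit 100) (nat_lit 44) (nat_lit 86) (nat_lit 90) (.spl (nat_lit 3) (nat_lit 280) (.stt (nat_lit 1) (.spl (nat_lit 4) (nat_lit 200) (.ref (nat_lit 34)) (.spl (nat_lit 1) (nat_lit 280) (.ref (nat_lit 35)) (.ref (nat_lit 36)))) (.ref (nat_lit 37))) (.stt (nat_lit 1) (.spl (nat_lit 4) (nat_lit 200) (.trX (nat_lit 5) (nat_lit 3) (nat_lit 4) (nat_lit 92) (nat_lit 40) (nat_lit 100) (nat_lit 390) (.spl (nat_lit 1) (nat_lit 280) (.ref (nat_lit 38)) (.ref (nat_lit 39)))) (.trZ (nat_lit 3) (nat_lit 4) (nat_lit 5) (nat_lit 100) (nat_lit 92) (nat_lit 40) (nat_lit 10) (.spl (nat_lit 5) (nat_lit 120) (.ref (nat_lit 40)) (.ref (nat_lit 41))))) (.ref (nat_lit 42))))))) (.spl (nat_lit 4) (nat_lit 160) (.spl (nat_lit 1) (nat_lit 280) (.trX (nat_lit 3) (nat_lit 0) (nat_lit 1) (nat_lit 48) (nat_lit 71) (nat_lit 100) (nat_lit 360)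 (.spl (nat_lit 3) (nat_lit 240) (.spl (nat_lit 2) (nat_lit 180) (.ref (nat_lit 43)) (.ref (nat_lit 44))) (.trX (nat_lit 5) (nat_lit 3) (nat_lit 4) (nat_lit 100) (nat_lit 40) (nat_lit 100) (nat_lit 390) (.spl (nat_lit 2) (nat_lit 180) (.spl (nat_lit 3) (nat_lit 320) (.stt (nat_lit 2) (.ref (nat_lit 45)) (.spl (nat_lit 5) (nat_lit 200) (.stt (nat_lit 1) (.spl (nat_lit 0) (nat_lit 390) (.ref (nat_lit 46)) (.ref (nat_lit 47))) (.ref (nat_lit 48))) (.ref (nat_lit 49)))) (.trX (nat_lit 5) (nat_lit 3) (nat_lit 4) (nat_lit 82) (nat_lit 76) (nat_lit 100) (nat_lit 340) (.stt (nat_lit 1) (.spl (nat_lit 2) (nat_lit 160) (.ref (nat_lit 50)) (.ref (nat_lit 51))) (.ref (nat_lit 52))))) (.ref (nat_lit 53)))))) (.trZ (nat_lit 0) (nat_lit 1) (nat_lit 3) (nat_lit 92) (nat_lit 44) (nat_lit 100) (nat_lit 190) (.stt (nat_lit 2) (.ref (nat_lit 54)) (.spl (nat_lit 3) (nat_lit 280) (.spl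 (nat_lit 2) (nat_lit 180) (.ref (nat_lit 55)) (.ref (nat_lit 56))) (.trX (nat_lit 5) (nat_lit 3) (nat_lit 4) (nat_lit 94) (nat_lit 59) (nat_lit 100) (nat_lit 370) (.spl (nat_lit 2) (nat_lit 180) (.spl (nat_lit 3) (nat_lit 320) (.stt (nat_lit 1) (.spl (nat_lit 2) (nat_lit 160) (.spl (nat_lit 5) (nat_lit 120) (.ref (nat_lit 57)) (.ref (nat_lit 58))) (.ref (nat_lit 59))) (.ref (nat_lit 60))) (.trX (nat_lit 5) (nat_lit 3) (nat_lit 4) (nat_lit 82) (nat_lit 76) (nat_lit 100) (nat_lit 340) (.stt (nat_lit 1) (.spl (nat_lit 1) (nat_lit 300) (.trX (nat_lit 3) (nat_lit 0) (nat_lit 1) (nat_lit 50) (nat_lit 65) (nat_lit 100) (nat_lit 370) (.spl (nat_lit 4) (nat_lit 120) (.ref (nat_lit 61)) (.ref (nat_lit 62)))) (.ref (nat_lit 63))) (.ref (nat_lit 64))))) (.ref (nat_lit 65)))))))) (.spl (nat_lit 2) (nat_lit 180) (.trX (nat_lit 4) (nat_lit 0) (nat_lit 2) (nat_lit 44) (nat_lit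 94) (nat_lit 100) (nat_lit 270) (.spl (nat_lit 1) (nat_lit 280) (.trX (nat_lit 3) (nat_lit 0) (nat_lit 1) (nat_lit 48) (nat_lit 71) (nat_lit 100) (nat_lit 360) (.spl (nat_lit 3) (nat_lit 240) (.spl (nat_lit 2) (nat_lit 160) (.trX (nat_lit 4) (nat_lit 0) (nat_lit 2) (nat_lit 44) (nat_lit 99) (nat_lit 100) (nat_lit 250) (.trX (nat_lit 5) (nat_lit 1) (nat_lit 2) (nat_lit 100) (nat_lit 40) (nat_lit 100) (nat_lit 390) (.stt (nat_lit 2) (.ref (nat_lit 66)) (.ref (nat_lit 67))))) (.spl (nat_lit 5) (nat_lit 200) (.stt (nat_lit 2) (.ref (nat_lit 68)) (.spl (nat_lit 4) (nat_lit 200) (.ref (nat_lit 69)) (.spl (nat_lit 0) (nat_lit 390) (.ref (nat_lit 70)) (.ref (nat_lit 71))))) (.ref (nat_lit 72)))) (.spl (nat_lit 2) (nat_lit 160) (.trX (nat_lit 4) (nat_lit 0) (nat_lit 2) (nat_lit 44) (nat_lit 99) (nat_lit 100) (nat_lit 250) (.trX (nat_lit 5) (nat_lit 1) (nat_lit 2) (nat_lit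 100) (nat_lit 40) (nat_lit 100) (nat_lit 390) (.spl (nat_lit 3) (nat_lit 320) (.stt (nat_lit 1) (.spl (nat_lit 2) (nat_lit 140) (.ref (nat_lit 73)) (.ref (nat_lit 74))) (.ref (nat_lit 75))) (.trZ (nat_lit 3) (nat_lit 4) (nat_lit 5) (nat_lit 100) (nat_lit 82) (nat_lit 44) (nat_lit 10) (.stt (nat_lit 2) (.ref (nat_lit 76)) (.ref (nat_lit 77))))))) (.spl (nat_lit 5) (nat_lit 120) (.spl (nat_lit 1) (nat_lit 260) (.ref (nat_lit 78)) (.ref (nat_lit 79))) (.ref (nat_lit 80)))))) (.trZ (nat_lit 0) (nat_lit 1) (nat_lit 3) (nat_lit 92) (nat_lit 44) (nat_lit 100) (nat_lit 190) (.trX (nat_lit 5) (nat_lit 1) (nat_lit 2) (nat_lit 92) (nat_lit 49) (nat_lit 100) (nat_lit 380) (.stt (nat_lit 3) (.ref (nat_lit 81)) (.spl (nat_lit 2) (nat_lit 160) (.trX (nat_lit 4) (nat_lit 0) (nat_lit 2) (nat_lit 44) (nat_lit 99) (nat_lit 100) (nat_lit 250) (.trX (nat_lit 5) (nat_lit 1) (nat_lit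 2) (nat_lit 94) (nat_lit 59) (nat_lit 100) (nat_lit 370) (.spl (nat_lit 3) (nat_lit 280) (.ref (nat_lit 82)) (.spl (nat_lit 1) (nat_lit 300) (.ref (nat_lit 83)) (.ref (nat_lit 84)))))) (.ref (nat_lit 85)))))))) (.spl (nat_lit 1) (nat_lit 280) (.trX (nat_lit 3) (nat_lit 0) (nat_lit 1) (nat_lit 48) (nat_lit 71) (nat_lit 100) (nat_lit 360) (.spl (nat_lit 3) (nat_lit 240) (.spl (nat_lit 4) (nat_lit 240) (.stt (nat_lit 2) (.ref (nat_lit 86)) (.ref (nat_lit 87))) (.spl (nat_lit 5) (nat_lit 120) (.stt (nat_lit 1) (.ref (nat_lit 88)) (.ref (nat_lit 89))) (.ref (nat_lit 90)))) (.spl (nat_lit 5) (nat_lit 120) (.spl (nat_lit 1) (nat_lit 260) (.trX (nat_lit 3) (nat_lit 0) (nat_lit 1) (nat_lit 46) (nat_lit 76) (nat_lit 100) (nat_lit 340) (.spl (nat_lit 4) (nat_lit 240) (.ref (nat_lit 91)) (.ref (nat_lit 92)))) (.ref (nat_lit 93))) (.ref (nat_lit 94))))) (.ref (nat_lit 95))))))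 (.spl (nat_lit 6) (nat_lit 132) (.spl (nat_lit 2) (nat_lit 180) (.trX (nat_lit 4) (nat_lit 0) (nat_lit 2) (nat_lit 44) (nat_lit 94) (nat_lit 100) (nat_lit 270) (.spl (nat_lit 3) (nat_lit 280) (.spl (nat_lit 4) (nat_lit 160) (.spl (nat_lit 1) (nat_lit 280) (.spl (nat_lit 3) (nat_lit 200) (.spl (nat_lit 0) (nat_lit 390) (.ref (nat_lit 96)) (.ref (nat_lit 97))) (.spl (nat_lit 5) (nat_lit 200) (.ref (nat_lit 98)) (.stt (nat_lit 2) (.ref (nat_lit 99)) (.ref (nat_lit 100))))) (.trZ (nat_lit 0) (nat_lit 1) (nat_lit 3) (nat_lit 92) (nat_lit 44) (nat_lit 100) (nat_lit 190) (.trX (nat_lit 5) (nat_lit 1) (nat_lit 2) (nat_lit 92) (nat_lit 49) (nat_lit 100) (nat_lit 380) (.spl (nat_lit 5) (nat_lit 200) (.ref (nat_lit 101)) (.ref (nat_lit 102)))))) (.spl (nat_lit 1) (nat_lit 280) (.spl (nat_lit 3) (nat_lit 200) (.spl (nat_lit 0) (nat_lit 390) (.ref (nat_lit 103)) (.ref (nat_lit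 104))) (.spl (nat_lit 2) (nat_lit 160) (.trX (nat_lit 4) (nat_lit 0) (nat_lit 2) (nat_lit 44) (nat_lit 99) (nat_lit 100) (nat_lit 250) (.trX (nat_lit 5) (nat_lit 1) (nat_lit 2) (nat_lit 100) (nat_lit 40) (nat_lit 100) (nat_lit 390) (.spl (nat_lit 5) (nat_lit 200) (.ref (nat_lit 105)) (.ref (nat_lit 106))))) (.ref (nat_lit 107)))) (.trZ (nat_lit 0) (nat_lit 1) (nat_lit 3) (nat_lit 92) (nat_lit 44) (nat_lit 100) (nat_lit 190) (.trX (nat_lit 5) (nat_lit 1) (nat_lit 2) (nat_lit 92) (nat_lit 49) (nat_lit 100) (nat_lit 380) (.stt (nat_lit 1) (.ref (nat_lit 108)) (.ref (nat_lit 109))))))) (.spl (nat_lit 1) (nat_lit 280) (.trX (nat_lit 3) (nat_lit 0) (nat_lit 1) (nat_lit 48) (nat_lit 71) (nat_lit 100) (nat_lit 360) (.spl (nat_lit 4) (nat_lit 160) (.trX (nat_lit 5) (nat_lit 3) (nat_lit 4) (nat_lit 94) (nat_lit 59) (nat_lit 100) (nat_lit 370) (.spl (nat_lit 5) (nat_lit 200)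 (.ref (nat_lit 110)) (.ref (nat_lit 111)))) (.spl (nat_lit 5) (nat_lit 120) (.ref (nat_lit 112)) (.ref (nat_lit 113))))) (.trX (nat_lit 5) (nat_lit 1) (nat_lit 2) (nat_lit 92) (nat_lit 49) (nat_lit 100) (nat_lit 380) (.spl (nat_lit 2) (nat_lit 160) (.trX (nat_lit 4) (nat_lit 0) (nat_lit 2) (nat_lit 44) (nat_lit 99) (nat_lit 100) (nat_lit 250) (.trX (nat_lit 5) (nat_lit 1) (nat_lit 2) (nat_lit 94) (nat_lit 59) (nat_lit 100) (nat_lit 370) (.spl (nat_lit 0) (nat_lit 390) (.ref (nat_lit 114)) (.ref (nat_lit 115))))) (.ref (nat_lit 116))))))) (.trZ (nat_lit 0) (nat_lit 2) (nat_lit 4) (nat_lit 100) (nat_lit 44) (nat_lit 86) (nat_lit 90) (.spl (nat_lit 1) (nat_lit 280) (.trX (nat_lit 3) (nat_lit 0) (nat_lit 1) (nat_lit 48) (nat_lit 71) (nat_lit 100) (nat_lit 360) (.spl (nat_lit 6) (nat_lit 108) (.spl (nat_lit 3) (nat_lit 240) (.ref (nat_lit 117)) (.ref (nat_lit 118)))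 (.dle (nat_lit 0)))) (.ref (nat_lit 119))))) (.spl (nat_lit 2) (nat_lit 180) (.trX (nat_lit 4) (nat_lit 0) (nat_lit 2) (nat_lit 44) (nat_lit 94) (nat_lit 100) (nat_lit 270) (.spl (nat_lit 1) (nat_lit 280) (.trX (nat_lit 3) (nat_lit 0) (nat_lit 1) (nat_lit 48) (nat_lit 71) (nat_lit 100) (nat_lit 360) (.spl (nat_lit 6) (nat_lit 156) (.spl (nat_lit 0) (nat_lit 390) (.dle (nat_lit 0)) (.trZ (nat_lit 0) (nat_lit 1) (nat_lit 3) (nat_lit 99) (nat_lit 31) (nat_lit 100) (nat_lit 170) (.trX (nat_lit 3) (nat_lit 0) (nat_lit 1) (nat_lit 34) (nat_lit 81) (nat_lit 100) (nat_lit 340) (.trZ (nat_lit 0) (nat_lit 2) (nat_lit 4) (nat_lit 100) (nat_lit 34) (nat_lit 81) (nat_lit 60) (.trX (nat_lit 4) (nat_lit 0) (nat_lit 2) (nat_lit 31) (nat_lit 98) (nat_lit 100) (nat_lit 250) (.spl (nat_lit 5) (nat_lit 200) (.ref (nat_lit 120)) (.ref (nat_lit 121)))))))) (.dle (nat_lit 0)))) (.trZ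 (nat_lit 0) (nat_lit 1) (nat_lit 3) (nat_lit 92) (nat_lit 44) (nat_lit 100) (nat_lit 190) (.trX (nat_lit 5) (nat_lit 1) (nat_lit 2) (nat_lit 92) (nat_lit 49) (nat_lit 100) (nat_lit 380) (.spl (nat_lit 5) (nat_lit 200) (.spl (nat_lit 1) (nat_lit 300) (.ref (nat_lit 122)) (.ref (nat_lit 123))) (.spl (nat_lit 0) (nat_lit 390) (.ref (nat_lit 124)) (.ref (nat_lit 125)))))))) (.ref (nat_lit 126)))))) (.trZ (nat_lit 0) (nat_lit 2) (nat_lit 4) (nat_lit 100) (nat_lit 44) (nat_lit 94) (nat_lit 130) (.spl (nat_lit 6) (nat_lit 132) (.spl (nat_lit 6) (nat_lit 68) (.stt (nat_lit 3) (.ref (nat_lit 127)) (.spl (nat_lit 2) (nat_lit 280) (.trX (nat_lit 4) (nat_lit 0) (nat_lit 2) (nat_lit 48) (nat_lit 71) (nat_lit 100) (nat_lit 360) (.stt (nat_lit 2) (.ref (nat_lit 128)) (.spl (nat_lit 3) (nat_lit 280) (.spl (nat_lit 4) (nat_lit 240) (.spl (nat_lit 1) (nat_lit 280) (.ref (nat_lit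 129)) (.ref (nat_lit 130))) (.spl (nat_lit 1) (nat_lit 280) (.spl (nat_lit 2) (nat_lit 260) (.trX (nat_lit 4) (nat_lit 0) (nat_lit 2) (nat_lit 46) (nat_lit 76) (nat_lit 100) (nat_lit 340) (.spl (nat_lit 6) (nat_lit 36) (.ref (nat_lit 131)) (.ref (nat_lit 132)))) (.ref (nat_lit 133))) (.ref (nat_lit 134)))) (.spl (nat_lit 4) (nat_lit 240) (.ref (nat_lit 135)) (.ref (nat_lit 136)))))) (.ref (nat_lit 137)))) (.spl (nat_lit 1) (nat_lit 280) (.ord (.trX (nat_lit 3) (nat_lit 0) (nat_lit 1) (nat_lit 48) (nat_lit 71) (nat_lit 100) (nat_lit 360) (.trX (nat_lit 4) (nat_lit 0) (nat_lit 2) (nat_lit 48) (nat_lit 71) (nat_lit 100) (nat_lit 360) (.spl (nat_lit 6) (nat_lit 108) (.spl (nat_lit 5) (nat_lit 120) (.ref (nat_lit 138)) (.ref (nat_lit 139))) (.dle (nat_lit 0)))))) (.ref (nat_lit 140)))) (.dle (nat_lit 0)))))))))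
theorem r14 (h : EC env Ei) : Dead (rootSt (nat_lit 176) ((nat_lit 380), (nat_lit 400), (nat_lit 240), (nat_lit 320), (nat_lit 120), (nat_lit 320))) :=
  chkT_sound h (refs := (l024 ++ (l025 ++ (l026 ++ l027)))) (List.forall_mem_append.mpr ⟨t024 h, (List.forall_mem_append.mpr ⟨t025 h, (List.forall_mem_append.mpr ⟨t026 h, (t027 h)⟩)⟩)⟩) (T := top14) (by decide +kernel)
noncomputable def top15 : Tr Lf :=
 (.trZ (nat_lit 0) (nat_lit 1) (nat_lit 3) (nat_lit 82) (nat_lit 44) (nat_lit 100) (nat_lit 230) (.trZ (nat_lit 0) (nat_lit 2) (nat_lit 4) (nat_lit 100) (nat_lit 48) (nat_lit 71) (nat_lit 40) (.spl (nat_lit 2) (nat_lit 260) (.trX (nat_lit 4) (nat_lit 0) (nat_lit 2) (nat_lit 46) (nat_lit 76) (nat_lit 100) (nat_lit 340) (.trX (nat_lit 5) (nat_lit 1) (nat_lit 2) (nat_lit 84) (nat_lit 35) (nat_lit 100) (nat_lit 390) (.spl (nat_lit 6) (nat_lit 116) (.spl (nat_lit 6) (nat_lit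 60) (.stt (nat_lit 3) (.stt (nat_lit 1) (.spl (nat_lit 4) (nat_lit 200) (.ref (nat_lit 0)) (.ref (nat_lit 1))) (.ref (nat_lit 2))) (.stt (nat_lit 2) (.spl (nat_lit 5) (nat_lit 200) (.ref (nat_lit 3)) (.spl (nat_lit 5) (nat_lit 280) (.ref (nat_lit 4)) (.ref (nat_lit 5)))) (.spl (nat_lit 2) (nat_lit 200) (.trX (nat_lit 4) (nat_lit 0) (nat_lit 2) (nat_lit 44) (nat_lit 90) (nat_lit 100) (nat_lit 290) (.trX (nat_lit 5) (nat_lit 1) (nat_lit 2) (nat_lit 80) (nat_lit 60) (nat_lit 100) (nat_lit 360) (.spl (nat_lit 4) (nat_lit 160) (.spl (nat_lit 5) (nat_lit 200) (.ref (nat_lit 6)) (.spl (nat_lit 3) (nat_lit 320) (.ref (nat_lit 7)) (.ref (nat_lit 8)))) (.spl (nat_lit 1) (nat_lit 360) (.spl (nat_lit 1) (nat_lit 340) (.trX (nat_lit 3) (nat_lit 0) (nat_lit 1) (nat_lit 61) (nat_lit 47) (nat_lit 100) (nat_lit 390) (.spl (nat_lit 3) (nat_lit 320) (.ref (nat_lit 9)) (.trZ (nat_lit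 3) (nat_lit 4) (nat_lit 5) (nat_lit 100) (nat_lit 82) (nat_lit 44) (nat_lit 10) (.stt (nat_lit 1) (.spl (nat_lit 5) (nat_lit 200) (.ref (nat_lit 10)) (.ref (nat_lit 11))) (.ref (nat_lit 12)))))) (.ref (nat_lit 13))) (.ref (nat_lit 14)))))) (.ref (nat_lit 15))))) (.spl (nat_lit 2) (nat_lit 200) (.trX (nat_lit 4) (nat_lit 0) (nat_lit 2) (nat_lit 44) (nat_lit 90) (nat_lit 100) (nat_lit 290) (.trX (nat_lit 5) (nat_lit 1) (nat_lit 2) (nat_lit 80) (nat_lit 60) (nat_lit 100) (nat_lit 360) (.spl (nat_lit 1) (nat_lit 360) (.stt (nat_lit 1) (.spl (nat_lit 4) (nat_lit 160) (.ref (nat_lit 16)) (.ref (nat_lit 17))) (.ref (nat_lit 18))) (.ref (nat_lit 19))))) (.ref (nat_lit 20)))) (.spl (nat_lit 2) (nat_lit 200) (.trX (nat_lit 4) (nat_lit 0) (nat_lit 2) (nat_lit 44) (nat_lit 90) (nat_lit 100) (nat_lit 290) (.trX (nat_lit 5) (nat_lit 1) (nat_lit 2) (nat_lit 80) (nat_lit 60) (nat_lit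 100) (nat_lit 360) (.spl (nat_lit 2) (nat_lit 160) (.trX (nat_lit 4) (nat_lit 0) (nat_lit 2) (nat_lit 44) (nat_lit 99) (nat_lit 100) (nat_lit 250) (.trX (nat_lit 5) (nat_lit 1) (nat_lit 2) (nat_lit 82) (nat_lit 76) (nat_lit 100) (nat_lit 340) (.spl (nat_lit 1) (nat_lit 360) (.spl (nat_lit 2) (nat_lit 140) (.trX (nat_lit 4) (nat_lit 0) (nat_lit 2) (nat_lit 44) (nat_lit 100) (nat_lit 96) (nat_lit 230) (.trX (nat_lit 5) (nat_lit 1) (nat_lit 2) (nat_lit 84) (nat_lit 85) (nat_lit 100) (nat_lit 320) (.spl (nat_lit 1) (nat_lit 340) (.trX (nat_lit 3) (nat_lit 0) (nat_lit 1) (nat_lit 61) (nat_lit 47) (nat_lit 100) (nat_lit 390) (.spl (nat_lit 3) (nat_lit 320) (.ref (nat_lit 21)) (.ref (nat_lit 22)))) (.ref (nat_lit 23))))) (.trZ (nat_lit 0) (nat_lit 2) (nat_lit 4) (nat_lit 100) (nat_lit 46) (nat_lit 76) (nat_lit 60) (.trZ (nat_lit 1) (nat_lit 2) (nat_lit 5) (nat_lit 100)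 (nat_lit 84) (nat_lit 35) (nat_lit 10) (.spl (nat_lit 1) (nat_lit 340) (.ref (nat_lit 24)) (.ref (nat_lit 25)))))) (.trZ (nat_lit 0) (nat_lit 1) (nat_lit 3) (nat_lit 68) (nat_lit 49) (nat_lit 100) (nat_lit 290) (.trZ (nat_lit 1) (nat_lit 2) (nat_lit 5) (nat_lit 100) (nat_lit 65) (nat_lit 54) (nat_lit 20) (.trX (nat_lit 5) (nat_lit 1) (nat_lit 2) (nat_lit 61) (nat_lit 92) (nat_lit 100) (nat_lit 290) (.spl (nat_lit 5) (nat_lit 160) (.ref (nat_lit 26)) (.stt (nat_lit 3) (.ref (nat_lit 27)) (.ref (nat_lit 28)))))))))) (.trZ (nat_lit 0) (nat_lit 2) (nat_lit 4) (nat_lit 100) (nat_lit 44) (nat_lit 81) (nat_lit 70) (.trZ (nat_lit 1) (nat_lit 2) (nat_lit 5) (nat_lit 100) (nat_lit 82) (nat_lit 44) (nat_lit 10) (.spl (nat_lit 1) (nat_lit 360) (.spl (nat_lit 6) (nat_lit 200) (.spl (nat_lit 2) (nat_lit 180) (.ref (nat_lit 29)) (.ref (nat_lit 30))) (.dle (nat_lit 0))) (.trZ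 (nat_lit 0) (nat_lit 1) (nat_lit 3) (nat_lit 68) (nat_lit 49) (nat_lit 100) (nat_lit 290) (.trZ (nat_lit 1) (nat_lit 2) (nat_lit 5) (nat_lit 100) (nat_lit 61) (nat_lit 68) (nat_lit 50) (.trX (nat_lit 5) (nat_lit 1) (nat_lit 2) (nat_lit 60) (nat_lit 80) (nat_lit 100) (nat_lit 320) (.spl (nat_lit 5) (nat_lit 200) (.ref (nat_lit 31)) (.ref (nat_lit 32)))))))))))) (.ref (nat_lit 33)))))) (.ref (nat_lit 34)))))
theorem r15 (h : EC env Ei) : Dead (rootSt (nat_lit 228) ((nat_lit 380), (nat_lit 400), (nat_lit 320), (nat_lit 400), (nat_lit 120), (nat_lit 400))) :=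
  chkT_sound h (refs := (l028 ++ l029)) (List.forall_mem_append.mpr ⟨t028 h, (t029 h)⟩) (T := top15) (by decide +kernel)
noncomputable def top16 : Tr Lf :=
 (.trZ (nat_lit 0) (nat_lit 1) (nat_lit 3) (nat_lit 100) (nat_lit 65) (nat_lit 54) (nat_lit 20) (.trX (nat_lit 3) (nat_lit 0) (nat_lit 1) (nat_lit 61) (nat_lit 68) (nat_lit 100) (nat_lit 350) (.trZ (nat_lit 0) (nat_lit 2) (nat_lit 4) (nat_lit 100) (nat_lit 65) (nat_lit 54) (nat_lit 20) (.trX (nat_lit 4) (nat_lit 0) (nat_lit 2) (nat_lit 61) (nat_lit 68) (nat_lit 100) (nat_lit 350) (.spl (nat_lit 6) (nat_lit 100) (.spl (nat_lit 3) (nat_lit 120) (.spl (nat_lit 2) (nat_lit 180) (.trX (nat_lit 4) (nat_lit 0) (nat_lit 2) (nat_lit 60) (nat_lit 86) (nat_lit 100) (nat_lit 310) (.spl (nat_lit 6) (nat_lit 52) (.spl (nat_lit 4) (nat_lit 160) (.ref (nat_lit 0)) (.spl (nat_lit 1) (nat_lit 180) (.ref (nat_lit 1)) (.ref (nat_lit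 2)))) (.ref (nat_lit 3)))) (.ord (.trZ (nat_lit 0) (nat_lit 1) (nat_lit 3) (nat_lit 100) (nat_lit 60) (nat_lit 74) (nat_lit 60) (.trZ (nat_lit 0) (nat_lit 2) (nat_lit 4) (nat_lit 100) (nat_lit 60) (nat_lit 74) (nat_lit 60) (.spl (nat_lit 6) (nat_lit 68) (.spl (nat_lit 4) (nat_lit 200) (.ref (nat_lit 4)) (.trX (nat_lit 5) (nat_lit 4) (nat_lit 3) (nat_lit 100) (nat_lit 40) (nat_lit 92) (nat_lit 390) (.spl (nat_lit 4) (nat_lit 280) (.ref (nat_lit 5)) (.trX (nat_lit 5) (nat_lit 4) (nat_lit 3) (nat_lit 100) (nat_lit 80) (nat_lit 100) (nat_lit 340) (.spl (nat_lit 6) (nat_lit 36) (.ref (nat_lit 6)) (.spl (nat_lit 2) (nat_lit 220) (.ref (nat_lit 7)) (.ref (nat_lit 8)))))))) (.dle (nat_lit 0))))))) (.spl (nat_lit 6) (nat_lit 52) (.spl (nat_lit 4) (nat_lit 200) (.spl (nat_lit 6) (nat_lit 28) (.spl (nat_lit 4) (nat_lit 120) (.spl (nat_lit 2) (nat_lit 180) (.spl (nat_lit 3)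 (nat_lit 240) (.ref (nat_lit 9)) (.ref (nat_lit 10))) (.ref (nat_lit 11))) (.spl (nat_lit 2) (nat_lit 180) (.spl (nat_lit 3) (nat_lit 240) (.ref (nat_lit 12)) (.ref (nat_lit 13))) (.ord (.spl (nat_lit 3) (nat_lit 240) (.ref (nat_lit 14)) (.ref (nat_lit 15)))))) (.spl (nat_lit 3) (nat_lit 240) (.spl (nat_lit 2) (nat_lit 180) (.ref (nat_lit 16)) (.ref (nat_lit 17))) (.spl (nat_lit 2) (nat_lit 180) (.spl (nat_lit 1) (nat_lit 180) (.ref (nat_lit 18)) (.spl (nat_lit 4) (nat_lit 120) (.ref (nat_lit 19)) (.ref (nat_lit 20)))) (.ord (.trZ (nat_lit 0) (nat_lit 2) (nat_lit 4) (nat_lit 100) (nat_lit 60) (nat_lit 74) (nat_lit 60) (.spl (nat_lit 1) (nat_lit 220) (.ref (nat_lit 21)) (.ref (nat_lit 22)))))))) (.spl (nat_lit 2) (nat_lit 180) (.trX (nat_lit 4) (nat_lit 0) (nat_lit 2) (nat_lit 60) (nat_lit 86) (nat_lit 100) (nat_lit 310) (.spl (nat_lit 3) (nat_lit 240) (.spl (nat_lit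 1) (nat_lit 180) (.ref (nat_lit 23)) (.stt (nat_lit 1) (.ref (nat_lit 24)) (.stt (nat_lit 2) (.ref (nat_lit 25)) (.ref (nat_lit 26))))) (.spl (nat_lit 1) (nat_lit 180) (.trX (nat_lit 3) (nat_lit 0) (nat_lit 1) (nat_lit 60) (nat_lit 86) (nat_lit 100) (nat_lit 310) (.spl (nat_lit 2) (nat_lit 160) (.ref (nat_lit 27)) (.ref (nat_lit 28)))) (.stt (nat_lit 1) (.spl (nat_lit 3) (nat_lit 280) (.ref (nat_lit 29)) (.trZ (nat_lit 3) (nat_lit 4) (nat_lit 5) (nat_lit 100) (nat_lit 92) (nat_lit 40) (nat_lit 10) (.spl (nat_lit 2) (nat_lit 160) (.trX (nat_lit 4) (nat_lit 0) (nat_lit 2) (nat_lit 61) (nat_lit 92) (nat_lit 100) (nat_lit 290) (.spl (nat_lit 3) (nat_lit 320) (.ref (nat_lit 30)) (.ref (nat_lit 31)))) (.ref (nat_lit 32))))) (.ref (nat_lit 33)))))) (.ord (.spl (nat_lit 3) (nat_lit 240) (.stt (nat_lit 3) (.ref (nat_lit 34)) (.spl (nat_lit 4) (nat_lit 280) (.ref (nat_lit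 35)) (.spl (nat_lit 2) (nat_lit 220) (.ref (nat_lit 36)) (.ref (nat_lit 37))))) (.stt (nat_lit 1) (.spl (nat_lit 5) (nat_lit 120) (.ref (nat_lit 38)) (.ref (nat_lit 39))) (.ref (nat_lit 40))))))) (.spl (nat_lit 4) (nat_lit 200) (.spl (nat_lit 3) (nat_lit 240) (.spl (nat_lit 2) (nat_lit 180) (.ref (nat_lit 41)) (.ref (nat_lit 42))) (.spl (nat_lit 2) (nat_lit 180) (.spl (nat_lit 1) (nat_lit 180) (.ref (nat_lit 43)) (.spl (nat_lit 6) (nat_lit 88) (.spl (nat_lit 4) (nat_lit 120) (.trX (nat_lit 5) (nat_lit 3) (nat_lit 4) (nat_lit 100) (nat_lit 59) (nat_lit 94) (nat_lit 370) (.spl (nat_lit 3) (nat_lit 280) (.ref (nat_lit 44)) (.ref (nat_lit 45)))) (.ref (nat_lit 46))) (.dle (nat_lit 0)))) (.ref (nat_lit 47)))) (.spl (nat_lit 2) (nat_lit 180) (.trX (nat_lit 4) (nat_lit 0) (nat_lit 2) (nat_lit 60) (nat_lit 86) (nat_lit 100) (nat_lit 310) (.spl (nat_lit 3) (nat_lit 240)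 (.spl (nat_lit 1) (nat_lit 180) (.ref (nat_lit 48)) (.spl (nat_lit 6) (nat_lit 88) (.spl (nat_lit 0) (nat_lit 370) (.ref (nat_lit 49)) (.trX (nat_lit 4) (nat_lit 0) (nat_lit 2) (nat_lit 53) (nat_lit 90) (nat_lit 100) (nat_lit 290) (.spl (nat_lit 2) (nat_lit 160) (.ref (nat_lit 50)) (.ref (nat_lit 51))))) (.dle (nat_lit 0)))) (.spl (nat_lit 1) (nat_lit 180) (.ref (nat_lit 52)) (.spl (nat_lit 6) (nat_lit 88) (.spl (nat_lit 5) (nat_lit 120) (.ref (nat_lit 53)) (.ref (nat_lit 54))) (.dle (nat_lit 0)))))) (.ord (.spl (nat_lit 6) (nat_lit 68) (.spl (nat_lit 3) (nat_lit 240) (.spl (nat_lit 2) (nat_lit 220) (.trX (nat_lit 4) (nat_lit 0) (nat_lit 2) (nat_lit 60) (nat_lit 74) (nat_lit 100) (nat_lit 340) (.spl (nat_lit 2) (nat_lit 200) (.trX (nat_lit 4) (nat_lit 0) (nat_lit 2) (nat_lit 60) (nat_lit 80) (nat_lit 100) (nat_lit 320) (.spl (nat_lit 4) (nat_lit 280) (.ref (nat_lit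 55)) (.ref (nat_lit 56)))) (.ref (nat_lit 57)))) (.ref (nat_lit 58))) (.ref (nat_lit 59))) (.dle (nat_lit 0)))))))) (.dle (nat_lit 0)))))))
theorem r16 (h : EC env Ei) : Dead (rootSt (nat_lit 128) ((nat_lit 360), (nat_lit 380), (nat_lit 120), (nat_lit 240), (nat_lit 120), (nat_lit 240))) :=
  chkT_sound h (refs := (l030 ++ l031)) (List.forall_mem_append.mpr ⟨t030 h, (t031 h)⟩) (T := top16) (by decide +kernel)
noncomputable def top17 : Tr Lf :=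
 (.trZ (nat_lit 0) (nat_lit 1) (nat_lit 3) (nat_lit 100) (nat_lit 61) (nat_lit 92) (nat_lit 110) (.trZ (nat_lit 0) (nat_lit 2) (nat_lit 4) (nat_lit 100) (nat_lit 65) (nat_lit 54) (nat_lit 20) (.spl (nat_lit 6) (nat_lit 152) (.spl (nat_lit 2) (nat_lit 220) (.trX (nat_lit 4) (nat_lit 0) (nat_lit 2) (nat_lit 60) (nat_lit 74) (nat_lit 100) (nat_lit 340) (.spl (nat_lit 6) (nat_lit 76) (.spl (nat_lit 6) (nat_lit 40) (.spl (nat_lit 4) (nat_lit 120) (.stt (nat_lit 2) (.ref (nat_lit 0)) (.spl (nat_lit 3) (nat_lit 240) (.ref (nat_lit 1)) (.trX (nat_lit 5) (nat_lit 3) (nat_lit 4) (nat_lit 100) (nat_lit 59) (nat_lit 94) (nat_lit 370) (.spl (nat_lit 3) (nat_lit 320) (.spl (nat_lit 1) (nat_lit 280) (.ref (nat_lit 2)) (.ref (nat_lit 3))) (.trX (nat_lit 5) (nat_lit 3) (nat_lit 4) (nat_lit 87) (nat_lit 95) (nat_lit 100) (nat_lit 300) (.spl (nat_lit 1) (nat_lit 280) (.trX (nat_lit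 3) (nat_lit 0) (nat_lit 1) (nat_lit 65) (nat_lit 54) (nat_lit 100) (nat_lit 380) (.stt (nat_lit 1) (.ref (nat_lit 4)) (.ref (nat_lit 5)))) (.ref (nat_lit 6)))))))) (.stt (nat_lit 3) (.stt (nat_lit 2) (.ref (nat_lit 7)) (.spl (nat_lit 3) (nat_lit 240) (.spl (nat_lit 5) (nat_lit 120) (.spl (nat_lit 4) (nat_lit 240) (.ref (nat_lit 8)) (.ref (nat_lit 9))) (.ref (nat_lit 10))) (.spl (nat_lit 5) (nat_lit 120) (.spl (nat_lit 1) (nat_lit 280) (.ref (nat_lit 11)) (.ref (nat_lit 12))) (.ref (nat_lit 13))))) (.spl (nat_lit 4) (nat_lit 240) (.spl (nat_lit 6) (nat_lit 20) (.spl (nat_lit 3) (nat_lit 240) (.stt (nat_lit 2) (.ref (nat_lit 14)) (.ref (nat_lit 15))) (.stt (nat_lit 2) (.ref (nat_lit 16)) (.spl (nat_lit 3) (nat_lit 320) (.stt (nat_lit 1) (.spl (nat_lit 2) (nat_lit 180) (.ref (nat_lit 17)) (.ref (nat_lit 18))) (.ref (nat_lit 19))) (.trX (nat_lit 5) (nat_lit 3) (nat_lit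 4) (nat_lit 82) (nat_lit 44) (nat_lit 100) (nat_lit 390) (.spl (nat_lit 2) (nat_lit 180) (.stt (nat_lit 1) (.spl (nat_lit 3) (nat_lit 360) (.spl (nat_lit 4) (nat_lit 200) (.ref (nat_lit 20)) (.ref (nat_lit 21))) (.trZ (nat_lit 3) (nat_lit 4) (nat_lit 5) (nat_lit 100) (nat_lit 65) (nat_lit 54) (nat_lit 20) (.trX (nat_lit 5) (nat_lit 3) (nat_lit 4) (nat_lit 61) (nat_lit 68) (nat_lit 100) (nat_lit 350) (.spl (nat_lit 1) (nat_lit 280) (.ref (nat_lit 22)) (.ref (nat_lit 23)))))) (.ref (nat_lit 24))) (.ref (nat_lit 25))))))) (.spl (nat_lit 3) (nat_lit 240) (.spl (nat_lit 2) (nat_lit 180) (.stt (nat_lit 2) (.ref (nat_lit 26)) (.ref (nat_lit 27))) (.ref (nat_lit 28))) (.spl (nat_lit 2) (nat_lit 180) (.spl (nat_lit 1) (nat_lit 280) (.trX (nat_lit 3) (nat_lit 0) (nat_lit 1) (nat_lit 65) (nat_lit 54) (nat_lit 100) (nat_lit 380) (.stt (nat_lit 1) (.spl (nat_lit 3) (nat_lit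 320) (.ref (nat_lit 29)) (.ref (nat_lit 30))) (.ref (nat_lit 31)))) (.trX (nat_lit 5) (nat_lit 1) (nat_lit 2) (nat_lit 92) (nat_lit 49) (nat_lit 100) (nat_lit 380) (.spl (nat_lit 5) (nat_lit 200) (.ref (nat_lit 32)) (.stt (nat_lit 1) (.spl (nat_lit 2) (nat_lit 160) (.trX (nat_lit 5) (nat_lit 1) (nat_lit 2) (nat_lit 94) (nat_lit 59) (nat_lit 100) (nat_lit 370) (.spl (nat_lit 3) (nat_lit 320) (.ref (nat_lit 33)) (.ref (nat_lit 34)))) (.ref (nat_lit 35))) (.ref (nat_lit 36)))))) (.ref (nat_lit 37))))) (.spl (nat_lit 3) (nat_lit 240) (.stt (nat_lit 2) (.spl (nat_lit 5) (nat_lit 200) (.ref (nat_lit 38)) (.ref (nat_lit 39))) (.spl (nat_lit 2) (nat_lit 180) (.trX (nat_lit 4) (nat_lit 0) (nat_lit 2) (nat_lit 60) (nat_lit 86) (nat_lit 100) (nat_lit 310) (.stt (nat_lit 1) (.spl (nat_lit 3) (nat_lit 160) (.ref (nat_lit 40)) (.spl (nat_lit 2) (nat_lit 160) (.trX (nat_lit 4)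 (nat_lit 0) (nat_lit 2) (nat_lit 61) (nat_lit 92) (nat_lit 100) (nat_lit 290) (.trX (nat_lit 5) (nat_lit 1) (nat_lit 2) (nat_lit 100) (nat_lit 40) (nat_lit 100) (nat_lit 390) (.spl (nat_lit 1) (nat_lit 280) (.ref (nat_lit 41)) (.ref (nat_lit 42))))) (.ref (nat_lit 43)))) (.ref (nat_lit 44)))) (.spl (nat_lit 1) (nat_lit 280) (.spl (nat_lit 3) (nat_lit 160) (.ref (nat_lit 45)) (.ref (nat_lit 46))) (.ref (nat_lit 47))))) (.trZ (nat_lit 3) (nat_lit 4) (nat_lit 5) (nat_lit 100) (nat_lit 100) (nat_lit 40) (nat_lit 10) (.spl (nat_lit 2) (nat_lit 180) (.trX (nat_lit 4) (nat_lit 0) (nat_lit 2) (nat_lit 60) (nat_lit 86) (nat_lit 100) (nat_lit 310) (.stt (nat_lit 2) (.ref (nat_lit 48)) (.spl (nat_lit 1) (nat_lit 280) (.trX (nat_lit 3) (nat_lit 0) (nat_lit 1) (nat_lit 65) (nat_lit 54) (nat_lit 100) (nat_lit 380) (.spl (nat_lit 2) (nat_lit 160) (.trX (nat_lit 4) (nat_lit 0)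 (nat_lit 2) (nat_lit 61) (nat_lit 92) (nat_lit 100) (nat_lit 290) (.trX (nat_lit 5) (nat_lit 1) (nat_lit 2) (nat_lit 100) (nat_lit 40) (nat_lit 100) (nat_lit 390) (.spl (nat_lit 3) (nat_lit 320) (.ref (nat_lit 49)) (.ref (nat_lit 50))))) (.ref (nat_lit 51)))) (.trX (nat_lit 5) (nat_lit 1) (nat_lit 2) (nat_lit 92) (nat_lit 49) (nat_lit 100) (nat_lit 380) (.spl (nat_lit 2) (nat_lit 160) (.trX (nat_lit 4) (nat_lit 0) (nat_lit 2) (nat_lit 61) (nat_lit 92) (nat_lit 100) (nat_lit 290) (.trX (nat_lit 5) (nat_lit 1) (nat_lit 2) (nat_lit 94) (nat_lit 59) (nat_lit 100) (nat_lit 370) (.spl (nat_lit 1) (nat_lit 300) (.trX (nat_lit 3) (nat_lit 0) (nat_lit 1) (nat_lit 69) (nat_lit 45) (nat_lit 100) (nat_lit 390) (.spl (nat_lit 2) (nat_lit 140) (.trX (nat_lit 4) (nat_lit 0) (nat_lit 2) (nat_lit 63) (nat_lit 99) (nat_lit 100) (nat_lit 270) (.trX (nat_lit 5) (nat_lit 1) (nat_lit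 2) (nat_lit 96) (nat_lit 69) (nat_lit 100) (nat_lit 360) (.spl (nat_lit 3) (nat_lit 320) (.ref (nat_lit 52)) (.ref (nat_lit 53))))) (.ref (nat_lit 54)))) (.ref (nat_lit 55))))) (.ref (nat_lit 56))))))) (.ref (nat_lit 57)))))))) (.spl (nat_lit 4) (nat_lit 120) (.stt (nat_lit 2) (.ref (nat_lit 58)) (.spl (nat_lit 3) (nat_lit 240) (.spl (nat_lit 1) (nat_lit 280) (.spl (nat_lit 2) (nat_lit 180) (.ref (nat_lit 59)) (.ref (nat_lit 60))) (.ref (nat_lit 61))) (.trX (nat_lit 5) (nat_lit 3) (nat_lit 4) (nat_lit 100) (nat_lit 59) (nat_lit 94) (nat_lit 370) (.spl (nat_lit 1) (nat_lit 280) (.trX (nat_lit 3) (nat_lit 0) (nat_lit 1) (nat_lit 65) (nat_lit 54) (nat_lit 100) (nat_lit 380) (.spl (nat_lit 3) (nat_lit 320) (.ref (nat_lit 62)) (.ref (nat_lit 63)))) (.ref (nat_lit 64)))))) (.spl (nat_lit 3) (nat_lit 240) (.spl (nat_lit 2) (nat_lit 180) (.trX (nat_lit 4) (nat_lit 0) (nat_lit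 2) (nat_lit 60) (nat_lit 86) (nat_lit 100) (nat_lit 310) (.spl (nat_lit 4) (nat_lit 200) (.spl (nat_lit 1) (nat_lit 280) (.ref (nat_lit 65)) (.ref (nat_lit 66))) (.stt (nat_lit 1) (.spl (nat_lit 3) (nat_lit 160) (.spl (nat_lit 0) (nat_lit 370) (.spl (nat_lit 4) (nat_lit 240) (.ref (nat_lit 67)) (.trX (nat_lit 5) (nat_lit 4) (nat_lit 3) (nat_lit 100) (nat_lit 40) (nat_lit 100) (nat_lit 390) (.spl (nat_lit 4) (nat_lit 280) (.ref (nat_lit 68)) (.ref (nat_lit 69))))) (.ref (nat_lit 70))) (.spl (nat_lit 2) (nat_lit 160) (.trX (nat_lit 4) (nat_lit 0) (nat_lit 2) (nat_lit 61) (nat_lit 92) (nat_lit 100) (nat_lit 290) (.trX (nat_lit 5) (nat_lit 1) (nat_lit 2) (nat_lit 100) (nat_lit 40) (nat_lit 100) (nat_lit 390) (.spl (nat_lit 1) (nat_lit 280) (.ref (nat_lit 71)) (.ref (nat_lit 72))))) (.spl (nat_lit 1) (nat_lit 280) (.ref (nat_lit 73)) (.ref (nat_lit 74))))) (.spl (nat_lit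 1) (nat_lit 280) (.spl (nat_lit 5) (nat_lit 120) (.spl (nat_lit 1) (nat_lit 260) (.stt (nat_lit 2) (.ref (nat_lit 75)) (.spl (nat_lit 3) (nat_lit 160) (.ref (nat_lit 76)) (.ref (nat_lit 77)))) (.ref (nat_lit 78))) (.ref (nat_lit 79))) (.ref (nat_lit 80)))))) (.spl (nat_lit 4) (nat_lit 240) (.spl (nat_lit 1) (nat_lit 280) (.spl (nat_lit 5) (nat_lit 120) (.ref (nat_lit 81)) (.ref (nat_lit 82))) (.ref (nat_lit 83))) (.spl (nat_lit 1) (nat_lit 280) (.spl (nat_lit 5) (nat_lit 120) (.ref (nat_lit 84)) (.ref (nat_lit 85))) (.ref (nat_lit 86))))) (.spl (nat_lit 2) (nat_lit 180) (.trX (nat_lit 4) (nat_lit 0) (nat_lit 2) (nat_lit 60) (nat_lit 86) (nat_lit 100) (nat_lit 310) (.spl (nat_lit 1) (nat_lit 280) (.trX (nat_lit 3) (nat_lit 0) (nat_lit 1) (nat_lit 65) (nat_lit 54) (nat_lit 100) (nat_lit 380) (.spl (nat_lit 2) (nat_lit 160) (.trX (nat_lit 4) (nat_lit 0) (nat_lit 2)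 (nat_lit 61) (nat_lit 92) (nat_lit 100) (nat_lit 290) (.trX (nat_lit 5) (nat_lit 1) (nat_lit 2) (nat_lit 100) (nat_lit 40) (nat_lit 100) (nat_lit 390) (.spl (nat_lit 4) (nat_lit 200) (.spl (nat_lit 3) (nat_lit 320) (.ref (nat_lit 87)) (.ref (nat_lit 88))) (.spl (nat_lit 5) (nat_lit 200) (.ref (nat_lit 89)) (.ref (nat_lit 90)))))) (.ref (nat_lit 91)))) (.trX (nat_lit 5) (nat_lit 1) (nat_lit 2) (nat_lit 92) (nat_lit 49) (nat_lit 100) (nat_lit 380) (.stt (nat_lit 3) (.ref (nat_lit 92)) (.spl (nat_lit 2) (nat_lit 160) (.trX (nat_lit 4) (nat_lit 0) (nat_lit 2) (nat_lit 61) (nat_lit 92) (nat_lit 100) (nat_lit 290) (.trX (nat_lit 5) (nat_lit 1) (nat_lit 2) (nat_lit 94) (nat_lit 59) (nat_lit 100) (nat_lit 370) (.spl (nat_lit 1) (nat_lit 300) (.ref (nat_lit 93)) (.ref (nat_lit 94))))) (.ref (nat_lit 95))))))) (.ref (nat_lit 96)))))) (.spl (nat_lit 4) (nat_lit 120) (.spl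 (nat_lit 3) (nat_lit 240) (.spl (nat_lit 1) (nat_lit 280) (.spl (nat_lit 6) (nat_lit 112) (.spl (nat_lit 2) (nat_lit 180) (.spl (nat_lit 4) (nat_lit 80) (.spl (nat_lit 3) (nat_lit 160) (.ref (nat_lit 97)) (.ref (nat_lit 98))) (.ref (nat_lit 99))) (.ref (nat_lit 100))) (.dle (nat_lit 0))) (.trZ (nat_lit 0) (nat_lit 1) (nat_lit 3) (nat_lit 94) (nat_lit 62) (nat_lit 100) (nat_lit 150) (.spl (nat_lit 5) (nat_lit 200) (.ref (nat_lit 101)) (.ref (nat_lit 102))))) (.ref (nat_lit 103))) (.spl (nat_lit 3) (nat_lit 240) (.spl (nat_lit 2) (nat_lit 180) (.trX (nat_lit 4) (nat_lit 0) (nat_lit 2) (nat_lit 60) (nat_lit 86) (nat_lit 100) (nat_lit 310) (.spl (nat_lit 1) (nat_lit 280) (.spl (nat_lit 6) (nat_lit 112) (.spl (nat_lit 4) (nat_lit 200) (.spl (nat_lit 3) (nat_lit 160) (.ref (nat_lit 104)) (.ref (nat_lit 105))) (.spl (nat_lit 3) (nat_lit 160) (.ref (nat_lit 106)) (.spl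 (nat_lit 2) (nat_lit 160) (.ref (nat_lit 107)) (.ref (nat_lit 108))))) (.dle (nat_lit 0))) (.trZ (nat_lit 0) (nat_lit 1) (nat_lit 3) (nat_lit 94) (nat_lit 62) (nat_lit 100) (nat_lit 150) (.trX (nat_lit 5) (nat_lit 1) (nat_lit 2) (nat_lit 92) (nat_lit 49) (nat_lit 100) (nat_lit 380) (.spl (nat_lit 4) (nat_lit 200) (.spl (nat_lit 5) (nat_lit 200) (.ref (nat_lit 109)) (.ref (nat_lit 110))) (.spl (nat_lit 5) (nat_lit 120) (.ref (nat_lit 111)) (.ref (nat_lit 112)))))))) (.ref (nat_lit 113))) (.spl (nat_lit 2) (nat_lit 180) (.trX (nat_lit 4) (nat_lit 0) (nat_lit 2) (nat_lit 60) (nat_lit 86) (nat_lit 100) (nat_lit 310) (.spl (nat_lit 1) (nat_lit 280) (.ref (nat_lit 114)) (.trX (nat_lit 5) (nat_lit 1) (nat_lit 2) (nat_lit 92) (nat_lit 49) (nat_lit 100) (nat_lit 380) (.spl (nat_lit 5) (nat_lit 200) (.ref (nat_lit 115)) (.ref (nat_lit 116)))))) (.ref (nat_lit 117)))))))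 (.trZ (nat_lit 0) (nat_lit 2) (nat_lit 4) (nat_lit 100) (nat_lit 60) (nat_lit 86) (nat_lit 90) (.spl (nat_lit 6) (nat_lit 112) (.spl (nat_lit 6) (nat_lit 56) (.stt (nat_lit 2) (.ref (nat_lit 118)) (.spl (nat_lit 1) (nat_lit 280) (.ord (.trX (nat_lit 3) (nat_lit 0) (nat_lit 1) (nat_lit 65) (nat_lit 54) (nat_lit 100) (nat_lit 380) (.trX (nat_lit 4) (nat_lit 0) (nat_lit 2) (nat_lit 65) (nat_lit 54) (nat_lit 100) (nat_lit 380) (.spl (nat_lit 4) (nat_lit 240) (.spl (nat_lit 3) (nat_lit 240) (.ref (nat_lit 119)) (.spl (nat_lit 5) (nat_lit 120) (.ref (nat_lit 120)) (.ref (nat_lit 121)))) (.spl (nat_lit 3) (nat_lit 240) (.ref (nat_lit 122)) (.ref (nat_lit 123))))))) (.ref (nat_lit 124)))) (.spl (nat_lit 4) (nat_lit 240) (.spl (nat_lit 3) (nat_lit 240) (.ref (nat_lit 125)) (.ref (nat_lit 126))) (.ref (nat_lit 127)))) (.dle (nat_lit 0))))) (.dle (nat_lit 0)))))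
theorem r17 (h : EC env Ei) : Dead (rootSt (nat_lit 164) ((nat_lit 360), (nat_lit 380), (nat_lit 240), (nat_lit 320), (nat_lit 120), (nat_lit 320))) :=
  chkT_sound h (refs := (l032 ++ (l033 ++ (l034 ++ l035)))) (List.forall_mem_append.mpr ⟨t032 h, (List.forall_mem_append.mpr ⟨t033 h, (List.forall_mem_append.mpr ⟨t034 h, (t035 h)⟩)⟩)⟩) (T := top17) (by decide +kernel)
noncomputable def top18 : Tr Lf :=
 (.ord (.trZ (nat_lit 0) (nat_lit 1) (nat_lit 3) (nat_lit 80) (nat_lit 60) (nat_lit 100) (nat_lit 200) (.trZ (nat_lit 0) (nat_lit 2) (nat_lit 4) (nat_lit 100) (nat_lit 65) (nat_lit 54) (nat_lit 20) (.spl (nat_lit 2) (nat_lit 260) (.trX (nat_lit 4) (nat_lit 0) (nat_lit 2) (nat_lit 63) (nat_lit 61) (nat_lit 100) (nat_lit 370) (.trX (nat_lit 5) (nat_lit 1) (nat_lit 2) (nat_lit 84) (nat_lit 35) (nat_lit 100) (nat_lit 390) (.spl (nat_lit 6) (nat_lit 104) (.stt (nat_lit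 3) (.stt (nat_lit 1) (.spl (nat_lit 4) (nat_lit 200) (.ref (nat_lit 0)) (.ref (nat_lit 1))) (.spl (nat_lit 6) (nat_lit 52) (.spl (nat_lit 4) (nat_lit 120) (.ref (nat_lit 2)) (.ref (nat_lit 3))) (.ref (nat_lit 4)))) (.spl (nat_lit 6) (nat_lit 52) (.spl (nat_lit 2) (nat_lit 200) (.trX (nat_lit 4) (nat_lit 0) (nat_lit 2) (nat_lit 60) (nat_lit 80) (nat_lit 100) (nat_lit 320) (.trX (nat_lit 5) (nat_lit 1) (nat_lit 2) (nat_lit 80) (nat_lit 60) (nat_lit 100) (nat_lit 360) (.stt (nat_lit 1) (.spl (nat_lit 4) (nat_lit 160) (.ref (nat_lit 5)) (.spl (nat_lit 5) (nat_lit 200) (.ref (nat_lit 6)) (.spl (nat_lit 3) (nat_lit 320) (.spl (nat_lit 4) (nat_lit 240) (.ref (nat_lit 7)) (.ref (nat_lit 8))) (.spl (nat_lit 5) (nat_lit 280) (.ref (nat_lit 9)) (.spl (nat_lit 2) (nat_lit 160) (.ref (nat_lit 10)) (.ref (nat_lit 11))))))) (.spl (nat_lit 5) (nat_lit 200) (.ref (nat_lit 12))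 (.ref (nat_lit 13)))))) (.trZ (nat_lit 0) (nat_lit 2) (nat_lit 4) (nat_lit 100) (nat_lit 60) (nat_lit 80) (nat_lit 80) (.trZ (nat_lit 1) (nat_lit 2) (nat_lit 5) (nat_lit 100) (nat_lit 80) (nat_lit 60) (nat_lit 40) (.stt (nat_lit 1) (.ref (nat_lit 14)) (.ref (nat_lit 15)))))) (.spl (nat_lit 2) (nat_lit 200) (.trX (nat_lit 4) (nat_lit 0) (nat_lit 2) (nat_lit 60) (nat_lit 80) (nat_lit 100) (nat_lit 320) (.trX (nat_lit 5) (nat_lit 1) (nat_lit 2) (nat_lit 80) (nat_lit 60) (nat_lit 100) (nat_lit 360) (.spl (nat_lit 5) (nat_lit 200) (.ref (nat_lit 16)) (.stt (nat_lit 2) (.ref (nat_lit 17)) (.ref (nat_lit 18)))))) (.ref (nat_lit 19))))) (.spl (nat_lit 2) (nat_lit 200) (.trX (nat_lit 4) (nat_lit 0) (nat_lit 2) (nat_lit 60) (nat_lit 80) (nat_lit 100) (nat_lit 320) (.trX (nat_lit 5) (nat_lit 1) (nat_lit 2) (nat_lit 80) (nat_lit 60) (nat_lit 100) (nat_lit 360) (.spl (nat_lit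 2) (nat_lit 160) (.trX (nat_lit 4) (nat_lit 0) (nat_lit 2) (nat_lit 61) (nat_lit 92) (nat_lit 100) (nat_lit 290) (.trX (nat_lit 5) (nat_lit 1) (nat_lit 2) (nat_lit 82) (nat_lit 76) (nat_lit 100) (nat_lit 340) (.spl (nat_lit 1) (nat_lit 360) (.spl (nat_lit 2) (nat_lit 140) (.trX (nat_lit 4) (nat_lit 0) (nat_lit 2) (nat_lit 63) (nat_lit 99) (nat_lit 100) (nat_lit 270) (.trX (nat_lit 5) (nat_lit 1) (nat_lit 2) (nat_lit 84) (nat_lit 85) (nat_lit 100) (nat_lit 320) (.spl (nat_lit 1) (nat_lit 340) (.spl (nat_lit 6) (nat_lit 184) (.spl (nat_lit 3) (nat_lit 320) (.ref (nat_lit 20)) (.ref (nat_lit 21))) (.dle (nat_lit 0))) (.ref (nat_lit 22))))) (.trZ (nat_lit 0) (nat_lit 2) (nat_lit 4) (nat_lit 100) (nat_lit 63) (nat_lit 61) (nat_lit 30) (.trZ (nat_lit 1) (nat_lit 2) (nat_lit 5) (nat_lit 100) (nat_lit 84) (nat_lit 35) (nat_lit 10) (.spl (nat_lit 6) (nat_lit 184) (.spl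 (nat_lit 1) (nat_lit 340) (.ref (nat_lit 23)) (.ref (nat_lit 24))) (.dle (nat_lit 0)))))) (.trZ (nat_lit 0) (nat_lit 1) (nat_lit 3) (nat_lit 63) (nat_lit 63) (nat_lit 100) (nat_lit 250) (.trZ (nat_lit 1) (nat_lit 2) (nat_lit 5) (nat_lit 100) (nat_lit 65) (nat_lit 54) (nat_lit 20) (.trX (nat_lit 5) (nat_lit 1) (nat_lit 2) (nat_lit 61) (nat_lit 92) (nat_lit 100) (nat_lit 290) (.spl (nat_lit 2) (nat_lit 140) (.ref (nat_lit 25)) (.ref (nat_lit 26))))))))) (.trZ (nat_lit 0) (nat_lit 2) (nat_lit 4) (nat_lit 100) (nat_lit 61) (nat_lit 68) (nat_lit 50) (.trZ (nat_lit 1) (nat_lit 2) (nat_lit 5) (nat_lit 100) (nat_lit 82) (nat_lit 44) (nat_lit 10) (.spl (nat_lit 6) (nat_lit 192) (.spl (nat_lit 1) (nat_lit 360) (.ref (nat_lit 27)) (.ref (nat_lit 28))) (.dle (nat_lit 0)))))))) (.ref (nat_lit 29)))))) (.ref (nat_lit 30))))))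
theorem r18 (h : EC env Ei) : Dead (rootSt (nat_lit 204) ((nat_lit 360), (nat_lit 380), (nat_lit 320), (nat_lit 400), (nat_lit 120), (nat_lit 400))) :=
  chkT_sound h (refs := (l036 ++ l037)) (List.forall_mem_append.mpr ⟨t036 h, (t037 h)⟩) (T := top18) (by decide +kernel)
end TC
end Pool.Agent.Lib.MP_6947cd_al
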